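import Pool.Agent.Strip051.G.I8000_8600.Gn
import Pool.Agent.Strip051.PB.Corns
import Pool.Agent.Strip051.PB.CornW

/-! # Certificates of the aligned corners (generated) -/

set_option linter.all false

namespace Pool.Agent.Strip051.G.I8000_8600.Tab.CW

open Pool.Agent.Strip051.PB

def A011E_000 :
    ∃ t, chk3 (onCell 0 67108864 0 1073741824 858993459 64424510 (corW 3 c0B eng mog cA011E gB0q0 gB0q1 gB0q1 gB1q1 dB0q0 dB0q1 dB0q1 dB1q1 true false)) t 1 1 1 = true :=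
  ⟨(T.l 1), by decide +kernel⟩

def A011L_001 :
    ∃ t, chk3 (onCell 0 67108864 0 1073741824 858993459 64424510 (corW 3 c0B eng mog cA011L gB0q0 gB0q1 gB1q1 gB2q1 dB0q0 dB0q1 dB1q1 dB2q1 false true)) t 1 1 1 = true :=
  ⟨(T.l 2), by decide +kernel⟩

def A011L_002 :
    ∃ t, chk3 (onCell 0 67108864 0 1073741824 858993459 64424510 (corW 3 c0B eng mog cA011L gB0q0 gB0q1 gB2q1 gB3q1 dB0q0 dB0q1 dB2q1 dB3q1 true true)) t 1 1 1 = true :=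
  ⟨(T.l 2), by decide +kernel⟩

def A011L_003 :
    ∃ t, chk3 (onCell 0 67108864 0 1073741824 858993459 64424510 (corW 3 c0B eng mog cA011L gB0q0 gB0q1 gB3q1 gB4q1 dB0q0 dB0q1 dB3q1 dB4q1 true true)) t 1 1 1 = true :=
  ⟨(T.l 2), by decide +kernel⟩

def A011R_020 :
    ∃ t, chk3 (onCell 0 67108864 0 1073741824 858993459 64424510 (corW 3 c0B eng mog cA011R gB0q0 gB2q1 gB0q1 gB1q1 dB0q0 dB2q1 dB0q1 dB1q1 true false)) t 1 1 1 = true :=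
  ⟨(T.b (T.b (T.b (T.b (T.a (T.l 0) (T.l 0)) (T.l 1)) (T.l 1)) (T.l 1)) (T.l 1)), by decide +kernel⟩

def A011R_030 :
    ∃ t, chk3 (onCell 0 67108864 0 1073741824 858993459 64424510 (corW 3 c0B eng mog cA011R gB0q0 gB3q1 gB0q1 gB1q1 dB0q0 dB3q1 dB0q1 dB1q1 true false)) t 1 1 1 = true :=
  ⟨(T.b (T.b (T.b (T.c (T.l 0) (T.l 0)) (T.b (T.c (T.l 0) (T.a (T.l 816) (T.l 816))) (T.l 1))) (T.l 1)) (T.l 1)), by decide +kernel⟩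

def A011R_040_1_4_1 :
    ∃ t, chk3 (onCell 0 67108864 0 1073741824 858993459 64424510 (corW 3 c0B eng mog cA011R gB0q0 gB4q1 gB0q1 gB1q1 dB0q0 dB4q1 dB0q1 dB1q1 true false)) t 1 4 1 = true :=
  ⟨(T.b (T.a (T.l 0) (T.l 0)) (T.c (T.b (T.l 0) (T.a (T.l 0) (T.l 0))) (T.a (T.l 0) (T.l 0)))), by decide +kernel⟩

def A011R_040_1_20_1 :
    ∃ t, chk3 (onCell 0 67108864 0 1073741824 858993459 64424510 (corW 3 c0B eng mog cA011R gB0q0 gB4q1 gB0q1 gB1q1 dB0q0 dB4q1 dB0q1 dB1q1 true false)) t 1 20 1 = true :=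
  ⟨(T.c (T.b (T.a (T.l 0) (T.l 0)) (T.c (T.a (T.l 0) (T.l 0)) (T.l 4))) (T.c (T.a (T.l 0) (T.l 0)) (T.l 0))), by decide +kernel⟩

def A011R_040_1_84_1 :
    ∃ t, chk3 (onCell 0 67108864 0 1073741824 858993459 64424510 (corW 3 c0B eng mog cA011R gB0q0 gB4q1 gB0q1 gB1q1 dB0q0 dB4q1 dB0q1 dB1q1 true false)) t 1 84 1 = true :=
  ⟨(T.c (T.a (T.a (T.a (T.l 0) (T.l 0)) (T.l 0)) (T.a (T.l 0) (T.l 0))) (T.c (T.a (T.l 0) (T.l 0)) (T.l 0))), by decide +kernel⟩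

def A011R_040_1_170_1 :
    ∃ t, chk3 (onCell 0 67108864 0 1073741824 858993459 64424510 (corW 3 c0B eng mog cA011R gB0q0 gB4q1 gB0q1 gB1q1 dB0q0 dB4q1 dB0q1 dB1q1 true false)) t 1 170 1 = true :=
  ⟨(T.a (T.c (T.c (T.a (T.b (T.l 0) (T.b (T.a (T.c (T.a (T.c (T.c (T.b (T.l 816) (T.b (T.l 0) (T.a (T.b (T.l 0) (T.l 1)) (T.a (T.b (T.l 0) (T.l 1)) (T.l 0))))) (T.l 0)) (T.l 0)) (T.l 0)) (T.l 0)) (T.l 0)) (T.a (T.a (T.l 1) (T.b (T.c (T.b (T.a (T.l 1) (T.b (T.l 0) (T.l 1))) (T.l 1)) (T.l 0)) (T.l 1))) (T.b (T.c (T.a (T.b (T.l 0) (T.a (T.l 1) (T.b (T.l 0) (T.l 1)))) (T.l 0)) (T.l 0)) (T.a (T.l 1) (T.c (T.a (T.l 1) (T.a (T.l 1) (T.b (T.b (T.l 0) (T.l 1)) (T.l 1)))) (T.l 0))))))) (T.c (T.a (T.b (T.l 0) (T.c (T.b (T.l 0) (T.b (T.l 0) (T.a (T.b (T.l 0) (T.a (T.l 1) (T.b (T.a (T.l 1) (T.l 0)) (T.l 1)))) (T.a (T.c (T.a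 (T.c (T.a (T.c (T.b (T.l 816) (T.b (T.l 0) (T.l 1))) (T.l 0)) (T.l 0)) (T.l 0)) (T.l 0)) (T.l 0)) (T.l 0))))) (T.l 0))) (T.l 0)) (T.l 0))) (T.a (T.a (T.c (T.a (T.c (T.b (T.l 816) (T.b (T.l 0) (T.l 1))) (T.l 0)) (T.l 0)) (T.l 0)) (T.l 0)) (T.l 0))) (T.c (T.c (T.a (T.l 0) (T.l 0)) (T.l 0)) (T.a (T.l 0) (T.l 0)))) (T.c (T.c (T.a (T.a (T.l 0) (T.l 0)) (T.l 0)) (T.l 0)) (T.c (T.l 0) (T.l 0)))), by decide +kernel⟩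

def A011R_040_2_171_1 :
    ∃ t, chk3 (onCell 0 67108864 0 1073741824 858993459 64424510 (corW 3 c0B eng mog cA011R gB0q0 gB4q1 gB0q1 gB1q1 dB0q0 dB4q1 dB0q1 dB1q1 true false)) t 2 171 1 = true :=
  ⟨(T.a (T.l 1) (T.b (T.b (T.a (T.l 1) (T.b (T.a (T.b (T.c (T.c (T.c (T.a (T.b (T.l 0) (T.l 1)) (T.l 0)) (T.l 0)) (T.l 0)) (T.c (T.l 0) (T.l 0))) (T.l 1)) (T.c (T.c (T.c (T.c (T.a (T.b (T.l 0) (T.b (T.l 0) (T.l 1))) (T.l 0)) (T.l 0)) (T.l 0)) (T.l 0)) (T.c (T.l 0) (T.l 0)))) (T.l 1))) (T.l 1)) (T.l 1))), by decide +kernel⟩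

def A011R_040_3_171_1 :
    ∃ t, chk3 (onCell 0 67108864 0 1073741824 858993459 64424510 (corW 3 c0B eng mog cA011R gB0q0 gB4q1 gB0q1 gB1q1 dB0q0 dB4q1 dB0q1 dB1q1 true false)) t 3 171 1 = true :=
  ⟨(T.b (T.a (T.b (T.a (T.b (T.c (T.c (T.a (T.l 0) (T.l 0)) (T.l 0)) (T.l 0)) (T.a (T.b (T.c (T.c (T.c (T.c (T.b (T.l 0) (T.a (T.l 1) (T.a (T.l 1) (T.l 0)))) (T.l 0)) (T.l 0)) (T.l 0)) (T.c (T.l 0) (T.l 0))) (T.l 1)) (T.c (T.c (T.b (T.l 0) (T.c (T.b (T.a (T.a (T.l 1) (T.l 0)) (T.l 0)) (T.l 1)) (T.l 0))) (T.l 0)) (T.c (T.l 0) (T.l 0))))) (T.c (T.c (T.c (T.a (T.l 0) (T.l 0)) (T.l 0)) (T.l 0)) (T.c (T.l 0) (T.l 0)))) (T.a (T.l 1) (T.b (T.a (T.a (T.l 1) (T.b (T.c (T.c (T.b (T.l 0) (T.l 1)) (T.l 0)) (T.l 0)) (T.l 1))) (T.c (T.c (T.c (T.b (T.l 0) (T.a (T.l 1) (T.b (T.l 0) (T.l 1)))) (T.l 0)) (T.l 0)) (T.c (T.l 0) (T.l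 0)))) (T.l 1)))) (T.c (T.c (T.b (T.l 0) (T.c (T.a (T.b (T.a (T.c (T.a (T.l 0) (T.l 0)) (T.l 0)) (T.l 0)) (T.b (T.c (T.a (T.a (T.l 1) (T.a (T.l 1) (T.b (T.l 0) (T.l 1)))) (T.a (T.b (T.l 0) (T.l 1)) (T.l 0))) (T.l 0)) (T.l 1))) (T.a (T.c (T.a (T.c (T.c (T.b (T.l 816) (T.b (T.l 0) (T.b (T.l 0) (T.l 1)))) (T.l 0)) (T.l 0)) (T.l 0)) (T.l 0)) (T.l 0))) (T.a (T.l 0) (T.l 0)))) (T.l 0)) (T.c (T.l 0) (T.l 0)))) (T.a (T.l 1) (T.a (T.l 1) (T.a (T.l 1) (T.b (T.b (T.b (T.c (T.c (T.c (T.b (T.l 0) (T.a (T.l 1) (T.l 0))) (T.l 0)) (T.l 0)) (T.l 0)) (T.l 1)) (T.l 1)) (T.l 1)))))), by decide +kernel⟩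

def A011R_040_1_43_1 :
    ∃ t, chk3 (onCell 0 67108864 0 1073741824 858993459 64424510 (corW 3 c0B eng mog cA011R gB0q0 gB4q1 gB0q1 gB1q1 dB0q0 dB4q1 dB0q1 dB1q1 true false)) t 1 43 1 = true :=
  ⟨(T.l 1), by decide +kernel⟩

def A011R_040_1_11_1 :
    ∃ t, chk3 (onCell 0 67108864 0 1073741824 858993459 64424510 (corW 3 c0B eng mog cA011R gB0q0 gB4q1 gB0q1 gB1q1 dB0q0 dB4q1 dB0q1 dB1q1 true false)) t 1 11 1 = true :=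
  ⟨(T.l 1), by decide +kernel⟩

def A011R_040_1_3_1 :
    ∃ t, chk3 (onCell 0 67108864 0 1073741824 858993459 64424510 (corW 3 c0B eng mog cA011R gB0q0 gB4q1 gB0q1 gB1q1 dB0q0 dB4q1 dB0q1 dB1q1 true false)) t 1 3 1 = true :=
  ⟨(T.l 1), by decide +kernel⟩

theorem A011R_040_1_171_1 :
    ∃ t, chk3 (onCell 0 67108864 0 1073741824 858993459 64424510 (corW 3 c0B eng mog cA011R gB0q0 gB4q1 gB0q1 gB1q1 dB0q0 dB4q1 dB0q1 dB1q1 true false)) t 1 171 1 = true :=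
  ex3_a A011R_040_2_171_1 A011R_040_3_171_1
theorem A011R_040_1_85_1 :
    ∃ t, chk3 (onCell 0 67108864 0 1073741824 858993459 64424510 (corW 3 c0B eng mog cA011R gB0q0 gB4q1 gB0q1 gB1q1 dB0q0 dB4q1 dB0q1 dB1q1 true false)) t 1 85 1 = true :=
  ex3_b A011R_040_1_170_1 A011R_040_1_171_1
theorem A011R_040_1_42_1 :
    ∃ t, chk3 (onCell 0 67108864 0 1073741824 858993459 64424510 (corW 3 c0B eng mog cA011R gB0q0 gB4q1 gB0q1 gB1q1 dB0q0 dB4q1 dB0q1 dB1q1 true false)) t 1 42 1 = true :=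
  ex3_b A011R_040_1_84_1 A011R_040_1_85_1
theorem A011R_040_1_21_1 :
    ∃ t, chk3 (onCell 0 67108864 0 1073741824 858993459 64424510 (corW 3 c0B eng mog cA011R gB0q0 gB4q1 gB0q1 gB1q1 dB0q0 dB4q1 dB0q1 dB1q1 true false)) t 1 21 1 = true :=
  ex3_b A011R_040_1_42_1 A011R_040_1_43_1
theorem A011R_040_1_10_1 :
    ∃ t, chk3 (onCell 0 67108864 0 1073741824 858993459 64424510 (corW 3 c0B eng mog cA011R gB0q0 gB4q1 gB0q1 gB1q1 dB0q0 dB4q1 dB0q1 dB1q1 true false)) t 1 10 1 = true :=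
  ex3_b A011R_040_1_20_1 A011R_040_1_21_1
theorem A011R_040_1_5_1 :
    ∃ t, chk3 (onCell 0 67108864 0 1073741824 858993459 64424510 (corW 3 c0B eng mog cA011R gB0q0 gB4q1 gB0q1 gB1q1 dB0q0 dB4q1 dB0q1 dB1q1 true false)) t 1 5 1 = true :=
  ex3_b A011R_040_1_10_1 A011R_040_1_11_1
theorem A011R_040_1_2_1 :
    ∃ t, chk3 (onCell 0 67108864 0 1073741824 858993459 64424510 (corW 3 c0B eng mog cA011R gB0q0 gB4q1 gB0q1 gB1q1 dB0q0 dB4q1 dB0q1 dB1q1 true false)) t 1 2 1 = true :=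
  ex3_b A011R_040_1_4_1 A011R_040_1_5_1
theorem A011R_040 :
    ∃ t, chk3 (onCell 0 67108864 0 1073741824 858993459 64424510 (corW 3 c0B eng mog cA011R gB0q0 gB4q1 gB0q1 gB1q1 dB0q0 dB4q1 dB0q1 dB1q1 true false)) t 1 1 1 = true :=
  ex3_b A011R_040_1_2_1 A011R_040_1_3_1

def A011R_120 :
    ∃ t, chk3 (onCell 0 67108864 0 1073741824 858993459 64424510 (corW 3 c0B eng mog cA011R gB1q0 gB2q1 gB0q1 gB1q1 dB1q0 dB2q1 dB0q1 dB1q1 true false)) t 1 1 1 = true :=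
  ⟨(T.l 1), by decide +kernel⟩

def A011R_130 :
    ∃ t, chk3 (onCell 0 67108864 0 1073741824 858993459 64424510 (corW 3 c0B eng mog cA011R gB1q0 gB3q1 gB0q1 gB1q1 dB1q0 dB3q1 dB0q1 dB1q1 true false)) t 1 1 1 = true :=
  ⟨(T.l 1), by decide +kernel⟩

def A011R_140 :
    ∃ t, chk3 (onCell 0 67108864 0 1073741824 858993459 64424510 (corW 3 c0B eng mog cA011R gB1q0 gB4q1 gB0q1 gB1q1 dB1q0 dB4q1 dB0q1 dB1q1 true false)) t 1 1 1 = true :=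
  ⟨(T.b (T.l 1) (T.l 1)), by decide +kernel⟩

def A012E_000_1_4_1 :
    ∃ t, chk3 (onCell 0 67108864 0 1073741824 858993459 64424510 (corW 3 c0B eng mog cA012E gB0q0 gB0q1 gB0q2 gB1q2 dB0q0 dB0q1 dB0q2 dB1q2 true true)) t 1 4 1 = true :=
  ⟨(T.l 1), by decide +kernel⟩

def A012E_000_1_10_1 :
    ∃ t, chk3 (onCell 0 67108864 0 1073741824 858993459 64424510 (corW 3 c0B eng mog cA012E gB0q0 gB0q1 gB0q2 gB1q2 dB0q0 dB0q1 dB0q2 dB1q2 true true)) t 1 10 1 = true :=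
  ⟨(T.l 1), by decide +kernel⟩

def A012E_000_1_22_1 :
    ∃ t, chk3 (onCell 0 67108864 0 1073741824 858993459 64424510 (corW 3 c0B eng mog cA012E gB0q0 gB0q1 gB0q2 gB1q2 dB0q0 dB0q1 dB0q2 dB1q2 true true)) t 1 22 1 = true :=
  ⟨(T.l 1), by decide +kernel⟩

def A012E_000_1_46_1 :
    ∃ t, chk3 (onCell 0 67108864 0 1073741824 858993459 64424510 (corW 3 c0B eng mog cA012E gB0q0 gB0q1 gB0q2 gB1q2 dB0q0 dB0q1 dB0q2 dB1q2 true true)) t 1 46 1 = true :=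
  ⟨(T.l 1), by decide +kernel⟩

def A012E_000_1_94_1 :
    ∃ t, chk3 (onCell 0 67108864 0 1073741824 858993459 64424510 (corW 3 c0B eng mog cA012E gB0q0 gB0q1 gB0q2 gB1q2 dB0q0 dB0q1 dB0q2 dB1q2 true true)) t 1 94 1 = true :=
  ⟨(T.a (T.l 1) (T.b (T.a (T.l 1) (T.a (T.l 1) (T.a (T.l 1) (T.c (T.a (T.l 1) (T.b (T.l 1) (T.c (T.a (T.l 1) (T.b (T.l 1) (T.c (T.c (T.a (T.l 1) (T.b (T.l 1) (T.b (T.l 1) (T.l 0)))) (T.l 0)) (T.l 0)))) (T.l 0)))) (T.l 0))))) (T.a (T.a (T.l 1) (T.b (T.l 1) (T.c (T.c (T.b (T.a (T.l 1) (T.a (T.l 1) (T.c (T.a (T.l 1) (T.a (T.l 1) (T.c (T.b (T.l 1) (T.b (T.l 1) (T.l 0))) (T.l 0)))) (T.l 0)))) (T.c (T.a (T.b (T.l 1) (T.a (T.l 1) (T.b (T.a (T.l 1) (T.l 0)) (T.l 0)))) (T.a (T.c (T.c (T.b (T.b (T.l 1) (T.a (T.l 1) (T.l 0))) (T.l 0)) (T.l 0)) (T.l 0)) (T.l 0))) (T.a (T.l 0) (T.l 0)))) (T.l 0))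 (T.l 0)))) (T.c (T.c (T.c (T.a (T.b (T.a (T.l 1) (T.b (T.l 1) (T.b (T.a (T.l 1) (T.c (T.a (T.l 1) (T.b (T.l 1) (T.l 0))) (T.l 0))) (T.a (T.b (T.l 1) (T.a (T.l 1) (T.l 0))) (T.l 0))))) (T.a (T.c (T.b (T.b (T.a (T.l 1) (T.b (T.a (T.l 1) (T.l 0)) (T.l 0))) (T.a (T.a (T.b (T.l 1) (T.l 0)) (T.l 0)) (T.l 0))) (T.l 0)) (T.l 0)) (T.l 0))) (T.b (T.a (T.b (T.b (T.l 1) (T.a (T.l 1) (T.b (T.a (T.l 1) (T.l 0)) (T.l 0)))) (T.a (T.c (T.a (T.c (T.c (T.a (T.b (T.a (T.l 0) (T.l 0)) (T.l 0)) (T.l 0)) (T.l 0)) (T.l 0)) (T.l 0)) (T.l 0)) (T.l 0))) (T.c (T.a (T.c (T.b (T.b (T.b (T.l 1) (T.a (T.l 1) (T.l 0))) (T.l 0)) (T.l 816)) (T.l 0)) (T.l 0)) (T.l 0))) (T.l 0))) (T.b (T.a (T.b (T.l 1) (T.a (T.l 1) (T.l 0))) (T.a (T.l 0) (T.l 0))) (T.l 0))) (T.a (T.c (T.a (T.l 0) (T.l 0)) (T.l 0)) (T.l 0))) (T.l 0))))), by decide +kernel⟩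

def A012E_000_2_190_1 :
    ∃ t, chk3 (onCell 0 67108864 0 1073741824 858993459 64424510 (corW 3 c0B eng mog cA012E gB0q0 gB0q1 gB0q2 gB1q2 dB0q0 dB0q1 dB0q2 dB1q2 true true)) t 2 190 1 = true :=
  ⟨(T.a (T.l 1) (T.b (T.a (T.l 1) (T.c (T.a (T.l 1) (T.c (T.a (T.l 1) (T.a (T.l 1) (T.b (T.l 1) (T.c (T.a (T.l 1) (T.c (T.b (T.l 1) (T.b (T.l 1) (T.l 0))) (T.l 0))) (T.l 0))))) (T.l 0))) (T.l 0))) (T.c (T.a (T.a (T.l 1) (T.c (T.b (T.l 1) (T.c (T.b (T.a (T.l 1) (T.c (T.a (T.l 1) (T.b (T.l 1) (T.l 0))) (T.l 0))) (T.a (T.b (T.l 1) (T.a (T.l 1) (T.l 0))) (T.l 0))) (T.l 0))) (T.l 0))) (T.c (T.c (T.b (T.a (T.a (T.l 1) (T.b (T.l 1) (T.b (T.a (T.l 1) (T.l 0)) (T.l 0)))) (T.a (T.c (T.c (T.b (T.b (T.l 1) (T.a (T.l 1) (T.l 0))) (T.l 0)) (T.l 0)) (T.l 0)) (T.l 0))) (T.a (T.a (T.c (T.a (T.c (T.a (T.c (T.b (T.b (T.l 1) (T.l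 0)) (T.l 0)) (T.l 0)) (T.l 0)) (T.l 0)) (T.l 0)) (T.l 0)) (T.l 0)) (T.l 0))) (T.c (T.a (T.l 0) (T.l 0)) (T.l 0))) (T.l 0))) (T.l 0)))), by decide +kernel⟩

def A012E_000_2_191_1 :
    ∃ t, chk3 (onCell 0 67108864 0 1073741824 858993459 64424510 (corW 3 c0B eng mog cA012E gB0q0 gB0q1 gB0q2 gB1q2 dB0q0 dB0q1 dB0q2 dB1q2 true true)) t 2 191 1 = true :=
  ⟨(T.c (T.a (T.b (T.a (T.l 1) (T.b (T.a (T.l 1) (T.c (T.a (T.l 1) (T.c (T.a (T.l 1) (T.a (T.l 1) (T.b (T.l 1) (T.b (T.l 1) (T.l 0))))) (T.l 0))) (T.l 0))) (T.c (T.c (T.a (T.a (T.l 1) (T.b (T.l 1) (T.b (T.c (T.a (T.l 1) (T.l 0)) (T.l 0)) (T.l 0)))) (T.a (T.c (T.b (T.b (T.l 1) (T.a (T.l 1) (T.l 0))) (T.l 0)) (T.l 0)) (T.l 0))) (T.a (T.a (T.l 1) (T.l 0)) (T.l 0))) (T.l 0)))) (T.c (T.a (T.c (T.b (T.a (T.l 1) (T.b (T.a (T.l 1) (T.c (T.a (T.l 1) (T.c (T.b (T.l 1)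 (T.l 0)) (T.l 0))) (T.l 0))) (T.a (T.b (T.l 1) (T.a (T.l 1) (T.l 0))) (T.l 0)))) (T.a (T.c (T.b (T.a (T.l 1) (T.b (T.a (T.l 1) (T.a (T.l 1) (T.l 0))) (T.l 0))) (T.a (T.a (T.b (T.l 1) (T.l 0)) (T.l 0)) (T.l 0))) (T.a (T.b (T.l 1) (T.l 0)) (T.l 0))) (T.l 0))) (T.a (T.b (T.l 1) (T.l 0)) (T.l 0))) (T.c (T.a (T.a (T.c (T.c (T.a (T.b (T.a (T.c (T.b (T.b (T.l 1) (T.l 0)) (T.l 0)) (T.l 0)) (T.l 0)) (T.l 816)) (T.l 0)) (T.l 0)) (T.l 0)) (T.l 0)) (T.l 0)) (T.l 0))) (T.a (T.l 0) (T.l 0)))) (T.c (T.c (T.a (T.a (T.b (T.c (T.b (T.b (T.a (T.l 1) (T.b (T.a (T.l 1) (T.l 0)) (T.l 0))) (T.a (T.a (T.b (T.l 1) (T.l 0)) (T.l 0)) (T.l 0))) (T.l 0)) (T.l 0)) (T.l 816)) (T.l 0)) (T.l 0)) (T.a (T.l 0) (T.l 0))) (T.l 0))) (T.a (T.a (T.c (T.l 0) (T.l 0)) (T.l 0)) (T.l 0))), by decide +kernel⟩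

def A012E_000_3_95_1 :
    ∃ t, chk3 (onCell 0 67108864 0 1073741824 858993459 64424510 (corW 3 c0B eng mog cA012E gB0q0 gB0q1 gB0q2 gB1q2 dB0q0 dB0q1 dB0q2 dB1q2 true true)) t 3 95 1 = true :=
  ⟨(T.a (T.c (T.c (T.c (T.b (T.a (T.b (T.b (T.a (T.l 1) (T.b (T.a (T.l 1) (T.c (T.a (T.l 1) (T.b (T.l 1) (T.l 0))) (T.l 0))) (T.a (T.b (T.l 1) (T.a (T.l 1) (T.l 0))) (T.l 0)))) (T.a (T.c (T.b (T.a (T.l 1) (T.b (T.a (T.l 1) (T.l 0)) (T.l 0))) (T.a (T.a (T.b (T.l 1) (T.l 0)) (T.l 0)) (T.l 0))) (T.l 0)) (T.l 0))) (T.l 0)) (T.a (T.c (T.a (T.b (T.c (T.a (T.b (T.c (T.a (T.b (T.b (T.l 1) (T.l 0)) (T.l 0)) (T.l 0)) (T.l 0)) (T.l 816)) (T.l 0)) (T.l 0)) (T.l 816)) (T.l 0)) (T.l 0)) (T.l 0))) (T.a (T.l 0) (T.l 816))) (T.a (T.c (T.a (T.b (T.c (T.a (T.b (T.b (T.l 1) (T.l 0)) (T.l 0)) (T.l 0)) (T.l 0)) (T.l 816)) (T.l 0)) (T.l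 0)) (T.l 0))) (T.a (T.l 0) (T.l 0))) (T.l 0)) (T.a (T.c (T.c (T.c (T.a (T.l 0) (T.l 0)) (T.l 0)) (T.l 0)) (T.l 0)) (T.c (T.c (T.a (T.c (T.l 816) (T.l 816)) (T.c (T.b (T.l 816) (T.a (T.l 816) (T.l 816))) (T.l 0))) (T.a (T.l 0) (T.l 0))) (T.l 0)))), by decide +kernel⟩

def A012E_000_2_12_1 :
    ∃ t, chk3 (onCell 0 67108864 0 1073741824 858993459 64424510 (corW 3 c0B eng mog cA012E gB0q0 gB0q1 gB0q2 gB1q2 dB0q0 dB0q1 dB0q2 dB1q2 true true)) t 2 12 1 = true :=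
  ⟨(T.c (T.b (T.a (T.c (T.b (T.c (T.b (T.a (T.a (T.l 0) (T.l 0)) (T.l 0)) (T.l 0)) (T.a (T.l 0) (T.l 0))) (T.c (T.a (T.l 816) (T.l 816)) (T.l 0))) (T.b (T.l 0) (T.l 0))) (T.c (T.b (T.c (T.b (T.a (T.l 0) (T.l 816)) (T.l 816)) (T.l 0)) (T.c (T.a (T.l 816) (T.l 816)) (T.l 816))) (T.b (T.l 0) (T.l 0)))) (T.c (T.a (T.b (T.a (T.l 816) (T.l 816)) (T.l 816)) (T.b (T.a (T.l 816) (T.l 816)) (T.l 880))) (T.a (T.l 0) (T.l 0)))) (T.b (T.a (T.b (T.l 0) (T.l 0)) (T.b (T.l 0) (T.l 0))) (T.a (T.l 0) (T.l 0)))), by decide +kernel⟩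

def A012E_000_3_12_1 :
    ∃ t, chk3 (onCell 0 67108864 0 1073741824 858993459 64424510 (corW 3 c0B eng mog cA012E gB0q0 gB0q1 gB0q2 gB1q2 dB0q0 dB0q1 dB0q2 dB1q2 true true)) t 3 12 1 = true :=
  ⟨(T.a (T.c (T.b (T.c (T.b (T.c (T.b (T.a (T.l 816) (T.l 816)) (T.l 816)) (T.l 0)) (T.c (T.a (T.l 816) (T.l 816)) (T.l 816))) (T.b (T.l 0) (T.l 0))) (T.c (T.c (T.b (T.l 816) (T.l 816)) (T.l 816)) (T.l 0))) (T.b (T.b (T.l 0) (T.l 0)) (T.l 0))) (T.b (T.a (T.c (T.c (T.c (T.b (T.b (T.l 816) (T.l 816)) (T.l 816)) (T.l 0)) (T.l 0)) (T.l 0)) (T.c (T.b (T.a (T.c (T.c (T.l 816) (T.l 816)) (T.l 816)) (T.c (T.c (T.b (T.b (T.l 816) (T.l 816)) (T.b (T.l 816) (T.l 816))) (T.b (T.l 816) (T.l 816))) (T.l 0))) (T.c (T.a (T.b (T.a (T.l 816) (T.b (T.l 816) (T.l 816))) (T.c (T.l 880) (T.l 816))) (T.c (T.b (T.b (T.l 816) (T.l 816))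 (T.l 816)) (T.l 880))) (T.b (T.l 0) (T.l 0)))) (T.b (T.b (T.l 0) (T.l 0)) (T.b (T.l 0) (T.l 0))))) (T.b (T.a (T.c (T.a (T.c (T.l 816) (T.l 816)) (T.c (T.c (T.b (T.l 880) (T.l 816)) (T.l 816)) (T.l 0))) (T.b (T.l 64) (T.l 0))) (T.c (T.c (T.a (T.c (T.b (T.l 816) (T.l 816)) (T.l 816)) (T.c (T.b (T.l 816) (T.l 816)) (T.l 816))) (T.b (T.l 0) (T.l 0))) (T.b (T.l 0) (T.l 0)))) (T.b (T.b (T.c (T.a (T.a (T.l 816) (T.c (T.l 816) (T.l 816))) (T.c (T.a (T.l 816) (T.l 816)) (T.l 816))) (T.a (T.l 0) (T.l 0))) (T.b (T.a (T.c (T.a (T.l 816) (T.c (T.l 816) (T.l 816))) (T.l 0)) (T.c (T.c (T.a (T.l 816) (T.l 816)) (T.l 816)) (T.l 0))) (T.a (T.c (T.a (T.l 816) (T.c (T.l 816) (T.l 816))) (T.l 0)) (T.c (T.c (T.a (T.l 816) (T.l 2)) (T.l 816)) (T.l 0))))) (T.l 2))))), by decide +kernel⟩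

def A012E_000_1_13_1 :
    ∃ t, chk3 (onCell 0 67108864 0 1073741824 858993459 64424510 (corW 3 c0B eng mog cA012E gB0q0 gB0q1 gB0q2 gB1q2 dB0q0 dB0q1 dB0q2 dB1q2 true true)) t 1 13 1 = true :=
  ⟨(T.a (T.b (T.a (T.b (T.a (T.c (T.l 816) (T.l 0)) (T.l 2)) (T.l 2)) (T.l 2)) (T.l 2)) (T.l 2)), by decide +kernel⟩

def A012E_000_1_7_1 :
    ∃ t, chk3 (onCell 0 67108864 0 1073741824 858993459 64424510 (corW 3 c0B eng mog cA012E gB0q0 gB0q1 gB0q2 gB1q2 dB0q0 dB0q1 dB0q2 dB1q2 true true)) t 1 7 1 = true :=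
  ⟨(T.l 2), by decide +kernel⟩

theorem A012E_000_1_12_1 :
    ∃ t, chk3 (onCell 0 67108864 0 1073741824 858993459 64424510 (corW 3 c0B eng mog cA012E gB0q0 gB0q1 gB0q2 gB1q2 dB0q0 dB0q1 dB0q2 dB1q2 true true)) t 1 12 1 = true :=
  ex3_a A012E_000_2_12_1 A012E_000_3_12_1
theorem A012E_000_1_6_1 :
    ∃ t, chk3 (onCell 0 67108864 0 1073741824 858993459 64424510 (corW 3 c0B eng mog cA012E gB0q0 gB0q1 gB0q2 gB1q2 dB0q0 dB0q1 dB0q2 dB1q2 true true)) t 1 6 1 = true :=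
  ex3_b A012E_000_1_12_1 A012E_000_1_13_1
theorem A012E_000_1_3_1 :
    ∃ t, chk3 (onCell 0 67108864 0 1073741824 858993459 64424510 (corW 3 c0B eng mog cA012E gB0q0 gB0q1 gB0q2 gB1q2 dB0q0 dB0q1 dB0q2 dB1q2 true true)) t 1 3 1 = true :=
  ex3_b A012E_000_1_6_1 A012E_000_1_7_1
theorem A012E_000_2_95_1 :
    ∃ t, chk3 (onCell 0 67108864 0 1073741824 858993459 64424510 (corW 3 c0B eng mog cA012E gB0q0 gB0q1 gB0q2 gB1q2 dB0q0 dB0q1 dB0q2 dB1q2 true true)) t 2 95 1 = true :=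
  ex3_b A012E_000_2_190_1 A012E_000_2_191_1
theorem A012E_000_1_95_1 :
    ∃ t, chk3 (onCell 0 67108864 0 1073741824 858993459 64424510 (corW 3 c0B eng mog cA012E gB0q0 gB0q1 gB0q2 gB1q2 dB0q0 dB0q1 dB0q2 dB1q2 true true)) t 1 95 1 = true :=
  ex3_a A012E_000_2_95_1 A012E_000_3_95_1
theorem A012E_000_1_47_1 :
    ∃ t, chk3 (onCell 0 67108864 0 1073741824 858993459 64424510 (corW 3 c0B eng mog cA012E gB0q0 gB0q1 gB0q2 gB1q2 dB0q0 dB0q1 dB0q2 dB1q2 true true)) t 1 47 1 = true :=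
  ex3_b A012E_000_1_94_1 A012E_000_1_95_1
theorem A012E_000_1_23_1 :
    ∃ t, chk3 (onCell 0 67108864 0 1073741824 858993459 64424510 (corW 3 c0B eng mog cA012E gB0q0 gB0q1 gB0q2 gB1q2 dB0q0 dB0q1 dB0q2 dB1q2 true true)) t 1 23 1 = true :=
  ex3_b A012E_000_1_46_1 A012E_000_1_47_1
theorem A012E_000_1_11_1 :
    ∃ t, chk3 (onCell 0 67108864 0 1073741824 858993459 64424510 (corW 3 c0B eng mog cA012E gB0q0 gB0q1 gB0q2 gB1q2 dB0q0 dB0q1 dB0q2 dB1q2 true true)) t 1 11 1 = true :=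
  ex3_b A012E_000_1_22_1 A012E_000_1_23_1
theorem A012E_000_1_5_1 :
    ∃ t, chk3 (onCell 0 67108864 0 1073741824 858993459 64424510 (corW 3 c0B eng mog cA012E gB0q0 gB0q1 gB0q2 gB1q2 dB0q0 dB0q1 dB0q2 dB1q2 true true)) t 1 5 1 = true :=
  ex3_b A012E_000_1_10_1 A012E_000_1_11_1
theorem A012E_000_1_2_1 :
    ∃ t, chk3 (onCell 0 67108864 0 1073741824 858993459 64424510 (corW 3 c0B eng mog cA012E gB0q0 gB0q1 gB0q2 gB1q2 dB0q0 dB0q1 dB0q2 dB1q2 true true)) t 1 2 1 = true :=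
  ex3_b A012E_000_1_4_1 A012E_000_1_5_1
theorem A012E_000 :
    ∃ t, chk3 (onCell 0 67108864 0 1073741824 858993459 64424510 (corW 3 c0B eng mog cA012E gB0q0 gB0q1 gB0q2 gB1q2 dB0q0 dB0q1 dB0q2 dB1q2 true true)) t 1 1 1 = true :=
  ex3_b A012E_000_1_2_1 A012E_000_1_3_1

def A012E_001 :
    ∃ t, chk3 (onCell 0 67108864 0 1073741824 858993459 64424510 (corW 3 c0B eng mog cA012E gB0q0 gB0q1 gB1q2 gB2q2 dB0q0 dB0q1 dB1q2 dB2q2 true false)) t 1 1 1 = true :=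
  ⟨(T.b (T.l 1) (T.b (T.b (T.b (T.l 1) (T.b (T.l 1) (T.c (T.c (T.a (T.l 0) (T.a (T.l 816) (T.l 816))) (T.l 0)) (T.a (T.l 0) (T.l 0))))) (T.c (T.a (T.c (T.b (T.a (T.l 816) (T.l 816)) (T.a (T.l 816) (T.l 816))) (T.b (T.l 0) (T.l 816))) (T.c (T.b (T.a (T.l 816) (T.l 816)) (T.a (T.l 816) (T.l 816))) (T.b (T.l 816) (T.l 816)))) (T.a (T.b (T.l 0) (T.l 816)) (T.b (T.l 0) (T.l 816))))) (T.a (T.c (T.b (T.c (T.a (T.b (T.l 816) (T.l 816)) (T.b (T.l 816) (T.l 816))) (T.b (T.l 816) (T.l 816))) (T.a (T.c (T.b (T.l 816) (T.l 816)) (T.l 816)) (T.c (T.b (T.b (T.l 816) (T.l 816)) (T.l 816)) (T.l 816)))) (T.b (T.b (T.l 816) (T.l 816)) (T.a (T.l 816) (T.b (T.l 816) (T.l 816))))) (T.a (T.c (T.b (T.c (T.b (T.l 816) (T.l 816)) (T.l 816)) (T.c (T.b (T.b (T.l 816) (T.l 816)) (T.l 816)) (T.l 880))) (T.b (T.l 816) (T.b (T.l 816) (T.l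 816)))) (T.b (T.c (T.c (T.b (T.l 816) (T.l 816)) (T.l 816)) (T.l 816)) (T.a (T.c (T.c (T.b (T.l 816) (T.l 816)) (T.l 816)) (T.l 816)) (T.c (T.b (T.c (T.l 816) (T.l 816)) (T.c (T.a (T.l 816) (T.b (T.l 816) (T.l 816))) (T.l 816))) (T.b (T.l 816) (T.l 816))))))))), by decide +kernel⟩

def A012L_003 :
    ∃ t, chk3 (onCell 0 67108864 0 1073741824 858993459 64424510 (corW 3 c0B eng mog cA012L gB0q0 gB0q1 gB3q2 gB4q2 dB0q0 dB0q1 dB3q2 dB4q2 false true)) t 1 1 1 = true :=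
  ⟨(T.l 2), by decide +kernel⟩

def A012R_020 :
    ∃ t, chk3 (onCell 0 67108864 0 1073741824 858993459 64424510 (corW 3 c0B eng mog cA012R gB0q0 gB2q1 gB0q2 gB1q2 dB0q0 dB2q1 dB0q2 dB1q2 true true)) t 1 1 1 = true :=
  ⟨(T.b (T.l 2) (T.l 2)), by decide +kernel⟩

def A012R_021 :
    ∃ t, chk3 (onCell 0 67108864 0 1073741824 858993459 64424510 (corW 3 c0B eng mog cA012R gB0q0 gB2q1 gB1q2 gB2q2 dB0q0 dB2q1 dB1q2 dB2q2 true false)) t 1 1 1 = true :=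
  ⟨(T.b (T.b (T.b (T.l 0) (T.l 0)) (T.c (T.l 64) (T.l 880))) (T.b (T.a (T.c (T.l 816) (T.l 816)) (T.c (T.l 816) (T.l 816))) (T.a (T.c (T.a (T.l 816) (T.l 816)) (T.b (T.l 816) (T.l 816))) (T.a (T.c (T.l 880) (T.l 816)) (T.b (T.c (T.l 816) (T.l 816)) (T.a (T.c (T.l 816) (T.l 816)) (T.c (T.b (T.l 816) (T.l 816)) (T.l 816)))))))), by decide +kernel⟩

def A012R_030 :
    ∃ t, chk3 (onCell 0 67108864 0 1073741824 858993459 64424510 (corW 3 c0B eng mog cA012R gB0q0 gB3q1 gB0q2 gB1q2 dB0q0 dB3q1 dB0q2 dB1q2 true true)) t 1 1 1 = true :=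
  ⟨(T.l 2), by decide +kernel⟩

def A012R_031 :
    ∃ t, chk3 (onCell 0 67108864 0 1073741824 858993459 64424510 (corW 3 c0B eng mog cA012R gB0q0 gB3q1 gB1q2 gB2q2 dB0q0 dB3q1 dB1q2 dB2q2 true false)) t 1 1 1 = true :=
  ⟨(T.b (T.b (T.b (T.l 0) (T.l 0)) (T.c (T.b (T.l 816) (T.l 816)) (T.l 816))) (T.b (T.a (T.c (T.l 816) (T.l 816)) (T.c (T.l 880) (T.l 816))) (T.a (T.c (T.a (T.l 816) (T.l 816)) (T.b (T.l 816) (T.l 816))) (T.a (T.c (T.l 880) (T.l 816)) (T.b (T.c (T.l 816) (T.l 816)) (T.a (T.c (T.l 816) (T.l 816)) (T.c (T.b (T.l 816) (T.l 816)) (T.l 816)))))))), by decide +kernel⟩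

def A012R_040 :
    ∃ t, chk3 (onCell 0 67108864 0 1073741824 858993459 64424510 (corW 3 c0B eng mog cA012R gB0q0 gB4q1 gB0q2 gB1q2 dB0q0 dB4q1 dB0q2 dB1q2 true true)) t 1 1 1 = true :=
  ⟨(T.l 2), by decide +kernel⟩

def A012R_041 :
    ∃ t, chk3 (onCell 0 67108864 0 1073741824 858993459 64424510 (corW 3 c0B eng mog cA012R gB0q0 gB4q1 gB1q2 gB2q2 dB0q0 dB4q1 dB1q2 dB2q2 true false)) t 1 1 1 = true :=
  ⟨(T.b (T.b (T.b (T.l 0) (T.l 0)) (T.a (T.l 0) (T.l 64))) (T.b (T.a (T.c (T.l 816) (T.l 816)) (T.c (T.l 816) (T.l 816))) (T.a (T.c (T.a (T.l 816) (T.l 816)) (T.b (T.l 816) (T.l 816))) (T.a (T.c (T.l 880) (T.l 816)) (T.b (T.b (T.l 816) (T.l 880)) (T.a (T.c (T.l 816) (T.l 816)) (T.c (T.b (T.l 816) (T.l 816)) (T.b (T.l 816) (T.l 816))))))))), by decide +kernel⟩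

def A012R_120 :
    ∃ t, chk3 (onCell 0 67108864 0 1073741824 858993459 64424510 (corW 3 c0B eng mog cA012R gB1q0 gB2q1 gB0q2 gB1q2 dB1q0 dB2q1 dB0q2 dB1q2 true true)) t 1 1 1 = true :=
  ⟨(T.b (T.b (T.l 1) (T.a (T.l 816) (T.b (T.l 0) (T.b (T.l 816) (T.a (T.l 816) (T.l 816)))))) (T.b (T.a (T.l 816) (T.b (T.a (T.l 816) (T.b (T.l 816) (T.l 2))) (T.l 2))) (T.l 2))), by decide +kernel⟩

def A012R_121 :
    ∃ t, chk3 (onCell 0 67108864 0 1073741824 858993459 64424510 (corW 3 c0B eng mog cA012R gB1q0 gB2q1 gB1q2 gB2q2 dB1q0 dB2q1 dB1q2 dB2q2 true false)) t 1 1 1 = true :=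
  ⟨(T.b (T.b (T.l 1) (T.l 1)) (T.a (T.l 816) (T.b (T.l 816) (T.a (T.l 816) (T.b (T.l 816) (T.l 816)))))), by decide +kernel⟩

def A012R_130 :
    ∃ t, chk3 (onCell 0 67108864 0 1073741824 858993459 64424510 (corW 3 c0B eng mog cA012R gB1q0 gB3q1 gB0q2 gB1q2 dB1q0 dB3q1 dB0q2 dB1q2 true true)) t 1 1 1 = true :=
  ⟨(T.b (T.b (T.a (T.l 0) (T.l 0)) (T.a (T.l 816) (T.b (T.l 0) (T.b (T.l 816) (T.a (T.l 816) (T.l 2)))))) (T.b (T.a (T.l 816) (T.l 2)) (T.l 2))), by decide +kernel⟩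

def A012R_131 :
    ∃ t, chk3 (onCell 0 67108864 0 1073741824 858993459 64424510 (corW 3 c0B eng mog cA012R gB1q0 gB3q1 gB1q2 gB2q2 dB1q0 dB3q1 dB1q2 dB2q2 true false)) t 1 1 1 = true :=
  ⟨(T.b (T.a (T.l 0) (T.b (T.l 1) (T.l 816))) (T.a (T.l 816) (T.b (T.l 816) (T.a (T.l 816) (T.b (T.l 816) (T.l 816)))))), by decide +kernel⟩

def A012R_140 :
    ∃ t, chk3 (onCell 0 67108864 0 1073741824 858993459 64424510 (corW 3 c0B eng mog cA012R gB1q0 gB4q1 gB0q2 gB1q2 dB1q0 dB4q1 dB0q2 dB1q2 true true)) t 1 1 1 = true :=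
  ⟨(T.b (T.a (T.l 0) (T.b (T.l 0) (T.l 2))) (T.l 2)), by decide +kernel⟩

def A012R_141 :
    ∃ t, chk3 (onCell 0 67108864 0 1073741824 858993459 64424510 (corW 3 c0B eng mog cA012R gB1q0 gB4q1 gB1q2 gB2q2 dB1q0 dB4q1 dB1q2 dB2q2 true false)) t 1 1 1 = true :=
  ⟨(T.a (T.b (T.l 0) (T.l 816)) (T.b (T.b (T.l 0) (T.l 0)) (T.b (T.l 816) (T.a (T.l 816) (T.b (T.l 816) (T.l 816)))))), by decide +kernel⟩

def A022E_000 :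
    ∃ t, chk3 (onCell 0 67108864 0 1073741824 858993459 64424510 (corW 3 c0B eng mog cA022E gB0q0 gB0q2 gB0q2 gB1q2 dB0q0 dB0q2 dB0q2 dB1q2 true true)) t 1 1 1 = true :=
  ⟨(T.l 2), by decide +kernel⟩

def A022E_001_1_2_1 :
    ∃ t, chk3 (onCell 0 67108864 0 1073741824 858993459 64424510 (corW 3 c0B eng mog cA022E gB0q0 gB0q2 gB1q2 gB2q2 dB0q0 dB0q2 dB1q2 dB2q2 true false)) t 1 2 1 = true :=
  ⟨(T.b (T.a (T.a (T.c (T.c (T.b (T.l 204) (T.l 204)) (T.l 204)) (T.a (T.l 204) (T.l 204))) (T.a (T.c (T.b (T.l 204) (T.l 204)) (T.b (T.l 204) (T.l 204))) (T.b (T.a (T.c (T.l 204) (T.l 204)) (T.c (T.b (T.l 204) (T.l 204)) (T.b (T.l 204) (T.l 204)))) (T.c (T.l 204) (T.l 204))))) (T.a (T.b (T.a (T.c (T.a (T.b (T.l 204) (T.l 204)) (T.b (T.l 204) (T.l 204))) (T.a (T.b (T.l 204) (T.l 204)) (T.b (T.l 204) (T.l 204)))) (T.c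 (T.b (T.b (T.l 204) (T.l 204)) (T.l 204)) (T.b (T.b (T.l 204) (T.l 204)) (T.l 204)))) (T.a (T.a (T.b (T.l 204) (T.l 204)) (T.c (T.l 204) (T.l 204))) (T.c (T.b (T.l 204) (T.l 204)) (T.b (T.l 204) (T.l 204))))) (T.b (T.a (T.c (T.b (T.b (T.l 204) (T.l 204)) (T.l 204)) (T.b (T.b (T.l 204) (T.l 204)) (T.l 204))) (T.c (T.b (T.b (T.l 204) (T.l 204)) (T.l 220)) (T.b (T.b (T.l 204) (T.l 204)) (T.l 204)))) (T.a (T.c (T.b (T.l 204) (T.l 204)) (T.b (T.l 204) (T.l 204))) (T.c (T.b (T.l 204) (T.l 204)) (T.b (T.l 204) (T.l 204))))))) (T.a (T.c (T.b (T.l 204) (T.l 0)) (T.b (T.l 204) (T.l 204))) (T.a (T.b (T.a (T.l 204) (T.c (T.l 204) (T.l 204))) (T.l 0)) (T.b (T.a (T.c (T.l 204) (T.l 204)) (T.c (T.l 204) (T.l 204))) (T.a (T.b (T.l 204) (T.l 204)) (T.b (T.l 204) (T.l 0))))))), by decide +kernel⟩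

def A022E_001_1_3_1 :
    ∃ t, chk3 (onCell 0 67108864 0 1073741824 858993459 64424510 (corW 3 c0B eng mog cA022E gB0q0 gB0q2 gB1q2 gB2q2 dB0q0 dB0q2 dB1q2 dB2q2 true false)) t 1 3 1 = true :=
  ⟨(T.a (T.b (T.a (T.l 0) (T.l 0)) (T.c (T.b (T.l 0) (T.c (T.a (T.l 816) (T.l 816)) (T.l 816))) (T.c (T.b (T.l 0) (T.l 816)) (T.l 0)))) (T.a (T.b (T.b (T.l 0) (T.l 0)) (T.c (T.b (T.l 816) (T.c (T.b (T.l 816) (T.l 816)) (T.l 816))) (T.b (T.l 0) (T.l 816)))) (T.b (T.b (T.a (T.l 0) (T.b (T.l 0) (T.l 0))) (T.b (T.l 256) (T.l 0))) (T.c (T.b (T.l 0) (T.c (T.a (T.l 816) (T.b (T.l 816) (T.l 816))) (T.b (T.l 816) (T.l 816)))) (T.a (T.l 0) (T.b (T.l 0) (T.l 816))))))), by decide +kernel⟩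

theorem A022E_001 :
    ∃ t, chk3 (onCell 0 67108864 0 1073741824 858993459 64424510 (corW 3 c0B eng mog cA022E gB0q0 gB0q2 gB1q2 gB2q2 dB0q0 dB0q2 dB1q2 dB2q2 true false)) t 1 1 1 = true :=
  ex3_b A022E_001_1_2_1 A022E_001_1_3_1

def A022E_010 :
    ∃ t, chk3 (onCell 0 67108864 0 1073741824 858993459 64424510 (corW 3 c0B eng mog cA022E gB0q0 gB1q2 gB0q2 gB1q2 dB0q0 dB1q2 dB0q2 dB1q2 true true)) t 1 1 1 = true :=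
  ⟨(T.l 2), by decide +kernel⟩

def A022E_011 :
    ∃ t, chk3 (onCell 0 67108864 0 1073741824 858993459 64424510 (corW 3 c0B eng mog cA022E gB0q0 gB1q2 gB1q2 gB2q2 dB0q0 dB1q2 dB1q2 dB2q2 true false)) t 1 1 1 = true :=
  ⟨(T.a (T.b (T.c (T.b (T.b (T.a (T.b (T.l 204) (T.l 204)) (T.b (T.l 204) (T.l 204))) (T.l 204)) (T.l 204)) (T.b (T.c (T.b (T.a (T.l 204) (T.l 204)) (T.l 204)) (T.a (T.l 204) (T.l 204))) (T.l 204))) (T.b (T.b (T.l 0) (T.l 0)) (T.c (T.b (T.l 0) (T.c (T.a (T.l 816) (T.l 816)) (T.l 816))) (T.c (T.b (T.l 0) (T.l 816)) (T.l 0))))) (T.a (T.b (T.b (T.c (T.c (T.l 204) (T.b (T.l 204) (T.l 204))) (T.c (T.b (T.l 204) (T.l 204)) (T.l 204))) (T.c (T.l 204) (T.l 204))) (T.b (T.l 0) (T.c (T.c (T.b (T.l 816) (T.l 816)) (T.l 0)) (T.b (T.l 0) (T.l 816))))) (T.b (T.b (T.a (T.c (T.c (T.l 204) (T.l 204)) (T.c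 (T.l 204) (T.l 204))) (T.b (T.c (T.a (T.l 204) (T.c (T.l 204) (T.b (T.l 204) (T.l 204)))) (T.a (T.l 204) (T.b (T.b (T.l 204) (T.l 204)) (T.l 204)))) (T.c (T.l 204) (T.l 204)))) (T.c (T.l 16) (T.l 204))) (T.c (T.b (T.l 0) (T.b (T.l 0) (T.b (T.l 880) (T.a (T.l 816) (T.c (T.l 816) (T.l 816)))))) (T.b (T.l 0) (T.a (T.l 0) (T.l 0))))))), by decide +kernel⟩

def A022E_110 :
    ∃ t, chk3 (onCell 0 67108864 0 1073741824 858993459 64424510 (corW 3 c0B eng mog cA022E gB1q0 gB1q2 gB0q2 gB1q2 dB1q0 dB1q2 dB0q2 dB1q2 true true)) t 1 1 1 = true :=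
  ⟨(T.l 2), by decide +kernel⟩

def A022E_111 :
    ∃ t, chk3 (onCell 0 67108864 0 1073741824 858993459 64424510 (corW 3 c0B eng mog cA022E gB1q0 gB1q2 gB1q2 gB2q2 dB1q0 dB1q2 dB1q2 dB2q2 true false)) t 1 1 1 = true :=
  ⟨(T.a (T.b (T.b (T.c (T.b (T.b (T.a (T.l 204) (T.l 204)) (T.l 204)) (T.l 204)) (T.b (T.c (T.a (T.l 204) (T.l 204)) (T.a (T.l 204) (T.l 204))) (T.l 204))) (T.l 0)) (T.l 0)) (T.a (T.b (T.b (T.b (T.c (T.a (T.l 204) (T.l 220)) (T.c (T.l 204) (T.l 204))) (T.l 204)) (T.l 0)) (T.l 0)) (T.b (T.b (T.a (T.b (T.c (T.b (T.l 204) (T.l 204)) (T.b (T.l 204) (T.l 204))) (T.l 204)) (T.b (T.c (T.a (T.l 204) (T.c (T.l 204) (T.b (T.l 204) (T.l 204)))) (T.a (T.l 204) (T.b (T.b (T.l 204) (T.l 204)) (T.l 204)))) (T.l 204))) (T.l 16)) (T.b (T.l 0) (T.b (T.l 0) (T.l 0)))))), by decide +kernel⟩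

def A022L_003_1_4_1 :
    ∃ t, chk3 (onCell 0 67108864 0 1073741824 858993459 64424510 (corW 3 c0B eng mog cA022L gB0q0 gB0q2 gB3q2 gB4q2 dB0q0 dB0q2 dB3q2 dB4q2 false true)) t 1 4 1 = true :=
  ⟨(T.b (T.a (T.a (T.c (T.c (T.b (T.l 204) (T.l 204)) (T.l 204)) (T.l 204)) (T.a (T.c (T.l 204) (T.l 204)) (T.a (T.b (T.l 204) (T.l 204)) (T.b (T.c (T.l 204) (T.l 204)) (T.l 204))))) (T.a (T.a (T.a (T.b (T.b (T.l 204) (T.l 204)) (T.c (T.l 204) (T.l 204))) (T.b (T.b (T.l 204) (T.l 204)) (T.b (T.l 204) (T.l 204)))) (T.b (T.a (T.b (T.l 204) (T.l 204)) (T.b (T.l 204) (T.l 204))) (T.c (T.b (T.l 204) (T.l 204)) (T.b (T.l 204) (T.l 204))))) (T.a (T.b (T.c (T.b (T.l 204) (T.l 204)) (T.l 204)) (T.c (T.b (T.l 204) (T.l 204)) (T.l 204))) (T.b (T.c (T.b (T.l 204) (T.l 204)) (T.l 204)) (T.c (T.b (T.l 204) (T.l 204)) (T.l 204))))))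 (T.a (T.c (T.c (T.a (T.b (T.l 204) (T.l 204)) (T.l 204)) (T.b (T.l 204) (T.l 204))) (T.b (T.l 204) (T.l 204))) (T.a (T.a (T.a (T.c (T.l 204) (T.l 204)) (T.c (T.b (T.l 204) (T.l 220)) (T.b (T.l 204) (T.l 204)))) (T.b (T.c (T.b (T.l 204) (T.l 204)) (T.b (T.l 204) (T.l 204))) (T.c (T.b (T.l 204) (T.l 220)) (T.b (T.l 204) (T.l 204))))) (T.a (T.b (T.c (T.b (T.l 204) (T.l 204)) (T.l 220)) (T.c (T.b (T.l 204) (T.l 204)) (T.l 204))) (T.b (T.c (T.b (T.l 204) (T.l 204)) (T.l 204)) (T.c (T.b (T.l 204) (T.l 204)) (T.l 204))))))), by decide +kernel⟩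

def A022L_003_1_5_1 :
    ∃ t, chk3 (onCell 0 67108864 0 1073741824 858993459 64424510 (corW 3 c0B eng mog cA022L gB0q0 gB0q2 gB3q2 gB4q2 dB0q0 dB0q2 dB3q2 dB4q2 false true)) t 1 5 1 = true :=
  ⟨(T.a (T.c (T.b (T.c (T.a (T.b (T.l 204) (T.l 204)) (T.l 220)) (T.b (T.l 204) (T.l 204))) (T.c (T.a (T.b (T.l 204) (T.l 204)) (T.b (T.l 204) (T.l 204))) (T.c (T.b (T.l 204) (T.l 204)) (T.l 204)))) (T.b (T.b (T.l 204) (T.l 204)) (T.a (T.b (T.l 204) (T.l 204)) (T.b (T.l 204) (T.l 204))))) (T.b (T.a (T.a (T.c (T.b (T.l 204) (T.l 204)) (T.l 204)) (T.b (T.c (T.a (T.b (T.l 204) (T.l 204)) (T.l 204)) (T.b (T.l 204) (T.l 204))) (T.c (T.a (T.l 204) (T.b (T.l 204) (T.l 204))) (T.b (T.l 204) (T.l 204))))) (T.a (T.b (T.c (T.b (T.l 204) (T.l 204)) (T.b (T.l 204) (T.l 204))) (T.c (T.c (T.l 204) (T.l 204)) (T.b (T.l 204) (T.l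 204)))) (T.c (T.b (T.b (T.l 204) (T.l 204)) (T.b (T.l 204) (T.l 204))) (T.b (T.l 204) (T.b (T.l 204) (T.l 204)))))) (T.a (T.c (T.c (T.l 204) (T.l 204)) (T.b (T.l 204) (T.l 204))) (T.b (T.c (T.a (T.c (T.b (T.l 204) (T.l 204)) (T.l 220)) (T.b (T.l 204) (T.l 220))) (T.a (T.b (T.l 204) (T.l 204)) (T.b (T.l 204) (T.l 204)))) (T.a (T.c (T.l 204) (T.l 204)) (T.c (T.c (T.b (T.l 204) (T.l 204)) (T.b (T.l 204) (T.l 204))) (T.b (T.l 204) (T.l 204)))))))), by decide +kernel⟩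

def A022L_003_1_12_1 :
    ∃ t, chk3 (onCell 0 67108864 0 1073741824 858993459 64424510 (corW 3 c0B eng mog cA022L gB0q0 gB0q2 gB3q2 gB4q2 dB0q0 dB0q2 dB3q2 dB4q2 false true)) t 1 12 1 = true :=
  ⟨(T.a (T.c (T.c (T.b (T.a (T.b (T.l 204) (T.l 204)) (T.l 204)) (T.a (T.b (T.l 204) (T.a (T.l 204) (T.l 204))) (T.b (T.l 204) (T.l 204)))) (T.b (T.a (T.l 204) (T.l 204)) (T.a (T.l 204) (T.l 204)))) (T.b (T.a (T.l 204) (T.l 204)) (T.c (T.l 204) (T.a (T.l 204) (T.l 204))))) (T.a (T.c (T.c (T.b (T.l 204) (T.b (T.l 204) (T.l 204))) (T.b (T.l 204) (T.l 204))) (T.b (T.l 204) (T.b (T.l 204) (T.l 204)))) (T.b (T.a (T.c (T.b (T.l 204) (T.l 204)) (T.l 204)) (T.c (T.b (T.b (T.l 204) (T.l 204)) (T.l 204)) (T.b (T.l 204) (T.l 204)))) (T.c (T.c (T.b (T.l 204) (T.l 204)) (T.l 204)) (T.b (T.l 204) (T.l 204)))))), by decide +kernel⟩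

def A022L_003_1_52_1 :
    ∃ t, chk3 (onCell 0 67108864 0 1073741824 858993459 64424510 (corW 3 c0B eng mog cA022L gB0q0 gB0q2 gB3q2 gB4q2 dB0q0 dB0q2 dB3q2 dB4q2 false true)) t 1 52 1 = true :=
  ⟨(T.c (T.a (T.c (T.c (T.a (T.a (T.l 204) (T.l 204)) (T.a (T.l 204) (T.l 204))) (T.l 204)) (T.l 204)) (T.c (T.c (T.a (T.a (T.l 204) (T.l 204)) (T.l 204)) (T.l 204)) (T.l 0))) (T.a (T.c (T.l 0) (T.a (T.l 204) (T.l 204))) (T.c (T.l 0) (T.a (T.l 204) (T.l 204))))), by decide +kernel⟩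

def A022L_003_1_212_1 :
    ∃ t, chk3 (onCell 0 67108864 0 1073741824 858993459 64424510 (corW 3 c0B eng mog cA022L gB0q0 gB0q2 gB3q2 gB4q2 dB0q0 dB0q2 dB3q2 dB4q2 false true)) t 1 212 1 = true :=
  ⟨(T.c (T.a (T.c (T.c (T.a (T.l 204) (T.l 204)) (T.l 0)) (T.l 0)) (T.c (T.c (T.a (T.l 204) (T.l 204)) (T.l 204)) (T.l 0))) (T.a (T.c (T.l 0) (T.l 0)) (T.a (T.l 204) (T.l 204)))), by decide +kernel⟩

def A022L_003_2_426_1 :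
    ∃ t, chk3 (onCell 0 67108864 0 1073741824 858993459 64424510 (corW 3 c0B eng mog cA022L gB0q0 gB0q2 gB3q2 gB4q2 dB0q0 dB0q2 dB3q2 dB4q2 false true)) t 2 426 1 = true :=
  ⟨(T.a (T.c (T.c (T.c (T.b (T.l 0) (T.a (T.b (T.a (T.l 0) (T.l 0)) (T.a (T.a (T.l 2) (T.c (T.b (T.b (T.l 0) (T.l 2)) (T.l 2)) (T.l 0))) (T.c (T.b (T.a (T.l 0) (T.l 0)) (T.a (T.l 2) (T.b (T.a (T.l 2) (T.l 0)) (T.l 2)))) (T.l 0)))) (T.a (T.a (T.c (T.c (T.a (T.c (T.a (T.b (T.l 204) (T.c (T.a (T.b (T.l 204) (T.b (T.l 0) (T.l 2))) (T.l 0)) (T.l 0))) (T.l 0)) (T.l 0)) (T.l 0)) (T.l 0)) (T.l 0)) (T.l 0)) (T.l 0)))) (T.l 0)) (T.l 0)) (T.c (T.l 0) (T.a (T.a (T.l 0) (T.l 0)) (T.l 0)))) (T.c (T.c (T.a (T.l 0) (T.l 204)) (T.l 0)) (T.a (T.l 0) (T.l 0)))), by decide +kernel⟩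

def A022L_003_2_427_1 :
    ∃ t, chk3 (onCell 0 67108864 0 1073741824 858993459 64424510 (corW 3 c0B eng mog cA022L gB0q0 gB0q2 gB3q2 gB4q2 dB0q0 dB0q2 dB3q2 dB4q2 false true)) t 2 427 1 = true :=
  ⟨(T.a (T.a (T.l 2) (T.b (T.b (T.b (T.a (T.a (T.l 2) (T.c (T.c (T.c (T.c (T.a (T.l 2) (T.b (T.l 0) (T.l 2))) (T.l 0)) (T.l 0)) (T.l 0)) (T.l 0))) (T.c (T.c (T.c (T.a (T.b (T.l 0) (T.l 2)) (T.l 0)) (T.l 0)) (T.l 0)) (T.l 0))) (T.l 2)) (T.l 2)) (T.l 2))) (T.b (T.a (T.b (T.c (T.c (T.a (T.c (T.a (T.c (T.c (T.a (T.b (T.l 0) (T.b (T.l 0) (T.l 2))) (T.l 0)) (T.l 0)) (T.l 0)) (T.l 0)) (T.l 0)) (T.l 0)) (T.l 0)) (T.c (T.l 0) (T.l 0))) (T.a (T.l 2) (T.b (T.c (T.c (T.c (T.a (T.b (T.l 0) (T.l 2)) (T.l 0)) (T.l 0)) (T.l 0)) (T.l 0)) (T.l 2)))) (T.c (T.c (T.a (T.c (T.c (T.c (T.a (T.c (T.b (T.l 204) (T.b (T.l 0) (T.b (T.l 0)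 (T.l 2)))) (T.l 0)) (T.l 0)) (T.l 0)) (T.l 0)) (T.l 0)) (T.l 0)) (T.l 0)) (T.c (T.l 0) (T.l 0)))) (T.a (T.l 2) (T.a (T.l 2) (T.b (T.b (T.c (T.c (T.c (T.c (T.c (T.a (T.b (T.a (T.l 2) (T.l 0)) (T.l 2)) (T.a (T.b (T.l 0) (T.l 2)) (T.l 0))) (T.l 0)) (T.l 0)) (T.l 0)) (T.l 0)) (T.l 0)) (T.l 2)) (T.l 2)))))), by decide +kernel⟩

def A022L_003_3_213_1 :
    ∃ t, chk3 (onCell 0 67108864 0 1073741824 858993459 64424510 (corW 3 c0B eng mog cA022L gB0q0 gB0q2 gB3q2 gB4q2 dB0q0 dB0q2 dB3q2 dB4q2 false true)) t 3 213 1 = true :=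
  ⟨(T.c (T.c (T.a (T.c (T.b (T.l 204) (T.b (T.l 0) (T.a (T.b (T.a (T.b (T.l 0) (T.a (T.l 2) (T.b (T.l 0) (T.l 2)))) (T.l 0)) (T.a (T.l 2) (T.a (T.l 2) (T.c (T.b (T.b (T.l 0) (T.l 2)) (T.l 2)) (T.l 0))))) (T.c (T.a (T.c (T.b (T.l 204) (T.b (T.l 0) (T.a (T.l 2) (T.b (T.l 0) (T.l 2))))) (T.l 0)) (T.l 0)) (T.l 0))))) (T.a (T.l 0) (T.l 0))) (T.a (T.a (T.l 0) (T.l 0)) (T.l 0))) (T.a (T.l 0) (T.l 0))) (T.c (T.l 0) (T.a (T.a (T.a (T.l 0) (T.l 0)) (T.l 0)) (T.l 0)))), by decide +kernel⟩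

def A022L_003_1_107_1 :
    ∃ t, chk3 (onCell 0 67108864 0 1073741824 858993459 64424510 (corW 3 c0B eng mog cA022L gB0q0 gB0q2 gB3q2 gB4q2 dB0q0 dB0q2 dB3q2 dB4q2 false true)) t 1 107 1 = true :=
  ⟨(T.a (T.l 2) (T.b (T.b (T.b (T.a (T.a (T.l 2) (T.a (T.l 2) (T.a (T.l 2) (T.a (T.l 2) (T.b (T.c (T.c (T.c (T.c (T.b (T.b (T.l 0) (T.l 2)) (T.l 2)) (T.l 0)) (T.l 0)) (T.l 0)) (T.l 0)) (T.l 2)))))) (T.a (T.b (T.c (T.c (T.c (T.c (T.a (T.c (T.b (T.l 0) (T.a (T.l 2) (T.b (T.l 0) (T.l 2)))) (T.l 0)) (T.a (T.a (T.c (T.c (T.a (T.l 0) (T.l 0)) (T.l 0)) (T.l 0)) (T.l 0)) (T.l 0))) (T.l 0)) (T.l 0)) (T.l 0)) (T.c (T.l 0) (T.l 0))) (T.a (T.l 2) (T.a (T.l 2) (T.c (T.c (T.c (T.c (T.a (T.l 2) (T.a (T.l 2) (T.a (T.l 2) (T.b (T.b (T.l 0) (T.l 2)) (T.l 2))))) (T.l 0)) (T.l 0)) (T.l 0)) (T.l 0))))) (T.c (T.c (T.c (T.c (T.b (T.l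 0) (T.a (T.b (T.a (T.b (T.l 0) (T.l 2)) (T.l 0)) (T.l 2)) (T.a (T.a (T.c (T.c (T.b (T.l 0) (T.b (T.l 0) (T.l 2))) (T.l 0)) (T.l 0)) (T.l 0)) (T.l 0)))) (T.l 0)) (T.l 0)) (T.l 0)) (T.c (T.l 0) (T.l 0))))) (T.l 2)) (T.l 2)) (T.l 2))), by decide +kernel⟩

def A022L_003_1_27_1 :
    ∃ t, chk3 (onCell 0 67108864 0 1073741824 858993459 64424510 (corW 3 c0B eng mog cA022L gB0q0 gB0q2 gB3q2 gB4q2 dB0q0 dB0q2 dB3q2 dB4q2 false true)) t 1 27 1 = true :=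
  ⟨(T.l 2), by decide +kernel⟩

def A022L_003_1_7_1 :
    ∃ t, chk3 (onCell 0 67108864 0 1073741824 858993459 64424510 (corW 3 c0B eng mog cA022L gB0q0 gB0q2 gB3q2 gB4q2 dB0q0 dB0q2 dB3q2 dB4q2 false true)) t 1 7 1 = true :=
  ⟨(T.l 2), by decide +kernel⟩

theorem A022L_003_2_213_1 :
    ∃ t, chk3 (onCell 0 67108864 0 1073741824 858993459 64424510 (corW 3 c0B eng mog cA022L gB0q0 gB0q2 gB3q2 gB4q2 dB0q0 dB0q2 dB3q2 dB4q2 false true)) t 2 213 1 = true :=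
  ex3_b A022L_003_2_426_1 A022L_003_2_427_1
theorem A022L_003_1_213_1 :
    ∃ t, chk3 (onCell 0 67108864 0 1073741824 858993459 64424510 (corW 3 c0B eng mog cA022L gB0q0 gB0q2 gB3q2 gB4q2 dB0q0 dB0q2 dB3q2 dB4q2 false true)) t 1 213 1 = true :=
  ex3_a A022L_003_2_213_1 A022L_003_3_213_1
theorem A022L_003_1_106_1 :
    ∃ t, chk3 (onCell 0 67108864 0 1073741824 858993459 64424510 (corW 3 c0B eng mog cA022L gB0q0 gB0q2 gB3q2 gB4q2 dB0q0 dB0q2 dB3q2 dB4q2 false true)) t 1 106 1 = true :=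
  ex3_b A022L_003_1_212_1 A022L_003_1_213_1
theorem A022L_003_1_53_1 :
    ∃ t, chk3 (onCell 0 67108864 0 1073741824 858993459 64424510 (corW 3 c0B eng mog cA022L gB0q0 gB0q2 gB3q2 gB4q2 dB0q0 dB0q2 dB3q2 dB4q2 false true)) t 1 53 1 = true :=
  ex3_b A022L_003_1_106_1 A022L_003_1_107_1
theorem A022L_003_1_26_1 :
    ∃ t, chk3 (onCell 0 67108864 0 1073741824 858993459 64424510 (corW 3 c0B eng mog cA022L gB0q0 gB0q2 gB3q2 gB4q2 dB0q0 dB0q2 dB3q2 dB4q2 false true)) t 1 26 1 = true :=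
  ex3_b A022L_003_1_52_1 A022L_003_1_53_1
theorem A022L_003_1_13_1 :
    ∃ t, chk3 (onCell 0 67108864 0 1073741824 858993459 64424510 (corW 3 c0B eng mog cA022L gB0q0 gB0q2 gB3q2 gB4q2 dB0q0 dB0q2 dB3q2 dB4q2 false true)) t 1 13 1 = true :=
  ex3_b A022L_003_1_26_1 A022L_003_1_27_1
theorem A022L_003_1_6_1 :
    ∃ t, chk3 (onCell 0 67108864 0 1073741824 858993459 64424510 (corW 3 c0B eng mog cA022L gB0q0 gB0q2 gB3q2 gB4q2 dB0q0 dB0q2 dB3q2 dB4q2 false true)) t 1 6 1 = true :=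
  ex3_b A022L_003_1_12_1 A022L_003_1_13_1
theorem A022L_003_1_3_1 :
    ∃ t, chk3 (onCell 0 67108864 0 1073741824 858993459 64424510 (corW 3 c0B eng mog cA022L gB0q0 gB0q2 gB3q2 gB4q2 dB0q0 dB0q2 dB3q2 dB4q2 false true)) t 1 3 1 = true :=
  ex3_b A022L_003_1_6_1 A022L_003_1_7_1
theorem A022L_003_1_2_1 :
    ∃ t, chk3 (onCell 0 67108864 0 1073741824 858993459 64424510 (corW 3 c0B eng mog cA022L gB0q0 gB0q2 gB3q2 gB4q2 dB0q0 dB0q2 dB3q2 dB4q2 false true)) t 1 2 1 = true :=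
  ex3_b A022L_003_1_4_1 A022L_003_1_5_1
theorem A022L_003 :
    ∃ t, chk3 (onCell 0 67108864 0 1073741824 858993459 64424510 (corW 3 c0B eng mog cA022L gB0q0 gB0q2 gB3q2 gB4q2 dB0q0 dB0q2 dB3q2 dB4q2 false true)) t 1 1 1 = true :=
  ex3_b A022L_003_1_2_1 A022L_003_1_3_1

def A022L_013 :
    ∃ t, chk3 (onCell 0 67108864 0 1073741824 858993459 64424510 (corW 3 c0B eng mog cA022L gB0q0 gB1q2 gB3q2 gB4q2 dB0q0 dB1q2 dB3q2 dB4q2 false true)) t 1 1 1 = true :=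
  ⟨(T.b (T.b (T.b (T.a (T.l 204) (T.a (T.l 204) (T.b (T.l 204) (T.l 204)))) (T.l 204)) (T.c (T.b (T.l 0) (T.l 0)) (T.l 0))) (T.l 2)), by decide +kernel⟩

def A022L_113 :
    ∃ t, chk3 (onCell 0 67108864 0 1073741824 858993459 64424510 (corW 3 c0B eng mog cA022L gB1q0 gB1q2 gB3q2 gB4q2 dB1q0 dB1q2 dB3q2 dB4q2 false true)) t 1 1 1 = true :=
  ⟨(T.b (T.b (T.b (T.a (T.l 204) (T.a (T.l 204) (T.b (T.l 0) (T.l 204)))) (T.l 0)) (T.l 0)) (T.l 2)), by decide +kernel⟩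

def A022R_040 :
    ∃ t, chk3 (onCell 0 67108864 0 1073741824 858993459 64424510 (corW 3 c0B eng mog cA022R gB0q0 gB4q2 gB0q2 gB1q2 dB0q0 dB4q2 dB0q2 dB1q2 true true)) t 1 1 1 = true :=
  ⟨(T.l 2), by decide +kernel⟩

def A022R_041 :
    ∃ t, chk3 (onCell 0 67108864 0 1073741824 858993459 64424510 (corW 3 c0B eng mog cA022R gB0q0 gB4q2 gB1q2 gB2q2 dB0q0 dB4q2 dB1q2 dB2q2 true false)) t 1 1 1 = true :=
  ⟨(T.a (T.b (T.l 0) (T.b (T.l 816) (T.c (T.b (T.l 816) (T.l 816)) (T.l 880)))) (T.a (T.b (T.l 0) (T.b (T.l 816) (T.c (T.l 816) (T.l 816)))) (T.b (T.l 80) (T.c (T.b (T.l 816) (T.a (T.l 816) (T.l 816))) (T.c (T.l 816) (T.l 816)))))), by decide +kernel⟩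

def A022R_140 :
    ∃ t, chk3 (onCell 0 67108864 0 1073741824 858993459 64424510 (corW 3 c0B eng mog cA022R gB1q0 gB4q2 gB0q2 gB1q2 dB1q0 dB4q2 dB0q2 dB1q2 true true)) t 1 1 1 = true :=
  ⟨(T.l 2), by decide +kernel⟩

def A022R_141 :
    ∃ t, chk3 (onCell 0 67108864 0 1073741824 858993459 64424510 (corW 3 c0B eng mog cA022R gB1q0 gB4q2 gB1q2 gB2q2 dB1q0 dB4q2 dB1q2 dB2q2 true false)) t 1 1 1 = true :=
  ⟨(T.a (T.b (T.l 0) (T.l 816)) (T.a (T.b (T.l 0) (T.l 816)) (T.b (T.l 0) (T.b (T.l 816) (T.b (T.l 816) (T.l 816)))))), by decide +kernel⟩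

def A101E_000 :
    ∃ t, chk3 (onCell 0 67108864 0 1073741824 858993459 64424510 (corW 3 c0B eng mog cA101E gB0q1 gB0q0 gB0q1 gB1q1 dB0q1 dB0q0 dB0q1 dB1q1 true false)) t 1 1 1 = true :=
  ⟨(T.l 1), by decide +kernel⟩

def A101E_010 :
    ∃ t, chk3 (onCell 0 67108864 0 1073741824 858993459 64424510 (corW 3 c0B eng mog cA101E gB0q1 gB1q0 gB0q1 gB1q1 dB0q1 dB1q0 dB0q1 dB1q1 true false)) t 1 1 1 = true :=
  ⟨(T.l 1), by decide +kernel⟩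

def A101R_001 :
    ∃ t, chk3 (onCell 0 67108864 0 1073741824 858993459 64424510 (corW 3 c0B eng mog cA101R gB0q1 gB0q0 gB1q1 gB2q1 dB0q1 dB0q0 dB1q1 dB2q1 false true)) t 1 1 1 = true :=
  ⟨(T.l 2), by decide +kernel⟩

def A101R_002 :
    ∃ t, chk3 (onCell 0 67108864 0 1073741824 858993459 64424510 (corW 3 c0B eng mog cA101R gB0q1 gB0q0 gB2q1 gB3q1 dB0q1 dB0q0 dB2q1 dB3q1 true true)) t 1 1 1 = true :=
  ⟨(T.l 2), by decide +kernel⟩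

def A101R_003 :
    ∃ t, chk3 (onCell 0 67108864 0 1073741824 858993459 64424510 (corW 3 c0B eng mog cA101R gB0q1 gB0q0 gB3q1 gB4q1 dB0q1 dB0q0 dB3q1 dB4q1 true true)) t 1 1 1 = true :=
  ⟨(T.l 2), by decide +kernel⟩

def A101R_011 :
    ∃ t, chk3 (onCell 0 67108864 0 1073741824 858993459 64424510 (corW 3 c0B eng mog cA101R gB0q1 gB1q0 gB1q1 gB2q1 dB0q1 dB1q0 dB1q1 dB2q1 false true)) t 1 1 1 = true :=
  ⟨(T.l 2), by decide +kernel⟩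

def A101R_012 :
    ∃ t, chk3 (onCell 0 67108864 0 1073741824 858993459 64424510 (corW 3 c0B eng mog cA101R gB0q1 gB1q0 gB2q1 gB3q1 dB0q1 dB1q0 dB2q1 dB3q1 true true)) t 1 1 1 = true :=
  ⟨(T.l 2), by decide +kernel⟩

def A101R_013 :
    ∃ t, chk3 (onCell 0 67108864 0 1073741824 858993459 64424510 (corW 3 c0B eng mog cA101R gB0q1 gB1q0 gB3q1 gB4q1 dB0q1 dB1q0 dB3q1 dB4q1 true true)) t 1 1 1 = true :=
  ⟨(T.l 2), by decide +kernel⟩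

def A102E_000_1_4_1 :
    ∃ t, chk3 (onCell 0 67108864 0 1073741824 858993459 64424510 (corW 3 c0B eng mog cA102E gB0q1 gB0q0 gB0q2 gB1q2 dB0q1 dB0q0 dB0q2 dB1q2 true true)) t 1 4 1 = true :=
  ⟨(T.l 2), by decide +kernel⟩

def A102E_000_1_10_1 :
    ∃ t, chk3 (onCell 0 67108864 0 1073741824 858993459 64424510 (corW 3 c0B eng mog cA102E gB0q1 gB0q0 gB0q2 gB1q2 dB0q1 dB0q0 dB0q2 dB1q2 true true)) t 1 10 1 = true :=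
  ⟨(T.a (T.b (T.l 2) (T.a (T.b (T.l 2) (T.a (T.c (T.l 204) (T.l 0)) (T.l 2))) (T.l 2))) (T.l 2)), by decide +kernel⟩

def A102E_000_2_11_1 :
    ∃ t, chk3 (onCell 0 67108864 0 1073741824 858993459 64424510 (corW 3 c0B eng mog cA102E gB0q1 gB0q0 gB0q2 gB1q2 dB0q1 dB0q0 dB0q2 dB1q2 true true)) t 2 11 1 = true :=
  ⟨(T.c (T.b (T.c (T.a (T.b (T.l 204) (T.a (T.l 204) (T.l 204))) (T.c (T.b (T.l 204) (T.l 204)) (T.l 204))) (T.a (T.l 0) (T.l 0))) (T.a (T.c (T.b (T.c (T.a (T.l 204) (T.l 204)) (T.l 0)) (T.c (T.b (T.l 0) (T.a (T.a (T.l 0) (T.l 0)) (T.l 0))) (T.a (T.l 0) (T.l 0)))) (T.b (T.l 0) (T.l 0))) (T.c (T.b (T.c (T.a (T.l 204) (T.l 204)) (T.l 204)) (T.c (T.b (T.l 204) (T.a (T.l 0) (T.l 204))) (T.l 0))) (T.b (T.l 0) (T.l 0))))) (T.b (T.c (T.a (T.l 0) (T.l 0)) (T.l 0)) (T.a (T.c (T.b (T.l 0) (T.l 0)) (T.l 0)) (T.c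 (T.b (T.l 0) (T.l 0)) (T.l 0))))), by decide +kernel⟩

def A102E_000_6_11_1 :
    ∃ t, chk3 (onCell 0 67108864 0 1073741824 858993459 64424510 (corW 3 c0B eng mog cA102E gB0q1 gB0q0 gB0q2 gB1q2 dB0q1 dB0q0 dB0q2 dB1q2 true true)) t 6 11 1 = true :=
  ⟨(T.c (T.b (T.c (T.c (T.b (T.l 204) (T.l 204)) (T.l 204)) (T.l 0)) (T.c (T.b (T.c (T.a (T.l 204) (T.l 204)) (T.l 204)) (T.c (T.b (T.l 220) (T.a (T.l 204) (T.l 204))) (T.l 0))) (T.b (T.l 0) (T.l 0)))) (T.b (T.b (T.l 0) (T.l 0)) (T.c (T.l 16) (T.l 0)))), by decide +kernel⟩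

def A102E_000_7_11_1 :
    ∃ t, chk3 (onCell 0 67108864 0 1073741824 858993459 64424510 (corW 3 c0B eng mog cA102E gB0q1 gB0q0 gB0q2 gB1q2 dB0q1 dB0q0 dB0q2 dB1q2 true true)) t 7 11 1 = true :=
  ⟨(T.b (T.b (T.b (T.l 2) (T.b (T.b (T.a (T.c (T.a (T.l 204) (T.c (T.l 204) (T.l 204))) (T.l 0)) (T.c (T.c (T.a (T.l 204) (T.l 2)) (T.l 204)) (T.l 0))) (T.a (T.c (T.a (T.l 204) (T.c (T.l 204) (T.l 204))) (T.l 0)) (T.c (T.c (T.a (T.l 204) (T.l 204)) (T.l 204)) (T.l 0)))) (T.b (T.a (T.c (T.a (T.l 204) (T.c (T.l 204) (T.l 204))) (T.l 0)) (T.c (T.c (T.a (T.l 204) (T.l 204)) (T.l 204)) (T.l 0))) (T.c (T.a (T.a (T.l 204) (T.c (T.l 204) (T.l 204))) (T.c (T.a (T.l 204) (T.l 204)) (T.l 204))) (T.a (T.l 0) (T.l 0)))))) (T.c (T.a (T.a (T.c (T.l 204) (T.l 204)) (T.c (T.c (T.b (T.l 204) (T.l 204)) (T.l 204)) (T.l 0))) (T.c (T.a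 (T.c (T.b (T.l 204) (T.l 204)) (T.l 204)) (T.b (T.l 220) (T.b (T.l 204) (T.l 204)))) (T.b (T.l 0) (T.l 0)))) (T.a (T.a (T.l 0) (T.l 0)) (T.a (T.l 0) (T.l 0))))) (T.a (T.c (T.c (T.c (T.b (T.l 204) (T.b (T.l 204) (T.l 204))) (T.b (T.l 204) (T.l 204))) (T.l 0)) (T.b (T.l 0) (T.l 0))) (T.c (T.b (T.c (T.a (T.b (T.b (T.l 204) (T.l 220)) (T.a (T.l 204) (T.b (T.l 204) (T.l 204)))) (T.c (T.b (T.l 204) (T.l 220)) (T.l 220))) (T.b (T.l 0) (T.l 0))) (T.a (T.c (T.c (T.l 204) (T.l 204)) (T.l 204)) (T.c (T.c (T.b (T.b (T.l 204) (T.l 204)) (T.b (T.l 204) (T.l 204))) (T.b (T.l 204) (T.l 204))) (T.l 0)))) (T.b (T.a (T.b (T.l 0) (T.l 0)) (T.l 0)) (T.a (T.l 0) (T.b (T.l 0) (T.l 0))))))), by decide +kernel⟩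

def A102E_000_2_192_1 :
    ∃ t, chk3 (onCell 0 67108864 0 1073741824 858993459 64424510 (corW 3 c0B eng mog cA102E gB0q1 gB0q0 gB0q2 gB1q2 dB0q1 dB0q0 dB0q2 dB1q2 true true)) t 2 192 1 = true :=
  ⟨(T.c (T.a (T.b (T.c (T.a (T.c (T.b (T.a (T.c (T.b (T.a (T.a (T.b (T.l 0) (T.l 1)) (T.l 0)) (T.l 0)) (T.a (T.l 1) (T.b (T.l 0) (T.a (T.l 1) (T.a (T.l 1) (T.l 0)))))) (T.a (T.b (T.l 0) (T.l 1)) (T.l 0))) (T.l 0)) (T.a (T.l 1) (T.b (T.a (T.b (T.a (T.l 1) (T.l 0)) (T.l 1)) (T.l 0)) (T.a (T.l 1) (T.c (T.a (T.l 1) (T.c (T.b (T.l 0) (T.l 1)) (T.l 0))) (T.l 0)))))) (T.a (T.b (T.l 0) (T.l 1)) (T.l 0))) (T.c (T.a (T.a (T.c (T.a (T.c (T.b (T.l 204) (T.a (T.c (T.b (T.l 0) (T.b (T.l 0) (T.l 1))) (T.l 0)) (T.l 0))) (T.l 0)) (T.l 0)) (T.l 0)) (T.l 0)) (T.l 0)) (T.l 0))) (T.a (T.l 0) (T.l 0))) (T.a (T.l 1) (T.b (T.c (T.c (T.a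 (T.a (T.l 1) (T.b (T.b (T.l 0) (T.c (T.a (T.l 1) (T.l 0)) (T.l 0))) (T.l 1))) (T.a (T.c (T.b (T.l 0) (T.b (T.a (T.l 1) (T.l 0)) (T.l 1))) (T.l 0)) (T.l 0))) (T.a (T.a (T.l 1) (T.l 0)) (T.l 0))) (T.l 0)) (T.a (T.l 1) (T.c (T.a (T.l 1) (T.c (T.a (T.l 1) (T.a (T.l 1) (T.b (T.b (T.l 0) (T.l 1)) (T.l 1)))) (T.l 0))) (T.l 0)))))) (T.c (T.c (T.a (T.a (T.b (T.l 204) (T.b (T.l 0) (T.c (T.b (T.a (T.a (T.b (T.l 0) (T.l 1)) (T.l 0)) (T.l 0)) (T.a (T.l 1) (T.b (T.l 0) (T.a (T.l 1) (T.l 0))))) (T.l 0)))) (T.l 0)) (T.l 0)) (T.a (T.l 0) (T.l 0))) (T.l 0))) (T.a (T.c (T.c (T.c (T.l 0) (T.l 0)) (T.l 0)) (T.l 0)) (T.a (T.l 0) (T.l 0)))), by decide +kernel⟩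

def A102E_000_2_193_1 :
    ∃ t, chk3 (onCell 0 67108864 0 1073741824 858993459 64424510 (corW 3 c0B eng mog cA102E gB0q1 gB0q0 gB0q2 gB1q2 dB0q1 dB0q0 dB0q2 dB1q2 true true)) t 2 193 1 = true :=
  ⟨(T.a (T.l 1) (T.b (T.a (T.a (T.l 1) (T.b (T.c (T.c (T.c (T.b (T.a (T.b (T.a (T.l 1) (T.l 0)) (T.l 1)) (T.l 0)) (T.a (T.l 1) (T.c (T.a (T.l 1) (T.b (T.l 0) (T.l 1))) (T.l 0)))) (T.l 0)) (T.l 0)) (T.l 0)) (T.l 1))) (T.c (T.c (T.c (T.a (T.b (T.a (T.c (T.a (T.c (T.a (T.c (T.b (T.l 0) (T.b (T.l 0) (T.l 1))) (T.l 0)) (T.l 0)) (T.l 0)) (T.l 0)) (T.l 0)) (T.l 0)) (T.a (T.l 1) (T.b (T.b (T.l 0) (T.a (T.l 1) (T.l 0))) (T.l 1)))) (T.a (T.c (T.c (T.b (T.l 204) (T.b (T.l 0) (T.b (T.a (T.l 1) (T.l 0)) (T.l 1)))) (T.l 0)) (T.l 0)) (T.l 0))) (T.a (T.c (T.l 0) (T.l 0)) (T.l 0))) (T.l 0)) (T.l 0))) (T.a (T.l 1) (T.a (T.l 1) (T.a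 (T.l 1) (T.c (T.c (T.a (T.l 1) (T.b (T.c (T.a (T.l 1) (T.c (T.b (T.b (T.l 0) (T.l 1)) (T.l 1)) (T.l 0))) (T.l 0)) (T.l 1))) (T.l 0)) (T.l 0))))))), by decide +kernel⟩

def A102E_000_3_96_1 :
    ∃ t, chk3 (onCell 0 67108864 0 1073741824 858993459 64424510 (corW 3 c0B eng mog cA102E gB0q1 gB0q0 gB0q2 gB1q2 dB0q1 dB0q0 dB0q2 dB1q2 true true)) t 3 96 1 = true :=
  ⟨(T.a (T.c (T.c (T.c (T.b (T.a (T.l 0) (T.l 204)) (T.a (T.b (T.l 0) (T.b (T.a (T.c (T.b (T.a (T.a (T.b (T.l 0) (T.l 1)) (T.l 0)) (T.l 0)) (T.a (T.l 1) (T.b (T.l 0) (T.a (T.l 1) (T.l 0))))) (T.l 0)) (T.l 0)) (T.a (T.l 1) (T.b (T.a (T.b (T.a (T.l 1) (T.l 0)) (T.l 1)) (T.l 0)) (T.a (T.l 1) (T.c (T.a (T.l 1) (T.b (T.l 0) (T.l 1))) (T.l 0))))))) (T.a (T.a (T.c (T.b (T.l 204) (T.a (T.c (T.b (T.l 204) (T.a (T.c (T.b (T.l 0) (T.b (T.l 0) (T.l 1))) (T.l 0))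 (T.l 0))) (T.l 0)) (T.l 0))) (T.l 0)) (T.l 0)) (T.l 0)))) (T.a (T.c (T.a (T.b (T.l 204) (T.c (T.a (T.b (T.l 0) (T.b (T.l 0) (T.l 1))) (T.l 0)) (T.l 0))) (T.l 0)) (T.l 0)) (T.l 0))) (T.a (T.l 0) (T.l 0))) (T.c (T.a (T.l 0) (T.l 0)) (T.l 0))) (T.c (T.a (T.c (T.c (T.a (T.l 0) (T.l 0)) (T.l 0)) (T.l 0)) (T.c (T.a (T.c (T.l 204) (T.l 204)) (T.c (T.b (T.l 220) (T.l 204)) (T.l 0))) (T.a (T.l 0) (T.l 0)))) (T.a (T.l 0) (T.c (T.l 0) (T.l 0))))), by decide +kernel⟩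

def A102E_000_2_97_1 :
    ∃ t, chk3 (onCell 0 67108864 0 1073741824 858993459 64424510 (corW 3 c0B eng mog cA102E gB0q1 gB0q0 gB0q2 gB1q2 dB0q1 dB0q0 dB0q2 dB1q2 true true)) t 2 97 1 = true :=
  ⟨(T.l 1), by decide +kernel⟩

def A102E_000_3_194_1 :
    ∃ t, chk3 (onCell 0 67108864 0 1073741824 858993459 64424510 (corW 3 c0B eng mog cA102E gB0q1 gB0q0 gB0q2 gB1q2 dB0q1 dB0q0 dB0q2 dB1q2 true true)) t 3 194 1 = true :=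
  ⟨(T.a (T.a (T.l 1) (T.b (T.b (T.c (T.c (T.c (T.a (T.b (T.a (T.l 1) (T.b (T.l 0) (T.a (T.l 1) (T.l 0)))) (T.l 1)) (T.a (T.c (T.c (T.b (T.l 0) (T.b (T.a (T.l 1) (T.l 0)) (T.l 1))) (T.l 0)) (T.l 0)) (T.l 0))) (T.a (T.l 0) (T.l 0))) (T.l 0)) (T.l 0)) (T.a (T.l 1) (T.c (T.c (T.a (T.l 1) (T.c (T.a (T.l 1) (T.a (T.l 1) (T.c (T.b (T.b (T.l 0) (T.l 1)) (T.l 1)) (T.l 0)))) (T.l 0))) (T.l 0)) (T.l 0)))) (T.l 1))) (T.c (T.c (T.c (T.a (T.b (T.a (T.c (T.b (T.l 0) (T.b (T.a (T.a (T.b (T.l 0) (T.l 1)) (T.l 0)) (T.l 0)) (T.a (T.l 1) (T.b (T.l 0) (T.a (T.l 1) (T.l 0)))))) (T.l 0)) (T.l 0)) (T.a (T.l 1) (T.b (T.b (T.a (T.b (T.a (T.l 1) (T.l 0)) (T.l 1)) (T.l 0)) (T.a (T.l 1) (T.c (T.a (T.l 1) (T.b (T.l 0) (T.l 1))) (T.l 0)))) (T.l 1)))) (T.b (T.l 0) (T.a (T.b (T.a (T.c (T.a (T.c (T.a (T.c (T.b (T.l 0) (T.a (T.l 0) (T.l 0)))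 (T.l 0)) (T.l 0)) (T.l 0)) (T.l 0)) (T.l 0)) (T.l 0)) (T.b (T.a (T.l 1) (T.b (T.l 0) (T.a (T.l 1) (T.l 0)))) (T.l 1))) (T.a (T.c (T.c (T.b (T.l 204) (T.b (T.l 0) (T.b (T.a (T.l 1) (T.l 0)) (T.l 1)))) (T.l 0)) (T.l 0)) (T.l 0))))) (T.a (T.b (T.l 0) (T.b (T.a (T.l 1) (T.l 0)) (T.l 1))) (T.a (T.l 0) (T.l 0)))) (T.a (T.a (T.c (T.l 0) (T.l 0)) (T.l 0)) (T.l 0))) (T.c (T.a (T.l 0) (T.l 0)) (T.l 0)))), by decide +kernel⟩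

def A102E_000_3_195_1 :
    ∃ t, chk3 (onCell 0 67108864 0 1073741824 858993459 64424510 (corW 3 c0B eng mog cA102E gB0q1 gB0q0 gB0q2 gB1q2 dB0q1 dB0q0 dB0q2 dB1q2 true true)) t 3 195 1 = true :=
  ⟨(T.a (T.l 1) (T.a (T.l 1) (T.a (T.l 1) (T.a (T.l 1) (T.b (T.c (T.c (T.a (T.l 1) (T.b (T.c (T.c (T.a (T.l 1) (T.b (T.b (T.l 0) (T.l 1)) (T.l 1))) (T.l 0)) (T.l 0)) (T.l 1))) (T.l 0)) (T.l 0)) (T.l 1)))))), by decide +kernel⟩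

def A102E_000_1_49_1 :
    ∃ t, chk3 (onCell 0 67108864 0 1073741824 858993459 64424510 (corW 3 c0B eng mog cA102E gB0q1 gB0q0 gB0q2 gB1q2 dB0q1 dB0q0 dB0q2 dB1q2 true true)) t 1 49 1 = true :=
  ⟨(T.l 1), by decide +kernel⟩

def A102E_000_1_25_1 :
    ∃ t, chk3 (onCell 0 67108864 0 1073741824 858993459 64424510 (corW 3 c0B eng mog cA102E gB0q1 gB0q0 gB0q2 gB1q2 dB0q1 dB0q0 dB0q2 dB1q2 true true)) t 1 25 1 = true :=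
  ⟨(T.l 1), by decide +kernel⟩

def A102E_000_1_13_1 :
    ∃ t, chk3 (onCell 0 67108864 0 1073741824 858993459 64424510 (corW 3 c0B eng mog cA102E gB0q1 gB0q0 gB0q2 gB1q2 dB0q1 dB0q0 dB0q2 dB1q2 true true)) t 1 13 1 = true :=
  ⟨(T.l 1), by decide +kernel⟩

def A102E_000_1_7_1 :
    ∃ t, chk3 (onCell 0 67108864 0 1073741824 858993459 64424510 (corW 3 c0B eng mog cA102E gB0q1 gB0q0 gB0q2 gB1q2 dB0q1 dB0q0 dB0q2 dB1q2 true true)) t 1 7 1 = true :=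
  ⟨(T.l 1), by decide +kernel⟩

theorem A102E_000_3_97_1 :
    ∃ t, chk3 (onCell 0 67108864 0 1073741824 858993459 64424510 (corW 3 c0B eng mog cA102E gB0q1 gB0q0 gB0q2 gB1q2 dB0q1 dB0q0 dB0q2 dB1q2 true true)) t 3 97 1 = true :=
  ex3_b A102E_000_3_194_1 A102E_000_3_195_1
theorem A102E_000_1_97_1 :
    ∃ t, chk3 (onCell 0 67108864 0 1073741824 858993459 64424510 (corW 3 c0B eng mog cA102E gB0q1 gB0q0 gB0q2 gB1q2 dB0q1 dB0q0 dB0q2 dB1q2 true true)) t 1 97 1 = true :=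
  ex3_a A102E_000_2_97_1 A102E_000_3_97_1
theorem A102E_000_2_96_1 :
    ∃ t, chk3 (onCell 0 67108864 0 1073741824 858993459 64424510 (corW 3 c0B eng mog cA102E gB0q1 gB0q0 gB0q2 gB1q2 dB0q1 dB0q0 dB0q2 dB1q2 true true)) t 2 96 1 = true :=
  ex3_b A102E_000_2_192_1 A102E_000_2_193_1
theorem A102E_000_1_96_1 :
    ∃ t, chk3 (onCell 0 67108864 0 1073741824 858993459 64424510 (corW 3 c0B eng mog cA102E gB0q1 gB0q0 gB0q2 gB1q2 dB0q1 dB0q0 dB0q2 dB1q2 true true)) t 1 96 1 = true :=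
  ex3_a A102E_000_2_96_1 A102E_000_3_96_1
theorem A102E_000_1_48_1 :
    ∃ t, chk3 (onCell 0 67108864 0 1073741824 858993459 64424510 (corW 3 c0B eng mog cA102E gB0q1 gB0q0 gB0q2 gB1q2 dB0q1 dB0q0 dB0q2 dB1q2 true true)) t 1 48 1 = true :=
  ex3_b A102E_000_1_96_1 A102E_000_1_97_1
theorem A102E_000_1_24_1 :
    ∃ t, chk3 (onCell 0 67108864 0 1073741824 858993459 64424510 (corW 3 c0B eng mog cA102E gB0q1 gB0q0 gB0q2 gB1q2 dB0q1 dB0q0 dB0q2 dB1q2 true true)) t 1 24 1 = true :=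
  ex3_b A102E_000_1_48_1 A102E_000_1_49_1
theorem A102E_000_1_12_1 :
    ∃ t, chk3 (onCell 0 67108864 0 1073741824 858993459 64424510 (corW 3 c0B eng mog cA102E gB0q1 gB0q0 gB0q2 gB1q2 dB0q1 dB0q0 dB0q2 dB1q2 true true)) t 1 12 1 = true :=
  ex3_b A102E_000_1_24_1 A102E_000_1_25_1
theorem A102E_000_1_6_1 :
    ∃ t, chk3 (onCell 0 67108864 0 1073741824 858993459 64424510 (corW 3 c0B eng mog cA102E gB0q1 gB0q0 gB0q2 gB1q2 dB0q1 dB0q0 dB0q2 dB1q2 true true)) t 1 6 1 = true :=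
  ex3_b A102E_000_1_12_1 A102E_000_1_13_1
theorem A102E_000_1_3_1 :
    ∃ t, chk3 (onCell 0 67108864 0 1073741824 858993459 64424510 (corW 3 c0B eng mog cA102E gB0q1 gB0q0 gB0q2 gB1q2 dB0q1 dB0q0 dB0q2 dB1q2 true true)) t 1 3 1 = true :=
  ex3_b A102E_000_1_6_1 A102E_000_1_7_1
theorem A102E_000_3_11_1 :
    ∃ t, chk3 (onCell 0 67108864 0 1073741824 858993459 64424510 (corW 3 c0B eng mog cA102E gB0q1 gB0q0 gB0q2 gB1q2 dB0q1 dB0q0 dB0q2 dB1q2 true true)) t 3 11 1 = true :=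
  ex3_a A102E_000_6_11_1 A102E_000_7_11_1
theorem A102E_000_1_11_1 :
    ∃ t, chk3 (onCell 0 67108864 0 1073741824 858993459 64424510 (corW 3 c0B eng mog cA102E gB0q1 gB0q0 gB0q2 gB1q2 dB0q1 dB0q0 dB0q2 dB1q2 true true)) t 1 11 1 = true :=
  ex3_a A102E_000_2_11_1 A102E_000_3_11_1
theorem A102E_000_1_5_1 :
    ∃ t, chk3 (onCell 0 67108864 0 1073741824 858993459 64424510 (corW 3 c0B eng mog cA102E gB0q1 gB0q0 gB0q2 gB1q2 dB0q1 dB0q0 dB0q2 dB1q2 true true)) t 1 5 1 = true :=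
  ex3_b A102E_000_1_10_1 A102E_000_1_11_1
theorem A102E_000_1_2_1 :
    ∃ t, chk3 (onCell 0 67108864 0 1073741824 858993459 64424510 (corW 3 c0B eng mog cA102E gB0q1 gB0q0 gB0q2 gB1q2 dB0q1 dB0q0 dB0q2 dB1q2 true true)) t 1 2 1 = true :=
  ex3_b A102E_000_1_4_1 A102E_000_1_5_1
theorem A102E_000 :
    ∃ t, chk3 (onCell 0 67108864 0 1073741824 858993459 64424510 (corW 3 c0B eng mog cA102E gB0q1 gB0q0 gB0q2 gB1q2 dB0q1 dB0q0 dB0q2 dB1q2 true true)) t 1 1 1 = true :=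
  ex3_b A102E_000_1_2_1 A102E_000_1_3_1

def A102E_001 :
    ∃ t, chk3 (onCell 0 67108864 0 1073741824 858993459 64424510 (corW 3 c0B eng mog cA102E gB0q1 gB0q0 gB1q2 gB2q2 dB0q1 dB0q0 dB1q2 dB2q2 true false)) t 1 1 1 = true :=
  ⟨(T.b (T.b (T.a (T.c (T.b (T.a (T.b (T.b (T.l 204) (T.l 204)) (T.l 204)) (T.c (T.b (T.l 204) (T.l 204)) (T.l 204))) (T.c (T.a (T.b (T.l 204) (T.l 204)) (T.b (T.l 204) (T.l 204))) (T.b (T.l 204) (T.l 204)))) (T.b (T.c (T.b (T.l 204) (T.l 204)) (T.l 204)) (T.b (T.l 220) (T.l 204)))) (T.a (T.c (T.b (T.c (T.b (T.l 204) (T.l 204)) (T.l 204)) (T.c (T.b (T.l 204) (T.l 204)) (T.l 204))) (T.c (T.b (T.l 204) (T.l 204)) (T.l 204))) (T.b (T.c (T.a (T.b (T.b (T.l 204) (T.l 204)) (T.l 220)) (T.b (T.a (T.l 204) (T.c (T.l 204) (T.l 204))) (T.b (T.l 204) (T.l 204)))) (T.a (T.l 204) (T.b (T.l 204)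 (T.l 204)))) (T.c (T.c (T.b (T.l 204) (T.l 204)) (T.l 204)) (T.b (T.l 204) (T.l 204)))))) (T.b (T.c (T.a (T.c (T.b (T.a (T.l 204) (T.l 204)) (T.a (T.l 204) (T.l 204))) (T.b (T.l 204) (T.l 0))) (T.c (T.b (T.a (T.l 204) (T.l 204)) (T.a (T.l 204) (T.l 204))) (T.b (T.l 204) (T.l 204)))) (T.a (T.b (T.l 204) (T.l 0)) (T.b (T.a (T.l 204) (T.l 204)) (T.l 16)))) (T.b (T.b (T.c (T.c (T.a (T.l 0) (T.a (T.l 204) (T.l 204))) (T.l 0)) (T.a (T.l 0) (T.l 0))) (T.l 1)) (T.l 1)))) (T.l 1)), by decide +kernel⟩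

def A102E_010 :
    ∃ t, chk3 (onCell 0 67108864 0 1073741824 858993459 64424510 (corW 3 c0B eng mog cA102E gB0q1 gB1q0 gB0q2 gB1q2 dB0q1 dB1q0 dB0q2 dB1q2 true true)) t 1 1 1 = true :=
  ⟨(T.b (T.l 2) (T.b (T.b (T.b (T.l 2) (T.a (T.l 0) (T.a (T.l 2) (T.l 2)))) (T.b (T.a (T.c (T.l 0) (T.a (T.l 816) (T.l 816))) (T.a (T.b (T.l 816) (T.l 816)) (T.a (T.b (T.l 0) (T.l 944)) (T.b (T.l 0) (T.l 0))))) (T.b (T.b (T.a (T.c (T.l 816) (T.a (T.c (T.l 816) (T.a (T.l 816) (T.l 816))) (T.l 944))) (T.a (T.c (T.l 816) (T.l 816)) (T.a (T.c (T.l 816) (T.l 816)) (T.c (T.l 816) (T.l 816))))) (T.b (T.a (T.a (T.l 1) (T.c (T.l 816) (T.a (T.l 1) (T.c (T.l 816) (T.l 816))))) (T.b (T.a (T.c (T.l 816) (T.l 816)) (T.a (T.c (T.l 816) (T.l 816)) (T.c (T.l 816) (T.l 816)))) (T.a (T.l 1) (T.a (T.l 1) (T.c (T.l 816) (T.l 816)))))) (T.l 1)))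 (T.l 1)))) (T.l 1))), by decide +kernel⟩

def A102E_011 :
    ∃ t, chk3 (onCell 0 67108864 0 1073741824 858993459 64424510 (corW 3 c0B eng mog cA102E gB0q1 gB1q0 gB1q2 gB2q2 dB0q1 dB1q0 dB1q2 dB2q2 true false)) t 1 1 1 = true :=
  ⟨(T.b (T.a (T.b (T.l 0) (T.l 0)) (T.b (T.a (T.l 0) (T.b (T.l 0) (T.l 204))) (T.a (T.l 0) (T.l 0)))) (T.b (T.b (T.a (T.l 0) (T.a (T.l 0) (T.a (T.l 0) (T.l 0)))) (T.b (T.b (T.a (T.l 0) (T.a (T.l 816) (T.c (T.l 0) (T.l 0)))) (T.l 1)) (T.l 1))) (T.l 1))), by decide +kernel⟩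

def A102R_003 :
    ∃ t, chk3 (onCell 0 67108864 0 1073741824 858993459 64424510 (corW 3 c0B eng mog cA102R gB0q1 gB0q0 gB3q2 gB4q2 dB0q1 dB0q0 dB3q2 dB4q2 false true)) t 1 1 1 = true :=
  ⟨(T.l 2), by decide +kernel⟩

def A102R_013 :
    ∃ t, chk3 (onCell 0 67108864 0 1073741824 858993459 64424510 (corW 3 c0B eng mog cA102R gB0q1 gB1q0 gB3q2 gB4q2 dB0q1 dB1q0 dB3q2 dB4q2 false true)) t 1 1 1 = true :=
  ⟨(T.l 2), by decide +kernel⟩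

def A202E_000 :
    ∃ t, chk3 (onCell 0 67108864 0 1073741824 858993459 64424510 (corW 3 c0B eng mog cA202E gB0q2 gB0q0 gB0q2 gB1q2 dB0q2 dB0q0 dB0q2 dB1q2 true true)) t 1 1 1 = true :=
  ⟨(T.l 2), by decide +kernel⟩

def A202E_001_1_2_1 :
    ∃ t, chk3 (onCell 0 67108864 0 1073741824 858993459 64424510 (corW 3 c0B eng mog cA202E gB0q2 gB0q0 gB1q2 gB2q2 dB0q2 dB0q0 dB1q2 dB2q2 true false)) t 1 2 1 = true :=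
  ⟨(T.a (T.b (T.c (T.b (T.c (T.a (T.l 204) (T.l 204)) (T.l 204)) (T.l 0)) (T.b (T.a (T.l 204) (T.l 204)) (T.l 0))) (T.c (T.l 0) (T.l 0))) (T.a (T.b (T.c (T.b (T.c (T.b (T.l 204) (T.l 204)) (T.l 204)) (T.l 204)) (T.b (T.l 204) (T.l 0))) (T.b (T.l 0) (T.l 0))) (T.b (T.c (T.b (T.b (T.a (T.l 204) (T.c (T.l 204) (T.l 204))) (T.l 204)) (T.l 0)) (T.c (T.b (T.l 204) (T.l 0)) (T.l 0))) (T.b (T.b (T.l 0) (T.l 4)) (T.a (T.l 0) (T.b (T.l 0) (T.l 0))))))), by decide +kernel⟩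

def A202E_001_1_3_1 :
    ∃ t, chk3 (onCell 0 67108864 0 1073741824 858993459 64424510 (corW 3 c0B eng mog cA202E gB0q2 gB0q0 gB1q2 gB2q2 dB0q2 dB0q0 dB1q2 dB2q2 true false)) t 1 3 1 = true :=
  ⟨(T.b (T.a (T.c (T.b (T.l 0) (T.l 816)) (T.b (T.l 816) (T.l 816))) (T.a (T.b (T.l 0) (T.a (T.l 816) (T.c (T.l 880) (T.b (T.l 816) (T.l 816))))) (T.b (T.a (T.b (T.l 816) (T.l 816)) (T.b (T.l 0) (T.l 816))) (T.a (T.c (T.l 816) (T.l 816)) (T.c (T.l 816) (T.l 816)))))) (T.b (T.a (T.c (T.a (T.l 816) (T.l 816)) (T.a (T.l 816) (T.l 816))) (T.a (T.a (T.a (T.b (T.l 816) (T.l 816)) (T.c (T.l 816) (T.l 816))) (T.c (T.b (T.l 816) (T.l 816)) (T.b (T.l 816) (T.l 816)))) (T.a (T.c (T.b (T.l 816) (T.l 816)) (T.b (T.l 816) (T.l 816))) (T.c (T.b (T.l 816) (T.l 816)) (T.b (T.l 816) (T.l 816)))))) (T.a (T.a (T.c (T.a (T.l 816) (T.l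 816)) (T.a (T.l 816) (T.l 816))) (T.a (T.c (T.l 816) (T.l 816)) (T.a (T.c (T.l 816) (T.l 816)) (T.c (T.b (T.l 816) (T.b (T.l 816) (T.l 816))) (T.b (T.l 816) (T.l 816)))))) (T.a (T.a (T.c (T.a (T.b (T.l 816) (T.l 816)) (T.b (T.l 816) (T.l 816))) (T.b (T.b (T.l 816) (T.l 816)) (T.a (T.l 816) (T.l 816)))) (T.c (T.b (T.b (T.l 816) (T.l 816)) (T.a (T.l 816) (T.l 816))) (T.b (T.b (T.l 816) (T.l 816)) (T.c (T.l 816) (T.l 816))))) (T.a (T.c (T.b (T.l 816) (T.b (T.l 816) (T.l 816))) (T.b (T.l 816) (T.b (T.l 816) (T.l 816)))) (T.c (T.b (T.l 880) (T.b (T.l 816) (T.l 816))) (T.b (T.b (T.l 816) (T.l 816)) (T.b (T.l 816) (T.l 880))))))))), by decide +kernel⟩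

theorem A202E_001 :
    ∃ t, chk3 (onCell 0 67108864 0 1073741824 858993459 64424510 (corW 3 c0B eng mog cA202E gB0q2 gB0q0 gB1q2 gB2q2 dB0q2 dB0q0 dB1q2 dB2q2 true false)) t 1 1 1 = true :=
  ex3_b A202E_001_1_2_1 A202E_001_1_3_1

def A202E_010 :
    ∃ t, chk3 (onCell 0 67108864 0 1073741824 858993459 64424510 (corW 3 c0B eng mog cA202E gB0q2 gB1q0 gB0q2 gB1q2 dB0q2 dB1q0 dB0q2 dB1q2 true true)) t 1 1 1 = true :=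
  ⟨(T.l 2), by decide +kernel⟩

def A202E_011 :
    ∃ t, chk3 (onCell 0 67108864 0 1073741824 858993459 64424510 (corW 3 c0B eng mog cA202E gB0q2 gB1q0 gB1q2 gB2q2 dB0q2 dB1q0 dB1q2 dB2q2 true false)) t 1 1 1 = true :=
  ⟨(T.b (T.a (T.b (T.l 0) (T.l 0)) (T.a (T.l 0) (T.b (T.b (T.l 0) (T.l 0)) (T.b (T.l 0) (T.b (T.l 0) (T.l 0)))))) (T.b (T.a (T.a (T.l 0) (T.l 0)) (T.a (T.b (T.l 0) (T.a (T.l 816) (T.l 0))) (T.b (T.b (T.l 0) (T.l 0)) (T.a (T.l 0) (T.l 0))))) (T.a (T.a (T.c (T.b (T.l 816) (T.a (T.l 816) (T.l 816))) (T.a (T.l 816) (T.b (T.l 816) (T.l 816)))) (T.a (T.c (T.b (T.l 816) (T.l 816)) (T.b (T.l 816) (T.l 816))) (T.b (T.l 816) (T.a (T.c (T.l 816) (T.l 816)) (T.b (T.l 816) (T.c (T.b (T.l 816) (T.l 816)) (T.l 816))))))) (T.a (T.b (T.a (T.a (T.l 816) (T.b (T.l 816) (T.l 816))) (T.c (T.l 880) (T.l 816)))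 (T.a (T.c (T.b (T.l 816) (T.a (T.l 816) (T.l 816))) (T.b (T.l 816) (T.a (T.l 816) (T.l 816)))) (T.c (T.b (T.l 816) (T.a (T.l 816) (T.l 816))) (T.b (T.l 816) (T.b (T.l 816) (T.l 816)))))) (T.b (T.a (T.c (T.l 816) (T.l 816)) (T.c (T.l 816) (T.l 816))) (T.a (T.c (T.b (T.l 816) (T.b (T.l 816) (T.l 816))) (T.b (T.l 816) (T.b (T.l 816) (T.l 816)))) (T.c (T.b (T.l 816) (T.c (T.l 816) (T.l 816))) (T.b (T.l 816) (T.b (T.l 816) (T.l 816)))))))))), by decide +kernel⟩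

def A202E_110 :
    ∃ t, chk3 (onCell 0 67108864 0 1073741824 858993459 64424510 (corW 3 c0B eng mog cA202E gB1q2 gB1q0 gB0q2 gB1q2 dB1q2 dB1q0 dB0q2 dB1q2 true true)) t 1 1 1 = true :=
  ⟨(T.l 2), by decide +kernel⟩

def A202E_111 :
    ∃ t, chk3 (onCell 0 67108864 0 1073741824 858993459 64424510 (corW 3 c0B eng mog cA202E gB1q2 gB1q0 gB1q2 gB2q2 dB1q2 dB1q0 dB1q2 dB2q2 true false)) t 1 1 1 = true :=
  ⟨(T.a (T.b (T.l 0) (T.b (T.b (T.l 0) (T.l 816)) (T.c (T.b (T.l 816) (T.b (T.l 880) (T.a (T.l 816) (T.b (T.l 816) (T.l 816))))) (T.b (T.l 816) (T.a (T.c (T.l 816) (T.l 816)) (T.c (T.l 816) (T.l 816))))))) (T.a (T.b (T.l 0) (T.b (T.l 0) (T.b (T.l 880) (T.c (T.c (T.l 816) (T.b (T.l 816) (T.l 816))) (T.c (T.b (T.l 816) (T.l 816)) (T.l 816)))))) (T.b (T.b (T.b (T.l 0) (T.l 0)) (T.l 0)) (T.b (T.l 64) (T.b (T.c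 (T.l 816) (T.l 816)) (T.a (T.c (T.b (T.l 816) (T.l 816)) (T.b (T.l 816) (T.l 816))) (T.c (T.b (T.l 816) (T.a (T.l 816) (T.c (T.l 816) (T.l 816)))) (T.a (T.l 816) (T.b (T.l 816) (T.b (T.l 816) (T.l 816))))))))))), by decide +kernel⟩

def A202R_003_1_4_1 :
    ∃ t, chk3 (onCell 0 67108864 0 1073741824 858993459 64424510 (corW 3 c0B eng mog cA202R gB0q2 gB0q0 gB3q2 gB4q2 dB0q2 dB0q0 dB3q2 dB4q2 false true)) t 1 4 1 = true :=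
  ⟨(T.l 2), by decide +kernel⟩

def A202R_003_1_20_1 :
    ∃ t, chk3 (onCell 0 67108864 0 1073741824 858993459 64424510 (corW 3 c0B eng mog cA202R gB0q2 gB0q0 gB3q2 gB4q2 dB0q2 dB0q0 dB3q2 dB4q2 false true)) t 1 20 1 = true :=
  ⟨(T.l 2), by decide +kernel⟩

def A202R_003_1_84_1 :
    ∃ t, chk3 (onCell 0 67108864 0 1073741824 858993459 64424510 (corW 3 c0B eng mog cA202R gB0q2 gB0q0 gB3q2 gB4q2 dB0q2 dB0q0 dB3q2 dB4q2 false true)) t 1 84 1 = true :=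
  ⟨(T.a (T.l 2) (T.b (T.l 2) (T.b (T.l 2) (T.b (T.l 2) (T.a (T.a (T.l 2) (T.a (T.l 2) (T.a (T.l 2) (T.a (T.l 2) (T.b (T.l 2) (T.c (T.c (T.c (T.c (T.b (T.l 2) (T.b (T.l 2) (T.l 0))) (T.l 0)) (T.l 0)) (T.l 0)) (T.l 0))))))) (T.a (T.b (T.a (T.l 2) (T.a (T.l 2) (T.a (T.l 2) (T.c (T.c (T.c (T.c (T.a (T.l 2) (T.a (T.l 2) (T.b (T.l 2) (T.b (T.l 2) (T.l 0))))) (T.l 0)) (T.l 0)) (T.l 0)) (T.l 0))))) (T.c (T.c (T.c (T.c (T.a (T.c (T.b (T.a (T.l 2) (T.b (T.l 2) (T.l 0))) (T.l 0)) (T.l 0)) (T.a (T.a (T.c (T.a (T.c (T.l 0) (T.l 0)) (T.l 0)) (T.l 0)) (T.l 0)) (T.l 0))) (T.l 0)) (T.l 0)) (T.l 0)) (T.c (T.l 0) (T.l 0)))) (T.c (T.c (T.c (T.c (T.b (T.a (T.b (T.l 2) (T.a (T.b (T.l 2) (T.l 0)) (T.l 0))) (T.a (T.a (T.c (T.c (T.b (T.b (T.l 2) (T.l 0)) (T.l 0)) (T.l 0)) (T.l 0)) (T.l 0)) (T.l 0))) (T.l 0)) (T.l 0)) (T.l 0)) (T.l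 0)) (T.c (T.l 0) (T.l 0))))))))), by decide +kernel⟩

def A202R_003_2_170_1 :
    ∃ t, chk3 (onCell 0 67108864 0 1073741824 858993459 64424510 (corW 3 c0B eng mog cA202R gB0q2 gB0q0 gB3q2 gB4q2 dB0q2 dB0q0 dB3q2 dB4q2 false true)) t 2 170 1 = true :=
  ⟨(T.b (T.a (T.a (T.l 2) (T.b (T.l 2) (T.b (T.l 2) (T.b (T.l 2) (T.a (T.a (T.l 2) (T.a (T.l 2) (T.a (T.l 2) (T.c (T.b (T.l 2) (T.l 0)) (T.l 0))))) (T.c (T.c (T.c (T.a (T.b (T.l 2) (T.l 0)) (T.l 0)) (T.l 0)) (T.l 0)) (T.c (T.l 0) (T.l 0)))))))) (T.b (T.a (T.l 2) (T.a (T.l 2) (T.b (T.l 2) (T.b (T.l 2) (T.c (T.c (T.c (T.c (T.c (T.a (T.b (T.l 2) (T.a (T.l 2) (T.l 0))) (T.a (T.b (T.l 2) (T.l 0)) (T.l 0))) (T.l 0)) (T.l 0)) (T.l 0)) (T.l 0)) (T.c (T.l 0) (T.l 0))))))) (T.a (T.b (T.a (T.l 2) (T.b (T.l 2) (T.c (T.c (T.c (T.a (T.b (T.l 2) (T.l 0)) (T.l 0)) (T.l 0))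 (T.l 0)) (T.c (T.l 0) (T.l 0))))) (T.c (T.c (T.a (T.c (T.a (T.c (T.c (T.a (T.b (T.b (T.l 2) (T.l 0)) (T.l 0)) (T.l 0)) (T.l 0)) (T.l 0)) (T.l 0)) (T.l 0)) (T.l 0)) (T.l 0)) (T.c (T.l 0) (T.l 0)))) (T.c (T.c (T.a (T.c (T.c (T.c (T.a (T.c (T.b (T.b (T.b (T.l 2) (T.l 0)) (T.l 0)) (T.l 816)) (T.l 0)) (T.l 0)) (T.l 0)) (T.l 0)) (T.l 0)) (T.l 0)) (T.l 0)) (T.c (T.l 0) (T.l 0)))))) (T.c (T.c (T.a (T.c (T.b (T.a (T.b (T.a (T.a (T.l 2) (T.c (T.b (T.l 2) (T.b (T.l 2) (T.l 0))) (T.l 0))) (T.c (T.b (T.a (T.l 2) (T.b (T.l 2) (T.l 0))) (T.l 0)) (T.l 0))) (T.a (T.l 0) (T.l 0))) (T.a (T.a (T.c (T.c (T.a (T.c (T.a (T.b (T.b (T.b (T.l 2) (T.l 0)) (T.l 816)) (T.l 816)) (T.l 0)) (T.l 0)) (T.l 0)) (T.l 0)) (T.l 0)) (T.l 0)) (T.l 0))) (T.l 0)) (T.l 0)) (T.a (T.l 0) (T.l 816))) (T.l 0)) (T.c (T.l 0) (T.a (T.a (T.a (T.l 0) (T.l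 0)) (T.l 0)) (T.l 0))))), by decide +kernel⟩

def A202R_003_3_170_1 :
    ∃ t, chk3 (onCell 0 67108864 0 1073741824 858993459 64424510 (corW 3 c0B eng mog cA202R gB0q2 gB0q0 gB3q2 gB4q2 dB0q2 dB0q0 dB3q2 dB4q2 false true)) t 3 170 1 = true :=
  ⟨(T.c (T.c (T.a (T.c (T.b (T.b (T.a (T.b (T.a (T.l 2) (T.a (T.l 2) (T.c (T.b (T.l 2) (T.b (T.l 2) (T.l 0))) (T.l 0)))) (T.a (T.b (T.a (T.l 2) (T.b (T.l 2) (T.l 0))) (T.l 0)) (T.l 0))) (T.c (T.a (T.c (T.b (T.b (T.a (T.l 2) (T.b (T.l 2) (T.l 0))) (T.l 0)) (T.l 816)) (T.l 0)) (T.l 0)) (T.l 0))) (T.l 0)) (T.l 816)) (T.a (T.l 0) (T.l 0))) (T.a (T.a (T.l 0) (T.l 0)) (T.l 0))) (T.l 0)) (T.c (T.l 0) (T.a (T.a (T.a (T.l 0) (T.l 0)) (T.l 0)) (T.l 0)))), by decide +kernel⟩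

def A202R_003_1_171_1 :
    ∃ t, chk3 (onCell 0 67108864 0 1073741824 858993459 64424510 (corW 3 c0B eng mog cA202R gB0q2 gB0q0 gB3q2 gB4q2 dB0q2 dB0q0 dB3q2 dB4q2 false true)) t 1 171 1 = true :=
  ⟨(T.c (T.a (T.c (T.c (T.a (T.a (T.l 816) (T.l 816)) (T.l 816)) (T.l 0)) (T.l 0)) (T.c (T.c (T.a (T.l 816) (T.l 816)) (T.l 816)) (T.l 0))) (T.a (T.c (T.l 0) (T.l 0)) (T.c (T.l 0) (T.l 0)))), by decide +kernel⟩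

def A202R_003_1_43_1 :
    ∃ t, chk3 (onCell 0 67108864 0 1073741824 858993459 64424510 (corW 3 c0B eng mog cA202R gB0q2 gB0q0 gB3q2 gB4q2 dB0q2 dB0q0 dB3q2 dB4q2 false true)) t 1 43 1 = true :=
  ⟨(T.c (T.a (T.c (T.a (T.c (T.a (T.b (T.l 816) (T.l 816)) (T.l 816)) (T.l 816)) (T.b (T.a (T.l 816) (T.l 816)) (T.l 816))) (T.l 816)) (T.c (T.c (T.a (T.a (T.l 816) (T.l 816)) (T.a (T.l 816) (T.l 816))) (T.l 816)) (T.l 0))) (T.a (T.c (T.l 0) (T.a (T.l 816) (T.l 816))) (T.c (T.l 0) (T.a (T.l 816) (T.l 816))))), by decide +kernel⟩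

def A202R_003_1_11_1 :
    ∃ t, chk3 (onCell 0 67108864 0 1073741824 858993459 64424510 (corW 3 c0B eng mog cA202R gB0q2 gB0q0 gB3q2 gB4q2 dB0q2 dB0q0 dB3q2 dB4q2 false true)) t 1 11 1 = true :=
  ⟨(T.a (T.c (T.b (T.c (T.a (T.b (T.a (T.l 816) (T.l 816)) (T.l 880)) (T.b (T.a (T.l 816) (T.l 816)) (T.l 816))) (T.a (T.l 816) (T.l 816))) (T.c (T.a (T.b (T.l 816) (T.l 816)) (T.l 880)) (T.a (T.l 816) (T.l 816)))) (T.b (T.c (T.a (T.l 816) (T.l 816)) (T.a (T.l 816) (T.l 816))) (T.c (T.l 816) (T.a (T.l 816) (T.l 816))))) (T.a (T.c (T.b (T.c (T.b (T.l 816) (T.l 816)) (T.l 816)) (T.b (T.l 816) (T.l 816))) (T.b (T.c (T.l 816) (T.l 816)) (T.b (T.l 816) (T.l 816)))) (T.b (T.c (T.b (T.a (T.l 816) (T.l 816)) (T.l 816)) (T.b (T.l 880) (T.l 816))) (T.a (T.c (T.l 880) (T.l 816)) (T.c (T.b (T.l 816) (T.b (T.l 816) (T.l 816)))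 (T.b (T.l 816) (T.l 880))))))), by decide +kernel⟩

def A202R_003_1_6_1 :
    ∃ t, chk3 (onCell 0 67108864 0 1073741824 858993459 64424510 (corW 3 c0B eng mog cA202R gB0q2 gB0q0 gB3q2 gB4q2 dB0q2 dB0q0 dB3q2 dB4q2 false true)) t 1 6 1 = true :=
  ⟨(T.a (T.c (T.b (T.c (T.a (T.b (T.l 816) (T.l 816)) (T.b (T.l 816) (T.l 816))) (T.b (T.a (T.l 816) (T.l 816)) (T.a (T.l 816) (T.l 816)))) (T.c (T.a (T.b (T.l 816) (T.l 816)) (T.l 880)) (T.a (T.b (T.l 816) (T.l 816)) (T.b (T.l 816) (T.l 816))))) (T.b (T.a (T.b (T.l 816) (T.l 816)) (T.b (T.l 816) (T.l 816))) (T.a (T.l 816) (T.l 816)))) (T.b (T.a (T.c (T.c (T.b (T.l 816) (T.l 816)) (T.b (T.l 816) (T.l 816))) (T.b (T.l 816) (T.l 816))) (T.b (T.a (T.c (T.l 816) (T.l 816)) (T.c (T.b (T.b (T.l 816) (T.l 816)) (T.l 880)) (T.b (T.l 816) (T.l 816)))) (T.c (T.a (T.b (T.b (T.l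 816) (T.l 816)) (T.b (T.l 816) (T.l 816))) (T.b (T.l 816) (T.l 816))) (T.a (T.b (T.l 816) (T.l 816)) (T.b (T.l 816) (T.l 816)))))) (T.a (T.a (T.c (T.b (T.l 816) (T.l 816)) (T.l 816)) (T.b (T.c (T.a (T.l 816) (T.b (T.l 816) (T.l 816))) (T.b (T.l 816) (T.l 816))) (T.c (T.c (T.b (T.l 816) (T.l 816)) (T.b (T.l 816) (T.l 816))) (T.b (T.l 816) (T.l 816))))) (T.a (T.b (T.c (T.c (T.l 816) (T.l 880)) (T.b (T.l 816) (T.l 816))) (T.c (T.b (T.l 816) (T.l 816)) (T.b (T.l 816) (T.l 816)))) (T.c (T.b (T.b (T.l 816) (T.l 816)) (T.b (T.l 816) (T.l 816))) (T.b (T.b (T.l 816) (T.l 816)) (T.l 880))))))), by decide +kernel⟩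

def A202R_003_1_7_1 :
    ∃ t, chk3 (onCell 0 67108864 0 1073741824 858993459 64424510 (corW 3 c0B eng mog cA202R gB0q2 gB0q0 gB3q2 gB4q2 dB0q2 dB0q0 dB3q2 dB4q2 false true)) t 1 7 1 = true :=
  ⟨(T.b (T.a (T.c (T.a (T.c (T.b (T.l 816) (T.l 816)) (T.l 816)) (T.c (T.b (T.l 816) (T.l 816)) (T.l 816))) (T.a (T.l 816) (T.l 816))) (T.a (T.a (T.a (T.c (T.l 816) (T.l 816)) (T.c (T.b (T.b (T.l 816) (T.l 816)) (T.b (T.l 816) (T.l 816))) (T.b (T.l 816) (T.l 816)))) (T.b (T.c (T.a (T.b (T.l 816) (T.l 816)) (T.l 816)) (T.b (T.l 816) (T.l 816))) (T.c (T.a (T.l 816) (T.l 816)) (T.b (T.l 816) (T.l 816))))) (T.a (T.b (T.c (T.b (T.l 816) (T.l 816)) (T.b (T.l 816) (T.l 816))) (T.c (T.b (T.l 816) (T.l 816)) (T.b (T.l 816) (T.l 816)))) (T.b (T.c (T.b (T.l 816) (T.l 816)) (T.l 880)) (T.c (T.b (T.l 816) (T.l 816)) (T.l 816))))))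 (T.a (T.a (T.c (T.c (T.b (T.l 816) (T.l 816)) (T.l 816)) (T.l 816)) (T.a (T.c (T.b (T.l 816) (T.l 816)) (T.l 816)) (T.a (T.c (T.l 816) (T.l 816)) (T.b (T.b (T.l 816) (T.l 816)) (T.c (T.l 816) (T.l 816)))))) (T.a (T.a (T.b (T.c (T.a (T.l 880) (T.l 816)) (T.b (T.l 816) (T.l 816))) (T.a (T.c (T.l 816) (T.l 816)) (T.b (T.l 816) (T.l 816)))) (T.b (T.c (T.b (T.l 816) (T.l 816)) (T.b (T.l 816) (T.l 816))) (T.c (T.b (T.l 816) (T.l 816)) (T.b (T.l 816) (T.l 816))))) (T.a (T.b (T.c (T.b (T.l 816) (T.l 816)) (T.b (T.l 816) (T.l 816))) (T.c (T.b (T.l 816) (T.l 816)) (T.b (T.l 816) (T.l 816)))) (T.b (T.c (T.b (T.l 816) (T.l 816)) (T.b (T.l 816) (T.l 816))) (T.c (T.b (T.l 816) (T.l 816)) (T.b (T.l 816) (T.l 816)))))))), by decide +kernel⟩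

theorem A202R_003_1_3_1 :
    ∃ t, chk3 (onCell 0 67108864 0 1073741824 858993459 64424510 (corW 3 c0B eng mog cA202R gB0q2 gB0q0 gB3q2 gB4q2 dB0q2 dB0q0 dB3q2 dB4q2 false true)) t 1 3 1 = true :=
  ex3_b A202R_003_1_6_1 A202R_003_1_7_1
theorem A202R_003_1_170_1 :
    ∃ t, chk3 (onCell 0 67108864 0 1073741824 858993459 64424510 (corW 3 c0B eng mog cA202R gB0q2 gB0q0 gB3q2 gB4q2 dB0q2 dB0q0 dB3q2 dB4q2 false true)) t 1 170 1 = true :=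
  ex3_a A202R_003_2_170_1 A202R_003_3_170_1
theorem A202R_003_1_85_1 :
    ∃ t, chk3 (onCell 0 67108864 0 1073741824 858993459 64424510 (corW 3 c0B eng mog cA202R gB0q2 gB0q0 gB3q2 gB4q2 dB0q2 dB0q0 dB3q2 dB4q2 false true)) t 1 85 1 = true :=
  ex3_b A202R_003_1_170_1 A202R_003_1_171_1
theorem A202R_003_1_42_1 :
    ∃ t, chk3 (onCell 0 67108864 0 1073741824 858993459 64424510 (corW 3 c0B eng mog cA202R gB0q2 gB0q0 gB3q2 gB4q2 dB0q2 dB0q0 dB3q2 dB4q2 false true)) t 1 42 1 = true :=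
  ex3_b A202R_003_1_84_1 A202R_003_1_85_1
theorem A202R_003_1_21_1 :
    ∃ t, chk3 (onCell 0 67108864 0 1073741824 858993459 64424510 (corW 3 c0B eng mog cA202R gB0q2 gB0q0 gB3q2 gB4q2 dB0q2 dB0q0 dB3q2 dB4q2 false true)) t 1 21 1 = true :=
  ex3_b A202R_003_1_42_1 A202R_003_1_43_1
theorem A202R_003_1_10_1 :
    ∃ t, chk3 (onCell 0 67108864 0 1073741824 858993459 64424510 (corW 3 c0B eng mog cA202R gB0q2 gB0q0 gB3q2 gB4q2 dB0q2 dB0q0 dB3q2 dB4q2 false true)) t 1 10 1 = true :=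
  ex3_b A202R_003_1_20_1 A202R_003_1_21_1
theorem A202R_003_1_5_1 :
    ∃ t, chk3 (onCell 0 67108864 0 1073741824 858993459 64424510 (corW 3 c0B eng mog cA202R gB0q2 gB0q0 gB3q2 gB4q2 dB0q2 dB0q0 dB3q2 dB4q2 false true)) t 1 5 1 = true :=
  ex3_b A202R_003_1_10_1 A202R_003_1_11_1
theorem A202R_003_1_2_1 :
    ∃ t, chk3 (onCell 0 67108864 0 1073741824 858993459 64424510 (corW 3 c0B eng mog cA202R gB0q2 gB0q0 gB3q2 gB4q2 dB0q2 dB0q0 dB3q2 dB4q2 false true)) t 1 2 1 = true :=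
  ex3_b A202R_003_1_4_1 A202R_003_1_5_1
theorem A202R_003 :
    ∃ t, chk3 (onCell 0 67108864 0 1073741824 858993459 64424510 (corW 3 c0B eng mog cA202R gB0q2 gB0q0 gB3q2 gB4q2 dB0q2 dB0q0 dB3q2 dB4q2 false true)) t 1 1 1 = true :=
  ex3_b A202R_003_1_2_1 A202R_003_1_3_1

def A202R_013 :
    ∃ t, chk3 (onCell 0 67108864 0 1073741824 858993459 64424510 (corW 3 c0B eng mog cA202R gB0q2 gB1q0 gB3q2 gB4q2 dB0q2 dB1q0 dB3q2 dB4q2 false true)) t 1 1 1 = true :=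
  ⟨(T.b (T.b (T.l 2) (T.b (T.l 2) (T.a (T.l 2) (T.b (T.l 2) (T.a (T.l 2) (T.l 0)))))) (T.b (T.a (T.b (T.l 0) (T.l 816)) (T.b (T.a (T.l 0) (T.b (T.l 0) (T.l 0))) (T.a (T.a (T.l 816) (T.l 0)) (T.b (T.l 0) (T.l 0))))) (T.b (T.a (T.b (T.l 816) (T.l 816)) (T.a (T.a (T.a (T.l 816) (T.l 816)) (T.b (T.l 816) (T.l 816))) (T.a (T.b (T.l 816) (T.l 816)) (T.b (T.l 816) (T.l 816))))) (T.a (T.a (T.c (T.b (T.l 816) (T.l 816)) (T.l 816)) (T.a (T.b (T.l 816) (T.l 816)) (T.a (T.l 816) (T.b (T.l 816) (T.c (T.l 816) (T.l 816)))))) (T.a (T.a (T.b (T.c (T.l 816) (T.l 816)) (T.a (T.b (T.l 816) (T.l 816)) (T.b (T.l 816) (T.l 816)))) (T.b (T.b (T.l 816) (T.l 816)) (T.a (T.b (T.l 816) (T.l 816)) (T.b (T.l 816) (T.l 816))))) (T.a (T.b (T.b (T.l 816) (T.l 816)) (T.b (T.l 816) (T.c (T.l 816) (T.l 816)))) (T.b (T.b (T.l 816) (T.l 816))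 (T.b (T.l 816) (T.c (T.l 816) (T.l 816)))))))))), by decide +kernel⟩

def A202R_113 :
    ∃ t, chk3 (onCell 0 67108864 0 1073741824 858993459 64424510 (corW 3 c0B eng mog cA202R gB1q2 gB1q0 gB3q2 gB4q2 dB1q2 dB1q0 dB3q2 dB4q2 false true)) t 1 1 1 = true :=
  ⟨(T.b (T.l 2) (T.b (T.l 0) (T.b (T.l 0) (T.a (T.l 816) (T.a (T.l 816) (T.b (T.l 816) (T.l 0))))))), by decide +kernel⟩

def B011E_000 :
    ∃ t, chk3 (onCell 0 67108864 0 1073741824 858993459 64424510 (corW 3 c0B eng mog cB011E gB0q0 gB0q1 gB0q1 gB1q1 dB0q0 dB0q1 dB0q1 dB1q1 true false)) t 1 1 1 = true :=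
  ⟨(T.l 1), by decide +kernel⟩

def B011E_100 :
    ∃ t, chk3 (onCell 0 67108864 0 1073741824 858993459 64424510 (corW 3 c0B eng mog cB011E gB1q0 gB0q1 gB0q1 gB1q1 dB1q0 dB0q1 dB0q1 dB1q1 true false)) t 1 1 1 = true :=
  ⟨(T.l 1), by decide +kernel⟩

def B011L_020 :
    ∃ t, chk3 (onCell 0 67108864 0 1073741824 858993459 64424510 (corW 3 c0B eng mog cB011L gB0q0 gB2q1 gB0q1 gB1q1 dB0q0 dB2q1 dB0q1 dB1q1 true false)) t 1 1 1 = true :=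
  ⟨(T.l 1), by decide +kernel⟩

def B011L_030 :
    ∃ t, chk3 (onCell 0 67108864 0 1073741824 858993459 64424510 (corW 3 c0B eng mog cB011L gB0q0 gB3q1 gB0q1 gB1q1 dB0q0 dB3q1 dB0q1 dB1q1 true false)) t 1 1 1 = true :=
  ⟨(T.l 1), by decide +kernel⟩

def B011L_040 :
    ∃ t, chk3 (onCell 0 67108864 0 1073741824 858993459 64424510 (corW 3 c0B eng mog cB011L gB0q0 gB4q1 gB0q1 gB1q1 dB0q0 dB4q1 dB0q1 dB1q1 true false)) t 1 1 1 = true :=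
  ⟨(T.l 1), by decide +kernel⟩

def B011L_120 :
    ∃ t, chk3 (onCell 0 67108864 0 1073741824 858993459 64424510 (corW 3 c0B eng mog cB011L gB1q0 gB2q1 gB0q1 gB1q1 dB1q0 dB2q1 dB0q1 dB1q1 true false)) t 1 1 1 = true :=
  ⟨(T.l 1), by decide +kernel⟩

def B011L_130 :
    ∃ t, chk3 (onCell 0 67108864 0 1073741824 858993459 64424510 (corW 3 c0B eng mog cB011L gB1q0 gB3q1 gB0q1 gB1q1 dB1q0 dB3q1 dB0q1 dB1q1 true false)) t 1 1 1 = true :=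
  ⟨(T.l 1), by decide +kernel⟩

def B011L_140 :
    ∃ t, chk3 (onCell 0 67108864 0 1073741824 858993459 64424510 (corW 3 c0B eng mog cB011L gB1q0 gB4q1 gB0q1 gB1q1 dB1q0 dB4q1 dB0q1 dB1q1 true false)) t 1 1 1 = true :=
  ⟨(T.l 1), by decide +kernel⟩

def B011R_001 :
    ∃ t, chk3 (onCell 0 67108864 0 1073741824 858993459 64424510 (corW 3 c0B eng mog cB011R gB0q0 gB0q1 gB1q1 gB2q1 dB0q0 dB0q1 dB1q1 dB2q1 false true)) t 1 1 1 = true :=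
  ⟨(T.b (T.b (T.b (T.b (T.a (T.l 0) (T.l 0)) (T.l 2)) (T.l 2)) (T.l 2)) (T.l 2)), by decide +kernel⟩

def B011R_002 :
    ∃ t, chk3 (onCell 0 67108864 0 1073741824 858993459 64424510 (corW 3 c0B eng mog cB011R gB0q0 gB0q1 gB2q1 gB3q1 dB0q0 dB0q1 dB2q1 dB3q1 true true)) t 1 1 1 = true :=
  ⟨(T.b (T.b (T.b (T.c (T.b (T.l 0) (T.l 0)) (T.a (T.l 0) (T.l 0))) (T.b (T.c (T.l 64) (T.b (T.l 816) (T.l 816))) (T.l 2))) (T.l 2)) (T.l 2)), by decide +kernel⟩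

end Pool.Agent.Strip051.G.I8000_8600.Tab.CW
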