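import Pool.Agent.Strip051.G.I8000_8600.DgP

/-! # The corner (1, 1, 2): certificates of the degenerate charts (generated) -/

set_option linter.all false

namespace Pool.Agent.Strip051.G.I8000_8600.Tab.DG

open Pool.Agent.Strip051.PB Pool.Agent.Strip051.PB.Dg Pool.Agent.StripNear Pool.Agent.Strip051.LC

theorem cFA1 : ∃ t, chk3 (onCell 0 232471925 0 1073741824 858993459 64424510 (fdAx false pF (ndUL pF ndF1) (ndUR ndF2) (thLo (ndUL pF ndF1) (ndUR ndF2)))) t 1 1 1 = true :=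
  ⟨(T.b (T.b (T.a (T.b (T.c (T.b (T.b (T.a (T.l 0) (T.l 0)) (T.l 0)) (T.a (T.l 0) (T.l 0))) (T.b (T.c (T.b (T.a (T.l 0) (T.a (T.l 0) (T.l 1))) (T.l 0)) (T.a (T.b (T.c (T.l 0) (T.a (T.l 0) (T.l 0))) (T.l 0)) (T.b (T.b (T.l 1) (T.a (T.l 0) (T.l 1))) (T.l 0)))) (T.c (T.l 0) (T.a (T.l 0) (T.l 0))))) (T.b (T.c (T.a (T.b (T.l 0) (T.c (T.l 0) (T.l 0))) (T.l 0)) (T.a (T.c (T.l 0) (T.l 0)) (T.l 0))) (T.a (T.l 3) (T.c (T.a (T.l 3) (T.l 0)) (T.l 0))))) (T.b (T.b (T.a (T.a (T.b (T.l 1) (T.c (T.l 0) (T.c (T.l 0) (T.l 0)))) (T.l 1)) (T.l 1)) (T.c (T.a (T.l 0) (T.l 0)) (T.c (T.a (T.l 0) (T.l 0)) (T.a (T.a (T.l 0) (T.l 0)) (T.b (T.b (T.l 1) (T.l 0)) (T.l 0)))))) (T.c (T.a (T.l 0) (T.l 0)) (T.c (T.a (T.l 0) (T.l 0)) (T.a (T.a (T.l 0) (T.l 0)) (T.b (T.l 0) (T.l 0))))))) (T.l 3)) (T.l 3)), by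 decide +kernel⟩
theorem cFA2 : ∃ t, chk3 (onCell 0 232471925 0 1073741824 858993459 64424510 (fdAx false pF (ndUR ndF2) (ndUR ndF3) (thLo (ndUR ndF2) (ndUR ndF3)))) t 1 1 1 = true :=
  ⟨(T.a (T.a (T.b (T.b (T.b (T.l 2) (T.c (T.b (T.l 0) (T.l 0)) (T.b (T.l 0) (T.l 0)))) (T.c (T.b (T.l 0) (T.c (T.l 0) (T.a (T.l 0) (T.l 0)))) (T.b (T.b (T.l 0) (T.l 0)) (T.b (T.c (T.l 0) (T.l 0)) (T.c (T.a (T.l 0) (T.l 0)) (T.b (T.l 0) (T.a (T.c (T.l 0) (T.l 0)) (T.l 0)))))))) (T.b (T.b (T.b (T.b (T.c (T.c (T.l 0) (T.l 0)) (T.c (T.a (T.b (T.l 0) (T.l 3)) (T.a (T.l 0) (T.l 0))) (T.a (T.b (T.c (T.l 0) (T.a (T.b (T.l 0) (T.l 3)) (T.l 0))) (T.l 3)) (T.b (T.a (T.l 0) (T.l 0)) (T.l 3))))) (T.l 3)) (T.l 3)) (T.l 3)) (T.l 3))) (T.b (T.b (T.b (T.l 2) (T.c (T.l 0) (T.l 0))) (T.b (T.c (T.l 0) (T.b (T.l 0)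 (T.l 0))) (T.c (T.c (T.l 0) (T.a (T.l 0) (T.l 0))) (T.b (T.a (T.l 0) (T.l 0)) (T.c (T.l 0) (T.a (T.l 0) (T.l 0))))))) (T.b (T.b (T.b (T.b (T.c (T.a (T.l 0) (T.l 0)) (T.c (T.a (T.l 0) (T.l 0)) (T.a (T.c (T.l 0) (T.a (T.l 0) (T.l 0))) (T.l 0)))) (T.l 3)) (T.l 3)) (T.l 3)) (T.l 3)))) (T.b (T.b (T.b (T.l 2) (T.b (T.l 2) (T.c (T.l 0) (T.a (T.l 0) (T.l 0))))) (T.a (T.b (T.c (T.l 0) (T.b (T.l 0) (T.l 0))) (T.c (T.c (T.l 0) (T.a (T.l 0) (T.l 0))) (T.b (T.l 0) (T.c (T.l 0) (T.l 0))))) (T.b (T.c (T.a (T.l 0) (T.l 0)) (T.b (T.l 0) (T.a (T.l 0) (T.l 0)))) (T.c (T.b (T.l 0) (T.a (T.l 0) (T.l 0))) (T.b (T.a (T.l 0) (T.l 0)) (T.c (T.l 0) (T.l 0))))))) (T.b (T.b (T.b (T.a (T.a (T.c (T.b (T.l 0) (T.b (T.l 0) (T.l 3))) (T.c (T.b (T.l 0) (T.a (T.l 3) (T.l 0))) (T.b (T.l 0) (T.a (T.l 3) (T.l 0)))))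 (T.c (T.b (T.l 0) (T.b (T.l 0) (T.l 3))) (T.b (T.l 0) (T.b (T.a (T.l 0) (T.l 0)) (T.l 3))))) (T.c (T.a (T.b (T.l 0) (T.b (T.a (T.l 0) (T.l 0)) (T.l 3))) (T.b (T.a (T.l 0) (T.l 0)) (T.c (T.b (T.l 0) (T.a (T.l 0) (T.l 0))) (T.a (T.l 0) (T.l 0))))) (T.a (T.b (T.l 0) (T.c (T.a (T.l 0) (T.l 0)) (T.l 0))) (T.b (T.l 0) (T.c (T.l 0) (T.l 0)))))) (T.l 3)) (T.l 3)) (T.l 3)))), by decide +kernel⟩
theorem cFA3 : ∃ t, chk3 (onCell 0 232471925 0 1073741824 858993459 64424510 (fdAx true pF (ndUR ndF3) (dgSC pF) (thUp (ndUR ndF3) (dgSC pF)))) t 1 1 1 = true :=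
  ⟨(T.a (T.a (T.b (T.a (T.a (T.b (T.l 2) (T.a (T.b (T.l 2) (T.a (T.b (T.l 2) (T.b (T.l 2) (T.b (T.l 2) (T.c (T.l 0) (T.a (T.b (T.l 2) (T.c (T.l 0) (T.l 0))) (T.l 2)))))) (T.l 2))) (T.l 2))) (T.l 2)) (T.l 2)) (T.c (T.b (T.a (T.l 279616) (T.l 279616)) (T.l 349520)) (T.a (T.b (T.c (T.l 16448) (T.b (T.a (T.l 64) (T.l 64)) (T.l 16384))) (T.c (T.l 349520) (T.a (T.l 349520) (T.l 349520)))) (T.b (T.c (T.l 16448) (T.b (T.a (T.l 64) (T.l 64)) (T.l 16384))) (T.c (T.l 349520) (T.a (T.l 357712) (T.l 357712))))))) (T.a (T.b (T.l 2) (T.c (T.b (T.l 279648) (T.l 349520)) (T.b (T.c (T.l 16448) (T.a (T.l 16480) (T.l 16480))) (T.c (T.l 349520) (T.a (T.l 357712) (T.l 357712)))))) (T.b (T.l 2) (T.a (T.c (T.b (T.l 17472) (T.l 349520)) (T.b (T.c (T.l 16448) (T.a (T.l 16480) (T.l 16480))) (T.b (T.l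 279616) (T.l 357712)))) (T.c (T.b (T.b (T.c (T.l 96) (T.l 96)) (T.l 16448)) (T.b (T.l 279616) (T.l 349520))) (T.b (T.b (T.c (T.l 96) (T.a (T.l 64) (T.l 96))) (T.l 16448)) (T.c (T.l 349520) (T.a (T.l 357712) (T.b (T.l 16384) (T.a (T.l 357712) (T.l 357712))))))))))) (T.b (T.l 2) (T.b (T.c (T.b (T.a (T.a (T.a (T.c (T.a (T.l 0) (T.l 96)) (T.a (T.l 64) (T.l 96))) (T.c (T.b (T.a (T.l 0) (T.l 0)) (T.l 0)) (T.a (T.l 96) (T.a (T.l 96) (T.l 96))))) (T.a (T.b (T.b (T.l 2) (T.a (T.l 0) (T.l 0))) (T.c (T.a (T.l 0) (T.l 0)) (T.l 96))) (T.c (T.b (T.a (T.l 0) (T.a (T.l 0) (T.l 0))) (T.a (T.l 0) (T.l 0))) (T.b (T.a (T.l 0) (T.a (T.l 0) (T.l 0))) (T.a (T.l 0) (T.l 0)))))) (T.a (T.a (T.b (T.b (T.l 2) (T.a (T.c (T.l 0) (T.l 0)) (T.c (T.l 0) (T.l 0)))) (T.c (T.a (T.a (T.l 0) (T.l 0)) (T.a (T.l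 0) (T.l 0))) (T.a (T.l 0) (T.a (T.l 0) (T.l 0))))) (T.c (T.b (T.b (T.l 2) (T.a (T.l 0) (T.a (T.l 0) (T.l 0)))) (T.a (T.a (T.l 0) (T.l 0)) (T.b (T.l 0) (T.l 0)))) (T.b (T.b (T.l 2) (T.a (T.l 0) (T.l 0))) (T.a (T.a (T.l 0) (T.l 0)) (T.a (T.l 0) (T.l 0)))))) (T.a (T.c (T.b (T.b (T.l 2) (T.a (T.a (T.l 0) (T.l 0)) (T.a (T.l 0) (T.l 0)))) (T.a (T.c (T.l 0) (T.l 0)) (T.c (T.a (T.l 0) (T.l 0)) (T.l 0)))) (T.b (T.b (T.l 2) (T.a (T.a (T.l 0) (T.l 0)) (T.a (T.l 0) (T.l 0)))) (T.a (T.a (T.l 0) (T.l 0)) (T.a (T.l 0) (T.l 0))))) (T.c (T.b (T.b (T.l 2) (T.b (T.l 2) (T.a (T.a (T.l 0) (T.l 0)) (T.a (T.l 0) (T.l 0))))) (T.a (T.c (T.a (T.l 0) (T.l 0)) (T.l 0)) (T.c (T.a (T.l 0) (T.l 0)) (T.l 0)))) (T.b (T.b (T.l 2) (T.b (T.l 2) (T.a (T.l 0) (T.l 0)))) (T.a (T.a (T.l 0) (T.l 0)) (T.a (T.l 0) (T.l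 0)))))))) (T.a (T.a (T.a (T.l 16480) (T.c (T.a (T.l 64) (T.l 64)) (T.l 64))) (T.a (T.c (T.c (T.a (T.l 64) (T.l 96)) (T.l 96)) (T.a (T.l 64) (T.l 64))) (T.c (T.a (T.l 64) (T.b (T.a (T.l 0) (T.l 0)) (T.l 64))) (T.a (T.l 64) (T.l 96))))) (T.a (T.a (T.c (T.b (T.a (T.a (T.l 0) (T.l 0)) (T.a (T.l 0) (T.l 0))) (T.a (T.l 96) (T.a (T.l 0) (T.l 0)))) (T.b (T.a (T.l 0) (T.l 0)) (T.l 96))) (T.c (T.b (T.a (T.a (T.l 0) (T.l 0)) (T.a (T.l 0) (T.l 0))) (T.a (T.a (T.l 0) (T.l 0)) (T.a (T.l 0) (T.l 0)))) (T.b (T.a (T.l 0) (T.l 0)) (T.a (T.l 0) (T.l 0))))) (T.a (T.c (T.b (T.a (T.a (T.l 0) (T.l 0)) (T.a (T.l 0) (T.l 0))) (T.a (T.l 0) (T.l 0))) (T.b (T.a (T.l 0) (T.l 0)) (T.a (T.l 0) (T.l 0)))) (T.c (T.b (T.a (T.a (T.l 0) (T.l 0)) (T.a (T.l 0) (T.l 0))) (T.a (T.l 0) (T.l 0))) (T.b (T.a (T.l 0)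 (T.l 0)) (T.a (T.l 0) (T.l 0)))))))) (T.a (T.a (T.b (T.a (T.b (T.c (T.l 96) (T.a (T.l 96) (T.l 96))) (T.l 96)) (T.c (T.a (T.l 96) (T.l 96)) (T.c (T.l 96) (T.a (T.l 96) (T.l 96))))) (T.a (T.l 16448) (T.a (T.l 16448) (T.l 16448)))) (T.b (T.a (T.c (T.c (T.a (T.l 64) (T.l 96)) (T.l 96)) (T.c (T.l 96) (T.a (T.l 96) (T.a (T.l 96) (T.l 96))))) (T.b (T.b (T.l 2) (T.c (T.a (T.l 0) (T.l 0)) (T.a (T.l 0) (T.l 0)))) (T.c (T.a (T.l 0) (T.l 0)) (T.a (T.l 0) (T.l 0))))) (T.a (T.c (T.l 16448) (T.l 16448)) (T.c (T.l 16480) (T.l 16448))))) (T.a (T.b (T.a (T.b (T.b (T.l 2) (T.c (T.a (T.l 0) (T.l 0)) (T.a (T.l 0) (T.l 0)))) (T.c (T.a (T.l 0) (T.l 0)) (T.a (T.l 0) (T.l 0)))) (T.b (T.b (T.l 2) (T.c (T.a (T.l 0) (T.l 0)) (T.a (T.l 0) (T.l 0)))) (T.c (T.a (T.l 0) (T.l 0)) (T.a (T.l 0) (T.l 0)))))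 (T.a (T.b (T.c (T.l 96) (T.l 0)) (T.l 24672)) (T.c (T.a (T.l 64) (T.l 64)) (T.l 16448)))) (T.b (T.a (T.c (T.b (T.b (T.l 2) (T.a (T.l 0) (T.l 0))) (T.a (T.l 0) (T.l 0))) (T.b (T.b (T.l 2) (T.a (T.l 0) (T.l 0))) (T.a (T.l 0) (T.l 0)))) (T.c (T.b (T.b (T.l 2) (T.b (T.l 2) (T.a (T.l 0) (T.l 0)))) (T.a (T.l 0) (T.l 0))) (T.b (T.b (T.l 2) (T.a (T.l 0) (T.l 0))) (T.a (T.l 0) (T.l 0))))) (T.a (T.c (T.b (T.a (T.l 0) (T.l 0)) (T.l 0)) (T.b (T.l 0) (T.a (T.l 0) (T.l 0)))) (T.c (T.b (T.a (T.l 0) (T.l 0)) (T.a (T.l 0) (T.l 0))) (T.b (T.l 0) (T.a (T.l 0) (T.l 0))))))))) (T.b (T.b (T.c (T.a (T.a (T.a (T.l 16448) (T.a (T.l 64) (T.l 64))) (T.a (T.a (T.l 64) (T.l 64)) (T.a (T.l 64) (T.a (T.l 64) (T.l 64))))) (T.a (T.a (T.c (T.a (T.l 64) (T.a (T.l 64) (T.l 0))) (T.l 64)) (T.c (T.a (T.a (T.l 0)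 (T.l 0)) (T.l 0)) (T.a (T.l 0) (T.l 0)))) (T.a (T.c (T.a (T.l 0) (T.l 0)) (T.a (T.l 0) (T.l 0))) (T.c (T.a (T.l 0) (T.l 0)) (T.l 16448))))) (T.a (T.a (T.a (T.l 16448) (T.a (T.l 16384) (T.l 16384))) (T.a (T.l 286784) (T.a (T.l 16448) (T.l 16448)))) (T.a (T.a (T.a (T.l 16448) (T.l 24640)) (T.c (T.l 16384) (T.a (T.l 16384) (T.l 24576)))) (T.a (T.c (T.a (T.l 0) (T.l 0)) (T.c (T.l 16384) (T.a (T.l 0) (T.l 0)))) (T.c (T.l 16384) (T.a (T.l 16384) (T.l 24576))))))) (T.c (T.a (T.a (T.a (T.l 17472) (T.l 17472)) (T.a (T.l 279616) (T.a (T.l 17472) (T.l 17504)))) (T.a (T.a (T.c (T.a (T.l 64) (T.c (T.l 96) (T.l 0))) (T.l 16448)) (T.c (T.a (T.b (T.l 0) (T.l 0)) (T.a (T.l 0) (T.l 0))) (T.a (T.l 16480) (T.l 16384)))) (T.a (T.a (T.l 279616) (T.a (T.l 278592) (T.l 278592))) (T.a (T.l 287808)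 (T.l 4))))) (T.a (T.a (T.c (T.l 279616) (T.a (T.l 16384) (T.l 278528))) (T.a (T.l 287808) (T.a (T.l 278592) (T.l 286784)))) (T.a (T.a (T.c (T.l 16448) (T.a (T.l 16384) (T.l 24576))) (T.c (T.l 286784) (T.c (T.l 16384) (T.a (T.l 24576) (T.l 24576))))) (T.a (T.c (T.l 278592) (T.a (T.l 16384) (T.l 286720))) (T.a (T.a (T.l 286784) (T.l 4)) (T.l 4))))))) (T.b (T.c (T.a (T.a (T.a (T.l 279616) (T.l 279632)) (T.a (T.l 283984) (T.a (T.l 279616) (T.l 279648)))) (T.a (T.a (T.c (T.a (T.a (T.l 1088) (T.a (T.l 1088) (T.l 17504))) (T.b (T.a (T.l 0) (T.l 0)) (T.b (T.a (T.l 0) (T.l 0)) (T.l 64)))) (T.a (T.l 279616) (T.l 279616))) (T.a (T.l 283712) (T.l 349248))) (T.a (T.a (T.l 349248) (T.l 4)) (T.l 4)))) (T.a (T.a (T.a (T.a (T.a (T.l 286784) (T.l 287808)) (T.l 287808)) (T.a (T.l 287808) (T.l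 287808))) (T.c (T.l 357712) (T.a (T.l 287808) (T.a (T.l 286784) (T.l 286784))))) (T.a (T.a (T.c (T.l 287808) (T.c (T.l 278592) (T.a (T.l 286720) (T.a (T.l 286720) (T.a (T.l 24576) (T.l 16384)))))) (T.c (T.l 283712) (T.a (T.l 286784) (T.l 286784)))) (T.a (T.a (T.a (T.l 279616) (T.l 4)) (T.l 4)) (T.l 4))))) (T.c (T.a (T.a (T.a (T.l 349520) (T.l 349520)) (T.a (T.l 349520) (T.c (T.a (T.l 349520) (T.a (T.l 349520) (T.a (T.l 349520) (T.l 349552)))) (T.l 349520)))) (T.a (T.a (T.b (T.a (T.a (T.a (T.l 279616) (T.l 279648)) (T.l 279616)) (T.l 349520)) (T.l 349520)) (T.a (T.l 349520) (T.l 4))) (T.l 4))) (T.a (T.a (T.c (T.l 349520) (T.c (T.l 349520) (T.a (T.l 357712) (T.l 357712)))) (T.a (T.c (T.l 349520) (T.a (T.l 357712) (T.a (T.l 357712) (T.l 357712)))) (T.c (T.l 349520) (T.c (T.l 349520)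 (T.a (T.l 357712) (T.b (T.l 286720) (T.c (T.l 357712) (T.c (T.l 357712) (T.a (T.a (T.l 357712) (T.l 357712)) (T.a (T.l 357712) (T.l 357712))))))))))) (T.a (T.a (T.a (T.c (T.l 349520) (T.b (T.c (T.l 278528) (T.a (T.l 286720) (T.l 278528))) (T.l 357712))) (T.c (T.l 349520) (T.l 357712))) (T.c (T.l 357712) (T.a (T.l 357712) (T.l 4)))) (T.l 4))))))))), by decide +kernel⟩
theorem cFB2 : ∃ t, chk3 (onCell 0 232471925 0 2684354560 858993459 64424510 (fdB true false pF (ndUR ndF2))) t 1 1 1 = true :=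
  ⟨(T.b (T.b (T.b (T.b (T.a (T.b (T.l 2) (T.c (T.l 0) (T.l 0))) (T.l 2)) (T.c (T.a (T.a (T.l 0) (T.l 0)) (T.l 0)) (T.a (T.b (T.l 0) (T.l 4)) (T.b (T.l 0) (T.a (T.l 0) (T.l 0)))))) (T.l 4)) (T.l 4)) (T.a (T.l 4) (T.b (T.l 4) (T.a (T.l 4) (T.l 4))))), by decide +kernel⟩

end Pool.Agent.Strip051.G.I8000_8600.Tab.DG
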