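import Pool.Agent.Strip051.G.I8000_8600.DgP

/-! # The corner (1, 1, 2): certificates of the degenerate charts (generated) -/

set_option linter.all false

namespace Pool.Agent.Strip051.G.I8000_8600.Tab.DG

open Pool.Agent.Strip051.PB Pool.Agent.Strip051.PB.Dg Pool.Agent.StripNear Pool.Agent.Strip051.LC

theorem cFB3 : ∃ t, chk3 (onCell 0 232471925 0 2684354560 858993459 64424510 (fdB true false pF (ndUR ndF3))) t 1 1 1 = true :=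
  ⟨(T.b (T.b (T.a (T.b (T.l 2) (T.b (T.l 2) (T.b (T.c (T.c (T.a (T.l 0) (T.l 0)) (T.b (T.l 0) (T.a (T.l 0) (T.l 0)))) (T.b (T.a (T.c (T.l 0) (T.c (T.l 0) (T.a (T.b (T.l 2) (T.a (T.l 0) (T.l 0))) (T.l 0)))) (T.l 2)) (T.a (T.b (T.a (T.l 32) (T.c (T.l 0) (T.b (T.c (T.l 0) (T.l 0)) (T.l 32)))) (T.l 32)) (T.b (T.c (T.l 0) (T.c (T.l 0) (T.a (T.l 0) (T.l 0)))) (T.a (T.l 32) (T.a (T.l 32) (T.l 32))))))) (T.a (T.l 544) (T.a (T.l 544) (T.l 544)))))) (T.b (T.l 2) (T.b (T.l 2) (T.a (T.b (T.b (T.l 2) (T.c (T.c (T.l 0) (T.l 0)) (T.c (T.l 0) (T.a (T.a (T.l 0) (T.l 0)) (T.l 0))))) (T.b (T.a (T.l 32) (T.b (T.l 32) (T.l 32))) (T.l 8736))) (T.b (T.b (T.l 2) (T.b (T.l 2) (T.b (T.l 2) (T.a (T.c (T.l 0) (T.l 0)) (T.c (T.a (T.l 0) (T.l 2)) (T.l 0)))))) (T.b (T.b (T.a (T.b (T.c (T.a (T.l 0) (T.l 0)) (T.l 32)) (T.l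 32)) (T.c (T.c (T.a (T.l 0) (T.l 0)) (T.l 0)) (T.c (T.l 0) (T.l 0)))) (T.a (T.l 32) (T.l 32))) (T.a (T.l 544) (T.l 544)))))))) (T.a (T.a (T.b (T.a (T.l 139944) (T.l 141992)) (T.l 4)) (T.b (T.b (T.l 8872) (T.l 4)) (T.l 4))) (T.b (T.b (T.b (T.a (T.l 139944) (T.a (T.l 544) (T.l 8736))) (T.l 4)) (T.l 4)) (T.l 4)))) (T.a (T.l 4) (T.b (T.l 4) (T.a (T.l 4) (T.l 4))))), by decide +kernel⟩
theorem cFB4 : ∃ t, chk3 (onCell 0 232471925 0 2684354560 858993459 64424510 (fdB true true pF (dgSC pF))) t 1 1 1 = true :=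
  ⟨(T.b (T.b (T.l 2) (T.a (T.a (T.l 349520) (T.a (T.l 349520) (T.l 349520))) (T.b (T.l 2) (T.a (T.a (T.l 349520) (T.a (T.l 349520) (T.l 349520))) (T.a (T.b (T.l 349520) (T.l 6)) (T.l 6)))))) (T.b (T.a (T.b (T.a (T.l 182952) (T.a (T.l 349392) (T.l 349520))) (T.l 4)) (T.a (T.b (T.b (T.a (T.l 349520) (T.a (T.l 348880) (T.l 6))) (T.l 4)) (T.l 4)) (T.l 6))) (T.a (T.l 4) (T.a (T.l 4) (T.l 5))))), by decide +kernel⟩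
theorem cFP2 : ∃ t, chk3 (onCell 0 232471925 0 1073741824 858993459 64424510 (fdP true false pF (ndUR ndF2))) t 1 1 1 = true :=
  ⟨(T.b (T.b (T.b (T.a (T.a (T.l 8192) (T.l 8224)) (T.l 8224)) (T.c (T.a (T.a (T.l 0) (T.l 0)) (T.l 0)) (T.a (T.a (T.l 0) (T.l 0)) (T.a (T.l 0) (T.l 0))))) (T.l 2)) (T.l 2)), by decide +kernel⟩
theorem cFP3 : ∃ t, chk3 (onCell 0 232471925 0 1073741824 858993459 64424510 (fdP true false pF (ndUR ndF3))) t 1 1 1 = true :=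
  ⟨(T.a (T.a (T.b (T.b (T.l 8224) (T.b (T.l 8224) (T.b (T.l 8224) (T.c (T.l 0) (T.a (T.c (T.l 0) (T.b (T.l 0) (T.l 0))) (T.l 32)))))) (T.b (T.b (T.b (T.b (T.b (T.c (T.l 0) (T.c (T.l 0) (T.c (T.a (T.l 0) (T.l 0)) (T.a (T.b (T.l 0) (T.l 2)) (T.l 0))))) (T.l 2)) (T.l 2)) (T.l 2)) (T.l 2)) (T.l 2))) (T.b (T.b (T.l 8224) (T.b (T.l 8224) (T.c (T.l 32) (T.a (T.l 32) (T.l 32))))) (T.b (T.b (T.b (T.b (T.c (T.l 0) (T.c (T.l 0) (T.a (T.c (T.l 0) (T.b (T.l 0) (T.b (T.l 0) (T.l 2)))) (T.l 0)))) (T.l 2)) (T.l 2)) (T.l 2)) (T.l 2)))) (T.b (T.b (T.l 139808) (T.a (T.b (T.l 8224) (T.a (T.l 8224) (T.l 8224))) (T.b (T.l 8736) (T.a (T.l 8736) (T.l 8736))))) (T.b (T.b (T.b (T.a (T.b (T.c (T.l 0) (T.a (T.l 0) (T.l 0))) (T.b (T.c (T.a (T.l 0) (T.l 0)) (T.c (T.l 0) (T.a (T.l 0) (T.l 0)))) (T.l 2))) (T.b (T.a (T.l 32)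 (T.l 32)) (T.a (T.b (T.c (T.l 0) (T.l 0)) (T.l 2)) (T.c (T.c (T.a (T.l 0) (T.l 0)) (T.l 0)) (T.c (T.l 0) (T.l 0)))))) (T.l 2)) (T.l 2)) (T.l 2)))), by decide +kernel⟩
theorem cFP4 : ∃ t, chk3 (onCell 0 232471925 0 1073741824 858993459 64424510 (fdP true true pF (dgSC pF))) t 1 1 1 = true :=
  ⟨(T.a (T.a (T.l 349520) (T.l 349520)) (T.a (T.l 349520) (T.b (T.l 175272) (T.a (T.l 349520) (T.l 349520))))), by decide +kernel⟩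
theorem cFC1 : ∃ t, chk3 (onCell 0 232471925 0 1073741824 858993459 64424510 (fdU pF ndF1 (thLo (ndUL pF ndF1) (ndUR ndF2)) cvF1 (ndUR ndF2))) t 1 1 1 = true :=
  ⟨(T.a (T.b (T.b (T.b (T.b (T.a (T.b (T.c (T.l 0) (T.c (T.l 0) (T.l 0))) (T.l 32)) (T.c (T.l 0) (T.a (T.l 0) (T.l 0)))) (T.a (T.l 32) (T.l 1))) (T.l 1)) (T.l 1)) (T.l 1)) (T.b (T.b (T.b (T.b (T.c (T.l 0) (T.a (T.a (T.l 0) (T.l 0)) (T.a (T.l 0) (T.l 0)))) (T.l 1)) (T.l 1)) (T.l 1)) (T.a (T.a (T.l 1) (T.l 3)) (T.l 3)))), by decide +kernel⟩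
theorem cNA1 : ∃ t, chk3 (onCell 0 232471925 0 1073741824 858993459 64424510 (fdAW pN qN (ndUL pN ndN1) (ndUR ndN2) (thLo (ndUL pN ndN1) (ndUR ndN2)) (tuLo (ndUL pN ndN1) (ndUR ndN2) (suL qN ndN1) (suR ndN2)))) t 1 1 1 = true :=
  ⟨(T.b (T.b (T.a (T.b (T.a (T.b (T.c (T.l 0) (T.c (T.l 0) (T.b (T.a (T.l 0) (T.l 0)) (T.l 0)))) (T.c (T.l 0) (T.c (T.l 0) (T.a (T.l 0) (T.l 0))))) (T.c (T.b (T.l 0) (T.l 0)) (T.b (T.c (T.a (T.l 0) (T.l 0)) (T.b (T.a (T.b (T.l 1) (T.l 0)) (T.l 1)) (T.a (T.l 0) (T.l 0)))) (T.c (T.l 0) (T.a (T.l 0) (T.l 0)))))) (T.a (T.b (T.c (T.a (T.l 0) (T.l 0)) (T.c (T.l 0) (T.a (T.l 0) (T.l 0)))) (T.l 3)) (T.c (T.b (T.l 0) (T.l 0)) (T.c (T.l 0) (T.a (T.l 0) (T.l 0)))))) (T.b (T.c (T.a (T.b (T.a (T.l 0) (T.l 1)) (T.l 0)) (T.b (T.l 1) (T.l 0))) (T.a (T.b (T.b (T.l 1) (T.a (T.c (T.l 0)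 (T.a (T.l 0) (T.l 0))) (T.l 1))) (T.c (T.l 0) (T.b (T.a (T.l 0) (T.l 0)) (T.l 0)))) (T.b (T.l 1) (T.c (T.a (T.l 0) (T.l 0)) (T.b (T.b (T.l 1) (T.a (T.l 0) (T.l 0))) (T.a (T.l 0) (T.l 0))))))) (T.c (T.b (T.a (T.l 0) (T.l 0)) (T.l 0)) (T.a (T.c (T.l 0) (T.b (T.l 0) (T.l 0))) (T.c (T.a (T.l 0) (T.l 0)) (T.b (T.a (T.l 0) (T.l 0)) (T.l 0))))))) (T.l 3)) (T.l 3)), by decide +kernel⟩
theorem cNA2 : ∃ t, chk3 (onCell 0 232471925 0 1073741824 858993459 64424510 (fdAW pN qN (ndUR ndN2) (ndUR ndN3) (thLo (ndUR ndN2) (ndUR ndN3)) (tuLo (ndUR ndN2) (ndUR ndN3) (suR ndN2) (suR ndN3)))) t 1 1 1 = true :=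
  ⟨(T.a (T.a (T.b (T.b (T.b (T.l 2) (T.c (T.a (T.l 0) (T.l 0)) (T.c (T.l 0) (T.b (T.l 0) (T.l 0))))) (T.c (T.b (T.l 0) (T.l 32)) (T.b (T.c (T.l 0) (T.a (T.l 0) (T.l 0))) (T.a (T.l 8224) (T.l 8224))))) (T.b (T.b (T.c (T.l 544) (T.a (T.l 8224) (T.l 8224))) (T.l 3)) (T.l 3))) (T.b (T.b (T.b (T.l 2) (T.c (T.l 0) (T.b (T.l 0) (T.l 0)))) (T.c (T.b (T.l 0) (T.l 32)) (T.b (T.b (T.l 0) (T.l 0)) (T.c (T.l 0) (T.l 32))))) (T.b (T.b (T.c (T.l 8224) (T.b (T.l 32) (T.l 3))) (T.l 3)) (T.l 3)))) (T.b (T.b (T.b (T.l 2) (T.b (T.l 2) (T.c (T.l 0) (T.a (T.l 0) (T.l 0))))) (T.a (T.c (T.b (T.l 0) (T.a (T.l 32) (T.l 32))) (T.b (T.b (T.l 0) (T.l 0)) (T.c (T.l 0) (T.l 32)))) (T.b (T.c (T.a (T.l 0) (T.l 0)) (T.b (T.l 0) (T.a (T.l 0) (T.l 0)))) (T.c (T.c (T.l 32) (T.l 0)) (T.c (T.l 0) (T.l 32)))))) (T.b (T.b (T.a (T.b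 (T.c (T.a (T.l 0) (T.l 32)) (T.a (T.l 0) (T.l 0))) (T.l 3)) (T.b (T.c (T.a (T.l 0) (T.l 32)) (T.a (T.l 0) (T.l 0))) (T.l 3))) (T.l 3)) (T.l 3)))), by decide +kernel⟩
theorem cNA3 : ∃ t, chk3 (onCell 0 232471925 0 1073741824 858993459 64424510 (fdAW pN qN (ndUR ndN3) (dgSC pN) (thUp (ndUR ndN3) (dgSC pN)) (tuUp (ndUR ndN3) (dgSC pN) (suR ndN3) (suC qN)))) t 1 1 1 = true :=
  ⟨(T.a (T.a (T.b (T.a (T.a (T.b (T.l 2) (T.a (T.b (T.l 2) (T.a (T.l 8224) (T.l 2))) (T.l 2))) (T.l 2)) (T.l 2)) (T.b (T.c (T.b (T.l 32) (T.l 8224)) (T.b (T.a (T.l 32) (T.l 32)) (T.l 8224))) (T.c (T.a (T.l 174760) (T.l 174760)) (T.a (T.l 174760) (T.l 174760))))) (T.a (T.b (T.l 2) (T.b (T.c (T.a (T.l 139808) (T.l 139808)) (T.b (T.l 8224) (T.l 32))) (T.c (T.a (T.l 174760) (T.l 174760)) (T.b (T.l 8224) (T.l 174760))))) (T.b (T.l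 2) (T.b (T.c (T.b (T.a (T.l 32) (T.l 32)) (T.a (T.l 32) (T.l 32))) (T.b (T.a (T.l 32) (T.l 8224)) (T.a (T.l 32) (T.l 32)))) (T.b (T.c (T.a (T.l 139808) (T.l 139808)) (T.l 139808)) (T.a (T.b (T.l 139816) (T.l 174760)) (T.c (T.l 174760) (T.l 174760)))))))) (T.b (T.l 2) (T.b (T.a (T.a (T.c (T.b (T.a (T.l 32) (T.l 32)) (T.a (T.l 8224) (T.l 8224))) (T.b (T.c (T.l 8224) (T.a (T.l 32) (T.l 32))) (T.a (T.l 32) (T.l 8224)))) (T.c (T.a (T.b (T.l 8224) (T.l 8736)) (T.b (T.a (T.l 32) (T.l 32)) (T.a (T.l 32) (T.l 8224)))) (T.b (T.a (T.b (T.l 32) (T.l 0)) (T.b (T.l 32) (T.l 32))) (T.a (T.a (T.l 32) (T.l 32)) (T.a (T.l 32) (T.l 32)))))) (T.a (T.c (T.b (T.a (T.a (T.l 32) (T.l 32)) (T.b (T.l 32) (T.l 32))) (T.a (T.a (T.l 8736) (T.l 8736)) (T.b (T.l 32) (T.l 8224)))) (T.b (T.a (T.c (T.l 32) (T.l 32)) (T.c (T.l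 32) (T.l 32))) (T.c (T.a (T.l 32) (T.l 32)) (T.a (T.l 32) (T.l 32))))) (T.c (T.a (T.b (T.c (T.l 32) (T.l 32)) (T.c (T.l 8224) (T.l 32))) (T.b (T.c (T.a (T.l 32) (T.l 32)) (T.l 32)) (T.c (T.l 8224) (T.l 8224)))) (T.b (T.a (T.c (T.l 32) (T.l 32)) (T.c (T.a (T.l 32) (T.l 32)) (T.l 32))) (T.a (T.b (T.l 32) (T.l 8224)) (T.c (T.l 32) (T.l 32))))))) (T.b (T.a (T.a (T.c (T.a (T.l 139808) (T.l 139808)) (T.a (T.l 139808) (T.l 139808))) (T.c (T.a (T.a (T.l 139808) (T.l 139808)) (T.a (T.l 139808) (T.l 139808))) (T.a (T.l 139808) (T.a (T.l 8224) (T.l 8224))))) (T.a (T.c (T.a (T.b (T.l 8736) (T.l 139808)) (T.b (T.l 8736) (T.a (T.l 8736) (T.l 139808)))) (T.a (T.a (T.l 8736) (T.l 8736)) (T.b (T.l 8224) (T.l 8224)))) (T.a (T.c (T.c (T.a (T.l 139808) (T.l 139808)) (T.l 139808)) (T.b (T.l 8224) (T.l 139808)))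 (T.b (T.c (T.a (T.l 8224) (T.l 8224)) (T.l 8224)) (T.a (T.c (T.l 139808) (T.l 0)) (T.l 4)))))) (T.b (T.a (T.a (T.c (T.a (T.l 139808) (T.l 139808)) (T.l 141992)) (T.c (T.a (T.l 139816) (T.l 139944)) (T.a (T.l 8224) (T.l 8224)))) (T.a (T.c (T.a (T.a (T.l 139816) (T.l 139808)) (T.a (T.l 139808) (T.l 139816))) (T.a (T.l 139808) (T.l 139808))) (T.a (T.c (T.a (T.l 139816) (T.l 4)) (T.l 139808)) (T.l 4)))) (T.a (T.a (T.c (T.a (T.l 174760) (T.l 174760)) (T.l 174760)) (T.a (T.c (T.l 174760) (T.l 174760)) (T.c (T.a (T.l 174760) (T.l 174760)) (T.l 174760)))) (T.a (T.a (T.c (T.a (T.l 174760) (T.l 174760)) (T.l 174760)) (T.c (T.a (T.l 174760) (T.l 4)) (T.l 174760))) (T.l 4)))))))), by decide +kernel⟩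
theorem cNB2 : ∃ t, chk3 (onCell 0 232471925 0 2684354560 858993459 64424510 (fdBW pN qN (ndUR ndN2) (suR ndN2))) t 1 1 1 = true :=
  ⟨(T.b (T.b (T.b (T.b (T.a (T.b (T.l 2) (T.c (T.l 0) (T.c (T.l 0) (T.l 0)))) (T.l 2)) (T.c (T.a (T.a (T.l 0) (T.l 0)) (T.a (T.l 0) (T.l 0))) (T.a (T.b (T.c (T.l 0) (T.l 0)) (T.l 4)) (T.c (T.l 0) (T.a (T.l 0) (T.l 0)))))) (T.l 4)) (T.l 4)) (T.a (T.l 4) (T.b (T.l 4) (T.a (T.l 4) (T.l 4))))), by decide +kernel⟩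
theorem cNB3 : ∃ t, chk3 (onCell 0 232471925 0 2684354560 858993459 64424510 (fdBW pN qN (ndUR ndN3) (suR ndN3))) t 1 1 1 = true :=
  ⟨(T.b (T.b (T.a (T.b (T.l 2) (T.b (T.l 2) (T.b (T.c (T.a (T.l 0) (T.l 0)) (T.c (T.l 0) (T.a (T.l 0) (T.l 0)))) (T.a (T.l 8224) (T.a (T.l 8224) (T.l 8224)))))) (T.b (T.l 2) (T.b (T.l 2) (T.a (T.b (T.b (T.l 2) (T.c (T.l 0) (T.l 0))) (T.b (T.c (T.l 32) (T.l 32)) (T.l 8736))) (T.b (T.b (T.l 2) (T.b (T.l 2) (T.c (T.l 0) (T.l 0)))) (T.b (T.c (T.a (T.l 0) (T.l 0)) (T.a (T.l 0) (T.l 0))) (T.a (T.l 32) (T.l 32)))))))) (T.a (T.a (T.b (T.a (T.l 174760) (T.l 174760)) (T.l 4)) (T.b (T.b (T.l 139816) (T.l 4)) (T.l 4))) (T.b (T.b (T.b (T.a (T.a (T.l 8736) (T.l 8736)) (T.a (T.l 8736) (T.l 8736))) (T.l 4)) (T.l 4)) (T.l 4)))) (T.a (T.l 4) (T.b (T.l 4) (T.a (T.l 4) (T.l 4))))),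 by decide +kernel⟩
theorem cNB4 : ∃ t, chk3 (onCell 0 232471925 0 2684354560 858993459 64424510 (fdBW pN qN (dgSC pN) (suC qN))) t 1 1 1 = true :=
  ⟨(T.b (T.b (T.l 2) (T.a (T.a (T.b (T.l 2) (T.b (T.b (T.b (T.l 2) (T.b (T.l 2) (T.a (T.l 174760) (T.l 174760)))) (T.a (T.l 174760) (T.l 174760))) (T.l 174760))) (T.b (T.l 2) (T.a (T.b (T.b (T.b (T.l 2) (T.b (T.l 2) (T.l 174760))) (T.l 174760)) (T.a (T.l 174760) (T.l 174760))) (T.b (T.b (T.b (T.l 2) (T.b (T.l 2) (T.a (T.l 174760) (T.a (T.l 174760) (T.l 174760))))) (T.c (T.a (T.l 174760) (T.l 174760)) (T.l 174760))) (T.a (T.l 174760) (T.l 174760)))))) (T.b (T.l 2) (T.a (T.b (T.a (T.b (T.b (T.l 2) (T.b (T.l 2) (T.c (T.a (T.l 174760) (T.l 174760)) (T.l 174760)))) (T.b (T.a (T.l 174760) (T.l 174760)) (T.l 174760))) (T.b (T.b (T.l 2) (T.b (T.l 2) (T.a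 (T.c (T.l 174760) (T.l 0)) (T.c (T.l 174760) (T.l 136))))) (T.c (T.b (T.a (T.l 174760) (T.l 174760)) (T.l 174760)) (T.a (T.l 174760) (T.l 174760))))) (T.a (T.b (T.a (T.l 174760) (T.l 174760)) (T.a (T.l 174760) (T.l 174760))) (T.a (T.b (T.l 174760) (T.l 174760)) (T.b (T.a (T.l 174760) (T.l 174760)) (T.l 174760))))) (T.a (T.b (T.a (T.b (T.b (T.l 2) (T.b (T.l 2) (T.c (T.a (T.l 174760) (T.l 174760)) (T.l 35496)))) (T.c (T.b (T.l 174760) (T.l 174760)) (T.a (T.l 174760) (T.l 174760)))) (T.a (T.b (T.b (T.l 2) (T.b (T.l 2) (T.l 6))) (T.l 6)) (T.l 6))) (T.l 6)) (T.l 6)))))) (T.b (T.a (T.b (T.a (T.a (T.l 174760) (T.l 174760)) (T.b (T.a (T.l 174760) (T.a (T.l 174760) (T.l 174760))) (T.l 4))) (T.l 4)) (T.a (T.b (T.b (T.b (T.a (T.a (T.l 174760) (T.l 174760)) (T.a (T.l 174760) (T.l 6))) (T.l 4)) (T.l 4))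 (T.l 4)) (T.l 6))) (T.a (T.l 4) (T.a (T.l 4) (T.l 5))))), by decide +kernel⟩
theorem cNP2 : ∃ t, chk3 (onCell 0 232471925 0 1073741824 858993459 64424510 (fdPW pN qN (ndUR ndN2) (suR ndN2))) t 1 1 1 = true :=
  ⟨(T.b (T.b (T.c (T.a (T.b (T.l 0) (T.a (T.l 0) (T.l 0))) (T.b (T.l 0) (T.l 0))) (T.a (T.b (T.a (T.l 8192) (T.l 0)) (T.c (T.l 0) (T.a (T.l 0) (T.l 0)))) (T.b (T.l 8224) (T.c (T.l 0) (T.l 0))))) (T.l 2)) (T.l 2)), by decide +kernel⟩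

end Pool.Agent.Strip051.G.I8000_8600.Tab.DG
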