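import Pool.Agent.Strip051.G.I8000_8600.DgQ
import Pool.Agent.Strip051.G.I8000_8600.DgX0
import Pool.Agent.Strip051.G.I8000_8600.DgX1
import Pool.Agent.Strip051.G.I8000_8600.DgX2

/-! # The corner (1, 1, 2): the degenerate instances (generated) -/

set_option linter.all false

namespace Pool.Agent.Strip051.G.I8000_8600.Tab.DG

open Pool.Agent.Strip051.PB Pool.Agent.Strip051.PB.Dg Pool.Agent.StripNear Pool.Agent.Strip051.LC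

theorem ctFA1 {x : ℝ} (hx : ((858993459 : ℕ) : ℝ) / S ≤ x) (hx' : x ≤ (((858993459 : ℕ) : ℝ) + (64424510 : ℕ)) / S) : CtAx PP tK tL false pF (ndUL pF ndF1) (ndUR ndF2) (thLo (ndUL pF ndF1) (ndUR ndF2)) 1 67108864 16777216 232471925 1073741824 858993459 64424510 x :=
  ⟨sdF1, sdF2, thLo_ok sdF1 sdF2, btF, svF, by norm_num, by norm_num, hx, hx', cFA1⟩
theorem ctFA2 {x : ℝ} (hx : ((858993459 : ℕ) : ℝ) / S ≤ x) (hx' : x ≤ (((858993459 : ℕ) : ℝ) + (64424510 : ℕ)) / S) : CtAx PP tK tL false pF (ndUR ndF2) (ndUR ndF3) (thLo (ndUR ndF2) (ndUR ndF3)) 2 67108864 16777216 232471925 1073741824 858993459 64424510 x :=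
  ⟨sdF2, sdF3, thLo_ok sdF2 sdF3, btF, svF, by norm_num, by norm_num, hx, hx', cFA2⟩
theorem ctFA3 {x : ℝ} (hx : ((858993459 : ℕ) : ℝ) / S ≤ x) (hx' : x ≤ (((858993459 : ℕ) : ℝ) + (64424510 : ℕ)) / S) : CtAx PP tK tL true pF (ndUR ndF3) (dgSC pF) (thUp (ndUR ndF3) (dgSC pF)) 3 67108864 16777216 232471925 1073741824 858993459 64424510 x :=
  ⟨sdF3, sdFC, thUp_ok' sdF3 sdFC rfl, tgpF.btU klF, svF, by norm_num, by norm_num, hx, hx', cFA3⟩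
theorem ctFB2 {x : ℝ} (hx : ((858993459 : ℕ) : ℝ) / S ≤ x) (hx' : x ≤ (((858993459 : ℕ) : ℝ) + (64424510 : ℕ)) / S) : CtB PP tK tL true false pF (ndUR ndF2) 2 0 67108864 16777216 232471925 2684354560 858993459 64424510 x :=
  ⟨sdF2, cvokF1, btF, rfl, by show rh 1 ≤ 1; simp [rh]; try norm_num, svF, by norm_num, by norm_num, hx, hx', cFB2⟩
theorem ctFB3 {x : ℝ} (hx : ((858993459 : ℕ) : ℝ) / S ≤ x) (hx' : x ≤ (((858993459 : ℕ) : ℝ) + (64424510 : ℕ)) / S) : CtB PP tK tL true false pF (ndUR ndF3) 3 0 67108864 16777216 232471925 2684354560 858993459 64424510 x :=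
  ⟨sdF3, cvokF1, btF, rfl, by show rh 1 ≤ 1; simp [rh]; try norm_num, svF, by norm_num, by norm_num, hx, hx', cFB3⟩
theorem ctFB4 {x : ℝ} (hx : ((858993459 : ℕ) : ℝ) / S ≤ x) (hx' : x ≤ (((858993459 : ℕ) : ℝ) + (64424510 : ℕ)) / S) : CtB PP tK tL true true pF (dgSC pF) 4 0 67108864 16777216 232471925 2684354560 858993459 64424510 x :=
  ⟨sdFC, cvokF1, tgpF.btN klF, rfl, by show rh 1 ≤ 1; simp [rh]; try norm_num, svF, by norm_num, by norm_num, hx, hx', cFB4⟩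
theorem ctFP2 {x : ℝ} (hx : ((858993459 : ℕ) : ℝ) / S ≤ x) (hx' : x ≤ (((858993459 : ℕ) : ℝ) + (64424510 : ℕ)) / S) : CtP PP tK tL true false pF (ndUR ndF2) 2 0 67108864 16777216 232471925 1073741824 858993459 64424510 x :=
  ⟨sdF2, p1okF, btF, rfl, svF, by norm_num, by norm_num, hx, hx', cFP2⟩
theorem ctFP3 {x : ℝ} (hx : ((858993459 : ℕ) : ℝ) / S ≤ x) (hx' : x ≤ (((858993459 : ℕ) : ℝ) + (64424510 : ℕ)) / S) : CtP PP tK tL true false pF (ndUR ndF3) 3 0 67108864 16777216 232471925 1073741824 858993459 64424510 x :=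
  ⟨sdF3, p1okF, btF, rfl, svF, by norm_num, by norm_num, hx, hx', cFP3⟩
theorem ctFP4 {x : ℝ} (hx : ((858993459 : ℕ) : ℝ) / S ≤ x) (hx' : x ≤ (((858993459 : ℕ) : ℝ) + (64424510 : ℕ)) / S) : CtP PP tK tL true true pF (dgSC pF) 4 0 67108864 16777216 232471925 1073741824 858993459 64424510 x :=
  ⟨sdFC, p1okF, tgpF.btN klF, rfl, svF, by norm_num, by norm_num, hx, hx', cFP4⟩
theorem ctFC1 {x : ℝ} (hx : ((858993459 : ℕ) : ℝ) / S ≤ x) (hx' : x ≤ (((858993459 : ℕ) : ℝ) + (64424510 : ℕ)) / S) : CtU PP tK tL pF ndF1 (thLo (ndUL pF ndF1) (ndUR ndF2)) cvF1 (ndUR ndF2) 1 1 67108864 16777216 232471925 1073741824 858993459 64424510 x :=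
  ⟨nlF1, sdF2, grLo _ _, cvokF1, by show rh 1 ≤ 1; simp [rh]; try norm_num, svF, by norm_num, by norm_num, hx, hx', cFC1⟩
theorem ctNA1 {x : ℝ} (hx : ((858993459 : ℕ) : ℝ) / S ≤ x) (hx' : x ≤ (((858993459 : ℕ) : ℝ) + (64424510 : ℕ)) / S) : CtAW PP tK tL tU (eng.v x) pN qN (ndUL pN ndN1) (ndUR ndN2) (thLo (ndUL pN ndN1) (ndUR ndN2)) (tuLo (ndUL pN ndN1) (ndUR ndN2) (suL qN ndN1) (suR ndN2)) 1 67108864 16777216 232471925 1073741824 858993459 64424510 x :=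
  ⟨sdN1, sdN2, thLo_ok sdN1 sdN2, tuLo_ok sdN1 sdN2 suN1 suN2, svN, by norm_num, by norm_num, hx, hx', cNA1⟩
theorem ctNA2 {x : ℝ} (hx : ((858993459 : ℕ) : ℝ) / S ≤ x) (hx' : x ≤ (((858993459 : ℕ) : ℝ) + (64424510 : ℕ)) / S) : CtAW PP tK tL tU (eng.v x) pN qN (ndUR ndN2) (ndUR ndN3) (thLo (ndUR ndN2) (ndUR ndN3)) (tuLo (ndUR ndN2) (ndUR ndN3) (suR ndN2) (suR ndN3)) 2 67108864 16777216 232471925 1073741824 858993459 64424510 x :=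
  ⟨sdN2, sdN3, thLo_ok sdN2 sdN3, tuLo_ok sdN2 sdN3 suN2 suN3, svN, by norm_num, by norm_num, hx, hx', cNA2⟩
theorem ctNA3 {x : ℝ} (hx : ((858993459 : ℕ) : ℝ) / S ≤ x) (hx' : x ≤ (((858993459 : ℕ) : ℝ) + (64424510 : ℕ)) / S) : CtAW PP tK tL tU (eng.v x) pN qN (ndUR ndN3) (dgSC pN) (thUp (ndUR ndN3) (dgSC pN)) (tuUp (ndUR ndN3) (dgSC pN) (suR ndN3) (suC qN)) 3 67108864 16777216 232471925 1073741824 858993459 64424510 x :=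
  ⟨sdN3, sdNC, thUp_ok' sdN3 sdNC rfl, tuUp_ok sdN3 sdNC suN3 suNC rfl, svN, by norm_num, by norm_num, hx, hx', cNA3⟩
theorem ctNB2 {x : ℝ} (hx : ((858993459 : ℕ) : ℝ) / S ≤ x) (hx' : x ≤ (((858993459 : ℕ) : ℝ) + (64424510 : ℕ)) / S) : CtBW PP tK tL tU (eng.v x) pN qN (ndUR ndN2) (suR ndN2) 2 0 67108864 16777216 232471925 2684354560 858993459 64424510 x :=
  ⟨sdN2, suN2, cvokN1, cvu1, rfl, by show rh 1 ≤ 1; simp [rh]; try norm_num, svN, by norm_num, by norm_num, hx, hx', cNB2⟩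
theorem ctNB3 {x : ℝ} (hx : ((858993459 : ℕ) : ℝ) / S ≤ x) (hx' : x ≤ (((858993459 : ℕ) : ℝ) + (64424510 : ℕ)) / S) : CtBW PP tK tL tU (eng.v x) pN qN (ndUR ndN3) (suR ndN3) 3 0 67108864 16777216 232471925 2684354560 858993459 64424510 x :=
  ⟨sdN3, suN3, cvokN1, cvu1, rfl, by show rh 1 ≤ 1; simp [rh]; try norm_num, svN, by norm_num, by norm_num, hx, hx', cNB3⟩
theorem ctNB4 {x : ℝ} (hx : ((858993459 : ℕ) : ℝ) / S ≤ x) (hx' : x ≤ (((858993459 : ℕ) : ℝ) + (64424510 : ℕ)) / S) : CtBW PP tK tL tU (eng.v x) pN qN (dgSC pN) (suC qN) 4 0 67108864 16777216 232471925 2684354560 858993459 64424510 x :=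
  ⟨sdNC, suNC, cvokN1, cvu1, rfl, by show rh 1 ≤ 1; simp [rh]; try norm_num, svN, by norm_num, by norm_num, hx, hx', cNB4⟩
theorem ctNP2 {x : ℝ} (hx : ((858993459 : ℕ) : ℝ) / S ≤ x) (hx' : x ≤ (((858993459 : ℕ) : ℝ) + (64424510 : ℕ)) / S) : CtPW PP tK tL tU (eng.v x) pN qN (ndUR ndN2) (suR ndN2) 2 0 67108864 16777216 232471925 1073741824 858993459 64424510 x :=
  ⟨sdN2, suN2, p1okN, p1u, rfl, svN, by norm_num, by norm_num, hx, hx', cNP2⟩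
theorem ctNP3 {x : ℝ} (hx : ((858993459 : ℕ) : ℝ) / S ≤ x) (hx' : x ≤ (((858993459 : ℕ) : ℝ) + (64424510 : ℕ)) / S) : CtPW PP tK tL tU (eng.v x) pN qN (ndUR ndN3) (suR ndN3) 3 0 67108864 16777216 232471925 1073741824 858993459 64424510 x :=
  ⟨sdN3, suN3, p1okN, p1u, rfl, svN, by norm_num, by norm_num, hx, hx', cNP3⟩
theorem ctNP4 {x : ℝ} (hx : ((858993459 : ℕ) : ℝ) / S ≤ x) (hx' : x ≤ (((858993459 : ℕ) : ℝ) + (64424510 : ℕ)) / S) : CtPW PP tK tL tU (eng.v x) pN qN (dgSC pN) (suC qN) 4 0 67108864 16777216 232471925 1073741824 858993459 64424510 x :=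
  ⟨sdNC, suNC, p1okN, p1u, rfl, svN, by norm_num, by norm_num, hx, hx', cNP4⟩
theorem ctNC1 {x : ℝ} (hx : ((858993459 : ℕ) : ℝ) / S ≤ x) (hx' : x ≤ (((858993459 : ℕ) : ℝ) + (64424510 : ℕ)) / S) : CtCW PP tK tL tU (eng.v x) pN qN ndN1 (thLo (ndUL pN ndN1) (ndUR ndN2)) (tuLo (ndUL pN ndN1) (ndUR ndN2) (suL qN ndN1) (suR ndN2)) cvN1 cFsDD1 (ndUR ndN2) (suR ndN2) 1 1 67108864 16777216 232471925 1073741824 858993459 64424510 x :=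
  ⟨nlN1, nc1, sdN2, suN2, grLo _ _, guLo _ _ _ _, cvokN1, cvu1, by show rh 1 ≤ 1; simp [rh]; try norm_num, svN, by norm_num, by norm_num, hx, hx', cNC1⟩
theorem thd {x : ℝ} (hx : ((858993459 : ℕ) : ℝ) / S ≤ x) (hx' : x ≤ (((858993459 : ℕ) : ℝ) + (64424510 : ℕ)) / S) : ThrD PP tC tU pd esg 3 (mog.v x) (1 / 20) x :=
  ⟨thU (pinU hx hx'), fun j q y => tbF_sc j q y x, (esg_rng (xr hx hx').1.le (xr hx hx').2.le).1, mo_v x⟩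
theorem dgB_A123_01 {κ x : ℝ} {f : ℝ → ℝ} (hκ : κ * h0 = ken x) (hx : ((858993459 : ℕ) : ℝ) / S ≤ x) (hx' : x ≤ (((858993459 : ℕ) : ℝ) + (64424510 : ℕ)) / S) :
    SgA (VEA 3 κ (eng.v x) (1 / 20) f PP tK tL tC pcB (scP esg pd) 1 2 0 1) PP tK tL pcB 1 2 0 1 true 1 67108864 16777216 x :=
  (sgC1W (bsN hx hx') (ctNC1 hx hx')).ve rfl (Or.inl rfl) (Or.inr rfl) (sideB hx hx') hκ (thd hx hx') (sgU1 (bsF hx hx') (ctFC1 hx hx'))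
theorem dgB_B123_02p {κ x : ℝ} {f : ℝ → ℝ} (hκ : κ * h0 = ken x) (hx : ((858993459 : ℕ) : ℝ) / S ≤ x) (hx' : x ≤ (((858993459 : ℕ) : ℝ) + (64424510 : ℕ)) / S) :
    SgBl (VEB 3 κ (eng.v x) (1 / 20) f PP tK tL tC pcB (scP esg pd) 1 2 0 2 true) PP tK tL pcB .npn 1 2 0 2 true 0 67108864 16777216 x :=
  Sg12BlW.ve rfl (Or.inl rfl) (Or.inr rfl) (sideB hx hx') hκ (thd hx hx') (sgB1W (bsN hx hx') (ctNB2 hx hx')) (sgB1 (bsF hx hx') (ctFB2 hx hx'))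
theorem dgB_B213_02m {κ x : ℝ} {f : ℝ → ℝ} (hκ : κ * h0 = ken x) (hx : ((858993459 : ℕ) : ℝ) / S ≤ x) (hx' : x ≤ (((858993459 : ℕ) : ℝ) + (64424510 : ℕ)) / S) :
    SgB (VEB 3 κ (eng.v x) (1 / 20) f PP tK tL tC pcB (scP esg pd) 2 1 0 2 false) PP tK tL pcB 2 1 0 2 false 0 67108864 16777216 x :=
  (sgP1W (bsN hx hx') (ctNP2 hx hx')).ve rfl (Or.inr rfl) (Or.inl rfl) (sideB hx hx') hκ (thd hx hx') (sgP1 (bsF hx hx') (ctFP2 hx hx'))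
theorem dgB_B123_03p {κ x : ℝ} {f : ℝ → ℝ} (hκ : κ * h0 = ken x) (hx : ((858993459 : ℕ) : ℝ) / S ≤ x) (hx' : x ≤ (((858993459 : ℕ) : ℝ) + (64424510 : ℕ)) / S) :
    SgBl (VEB 3 κ (eng.v x) (1 / 20) f PP tK tL tC pcB (scP esg pd) 1 2 0 3 true) PP tK tL pcB .npn 1 2 0 3 true 0 67108864 16777216 x :=
  Sg12BlW.ve rfl (Or.inl rfl) (Or.inr rfl) (sideB hx hx') hκ (thd hx hx') (sgB1W (bsN hx hx') (ctNB3 hx hx')) (sgB1 (bsF hx hx') (ctFB3 hx hx'))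
theorem dgB_B213_03m {κ x : ℝ} {f : ℝ → ℝ} (hκ : κ * h0 = ken x) (hx : ((858993459 : ℕ) : ℝ) / S ≤ x) (hx' : x ≤ (((858993459 : ℕ) : ℝ) + (64424510 : ℕ)) / S) :
    SgB (VEB 3 κ (eng.v x) (1 / 20) f PP tK tL tC pcB (scP esg pd) 2 1 0 3 false) PP tK tL pcB 2 1 0 3 false 0 67108864 16777216 x :=
  (sgP1W (bsN hx hx') (ctNP3 hx hx')).ve rfl (Or.inr rfl) (Or.inl rfl) (sideB hx hx') hκ (thd hx hx') (sgP1 (bsF hx hx') (ctFP3 hx hx'))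
theorem dgB_B123_04p {κ x : ℝ} {f : ℝ → ℝ} (hκ : κ * h0 = ken x) (hx : ((858993459 : ℕ) : ℝ) / S ≤ x) (hx' : x ≤ (((858993459 : ℕ) : ℝ) + (64424510 : ℕ)) / S) :
    SgBl (VEB 3 κ (eng.v x) (1 / 20) f PP tK tL tC pcB (scP esg pd) 1 2 0 4 true) PP tK tL pcB .npn 1 2 0 4 true 0 67108864 16777216 x :=
  Sg12BlW.ve rfl (Or.inl rfl) (Or.inr rfl) (sideB hx hx') hκ (thd hx hx') (sgB1W (bsN hx hx') (ctNB4 hx hx')) (sgB1 (bsF hx hx') (ctFB4 hx hx'))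
theorem dgB_B213_04m {κ x : ℝ} {f : ℝ → ℝ} (hκ : κ * h0 = ken x) (hx : ((858993459 : ℕ) : ℝ) / S ≤ x) (hx' : x ≤ (((858993459 : ℕ) : ℝ) + (64424510 : ℕ)) / S) :
    SgB (VEB 3 κ (eng.v x) (1 / 20) f PP tK tL tC pcB (scP esg pd) 2 1 0 4 false) PP tK tL pcB 2 1 0 4 false 0 67108864 16777216 x :=
  (sgP1W (bsN hx hx') (ctNP4 hx hx')).ve rfl (Or.inr rfl) (Or.inl rfl) (sideB hx hx') hκ (thd hx hx') (sgP1 (bsF hx hx') (ctFP4 hx hx'))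
theorem alt12B_A123_00 {κ x : ℝ} {f : ℝ → ℝ} (hκ : κ * h0 = ken x) (hx : ((858993459 : ℕ) : ℝ) / S ≤ x) (hx' : x ≤ (((858993459 : ℕ) : ℝ) + (64424510 : ℕ)) / S) :
    AltEA 3 κ (eng.v x) (1 / 20) f PP tK tL tC pcB (scP esg pd) [⟨0, 1, 0, 67108864⟩, ⟨1, 1, 0, 67108864⟩, ⟨2, 2, 0, 16777216⟩] 1 2 3 0 0 (sgb true) (sgb false) x := by
  refine altEA12 (altA12 (loc123 (m := 1) (by show rh 1 ≤ 1; simp [rh]; try norm_num) (by show rh 0 ≤ 1; simp [rh]; try norm_num) (fun i hi => ?_)))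
  fin_cases i
  · exact absurd hi (by decide)
  · exact (sgA1W (bsN hx hx') (ctNA1 hx hx')).ve rfl (Or.inl rfl) (Or.inr rfl) (sideB hx hx') hκ (thd hx hx') (sgA1x (bsF hx hx') (ctFA1 hx hx'))
  · exact (sgA1W (bsN hx hx') (ctNA2 hx hx')).ve rfl (Or.inl rfl) (Or.inr rfl) (sideB hx hx') hκ (thd hx hx') (sgA1x (bsF hx hx') (ctFA2 hx hx'))
  · exact (sgA1W (bsN hx hx') (ctNA3 hx hx')).ve rfl (Or.inl rfl) (Or.inr rfl) (sideB hx hx') hκ (thd hx hx') (sgA1x (bsF hx hx') (ctFA3 hx hx'))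
theorem alt12B_A213_00 {κ x : ℝ} {f : ℝ → ℝ} (hκ : κ * h0 = ken x) (hx : ((858993459 : ℕ) : ℝ) / S ≤ x) (hx' : x ≤ (((858993459 : ℕ) : ℝ) + (64424510 : ℕ)) / S) :
    AltEA 3 κ (eng.v x) (1 / 20) f PP tK tL tC pcB (scP esg pd) [⟨0, 1, 0, 67108864⟩, ⟨1, 1, 0, 67108864⟩, ⟨2, 2, 0, 16777216⟩] 2 1 3 0 0 (sgb true) (sgb false) x := by
  refine altEA12 (altA12 (loc213 (m := 1) (by show rh 1 ≤ 1; simp [rh]; try norm_num) (by show rh 0 ≤ 1; simp [rh]; try norm_num) (fun i hi => ?_)))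
  fin_cases i
  · exact absurd hi (by decide)
  · exact (sgA2W (bsN hx hx') (ctNA1 hx hx')).ve rfl (Or.inr rfl) (Or.inl rfl) (sideB hx hx') hκ (thd hx hx') (sgA2x (bsF hx hx') (ctFA1 hx hx'))
  · exact (sgA2W (bsN hx hx') (ctNA2 hx hx')).ve rfl (Or.inr rfl) (Or.inl rfl) (sideB hx hx') hκ (thd hx hx') (sgA2x (bsF hx hx') (ctFA2 hx hx'))
  · exact (sgA2W (bsN hx hx') (ctNA3 hx hx')).ve rfl (Or.inr rfl) (Or.inl rfl) (sideB hx hx') hκ (thd hx hx') (sgA2x (bsF hx hx') (ctFA3 hx hx'))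

end Pool.Agent.Strip051.G.I8000_8600.Tab.DG
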