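import Pool.Agent.Strip051.PB.Cuts

/-! # Tables I8000_8600 (generated) -/

namespace Pool.Agent.Strip051.G.I8000_8600.Tab

open Pool.Agent.Strip051.PB

noncomputable def c1g : Fn1 := ⟨_, _, fun h1 => (enc_sqrtg (enc_sub (enc_pnc _ 1) (enc_scale 3 4 (enc_sq h1))))⟩
noncomputable def kcg_3 : Fn2 := ⟨_, _, fun h1 h2 => (enc_subr 83 100 h2)⟩
noncomputable def kcg_6 : Fn2 := ⟨_, _, fun h1 h2 => (enc_add h1 (enc_rat _ 517 1531))⟩
noncomputable def kcg_9 : Fn2 := ⟨_, _, fun h1 h2 => (enc_add h1 (enc_rat _ 41 100))⟩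
noncomputable def kcg_12 : Fn2 := ⟨_, _, fun h1 h2 => (enc_add h1 (enc_rat _ 9 20))⟩
noncomputable def kcg_13 : Fn2 := ⟨_, _, fun h1 h2 => (enc_scale 6529183 50000000 h1)⟩
noncomputable def kcg_17 : Fn2 := ⟨_, _, fun h1 h2 => (enc_scale 251687903 5000000 h1)⟩
noncomputable def kcg_24 : Fn2 := ⟨_, _, fun h1 h2 => (enc_scale 86601 200 (kcg_3.enc h1 h2))⟩
noncomputable def kcg_28 : Fn2 := ⟨_, _, fun h1 h2 => (enc_subr 19369 1000 (enc_neg (kcg_24.enc h1 h2)))⟩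
noncomputable def kcg_36 : Fn2 := ⟨_, _, fun h1 h2 => (enc_scale 37475873 20000000 h1)⟩
noncomputable def kcg_39 : Fn2 := ⟨_, _, fun h1 h2 => (enc_scale 232156923 4000000 h1)⟩
noncomputable def kcg_45 : Fn2 := ⟨_, _, fun h1 h2 => (enc_scale 69743 200 (kcg_3.enc h1 h2))⟩
noncomputable def kcg_46 : Fn2 := ⟨_, _, fun h1 h2 => (enc_subr 19369 1000 (kcg_45.enc h1 h2))⟩
noncomputable def kcg_54 : Fn2 := ⟨_, _, fun h1 h2 => (enc_add h1 (enc_rat _ 37 100))⟩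
noncomputable def kcg_55 : Fn2 := ⟨_, _, fun h1 h2 => (enc_scale 78090947 40000000 h1)⟩
noncomputable def kcg_58 : Fn2 := ⟨_, _, fun h1 h2 => (enc_scale 60284061 2000000 h1)⟩
noncomputable def kcg_64 : Fn2 := ⟨_, _, fun h1 h2 => (enc_add (kcg_45.enc h1 h2) (enc_rat _ 17407 1000))⟩
noncomputable def kcg_69 : Fn2 := ⟨_, _, fun h1 h2 => (enc_scale 485421922 386484375 h1)⟩
noncomputable def kcg_73 : Fn2 := ⟨_, _, fun h1 h2 => (enc_scale 3630963999 1649000000 h1)⟩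
noncomputable def kcg_79 : Fn2 := ⟨_, _, fun h1 h2 => (enc_scale 43301 100 (kcg_3.enc h1 h2))⟩
noncomputable def kcg_88 : Fn2 := ⟨_, _, fun h1 h2 => (enc_add h1 (enc_rat _ 4 25))⟩
noncomputable def kcg_91 : Fn2 := ⟨_, _, fun h1 h2 => (enc_add h1 (enc_rat _ 563 2611))⟩
noncomputable def kcg_92 : Fn2 := ⟨_, _, fun h1 h2 => (enc_scale 150567616703441 121983500000000 h1)⟩
noncomputable def kcg_96 : Fn2 := ⟨_, _, fun h1 h2 => (enc_scale 50432223331007 48793400000000 h1)⟩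
noncomputable def kcg_106 : Fn2 := ⟨_, _, fun h1 h2 => (enc_sub (enc_rat _ 71 400) (enc_scale 21011 200 (kcg_3.enc h1 h2)))⟩
noncomputable def kcg_111 : Fn2 := ⟨_, _, fun h1 h2 => (enc_scale 199596926319 145240000000 h1)⟩
noncomputable def kcg_115 : Fn2 := ⟨_, _, fun h1 h2 => (enc_scale 143069632727 7262000000 h1)⟩
noncomputable def kcg_126 : Fn2 := ⟨_, _, fun h1 h2 => (enc_subr 581 200 (enc_neg (enc_scale 21013 200 (kcg_3.enc h1 h2))))⟩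
noncomputable def kcg_134 : Fn2 := ⟨_, _, fun h1 h2 => (enc_add h1 (enc_rat _ 3 25))⟩
noncomputable def kcg_135 : Fn2 := ⟨_, _, fun h1 h2 => (enc_scale 177507 100000 h1)⟩
noncomputable def kcg_139 : Fn2 := ⟨_, _, fun h1 h2 => (enc_scale 199893 10000 h1)⟩
noncomputable def kcg_148 : Fn2 := ⟨_, _, fun h1 h2 => (enc_subr 11961 2000 (enc_scale 27781 200 (kcg_3.enc h1 h2)))⟩
noncomputable def kcg_156 : Fn2 := ⟨_, _, fun h1 h2 => (enc_scale 225351 100000 h1)⟩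
noncomputable def kcg_160 : Fn2 := ⟨_, _, fun h1 h2 => (enc_scale 28871 10000 h1)⟩
noncomputable def kcg_166 : Fn2 := ⟨_, _, fun h1 h2 => (enc_subr 11961 2000 (kcg_24.enc h1 h2))⟩
noncomputable def kcg_171 : Fn2 := ⟨_, _, fun h1 h2 => (enc_scale 249273 100000 h1)⟩
noncomputable def kcg_175 : Fn2 := ⟨_, _, fun h1 h2 => (enc_mul (enc_norm (kcg_3.enc h1 h2)) (enc_scale 202073 10000 h1))⟩
noncomputable def kcg_183 : Fn2 := ⟨_, _, fun h1 h2 => (enc_sub (enc_rat _ 517 1531) h1)⟩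
noncomputable def kcg_184 : Fn2 := ⟨_, _, fun h1 h2 => (enc_sub (enc_rat _ 41 100) h1)⟩
noncomputable def kcg_185 : Fn2 := ⟨_, _, fun h1 h2 => (enc_sub (enc_rat _ 9 20) h1)⟩
noncomputable def kcg_208 : Fn2 := ⟨_, _, fun h1 h2 => (enc_sub (enc_rat _ 37 100) h1)⟩
noncomputable def kcg_231 : Fn2 := ⟨_, _, fun h1 h2 => (enc_sub (enc_rat _ 4 25) h1)⟩
noncomputable def kcg_232 : Fn2 := ⟨_, _, fun h1 h2 => (enc_sub (enc_rat _ 563 2611) h1)⟩
noncomputable def kcg_254 : Fn2 := ⟨_, _, fun h1 h2 => (enc_sub (enc_rat _ 3 25) h1)⟩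
noncomputable def kcg : Fn2 := ⟨_, _, fun h1 h2 => (enc_norm (enc_case h1 (enc_case (kcg_6.enc h1 h2) (enc_case (kcg_9.enc h1 h2) (enc_case (kcg_12.enc h1 h2) (enc_add (enc_add (enc_subr 144506843 200000000 (kcg_13.enc h1 h2)) (enc_mul (enc_norm (kcg_3.enc h1 h2)) (enc_norm (enc_add (kcg_17.enc h1 h2) (enc_rat _ 938197377 50000000))))) (enc_mul (enc_norm (kcg_28.enc h1 h2)) (enc_norm (enc_mul (enc_norm (enc_add h1 (enc_rat _ 1 2))) (enc_norm (enc_sub (enc_neg (enc_rat _ 9 20)) h1)))))) (enc_add (enc_add (enc_add (kcg_36.enc h1 h2) (enc_rat _ 123820561 2000000000)) (enc_mul (enc_norm (kcg_3.enc h1 h2)) (enc_norm (enc_add (kcg_39.enc h1 h2) (enc_rat _ 8891876043 400000000))))) (enc_mul (enc_norm (kcg_46.enc h1 h2)) (enc_norm (enc_mul (enc_norm (kcg_12.enc h1 h2)) (enc_norm (enc_sub (enc_neg (enc_rat _ 41 100)) h1))))))) (enc_case (kcg_54.enc h1 h2) (enc_add (enc_add (enc_add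 (kcg_55.enc h1 h2) (enc_rat _ 376348363 4000000000)) (enc_mul (enc_norm (kcg_3.enc h1 h2)) (enc_norm (enc_add (kcg_58.enc h1 h2) (enc_rat _ 2158367601 200000000))))) (enc_mul (enc_norm (kcg_64.enc h1 h2)) (enc_norm (enc_mul (enc_norm (kcg_9.enc h1 h2)) (enc_norm (enc_sub (enc_neg (enc_rat _ 37 100)) h1)))))) (enc_add (enc_add (enc_subr 809015151451 4947000000000 (kcg_69.enc h1 h2)) (enc_mul (enc_norm (kcg_3.enc h1 h2)) (enc_norm (enc_add (kcg_73.enc h1 h2) (enc_rat _ 74864048091 164900000000))))) (enc_mul (enc_norm (kcg_79.enc h1 h2)) (enc_norm (enc_mul (enc_norm (kcg_54.enc h1 h2)) (enc_norm (enc_sub (enc_neg (enc_rat _ 517 1531)) h1)))))))) (enc_case (kcg_88.enc h1 h2) (enc_case (kcg_91.enc h1 h2) (enc_add (enc_add (enc_subr 41682453550537 243967000000000 (kcg_92.enc h1 h2)) (enc_mul (enc_norm (kcg_3.enc h1 h2)) (enc_norm (enc_add (kcg_96.enc h1 h2) (enc_rat _ 580302748951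 9758680000000))))) (enc_mul (enc_norm (kcg_106.enc h1 h2)) (enc_norm (enc_mul (enc_norm (kcg_6.enc h1 h2)) (enc_norm (enc_sub (enc_neg (enc_rat _ 563 2611)) h1)))))) (enc_add (enc_add (enc_subr 127702866081 907750000000 (kcg_111.enc h1 h2)) (enc_mul (enc_norm (kcg_3.enc h1 h2)) (enc_norm (enc_add (kcg_115.enc h1 h2) (enc_rat _ 185393294927 45387500000))))) (enc_mul (enc_norm (kcg_126.enc h1 h2)) (enc_norm (enc_mul (enc_norm (kcg_91.enc h1 h2)) (enc_norm (enc_sub (enc_neg (enc_rat _ 4 25)) h1))))))) (enc_case (kcg_134.enc h1 h2) (enc_add (enc_add (enc_subr 11961 156250 (kcg_135.enc h1 h2)) (enc_mul (enc_norm (kcg_3.enc h1 h2)) (enc_norm (enc_add (kcg_139.enc h1 h2) (enc_rat _ 129087 31250))))) (enc_mul (enc_norm (kcg_148.enc h1 h2)) (enc_norm (enc_mul (enc_norm (kcg_88.enc h1 h2)) (enc_norm (enc_sub (enc_neg (enc_rat _ 3 25)) h1)))))) (enc_case (enc_add h1 (enc_rat _ 2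 25)) (enc_add (enc_add (enc_subr 11961 625000 (kcg_156.enc h1 h2)) (enc_mul (enc_norm (kcg_3.enc h1 h2)) (enc_norm (enc_sub (enc_rat _ 86601 62500) (kcg_160.enc h1 h2))))) (enc_mul (enc_norm (kcg_166.enc h1 h2)) (enc_norm (enc_mul (enc_norm (kcg_134.enc h1 h2)) (enc_norm (enc_sub (enc_neg (enc_rat _ 2 25)) h1)))))) (enc_sub (kcg_171.enc h1 h2) (kcg_175.enc h1 h2)))))) (enc_neg (enc_case (kcg_183.enc h1 h2) (enc_case (kcg_184.enc h1 h2) (enc_case (kcg_185.enc h1 h2) (enc_add (enc_add (enc_subr 144506843 200000000 (enc_neg (kcg_13.enc h1 h2))) (enc_mul (enc_norm (kcg_3.enc h1 h2)) (enc_norm (enc_sub (enc_rat _ 938197377 50000000) (kcg_17.enc h1 h2))))) (enc_mul (enc_norm (kcg_28.enc h1 h2)) (enc_norm (enc_mul (enc_norm (enc_sub (enc_rat _ 1 2) h1)) (enc_norm (enc_subr 9 20 h1)))))) (enc_add (enc_add (enc_sub (enc_rat _ 123820561 2000000000) (kcg_36.enc h1 h2)) (enc_mul (enc_norm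 (kcg_3.enc h1 h2)) (enc_norm (enc_sub (enc_rat _ 8891876043 400000000) (kcg_39.enc h1 h2))))) (enc_mul (enc_norm (kcg_46.enc h1 h2)) (enc_norm (enc_mul (enc_norm (kcg_185.enc h1 h2)) (enc_norm (enc_subr 41 100 h1))))))) (enc_case (kcg_208.enc h1 h2) (enc_add (enc_add (enc_sub (enc_rat _ 376348363 4000000000) (kcg_55.enc h1 h2)) (enc_mul (enc_norm (kcg_3.enc h1 h2)) (enc_norm (enc_sub (enc_rat _ 2158367601 200000000) (kcg_58.enc h1 h2))))) (enc_mul (enc_norm (kcg_64.enc h1 h2)) (enc_norm (enc_mul (enc_norm (kcg_184.enc h1 h2)) (enc_norm (enc_subr 37 100 h1)))))) (enc_add (enc_add (enc_subr 809015151451 4947000000000 (enc_neg (kcg_69.enc h1 h2))) (enc_mul (enc_norm (kcg_3.enc h1 h2)) (enc_norm (enc_sub (enc_rat _ 74864048091 164900000000) (kcg_73.enc h1 h2))))) (enc_mul (enc_norm (kcg_79.enc h1 h2)) (enc_norm (enc_mul (enc_norm (kcg_208.enc h1 h2)) (enc_norm (enc_subr 517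 1531 h1)))))))) (enc_case (kcg_231.enc h1 h2) (enc_case (kcg_232.enc h1 h2) (enc_add (enc_add (enc_subr 41682453550537 243967000000000 (enc_neg (kcg_92.enc h1 h2))) (enc_mul (enc_norm (kcg_3.enc h1 h2)) (enc_norm (enc_sub (enc_rat _ 580302748951 9758680000000) (kcg_96.enc h1 h2))))) (enc_mul (enc_norm (kcg_106.enc h1 h2)) (enc_norm (enc_mul (enc_norm (kcg_183.enc h1 h2)) (enc_norm (enc_subr 563 2611 h1)))))) (enc_add (enc_add (enc_subr 127702866081 907750000000 (enc_neg (kcg_111.enc h1 h2))) (enc_mul (enc_norm (kcg_3.enc h1 h2)) (enc_norm (enc_sub (enc_rat _ 185393294927 45387500000) (kcg_115.enc h1 h2))))) (enc_mul (enc_norm (kcg_126.enc h1 h2)) (enc_norm (enc_mul (enc_norm (kcg_232.enc h1 h2)) (enc_norm (enc_subr 4 25 h1))))))) (enc_case (kcg_254.enc h1 h2) (enc_add (enc_add (enc_subr 11961 156250 (enc_neg (kcg_135.enc h1 h2))) (enc_mul (enc_norm (kcg_3.enc h1 h2)) (enc_norm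 (enc_sub (enc_rat _ 129087 31250) (kcg_139.enc h1 h2))))) (enc_mul (enc_norm (kcg_148.enc h1 h2)) (enc_norm (enc_mul (enc_norm (kcg_231.enc h1 h2)) (enc_norm (enc_subr 3 25 h1)))))) (enc_case (enc_sub (enc_rat _ 2 25) h1) (enc_add (enc_add (enc_subr 11961 625000 (enc_neg (kcg_156.enc h1 h2))) (enc_mul (enc_norm (kcg_3.enc h1 h2)) (enc_norm (enc_add (kcg_160.enc h1 h2) (enc_rat _ 86601 62500))))) (enc_mul (enc_norm (kcg_166.enc h1 h2)) (enc_norm (enc_mul (enc_norm (kcg_254.enc h1 h2)) (enc_norm (enc_subr 2 25 h1)))))) (enc_sub (kcg_175.enc h1 h2) (kcg_171.enc h1 h2)))))))))⟩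
noncomputable def kf0q0_9 : Fn2 := ⟨_, _, fun h1 h2 => (enc_scale 3 2 h1)⟩
noncomputable def kf0q0_12 : Fn2 := ⟨_, _, fun h1 h2 => (enc_add (enc_pnc _ 1) (c1g.enc h1))⟩
noncomputable def kf0q0 : Fn2 := ⟨_, _, fun h1 h2 => (enc_norm (enc_add (enc_mul (enc_norm (enc_mul (enc_norm (enc_sub (c1g.enc h1) (kf0q0_9.enc h1 h2))) (enc_norm (kf0q0_12.enc h1 h2)))) (enc_inv (enc_sub (kf0q0_12.enc h1 h2) (kf0q0_9.enc h1 h2)))) (enc_mul h1 (kcg.enc (enc_norm (enc_sub (enc_scale 3 4 h1) (enc_half (c1g.enc h1)))) h2))))⟩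
noncomputable def txg_4 : Fn3 := ⟨_, _, fun h1 h2 h3 => (enc_subr 83 100 h3)⟩
noncomputable def txg_6 : Fn3 := ⟨_, _, fun h1 h2 h3 => (enc_add h1 (enc_half h2))⟩
noncomputable def txg_26 : Fn3 := ⟨_, _, fun h1 h2 h3 => (enc_add h1 (enc_rat _ 1 4))⟩
noncomputable def txg_29 : Fn3 := ⟨_, _, fun h1 h2 h3 => (enc_add h1 (enc_rat _ 39 100))⟩
noncomputable def txg_32 : Fn3 := ⟨_, _, fun h1 h2 h3 => (enc_add h1 (enc_rat _ 9 20))⟩
noncomputable def txg_57 : Fn3 := ⟨_, _, fun h1 h2 h3 => (enc_add h1 (enc_rat _ 21 50))⟩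
noncomputable def txg_98 : Fn3 := ⟨_, _, fun h1 h2 h3 => (enc_add h1 (enc_rat _ 33 100))⟩
noncomputable def txg_101 : Fn3 := ⟨_, _, fun h1 h2 h3 => (enc_add h1 (enc_rat _ 9 25))⟩
noncomputable def txg_144 : Fn3 := ⟨_, _, fun h1 h2 h3 => (enc_add h1 (enc_rat _ 3 10))⟩
noncomputable def txg_189 : Fn3 := ⟨_, _, fun h1 h2 h3 => (enc_add h1 (enc_rat _ 1 10))⟩
noncomputable def txg_192 : Fn3 := ⟨_, _, fun h1 h2 h3 => (enc_add h1 (enc_rat _ 1 5))⟩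
noncomputable def txg_211 : Fn3 := ⟨_, _, fun h1 h2 h3 => (enc_add h1 (enc_rat _ 3 20))⟩
noncomputable def txg_249 : Fn3 := ⟨_, _, fun h1 h2 h3 => (enc_subr 7 50 h1)⟩
noncomputable def txg_250 : Fn3 := ⟨_, _, fun h1 h2 h3 => (enc_subr 1 10 h1)⟩
noncomputable def txg_289 : Fn3 := ⟨_, _, fun h1 h2 h3 => (enc_subr 9 50 h1)⟩
noncomputable def txg_320 : Fn3 := ⟨_, _, fun h1 h2 h3 => (enc_sq (enc_norm (txg_4.enc h1 h2 h3)))⟩
noncomputable def txg_342 : Fn3 := ⟨_, _, fun h1 h2 h3 => (enc_subr 517 1531 h1)⟩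
noncomputable def txg_344 : Fn3 := ⟨_, _, fun h1 h2 h3 => (enc_subr 2 5 h1)⟩
noncomputable def txg_345 : Fn3 := ⟨_, _, fun h1 h2 h3 => (enc_subr 9 25 h1)⟩
noncomputable def txg_395 : Fn3 := ⟨_, _, fun h1 h2 h3 => (enc_subr 9 20 h1)⟩
noncomputable def txg : Fn3 := ⟨_, _, fun h1 h2 h3 => (enc_case (enc_subr 563 2611 h1) (enc_case (txg_26.enc h1 h2 h3) (enc_case (txg_29.enc h1 h2 h3) (enc_case (txg_32.enc h1 h2 h3) (enc_add (enc_add (enc_add (enc_scale 15909 50000 h1) (enc_rat _ 15909 100000)) (enc_mul (enc_norm (txg_4.enc h1 h2 h3)) (enc_norm (enc_add (enc_scale 833 4000 h1) (enc_rat _ 833 8000))))) (enc_mul (enc_norm (enc_subr 67 1000 (enc_neg (enc_scale 4217 200 (txg_4.enc h1 h2 h3))))) (enc_norm (enc_mul (enc_norm (enc_add h1 (enc_rat _ 1 2))) (enc_norm (enc_sub (enc_neg (enc_rat _ 9 20)) h1)))))) (enc_case (txg_57.enc h1 h2 h3) (enc_add (enc_add (enc_add (enc_scale 16729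 50000 h1) (enc_rat _ 16647 100000)) (enc_mul (enc_norm (txg_4.enc h1 h2 h3)) (enc_norm (enc_add (enc_scale 41567 20000 h1) (enc_rat _ 94567 100000))))) (enc_mul (enc_norm (enc_subr 87 200 (enc_neg (enc_scale 5439 200 (txg_4.enc h1 h2 h3))))) (enc_norm (enc_mul (enc_norm (txg_32.enc h1 h2 h3)) (enc_norm (enc_sub (enc_neg (enc_rat _ 21 50)) h1)))))) (enc_add (enc_add (enc_add (enc_scale 4891 12500 h1) (enc_rat _ 47571 250000)) (enc_mul (enc_norm (txg_4.enc h1 h2 h3)) (enc_norm (enc_add (enc_scale 19687 10000 h1) (enc_rat _ 899617 1000000))))) (enc_mul (enc_norm (enc_subr 291 200 (enc_scale 617 20 (txg_4.enc h1 h2 h3)))) (enc_norm (enc_mul (enc_norm (txg_57.enc h1 h2 h3)) (enc_norm (enc_sub (enc_neg (enc_rat _ 39 100)) h1)))))))) (enc_case (txg_98.enc h1 h2 h3) (enc_case (txg_101.enc h1 h2 h3) (enc_add (enc_add (enc_add (enc_scale 18791 40000 h1) (enc_rat _ 4417941 20000000))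 (enc_mul (enc_norm (txg_4.enc h1 h2 h3)) (enc_norm (enc_subr 12401 250000 (enc_neg (enc_scale 1163 2500 h1)))))) (enc_mul (enc_norm (enc_subr 2323 2000 (enc_scale 1257 25 (txg_4.enc h1 h2 h3)))) (enc_norm (enc_mul (enc_norm (txg_29.enc h1 h2 h3)) (enc_norm (enc_sub (enc_neg (enc_rat _ 9 25)) h1)))))) (enc_add (enc_add (enc_add (enc_scale 67399 200000 h1) (enc_rat _ 138477 800000)) (enc_mul (enc_norm (txg_4.enc h1 h2 h3)) (enc_norm (enc_subr 128401 500000 (enc_neg (enc_scale 4163 4000 h1)))))) (enc_mul (enc_norm (enc_sub (enc_rat _ 447 80) (enc_scale 6219 200 (txg_4.enc h1 h2 h3)))) (enc_norm (enc_mul (enc_norm (txg_101.enc h1 h2 h3)) (enc_norm (enc_sub (enc_neg (enc_rat _ 33 100)) h1))))))) (enc_case (txg_144.enc h1 h2 h3) (enc_add (enc_add (enc_add (enc_scale 1123 5000 h1) (enc_rat _ 1360059 10000000)) (enc_mul (enc_norm (txg_4.enc h1 h2 h3)) (enc_norm (enc_subr 18703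 2000000 (enc_neg (enc_scale 2909 10000 h1)))))) (enc_mul (enc_norm (enc_subr 1841 1000 (enc_scale 61 10 (txg_4.enc h1 h2 h3)))) (enc_norm (enc_mul (enc_norm (txg_98.enc h1 h2 h3)) (enc_norm (enc_sub (enc_neg (enc_rat _ 3 10)) h1)))))) (enc_add (enc_add (enc_add (enc_scale 58401 200000 h1) (enc_rat _ 781137 5000000)) (enc_mul (enc_norm (txg_4.enc h1 h2 h3)) (enc_norm (enc_sub (enc_rat _ 58397 2000000) (enc_scale 203 1250 h1))))) (enc_mul (enc_norm (enc_subr 487 2000 (enc_neg (enc_scale 623 100 (txg_4.enc h1 h2 h3))))) (enc_norm (enc_mul (enc_norm (txg_144.enc h1 h2 h3)) (enc_norm (enc_sub (enc_neg (enc_rat _ 1 4)) h1))))))))) (enc_case (txg_189.enc h1 h2 h3) (enc_case (txg_192.enc h1 h2 h3) (enc_add (enc_add (enc_add (enc_scale 27823 100000 h1) (enc_rat _ 3055673 20000000)) (enc_mul (enc_norm (txg_4.enc h1 h2 h3)) (enc_norm (enc_add (enc_scale 2777 20000 h1) (enc_rat _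 104511 1000000))))) (enc_mul (enc_norm (enc_add (enc_scale 41 200 (txg_4.enc h1 h2 h3)) (enc_rat _ 519 1000))) (enc_norm (enc_mul (enc_norm (txg_26.enc h1 h2 h3)) (enc_norm (enc_sub (enc_neg (enc_rat _ 1 5)) h1)))))) (enc_case (txg_211.enc h1 h2 h3) (enc_add (enc_add (enc_add (enc_scale 49261 200000 h1) (enc_rat _ 2927973 20000000)) (enc_mul (enc_norm (txg_4.enc h1 h2 h3)) (enc_norm (enc_add (enc_scale 1751 10000 h1) (enc_rat _ 111761 1000000))))) (enc_mul (enc_norm (enc_sub (enc_rat _ 239 2000) (enc_scale 93 100 (txg_4.enc h1 h2 h3)))) (enc_norm (enc_mul (enc_norm (txg_192.enc h1 h2 h3)) (enc_norm (enc_sub (enc_neg (enc_rat _ 3 20)) h1)))))) (enc_add (enc_add (enc_add (enc_scale 46871 200000 h1) (enc_rat _ 2892123 20000000)) (enc_mul (enc_norm (txg_4.enc h1 h2 h3)) (enc_norm (enc_sub (enc_rat _ 27193 500000) (enc_scale 1037 5000 h1))))) (enc_mul (enc_norm (enc_add (enc_scale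 429 50 (txg_4.enc h1 h2 h3)) (enc_rat _ 239 2000))) (enc_norm (enc_mul (enc_norm (txg_211.enc h1 h2 h3)) (enc_norm (enc_sub (enc_neg (enc_rat _ 1 10)) h1)))))))) (enc_case (txg_249.enc h1 h2 h3) (enc_case (txg_250.enc h1 h2 h3) (enc_add (enc_add (enc_add (enc_scale 4329 50000 h1) (enc_rat _ 2596573 20000000)) (enc_mul (enc_norm (txg_4.enc h1 h2 h3)) (enc_norm (enc_add (enc_scale 41 625 h1) (enc_rat _ 40843 500000))))) (enc_mul (enc_norm (enc_sub (enc_rat _ 709 1000) (enc_scale 351 100 (txg_4.enc h1 h2 h3)))) (enc_norm (enc_mul (enc_norm (txg_189.enc h1 h2 h3)) (enc_norm (enc_sub (enc_rat _ 1 10) h1)))))) (enc_add (enc_add (enc_sub (enc_rat _ 2864573 20000000) (enc_scale 2371 50000 h1)) (enc_mul (enc_norm (txg_4.enc h1 h2 h3)) (enc_norm (enc_add (enc_scale 2613 5000 h1) (enc_rat _ 17993 500000))))) (enc_mul (enc_norm (enc_subr 39 200 (enc_scale 49 8 (txg_4.enc h1 h2 h3))))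 (enc_norm (enc_mul (enc_norm (txg_250.enc h1 h2 h3)) (enc_norm (enc_sub (enc_rat _ 7 50) h1))))))) (enc_case (txg_289.enc h1 h2 h3) (enc_add (enc_add (enc_sub (enc_rat _ 2906293 20000000) (enc_scale 779 12500 h1)) (enc_mul (enc_norm (txg_4.enc h1 h2 h3)) (enc_norm (enc_add (enc_scale 99 1250 h1) (enc_rat _ 49031 500000))))) (enc_mul (enc_norm (enc_add (enc_scale 124 25 (txg_4.enc h1 h2 h3)) (enc_rat _ 227 400))) (enc_norm (enc_mul (enc_norm (txg_249.enc h1 h2 h3)) (enc_norm (enc_sub (enc_rat _ 9 50) h1)))))) (enc_add (enc_add (enc_add (enc_sub (enc_rat _ 92932094630205331 607188050000000000) (enc_scale 1278885369994759 12143761000000000 h1)) (enc_mul (enc_norm (txg_4.enc h1 h2 h3)) (enc_norm (enc_add (enc_scale 5370548737247 151797012500000 h1) (enc_rat _ 804141903863527 7589850625000000))))) (enc_mul (txg_320.enc h1 h2 h3) (enc_norm (enc_subr 24485960529 116275000000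 (enc_scale 2720662281 2325500000 h1))))) (enc_mul (enc_norm (enc_add (enc_mul (enc_norm (enc_subr 4339 1000 (enc_neg (enc_scale 821 25 (txg_4.enc h1 h2 h3))))) (enc_norm (txg_4.enc h1 h2 h3))) (enc_rat _ 356 625))) (enc_norm (enc_mul (enc_norm (txg_289.enc h1 h2 h3)) (enc_norm (enc_sub (enc_rat _ 563 2611) h1)))))))))) (enc_case (txg_342.enc h1 h2 h3) (enc_sub (enc_mul (enc_norm (enc_sub (enc_pnc _ 1) h2)) (enc_norm (enc_subn 1 (enc_nat 2 h2)))) (enc_mul (enc_norm (enc_nat 2 (enc_sub (enc_scale 4 3 (txg_6.enc h1 h2 h3)) h3))) (enc_norm (enc_mul (enc_norm (enc_subn 1 (enc_add (enc_scale 2 3 (txg_6.enc h1 h2 h3)) h2))) (kcg.enc h1 h3))))) (enc_case (txg_344.enc h1 h2 h3) (enc_case (txg_345.enc h1 h2 h3) (enc_add (enc_add (enc_add (enc_sub (enc_rat _ 2518464029446339 9339100000000000) (enc_scale 189600919052371 373564000000000 h1)) (enc_mul (enc_norm (txg_4.enc h1 h2 h3))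 (enc_norm (enc_subr 476621282757969 6537370000000000 (enc_scale 133531005556441 261494800000000 h1))))) (enc_mul (txg_320.enc h1 h2 h3) (enc_norm (enc_sub (enc_rat _ 4951551411 6100000000) (enc_scale 550172379 244000000 h1))))) (enc_mul (enc_norm (enc_add (enc_mul (enc_norm (enc_subr 3932 125 (enc_neg (enc_scale 5053 50 (txg_4.enc h1 h2 h3))))) (enc_norm (txg_4.enc h1 h2 h3))) (enc_rat _ 2943 625))) (enc_norm (enc_mul (enc_norm (txg_342.enc h1 h2 h3)) (enc_norm (enc_sub (enc_rat _ 9 25) h1)))))) (enc_add (enc_add (enc_sub (enc_rat _ 1230601 4000000) (enc_scale 12261 20000 h1)) (enc_mul (enc_norm (txg_4.enc h1 h2 h3)) (enc_norm (enc_sub (enc_rat _ 909 8000) (enc_scale 3 400 h1))))) (enc_mul (enc_norm (enc_add (enc_scale 61 2 (txg_4.enc h1 h2 h3)) (enc_rat _ 11 1000))) (enc_norm (enc_mul (enc_norm (txg_345.enc h1 h2 h3)) (enc_norm (enc_sub (enc_rat _ 2 5) h1))))))) (enc_case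 (txg_395.enc h1 h2 h3) (enc_add (enc_add (enc_sub (enc_rat _ 246773 800000) (enc_scale 61509 100000 h1)) (enc_mul (enc_norm (txg_4.enc h1 h2 h3)) (enc_norm (enc_sub (enc_rat _ 23877 40000) (enc_scale 4863 4000 h1))))) (enc_mul (enc_norm (enc_sub (enc_rat _ 4 125) (enc_scale 47 200 (txg_4.enc h1 h2 h3)))) (enc_norm (enc_mul (enc_norm (txg_344.enc h1 h2 h3)) (enc_norm (enc_sub (enc_rat _ 9 20) h1)))))) (enc_add (enc_add (enc_sub (enc_rat _ 126703 400000) (enc_scale 126703 200000 h1)) (enc_mul (enc_norm (txg_4.enc h1 h2 h3)) (enc_norm (enc_sub (enc_rat _ 3987 8000) (enc_scale 3987 4000 h1))))) (enc_mul (enc_norm (enc_sub (enc_rat _ 673 2000) (enc_scale 829 200 (txg_4.enc h1 h2 h3)))) (enc_norm (enc_mul (enc_norm (txg_395.enc h1 h2 h3)) (enc_norm (enc_sub (enc_rat _ 1 2) h1))))))))))⟩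
noncomputable def l0q0 : Fn2 := ⟨_, _, fun h1 h2 => (enc_norm (txg.enc (enc_norm (enc_sub (enc_scale 3 4 h1) (enc_half (c1g.enc h1)))) (c1g.enc h1) h2))⟩
noncomputable def kc0q0_3 : Fn2 := ⟨_, _, fun h1 h2 => (enc_subr 83 100 h2)⟩
noncomputable def kc0q0_8 : Fn2 := ⟨_, _, fun h1 h2 => (enc_sub (enc_scale 3 4 h1) (enc_half (c1g.enc h1)))⟩
noncomputable def kc0q0_15 : Fn2 := ⟨_, _, fun h1 h2 => (enc_scale 1892 835 (kc0q0_8.enc h1 h2))⟩
noncomputable def kc0q0 : Fn2 := ⟨_, _, fun h1 h2 => (enc_norm (enc_case (enc_add (kc0q0_8.enc h1 h2) (enc_rat _ 167 1000)) (enc_case (enc_add (kc0q0_8.enc h1 h2) (enc_rat _ 333 1000)) (enc_add (enc_add (kc0q0_15.enc h1 h2) (enc_rat _ 946 835)) (enc_mul (enc_norm (kc0q0_3.enc h1 h2)) (enc_norm (enc_subr 73201 334 (enc_neg (enc_scale 73201 167 (kc0q0_8.enc h1 h2))))))) (enc_add (enc_add (enc_scale 1881 830 (kc0q0_8.enc h1 h2)) (enc_rat _ 188089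 166000)) (enc_mul (enc_norm (kc0q0_3.enc h1 h2)) (enc_norm (enc_subr 38531 1328 (enc_scale 22027 166 (kc0q0_8.enc h1 h2))))))) (enc_case (kc0q0_8.enc h1 h2) (enc_add (enc_add (kc0q0_15.enc h1 h2) (enc_rat _ 1133 1000)) (enc_mul (enc_norm (kc0q0_3.enc h1 h2)) (enc_norm (enc_subr 29013 1000 (enc_scale 22161 167 (kc0q0_8.enc h1 h2)))))) (enc_add (enc_add (enc_scale 637806669969 281500000000 (kc0q0_8.enc h1 h2)) (enc_rat _ 1133 1000)) (enc_mul (enc_norm (kc0q0_3.enc h1 h2)) (enc_norm (enc_subr 29013 1000 (enc_scale 373530912426203 2815000000000 (kc0q0_8.enc h1 h2)))))))))⟩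
noncomputable def kf0q1_10 : Fn2 := ⟨_, _, fun h1 h2 => (enc_scale 3 2 h1)⟩
noncomputable def kf0q1 : Fn2 := ⟨_, _, fun h1 h2 => (enc_norm (enc_add (enc_mul (enc_norm (enc_mul (enc_norm (enc_add (enc_pnc _ 1) (enc_nat 2 (c1g.enc h1)))) (enc_norm (enc_sub (kf0q1_10.enc h1 h2) (c1g.enc h1))))) (enc_inv (enc_nat 2 (enc_sub (enc_add (enc_pnc _ 1) (kf0q1_10.enc h1 h2)) (c1g.enc h1))))) (enc_mul (enc_norm (enc_subn 1 h1)) (kcg.enc (enc_norm (enc_sub (enc_scale 3 4 h1) (enc_half (c1g.enc h1)))) h2))))⟩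
noncomputable def l0q1 : Fn2 := ⟨_, _, fun h1 h2 => (enc_norm (txg.enc (enc_norm (enc_sub (enc_scale 3 4 h1) (enc_half (c1g.enc h1)))) (c1g.enc h1) h2))⟩
noncomputable def gsg : Fn1 := ⟨_, _, fun h1 => (enc_sqrt (enc_sub (enc_pnc _ 1) (enc_scale 3 4 (enc_sq h1))))⟩
noncomputable def gug : Fn1 := ⟨_, _, fun h1 => (enc_norm (enc_add (enc_scale 3 4 h1) (enc_scale 3 2 (enc_sub (enc_pnc _ 1) (gsg.enc h1)))))⟩
noncomputable def kc0q1_3 : Fn2 := ⟨_, _, fun h1 h2 => (enc_subr 83 100 h2)⟩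
noncomputable def kc0q1_9 : Fn2 := ⟨_, _, fun h1 h2 => (enc_sub (enc_scale 3 4 h1) (enc_half (c1g.enc h1)))⟩
noncomputable def kc0q1_45 : Fn2 := ⟨_, _, fun h1 h2 => (enc_scale 1892 835 (kc0q1_9.enc h1 h2))⟩
noncomputable def kc0q1 : Fn2 := ⟨_, _, fun h1 h2 => (enc_norm (enc_case (enc_subr 563 2611 (kc0q1_9.enc h1 h2)) (enc_case (enc_add (kc0q1_9.enc h1 h2) (enc_rat _ 167 1000)) (enc_case (enc_add (kc0q1_9.enc h1 h2) (enc_rat _ 333 1000)) (enc_add (enc_add (kc0q1_45.enc h1 h2) (enc_rat _ 946 835)) (enc_mul (enc_norm (kc0q1_3.enc h1 h2)) (enc_norm (enc_subr 73201 334 (enc_neg (enc_scale 73201 167 (kc0q1_9.enc h1 h2))))))) (enc_add (enc_add (enc_scale 1881 830 (kc0q1_9.enc h1 h2)) (enc_rat _ 188089 166000)) (enc_mul (enc_norm (kc0q1_3.enc h1 h2)) (enc_norm (enc_subr 38531 1328 (enc_scale 22027 166 (kc0q1_9.enc h1 h2))))))) (enc_case (kc0q1_9.enc h1 h2) (enc_add (enc_add (kc0q1_45.enc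 h1 h2) (enc_rat _ 1133 1000)) (enc_mul (enc_norm (kc0q1_3.enc h1 h2)) (enc_norm (enc_subr 29013 1000 (enc_scale 22161 167 (kc0q1_9.enc h1 h2)))))) (enc_add (enc_add (enc_scale 637806669969 281500000000 (kc0q1_9.enc h1 h2)) (enc_rat _ 1133 1000)) (enc_mul (enc_norm (kc0q1_3.enc h1 h2)) (enc_norm (enc_subr 29013 1000 (enc_scale 373530912426203 2815000000000 (kc0q1_9.enc h1 h2)))))))) (enc_case (enc_subr 517 1531 (kc0q1_9.enc h1 h2)) (enc_sub (enc_add (enc_add (enc_rat _ 3 4) (enc_scale 3 2 h1)) (enc_scale 3 4 (enc_mul (enc_norm (enc_mul h1 (enc_inv (c1g.enc h1)))) (gug.enc h1)))) (enc_mul (kcg.enc (enc_norm (kc0q1_9.enc h1 h2)) h2) (enc_norm (enc_add (gug.enc h1) (enc_nat 2 (c1g.enc h1)))))) (enc_add (enc_sub (enc_rat _ 14009273789109 2485000000000) (enc_scale 14009273789109 1242500000000 (kc0q1_9.enc h1 h2))) (enc_mul (enc_norm (kc0q1_3.enc h1 h2)) (enc_norm (enc_subr 11012134512249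 4970000000000 (enc_scale 11012134512249 2485000000000 (kc0q1_9.enc h1 h2)))))))))⟩
noncomputable def yag : Fn1 := ⟨_, _, fun h1 => (enc_sqrt (enc_scale 4 3 (enc_sub (enc_pnc _ 1) (enc_sq h1))))⟩
noncomputable def kfc02 : Fn2 := ⟨_, _, fun h1 h2 => (enc_norm (enc_add h1 (enc_mul (enc_norm (enc_subn 1 (yag.enc h1))) (kcg.enc (enc_neg h1) h2))))⟩
noncomputable def lc02_7 : Fn2 := ⟨_, _, fun h1 h2 => (enc_scale 3 4 (yag.enc h1))⟩
noncomputable def lc02_8 : Fn2 := ⟨_, _, fun h1 h2 => (enc_half h1)⟩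
noncomputable def lc02 : Fn2 := ⟨_, _, fun h1 h2 => (enc_norm (enc_sub (txg.enc (enc_neg h1) (enc_norm (enc_add (lc02_7.enc h1 h2) (lc02_8.enc h1 h2))) h2) (txg.enc h1 (enc_norm (enc_sub (lc02_7.enc h1 h2) (lc02_8.enc h1 h2))) h2)))⟩
noncomputable def kcc02 : Fn2 := ⟨_, _, fun h1 h2 => (enc_pnc _ 0)⟩
noncomputable def swg : Fn1 := ⟨_, _, fun h1 => (enc_sqrt (enc_sub (enc_pnc _ 1) (enc_scale 3 4 (enc_sq (enc_norm (enc_subn 1 h1))))))⟩
noncomputable def cv1m : Fn1 := ⟨_, _, fun h1 => (enc_norm (enc_add (enc_scale 3 5 (c1g.enc h1)) (enc_scale 2 5 (enc_add (swg.enc h1) (enc_rat _ 1 2)))))⟩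
noncomputable def bf1q0_3 : Fn2 := ⟨_, _, fun h1 h2 => (enc_subr 83 100 h2)⟩
noncomputable def bf1q0 : Fn2 := ⟨_, _, fun h1 h2 => (enc_norm (enc_case (enc_subr 1 16 h1) (enc_sub (enc_sub (enc_pnc _ 1) (enc_scale 10309 6250 h1)) (enc_mul (enc_norm (bf1q0_3.enc h1 h2)) (enc_scale 91 25 h1))) (enc_case (enc_subr 3 25 h1) (enc_add (enc_sub (enc_rat _ 1150009 1150000) (enc_scale 1897 1150 h1)) (enc_mul (enc_norm (bf1q0_3.enc h1 h2)) (enc_norm (enc_subr 1101 4600 (enc_scale 109 575 h1))))) (enc_add (enc_sub (enc_rat _ 183319 190000) (enc_scale 25773 19000 h1)) (enc_mul (enc_norm (bf1q0_3.enc h1 h2)) (enc_norm (enc_subr 11361 47500 (enc_scale 143 760 h1))))))))⟩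
noncomputable def kf1q0 : Fn2 := ⟨_, _, fun h1 h2 => (enc_norm (enc_mul (cv1m.enc h1) (bf1q0.enc h1 h2)))⟩
noncomputable def bx1q0_3 : Fn2 := ⟨_, _, fun h1 h2 => (enc_subr 83 100 h2)⟩
noncomputable def bx1q0 : Fn2 := ⟨_, _, fun h1 h2 => (enc_norm (enc_case (enc_subr 3 25 h1) (enc_case (enc_subr 1 16 h1) (enc_add (enc_scale 1462 3125 h1) (enc_mul (enc_norm (bx1q0_3.enc h1 h2)) (enc_scale 9 25 h1))) (enc_add (enc_add (enc_scale 1002 2875 h1) (enc_rat _ 536 71875)) (enc_mul (enc_norm (bx1q0_3.enc h1 h2)) (enc_norm (enc_subr 1 9200 (enc_scale 208 575 h1)))))) (enc_case (enc_subr 11 50 h1) (enc_add (enc_add (enc_scale 2353 10000 h1) (enc_rat _ 5261 250000)) (enc_mul (enc_norm (bx1q0_3.enc h1 h2)) (enc_norm (enc_subr 8653 50000 (enc_scale 1803 1000 h1))))) (enc_add (enc_add (enc_scale 2033 28000 h1) (enc_rat _ 79571 1400000)) (enc_mul (enc_norm (bx1q0_3.enc h1 h2)) (enc_norm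 (enc_sub (enc_rat _ 46099 140000) (enc_scale 269 560 h1))))))))⟩
noncomputable def l1q0 : Fn2 := ⟨_, _, fun h1 h2 => (enc_norm (enc_mul (cv1m.enc h1) (bx1q0.enc h1 h2)))⟩
noncomputable def bd1q0_3 : Fn2 := ⟨_, _, fun h1 h2 => (enc_subr 83 100 h2)⟩
noncomputable def bd1q0_6 : Fn2 := ⟨_, _, fun h1 h2 => (enc_scale 3809 200 h1)⟩
noncomputable def bd1q0 : Fn2 := ⟨_, _, fun h1 h2 => (enc_norm (enc_case (enc_subr 3 25 h1) (enc_sub (enc_mul (enc_norm (bd1q0_3.enc h1 h2)) (enc_scale 793 12 h1)) (bd1q0_6.enc h1 h2)) (enc_case (enc_subr 11 50 h1) (enc_sub (enc_mul (enc_norm (bd1q0_3.enc h1 h2)) (enc_norm (enc_add (enc_scale 207 25 h1) (enc_rat _ 17341 2500)))) (bd1q0_6.enc h1 h2)) (enc_add (enc_subr 72347 20000 (enc_neg (enc_scale 1041 400 h1))) (enc_mul (enc_norm (bd1q0_3.enc h1 h2)) (enc_norm (enc_add (enc_scale 1159 140 h1) (enc_rat _ 48557 7000))))))))⟩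
noncomputable def kc1q0 : Fn2 := ⟨_, _, fun h1 h2 => (enc_norm (enc_mul (cv1m.enc h1) (bd1q0.enc h1 h2)))⟩
noncomputable def bf1q1 : Fn2 := ⟨_, _, fun h1 h2 => (enc_norm (enc_add (enc_subr 18731 20000 (enc_scale 83179 50000 h1)) (enc_mul (enc_norm (enc_subr 83 100 h2)) (enc_norm (enc_subr 444263 10000 (enc_scale 231371 5000 h1))))))⟩
noncomputable def kf1q1 : Fn2 := ⟨_, _, fun h1 h2 => (enc_norm (enc_mul (cv1m.enc h1) (bf1q1.enc h1 h2)))⟩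
noncomputable def bx1q1_3 : Fn2 := ⟨_, _, fun h1 h2 => (enc_subr 83 100 h2)⟩
noncomputable def bx1q1 : Fn2 := ⟨_, _, fun h1 h2 => (enc_norm (enc_case (enc_subr 15 16 h1) (enc_add (enc_add (enc_scale 1588 21875 h1) (enc_rat _ 3979 70000)) (enc_mul (enc_norm (bx1q1_3.enc h1 h2)) (enc_norm (enc_sub (enc_rat _ 23053 70000) (enc_scale 2102 4375 h1))))) (enc_add (enc_add (enc_scale 453 6250 h1) (enc_rat _ 1139 20000)) (enc_mul (enc_norm (bx1q1_3.enc h1 h2)) (enc_norm (enc_sub (enc_rat _ 3289 10000) (enc_scale 12 25 h1)))))))⟩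
noncomputable def l1q1 : Fn2 := ⟨_, _, fun h1 h2 => (enc_norm (enc_mul (cv1m.enc h1) (bx1q1.enc h1 h2)))⟩
noncomputable def bd1q1 : Fn2 := ⟨_, _, fun h1 h2 => (enc_norm (enc_add (enc_subr 18087 5000 (enc_neg (enc_scale 3253 1250 h1))) (enc_mul (enc_norm (enc_subr 83 100 h2)) (enc_norm (enc_add (enc_scale 2069 250 h1) (enc_rat _ 3469 500))))))⟩
noncomputable def kc1q1 : Fn2 := ⟨_, _, fun h1 h2 => (enc_norm (enc_mul (cv1m.enc h1) (bd1q1.enc h1 h2)))⟩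
noncomputable def xc12a : Fn1 := ⟨_, _, fun h1 => (enc_norm (enc_add (enc_scale 3 5 h1) (enc_scale 2 5 (enc_subr 1 2 (swg.enc (yag.enc h1))))))⟩
noncomputable def bf1q2_3 : Fn2 := ⟨_, _, fun h1 h2 => (enc_subr 83 100 h2)⟩
noncomputable def bf1q2 : Fn2 := ⟨_, _, fun h1 h2 => (enc_norm (enc_case (enc_subr 277 250 h1) (enc_case (enc_subr 17 16 h1) (enc_add (enc_sub (enc_rat _ 9623 3125) (enc_scale 6498 3125 h1)) (enc_mul (enc_norm (bf1q2_3.enc h1 h2)) (enc_norm (enc_sub (enc_rat _ 10834 625) (enc_scale 10834 625 h1))))) (enc_add (enc_sub (enc_rat _ 34749739 9100000) (enc_scale 12627 4550 h1)) (enc_mul (enc_norm (bf1q2_3.enc h1 h2)) (enc_norm (enc_subr 2348717 130000 (enc_scale 1039 65 h1)))))) (enc_case (enc_subr 577 500 h1) (enc_add (enc_sub (enc_rat _ 2195626067 575000000) (enc_scale 6382521 2300000 h1)) (enc_mul (enc_norm (bf1q2_3.enc h1 h2)) (enc_norm (enc_subr 4823689267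 57500000 (enc_scale 17340121 230000 h1))))) (enc_case (enc_subr 231 200 h1) (enc_add (enc_sub (enc_rat _ 349273 100000) (enc_scale 249273 100000 h1)) (enc_mul (enc_norm (bf1q2_3.enc h1 h2)) (enc_norm (enc_subr 202073 10000 (enc_scale 202073 10000 h1))))) (enc_add (enc_sub (enc_rat _ 16066481 4600000) (enc_scale 17199737 6900000 h1)) (enc_mul (enc_norm (bf1q2_3.enc h1 h2)) (enc_norm (enc_subr 1859087 92000 (enc_scale 13943137 690000 h1)))))))))⟩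
noncomputable def kfc12a : Fn2 := ⟨_, _, fun h1 h2 => (enc_norm (enc_mul (enc_norm (enc_add (enc_scale 3 5 h1) (enc_scale 2 5 (enc_subr 1 2 (swg.enc (yag.enc h1)))))) (bf1q2.enc (yag.enc h1) h2)))⟩
noncomputable def bx1q2_3 : Fn2 := ⟨_, _, fun h1 h2 => (enc_subr 83 100 h2)⟩
noncomputable def bx1q2 : Fn2 := ⟨_, _, fun h1 h2 => (enc_norm (enc_case (enc_subr 577 500 h1) (enc_case (enc_subr 17 16 h1) (enc_add (enc_sub (enc_rat _ 1812 3125) (enc_scale 1812 3125 h1)) (enc_mul (enc_norm (bx1q2_3.enc h1 h2)) (enc_norm (enc_sub (enc_rat _ 1311 625) (enc_scale 1311 625 h1))))) (enc_case (enc_subr 277 250 h1) (enc_sub (enc_sub (enc_rat _ 288788 284375) (enc_scale 2252 2275 h1)) (enc_scale 1311 10000 (bx1q2_3.enc h1 h2))) (enc_add (enc_sub (enc_rat _ 612901 287500) (enc_scale 2297 1150 h1)) (enc_mul (enc_norm (bx1q2_3.enc h1 h2)) (enc_norm (enc_subr 29599 230000 (enc_neg (enc_scale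 1 460 h1)))))))) (enc_case (enc_subr 231 200 h1) (enc_sub (enc_neg (enc_rat _ 4329 25000)) (enc_scale 82 625 (bx1q2_3.enc h1 h2))) (enc_case (enc_subr 1213 1000 h1) (enc_add (enc_subr 11229543 5800000 (enc_scale 8853 5800 h1)) (enc_mul (enc_norm (bx1q2_3.enc h1 h2)) (enc_norm (enc_subr 77251 580000 (enc_scale 1 580 h1))))) (enc_add (enc_subr 7942789 4100000 (enc_scale 3131 2050 h1)) (enc_mul (enc_norm (bx1q2_3.enc h1 h2)) (enc_norm (enc_subr 307033 287000 (enc_scale 2221 2870 h1)))))))))⟩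
noncomputable def lc12a : Fn2 := ⟨_, _, fun h1 h2 => (enc_norm (enc_mul (enc_norm (enc_add (enc_scale 3 5 h1) (enc_scale 2 5 (enc_subr 1 2 (swg.enc (yag.enc h1)))))) (bx1q2.enc (yag.enc h1) h2)))⟩
noncomputable def bd1q2 : Fn2 := ⟨_, _, fun h1 h2 => (enc_norm (enc_case (enc_subr 577 500 h1) (enc_pnc _ 0) (enc_case (enc_subr 231 200 h1) (enc_pnc _ 0) (enc_subr 651959 115000 (enc_scale 8467 1725 h1)))))⟩
noncomputable def kcc12a : Fn2 := ⟨_, _, fun h1 h2 => (enc_norm (enc_mul (enc_norm (enc_add (enc_scale 3 5 h1) (enc_scale 2 5 (enc_subr 1 2 (swg.enc (yag.enc h1)))))) (bd1q2.enc (yag.enc h1) h2)))⟩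
noncomputable def xc12b : Fn1 := ⟨_, _, fun h1 => (enc_norm (enc_scale 2 5 (enc_subr 1 2 (swg.enc h1))))⟩
noncomputable def kfc12b : Fn2 := ⟨_, _, fun h1 h2 => (enc_norm (enc_mul (enc_norm (enc_scale 2 5 (enc_subr 1 2 (swg.enc h1)))) (bf1q2.enc h1 h2)))⟩
noncomputable def lc12b : Fn2 := ⟨_, _, fun h1 h2 => (enc_norm (enc_mul (enc_norm (enc_scale 2 5 (enc_subr 1 2 (swg.enc h1)))) (bx1q2.enc h1 h2)))⟩
noncomputable def kcc12b : Fn2 := ⟨_, _, fun h1 h2 => (enc_norm (enc_mul (enc_norm (enc_scale 2 5 (enc_subr 1 2 (swg.enc h1)))) (bd1q2.enc h1 h2)))⟩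
noncomputable def cv1r : Fn1 := ⟨_, _, fun h1 => (enc_norm (enc_scale 2 5 (enc_subr 1 2 (swg.enc h1))))⟩
noncomputable def c3g : Fn1 := ⟨_, _, fun h1 => (enc_sqrtg (enc_sub (enc_pnc _ 3) (enc_scale 3 4 (enc_sq h1))))⟩
noncomputable def kf1q3_4 : Fn2 := ⟨_, _, fun h1 h2 => (enc_subr 83 100 h2)⟩
noncomputable def kf1q3 : Fn2 := ⟨_, _, fun h1 h2 => (enc_norm (enc_mul (cv1r.enc h1) (enc_norm (enc_case (enc_subr 89 50 h1) (enc_add (enc_sub (enc_rat _ 16479 21875) (enc_scale 9721 14000 h1)) (enc_mul (enc_norm (kf1q3_4.enc h1 h2)) (enc_norm (enc_subr 15176401 140000 (enc_scale 33583 560 h1))))) (enc_case (enc_subr 47 25 h1) (enc_add (enc_sub (enc_rat _ 376701 500000) (enc_scale 434 625 h1)) (enc_mul (enc_norm (kf1q3_4.enc h1 h2)) (enc_norm (enc_subr 216807 2000 (enc_scale 5997 100 h1))))) (enc_add (enc_subr 76623 100000 (enc_scale 53540000 147732867 (c3g.enc h1))) (enc_mul (enc_norm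 (kf1q3_4.enc h1 h2)) (enc_norm (enc_add (enc_scale 585700000 147732867 (c3g.enc h1)) (enc_rat _ 19973 10000))))))))))⟩
noncomputable def l1q3_4 : Fn2 := ⟨_, _, fun h1 h2 => (enc_subr 83 100 h2)⟩
noncomputable def l1q3 : Fn2 := ⟨_, _, fun h1 h2 => (enc_norm (enc_mul (cv1r.enc h1) (enc_norm (enc_case (enc_subr 89 50 h1) (enc_add (enc_subr 2761231 1400000 (enc_scale 43419 28000 h1)) (enc_mul (enc_norm (l1q3_4.enc h1 h2)) (enc_norm (enc_subr 29957 28000 (enc_scale 2167 2800 h1))))) (enc_case (enc_subr 47 25 h1) (enc_add (enc_subr 246521 125000 (enc_scale 7753 5000 h1)) (enc_mul (enc_norm (l1q3_4.enc h1 h2)) (enc_norm (enc_subr 53501 50000 (enc_scale 387 500 h1))))) (enc_add (enc_sub (enc_rat _ 3366 3125) (enc_scale 11180000 49244289 (c3g.enc h1))) (enc_mul (enc_norm (l1q3_4.enc h1 h2)) (enc_norm (enc_subr 521 400 (enc_scale 421900000 147732867 (c3g.enc h1)))))))))))⟩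
noncomputable def kc1q3_4 : Fn2 := ⟨_, _, fun h1 h2 => (enc_subr 83 100 h2)⟩
noncomputable def kc1q3 : Fn2 := ⟨_, _, fun h1 h2 => (enc_norm (enc_mul (cv1r.enc h1) (enc_norm (enc_case (enc_subr 47 25 h1) (enc_add (enc_subr 1077229 190000 (enc_scale 18653 3800 h1)) (enc_mul (enc_norm (kc1q3_4.enc h1 h2)) (enc_norm (enc_subr 3 760 (enc_scale 1 380 h1))))) (enc_add (enc_subr 157 1250 (enc_scale 307025000 49244289 (c3g.enc h1))) (enc_mul (enc_norm (kc1q3_4.enc h1 h2)) (enc_norm (enc_sub (enc_rat _ 763 200) (enc_scale 953500000 147732867 (c3g.enc h1))))))))))⟩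
noncomputable def cv2m : Fn1 := ⟨_, _, fun h1 => (enc_norm (enc_add (enc_scale 17 20 (enc_add (swg.enc h1) (enc_rat _ 1 2))) (enc_scale 3 20 (c3g.enc h1))))⟩
noncomputable def esg : Fn1 := ⟨_, _, fun h1 => (enc_norm (enc_subn 1 (enc_add (enc_half h1) (gsg.enc h1))))⟩
noncomputable def kf2q0_4 : Fn2 := ⟨_, _, fun h1 h2 => (enc_subr 83 100 h2)⟩
noncomputable def kf2q0_42 : Fn2 := ⟨_, _, fun h1 h2 => (enc_sub (enc_pnc _ 1) h1)⟩
noncomputable def kf2q0_43 : Fn2 := ⟨_, _, fun h1 h2 => (gsg.enc (enc_norm (kf2q0_42.enc h1 h2)))⟩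
noncomputable def kf2q0_46 : Fn2 := ⟨_, _, fun h1 h2 => (enc_sub (enc_scale 3 4 (kf2q0_42.enc h1 h2)) (enc_half (kf2q0_43.enc h1 h2)))⟩
noncomputable def kf2q0_64 : Fn2 := ⟨_, _, fun h1 h2 => (enc_mul (cv1m.enc h1) (bf1q0.enc h1 h2))⟩
noncomputable def kf2q0 : Fn2 := ⟨_, _, fun h1 h2 => (enc_norm (enc_case (enc_subr 3 25 h1) (enc_mul (cv2m.enc h1) (enc_norm (enc_case (enc_subr 1 16 h1) (enc_add (enc_sub (enc_rat _ 89061 100000) (enc_scale 10883 6250 h1)) (enc_mul (enc_norm (kf2q0_4.enc h1 h2)) (enc_norm (enc_subr 2519 10000 (enc_scale 1927 625 h1))))) (enc_add (enc_sub (enc_rat _ 1944365303 1840000000) (enc_scale 505890103 115000000 h1)) (enc_mul (enc_norm (kf2q0_4.enc h1 h2)) (enc_norm (enc_subr 231751291 920000000 (enc_scale 177287291 57500000 h1)))))))) (enc_case (enc_subr 11 50 h1) (enc_add (kf2q0_64.enc h1 h2) (enc_mul (enc_norm (enc_mul (enc_norm (enc_sub (enc_mul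 h1 (enc_norm (enc_sub (enc_mul (enc_norm (enc_sub (kf2q0_46.enc h1 h2) (enc_sub (enc_rat _ 1 4) (enc_scale 3 8 (enc_mul (enc_norm (kf2q0_42.enc h1 h2)) (enc_inv (kf2q0_43.enc h1 h2))))))) (enc_inv (esg.enc (enc_norm (kf2q0_42.enc h1 h2))))) (kcg.enc (enc_norm (kf2q0_46.enc h1 h2)) h2)))) (kf2q0_64.enc h1 h2))) (enc_norm (enc_sub (cv2m.enc h1) (cv1m.enc h1))))) (enc_inv (enc_sub (enc_add (swg.enc h1) (enc_rat _ 1 2)) (cv1m.enc h1))))) (enc_mul (cv2m.enc h1) (enc_norm (enc_add (enc_sub (enc_rat _ 388723911 350000000) (enc_scale 616286911 175000000 h1)) (enc_mul (enc_norm (kf2q0_4.enc h1 h2)) (enc_norm (enc_sub (enc_rat _ 1144883927 280000000) (enc_scale 2579939927 140000000 h1))))))))))⟩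
noncomputable def qsg : Fn1 := ⟨_, _, fun h1 => (enc_norm (enc_mul (enc_norm (enc_sub (enc_pnc _ 1) (gsg.enc h1))) (enc_norm (enc_subn 1 (enc_nat 2 (gsg.enc h1))))))⟩
noncomputable def l2q0_4 : Fn2 := ⟨_, _, fun h1 h2 => (enc_subr 83 100 h2)⟩
noncomputable def l2q0_28 : Fn2 := ⟨_, _, fun h1 h2 => (enc_sq (enc_norm (l2q0_4.enc h1 h2)))⟩
noncomputable def l2q0_65 : Fn2 := ⟨_, _, fun h1 h2 => (enc_sub (enc_pnc _ 1) h1)⟩
noncomputable def l2q0_80 : Fn2 := ⟨_, _, fun h1 h2 => (enc_mul (cv1m.enc h1) (bx1q0.enc h1 h2))⟩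
noncomputable def l2q0 : Fn2 := ⟨_, _, fun h1 h2 => (enc_norm (enc_case (enc_subr 3 25 h1) (enc_mul (cv2m.enc h1) (enc_norm (enc_case (enc_subr 1 16 h1) (enc_add (enc_add (enc_scale 749 1250 h1) (enc_rat _ 1297 20000)) (enc_mul (enc_norm (l2q0_4.enc h1 h2)) (enc_norm (enc_add (enc_scale 1357 625 h1) (enc_rat _ 21 200))))) (enc_add (enc_add (enc_add (enc_scale 138169087 575000000 h1) (enc_rat _ 802990913 9200000000)) (enc_mul (enc_norm (l2q0_4.enc h1 h2)) (enc_norm (enc_sub (enc_rat _ 339651107 920000000) (enc_scale 118207107 57500000 h1))))) (enc_mul (l2q0_28.enc h1 h2) (enc_norm (enc_subr 42293 460000 (enc_scale 42293 28750 h1)))))))) (enc_case (enc_subr 11 50 h1) (enc_add (l2q0_80.enc h1 h2) (enc_mul (enc_norm (enc_mul (enc_norm (enc_sub (enc_sub (qsg.enc (enc_norm (l2q0_65.enc h1 h2))) (enc_mul (enc_norm (enc_nat 2 (enc_sub (l2q0_65.enc h1 h2) h2))) (enc_norm (enc_mul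 (esg.enc (enc_norm (l2q0_65.enc h1 h2))) (kcg.enc (enc_norm (enc_sub (enc_scale 3 4 (l2q0_65.enc h1 h2)) (enc_half (gsg.enc (enc_norm (l2q0_65.enc h1 h2)))))) h2))))) (l2q0_80.enc h1 h2))) (enc_norm (enc_sub (cv2m.enc h1) (cv1m.enc h1))))) (enc_inv (enc_sub (enc_add (swg.enc h1) (enc_rat _ 1 2)) (cv1m.enc h1))))) (enc_mul (cv2m.enc h1) (enc_norm (enc_case (enc_subr 131 500 h1) (enc_add (enc_add (enc_sub (enc_rat _ 15884234239 105000000000) (enc_scale 31779269 210000000 h1)) (enc_mul (enc_norm (l2q0_4.enc h1 h2)) (enc_norm (enc_sub (enc_rat _ 1413801647 2100000000) (enc_scale 12082837 4200000 h1))))) (enc_mul (l2q0_28.enc h1 h2) (enc_norm (enc_sub (enc_rat _ 1298341 4200000) (enc_scale 9911 8400 h1))))) (enc_add (enc_sub (enc_rat _ 1799997 11900000) (enc_scale 18 119 h1)) (enc_mul (enc_norm (l2q0_4.enc h1 h2)) (enc_norm (enc_subr 4633 42500 (enc_scale 37 340 h1)))))))))))⟩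
noncomputable def kc2q0_4 : Fn2 := ⟨_, _, fun h1 h2 => (enc_subr 83 100 h2)⟩
noncomputable def kc2q0_29 : Fn2 := ⟨_, _, fun h1 h2 => (enc_sub (enc_pnc _ 1) h1)⟩
noncomputable def kc2q0_30 : Fn2 := ⟨_, _, fun h1 h2 => (gsg.enc (enc_norm (kc2q0_29.enc h1 h2)))⟩
noncomputable def kc2q0_34 : Fn2 := ⟨_, _, fun h1 h2 => (esg.enc (enc_norm (kc2q0_29.enc h1 h2)))⟩
noncomputable def kc2q0_38 : Fn2 := ⟨_, _, fun h1 h2 => (gug.enc (enc_norm (kc2q0_29.enc h1 h2)))⟩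
noncomputable def kc2q0_40 : Fn2 := ⟨_, _, fun h1 h2 => (enc_mul (enc_norm (kc2q0_29.enc h1 h2)) (enc_inv (kc2q0_30.enc h1 h2)))⟩
noncomputable def kc2q0_41 : Fn2 := ⟨_, _, fun h1 h2 => (enc_scale 3 4 (kc2q0_40.enc h1 h2))⟩
noncomputable def kc2q0_70 : Fn2 := ⟨_, _, fun h1 h2 => (enc_mul (cv1m.enc h1) (bd1q0.enc h1 h2))⟩
noncomputable def kc2q0 : Fn2 := ⟨_, _, fun h1 h2 => (enc_norm (enc_case (enc_subr 3 25 h1) (enc_mul (cv2m.enc h1) (enc_norm (enc_add (enc_sub (enc_rat _ 2099 5000) (enc_scale 11613209531 600000000 h1)) (enc_mul (enc_norm (kc2q0_4.enc h1 h2)) (enc_norm (enc_subr 2061 100 (enc_scale 15846790907 120000000 h1))))))) (enc_case (enc_subr 11 50 h1) (enc_add (kc2q0_70.enc h1 h2) (enc_mul (enc_norm (enc_mul (enc_norm (enc_sub (enc_add (enc_sub (enc_neg (enc_add (enc_add (enc_rat _ 3 4) (enc_scale 3 2 (kc2q0_29.enc h1 h2))) (enc_scale 3 4 (enc_mul (enc_norm (kc2q0_40.enc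 h1 h2)) (kc2q0_38.enc h1 h2))))) (enc_mul (enc_norm (enc_sub (enc_mul (enc_norm (enc_mul (enc_norm (kc2q0_41.enc h1 h2)) (enc_norm (enc_subn 3 (enc_nat 4 (kc2q0_30.enc h1 h2)))))) (kc2q0_34.enc h1 h2)) (enc_mul (qsg.enc (enc_norm (kc2q0_29.enc h1 h2))) (enc_norm (enc_sub (enc_rat _ 1 2) (kc2q0_41.enc h1 h2)))))) (enc_inv (enc_mul (enc_nat 2 (kc2q0_34.enc h1 h2)) (kc2q0_34.enc h1 h2))))) (enc_mul (kcg.enc (enc_norm (enc_sub (enc_scale 3 4 (kc2q0_29.enc h1 h2)) (enc_half (kc2q0_30.enc h1 h2)))) h2) (enc_norm (enc_add (enc_pnc _ 1) (enc_add (kc2q0_38.enc h1 h2) (enc_nat 2 (kc2q0_30.enc h1 h2))))))) (kc2q0_70.enc h1 h2))) (enc_norm (enc_sub (cv2m.enc h1) (cv1m.enc h1))))) (enc_inv (enc_sub (enc_add (swg.enc h1) (enc_rat _ 1 2)) (cv1m.enc h1))))) (enc_mul (cv2m.enc h1) (enc_norm (enc_add (enc_subr 1403522531 1400000000 (enc_scale 701702531 700000000 h1)) (enc_mul (enc_norm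 (kc2q0_4.enc h1 h2)) (enc_norm (enc_subr 495148683 140000000 (enc_scale 247488683 70000000 h1))))))))))⟩
noncomputable def bf2q1 : Fn2 := ⟨_, _, fun h1 h2 => (enc_norm (enc_add (enc_subr 513 6250 (enc_scale 6763 6250 h1)) (enc_mul (enc_norm (enc_subr 83 100 h2)) (enc_norm (enc_sub (enc_rat _ 21347 5000) (enc_scale 21347 5000 h1))))))⟩
noncomputable def kf2q1 : Fn2 := ⟨_, _, fun h1 h2 => (enc_norm (enc_mul (cv2m.enc h1) (bf2q1.enc h1 h2)))⟩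
noncomputable def bx2q1 : Fn2 := ⟨_, _, fun h1 h2 => (enc_norm (enc_add (enc_sub (enc_rat _ 7563 50000) (enc_scale 7563 50000 h1)) (enc_mul (enc_norm (enc_subr 83 100 h2)) (enc_norm (enc_subr 273 2500 (enc_scale 273 2500 h1))))))⟩
noncomputable def l2q1 : Fn2 := ⟨_, _, fun h1 h2 => (enc_norm (enc_mul (cv2m.enc h1) (bx2q1.enc h1 h2)))⟩
noncomputable def bd2q1 : Fn2 := ⟨_, _, fun h1 h2 => (enc_norm (enc_add (enc_subr 5013 5000 (enc_scale 5013 5000 h1)) (enc_mul (enc_norm (enc_subr 83 100 h2)) (enc_norm (enc_subr 1769 500 (enc_scale 1769 500 h1))))))⟩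
noncomputable def kc2q1 : Fn2 := ⟨_, _, fun h1 h2 => (enc_norm (enc_mul (cv2m.enc h1) (bd2q1.enc h1 h2)))⟩
noncomputable def cv2p : Fn1 := ⟨_, _, fun h1 => (enc_norm (enc_add (enc_scale 17 20 (enc_subr 1 2 (swg.enc h1))) (enc_scale 3 20 (c3g.enc h1))))⟩
noncomputable def bf2q2_3 : Fn2 := ⟨_, _, fun h1 h2 => (enc_subr 83 100 h2)⟩
noncomputable def bf2q2 : Fn2 := ⟨_, _, fun h1 h2 => (enc_norm (enc_case (enc_subr 277 250 h1) (enc_add (enc_sub (enc_rat _ 8499407 2700000) (enc_scale 11359 5400 h1)) (enc_mul (enc_norm (bf2q2_3.enc h1 h2)) (enc_norm (enc_sub (enc_rat _ 218303 6750) (enc_scale 34571 1080 h1))))) (enc_case (enc_subr 577 500 h1) (enc_add (enc_sub (enc_rat _ 7240133 2300000) (enc_scale 2419 1150 h1)) (enc_mul (enc_norm (bf2q2_3.enc h1 h2)) (enc_norm (enc_subr 9642281 230000 (enc_scale 16107 460 h1))))) (enc_add (enc_sub (enc_rat _ 10891869 3460000) (enc_scale 36391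 17300 h1)) (enc_mul (enc_norm (bf2q2_3.enc h1 h2)) (enc_norm (enc_sub (enc_rat _ 7157283 216250) (enc_scale 51889 1730 h1))))))))⟩
noncomputable def kf2q2 : Fn2 := ⟨_, _, fun h1 h2 => (enc_norm (enc_mul (cv2p.enc h1) (bf2q2.enc h1 h2)))⟩
noncomputable def bx2q2_3 : Fn2 := ⟨_, _, fun h1 h2 => (enc_subr 83 100 h2)⟩
noncomputable def bx2q2_73 : Fn2 := ⟨_, _, fun h1 h2 => (enc_scale 117 580 h1)⟩
noncomputable def bx2q2_86 : Fn2 := ⟨_, _, fun h1 h2 => (enc_scale 23 114 h1)⟩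
noncomputable def bx2q2 : Fn2 := ⟨_, _, fun h1 h2 => (enc_norm (enc_case (enc_subr 1213 1000 h1) (enc_case (enc_subr 277 250 h1) (enc_case (enc_subr 17 16 h1) (enc_add (enc_sub (enc_rat _ 20579 100000) (enc_scale 337 3125 h1)) (enc_mul (enc_norm (bx2q2_3.enc h1 h2)) (enc_norm (enc_sub (enc_rat _ 26971 5000) (enc_scale 3383 625 h1))))) (enc_add (enc_sub (enc_rat _ 267323 1300000) (enc_scale 7 65 h1)) (enc_mul (enc_norm (bx2q2_3.enc h1 h2)) (enc_norm (enc_sub (enc_rat _ 239321 35000) (enc_scale 237 35 h1)))))) (enc_case (enc_subr 231 200 h1) (enc_add (enc_sub (enc_rat _ 10147 20000) (enc_scale 19 50 h1)) (enc_mul (enc_norm (bx2q2_3.enc h1 h2)) (enc_norm (enc_subr 3660879 235000 (enc_scale 3163 235 h1))))) (enc_add (enc_subr 197767 580000 (enc_scale 257 725 h1)) (enc_mul (enc_norm (bx2q2_3.enc h1 h2)) (enc_norm (enc_sub (enc_rat _ 707859 290000) (enc_scale 621 290 h1)))))))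 (enc_case (enc_subr 166 125 h1) (enc_case (enc_subr 127 100 h1) (enc_add (enc_subr 486029 1425000 (enc_scale 2021 5700 h1)) (enc_mul (enc_norm (bx2q2_3.enc h1 h2)) (enc_norm (enc_subr 499 1250 (enc_scale 1 5 h1))))) (enc_add (enc_subr 1176147 2900000 (enc_scale 2351 5800 h1)) (enc_mul (enc_norm (bx2q2_3.enc h1 h2)) (enc_norm (enc_subr 116403 290000 (bx2q2_73.enc h1 h2)))))) (enc_case (enc_subr 277 200 h1) (enc_add (enc_subr 3146431 5700000 (enc_scale 2939 5700 h1)) (enc_mul (enc_norm (bx2q2_3.enc h1 h2)) (enc_norm (enc_subr 45763 114000 (bx2q2_86.enc h1 h2))))) (enc_case (enc_subr 1443 1000 h1) (enc_add (enc_subr 1004501 1450000 (enc_scale 179 290 h1)) (enc_mul (enc_norm (bx2q2_3.enc h1 h2)) (enc_norm (enc_subr 46561 116000 (bx2q2_73.enc h1 h2))))) (enc_add (enc_subr 1995763 1900000 (enc_scale 4931 5700 h1)) (enc_mul (enc_norm (bx2q2_3.enc h1 h2)) (enc_norm (enc_subr 4767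 11875 (bx2q2_86.enc h1 h2))))))))))⟩
noncomputable def l2q2 : Fn2 := ⟨_, _, fun h1 h2 => (enc_norm (enc_mul (cv2p.enc h1) (bx2q2.enc h1 h2)))⟩
noncomputable def bd2q2 : Fn2 := ⟨_, _, fun h1 h2 => (enc_norm (enc_add (enc_subr 35877 5000 (enc_scale 8449 1250 h1)) (enc_mul (enc_norm (enc_subr 83 100 h2)) (enc_norm (enc_sub (enc_rat _ 62019 1000) (enc_scale 1777 50 h1))))))⟩
noncomputable def kc2q2 : Fn2 := ⟨_, _, fun h1 h2 => (enc_norm (enc_mul (cv2p.enc h1) (bd2q2.enc h1 h2)))⟩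
noncomputable def ycg : Fn1 := ⟨_, _, fun h1 => (enc_sqrtg (enc_scale 4 3 (enc_sub (enc_pnc _ 3) (enc_sq h1))))⟩
noncomputable def xc23 : Fn1 := ⟨_, _, fun h1 => (enc_norm (enc_add (enc_scale 17 20 (enc_subr 1 2 (swg.enc (ycg.enc h1)))) (enc_scale 3 20 h1)))⟩
noncomputable def kfc23_6 : Fn2 := ⟨_, _, fun h1 h2 => (enc_subr 1 2 (swg.enc (ycg.enc h1)))⟩
noncomputable def kfc23_9 : Fn2 := ⟨_, _, fun h1 h2 => (enc_add (enc_scale 17 20 (kfc23_6.enc h1 h2)) (enc_scale 3 20 h1))⟩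
noncomputable def kfc23_11 : Fn2 := ⟨_, _, fun h1 h2 => (enc_subr 83 100 h2)⟩
noncomputable def kfc23_45 : Fn2 := ⟨_, _, fun h1 h2 => (enc_subn 1 (ycg.enc h1))⟩
noncomputable def kfc23_46 : Fn2 := ⟨_, _, fun h1 h2 => (gsg.enc (enc_norm (kfc23_45.enc h1 h2)))⟩
noncomputable def kfc23_47 : Fn2 := ⟨_, _, fun h1 h2 => (enc_scale 3 4 (kfc23_45.enc h1 h2))⟩
noncomputable def kfc23_48 : Fn2 := ⟨_, _, fun h1 h2 => (enc_half (kfc23_46.enc h1 h2))⟩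
noncomputable def kfc23_65 : Fn2 := ⟨_, _, fun h1 h2 => (cv1r.enc (ycg.enc h1))⟩
noncomputable def kfc23_67 : Fn2 := ⟨_, _, fun h1 h2 => (enc_subr 89 50 (ycg.enc h1))⟩
noncomputable def kfc23_79 : Fn2 := ⟨_, _, fun h1 h2 => (enc_subr 47 25 (ycg.enc h1))⟩
noncomputable def kfc23_101 : Fn2 := ⟨_, _, fun h1 h2 => (enc_mul (kfc23_65.enc h1 h2) (enc_norm (enc_case (kfc23_67.enc h1 h2) (enc_add (enc_sub (enc_rat _ 16479 21875) (enc_scale 9721 14000 (ycg.enc h1))) (enc_mul (enc_norm (kfc23_11.enc h1 h2)) (enc_norm (enc_subr 15176401 140000 (enc_scale 33583 560 (ycg.enc h1)))))) (enc_case (kfc23_79.enc h1 h2) (enc_add (enc_sub (enc_rat _ 376701 500000) (enc_scale 434 625 (ycg.enc h1))) (enc_mul (enc_norm (kfc23_11.enc h1 h2)) (enc_norm (enc_subr 216807 2000 (enc_scale 5997 100 (ycg.enc h1)))))) (enc_add (enc_subr 76623 100000 (enc_scale 53540000 147732867 h1)) (enc_mul (enc_norm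 (kfc23_11.enc h1 h2)) (enc_norm (enc_add (enc_scale 585700000 147732867 h1) (enc_rat _ 19973 10000)))))))))⟩
noncomputable def kfc23 : Fn2 := ⟨_, _, fun h1 h2 => (enc_norm (enc_case (kfc23_67.enc h1 h2) (enc_mul (enc_norm (kfc23_9.enc h1 h2)) (enc_norm (enc_add (enc_subr 8858856619 5600000000 (enc_scale 2805578873 2800000000 (ycg.enc h1))) (enc_mul (enc_norm (kfc23_11.enc h1 h2)) (enc_norm (enc_sub (enc_rat _ 77985729 1400000) (enc_scale 21867623 700000 (ycg.enc h1)))))))) (enc_case (kfc23_79.enc h1 h2) (enc_add (kfc23_101.enc h1 h2) (enc_mul (enc_norm (enc_mul (enc_norm (enc_sub (enc_mul (enc_norm (enc_subn 2 (ycg.enc h1))) (enc_norm (enc_add (enc_mul (enc_norm (enc_sub (enc_sub (kfc23_48.enc h1 h2) (kfc23_47.enc h1 h2)) (enc_sub (enc_rat _ 1 4) (enc_scale 3 8 (enc_mul (enc_norm (kfc23_45.enc h1 h2)) (enc_inv (kfc23_46.enc h1 h2))))))) (enc_inv (esg.enc (enc_norm (kfc23_45.enc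 h1 h2))))) (kcg.enc (enc_norm (enc_sub (kfc23_47.enc h1 h2) (kfc23_48.enc h1 h2))) h2)))) (kfc23_101.enc h1 h2))) (enc_norm (enc_sub (kfc23_9.enc h1 h2) (kfc23_65.enc h1 h2))))) (enc_inv (enc_sub (kfc23_6.enc h1 h2) (kfc23_65.enc h1 h2))))) (enc_mul (enc_norm (kfc23_9.enc h1 h2)) (enc_norm (enc_case (enc_sub (enc_rat _ 429616471 1000000000) h1) (enc_add (enc_subr 2987794605918700603 1613149970000000000 (enc_scale 6145652893 1613149970 h1)) (enc_mul (enc_norm (kfc23_11.enc h1 h2)) (enc_norm (enc_sub (enc_rat _ 149139926126999191 20164374625000000) (enc_scale 2346678568 161314997 h1))))) (enc_add (enc_sub (enc_rat _ 1 2) (enc_scale 715430000 429616471 h1)) (enc_mul (enc_norm (kfc23_11.enc h1 h2)) (enc_scale 1146500000 429616471 h1)))))))))⟩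
noncomputable def lc23_6 : Fn2 := ⟨_, _, fun h1 h2 => (enc_subr 1 2 (swg.enc (ycg.enc h1)))⟩
noncomputable def lc23_9 : Fn2 := ⟨_, _, fun h1 h2 => (enc_add (enc_scale 17 20 (lc23_6.enc h1 h2)) (enc_scale 3 20 h1))⟩
noncomputable def lc23_11 : Fn2 := ⟨_, _, fun h1 h2 => (enc_subr 83 100 h2)⟩
noncomputable def lc23_38 : Fn2 := ⟨_, _, fun h1 h2 => (enc_sq (enc_norm (lc23_11.enc h1 h2)))⟩
noncomputable def lc23_72 : Fn2 := ⟨_, _, fun h1 h2 => (enc_subn 1 (ycg.enc h1))⟩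
noncomputable def lc23_85 : Fn2 := ⟨_, _, fun h1 h2 => (cv1r.enc (ycg.enc h1))⟩
noncomputable def lc23_87 : Fn2 := ⟨_, _, fun h1 h2 => (enc_subr 89 50 (ycg.enc h1))⟩
noncomputable def lc23_99 : Fn2 := ⟨_, _, fun h1 h2 => (enc_subr 47 25 (ycg.enc h1))⟩
noncomputable def lc23_122 : Fn2 := ⟨_, _, fun h1 h2 => (enc_mul (lc23_85.enc h1 h2) (enc_norm (enc_case (lc23_87.enc h1 h2) (enc_add (enc_subr 2761231 1400000 (enc_scale 43419 28000 (ycg.enc h1))) (enc_mul (enc_norm (lc23_11.enc h1 h2)) (enc_norm (enc_subr 29957 28000 (enc_scale 2167 2800 (ycg.enc h1)))))) (enc_case (lc23_99.enc h1 h2) (enc_add (enc_subr 246521 125000 (enc_scale 7753 5000 (ycg.enc h1))) (enc_mul (enc_norm (lc23_11.enc h1 h2)) (enc_norm (enc_subr 53501 50000 (enc_scale 387 500 (ycg.enc h1)))))) (enc_add (enc_sub (enc_rat _ 3366 3125) (enc_scale 11180000 49244289 h1)) (enc_mul (enc_norm (lc23_11.enc h1 h2))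 (enc_norm (enc_subr 521 400 (enc_scale 421900000 147732867 h1)))))))))⟩
noncomputable def lc23 : Fn2 := ⟨_, _, fun h1 h2 => (enc_norm (enc_case (lc23_87.enc h1 h2) (enc_mul (enc_norm (lc23_9.enc h1 h2)) (enc_norm (enc_case (enc_subr 431 250 (ycg.enc h1)) (enc_add (enc_subr 6424137 5600000 (enc_scale 20823 22400 (ycg.enc h1))) (enc_mul (enc_norm (lc23_11.enc h1 h2)) (enc_norm (enc_subr 225203 560000 (enc_scale 453 2240 (ycg.enc h1)))))) (enc_add (enc_add (enc_subr 160627576947 140000000000 (enc_scale 520631037 560000000 (ycg.enc h1))) (enc_mul (enc_norm (lc23_11.enc h1 h2)) (enc_norm (enc_subr 60767301053 3500000000 (enc_scale 140556963 14000000 (ycg.enc h1)))))) (enc_mul (lc23_38.enc h1 h2) (enc_norm (enc_subr 18760137 2800000 (enc_scale 43527 11200 (ycg.enc h1))))))))) (enc_case (lc23_99.enc h1 h2) (enc_add (lc23_122.enc h1 h2) (enc_mul (enc_norm (enc_mul (enc_norm (enc_sub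 (enc_sub (qsg.enc (enc_norm (lc23_72.enc h1 h2))) (enc_mul (enc_norm (enc_nat 2 (enc_sub (lc23_72.enc h1 h2) h2))) (enc_norm (enc_mul (esg.enc (enc_norm (lc23_72.enc h1 h2))) (kcg.enc (enc_norm (enc_sub (enc_scale 3 4 (lc23_72.enc h1 h2)) (enc_half (gsg.enc (enc_norm (lc23_72.enc h1 h2)))))) h2))))) (lc23_122.enc h1 h2))) (enc_norm (enc_sub (lc23_9.enc h1 h2) (lc23_85.enc h1 h2))))) (enc_inv (enc_sub (lc23_6.enc h1 h2) (lc23_85.enc h1 h2))))) (enc_mul (enc_norm (lc23_9.enc h1 h2)) (enc_norm (enc_case (enc_sub (enc_rat _ 429616471 1000000000) h1) (enc_add (enc_add (enc_sub (enc_rat _ 523747551432281503 806574985000000000) (enc_scale 48470793 806574985 h1)) (enc_mul (enc_norm (lc23_11.enc h1 h2)) (enc_norm (enc_sub (enc_rat _ 1123699774861788451 161314997000000000) (enc_scale 1700303381 161314997 h1))))) (enc_mul (lc23_38.enc h1 h2) (enc_norm (enc_subr 7531606353101 6452599880000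 (enc_scale 438275000 161314997 h1))))) (enc_add (enc_add (enc_scale 130605000 429616471 h1) (enc_rat _ 19717 40000)) (enc_mul (enc_norm (lc23_11.enc h1 h2)) (enc_norm (enc_add (enc_scale 1225100000 429616471 h1) (enc_rat _ 97 80)))))))))))⟩
noncomputable def kcc23_6 : Fn2 := ⟨_, _, fun h1 h2 => (enc_subr 1 2 (swg.enc (ycg.enc h1)))⟩
noncomputable def kcc23_9 : Fn2 := ⟨_, _, fun h1 h2 => (enc_add (enc_scale 17 20 (kcc23_6.enc h1 h2)) (enc_scale 3 20 h1))⟩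
noncomputable def kcc23_11 : Fn2 := ⟨_, _, fun h1 h2 => (enc_subr 83 100 h2)⟩
noncomputable def kcc23_35 : Fn2 := ⟨_, _, fun h1 h2 => (enc_subn 1 (ycg.enc h1))⟩
noncomputable def kcc23_36 : Fn2 := ⟨_, _, fun h1 h2 => (gsg.enc (enc_norm (kcc23_35.enc h1 h2)))⟩
noncomputable def kcc23_40 : Fn2 := ⟨_, _, fun h1 h2 => (esg.enc (enc_norm (kcc23_35.enc h1 h2)))⟩
noncomputable def kcc23_45 : Fn2 := ⟨_, _, fun h1 h2 => (gug.enc (enc_norm (kcc23_35.enc h1 h2)))⟩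
noncomputable def kcc23_47 : Fn2 := ⟨_, _, fun h1 h2 => (enc_mul (enc_norm (kcc23_35.enc h1 h2)) (enc_inv (kcc23_36.enc h1 h2)))⟩
noncomputable def kcc23_48 : Fn2 := ⟨_, _, fun h1 h2 => (enc_scale 3 4 (kcc23_47.enc h1 h2))⟩
noncomputable def kcc23_73 : Fn2 := ⟨_, _, fun h1 h2 => (cv1r.enc (ycg.enc h1))⟩
noncomputable def kcc23_75 : Fn2 := ⟨_, _, fun h1 h2 => (enc_subr 47 25 (ycg.enc h1))⟩
noncomputable def kcc23_97 : Fn2 := ⟨_, _, fun h1 h2 => (enc_mul (kcc23_73.enc h1 h2) (enc_norm (enc_case (kcc23_75.enc h1 h2) (enc_add (enc_subr 1077229 190000 (enc_scale 18653 3800 (ycg.enc h1))) (enc_mul (enc_norm (kcc23_11.enc h1 h2)) (enc_norm (enc_subr 3 760 (enc_scale 1 380 (ycg.enc h1)))))) (enc_add (enc_subr 157 1250 (enc_scale 307025000 49244289 h1)) (enc_mul (enc_norm (kcc23_11.enc h1 h2)) (enc_norm (enc_sub (enc_rat _ 763 200) (enc_scale 953500000 147732867 h1))))))))⟩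
noncomputable def kcc23 : Fn2 := ⟨_, _, fun h1 h2 => (enc_norm (enc_case (enc_subr 89 50 (ycg.enc h1)) (enc_mul (enc_norm (kcc23_9.enc h1 h2)) (enc_norm (enc_add (enc_subr 40180593627 5600000000 (enc_scale 18925211209 2800000000 (ycg.enc h1))) (enc_mul (enc_norm (kcc23_11.enc h1 h2)) (enc_norm (enc_sub (enc_rat _ 8682632409 140000000) (enc_scale 2487790803 70000000 (ycg.enc h1)))))))) (enc_case (kcc23_75.enc h1 h2) (enc_add (kcc23_97.enc h1 h2) (enc_mul (enc_norm (enc_mul (enc_norm (enc_sub (enc_add (enc_sub (enc_add (enc_add (enc_rat _ 3 4) (enc_scale 3 2 (kcc23_35.enc h1 h2))) (enc_scale 3 4 (enc_mul (enc_norm (kcc23_47.enc h1 h2)) (kcc23_45.enc h1 h2)))) (enc_mul (enc_norm (enc_sub (enc_mul (enc_norm (enc_mul (enc_norm (kcc23_48.enc h1 h2)) (enc_norm (enc_subn 3 (enc_nat 4 (kcc23_36.enc h1 h2)))))) (kcc23_40.enc h1 h2)) (enc_mul (qsg.enc (enc_norm (kcc23_35.enc h1 h2)))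 (enc_norm (enc_sub (enc_rat _ 1 2) (kcc23_48.enc h1 h2)))))) (enc_inv (enc_mul (enc_nat 2 (kcc23_40.enc h1 h2)) (kcc23_40.enc h1 h2))))) (enc_mul (kcg.enc (enc_norm (enc_sub (enc_scale 3 4 (kcc23_35.enc h1 h2)) (enc_half (kcc23_36.enc h1 h2)))) h2) (enc_norm (enc_sub (enc_pnc _ 1) (enc_add (kcc23_45.enc h1 h2) (enc_nat 2 (kcc23_36.enc h1 h2))))))) (kcc23_97.enc h1 h2))) (enc_norm (enc_sub (kcc23_9.enc h1 h2) (kcc23_73.enc h1 h2))))) (enc_inv (enc_sub (kcc23_6.enc h1 h2) (kcc23_73.enc h1 h2))))) (enc_mul (enc_norm (kcc23_9.enc h1 h2)) (enc_norm (enc_add (enc_subr 567 334 (enc_scale 2376081568118 123356943945 h1)) (enc_mul (enc_norm (kcc23_11.enc h1 h2)) (enc_norm (enc_sub (enc_rat _ 15033 334) (enc_scale 8137396997531 98685555156 h1))))))))))⟩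
noncomputable def cv3m : Fn1 := ⟨_, _, fun h1 => (enc_norm (enc_add (enc_half (enc_add (swg.enc h1) (enc_rat _ 1 2))) (enc_half (c3g.enc h1))))⟩
noncomputable def bf3q0 : Fn2 := ⟨_, _, fun h1 h2 => (enc_norm (enc_add (enc_sub (enc_rat _ 9839 20000) (enc_scale 12607 6250 h1)) (enc_mul (enc_norm (enc_subr 83 100 h2)) (enc_norm (enc_subr 8301 10000 (enc_neg (enc_scale 11253 2500 h1)))))))⟩
noncomputable def kf3q0 : Fn2 := ⟨_, _, fun h1 h2 => (enc_norm (enc_mul (cv3m.enc h1) (bf3q0.enc h1 h2)))⟩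
noncomputable def bx3q0_3 : Fn2 := ⟨_, _, fun h1 h2 => (enc_subr 83 100 h2)⟩
noncomputable def bx3q0_42 : Fn2 := ⟨_, _, fun h1 h2 => (enc_scale 7 40 h1)⟩
noncomputable def bx3q0_68 : Fn2 := ⟨_, _, fun h1 h2 => (enc_scale 429 2450 h1)⟩
noncomputable def bx3q0_72 : Fn2 := ⟨_, _, fun h1 h2 => (enc_scale 71 490 h1)⟩
noncomputable def bx3q0 : Fn2 := ⟨_, _, fun h1 h2 => (enc_norm (enc_case (enc_subr 131 500 h1) (enc_case (enc_subr 3 25 h1) (enc_case (enc_subr 1 16 h1) (enc_add (enc_sub (enc_rat _ 17509 100000) (enc_scale 547 3125 h1)) (enc_mul (enc_norm (bx3q0_3.enc h1 h2)) (enc_norm (enc_sub (enc_rat _ 1449 10000) (enc_scale 91 625 h1))))) (enc_add (enc_sub (enc_rat _ 80539 460000) (enc_scale 503 2875 h1)) (enc_mul (enc_norm (bx3q0_3.enc h1 h2)) (enc_norm (enc_sub (enc_rat _ 33309 230000) (enc_scale 83 575 h1)))))) (enc_case (enc_subr 11 50 h1) (enc_add (enc_sub (enc_rat _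 87551 500000) (enc_scale 1751 10000 h1)) (enc_mul (enc_norm (bx3q0_3.enc h1 h2)) (enc_norm (enc_sub (enc_rat _ 1449 10000) (enc_scale 29 200 h1))))) (enc_add (enc_sub (enc_rat _ 4377 25000) (bx3q0_42.enc h1 h2)) (enc_mul (enc_norm (bx3q0_3.enc h1 h2)) (enc_norm (enc_sub (enc_rat _ 1011 7000) (enc_scale 1 7 h1))))))) (enc_case (enc_subr 177 500 h1) (enc_case (enc_subr 61 200 h1) (enc_add (enc_sub (enc_rat _ 30119 172000) (enc_scale 753 4300 h1)) (enc_mul (enc_norm (bx3q0_3.enc h1 h2)) (enc_norm (enc_sub (enc_rat _ 15629 107500) (enc_scale 63 430 h1))))) (enc_add (enc_sub (enc_rat _ 42901 245000) (bx3q0_68.enc h1 h2)) (enc_mul (enc_norm (bx3q0_3.enc h1 h2)) (enc_norm (enc_sub (enc_rat _ 35499 245000) (bx3q0_72.enc h1 h2)))))) (enc_case (enc_subr 201 500 h1) (enc_add (enc_sub (enc_rat _ 17507 100000) (bx3q0_42.enc h1 h2)) (enc_mul (enc_norm (bx3q0_3.enc h1 h2)) (enc_norm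 (enc_sub (enc_rat _ 11559 80000) (enc_scale 23 160 h1))))) (enc_add (enc_sub (enc_rat _ 214511 1225000) (bx3q0_68.enc h1 h2)) (enc_mul (enc_norm (bx3q0_3.enc h1 h2)) (enc_norm (enc_sub (enc_rat _ 2841 19600) (bx3q0_72.enc h1 h2)))))))))⟩
noncomputable def l3q0 : Fn2 := ⟨_, _, fun h1 h2 => (enc_norm (enc_mul (cv3m.enc h1) (bx3q0.enc h1 h2)))⟩
noncomputable def bd3q0_3 : Fn2 := ⟨_, _, fun h1 h2 => (enc_subr 83 100 h2)⟩
noncomputable def bd3q0 : Fn2 := ⟨_, _, fun h1 h2 => (enc_norm (enc_case (enc_subr 3 25 h1) (enc_add (enc_sub (enc_rat _ 3039 10000) (enc_scale 73 240 h1)) (enc_mul (enc_norm (bd3q0_3.enc h1 h2)) (enc_norm (enc_sub (enc_rat _ 69273 1000) (enc_scale 2771 40 h1))))) (enc_add (enc_sub (enc_rat _ 5773 19000) (enc_scale 577 1900 h1)) (enc_mul (enc_norm (bd3q0_3.enc h1 h2)) (enc_norm (enc_sub (enc_rat _ 164523 2375) (enc_scale 6581 95 h1)))))))⟩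
noncomputable def kc3q0 : Fn2 := ⟨_, _, fun h1 h2 => (enc_norm (enc_mul (cv3m.enc h1) (bd3q0.enc h1 h2)))⟩
noncomputable def bf3q1 : Fn2 := ⟨_, _, fun h1 h2 => (enc_norm (enc_add (enc_subr 313 6250 (enc_scale 6563 6250 h1)) (enc_mul (enc_norm (enc_subr 83 100 h2)) (enc_norm (enc_subr 289 625 (enc_scale 289 625 h1))))))⟩
noncomputable def kf3q1 : Fn2 := ⟨_, _, fun h1 h2 => (enc_norm (enc_mul (cv3m.enc h1) (bf3q1.enc h1 h2)))⟩
noncomputable def bx3q1 : Fn2 := ⟨_, _, fun h1 h2 => (enc_norm (enc_add (enc_sub (enc_rat _ 2189 12500) (enc_scale 2189 12500 h1)) (enc_mul (enc_norm (enc_subr 83 100 h2)) (enc_norm (enc_sub (enc_rat _ 29 200) (enc_scale 29 200 h1))))))⟩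
noncomputable def l3q1 : Fn2 := ⟨_, _, fun h1 h2 => (enc_norm (enc_mul (cv3m.enc h1) (bx3q1.enc h1 h2)))⟩
noncomputable def bd3q1 : Fn2 := ⟨_, _, fun h1 h2 => (enc_norm (enc_add (enc_sub (enc_rat _ 38 125) (enc_scale 38 125 h1)) (enc_mul (enc_norm (enc_subr 83 100 h2)) (enc_norm (enc_sub (enc_rat _ 8659 125) (enc_scale 8659 125 h1))))))⟩
noncomputable def kc3q1 : Fn2 := ⟨_, _, fun h1 h2 => (enc_norm (enc_mul (cv3m.enc h1) (bd3q1.enc h1 h2)))⟩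
noncomputable def cv3p : Fn1 := ⟨_, _, fun h1 => (enc_norm (enc_add (enc_half (enc_subr 1 2 (swg.enc h1))) (enc_half (c3g.enc h1))))⟩
noncomputable def bf3q2 : Fn2 := ⟨_, _, fun h1 h2 => (enc_norm (enc_add (enc_subr 33113 100000 (enc_scale 12429 12500 h1)) (enc_mul (enc_norm (enc_subr 83 100 h2)) (enc_norm (enc_sub (enc_rat _ 199103 10000) (enc_scale 101501 5000 h1))))))⟩
noncomputable def kf3q2 : Fn2 := ⟨_, _, fun h1 h2 => (enc_norm (enc_mul (cv3p.enc h1) (bf3q2.enc h1 h2)))⟩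
noncomputable def bx3q2_3 : Fn2 := ⟨_, _, fun h1 h2 => (enc_subr 83 100 h2)⟩
noncomputable def bx3q2_18 : Fn2 := ⟨_, _, fun h1 h2 => (enc_scale 1973 2850 h1)⟩
noncomputable def bx3q2_22 : Fn2 := ⟨_, _, fun h1 h2 => (enc_scale 1138 285 h1)⟩
noncomputable def bx3q2 : Fn2 := ⟨_, _, fun h1 h2 => (enc_norm (enc_case (enc_subr 277 200 h1) (enc_case (enc_subr 166 125 h1) (enc_add (enc_subr 1023091 2050000 (enc_scale 14737 32800 h1)) (enc_mul (enc_norm (bx3q2_3.enc h1 h2)) (enc_norm (enc_subr 3269247 410000 (enc_scale 1623 205 h1))))) (enc_add (enc_subr 146374 178125 (bx3q2_18.enc h1 h2)) (enc_mul (enc_norm (bx3q2_3.enc h1 h2)) (enc_norm (enc_sub (enc_rat _ 894077 114000) (bx3q2_22.enc h1 h2)))))) (enc_case (enc_subr 1443 1000 h1) (enc_add (enc_subr 2382221 2900000 (enc_scale 2007 2900 h1)) (enc_mul (enc_norm (bx3q2_3.enc h1 h2)) (enc_norm (enc_sub (enc_rat _ 181901 23200) (enc_scale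 463 116 h1))))) (enc_add (enc_subr 780673 950000 (bx3q2_18.enc h1 h2)) (enc_mul (enc_norm (bx3q2_3.enc h1 h2)) (enc_norm (enc_sub (enc_rat _ 745073 95000) (bx3q2_22.enc h1 h2))))))))⟩
noncomputable def l3q2 : Fn2 := ⟨_, _, fun h1 h2 => (enc_norm (enc_mul (cv3p.enc h1) (bx3q2.enc h1 h2)))⟩
noncomputable def bd3q2 : Fn2 := ⟨_, _, fun h1 h2 => (enc_norm (enc_add (enc_sub (enc_rat _ 8917 2000) (enc_scale 2189 1250 h1)) (enc_mul (enc_norm (enc_subr 83 100 h2)) (enc_norm (enc_subr 132811 1000 (enc_scale 64619 500 h1))))))⟩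
noncomputable def kc3q2 : Fn2 := ⟨_, _, fun h1 h2 => (enc_norm (enc_mul (cv3p.enc h1) (bd3q2.enc h1 h2)))⟩
noncomputable def xc33 : Fn1 := ⟨_, _, fun h1 => (enc_norm (enc_add (enc_half (enc_subr 1 2 (swg.enc (ycg.enc h1)))) (enc_half h1)))⟩
noncomputable def kfc33_11 : Fn2 := ⟨_, _, fun h1 h2 => (enc_subr 83 100 h2)⟩
noncomputable def kfc33_17 : Fn2 := ⟨_, _, fun h1 h2 => (enc_sub (enc_rat _ 37491 100000) (enc_scale 61 400 (ycg.enc h1)))⟩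
noncomputable def kfc33 : Fn2 := ⟨_, _, fun h1 h2 => (enc_norm (enc_mul (enc_norm (enc_add (enc_half (enc_subr 1 2 (swg.enc (ycg.enc h1)))) (enc_half h1))) (enc_norm (enc_case (enc_subr 89 50 (ycg.enc h1)) (enc_add (kfc33_17.enc h1 h2) (enc_mul (enc_norm (kfc33_11.enc h1 h2)) (enc_norm (enc_subr 1750549 35000 (enc_scale 4757 175 (ycg.enc h1)))))) (enc_case (enc_subr 47 25 (ycg.enc h1)) (enc_add (kfc33_17.enc h1 h2) (enc_mul (enc_norm (kfc33_11.enc h1 h2)) (enc_norm (enc_subr 2500797 50000 (enc_scale 27183 1000 (ycg.enc h1)))))) (enc_add (enc_sub (enc_rat _ 1 2) (enc_scale 102947500 147732867 h1)) (enc_mul (enc_norm (kfc33_11.enc h1 h2)) (enc_scale 30225000 16414763 h1))))))))⟩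
noncomputable def lc33_11 : Fn2 := ⟨_, _, fun h1 h2 => (enc_subr 83 100 h2)⟩
noncomputable def lc33 : Fn2 := ⟨_, _, fun h1 h2 => (enc_norm (enc_mul (enc_norm (enc_add (enc_half (enc_subr 1 2 (swg.enc (ycg.enc h1)))) (enc_half h1))) (enc_norm (enc_case (enc_subr 47 25 (ycg.enc h1)) (enc_case (enc_subr 89 50 (ycg.enc h1)) (enc_add (enc_subr 1188501 1400000 (enc_scale 19891 28000 (ycg.enc h1))) (enc_mul (enc_norm (lc33_11.enc h1 h2)) (enc_norm (enc_sub (enc_rat _ 137247 17500) (enc_scale 559 140 (ycg.enc h1)))))) (enc_add (enc_subr 424471 500000 (enc_scale 444 625 (ycg.enc h1))) (enc_mul (enc_norm (lc33_11.enc h1 h2)) (enc_norm (enc_sub (enc_rat _ 392147 50000) (enc_scale 3993 1000 (ycg.enc h1))))))) (enc_case (enc_sub (enc_rat _ 429616471 1000000000) h1) (enc_add (enc_sub (enc_rat _ 11460340338497 16131499700000) (enc_scale 61100000 161314997 h1)) (enc_mul (enc_norm (lc33_11.enc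 h1 h2)) (enc_norm (enc_subr 234895175503 1613149970000 (enc_scale 131500000 161314997 h1))))) (enc_add (enc_add (enc_scale 54785000 429616471 h1) (enc_rat _ 19717 40000)) (enc_mul (enc_norm (lc33_11.enc h1 h2)) (enc_norm (enc_sub (enc_rat _ 97 80) (enc_scale 1007900000 429616471 h1))))))))))⟩
noncomputable def kcc33_11 : Fn2 := ⟨_, _, fun h1 h2 => (enc_subr 83 100 h2)⟩
noncomputable def kcc33 : Fn2 := ⟨_, _, fun h1 h2 => (enc_norm (enc_mul (enc_norm (enc_add (enc_half (enc_subr 1 2 (swg.enc (ycg.enc h1)))) (enc_half h1))) (enc_norm (enc_case (enc_subr 89 50 (ycg.enc h1)) (enc_add (enc_sub (enc_rat _ 624163 140000) (enc_scale 4903 2800 (ycg.enc h1))) (enc_mul (enc_norm (kcc33_11.enc h1 h2)) (enc_norm (enc_subr 116216 875 (enc_scale 9047 70 (ycg.enc h1)))))) (enc_case (enc_subr 47 25 (ycg.enc h1)) (enc_add (enc_sub (enc_rat _ 222909 50000) (enc_scale 1751 1000 (ycg.enc h1)))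 (enc_mul (enc_norm (kcc33_11.enc h1 h2)) (enc_norm (enc_subr 332033 2500 (enc_scale 3231 25 (ycg.enc h1)))))) (enc_add (enc_subr 567 334 (enc_scale 119568025000 24671388789 h1)) (enc_mul (enc_norm (kcc33_11.enc h1 h2)) (enc_norm (enc_add (enc_scale 2719971500000 24671388789 h1) (enc_rat _ 15033 334))))))))))⟩
noncomputable def kf4q0 : Fn2 := ⟨_, _, fun h1 h2 => (enc_norm (enc_sub (enc_mul h1 (kcg.enc (enc_half h1) h2)) (enc_mul (enc_norm (enc_mul (enc_sq h1) (enc_norm (enc_add (c3g.enc h1) (enc_rat _ 3 2))))) (enc_inv (enc_mul (enc_norm (enc_sub (enc_pnc _ 1) h1)) (enc_norm (enc_add (enc_pnc _ 1) h1)))))))⟩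
noncomputable def l4q0_6 : Fn2 := ⟨_, _, fun h1 h2 => (enc_half h1)⟩
noncomputable def l4q0_7 : Fn2 := ⟨_, _, fun h1 h2 => (enc_half (c3g.enc h1))⟩
noncomputable def l4q0_8 : Fn2 := ⟨_, _, fun h1 h2 => (enc_scale 1 4 h1)⟩
noncomputable def l4q0 : Fn2 := ⟨_, _, fun h1 h2 => (enc_norm (enc_add (txg.enc (l4q0_6.enc h1 h2) (enc_norm (enc_sub (l4q0_7.enc h1 h2) (l4q0_8.enc h1 h2))) h2) (txg.enc (enc_neg (l4q0_6.enc h1 h2)) (enc_norm (enc_add (l4q0_7.enc h1 h2) (l4q0_8.enc h1 h2))) h2)))⟩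
noncomputable def kc4q0_3 : Fn2 := ⟨_, _, fun h1 h2 => (enc_subr 83 100 h2)⟩
noncomputable def kc4q0_6 : Fn2 := ⟨_, _, fun h1 h2 => (enc_half h1)⟩
noncomputable def kc4q0 : Fn2 := ⟨_, _, fun h1 h2 => (enc_norm (enc_case (enc_subr 167 1000 (kc4q0_6.enc h1 h2)) (enc_add (enc_sub (enc_rat _ 8153 1250) (enc_scale 1280 167 h1)) (enc_mul (enc_norm (kc4q0_3.enc h1 h2)) (enc_norm (enc_add (enc_scale 11572 167 h1) (enc_rat _ 14769 500))))) (enc_case (enc_subr 333 1000 (kc4q0_6.enc h1 h2)) (enc_add (enc_sub (enc_rat _ 10827233 1660000) (enc_scale 25447 3320 h1)) (enc_mul (enc_norm (kc4q0_3.enc h1 h2)) (enc_norm (enc_add (enc_scale 11503 166 h1) (enc_rat _ 490321 16600))))) (enc_add (enc_sub (enc_rat _ 14177 3340) (enc_scale 14177 3340 h1)) (enc_mul (enc_norm (kc4q0_3.enc h1 h2)) (enc_norm (enc_sub (enc_rat _ 37844 167) (enc_scale 37844 167 h1))))))))⟩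
noncomputable def kf4q1 : Fn2 := ⟨_, _, fun h1 h2 => (enc_norm (enc_add (enc_mul (enc_norm (enc_mul h1 (enc_norm (enc_add (c3g.enc h1) (enc_rat _ 3 2))))) (enc_inv (enc_add (enc_pnc _ 1) h1))) (enc_mul (enc_norm (enc_subn 1 h1)) (kcg.enc (enc_half h1) h2))))⟩
noncomputable def l4q1_7 : Fn2 := ⟨_, _, fun h1 h2 => (enc_half h1)⟩
noncomputable def l4q1_8 : Fn2 := ⟨_, _, fun h1 h2 => (enc_half (c3g.enc h1))⟩
noncomputable def l4q1_9 : Fn2 := ⟨_, _, fun h1 h2 => (enc_scale 1 4 h1)⟩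
noncomputable def l4q1 : Fn2 := ⟨_, _, fun h1 h2 => (enc_norm (enc_add (txg.enc (l4q1_7.enc h1 h2) (enc_norm (enc_sub (l4q1_8.enc h1 h2) (l4q1_9.enc h1 h2))) h2) (txg.enc (enc_neg (l4q1_7.enc h1 h2)) (enc_norm (enc_add (l4q1_8.enc h1 h2) (l4q1_9.enc h1 h2))) h2)))⟩
noncomputable def kc4q1_3 : Fn2 := ⟨_, _, fun h1 h2 => (enc_subr 83 100 h2)⟩
noncomputable def kc4q1_7 : Fn2 := ⟨_, _, fun h1 h2 => (enc_half h1)⟩
noncomputable def kc4q1 : Fn2 := ⟨_, _, fun h1 h2 => (enc_norm (enc_case (enc_subr 167 1000 (kc4q1_7.enc h1 h2)) (enc_add (enc_sub (enc_rat _ 8153 1250) (enc_scale 1280 167 h1)) (enc_mul (enc_norm (kc4q1_3.enc h1 h2)) (enc_norm (enc_add (enc_scale 11572 167 h1) (enc_rat _ 14769 500))))) (enc_case (enc_subr 333 1000 (kc4q1_7.enc h1 h2)) (enc_add (enc_sub (enc_rat _ 10827233 1660000) (enc_scale 25447 3320 h1)) (enc_mul (enc_norm (kc4q1_3.enc h1 h2)) (enc_norm (enc_add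 (enc_scale 11503 166 h1) (enc_rat _ 490321 16600))))) (enc_add (enc_sub (enc_rat _ 14177 3340) (enc_scale 14177 3340 h1)) (enc_mul (enc_norm (kc4q1_3.enc h1 h2)) (enc_norm (enc_sub (enc_rat _ 37844 167) (enc_scale 37844 167 h1))))))))⟩
noncomputable def kf4q2 : Fn2 := ⟨_, _, fun h1 h2 => (enc_norm (enc_add (enc_mul (enc_norm (enc_mul (enc_norm (enc_sub (enc_nat 2 (c3g.enc h1)) h1)) (enc_norm (enc_sub (enc_add (c3g.enc h1) (enc_pnc _ 3)) (enc_scale 3 2 h1))))) (enc_inv (enc_nat 4 (enc_sub (enc_pnc _ 2) h1)))) (enc_mul (enc_norm (enc_subn 1 h1)) (kcg.enc (enc_norm (enc_sub (enc_scale 1 4 h1) (enc_half (c3g.enc h1)))) h2))))⟩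
noncomputable def l4q2_7 : Fn2 := ⟨_, _, fun h1 h2 => (enc_half (c3g.enc h1))⟩
noncomputable def l4q2_8 : Fn2 := ⟨_, _, fun h1 h2 => (enc_scale 1 4 h1)⟩
noncomputable def l4q2_9 : Fn2 := ⟨_, _, fun h1 h2 => (enc_sub (l4q2_7.enc h1 h2) (l4q2_8.enc h1 h2))⟩
noncomputable def l4q2_12 : Fn2 := ⟨_, _, fun h1 h2 => (enc_add (enc_scale 1 4 (c3g.enc h1)) (enc_scale 3 8 h1))⟩
noncomputable def l4q2_14 : Fn2 := ⟨_, _, fun h1 h2 => (enc_half (l4q2_9.enc h1 h2))⟩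
noncomputable def l4q2 : Fn2 := ⟨_, _, fun h1 h2 => (enc_norm (enc_sub (enc_nat 2 (txg.enc (enc_norm (enc_sub (l4q2_8.enc h1 h2) (l4q2_7.enc h1 h2))) (enc_norm (enc_add (l4q2_12.enc h1 h2) (l4q2_14.enc h1 h2))) h2)) (txg.enc (enc_norm (l4q2_9.enc h1 h2)) (enc_norm (enc_sub (l4q2_12.enc h1 h2) (l4q2_14.enc h1 h2))) h2)))⟩
noncomputable def kc4q2_3 : Fn2 := ⟨_, _, fun h1 h2 => (enc_subr 83 100 h2)⟩
noncomputable def kc4q2_9 : Fn2 := ⟨_, _, fun h1 h2 => (enc_sub (enc_half (c3g.enc h1)) (enc_scale 1 4 h1))⟩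
noncomputable def kc4q2_27 : Fn2 := ⟨_, _, fun h1 h2 => (enc_scale 751 830 (kc4q2_9.enc h1 h2))⟩
noncomputable def kc4q2_39 : Fn2 := ⟨_, _, fun h1 h2 => (enc_subr 2657 10000 (enc_scale 1511 1670 (kc4q2_9.enc h1 h2)))⟩
noncomputable def kc4q2 : Fn2 := ⟨_, _, fun h1 h2 => (enc_norm (enc_case (kc4q2_9.enc h1 h2) (enc_case (enc_add (kc4q2_9.enc h1 h2) (enc_rat _ 333 1000)) (enc_add (enc_subr 567 334 (enc_neg (enc_scale 567 167 (kc4q2_9.enc h1 h2)))) (enc_mul (enc_norm (kc4q2_3.enc h1 h2)) (enc_norm (enc_add (enc_scale 15033 167 (kc4q2_9.enc h1 h2)) (enc_rat _ 15033 334))))) (enc_case (enc_add (kc4q2_9.enc h1 h2) (enc_rat _ 167 1000)) (enc_add (enc_subr 220527 830000 (kc4q2_27.enc h1 h2)) (enc_mul (enc_norm (kc4q2_3.enc h1 h2)) (enc_norm (enc_add (enc_scale 6083 83 (kc4q2_9.enc h1 h2)) (enc_rat _ 1636689 41500))))) (enc_add (kc4q2_39.enc h1 h2) (enc_mul (enc_norm (kc4q2_3.enc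 h1 h2)) (enc_norm (enc_add (enc_scale 12240 167 (kc4q2_9.enc h1 h2)) (enc_rat _ 39439 1000))))))) (enc_case (enc_subr 167 1000 (kc4q2_9.enc h1 h2)) (enc_add (kc4q2_39.enc h1 h2) (enc_mul (enc_norm (kc4q2_3.enc h1 h2)) (enc_norm (enc_add (enc_scale 12239 167 (kc4q2_9.enc h1 h2)) (enc_rat _ 39439 1000))))) (enc_case (enc_subr 333 1000 (kc4q2_9.enc h1 h2)) (enc_add (enc_subr 44107 166000 (kc4q2_27.enc h1 h2)) (enc_mul (enc_norm (kc4q2_3.enc h1 h2)) (enc_norm (enc_add (enc_scale 12167 166 (kc4q2_9.enc h1 h2)) (enc_rat _ 6546659 166000))))) (enc_add (enc_sub (enc_rat _ 89 835) (enc_scale 178 835 (kc4q2_9.enc h1 h2))) (enc_mul (enc_norm (kc4q2_3.enc h1 h2)) (enc_norm (enc_sub (enc_rat _ 63845 334) (enc_scale 63845 167 (kc4q2_9.enc h1 h2))))))))))⟩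
noncomputable def kfc43 : Fn2 := ⟨_, _, fun h1 h2 => (enc_norm (enc_sub (enc_mul (enc_norm (enc_subn 2 (ycg.enc h1))) (kcg.enc (enc_norm (enc_sub (enc_scale 1 4 (ycg.enc h1)) (enc_half h1))) h2)) (enc_mul (enc_norm (enc_mul (enc_norm (enc_sub (enc_nat 2 h1) (ycg.enc h1))) (enc_norm (enc_sub (enc_add h1 (enc_pnc _ 3)) (enc_scale 3 2 (ycg.enc h1)))))) (enc_inv (enc_nat 4 (enc_subn 1 (ycg.enc h1)))))))⟩
noncomputable def lc43_7 : Fn2 := ⟨_, _, fun h1 h2 => (enc_half h1)⟩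
noncomputable def lc43_8 : Fn2 := ⟨_, _, fun h1 h2 => (enc_scale 1 4 (ycg.enc h1))⟩
noncomputable def lc43_9 : Fn2 := ⟨_, _, fun h1 h2 => (enc_sub (lc43_7.enc h1 h2) (lc43_8.enc h1 h2))⟩
noncomputable def lc43_12 : Fn2 := ⟨_, _, fun h1 h2 => (enc_add (enc_scale 1 4 h1) (enc_scale 3 8 (ycg.enc h1)))⟩
noncomputable def lc43_14 : Fn2 := ⟨_, _, fun h1 h2 => (enc_half (lc43_9.enc h1 h2))⟩
noncomputable def lc43 : Fn2 := ⟨_, _, fun h1 h2 => (enc_norm (enc_sub (enc_nat 2 (txg.enc (enc_norm (enc_sub (lc43_8.enc h1 h2) (lc43_7.enc h1 h2))) (enc_norm (enc_add (lc43_12.enc h1 h2) (lc43_14.enc h1 h2))) h2)) (txg.enc (enc_norm (lc43_9.enc h1 h2)) (enc_norm (enc_sub (lc43_12.enc h1 h2) (lc43_14.enc h1 h2))) h2)))⟩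
noncomputable def kcc43_4 : Fn2 := ⟨_, _, fun h1 h2 => (enc_subr 83 100 h2)⟩
noncomputable def kcc43_9 : Fn2 := ⟨_, _, fun h1 h2 => (enc_sub (enc_half h1) (enc_scale 1 4 (ycg.enc h1)))⟩
noncomputable def kcc43_27 : Fn2 := ⟨_, _, fun h1 h2 => (enc_scale 751 830 (kcc43_9.enc h1 h2))⟩
noncomputable def kcc43_39 : Fn2 := ⟨_, _, fun h1 h2 => (enc_subr 2657 10000 (enc_scale 1511 1670 (kcc43_9.enc h1 h2)))⟩
noncomputable def kcc43 : Fn2 := ⟨_, _, fun h1 h2 => (enc_norm (enc_case (kcc43_9.enc h1 h2) (enc_case (enc_add (kcc43_9.enc h1 h2) (enc_rat _ 333 1000)) (enc_add (enc_subr 567 334 (enc_neg (enc_scale 567 167 (kcc43_9.enc h1 h2)))) (enc_mul (enc_norm (kcc43_4.enc h1 h2)) (enc_norm (enc_add (enc_scale 15033 167 (kcc43_9.enc h1 h2)) (enc_rat _ 15033 334))))) (enc_case (enc_add (kcc43_9.enc h1 h2) (enc_rat _ 167 1000)) (enc_add (enc_subr 220527 830000 (kcc43_27.enc h1 h2)) (enc_mul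 (enc_norm (kcc43_4.enc h1 h2)) (enc_norm (enc_add (enc_scale 6083 83 (kcc43_9.enc h1 h2)) (enc_rat _ 1636689 41500))))) (enc_add (kcc43_39.enc h1 h2) (enc_mul (enc_norm (kcc43_4.enc h1 h2)) (enc_norm (enc_add (enc_scale 12240 167 (kcc43_9.enc h1 h2)) (enc_rat _ 39439 1000))))))) (enc_case (enc_subr 167 1000 (kcc43_9.enc h1 h2)) (enc_add (kcc43_39.enc h1 h2) (enc_mul (enc_norm (kcc43_4.enc h1 h2)) (enc_norm (enc_add (enc_scale 12239 167 (kcc43_9.enc h1 h2)) (enc_rat _ 39439 1000))))) (enc_case (enc_subr 333 1000 (kcc43_9.enc h1 h2)) (enc_add (enc_subr 44107 166000 (kcc43_27.enc h1 h2)) (enc_mul (enc_norm (kcc43_4.enc h1 h2)) (enc_norm (enc_add (enc_scale 12167 166 (kcc43_9.enc h1 h2)) (enc_rat _ 6546659 166000))))) (enc_add (enc_sub (enc_rat _ 89 835) (enc_scale 178 835 (kcc43_9.enc h1 h2))) (enc_mul (enc_norm (kcc43_4.enc h1 h2)) (enc_norm (enc_sub (enc_rat _ 63845 334)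 (enc_scale 63845 167 (kcc43_9.enc h1 h2))))))))))⟩
noncomputable def lm3m : Fn2 := ⟨_, _, fun h1 h2 => (enc_lam (enc_norm (enc_sub h1 (cv3m.enc h2))) (enc_sub (c3g.enc h2) (cv3m.enc h2)))⟩
noncomputable def lm2m : Fn2 := ⟨_, _, fun h1 h2 => (enc_lam (enc_norm (enc_sub h1 (cv2m.enc h2))) (enc_sub (cv3m.enc h2) (cv2m.enc h2)))⟩
noncomputable def bf2q0_3 : Fn2 := ⟨_, _, fun h1 h2 => (enc_subr 83 100 h2)⟩
noncomputable def bf2q0 : Fn2 := ⟨_, _, fun h1 h2 => (enc_norm (enc_case (enc_subr 17 100 h1) (enc_case (enc_subr 1 16 h1) (enc_add (enc_sub (enc_rat _ 89061 100000) (enc_scale 10883 6250 h1)) (enc_mul (enc_norm (bf2q0_3.enc h1 h2)) (enc_norm (enc_subr 2519 10000 (enc_scale 1927 625 h1))))) (enc_add (enc_sub (enc_rat _ 1944365303 1840000000) (enc_scale 505890103 115000000 h1)) (enc_mul (enc_norm (bf2q0_3.enc h1 h2)) (enc_norm (enc_subr 231751291 920000000 (enc_scale 177287291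 57500000 h1)))))) (enc_add (enc_sub (enc_rat _ 388723911 350000000) (enc_scale 616286911 175000000 h1)) (enc_mul (enc_norm (bf2q0_3.enc h1 h2)) (enc_norm (enc_sub (enc_rat _ 1144883927 280000000) (enc_scale 2579939927 140000000 h1)))))))⟩
noncomputable def lm1m : Fn2 := ⟨_, _, fun h1 h2 => (enc_lam (enc_norm (enc_sub h1 (cv1m.enc h2))) (enc_sub (cv2m.enc h2) (cv1m.enc h2)))⟩
noncomputable def lm0m : Fn2 := ⟨_, _, fun h1 h2 => (enc_lam (enc_norm (enc_sub h1 (c1g.enc h2))) (enc_sub (cv1m.enc h2) (c1g.enc h2)))⟩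
noncomputable def rkbq0_35 : Fn3 := ⟨_, _, fun h1 h2 h3 => (enc_add (enc_mul h1 (bf2q0.enc h2 h3)) (enc_mul (enc_norm (enc_mul (enc_norm (enc_sub (enc_pnc _ 1) (lm1m.enc h1 h2))) (cv1m.enc h2))) (enc_norm (enc_sub (bf1q0.enc h2 h3) (bf2q0.enc h2 h3)))))⟩
noncomputable def rkbq0_37 : Fn3 := ⟨_, _, fun h1 h2 h3 => (enc_sub (enc_pnc _ 1) h2)⟩
noncomputable def rkbq0_38 : Fn3 := ⟨_, _, fun h1 h2 h3 => (gsg.enc (enc_norm (rkbq0_37.enc h1 h2 h3)))⟩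
noncomputable def rkbq0_41 : Fn3 := ⟨_, _, fun h1 h2 h3 => (enc_sub (enc_scale 3 4 (rkbq0_37.enc h1 h2 h3)) (enc_half (rkbq0_38.enc h1 h2 h3)))⟩
noncomputable def rkbq0_61 : Fn3 := ⟨_, _, fun h1 h2 h3 => (enc_sub h1 (cv1m.enc h2))⟩
noncomputable def rkbq0 : Fn3 := ⟨_, _, fun h1 h2 h3 => (enc_case (rkbq0_61.enc h1 h2 h3) (enc_add (enc_mul h1 (bf1q0.enc h2 h3)) (enc_mul (enc_norm (enc_sub (enc_pnc _ 1) (lm0m.enc h1 h2))) (enc_norm (enc_sub (kf0q0.enc h2 h3) (enc_mul (c1g.enc h2) (bf1q0.enc h2 h3)))))) (enc_case (enc_sub h1 (cv2m.enc h2)) (enc_case (enc_subr 3 25 h2) (rkbq0_35.enc h1 h2 h3) (enc_case (enc_subr 11 50 h2) (enc_add (kf1q0.enc h2 h3) (enc_mul (enc_norm (enc_mul (enc_norm (rkbq0_61.enc h1 h2 h3)) (enc_inv (enc_sub (enc_add (swg.enc h2) (enc_rat _ 1 2)) (cv1m.enc h2))))) (enc_norm (enc_sub (enc_mul h2 (enc_norm (enc_sub (enc_mul (enc_norm (enc_sub (rkbq0_41.enc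 h1 h2 h3) (enc_sub (enc_rat _ 1 4) (enc_scale 3 8 (enc_mul (enc_norm (rkbq0_37.enc h1 h2 h3)) (enc_inv (rkbq0_38.enc h1 h2 h3))))))) (enc_inv (esg.enc (enc_norm (rkbq0_37.enc h1 h2 h3))))) (kcg.enc (enc_norm (rkbq0_41.enc h1 h2 h3)) h3)))) (kf1q0.enc h2 h3))))) (rkbq0_35.enc h1 h2 h3))) (enc_case (enc_sub h1 (cv3m.enc h2)) (enc_add (enc_mul h1 (bf3q0.enc h2 h3)) (enc_mul (enc_norm (enc_sub (enc_pnc _ 1) (lm2m.enc h1 h2))) (enc_norm (enc_sub (kf2q0.enc h2 h3) (enc_mul (cv2m.enc h2) (bf3q0.enc h2 h3)))))) (enc_add (kf3q0.enc h2 h3) (enc_mul (lm3m.enc h1 h2) (enc_norm (enc_sub (kf4q0.enc h2 h3) (kf3q0.enc h2 h3))))))))⟩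
noncomputable def rsbq0 : Fn3 := ⟨_, _, fun h1 h2 h3 => (enc_case h1 (enc_neg (rkbq0.enc (enc_neg h1) h2 h3)) (rkbq0.enc h1 h2 h3))⟩
noncomputable def rkbq1 : Fn3 := ⟨_, _, fun h1 h2 h3 => (enc_case (enc_sub h1 (cv1m.enc h2)) (enc_add (enc_mul h1 (bf1q1.enc h2 h3)) (enc_mul (enc_norm (enc_sub (enc_pnc _ 1) (lm0m.enc h1 h2))) (enc_norm (enc_sub (kf0q1.enc h2 h3) (enc_mul (c1g.enc h2) (bf1q1.enc h2 h3)))))) (enc_case (enc_sub h1 (cv2m.enc h2)) (enc_add (enc_mul h1 (bf2q1.enc h2 h3)) (enc_mul (enc_norm (enc_mul (enc_norm (enc_sub (enc_pnc _ 1) (lm1m.enc h1 h2))) (cv1m.enc h2))) (enc_norm (enc_sub (bf1q1.enc h2 h3) (bf2q1.enc h2 h3))))) (enc_case (enc_sub h1 (cv3m.enc h2)) (enc_add (enc_mul h1 (bf3q1.enc h2 h3)) (enc_mul (enc_norm (enc_mul (enc_norm (enc_sub (enc_pnc _ 1) (lm2m.enc h1 h2))) (cv2m.enc h2))) (enc_norm (enc_sub (bf2q1.enc h2 h3) (bf3q1.enc h2 h3))))) (enc_add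 (kf3q1.enc h2 h3) (enc_mul (lm3m.enc h1 h2) (enc_norm (enc_sub (kf4q1.enc h2 h3) (kf3q1.enc h2 h3))))))))⟩
noncomputable def rsbq1 : Fn3 := ⟨_, _, fun h1 h2 h3 => (enc_case h1 (enc_neg (rkbq1.enc (enc_neg h1) h2 h3)) (rkbq1.enc h1 h2 h3))⟩
noncomputable def cv1p : Fn1 := ⟨_, _, fun h1 => (enc_norm (enc_add (enc_scale 3 5 (c1g.enc h1)) (enc_scale 2 5 (enc_subr 1 2 (swg.enc h1)))))⟩
noncomputable def lm3p : Fn2 := ⟨_, _, fun h1 h2 => (enc_lam (enc_norm (enc_sub h1 (cv3p.enc h2))) (enc_sub (c3g.enc h2) (cv3p.enc h2)))⟩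
noncomputable def lm2p : Fn2 := ⟨_, _, fun h1 h2 => (enc_lam (enc_norm (enc_sub h1 (cv2p.enc h2))) (enc_sub (cv3p.enc h2) (cv2p.enc h2)))⟩
noncomputable def lm1p : Fn2 := ⟨_, _, fun h1 h2 => (enc_lam (enc_norm (enc_sub h1 (cv1p.enc h2))) (enc_sub (cv2p.enc h2) (cv1p.enc h2)))⟩
noncomputable def kf0q2 : Fn2 := ⟨_, _, fun h1 h2 => (enc_norm (enc_add (c1g.enc h1) (enc_mul (enc_norm (enc_subn 1 h1)) (kcg.enc (enc_neg (c1g.enc h1)) h2))))⟩
noncomputable def lm0p : Fn2 := ⟨_, _, fun h1 h2 => (enc_lam (enc_norm (enc_sub h1 (c1g.enc h2))) (enc_sub (cv1p.enc h2) (c1g.enc h2)))⟩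
noncomputable def n0b : Fn2 := ⟨_, _, fun h1 h2 => (enc_norm (enc_sub (enc_pnc _ 1) (enc_mul (enc_norm (enc_subn 1 h1)) (enc_norm (enc_sub (enc_rat _ 249273 100000) (enc_scale 202073 10000 (enc_subr 83 100 h2)))))))⟩
noncomputable def rkbq2_40 : Fn3 := ⟨_, _, fun h1 h2 h3 => (enc_mul h1 (bf1q2.enc h2 h3))⟩
noncomputable def rkbq2_42 : Fn3 := ⟨_, _, fun h1 h2 h3 => (enc_sub (enc_pnc _ 1) (lm0p.enc h1 h2))⟩
noncomputable def rkbq2 : Fn3 := ⟨_, _, fun h1 h2 h3 => (enc_case (enc_sub h1 (cv1p.enc h2)) (enc_case (enc_subr 1151 1000 h2) (enc_add (rkbq2_40.enc h1 h2 h3) (enc_mul (enc_norm (rkbq2_42.enc h1 h2 h3)) (enc_norm (enc_sub (kf0q2.enc h2 h3) (enc_mul (c1g.enc h2) (bf1q2.enc h2 h3)))))) (enc_case (enc_subr 2887 2500 h2) (enc_add (rkbq2_40.enc h1 h2 h3) (enc_mul (enc_norm (rkbq2_42.enc h1 h2 h3)) (enc_norm (enc_mul (c1g.enc h2) (enc_norm (enc_sub (n0b.enc h2 h3) (bf1q2.enc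 h2 h3))))))) (rkbq2_40.enc h1 h2 h3))) (enc_case (enc_sub h1 (cv2p.enc h2)) (enc_add (enc_mul h1 (bf2q2.enc h2 h3)) (enc_mul (enc_norm (enc_mul (enc_norm (enc_sub (enc_pnc _ 1) (lm1p.enc h1 h2))) (cv1p.enc h2))) (enc_norm (enc_sub (bf1q2.enc h2 h3) (bf2q2.enc h2 h3))))) (enc_case (enc_sub h1 (cv3p.enc h2)) (enc_add (enc_mul h1 (bf3q2.enc h2 h3)) (enc_mul (enc_norm (enc_mul (enc_norm (enc_sub (enc_pnc _ 1) (lm2p.enc h1 h2))) (cv2p.enc h2))) (enc_norm (enc_sub (bf2q2.enc h2 h3) (bf3q2.enc h2 h3))))) (enc_add (kf3q2.enc h2 h3) (enc_mul (lm3p.enc h1 h2) (enc_norm (enc_sub (kf4q2.enc h2 h3) (kf3q2.enc h2 h3))))))))⟩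
noncomputable def rsbq2 : Fn3 := ⟨_, _, fun h1 h2 h3 => (enc_case h1 (enc_neg (rkbq2.enc (enc_neg h1) h2 h3)) (rkbq2.enc h1 h2 h3))⟩
noncomputable def cv2r : Fn1 := ⟨_, _, fun h1 => (enc_norm (enc_add (enc_scale 17 20 (enc_subr 1 2 (swg.enc h1))) (enc_scale 3 20 (c3g.enc h1))))⟩
noncomputable def cv3r : Fn1 := ⟨_, _, fun h1 => (enc_norm (enc_add (enc_half (enc_subr 1 2 (swg.enc h1))) (enc_half (c3g.enc h1))))⟩
noncomputable def kf3q3_4 : Fn2 := ⟨_, _, fun h1 h2 => (enc_subr 83 100 h2)⟩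
noncomputable def kf3q3_11 : Fn2 := ⟨_, _, fun h1 h2 => (enc_sub (enc_rat _ 37491 100000) (enc_scale 61 400 h1))⟩
noncomputable def kf3q3 : Fn2 := ⟨_, _, fun h1 h2 => (enc_norm (enc_mul (cv3r.enc h1) (enc_norm (enc_case (enc_subr 89 50 h1) (enc_add (kf3q3_11.enc h1 h2) (enc_mul (enc_norm (kf3q3_4.enc h1 h2)) (enc_norm (enc_subr 1750549 35000 (enc_scale 4757 175 h1))))) (enc_case (enc_subr 47 25 h1) (enc_add (kf3q3_11.enc h1 h2) (enc_mul (enc_norm (kf3q3_4.enc h1 h2)) (enc_norm (enc_subr 2500797 50000 (enc_scale 27183 1000 h1))))) (enc_add (enc_sub (enc_rat _ 1 2) (enc_scale 102947500 147732867 (c3g.enc h1))) (enc_mul (enc_norm (kf3q3_4.enc h1 h2)) (enc_scale 30225000 16414763 (c3g.enc h1)))))))))⟩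
noncomputable def kf4q3 : Fn2 := ⟨_, _, fun h1 h2 => (enc_norm (enc_sub (enc_mul (enc_norm (enc_subn 2 h1)) (kcg.enc (enc_norm (enc_sub (enc_scale 1 4 h1) (enc_half (c3g.enc h1)))) h2)) (enc_mul (enc_norm (enc_mul (enc_norm (enc_sub (enc_nat 2 (c3g.enc h1)) h1)) (enc_norm (enc_sub (enc_add (c3g.enc h1) (enc_pnc _ 3)) (enc_scale 3 2 h1))))) (enc_inv (enc_nat 4 (enc_subn 1 h1))))))⟩
noncomputable def lm3r : Fn2 := ⟨_, _, fun h1 h2 => (enc_lam (enc_norm (enc_sub h1 (cv3r.enc h2))) (enc_sub (c3g.enc h2) (cv3r.enc h2)))⟩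
noncomputable def bf3q3_3 : Fn2 := ⟨_, _, fun h1 h2 => (enc_subr 83 100 h2)⟩
noncomputable def bf3q3_10 : Fn2 := ⟨_, _, fun h1 h2 => (enc_sub (enc_rat _ 37491 100000) (enc_scale 61 400 h1))⟩
noncomputable def bf3q3 : Fn2 := ⟨_, _, fun h1 h2 => (enc_norm (enc_case (enc_subr 89 50 h1) (enc_add (bf3q3_10.enc h1 h2) (enc_mul (enc_norm (bf3q3_3.enc h1 h2)) (enc_norm (enc_subr 1750549 35000 (enc_scale 4757 175 h1))))) (enc_case (enc_subr 47 25 h1) (enc_add (bf3q3_10.enc h1 h2) (enc_mul (enc_norm (bf3q3_3.enc h1 h2)) (enc_norm (enc_subr 2500797 50000 (enc_scale 27183 1000 h1))))) (enc_add (enc_sub (enc_rat _ 1 2) (enc_scale 102947500 147732867 (c3g.enc h1))) (enc_mul (enc_norm (bf3q3_3.enc h1 h2)) (enc_scale 30225000 16414763 (c3g.enc h1)))))))⟩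
noncomputable def lm2r : Fn2 := ⟨_, _, fun h1 h2 => (enc_lam (enc_norm (enc_sub h1 (cv2r.enc h2))) (enc_sub (cv3r.enc h2) (cv2r.enc h2)))⟩
noncomputable def kf2q3_4 : Fn2 := ⟨_, _, fun h1 h2 => (enc_subr 83 100 h2)⟩
noncomputable def kf2q3_40 : Fn2 := ⟨_, _, fun h1 h2 => (enc_subn 1 h1)⟩
noncomputable def kf2q3_41 : Fn2 := ⟨_, _, fun h1 h2 => (gsg.enc (enc_norm (kf2q3_40.enc h1 h2)))⟩
noncomputable def kf2q3_42 : Fn2 := ⟨_, _, fun h1 h2 => (enc_scale 3 4 (kf2q3_40.enc h1 h2))⟩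
noncomputable def kf2q3_43 : Fn2 := ⟨_, _, fun h1 h2 => (enc_half (kf2q3_41.enc h1 h2))⟩
noncomputable def kf2q3_62 : Fn2 := ⟨_, _, fun h1 h2 => (enc_subr 89 50 h1)⟩
noncomputable def kf2q3_74 : Fn2 := ⟨_, _, fun h1 h2 => (enc_subr 47 25 h1)⟩
noncomputable def kf2q3_96 : Fn2 := ⟨_, _, fun h1 h2 => (enc_mul (cv1r.enc h1) (enc_norm (enc_case (kf2q3_62.enc h1 h2) (enc_add (enc_sub (enc_rat _ 16479 21875) (enc_scale 9721 14000 h1)) (enc_mul (enc_norm (kf2q3_4.enc h1 h2)) (enc_norm (enc_subr 15176401 140000 (enc_scale 33583 560 h1))))) (enc_case (kf2q3_74.enc h1 h2) (enc_add (enc_sub (enc_rat _ 376701 500000) (enc_scale 434 625 h1)) (enc_mul (enc_norm (kf2q3_4.enc h1 h2)) (enc_norm (enc_subr 216807 2000 (enc_scale 5997 100 h1))))) (enc_add (enc_subr 76623 100000 (enc_scale 53540000 147732867 (c3g.enc h1))) (enc_mul (enc_norm (kf2q3_4.enc h1 h2)) (enc_norm (enc_add (enc_scale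 585700000 147732867 (c3g.enc h1)) (enc_rat _ 19973 10000)))))))))⟩
noncomputable def kf2q3 : Fn2 := ⟨_, _, fun h1 h2 => (enc_norm (enc_case (kf2q3_62.enc h1 h2) (enc_mul (cv2r.enc h1) (enc_norm (enc_add (enc_subr 8858856619 5600000000 (enc_scale 2805578873 2800000000 h1)) (enc_mul (enc_norm (kf2q3_4.enc h1 h2)) (enc_norm (enc_sub (enc_rat _ 77985729 1400000) (enc_scale 21867623 700000 h1))))))) (enc_case (kf2q3_74.enc h1 h2) (enc_add (kf2q3_96.enc h1 h2) (enc_mul (enc_norm (enc_mul (enc_norm (enc_sub (enc_mul (enc_norm (enc_subn 2 h1)) (enc_norm (enc_add (enc_mul (enc_norm (enc_sub (enc_sub (kf2q3_43.enc h1 h2) (kf2q3_42.enc h1 h2)) (enc_sub (enc_rat _ 1 4) (enc_scale 3 8 (enc_mul (enc_norm (kf2q3_40.enc h1 h2)) (enc_inv (kf2q3_41.enc h1 h2))))))) (enc_inv (esg.enc (enc_norm (kf2q3_40.enc h1 h2))))) (kcg.enc (enc_norm (enc_sub (kf2q3_42.enc h1 h2) (kf2q3_43.enc h1 h2)))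 h2)))) (kf2q3_96.enc h1 h2))) (enc_norm (enc_sub (cv2r.enc h1) (cv1r.enc h1))))) (enc_inv (enc_sub (enc_subr 1 2 (swg.enc h1)) (cv1r.enc h1))))) (enc_mul (cv2r.enc h1) (enc_norm (enc_case (enc_sub (enc_rat _ 429616471 1000000000) (c3g.enc h1)) (enc_add (enc_subr 2987794605918700603 1613149970000000000 (enc_scale 6145652893 1613149970 (c3g.enc h1))) (enc_mul (enc_norm (kf2q3_4.enc h1 h2)) (enc_norm (enc_sub (enc_rat _ 149139926126999191 20164374625000000) (enc_scale 2346678568 161314997 (c3g.enc h1)))))) (enc_add (enc_sub (enc_rat _ 1 2) (enc_scale 715430000 429616471 (c3g.enc h1))) (enc_mul (enc_norm (kf2q3_4.enc h1 h2)) (enc_scale 1146500000 429616471 (c3g.enc h1))))))))))⟩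
noncomputable def bf2q3_3 : Fn2 := ⟨_, _, fun h1 h2 => (enc_subr 83 100 h2)⟩
noncomputable def bf2q3 : Fn2 := ⟨_, _, fun h1 h2 => (enc_norm (enc_case (enc_subr 183 100 h1) (enc_add (enc_subr 8858856619 5600000000 (enc_scale 2805578873 2800000000 h1)) (enc_mul (enc_norm (bf2q3_3.enc h1 h2)) (enc_norm (enc_sub (enc_rat _ 77985729 1400000) (enc_scale 21867623 700000 h1))))) (enc_case (enc_sub (enc_rat _ 429616471 1000000000) (c3g.enc h1)) (enc_add (enc_subr 2987794605918700603 1613149970000000000 (enc_scale 6145652893 1613149970 (c3g.enc h1))) (enc_mul (enc_norm (bf2q3_3.enc h1 h2)) (enc_norm (enc_sub (enc_rat _ 149139926126999191 20164374625000000) (enc_scale 2346678568 161314997 (c3g.enc h1)))))) (enc_add (enc_sub (enc_rat _ 1 2) (enc_scale 715430000 429616471 (c3g.enc h1))) (enc_mul (enc_norm (bf2q3_3.enc h1 h2)) (enc_scale 1146500000 429616471 (c3g.enc h1)))))))⟩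
noncomputable def lm1r : Fn2 := ⟨_, _, fun h1 h2 => (enc_lam (enc_norm (enc_sub h1 (cv1r.enc h2))) (enc_sub (cv2r.enc h2) (cv1r.enc h2)))⟩
noncomputable def bf1q3_3 : Fn2 := ⟨_, _, fun h1 h2 => (enc_subr 83 100 h2)⟩
noncomputable def bf1q3 : Fn2 := ⟨_, _, fun h1 h2 => (enc_norm (enc_case (enc_subr 89 50 h1) (enc_add (enc_sub (enc_rat _ 16479 21875) (enc_scale 9721 14000 h1)) (enc_mul (enc_norm (bf1q3_3.enc h1 h2)) (enc_norm (enc_subr 15176401 140000 (enc_scale 33583 560 h1))))) (enc_case (enc_subr 47 25 h1) (enc_add (enc_sub (enc_rat _ 376701 500000) (enc_scale 434 625 h1)) (enc_mul (enc_norm (bf1q3_3.enc h1 h2)) (enc_norm (enc_subr 216807 2000 (enc_scale 5997 100 h1))))) (enc_add (enc_subr 76623 100000 (enc_scale 53540000 147732867 (c3g.enc h1))) (enc_mul (enc_norm (bf1q3_3.enc h1 h2)) (enc_norm (enc_add (enc_scale 585700000 147732867 (c3g.enc h1)) (enc_rat _ 19973 10000))))))))⟩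
noncomputable def rkbq3_35 : Fn3 := ⟨_, _, fun h1 h2 h3 => (enc_add (enc_mul h1 (bf2q3.enc h2 h3)) (enc_mul (enc_norm (enc_mul (enc_norm (enc_sub (enc_pnc _ 1) (lm1r.enc h1 h2))) (cv1r.enc h2))) (enc_norm (enc_sub (bf1q3.enc h2 h3) (bf2q3.enc h2 h3)))))⟩
noncomputable def rkbq3_36 : Fn3 := ⟨_, _, fun h1 h2 h3 => (enc_subn 1 h2)⟩
noncomputable def rkbq3_37 : Fn3 := ⟨_, _, fun h1 h2 h3 => (gsg.enc (enc_norm (rkbq3_36.enc h1 h2 h3)))⟩
noncomputable def rkbq3_38 : Fn3 := ⟨_, _, fun h1 h2 h3 => (enc_scale 3 4 (rkbq3_36.enc h1 h2 h3))⟩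
noncomputable def rkbq3_39 : Fn3 := ⟨_, _, fun h1 h2 h3 => (enc_half (rkbq3_37.enc h1 h2 h3))⟩
noncomputable def rkbq3_61 : Fn3 := ⟨_, _, fun h1 h2 h3 => (enc_sub h1 (cv1r.enc h2))⟩
noncomputable def rkbq3 : Fn3 := ⟨_, _, fun h1 h2 h3 => (enc_case (rkbq3_61.enc h1 h2 h3) (enc_mul h1 (bf1q3.enc h2 h3)) (enc_case (enc_sub h1 (cv2r.enc h2)) (enc_case (enc_subr 89 50 h2) (rkbq3_35.enc h1 h2 h3) (enc_case (enc_subr 47 25 h2) (enc_add (kf1q3.enc h2 h3) (enc_mul (enc_norm (enc_mul (enc_norm (rkbq3_61.enc h1 h2 h3)) (enc_inv (enc_sub (enc_subr 1 2 (swg.enc h2)) (cv1r.enc h2))))) (enc_norm (enc_sub (enc_mul (enc_norm (enc_subn 2 h2)) (enc_norm (enc_add (enc_mul (enc_norm (enc_sub (enc_sub (rkbq3_39.enc h1 h2 h3) (rkbq3_38.enc h1 h2 h3)) (enc_sub (enc_rat _ 1 4) (enc_scale 3 8 (enc_mul (enc_norm (rkbq3_36.enc h1 h2 h3)) (enc_inv (rkbq3_37.enc h1 h2 h3))))))) (enc_inv (esg.enc (enc_norm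 (rkbq3_36.enc h1 h2 h3))))) (kcg.enc (enc_norm (enc_sub (rkbq3_38.enc h1 h2 h3) (rkbq3_39.enc h1 h2 h3))) h3)))) (kf1q3.enc h2 h3))))) (rkbq3_35.enc h1 h2 h3))) (enc_case (enc_sub h1 (cv3r.enc h2)) (enc_add (enc_mul h1 (bf3q3.enc h2 h3)) (enc_mul (enc_norm (enc_sub (enc_pnc _ 1) (lm2r.enc h1 h2))) (enc_norm (enc_sub (kf2q3.enc h2 h3) (enc_mul (cv2r.enc h2) (bf3q3.enc h2 h3)))))) (enc_add (kf3q3.enc h2 h3) (enc_mul (lm3r.enc h1 h2) (enc_norm (enc_sub (kf4q3.enc h2 h3) (kf3q3.enc h2 h3))))))))⟩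
noncomputable def rsbq3 : Fn3 := ⟨_, _, fun h1 h2 h3 => (enc_case h1 (enc_neg (rkbq3.enc (enc_neg h1) h2 h3)) (rkbq3.enc h1 h2 h3))⟩
noncomputable def bx2q0_3 : Fn2 := ⟨_, _, fun h1 h2 => (enc_subr 83 100 h2)⟩
noncomputable def bx2q0_27 : Fn2 := ⟨_, _, fun h1 h2 => (enc_sq (enc_norm (bx2q0_3.enc h1 h2)))⟩
noncomputable def bx2q0 : Fn2 := ⟨_, _, fun h1 h2 => (enc_norm (enc_case (enc_subr 17 100 h1) (enc_case (enc_subr 1 16 h1) (enc_add (enc_add (enc_scale 749 1250 h1) (enc_rat _ 1297 20000)) (enc_mul (enc_norm (bx2q0_3.enc h1 h2)) (enc_norm (enc_add (enc_scale 1357 625 h1) (enc_rat _ 21 200))))) (enc_add (enc_add (enc_add (enc_scale 138169087 575000000 h1) (enc_rat _ 802990913 9200000000)) (enc_mul (enc_norm (bx2q0_3.enc h1 h2)) (enc_norm (enc_sub (enc_rat _ 339651107 920000000) (enc_scale 118207107 57500000 h1))))) (enc_mul (bx2q0_27.enc h1 h2) (enc_norm (enc_subr 42293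 460000 (enc_scale 42293 28750 h1)))))) (enc_case (enc_subr 131 500 h1) (enc_add (enc_add (enc_sub (enc_rat _ 15884234239 105000000000) (enc_scale 31779269 210000000 h1)) (enc_mul (enc_norm (bx2q0_3.enc h1 h2)) (enc_norm (enc_sub (enc_rat _ 1413801647 2100000000) (enc_scale 12082837 4200000 h1))))) (enc_mul (bx2q0_27.enc h1 h2) (enc_norm (enc_sub (enc_rat _ 1298341 4200000) (enc_scale 9911 8400 h1))))) (enc_add (enc_sub (enc_rat _ 1799997 11900000) (enc_scale 18 119 h1)) (enc_mul (enc_norm (bx2q0_3.enc h1 h2)) (enc_norm (enc_subr 4633 42500 (enc_scale 37 340 h1))))))))⟩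
noncomputable def rxq0_35 : Fn3 := ⟨_, _, fun h1 h2 h3 => (enc_add (enc_mul h1 (bx2q0.enc h2 h3)) (enc_mul (enc_norm (enc_mul (enc_norm (enc_sub (enc_pnc _ 1) (lm1m.enc h1 h2))) (cv1m.enc h2))) (enc_norm (enc_sub (bx1q0.enc h2 h3) (bx2q0.enc h2 h3)))))⟩
noncomputable def rxq0_37 : Fn3 := ⟨_, _, fun h1 h2 h3 => (enc_sub (enc_pnc _ 1) h2)⟩
noncomputable def rxq0_54 : Fn3 := ⟨_, _, fun h1 h2 h3 => (enc_sub h1 (cv1m.enc h2))⟩
noncomputable def rxq0 : Fn3 := ⟨_, _, fun h1 h2 h3 => (enc_case (rxq0_54.enc h1 h2 h3) (enc_add (enc_mul h1 (bx1q0.enc h2 h3)) (enc_mul (enc_norm (enc_sub (enc_pnc _ 1) (lm0m.enc h1 h2))) (enc_norm (enc_sub (l0q0.enc h2 h3) (enc_mul (c1g.enc h2) (bx1q0.enc h2 h3)))))) (enc_case (enc_sub h1 (cv2m.enc h2)) (enc_case (enc_subr 3 25 h2) (rxq0_35.enc h1 h2 h3) (enc_case (enc_subr 11 50 h2) (enc_add (l1q0.enc h2 h3) (enc_mul (enc_norm (enc_mul (enc_norm (rxq0_54.enc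 h1 h2 h3)) (enc_inv (enc_sub (enc_add (swg.enc h2) (enc_rat _ 1 2)) (cv1m.enc h2))))) (enc_norm (enc_sub (enc_sub (qsg.enc (enc_norm (rxq0_37.enc h1 h2 h3))) (enc_mul (enc_norm (enc_nat 2 (enc_sub (rxq0_37.enc h1 h2 h3) h3))) (enc_norm (enc_mul (esg.enc (enc_norm (rxq0_37.enc h1 h2 h3))) (kcg.enc (enc_norm (enc_sub (enc_scale 3 4 (rxq0_37.enc h1 h2 h3)) (enc_half (gsg.enc (enc_norm (rxq0_37.enc h1 h2 h3)))))) h3))))) (l1q0.enc h2 h3))))) (rxq0_35.enc h1 h2 h3))) (enc_case (enc_sub h1 (cv3m.enc h2)) (enc_add (enc_mul h1 (bx3q0.enc h2 h3)) (enc_mul (enc_norm (enc_sub (enc_pnc _ 1) (lm2m.enc h1 h2))) (enc_norm (enc_sub (l2q0.enc h2 h3) (enc_mul (cv2m.enc h2) (bx3q0.enc h2 h3)))))) (enc_add (l3q0.enc h2 h3) (enc_mul (lm3m.enc h1 h2) (enc_norm (enc_sub (l4q0.enc h2 h3) (l3q0.enc h2 h3))))))))⟩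
noncomputable def rlq0 : Fn3 := ⟨_, _, fun h1 h2 h3 => (enc_case h1 (enc_neg (rxq0.enc (enc_neg h1) h2 h3)) (rxq0.enc h1 h2 h3))⟩
noncomputable def rxq1 : Fn3 := ⟨_, _, fun h1 h2 h3 => (enc_case (enc_sub h1 (cv1m.enc h2)) (enc_add (enc_mul h1 (bx1q1.enc h2 h3)) (enc_mul (enc_norm (enc_sub (enc_pnc _ 1) (lm0m.enc h1 h2))) (enc_norm (enc_sub (l0q1.enc h2 h3) (enc_mul (c1g.enc h2) (bx1q1.enc h2 h3)))))) (enc_case (enc_sub h1 (cv2m.enc h2)) (enc_add (enc_mul h1 (bx2q1.enc h2 h3)) (enc_mul (enc_norm (enc_mul (enc_norm (enc_sub (enc_pnc _ 1) (lm1m.enc h1 h2))) (cv1m.enc h2))) (enc_norm (enc_sub (bx1q1.enc h2 h3) (bx2q1.enc h2 h3))))) (enc_case (enc_sub h1 (cv3m.enc h2)) (enc_add (enc_mul h1 (bx3q1.enc h2 h3)) (enc_mul (enc_norm (enc_mul (enc_norm (enc_sub (enc_pnc _ 1) (lm2m.enc h1 h2))) (cv2m.enc h2))) (enc_norm (enc_sub (bx2q1.enc h2 h3) (bx3q1.enc h2 h3))))) (enc_add (l3q1.enc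 h2 h3) (enc_mul (lm3m.enc h1 h2) (enc_norm (enc_sub (l4q1.enc h2 h3) (l3q1.enc h2 h3))))))))⟩
noncomputable def rlq1 : Fn3 := ⟨_, _, fun h1 h2 h3 => (enc_case h1 (enc_neg (rxq1.enc (enc_neg h1) h2 h3)) (rxq1.enc h1 h2 h3))⟩
noncomputable def l0q2_7 : Fn2 := ⟨_, _, fun h1 h2 => (enc_scale 3 4 h1)⟩
noncomputable def l0q2_8 : Fn2 := ⟨_, _, fun h1 h2 => (enc_half (c1g.enc h1))⟩
noncomputable def l0q2 : Fn2 := ⟨_, _, fun h1 h2 => (enc_norm (enc_sub (txg.enc (enc_neg (c1g.enc h1)) (enc_norm (enc_add (l0q2_7.enc h1 h2) (l0q2_8.enc h1 h2))) h2) (txg.enc (c1g.enc h1) (enc_norm (enc_sub (l0q2_7.enc h1 h2) (l0q2_8.enc h1 h2))) h2)))⟩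
noncomputable def n0x : Fn2 := ⟨_, _, fun h1 h2 => (enc_norm (enc_subr 4329 25000 (enc_neg (enc_scale 82 625 (enc_subr 83 100 h2)))))⟩
noncomputable def rxq2_40 : Fn3 := ⟨_, _, fun h1 h2 h3 => (enc_mul h1 (bx1q2.enc h2 h3))⟩
noncomputable def rxq2_42 : Fn3 := ⟨_, _, fun h1 h2 h3 => (enc_sub (enc_pnc _ 1) (lm0p.enc h1 h2))⟩
noncomputable def rxq2 : Fn3 := ⟨_, _, fun h1 h2 h3 => (enc_case (enc_sub h1 (cv1p.enc h2)) (enc_case (enc_subr 1149 1000 h2) (enc_add (rxq2_40.enc h1 h2 h3) (enc_mul (enc_norm (rxq2_42.enc h1 h2 h3)) (enc_norm (enc_sub (l0q2.enc h2 h3) (enc_mul (c1g.enc h2) (bx1q2.enc h2 h3)))))) (enc_case (enc_subr 2887 2500 h2) (enc_add (rxq2_40.enc h1 h2 h3) (enc_mul (enc_norm (rxq2_42.enc h1 h2 h3)) (enc_norm (enc_mul (c1g.enc h2) (enc_norm (enc_sub (n0x.enc h2 h3) (bx1q2.enc h2 h3))))))) (rxq2_40.enc h1 h2 h3))) (enc_case (enc_sub h1 (cv2p.enc h2)) (enc_add (enc_mul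 h1 (bx2q2.enc h2 h3)) (enc_mul (enc_norm (enc_mul (enc_norm (enc_sub (enc_pnc _ 1) (lm1p.enc h1 h2))) (cv1p.enc h2))) (enc_norm (enc_sub (bx1q2.enc h2 h3) (bx2q2.enc h2 h3))))) (enc_case (enc_sub h1 (cv3p.enc h2)) (enc_add (enc_mul h1 (bx3q2.enc h2 h3)) (enc_mul (enc_norm (enc_mul (enc_norm (enc_sub (enc_pnc _ 1) (lm2p.enc h1 h2))) (cv2p.enc h2))) (enc_norm (enc_sub (bx2q2.enc h2 h3) (bx3q2.enc h2 h3))))) (enc_add (l3q2.enc h2 h3) (enc_mul (lm3p.enc h1 h2) (enc_norm (enc_sub (l4q2.enc h2 h3) (l3q2.enc h2 h3))))))))⟩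
noncomputable def rlq2 : Fn3 := ⟨_, _, fun h1 h2 h3 => (enc_case h1 (enc_neg (rxq2.enc (enc_neg h1) h2 h3)) (rxq2.enc h1 h2 h3))⟩
noncomputable def l3q3_4 : Fn2 := ⟨_, _, fun h1 h2 => (enc_subr 83 100 h2)⟩
noncomputable def l3q3 : Fn2 := ⟨_, _, fun h1 h2 => (enc_norm (enc_mul (cv3r.enc h1) (enc_norm (enc_case (enc_subr 47 25 h1) (enc_case (enc_subr 89 50 h1) (enc_add (enc_subr 1188501 1400000 (enc_scale 19891 28000 h1)) (enc_mul (enc_norm (l3q3_4.enc h1 h2)) (enc_norm (enc_sub (enc_rat _ 137247 17500) (enc_scale 559 140 h1))))) (enc_add (enc_subr 424471 500000 (enc_scale 444 625 h1)) (enc_mul (enc_norm (l3q3_4.enc h1 h2)) (enc_norm (enc_sub (enc_rat _ 392147 50000) (enc_scale 3993 1000 h1)))))) (enc_case (enc_sub (enc_rat _ 429616471 1000000000) (c3g.enc h1)) (enc_add (enc_sub (enc_rat _ 11460340338497 16131499700000) (enc_scale 61100000 161314997 (c3g.enc h1))) (enc_mul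 (enc_norm (l3q3_4.enc h1 h2)) (enc_norm (enc_subr 234895175503 1613149970000 (enc_scale 131500000 161314997 (c3g.enc h1)))))) (enc_add (enc_add (enc_scale 54785000 429616471 (c3g.enc h1)) (enc_rat _ 19717 40000)) (enc_mul (enc_norm (l3q3_4.enc h1 h2)) (enc_norm (enc_sub (enc_rat _ 97 80) (enc_scale 1007900000 429616471 (c3g.enc h1)))))))))))⟩
noncomputable def l4q3_7 : Fn2 := ⟨_, _, fun h1 h2 => (enc_half (c3g.enc h1))⟩
noncomputable def l4q3_8 : Fn2 := ⟨_, _, fun h1 h2 => (enc_scale 1 4 h1)⟩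
noncomputable def l4q3_9 : Fn2 := ⟨_, _, fun h1 h2 => (enc_sub (l4q3_7.enc h1 h2) (l4q3_8.enc h1 h2))⟩
noncomputable def l4q3_12 : Fn2 := ⟨_, _, fun h1 h2 => (enc_add (enc_scale 1 4 (c3g.enc h1)) (enc_scale 3 8 h1))⟩
noncomputable def l4q3_14 : Fn2 := ⟨_, _, fun h1 h2 => (enc_half (l4q3_9.enc h1 h2))⟩
noncomputable def l4q3 : Fn2 := ⟨_, _, fun h1 h2 => (enc_norm (enc_sub (enc_nat 2 (txg.enc (enc_norm (enc_sub (l4q3_8.enc h1 h2) (l4q3_7.enc h1 h2))) (enc_norm (enc_add (l4q3_12.enc h1 h2) (l4q3_14.enc h1 h2))) h2)) (txg.enc (enc_norm (l4q3_9.enc h1 h2)) (enc_norm (enc_sub (l4q3_12.enc h1 h2) (l4q3_14.enc h1 h2))) h2)))⟩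
noncomputable def bx3q3_3 : Fn2 := ⟨_, _, fun h1 h2 => (enc_subr 83 100 h2)⟩
noncomputable def bx3q3 : Fn2 := ⟨_, _, fun h1 h2 => (enc_norm (enc_case (enc_subr 47 25 h1) (enc_case (enc_subr 89 50 h1) (enc_add (enc_subr 1188501 1400000 (enc_scale 19891 28000 h1)) (enc_mul (enc_norm (bx3q3_3.enc h1 h2)) (enc_norm (enc_sub (enc_rat _ 137247 17500) (enc_scale 559 140 h1))))) (enc_add (enc_subr 424471 500000 (enc_scale 444 625 h1)) (enc_mul (enc_norm (bx3q3_3.enc h1 h2)) (enc_norm (enc_sub (enc_rat _ 392147 50000) (enc_scale 3993 1000 h1)))))) (enc_case (enc_sub (enc_rat _ 429616471 1000000000) (c3g.enc h1)) (enc_add (enc_sub (enc_rat _ 11460340338497 16131499700000) (enc_scale 61100000 161314997 (c3g.enc h1))) (enc_mul (enc_norm (bx3q3_3.enc h1 h2)) (enc_norm (enc_subr 234895175503 1613149970000 (enc_scale 131500000 161314997 (c3g.enc h1)))))) (enc_add (enc_add (enc_scale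 54785000 429616471 (c3g.enc h1)) (enc_rat _ 19717 40000)) (enc_mul (enc_norm (bx3q3_3.enc h1 h2)) (enc_norm (enc_sub (enc_rat _ 97 80) (enc_scale 1007900000 429616471 (c3g.enc h1)))))))))⟩
noncomputable def l2q3_4 : Fn2 := ⟨_, _, fun h1 h2 => (enc_subr 83 100 h2)⟩
noncomputable def l2q3_31 : Fn2 := ⟨_, _, fun h1 h2 => (enc_sq (enc_norm (l2q3_4.enc h1 h2)))⟩
noncomputable def l2q3_66 : Fn2 := ⟨_, _, fun h1 h2 => (enc_subn 1 h1)⟩
noncomputable def l2q3_81 : Fn2 := ⟨_, _, fun h1 h2 => (enc_subr 89 50 h1)⟩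
noncomputable def l2q3_93 : Fn2 := ⟨_, _, fun h1 h2 => (enc_subr 47 25 h1)⟩
noncomputable def l2q3_116 : Fn2 := ⟨_, _, fun h1 h2 => (enc_mul (cv1r.enc h1) (enc_norm (enc_case (l2q3_81.enc h1 h2) (enc_add (enc_subr 2761231 1400000 (enc_scale 43419 28000 h1)) (enc_mul (enc_norm (l2q3_4.enc h1 h2)) (enc_norm (enc_subr 29957 28000 (enc_scale 2167 2800 h1))))) (enc_case (l2q3_93.enc h1 h2) (enc_add (enc_subr 246521 125000 (enc_scale 7753 5000 h1)) (enc_mul (enc_norm (l2q3_4.enc h1 h2)) (enc_norm (enc_subr 53501 50000 (enc_scale 387 500 h1))))) (enc_add (enc_sub (enc_rat _ 3366 3125) (enc_scale 11180000 49244289 (c3g.enc h1))) (enc_mul (enc_norm (l2q3_4.enc h1 h2)) (enc_norm (enc_subr 521 400 (enc_scale 421900000 147732867 (c3g.enc h1))))))))))⟩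
noncomputable def l2q3 : Fn2 := ⟨_, _, fun h1 h2 => (enc_norm (enc_case (l2q3_81.enc h1 h2) (enc_mul (cv2r.enc h1) (enc_norm (enc_case (enc_subr 431 250 h1) (enc_add (enc_subr 6424137 5600000 (enc_scale 20823 22400 h1)) (enc_mul (enc_norm (l2q3_4.enc h1 h2)) (enc_norm (enc_subr 225203 560000 (enc_scale 453 2240 h1))))) (enc_add (enc_add (enc_subr 160627576947 140000000000 (enc_scale 520631037 560000000 h1)) (enc_mul (enc_norm (l2q3_4.enc h1 h2)) (enc_norm (enc_subr 60767301053 3500000000 (enc_scale 140556963 14000000 h1))))) (enc_mul (l2q3_31.enc h1 h2) (enc_norm (enc_subr 18760137 2800000 (enc_scale 43527 11200 h1)))))))) (enc_case (l2q3_93.enc h1 h2) (enc_add (l2q3_116.enc h1 h2) (enc_mul (enc_norm (enc_mul (enc_norm (enc_sub (enc_sub (qsg.enc (enc_norm (l2q3_66.enc h1 h2))) (enc_mul (enc_norm (enc_nat 2 (enc_sub (l2q3_66.enc h1 h2) h2))) (enc_norm (enc_mul (esg.enc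 (enc_norm (l2q3_66.enc h1 h2))) (kcg.enc (enc_norm (enc_sub (enc_scale 3 4 (l2q3_66.enc h1 h2)) (enc_half (gsg.enc (enc_norm (l2q3_66.enc h1 h2)))))) h2))))) (l2q3_116.enc h1 h2))) (enc_norm (enc_sub (cv2r.enc h1) (cv1r.enc h1))))) (enc_inv (enc_sub (enc_subr 1 2 (swg.enc h1)) (cv1r.enc h1))))) (enc_mul (cv2r.enc h1) (enc_norm (enc_case (enc_sub (enc_rat _ 429616471 1000000000) (c3g.enc h1)) (enc_add (enc_add (enc_sub (enc_rat _ 523747551432281503 806574985000000000) (enc_scale 48470793 806574985 (c3g.enc h1))) (enc_mul (enc_norm (l2q3_4.enc h1 h2)) (enc_norm (enc_sub (enc_rat _ 1123699774861788451 161314997000000000) (enc_scale 1700303381 161314997 (c3g.enc h1)))))) (enc_mul (l2q3_31.enc h1 h2) (enc_norm (enc_subr 7531606353101 6452599880000 (enc_scale 438275000 161314997 (c3g.enc h1)))))) (enc_add (enc_add (enc_scale 130605000 429616471 (c3g.enc h1)) (enc_rat _ 19717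 40000)) (enc_mul (enc_norm (l2q3_4.enc h1 h2)) (enc_norm (enc_add (enc_scale 1225100000 429616471 (c3g.enc h1)) (enc_rat _ 97 80)))))))))))⟩
noncomputable def bx2q3_3 : Fn2 := ⟨_, _, fun h1 h2 => (enc_subr 83 100 h2)⟩
noncomputable def bx2q3_30 : Fn2 := ⟨_, _, fun h1 h2 => (enc_sq (enc_norm (bx2q3_3.enc h1 h2)))⟩
noncomputable def bx2q3 : Fn2 := ⟨_, _, fun h1 h2 => (enc_norm (enc_case (enc_subr 183 100 h1) (enc_case (enc_subr 431 250 h1) (enc_add (enc_subr 6424137 5600000 (enc_scale 20823 22400 h1)) (enc_mul (enc_norm (bx2q3_3.enc h1 h2)) (enc_norm (enc_subr 225203 560000 (enc_scale 453 2240 h1))))) (enc_add (enc_add (enc_subr 160627576947 140000000000 (enc_scale 520631037 560000000 h1)) (enc_mul (enc_norm (bx2q3_3.enc h1 h2)) (enc_norm (enc_subr 60767301053 3500000000 (enc_scale 140556963 14000000 h1))))) (enc_mul (bx2q3_30.enc h1 h2) (enc_norm (enc_subr 18760137 2800000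 (enc_scale 43527 11200 h1)))))) (enc_case (enc_sub (enc_rat _ 429616471 1000000000) (c3g.enc h1)) (enc_add (enc_add (enc_sub (enc_rat _ 523747551432281503 806574985000000000) (enc_scale 48470793 806574985 (c3g.enc h1))) (enc_mul (enc_norm (bx2q3_3.enc h1 h2)) (enc_norm (enc_sub (enc_rat _ 1123699774861788451 161314997000000000) (enc_scale 1700303381 161314997 (c3g.enc h1)))))) (enc_mul (bx2q3_30.enc h1 h2) (enc_norm (enc_subr 7531606353101 6452599880000 (enc_scale 438275000 161314997 (c3g.enc h1)))))) (enc_add (enc_add (enc_scale 130605000 429616471 (c3g.enc h1)) (enc_rat _ 19717 40000)) (enc_mul (enc_norm (bx2q3_3.enc h1 h2)) (enc_norm (enc_add (enc_scale 1225100000 429616471 (c3g.enc h1)) (enc_rat _ 97 80))))))))⟩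
noncomputable def bx1q3_3 : Fn2 := ⟨_, _, fun h1 h2 => (enc_subr 83 100 h2)⟩
noncomputable def bx1q3 : Fn2 := ⟨_, _, fun h1 h2 => (enc_norm (enc_case (enc_subr 89 50 h1) (enc_add (enc_subr 2761231 1400000 (enc_scale 43419 28000 h1)) (enc_mul (enc_norm (bx1q3_3.enc h1 h2)) (enc_norm (enc_subr 29957 28000 (enc_scale 2167 2800 h1))))) (enc_case (enc_subr 47 25 h1) (enc_add (enc_subr 246521 125000 (enc_scale 7753 5000 h1)) (enc_mul (enc_norm (bx1q3_3.enc h1 h2)) (enc_norm (enc_subr 53501 50000 (enc_scale 387 500 h1))))) (enc_add (enc_sub (enc_rat _ 3366 3125) (enc_scale 11180000 49244289 (c3g.enc h1))) (enc_mul (enc_norm (bx1q3_3.enc h1 h2)) (enc_norm (enc_subr 521 400 (enc_scale 421900000 147732867 (c3g.enc h1)))))))))⟩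
noncomputable def rxq3_35 : Fn3 := ⟨_, _, fun h1 h2 h3 => (enc_add (enc_mul h1 (bx2q3.enc h2 h3)) (enc_mul (enc_norm (enc_mul (enc_norm (enc_sub (enc_pnc _ 1) (lm1r.enc h1 h2))) (cv1r.enc h2))) (enc_norm (enc_sub (bx1q3.enc h2 h3) (bx2q3.enc h2 h3)))))⟩
noncomputable def rxq3_36 : Fn3 := ⟨_, _, fun h1 h2 h3 => (enc_subn 1 h2)⟩
noncomputable def rxq3_54 : Fn3 := ⟨_, _, fun h1 h2 h3 => (enc_sub h1 (cv1r.enc h2))⟩
noncomputable def rxq3 : Fn3 := ⟨_, _, fun h1 h2 h3 => (enc_case (rxq3_54.enc h1 h2 h3) (enc_mul h1 (bx1q3.enc h2 h3)) (enc_case (enc_sub h1 (cv2r.enc h2)) (enc_case (enc_subr 89 50 h2) (rxq3_35.enc h1 h2 h3) (enc_case (enc_subr 47 25 h2) (enc_add (l1q3.enc h2 h3) (enc_mul (enc_norm (enc_mul (enc_norm (rxq3_54.enc h1 h2 h3)) (enc_inv (enc_sub (enc_subr 1 2 (swg.enc h2)) (cv1r.enc h2))))) (enc_norm (enc_sub (enc_sub (qsg.enc (enc_norm (rxq3_36.enc h1 h2 h3))) (enc_mul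 (enc_norm (enc_nat 2 (enc_sub (rxq3_36.enc h1 h2 h3) h3))) (enc_norm (enc_mul (esg.enc (enc_norm (rxq3_36.enc h1 h2 h3))) (kcg.enc (enc_norm (enc_sub (enc_scale 3 4 (rxq3_36.enc h1 h2 h3)) (enc_half (gsg.enc (enc_norm (rxq3_36.enc h1 h2 h3)))))) h3))))) (l1q3.enc h2 h3))))) (rxq3_35.enc h1 h2 h3))) (enc_case (enc_sub h1 (cv3r.enc h2)) (enc_add (enc_mul h1 (bx3q3.enc h2 h3)) (enc_mul (enc_norm (enc_sub (enc_pnc _ 1) (lm2r.enc h1 h2))) (enc_norm (enc_sub (l2q3.enc h2 h3) (enc_mul (cv2r.enc h2) (bx3q3.enc h2 h3)))))) (enc_add (l3q3.enc h2 h3) (enc_mul (lm3r.enc h1 h2) (enc_norm (enc_sub (l4q3.enc h2 h3) (l3q3.enc h2 h3))))))))⟩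
noncomputable def rlq3 : Fn3 := ⟨_, _, fun h1 h2 h3 => (enc_case h1 (enc_neg (rxq3.enc (enc_neg h1) h2 h3)) (rxq3.enc h1 h2 h3))⟩
noncomputable def bd2q0_3 : Fn2 := ⟨_, _, fun h1 h2 => (enc_subr 83 100 h2)⟩
noncomputable def bd2q0 : Fn2 := ⟨_, _, fun h1 h2 => (enc_norm (enc_case (enc_subr 17 100 h1) (enc_add (enc_sub (enc_rat _ 2099 5000) (enc_scale 11613209531 600000000 h1)) (enc_mul (enc_norm (bd2q0_3.enc h1 h2)) (enc_norm (enc_subr 2061 100 (enc_scale 15846790907 120000000 h1))))) (enc_add (enc_subr 1403522531 1400000000 (enc_scale 701702531 700000000 h1)) (enc_mul (enc_norm (bd2q0_3.enc h1 h2)) (enc_norm (enc_subr 495148683 140000000 (enc_scale 247488683 70000000 h1)))))))⟩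
noncomputable def rcq0_35 : Fn3 := ⟨_, _, fun h1 h2 h3 => (enc_add (enc_mul h1 (bd2q0.enc h2 h3)) (enc_mul (enc_norm (enc_mul (enc_norm (enc_sub (enc_pnc _ 1) (lm1m.enc h1 h2))) (cv1m.enc h2))) (enc_norm (enc_sub (bd1q0.enc h2 h3) (bd2q0.enc h2 h3)))))⟩
noncomputable def rcq0_37 : Fn3 := ⟨_, _, fun h1 h2 h3 => (enc_sub (enc_pnc _ 1) h2)⟩
noncomputable def rcq0_38 : Fn3 := ⟨_, _, fun h1 h2 h3 => (gsg.enc (enc_norm (rcq0_37.enc h1 h2 h3)))⟩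
noncomputable def rcq0_42 : Fn3 := ⟨_, _, fun h1 h2 h3 => (esg.enc (enc_norm (rcq0_37.enc h1 h2 h3)))⟩
noncomputable def rcq0_46 : Fn3 := ⟨_, _, fun h1 h2 h3 => (gug.enc (enc_norm (rcq0_37.enc h1 h2 h3)))⟩
noncomputable def rcq0_48 : Fn3 := ⟨_, _, fun h1 h2 h3 => (enc_mul (enc_norm (rcq0_37.enc h1 h2 h3)) (enc_inv (rcq0_38.enc h1 h2 h3)))⟩
noncomputable def rcq0_49 : Fn3 := ⟨_, _, fun h1 h2 h3 => (enc_scale 3 4 (rcq0_48.enc h1 h2 h3))⟩
noncomputable def rcq0_79 : Fn3 := ⟨_, _, fun h1 h2 h3 => (enc_sub h1 (cv1m.enc h2))⟩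
noncomputable def rcq0 : Fn3 := ⟨_, _, fun h1 h2 h3 => (enc_case (rcq0_79.enc h1 h2 h3) (enc_add (enc_mul h1 (bd1q0.enc h2 h3)) (enc_mul (enc_norm (enc_sub (enc_pnc _ 1) (lm0m.enc h1 h2))) (enc_norm (enc_sub (kc0q0.enc h2 h3) (enc_mul (c1g.enc h2) (bd1q0.enc h2 h3)))))) (enc_case (enc_sub h1 (cv2m.enc h2)) (enc_case (enc_subr 3 25 h2) (rcq0_35.enc h1 h2 h3) (enc_case (enc_subr 11 50 h2) (enc_add (kc1q0.enc h2 h3) (enc_mul (enc_norm (enc_mul (enc_norm (rcq0_79.enc h1 h2 h3)) (enc_inv (enc_sub (enc_add (swg.enc h2) (enc_rat _ 1 2)) (cv1m.enc h2))))) (enc_norm (enc_sub (enc_add (enc_sub (enc_neg (enc_add (enc_add (enc_rat _ 3 4) (enc_scale 3 2 (rcq0_37.enc h1 h2 h3))) (enc_scale 3 4 (enc_mul (enc_norm (rcq0_48.enc h1 h2 h3)) (rcq0_46.enc h1 h2 h3))))) (enc_mul (enc_norm (enc_sub (enc_mul (enc_norm (enc_mul (enc_norm (rcq0_49.enc h1 h2 h3)) (enc_norm (enc_subn 3 (enc_nat 4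 (rcq0_38.enc h1 h2 h3)))))) (rcq0_42.enc h1 h2 h3)) (enc_mul (qsg.enc (enc_norm (rcq0_37.enc h1 h2 h3))) (enc_norm (enc_sub (enc_rat _ 1 2) (rcq0_49.enc h1 h2 h3)))))) (enc_inv (enc_mul (enc_nat 2 (rcq0_42.enc h1 h2 h3)) (rcq0_42.enc h1 h2 h3))))) (enc_mul (kcg.enc (enc_norm (enc_sub (enc_scale 3 4 (rcq0_37.enc h1 h2 h3)) (enc_half (rcq0_38.enc h1 h2 h3)))) h3) (enc_norm (enc_add (enc_pnc _ 1) (enc_add (rcq0_46.enc h1 h2 h3) (enc_nat 2 (rcq0_38.enc h1 h2 h3))))))) (kc1q0.enc h2 h3))))) (rcq0_35.enc h1 h2 h3))) (enc_case (enc_sub h1 (cv3m.enc h2)) (enc_add (enc_mul h1 (bd3q0.enc h2 h3)) (enc_mul (enc_norm (enc_sub (enc_pnc _ 1) (lm2m.enc h1 h2))) (enc_norm (enc_sub (kc2q0.enc h2 h3) (enc_mul (cv2m.enc h2) (bd3q0.enc h2 h3)))))) (enc_add (kc3q0.enc h2 h3) (enc_mul (lm3m.enc h1 h2) (enc_norm (enc_sub (kc4q0.enc h2 h3) (kc3q0.enc h2 h3))))))))⟩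
noncomputable def pd0 : Fn3 := ⟨_, _, fun h1 h2 h3 => (enc_case h1 (enc_neg (rcq0.enc (enc_neg h1) h2 h3)) (rcq0.enc h1 h2 h3))⟩
noncomputable def rcq1 : Fn3 := ⟨_, _, fun h1 h2 h3 => (enc_case (enc_sub h1 (cv1m.enc h2)) (enc_add (enc_mul h1 (bd1q1.enc h2 h3)) (enc_mul (enc_norm (enc_sub (enc_pnc _ 1) (lm0m.enc h1 h2))) (enc_norm (enc_sub (kc0q1.enc h2 h3) (enc_mul (c1g.enc h2) (bd1q1.enc h2 h3)))))) (enc_case (enc_sub h1 (cv2m.enc h2)) (enc_add (enc_mul h1 (bd2q1.enc h2 h3)) (enc_mul (enc_norm (enc_mul (enc_norm (enc_sub (enc_pnc _ 1) (lm1m.enc h1 h2))) (cv1m.enc h2))) (enc_norm (enc_sub (bd1q1.enc h2 h3) (bd2q1.enc h2 h3))))) (enc_case (enc_sub h1 (cv3m.enc h2)) (enc_add (enc_mul h1 (bd3q1.enc h2 h3)) (enc_mul (enc_norm (enc_mul (enc_norm (enc_sub (enc_pnc _ 1) (lm2m.enc h1 h2))) (cv2m.enc h2))) (enc_norm (enc_sub (bd2q1.enc h2 h3) (bd3q1.enc h2 h3))))) (enc_add (kc3q1.enc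 h2 h3) (enc_mul (lm3m.enc h1 h2) (enc_norm (enc_sub (kc4q1.enc h2 h3) (kc3q1.enc h2 h3))))))))⟩
noncomputable def pd1 : Fn3 := ⟨_, _, fun h1 h2 h3 => (enc_case h1 (enc_neg (rcq1.enc (enc_neg h1) h2 h3)) (rcq1.enc h1 h2 h3))⟩
noncomputable def kc0q2 : Fn2 := ⟨_, _, fun h1 h2 => (enc_pnc _ 0)⟩
noncomputable def n0d : Fn2 := ⟨_, _, fun h1 h2 => (enc_pnc _ 0)⟩
noncomputable def rcq2_40 : Fn3 := ⟨_, _, fun h1 h2 h3 => (enc_mul h1 (bd1q2.enc h2 h3))⟩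
noncomputable def rcq2_42 : Fn3 := ⟨_, _, fun h1 h2 h3 => (enc_sub (enc_pnc _ 1) (lm0p.enc h1 h2))⟩
noncomputable def rcq2 : Fn3 := ⟨_, _, fun h1 h2 h3 => (enc_case (enc_sub h1 (cv1p.enc h2)) (enc_case (enc_subr 1149 1000 h2) (enc_add (rcq2_40.enc h1 h2 h3) (enc_mul (enc_norm (rcq2_42.enc h1 h2 h3)) (enc_norm (enc_sub (kc0q2.enc h2 h3) (enc_mul (c1g.enc h2) (bd1q2.enc h2 h3)))))) (enc_case (enc_subr 2887 2500 h2) (enc_add (rcq2_40.enc h1 h2 h3) (enc_mul (enc_norm (rcq2_42.enc h1 h2 h3)) (enc_norm (enc_mul (c1g.enc h2) (enc_norm (enc_sub (n0d.enc h2 h3) (bd1q2.enc h2 h3))))))) (rcq2_40.enc h1 h2 h3))) (enc_case (enc_sub h1 (cv2p.enc h2)) (enc_add (enc_mul h1 (bd2q2.enc h2 h3)) (enc_mul (enc_norm (enc_mul (enc_norm (enc_sub (enc_pnc _ 1) (lm1p.enc h1 h2))) (cv1p.enc h2))) (enc_norm (enc_sub (bd1q2.enc h2 h3) (bd2q2.enc h2 h3))))) (enc_case (enc_sub h1 (cv3p.enc h2)) (enc_add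 (enc_mul h1 (bd3q2.enc h2 h3)) (enc_mul (enc_norm (enc_mul (enc_norm (enc_sub (enc_pnc _ 1) (lm2p.enc h1 h2))) (cv2p.enc h2))) (enc_norm (enc_sub (bd2q2.enc h2 h3) (bd3q2.enc h2 h3))))) (enc_add (kc3q2.enc h2 h3) (enc_mul (lm3p.enc h1 h2) (enc_norm (enc_sub (kc4q2.enc h2 h3) (kc3q2.enc h2 h3))))))))⟩
noncomputable def pd2 : Fn3 := ⟨_, _, fun h1 h2 h3 => (enc_case h1 (enc_neg (rcq2.enc (enc_neg h1) h2 h3)) (rcq2.enc h1 h2 h3))⟩
noncomputable def kc3q3_4 : Fn2 := ⟨_, _, fun h1 h2 => (enc_subr 83 100 h2)⟩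
noncomputable def kc3q3 : Fn2 := ⟨_, _, fun h1 h2 => (enc_norm (enc_mul (cv3r.enc h1) (enc_norm (enc_case (enc_subr 89 50 h1) (enc_add (enc_sub (enc_rat _ 624163 140000) (enc_scale 4903 2800 h1)) (enc_mul (enc_norm (kc3q3_4.enc h1 h2)) (enc_norm (enc_subr 116216 875 (enc_scale 9047 70 h1))))) (enc_case (enc_subr 47 25 h1) (enc_add (enc_sub (enc_rat _ 222909 50000) (enc_scale 1751 1000 h1)) (enc_mul (enc_norm (kc3q3_4.enc h1 h2)) (enc_norm (enc_subr 332033 2500 (enc_scale 3231 25 h1))))) (enc_add (enc_subr 567 334 (enc_scale 119568025000 24671388789 (c3g.enc h1))) (enc_mul (enc_norm (kc3q3_4.enc h1 h2)) (enc_norm (enc_add (enc_scale 2719971500000 24671388789 (c3g.enc h1)) (enc_rat _ 15033 334))))))))))⟩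
noncomputable def kc4q3_3 : Fn2 := ⟨_, _, fun h1 h2 => (enc_subr 83 100 h2)⟩
noncomputable def kc4q3_9 : Fn2 := ⟨_, _, fun h1 h2 => (enc_sub (enc_half (c3g.enc h1)) (enc_scale 1 4 h1))⟩
noncomputable def kc4q3_27 : Fn2 := ⟨_, _, fun h1 h2 => (enc_scale 751 830 (kc4q3_9.enc h1 h2))⟩
noncomputable def kc4q3_39 : Fn2 := ⟨_, _, fun h1 h2 => (enc_subr 2657 10000 (enc_scale 1511 1670 (kc4q3_9.enc h1 h2)))⟩
noncomputable def kc4q3 : Fn2 := ⟨_, _, fun h1 h2 => (enc_norm (enc_case (kc4q3_9.enc h1 h2) (enc_case (enc_add (kc4q3_9.enc h1 h2) (enc_rat _ 333 1000)) (enc_add (enc_subr 567 334 (enc_neg (enc_scale 567 167 (kc4q3_9.enc h1 h2)))) (enc_mul (enc_norm (kc4q3_3.enc h1 h2)) (enc_norm (enc_add (enc_scale 15033 167 (kc4q3_9.enc h1 h2)) (enc_rat _ 15033 334))))) (enc_case (enc_add (kc4q3_9.enc h1 h2) (enc_rat _ 167 1000)) (enc_add (enc_subr 220527 830000 (kc4q3_27.enc h1 h2)) (enc_mul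 (enc_norm (kc4q3_3.enc h1 h2)) (enc_norm (enc_add (enc_scale 6083 83 (kc4q3_9.enc h1 h2)) (enc_rat _ 1636689 41500))))) (enc_add (kc4q3_39.enc h1 h2) (enc_mul (enc_norm (kc4q3_3.enc h1 h2)) (enc_norm (enc_add (enc_scale 12240 167 (kc4q3_9.enc h1 h2)) (enc_rat _ 39439 1000))))))) (enc_case (enc_subr 167 1000 (kc4q3_9.enc h1 h2)) (enc_add (kc4q3_39.enc h1 h2) (enc_mul (enc_norm (kc4q3_3.enc h1 h2)) (enc_norm (enc_add (enc_scale 12239 167 (kc4q3_9.enc h1 h2)) (enc_rat _ 39439 1000))))) (enc_case (enc_subr 333 1000 (kc4q3_9.enc h1 h2)) (enc_add (enc_subr 44107 166000 (kc4q3_27.enc h1 h2)) (enc_mul (enc_norm (kc4q3_3.enc h1 h2)) (enc_norm (enc_add (enc_scale 12167 166 (kc4q3_9.enc h1 h2)) (enc_rat _ 6546659 166000))))) (enc_add (enc_sub (enc_rat _ 89 835) (enc_scale 178 835 (kc4q3_9.enc h1 h2))) (enc_mul (enc_norm (kc4q3_3.enc h1 h2)) (enc_norm (enc_sub (enc_rat _ 63845 334)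 (enc_scale 63845 167 (kc4q3_9.enc h1 h2))))))))))⟩
noncomputable def bd3q3_3 : Fn2 := ⟨_, _, fun h1 h2 => (enc_subr 83 100 h2)⟩
noncomputable def bd3q3 : Fn2 := ⟨_, _, fun h1 h2 => (enc_norm (enc_case (enc_subr 89 50 h1) (enc_add (enc_sub (enc_rat _ 624163 140000) (enc_scale 4903 2800 h1)) (enc_mul (enc_norm (bd3q3_3.enc h1 h2)) (enc_norm (enc_subr 116216 875 (enc_scale 9047 70 h1))))) (enc_case (enc_subr 47 25 h1) (enc_add (enc_sub (enc_rat _ 222909 50000) (enc_scale 1751 1000 h1)) (enc_mul (enc_norm (bd3q3_3.enc h1 h2)) (enc_norm (enc_subr 332033 2500 (enc_scale 3231 25 h1))))) (enc_add (enc_subr 567 334 (enc_scale 119568025000 24671388789 (c3g.enc h1))) (enc_mul (enc_norm (bd3q3_3.enc h1 h2)) (enc_norm (enc_add (enc_scale 2719971500000 24671388789 (c3g.enc h1)) (enc_rat _ 15033 334))))))))⟩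
noncomputable def kc2q3_4 : Fn2 := ⟨_, _, fun h1 h2 => (enc_subr 83 100 h2)⟩
noncomputable def kc2q3_29 : Fn2 := ⟨_, _, fun h1 h2 => (enc_subn 1 h1)⟩
noncomputable def kc2q3_30 : Fn2 := ⟨_, _, fun h1 h2 => (gsg.enc (enc_norm (kc2q3_29.enc h1 h2)))⟩
noncomputable def kc2q3_34 : Fn2 := ⟨_, _, fun h1 h2 => (esg.enc (enc_norm (kc2q3_29.enc h1 h2)))⟩
noncomputable def kc2q3_39 : Fn2 := ⟨_, _, fun h1 h2 => (gug.enc (enc_norm (kc2q3_29.enc h1 h2)))⟩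
noncomputable def kc2q3_41 : Fn2 := ⟨_, _, fun h1 h2 => (enc_mul (enc_norm (kc2q3_29.enc h1 h2)) (enc_inv (kc2q3_30.enc h1 h2)))⟩
noncomputable def kc2q3_42 : Fn2 := ⟨_, _, fun h1 h2 => (enc_scale 3 4 (kc2q3_41.enc h1 h2))⟩
noncomputable def kc2q3_70 : Fn2 := ⟨_, _, fun h1 h2 => (enc_subr 47 25 h1)⟩
noncomputable def kc2q3_92 : Fn2 := ⟨_, _, fun h1 h2 => (enc_mul (cv1r.enc h1) (enc_norm (enc_case (kc2q3_70.enc h1 h2) (enc_add (enc_subr 1077229 190000 (enc_scale 18653 3800 h1)) (enc_mul (enc_norm (kc2q3_4.enc h1 h2)) (enc_norm (enc_subr 3 760 (enc_scale 1 380 h1))))) (enc_add (enc_subr 157 1250 (enc_scale 307025000 49244289 (c3g.enc h1))) (enc_mul (enc_norm (kc2q3_4.enc h1 h2)) (enc_norm (enc_sub (enc_rat _ 763 200) (enc_scale 953500000 147732867 (c3g.enc h1)))))))))⟩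
noncomputable def kc2q3 : Fn2 := ⟨_, _, fun h1 h2 => (enc_norm (enc_case (enc_subr 89 50 h1) (enc_mul (cv2r.enc h1) (enc_norm (enc_add (enc_subr 40180593627 5600000000 (enc_scale 18925211209 2800000000 h1)) (enc_mul (enc_norm (kc2q3_4.enc h1 h2)) (enc_norm (enc_sub (enc_rat _ 8682632409 140000000) (enc_scale 2487790803 70000000 h1))))))) (enc_case (kc2q3_70.enc h1 h2) (enc_add (kc2q3_92.enc h1 h2) (enc_mul (enc_norm (enc_mul (enc_norm (enc_sub (enc_add (enc_sub (enc_add (enc_add (enc_rat _ 3 4) (enc_scale 3 2 (kc2q3_29.enc h1 h2))) (enc_scale 3 4 (enc_mul (enc_norm (kc2q3_41.enc h1 h2)) (kc2q3_39.enc h1 h2)))) (enc_mul (enc_norm (enc_sub (enc_mul (enc_norm (enc_mul (enc_norm (kc2q3_42.enc h1 h2)) (enc_norm (enc_subn 3 (enc_nat 4 (kc2q3_30.enc h1 h2)))))) (kc2q3_34.enc h1 h2)) (enc_mul (qsg.enc (enc_norm (kc2q3_29.enc h1 h2))) (enc_norm (enc_sub (enc_rat _ 1 2) (kc2q3_42.enc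 h1 h2)))))) (enc_inv (enc_mul (enc_nat 2 (kc2q3_34.enc h1 h2)) (kc2q3_34.enc h1 h2))))) (enc_mul (kcg.enc (enc_norm (enc_sub (enc_scale 3 4 (kc2q3_29.enc h1 h2)) (enc_half (kc2q3_30.enc h1 h2)))) h2) (enc_norm (enc_sub (enc_pnc _ 1) (enc_add (kc2q3_39.enc h1 h2) (enc_nat 2 (kc2q3_30.enc h1 h2))))))) (kc2q3_92.enc h1 h2))) (enc_norm (enc_sub (cv2r.enc h1) (cv1r.enc h1))))) (enc_inv (enc_sub (enc_subr 1 2 (swg.enc h1)) (cv1r.enc h1))))) (enc_mul (cv2r.enc h1) (enc_norm (enc_add (enc_subr 567 334 (enc_scale 2376081568118 123356943945 (c3g.enc h1))) (enc_mul (enc_norm (kc2q3_4.enc h1 h2)) (enc_norm (enc_sub (enc_rat _ 15033 334) (enc_scale 8137396997531 98685555156 (c3g.enc h1)))))))))))⟩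
noncomputable def bd2q3_3 : Fn2 := ⟨_, _, fun h1 h2 => (enc_subr 83 100 h2)⟩
noncomputable def bd2q3 : Fn2 := ⟨_, _, fun h1 h2 => (enc_norm (enc_case (enc_subr 183 100 h1) (enc_add (enc_subr 40180593627 5600000000 (enc_scale 18925211209 2800000000 h1)) (enc_mul (enc_norm (bd2q3_3.enc h1 h2)) (enc_norm (enc_sub (enc_rat _ 8682632409 140000000) (enc_scale 2487790803 70000000 h1))))) (enc_add (enc_subr 567 334 (enc_scale 2376081568118 123356943945 (c3g.enc h1))) (enc_mul (enc_norm (bd2q3_3.enc h1 h2)) (enc_norm (enc_sub (enc_rat _ 15033 334) (enc_scale 8137396997531 98685555156 (c3g.enc h1))))))))⟩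
noncomputable def bd1q3_3 : Fn2 := ⟨_, _, fun h1 h2 => (enc_subr 83 100 h2)⟩
noncomputable def bd1q3 : Fn2 := ⟨_, _, fun h1 h2 => (enc_norm (enc_case (enc_subr 47 25 h1) (enc_add (enc_subr 1077229 190000 (enc_scale 18653 3800 h1)) (enc_mul (enc_norm (bd1q3_3.enc h1 h2)) (enc_norm (enc_subr 3 760 (enc_scale 1 380 h1))))) (enc_add (enc_subr 157 1250 (enc_scale 307025000 49244289 (c3g.enc h1))) (enc_mul (enc_norm (bd1q3_3.enc h1 h2)) (enc_norm (enc_sub (enc_rat _ 763 200) (enc_scale 953500000 147732867 (c3g.enc h1))))))))⟩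
noncomputable def rcq3_35 : Fn3 := ⟨_, _, fun h1 h2 h3 => (enc_add (enc_mul h1 (bd2q3.enc h2 h3)) (enc_mul (enc_norm (enc_mul (enc_norm (enc_sub (enc_pnc _ 1) (lm1r.enc h1 h2))) (cv1r.enc h2))) (enc_norm (enc_sub (bd1q3.enc h2 h3) (bd2q3.enc h2 h3)))))⟩
noncomputable def rcq3_36 : Fn3 := ⟨_, _, fun h1 h2 h3 => (enc_subn 1 h2)⟩
noncomputable def rcq3_37 : Fn3 := ⟨_, _, fun h1 h2 h3 => (gsg.enc (enc_norm (rcq3_36.enc h1 h2 h3)))⟩
noncomputable def rcq3_41 : Fn3 := ⟨_, _, fun h1 h2 h3 => (esg.enc (enc_norm (rcq3_36.enc h1 h2 h3)))⟩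
noncomputable def rcq3_46 : Fn3 := ⟨_, _, fun h1 h2 h3 => (gug.enc (enc_norm (rcq3_36.enc h1 h2 h3)))⟩
noncomputable def rcq3_48 : Fn3 := ⟨_, _, fun h1 h2 h3 => (enc_mul (enc_norm (rcq3_36.enc h1 h2 h3)) (enc_inv (rcq3_37.enc h1 h2 h3)))⟩
noncomputable def rcq3_49 : Fn3 := ⟨_, _, fun h1 h2 h3 => (enc_scale 3 4 (rcq3_48.enc h1 h2 h3))⟩
noncomputable def rcq3_79 : Fn3 := ⟨_, _, fun h1 h2 h3 => (enc_sub h1 (cv1r.enc h2))⟩
noncomputable def rcq3 : Fn3 := ⟨_, _, fun h1 h2 h3 => (enc_case (rcq3_79.enc h1 h2 h3) (enc_mul h1 (bd1q3.enc h2 h3)) (enc_case (enc_sub h1 (cv2r.enc h2)) (enc_case (enc_subr 89 50 h2) (rcq3_35.enc h1 h2 h3) (enc_case (enc_subr 47 25 h2) (enc_add (kc1q3.enc h2 h3) (enc_mul (enc_norm (enc_mul (enc_norm (rcq3_79.enc h1 h2 h3)) (enc_inv (enc_sub (enc_subr 1 2 (swg.enc h2)) (cv1r.enc h2))))) (enc_norm (enc_sub (enc_add (enc_sub (enc_add (enc_add (enc_rat _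 3 4) (enc_scale 3 2 (rcq3_36.enc h1 h2 h3))) (enc_scale 3 4 (enc_mul (enc_norm (rcq3_48.enc h1 h2 h3)) (rcq3_46.enc h1 h2 h3)))) (enc_mul (enc_norm (enc_sub (enc_mul (enc_norm (enc_mul (enc_norm (rcq3_49.enc h1 h2 h3)) (enc_norm (enc_subn 3 (enc_nat 4 (rcq3_37.enc h1 h2 h3)))))) (rcq3_41.enc h1 h2 h3)) (enc_mul (qsg.enc (enc_norm (rcq3_36.enc h1 h2 h3))) (enc_norm (enc_sub (enc_rat _ 1 2) (rcq3_49.enc h1 h2 h3)))))) (enc_inv (enc_mul (enc_nat 2 (rcq3_41.enc h1 h2 h3)) (rcq3_41.enc h1 h2 h3))))) (enc_mul (kcg.enc (enc_norm (enc_sub (enc_scale 3 4 (rcq3_36.enc h1 h2 h3)) (enc_half (rcq3_37.enc h1 h2 h3)))) h3) (enc_norm (enc_sub (enc_pnc _ 1) (enc_add (rcq3_46.enc h1 h2 h3) (enc_nat 2 (rcq3_37.enc h1 h2 h3))))))) (kc1q3.enc h2 h3))))) (rcq3_35.enc h1 h2 h3))) (enc_case (enc_sub h1 (cv3r.enc h2)) (enc_add (enc_mul h1 (bd3q3.enc h2 h3)) (enc_mul (enc_norm (enc_sub (enc_pnc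 _ 1) (lm2r.enc h1 h2))) (enc_norm (enc_sub (kc2q3.enc h2 h3) (enc_mul (cv2r.enc h2) (bd3q3.enc h2 h3)))))) (enc_add (kc3q3.enc h2 h3) (enc_mul (lm3r.enc h1 h2) (enc_norm (enc_sub (kc4q3.enc h2 h3) (kc3q3.enc h2 h3))))))))⟩
noncomputable def pd3 : Fn3 := ⟨_, _, fun h1 h2 h3 => (enc_case h1 (enc_neg (rcq3.enc (enc_neg h1) h2 h3)) (rcq3.enc h1 h2 h3))⟩
noncomputable def mug3 : Fn1 := ⟨_, _, fun h1 => (enc_inv (enc_add (enc_nat 2 (gsg.enc h1)) (enc_pnc _ 3)))⟩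
noncomputable def eng : Fn1 := ⟨_, _, fun h1 => (enc_norm (enc_add (enc_pnc _ 1) (enc_mul (mug3.enc h1) (gug.enc h1))))⟩
noncomputable def mog : Fn1 := ⟨_, _, fun h1 => (enc_norm (enc_scale 1 20 (enc_mul (mug3.enc h1) (esg.enc h1))))⟩
noncomputable def kf1q2 : Fn2 := ⟨_, _, fun h1 h2 => (enc_norm (enc_mul (cv1p.enc h1) (bf1q2.enc h1 h2)))⟩
noncomputable def l1q2 : Fn2 := ⟨_, _, fun h1 h2 => (enc_norm (enc_mul (cv1p.enc h1) (bx1q2.enc h1 h2)))⟩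
noncomputable def kc1q2 : Fn2 := ⟨_, _, fun h1 h2 => (enc_norm (enc_mul (cv1p.enc h1) (bd1q2.enc h1 h2)))⟩

noncomputable def ndB0q0 : Node := ⟨idf, c1g, kf0q0, l0q0⟩
noncomputable def cd0q0 : Fn2 := kc0q0
noncomputable def ndB0q1 : Node := ⟨idf, c1g, kf0q1, l0q1⟩
noncomputable def cd0q1 : Fn2 := kc0q1
noncomputable def ndB0q2 : Node := ⟨yag, idf, kfc02, lc02⟩
noncomputable def cd0q2 : Fn2 := kcc02
noncomputable def ndB1q0 : Node := ⟨idf, cv1m, kf1q0, l1q0⟩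
noncomputable def cd1q0 : Fn2 := kc1q0
noncomputable def ndB1q1 : Node := ⟨idf, cv1m, kf1q1, l1q1⟩
noncomputable def cd1q1 : Fn2 := kc1q1
noncomputable def ndB1q2a : Node := ⟨yag, xc12a, kfc12a, lc12a⟩
noncomputable def cd1q2a : Fn2 := kcc12a
noncomputable def ndB1q2b : Node := ⟨idf, xc12b, kfc12b, lc12b⟩
noncomputable def cd1q2b : Fn2 := kcc12b
noncomputable def ndB1q3 : Node := ⟨idf, cv1r, kf1q3, l1q3⟩
noncomputable def cd1q3 : Fn2 := kc1q3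
noncomputable def ndB2q0 : Node := ⟨idf, cv2m, kf2q0, l2q0⟩
noncomputable def cd2q0 : Fn2 := kc2q0
noncomputable def ndB2q1 : Node := ⟨idf, cv2m, kf2q1, l2q1⟩
noncomputable def cd2q1 : Fn2 := kc2q1
noncomputable def ndB2q2 : Node := ⟨idf, cv2p, kf2q2, l2q2⟩
noncomputable def cd2q2 : Fn2 := kc2q2
noncomputable def ndB2q3 : Node := ⟨ycg, xc23, kfc23, lc23⟩
noncomputable def cd2q3 : Fn2 := kcc23
noncomputable def ndB3q0 : Node := ⟨idf, cv3m, kf3q0, l3q0⟩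
noncomputable def cd3q0 : Fn2 := kc3q0
noncomputable def ndB3q1 : Node := ⟨idf, cv3m, kf3q1, l3q1⟩
noncomputable def cd3q1 : Fn2 := kc3q1
noncomputable def ndB3q2 : Node := ⟨idf, cv3p, kf3q2, l3q2⟩
noncomputable def cd3q2 : Fn2 := kc3q2
noncomputable def ndB3q3 : Node := ⟨ycg, xc33, kfc33, lc33⟩
noncomputable def cd3q3 : Fn2 := kcc33
noncomputable def ndB4q0 : Node := ⟨idf, c3g, kf4q0, l4q0⟩
noncomputable def cd4q0 : Fn2 := kc4q0
noncomputable def ndB4q1 : Node := ⟨idf, c3g, kf4q1, l4q1⟩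
noncomputable def cd4q1 : Fn2 := kc4q1
noncomputable def ndB4q2 : Node := ⟨idf, c3g, kf4q2, l4q2⟩
noncomputable def cd4q2 : Fn2 := kc4q2
noncomputable def ndB4q3 : Node := ⟨ycg, idf, kfc43, lc43⟩
noncomputable def cd4q3 : Fn2 := kcc43
noncomputable def pcB0 : Piece := ⟨rsbq0, rlq0⟩
noncomputable def pcB1 : Piece := ⟨rsbq1, rlq1⟩
noncomputable def pcB2 : Piece := ⟨rsbq2, rlq2⟩
noncomputable def pcB3 : Piece := ⟨rsbq3, rlq3⟩
noncomputable def ndB1q2 : Node := ⟨idf, cv1p, kf1q2, l1q2⟩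
noncomputable def cd1q2 : Fn2 := kc1q2
end Pool.Agent.Strip051.G.I8000_8600.Tab
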