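import Pool.Agent.Strip051.PB.StripC
import Pool.Agent.Strip051.G.I8000_8600.Fact

/-! # Facts about the strips of a table (generated) -/

set_option linter.all false
set_option maxRecDepth 4000

namespace Pool.Agent.Strip051.G.I8000_8600.Tab.St

open Pool.Agent.Strip051.PB Pool.Agent.StripNear Pool.Agent.Strip051.LC
open Pool.Agent.Strip051.G.I8000_8600.Tab

noncomputable def sl1 : Fn1 := ⟨_, _, fun h1 => (enc_norm (enc_add (enc_scale 2308461653 5000000 (enc_subr 83 100 h1)) (enc_rat _ 926556683 50000000)))⟩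
noncomputable def sv1 : Fn1 := ⟨_, _, fun h1 => (enc_norm (enc_add (enc_scale 5809503627 50000000 (enc_subr 83 100 h1)) (enc_rat _ 727098157 200000000)))⟩
noncomputable def sw1 : Fn1 := ⟨_, _, fun h1 => (enc_norm (enc_add (enc_scale 86601 200 (enc_subr 83 100 h1)) (enc_rat _ 19369 1000)))⟩
noncomputable def sl2 : Fn1 := ⟨_, _, fun h1 => (enc_norm (enc_sub (enc_rat _ 370622673 20000000) (enc_scale 967422677 4000000 (enc_subr 83 100 h1))))⟩
noncomputable def sv2 : Fn1 := ⟨_, _, fun h1 => (enc_norm (enc_sub (enc_rat _ 7270981561 2000000000) (enc_scale 16843290957 400000000 (enc_subr 83 100 h1))))⟩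
noncomputable def sw2 : Fn1 := ⟨_, _, fun h1 => (enc_norm (enc_sub (enc_rat _ 19369 1000) (enc_scale 69743 200 (enc_subr 83 100 h1))))⟩
noncomputable def sl3 : Fn1 := ⟨_, _, fun h1 => (enc_norm (enc_subr 465007453 40000000 (enc_neg (enc_scale 483711339 2000000 (enc_subr 83 100 h1)))))⟩
noncomputable def sv3 : Fn1 := ⟨_, _, fun h1 => (enc_norm (enc_subr 10186219237 4000000000 (enc_neg (enc_scale 8421645499 200000000 (enc_subr 83 100 h1)))))⟩
noncomputable def sw3 : Fn1 := ⟨_, _, fun h1 => (enc_norm (enc_subr 17407 1000 (enc_neg (enc_scale 69743 200 (enc_subr 83 100 h1)))))⟩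
noncomputable def sl4 : Fn1 := ⟨_, _, fun h1 => (enc_norm (enc_sub (enc_rat _ 485421922 386484375) (enc_scale 768074859527831 2524619000000 (enc_subr 83 100 h1))))⟩
noncomputable def sv4 : Fn1 := ⟨_, _, fun h1 => (enc_norm (enc_subr 809015151451 4947000000000 (enc_neg (enc_scale 13544129772582679 252461900000000 (enc_subr 83 100 h1)))))⟩
noncomputable def sw4 : Fn1 := ⟨_, _, fun h1 => (enc_norm (enc_neg (enc_scale 43301 100 (enc_subr 83 100 h1))))⟩
noncomputable def sl5 : Fn1 := ⟨_, _, fun h1 => (enc_norm (enc_add (enc_scale 11539470967806603953087 195048737689400000000 (enc_subr 83 100 h1)) (enc_rat _ 553994247009019894481 487621844223500000000)))⟩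
noncomputable def sv5 : Fn1 := ⟨_, _, fun h1 => (enc_norm (enc_subr 179227728865129675817 975243688447000000000 (enc_scale 300725170141514834391 39009747537880000000 (enc_subr 83 100 h1))))⟩
noncomputable def sw5 : Fn1 := ⟨_, _, fun h1 => (enc_norm (enc_subr 71 400 (enc_scale 21011 200 (enc_subr 83 100 h1))))⟩
noncomputable def sl6 : Fn1 := ⟨_, _, fun h1 => (enc_norm (enc_add (enc_scale 1121857066792997 18961082000000 (enc_subr 83 100 h1)) (enc_rat _ 133564570212987 54174520000000)))⟩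
noncomputable def sv6 : Fn1 := ⟨_, _, fun h1 => (enc_norm (enc_subr 13698569248213 338590750000000 (enc_scale 913620775944397 118506762500000 (enc_subr 83 100 h1))))⟩
noncomputable def sw6 : Fn1 := ⟨_, _, fun h1 => (enc_norm (enc_add (enc_scale 21013 200 (enc_subr 83 100 h1)) (enc_rat _ 581 200)))⟩
noncomputable def sl7 : Fn1 := ⟨_, _, fun h1 => (enc_norm (enc_sub (enc_rat _ 344961 100000) (enc_scale 189041 10000 (enc_subr 83 100 h1))))⟩
noncomputable def sv7 : Fn1 := ⟨_, _, fun h1 => (enc_norm (enc_add (enc_scale 22872 15625 (enc_subr 83 100 h1)) (enc_rat _ 11961 312500)))⟩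
noncomputable def sw7 : Fn1 := ⟨_, _, fun h1 => (enc_norm (enc_sub (enc_rat _ 11961 2000) (enc_scale 27781 200 (enc_subr 83 100 h1))))⟩
noncomputable def sl8 : Fn1 := ⟨_, _, fun h1 => (enc_norm (enc_sub (enc_rat _ 344961 100000) (enc_scale 894881 10000 (enc_subr 83 100 h1))))⟩
noncomputable def sv8 : Fn1 := ⟨_, _, fun h1 => (enc_norm (enc_sub (enc_rat _ 11961 312500) (enc_scale 86601 31250 (enc_subr 83 100 h1))))⟩
noncomputable def sw8 : Fn1 := ⟨_, _, fun h1 => (enc_norm (enc_sub (enc_rat _ 11961 2000) (enc_scale 86601 200 (enc_subr 83 100 h1))))⟩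
noncomputable def sl9 : Fn1 := ⟨_, _, fun h1 => (enc_norm (enc_sub (enc_rat _ 249273 100000) (enc_scale 202073 10000 (enc_subr 83 100 h1))))⟩
noncomputable def sv9 : Fn1 := ⟨_, _, fun h1 => (enc_pnc _ 0)⟩
noncomputable def sl10 : Fn1 := ⟨_, _, fun h1 => (enc_norm (enc_sub (enc_rat _ 344961 100000) (enc_scale 894881 10000 (enc_subr 83 100 h1))))⟩
noncomputable def sv10 : Fn1 := ⟨_, _, fun h1 => (enc_norm (enc_subr 11961 312500 (enc_scale 86601 31250 (enc_subr 83 100 h1))))⟩
noncomputable def sw10 : Fn1 := ⟨_, _, fun h1 => (enc_norm (enc_subr 11961 2000 (enc_scale 86601 200 (enc_subr 83 100 h1))))⟩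
noncomputable def sl11 : Fn1 := ⟨_, _, fun h1 => (enc_norm (enc_sub (enc_rat _ 344961 100000) (enc_scale 189041 10000 (enc_subr 83 100 h1))))⟩
noncomputable def sv11 : Fn1 := ⟨_, _, fun h1 => (enc_norm (enc_subr 11961 312500 (enc_neg (enc_scale 22872 15625 (enc_subr 83 100 h1)))))⟩
noncomputable def sw11 : Fn1 := ⟨_, _, fun h1 => (enc_norm (enc_subr 11961 2000 (enc_scale 27781 200 (enc_subr 83 100 h1))))⟩
noncomputable def sl12 : Fn1 := ⟨_, _, fun h1 => (enc_norm (enc_add (enc_scale 1121857066792997 18961082000000 (enc_subr 83 100 h1)) (enc_rat _ 133564570212987 54174520000000)))⟩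
noncomputable def sv12 : Fn1 := ⟨_, _, fun h1 => (enc_norm (enc_sub (enc_rat _ 13698569248213 338590750000000) (enc_scale 913620775944397 118506762500000 (enc_subr 83 100 h1))))⟩
noncomputable def sw12 : Fn1 := ⟨_, _, fun h1 => (enc_norm (enc_subr 581 200 (enc_neg (enc_scale 21013 200 (enc_subr 83 100 h1)))))⟩
noncomputable def sl13 : Fn1 := ⟨_, _, fun h1 => (enc_norm (enc_add (enc_scale 11539470967806603953087 195048737689400000000 (enc_subr 83 100 h1)) (enc_rat _ 553994247009019894481 487621844223500000000)))⟩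
noncomputable def sv13 : Fn1 := ⟨_, _, fun h1 => (enc_norm (enc_sub (enc_rat _ 179227728865129675817 975243688447000000000) (enc_scale 300725170141514834391 39009747537880000000 (enc_subr 83 100 h1))))⟩
noncomputable def sw13 : Fn1 := ⟨_, _, fun h1 => (enc_norm (enc_sub (enc_rat _ 71 400) (enc_scale 21011 200 (enc_subr 83 100 h1))))⟩
noncomputable def sl14 : Fn1 := ⟨_, _, fun h1 => (enc_norm (enc_sub (enc_rat _ 485421922 386484375) (enc_scale 768074859527831 2524619000000 (enc_subr 83 100 h1))))⟩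
noncomputable def sv14 : Fn1 := ⟨_, _, fun h1 => (enc_norm (enc_add (enc_scale 13544129772582679 252461900000000 (enc_subr 83 100 h1)) (enc_rat _ 809015151451 4947000000000)))⟩
noncomputable def sw14 : Fn1 := ⟨_, _, fun h1 => (enc_norm (enc_scale 43301 100 (enc_subr 83 100 h1)))⟩
noncomputable def sl15 : Fn1 := ⟨_, _, fun h1 => (enc_norm (enc_subr 465007453 40000000 (enc_neg (enc_scale 483711339 2000000 (enc_subr 83 100 h1)))))⟩
noncomputable def sv15 : Fn1 := ⟨_, _, fun h1 => (enc_norm (enc_add (enc_scale 8421645499 200000000 (enc_subr 83 100 h1)) (enc_rat _ 10186219237 4000000000)))⟩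
noncomputable def sw15 : Fn1 := ⟨_, _, fun h1 => (enc_norm (enc_add (enc_scale 69743 200 (enc_subr 83 100 h1)) (enc_rat _ 17407 1000)))⟩
noncomputable def sl16 : Fn1 := ⟨_, _, fun h1 => (enc_norm (enc_sub (enc_rat _ 370622673 20000000) (enc_scale 967422677 4000000 (enc_subr 83 100 h1))))⟩
noncomputable def sv16 : Fn1 := ⟨_, _, fun h1 => (enc_norm (enc_subr 7270981561 2000000000 (enc_scale 16843290957 400000000 (enc_subr 83 100 h1))))⟩
noncomputable def sw16 : Fn1 := ⟨_, _, fun h1 => (enc_norm (enc_subr 19369 1000 (enc_scale 69743 200 (enc_subr 83 100 h1))))⟩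
noncomputable def sl17 : Fn1 := ⟨_, _, fun h1 => (enc_norm (enc_add (enc_scale 2308461653 5000000 (enc_subr 83 100 h1)) (enc_rat _ 926556683 50000000)))⟩
noncomputable def sv17 : Fn1 := ⟨_, _, fun h1 => (enc_norm (enc_subr 727098157 200000000 (enc_neg (enc_scale 5809503627 50000000 (enc_subr 83 100 h1)))))⟩
noncomputable def sw17 : Fn1 := ⟨_, _, fun h1 => (enc_norm (enc_subr 19369 1000 (enc_neg (enc_scale 86601 200 (enc_subr 83 100 h1)))))⟩
noncomputable def sl34 : Fn1 := ⟨_, _, fun h1 => (enc_norm (enc_add (enc_scale 20239 1000 (enc_subr 83 100 h1)) (enc_rat _ 38183 100000)))⟩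
noncomputable def sv34 : Fn1 := ⟨_, _, fun h1 => (enc_norm (enc_add (enc_scale 19393 4000 (enc_subr 83 100 h1)) (enc_rat _ 34833 200000)))⟩
noncomputable def sw34 : Fn1 := ⟨_, _, fun h1 => (enc_norm (enc_add (enc_scale 4217 200 (enc_subr 83 100 h1)) (enc_rat _ 67 1000)))⟩
noncomputable def sl35 : Fn1 := ⟨_, _, fun h1 => (enc_norm (enc_add (enc_scale 12869 500 (enc_subr 83 100 h1)) (enc_rat _ 71303 100000)))⟩
noncomputable def sv35 : Fn1 := ⟨_, _, fun h1 => (enc_norm (enc_add (enc_scale 243421 40000 (enc_subr 83 100 h1)) (enc_rat _ 49737 200000)))⟩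
noncomputable def sw35 : Fn1 := ⟨_, _, fun h1 => (enc_norm (enc_add (enc_scale 5439 200 (enc_subr 83 100 h1)) (enc_rat _ 87 200)))⟩
noncomputable def sl36 : Fn1 := ⟨_, _, fun h1 => (enc_norm (enc_sub (enc_rat _ 156983 100000) (enc_scale 115099 5000 (enc_subr 83 100 h1))))⟩
noncomputable def sv36 : Fn1 := ⟨_, _, fun h1 => (enc_norm (enc_sub (enc_rat _ 428613 1000000) (enc_scale 4153613 1000000 (enc_subr 83 100 h1))))⟩
noncomputable def sw36 : Fn1 := ⟨_, _, fun h1 => (enc_norm (enc_sub (enc_rat _ 291 200) (enc_scale 617 20 (enc_subr 83 100 h1))))⟩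
noncomputable def sl37 : Fn1 := ⟨_, _, fun h1 => (enc_norm (enc_sub (enc_rat _ 13409 10000) (enc_scale 47719 1250 (enc_subr 83 100 h1))))⟩
noncomputable def sv37 : Fn1 := ⟨_, _, fun h1 => (enc_norm (enc_sub (enc_rat _ 7679433 20000000) (enc_scale 1777229 250000 (enc_subr 83 100 h1))))⟩
noncomputable def sw37 : Fn1 := ⟨_, _, fun h1 => (enc_norm (enc_sub (enc_rat _ 2323 2000) (enc_scale 1257 25 (enc_subr 83 100 h1))))⟩
noncomputable def sl38 : Fn1 := ⟨_, _, fun h1 => (enc_norm (enc_subr 175919 50000 (enc_scale 51037 2500 (enc_subr 83 100 h1))))⟩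
noncomputable def sv38 : Fn1 := ⟨_, _, fun h1 => (enc_norm (enc_subr 392559 800000 (enc_scale 859321 250000 (enc_subr 83 100 h1))))⟩
noncomputable def sw38 : Fn1 := ⟨_, _, fun h1 => (enc_norm (enc_subr 447 80 (enc_scale 6219 200 (enc_subr 83 100 h1))))⟩
noncomputable def sl39 : Fn1 := ⟨_, _, fun h1 => (enc_norm (enc_sub (enc_rat _ 138443 100000) (enc_scale 41339 10000 (enc_subr 83 100 h1))))⟩
noncomputable def sv39 : Fn1 := ⟨_, _, fun h1 => (enc_norm (enc_sub (enc_rat _ 3182649 10000000) (enc_scale 1226503 2000000 (enc_subr 83 100 h1))))⟩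
noncomputable def sw39 : Fn1 := ⟨_, _, fun h1 => (enc_norm (enc_sub (enc_rat _ 1841 1000) (enc_scale 61 10 (enc_subr 83 100 h1))))⟩
noncomputable def sl40 : Fn1 := ⟨_, _, fun h1 => (enc_norm (enc_add (enc_scale 32641 10000 (enc_subr 83 100 h1)) (enc_rat _ 42593 100000)))⟩
noncomputable def sv40 : Fn1 := ⟨_, _, fun h1 => (enc_norm (enc_add (enc_scale 992897 2000000 (enc_subr 83 100 h1)) (enc_rat _ 1744899 10000000)))⟩
noncomputable def sw40 : Fn1 := ⟨_, _, fun h1 => (enc_norm (enc_add (enc_scale 623 100 (enc_subr 83 100 h1)) (enc_rat _ 487 2000)))⟩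
noncomputable def sl41 : Fn1 := ⟨_, _, fun h1 => (enc_norm (enc_add (enc_scale 233 5000 (enc_subr 83 100 h1)) (enc_rat _ 1117 25000)))⟩
noncomputable def sv41 : Fn1 := ⟨_, _, fun h1 => (enc_norm (enc_add (enc_scale 94261 1000000 (enc_subr 83 100 h1)) (enc_rat _ 2536673 20000000)))⟩
noncomputable def sw41 : Fn1 := ⟨_, _, fun h1 => (enc_norm (enc_subr 519 1000 (enc_neg (enc_scale 41 200 (enc_subr 83 100 h1)))))⟩
noncomputable def sl42 : Fn1 := ⟨_, _, fun h1 => (enc_norm (enc_add (enc_scale 2503 5000 (enc_subr 83 100 h1)) (enc_rat _ 639 3125)))⟩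
noncomputable def sv42 : Fn1 := ⟨_, _, fun h1 => (enc_norm (enc_add (enc_scale 139661 1000000 (enc_subr 83 100 h1)) (enc_rat _ 2856273 20000000)))⟩
noncomputable def sw42 : Fn1 := ⟨_, _, fun h1 => (enc_norm (enc_subr 239 2000 (enc_scale 93 100 (enc_subr 83 100 h1))))⟩
noncomputable def sl43 : Fn1 := ⟨_, _, fun h1 => (enc_norm (enc_sub (enc_rat _ 639 3125) (enc_scale 5881 2500 (enc_subr 83 100 h1))))⟩
noncomputable def sv43 : Fn1 := ⟨_, _, fun h1 => (enc_norm (enc_sub (enc_rat _ 2856273 20000000) (enc_scale 37157 500000 (enc_subr 83 100 h1))))⟩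
noncomputable def sw43 : Fn1 := ⟨_, _, fun h1 => (enc_norm (enc_subr 239 2000 (enc_neg (enc_scale 429 50 (enc_subr 83 100 h1)))))⟩
noncomputable def sl44 : Fn1 := ⟨_, _, fun h1 => (enc_norm (enc_add (enc_scale 41 625 (enc_subr 83 100 h1)) (enc_rat _ 4329 50000)))⟩
noncomputable def sv44 : Fn1 := ⟨_, _, fun h1 => (enc_norm (enc_add (enc_scale 23293 500000 (enc_subr 83 100 h1)) (enc_rat _ 2738373 20000000)))⟩
noncomputable def sw44 : Fn1 := ⟨_, _, fun h1 => (enc_norm (enc_subr 709 1000 (enc_scale 351 100 (enc_subr 83 100 h1))))⟩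
noncomputable def sl45 : Fn1 := ⟨_, _, fun h1 => (enc_norm (enc_subr 4711 50000 (enc_scale 9963 5000 (enc_subr 83 100 h1))))⟩
noncomputable def sv45 : Fn1 := ⟨_, _, fun h1 => (enc_norm (enc_sub (enc_rat _ 2919173 20000000) (enc_scale 12441 250000 (enc_subr 83 100 h1))))⟩
noncomputable def sw45 : Fn1 := ⟨_, _, fun h1 => (enc_norm (enc_sub (enc_rat _ 39 200) (enc_scale 49 8 (enc_subr 83 100 h1))))⟩
noncomputable def sl46 : Fn1 := ⟨_, _, fun h1 => (enc_norm (enc_add (enc_scale 2083 1250 (enc_subr 83 100 h1)) (enc_rat _ 1491 12500)))⟩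
noncomputable def sv46 : Fn1 := ⟨_, _, fun h1 => (enc_norm (enc_sub (enc_rat _ 2620273 20000000) (enc_scale 2693 100000 (enc_subr 83 100 h1))))⟩
noncomputable def sw46 : Fn1 := ⟨_, _, fun h1 => (enc_norm (enc_subr 227 400 (enc_neg (enc_scale 124 25 (enc_subr 83 100 h1)))))⟩
noncomputable def sl47_2 : Fn1 := ⟨_, _, fun h1 => (enc_subr 83 100 h1)⟩
noncomputable def sl47 : Fn1 := ⟨_, _, fun h1 => (enc_norm (enc_sub (enc_sub (enc_rat _ 1457695162613241 12143761000000000) (enc_scale 255207552803003 151797012500000 (sl47_2.enc h1))) (enc_scale 71784434255909 6071880500000 (enc_sq (enc_norm (sl47_2.enc h1))))))⟩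
noncomputable def sv47_2 : Fn1 := ⟨_, _, fun h1 => (enc_subr 83 100 h1)⟩
noncomputable def sv47 : Fn1 := ⟨_, _, fun h1 => (enc_norm (enc_add (enc_add (enc_scale 2082336293401027 7589850625000000 (sv47_2.enc h1)) (enc_rat _ 79508549587005331 607188050000000000)) (enc_scale 323031008198781 303594025000000 (enc_sq (enc_norm (sv47_2.enc h1))))))⟩
noncomputable def sw47_2 : Fn1 := ⟨_, _, fun h1 => (enc_subr 83 100 h1)⟩
noncomputable def sw47 : Fn1 := ⟨_, _, fun h1 => (enc_norm (enc_add (enc_subr 356 625 (enc_scale 4339 1000 (sw47_2.enc h1))) (enc_scale 821 25 (enc_sq (enc_norm (sw47_2.enc h1))))))⟩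
noncomputable def sl49_2 : Fn1 := ⟨_, _, fun h1 => (enc_subr 83 100 h1)⟩
noncomputable def sl49 : Fn1 := ⟨_, _, fun h1 => (enc_norm (enc_sub (enc_sub (enc_rat _ 1037658522099629 373564000000000) (enc_scale 5605355990411559 261494800000000 (sl49_2.enc h1))) (enc_scale 27181686814649 373564000000 (enc_sq (enc_norm (sl49_2.enc h1))))))⟩
noncomputable def sv49_2 : Fn1 := ⟨_, _, fun h1 => (enc_subr 83 100 h1)⟩
noncomputable def sv49 : Fn1 := ⟨_, _, fun h1 => (enc_norm (enc_add (enc_subr 2827587292153661 9339100000000000 (enc_scale 24522481091642031 6537370000000000 (sv49_2.enc h1))) (enc_scale 122317477130241 9339100000000 (enc_sq (enc_norm (sv49_2.enc h1))))))⟩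
noncomputable def sw49_2 : Fn1 := ⟨_, _, fun h1 => (enc_subr 83 100 h1)⟩
noncomputable def sw49 : Fn1 := ⟨_, _, fun h1 => (enc_norm (enc_add (enc_subr 2943 625 (enc_scale 3932 125 (sw49_2.enc h1))) (enc_scale 5053 50 (enc_sq (enc_norm (sw49_2.enc h1))))))⟩
noncomputable def sl50 : Fn1 := ⟨_, _, fun h1 => (enc_norm (enc_subr 60469 100000 (enc_scale 9269 400 (enc_subr 83 100 h1))))⟩
noncomputable def sv50 : Fn1 := ⟨_, _, fun h1 => (enc_norm (enc_sub (enc_rat _ 244853 800000) (enc_scale 34227 8000 (enc_subr 83 100 h1))))⟩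
noncomputable def sw50 : Fn1 := ⟨_, _, fun h1 => (enc_norm (enc_subr 11 1000 (enc_neg (enc_scale 61 2 (enc_subr 83 100 h1)))))⟩
noncomputable def sl51 : Fn1 := ⟨_, _, fun h1 => (enc_norm (enc_subr 58789 100000 (enc_neg (enc_scale 2831 2000 (enc_subr 83 100 h1)))))⟩
noncomputable def sv51 : Fn1 := ⟨_, _, fun h1 => (enc_norm (enc_add (enc_scale 25569 40000 (enc_subr 83 100 h1)) (enc_rat _ 48433 160000)))⟩
noncomputable def sw51 : Fn1 := ⟨_, _, fun h1 => (enc_norm (enc_subr 4 125 (enc_scale 47 200 (enc_subr 83 100 h1))))⟩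
noncomputable def sl52 : Fn1 := ⟨_, _, fun h1 => (enc_norm (enc_subr 3923 12500 (enc_neg (enc_scale 9869 2000 (enc_subr 83 100 h1)))))⟩
noncomputable def sv52 : Fn1 := ⟨_, _, fun h1 => (enc_norm (enc_add (enc_scale 1431 1000 (enc_subr 83 100 h1)) (enc_rat _ 48209 200000)))⟩
noncomputable def sw52 : Fn1 := ⟨_, _, fun h1 => (enc_norm (enc_subr 673 2000 (enc_scale 829 200 (enc_subr 83 100 h1))))⟩
noncomputable def skf0 : Fn2 := ⟨_, _, fun h1 h2 => (enc_norm (enc_add (bf1q0.enc h1 h2) (enc_mul (enc_norm (enc_sub (enc_mul (c1g.enc h1) (bf1q0.enc h1 h2)) (kf0q0.enc h1 h2))) (enc_inv (enc_sub (cv1m.enc h1) (c1g.enc h1))))))⟩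
noncomputable def sxf0 : Fn2 := ⟨_, _, fun h1 h2 => (enc_norm (enc_mul (enc_norm (enc_sub (l1q0.enc h1 h2) (l0q0.enc h1 h2))) (enc_inv (enc_sub (cv1m.enc h1) (c1g.enc h1)))))⟩
noncomputable def skl0 : Fn2 := ⟨_, _, fun h1 h2 => (enc_norm (enc_add (bf3q0.enc h1 h2) (enc_mul (enc_norm (enc_sub (kf4q0.enc h1 h2) (enc_mul (c3g.enc h1) (bf3q0.enc h1 h2)))) (enc_inv (enc_sub (c3g.enc h1) (cv3m.enc h1))))))⟩
noncomputable def sxl0 : Fn2 := ⟨_, _, fun h1 h2 => (enc_norm (enc_mul (enc_norm (enc_sub (l4q0.enc h1 h2) (l3q0.enc h1 h2))) (enc_inv (enc_sub (c3g.enc h1) (cv3m.enc h1)))))⟩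
noncomputable def skf1 : Fn2 := ⟨_, _, fun h1 h2 => (enc_norm (enc_add (bf1q1.enc h1 h2) (enc_mul (enc_norm (enc_sub (enc_mul (c1g.enc h1) (bf1q1.enc h1 h2)) (kf0q1.enc h1 h2))) (enc_inv (enc_sub (cv1m.enc h1) (c1g.enc h1))))))⟩
noncomputable def sxf1 : Fn2 := ⟨_, _, fun h1 h2 => (enc_norm (enc_mul (enc_norm (enc_sub (l1q1.enc h1 h2) (l0q1.enc h1 h2))) (enc_inv (enc_sub (cv1m.enc h1) (c1g.enc h1)))))⟩
noncomputable def skl1 : Fn2 := ⟨_, _, fun h1 h2 => (enc_norm (enc_add (bf3q1.enc h1 h2) (enc_mul (enc_norm (enc_sub (kf4q1.enc h1 h2) (enc_mul (c3g.enc h1) (bf3q1.enc h1 h2)))) (enc_inv (enc_sub (c3g.enc h1) (cv3m.enc h1))))))⟩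
noncomputable def sxl1 : Fn2 := ⟨_, _, fun h1 h2 => (enc_norm (enc_mul (enc_norm (enc_sub (l4q1.enc h1 h2) (l3q1.enc h1 h2))) (enc_inv (enc_sub (c3g.enc h1) (cv3m.enc h1)))))⟩
noncomputable def skf2 : Fn2 := ⟨_, _, fun h1 h2 => (enc_norm (enc_add (bf1q2.enc h1 h2) (enc_mul (enc_norm (enc_add (enc_mul (c1g.enc h1) (enc_norm (enc_subn 1 (bf1q2.enc h1 h2)))) (enc_mul (enc_norm (enc_subn 1 h1)) (kcg.enc (c1g.enc h1) h2)))) (enc_inv (enc_sub (cv1p.enc h1) (c1g.enc h1))))))⟩
noncomputable def sxf2 : Fn2 := ⟨_, _, fun h1 h2 => (enc_norm (enc_mul (enc_norm (enc_sub (l1q2.enc h1 h2) (l0q2.enc h1 h2))) (enc_inv (enc_sub (cv1p.enc h1) (c1g.enc h1)))))⟩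
noncomputable def skl2 : Fn2 := ⟨_, _, fun h1 h2 => (enc_norm (enc_add (bf3q2.enc h1 h2) (enc_mul (enc_norm (enc_sub (kf4q2.enc h1 h2) (enc_mul (c3g.enc h1) (bf3q2.enc h1 h2)))) (enc_inv (enc_sub (c3g.enc h1) (cv3p.enc h1))))))⟩
noncomputable def sxl2 : Fn2 := ⟨_, _, fun h1 h2 => (enc_norm (enc_mul (enc_norm (enc_sub (l4q2.enc h1 h2) (l3q2.enc h1 h2))) (enc_inv (enc_sub (c3g.enc h1) (cv3p.enc h1)))))⟩
noncomputable def skl3 : Fn2 := ⟨_, _, fun h1 h2 => (enc_norm (enc_add (bf3q3.enc h1 h2) (enc_mul (enc_norm (enc_sub (kf4q3.enc h1 h2) (enc_mul (c3g.enc h1) (bf3q3.enc h1 h2)))) (enc_inv (enc_sub (c3g.enc h1) (cv3r.enc h1))))))⟩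
noncomputable def sxl3 : Fn2 := ⟨_, _, fun h1 h2 => (enc_norm (enc_mul (enc_norm (enc_sub (l4q3.enc h1 h2) (l3q3.enc h1 h2))) (enc_inv (enc_sub (c3g.enc h1) (cv3r.enc h1)))))⟩
noncomputable def rhk : Fn2 := ⟨_, _, fun h1 h2 => (enc_norm (enc_mul (enc_norm (enc_sub (bf1q2.enc h1 h2) (n0b.enc h1 h2))) (enc_norm (enc_mul (cv1p.enc h1) (enc_inv (enc_sub (cv1p.enc h1) (c1g.enc h1)))))))⟩
noncomputable def rhx : Fn2 := ⟨_, _, fun h1 h2 => (enc_norm (enc_mul (enc_norm (enc_sub (bx1q2.enc h1 h2) (n0x.enc h1 h2))) (enc_norm (enc_mul (cv1p.enc h1) (enc_inv (enc_sub (cv1p.enc h1) (c1g.enc h1)))))))⟩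
noncomputable def sbk : Fn1 := ⟨_, _, fun h1 => (enc_norm (enc_add (enc_scale 1 6900 (enc_subr 83 100 h1)) (enc_rat _ 1 69000)))⟩
noncomputable def sbx : Fn1 := ⟨_, _, fun h1 => (enc_norm (enc_add (enc_scale 1 580 (enc_subr 83 100 h1)) (enc_rat _ 8853 5800)))⟩
noncomputable def k0c : Fn1 := ⟨_, _, fun h1 => (enc_norm (enc_sub (enc_rat _ 249273 100000) (enc_scale 202073 10000 (enc_subr 83 100 h1))))⟩
noncomputable def m0c : Fn1 := ⟨_, _, fun h1 => (enc_norm (enc_subr 4329 25000 (enc_neg (enc_scale 82 625 (enc_subr 83 100 h1)))))⟩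
noncomputable def sl71 : Fn1 := ⟨_, _, fun h1 => (enc_norm (enc_subr 753 5000 (enc_neg (enc_scale 10179 5000 (enc_subr 83 100 h1)))))⟩
noncomputable def sv71 : Fn1 := ⟨_, _, fun h1 => (enc_norm (enc_subr 59 5000 (enc_neg (enc_scale 166591 1000000 (enc_subr 83 100 h1)))))⟩
noncomputable def sw71 : Fn1 := ⟨_, _, fun h1 => (enc_norm (enc_subr 56 125 (enc_neg (enc_scale 589 100 (enc_subr 83 100 h1)))))⟩
noncomputable def sl72 : Fn1 := ⟨_, _, fun h1 => (enc_norm (enc_subr 753 5000 (enc_scale 2043 2500 (enc_subr 83 100 h1))))⟩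
noncomputable def sv72 : Fn1 := ⟨_, _, fun h1 => (enc_norm (enc_subr 59 5000 (enc_scale 5923 125000 (enc_subr 83 100 h1))))⟩
noncomputable def sw72 : Fn1 := ⟨_, _, fun h1 => (enc_norm (enc_subr 56 125 (enc_scale 181 50 (enc_subr 83 100 h1))))⟩
noncomputable def sl73 : Fn1 := ⟨_, _, fun h1 => (enc_norm (enc_add (enc_scale 491 1000 (enc_subr 83 100 h1)) (enc_rat _ 629 10000)))⟩
noncomputable def sv73 : Fn1 := ⟨_, _, fun h1 => (enc_norm (enc_add (enc_scale 491 20000 (enc_subr 83 100 h1)) (enc_rat _ 629 200000)))⟩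
noncomputable def sw73 : Fn1 := ⟨_, _, fun h1 => (enc_norm (enc_add (enc_scale 491 200 (enc_subr 83 100 h1)) (enc_rat _ 629 2000)))⟩
noncomputable def sl74 : Fn1 := ⟨_, _, fun h1 => (enc_pnc _ 0)⟩
noncomputable def sv74 : Fn1 := ⟨_, _, fun h1 => (enc_pnc _ 0)⟩
noncomputable def sl75 : Fn1 := ⟨_, _, fun h1 => (enc_norm (enc_add (enc_scale 491 1000 (enc_subr 83 100 h1)) (enc_rat _ 629 10000)))⟩
noncomputable def sv75 : Fn1 := ⟨_, _, fun h1 => (enc_norm (enc_subr 629 200000 (enc_neg (enc_scale 491 20000 (enc_subr 83 100 h1)))))⟩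
noncomputable def sw75 : Fn1 := ⟨_, _, fun h1 => (enc_norm (enc_subr 629 2000 (enc_neg (enc_scale 491 200 (enc_subr 83 100 h1)))))⟩
noncomputable def sl76 : Fn1 := ⟨_, _, fun h1 => (enc_norm (enc_subr 753 5000 (enc_scale 2043 2500 (enc_subr 83 100 h1))))⟩
noncomputable def sv76 : Fn1 := ⟨_, _, fun h1 => (enc_norm (enc_sub (enc_rat _ 59 5000) (enc_scale 5923 125000 (enc_subr 83 100 h1))))⟩
noncomputable def sw76 : Fn1 := ⟨_, _, fun h1 => (enc_norm (enc_sub (enc_rat _ 56 125) (enc_scale 181 50 (enc_subr 83 100 h1))))⟩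
noncomputable def sl77 : Fn1 := ⟨_, _, fun h1 => (enc_norm (enc_subr 753 5000 (enc_neg (enc_scale 10179 5000 (enc_subr 83 100 h1)))))⟩
noncomputable def sv77 : Fn1 := ⟨_, _, fun h1 => (enc_norm (enc_add (enc_scale 166591 1000000 (enc_subr 83 100 h1)) (enc_rat _ 59 5000)))⟩
noncomputable def sw77 : Fn1 := ⟨_, _, fun h1 => (enc_norm (enc_add (enc_scale 589 100 (enc_subr 83 100 h1)) (enc_rat _ 56 125)))⟩
noncomputable def kqf : Fn2 := ⟨_, _, fun h1 h2 => (enc_norm (enc_mul (enc_norm (enc_subn 1 h1)) (enc_norm (enc_case (enc_subr 2 25 (c1g.enc h1)) (enc_sub (enc_rat _ 249273 100000) (enc_scale 202073 10000 (enc_subr 83 100 h2))) (enc_mul (kcg.enc (c1g.enc h1) h2) (enc_inv (c1g.enc h1)))))))⟩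
noncomputable def skm : Fn2 := ⟨_, _, fun h1 h2 => (enc_norm (enc_sub (enc_mul (enc_norm (enc_mul (cv1p.enc h1) (enc_inv (enc_sub (cv1p.enc h1) (c1g.enc h1))))) (enc_norm (enc_add (enc_subn 1 (bf1q2.enc h1 h2)) (kqf.enc h1 h2)))) (kqf.enc h1 h2)))⟩
noncomputable def dt1 : DT := .quad sw1 sl1 sv1
noncomputable def dt2 : DT := .quad sw2 sl2 sv2
noncomputable def dt3 : DT := .quad sw3 sl3 sv3
noncomputable def dt4 : DT := .quad sw4 sl4 sv4
noncomputable def dt5 : DT := .quad sw5 sl5 sv5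
noncomputable def dt6 : DT := .quad sw6 sl6 sv6
noncomputable def dt7 : DT := .quad sw7 sl7 sv7
noncomputable def dt8 : DT := .quad sw8 sl8 sv8
noncomputable def dt9 : DT := .lin sl9 sv9
noncomputable def dt10 : DT := .quad sw10 sl10 sv10
noncomputable def dt11 : DT := .quad sw11 sl11 sv11
noncomputable def dt12 : DT := .quad sw12 sl12 sv12
noncomputable def dt13 : DT := .quad sw13 sl13 sv13
noncomputable def dt14 : DT := .quad sw14 sl14 sv14
noncomputable def dt15 : DT := .quad sw15 sl15 sv15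
noncomputable def dt16 : DT := .quad sw16 sl16 sv16
noncomputable def dt17 : DT := .quad sw17 sl17 sv17
noncomputable def dt18 : DT := .node ((Cn.rt 9 20).ng) dt1 dt2
noncomputable def dt19 : DT := .node ((Cn.rt 37 100).ng) dt3 dt4
noncomputable def dt20 : DT := .node ((Cn.rt 41 100).ng) dt18 dt19
noncomputable def dt21 : DT := .node ((Cn.rt 563 2611).ng) dt5 dt6
noncomputable def dt22 : DT := .node ((Cn.rt 3 25).ng) dt7 dt8
noncomputable def dt23 : DT := .node ((Cn.rt 4 25).ng) dt21 dt22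
noncomputable def dt24 : DT := .node ((Cn.rt 517 1531).ng) dt20 dt23
noncomputable def dt25 : DT := .node (Cn.rt 2 25) dt9 dt10
noncomputable def dt26 : DT := .node (Cn.rt 4 25) dt11 dt12
noncomputable def dt27 : DT := .node (Cn.rt 3 25) dt25 dt26
noncomputable def dt28 : DT := .node (Cn.rt 517 1531) dt13 dt14
noncomputable def dt29 : DT := .node (Cn.rt 9 20) dt16 dt17
noncomputable def dt30 : DT := .node (Cn.rt 41 100) dt15 dt29
noncomputable def dt31 : DT := .node (Cn.rt 37 100) dt28 dt30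
noncomputable def dt32 : DT := .node (Cn.rt 563 2611) dt27 dt31
noncomputable def dt33 : DT := .node ((Cn.rt 2 25).ng) dt24 dt32
noncomputable def dt34 : DT := .quad sw34 sl34 sv34
noncomputable def dt35 : DT := .quad sw35 sl35 sv35
noncomputable def dt36 : DT := .quad sw36 sl36 sv36
noncomputable def dt37 : DT := .quad sw37 sl37 sv37
noncomputable def dt38 : DT := .quad sw38 sl38 sv38
noncomputable def dt39 : DT := .quad sw39 sl39 sv39
noncomputable def dt40 : DT := .quad sw40 sl40 sv40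
noncomputable def dt41 : DT := .quad sw41 sl41 sv41
noncomputable def dt42 : DT := .quad sw42 sl42 sv42
noncomputable def dt43 : DT := .quad sw43 sl43 sv43
noncomputable def dt44 : DT := .quad sw44 sl44 sv44
noncomputable def dt45 : DT := .quad sw45 sl45 sv45
noncomputable def dt46 : DT := .quad sw46 sl46 sv46
noncomputable def dt47 : DT := .quad sw47 sl47 sv47
noncomputable def dt48 : DT := .clo
noncomputable def dt49 : DT := .quad sw49 sl49 sv49
noncomputable def dt50 : DT := .quad sw50 sl50 sv50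
noncomputable def dt51 : DT := .quad sw51 sl51 sv51
noncomputable def dt52 : DT := .quad sw52 sl52 sv52
noncomputable def dt53 : DT := .node ((Cn.rt 9 20).ng) dt34 dt35
noncomputable def dt54 : DT := .node ((Cn.rt 39 100).ng) dt36 dt37
noncomputable def dt55 : DT := .node ((Cn.rt 21 50).ng) dt53 dt54
noncomputable def dt56 : DT := .node ((Cn.rt 33 100).ng) dt38 dt39
noncomputable def dt57 : DT := .node ((Cn.rt 1 5).ng) dt41 dt42
noncomputable def dt58 : DT := .node ((Cn.rt 1 4).ng) dt40 dt57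
noncomputable def dt59 : DT := .node ((Cn.rt 3 10).ng) dt56 dt58
noncomputable def dt60 : DT := .node ((Cn.rt 9 25).ng) dt55 dt59
noncomputable def dt61 : DT := .node ((Cn.rt 1 10).ng) dt43 dt44
noncomputable def dt62 : DT := .node (Cn.rt 9 50) dt46 dt47
noncomputable def dt63 : DT := .node (Cn.rt 7 50) dt45 dt62
noncomputable def dt64 : DT := .node (Cn.rt 1 10) dt61 dt63
noncomputable def dt65 : DT := .node (Cn.rt 517 1531) dt48 dt49
noncomputable def dt66 : DT := .node (Cn.rt 9 20) dt51 dt52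
noncomputable def dt67 : DT := .node (Cn.rt 2 5) dt50 dt66
noncomputable def dt68 : DT := .node (Cn.rt 9 25) dt65 dt67
noncomputable def dt69 : DT := .node (Cn.rt 563 2611) dt64 dt68
noncomputable def dt70 : DT := .node ((Cn.rt 3 20).ng) dt60 dt69
noncomputable def dt71 : DT := .quad sw71 sl71 sv71
noncomputable def dt72 : DT := .quad sw72 sl72 sv72
noncomputable def dt73 : DT := .quad sw73 sl73 sv73
noncomputable def dt74 : DT := .lin sl74 sv74
noncomputable def dt75 : DT := .quad sw75 sl75 sv75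
noncomputable def dt76 : DT := .quad sw76 sl76 sv76
noncomputable def dt77 : DT := .quad sw77 sl77 sv77
noncomputable def dt78 : DT := .node ((Cn.rt 7 50).ng) dt72 dt73
noncomputable def dt79 : DT := .node ((Cn.rt 3 20).ng) dt71 dt78
noncomputable def dt80 : DT := .node (Cn.rt 1 10) dt74 dt75
noncomputable def dt81 : DT := .node (Cn.rt 3 20) dt76 dt77
noncomputable def dt82 : DT := .node (Cn.rt 7 50) dt80 dt81
noncomputable def dt83 : DT := .node ((Cn.rt 1 10).ng) dt79 dt82
noncomputable def dd : SDat := ⟨dt33, kcg, dt70, Kh.T⟩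
noncomputable def gf0 : Sg := ⟨cv1m, skf0, sxf0⟩
noncomputable def gf1 : Sg := ⟨cv1m, skf1, sxf1⟩
noncomputable def gf2 : Sg := ⟨cv1p, skf2, sxf2⟩
noncomputable def gf3 : Sg := ⟨cv1r, skf2, sxf2⟩
noncomputable def gl0 : Sg := ⟨cv3m, skl0, sxl0⟩
noncomputable def gl1 : Sg := ⟨cv3m, skl1, sxl1⟩
noncomputable def gl2 : Sg := ⟨cv3p, skl2, sxl2⟩
noncomputable def gl3 : Sg := ⟨cv3r, skl3, sxl3⟩
noncomputable def vv : Vt := ⟨(Cn.rt 2 25), (Cn.rt 577 500), (Cn.rt 231 200), (Cn.rt 1213 1000), k0c, m0c, sbk, sbx, rhk, rhx, bf1q2, bx1q2, (Cn.rt 9 50), (Cn.rt 577 500), skm, dt83⟩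
noncomputable def ff (q : ℕ) : Sg := match q with
  | 0 => gf0
  | 1 => gf1
  | 2 => gf2
  | _ => gf3
noncomputable def fl (q : ℕ) : Sg := match q with
  | 0 => gl0
  | 1 => gl1
  | 2 => gl2
  | _ => gl3
noncomputable def tt : STab 4 := ⟨dd, 0, 3, ff, fl, vv⟩
theorem kcl0 {p x : ℝ} (h1 : -1 / 2 ≤ p) (h2 : p ≤ -9 / 20) : kcg.v p x = (727098157 / 200000000 + (x - 83 / 100) * (5809503627 / 50000000)) + (926556683 / 50000000 + (x - 83 / 100) * (2308461653 / 5000000)) * p + (19369 / 1000 + (x - 83 / 100) * (86601 / 200)) * p ^ 2 := by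
  simp only [kcg, kcg_3, kcg_6, kcg_9, kcg_12, kcg_13, kcg_17, kcg_24, kcg_28, kcg_36, kcg_39, kcg_45, kcg_46, kcg_54, kcg_55, kcg_58, kcg_64, kcg_69, kcg_73, kcg_79, kcg_88, kcg_91, kcg_92, kcg_96, kcg_106, kcg_111, kcg_115, kcg_126, kcg_134, kcg_135, kcg_139, kcg_148, kcg_156, kcg_160, kcg_166, kcg_171, kcg_175, kcg_183, kcg_184, kcg_185, kcg_208, kcg_231, kcg_232, kcg_254]
  rcases eq_or_lt_of_le h1 with h | h1
  · subst h
    ((try push_cast); (repeat first | rw [if_pos (by linarith)] | rw [if_neg (by linarith)] | erw [if_pos (by linarith)] | erw [if_neg (by linarith)]); (try push_cast); (try ring1))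
  rcases eq_or_lt_of_le h2 with h | h2
  · subst h
    ((try push_cast); (repeat first | rw [if_pos (by linarith)] | rw [if_neg (by linarith)] | erw [if_pos (by linarith)] | erw [if_neg (by linarith)]); (try push_cast); (try ring1))
  · ((try push_cast); (repeat first | rw [if_pos (by linarith)] | rw [if_neg (by linarith)] | erw [if_pos (by linarith)] | erw [if_neg (by linarith)]); (try push_cast); (try ring1))
theorem kcl1 {p x : ℝ} (h1 : -9 / 20 ≤ p) (h2 : p ≤ -41 / 100) : kcg.v p x = (7270981561 / 2000000000 + (x - 83 / 100) * (-16843290957 / 400000000)) + (370622673 / 20000000 + (x - 83 / 100) * (-967422677 / 4000000)) * p + (19369 / 1000 + (x - 83 / 100) * (-69743 / 200)) * p ^ 2 := by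
  simp only [kcg, kcg_3, kcg_6, kcg_9, kcg_12, kcg_13, kcg_17, kcg_24, kcg_28, kcg_36, kcg_39, kcg_45, kcg_46, kcg_54, kcg_55, kcg_58, kcg_64, kcg_69, kcg_73, kcg_79, kcg_88, kcg_91, kcg_92, kcg_96, kcg_106, kcg_111, kcg_115, kcg_126, kcg_134, kcg_135, kcg_139, kcg_148, kcg_156, kcg_160, kcg_166, kcg_171, kcg_175, kcg_183, kcg_184, kcg_185, kcg_208, kcg_231, kcg_232, kcg_254]
  rcases eq_or_lt_of_le h1 with h | h1
  · subst h
    ((try push_cast); (repeat first | rw [if_pos (by linarith)] | rw [if_neg (by linarith)] | erw [if_pos (by linarith)] | erw [if_neg (by linarith)]); (try push_cast); (try ring1))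
  rcases eq_or_lt_of_le h2 with h | h2
  · subst h
    ((try push_cast); (repeat first | rw [if_pos (by linarith)] | rw [if_neg (by linarith)] | erw [if_pos (by linarith)] | erw [if_neg (by linarith)]); (try push_cast); (try ring1))
  · ((try push_cast); (repeat first | rw [if_pos (by linarith)] | rw [if_neg (by linarith)] | erw [if_pos (by linarith)] | erw [if_neg (by linarith)]); (try push_cast); (try ring1))
theorem kcl2 {p x : ℝ} (h1 : -41 / 100 ≤ p) (h2 : p ≤ -37 / 100) : kcg.v p x = (-10186219237 / 4000000000 + (x - 83 / 100) * (-8421645499 / 200000000)) + (-465007453 / 40000000 + (x - 83 / 100) * (-483711339 / 2000000)) * p + (-17407 / 1000 + (x - 83 / 100) * (-69743 / 200)) * p ^ 2 := by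
  simp only [kcg, kcg_3, kcg_6, kcg_9, kcg_12, kcg_13, kcg_17, kcg_24, kcg_28, kcg_36, kcg_39, kcg_45, kcg_46, kcg_54, kcg_55, kcg_58, kcg_64, kcg_69, kcg_73, kcg_79, kcg_88, kcg_91, kcg_92, kcg_96, kcg_106, kcg_111, kcg_115, kcg_126, kcg_134, kcg_135, kcg_139, kcg_148, kcg_156, kcg_160, kcg_166, kcg_171, kcg_175, kcg_183, kcg_184, kcg_185, kcg_208, kcg_231, kcg_232, kcg_254]
  rcases eq_or_lt_of_le h1 with h | h1
  · subst h
    ((try push_cast); (repeat first | rw [if_pos (by linarith)] | rw [if_neg (by linarith)] | erw [if_pos (by linarith)] | erw [if_neg (by linarith)]); (try push_cast); (try ring1))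
  rcases eq_or_lt_of_le h2 with h | h2
  · subst h
    ((try push_cast); (repeat first | rw [if_pos (by linarith)] | rw [if_neg (by linarith)] | erw [if_pos (by linarith)] | erw [if_neg (by linarith)]); (try push_cast); (try ring1))
  · ((try push_cast); (repeat first | rw [if_pos (by linarith)] | rw [if_neg (by linarith)] | erw [if_pos (by linarith)] | erw [if_neg (by linarith)]); (try push_cast); (try ring1))
theorem kcl3 {p x : ℝ} (h1 : -37 / 100 ≤ p) (h2 : p ≤ -517 / 1531) : kcg.v p x = (-809015151451 / 4947000000000 + (x - 83 / 100) * (-13544129772582679 / 252461900000000)) + (485421922 / 386484375 + (x - 83 / 100) * (-768074859527831 / 2524619000000)) * p + (0 + (x - 83 / 100) * (-43301 / 100)) * p ^ 2 := by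
  simp only [kcg, kcg_3, kcg_6, kcg_9, kcg_12, kcg_13, kcg_17, kcg_24, kcg_28, kcg_36, kcg_39, kcg_45, kcg_46, kcg_54, kcg_55, kcg_58, kcg_64, kcg_69, kcg_73, kcg_79, kcg_88, kcg_91, kcg_92, kcg_96, kcg_106, kcg_111, kcg_115, kcg_126, kcg_134, kcg_135, kcg_139, kcg_148, kcg_156, kcg_160, kcg_166, kcg_171, kcg_175, kcg_183, kcg_184, kcg_185, kcg_208, kcg_231, kcg_232, kcg_254]
  rcases eq_or_lt_of_le h1 with h | h1
  · subst h
    ((try push_cast); (repeat first | rw [if_pos (by linarith)] | rw [if_neg (by linarith)] | erw [if_pos (by linarith)] | erw [if_neg (by linarith)]); (try push_cast); (try ring1))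
  rcases eq_or_lt_of_le h2 with h | h2
  · subst h
    ((try push_cast); (repeat first | rw [if_pos (by linarith)] | rw [if_neg (by linarith)] | erw [if_pos (by linarith)] | erw [if_neg (by linarith)]); (try push_cast); (try ring1))
  · ((try push_cast); (repeat first | rw [if_pos (by linarith)] | rw [if_neg (by linarith)] | erw [if_pos (by linarith)] | erw [if_neg (by linarith)]); (try push_cast); (try ring1))
theorem kcl4 {p x : ℝ} (h1 : -517 / 1531 ≤ p) (h2 : p ≤ -563 / 2611) : kcg.v p x = (-179227728865129675817 / 975243688447000000000 + (x - 83 / 100) * (300725170141514834391 / 39009747537880000000)) + (553994247009019894481 / 487621844223500000000 + (x - 83 / 100) * (11539470967806603953087 / 195048737689400000000)) * p + (-71 / 400 + (x - 83 / 100) * (21011 / 200)) * p ^ 2 := by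
  simp only [kcg, kcg_3, kcg_6, kcg_9, kcg_12, kcg_13, kcg_17, kcg_24, kcg_28, kcg_36, kcg_39, kcg_45, kcg_46, kcg_54, kcg_55, kcg_58, kcg_64, kcg_69, kcg_73, kcg_79, kcg_88, kcg_91, kcg_92, kcg_96, kcg_106, kcg_111, kcg_115, kcg_126, kcg_134, kcg_135, kcg_139, kcg_148, kcg_156, kcg_160, kcg_166, kcg_171, kcg_175, kcg_183, kcg_184, kcg_185, kcg_208, kcg_231, kcg_232, kcg_254]
  rcases eq_or_lt_of_le h1 with h | h1
  · subst h
    ((try push_cast); (repeat first | rw [if_pos (by linarith)] | rw [if_neg (by linarith)] | erw [if_pos (by linarith)] | erw [if_neg (by linarith)]); (try push_cast); (try ring1))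
  rcases eq_or_lt_of_le h2 with h | h2
  · subst h
    ((try push_cast); (repeat first | rw [if_pos (by linarith)] | rw [if_neg (by linarith)] | erw [if_pos (by linarith)] | erw [if_neg (by linarith)]); (try push_cast); (try ring1))
  · ((try push_cast); (repeat first | rw [if_pos (by linarith)] | rw [if_neg (by linarith)] | erw [if_pos (by linarith)] | erw [if_neg (by linarith)]); (try push_cast); (try ring1))
theorem kcl5 {p x : ℝ} (h1 : -563 / 2611 ≤ p) (h2 : p ≤ -4 / 25) : kcg.v p x = (-13698569248213 / 338590750000000 + (x - 83 / 100) * (913620775944397 / 118506762500000)) + (133564570212987 / 54174520000000 + (x - 83 / 100) * (1121857066792997 / 18961082000000)) * p + (581 / 200 + (x - 83 / 100) * (21013 / 200)) * p ^ 2 := by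
  simp only [kcg, kcg_3, kcg_6, kcg_9, kcg_12, kcg_13, kcg_17, kcg_24, kcg_28, kcg_36, kcg_39, kcg_45, kcg_46, kcg_54, kcg_55, kcg_58, kcg_64, kcg_69, kcg_73, kcg_79, kcg_88, kcg_91, kcg_92, kcg_96, kcg_106, kcg_111, kcg_115, kcg_126, kcg_134, kcg_135, kcg_139, kcg_148, kcg_156, kcg_160, kcg_166, kcg_171, kcg_175, kcg_183, kcg_184, kcg_185, kcg_208, kcg_231, kcg_232, kcg_254]
  rcases eq_or_lt_of_le h1 with h | h1
  · subst h
    ((try push_cast); (repeat first | rw [if_pos (by linarith)] | rw [if_neg (by linarith)] | erw [if_pos (by linarith)] | erw [if_neg (by linarith)]); (try push_cast); (try ring1))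
  rcases eq_or_lt_of_le h2 with h | h2
  · subst h
    ((try push_cast); (repeat first | rw [if_pos (by linarith)] | rw [if_neg (by linarith)] | erw [if_pos (by linarith)] | erw [if_neg (by linarith)]); (try push_cast); (try ring1))
  · ((try push_cast); (repeat first | rw [if_pos (by linarith)] | rw [if_neg (by linarith)] | erw [if_pos (by linarith)] | erw [if_neg (by linarith)]); (try push_cast); (try ring1))
theorem kcl6 {p x : ℝ} (h1 : -4 / 25 ≤ p) (h2 : p ≤ -3 / 25) : kcg.v p x = (11961 / 312500 + (x - 83 / 100) * (22872 / 15625)) + (344961 / 100000 + (x - 83 / 100) * (-189041 / 10000)) * p + (11961 / 2000 + (x - 83 / 100) * (-27781 / 200)) * p ^ 2 := by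
  simp only [kcg, kcg_3, kcg_6, kcg_9, kcg_12, kcg_13, kcg_17, kcg_24, kcg_28, kcg_36, kcg_39, kcg_45, kcg_46, kcg_54, kcg_55, kcg_58, kcg_64, kcg_69, kcg_73, kcg_79, kcg_88, kcg_91, kcg_92, kcg_96, kcg_106, kcg_111, kcg_115, kcg_126, kcg_134, kcg_135, kcg_139, kcg_148, kcg_156, kcg_160, kcg_166, kcg_171, kcg_175, kcg_183, kcg_184, kcg_185, kcg_208, kcg_231, kcg_232, kcg_254]
  rcases eq_or_lt_of_le h1 with h | h1
  · subst h
    ((try push_cast); (repeat first | rw [if_pos (by linarith)] | rw [if_neg (by linarith)] | erw [if_pos (by linarith)] | erw [if_neg (by linarith)]); (try push_cast); (try ring1))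
  rcases eq_or_lt_of_le h2 with h | h2
  · subst h
    ((try push_cast); (repeat first | rw [if_pos (by linarith)] | rw [if_neg (by linarith)] | erw [if_pos (by linarith)] | erw [if_neg (by linarith)]); (try push_cast); (try ring1))
  · ((try push_cast); (repeat first | rw [if_pos (by linarith)] | rw [if_neg (by linarith)] | erw [if_pos (by linarith)] | erw [if_neg (by linarith)]); (try push_cast); (try ring1))
theorem kcl7 {p x : ℝ} (h1 : -3 / 25 ≤ p) (h2 : p ≤ -2 / 25) : kcg.v p x = (11961 / 312500 + (x - 83 / 100) * (-86601 / 31250)) + (344961 / 100000 + (x - 83 / 100) * (-894881 / 10000)) * p + (11961 / 2000 + (x - 83 / 100) * (-86601 / 200)) * p ^ 2 := by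
  simp only [kcg, kcg_3, kcg_6, kcg_9, kcg_12, kcg_13, kcg_17, kcg_24, kcg_28, kcg_36, kcg_39, kcg_45, kcg_46, kcg_54, kcg_55, kcg_58, kcg_64, kcg_69, kcg_73, kcg_79, kcg_88, kcg_91, kcg_92, kcg_96, kcg_106, kcg_111, kcg_115, kcg_126, kcg_134, kcg_135, kcg_139, kcg_148, kcg_156, kcg_160, kcg_166, kcg_171, kcg_175, kcg_183, kcg_184, kcg_185, kcg_208, kcg_231, kcg_232, kcg_254]
  rcases eq_or_lt_of_le h1 with h | h1
  · subst h
    ((try push_cast); (repeat first | rw [if_pos (by linarith)] | rw [if_neg (by linarith)] | erw [if_pos (by linarith)] | erw [if_neg (by linarith)]); (try push_cast); (try ring1))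
  rcases eq_or_lt_of_le h2 with h | h2
  · subst h
    ((try push_cast); (repeat first | rw [if_pos (by linarith)] | rw [if_neg (by linarith)] | erw [if_pos (by linarith)] | erw [if_neg (by linarith)]); (try push_cast); (try ring1))
  · ((try push_cast); (repeat first | rw [if_pos (by linarith)] | rw [if_neg (by linarith)] | erw [if_pos (by linarith)] | erw [if_neg (by linarith)]); (try push_cast); (try ring1))
theorem kcl8 {p x : ℝ} (h1 : -2 / 25 ≤ p) (h2 : p ≤ 2 / 25) : kcg.v p x = (0) + (249273 / 100000 + (x - 83 / 100) * (-202073 / 10000)) * p := by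
  simp only [kcg, kcg_3, kcg_6, kcg_9, kcg_12, kcg_13, kcg_17, kcg_24, kcg_28, kcg_36, kcg_39, kcg_45, kcg_46, kcg_54, kcg_55, kcg_58, kcg_64, kcg_69, kcg_73, kcg_79, kcg_88, kcg_91, kcg_92, kcg_96, kcg_106, kcg_111, kcg_115, kcg_126, kcg_134, kcg_135, kcg_139, kcg_148, kcg_156, kcg_160, kcg_166, kcg_171, kcg_175, kcg_183, kcg_184, kcg_185, kcg_208, kcg_231, kcg_232, kcg_254]
  rcases eq_or_lt_of_le h1 with h | h1
  · subst h
    ((try push_cast); (repeat first | rw [if_pos (by linarith)] | rw [if_neg (by linarith)] | erw [if_pos (by linarith)] | erw [if_neg (by linarith)]); (try push_cast); (try ring1))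
  rcases eq_or_lt_of_le h2 with h | h2
  · subst h
    ((try push_cast); (repeat first | rw [if_pos (by linarith)] | rw [if_neg (by linarith)] | erw [if_pos (by linarith)] | erw [if_neg (by linarith)]); (try push_cast); (try ring1))
  rcases lt_trichotomy p 0 with h | h | h
  · ((try push_cast); (repeat first | rw [if_pos (by linarith)] | rw [if_neg (by linarith)] | erw [if_pos (by linarith)] | erw [if_neg (by linarith)]); (try push_cast); (try ring1))
  · subst h
    ((try push_cast); (repeat first | rw [if_pos (by linarith)] | rw [if_neg (by linarith)] | erw [if_pos (by linarith)] | erw [if_neg (by linarith)]); (try push_cast); (try ring1))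
  · ((try push_cast); (repeat first | rw [if_pos (by linarith)] | rw [if_neg (by linarith)] | erw [if_pos (by linarith)] | erw [if_neg (by linarith)]); (try push_cast); (try ring1))
theorem kcl9 {p x : ℝ} (h1 : 2 / 25 ≤ p) (h2 : p ≤ 3 / 25) : kcg.v p x = (-11961 / 312500 + (x - 83 / 100) * (86601 / 31250)) + (344961 / 100000 + (x - 83 / 100) * (-894881 / 10000)) * p + (-11961 / 2000 + (x - 83 / 100) * (86601 / 200)) * p ^ 2 := by
  simp only [kcg, kcg_3, kcg_6, kcg_9, kcg_12, kcg_13, kcg_17, kcg_24, kcg_28, kcg_36, kcg_39, kcg_45, kcg_46, kcg_54, kcg_55, kcg_58, kcg_64, kcg_69, kcg_73, kcg_79, kcg_88, kcg_91, kcg_92, kcg_96, kcg_106, kcg_111, kcg_115, kcg_126, kcg_134, kcg_135, kcg_139, kcg_148, kcg_156, kcg_160, kcg_166, kcg_171, kcg_175, kcg_183, kcg_184, kcg_185, kcg_208, kcg_231, kcg_232, kcg_254]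
  rcases eq_or_lt_of_le h1 with h | h1
  · subst h
    ((try push_cast); (repeat first | rw [if_pos (by linarith)] | rw [if_neg (by linarith)] | erw [if_pos (by linarith)] | erw [if_neg (by linarith)]); (try push_cast); (try ring1))
  rcases eq_or_lt_of_le h2 with h | h2
  · subst h
    ((try push_cast); (repeat first | rw [if_pos (by linarith)] | rw [if_neg (by linarith)] | erw [if_pos (by linarith)] | erw [if_neg (by linarith)]); (try push_cast); (try ring1))
  · ((try push_cast); (repeat first | rw [if_pos (by linarith)] | rw [if_neg (by linarith)] | erw [if_pos (by linarith)] | erw [if_neg (by linarith)]); (try push_cast); (try ring1))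
theorem kcl10 {p x : ℝ} (h1 : 3 / 25 ≤ p) (h2 : p ≤ 4 / 25) : kcg.v p x = (-11961 / 312500 + (x - 83 / 100) * (-22872 / 15625)) + (344961 / 100000 + (x - 83 / 100) * (-189041 / 10000)) * p + (-11961 / 2000 + (x - 83 / 100) * (27781 / 200)) * p ^ 2 := by
  simp only [kcg, kcg_3, kcg_6, kcg_9, kcg_12, kcg_13, kcg_17, kcg_24, kcg_28, kcg_36, kcg_39, kcg_45, kcg_46, kcg_54, kcg_55, kcg_58, kcg_64, kcg_69, kcg_73, kcg_79, kcg_88, kcg_91, kcg_92, kcg_96, kcg_106, kcg_111, kcg_115, kcg_126, kcg_134, kcg_135, kcg_139, kcg_148, kcg_156, kcg_160, kcg_166, kcg_171, kcg_175, kcg_183, kcg_184, kcg_185, kcg_208, kcg_231, kcg_232, kcg_254]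
  rcases eq_or_lt_of_le h1 with h | h1
  · subst h
    ((try push_cast); (repeat first | rw [if_pos (by linarith)] | rw [if_neg (by linarith)] | erw [if_pos (by linarith)] | erw [if_neg (by linarith)]); (try push_cast); (try ring1))
  rcases eq_or_lt_of_le h2 with h | h2
  · subst h
    ((try push_cast); (repeat first | rw [if_pos (by linarith)] | rw [if_neg (by linarith)] | erw [if_pos (by linarith)] | erw [if_neg (by linarith)]); (try push_cast); (try ring1))
  · ((try push_cast); (repeat first | rw [if_pos (by linarith)] | rw [if_neg (by linarith)] | erw [if_pos (by linarith)] | erw [if_neg (by linarith)]); (try push_cast); (try ring1))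
theorem kcl11 {p x : ℝ} (h1 : 4 / 25 ≤ p) (h2 : p ≤ 563 / 2611) : kcg.v p x = (13698569248213 / 338590750000000 + (x - 83 / 100) * (-913620775944397 / 118506762500000)) + (133564570212987 / 54174520000000 + (x - 83 / 100) * (1121857066792997 / 18961082000000)) * p + (-581 / 200 + (x - 83 / 100) * (-21013 / 200)) * p ^ 2 := by
  simp only [kcg, kcg_3, kcg_6, kcg_9, kcg_12, kcg_13, kcg_17, kcg_24, kcg_28, kcg_36, kcg_39, kcg_45, kcg_46, kcg_54, kcg_55, kcg_58, kcg_64, kcg_69, kcg_73, kcg_79, kcg_88, kcg_91, kcg_92, kcg_96, kcg_106, kcg_111, kcg_115, kcg_126, kcg_134, kcg_135, kcg_139, kcg_148, kcg_156, kcg_160, kcg_166, kcg_171, kcg_175, kcg_183, kcg_184, kcg_185, kcg_208, kcg_231, kcg_232, kcg_254]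
  rcases eq_or_lt_of_le h1 with h | h1
  · subst h
    ((try push_cast); (repeat first | rw [if_pos (by linarith)] | rw [if_neg (by linarith)] | erw [if_pos (by linarith)] | erw [if_neg (by linarith)]); (try push_cast); (try ring1))
  rcases eq_or_lt_of_le h2 with h | h2
  · subst h
    ((try push_cast); (repeat first | rw [if_pos (by linarith)] | rw [if_neg (by linarith)] | erw [if_pos (by linarith)] | erw [if_neg (by linarith)]); (try push_cast); (try ring1))
  · ((try push_cast); (repeat first | rw [if_pos (by linarith)] | rw [if_neg (by linarith)] | erw [if_pos (by linarith)] | erw [if_neg (by linarith)]); (try push_cast); (try ring1))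
theorem kcl12 {p x : ℝ} (h1 : 563 / 2611 ≤ p) (h2 : p ≤ 517 / 1531) : kcg.v p x = (179227728865129675817 / 975243688447000000000 + (x - 83 / 100) * (-300725170141514834391 / 39009747537880000000)) + (553994247009019894481 / 487621844223500000000 + (x - 83 / 100) * (11539470967806603953087 / 195048737689400000000)) * p + (71 / 400 + (x - 83 / 100) * (-21011 / 200)) * p ^ 2 := by
  simp only [kcg, kcg_3, kcg_6, kcg_9, kcg_12, kcg_13, kcg_17, kcg_24, kcg_28, kcg_36, kcg_39, kcg_45, kcg_46, kcg_54, kcg_55, kcg_58, kcg_64, kcg_69, kcg_73, kcg_79, kcg_88, kcg_91, kcg_92, kcg_96, kcg_106, kcg_111, kcg_115, kcg_126, kcg_134, kcg_135, kcg_139, kcg_148, kcg_156, kcg_160, kcg_166, kcg_171, kcg_175, kcg_183, kcg_184, kcg_185, kcg_208, kcg_231, kcg_232, kcg_254]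
  rcases eq_or_lt_of_le h1 with h | h1
  · subst h
    ((try push_cast); (repeat first | rw [if_pos (by linarith)] | rw [if_neg (by linarith)] | erw [if_pos (by linarith)] | erw [if_neg (by linarith)]); (try push_cast); (try ring1))
  rcases eq_or_lt_of_le h2 with h | h2
  · subst h
    ((try push_cast); (repeat first | rw [if_pos (by linarith)] | rw [if_neg (by linarith)] | erw [if_pos (by linarith)] | erw [if_neg (by linarith)]); (try push_cast); (try ring1))
  · ((try push_cast); (repeat first | rw [if_pos (by linarith)] | rw [if_neg (by linarith)] | erw [if_pos (by linarith)] | erw [if_neg (by linarith)]); (try push_cast); (try ring1))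
theorem kcl13 {p x : ℝ} (h1 : 517 / 1531 ≤ p) (h2 : p ≤ 37 / 100) : kcg.v p x = (809015151451 / 4947000000000 + (x - 83 / 100) * (13544129772582679 / 252461900000000)) + (485421922 / 386484375 + (x - 83 / 100) * (-768074859527831 / 2524619000000)) * p + (0 + (x - 83 / 100) * (43301 / 100)) * p ^ 2 := by
  simp only [kcg, kcg_3, kcg_6, kcg_9, kcg_12, kcg_13, kcg_17, kcg_24, kcg_28, kcg_36, kcg_39, kcg_45, kcg_46, kcg_54, kcg_55, kcg_58, kcg_64, kcg_69, kcg_73, kcg_79, kcg_88, kcg_91, kcg_92, kcg_96, kcg_106, kcg_111, kcg_115, kcg_126, kcg_134, kcg_135, kcg_139, kcg_148, kcg_156, kcg_160, kcg_166, kcg_171, kcg_175, kcg_183, kcg_184, kcg_185, kcg_208, kcg_231, kcg_232, kcg_254]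
  rcases eq_or_lt_of_le h1 with h | h1
  · subst h
    ((try push_cast); (repeat first | rw [if_pos (by linarith)] | rw [if_neg (by linarith)] | erw [if_pos (by linarith)] | erw [if_neg (by linarith)]); (try push_cast); (try ring1))
  rcases eq_or_lt_of_le h2 with h | h2
  · subst h
    ((try push_cast); (repeat first | rw [if_pos (by linarith)] | rw [if_neg (by linarith)] | erw [if_pos (by linarith)] | erw [if_neg (by linarith)]); (try push_cast); (try ring1))
  · ((try push_cast); (repeat first | rw [if_pos (by linarith)] | rw [if_neg (by linarith)] | erw [if_pos (by linarith)] | erw [if_neg (by linarith)]); (try push_cast); (try ring1))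
theorem kcl14 {p x : ℝ} (h1 : 37 / 100 ≤ p) (h2 : p ≤ 41 / 100) : kcg.v p x = (10186219237 / 4000000000 + (x - 83 / 100) * (8421645499 / 200000000)) + (-465007453 / 40000000 + (x - 83 / 100) * (-483711339 / 2000000)) * p + (17407 / 1000 + (x - 83 / 100) * (69743 / 200)) * p ^ 2 := by
  simp only [kcg, kcg_3, kcg_6, kcg_9, kcg_12, kcg_13, kcg_17, kcg_24, kcg_28, kcg_36, kcg_39, kcg_45, kcg_46, kcg_54, kcg_55, kcg_58, kcg_64, kcg_69, kcg_73, kcg_79, kcg_88, kcg_91, kcg_92, kcg_96, kcg_106, kcg_111, kcg_115, kcg_126, kcg_134, kcg_135, kcg_139, kcg_148, kcg_156, kcg_160, kcg_166, kcg_171, kcg_175, kcg_183, kcg_184, kcg_185, kcg_208, kcg_231, kcg_232, kcg_254]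
  rcases eq_or_lt_of_le h1 with h | h1
  · subst h
    ((try push_cast); (repeat first | rw [if_pos (by linarith)] | rw [if_neg (by linarith)] | erw [if_pos (by linarith)] | erw [if_neg (by linarith)]); (try push_cast); (try ring1))
  rcases eq_or_lt_of_le h2 with h | h2
  · subst h
    ((try push_cast); (repeat first | rw [if_pos (by linarith)] | rw [if_neg (by linarith)] | erw [if_pos (by linarith)] | erw [if_neg (by linarith)]); (try push_cast); (try ring1))
  · ((try push_cast); (repeat first | rw [if_pos (by linarith)] | rw [if_neg (by linarith)] | erw [if_pos (by linarith)] | erw [if_neg (by linarith)]); (try push_cast); (try ring1))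
theorem kcl15 {p x : ℝ} (h1 : 41 / 100 ≤ p) (h2 : p ≤ 9 / 20) : kcg.v p x = (-7270981561 / 2000000000 + (x - 83 / 100) * (16843290957 / 400000000)) + (370622673 / 20000000 + (x - 83 / 100) * (-967422677 / 4000000)) * p + (-19369 / 1000 + (x - 83 / 100) * (69743 / 200)) * p ^ 2 := by
  simp only [kcg, kcg_3, kcg_6, kcg_9, kcg_12, kcg_13, kcg_17, kcg_24, kcg_28, kcg_36, kcg_39, kcg_45, kcg_46, kcg_54, kcg_55, kcg_58, kcg_64, kcg_69, kcg_73, kcg_79, kcg_88, kcg_91, kcg_92, kcg_96, kcg_106, kcg_111, kcg_115, kcg_126, kcg_134, kcg_135, kcg_139, kcg_148, kcg_156, kcg_160, kcg_166, kcg_171, kcg_175, kcg_183, kcg_184, kcg_185, kcg_208, kcg_231, kcg_232, kcg_254]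
  rcases eq_or_lt_of_le h1 with h | h1
  · subst h
    ((try push_cast); (repeat first | rw [if_pos (by linarith)] | rw [if_neg (by linarith)] | erw [if_pos (by linarith)] | erw [if_neg (by linarith)]); (try push_cast); (try ring1))
  rcases eq_or_lt_of_le h2 with h | h2
  · subst h
    ((try push_cast); (repeat first | rw [if_pos (by linarith)] | rw [if_neg (by linarith)] | erw [if_pos (by linarith)] | erw [if_neg (by linarith)]); (try push_cast); (try ring1))
  · ((try push_cast); (repeat first | rw [if_pos (by linarith)] | rw [if_neg (by linarith)] | erw [if_pos (by linarith)] | erw [if_neg (by linarith)]); (try push_cast); (try ring1))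
theorem kcl16 {p x : ℝ} (h1 : 9 / 20 ≤ p) (h2 : p ≤ 1 / 2) : kcg.v p x = (-727098157 / 200000000 + (x - 83 / 100) * (-5809503627 / 50000000)) + (926556683 / 50000000 + (x - 83 / 100) * (2308461653 / 5000000)) * p + (-19369 / 1000 + (x - 83 / 100) * (-86601 / 200)) * p ^ 2 := by
  simp only [kcg, kcg_3, kcg_6, kcg_9, kcg_12, kcg_13, kcg_17, kcg_24, kcg_28, kcg_36, kcg_39, kcg_45, kcg_46, kcg_54, kcg_55, kcg_58, kcg_64, kcg_69, kcg_73, kcg_79, kcg_88, kcg_91, kcg_92, kcg_96, kcg_106, kcg_111, kcg_115, kcg_126, kcg_134, kcg_135, kcg_139, kcg_148, kcg_156, kcg_160, kcg_166, kcg_171, kcg_175, kcg_183, kcg_184, kcg_185, kcg_208, kcg_231, kcg_232, kcg_254]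
  rcases eq_or_lt_of_le h1 with h | h1
  · subst h
    ((try push_cast); (repeat first | rw [if_pos (by linarith)] | rw [if_neg (by linarith)] | erw [if_pos (by linarith)] | erw [if_neg (by linarith)]); (try push_cast); (try ring1))
  rcases eq_or_lt_of_le h2 with h | h2
  · subst h
    ((try push_cast); (repeat first | rw [if_pos (by linarith)] | rw [if_neg (by linarith)] | erw [if_pos (by linarith)] | erw [if_neg (by linarith)]); (try push_cast); (try ring1))
  · ((try push_cast); (repeat first | rw [if_pos (by linarith)] | rw [if_neg (by linarith)] | erw [if_pos (by linarith)] | erw [if_neg (by linarith)]); (try push_cast); (try ring1))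
theorem kvh0 {p x : ℝ} (h2 : p ≤ -9 / 20) : dt33.kv p x = (727098157 / 200000000 + (x - 83 / 100) * (5809503627 / 50000000)) + (926556683 / 50000000 + (x - 83 / 100) * (2308461653 / 5000000)) * p + (19369 / 1000 + (x - 83 / 100) * (86601 / 200)) * p ^ 2 := by
  refine (DT.kv_le (by simp only [Cn.rt_v, Cn.ng_v]; push_cast; linarith)).trans ?_
  refine (DT.kv_le (by simp only [Cn.rt_v, Cn.ng_v]; push_cast; linarith)).trans ?_
  refine (DT.kv_le (by simp only [Cn.rt_v, Cn.ng_v]; push_cast; linarith)).trans ?_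
  refine (DT.kv_le (by simp only [Cn.rt_v, Cn.ng_v]; push_cast; linarith)).trans ?_
  simp only [dt1, DT.kv, sw1, sl1, sv1]
  ((try push_cast); ring1)
theorem kvh1 {p x : ℝ} (h1 : -9 / 20 < p) (h2 : p ≤ -41 / 100) : dt33.kv p x = (7270981561 / 2000000000 + (x - 83 / 100) * (-16843290957 / 400000000)) + (370622673 / 20000000 + (x - 83 / 100) * (-967422677 / 4000000)) * p + (19369 / 1000 + (x - 83 / 100) * (-69743 / 200)) * p ^ 2 := by
  refine (DT.kv_le (by simp only [Cn.rt_v, Cn.ng_v]; push_cast; linarith)).trans ?_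
  refine (DT.kv_le (by simp only [Cn.rt_v, Cn.ng_v]; push_cast; linarith)).trans ?_
  refine (DT.kv_le (by simp only [Cn.rt_v, Cn.ng_v]; push_cast; linarith)).trans ?_
  refine (DT.kv_gt (by simp only [Cn.rt_v, Cn.ng_v]; push_cast; linarith)).trans ?_
  simp only [dt2, DT.kv, sw2, sl2, sv2]
  ((try push_cast); ring1)
theorem kvh2 {p x : ℝ} (h1 : -41 / 100 < p) (h2 : p ≤ -37 / 100) : dt33.kv p x = (-10186219237 / 4000000000 + (x - 83 / 100) * (-8421645499 / 200000000)) + (-465007453 / 40000000 + (x - 83 / 100) * (-483711339 / 2000000)) * p + (-17407 / 1000 + (x - 83 / 100) * (-69743 / 200)) * p ^ 2 := by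
  refine (DT.kv_le (by simp only [Cn.rt_v, Cn.ng_v]; push_cast; linarith)).trans ?_
  refine (DT.kv_le (by simp only [Cn.rt_v, Cn.ng_v]; push_cast; linarith)).trans ?_
  refine (DT.kv_gt (by simp only [Cn.rt_v, Cn.ng_v]; push_cast; linarith)).trans ?_
  refine (DT.kv_le (by simp only [Cn.rt_v, Cn.ng_v]; push_cast; linarith)).trans ?_
  simp only [dt3, DT.kv, sw3, sl3, sv3]
  ((try push_cast); ring1)
theorem kvh3 {p x : ℝ} (h1 : -37 / 100 < p) (h2 : p ≤ -517 / 1531) : dt33.kv p x = (-809015151451 / 4947000000000 + (x - 83 / 100) * (-13544129772582679 / 252461900000000)) + (485421922 / 386484375 + (x - 83 / 100) * (-768074859527831 / 2524619000000)) * p + (0 + (x - 83 / 100) * (-43301 / 100)) * p ^ 2 := by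
  refine (DT.kv_le (by simp only [Cn.rt_v, Cn.ng_v]; push_cast; linarith)).trans ?_
  refine (DT.kv_le (by simp only [Cn.rt_v, Cn.ng_v]; push_cast; linarith)).trans ?_
  refine (DT.kv_gt (by simp only [Cn.rt_v, Cn.ng_v]; push_cast; linarith)).trans ?_
  refine (DT.kv_gt (by simp only [Cn.rt_v, Cn.ng_v]; push_cast; linarith)).trans ?_
  simp only [dt4, DT.kv, sw4, sl4, sv4]
  ((try push_cast); ring1)
theorem kvh4 {p x : ℝ} (h1 : -517 / 1531 < p) (h2 : p ≤ -563 / 2611) : dt33.kv p x = (-179227728865129675817 / 975243688447000000000 + (x - 83 / 100) * (300725170141514834391 / 39009747537880000000)) + (553994247009019894481 / 487621844223500000000 + (x - 83 / 100) * (11539470967806603953087 / 195048737689400000000)) * p + (-71 / 400 + (x - 83 / 100) * (21011 / 200)) * p ^ 2 := by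
  refine (DT.kv_le (by simp only [Cn.rt_v, Cn.ng_v]; push_cast; linarith)).trans ?_
  refine (DT.kv_gt (by simp only [Cn.rt_v, Cn.ng_v]; push_cast; linarith)).trans ?_
  refine (DT.kv_le (by simp only [Cn.rt_v, Cn.ng_v]; push_cast; linarith)).trans ?_
  refine (DT.kv_le (by simp only [Cn.rt_v, Cn.ng_v]; push_cast; linarith)).trans ?_
  simp only [dt5, DT.kv, sw5, sl5, sv5]
  ((try push_cast); ring1)
theorem kvh5 {p x : ℝ} (h1 : -563 / 2611 < p) (h2 : p ≤ -4 / 25) : dt33.kv p x = (-13698569248213 / 338590750000000 + (x - 83 / 100) * (913620775944397 / 118506762500000)) + (133564570212987 / 54174520000000 + (x - 83 / 100) * (1121857066792997 / 18961082000000)) * p + (581 / 200 + (x - 83 / 100) * (21013 / 200)) * p ^ 2 := by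
  refine (DT.kv_le (by simp only [Cn.rt_v, Cn.ng_v]; push_cast; linarith)).trans ?_
  refine (DT.kv_gt (by simp only [Cn.rt_v, Cn.ng_v]; push_cast; linarith)).trans ?_
  refine (DT.kv_le (by simp only [Cn.rt_v, Cn.ng_v]; push_cast; linarith)).trans ?_
  refine (DT.kv_gt (by simp only [Cn.rt_v, Cn.ng_v]; push_cast; linarith)).trans ?_
  simp only [dt6, DT.kv, sw6, sl6, sv6]
  ((try push_cast); ring1)
theorem kvh6 {p x : ℝ} (h1 : -4 / 25 < p) (h2 : p ≤ -3 / 25) : dt33.kv p x = (11961 / 312500 + (x - 83 / 100) * (22872 / 15625)) + (344961 / 100000 + (x - 83 / 100) * (-189041 / 10000)) * p + (11961 / 2000 + (x - 83 / 100) * (-27781 / 200)) * p ^ 2 := by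
  refine (DT.kv_le (by simp only [Cn.rt_v, Cn.ng_v]; push_cast; linarith)).trans ?_
  refine (DT.kv_gt (by simp only [Cn.rt_v, Cn.ng_v]; push_cast; linarith)).trans ?_
  refine (DT.kv_gt (by simp only [Cn.rt_v, Cn.ng_v]; push_cast; linarith)).trans ?_
  refine (DT.kv_le (by simp only [Cn.rt_v, Cn.ng_v]; push_cast; linarith)).trans ?_
  simp only [dt7, DT.kv, sw7, sl7, sv7]
  ((try push_cast); ring1)
theorem kvh7 {p x : ℝ} (h1 : -3 / 25 < p) (h2 : p ≤ -2 / 25) : dt33.kv p x = (11961 / 312500 + (x - 83 / 100) * (-86601 / 31250)) + (344961 / 100000 + (x - 83 / 100) * (-894881 / 10000)) * p + (11961 / 2000 + (x - 83 / 100) * (-86601 / 200)) * p ^ 2 := by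
  refine (DT.kv_le (by simp only [Cn.rt_v, Cn.ng_v]; push_cast; linarith)).trans ?_
  refine (DT.kv_gt (by simp only [Cn.rt_v, Cn.ng_v]; push_cast; linarith)).trans ?_
  refine (DT.kv_gt (by simp only [Cn.rt_v, Cn.ng_v]; push_cast; linarith)).trans ?_
  refine (DT.kv_gt (by simp only [Cn.rt_v, Cn.ng_v]; push_cast; linarith)).trans ?_
  simp only [dt8, DT.kv, sw8, sl8, sv8]
  ((try push_cast); ring1)
theorem kvh8 {p x : ℝ} (h1 : -2 / 25 < p) (h2 : p ≤ 2 / 25) : dt33.kv p x = (0) + (249273 / 100000 + (x - 83 / 100) * (-202073 / 10000)) * p := by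
  refine (DT.kv_gt (by simp only [Cn.rt_v, Cn.ng_v]; push_cast; linarith)).trans ?_
  refine (DT.kv_le (by simp only [Cn.rt_v, Cn.ng_v]; push_cast; linarith)).trans ?_
  refine (DT.kv_le (by simp only [Cn.rt_v, Cn.ng_v]; push_cast; linarith)).trans ?_
  refine (DT.kv_le (by simp only [Cn.rt_v, Cn.ng_v]; push_cast; linarith)).trans ?_
  simp only [dt9, DT.kv, sl9, sv9]
  ((try push_cast); ring1)
theorem kvh9 {p x : ℝ} (h1 : 2 / 25 < p) (h2 : p ≤ 3 / 25) : dt33.kv p x = (-11961 / 312500 + (x - 83 / 100) * (86601 / 31250)) + (344961 / 100000 + (x - 83 / 100) * (-894881 / 10000)) * p + (-11961 / 2000 + (x - 83 / 100) * (86601 / 200)) * p ^ 2 := by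
  refine (DT.kv_gt (by simp only [Cn.rt_v, Cn.ng_v]; push_cast; linarith)).trans ?_
  refine (DT.kv_le (by simp only [Cn.rt_v, Cn.ng_v]; push_cast; linarith)).trans ?_
  refine (DT.kv_le (by simp only [Cn.rt_v, Cn.ng_v]; push_cast; linarith)).trans ?_
  refine (DT.kv_gt (by simp only [Cn.rt_v, Cn.ng_v]; push_cast; linarith)).trans ?_
  simp only [dt10, DT.kv, sw10, sl10, sv10]
  ((try push_cast); ring1)
theorem kvh10 {p x : ℝ} (h1 : 3 / 25 < p) (h2 : p ≤ 4 / 25) : dt33.kv p x = (-11961 / 312500 + (x - 83 / 100) * (-22872 / 15625)) + (344961 / 100000 + (x - 83 / 100) * (-189041 / 10000)) * p + (-11961 / 2000 + (x - 83 / 100) * (27781 / 200)) * p ^ 2 := by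
  refine (DT.kv_gt (by simp only [Cn.rt_v, Cn.ng_v]; push_cast; linarith)).trans ?_
  refine (DT.kv_le (by simp only [Cn.rt_v, Cn.ng_v]; push_cast; linarith)).trans ?_
  refine (DT.kv_gt (by simp only [Cn.rt_v, Cn.ng_v]; push_cast; linarith)).trans ?_
  refine (DT.kv_le (by simp only [Cn.rt_v, Cn.ng_v]; push_cast; linarith)).trans ?_
  simp only [dt11, DT.kv, sw11, sl11, sv11]
  ((try push_cast); ring1)
theorem kvh11 {p x : ℝ} (h1 : 4 / 25 < p) (h2 : p ≤ 563 / 2611) : dt33.kv p x = (13698569248213 / 338590750000000 + (x - 83 / 100) * (-913620775944397 / 118506762500000)) + (133564570212987 / 54174520000000 + (x - 83 / 100) * (1121857066792997 / 18961082000000)) * p + (-581 / 200 + (x - 83 / 100) * (-21013 / 200)) * p ^ 2 := by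
  refine (DT.kv_gt (by simp only [Cn.rt_v, Cn.ng_v]; push_cast; linarith)).trans ?_
  refine (DT.kv_le (by simp only [Cn.rt_v, Cn.ng_v]; push_cast; linarith)).trans ?_
  refine (DT.kv_gt (by simp only [Cn.rt_v, Cn.ng_v]; push_cast; linarith)).trans ?_
  refine (DT.kv_gt (by simp only [Cn.rt_v, Cn.ng_v]; push_cast; linarith)).trans ?_
  simp only [dt12, DT.kv, sw12, sl12, sv12]
  ((try push_cast); ring1)
theorem kvh12 {p x : ℝ} (h1 : 563 / 2611 < p) (h2 : p ≤ 517 / 1531) : dt33.kv p x = (179227728865129675817 / 975243688447000000000 + (x - 83 / 100) * (-300725170141514834391 / 39009747537880000000)) + (553994247009019894481 / 487621844223500000000 + (x - 83 / 100) * (11539470967806603953087 / 195048737689400000000)) * p + (71 / 400 + (x - 83 / 100) * (-21011 / 200)) * p ^ 2 := by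
  refine (DT.kv_gt (by simp only [Cn.rt_v, Cn.ng_v]; push_cast; linarith)).trans ?_
  refine (DT.kv_gt (by simp only [Cn.rt_v, Cn.ng_v]; push_cast; linarith)).trans ?_
  refine (DT.kv_le (by simp only [Cn.rt_v, Cn.ng_v]; push_cast; linarith)).trans ?_
  refine (DT.kv_le (by simp only [Cn.rt_v, Cn.ng_v]; push_cast; linarith)).trans ?_
  simp only [dt13, DT.kv, sw13, sl13, sv13]
  ((try push_cast); ring1)
theorem kvh13 {p x : ℝ} (h1 : 517 / 1531 < p) (h2 : p ≤ 37 / 100) : dt33.kv p x = (809015151451 / 4947000000000 + (x - 83 / 100) * (13544129772582679 / 252461900000000)) + (485421922 / 386484375 + (x - 83 / 100) * (-768074859527831 / 2524619000000)) * p + (0 + (x - 83 / 100) * (43301 / 100)) * p ^ 2 := by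
  refine (DT.kv_gt (by simp only [Cn.rt_v, Cn.ng_v]; push_cast; linarith)).trans ?_
  refine (DT.kv_gt (by simp only [Cn.rt_v, Cn.ng_v]; push_cast; linarith)).trans ?_
  refine (DT.kv_le (by simp only [Cn.rt_v, Cn.ng_v]; push_cast; linarith)).trans ?_
  refine (DT.kv_gt (by simp only [Cn.rt_v, Cn.ng_v]; push_cast; linarith)).trans ?_
  simp only [dt14, DT.kv, sw14, sl14, sv14]
  ((try push_cast); ring1)
theorem kvh14 {p x : ℝ} (h1 : 37 / 100 < p) (h2 : p ≤ 41 / 100) : dt33.kv p x = (10186219237 / 4000000000 + (x - 83 / 100) * (8421645499 / 200000000)) + (-465007453 / 40000000 + (x - 83 / 100) * (-483711339 / 2000000)) * p + (17407 / 1000 + (x - 83 / 100) * (69743 / 200)) * p ^ 2 := by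
  refine (DT.kv_gt (by simp only [Cn.rt_v, Cn.ng_v]; push_cast; linarith)).trans ?_
  refine (DT.kv_gt (by simp only [Cn.rt_v, Cn.ng_v]; push_cast; linarith)).trans ?_
  refine (DT.kv_gt (by simp only [Cn.rt_v, Cn.ng_v]; push_cast; linarith)).trans ?_
  refine (DT.kv_le (by simp only [Cn.rt_v, Cn.ng_v]; push_cast; linarith)).trans ?_
  simp only [dt15, DT.kv, sw15, sl15, sv15]
  ((try push_cast); ring1)
theorem kvh15 {p x : ℝ} (h1 : 41 / 100 < p) (h2 : p ≤ 9 / 20) : dt33.kv p x = (-7270981561 / 2000000000 + (x - 83 / 100) * (16843290957 / 400000000)) + (370622673 / 20000000 + (x - 83 / 100) * (-967422677 / 4000000)) * p + (-19369 / 1000 + (x - 83 / 100) * (69743 / 200)) * p ^ 2 := by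
  refine (DT.kv_gt (by simp only [Cn.rt_v, Cn.ng_v]; push_cast; linarith)).trans ?_
  refine (DT.kv_gt (by simp only [Cn.rt_v, Cn.ng_v]; push_cast; linarith)).trans ?_
  refine (DT.kv_gt (by simp only [Cn.rt_v, Cn.ng_v]; push_cast; linarith)).trans ?_
  refine (DT.kv_gt (by simp only [Cn.rt_v, Cn.ng_v]; push_cast; linarith)).trans ?_
  refine (DT.kv_le (by simp only [Cn.rt_v, Cn.ng_v]; push_cast; linarith)).trans ?_
  simp only [dt16, DT.kv, sw16, sl16, sv16]
  ((try push_cast); ring1)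
theorem kvh16 {p x : ℝ} (h1 : 9 / 20 < p) (h2 : p ≤ 1 / 2) : dt33.kv p x = (-727098157 / 200000000 + (x - 83 / 100) * (-5809503627 / 50000000)) + (926556683 / 50000000 + (x - 83 / 100) * (2308461653 / 5000000)) * p + (-19369 / 1000 + (x - 83 / 100) * (-86601 / 200)) * p ^ 2 := by
  refine (DT.kv_gt (by simp only [Cn.rt_v, Cn.ng_v]; push_cast; linarith)).trans ?_
  refine (DT.kv_gt (by simp only [Cn.rt_v, Cn.ng_v]; push_cast; linarith)).trans ?_
  refine (DT.kv_gt (by simp only [Cn.rt_v, Cn.ng_v]; push_cast; linarith)).trans ?_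
  refine (DT.kv_gt (by simp only [Cn.rt_v, Cn.ng_v]; push_cast; linarith)).trans ?_
  refine (DT.kv_gt (by simp only [Cn.rt_v, Cn.ng_v]; push_cast; linarith)).trans ?_
  simp only [dt17, DT.kv, sw17, sl17, sv17]
  ((try push_cast); ring1)
theorem kvl0 {p x : ℝ} (h1 : -1 / 2 ≤ p) (h2 : p ≤ -9 / 20) : dt33.kv p x = (727098157 / 200000000 + (x - 83 / 100) * (5809503627 / 50000000)) + (926556683 / 50000000 + (x - 83 / 100) * (2308461653 / 5000000)) * p + (19369 / 1000 + (x - 83 / 100) * (86601 / 200)) * p ^ 2 := by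
  exact kvh0 h2
theorem kvl1 {p x : ℝ} (h1 : -9 / 20 ≤ p) (h2 : p ≤ -41 / 100) : dt33.kv p x = (7270981561 / 2000000000 + (x - 83 / 100) * (-16843290957 / 400000000)) + (370622673 / 20000000 + (x - 83 / 100) * (-967422677 / 4000000)) * p + (19369 / 1000 + (x - 83 / 100) * (-69743 / 200)) * p ^ 2 := by
  rcases eq_or_lt_of_le h1 with h | h1
  · subst h
    rw [kvh0 (by norm_num)]
    ring1
  · exact kvh1 h1 h2
theorem kvl2 {p x : ℝ} (h1 : -41 / 100 ≤ p) (h2 : p ≤ -37 / 100) : dt33.kv p x = (-10186219237 / 4000000000 + (x - 83 / 100) * (-8421645499 / 200000000)) + (-465007453 / 40000000 + (x - 83 / 100) * (-483711339 / 2000000)) * p + (-17407 / 1000 + (x - 83 / 100) * (-69743 / 200)) * p ^ 2 := by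
  rcases eq_or_lt_of_le h1 with h | h1
  · subst h
    rw [kvh1 (by norm_num) (by norm_num)]
    ring1
  · exact kvh2 h1 h2
theorem kvl3 {p x : ℝ} (h1 : -37 / 100 ≤ p) (h2 : p ≤ -517 / 1531) : dt33.kv p x = (-809015151451 / 4947000000000 + (x - 83 / 100) * (-13544129772582679 / 252461900000000)) + (485421922 / 386484375 + (x - 83 / 100) * (-768074859527831 / 2524619000000)) * p + (0 + (x - 83 / 100) * (-43301 / 100)) * p ^ 2 := by
  rcases eq_or_lt_of_le h1 with h | h1
  · subst h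
    rw [kvh2 (by norm_num) (by norm_num)]
    ring1
  · exact kvh3 h1 h2
theorem kvl4 {p x : ℝ} (h1 : -517 / 1531 ≤ p) (h2 : p ≤ -563 / 2611) : dt33.kv p x = (-179227728865129675817 / 975243688447000000000 + (x - 83 / 100) * (300725170141514834391 / 39009747537880000000)) + (553994247009019894481 / 487621844223500000000 + (x - 83 / 100) * (11539470967806603953087 / 195048737689400000000)) * p + (-71 / 400 + (x - 83 / 100) * (21011 / 200)) * p ^ 2 := by
  rcases eq_or_lt_of_le h1 with h | h1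
  · subst h
    rw [kvh3 (by norm_num) (by norm_num)]
    ring1
  · exact kvh4 h1 h2
theorem kvl5 {p x : ℝ} (h1 : -563 / 2611 ≤ p) (h2 : p ≤ -4 / 25) : dt33.kv p x = (-13698569248213 / 338590750000000 + (x - 83 / 100) * (913620775944397 / 118506762500000)) + (133564570212987 / 54174520000000 + (x - 83 / 100) * (1121857066792997 / 18961082000000)) * p + (581 / 200 + (x - 83 / 100) * (21013 / 200)) * p ^ 2 := by
  rcases eq_or_lt_of_le h1 with h | h1
  · subst h
    rw [kvh4 (by norm_num) (by norm_num)]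
    ring1
  · exact kvh5 h1 h2
theorem kvl6 {p x : ℝ} (h1 : -4 / 25 ≤ p) (h2 : p ≤ -3 / 25) : dt33.kv p x = (11961 / 312500 + (x - 83 / 100) * (22872 / 15625)) + (344961 / 100000 + (x - 83 / 100) * (-189041 / 10000)) * p + (11961 / 2000 + (x - 83 / 100) * (-27781 / 200)) * p ^ 2 := by
  rcases eq_or_lt_of_le h1 with h | h1
  · subst h
    rw [kvh5 (by norm_num) (by norm_num)]
    ring1
  · exact kvh6 h1 h2
theorem kvl7 {p x : ℝ} (h1 : -3 / 25 ≤ p) (h2 : p ≤ -2 / 25) : dt33.kv p x = (11961 / 312500 + (x - 83 / 100) * (-86601 / 31250)) + (344961 / 100000 + (x - 83 / 100) * (-894881 / 10000)) * p + (11961 / 2000 + (x - 83 / 100) * (-86601 / 200)) * p ^ 2 := by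
  rcases eq_or_lt_of_le h1 with h | h1
  · subst h
    rw [kvh6 (by norm_num) (by norm_num)]
    ring1
  · exact kvh7 h1 h2
theorem kvl8 {p x : ℝ} (h1 : -2 / 25 ≤ p) (h2 : p ≤ 2 / 25) : dt33.kv p x = (0) + (249273 / 100000 + (x - 83 / 100) * (-202073 / 10000)) * p := by
  rcases eq_or_lt_of_le h1 with h | h1
  · subst h
    rw [kvh7 (by norm_num) (by norm_num)]
    ring1
  · exact kvh8 h1 h2
theorem kvl9 {p x : ℝ} (h1 : 2 / 25 ≤ p) (h2 : p ≤ 3 / 25) : dt33.kv p x = (-11961 / 312500 + (x - 83 / 100) * (86601 / 31250)) + (344961 / 100000 + (x - 83 / 100) * (-894881 / 10000)) * p + (-11961 / 2000 + (x - 83 / 100) * (86601 / 200)) * p ^ 2 := by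
  rcases eq_or_lt_of_le h1 with h | h1
  · subst h
    rw [kvh8 (by norm_num) (by norm_num)]
    ring1
  · exact kvh9 h1 h2
theorem kvl10 {p x : ℝ} (h1 : 3 / 25 ≤ p) (h2 : p ≤ 4 / 25) : dt33.kv p x = (-11961 / 312500 + (x - 83 / 100) * (-22872 / 15625)) + (344961 / 100000 + (x - 83 / 100) * (-189041 / 10000)) * p + (-11961 / 2000 + (x - 83 / 100) * (27781 / 200)) * p ^ 2 := by
  rcases eq_or_lt_of_le h1 with h | h1
  · subst h
    rw [kvh9 (by norm_num) (by norm_num)]
    ring1
  · exact kvh10 h1 h2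
theorem kvl11 {p x : ℝ} (h1 : 4 / 25 ≤ p) (h2 : p ≤ 563 / 2611) : dt33.kv p x = (13698569248213 / 338590750000000 + (x - 83 / 100) * (-913620775944397 / 118506762500000)) + (133564570212987 / 54174520000000 + (x - 83 / 100) * (1121857066792997 / 18961082000000)) * p + (-581 / 200 + (x - 83 / 100) * (-21013 / 200)) * p ^ 2 := by
  rcases eq_or_lt_of_le h1 with h | h1
  · subst h
    rw [kvh10 (by norm_num) (by norm_num)]
    ring1
  · exact kvh11 h1 h2
theorem kvl12 {p x : ℝ} (h1 : 563 / 2611 ≤ p) (h2 : p ≤ 517 / 1531) : dt33.kv p x = (179227728865129675817 / 975243688447000000000 + (x - 83 / 100) * (-300725170141514834391 / 39009747537880000000)) + (553994247009019894481 / 487621844223500000000 + (x - 83 / 100) * (11539470967806603953087 / 195048737689400000000)) * p + (71 / 400 + (x - 83 / 100) * (-21011 / 200)) * p ^ 2 := by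
  rcases eq_or_lt_of_le h1 with h | h1
  · subst h
    rw [kvh11 (by norm_num) (by norm_num)]
    ring1
  · exact kvh12 h1 h2
theorem kvl13 {p x : ℝ} (h1 : 517 / 1531 ≤ p) (h2 : p ≤ 37 / 100) : dt33.kv p x = (809015151451 / 4947000000000 + (x - 83 / 100) * (13544129772582679 / 252461900000000)) + (485421922 / 386484375 + (x - 83 / 100) * (-768074859527831 / 2524619000000)) * p + (0 + (x - 83 / 100) * (43301 / 100)) * p ^ 2 := by
  rcases eq_or_lt_of_le h1 with h | h1
  · subst h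
    rw [kvh12 (by norm_num) (by norm_num)]
    ring1
  · exact kvh13 h1 h2
theorem kvl14 {p x : ℝ} (h1 : 37 / 100 ≤ p) (h2 : p ≤ 41 / 100) : dt33.kv p x = (10186219237 / 4000000000 + (x - 83 / 100) * (8421645499 / 200000000)) + (-465007453 / 40000000 + (x - 83 / 100) * (-483711339 / 2000000)) * p + (17407 / 1000 + (x - 83 / 100) * (69743 / 200)) * p ^ 2 := by
  rcases eq_or_lt_of_le h1 with h | h1
  · subst h
    rw [kvh13 (by norm_num) (by norm_num)]
    ring1
  · exact kvh14 h1 h2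
theorem kvl15 {p x : ℝ} (h1 : 41 / 100 ≤ p) (h2 : p ≤ 9 / 20) : dt33.kv p x = (-7270981561 / 2000000000 + (x - 83 / 100) * (16843290957 / 400000000)) + (370622673 / 20000000 + (x - 83 / 100) * (-967422677 / 4000000)) * p + (-19369 / 1000 + (x - 83 / 100) * (69743 / 200)) * p ^ 2 := by
  rcases eq_or_lt_of_le h1 with h | h1
  · subst h
    rw [kvh14 (by norm_num) (by norm_num)]
    ring1
  · exact kvh15 h1 h2
theorem kvl16 {p x : ℝ} (h1 : 9 / 20 ≤ p) (h2 : p ≤ 1 / 2) : dt33.kv p x = (-727098157 / 200000000 + (x - 83 / 100) * (-5809503627 / 50000000)) + (926556683 / 50000000 + (x - 83 / 100) * (2308461653 / 5000000)) * p + (-19369 / 1000 + (x - 83 / 100) * (-86601 / 200)) * p ^ 2 := by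
  rcases eq_or_lt_of_le h1 with h | h1
  · subst h
    rw [kvh15 (by norm_num) (by norm_num)]
    ring1
  · exact kvh16 h1 h2
theorem kfe {x p : ℝ} (h : |p| ≤ 1 / 2) : kcg.v p x = dt33.kv p x := by
  obtain ⟨h1, h2⟩ := abs_le.1 h
  rcases le_total p (-9 / 20) with g0 | g1000
  · rw [kcl0 (by linarith) g0, kvl0 (by linarith) g0]
  rcases le_total p (-41 / 100) with g1 | g1001
  · rw [kcl1 g1000 g1, kvl1 g1000 g1]
  rcases le_total p (-37 / 100) with g2 | g1002
  · rw [kcl2 g1001 g2, kvl2 g1001 g2]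
  rcases le_total p (-517 / 1531) with g3 | g1003
  · rw [kcl3 g1002 g3, kvl3 g1002 g3]
  rcases le_total p (-563 / 2611) with g4 | g1004
  · rw [kcl4 g1003 g4, kvl4 g1003 g4]
  rcases le_total p (-4 / 25) with g5 | g1005
  · rw [kcl5 g1004 g5, kvl5 g1004 g5]
  rcases le_total p (-3 / 25) with g6 | g1006
  · rw [kcl6 g1005 g6, kvl6 g1005 g6]
  rcases le_total p (-2 / 25) with g7 | g1007
  · rw [kcl7 g1006 g7, kvl7 g1006 g7]
  rcases le_total p (2 / 25) with g8 | g1008
  · rw [kcl8 g1007 g8, kvl8 g1007 g8]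
  rcases le_total p (3 / 25) with g9 | g1009
  · rw [kcl9 g1008 g9, kvl9 g1008 g9]
  rcases le_total p (4 / 25) with g10 | g1010
  · rw [kcl10 g1009 g10, kvl10 g1009 g10]
  rcases le_total p (563 / 2611) with g11 | g1011
  · rw [kcl11 g1010 g11, kvl11 g1010 g11]
  rcases le_total p (517 / 1531) with g12 | g1012
  · rw [kcl12 g1011 g12, kvl12 g1011 g12]
  rcases le_total p (37 / 100) with g13 | g1013
  · rw [kcl13 g1012 g13, kvl13 g1012 g13]
  rcases le_total p (41 / 100) with g14 | g1014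
  · rw [kcl14 g1013 g14, kvl14 g1013 g14]
  rcases le_total p (9 / 20) with g15 | g1015
  · rw [kcl15 g1014 g15, kvl15 g1014 g15]
  · rw [kcl16 g1015 (by linarith), kvl16 g1015 (by linarith)]
theorem odd {x p : ℝ} (h : |p| ≤ 1 / 2) : kcg.v (-p) x = -kcg.v p x := by
  obtain ⟨h1, h2⟩ := abs_le.1 h
  rcases le_total p (-9 / 20) with g0 | g1000
  · rw [kcl0 (by linarith) g0, kcl16 (p := -p) (by linarith) (by linarith)]; ring
  rcases le_total p (-41 / 100) with g1 | g1001
  · rw [kcl1 g1000 g1, kcl15 (p := -p) (by linarith) (by linarith)]; ring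
  rcases le_total p (-37 / 100) with g2 | g1002
  · rw [kcl2 g1001 g2, kcl14 (p := -p) (by linarith) (by linarith)]; ring
  rcases le_total p (-517 / 1531) with g3 | g1003
  · rw [kcl3 g1002 g3, kcl13 (p := -p) (by linarith) (by linarith)]; ring
  rcases le_total p (-563 / 2611) with g4 | g1004
  · rw [kcl4 g1003 g4, kcl12 (p := -p) (by linarith) (by linarith)]; ring
  rcases le_total p (-4 / 25) with g5 | g1005
  · rw [kcl5 g1004 g5, kcl11 (p := -p) (by linarith) (by linarith)]; ring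
  rcases le_total p (-3 / 25) with g6 | g1006
  · rw [kcl6 g1005 g6, kcl10 (p := -p) (by linarith) (by linarith)]; ring
  rcases le_total p (-2 / 25) with g7 | g1007
  · rw [kcl7 g1006 g7, kcl9 (p := -p) (by linarith) (by linarith)]; ring
  rcases le_total p (2 / 25) with g8 | g1008
  · rw [kcl8 g1007 g8, kcl8 (p := -p) (by linarith) (by linarith)]; ring
  rcases le_total p (3 / 25) with g9 | g1009
  · rw [kcl9 g1008 g9, kcl7 (p := -p) (by linarith) (by linarith)]; ring
  rcases le_total p (4 / 25) with g10 | g1010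
  · rw [kcl10 g1009 g10, kcl6 (p := -p) (by linarith) (by linarith)]; ring
  rcases le_total p (563 / 2611) with g11 | g1011
  · rw [kcl11 g1010 g11, kcl5 (p := -p) (by linarith) (by linarith)]; ring
  rcases le_total p (517 / 1531) with g12 | g1012
  · rw [kcl12 g1011 g12, kcl4 (p := -p) (by linarith) (by linarith)]; ring
  rcases le_total p (37 / 100) with g13 | g1013
  · rw [kcl13 g1012 g13, kcl3 (p := -p) (by linarith) (by linarith)]; ring
  rcases le_total p (41 / 100) with g14 | g1014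
  · rw [kcl14 g1013 g14, kcl2 (p := -p) (by linarith) (by linarith)]; ring
  rcases le_total p (9 / 20) with g15 | g1015
  · rw [kcl15 g1014 g15, kcl1 (p := -p) (by linarith) (by linarith)]; ring
  · rw [kcl16 g1015 (by linarith), kcl0 (p := -p) (by linarith) (by linarith)]; ring
theorem ctA : cT (563 / 2611) = 3853 / 5222 := by
  unfold cT
  rw [show (3 / 4 * (1 - (563 / 2611 : ℝ) ^ 2)) = (2208 / 2611) ^ 2 by norm_num, Real.sqrt_sq (by norm_num)]
  norm_num
theorem ctB : cT (517 / 1531) = 1979 / 3062 := by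
  unfold cT
  rw [show (3 / 4 * (1 - (517 / 1531 : ℝ) ^ 2)) = (1248 / 1531) ^ 2 by norm_num, Real.sqrt_sq (by norm_num)]
  norm_num
theorem kgA {x : ℝ} : kcg.v (563 / 2611) x = (437006229 / 1000000000 + (x - 83 / 100) * (8170157 / 50000000)) := by
  rw [kcl11 (by norm_num) (by norm_num)]
  ring
theorem kgB {x : ℝ} : kcg.v (517 / 1531) x = (587670233 / 1000000000 + (x - 83 / 100) * (28956441 / 100000000)) := by
  rw [kcl12 (by norm_num) (by norm_num)]
  ring
theorem ka_dt1 (x : ℝ) : dt1.kv (-1 / 2) x = (-157565209 / 200000000 + (x - 83 / 100) * (-160121069 / 25000000)) := by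
  simp only [dt1, DT.kv, sw1, sl1, sv1]
  ((try push_cast); ring1)
theorem kb_dt1 (x : ℝ) : dt1.kv (-9 / 20) x = (-390648431 / 500000000 + (x - 83 / 100) * (-388796373 / 100000000)) := by
  simp only [dt1, DT.kv, sw1, sl1, sv1]
  ((try push_cast); ring1)
theorem ka_dt2 (x : ℝ) : dt2.kv (-9 / 20) x = (-390648431 / 500000000 + (x - 83 / 100) * (-388796373 / 100000000)) := by
  simp only [dt2, DT.kv, sw2, sl2, sv2]
  ((try push_cast); ring1)
theorem kb_dt2 (x : ℝ) : dt2.kv (-41 / 100) x = (-176586279 / 250000000 + (x - 83 / 100) * (-3132789 / 2000000)) := by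
  simp only [dt2, DT.kv, sw2, sl2, sv2]
  ((try push_cast); ring1)
theorem ka_dt18 (x : ℝ) : dt18.kv (-1 / 2) x = (-157565209 / 200000000 + (x - 83 / 100) * (-160121069 / 25000000)) :=
  (DT.kv_le (by simp only [Cn.rt_v, Cn.ng_v]; norm_num)).trans (ka_dt1 x)
theorem kb_dt18 (x : ℝ) : dt18.kv (-41 / 100) x = (-176586279 / 250000000 + (x - 83 / 100) * (-3132789 / 2000000)) :=
  (DT.kv_gt (by simp only [Cn.rt_v, Cn.ng_v]; norm_num)).trans (kb_dt2 x)
theorem ka_dt3 (x : ℝ) : dt3.kv (-41 / 100) x = (-176586279 / 250000000 + (x - 83 / 100) * (-3132789 / 2000000)) := by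
  simp only [dt3, DT.kv, sw3, sl3, sv3]
  ((try push_cast); ring1)
theorem kb_dt3 (x : ℝ) : dt3.kv (-37 / 100) x = (-628254169 / 1000000000 + (x - 83 / 100) * (-1127229 / 3125000)) := by
  simp only [dt3, DT.kv, sw3, sl3, sv3]
  ((try push_cast); ring1)
theorem ka_dt4 (x : ℝ) : dt4.kv (-37 / 100) x = (-628254169 / 1000000000 + (x - 83 / 100) * (-1127229 / 3125000)) := by
  simp only [dt4, DT.kv, sw4, sl4, sv4]
  ((try push_cast); ring1)
theorem kb_dt4 (x : ℝ) : dt4.kv (-517 / 1531) x = (-587670233 / 1000000000 + (x - 83 / 100) * (-28956441 / 100000000)) := by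
  simp only [dt4, DT.kv, sw4, sl4, sv4]
  ((try push_cast); ring1)
theorem ka_dt19 (x : ℝ) : dt19.kv (-41 / 100) x = (-176586279 / 250000000 + (x - 83 / 100) * (-3132789 / 2000000)) :=
  (DT.kv_le (by simp only [Cn.rt_v, Cn.ng_v]; norm_num)).trans (ka_dt3 x)
theorem kb_dt19 (x : ℝ) : dt19.kv (-517 / 1531) x = (-587670233 / 1000000000 + (x - 83 / 100) * (-28956441 / 100000000)) :=
  (DT.kv_gt (by simp only [Cn.rt_v, Cn.ng_v]; norm_num)).trans (kb_dt4 x)
theorem ka_dt20 (x : ℝ) : dt20.kv (-1 / 2) x = (-157565209 / 200000000 + (x - 83 / 100) * (-160121069 / 25000000)) :=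
  (DT.kv_le (by simp only [Cn.rt_v, Cn.ng_v]; norm_num)).trans (ka_dt18 x)
theorem kb_dt20 (x : ℝ) : dt20.kv (-517 / 1531) x = (-587670233 / 1000000000 + (x - 83 / 100) * (-28956441 / 100000000)) :=
  (DT.kv_gt (by simp only [Cn.rt_v, Cn.ng_v]; norm_num)).trans (kb_dt19 x)
theorem ka_dt5 (x : ℝ) : dt5.kv (-517 / 1531) x = (-587670233 / 1000000000 + (x - 83 / 100) * (-28956441 / 100000000)) := by
  simp only [dt5, DT.kv, sw5, sl5, sv5]
  ((try push_cast); ring1)
theorem kb_dt5 (x : ℝ) : dt5.kv (-563 / 2611) x = (-437006229 / 1000000000 + (x - 83 / 100) * (-8170157 / 50000000)) := by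
  simp only [dt5, DT.kv, sw5, sl5, sv5]
  ((try push_cast); ring1)
theorem ka_dt6 (x : ℝ) : dt6.kv (-563 / 2611) x = (-437006229 / 1000000000 + (x - 83 / 100) * (-8170157 / 50000000)) := by
  simp only [dt6, DT.kv, sw6, sl6, sv6]
  ((try push_cast); ring1)
theorem kb_dt6 (x : ℝ) : dt6.kv (-4 / 25) x = (-225351 / 625000 + (x - 83 / 100) * (58281 / 62500)) := by
  simp only [dt6, DT.kv, sw6, sl6, sv6]
  ((try push_cast); ring1)
theorem ka_dt21 (x : ℝ) : dt21.kv (-517 / 1531) x = (-587670233 / 1000000000 + (x - 83 / 100) * (-28956441 / 100000000)) :=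
  (DT.kv_le (by simp only [Cn.rt_v, Cn.ng_v]; norm_num)).trans (ka_dt5 x)
theorem kb_dt21 (x : ℝ) : dt21.kv (-4 / 25) x = (-225351 / 625000 + (x - 83 / 100) * (58281 / 62500)) :=
  (DT.kv_gt (by simp only [Cn.rt_v, Cn.ng_v]; norm_num)).trans (kb_dt6 x)
theorem ka_dt7 (x : ℝ) : dt7.kv (-4 / 25) x = (-225351 / 625000 + (x - 83 / 100) * (58281 / 62500)) := by
  simp only [dt7, DT.kv, sw7, sl7, sv7]
  ((try push_cast); ring1)
theorem kb_dt7 (x : ℝ) : dt7.kv (-3 / 25) x = (-723897 / 2500000 + (x - 83 / 100) * (433017 / 250000)) := by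
  simp only [dt7, DT.kv, sw7, sl7, sv7]
  ((try push_cast); ring1)
theorem ka_dt8 (x : ℝ) : dt8.kv (-3 / 25) x = (-723897 / 2500000 + (x - 83 / 100) * (433017 / 250000)) := by
  simp only [dt8, DT.kv, sw8, sl8, sv8]
  ((try push_cast); ring1)
theorem kb_dt8 (x : ℝ) : dt8.kv (-2 / 25) x = (-249273 / 1250000 + (x - 83 / 100) * (202073 / 125000)) := by
  simp only [dt8, DT.kv, sw8, sl8, sv8]
  ((try push_cast); ring1)
theorem ka_dt22 (x : ℝ) : dt22.kv (-4 / 25) x = (-225351 / 625000 + (x - 83 / 100) * (58281 / 62500)) :=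
  (DT.kv_le (by simp only [Cn.rt_v, Cn.ng_v]; norm_num)).trans (ka_dt7 x)
theorem kb_dt22 (x : ℝ) : dt22.kv (-2 / 25) x = (-249273 / 1250000 + (x - 83 / 100) * (202073 / 125000)) :=
  (DT.kv_gt (by simp only [Cn.rt_v, Cn.ng_v]; norm_num)).trans (kb_dt8 x)
theorem ka_dt23 (x : ℝ) : dt23.kv (-517 / 1531) x = (-587670233 / 1000000000 + (x - 83 / 100) * (-28956441 / 100000000)) :=
  (DT.kv_le (by simp only [Cn.rt_v, Cn.ng_v]; norm_num)).trans (ka_dt21 x)
theorem kb_dt23 (x : ℝ) : dt23.kv (-2 / 25) x = (-249273 / 1250000 + (x - 83 / 100) * (202073 / 125000)) :=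
  (DT.kv_gt (by simp only [Cn.rt_v, Cn.ng_v]; norm_num)).trans (kb_dt22 x)
theorem ka_dt24 (x : ℝ) : dt24.kv (-1 / 2) x = (-157565209 / 200000000 + (x - 83 / 100) * (-160121069 / 25000000)) :=
  (DT.kv_le (by simp only [Cn.rt_v, Cn.ng_v]; norm_num)).trans (ka_dt20 x)
theorem kb_dt24 (x : ℝ) : dt24.kv (-2 / 25) x = (-249273 / 1250000 + (x - 83 / 100) * (202073 / 125000)) :=
  (DT.kv_gt (by simp only [Cn.rt_v, Cn.ng_v]; norm_num)).trans (kb_dt23 x)
theorem ka_dt9 (x : ℝ) : dt9.kv (-2 / 25) x = (-249273 / 1250000 + (x - 83 / 100) * (202073 / 125000)) := by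
  simp only [dt9, DT.kv, sl9, sv9]
  ((try push_cast); ring1)
theorem kb_dt9 (x : ℝ) : dt9.kv (2 / 25) x = (249273 / 1250000 + (x - 83 / 100) * (-202073 / 125000)) := by
  simp only [dt9, DT.kv, sl9, sv9]
  ((try push_cast); ring1)
theorem ka_dt10 (x : ℝ) : dt10.kv (2 / 25) x = (249273 / 1250000 + (x - 83 / 100) * (-202073 / 125000)) := by
  simp only [dt10, DT.kv, sw10, sl10, sv10]
  ((try push_cast); ring1)
theorem kb_dt10 (x : ℝ) : dt10.kv (3 / 25) x = (723897 / 2500000 + (x - 83 / 100) * (-433017 / 250000)) := by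
  simp only [dt10, DT.kv, sw10, sl10, sv10]
  ((try push_cast); ring1)
theorem ka_dt25 (x : ℝ) : dt25.kv (-2 / 25) x = (-249273 / 1250000 + (x - 83 / 100) * (202073 / 125000)) :=
  (DT.kv_le (by simp only [Cn.rt_v, Cn.ng_v]; norm_num)).trans (ka_dt9 x)
theorem kb_dt25 (x : ℝ) : dt25.kv (3 / 25) x = (723897 / 2500000 + (x - 83 / 100) * (-433017 / 250000)) :=
  (DT.kv_gt (by simp only [Cn.rt_v, Cn.ng_v]; norm_num)).trans (kb_dt10 x)
theorem ka_dt11 (x : ℝ) : dt11.kv (3 / 25) x = (723897 / 2500000 + (x - 83 / 100) * (-433017 / 250000)) := by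
  simp only [dt11, DT.kv, sw11, sl11, sv11]
  ((try push_cast); ring1)
theorem kb_dt11 (x : ℝ) : dt11.kv (4 / 25) x = (225351 / 625000 + (x - 83 / 100) * (-58281 / 62500)) := by
  simp only [dt11, DT.kv, sw11, sl11, sv11]
  ((try push_cast); ring1)
theorem ka_dt12 (x : ℝ) : dt12.kv (4 / 25) x = (225351 / 625000 + (x - 83 / 100) * (-58281 / 62500)) := by
  simp only [dt12, DT.kv, sw12, sl12, sv12]
  ((try push_cast); ring1)
theorem kb_dt12 (x : ℝ) : dt12.kv (563 / 2611) x = (437006229 / 1000000000 + (x - 83 / 100) * (8170157 / 50000000)) := by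
  simp only [dt12, DT.kv, sw12, sl12, sv12]
  ((try push_cast); ring1)
theorem ka_dt26 (x : ℝ) : dt26.kv (3 / 25) x = (723897 / 2500000 + (x - 83 / 100) * (-433017 / 250000)) :=
  (DT.kv_le (by simp only [Cn.rt_v, Cn.ng_v]; norm_num)).trans (ka_dt11 x)
theorem kb_dt26 (x : ℝ) : dt26.kv (563 / 2611) x = (437006229 / 1000000000 + (x - 83 / 100) * (8170157 / 50000000)) :=
  (DT.kv_gt (by simp only [Cn.rt_v, Cn.ng_v]; norm_num)).trans (kb_dt12 x)
theorem ka_dt27 (x : ℝ) : dt27.kv (-2 / 25) x = (-249273 / 1250000 + (x - 83 / 100) * (202073 / 125000)) :=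
  (DT.kv_le (by simp only [Cn.rt_v, Cn.ng_v]; norm_num)).trans (ka_dt25 x)
theorem kb_dt27 (x : ℝ) : dt27.kv (563 / 2611) x = (437006229 / 1000000000 + (x - 83 / 100) * (8170157 / 50000000)) :=
  (DT.kv_gt (by simp only [Cn.rt_v, Cn.ng_v]; norm_num)).trans (kb_dt26 x)
theorem ka_dt13 (x : ℝ) : dt13.kv (563 / 2611) x = (437006229 / 1000000000 + (x - 83 / 100) * (8170157 / 50000000)) := by
  simp only [dt13, DT.kv, sw13, sl13, sv13]
  ((try push_cast); ring1)
theorem kb_dt13 (x : ℝ) : dt13.kv (517 / 1531) x = (587670233 / 1000000000 + (x - 83 / 100) * (28956441 / 100000000)) := by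
  simp only [dt13, DT.kv, sw13, sl13, sv13]
  ((try push_cast); ring1)
theorem ka_dt14 (x : ℝ) : dt14.kv (517 / 1531) x = (587670233 / 1000000000 + (x - 83 / 100) * (28956441 / 100000000)) := by
  simp only [dt14, DT.kv, sw14, sl14, sv14]
  ((try push_cast); ring1)
theorem kb_dt14 (x : ℝ) : dt14.kv (37 / 100) x = (628254169 / 1000000000 + (x - 83 / 100) * (1127229 / 3125000)) := by
  simp only [dt14, DT.kv, sw14, sl14, sv14]
  ((try push_cast); ring1)
theorem ka_dt28 (x : ℝ) : dt28.kv (563 / 2611) x = (437006229 / 1000000000 + (x - 83 / 100) * (8170157 / 50000000)) :=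
  (DT.kv_le (by simp only [Cn.rt_v, Cn.ng_v]; norm_num)).trans (ka_dt13 x)
theorem kb_dt28 (x : ℝ) : dt28.kv (37 / 100) x = (628254169 / 1000000000 + (x - 83 / 100) * (1127229 / 3125000)) :=
  (DT.kv_gt (by simp only [Cn.rt_v, Cn.ng_v]; norm_num)).trans (kb_dt14 x)
theorem ka_dt15 (x : ℝ) : dt15.kv (37 / 100) x = (628254169 / 1000000000 + (x - 83 / 100) * (1127229 / 3125000)) := by
  simp only [dt15, DT.kv, sw15, sl15, sv15]
  ((try push_cast); ring1)
theorem kb_dt15 (x : ℝ) : dt15.kv (41 / 100) x = (176586279 / 250000000 + (x - 83 / 100) * (3132789 / 2000000)) := by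
  simp only [dt15, DT.kv, sw15, sl15, sv15]
  ((try push_cast); ring1)
theorem ka_dt16 (x : ℝ) : dt16.kv (41 / 100) x = (176586279 / 250000000 + (x - 83 / 100) * (3132789 / 2000000)) := by
  simp only [dt16, DT.kv, sw16, sl16, sv16]
  ((try push_cast); ring1)
theorem kb_dt16 (x : ℝ) : dt16.kv (9 / 20) x = (390648431 / 500000000 + (x - 83 / 100) * (388796373 / 100000000)) := by
  simp only [dt16, DT.kv, sw16, sl16, sv16]
  ((try push_cast); ring1)
theorem ka_dt17 (x : ℝ) : dt17.kv (9 / 20) x = (390648431 / 500000000 + (x - 83 / 100) * (388796373 / 100000000)) := by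
  simp only [dt17, DT.kv, sw17, sl17, sv17]
  ((try push_cast); ring1)
theorem kb_dt17 (x : ℝ) : dt17.kv (1 / 2) x = (157565209 / 200000000 + (x - 83 / 100) * (160121069 / 25000000)) := by
  simp only [dt17, DT.kv, sw17, sl17, sv17]
  ((try push_cast); ring1)
theorem ka_dt29 (x : ℝ) : dt29.kv (41 / 100) x = (176586279 / 250000000 + (x - 83 / 100) * (3132789 / 2000000)) :=
  (DT.kv_le (by simp only [Cn.rt_v, Cn.ng_v]; norm_num)).trans (ka_dt16 x)
theorem kb_dt29 (x : ℝ) : dt29.kv (1 / 2) x = (157565209 / 200000000 + (x - 83 / 100) * (160121069 / 25000000)) :=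
  (DT.kv_gt (by simp only [Cn.rt_v, Cn.ng_v]; norm_num)).trans (kb_dt17 x)
theorem ka_dt30 (x : ℝ) : dt30.kv (37 / 100) x = (628254169 / 1000000000 + (x - 83 / 100) * (1127229 / 3125000)) :=
  (DT.kv_le (by simp only [Cn.rt_v, Cn.ng_v]; norm_num)).trans (ka_dt15 x)
theorem kb_dt30 (x : ℝ) : dt30.kv (1 / 2) x = (157565209 / 200000000 + (x - 83 / 100) * (160121069 / 25000000)) :=
  (DT.kv_gt (by simp only [Cn.rt_v, Cn.ng_v]; norm_num)).trans (kb_dt29 x)
theorem ka_dt31 (x : ℝ) : dt31.kv (563 / 2611) x = (437006229 / 1000000000 + (x - 83 / 100) * (8170157 / 50000000)) :=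
  (DT.kv_le (by simp only [Cn.rt_v, Cn.ng_v]; norm_num)).trans (ka_dt28 x)
theorem kb_dt31 (x : ℝ) : dt31.kv (1 / 2) x = (157565209 / 200000000 + (x - 83 / 100) * (160121069 / 25000000)) :=
  (DT.kv_gt (by simp only [Cn.rt_v, Cn.ng_v]; norm_num)).trans (kb_dt30 x)
theorem ka_dt32 (x : ℝ) : dt32.kv (-2 / 25) x = (-249273 / 1250000 + (x - 83 / 100) * (202073 / 125000)) :=
  (DT.kv_le (by simp only [Cn.rt_v, Cn.ng_v]; norm_num)).trans (ka_dt27 x)
theorem kb_dt32 (x : ℝ) : dt32.kv (1 / 2) x = (157565209 / 200000000 + (x - 83 / 100) * (160121069 / 25000000)) :=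
  (DT.kv_gt (by simp only [Cn.rt_v, Cn.ng_v]; norm_num)).trans (kb_dt31 x)
theorem ka_dt33 (x : ℝ) : dt33.kv (-1 / 2) x = (-157565209 / 200000000 + (x - 83 / 100) * (-160121069 / 25000000)) :=
  (DT.kv_le (by simp only [Cn.rt_v, Cn.ng_v]; norm_num)).trans (ka_dt24 x)
theorem kb_dt33 (x : ℝ) : dt33.kv (1 / 2) x = (157565209 / 200000000 + (x - 83 / 100) * (160121069 / 25000000)) :=
  (DT.kv_gt (by simp only [Cn.rt_v, Cn.ng_v]; norm_num)).trans (kb_dt32 x)
theorem ko_dt1 (x : ℝ) : dt1.KOk x := trivial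
theorem ko_dt2 (x : ℝ) : dt2.KOk x := trivial
theorem ko_dt18 (x : ℝ) : dt18.KOk x :=
  DT.kOk_node (v := -9 / 20) (by simp only [Cn.rt_v, Cn.ng_v]; norm_num) (kb_dt1 x) (ka_dt2 x) (by ring1) (ko_dt1 x) (ko_dt2 x)
theorem ko_dt3 (x : ℝ) : dt3.KOk x := trivial
theorem ko_dt4 (x : ℝ) : dt4.KOk x := trivial
theorem ko_dt19 (x : ℝ) : dt19.KOk x :=
  DT.kOk_node (v := -37 / 100) (by simp only [Cn.rt_v, Cn.ng_v]; norm_num) (kb_dt3 x) (ka_dt4 x) (by ring1) (ko_dt3 x) (ko_dt4 x)
theorem ko_dt20 (x : ℝ) : dt20.KOk x :=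
  DT.kOk_node (v := -41 / 100) (by simp only [Cn.rt_v, Cn.ng_v]; norm_num) (kb_dt18 x) (ka_dt19 x) (by ring1) (ko_dt18 x) (ko_dt19 x)
theorem ko_dt5 (x : ℝ) : dt5.KOk x := trivial
theorem ko_dt6 (x : ℝ) : dt6.KOk x := trivial
theorem ko_dt21 (x : ℝ) : dt21.KOk x :=
  DT.kOk_node (v := -563 / 2611) (by simp only [Cn.rt_v, Cn.ng_v]; norm_num) (kb_dt5 x) (ka_dt6 x) (by ring1) (ko_dt5 x) (ko_dt6 x)
theorem ko_dt7 (x : ℝ) : dt7.KOk x := trivial
theorem ko_dt8 (x : ℝ) : dt8.KOk x := trivial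
theorem ko_dt22 (x : ℝ) : dt22.KOk x :=
  DT.kOk_node (v := -3 / 25) (by simp only [Cn.rt_v, Cn.ng_v]; norm_num) (kb_dt7 x) (ka_dt8 x) (by ring1) (ko_dt7 x) (ko_dt8 x)
theorem ko_dt23 (x : ℝ) : dt23.KOk x :=
  DT.kOk_node (v := -4 / 25) (by simp only [Cn.rt_v, Cn.ng_v]; norm_num) (kb_dt21 x) (ka_dt22 x) (by ring1) (ko_dt21 x) (ko_dt22 x)
theorem ko_dt24 (x : ℝ) : dt24.KOk x :=
  DT.kOk_node (v := -517 / 1531) (by simp only [Cn.rt_v, Cn.ng_v]; norm_num) (kb_dt20 x) (ka_dt23 x) (by ring1) (ko_dt20 x) (ko_dt23 x)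
theorem ko_dt9 (x : ℝ) : dt9.KOk x := trivial
theorem ko_dt10 (x : ℝ) : dt10.KOk x := trivial
theorem ko_dt25 (x : ℝ) : dt25.KOk x :=
  DT.kOk_node (v := 2 / 25) (by simp only [Cn.rt_v, Cn.ng_v]; norm_num) (kb_dt9 x) (ka_dt10 x) (by ring1) (ko_dt9 x) (ko_dt10 x)
theorem ko_dt11 (x : ℝ) : dt11.KOk x := trivial
theorem ko_dt12 (x : ℝ) : dt12.KOk x := trivial
theorem ko_dt26 (x : ℝ) : dt26.KOk x :=
  DT.kOk_node (v := 4 / 25) (by simp only [Cn.rt_v, Cn.ng_v]; norm_num) (kb_dt11 x) (ka_dt12 x) (by ring1) (ko_dt11 x) (ko_dt12 x)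
theorem ko_dt27 (x : ℝ) : dt27.KOk x :=
  DT.kOk_node (v := 3 / 25) (by simp only [Cn.rt_v, Cn.ng_v]; norm_num) (kb_dt25 x) (ka_dt26 x) (by ring1) (ko_dt25 x) (ko_dt26 x)
theorem ko_dt13 (x : ℝ) : dt13.KOk x := trivial
theorem ko_dt14 (x : ℝ) : dt14.KOk x := trivial
theorem ko_dt28 (x : ℝ) : dt28.KOk x :=
  DT.kOk_node (v := 517 / 1531) (by simp only [Cn.rt_v, Cn.ng_v]; norm_num) (kb_dt13 x) (ka_dt14 x) (by ring1) (ko_dt13 x) (ko_dt14 x)
theorem ko_dt15 (x : ℝ) : dt15.KOk x := trivial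
theorem ko_dt16 (x : ℝ) : dt16.KOk x := trivial
theorem ko_dt17 (x : ℝ) : dt17.KOk x := trivial
theorem ko_dt29 (x : ℝ) : dt29.KOk x :=
  DT.kOk_node (v := 9 / 20) (by simp only [Cn.rt_v, Cn.ng_v]; norm_num) (kb_dt16 x) (ka_dt17 x) (by ring1) (ko_dt16 x) (ko_dt17 x)
theorem ko_dt30 (x : ℝ) : dt30.KOk x :=
  DT.kOk_node (v := 41 / 100) (by simp only [Cn.rt_v, Cn.ng_v]; norm_num) (kb_dt15 x) (ka_dt29 x) (by ring1) (ko_dt15 x) (ko_dt29 x)
theorem ko_dt31 (x : ℝ) : dt31.KOk x :=
  DT.kOk_node (v := 37 / 100) (by simp only [Cn.rt_v, Cn.ng_v]; norm_num) (kb_dt28 x) (ka_dt30 x) (by ring1) (ko_dt28 x) (ko_dt30 x)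
theorem ko_dt32 (x : ℝ) : dt32.KOk x :=
  DT.kOk_node (v := 563 / 2611) (by simp only [Cn.rt_v, Cn.ng_v]; norm_num) (kb_dt27 x) (ka_dt31 x) (by ring1) (ko_dt27 x) (ko_dt31 x)
theorem ko_dt33 (x : ℝ) : dt33.KOk x :=
  DT.kOk_node (v := -2 / 25) (by simp only [Cn.rt_v, Cn.ng_v]; norm_num) (kb_dt24 x) (ka_dt32 x) (by ring1) (ko_dt24 x) (ko_dt32 x)
theorem txl0 {p c x : ℝ} (h1 : -1 / 2 ≤ p) (h2 : p ≤ -9 / 20) : txg.v p c x = dt70.val (fun p x => kcg.v p x) p c x := by
  symm
  refine (DT.val_le (by simp only [Cn.rt_v, Cn.ng_v]; push_cast; linarith)).trans ?_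
  refine (DT.val_le (by simp only [Cn.rt_v, Cn.ng_v]; push_cast; linarith)).trans ?_
  refine (DT.val_le (by simp only [Cn.rt_v, Cn.ng_v]; push_cast; linarith)).trans ?_
  refine (DT.val_le (by simp only [Cn.rt_v, Cn.ng_v]; push_cast; linarith)).trans ?_
  simp only [dt34, DT.val, cloR, sw34, sl34, sv34, txg, txg_4, txg_6, txg_26, txg_29, txg_32, txg_57, txg_98, txg_101, txg_144, txg_189, txg_192, txg_211, txg_249, txg_250, txg_289, txg_320, txg_342, txg_344, txg_345, txg_395]
  rcases eq_or_lt_of_le h1 with h | h1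
  · subst h
    ((try push_cast); (repeat first | rw [if_pos (by linarith)] | rw [if_neg (by linarith)] | erw [if_pos (by linarith)] | erw [if_neg (by linarith)]); (try push_cast); (try ring1))
  rcases eq_or_lt_of_le h2 with h | h2
  · subst h
    ((try push_cast); (repeat first | rw [if_pos (by linarith)] | rw [if_neg (by linarith)] | erw [if_pos (by linarith)] | erw [if_neg (by linarith)]); (try push_cast); (try ring1))
  · ((try push_cast); (repeat first | rw [if_pos (by linarith)] | rw [if_neg (by linarith)] | erw [if_pos (by linarith)] | erw [if_neg (by linarith)]); (try push_cast); (try ring1))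
theorem txl1 {p c x : ℝ} (h1 : -9 / 20 < p) (h2 : p ≤ -21 / 50) : txg.v p c x = dt70.val (fun p x => kcg.v p x) p c x := by
  symm
  refine (DT.val_le (by simp only [Cn.rt_v, Cn.ng_v]; push_cast; linarith)).trans ?_
  refine (DT.val_le (by simp only [Cn.rt_v, Cn.ng_v]; push_cast; linarith)).trans ?_
  refine (DT.val_le (by simp only [Cn.rt_v, Cn.ng_v]; push_cast; linarith)).trans ?_
  refine (DT.val_gt (by simp only [Cn.rt_v, Cn.ng_v]; push_cast; linarith)).trans ?_
  simp only [dt35, DT.val, cloR, sw35, sl35, sv35, txg, txg_4, txg_6, txg_26, txg_29, txg_32, txg_57, txg_98, txg_101, txg_144, txg_189, txg_192, txg_211, txg_249, txg_250, txg_289, txg_320, txg_342, txg_344, txg_345, txg_395]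
  rcases eq_or_lt_of_le h2 with h | h2
  · subst h
    ((try push_cast); (repeat first | rw [if_pos (by linarith)] | rw [if_neg (by linarith)] | erw [if_pos (by linarith)] | erw [if_neg (by linarith)]); (try push_cast); (try ring1))
  · ((try push_cast); (repeat first | rw [if_pos (by linarith)] | rw [if_neg (by linarith)] | erw [if_pos (by linarith)] | erw [if_neg (by linarith)]); (try push_cast); (try ring1))
theorem txl2 {p c x : ℝ} (h1 : -21 / 50 < p) (h2 : p ≤ -39 / 100) : txg.v p c x = dt70.val (fun p x => kcg.v p x) p c x := by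
  symm
  refine (DT.val_le (by simp only [Cn.rt_v, Cn.ng_v]; push_cast; linarith)).trans ?_
  refine (DT.val_le (by simp only [Cn.rt_v, Cn.ng_v]; push_cast; linarith)).trans ?_
  refine (DT.val_gt (by simp only [Cn.rt_v, Cn.ng_v]; push_cast; linarith)).trans ?_
  refine (DT.val_le (by simp only [Cn.rt_v, Cn.ng_v]; push_cast; linarith)).trans ?_
  simp only [dt36, DT.val, cloR, sw36, sl36, sv36, txg, txg_4, txg_6, txg_26, txg_29, txg_32, txg_57, txg_98, txg_101, txg_144, txg_189, txg_192, txg_211, txg_249, txg_250, txg_289, txg_320, txg_342, txg_344, txg_345, txg_395]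
  rcases eq_or_lt_of_le h2 with h | h2
  · subst h
    ((try push_cast); (repeat first | rw [if_pos (by linarith)] | rw [if_neg (by linarith)] | erw [if_pos (by linarith)] | erw [if_neg (by linarith)]); (try push_cast); (try ring1))
  · ((try push_cast); (repeat first | rw [if_pos (by linarith)] | rw [if_neg (by linarith)] | erw [if_pos (by linarith)] | erw [if_neg (by linarith)]); (try push_cast); (try ring1))
theorem txl3 {p c x : ℝ} (h1 : -39 / 100 < p) (h2 : p ≤ -9 / 25) : txg.v p c x = dt70.val (fun p x => kcg.v p x) p c x := by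
  symm
  refine (DT.val_le (by simp only [Cn.rt_v, Cn.ng_v]; push_cast; linarith)).trans ?_
  refine (DT.val_le (by simp only [Cn.rt_v, Cn.ng_v]; push_cast; linarith)).trans ?_
  refine (DT.val_gt (by simp only [Cn.rt_v, Cn.ng_v]; push_cast; linarith)).trans ?_
  refine (DT.val_gt (by simp only [Cn.rt_v, Cn.ng_v]; push_cast; linarith)).trans ?_
  simp only [dt37, DT.val, cloR, sw37, sl37, sv37, txg, txg_4, txg_6, txg_26, txg_29, txg_32, txg_57, txg_98, txg_101, txg_144, txg_189, txg_192, txg_211, txg_249, txg_250, txg_289, txg_320, txg_342, txg_344, txg_345, txg_395]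
  rcases eq_or_lt_of_le h2 with h | h2
  · subst h
    ((try push_cast); (repeat first | rw [if_pos (by linarith)] | rw [if_neg (by linarith)] | erw [if_pos (by linarith)] | erw [if_neg (by linarith)]); (try push_cast); (try ring1))
  · ((try push_cast); (repeat first | rw [if_pos (by linarith)] | rw [if_neg (by linarith)] | erw [if_pos (by linarith)] | erw [if_neg (by linarith)]); (try push_cast); (try ring1))
theorem txl4 {p c x : ℝ} (h1 : -9 / 25 < p) (h2 : p ≤ -33 / 100) : txg.v p c x = dt70.val (fun p x => kcg.v p x) p c x := by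
  symm
  refine (DT.val_le (by simp only [Cn.rt_v, Cn.ng_v]; push_cast; linarith)).trans ?_
  refine (DT.val_gt (by simp only [Cn.rt_v, Cn.ng_v]; push_cast; linarith)).trans ?_
  refine (DT.val_le (by simp only [Cn.rt_v, Cn.ng_v]; push_cast; linarith)).trans ?_
  refine (DT.val_le (by simp only [Cn.rt_v, Cn.ng_v]; push_cast; linarith)).trans ?_
  simp only [dt38, DT.val, cloR, sw38, sl38, sv38, txg, txg_4, txg_6, txg_26, txg_29, txg_32, txg_57, txg_98, txg_101, txg_144, txg_189, txg_192, txg_211, txg_249, txg_250, txg_289, txg_320, txg_342, txg_344, txg_345, txg_395]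
  rcases eq_or_lt_of_le h2 with h | h2
  · subst h
    ((try push_cast); (repeat first | rw [if_pos (by linarith)] | rw [if_neg (by linarith)] | erw [if_pos (by linarith)] | erw [if_neg (by linarith)]); (try push_cast); (try ring1))
  · ((try push_cast); (repeat first | rw [if_pos (by linarith)] | rw [if_neg (by linarith)] | erw [if_pos (by linarith)] | erw [if_neg (by linarith)]); (try push_cast); (try ring1))
theorem txl5 {p c x : ℝ} (h1 : -33 / 100 < p) (h2 : p ≤ -3 / 10) : txg.v p c x = dt70.val (fun p x => kcg.v p x) p c x := by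
  symm
  refine (DT.val_le (by simp only [Cn.rt_v, Cn.ng_v]; push_cast; linarith)).trans ?_
  refine (DT.val_gt (by simp only [Cn.rt_v, Cn.ng_v]; push_cast; linarith)).trans ?_
  refine (DT.val_le (by simp only [Cn.rt_v, Cn.ng_v]; push_cast; linarith)).trans ?_
  refine (DT.val_gt (by simp only [Cn.rt_v, Cn.ng_v]; push_cast; linarith)).trans ?_
  simp only [dt39, DT.val, cloR, sw39, sl39, sv39, txg, txg_4, txg_6, txg_26, txg_29, txg_32, txg_57, txg_98, txg_101, txg_144, txg_189, txg_192, txg_211, txg_249, txg_250, txg_289, txg_320, txg_342, txg_344, txg_345, txg_395]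
  rcases eq_or_lt_of_le h2 with h | h2
  · subst h
    ((try push_cast); (repeat first | rw [if_pos (by linarith)] | rw [if_neg (by linarith)] | erw [if_pos (by linarith)] | erw [if_neg (by linarith)]); (try push_cast); (try ring1))
  · ((try push_cast); (repeat first | rw [if_pos (by linarith)] | rw [if_neg (by linarith)] | erw [if_pos (by linarith)] | erw [if_neg (by linarith)]); (try push_cast); (try ring1))
theorem txl6 {p c x : ℝ} (h1 : -3 / 10 < p) (h2 : p ≤ -1 / 4) : txg.v p c x = dt70.val (fun p x => kcg.v p x) p c x := by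
  symm
  refine (DT.val_le (by simp only [Cn.rt_v, Cn.ng_v]; push_cast; linarith)).trans ?_
  refine (DT.val_gt (by simp only [Cn.rt_v, Cn.ng_v]; push_cast; linarith)).trans ?_
  refine (DT.val_gt (by simp only [Cn.rt_v, Cn.ng_v]; push_cast; linarith)).trans ?_
  refine (DT.val_le (by simp only [Cn.rt_v, Cn.ng_v]; push_cast; linarith)).trans ?_
  simp only [dt40, DT.val, cloR, sw40, sl40, sv40, txg, txg_4, txg_6, txg_26, txg_29, txg_32, txg_57, txg_98, txg_101, txg_144, txg_189, txg_192, txg_211, txg_249, txg_250, txg_289, txg_320, txg_342, txg_344, txg_345, txg_395]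
  rcases eq_or_lt_of_le h2 with h | h2
  · subst h
    ((try push_cast); (repeat first | rw [if_pos (by linarith)] | rw [if_neg (by linarith)] | erw [if_pos (by linarith)] | erw [if_neg (by linarith)]); (try push_cast); (try ring1))
  · ((try push_cast); (repeat first | rw [if_pos (by linarith)] | rw [if_neg (by linarith)] | erw [if_pos (by linarith)] | erw [if_neg (by linarith)]); (try push_cast); (try ring1))
theorem txl7 {p c x : ℝ} (h1 : -1 / 4 < p) (h2 : p ≤ -1 / 5) : txg.v p c x = dt70.val (fun p x => kcg.v p x) p c x := by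
  symm
  refine (DT.val_le (by simp only [Cn.rt_v, Cn.ng_v]; push_cast; linarith)).trans ?_
  refine (DT.val_gt (by simp only [Cn.rt_v, Cn.ng_v]; push_cast; linarith)).trans ?_
  refine (DT.val_gt (by simp only [Cn.rt_v, Cn.ng_v]; push_cast; linarith)).trans ?_
  refine (DT.val_gt (by simp only [Cn.rt_v, Cn.ng_v]; push_cast; linarith)).trans ?_
  refine (DT.val_le (by simp only [Cn.rt_v, Cn.ng_v]; push_cast; linarith)).trans ?_
  simp only [dt41, DT.val, cloR, sw41, sl41, sv41, txg, txg_4, txg_6, txg_26, txg_29, txg_32, txg_57, txg_98, txg_101, txg_144, txg_189, txg_192, txg_211, txg_249, txg_250, txg_289, txg_320, txg_342, txg_344, txg_345, txg_395]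
  rcases eq_or_lt_of_le h2 with h | h2
  · subst h
    ((try push_cast); (repeat first | rw [if_pos (by linarith)] | rw [if_neg (by linarith)] | erw [if_pos (by linarith)] | erw [if_neg (by linarith)]); (try push_cast); (try ring1))
  · ((try push_cast); (repeat first | rw [if_pos (by linarith)] | rw [if_neg (by linarith)] | erw [if_pos (by linarith)] | erw [if_neg (by linarith)]); (try push_cast); (try ring1))
theorem txl8 {p c x : ℝ} (h1 : -1 / 5 < p) (h2 : p ≤ -3 / 20) : txg.v p c x = dt70.val (fun p x => kcg.v p x) p c x := by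
  symm
  refine (DT.val_le (by simp only [Cn.rt_v, Cn.ng_v]; push_cast; linarith)).trans ?_
  refine (DT.val_gt (by simp only [Cn.rt_v, Cn.ng_v]; push_cast; linarith)).trans ?_
  refine (DT.val_gt (by simp only [Cn.rt_v, Cn.ng_v]; push_cast; linarith)).trans ?_
  refine (DT.val_gt (by simp only [Cn.rt_v, Cn.ng_v]; push_cast; linarith)).trans ?_
  refine (DT.val_gt (by simp only [Cn.rt_v, Cn.ng_v]; push_cast; linarith)).trans ?_
  simp only [dt42, DT.val, cloR, sw42, sl42, sv42, txg, txg_4, txg_6, txg_26, txg_29, txg_32, txg_57, txg_98, txg_101, txg_144, txg_189, txg_192, txg_211, txg_249, txg_250, txg_289, txg_320, txg_342, txg_344, txg_345, txg_395]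
  rcases eq_or_lt_of_le h2 with h | h2
  · subst h
    ((try push_cast); (repeat first | rw [if_pos (by linarith)] | rw [if_neg (by linarith)] | erw [if_pos (by linarith)] | erw [if_neg (by linarith)]); (try push_cast); (try ring1))
  · ((try push_cast); (repeat first | rw [if_pos (by linarith)] | rw [if_neg (by linarith)] | erw [if_pos (by linarith)] | erw [if_neg (by linarith)]); (try push_cast); (try ring1))
theorem txl9 {p c x : ℝ} (h1 : -3 / 20 < p) (h2 : p ≤ -1 / 10) : txg.v p c x = dt70.val (fun p x => kcg.v p x) p c x := by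
  symm
  refine (DT.val_gt (by simp only [Cn.rt_v, Cn.ng_v]; push_cast; linarith)).trans ?_
  refine (DT.val_le (by simp only [Cn.rt_v, Cn.ng_v]; push_cast; linarith)).trans ?_
  refine (DT.val_le (by simp only [Cn.rt_v, Cn.ng_v]; push_cast; linarith)).trans ?_
  refine (DT.val_le (by simp only [Cn.rt_v, Cn.ng_v]; push_cast; linarith)).trans ?_
  simp only [dt43, DT.val, cloR, sw43, sl43, sv43, txg, txg_4, txg_6, txg_26, txg_29, txg_32, txg_57, txg_98, txg_101, txg_144, txg_189, txg_192, txg_211, txg_249, txg_250, txg_289, txg_320, txg_342, txg_344, txg_345, txg_395]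
  rcases eq_or_lt_of_le h2 with h | h2
  · subst h
    ((try push_cast); (repeat first | rw [if_pos (by linarith)] | rw [if_neg (by linarith)] | erw [if_pos (by linarith)] | erw [if_neg (by linarith)]); (try push_cast); (try ring1))
  · ((try push_cast); (repeat first | rw [if_pos (by linarith)] | rw [if_neg (by linarith)] | erw [if_pos (by linarith)] | erw [if_neg (by linarith)]); (try push_cast); (try ring1))
theorem txl10 {p c x : ℝ} (h1 : -1 / 10 < p) (h2 : p ≤ 1 / 10) : txg.v p c x = dt70.val (fun p x => kcg.v p x) p c x := by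
  symm
  refine (DT.val_gt (by simp only [Cn.rt_v, Cn.ng_v]; push_cast; linarith)).trans ?_
  refine (DT.val_le (by simp only [Cn.rt_v, Cn.ng_v]; push_cast; linarith)).trans ?_
  refine (DT.val_le (by simp only [Cn.rt_v, Cn.ng_v]; push_cast; linarith)).trans ?_
  refine (DT.val_gt (by simp only [Cn.rt_v, Cn.ng_v]; push_cast; linarith)).trans ?_
  simp only [dt44, DT.val, cloR, sw44, sl44, sv44, txg, txg_4, txg_6, txg_26, txg_29, txg_32, txg_57, txg_98, txg_101, txg_144, txg_189, txg_192, txg_211, txg_249, txg_250, txg_289, txg_320, txg_342, txg_344, txg_345, txg_395]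
  rcases eq_or_lt_of_le h2 with h | h2
  · subst h
    ((try push_cast); (repeat first | rw [if_pos (by linarith)] | rw [if_neg (by linarith)] | erw [if_pos (by linarith)] | erw [if_neg (by linarith)]); (try push_cast); (try ring1))
  · ((try push_cast); (repeat first | rw [if_pos (by linarith)] | rw [if_neg (by linarith)] | erw [if_pos (by linarith)] | erw [if_neg (by linarith)]); (try push_cast); (try ring1))
theorem txl11 {p c x : ℝ} (h1 : 1 / 10 < p) (h2 : p ≤ 7 / 50) : txg.v p c x = dt70.val (fun p x => kcg.v p x) p c x := by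
  symm
  refine (DT.val_gt (by simp only [Cn.rt_v, Cn.ng_v]; push_cast; linarith)).trans ?_
  refine (DT.val_le (by simp only [Cn.rt_v, Cn.ng_v]; push_cast; linarith)).trans ?_
  refine (DT.val_gt (by simp only [Cn.rt_v, Cn.ng_v]; push_cast; linarith)).trans ?_
  refine (DT.val_le (by simp only [Cn.rt_v, Cn.ng_v]; push_cast; linarith)).trans ?_
  simp only [dt45, DT.val, cloR, sw45, sl45, sv45, txg, txg_4, txg_6, txg_26, txg_29, txg_32, txg_57, txg_98, txg_101, txg_144, txg_189, txg_192, txg_211, txg_249, txg_250, txg_289, txg_320, txg_342, txg_344, txg_345, txg_395]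
  rcases eq_or_lt_of_le h2 with h | h2
  · subst h
    ((try push_cast); (repeat first | rw [if_pos (by linarith)] | rw [if_neg (by linarith)] | erw [if_pos (by linarith)] | erw [if_neg (by linarith)]); (try push_cast); (try ring1))
  · ((try push_cast); (repeat first | rw [if_pos (by linarith)] | rw [if_neg (by linarith)] | erw [if_pos (by linarith)] | erw [if_neg (by linarith)]); (try push_cast); (try ring1))
theorem txl12 {p c x : ℝ} (h1 : 7 / 50 < p) (h2 : p ≤ 9 / 50) : txg.v p c x = dt70.val (fun p x => kcg.v p x) p c x := by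
  symm
  refine (DT.val_gt (by simp only [Cn.rt_v, Cn.ng_v]; push_cast; linarith)).trans ?_
  refine (DT.val_le (by simp only [Cn.rt_v, Cn.ng_v]; push_cast; linarith)).trans ?_
  refine (DT.val_gt (by simp only [Cn.rt_v, Cn.ng_v]; push_cast; linarith)).trans ?_
  refine (DT.val_gt (by simp only [Cn.rt_v, Cn.ng_v]; push_cast; linarith)).trans ?_
  refine (DT.val_le (by simp only [Cn.rt_v, Cn.ng_v]; push_cast; linarith)).trans ?_
  simp only [dt46, DT.val, cloR, sw46, sl46, sv46, txg, txg_4, txg_6, txg_26, txg_29, txg_32, txg_57, txg_98, txg_101, txg_144, txg_189, txg_192, txg_211, txg_249, txg_250, txg_289, txg_320, txg_342, txg_344, txg_345, txg_395]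
  rcases eq_or_lt_of_le h2 with h | h2
  · subst h
    ((try push_cast); (repeat first | rw [if_pos (by linarith)] | rw [if_neg (by linarith)] | erw [if_pos (by linarith)] | erw [if_neg (by linarith)]); (try push_cast); (try ring1))
  · ((try push_cast); (repeat first | rw [if_pos (by linarith)] | rw [if_neg (by linarith)] | erw [if_pos (by linarith)] | erw [if_neg (by linarith)]); (try push_cast); (try ring1))
theorem txl13 {p c x : ℝ} (h1 : 9 / 50 < p) (h2 : p ≤ 563 / 2611) : txg.v p c x = dt70.val (fun p x => kcg.v p x) p c x := by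
  symm
  refine (DT.val_gt (by simp only [Cn.rt_v, Cn.ng_v]; push_cast; linarith)).trans ?_
  refine (DT.val_le (by simp only [Cn.rt_v, Cn.ng_v]; push_cast; linarith)).trans ?_
  refine (DT.val_gt (by simp only [Cn.rt_v, Cn.ng_v]; push_cast; linarith)).trans ?_
  refine (DT.val_gt (by simp only [Cn.rt_v, Cn.ng_v]; push_cast; linarith)).trans ?_
  refine (DT.val_gt (by simp only [Cn.rt_v, Cn.ng_v]; push_cast; linarith)).trans ?_
  simp only [dt47, DT.val, cloR, sw47, sw47_2, sl47, sl47_2, sv47, sv47_2, txg, txg_4, txg_6, txg_26, txg_29, txg_32, txg_57, txg_98, txg_101, txg_144, txg_189, txg_192, txg_211, txg_249, txg_250, txg_289, txg_320, txg_342, txg_344, txg_345, txg_395]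
  rcases eq_or_lt_of_le h2 with h | h2
  · subst h
    ((try push_cast); (repeat first | rw [if_pos (by linarith)] | rw [if_neg (by linarith)] | erw [if_pos (by linarith)] | erw [if_neg (by linarith)]); (try push_cast); (try ring1))
  · ((try push_cast); (repeat first | rw [if_pos (by linarith)] | rw [if_neg (by linarith)] | erw [if_pos (by linarith)] | erw [if_neg (by linarith)]); (try push_cast); (try ring1))
theorem txl14 {p c x : ℝ} (h1 : 563 / 2611 < p) (h2 : p ≤ 517 / 1531) : txg.v p c x = dt70.val (fun p x => kcg.v p x) p c x := by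
  symm
  refine (DT.val_gt (by simp only [Cn.rt_v, Cn.ng_v]; push_cast; linarith)).trans ?_
  refine (DT.val_gt (by simp only [Cn.rt_v, Cn.ng_v]; push_cast; linarith)).trans ?_
  refine (DT.val_le (by simp only [Cn.rt_v, Cn.ng_v]; push_cast; linarith)).trans ?_
  refine (DT.val_le (by simp only [Cn.rt_v, Cn.ng_v]; push_cast; linarith)).trans ?_
  simp only [dt48, DT.val, cloR, txg, txg_4, txg_6, txg_26, txg_29, txg_32, txg_57, txg_98, txg_101, txg_144, txg_189, txg_192, txg_211, txg_249, txg_250, txg_289, txg_320, txg_342, txg_344, txg_345, txg_395]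
  rcases eq_or_lt_of_le h2 with h | h2
  · subst h
    ((try push_cast); (repeat first | rw [if_pos (by linarith)] | rw [if_neg (by linarith)] | erw [if_pos (by linarith)] | erw [if_neg (by linarith)]); (try push_cast); (try ring1))
  · ((try push_cast); (repeat first | rw [if_pos (by linarith)] | rw [if_neg (by linarith)] | erw [if_pos (by linarith)] | erw [if_neg (by linarith)]); (try push_cast); (try ring1))
theorem txl15 {p c x : ℝ} (h1 : 517 / 1531 < p) (h2 : p ≤ 9 / 25) : txg.v p c x = dt70.val (fun p x => kcg.v p x) p c x := by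
  symm
  refine (DT.val_gt (by simp only [Cn.rt_v, Cn.ng_v]; push_cast; linarith)).trans ?_
  refine (DT.val_gt (by simp only [Cn.rt_v, Cn.ng_v]; push_cast; linarith)).trans ?_
  refine (DT.val_le (by simp only [Cn.rt_v, Cn.ng_v]; push_cast; linarith)).trans ?_
  refine (DT.val_gt (by simp only [Cn.rt_v, Cn.ng_v]; push_cast; linarith)).trans ?_
  simp only [dt49, DT.val, cloR, sw49, sw49_2, sl49, sl49_2, sv49, sv49_2, txg, txg_4, txg_6, txg_26, txg_29, txg_32, txg_57, txg_98, txg_101, txg_144, txg_189, txg_192, txg_211, txg_249, txg_250, txg_289, txg_320, txg_342, txg_344, txg_345, txg_395]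
  rcases eq_or_lt_of_le h2 with h | h2
  · subst h
    ((try push_cast); (repeat first | rw [if_pos (by linarith)] | rw [if_neg (by linarith)] | erw [if_pos (by linarith)] | erw [if_neg (by linarith)]); (try push_cast); (try ring1))
  · ((try push_cast); (repeat first | rw [if_pos (by linarith)] | rw [if_neg (by linarith)] | erw [if_pos (by linarith)] | erw [if_neg (by linarith)]); (try push_cast); (try ring1))
theorem txl16 {p c x : ℝ} (h1 : 9 / 25 < p) (h2 : p ≤ 2 / 5) : txg.v p c x = dt70.val (fun p x => kcg.v p x) p c x := by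
  symm
  refine (DT.val_gt (by simp only [Cn.rt_v, Cn.ng_v]; push_cast; linarith)).trans ?_
  refine (DT.val_gt (by simp only [Cn.rt_v, Cn.ng_v]; push_cast; linarith)).trans ?_
  refine (DT.val_gt (by simp only [Cn.rt_v, Cn.ng_v]; push_cast; linarith)).trans ?_
  refine (DT.val_le (by simp only [Cn.rt_v, Cn.ng_v]; push_cast; linarith)).trans ?_
  simp only [dt50, DT.val, cloR, sw50, sl50, sv50, txg, txg_4, txg_6, txg_26, txg_29, txg_32, txg_57, txg_98, txg_101, txg_144, txg_189, txg_192, txg_211, txg_249, txg_250, txg_289, txg_320, txg_342, txg_344, txg_345, txg_395]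
  rcases eq_or_lt_of_le h2 with h | h2
  · subst h
    ((try push_cast); (repeat first | rw [if_pos (by linarith)] | rw [if_neg (by linarith)] | erw [if_pos (by linarith)] | erw [if_neg (by linarith)]); (try push_cast); (try ring1))
  · ((try push_cast); (repeat first | rw [if_pos (by linarith)] | rw [if_neg (by linarith)] | erw [if_pos (by linarith)] | erw [if_neg (by linarith)]); (try push_cast); (try ring1))
theorem txl17 {p c x : ℝ} (h1 : 2 / 5 < p) (h2 : p ≤ 9 / 20) : txg.v p c x = dt70.val (fun p x => kcg.v p x) p c x := by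
  symm
  refine (DT.val_gt (by simp only [Cn.rt_v, Cn.ng_v]; push_cast; linarith)).trans ?_
  refine (DT.val_gt (by simp only [Cn.rt_v, Cn.ng_v]; push_cast; linarith)).trans ?_
  refine (DT.val_gt (by simp only [Cn.rt_v, Cn.ng_v]; push_cast; linarith)).trans ?_
  refine (DT.val_gt (by simp only [Cn.rt_v, Cn.ng_v]; push_cast; linarith)).trans ?_
  refine (DT.val_le (by simp only [Cn.rt_v, Cn.ng_v]; push_cast; linarith)).trans ?_
  simp only [dt51, DT.val, cloR, sw51, sl51, sv51, txg, txg_4, txg_6, txg_26, txg_29, txg_32, txg_57, txg_98, txg_101, txg_144, txg_189, txg_192, txg_211, txg_249, txg_250, txg_289, txg_320, txg_342, txg_344, txg_345, txg_395]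
  rcases eq_or_lt_of_le h2 with h | h2
  · subst h
    ((try push_cast); (repeat first | rw [if_pos (by linarith)] | rw [if_neg (by linarith)] | erw [if_pos (by linarith)] | erw [if_neg (by linarith)]); (try push_cast); (try ring1))
  · ((try push_cast); (repeat first | rw [if_pos (by linarith)] | rw [if_neg (by linarith)] | erw [if_pos (by linarith)] | erw [if_neg (by linarith)]); (try push_cast); (try ring1))
theorem txl18 {p c x : ℝ} (h1 : 9 / 20 < p) (h2 : p ≤ 1 / 2) : txg.v p c x = dt70.val (fun p x => kcg.v p x) p c x := by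
  symm
  refine (DT.val_gt (by simp only [Cn.rt_v, Cn.ng_v]; push_cast; linarith)).trans ?_
  refine (DT.val_gt (by simp only [Cn.rt_v, Cn.ng_v]; push_cast; linarith)).trans ?_
  refine (DT.val_gt (by simp only [Cn.rt_v, Cn.ng_v]; push_cast; linarith)).trans ?_
  refine (DT.val_gt (by simp only [Cn.rt_v, Cn.ng_v]; push_cast; linarith)).trans ?_
  refine (DT.val_gt (by simp only [Cn.rt_v, Cn.ng_v]; push_cast; linarith)).trans ?_
  simp only [dt52, DT.val, cloR, sw52, sl52, sv52, txg, txg_4, txg_6, txg_26, txg_29, txg_32, txg_57, txg_98, txg_101, txg_144, txg_189, txg_192, txg_211, txg_249, txg_250, txg_289, txg_320, txg_342, txg_344, txg_345, txg_395]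
  rcases eq_or_lt_of_le h2 with h | h2
  · subst h
    ((try push_cast); (repeat first | rw [if_pos (by linarith)] | rw [if_neg (by linarith)] | erw [if_pos (by linarith)] | erw [if_neg (by linarith)]); (try push_cast); (try ring1))
  · ((try push_cast); (repeat first | rw [if_pos (by linarith)] | rw [if_neg (by linarith)] | erw [if_pos (by linarith)] | erw [if_neg (by linarith)]); (try push_cast); (try ring1))
theorem txe {x : ℝ} (p c : ℝ) (h : |p| ≤ 1 / 2) : txg.v p c x = dt70.val (fun p x => kcg.v p x) p c x := by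
  obtain ⟨h1, h2⟩ := abs_le.1 h
  rcases le_or_gt p (-9 / 20) with g0 | g1000
  · exact txl0 (by linarith) g0
  rcases le_or_gt p (-21 / 50) with g1 | g1001
  · exact txl1 g1000 g1
  rcases le_or_gt p (-39 / 100) with g2 | g1002
  · exact txl2 g1001 g2
  rcases le_or_gt p (-9 / 25) with g3 | g1003
  · exact txl3 g1002 g3
  rcases le_or_gt p (-33 / 100) with g4 | g1004
  · exact txl4 g1003 g4
  rcases le_or_gt p (-3 / 10) with g5 | g1005
  · exact txl5 g1004 g5
  rcases le_or_gt p (-1 / 4) with g6 | g1006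
  · exact txl6 g1005 g6
  rcases le_or_gt p (-1 / 5) with g7 | g1007
  · exact txl7 g1006 g7
  rcases le_or_gt p (-3 / 20) with g8 | g1008
  · exact txl8 g1007 g8
  rcases le_or_gt p (-1 / 10) with g9 | g1009
  · exact txl9 g1008 g9
  rcases le_or_gt p (1 / 10) with g10 | g1010
  · exact txl10 g1009 g10
  rcases le_or_gt p (7 / 50) with g11 | g1011
  · exact txl11 g1010 g11
  rcases le_or_gt p (9 / 50) with g12 | g1012
  · exact txl12 g1011 g12
  rcases le_or_gt p (563 / 2611) with g13 | g1013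
  · exact txl13 g1012 g13
  rcases le_or_gt p (517 / 1531) with g14 | g1014
  · exact txl14 g1013 g14
  rcases le_or_gt p (9 / 25) with g15 | g1015
  · exact txl15 g1014 g15
  rcases le_or_gt p (2 / 5) with g16 | g1016
  · exact txl16 g1015 g16
  rcases le_or_gt p (9 / 20) with g17 | g1017
  · exact txl17 g1016 g17
  · exact txl18 g1017 (by linarith)
theorem ta_dt34 (x : ℝ) : dt34.val (fun p x => kcg.v p x) (-1 / 2) (cT (-1 / 2)) x = (0) := by
  simp only [dt34, DT.val, sw34, sl34, sv34]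
  ((try push_cast); ring1)
theorem tb_dt34 (x : ℝ) : dt34.val (fun p x => kcg.v p x) (-9 / 20) (cT (-9 / 20)) x = (15909 / 1000000 + (x - 83 / 100) * (833 / 80000)) := by
  simp only [dt34, DT.val, sw34, sl34, sv34]
  ((try push_cast); ring1)
theorem ta_dt35 (x : ℝ) : dt35.val (fun p x => kcg.v p x) (-9 / 20) (cT (-9 / 20)) x = (15909 / 1000000 + (x - 83 / 100) * (833 / 80000)) := by
  simp only [dt35, DT.val, sw35, sl35, sv35]
  ((try push_cast); ring1)
theorem tb_dt35 (x : ℝ) : dt35.val (fun p x => kcg.v p x) (-21 / 50) (cT (-21 / 50)) x = (32433 / 1250000 + (x - 83 / 100) * (72763 / 1000000)) := by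
  simp only [dt35, DT.val, sw35, sl35, sv35]
  ((try push_cast); ring1)
theorem ta_dt53 (x : ℝ) : dt53.val (fun p x => kcg.v p x) (-1 / 2) (cT (-1 / 2)) x = (0) :=
  (DT.val_le (by simp only [Cn.rt_v, Cn.ng_v]; norm_num)).trans (ta_dt34 x)
theorem tb_dt53 (x : ℝ) : dt53.val (fun p x => kcg.v p x) (-21 / 50) (cT (-21 / 50)) x = (32433 / 1250000 + (x - 83 / 100) * (72763 / 1000000)) :=
  (DT.val_gt (by simp only [Cn.rt_v, Cn.ng_v]; norm_num)).trans (tb_dt35 x)
theorem ta_dt36 (x : ℝ) : dt36.val (fun p x => kcg.v p x) (-21 / 50) (cT (-21 / 50)) x = (32433 / 1250000 + (x - 83 / 100) * (72763 / 1000000)) := by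
  simp only [dt36, DT.val, sw36, sl36, sv36]
  ((try push_cast); ring1)
theorem tb_dt36 (x : ℝ) : dt36.val (fun p x => kcg.v p x) (-39 / 100) (cT (-39 / 100)) x = (23553 / 625000 + (x - 83 / 100) * (8239 / 62500)) := by
  simp only [dt36, DT.val, sw36, sl36, sv36]
  ((try push_cast); ring1)
theorem ta_dt37 (x : ℝ) : dt37.val (fun p x => kcg.v p x) (-39 / 100) (cT (-39 / 100)) x = (23553 / 625000 + (x - 83 / 100) * (8239 / 62500)) := by
  simp only [dt37, DT.val, sw37, sl37, sv37]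
  ((try push_cast); ring1)
theorem tb_dt37 (x : ℝ) : dt37.val (fun p x => kcg.v p x) (-9 / 25) (cT (-9 / 25)) x = (1035561 / 20000000 + (x - 83 / 100) * (29467 / 250000)) := by
  simp only [dt37, DT.val, sw37, sl37, sv37]
  ((try push_cast); ring1)
theorem ta_dt54 (x : ℝ) : dt54.val (fun p x => kcg.v p x) (-21 / 50) (cT (-21 / 50)) x = (32433 / 1250000 + (x - 83 / 100) * (72763 / 1000000)) :=
  (DT.val_le (by simp only [Cn.rt_v, Cn.ng_v]; norm_num)).trans (ta_dt36 x)
theorem tb_dt54 (x : ℝ) : dt54.val (fun p x => kcg.v p x) (-9 / 25) (cT (-9 / 25)) x = (1035561 / 20000000 + (x - 83 / 100) * (29467 / 250000)) :=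
  (DT.val_gt (by simp only [Cn.rt_v, Cn.ng_v]; norm_num)).trans (tb_dt37 x)
theorem ta_dt55 (x : ℝ) : dt55.val (fun p x => kcg.v p x) (-1 / 2) (cT (-1 / 2)) x = (0) :=
  (DT.val_le (by simp only [Cn.rt_v, Cn.ng_v]; norm_num)).trans (ta_dt53 x)
theorem tb_dt55 (x : ℝ) : dt55.val (fun p x => kcg.v p x) (-9 / 25) (cT (-9 / 25)) x = (1035561 / 20000000 + (x - 83 / 100) * (29467 / 250000)) :=
  (DT.val_gt (by simp only [Cn.rt_v, Cn.ng_v]; norm_num)).trans (tb_dt54 x)
theorem ta_dt38 (x : ℝ) : dt38.val (fun p x => kcg.v p x) (-9 / 25) (cT (-9 / 25)) x = (1035561 / 20000000 + (x - 83 / 100) * (29467 / 250000)) := by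
  simp only [dt38, DT.val, sw38, sl38, sv38]
  ((try push_cast); ring1)
theorem tb_dt38 (x : ℝ) : dt38.val (fun p x => kcg.v p x) (-33 / 100) (cT (-33 / 100)) x = (618879 / 10000000 + (x - 83 / 100) * (173291 / 2000000)) := by
  simp only [dt38, DT.val, sw38, sl38, sv38]
  ((try push_cast); ring1)
theorem ta_dt39 (x : ℝ) : dt39.val (fun p x => kcg.v p x) (-33 / 100) (cT (-33 / 100)) x = (618879 / 10000000 + (x - 83 / 100) * (173291 / 2000000)) := by
  simp only [dt39, DT.val, sw39, sl39, sv39]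
  ((try push_cast); ring1)
theorem tb_dt39 (x : ℝ) : dt39.val (fun p x => kcg.v p x) (-3 / 10) (cT (-3 / 10)) x = (686259 / 10000000 + (x - 83 / 100) * (155837 / 2000000)) := by
  simp only [dt39, DT.val, sw39, sl39, sv39]
  ((try push_cast); ring1)
theorem ta_dt56 (x : ℝ) : dt56.val (fun p x => kcg.v p x) (-9 / 25) (cT (-9 / 25)) x = (1035561 / 20000000 + (x - 83 / 100) * (29467 / 250000)) :=
  (DT.val_le (by simp only [Cn.rt_v, Cn.ng_v]; norm_num)).trans (ta_dt38 x)
theorem tb_dt56 (x : ℝ) : dt56.val (fun p x => kcg.v p x) (-3 / 10) (cT (-3 / 10)) x = (686259 / 10000000 + (x - 83 / 100) * (155837 / 2000000)) :=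
  (DT.val_gt (by simp only [Cn.rt_v, Cn.ng_v]; norm_num)).trans (tb_dt39 x)
theorem ta_dt40 (x : ℝ) : dt40.val (fun p x => kcg.v p x) (-3 / 10) (cT (-3 / 10)) x = (686259 / 10000000 + (x - 83 / 100) * (155837 / 2000000)) := by
  simp only [dt40, DT.val, sw40, sl40, sv40]
  ((try push_cast); ring1)
theorem tb_dt40 (x : ℝ) : dt40.val (fun p x => kcg.v p x) (-1 / 4) (cT (-1 / 4)) x = (1664523 / 20000000 + (x - 83 / 100) * (139597 / 2000000)) := by
  simp only [dt40, DT.val, sw40, sl40, sv40]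
  ((try push_cast); ring1)
theorem ta_dt41 (x : ℝ) : dt41.val (fun p x => kcg.v p x) (-1 / 4) (cT (-1 / 4)) x = (1664523 / 20000000 + (x - 83 / 100) * (139597 / 2000000)) := by
  simp only [dt41, DT.val, sw41, sl41, sv41]
  ((try push_cast); ring1)
theorem tb_dt41 (x : ℝ) : dt41.val (fun p x => kcg.v p x) (-1 / 5) (cT (-1 / 5)) x = (1942753 / 20000000 + (x - 83 / 100) * (76741 / 1000000)) := by
  simp only [dt41, DT.val, sw41, sl41, sv41]
  ((try push_cast); ring1)
theorem ta_dt42 (x : ℝ) : dt42.val (fun p x => kcg.v p x) (-1 / 5) (cT (-1 / 5)) x = (1942753 / 20000000 + (x - 83 / 100) * (76741 / 1000000)) := by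
  simp only [dt42, DT.val, sw42, sl42, sv42]
  ((try push_cast); ring1)
theorem tb_dt42 (x : ℝ) : dt42.val (fun p x => kcg.v p x) (-3 / 20) (cT (-3 / 20)) x = (1094529 / 10000000 + (x - 83 / 100) * (10687 / 125000)) := by
  simp only [dt42, DT.val, sw42, sl42, sv42]
  ((try push_cast); ring1)
theorem ta_dt57 (x : ℝ) : dt57.val (fun p x => kcg.v p x) (-1 / 4) (cT (-1 / 4)) x = (1664523 / 20000000 + (x - 83 / 100) * (139597 / 2000000)) :=
  (DT.val_le (by simp only [Cn.rt_v, Cn.ng_v]; norm_num)).trans (ta_dt41 x)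
theorem tb_dt57 (x : ℝ) : dt57.val (fun p x => kcg.v p x) (-3 / 20) (cT (-3 / 20)) x = (1094529 / 10000000 + (x - 83 / 100) * (10687 / 125000)) :=
  (DT.val_gt (by simp only [Cn.rt_v, Cn.ng_v]; norm_num)).trans (tb_dt42 x)
theorem ta_dt58 (x : ℝ) : dt58.val (fun p x => kcg.v p x) (-3 / 10) (cT (-3 / 10)) x = (686259 / 10000000 + (x - 83 / 100) * (155837 / 2000000)) :=
  (DT.val_le (by simp only [Cn.rt_v, Cn.ng_v]; norm_num)).trans (ta_dt40 x)
theorem tb_dt58 (x : ℝ) : dt58.val (fun p x => kcg.v p x) (-3 / 20) (cT (-3 / 20)) x = (1094529 / 10000000 + (x - 83 / 100) * (10687 / 125000)) :=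
  (DT.val_gt (by simp only [Cn.rt_v, Cn.ng_v]; norm_num)).trans (tb_dt57 x)
theorem ta_dt59 (x : ℝ) : dt59.val (fun p x => kcg.v p x) (-9 / 25) (cT (-9 / 25)) x = (1035561 / 20000000 + (x - 83 / 100) * (29467 / 250000)) :=
  (DT.val_le (by simp only [Cn.rt_v, Cn.ng_v]; norm_num)).trans (ta_dt56 x)
theorem tb_dt59 (x : ℝ) : dt59.val (fun p x => kcg.v p x) (-3 / 20) (cT (-3 / 20)) x = (1094529 / 10000000 + (x - 83 / 100) * (10687 / 125000)) :=
  (DT.val_gt (by simp only [Cn.rt_v, Cn.ng_v]; norm_num)).trans (tb_dt58 x)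
theorem ta_dt60 (x : ℝ) : dt60.val (fun p x => kcg.v p x) (-1 / 2) (cT (-1 / 2)) x = (0) :=
  (DT.val_le (by simp only [Cn.rt_v, Cn.ng_v]; norm_num)).trans (ta_dt55 x)
theorem tb_dt60 (x : ℝ) : dt60.val (fun p x => kcg.v p x) (-3 / 20) (cT (-3 / 20)) x = (1094529 / 10000000 + (x - 83 / 100) * (10687 / 125000)) :=
  (DT.val_gt (by simp only [Cn.rt_v, Cn.ng_v]; norm_num)).trans (tb_dt59 x)
theorem ta_dt43 (x : ℝ) : dt43.val (fun p x => kcg.v p x) (-3 / 20) (cT (-3 / 20)) x = (1094529 / 10000000 + (x - 83 / 100) * (10687 / 125000)) := by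
  simp only [dt43, DT.val, sw43, sl43, sv43]
  ((try push_cast); ring1)
theorem tb_dt43 (x : ℝ) : dt43.val (fun p x => kcg.v p x) (-1 / 10) (cT (-1 / 10)) x = (2423413 / 20000000 + (x - 83 / 100) * (37563 / 500000)) := by
  simp only [dt43, DT.val, sw43, sl43, sv43]
  ((try push_cast); ring1)
theorem ta_dt44 (x : ℝ) : dt44.val (fun p x => kcg.v p x) (-1 / 10) (cT (-1 / 10)) x = (2423413 / 20000000 + (x - 83 / 100) * (37563 / 500000)) := by
  simp only [dt44, DT.val, sw44, sl44, sv44]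
  ((try push_cast); ring1)
theorem tb_dt44 (x : ℝ) : dt44.val (fun p x => kcg.v p x) (1 / 10) (cT (1 / 10)) x = (2769733 / 20000000 + (x - 83 / 100) * (44123 / 500000)) := by
  simp only [dt44, DT.val, sw44, sl44, sv44]
  ((try push_cast); ring1)
theorem ta_dt61 (x : ℝ) : dt61.val (fun p x => kcg.v p x) (-3 / 20) (cT (-3 / 20)) x = (1094529 / 10000000 + (x - 83 / 100) * (10687 / 125000)) :=
  (DT.val_le (by simp only [Cn.rt_v, Cn.ng_v]; norm_num)).trans (ta_dt43 x)
theorem tb_dt61 (x : ℝ) : dt61.val (fun p x => kcg.v p x) (1 / 10) (cT (1 / 10)) x = (2769733 / 20000000 + (x - 83 / 100) * (44123 / 500000)) :=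
  (DT.val_gt (by simp only [Cn.rt_v, Cn.ng_v]; norm_num)).trans (tb_dt44 x)
theorem ta_dt45 (x : ℝ) : dt45.val (fun p x => kcg.v p x) (1 / 10) (cT (1 / 10)) x = (2769733 / 20000000 + (x - 83 / 100) * (44123 / 500000)) := by
  simp only [dt45, DT.val, sw45, sl45, sv45]
  ((try push_cast); ring1)
theorem tb_dt45 (x : ℝ) : dt45.val (fun p x => kcg.v p x) (7 / 50) (cT (7 / 50)) x = (2731797 / 20000000 + (x - 83 / 100) * (2183 / 20000)) := by
  simp only [dt45, DT.val, sw45, sl45, sv45]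
  ((try push_cast); ring1)
theorem ta_dt46 (x : ℝ) : dt46.val (fun p x => kcg.v p x) (7 / 50) (cT (7 / 50)) x = (2731797 / 20000000 + (x - 83 / 100) * (2183 / 20000)) := by
  simp only [dt46, DT.val, sw46, sl46, sv46]
  ((try push_cast); ring1)
theorem tb_dt46 (x : ℝ) : dt46.val (fun p x => kcg.v p x) (9 / 50) (cT (9 / 50)) x = (2681941 / 20000000 + (x - 83 / 100) * (56159 / 500000)) := by
  simp only [dt46, DT.val, sw46, sl46, sv46]
  ((try push_cast); ring1)
theorem ta_dt47 (x : ℝ) : dt47.val (fun p x => kcg.v p x) (9 / 50) (cT (9 / 50)) x = (2681941 / 20000000 + (x - 83 / 100) * (56159 / 500000)) := by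
  simp only [dt47, DT.val, sw47, sw47_2, sl47, sl47_2, sv47, sv47_2]
  ((try push_cast); ring1)
theorem tb_dt47 (x : ℝ) : dt47.val (fun p x => kcg.v p x) (563 / 2611) (3853 / 5222) x = (44430246380157741 / 340866050000000000 + (x - 83 / 100) * (483937961285997 / 4260825625000000) + (x - 83 / 100) ^ 2 * (2720662281 / 65275000000)) := by
  simp only [dt47, DT.val, sw47, sw47_2, sl47, sl47_2, sv47, sv47_2]
  ((try push_cast); ring1)
theorem ta_dt62 (x : ℝ) : dt62.val (fun p x => kcg.v p x) (7 / 50) (cT (7 / 50)) x = (2731797 / 20000000 + (x - 83 / 100) * (2183 / 20000)) :=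
  (DT.val_le (by simp only [Cn.rt_v, Cn.ng_v]; norm_num)).trans (ta_dt46 x)
theorem tb_dt62 (x : ℝ) : dt62.val (fun p x => kcg.v p x) (563 / 2611) (3853 / 5222) x = (44430246380157741 / 340866050000000000 + (x - 83 / 100) * (483937961285997 / 4260825625000000) + (x - 83 / 100) ^ 2 * (2720662281 / 65275000000)) :=
  (DT.val_gt (by simp only [Cn.rt_v, Cn.ng_v]; norm_num)).trans (tb_dt47 x)
theorem ta_dt63 (x : ℝ) : dt63.val (fun p x => kcg.v p x) (1 / 10) (cT (1 / 10)) x = (2769733 / 20000000 + (x - 83 / 100) * (44123 / 500000)) :=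
  (DT.val_le (by simp only [Cn.rt_v, Cn.ng_v]; norm_num)).trans (ta_dt45 x)
theorem tb_dt63 (x : ℝ) : dt63.val (fun p x => kcg.v p x) (563 / 2611) (3853 / 5222) x = (44430246380157741 / 340866050000000000 + (x - 83 / 100) * (483937961285997 / 4260825625000000) + (x - 83 / 100) ^ 2 * (2720662281 / 65275000000)) :=
  (DT.val_gt (by simp only [Cn.rt_v, Cn.ng_v]; norm_num)).trans (tb_dt62 x)
theorem ta_dt64 (x : ℝ) : dt64.val (fun p x => kcg.v p x) (-3 / 20) (cT (-3 / 20)) x = (1094529 / 10000000 + (x - 83 / 100) * (10687 / 125000)) :=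
  (DT.val_le (by simp only [Cn.rt_v, Cn.ng_v]; norm_num)).trans (ta_dt61 x)
theorem tb_dt64 (x : ℝ) : dt64.val (fun p x => kcg.v p x) (563 / 2611) (3853 / 5222) x = (44430246380157741 / 340866050000000000 + (x - 83 / 100) * (483937961285997 / 4260825625000000) + (x - 83 / 100) ^ 2 * (2720662281 / 65275000000)) :=
  (DT.val_gt (by simp only [Cn.rt_v, Cn.ng_v]; norm_num)).trans (tb_dt63 x)
theorem ta_dt48 (x : ℝ) : dt48.val (fun p x => kcg.v p x) (563 / 2611) (3853 / 5222) x = (44430246380157741 / 340866050000000000 + (x - 83 / 100) * (483937961285997 / 4260825625000000) + (x - 83 / 100) ^ 2 * (2720662281 / 65275000000)) := by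
  simp only [dt48, DT.val, cloR, kgA]
  ring1
theorem tb_dt48 (x : ℝ) : dt48.val (fun p x => kcg.v p x) (517 / 1531) (1979 / 3062) x = (11517840576479097 / 117198050000000000 + (x - 83 / 100) * (1166488364068559 / 11719805000000000) + (x - 83 / 100) ^ 2 * (3851206653 / 76550000000)) := by
  simp only [dt48, DT.val, cloR, kgB]
  ring1
theorem ta_dt49 (x : ℝ) : dt49.val (fun p x => kcg.v p x) (517 / 1531) (1979 / 3062) x = (11517840576479097 / 117198050000000000 + (x - 83 / 100) * (1166488364068559 / 11719805000000000) + (x - 83 / 100) ^ 2 * (3851206653 / 76550000000)) := by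
  simp only [dt49, DT.val, sw49, sw49_2, sl49, sl49_2, sv49, sv49_2]
  ((try push_cast); ring1)
theorem tb_dt49 (x : ℝ) : dt49.val (fun p x => kcg.v p x) (9 / 25) (cT (9 / 25)) x = (347809 / 4000000 + (x - 83 / 100) * (4437 / 40000)) := by
  simp only [dt49, DT.val, sw49, sw49_2, sl49, sl49_2, sv49, sv49_2]
  ((try push_cast); ring1)
theorem ta_dt65 (x : ℝ) : dt65.val (fun p x => kcg.v p x) (563 / 2611) (3853 / 5222) x = (44430246380157741 / 340866050000000000 + (x - 83 / 100) * (483937961285997 / 4260825625000000) + (x - 83 / 100) ^ 2 * (2720662281 / 65275000000)) :=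
  (DT.val_le (by simp only [Cn.rt_v, Cn.ng_v]; norm_num)).trans (ta_dt48 x)
theorem tb_dt65 (x : ℝ) : dt65.val (fun p x => kcg.v p x) (9 / 25) (cT (9 / 25)) x = (347809 / 4000000 + (x - 83 / 100) * (4437 / 40000)) :=
  (DT.val_gt (by simp only [Cn.rt_v, Cn.ng_v]; norm_num)).trans (tb_dt49 x)
theorem ta_dt50 (x : ℝ) : dt50.val (fun p x => kcg.v p x) (9 / 25) (cT (9 / 25)) x = (347809 / 4000000 + (x - 83 / 100) * (4437 / 40000)) := by
  simp only [dt50, DT.val, sw50, sl50, sv50]
  ((try push_cast); ring1)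
theorem tb_dt50 (x : ℝ) : dt50.val (fun p x => kcg.v p x) (2 / 5) (cT (2 / 5)) x = (249721 / 4000000 + (x - 83 / 100) * (177 / 1600)) := by
  simp only [dt50, DT.val, sw50, sl50, sv50]
  ((try push_cast); ring1)
theorem ta_dt51 (x : ℝ) : dt51.val (fun p x => kcg.v p x) (2 / 5) (cT (2 / 5)) x = (249721 / 4000000 + (x - 83 / 100) * (177 / 1600)) := by
  simp only [dt51, DT.val, sw51, sl51, sv51]
  ((try push_cast); ring1)
theorem tb_dt51 (x : ℝ) : dt51.val (fun p x => kcg.v p x) (9 / 20) (cT (9 / 20)) x = (126703 / 4000000 + (x - 83 / 100) * (3987 / 80000)) := by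
  simp only [dt51, DT.val, sw51, sl51, sv51]
  ((try push_cast); ring1)
theorem ta_dt52 (x : ℝ) : dt52.val (fun p x => kcg.v p x) (9 / 20) (cT (9 / 20)) x = (126703 / 4000000 + (x - 83 / 100) * (3987 / 80000)) := by
  simp only [dt52, DT.val, sw52, sl52, sv52]
  ((try push_cast); ring1)
theorem tb_dt52 (x : ℝ) : dt52.val (fun p x => kcg.v p x) (1 / 2) (cT (1 / 2)) x = (0) := by
  simp only [dt52, DT.val, sw52, sl52, sv52]
  ((try push_cast); ring1)
theorem ta_dt66 (x : ℝ) : dt66.val (fun p x => kcg.v p x) (2 / 5) (cT (2 / 5)) x = (249721 / 4000000 + (x - 83 / 100) * (177 / 1600)) :=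
  (DT.val_le (by simp only [Cn.rt_v, Cn.ng_v]; norm_num)).trans (ta_dt51 x)
theorem tb_dt66 (x : ℝ) : dt66.val (fun p x => kcg.v p x) (1 / 2) (cT (1 / 2)) x = (0) :=
  (DT.val_gt (by simp only [Cn.rt_v, Cn.ng_v]; norm_num)).trans (tb_dt52 x)
theorem ta_dt67 (x : ℝ) : dt67.val (fun p x => kcg.v p x) (9 / 25) (cT (9 / 25)) x = (347809 / 4000000 + (x - 83 / 100) * (4437 / 40000)) :=
  (DT.val_le (by simp only [Cn.rt_v, Cn.ng_v]; norm_num)).trans (ta_dt50 x)
theorem tb_dt67 (x : ℝ) : dt67.val (fun p x => kcg.v p x) (1 / 2) (cT (1 / 2)) x = (0) :=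
  (DT.val_gt (by simp only [Cn.rt_v, Cn.ng_v]; norm_num)).trans (tb_dt66 x)
theorem ta_dt68 (x : ℝ) : dt68.val (fun p x => kcg.v p x) (563 / 2611) (3853 / 5222) x = (44430246380157741 / 340866050000000000 + (x - 83 / 100) * (483937961285997 / 4260825625000000) + (x - 83 / 100) ^ 2 * (2720662281 / 65275000000)) :=
  (DT.val_le (by simp only [Cn.rt_v, Cn.ng_v]; norm_num)).trans (ta_dt65 x)
theorem tb_dt68 (x : ℝ) : dt68.val (fun p x => kcg.v p x) (1 / 2) (cT (1 / 2)) x = (0) :=
  (DT.val_gt (by simp only [Cn.rt_v, Cn.ng_v]; norm_num)).trans (tb_dt67 x)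
theorem ta_dt69 (x : ℝ) : dt69.val (fun p x => kcg.v p x) (-3 / 20) (cT (-3 / 20)) x = (1094529 / 10000000 + (x - 83 / 100) * (10687 / 125000)) :=
  (DT.val_le (by simp only [Cn.rt_v, Cn.ng_v]; norm_num)).trans (ta_dt64 x)
theorem tb_dt69 (x : ℝ) : dt69.val (fun p x => kcg.v p x) (1 / 2) (cT (1 / 2)) x = (0) :=
  (DT.val_gt (by simp only [Cn.rt_v, Cn.ng_v]; norm_num)).trans (tb_dt68 x)
theorem ta_dt70 (x : ℝ) : dt70.val (fun p x => kcg.v p x) (-1 / 2) (cT (-1 / 2)) x = (0) :=
  (DT.val_le (by simp only [Cn.rt_v, Cn.ng_v]; norm_num)).trans (ta_dt60 x)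
theorem tb_dt70 (x : ℝ) : dt70.val (fun p x => kcg.v p x) (1 / 2) (cT (1 / 2)) x = (0) :=
  (DT.val_gt (by simp only [Cn.rt_v, Cn.ng_v]; norm_num)).trans (tb_dt69 x)
theorem to_dt34 (x : ℝ) : dt34.Ok (fun p x => kcg.v p x) x := trivial
theorem to_dt35 (x : ℝ) : dt35.Ok (fun p x => kcg.v p x) x := trivial
theorem to_dt53 (x : ℝ) : dt53.Ok (fun p x => kcg.v p x) x :=
  DT.ok_node (v := -9 / 20) (by simp only [Cn.rt_v, Cn.ng_v]; norm_num) (by rw [abs_le]; constructor <;> norm_num) rfl (tb_dt34 x) (ta_dt35 x) (by ring1) (to_dt34 x) (to_dt35 x)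
theorem to_dt36 (x : ℝ) : dt36.Ok (fun p x => kcg.v p x) x := trivial
theorem to_dt37 (x : ℝ) : dt37.Ok (fun p x => kcg.v p x) x := trivial
theorem to_dt54 (x : ℝ) : dt54.Ok (fun p x => kcg.v p x) x :=
  DT.ok_node (v := -39 / 100) (by simp only [Cn.rt_v, Cn.ng_v]; norm_num) (by rw [abs_le]; constructor <;> norm_num) rfl (tb_dt36 x) (ta_dt37 x) (by ring1) (to_dt36 x) (to_dt37 x)
theorem to_dt55 (x : ℝ) : dt55.Ok (fun p x => kcg.v p x) x :=
  DT.ok_node (v := -21 / 50) (by simp only [Cn.rt_v, Cn.ng_v]; norm_num) (by rw [abs_le]; constructor <;> norm_num) rfl (tb_dt53 x) (ta_dt54 x) (by ring1) (to_dt53 x) (to_dt54 x)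
theorem to_dt38 (x : ℝ) : dt38.Ok (fun p x => kcg.v p x) x := trivial
theorem to_dt39 (x : ℝ) : dt39.Ok (fun p x => kcg.v p x) x := trivial
theorem to_dt56 (x : ℝ) : dt56.Ok (fun p x => kcg.v p x) x :=
  DT.ok_node (v := -33 / 100) (by simp only [Cn.rt_v, Cn.ng_v]; norm_num) (by rw [abs_le]; constructor <;> norm_num) rfl (tb_dt38 x) (ta_dt39 x) (by ring1) (to_dt38 x) (to_dt39 x)
theorem to_dt40 (x : ℝ) : dt40.Ok (fun p x => kcg.v p x) x := trivial
theorem to_dt41 (x : ℝ) : dt41.Ok (fun p x => kcg.v p x) x := trivial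
theorem to_dt42 (x : ℝ) : dt42.Ok (fun p x => kcg.v p x) x := trivial
theorem to_dt57 (x : ℝ) : dt57.Ok (fun p x => kcg.v p x) x :=
  DT.ok_node (v := -1 / 5) (by simp only [Cn.rt_v, Cn.ng_v]; norm_num) (by rw [abs_le]; constructor <;> norm_num) rfl (tb_dt41 x) (ta_dt42 x) (by ring1) (to_dt41 x) (to_dt42 x)
theorem to_dt58 (x : ℝ) : dt58.Ok (fun p x => kcg.v p x) x :=
  DT.ok_node (v := -1 / 4) (by simp only [Cn.rt_v, Cn.ng_v]; norm_num) (by rw [abs_le]; constructor <;> norm_num) rfl (tb_dt40 x) (ta_dt57 x) (by ring1) (to_dt40 x) (to_dt57 x)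
theorem to_dt59 (x : ℝ) : dt59.Ok (fun p x => kcg.v p x) x :=
  DT.ok_node (v := -3 / 10) (by simp only [Cn.rt_v, Cn.ng_v]; norm_num) (by rw [abs_le]; constructor <;> norm_num) rfl (tb_dt56 x) (ta_dt58 x) (by ring1) (to_dt56 x) (to_dt58 x)
theorem to_dt60 (x : ℝ) : dt60.Ok (fun p x => kcg.v p x) x :=
  DT.ok_node (v := -9 / 25) (by simp only [Cn.rt_v, Cn.ng_v]; norm_num) (by rw [abs_le]; constructor <;> norm_num) rfl (tb_dt55 x) (ta_dt59 x) (by ring1) (to_dt55 x) (to_dt59 x)
theorem to_dt43 (x : ℝ) : dt43.Ok (fun p x => kcg.v p x) x := trivial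
theorem to_dt44 (x : ℝ) : dt44.Ok (fun p x => kcg.v p x) x := trivial
theorem to_dt61 (x : ℝ) : dt61.Ok (fun p x => kcg.v p x) x :=
  DT.ok_node (v := -1 / 10) (by simp only [Cn.rt_v, Cn.ng_v]; norm_num) (by rw [abs_le]; constructor <;> norm_num) rfl (tb_dt43 x) (ta_dt44 x) (by ring1) (to_dt43 x) (to_dt44 x)
theorem to_dt45 (x : ℝ) : dt45.Ok (fun p x => kcg.v p x) x := trivial
theorem to_dt46 (x : ℝ) : dt46.Ok (fun p x => kcg.v p x) x := trivial
theorem to_dt47 (x : ℝ) : dt47.Ok (fun p x => kcg.v p x) x := trivial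
theorem to_dt62 (x : ℝ) : dt62.Ok (fun p x => kcg.v p x) x :=
  DT.ok_node (v := 9 / 50) (by simp only [Cn.rt_v, Cn.ng_v]; norm_num) (by rw [abs_le]; constructor <;> norm_num) rfl (tb_dt46 x) (ta_dt47 x) (by ring1) (to_dt46 x) (to_dt47 x)
theorem to_dt63 (x : ℝ) : dt63.Ok (fun p x => kcg.v p x) x :=
  DT.ok_node (v := 7 / 50) (by simp only [Cn.rt_v, Cn.ng_v]; norm_num) (by rw [abs_le]; constructor <;> norm_num) rfl (tb_dt45 x) (ta_dt62 x) (by ring1) (to_dt45 x) (to_dt62 x)
theorem to_dt64 (x : ℝ) : dt64.Ok (fun p x => kcg.v p x) x :=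
  DT.ok_node (v := 1 / 10) (by simp only [Cn.rt_v, Cn.ng_v]; norm_num) (by rw [abs_le]; constructor <;> norm_num) rfl (tb_dt61 x) (ta_dt63 x) (by ring1) (to_dt61 x) (to_dt63 x)
theorem to_dt48 (x : ℝ) : dt48.Ok (fun p x => kcg.v p x) x := trivial
theorem to_dt49 (x : ℝ) : dt49.Ok (fun p x => kcg.v p x) x := trivial
theorem to_dt65 (x : ℝ) : dt65.Ok (fun p x => kcg.v p x) x :=
  DT.ok_node (v := 517 / 1531) (by simp only [Cn.rt_v, Cn.ng_v]; norm_num) (by rw [abs_le]; constructor <;> norm_num) ctB (tb_dt48 x) (ta_dt49 x) (by ring1) (to_dt48 x) (to_dt49 x)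
theorem to_dt50 (x : ℝ) : dt50.Ok (fun p x => kcg.v p x) x := trivial
theorem to_dt51 (x : ℝ) : dt51.Ok (fun p x => kcg.v p x) x := trivial
theorem to_dt52 (x : ℝ) : dt52.Ok (fun p x => kcg.v p x) x := trivial
theorem to_dt66 (x : ℝ) : dt66.Ok (fun p x => kcg.v p x) x :=
  DT.ok_node (v := 9 / 20) (by simp only [Cn.rt_v, Cn.ng_v]; norm_num) (by rw [abs_le]; constructor <;> norm_num) rfl (tb_dt51 x) (ta_dt52 x) (by ring1) (to_dt51 x) (to_dt52 x)
theorem to_dt67 (x : ℝ) : dt67.Ok (fun p x => kcg.v p x) x :=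
  DT.ok_node (v := 2 / 5) (by simp only [Cn.rt_v, Cn.ng_v]; norm_num) (by rw [abs_le]; constructor <;> norm_num) rfl (tb_dt50 x) (ta_dt66 x) (by ring1) (to_dt50 x) (to_dt66 x)
theorem to_dt68 (x : ℝ) : dt68.Ok (fun p x => kcg.v p x) x :=
  DT.ok_node (v := 9 / 25) (by simp only [Cn.rt_v, Cn.ng_v]; norm_num) (by rw [abs_le]; constructor <;> norm_num) rfl (tb_dt65 x) (ta_dt67 x) (by ring1) (to_dt65 x) (to_dt67 x)
theorem to_dt69 (x : ℝ) : dt69.Ok (fun p x => kcg.v p x) x :=
  DT.ok_node (v := 563 / 2611) (by simp only [Cn.rt_v, Cn.ng_v]; norm_num) (by rw [abs_le]; constructor <;> norm_num) ctA (tb_dt64 x) (ta_dt68 x) (by ring1) (to_dt64 x) (to_dt68 x)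
theorem to_dt70 (x : ℝ) : dt70.Ok (fun p x => kcg.v p x) x :=
  DT.ok_node (v := -3 / 20) (by simp only [Cn.rt_v, Cn.ng_v]; norm_num) (by rw [abs_le]; constructor <;> norm_num) rfl (tb_dt60 x) (ta_dt69 x) (by ring1) (to_dt60 x) (to_dt69 x)
theorem dok (x : ℝ) : dd.Ok x := ⟨ko_dt33 x, fun p h => kfe h, to_dt70 x⟩
theorem K0_ (x : ℝ) : ∀ q y, OnC (0 : Fin 5) q y → TightK (tyO q) q (fun p => dd.kf.v p x) (c1n y) y (tK 0 q y x) := by
  refine K0_of (R := fun q y => tK 0 q y x) (kc := fun p => kcg.v p x) ?_ ?_ ?_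
  · intro y h
    show tK 0 0 y x = _
    ·
      rw [← (atB00 h).K]
      show kf0q0.v y x = _
      simp only [kf0q0, kf0q0_9, kf0q0_12, c1g_v]
      ((try push_cast); (try simp only [mul_inv]); (try ring_nf))
  · intro y h
    show tK 0 1 y x = _
    ·
      rw [← (atB01 h).K]
      show kf0q1.v y x = _
      simp only [kf0q1, kf0q1_10, c1g_v]
      ((try push_cast); (try simp only [mul_inv]); (try ring_nf))
  · intro y h
    show tK 0 2 y x = _
    ·
      have ey := yag_v h.1.nonneg (h.2 rfl)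
      rw [← (atB02 h).K]
      show kfc02.v (c1n y) x = _
      simp only [kfc02, c1g_v, ey]
      ((try push_cast); (try simp only [mul_inv]); (try ring_nf))
theorem L0_ (x : ℝ) : ∀ q y, OnC (0 : Fin 5) q y → TightL (tyO q) (fun p c => dd.TX.val dd.kf.v p c x) (c1n y) y (tL 0 q y x) := by
  refine L0_of (R := fun q y => tL 0 q y x) (tx := fun p c => txg.v p c x) txe ?_ ?_ ?_
  · intro y h
    show tL 0 0 y x = _
    ·
      rw [← (atB00 h).L]
      show l0q0.v y x = _
      simp only [l0q0, c1g_v]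
      ((try push_cast); (try simp only [mul_inv]); (try ring_nf))
  · intro y h
    show tL 0 1 y x = _
    ·
      rw [← (atB01 h).L]
      show l0q1.v y x = _
      simp only [l0q1, c1g_v]
      ((try push_cast); (try simp only [mul_inv]); (try ring_nf))
  · intro y h
    show tL 0 2 y x = _
    ·
      have ey := yag_v h.1.nonneg (h.2 rfl)
      rw [← (atB02 h).L]
      show lc02.v (c1n y) x = _
      simp only [lc02, lc02_7, lc02_8, c1g_v, ey]
      ((try push_cast); (try simp only [mul_inv]); (try ring_nf))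
theorem Kn_ (x : ℝ) : ∀ q y, InQ q y → TightK (tyN q) q (fun p => dd.kf.v p x) (c3n y) y (tK (Fin.last 4) q y x) := by
  refine Kn_of (R := fun q y => tK 4 q y x) (kc := fun p => kcg.v p x) ?_ ?_ ?_ ?_
  · intro y h
    show tK 4 0 y x = _
    ·
      rw [← (atB40 (onc h (by decide))).K]
      show kf4q0.v y x = _
      simp only [kf4q0, c3g_v]
      ((try push_cast); (try simp only [mul_inv]); (try ring_nf))
  · intro y h
    show tK 4 1 y x = _
    ·
      rw [← (atB41 (onc h (by decide))).K]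
      show kf4q1.v y x = _
      simp only [kf4q1, c3g_v]
      ((try push_cast); (try simp only [mul_inv]); (try ring_nf))
  · intro y h
    show tK 4 2 y x = _
    ·
      rw [← (atB42 (onc h (by decide))).K]
      show kf4q2.v y x = _
      simp only [kf4q2, c3g_v]
      ((try push_cast); (try simp only [mul_inv]); (try ring_nf))
  · intro y h
    show tK 4 3 y x = _
    ·
      have ey := ycg_v h.nonneg h.le_two
      rw [← (atB43 (onc h (by decide))).K]
      show kfc43.v (c3n y) x = _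
      simp only [kfc43, c3g_v, ey]
      ((try push_cast); (try simp only [mul_inv]); (try ring_nf))
theorem Ln_ (x : ℝ) : ∀ q y, InQ q y → TightL (tyN q) (fun p c => dd.TX.val dd.kf.v p c x) (c3n y) y (tL (Fin.last 4) q y x) := by
  refine Ln_of (R := fun q y => tL 4 q y x) (tx := fun p c => txg.v p c x) txe ?_ ?_ ?_ ?_
  · intro y h
    show tL 4 0 y x = _
    ·
      rw [← (atB40 (onc h (by decide))).L]
      show l4q0.v y x = _
      simp only [l4q0, l4q0_6, l4q0_7, l4q0_8, c3g_v]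
      ((try push_cast); (try simp only [mul_inv]); (try ring_nf))
  · intro y h
    show tL 4 1 y x = _
    ·
      rw [← (atB41 (onc h (by decide))).L]
      show l4q1.v y x = _
      simp only [l4q1, l4q1_7, l4q1_8, l4q1_9, c3g_v]
      ((try push_cast); (try simp only [mul_inv]); (try ring_nf))
  · intro y h
    show tL 4 2 y x = _
    ·
      rw [← (atB42 (onc h (by decide))).L]
      show l4q2.v y x = _
      simp only [l4q2, l4q2_7, l4q2_8, l4q2_9, l4q2_12, l4q2_14, c3g_v]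
      ((try push_cast); (try simp only [mul_inv]); (try ring_nf))
  · intro y h
    show tL 4 3 y x = _
    ·
      have ey := ycg_v h.nonneg h.le_two
      rw [← (atB43 (onc h (by decide))).L]
      show lc43.v (c3n y) x = _
      simp only [lc43, lc43_7, lc43_8, lc43_9, lc43_12, lc43_14, c3g_v, ey]
      ((try push_cast); (try simp only [mul_inv]); (try ring_nf))
theorem f0_ : ∀ q y, InQ q y → (ff q).f.v y = crv PP 1 q y
  | 0, y, _ => ecv1q0.symm
  | 1, y, _ => ecv1q1.symm
  | 2, y, _ => ecv1q2.symm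
  | 3, y, h => (ecv1q3 h.1).symm
theorem fn_ : ∀ q y, InQ q y → (fl q).f.v y = crv PP 3 q y
  | 0, y, _ => ecv3q0.symm
  | 1, y, _ => ecv3q1.symm
  | 2, y, _ => ecv3q2.symm
  | 3, y, h => (ecv3q3 h.1).symm
theorem yK00 {y x : ℝ} (h : OnC (0 : Fin 5) 0 y) : tK 0 0 y x = kf0q0.v y x := (atB00 h).K.symm
theorem yK10 {y x : ℝ} (h : InQ 0 y) : tK 1 0 y x = kf1q0.v y x := (atB10 (onc h (by decide))).K.symm
theorem yK01 {y x : ℝ} (h : OnC (0 : Fin 5) 1 y) : tK 0 1 y x = kf0q1.v y x := (atB01 h).K.symm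
theorem yK11 {y x : ℝ} (h : InQ 1 y) : tK 1 1 y x = kf1q1.v y x := (atB11 (onc h (by decide))).K.symm
theorem yK02 {y x : ℝ} (h : OnC (0 : Fin 5) 2 y) : tK 0 2 y x = kf0q2.v y x := by
  rw [← (atB02 h).K]
  show kfc02.v (c1n y) x = _
  have ey := yag_v h.1.nonneg (h.2 rfl)
  simp only [kfc02, kf0q2, ey, c1g_v, c3g_v, swg_v]
  ((try push_cast); (try ring_nf))
theorem yK12 {y x : ℝ} (h : InQ 2 y) : tK 1 2 y x = kf1q2.v y x := (atB12 (onc h (by decide))).K.symm
theorem yK40 {y x : ℝ} (h : InQ 0 y) : tK 4 0 y x = kf4q0.v y x := (atB40 (onc h (by decide))).K.symm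
theorem yK30 {y x : ℝ} (h : InQ 0 y) : tK 3 0 y x = kf3q0.v y x := (atB30 (onc h (by decide))).K.symm
theorem yK41 {y x : ℝ} (h : InQ 1 y) : tK 4 1 y x = kf4q1.v y x := (atB41 (onc h (by decide))).K.symm
theorem yK31 {y x : ℝ} (h : InQ 1 y) : tK 3 1 y x = kf3q1.v y x := (atB31 (onc h (by decide))).K.symm
theorem yK42 {y x : ℝ} (h : InQ 2 y) : tK 4 2 y x = kf4q2.v y x := (atB42 (onc h (by decide))).K.symm
theorem yK32 {y x : ℝ} (h : InQ 2 y) : tK 3 2 y x = kf3q2.v y x := (atB32 (onc h (by decide))).K.symm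
theorem yK43 {y x : ℝ} (h : InQ 3 y) : tK 4 3 y x = kf4q3.v y x := by
  rw [← (atB43 (onc h (by decide))).K]
  show kfc43.v (c3n y) x = _
  have ey := ycg_v h.nonneg h.le_two
  simp only [kfc43, kf4q3, ey, c1g_v, c3g_v, swg_v]
  ((try push_cast); (try ring_nf))
theorem yK33 {y x : ℝ} (h : InQ 3 y) : tK 3 3 y x = kf3q3.v y x := by
  rw [← (atB33 (onc h (by decide))).K]
  show kfc33.v (c3n y) x = _
  have ey := ycg_v h.nonneg h.le_two
  simp only [kfc33, kfc33_11, kfc33_17, kf3q3, kf3q3_4, kf3q3_11, cv3r, ey, c1g_v, c3g_v, swg_v]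
  ((try push_cast); (try ring_nf))
theorem yL00 {y x : ℝ} (h : OnC (0 : Fin 5) 0 y) : tL 0 0 y x = l0q0.v y x := (atB00 h).L.symm
theorem yL10 {y x : ℝ} (h : InQ 0 y) : tL 1 0 y x = l1q0.v y x := (atB10 (onc h (by decide))).L.symm
theorem yL01 {y x : ℝ} (h : OnC (0 : Fin 5) 1 y) : tL 0 1 y x = l0q1.v y x := (atB01 h).L.symm
theorem yL11 {y x : ℝ} (h : InQ 1 y) : tL 1 1 y x = l1q1.v y x := (atB11 (onc h (by decide))).L.symm
theorem yL02 {y x : ℝ} (h : OnC (0 : Fin 5) 2 y) : tL 0 2 y x = l0q2.v y x := by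
  rw [← (atB02 h).L]
  show lc02.v (c1n y) x = _
  have ey := yag_v h.1.nonneg (h.2 rfl)
  simp only [lc02, lc02_7, lc02_8, l0q2, l0q2_7, l0q2_8, ey, c1g_v, c3g_v, swg_v]
  ((try push_cast); (try ring_nf))
theorem yL12 {y x : ℝ} (h : InQ 2 y) : tL 1 2 y x = l1q2.v y x := (atB12 (onc h (by decide))).L.symm
theorem yL40 {y x : ℝ} (h : InQ 0 y) : tL 4 0 y x = l4q0.v y x := (atB40 (onc h (by decide))).L.symm
theorem yL30 {y x : ℝ} (h : InQ 0 y) : tL 3 0 y x = l3q0.v y x := (atB30 (onc h (by decide))).L.symm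
theorem yL41 {y x : ℝ} (h : InQ 1 y) : tL 4 1 y x = l4q1.v y x := (atB41 (onc h (by decide))).L.symm
theorem yL31 {y x : ℝ} (h : InQ 1 y) : tL 3 1 y x = l3q1.v y x := (atB31 (onc h (by decide))).L.symm
theorem yL42 {y x : ℝ} (h : InQ 2 y) : tL 4 2 y x = l4q2.v y x := (atB42 (onc h (by decide))).L.symm
theorem yL32 {y x : ℝ} (h : InQ 2 y) : tL 3 2 y x = l3q2.v y x := (atB32 (onc h (by decide))).L.symm
theorem yL43 {y x : ℝ} (h : InQ 3 y) : tL 4 3 y x = l4q3.v y x := by
  rw [← (atB43 (onc h (by decide))).L]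
  show lc43.v (c3n y) x = _
  have ey := ycg_v h.nonneg h.le_two
  simp only [lc43, lc43_7, lc43_8, lc43_9, lc43_12, lc43_14, l4q3, l4q3_7, l4q3_8, l4q3_9, l4q3_12, l4q3_14, ey, c1g_v, c3g_v, swg_v]
  ((try push_cast); (try ring_nf))
theorem yL33 {y x : ℝ} (h : InQ 3 y) : tL 3 3 y x = l3q3.v y x := by
  rw [← (atB33 (onc h (by decide))).L]
  show lc33.v (c3n y) x = _
  have ey := ycg_v h.nonneg h.le_two
  simp only [lc33, lc33_11, l3q3, l3q3_4, cv3r, ey, c1g_v, c3g_v, swg_v]
  ((try push_cast); (try ring_nf))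
theorem sK0_ (x : ℝ) : ∀ q y, OnC (0 : Fin 5) q y → c1n y < crv PP 1 q y →
    (ff q).SK.v y x * (crv PP 1 q y - c1n y) = tK 1 q y x - tK 0 q y x := by
  intro q y h hlt
  rcases onC_q h with rfl | rfl | rfl
  · rw [yK10 h.1, yK00 h]
    rw [ecv1q0, ← c1g_v] at hlt ⊢
    have hd : 0 < cv1m.v y - c1g.v y := sub_pos.2 hlt
    have hi := inv_mul_cancel₀ hd.ne'
    show skf0.v y x * _ = _
    simp only [skf0, kf1q0]
    (try push_cast)
    linear_combination (c1g.v y * bf1q0.v y x - kf0q0.v y x) * hi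
  · rw [yK11 h.1, yK01 h]
    rw [ecv1q1, ← c1g_v] at hlt ⊢
    have hd : 0 < cv1m.v y - c1g.v y := sub_pos.2 hlt
    have hi := inv_mul_cancel₀ hd.ne'
    show skf1.v y x * _ = _
    simp only [skf1, kf1q1]
    (try push_cast)
    linear_combination (c1g.v y * bf1q1.v y x - kf0q1.v y x) * hi
  · rw [yK12 h.1, yK02 h]
    rw [ecv1q2, ← c1g_v] at hlt ⊢
    have hd : 0 < cv1p.v y - c1g.v y := sub_pos.2 hlt
    have hi := inv_mul_cancel₀ hd.ne'
    have hb : |c1g.v y| ≤ 1 / 2 := by rw [c1g_v]; exact bnd_O h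
    have eo := odd (x := x) hb
    show skf2.v y x * _ = _
    simp only [skf2, kf1q2, kf0q2, eo]
    (try push_cast)
    linear_combination (c1g.v y * (bf1q2.v y x - 1) + (y - 1) * kcg.v (c1g.v y) x) * hi
theorem sX0_ (x : ℝ) : ∀ q y, OnC (0 : Fin 5) q y → c1n y < crv PP 1 q y →
    (ff q).SX.v y x * (crv PP 1 q y - c1n y) = tL 1 q y x - tL 0 q y x := by
  intro q y h hlt
  rcases onC_q h with rfl | rfl | rfl
  · rw [yL10 h.1, yL00 h]
    rw [ecv1q0, ← c1g_v] at hlt ⊢
    have hd : 0 < cv1m.v y - c1g.v y := sub_pos.2 hlt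
    have hi := inv_mul_cancel₀ hd.ne'
    show sxf0.v y x * _ = _
    simp only [sxf0]
    (try push_cast)
    linear_combination (l1q0.v y x - l0q0.v y x) * hi
  · rw [yL11 h.1, yL01 h]
    rw [ecv1q1, ← c1g_v] at hlt ⊢
    have hd : 0 < cv1m.v y - c1g.v y := sub_pos.2 hlt
    have hi := inv_mul_cancel₀ hd.ne'
    show sxf1.v y x * _ = _
    simp only [sxf1]
    (try push_cast)
    linear_combination (l1q1.v y x - l0q1.v y x) * hi
  · rw [yL12 h.1, yL02 h]
    rw [ecv1q2, ← c1g_v] at hlt ⊢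
    have hd : 0 < cv1p.v y - c1g.v y := sub_pos.2 hlt
    have hi := inv_mul_cancel₀ hd.ne'
    show sxf2.v y x * _ = _
    simp only [sxf2]
    (try push_cast)
    linear_combination (l1q2.v y x - l0q2.v y x) * hi
theorem sKn_ (x : ℝ) : ∀ q y, InQ q y → crv PP 3 q y < c3n y →
    (fl q).SK.v y x * (c3n y - crv PP 3 q y) = tK 4 q y x - tK 3 q y x := by
  intro q y h hlt
  match q, h with
  | 0, h =>
    rw [yK40 h, yK30 h]
    rw [ecv3q0, ← c3g_v] at hlt ⊢
    have hd : 0 < c3g.v y - cv3m.v y := sub_pos.2 hlt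
    have hi := inv_mul_cancel₀ hd.ne'
    show skl0.v y x * _ = _
    simp only [skl0, kf3q0]
    (try push_cast)
    linear_combination (kf4q0.v y x - c3g.v y * bf3q0.v y x) * hi
  | 1, h =>
    rw [yK41 h, yK31 h]
    rw [ecv3q1, ← c3g_v] at hlt ⊢
    have hd : 0 < c3g.v y - cv3m.v y := sub_pos.2 hlt
    have hi := inv_mul_cancel₀ hd.ne'
    show skl1.v y x * _ = _
    simp only [skl1, kf3q1]
    (try push_cast)
    linear_combination (kf4q1.v y x - c3g.v y * bf3q1.v y x) * hi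
  | 2, h =>
    rw [yK42 h, yK32 h]
    rw [ecv3q2, ← c3g_v] at hlt ⊢
    have hd : 0 < c3g.v y - cv3p.v y := sub_pos.2 hlt
    have hi := inv_mul_cancel₀ hd.ne'
    show skl2.v y x * _ = _
    simp only [skl2, kf3q2]
    (try push_cast)
    linear_combination (kf4q2.v y x - c3g.v y * bf3q2.v y x) * hi
  | 3, h =>
    rw [yK43 h, yK33 h]
    rw [ecv3q3 h.1, ← c3g_v] at hlt ⊢
    have hd : 0 < c3g.v y - cv3r.v y := sub_pos.2 hlt
    have hi := inv_mul_cancel₀ hd.ne'
    have hB : kf3q3.v y x = cv3r.v y * bf3q3.v y x := by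
      simp only [kf3q3, kf3q3_4, kf3q3_11, bf3q3, bf3q3_3, bf3q3_10]
    show skl3.v y x * _ = _
    simp only [skl3, hB]
    (try push_cast)
    linear_combination (kf4q3.v y x - c3g.v y * bf3q3.v y x) * hi
theorem sXn_ (x : ℝ) : ∀ q y, InQ q y → crv PP 3 q y < c3n y →
    (fl q).SX.v y x * (c3n y - crv PP 3 q y) = tL 4 q y x - tL 3 q y x := by
  intro q y h hlt
  match q, h with
  | 0, h =>
    rw [yL40 h, yL30 h]
    rw [ecv3q0, ← c3g_v] at hlt ⊢
    have hd : 0 < c3g.v y - cv3m.v y := sub_pos.2 hlt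
    have hi := inv_mul_cancel₀ hd.ne'
    show sxl0.v y x * _ = _
    simp only [sxl0]
    (try push_cast)
    linear_combination (l4q0.v y x - l3q0.v y x) * hi
  | 1, h =>
    rw [yL41 h, yL31 h]
    rw [ecv3q1, ← c3g_v] at hlt ⊢
    have hd : 0 < c3g.v y - cv3m.v y := sub_pos.2 hlt
    have hi := inv_mul_cancel₀ hd.ne'
    show sxl1.v y x * _ = _
    simp only [sxl1]
    (try push_cast)
    linear_combination (l4q1.v y x - l3q1.v y x) * hi
  | 2, h =>
    rw [yL42 h, yL32 h]
    rw [ecv3q2, ← c3g_v] at hlt ⊢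
    have hd : 0 < c3g.v y - cv3p.v y := sub_pos.2 hlt
    have hi := inv_mul_cancel₀ hd.ne'
    show sxl2.v y x * _ = _
    simp only [sxl2]
    (try push_cast)
    linear_combination (l4q2.v y x - l3q2.v y x) * hi
  | 3, h =>
    rw [yL43 h, yL33 h]
    rw [ecv3q3 h.1, ← c3g_v] at hlt ⊢
    have hd : 0 < c3g.v y - cv3r.v y := sub_pos.2 hlt
    have hi := inv_mul_cancel₀ hd.ne'
    show sxl3.v y x * _ = _
    simp only [sxl3]
    (try push_cast)
    linear_combination (l4q3.v y x - l3q3.v y x) * hi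
theorem kn_ (x : ℝ) : ∀ X, |X| ≤ vv.k1.v → kcg.v (-X) x = -(k0c.v x * X) := by
  intro X h
  have h : |X| ≤ 2 / 25 := by
    refine h.trans_eq ?_
    show (Cn.rt 2 25).v = _
    rw [Cn.rt_v]
    norm_num
  obtain ⟨h1, h2⟩ := abs_le.1 h
  rw [kcl8 (p := -X) (by linarith) (by linarith)]
  simp only [k0c]
  push_cast
  ring
theorem tvm {p c x : ℝ} (h1 : -1 / 10 ≤ p) (h2 : p ≤ 1 / 10) : dt70.val (fun p x => kcg.v p x) p c x = (2738373 / 20000000 + (x - 83 / 100) * (23293 / 500000)) + (4329 / 50000 + (x - 83 / 100) * (41 / 625)) * p + (-709 / 1000 + (x - 83 / 100) * (351 / 100)) * p ^ 2 := by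
  rcases eq_or_lt_of_le h1 with h | h1
  · subst h
    refine (DT.val_gt (by simp only [Cn.rt_v, Cn.ng_v]; push_cast; linarith)).trans ?_
    refine (DT.val_le (by simp only [Cn.rt_v, Cn.ng_v]; push_cast; linarith)).trans ?_
    refine (DT.val_le (by simp only [Cn.rt_v, Cn.ng_v]; push_cast; linarith)).trans ?_
    refine (DT.val_le (by simp only [Cn.rt_v, Cn.ng_v]; push_cast; linarith)).trans ?_
    simp only [dt43, DT.val, sw43, sl43, sv43]
    ((try push_cast); ring1)
  ·
    refine (DT.val_gt (by simp only [Cn.rt_v, Cn.ng_v]; push_cast; linarith)).trans ?_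
    refine (DT.val_le (by simp only [Cn.rt_v, Cn.ng_v]; push_cast; linarith)).trans ?_
    refine (DT.val_le (by simp only [Cn.rt_v, Cn.ng_v]; push_cast; linarith)).trans ?_
    refine (DT.val_gt (by simp only [Cn.rt_v, Cn.ng_v]; push_cast; linarith)).trans ?_
    simp only [dt44, DT.val, sw44, sl44, sv44]
    ((try push_cast); ring1)
theorem tn_ (x : ℝ) : ∀ X, |X| ≤ vv.k1.v → dd.tF x (-X) - dd.tF x X = m0c.v x * X := by
  intro X h
  have h : |X| ≤ 2 / 25 := by
    refine h.trans_eq ?_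
    show (Cn.rt 2 25).v = _
    rw [Cn.rt_v]
    norm_num
  obtain ⟨h1, h2⟩ := abs_le.1 h
  show dt70.val (fun p x => kcg.v p x) (-X) (cT (-X)) x - dt70.val (fun p x => kcg.v p x) X (cT X) x = _
  rw [tvm (by linarith) (by linarith), tvm (by linarith) (by linarith)]
  simp only [m0c]
  push_cast
  ring
theorem vK_ (x : ℝ) : ∀ y, InQ 2 y → tK 1 2 y x = crv PP 1 2 y * bf1q2.v y x := by
  intro y h
  rw [yK12 h, ecv1q2]
  simp only [kf1q2]
theorem vX_ (x : ℝ) : ∀ y, InQ 2 y → tL 1 2 y x = crv PP 1 2 y * bx1q2.v y x := by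
  intro y h
  rw [yL12 h, ecv1q2]
  simp only [l1q2]
theorem n0_rK (y x : ℝ) : n0b.v y x = (1 - (y - 1) * k0c.v x) := by
  simp only [n0b, k0c]
  all_goals (try push_cast)
  all_goals (try ring)
theorem rK_ (x : ℝ) : ∀ y, OnC (0 : Fin 5) 2 y → c1n y < crv PP 1 2 y →
    rhk.v y x * (crv PP 1 2 y - c1n y) = crv PP 1 2 y * (bf1q2.v y x - (1 - (y - 1) * k0c.v x)) := by
  intro y h hlt
  rw [ecv1q2, ← c1g_v] at hlt ⊢
  have hd : 0 < cv1p.v y - c1g.v y := sub_pos.2 hlt
  have hi := inv_mul_cancel₀ hd.ne'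
  rw [← n0_rK]
  simp only [rhk]
  linear_combination ((bf1q2.v y x - n0b.v y x) * cv1p.v y) * hi
theorem n0_rX (y x : ℝ) : n0x.v y x = m0c.v x := by
  simp only [n0x, m0c]
  all_goals (try push_cast)
  all_goals (try ring)
theorem rX_ (x : ℝ) : ∀ y, OnC (0 : Fin 5) 2 y → c1n y < crv PP 1 2 y →
    rhx.v y x * (crv PP 1 2 y - c1n y) = crv PP 1 2 y * (bx1q2.v y x - m0c.v x) := by
  intro y h hlt
  rw [ecv1q2, ← c1g_v] at hlt ⊢
  have hd : 0 < cv1p.v y - c1g.v y := sub_pos.2 hlt
  have hi := inv_mul_cancel₀ hd.ne'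
  rw [← n0_rX]
  simp only [rhx]
  linear_combination ((bx1q2.v y x - n0x.v y x) * cv1p.v y) * hi
theorem flat_ (x : ℝ) : ∀ y, InQ 2 y → vv.ya.v ≤ y → y ≤ vv.yb.v → bf1q2.v y x = 1 - (y - 1) * k0c.v x ∧ bx1q2.v y x = m0c.v x := by
  intro y h h1 h2
  have ea : vv.ya.v = 577 / 500 := by
    show (Cn.rt 577 500).v = _
    rw [Cn.rt_v]
    norm_num
  have eb : vv.yb.v = 231 / 200 := by
    show (Cn.rt 231 200).v = _
    rw [Cn.rt_v]
    norm_num
  rw [ea] at h1
  rw [eb] at h2
  constructor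
  · simp only [bf1q2, bf1q2_3, k0c]
    rcases eq_or_lt_of_le h1 with g | h1
    · subst g
      ((try push_cast); (repeat first | rw [if_pos (by linarith)] | rw [if_neg (by linarith)] | erw [if_pos (by linarith)] | erw [if_neg (by linarith)]); (try push_cast); (try ring1))
    rcases eq_or_lt_of_le h2 with g | h2
    · subst g
      ((try push_cast); (repeat first | rw [if_pos (by linarith)] | rw [if_neg (by linarith)] | erw [if_pos (by linarith)] | erw [if_neg (by linarith)]); (try push_cast); (try ring1))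
    · ((try push_cast); (repeat first | rw [if_pos (by linarith)] | rw [if_neg (by linarith)] | erw [if_pos (by linarith)] | erw [if_neg (by linarith)]); (try push_cast); (try ring1))
  · simp only [bx1q2, bx1q2_3, m0c]
    rcases eq_or_lt_of_le h1 with g | h1
    · subst g
      ((try push_cast); (repeat first | rw [if_pos (by linarith)] | rw [if_neg (by linarith)] | erw [if_pos (by linarith)] | erw [if_neg (by linarith)]); (try push_cast); (try ring1))
    rcases eq_or_lt_of_le h2 with g | h2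
    · subst g
      ((try push_cast); (repeat first | rw [if_pos (by linarith)] | rw [if_neg (by linarith)] | erw [if_pos (by linarith)] | erw [if_neg (by linarith)]); (try push_cast); (try ring1))
    · ((try push_cast); (repeat first | rw [if_pos (by linarith)] | rw [if_neg (by linarith)] | erw [if_pos (by linarith)] | erw [if_neg (by linarith)]); (try push_cast); (try ring1))
theorem abk_ (x : ℝ) : ∀ y, InQ 2 y → vv.yb.v ≤ y → y ≤ vv.yk.v → bf1q2.v y x = 1 - (y - 1) * k0c.v x + sbk.v x * (y - vv.yb.v) ∧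
    bx1q2.v y x = m0c.v x + sbx.v x * (y - vv.yb.v) := by
  intro y h h1 h2
  have eb : vv.yb.v = 231 / 200 := by
    show (Cn.rt 231 200).v = _
    rw [Cn.rt_v]
    norm_num
  have ek : vv.yk.v = 1213 / 1000 := by
    show (Cn.rt 1213 1000).v = _
    rw [Cn.rt_v]
    norm_num
  rw [eb] at h1 ⊢
  rw [ek] at h2
  constructor
  · simp only [bf1q2, bf1q2_3, k0c, sbk]
    rcases eq_or_lt_of_le h1 with g | h1
    · subst g
      ((try push_cast); (repeat first | rw [if_pos (by linarith)] | rw [if_neg (by linarith)] | erw [if_pos (by linarith)] | erw [if_neg (by linarith)]); (try push_cast); (try ring1))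
    rcases eq_or_lt_of_le h2 with g | h2
    · subst g
      ((try push_cast); (repeat first | rw [if_pos (by linarith)] | rw [if_neg (by linarith)] | erw [if_pos (by linarith)] | erw [if_neg (by linarith)]); (try push_cast); (try ring1))
    · ((try push_cast); (repeat first | rw [if_pos (by linarith)] | rw [if_neg (by linarith)] | erw [if_pos (by linarith)] | erw [if_neg (by linarith)]); (try push_cast); (try ring1))
  · simp only [bx1q2, bx1q2_3, m0c, sbx]
    rcases eq_or_lt_of_le h1 with g | h1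
    · subst g
      ((try push_cast); (repeat first | rw [if_pos (by linarith)] | rw [if_neg (by linarith)] | erw [if_pos (by linarith)] | erw [if_neg (by linarith)]); (try push_cast); (try ring1))
    rcases eq_or_lt_of_le h2 with g | h2
    · subst g
      ((try push_cast); (repeat first | rw [if_pos (by linarith)] | rw [if_neg (by linarith)] | erw [if_pos (by linarith)] | erw [if_neg (by linarith)]); (try push_cast); (try ring1))
    · ((try push_cast); (repeat first | rw [if_pos (by linarith)] | rw [if_neg (by linarith)] | erw [if_pos (by linarith)] | erw [if_neg (by linarith)]); (try push_cast); (try ring1))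
theorem ka_dt71 (x : ℝ) : dt71.kv (-9 / 50) x = (991 / 1250000 + (x - 83 / 100) * (9017 / 1000000)) := by
  simp only [dt71, DT.kv, sw71, sl71, sv71]
  ((try push_cast); ring1)
theorem kb_dt71 (x : ℝ) : dt71.kv (-3 / 20) x = (71 / 100000 + (x - 83 / 100) * (3127 / 500000)) := by
  simp only [dt71, DT.kv, sw71, sl71, sv71]
  ((try push_cast); ring1)
theorem ka_dt72 (x : ℝ) : dt72.kv (-3 / 20) x = (71 / 100000 + (x - 83 / 100) * (3127 / 500000)) := by
  simp only [dt72, DT.kv, sw72, sl72, sv72]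
  ((try push_cast); ring1)
theorem kb_dt72 (x : ℝ) : dt72.kv (-7 / 50) x = (629 / 1250000 + (x - 83 / 100) * (491 / 125000)) := by
  simp only [dt72, DT.kv, sw72, sl72, sv72]
  ((try push_cast); ring1)
theorem ka_dt73 (x : ℝ) : dt73.kv (-7 / 50) x = (629 / 1250000 + (x - 83 / 100) * (491 / 125000)) := by
  simp only [dt73, DT.kv, sw73, sl73, sv73]
  ((try push_cast); ring1)
theorem kb_dt73 (x : ℝ) : dt73.kv (-1 / 10) x = (0) := by
  simp only [dt73, DT.kv, sw73, sl73, sv73]
  ((try push_cast); ring1)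
theorem ka_dt78 (x : ℝ) : dt78.kv (-3 / 20) x = (71 / 100000 + (x - 83 / 100) * (3127 / 500000)) :=
  (DT.kv_le (by simp only [Cn.rt_v, Cn.ng_v]; norm_num)).trans (ka_dt72 x)
theorem kb_dt78 (x : ℝ) : dt78.kv (-1 / 10) x = (0) :=
  (DT.kv_gt (by simp only [Cn.rt_v, Cn.ng_v]; norm_num)).trans (kb_dt73 x)
theorem ka_dt79 (x : ℝ) : dt79.kv (-9 / 50) x = (991 / 1250000 + (x - 83 / 100) * (9017 / 1000000)) :=
  (DT.kv_le (by simp only [Cn.rt_v, Cn.ng_v]; norm_num)).trans (ka_dt71 x)
theorem kb_dt79 (x : ℝ) : dt79.kv (-1 / 10) x = (0) :=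
  (DT.kv_gt (by simp only [Cn.rt_v, Cn.ng_v]; norm_num)).trans (kb_dt78 x)
theorem ka_dt74 (x : ℝ) : dt74.kv (-1 / 10) x = (0) := by
  simp only [dt74, DT.kv, sl74, sv74]
  ((try push_cast); ring1)
theorem kb_dt74 (x : ℝ) : dt74.kv (1 / 10) x = (0) := by
  simp only [dt74, DT.kv, sl74, sv74]
  ((try push_cast); ring1)
theorem ka_dt75 (x : ℝ) : dt75.kv (1 / 10) x = (0) := by
  simp only [dt75, DT.kv, sw75, sl75, sv75]
  ((try push_cast); ring1)
theorem kb_dt75 (x : ℝ) : dt75.kv (7 / 50) x = (-629 / 1250000 + (x - 83 / 100) * (-491 / 125000)) := by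
  simp only [dt75, DT.kv, sw75, sl75, sv75]
  ((try push_cast); ring1)
theorem ka_dt80 (x : ℝ) : dt80.kv (-1 / 10) x = (0) :=
  (DT.kv_le (by simp only [Cn.rt_v, Cn.ng_v]; norm_num)).trans (ka_dt74 x)
theorem kb_dt80 (x : ℝ) : dt80.kv (7 / 50) x = (-629 / 1250000 + (x - 83 / 100) * (-491 / 125000)) :=
  (DT.kv_gt (by simp only [Cn.rt_v, Cn.ng_v]; norm_num)).trans (kb_dt75 x)
theorem ka_dt76 (x : ℝ) : dt76.kv (7 / 50) x = (-629 / 1250000 + (x - 83 / 100) * (-491 / 125000)) := by
  simp only [dt76, DT.kv, sw76, sl76, sv76]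
  ((try push_cast); ring1)
theorem kb_dt76 (x : ℝ) : dt76.kv (3 / 20) x = (-71 / 100000 + (x - 83 / 100) * (-3127 / 500000)) := by
  simp only [dt76, DT.kv, sw76, sl76, sv76]
  ((try push_cast); ring1)
theorem ka_dt77 (x : ℝ) : dt77.kv (3 / 20) x = (-71 / 100000 + (x - 83 / 100) * (-3127 / 500000)) := by
  simp only [dt77, DT.kv, sw77, sl77, sv77]
  ((try push_cast); ring1)
theorem kb_dt77 (x : ℝ) : dt77.kv (9 / 50) x = (-991 / 1250000 + (x - 83 / 100) * (-9017 / 1000000)) := by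
  simp only [dt77, DT.kv, sw77, sl77, sv77]
  ((try push_cast); ring1)
theorem ka_dt81 (x : ℝ) : dt81.kv (7 / 50) x = (-629 / 1250000 + (x - 83 / 100) * (-491 / 125000)) :=
  (DT.kv_le (by simp only [Cn.rt_v, Cn.ng_v]; norm_num)).trans (ka_dt76 x)
theorem kb_dt81 (x : ℝ) : dt81.kv (9 / 50) x = (-991 / 1250000 + (x - 83 / 100) * (-9017 / 1000000)) :=
  (DT.kv_gt (by simp only [Cn.rt_v, Cn.ng_v]; norm_num)).trans (kb_dt77 x)
theorem ka_dt82 (x : ℝ) : dt82.kv (-1 / 10) x = (0) :=
  (DT.kv_le (by simp only [Cn.rt_v, Cn.ng_v]; norm_num)).trans (ka_dt80 x)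
theorem kb_dt82 (x : ℝ) : dt82.kv (9 / 50) x = (-991 / 1250000 + (x - 83 / 100) * (-9017 / 1000000)) :=
  (DT.kv_gt (by simp only [Cn.rt_v, Cn.ng_v]; norm_num)).trans (kb_dt81 x)
theorem ka_dt83 (x : ℝ) : dt83.kv (-9 / 50) x = (991 / 1250000 + (x - 83 / 100) * (9017 / 1000000)) :=
  (DT.kv_le (by simp only [Cn.rt_v, Cn.ng_v]; norm_num)).trans (ka_dt79 x)
theorem kb_dt83 (x : ℝ) : dt83.kv (9 / 50) x = (-991 / 1250000 + (x - 83 / 100) * (-9017 / 1000000)) :=
  (DT.kv_gt (by simp only [Cn.rt_v, Cn.ng_v]; norm_num)).trans (kb_dt82 x)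
theorem ko_dt71 (x : ℝ) : dt71.KOk x := trivial
theorem ko_dt72 (x : ℝ) : dt72.KOk x := trivial
theorem ko_dt73 (x : ℝ) : dt73.KOk x := trivial
theorem ko_dt78 (x : ℝ) : dt78.KOk x :=
  DT.kOk_node (v := -7 / 50) (by simp only [Cn.rt_v, Cn.ng_v]; norm_num) (kb_dt72 x) (ka_dt73 x) (by ring1) (ko_dt72 x) (ko_dt73 x)
theorem ko_dt79 (x : ℝ) : dt79.KOk x :=
  DT.kOk_node (v := -3 / 20) (by simp only [Cn.rt_v, Cn.ng_v]; norm_num) (kb_dt71 x) (ka_dt78 x) (by ring1) (ko_dt71 x) (ko_dt78 x)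
theorem ko_dt74 (x : ℝ) : dt74.KOk x := trivial
theorem ko_dt75 (x : ℝ) : dt75.KOk x := trivial
theorem ko_dt80 (x : ℝ) : dt80.KOk x :=
  DT.kOk_node (v := 1 / 10) (by simp only [Cn.rt_v, Cn.ng_v]; norm_num) (kb_dt74 x) (ka_dt75 x) (by ring1) (ko_dt74 x) (ko_dt75 x)
theorem ko_dt76 (x : ℝ) : dt76.KOk x := trivial
theorem ko_dt77 (x : ℝ) : dt77.KOk x := trivial
theorem ko_dt81 (x : ℝ) : dt81.KOk x :=
  DT.kOk_node (v := 3 / 20) (by simp only [Cn.rt_v, Cn.ng_v]; norm_num) (kb_dt76 x) (ka_dt77 x) (by ring1) (ko_dt76 x) (ko_dt77 x)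
theorem ko_dt82 (x : ℝ) : dt82.KOk x :=
  DT.kOk_node (v := 7 / 50) (by simp only [Cn.rt_v, Cn.ng_v]; norm_num) (kb_dt80 x) (ka_dt81 x) (by ring1) (ko_dt80 x) (ko_dt81 x)
theorem ko_dt83 (x : ℝ) : dt83.KOk x :=
  DT.kOk_node (v := -1 / 10) (by simp only [Cn.rt_v, Cn.ng_v]; norm_num) (kb_dt79 x) (ka_dt82 x) (by ring1) (ko_dt79 x) (ko_dt82 x)
theorem phl0 {p x : ℝ} (h2 : p ≤ -3 / 20) : dt83.kv p x = (-59 / 5000 + (x - 83 / 100) * (-166591 / 1000000)) + (-753 / 5000 + (x - 83 / 100) * (-10179 / 5000)) * p + (-56 / 125 + (x - 83 / 100) * (-589 / 100)) * p ^ 2 := by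
  refine (DT.kv_le (by simp only [Cn.rt_v, Cn.ng_v]; push_cast; linarith)).trans ?_
  refine (DT.kv_le (by simp only [Cn.rt_v, Cn.ng_v]; push_cast; linarith)).trans ?_
  simp only [dt71, DT.kv, sw71, sl71, sv71]
  ((try push_cast); ring1)
theorem phl1 {p x : ℝ} (h1 : -3 / 20 < p) (h2 : p ≤ -7 / 50) : dt83.kv p x = (-59 / 5000 + (x - 83 / 100) * (5923 / 125000)) + (-753 / 5000 + (x - 83 / 100) * (2043 / 2500)) * p + (-56 / 125 + (x - 83 / 100) * (181 / 50)) * p ^ 2 := by
  refine (DT.kv_le (by simp only [Cn.rt_v, Cn.ng_v]; push_cast; linarith)).trans ?_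
  refine (DT.kv_gt (by simp only [Cn.rt_v, Cn.ng_v]; push_cast; linarith)).trans ?_
  refine (DT.kv_le (by simp only [Cn.rt_v, Cn.ng_v]; push_cast; linarith)).trans ?_
  simp only [dt72, DT.kv, sw72, sl72, sv72]
  ((try push_cast); ring1)
theorem phl2 {p x : ℝ} (h1 : -7 / 50 < p) (h2 : p ≤ -1 / 10) : dt83.kv p x = (629 / 200000 + (x - 83 / 100) * (491 / 20000)) + (629 / 10000 + (x - 83 / 100) * (491 / 1000)) * p + (629 / 2000 + (x - 83 / 100) * (491 / 200)) * p ^ 2 := by
  refine (DT.kv_le (by simp only [Cn.rt_v, Cn.ng_v]; push_cast; linarith)).trans ?_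
  refine (DT.kv_gt (by simp only [Cn.rt_v, Cn.ng_v]; push_cast; linarith)).trans ?_
  refine (DT.kv_gt (by simp only [Cn.rt_v, Cn.ng_v]; push_cast; linarith)).trans ?_
  simp only [dt73, DT.kv, sw73, sl73, sv73]
  ((try push_cast); ring1)
theorem phl3 {p x : ℝ} (h1 : -1 / 10 < p) (h2 : p ≤ 1 / 10) : dt83.kv p x = (0) + (0) * p := by
  refine (DT.kv_gt (by simp only [Cn.rt_v, Cn.ng_v]; push_cast; linarith)).trans ?_
  refine (DT.kv_le (by simp only [Cn.rt_v, Cn.ng_v]; push_cast; linarith)).trans ?_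
  refine (DT.kv_le (by simp only [Cn.rt_v, Cn.ng_v]; push_cast; linarith)).trans ?_
  simp only [dt74, DT.kv, sl74, sv74]
  ((try push_cast); ring1)
theorem phl4 {p x : ℝ} (h1 : 1 / 10 < p) (h2 : p ≤ 7 / 50) : dt83.kv p x = (-629 / 200000 + (x - 83 / 100) * (-491 / 20000)) + (629 / 10000 + (x - 83 / 100) * (491 / 1000)) * p + (-629 / 2000 + (x - 83 / 100) * (-491 / 200)) * p ^ 2 := by
  refine (DT.kv_gt (by simp only [Cn.rt_v, Cn.ng_v]; push_cast; linarith)).trans ?_
  refine (DT.kv_le (by simp only [Cn.rt_v, Cn.ng_v]; push_cast; linarith)).trans ?_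
  refine (DT.kv_gt (by simp only [Cn.rt_v, Cn.ng_v]; push_cast; linarith)).trans ?_
  simp only [dt75, DT.kv, sw75, sl75, sv75]
  ((try push_cast); ring1)
theorem phl5 {p x : ℝ} (h1 : 7 / 50 < p) (h2 : p ≤ 3 / 20) : dt83.kv p x = (59 / 5000 + (x - 83 / 100) * (-5923 / 125000)) + (-753 / 5000 + (x - 83 / 100) * (2043 / 2500)) * p + (56 / 125 + (x - 83 / 100) * (-181 / 50)) * p ^ 2 := by
  refine (DT.kv_gt (by simp only [Cn.rt_v, Cn.ng_v]; push_cast; linarith)).trans ?_
  refine (DT.kv_gt (by simp only [Cn.rt_v, Cn.ng_v]; push_cast; linarith)).trans ?_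
  refine (DT.kv_le (by simp only [Cn.rt_v, Cn.ng_v]; push_cast; linarith)).trans ?_
  simp only [dt76, DT.kv, sw76, sl76, sv76]
  ((try push_cast); ring1)
theorem phl6 {p x : ℝ} (h1 : 3 / 20 < p) (h2 : p ≤ 9 / 50) : dt83.kv p x = (59 / 5000 + (x - 83 / 100) * (166591 / 1000000)) + (-753 / 5000 + (x - 83 / 100) * (-10179 / 5000)) * p + (56 / 125 + (x - 83 / 100) * (589 / 100)) * p ^ 2 := by
  refine (DT.kv_gt (by simp only [Cn.rt_v, Cn.ng_v]; push_cast; linarith)).trans ?_
  refine (DT.kv_gt (by simp only [Cn.rt_v, Cn.ng_v]; push_cast; linarith)).trans ?_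
  refine (DT.kv_gt (by simp only [Cn.rt_v, Cn.ng_v]; push_cast; linarith)).trans ?_
  simp only [dt77, DT.kv, sw77, sl77, sv77]
  ((try push_cast); ring1)
theorem tvc8 {p x : ℝ} (h1 : -1 / 5 ≤ p) (h2 : p ≤ -3 / 20) : dt70.val (fun p x => kcg.v p x) p (cT p) x = (2856273 / 20000000 + (x - 83 / 100) * (139661 / 1000000)) + (639 / 3125 + (x - 83 / 100) * (2503 / 5000)) * p + (-239 / 2000 + (x - 83 / 100) * (93 / 100)) * p ^ 2 := by
  rcases eq_or_lt_of_le h1 with h | h1
  · subst h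
    refine (DT.val_le (by simp only [Cn.rt_v, Cn.ng_v]; push_cast; linarith)).trans ?_
    refine (DT.val_gt (by simp only [Cn.rt_v, Cn.ng_v]; push_cast; linarith)).trans ?_
    refine (DT.val_gt (by simp only [Cn.rt_v, Cn.ng_v]; push_cast; linarith)).trans ?_
    refine (DT.val_gt (by simp only [Cn.rt_v, Cn.ng_v]; push_cast; linarith)).trans ?_
    refine (DT.val_le (by simp only [Cn.rt_v, Cn.ng_v]; push_cast; linarith)).trans ?_
    simp only [dt41, DT.val, sw41, sl41, sv41]
    ((try push_cast); ring1)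
  ·
    refine (DT.val_le (by simp only [Cn.rt_v, Cn.ng_v]; push_cast; linarith)).trans ?_
    refine (DT.val_gt (by simp only [Cn.rt_v, Cn.ng_v]; push_cast; linarith)).trans ?_
    refine (DT.val_gt (by simp only [Cn.rt_v, Cn.ng_v]; push_cast; linarith)).trans ?_
    refine (DT.val_gt (by simp only [Cn.rt_v, Cn.ng_v]; push_cast; linarith)).trans ?_
    refine (DT.val_gt (by simp only [Cn.rt_v, Cn.ng_v]; push_cast; linarith)).trans ?_
    simp only [dt42, DT.val, sw42, sl42, sv42]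
    ((try push_cast); ring1)
theorem tvc9 {p x : ℝ} (h1 : -3 / 20 ≤ p) (h2 : p ≤ -1 / 10) : dt70.val (fun p x => kcg.v p x) p (cT p) x = (2856273 / 20000000 + (x - 83 / 100) * (-37157 / 500000)) + (639 / 3125 + (x - 83 / 100) * (-5881 / 2500)) * p + (-239 / 2000 + (x - 83 / 100) * (-429 / 50)) * p ^ 2 := by
  rcases eq_or_lt_of_le h1 with h | h1
  · subst h
    refine (DT.val_le (by simp only [Cn.rt_v, Cn.ng_v]; push_cast; linarith)).trans ?_
    refine (DT.val_gt (by simp only [Cn.rt_v, Cn.ng_v]; push_cast; linarith)).trans ?_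
    refine (DT.val_gt (by simp only [Cn.rt_v, Cn.ng_v]; push_cast; linarith)).trans ?_
    refine (DT.val_gt (by simp only [Cn.rt_v, Cn.ng_v]; push_cast; linarith)).trans ?_
    refine (DT.val_gt (by simp only [Cn.rt_v, Cn.ng_v]; push_cast; linarith)).trans ?_
    simp only [dt42, DT.val, sw42, sl42, sv42]
    ((try push_cast); ring1)
  ·
    refine (DT.val_gt (by simp only [Cn.rt_v, Cn.ng_v]; push_cast; linarith)).trans ?_
    refine (DT.val_le (by simp only [Cn.rt_v, Cn.ng_v]; push_cast; linarith)).trans ?_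
    refine (DT.val_le (by simp only [Cn.rt_v, Cn.ng_v]; push_cast; linarith)).trans ?_
    refine (DT.val_le (by simp only [Cn.rt_v, Cn.ng_v]; push_cast; linarith)).trans ?_
    simp only [dt43, DT.val, sw43, sl43, sv43]
    ((try push_cast); ring1)
theorem tvc10 {p x : ℝ} (h1 : -1 / 10 ≤ p) (h2 : p ≤ 1 / 10) : dt70.val (fun p x => kcg.v p x) p (cT p) x = (2738373 / 20000000 + (x - 83 / 100) * (23293 / 500000)) + (4329 / 50000 + (x - 83 / 100) * (41 / 625)) * p + (-709 / 1000 + (x - 83 / 100) * (351 / 100)) * p ^ 2 := by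
  rcases eq_or_lt_of_le h1 with h | h1
  · subst h
    refine (DT.val_gt (by simp only [Cn.rt_v, Cn.ng_v]; push_cast; linarith)).trans ?_
    refine (DT.val_le (by simp only [Cn.rt_v, Cn.ng_v]; push_cast; linarith)).trans ?_
    refine (DT.val_le (by simp only [Cn.rt_v, Cn.ng_v]; push_cast; linarith)).trans ?_
    refine (DT.val_le (by simp only [Cn.rt_v, Cn.ng_v]; push_cast; linarith)).trans ?_
    simp only [dt43, DT.val, sw43, sl43, sv43]
    ((try push_cast); ring1)
  ·
    refine (DT.val_gt (by simp only [Cn.rt_v, Cn.ng_v]; push_cast; linarith)).trans ?_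
    refine (DT.val_le (by simp only [Cn.rt_v, Cn.ng_v]; push_cast; linarith)).trans ?_
    refine (DT.val_le (by simp only [Cn.rt_v, Cn.ng_v]; push_cast; linarith)).trans ?_
    refine (DT.val_gt (by simp only [Cn.rt_v, Cn.ng_v]; push_cast; linarith)).trans ?_
    simp only [dt44, DT.val, sw44, sl44, sv44]
    ((try push_cast); ring1)
theorem tvc11 {p x : ℝ} (h1 : 1 / 10 ≤ p) (h2 : p ≤ 7 / 50) : dt70.val (fun p x => kcg.v p x) p (cT p) x = (2919173 / 20000000 + (x - 83 / 100) * (-12441 / 250000)) + (-4711 / 50000 + (x - 83 / 100) * (9963 / 5000)) * p + (39 / 200 + (x - 83 / 100) * (-49 / 8)) * p ^ 2 := by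
  rcases eq_or_lt_of_le h1 with h | h1
  · subst h
    refine (DT.val_gt (by simp only [Cn.rt_v, Cn.ng_v]; push_cast; linarith)).trans ?_
    refine (DT.val_le (by simp only [Cn.rt_v, Cn.ng_v]; push_cast; linarith)).trans ?_
    refine (DT.val_le (by simp only [Cn.rt_v, Cn.ng_v]; push_cast; linarith)).trans ?_
    refine (DT.val_gt (by simp only [Cn.rt_v, Cn.ng_v]; push_cast; linarith)).trans ?_
    simp only [dt44, DT.val, sw44, sl44, sv44]
    ((try push_cast); ring1)
  ·
    refine (DT.val_gt (by simp only [Cn.rt_v, Cn.ng_v]; push_cast; linarith)).trans ?_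
    refine (DT.val_le (by simp only [Cn.rt_v, Cn.ng_v]; push_cast; linarith)).trans ?_
    refine (DT.val_gt (by simp only [Cn.rt_v, Cn.ng_v]; push_cast; linarith)).trans ?_
    refine (DT.val_le (by simp only [Cn.rt_v, Cn.ng_v]; push_cast; linarith)).trans ?_
    simp only [dt45, DT.val, sw45, sl45, sv45]
    ((try push_cast); ring1)
theorem tvc12 {p x : ℝ} (h1 : 7 / 50 ≤ p) (h2 : p ≤ 9 / 50) : dt70.val (fun p x => kcg.v p x) p (cT p) x = (2620273 / 20000000 + (x - 83 / 100) * (-2693 / 100000)) + (1491 / 12500 + (x - 83 / 100) * (2083 / 1250)) * p + (-227 / 400 + (x - 83 / 100) * (-124 / 25)) * p ^ 2 := by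
  rcases eq_or_lt_of_le h1 with h | h1
  · subst h
    refine (DT.val_gt (by simp only [Cn.rt_v, Cn.ng_v]; push_cast; linarith)).trans ?_
    refine (DT.val_le (by simp only [Cn.rt_v, Cn.ng_v]; push_cast; linarith)).trans ?_
    refine (DT.val_gt (by simp only [Cn.rt_v, Cn.ng_v]; push_cast; linarith)).trans ?_
    refine (DT.val_le (by simp only [Cn.rt_v, Cn.ng_v]; push_cast; linarith)).trans ?_
    simp only [dt45, DT.val, sw45, sl45, sv45]
    ((try push_cast); ring1)
  ·
    refine (DT.val_gt (by simp only [Cn.rt_v, Cn.ng_v]; push_cast; linarith)).trans ?_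
    refine (DT.val_le (by simp only [Cn.rt_v, Cn.ng_v]; push_cast; linarith)).trans ?_
    refine (DT.val_gt (by simp only [Cn.rt_v, Cn.ng_v]; push_cast; linarith)).trans ?_
    refine (DT.val_gt (by simp only [Cn.rt_v, Cn.ng_v]; push_cast; linarith)).trans ?_
    refine (DT.val_le (by simp only [Cn.rt_v, Cn.ng_v]; push_cast; linarith)).trans ?_
    simp only [dt46, DT.val, sw46, sl46, sv46]
    ((try push_cast); ring1)
theorem ph_ (x : ℝ) : ∀ u, |u| ≤ vv.k2.v → dd.tF x (-u) - dd.tF x u = m0c.v x * u + dt83.kv u x := by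
  intro u h
  have h : |u| ≤ 9 / 50 := by
    refine h.trans_eq ?_
    show (Cn.rt 9 50).v = _
    rw [Cn.rt_v]
    norm_num
  obtain ⟨h1, h2⟩ := abs_le.1 h
  show dt70.val (fun p x => kcg.v p x) (-u) (cT (-u)) x - dt70.val (fun p x => kcg.v p x) u (cT u) x = _
  rcases le_or_gt u (-3 / 20) with g0 | g1000
  ·
    rw [tvc12 (p := -u) (by linarith) (by linarith), tvc8 (p := u) (by linarith) (by linarith), phl0 g0]
    simp only [m0c]
    push_cast
    ring
  rcases le_or_gt u (-7 / 50) with g1 | g1001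
  ·
    rw [tvc12 (p := -u) (by linarith) (by linarith), tvc9 (p := u) (by linarith) (by linarith), phl1 g1000 g1]
    simp only [m0c]
    push_cast
    ring
  rcases le_or_gt u (-1 / 10) with g2 | g1002
  ·
    rw [tvc11 (p := -u) (by linarith) (by linarith), tvc9 (p := u) (by linarith) (by linarith), phl2 g1001 g2]
    simp only [m0c]
    push_cast
    ring
  rcases le_or_gt u (1 / 10) with g3 | g1003
  ·
    rw [tvc10 (p := -u) (by linarith) (by linarith), tvc10 (p := u) (by linarith) (by linarith), phl3 g1002 g3]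
    simp only [m0c]
    push_cast
    ring
  rcases le_or_gt u (7 / 50) with g4 | g1004
  ·
    rw [tvc9 (p := -u) (by linarith) (by linarith), tvc11 (p := u) (by linarith) (by linarith), phl4 g1003 g4]
    simp only [m0c]
    push_cast
    ring
  rcases le_or_gt u (3 / 20) with g5 | g1005
  ·
    rw [tvc9 (p := -u) (by linarith) (by linarith), tvc12 (p := u) (by linarith) (by linarith), phl5 g1004 g5]
    simp only [m0c]
    push_cast
    ring
  ·
    rw [tvc8 (p := -u) (by linarith) (by linarith), tvc12 (p := u) (by linarith) (by linarith), phl6 g1005 (by linarith)]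
    simp only [m0c]
    push_cast
    ring
theorem kqf_ {y : ℝ} (x : ℝ) (h : OnC (0 : Fin 5) 2 y) : kqf.v y x * c1g.v y = (y - 1) * kcg.v (c1g.v y) x := by
  have h0 : 0 ≤ c1g.v y := by rw [c1g_v]; exact c1n_nn y
  simp only [kqf]
  (try push_cast)
  split_ifs with hh
  · rw [kcl8 (p := c1g.v y) (by linarith) (by linarith)]
    ring
  · have hc : c1g.v y ≠ 0 := by
      intro e
      rw [e] at hh
      exact hh (by norm_num)
    have hi := inv_mul_cancel₀ hc
    linear_combination ((y - 1) * kcg.v (c1g.v y) x) * hi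
theorem sM_ (x : ℝ) : ∀ y, OnC (0 : Fin 5) 2 y → c1n y < crv PP 1 2 y →
    (1 + skm.v y x) * (crv PP 1 2 y - c1n y) = tK 1 2 y x - tK 0 2 y x := by
  intro y h hlt
  rw [yK12 h.1, yK02 h]
  rw [ecv1q2, ← c1g_v] at hlt ⊢
  have hd : 0 < cv1p.v y - c1g.v y := sub_pos.2 hlt
  have hi := inv_mul_cancel₀ hd.ne'
  have hb : |c1g.v y| ≤ 1 / 2 := by rw [c1g_v]; exact bnd_O h
  have eo := odd (x := x) hb
  have hk := kqf_ x h
  simp only [skm, kf1q2, kf0q2, eo]
  (try push_cast)
  linear_combination (cv1p.v y * ((bf1q2.v y x - 1) + kqf.v y x)) * hi + hk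
theorem ok (x : ℝ) : tt.Ok PP tK tL x where
  i0 := rfl
  il := rfl
  rl := by
    show 1 < PP.ρ 3
    have e : PP.ρ 3 = 3 / 2 := rfl
    rw [e]
    norm_num
  ok := dok x
  kh := rfl
  odd := fun p h => odd h
  K0 := K0_ x
  L0 := L0_ x
  Kn := Kn_ x
  Ln := Ln_ x
  f0 := f0_
  fn := fn_
  sK0 := sK0_ x
  sX0 := sX0_ x
  sKn := sKn_ x
  sXn := sXn_ x
  k1 := by
    show 0 ≤ (Cn.rt 2 25).v ∧ (Cn.rt 2 25).v ≤ 1 / 2
    rw [Cn.rt_v]
    constructor <;> norm_num
  kn := kn_ x
  tn := tn_ x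
  vK := vK_ x
  vX := vX_ x
  rK := rK_ x
  rX := rX_ x
  yb := by
    show 0 ≤ (Cn.rt 231 200).v ∧ 1 ≤ 3 / 4 * (Cn.rt 231 200).v ^ 2
    rw [Cn.rt_v]
    constructor <;> norm_num
  flat := flat_ x
  abk := abk_ x
  phk := ko_dt83 x
  ph := ph_ x
  sM := sM_ x
  yz := by
    show (Cn.rt 577 500).v ≤ (Cn.rt 577 500).v ∧ 0 ≤ (Cn.rt 577 500).v ∧ 1 ≤ 3 / 4 * (Cn.rt 577 500).v ^ 2 + (Cn.rt 2 25).v ^ 2
    simp only [Cn.rt_v]
    refine ⟨?_, ?_, ?_⟩ <;> norm_num
theorem okx {x : ℝ} (hx : ((858993459 : ℕ) : ℝ) / S ≤ x) (hx' : x ≤ (((858993459 : ℕ) : ℝ) + (64424510 : ℕ)) / S) : tt.Ok PP tK tL x := ok x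

end Pool.Agent.Strip051.G.I8000_8600.Tab.St
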