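import Pool.Agent.Strip051.G.I8000_8600.StH
import Pool.Agent.Strip051.G.I8000_8600.StF

/-! # Unit strips 1 (generated) -/

set_option linter.all false
set_option maxRecDepth 100000

namespace Pool.Agent.Strip051.G.I8000_8600.Tab.St.C

open Pool.Agent.Strip051.PB Pool.Agent.Strip051.PB.T Pool.Agent.StripNear Pool.Agent.Strip051.LC
open Pool.Agent.Strip051.G.I8000_8600.Tab Pool.Agent.Strip051.G.I8000_8600.Tab.St

noncomputable def cut_A00pp_022_s3 : Cut := Cut.of [[⟨3, 0, 0, 2845415833⟩], [⟨0, 0, 0, 67108864⟩, ⟨1, 1, 0, 67108864⟩, ⟨2, 1, 0, 67108864⟩]]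

noncomputable def xt_A00pp_022_s3 : Ext := strExt dd true true true .u0 .u2 .s2 .pp 0 2 2 rfl rfl gl2 vv ndB0q0 ndB0q2

noncomputable def f_A00pp_022_s3 : ℕ → ℕ → ℕ → ℕ → Bool := onCell 1073741824 536870912 0 536870912 858993459 64424510
    (rowF 2 true true true .pp 0 2 2 (qsf 0 536870912 0 536870912 2) ndB0q0 ndB0q2 pcB2 cut_A00pp_022_s3 xt_A00pp_022_s3)

def k0_A00pp_022_s3 : ∃ t, chk3 f_A00pp_022_s3 t 2 2 1 = true :=
  ⟨(a (l 6) (b (l 6) (a (l 6) (c (b (l 6) (b (l 6) (a (a (l 6) (c (l 16581712) (l 16579456))) (a (c (l 16583480) (l 16599400)) (c (l 16587984) (l 16602688)))))) (b (l 6) (b (l 6) (a (a (l 6) (b (l 6) (c (l 16527824) (a (l 16543480) (l 16515248))))) (a (b (a (l 6) (c (l 16584176) (l 16563848))) (c (l 16594176) (a (l 16528040) (l 16539880)))) (b (c (l 16600312) (a (l 16491424) (l 16502112))) (c (l 16615104) (a (l 16550760) (l 16560968)))))))))))), by decide +kernel⟩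

def k1_A00pp_022_s3 : ∃ t, chk3 f_A00pp_022_s3 t 8 6 1 = true :=
  ⟨(l 1), by decide +kernel⟩

def k2_A00pp_022_s3 : ∃ t, chk3 f_A00pp_022_s3 t 9 12 1 = true :=
  ⟨(b (l 6) (b (l 6) (a (l 1) (a (l 6) (c (a (c (l 16502216) (l 16462352)) (c (l 16517504) (l 16478848))) (b (a (l 6) (a (l 6) (a (l 6) (l 16469528)))) (a (c (l 16470272) (c (l 16454272) (l 16443104))) (c (l 16487872) (c (l 16472848) (l 16462344)))))))))), by decide +kernel⟩

def k3_A00pp_022_s3 : ∃ t, chk3 f_A00pp_022_s3 t 18 26 1 = true :=
  ⟨(a (l 1) (a (a (l 1) (a (l 1) (b (l 1) (b (l 1) (b (l 1) (c (l 16504360) (l 16465496))))))) (a (b (l 1) (c (c (b (l 16500032) (l 16515144)) (b (l 16481064) (l 16497264))) (c (b (l 16460608) (l 16477968)) (b (a (l 16436256) (l 16441048)) (a (l 16454896) (l 16459600)))))) (b (b (l 1) (c (c (l 16493208) (l 16473728)) (c (l 16452696) (a (l 16427696) (l 16432528))))) (c (b (l 16519768) (l 16514296)) (b (c (l 16469544) (l 16448200)) (c (l 16486744) (l 16466640)))))))), by decide +kernel⟩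

def k4_A00pp_022_s3 : ∃ t, chk3 f_A00pp_022_s3 t 18 27 1 = true :=
  ⟨(a (b (b (l 1) (a (l 1) (a (l 1) (a (l 1) (a (l 1) (c (l 16518112) (l 16481672))))))) (a (l 1) (b (a (a (l 1) (a (l 1) (c (l 16527208) (l 16492528)))) (c (a (b (l 16525856) (l 16534440)) (c (l 16541752) (l 16526064))) (a (b (l 16490848) (l 16500856)) (c (l 16509168) (l 16491080))))) (a (c (a (c (l 16547152) (l 16532080)) (b (l 16539232) (l 16548032))) (a (c (l 16515888) (l 16519536)) (c (l 16520136) (l 16524040)))) (c (c (l 16556504) (l 16542040)) (c (l 16526464) (l 16509792))))))) (b (a (a (a (b (l 1) (c (c (l 16529272) (l 16512544)) (b (l 16480184) (l 16489888)))) (c (b (l 16508504) (l 16525000)) (b (b (l 1) (l 16475112)) (c (l 16498856) (l 16479832))))) (a (c (b (l 16512488) (l 16528904)) (b (c (l 16484824) (l 16464680)) (l 16493960))) (c (b (l 16516440) (l 16532792)) (b (l 16489920) (l 16498392))))) (a (c (b (l 16501360) (c (l 16546176) (l 16530640))) (c (b (l 16495712) (l 16513864)) (b (l 16476296) (l 16495840)))) (c (b (l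 16509128) (l 16530456)) (b (c (l 16504336) (l 16485520)) (c (l 16522320) (l 16504888)))))) (c (b (a (c (a (l 16547376) (l 16554784)) (a (l 16532064) (l 16539992))) (c (a (l 16562096) (l 16569304)) (a (l 16547824) (l 16555560)))) (a (c (a (l 16563872) (l 16571136)) (a (l 16549896) (l 16557672))) (a (c (l 16578304) (l 16565344)) (c (l 16585368) (l 16572920))))) (b (a (a (c (l 16515568) (l 16497888)) (c (l 16524032) (l 16506904))) (c (a (l 16532408) (l 16540696)) (a (l 16515848) (l 16524720)))) (a (c (a (l 16534840) (l 16543136)) (a (l 16518704) (l 16527544))) (a (c (l 16551344) (l 16536304)) (c (l 16559456) (l 16544984)))))))), by decide +kernel⟩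

def k5_A00pp_022_s3 : ∃ t, chk3 f_A00pp_022_s3 t 19 13 2 = true :=
  ⟨(a (b (b (a (a (b (l 6) (l 16491776)) (c (l 16501792) (l 16482952))) (c (l 16513320) (a (l 16491256) (l 16499480)))) (a (c (b (l 16519296) (l 16534048)) (b (l 16501768) (l 16517592))) (c (b (l 16534288) (l 16548752)) (b (l 16517928) (l 16533448))))) (c (b (a (b (l 16549080) (l 16564368)) (a (l 16567480) (l 16574528))) (a (b (l 16564200) (c (l 16598544) (l 16592952))) (b (l 16583280) (a (l 16605976) (l 16612664))))) (b (a (b (l 16533736) (l 16529232)) (b (l 16549280) (l 16544456))) (a (a (b (l 16563200) (l 16580400)) (b (l 16570752) (l 16587784))) (a (b (l 16578200) (l 16595072)) (b (l 16585560) (l 16602264))))))) (a (c (b (b (l 16528392) (l 16545552)) (b (b (l 16577560) (l 16592272)) (b (l 16586288) (a (l 16619264) (l 16625784))))) (b (b (l 16495912) (b (l 16533736) (l 16548936))) (a (b (l 16568664) (b (l 16592816) (l 16609360))) (b (l 16576080) (b (l 16599984) (l 16616360)))))) (c (b (b (l 16543120) (l 16570200)) (b (a (l 16595168)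 (l 16601880)) (b (l 16620416) (l 16635408)))) (b (b (l 16517048) (b (l 16549168) (l 16564056))) (b (a (l 16583392) (l 16590616)) (b (a (l 16607056) (l 16614024)) (a (l 16623264) (l 16630064)))))))), by decide +kernel⟩

def k6_A00pp_022_s3 : ∃ t, chk3 f_A00pp_022_s3 t 38 13 3 = true :=
  ⟨(b (a (b (a (b (l 6) (c (l 16461712) (l 16439760))) (c (l 16462568) (c (l 16446264) (l 16434904)))) (c (a (b (l 16478408) (l 16495448)) (b (l 16487184) (l 16504072))) (c (b (l 16467640) (l 16485520)) (b (l 16457080) (l 16475592))))) (b (c (a (l 16471496) (l 16480336)) (a (c (l 16455672) (l 16444648)) (c (l 16464992) (l 16454304)))) (b (c (a (l 16495880) (l 16504480)) (a (l 16476432) (l 16485672))) (c (l 16495864) (a (l 16494368) (l 16503432)))))) (c (b (a (b (a (l 16512880) (l 16521336)) (a (l 16530696) (l 16538984))) (b (a (l 16529696) (l 16537968)) (a (l 16547176) (l 16555264)))) (a (a (b (l 16548904) (l 16567488)) (b (l 16557016) (l 16575416))) (a (b (l 16565024) (l 16583240)) (b (l 16572936) (l 16590968))))) (b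 (a (b (a (l 16494680) (l 16503752)) (a (l 16513872) (l 16522760))) (b (a (l 16512736) (l 16521616)) (a (l 16531560) (l 16540248)))) (a (a (b (l 16533512) (l 16553576)) (b (l 16542208) (l 16562080))) (a (b (l 16550808) (l 16570480)) (b (l 16559304) (l 16578760))))))), by decide +kernel⟩

def k7_A00pp_022_s3 : ∃ t, chk3 f_A00pp_022_s3 t 39 13 3 = true :=
  ⟨(b (c (b (a (c (l 16498112) (l 16467672)) (c (l 16514920) (l 16506072))) (a (b (l 16496232) (l 16512544)) (b (l 16533824) (l 16528808)))) (b (a (c (b (l 16470512) (l 16487064)) (a (l 16463864) (l 16473328))) (c (b (l 16488752) (l 16504960)) (a (l 16482688) (l 16491936)))) (a (b (a (l 16494808) (l 16503848)) (a (l 16512400) (l 16521248))) (b (a (l 16512776) (l 16521584)) (a (l 16529992) (l 16538608)))))) (b (a (c (b (l 16534448) (l 16556728)) (a (b (l 16530392) (l 16548824)) (b (l 16539056) (l 16557288)))) (b (c (l 16555608) (a (l 16547600) (l 16556024))) (a (c (l 16578912) (l 16565632)) (c (l 16586576) (l 16573848))))) (a (a (b (c (l 16580736) (l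 16567680)) (c (l 16598584) (l 16586928))) (b (c (l 16588440) (l 16575936)) (c (l 16606088) (l 16594960)))) (b (a (c (l 16596024) (l 16584064)) (c (l 16603496) (l 16592056))) (a (c (l 16613472) (l 16592384)) (c (l 16620752) (l 16600152))))))), by decide +kernel⟩

def k8_A00pp_022_s3 : ∃ t, chk3 f_A00pp_022_s3 t 16 14 1 = true :=
  ⟨(l 1), by decide +kernel⟩

def k9_A00pp_022_s3 : ∃ t, chk3 f_A00pp_022_s3 t 17 28 1 = true :=
  ⟨(a (l 1) (b (l 1) (a (l 1) (b (a (l 1) (b (a (l 1) (c (c (l 16577528) (l 16565304)) (a (l 16544272) (l 16556880)))) (a (l 14) (a (l 14) (c (l 16582240) (l 16557744)))))) (a (l 14) (c (a (l 14) (c (l 16606520) (l 16596152))) (a (l 14) (c (l 16590296) (l 16567968))))))))), by decide +kernel⟩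

def k10_A00pp_022_s3 : ∃ t, chk3 f_A00pp_022_s3 t 34 29 1 = true :=
  ⟨(l 14), by decide +kernel⟩

def k11_A00pp_022_s3 : ∃ t, chk3 f_A00pp_022_s3 t 35 58 1 = true :=
  ⟨(a (l 14) (c (c (c (a (l 14) (a (l 14) (b (l 16622912) (l 16642400)))) (a (l 14) (a (l 14) (b (l 16618624) (l 16638800))))) (c (a (l 14) (a (l 14) (b (l 16614176) (l 16635072)))) (c (a (l 14) (b (l 16608864) (b (l 16624960) (l 16635744)))) (a (l 14) (b (l 16606496) (b (l 16622880) (l 16633856))))))) (c (c (a (l 14) (a (l 14) (b (l 16604816) (l 16627232)))) (c (a (l 14) (b (l 16599160) (b (l 16616440) (l 16628000)))) (a (l 14) (b (l 16596640) (l 16625360))))) (c (c (a (l 14) (b (l 16594080) (l 16623208))) (a (l 14) (b (l 16591480) (l 16621032)))) (a (l 14) (a (l 14) (b (l 16589600) (l 16614504)))))))), by decide +kernel⟩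

def k12_A00pp_022_s3 : ∃ t, chk3 f_A00pp_022_s3 t 35 59 2 = true :=
  ⟨(c (c (b (a (l 14) (a (l 14) (a (l 14) (l 16662120)))) (a (l 14) (a (l 14) (b (l 16675440) (l 16685552))))) (b (c (a (l 14) (a (l 14) (a (l 14) (l 16659936)))) (a (l 14) (a (l 14) (a (l 14) (l 16658448))))) (a (l 14) (a (l 14) (b (l 16672960) (l 16683384)))))) (c (b (c (a (l 14) (a (l 14) (a (l 14) (l 16656928)))) (a (l 14) (a (l 14) (a (l 14) (l 16655392))))) (a (l 14) (a (l 14) (b (l 16670392) (l 16683760))))) (b (a (l 14) (a (l 14) (b (l 16645728) (l 16656704)))) (a (l 14) (a (l 14) (b (l 16667728) (a (l 14) (l 16680560)))))))), by decide +kernel⟩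

def k13_A00pp_022_s3 : ∃ t, chk3 f_A00pp_022_s3 t 35 59 3 = true :=
  ⟨(c (c (b (c (a (l 14) (a (l 14) (b (l 16643136) (l 16654384)))) (a (l 14) (a (l 14) (b (l 16641376) (l 16652816))))) (a (l 14) (a (l 14) (b (l 16664992) (a (l 14) (l 16678208)))))) (b (c (a (l 14) (a (l 14) (b (l 16639592) (l 16651216)))) (c (a (l 14) (a (l 14) (b (l 16638232) (l 16650000)))) (a (l 14) (a (l 14) (b (l 16637312) (l 16649176)))))) (a (l 14) (a (l 14) (b (l 16667400) (a (l 14) (l 16675784))))))) (b (c (c (c (a (l 14) (a (l 14) (b (l 16636392) (l 16648352)))) (a (l 14) (a (l 14) (l 16646744)))) (c (c (a (l 14) (a (l 14) (l 16640840))) (a (l 14) (a (l 14) (l 16640392)))) (c (a (l 14) (a (l 14) (l 16639952))) (c (a (l 14) (a (l 14) (l 16639616))) (a (l 14) (a (l 14) (l 16639384))))))) (c (c (c (c (a (l 14) (a (l 14) (l 16639160))) (a (l 14) (a (l 14) (l 16638936)))) (c (a (l 14) (a (l 14) (l 16638712))) (a (l 14) (a (l 14) (l 16638488))))) (c (c (a (l 14) (a (l 14) (l 16638256))) (a (l 14) (a (l 14) (l 16638032)))) (a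 (l 14) (a (l 14) (l 16637688))))) (c (c (a (l 14) (a (l 14) (l 16637232))) (a (l 14) (a (l 14) (l 16636776)))) (c (a (l 14) (a (l 14) (l 16636320))) (a (l 14) (a (l 14) (l 16635856))))))) (a (l 14) (a (l 14) (a (l 14) (b (l 16659672) (l 16677248))))))), by decide +kernel⟩

def k14_A00pp_022_s3 : ∃ t, chk3 f_A00pp_022_s3 t 8 15 1 = true :=
  ⟨(b (a (l 14) (b (b (c (b (a (l 14) (a (l 14) (a (l 14) (a (l 14) (a (l 14) (a (l 14) (l 16695848))))))) (a (l 14) (a (l 14) (a (l 14) (a (l 14) (a (l 14) (b (l 16703456) (l 16708840)))))))) (a (l 14) (a (l 14) (a (l 14) (a (l 14) (a (l 14) (b (c (l 16689528) (l 16685288)) (c (l 16701200) (l 16697648))))))))) (c (c (a (l 14) (a (l 14) (a (l 14) (a (l 14) (a (l 14) (a (l 14) (b (l 16718624) (l 16729256)))))))) (a (l 14) (a (l 14) (a (l 14) (a (l 14) (a (l 14) (a (l 14) (b (l 16716072) (l 16727256))))))))) (c (a (l 14) (a (l 14) (a (l 14) (a (l 14) (a (l 14) (a (l 14) (b (l 16713360) (l 16727752)))))))) (a (l 14) (a (l 14) (a (l 14) (a (l 14) (a (l 14) (b (c (l 16710768)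 (l 16709280)) (c (l 16723024) (l 16721864))))))))))) (a (l 14) (a (l 14) (b (a (l 14) (a (l 14) (a (l 14) (a (l 14) (a (l 14) (a (l 14) (b (b (c (l 16736816) (l 16733432)) (l 530592271)) (b (l 530582799) (l 530573071))))))))) (a (l 14) (a (l 14) (a (l 14) (a (l 14) (a (l 14) (b (b (l 530562319) (l 530552079)) (b (l 530541839) (l 530531087))))))))))))) (a (l 14) (a (l 14) (b (a (l 14) (b (a (l 14) (a (l 14) (a (l 14) (l 4)))) (l 4))) (l 4))))), by decide +kernel⟩

def k15_A00pp_022_s3 : ∃ t, chk3 f_A00pp_022_s3 t 18 14 256 = true :=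
  ⟨(a (a (b (b (b (a (l 1) (l 16565320)) (a (b (l 16570936) (l 16579704)) (l 16582488))) (b (a (l 16593096) (l 16600136)) (a (l 16611352) (l 16618248)))) (b (b (b (l 16628744) (l 16638168)) (a (l 16649112) (l 16655720))) (b (a (l 16668416) (l 16674888)) (a (l 16688032) (l 16694360))))) (b (b (b (l 16576088) (l 16593056)) (b (l 16610488) (b (l 16623856) (l 16632920)))) (b (b (a (l 16643464) (l 16650000)) (a (l 16662224) (l 16668624))) (b (a (l 16681248) (l 16687504)) (a (l 16700584) (l 16706696)))))) (b (b (a (b (l 16590088) (l 16606776)) (b (l 16603664) (l 16620080))) (a (b (l 16623928) (l 16641544)) (b (l 16636952) (l 16654288)))) (b (a (b (a (l 16656440) (l 16662768)) (a (l 16674920) (l 16681104))) (b (a (l 16669000) (l 16675120)) (a (l 16687192) (l 16693176)))) (a (b (a (l 16693656) (l 16699704)) (b (l 16710880) (a (l 16717512) (l 16723384)))) (b (a (l 16705648) (l 16711488)) (a (b (l 16719680) (l 16729152)) (b (l 16725408) (l 16734816)))))))), by decide +kernel⟩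

def k16_A00pp_022_s3 : ∃ t, chk3 f_A00pp_022_s3 t 18 14 257 = true :=
  ⟨(a (a (b (b (b (a (l 1) (l 16565120)) (a (b (l 16570736) (l 16579520)) (l 16582304))) (b (a (l 16592928) (l 16599968)) (a (l 16611208) (l 16618104)))) (b (b (b (l 16628616) (l 16638048)) (a (l 16649008) (l 16655624))) (b (a (l 16668336) (l 16674808)) (a (l 16687968) (l 16694296))))) (b (b (b (l 16575896) (l 16592880)) (b (l 16610336) (b (l 16623720) (l 16632800)))) (b (b (a (l 16643352) (l 16649896)) (a (l 16662136) (l 16668536))) (b (a (l 16681168) (l 16687432)) (a (l 16700528) (l 16706648)))))) (b (b (a (b (l 16589912) (l 16606616)) (b (l 16603504) (l 16619936))) (a (b (l 16623792) (l 16641432)) (b (l 16636832) (l 16654184)))) (b (a (b (a (l 16656336) (l 16662680)) (a (l 16674832) (l 16681032))) (b (a (l 16668912) (l 16675040)) (a (l 16687120) (l 16693104)))) (a (b (a (l 16693592) (l 16699640)) (b (l 16710832) (a (l 16717472) (l 16723344)))) (b (a (l 16705592) (l 16711432)) (a (b (l 16719632) (l 16729120)) (b (l 16725368) (l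 16734784)))))))), by decide +kernel⟩

def k17_A00pp_022_s3 : ∃ t, chk3 f_A00pp_022_s3 t 18 14 258 = true :=
  ⟨(a (a (b (b (b (a (l 1) (l 16564912)) (a (b (l 16570544) (l 16579336)) (l 16582128))) (b (a (l 16592768) (l 16599808)) (a (l 16611056) (l 16617968)))) (b (b (b (l 16628488) (l 16637936)) (a (l 16648904) (l 16655528))) (b (a (l 16668248) (l 16674728)) (a (l 16687904) (l 16694240))))) (b (b (b (l 16575704) (l 16592712)) (b (l 16610184) (b (l 16623584) (l 16632672)))) (b (b (a (l 16643232) (l 16649792)) (a (l 16662040) (l 16668448))) (b (a (l 16681096) (l 16687368)) (a (l 16700472) (l 16706592)))))) (b (b (a (b (l 16589728) (l 16606456)) (b (l 16603336) (l 16619792))) (a (b (l 16623648) (l 16641312)) (b (l 16636704) (l 16654080)))) (b (a (b (a (l 16656240) (l 16662584)) (a (l 16674752) (l 16680952))) (b (a (l 16668816) (l 16674952)) (a (l 16687048) (l 16693040)))) (a (b (a (l 16693528) (l 16699584)) (b (l 16710784) (a (l 16717432) (l 16723312)))) (b (a (l 16705536) (l 16711384)) (a (b (l 16719592)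 (l 16729080)) (b (l 16725336) (l 16734752)))))))), by decide +kernel⟩

def k18_A00pp_022_s3 : ∃ t, chk3 f_A00pp_022_s3 t 18 14 259 = true :=
  ⟨(a (a (b (b (b (a (l 1) (l 16564712)) (a (b (l 16570352) (l 16579152)) (l 16581944))) (b (a (l 16592600) (l 16599648)) (a (l 16610912) (l 16617824)))) (b (b (b (l 16628360) (l 16637816)) (a (l 16648800) (l 16655424))) (b (a (l 16668160) (l 16674648)) (a (l 16687840) (l 16694176))))) (b (b (b (l 16575512) (l 16592536)) (b (l 16610032) (b (l 16623448) (l 16632544)))) (b (b (a (l 16643120) (l 16649680)) (a (l 16661944) (l 16668360))) (b (a (l 16681024) (l 16687296)) (a (l 16700416) (l 16706544)))))) (b (b (a (b (l 16589552) (l 16606296)) (b (l 16603176) (l 16619640))) (a (b (l 16623512) (l 16641192)) (b (l 16636576) (l 16653968)))) (b (a (b (a (l 16656136) (l 16662488)) (a (l 16674672) (l 16680880))) (b (a (l 16668728) (l 16674872)) (a (l 16686976) (l 16692976)))) (a (b (a (l 16693464) (l 16699528)) (b (l 16710736) (a (l 16717384) (l 16723272)))) (b (a (l 16705480)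 (l 16711336)) (a (b (l 16719552) (l 16729048)) (b (l 16725296) (l 16734728)))))))), by decide +kernel⟩

def k19_A00pp_022_s3 : ∃ t, chk3 f_A00pp_022_s3 t 18 14 260 = true :=
  ⟨(a (a (b (b (b (a (l 1) (l 16564504)) (a (b (l 16570152) (l 16578968)) (l 16581760))) (b (a (l 16592432) (l 16599488)) (a (l 16610768) (l 16617680)))) (b (b (b (l 16628232) (l 16637696)) (a (l 16648696) (l 16655328))) (b (a (l 16668080) (l 16674568)) (a (l 16687768) (l 16694120))))) (b (b (b (l 16575320) (l 16592360)) (b (l 16609880) (b (l 16623312) (l 16632416)))) (b (b (a (l 16643008) (l 16649576)) (a (l 16661856) (l 16668272))) (b (a (l 16680952) (l 16687224)) (a (l 16700360) (l 16706496)))))) (b (b (a (b (l 16589376) (l 16606136)) (b (l 16603008) (l 16619496))) (a (b (l 16623376) (l 16641072)) (b (l 16636456) (l 16653864)))) (b (a (b (a (l 16656032) (l 16662392)) (a (l 16674592) (l 16680800))) (b (a (l 16668640) (l 16674784)) (a (l 16686904) (l 16692912)))) (a (b (a (l 16693400) (l 16699464)) (b (l 16710688) (a (l 16717344)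 (l 16723232)))) (b (a (l 16705432) (l 16711288)) (a (b (l 16719512) (l 16729016)) (b (l 16725264) (l 16734696)))))))), by decide +kernel⟩

def k20_A00pp_022_s3 : ∃ t, chk3 f_A00pp_022_s3 t 18 14 261 = true :=
  ⟨(a (a (b (b (b (a (l 1) (l 16564304)) (a (b (l 16569960) (l 16578784)) (l 16581576))) (b (a (l 16592256) (l 16599328)) (a (l 16610616) (l 16617544)))) (b (b (b (l 16628104) (l 16637584)) (a (l 16648592) (l 16655224))) (b (a (l 16667992) (l 16674488)) (a (l 16687704) (l 16694056))))) (b (b (b (l 16575128) (l 16592192)) (b (l 16609728) (b (l 16623176) (l 16632296)))) (b (b (a (l 16642896) (l 16649464)) (a (l 16661760) (l 16668184))) (b (a (l 16680872) (l 16687160)) (a (l 16700304) (l 16706440)))))) (b (b (a (b (l 16589192) (l 16605976)) (b (l 16602848) (l 16619352))) (a (b (l 16623232) (l 16640952)) (b (l 16636328) (l 16653760)))) (b (a (b (a (l 16655928) (l 16662296)) (a (l 16674504) (l 16680720))) (b (a (l 16668552) (l 16674704)) (a (l 16686832) (l 16692840)))) (a (b (a (l 16693336) (l 16699408))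 (b (l 16710640) (a (l 16717304) (l 16723192)))) (b (a (l 16705376) (l 16711240)) (a (b (l 16719472) (l 16728984)) (b (l 16725224) (l 16734664)))))))), by decide +kernel⟩

def k21_A00pp_022_s3 : ∃ t, chk3 f_A00pp_022_s3 t 18 14 262 = true :=
  ⟨(a (a (b (b (b (a (l 1) (l 16564096)) (a (b (l 16569760) (l 16578600)) (l 16581392))) (b (a (l 16592088) (l 16599160)) (a (l 16610472) (l 16617400)))) (b (b (b (l 16627976) (l 16637464)) (a (l 16648488) (l 16655128))) (b (a (l 16667912) (l 16674408)) (a (l 16687640) (l 16693992))))) (b (b (b (l 16574928) (l 16592016)) (b (l 16609576) (b (l 16623040) (l 16632168)))) (b (b (a (l 16642784) (l 16649360)) (a (l 16661664) (l 16668096))) (b (a (l 16680800) (l 16687088)) (a (l 16700248) (l 16706392)))))) (b (b (a (b (l 16589016) (l 16605824)) (b (l 16602680) (l 16619208))) (a (b (l 16623096) (l 16640832)) (b (l 16636200) (l 16653656)))) (b (a (b (a (l 16655832) (l 16662200)) (a (l 16674424) (l 16680648))) (b (a (l 16668456) (l 16674616)) (a (l 16686760) (l 16692776))))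 (a (b (a (l 16693272) (l 16699352)) (b (l 16710592) (a (l 16717256) (l 16723160)))) (b (a (l 16705320) (l 16711192)) (a (b (l 16719424) (l 16728952)) (b (l 16725184) (l 16734640)))))))), by decide +kernel⟩

def k22_A00pp_022_s3 : ∃ t, chk3 f_A00pp_022_s3 t 18 14 263 = true :=
  ⟨(a (a (b (b (b (a (l 1) (l 16563896)) (a (b (l 16569568) (l 16578416)) (l 16581208))) (b (a (l 16591920) (l 16599000)) (a (l 16610328) (l 16617264)))) (b (b (b (l 16627848) (l 16637344)) (a (l 16648384) (l 16655032))) (b (a (l 16667824) (l 16674328)) (a (l 16687576) (l 16693936))))) (b (b (b (l 16574736) (l 16591840)) (b (l 16609424) (b (l 16622904) (l 16632040)))) (b (b (a (l 16642664) (l 16649248)) (a (l 16661568) (l 16668008))) (b (a (l 16680728) (l 16687016)) (a (l 16700192) (l 16706336)))))) (b (b (a (b (l 16588832) (l 16605664)) (b (l 16602520) (l 16619064))) (a (b (l 16622960) (l 16640712)) (b (l 16636072) (l 16653544)))) (b (a (b (a (l 16655728) (l 16662096)) (a (l 16674336) (l 16680568))) (b (a (l 16668368) (l 16674536))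 (a (l 16686688) (l 16692712)))) (a (b (a (l 16693208) (l 16699288)) (b (l 16710544) (a (l 16717216) (l 16723120)))) (b (a (l 16705264) (l 16711144)) (a (b (l 16719384) (l 16728912)) (b (l 16725152) (l 16734608)))))))), by decide +kernel⟩

def k23_A00pp_022_s3 : ∃ t, chk3 f_A00pp_022_s3 t 18 14 528 = true :=
  ⟨(a (a (b (b (b (a (l 1) (l 16563744)) (a (b (l 16569424) (l 16578280)) (l 16581072))) (b (a (l 16591792) (l 16598880)) (a (l 16610216) (l 16617152)))) (b (b (b (l 16627752) (l 16637256)) (a (l 16648304) (l 16654952))) (b (a (l 16667760) (l 16674264)) (a (l 16687520) (l 16693888))))) (b (b (b (l 16574592) (l 16591712)) (b (l 16609312) (b (l 16622800) (l 16631944)))) (b (b (a (l 16642584) (l 16649168)) (a (l 16661504) (l 16667944))) (b (a (l 16680672) (l 16686968)) (a (l 16700144) (l 16706296)))))) (b (b (a (b (l 16588696) (l 16605544)) (b (l 16602392) (l 16618952))) (a (b (l 16622856) (l 16640624)) (b (l 16635984) (l 16653464)))) (b (a (b (a (l 16655648) (l 16662024)) (a (l 16674280) (l 16680512)))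 (b (a (l 16668304) (l 16674472)) (a (l 16686640) (l 16692656)))) (a (b (a (l 16693160) (l 16699248)) (b (l 16710504) (a (l 16717184) (l 16723088)))) (b (a (l 16705224) (l 16711104)) (a (b (l 16719352) (l 16728888)) (b (l 16725120) (l 16734584)))))))), by decide +kernel⟩

def k24_A00pp_022_s3 : ∃ t, chk3 f_A00pp_022_s3 t 18 14 529 = true :=
  ⟨(a (a (b (b (b (a (l 1) (l 16563640)) (a (b (l 16569320) (l 16578184)) (l 16580976))) (b (a (l 16591712) (l 16598800)) (a (l 16610144) (l 16617080)))) (b (b (b (l 16627688) (l 16637200)) (a (l 16648248) (l 16654904))) (b (a (l 16667720) (l 16674224)) (a (l 16687488) (l 16693856))))) (b (b (b (l 16574496) (l 16591624)) (b (l 16609232) (b (l 16622728) (l 16631880)))) (b (b (a (l 16642520) (l 16649112)) (a (l 16661456) (l 16667896))) (b (a (l 16680632) (l 16686928)) (a (l 16700120) (l 16706272)))))) (b (b (a (b (l 16588608) (l 16605464)) (b (l 16602312) (l 16618880))) (a (b (l 16622784) (l 16640568)) (b (l 16635920) (l 16653416)))) (b (a (b (a (l 16655600) (l 16661976))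 (a (l 16674240) (l 16680472))) (b (a (l 16668256) (l 16674432)) (a (l 16686600) (l 16692624)))) (a (b (a (l 16693128) (l 16699216)) (b (l 16710480) (a (l 16717160) (l 16723072)))) (b (a (l 16705200) (l 16711080)) (a (b (l 16719336) (l 16728872)) (b (l 16725104) (l 16734568)))))))), by decide +kernel⟩

def k25_A00pp_022_s3 : ∃ t, chk3 f_A00pp_022_s3 t 18 14 530 = true :=
  ⟨(a (a (b (b (b (a (l 1) (l 16563536)) (a (b (l 16569224) (l 16578088)) (l 16580888))) (b (a (l 16591624) (l 16598720)) (a (l 16610064) (l 16617016)))) (b (b (b (l 16627624) (l 16637136)) (a (l 16648200) (l 16654856))) (b (a (l 16667672) (l 16674184)) (a (l 16687456) (l 16693824))))) (b (b (b (l 16574400) (l 16591544)) (b (l 16609160) (b (l 16622664) (l 16631816)))) (b (b (a (l 16642464) (l 16649056)) (a (l 16661408) (l 16667856))) (b (a (l 16680592) (l 16686896)) (a (l 16700088) (l 16706248)))))) (b (b (a (b (l 16588520) (l 16605384)) (b (l 16602224) (l 16618808))) (a (b (l 16622712) (l 16640504)) (b (l 16635856) (l 16653360))))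 (b (a (b (a (l 16655544) (l 16661928)) (a (l 16674192) (l 16680432))) (b (a (l 16668208) (l 16674384)) (a (l 16686568) (l 16692592)))) (a (b (a (l 16693096) (l 16699184)) (b (l 16710456) (a (l 16717144) (l 16723048)))) (b (a (l 16705176) (l 16711056)) (a (b (l 16719312) (l 16728856)) (b (l 16725088) (l 16734552)))))))), by decide +kernel⟩

def k26_A00pp_022_s3 : ∃ t, chk3 f_A00pp_022_s3 t 18 56 531 = true :=
  ⟨(a (a (b (a (l 1) (l 16563432)) (a (b (l 16569128) (l 16578000)) (l 16580792))) (b (l 16574304) (l 16591456))) (a (b (l 16588432) (l 16605304)) (b (l 16602144) (l 16618736)))), by decide +kernel⟩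

def k27_A00pp_022_s3 : ∃ t, chk3 f_A00pp_022_s3 t 18 57 531 = true :=
  ⟨(b (b (b (b (b (a (a (l 16586632) (l 16600744)) (a (l 16614440) (l 16627728))) (b (a (a (l 16587472) (l 16601568)) (a (l 16615256) (l 16628528))) (b (b (a (a (l 16587824) (l 16601920)) (a (l 16615592) (l 16628856))) (a (a (l 16587968) (l 16602056)) (a (l 16615728) (l 16628992)))) (a (a (l 16588176) (l 16602264)) (a (l 16615936) (l 16629192)))))) (b (a (a (l 16588880) (l 16602952)) (a (l 16616616) (l 16629864))) (b (a (a (l 16589720) (l 16603784)) (a (l 16617432) (l 16630664))) (a (a (l 16590280) (l 16604336)) (a (l 16617976) (l 16631200)))))) (b (b (b (b (a (a (l 16590704) (l 16604752)) (a (l 16618384) (l 16631600))) (a (a (l 16590984) (l 16605032)) (a (l 16618656) (l 16631872)))) (b (c (a (a (l 16591288) (l 16605328)) (a (l 16618952) (l 16632160))) (a (a (l 16591248) (l 16605288)) (a (l 16618912) (l 16632128)))) (c (a (a (l 16591576) (l 16605608)) (a (l 16619224) (l 16632424))) (a (a (l 16591528) (l 16605568)) (a (l 16619184)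 (l 16632392)))))) (b (b (a (a (l 16591832) (l 16605864)) (a (l 16619480) (l 16632680))) (a (a (l 16592120) (l 16606144)) (a (l 16619752) (l 16632944)))) (a (a (l 16592536) (l 16606560)) (a (l 16620160) (l 16633352))))) (b (b (a (a (l 16593104) (l 16607112)) (a (l 16620712) (l 16633888))) (a (a (l 16593672) (l 16607672)) (a (l 16621256) (l 16634424)))) (a (a (l 16594520) (l 16608504)) (a (l 16622080) (l 16635240)))))) (b (b (a (a (l 16596224) (l 16610184)) (a (l 16623728) (l 16636856))) (a (a (l 16598496) (l 16612424)) (a (l 16625928) (l 16639024)))) (a (a (l 16601928) (l 16615792)) (a (l 16629248) (l 16642288))))) (a (a (a (l 16609992) (l 16616944)) (b (l 16622592) (l 16631752))) (a (l 16640448) (l 16653304)))), by decide +kernel⟩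

def k28_A00pp_022_s3 : ∃ t, chk3 f_A00pp_022_s3 t 18 29 531 = true :=
  ⟨(a (b (a (b (b (l 16627560) (l 16637080)) (a (l 16648144) (l 16654808))) (b (a (l 16642408) (l 16649008)) (a (l 16661360) (l 16667808)))) (a (b (a (l 16667632) (l 16674144)) (a (l 16687424) (l 16693792))) (b (a (l 16680560) (l 16686864)) (a (l 16700064) (l 16706224))))) (b (a (b (a (l 16655496) (l 16661880)) (a (l 16674152) (l 16680392))) (b (a (l 16668168) (l 16674344)) (a (l 16686528) (l 16692560)))) (a (b (a (l 16693064) (l 16699152)) (b (l 16710432) (a (l 16717120) (l 16723032)))) (b (a (l 16705144) (l 16711032)) (a (b (l 16719288) (l 16728840)) (b (l 16725064) (l 16734544))))))), by decide +kernel⟩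

def k29_A00pp_022_s3 : ∃ t, chk3 f_A00pp_022_s3 t 18 56 266 = true :=
  ⟨(a (a (b (a (l 1) (l 16563280)) (a (b (l 16568984) (l 16577856)) (l 16580656))) (b (l 16574152) (l 16591320))) (a (b (l 16588296) (l 16605184)) (b (l 16602016) (l 16618624)))), by decide +kernel⟩

def k30_A00pp_022_s3 : ∃ t, chk3 f_A00pp_022_s3 t 18 456 266 = true :=
  ⟨(b (b (a (a (l 16586504) (l 16600624)) (a (l 16614328) (l 16627624))) (b (a (a (l 16587344) (l 16601448)) (a (l 16615144) (l 16628424))) (b (c (b (a (a (l 16587736) (l 16601832)) (a (l 16615520) (l 16628792))) (a (a (l 16587880) (l 16601976)) (a (l 16615656) (l 16628928)))) (b (a (a (l 16587648) (l 16601752)) (a (l 16615448) (l 16628728))) (a (a (l 16587792) (l 16601896)) (a (l 16615584) (l 16628856))))) (a (a (l 16588048) (l 16602144)) (a (l 16615824) (l 16629096)))))) (b (b (a (a (l 16588464) (l 16602552)) (a (l 16616232) (l 16629496))) (c (a (a (l 16589072) (l 16603152)) (a (l 16616816) (l 16630064))) (a (a (l 16588984) (l 16603072)) (a (l 16616744) (l 16630000)))))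 (b (c (a (a (l 16589632) (l 16603704)) (a (l 16617360) (l 16630600))) (a (a (l 16589552) (l 16603624)) (a (l 16617288) (l 16630536)))) (c (a (a (l 16590200) (l 16604256)) (a (l 16617904) (l 16631136))) (a (a (l 16590112) (l 16604176)) (a (l 16617832) (l 16631072))))))), by decide +kernel⟩

def k31_A00pp_022_s3 : ∃ t, chk3 f_A00pp_022_s3 t 18 457 266 = true :=
  ⟨(b (b (b (c (b (a (a (l 16590624) (l 16604672)) (a (l 16618312) (l 16631536))) (a (a (l 16590904) (l 16604952)) (a (l 16618584) (l 16631808)))) (b (a (a (l 16590536) (l 16604592)) (a (l 16618240) (l 16631472))) (c (a (a (l 16590840) (l 16604896)) (a (l 16618536) (l 16631760))) (a (a (l 16590792) (l 16604856)) (a (l 16618496) (l 16631728)))))) (c (b (c (a (a (l 16591208) (l 16605248)) (a (l 16618880) (l 16632088))) (a (a (l 16591160) (l 16605208)) (a (l 16618840) (l 16632056)))) (c (a (a (l 16591488) (l 16605528)) (a (l 16619152) (l 16632360))) (a (a (l 16591448) (l 16605488)) (a (l 16619112) (l 16632328))))) (b (c (a (a (l 16591120) (l 16605168))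 (a (l 16618808) (l 16632024))) (a (a (l 16591080) (l 16605128)) (a (l 16618768) (l 16631992)))) (c (a (a (l 16591400) (l 16605448)) (a (l 16619080) (l 16632296))) (a (a (l 16591360) (l 16605408)) (a (l 16619040) (l 16632264))))))) (b (c (a (a (l 16591888) (l 16605920)) (a (l 16619544) (l 16632744))) (a (a (l 16591808) (l 16605848)) (a (l 16619472) (l 16632680)))) (c (a (a (l 16592456) (l 16606480)) (a (l 16620088) (l 16633288))) (a (a (l 16592368) (l 16606400)) (a (l 16620016) (l 16633224)))))) (b (b (c (a (a (l 16593024) (l 16607040)) (a (l 16620640) (l 16633824))) (a (a (l 16592936) (l 16606960)) (a (l 16620568) (l 16633760)))) (a (a (l 16593544) (l 16607552)) (a (l 16621152) (l 16634328)))) (a (a (l 16594392) (l 16608392)) (a (l 16621976) (l 16635144))))), by decide +kernel⟩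

def k32_A00pp_022_s3 : ∃ t, chk3 f_A00pp_022_s3 t 18 229 266 = true :=
  ⟨(b (b (b (a (a (l 16595528) (l 16609512)) (a (l 16623072) (l 16636224))) (a (a (l 16596664) (l 16610624)) (a (l 16624176) (l 16637304)))) (a (a (l 16598376) (l 16612312)) (a (l 16625832) (l 16638936)))) (a (a (l 16601808) (l 16615688)) (a (l 16629152) (l 16642200)))), by decide +kernel⟩

def k33_A00pp_022_s3 : ∃ t, chk3 f_A00pp_022_s3 t 18 115 266 = true :=
  ⟨(a (a (a (l 16609880) (l 16616840)) (b (l 16622488) (l 16631656))) (a (l 16640360) (l 16653224))), by decide +kernel⟩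

def k34_A00pp_022_s3 : ∃ t, chk3 f_A00pp_022_s3 t 18 29 266 = true :=
  ⟨(a (b (a (b (b (l 16627464) (l 16636992)) (a (l 16648064) (l 16654728))) (b (a (l 16642320) (l 16648920)) (a (l 16661288) (l 16667744)))) (a (b (a (l 16667568) (l 16674088)) (a (l 16687376) (l 16693752))) (b (a (l 16680504) (l 16686808)) (a (l 16705264) (l 16706184))))) (b (a (b (a (l 16655416) (l 16661808)) (a (l 16674088) (l 16680336))) (b (a (l 16668096) (l 16674280)) (a (l 16686472) (l 16692512)))) (a (b (a (l 16693016) (l 16699112)) (b (l 16710400) (a (l 16717088) (l 16723000)))) (b (a (l 16705104) (l 16710992)) (a (b (l 16719256) (l 16728816)) (b (l 16725040) (l 16734520))))))), by decide +kernel⟩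

def k35_A00pp_022_s3 : ∃ t, chk3 f_A00pp_022_s3 t 18 56 267 = true :=
  ⟨(a (a (b (a (l 1) (l 16563072)) (a (b (l 16568784) (l 16577672)) (l 16580472))) (b (l 16573960) (l 16591152))) (a (b (l 16588112) (l 16605024)) (b (l 16601856) (l 16618480)))), by decide +kernel⟩

def k36_A00pp_022_s3 : ∃ t, chk3 f_A00pp_022_s3 t 18 456 267 = true :=
  ⟨(b (b (b (a (a (l 16586040) (l 16600184)) (a (l 16613912) (l 16627216))) (a (a (l 16586608) (l 16600736)) (a (l 16614448) (l 16627752)))) (b (a (a (l 16587168) (l 16601288)) (a (l 16614992) (l 16628288))) (b (c (b (a (a (l 16587560) (l 16601672)) (a (l 16615376) (l 16628656))) (a (a (l 16587704) (l 16601816)) (a (l 16615512) (l 16628792)))) (b (a (a (l 16587472) (l 16601592)) (a (l 16615296) (l 16628592))) (a (a (l 16587616) (l 16601728)) (a (l 16615432) (l 16628728))))) (a (a (l 16587872) (l 16601976)) (a (l 16615680) (l 16628960)))))) (b (b (a (a (l 16588288) (l 16602392)) (a (l 16616088) (l 16629360))) (c (a (a (l 16588896) (l 16602992)) (a (l 16616664) (l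 16629928))) (a (a (l 16588808) (l 16602912)) (a (l 16616592) (l 16629864))))) (b (c (a (a (l 16589464) (l 16603544)) (a (l 16617216) (l 16630464))) (a (a (l 16589376) (l 16603464)) (a (l 16617136) (l 16630400)))) (c (a (a (l 16590024) (l 16604096)) (a (l 16617760) (l 16631000))) (a (a (l 16589936) (l 16604016)) (a (l 16617688) (l 16630936))))))), by decide +kernel⟩

def k37_A00pp_022_s3 : ∃ t, chk3 f_A00pp_022_s3 t 18 457 267 = true :=
  ⟨(b (b (b (c (b (a (a (l 16590448) (l 16604512)) (a (l 16618168) (l 16631408))) (c (a (a (l 16590752) (l 16604816)) (a (l 16618464) (l 16631696))) (a (a (l 16590712) (l 16604776)) (a (l 16618424) (l 16631656))))) (b (a (a (l 16590360) (l 16604440)) (a (l 16618096) (l 16631344))) (c (a (a (l 16590664) (l 16604736)) (a (l 16618384) (l 16631624))) (a (a (l 16590624) (l 16604696)) (a (l 16618352) (l 16631592)))))) (c (b (c (a (a (l 16591032) (l 16605088)) (a (l 16618736) (l 16631960))) (a (a (l 16590992) (l 16605048)) (a (l 16618696) (l 16631928)))) (c (a (a (l 16591320)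 (l 16605368)) (a (l 16619008) (l 16632232))) (a (a (l 16591272) (l 16605328)) (a (l 16618968) (l 16632200))))) (b (c (a (a (l 16590952) (l 16605016)) (a (l 16618664) (l 16631896))) (a (a (l 16590904) (l 16604976)) (a (l 16618624) (l 16631864)))) (c (a (a (l 16591232) (l 16605288)) (a (l 16618936) (l 16632168))) (a (a (l 16591192) (l 16605248)) (a (l 16618896) (l 16632136))))))) (b (c (a (a (l 16591720) (l 16605768)) (a (l 16619400) (l 16632616))) (a (a (l 16591632) (l 16605688)) (a (l 16619328) (l 16632552)))) (c (a (a (l 16592288) (l 16606320)) (a (l 16619944) (l 16633160))) (a (a (l 16592200) (l 16606248)) (a (l 16619880) (l 16633096)))))) (b (b (c (a (a (l 16592856) (l 16606880)) (a (l 16620496) (l 16633696))) (a (a (l 16592768) (l 16606800)) (a (l 16620424) (l 16633632)))) (a (a (l 16593376) (l 16607400)) (a (l 16621008) (l 16634200)))) (a (a (l 16594224) (l 16608240)) (a (l 16621832) (l 16635016))))), by decide +kernel⟩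

def k38_A00pp_022_s3 : ∃ t, chk3 f_A00pp_022_s3 t 18 229 267 = true :=
  ⟨(b (b (b (a (a (l 16595368) (l 16609360)) (a (l 16622936) (l 16636096))) (a (a (l 16596504) (l 16610480)) (a (l 16624040) (l 16637184)))) (a (a (l 16598216) (l 16612160)) (a (l 16625696) (l 16638808)))) (a (a (l 16601648) (l 16615544)) (a (l 16629016) (l 16642080)))), by decide +kernel⟩

def k39_A00pp_022_s3 : ∃ t, chk3 f_A00pp_022_s3 t 18 115 267 = true :=
  ⟨(a (a (a (l 16609736) (l 16616696)) (b (l 16622352) (l 16631528))) (a (l 16640240) (l 16653120))), by decide +kernel⟩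

def k40_A00pp_022_s3 : ∃ t, chk3 f_A00pp_022_s3 t 18 29 267 = true :=
  ⟨(a (b (a (b (b (l 16627336) (l 16636872)) (a (l 16647960) (l 16654632))) (b (a (l 16642208) (l 16648816)) (a (l 16661192) (l 16667656)))) (a (b (a (l 16667480) (l 16674008)) (a (l 16687312) (l 16693688))) (b (a (l 16680424) (l 16686736)) (a (l 16705208) (l 16706128))))) (b (a (b (a (l 16655320) (l 16661712)) (a (l 16674008) (l 16680256))) (b (a (l 16668008) (l 16674192)) (a (l 16686400) (l 16692440)))) (a (b (a (l 16692944) (l 16699048)) (b (l 16710352) (a (l 16717048) (l 16722968)))) (b (a (l 16705048) (l 16710944)) (a (b (l 16719216) (l 16728776)) (b (l 16725000) (l 16734488))))))), by decide +kernel⟩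

def k41_A00pp_022_s3 : ∃ t, chk3 f_A00pp_022_s3 t 18 56 268 = true :=
  ⟨(a (a (b (a (l 1) (l 16562864)) (a (b (l 16568584) (l 16577488)) (l 16580288))) (b (l 16573768) (l 16590976))) (a (b (l 16587936) (l 16604864)) (b (l 16601688) (l 16618336)))), by decide +kernel⟩

def k42_A00pp_022_s3 : ∃ t, chk3 f_A00pp_022_s3 t 18 456 268 = true :=
  ⟨(b (b (b (a (a (l 16585864) (l 16600016)) (a (l 16613760) (l 16627080))) (a (a (l 16586432) (l 16600576)) (a (l 16614304) (l 16627616)))) (b (a (a (l 16586992) (l 16601128)) (a (l 16614848) (l 16628152))) (b (c (a (a (l 16587456) (l 16601584)) (a (l 16615296) (l 16628592))) (a (a (l 16587368) (l 16601504)) (a (l 16615216) (l 16628520)))) (a (a (l 16587696) (l 16601816)) (a (l 16615528) (l 16628824)))))) (b (b (a (a (l 16588120) (l 16602232)) (a (l 16615936) (l 16629224))) (c (a (a (l 16588728) (l 16602832)) (a (l 16616520) (l 16629800))) (a (a (l 16588640) (l 16602752)) (a (l 16616448) (l 16629728))))) (b (c (a (a (l 16589288) (l 16603384)) (a (l 16617064) (l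 16630336))) (a (a (l 16589200) (l 16603304)) (a (l 16616992) (l 16630264)))) (c (a (a (l 16589856) (l 16603944)) (a (l 16617616) (l 16630872))) (a (a (l 16589768) (l 16603864)) (a (l 16617544) (l 16630808))))))), by decide +kernel⟩

def k43_A00pp_022_s3 : ∃ t, chk3 f_A00pp_022_s3 t 18 457 268 = true :=
  ⟨(b (b (b (c (b (a (a (l 16590280) (l 16604360)) (a (l 16618024) (l 16631272))) (c (a (a (l 16590584) (l 16604656)) (a (l 16618312) (l 16631560))) (a (a (l 16590536) (l 16604616)) (a (l 16618280) (l 16631528))))) (b (a (a (l 16590192) (l 16604280)) (a (l 16617952) (l 16631208))) (c (a (a (l 16590496) (l 16604576)) (a (l 16618240) (l 16631496))) (a (a (l 16590456) (l 16604536)) (a (l 16618208) (l 16631464)))))) (c (b (c (a (a (l 16590864) (l 16604936)) (a (l 16618592) (l 16631832))) (a (a (l 16590824) (l 16604896)) (a (l 16618552) (l 16631800)))) (a (a (l 16591128) (l 16605192)) (a (l 16618848) (l 16632080)))) (b (c (a (a (l 16590776) (l 16604856)) (a (l 16618520) (l 16631768))) (a (a (l 16590736) (l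 16604816)) (a (l 16618480) (l 16631736)))) (a (a (l 16591040) (l 16605112)) (a (l 16618776) (l 16632016)))))) (b (c (a (a (l 16591552) (l 16605608)) (a (l 16619256) (l 16632488))) (a (a (l 16591464) (l 16605528)) (a (l 16619184) (l 16632424)))) (c (a (a (l 16592120) (l 16606168)) (a (l 16619808) (l 16633024))) (a (a (l 16592032) (l 16606088)) (a (l 16619736) (l 16632960)))))) (b (b (a (a (l 16592640) (l 16606688)) (a (l 16620320) (l 16633536))) (a (a (l 16593208) (l 16607248)) (a (l 16620864) (l 16634072)))) (a (a (l 16594064) (l 16608080)) (a (l 16621696) (l 16634888))))), by decide +kernel⟩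

def k44_A00pp_022_s3 : ∃ t, chk3 f_A00pp_022_s3 t 18 229 268 = true :=
  ⟨(b (b (b (a (a (l 16595200) (l 16609200)) (a (l 16622792) (l 16635968))) (a (a (l 16596336) (l 16610328)) (a (l 16623896) (l 16637056)))) (a (a (l 16598048) (l 16612008)) (a (l 16625560) (l 16638688)))) (a (a (l 16601488) (l 16615392)) (a (l 16628888) (l 16641960)))), by decide +kernel⟩

def k45_A00pp_022_s3 : ∃ t, chk3 f_A00pp_022_s3 t 18 115 268 = true :=
  ⟨(a (a (a (l 16609584) (l 16616552)) (b (l 16622216) (l 16631408))) (a (l 16640120) (l 16653008))), by decide +kernel⟩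

def k46_A00pp_022_s3 : ∃ t, chk3 f_A00pp_022_s3 t 18 29 268 = true :=
  ⟨(a (b (a (b (b (l 16627208) (l 16636752)) (a (l 16647856) (l 16654528))) (b (a (l 16642096) (l 16648704)) (a (l 16661096) (l 16667560)))) (a (b (a (l 16667400) (l 16673928)) (a (l 16687240) (l 16693624))) (b (a (l 16680352) (l 16686672)) (a (l 16705152) (l 16706080))))) (b (a (b (a (l 16655216) (l 16661616)) (a (l 16673920) (l 16680176))) (b (a (l 16667912) (l 16674112)) (a (l 16686328) (l 16692376)))) (a (b (a (l 16692880) (l 16698992)) (b (l 16710296) (a (l 16717000) (l 16722928)))) (b (a (l 16704992) (l 16710896)) (a (b (l 16719176) (l 16728744)) (b (l 16724960) (l 16734456))))))), by decide +kernel⟩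

def k47_A00pp_022_s3 : ∃ t, chk3 f_A00pp_022_s3 t 18 56 269 = true :=
  ⟨(a (a (b (a (l 1) (l 16562664)) (a (b (l 16568392) (l 16577304)) (l 16580104))) (b (l 16573568) (l 16590800))) (a (b (l 16587752) (l 16604696)) (b (l 16601520) (l 16618184)))), by decide +kernel⟩

def k48_A00pp_022_s3 : ∃ t, chk3 f_A00pp_022_s3 t 18 456 269 = true :=
  ⟨(b (b (b (a (a (l 16585688) (l 16599856)) (a (l 16613608) (l 16626944))) (a (a (l 16586256) (l 16600408)) (a (l 16614152) (l 16627480)))) (b (a (a (l 16586816) (l 16600960)) (a (l 16614696) (l 16628016))) (b (c (a (a (l 16587280) (l 16601416)) (a (l 16615144) (l 16628456))) (a (a (l 16587192) (l 16601336)) (a (l 16615072) (l 16628384)))) (a (a (l 16587520) (l 16601656)) (a (l 16615384) (l 16628688)))))) (b (b (a (a (l 16587944) (l 16602072)) (a (l 16615792) (l 16629096))) (c (a (a (l 16588552) (l 16602672)) (a (l 16616376) (l 16629664))) (a (a (l 16588464) (l 16602592)) (a (l 16616296) (l 16629600))))) (b (c (a (a (l 16589112) (l 16603224)) (a (l 16616920) (l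 16630200))) (a (a (l 16589032) (l 16603144)) (a (l 16616848) (l 16630136)))) (c (a (a (l 16589680) (l 16603784)) (a (l 16617464) (l 16630736))) (a (a (l 16589592) (l 16603704)) (a (l 16617392) (l 16630672))))))), by decide +kernel⟩

def k49_A00pp_022_s3 : ∃ t, chk3 f_A00pp_022_s3 t 18 457 269 = true :=
  ⟨(b (b (b (c (b (c (a (a (l 16590128) (l 16604216)) (a (l 16617896) (l 16631160))) (a (a (l 16590080) (l 16604176)) (a (l 16617864) (l 16631128)))) (c (a (a (l 16590408) (l 16604496)) (a (l 16618168) (l 16631432))) (a (a (l 16590368) (l 16604456)) (a (l 16618136) (l 16631400))))) (b (c (a (a (l 16590040) (l 16604136)) (a (l 16617824) (l 16631096))) (a (a (l 16590000) (l 16604096)) (a (l 16617784) (l 16631064)))) (c (a (a (l 16590320) (l 16604416)) (a (l 16618096) (l 16631368))) (a (a (l 16590280) (l 16604376)) (a (l 16618064) (l 16631328)))))) (c (b (c (a (a (l 16590696) (l 16604776)) (a (l 16618448) (l 16631696))) (a (a (l 16590648) (l 16604736)) (a (l 16618408) (l 16631664)))) (a (a (l 16590952)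 (l 16605032)) (a (l 16618704) (l 16631952)))) (b (c (a (a (l 16590608) (l 16604696)) (a (l 16618376) (l 16631632))) (a (a (l 16590568) (l 16604656)) (a (l 16618336) (l 16631600)))) (a (a (l 16590872) (l 16604952)) (a (l 16618632) (l 16631888)))))) (b (c (a (a (l 16591376) (l 16605456)) (a (l 16619112) (l 16632360))) (a (a (l 16591296) (l 16605376)) (a (l 16619040) (l 16632296)))) (c (a (a (l 16591944) (l 16606008)) (a (l 16619664) (l 16632896))) (a (a (l 16591864) (l 16605936)) (a (l 16619592) (l 16632832)))))) (b (a (a (l 16592752) (l 16606808)) (a (l 16620448) (l 16633680))) (a (a (l 16593896) (l 16607928)) (a (l 16621552) (l 16634760))))), by decide +kernel⟩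

def k50_A00pp_022_s3 : ∃ t, chk3 f_A00pp_022_s3 t 18 229 269 = true :=
  ⟨(b (b (b (a (a (l 16595032) (l 16609048)) (a (l 16622656) (l 16635848))) (a (a (l 16596176) (l 16610176)) (a (l 16623760) (l 16636928)))) (a (a (l 16597888) (l 16611864)) (a (l 16625424) (l 16638568)))) (a (a (l 16601328) (l 16615248)) (a (l 16628752) (l 16641848)))), by decide +kernel⟩

def k51_A00pp_022_s3 : ∃ t, chk3 f_A00pp_022_s3 t 18 115 269 = true :=
  ⟨(a (a (a (l 16609440) (l 16616408)) (b (l 16622080) (l 16631280))) (a (l 16640000) (l 16652904))), by decide +kernel⟩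

def k52_A00pp_022_s3 : ∃ t, chk3 f_A00pp_022_s3 t 18 29 269 = true :=
  ⟨(a (b (a (b (b (l 16627080) (l 16636640)) (a (l 16647752) (l 16654432))) (b (a (l 16641976) (l 16648600)) (a (l 16661008) (l 16667472)))) (a (b (a (l 16667312) (l 16673848)) (a (l 16687176) (l 16693568))) (b (a (l 16680272) (l 16686600)) (a (l 16705088) (l 16706024))))) (b (a (b (a (l 16655112) (l 16661520)) (a (l 16673840) (l 16680104))) (b (a (l 16667824) (l 16674024)) (a (l 16686256) (l 16692312)))) (a (b (a (l 16692816) (l 16698928)) (b (l 16710248) (a (l 16716960) (l 16722888)))) (b (a (l 16704944) (l 16710840)) (a (b (l 16719136) (l 16728712)) (b (l 16724928) (l 16734432))))))), by decide +kernel⟩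

def k53_A00pp_022_s3 : ∃ t, chk3 f_A00pp_022_s3 t 18 56 135 = true :=
  ⟨(a (a (b (a (l 1) (l 16562352)) (a (b (l 16568096) (l 16577024)) (l 16579824))) (b (l 16573272) (l 16590536))) (a (b (l 16587480) (l 16604456)) (b (l 16601272) (l 16617968)))), by decide +kernel⟩

def k54_A00pp_022_s3 : ∃ t, chk3 f_A00pp_022_s3 t 18 912 135 = true :=
  ⟨(b (b (c (a (a (l 16585512) (l 16599688)) (a (l 16613456) (l 16626808))) (a (a (l 16585336) (l 16599528)) (a (l 16613304) (l 16626672)))) (a (a (l 16585984) (l 16600160)) (a (l 16613928) (l 16627280)))) (b (a (a (l 16586552) (l 16600720)) (a (l 16614472) (l 16627816))) (c (b (c (a (a (l 16587104) (l 16601256)) (a (l 16614992) (l 16628320))) (a (a (l 16587016) (l 16601176)) (a (l 16614920) (l 16628256)))) (a (a (l 16587344) (l 16601496)) (a (l 16615232) (l 16628552)))) (b (c (a (a (l 16586928) (l 16601096)) (a (l 16614848) (l 16628184))) (a (a (l 16586840) (l 16601016)) (a (l 16614776) (l 16628120)))) (a (a (l 16587168) (l 16601336)) (a (l 16615080) (l 16628424))))))),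 by decide +kernel⟩

def k55_A00pp_022_s3 : ∃ t, chk3 f_A00pp_022_s3 t 18 913 135 = true :=
  ⟨(b (c (b (c (a (a (l 16587808) (l 16601952)) (a (l 16615680) (l 16628992))) (a (a (l 16587728) (l 16601872)) (a (l 16615608) (l 16628928)))) (c (a (a (l 16588376) (l 16602504)) (a (l 16616224) (l 16629528))) (a (a (l 16588288) (l 16602424)) (a (l 16616152) (l 16629464))))) (b (c (a (a (l 16587640) (l 16601792)) (a (l 16615528) (l 16628856))) (a (a (l 16587552) (l 16601712)) (a (l 16615456) (l 16628792)))) (c (a (a (l 16588200) (l 16602344)) (a (l 16616080) (l 16629400))) (a (a (l 16588112) (l 16602264)) (a (l 16616008) (l 16629328)))))) (c (b (c (a (a (l 16588944) (l 16603064)) (a (l 16616776) (l 16630072))) (a (a (l 16588856) (l 16602984)) (a (l 16616704) (l 16630000)))) (c (a (a (l 16589512) (l 16603624)) (a (l 16617320) (l 16630608))) (b (a (a (l 16589280) (l 16603400)) (a (l 16617112) (l 16630408))) (a (a (l 16589560) (l 16603680)) (a (l 16617384) (l 16630680)))))) (b (c (a (a (l 16588768) (l 16602904))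 (a (l 16616624) (l 16629936))) (a (a (l 16588680) (l 16602824)) (a (l 16616552) (l 16629872)))) (c (b (a (a (l 16589192) (l 16603320)) (a (l 16617040) (l 16630344))) (c (a (a (l 16589496) (l 16603624)) (a (l 16617328) (l 16630624))) (a (a (l 16589456) (l 16603584)) (a (l 16617296) (l 16630592))))) (b (a (a (l 16589104) (l 16603240)) (a (l 16616968) (l 16630272))) (c (a (a (l 16589416) (l 16603544)) (a (l 16617256) (l 16630560))) (a (a (l 16589368) (l 16603504)) (a (l 16617224) (l 16630528))))))))), by decide +kernel⟩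

def k56_A00pp_022_s3 : ∃ t, chk3 f_A00pp_022_s3 t 18 1828 135 = true :=
  ⟨(c (b (c (b (c (a (a (l 16589952) (l 16604056)) (a (l 16617752) (l 16631032))) (a (a (l 16589912) (l 16604016)) (a (l 16617712) (l 16630992)))) (c (a (a (l 16590240) (l 16604336)) (a (l 16618024) (l 16631296))) (a (a (l 16590192) (l 16604296)) (a (l 16617992) (l 16631264))))) (b (c (a (a (l 16589872) (l 16603976)) (a (l 16617680) (l 16630960))) (a (a (l 16589824) (l 16603944)) (a (l 16617640) (l 16630928)))) (c (a (a (l 16590152) (l 16604256)) (a (l 16617952) (l 16631232))) (a (a (l 16590112) (l 16604216)) (a (l 16617920) (l 16631200)))))) (c (b (a (a (l 16590496) (l 16604600)) (a (l 16618280) (l 16631552))) (a (a (l 16590784) (l 16604880)) (a (l 16618560) (l 16631824)))) (a (a (l 16590552) (l 16604656)) (a (l 16618344) (l 16631624))))) (b (c (b (c (a (a (l 16589784) (l 16603904)) (a (l 16617608) (l 16630896))) (a (a (l 16589736) (l 16603864)) (a (l 16617568) (l 16630864)))) (c (a (a (l 16590064) (l 16604176)) (a (l 16617880)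 (l 16631168))) (a (a (l 16590024) (l 16604136)) (a (l 16617840) (l 16631136))))) (b (c (a (a (l 16589696) (l 16603824)) (a (l 16617536) (l 16630832))) (a (a (l 16589656) (l 16603784)) (a (l 16617496) (l 16630800)))) (c (a (a (l 16589976) (l 16604104)) (a (l 16617808) (l 16631104))) (a (a (l 16589936) (l 16604064)) (a (l 16617768) (l 16631064)))))) (c (a (a (l 16590472) (l 16604576)) (a (l 16618272) (l 16631552))) (a (a (l 16590384) (l 16604496)) (a (l 16618200) (l 16631488)))))), by decide +kernel⟩

def k57_A00pp_022_s3 : ∃ t, chk3 f_A00pp_022_s3 t 18 1829 135 = true :=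
  ⟨(c (b (c (a (a (l 16591208) (l 16605296)) (a (l 16618968) (l 16632224))) (a (a (l 16591120) (l 16605216)) (a (l 16618896) (l 16632160)))) (c (a (a (l 16591776) (l 16605856)) (a (l 16619520) (l 16632768))) (a (a (l 16591688) (l 16605776)) (a (l 16619448) (l 16632704))))) (b (c (a (a (l 16591040) (l 16605136)) (a (l 16618824) (l 16632096))) (a (a (l 16590952) (l 16605056)) (a (l 16618752) (l 16632032)))) (c (a (a (l 16591608) (l 16605696)) (a (l 16619376) (l 16632640))) (a (a (l 16591520) (l 16605616)) (a (l 16619304) (l 16632576)))))), by decide +kernel⟩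

def k58_A00pp_022_s3 : ∃ t, chk3 f_A00pp_022_s3 t 18 915 135 = true :=
  ⟨(b (c (a (a (l 16592584) (l 16606656)) (a (l 16620304) (l 16633544))) (a (a (l 16592416) (l 16606496)) (a (l 16620168) (l 16633416)))) (c (a (a (l 16593728) (l 16607776)) (a (l 16621408) (l 16634632))) (a (a (l 16593560) (l 16607616)) (a (l 16621272) (l 16634504))))), by decide +kernel⟩

def k59_A00pp_022_s3 : ∃ t, chk3 f_A00pp_022_s3 t 18 229 135 = true :=
  ⟨(b (b (b (c (a (a (l 16594864) (l 16608896)) (a (l 16622512) (l 16635720))) (a (a (l 16594696) (l 16608744)) (a (l 16622376) (l 16635592)))) (a (a (l 16595928) (l 16609944)) (a (l 16623552) (l 16636744)))) (a (a (l 16597640) (l 16611640)) (a (l 16625216) (l 16638376)))) (a (a (l 16601096) (l 16615032)) (a (l 16628552) (l 16641664)))), by decide +kernel⟩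

def k60_A00pp_022_s3 : ∃ t, chk3 f_A00pp_022_s3 t 18 115 135 = true :=
  ⟨(a (a (a (l 16609216) (l 16616200)) (b (l 16621872) (l 16631088))) (a (l 16639816) (l 16652744))), by decide +kernel⟩

def k61_A00pp_022_s3 : ∃ t, chk3 f_A00pp_022_s3 t 18 29 135 = true :=
  ⟨(a (b (a (b (b (l 16626880) (l 16636456)) (a (l 16647592) (l 16654280))) (b (a (l 16641808) (l 16648432)) (a (l 16660864) (l 16667344)))) (a (b (a (l 16667184) (l 16673728)) (a (l 16687080) (l 16693472))) (b (a (l 16680160) (l 16686496)) (a (l 16705008) (l 16705952))))) (b (a (b (a (l 16654952) (l 16661376)) (a (l 16673712) (l 16679984))) (b (a (l 16667688) (l 16673896)) (a (l 16686152) (l 16692208)))) (a (b (a (l 16692720) (l 16698840)) (b (l 16710176) (a (l 16716896) (l 16722832)))) (b (a (l 16704856) (l 16710768)) (a (b (l 16719072) (l 16728664)) (b (l 16724872) (l 16734384))))))), by decide +kernel⟩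

def k62_A00pp_022_s3 : ∃ t, chk3 f_A00pp_022_s3 t 18 14 272 = true :=
  ⟨(a (a (b (b (b (a (l 1) (l 16562040)) (a (b (l 16567800) (l 16576744)) (l 16579544))) (b (a (l 16590392) (l 16597528)) (a (l 16608992) (l 16615984)))) (b (b (b (l 16626688) (l 16636280)) (a (l 16647432) (l 16654128))) (b (a (l 16667056) (l 16673608)) (a (l 16686976) (l 16693384))))) (b (b (b (l 16572984) (l 16590272)) (b (l 16608040) (b (l 16621664) (l 16630896)))) (b (b (a (l 16641632) (l 16648272)) (a (l 16660720) (l 16667208))) (b (a (l 16680048) (l 16686392)) (a (l 16704920) (l 16705872)))))) (b (b (a (b (l 16587208) (l 16604216)) (b (l 16601024) (l 16617744))) (a (b (l 16621696) (l 16639640)) (b (l 16634936) (l 16652584)))) (b (a (b (a (l 16654800) (l 16661224)) (a (l 16673592) (l 16679864))) (b (a (l 16667552) (l 16673768)) (a (l 16686040) (l 16692104)))) (a (b (a (l 16692624) (l 16698752)) (b (l 16710104) (a (l 16716832) (l 16722768)))) (b (a (l 16704776) (l 16710696)) (a (b (l 16719008) (l 16728608)) (b (l 16724816) (l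 16734344)))))))), by decide +kernel⟩

def k63_A00pp_022_s3 : ∃ t, chk3 f_A00pp_022_s3 t 18 14 273 = true :=
  ⟨(a (a (b (b (b (a (l 1) (l 16561832)) (a (b (l 16567600) (l 16576552)) (l 16579360))) (b (a (l 16590224) (l 16597368)) (a (l 16608840) (l 16615840)))) (b (b (b (l 16626560) (l 16636160)) (a (l 16647328) (l 16654024))) (b (a (l 16666968) (l 16673520)) (a (l 16686912) (l 16693320))))) (b (b (b (l 16572784) (l 16590096)) (b (l 16607888) (b (l 16621520) (l 16630768)))) (b (b (a (l 16641520) (l 16648160)) (a (l 16660624) (l 16667120))) (b (a (l 16679976) (l 16686320)) (a (l 16704864) (l 16705816)))))) (b (b (a (b (l 16587024) (l 16604056)) (b (l 16600856) (l 16617600))) (a (b (l 16621552) (l 16639512)) (b (l 16634808) (l 16652472)))) (b (a (b (a (l 16654696) (l 16661128)) (a (l 16673504) (l 16679792))) (b (a (l 16667456) (l 16673680)) (a (l 16685968) (l 16692040)))) (a (b (a (l 16692560) (l 16698696)) (b (l 16710056) (a (l 16716784) (l 16722736)))) (b (a (l 16704720) (l 16710648)) (a (b (l 16718968)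 (l 16728576)) (b (l 16724776) (l 16734312)))))))), by decide +kernel⟩

def k64_A00pp_022_s3 : ∃ t, chk3 f_A00pp_022_s3 t 18 14 274 = true :=
  ⟨(a (a (b (b (b (a (l 1) (l 16561624)) (a (b (l 16567400) (l 16576368)) (l 16579176))) (b (a (l 16590056) (l 16597200)) (a (l 16608696) (l 16615696)))) (b (b (b (l 16626424) (l 16636040)) (a (l 16647216) (l 16653928))) (b (a (l 16666880) (l 16673440)) (a (l 16686840) (l 16693256))))) (b (b (b (l 16572584) (l 16589920)) (b (l 16607736) (b (l 16621384) (l 16630640)))) (b (b (a (l 16641400) (l 16648048)) (a (l 16660528) (l 16667024))) (b (a (l 16679896) (l 16686248)) (a (l 16704808) (l 16705768)))))) (b (b (a (b (l 16586840) (l 16603896)) (b (l 16600688) (l 16617448))) (a (b (l 16621416) (l 16639392)) (b (l 16634680) (l 16652368)))) (b (a (b (a (l 16654592) (l 16661032)) (a (l 16673424) (l 16679712))) (b (a (l 16667368) (l 16673600)) (a (l 16685896) (l 16691976)))) (a (b (a (l 16692496) (l 16698632)) (b (l 16710000) (a (l 16716744) (l 16722696)))) (b (a (l 16704664)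 (l 16710592)) (a (b (l 16718920) (l 16728544)) (b (l 16724736) (l 16734280)))))))), by decide +kernel⟩

def k65_A00pp_022_s3 : ∃ t, chk3 f_A00pp_022_s3 t 18 14 275 = true :=
  ⟨(a (a (b (b (b (a (l 1) (l 16561424)) (a (b (l 16567200) (l 16576176)) (l 16578992))) (b (a (l 16589880) (l 16597040)) (a (l 16608544) (l 16615552)))) (b (b (b (l 16626296) (l 16635920)) (a (l 16647112) (l 16653824))) (b (a (l 16666792) (l 16673360)) (a (l 16686776) (l 16693192))))) (b (b (b (l 16572392) (l 16589744)) (b (l 16607576) (b (l 16621248) (l 16630512)))) (b (b (a (l 16641288) (l 16647936)) (a (l 16660432) (l 16666936))) (b (a (l 16679824) (l 16686176)) (a (l 16704752) (l 16705712)))))) (b (b (a (b (l 16586664) (l 16603728)) (b (l 16600520) (l 16617304))) (a (b (l 16621272) (l 16639272)) (b (l 16634552) (l 16652256)))) (b (a (b (a (l 16654488) (l 16660936)) (a (l 16673336) (l 16679632))) (b (a (l 16667272) (l 16673512)) (a (l 16685824) (l 16691904)))) (a (b (a (l 16692424) (l 16698576)) (b (l 16709952) (a (l 16716696)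 (l 16722656)))) (b (a (l 16704608) (l 16710544)) (a (b (l 16718880) (l 16728504)) (b (l 16724704) (l 16734248)))))))), by decide +kernel⟩

def k66_A00pp_022_s3 : ∃ t, chk3 f_A00pp_022_s3 t 18 14 276 = true :=
  ⟨(a (a (b (b (b (a (l 1) (l 16561216)) (a (b (l 16567008) (l 16575992)) (l 16578800))) (b (a (l 16589712) (l 16596872)) (a (l 16608392) (l 16615408)))) (b (b (b (l 16626168) (l 16635800)) (a (l 16647008) (l 16653728))) (b (a (l 16666712) (l 16673280)) (a (l 16686712) (l 16693136))))) (b (b (b (l 16572192) (l 16589568)) (b (l 16607424) (b (l 16621104) (l 16630376)))) (b (b (a (l 16641168) (l 16647832)) (a (l 16660336) (l 16666848))) (b (a (l 16679744) (l 16686104)) (a (l 16704696) (l 16705664)))))) (b (b (a (b (l 16586480) (l 16603568)) (b (l 16600352) (l 16617152))) (a (b (l 16621128) (l 16639152)) (b (l 16634424) (l 16652152)))) (b (a (b (a (l 16654384) (l 16660840)) (a (l 16673256) (l 16679552))) (b (a (l 16667184) (l 16673424)) (a (l 16685752) (l 16691840)))) (a (b (a (l 16692360) (l 16698512))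 (b (l 16709904) (a (l 16716656) (l 16722616)))) (b (a (l 16704552) (l 16710496)) (a (b (l 16718840) (l 16728472)) (b (l 16724664) (l 16734224)))))))), by decide +kernel⟩

def k67_A00pp_022_s3 : ∃ t, chk3 f_A00pp_022_s3 t 18 14 277 = true :=
  ⟨(a (a (b (b (b (a (l 1) (l 16561008)) (a (b (l 16566808) (l 16575800)) (l 16578616))) (b (a (l 16589536) (l 16596704)) (a (l 16608248) (l 16615264)))) (b (b (b (l 16626040) (l 16635680)) (a (l 16646896) (l 16653624))) (b (a (l 16666624) (l 16673200)) (a (l 16686640) (l 16693072))))) (b (b (b (l 16571992) (l 16589392)) (b (l 16607272) (b (l 16620968) (l 16630248)))) (b (b (a (l 16641056) (l 16647720)) (a (l 16660240) (l 16666760))) (b (a (l 16679672) (l 16686040)) (a (l 16704632) (l 16705608)))))) (b (b (a (b (l 16586296) (l 16603408)) (b (l 16600184) (l 16617008))) (a (b (l 16620992) (l 16639032)) (b (l 16634296) (l 16652040)))) (b (a (b (a (l 16654280) (l 16660736)) (a (l 16673168) (l 16679472))) (b (a (l 16667088) (l 16673336)) (a (l 16685672) (l 16691768))))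 (a (b (a (l 16692296) (l 16698448)) (b (l 16709856) (a (l 16716608) (l 16722576)))) (b (a (l 16704504) (l 16710448)) (a (b (l 16718792) (l 16728440)) (b (l 16724624) (l 16734192)))))))), by decide +kernel⟩

def k68_A00pp_022_s3 : ∃ t, chk3 f_A00pp_022_s3 t 18 14 278 = true :=
  ⟨(a (a (b (b (b (a (l 1) (l 16560792)) (a (b (l 16566608) (l 16575616)) (l 16578432))) (b (a (l 16589368) (l 16596544)) (a (l 16608096) (l 16615120)))) (b (b (b (l 16625904) (l 16635560)) (a (l 16646792) (l 16653520))) (b (a (l 16666536) (l 16673120)) (a (l 16686576) (l 16693008))))) (b (b (b (l 16571800) (l 16589216)) (b (l 16607112) (b (l 16620824) (l 16630120)))) (b (b (a (l 16640936) (l 16647608)) (a (l 16660144) (l 16666672))) (b (a (l 16679592) (l 16685968)) (a (l 16704576) (l 16705560)))))) (b (b (a (b (l 16586112) (l 16603240)) (b (l 16600016) (l 16616856))) (a (b (l 16620848) (l 16638912)) (b (l 16634168) (l 16651928)))) (b (a (b (a (l 16654176) (l 16660640)) (a (l 16673088) (l 16679392))) (b (a (l 16667000) (l 16673256))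 (a (l 16685600) (l 16691704)))) (a (b (a (l 16692232) (l 16698392)) (b (l 16709808) (a (l 16716568) (l 16722536)))) (b (a (l 16704448) (l 16710392)) (a (b (l 16718752) (l 16728400)) (b (l 16724584) (l 16734160)))))))), by decide +kernel⟩

def k69_A00pp_022_s3 : ∃ t, chk3 f_A00pp_022_s3 t 18 14 279 = true :=
  ⟨(a (b (b (a (b (a (l 1) (l 16560584)) (a (b (l 16566408) (l 16575424)) (l 16578240))) (b (l 16571600) (l 16589040))) (b (a (a (l 16589192) (l 16596376)) (l 16606960)) (a (a (l 16607944) (l 16614976)) (b (l 16620688) (l 16629992))))) (b (a (b (b (l 16625776) (l 16635440)) (a (l 16646688) (l 16653424))) (b (a (l 16640824) (l 16647496)) (a (l 16660048) (l 16666576)))) (a (b (a (l 16666448) (l 16673040)) (a (l 16686504) (l 16692944))) (b (a (l 16679520) (l 16685896)) (a (l 16704520) (l 16705504)))))) (b (b (a (b (l 16585928) (l 16603080)) (b (l 16599848) (l 16616712))) (a (b (l 16620704) (l 16638792)) (b (l 16634040) (l 16651824)))) (b (a (b (a (l 16654072) (l 16660544)) (a (l 16673000) (l 16679320)))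 (b (a (l 16666904) (l 16673168)) (a (l 16685528) (l 16691632)))) (a (b (a (l 16692168) (l 16698328)) (b (l 16709752) (a (l 16716528) (l 16722504)))) (b (a (l 16704392) (l 16710344)) (a (b (l 16718712) (l 16728368)) (b (l 16724552) (l 16734128)))))))), by decide +kernel⟩

def k70_A00pp_022_s3 : ∃ t, chk3 f_A00pp_022_s3 t 18 14 280 = true :=
  ⟨(a (b (b (a (b (a (l 1) (l 16560376)) (a (b (l 16566208) (l 16575240)) (l 16578056))) (b (l 16571400) (l 16588864))) (b (a (a (l 16589024) (l 16596208)) (l 16606800)) (a (a (l 16607792) (l 16614832)) (b (l 16620552) (l 16629864))))) (b (a (b (b (l 16625648) (l 16635320)) (a (l 16646576) (l 16653320))) (b (a (l 16640704) (l 16647392)) (a (l 16659952) (l 16666488)))) (a (b (a (l 16666360) (l 16672952)) (a (l 16686440) (l 16692880))) (b (a (l 16679440) (l 16685824)) (a (l 16704464) (l 16705448)))))) (b (b (a (b (l 16585744) (l 16602920)) (b (l 16599680) (l 16616560))) (a (b (l 16620560) (l 16638664)) (b (l 16633912) (l 16651712)))) (b (a (b (a (l 16653968) (l 16660440))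 (a (l 16672912) (l 16679240))) (b (a (l 16666816) (l 16673080)) (a (l 16685456) (l 16691568)))) (a (b (a (l 16692096) (l 16698272)) (b (l 16709704) (a (l 16716480) (l 16722464)))) (b (a (l 16704336) (l 16710296)) (a (b (l 16718664) (l 16728336)) (b (l 16724512) (l 16734104)))))))), by decide +kernel⟩

def k71_A00pp_022_s3 : ∃ t, chk3 f_A00pp_022_s3 t 18 14 281 = true :=
  ⟨(a (b (b (a (b (a (l 1) (l 16560168)) (a (b (l 16566008) (l 16575048)) (l 16577864))) (b (l 16571200) (l 16588688))) (b (a (a (l 16588848) (l 16596048)) (l 16606648)) (a (a (l 16607648) (l 16614688)) (b (l 16620408) (l 16629736))))) (b (a (b (b (l 16625512) (l 16635200)) (a (l 16646472) (l 16653216))) (b (a (l 16640584) (l 16647280)) (a (l 16659856) (l 16666400)))) (a (b (a (l 16666280) (l 16672872)) (a (l 16686376) (l 16692824))) (b (a (l 16679368) (l 16685752)) (a (l 16704408) (l 16705400)))))) (b (b (a (b (l 16585560) (l 16602752)) (b (l 16599512) (l 16616416))) (a (b (l 16620416) (l 16638544)) (b (l 16633784) (l 16651608))))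 (b (a (b (a (l 16653864) (l 16660344)) (a (l 16672832) (l 16679160))) (b (a (l 16666720) (l 16672992)) (a (l 16685384) (l 16691496)))) (a (b (a (l 16692032) (l 16698208)) (b (l 16709656) (a (l 16716440) (l 16722424)))) (b (a (l 16704280) (l 16710240)) (a (b (l 16718624) (l 16728296)) (b (l 16724472) (l 16734072)))))))), by decide +kernel⟩

def k72_A00pp_022_s3 : ∃ t, chk3 f_A00pp_022_s3 t 18 14 141 = true :=
  ⟨(a (a (b (b (b (a (l 1) (l 16559856)) (a (b (l 16565712) (l 16574768)) (l 16577584))) (b (a (l 16588592) (l 16595792)) (a (l 16607416) (l 16614472)))) (b (b (b (l 16625320) (l 16635024)) (a (l 16646312) (l 16653064))) (b (a (l 16666144) (l 16672752)) (a (l 16686272) (l 16697968))))) (b (b (b (l 16570904) (l 16588416)) (b (l 16606408) (b (l 16620200) (l 16629536)))) (b (b (a (l 16640416) (l 16647112)) (a (l 16659712) (l 16666264))) (b (a (l 16679248) (l 16685648)) (a (b (l 16694072) (l 16704072)) (l 16707944)))))) (b (b (a (b (l 16585288) (l 16602512)) (b (l 16599256) (l 16616192))) (a (b (l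 16620208) (l 16638360)) (b (l 16633584) (l 16651440)))) (b (a (b (a (l 16653704) (l 16660200)) (a (l 16672704) (l 16679040))) (b (a (l 16666584) (l 16672864)) (a (l 16685272) (l 16691400)))) (a (b (a (l 16691936) (l 16698120)) (b (l 16709584) (a (l 16716368) (l 16722360)))) (b (a (l 16704192) (l 16710168)) (a (b (l 16718560) (l 16728248)) (b (l 16724416) (l 16734024)))))))), by decide +kernel⟩

def k73_A00pp_022_s3 : ∃ t, chk3 f_A00pp_022_s3 t 18 14 142 = true :=
  ⟨(a (a (b (b (b (a (l 1) (l 16559432)) (a (b (l 16565304) (l 16574384)) (l 16577208))) (b (a (l 16588248) (l 16595464)) (a (l 16607120) (l 16614184)))) (b (b (b (l 16625056) (l 16634784)) (a (l 16646096) (l 16652856))) (b (a (l 16665968) (l 16672584)) (a (l 16691384) (l 16697848))))) (b (b (b (l 16570504) (l 16588064)) (b (l 16606096) (b (l 16619920) (l 16629280)))) (b (b (a (l 16640176) (l 16646888)) (a (l 16659520) (l 16666080))) (b (a (l 16679096) (l 16685504)) (a (b (l 16693952) (l 16703960)) (l 16707832)))))) (b (b (a (b (l 16584912)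 (l 16602184)) (b (l 16598912) (l 16615888))) (a (b (l 16619920) (l 16643360)) (b (l 16633328) (l 16651224)))) (b (a (b (a (l 16653496) (l 16660000)) (a (l 16672536) (l 16678880))) (b (a (l 16666400) (l 16672688)) (a (l 16685120) (l 16691264)))) (a (b (a (l 16691800) (l 16698000)) (b (l 16709480) (a (l 16716288) (l 16722288)))) (b (a (l 16704088) (l 16710064)) (a (b (l 16718472) (l 16728176)) (b (l 16724336) (l 16733968)))))))), by decide +kernel⟩

def k74_A00pp_022_s3 : ∃ t, chk3 f_A00pp_022_s3 t 18 14 286 = true :=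
  ⟨(a (b (b (a (b (a (l 1) (l 16559120)) (a (b (l 16565008) (l 16574104)) (l 16576928))) (b (l 16570208) (l 16587800))) (b (a (a (l 16587984) (l 16595216)) (l 16605864)) (a (a (l 16606888) (l 16613968)) (b (l 16619704) (l 16629088))))) (b (a (b (b (l 16624856) (l 16634600)) (a (l 16645928) (l 16652704))) (b (a (l 16640000) (l 16646720)) (a (l 16659376) (l 16665944)))) (a (b (a (l 16665840) (l 16672464)) (a (l 16686040) (l 16697752))) (b (a (l 16678984) (l 16685400)) (a (l 16704120) (l 16705136)))))) (b (b (a (b (l 16584640) (l 16601936)) (b (l 16598664) (l 16615664))) (a (b (l 16619704) (l 16637936)) (b (l 16633136) (l 16651056)))) (b (a (b (a (l 16653336) (l 16659848)) (a (l 16672408) (l 16678760))) (b (a (l 16666256) (l 16672560)) (a (l 16685016) (l 16691160)))) (a (b (a (l 16691704) (l 16697904)) (b (l 16709408) (a (l 16716216) (l 16722224)))) (b (a (l 16704000) (l 16709992)) (a (b (l 16718408) (l 16728128)) (b (l 16724280) (l 16733920)))))))), by decide +kernel⟩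

def k75_A00pp_022_s3 : ∃ t, chk3 f_A00pp_022_s3 t 18 14 287 = true :=
  ⟨(a (b (b (a (b (a (l 1) (l 16558912)) (a (b (l 16564808) (l 16573912)) (l 16576736))) (b (l 16570008) (l 16587616))) (b (a (a (l 16587808) (l 16595048)) (l 16605704)) (a (a (l 16606736) (l 16613824)) (b (l 16619568) (l 16628952))))) (b (a (b (b (l 16624728) (l 16634480)) (a (l 16645824) (l 16652608))) (b (a (l 16639888) (l 16646608)) (a (l 16659280) (l 16665856)))) (a (b (a (l 16665752) (l 16672384)) (a (l 16685968) (l 16697688))) (b (a (l 16678904) (l 16685328)) (a (l 16704056) (l 16707704)))))) (b (b (a (b (l 16584456) (l 16601768)) (b (l 16598488) (l 16615512))) (a (b (l 16619560) (l 16637808)) (b (l 16633008) (l 16650944)))) (b (a (b (a (l 16653232) (l 16659752)) (a (l 16672320) (l 16678680))) (b (a (l 16666160) (l 16672472)) (a (l 16684936) (l 16691088)))) (a (b (a (l 16691640) (l 16697848)) (b (l 16709352) (a (l 16716176) (l 16722184)))) (b (a (l 16703944) (l 16709936)) (a (b (l 16718368) (l 16728088)) (b (l 16724248) (l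 16733888)))))))), by decide +kernel⟩

def k76_A00pp_022_s3 : ∃ t, chk3 f_A00pp_022_s3 t 18 14 288 = true :=
  ⟨(a (b (b (a (b (a (l 1) (l 16558696)) (a (b (l 16564600) (l 16573720)) (l 16576544))) (b (l 16569808) (l 16587440))) (b (a (a (l 16587640) (l 16594880)) (l 16605552)) (a (a (l 16606584) (l 16613680)) (b (l 16619424) (l 16628824))))) (b (a (b (b (l 16624592) (l 16634360)) (a (l 16645712) (l 16652504))) (b (a (l 16639768) (l 16646496)) (a (l 16659184) (l 16665760)))) (a (b (a (l 16665664) (l 16672304)) (a (l 16685904) (l 16697624))) (b (a (l 16678832) (l 16685256)) (a (l 16704000) (l 16707648)))))) (b (b (a (b (l 16584264) (l 16601608)) (b (l 16598320) (l 16615360))) (a (b (l 16619416) (l 16637688)) (b (l 16632872) (l 16650840)))) (b (a (b (a (l 16653128) (l 16659648)) (a (l 16672232) (l 16678600))) (b (a (l 16666072) (l 16672384)) (a (l 16684864) (l 16691024)))) (a (b (a (l 16691568) (l 16697784)) (b (l 16709304) (a (l 16716128) (l 16722144)))) (b (a (l 16703888) (l 16709888)) (a (b (l 16718328)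 (l 16728056)) (b (l 16724208) (l 16733856)))))))), by decide +kernel⟩

def k77_A00pp_022_s3 : ∃ t, chk3 f_A00pp_022_s3 t 18 14 289 = true :=
  ⟨(a (b (b (a (b (a (l 1) (l 16558488)) (a (b (l 16564400) (l 16573528)) (l 16576360))) (b (l 16569608) (l 16587256))) (b (a (a (l 16587464) (l 16594712)) (l 16605392)) (a (a (l 16606432) (l 16613528)) (b (l 16619280) (l 16628696))))) (b (a (b (b (l 16624464) (l 16634232)) (a (l 16645608) (l 16652400))) (b (a (l 16639648) (l 16646384)) (a (l 16659088) (l 16665672)))) (a (b (a (l 16665576) (l 16672216)) (a (l 16685832) (l 16697560))) (b (a (l 16678752) (l 16685184)) (a (l 16703944) (l 16707592)))))) (b (b (a (b (l 16584080) (l 16601440)) (b (l 16598152) (l 16615216))) (a (b (l 16619272) (l 16637560)) (b (l 16632744) (l 16650728)))) (b (a (b (a (l 16653024) (l 16659552)) (a (l 16672152) (l 16678520))) (b (a (l 16665976) (l 16672296)) (a (l 16684792) (l 16690952)))) (a (b (a (l 16691504) (l 16697720)) (b (l 16709256) (a (l 16716088) (l 16722104)))) (b (a (l 16703832)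 (l 16709840)) (a (b (l 16718280) (l 16728024)) (b (l 16724168) (l 16733832)))))))), by decide +kernel⟩

def k78_A00pp_022_s3 : ∃ t, chk3 f_A00pp_022_s3 t 18 14 290 = true :=
  ⟨(a (b (b (a (b (a (l 1) (l 16558280)) (a (b (l 16564200) (l 16573344)) (l 16576168))) (b (l 16569408) (l 16587080))) (b (a (a (l 16587288) (l 16594544)) (l 16605232)) (a (a (l 16606280) (l 16613384)) (b (l 16619144) (l 16628560))))) (b (a (b (b (l 16624328) (l 16634112)) (a (l 16645496) (l 16652296))) (b (a (l 16639528) (l 16646272)) (a (l 16658992) (l 16665576)))) (a (b (a (l 16665488) (l 16672136)) (a (l 16685768) (l 16697496))) (b (a (l 16678672) (l 16685112)) (a (l 16703888) (l 16707544)))))) (b (b (a (b (l 16583896) (l 16601272)) (b (l 16597976) (l 16615064))) (a (b (l 16619128) (l 16637440)) (b (l 16632616) (l 16650616)))) (b (a (b (a (l 16652912) (l 16659448)) (a (l 16672064) (l 16678440))) (b (a (l 16665880) (l 16672208)) (a (l 16684712) (l 16690880)))) (a (b (a (l 16691440) (l 16697664)) (b (l 16709200) (a (l 16716040)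 (l 16722072)))) (b (a (l 16703776) (l 16709784)) (a (b (l 16718240) (l 16727984)) (b (l 16724128) (l 16733800)))))))), by decide +kernel⟩

def k79_A00pp_022_s3 : ∃ t, chk3 f_A00pp_022_s3 t 18 14 291 = true :=
  ⟨(a (b (b (a (b (a (l 1) (l 16558064)) (a (b (l 16564000) (l 16573152)) (l 16575976))) (b (l 16569208) (l 16586904))) (b (a (a (l 16587112) (l 16594376)) (l 16605072)) (a (a (l 16606128) (l 16613240)) (b (l 16619000) (l 16628432))))) (b (a (b (b (l 16624192) (l 16633992)) (a (l 16645392) (l 16652192))) (b (a (l 16639416) (l 16646160)) (a (l 16658896) (l 16665488)))) (a (b (a (l 16665400) (l 16672056)) (a (l 16685696) (l 16697440))) (b (a (l 16678600) (l 16685040)) (a (l 16703824) (l 16707488)))))) (b (b (a (b (l 16583712) (l 16601112)) (b (l 16597808) (l 16614912))) (a (b (l 16618984) (l 16637320)) (b (l 16632480) (l 16650504)))) (b (a (b (a (l 16652808) (l 16659352)) (a (l 16671976) (l 16678360))) (b (a (l 16665792) (l 16672120)) (a (l 16684640) (l 16690816)))) (a (b (a (l 16691368) (l 16697600))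 (b (l 16709152) (a (l 16716000) (l 16722032)))) (b (a (l 16703720) (l 16709736)) (a (b (l 16718192) (l 16727952)) (b (l 16724088) (l 16733768)))))))), by decide +kernel⟩

def k80_A00pp_022_s3 : ∃ t, chk3 f_A00pp_022_s3 t 18 14 292 = true :=
  ⟨(a (b (b (a (b (a (l 1) (l 16557856)) (a (b (l 16563792) (l 16572960)) (l 16575792))) (b (l 16569008) (l 16586720))) (b (a (a (l 16586944) (l 16594208)) (l 16604920)) (a (a (l 16605976) (l 16613096)) (b (l 16618856) (l 16628304))))) (b (a (b (b (l 16624064) (l 16633872)) (a (l 16645280) (l 16652088))) (b (a (l 16639296) (l 16646048)) (a (l 16658792) (l 16665392)))) (a (b (a (l 16665312) (l 16671968)) (a (l 16685632) (l 16697376))) (b (a (l 16678520) (l 16684968)) (a (b (l 16693480) (l 16703560)) (l 16707432)))))) (b (b (a (b (l 16583520) (l 16600944)) (b (l 16597632) (l 16614760))) (a (b (l 16618840) (l 16637192)) (b (l 16632352) (l 16650392)))) (b (a (b (a (l 16652704) (l 16659248)) (a (l 16671888) (l 16678280))) (b (a (l 16665696) (l 16672032)) (a (l 16684568)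 (l 16690744)))) (a (b (a (l 16691304) (l 16697536)) (b (l 16709104) (a (l 16715952) (l 16721992)))) (b (a (l 16703664) (l 16709688)) (a (b (l 16718152) (l 16727920)) (b (l 16724056) (l 16733736)))))))), by decide +kernel⟩

def k81_A00pp_022_s3 : ∃ t, chk3 f_A00pp_022_s3 t 18 14 293 = true :=
  ⟨(a (b (b (a (b (a (l 1) (l 16557640)) (a (b (l 16563592) (l 16572768)) (l 16575600))) (b (l 16568800) (l 16586544))) (b (a (a (l 16586768) (l 16594040)) (l 16604760)) (a (a (l 16605824) (l 16612944)) (b (l 16618712) (l 16628168))))) (b (a (b (b (l 16623928) (l 16633744)) (a (l 16645176) (l 16651984))) (b (a (l 16639176) (l 16645936)) (a (l 16658696) (l 16665304)))) (a (b (a (l 16665224) (l 16671888)) (a (l 16685560) (l 16697312))) (b (a (l 16678440) (l 16684896)) (a (b (l 16693416) (l 16703512)) (l 16707384)))))) (b (b (a (b (l 16583336) (l 16600776)) (b (l 16597464) (l 16614608))) (a (b (l 16618696) (l 16637072)) (b (l 16632224) (l 16650288)))) (b (a (b (a (l 16652600) (l 16659152)) (a (l 16671808) (l 16678200)))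 (b (a (l 16665600) (l 16671944)) (a (l 16684488) (l 16690680)))) (a (b (a (l 16691240) (l 16697480)) (b (l 16709056) (a (l 16715912) (l 16721952)))) (b (a (l 16703608) (l 16709632)) (a (b (l 16718112) (l 16727880)) (b (l 16724016) (l 16733704)))))))), by decide +kernel⟩

def k82_A00pp_022_s3 : ∃ t, chk3 f_A00pp_022_s3 t 18 14 294 = true :=
  ⟨(a (b (b (a (b (a (l 1) (l 16557432)) (a (b (l 16563392) (l 16572576)) (l 16575408))) (b (l 16568600) (l 16586360))) (b (a (a (l 16586592) (l 16593872)) (l 16604600)) (a (a (l 16605672) (l 16612800)) (b (l 16618576) (l 16628040))))) (b (a (b (b (l 16623800) (l 16633624)) (a (l 16645064) (l 16651880))) (b (a (l 16639056) (l 16645824)) (a (l 16658600) (l 16665208)))) (a (b (a (l 16665136) (l 16671808)) (a (l 16685496) (l 16697248))) (b (a (l 16678368) (l 16684824)) (a (b (l 16693352) (l 16703456)) (l 16707328)))))) (b (b (a (b (l 16583152) (l 16600616)) (b (l 16597288) (l 16614456))) (a (b (l 16618552) (l 16636944)) (b (l 16632088) (l 16650176)))) (b (a (b (a (l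 16652488) (l 16659048)) (a (l 16671720) (l 16678120))) (b (a (l 16665504) (l 16671856)) (a (l 16684416) (l 16690608)))) (a (b (a (l 16691168) (l 16697416)) (b (l 16709000) (a (l 16715864) (l 16721912)))) (b (a (l 16703552) (l 16709584)) (a (b (l 16718064) (l 16727848)) (b (l 16723976) (l 16733672)))))))), by decide +kernel⟩

def k83_A00pp_022_s3 : ∃ t, chk3 f_A00pp_022_s3 t 18 14 295 = true :=
  ⟨(a (b (b (a (b (a (l 1) (l 16557216)) (a (b (l 16563184) (l 16572384)) (l 16575216))) (b (l 16568400) (l 16586184))) (b (a (a (l 16586416) (l 16593704)) (l 16604440)) (a (a (l 16605520) (l 16612656)) (b (l 16618432) (l 16627904))))) (b (a (b (b (l 16623664) (l 16633504)) (a (l 16644952) (l 16651784))) (b (a (l 16638936) (l 16645712)) (a (l 16658504) (l 16665120)))) (a (b (a (l 16665048) (l 16671720)) (a (l 16685424) (l 16697184))) (b (a (l 16678288) (l 16684752)) (a (b (l 16693288) (l 16703400)) (l 16707272)))))) (b (b (a (b (l 16582960) (l 16600448)) (b (l 16597120) (l 16614304))) (a (b (l 16618408) (l 16636824))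 (b (l 16631960) (l 16650064)))) (b (a (b (a (l 16652384) (l 16658952)) (a (l 16671632) (l 16678040))) (b (a (l 16665416) (l 16671768)) (a (l 16684344) (l 16690536)))) (a (b (a (l 16691104) (l 16697352)) (b (l 16708952) (a (l 16715824) (l 16721872)))) (b (a (l 16703496) (l 16709528)) (a (b (l 16718024) (l 16727808)) (b (l 16723936) (l 16733648)))))))), by decide +kernel⟩

def k84_A00pp_022_s3 : ∃ t, chk3 f_A00pp_022_s3 t 18 14 296 = true :=
  ⟨(a (b (b (a (b (a (l 1) (l 16557000)) (a (b (l 16562984) (l 16572192)) (l 16575024))) (b (l 16568200) (l 16586000))) (b (a (a (l 16586240) (l 16593536)) (l 16604280)) (a (a (l 16605368) (l 16612512)) (b (l 16618288) (l 16627776))))) (b (a (b (b (l 16623528) (l 16633384)) (a (l 16644848) (l 16651680))) (b (a (l 16638824) (l 16645600)) (a (l 16658408) (l 16665024)))) (a (b (a (l 16664960) (l 16671640)) (a (l 16685352) (l 16697120))) (b (a (l 16678208) (l 16684680)) (a (b (l 16693232) (l 16703344)) (l 16707224)))))) (b (b (a (b (l 16582776) (l 16600280)) (b (l 16596944)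 (l 16614152))) (a (b (l 16618256) (l 16636696)) (b (l 16631824) (l 16649952)))) (b (a (b (a (l 16652280) (l 16658848)) (a (l 16671544) (l 16677960))) (b (a (l 16665320) (l 16671680)) (a (l 16684264) (l 16690472)))) (a (b (a (l 16691040) (l 16697288)) (b (l 16708904) (a (l 16715776) (l 16721832)))) (b (a (l 16703440) (l 16709480)) (a (b (l 16717976) (l 16727776)) (b (l 16723896) (l 16733616)))))))), by decide +kernel⟩

def k85_A00pp_022_s3 : ∃ t, chk3 f_A00pp_022_s3 t 18 14 297 = true :=
  ⟨(a (b (b (a (b (a (l 1) (l 16556792)) (a (b (l 16562776) (l 16572000)) (l 16574832))) (b (l 16567992) (l 16585816))) (b (a (a (l 16586064) (l 16593360)) (l 16604120)) (a (a (l 16605216) (l 16612360)) (b (l 16618144) (l 16627640))))) (b (a (b (b (l 16623400) (l 16633256)) (a (l 16644736) (l 16651576))) (b (a (l 16638704) (l 16645488)) (a (l 16658304) (l 16664936)))) (a (b (a (l 16664872) (l 16671560)) (a (l 16685288) (l 16697056))) (b (a (l 16678136) (l 16684608)) (a (b (l 16693168) (l 16703296)) (l 16707168))))))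 (b (b (a (b (l 16582584) (l 16600112)) (b (l 16596776) (l 16614000))) (a (b (l 16618112) (l 16636576)) (b (l 16631696) (l 16649840)))) (b (a (b (a (l 16652168) (l 16658752)) (a (l 16671456) (l 16677880))) (b (a (l 16665224) (l 16671592)) (a (l 16684192) (l 16690400)))) (a (b (a (l 16690968) (l 16697232)) (b (l 16708848) (a (l 16715728) (l 16721792)))) (b (a (l 16703384) (l 16709424)) (a (b (l 16717936) (l 16727744)) (b (l 16723856) (l 16733584)))))))), by decide +kernel⟩

def k86_A00pp_022_s3 : ∃ t, chk3 f_A00pp_022_s3 t 18 14 298 = true :=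
  ⟨(a (b (b (a (b (a (l 1) (l 16556576)) (a (b (l 16562576) (l 16571808)) (l 16574640))) (b (l 16567792) (l 16585640))) (b (a (a (l 16585888) (l 16593192)) (l 16603968)) (a (a (l 16605064) (l 16612216)) (b (l 16618000) (l 16627512))))) (b (a (b (b (l 16623264) (l 16633136)) (a (l 16644624) (l 16651472))) (b (a (l 16638584) (l 16645376)) (a (l 16658208) (l 16664840)))) (a (b (a (l 16664784) (l 16671472)) (a (l 16690464) (l 16696992))) (b (a (l 16678056) (l 16684536)) (a (b (l 16693104) (l 16703240)) (l 16707112)))))) (b (b (a (b (l 16582400) (l 16599944)) (b (l 16596600) (l 16613848))) (a (b (l 16617968) (l 16636448)) (b (l 16631560) (l 16649728)))) (b (a (b (a (l 16652064) (l 16658648)) (a (l 16671376) (l 16677800))) (b (a (l 16665128) (l 16671504)) (a (l 16684120) (l 16690328)))) (a (b (a (l 16690904) (l 16697168)) (b (l 16708800) (a (l 16715688) (l 16721752)))) (b (a (l 16703328) (l 16709376)) (a (b (l 16717888) (l 16727704)) (b (l 16723816) (l 16733552)))))))), by decide +kernel⟩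

def k87_A00pp_022_s3 : ∃ t, chk3 f_A00pp_022_s3 t 18 14 299 = true :=
  ⟨(a (b (b (a (b (a (l 1) (l 16556360)) (a (b (l 16562368) (l 16571616)) (l 16574448))) (b (l 16567592) (l 16585456))) (b (a (a (l 16585712) (l 16593024)) (l 16603808)) (a (a (l 16604904) (l 16612064)) (b (l 16617856) (l 16627376))))) (b (a (b (b (l 16623128) (l 16633016)) (a (l 16644520) (l 16651368))) (b (a (l 16638464) (l 16645264)) (a (l 16658112) (l 16664752)))) (a (b (a (l 16664696) (l 16671392)) (a (l 16690392) (l 16696928))) (b (a (l 16677976) (l 16684456)) (a (b (l 16693040) (l 16703184)) (l 16707064)))))) (b (b (a (b (l 16582208) (l 16599784)) (b (l 16596432) (l 16613696))) (a (b (l 16617824) (l 16636320)) (b (l 16631432) (l 16649616)))) (b (a (b (a (l 16651960) (l 16658552)) (a (l 16671288) (l 16677720))) (b (a (l 16665032) (l 16671416)) (a (l 16684040) (l 16690264)))) (a (b (a (l 16690832) (l 16697104)) (b (l 16708744) (a (l 16715640) (l 16721712)))) (b (a (l 16703272) (l 16709328)) (a (b (l 16717848) (l 16727672))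 (b (l 16723784) (l 16733520)))))))), by decide +kernel⟩

def k88_A00pp_022_s3 : ∃ t, chk3 f_A00pp_022_s3 t 18 14 300 = true :=
  ⟨(a (b (b (a (b (a (l 1) (l 16556152)) (a (b (l 16562168) (l 16571416)) (l 16574256))) (b (l 16567384) (l 16585272))) (b (a (a (l 16585536) (l 16592856)) (l 16603648)) (a (a (l 16604752) (l 16611920)) (b (l 16617712) (l 16627248))))) (b (a (b (b (l 16622992) (l 16632888)) (a (l 16644408) (l 16651264))) (b (a (l 16638344) (l 16645152)) (a (l 16658016) (l 16664656)))) (a (b (a (l 16664608) (l 16671304)) (a (l 16690328) (l 16696864))) (b (a (l 16677896) (l 16684384)) (a (b (l 16692976) (l 16703128)) (b (l 16699344) (l 16709416))))))) (b (b (a (b (l 16582024) (l 16599616)) (b (l 16596256) (l 16613544))) (a (b (l 16617680) (l 16636200)) (b (l 16631296) (l 16649504)))) (b (a (b (a (l 16651848) (l 16658448)) (a (l 16671200) (l 16677632))) (b (a (l 16664936) (l 16671328)) (a (l 16683968) (l 16690192)))) (a (b (a (l 16690768) (l 16697040)) (b (l 16708696) (a (l 16715600) (l 16721672))))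 (b (a (l 16703208) (l 16709272)) (a (b (l 16717800) (l 16727632)) (b (l 16723744) (l 16733488)))))))), by decide +kernel⟩

def k89_A00pp_022_s3 : ∃ t, chk3 f_A00pp_022_s3 t 18 14 301 = true :=
  ⟨(a (b (b (a (b (a (l 1) (l 16555936)) (a (b (l 16561960) (l 16571224)) (l 16574064))) (b (l 16567184) (l 16585096))) (b (a (a (l 16585360) (l 16592688)) (l 16603488)) (a (a (l 16604600) (l 16611768)) (b (l 16617568) (l 16627112))))) (b (a (b (b (l 16622864) (l 16632768)) (a (l 16644296) (l 16651160))) (b (a (l 16638224) (l 16645032)) (a (l 16657912) (l 16664568)))) (a (b (a (l 16664520) (l 16671224)) (a (l 16690256) (l 16696800))) (b (a (l 16677824) (l 16684312)) (a (b (l 16692912) (l 16703072)) (b (l 16699288) (l 16709368))))))) (b (b (a (b (l 16581832) (l 16599448)) (b (l 16596080) (l 16613392))) (a (b (l 16617528) (l 16636072)) (b (l 16631168) (l 16649392)))) (b (a (b (a (l 16651744) (l 16658344)) (a (l 16671112) (l 16677552))) (b (a (l 16664848) (l 16671240)) (a (l 16683888) (l 16690120)))) (a (b (a (l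 16690704) (l 16696984)) (b (l 16708648) (a (l 16715552) (l 16721632)))) (b (a (l 16703152) (l 16709224)) (a (b (l 16717760) (l 16727600)) (b (l 16723704) (l 16733464)))))))), by decide +kernel⟩

def k90_A00pp_022_s3 : ∃ t, chk3 f_A00pp_022_s3 t 18 14 302 = true :=
  ⟨(a (b (b (a (b (a (l 1) (l 16555720)) (a (b (l 16561760) (l 16571032)) (l 16573872))) (b (l 16566976) (l 16584912))) (b (a (a (l 16585184) (l 16592512)) (l 16603328)) (a (a (l 16604448) (l 16611624)) (b (l 16617432) (l 16626976))))) (b (a (b (b (l 16622728) (l 16632640)) (a (l 16644184) (l 16651056))) (b (a (l 16638104) (l 16644920)) (a (l 16657816) (l 16664472)))) (a (b (a (l 16664432) (l 16671136)) (a (b (l 16679776) (l 16690104)) (l 16696736))) (b (a (l 16677744) (l 16684240)) (a (b (l 16692848) (l 16703024)) (b (l 16699224) (l 16709320))))))) (b (b (a (b (l 16581648) (l 16599280)) (b (l 16595912) (l 16613240))) (a (b (l 16617384) (l 16635952)) (b (l 16631032) (l 16649280)))) (b (a (b (a (l 16651632) (l 16658248)) (a (l 16671024) (l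 16677472))) (b (a (l 16664752) (l 16671152)) (a (l 16683816) (l 16690048)))) (a (b (a (l 16690632) (l 16696920)) (b (l 16708592) (a (l 16715512) (l 16721592)))) (b (a (l 16703096) (l 16709168)) (a (b (l 16717720) (l 16727568)) (b (l 16723664) (l 16733432)))))))), by decide +kernel⟩

def k91_A00pp_022_s3 : ∃ t, chk3 f_A00pp_022_s3 t 18 14 303 = true :=
  ⟨(a (b (b (a (b (a (l 1) (l 16555504)) (a (b (l 16561552) (l 16570840)) (l 16573680))) (b (l 16566776) (l 16584728))) (b (a (a (l 16585008) (l 16592344)) (l 16603168)) (a (a (l 16604288) (l 16611480)) (b (l 16617288) (l 16626848))))) (b (a (b (b (l 16622592) (l 16632520)) (a (l 16644080) (l 16650952))) (b (a (l 16637984) (l 16644808)) (a (l 16657720) (l 16664384)))) (a (b (a (l 16664344) (l 16671056)) (a (b (l 16679696) (l 16690040)) (b (l 16686296) (l 16696560)))) (b (a (l 16677664) (l 16684168)) (a (b (l 16692784) (l 16702968)) (b (l 16699168) (l 16709272))))))) (b (b (a (b (l 16581456) (l 16599112)) (b (l 16595736) (l 16613088))) (a (b (l 16617240)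 (l 16635824)) (b (l 16630904) (l 16649168)))) (b (a (b (a (l 16651528) (l 16658144)) (a (l 16670936) (l 16677392))) (b (a (l 16664656) (l 16671064)) (a (l 16683736) (l 16689984)))) (a (b (a (l 16690568) (l 16696856)) (b (l 16708544) (a (l 16715464) (l 16721552)))) (b (a (l 16703040) (l 16709120)) (a (b (l 16717672) (l 16727528)) (b (l 16723624) (l 16733400)))))))), by decide +kernel⟩

def k92_A00pp_022_s3 : ∃ t, chk3 f_A00pp_022_s3 t 18 14 152 = true :=
  ⟨(a (b (b (a (b (a (l 1) (l 16555184)) (a (b (l 16561248) (l 16570544)) (l 16573392))) (b (l 16566472) (l 16584456))) (b (a (a (l 16584744) (l 16592088)) (l 16602928)) (a (a (l 16604056) (l 16611256)) (b (l 16617072) (l 16626648))))) (b (a (b (b (l 16622392) (l 16632336)) (a (l 16643912) (l 16650792))) (b (a (l 16637808) (l 16644640)) (a (l 16657568) (l 16664240)))) (a (b (a (l 16664208) (l 16670928)) (a (b (l 16679592) (l 16689944)) (b (l 16686192) (l 16696472)))) (b (a (l 16677544) (l 16684056)) (a (b (l 16692688) (l 16702888)) (b (l 16699080) (l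 16709192))))))) (b (b (a (b (l 16581168) (l 16598856)) (b (l 16595472) (l 16612856))) (a (b (l 16617016) (l 16640880)) (b (l 16630704) (l 16649000)))) (b (a (b (a (l 16651368) (l 16657992)) (a (l 16670808) (l 16677272))) (b (a (l 16664512) (l 16670928)) (a (l 16683624) (l 16689872)))) (a (b (a (l 16690464) (l 16696760)) (b (l 16708464) (a (l 16715400) (l 16721488)))) (b (a (l 16702952) (l 16709040)) (a (b (l 16717608) (l 16727472)) (b (l 16723568) (l 16733352)))))))), by decide +kernel⟩

def k93_A00pp_022_s3 : ∃ t, chk3 f_A00pp_022_s3 t 18 14 153 = true :=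
  ⟨(a (b (b (a (b (a (l 1) (l 16554752)) (a (b (l 16560832) (l 16570160)) (l 16573008))) (b (l 16566064) (l 16584088))) (b (a (a (l 16584384) (l 16591744)) (l 16602600)) (a (a (l 16603752) (l 16610960)) (b (l 16616776) (l 16626384))))) (b (a (b (b (l 16622120) (l 16632088)) (a (l 16643688) (l 16650584))) (b (a (l 16637568) (l 16644408)) (a (l 16657368) (l 16664056)))) (a (b (a (l 16664032) (l 16670760)) (a (b (l 16679440) (l 16689816)) (b (l 16686056) (l 16696352)))) (b (a (l 16677392) (l 16683912)) (a (b (l 16692560) (l 16702776)) (b (l 16698960) (l 16709096))))))) (b (b (a (b (l 16580792) (l 16598520)) (b (l 16595128) (l 16612544))) (a (b (l 16616720) (l 16640624)) (b (l 16630432) (l 16648776)))) (b (a (b (a (l 16651152) (l 16657792)) (a (l 16670632) (l 16677104))) (b (a (l 16664320) (l 16670744)) (a (l 16683472) (l 16689736)))) (a (b (a (l 16690328) (l 16696640)) (b (l 16708360) (a (l 16715304) (l 16721408)))) (b (a (l 16702840) (l 16714176)) (a (b (l 16717520) (l 16727408)) (b (l 16723488) (l 16733288)))))))),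 by decide +kernel⟩

def k94_A00pp_022_s3 : ∃ t, chk3 f_A00pp_022_s3 t 18 14 154 = true :=
  ⟨(a (b (b (a (b (a (l 1) (l 16575296)) (a (b (l 16560424) (l 16569768)) (l 16572616))) (b (l 16565648) (l 16583728))) (b (a (a (l 16584032) (l 16591408)) (l 16602280)) (a (a (l 16603440) (l 16610656)) (b (l 16616488) (l 16626112))))) (b (a (b (b (l 16621848) (l 16631840)) (a (l 16643472) (l 16650376))) (b (a (l 16637320) (l 16644184)) (a (l 16657176) (l 16663864)))) (a (b (a (l 16663848) (l 16670592)) (a (b (l 16679288) (l 16689688)) (b (l 16685912) (l 16696232)))) (b (a (l 16677232) (l 16683768)) (a (b (l 16692432) (l 16702664)) (b (l 16698840) (l 16708992))))))) (b (b (a (b (l 16580408) (l 16598184)) (b (l 16594776) (l 16612240))) (a (b (l 16616432) (l 16640376)) (b (l 16630168) (l 16648552)))) (b (a (b (a (l 16650936) (l 16657584)) (a (l 16670456) (l 16676944))) (b (a (l 16664128) (l 16670568)) (a (l 16683320) (l 16689592)))) (a (b (a (l 16690192) (l 16696512)) (b (l 16708264) (a (l 16715216) (l 16721328))))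 (b (a (l 16702728) (l 16714072)) (a (b (l 16717432) (l 16727336)) (b (l 16723408) (l 16733224)))))))), by decide +kernel⟩

def k95_A00pp_022_s3 : ∃ t, chk3 f_A00pp_022_s3 t 18 14 155 = true :=
  ⟨(a (b (b (a (b (a (l 1) (l 16574856)) (a (b (l 16560008) (l 16569376)) (l 16572232))) (b (l 16565240) (l 16583360))) (b (a (a (l 16583672) (l 16591064)) (l 16601960)) (a (a (l 16603128) (l 16610360)) (b (l 16616200) (l 16625848))))) (b (a (b (b (l 16621576) (l 16631592)) (a (l 16643248) (l 16650160))) (b (a (l 16637080) (l 16643952)) (a (l 16656976) (l 16663680)))) (a (b (a (l 16663672) (l 16670424)) (a (b (l 16679144) (l 16689560)) (b (l 16685776) (l 16696112)))) (b (a (l 16677072) (l 16683616)) (a (b (l 16692304) (l 16702560)) (b (l 16698728) (l 16708896))))))) (b (b (a (b (l 16580032) (l 16597848)) (b (l 16594424) (l 16611928))) (a (b (l 16616136) (l 16640120)) (b (l 16629904) (l 16648320)))) (b (a (b (a (l 16650720) (l 16657376)) (a (l 16670280) (l 16676776))) (b (a (l 16663936) (l 16670392)) (a (l 16683168)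 (l 16689456)))) (a (b (a (l 16690056) (l 16696384)) (b (l 16708160) (a (l 16715128) (l 16721248)))) (b (a (l 16702608) (l 16713968)) (a (b (l 16717344) (l 16727264)) (b (l 16723328) (l 16733168)))))))), by decide +kernel⟩

def k96_A00pp_022_s3 : ∃ t, chk3 f_A00pp_022_s3 t 18 14 156 = true :=
  ⟨(a (b (b (a (b (a (l 1) (l 16574424)) (a (b (l 16559592) (l 16568984)) (l 16571840))) (b (l 16564824) (l 16582992))) (b (a (a (l 16583320) (l 16590720)) (l 16601632)) (a (a (l 16602816) (l 16610064)) (b (l 16615912) (l 16625576))))) (b (a (b (b (l 16621304) (l 16631344)) (a (l 16643024) (l 16649952))) (b (a (l 16636840) (l 16643720)) (a (l 16656776) (l 16663496)))) (a (b (a (l 16663488) (l 16670256)) (a (b (l 16678992) (l 16689432)) (b (l 16685640) (l 16695992)))) (b (a (l 16676920) (l 16683472)) (a (b (l 16692176) (l 16702448)) (b (l 16698608) (l 16708792))))))) (b (b (a (b (l 16579648) (l 16597504)) (b (l 16594072) (l 16611616))) (a (b (l 16615840) (l 16639872)) (b (l 16629632) (l 16648096)))) (b (a (b (a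 (l 16650504) (l 16657176)) (a (l 16670104) (l 16676616))) (b (a (l 16663744) (l 16670208)) (a (l 16683016) (l 16689312)))) (a (b (a (l 16689920) (l 16696264)) (b (a (l 16704928) (l 16711144)) (a (l 16715032) (l 16721168)))) (b (a (l 16702496) (l 16713864)) (a (b (l 16717256) (l 16727192)) (b (l 16723248) (l 16733104)))))))), by decide +kernel⟩

def k97_A00pp_022_s3 : ∃ t, chk3 f_A00pp_022_s3 t 18 14 157 = true :=
  ⟨(a (b (b (a (b (a (l 1) (l 16573992)) (a (b (l 16559176) (l 16568592)) (l 16571456))) (b (l 16564416) (l 16582624))) (b (a (a (l 16582960) (l 16590376)) (l 16601312)) (a (a (l 16602504) (l 16609760)) (b (l 16615616) (l 16625304))))) (b (a (b (b (l 16621032) (l 16631088)) (a (l 16642800) (l 16649744))) (b (a (l 16636600) (l 16643488)) (a (l 16656576) (l 16663304)))) (a (b (a (l 16663312) (l 16670088)) (a (b (l 16678848) (l 16689296)) (b (l 16685496) (l 16695872)))) (b (a (l 16676760) (l 16683320)) (a (b (l 16692048) (l 16702336)) (b (l 16698488) (l 16708696))))))) (b (b (a (b (l 16579264)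 (l 16597168)) (b (l 16593720) (l 16611304))) (a (b (l 16615536) (l 16639616)) (b (l 16629360) (l 16647872)))) (b (a (b (a (l 16650280) (l 16656968)) (a (l 16669928) (l 16676448))) (b (a (l 16663552) (l 16670024)) (a (l 16682864) (l 16689168)))) (a (b (a (l 16689784) (l 16696136)) (b (a (l 16704824) (l 16711048)) (a (l 16714944) (l 16721088)))) (b (a (l 16702376) (l 16713760)) (a (b (l 16717160) (l 16727120)) (b (l 16723176) (l 16733040)))))))), by decide +kernel⟩

def k98_A00pp_022_s3 : ∃ t, chk3 f_A00pp_022_s3 t 18 14 158 = true :=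
  ⟨(a (b (b (a (b (a (l 1) (l 16573552)) (a (b (l 16558760) (l 16568200)) (l 16571064))) (b (l 16564000) (l 16582248))) (b (a (a (l 16582600) (l 16590024)) (l 16600984)) (a (a (l 16602192) (l 16609464)) (b (l 16615328) (l 16625040))))) (b (a (b (b (l 16620760) (l 16630840)) (a (l 16642584) (l 16649528))) (b (a (l 16636352) (l 16643264)) (a (l 16656376) (l 16663120)))) (a (b (a (l 16663128) (l 16669920)) (a (b (l 16678696) (l 16689168)) (b (l 16685360) (l 16695752)))) (b (a (l 16676600) (l 16683176)) (a (b (l 16691920) (l 16702224)) (b (l 16698368) (l 16708592))))))) (b (b (a (b (l 16578880) (l 16596824)) (b (l 16593368) (l 16610992))) (a (b (l 16615240) (l 16639360)) (b (l 16629096) (l 16647640)))) (b (a (b (a (l 16650064) (l 16656760)) (a (l 16669752) (l 16676288))) (b (a (l 16663360) (l 16669848)) (a (l 16682712) (l 16689024)))) (a (b (a (l 16689648) (l 16696008)) (b (a (l 16704712) (l 16710944)) (a (l 16714856) (l 16721008)))) (b (a (l 16702264) (l 16713656)) (a (b (l 16717072) (l 16727048)) (b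 (l 16723096) (l 16732976)))))))), by decide +kernel⟩

def k99_A00pp_022_s3 : ∃ t, chk3 f_A00pp_022_s3 t 18 14 159 = true :=
  ⟨(a (b (b (a (b (a (l 1) (l 16573120)) (a (b (l 16558344) (l 16567808)) (l 16570672))) (b (l 16563584) (l 16581880))) (b (a (a (l 16582240) (l 16589680)) (l 16605904)) (a (a (l 16601880) (l 16609160)) (b (l 16615032) (l 16624768))))) (b (a (b (b (l 16620488) (l 16630592)) (a (l 16642360) (l 16649320))) (b (a (l 16636112) (l 16643032)) (a (l 16656176) (l 16662928)))) (a (b (a (l 16662952) (l 16669744)) (a (b (l 16678544) (l 16689040)) (b (l 16685216) (l 16695632)))) (b (a (l 16676440) (l 16683024)) (a (l 16696960) (b (l 16698248) (l 16708496))))))) (b (b (a (b (l 16578496) (l 16596480)) (b (l 16593008) (l 16610680))) (a (b (l 16614944) (l 16639104)) (b (l 16628824) (l 16647408)))) (b (a (b (a (l 16649848) (l 16656560)) (a (l 16669576) (l 16676120))) (b (a (l 16663160) (l 16669664)) (a (l 16682552) (l 16688888)))) (a (b (a (l 16689504) (l 16695880)) (b (a (l 16704600) (l 16710848))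 (a (l 16714760) (l 16720920)))) (b (a (l 16702144) (l 16713544)) (a (b (l 16716984) (l 16726976)) (b (l 16723016) (l 16732912)))))))), by decide +kernel⟩

def k100_A00pp_022_s3 : ∃ t, chk3 f_A00pp_022_s3 t 18 14 160 = true :=
  ⟨(a (b (b (a (b (a (l 1) (l 16572680)) (a (b (l 16557928) (l 16567408)) (l 16570280))) (b (l 16563168) (l 16581504))) (b (a (a (l 16581880) (l 16589336)) (l 16605576)) (a (a (l 16601560) (l 16608856)) (b (l 16614736) (l 16624496))))) (b (a (b (b (l 16620216) (l 16630336)) (a (l 16642136) (l 16649104))) (b (a (l 16635864) (l 16642800)) (a (l 16655976) (l 16662736)))) (a (b (a (l 16662768) (l 16669576)) (a (b (l 16678392) (l 16688912)) (b (l 16685080) (l 16695512)))) (b (a (l 16676280) (l 16682880)) (a (l 16696840) (b (l 16698128) (l 16708392))))))) (b (b (a (b (l 16578112) (l 16596136)) (b (l 16592656) (l 16610368))) (a (b (l 16614648) (b (l 16628808) (l 16638400))) (b (l 16628552) (l 16647184)))) (b (a (b (a (l 16649624) (l 16656352)) (a (l 16669400) (l 16675952))) (b (a (l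 16662968) (l 16669480)) (a (l 16682400) (l 16688744)))) (a (b (a (l 16689368) (l 16695752)) (b (a (l 16704496) (l 16710752)) (a (l 16714672) (l 16720840)))) (b (a (l 16702032) (l 16713440)) (a (b (l 16716896) (l 16726904)) (b (l 16722936) (l 16732848)))))))), by decide +kernel⟩

def k101_A00pp_022_s3 : ∃ t, chk3 f_A00pp_022_s3 t 18 14 161 = true :=
  ⟨(a (b (b (a (b (a (l 1) (l 16572240)) (a (b (l 16557512) (l 16567016)) (l 16569880))) (b (l 16562752) (l 16581136))) (b (a (a (l 16581520) (l 16588984)) (l 16605248)) (a (a (l 16601248) (l 16608560)) (b (l 16614448) (l 16624224))))) (b (a (b (b (l 16619944) (l 16630088)) (a (l 16641904) (l 16648888))) (b (a (l 16635624) (l 16642568)) (a (l 16655768) (l 16662552)))) (a (b (a (l 16662584) (l 16669408)) (a (b (l 16678240) (l 16688776)) (b (l 16684936) (l 16695392)))) (b (a (l 16676120) (l 16682728)) (a (l 16696720) (b (l 16698008) (l 16708288))))))) (b (b (a (b (l 16577720) (l 16595792)) (b (l 16592296) (l 16610056))) (a (b (l 16614344) (b (l 16628544) (l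 16638152))) (b (l 16628280) (l 16646952)))) (b (a (b (a (l 16649408) (l 16656144)) (a (l 16669216) (l 16675784))) (b (a (l 16662776) (l 16669304)) (a (l 16682248) (l 16688600)))) (a (b (a (l 16689232) (l 16695624)) (b (a (l 16704384) (l 16710648)) (a (l 16714576) (l 16720760)))) (b (a (l 16701912) (l 16713336)) (a (b (l 16716808) (l 16726832)) (b (l 16722856) (l 16732784)))))))), by decide +kernel⟩

def k102_A00pp_022_s3 : ∃ t, chk3 f_A00pp_022_s3 t 18 14 162 = true :=
  ⟨(a (b (b (a (b (a (l 1) (l 16571800)) (a (b (l 16557088) (l 16566616)) (l 16569488))) (b (l 16562336) (l 16580760))) (b (a (a (l 16581152) (l 16588632)) (l 16604920)) (a (a (l 16600928) (l 16608256)) (b (l 16614152) (l 16623952))))) (b (a (b (b (l 16619664) (l 16629832)) (a (l 16641680) (l 16648680))) (b (a (l 16635376) (l 16642328)) (a (l 16655568) (l 16662360)))) (a (b (a (l 16662408) (l 16669232)) (a (b (l 16678096) (l 16688648)) (b (l 16684800) (l 16695272)))) (b (a (l 16675960) (l 16682584)) (a (l 16696592) (b (l 16697888) (l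 16708192))))))) (b (b (a (b (l 16577336) (l 16595448)) (b (l 16591944) (l 16609744))) (a (b (l 16614040) (b (l 16628272) (l 16637912))) (b (l 16628008) (l 16646720)))) (b (a (b (a (l 16649184) (l 16655936)) (a (l 16669040) (l 16675616))) (b (a (l 16662576) (l 16669120)) (a (l 16682088) (l 16688456)))) (a (b (a (l 16689096) (l 16695496)) (b (a (l 16704272) (l 16710552)) (a (l 16714488) (l 16720680)))) (b (a (l 16701800) (l 16713232)) (a (b (l 16716720) (l 16726752)) (b (l 16722776) (l 16732720)))))))), by decide +kernel⟩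

def k103_A00pp_022_s3 : ∃ t, chk3 f_A00pp_022_s3 t 18 14 163 = true :=
  ⟨(a (b (b (a (b (a (l 1) (l 16571360)) (a (b (l 16556672) (l 16566224)) (l 16569096))) (b (l 16561912) (l 16580384))) (b (a (a (l 16580792) (l 16588288)) (l 16604584)) (a (a (l 16600616) (l 16607952)) (b (l 16613856) (l 16623680))))) (b (a (b (b (l 16619392) (l 16629576)) (a (l 16641456) (l 16648464))) (b (a (l 16635128) (l 16642096)) (a (l 16655368) (l 16662168)))) (a (b (a (l 16662224) (l 16669064)) (a (b (l 16677944) (l 16688512)) (b (l 16684656) (l 16695144)))) (b (a (l 16675800) (l 16682432)) (a (l 16696472) (b (l 16697768) (l 16708088))))))) (b (b (a (b (l 16576944) (l 16595104)) (b (l 16591584) (l 16609424))) (a (b (l 16613744) (b (l 16628008) (l 16637664))) (b (l 16627736) (l 16646488)))) (b (a (b (a (l 16648960) (l 16655728)) (a (l 16668864) (l 16675448))) (b (a (l 16662384) (l 16668936)) (a (l 16681936) (l 16688312)))) (a (b (a (l 16688952) (l 16695368)) (b (a (l 16704160) (l 16710448)) (a (l 16714392) (l 16720592))))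 (b (a (l 16701680) (l 16713120)) (a (b (l 16716624) (l 16726680)) (b (l 16722696) (l 16732656)))))))), by decide +kernel⟩

def k104_A00pp_022_s3 : ∃ t, chk3 f_A00pp_022_s3 t 18 14 164 = true :=
  ⟨(a (b (b (a (b (a (l 1) (l 16570920)) (a (b (l 16556248) (l 16565824)) (l 16568696))) (b (l 16561496) (l 16580016))) (b (a (a (l 16580432) (l 16587936)) (l 16604256)) (a (a (l 16600296) (l 16607648)) (b (l 16613560) (l 16623408))))) (b (a (b (b (l 16619112) (l 16629328)) (a (l 16641232) (l 16648248))) (b (a (l 16634880) (l 16641864)) (a (l 16655168) (l 16661976)))) (a (b (a (l 16662040) (l 16668888)) (a (b (l 16677792) (l 16688384)) (b (l 16684512) (l 16695024)))) (b (a (l 16675640) (l 16682280)) (a (l 16696352) (b (l 16697648) (l 16707984))))))) (b (b (a (b (l 16576552) (l 16594760)) (b (l 16591224) (l 16609112))) (a (b (l 16613440) (b (l 16627736) (l 16637416))) (b (l 16627464) (l 16646256)))) (b (a (b (a (l 16648744) (l 16655520)) (a (l 16668680) (l 16675288))) (b (a (l 16662184) (l 16668752)) (a (l 16681776)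 (l 16688168)))) (a (b (a (l 16688816) (l 16695240)) (b (a (l 16704056) (l 16710352)) (a (l 16714304) (l 16720512)))) (b (a (l 16701560) (l 16713016)) (a (b (l 16716536) (l 16726608)) (b (l 16722616) (l 16732600)))))))), by decide +kernel⟩

def k105_A00pp_022_s3 : ∃ t, chk3 f_A00pp_022_s3 t 18 14 165 = true :=
  ⟨(a (b (b (a (b (a (l 1) (l 16570480)) (a (b (l 16555824) (l 16565424)) (l 16568296))) (b (l 16561072) (l 16579640))) (b (a (a (l 16580064) (l 16587584)) (l 16603928)) (a (a (l 16599976) (l 16607336)) (b (l 16613264) (l 16623128))))) (b (a (b (b (l 16618832) (l 16629072)) (a (l 16641000) (l 16648032))) (b (a (l 16634632) (l 16641632)) (a (l 16654960) (l 16661784)))) (a (b (a (l 16661856) (l 16668720)) (a (b (l 16677640) (l 16688256)) (b (l 16684376) (l 16694904)))) (b (a (l 16675480) (l 16682128)) (a (l 16696232) (b (l 16697528) (l 16707888))))))) (b (b (a (b (l 16576168) (l 16594416)) (b (l 16590864) (l 16608792))) (a (b (l 16613136) (b (l 16627464) (l 16637168))) (b (l 16627184) (l 16646024))))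 (b (a (b (a (l 16648520) (l 16655304)) (a (l 16668504) (l 16675120))) (b (a (l 16661992) (l 16668568)) (a (l 16681624) (l 16688024)))) (a (b (a (l 16688672) (l 16695112)) (b (a (l 16703944) (l 16710248)) (a (l 16714208) (l 16720432)))) (b (a (l 16701448) (l 16712912)) (a (b (l 16716448) (l 16726536)) (b (l 16722528) (l 16732536)))))))), by decide +kernel⟩

def k106_A00pp_022_s3 : ∃ t, chk3 f_A00pp_022_s3 t 18 14 166 = true :=
  ⟨(a (b (b (a (b (a (l 1) (l 16570032)) (a (b (l 16555400) (l 16565024)) (l 16567904))) (b (l 16560648) (l 16579256))) (b (a (a (l 16579696) (l 16587232)) (l 16603592)) (a (a (l 16599664) (l 16607032)) (b (l 16612968) (l 16622856))))) (b (a (b (b (l 16618560) (l 16628816)) (a (l 16640776) (l 16647816))) (b (a (l 16634392) (l 16641392)) (a (l 16654760) (l 16661592)))) (a (b (a (l 16661672) (l 16668544)) (a (b (l 16677488) (l 16688120)) (b (l 16684232) (l 16694784)))) (b (a (l 16675312) (l 16681976)) (a (l 16696112) (b (l 16697408) (l 16707784))))))) (b (b (a (b (l 16575776) (l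 16594064)) (b (l 16590504) (l 16608472))) (a (b (l 16612832) (b (l 16627200) (l 16636920))) (b (l 16626912) (l 16645792)))) (b (a (b (a (l 16648296) (l 16655096)) (a (l 16668320) (l 16674944))) (b (a (l 16661792) (l 16668384)) (a (l 16681464) (l 16687880)))) (a (b (a (l 16688536) (l 16694984)) (b (a (l 16703832) (l 16710144)) (a (l 16714120) (l 16720344)))) (b (a (l 16701328) (l 16712800)) (a (b (l 16716352) (l 16726464)) (b (l 16722448) (l 16732464)))))))), by decide +kernel⟩

def k107_A00pp_022_s3 : ∃ t, chk3 f_A00pp_022_s3 t 18 14 167 = true :=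
  ⟨(a (b (b (a (b (a (l 1) (l 16569584)) (a (b (l 16554976) (l 16564624)) (l 16567504))) (b (l 16560232) (l 16578880))) (b (a (a (l 16579328) (l 16586880)) (l 16603264)) (a (a (l 16599344) (l 16606728)) (b (l 16612664) (l 16622576))))) (b (a (b (b (l 16618280) (l 16628560)) (a (l 16640552) (l 16647600))) (b (a (l 16634136) (l 16641160)) (a (l 16654552) (l 16661400)))) (a (b (a (l 16661488) (l 16668376)) (a (b (l 16677336) (l 16687984)) (b (l 16684088) (l 16694656)))) (b (a (l 16675152) (l 16681832)) (a (l 16695984) (b (l 16697280) (l 16707680))))))) (b (b (a (b (l 16575376) (l 16593712)) (b (l 16590144) (l 16608152))) (a (b (l 16612528) (b (l 16626928) (l 16636672))) (b (l 16626632) (l 16645560)))) (b (a (b (a (l 16648072) (l 16654888)) (a (l 16668144) (l 16674776))) (b (a (l 16661592) (l 16668192)) (a (l 16681312) (l 16687728)))) (a (b (a (l 16688392) (l 16694856)) (b (a (l 16703720) (l 16710048)) (a (l 16714024) (l 16720264)))) (b (a (l 16701208) (l 16712696)) (a (b (l 16716264) (l 16726392)) (b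 (l 16722368) (l 16732400)))))))), by decide +kernel⟩

def k108_A00pp_022_s3 : ∃ t, chk3 f_A00pp_022_s3 t 18 14 168 = true :=
  ⟨(a (b (b (a (b (a (l 1) (l 16569144)) (a (b (l 16554552) (l 16564216)) (l 16567104))) (b (l 16559808) (l 16578504))) (b (a (a (l 16578968) (l 16586528)) (l 16602928)) (a (a (l 16599024) (l 16606416)) (b (l 16612368) (l 16622304))))) (b (a (b (b (l 16618000) (l 16628304)) (a (l 16640320) (l 16647384))) (b (a (l 16633888) (l 16640920)) (a (l 16654352) (l 16661208)))) (a (b (a (l 16661304) (l 16668200)) (a (b (l 16677176) (l 16687856)) (b (l 16683944) (l 16694536)))) (b (a (l 16674992) (l 16681680)) (a (l 16695864) (b (l 16697160) (l 16707576))))))) (b (b (a (b (l 16574984) (l 16593368)) (b (l 16589776) (l 16607832))) (a (b (l 16612224) (b (l 16626656) (l 16636416))) (b (l 16626360) (l 16645328)))) (b (a (b (a (l 16647848) (l 16654672)) (a (l 16667960) (l 16674608))) (b (a (l 16661392) (l 16668008)) (a (l 16681152) (l 16687584)))) (a (b (a (l 16688256) (l 16694728)) (b (a (l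 16703608) (l 16709944)) (a (l 16713936) (l 16720176)))) (b (a (l 16701088) (l 16712584)) (a (b (l 16716168) (l 16726312)) (b (l 16722288) (l 16732336)))))))), by decide +kernel⟩

def k109_A00pp_022_s3 : ∃ t, chk3 f_A00pp_022_s3 t 18 14 169 = true :=
  ⟨(a (b (b (a (b (a (l 1) (l 16568696)) (a (b (l 16554120) (l 16563816)) (l 16566704))) (b (l 16559376) (l 16578120))) (b (a (a (l 16578600) (l 16586168)) (l 16602600)) (a (a (l 16598696) (l 16606112)) (b (l 16612072) (l 16622024))))) (b (a (b (b (l 16617720) (l 16628048)) (a (l 16640096) (l 16647168))) (b (a (l 16633640) (l 16640688)) (a (l 16654144) (l 16661016)))) (a (b (a (l 16661120) (l 16668024)) (a (b (l 16677024) (l 16687720)) (b (l 16683800) (l 16694416)))) (b (a (l 16674832) (l 16681528)) (a (l 16695744) (b (l 16697040) (l 16707472))))))) (b (b (a (b (l 16574592) (l 16593016)) (b (l 16589416) (l 16607512))) (a (b (l 16611920) (b (l 16626384) (l 16636168))) (b (l 16626080) (l 16645096)))) (b (a (b (a (l 16647624) (l 16654464)) (a (l 16667776)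 (l 16674440))) (b (a (l 16661200) (l 16667824)) (a (l 16680992) (l 16687440)))) (a (b (a (l 16688112) (l 16694600)) (b (a (l 16703496) (l 16709840)) (a (l 16713840) (l 16720096)))) (b (a (l 16700968) (l 16712480)) (a (b (l 16716080) (l 16726240)) (b (l 16722208) (l 16732272)))))))), by decide +kernel⟩

def k110_A00pp_022_s3 : ∃ t, chk3 f_A00pp_022_s3 t 18 14 170 = true :=
  ⟨(a (b (b (a (b (a (l 1) (l 16568248)) (a (b (l 16553696) (l 16563408)) (l 16566296))) (b (l 16558952) (l 16577744))) (b (a (a (l 16578224) (l 16585816)) (l 16602264)) (a (a (l 16598376) (l 16605800)) (b (l 16611768) (l 16621752))))) (b (a (b (b (l 16617440) (l 16627792)) (b (l 16638192) (l 16648632))) (b (a (l 16633392) (l 16640448)) (a (l 16653936) (l 16660816)))) (a (b (a (l 16660936) (l 16667856)) (a (b (l 16676872) (l 16687592)) (b (l 16683664) (l 16694288)))) (b (a (l 16674664) (l 16681376)) (a (l 16695616) (b (l 16696920) (l 16707368))))))) (b (b (a (b (l 16574192) (l 16592664)) (b (l 16589048) (l 16607192))) (a (b (l 16611608)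 (b (l 16626104) (l 16635920))) (b (l 16625800) (l 16644856)))) (b (a (b (a (l 16647400) (l 16654256)) (a (l 16667600) (l 16674272))) (b (a (l 16661000) (l 16667640)) (a (l 16680832) (l 16687296)))) (a (b (a (l 16687976) (l 16694464)) (b (a (l 16703384) (l 16709744)) (a (l 16713744) (l 16720008)))) (b (a (l 16700848) (l 16712368)) (a (b (l 16715992) (l 16726168)) (b (l 16722128) (l 16732208)))))))), by decide +kernel⟩

def k111_A00pp_022_s3 : ∃ t, chk3 f_A00pp_022_s3 t 18 14 171 = true :=
  ⟨(a (b (b (a (b (a (l 1) (l 16567800)) (a (b (l 16553264) (l 16563008)) (l 16565896))) (b (l 16558528) (l 16577360))) (b (a (a (l 16577856) (l 16585456)) (l 16601928)) (a (a (l 16598056) (l 16605496)) (b (l 16611464) (l 16621472))))) (b (a (b (b (l 16617160) (l 16627536)) (b (l 16637960) (l 16648424))) (b (a (l 16633144) (l 16640208)) (a (l 16653728) (l 16660624)))) (a (b (a (l 16660752) (l 16667680)) (a (b (l 16676720) (l 16687456)) (b (l 16683520) (l 16694168)))) (b (a (l 16674504) (l 16681224)) (a (l 16695496)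 (b (l 16696792) (l 16707264))))))) (b (b (a (b (l 16573800) (l 16592312)) (b (l 16588688) (l 16606872))) (a (b (l 16611304) (b (l 16625832) (l 16635664))) (b (l 16625528) (l 16644624)))) (b (a (b (a (l 16647176) (l 16654040)) (a (l 16667416) (l 16674096))) (b (a (l 16660800) (l 16667448)) (a (l 16680680) (l 16687144)))) (a (b (a (l 16687832) (l 16694336)) (b (a (l 16703272) (l 16709640)) (a (l 16713656) (l 16719928)))) (b (a (l 16700728) (l 16712256)) (a (b (l 16715896) (l 16726096)) (b (l 16722040) (l 16732144)))))))), by decide +kernel⟩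

def k112_A00pp_022_s3 : ∃ t, chk3 f_A00pp_022_s3 t 18 14 172 = true :=
  ⟨(a (b (b (a (b (a (l 1) (l 16567344)) (a (b (l 16552840) (l 16562600)) (l 16565496))) (b (l 16558096) (l 16576976))) (b (a (a (l 16577488) (l 16585104)) (l 16601592)) (a (a (l 16597736) (l 16605184)) (b (l 16611168) (l 16621192))))) (b (a (b (b (l 16616880) (l 16627272)) (b (l 16637720) (l 16648208))) (b (a (l 16632888) (l 16639968)) (a (l 16653528) (l 16660432)))) (a (b (a (l 16660560) (l 16667504)) (a (b (l 16676568) (l 16687320)) (b (l 16683376) (l 16694040)))) (b (a (l 16674336) (l 16681064)) (a (b (l 16690080) (l 16700656)) (b (l 16696672) (l 16707160))))))) (b (b (a (b (l 16573400) (l 16591960)) (b (l 16588320) (l 16606544))) (a (b (l 16611000) (b (l 16625560) (l 16635416))) (b (l 16625248) (l 16644384)))) (b (a (b (a (l 16646952) (l 16653824)) (a (l 16667232) (l 16673928))) (b (a (l 16660600) (l 16667264)) (a (l 16680520) (l 16687000)))) (a (b (a (l 16687688) (l 16694208)) (b (a (l 16703160) (l 16709536)) (a (l 16713560)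 (l 16719840)))) (b (a (l 16700608) (l 16712152)) (a (b (l 16715808) (l 16726016)) (b (l 16721960) (l 16732080)))))))), by decide +kernel⟩

def k113_A00pp_022_s3 : ∃ t, chk3 f_A00pp_022_s3 t 18 14 173 = true :=
  ⟨(a (b (b (a (b (a (l 1) (l 16566896)) (a (b (l 16552408) (l 16562192)) (l 16565088))) (b (l 16557672) (l 16576600))) (b (a (a (l 16577120) (l 16584744)) (l 16601256)) (a (a (l 16597408) (l 16604872)) (b (l 16610864) (l 16620912))))) (b (a (b (b (l 16616592) (l 16627016)) (b (l 16637488) (l 16647992))) (b (a (l 16632640) (l 16639736)) (a (l 16653320) (l 16660232)))) (a (b (a (l 16660376) (l 16667328)) (a (b (l 16676408) (l 16687184)) (b (l 16683232) (l 16693920)))) (b (a (l 16674176) (l 16680912)) (a (b (l 16689944) (l 16700544)) (b (l 16696552) (l 16707056))))))) (b (b (a (b (l 16573000) (l 16591608)) (b (l 16587952) (l 16606224))) (a (b (l 16610688) (b (l 16625288) (l 16635160))) (b (l 16624968) (l 16644152)))) (b (a (b (a (l 16646728) (l 16653616)) (a (l 16667048) (l 16673760))) (b (a (l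 16660400) (l 16667072)) (a (l 16680360) (l 16686848)))) (a (b (a (l 16687544) (l 16694072)) (b (a (l 16703048) (l 16709432)) (a (l 16713464) (l 16719760)))) (b (a (l 16700488) (l 16712040)) (a (b (l 16715712) (l 16725944)) (b (l 16721880) (l 16732016)))))))), by decide +kernel⟩

def k114_A00pp_022_s3 : ∃ t, chk3 f_A00pp_022_s3 t 18 14 174 = true :=
  ⟨(a (b (b (a (b (a (l 1) (l 16566448)) (a (b (l 16551976) (l 16561784)) (l 16564680))) (b (l 16557240) (l 16576216))) (b (a (a (l 16576744) (l 16584384)) (l 16600912)) (a (a (l 16597088) (l 16604560)) (b (l 16610560) (l 16620632))))) (b (a (b (b (l 16616312) (l 16626760)) (b (l 16637248) (l 16647784))) (b (a (l 16632384) (l 16639496)) (a (l 16653112) (l 16660040)))) (a (b (a (l 16660192) (l 16667152)) (a (b (l 16676256) (l 16687056)) (b (l 16683088) (l 16693792)))) (b (a (l 16674008) (l 16680760)) (a (b (l 16689808) (l 16700432)) (b (l 16696424) (l 16706952))))))) (b (b (a (b (l 16572608) (l 16591248)) (b (l 16587584) (l 16605896))) (a (b (l 16610376)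 (b (l 16625008) (l 16634904))) (b (l 16624688) (l 16643912)))) (b (a (b (a (l 16646496) (l 16653400)) (a (l 16666864) (l 16673584))) (b (a (l 16660192) (l 16666888)) (a (l 16680200) (l 16686704)))) (a (b (a (l 16687408) (l 16693944)) (b (a (l 16702936) (l 16709328)) (a (l 16713368) (l 16719672)))) (b (a (l 16700368) (b (l 16701656) (l 16711704))) (a (b (l 16715616) (l 16725872)) (b (l 16721792) (l 16731952)))))))), by decide +kernel⟩

def k115_A00pp_022_s3 : ∃ t, chk3 f_A00pp_022_s3 t 18 14 175 = true :=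
  ⟨(a (b (b (a (b (a (l 1) (l 16565992)) (a (b (l 16551544) (l 16561376)) (l 16564272))) (b (l 16556808) (l 16575824))) (b (a (a (l 16576376) (l 16584024)) (l 16600576)) (a (a (l 16596760) (l 16604248)) (b (l 16610256) (l 16620352))))) (b (a (b (b (l 16616032) (l 16626496)) (b (l 16637008) (l 16647568))) (b (a (l 16632136) (l 16639256)) (a (l 16652904) (l 16659848)))) (a (b (a (l 16660000) (l 16666976)) (a (b (l 16676096) (l 16686920)) (b (l 16682944) (l 16693672)))) (b (a (l 16673840) (l 16680608)) (a (b (l 16689672) (l 16700312)) (b (l 16696304) (l 16706848))))))) (b (b (a (b (l 16572200) (l 16590896)) (b (l 16587216) (l 16605576))) (a (b (l 16610072) (b (l 16624736) (l 16634656))) (b (l 16624400) (l 16648920)))) (b (a (b (a (l 16646272) (l 16653184)) (a (l 16666680) (l 16673416))) (b (a (l 16659992) (l 16666696)) (a (l 16680040) (l 16686552)))) (a (b (a (l 16687264) (l 16693808)) (b (a (l 16702824) (l 16709232)) (a (l 16713272) (l 16719592)))) (b (a (l 16700248) (b (l 16701544) (l 16711600))) (a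 (b (l 16715528) (l 16725792)) (b (l 16721712) (l 16731880)))))))), by decide +kernel⟩

def k116_A00pp_022_s3 : ∃ t, chk3 f_A00pp_022_s3 t 18 14 176 = true :=
  ⟨(a (a (b (b (b (a (l 1) (l 16555056)) (a (b (l 16551112) (l 16560968)) (l 16563872))) (b (a (l 16576000) (l 16583664)) (a (l 16596432) (l 16603936)))) (b (b (b (l 16615744) (l 16626232)) (b (l 16636776) (l 16647352))) (b (a (l 16659816) (l 16666800)) (a (b (l 16675944) (l 16686784)) (b (l 16682792) (l 16693544)))))) (b (b (b (l 16556376) (l 16575440)) (b (b (l 16590048) (l 16599944)) (b (l 16609952) (l 16620072)))) (b (b (a (l 16631880) (l 16639016)) (a (l 16652696) (l 16659648))) (b (a (l 16673680) (l 16680456)) (a (b (l 16689544) (l 16700200)) (b (l 16696176) (l 16706744))))))) (b (b (a (b (l 16571800) (l 16590544)) (b (l 16586848) (l 16605248))) (a (b (l 16609760) (b (l 16624456) (l 16634400))) (b (l 16624120) (l 16648680)))) (b (a (b (a (l 16646040) (l 16652968)) (a (l 16666496) (l 16673240))) (b (a (l 16659792) (l 16666504)) (a (l 16679880)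 (l 16686408)))) (a (b (a (l 16687120) (l 16693680)) (b (a (l 16702704) (l 16709128)) (a (l 16713184) (l 16719504)))) (b (a (l 16700128) (b (l 16701424) (l 16711496))) (a (b (l 16715432) (l 16725720)) (b (l 16721632) (l 16731816)))))))), by decide +kernel⟩

def k117_A00pp_022_s3 : ∃ t, chk3 f_A00pp_022_s3 t 18 14 177 = true :=
  ⟨(a (a (b (b (b (a (l 1) (l 16554600)) (a (b (l 16550680) (l 16560560)) (l 16563464))) (b (a (l 16575624) (l 16583304)) (a (l 16596104) (l 16603624)))) (b (b (b (l 16615464) (l 16625976)) (b (l 16636536) (l 16647136))) (b (a (l 16659624) (l 16666624)) (a (b (l 16675792) (l 16686648)) (b (l 16682648) (l 16693416)))))) (b (b (b (l 16555944) (l 16575056)) (b (b (l 16589696) (l 16599616)) (b (l 16609648) (l 16619792)))) (b (b (a (l 16631624) (l 16638768)) (a (l 16652488) (l 16659448))) (b (a (l 16673512) (l 16680296)) (a (b (l 16689408) (l 16700088)) (b (l 16696056) (l 16706640))))))) (b (b (a (b (l 16571400) (l 16590184)) (b (l 16586472) (l 16604920))) (a (b (l 16609448) (b (l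 16624176) (l 16634144))) (b (l 16623840) (l 16648440)))) (b (a (b (a (l 16645816) (l 16652752)) (a (l 16666312) (l 16673072))) (b (a (l 16659592) (l 16666320)) (a (l 16679720) (l 16686256)))) (a (b (a (l 16686976) (l 16693544)) (b (a (l 16702592) (l 16709024)) (a (l 16713088) (l 16719424)))) (b (a (l 16700008) (b (l 16701304) (l 16711400))) (a (b (l 16715344) (l 16725640)) (b (l 16721544) (l 16731752)))))))), by decide +kernel⟩

def k118_A00pp_022_s3 : ∃ t, chk3 f_A00pp_022_s3 t 18 14 178 = true :=
  ⟨(a (a (b (b (b (a (l 1) (b (l 16538872) (l 16548440))) (a (b (l 16550240) (l 16560144)) (l 16563048))) (b (a (l 16575248) (l 16582944)) (a (l 16595776) (l 16603312)))) (b (b (b (l 16615176) (l 16625712)) (b (l 16636296) (l 16646920))) (b (a (l 16659440) (l 16666448)) (a (b (l 16675632) (l 16686512)) (b (l 16682504) (l 16693296)))))) (b (b (b (l 16555512) (l 16574664)) (b (b (l 16589344) (l 16599288)) (b (l 16609344) (l 16619504)))) (b (b (a (l 16631368) (l 16638528)) (a (l 16652272) (l 16659256))) (b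 (a (l 16673344) (l 16680144)) (a (b (l 16689272) (l 16699968)) (b (l 16695928) (l 16706536))))))) (b (b (a (b (l 16571000) (l 16589824)) (b (l 16586104) (l 16604592))) (a (b (l 16609136) (b (l 16623896) (l 16633888))) (b (l 16623552) (l 16648200)))) (b (a (b (a (l 16645584) (l 16652536)) (a (l 16666128) (l 16672896))) (b (a (l 16659384) (l 16666128)) (a (l 16679552) (l 16686112)))) (a (b (a (l 16686832) (l 16693416)) (b (a (l 16702480) (l 16708920)) (a (l 16712992) (l 16719336)))) (b (a (l 16699888) (b (l 16701184) (l 16711296))) (a (b (l 16715248) (l 16725568)) (b (l 16721464) (l 16731688)))))))), by decide +kernel⟩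

def k119_A00pp_022_s3 : ∃ t, chk3 f_A00pp_022_s3 t 18 14 179 = true :=
  ⟨(a (a (b (b (b (a (l 1) (b (l 16538408) (l 16548000))) (a (b (l 16549808) (l 16559736)) (l 16562640))) (b (a (l 16574872) (l 16582584)) (a (l 16595448) (l 16602992)))) (b (b (b (l 16614888) (l 16625448)) (b (l 16636056) (l 16646704))) (b (a (l 16659248) (l 16666264)) (a (b (l 16675472) (l 16686376)) (b (l 16682360) (l 16693168)))))) (b (b (b (l 16555080) (l 16574280)) (b (b (l 16588992) (l 16598960)) (b (l 16609032) (l 16619224)))) (b (b (a (l 16631120) (l 16638288)) (a (l 16652064) (l 16659056))) (b (a (l 16673184) (l 16679992)) (a (b (l 16689136) (l 16699856)) (b (l 16695808) (l 16706432))))))) (b (b (a (b (l 16570592) (l 16589464)) (b (l 16585728) (l 16604264))) (a (b (l 16608824) (b (l 16623624) (l 16633632))) (b (l 16623272) (l 16647960)))) (b (a (b (a (l 16645352) (l 16652320)) (a (l 16665944) (l 16672720))) (b (a (l 16659184) (l 16665936)) (a (l 16679392) (l 16685960)))) (a (b (a (l 16686688) (l 16693280)) (b (a (l 16702368)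 (l 16708816)) (a (l 16712896) (l 16719248)))) (b (a (l 16699768) (b (l 16701064) (l 16711192))) (a (b (l 16715152) (l 16725488)) (b (l 16721384) (l 16731624)))))))), by decide +kernel⟩

def k120_A00pp_022_s3 : ∃ t, chk3 f_A00pp_022_s3 t 18 14 180 = true :=
  ⟨(a (a (b (b (b (a (l 1) (b (l 16537936) (l 16547552))) (a (b (l 16549368) (l 16559320)) (l 16562232))) (b (a (l 16574496) (l 16582216)) (a (l 16595120) (l 16602680)))) (b (b (b (l 16614600) (l 16625184)) (b (l 16635816) (l 16646488))) (b (a (l 16659064) (l 16666088)) (a (b (l 16675320) (l 16686240)) (b (l 16682216) (l 16693040)))))) (b (b (b (l 16554640) (l 16573888)) (b (b (l 16588640) (l 16598624)) (b (l 16608728) (l 16618936)))) (b (b (a (l 16630864) (l 16638048)) (a (l 16651856) (l 16658856))) (b (a (l 16673016) (l 16679832)) (a (b (l 16689000) (l 16699736)) (b (l 16695680) (l 16706328))))))) (b (b (a (b (l 16570192) (l 16589104)) (b (l 16585360) (l 16603936))) (a (b (l 16608504) (b (l 16623344) (l 16633376))) (b (l 16622984) (l 16647720))))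 (b (a (b (a (l 16645128) (l 16652104)) (a (l 16665752) (l 16672544))) (b (a (l 16658976) (l 16665744)) (a (l 16679232) (l 16685808)))) (a (b (a (l 16686544) (l 16693144)) (b (a (l 16702248) (l 16708712)) (a (l 16712800) (l 16719160)))) (b (a (l 16699640) (b (l 16700944) (l 16711096))) (a (b (l 16715056) (l 16725416)) (b (l 16721296) (l 16731552)))))))), by decide +kernel⟩

def k121_A00pp_022_s3 : ∃ t, chk3 f_A00pp_022_s3 t 18 14 181 = true :=
  ⟨(a (b (b (a (b (a (l 1) (b (l 16537464) (l 16547104))) (a (b (l 16548928) (l 16558904)) (l 16561816))) (b (l 16554208) (l 16573496))) (b (b (a (l 16572912) (l 16588280)) (a (l 16583088) (l 16598296))) (a (a (l 16594792) (l 16602360)) (b (l 16608416) (l 16618656))))) (b (a (b (b (l 16614320) (l 16624928)) (b (l 16635576) (l 16646272))) (b (a (l 16630608) (l 16637800)) (a (l 16651648) (l 16658656)))) (a (b (a (l 16658872) (l 16665912)) (a (b (l 16675160) (l 16686104)) (b (l 16682064) (l 16692920)))) (b (a (l 16672848) (l 16679680)) (a (b (l 16688864) (l 16699624))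 (b (l 16695552) (l 16706216))))))) (b (b (a (b (l 16569784) (l 16588744)) (b (l 16584984) (l 16603608))) (a (b (l 16608192) (b (l 16623064) (l 16633120))) (b (l 16622704) (l 16647480)))) (b (a (b (a (l 16644896) (l 16651888)) (a (l 16665568) (l 16672376))) (b (a (l 16658776) (l 16665552)) (a (l 16679072) (l 16685656)))) (a (b (a (l 16686400) (l 16693016)) (b (a (l 16702136) (l 16708608)) (a (l 16712704) (l 16719080)))) (b (a (l 16699520) (b (l 16700816) (l 16710992))) (a (b (l 16714968) (l 16725336)) (b (l 16721216) (l 16731488)))))))), by decide +kernel⟩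

def k122_A00pp_022_s3 : ∃ t, chk3 f_A00pp_022_s3 t 18 14 182 = true :=
  ⟨(a (b (b (a (b (a (l 1) (b (l 16536992) (l 16546656))) (a (b (l 16548496) (l 16558496)) (l 16561408))) (b (l 16553768) (l 16573112))) (b (b (a (l 16572528) (l 16587928)) (a (l 16582728) (l 16597960))) (a (a (l 16594464) (l 16602048)) (b (l 16608112) (l 16618368))))) (b (a (b (b (l 16614032) (l 16624664)) (b (l 16635336) (l 16646048))) (b (a (l 16630344) (l 16637560)) (a (l 16651432) (l 16658456)))) (a (b (a (l 16658680) (l 16665736)) (a (b (l 16675000) (l 16685968)) (b (l 16681920) (l 16692792)))) (b (a (l 16672680) (l 16679520)) (a (b (l 16688728) (l 16699504)) (b (l 16695432) (l 16706112))))))) (b (b (a (b (l 16569376) (l 16588384)) (b (l 16584608) (l 16603280))) (a (b (l 16607880) (b (l 16622776) (l 16632856))) (b (l 16622416) (l 16647232)))) (b (a (b (a (l 16644664) (l 16651672)) (a (l 16665384) (l 16672200))) (b (a (l 16658568) (l 16665360)) (a (l 16678904) (l 16685504)))) (a (b (a (l 16686256) (l 16692880)) (b (a (l 16702016)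 (l 16708504)) (a (l 16712608) (l 16718992)))) (b (a (l 16699400) (b (l 16700696) (l 16710888))) (a (b (l 16714872) (l 16725264)) (b (l 16721128) (l 16731424)))))))), by decide +kernel⟩

def k123_A00pp_022_s3 : ∃ t, chk3 f_A00pp_022_s3 t 18 14 183 = true :=
  ⟨(a (a (b (b (b (a (l 1) (b (l 16536520) (l 16546208))) (a (b (l 16548056) (l 16558080)) (l 16560992))) (b (a (l 16573360) (l 16581128)) (a (l 16594136) (l 16601728)))) (b (b (b (l 16613744) (l 16624392)) (b (l 16635096) (l 16645832))) (b (a (l 16658488) (l 16665552)) (a (b (l 16674848) (l 16685832)) (b (l 16681768) (l 16692664)))))) (b (b (b (l 16553328) (l 16572720)) (b (b (l 16587568) (l 16597632)) (b (l 16607800) (l 16618080)))) (b (b (a (l 16630088) (l 16637312)) (a (l 16651224) (l 16658256))) (b (a (l 16672512) (l 16679360)) (a (b (l 16688592) (l 16699392)) (b (l 16695304) (l 16706008))))))) (b (b (a (b (l 16568968) (l 16588024)) (b (l 16584232) (l 16602944))) (a (b (l 16607560) (b (l 16622496) (l 16632600))) (b (l 16622128) (l 16646992))))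 (b (a (b (a (l 16644432) (l 16651448)) (a (l 16665192) (l 16672024))) (b (a (l 16658360) (l 16665168)) (a (l 16678744) (l 16685360)))) (a (b (a (l 16686112) (l 16692744)) (b (a (l 16701904) (l 16708400)) (a (l 16712512) (l 16718904)))) (b (a (l 16699272) (b (l 16700576) (l 16710784))) (a (b (l 16714776) (l 16725184)) (b (l 16721048) (l 16731352)))))))), by decide +kernel⟩

def k124_A00pp_022_s3 : ∃ t, chk3 f_A00pp_022_s3 t 18 14 184 = true :=
  ⟨(a (a (b (b (b (a (l 1) (b (l 16536048) (l 16545752))) (a (b (l 16547616) (l 16557664)) (l 16560576))) (b (a (l 16572984) (l 16580760)) (a (l 16593800) (l 16601408)))) (b (b (b (l 16613448) (l 16624128)) (b (l 16634856) (l 16645616))) (b (a (l 16658296) (l 16665376)) (a (b (l 16674688) (l 16685696)) (b (l 16681624) (l 16692536)))))) (b (b (b (l 16552888) (l 16572328)) (b (b (l 16587216) (l 16597296)) (b (l 16607488) (l 16617800)))) (b (b (a (l 16629832) (l 16637064)) (a (l 16651008) (l 16658056))) (b (a (l 16672344) (l 16679208)) (a (b (l 16688456) (l 16699272))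 (b (l 16695176) (l 16705896))))))) (b (b (a (b (l 16568560) (l 16587664)) (b (l 16583856) (l 16602616))) (a (b (l 16607240) (b (l 16622216) (l 16632336))) (b (l 16621840) (l 16646752)))) (b (a (b (a (l 16644200) (l 16651232)) (a (l 16665008) (l 16671848))) (b (a (l 16658160) (l 16664976)) (a (l 16678576) (l 16685208)))) (a (b (a (l 16685960) (l 16692608)) (b (a (l 16701792) (l 16708288)) (a (l 16712416) (l 16718816)))) (b (a (l 16699152) (b (l 16700456) (l 16710680))) (a (b (l 16714680) (l 16725112)) (b (l 16720960) (l 16731288)))))))), by decide +kernel⟩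

def k125_A00pp_022_s3 : ∃ t, chk3 f_A00pp_022_s3 t 18 14 185 = true :=
  ⟨(a (a (b (b (b (a (l 1) (b (l 16535568) (l 16545304))) (a (b (l 16547168) (l 16557240)) (l 16560160))) (b (a (l 16572600) (l 16580392)) (a (l 16593472) (l 16601088)))) (b (b (b (l 16613160) (l 16623864)) (b (l 16634608) (l 16645392))) (b (a (l 16658112) (l 16665192)) (a (b (l 16674528) (l 16685560)) (b (l 16681480) (l 16692408)))))) (b (b (b (l 16552448) (l 16571928)) (b (b (l 16586856) (l 16596960)) (b (l 16607184) (l 16617512)))) (b (b (a (l 16629576) (l 16636824)) (a (l 16650800) (l 16657856))) (b (a (l 16672176) (l 16679048)) (a (b (l 16688320) (l 16699160)) (b (l 16695048) (l 16705792))))))) (b (b (a (b (l 16568152) (l 16587296)) (b (l 16583480) (l 16602280))) (a (b (l 16606928) (b (l 16621936) (l 16632080))) (b (l 16621552) (l 16646504)))) (b (a (b (a (l 16643968) (l 16651008)) (a (l 16664816) (l 16671672))) (b (a (l 16657952) (l 16664784)) (a (l 16678416) (l 16685056)))) (a (b (a (l 16685816) (l 16692480)) (b (a (l 16701672)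 (l 16708184)) (a (l 16712320) (l 16718736)))) (b (a (l 16699024) (b (l 16700336) (l 16710584))) (a (b (l 16714584) (l 16725032)) (b (l 16720872) (l 16731224)))))))), by decide +kernel⟩

def k126_A00pp_022_s3 : ∃ t, chk3 f_A00pp_022_s3 t 18 14 186 = true :=
  ⟨(a (a (b (b (b (a (l 1) (b (l 16535096) (l 16544848))) (a (b (l 16546728) (l 16556824)) (l 16559744))) (b (a (l 16572216) (l 16580024)) (a (l 16593136) (l 16600768)))) (b (b (b (l 16612872) (l 16623600)) (b (l 16634368) (l 16645176))) (b (a (l 16657920) (l 16665016)) (a (b (l 16674368) (l 16685416)) (b (l 16681328) (l 16692280)))))) (b (b (b (l 16552008) (l 16571536)) (b (b (l 16586496) (l 16596624)) (b (l 16606872) (l 16617224)))) (b (b (a (l 16629312) (l 16636576)) (a (l 16650584) (l 16657656))) (b (a (l 16672008) (l 16678888)) (a (b (l 16688176) (l 16699040)) (b (l 16694920) (l 16705688))))))) (b (b (a (b (l 16567736) (l 16586936)) (b (l 16583096) (l 16601944))) (a (b (l 16606608) (b (l 16621648) (l 16631816))) (b (l 16621264) (l 16646264))))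 (b (a (b (a (l 16643736) (l 16650792)) (a (l 16664632) (l 16671496))) (b (a (l 16657744) (l 16664592)) (a (l 16678248) (l 16684904)))) (a (b (a (l 16685672) (l 16692344)) (b (a (l 16701560) (l 16708080)) (a (l 16712224) (l 16718648)))) (b (a (l 16698904) (b (l 16700208) (l 16710480))) (a (b (l 16714496) (l 16724960)) (b (l 16720792) (l 16731152)))))))), by decide +kernel⟩

def k127_A00pp_022_s3 : ∃ t, chk3 f_A00pp_022_s3 t 18 14 187 = true :=
  ⟨(a (a (b (b (b (a (l 1) (b (l 16534616) (l 16544400))) (a (b (l 16546288) (l 16556408)) (l 16559328))) (b (a (l 16571832) (l 16579656)) (a (l 16592800) (l 16600448)))) (b (b (b (l 16612584) (l 16623328)) (b (l 16634128) (l 16644952))) (b (a (l 16657728) (l 16664832)) (a (b (l 16674208) (l 16685280)) (b (l 16681176) (l 16692152)))))) (b (b (b (l 16551560) (l 16571144)) (b (b (l 16586136) (l 16596288)) (b (l 16606560) (l 16616936)))) (b (b (a (l 16629056) (l 16636328)) (a (l 16650368) (l 16657456))) (b (a (l 16671840) (l 16678736)) (a (b (l 16688040) (l 16698920))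 (b (l 16694792) (l 16705576))))))) (b (b (a (b (l 16567328) (l 16586568)) (b (l 16582720) (l 16601608))) (a (b (l 16606288) (b (l 16621368) (l 16631560))) (b (l 16620976) (l 16646016)))) (b (a (b (a (l 16643504) (l 16650568)) (a (l 16664440) (l 16671320))) (b (a (l 16657536) (l 16664392)) (a (l 16678088) (l 16684752)))) (a (b (a (l 16685528) (l 16692208)) (b (a (l 16701440) (l 16707976)) (a (l 16712128) (l 16718560)))) (b (a (l 16698776) (b (l 16700088) (l 16710376))) (a (b (l 16714400) (l 16724880)) (b (l 16720704) (l 16731088)))))))), by decide +kernel⟩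

def k128_A00pp_022_s3 : ∃ t, chk3 f_A00pp_022_s3 t 18 14 188 = true :=
  ⟨(a (a (b (b (b (a (l 1) (b (l 16534144) (l 16543944))) (a (b (l 16545840) (l 16555984)) (l 16558912))) (b (a (l 16571448) (l 16579288)) (a (l 16592472) (l 16600128)))) (b (b (b (l 16612288) (l 16623064)) (b (l 16633880) (l 16644736))) (b (a (l 16657536) (l 16664648)) (a (b (l 16674056) (l 16685144)) (b (l 16681032) (l 16692024)))))) (b (b (b (l 16551120) (l 16570744)) (b (b (l 16585776) (l 16595952)) (b (l 16606248) (l 16616648)))) (b (b (a (l 16628792) (l 16636080)) (a (l 16650160) (l 16657256))) (b (a (l 16671664) (l 16678576)) (a (b (l 16687904) (l 16698800)) (b (l 16694672) (l 16705472))))))) (b (b (a (b (l 16566912) (l 16586200)) (b (l 16582336) (l 16601272))) (a (b (l 16605968) (b (l 16621080) (l 16631296))) (b (l 16620680) (l 16645768)))) (b (a (b (a (l 16643264) (l 16650352)) (a (l 16664248) (l 16671136))) (b (a (l 16657328) (l 16664200)) (a (l 16677920) (l 16684592)))) (a (b (a (l 16685376) (l 16692072)) (b (a (l 16701328)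 (l 16707872)) (a (l 16712024) (l 16718472)))) (b (a (l 16698656) (b (l 16699968) (l 16710272))) (a (b (l 16714304) (l 16724800)) (b (l 16720624) (l 16731016)))))))), by decide +kernel⟩

def k129_A00pp_022_s3 : ∃ t, chk3 f_A00pp_022_s3 t 18 14 189 = true :=
  ⟨(a (a (b (b (b (a (l 1) (b (l 16533664) (l 16543488))) (a (b (l 16545392) (l 16555568)) (l 16558496))) (b (a (l 16571064) (l 16578912)) (a (l 16592136) (l 16599808)))) (b (b (b (l 16612000) (l 16622800)) (b (l 16633640) (l 16644512))) (b (a (l 16657344) (l 16664472)) (a (b (l 16673896) (l 16685000)) (b (l 16680880) (l 16691896)))))) (b (b (b (l 16550672) (l 16570344)) (b (b (l 16585416) (l 16595616)) (b (l 16605928) (l 16616352)))) (b (b (a (l 16628536) (l 16635832)) (a (l 16649944) (l 16657056))) (b (a (l 16671496) (l 16678416)) (a (b (l 16687768) (l 16698688)) (b (l 16694544) (l 16705360))))))) (b (b (a (b (l 16566504) (l 16585832)) (b (l 16581960) (l 16600936))) (a (b (l 16605648) (b (l 16620792) (l 16631032))) (b (l 16620392) (l 16645528))))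 (b (a (b (a (l 16643032) (l 16650128)) (a (l 16664064) (l 16670960))) (b (a (l 16657120) (l 16664008)) (a (l 16677760) (l 16684440)))) (a (b (a (l 16685232) (l 16691936)) (b (a (l 16701208) (l 16707760)) (a (l 16711928) (l 16718384)))) (b (a (l 16698528) (b (l 16699840) (l 16710168))) (a (b (l 16714208) (l 16724728)) (b (l 16720536) (l 16730952)))))))), by decide +kernel⟩

def k130_A00pp_022_s3 : ∃ t, chk3 f_A00pp_022_s3 t 18 14 190 = true :=
  ⟨(a (a (b (b (b (a (l 1) (b (l 16533184) (l 16543032))) (a (b (l 16544952) (l 16555144)) (l 16558072))) (b (a (l 16570680) (l 16578544)) (a (l 16591800) (l 16599488)))) (b (b (b (l 16611704) (l 16622528)) (b (l 16633392) (l 16644296))) (b (a (l 16657144) (l 16664288)) (a (b (l 16673736) (l 16684864)) (b (l 16680736) (l 16691768)))))) (b (b (b (l 16550232) (l 16569952)) (b (b (l 16585056) (l 16595280)) (b (l 16605616) (l 16616064)))) (b (b (a (l 16628272) (l 16635584)) (a (l 16649728) (l 16656848))) (b (a (l 16671328) (l 16678256)) (a (b (l 16687624) (l 16698568))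 (b (l 16694416) (l 16705256))))))) (b (b (a (b (l 16566088) (l 16585464)) (b (l 16581576) (l 16600600))) (a (b (l 16605328) (b (l 16620512) (l 16630768))) (b (l 16620104) (l 16645280)))) (b (a (b (a (l 16642800) (l 16649904)) (a (l 16663872) (l 16670784))) (b (a (l 16656912) (l 16663808)) (a (l 16677592) (l 16684288)))) (a (b (a (l 16685080) (l 16691800)) (b (a (l 16701088) (l 16707656)) (a (l 16711832) (l 16718296)))) (b (a (l 16698408) (b (l 16699720) (l 16710064))) (a (b (l 16714112) (l 16724648)) (b (l 16720448) (l 16730880)))))))), by decide +kernel⟩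

def k131_A00pp_022_s3 : ∃ t, chk3 f_A00pp_022_s3 t 18 14 191 = true :=
  ⟨(a (a (b (b (b (a (l 1) (b (l 16532704) (l 16542576))) (a (b (l 16544504) (l 16554720)) (l 16557648))) (b (a (l 16570296) (l 16578168)) (a (l 16591464) (l 16599160)))) (b (b (b (l 16611416) (l 16622256)) (b (l 16633144) (l 16644072))) (b (a (l 16656952) (l 16664104)) (a (b (l 16673576) (l 16684728)) (b (l 16680584) (l 16691640)))))) (b (b (b (l 16549784) (l 16569552)) (b (b (l 16584688) (l 16594936)) (b (l 16605304) (l 16615776)))) (b (b (a (l 16628008) (l 16635336)) (a (l 16649512) (l 16656648))) (b (a (l 16671152) (l 16678096)) (a (b (l 16687488) (l 16698448)) (b (l 16694288) (l 16705144))))))) (b (b (a (b (l 16565672) (l 16585096)) (b (l 16581192) (l 16600264))) (a (b (l 16605008) (b (l 16620224) (l 16630504))) (b (l 16619808) (l 16645032)))) (b (a (b (a (l 16642560) (l 16649680)) (a (l 16663680) (l 16670608))) (b (a (l 16656704) (l 16663616)) (a (l 16677424) (l 16684136)))) (a (b (a (l 16684936) (l 16691664)) (b (a (l 16700976)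 (l 16707552)) (a (l 16711736) (l 16718208)))) (b (a (l 16703520) (b (l 16699592) (l 16709960))) (a (b (l 16714016) (l 16724568)) (b (l 16720360) (l 16730816)))))))), by decide +kernel⟩

def k132_A00pp_022_s3 : ∃ t, chk3 f_A00pp_022_s3 t 18 14 192 = true :=
  ⟨(a (a (b (b (b (a (l 1) (b (l 16532216) (l 16542120))) (a (b (l 16544056) (l 16554296)) (l 16557232))) (b (a (l 16569912) (l 16577800)) (a (l 16591120) (l 16598840)))) (b (b (b (l 16611120) (l 16621992)) (b (l 16632904) (l 16643848))) (b (a (l 16656760) (l 16663920)) (a (b (l 16673408) (l 16684584)) (b (l 16680432) (l 16691512)))))) (b (b (b (l 16549336) (l 16569152)) (b (b (l 16584328) (l 16594600)) (b (l 16604984) (l 16615480)))) (b (b (a (l 16627752) (l 16635088)) (a (l 16649296) (l 16656448))) (b (a (l 16670984) (l 16677936)) (a (b (l 16687352) (l 16698328)) (b (l 16694160) (l 16705040))))))) (b (b (a (b (l 16565256) (l 16584728)) (b (l 16580808) (l 16599928))) (a (b (l 16604680) (b (l 16619936) (l 16630240))) (b (l 16619512) (l 16644784))))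 (b (a (b (a (l 16642328) (l 16649464)) (a (l 16663488) (l 16670424))) (b (a (l 16656488) (l 16663416)) (a (l 16677256) (l 16683984)))) (a (b (a (l 16684784) (l 16691528)) (b (a (l 16700856) (l 16707440)) (a (l 16711640) (l 16718120)))) (b (a (b (l 16692904) (l 16703392)) (b (l 16699472) (l 16709856))) (a (b (l 16713920) (l 16724488)) (b (l 16720280) (l 16730744)))))))), by decide +kernel⟩

def k133_A00pp_022_s3 : ∃ t, chk3 f_A00pp_022_s3 t 18 14 193 = true :=
  ⟨(a (a (b (b (b (a (l 1) (b (l 16531736) (l 16541656))) (a (b (l 16543600) (l 16553872)) (l 16556808))) (b (a (l 16569520) (l 16577424)) (a (l 16590784) (l 16598512)))) (b (b (b (l 16610824) (l 16621720)) (b (l 16632656) (l 16643624))) (b (a (l 16656568) (l 16663744)) (a (b (l 16673248) (l 16684448)) (b (l 16680280) (l 16691384)))))) (b (b (b (l 16548888) (l 16568752)) (b (b (l 16583960) (l 16594264)) (b (l 16604672) (l 16615192)))) (b (b (a (l 16627488) (l 16634840)) (a (l 16649080) (l 16656240))) (b (a (l 16670816) (l 16677776)) (a (b (l 16687208)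 (l 16698216)) (b (l 16694032) (l 16704928))))))) (b (b (a (b (l 16564840) (l 16584360)) (b (l 16580424) (l 16599584))) (a (b (l 16604360) (b (l 16619648) (l 16629976))) (b (l 16619224) (a (l 16635712) (l 16642848))))) (b (a (b (a (l 16642088) (l 16649240)) (a (l 16663296) (l 16670248))) (b (a (l 16656280) (l 16663216)) (a (l 16677088) (l 16683824)))) (a (b (a (l 16684640) (l 16691392)) (b (a (l 16700736) (l 16707336)) (a (l 16711536) (l 16718032)))) (b (a (b (l 16692768) (l 16703272)) (b (l 16699344) (l 16709752))) (a (b (l 16713824) (l 16724416)) (b (l 16720192) (l 16730680)))))))), by decide +kernel⟩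

def k134_A00pp_022_s3 : ∃ t, chk3 f_A00pp_022_s3 t 18 14 194 = true :=
  ⟨(a (a (a (b (b (b (l 1) (b (l 16543152) (l 16553448))) (b (l 16569136) (l 16590448))) (b (b (l 16612200) (l 16634216)) (b (l 16656368) (b (l 16673088) (l 16684304))))) (b (b (b (b (l 16531248) (l 16541200)) (l 16556384)) (b (l 16577048) (l 16598192))) (b (b (l 16619760) (l 16641592)) (b (l 16663560) (b (l 16680136) (l 16691256)))))) (b (b (b (l 16548440) (l 16568352)) (b (b (l 16583600) (l 16593920)) (b (l 16604352) (l 16614896)))) (b (b (a (l 16627224) (l 16634584)) (a (l 16648864) (l 16656032))) (b (a (l 16670640) (l 16677616)) (a (b (l 16687072) (l 16698096)) (b (l 16693896) (l 16704824))))))) (b (b (a (b (l 16564416) (l 16583984)) (b (l 16580032) (l 16599248))) (a (b (l 16604040) (b (l 16619360) (l 16629712))) (b (l 16618928) (a (l 16635456) (l 16642608))))) (b (a (b (a (l 16641848) (l 16649016)) (a (l 16663104) (l 16670064))) (b (a (l 16656072) (l 16663024)) (a (l 16676920) (l 16683672)))) (a (b (a (l 16684488) (l 16691248))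 (b (a (l 16700616) (l 16707224)) (a (l 16711440) (l 16717944)))) (b (a (b (l 16692632) (l 16703152)) (b (l 16699224) (l 16709640))) (a (b (l 16713720) (l 16724336)) (b (l 16720104) (l 16730608)))))))), by decide +kernel⟩

def k135_A00pp_022_s3 : ∃ t, chk3 f_A00pp_022_s3 t 18 14 195 = true :=
  ⟨(a (a (a (b (b (b (l 1) (b (l 16542704) (l 16553016))) (b (l 16568744) (l 16590112))) (b (b (l 16611912) (l 16633976)) (b (l 16656176) (b (l 16672928) (l 16684168))))) (b (b (b (b (l 16530768) (l 16540736)) (l 16555960)) (b (l 16576672) (l 16597864))) (b (b (l 16619480) (l 16641360)) (b (l 16663376) (b (l 16679984) (l 16691128)))))) (b (b (b (l 16547984) (l 16567944)) (b (b (l 16583232) (l 16593576)) (b (l 16604040) (l 16614608)))) (b (b (a (l 16626960) (l 16634336)) (a (l 16648648) (l 16655832))) (b (a (l 16670472) (l 16677456)) (a (b (l 16686928) (l 16697976)) (b (l 16693768) (l 16704712))))))) (b (b (a (b (l 16564000) (l 16583616)) (b (l 16579648) (l 16598904))) (a (b (l 16603712) (b (l 16619072) (l 16629448)))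 (b (l 16618632) (a (l 16635200) (l 16642360))))) (b (a (b (a (l 16641616) (l 16648792)) (a (l 16662912) (l 16669888))) (b (a (l 16655856) (l 16662824)) (a (l 16676752) (l 16683512)))) (a (b (a (l 16684344) (l 16691112)) (b (a (l 16700504) (l 16707120)) (a (l 16711344) (l 16717856)))) (b (a (b (l 16692496) (l 16703040)) (b (l 16699096) (l 16709536))) (a (b (l 16713624) (l 16724256)) (b (l 16720016) (l 16730544)))))))), by decide +kernel⟩

def k136_A00pp_022_s3 : ∃ t, chk3 f_A00pp_022_s3 t 18 14 196 = true :=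
  ⟨(a (a (a (b (b (b (l 1) (b (l 16542248) (l 16552592))) (b (l 16568352) (l 16589768))) (b (b (l 16611616) (l 16633728)) (b (l 16655984) (b (l 16672768) (l 16684024))))) (b (b (b (b (l 16530280) (l 16540272)) (l 16555536)) (b (l 16576296) (l 16597536))) (b (b (l 16619208) (l 16641128)) (b (l 16663192) (b (l 16679832) (l 16690992)))))) (b (b (b (l 16547536) (l 16567544)) (b (b (l 16582864) (l 16593232)) (b (l 16603720) (l 16614312)))) (b (b (a (l 16626696) (l 16634088)) (a (l 16648432) (l 16655624))) (b (a (l 16670296) (l 16677296)) (a (b (l 16686792) (l 16697856)) (b (l 16693640) (l 16704600))))))) (b (b (a (b (l 16563584) (l 16583240)) (b (l 16579264) (l 16598560))) (a (b (l 16603384) (b (l 16618776) (l 16629184))) (b (l 16618336) (a (l 16634944) (l 16642120))))) (b (a (b (a (l 16641376) (l 16648560)) (a (l 16662720) (l 16669704))) (b (a (l 16655648) (l 16662624)) (a (l 16676584) (l 16683360)))) (a (b (a (l 16684192) (l 16690976)) (b (a (l 16700384) (l 16707016)) (a (l 16711240) (l 16717768)))) (b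 (a (b (l 16692360) (l 16702920)) (b (l 16698968) (l 16709432))) (a (b (l 16713528) (l 16724176)) (b (l 16719928) (l 16730472)))))))), by decide +kernel⟩

def k137_A00pp_022_s3 : ∃ t, chk3 f_A00pp_022_s3 t 18 14 197 = true :=
  ⟨(a (a (b (b (b (a (l 1) (b (l 16529792) (l 16539816))) (a (b (l 16541800) (l 16552168)) (l 16555104))) (a (b (l 16567968) (l 16589424)) (b (l 16575920) (l 16597208)))) (b (b (b (l 16609640) (l 16620632)) (b (l 16631664) (l 16642728))) (b (a (l 16655784) (l 16663008)) (a (b (l 16672600) (l 16683888)) (b (l 16679680) (l 16690864)))))) (b (b (b (l 16547080) (l 16567136)) (b (b (l 16582496) (l 16592888)) (b (l 16603400) (l 16614016)))) (b (b (a (l 16626432) (l 16633832)) (a (l 16648208) (l 16655424))) (b (a (l 16670120) (l 16677136)) (a (b (l 16686648) (l 16697736)) (b (l 16693512) (l 16704496))))))) (b (b (a (b (l 16563160) (l 16582864)) (b (l 16578872) (l 16598224))) (a (b (l 16603064) (b (l 16618488) (l 16628912))) (b (l 16618040) (a (l 16634680) (l 16641880))))) (b (a (b (a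 (l 16641136) (l 16648336)) (a (l 16662528) (l 16669528))) (b (a (l 16655432) (l 16662424)) (a (l 16676416) (l 16683200)))) (a (b (a (l 16684040) (l 16690840)) (b (a (l 16700264) (l 16706904)) (a (l 16711144) (l 16717680)))) (b (a (b (l 16692216) (l 16702808)) (b (l 16698848) (l 16709328))) (a (b (l 16713432) (l 16724096)) (b (l 16719848) (l 16730408)))))))), by decide +kernel⟩

def k138_A00pp_022_s3 : ∃ t, chk3 f_A00pp_022_s3 t 18 14 198 = true :=
  ⟨(a (a (b (b (b (a (l 1) (b (l 16529304) (l 16539352))) (a (b (l 16541344) (l 16551736)) (l 16554680))) (a (b (l 16567576) (l 16589088)) (b (l 16575544) (l 16596880)))) (b (b (b (l 16609344) (l 16620360)) (b (l 16631416) (l 16642504))) (b (a (l 16655592) (l 16662824)) (a (b (l 16672440) (l 16683744)) (b (l 16679528) (l 16690736)))))) (b (b (b (l 16546632) (l 16566736)) (b (b (l 16582128) (l 16592544)) (b (l 16603080) (l 16613720)))) (b (b (a (l 16626160) (l 16633576)) (a (l 16647992) (l 16655216))) (b (a (l 16669952) (l 16676976)) (a (b (l 16686512) (l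 16697616)) (b (l 16693384) (l 16704384))))))) (b (b (a (b (l 16562736) (l 16582496)) (b (l 16578480) (l 16597880))) (a (b (l 16602736) (b (l 16618200) (l 16628648))) (b (l 16617744) (a (l 16634424) (l 16641632))))) (b (a (b (a (l 16640896) (l 16648112)) (a (l 16662336) (l 16669344))) (b (a (l 16655224) (l 16662224)) (a (l 16676248) (l 16683048)))) (a (b (a (l 16683888) (l 16690696)) (b (a (l 16700144) (l 16706792)) (a (l 16711040) (l 16717592)))) (b (a (b (l 16692080) (l 16702688)) (b (l 16698720) (l 16709216))) (a (b (l 16713336) (l 16724024)) (b (l 16719760) (l 16730336)))))))), by decide +kernel⟩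

def k139_A00pp_022_s3 : ∃ t, chk3 f_A00pp_022_s3 t 18 14 199 = true :=
  ⟨(a (a (b (b (b (a (l 1) (b (l 16528816) (l 16538880))) (a (b (l 16540888) (l 16551304)) (l 16554256))) (a (b (l 16567184) (l 16588744)) (b (l 16575168) (l 16596552)))) (b (b (b (l 16609048) (l 16620088)) (b (l 16631168) (l 16642280))) (b (a (l 16655392) (l 16662632)) (a (b (l 16672280) (l 16683600)) (b (l 16679376) (l 16690600)))))) (b (b (b (l 16546176) (l 16566328)) (b (b (l 16581760) (l 16592200)) (b (l 16602760) (l 16613424)))) (b (b (a (l 16625896) (l 16633328)) (a (l 16647776) (l 16655008))) (b (a (l 16669776) (l 16676808)) (a (b (l 16686368) (l 16697496)) (b (l 16693248) (l 16704272))))))) (b (b (a (b (l 16562312) (l 16582120)) (b (l 16578096) (l 16597536))) (a (b (l 16602408) (b (l 16617904) (l 16628376))) (b (l 16617448) (a (l 16634168) (l 16641392))))) (b (a (b (a (l 16640656) (l 16647888)) (a (l 16662136) (l 16669160))) (b (a (l 16655008) (l 16662024)) (a (l 16676080) (l 16682888)))) (a (b (a (l 16688984) (l 16690560))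 (b (a (l 16700024) (l 16706688)) (a (l 16710944) (l 16717504)))) (b (a (b (l 16691944) (l 16702568)) (b (l 16698592) (l 16709112))) (a (b (l 16713232) (l 16723944)) (b (l 16719672) (l 16730264)))))))), by decide +kernel⟩

def k140_A00pp_022_s3 : ∃ t, chk3 f_A00pp_022_s3 t 18 14 100 = true :=
  ⟨(a (a (a (b (b (b (l 1) (b (l 16540208) (l 16550656))) (b (l 16566592) (l 16588232))) (b (b (l 16610304) (l 16632632)) (b (l 16655096) (b (l 16672032) (l 16683392))))) (b (b (b (b (l 16528080) (l 16538184)) (l 16553608)) (b (l 16574600) (l 16596056))) (b (b (l 16617944) (l 16640088)) (b (l 16662360) (b (l 16679144) (l 16690408)))))) (b (b (b (l 16545496) (l 16565720)) (b (b (l 16581200) (l 16591688)) (b (l 16602280) (l 16612976)))) (b (b (a (l 16625496) (l 16632944)) (a (l 16647440) (l 16654696))) (b (a (l 16669512) (l 16681808)) (a (b (l 16686152) (l 16697312)) (b (l 16693056) (l 16704112))))))) (b (b (a (b (l 16561680) (l 16581552)) (b (l 16577504) (l 16597016))) (a (b (l 16601912) (b (l 16617464) (l 16627976)))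 (b (l 16617000) (a (l 16633776) (l 16641024))))) (b (a (b (a (l 16640296) (l 16647544)) (a (l 16661848) (l 16668888))) (b (a (l 16654688) (l 16661728)) (a (l 16675824) (l 16682656)))) (a (b (a (l 16688760) (l 16690352)) (b (a (l 16699848) (l 16706520)) (a (l 16710792) (l 16717368)))) (b (a (b (l 16691736) (l 16702392)) (b (l 16698408) (l 16708952))) (a (b (l 16713088) (l 16723824)) (b (l 16719536) (l 16732784)))))))), by decide +kernel⟩

def k141_A00pp_022_s3 : ∃ t, chk3 f_A00pp_022_s3 t 18 14 101 = true :=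
  ⟨(a (a (a (b (b (b (l 1) (b (l 16539288) (l 16549792))) (b (l 16565800) (l 16587544))) (b (b (l 16609720) (l 16632144)) (b (l 16654704) (b (l 16671704) (l 16683104))))) (b (b (b (b (l 16527096) (l 16537248)) (l 16552744)) (b (l 16573840) (l 16595400))) (b (b (l 16617384) (l 16639624)) (b (l 16661984) (b (l 16678840) (l 16690144)))))) (b (b (b (l 16544576) (l 16564904)) (b (b (l 16580464) (l 16590992)) (b (l 16601632) (l 16612384)))) (b (b (a (l 16624960) (l 16632440)) (a (l 16647000) (l 16654280))) (b (a (l 16669168) (l 16681488)) (a (b (l 16685872) (l 16697072)) (b (l 16692792) (l 16703888))))))) (b (b (a (b (l 16560824) (l 16580800)) (b (l 16576720) (l 16596320))) (a (b (l 16601256) (b (l 16616880) (l 16627432))) (b (l 16616400) (a (l 16633256) (l 16640528))))) (b (a (b (a (l 16639816) (l 16647088)) (a (l 16661456) (l 16668528))) (b (a (l 16654256) (l 16661320)) (a (l 16675488) (l 16682336)))) (a (b (a (l 16688456) (l 16690072)) (b (a (l 16699608) (l 16706304)) (a (l 16710592) (l 16717184)))) (b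 (a (b (l 16691464) (l 16702160)) (b (l 16698152) (l 16708736))) (a (b (l 16712888) (l 16723664)) (b (l 16719360) (l 16732648)))))))), by decide +kernel⟩

def k142_A00pp_022_s3 : ∃ t, chk3 f_A00pp_022_s3 t 18 14 102 = true :=
  ⟨(a (a (a (b (b (b (l 1) (b (l 16538368) (l 16548928))) (b (l 16565008) (l 16586848))) (b (b (l 16609128) (l 16631656)) (b (l 16654304) (b (l 16671376) (l 16682824))))) (b (b (b (b (l 16526104) (l 16536312)) (l 16551880)) (b (l 16573072) (l 16594736))) (b (b (l 16616824) (l 16639152)) (b (l 16661608) (b (l 16678536) (l 16689880)))))) (b (b (b (l 16543656) (l 16564080)) (b (b (l 16579712) (l 16590296)) (b (l 16600984) (l 16611784)))) (b (b (a (l 16624424) (l 16631928)) (a (l 16646560) (l 16653864))) (b (a (l 16668816) (l 16681160)) (a (b (l 16685584) (l 16696824)) (b (l 16692528) (l 16703664))))))) (b (b (a (b (l 16559968) (l 16580040)) (b (l 16575928) (l 16595624))) (a (b (l 16605832) (b (l 16616288) (l 16626888))) (b (l 16615792) (a (l 16632736) (l 16640032))))) (b (a (b (a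 (l 16639328) (l 16646632)) (a (l 16661064) (l 16668160))) (b (a (l 16653824) (l 16660920)) (a (l 16675144) (l 16682024)))) (a (b (a (l 16688152) (l 16689792)) (a (b (l 16699360) (l 16710392)) (b (l 16706088) (l 16717008)))) (b (a (b (l 16691184) (l 16701920)) (b (l 16697896) (l 16708528))) (a (b (l 16712696) (l 16723504)) (b (l 16719184) (l 16732504)))))))), by decide +kernel⟩

def k143_A00pp_022_s3 : ∃ t, chk3 f_A00pp_022_s3 t 18 14 103 = true :=
  ⟨(a (a (a (b (b (b (l 1) (b (l 16537448) (l 16548056))) (b (l 16564216) (l 16586160))) (b (b (l 16608536) (l 16631160)) (b (l 16653904) (b (l 16671048) (l 16682536))))) (b (b (b (b (l 16525112) (l 16535368)) (l 16551016)) (b (l 16572304) (l 16594064))) (b (b (l 16616256) (l 16638688)) (b (l 16661232) (b (l 16678224) (l 16689616)))))) (b (b (b (l 16542736) (l 16563256)) (b (b (l 16578968) (l 16589592)) (b (l 16600336) (l 16611184)))) (b (b (a (l 16623880) (l 16631408)) (a (l 16646112) (l 16653440))) (b (a (l 16668464) (l 16680832)) (a (b (l 16685296) (l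 16696584)) (b (l 16692264) (l 16703440))))))) (b (b (a (b (l 16559112) (l 16579272)) (b (l 16575136) (l 16594928))) (a (b (l 16605168) (b (l 16615696) (l 16626344))) (b (l 16615192) (a (l 16632208) (l 16639536))))) (b (a (b (a (l 16638840) (l 16646168)) (a (l 16660672) (l 16667792))) (b (a (l 16653392) (l 16660512)) (a (l 16674800) (l 16681704)))) (a (b (a (l 16687848) (l 16689504)) (a (b (l 16699120) (l 16710192)) (b (l 16705864) (l 16716824)))) (b (a (b (l 16690904) (l 16701680)) (b (l 16697640) (l 16708312))) (a (b (l 16712496) (l 16723344)) (b (l 16719008) (l 16732360)))))))), by decide +kernel⟩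

def k144_A00pp_022_s3 : ∃ t, chk3 f_A00pp_022_s3 t 18 14 104 = true :=
  ⟨(a (a (a (b (b (b (l 1) (b (l 16536520) (l 16547176))) (b (l 16563416) (l 16585456))) (b (b (l 16607936) (l 16630664)) (b (l 16653504) (b (l 16670712) (l 16682248))))) (b (b (b (b (l 16524112) (l 16534416)) (l 16550144)) (b (l 16571536) (l 16593392))) (b (b (l 16615688) (l 16638216)) (b (l 16660856) (b (l 16677912) (l 16689344)))))) (b (b (b (l 16541808) (l 16562432)) (b (b (l 16578216) (l 16588888)) (b (l 16599680) (l 16610584)))) (b (b (a (l 16623336) (l 16630896)) (a (l 16645672) (l 16653024))) (b (a (l 16673352) (l 16680496)) (a (b (l 16685016) (l 16696336)) (b (l 16692000) (l 16703216))))))) (b (b (a (b (l 16558248) (l 16578512)) (b (l 16574336) (l 16594224))) (a (b (l 16604504) (b (l 16615096) (l 16625800))) (b (l 16614584) (a (l 16631680) (l 16639040))))) (b (a (b (a (l 16638352) (l 16645704)) (a (l 16660272) (l 16667416))) (b (a (l 16652960) (l 16660104)) (a (l 16674456) (l 16681384)))) (a (b (a (b (l 16676760) (l 16687808))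 (l 16689224)) (a (b (l 16698880) (l 16709992)) (b (l 16705640) (l 16716640)))) (b (a (b (l 16690624) (l 16701440)) (b (l 16697384) (l 16708088))) (a (b (l 16712296) (l 16723184)) (b (l 16718832) (l 16732224)))))))), by decide +kernel⟩

def k145_A00pp_022_s3 : ∃ t, chk3 f_A00pp_022_s3 t 18 14 105 = true :=
  ⟨(a (a (a (b (b (b (l 1) (b (l 16535592) (l 16546296))) (b (l 16562608) (l 16584760))) (b (b (l 16607344) (l 16630168)) (b (l 16653104) (b (l 16670384) (l 16681960))))) (b (b (b (b (l 16523112) (l 16533464)) (l 16549264)) (b (l 16570760) (l 16592720))) (b (b (l 16615112) (l 16637744)) (b (l 16660480) (b (l 16677608) (l 16689080)))))) (b (b (b (l 16540880) (l 16561600)) (b (b (l 16577456) (l 16588184)) (b (l 16599024) (l 16609976)))) (b (b (a (l 16622792) (l 16630376)) (a (l 16645224) (l 16652600))) (b (a (l 16673000) (l 16680168)) (a (b (l 16684720) (l 16696096)) (b (l 16691736) (l 16702992))))))) (b (b (a (b (l 16557384) (l 16577744)) (b (l 16573536) (l 16593520))) (a (b (l 16603832) (b (l 16614504)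 (l 16625248))) (b (l 16613976) (a (l 16631152) (l 16638536))))) (b (a (b (a (l 16637864) (l 16645240)) (a (l 16659872) (l 16667048))) (b (a (l 16652520) (l 16659696)) (a (l 16674104) (l 16681064)))) (a (b (a (b (l 16676432) (l 16687520)) (b (l 16683440) (l 16694416))) (a (b (l 16698632) (l 16709784)) (b (l 16705424) (l 16716464)))) (b (a (b (l 16690336) (l 16701200)) (b (l 16697120) (l 16707872))) (a (b (l 16712096) (l 16723016)) (b (l 16718648) (l 16732080)))))))), by decide +kernel⟩

def k146_A00pp_022_s3 : ∃ t, chk3 f_A00pp_022_s3 t 18 14 212 = true :=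
  ⟨(a (a (a (b (b (b (l 1) (b (l 16534888) (l 16545632))) (b (l 16562008) (l 16584232))) (b (b (l 16606888) (l 16629792)) (b (l 16652800) (b (l 16670128) (l 16681744))))) (b (b (b (b (l 16522360) (l 16532752)) (l 16548608)) (b (l 16570176) (l 16592216))) (b (b (l 16614680) (l 16637384)) (b (l 16660192) (b (l 16677368) (l 16688880)))))) (b (b (b (l 16540176) (l 16560976)) (b (b (l 16576888) (l 16587656)) (b (l 16598536) (l 16609520)))) (b (b (a (l 16622384) (l 16629984)) (a (l 16644880) (l 16652280))) (b (a (l 16667488) (l 16679920)) (a (b (l 16684504) (l 16695904)) (b (l 16691536) (l 16702824))))))) (b (b (a (b (l 16556728) (l 16577160)) (b (l 16572936) (l 16592984))) (a (b (l 16598080) (b (l 16614048) (l 16624840))) (b (l 16613512) (a (l 16630752) (l 16638160))))) (b (a (b (a (l 16637488) (l 16644896)) (a (l 16659576) (l 16666768))) (b (a (l 16652192) (l 16659384)) (a (l 16673848) (l 16680816)))) (a (b (a (l 16687000) (l 16688728)) (a (b (l 16698448) (l 16709632)) (b (l 16705256) (l 16716320)))) (b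 (a (b (l 16690128) (l 16701024)) (b (l 16696928) (l 16707712))) (a (b (l 16711944) (l 16722896)) (b (l 16718520) (l 16729352)))))))), by decide +kernel⟩

def k147_A00pp_022_s3 : ∃ t, chk3 f_A00pp_022_s3 t 18 14 213 = true :=
  ⟨(a (a (a (b (b (b (l 1) (b (l 16534424) (l 16545192))) (b (l 16561600) (l 16583880))) (b (b (l 16606592) (l 16629536)) (b (l 16652600) (b (l 16669960) (l 16681600))))) (b (b (b (b (l 16521856) (l 16532272)) (l 16548168)) (b (l 16569784) (l 16591880))) (b (b (l 16614392) (l 16637144)) (b (l 16660000) (b (l 16677216) (l 16688744)))))) (b (b (b (l 16539712) (l 16560552)) (b (b (l 16576504) (l 16587296)) (b (l 16598200) (l 16609216)))) (b (b (a (l 16622112) (l 16629728)) (a (l 16644656) (l 16652072))) (b (a (l 16667312) (l 16679752)) (a (b (l 16684360) (l 16695784)) (b (l 16691400) (l 16702712))))))) (b (b (a (b (l 16556296) (l 16576776)) (b (l 16572528) (l 16592632))) (a (b (l 16597744) (b (l 16613752) (l 16624560))) (b (l 16613208) (a (l 16630480) (l 16637904))))) (b (a (b (a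 (l 16637240) (l 16644664)) (a (l 16659376) (l 16666576))) (b (a (l 16651976) (l 16659184)) (a (l 16673672) (l 16680656)))) (a (b (a (l 16686840) (l 16688584)) (a (b (l 16698328) (l 16709528)) (b (l 16705144) (l 16716232)))) (b (a (b (l 16689984) (l 16700896)) (b (l 16696800) (l 16707600))) (a (b (l 16711840) (l 16722816)) (b (l 16718424) (l 16729280)))))))), by decide +kernel⟩

def k148_A00pp_022_s3 : ∃ t, chk3 f_A00pp_022_s3 t 18 14 107 = true :=
  ⟨(a (a (a (b (b (b (l 1) (b (l 16533720) (l 16544528))) (b (l 16561000) (l 16583352))) (b (b (l 16606136) (l 16629160)) (b (l 16652296) (b (l 16669712) (l 16681376))))) (b (b (b (b (l 16521096) (l 16531552)) (l 16547504)) (b (l 16569200) (l 16591368))) (b (b (l 16613960) (l 16636792)) (b (l 16659720) (b (l 16676976) (l 16688544)))))) (b (b (b (l 16539008) (l 16559928)) (b (b (l 16575936) (l 16586768)) (b (l 16597704) (l 16608760)))) (b (b (a (l 16621696) (l 16629336)) (a (l 16644320) (l 16651752))) (b (a (l 16672280) (l 16679496)) (a (b (l 16684144) (l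 16695600)) (b (l 16691200) (l 16702544))))))) (b (b (a (b (l 16555640) (l 16576192)) (b (l 16571928) (l 16592096))) (a (b (l 16602480) (b (l 16613296) (l 16624144))) (b (l 16612744) (a (l 16630080) (l 16637528))))) (b (a (b (a (l 16636872) (l 16644312)) (a (l 16659072) (l 16666296))) (b (a (l 16651640) (l 16658872)) (a (l 16673408) (l 16680416)))) (a (b (a (b (l 16675768) (l 16686944)) (b (l 16682824) (l 16693888))) (a (b (l 16698144) (l 16709376)) (b (l 16704976) (l 16716096)))) (b (a (b (l 16689768) (l 16700720)) (b (l 16696600) (l 16707432))) (a (b (l 16711688) (l 16722696)) (b (l 16718288) (l 16731792)))))))), by decide +kernel⟩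

def k149_A00pp_022_s3 : ∃ t, chk3 f_A00pp_022_s3 t 18 14 108 = true :=
  ⟨(a (a (a (b (b (b (l 1) (b (l 16532776) (l 16543640))) (b (l 16560184) (l 16582640))) (b (b (l 16605536) (l 16628656)) (b (l 16651888) (b (l 16669376) (l 16681088))))) (b (b (b (b (l 16520080) (l 16530584)) (l 16546616)) (b (l 16568416) (l 16590688))) (b (b (l 16613384) (l 16636312)) (b (l 16659336) (b (l 16676664) (l 16688272)))))) (b (b (b (l 16538064) (l 16559088)) (b (b (l 16575168) (l 16586048)) (b (l 16597048) (l 16608144)))) (b (b (a (l 16621144) (l 16628808)) (a (l 16643864) (l 16651320))) (b (a (l 16671920) (l 16679160)) (a (b (l 16683848) (l 16695352)) (b (l 16690928) (l 16702312))))))) (b (b (a (b (l 16554760) (l 16575416)) (b (l 16571112) (l 16591384))) (a (b (l 16601800) (b (l 16612688) (l 16623584))) (b (l 16612128) (a (l 16629544) (l 16637016))))) (b (a (b (a (l 16636376) (l 16643840)) (a (l 16658672) (l 16665920))) (b (a (l 16651200) (l 16658456)) (a (l 16673056) (l 16680088)))) (a (b (a (b (l 16675432) (l 16686648))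 (b (l 16682512) (l 16693616))) (a (b (l 16697896) (l 16709168)) (b (l 16704752) (l 16715904)))) (b (a (b (l 16689488) (l 16700472)) (b (l 16696344) (l 16707216))) (a (b (l 16711488) (l 16722528)) (b (l 16718112) (l 16731656)))))))), by decide +kernel⟩

def k150_A00pp_022_s3 : ∃ t, chk3 f_A00pp_022_s3 t 18 14 109 = true :=
  ⟨(a (a (b (b (a (b (l 1) (b (l 16531832) (l 16542744))) (b (b (l 16519064) (l 16529624)) (l 16545728))) (a (b (l 16559368) (l 16581936)) (b (l 16567632) (l 16590008)))) (b (b (b (l 16603104) (l 16614640)) (a (l 16628152) (l 16635832))) (b (a (l 16651480) (l 16664192)) (a (b (l 16669032) (l 16680792)) (b (l 16676352) (l 16688000)))))) (b (b (b (l 16537120) (l 16558240)) (b (b (l 16574400) (l 16585336)) (b (l 16596376) (l 16607528)))) (b (b (a (l 16620592) (l 16628280)) (a (l 16643408) (l 16650888))) (b (a (l 16671560) (l 16678824)) (a (b (l 16683560) (l 16695096)) (b (l 16690656) (l 16702088))))))) (b (b (a (b (l 16553880) (l 16574632)) (b (l 16570296) (l 16590664))) (a (b (l 16601112)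 (b (l 16612080) (l 16623024))) (b (l 16611504) (a (l 16629000) (l 16636504))))) (b (a (b (a (l 16635872) (l 16643368)) (a (l 16658272) (l 16665544))) (b (a (l 16650752) (l 16658040)) (a (l 16672704) (l 16679760)))) (a (b (a (b (l 16675096) (l 16686360)) (b (l 16682208) (l 16693352))) (a (b (l 16697648) (l 16708960)) (b (l 16704520) (l 16715720)))) (b (a (b (l 16689200) (l 16700232)) (b (l 16696080) (l 16706992))) (a (b (l 16711280) (l 16722368)) (b (l 16717928) (l 16731512)))))))), by decide +kernel⟩

def k151_A00pp_022_s3 : ∃ t, chk3 f_A00pp_022_s3 t 18 14 110 = true :=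
  ⟨(a (a (b (b (a (b (l 1) (b (l 16530880) (l 16541848))) (b (b (l 16518040) (l 16528648)) (l 16544832))) (a (b (l 16558552) (l 16581216)) (b (l 16566840) (l 16589320)))) (b (b (b (l 16602488) (l 16614064)) (a (l 16627648) (l 16635344))) (b (a (l 16651072) (l 16663808)) (a (b (l 16668696) (l 16680496)) (b (l 16676032) (l 16687728)))))) (b (b (b (l 16536168) (l 16557392)) (b (b (l 16573632) (l 16584616)) (b (l 16595712) (l 16606912)))) (b (b (a (l 16620032) (l 16627752)) (a (l 16642952) (l 16650456))) (b (a (l 16671200) (l 16678488)) (a (b (l 16683264) (l 16694848)) (b (l 16690384) (l 16701856))))))) (b (b (a (b (l 16552992) (l 16573848)) (b (l 16569480) (l 16589944))) (a (b (l 16600432) (b (l 16611472) (l 16622464))) (b (l 16610880) (a (l 16628464) (l 16635992))))) (b (a (b (a (l 16635376) (l 16642896)) (a (l 16657864) (l 16665160))) (b (a (l 16650312) (l 16657616)) (a (l 16672352) (l 16679432)))) (a (b (a (b (l 16674760) (l 16686064)) (b (l 16681896) (l 16693080))) (a (b (l 16697400) (l 16708752))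 (b (l 16704296) (l 16715536)))) (b (a (b (l 16688912) (l 16699984)) (b (l 16695816) (l 16706768))) (a (b (l 16711080) (l 16722200)) (b (l 16717744) (l 16731360)))))))), by decide +kernel⟩

def k152_A00pp_022_s3 : ∃ t, chk3 f_A00pp_022_s3 t 18 14 111 = true :=
  ⟨(a (b (b (a (a (b (l 1) (b (l 16529928) (l 16540944))) (b (b (l 16517016) (l 16527672)) (l 16543936))) (b (l 16535216) (l 16556536))) (c (b (a (a (l 16557936) (l 16566248)) (b (l 16573048) (l 16584072))) (a (a (l 16580680) (l 16588800)) (b (l 16595208) (l 16606440)))) (b (a (a (l 16557520) (l 16565848)) (b (l 16572664) (l 16583712))) (a (a (l 16580320) (l 16588456)) (b (l 16594864) (l 16606136)))))) (b (a (b (b (l 16601864) (l 16613496)) (a (l 16627136) (l 16634864))) (b (a (l 16619472) (l 16627224)) (a (l 16642496) (l 16650024)))) (a (b (a (l 16650656) (l 16663416)) (a (b (l 16668352) (l 16680200)) (b (l 16675712) (l 16687456)))) (b (a (l 16670832) (l 16678152)) (a (b (l 16682968) (l 16694600)) (b (l 16690112) (l 16701624))))))) (b (b (a (b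 (l 16552104) (l 16573056)) (b (l 16568656) (l 16589216))) (a (b (l 16599744) (a (l 16612488) (l 16620248))) (b (l 16610256) (a (l 16627920) (l 16635480))))) (b (a (b (a (l 16634872) (l 16642416)) (a (l 16657456) (l 16664776))) (b (a (l 16649856) (l 16657200)) (a (l 16671992) (l 16679104)))) (a (b (a (b (l 16674424) (l 16685776)) (b (l 16681576) (l 16692808))) (a (b (l 16697144) (l 16708544)) (b (l 16704064) (l 16715352)))) (a (b (b (l 16688624) (l 16699736)) (b (l 16710872) (l 16722032))) (b (b (l 16695552) (l 16706544)) (b (l 16717560) (l 16731216)))))))), by decide +kernel⟩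

def k153_A00pp_022_s3 : ∃ t, chk3 f_A00pp_022_s3 t 18 14 112 = true :=
  ⟨(a (b (b (a (a (b (l 1) (b (l 16528968) (l 16540040))) (b (b (l 16515984) (l 16526696)) (l 16543032))) (b (l 16534256) (l 16555680))) (c (b (a (a (l 16557112) (l 16565448)) (b (l 16572272) (l 16583344))) (a (a (l 16579960) (l 16588112)) (b (l 16594528) (l 16605824)))) (b (a (a (l 16556696) (l 16565048)) (b (l 16571880) (l 16582984))) (a (a (l 16579600) (l 16587768)) (b (l 16594192) (l 16605504)))))) (b (a (b (b (l 16601232) (l 16612920)) (a (l 16626624) (l 16634376))) (b (a (l 16618912) (l 16626688)) (a (l 16642032) (l 16649592)))) (a (b (a (l 16650240) (l 16663032)) (a (b (l 16668016) (l 16679904)) (b (l 16675392) (l 16687176)))) (b (a (l 16670472) (l 16677808)) (a (b (l 16682672) (l 16694344)) (b (l 16689840) (l 16701400))))))) (b (b (a (b (l 16551216) (l 16572264)) (b (l 16567832) (l 16588488))) (a (b (a (l 16589792) (l 16597792)) (a (l 16611880) (l 16619672))) (b (l 16609624) (a (l 16627368) (l 16634960))))) (b (a (b (a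 (l 16634360) (l 16641936)) (a (l 16657048) (l 16664392))) (b (a (l 16649408) (l 16656776)) (a (l 16671640) (l 16678768)))) (a (b (a (b (l 16674088) (l 16685480)) (b (l 16681264) (l 16692544))) (a (b (l 16696896) (l 16708336)) (b (l 16703840) (l 16715160)))) (a (b (b (l 16688328) (l 16699488)) (b (l 16710664) (l 16721864))) (b (b (l 16695280) (l 16706320)) (b (l 16717376) (l 16731072)))))))), by decide +kernel⟩

def k154_A00pp_022_s3 : ∃ t, chk3 f_A00pp_022_s3 t 18 14 113 = true :=
  ⟨(a (b (b (a (a (b (l 1) (b (l 16528008) (l 16539136))) (b (b (l 16514952) (l 16525712)) (l 16542128))) (b (l 16533296) (l 16554824))) (c (b (a (a (l 16556280) (l 16564648)) (b (l 16571488) (l 16582616))) (a (a (l 16579240) (l 16587416)) (b (l 16593856) (l 16605192)))) (b (a (a (l 16555864) (l 16564248)) (b (l 16571096) (l 16582248))) (a (a (l 16578880) (l 16587072)) (b (l 16593512) (l 16604880)))))) (b (a (b (b (l 16600600) (l 16612344)) (a (l 16626112) (l 16633888))) (b (a (l 16618352) (l 16626152)) (a (l 16641568) (l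 16649152)))) (a (b (a (l 16649832) (l 16662640)) (a (b (l 16667672) (l 16679608)) (b (l 16675072) (l 16686904)))) (b (a (l 16670104) (l 16677464)) (a (b (l 16682376) (l 16694088)) (b (l 16689560) (l 16701168))))))) (b (b (a (b (l 16550312) (l 16571464)) (b (l 16567000) (l 16587760))) (a (b (a (l 16589080) (l 16597120)) (a (l 16611272) (l 16619096))) (b (l 16608992) (a (l 16626824) (l 16634440))))) (b (a (b (a (l 16633856) (l 16641456)) (a (l 16656632) (l 16664008))) (b (a (l 16648960) (l 16656352)) (a (l 16671280) (l 16678440)))) (a (b (a (l 16679472) (b (l 16680944) (l 16692272))) (a (b (l 16696640) (l 16708128)) (b (l 16703608) (l 16714968)))) (a (b (b (l 16688040) (l 16699240)) (b (l 16710456) (l 16721696))) (b (b (l 16695016) (l 16706096)) (b (l 16717192) (l 16730928)))))))), by decide +kernel⟩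

def k155_A00pp_022_s3 : ∃ t, chk3 f_A00pp_022_s3 t 18 14 114 = true :=
  ⟨(a (b (b (a (a (b (l 1) (b (l 16527048) (l 16538224))) (b (b (l 16513912) (l 16524728)) (l 16541216))) (b (l 16532328) (l 16553960))) (c (b (a (a (l 16555448) (l 16563848)) (b (l 16570704) (l 16581888))) (a (a (l 16578520) (l 16586720)) (b (l 16593176) (l 16604568)))) (b (a (a (l 16555032) (l 16563448)) (b (l 16570312) (l 16581520))) (a (a (l 16578152) (l 16586376)) (b (l 16592832) (l 16604248)))))) (b (a (b (b (l 16599968) (l 16611760)) (a (l 16625592) (l 16633400))) (b (a (l 16617784) (l 16625616)) (a (l 16641104) (l 16648712)))) (a (b (a (l 16649416) (l 16662248)) (a (b (l 16667328) (l 16679312)) (b (l 16674752) (l 16686624)))) (b (a (l 16669736) (b (l 16666064) (l 16677664))) (a (b (l 16682072) (l 16693832)) (b (l 16689288) (l 16700928))))))) (b (b (a (b (l 16549416) (l 16570672)) (b (l 16566168) (l 16587024))) (a (b (a (l 16588368) (l 16596432)) (a (l 16610664) (l 16618512))) (b (l 16613600) (a (l 16626272) (l 16633920)))))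 (b (a (b (a (l 16633344) (l 16640976)) (a (l 16656224) (l 16663624))) (b (a (l 16648504) (l 16655928)) (a (l 16670920) (l 16678104)))) (a (b (a (l 16679160) (b (l 16680632) (l 16691992))) (a (b (l 16696392) (l 16707912)) (b (l 16703376) (l 16714784)))) (a (b (b (l 16687744) (l 16698992)) (b (l 16710248) (l 16721528))) (b (b (l 16694744) (l 16705872)) (b (l 16717008) (l 16730776)))))))), by decide +kernel⟩

def k156_A00pp_022_s3 : ∃ t, chk3 f_A00pp_022_s3 t 18 14 115 = true :=
  ⟨(a (b (b (a (a (b (l 1) (b (l 16526080) (l 16537304))) (b (b (l 16512872) (l 16523736)) (l 16540304))) (b (l 16531360) (l 16553096))) (c (b (a (a (l 16554616) (l 16563040)) (b (l 16569920) (l 16581152))) (a (a (l 16577792) (l 16586024)) (b (l 16592488) (l 16603936)))) (b (a (a (l 16554200) (l 16562640)) (b (l 16569528) (l 16580784))) (a (a (l 16577424) (l 16585672)) (b (l 16592152) (l 16603624)))))) (b (a (b (b (l 16599336) (l 16611176)) (a (l 16625080) (l 16632904))) (b (a (l 16617216) (l 16625072)) (a (l 16640640) (l 16648272))))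 (a (b (a (l 16654240) (l 16661856)) (a (b (l 16666976) (l 16679008)) (b (l 16674432) (l 16686352)))) (b (a (l 16669368) (b (l 16665696) (l 16677344))) (a (b (l 16681776) (l 16693576)) (b (l 16689008) (l 16700696))))))) (b (b (a (b (l 16548512) (l 16569864)) (b (l 16565336) (l 16586288))) (a (b (a (l 16587656) (l 16595752)) (a (l 16610048) (l 16617928))) (b (l 16612960) (a (l 16625712) (l 16633400))))) (b (a (b (a (l 16632832) (l 16640488)) (a (l 16655808) (l 16663232))) (b (a (l 16648048) (l 16655496)) (a (l 16670560) (l 16677768)))) (a (b (a (l 16678832) (b (l 16680312) (l 16691720))) (a (b (l 16696136) (l 16707704)) (b (l 16703144) (l 16714592)))) (a (b (b (l 16687448) (l 16698736)) (b (l 16710040) (l 16721360))) (b (b (l 16694480) (l 16705640)) (b (l 16716816) (l 16730632)))))))), by decide +kernel⟩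

def k157_A00pp_022_s3 : ∃ t, chk3 f_A00pp_022_s3 t 18 14 116 = true :=
  ⟨(a (b (b (a (a (b (l 1) (b (l 16525104) (l 16536384))) (b (b (l 16511824) (l 16522736)) (l 16539392))) (b (l 16530384) (l 16552224))) (c (b (a (a (l 16553776) (l 16562232)) (b (l 16569128) (l 16580416))) (a (a (l 16577064) (l 16585320)) (b (l 16591808) (l 16603304)))) (b (a (a (l 16553360) (l 16561832)) (b (l 16568736) (l 16580040))) (a (a (l 16576696) (l 16584968)) (b (l 16591464) (l 16602984)))))) (b (a (b (b (l 16598696) (l 16610592)) (a (l 16624560) (l 16632408))) (b (a (l 16616648) (l 16624528)) (a (l 16640168) (l 16647832)))) (a (b (a (l 16653816) (l 16661456)) (a (b (l 16666632) (l 16678712)) (b (l 16674104) (l 16686072)))) (b (a (l 16668992) (b (l 16665328) (l 16677024))) (a (b (l 16681472) (l 16693320)) (b (l 16688728) (l 16700464))))))) (b (b (a (b (l 16547600) (l 16569056)) (b (l 16564496) (l 16585552))) (a (b (a (l 16586936) (l 16595064)) (a (l 16609432) (l 16617344))) (b (l 16612320) (a (l 16625160) (l 16632872)))))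 (b (a (b (a (l 16632320) (l 16640008)) (a (l 16655392) (l 16662848))) (b (a (l 16647592) (l 16655064)) (a (l 16670192) (l 16677432)))) (a (b (a (l 16678512) (b (l 16679992) (l 16691448))) (a (b (l 16695880) (l 16707488)) (b (l 16702912) (l 16714400)))) (a (b (b (l 16687152) (l 16698488)) (b (l 16709832) (l 16721192))) (b (b (l 16694208) (l 16705416)) (b (l 16716632) (l 16730480)))))))), by decide +kernel⟩

def k158_A00pp_022_s3 : ∃ t, chk3 f_A00pp_022_s3 t 18 14 117 = true :=
  ⟨(a (b (b (a (a (b (l 1) (b (l 16524128) (l 16535464))) (b (b (l 16510776) (l 16521744)) (l 16538472))) (b (l 16529408) (l 16551352))) (c (b (a (a (l 16552936) (l 16561424)) (b (l 16568336) (l 16579672))) (a (a (l 16576328) (l 16584616)) (b (l 16591120) (l 16602664)))) (b (a (a (l 16552520) (l 16561016)) (b (l 16567936) (l 16579304))) (a (a (l 16575960) (l 16584264)) (b (l 16590776) (l 16602352)))))) (b (a (b (b (l 16598064) (l 16610008)) (a (l 16624032) (l 16631912))) (b (a (l 16616080) (l 16623984)) (a (l 16639704) (l 16647384))))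 (a (b (a (l 16642912) (l 16661064)) (a (b (l 16666280) (l 16678408)) (b (l 16673776) (l 16685792)))) (b (a (l 16668624) (b (l 16664952) (l 16676696))) (a (b (l 16681168) (l 16693064)) (b (l 16688456) (l 16700224))))))) (b (b (a (b (l 16546688) (l 16568248)) (b (l 16563648) (l 16584808))) (a (b (a (l 16586216) (l 16594368)) (a (l 16608816) (l 16616752))) (b (l 16611680) (a (l 16624600) (l 16632344))))) (b (a (b (a (l 16631800) (l 16639512)) (a (l 16654976) (l 16662456))) (b (a (l 16647128) (l 16654632)) (a (l 16669832) (l 16677088)))) (a (b (a (l 16678192) (b (l 16679672) (l 16691168))) (a (b (l 16695624) (l 16707280)) (b (l 16702680) (l 16714208)))) (a (b (b (l 16686856) (l 16698232)) (b (l 16709624) (l 16721024))) (b (b (l 16693936) (l 16705184)) (b (l 16716440) (a (l 16726048) (l 16729368))))))))), by decide +kernel⟩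

def k159_A00pp_022_s3 : ∃ t, chk3 f_A00pp_022_s3 t 18 14 118 = true :=
  ⟨(a (b (b (a (a (b (l 1) (b (l 16523152) (l 16534536))) (b (b (l 16509720) (l 16520736)) (l 16537552))) (b (l 16528424) (l 16550480))) (c (b (a (a (l 16552096) (l 16560608)) (b (l 16567544) (l 16578928))) (a (a (l 16575592) (l 16583912)) (b (l 16590424) (l 16602032)))) (b (a (a (l 16551672) (l 16560200)) (b (l 16567144) (l 16578552))) (a (a (l 16575224) (l 16583552)) (b (l 16590080) (l 16601712)))))) (b (a (b (b (l 16597416) (l 16609416)) (a (l 16623512) (l 16631416))) (b (a (l 16615504) (l 16623440)) (a (l 16639232) (l 16646944)))) (a (b (a (l 16642488) (l 16660664)) (a (b (l 16665936) (l 16678104)) (b (l 16673456) (l 16685512)))) (b (a (l 16668248) (b (l 16664584) (l 16676368))) (a (b (l 16680864) (l 16692808)) (b (l 16688168) (l 16699992))))))) (b (b (a (b (l 16545776) (l 16567440)) (b (l 16562800) (l 16584056))) (a (b (a (l 16585488) (l 16593680)) (a (l 16608192) (l 16616168))) (b (l 16611032) (a (l 16624040) (l 16631816)))))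 (b (a (b (a (l 16631280) (l 16639024)) (a (l 16654552) (l 16662064))) (b (a (l 16646664) (l 16654200)) (a (l 16669464) (l 16676752)))) (a (b (a (l 16677864) (b (l 16679344) (l 16690888))) (a (b (l 16695368) (l 16707064)) (b (l 16702448) (l 16714016)))) (a (b (b (l 16686560) (l 16697976)) (b (l 16709408) (l 16720848))) (b (b (l 16693664) (l 16704952)) (b (l 16716256) (a (l 16725896) (l 16729224))))))))), by decide +kernel⟩

def k160_A00pp_022_s3 : ∃ t, chk3 f_A00pp_022_s3 t 18 14 119 = true :=
  ⟨(a (b (b (a (a (b (l 1) (b (l 16522168) (l 16533608))) (b (b (l 16508656) (l 16519728)) (l 16536624))) (b (l 16527440) (l 16549600))) (c (b (a (a (l 16551248) (l 16559792)) (b (l 16566744) (l 16578184))) (a (a (l 16574856) (l 16583200)) (b (l 16589736) (l 16601392)))) (b (a (a (l 16550824) (l 16559384)) (b (l 16566336) (l 16577808))) (a (a (l 16574480) (l 16582840)) (b (l 16589384) (l 16601064)))))) (b (a (b (b (l 16596776) (l 16608824)) (a (l 16622984) (l 16630920))) (b (a (l 16614928) (l 16622888)) (a (l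 16638752) (l 16646496)))) (a (b (a (b (l 16641208) (l 16653384)) (l 16660264)) (a (b (l 16665584) (l 16677800)) (b (l 16673128) (l 16685232)))) (b (a (l 16667872) (b (l 16664208) (l 16676040))) (a (b (l 16680560) (l 16692544)) (b (l 16687888) (l 16699752))))))) (b (b (a (b (l 16544856) (l 16566624)) (b (l 16561952) (l 16583312))) (a (b (a (l 16584760) (l 16592984)) (a (l 16607568) (l 16615568))) (b (l 16610384) (a (l 16623472) (l 16631280))))) (b (a (b (a (l 16630760) (l 16638536)) (a (l 16654136) (l 16661664))) (b (a (l 16646200) (l 16653768)) (a (l 16669096) (l 16676408)))) (a (b (a (l 16677536) (b (l 16679024) (l 16690608))) (a (b (l 16695104) (l 16706848)) (b (l 16702208) (l 16713824)))) (a (b (b (l 16686264) (l 16697728)) (b (l 16709200) (l 16720680))) (b (b (l 16693384) (l 16704720)) (b (l 16716064) (a (l 16725744) (l 16729080))))))))), by decide +kernel⟩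

def k161_A00pp_022_s3 : ∃ t, chk3 f_A00pp_022_s3 t 18 14 120 = true :=
  ⟨(a (b (b (a (a (b (l 1) (b (l 16521176) (l 16532672))) (b (b (l 16507592) (l 16518720)) (l 16535696))) (b (l 16526456) (l 16548712))) (c (b (a (a (l 16550400) (l 16558968)) (b (l 16565936) (l 16577432))) (a (a (l 16574112) (l 16582488)) (b (l 16589040) (l 16600744)))) (b (a (a (l 16549968) (l 16558560)) (b (l 16565536) (l 16577056))) (a (a (l 16573744) (l 16582128)) (b (l 16588688) (l 16600424)))))) (b (a (b (b (l 16596128) (l 16608232)) (a (l 16622456) (l 16630416))) (b (a (l 16614344) (l 16622344)) (a (l 16638280) (l 16646048)))) (a (b (a (b (l 16640752) (l 16652984)) (l 16659864)) (a (b (l 16665232) (l 16677496)) (b (l 16672792) (l 16684944)))) (b (a (l 16667496) (b (l 16663832) (l 16675712))) (a (b (l 16680256) (l 16692288)) (b (l 16687608) (l 16699512))))))) (b (b (a (b (l 16543936) (l 16565800)) (b (l 16561096) (l 16582560))) (a (b (a (l 16584032) (l 16592280)) (a (l 16606944) (l 16614976))) (b (l 16609736) (a (l 16622912)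 (l 16630744))))) (b (a (b (a (l 16630240) (l 16638040)) (a (l 16653712) (l 16661272))) (b (a (l 16645736) (l 16653328)) (a (l 16668728) (l 16676064)))) (a (b (b (a (l 16671320) (l 16678696)) (a (l 16683080) (l 16690328))) (a (b (l 16694848) (l 16706632)) (b (l 16701976) (l 16713632)))) (a (b (b (l 16685960) (l 16697472)) (b (l 16708984) (l 16720504))) (b (b (l 16693112) (l 16704488)) (b (l 16715872) (a (l 16725584) (l 16728928))))))))), by decide +kernel⟩

def k162_A00pp_022_s3 : ∃ t, chk3 f_A00pp_022_s3 t 18 14 121 = true :=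
  ⟨(a (b (b (a (a (b (l 1) (b (l 16520184) (l 16531736))) (b (b (l 16506528) (l 16517704)) (l 16534760))) (b (l 16525456) (l 16547824))) (c (b (a (a (l 16549544) (l 16558144)) (b (l 16565136) (l 16576680))) (a (a (l 16573368) (l 16581768)) (b (l 16588336) (l 16600104)))) (b (a (a (l 16549112) (l 16557728)) (l 16575760)) (a (a (l 16572992) (l 16581408)) (b (l 16587992) (l 16599776)))))) (b (a (b (b (l 16595480) (l 16607640)) (a (l 16621928) (l 16629912))) (b (a (l 16613768) (l 16621784)) (a (l 16637800) (l 16645592)))) (a (b (a (b (l 16640304) (l 16652584)) (l 16659456)) (a (b (l 16664880) (l 16677192)) (b (l 16672464) (l 16684664)))) (b (a (l 16667120) (b (l 16663456) (l 16675384))) (a (b (l 16679952) (l 16692024)) (b (l 16687320) (l 16699280))))))) (b (b (a (b (l 16543008) (l 16564984)) (b (l 16560240) (l 16581800))) (a (b (a (l 16583296) (l 16591584)) (a (l 16606320) (l 16614376))) (b (l 16609080) (a (l 16622344) (l 16630208))))) (b (a (b (a (l 16629712) (l 16637544)) (a (l 16653288) (l 16660872)))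 (b (a (l 16645272) (l 16652888)) (a (l 16668352) (l 16675720)))) (a (b (b (a (l 16670968) (l 16678368)) (a (l 16682776) (l 16690048))) (a (b (l 16694584) (l 16706416)) (b (l 16701736) (l 16713432)))) (a (b (b (l 16685656) (l 16697208)) (b (l 16708768) (l 16720336))) (b (b (l 16692832) (l 16704256)) (b (l 16715680) (a (l 16725424) (l 16728784))))))))), by decide +kernel⟩

def k163_A00pp_022_s3 : ∃ t, chk3 f_A00pp_022_s3 t 18 14 122 = true :=
  ⟨(a (b (b (a (a (b (l 1) (b (l 16519192) (l 16530800))) (b (a (l 16508824) (l 16513312)) (l 16533824))) (b (l 16524464) (l 16546936))) (c (b (a (a (l 16548688) (l 16557320)) (l 16575368)) (a (a (l 16572624) (l 16581048)) (b (l 16587640) (l 16599456)))) (c (b (a (a (l 16548368) (l 16557008)) (l 16575072)) (a (a (l 16572344) (l 16580784)) (b (l 16587376) (l 16599208)))) (b (a (a (l 16548152) (l 16556800)) (l 16574872)) (a (a (l 16572152) (l 16580600)) (b (l 16587200) (l 16599048))))))) (b (a (b (b (l 16594824) (l 16607040)) (a (l 16621400) (l 16629408))) (b (a (l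 16613184) (l 16621232)) (a (l 16637320) (l 16645144)))) (a (b (a (b (l 16639848) (l 16652176)) (l 16659056)) (a (b (l 16664520) (l 16676880)) (b (l 16672136) (l 16684376)))) (b (a (l 16666736) (b (l 16663072) (l 16675056))) (a (b (l 16679640) (l 16691760)) (b (l 16687040) (l 16699032))))))) (b (b (a (b (l 16542072) (l 16564152)) (b (l 16559376) (l 16581040))) (a (b (a (l 16582560) (l 16590880)) (a (l 16605688) (l 16613776))) (b (l 16608424) (a (l 16621776) (l 16629664))))) (b (a (b (a (l 16629184) (l 16637048)) (a (l 16652856) (l 16660472))) (b (a (l 16644800) (l 16652448)) (a (l 16667984) (l 16675376)))) (a (b (b (a (l 16670616) (l 16678040)) (a (l 16682464) (l 16689768))) (a (b (l 16694328) (l 16706192)) (b (l 16701496) (l 16713240)))) (a (b (b (l 16685360) (l 16696952)) (b (l 16708552) (l 16720160))) (b (b (l 16692560) (l 16704024)) (b (l 16715488) (a (l 16725272) (l 16728640))))))))), by decide +kernel⟩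

def k164_A00pp_022_s3 : ∃ t, chk3 f_A00pp_022_s3 t 18 14 123 = true :=
  ⟨(a (b (b (a (a (b (l 1) (a (l 16521800) (l 16526248))) (b (a (l 16507768) (l 16512272)) (l 16532880))) (b (l 16523464) (l 16546040))) (c (c (b (a (a (l 16547936) (l 16556592)) (l 16574680)) (a (a (l 16571968) (l 16580424)) (b (l 16587024) (l 16598880)))) (a (a (b (l 16547720) (l 16571776)) (b (l 16556384) (l 16580240))) (b (l 16574480) (b (l 16586848) (l 16598720))))) (c (a (a (b (l 16547504) (l 16571592)) (b (l 16556176) (l 16580056))) (b (l 16574288) (b (l 16586664) (l 16598560)))) (a (a (b (l 16547288) (l 16571400)) (b (l 16555968) (l 16579880))) (b (l 16574088) (b (l 16586488) (l 16598392))))))) (b (a (b (b (l 16594168) (l 16606440)) (a (l 16620864) (l 16628896))) (b (a (l 16612600) (l 16620672)) (a (l 16636840) (l 16644688)))) (a (b (a (b (l 16639392) (l 16651776)) (l 16658648)) (a (b (l 16664168) (l 16676576)) (b (l 16671800) (l 16684088)))) (b (a (l 16666360) (b (l 16662696) (l 16674720))) (a (b (l 16679328) (l 16691496))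 (b (l 16686752) (l 16698792))))))) (b (b (a (b (l 16541144) (l 16563328)) (b (l 16558512) (l 16580280))) (a (b (a (l 16581824) (l 16590168)) (a (l 16605048) (l 16613176))) (b (l 16607760) (a (l 16621200) (l 16629128))))) (b (a (b (a (l 16628656) (l 16636544)) (a (l 16652432) (l 16660072))) (b (a (l 16644328) (l 16652008)) (a (l 16667608) (l 16675032)))) (a (b (b (a (l 16670256) (l 16677712)) (a (l 16682160) (l 16689480))) (a (b (l 16694064) (l 16705976)) (b (l 16701256) (l 16713040)))) (a (b (b (l 16685056) (l 16696696)) (b (l 16708336) (l 16719984))) (b (b (l 16692280) (l 16703784)) (b (l 16715296) (a (l 16725112) (l 16728488))))))))), by decide +kernel⟩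

def k165_A00pp_022_s3 : ∃ t, chk3 f_A00pp_022_s3 t 18 14 124 = true :=
  ⟨(a (b (b (a (a (b (l 1) (a (l 16520816) (l 16525280))) (b (a (l 16506704) (l 16511224)) (l 16531936))) (b (l 16522456) (l 16545144))) (c (c (a (a (b (l 16547072) (l 16571216)) (b (l 16555760) (l 16579696))) (b (l 16573888) (b (l 16586312) (l 16598232)))) (a (a (b (l 16546856) (l 16571024)) (b (l 16555552) (l 16579512))) (b (l 16573696) (b (l 16586136) (l 16598064))))) (c (a (a (b (l 16546640) (l 16570832)) (b (l 16555336) (l 16579336))) (b (l 16573496) (b (l 16585960) (l 16597904)))) (a (a (b (l 16546424) (l 16570648)) (b (l 16555128) (l 16579152))) (b (l 16573296) (b (l 16585784) (l 16597736))))))) (b (a (b (b (l 16593512) (l 16605840)) (a (l 16620328) (l 16628392))) (b (a (l 16612008) (l 16620112)) (a (l 16636360) (l 16644232)))) (a (b (a (l 16650408) (l 16658240)) (a (b (l 16663808) (l 16676264)) (b (l 16671464) (l 16683800)))) (b (a (l 16665976) (b (l 16662312) (l 16674384))) (a (b (l 16679024) (l 16691232)) (b (l 16686464)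 (l 16698552))))))) (b (b (a (b (l 16540200) (l 16562496)) (b (l 16557648) (l 16579512))) (a (b (a (l 16581080) (l 16589456)) (a (l 16604416) (l 16612568))) (b (a (l 16597744) (l 16605944)) (a (l 16620624) (l 16628584))))) (b (a (b (a (l 16628128) (l 16636040)) (a (l 16652000) (l 16659672))) (b (a (l 16643856) (l 16651560)) (a (l 16667232) (l 16674680)))) (a (b (b (a (l 16669904) (l 16677384)) (a (l 16681848) (l 16689200))) (a (b (l 16693800) (l 16705760)) (b (l 16701016) (l 16712848)))) (a (b (b (l 16684744) (l 16696432)) (b (l 16708120) (l 16719808))) (b (b (l 16692000) (l 16703552)) (b (l 16715104) (a (l 16724952) (l 16728344))))))))), by decide +kernel⟩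

def k166_A00pp_022_s3 : ∃ t, chk3 f_A00pp_022_s3 t 18 14 125 = true :=
  ⟨(a (b (b (a (a (b (l 1) (a (l 16519832) (l 16524304))) (b (a (l 16505640) (l 16510176)) (l 16530992))) (b (l 16521448) (l 16544240))) (c (c (a (a (b (l 16546208) (l 16570456)) (b (l 16554920) (l 16578968))) (b (l 16573096) (b (l 16585608) (l 16597576)))) (a (a (b (l 16545992) (l 16570272)) (b (l 16554712) (l 16578792))) (b (l 16572904) (b (l 16585424) (l 16597408))))) (c (a (a (b (l 16545768) (l 16570080)) (b (l 16554504) (l 16578608))) (b (l 16572704) (b (l 16585248) (l 16597248)))) (a (a (b (l 16545552) (l 16569888)) (b (l 16554288) (l 16578424))) (b (l 16572504) (b (l 16585072) (l 16597080))))))) (b (a (b (b (l 16592856) (l 16605232)) (a (l 16619792) (l 16627880))) (b (a (l 16611416) (l 16619552)) (a (l 16635872) (l 16643776)))) (a (b (a (l 16649976) (l 16657832)) (a (b (l 16663448) (l 16675952)) (b (l 16671128) (l 16683512)))) (b (a (l 16665592) (b (l 16661928) (l 16674048))) (a (b (l 16678712) (l 16690968)) (b (l 16686176)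 (l 16698312))))))) (b (b (a (b (l 16539264) (l 16561656)) (b (l 16556776) (l 16578744))) (a (b (a (l 16580336) (l 16588744)) (a (l 16603776) (l 16611960))) (b (a (l 16597064) (l 16605296)) (a (l 16620048) (l 16628032))))) (b (a (b (a (l 16627592) (l 16635536)) (a (l 16651568) (l 16659264))) (b (a (l 16643376) (l 16651120)) (a (l 16666856) (l 16674328)))) (a (b (b (a (l 16669544) (l 16677048)) (a (l 16681536) (l 16688912))) (a (b (l 16693536) (l 16705536)) (b (l 16700776) (l 16712648)))) (a (b (b (l 16684440) (l 16696176)) (b (l 16707904) (l 16719632))) (b (b (l 16691720) (l 16703312)) (b (l 16714904) (a (l 16724792) (l 16728192))))))))), by decide +kernel⟩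

def k167_A00pp_022_s3 : ∃ t, chk3 f_A00pp_022_s3 t 18 14 126 = true :=
  ⟨(a (b (b (a (a (b (l 1) (a (l 16518840) (l 16523328))) (b (a (l 16504568) (l 16509120)) (l 16530040))) (b (l 16520432) (l 16543336))) (c (c (a (a (b (l 16545336) (l 16569704)) (b (l 16554080) (l 16578240))) (b (l 16572304) (b (l 16584896) (l 16596920)))) (a (a (b (l 16545120) (l 16569512)) (b (l 16553872) (l 16578056))) (b (l 16572104) (b (l 16584712) (l 16596752))))) (a (b (a (l 16544792) (l 16553552)) (a (l 16569224) (l 16577784))) (b (l 16571808) (b (l 16584448) (l 16596504)))))) (b (a (b (b (l 16592192) (l 16604624)) (a (l 16619248) (l 16627368))) (b (a (l 16610824) (l 16618992)) (a (l 16635384) (l 16643312)))) (a (b (a (l 16649536) (l 16657424)) (a (b (l 16663088) (l 16675640)) (b (l 16670792) (l 16683224)))) (b (a (l 16665208) (b (l 16661544) (l 16673712))) (a (b (l 16678392) (l 16690704)) (b (l 16685888) (l 16698064))))))) (b (b (a (b (l 16538312) (l 16560816)) (b (l 16555896) (l 16577976))) (a (b (a (l 16579584) (l 16588032))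 (a (l 16603136) (l 16611352))) (b (a (l 16596384) (l 16604640)) (a (l 16619464) (l 16627488))))) (b (a (b (a (l 16627056) (l 16635032)) (a (l 16651136) (l 16658864))) (b (a (l 16642904) (l 16650672)) (a (l 16666480) (l 16673984)))) (a (b (b (a (l 16669184) (l 16676712)) (a (l 16681224) (l 16688624))) (a (b (l 16693272) (l 16705320)) (b (l 16700536) (l 16712448)))) (a (b (b (l 16684136) (l 16695912)) (b (l 16707688) (l 16719456))) (b (b (l 16691432) (l 16703080)) (b (l 16714712) (a (l 16724632) (l 16728048))))))))), by decide +kernel⟩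

def k168_A00pp_022_s3 : ∃ t, chk3 f_A00pp_022_s3 t 18 14 127 = true :=
  ⟨(a (b (b (a (a (b (l 1) (a (l 16517848) (l 16522352))) (b (l 16526752) (l 16529080))) (b (l 16519416) (l 16542432))) (c (a (b (a (l 16544352) (l 16553136)) (a (l 16568848) (l 16577416))) (b (l 16571408) (b (l 16584088) (l 16596176)))) (a (b (a (l 16543912) (l 16552712)) (a (l 16568464) (l 16577048))) (b (l 16571008) (b (l 16583728) (l 16595840)))))) (b (a (b (b (l 16591528) (l 16604016)) (a (l 16618712) (l 16626848))) (b (a (l 16610232) (l 16618424)) (a (l 16634896) (l 16642848)))) (a (b (a (l 16649104) (l 16657008)) (a (b (l 16662728) (l 16675328)) (b (l 16670456) (l 16682936)))) (b (a (l 16664816) (b (l 16661160) (l 16673376))) (a (b (l 16678080) (l 16690432)) (b (l 16685600) (l 16697824))))))) (b (b (a (b (l 16537368) (l 16559976)) (b (l 16555016) (l 16577200))) (a (b (a (l 16578832) (l 16587312)) (a (l 16602496) (l 16610736))) (b (a (l 16595696) (l 16603992)) (a (l 16618888) (l 16626936))))) (b (a (b (a (l 16626520) (l 16634520))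 (a (l 16650704) (l 16658456))) (b (a (l 16642424) (l 16650216)) (a (l 16666096) (l 16673624)))) (a (b (a (b (l 16668824) (l 16680912)) (b (l 16676376) (l 16688336))) (a (b (l 16693000) (l 16705096)) (b (l 16700296) (l 16712248)))) (a (b (b (l 16683824) (l 16695648)) (b (l 16707464) (l 16721904))) (b (b (l 16691152) (l 16702840)) (b (l 16714520) (a (l 16724472) (l 16727896))))))))), by decide +kernel⟩

def k169_A00pp_022_s3 : ∃ t, chk3 f_A00pp_022_s3 t 38 56 1 = true :=
  ⟨(a (c (b (a (c (l 16608672) (l 16598040)) (c (l 16615392) (l 16605256))) (a (c (l 16625480) (l 16605680)) (c (l 16632048) (l 16623208)))) (b (a (c (l 16586536) (c (l 16577328) (l 16570912))) (c (l 16594280) (c (l 16585480) (l 16579352)))) (a (b (c (l 16601136) (l 16589904)) (c (l 16611032) (l 16600568))) (b (c (l 16608736) (l 16598032)) (c (l 16618528) (l 16608584)))))) (c (b (a (c (l 16622016) (l 16612376)) (c (l 16628560) (l 16619400))) (a (c (l 16638528) (l 16630160)) (c (l 16644928) (l 16637008)))) (b (a (c (l 16601912) (c (l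 16593528) (l 16587672))) (c (l 16609440) (l 16588200))) (a (b (c (l 16616224) (l 16606048)) (c (l 16625912) (l 16616480))) (b (c (l 16623600) (l 16613944)) (c (l 16633192) (l 16624256))))))), by decide +kernel⟩

def k170_A00pp_022_s3 : ∃ t, chk3 f_A00pp_022_s3 t 38 57 1 = true :=
  ⟨(a (b (c (c (a (l 16653240) (l 16659656)) (a (c (l 16636816) (l 16632648)) (c (l 16643568) (l 16639632)))) (a (b (c (l 16621040) (l 16611336)) (c (l 16631152) (l 16622216))) (b (c (l 16628432) (l 16619240)) (c (l 16638440) (l 16630000))))) (c (a (b (c (l 16655992) (l 16648968)) (c (l 16664960) (l 16658584))) (b (c (l 16662288) (l 16655696)) (c (l 16671184) (l 16665216)))) (c (a (c (l 16648392) (l 16649872)) (c (l 16655408) (l 16657120))) (a (a (l 16642056) (l 16635400)) (b (l 16630368) (c (l 16653584) (l 16649984))))))) (b (c (c (a (l 16665984) (l 16672224)) (a (c (l 16650224) (l 16646512)) (c (l 16656776) (l 16653288)))) (a (b (c (l 16635712) (l 16627024)) (c (l 16645624) (l 16637664))) (b (c (l 16642888) (l 16634680))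 (c (l 16652680) (l 16634712))))) (a (a (c (c (l 16671376) (l 16665408)) (c (l 16664176) (c (l 16653744) (l 16650128)))) (c (c (l 16674440) (l 16668672)) (c (l 16667656) (c (l 16657392) (l 16653896))))) (c (b (c (l 16674632) (l 16668856)) (c (l 16683368) (l 16688672))) (b (c (l 16652088) (c (l 16657544) (l 16654032))) (a (c (l 16670864) (l 16664688)) (c (l 16674256) (l 16668288)))))))), by decide +kernel⟩

def k171_A00pp_022_s3 : ∃ t, chk3 f_A00pp_022_s3 t 39 56 1 = true :=
  ⟨(a (c (a (b (c (l 16635016) (l 16626320)) (c (l 16651232) (l 16654240))) (b (c (l 16641392) (l 16633152)) (c (l 16657456) (l 16660888)))) (b (a (c (l 16616864) (l 16596144)) (c (l 16624168) (c (l 16616936) (l 16611888)))) (a (c (l 16630368) (c (l 16629072) (l 16624504))) (b (c (l 16638016) (l 16629336)) (a (l 16631184) (l 16634792)))))) (c (b (a (a (l 16663224) (l 16666448)) (c (l 16653888) (l 16646504))) (a (c (l 16663600) (l 16667432)) (c (l 16669656) (l 16673880)))) (b (a (c (l 16631352) (l 16616872)) (c (l 16638424) (c (l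 16631904) (l 16627352)))) (a (b (c (l 16645048) (l 16636832)) (a (l 16638360) (l 16641904))) (b (a (l 16635888) (l 16639424)) (c (l 16661120) (l 16654008))))))), by decide +kernel⟩

def k172_A00pp_022_s3 : ∃ t, chk3 f_A00pp_022_s3 t 39 57 1 = true :=
  ⟨(a (b (a (c (c (l 16678384) (c (l 16663240) (l 16659960))) (b (c (l 16649936) (l 16642200)) (c (l 16659632) (l 16642112)))) (c (c (l 16673968) (c (l 16669600) (l 16666528))) (a (c (l 16659960) (l 16658152)) (c (l 16663368) (l 16661776))))) (a (c (b (c (l 16680672) (l 16675280)) (c (l 16689328) (l 16689760))) (b (c (l 16674656) (l 16657832)) (a (c (l 16677616) (l 16671856)) (c (l 16680944) (l 16675392))))) (b (a (c (l 16677400) (c (l 16674456) (l 16668432))) (c (l 16680448) (c (l 16677784) (l 16671960)))) (a (c (c (l 16693744) (l 16689200)) (c (l 16684248) (l 16678888))) (c (l 532038927) (c (l 16687512) (l 16682352))))))) (b (c (a (c (l 16690440) (c (l 16675872) (l 16672984))) (b (c (l 16681760) (l 16676320)) (a (l 16675600) (l 16683840)))) (c (a (c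 (l 16669976) (l 16666840)) (a (l 16683896) (l 16687184))) (a (b (l 16646344) (l 16661720)) (c (l 16675744) (l 16667320))))) (a (a (b (c (l 532079119) (c (l 16681080) (l 16675448))) (b (c (l 16695288) (l 16680560)) (l 530978063))) (b (c (l 531837199) (c (l 16684344) (l 16678904))) (b (l 531278863) (l 531274511)))) (b (a (b (l 531048975) (l 531311887)) (b (l 531345423) (l 531340047))) (a (b (l 531306767) (l 531302671)) (c (l 531877135) (l 531299599))))))), by decide +kernel⟩

def k173_A00pp_022_s3 : ∃ t, chk3 f_A00pp_022_s3 t 76 58 1 = true :=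
  ⟨(b (a (c (c (c (l 16685168) (l 16682560)) (b (c (l 16669784) (l 16666792)) (c (l 16679416) (l 16676752)))) (b (a (c (l 16660328) (l 16653536)) (c (l 16663840) (l 16657272))) (a (c (l 16670832) (l 16664768)) (c (l 16674288) (l 16668448))))) (b (c (c (l 16680192) (a (l 16673216) (l 16676464))) (a (c (l 16667328) (l 16660984)) (c (l 16670776) (l 16664656)))) (c (a (c (l 16687776) (l 16682944)) (c (l 16690784) (l 16686144))) (a (c (l 16677720) (l 16672088)) (c (l 16681120) (l 16675704)))))) (a (a (c (b (c (l 16690936) (l 16686336)) (c (l 16700248) (l 16696248))) (b (c (l 16681368) (l 16676024)) (c (l 16691920) (l 16687272)))) (c (b (c (l 16693960) (l 16689544)) (c (l 16703224) (l 16699400))) (b (c (l 16684768) (l 16679632)) (c (l 16695264) (l 16690816))))) (c (b (a (c (l 16696952) (l 16692720)) (c (l 16699920) (l 16695872))) (a (c (l 16706176) (l 16702528)) (c (l 16709112) (l 16705632)))) (b (a (c (l 16688136) (l 16683216)) (c (l 16691480) (l 16686760))) (a (c (l 16698584) (c (l 16695424) (l 16693224)))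 (c (l 16701864) (c (l 16698856) (l 16696760)))))))), by decide +kernel⟩

def k174_A00pp_022_s3 : ∃ t, chk3 f_A00pp_022_s3 t 77 58 1 = true :=
  ⟨(b (a (c (b (c (l 16691488) (c (l 16682560) (l 16679976))) (a (c (l 16693776) (l 16689320)) (c (l 16696736) (l 16692464)))) (b (a (c (l 16674208) (l 16668304)) (c (l 16677600) (l 16671912))) (a (c (l 16684488) (l 16679280)) (c (l 16687824) (l 16682824))))) (c (b (c (l 16697456) (c (l 16688808) (l 16686416))) (a (c (l 16699680) (l 16695584)) (c (l 16702608) (l 16698680)))) (b (a (c (l 16680968) (l 16675480)) (c (l 16684304) (l 16679024))) (a (c (l 16691136) (l 16686336)) (c (l 16694408) (l 16689808)))))) (a (a (b (c (c (l 16702872) (l 16698992)) (c (l 16694792) (l 16690272))) (b (c (l 531548687) (l 530973967)) (c (l 531542031) (l 530973967)))) (b (b (c (l 16696400) (l 531003407)) (c (l 531580175) (l 531003919))) (b (c (l 531574031) (l 531004175)) (c (l 531567375) (l 531004431))))) (b (a (b (c (l 531611663) (l 531033615)) (c (l 531605519) (l 531034127))) (b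 (c (l 531637007) (l 531063823)) (c (l 531631119) (l 531064335)))) (a (c (c (l 16717768) (l 16720024)) (b (l 531034383) (l 531034639))) (c (c (l 16720616) (l 16723016)) (b (l 531064591) (l 531064847))))))), by decide +kernel⟩

def k175_A00pp_022_s3 : ∃ t, chk3 f_A00pp_022_s3 t 76 59 1 = true :=
  ⟨(b (a (b (c (a (c (l 16709616) (l 16706192)) (c (l 16712552) (l 16709304))) (a (b (c (l 16699848) (l 16695712)) (c (l 16705144) (l 16701336))) (b (c (l 16703152) (l 16699208)) (c (l 16708416) (l 16704800))))) (a (b (c (l 531420431) (c (l 16710448) (l 16706968))) (c (l 531412239) (c (l 16715752) (l 16712592)))) (b (c (l 531445007) (c (l 16713688) (l 16710400))) (c (l 531437071) (l 531149327))))) (b (a (b (c (l 531484943) (c (l 16706424) (l 16702672))) (c (l 531477519) (l 530912527))) (b (c (l 531510031) (l 530943503)) (c (l 531502607) (l 530943247)))) (a (b (c (l 531469839) (l 530912271)) (c (l 531461903) (l 530911759))) (b (c (l 531494927) (l 530942991)) (c (l 531487247) (l 530942735)))))) (a (b (a (b (c (l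 531403791) (c (l 16721072) (l 530698255))) (c (l 531395343) (a (l 530841359) (l 530856719)))) (b (c (l 531428879) (l 530880271)) (c (l 531420175) (l 530879503)))) (a (b (c (l 531386383) (l 530847503)) (c (l 531377167) (l 530846479))) (c (b (l 531411471) (l 531402511)) (b (l 530878735) (l 530877711))))) (b (a (b (c (l 531453711) (l 530911247)) (c (l 531445263) (l 530910479))) (b (c (l 531479055) (l 530942223)) (c (l 531470863) (l 530941455)))) (a (c (b (l 531436559) (l 531427599)) (b (l 530909711) (l 530908943))) (c (b (l 531462159) (l 531453455)) (b (l 530940687) (l 530939919))))))), by decide +kernel⟩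

def k176_A00pp_022_s3 : ∃ t, chk3 f_A00pp_022_s3 t 77 59 1 = true :=
  ⟨(b (c (a (b (a (c (l 16726472) (l 531667727)) (c (l 16729320) (l 531426063))) (a (b (l 531520271) (l 531512591)) (b (l 531546127) (l 531538447)))) (b (a (c (l 16726904) (l 531452943)) (l 531608335)) (a (l 531567887) (l 531594511)))) (a (b (a (b (l 530973967) (l 530973967)) (b (l 531004431) (l 531004431))) (a (b (l 530973711) (l 530973199)) (b (l 531004175) (l 531003663)))) (b (a (b (l 531034639) (l 531034639)) (b (l 531064847) (l 531064591))) (a (b (l 531034383) (l 531033871)) (b (l 531064079) (l 531063567)))))) (b (c (a (a (b (l 531504655) (l 531496463)) (l 531526159)) (a (l 531553039) (l 531580431))) (a (a (b (l 530972687) (l 530972175)) (b (l 531003151) (l 531002383))) (a (b (l 531033103) (l 531032079)) (b (l 531062543) (l 531061519))))) (c (a (a (l 531751695) (l 531510287)) (a (l 531537679) (l 531565583))) (a (a (b (l 530971407) (l 530970383)) (b (l 531001615) (l 531000335))) (a (b (l 531031055) (l 531029775)) (l 531059215)))))),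 by decide +kernel⟩

def k177_A00pp_022_s3 : ∃ t, chk3 f_A00pp_022_s3 t 39 58 1 = true :=
  ⟨(a (b (b (a (a (b (c (l 16692232) (l 16677280)) (c (l 16696792) (l 16682456))) (b (c (l 16695248) (l 16680664)) (c (l 16694544) (l 531121679)))) (a (b (c (l 16698240) (l 16684008)) (c (l 16697512) (l 531151375))) (b (c (l 16701208) (l 16687328)) (l 531212047)))) (a (a (b (c (l 16696128) (l 531092495)) (c (l 531668239) (l 531093263))) (b (c (l 16699096) (l 531122447)) (c (l 531694095) (l 531123215)))) (a (b (l 531014159) (l 531179535)) (b (l 531209999) (l 531207695))))) (b (a (a (b (c (l 531662607) (l 531093775)) (c (l 531656975) (l 531094287))) (b (l 531149071) (l 531146511))) (a (b (l 531177231) (l 531174415)) (b (l 531205391) (l 531202575)))) (a (a (b (l 531115535) (c (l 531644943) (l 531094543))) (b (l 531143439) (l 531140367))) (a (b (l 531171599) (l 531168783)) (b (l 531200015) (l 531465487)))))) (a (b (b (a (b (l 531242767) (l 531239951)) (b (l 531270927) (l 531268111))) (a (b (l 531237903) (l 531235855))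 (b (l 531266063) (l 531264015)))) (b (a (b (l 531233551) (l 531230991)) (c (l 531793423) (l 531240207))) (a (c (l 531755791) (l 531211279)) (c (l 531783439) (l 531240463))))) (b (b (a (b (l 531299087) (l 531296271)) (b (l 531327247) (l 531324431))) (a (c (l 531830031) (l 531268623)) (c (l 531857423) (l 531297807)))) (b (a (c (l 531821071) (l 531269391)) (c (l 531848719) (l 531298575))) (a (c (l 531811087) (l 531269647)) (l 530976527)))))), by decide +kernel⟩

def k178_A00pp_022_s3 : ∃ t, chk3 f_A00pp_022_s3 t 39 59 1 = true :=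
  ⟨(a (b (b (c (a (a (l 531634959) (l 531662095)) (a (l 531689487) (l 531717135))) (a (a (b (l 531094543) (l 531094031)) (b (l 531123727) (l 531123471))) (a (l 531152399) (l 531181583)))) (a (a (c (l 531621903) (b (l 531093519) (l 531092751))) (c (l 531649295) (l 531121935))) (a (c (l 531676943) (l 531151375)) (c (l 531704847) (l 531180559))))) (a (b (a (c (l 531608079) (l 531090959)) (c (l 531635727) (l 531120399))) (a (c (l 531593487) (l 531088655)) (c (l 531621391) (l 531118095)))) (b (a (c (l 531663631) (l 531149839)) (c (l 531691791) (l 531179023))) (a (c (l 531649551) (l 531147535)) (l 531169295))))) (b (a (b (a (c (l 531744783) (l 531210767)) (c (l 531772431) (l 531240207))) (a (c (l 531732751) (l 531209999)) (l 530973967))) (b (a (l 531009295) (l 531306511)) (a (l 531271439) (l 531300111)))) (a (b (a (l 530937871) (l 531235343)) (a (l 531198223) (l 531227407))) (b (a (l 531264271) (l 531293199)) (a (l 531256591) (l 531285775)))))), by decide +kernel⟩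

def k179_A00pp_022_s3 : ∃ t, chk3 f_A00pp_022_s3 t 72 120 1 = true :=
  ⟨(a (b (c (c (a (l 16699696) (l 16702912)) (a (c (l 16696992) (l 16695120)) (c (l 16700320) (l 16698520)))) (a (a (c (l 16691304) (l 16687144)) (c (l 16693072) (l 16688992))) (b (c (l 16692816) (l 16688688)) (c (l 16698592) (l 16694816))))) (c (a (b (c (l 16707480) (l 16704296)) (c (l 16712704) (l 16709816))) (b (c (l 16710664) (l 16707624)) (c (l 16715864) (l 16713120)))) (a (b (c (l 16700904) (l 16697296)) (c (l 16706736) (l 16703464))) (b (c (l 16704384) (l 16700944)) (c (l 16710184) (l 16701832)))))) (a (c (b (b (c (l 16703520) (l 16700040)) (c (l 16708656) (l 16705472))) (b (c (l 16713816) (l 16710920)) (c (l 16719000) (l 16716392)))) (c (b (c (l 16700112) (l 16698272)) (c (l 16711480) (l 16709968))) (b (c (l 16696384) (l 16694432)) (c (l 16708408) (l 16712048))))) (c (b (b (c (l 16706688) (l 16703360)) (c (l 16711808) (l 16708768))) (b (c (l 16716944) (l 16714192)) (c (l 16722112) (l 16719640)))) (c (b (c (l 16703536) (l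 16701776)) (c (l 16714848) (l 16713416))) (b (c (l 16699968) (l 16698104)) (b (l 16702904) (c (l 16714928) (l 16713496)))))))), by decide +kernel⟩

def k180_A00pp_022_s3 : ∃ t, chk3 f_A00pp_022_s3 t 144 121 1 = true :=
  ⟨(b (c (c (a (c (l 16721184) (l 16719992)) (c (l 16724280) (l 16723160))) (a (c (l 16718760) (l 16717488)) (b (l 16718632) (c (l 16724728) (l 16723592))))) (a (b (c (l 16707336) (c (l 16710384) (l 16708872))) (c (c (l 16719064) (l 16717792)) (c (l 16716480) (l 16715136)))) (b (a (c (l 16715152) (l 16712328)) (c (l 16716856) (l 16714112))) (a (c (l 16720984) (l 16718480)) (c (l 16722680) (l 16720248)))))) (a (c (b (a (c (l 16727752) (l 16725672)) (c (l 16729312) (l 16727296))) (a (c (l 16733096) (l 16731280)) (c (l 16734640) (l 16732888)))) (b (a (c (l 16723456) (l 16721112)) (c (l 16725152) (l 16722880))) (a (c (l 16729352) (l 16727312)) (c (l 16731032) (l 16729064))))) (b (c (a (c (l 16730864) (l 16728912)) (c (l 16732408) (l 16730520))) (a (c (l 16726840) (l 16724640)) (c (l 16728520)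 (l 16726392)))) (a (c (c (l 16736184) (l 16734496)) (c (l 16732704) (l 16730808))) (c (c (l 16737720) (l 16736096)) (c (l 16734368) (l 16732544))))))), by decide +kernel⟩

def k181_A00pp_022_s3 : ∃ t, chk3 f_A00pp_022_s3 t 145 121 1 = true :=
  ⟨(b (a (b (c (c (l 16724208) (c (l 16722480) (l 16721280))) (a (c (l 16718560) (l 16715888)) (c (l 16720248) (l 16717656)))) (c (a (c (l 16728680) (l 16726592)) (c (l 16730216) (l 16728200))) (a (c (l 16724368) (l 16722008)) (c (l 16726048) (l 16723768))))) (c (c (c (l 16735640) (c (l 16729656) (l 16729152))) (b (c (l 16725672) (l 16724536)) (c (l 16731088) (l 16730096)))) (b (a (c (l 16721936) (l 16719416)) (c (l 16723616) (l 16721176))) (a (c (l 16727720) (l 16725512)) (c (l 16729384) (l 16727248)))))) (a (b (a (c (c (l 16733944) (l 16732128)) (c (l 16730192) (l 16728144))) (c (c (l 16735480) (l 16733720)) (c (l 16731856) (l 16729880)))) (c (a (c (l 16739248) (l 16737688)) (l 530931727)) (a (c (l 16736032) (l 16731656)) (a (l 530420751) (l 530427919))))) (b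 (c (a (l 531226639) (l 530971151)) (a (c (l 16733520) (l 16731608)) (c (l 16735168) (l 16730712)))) (c (a (l 530944527) (l 530957583)) (a (b (l 530439183) (l 530437903)) (b (l 530453775) (l 530452495))))))), by decide +kernel⟩

def k182_A00pp_022_s3 : ∃ t, chk3 f_A00pp_022_s3 t 73 120 1 = true :=
  ⟨(a (b (c (a (b (c (l 16709824) (l 16706648)) (c (l 16714920) (l 16712032))) (b (c (l 16712936) (l 16709912)) (c (l 16718016) (l 16715272)))) (a (b (c (l 16703248) (l 16699632)) (c (l 16708952) (l 16705664))) (b (c (l 16706672) (l 16703224)) (c (l 16712344) (l 16703984))))) (c (c (a (c (l 16723208) (l 16722016)) (c (l 16726232) (l 16725112))) (a (c (l 16720784) (l 16719512)) (c (l 16723952) (l 16722752)))) (a (b (c (l 16709416) (c (l 16712456) (l 16710936))) (a (c (l 16719544) (l 16716864)) (c (l 16721224) (l 16718624)))) (c (c (c (l 16721824) (l 16721200)) (c (l 16720560) (l 16719904))) (b (c (l 16715944) (l 16714504)) (c (l 16721880) (l 16720600))))))) (b (c (a (c (c (l 16719208) (l 16717888)) (c (l 16716520)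 (l 16715104))) (c (c (l 16722216) (l 16720976)) (c (l 16719680) (l 16718336)))) (a (c (c (l 16713640) (l 16712128)) (c (l 16710568) (l 16708960))) (c (c (l 16716952) (l 16715520)) (b (l 16705072) (c (l 16716976) (l 16715536)))))) (a (a (b (c (l 531085583) (c (l 16720536) (l 16717856))) (c (l 531073807) (c (l 16726208) (l 16723848)))) (b (c (l 531098383) (c (l 16722200) (l 16719600))) (c (l 531086863) (l 530548495)))) (a (b (c (l 531111183) (l 530699279)) (c (l 531099663) (l 530563087))) (c (b (l 531123983) (l 531112463)) (b (l 530579727) (l 530577679))))))), by decide +kernel⟩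

def k183_A00pp_022_s3 : ∃ t, chk3 f_A00pp_022_s3 t 73 121 1 = true :=
  ⟨(a (b (a (b (c (a (c (l 16729600) (l 16727512)) (l 531023119)) (a (c (l 16725288) (l 16722920)) (c (l 16726952) (l 16724664)))) (c (a (l 530997519) (l 531010319)) (a (c (l 16731040) (l 16728984)) (c (l 16732696) (l 16730712))))) (b (c (a (l 531035919) (l 531048975)) (a (c (l 16728608) (l 16726392)) (c (l 16730256) (l 16728120)))) (c (a (l 531023375) (l 531036431)) (a (c (l 16734336) (l 16732424)) (l 530514959))))) (a (b (a (c (l 530984207) (c (l 16736808) (l 530331151))) (b (l 530750735) (l 530746895))) (c (a (l 530970639) (l 530983695)) (a (l 530467087) (l 530481679)))) (b (c (a (l 531010063) (l 531023119)) (a (l 530498575) (l 530512911))) (c (a (l 530996751) (l 531009807)) (a (l 530496271) (l 530510863)))))) (b (a (b (c (a (l 531061775) (l 531074831)) (a (l 530531855) (l 530546191))) (c (a (l 531049231) (l 531062287)) (a (l 530529551) (l 530544143)))) (b (c (a (l 531087631) (l 531100687)) (a (l 530560783) (l 530575375))) (c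 (a (l 531075343) (l 531088143)) (a (l 530558735) (l 530573583))))) (a (c (b (a (l 531036175) (l 531049231)) (a (l 531022863) (l 531035919))) (b (a (l 530527759) (l 530542351)) (a (l 530525711) (l 530540303)))) (c (b (a (l 531062287) (l 531075343)) (a (l 531048975) (l 531062031))) (b (a (l 530556943) (l 530571791)) (a (l 530555151) (l 530569999))))))), by decide +kernel⟩

def k184_A00pp_022_s3 : ∃ t, chk3 f_A00pp_022_s3 t 72 122 1 = true :=
  ⟨(a (b (a (c (c (b (c (l 16739608) (l 16738864)) (c (l 16747568) (l 16746952))) (b (c (l 16738104) (l 16737312)) (a (l 16745184) (l 531002383)))) (b (a (c (l 16735256) (l 16730888)) (a (l 530360591) (l 530367503))) (a (b (l 530347279) (l 530345487)) (b (l 530361615) (l 530359567))))) (b (a (c (c (l 16741536) (l 16740104)) (b (l 530379023) (l 530377487))) (c (c (l 16743064) (l 16741688)) (b (l 530393359) (l 530391823)))) (a (c (c (l 16749544) (l 530747151)) (b (l 530375695) (l 530373903))) (c (l 530877711) (b (l 530390287) (l 530388495)))))) (a (b (a (c (b (l 530828303)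 (l 530821135)) (b (l 530343439) (l 530341391))) (c (b (l 530841359) (l 530834191)) (b (l 530357775) (l 530355727)))) (a (c (l 531078159) (b (l 530339343) (l 530337295))) (c (l 530822671) (b (l 530353679) (l 530351631))))) (b (a (c (l 530850319) (b (l 530372111) (l 530370319))) (c (l 530863375) (b (l 530386703) (l 530384655)))) (a (b (l 530610447) (l 530605839)) (c (l 530849039) (l 530381327)))))) (b (a (b (a (c (l 530904847) (b (l 530407695) (l 530406159))) (c (l 530917647) (b (l 530422031) (l 530420751)))) (a (c (l 530890767) (b (l 530404623) (l 530402831))) (b (l 530670351) (l 530665999)))) (b (a (b (l 530692879) (l 530688527)) (c (l 530943759) (l 530449935))) (c (a (l 530916879) (l 530929935)) (a (l 530432271) (l 530447119))))) (a (c (b (a (l 530876431) (l 530889487)) (a (l 530862095) (l 530875151))) (b (a (l 530601231) (l 530414351)) (a (l 530395919) (l 530410767)))) (c (b (a (l 530902543) (l 530915855)) (a (l 530888207) (l 530901519))) (b (a (l 530428943) (l 530443791)) (a (l 530425359) (l 530440207))))))),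 by decide +kernel⟩

def k185_A00pp_022_s3 : ∃ t, chk3 f_A00pp_022_s3 t 72 123 1 = true :=
  ⟨(b (a (b (b (a (a (c (l 530799119) (l 530334991)) (l 530587151)) (a (l 530600975) (l 530614799))) (a (a (l 530568207) (l 530582031)) (a (l 530595855) (l 530609935)))) (a (a (b (l 530563087) (l 530558223)) (c (l 530793231) (l 530343439))) (c (a (l 530806287) (l 530819599)) (a (l 530358031) (l 530372879))))) (a (c (b (a (l 530847503) (l 530860559)) (a (l 530832655) (l 530845967))) (b (a (l 530392079) (l 530406671)) (a (l 530387727) (l 530402575)))) (c (b (a (l 530873871) (l 530886927)) (a (l 530859279) (l 530872335))) (b (a (l 530421519) (l 530436367)) (a (l 530417423) (l 530432527)))))) (b (a (a (a (c (l 530765071) (l 530323727)) (c (l 530778127) (l 530338575))) (c (a (l 530791439) (l 530804495)) (a (l 530353423) (l 530368271)))) (b (a (a (l 530608911) (l 530622991)) (c (l 530854415) (l 530421263))) (a (a (l 530603791) (l 4)) (l 4)))) (a (a (c (a (l 530749711) (l 530763023)) (a (l 530318607) (l 530333455)))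 (a (a (l 530564367) (l 530571535)) (l 4))) (l 4)))), by decide +kernel⟩

def k186_A00pp_022_s3 : ∃ t, chk3 f_A00pp_022_s3 t 73 61 1 = true :=
  ⟨(b (a (b (a (c (b (a (l 530956815) (l 530969871)) (a (l 530942991) (l 530956047))) (b (a (l 530464527) (l 530479119)) (a (l 530461711) (l 530476303)))) (c (b (a (l 530982927) (l 530995983)) (a (l 530969103) (l 530982159))) (b (a (l 530493711) (l 530508559)) (a (l 530491151) (l 530505999))))) (a (c (b (a (l 530928911) (l 530941967)) (a (l 530914575) (l 530927887))) (b (a (l 530458383) (l 530473231)) (a (l 530455055) (l 530469903)))) (c (b (a (l 530955023) (l 530968335)) (l 531349519)) (b (a (l 530488079) (l 530502927)) (a (l 530484751) (l 530499855)))))) (b (a (c (b (a (l 531009039) (l 531022351)) (a (l 530995471) (l 531008527))) (b (a (l 530523407) (l 530538255)) (a (l 530520847) (l 530535695)))) (c (b (l 531309583) (l 531027471)) (b (a (l 530553103) (l 530567951)) (a (l 530550543) (l 530565647))))) (a (c (b (l 530987279) (l 530973199)) (b (a (l 530518031)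 (l 530532879)) (a (l 530514959) (l 530529807)))) (a (b (l 530784527) (l 530775823)) (b (l 530798863) (l 530790159)))))) (b (b (a (c (a (a (l 530900239) (l 530913551)) (l 530932495)) (a (a (l 530451471) (l 530466319)) (a (l 530481423) (l 530496527)))) (a (a (l 530738447) (l 530752783)) (l 4))) (a (a (c (l 531160079) (a (l 530447375) (l 530462479))) (a (l 530700815) (l 4))) (l 4))) (l 4))), by decide +kernel⟩

def k187_A00pp_022_s3 : ∃ t, chk3 f_A00pp_022_s3 t 74 120 1 = true :=
  ⟨(b (a (a (b (c (c (l 16722112) (l 16719536)) (c (l 16716776) (c (l 16714576) (l 16713056)))) (c (c (l 16727128) (l 16724832)) (a (l 530596367) (l 530610959)))) (a (c (c (l 16726872) (l 16724544)) (b (l 530627599) (l 530625551))) (c (c (l 16728360) (l 16731352)) (b (l 530642191) (l 530640143))))) (a (b (c (c (l 16728096) (l 16725816)) (a (l 530656783) (l 530671631))) (c (c (l 16733072) (l 531344143)) (a (l 530654991) (l 530669839)))) (b (c (c (l 16731048) (l 531110671)) (a (l 530686479) (l 530701327))) (c (a (l 531224591) (l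 531237391)) (a (l 530684687) (l 530699535)))))) (a (a (b (a (b (l 530876431) (l 530873103)) (b (l 530890255) (l 530886927))) (c (a (l 531125519) (l 531138319)) (a (l 530592271) (l 530606863)))) (b (c (a (l 531162383) (l 531175439)) (a (l 530623503) (l 530638351))) (c (a (l 531151119) (l 531164175)) (a (l 530621711) (l 530636303))))) (a (b (c (a (l 531188239) (l 531201039)) (a (l 530653199) (l 530668047))) (c (l 531451151) (a (l 530651151) (l 530665999)))) (c (b (l 531219727) (l 531208719)) (b (a (l 530682895) (l 530697743)) (a (l 530681103) (l 530695951))))))), by decide +kernel⟩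

def k188_A00pp_022_s3 : ∃ t, chk3 f_A00pp_022_s3 t 74 121 1 = true :=
  ⟨(a (b (a (c (b (a (l 531113487) (l 531126543)) (a (l 531101199) (l 531114255))) (b (a (l 530590223) (l 530604815)) (a (l 530588175) (l 530603023)))) (c (b (a (l 531139599) (l 531152399)) (l 531133199)) (b (a (l 530619663) (l 530634511)) (a (l 530617871) (l 530632719))))) (a (c (b (a (l 531088399) (l 531101455)) (l 531080975)) (b (a (l 530586639) (l 530601231)) (a (l 530584847) (l 530599695)))) (c (b (l 531120399) (l 531107343)) (b (a (l 530616335) (l 530631183)) (a (l 530614799) (l 530629647)))))) (b (a (c (b (l 531171343) (l 531159311)) (b (a (l 530649359) (l 530664207)) (a (l 530647567) (l 530662671)))) (c (b (l 531197455) (l 531185423)) (b (a (l 530679311) (l 530694159)) (a (l 530677519) (l 530692623))))) (a (a (b (a (l 530898191) (l 530905103)) (l 530893839)) (b (l 530915599) (l 530907919))) (c (b (l 531172879) (l 531159823)) (b (l 530951695) (l 530682127)))))), by decide +kernel⟩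

def k189_A00pp_022_s3 : ∃ t, chk3 f_A00pp_022_s3 t 75 60 1 = true :=
  ⟨(b (a (b (a (b (c (c (l 16733968) (l 531137295)) (a (l 530716175) (l 530731279))) (c (l 531255823) (a (l 530714639) (l 530729487)))) (b (c (l 531291663) (a (l 530746383) (l 530761487))) (c (l 531281423) (a (l 530744591) (l 530759951))))) (a (c (b (l 531245327) (l 531234575)) (b (a (l 530712847) (l 530727951)) (a (l 530711055) (l 530726159)))) (c (b (l 531271183) (l 531260431)) (b (a (l 530743055) (l 530758159)) (l 530748431))))) (b (a (c (b (l 531317007) (l 531307023)) (b (a (l 530776591) (l 530791951)) (a (l 530775055) (l 530790415)))) (c (b (l 531342351) (l 531332623)) (b (l 530814223) (l 530812943)))) (a (c (b (l 531297039) (l 531286287)) (b (l 530780687) (l 530778895))) (c (b (l 531322639) (l 531312143)) (b (l 530811407) (l 530809871)))))) (a (b (a (a (b (l 530971919) (l 530965007)) (b (l 530985999) (l 530979087))) (c (b (l 531249423) (l 531237903)) (b (l 530746639) (l 530745103)))) (a (c (b (l 531199247) (l 531186447)) (b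 (l 530713615) (l 530712591))) (c (b (l 531225615) (l 531212815)) (b (l 530744079) (l 530743311))))) (b (a (c (b (l 531275535) (l 531264271)) (b (l 530777359) (l 530775823))) (c (b (l 531301647) (l 531290383)) (b (l 530808335) (l 530806799)))) (a (c (b (l 531251983) (l 531239183)) (b (l 530774799) (l 530774031))) (c (l 531539983) (b (l 530805775) (l 530805007))))))), by decide +kernel⟩

def k190_A00pp_022_s3 : ∃ t, chk3 f_A00pp_022_s3 t 37 61 1 = true :=
  ⟨(a (a (b (b (a (a (b (a (l 530826255) (l 530833423)) (l 530821391)) (b (l 530843663) (l 530835471))) (a (b (l 530857743) (l 530849551)) (b (l 530871823) (l 530863887)))) (b (a (a (l 530812943) (l 530827279)) (c (l 531066895) (l 530615567))) (a (c (l 531026447) (l 530582543)) (l 4)))) (l 4)) (b (b (a (c (b (l 531120399) (l 531106831)) (b (l 530650127) (l 530648335))) (c (b (l 531146767) (l 531133455)) (b (l 530680591) (l 530679055)))) (a (b (a (l 530870031) (l 530884367)) (l 4)) (l 4))) (l 4))) (b (a (b (a (c (b (l 531173135) (l 531160079)) (b (l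 530711311) (l 530709775))) (c (l 531192591) (b (l 530742287) (l 4)))) (l 4)) (b (a (c (l 531219215) (b (l 530773263) (l 4))) (l 4)) (l 4))) (l 4))), by decide +kernel⟩

def k191_A00pp_022_s3 : ∃ t, chk3 f_A00pp_022_s3 t 18 31 1 = true :=
  ⟨(l 4), by decide +kernel⟩

def k192_A00pp_022_s3 : ∃ t, chk3 f_A00pp_022_s3 t 38 30 1 = true :=
  ⟨(b (a (b (a (b (a (c (b (l 531367951) (l 531358223)) (b (l 530845199) (l 530843919))) (c (b (l 531393039) (l 531383567)) (b (l 530876431) (l 530875407)))) (a (c (b (l 531348239) (l 531337999)) (b (l 530842639) (l 530841103))) (c (l 531636495) (b (l 530873871) (l 530872591))))) (b (a (c (l 531681551) (b (l 530907919) (l 530906639))) (c (l 531707663) (b (l 530938895) (l 530937615)))) (a (c (b (l 531399439) (l 531389455)) (b (l 530905359) (l 530904079))) (c (b (l 531426063) (l 531416847)) (b (l 530935823) (l 530934031)))))) (a (b (b (a (c (l 531327503) (l 530839311)) (c (l 531353103) (l 530871055))) (a (c (l 531316751) (l 530837775)) (c (l 531341839) (a (l 530861839)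 (l 530877967))))) (b (a (c (l 531304975) (l 530836751)) (c (l 531331599) (c (l 530989839) (l 530741775)))) (a (c (l 531291407) (l 530837519)) (l 4)))) (a (b (b (c (l 531379727) (l 530902031)) (a (b (l 531138063) (l 531134735)) (l 531150607))) (b (c (l 531359503) (l 530897679)) (l 4))) (b (c (l 531401999) (l 531198735)) (l 4))))) (a (b (b (a (b (c (l 531471119) (l 530969103)) (c (l 531462415) (l 530967567))) (c (l 531493903) (b (l 530998799) (l 530997007)))) (a (c (l 531448591) (b (l 530965775) (l 530963727))) (c (l 531476495) (l 530993679)))) (b (a (c (l 531430159) (l 530959887)) (c (l 531458575) (l 530989583))) (l 4))) (b (b (a (c (l 531521807) (l 531026959)) (c (l 531549711) (l 531056399))) (a (c (l 531504655) (l 531023375)) (c (l 531533071) (l 531053071)))) (b (a (c (l 531486991) (l 531019279)) (l 4)) (l 4))))) (l 4)), by decide +kernel⟩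

def k193_A00pp_022_s3 : ∃ t, chk3 f_A00pp_022_s3 t 39 30 1 = true :=
  ⟨(b (b (b (a (a (a (c (l 531577871) (l 531085839)) (c (l 531606031) (l 531115535))) (a (l 531131151) (l 531160335))) (a (a (l 531189519) (l 531218703)) (l 4))) (a (a (b (a (l 531334415) (l 531363343)) (l 4)) (l 4)) (l 4))) (l 4)) (l 4)), by decide +kernel⟩

def k194_A00pp_022_s3 : ∃ t, chk3 f_A00pp_022_s3 t 19 31 1 = true :=
  ⟨(l 4), by decide +kernel⟩

def k195_A00pp_022_s3 : ∃ t, chk3 f_A00pp_022_s3 t 10 12 2 = true :=
  ⟨(a (b (l 6) (a (c (b (a (l 6) (l 16523992)) (a (l 16532448) (l 16547072))) (b (a (l 6) (l 16506552)) (a (l 16515952) (l 16531712)))) (c (b (a (l 16538816) (l 16553320)) (a (l 16561368) (l 16575352))) (b (a (l 16522520) (l 16538096)) (a (l 16547088) (l 16562072)))))) (a (a (b (b (l 6) (l 16455616)) (b (c (l 16567504) (l 16553280)) (b (l 16535280) (l 16546832)))) (b (b (l 6) (l 16470472)) (b (b (l 16485712) (l 16496320)) (b (l 16549200) (l 16560456))))) (c (b (c (l 16577248) (l 16486392)) (b (l 16601376) (l 16621568)))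 (b (b (l 16465288) (l 16505688)) (a (b (l 16582344) (l 16604520)) (b (l 16595992) (l 16575592))))))), by decide +kernel⟩

def k196_A00pp_022_s3 : ∃ t, chk3 f_A00pp_022_s3 t 11 12 4 = true :=
  ⟨(c (c (a (b (l 16649944) (a (l 16638832) (l 16646816))) (b (b (l 16608680) (l 16628592)) (a (l 16676120) (b (l 16654496) (a (l 16673760) (l 16679640)))))) (c (a (b (l 16631328) (a (l 16637168) (l 16648448))) (b (a (l 16575152) (l 16582592)) (a (l 16677536) (b (l 16655856) (a (l 16674896) (l 16680680)))))) (a (b (l 16632936) (a (l 16636032) (l 16649568))) (b (a (l 16576520) (l 16583816)) (a (l 16678504) (b (l 16656776) (a (l 16675672) (l 16681384)))))))) (c (c (a (b (a (l 16599232) (l 16615016)) (a (l 16634872) (l 16650704))) (b (a (l 16619856) (l 16585064)) (a (l 16679496) (b (l 16657728) (a (l 16676464) (l 16682112)))))) (a (b (a (l 16597648) (l 16616592)) (a (l 16633696) (l 16651856))) (a (b (l 16621272) (l 16680496)) (b (l 16586344) (c (l 16690112) (l 16690552)))))) (a (b (a (l 16595216) (l 16619008)) (a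 (l 16631880) (l 16653248))) (b (b (l 16617256) (l 16656848)) (a (b (l 16651224) (l 16670904)) (b (l 16618232) (l 16681192))))))), by decide +kernel⟩

def k197_A00pp_022_s3 : ∃ t, chk3 f_A00pp_022_s3 t 11 12 5 = true :=
  ⟨(c (c (a (a (b (l 16591872) (l 16650360)) (b (l 16616096) (l 16661528))) (b (a (l 16626440) (l 16632944)) (a (b (l 16653552) (l 16672824)) (b (l 16662224) (l 16682832))))) (c (a (b (a (l 16505400) (l 16613760)) (a (b (l 16617280) (l 16595592)) (l 16649328))) (b (a (l 16628752) (l 16635032)) (a (b (l 16655352) (l 16674312)) (b (l 16663808) (l 16684104))))) (a (b (a (l 16503640) (l 16612160)) (a (b (l 16615864) (l 16594384)) (l 16658648))) (b (a (l 16630328) (l 16636456)) (a (b (l 16656576) (l 16675320)) (b (l 16664888) (l 16684976))))))) (c (a (a (b (l 16542888) (b (l 16571744) (l 16592536))) (b (l 16609704) (b (l 16636696) (l 16656096)))) (b (a (l 16631240) (l 16638648)) (a (b (l 16656504) (l 16675008)) (b (l 16666552) (l 16686304))))) (a (b (a (b (l 16571576) (l 16590584)) (l 16606336))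 (a (b (l 16568768) (l 16600488)) (b (l 16592072) (l 16653848)))) (b (a (l 16628144) (l 16641648)) (a (b (l 16654080) (l 16673008)) (b (l 16668832) (l 16688136))))))), by decide +kernel⟩

def k198_A00pp_022_s3 : ∃ t, chk3 f_A00pp_022_s3 t 20 13 2 = true :=
  ⟨(b (a (c (a (b (l 16557520) (l 16584032)) (b (l 16571592) (l 16597544))) (b (a (l 16522088) (l 16558208)) (a (b (l 16564224) (l 16578792)) (c (l 16589024) (l 16582984))))) (a (c (b (l 16585344) (l 16610744)) (b (l 16572968) (c (l 16602912) (l 16597344)))) (c (b (l 16598792) (l 16581704)) (b (l 16587336) (c (l 16616432) (l 16611288)))))) (a (b (a (b (c (l 16604704) (l 16593664)) (c (l 16618840) (l 16608832))) (b (c (l 16617792) (l 16607688)) (c (l 16631648) (l 16622520)))) (a (b (c (l 16633256) (l 16624296)) (a (c (l 16644848) (l 16636760)) (c (l 16651048) (l 16643368)))) (b (c (l 16645784) (l 16637656)) (a (c (l 16657168) (l 16649872)) (c (l 16663208) (l 16656272)))))) (b (a (b (c (l 16630576) (l 16621320)) (c (l 16644152) (l 16635816))) (b (c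 (l 16643040) (l 16634544)) (c (l 16656312) (l 16648696)))) (a (b (c (l 16657984) (a (l 16647400) (l 16653776))) (a (c (l 16669160) (l 16662568)) (c (l 16675016) (l 16668752)))) (b (c (l 16648856) (a (l 16660032) (l 16666176))) (a (c (l 16680760) (l 16674832)) (l 531936527))))))), by decide +kernel⟩

def k199_A00pp_022_s3 : ∃ t, chk3 f_A00pp_022_s3 t 21 13 2 = true :=
  ⟨(b (a (b (c (a (l 16611944) (l 16582800)) (a (l 16601304) (l 16572912))) (a (c (l 16594256) (c (l 16629544) (l 16624784))) (c (l 16606440) (c (l 16642248) (l 16637848))))) (b (a (c (l 16595120) (l 16585936)) (c (l 16648760) (l 16598288))) (b (c (l 16659832) (c (l 16612216) (l 16618600))) (c (l 16671464) (a (l 16658680) (l 16628208)))))) (a (b (a (c (c (l 16621392) (l 16617920)) (b (l 16647336) (l 16640160))) (c (c (l 16632736) (l 16650560)) (b (l 16659680) (l 16652144)))) (a (a (b (l 532039439) (l 531996943)) (b (l 532368655) (l 532326671))) (a (b (l 532430351) (l 532388623)) (b (l 532492559) (l 532451343))))) (b (a (c (l 16684128)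 (b (l 16629544) (l 531952655))) (c (c (l 16695720) (l 16693160)) (b (l 16661632) (l 532336655)))) (a (b (c (l 16702696) (l 532183567)) (c (l 532932111) (l 532142607))) (c (b (l 16712488) (l 533041423)) (b (l 532297999) (l 532253967))))))), by decide +kernel⟩

def k200_A00pp_022_s3 : ∃ t, chk3 f_A00pp_022_s3 t 11 13 2 = true :=
  ⟨(b (a (c (a (b (c (l 16666768) (l 16663224)) (a (l 16681440) (l 16691008))) (b (a (l 16677120) (l 16681696)) (a (l 16697624) (l 16708200)))) (a (b (a (l 16609920) (l 16662736)) (a (c (l 16634752) (l 16652272)) (a (l 16661712) (l 16687552)))) (b (a (l 16672792) (l 16682176)) (b (a (l 16688952) (l 16697920)) (a (l 16700128) (l 16708872)))))) (a (a (b (c (l 16686800) (l 16690976)) (b (l 533090575) (l 533313807))) (b (c (l 16692320) (c (l 16696640) (l 16697904))) (b (l 533012495) (l 533235215)))) (a (b (c (l 16698256) (c (l 16702152) (l 16705000))) (b (l 533208847) (l 533163279))) (b (c (l 533079311) (b (l 16703840) (l 16714696))) (b (c (l 16722176) (l 533271823)) (l 533094159))))))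 (a (b (b (a (a (l 532066575) (l 532690959)) (a (l 533303311) (l 533352463))) (a (a (l 532028943) (l 533185295)) (a (l 533260047) (l 533309967)))) (b (a (a (l 532253711) (l 533138959)) (a (l 533213455) (l 533271823))) (a (a (l 532471823) (l 533086991)) (a (l 533160719) (l 533229839))))) (a (a (b (b (l 533268239) (l 533224207)) (b (l 533184015) (l 533157135))) (b (b (l 533188879) (l 533143567)) (b (l 533100815) (l 533070863)))) (a (b (b (l 533116431) (c (l 532942607) (l 533227791))) (c (b (l 532891919) (l 532839951)) (b (l 533185551) (l 533141519)))) (b (b (a (l 533065999) (l 533027087)) (b (l 533009679) (l 532985103))) (c (b (l 532806415) (l 532487439)) (b (l 533099279) (l 533057295)))))))), by decide +kernel⟩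

def k201_A00pp_022_s3 : ∃ t, chk3 f_A00pp_022_s3 t 20 28 2 = true :=
  ⟨(a (b (a (b (a (c (l 16660016) (l 16653032)) (c (l 16666072) (l 16659456))) (a (c (l 16675648) (l 16669736)) (c (l 16681544) (l 16675984)))) (c (b (a (l 16672048) (l 16677928)) (a (l 16687352) (l 16703552))) (b (a (l 16665776) (l 16672000)) (a (c (l 16683480) (l 16680728)) (c (l 16689424) (l 16686832)))))) (a (b (a (b (c (l 16687632) (l 16682528)) (a (l 16686808) (l 16695000))) (b (l 531480847) (l 531732495))) (a (b (l 531125007) (l 531648527)) (b (l 531717135) (l 531703823)))) (b (a (b (l 531805199) (l 531788303)) (b (l 531861775) (l 531844879))) (a (b (l 531772943) (l 531759375)) (a (l 531808015) (l 531836431)))))) (b (a (b (a (c (l 16683712) (l 16678104)) (c (l 16689392) (l 16684104))) (a (c (l 16709152) (l 531540751)) (b (l 532282895) (l 532263695)))) (b (a (l 531297295) (l 531894031)) (a (l 531525647) (l 531853583)))) (a (b (a (a (l 531896079) (l 531924751)) (l 531295759)) (a (a (l 531864591) (l 531893263)) (l 531398415)))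 (b (a (l 531757071) (l 531816207)) (a (l 531724559) (l 531783183)))))), by decide +kernel⟩

def k202_A00pp_022_s3 : ∃ t, chk3 f_A00pp_022_s3 t 20 29 2 = true :=
  ⟨(a (b (a (b (a (b (l 531637519) (a (l 531885071) (l 531912719))) (b (l 531692815) (l 531684879))) (a (b (a (l 531876367) (l 531904271)) (l 532148239)) (b (l 531945231) (l 531936271)))) (b (a (a (l 531730959) (l 531758863)) (a (l 531787023) (l 531815439))) (a (b (l 532001807) (l 531993103)) (b (l 532058639) (l 532050447))))) (a (b (a (b (l 531869711) (l 531858959)) (b (l 531926543) (l 531916047))) (a (b (l 531847183) (l 531834639)) (l 531361039))) (b (a (l 531440911) (l 531767311)) (a (l 531687951) (l 4))))) (b (a (b (a (b (l 532129807) (l 532122895)) (l 531377167)) (a (b (l 532115727) (l 532108047)) (b (l 532173327) (l 532165903)))) (b (a (l 531703311) (b (l 532301839) (l 532295439))) (a (b (l 532231183) (l 532224271)) (b (l 532289295) (l 532282639))))) (b (a (a (l 531825679) (l 531884303)) (a (l 531943183) (l 4))) (l 4)))), by decide +kernel⟩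

def k203_A00pp_022_s3 : ∃ t, chk3 f_A00pp_022_s3 t 21 14 2 = true :=
  ⟨(b (a (b (a (a (b (l 532222991) (l 532182543)) (b (l 532284175) (l 532243983))) (a (b (l 532614927) (l 532574735)) (b (l 532678159) (l 532638223)))) (a (b (a (l 532144911) (l 532205839)) (a (l 531842319) (l 531902479))) (b (c (l 532688399) (l 531630863)) (a (l 532232207) (c (l 532691983) (l 532443407)))))) (b (a (b (a (l 532471823) (l 532798479)) (c (l 532850703) (l 531793679))) (b (a (l 532851215) (l 532896015)) (a (l 532802831) (l 532844303)))) (a (a (b (l 532662287) (b (l 532630031) (l 532339471))) (b (l 532709135) (l 532661519))) (b (l 532368655) (c (l 532841743) (l 532591631)))))) (b (b (a (a (a (b (l 532359695) (l 532353295)) (l 532147215)) (a (l 531661583) (c (l 532380943) (l 532135439)))) (a (c (l 532711951) (l 531928591)) (l 4))) (a (a (b (l 532107023) (l 4)) (l 4)) (l 4))) (l 4))), by decide +kernel⟩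

def k204_A00pp_022_s3 : ∃ t, chk3 f_A00pp_022_s3 t 10 15 2 = true :=
  ⟨(l 4), by decide +kernel⟩

def k205_A00pp_022_s3 : ∃ t, chk3 f_A00pp_022_s3 t 11 7 2 = true :=
  ⟨(b (a (b (a (a (b (b (l 532687119) (l 532902671)) (b (l 532850447) (l 532529935))) (b (b (l 533032719) (l 532710159)) (b (l 532656399) (l 4)))) (a (b (b (l 532299791) (c (l 533139215) (l 532917519))) (b (l 532189711) (l 4))) (b (c (l 533061135) (l 532474127)) (l 4)))) (l 4)) (b (a (a (b (c (l 532974351) (l 533072911)) (l 4)) (b (b (l 533051407) (l 4)) (l 4))) (l 4)) (l 4))) (l 4)), by decide +kernel⟩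

def k206_A00pp_022_s3 : ∃ t, chk3 f_A00pp_022_s3 t 10 12 3 = true :=
  ⟨(a (a (b (l 6) (a (b (l 6) (c (c (l 16502568) (l 16493168)) (c (b (l 16475728) (l 16490992)) (b (l 16465240) (l 16481144))))) (b (c (l 16466464) (c (l 16471984) (b (l 6) (l 16468640)))) (c (c (l 16519216) (l 16510416)) (c (l 16485520) (b (l 16483912) (l 16499456))))))) (b (l 6) (c (b (a (l 16483608) (l 16542248)) (a (c (l 16535424) (l 16527200)) (c (l 16551184) (l 16543496)))) (b (a (c (l 16490056) (b (l 6) (l 16487152))) (c (l 16507608) (a (l 16493512) (l 16502440)))) (a (b (c (l 16511320) (l 16502064)) (c (l 16525872) (l 16517232))) (c (a (l 16531296) (l 16539568)) (b (l 16519640) (l 16534424)))))))) (a (b (b (l 6) (b (l 6) (a (a (l 6) (l 16503480)) (c (l 16535296) (l 16496176))))) (c (b (a (l 16537480) (l 16553176)) (a (c (l 16566472) (l 16559256)) (c (l 16581288) (l 16574504)))) (c (b (a (l 16524608) (l 16541016)) (a (a (l 16547704) (l 16555680)) (l 16567384))) (b (a (a (l 16511208) (l 16519816)) (a (l 16528264) (l 16536536)))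 (a (b (l 16536608) (l 16550976)) (a (l 16555952) (l 16563856))))))) (b (a (b (l 6) (c (l 16545304) (c (l 16532096) (l 16543720)))) (c (b (l 16539096) (l 16560344)) (b (c (l 16524744) (l 16514568)) (c (l 16547744) (l 16559768))))) (a (c (b (l 16568296) (c (l 16595536) (l 16589144))) (b (c (l 16556768) (a (l 16544632) (l 16552504))) (c (l 16582416) (a (l 16571576) (l 16579096))))) (c (b (b (l 16576952) (l 16588392)) (b (l 16600104) (l 16612080))) (c (b (l 16571728) (l 16601936)) (a (b (l 16560184) (l 16586424)) (b (l 16567656) (l 16604032))))))))), by decide +kernel⟩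

def k207_A00pp_022_s3 : ∃ t, chk3 f_A00pp_022_s3 t 11 12 6 = true :=
  ⟨(c (c (a (b (a (b (l 16567512) (l 16587032)) (b (l 16593648) (l 16528040))) (b (a (l 16565704) (l 16589296)) (a (a (l 16623264) (l 16635200)) (b (l 16604344) (l 16614800))))) (b (a (l 16624928) (l 16644312)) (a (b (l 16651568) (l 16670936)) (b (l 16669496) (a (l 16683888) (l 16692208)))))) (a (a (b (b (l 16563320) (l 16583368)) (b (l 16562536) (a (l 16620496) (l 16632584)))) (b (b (l 16589784) (l 16566632)) (b (l 16586432) (b (l 16601824) (l 16633480))))) (b (a (l 16621600) (b (l 16632744) (l 16649264))) (a (b (l 16648960) (a (l 16622072) (l 16652176))) (b (l 16667120) (a (l 16681920) (l 16690352))))))) (c (a (b (a (b (l 16559000) (l 16579592)) (b (l 16585792) (l 16563168))) (a (a (b (l 16594648) (l 16617640)) (b (l 16607584) (l 16629896))) (b (a (l 16619688) (l 16630928)) (a (l 16641312) (l 16651848))))) (b (b (a (l 16525160) (l 16629280)) (a (l 16585200) (l 16646312))) (a (b (b (l 16599384) (l 16609224)) (a (l 16640760) (l 16650016)))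 (b (l 16664664) (a (l 16658904) (l 16688432)))))) (a (b (a (b (l 16554568) (l 16575720)) (b (l 16581688) (l 16559608))) (a (b (a (l 16591216) (l 16604312)) (a (l 16614712) (l 16627120))) (b (a (l 16616568) (l 16627952)) (a (l 16638680) (l 16649360))))) (b (a (b (l 16563272) (l 16581904)) (a (b (l 16620728) (l 16638568)) (l 16639080))) (a (b (b (l 16596472) (l 16627528)) (a (l 16638400) (l 16647776))) (b (a (l 16615640) (l 16645568)) (a (l 532747279) (l 533334287)))))))), by decide +kernel⟩

def k208_A00pp_022_s3 : ∃ t, chk3 f_A00pp_022_s3 t 11 12 14 = true :=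
  ⟨(c (a (b (b (a (l 16550008) (l 16577448)) (a (l 16571736) (a (l 16591664) (l 16603864)))) (a (b (a (l 16587696) (l 16600952)) (a (l 16611704) (l 16624264))) (b (a (l 16613360) (l 16624880)) (a (l 16635976) (b (l 16641176) (l 16652384)))))) (b (b (a (l 16559312) (l 16580032)) (a (a (l 16615112) (l 16625568)) (b (l 16593424) (l 16602840)))) (a (b (a (l 16635504) (l 16645432)) (a (b (l 16651408) (l 16662336)) (b (l 16661032) (l 16671824)))) (b (a (l 16633912) (l 16642984)) (a (a (l 16673328) (l 16656832)) (a (l 16661232) (l 16665576))))))) (a (b (b (a (l 16545320) (l 16573096)) (a (a (l 16560480) (l 16574584)) (a (l 16587816) (l 16600152)))) (a (b (a (l 16584072) (l 16597496)) (a (l 16608616) (l 16621336))) (b (a (l 16610056) (l 16621720)) (a (l 16643680) (l 16654632))))) (b (a (b (l 16565720) (a (l 16611536) (l 16622120))) (b (l 16586672) (b (l 16590008) (l 16620672)))) (a (b (a (l 16632472) (l 16642528)) (a (b (l 16648776) (l 16659952)) (b (l 16658520) (l 16669568)))) (b (a (l 16631128) (c (l 16640992)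 (l 16639640))) (a (b (l 16667856) (l 16678760)) (b (l 16676856) (l 16677144)))))))), by decide +kernel⟩

def k209_A00pp_022_s3 : ∃ t, chk3 f_A00pp_022_s3 t 11 12 15 = true :=
  ⟨(c (a (b (b (a (l 16540520) (l 16579104)) (a (a (l 16556192) (l 16570464)) (a (l 16583856) (l 16596344)))) (a (b (a (l 16580360) (l 16593952)) (a (l 16605448) (l 16623576))) (b (a (l 16606664) (l 16618464)) (a (b (l 16624288) (l 16636344)) (b (l 16635552) (l 16647272)))))) (b (a (b (a (l 16587288) (l 16598536)) (a (l 16607856) (l 16618560))) (b (a (l 16609024) (l 16618888)) (a (l 16628568) (l 16638176)))) (a (b (a (l 16629352) (l 16650016)) (a (b (l 16646056) (l 16657496)) (b (l 16655928) (l 16667240)))) (b (a (b (l 16643912) (l 16654512)) (b (l 16653296) (l 16663760))) (a (b (l 16665400) (l 16681808)) (b (l 16674520) (l 532794383))))))) (a (b (b (a (a (l 16527920) (l 16543032)) (a (l 16557248) (l 16570544))) (a (a (l 16551800) (l 16566248)) (a (l 16579792) (l 16592424)))) (a (b (a (l 16576560) (l 16590312)) (a (b (l 16595656)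 (l 16608696)) (a (l 16612064) (l 16618368)))) (b (a (l 16603176) (l 16620368)) (a (b (l 16621224) (l 16633544)) (b (l 16632624) (l 16644616)))))) (b (a (b (a (l 16582896) (l 16594272)) (a (l 16604072) (l 16614904))) (b (a (l 16604880) (l 16614848)) (a (l 16625024) (l 16645232)))) (a (b (a (b (l 16620504) (l 16631752)) (b (l 16630912) (l 16641952))) (a (b (l 16643264) (l 16654968)) (b (l 16653264) (l 16670096)))) (b (a (b (l 16640808) (l 16651696)) (b (l 16650312) (l 16661072))) (a (b (l 16662856) (a (l 16671976) (l 16676616))) (b (l 16677352) (l 532706063)))))))), by decide +kernel⟩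

def k210_A00pp_022_s3 : ∃ t, chk3 f_A00pp_022_s3 t 20 26 3 = true :=
  ⟨(a (c (b (a (c (l 16531328) (l 16523080)) (c (l 16547312) (l 16539640))) (a (c (l 16561368) (l 16543736)) (c (l 16576664) (l 16564816)))) (c (b (a (b (l 16506552) (l 16522408)) (l 16521160)) (a (b (l 16538552) (l 16554992)) (b (l 16555128) (l 16571176)))) (b (a (a (l 16501064) (l 16510064)) (a (l 16518936) (l 16527680))) (a (b (l 16530528) (l 16547552)) (b (l 16547680) (l 16564288)))))) (c (c (b (a (l 16562856) (l 16577944)) (a (l 16591504) (l 16605880))) (b (a (l 16555720) (l 16571296)) (a (l 16585392) (l 16600208)))) (c (b (a (l 16543032) (l 16559104)) (b (a (l 16571176) (l 16586640)) (a (l 16586816) (l 16601872)))) (b (a (a (l 16536272) (l 16544720)) (c (l 16548448) (l 16549992))) (b (a (l 16564248) (l 16580192)) (a (l 16580432) (l 16595936))))))), by decide +kernel⟩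

def k211_A00pp_022_s3 : ∃ t, chk3 f_A00pp_022_s3 t 20 27 3 = true :=
  ⟨(a (b (a (b (c (l 16571080) (c (l 16571800) (l 16564960))) (a (c (l 16594120) (l 16581928)) (c (l 16601552) (l 16589872)))) (c (a (l 16600880) (l 16610792)) (a (b (l 16580496) (l 16597672)) (b (l 16588368) (l 16605328))))) (a (c (b (c (l 16617016) (l 16611888)) (c (l 16633672) (l 16623912))) (b (a (l 16599920) (l 16607640)) (a (l 16607784) (l 16620512)))) (b (a (c (l 16625192) (l 16615216)) (c (l 16632184) (l 16612144))) (a (c (l 16641840) (l 16627848)) (c (l 16648624) (c (l 16642432) (l 16638080))))))) (b (c (a (b (l 16611088) (a (l 16623120) (l 16630056))) (b (l 16625120) (c (l 16642432) (l 16637992)))) (a (b (a (l 16596104) (l 16603672)) (a (l 16612824) (l 16620176))) (b (c (l 16617440) (l 16601544)) (a (l 16627392) (l 16634472))))) (c (b (a (a (l 16639048) (l 16645784)) (c (l 16657608) (l 16653696))) (a (a (l 16655288) (l 16661824)) (a (l 16668248) (l 16674544)))) (a (b (a (l 16624664) (l 16631792)) (a (c (l 16649376) (l 16645216))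 (c (l 16656192) (l 16652232)))) (b (a (c (l 16646200) (l 16641824)) (l 16650904)) (a (c (l 16662888) (l 16659112)) (c (l 16669448) (l 16665856)))))))), by decide +kernel⟩

def k212_A00pp_022_s3 : ∃ t, chk3 f_A00pp_022_s3 t 21 26 3 = true :=
  ⟨(a (b (c (c (a (l 16592544) (l 16606672)) (a (l 16586336) (l 16600856))) (a (c (l 16579832) (a (l 16569104) (l 16576920))) (c (l 16597376) (a (l 16584576) (l 16592104))))) (a (b (c (l 16610088) (a (l 16594840) (l 16602248))) (c (l 16624216) (a (l 16610016) (l 16617232)))) (c (b (l 16623880) (l 16637640)) (b (c (l 16615904) (l 16610272)) (c (l 16630368) (l 16619984)))))) (b (a (c (c (l 16620248) (l 16614800)) (b (c (l 16602264) (l 16596000)) (c (l 16615848) (l 16610088)))) (b (c (l 16624320) (c (l 16616008) (l 16604864))) (c (l 16636824) (c (l 16629224) (l 16623824))))) (a (b (c (l 16637096) (c (l 16629672) (l 16624416))) (a (c (l 16647344) (l 16638072)) (c (l 16653592) (l 16644672)))) (b (c (l 16628624) (c (l 16642680) (l 16637776))) (c (c (l 16664584) (l 16660592))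 (c (l 16656384) (l 16651960))))))), by decide +kernel⟩

def k213_A00pp_022_s3 : ∃ t, chk3 f_A00pp_022_s3 t 21 27 3 = true :=
  ⟨(a (b (b (a (c (l 16643888) (c (l 16631544) (l 16621288))) (a (c (l 16648472) (l 16639448)) (c (l 16654872) (l 16646208)))) (a (a (c (l 16650144) (l 16630936)) (c (l 16656600) (l 16648240))) (a (c (l 16662928) (l 16654928)) (c (l 16669136) (l 16661488))))) (b (b (a (a (l 531734799) (l 531799055)) (a (l 531863823) (l 531929103))) (a (a (l 531714575) (l 531778575)) (a (l 531843343) (l 531908879)))) (b (a (a (l 531693583) (l 531757839)) (a (l 531822607) (l 531887887))) (a (a (l 531672591) (l 531736591)) (a (l 531801359) (l 531866639)))))) (b (a (c (b (c (l 16666080) (l 16662216)) (c (l 16679816) (l 16676432))) (b (c (l 16658152) (l 16656496)) (a (l 16670512) (l 531922447)))) (b (a (c (l 16673056) (l 16665424)) (c (l 16678736) (l 16674048))) (a (c (l 16686736) (l 531981583)) (c (l 16692224) (l 532037135))))) (a (b (a (c (l 532406287) (l 531819791)) (c (l 532467727) (l 531881743)))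 (a (a (l 531926031) (l 531957263)) (c (l 532425487) (l 531838479)))) (b (a (c (l 532525583) (l 531939599)) (c (l 532579087) (l 531992847))) (a (l 531521039) (c (l 532532239) (l 531944207))))))), by decide +kernel⟩

def k214_A00pp_022_s3 : ∃ t, chk3 f_A00pp_022_s3 t 22 13 3 = true :=
  ⟨(b (a (b (c (a (a (l 16618896) (l 16624832)) (b (l 16627440) (l 16639224))) (c (a (b (l 16628952) (l 16641800)) (b (l 16641056) (l 16653544))) (a (b (l 16623384) (l 16636736)) (b (l 16635816) (l 16651416))))) (c (a (b (l 16640344) (c (l 16675776) (l 16672104))) (b (c (l 16674104) (l 16670296)) (l 532063759))) (a (b (c (l 16654888) (l 16650312)) (c (l 16668216) (l 16669360))) (b (a (l 16661352) (l 16666904)) (a (l 16679872) (l 532312847)))))) (b (c (a (c (l 16646024) (b (l 16656952) (l 16668624))) (b (b (l 16645496) (l 16651008)) (l 532569359))) (a (b (a (l 16649720) (l 16657800)) (c (l 16664416) (a (l 16657264) (l 16662632)))) (b (c (l 16662712) (a (l 16655432) (l 16660592))) (c (l 16653568) (a (l 16667824) (l 16672896))))))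 (c (a (b (b (l 16658400) (l 16664312)) (l 532676879)) (b (l 532524047) (l 532745487))) (a (a (b (a (l 16670912) (l 16673528)) (l 532617743)) (b (l 532435215) (l 532651791))) (a (b (l 532468495) (l 532416015)) (b (l 532499983) (l 532446735))))))) (a (b (a (b (c (l 531930895) (a (l 16682472) (l 532180495))) (c (l 532157199) (a (l 532087823) (l 532133135)))) (b (c (l 532286991) (a (l 532223503) (l 532529679))) (c (l 532507663) (b (l 532202767) (l 532176399))))) (a (b (a (b (l 532484879) (l 532460559)) (l 531976719)) (a (l 531613967) (l 532457999))) (c (b (l 532725263) (l 532669455)) (b (l 532134671) (l 532075791))))) (a (a (b (b (l 531989519) (l 532139791)) (b (l 532623119) (l 532564495))) (b (b (l 531956751) (l 532173583)) (b (l 532656399) (l 532328719)))) (b (c (b (l 532697103) (l 532915727)) (b (c (l 532460047) (l 532289807)) (l 532052495))) (b (c (l 532863247) (l 532263951)) (c (l 532805135) (l 532201743))))))), by decide +kernel⟩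

def k215_A00pp_022_s3 : ∃ t, chk3 f_A00pp_022_s3 t 23 13 3 = true :=
  ⟨(b (b (a (c (a (c (l 16685936) (b (l 16655696) (l 16666888))) (b (l 532738575) (l 532692751))) (a (b (c (l 532452111) (a (l 16665648) (l 16670584))) (c (l 532674063) (a (l 16677864) (l 16682720)))) (b (c (l 533045519) (a (l 16675408) (l 16680136))) (c (l 532997903) (a (l 16687472) (l 16692136)))))) (c (a (b (l 533061135) (l 533282319)) (b (l 533380111) (l 533331983))) (a (b (c (l 533095951) (a (l 16684768) (l 532938767))) (c (l 533046799) (c (l 532652047) (l 532564495)))) (b (c (l 533142287) (c (l 532745743) (l 532656911))) (c (l 533092367) (b (l 532663823) (l 532637455))))))) (a (c (b (a (l 533124623) (l 533182223)) (a (l 533076495) (l 533133071))) (a (a (b (l 532529679) (l 532744207)) (b (l 532557839) (l 532771855))) (a (b (l 532852751) (l 532797455)) (b (l 532877327) (l 532821519))))) (c (a (b (l 533233679) (l 533183247)) (b (l 533282831) (l 533232143))) (a (b (c (l 532995343) (l 532554767)) (c (l 532940047) (l 532496143)))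 (a (b (l 532943375) (l 532885775)) (b (l 532697615) (l 532909071))))))) (a (b (c (b (a (l 533027087) (l 533082895)) (a (l 532976655) (l 533031695))) (a (b (b (l 532716047) (l 532688143)) (b (l 532659983) (l 532631567))) (b (l 532483599) (l 532426511)))) (b (a (c (l 532923919) (l 532587791)) (c (l 532978959) (l 532368143))) (a (c (l 532864527) (l 532523535)) (l 531946255)))) (a (b (b (c (l 533132047) (l 532258319)) (c (l 532801551) (b (l 532751631) (l 532183311)))) (b (c (l 532483343) (a (l 532669199) (l 532148751))) (c (l 532971535) (a (l 532335375) (l 532362511))))) (b (b (c (l 533182479) (a (l 532826895) (l 532584975))) (b (c (l 533146127) (l 532126479)) (c (l 533122063) (l 532099087)))) (b (c (l 533085967) (a (l 532178447) (l 532744719))) (a (l 532041999) (l 4))))))), by decide +kernel⟩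

def k216_A00pp_022_s3 : ∃ t, chk3 f_A00pp_022_s3 t 40 28 3 = true :=
  ⟨(b (c (a (b (a (l 16640128) (l 16646944)) (a (c (l 16664936) (l 16661560)) (c (l 16671448) (l 16668264)))) (b (a (c (l 16660672) (l 16657064)) (l 16665464)) (a (c (l 16677848) (l 16674832)) (c (l 16684120) (l 16681280))))) (a (b (a (c (l 16639184) (l 16634856)) (c (l 16646312) (l 16642200))) (a (b (l 16651384) (l 16650592)) (c (l 16664936) (l 16671960)))) (b (a (c (l 16653312) (l 16649392)) (c (l 16660160) (l 16656440))) (a (c (l 16671688) (l 16673664)) (c (l 16678320) (l 16675232)))))) (a (b (a (b (c (l 16676944) (l 16665624)) (a (c (l 16684584) (l 16679048)) (l 531372815))) (a (b (l 531413263) (l 531402255)) (b (l 531442959) (l 531431951)))) (a (b (a (l 531334927) (l 531364111)) (a (l 531328783) (l 531357967))) (b (a (l 531393551) (l 531422735)) (a (l 531387151) (l 531416335))))) (b (a (a (b (l 531472655) (l 531461391)) (b (l 531502607) (l 531491087))) (b (a (l 531532559) (l 531562511)) (a (l 531520783) (l 531550479)))) (a (b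 (a (l 531452175) (l 531481615)) (a (l 531445519) (l 531474703))) (b (a (l 531511055) (l 531540495)) (a (l 531503887) (l 531533327))))))), by decide +kernel⟩

def k217_A00pp_022_s3 : ∃ t, chk3 f_A00pp_022_s3 t 41 28 3 = true :=
  ⟨(b (a (b (a (b (c (l 16667704) (l 16660632)) (c (l 16676128) (l 16659160))) (b (c (l 16674088) (l 16667376)) (c (l 16682408) (l 16671040)))) (a (a (b (l 531621647) (l 531606287)) (b (l 531652367) (l 531636751))) (b (c (l 16690824) (l 531801615)) (c (l 16699328) (l 531518479))))) (a (b (b (l 531258127) (l 531507983)) (b (l 531490575) (l 531474447))) (b (b (l 531589391) (l 531570447)) (b (l 531552783) (l 531536143))))) (b (a (a (b (c (l 16701976) (l 531712783)) (a (l 531580175) (l 531610127))) (b (c (l 531822095) (l 531505167)) (c (l 531808015) (l 531493391)))) (a (b (c (l 531882511) (l 531566095)) (c (l 531867919) (l 531553807))) (b (l 531520783) (l 531506703)))) (a (a (b (c (l 531736847) (l 531424527)) (c (l 531727375) (l 531418639))) (b (c (l 531795727) (l 531484175)) (c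 (l 531785999) (l 531477263)))) (a (b (c (l 531855119) (l 531543567)) (l 531962383)) (b (l 531494415) (l 531484431)))))), by decide +kernel⟩

def k218_A00pp_022_s3 : ∃ t, chk3 f_A00pp_022_s3 t 20 29 3 = true :=
  ⟨(a (b (b (a (a (b (a (l 531326223) (l 531355151)) (a (l 531326735) (l 531355919))) (b (a (l 531384335) (l 531413263)) (a (l 531385103) (l 531414031)))) (a (b (a (l 531442447) (l 531471375)) (a (l 531443215) (l 531472399))) (b (a (l 531500559) (l 531529487)) (a (l 531501327) (l 531530511))))) (a (a (b (a (l 531327759) (l 531356943)) (a (l 531328015) (l 531357199))) (b (a (l 531385871) (l 531415055)) (a (l 531386383) (l 531415567)))) (a (b (a (l 531444239) (l 531473423)) (a (l 531445007) (l 531474191))) (b (a (l 531502607) (l 531531791)) (l 531517199))))) (a (b (a (b (a (l 531328015) (l 531357199)) (a (l 531327247) (l 531356687))) (b (a (l 531386383) (l 531415823)) (a (l 531386127) (l 531415311)))) (a (b (a (l 531326223) (l 531355663)) (a (l 531324687) (l 531354127))) (b (a (l 531385103) (l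 531414543)) (l 4)))) (b (a (b (l 531727375) (l 531458575)) (b (l 531517455) (l 531517455))) (a (b (l 531457807) (l 4)) (l 4))))) (b (a (b (a (b (c (l 531721743) (l 531416591)) (l 531841807)) (b (c (l 531779855) (l 531474703)) (l 531631631))) (a (b (l 531574799) (l 531575567)) (b (l 531632911) (l 531633935)))) (b (a (b (l 531688719) (l 531689743)) (b (l 531478543) (l 531479311))) (a (b (l 531691279) (l 531423759)) (b (l 531480847) (l 531482127))))) (b (b (a (a (l 531576079) (l 531634447)) (a (l 531692815) (l 4))) (a (a (l 531576079) (l 4)) (l 4))) (l 4)))), by decide +kernel⟩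

def k219_A00pp_022_s3 : ∃ t, chk3 f_A00pp_022_s3 t 21 14 3 = true :=
  ⟨(b (a (b (b (a (a (b (l 531652623) (l 531633423)) (b (l 531716367) (l 531697167))) (a (b (l 531781135) (l 531761679)) (a (l 531820303) (l 531853071)))) (a (a (b (l 531615503) (l 531598351)) (b (l 531678735) (l 531661327))) (a (b (l 531742991) (l 531725327)) (a (l 531782927) (l 531815695))))) (b (a (a (b (l 531582479) (l 531567887)) (b (l 531645199) (l 531629839))) (a (a (l 531684879) (l 531716879)) (a (l 531749391) (l 532050447)))) (b (a (a (l 531554831) (l 531616015)) (a (l 531946767) (l 532010767))) (a (a (l 531543823) (l 531603727)) (a (l 531933199) (l 531465743)))))) (b (a (c (b (a (l 532323599) (l 532382735)) (a (l 532284943) (l 532341519))) (b (a (b (l 532015631) (l 531995919)) (l 531795727)) (a (b (l 531977231) (l 531959311)) (l 531755279)))) (b (a (l 531475215) (l 531787279)) (a (c (l 532387599) (l 531799823)) (l 532271631)))) (a (b (a (c (l 531981583) (l 531666191)) (c (l 532027407) (l 531710735))) (a (b (l 531798543)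 (l 531241999)) (l 531829007))) (a (b (l 531914511) (l 531866895)) (b (l 532220687) (l 532171535)))))) (b (a (a (b (a (b (l 531536655) (l 531805711)) (b (l 531863567) (l 531863567))) (b (a (l 531807247) (l 531865103)) (l 4))) (b (a (b (l 531650063) (l 531921167)) (b (a (l 531705871) (l 531728143)) (a (l 531691791) (l 4)))) (l 4))) (b (a (b (a (l 531757583) (l 531795727)) (l 4)) (l 4)) (l 4))) (l 4))), by decide +kernel⟩

def k220_A00pp_022_s3 : ∃ t, chk3 f_A00pp_022_s3 t 10 15 3 = true :=
  ⟨(l 4), by decide +kernel⟩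

def k221_A00pp_022_s3 : ∃ t, chk3 f_A00pp_022_s3 t 11 7 3 = true :=
  ⟨(b (a (b (a (b (a (a (b (l 532363535) (l 532309263)) (b (l 532400911) (l 532345615))) (b (c (l 532612111) (l 532015887)) (c (l 532555791) (l 531689743)))) (a (b (a (l 532257039) (l 532291855)) (c (l 532111375) (l 531518991))) (b (a (l 532325391) (l 532357391)) (l 4)))) (b (a (b (a (l 532235791) (l 531998991)) (c (l 532622351) (a (l 532273679) (l 532302351)))) (c (b (l 532743951) (l 532683535)) (b (l 531868431) (l 532073487)))) (a (b (c (l 532565007) (a (l 532215567) (l 4))) (l 4)) (l 4)))) (l 4)) (b (a (b (b (a (l 532098063) (l 531879951)) (l 4)) (l 4)) (l 4)) (l 4))) (l 4)), by decide +kernel⟩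

def k222_A00pp_022_s3 : ∃ t, chk3 f_A00pp_022_s3 t 3 2 8 = true :=
  ⟨(a (b (l 6) (a (a (b (l 6) (a (b (l 16552112) (l 16591456)) (b (l 16558032) (l 16599616)))) (b (b (l 6) (l 16526976)) (b (a (l 16565184) (l 16573776)) (a (l 16608920) (l 16619568))))) (a (b (a (l 16517592) (l 16610560)) (a (b (l 16584072) (l 16631992)) (b (l 16596208) (l 16729848)))) (b (a (l 16621528) (l 16634120)) (b (a (l 16609896) (l 16624832)) (l 533390351)))))) (b (a (b (l 6) (a (b (l 6) (l 16501696)) (b (l 16489192) (l 16530536)))) (b (a (l 16545152) (a (l 16485416) (l 16502976))) (a (b (l 16520616) (l 16669112)) (b (l 16640528) (l 532163855))))) (b (a (a (b (l 16630648) (l 532213007)) (b (l 532077583) (l 532022799))) (a (b (l 531913999) (l 531864847)) (b (l 531789583) (a (l 531772943) (l 531720463))))) (a (a (b (l 532162575) (l 532118031)) (b (l 531981583) (l 531949583))) (a (b (l 531824655) (l 531810575)) (b (a (l 531743503) (l 531696655)) (l 531697423))))))), by decide +kernel⟩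

def k223_A00pp_022_s3 : ∃ t, chk3 f_A00pp_022_s3 t 3 3 8 = true :=
  ⟨(b (a (a (b (a (a (b (a (l 16630880) (l 16677744)) (b (a (l 16663560) (l 16669328)) (a (l 533025295) (l 532951823)))) (b (a (l 16682936) (l 16688368)) (b (a (l 16675312) (l 16681560)) (a (l 532875023) (l 532797967))))) (b (a (a (l 16694096) (l 16700088)) (a (l 16706480) (l 16713280))) (a (b (l 533277455) (a (l 532721167) (l 532643599))) (a (b (l 16702120) (l 532569359)) (b (l 16751648) (l 532504335)))))) (a (b (a (b (a (l 532685071) (b (l 16710744) (l 532859919))) (a (b (l 532889359) (l 532834063)) (b (l 532814351) (l 532758799)))) (b (a (b (l 16728176) (l 532785167)) (l 532729615)) (b (a (l 532741391) (l 532670479)) (l 532648719)))) (b (a (a (b (l 532775439) (a (l 532737551) (l 532698383))) (a (l 532688399) (l 532650767))) (l 532556815)) (a (a (b (a (l 532679951) (l 532640271)) (l 4)) (l 4)) (l 4)))) (b (a (b (a (l 532655375) (b (l 532595215) (l 532558863))) (a (b (l 532604175) (l 532548879)) (b (l 532524559) (l 532487951)))) (b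 (a (b (l 532525327) (l 532493839)) (l 532446735)) (b (a (l 532462863) (l 532401935)) (l 4)))) (b (a (a (l 532447759) (l 4)) (l 4)) (l 4))))) (b (a (b (a (a (l 16720504) (l 16728072)) (l 532413455)) (a (b (l 532463887) (l 532412431)) (l 532323343))) (b (a (l 532303631) (l 532201999)) (a (l 532219151) (l 532123663)))) (b (a (b (l 532835087) (l 4)) (l 4)) (l 4)))) (b (a (a (b (l 532063503) (l 531995151)) (b (l 531909391) (l 4))) (l 4)) (l 4))) (l 4)), by decide +kernel⟩

def k224_A00pp_022_s3 : ∃ t, chk3 f_A00pp_022_s3 t 3 2 9 = true :=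
  ⟨(a (b (l 6) (a (a (b (l 6) (a (b (l 16560416) (l 16681608)) (b (l 16565808) (l 16605368)))) (b (b (l 6) (l 16452432)) (a (b (l 16572464) (l 16614192)) (b (l 16580568) (l 16624360))))) (a (b (b (l 16511000) (l 16509792)) (a (b (l 16590304) (l 16636240)) (b (l 16601816) (l 16733512)))) (b (a (l 16629888) (l 16641744)) (b (a (l 16614840) (l 16629128)) (a (l 16706280) (l 532381199))))))) (b (a (b (l 6) (a (b (l 6) (l 16511504)) (a (l 16511960) (l 16610088)))) (b (a (l 16554240) (a (l 16493160) (l 16509832))) (a (a (l 16625576) (l 16642208)) (b (l 16646720) (l 532310031))))) (b (a (a (b (l 16638344) (l 532352271)) (b (l 532227599) (l 532157455))) (a (b (l 532059919) (l 531994639)) (b (l 531931407) (a (l 531899663) (l 531844879))))) (a (a (b (l 532286479) (l 532227343)) (b (l 532099343) (l 532051215))) (a (b (l 531936015) (l 531904271)) (b (a (l 531850255) (l 531800079)) (l 531782671))))))), by decide +kernel⟩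

def k225_A00pp_022_s3 : ∃ t, chk3 f_A00pp_022_s3 t 3 3 9 = true :=
  ⟨(b (a (a (b (a (a (b (b (l 16627376) (l 16606184)) (b (a (l 16666952) (l 16672456)) (a (l 533136911) (l 533062415)))) (b (b (l 16636664) (a (l 16655864) (l 16661320))) (b (a (l 16678200) (l 16684208)) (a (l 532716303) (l 532907023))))) (b (a (b (l 16647136) (l 16691008)) (a (l 532821775) (l 16716208))) (a (b (a (l 16690504) (l 16697128)) (a (l 532829967) (l 532752655))) (a (b (l 16704096) (l 532678671)) (b (l 16732424) (l 532611855)))))) (a (b (a (b (a (l 532529167) (b (l 533010191) (l 532971279))) (a (b (l 533004559) (l 532954127)) (b (l 532927759) (l 532876815)))) (b (a (b (l 532932879) (l 532894735)) (l 532837391)) (b (a (l 532852751) (l 532779535)) (l 532494863)))) (a (b (a (b (l 532900623) (a (l 532867855) (l 532827919))) (a (l 532814863) (l 532776207))) (a (b (a (l 532814863) (l 532774671)) (l 4)) (l 4))) (b (l 532679951) (l 4)))) (b (a (b (a (l 532762383) (b (l 532703247) (l 532666895))) (a (b (l 532710415) (l 532659727))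 (b (l 532631823) (l 532595215)))) (b (a (b (l 532632335) (l 532599823)) (l 532550927)) (b (a (l 532567311) (l 532503823)) (l 4)))) (b (a (a (l 532569615) (l 4)) (l 4)) (l 4))))) (b (a (b (a (a (l 16723160) (l 16730456)) (l 532524559)) (a (b (l 532572175) (l 532516879)) (l 532424975))) (b (a (l 532410639) (l 532304655)) (a (l 532315919) (l 532215311)))) (b (a (b (a (l 532457999) (l 532343311)) (l 4)) (l 4)) (l 4)))) (b (a (a (b (l 532159247) (l 532347151)) (b (l 531995919) (l 4))) (l 4)) (l 4))) (l 4)), by decide +kernel⟩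

def k226_A00pp_022_s3 : ∃ t, chk3 f_A00pp_022_s3 t 3 2 10 = true :=
  ⟨(a (b (l 6) (a (a (b (l 6) (b (l 16592336) (a (l 16562576) (l 16569696)))) (b (b (l 6) (l 16546480)) (a (b (l 16580408) (b (l 16609704) (l 16630200))) (b (l 16588008) (l 16587696))))) (a (b (b (l 16522624) (l 16539728)) (a (b (l 16597168) (l 16682888)) (b (l 16608008) (l 16695640)))) (a (b (l 16639072) (b (l 16620328) (l 532625167))) (b (l 16650136) (b (l 16633920) (l 532510735))))))) (b (b (a (l 6) (a (l 16564392) (a (l 16501888) (l 16517608)))) (a (a (b (l 6) (l 16522272)) (b (l 16509264) (l 16631704))) (a (a (l 16633992) (l 16649768)) (b (l 16653696) (l 532474383))))) (b (a (a (b (l 16646832) (l 533043727)) (b (l 532393999) (l 532308495))) (a (b (l 532223759) (l 532141839)) (b (l 532092175) (a (l 532044047) (l 531987471))))) (a (a (b (l 532694031) (l 532351759)) (b (l 532232975) (l 532168463))) (a (b (l 532063759) (l 532014351)) (b (a (l 531974159) (l 531921679)) (l 532421903))))))), by decide +kernel⟩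

def k227_A00pp_022_s3 : ∃ t, chk3 f_A00pp_022_s3 t 3 3 10 = true :=
  ⟨(b (a (a (b (a (a (b (l 16663600) (b (l 16673216) (a (l 533258511) (l 532646415)))) (b (b (l 16641464) (a (l 16659880) (l 16665088))) (b (a (l 16660392) (l 16666152)) (a (l 532836623) (l 533026831))))) (b (a (b (l 16651456) (a (l 16670584) (l 16676424))) (a (l 532951055) (l 532878607))) (a (b (a (l 16672208) (l 532938255)) (a (l 532950031) (l 532873743))) (a (b (l 532863503) (l 532800271)) (b (l 532793103) (l 532732175)))))) (a (b (a (b (a (l 533188367) (b (l 533131023) (l 533092879))) (a (l 533104911) (b (l 533051919) (l 533005583)))) (b (a (b (l 533052687) (l 533015055)) (l 532688143)) (b (a (l 532974863) (l 532900111)) (l 532352783)))) (a (b (a (b (l 533036559) (a (l 533009167) (l 532968719))) (a (l 532952591) (l 532913423))) (a (b (a (l 532960783) (l 532920335)) (l 4)) (l 4))) (b (l 532815119) (l 4)))) (b (a (b (a (l 532881167) (b (l 532823311) (l 532787215))) (b (a (l 532828175) (l 532751631)) (a (l 532782607) (l 532714511))))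 (b (a (b (l 532752143) (l 532718351)) (l 532668175)) (b (a (l 532684303) (l 532618767)) (l 4)))) (b (a (a (l 532704527) (l 4)) (l 4)) (l 4))))) (b (a (b (a (b (l 16675568) (l 532750095)) (l 532649231)) (a (b (l 532693519) (l 532634127)) (l 532540175))) (b (a (l 532531471) (l 532421647)) (a (l 532426511) (l 532321039)))) (b (a (b (a (l 532571663) (l 532452367)) (l 4)) (l 4)) (l 4)))) (b (a (a (b (l 532270095) (l 532982031)) (b (l 532097807) (l 4))) (l 4)) (l 4))) (l 4)), by decide +kernel⟩

def k228_A00pp_022_s3 : ∃ t, chk3 f_A00pp_022_s3 t 3 2 11 = true :=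
  ⟨(a (b (l 6) (a (a (b (l 6) (b (l 16612200) (a (l 16611848) (l 16576480)))) (b (a (l 6) (l 16460096)) (b (a (l 16589024) (l 16596096)) (a (b (l 16616544) (l 16635952)) (l 16593472))))) (a (b (b (l 16535216) (l 16507544)) (b (a (l 16604656) (l 16614792)) (a (a (l 16643304) (l 16649008)) (l 16700136)))) (a (b (l 16649072) (b (l 16626360) (l 532771855))) (b (l 16659304) (b (l 16639208) (l 532654607))))))) (b (b (a (l 6) (a (l 16575624) (a (l 16511592) (l 16526304)))) (a (a (b (l 6) (l 16534016)) (b (l 16520808) (l 16641656))) (a (a (l 16643264) (l 16658136)) (b (l 16661472) (l 532657167))))) (b (a (a (b (l 16656120) (l 533482767)) (b (l 532577295) (l 532744207))) (a (b (l 532405007) (l 532306447)) (b (l 532271375) (a (l 532206607) (l 532148751))))) (a (a (b (l 533385231) (l 532759567)) (b (l 532919567) (l 532301583))) (a (b (l 532476943) (l 532140559)) (b (a (l 532115727) (l 532060943)) (l 533346831))))))), by decide +kernel⟩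

def k229_A00pp_022_s3 : ∃ t, chk3 f_A00pp_022_s3 t 3 3 11 = true :=
  ⟨(b (a (a (b (a (a (b (b (l 16638440) (l 16657304)) (b (l 16687544) (a (l 16695024) (l 16700520)))) (b (b (l 16604736) (l 16666664)) (b (a (l 16663832) (l 16669328)) (a (l 16711520) (l 533158159))))) (b (a (b (l 16614224) (a (l 16674440) (l 16680032))) (a (l 533092623) (l 533020943))) (a (b (a (l 16675128) (l 533073679)) (a (l 533081871) (l 533007119))) (a (b (l 533000463) (l 532934671)) (b (l 532930063) (l 532865551)))))) (a (b (a (b (a (l 533320975) (b (l 16716816) (l 16728016))) (a (l 533646095) (b (l 533186319) (l 533145359)))) (b (a (b (l 533183247) (l 16734472)) (b (l 533105935) (l 533069583))) (b (l 533202191) (l 533027343)))) (a (b (a (b (l 533183247) (a (l 533161743) (l 533121039))) (b (l 532834831) (l 533060367))) (a (b (a (l 533118223) (l 533077775)) (l 4)) (l 4))) (b (l 532962575) (l 4)))) (b (a (b (a (l 533011727) (b (l 532955663) (l 532919823))) (b (a (l 532957967) (l 532883727)) (a (l 532917519) (l 532846607)))) (b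 (a (b (l 532884239) (l 532849423)) (l 532797967)) (b (a (l 532814095) (l 532746255)) (l 4)))) (b (a (a (l 532852239) (l 4)) (l 4)) (l 4))))) (b (a (b (a (b (l 16679168) (l 532889103)) (l 532787727)) (a (b (l 532828175) (l 532764687)) (l 532668943))) (b (a (l 532666639) (l 532552975)) (a (l 532550927) (l 532441103)))) (b (a (b (a (l 532698383) (l 532574735)) (l 4)) (l 4)) (l 4)))) (b (a (a (b (l 532395535) (a (l 532339215) (l 4))) (b (l 532215055) (l 4))) (l 4)) (l 4))) (l 4)), by decide +kernel⟩

def k230_A00pp_022_s3 : ∃ t, chk3 f_A00pp_022_s3 t 3 2 12 = true :=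
  ⟨(a (b (l 6) (b (b (a (l 6) (a (l 16548776) (l 16562600))) (a (a (l 6) (l 16569304)) (a (l 16518088) (a (l 16593800) (l 16604064))))) (a (a (a (b (l 16589416) (l 16619712)) (b (l 16593184) (l 16625744))) (a (b (l 16514424) (l 16633048)) (b (l 16604848) (l 16599744)))) (a (a (b (l 16612776) (c (l 16608344) (l 16611272))) (b (l 16622176) (l 532791567))) (b (a (l 16632936) (l 16728880)) (a (l 532933135) (l 532813327))))))) (b (b (a (l 6) (a (l 16587912) (a (l 16522280) (l 16535920)))) (a (a (a (l 16526464) (l 16535168)) (b (l 16533368) (l 16652472))) (a (a (l 16653400) (l 16667296)) (b (l 16670024) (l 533126671))))) (b (a (a (b (l 16666208) (a (l 16615664) (l 16628480))) (b (l 532777231) (l 533196559))) (a (b (l 532603919) (l 532488207)) (b (l 532469007) (a (l 532387087) (l 532328719))))) (a (b (a (a (l 16700184) (l 532697615)) (l 533890575)) (a (l 532377359) (l 532450319))) (a (b (l 533175567) (l 532283663)) (b (a (l 532274703) (l 532218383)) (a (l 532168207) (l 4)))))))), by decide +kernel⟩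

def k231_A00pp_022_s3 : ∃ t, chk3 f_A00pp_022_s3 t 3 3 12 = true :=
  ⟨(b (a (a (b (a (a (b (b (l 16644616) (l 16662432)) (b (a (l 16678904) (l 16683584)) (a (l 16698368) (l 533455887)))) (b (b (l 16652304) (l 16671240)) (b (a (l 16688520) (l 16693752)) (a (l 533377551) (l 533300495))))) (b (a (b (l 16661272) (l 16681240)) (b (l 16629576) (l 533179663))) (a (b (l 533524239) (a (l 533225487) (l 533152783))) (a (b (l 533150223) (l 533081871)) (b (l 533080079) (l 533011727)))))) (a (b (a (b (a (b (l 16713584) (l 16724056)) (b (l 16719192) (l 533367823))) (a (b (l 533412111) (l 533371151)) (b (l 533331727) (l 533296143)))) (b (a (b (l 16725064) (l 533288719)) (l 533228815)) (b (a (l 533252367) (l 533175311)) (l 533176591)))) (a (b (a (b (l 533325839) (a (l 533264399) (l 533284623))) (b (l 533260559) (l 533223951))) (a (b (a (l 533218575) (l 533246735)) (l 4)) (l 4))) (b (l 533122063) (l 4)))) (b (a (b (b (l 533136911) (a (l 533136655) (l 533064975))) (b (a (l 533099791) (l 533028367)) (l 533026319)))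 (b (a (b (l 533029391) (l 533395983)) (l 532941071)) (b (a (l 533224975) (l 532887055)) (l 4)))) (b (a (a (l 533013007) (l 4)) (l 4)) (l 4))))) (b (a (b (a (b (l 16662128) (l 533041679)) (l 532671503)) (a (b (l 532976399) (l 532640271)) (l 532811279))) (b (a (l 532815887) (l 532698895)) (a (l 532421135) (l 532575503)))) (b (a (b (a (l 532838671) (l 532710671)) (l 4)) (l 4)) (l 4)))) (b (a (a (b (l 532267791) (a (l 532469007) (l 4))) (b (l 532616463) (l 4))) (l 4)) (l 4))) (l 4)), by decide +kernel⟩

def k232_A00pp_022_s3 : ∃ t, chk3 f_A00pp_022_s3 t 3 2 13 = true :=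
  ⟨(a (b (l 6) (b (a (a (l 6) (b (l 6) (l 16581976))) (a (b (l 16479424) (l 16592352)) (a (b (l 16571840) (l 16603904)) (b (l 16579328) (l 16613264))))) (a (a (a (b (l 16595576) (l 16622640)) (b (l 16603680) (l 16633592))) (a (b (l 16608280) (l 16640376)) (b (l 16614272) (l 16648464)))) (a (a (b (l 16537664) (l 533372431)) (b (l 16546280) (l 532432399))) (b (a (l 16598136) (l 16693232)) (a (l 533108751) (l 532986895))))))) (b (a (b (l 6) (a (b (l 6) (l 16476520)) (b (l 16546928) (l 16580272)))) (b (a (a (l 6) (l 16522600)) (a (l 16533952) (l 16546456))) (a (b (l 16652760) (l 16688992)) (b (l 16679360) (l 533882895))))) (b (a (a (b (l 16677088) (a (l 16623960) (l 16635888))) (b (l 532725519) (a (l 16732856) (l 16705040)))) (a (b (l 532820239) (l 533223951)) (b (l 533222159) (a (l 532585487) (l 532526863))))) (a (a (b (a (l 16705640) (l 532882191)) (a (l 532871951) (l 532764175))) (b (a (l 532779279) (l 532683791)) (l 532346895))) (a (b (a (l 532585487) (l 532514319)) (l 532443407)) (b (a (l 532451343)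 (l 532393743)) (a (l 532324111) (l 4)))))))), by decide +kernel⟩

def k233_A00pp_022_s3 : ∃ t, chk3 f_A00pp_022_s3 t 6 6 13 = true :=
  ⟨(a (b (a (a (b (b (l 16645688) (a (l 16658232) (l 16666872))) (b (a (l 16676432) (l 16684856)) (a (b (l 16690832) (l 16700864)) (b (l 16699120) (l 16709080))))) (b (b (l 16658352) (a (l 16674024) (l 16678424))) (b (a (l 16692520) (l 16697464)) (a (b (l 16707024) (l 16711800)) (l 533185551))))) (b (a (b (l 16666792) (a (l 16683136) (l 16688208))) (b (l 16676480) (l 16691160))) (a (b (a (l 16702720) (l 16708336)) (a (l 533380879) (l 533310735))) (a (b (l 16714264) (l 533241615)) (b (l 16720440) (l 533170959)))))) (a (b (a (b (a (b (l 16711216) (l 533307663)) (b (l 533413391) (l 533368591))) (a (b (l 533260303) (l 533211663)) (b (l 533322511) (l 533274383)))) (b (a (b (l 533473807) (l 533429007)) (b (l 533400847) (l 533365007))) (b (a (l 533382927) (l 533330191)) (a (l 533334543) (l 533300751))))) (a (b (a (b (l 533163023) (a (l 533099023) (l 532862223))) (b (a (l 533210639)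 (l 533241103)) (l 533176079))) (a (b (a (l 533050383) (l 533081615)) (l 4)) (l 4))) (b (l 533285903) (l 4)))) (b (a (b (a (l 533308175) (b (l 533257999) (l 533222671))) (a (b (l 533253391) (l 533224719)) (b (l 533185551) (l 533148431)))) (b (a (b (l 533187343) (a (l 533168399) (l 533132559))) (l 532828431)) (b (a (a (l 533130255) (l 533094159)) (l 533040655)) (l 4)))) (b (a (a (l 533186831) (l 4)) (l 4)) (l 4))))) (b (a (b (a (a (l 16715856) (l 533207823)) (l 532569359)) (a (b (l 532869391) (a (l 533101327) (l 533033231))) (l 532430863))) (b (a (l 532979471) (l 532859663)) (a (b (l 532879119) (l 532808719)) (l 532724495)))) (b (a (b (a (l 532992271) (l 532860687)) (l 4)) (l 4)) (l 4)))), by decide +kernel⟩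

def k234_A00pp_022_s3 : ∃ t, chk3 f_A00pp_022_s3 t 7 6 13 = true :=
  ⟨(b (a (a (b (l 531886863) (a (l 532614159) (l 4))) (b (a (l 532543759) (l 532453391)) (l 4))) (l 4)) (l 4)), by decide +kernel⟩

def k235_A00pp_022_s3 : ∃ t, chk3 f_A00pp_022_s3 t 3 7 13 = true :=
  ⟨(l 4), by decide +kernel⟩

def k236_A00pp_022_s3 : ∃ t, chk3 f_A00pp_022_s3 t 3 2 14 = true :=
  ⟨(a (b (l 6) (a (a (b (l 6) (a (b (l 16584384) (b (l 16605944) (l 16621792))) (b (l 16603664) (b (l 16624616) (l 16639976))))) (a (b (l 6) (b (l 16618928) (b (l 16640416) (l 16656064)))) (b (l 16585864) (b (l 16624368) (a (l 16653752) (l 16657824)))))) (a (b (b (l 16578832) (l 16604504)) (a (b (l 16630968) (l 16664408)) (b (l 16638760) (l 16700432)))) (b (a (b (l 16586024) (l 16614760)) (b (l 16592520) (l 16623160))) (b (a (l 16605832) (l 533312015)) (a (l 533299215) (l 533175567))))))) (b (a (b (l 6) (a (b (l 6) (l 16575064)) (a (l 16656232) (l 16665600)))) (b (a (a (l 6) (l 16536440)) (b (l 16534536) (l 16653504))) (a (a (l 16676224)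 (l 16688008)) (a (l 16690384) (a (l 16711128) (l 16718192)))))) (b (a (a (b (a (l 16600456) (l 16609736)) (a (l 16632904) (l 16643888))) (b (a (l 16620272) (l 16631992)) (a (l 533126159) (l 16711168)))) (a (b (l 532785679) (a (l 532943631) (l 532866063))) (b (a (l 16715240) (l 532890127)) (a (l 532802063) (l 532743695))))) (a (a (b (a (l 533193743) (l 533082639)) (a (l 533058831) (l 532948751))) (b (a (l 532978447) (l 532881679)) (a (l 532845839) (l 532750095)))) (a (b (a (l 532781839) (l 532709647)) (l 532620047)) (b (a (l 532645903) (l 532587279)) (a (l 532497167) (l 4)))))))), by decide +kernel⟩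

def k237_A00pp_022_s3 : ∃ t, chk3 f_A00pp_022_s3 t 12 6 14 = true :=
  ⟨(b (a (a (b (b (a (l 16592168) (l 16643216)) (a (l 16631264) (l 16661112))) (b (a (b (l 16645568) (l 16655496)) (b (l 16654288) (l 16664120))) (a (b (l 533016591) (l 532969999)) (b (l 16695248) (l 533021711))))) (b (b (a (l 16652080) (l 16660784)) (a (l 16669792) (l 16678312))) (b (a (b (l 16683824) (l 16693584)) (l 533240335)) (a (b (l 533390095) (l 533346319)) (b (l 16706584) (l 533400335)))))) (b (a (b (l 16651744) (a (l 16686608) (l 16692784))) (a (l 533594639) (l 533527567))) (a (b (a (l 533560591) (l 533554447)) (a (l 533472527) (l 533481231))) (a (b (l 533488399) (l 533414671)) (b (l 533419791) (l 533343759)))))) (a (b (a (b (a (b (l 532922127) (l 532873487)) (b (l 532842511) (l 532930575))) (a (b (l 532823823) (l 533040399)) (b (a (l 533136911) (l 533166095)) (a (l 533085455) (l 533114127))))) (b (a (b (l 533033231) (a (l 533242383) (l 533269775))) (b (l 533355023) (l 533308943))) (b (a (l 533207567) (l 533261071)) (a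 (l 533155599) (l 533208591))))) (a (b (a (b (l 532987663) (a (l 532921103) (b (l 532963855) (l 532937743)))) (b (a (l 533032463) (l 533060879)) (l 532993039))) (a (b (a (l 532868879) (l 532898063)) (l 4)) (l 4))) (b (l 533098767) (l 4)))) (b (a (b (a (b (l 533404943) (l 533358607)) (b (l 533427727) (l 533393167))) (a (b (l 533312015) (l 533259023)) (b (a (l 533345551) (l 533336591)) (l 533309711)))) (b (a (b (l 533358351) (a (l 533338383) (l 533301775))) (b (l 533286415) (l 533247247))) (b (a (a (l 533298959) (l 533262351)) (l 533207567)) (l 4)))) (b (a (a (l 533170447) (l 4)) (l 4)) (l 4))))), by decide +kernel⟩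

def k238_A00pp_022_s3 : ∃ t, chk3 f_A00pp_022_s3 t 13 6 14 = true :=
  ⟨(b (a (b (a (b (l 16692008) (l 533387791)) (l 533286927)) (a (b (l 533313039) (a (l 533273103) (l 533203727))) (l 533137935))) (b (a (l 532889103) (l 533035279)) (a (b (l 533049103) (l 532973583)) (l 532888335)))) (b (a (b (a (l 533159439) (l 533024527)) (l 4)) (l 4)) (l 4))), by decide +kernel⟩

def k239_A00pp_022_s3 : ∃ t, chk3 f_A00pp_022_s3 t 7 6 14 = true :=
  ⟨(b (a (a (b (a (l 532919823) (l 532811535)) (a (l 532774159) (l 4))) (b (a (l 532710415) (l 532616463)) (l 4))) (l 4)) (l 4)), by decide +kernel⟩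

def k240_A00pp_022_s3 : ∃ t, chk3 f_A00pp_022_s3 t 3 7 14 = true :=
  ⟨(l 4), by decide +kernel⟩

def k241_A00pp_022_s3 : ∃ t, chk3 f_A00pp_022_s3 t 3 2 15 = true :=
  ⟨(a (b (l 6) (a (a (b (l 6) (a (b (b (l 6) (l 16495872)) (b (l 16553992) (b (l 16566712) (l 16575528)))) (b (b (l 16500768) (l 16515528)) (b (l 16573104) (b (l 16585448) (l 16594040)))))) (b (b (l 6) (b (l 6) (l 16536776))) (a (b (l 16610904) (b (l 16633208) (l 16618016))) (b (l 16628816) (a (l 16654344) (l 16662736)))))) (a (b (b (l 16595344) (a (l 16615280) (l 16620224))) (a (b (l 16641040) (b (l 16663384) (l 16679648))) (b (l 16647976) (b (l 16671800) (l 16689112))))) (b (a (l 16655456) (l 16661872)) (b (a (l 16656048) (l 16665408)) (a (l 533504783) (l 533111055))))))) (b (a (b (l 6) (a (a (l 16490984) (l 16496496)) (b (l 16577064) (a (l 16601912) (l 16610976))))) (a (b (a (l 6) (l 16551320)) (b (l 16678360) (a (l 16621240) (l 16632608)))) (b (b (l 16548248) (l 16665784)) (b (a (l 16610656) (l 16622648)) (a (l 16644984) (l 16658200))))))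 (b (a (a (b (l 16617392) (a (l 16600560) (l 16610544))) (b (b (l 16586584) (l 533438735)) (a (l 533359887) (l 533264143)))) (a (b (a (l 16653600) (l 533268239)) (a (l 533177103) (l 533100047))) (b (a (l 16721936) (l 533143567)) (a (l 533036559) (l 532978959))))) (a (a (b (a (l 533411343) (l 533298959)) (a (l 533261071) (l 533149199))) (b (a (l 533193743) (l 533095951)) (a (l 533044495) (l 532946703)))) (a (b (a (l 532995087) (l 532922383)) (l 532813839)) (b (a (l 532858127) (l 532799247)) (a (l 532688143) (l 4)))))))), by decide +kernel⟩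

def k242_A00pp_022_s3 : ∃ t, chk3 f_A00pp_022_s3 t 12 12 15 = true :=
  ⟨(a (a (b (b (a (l 16605536) (l 16614864)) (a (a (l 16643512) (l 16627152)) (a (l 16631704) (l 16636208)))) (b (a (b (l 532931599) (c (l 16672768) (l 16680680))) (b (l 532976911) (l 532932623))) (a (b (a (l 16680064) (l 16674016)) (c (l 532839439) (l 532749071))) (b (c (l 533201935) (l 532840975)) (a (l 533098767) (l 533123855)))))) (b (b (a (l 16623960) (l 16632888)) (a (a (l 16640656) (l 16645080)) (a (l 16649464) (l 16653800)))) (b (a (b (l 533024015) (l 532847119)) (a (l 533040399) (l 533333007))) (a (b (a (l 533193999) (l 533219599)) (a (l 533149967) (l 533175311))) (b (l 532987151) (l 532942351)))))) (b (a (b (a (l 16662576) (l 16671064)) (a (l 533183759) (l 16678920))) (a (b (l 16679296) (l 16697448)) (l 533363471))) (a (b (a (l 532964111) (l 533409807)) (a (a (l 532999439) (l 533020943)) (l 532782607))) (a (b (l 533453583) (b (l 533386511) (l 533342735))) (b (l 533505551) (b (l 533443087) (l 533401359))))))), by decide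 +kernel⟩

def k243_A00pp_022_s3 : ∃ t, chk3 f_A00pp_022_s3 t 12 13 15 = true :=
  ⟨(a (b (a (b (a (b (b (l 532758799) (l 532734223)) (b (l 532709135) (l 532683535))) (b (b (l 532807951) (l 532784655)) (b (l 533029647) (l 533005327)))) (a (b (b (l 532657679) (l 532899343)) (l 532588559)) (b (a (l 532954127) (l 532981007)) (a (l 532898831) (l 532925455))))) (b (a (b (a (l 533104399) (l 533129743)) (a (l 533057295) (l 533082383))) (b (l 532896527) (l 532849167))) (b (a (b (l 533032463) (l 533006095)) (l 533067791)) (a (l 532963343) (l 533011727))))) (a (b (a (b (l 532531471) (a (l 532730383) (b (l 532772111) (l 532743695)))) (b (a (l 532841231) (l 532867599)) (l 532796687))) (a (b (a (l 532674575) (l 532567311)) (l 4)) (l 4))) (b (a (l 532875279) (l 532922639)) (l 4)))) (b (a (b (a (b (l 533209615) (l 532893711)) (b (a (l 533240335) (l 533259791)) (a (l 533192719) (l 533211151)))) (a (b (b (l 533125647) (l 533100303)) (l 533057295)) (b (a (l 532874511) (l 532830223)) (a (l 533090319) (l 533120015)))))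 (b (a (b (l 532896271) (a (l 533240335) (l 533271055))) (b (l 533359119) (l 533316623))) (b (a (a (l 533196815) (b (l 533238799) (l 533217295))) (l 533005071)) (l 4)))) (a (b (a (b (l 532997391) (l 4)) (l 4)) (l 4)) (l 4)))), by decide +kernel⟩

def k244_A00pp_022_s3 : ∃ t, chk3 f_A00pp_022_s3 t 13 6 15 = true :=
  ⟨(b (a (b (a (b (l 533659407) (a (l 16712680) (l 16718104))) (l 533213199)) (a (b (a (l 533538831) (l 533468431)) (a (l 533458447) (l 533387791))) (b (l 533364751) (l 533284111)))) (b (a (l 533350671) (l 532957455)) (a (b (l 533233423) (l 533153039)) (l 532530447)))) (b (a (b (a (l 533340431) (l 533202703)) (l 4)) (l 4)) (l 4))), by decide +kernel⟩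

def k245_A00pp_022_s3 : ∃ t, chk3 f_A00pp_022_s3 t 7 6 15 = true :=
  ⟨(b (a (a (b (l 533050383) (b (l 532397071) (l 4))) (b (a (l 532892943) (l 532796175)) (l 4))) (l 4)) (l 4)), by decide +kernel⟩

def k246_A00pp_022_s3 : ∃ t, chk3 f_A00pp_022_s3 t 3 7 15 = true :=
  ⟨(l 4), by decide +kernel⟩

theorem t247_A00pp_022_s3 : ∃ t, chk3 f_A00pp_022_s3 t 12 6 15 = true := ex3_b k242_A00pp_022_s3 k243_A00pp_022_s3

theorem t248_A00pp_022_s3 : ∃ t, chk3 f_A00pp_022_s3 t 6 6 15 = true := ex3_a t247_A00pp_022_s3 k244_A00pp_022_s3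

theorem t249_A00pp_022_s3 : ∃ t, chk3 f_A00pp_022_s3 t 3 6 15 = true := ex3_a t248_A00pp_022_s3 k245_A00pp_022_s3

theorem t250_A00pp_022_s3 : ∃ t, chk3 f_A00pp_022_s3 t 3 3 15 = true := ex3_b t249_A00pp_022_s3 k246_A00pp_022_s3

theorem t251_A00pp_022_s3 : ∃ t, chk3 f_A00pp_022_s3 t 3 1 15 = true := ex3_b k241_A00pp_022_s3 t250_A00pp_022_s3

theorem t252_A00pp_022_s3 : ∃ t, chk3 f_A00pp_022_s3 t 6 6 14 = true := ex3_a k237_A00pp_022_s3 k238_A00pp_022_s3

theorem t253_A00pp_022_s3 : ∃ t, chk3 f_A00pp_022_s3 t 3 6 14 = true := ex3_a t252_A00pp_022_s3 k239_A00pp_022_s3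

theorem t254_A00pp_022_s3 : ∃ t, chk3 f_A00pp_022_s3 t 3 3 14 = true := ex3_b t253_A00pp_022_s3 k240_A00pp_022_s3

theorem t255_A00pp_022_s3 : ∃ t, chk3 f_A00pp_022_s3 t 3 1 14 = true := ex3_b k236_A00pp_022_s3 t254_A00pp_022_s3

theorem t256_A00pp_022_s3 : ∃ t, chk3 f_A00pp_022_s3 t 3 1 7 = true := ex3_c t255_A00pp_022_s3 t251_A00pp_022_s3

theorem t257_A00pp_022_s3 : ∃ t, chk3 f_A00pp_022_s3 t 3 6 13 = true := ex3_a k233_A00pp_022_s3 k234_A00pp_022_s3

theorem t258_A00pp_022_s3 : ∃ t, chk3 f_A00pp_022_s3 t 3 3 13 = true := ex3_b t257_A00pp_022_s3 k235_A00pp_022_s3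

theorem t259_A00pp_022_s3 : ∃ t, chk3 f_A00pp_022_s3 t 3 1 13 = true := ex3_b k232_A00pp_022_s3 t258_A00pp_022_s3

theorem t260_A00pp_022_s3 : ∃ t, chk3 f_A00pp_022_s3 t 3 1 12 = true := ex3_b k230_A00pp_022_s3 k231_A00pp_022_s3

theorem t261_A00pp_022_s3 : ∃ t, chk3 f_A00pp_022_s3 t 3 1 6 = true := ex3_c t260_A00pp_022_s3 t259_A00pp_022_s3

theorem t262_A00pp_022_s3 : ∃ t, chk3 f_A00pp_022_s3 t 3 1 3 = true := ex3_c t261_A00pp_022_s3 t256_A00pp_022_s3

theorem t263_A00pp_022_s3 : ∃ t, chk3 f_A00pp_022_s3 t 3 1 11 = true := ex3_b k228_A00pp_022_s3 k229_A00pp_022_s3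

theorem t264_A00pp_022_s3 : ∃ t, chk3 f_A00pp_022_s3 t 3 1 10 = true := ex3_b k226_A00pp_022_s3 k227_A00pp_022_s3

theorem t265_A00pp_022_s3 : ∃ t, chk3 f_A00pp_022_s3 t 3 1 5 = true := ex3_c t264_A00pp_022_s3 t263_A00pp_022_s3

theorem t266_A00pp_022_s3 : ∃ t, chk3 f_A00pp_022_s3 t 3 1 9 = true := ex3_b k224_A00pp_022_s3 k225_A00pp_022_s3

theorem t267_A00pp_022_s3 : ∃ t, chk3 f_A00pp_022_s3 t 3 1 8 = true := ex3_b k222_A00pp_022_s3 k223_A00pp_022_s3

theorem t268_A00pp_022_s3 : ∃ t, chk3 f_A00pp_022_s3 t 3 1 4 = true := ex3_c t267_A00pp_022_s3 t266_A00pp_022_s3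

theorem t269_A00pp_022_s3 : ∃ t, chk3 f_A00pp_022_s3 t 3 1 2 = true := ex3_c t268_A00pp_022_s3 t265_A00pp_022_s3

theorem t270_A00pp_022_s3 : ∃ t, chk3 f_A00pp_022_s3 t 3 1 1 = true := ex3_c t269_A00pp_022_s3 t262_A00pp_022_s3

theorem t271_A00pp_022_s3 : ∃ t, chk3 f_A00pp_022_s3 t 20 28 3 = true := ex3_a k216_A00pp_022_s3 k217_A00pp_022_s3

theorem t272_A00pp_022_s3 : ∃ t, chk3 f_A00pp_022_s3 t 20 14 3 = true := ex3_b t271_A00pp_022_s3 k218_A00pp_022_s3

theorem t273_A00pp_022_s3 : ∃ t, chk3 f_A00pp_022_s3 t 10 14 3 = true := ex3_a t272_A00pp_022_s3 k219_A00pp_022_s3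

theorem t274_A00pp_022_s3 : ∃ t, chk3 f_A00pp_022_s3 t 10 7 3 = true := ex3_b t273_A00pp_022_s3 k220_A00pp_022_s3

theorem t275_A00pp_022_s3 : ∃ t, chk3 f_A00pp_022_s3 t 5 7 3 = true := ex3_a t274_A00pp_022_s3 k221_A00pp_022_s3

theorem t276_A00pp_022_s3 : ∃ t, chk3 f_A00pp_022_s3 t 11 13 3 = true := ex3_a k214_A00pp_022_s3 k215_A00pp_022_s3

theorem t277_A00pp_022_s3 : ∃ t, chk3 f_A00pp_022_s3 t 21 13 3 = true := ex3_b k212_A00pp_022_s3 k213_A00pp_022_s3

theorem t278_A00pp_022_s3 : ∃ t, chk3 f_A00pp_022_s3 t 20 13 3 = true := ex3_b k210_A00pp_022_s3 k211_A00pp_022_s3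

theorem t279_A00pp_022_s3 : ∃ t, chk3 f_A00pp_022_s3 t 10 13 3 = true := ex3_a t278_A00pp_022_s3 t277_A00pp_022_s3

theorem t280_A00pp_022_s3 : ∃ t, chk3 f_A00pp_022_s3 t 5 13 3 = true := ex3_a t279_A00pp_022_s3 t276_A00pp_022_s3

theorem t281_A00pp_022_s3 : ∃ t, chk3 f_A00pp_022_s3 t 11 12 7 = true := ex3_c k208_A00pp_022_s3 k209_A00pp_022_s3

theorem t282_A00pp_022_s3 : ∃ t, chk3 f_A00pp_022_s3 t 11 12 3 = true := ex3_c k207_A00pp_022_s3 t281_A00pp_022_s3

theorem t283_A00pp_022_s3 : ∃ t, chk3 f_A00pp_022_s3 t 5 12 3 = true := ex3_a k206_A00pp_022_s3 t282_A00pp_022_s3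

theorem t284_A00pp_022_s3 : ∃ t, chk3 f_A00pp_022_s3 t 5 6 3 = true := ex3_b t283_A00pp_022_s3 t280_A00pp_022_s3

theorem t285_A00pp_022_s3 : ∃ t, chk3 f_A00pp_022_s3 t 5 3 3 = true := ex3_b t284_A00pp_022_s3 t275_A00pp_022_s3

theorem t286_A00pp_022_s3 : ∃ t, chk3 f_A00pp_022_s3 t 20 14 2 = true := ex3_b k201_A00pp_022_s3 k202_A00pp_022_s3

theorem t287_A00pp_022_s3 : ∃ t, chk3 f_A00pp_022_s3 t 10 14 2 = true := ex3_a t286_A00pp_022_s3 k203_A00pp_022_s3

theorem t288_A00pp_022_s3 : ∃ t, chk3 f_A00pp_022_s3 t 10 7 2 = true := ex3_b t287_A00pp_022_s3 k204_A00pp_022_s3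

theorem t289_A00pp_022_s3 : ∃ t, chk3 f_A00pp_022_s3 t 5 7 2 = true := ex3_a t288_A00pp_022_s3 k205_A00pp_022_s3

theorem t290_A00pp_022_s3 : ∃ t, chk3 f_A00pp_022_s3 t 10 13 2 = true := ex3_a k198_A00pp_022_s3 k199_A00pp_022_s3

theorem t291_A00pp_022_s3 : ∃ t, chk3 f_A00pp_022_s3 t 5 13 2 = true := ex3_a t290_A00pp_022_s3 k200_A00pp_022_s3

theorem t292_A00pp_022_s3 : ∃ t, chk3 f_A00pp_022_s3 t 11 12 2 = true := ex3_c k196_A00pp_022_s3 k197_A00pp_022_s3

theorem t293_A00pp_022_s3 : ∃ t, chk3 f_A00pp_022_s3 t 5 12 2 = true := ex3_a k195_A00pp_022_s3 t292_A00pp_022_s3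

theorem t294_A00pp_022_s3 : ∃ t, chk3 f_A00pp_022_s3 t 5 6 2 = true := ex3_b t293_A00pp_022_s3 t291_A00pp_022_s3

theorem t295_A00pp_022_s3 : ∃ t, chk3 f_A00pp_022_s3 t 5 3 2 = true := ex3_b t294_A00pp_022_s3 t289_A00pp_022_s3

theorem t296_A00pp_022_s3 : ∃ t, chk3 f_A00pp_022_s3 t 5 3 1 = true := ex3_c t295_A00pp_022_s3 t285_A00pp_022_s3

theorem t297_A00pp_022_s3 : ∃ t, chk3 f_A00pp_022_s3 t 19 30 1 = true := ex3_a k192_A00pp_022_s3 k193_A00pp_022_s3

theorem t298_A00pp_022_s3 : ∃ t, chk3 f_A00pp_022_s3 t 19 15 1 = true := ex3_b t297_A00pp_022_s3 k194_A00pp_022_s3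

theorem t299_A00pp_022_s3 : ∃ t, chk3 f_A00pp_022_s3 t 74 60 1 = true := ex3_b k187_A00pp_022_s3 k188_A00pp_022_s3

theorem t300_A00pp_022_s3 : ∃ t, chk3 f_A00pp_022_s3 t 37 60 1 = true := ex3_a t299_A00pp_022_s3 k189_A00pp_022_s3

theorem t301_A00pp_022_s3 : ∃ t, chk3 f_A00pp_022_s3 t 37 30 1 = true := ex3_b t300_A00pp_022_s3 k190_A00pp_022_s3

theorem t302_A00pp_022_s3 : ∃ t, chk3 f_A00pp_022_s3 t 72 61 1 = true := ex3_b k184_A00pp_022_s3 k185_A00pp_022_s3

theorem t303_A00pp_022_s3 : ∃ t, chk3 f_A00pp_022_s3 t 36 61 1 = true := ex3_a t302_A00pp_022_s3 k186_A00pp_022_s3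

theorem t304_A00pp_022_s3 : ∃ t, chk3 f_A00pp_022_s3 t 73 60 1 = true := ex3_b k182_A00pp_022_s3 k183_A00pp_022_s3

theorem t305_A00pp_022_s3 : ∃ t, chk3 f_A00pp_022_s3 t 72 121 1 = true := ex3_a k180_A00pp_022_s3 k181_A00pp_022_s3

theorem t306_A00pp_022_s3 : ∃ t, chk3 f_A00pp_022_s3 t 72 60 1 = true := ex3_b k179_A00pp_022_s3 t305_A00pp_022_s3

theorem t307_A00pp_022_s3 : ∃ t, chk3 f_A00pp_022_s3 t 36 60 1 = true := ex3_a t306_A00pp_022_s3 t304_A00pp_022_s3

theorem t308_A00pp_022_s3 : ∃ t, chk3 f_A00pp_022_s3 t 36 30 1 = true := ex3_b t307_A00pp_022_s3 t303_A00pp_022_s3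

theorem t309_A00pp_022_s3 : ∃ t, chk3 f_A00pp_022_s3 t 18 30 1 = true := ex3_a t308_A00pp_022_s3 t301_A00pp_022_s3

theorem t310_A00pp_022_s3 : ∃ t, chk3 f_A00pp_022_s3 t 18 15 1 = true := ex3_b t309_A00pp_022_s3 k191_A00pp_022_s3

theorem t311_A00pp_022_s3 : ∃ t, chk3 f_A00pp_022_s3 t 9 15 1 = true := ex3_a t310_A00pp_022_s3 t298_A00pp_022_s3

theorem t312_A00pp_022_s3 : ∃ t, chk3 f_A00pp_022_s3 t 39 29 1 = true := ex3_b k177_A00pp_022_s3 k178_A00pp_022_s3

theorem t313_A00pp_022_s3 : ∃ t, chk3 f_A00pp_022_s3 t 38 59 1 = true := ex3_a k175_A00pp_022_s3 k176_A00pp_022_s3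

theorem t314_A00pp_022_s3 : ∃ t, chk3 f_A00pp_022_s3 t 38 58 1 = true := ex3_a k173_A00pp_022_s3 k174_A00pp_022_s3

theorem t315_A00pp_022_s3 : ∃ t, chk3 f_A00pp_022_s3 t 38 29 1 = true := ex3_b t314_A00pp_022_s3 t313_A00pp_022_s3

theorem t316_A00pp_022_s3 : ∃ t, chk3 f_A00pp_022_s3 t 19 29 1 = true := ex3_a t315_A00pp_022_s3 t312_A00pp_022_s3

theorem t317_A00pp_022_s3 : ∃ t, chk3 f_A00pp_022_s3 t 39 28 1 = true := ex3_b k171_A00pp_022_s3 k172_A00pp_022_s3

theorem t318_A00pp_022_s3 : ∃ t, chk3 f_A00pp_022_s3 t 38 28 1 = true := ex3_b k169_A00pp_022_s3 k170_A00pp_022_s3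

theorem t319_A00pp_022_s3 : ∃ t, chk3 f_A00pp_022_s3 t 19 28 1 = true := ex3_a t318_A00pp_022_s3 t317_A00pp_022_s3

theorem t320_A00pp_022_s3 : ∃ t, chk3 f_A00pp_022_s3 t 19 14 1 = true := ex3_b t319_A00pp_022_s3 t316_A00pp_022_s3

theorem t321_A00pp_022_s3 : ∃ t, chk3 f_A00pp_022_s3 t 18 14 63 = true := ex3_c k167_A00pp_022_s3 k168_A00pp_022_s3

theorem t322_A00pp_022_s3 : ∃ t, chk3 f_A00pp_022_s3 t 18 14 62 = true := ex3_c k165_A00pp_022_s3 k166_A00pp_022_s3

theorem t323_A00pp_022_s3 : ∃ t, chk3 f_A00pp_022_s3 t 18 14 31 = true := ex3_c t322_A00pp_022_s3 t321_A00pp_022_s3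

theorem t324_A00pp_022_s3 : ∃ t, chk3 f_A00pp_022_s3 t 18 14 61 = true := ex3_c k163_A00pp_022_s3 k164_A00pp_022_s3

theorem t325_A00pp_022_s3 : ∃ t, chk3 f_A00pp_022_s3 t 18 14 60 = true := ex3_c k161_A00pp_022_s3 k162_A00pp_022_s3

theorem t326_A00pp_022_s3 : ∃ t, chk3 f_A00pp_022_s3 t 18 14 30 = true := ex3_c t325_A00pp_022_s3 t324_A00pp_022_s3

theorem t327_A00pp_022_s3 : ∃ t, chk3 f_A00pp_022_s3 t 18 14 15 = true := ex3_c t326_A00pp_022_s3 t323_A00pp_022_s3

theorem t328_A00pp_022_s3 : ∃ t, chk3 f_A00pp_022_s3 t 18 14 59 = true := ex3_c k159_A00pp_022_s3 k160_A00pp_022_s3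

theorem t329_A00pp_022_s3 : ∃ t, chk3 f_A00pp_022_s3 t 18 14 58 = true := ex3_c k157_A00pp_022_s3 k158_A00pp_022_s3

theorem t330_A00pp_022_s3 : ∃ t, chk3 f_A00pp_022_s3 t 18 14 29 = true := ex3_c t329_A00pp_022_s3 t328_A00pp_022_s3

theorem t331_A00pp_022_s3 : ∃ t, chk3 f_A00pp_022_s3 t 18 14 57 = true := ex3_c k155_A00pp_022_s3 k156_A00pp_022_s3

theorem t332_A00pp_022_s3 : ∃ t, chk3 f_A00pp_022_s3 t 18 14 56 = true := ex3_c k153_A00pp_022_s3 k154_A00pp_022_s3

theorem t333_A00pp_022_s3 : ∃ t, chk3 f_A00pp_022_s3 t 18 14 28 = true := ex3_c t332_A00pp_022_s3 t331_A00pp_022_s3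

theorem t334_A00pp_022_s3 : ∃ t, chk3 f_A00pp_022_s3 t 18 14 14 = true := ex3_c t333_A00pp_022_s3 t330_A00pp_022_s3

theorem t335_A00pp_022_s3 : ∃ t, chk3 f_A00pp_022_s3 t 18 14 7 = true := ex3_c t334_A00pp_022_s3 t327_A00pp_022_s3

theorem t336_A00pp_022_s3 : ∃ t, chk3 f_A00pp_022_s3 t 18 14 55 = true := ex3_c k151_A00pp_022_s3 k152_A00pp_022_s3

theorem t337_A00pp_022_s3 : ∃ t, chk3 f_A00pp_022_s3 t 18 14 54 = true := ex3_c k149_A00pp_022_s3 k150_A00pp_022_s3

theorem t338_A00pp_022_s3 : ∃ t, chk3 f_A00pp_022_s3 t 18 14 27 = true := ex3_c t337_A00pp_022_s3 t336_A00pp_022_s3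

theorem t339_A00pp_022_s3 : ∃ t, chk3 f_A00pp_022_s3 t 18 14 106 = true := ex3_c k146_A00pp_022_s3 k147_A00pp_022_s3

theorem t340_A00pp_022_s3 : ∃ t, chk3 f_A00pp_022_s3 t 18 14 53 = true := ex3_c t339_A00pp_022_s3 k148_A00pp_022_s3

theorem t341_A00pp_022_s3 : ∃ t, chk3 f_A00pp_022_s3 t 18 14 52 = true := ex3_c k144_A00pp_022_s3 k145_A00pp_022_s3

theorem t342_A00pp_022_s3 : ∃ t, chk3 f_A00pp_022_s3 t 18 14 26 = true := ex3_c t341_A00pp_022_s3 t340_A00pp_022_s3

theorem t343_A00pp_022_s3 : ∃ t, chk3 f_A00pp_022_s3 t 18 14 13 = true := ex3_c t342_A00pp_022_s3 t338_A00pp_022_s3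

theorem t344_A00pp_022_s3 : ∃ t, chk3 f_A00pp_022_s3 t 18 14 51 = true := ex3_c k142_A00pp_022_s3 k143_A00pp_022_s3

theorem t345_A00pp_022_s3 : ∃ t, chk3 f_A00pp_022_s3 t 18 14 50 = true := ex3_c k140_A00pp_022_s3 k141_A00pp_022_s3

theorem t346_A00pp_022_s3 : ∃ t, chk3 f_A00pp_022_s3 t 18 14 25 = true := ex3_c t345_A00pp_022_s3 t344_A00pp_022_s3

theorem t347_A00pp_022_s3 : ∃ t, chk3 f_A00pp_022_s3 t 18 14 99 = true := ex3_c k138_A00pp_022_s3 k139_A00pp_022_s3

theorem t348_A00pp_022_s3 : ∃ t, chk3 f_A00pp_022_s3 t 18 14 98 = true := ex3_c k136_A00pp_022_s3 k137_A00pp_022_s3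

theorem t349_A00pp_022_s3 : ∃ t, chk3 f_A00pp_022_s3 t 18 14 49 = true := ex3_c t348_A00pp_022_s3 t347_A00pp_022_s3

theorem t350_A00pp_022_s3 : ∃ t, chk3 f_A00pp_022_s3 t 18 14 97 = true := ex3_c k134_A00pp_022_s3 k135_A00pp_022_s3

theorem t351_A00pp_022_s3 : ∃ t, chk3 f_A00pp_022_s3 t 18 14 96 = true := ex3_c k132_A00pp_022_s3 k133_A00pp_022_s3

theorem t352_A00pp_022_s3 : ∃ t, chk3 f_A00pp_022_s3 t 18 14 48 = true := ex3_c t351_A00pp_022_s3 t350_A00pp_022_s3

theorem t353_A00pp_022_s3 : ∃ t, chk3 f_A00pp_022_s3 t 18 14 24 = true := ex3_c t352_A00pp_022_s3 t349_A00pp_022_s3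

theorem t354_A00pp_022_s3 : ∃ t, chk3 f_A00pp_022_s3 t 18 14 12 = true := ex3_c t353_A00pp_022_s3 t346_A00pp_022_s3

theorem t355_A00pp_022_s3 : ∃ t, chk3 f_A00pp_022_s3 t 18 14 6 = true := ex3_c t354_A00pp_022_s3 t343_A00pp_022_s3

theorem t356_A00pp_022_s3 : ∃ t, chk3 f_A00pp_022_s3 t 18 14 3 = true := ex3_c t355_A00pp_022_s3 t335_A00pp_022_s3

theorem t357_A00pp_022_s3 : ∃ t, chk3 f_A00pp_022_s3 t 18 14 95 = true := ex3_c k130_A00pp_022_s3 k131_A00pp_022_s3

theorem t358_A00pp_022_s3 : ∃ t, chk3 f_A00pp_022_s3 t 18 14 94 = true := ex3_c k128_A00pp_022_s3 k129_A00pp_022_s3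

theorem t359_A00pp_022_s3 : ∃ t, chk3 f_A00pp_022_s3 t 18 14 47 = true := ex3_c t358_A00pp_022_s3 t357_A00pp_022_s3

theorem t360_A00pp_022_s3 : ∃ t, chk3 f_A00pp_022_s3 t 18 14 93 = true := ex3_c k126_A00pp_022_s3 k127_A00pp_022_s3

theorem t361_A00pp_022_s3 : ∃ t, chk3 f_A00pp_022_s3 t 18 14 92 = true := ex3_c k124_A00pp_022_s3 k125_A00pp_022_s3

theorem t362_A00pp_022_s3 : ∃ t, chk3 f_A00pp_022_s3 t 18 14 46 = true := ex3_c t361_A00pp_022_s3 t360_A00pp_022_s3

theorem t363_A00pp_022_s3 : ∃ t, chk3 f_A00pp_022_s3 t 18 14 23 = true := ex3_c t362_A00pp_022_s3 t359_A00pp_022_s3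

theorem t364_A00pp_022_s3 : ∃ t, chk3 f_A00pp_022_s3 t 18 14 91 = true := ex3_c k122_A00pp_022_s3 k123_A00pp_022_s3

theorem t365_A00pp_022_s3 : ∃ t, chk3 f_A00pp_022_s3 t 18 14 90 = true := ex3_c k120_A00pp_022_s3 k121_A00pp_022_s3

theorem t366_A00pp_022_s3 : ∃ t, chk3 f_A00pp_022_s3 t 18 14 45 = true := ex3_c t365_A00pp_022_s3 t364_A00pp_022_s3

theorem t367_A00pp_022_s3 : ∃ t, chk3 f_A00pp_022_s3 t 18 14 89 = true := ex3_c k118_A00pp_022_s3 k119_A00pp_022_s3

theorem t368_A00pp_022_s3 : ∃ t, chk3 f_A00pp_022_s3 t 18 14 88 = true := ex3_c k116_A00pp_022_s3 k117_A00pp_022_s3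

theorem t369_A00pp_022_s3 : ∃ t, chk3 f_A00pp_022_s3 t 18 14 44 = true := ex3_c t368_A00pp_022_s3 t367_A00pp_022_s3

theorem t370_A00pp_022_s3 : ∃ t, chk3 f_A00pp_022_s3 t 18 14 22 = true := ex3_c t369_A00pp_022_s3 t366_A00pp_022_s3

theorem t371_A00pp_022_s3 : ∃ t, chk3 f_A00pp_022_s3 t 18 14 11 = true := ex3_c t370_A00pp_022_s3 t363_A00pp_022_s3

theorem t372_A00pp_022_s3 : ∃ t, chk3 f_A00pp_022_s3 t 18 14 87 = true := ex3_c k114_A00pp_022_s3 k115_A00pp_022_s3

theorem t373_A00pp_022_s3 : ∃ t, chk3 f_A00pp_022_s3 t 18 14 86 = true := ex3_c k112_A00pp_022_s3 k113_A00pp_022_s3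

theorem t374_A00pp_022_s3 : ∃ t, chk3 f_A00pp_022_s3 t 18 14 43 = true := ex3_c t373_A00pp_022_s3 t372_A00pp_022_s3

theorem t375_A00pp_022_s3 : ∃ t, chk3 f_A00pp_022_s3 t 18 14 85 = true := ex3_c k110_A00pp_022_s3 k111_A00pp_022_s3

theorem t376_A00pp_022_s3 : ∃ t, chk3 f_A00pp_022_s3 t 18 14 84 = true := ex3_c k108_A00pp_022_s3 k109_A00pp_022_s3

theorem t377_A00pp_022_s3 : ∃ t, chk3 f_A00pp_022_s3 t 18 14 42 = true := ex3_c t376_A00pp_022_s3 t375_A00pp_022_s3

theorem t378_A00pp_022_s3 : ∃ t, chk3 f_A00pp_022_s3 t 18 14 21 = true := ex3_c t377_A00pp_022_s3 t374_A00pp_022_s3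

theorem t379_A00pp_022_s3 : ∃ t, chk3 f_A00pp_022_s3 t 18 14 83 = true := ex3_c k106_A00pp_022_s3 k107_A00pp_022_s3

theorem t380_A00pp_022_s3 : ∃ t, chk3 f_A00pp_022_s3 t 18 14 82 = true := ex3_c k104_A00pp_022_s3 k105_A00pp_022_s3

theorem t381_A00pp_022_s3 : ∃ t, chk3 f_A00pp_022_s3 t 18 14 41 = true := ex3_c t380_A00pp_022_s3 t379_A00pp_022_s3

theorem t382_A00pp_022_s3 : ∃ t, chk3 f_A00pp_022_s3 t 18 14 81 = true := ex3_c k102_A00pp_022_s3 k103_A00pp_022_s3

theorem t383_A00pp_022_s3 : ∃ t, chk3 f_A00pp_022_s3 t 18 14 80 = true := ex3_c k100_A00pp_022_s3 k101_A00pp_022_s3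

theorem t384_A00pp_022_s3 : ∃ t, chk3 f_A00pp_022_s3 t 18 14 40 = true := ex3_c t383_A00pp_022_s3 t382_A00pp_022_s3

theorem t385_A00pp_022_s3 : ∃ t, chk3 f_A00pp_022_s3 t 18 14 20 = true := ex3_c t384_A00pp_022_s3 t381_A00pp_022_s3

theorem t386_A00pp_022_s3 : ∃ t, chk3 f_A00pp_022_s3 t 18 14 10 = true := ex3_c t385_A00pp_022_s3 t378_A00pp_022_s3

theorem t387_A00pp_022_s3 : ∃ t, chk3 f_A00pp_022_s3 t 18 14 5 = true := ex3_c t386_A00pp_022_s3 t371_A00pp_022_s3

theorem t388_A00pp_022_s3 : ∃ t, chk3 f_A00pp_022_s3 t 18 14 79 = true := ex3_c k98_A00pp_022_s3 k99_A00pp_022_s3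

theorem t389_A00pp_022_s3 : ∃ t, chk3 f_A00pp_022_s3 t 18 14 78 = true := ex3_c k96_A00pp_022_s3 k97_A00pp_022_s3

theorem t390_A00pp_022_s3 : ∃ t, chk3 f_A00pp_022_s3 t 18 14 39 = true := ex3_c t389_A00pp_022_s3 t388_A00pp_022_s3

theorem t391_A00pp_022_s3 : ∃ t, chk3 f_A00pp_022_s3 t 18 14 77 = true := ex3_c k94_A00pp_022_s3 k95_A00pp_022_s3

theorem t392_A00pp_022_s3 : ∃ t, chk3 f_A00pp_022_s3 t 18 14 76 = true := ex3_c k92_A00pp_022_s3 k93_A00pp_022_s3

theorem t393_A00pp_022_s3 : ∃ t, chk3 f_A00pp_022_s3 t 18 14 38 = true := ex3_c t392_A00pp_022_s3 t391_A00pp_022_s3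

theorem t394_A00pp_022_s3 : ∃ t, chk3 f_A00pp_022_s3 t 18 14 19 = true := ex3_c t393_A00pp_022_s3 t390_A00pp_022_s3

theorem t395_A00pp_022_s3 : ∃ t, chk3 f_A00pp_022_s3 t 18 14 151 = true := ex3_c k90_A00pp_022_s3 k91_A00pp_022_s3

theorem t396_A00pp_022_s3 : ∃ t, chk3 f_A00pp_022_s3 t 18 14 150 = true := ex3_c k88_A00pp_022_s3 k89_A00pp_022_s3

theorem t397_A00pp_022_s3 : ∃ t, chk3 f_A00pp_022_s3 t 18 14 75 = true := ex3_c t396_A00pp_022_s3 t395_A00pp_022_s3

theorem t398_A00pp_022_s3 : ∃ t, chk3 f_A00pp_022_s3 t 18 14 149 = true := ex3_c k86_A00pp_022_s3 k87_A00pp_022_s3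

theorem t399_A00pp_022_s3 : ∃ t, chk3 f_A00pp_022_s3 t 18 14 148 = true := ex3_c k84_A00pp_022_s3 k85_A00pp_022_s3

theorem t400_A00pp_022_s3 : ∃ t, chk3 f_A00pp_022_s3 t 18 14 74 = true := ex3_c t399_A00pp_022_s3 t398_A00pp_022_s3

theorem t401_A00pp_022_s3 : ∃ t, chk3 f_A00pp_022_s3 t 18 14 37 = true := ex3_c t400_A00pp_022_s3 t397_A00pp_022_s3

theorem t402_A00pp_022_s3 : ∃ t, chk3 f_A00pp_022_s3 t 18 14 147 = true := ex3_c k82_A00pp_022_s3 k83_A00pp_022_s3

theorem t403_A00pp_022_s3 : ∃ t, chk3 f_A00pp_022_s3 t 18 14 146 = true := ex3_c k80_A00pp_022_s3 k81_A00pp_022_s3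

theorem t404_A00pp_022_s3 : ∃ t, chk3 f_A00pp_022_s3 t 18 14 73 = true := ex3_c t403_A00pp_022_s3 t402_A00pp_022_s3

theorem t405_A00pp_022_s3 : ∃ t, chk3 f_A00pp_022_s3 t 18 14 145 = true := ex3_c k78_A00pp_022_s3 k79_A00pp_022_s3

theorem t406_A00pp_022_s3 : ∃ t, chk3 f_A00pp_022_s3 t 18 14 144 = true := ex3_c k76_A00pp_022_s3 k77_A00pp_022_s3

theorem t407_A00pp_022_s3 : ∃ t, chk3 f_A00pp_022_s3 t 18 14 72 = true := ex3_c t406_A00pp_022_s3 t405_A00pp_022_s3

theorem t408_A00pp_022_s3 : ∃ t, chk3 f_A00pp_022_s3 t 18 14 36 = true := ex3_c t407_A00pp_022_s3 t404_A00pp_022_s3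

theorem t409_A00pp_022_s3 : ∃ t, chk3 f_A00pp_022_s3 t 18 14 18 = true := ex3_c t408_A00pp_022_s3 t401_A00pp_022_s3

theorem t410_A00pp_022_s3 : ∃ t, chk3 f_A00pp_022_s3 t 18 14 9 = true := ex3_c t409_A00pp_022_s3 t394_A00pp_022_s3

theorem t411_A00pp_022_s3 : ∃ t, chk3 f_A00pp_022_s3 t 18 14 143 = true := ex3_c k74_A00pp_022_s3 k75_A00pp_022_s3

theorem t412_A00pp_022_s3 : ∃ t, chk3 f_A00pp_022_s3 t 18 14 71 = true := ex3_c k73_A00pp_022_s3 t411_A00pp_022_s3

theorem t413_A00pp_022_s3 : ∃ t, chk3 f_A00pp_022_s3 t 18 14 140 = true := ex3_c k70_A00pp_022_s3 k71_A00pp_022_s3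

theorem t414_A00pp_022_s3 : ∃ t, chk3 f_A00pp_022_s3 t 18 14 70 = true := ex3_c t413_A00pp_022_s3 k72_A00pp_022_s3

theorem t415_A00pp_022_s3 : ∃ t, chk3 f_A00pp_022_s3 t 18 14 35 = true := ex3_c t414_A00pp_022_s3 t412_A00pp_022_s3

theorem t416_A00pp_022_s3 : ∃ t, chk3 f_A00pp_022_s3 t 18 14 139 = true := ex3_c k68_A00pp_022_s3 k69_A00pp_022_s3

theorem t417_A00pp_022_s3 : ∃ t, chk3 f_A00pp_022_s3 t 18 14 138 = true := ex3_c k66_A00pp_022_s3 k67_A00pp_022_s3

theorem t418_A00pp_022_s3 : ∃ t, chk3 f_A00pp_022_s3 t 18 14 69 = true := ex3_c t417_A00pp_022_s3 t416_A00pp_022_s3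

theorem t419_A00pp_022_s3 : ∃ t, chk3 f_A00pp_022_s3 t 18 14 137 = true := ex3_c k64_A00pp_022_s3 k65_A00pp_022_s3

theorem t420_A00pp_022_s3 : ∃ t, chk3 f_A00pp_022_s3 t 18 14 136 = true := ex3_c k62_A00pp_022_s3 k63_A00pp_022_s3

theorem t421_A00pp_022_s3 : ∃ t, chk3 f_A00pp_022_s3 t 18 14 68 = true := ex3_c t420_A00pp_022_s3 t419_A00pp_022_s3

theorem t422_A00pp_022_s3 : ∃ t, chk3 f_A00pp_022_s3 t 18 14 34 = true := ex3_c t421_A00pp_022_s3 t418_A00pp_022_s3

theorem t423_A00pp_022_s3 : ∃ t, chk3 f_A00pp_022_s3 t 18 14 17 = true := ex3_c t422_A00pp_022_s3 t415_A00pp_022_s3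

theorem t424_A00pp_022_s3 : ∃ t, chk3 f_A00pp_022_s3 t 18 914 135 = true := ex3_b k56_A00pp_022_s3 k57_A00pp_022_s3

theorem t425_A00pp_022_s3 : ∃ t, chk3 f_A00pp_022_s3 t 18 457 135 = true := ex3_b t424_A00pp_022_s3 k58_A00pp_022_s3

theorem t426_A00pp_022_s3 : ∃ t, chk3 f_A00pp_022_s3 t 18 456 135 = true := ex3_b k54_A00pp_022_s3 k55_A00pp_022_s3

theorem t427_A00pp_022_s3 : ∃ t, chk3 f_A00pp_022_s3 t 18 228 135 = true := ex3_b t426_A00pp_022_s3 t425_A00pp_022_s3

theorem t428_A00pp_022_s3 : ∃ t, chk3 f_A00pp_022_s3 t 18 114 135 = true := ex3_b t427_A00pp_022_s3 k59_A00pp_022_s3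

theorem t429_A00pp_022_s3 : ∃ t, chk3 f_A00pp_022_s3 t 18 57 135 = true := ex3_b t428_A00pp_022_s3 k60_A00pp_022_s3

theorem t430_A00pp_022_s3 : ∃ t, chk3 f_A00pp_022_s3 t 18 28 135 = true := ex3_b k53_A00pp_022_s3 t429_A00pp_022_s3

theorem t431_A00pp_022_s3 : ∃ t, chk3 f_A00pp_022_s3 t 18 14 135 = true := ex3_b t430_A00pp_022_s3 k61_A00pp_022_s3

theorem t432_A00pp_022_s3 : ∃ t, chk3 f_A00pp_022_s3 t 18 228 269 = true := ex3_b k48_A00pp_022_s3 k49_A00pp_022_s3

theorem t433_A00pp_022_s3 : ∃ t, chk3 f_A00pp_022_s3 t 18 114 269 = true := ex3_b t432_A00pp_022_s3 k50_A00pp_022_s3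

theorem t434_A00pp_022_s3 : ∃ t, chk3 f_A00pp_022_s3 t 18 57 269 = true := ex3_b t433_A00pp_022_s3 k51_A00pp_022_s3

theorem t435_A00pp_022_s3 : ∃ t, chk3 f_A00pp_022_s3 t 18 28 269 = true := ex3_b k47_A00pp_022_s3 t434_A00pp_022_s3

theorem t436_A00pp_022_s3 : ∃ t, chk3 f_A00pp_022_s3 t 18 14 269 = true := ex3_b t435_A00pp_022_s3 k52_A00pp_022_s3

theorem t437_A00pp_022_s3 : ∃ t, chk3 f_A00pp_022_s3 t 18 228 268 = true := ex3_b k42_A00pp_022_s3 k43_A00pp_022_s3

theorem t438_A00pp_022_s3 : ∃ t, chk3 f_A00pp_022_s3 t 18 114 268 = true := ex3_b t437_A00pp_022_s3 k44_A00pp_022_s3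

theorem t439_A00pp_022_s3 : ∃ t, chk3 f_A00pp_022_s3 t 18 57 268 = true := ex3_b t438_A00pp_022_s3 k45_A00pp_022_s3

theorem t440_A00pp_022_s3 : ∃ t, chk3 f_A00pp_022_s3 t 18 28 268 = true := ex3_b k41_A00pp_022_s3 t439_A00pp_022_s3

theorem t441_A00pp_022_s3 : ∃ t, chk3 f_A00pp_022_s3 t 18 14 268 = true := ex3_b t440_A00pp_022_s3 k46_A00pp_022_s3

theorem t442_A00pp_022_s3 : ∃ t, chk3 f_A00pp_022_s3 t 18 14 134 = true := ex3_c t441_A00pp_022_s3 t436_A00pp_022_s3

theorem t443_A00pp_022_s3 : ∃ t, chk3 f_A00pp_022_s3 t 18 14 67 = true := ex3_c t442_A00pp_022_s3 t431_A00pp_022_s3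

theorem t444_A00pp_022_s3 : ∃ t, chk3 f_A00pp_022_s3 t 18 228 267 = true := ex3_b k36_A00pp_022_s3 k37_A00pp_022_s3

theorem t445_A00pp_022_s3 : ∃ t, chk3 f_A00pp_022_s3 t 18 114 267 = true := ex3_b t444_A00pp_022_s3 k38_A00pp_022_s3

theorem t446_A00pp_022_s3 : ∃ t, chk3 f_A00pp_022_s3 t 18 57 267 = true := ex3_b t445_A00pp_022_s3 k39_A00pp_022_s3

theorem t447_A00pp_022_s3 : ∃ t, chk3 f_A00pp_022_s3 t 18 28 267 = true := ex3_b k35_A00pp_022_s3 t446_A00pp_022_s3

theorem t448_A00pp_022_s3 : ∃ t, chk3 f_A00pp_022_s3 t 18 14 267 = true := ex3_b t447_A00pp_022_s3 k40_A00pp_022_s3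

theorem t449_A00pp_022_s3 : ∃ t, chk3 f_A00pp_022_s3 t 18 228 266 = true := ex3_b k30_A00pp_022_s3 k31_A00pp_022_s3

theorem t450_A00pp_022_s3 : ∃ t, chk3 f_A00pp_022_s3 t 18 114 266 = true := ex3_b t449_A00pp_022_s3 k32_A00pp_022_s3

theorem t451_A00pp_022_s3 : ∃ t, chk3 f_A00pp_022_s3 t 18 57 266 = true := ex3_b t450_A00pp_022_s3 k33_A00pp_022_s3

theorem t452_A00pp_022_s3 : ∃ t, chk3 f_A00pp_022_s3 t 18 28 266 = true := ex3_b k29_A00pp_022_s3 t451_A00pp_022_s3

theorem t453_A00pp_022_s3 : ∃ t, chk3 f_A00pp_022_s3 t 18 14 266 = true := ex3_b t452_A00pp_022_s3 k34_A00pp_022_s3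

theorem t454_A00pp_022_s3 : ∃ t, chk3 f_A00pp_022_s3 t 18 14 133 = true := ex3_c t453_A00pp_022_s3 t448_A00pp_022_s3

theorem t455_A00pp_022_s3 : ∃ t, chk3 f_A00pp_022_s3 t 18 28 531 = true := ex3_b k26_A00pp_022_s3 k27_A00pp_022_s3

theorem t456_A00pp_022_s3 : ∃ t, chk3 f_A00pp_022_s3 t 18 14 531 = true := ex3_b t455_A00pp_022_s3 k28_A00pp_022_s3

theorem t457_A00pp_022_s3 : ∃ t, chk3 f_A00pp_022_s3 t 18 14 265 = true := ex3_c k25_A00pp_022_s3 t456_A00pp_022_s3

theorem t458_A00pp_022_s3 : ∃ t, chk3 f_A00pp_022_s3 t 18 14 264 = true := ex3_c k23_A00pp_022_s3 k24_A00pp_022_s3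

theorem t459_A00pp_022_s3 : ∃ t, chk3 f_A00pp_022_s3 t 18 14 132 = true := ex3_c t458_A00pp_022_s3 t457_A00pp_022_s3

theorem t460_A00pp_022_s3 : ∃ t, chk3 f_A00pp_022_s3 t 18 14 66 = true := ex3_c t459_A00pp_022_s3 t454_A00pp_022_s3

theorem t461_A00pp_022_s3 : ∃ t, chk3 f_A00pp_022_s3 t 18 14 33 = true := ex3_c t460_A00pp_022_s3 t443_A00pp_022_s3

theorem t462_A00pp_022_s3 : ∃ t, chk3 f_A00pp_022_s3 t 18 14 131 = true := ex3_c k21_A00pp_022_s3 k22_A00pp_022_s3

theorem t463_A00pp_022_s3 : ∃ t, chk3 f_A00pp_022_s3 t 18 14 130 = true := ex3_c k19_A00pp_022_s3 k20_A00pp_022_s3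

theorem t464_A00pp_022_s3 : ∃ t, chk3 f_A00pp_022_s3 t 18 14 65 = true := ex3_c t463_A00pp_022_s3 t462_A00pp_022_s3

theorem t465_A00pp_022_s3 : ∃ t, chk3 f_A00pp_022_s3 t 18 14 129 = true := ex3_c k17_A00pp_022_s3 k18_A00pp_022_s3

theorem t466_A00pp_022_s3 : ∃ t, chk3 f_A00pp_022_s3 t 18 14 128 = true := ex3_c k15_A00pp_022_s3 k16_A00pp_022_s3

theorem t467_A00pp_022_s3 : ∃ t, chk3 f_A00pp_022_s3 t 18 14 64 = true := ex3_c t466_A00pp_022_s3 t465_A00pp_022_s3

theorem t468_A00pp_022_s3 : ∃ t, chk3 f_A00pp_022_s3 t 18 14 32 = true := ex3_c t467_A00pp_022_s3 t464_A00pp_022_s3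

theorem t469_A00pp_022_s3 : ∃ t, chk3 f_A00pp_022_s3 t 18 14 16 = true := ex3_c t468_A00pp_022_s3 t461_A00pp_022_s3

theorem t470_A00pp_022_s3 : ∃ t, chk3 f_A00pp_022_s3 t 18 14 8 = true := ex3_c t469_A00pp_022_s3 t423_A00pp_022_s3

theorem t471_A00pp_022_s3 : ∃ t, chk3 f_A00pp_022_s3 t 18 14 4 = true := ex3_c t470_A00pp_022_s3 t410_A00pp_022_s3

theorem t472_A00pp_022_s3 : ∃ t, chk3 f_A00pp_022_s3 t 18 14 2 = true := ex3_c t471_A00pp_022_s3 t387_A00pp_022_s3

theorem t473_A00pp_022_s3 : ∃ t, chk3 f_A00pp_022_s3 t 18 14 1 = true := ex3_c t472_A00pp_022_s3 t356_A00pp_022_s3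

theorem t474_A00pp_022_s3 : ∃ t, chk3 f_A00pp_022_s3 t 9 14 1 = true := ex3_a t473_A00pp_022_s3 t320_A00pp_022_s3

theorem t475_A00pp_022_s3 : ∃ t, chk3 f_A00pp_022_s3 t 9 7 1 = true := ex3_b t474_A00pp_022_s3 t311_A00pp_022_s3

theorem t476_A00pp_022_s3 : ∃ t, chk3 f_A00pp_022_s3 t 35 59 1 = true := ex3_c k12_A00pp_022_s3 k13_A00pp_022_s3

theorem t477_A00pp_022_s3 : ∃ t, chk3 f_A00pp_022_s3 t 35 29 1 = true := ex3_b k11_A00pp_022_s3 t476_A00pp_022_s3

theorem t478_A00pp_022_s3 : ∃ t, chk3 f_A00pp_022_s3 t 17 29 1 = true := ex3_a k10_A00pp_022_s3 t477_A00pp_022_s3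

theorem t479_A00pp_022_s3 : ∃ t, chk3 f_A00pp_022_s3 t 17 14 1 = true := ex3_b k9_A00pp_022_s3 t478_A00pp_022_s3

theorem t480_A00pp_022_s3 : ∃ t, chk3 f_A00pp_022_s3 t 8 14 1 = true := ex3_a k8_A00pp_022_s3 t479_A00pp_022_s3

theorem t481_A00pp_022_s3 : ∃ t, chk3 f_A00pp_022_s3 t 8 7 1 = true := ex3_b t480_A00pp_022_s3 k14_A00pp_022_s3

theorem t482_A00pp_022_s3 : ∃ t, chk3 f_A00pp_022_s3 t 4 7 1 = true := ex3_a t481_A00pp_022_s3 t475_A00pp_022_s3

theorem t483_A00pp_022_s3 : ∃ t, chk3 f_A00pp_022_s3 t 19 13 3 = true := ex3_a k6_A00pp_022_s3 k7_A00pp_022_s3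

theorem t484_A00pp_022_s3 : ∃ t, chk3 f_A00pp_022_s3 t 19 13 1 = true := ex3_c k5_A00pp_022_s3 t483_A00pp_022_s3

theorem t485_A00pp_022_s3 : ∃ t, chk3 f_A00pp_022_s3 t 18 13 1 = true := ex3_b k3_A00pp_022_s3 k4_A00pp_022_s3

theorem t486_A00pp_022_s3 : ∃ t, chk3 f_A00pp_022_s3 t 9 13 1 = true := ex3_a t485_A00pp_022_s3 t484_A00pp_022_s3

theorem t487_A00pp_022_s3 : ∃ t, chk3 f_A00pp_022_s3 t 9 6 1 = true := ex3_b k2_A00pp_022_s3 t486_A00pp_022_s3

theorem t488_A00pp_022_s3 : ∃ t, chk3 f_A00pp_022_s3 t 4 6 1 = true := ex3_a k1_A00pp_022_s3 t487_A00pp_022_s3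

theorem t489_A00pp_022_s3 : ∃ t, chk3 f_A00pp_022_s3 t 4 3 1 = true := ex3_b t488_A00pp_022_s3 t482_A00pp_022_s3

theorem t490_A00pp_022_s3 : ∃ t, chk3 f_A00pp_022_s3 t 2 3 1 = true := ex3_a t489_A00pp_022_s3 t296_A00pp_022_s3

theorem t491_A00pp_022_s3 : ∃ t, chk3 f_A00pp_022_s3 t 2 1 1 = true := ex3_b k0_A00pp_022_s3 t490_A00pp_022_s3

theorem t492_A00pp_022_s3 : ∃ t, chk3 f_A00pp_022_s3 t 1 1 1 = true := ex3_a t491_A00pp_022_s3 t270_A00pp_022_s3

theorem c_A00pp_022_s3 : CertF 0 536870912 0 536870912 858993459 64424510 true true true .pp 0 2 2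
    ndB0q0 ndB0q2 pcB2 cut_A00pp_022_s3 xt_A00pp_022_s3 :=
  certF2 (fam := true) (s1 := true) (s2 := true) (a := 0) (b := 2) (c := 2) (cn := .pp) (n1 := ndB0q0) (n2 := ndB0q2) (pc := pcB2) (cut := cut_A00pp_022_s3) (xt := xt_A00pp_022_s3) (P1 := 0) (W1 := 536870912) (P2 := 0) (W2 := 536870912) (P3 := 858993459) (W3 := 64424510)
    rfl (fun _ => rfl) t492_A00pp_022_s3

theorem s_A00pp_022_s3 {κ x : ℝ} (hκ : κ * h0 = ken x) (hx : ((858993459 : ℕ) : ℝ) / S ≤ x)
    (hx' : x ≤ (((858993459 : ℕ) : ℝ) + (64424510 : ℕ)) / S)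
    (H : CutA (VFD κ) PP tK tL pcB (Cut.of [[⟨0, 0, 0, 67108864⟩, ⟨1, 1, 0, 67108864⟩, ⟨2, 1, 0, 67108864⟩]]) 0 2 2 0 0 (sgb true) (sgb true) x) :
    AltA (VFD κ) PP tK tL pcB [⟨4, 0, 0, 2845415833⟩] 0 2 2 0 0 (sgb true) (sgb true) x :=
  strip_altAD (m := 2845415833) false rfl hκ (SH.κ0 hκ (SH.hx1 hx).le (SH.hx2 hx').le) (SH.hx1 hx).le (SH.hx2 hx') (covB00).cov (covB02).cov hx hx' c_A00pp_022_s3 H ((okx hx hx').extA (T := tt) (sideB hx hx') hκ rfl rfl (.O 0 true) (.O 2 true) (Or.inl rfl))

end Pool.Agent.Strip051.G.I8000_8600.Tab.St.C
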