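import Pool.Agent.Strip051.G.I8000_8600.StH
import Pool.Agent.Strip051.G.I8000_8600.StF

/-! # Unit strips 10 (generated) -/

set_option linter.all false
set_option maxRecDepth 100000

namespace Pool.Agent.Strip051.G.I8000_8600.Tab.St.C

open Pool.Agent.Strip051.PB Pool.Agent.Strip051.PB.T Pool.Agent.StripNear Pool.Agent.Strip051.LC
open Pool.Agent.Strip051.G.I8000_8600.Tab Pool.Agent.Strip051.G.I8000_8600.Tab.St

noncomputable def cut_A00pm_202_s1 : Cut := Cut.of [[⟨4, 0, 0, 1449551462⟩], [⟨0, 1, 0, 67108864⟩, ⟨1, 0, 0, 67108864⟩, ⟨2, 1, 0, 67108864⟩]]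

noncomputable def f_A00pm_202_s1 : ℕ → ℕ → ℕ → ℕ → Bool := onCell 0 536870912 1073741824 536870912 858993459 64424510
    (rowF 1 true true false .pp 2 0 2 (qsf 0 536870912 0 536870912 2) ndB0q2 ndB0q0 pcB2 cut_A00pm_202_s1 Ext.none)

def k0_A00pm_202_s1 : ∃ t, chk3 f_A00pm_202_s1 t 2 4 1 = true :=
  ⟨(b (l 1) (l 6)), by decide +kernel⟩

def k1_A00pm_202_s1 : ∃ t, chk3 f_A00pm_202_s1 t 3 8 1 = true :=
  ⟨(a (l 1) (a (c (b (l 1) (a (b (l 1) (a (l 1) (b (l 1) (a (b (l 1) (l 95059321127)) (b (l 14) (l 16588736)))))) (b (l 14) (b (l 14) (b (l 14) (a (a (l 16582344) (l 16597280)) (c (l 16629176) (l 16611568)))))))) (b (l 1) (b (a (l 1) (l 14)) (a (b (l 1) (a (l 1) (c (a (l 16517200) (l 16533304)) (a (l 16491032) (l 16508368))))) (b (l 14) (b (l 14) (a (a (l 16537720) (l 16555088)) (l 16582216)))))))) (b (l 14) (a (b (l 14) (b (l 14) (c (a (c (l 16617880) (l 16603104)) (c (l 16691568) (l 16679688))) (b (l 14) (a (l 16619872) (l 16575160))))))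 (b (l 14) (b (l 14) (b (l 14) (b (l 14) (a (c (l 16601768) (l 16615008)) (a (c (l 16671712) (l 16645248)) (a (c (l 16664272) (l 16676784)) (c (l 16643424) (l 16669656))))))))))))), by decide +kernel⟩

def k2_A00pm_202_s1 : ∃ t, chk3 f_A00pm_202_s1 t 6 9 1 = true :=
  ⟨(c (a (b (l 1) (l 6)) (b (a (b (l 1) (a (b (l 1) (l 16419704)) (b (b (l 1) (l 16489344)) (b (l 16491288) (l 16451368))))) (b (b (l 1) (a (a (l 1) (b (l 1) (c (l 16533544) (l 16470976)))) (a (b (l 16542352) (a (l 16540056) (l 16546576))) (b (l 64994470711) (l 16556520))))) (c (a (b (a (l 16529512) (b (l 16545272) (l 16504624))) (l 16540752)) (b (a (l 16538920) (l 16530320)) (a (l 16520728) (l 16532896)))) (a (b (b (a (l 16453744) (l 16471584)) (l 16463536)) (l 16506848)) (b (a (l 16487208) (l 16500944)) (l 16464080)))))) (a (b (a (b (l 16425296) (l 6)) (b (l 16496464) (l 16458880))) (l 6)) (b (b (a (b (l 16484256) (l 16485680)) (a (l 16549272) (l 16520064))) (c (a (l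 16505504) (l 16532424)) (a (l 16469288) (l 16498576)))) (a (b (l 16487528) (l 16485776)) (b (l 16598576) (l 16511784))))))) (a (b (l 1) (l 6)) (b (a (b (l 1) (a (b (l 1) (l 16335096)) (b (a (l 1) (l 16463320)) (b (l 16370824) (l 16371560))))) (b (b (l 1) (a (a (l 1) (b (l 1) (l 16503272))) (c (a (l 16453856) (l 16469168)) (l 84321630823)))) (a (b (b (a (l 16398944) (l 16502728)) (c (l 16427680) (l 16388960))) (b (l 16492352) (l 16408328))) (b (a (l 16477976) (l 16452024)) (a (l 16519080) (l 16451128)))))) (b (a (b (c (l 16461992) (l 16416448)) (a (l 6) (l 16374784))) (b (a (l 16492144) (a (l 16434384) (l 16450240))) (a (l 16492352) (c (l 16461408) (l 16420928))))) (a (l 6) (b (a (l 16412632) (l 16444648)) (l 16444856))))))), by decide +kernel⟩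

def k3_A00pm_202_s1 : ∃ t, chk3 f_A00pm_202_s1 t 14 9 1 = true :=
  ⟨(b (a (b (c (a (b (a (b (l 1) (l 121365942135)) (b (l 105796712263) (l 16582288))) (a (b (l 16569184) (l 16527992)) (b (l 16540912) (l 16541544)))) (b (a (b (l 16574896) (l 16554304)) (b (l 16568208) (l 16568448))) (a (l 16596936) (l 16568936)))) (b (a (c (b (l 16493112) (l 16492840)) (b (l 16464008) (l 16463064))) (c (b (l 16524872) (l 16524488)) (l 16455904))) (c (a (l 16450544) (l 16523952)) (a (l 16461672) (l 16495952))))) (a (c (b (a (l 16571144) (l 16542584)) (a (l 16530976) (l 16544128))) (c (b (l 16492120) (l 16491816)) (l 16416952))) (c (c (b (l 16575088) (l 16576784)) (l 16508664)) (b (l 16592808) (l 16507576))))) (a (c (c (b (b (l 16600184) (l 16600736)) (l 16560168)) (b (b (l 16537680) (l 16579440)) (l 16579480))) (b (b (b (l 16545752) (l 16545008)) (l 16543856)) (b (l 16542264) (l 16540552)))) (b (b (c (c (l 16629304) (l 16611216)) (a (l 16571800) (l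 16590080))) (c (b (l 16536240) (l 16536088)) (l 16579088))) (b (c (l 16535976) (l 16577080)) (c (l 16619904) (l 16574864)))))) (a (b (b (a (c (l 16539392) (l 16474128)) (c (l 16565512) (l 16506128))) (c (c (l 16489976) (l 16539040)) (c (l 16506456) (l 16470888)))) (c (c (b (l 16482168) (l 16561216)) (l 16453576)) (a (l 16477712) (l 16424456)))) (c (b (c (b (l 16533640) (l 16618688)) (c (l 16516800) (l 16504408))) (c (l 16612640) (l 16591544))) (b (a (b (l 16538656) (l 16452744)) (b (l 16488528) (l 16485864))) (a (c (l 16552624) (l 16525384)) (b (l 16486360) (l 16488240))))))), by decide +kernel⟩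

def k4_A00pm_202_s1 : ∃ t, chk3 f_A00pm_202_s1 t 15 18 1 = true :=
  ⟨(a (a (b (c (b (c (l 16659720) (l 16644296)) (l 16609104)) (b (c (l 16627360) (l 16608904)) (l 16532088))) (c (b (l 16650160) (l 16649488)) (b (l 16529520) (l 16526672)))) (b (c (b (l 16642800) (l 16682768)) (b (a (l 16563328) (l 16582992)) (l 16591200))) (c (a (l 16670528) (l 16620264)) (b (b (l 16567808) (l 16566080)) (l 16584296))))) (a (b (c (b (c (l 16631536) (l 16641304)) (c (l 16619696) (l 16629896))) (b (c (l 16652184) (l 16648936)) (c (l 16599352) (l 16644880)))) (c (b (c (l 16607464) (l 16576416)) (b (l 16582696) (l 16576616))) (b (a (l 16595400) (l 16630528)) (a (l 16591128) (l 16620536))))) (a (b (b (b (c (l 16667000) (l 16640936)) (c (l 16661160) (l 16635368))) (c (c (l 16648648) (l 16656072)) (b (l 16629896) (l 16624528)))) (c (b (a (l 16642624) (l 16637576)) (a (l 16630368) (l 16625272))) (b (c (l 16653536) (l 16621984)) (c (l 16642768) (l 16612400)))))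 (c (c (b (b (a (l 16653856) (b (l 16652120) (l 16646152))) (a (l 16641744) (b (l 16640064) (l 16633880)))) (b (b (l 16630008) (l 16623680)) (a (l 16616472) (l 16632632)))) (b (b (a (l 16659496) (b (l 16656768) (l 16650888))) (b (l 16637352) (l 16641904))) (b (b (l 16635952) (l 16629992)) (a (l 16623960) (l 16628616))))) (c (b (b (b (l 16665552) (l 16649320)) (b (l 16643632) (l 16637992))) (b (b (l 16632408) (l 16626880)) (b (l 16631904) (l 16626504)))) (b (b (b (l 16646120) (l 16645760)) (a (l 16662536) (a (l 16656672) (l 16642224)))) (b (a (l 16652272) (a (l 16646312) (l 16631808))) (a (l 16642536) (a (l 16636504) (l 16627192)))))))))), by decide +kernel⟩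

def k5_A00pm_202_s1 : ∃ t, chk3 f_A00pm_202_s1 t 30 19 1 = true :=
  ⟨(c (b (b (c (l 16564176) (l 16571144)) (a (l 16648520) (l 16552824))) (a (l 16557112) (b (l 16627664) (l 16620072)))) (b (a (b (l 16523512) (a (l 16511416) (l 16528752))) (b (l 16569864) (a (l 16546272) (l 16563920)))) (a (b (l 16519728) (l 16520672)) (c (l 16562552) (l 16565456))))), by decide +kernel⟩

def k6_A00pm_202_s1 : ∃ t, chk3 f_A00pm_202_s1 t 31 19 1 = true :=
  ⟨(a (b (b (c (c (l 16624088) (l 16553192)) (a (l 16582552) (l 16589920))) (c (c (l 16569360) (l 16583608)) (c (l 16578752) (b (l 16577888) (l 16573624))))) (c (c (a (l 16603544) (l 16552512)) (b (l 16531648) (l 16522440))) (b (c (l 16546464) (l 16605000)) (c (l 16576632) (l 16569440))))) (b (c (b (a (a (l 16618024) (l 16654824)) (a (c (l 16603520) (l 16612088)) (b (l 16626384) (l 16620136)))) (a (b (l 16606160) (l 16600096)) (b (a (l 16598288) (l 16592928)) (c (l 16584944) (l 16594464))))) (a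 (b (c (l 16632248) (l 16603336)) (c (b (l 16624528) (l 16619408)) (b (l 16638800) (l 16592480)))) (c (c (b (l 16616072) (a (l 16608672) (l 16601928))) (b (l 16621104) (a (l 16614728) (l 16591680)))) (a (b (l 16633328) (b (l 16626768) (l 16622344))) (b (c (l 16622528) (l 16627920)) (b (l 16618568) (b (l 16615376) (l 16612848)))))))) (a (c (c (b (l 16588608) (l 16581464)) (b (l 16598768) (l 16589392))) (b (c (l 16610512) (c (l 16620344) (l 16585456))) (c (l 16598656) (c (l 16606496) (l 16612136))))) (c (c (b (b (l 16580736) (l 16577136)) (b (l 16573456) (l 16569688))) (b (b (l 16589448) (l 16584696)) (a (l 16580536) (b (l 16576912) (l 16572104))))) (c (a (b (l 16579176) (l 16577752)) (b (b (l 16596128) (l 16590088)) (b (l 16584104) (a (l 16579968) (l 16576368))))) (a (b (c (l 16608704) (l 16614872)) (b (l 16600768) (l 16593624))) (c (b (l 16590320) (b (l 16590312) (l 16583464))) (b (b (l 16610248) (l 16602464)) (b (l 16594840) (l 16587344)))))))))),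 by decide +kernel⟩

def k7_A00pm_202_s1 : ∃ t, chk3 f_A00pm_202_s1 t 2 5 1 = true :=
  ⟨(l 6), by decide +kernel⟩

def k8_A00pm_202_s1 : ∃ t, chk3 f_A00pm_202_s1 t 6 5 1 = true :=
  ⟨(b (a (l 6) (b (a (l 6) (a (l 6) (b (c (l 16507696) (l 16456248)) (l 6)))) (l 6))) (l 6)), by decide +kernel⟩

def k9_A00pm_202_s1 : ∃ t, chk3 f_A00pm_202_s1 t 7 40 1 = true :=
  ⟨(a (c (a (a (l 16532072) (l 16472800)) (b (l 16512600) (l 16592600))) (a (a (l 16485424) (l 16514624)) (a (l 16460096) (b (l 16489720) (l 16574640))))) (a (c (a (l 16542688) (c (l 16519432) (l 16530312))) (a (a (l 16513408) (l 16529000)) (b (l 16553048) (l 16543192)))) (a (c (b (c (l 16588600) (l 16555288)) (a (l 16589744) (l 16537248))) (b (c (l 16565224) (l 16576480)) (c (l 16553968) (l 16562992)))) (a (c (b (c (l 16574032) (l 16579952)) (c (l 16566144) (l 16570320))) (b (c (l 16576536) (c (l 16593072) (l 16597456))) (c (l 16554480) (a (l 16585584) (l 16577464))))) (c (a (b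 (b (l 16570760) (l 16566352)) (b (l 16561824) (l 16557144))) (b (c (b (l 16563248) (l 16559184)) (b (l 16567216) (l 16562248))) (c (b (l 16554960) (l 16550552)) (b (l 16557176) (l 16551984))))) (a (b (c (l 16560752) (c (l 16581328) (l 16584888))) (c (b (l 16567616) (l 16561656)) (b (l 16572616) (l 16565696)))) (c (b (b (a (l 16574032) (l 16570392)) (a (l 16568080) (l 16564400))) (b (a (l 16562104) (l 16558376)) (a (l 16556072) (l 16552304)))) (b (c (b (l 16576648) (l 16569856)) (b (l 16579920) (l 16572560))) (b (c (l 16563096) (l 16565272)) (b (l 16558912) (l 16555424))))))))))), by decide +kernel⟩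

def k10_A00pm_202_s1 : ∃ t, chk3 f_A00pm_202_s1 t 7 41 1 = true :=
  ⟨(a (c (b (a (l 16456176) (l 16588824)) (b (a (l 16537872) (l 16586144)) (a (b (l 16536896) (l 16536944)) (b (l 16585104) (l 16585064))))) (b (a (l 16504448) (a (l 16546432) (l 16575248))) (a (b (l 16506224) (b (l 16507032) (l 16506704))) (b (l 16561624) (a (l 16547416) (l 16575080)))))) (a (b (a (a (l 16525200) (l 16537832)) (c (l 16512800) (l 16531376))) (b (a (l 16530056) (b (l 16515328) (l 16512704))) (b (a (l 16529320) (l 16509848)) (a (l 16528920) (b (l 16507520) (l 16506168)))))) (a (b (c (a (l 16581216) (l 16559712)) (c (l 16542728) (l 16549880))) (b (c (l 16568560) (l 16536960)) (b (c (l 16564248) (l 16490288)) (c (l 16518640) (l 16487776))))) (b (a (c (b (l 16561176) (l 16556256)) (c (l 16553160) (l 16567992))) (c (b (a (l 16552288) (c (l 16545920) (l 16546648))) (a (l 16547176) (c (l 16540984) (l 16541104)))) (b (a (c (l 16555632) (l 16558816)) (b (c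 (l 16549616) (l 16551944)) (c (l 16546544) (l 16548472)))) (b (a (l 16552280) (b (l 16544960) (l 16543320))) (c (l 16544152) (l 16545904)))))) (b (a (c (l 16571864) (l 16535152)) (c (b (a (l 16543128) (l 16536816)) (c (l 16537080) (l 16537096))) (b (c (l 16540992) (l 16542464)) (c (l 16537744) (l 16539032))))) (a (b (c (l 16546216) (l 16551176)) (c (a (l 16545440) (l 16497192)) (l 16548496))) (b (c (b (l 16534592) (a (l 16535896) (l 16529392))) (b (l 16535768) (l 16502568))) (c (b (b (b (l 16531072) (b (l 16530352) (l 16529768))) (l 16529144)) (l 16528088)) (c (l 16499672) (l 16533192)))))))))), by decide +kernel⟩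

def k11_A00pm_202_s1 : ∃ t, chk3 f_A00pm_202_s1 t 7 21 1 = true :=
  ⟨(a (b (a (l 6) (c (l 16584056) (a (l 16541744) (l 16568600)))) (a (l 6) (a (l 6) (l 16491928)))) (a (b (a (b (l 16524216) (l 16516248)) (b (l 16501408) (l 16492872))) (a (a (l 16509824) (l 16498448)) (b (l 16484264) (l 16454520)))) (a (c (b (b (l 16553432) (l 16542840)) (a (l 16533168) (l 16436664))) (b (b (l 16483080) (l 16475592)) (a (l 16471944) (l 16455800)))) (a (b (c (b (l 16534848) (l 16523816)) (b (l 16543408) (l 16535248))) (c (b (l 16512840) (l 16501928)) (b (l 16526912) (l 16518400)))) (c (b (b (a (l 16525096) (l 16518416)) (a (l 16513880) (l 16507072))) (b (b (l 16502048) (l 16496488)) (c (l 16486104) (l 16490744)))) (b (b (l 16505728) (l 16476168)) (b (l 16467400) (l 16500496)))))))), by decide +kernel⟩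

def k12_A00pm_202_s1 : ∃ t, chk3 f_A00pm_202_s1 t 7 11 1 = true :=
  ⟨(a (l 6) (a (a (b (b (a (l 6) (l 16481712)) (l 6)) (l 6)) (b (b (c (l 16446984) (l 16479904)) (l 6)) (l 6))) (c (b (c (a (b (l 16500776) (l 16479896)) (b (a (l 16482264) (b (l 16474912) (l 16464000))) (a (l 16461136) (b (l 16453384) (l 16442976))))) (a (b (l 16511584) (l 16492168)) (a (b (l 16490152) (l 16470216)) (b (a (l 16478984) (l 16471384)) (l 16475896))))) (a (l 6) (a (l 6) (b (c (l 16427616) (l 16435048)) (l 6))))) (a (b (b (l 16447808) (l 16431248)) (l 6)) (a (b (b (l 16463576) (l 16404088)) (l 6)) (b (b (c (l 16482696) (l 16491936)) (b (l 16473432) (l 16464240))) (b (c (l 16444784) (l 16456816)) (l 6)))))))), by decide +kernel⟩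

def k13_A00pm_202_s1 : ∃ t, chk3 f_A00pm_202_s1 t 1 3 1 = true :=
  ⟨(a (l 6) (l 6)), by decide +kernel⟩

theorem t14_A00pm_202_s1 : ∃ t, chk3 f_A00pm_202_s1 t 7 20 1 = true := ex3_b k9_A00pm_202_s1 k10_A00pm_202_s1

theorem t15_A00pm_202_s1 : ∃ t, chk3 f_A00pm_202_s1 t 7 10 1 = true := ex3_b t14_A00pm_202_s1 k11_A00pm_202_s1

theorem t16_A00pm_202_s1 : ∃ t, chk3 f_A00pm_202_s1 t 7 5 1 = true := ex3_b t15_A00pm_202_s1 k12_A00pm_202_s1

theorem t17_A00pm_202_s1 : ∃ t, chk3 f_A00pm_202_s1 t 3 5 1 = true := ex3_a k8_A00pm_202_s1 t16_A00pm_202_s1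

theorem t18_A00pm_202_s1 : ∃ t, chk3 f_A00pm_202_s1 t 1 5 1 = true := ex3_a k7_A00pm_202_s1 t17_A00pm_202_s1

theorem t19_A00pm_202_s1 : ∃ t, chk3 f_A00pm_202_s1 t 15 19 1 = true := ex3_a k5_A00pm_202_s1 k6_A00pm_202_s1

theorem t20_A00pm_202_s1 : ∃ t, chk3 f_A00pm_202_s1 t 15 9 1 = true := ex3_b k4_A00pm_202_s1 t19_A00pm_202_s1

theorem t21_A00pm_202_s1 : ∃ t, chk3 f_A00pm_202_s1 t 7 9 1 = true := ex3_a k3_A00pm_202_s1 t20_A00pm_202_s1

theorem t22_A00pm_202_s1 : ∃ t, chk3 f_A00pm_202_s1 t 3 9 1 = true := ex3_a k2_A00pm_202_s1 t21_A00pm_202_s1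

theorem t23_A00pm_202_s1 : ∃ t, chk3 f_A00pm_202_s1 t 3 4 1 = true := ex3_b k1_A00pm_202_s1 t22_A00pm_202_s1

theorem t24_A00pm_202_s1 : ∃ t, chk3 f_A00pm_202_s1 t 1 4 1 = true := ex3_a k0_A00pm_202_s1 t23_A00pm_202_s1

theorem t25_A00pm_202_s1 : ∃ t, chk3 f_A00pm_202_s1 t 1 2 1 = true := ex3_b t24_A00pm_202_s1 t18_A00pm_202_s1

theorem t26_A00pm_202_s1 : ∃ t, chk3 f_A00pm_202_s1 t 1 1 1 = true := ex3_b t25_A00pm_202_s1 k13_A00pm_202_s1

theorem c_A00pm_202_s1 : CertF 0 536870912 0 536870912 858993459 64424510 true true false .pp 2 0 2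
    ndB0q2 ndB0q0 pcB2 cut_A00pm_202_s1 Ext.none :=
  certF1 (fam := true) (s1 := true) (s2 := false) (a := 2) (b := 0) (c := 2) (cn := .pp) (n1 := ndB0q2) (n2 := ndB0q0) (pc := pcB2) (cut := cut_A00pm_202_s1) (xt := Ext.none) (P1 := 0) (W1 := 536870912) (P2 := 0) (W2 := 536870912) (P3 := 858993459) (W3 := 64424510)
    rfl (fun _ => rfl) t26_A00pm_202_s1

theorem s_A00pm_202_s1 {κ x : ℝ} (hκ : κ * h0 = ken x) (hx : ((858993459 : ℕ) : ℝ) / S ≤ x)
    (hx' : x ≤ (((858993459 : ℕ) : ℝ) + (64424510 : ℕ)) / S)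
    (H : CutA (VFD κ) PP tK tL pcB (Cut.of [[⟨0, 1, 0, 67108864⟩, ⟨1, 0, 0, 67108864⟩, ⟨2, 1, 0, 67108864⟩]]) 2 0 2 0 0 (sgb true) (sgb false) x) :
    AltA (VFD κ) PP tK tL pcB [⟨3, 0, 0, 1449551462⟩] 2 0 2 0 0 (sgb true) (sgb false) x :=
  strip_altAD (m := 1449551462) true rfl hκ (SH.κ0 hκ (SH.hx1 hx).le (SH.hx2 hx').le) (SH.hx1 hx).le (SH.hx2 hx') (covB02).cov (covB00).cov hx hx' c_A00pm_202_s1 H (noExt_A)

noncomputable def cut_A00pm_202_s3 : Cut := Cut.of [[⟨3, 0, 0, 2845415833⟩], [⟨0, 1, 0, 67108864⟩, ⟨1, 0, 0, 67108864⟩, ⟨2, 1, 0, 67108864⟩]]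

noncomputable def f_A00pm_202_s3 : ℕ → ℕ → ℕ → ℕ → Bool := onCell 0 536870912 1073741824 536870912 858993459 64424510
    (rowF 1 true true false .pp 2 0 2 (qsf 0 536870912 0 536870912 2) ndB0q2 ndB0q0 pcB2 cut_A00pm_202_s3 Ext.none)

def k0_A00pm_202_s3 : ∃ t, chk3 f_A00pm_202_s3 t 1 1 1 = true :=
  ⟨(b (l 6) (a (l 6) (l 6))), by decide +kernel⟩

theorem c_A00pm_202_s3 : CertF 0 536870912 0 536870912 858993459 64424510 true true false .pp 2 0 2
    ndB0q2 ndB0q0 pcB2 cut_A00pm_202_s3 Ext.none :=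
  certF1 (fam := true) (s1 := true) (s2 := false) (a := 2) (b := 0) (c := 2) (cn := .pp) (n1 := ndB0q2) (n2 := ndB0q0) (pc := pcB2) (cut := cut_A00pm_202_s3) (xt := Ext.none) (P1 := 0) (W1 := 536870912) (P2 := 0) (W2 := 536870912) (P3 := 858993459) (W3 := 64424510)
    rfl (fun _ => rfl) k0_A00pm_202_s3

theorem s_A00pm_202_s3 {κ x : ℝ} (hκ : κ * h0 = ken x) (hx : ((858993459 : ℕ) : ℝ) / S ≤ x)
    (hx' : x ≤ (((858993459 : ℕ) : ℝ) + (64424510 : ℕ)) / S)
    (H : CutA (VFD κ) PP tK tL pcB (Cut.of [[⟨0, 1, 0, 67108864⟩, ⟨1, 0, 0, 67108864⟩, ⟨2, 1, 0, 67108864⟩]]) 2 0 2 0 0 (sgb true) (sgb false) x) :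
    AltA (VFD κ) PP tK tL pcB [⟨4, 0, 0, 2845415833⟩] 2 0 2 0 0 (sgb true) (sgb false) x :=
  strip_altAD (m := 2845415833) false rfl hκ (SH.κ0 hκ (SH.hx1 hx).le (SH.hx2 hx').le) (SH.hx1 hx).le (SH.hx2 hx') (covB02).cov (covB00).cov hx hx' c_A00pm_202_s3 H (noExt_A)

noncomputable def cut_A00pm_203_s1 : Cut := Cut.of [[⟨4, 0, 0, 1449551462⟩]]

noncomputable def f_A00pm_203_s1 : ℕ → ℕ → ℕ → ℕ → Bool := onCell 0 536870912 1610612736 536870912 858993459 64424510
    (rowF 1 true true false .up 2 0 3 (qsf 0 536870912 0 536870912 3) ndB0q2 ndB0q0 pcB3 cut_A00pm_203_s1 Ext.none)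

def k0_A00pm_203_s1 : ∃ t, chk3 f_A00pm_203_s1 t 1 1 1 = true :=
  ⟨(l 6), by decide +kernel⟩

theorem c_A00pm_203_s1 : CertF 0 536870912 0 536870912 858993459 64424510 true true false .up 2 0 3
    ndB0q2 ndB0q0 pcB3 cut_A00pm_203_s1 Ext.none :=
  certF1 (fam := true) (s1 := true) (s2 := false) (a := 2) (b := 0) (c := 3) (cn := .up) (n1 := ndB0q2) (n2 := ndB0q0) (pc := pcB3) (cut := cut_A00pm_203_s1) (xt := Ext.none) (P1 := 0) (W1 := 536870912) (P2 := 0) (W2 := 536870912) (P3 := 858993459) (W3 := 64424510)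
    rfl (fun _ => rfl) k0_A00pm_203_s1

theorem s_A00pm_203_s1 {κ x : ℝ} (hκ : κ * h0 = ken x) (hx : ((858993459 : ℕ) : ℝ) / S ≤ x)
    (hx' : x ≤ (((858993459 : ℕ) : ℝ) + (64424510 : ℕ)) / S) :
    AltA (VFD κ) PP tK tL pcB [⟨3, 0, 0, 1449551462⟩] 2 0 3 0 0 (sgb true) (sgb false) x :=
  strip_altAD (m := 1449551462) true rfl hκ (SH.κ0 hκ (SH.hx1 hx).le (SH.hx2 hx').le) (SH.hx1 hx).le (SH.hx2 hx') (covB02).cov (covB00).cov hx hx' c_A00pm_203_s1 cutA_nil (noExt_A)

noncomputable def cut_A00pm_203_s3 : Cut := Cut.of [[⟨3, 0, 0, 2845415833⟩]]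

noncomputable def xt_A00pm_203_s3 : Ext := strExt dd true true false .u2 .u0m .s2m .up 2 0 3 rfl rfl gl3 vv ndB0q2 ndB0q0

noncomputable def f_A00pm_203_s3 : ℕ → ℕ → ℕ → ℕ → Bool := onCell 0 536870912 0 536870912 858993459 64424510
    (rowF 0 true true false .up 2 0 3 (qsf 0 536870912 0 536870912 3) ndB0q2 ndB0q0 pcB3 cut_A00pm_203_s3 xt_A00pm_203_s3)

def k0_A00pm_203_s3 : ∃ t, chk3 f_A00pm_203_s3 t 1 1 1 = true :=
  ⟨(a (b (l 1) (b (a (b (l 1) (a (a (a (a (b (l 1) (l 6)) (l 6)) (l 6)) (l 6)) (l 6))) (l 6)) (a (b (a (a (b (b (a (b (l 16643832) (l 16656640)) (l 6)) (c (l 16566624) (l 16603296))) (c (b (l 16593056) (l 16701752)) (b (l 16623728) (l 16642456)))) (b (l 6) (b (c (l 16562080) (l 16599136)) (c (l 16588424) (l 16618632))))) (l 6)) (c (a (b (a (b (l 16724640) (l 533865487)) (b (l 16612744) (l 16718968))) (b (b (l 533741583) (l 534081039)) (l 534174991))) (a (b (b (l 16584160) (l 16607824)) (b (l 16629144) (l 16647944)))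 (b (l 6) (b (l 16601320) (l 16621040))))) (a (b (b (a (l 16659568) (l 16636384)) (a (l 534210575) (l 16652464))) (b (b (l 534296079) (l 534325519)) (l 533824527))) (a (b (b (l 16613296) (l 16629912)) (b (l 16645000) (l 16658712))) (b (l 6) (b (l 16622656) (l 16636576))))))) (b (l 6) (l 6))))) (l 6)), by decide +kernel⟩

theorem c_A00pm_203_s3 : CertF 0 536870912 0 536870912 858993459 64424510 true true false .up 2 0 3
    ndB0q2 ndB0q0 pcB3 cut_A00pm_203_s3 xt_A00pm_203_s3 :=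
  certF0 (fam := true) (s1 := true) (s2 := false) (a := 2) (b := 0) (c := 3) (cn := .up) (n1 := ndB0q2) (n2 := ndB0q0) (pc := pcB3) (cut := cut_A00pm_203_s3) (xt := xt_A00pm_203_s3) (P1 := 0) (W1 := 536870912) (P2 := 0) (W2 := 536870912) (P3 := 858993459) (W3 := 64424510)
    rfl k0_A00pm_203_s3

theorem s_A00pm_203_s3 {κ x : ℝ} (hκ : κ * h0 = ken x) (hx : ((858993459 : ℕ) : ℝ) / S ≤ x)
    (hx' : x ≤ (((858993459 : ℕ) : ℝ) + (64424510 : ℕ)) / S) :
    AltA (VFD κ) PP tK tL pcB [⟨4, 0, 0, 2845415833⟩] 2 0 3 0 0 (sgb true) (sgb false) x :=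
  strip_altAD (m := 2845415833) false rfl hκ (SH.κ0 hκ (SH.hx1 hx).le (SH.hx2 hx').le) (SH.hx1 hx).le (SH.hx2 hx') (covB02).cov (covB00).cov hx hx' c_A00pm_203_s3 cutA_nil ((okx hx hx').extA (T := tt) (sideB hx hx') hκ rfl rfl (.O 2 true) (.O 0 false) (Or.inr rfl))

noncomputable def cut_A00pm_213_s1 : Cut := Cut.of [[⟨4, 0, 0, 1449551462⟩], [⟨0, 1, 0, 67108864⟩, ⟨1, 1, 0, 67108864⟩, ⟨2, 2, 0, 16777216⟩], [⟨0, 1, 0, 16777216⟩, ⟨1, 0, 1, 20971520⟩, ⟨2, 1, 1, 20971520⟩]]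

noncomputable def f_A00pm_213_s1 : ℕ → ℕ → ℕ → ℕ → Bool := onCell 0 536870912 536870912 536870912 858993459 64424510
    (rowF 0 true true false .pnn 2 1 3 (qsf 0 536870912 536870912 536870912 3) ndB0q2 ndB0q1 pcB3 cut_A00pm_213_s1 Ext.none)

def k0_A00pm_213_s1 : ∃ t, chk3 f_A00pm_213_s1 t 1 1 1 = true :=
  ⟨(l 6), by decide +kernel⟩

theorem c_A00pm_213_s1 : CertF 0 536870912 536870912 536870912 858993459 64424510 true true false .pnn 2 1 3
    ndB0q2 ndB0q1 pcB3 cut_A00pm_213_s1 Ext.none :=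
  certF0 (fam := true) (s1 := true) (s2 := false) (a := 2) (b := 1) (c := 3) (cn := .pnn) (n1 := ndB0q2) (n2 := ndB0q1) (pc := pcB3) (cut := cut_A00pm_213_s1) (xt := Ext.none) (P1 := 0) (W1 := 536870912) (P2 := 536870912) (W2 := 536870912) (P3 := 858993459) (W3 := 64424510)
    rfl k0_A00pm_213_s1

theorem s_A00pm_213_s1 {κ x : ℝ} (hκ : κ * h0 = ken x) (hx : ((858993459 : ℕ) : ℝ) / S ≤ x)
    (hx' : x ≤ (((858993459 : ℕ) : ℝ) + (64424510 : ℕ)) / S)
    (H : CutA (VFD κ) PP tK tL pcB (Cut.of [[⟨0, 1, 0, 67108864⟩, ⟨1, 1, 0, 67108864⟩, ⟨2, 2, 0, 16777216⟩], [⟨0, 1, 0, 16777216⟩, ⟨1, 0, 1, 20971520⟩, ⟨2, 1, 1, 20971520⟩]]) 2 1 3 0 0 (sgb true) (sgb false) x) :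
    AltA (VFD κ) PP tK tL pcB [⟨3, 0, 0, 1449551462⟩] 2 1 3 0 0 (sgb true) (sgb false) x :=
  strip_altAD (m := 1449551462) true rfl hκ (SH.κ0 hκ (SH.hx1 hx).le (SH.hx2 hx').le) (SH.hx1 hx).le (SH.hx2 hx') (covB02).cov (covB01).cov hx hx' c_A00pm_213_s1 H (noExt_A)

end Pool.Agent.Strip051.G.I8000_8600.Tab.St.C
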