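import Pool.Agent.Strip051.G.I8000_8600.StH
import Pool.Agent.Strip051.G.I8000_8600.StF

/-! # Unit strips 11 (generated) -/

set_option linter.all false
set_option maxRecDepth 100000

namespace Pool.Agent.Strip051.G.I8000_8600.Tab.St.C

open Pool.Agent.Strip051.PB Pool.Agent.Strip051.PB.T Pool.Agent.StripNear Pool.Agent.Strip051.LC
open Pool.Agent.Strip051.G.I8000_8600.Tab Pool.Agent.Strip051.G.I8000_8600.Tab.St

noncomputable def cut_A00pm_213_s3 : Cut := Cut.of [[⟨3, 0, 0, 2845415833⟩], [⟨0, 1, 0, 67108864⟩, ⟨1, 1, 0, 67108864⟩, ⟨2, 2, 0, 16777216⟩], [⟨0, 1, 0, 16777216⟩, ⟨1, 0, 1, 20971520⟩, ⟨2, 1, 1, 20971520⟩]]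

noncomputable def xt_A00pm_213_s3 : Ext := strExt dd true true false .u2 .u0m .s2m .pnn 2 1 3 rfl rfl gl3 vv ndB0q2 ndB0q1

noncomputable def f_A00pm_213_s3 : ℕ → ℕ → ℕ → ℕ → Bool := onCell 0 536870912 1610612736 536870912 858993459 64424510
    (rowF 1 true true false .pnn 2 1 3 (qsf 0 536870912 536870912 536870912 3) ndB0q2 ndB0q1 pcB3 cut_A00pm_213_s3 xt_A00pm_213_s3)

def k0_A00pm_213_s3 : ∃ t, chk3 f_A00pm_213_s3 t 2 2 1 = true :=
  ⟨(b (a (l 1) (l 6)) (b (b (b (a (l 1) (l 6)) (a (a (c (l 534190863) (a (l 534333455) (l 16641080))) (c (a (l 16653648) (l 16630872)) (a (l 16662896) (l 16643432)))) (a (a (c (l 16606584) (l 16623848)) (l 6)) (l 6)))) (a (a (c (a (l 534316303) (l 534355471)) (a (l 534362383) (l 533870095))) (c (b (a (l 16669984) (l 16647696)) (a (l 16685104) (l 16663216))) (b (a (l 16674560) (l 16654400)) (a (l 16684360) (l 16662680))))) (a (c (b (l 16610624) (a (l 16638872) (l 16612136))) (a (b (l 16633648) (l 16639976)) (c (l 16614272) (l 16606392)))) (l 6)))) (a (a (b (c (a (l 534480143)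 (l 534510607)) (a (l 534263823) (l 534281231))) (c (a (l 534533391) (l 534537743)) (a (l 534134031) (l 534136079)))) (c (a (b (b (l 16698936) (l 534545935)) (a (l 534524943) (b (l 16717096) (l 16725808)))) (b (b (l 16677256) (l 16689592)) (b (l 16699736) (a (l 16713488) (l 16700744))))) (a (b (a (l 534281487) (b (l 16687432) (l 16696824))) (a (l 534124047) (b (l 16707104) (l 534072079)))) (b (b (l 16670504) (l 16679304)) (a (b (l 16695088) (l 16705976)) (b (l 16682928) (l 16693552))))))) (c (a (b (b (a (l 16652504) (l 16624728)) (a (l 16663848) (l 16634152))) (c (b (l 16658568) (l 16662472)) (b (l 16655856) (l 16667040)))) (b (a (b (l 6) (l 16600856)) (l 6)) (b (a (l 16606120) (l 16572216)) (a (l 16618264) (l 16584208))))) (a (b (b (a (l 16646840) (l 16620568)) (a (l 16654816) (l 16627672))) (c (b (l 16654176) (l 16664112)) (b (l 16644856) (l 16655144)))) (a (b (c (l 16597448) (l 16587552)) (b (l 16604800) (l 16614016))) (b (l 6) (b (l 16569968) (l 16578832))))))))), by decide +kernel⟩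

def k1_A00pm_213_s3 : ∃ t, chk3 f_A00pm_213_s3 t 4 3 1 = true :=
  ⟨(b (b (a (b (c (a (l 534438159) (l 534457615)) (a (l 534021391) (l 534006799))) (b (a (l 4) (l 534301711)) (l 4))) (a (a (b (c (l 534457359) (l 533982223)) (b (l 534278671) (b (l 534276623) (c (l 534627855) (l 533835535))))) (b (b (c (l 534420239) (l 533996559)) (c (l 534470159) (l 533927183))) (c (b (a (l 534527247) (l 534503439)) (b (l 534022671) (a (l 534602767) (l 534518287)))) (b (b (l 533880591) (l 534389263)) (c (l 534037263) (l 533570063)))))) (b (a (b (c (l 16725936) (l 533972495)) (c (l 534400527) (l 533899791))) (b (c (l 16713592) (l 16705168)) (c (l 16726232) (c (l 16720832) (l 16714128))))) (a (b (c (b (l 16747464) (l 534428431)) (b (l 16740544) (l 533821199))) (b (c (l 534426127) (l 533794831)) (l 534401807))) (b (c (b (l 16735568) (l 16741736)) (c (l 16733704) (l 16770376))) (c (b (l 16747816) (l 16774920)) (b (l 16762864) (l 533735439)))))))) (a (l 4) (b (b (a (a (l 4) (c (l 534534671) (l 533780495))) (a (c (l 534397967)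 (l 533746191)) (a (b (l 534042127) (l 534026255)) (b (l 533995791) (c (l 534228751) (l 533689615)))))) (a (l 4) (a (b (l 534082319) (l 4)) (c (c (b (l 534405391) (l 534450703)) (b (l 534138895) (l 534148367))) (c (l 534377999) (b (l 533527311) (l 533524751))))))) (a (l 4) (l 4))))) (l 4)), by decide +kernel⟩

def k2_A00pm_213_s3 : ∃ t, chk3 f_A00pm_213_s3 t 5 12 1 = true :=
  ⟨(a (c (b (a (b (l 16693272) (c (l 16706032) (l 16705400))) (b (l 16663400) (l 16676792))) (a (b (b (l 16715936) (l 16722392)) (b (l 16728968) (a (l 16741944) (l 16729248)))) (b (l 16690600) (b (l 16701488) (l 16709208))))) (b (a (b (l 16685456) (c (l 16701168) (l 16693896))) (b (l 16656744) (l 16669040))) (a (b (c (l 16756056) (l 16750056)) (b (l 16743056) (a (l 16736224) (l 16722664)))) (b (l 16724536) (b (l 16693528) (l 16701168)))))) (c (c (b (b (l 16611800) (l 16627480)) (a (b (l 16660184) (l 16678200)) (b (l 16629576) (l 16650744)))) (b (b (l 16615616) (l 16628856)) (a (b (l 16659456) (l 16675320)) (b (l 16627872) (l 16645744)))))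 (c (a (b (l 16697680) (b (l 16654664) (l 16669816))) (b (b (l 16594312) (l 16606856)) (b (l 16621288) (l 16637576)))) (a (b (l 16667448) (b (l 16646256) (l 16661936))) (b (b (l 16583008) (l 16595760)) (b (l 16610304) (l 16626528))))))), by decide +kernel⟩

def k3_A00pm_213_s3 : ∃ t, chk3 f_A00pm_213_s3 t 5 13 1 = true :=
  ⟨(a (b (a (b (c (a (b (l 16748656) (l 534139919)) (b (l 16736440) (l 16743760))) (a (b (l 16743792) (l 533643279)) (b (l 16730344) (l 16738192)))) (b (a (a (a (l 533940239) (l 533917967)) (l 533884687)) (l 533817615)) (a (l 533910543) (l 533826063)))) (b (a (b (l 16720488) (l 533993231)) (b (l 16706728) (l 16714840))) (a (b (l 534265103) (l 534279439)) (b (l 16723160) (c (l 16736280) (l 16726992)))))) (a (a (b (b (l 533923855) (l 533948175)) (l 4)) (b (c (l 534238479) (l 533503247)) (b (l 533922319) (l 4)))) (b (c (a (b (l 534132239) (l 534232847)) (b (l 16744680) (l 534207759))) (a (b (l 533424655) (l 533423887)) (b (l 16735856) (l 16765840)))) (c (a (b (l 534349071) (a (l 534490639)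 (l 534499599))) (b (l 534348815) (l 534516239))) (a (b (l 533434895) (l 533458703)) (b (l 533361167) (l 533392655))))))) (b (a (b (c (l 16716624) (l 16724688)) (a (b (l 16709944) (l 16718904)) (c (l 16709320) (l 16693040)))) (b (c (l 16670176) (l 16650264)) (c (l 16692856) (l 16669808)))) (a (a (b (b (l 533651215) (l 533715983)) (b (l 534606607) (c (l 534547471) (l 533331471)))) (b (c (l 534131215) (l 16754368)) (c (b (l 16743344) (l 16762528)) (b (l 16727440) (l 16758504))))) (b (b (l 16739440) (c (l 16721152) (l 16696256))) (a (b (l 16766304) (c (l 16745184) (l 16724728))) (b (l 16714120) (c (l 16739264) (l 16712144)))))))), by decide +kernel⟩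

def k4_A00pm_213_s3 : ∃ t, chk3 f_A00pm_213_s3 t 10 14 1 = true :=
  ⟨(b (a (l 4) (b (a (b (c (l 534672911) (l 533496847)) (l 4)) (c (b (l 534708495) (l 534941455)) (b (l 533442575) (l 533537295)))) (l 4))) (l 4)), by decide +kernel⟩

def k5_A00pm_213_s3 : ∃ t, chk3 f_A00pm_213_s3 t 11 28 1 = true :=
  ⟨(a (b (a (c (b (l 534757391) (l 535008527)) (b (l 533394447) (l 533502735))) (b (c (l 534821135) (l 533353999)) (c (l 535093519) (l 534014735)))) (a (b (c (l 535303695) (l 533646863)) (c (l 535647759) (l 533826319))) (a (b (l 535011855) (c (l 535747087) (l 533836303))) (b (c (l 535443215) (l 533640975)) (c (a (l 535802895) (b (l 535741455) (l 535948303))) (a (l 533844751) (b (l 533795599) (c (l 534394639) (l 533448463))))))))) (b (c (a (b (l 534904847) (l 535470351)) (b (l 16749240) (l 16758240))) (a (b (l 533325583) (b (l 16743464) (l 16748720))) (b (l 16723664) (l 16735200)))) (c (a (a (b (l 535511311) (b (l 535802639) (c (l 536581135) (l 535468303)))) (b (l 535588111) (b (l 535892239) (l 536115471))))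 (b (b (l 16764208) (l 16767744)) (b (l 536044815) (l 536282895)))) (a (a (b (l 533647119) (b (l 533808911) (c (l 534425615) (l 533453583)))) (b (l 533660431) (b (l 533833231) (l 533964047)))) (b (b (l 16743592) (l 16759472)) (b (l 533881359) (l 534024463))))))), by decide +kernel⟩

def k6_A00pm_213_s3 : ∃ t, chk3 f_A00pm_213_s3 t 11 29 1 = true :=
  ⟨(a (a (l 4) (a (l 4) (b (b (b (c (c (a (l 536694031) (l 536748559)) (a (l 535574031) (l 535612431))) (c (a (l 534525967) (l 534547727)) (a (b (l 533523215) (l 4)) (b (l 533526543) (l 533585167))))) (l 4)) (l 4)) (l 4)))) (b (b (a (c (b (a (l 536247311) (l 536355855)) (l 536555023)) (b (a (b (l 534033679) (l 534105871)) (l 534109199)) (l 534244623))) (c (b (l 536539407) (l 536815887)) (b (l 534182159) (a (l 534324495) (l 534387983))))) (a (a (l 4) (c (l 536773903) (b (l 534444559) (l 534637071)))) (c (a (l 536654607) (b (l 537193487) (l 537432847))) (b (a (l 534509839) (l 534583823)) (a (l 534713103) (l 534798863)))))) (a (l 4) (b (c (b (a (l 537414671)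 (l 537448975)) (a (l 4) (c (l 537600783) (l 537056015)))) (b (a (b (l 534878479) (l 4)) (c (l 535722767) (b (l 534309135) (l 534416655)))) (a (l 4) (a (l 4) (b (a (l 534703887) (l 535002127)) (l 4)))))) (l 4))))), by decide +kernel⟩

def k7_A00pm_213_s3 : ∃ t, chk3 f_A00pm_213_s3 t 5 15 1 = true :=
  ⟨(l 4), by decide +kernel⟩

def k8_A00pm_213_s3 : ∃ t, chk3 f_A00pm_213_s3 t 3 2 1 = true :=
  ⟨(b (l 6) (a (b (l 6) (l 6)) (l 6))), by decide +kernel⟩

def k9_A00pm_213_s3 : ∃ t, chk3 f_A00pm_213_s3 t 6 12 1 = true :=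
  ⟨(a (b (a (b (c (l 16520120) (c (l 16557136) (l 16543232))) (c (l 16641352) (a (l 16573888) (l 16554232)))) (a (b (l 6) (b (l 6) (a (l 16555792) (l 16514944)))) (l 6))) (b (a (c (l 16597664) (l 16579288)) (c (a (l 16573816) (b (l 16551624) (l 16564272))) (a (l 16549872) (b (l 16525080) (l 16534184))))) (a (c (l 16620312) (l 16596648)) (c (a (l 16599280) (b (l 16578064) (l 16592856))) (a (l 16568592) (b (l 16544064) (l 16554760))))))) (b (l 6) (a (a (b (c (l 16541776) (l 16508592)) (c (b (l 16563176) (l 16579176)) (b (l 16524056) (l 16535520)))) (b (l 6) (c (l 16556360) (b (l 16503256) (l 16515576))))) (a (b (l 6) (c (l 16541704) (l 16488264))) (l 6))))), by decide +kernel⟩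

def k10_A00pm_213_s3 : ∃ t, chk3 f_A00pm_213_s3 t 12 13 1 = true :=
  ⟨(b (c (a (b (l 16645584) (l 16672504)) (b (a (l 16627896) (l 16616744)) (a (l 16658752) (l 16650640)))) (a (b (l 16616296) (l 16638224)) (b (b (l 16575368) (l 16587248)) (a (l 16614384) (l 16598584))))) (a (b (c (l 16699872) (l 16662168)) (b (l 16741928) (c (l 16732680) (l 16694040)))) (b (a (c (l 16690584) (l 16641208)) (c (l 16686032) (l 16627784))) (a (c (l 16721976) (l 16670024)) (c (l 16721488) (l 16659432)))))), by decide +kernel⟩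

def k11_A00pm_213_s3 : ∃ t, chk3 f_A00pm_213_s3 t 13 13 2 = true :=
  ⟨(b (a (b (a (b (l 16596448) (a (l 16617432) (l 16612064))) (b (l 16583360) (l 16603168))) (a (a (l 16645240) (b (l 16631768) (l 16651920))) (b (l 16624336) (a (b (l 16643160) (l 16654280)) (l 16644552))))) (b (a (b (l 16570256) (l 16591384)) (l 16568152)) (a (b (l 16614072) (l 16638328)) (b (l 16603912) (l 16630160))))) (a (b (b (a (l 16673120) (a (b (l 16665432) (a (l 16676904) (l 16676424))) (b (l 16662424) (l 16674672)))) (a (l 16693208) (a (a (l 16693240) (l 16672512)) (a (b (l 16687584) (l 16678736)) (b (l 16686664) (l 16699544)))))) (b (a (l 16713400) (a (l 16715744) (a (b (l 16711672) (l 16723512)) (b (a (l 16712424) (l 16712584)) (a (l 16724792) (l 16704600)))))) (a (l 16733488) (a (l 16738128) (a (l 16741272) (l 16733216)))))) (b (a (b (a (l 16665536) (l 16662584)) (a (b (l 16685232) (l 16698712)) (l 16690448))) (b (l 16658352) (a (l 16689040) (l 16687776)))) (a (b (a (b (l 16712440) (c (l 16750864) (l 16702216))) (b (l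 16712224) (l 16727112))) (a (a (b (a (l 16718304) (b (l 16736696) (l 16743608))) (a (l 16752032) (l 16732568))) (b (l 16740864) (a (b (l 16751352) (l 16758328)) (l 16755672)))) (c (l 16734816) (l 16723408)))) (b (a (l 16719984) (l 16720496)) (a (b (l 16744120) (l 16760600)) (l 16749184))))))), by decide +kernel⟩

def k12_A00pm_213_s3 : ∃ t, chk3 f_A00pm_213_s3 t 13 13 3 = true :=
  ⟨(b (a (b (a (b (a (l 16552536) (l 16543264)) (a (l 16565608) (l 16556904))) (b (l 16528976) (l 16543496))) (a (a (l 16586880) (b (l 16571512) (l 16587056))) (b (a (l 16563320) (l 16554952)) (a (b (l 16575520) (l 16583984)) (l 16572160))))) (b (a (b (l 16509456) (l 16525192)) (b (l 16489608) (l 16506640))) (a (b (l 16542256) (l 16560704)) (b (l 16525208) (l 16545384))))) (a (b (a (b (l 16606736) (l 16623560)) (b (a (a (l 16598696) (b (l 16591016) (l 16600080))) (b (l 16585840) (l 16595336))) (b (a (l 16610704) (a (l 16606552) (l 16603632))) (a (l 16620016) (a (c (l 16636792) (l 16596208)) (l 16613816)))))) (b (a (l 16641096)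 (a (l 16676320) (c (a (l 16652392) (b (l 16645800) (l 16656800))) (b (l 16646344) (l 16614400))))) (a (l 16659224) (a (l 16654120) (b (l 16688064) (l 16656784)))))) (b (a (b (a (l 16583872) (l 16577192)) (a (b (l 16599232) (l 16609872)) (l 16598976))) (b (l 16588216) (a (l 16593488) (l 16588096)))) (a (c (b (a (b (l 16643248) (l 16655048)) (l 16646048)) (a (a (b (l 16667408) (l 16679080)) (b (l 16666608) (l 16679032))) (l 16671784))) (b (a (b (l 16598688) (l 16609392)) (l 16598592)) (a (a (b (l 16621424) (l 16632344)) (b (l 16619256) (l 16630648))) (l 16621928)))) (b (a (l 16618016) (l 16614008)) (a (l 16685984) (l 16641648))))))), by decide +kernel⟩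

def k13_A00pm_213_s3 : ∃ t, chk3 f_A00pm_213_s3 t 12 28 1 = true :=
  ⟨(b (b (a (a (b (l 16725584) (l 16731424)) (c (l 16743976) (l 16701888))) (c (l 16745384) (l 16688112))) (a (a (c (l 16756016) (l 16724936)) (l 16761248)) (a (l 16731848) (l 16730896)))) (a (a (b (c (l 16765064) (b (l 16734112) (l 16740032))) (c (b (l 16770848) (l 16774120)) (b (l 16745760) (l 534129167)))) (b (b (l 16744128) (l 16749896)) (c (b (l 16773040) (l 16777064)) (b (l 16738536) (l 16744640))))) (a (b (l 16755904) (c (l 16780496) (l 16736352))) (b (l 16746304) (c (l 16789408) (l 16733224)))))), by decide +kernel⟩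

def k14_A00pm_213_s3 : ∃ t, chk3 f_A00pm_213_s3 t 24 29 1 = true :=
  ⟨(b (a (b (c (a (l 536893455) (l 537057551)) (a (b (l 534271503) (l 534460431)) (l 534171407))) (c (a (b (l 537364751) (l 537466383)) (b (l 537481999) (l 537498639))) (a (b (l 534667791) (b (l 534836751) (l 534955791))) (b (l 534762767) (l 535004175))))) (a (b (b (l 535718927) (l 535989775)) (c (l 536987407) (b (l 534869775) (l 535126543)))) (b (b (l 535859727) (l 536146191)) (b (l 535921423) (c (l 16761552) (l 535263759)))))) (c (a (b (a (b (l 537213711) (b (l 537223951) (l 537499151))) (b (l 537513999) (l 537259535))) (a (b (c (l 537650191) (l 537366543)) (l 4)) (b (l 537272335) (c (l 537695503) (l 537405711))))) (b (a (b (l 537544463) (l 537557775)) (b (l 537573391) (l 537586447))) (a (b (l 537570063) (l 537312783)) (b (l 537597967) (l 537608463))))) (b (a (a (b (c (l 535857679) (a (l 534425615) (l 534471439))) (b (a (c (l 536047375) (l 534600975)) (l 535381263)) (c (l 536246543) (a (l 534725391) (l 534780687))))) (b (b (l 535201039)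 (l 535339791)) (a (b (l 535449615) (l 535599631)) (l 535598095)))) (a (b (l 535408655) (a (l 535676943) (l 535760143))) (b (l 535564303) (l 535894287)))) (a (a (a (l 4) (b (b (l 534874383) (l 4)) (l 4))) (b (c (l 536689167) (a (l 535050767) (l 535120399))) (a (l 4) (b (l 536186895) (l 4))))) (a (b (a (l 536011791) (l 536105743)) (a (c (l 537111311) (l 535521807)) (l 536485391))) (b (l 535720207) (a (l 536597263) (l 536715023)))))))), by decide +kernel⟩

def k15_A00pm_213_s3 : ∃ t, chk3 f_A00pm_213_s3 t 25 29 1 = true :=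
  ⟨(b (a (b (a (b (l 16765800) (l 16749656)) (b (l 16767120) (l 16772408))) (a (b (l 536650767) (l 535937807)) (c (l 16775008) (l 535430159)))) (b (c (l 16747344) (l 16748200)) (a (c (l 16744904) (l 16761248)) (b (l 16741136) (l 16740792))))) (a (b (a (c (l 536805391) (b (l 535738383) (l 536090895))) (b (l 536467215) (c (l 16762200) (l 536310287)))) (c (a (b (l 537624591) (l 537634319)) (b (l 537649423) (l 537658895))) (a (b (l 536478479) (l 536636175)) (b (l 536725263) (l 536963855))))) (b (a (b (l 536750095) (l 536497423)) (c (l 16765280) (l 536338703))) (a (b (c (l 16762424) (l 536945679)) (c (l 537681679) (l 536966671))) (b (l 536525071) (c (l 16762576) (l 536968975))))))), by decide +kernel⟩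

def k16_A00pm_213_s3 : ∃ t, chk3 f_A00pm_213_s3 t 24 60 1 = true :=
  ⟨(b (c (a (l 4) (b (a (b (l 537319183) (a (l 4) (l 537598735))) (b (l 537614351) (l 537350415))) (a (l 4) (b (a (l 537616399) (l 537629199)) (a (l 4) (b (l 537631759) (l 4))))))) (a (l 4) (b (a (a (l 4) (b (l 536794895) (c (l 537140239) (l 536084495)))) (b (a (l 536916751) (l 536973071)) (a (l 536177167) (l 536984335)))) (a (l 4) (b (a (b (l 536185615) (l 4)) (c (l 537159951) (l 536534031))) (a (l 4) (a (l 4) (b (l 537005071) (l 4))))))))) (l 4)), by decide +kernel⟩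

def k17_A00pm_213_s3 : ∃ t, chk3 f_A00pm_213_s3 t 25 120 1 = true :=
  ⟨(a (c (b (a (b (l 537639951) (l 537644047)) (l 537398543)) (a (b (l 537379343) (a (l 537376783) (l 537657103))) (a (l 537131279) (l 537410831)))) (a (b (b (l 536975887) (a (l 536986127) (l 536987663))) (b (a (l 536729359) (l 536999183)) (a (c (l 537174287) (l 536572943)) (c (l 537178383) (l 536839951))))) (b (b (l 536978959) (l 536990223)) (b (a (l 537000719) (l 537001743)) (a (l 537012239) (l 537013519)))))) (a (b (c (l 537420815) (a (l 536987151) (l 536988175))) (c (b (l 537692687) (l 537158927)) (a (l 536741391) (l 536742159)))) (b (c (l 537709583) (l 536721679)) (a (b (l 537096207) (l 536834831)) (c (l 537719823) (l 537011983)))))), by decide +kernel⟩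

def k18_A00pm_213_s3 : ∃ t, chk3 f_A00pm_213_s3 t 50 121 1 = true :=
  ⟨(b (a (a (l 4) (b (c (b (l 537659151) (l 537392399)) (b (l 536482831) (c (l 537190415) (l 536857359)))) (l 4))) (c (b (a (l 537403407) (l 537682703)) (a (b (l 537405199) (a (l 4) (l 537409295))) (b (l 537684495) (l 537417487)))) (b (a (b (l 537020943) (l 536758543)) (l 536756751)) (c (a (b (l 537199119) (l 536935695)) (l 537205519)) (a (b (l 536863247) (a (l 4) (l 536870159))) (l 536597007)))))) (a (l 4) (b (a (l 4) (a (b (c (l 537483279) (c (l 537211663) (l 536876815))) (l 4)) (c (b (l 537421327) (c (l 537840655) (l 537537551))) (b (c (l 537213199) (l 536875791)) (c (l 537218319) (l 536883471)))))) (l 4)))), by decide +kernel⟩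

def k19_A00pm_213_s3 : ∃ t, chk3 f_A00pm_213_s3 t 51 121 1 = true :=
  ⟨(c (a (b (a (b (l 537693199) (b (l 537694735) (l 537696015))) (b (l 537703183) (l 537437199))) (b (a (c (a (l 537847055) (l 537718799)) (a (l 537540367) (b (l 537542671) (l 537545231)))) (a (b (l 537704719) (l 537437455)) (l 537441807))) (a (b (a (c (b (l 537846543) (l 537846543)) (b (l 537543183) (l 537544463))) (c (a (l 537851151) (l 537854223)) (a (l 537546767) (l 537548559)))) (b (a (l 4) (c (a (l 537850895) (b (l 537853967) (l 537853967))) (a (l 537548559) (l 537583887)))) (l 4))) (b (a (c (l 537825039) (l 537551375)) (l 537711631)) (a (c (l 537858319) (l 537553935)) (l 537712655)))))) (b (a (b (l 537712911) (l 537715215)) (l 537456143)) (b (a (a (l 537714959) (l 537719567)) (l 537726223)) (a (b (l 537718543) (l 537719567)) (l 537728271))))) (a (b (a (b (l 537026063) (b (l 537034767) (l 536772367))) (b (l 537026831) (a (l 537038351) (l 537038607)))) (c (b (a (a (l 537217807) (b (l 537216271) (l 537221391))) (a (l 537220623)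 (l 537222159))) (a (b (a (b (l 537223695) (l 537226255)) (a (l 537225999) (l 537226767))) (a (l 4) (b (a (l 537229839) (l 537230607)) (l 4)))) (b (a (l 537227791) (l 537229071)) (l 537300751)))) (a (b (a (l 536878863) (l 536877839)) (b (a (l 536890127) (l 536956175)) (a (l 4) (b (a (l 536894991) (l 536894479)) (l 4))))) (b (a (l 536876815) (l 536875791)) (b (a (l 536888079) (l 536886799)) (l 536895503)))))) (b (a (b (l 537027343) (l 537039119)) (l 536766479)) (b (a (a (l 537051151) (l 537051151)) (l 537051407)) (a (b (l 537060367) (l 537066767)) (l 537063951)))))), by decide +kernel⟩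

def k20_A00pm_213_s3 : ∃ t, chk3 f_A00pm_213_s3 t 12 61 1 = true :=
  ⟨(a (l 4) (b (a (l 4) (a (b (a (l 4) (b (c (a (a (l 4) (b (l 537710351) (l 4))) (c (l 537864207) (l 537561359))) (a (c (l 537308431) (l 536908303)) (c (l 537242383) (l 536907279)))) (l 4))) (l 4)) (a (b (c (b (a (l 537719311) (l 537723663)) (a (l 537721359) (l 537725711))) (b (a (l 537077007) (l 537077007)) (a (l 537090575) (l 537090319)))) (l 4)) (b (c (b (l 537730063) (l 537732111)) (b (l 537077007) (l 537090575))) (a (l 4) (c (l 537470223) (l 536844815))))))) (l 4))), by decide +kernel⟩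

def k21_A00pm_213_s3 : ∃ t, chk3 f_A00pm_213_s3 t 12 31 1 = true :=
  ⟨(l 4), by decide +kernel⟩

def k22_A00pm_213_s3 : ∃ t, chk3 f_A00pm_213_s3 t 13 28 2 = true :=
  ⟨(b (b (a (a (l 16753064) (a (l 16760104) (b (l 16760472) (l 16772032)))) (b (a (a (a (l 16765560) (a (l 16768368) (b (l 16766616) (l 16773648)))) (c (l 16753648) (l 16745408))) (a (l 16692176) (l 16763200))) (a (a (a (l 16777864) (l 16761248)) (a (b (a (b (l 16780720) (l 16784160)) (l 16783896)) (a (l 16788768) (l 16748872))) (b (l 16785888) (l 16793144)))) (a (a (l 16746288) (l 16781760)) (l 16772072))))) (a (a (l 16770840) (a (l 16780016) (l 16787800))) (a (a (l 16776112) (a (b (a (l 16797752) (l 16758440)) (l 16801904)) (b (a (b (l 16757400) (l 16759792)) (l 16756264)) (a (l 16760392) (b (l 16759256) (l 16760288)))))) (a (a (b (l 16751832) (l 16756320)) (l 16748600)) (a (l 16743008) (l 16779376)))))) (b (a (a (l 16787448) (l 16756032)) (a (a (l 16800176) (a (l 16759232) (b (l 16760160) (l 16801520)))) (a (a (b (a (b (l 16759920)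 (l 16760416)) (b (l 16799816) (l 16759392))) (a (l 16801968) (l 16760136))) (b (l 16755224) (c (l 16785432) (l 16772832)))) (b (l 16748224) (l 16773408))))) (a (a (l 16793704) (l 16754832)) (a (a (l 16798880) (l 16758216)) (a (a (l 16780048) (b (c (l 16807544) (l 16774384)) (l 16801152))) (b (c (l 16782440) (l 16770664)) (a (a (l 16780320) (b (l 16800192) (l 16779872))) (l 16756624)))))))), by decide +kernel⟩

def k23_A00pm_213_s3 : ∃ t, chk3 f_A00pm_213_s3 t 13 28 3 = true :=
  ⟨(b (b (a (a (l 16677744) (a (l 16674384) (b (l 16667592) (l 16678448)))) (b (a (a (a (l 16666824) (c (l 16733352) (l 16642192))) (c (l 16691760) (l 16640208))) (a (l 16664480) (l 16663472))) (a (c (a (l 16702920) (a (b (l 16701624) (l 16707880)) (l 16705464))) (a (l 16654200) (a (b (l 16650064) (l 16656096)) (l 16652192)))) (a (a (l 16678432) (l 16678392)) (l 16678496))))) (c (a (a (l 16714352) (l 16716168)) (a (a (l 16720128) (a (b (l 16717056) (l 16729192)) (b (l 16750184) (l 16752696)))) (a (b (l 16720752) (l 16735016))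 (l 16731744)))) (a (a (l 16678760) (l 16673392)) (a (a (l 16671352) (a (b (l 16665120) (l 16677208)) (b (l 16664872) (l 16677560)))) (a (b (l 16664384) (l 16678000)) (l 16671528)))))) (b (a (a (l 16714816) (l 16715472)) (b (a (a (l 16712808) (a (l 16715112) (l 16759016))) (a (a (c (a (l 16746960) (l 16748464)) (l 16733160)) (l 16721144)) (l 16724416))) (c (a (l 16751864) (a (a (l 16761096) (l 16765080)) (l 16771128))) (a (l 16701208) (a (a (l 16704528) (l 16706232)) (l 16709048)))))) (a (a (l 16732872) (l 16736152)) (a (a (l 16741640) (l 16768096)) (a (a (a (l 16751368) (l 16753272)) (b (c (l 16779192) (l 16720208)) (l 16763208))) (a (b (a (l 16762704) (l 16754144)) (a (b (l 16763176) (l 16770328)) (b (l 16765408) (l 16772816)))) (b (l 16757160) (l 16751808)))))))), by decide +kernel⟩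

def k24_A00pm_213_s3 : ∃ t, chk3 f_A00pm_213_s3 t 13 29 1 = true :=
  ⟨(b (a (b (a (c (l 16792208) (l 16750104)) (c (l 16753224) (l 16756168))) (a (c (l 16748448) (l 16765952)) (c (l 16751288) (l 16774928)))) (c (c (b (a (l 16802752) (a (l 16804680) (a (b (l 16806280) (l 16804832)) (b (l 16784320) (l 16784368))))) (a (l 16800032) (a (l 16801848) (l 16781920)))) (b (a (l 16792864) (a (l 16794192) (a (b (l 16795240) (l 16794480)) (b (a (l 16794800) (l 16794168)) (l 16784424))))) (a (l 16791496) (a (l 16792768) (l 16783080))))) (c (b (a (l 16782448) (a (l 16783144) (a (b (l 16783592) (l 16783560)) (b (a (l 16783160) (l 16782680)) (a (l 16783808) (l 16783808)))))) (a (l 16782496) (a (l 16783192) (b (l 16783736) (l 16783704))))) (b (a (l 16743344) (a (l 16752728) (a (b (l 16751912) (l 16766200)) (b (a (l 16755184) (l 16757528)) (a (l 16770080) (l 16772216)))))) (a (l 16766576) (a (l 16773120) (a (l 16773264) (l 16773416)))))))) (a (b (a (a (c (l 16745656) (l 16777536)) (c (l 16788952) (l 16777896))) (c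 (l 16770072) (l 16757104))) (a (a (b (l 536804879) (l 536550415)) (c (l 16765688) (l 16757200))) (a (c (l 16746008) (l 16778288)) (c (l 16768256) (l 16778408))))) (a (b (a (c (l 16792888) (l 16778232)) (c (l 16793992) (l 16778488))) (a (c (l 16769432) (l 16778600)) (c (l 16770472) (l 16778888)))) (a (b (c (l 16774000) (l 16778832)) (c (l 16781872) (b (l 16779184) (l 16779352)))) (c (b (c (l 16799696) (l 16791848)) (c (l 16796304) (l 16789928))) (b (b (l 16779104) (l 16779376)) (a (l 16779544) (l 16769296)))))))), by decide +kernel⟩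

def k25_A00pm_213_s3 : ∃ t, chk3 f_A00pm_213_s3 t 26 60 1 = true :=
  ⟨(a (b (a (b (c (l 16773144) (l 536991503)) (c (l 537465359) (l 536744719))) (b (l 536304655) (c (l 16773136) (l 16767760)))) (b (a (a (b (l 537119759) (l 536858127)) (c (l 537741583) (l 537035279))) (a (l 536596239) (l 536868367))) (a (b (c (l 537470735) (l 537051663)) (c (l 537472271) (l 536795663))) (a (c (l 537752847) (l 537058831)) (l 536613135))))) (b (a (b (a (l 16761200) (l 16740584)) (a (l 16771032) (l 16760904))) (b (l 16762096) (l 16761432))) (a (b (c (l 16773056) (l 16767872)) (a (l 536884495) (l 537155599))) (c (b (l 16784712) (l 16772880)) (b (l 16778544) (l 16767976)))))), by decide +kernel⟩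

def k26_A00pm_213_s3 : ∃ t, chk3 f_A00pm_213_s3 t 52 61 1 = true :=
  ⟨(b (a (b (c (a (l 537472527) (l 537748495)) (a (l 536816911) (l 537084943))) (c (a (l 537207823) (l 537751823)) (a (b (l 537103887) (l 537118479)) (l 537112847)))) (b (a (c (l 537755663) (l 537084175)) (l 536626703)) (a (c (l 537758479) (l 537111823)) (c (l 537764623) (l 537110799))))) (b (b (a (a (l 4) (l 537182223)) (a (l 537453327) (l 537455887))) (a (l 4) (a (l 4) (l 537464079)))) (l 4))), by decide +kernel⟩

def k27_A00pm_213_s3 : ∃ t, chk3 f_A00pm_213_s3 t 53 122 1 = true :=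
  ⟨(a (b (a (l 536897807) (l 536900111)) (a (c (l 537770511) (l 537109519)) (c (l 537775631) (l 537107983)))) (c (a (b (l 537778959) (b (l 16780728) (l 16774808))) (b (l 16771784) (b (l 16781256) (l 16770088)))) (a (b (l 537080079) (b (l 16778088) (l 16777960))) (b (l 16778360) (b (l 16778232) (l 16778112)))))), by decide +kernel⟩

def k28_A00pm_213_s3 : ∃ t, chk3 f_A00pm_213_s3 t 53 246 2 = true :=
  ⟨(a (a (l 537504527) (b (l 537774095) (l 537775119))) (a (b (l 537241359) (a (l 537777935) (l 537510415))) (b (a (l 16774512) (l 16774760)) (c (b (l 16779728) (l 16776696)) (b (l 16779008) (l 16778728)))))), by decide +kernel⟩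

def k29_A00pm_213_s3 : ∃ t, chk3 f_A00pm_213_s3 t 106 247 2 = true :=
  ⟨(b (a (l 537503759) (l 537776399)) (b (a (l 4) (l 537776655)) (l 4))), by decide +kernel⟩

def k30_A00pm_213_s3 : ∃ t, chk3 f_A00pm_213_s3 t 107 247 4 = true :=
  ⟨(b (a (a (l 537923599) (b (l 537924111) (a (l 537923087) (l 537920527)))) (b (b (l 16779016) (a (l 16778672) (l 16778952))) (a (b (l 537914639) (c (l 537979919) (l 537841935))) (c (l 537968911) (l 537833743))))) (a (b (a (a (l 537920527) (a (l 537921295) (a (l 537921551) (c (l 537991183) (l 537851151))))) (c (b (a (l 537990671) (l 537985807)) (a (b (l 537990159) (a (b (l 537989391) (l 537989903)) (l 537985807))) (b (l 537982735) (l 537980943)))) (b (a (l 537850383) (l 537847055)) (a (b (l 537850383) (a (b (l 537850127) (l 537850639)) (l 537847823))) (b (l 537845263) (l 537844239)))))) (a (b (a (l 4) (c (b (a (l 537989135) (a (c (l 538023695) (l 537955343)) (b (l 537989903) (c (l 538023695) (l 537955343))))) (a (l 4) (a (l 4) (c (l 538024719) (l 537956367))))) (b (a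 (l 537850383) (a (c (l 537885967) (l 537815311)) (c (l 537885967) (l 537815567)))) (a (l 4) (c (a (l 4) (l 537886991)) (l 537815823)))))) (l 4)) (b (c (b (b (c (l 537746447) (l 537947663)) (c (l 537879055) (l 537812239))) (l 537982735)) (b (a (c (b (l 537882639) (l 537881615)) (l 537812239)) (l 537843727)) (l 537846031))) (c (l 537983503) (l 537847055))))) (b (b (c (a (l 537975823) (l 537963023)) (a (l 537839631) (l 537830415))) (c (a (b (l 537973007) (l 537971727)) (l 537960719)) (a (b (l 537838095) (l 537837327)) (l 537829135)))) (b (c (a (b (l 537971215) (l 537971471)) (l 537825807)) (a (b (l 537837327) (l 537837839)) (l 537695247))) (c (a (l 537971983) (l 537960719)) (a (l 537838863) (l 537830415))))))), by decide +kernel⟩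

def k31_A00pm_213_s3 : ∃ t, chk3 f_A00pm_213_s3 t 107 247 5 = true :=
  ⟨(b (a (a (l 537629967) (b (l 537628175) (a (l 537630479) (l 537629711)))) (b (a (l 537626383) (l 537623055)) (a (c (l 537432079) (l 537553167)) (c (l 537694479) (l 537551119))))) (b (a (a (a (l 537632527) (b (l 537632015) (c (a (l 537706767) (l 537707023)) (l 537458191)))) (a (b (c (l 537705743) (l 537557007)) (c (b (l 537706511) (a (l 537707023) (l 537705231))) (b (l 537558287) (a (l 537559055) (l 537558543))))) (b (c (l 537703695) (l 537556239)) (c (b (l 537703183) (l 537703183)) (l 537557519))))) (b (c (a (l 537699343) (l 537693455)) (a (l 537554703) (l 537552655))) (c (a (b (l 537698831) (l 537699087)) (l 537693711)) (a (l 537421839) (l 537554191))))) (a (b (a (a (l 4) (a (b (b (l 537634063) (l 4)) (l 4)) (c (b (a (c (l 537743887) (l 537671183)) (c (l 537743887) (l 537671183))) (c (l 537744399) (l 537671695))) (b (c (b (l 537597199) (l 537597455)) (l 537522447)) (c (l 537598223) (l 537523727)))))) (c (b (a (c (l 537741327)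 (l 537669391)) (l 537703183)) (l 537705231)) (b (c (l 537326863) (l 537521935)) (l 537560079)))) (a (l 4) (c (l 537706511) (l 537561871)))) (b (c (a (b (l 537699343) (l 537700111)) (l 537426191)) (b (c (l 537323535) (l 537252111)) (l 537288975))) (c (c (l 537464847) (l 537395983)) (c (l 537326095) (l 537255183))))))), by decide +kernel⟩

def k32_A00pm_213_s3 : ∃ t, chk3 f_A00pm_213_s3 t 53 246 3 = true :=
  ⟨(a (a (l 536870927) (b (l 537126927) (l 537142031))) (a (b (l 536856591) (a (l 537140239) (l 537139983))) (b (c (l 16778472) (l 16777464)) (b (l 16775240) (c (l 16778104) (l 16777440)))))), by decide +kernel⟩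

def k33_A00pm_213_s3 : ∃ t, chk3 f_A00pm_213_s3 t 53 247 3 = true :=
  ⟨(a (b (a (l 537160463) (l 537158415)) (b (a (l 4) (l 537169935)) (l 4))) (b (c (a (a (l 537318415) (b (l 537314575) (a (l 537320719) (l 537321743)))) (b (a (l 537316879) (l 16778008)) (c (a (l 537401615) (l 537403663)) (b (l 16777728) (l 536982799))))) (a (a (l 536989711) (a (l 536988943) (l 536990991))) (b (a (l 16777392) (l 16777448)) (c (b (l 16777512) (l 536825871)) (b (l 16777288) (l 536933391)))))) (c (a (b (a (a (l 537327375) (b (l 537325071) (c (l 537406223) (l 537249551)))) (c (a (b (l 537403663) (c (l 537444879) (l 537367567))) (b (l 537404431) (l 537407759))) (b (b (l 16777440) (l 537247247)) (c (l 537021199) (l 536941839))))) (b (a (a (l 4) (c (b (a (l 537408271) (c (l 537446671) (l 537369615))) (c (l 537447951) (l 537371151))) (c (b (l 537157647) (l 537293327)) (b (l 537212687) (l 537214479))))) (c (b (c (l 537447439) (l 537371663)) (l 537410831)) (c (l 537162255) (l 536950543)))) (a (l 4) (c (l 537412879) (l 537259791)))))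 (b (a (c (b (l 537405967) (l 537409039)) (b (l 537253135) (l 537257999))) (c (b (l 537407759) (l 537410831)) (l 536993039))) (b (a (c (l 537277711) (l 537261839)) (c (l 537413391) (l 537266703))) (c (l 537146895) (l 536999183))))) (a (c (b (a (l 536818447) (b (l 536816143) (a (l 536954383) (l 537095183)))) (a (a (l 4) (b (c (b (l 537132559) (l 537134607)) (l 536918287)) (l 4))) (b (b (l 536830479) (l 537099535)) (l 537102351)))) (b (a (l 536921103) (b (l 536649999) (a (l 536923151) (l 536932623)))) (a (a (l 4) (b (c (l 536970511) (l 536887311)) (l 4))) (c (l 536716047) (l 536634895))))) (b (c (b (l 536832783) (l 536973071)) (b (l 536942095) (l 536949775))) (b (c (a (l 537107471) (l 537116175)) (l 536955407)) (c (l 537115663) (l 536959759)))))))), by decide +kernel⟩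

def k34_A00pm_213_s3 : ∃ t, chk3 f_A00pm_213_s3 t 27 60 1 = true :=
  ⟨(a (b (a (c (l 16766808) (l 16778768)) (c (l 16767784) (l 16758120))) (c (b (l 16765336) (c (l 16775816) (l 16773008))) (b (l 16768528) (c (l 16780512) (l 16777368))))) (b (a (c (l 16779120) (b (l 16779472) (l 16779544))) (c (b (l 16791088) (l 16789656)) (b (l 16779920) (l 16780008)))) (a (b (l 16762680) (c (l 16786088) (l 16779552))) (b (l 16763272) (c (l 16786752) (l 16780064)))))), by decide +kernel⟩

def k35_A00pm_213_s3 : ∃ t, chk3 f_A00pm_213_s3 t 54 122 1 = true :=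
  ⟨(a (c (b (b (l 16783376) (l 16782688)) (b (l 16771512) (a (l 16781056) (l 16781512)))) (b (b (l 16778664) (l 16778584)) (b (l 16778496) (a (l 16778280) (l 16778480))))) (c (b (l 16773416) (b (l 16782848) (a (l 16781936) (l 16782328)))) (b (l 16779016) (b (l 16778920) (c (l 16779688) (l 16777944)))))), by decide +kernel⟩

def k36_A00pm_213_s3 : ∃ t, chk3 f_A00pm_213_s3 t 54 246 2 = true :=
  ⟨(a (b (b (l 16775536) (a (l 16780200) (l 16780648))) (c (a (b (l 16780264) (l 16779864)) (b (l 16780768) (l 16780368))) (b (l 16777008) (a (l 16779136) (l 16779528))))) (a (b (b (l 16781408) (l 16781064)) (b (l 16780720) (b (l 16780464) (l 16780296)))) (b (l 16776392) (c (l 16778864) (l 16780408))))), by decide +kernel⟩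

def k37_A00pm_213_s3 : ∃ t, chk3 f_A00pm_213_s3 t 108 247 2 = true :=
  ⟨(b (c (c (a (b (l 537957391) (b (l 537951247) (l 537679631))) (b (l 16780136) (b (l 16779824) (l 537656847)))) (a (b (l 537555727) (b (l 16779032) (l 537550351))) (b (l 16779792) (b (l 16779520) (l 537533455))))) (a (b (b (l 16778928) (l 16778784)) (c (b (l 16778776) (l 537416975)) (b (l 16778512) (l 537280015)))) (b (b (l 16779320) (l 16779176)) (c (b (l 16779200) (l 537406479)) (b (l 16778872) (l 537275919)))))) (b (c (a (c (b (a (l 537950991) (l 16779000)) (a (l 537949199) (l 537938447))) (b (a (l 537821711) (l 16778792)) (a (l 537820943) (l 537812751)))) (c (a (b (l 537928719) (l 537927695)) (b (l 16779544) (l 537917199))) (b (a (l 16779032) (l 16779272)) (a (l 537804815) (l 537797135))))) (a (c (b (a (l 537688079) (l 537682959)) (c (l 537450767) (l 537384207))) (b (l 537482767) (c (l 537316879) (l 537248783)))) (a (c (a (l 537679631) (l 537677071)) (l 537279503)) (c (l 537539343) (l 537277455))))) (c (a (c (a (c (l 537712655)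 (l 537649679)) (b (l 537938191) (l 537938959))) (a (c (l 537585935) (l 537521167)) (b (l 537813263) (l 537814543)))) (c (a (b (l 537927695) (l 537928463)) (l 537783823)) (a (b (l 537805583) (l 537806607)) (b (l 537797903) (l 537798927))))) (a (c (a (b (l 537689615) (l 537691151)) (b (l 537684751) (l 537686287))) (a (b (l 537554191) (l 537556239)) (l 537419279))) (c (a (b (l 537679631) (l 537681167)) (l 537541647)) (a (l 537417231) (l 537281039))))))), by decide +kernel⟩

def k38_A00pm_213_s3 : ∃ t, chk3 f_A00pm_213_s3 t 109 247 2 = true :=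
  ⟨(b (c (a (b (b (l 16780544) (l 16780352)) (b (l 16780160) (a (l 16779848) (l 16780088)))) (b (l 16780912) (a (l 16780416) (b (l 16780736) (l 16780544))))) (a (b (l 16779632) (b (l 16779424) (c (l 16779456) (l 16779104)))) (b (l 16780000) (b (l 16779792) (c (l 16779856) (l 16779456)))))) (c (a (b (c (a (l 537773327) (l 537763599)) (a (l 537655567) (l 537513999))) (c (a (l 537773839) (l 537629711)) (a (l 537657103) (l 537515535)))) (b (c (a (l 537619471) (l 537610255)) (a (l 537506575) (l 537499663))) (c (a (l 537619983) (l 537610767)) (a (l 537508111) (l 537501199))))) (a (b (c (a (l 537400079) (l 537395215)) (a (l 537275407) (l 537273103))) (c (a (l 537536783) (l 537397775)) (a (l 537278991) (l 537276943)))) (b (a (c (l 537390607) (l 537539599)) (b (l 16779608) (l 16779472))) (c (a (l 537393167) (l 537388303)) (a (l 537274639) (l 537272335))))))), by decide +kernel⟩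

def k39_A00pm_213_s3 : ∃ t, chk3 f_A00pm_213_s3 t 54 123 3 = true :=
  ⟨(b (a (b (a (l 16775536) (l 16775744)) (c (b (l 16778664) (a (l 16778368) (l 16778640))) (a (b (l 16777568) (l 16777560)) (l 16777712)))) (c (b (l 16779424) (a (l 16778992) (l 16779264))) (b (l 16777976) (a (l 16777880) (l 16778056))))) (a (b (c (c (a (b (l 16778376) (b (l 16778240) (l 537407247))) (b (l 16778680) (l 537274895))) (a (b (l 16778048) (l 536992271)) (b (l 16778296) (l 537001999)))) (a (b (b (l 16777552) (l 16777536)) (c (l 537110799) (l 536957199))) (b (l 16777688) (b (l 16777664) (l 16777648))))) (b (c (a (a (c (l 537276943) (l 537266447)) (c (l 537144079) (l 537271311))) (c (b (l 537144079) (l 537146639)) (b (l 537007375) (l 537010959)))) (a (c (c (l 536890895) (l 536816655)) (l 536971791)) (c (c (l 536904975) (l 536834063)) (l 536994575)))) (c (a (c (a (l 537282063) (l 537149199)) (b (l 537005583) (l 537008399))) (c (a (l 537150223) (l 537151247)) (c (l 537050127) (l 536981519)))) (a (c (b (l 536860175) (l 536863503))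 (l 536981775)) (c (c (l 536912399) (l 536842255)) (l 537003535)))))) (b (c (a (b (l 16778760) (b (l 16778640) (l 16778560))) (b (l 16779032) (c (l 16776464) (l 16778648)))) (a (b (l 16777848) (b (l 16777824) (l 16777800))) (b (l 16778016) (l 16777976)))) (c (a (b (c (b (l 537145871) (l 537148431)) (b (l 16778304) (l 537018639))) (a (c (l 537420303) (l 537289999)) (c (l 537421071) (l 537293327)))) (a (b (c (l 16778816) (l 16778448)) (c (l 537421583) (l 537296655))) (b (c (l 16778968) (l 16778568)) (b (l 16778640) (l 16778552))))) (c (a (b (l 536883727) (c (l 536924431) (l 536857359))) (b (l 536896271) (b (l 16778048) (l 536904463)))) (a (b (l 537015055) (l 537023759)) (b (l 16775096) (l 537041935)))))))), by decide +kernel⟩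

def k40_A00pm_213_s3 : ∃ t, chk3 f_A00pm_213_s3 t 55 122 1 = true :=
  ⟨(a (c (b (l 16779400) (b (l 16783592) (b (l 16783064) (l 16782720)))) (b (l 16774248) (b (l 16779400) (c (l 16780240) (l 16778352))))) (c (b (l 16785304) (b (l 16784256) (l 16783576))) (b (l 16780000) (b (l 16779896) (l 16779784))))), by decide +kernel⟩

def k41_A00pm_213_s3 : ∃ t, chk3 f_A00pm_213_s3 t 55 246 1 = true :=
  ⟨(b (c (a (c (l 16780296) (l 16781480)) (a (l 16782728) (l 16783080))) (a (c (l 16779968) (l 16778376)) (c (l 16780496) (l 16778776)))) (c (a (c (a (l 16781912) (l 16782320)) (a (l 16780752) (l 16781096))) (a (b (l 16782240) (l 16781912)) (l 16782432))) (a (c (a (l 16779528) (l 16779792)) (b (l 16778360) (l 16778336))) (c (l 16777576) (l 16778728))))), by decide +kernel⟩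

def k42_A00pm_213_s3 : ∃ t, chk3 f_A00pm_213_s3 t 55 247 1 = true :=
  ⟨(c (a (b (c (a (b (l 16781344) (a (b (l 16780952) (l 16780768)) (l 16781080))) (b (l 16781760) (b (l 16781488) (l 16781304)))) (a (b (l 16777728) (a (l 16779992) (l 16780168))) (b (l 16780696) (l 16777808)))) (a (c (b (a (b (l 16780584) (l 16780408)) (b (l 16780808) (l 16780624))) (a (b (l 16780224) (l 16780040)) (b (l 16780448) (l 16780264)))) (b (a (b (l 16779792) (l 16779656)) (b (l 16779968) (l 16779832))) (a (b (l 16779520) (l 16779384)) (c (l 16779816) (l 16779440))))) (c (b (a (l 16780928) (l 16781136)) (a (a (l 16780520) (l 16780624)) (l 16780784))) (b (a (l 16780072) (l 16780240)) (a (c (l 16780000) (l 16779608)) (l 16779976)))))) (a (b (b (l 16781600) (a (l 16781192) (l 16781376))) (a (b (l 16780880) (a (l 16780528) (l 16780616))) (b (l 16781064) (l 16780760)))) (b (b (l 16781968) (l 16781656)) (b (l 16778728) (a (l 16780944) (l 16781144)))))) (a (b (c (a (b (l 16779304) (b (l 16779184) (l 16779096))) (b (l 16779568)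 (l 16779400))) (a (b (l 16778192) (l 16778152)) (b (l 16778376) (l 16778328)))) (a (c (b (c (b (l 16779232) (l 16779136)) (b (l 16778792) (l 16778720))) (a (b (l 16778776) (l 16778688)) (c (l 16779056) (l 16778664)))) (b (c (l 16775696) (l 16777864)) (c (b (l 16778248) (l 16778192)) (c (l 16777920) (l 16777720))))) (c (b (a (l 16779168) (l 16779296)) (a (c (l 16779200) (l 16778784)) (l 16779128))) (b (l 16775648) (c (l 16778416) (l 16777968)))))) (b (c (a (b (l 16779824) (l 16779656)) (l 16774760)) (a (l 16778536) (l 16778728))) (a (c (b (l 16776872) (a (l 16779256) (l 16779384))) (b (l 16773200) (a (l 16778320) (l 16778408)))) (c (b (l 16779760) (l 16779592)) (b (l 16778640) (l 16778560))))))), by decide +kernel⟩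

def k43_A00pm_213_s3 : ∃ t, chk3 f_A00pm_213_s3 t 26 31 2 = true :=
  ⟨(b (b (a (l 4) (b (a (l 4) (b (b (a (a (l 4) (c (c (l 537850895) (l 537748751)) (c (l 537575183) (l 537296911)))) (c (c (a (l 537839375) (l 537828111)) (a (l 537740303) (l 537698575))) (c (a (l 537570063) (l 537564943)) (a (l 537295119) (l 537293327))))) (a (l 4) (a (l 4) (c (c (l 537830415) (b (l 537834767) (l 537836303))) (c (c (l 537736463) (l 537669135)) (l 537432079)))))) (l 4))) (l 4))) (l 4)) (l 4)), by decide +kernel⟩

def k44_A00pm_213_s3 : ∃ t, chk3 f_A00pm_213_s3 t 108 248 2 = true :=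
  ⟨(c (b (a (c (b (a (l 537817103) (l 537806351)) (a (l 537819407) (l 537808655))) (b (a (l 537690383) (l 537682447)) (a (l 537726991) (l 537685519)))) (c (b (a (l 537661711) (l 537651215)) (a (l 537663759) (l 537653519))) (b (a (l 537674767) (l 537532687)) (a (l 537677583) (l 537669903))))) (b (a (c (a (l 537822223) (l 537811471)) (a (l 537730319) (l 537688847))) (c (a (l 537666575) (l 537656335)) (a (l 537680911) (l 537673231)))) (a (l 4) (c (a (l 537669903) (l 537659663)) (a (l 537550607) (l 537542927)))))) (b (a (c (b (a (l 537559823) (l 537554959)) (a (l 537597199) (l 537558543))) (b (a (l 537291279) (l 537289231)) (a (l 537430031) (l 537427983)))) (c (b (a (l 537549839) (l 537410831)) (a (l 537553679) (l 537548559))) (b (a (l 537287183) (l 537285135)) (a (l 537291791) (l 537289487))))) (b (a (c (a (l 537601295) (l 537562639)) (a (l 537434895) (l 537432847))) (c (a (l 537557775) (l 537552655)) (a (l 537430799) (l 537294351)))) (a (l 4) (c (a (l 537562127) (l 537422863)) (a (l 537435919) (l 537299215))))))),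 by decide +kernel⟩

def k45_A00pm_213_s3 : ∃ t, chk3 f_A00pm_213_s3 t 109 248 2 = true :=
  ⟨(c (b (a (c (b (a (l 537641231) (l 537631247)) (a (l 537643279) (l 537633551))) (b (a (l 537525263) (l 537517839)) (a (l 537528079) (l 537520655)))) (c (b (a (l 537621775) (l 537880847)) (a (l 537623823) (l 537614607))) (a (b (l 537510671) (l 537513487)) (b (l 537503503) (l 537506319))))) (a (b (c (a (l 537646095) (l 537636367)) (a (l 537531407) (l 537523983))) (c (a (l 537649423) (l 537639695)) (a (l 537535247) (l 537527823)))) (b (c (a (l 537626639) (l 537617423)) (a (l 537516815) (l 537509647))) (c (a (l 537629967) (l 537889039)) (a (l 537520655) (l 537513487)))))) (b (a (c (b (a (l 537405967) (l 537401103)) (a (l 537409551) (l 537404687))) (b (a (l 537283087) (l 537280783)) (a (l 537287439) (l 537285135)))) (c (b (a (l 537396239) (l 537391375)) (a (l 537399823) (l 537394959))) (b (a (l 537278735) (l 537276431)) (a (l 537282831) (l 537280527))))) (a (c (b (a (l 537413391) (l 537408527)) (a (l 537417743) (l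 537412879))) (b (a (l 537292047) (l 537289743)) (a (l 537296911) (l 537294607)))) (c (b (a (l 537403663) (l 537398799)) (a (l 537408015) (l 537403151))) (b (a (l 537287439) (l 537284879)) (a (l 537292303) (l 537289743))))))), by decide +kernel⟩

def k46_A00pm_213_s3 : ∃ t, chk3 f_A00pm_213_s3 t 54 249 2 = true :=
  ⟨(b (a (a (l 4) (a (l 4) (b (c (c (l 537663503) (l 537547279)) (c (l 537427727) (l 537304591))) (l 4)))) (c (a (a (b (c (l 537921807) (l 537539599)) (c (l 537926415) (l 537813007))) (b (c (l 537912079) (l 537532175)) (c (l 537916431) (l 537805583)))) (b (c (a (l 537902351) (l 537892879)) (a (l 537525007) (l 537786127))) (c (b (l 537632015) (l 537634575)) (b (l 537524495) (l 537527055))))) (a (b (c (a (l 537422607) (l 537417743)) (a (l 537302287) (l 537299983))) (c (a (l 537427983) (l 537422863)) (a (l 537307919) (l 537305615)))) (b (c (a (l 537412623) (l 537407759)) (a (l 537297423) (l 537294863))) (c (a (l 537417999) (l 537681423)) (a (l 537303055) (l 537300495))))))) (a (l 4) (a (l 4) (a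 (b (b (c (l 537587983) (a (l 537365519) (l 537363727))) (l 4)) (l 4)) (b (c (c (l 537902607) (l 537796367)) (c (l 537687055) (l 537574671))) (b (b (c (l 537852687) (l 537366031)) (l 4)) (l 4))))))), by decide +kernel⟩

def k47_A00pm_213_s3 : ∃ t, chk3 f_A00pm_213_s3 t 110 248 2 = true :=
  ⟨(a (a (c (b (c (b (b (l 16780016) (l 16779824)) (b (l 16779632) (l 16779440))) (b (b (l 16779712) (l 16779544)) (b (l 16779376) (l 16779208)))) (c (b (b (l 16779248) (l 537877007)) (a (l 537882127) (l 537877519))) (b (b (l 16779032) (l 537502991)) (a (l 537776399) (l 537773071))))) (b (c (b (b (l 16779408) (l 16779256)) (b (l 16779112) (l 16778960))) (b (l 537408271) (b (l 16778840) (l 16778712)))) (c (b (b (l 16778816) (l 537394703)) (a (l 537667855) (l 537665295))) (b (b (l 16778592) (l 537283343)) (a (l 537556239) (l 537554959)))))) (c (b (b (b (l 16780088) (l 16779912)) (b (l 16779728) (a (l 16779496) (l 16779608)))) (b (c (b (l 16779488) (l 16779296)) (b (l 16779256) (l 16779080))) (c (b (l 16779112) (l 16778920))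 (b (l 16778912) (l 16778744))))) (b (c (b (l 537449231) (b (l 16779304) (l 16779160))) (b (l 537271567) (l 537409807))) (b (c (b (l 16779008) (l 16778864)) (b (l 16778760) (l 16778632))) (c (b (l 16778712) (l 16778560)) (b (l 16778504) (l 16778376))))))) (b (c (a (c (b (l 16780384) (l 537587983)) (b (l 16780048) (l 537485839))) (c (b (l 16780608) (l 16780232)) (b (l 16780256) (l 16779920)))) (a (c (b (l 16779712) (l 537380879)) (b (l 16779360) (l 537273103))) (c (b (l 16779896) (l 16779608)) (b (l 16779528) (l 16779280))))) (c (a (b (b (l 16779600) (l 16779416)) (c (l 537660943) (b (l 16779128) (l 16778960)))) (b (b (l 16779816) (l 16779640)) (b (l 16779464) (l 16779280)))) (a (b (b (l 16779064) (l 16778928)) (c (b (l 16778904) (l 16778760)) (b (l 16778672) (l 16778552)))) (b (b (l 16779240) (l 16779104)) (b (l 16778968) (l 16778832))))))), by decide +kernel⟩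

def k48_A00pm_213_s3 : ∃ t, chk3 f_A00pm_213_s3 t 111 248 2 = true :=
  ⟨(a (b (c (a (b (l 16780640) (l 16780288)) (b (l 16780848) (l 16780496))) (a (b (l 16779880) (l 16779616)) (b (l 16780048) (l 16779784)))) (c (a (b (l 16777320) (l 16776968)) (b (l 16780152) (l 16779800))) (a (b (l 16776728) (a (l 16779032) (l 16779120))) (b (l 16779512) (l 16776624))))) (a (b (b (l 16780640) (l 16780336)) (b (l 16777408) (c (l 16780016) (l 16779424)))) (b (b (l 16780840) (l 16780536)) (b (l 16780232) (l 16779928))))), by decide +kernel⟩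

def k49_A00pm_213_s3 : ∃ t, chk3 f_A00pm_213_s3 t 110 498 2 = true :=
  ⟨(a (a (c (a (b (c (l 537885967) (l 537780751)) (c (l 537890319) (l 537785615))) (b (c (l 537881359) (l 537777167)) (c (l 537885967) (l 537782031)))) (a (c (b (l 537672463) (l 537677583)) (b (l 537561359) (l 537566735))) (b (c (l 537670159) (l 537560079)) (c (l 537406735) (l 537363983))))) (c (b (c (b (l 16778728) (l 537875471)) (a (l 537773839) (l 537770255))) (c (a (l 537881359) (l 537877007)) (a (l 537778447) (l 537775119)))) (b (c (a (l 537667599) (l 537665295)) (b (l 537287951) (l 537290511))) (c (a (l 537404175) (l 537670415)) (a (l 537295631) (l 537294351)))))) (b (c (a (c (b (l 16778968) (l 16778776)) (b (l 16778792) (l 16778624))) (b (l 16779104) (l 16778928))) (a (c (b (l 16778608) (l 16778456)) (b (l 16778424) (l 16778288))) (b (l 16778696) (l 537337615)))) (c (a (c (b (l 16778584) (l 537871375)) (b (l 16778448) (l 537771023))) (b (l 16778744) (l 16778568))) (a (c (b (l 16778304) (l 537667599)) (a (l 537292815) (l 537559823)))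 (c (l 537393679) (l 537289487)))))), by decide +kernel⟩

def k50_A00pm_213_s3 : ∃ t, chk3 f_A00pm_213_s3 t 110 499 2 = true :=
  ⟨(a (b (c (a (a (a (l 537844495) (c (l 537625871) (b (l 537788175) (l 537790991)))) (b (c (l 537889295) (l 537785615)) (a (c (l 537893135) (l 537789199)) (c (l 537890831) (l 537787407))))) (b (c (l 537614095) (a (l 537782031) (l 537778703))) (a (c (l 537887503) (l 537784847)) (l 537832463)))) (a (b (a (c (l 537681423) (l 537570575)) (c (l 537678863) (l 537569295))) (a (a (l 537629711) (c (l 537683727) (l 537573391))) (c (a (l 537682447) (l 537681167)) (a (l 537572623) (l 537571855))))) (a (b (c (l 537676303) (l 537568015)) (c (l 537679375) (l 537570831))) (b (l 537352207) (l 537355023))))) (c (a (a (b (a (b (l 537847567) (c (l 537901071) (l 537796367))) (c (b (l 537897231) (l 537898767)) (b (l 537793039) (b (l 537794063) (l 537794831))))) (l 4)) (b (b (a (c (l 537894927) (l 537791247)) (l 537841423)) (c (l 537895439) (l 537792015))) (l 537846543))) (b (b (l 537836559) (l 537838095))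 (l 537840655))) (a (b (c (a (b (a (l 537687055) (l 537685775)) (a (b (l 537688079) (l 4)) (b (l 537686799) (l 537687567)))) (b (a (l 537684495) (l 537683215)) (l 537685519))) (a (b (a (l 537576207) (b (l 537575183) (l 537575951))) (a (b (l 537577487) (l 4)) (b (l 537576719) (l 537577487)))) (b (a (l 537574927) (l 537574159)) (l 537576207)))) (a (l 4) (l 537633807))) (b (b (c (l 537680143) (l 537572367)) (l 537628175)) (l 537630735))))) (b (a (c (b (l 537555727) (l 537826831)) (b (a (l 537618703) (l 537616655)) (l 537352207))) (c (b (l 16778384) (l 537819151)) (b (l 537613839) (l 537616911)))) (b (c (a (l 537829647) (l 537822223)) (a (b (l 537622799) (l 537624335)) (l 537619727))) (c (l 537560591) (l 537356559))))), by decide +kernel⟩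

def k51_A00pm_213_s3 : ∃ t, chk3 f_A00pm_213_s3 t 111 249 2 = true :=
  ⟨(b (a (b (c (a (l 16779232) (l 16776832)) (a (b (l 16778872) (l 16778736)) (l 16776352))) (c (a (l 537537551) (l 16779096)) (a (b (l 16778592) (l 16778456)) (l 537334287)))) (b (c (l 16779784) (a (l 16779152) (l 16779344))) (c (a (l 16779320) (l 16779552)) (a (l 16776256) (l 16779072))))) (a (b (c (a (l 537542671) (l 537804047)) (a (b (l 537609999) (l 537612815)) (l 537339919))) (c (b (l 537811215) (l 537814287)) (a (l 537349647) (l 537345807)))) (b (c (b (l 16779176) (l 16779000)) (a (l 537340175) (l 16778800))) (c (a (l 537808143) (l 537813775)) (a (l 537347087) (l 537623567)))))), by decide +kernel⟩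

def k52_A00pm_213_s3 : ∃ t, chk3 f_A00pm_213_s3 t 27 125 2 = true :=
  ⟨(a (l 4) (a (b (b (b (a (a (l 4) (a (l 537743887) (l 537741071))) (a (c (l 537838351) (l 537632527)) (l 537462543))) (a (l 4) (a (c (l 537845263) (l 537371151)) (c (l 537837839) (l 537367311))))) (l 4)) (l 4)) (b (b (a (a (b (l 537725199) (c (l 537830415) (l 537363215))) (b (c (l 537816335) (l 537352463)) (c (l 537555215) (l 537359631)))) (b (a (c (l 537816591) (l 537355535)) (l 537731855)) (a (c (l 537553167) (l 537360399)) (l 537476879)))) (a (b (a (b (l 537468943) (l 4)) (c (l 537563407) (b (l 537364751) (l 537368847)))) (l 4)) (b (a (c (l 537575695) (l 537382415)) (c (l 537848335) (l 537389071))) (a (c (l 537843983) (l 537382159)) (c (l 537852431) (l 537392911)))))) (b (a (l 4) (b (a (l 4) (c (l 537854991) (l 537395215))) (l 4))) (l 4))))), by decide +kernel⟩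

def k53_A00pm_213_s3 : ∃ t, chk3 f_A00pm_213_s3 t 27 63 2 = true :=
  ⟨(l 4), by decide +kernel⟩

def k54_A00pm_213_s3 : ∃ t, chk3 f_A00pm_213_s3 t 26 31 3 = true :=
  ⟨(b (b (a (l 4) (b (b (a (l 4) (b (c (a (a (l 4) (c (l 537417231) (l 537264655))) (c (c (l 537321743) (l 537114895)) (c (l 537041423) (l 536966671)))) (a (a (l 4) (c (l 537108239) (l 536947471))) (c (l 536853007) (l 536966415)))) (a (l 4) (a (l 4) (c (c (l 537157135) (l 537281039)) (c (l 537132815) (l 536980239))))))) (l 4)) (l 4))) (l 4)) (l 4)), by decide +kernel⟩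

def k55_A00pm_213_s3 : ∃ t, chk3 f_A00pm_213_s3 t 108 248 3 = true :=
  ⟨(c (b (a (c (b (a (l 537153039) (l 537154319)) (a (l 537158415) (l 537159695))) (b (c (l 537048847) (l 536977935)) (c (l 537189135) (l 536984335)))) (a (c (b (l 537155343) (l 537160463)) (b (l 537288207) (l 537294095))) (c (b (l 537156111) (l 537161231)) (b (l 537292047) (l 537297935))))) (b (a (c (a (l 537164047) (l 537165071)) (a (l 537023759) (l 537027855))) (c (a (l 537166095) (l 537166607)) (a (l 537031951) (l 537035535)))) (a (l 4) (c (a (l 537171727) (l 537172239)) (a (l 537038351) (l 537041935)))))) (b (a (c (b (l 537003535) (c (l 536912655) (l 536839951))) (b (l 536989967) (l 536997903))) (c (b (c (l 536919055) (l 536849167)) (c (l 536925711) (l 536856335))) (b (l 537011471) (c (l 536786191) (l 536715279))))) (b (a (c (c (l 536919567) (l 536847375)) (c (l 536774159) (l 536700175))) (c (c (l 537066511) (l 536863503)) (c (l 536793615) (l 536722959)))) (a (l 4) (c (a (l 536901391) (l 536908047)) (a (l 537029135) (l 536770831))))))),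 by decide +kernel⟩

def k56_A00pm_213_s3 : ∃ t, chk3 f_A00pm_213_s3 t 109 248 3 = true :=
  ⟨(c (b (a (a (c (b (l 537425423) (l 537161999)) (b (l 537295631) (l 537301519))) (c (b (l 537425935) (l 537162511)) (b (l 537299215) (l 537304847)))) (c (b (a (l 537426191) (l 537426447)) (a (l 537162767) (l 537163023))) (b (c (l 537066511) (l 537004303)) (a (l 537307919) (l 537310735))))) (a (c (b (a (l 537167375) (l 537167631)) (a (l 537172751) (l 537173263))) (b (a (l 537039119) (l 537042447)) (a (l 537045263) (l 537048335)))) (c (b (a (l 537167887) (l 537168143)) (a (l 537173263) (l 537173263))) (b (a (l 537045263) (l 537048079)) (a (l 537051407) (l 537053967)))))) (b (a (c (b (c (l 536930831) (l 536864271)) (c (l 536937231) (l 536871183))) (b (l 537031183) (c (l 536804111) (l 536736271)))) (c (b (c (l 536941327) (l 536877839)) (c (l 536947727) (l 536884239))) (b (l 537049103) (c (l 536820239) (l 536755471))))) (a (c (b (a (l 537176079) (l 536913935)) (a (l 536914447) (l 536920591))) (b (c (l 536811279) (l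 536743951)) (a (l 536780303) (l 536789263)))) (a (c (b (l 536919567) (l 536926223)) (b (l 537059087) (l 536797711))) (c (b (l 536924943) (l 536931343)) (b (l 537067279) (l 536805903))))))), by decide +kernel⟩

def k57_A00pm_213_s3 : ∃ t, chk3 f_A00pm_213_s3 t 54 249 3 = true :=
  ⟨(a (a (l 4) (a (l 4) (b (b (c (c (l 537178127) (l 537048335)) (c (l 536914959) (l 536778255))) (l 4)) (l 4)))) (b (c (a (c (b (a (l 537178639) (l 537178895)) (a (l 537184783) (l 537185039))) (b (a (l 537051663) (l 537054735)) (a (l 537058063) (l 537061135)))) (b (c (a (l 537178895) (l 537178895)) (a (l 537057551) (l 537059855))) (c (a (l 537185039) (l 537184783)) (a (l 537063695) (l 537066255))))) (a (c (b (a (l 536921359) (l 536927247)) (a (l 536928271) (l 536934159))) (b (a (l 536787727) (l 536796687)) (a (l 536795151) (l 536803855)))) (c (b (a (l 536932879) (l 536937999)) (a (l 536939535) (l 536944655))) (b (a (l 536804879) (l 536812815)) (a (l 536812047) (l 536819983)))))) (a (l 4) (a (b (c (c (l 537191183) (l 537070351))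 (c (l 536946447) (c (l 536851471) (l 536787215)))) (l 4)) (b (c (c (l 537190927) (l 537072655)) (c (l 536951311) (c (l 536858383) (l 536795407)))) (b (b (c (c (l 537462799) (l 537344783)) (c (l 537223439) (l 537099279))) (l 4)) (l 4))))))), by decide +kernel⟩

def k58_A00pm_213_s3 : ∃ t, chk3 f_A00pm_213_s3 t 110 248 3 = true :=
  ⟨(a (c (b (a (c (b (l 537158159) (b (l 16778560) (l 16778464))) (b (l 537039375) (l 537179151))) (c (b (l 537158159) (l 537297167)) (b (l 16778512) (l 537047055)))) (a (c (b (b (l 16778360) (l 537437199)) (a (l 537441551) (l 537441551))) (b (b (l 16778120) (l 537319951)) (c (l 537085711) (l 537026575)))) (c (b (b (l 16778504) (l 16778400)) (b (l 16778296) (l 537173775))) (b (b (l 16778240) (l 16778160)) (b (l 16778080) (l 537059343)))))) (b (a (c (b (l 537185807) (l 536923663)) (b (l 16777728) (l 536799759))) (c (b (l 16778160) (l 536928527)) (b (l 16777800) (l 536806927)))) (a (c (b (b (l 16777872) (l 16777816)) (c (l 536966671) (l 536905999))) (b (l 536806671) (c (l 536844559)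 (l 536782351)))) (c (b (l 537068815) (b (l 16777856) (l 537210383))) (b (l 536813839) (b (l 16777624) (l 537090063))))))) (c (b (a (c (b (l 16779000) (l 537162511)) (b (l 16778632) (l 537049103))) (c (b (l 16779144) (l 16778944)) (b (l 16778752) (l 16778600)))) (a (c (b (l 537301519) (b (l 16778440) (l 16778336))) (b (l 537188623) (b (l 16778200) (l 16778112)))) (c (b (l 16778736) (l 537171727)) (b (l 16778440) (l 537061647))))) (b (c (a (b (l 16778256) (l 16778152)) (b (l 16778360) (l 16778248))) (b (l 16775288) (a (l 16777816) (l 16777888)))) (a (c (b (l 536938767) (b (l 16777952) (l 16777888))) (b (l 536820495) (b (l 16777696) (l 16777656)))) (c (b (l 16778136) (l 536948751)) (b (l 16777816) (l 536833039))))))), by decide +kernel⟩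

def k59_A00pm_213_s3 : ∃ t, chk3 f_A00pm_213_s3 t 111 248 3 = true :=
  ⟨(a (b (c (a (b (l 16779080) (l 16778904)) (b (l 16779208) (l 16779032))) (a (b (l 16778240) (l 16775528)) (b (l 16778328) (l 16778240)))) (c (a (b (a (l 16778688) (l 16778752)) (b (l 16778584) (l 16778488))) (b (l 16776224) (l 16776040))) (a (c (b (l 16778232) (l 16778112)) (b (l 16777896) (l 16775200))) (b (l 16775528) (a (l 16775408) (l 16778072)))))) (a (b (b (l 16778888) (a (l 16778720) (l 16778784))) (c (b (l 16778984) (l 16778800)) (b (l 16778240) (l 16775520)))) (b (b (l 16779016) (l 16778880)) (b (l 16776120) (c (l 16778944) (l 16778248)))))), by decide +kernel⟩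

def k60_A00pm_213_s3 : ∃ t, chk3 f_A00pm_213_s3 t 110 498 3 = true :=
  ⟨(a (c (a (a (c (b (l 537447183) (l 537452815)) (b (l 537329935) (l 537336079))) (b (c (l 537446927) (l 537330959)) (c (b (l 537450767) (l 537453839)) (b (l 537335311) (l 537338383))))) (b (c (b (l 537176591) (l 537179151)) (b (l 537062159) (l 537065231))) (c (a (l 537251087) (l 537183759)) (a (b (l 537336079) (l 537339151)) (b (l 537337103) (l 537340175)))))) (a (a (c (b (l 537209871) (l 536947983)) (b (l 537086735) (l 536825359))) (b (c (l 537212175) (l 536822031)) (c (b (l 537216527) (l 537219855)) (b (l 537095183) (l 537098511))))) (b (c (a (l 536945935) (l 537216527)) (a (l 536825359) (l 536828687))) (c (a (b (l 537218831) (l 537221903)) (b (l 537220879) (l 537223951))) (a (b (l 537098511) (l 537101839)) (b (l 537101839) (l 537105167))))))) (c (b (a (c (b (l 16778224) (l 16778120)) (b (l 16778032) (l 537066767))) (c (b (l 16778368) (l 16778264)) (b (l 16778152) (l 16778064)))) (a (c (a (l 537183503) (l 537451535)) (b (l 537069839)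 (l 537341199))) (c (l 537182735) (b (l 16777976) (l 16777888))))) (b (a (c (b (l 16777824) (l 536952079)) (b (l 16777624) (l 536834831))) (c (b (l 16777920) (l 16777864)) (b (l 16777688) (l 16777648)))) (a (c (b (l 536955407) (l 536958479)) (b (l 536838159) (l 536841487))) (c (b (l 16777800) (l 537230351)) (c (l 536875023) (l 536816911))))))), by decide +kernel⟩

def k61_A00pm_213_s3 : ∃ t, chk3 f_A00pm_213_s3 t 220 998 3 = true :=
  ⟨(c (a (b (a (c (l 537457167) (l 537340431)) (c (l 537456911) (l 537341455))) (a (a (c (l 537460239) (l 537343503)) (c (l 537460239) (l 537344015))) (c (a (l 537459983) (l 537459983)) (a (l 537344527) (l 537344783))))) (b (c (a (l 537456655) (l 537456143)) (a (l 537342479) (l 537343247))) (a (c (l 537459727) (l 537345551)) (c (l 537459471) (l 537346319))))) (a (b (a (c (l 537221135) (l 537098511)) (c (l 536954639) (l 536967695))) (c (a (a (l 537223695) (c (l 537254927) (l 537194767))) (a (l 536957455) (l 537227023))) (a (a (l 537101071) (c (l 537133583) (l 537071887)))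 (a (c (l 537135119) (l 537073935)) (l 536938511))))) (b (c (a (l 537225231) (l 537227279)) (a (l 536836879) (l 537108495))) (c (a (l 537060879) (l 537230607)) (a (b (l 537107727) (l 537109519)) (l 537112079)))))), by decide +kernel⟩

def k62_A00pm_213_s3 : ∃ t, chk3 f_A00pm_213_s3 t 220 999 3 = true :=
  ⟨(c (a (b (c (a (b (a (l 537462543) (b (l 537462031) (l 537462799))) (a (b (l 537463823) (l 4)) (c (l 537492751) (l 537435407)))) (b (a (l 537462287) (l 537462287)) (l 537463823))) (a (b (a (l 537345807) (c (l 537375759) (l 537316879))) (a (b (l 537347087) (l 4)) (c (b (l 537376783) (l 537377807)) (b (l 537318159) (l 537318927))))) (b (a (l 537346831) (l 537347343)) (l 537348879)))) (a (l 4) (l 537409295))) (b (b (c (l 537461775) (l 537348367)) (c (l 537463311) (l 537349903))) (l 537409807))) (a (c (b (a (b (a (l 537226255) (c (l 537257487) (b (l 537196815) (l 537197583)))) (a (b (l 537227535) (l 4)) (c (b (l 537258767) (l 537259535)) (b (l 537198351) (l 537199375))))) (b (a (b (l 537228047) (l 537228815))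 (l 537229583)) (b (l 537230351) (l 537231119)))) (a (l 4) (l 537233423))) (b (a (b (a (l 537103631) (c (b (l 537135631) (l 537136655)) (b (l 537073935) (l 537074959)))) (a (b (c (l 537135887) (l 537073935)) (l 4)) (c (b (l 537137423) (l 537138447)) (b (l 537075727) (l 537076751))))) (b (a (b (l 537106703) (l 537107471)) (l 537108751)) (c (l 537140239) (l 537079055)))) (a (l 4) (l 537112591)))) (b (b (c (l 536963599) (a (l 537111311) (l 537114383))) (c (l 537233679) (l 536846095))) (l 536908815)))), by decide +kernel⟩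

def k63_A00pm_213_s3 : ∃ t, chk3 f_A00pm_213_s3 t 221 499 3 = true :=
  ⟨(b (c (a (b (a (l 537131791) (l 537400335)) (c (l 537458959) (l 537347599))) (b (l 537132047) (l 537135119))) (a (b (c (l 536961807) (l 536844815)) (c (l 537233423) (l 536848143))) (b (c (l 537233423) (l 537118735)) (c (l 537236751) (l 537122063))))) (b (c (a (b (l 537405711) (l 537407247)) (l 537138191)) (a (b (l 536909071) (l 536910863)) (c (l 537239823) (l 536856847)))) (a (c (l 537410063) (l 536913679)) (c (l 537410063) (l 536917775))))), by decide +kernel⟩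

def k64_A00pm_213_s3 : ∃ t, chk3 f_A00pm_213_s3 t 111 249 3 = true :=
  ⟨(b (a (c (b (a (b (l 16778392) (l 16778296)) (c (l 16778600) (l 16778344))) (a (c (l 537449999) (l 537074191)) (b (l 16778328) (l 537397519)))) (b (a (b (l 16777888) (l 536902671)) (b (l 16777976) (l 16775304))) (a (c (l 536963855) (l 536851215)) (c (l 536966671) (l 536856079))))) (c (b (a (l 16775992) (l 16778760)) (a (l 537131023) (l 16775944))) (b (a (c (l 16778184) (l 16777896)) (c (l 16778296) (l 16777984))) (a (b (l 16777960) (l 16775288)) (c (l 16778168) (l 16775280)))))) (a (b (c (a (b (l 537400591) (l 537403407)) (c (l 537454863) (l 537080847))) (a (b (l 536912143) (l 536915215)) (b (l 536915727) (l 536918799)))) (c (a (b (l 537406479) (l 537409807)) (b (l 537406223) (l 537409551))) (a (b (l 536918543) (l 537190159)) (b (l 536921871) (l 536925199))))) (b (c (a (l 537137423) (l 537146127)) (a (b (l 536922383) (l 536925967)) (b (l 16775336) (l 537206543)))) (c (a (b (l 537410319) (l 537414159)) (l 537155087)) (a (b (l 536929551)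 (l 536933391)) (c (l 536998927) (l 536891663))))))), by decide +kernel⟩

def k65_A00pm_213_s3 : ∃ t, chk3 f_A00pm_213_s3 t 54 125 3 = true :=
  ⟨(l 4), by decide +kernel⟩

def k66_A00pm_213_s3 : ∃ t, chk3 f_A00pm_213_s3 t 110 250 3 = true :=
  ⟨(c (b (a (a (l 4) (b (c (l 537203471) (l 537090063)) (l 4))) (b (a (l 537147151) (l 537147151)) (a (b (l 537152015) (l 4)) (c (l 537208591) (l 537099535))))) (l 4)) (b (a (a (l 4) (b (b (c (l 537240079) (l 536852495)) (l 4)) (l 4))) (b (a (b (l 536917007) (c (l 537246991) (l 536861967))) (b (l 536921359) (l 536924687))) (a (a (l 4) (b (l 536925199) (l 4))) (a (b (l 536927247) (l 4)) (b (l 537197583) (l 536932623)))))) (l 4))), by decide +kernel⟩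

def k67_A00pm_213_s3 : ∃ t, chk3 f_A00pm_213_s3 t 111 250 3 = true :=
  ⟨(a (b (a (b (c (l 537146895) (b (l 536924943) (l 536928271))) (c (c (l 537475599) (l 537100047)) (b (c (l 537256207) (l 536875279)) (c (l 537259791) (l 536878863))))) (b (c (l 537146639) (a (l 536929551) (l 536931855))) (c (a (l 537153295) (l 537154831)) (a (b (l 537202447) (l 536937743)) (b (l 537205007) (l 536940815)))))) (b (b (a (c (l 537158927) (a (l 536938255) (l 536939791))) (c (c (l 537211151) (l 537105679)) (a (c (l 537264911) (l 536885263)) (c (l 537266959) (l 536888335))))) (a (l 4) (c (a (l 537161487) (l 537436431)) (a (c (l 536999695) (b (l 536887823) (l 4))) (c (l 537275663) (l 536896783)))))) (l 4))) (b (b (a (c (l 537152783) (b (l 536937231) (l 536941839))) (c (l 537166863) (c (l 537010191) (l 536902927)))) (a (c (b (l 537159183) (l 537166607)) (b (c (l 537000463) (l 536891663)) (c (l 537007887) (l 536898831)))) (c (l 537179919) (b (l 536965647) (l 536971535))))) (b (a (a (c (b (l 537437455) (l 537441039)) (b (l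 536955151) (l 536958479))) (c (l 537178127) (b (l 537232399) (l 536966671)))) (c (c (l 537239311) (l 537136399)) (b (l 536976399) (c (l 537300751) (l 536924431))))) (a (c (b (l 537177359) (l 537178639)) (b (c (l 537018127) (a (l 536904719) (l 537181455))) (c (l 537019407) (a (l 4) (l 536914191))))) (a (c (l 537188367) (b (l 536975631) (c (l 537298959) (l 536922127)))) (c (l 537194767) (b (l 536983311) (l 536984335)))))))), by decide +kernel⟩

def k68_A00pm_213_s3 : ∃ t, chk3 f_A00pm_213_s3 t 55 251 3 = true :=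
  ⟨(b (b (b (a (l 4) (a (l 4) (a (l 4) (c (l 537192719) (c (l 537169423) (a (l 4) (l 536930831))))))) (l 4)) (l 4)) (l 4)), by decide +kernel⟩

def k69_A00pm_213_s3 : ∃ t, chk3 f_A00pm_213_s3 t 27 63 3 = true :=
  ⟨(l 4), by decide +kernel⟩

def k70_A00pm_213_s3 : ∃ t, chk3 f_A00pm_213_s3 t 7 12 1 = true :=
  ⟨(l 6), by decide +kernel⟩

def k71_A00pm_213_s3 : ∃ t, chk3 f_A00pm_213_s3 t 14 13 1 = true :=
  ⟨(b (a (b (a (c (l 16556176) (l 16478744)) (l 6)) (c (b (l 16590440) (a (l 16622832) (l 16617112))) (a (b (l 16508376) (l 16530456)) (b (l 16492208) (l 16516368))))) (a (a (b (l 6) (c (l 16597496) (l 16493152))) (l 6)) (l 6))) (a (b (c (b (a (l 16653512) (l 16650472)) (a (l 16686576) (l 16676520))) (a (b (l 16554464) (l 16580496)) (b (l 16542784) (l 16571552)))) (c (b (a (l 16713960) (l 16691984)) (a (l 16689232) (l 16707504))) (a (b (l 16608584) (l 16680704)) (b (l 16602816) (l 16636704))))) (b (c (a (b (l 16642392) (l 16656160)) (b (a (l 16627752) (l 16617632)) (a (l 16640280) (l 16629344)))) (a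 (b (l 16532352) (l 16564272)) (b (l 16606880) (c (l 16593104) (l 16524128))))) (c (a (b (l 16669976) (l 16683872)) (b (a (l 16652888) (l 16641144)) (b (l 16656336) (l 16662528)))) (a (b (l 16599208) (l 16637376)) (b (c (l 16634560) (l 16561408)) (c (l 16650704) (l 16602496)))))))), by decide +kernel⟩

def k72_A00pm_213_s3 : ∃ t, chk3 f_A00pm_213_s3 t 30 26 1 = true :=
  ⟨(l 6), by decide +kernel⟩

def k73_A00pm_213_s3 : ∃ t, chk3 f_A00pm_213_s3 t 30 54 1 = true :=
  ⟨(b (l 6) (b (a (a (c (l 16615480) (l 16545952)) (l 6)) (l 6)) (a (c (a (l 16620952) (c (l 16570016) (l 16606960))) (a (l 16566504) (l 16608648))) (a (a (b (l 6) (b (l 6) (c (a (l 16603944) (l 16581872)) (l 16577344)))) (l 6)) (l 6))))), by decide +kernel⟩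

def k74_A00pm_213_s3 : ∃ t, chk3 f_A00pm_213_s3 t 60 55 1 = true :=
  ⟨(c (b (a (c (l 16589848) (l 16626648)) (c (b (l 16575048) (l 16580136)) (a (l 16575736) (l 16590680)))) (c (a (l 16621920) (b (l 16606232) (l 16611408))) (a (l 16637808) (b (l 16580640) (l 16585912))))) (b (c (a (l 16621904) (l 16610360)) (a (l 16559848) (l 16560184))) (b (c (l 16624432) (l 16594936)) (c (l 16629920) (l 16619848))))), by decide +kernel⟩

def k75_A00pm_213_s3 : ∃ t, chk3 f_A00pm_213_s3 t 61 55 1 = true :=
  ⟨(c (b (a (a (c (b (a (l 16609384) (b (l 16575192) (l 16576976))) (a (l 16614200) (a (l 16611832) (b (l 16609984) (a (l 16611848) (l 16611624)))))) (b (a (l 16604680) (l 16581944)) (c (l 16588360) (l 16565272)))) (c (c (b (l 16611952) (l 16614800)) (l 16589800)) (b (l 16605656) (l 16608856)))) (c (b (a (l 16615544) (l 16630992)) (c (a (l 16619872) (l 16625000)) (l 16630168))) (b (l 16591480) (c (l 16617024) (l 16614480))))) (a (a (c (b (c (b (l 16617376) (l 16619816)) (l 16595288)) (c (a (l 16625112) (l 16621736))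 (l 16621216))) (b (l 16602584) (l 16597160))) (b (c (c (b (l 16616952) (a (l 16622440) (l 16619576))) (b (l 16614576) (l 16616144))) (b (l 16611256) (l 16591952))) (b (c (a (a (a (l 16617344) (b (l 16616648) (l 16617472))) (l 16617896)) (l 16619792)) (a (l 16592576) (l 16615472))) (c (a (c (a (l 16620424) (l 16620408)) (a (l 16618288) (l 16618256))) (l 16621184)) (a (b (l 16593912) (l 16594872)) (l 16617008)))))) (c (c (b (b (l 16624632) (l 16636544)) (b (a (l 16624840) (l 16630080)) (a (l 16626232) (l 16631496)))) (b (a (l 16620192) (l 16625176)) (b (l 16624936) (l 16626408)))) (b (b (l 16597200) (l 16598800)) (c (l 16602304) (l 16600040)))))) (b (a (a (c (b (l 16599616) (l 16604280)) (b (l 16549640) (l 16573912))) (c (l 16602888) (l 16567672))) (c (b (l 16607312) (l 16568936)) (l 16582040))) (a (c (a (b (l 16609272) (l 16614472)) (b (l 16566288) (c (l 16591800) (l 16569144)))) (a (b (l 16599776) (l 16611328)) (b (l 16604856) (l 16608792)))) (c (b (l 16593416) (l 16596856)) (b (l 16610272) (l 16614000)))))),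 by decide +kernel⟩

def k76_A00pm_213_s3 : ∃ t, chk3 f_A00pm_213_s3 t 31 26 1 = true :=
  ⟨(l 6), by decide +kernel⟩

def k77_A00pm_213_s3 : ∃ t, chk3 f_A00pm_213_s3 t 62 27 1 = true :=
  ⟨(b (l 6) (c (b (b (l 6) (b (a (c (c (l 16632088) (l 16628840)) (l 16603176)) (l 6)) (a (c (c (l 16633600) (l 16630424)) (l 16604864)) (c (a (l 16639776) (c (l 16646936) (l 16643160))) (a (l 16632864) (l 16637608)))))) (c (a (c (b (a (l 16633168) (b (l 16637744) (l 16639248))) (a (b (l 16635384) (l 16636832)) (b (l 16640744) (l 16642224)))) (b (a (l 16630208) (l 16635296)) (a (l 16633264) (l 16648896)))) (a (b (c (b (l 16643104) (l 16644640)) (l 16640432)) (c (b (l 16646168) (l 16647680)) (b (l 16642832) (l 16644416)))) (b (c (b (l 16648520) (l 16650088)) (b (l 16644808) (l 16646448))) (c (b (l 16651648) (l 16653192)) (b (l 16648072) (l 16649680)))))) (a (b (c (l 16608816) (l 16605936)) (c (a (l 16630536) (l 16635448)) (l 16609288))) (b (a (c (l 16637080) (l 16633800)) (c (l 16642000) (l 16638448))) (b (a (l 16637984)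 (l 16653304)) (c (a (l 16641224) (l 16646232)) (l 16619528))))))) (b (b (l 6) (c (a (l 16598160) (c (l 16608160) (l 16583776))) (a (l 16613640) (l 16620728)))) (c (a (b (l 16612264) (b (l 16604464) (l 16606240))) (b (a (l 16608056) (l 16617512)) (a (l 16611704) (c (l 16638608) (l 16635320))))) (a (b (l 16617544) (l 16621384)) (b (a (l 16622920) (l 16605544)) (a (l 16584912) (l 16609536)))))))), by decide +kernel⟩

def k78_A00pm_213_s3 : ∃ t, chk3 f_A00pm_213_s3 t 63 54 1 = true :=
  ⟨(l 6), by decide +kernel⟩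

def k79_A00pm_213_s3 : ∃ t, chk3 f_A00pm_213_s3 t 126 55 1 = true :=
  ⟨(c (b (l 6) (c (a (b (c (b (l 16654000) (l 16655600)) (b (l 16650032) (l 16651704))) (c (b (l 16657192) (l 16658768)) (b (l 16653352) (l 16655000)))) (b (c (b (l 16659544) (l 16661176)) (b (l 16655312) (l 16657008))) (c (b (l 16662792) (l 16664400)) (b (l 16658696) (l 16660368))))) (a (b (c (b (l 16646120) (l 16647848)) (l 16622168)) (c (b (l 16649568) (l 16651280)) (b (l 16645832) (l 16647608)))) (b (c (b (l 16651120) (l 16652880)) (b (l 16646960) (l 16648792))) (c (b (l 16654632) (l 16656368)) (b (l 16650608) (l 16652408))))))) (b (l 6) (c (b (a (a (l 16615440) (l 16622808)) (c (a (l 16642664) (l 16644880)) (l 16624000))) (a (b (l 16624600) (l 16626472)) (c (a (l 16646408) (l 16648664)) (a (l 16642568) (l 16644656))))) (b (a (l 16619624) (c (l 16614744) (l 22))) (a (a (l 16612264) (l 16614088)) (c (l 16629256) (l 16614920))))))), by decide +kernel⟩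

def k80_A00pm_213_s3 : ∃ t, chk3 f_A00pm_213_s3 t 127 55 2 = true :=
  ⟨(b (l 6) (a (b (b (l 6) (c (c (l 16666800) (l 16664992)) (c (a (l 16656680) (l 16659232)) (a (l 16652368) (l 16654768))))) (c (c (b (l 16668456) (l 16670096)) (b (a (l 16662728) (l 16665440)) (a (l 16664424) (l 16667152)))) (c (b (a (l 16658456) (l 16661024)) (a (l 16660216) (l 16662800))) (b (a (l 16654208) (l 16656624)) (a (l 16656032) (l 16658464)))))) (c (a (b (b (l 6) (c (l 16671056) (l 16666424))) (c (b (l 16672736) (l 16674400)) (b (l 16668160) (l 16669888)))) (b (b (l 6) (b (l 6) (c (l 16674344) (l 16669584)))) (c (b (l 16675608) (l 16677288)) (b (l 16670904) (l 16672648))))) (a (b (b (l 6) (b (l 6) (c (l 16662248) (l 16657656)))) (c (b (l 16663600) (l 16665392)) (b (a (l 16658440) (l 16659656)) (a (l 16660296) (l 16661520))))) (b (b (l 6) (b (l 6) (c (l 16664832) (a (l 16659472) (l 16660688))))) (c (b (a (l 16665544) (l 16664224)) (a (l 16667344) (l 16668656))) (c (b (l 16662664) (l 16664520)) (b (a (l 16659712) (l 16660920))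 (a (l 16661600) (l 16662808)))))))))), by decide +kernel⟩

def k81_A00pm_213_s3 : ∃ t, chk3 f_A00pm_213_s3 t 254 55 3 = true :=
  ⟨(b (l 6) (c (b (b (l 6) (c (a (l 16648080) (l 16650320)) (a (l 16643816) (l 16645896)))) (c (a (b (l 16649984) (l 16651872)) (b (l 16652240) (l 16654152))) (a (b (l 16645784) (l 16647744)) (b (l 16647880) (l 16649856))))) (b (b (l 6) (c (l 16630056) (l 22))) (b (c (a (l 16641616) (l 16643536)) (l 16627864)) (a (c (l 16643640) (l 16639560)) (c (l 16645576) (l 16641312))))))), by decide +kernel⟩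

def k82_A00pm_213_s3 : ∃ t, chk3 f_A00pm_213_s3 t 255 110 3 = true :=
  ⟨(l 6), by decide +kernel⟩

def k83_A00pm_213_s3 : ∃ t, chk3 f_A00pm_213_s3 t 510 111 3 = true :=
  ⟨(c (c (b (b (l 6) (a (l 16652016) (l 16653144))) (b (a (l 16653944) (l 16655080)) (a (l 16655856) (l 16657000)))) (c (b (b (l 6) (l 16649136)) (b (l 16651112) (l 16653088))) (b (b (l 6) (l 16646840)) (b (l 16648856) (l 16650856))))) (b (b (l 6) (b (l 6) (c (l 16643928) (l 22)))) (c (b (b (l 16644960) (l 16645984)) (b (l 16647008) (l 16648032))) (c (b (l 16642088) (l 16644184)) (l 22))))), by decide +kernel⟩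

def k84_A00pm_213_s3 : ∃ t, chk3 f_A00pm_213_s3 t 511 111 6 = true :=
  ⟨(b (b (l 6) (b (l 6) (a (c (l 16654768) (c (l 16651240) (l 16648888))) (b (l 6) (c (a (l 16655864) (l 16656432)) (c (l 16652568) (l 16650176))))))) (b (a (c (c (l 16657384) (l 16655056)) (c (l 16652728) (l 16650408))) (c (b (c (l 16658064) (l 16655688)) (c (l 16659032) (l 16656672))) (c (b (l 16653312) (l 16654312)) (b (a (l 16650680) (l 16651200)) (a (l 16651688) (l 16652208)))))) (a (c (c (l 16659296) (l 16657000)) (c (l 16654712) (l 16652416))) (c (c (l 16660472) (b (l 16657648) (l 16658624))) (c (b (l 16655304) (l 16656296)) (b (a (l 16652696) (l 16653224)) (a (l 16653704) (l 16654224)))))))), by decide +kernel⟩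

def k85_A00pm_213_s3 : ∃ t, chk3 f_A00pm_213_s3 t 511 111 7 = true :=
  ⟨(a (b (b (l 6) (b (l 6) (c (b (l 16645112) (l 16645632)) (l 22)))) (c (b (c (a (l 16647832) (l 16648328)) (a (l 16645520) (l 16645992))) (c (l 16650128) (a (l 16647592) (l 16648072)))) (c (b (a (l 16643216) (l 16643664)) (a (l 16645320) (l 16645776))) (l 22)))) (b (b (l 6) (c (b (l 6) (b (l 6) (c (a (l 16647544) (l 16648040)) (a (l 16645168) (c (l 16646240) (l 16645040)))))) (l 22))) (c (b (a (c (b (l 16648312) (l 16649344)) (b (l 16645952) (l 16646992))) (c (b (b (l 16648552) (l 16649072)) (b (l 16649584) (l 16650096))) (b (a (l 16646304) (c (l 16647144) (l 16645944))) (a (l 16647352) (c (l 16648184) (l 16646992)))))) (a (c (b (l 16650368) (l 16651384)) (b (l 16648032) (l 16649072))) (c (b (b (l 16650608) (l 16651120)) (a (l 16651760) (l 16652016))) (b (c (l 16649096) (l 16647920)) (c (l 16650136) (l 16648968)))))) (a (c (b (b (l 16643584) (l 16644648)) (b (l 16645704) (l 16646760))) (l 22)) (b (c (c (b (b (l 22) (l 16644904))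 (b (l 16645432) (l 16645960))) (l 22)) (l 22)) (c (b (b (c (l 16646480) (l 22)) (c (l 16647008) (l 16645832))) (b (c (l 16647536) (l 16646360)) (c (l 16648056) (l 16646896)))) (l 22))))))), by decide +kernel⟩

def k86_A00pm_213_s3 : ∃ t, chk3 f_A00pm_213_s3 t 14 28 1 = true :=
  ⟨(b (a (b (c (a (b (l 16744168) (l 16711048)) (b (l 16719232) (l 16728032))) (a (b (l 16662776) (a (l 16679048) (l 16680216))) (b (l 16663904) (l 16683472)))) (a (c (a (l 16771120) (l 16760248)) (a (l 16704248) (l 16708088))) (c (l 16702240) (l 16695120)))) (b (c (a (b (l 16694400) (l 16703216)) (b (l 16668752) (a (l 16684112) (l 16650064)))) (a (b (l 16668280) (l 16687448)) (b (l 16656888) (c (l 16668536) (l 16661536))))) (a (c (l 16680888) (l 16665304)) (c (a (l 16706320) (l 16695000)) (a (l 16693552) (l 16684016)))))) (a (a (c (a (b (l 16741864) (b (l 16790928) (l 16752568))) (b (l 16775368) (l 16744960))) (b (a (b (l 16729760) (l 16746856)) (l 16745976)) (a (b (l 16763936) (l 16751008)) (b (l 16763112) (l 16768456))))) (b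 (c (a (l 16767040) (l 16758792)) (a (l 16747096) (l 16740784))) (c (a (l 16781064) (l 16775288)) (a (l 16719992) (l 16758056))))) (c (a (b (l 16704480) (a (l 16769536) (l 16763616))) (b (a (l 16733544) (l 16724656)) (l 16722808))) (a (b (a (l 16734504) (l 16728048)) (a (l 16754208) (l 16750176))) (b (a (l 16721240) (l 16714112)) (a (l 16745792) (l 16741088))))))), by decide +kernel⟩

def k87_A00pm_213_s3 : ∃ t, chk3 f_A00pm_213_s3 t 28 58 1 = true :=
  ⟨(a (b (a (c (a (b (l 16756192) (c (l 16804280) (l 16773064))) (b (l 16796088) (l 16798016))) (c (b (l 16780888) (a (l 16772728) (l 16782616))) (b (l 16763888) (a (l 16766592) (l 16771672))))) (c (b (l 16793080) (l 16795976)) (b (l 16772920) (l 16755488)))) (a (c (b (a (a (b (l 16778768) (l 16799160)) (b (l 16778416) (l 16778328))) (l 16788432)) (a (l 16787984) (a (b (l 16788368) (l 16788072)) (b (l 16798848) (l 16787968))))) (b (a (a (c (l 16784232) (l 16773344)) (b (l 16768048) (c (l 16784248) (l 16773536)))) (c (l 16784080) (l 16773528))) (a (c (l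 16784248) (l 16774128)) (a (c (b (l 16784368) (l 16784552)) (b (l 16774056) (l 16774584))) (b (l 16779616) (c (l 16784560) (l 16774664))))))) (c (b (a (l 16798200) (l 16797496)) (a (l 16788216) (l 16798656))) (b (a (l 16778976) (l 16779128)) (c (l 16785368) (l 16775888)))))) (b (c (a (l 16749416) (l 16788104)) (a (b (l 16770784) (l 16775576)) (l 16729960))) (c (a (b (l 16796480) (l 16798616)) (l 16776032)) (a (b (l 16779424) (l 16761336)) (b (l 16779872) (l 16784008)))))), by decide +kernel⟩

def k88_A00pm_213_s3 : ∃ t, chk3 f_A00pm_213_s3 t 56 59 1 = true :=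
  ⟨(b (c (a (a (b (l 16797128) (l 16795824)) (b (a (l 16797480) (b (l 16787672) (l 16797400))) (l 16785792))) (b (a (a (b (l 16787672) (b (l 16787304) (l 16787104))) (b (l 16798488) (l 16798000))) (l 16788256)) (a (c (a (l 16800472) (b (l 16801128) (l 16800376))) (a (l 16792784) (b (l 16788040) (l 16792872)))) (b (l 16787592) (a (a (b (l 16786448) (l 16786152)) (l 16791752)) (l 16797640)))))) (a (b (a (l 16779488) (a (l 16779728) (c (l 16784776) (l 16770168)))) (c (l 16784136) (l 16775648))) (b (a (b (c (l 16785104) (l 16775744)) (a (c (l 16784848) (l 16775688)) (l 16780888))) (c (l 16786352) (l 16777528))) (a (c (a (l 16784664) (b (a (l 16784936) (l 16785040)) (l 16784936))) (a (l 16776104) (b (a (l 16776168) (l 16776320)) (l 16776576)))) (b (c (l 16786200) (l 16777728)) (a (a (c (l 16785080) (l 16776744)) (c (l 16785392) (l 16777128))) (l 16782248))))))) (c (b (a (l 16784216) (b (a (l 16795728) (c (a (l 16799792) (b (l 16800416) (l 16799720))) (a (l 16792672) (b (l 16793304) (l 16792736))))) (a (l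 16795024) (a (l 16795384) (c (a (l 16798968) (l 16799144)) (a (l 16792216) (l 16792408))))))) (a (l 16782816) (a (l 16788712) (c (l 16797456) (l 16791288))))) (b (c (a (l 16783960) (a (l 16784544) (a (b (l 16785136) (l 16784824)) (b (a (l 16785272) (l 16785904)) (b (l 16785264) (l 16785160)))))) (a (l 16776312) (a (l 16776832) (a (b (l 16777192) (l 16777312)) (b (a (l 16777376) (l 16778096)) (a (l 16777552) (l 16777784))))))) (a (c (l 16783736) (l 16776928)) (a (c (l 16784328) (l 16777472)) (c (l 16784768) (l 16777896))))))), by decide +kernel⟩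

def k89_A00pm_213_s3 : ∃ t, chk3 f_A00pm_213_s3 t 57 59 1 = true :=
  ⟨(b (c (a (b (l 16789200) (a (l 16788504) (l 16800272))) (b (l 16800944) (l 16802224))) (c (a (b (l 16788208) (l 16778336)) (l 16781320)) (a (b (l 16780048) (l 16781112)) (b (l 16783464) (l 16785768))))) (a (b (a (c (b (l 16787488) (a (a (c (l 16799304) (l 16792624)) (l 16796664)) (l 16797456))) (a (b (l 16783000) (a (c (l 16785568) (l 16778120)) (l 16782728))) (c (l 16787680) (l 16780360)))) (c (l 16788944) (c (l 16789576) (l 16782560)))) (a (c (a (c (b (b (a (l 16798568) (l 16798752)) (l 16798232)) (l 16797360)) (b (b (a (l 16792104) (l 16792336)) (l 16791968)) (l 16791384))) (b (c (l 16799192) (l 16792968)) (b (a (c (l 16797888) (l 16791832)) (c (l 16798344) (l 16792344))) (a (l 16794408) (a (c (l 16792248) (l 16786376)) (b (l 16794952) (c (l 16797408) (l 16791592)))))))) (b (a (c (a (l 16785288) (b (l 16785552) (l 16785352))) (a (l 16778192) (b (l 16778408) (l 16778376)))) (c (l 16786392) (l 16779456))) (b (a (l 16784368) (a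 (c (l 16785424) (l 16778672)) (l 16785328))) (a (l 16781792) (a (l 16787216) (c (a (l 16785408) (l 16785552)) (l 16778976))))))) (b (c (l 16787544) (c (l 16788720) (l 16782080))) (c (a (c (l 16798888) (l 16793080)) (l 16786920)) (c (l 16787776) (l 16781408)))))) (c (b (a (l 16801376) (l 16803320)) (a (b (l 16800472) (l 16789000)) (l 16781640))) (b (a (l 16767880) (l 16791600)) (a (b (l 16788648) (l 16777664)) (b (l 16791872) (l 16791688))))))), by decide +kernel⟩

def k90_A00pm_213_s3 : ∃ t, chk3 f_A00pm_213_s3 t 29 29 1 = true :=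
  ⟨(b (b (a (c (a (l 16784864) (l 16781448)) (a (l 16728576) (l 16768936))) (c (c (l 16778240) (l 16773408)) (c (l 16768464) (l 16742440)))) (a (c (a (l 16796320) (l 16795448)) (a (c (l 16786584) (l 16779704)) (c (l 16787016) (l 16781088)))) (c (a (l 16794264) (l 16792808)) (c (l 16766104) (b (l 16778016) (l 16786664)))))) (b (a (c (a (l 16782664) (l 16784352)) (a (b (l 16790120) (l 16751520)) (b (l 16792880) (l 16797488)))) (c (c (l 16809232) (l 16784584)) (c (b (l 16798400) (l 16804680)) (b (l 16794272) (l 16800808))))) (a (c (a (b (l 16806224) (l 16796048)) (b (l 16809912) (l 16811568))) (a (b (c (l 16798472) (l 16792960)) (c (l 16799392) (l 16794312))) (b (l 16780024) (c (l 16805488) (l 16801160))))) (c (b (l 16794000) (b (l 16775912) (l 16798464))) (b (c (l 16809864) (l 16785288)) (c (l 16792920) (a (l 16807464) (l 16813224)))))))), by decide +kernel⟩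

def k91_A00pm_213_s3 : ∃ t, chk3 f_A00pm_213_s3 t 28 120 1 = true :=
  ⟨(c (b (b (c (a (a (l 16794968) (l 16795864)) (a (a (b (a (l 16796664) (l 16796968)) (l 16796320)) (a (b (a (b (l 16792136) (l 16791816)) (l 16797880)) (a (l 16796712) (l 16791648))) (l 16798408))) (l 16801824))) (a (a (l 16789416) (l 16790272)) (a (a (b (a (l 16790976) (l 16791280)) (l 16790824)) (a (b (a (b (l 16786440) (l 16786200)) (l 16792296)) (a (l 16791224) (l 16786192))) (l 16793024))) (l 16796880)))) (a (a (l 16791504) (l 16792368)) (a (a (l 16793048) (a (b (l 16793744) (l 16793208)) (a (b (l 16793984) (l 16793520)) (l 16794192)))) (a (l 16796056) (l 16798872))))) (a (a (l 16790408) (l 16791240)) (a (b (a (l 16792296) (b (l 16793200) (l 16792576))) (l 16791792)) (a (b (a (b (l 16793912) (l 16793160)) (l 16794928)) (a (l 16792640) (l 16793048))) (l 16796072))))) (b (c (a (a (l 16783472) (l 16784296)) (a (a (b (b (l 16785160) (l 16785016)) (l 16784912)) (b (a (b (a (b (l 16785664) (l 16780256)) (l 16786400)) (a (l 16785424)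 (l 16785680))) (l 16787328)) (a (l 16785456) (b (l 16786144) (l 16785752))))) (a (l 16789152) (l 16792544)))) (a (a (l 16777496) (l 16778288)) (a (a (b (l 16778920) (l 16779120)) (b (a (b (a (l 16779288) (l 16780184)) (l 16779544)) (l 16781328)) (a (l 16779680) (b (l 16780352) (l 16780128))))) (a (l 16783584) (l 16787352))))) (a (a (l 16780632) (l 16781464)) (a (b (a (l 16782120) (b (l 16782856) (l 16782624))) (l 16782416)) (a (b (a (b (l 16783784) (l 16783304)) (l 16785264)) (a (l 16783280) (l 16783832))) (l 16787112)))))), by decide +kernel⟩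

def k92_A00pm_213_s3 : ∃ t, chk3 f_A00pm_213_s3 t 28 121 1 = true :=
  ⟨(a (c (b (l 16778888) (l 16766952)) (a (l 16770200) (b (l 16781520) (l 16781504)))) (b (c (a (l 16790688) (a (b (l 16792144) (l 16791096)) (b (l 16793216) (a (l 16791744) (l 16792256))))) (a (l 16782440) (a (b (l 16783496) (l 16783104)) (b (l 16784840) (a (l 16783720) (l 16784368)))))) (b (a (l 16775616) (a (l 16786816) (c (l 16791312) (l 16783880)))) (a (l 16785720) (c (l 16790000) (l 16783200)))))), by decide +kernel⟩

def k93_A00pm_213_s3 : ∃ t, chk3 f_A00pm_213_s3 t 29 60 1 = true :=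
  ⟨(a (b (c (a (b (l 16783176) (l 16779216)) (b (l 16767800) (l 16805496))) (a (b (c (l 16797640) (l 16793000)) (l 16771176)) (b (l 16791696) (l 16798544)))) (a (b (c (l 16775528) (l 16768128)) (a (c (b (l 16792472) (a (l 16790928) (l 16791512))) (b (l 16785256) (a (l 16783992) (l 16784680)))) (c (l 16794280) (l 16787656)))) (c (b (l 16801528) (l 16776848)) (b (l 16795080) (l 16791800))))) (b (c (b (a (l 16773112) (l 16778184)) (a (l 16810528) (l 16773400))) (a (b (l 16787560) (l 16804472)) (b (l 16803936) (l 16789000)))) (b (c (a (l 16764360) (l 16768816)) (a (l 16779648) (l 16763704))) (c (a (l 16781296) (l 16806392)) (c (l 16779664) (l 16776976)))))), by decide +kernel⟩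

def k94_A00pm_213_s3 : ∃ t, chk3 f_A00pm_213_s3 t 14 122 1 = true :=
  ⟨(a (a (c (a (b (l 16786024) (l 16779424)) (b (l 16786912) (l 16785576))) (a (b (l 16780624) (b (l 16780488) (l 16780360))) (b (l 16781376) (l 16781144)))) (a (b (l 16774640) (c (l 16786608) (l 16781936))) (c (b (l 16789000) (l 16787720)) (b (l 16783032) (l 16782752))))) (a (a (b (a (c (a (l 16789696) (b (l 16790552) (l 16789672))) (b (l 16784096) (l 16783568))) (c (b (l 16791688) (a (l 16790200) (l 16790744))) (b (l 16785392) (a (l 16784120) (l 16784736))))) (c (a (l 16788584) (b (c (l 16791152) (l 16788456)) (l 16788832))) (a (l 16783336) (b (a (l 16783688) (l 16784120)) (l 16783584))))) (b (c (c (l 16795728) (l 16793032)) (c (l 16790192) (l 16787216))) (c (a (b (c (l 16792080) (l 16789424)) (a (c (l 16785448) (l 16777640)) (l 16789784))) (l 16781648)) (a (b (l 16785176) (a (l 16784024) (l 16784408))) (l 16786880))))) (c (a (b (l 16787968) (c (l 16796008) (l 16793680))) (b (l 16781208) (l 16787656))) (a (b (l 16772360) (l 16779464))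 (b (l 16797448) (l 16772576)))))), by decide +kernel⟩

def k95_A00pm_213_s3 : ∃ t, chk3 f_A00pm_213_s3 t 28 123 1 = true :=
  ⟨(a (b (a (c (a (b (l 16783472) (l 16782840)) (l 16778336)) (b (l 16780208) (a (l 16779856) (l 16780176)))) (c (a (l 16784048) (l 16784544)) (a (l 16780608) (l 16780984)))) (b (c (a (a (a (l 16782104) (l 16782320)) (l 16782664)) (l 16778160)) (a (c (l 16777872) (l 16779120)) (a (l 16780312) (l 16780680)))) (a (c (a (a (l 16778880) (l 16781712)) (l 16776816)) (a (c (l 16774744) (l 16778832)) (a (l 16779640) (l 16779808)))) (c (a (l 16782544) (l 16783064)) (a (l 16780072) (l 16780440)))))) (b (a (c (l 16774872) (l 16776344)) (c (l 16786496) (l 16782392))) (a (c (c (l 16774392) (l 16778200)) (b (l 16781288) (c (l 16781776) (l 16780280)))) (c (c (l 16786032) (l 16784432)) (c (l 16782752) (l 16780992)))))), by decide +kernel⟩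

def k96_A00pm_213_s3 : ∃ t, chk3 f_A00pm_213_s3 t 29 123 1 = true :=
  ⟨(a (b (c (b (a (l 16787936) (a (a (l 16788520) (c (l 16784904) (l 16777232))) (c (l 16785488) (l 16788328)))) (a (l 16787296) (a (l 16787928) (a (c (l 16784296) (l 16776744)) (c (b (l 16790200) (l 16784128)) (l 16782104)))))) (a (l 16777840) (a (b (a (l 16783504) (l 16783832)) (l 16783248)) (b (l 16779240) (a (l 16783528) (l 16783632)))))) (a (c (a (l 16786024) (l 16786480)) (l 16777272)) (c (a (l 16781600) (b (a (l 16787432) (c (b (l 16783760) (l 16788424)) (l 16776176))) (l 16786744))) (a (l 16782728) (b (c (l 16784408) (l 16782008)) (l 16782528)))))) (c (b (a (c (a (l 16791752) (l 16793240)) (l 16779792)) (c (l 16795344) (l 16793224))) (a (a (b (a (a (b (l 16788056) (l 16782280)) (l 16782744)) (l 16788616)) (b (a (l 16787224) (c (l 16788424) (l 16786256))) (a (l 16786680) (a (l 16781592) (c (l 16787872) (l 16785744)))))) (c (l 16789872) (l 16787744))) (c (a (l 16791104) (l 16792256)) (l 16779160)))) (b (a (c (l 16787920) (l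 16785440)) (c (l 16790992) (l 16788640))) (a (a (b (a (c (l 16773848) (l 16781872)) (l 16783992)) (a (l 16782648) (b (l 16782784) (l 16782376)))) (l 16779096)) (c (l 16787472) (l 16785184)))))), by decide +kernel⟩

def k97_A00pm_213_s3 : ∃ t, chk3 f_A00pm_213_s3 t 14 248 1 = true :=
  ⟨(a (a (a (c (a (b (c (l 16781448) (l 16777944)) (b (l 16777944) (l 16777640))) (b (a (l 16781344) (l 16781584)) (c (l 16781272) (l 16780472)))) (a (b (b (l 16779224) (l 16776472)) (a (b (l 16778880) (l 16776112)) (b (l 16779024) (l 16778880)))) (b (c (l 16774744) (l 16778936)) (c (l 16779624) (a (l 16778672) (l 16773576)))))) (a (c (b (l 16781960) (c (l 16781808) (l 16780928))) (b (c (l 16780368) (l 16779240)) (c (l 16780016) (l 16776432)))) (c (b (l 16782480) (l 16776640)) (b (c (l 16780776) (l 16779576)) (c (l 16780416) (l 16779376)))))) (a (c (b (l 16778032) (c (l 16783184) (l 16782128))) (a (b (l 16780560) (c (l 16780816) (l 16779688))) (b (l 16780928) (l 16780600)))) (c (c (l 16774112) (l 16778064)) (b (l 16776200)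 (c (l 16781736) (l 16780400)))))) (a (a (c (a (l 16784640) (l 16785056)) (c (l 16782576) (l 16775704))) (a (c (l 16780136) (l 16781936)) (c (b (l 16785992) (l 16785224)) (l 16781888)))) (a (a (c (b (c (a (l 16787056) (l 16782048)) (l 16780048)) (l 16780096)) (b (l 16782128) (l 16781512))) (a (c (b (c (b (a (l 16782216) (l 16787768)) (a (l 16787032) (c (l 16782312) (l 16786552)))) (b (l 16780184) (l 16779840))) (l 16780128)) (b (b (l 16782080) (l 16781816)) (l 16781304))) (c (b (l 16786768) (a (b (b (c (l 16786720) (l 16784688)) (l 16785552)) (l 16785168)) (b (c (l 16786720) (l 16784696)) (c (c (l 16786720) (l 16785760)) (l 16784272))))) (b (l 16782424) (b (a (l 16781408) (l 16781448)) (l 16781192)))))) (c (a (b (l 16787616) (a (b (l 16786184) (c (c (l 16781528) (l 16780560)) (l 16779056))) (l 16786296))) (c (l 16783536) (l 16786792))) (b (c (l 16785016) (l 16782784)) (a (c (l 16777504) (l 16770048)) (l 16782848))))))), by decide +kernel⟩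

def k98_A00pm_213_s3 : ∃ t, chk3 f_A00pm_213_s3 t 56 249 1 = true :=
  ⟨(a (b (c (a (b (c (l 16780264) (l 16774400)) (c (l 16779920) (l 16779376))) (b (c (l 16780776) (l 16780080)) (c (l 16780432) (l 16779816)))) (a (c (b (a (l 16778912) (l 16779080)) (c (l 16778952) (l 16776048))) (b (c (l 16778496) (l 16772904)) (a (l 536941839) (l 536956687)))) (c (b (l 16774112) (l 16779168)) (b (l 16778600) (c (l 16778664) (l 16773072)))))) (c (a (b (c (l 537817615) (a (l 16776376) (l 16779216))) (c (l 537829903) (b (l 16778904) (l 537645071)))) (b (c (l 16780088) (l 16779544)) (c (l 16777112) (l 537399055)))) (c (a (b (b (l 16778672) (l 537436175)) (a (l 537169679) (l 537453327))) (b (a (l 537456143) (l 16779064)) (b (l 16778824) (l 16778712)))) (a (b (a (b (l 16778072) (l 16775392)) (l 536967951)) (a (c (l 537015055) (l 536909071)) (l 536979983))) (b (b (l 16778400) (l 16778344)) (a (l 536996111) (l 537010703))))))) (b (a (c (c (l 16781128) (l 16777776)) (c (a (l 16779536) (l 16779728)) (b (l 16773656) (l 16778784))))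 (c (c (l 16781664) (l 16780864)) (c (l 16780016) (c (l 16774120) (l 16773664))))) (c (a (b (c (l 16780608) (l 16779984)) (c (l 16780240) (l 16779696))) (b (l 16780784) (c (l 16780752) (l 16780128)))) (a (b (c (l 16779336) (c (l 16778824) (l 16773232))) (c (c (l 16779264) (l 16773728)) (a (l 537024015) (l 537035791)))) (b (c (l 16779696) (l 16773688)) (c (l 16779472) (c (l 16778960) (l 16773360)))))))), by decide +kernel⟩

def k99_A00pm_213_s3 : ∃ t, chk3 f_A00pm_213_s3 t 57 249 1 = true :=
  ⟨(a (b (c (c (l 16782456) (l 16776304)) (a (c (l 16780392) (l 16779424)) (c (l 16780752) (l 16779696)))) (c (a (c (l 16781440) (l 16780704)) (c (l 16781936) (l 16781128))) (a (b (c (l 16780056) (l 16779208)) (c (l 16779816) (l 16773800))) (b (l 16779936) (c (l 16780152) (l 16779296)))))) (b (c (l 16777696) (c (l 16781264) (l 16774840))) (c (c (l 16782672) (l 16776496)) (a (c (l 16780592) (l 16779608)) (c (l 16780896) (l 16769336)))))), by decide +kernel⟩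

def k100_A00pm_213_s3 : ∃ t, chk3 f_A00pm_213_s3 t 29 249 1 = true :=
  ⟨(a (a (b (c (l 16783784) (c (l 16781832) (l 16780456))) (c (l 16777792) (c (l 16781304) (l 16780080)))) (b (c (a (l 16784256) (l 16784448)) (l 16781288)) (a (c (l 16783480) (l 16780824)) (c (l 16783664) (l 16780768))))) (a (a (b (c (l 16784552) (l 16781056)) (c (l 16783760) (l 16780584))) (b (c (c (l 16785464) (l 16783656)) (l 16780768)) (c (a (l 16783768) (l 16778512)) (l 16780304)))) (a (b (b (c (a (a (c (l 16785808) (l 16783872)) (b (l 16784944) (a (l 16784688) (l 16784656)))) (l 16785152)) (a (c (l 16776576) (l 16769168)) (l 16781024))) (c (a (c (l 16785336) (l 16783456)) (a (b (c (l 16785400) (l 16783456)) (c (l 16785216) (l 16783304))) (l 16784480))) (a (l 16780440) (a (l 16780304) (l 16780392))))) (a (c (c (l 16784584) (l 16782832)) (l 16780016)) (a (c (l 16788928) (l 16779848)) (c (b (b (a (l 16784024) (l 16783992)) (l 16783824)) (l 16783456)) (b (l 16779968) (l 16779624)))))) (c (c (b (l 16786376) (a (b (a (b (l 16785120)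 (a (l 16784696) (l 16784800))) (l 16785136)) (a (b (a (l 16784472) (l 16784480)) (l 16784224)) (a (b (l 16784496) (l 16784264)) (l 16784376)))) (l 16785032))) (b (l 16784448) (a (b (l 16777776) (a (l 16782592) (b (l 16782648) (l 16777136)))) (l 16783152)))) (b (l 16781344) (a (b (c (l 16781000) (l 16778880)) (c (a (l 16780640) (l 16775256)) (l 16778528))) (l 16780120))))))), by decide +kernel⟩

def k101_A00pm_213_s3 : ∃ t, chk3 f_A00pm_213_s3 t 112 250 1 = true :=
  ⟨(b (a (c (b (a (l 537744143) (l 537755663)) (a (l 537756431) (l 537766415))) (b (a (c (l 537182479) (l 536974863)) (c (l 537465359) (l 536991503))) (a (c (l 537194255) (b (l 536982799) (l 536987919))) (c (l 537207055) (c (l 537053711) (l 536948239)))))) (c (b (a (l 537765903) (l 537775375)) (a (l 537775631) (l 537783823))) (b (a (c (l 537478415) (l 537006351)) (c (l 537490191) (l 537019919))) (a (c (l 537219087) (l 537015055)) (c (l 537498127) (l 537027599)))))) (a (c (b (a (l 537496079) (l 537773327)) (a (c (l 537860367) (l 537402895))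 (l 537507343))) (b (a (c (l 537201679) (b (l 536991759) (l 536993295))) (c (l 537213455) (b (l 537005839) (l 537007119)))) (a (c (c (l 537254671) (l 537152783)) (a (b (l 537259023) (l 536991503)) (b (l 537266191) (l 536998415)))) (c (l 537215503) (b (l 537007887) (c (l 537329679) (l 536955407))))))) (c (b (a (l 537781519) (l 537789199)) (a (l 537783823) (l 537791247))) (b (a (c (l 537224463) (b (l 537018639) (l 537019919))) (c (l 537234447) (c (l 537083407) (l 536979727)))) (a (c (l 537226255) (b (l 537020431) (c (l 537341711) (l 536968463)))) (c (l 537235983) (b (l 537031951) (l 537032463)))))))), by decide +kernel⟩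

def k102_A00pm_213_s3 : ∃ t, chk3 f_A00pm_213_s3 t 113 250 1 = true :=
  ⟨(b (a (c (b (a (l 537784079) (l 16777128)) (a (l 537791759) (l 537798927))) (b (a (c (l 537500943) (l 537032207)) (c (l 537510671) (l 537043215))) (a (c (l 537508111) (l 537038863)) (c (l 16778728) (l 537049103))))) (a (c (b (l 16779976) (l 537805327)) (b (l 537153039) (c (l 537525007) (l 537058063)))) (c (b (l 16780208) (l 16777224)) (b (l 537161231) (c (l 16779064) (l 537065999)))))) (a (c (b (a (l 537796367) (l 537803023)) (a (l 537798159) (l 537804815))) (b (a (c (l 537243663) (c (l 537093647) (l 536990735))) (c (l 537252111) (l 537052175))) (a (c (l 537245199) (b (l 537042447) (l 537042703))) (c (l 537253135) (b (l 537051919) (l 537051919)))))) (c (b (a (l 537809167) (l 537814799)) (a (l 537810703) (l 537816079))) (b (a (c (l 537528079) (l 537060623)) (c (l 16778800) (l 537068047))) (a (c (l 537260559) (c (l 537111823) (l 537009679))) (b (l 537436175) (l 537033487))))))), by decide +kernel⟩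

def k103_A00pm_213_s3 : ∃ t, chk3 f_A00pm_213_s3 t 112 251 1 = true :=
  ⟨(c (b (a (b (a (c (l 537862927) (l 537405199)) (c (l 537870351) (l 537414415))) (a (l 4) (c (l 537872655) (l 537416719)))) (b (a (c (l 537877519) (l 537423119)) (l 537524751)) (a (c (l 537879823) (l 537425167)) (c (l 537886223) (l 537433103))))) (a (l 4) (b (a (l 4) (c (l 537620239) (l 537434895))) (l 4)))) (c (b (a (b (a (b (l 537204751) (l 537205775)) (b (l 537216015) (l 537216783))) (a (l 4) (b (l 537217807) (l 4)))) (b (a (c (l 537277455) (l 537177359)) (c (l 537286671) (l 537187599))) (a (b (l 537228047) (l 537228815)) (b (l 537237519) (l 537238031))))) (a (l 4) (b (a (l 4) (b (l 537238799) (c (l 537557519) (l 537189391)))) (l 4)))) (b (a (a (b (b (c (l 537049103) (a (l 536938511) (l 537214223))) (c (l 537184015) (a (l 4) (l 536946447)))) (l 4)) (b (a (b (l 537006095) (c (l 537327887) (l 536953359))) (b (l 537012495) (l 537013007))) (b (a (b (l 537006863) (l 4)) (a (l 537146383) (l 537015055))) (l 4)))) (b (a (a (b (l 537018639)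 (l 537019151)) (b (l 537292815) (l 537025039))) (b (c (l 537352975) (l 536980751)) (c (l 537085199) (l 536981007)))) (a (b (c (l 537074959) (a (l 536966671) (l 536972815))) (a (b (l 537019919) (l 4)) (a (l 537158671) (l 537027343)))) (b (a (l 537030927) (l 537036303)) (c (l 537085967) (a (l 536978959) (l 536984079))))))) (a (l 4) (a (l 4) (b (a (b (b (l 537031439) (l 4)) (l 4)) (b (c (l 537357327) (l 537051663)) (a (l 4) (b (l 537306639) (l 4))))) (l 4))))))), by decide +kernel⟩

def k104_A00pm_213_s3 : ∃ t, chk3 f_A00pm_213_s3 t 113 251 2 = true :=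
  ⟨(b (a (b (a (l 537799951) (l 537806351)) (a (c (l 537892367) (l 537440527)) (l 537539599))) (b (a (l 537812239) (l 537817359)) (a (l 537545231) (l 537550351)))) (a (b (a (b (l 537533711) (l 537534735)) (c (l 537900303) (l 537448719))) (a (b (l 537535759) (l 4)) (b (l 537541647) (l 537542927)))) (b (a (c (l 537905423) (l 537454607)) (c (l 537910031) (l 537459727))) (a (c (l 537639183) (l 537456143)) (c (l 537643791) (b (l 537728015) (l 537460239))))))), by decide +kernel⟩

def k105_A00pm_213_s3 : ∃ t, chk3 f_A00pm_213_s3 t 113 502 3 = true :=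
  ⟨(a (b (a (c (l 537246223) (b (l 537043215) (c (l 537363215) (l 536991503)))) (c (l 537254159) (b (l 537052175) (l 537052431)))) (a (a (c (l 537244943) (b (l 537041167) (l 537041423))) (c (l 537249039) (b (l 537314319) (l 537046031)))) (c (c (l 537303823) (l 537205519)) (a (b (l 537318671) (l 537050383)) (b (l 537322767) (l 537054479)))))) (b (a (c (l 537261071) (b (l 537060111) (l 537060111))) (c (l 537267471) (b (l 537067023) (l 537066767)))) (a (c (l 537261839) (b (l 537060111) (c (l 537111311) (l 537008399)))) (c (l 537267727) (b (l 537066767) (c (l 537385999) (l 537015055))))))), by decide +kernel⟩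

def k106_A00pm_213_s3 : ∃ t, chk3 f_A00pm_213_s3 t 113 503 3 = true :=
  ⟨(a (c (b (a (b (l 537247247) (l 537247759)) (b (l 537254671) (l 537255183))) (a (b (b (l 537248015) (l 4)) (l 4)) (b (l 537255951) (b (l 537255951) (l 4))))) (b (a (b (c (l 537095951) (a (l 536989455) (l 536994319))) (c (b (l 537095951) (l 537095951)) (a (b (l 537257999) (l 536989711)) (l 537095183)))) (b (a (l 537050639) (l 537054735)) (c (l 537104399) (a (l 536998927) (l 537002767))))) (a (a (l 4) (a (l 4) (b (b (l 537316111) (l 4)) (l 4)))) (a (b (b (l 537050895) (a (l 4) (l 537320463))) (l 4)) (a (b (c (l 537373967) (l 537001999)) (l 4)) (b (l 537156623) (c (l 537376271) (l 537071375)))))))) (c (b (a (b (l 537261327) (l 537261839)) (a (l 537266703) (l 537269263))) (a (b (l 537262351) (l 537262863)) (b (l 537267727) (c (l 537317135) (l 537218575))))) (c (b (a (b (l 537111311) (l 537111567)) (b (l 537117455) (l 537117455))) (a (b (l 537111823) (b (l 537111567) (l 537111823))) (b (l 537117711) (a (l 537384719) (l 537387535)))))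 (b (a (b (b (l 537008143) (l 537008143)) (a (l 537006607) (l 537278479))) (b (c (l 537040655) (l 536988943)) (b (l 537014287) (l 537014287)))) (a (b (a (l 537006607) (l 537009935)) (a (a (l 537005839) (l 537007631)) (a (l 537009167) (l 537010959)))) (b (a (l 537013007) (l 537015823)) (a (l 537013263) (l 537116431)))))))), by decide +kernel⟩

def k107_A00pm_213_s3 : ∃ t, chk3 f_A00pm_213_s3 t 57 250 1 = true :=
  ⟨(a (b (c (a (b (l 537277967) (c (l 16780464) (l 16779904))) (b (l 16781000) (l 16775384))) (c (a (b (l 16774328) (l 16779312)) (c (l 16779944) (l 16779576))) (a (b (l 16778872) (a (l 537072655) (l 16773512))) (b (l 16773872) (c (l 16779112) (l 16778752)))))) (c (a (a (b (l 537819663) (l 537820943)) (b (l 16779912) (l 537825295))) (b (c (l 16780520) (l 16779960)) (c (l 16780104) (l 16779608)))) (a (b (a (c (l 537540367) (l 537074191)) (c (l 16779128) (l 537079311))) (a (b (l 537441807) (l 537173263)) (c (l 537276943) (l 537078799)))) (b (c (l 16779360) (a (l 537083151) (l 16778792))) (a (c (l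 537280783) (l 537082383)) (c (l 16779160) (l 537084943))))))) (b (c (a (c (l 16781608) (l 16780856)) (l 16776416)) (a (b (l 16777160) (c (l 16779936) (l 16773904))) (c (l 16780360) (l 16779440)))) (c (a (b (l 16780664) (c (l 16780560) (l 16779984))) (b (l 16781080) (l 16780680))) (a (b (a (l 16776624) (l 16779368)) (c (l 16779384) (a (l 537354767) (l 16778792)))) (b (c (l 16779944) (l 16779144)) (c (l 16779664) (l 16773696))))))), by decide +kernel⟩

def k108_A00pm_213_s3 : ∃ t, chk3 f_A00pm_213_s3 t 114 251 1 = true :=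
  ⟨(b (c (a (b (a (l 537822223) (l 537826319)) (a (l 537554959) (l 537827343))) (a (b (l 537829903) (l 537830927)) (b (l 537832975) (l 537833743)))) (a (b (a (c (l 537272591) (b (l 537072655) (l 537072399))) (c (l 537276943) (b (l 537077263) (l 537076751)))) (a (c (l 537272847) (b (l 537072143) (l 537071887))) (c (l 537276943) (b (l 537076495) (l 537075983))))) (b (a (b (l 537449743) (l 537180943)) (c (l 537283087) (l 537083663))) (a (c (l 537280271) (b (l 537079567) (l 537079055))) (c (l 537282575) (b (l 537081359) (l 537080591))))))) (c (a (b (a (c (l 537914383) (l 537464335)) (c (l 537918223) (l 537468175))) (a (b (l 537556239) (l 537557007)) (c (l 537651727) (l 537469455)))) (b (a (c (l 537921807) (l 537471503)) (l 537566223)) (a (c (l 537654799) (l 537472271)) (l 537298959)))) (a (b (a (c (c (l 537321999) (l 537223951)) (b (c (l 537122575) (l 537020175)) (a (l 537070095) (l 537072399)))) (b (a (l 537175823) (l 537177615)) (c (l 537544463) (c (l 537126415) (l 537023503))))) (a (c (b (l 537272335)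 (l 537272591)) (b (a (l 537070095) (l 537072143)) (a (c (l 537389839) (l 537018127)) (c (l 537391887) (l 537020175))))) (a (c (l 537276431) (b (l 537073935) (l 537073935))) (c (l 537277967) (b (l 537344015) (l 537075215)))))) (b (a (c (c (l 537328911) (l 537230863)) (b (l 537078287) (l 537077775))) (c (l 537282319) (b (l 537080079) (l 537079311)))) (a (a (c (l 537279247) (b (l 537345295) (l 537344783))) (b (l 537179663) (l 537179407))) (c (c (l 537331215) (l 537232399)) (b (l 537078799) (l 537078287)))))))), by decide +kernel⟩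

def k109_A00pm_213_s3 : ∃ t, chk3 f_A00pm_213_s3 t 115 251 1 = true :=
  ⟨(b (c (a (a (b (l 16777160) (l 537836303)) (b (l 16779984) (l 537837839))) (b (c (l 16780576) (l 16779992)) (c (l 16780144) (l 16779632)))) (a (b (a (b (l 16778824) (l 537452815)) (b (l 16778944) (l 16778824))) (a (b (l 537452047) (l 537182991)) (c (l 537284367) (l 537082383)))) (b (a (c (l 16779304) (l 16778688)) (l 16776488)) (a (b (l 16778816) (l 16778696)) (c (l 16779152) (l 16773328)))))) (a (c (b (a (l 537568527) (l 537838607)) (a (l 537569295) (l 537570831))) (b (a (c (l 537551887) (b (l 537080335) (l 537079567))) (b (l 537450511) (l 537449999))) (a (c (l 537283087) (b (l 537078799) (l 537078031))) (b (l 537180687) (l 537180175))))) (b (c (a (l 537839375) (l 16776960)) (a (c (l 16778744) (l 537078287)) (b (l 16778688) (l 537445647)))) (c (a (l 537571599) (l 537840399)) (a (b (l 537447439) (l 537446927)) (a (l 537177871) (l 537176079))))))), by decide +kernel⟩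

def k110_A00pm_213_s3 : ∃ t, chk3 f_A00pm_213_s3 t 58 125 1 = true :=
  ⟨(b (a (a (c (b (l 16782064) (c (l 16781656) (l 16780880))) (b (c (l 16780632) (l 16779616)) (c (l 16780064) (c (l 16774176) (l 16773744))))) (b (c (l 16782424) (c (l 16780848) (l 16779728))) (c (l 16776384) (c (l 16780272) (l 16779320))))) (b (a (c (l 16782696) (l 16780352)) (c (l 16782872) (l 16780288))) (a (c (l 16781888) (c (l 16780384) (l 16779312))) (c (l 16782056) (l 16774552))))) (a (b (a (c (b (l 16775432) (c (l 16780568) (l 16779976))) (b (c (l 16779640) (l 16773656)) (a (c (l 16779280) (l 16778648)) (l 16776448)))) (b (c (l 16781024) (c (l 16779848) (l 16779008))) (c (l 16780624) (c (l 16779560) (l 16773568))))) (a (b (c (c (l 16780128) (l 16779616)) (a (b (l 16778792) (l 16778672)) (c (l 16779120) (l 16773280)))) (a (c (l 537839887) (c (l 537545231) (l 537067535))) (c (l 537838863) (b (l 16778648) (l 537434383))))) (c (b (c (l 16780520) (l 16779912)) (c (l 16780080) (l 16779552))) (c (b (l 16774032) (l 16776376)) (b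 (l 16778608) (a (l 537052431) (l 16773176))))))) (a (b (c (c (l 16781480) (l 16780664)) (c (l 16779808) (c (l 16773896) (l 16773432)))) (c (b (l 16780480) (c (l 16780384) (l 16779760))) (b (c (l 16779392) (l 16773368)) (c (l 16773864) (l 16778424))))) (b (c (a (l 16781208) (l 16781272)) (c (l 16779808) (l 16778792))) (c (b (l 16780640) (l 16774992)) (b (c (l 16779392) (l 16778504)) (c (l 16779112) (l 16778312)))))))), by decide +kernel⟩

def k111_A00pm_213_s3 : ∃ t, chk3 f_A00pm_213_s3 t 59 125 1 = true :=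
  ⟨(b (c (c (a (a (b (l 16783616) (l 16782728)) (b (l 16783688) (l 16777544))) (a (b (a (l 16783688) (l 16783680)) (a (l 16782800) (l 16782800))) (a (b (b (a (l 16783888) (l 16783944)) (l 16783440)) (l 16782800)) (b (b (a (b (a (l 16783992) (l 16784080)) (a (l 16783760) (l 16783784))) (l 16783976)) (a (l 16783432) (a (l 16783504) (b (l 16783536) (l 16783352))))) (l 16780176))))) (b (a (l 16782264) (a (l 16782056) (a (b (l 16782168) (l 16781736)) (b (a (b (l 16782136) (l 16782000)) (l 16782128)) (a (l 16781664) (b (c (l 16782216) (l 16781280)) (l 16781576))))))) (a (a (l 16781536) (l 16781472)) (a (l 16776104) (a (l 16781224) (l 16781144)))))) (c (b (a (l 16780768) (a (l 16780336) (a (l 16774944) (b (a (c (l 16775384) (l 16774384)) (l 16780168)) (a (l 16779792) (l 16774576)))))) (a (l 16780184) (a (l 16779800) (l 16779480)))) (b (a (l 16779200) (a (l 16778520) (a (l 16778240) (b (a (l 16767600) (l 16778104)) (l 16772688))))) (a (l 16778792) (a (l 16778176) (l 16777680)))))) (a (a (b (c (a (l 16781312)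 (l 16781328)) (c (l 16779704) (l 16778560))) (c (b (l 16780728) (l 16780336)) (b (l 16773560) (c (l 16779048) (l 16772880))))) (b (c (c (l 16776664) (l 16775512)) (c (l 16779528) (l 16767760))) (c (c (a (l 16775784) (l 16775832)) (l 16780072)) (c (l 16779032) (l 16775312))))) (c (a (b (c (a (l 16781936) (l 16781960)) (l 16775424)) (b (a (l 16780776) (l 16780784)) (a (l 16780424) (l 16780440)))) (b (b (a (l 16781480) (l 16786696)) (a (l 16781128) (l 16786360))) (b (c (l 16781424) (l 16780128)) (c (l 16781048) (l 16779856))))) (a (b (a (l 16778664) (l 16778504)) (a (l 16775688) (l 16778184))) (b (b (l 16773096) (l 16778192)) (c (l 16773424) (l 16772032))))))), by decide +kernel⟩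

def k112_A00pm_213_s3 : ∃ t, chk3 f_A00pm_213_s3 t 28 63 2 = true :=
  ⟨(a (b (b (a (l 4) (b (b (a (l 4) (a (b (l 537549327) (l 4)) (b (c (l 537912591) (l 537461263)) (c (l 537913871) (l 537462287))))) (l 4)) (l 4))) (l 4)) (l 4)) (b (b (a (b (b (a (a (b (c (l 537916687) (l 537733903)) (l 537559055)) (b (l 537561615) (l 537562383))) (a (b (l 537564431) (l 537565455)) (b (l 537835279) (l 537836047)))) (a (a (b (l 537560335) (l 4)) (b (l 537831951) (l 537833231))) (a (b (l 537834767) (l 537836047)) (b (l 537837071) (l 537838095))))) (a (l 4) (b (a (b (l 537837327) (l 4)) (b (l 537839375) (l 537840911))) (l 4)))) (b (a (b (a (b (l 537837071) (l 537837839)) (b (l 537838351) (l 537838863))) (a (b (l 537838607) (l 537839631)) (b (l 537839631) (l 537840655)))) (b (a (b (l 537839119) (l 537839375)) (l 537304079)) (a (b (l 537840143) (l 537840911)) (b (l 537839887) (l 537840655))))) (a (b (a (b (l 537840655) (l 537842191)) (b (l 537841679) (l 537305871))) (a (b (c (l 537667087) (l 537480975)) (l 4)) (b (l 537575951)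 (l 537846031)))) (b (a (b (l 537841935) (l 537842959)) (b (l 537841423) (l 537842447))) (a (b (l 537575951) (l 537846031)) (b (l 537843727) (l 537845263))))))) (a (l 4) (b (b (a (l 4) (a (b (l 537848079) (l 4)) (b (l 537847055) (l 537849359)))) (l 4)) (l 4)))) (l 4))), by decide +kernel⟩

def k113_A00pm_213_s3 : ∃ t, chk3 f_A00pm_213_s3 t 56 63 3 = true :=
  ⟨(b (b (a (l 4) (b (c (a (l 4) (b (a (b (b (l 537262863) (l 4)) (l 4)) (a (b (l 537535759) (l 4)) (b (l 537269775) (l 537270543)))) (l 4))) (a (l 4) (b (a (a (l 4) (b (b (a (l 537329679) (l 537331215)) (l 4)) (l 4))) (a (b (b (l 537064975) (a (l 537064463) (l 537334031))) (l 4)) (b (c (l 537119247) (c (l 537041935) (a (l 536988943) (l 536990223)))) (b (a (a (l 537066767) (l 537067535)) (l 537336847)) (l 4))))) (l 4)))) (l 4))) (l 4)) (l 4)), by decide +kernel⟩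

def k114_A00pm_213_s3 : ∃ t, chk3 f_A00pm_213_s3 t 114 252 3 = true :=
  ⟨(b (b (a (a (b (b (c (l 537272591) (a (l 537069839) (l 537340175))) (c (l 537272847) (a (c (l 537389583) (l 537017871)) (l 537340175)))) (c (l 537273615) (a (c (l 537390351) (l 537085455)) (c (l 537392143) (l 537020175))))) (b (c (l 537276687) (a (l 537073679) (l 537075215))) (c (l 537276943) (a (l 537073935) (l 537075215))))) (a (a (c (l 537279759) (b (l 537344783) (l 537344783))) (b (l 537179407) (l 537179407))) (b (c (l 537549071) (l 537077775)) (a (l 537180175) (l 537180431))))) (b (a (a (c (l 537274383) (a (l 4) (l 537072655))) (c (l 537277711) (a (l 537074191) (l 537075471)))) (a (c (l 537280015) (c (l 537128463) (l 537024527))) (c (l 537281295) (l 537077519)))) (a (a (l 4) (c (l 537278479) (a (l 4) (l 537075983)))) (a (a (l 537179663) (l 537180175)) (c (l 537281807) (l 537077775)))))) (b (a (l 4) (a (b (a (l 537180431) (l 537180943)) (l 4)) (b (c (l 537282575) (l 537078287)) (a (l 537182223) (l 537182223))))) (l 4))),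 by decide +kernel⟩

def k115_A00pm_213_s3 : ∃ t, chk3 f_A00pm_213_s3 t 115 252 3 = true :=
  ⟨(b (a (c (b (a (a (l 537282575) (l 537282575)) (l 537282575)) (a (a (l 537283087) (l 537283087)) (a (l 537282575) (l 537282063)))) (b (a (b (l 537077519) (l 537077263)) (b (l 537075983) (l 537075471))) (a (b (l 537077007) (l 537077007)) (b (l 537075215) (l 537074959))))) (a (b (b (l 537446159) (l 537177359)) (b (l 537176847) (l 537176847))) (b (b (l 537443087) (l 537442319)) (b (l 537441807) (l 537441551))))) (b (a (a (b (c (l 537282575) (l 537077263)) (c (l 537283599) (l 537077775))) (b (b (l 537447439) (l 537447695)) (c (l 537282575) (l 537075471)))) (a (b (l 537177103) (b (l 537445135) (l 537445391))) (b (l 537441551) (l 537173519)))) (a (a (b (a (l 537183247) (l 537182479)) (l 4)) (b (b (l 537448719) (l 537449231)) (c (l 537285135) (l 537077519)))) (a (b (b (l 537445647) (l 537446159)) (c (l 537282831) (l 537073423))) (b (l 536972815) (c (l 537279503) (l 537068047))))))), by decide +kernel⟩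

def k116_A00pm_213_s3 : ∃ t, chk3 f_A00pm_213_s3 t 57 253 3 = true :=
  ⟨(a (l 4) (b (a (l 4) (b (a (b (c (l 537284623) (l 537074959)) (l 4)) (a (b (l 537177615) (l 4)) (b (l 537175055) (l 537176847)))) (l 4))) (l 4))), by decide +kernel⟩

def k117_A00pm_213_s3 : ∃ t, chk3 f_A00pm_213_s3 t 57 127 3 = true :=
  ⟨(l 4), by decide +kernel⟩

def k118_A00pm_213_s3 : ∃ t, chk3 f_A00pm_213_s3 t 29 63 2 = true :=
  ⟨(a (b (b (a (b (a (b (a (l 537572111) (l 537570831)) (a (b (l 537839119) (l 537839631)) (l 537303055))) (a (b (l 537567503) (l 537299215)) (b (l 537555727) (l 537285391)))) (a (b (a (b (l 537840399) (l 537841423)) (b (l 537838863) (l 537839631))) (a (b (l 537842447) (l 537843983)) (b (l 537840655) (l 537841935)))) (a (b (b (l 537834255) (l 537834511)) (b (l 537834767) (l 537835279))) (b (b (l 537818127) (l 537816591)) (b (l 537814287) (l 537810959)))))) (b (a (a (b (l 16776992) (l 537264143)) (b (l 16779720) (l 537505551))) (c (b (l 16780152) (l 16779728)) (b (l 16779520) (l 16779168)))) (a (a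 (b (b (l 16776296) (l 537789455)) (b (l 537785103) (l 537781263))) (b (l 537227791) (b (l 537756175) (l 14)))) (a (b (l 537199631) (l 14)) (l 14))))) (a (b (a (b (a (b (l 537845775) (l 537847823)) (b (l 537843727) (l 537845519))) (a (b (l 537850383) (l 4)) (b (l 537579535) (l 537316367)))) (a (b (b (l 537836047) (l 537569551)) (b (l 537571599) (l 537831183))) (b (b (l 537807375) (l 537804815)) (b (l 537804303) (l 14))))) (a (l 4) (a (a (l 4) (l 14)) (l 14)))) (b (a (b (a (b (l 537778447) (l 14)) (l 14)) (l 14)) (l 14)) (l 14)))) (a (l 4) (l 14))) (b (b (b (b (b (a (a (l 16780048) (l 16780128)) (a (c (l 16780680) (l 16779680)) (c (l 16780776) (l 16779656)))) (l 14)) (l 14)) (l 14)) (l 14)) (l 14))), by decide +kernel⟩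

def k119_A00pm_213_s3 : ∃ t, chk3 f_A00pm_213_s3 t 58 252 3 = true :=
  ⟨(a (b (a (b (a (b (l 537438735) (l 537437967)) (b (l 537433359) (l 537432335))) (a (b (l 537437199) (l 537436943)) (b (l 537431567) (l 537430799)))) (b (a (a (l 537160463) (l 537422351)) (b (l 16778552) (l 537405455))) (a (b (l 537422607) (l 537421583)) (a (l 536872719) (l 536860175))))) (a (b (a (b (l 537436687) (l 537436687)) (b (l 537430543) (l 537161999))) (a (b (l 537168655) (c (l 537274895) (l 537061391))) (b (l 536893711) (c (l 537269519) (l 537053455))))) (b (a (b (l 537152271) (l 537151503)) (b (l 537129487) (l 536858127))) (c (a (b (l 537258767) (l 537527055)) (b (l 537501455) (l 537497103))) (a (b (l 537308687) (l 537307919)) (b (l 537278991) (l 537273871))))))) (b (a (b (c (l 16776208) (a (c (l 16778384) (l 16778088)) (l 16772976))) (a (b (l 537374991) (l 537370639)) (b (l 16778360) (l 537333775)))) (b (c (l 16778840) (c (l 16778320) (l 16772712))) (a (a (l 537041679) (l 536754191)) (b (l 16778312) (l 14))))) (a (b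 (a (b (l 537097231) (l 537091343)) (b (l 537058831) (l 537052687))) (a (b (c (l 537465871) (l 537238799)) (c (l 537461007) (l 537233423))) (b (c (l 16775488) (l 537198351)) (l 14)))) (b (a (b (l 537020687) (l 14)) (l 14)) (l 14))))), by decide +kernel⟩

def k120_A00pm_213_s3 : ∃ t, chk3 f_A00pm_213_s3 t 58 253 3 = true :=
  ⟨(a (b (a (a (b (a (b (l 537171983) (l 537174031)) (b (l 537168911) (l 537170703))) (b (c (l 537280783) (a (l 4) (l 537064463))) (l 4))) (c (b (b (l 537270799) (l 537540879)) (b (l 537543183) (a (l 4) (l 537277967)))) (b (b (l 537054479) (a (l 537326351) (l 537053199))) (a (b (l 537060111) (l 4)) (b (l 537055503) (a (l 4) (l 537058831))))))) (a (c (b (b (l 537527311) (l 537528847)) (b (l 536993807) (l 537252879))) (b (b (b (l 537038351) (l 537038863)) (a (l 537045263) (l 537026575))) (b (a (l 537047567) (l 537022991)) (a (l 537048079) (l 537030159))))) (b (a (b (l 537391631) (l 537387791)) (b (l 537372431) (l 537369359))) (b (c (l 537488655) (a (l 537004815) (l 14))) (l 14))))) (a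 (l 4) (a (a (l 4) (l 14)) (l 14)))) (b (a (a (a (b (b (l 537353743) (l 14)) (l 14)) (l 14)) (l 14)) (l 14)) (l 14))), by decide +kernel⟩

def k121_A00pm_213_s3 : ∃ t, chk3 f_A00pm_213_s3 t 58 127 3 = true :=
  ⟨(a (l 4) (l 14)), by decide +kernel⟩

def k122_A00pm_213_s3 : ∃ t, chk3 f_A00pm_213_s3 t 59 63 3 = true :=
  ⟨(b (b (b (b (a (b (a (l 16775816) (l 16778280)) (l 14)) (a (l 16775424) (l 16777816))) (l 14)) (l 14)) (l 14)) (l 14)), by decide +kernel⟩

def k123_A00pm_213_s3 : ∃ t, chk3 f_A00pm_213_s3 t 60 112 1 = true :=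
  ⟨(c (b (a (l 16627864) (c (a (l 16641072) (l 16602696)) (l 16591232))) (b (a (l 16632752) (c (b (l 16640936) (l 16601672)) (l 16616928))) (a (l 16661752) (a (l 16651856) (l 16645232))))) (b (a (l 16639360) (c (l 16629160) (l 16625576))) (a (b (l 16644232) (l 16652288)) (b (b (l 16630736) (l 16633448)) (l 16640648))))), by decide +kernel⟩

def k124_A00pm_213_s3 : ∃ t, chk3 f_A00pm_213_s3 t 61 112 2 = true :=
  ⟨(a (b (b (a (c (c (l 16627104) (l 16624944)) (l 16621944)) (c (a (a (l 16621720) (c (a (b (l 16621240) (l 16622176)) (l 16622032)) (l 16619880))) (l 16622568)) (a (a (l 16617800) (l 16596024)) (l 16618520)))) (a (c (c (l 16629568) (l 16627440)) (l 16624488)) (c (a (c (a (l 16625176) (a (l 16623856) (b (l 16623088) (l 16623904)))) (a (l 16623120) (a (l 16621816) (l 16621504)))) (c (l 16625000) (l 16622912))) (a (b (l 16598000) (l 16599144)) (l 16620024))))) (a (b (b (c (l 16630360) (l 16626408)) (c (c (l 16634152) (l 16632064)) (l 16629160))) (c (l 16640584) (l 16636696))) (b (c (a (b (c (a (l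 16626992) (a (l 16625664) (l 16624848))) (l 16624080)) (b (a (l 16627448) (b (a (l 16625536) (c (l 16625656) (l 16623680))) (l 16626280))) (l 16629088))) (b (l 16624960) (b (a (b (l 16624872) (l 16625928)) (l 16626688)) (l 16628328)))) (a (b (l 16621312) (a (l 16624944) (l 16602304))) (b (l 16621152) (l 16602488)))) (a (c (l 16635496) (l 16631808)) (c (a (b (l 16631296) (l 16636088)) (l 16634704)) (l 16609600)))))) (b (c (c (b (a (l 16627600) (l 16632904)) (a (l 16628960) (l 16634296))) (b (a (l 16625304) (l 16630392)) (a (l 16626728) (l 16631848)))) (c (a (l 16623856) (l 16628744)) (l 16603216))) (c (b (c (b (a (l 16629976) (l 16635336)) (a (b (l 16631040) (l 16633240)) (b (l 16636384) (l 16638512)))) (b (l 16635624) (a (l 16629984) (l 16635088)))) (a (c (l 16638864) (l 16636760)) (c (l 16643944) (l 16641632)))) (b (a (b (l 16624744) (l 16626992)) (b (l 16629568) (l 16631760))) (l 16620384))))), by decide +kernel⟩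

def k125_A00pm_213_s3 : ∃ t, chk3 f_A00pm_213_s3 t 61 112 3 = true :=
  ⟨(a (b (a (c (l 16577728) (l 16616640)) (c (a (c (l 16595032) (l 16572528)) (l 16615808)) (a (l 16612416) (l 16612888)))) (a (b (c (l 16603376) (l 16621392)) (l 16631728)) (b (c (a (b (l 16618088) (l 16599944)) (b (l 16617872) (l 16620240))) (a (l 16616848) (l 16616360))) (c (a (l 16628616) (l 16627400)) (l 16625408))))) (b (c (a (l 16598064) (l 16602368)) (l 16617664)) (c (b (c (l 16604400) (l 16602608)) (l 16611416)) (b (l 16621120) (l 16629120))))), by decide +kernel⟩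

def k126_A00pm_213_s3 : ∃ t, chk3 f_A00pm_213_s3 t 30 113 1 = true :=
  ⟨(a (c (a (c (l 16685952) (l 16681080)) (b (a (l 16665704) (l 16617592)) (l 16638752))) (a (c (l 16676424) (l 16671992)) (c (l 16665880) (l 16662328)))) (a (c (a (b (a (l 16612952) (l 16630832)) (l 16630400)) (b (a (c (l 16650576) (l 16646960)) (c (a (l 16616952) (l 16648416)) (l 16624024))) (c (l 16626784) (l 16623336)))) (a (c (l 16657816) (l 16654848)) (b (c (a (l 16643800) (l 16599968)) (l 16640280)) (c (l 16620304) (l 16659624))))) (c (b (c (b (a (l 16646736) (l 16651408)) (l 16657776)) (c (l 16608472) (l 16648512))) (c (l 16628696) (l 16624928))) (c (b (l 16624896) (l 16621552)) (b (l 16642712) (l 16660504)))))), by decide +kernel⟩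

def k127_A00pm_213_s3 : ∃ t, chk3 f_A00pm_213_s3 t 62 112 1 = true :=
  ⟨(c (b (c (a (c (b (a (l 16638264) (l 16643688)) (a (l 16639688) (l 16645144))) (a (b (l 16635536) (l 16637024)) (b (l 16640736) (l 16642256)))) (c (a (b (l 16649176) (l 16650664)) (b (l 16654720) (l 16656240))) (a (b (l 16645976) (l 16647536)) (b (l 16651280) (l 16652864))))) (c (a (a (l 16633680) (l 16638648)) (a (b (l 16642856) (l 16644480)) (b (l 16647896) (l 16649544)))) (a (a (l 16631184) (l 16635904)) (a (l 16640648) (b (l 16644576) (l 16646296)))))) (c (a (b (c (b (a (l 16640752) (l 16646232)) (a (b (l 16641784) (l 16643840)) (b (l 16647256) (l 16649232)))) (b (a (l 16638136) (l 16643392)) (a (l 16640240) (l 16645440)))) (a (c (l 16649080) (l 16646552)) (c (l 16654272) (l 16651520)))) (c (b (b (a (l 16651776) (l 16657376)) (a (b (l 16652784) (l 16654688)) (b (l 16658376) (l 16660200)))) (a (l 16659528) (l 16664840))) (a (b (b (l 16648688) (l 16650688)) (l 16656536)) (b (b (l 16654048) (l 16655992)) (l 16661600))))) (a (b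 (b (c (l 16638152) (l 16635616)) (c (a (l 16637760) (l 16642720)) (l 16637752))) (a (l 16642944) (l 16647552))) (a (b (b (l 16644216) (c (l 16647720) (l 16644824))) (l 16652192)) (b (b (l 16649168) (c (l 16652760) (l 16649592))) (l 16656864)))))) (b (c (b (a (l 16607992) (a (l 16635400) (l 16639720))) (a (l 16614976) (c (l 16619904) (l 16637904)))) (a (l 16625176) (a (l 16609760) (l 16623952)))) (c (a (b (b (l 16611032) (l 16623704)) (l 16619576)) (b (a (c (l 16620000) (l 16617248)) (b (l 16642896) (l 16623992))) (a (l 16646664) (l 16650760)))) (a (b (c (l 16608760) (l 16627608)) (l 16636200)) (b (b (l 16624552) (l 16626704)) (l 16632704)))))), by decide +kernel⟩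

def k128_A00pm_213_s3 : ∃ t, chk3 f_A00pm_213_s3 t 62 113 1 = true :=
  ⟨(c (a (b (b (c (a (l 16656128) (l 16660896)) (l 16632592)) (a (l 16662000) (l 16671472))) (c (l 16636544) (l 16631936))) (b (b (c (a (l 16665712) (l 16670584)) (l 16641256)) (c (l 16675576) (l 16669792))) (c (l 16644568) (l 16659984)))) (a (c (b (l 16632176) (l 16627632)) (b (l 16648944) (l 16665576))) (c (b (b (l 16635576) (l 16643280)) (l 16654656)) (b (c (l 16635416) (l 16653768)) (l 16649552))))), by decide +kernel⟩

def k129_A00pm_213_s3 : ∃ t, chk3 f_A00pm_213_s3 t 126 56 1 = true :=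
  ⟨(b (c (b (c (a (c (b (l 16660328) (l 16661880)) (b (l 16656624) (l 16658240))) (b (c (l 16666000) (l 16662032)) (c (l 16667584) (l 16663680)))) (a (c (b (l 16652976) (l 16654656)) (b (l 16649368) (l 16651120))) (c (b (l 16658096) (l 16659808)) (b (l 16654200) (l 16655984))))) (c (a (b (b (c (l 16663040) (l 16659448)) (c (b (l 16664024) (l 16665768)) (l 16661344))) (b (l 16666672) (l 16670224))) (b (b (c (l 16668760) (l 16664912)) (b (a (l 16666408) (l 16669208)) (l 16669488))) (b (l 16672056) (l 16675440)))) (b (a (b (c (l 16655912) (l 16652424)) (c (l 16657840) (l 16654392))) (b (c (l 16661088) (l 16657312)) (c (l 16662968) (l 16659224)))) (a (c (l 16663280) (l 16659880)) (c (l 16668168) (l 16664480)))))) (b (c (a (c (a (l 16645576) (l 16647840)) (l 16622280)) (b (c (l 16650344) (l 16646520)) (c (l 16652192) (l 16648440)))) (a (a (l 16616240) (l 16628576)) (c (a (l 16642736) (l 16644688)) (l 16629520)))) (c (b (b (a (l 16647296) (a (l 16650600) (l 16652816))) (a (c (l 16650992) (l 16647640)) (c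 (l 16655520) (l 16651848)))) (a (l 16633912) (c (l 16660832) (l 16657224)))) (b (a (c (l 16632832) (l 16619080)) (b (l 16633896) (a (l 16645480) (l 16631600)))) (a (l 16648384) (l 16641384)))))) (c (a (b (c (b (l 16675504) (l 16682432)) (l 16651384)) (a (l 16657008) (l 16658944))) (c (b (b (l 16680472) (l 16687064)) (l 16696768)) (b (b (l 16673208) (l 16679976)) (l 16689936)))) (c (b (a (l 16644920) (c (l 16650352) (l 16646856))) (c (l 16662328) (l 16659144))) (a (b (l 16638632) (l 16653192)) (b (a (l 16640896) (l 16642424)) (l 16655600)))))), by decide +kernel⟩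

def k130_A00pm_213_s3 : ∃ t, chk3 f_A00pm_213_s3 t 254 112 1 = true :=
  ⟨(c (b (c (c (b (l 16671720) (l 16673336)) (b (a (l 16666112) (l 16668848)) (a (l 16667784) (l 16670536)))) (c (b (a (l 16661968) (l 16664560)) (a (l 16663704) (l 16666312))) (b (a (l 16657848) (l 16660296)) (a (l 16659648) (l 16662112))))) (b (c (b (c (l 16674544) (l 16670424)) (c (b (l 16675504) (l 16677088)) (b (l 16671400) (l 16673016)))) (b (c (l 16666320) (l 16662240)) (c (b (l 16667328) (l 16668960)) (a (l 16662872) (l 16665320))))) (c (a (l 16677760) (l 16680448)) (c (l 16673104) (l 16669120))))) (c (c (b (b (a (l 16653752) (l 16656040)) (a (l 16655624) (l 16657928))) (b (b (l 16658184) (a (l 16658928) (l 16661216))) (a (l 16664072) (l 16666248)))) (b (a (b (l 16649688) (l 16651624)) (b (l 16651808) (l 16653760))) (b (b (l 16654144) (a (l 16655016) (l 16657136))) (a (l 16660216) (l 16662224))))) (c (b (a (b (l 16645648) (l 16647648)) (b (l 16647600) (l 16649616))) (b (b (l 16655376) (a (l 16651120) (b (l 16652224) (l 16653920))))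 (l 16641584))) (b (a (l 16632176) (b (l 16643408) (l 16645488))) (b (b (l 16635664) (a (l 16647256) (l 16638544))) (l 16642928)))))), by decide +kernel⟩

def k131_A00pm_213_s3 : ∃ t, chk3 f_A00pm_213_s3 t 255 112 2 = true :=
  ⟨(b (c (a (c (b (l 16676048) (l 16677688)) (b (l 16671608) (l 16673312))) (c (b (l 16678960) (l 16680616)) (b (l 16674376) (l 16676096)))) (a (c (b (l 16667176) (l 16668944)) (b (c (l 16663856) (l 16661648)) (l 16664584))) (c (b (a (l 16669136) (l 16670456)) (a (l 16670920) (l 16672240))) (b (a (l 16664600) (c (l 16666992) (l 16664688))) (a (l 16666448) (c (l 16668832) (l 16666552))))))) (a (c (b (b (l 16676752) (c (l 16680624) (l 16676336))) (b (l 16681592) (l 16684696))) (b (b (c (l 16670264) (l 16665952)) (c (l 16672048) (b (l 16666976) (l 16668576)))) (c (l 16676824) (l 16672624)))) (b (c (b (a (l 16678896) (l 16680336)) (c (l 16683536) (l 16679104))) (c (b (l 16672912) (b (l 16673904) (l 16675440))) (b (l 16668456) (b (b (l 16669104) (l 16669832)) (l 16671024))))) (c (c (l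 16688048) (a (l 16683024) (l 16684352))) (a (c (l 16678704) (l 16674384)) (c (l 16679960) (b (l 16674000) (l 16677112)))))))), by decide +kernel⟩

def k132_A00pm_213_s3 : ∃ t, chk3 f_A00pm_213_s3 t 510 112 3 = true :=
  ⟨(c (b (a (c (b (l 16657768) (l 16659656)) (b (l 16653408) (l 16655368))) (c (b (l 16658920) (l 16660816)) (b (l 16654480) (l 16656440)))) (b (b (c (l 16661656) (l 16657376)) (c (c (l 16664584) (l 16662456)) (b (a (l 16657912) (l 16658984)) (l 16660088)))) (c (l 16668432) (b (l 16662584) (l 16665888))))) (b (c (b (b (l 16649048) (l 16650064)) (b (l 16651080) (l 16652088))) (c (b (l 16646272) (l 16648352)) (b (l 16644088) (l 16646200)))) (b (c (b (l 16653096) (b (c (l 16655264) (l 16653136)) (l 16655856))) (b (a (l 16648384) (l 16649288)) (c (b (l 16651024) (l 16652696)) (l 16639264)))) (c (b (l 16658384) (l 16661736)) (l 16645416))))), by decide +kernel⟩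

def k133_A00pm_213_s3 : ∃ t, chk3 f_A00pm_213_s3 t 511 224 3 = true :=
  ⟨(c (c (b (b (c (l 16661320) (l 16659032)) (c (l 16662272) (l 16659992))) (b (c (l 16663216) (l 16660960)) (c (l 16664168) (l 16661920)))) (a (b (c (l 16656680) (l 16654416)) (c (l 16658632) (l 16656408))) (b (c (b (l 16657280) (l 16658264)) (b (l 16654968) (l 16655968))) (c (b (l 16659248) (l 16660224)) (b (l 16656968) (l 16657960)))))) (a (c (b (c (l 16652160) (b (l 16649384) (l 16650416))) (c (l 16654176) (b (l 16651440) (l 16652464)))) (b (b (c (l 16647120) (l 16644856)) (c (l 16648168) (l 16645920))) (b (c (l 16649208) (l 16646976)) (c (l 16650248) (l 16648032))))) (a (c (b (c (b (l 16652408) (l 16653424)) (b (l 16650104) (l 16651136))) (c (b (l 16654432) (l 16655448)) (b (l 16652168) (l 16653192)))) (b (c (b (l 16647808) (l 16648856)) (b (l 16645512) (l 16646576))) (c (b (l 16649904) (l 16650944)) (b (l 16647632) (l 16648696))))) (c (b (c (b (a (l 16652784) (l 16653032)) (l 16653928)) (b (b (l 16650328) (l 16650848)) (b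 (l 16651360) (l 16651880)))) (c (b (l 16654944) (l 16655952)) (b (b (l 16652392) (l 16652912)) (a (l 16653560) (l 16651176))))) (b (c (b (b (c (l 16648584) (l 16647424)) (c (l 16649104) (l 16647952))) (a (l 16649200) (c (l 16650008) (l 16648848)))) (c (b (b (l 22) (l 16646792)) (b (l 16647320) (l 16647848))) (l 22))) (c (b (a (l 16650248) (c (l 16651048) (l 16649904))) (c (l 16651976) (l 16650840))) (b (b (c (l 16648376) (l 22)) (c (l 16648912) (l 16647768))) (b (c (l 16649440) (l 16648296)) (c (l 16649960) (l 16648832)))))))))), by decide +kernel⟩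

def k134_A00pm_213_s3 : ∃ t, chk3 f_A00pm_213_s3 t 511 450 3 = true :=
  ⟨(a (c (b (c (l 16663408) (l 16658992)) (c (b (b (l 16664080) (l 16664824)) (l 16666040)) (b (b (l 16659688) (l 16660440)) (l 16661680)))) (c (b (c (l 16655688) (l 16653488)) (b (b (b (l 16655160) (l 16655440)) (l 16656064)) (l 16657320))) (b (c (l 16651288) (l 16649088)) (b (b (b (l 16650776) (l 16651064)) (l 16651696)) (l 16652960))))) (c (b (c (l 16661960) (c (l 16661208) (l 16658960))) (b (c (b (b (l 16665112) (l 16665384)) (l 16665984)) (b (b (l 16660632) (l 16660912)) (a (l 16661248) (l 16661792)))) (c (l 16667192) (a (l 16662472) (l 16663008))))) (a (c (b (c (l 16656456) (l 16654216)) (b (b (b (l 16655904) (l 16656192)) (l 16656808)) (l 16658048))) (b (c (l 16651984) (l 16649752)) (b (b (b (c (l 16652568) (l 16650344)) (c (l 16652856) (l 16650632))) (l 16649744)) (c (l 16654728) (l 16652520))))) (a (c (b (c (l 16656832) (l 16654584)) (b (b (b (l 16656280) (l 16656560)) (l 16657176)) (l 16658416))) (b (c (l 16652328) (c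 (l 16650640) (l 16649512))) (b (b (b (c (l 16652920) (l 16650672)) (c (l 16653200) (l 16650960))) (c (l 16653824) (l 16651584))) (c (l 16655072) (l 16652840))))) (b (c (c (l 16657088) (l 16654824)) (c (c (l 16653128) (l 16652000)) (c (l 16650864) (b (l 16649472) (l 16650000))))) (c (b (b (b (c (l 16657656) (l 16655408)) (c (l 16657936) (l 16655688))) (c (l 16658552) (l 16656304))) (c (l 16659776) (l 16657536))) (b (b (b (c (l 16653152) (l 16650896)) (c (l 16653432) (l 16651176))) (c (l 16654056) (l 16651808))) (c (l 16655296) (b (l 16652640) (l 16653472)))))))))), by decide +kernel⟩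

def k135_A00pm_213_s3 : ∃ t, chk3 f_A00pm_213_s3 t 511 451 3 = true :=
  ⟨(a (c (c (l 16670072) (l 16665760)) (c (b (l 16659800) (l 16663088)) (b (l 16655480) (l 16658808)))) (a (c (c (l 16670896) (c (l 16667608) (l 16665424))) (c (b (l 16660512) (l 16663768)) (c (l 16658864) (l 16654056)))) (c (b (c (l 16669864) (c (l 16666528) (l 16664312))) (c (l 16673008) (c (l 16669712) (l 16667520)))) (a (c (c (l 16663592) (b (l 16659760) (l 16663008))) (c (b (l 16657544) (l 16660816)) (b (l 16655328) (l 16658624)))) (c (c (b (l 16662216) (l 16665432)) (b (b (l 16659176) (l 16660800)) (a (l 16663176) (l 16663288)))) (c (b (b (l 16656944) (l 16658584)) (b (l 16660216) (l 16661832))) (b (b (c (l 16655272) (l 16654152)) (c (l 16656920) (l 16655808))) (a (l 16658768) (c (l 16659424) (b (l 16657496) (l 16659128))))))))))), by decide +kernel⟩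

def k136_A00pm_213_s3 : ∃ t, chk3 f_A00pm_213_s3 t 127 113 2 = true :=
  ⟨(a (b (c (b (l 16685496) (l 16691768)) (b (c (l 16679624) (l 16675736)) (l 16684128))) (c (a (l 16699920) (l 16702064)) (a (l 16692680) (l 16694528)))) (a (b (c (b (l 16689296) (l 16695336)) (b (l 16681056) (l 16687264))) (c (b (l 16701280) (l 16707128)) (b (l 16693368) (l 16699360)))) (c (b (b (c (l 16693992) (l 16689728)) (c (l 16699840) (l 16695664))) (b (c (l 16705592) (l 16701496)) (l 16703992))) (a (b (b (c (l 16684864) (l 16680640)) (c (l 16690928) (l 16686776))) (b (l 16694832) (l 16700704))) (b (c (b (l 16686048) (l 16692024)) (b (b (l 16680200) (l 16683264)) (a (l 16687544) (l 16688056)))) (b (c (l 16697896) (l 16693736)) (c (l 16703648) (l 16699560)))))))), by decide +kernel⟩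

def k137_A00pm_213_s3 : ∃ t, chk3 f_A00pm_213_s3 t 127 113 3 = true :=
  ⟨(a (c (b (c (l 16654208) (l 16655640)) (a (l 16685488) (l 16687024))) (b (c (l 16657080) (a (l 16663064) (l 16643520))) (c (l 16659808) (l 16656168)))) (c (b (a (a (b (l 16672352) (l 16678768)) (b (l 16673320) (l 16679656))) (a (b (c (l 16676408) (l 16672184)) (c (l 16682624) (l 16678480))) (c (b (a (l 16677176) (c (l 16678768) (l 16676600))) (b (l 16682040) (l 16685080))) (b (a (l 16672880) (b (c (l 16672864) (l 16670688)) (b (l 16674128) (l 16675680)))) (a (l 16679112) (b (a (l 16677888) (l 16678112)) (l 16681064))))))) (b (a (l 16685464) (b (a (l 16685160) (c (l 16688080) (l 16683896))) (c (l 16690640) (l 16686528)))) (a (l 16691592) (a (l 16692680) (c (l 16695464) (l 16691344)))))) (a (b (b (c (l 16666696) (l 16662608)) (c (l 16673184) (l 16669176))) (c (l 16666944) (l 16668272))) (a (b (b (c (l 16667960) (l 16663736)) (c (l 16674320) (l 16670168))) (b (c (l 16680552) (l 16676456)) (b (l 16683104) (l 16686120)))) (a (b (c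 (b (c (l 16669664) (l 16667512)) (b (l 16673328) (l 16676440))) (c (b (l 16665368) (l 16671720)) (b (l 16663216) (l 16669608)))) (c (b (l 16681056) (l 16687072)) (b (l 16676888) (l 16682968)))) (b (c (c (b (b (l 16668512) (l 16671664)) (b (l 16674784) (l 16677872))) (b (a (l 16667824) (b (l 16666432) (l 16669608))) (b (l 16672640) (l 16675744)))) (b (c (c (b (l 16664696) (l 16667880)) (b (l 16663608) (l 16666800))) (c (a (l 16664032) (b (l 16662608) (l 16665808))) (b (b (l 16660616) (l 16662232)) (l 16664640)))) (b (a (l 16669344) (c (l 16670584) (l 16668432))) (c (l 16673616) (l 16671488))))) (b (c (b (l 16679872) (l 16682896)) (b (a (l 16675568) (l 16675720)) (l 16678696))) (c (l 16687368) (l 16677968))))))))), by decide +kernel⟩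

def k138_A00pm_213_s3 : ∃ t, chk3 f_A00pm_213_s3 t 30 57 1 = true :=
  ⟨(a (c (b (a (l 16715576) (c (l 16708352) (l 16704432))) (a (l 16744360) (l 16695664))) (b (a (c (l 16708856) (l 16704544)) (c (l 16700744) (l 16697280))) (a (c (l 16738120) (l 16734032)) (c (l 16732432) (l 16729168))))) (c (b (a (b (c (l 16647904) (l 16644480)) (l 16663824)) (b (c (l 16645512) (l 16641992)) (c (l 16661992) (l 16658720)))) (a (b (l 16680680) (l 16696648)) (a (c (l 16685896) (l 16683152)) (l 16684952)))) (b (b (a (c (l 16683336) (a (l 16682640) (l 16678472))) (c (l 16659792) (a (l 16676952) (l 16678896)))) (a (c (l 16701184) (l 16698488)) (c (l 16676736) (a (l 16694496) (l 16695664))))) (a (c (b (l 16718248) (l 16734480)) (b (l 16715632) (l 16731984))) (c (a (c (l 16723200) (l 16701048)) (l 16722664)) (a (b (c (l 16712288) (l 16711208)) (c (l 16729064) (l 16728048))) (c (l 16720760) (l 16719560)))))))), by decide +kernel⟩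

def k139_A00pm_213_s3 : ∃ t, chk3 f_A00pm_213_s3 t 31 57 2 = true :=
  ⟨(a (b (a (b (c (l 16693960) (l 16689640)) (l 16685984)) (b (a (l 16654472) (l 16678608)) (a (l 16710632) (l 16713144)))) (a (c (l 16709928) (l 16685344)) (a (l 16720768) (l 16722312)))) (b (b (a (c (a (l 16705800) (l 16709320)) (a (l 16699816) (l 16702800))) (a (c (a (l 16712024) (l 16713856)) (a (l 16705064) (l 16706600))) (c (b (a (l 16712864) (l 16714824)) (l 16719408)) (b (c (l 16708008) (l 16704104)) (a (l 16710992) (l 16712472)))))) (a (c (a (l 16718576) (l 16721488)) (l 16693104)) (a (c (l 16724488) (l 16717608)) (c (b (l 16724864) (l 16730208)) (b (l 16717296) (l 16722736)))))) (a (b (a (l 16728240) (l 16730224)) (c (l 16743800) (l 16738216))) (c (a (l 16720072) (b (l 16738032) (l 16748048))) (a (l 16713472) (b (l 16730688) (l 16740840))))))), by decide +kernel⟩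

def k140_A00pm_213_s3 : ∃ t, chk3 f_A00pm_213_s3 t 31 57 3 = true :=
  ⟨(a (b (a (c (a (l 16692440) (l 16652592)) (b (l 16639872) (l 16676704))) (c (b (l 16648456) (l 16662768)) (b (l 16664592) (l 16679144)))) (c (a (l 16702904) (c (l 16684512) (l 16703304))) (a (b (l 16692112) (l 16707048)) (b (l 16693200) (l 16706704))))) (a (a (b (c (l 16679760) (c (l 16675520) (l 16683224))) (c (l 16705416) (c (l 16701456) (l 16719800)))) (b (c (c (l 16683400) (l 16680248)) (b (l 16669016) (l 16681856))) (c (l 16716600) (b (l 16694144) (l 16716360))))) (b (a (c (b (a (l 16698144) (l 16699344)) (l 16710728)) (b (c (l 16693440) (l 16668944)) (a (l 16703576) (l 16683096)))) (b (b (a (c (l 16697584) (l 16689912)) (c (c (l 16700872) (l 16696864)) (a (l 16690592) (c (l 16693080) (l 16688992))))) (a (c (l 16703448) (l 16695864)) (c (l 16699328) (b (l 16695168) (l 16698024))))) (c (c (l 16693384) (l 16689576)) (c (l 16690984) (b (l 16700032) (l 16705632)))))) (c (a (c (l 16708472) (l 16715608)) (b (c (l 16725104) (l 16721352))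 (l 16712520))) (b (a (c (l 16717112) (l 16692744)) (a (c (l 16717456) (l 16713752)) (c (l 16717688) (b (l 16711136) (l 16716360))))) (a (c (l 16728120) (l 16714264)) (c (a (l 16727936) (l 16727816)) (a (l 16724264) (c (l 16724904) (l 16725576)))))))))), by decide +kernel⟩

def k141_A00pm_213_s3 : ∃ t, chk3 f_A00pm_213_s3 t 30 29 2 = true :=
  ⟨(b (b (a (a (l 16769640) (l 16765336)) (a (l 16740048) (a (l 16737008) (l 16756880)))) (a (a (l 16791184) (l 16789472)) (a (l 16787720) (b (l 16779136) (l 16792816))))) (b (a (c (l 16810704) (l 16787128)) (a (l 16789720) (b (l 16805656) (l 16796528)))) (a (b (l 16800016) (c (l 16828632) (l 16826240))) (b (c (l 16827912) (l 16804704)) (c (l 16836664) (l 16792432)))))), by decide +kernel⟩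

def k142_A00pm_213_s3 : ∃ t, chk3 f_A00pm_213_s3 t 30 29 3 = true :=
  ⟨(b (b (a (a (c (l 16764000) (l 16760248)) (b (l 16752392) (l 16765760))) (a (c (l 16715304) (b (l 16747448) (l 16761984))) (c (b (l 16746216) (l 16761360)) (b (a (l 16739488) (l 16743520)) (a (l 16760016) (l 16758432)))))) (c (a (a (l 16786264) (l 16785400)) (a (l 16784272) (b (l 16775832) (a (l 16789744) (l 16788872))))) (a (a (l 16782928) (b (l 16776800) (l 16788288))) (a (b (l 16775584) (l 16788120)) (a (b (l 16774304) (l 16787648)) (a (b (l 16773448) (b (l 16773480) (l 16780136))) (b (l 16772464) (l 16786248)))))))) (a (b (c (b (l 16800888) (l 16809592)) (a (l 16780600) (b (l 16798696) (l 16808008)))) (b (c (l 16796224) (a (l 16812568) (l 16816200))) (c (a (l 16821280) (l 16825824)) (a (l 16797504) (c (l 16781960) (l 16812096)))))) (b (c (a (b (l 16801872) (l 16812352)) (b (a (l 16802144) (l 16802040)) (c (l 16814648) (l 16803000)))) (b (a (l 16799608) (a (l 16799944) (a (a (l 16800008) (l 16800024)) (a (b (l 16786152) (l 16797800))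 (l 16799152))))) (a (c (l 16810608) (l 16809424)) (a (c (l 16811776) (l 16810592)) (c (a (l 16812264) (l 16812384)) (a (l 16811056) (a (b (l 16808424) (l 16814024)) (b (l 16808016) (a (l 16814160) (l 16813936)))))))))) (a (b (c (l 16821752) (a (l 16818584) (l 16809512))) (c (l 16829976) (c (l 16807112) (a (l 16804808) (l 16817232))))) (c (b (l 16814016) (l 16812752)) (c (b (a (l 16821912) (l 16812672)) (a (l 16809872) (l 16822032))) (b (a (b (l 16818224) (l 16822960)) (c (b (l 16819608) (l 16824536)) (b (a (l 16818664) (l 16819160)) (l 16823856)))) (b (a (l 16827384) (a (l 16828504) (l 16823960))) (a (l 16820992) (a (l 16822304) (b (l 16832536) (l 16829416)))))))))))), by decide +kernel⟩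

def k143_A00pm_213_s3 : ∃ t, chk3 f_A00pm_213_s3 t 31 58 1 = true :=
  ⟨(c (a (b (a (c (l 16758696) (l 16755512)) (c (l 16717560) (l 16734320))) (a (c (l 16785136) (l 16782176)) (c (l 16783040) (l 16779008)))) (b (b (a (l 16731352) (c (l 16757072) (l 16729344))) (a (l 16742224) (c (l 16766400) (l 16738760)))) (a (b (l 16752568) (l 16762352)) (c (l 16758392) (a (l 16752592) (l 16751016)))))) (a (c (b (a (c (l 16753208) (l 16751704)) (c (l 16731184) (l 16750080))) (a (a (l 16780192) (l 16778144)) (b (l 16748144) (l 16759512)))) (b (a (b (l 16721456) (l 16756312)) (b (c (l 16741672) (l 16718640)) (c (l 16754096) (l 16741560)))) (a (a (b (l 16770816) (l 16784064)) (b (l 16747560) (l 16781040))) (b (c (l 16745056) (l 16763960)) (c (l 16777376) (b (l 16751520) (l 16757040))))))) (c (b (a (b (l 16723136) (l 16734112)) (a (b (l 16743568) (l 16753432)) (b (l 16727480) (l 16736592)))) (a (b (l 16744520) (l 16754336)) (b (a (l 16762688) (l 16739800)) (a (l 16771288) (l 16747616))))) (a (b (b (c (l 16719000) (c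 (l 16716920) (l 16726016))) (c (l 16729992) (a (l 16749152) (l 16726192)))) (b (c (l 16750880) (b (l 16745544) (l 16750576))) (c (l 16760680) (a (l 16759624) (l 16756064))))) (c (b (b (a (l 16738592) (a (l 16737872) (l 16737384))) (a (l 16748464) (c (l 16747696) (l 16745816)))) (a (b (l 16757720) (l 16766304)) (b (l 16744728) (l 16752528)))) (b (a (b (b (l 16732640) (l 16737744)) (c (l 16745944) (l 16733768))) (b (a (l 16723720) (b (l 16731160) (l 16735792))) (a (l 16733032) (b (l 16740256) (l 16744544))))) (b (a (c (l 16755192) (l 16743008)) (a (a (l 16752520) (l 16741304)) (b (l 16748672) (l 16752632)))) (b (a (l 16760816) (c (l 16758272) (l 16745864))) (a (l 16764936) (c (l 16762008) (a (l 16761088) (l 16759072)))))))))))), by decide +kernel⟩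

def k144_A00pm_213_s3 : ∃ t, chk3 f_A00pm_213_s3 t 31 59 2 = true :=
  ⟨(a (b (c (c (l 16766064) (l 16764392)) (a (l 16764968) (l 16800640))) (a (c (l 16789976) (b (l 16781896) (l 16792328))) (b (l 16775296) (l 16784336)))) (b (a (b (l 16771512) (l 16801032)) (c (l 16794376) (a (l 16768512) (l 16765328)))) (b (c (l 16786760) (a (l 16806376) (l 16797552))) (a (l 16795336) (c (l 16809528) (l 16803192)))))), by decide +kernel⟩

def k145_A00pm_213_s3 : ∃ t, chk3 f_A00pm_213_s3 t 62 118 3 = true :=
  ⟨(a (c (b (l 16797904) (l 16809768)) (c (b (l 16795680) (c (l 16807864) (l 16807096))) (a (b (l 16798768) (b (l 16805320) (l 16811272))) (b (l 16792168) (c (l 16803960) (l 16805720)))))) (c (b (l 16791304) (l 16801504)) (b (c (l 16788160) (a (l 16788096) (l 16783912))) (c (l 16798312) (a (l 16801240) (l 16793608)))))), by decide +kernel⟩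

def k146_A00pm_213_s3 : ∃ t, chk3 f_A00pm_213_s3 t 62 119 3 = true :=
  ⟨(c (b (a (c (l 16821592) (l 16799080)) (l 16811096)) (a (c (l 16811008) (a (l 16822832) (l 16786080))) (l 16799128))) (a (c (b (a (a (l 16812000) (l 16820072)) (l 16816040)) (a (a (b (l 16820224) (l 16825232)) (l 16809960)) (l 16815760))) (b (c (a (b (l 16817336) (a (l 16824264) (l 16821656))) (l 16814720)) (a (b (a (a (l 16818648) (l 16817384)) (l 16815328)) (a (a (c (l 16824400) (a (l 16824280) (l 16823912))) (l 16823072)) (l 16820864))) (b (l 16811184) (l 16816400)))) (c (a (a (a (b (l 16830072) (l 16834584)) (b (l 16829304) (a (l 16824312) (l 16823840)))) (b (l 16827056) (l 16821832))) (b (l 16822376) (l 16816824))) (a (b (c (a (a (l 16829520) (l 16828736)) (l 16826448)) (a (a (b (l 16827960) (l 16830312)) (b (l 16827048) (l 16829712))) (l 16828664))) (b (a (a (l 16832728) (a (a (l 16832960) (l 16830192)) (l 16832264))) (l 16824936)) (a (a (l 16834888) (c (a (l 16835400) (l 16824568)) (a (c (l 16835104) (l 16832280)) (c (l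 16829512) (b (l 16833944) (l 16832584)))))) (a (l 16828384) (l 16831904))))) (a (b (l 16823056) (a (l 16823696) (l 16827232))) (b (l 16819848) (l 16824664))))))) (a (c (b (l 16810592) (l 16819952)) (c (b (l 16809040) (b (l 16816072) (l 16820584))) (b (b (l 16805560) (l 16810352)) (b (l 16815000) (c (l 16819768) (l 16821840)))))) (c (b (l 16805080) (l 16813608)) (b (c (l 16803288) (l 16802072)) (b (l 16809080) (c (l 16813792) (l 16812544)))))))), by decide +kernel⟩

def k147_A00pm_213_s3 : ∃ t, chk3 f_A00pm_213_s3 t 63 59 3 = true :=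
  ⟨(b (c (a (b (l 16763512) (l 16793032)) (b (a (l 16779256) (l 16754792)) (c (l 16786192) (l 16772232)))) (c (a (b (l 16780312) (c (l 16789536) (l 16788112))) (b (a (l 16774256) (l 16759696)) (a (l 16781576) (l 16766232)))) (a (b (a (l 16769144) (c (l 16776024) (l 16764008))) (a (l 16788512) (c (l 16784120) (l 16777328)))) (b (a (b (l 16768904) (l 16762224)) (a (b (l 16765688) (l 16769208)) (c (l 16766216) (b (l 16762552) (l 16765864))))) (b (a (l 16765864) (a (l 16772560) (a (l 16770664) (l 16769392)))) (a (l 16769360) (a (l 16775768) (b (l 16772296) (l 16773768))))))))) (c (a (b (l 16780000) (c (l 16809688) (l 16806896))) (a (b (l 16793328) (l 16799440)) (b (l 16767264) (l 16783048)))) (c (a (b (b (l 16794792) (l 16798592)) (a (l 16807216) (l 16800808))) (b (a (l 16767312) (c (l 16783592) (l 16771208))) (a (l 16783904) (c (l 16788896) (l 16776504))))) (a (b (a (c (l 16797464) (l 16796080)) (a (l 16787064) (l 16784072))) (a (b (l 16802568) (l 16806248)) (c (l 16798472) (b (l 16795216) (l 16793256)))))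 (c (b (a (l 16775208) (b (l 16778336) (l 16781144))) (b (a (l 16790304) (l 16783800)) (a (l 16793200) (l 16775816)))) (a (b (b (l 16771824) (l 16775008)) (b (l 16783296) (c (l 16791872) (l 16785744)))) (a (b (b (l 16777864) (l 16780768)) (c (l 16780088) (b (l 16783040) (l 16785648)))) (b (b (c (l 16775400) (l 16774400)) (c (l 16778112) (l 16777104))) (b (a (l 16781008) (l 16779336)) (b (l 16782000) (l 16783168))))))))))), by decide +kernel⟩

def k148_A00pm_213_s3 : ∃ t, chk3 f_A00pm_213_s3 t 30 60 1 = true :=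
  ⟨(c (b (a (c (c (l 16784456) (l 16783352)) (b (l 16784320) (l 16779032))) (c (l 16809880) (c (l 16790136) (l 16810560)))) (a (a (b (l 16773016) (l 16768216)) (c (l 16817232) (l 16773128))) (c (l 16801536) (a (l 16776536) (l 16779720))))) (b (a (c (b (b (l 16804144) (l 16780536)) (l 16797616)) (a (b (l 16797536) (l 16813656)) (b (c (l 16824224) (l 16801936)) (l 16797256)))) (c (a (b (l 16830616) (l 16824720)) (b (l 16834648) (l 16828288))) (a (b (c (l 16828704) (a (l 16805336) (l 16817872))) (c (l 16822816) (l 16811016))) (c (b (l 16822088) (l 16805240)) (b (b (a (l 16821336) (a (l 16822688) (b (l 16829616) (l 16833200)))) (a (l 16828672) (l 16825096))) (a (l 16813504) (c (l 16825848) (l 16819856)))))))) (a (a (b (l 16789232) (l 16784560)) (b (l 16803728) (l 16798568))) (c (a (l 16795112) (b (l 16780144) (l 16816072))) (a (b (l 16805920) (l 16789832)) (c (b (l 16799024) (l 16813968)) (b (a (l 16817880) (l 16819144)) (l 16807264)))))))), by decide +kernel⟩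

def k149_A00pm_213_s3 : ∃ t, chk3 f_A00pm_213_s3 t 30 61 1 = true :=
  ⟨(b (a (b (c (a (l 16784560) (l 16766664)) (a (l 16780024) (l 16793584))) (c (a (l 16780128) (l 16782816)) (a (l 16775672) (l 16788800)))) (c (a (b (l 16769528) (l 16785320)) (c (l 16791608) (l 16789104))) (a (b (c (l 16807936) (l 16805392)) (c (l 16802752) (l 16800216))) (a (b (l 16797856) (l 16792392)) (c (l 16786920) (b (l 16807832) (l 16802248))))))) (a (b (c (a (l 16786392) (l 16778224)) (a (l 16782016) (l 16784256))) (a (c (a (l 16792352) (l 16793392)) (c (l 16789720) (l 16787464))) (c (a (l 16794352) (l 16795312)) (c (l 16791608) (l 16789288))))) (a (b (c (l 16780376) (c (l 16797824) (l 16795304))) (c (l 16786296) (a (l 16770696) (l 16781928)))) (c (b (l 16782592) (l 16788296)) (a (b (l 16787312) (l 16782672)) (c (l 16787040) (b (l 16797080) (l 16792440)))))))), by decide +kernel⟩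

def k150_A00pm_213_s3 : ∃ t, chk3 f_A00pm_213_s3 t 31 60 2 = true :=
  ⟨(c (a (b (a (l 16812080) (l 16828080)) (a (a (l 16826552) (l 16825496)) (l 16819440))) (b (a (l 16776320) (l 16787808)) (a (l 16768976) (l 16781720)))) (b (a (a (b (l 16815536) (l 16810392)) (l 16782264)) (a (l 16792280) (c (l 16804160) (l 16779984)))) (a (a (a (l 16824064) (l 16801488)) (l 16773728)) (a (l 16785104) (a (l 16799008) (l 16773504)))))), by decide +kernel⟩

def k151_A00pm_213_s3 : ∃ t, chk3 f_A00pm_213_s3 t 31 60 6 = true :=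
  ⟨(b (b (a (a (a (c (l 16835080) (l 16825048)) (l 16831464)) (l 16801240)) (a (l 16788856) (c (l 16799200) (l 16774784)))) (a (a (a (l 16820016) (l 16826808)) (l 16796976)) (a (l 16785128) (c (l 16796176) (l 16792784))))) (b (a (a (a (l 16824320) (l 16800984)) (l 16792736)) (a (l 16781592) (c (l 16793320) (l 16790000)))) (a (a (a (l 16817912) (l 16796032)) (l 16788664)) (a (l 16778256) (c (l 16790792) (l 16766584)))))), by decide +kernel⟩

def k152_A00pm_213_s3 : ∃ t, chk3 f_A00pm_213_s3 t 62 60 7 = true :=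
  ⟨(b (a (c (b (a (a (l 16824280) (l 16822984)) (l 16807824)) (a (a (l 16828064) (l 16817640)) (l 16824176))) (c (a (b (a (b (l 16830032) (l 16831880)) (b (l 16823152) (l 16820576))) (a (l 16826896) (a (l 16816888) (l 16816168)))) (b (l 16816928) (l 16822808))) (a (b (b (c (a (b (a (l 16835296) (l 16830392)) (l 16833848)) (l 16827768)) (a (a (l 16828816) (b (a (l 16835200) (a (l 16832720) (l 16835144))) (l 16833624))) (a (b (l 16834112) (l 16832864)) (l 16831768)))) (a (l 16831088) (a (a (b (l 16832168) (l 16830688)) (l 16830856)) (l 16829608)))) (a (l 16820856) (a (a (l 16821248) (b (l 16822928) (l 16825000))) (b (l 16827200) (l 16824616))))) (b (a (b (l 16824128) (l 16827048)) (b (l 16825872) (l 16823616))) (a (l 16818304) (l 16820208)))))) (c (b (a (l 16822200) (l 16815560)) (l 16804184)) (a (b (c (l 16820600) (b (l 16823216) (l 16818432))) (a (l 16817384) (l 16814056))) (b (b (l 16814136) (l 16812096)) (c (l 16809664) (l 16808432)))))) (a (b (b (a (a (l 16822416) (a (l 16822864) (l 16817840))) (c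 (l 16820696) (l 16808400))) (a (l 16819504) (c (l 16818232) (a (l 16812744) (l 16815072))))) (a (c (l 16815576) (l 16803464)) (a (a (b (l 16806392) (l 16813784)) (b (l 16815976) (l 16813504))) (l 16802168)))) (a (c (l 16800856) (b (c (l 16811960) (l 16810896)) (l 16807224))) (c (l 16794984) (b (l 16805048) (l 16801256)))))), by decide +kernel⟩

def k153_A00pm_213_s3 : ∃ t, chk3 f_A00pm_213_s3 t 63 60 7 = true :=
  ⟨(b (c (a (b (a (l 16808896) (l 16802224)) (a (l 16805072) (l 16798704))) (a (b (l 16785048) (l 16792392)) (b (l 16778424) (l 16775656)))) (a (c (b (a (l 16806824) (l 16789400)) (a (l 16803016) (l 16796400))) (b (a (b (l 16806360) (l 16804464)) (a (l 16794840) (l 16791280))) (a (l 16801624) (l 16789600)))) (c (a (b (l 16782456) (l 16779352)) (b (a (l 16787760) (l 16773848)) (l 16772840))) (b (a (b (l 16786744) (l 16779904)) (a (b (l 16786608) (l 16785136)) (b (a (l 16783928) (l 16782136)) (l 16781664)))) (b (a (l 16788848) (a (l 16783744) (l 16780384))) (a (l 16787352) (a (l 16782432) (l 16779176))))))))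 (a (c (b (a (l 16801400) (l 16795400)) (l 16784680)) (b (a (l 16798696) (c (l 16793136) (l 16781112))) (a (l 16795296) (l 16784184)))) (a (a (c (l 16779080) (b (l 16787688) (l 16785080))) (c (l 16776256) (b (l 16774112) (l 16782208)))) (c (b (l 16773200) (l 16771048)) (b (c (l 16770448) (b (c (l 16780096) (l 16779152)) (l 16768040))) (c (l 16768368) (b (l 16767024) (l 16776568)))))))), by decide +kernel⟩

def k154_A00pm_213_s3 : ∃ t, chk3 f_A00pm_213_s3 t 31 61 2 = true :=
  ⟨(a (b (a (a (l 16792304) (b (l 16795832) (l 16790776))) (c (l 16811376) (l 16786792))) (a (b (l 16795504) (l 16780008)) (a (b (l 16784632) (l 16791280)) (a (l 16780712) (l 16779160))))) (b (a (c (l 16783280) (l 16778696)) (c (l 16776496) (a (l 16793792) (l 16769016)))) (a (c (l 16777432) (c (l 16774312) (l 16782616))) (c (a (l 16794280) (l 16770608)) (b (l 16767848) (l 16776512)))))), by decide +kernel⟩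

def k155_A00pm_213_s3 : ∃ t, chk3 f_A00pm_213_s3 t 31 61 3 = true :=
  ⟨(a (b (c (a (a (l 16798416) (b (l 16801576) (l 16796560))) (b (l 16784776) (l 16781176))) (a (a (b (l 16803440) (l 16802976)) (a (b (b (l 16805584) (l 16807792)) (l 16803528)) (b (b (l 16809336) (l 16801824)) (c (l 16804432) (b (l 16803896) (l 16801568)))))) (a (c (l 16792824) (b (l 16803224) (l 16799536))) (c (l 16787800) (b (l 16797696) (l 16794464)))))) (b (c (a (l 16791024) (c (l 16778440) (l 16787016))) (a (a (l 16797776) (b (l 16799800) (l 16797240))) (a (a (b (l 16798976) (l 16797096)) (l 16795976)) (c (l 16793680) (l 16791528))))) (c (a (l 16796592) (a (a (l 16797560) (l 16796480)) (l 16793888))) (b (a (l 16794560) (a (a (l 16789936) (l 16793672)) (l 16790568))) (a (l 16792328) (a (a (l 16793128) (l 16792136)) (l 16789288))))))) (c (b (a (b (l 16775224) (l 16772456)) (b (c (l 16767544) (l 16764408)) (c (l 16765512) (l 16772984)))) (a (b (l 16780416) (c (l 16789736) (l 16787472))) (b (c (l 16763712) (l 16771320)) (a (l 16772952)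 (l 16769584))))) (a (c (b (b (l 16781760) (l 16779120)) (b (l 16776752) (b (l 16785640) (l 16784664)))) (b (b (a (l 16792216) (l 16776312)) (a (l 16778952) (l 16773984))) (b (a (l 16776472) (l 16771952)) (a (l 16774272) (l 16770208))))) (b (b (c (a (l 16784632) (l 16769184)) (a (c (l 16782256) (l 16770160)) (b (l 16766120) (l 16765320)))) (c (a (l 16782632) (l 16767600)) (a (l 16774328) (b (l 16764592) (l 16763944))))) (b (b (c (l 16768712) (a (l 16778352) (l 16763368))) (c (l 16768024) (a (l 16777632) (l 16762872)))) (a (b (l 16767912) (l 16772536)) (c (l 16765248) (b (l 16762440) (c (l 16773320) (l 16771824)))))))))), by decide +kernel⟩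

def k156_A00pm_213_s3 : ∃ t, chk3 f_A00pm_213_s3 t 30 124 1 = true :=
  ⟨(a (a (c (b (a (b (l 16789632) (l 16787888)) (b (l 16790528) (l 16788720))) (b (c (l 16782344) (l 16785656)) (c (a (l 16780360) (l 16786336)) (c (l 16779360) (l 16773144))))) (b (c (l 16780832) (l 16773384)) (c (b (l 16783624) (l 16782128)) (b (l 16781472) (l 16780024))))) (b (c (a (l 16779952) (l 16780784)) (a (l 16775704) (l 16776448))) (c (a (b (l 16787784) (l 16786152)) (b (l 16788576) (l 16786912))) (c (b (l 16785104) (l 16783536)) (b (l 16782904) (l 16781384)))))) (b (c (a (c (l 16793672) (l 16791512)) (c (l 16795664) (l 16793280))) (a (c (l 16789224) (l 16776320)) (c (l 16790744) (a (l 16787728) (l 16788320))))) (c (a (a (l 16778016) (l 16778848)) (a (l 16779696) (l 16780584))) (a (c (l 16775208) (b (l 16784200) (l 16782624))) (c (l 16776584) (b (l 16785344) (l 16773224))))))), by decide +kernel⟩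

def k157_A00pm_213_s3 : ∃ t, chk3 f_A00pm_213_s3 t 120 250 1 = true :=
  ⟨(a (b (a (b (c (l 16783400) (l 16779488)) (c (a (a (b (l 16782752) (b (l 16782480) (l 16782408))) (l 16787872)) (l 16782800)) (c (a (l 16774456) (l 16779952)) (l 16772464)))) (c (c (l 16784304) (l 16782472)) (l 16774280))) (c (a (c (b (a (b (l 16780560) (l 16782904)) (b (l 16780512) (a (l 16782952) (a (l 16782928) (l 16782912))))) (l 16782608)) (b (a (l 16776104) (b (l 16781336) (a (l 16781184) (l 16781144)))) (l 16780920))) (c (b (l 16783264) (a (b (a (a (l 16782744) (l 16782728)) (l 16782720)) (l 16782576)) (a (b (l 16782848) (a (l 16782536) (l 16782520))) (l 16782752)))) (b (l 16781472) (a (b (a (l 16780992) (l 16780952)) (l 16780848)) (a (b (l 16781080) (l 16780784)) (l 16780992)))))) (a (b (c (a (l 16779496) (a (l 16774144) (l 16774088))) (a (l 16777536) (l 16772128))) (l 16778200)) (b (l 16778584) (a (c (b (l 16773864) (l 16779024)) (l 16771928)) (c (b (l 16779248) (l 16773680)) (l 16771808))))))) (c (c (b (l 16779600)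 (c (l 16778656) (l 16783032))) (b (l 16783008) (c (l 16782144) (l 16781232)))) (c (b (l 16781056) (l 16774568)) (c (l 16773640) (l 16767360))))), by decide +kernel⟩

def k158_A00pm_213_s3 : ∃ t, chk3 f_A00pm_213_s3 t 240 251 1 = true :=
  ⟨(c (c (b (a (c (l 16782392) (l 16781640)) (b (a (l 16782224) (b (a (l 16782328) (c (l 16780168) (l 16781952))) (l 16782144))) (l 16781864))) (b (a (l 16781472) (l 16781496)) (l 16778512))) (b (b (a (l 16780624) (a (l 16780576) (b (l 16778064) (l 16780472)))) (l 16780320)) (b (l 16780048) (l 16779792)))) (b (c (b (a (l 16778936) (a (l 16778824) (l 16773616))) (l 16778688)) (a (l 16777112) (b (l 16771816) (l 16776856)))) (c (a (l 16778496) (l 16778384)) (l 16771648)))), by decide +kernel⟩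

def k159_A00pm_213_s3 : ∃ t, chk3 f_A00pm_213_s3 t 241 251 1 = true :=
  ⟨(b (c (a (c (b (a (a (b (l 16779720) (l 16782200)) (b (l 16782472) (b (l 16782208) (l 16782136)))) (l 16782416)) (a (l 16781880) (b (a (b (l 16779416) (l 16781952)) (b (l 16782104) (l 16781944))) (l 16781856)))) (b (a (b (l 16780632) (a (l 16780504) (l 16777832))) (l 16780688)) (a (l 16780240) (b (a (l 16780336) (l 16780288)) (l 16780208))))) (b (c (l 16782680) (l 16780952)) (b (l 16784008) (a (a (b (a (l 16781024) (l 16781080)) (a (l 16780960) (l 16783584))) (l 16783656)) (l 16781184))))) (b (a (a (b (c (l 16778792) (l 16776856)) (c (c (l 16773912) (l 16778224)) (l 16776792))) (l 16777912)) (l 16778168)) (b (a (a (l 16777632) (a (a (l 16777616) (l 16777584)) (l 16782800))) (l 16777792)) (a (c (l 16778504) (l 16776680)) (a (a (a (l 16777472) (l 16777432)) (l 16777472)) (l 16777624)))))) (c (c (a (b (l 16781528) (l 16781184)) (b (a (b (a (l 16781632) (b (l 16784328) (l 16781600))) (l 16781464)) (b (a (b (l 16781752) (c (l 16779392)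 (l 16781208))) (l 16781760)) (a (l 16781512) (b (l 16784152) (l 16781480))))) (l 16781216))) (b (a (l 16779976) (a (b (a (l 16780008) (l 16777424)) (l 16779880)) (b (c (l 16777808) (l 16776952)) (a (l 16779896) (c (l 16777680) (l 16776840)))))) (l 16777096))) (c (a (l 16773016) (b (b (a (l 16778344) (a (l 16778232) (l 16778344))) (a (l 16778200) (a (l 16778184) (l 16775536)))) (l 16778080))) (b (a (l 16776592) (a (l 16776536) (b (l 16776384) (l 16771144)))) (l 16776472))))), by decide +kernel⟩

def k160_A00pm_213_s3 : ∃ t, chk3 f_A00pm_213_s3 t 121 125 1 = true :=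
  ⟨(b (b (c (a (c (l 16785560) (l 16783712)) (l 16785368)) (c (l 16782096) (l 16780008))) (c (c (a (l 16778904) (l 16784840)) (c (l 16777920) (l 16776992))) (c (c (l 16776040) (l 16769816)) (l 16773536)))) (b (c (c (a (a (l 16780064) (l 16783008)) (l 16778256)) (a (c (l 16781576) (l 16780688)) (l 16781760))) (c (a (l 16774072) (l 16779920)) (c (l 16772952) (l 16771960)))) (a (c (a (a (b (b (l 16781056) (b (l 16780856) (c (l 16784096) (l 16779840)))) (b (a (b (a (l 16780592) (l 16783208)) (l 16780504)) (b (l 16780592) (a (l 16780528) (b (l 16780528) (l 16780496))))) (l 16780400))) (a (b (l 16781032) (b (l 16780624) (b (a (l 16783080) (l 16783056)) (l 16780384)))) (b (l 16781104) (b (l 16780704) (b (l 16780512) (a (b (l 16780384) (l 16780368)) (l 16780376))))))) (c (b (l 16782112) (l 16781544)) (b (l 16780456) (l 16779936)))) (a (a (b (c (l 16778264) (l 16776416)) (a (c (l 16778080) (l 16776320)) (b (b (l 16777152) (l 16782360)) (l 16777072)))) (b (l 16777568) (b (l 16777224) (a (c (l 16775336) (l 16776184))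 (c (l 16775280) (l 16776112)))))) (c (l 16778448) (l 16776616)))) (c (a (c (l 16779496) (l 16780472)) (c (l 16782416) (l 16780768))) (c (b (l 16779136) (l 16778648)) (l 16771784)))))), by decide +kernel⟩

def k161_A00pm_213_s3 : ∃ t, chk3 f_A00pm_213_s3 t 61 125 1 = true :=
  ⟨(b (c (a (b (a (l 16786104) (l 16786864)) (a (l 16784640) (l 16785352))) (a (b (l 16787648) (l 16786080)) (l 16777120))) (a (b (c (l 16772920) (l 16770704)) (c (l 16771552) (l 16769416))) (c (b (l 16784664) (l 16772728)) (b (l 16771728) (l 16770384))))) (c (c (a (b (l 16779280) (a (l 16777648) (l 16783528))) (a (l 16779592) (l 16775056))) (a (b (l 16777472) (a (l 16775968) (l 16781792))) (b (l 16783992) (l 16777440)))) (a (b (c (l 16775552) (l 16773520)) (c (a (l 16774176) (l 16779944)) (c (l 16773024) (l 16772032)))) (a (b (l 16775296) (l 16774192)) (b (l 16775768) (b (l 16769664) (l 16769128))))))), by decide +kernel⟩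

def k162_A00pm_213_s3 : ∃ t, chk3 f_A00pm_213_s3 t 62 62 1 = true :=
  ⟨(b (c (a (b (l 16786024) (a (l 16771000) (l 16771928))) (b (a (c (l 16778424) (l 16775480)) (l 16775400)) (a (l 16783480) (l 16782784)))) (a (c (b (l 16781784) (l 16777952)) (b (a (l 16788904) (l 16784232)) (a (l 16785256) (l 16780520)))) (c (b (a (a (l 16793224) (l 16793176)) (l 16791216)) (a (l 16779088) (b (l 16789256) (l 16787944)))) (b (a (a (l 16789904) (b (l 16790592) (l 16783800))) (c (l 16788432) (l 16786496))) (a (c (l 16781960) (b (l 16775936) (l 16784616))) (a (b (l 16786536) (l 16780072)) (l 16774016))))))) (c (b (a (c (l 16779488) (l 16777128)) (a (l 16779544) (b (l 16780656) (a (l 16789792) (l 16789544))))) (a (b (c (l 16787472) (l 16785288)) (c (l 16785912) (l 16783864))) (a (b (l 16787456) (l 16785848)) (a (l 16781864) (b (l 16788160) (l 16786672)))))) (b (a (a (b (l 16784264) (l 16772312)) (b (l 16779560) (l 16778048))) (c (a (l 16785968) (b (l 16776216) (a (l 16785672) (l 16785280)))) (b (a (l 16783800) (a (a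 (l 16784080) (l 16773512)) (l 16783144))) (a (l 16771840) (a (l 16772192) (l 16776936)))))) (a (a (b (l 16776232) (b (l 16770088) (l 16769536))) (c (l 16777248) (b (l 16780616) (l 16768992)))) (c (a (l 16777744) (b (a (l 16784104) (l 16773696)) (l 16777680))) (a (b (l 16770512) (l 16774576)) (b (a (l 16781280) (c (l 16771544) (l 16775288))) (b (l 16775304) (l 16774696))))))))), by decide +kernel⟩

def k163_A00pm_213_s3 : ∃ t, chk3 f_A00pm_213_s3 t 63 62 2 = true :=
  ⟨(b (a (b (c (l 16794464) (l 16769672)) (c (l 16770976) (l 16777968))) (b (a (l 16778376) (b (l 16765872) (l 16765064))) (c (l 16777464) (a (l 16784976) (l 16772208))))) (a (a (b (l 16778424) (c (l 16782480) (l 16774680))) (b (l 16776568) (c (l 16786416) (l 16773168)))) (b (a (c (l 16786928) (l 16772952)) (b (l 16773264) (l 16772552))) (a (c (l 16774504) (l 16771544)) (c (l 16773072) (c (l 16770736) (l 16774352))))))), by decide +kernel⟩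

def k164_A00pm_213_s3 : ∃ t, chk3 f_A00pm_213_s3 t 63 62 3 = true :=
  ⟨(a (b (c (b (a (l 16788088) (l 16774520)) (a (l 16786032) (l 16772872))) (b (a (c (l 16784992) (l 16772360)) (b (l 16770304) (l 16769600))) (a (b (l 16772128) (l 16771336)) (a (l 16774672) (l 16773160))))) (a (c (b (l 16784184) (b (l 16782944) (l 16771584))) (a (b (l 16776152) (b (l 16780424) (l 16774520))) (b (l 16774864) (c (l 16779832) (l 16773032))))) (c (b (l 16771432) (c (l 16770960) (l 16769424))) (b (b (l 16773176) (l 16772768)) (b (c (l 16778520) (l 16771560)) (c (l 16778168) (l 16771360))))))) (b (c (b (a (l 16771480) (c (l 16780280) (l 16767192))) (a (l 16770240) (c (l 16779304) (l 16766464)))) (b (a (c (l 16767768) (c (l 16765848) (l 16769784))) (a (b (l 16764112) (l 16763816)) (c (l 16774168) (b (l 16771424) (l 16771296))))) (b (a (c (l 16777552) (l 16775144)) (a (l 16763592) (a (l 16772952) (l 16772208)))) (a (c (l 16777168) (l 16764408)) (c (l 16774448) (a (l 16772720) (l 16771296))))))) (c (b (a (c (l 16780648)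 (l 16768224)) (b (l 16767152) (l 16766888))) (a (b (l 16768568) (l 16768200)) (b (l 16771904) (a (l 16777400) (l 16776544))))) (a (b (b (c (l 16776856) (l 16764224)) (c (l 16776600) (l 16769368))) (b (c (l 16776416) (l 16769336)) (a (l 16770688) (l 16769728)))) (b (b (c (l 16774344) (a (l 16772720) (l 16771408))) (c (l 16769072) (a (l 16772792) (l 16771592)))) (b (c (l 16769096) (b (l 16767096) (l 16767208))) (c (a (l 16774888) (l 16773968)) (a (l 16773144) (l 16766928))))))))), by decide +kernel⟩

def k165_A00pm_213_s3 : ∃ t, chk3 f_A00pm_213_s3 t 15 63 1 = true :=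
  ⟨(b (a (a (b (b (a (b (b (b (a (c (c (l 16780912) (l 16779640)) (l 16772344)) (a (c (l 16780296) (l 16777360)) (c (l 16782920) (l 16777200)))) (l 14)) (l 14)) (l 14)) (a (a (b (b (c (a (l 16780264) (c (l 16783688) (l 16779528))) (c (l 16777936) (l 16776224))) (l 14)) (l 14)) (b (b (b (b (c (a (l 16780376) (l 16780536)) (l 16777080)) (l 14)) (l 14)) (l 14)) (l 14))) (b (b (c (c (l 16781576) (l 16779992)) (c (l 16778312) (l 16776528))) (l 14)) (l 14)))) (l 14)) (l 14)) (b (b (b (b (b (a (c (a (l 16776192) (l 16782016)) (c (l 16773904) (l 16772048))) (c (l 16777672) (c (l 16780104) (l 16767600)))) (l 14)) (l 14)) (l 14)) (l 14)) (l 14))) (a (b (b (b (b (c (a (l 16778792) (l 16774720)) (a (a (l 16769144) (l 16769528)) (c (l 16781824) (l 16774120)))) (l 14)) (l 14)) (l 14)) (l 14)) (a (b (b (b (c (a (l 16779824) (l 16783880)) (c (a (l 16770992) (l 16780024)) (a (a (l 16774096) (l 16778560)) (l 16771984)))) (l 14)) (l 14)) (l 14)) (b (b (b (b (c (c (l 16772832) (l 16775368)) (c (a (l 16778488) (l 16776896))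 (a (l 16770216) (c (l 16774512) (l 16767616))))) (l 14)) (l 14)) (l 14)) (l 14))))) (l 14)), by decide +kernel⟩

theorem t166_A00pm_213_s3 : ∃ t, chk3 f_A00pm_213_s3 t 63 62 1 = true := ex3_c k163_A00pm_213_s3 k164_A00pm_213_s3

theorem t167_A00pm_213_s3 : ∃ t, chk3 f_A00pm_213_s3 t 31 62 1 = true := ex3_a k162_A00pm_213_s3 t166_A00pm_213_s3

theorem t168_A00pm_213_s3 : ∃ t, chk3 f_A00pm_213_s3 t 120 251 1 = true := ex3_a k158_A00pm_213_s3 k159_A00pm_213_s3

theorem t169_A00pm_213_s3 : ∃ t, chk3 f_A00pm_213_s3 t 120 125 1 = true := ex3_b k157_A00pm_213_s3 t168_A00pm_213_s3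

theorem t170_A00pm_213_s3 : ∃ t, chk3 f_A00pm_213_s3 t 60 125 1 = true := ex3_a t169_A00pm_213_s3 k160_A00pm_213_s3

theorem t171_A00pm_213_s3 : ∃ t, chk3 f_A00pm_213_s3 t 30 125 1 = true := ex3_a t170_A00pm_213_s3 k161_A00pm_213_s3

theorem t172_A00pm_213_s3 : ∃ t, chk3 f_A00pm_213_s3 t 30 62 1 = true := ex3_b k156_A00pm_213_s3 t171_A00pm_213_s3

theorem t173_A00pm_213_s3 : ∃ t, chk3 f_A00pm_213_s3 t 15 62 1 = true := ex3_a t172_A00pm_213_s3 t167_A00pm_213_s3

theorem t174_A00pm_213_s3 : ∃ t, chk3 f_A00pm_213_s3 t 15 31 1 = true := ex3_b t173_A00pm_213_s3 k165_A00pm_213_s3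

theorem t175_A00pm_213_s3 : ∃ t, chk3 f_A00pm_213_s3 t 31 61 1 = true := ex3_c k154_A00pm_213_s3 k155_A00pm_213_s3

theorem t176_A00pm_213_s3 : ∃ t, chk3 f_A00pm_213_s3 t 31 60 7 = true := ex3_a k152_A00pm_213_s3 k153_A00pm_213_s3

theorem t177_A00pm_213_s3 : ∃ t, chk3 f_A00pm_213_s3 t 31 60 3 = true := ex3_c k151_A00pm_213_s3 t176_A00pm_213_s3

theorem t178_A00pm_213_s3 : ∃ t, chk3 f_A00pm_213_s3 t 31 60 1 = true := ex3_c k150_A00pm_213_s3 t177_A00pm_213_s3

theorem t179_A00pm_213_s3 : ∃ t, chk3 f_A00pm_213_s3 t 31 30 1 = true := ex3_b t178_A00pm_213_s3 t175_A00pm_213_s3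

theorem t180_A00pm_213_s3 : ∃ t, chk3 f_A00pm_213_s3 t 30 30 1 = true := ex3_b k148_A00pm_213_s3 k149_A00pm_213_s3

theorem t181_A00pm_213_s3 : ∃ t, chk3 f_A00pm_213_s3 t 15 30 1 = true := ex3_a t180_A00pm_213_s3 t179_A00pm_213_s3

theorem t182_A00pm_213_s3 : ∃ t, chk3 f_A00pm_213_s3 t 15 15 1 = true := ex3_b t181_A00pm_213_s3 t174_A00pm_213_s3

theorem t183_A00pm_213_s3 : ∃ t, chk3 f_A00pm_213_s3 t 62 59 3 = true := ex3_b k145_A00pm_213_s3 k146_A00pm_213_s3

theorem t184_A00pm_213_s3 : ∃ t, chk3 f_A00pm_213_s3 t 31 59 3 = true := ex3_a t183_A00pm_213_s3 k147_A00pm_213_s3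

theorem t185_A00pm_213_s3 : ∃ t, chk3 f_A00pm_213_s3 t 31 59 1 = true := ex3_c k144_A00pm_213_s3 t184_A00pm_213_s3

theorem t186_A00pm_213_s3 : ∃ t, chk3 f_A00pm_213_s3 t 31 29 1 = true := ex3_b k143_A00pm_213_s3 t185_A00pm_213_s3

theorem t187_A00pm_213_s3 : ∃ t, chk3 f_A00pm_213_s3 t 30 29 1 = true := ex3_c k141_A00pm_213_s3 k142_A00pm_213_s3

theorem t188_A00pm_213_s3 : ∃ t, chk3 f_A00pm_213_s3 t 15 29 1 = true := ex3_a t187_A00pm_213_s3 t186_A00pm_213_s3

theorem t189_A00pm_213_s3 : ∃ t, chk3 f_A00pm_213_s3 t 31 57 1 = true := ex3_c k139_A00pm_213_s3 k140_A00pm_213_s3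

theorem t190_A00pm_213_s3 : ∃ t, chk3 f_A00pm_213_s3 t 15 57 1 = true := ex3_a k138_A00pm_213_s3 t189_A00pm_213_s3

theorem t191_A00pm_213_s3 : ∃ t, chk3 f_A00pm_213_s3 t 127 113 1 = true := ex3_c k136_A00pm_213_s3 k137_A00pm_213_s3

theorem t192_A00pm_213_s3 : ∃ t, chk3 f_A00pm_213_s3 t 511 225 3 = true := ex3_b k134_A00pm_213_s3 k135_A00pm_213_s3

theorem t193_A00pm_213_s3 : ∃ t, chk3 f_A00pm_213_s3 t 511 112 3 = true := ex3_b k133_A00pm_213_s3 t192_A00pm_213_s3

theorem t194_A00pm_213_s3 : ∃ t, chk3 f_A00pm_213_s3 t 255 112 3 = true := ex3_a k132_A00pm_213_s3 t193_A00pm_213_s3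

theorem t195_A00pm_213_s3 : ∃ t, chk3 f_A00pm_213_s3 t 255 112 1 = true := ex3_c k131_A00pm_213_s3 t194_A00pm_213_s3

theorem t196_A00pm_213_s3 : ∃ t, chk3 f_A00pm_213_s3 t 127 112 1 = true := ex3_a k130_A00pm_213_s3 t195_A00pm_213_s3

theorem t197_A00pm_213_s3 : ∃ t, chk3 f_A00pm_213_s3 t 127 56 1 = true := ex3_b t196_A00pm_213_s3 t191_A00pm_213_s3

theorem t198_A00pm_213_s3 : ∃ t, chk3 f_A00pm_213_s3 t 63 56 1 = true := ex3_a k129_A00pm_213_s3 t197_A00pm_213_s3

theorem t199_A00pm_213_s3 : ∃ t, chk3 f_A00pm_213_s3 t 62 56 1 = true := ex3_b k127_A00pm_213_s3 k128_A00pm_213_s3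

theorem t200_A00pm_213_s3 : ∃ t, chk3 f_A00pm_213_s3 t 31 56 1 = true := ex3_a t199_A00pm_213_s3 t198_A00pm_213_s3

theorem t201_A00pm_213_s3 : ∃ t, chk3 f_A00pm_213_s3 t 61 112 1 = true := ex3_c k124_A00pm_213_s3 k125_A00pm_213_s3

theorem t202_A00pm_213_s3 : ∃ t, chk3 f_A00pm_213_s3 t 30 112 1 = true := ex3_a k123_A00pm_213_s3 t201_A00pm_213_s3

theorem t203_A00pm_213_s3 : ∃ t, chk3 f_A00pm_213_s3 t 30 56 1 = true := ex3_b t202_A00pm_213_s3 k126_A00pm_213_s3

theorem t204_A00pm_213_s3 : ∃ t, chk3 f_A00pm_213_s3 t 15 56 1 = true := ex3_a t203_A00pm_213_s3 t200_A00pm_213_s3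

theorem t205_A00pm_213_s3 : ∃ t, chk3 f_A00pm_213_s3 t 15 28 1 = true := ex3_b t204_A00pm_213_s3 t190_A00pm_213_s3

theorem t206_A00pm_213_s3 : ∃ t, chk3 f_A00pm_213_s3 t 15 14 1 = true := ex3_b t205_A00pm_213_s3 t188_A00pm_213_s3

theorem t207_A00pm_213_s3 : ∃ t, chk3 f_A00pm_213_s3 t 15 7 1 = true := ex3_b t206_A00pm_213_s3 t182_A00pm_213_s3

theorem t208_A00pm_213_s3 : ∃ t, chk3 f_A00pm_213_s3 t 58 126 3 = true := ex3_b k119_A00pm_213_s3 k120_A00pm_213_s3

theorem t209_A00pm_213_s3 : ∃ t, chk3 f_A00pm_213_s3 t 58 63 3 = true := ex3_b t208_A00pm_213_s3 k121_A00pm_213_s3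

theorem t210_A00pm_213_s3 : ∃ t, chk3 f_A00pm_213_s3 t 29 63 3 = true := ex3_a t209_A00pm_213_s3 k122_A00pm_213_s3

theorem t211_A00pm_213_s3 : ∃ t, chk3 f_A00pm_213_s3 t 29 63 1 = true := ex3_c k118_A00pm_213_s3 t210_A00pm_213_s3

theorem t212_A00pm_213_s3 : ∃ t, chk3 f_A00pm_213_s3 t 57 252 3 = true := ex3_a k114_A00pm_213_s3 k115_A00pm_213_s3

theorem t213_A00pm_213_s3 : ∃ t, chk3 f_A00pm_213_s3 t 57 126 3 = true := ex3_b t212_A00pm_213_s3 k116_A00pm_213_s3

theorem t214_A00pm_213_s3 : ∃ t, chk3 f_A00pm_213_s3 t 57 63 3 = true := ex3_b t213_A00pm_213_s3 k117_A00pm_213_s3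

theorem t215_A00pm_213_s3 : ∃ t, chk3 f_A00pm_213_s3 t 28 63 3 = true := ex3_a k113_A00pm_213_s3 t214_A00pm_213_s3

theorem t216_A00pm_213_s3 : ∃ t, chk3 f_A00pm_213_s3 t 28 63 1 = true := ex3_c k112_A00pm_213_s3 t215_A00pm_213_s3

theorem t217_A00pm_213_s3 : ∃ t, chk3 f_A00pm_213_s3 t 14 63 1 = true := ex3_a t216_A00pm_213_s3 t211_A00pm_213_s3

theorem t218_A00pm_213_s3 : ∃ t, chk3 f_A00pm_213_s3 t 29 125 1 = true := ex3_a k110_A00pm_213_s3 k111_A00pm_213_s3

theorem t219_A00pm_213_s3 : ∃ t, chk3 f_A00pm_213_s3 t 57 251 1 = true := ex3_a k108_A00pm_213_s3 k109_A00pm_213_s3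

theorem t220_A00pm_213_s3 : ∃ t, chk3 f_A00pm_213_s3 t 57 125 1 = true := ex3_b k107_A00pm_213_s3 t219_A00pm_213_s3

theorem t221_A00pm_213_s3 : ∃ t, chk3 f_A00pm_213_s3 t 113 251 3 = true := ex3_b k105_A00pm_213_s3 k106_A00pm_213_s3

theorem t222_A00pm_213_s3 : ∃ t, chk3 f_A00pm_213_s3 t 113 251 1 = true := ex3_c k104_A00pm_213_s3 t221_A00pm_213_s3

theorem t223_A00pm_213_s3 : ∃ t, chk3 f_A00pm_213_s3 t 56 251 1 = true := ex3_a k103_A00pm_213_s3 t222_A00pm_213_s3

theorem t224_A00pm_213_s3 : ∃ t, chk3 f_A00pm_213_s3 t 56 250 1 = true := ex3_a k101_A00pm_213_s3 k102_A00pm_213_s3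

theorem t225_A00pm_213_s3 : ∃ t, chk3 f_A00pm_213_s3 t 56 125 1 = true := ex3_b t224_A00pm_213_s3 t223_A00pm_213_s3

theorem t226_A00pm_213_s3 : ∃ t, chk3 f_A00pm_213_s3 t 28 125 1 = true := ex3_a t225_A00pm_213_s3 t220_A00pm_213_s3

theorem t227_A00pm_213_s3 : ∃ t, chk3 f_A00pm_213_s3 t 14 125 1 = true := ex3_a t226_A00pm_213_s3 t218_A00pm_213_s3

theorem t228_A00pm_213_s3 : ∃ t, chk3 f_A00pm_213_s3 t 28 249 1 = true := ex3_a k98_A00pm_213_s3 k99_A00pm_213_s3

theorem t229_A00pm_213_s3 : ∃ t, chk3 f_A00pm_213_s3 t 14 249 1 = true := ex3_a t228_A00pm_213_s3 k100_A00pm_213_s3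

theorem t230_A00pm_213_s3 : ∃ t, chk3 f_A00pm_213_s3 t 14 124 1 = true := ex3_b k97_A00pm_213_s3 t229_A00pm_213_s3

theorem t231_A00pm_213_s3 : ∃ t, chk3 f_A00pm_213_s3 t 14 62 1 = true := ex3_b t230_A00pm_213_s3 t227_A00pm_213_s3

theorem t232_A00pm_213_s3 : ∃ t, chk3 f_A00pm_213_s3 t 14 31 1 = true := ex3_b t231_A00pm_213_s3 t217_A00pm_213_s3

theorem t233_A00pm_213_s3 : ∃ t, chk3 f_A00pm_213_s3 t 14 123 1 = true := ex3_a k95_A00pm_213_s3 k96_A00pm_213_s3

theorem t234_A00pm_213_s3 : ∃ t, chk3 f_A00pm_213_s3 t 14 61 1 = true := ex3_b k94_A00pm_213_s3 t233_A00pm_213_s3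

theorem t235_A00pm_213_s3 : ∃ t, chk3 f_A00pm_213_s3 t 28 60 1 = true := ex3_b k91_A00pm_213_s3 k92_A00pm_213_s3

theorem t236_A00pm_213_s3 : ∃ t, chk3 f_A00pm_213_s3 t 14 60 1 = true := ex3_a t235_A00pm_213_s3 k93_A00pm_213_s3

theorem t237_A00pm_213_s3 : ∃ t, chk3 f_A00pm_213_s3 t 14 30 1 = true := ex3_b t236_A00pm_213_s3 t234_A00pm_213_s3

theorem t238_A00pm_213_s3 : ∃ t, chk3 f_A00pm_213_s3 t 14 15 1 = true := ex3_b t237_A00pm_213_s3 t232_A00pm_213_s3

theorem t239_A00pm_213_s3 : ∃ t, chk3 f_A00pm_213_s3 t 28 59 1 = true := ex3_a k88_A00pm_213_s3 k89_A00pm_213_s3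

theorem t240_A00pm_213_s3 : ∃ t, chk3 f_A00pm_213_s3 t 28 29 1 = true := ex3_b k87_A00pm_213_s3 t239_A00pm_213_s3

theorem t241_A00pm_213_s3 : ∃ t, chk3 f_A00pm_213_s3 t 14 29 1 = true := ex3_a t240_A00pm_213_s3 k90_A00pm_213_s3

theorem t242_A00pm_213_s3 : ∃ t, chk3 f_A00pm_213_s3 t 14 14 1 = true := ex3_b k86_A00pm_213_s3 t241_A00pm_213_s3

theorem t243_A00pm_213_s3 : ∃ t, chk3 f_A00pm_213_s3 t 14 7 1 = true := ex3_b t242_A00pm_213_s3 t238_A00pm_213_s3

theorem t244_A00pm_213_s3 : ∃ t, chk3 f_A00pm_213_s3 t 7 7 1 = true := ex3_a t243_A00pm_213_s3 t207_A00pm_213_s3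

theorem t245_A00pm_213_s3 : ∃ t, chk3 f_A00pm_213_s3 t 511 111 3 = true := ex3_c k84_A00pm_213_s3 k85_A00pm_213_s3

theorem t246_A00pm_213_s3 : ∃ t, chk3 f_A00pm_213_s3 t 255 111 3 = true := ex3_a k83_A00pm_213_s3 t245_A00pm_213_s3

theorem t247_A00pm_213_s3 : ∃ t, chk3 f_A00pm_213_s3 t 255 55 3 = true := ex3_b k82_A00pm_213_s3 t246_A00pm_213_s3

theorem t248_A00pm_213_s3 : ∃ t, chk3 f_A00pm_213_s3 t 127 55 3 = true := ex3_a k81_A00pm_213_s3 t247_A00pm_213_s3

theorem t249_A00pm_213_s3 : ∃ t, chk3 f_A00pm_213_s3 t 127 55 1 = true := ex3_c k80_A00pm_213_s3 t248_A00pm_213_s3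

theorem t250_A00pm_213_s3 : ∃ t, chk3 f_A00pm_213_s3 t 63 55 1 = true := ex3_a k79_A00pm_213_s3 t249_A00pm_213_s3

theorem t251_A00pm_213_s3 : ∃ t, chk3 f_A00pm_213_s3 t 63 27 1 = true := ex3_b k78_A00pm_213_s3 t250_A00pm_213_s3

theorem t252_A00pm_213_s3 : ∃ t, chk3 f_A00pm_213_s3 t 31 27 1 = true := ex3_a k77_A00pm_213_s3 t251_A00pm_213_s3

theorem t253_A00pm_213_s3 : ∃ t, chk3 f_A00pm_213_s3 t 31 13 1 = true := ex3_b k76_A00pm_213_s3 t252_A00pm_213_s3

theorem t254_A00pm_213_s3 : ∃ t, chk3 f_A00pm_213_s3 t 30 55 1 = true := ex3_a k74_A00pm_213_s3 k75_A00pm_213_s3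

theorem t255_A00pm_213_s3 : ∃ t, chk3 f_A00pm_213_s3 t 30 27 1 = true := ex3_b k73_A00pm_213_s3 t254_A00pm_213_s3

theorem t256_A00pm_213_s3 : ∃ t, chk3 f_A00pm_213_s3 t 30 13 1 = true := ex3_b k72_A00pm_213_s3 t255_A00pm_213_s3

theorem t257_A00pm_213_s3 : ∃ t, chk3 f_A00pm_213_s3 t 15 13 1 = true := ex3_a t256_A00pm_213_s3 t253_A00pm_213_s3

theorem t258_A00pm_213_s3 : ∃ t, chk3 f_A00pm_213_s3 t 7 13 1 = true := ex3_a k71_A00pm_213_s3 t257_A00pm_213_s3

theorem t259_A00pm_213_s3 : ∃ t, chk3 f_A00pm_213_s3 t 7 6 1 = true := ex3_b k70_A00pm_213_s3 t258_A00pm_213_s3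

theorem t260_A00pm_213_s3 : ∃ t, chk3 f_A00pm_213_s3 t 7 3 1 = true := ex3_b t259_A00pm_213_s3 t244_A00pm_213_s3

theorem t261_A00pm_213_s3 : ∃ t, chk3 f_A00pm_213_s3 t 55 250 3 = true := ex3_a k66_A00pm_213_s3 k67_A00pm_213_s3

theorem t262_A00pm_213_s3 : ∃ t, chk3 f_A00pm_213_s3 t 55 125 3 = true := ex3_b t261_A00pm_213_s3 k68_A00pm_213_s3

theorem t263_A00pm_213_s3 : ∃ t, chk3 f_A00pm_213_s3 t 27 125 3 = true := ex3_a k65_A00pm_213_s3 t262_A00pm_213_s3

theorem t264_A00pm_213_s3 : ∃ t, chk3 f_A00pm_213_s3 t 220 499 3 = true := ex3_b k61_A00pm_213_s3 k62_A00pm_213_s3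

theorem t265_A00pm_213_s3 : ∃ t, chk3 f_A00pm_213_s3 t 110 499 3 = true := ex3_a t264_A00pm_213_s3 k63_A00pm_213_s3

theorem t266_A00pm_213_s3 : ∃ t, chk3 f_A00pm_213_s3 t 110 249 3 = true := ex3_b k60_A00pm_213_s3 t265_A00pm_213_s3

theorem t267_A00pm_213_s3 : ∃ t, chk3 f_A00pm_213_s3 t 55 249 3 = true := ex3_a t266_A00pm_213_s3 k64_A00pm_213_s3

theorem t268_A00pm_213_s3 : ∃ t, chk3 f_A00pm_213_s3 t 55 248 3 = true := ex3_a k58_A00pm_213_s3 k59_A00pm_213_s3

theorem t269_A00pm_213_s3 : ∃ t, chk3 f_A00pm_213_s3 t 55 124 3 = true := ex3_b t268_A00pm_213_s3 t267_A00pm_213_s3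

theorem t270_A00pm_213_s3 : ∃ t, chk3 f_A00pm_213_s3 t 54 248 3 = true := ex3_a k55_A00pm_213_s3 k56_A00pm_213_s3

theorem t271_A00pm_213_s3 : ∃ t, chk3 f_A00pm_213_s3 t 54 124 3 = true := ex3_b t270_A00pm_213_s3 k57_A00pm_213_s3

theorem t272_A00pm_213_s3 : ∃ t, chk3 f_A00pm_213_s3 t 27 124 3 = true := ex3_a t271_A00pm_213_s3 t269_A00pm_213_s3

theorem t273_A00pm_213_s3 : ∃ t, chk3 f_A00pm_213_s3 t 27 62 3 = true := ex3_b t272_A00pm_213_s3 t263_A00pm_213_s3

theorem t274_A00pm_213_s3 : ∃ t, chk3 f_A00pm_213_s3 t 27 31 3 = true := ex3_b t273_A00pm_213_s3 k69_A00pm_213_s3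

theorem t275_A00pm_213_s3 : ∃ t, chk3 f_A00pm_213_s3 t 13 31 3 = true := ex3_a k54_A00pm_213_s3 t274_A00pm_213_s3

theorem t276_A00pm_213_s3 : ∃ t, chk3 f_A00pm_213_s3 t 110 249 2 = true := ex3_b k49_A00pm_213_s3 k50_A00pm_213_s3

theorem t277_A00pm_213_s3 : ∃ t, chk3 f_A00pm_213_s3 t 55 249 2 = true := ex3_a t276_A00pm_213_s3 k51_A00pm_213_s3

theorem t278_A00pm_213_s3 : ∃ t, chk3 f_A00pm_213_s3 t 55 248 2 = true := ex3_a k47_A00pm_213_s3 k48_A00pm_213_s3

theorem t279_A00pm_213_s3 : ∃ t, chk3 f_A00pm_213_s3 t 55 124 2 = true := ex3_b t278_A00pm_213_s3 t277_A00pm_213_s3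

theorem t280_A00pm_213_s3 : ∃ t, chk3 f_A00pm_213_s3 t 54 248 2 = true := ex3_a k44_A00pm_213_s3 k45_A00pm_213_s3

theorem t281_A00pm_213_s3 : ∃ t, chk3 f_A00pm_213_s3 t 54 124 2 = true := ex3_b t280_A00pm_213_s3 k46_A00pm_213_s3

theorem t282_A00pm_213_s3 : ∃ t, chk3 f_A00pm_213_s3 t 27 124 2 = true := ex3_a t281_A00pm_213_s3 t279_A00pm_213_s3

theorem t283_A00pm_213_s3 : ∃ t, chk3 f_A00pm_213_s3 t 27 62 2 = true := ex3_b t282_A00pm_213_s3 k52_A00pm_213_s3

theorem t284_A00pm_213_s3 : ∃ t, chk3 f_A00pm_213_s3 t 27 31 2 = true := ex3_b t283_A00pm_213_s3 k53_A00pm_213_s3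

theorem t285_A00pm_213_s3 : ∃ t, chk3 f_A00pm_213_s3 t 13 31 2 = true := ex3_a k43_A00pm_213_s3 t284_A00pm_213_s3

theorem t286_A00pm_213_s3 : ∃ t, chk3 f_A00pm_213_s3 t 13 31 1 = true := ex3_c t285_A00pm_213_s3 t275_A00pm_213_s3

theorem t287_A00pm_213_s3 : ∃ t, chk3 f_A00pm_213_s3 t 55 123 1 = true := ex3_b k41_A00pm_213_s3 k42_A00pm_213_s3

theorem t288_A00pm_213_s3 : ∃ t, chk3 f_A00pm_213_s3 t 55 61 1 = true := ex3_b k40_A00pm_213_s3 t287_A00pm_213_s3

theorem t289_A00pm_213_s3 : ∃ t, chk3 f_A00pm_213_s3 t 54 247 2 = true := ex3_a k37_A00pm_213_s3 k38_A00pm_213_s3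

theorem t290_A00pm_213_s3 : ∃ t, chk3 f_A00pm_213_s3 t 54 123 2 = true := ex3_b k36_A00pm_213_s3 t289_A00pm_213_s3

theorem t291_A00pm_213_s3 : ∃ t, chk3 f_A00pm_213_s3 t 54 123 1 = true := ex3_c t290_A00pm_213_s3 k39_A00pm_213_s3

theorem t292_A00pm_213_s3 : ∃ t, chk3 f_A00pm_213_s3 t 54 61 1 = true := ex3_b k35_A00pm_213_s3 t291_A00pm_213_s3

theorem t293_A00pm_213_s3 : ∃ t, chk3 f_A00pm_213_s3 t 27 61 1 = true := ex3_a t292_A00pm_213_s3 t288_A00pm_213_s3

theorem t294_A00pm_213_s3 : ∃ t, chk3 f_A00pm_213_s3 t 27 30 1 = true := ex3_b k34_A00pm_213_s3 t293_A00pm_213_s3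

theorem t295_A00pm_213_s3 : ∃ t, chk3 f_A00pm_213_s3 t 53 123 3 = true := ex3_b k32_A00pm_213_s3 k33_A00pm_213_s3

theorem t296_A00pm_213_s3 : ∃ t, chk3 f_A00pm_213_s3 t 107 247 2 = true := ex3_c k30_A00pm_213_s3 k31_A00pm_213_s3

theorem t297_A00pm_213_s3 : ∃ t, chk3 f_A00pm_213_s3 t 53 247 2 = true := ex3_a k29_A00pm_213_s3 t296_A00pm_213_s3

theorem t298_A00pm_213_s3 : ∃ t, chk3 f_A00pm_213_s3 t 53 123 2 = true := ex3_b k28_A00pm_213_s3 t297_A00pm_213_s3

theorem t299_A00pm_213_s3 : ∃ t, chk3 f_A00pm_213_s3 t 53 123 1 = true := ex3_c t298_A00pm_213_s3 t295_A00pm_213_s3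

theorem t300_A00pm_213_s3 : ∃ t, chk3 f_A00pm_213_s3 t 53 61 1 = true := ex3_b k27_A00pm_213_s3 t299_A00pm_213_s3

theorem t301_A00pm_213_s3 : ∃ t, chk3 f_A00pm_213_s3 t 26 61 1 = true := ex3_a k26_A00pm_213_s3 t300_A00pm_213_s3

theorem t302_A00pm_213_s3 : ∃ t, chk3 f_A00pm_213_s3 t 26 30 1 = true := ex3_b k25_A00pm_213_s3 t301_A00pm_213_s3

theorem t303_A00pm_213_s3 : ∃ t, chk3 f_A00pm_213_s3 t 13 30 1 = true := ex3_a t302_A00pm_213_s3 t294_A00pm_213_s3

theorem t304_A00pm_213_s3 : ∃ t, chk3 f_A00pm_213_s3 t 13 15 1 = true := ex3_b t303_A00pm_213_s3 t286_A00pm_213_s3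

theorem t305_A00pm_213_s3 : ∃ t, chk3 f_A00pm_213_s3 t 13 28 1 = true := ex3_c k22_A00pm_213_s3 k23_A00pm_213_s3

theorem t306_A00pm_213_s3 : ∃ t, chk3 f_A00pm_213_s3 t 13 14 1 = true := ex3_b t305_A00pm_213_s3 k24_A00pm_213_s3

theorem t307_A00pm_213_s3 : ∃ t, chk3 f_A00pm_213_s3 t 13 7 1 = true := ex3_b t306_A00pm_213_s3 t304_A00pm_213_s3

theorem t308_A00pm_213_s3 : ∃ t, chk3 f_A00pm_213_s3 t 25 121 1 = true := ex3_a k18_A00pm_213_s3 k19_A00pm_213_s3

theorem t309_A00pm_213_s3 : ∃ t, chk3 f_A00pm_213_s3 t 25 60 1 = true := ex3_b k17_A00pm_213_s3 t308_A00pm_213_s3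

theorem t310_A00pm_213_s3 : ∃ t, chk3 f_A00pm_213_s3 t 12 60 1 = true := ex3_a k16_A00pm_213_s3 t309_A00pm_213_s3

theorem t311_A00pm_213_s3 : ∃ t, chk3 f_A00pm_213_s3 t 12 30 1 = true := ex3_b t310_A00pm_213_s3 k20_A00pm_213_s3

theorem t312_A00pm_213_s3 : ∃ t, chk3 f_A00pm_213_s3 t 12 15 1 = true := ex3_b t311_A00pm_213_s3 k21_A00pm_213_s3

theorem t313_A00pm_213_s3 : ∃ t, chk3 f_A00pm_213_s3 t 12 29 1 = true := ex3_a k14_A00pm_213_s3 k15_A00pm_213_s3

theorem t314_A00pm_213_s3 : ∃ t, chk3 f_A00pm_213_s3 t 12 14 1 = true := ex3_b k13_A00pm_213_s3 t313_A00pm_213_s3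

theorem t315_A00pm_213_s3 : ∃ t, chk3 f_A00pm_213_s3 t 12 7 1 = true := ex3_b t314_A00pm_213_s3 t312_A00pm_213_s3

theorem t316_A00pm_213_s3 : ∃ t, chk3 f_A00pm_213_s3 t 6 7 1 = true := ex3_a t315_A00pm_213_s3 t307_A00pm_213_s3

theorem t317_A00pm_213_s3 : ∃ t, chk3 f_A00pm_213_s3 t 13 13 1 = true := ex3_c k11_A00pm_213_s3 k12_A00pm_213_s3

theorem t318_A00pm_213_s3 : ∃ t, chk3 f_A00pm_213_s3 t 6 13 1 = true := ex3_a k10_A00pm_213_s3 t317_A00pm_213_s3

theorem t319_A00pm_213_s3 : ∃ t, chk3 f_A00pm_213_s3 t 6 6 1 = true := ex3_b k9_A00pm_213_s3 t318_A00pm_213_s3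

theorem t320_A00pm_213_s3 : ∃ t, chk3 f_A00pm_213_s3 t 6 3 1 = true := ex3_b t319_A00pm_213_s3 t316_A00pm_213_s3

theorem t321_A00pm_213_s3 : ∃ t, chk3 f_A00pm_213_s3 t 3 3 1 = true := ex3_a t320_A00pm_213_s3 t260_A00pm_213_s3

theorem t322_A00pm_213_s3 : ∃ t, chk3 f_A00pm_213_s3 t 3 1 1 = true := ex3_b k8_A00pm_213_s3 t321_A00pm_213_s3

theorem t323_A00pm_213_s3 : ∃ t, chk3 f_A00pm_213_s3 t 11 14 1 = true := ex3_b k5_A00pm_213_s3 k6_A00pm_213_s3

theorem t324_A00pm_213_s3 : ∃ t, chk3 f_A00pm_213_s3 t 5 14 1 = true := ex3_a k4_A00pm_213_s3 t323_A00pm_213_s3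

theorem t325_A00pm_213_s3 : ∃ t, chk3 f_A00pm_213_s3 t 5 7 1 = true := ex3_b t324_A00pm_213_s3 k7_A00pm_213_s3

theorem t326_A00pm_213_s3 : ∃ t, chk3 f_A00pm_213_s3 t 5 6 1 = true := ex3_b k2_A00pm_213_s3 k3_A00pm_213_s3

theorem t327_A00pm_213_s3 : ∃ t, chk3 f_A00pm_213_s3 t 5 3 1 = true := ex3_b t326_A00pm_213_s3 t325_A00pm_213_s3

theorem t328_A00pm_213_s3 : ∃ t, chk3 f_A00pm_213_s3 t 2 3 1 = true := ex3_a k1_A00pm_213_s3 t327_A00pm_213_s3

theorem t329_A00pm_213_s3 : ∃ t, chk3 f_A00pm_213_s3 t 2 1 1 = true := ex3_b k0_A00pm_213_s3 t328_A00pm_213_s3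

theorem t330_A00pm_213_s3 : ∃ t, chk3 f_A00pm_213_s3 t 1 1 1 = true := ex3_a t329_A00pm_213_s3 t322_A00pm_213_s3

theorem c_A00pm_213_s3 : CertF 0 536870912 536870912 536870912 858993459 64424510 true true false .pnn 2 1 3
    ndB0q2 ndB0q1 pcB3 cut_A00pm_213_s3 xt_A00pm_213_s3 :=
  certF1 (fam := true) (s1 := true) (s2 := false) (a := 2) (b := 1) (c := 3) (cn := .pnn) (n1 := ndB0q2) (n2 := ndB0q1) (pc := pcB3) (cut := cut_A00pm_213_s3) (xt := xt_A00pm_213_s3) (P1 := 0) (W1 := 536870912) (P2 := 536870912) (W2 := 536870912) (P3 := 858993459) (W3 := 64424510)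
    rfl (fun _ => rfl) t330_A00pm_213_s3

theorem s_A00pm_213_s3 {κ x : ℝ} (hκ : κ * h0 = ken x) (hx : ((858993459 : ℕ) : ℝ) / S ≤ x)
    (hx' : x ≤ (((858993459 : ℕ) : ℝ) + (64424510 : ℕ)) / S)
    (H : CutA (VFD κ) PP tK tL pcB (Cut.of [[⟨0, 1, 0, 67108864⟩, ⟨1, 1, 0, 67108864⟩, ⟨2, 2, 0, 16777216⟩], [⟨0, 1, 0, 16777216⟩, ⟨1, 0, 1, 20971520⟩, ⟨2, 1, 1, 20971520⟩]]) 2 1 3 0 0 (sgb true) (sgb false) x) :
    AltA (VFD κ) PP tK tL pcB [⟨4, 0, 0, 2845415833⟩] 2 1 3 0 0 (sgb true) (sgb false) x :=
  strip_altAD (m := 2845415833) false rfl hκ (SH.κ0 hκ (SH.hx1 hx).le (SH.hx2 hx').le) (SH.hx1 hx).le (SH.hx2 hx') (covB02).cov (covB01).cov hx hx' c_A00pm_213_s3 H ((okx hx hx').extA (T := tt) (sideB hx hx') hκ rfl rfl (.O 2 true) (.O 1 false) (Or.inr rfl))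

end Pool.Agent.Strip051.G.I8000_8600.Tab.St.C
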