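import Pool.Agent.Strip051.G.I8000_8600.StH
import Pool.Agent.Strip051.G.I8000_8600.StF

/-! # Unit strips 13 (generated) -/

set_option linter.all false
set_option maxRecDepth 100000

namespace Pool.Agent.Strip051.G.I8000_8600.Tab.St.C

open Pool.Agent.Strip051.PB Pool.Agent.Strip051.PB.T Pool.Agent.StripNear Pool.Agent.Strip051.LC
open Pool.Agent.Strip051.G.I8000_8600.Tab Pool.Agent.Strip051.G.I8000_8600.Tab.St

noncomputable def cut_A00mm_202_s3 : Cut := Cut.of [[⟨3, 0, 0, 2845415833⟩], [⟨0, 1, 0, 67108864⟩, ⟨1, 0, 0, 67108864⟩, ⟨2, 1, 0, 67108864⟩]]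

noncomputable def xt_A00mm_202_s3 : Ext := strExt dd true false false .u2 .u0m .s2m .pp 2 0 2 rfl rfl gl2 vv ndB0q2 ndB0q0

noncomputable def f_A00mm_202_s3 : ℕ → ℕ → ℕ → ℕ → Bool := onCell 0 536870912 0 536870912 858993459 64424510
    (rowF 0 true false false .pp 2 0 2 (qsf 0 536870912 0 536870912 2) ndB0q2 ndB0q0 pcB2 cut_A00mm_202_s3 xt_A00mm_202_s3)

def k0_A00mm_202_s3 : ∃ t, chk3 f_A00mm_202_s3 t 2 4 1 = true :=
  ⟨(b (l 6) (a (l 6) (c (a (l 6) (a (l 6) (b (b (l 6) (c (l 16581632) (l 16575352))) (b (c (l 16582960) (l 16599080)) (c (l 16587056) (l 16601944)))))) (a (l 6) (a (l 6) (a (b (l 6) (b (a (l 6) (b (l 6) (l 16534384))) (c (l 16599888) (c (l 16501560) (l 16533048))))) (b (b (l 6) (c (l 16519840) (b (l 6) (l 16549088)))) (b (c (l 16587248) (b (l 16520488) (l 16532896))) (c (l 16609120) (b (l 16544320) (l 16554904))))))))))), by decide +kernel⟩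

def k1_A00mm_202_s3 : ∃ t, chk3 f_A00mm_202_s3 t 4 5 1 = true :=
  ⟨(a (l 6) (a (l 6) (b (l 6) (b (l 6) (a (l 6) (b (l 6) (c (l 16525344) (l 16469384)))))))), by decide +kernel⟩

def k2_A00mm_202_s3 : ∃ t, chk3 f_A00mm_202_s3 t 5 10 1 = true :=
  ⟨(c (b (a (l 6) (a (b (c (l 16474160) (l 16575624)) (c (l 16564136) (l 16580656))) (b (c (l 16593328) (l 16607088)) (c (a (l 16591744) (l 16610184)) (l 16634688))))) (b (a (a (l 6) (l 16543088)) (a (a (l 533957647) (l 16587968)) (c (b (l 16691504) (l 16696208)) (l 16642568)))) (a (a (l 6) (a (l 16540952) (l 16559288))) (a (a (l 16493976) (l 533122831)) (a (a (l 16527000) (l 532979983)) (b (l 533013519) (l 532937231))))))) (a (b (l 6) (a (l 6) (c (b (l 16576832) (l 16582040)) (b (l 16519656) (l 16607480))))) (b (a (c (b (l 16595928) (l 16599880)) (b (a (l 6) (l 16548344)) (a (l 16600000) (l 16567464)))) (b (a (c (l 16616032) (a (l 16555984) (l 16561360))) (c (l 16628320) (b (l 16564952) (l 16574624)))) (a (c (l 16621176) (a (l 16616896) (l 16580224))) (c (l 16635808) (b (l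 16583984) (l 16593080)))))) (a (b (c (l 16605248) (a (l 16618328) (l 16627528))) (c (l 16611952) (a (l 16625304) (l 16638072)))) (b (a (b (l 533015311) (l 16606168)) (c (l 16643024) (a (l 16603528) (l 533146383)))) (a (c (l 16635464) (l 16609464)) (b (l 533113615) (l 533581327)))))))), by decide +kernel⟩

def k3_A00mm_202_s3 : ∃ t, chk3 f_A00mm_202_s3 t 5 11 1 = true :=
  ⟨(c (c (a (b (a (b (l 16511144) (l 16521160)) (b (l 16550480) (l 16561744))) (a (b (l 16532784) (l 16545824)) (b (l 16574520) (l 16588600)))) (b (a (b (l 16591088) (l 16603504)) (b (c (l 16629792) (l 16718024)) (l 532839951))) (a (b (l 16701224) (l 16716264)) (a (l 532395535) (l 532392463))))) (c (a (b (a (l 16531712) (l 16652096)) (a (l 16636408) (b (l 16585192) (l 16598168)))) (b (a (b (l 16600808) (l 16612200)) (b (l 16680888) (l 16693448))) (a (b (l 16624992) (l 16722896)) (a (l 532591631) (l 532580623))))) (a (b (a (l 16543400) (b (l 16572936) (l 16582320))) (a (l 16646400) (b (l 16593168) (l 16605344)))) (b (a (b (l 16608056) (l 16618720)) (b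 (l 532517903) (l 532651791))) (a (b (l 16630752) (l 16727920)) (a (l 532740367) (l 532723727))))))) (c (c (a (a (b (l 16556016) (l 16657232)) (b (b (l 16583280) (l 16591848)) (a (l 16514728) (l 16699968)))) (b (a (a (l 533207823) (l 533182223)) (b (l 533219599) (l 532547087))) (a (b (l 16720936) (l 16691480)) (a (l 532903695) (l 532881167))))) (b (a (a (l 16485680) (b (l 16594424) (l 16602128))) (a (b (l 16540536) (l 16591560)) (b (l 16656184) (l 16687552)))) (a (b (a (l 16580664) (l 16611216)) (a (l 16589816) (l 16621656))) (a (a (l 533144591) (l 533110543)) (a (l 533081615) (l 533053455)))))) (b (a (a (b (l 16589480) (l 16594312)) (b (l 16612640) (l 16618976))) (a (b (a (l 16631616) (l 16645144)) (a (l 16639040) (l 16653272))) (b (a (l 16659216) (l 533674767)) (a (l 16668040) (l 533538063))))) (a (a (b (l 16600528) (l 16524288)) (b (l 16626608) (l 16635600))) (a (a (l 533460495) (l 533415695)) (a (l 533376783) (l 533339407))))))), by decide +kernel⟩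

def k4_A00mm_202_s3 : ∃ t, chk3 f_A00mm_202_s3 t 12 8 2 = true :=
  ⟨(b (a (l 6) (a (l 6) (b (b (l 6) (c (l 16498696) (a (l 6) (l 16483376)))) (b (c (l 16514064) (l 16475144)) (c (l 16529088) (l 16491360)))))) (b (a (l 6) (c (a (b (l 16531312) (l 16545976)) (b (l 16543784) (l 16558152))) (a (c (l 16484688) (l 16497096)) (b (l 16486232) (l 16501688))))) (a (a (l 6) (b (l 16479104) (l 16514872))) (c (a (l 16525512) (a (l 16534080) (l 16540304))) (a (b (l 16545600) (l 16560608)) (b (l 16516768) (l 16573384))))))), by decide +kernel⟩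

def k5_A00mm_202_s3 : ∃ t, chk3 f_A00mm_202_s3 t 13 16 2 = true :=
  ⟨(a (b (c (a (b (a (l 16494160) (l 16502088)) (l 16492552)) (b (a (l 16510384) (l 16519048)) (a (l 16525592) (l 16534128)))) (a (b (a (l 16474720) (l 16483272)) (a (l 16491408) (l 16499800))) (b (a (l 16455480) (l 16470000)) (a (l 16508552) (l 16486216))))) (c (a (b (l 16486648) (l 16501376)) (b (a (l 16540432) (l 16548824)) (a (l 16554936) (l 16563176)))) (a (b (c (l 16516176) (l 16507448)) (a (l 16523720) (l 16531784))) (b (a (l 16524568) (l 16533528)) (a (l 16540216) (l 16549016)))))) (b (a (b (a (c (b (l 16524192) (l 16531776)) (b (l 16506992) (l 16515120))) (c (b (l 16533424) (l 16540952)) (b (l 16516984) (l 16525032)))) (a (c (l 16542952) (b (l 16523152) (l 16531088))) (c (l 16531080) (b (l 16532992) (l 16540864))))) (a (b (b (c (l 16542936) (l 16527328)) (c (l 16550408) (l 16535304))) (c (b (l 16557776) (l 16565048)) (b (l 16543192) (l 16550984)))) (b (b (c (l 16563232) (c (l 16541824) (l 16534184))) (c (l 16560168) (c (l 16549608) (l 16542224))))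 (c (b (l 16567488) (l 16574704)) (b (c (l 16557296) (l 16550168)) (l 16561488)))))) (c (a (b (a (l 16557528) (l 16545520)) (a (l 16571728) (l 16580568))) (a (b (b (l 16572208) (l 16579280)) (b (l 16586248) (l 16593128))) (b (b (l 16581824) (l 16588832)) (b (l 16595752) (l 16602568))))) (a (b (a (l 16521864) (b (l 16548632) (l 16556312))) (a (l 16537192) (l 16546688))) (a (b (b (l 16558688) (l 16566288)) (b (l 16573800) (l 16581208))) (b (b (l 16569112) (l 16576648)) (b (l 16584080) (l 16591416)))))))), by decide +kernel⟩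

def k6_A00mm_202_s3 : ∃ t, chk3 f_A00mm_202_s3 t 13 17 2 = true :=
  ⟨(a (c (a (b (b (l 16557712) (l 16571776)) (b (l 16585528) (l 16598976))) (b (b (a (l 16569096) (l 16577192)) (a (l 16582936) (l 16590880))) (b (a (l 16596464) (l 16604256)) (l 16582048)))) (b (a (b (l 16532784) (l 16547928)) (b (a (l 16555496) (l 16564128)) (a (l 16570392) (l 16578864)))) (b (a (l 16552200) (a (l 16584904) (l 16593216))) (a (l 16587536) (a (l 16599024) (l 16607176)))))) (a (b (c (a (b (l 16585600) (l 16599144)) (b (l 16594296) (l 16607696))) (a (b (l 16573120) (l 16587696)) (b (l 16561488) (l 16575896)))) (a (b (b (l 16561912) (l 16568672)) (c (l 16625272) (l 16615672))) (b (c (l 16620768) (l 16589920)) (c (l 16633528) (l 16603552))))) (a (a (b (b (c (l 16601008) (l 16589688)) (c (l 16614296) (l 16603976))) (b (l 531872271) (l 531980303))) (b (b (c (l 16605592) (l 16594632)) (c (l 16618816) (l 16608840))) (b (l 531557903) (l 531934223)))) (b (b (a (c (l 16610256) (l 16578696)) (c (l 16615024) (l 16589096))) (a (c (l 16623416) (l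 16592832)) (c (l 16628112) (l 16608392)))) (b (a (b (l 16607736) (l 16614280)) (b (l 16612560) (l 16619072))) (a (l 531886863) (l 531839247))))))), by decide +kernel⟩

def k7_A00mm_202_s3 : ∃ t, chk3 f_A00mm_202_s3 t 12 9 2 = true :=
  ⟨(b (a (b (a (c (l 16576064) (l 16477000)) (c (l 16584808) (l 16508088))) (c (l 16605992) (a (l 16588016) (l 16597880)))) (b (a (c (l 16594728) (a (l 16537296) (l 16543224))) (b (a (l 16548616) (l 16554912)) (c (l 16528544) (l 16601456)))) (c (a (l 16619960) (l 16630920)) (a (c (l 16611776) (l 16563904)) (b (l 16572704) (l 16585176)))))) (a (c (b (l 16615112) (l 16641672)) (b (a (l 16612048) (l 16621728)) (a (l 16624648) (l 16639952)))) (a (c (b (l 16639184) (l 16645784)) (b (c (l 16635120) (l 16629808)) (c (l 16652872) (l 16650504)))) (b (c (l 16653152) (b (l 16638848) (l 16649800))) (c (l 16683536) (c (l 16666776) (l 16662632))))))), by decide +kernel⟩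

def k8_A00mm_202_s3 : ∃ t, chk3 f_A00mm_202_s3 t 13 9 2 = true :=
  ⟨(a (b (c (a (b (c (l 16579040) (l 16574224)) (b (l 16637200) (l 16648920))) (b (b (l 16584400) (l 16596888)) (b (l 16608960) (l 16662456)))) (a (b (b (l 16570040) (l 16573104)) (b (l 16586088) (l 16598464))) (b (a (b (l 16612752) (l 16626056)) (b (l 16620736) (l 16633880))) (a (c (l 16605272) (l 16611464)) (c (l 16623272) (l 532167439)))))) (a (b (c (b (l 16659928) (l 16670224)) (b (l 16652024) (l 16662888))) (c (b (l 16677144) (l 16681752)) (b (l 16672944) (l 16682272)))) (b (a (c (l 16675032) (b (l 16620736) (l 16673472))) (c (l 16687288) (b (l 16628272) (l 16680952)))) (c (b (l 16692976) (l 16698688)) (a (b (l 16683464) (l 16692744)) (b (l 16690904) (l 16700144))))))) (b (a (b (a (c (c (l 16604088) (l 16610592)) (b (l 16629072) (l 16642056))) (b (c (l 16645984) (l 16637760)) (c (l 16658088) (l 16650576)))) (c (a (b (l 16662000) (l 16673376)) (b (l 16627840) (l 16639104))) (a (b (l 16654608) (l 16624688)) (b (l 16641976) (l 532656399))))) (b (a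 (b (a (l 532092943) (l 532046095)) (c (l 16645400) (l 532048143))) (b (a (l 531998223) (l 531950095)) (a (l 532381967) (l 532064783)))) (c (a (b (l 16656936) (l 16668064)) (b (l 532603151) (l 532453647))) (a (b (l 532169231) (l 532561679)) (a (l 531889423) (l 532107791)))))) (a (c (a (b (l 533167631) (l 533352719)) (b (l 532013071) (l 533277711))) (b (a (b (l 16657080) (l 16667768)) (c (l 532902927) (l 532233231))) (a (b (l 16698640) (l 16707856)) (b (l 16706688) (l 533071631))))) (a (b (c (b (l 16699656) (l 16709672)) (c (l 532277775) (l 532143631))) (b (c (l 16718944) (l 532907535)) (l 532044559))) (b (b (c (l 532844815) (l 532321039)) (c (l 532963599) (l 532443151))) (c (l 532841743) (a (l 532883727) (l 532837903)))))))), by decide +kernel⟩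

def k9_A00mm_202_s3 : ∃ t, chk3 f_A00mm_202_s3 t 12 8 3 = true :=
  ⟨(b (a (l 6) (a (l 6) (b (a (l 6) (b (l 6) (b (l 6) (c (l 16467384) (l 16445640))))) (a (b (l 6) (c (l 16489992) (c (l 16474952) (l 16464440)))) (b (c (l 16449216) (c (l 16465248) (l 16454472))) (c (l 16456104) (c (l 16483576) (l 16473456)))))))) (a (b (l 6) (a (l 6) (c (b (l 16515968) (l 16532232)) (c (b (l 16501440) (l 16518464)) (b (l 16470232) (l 16487776)))))) (b (c (a (b (c (l 16500704) (l 16491016)) (c (l 16517336) (l 16508240))) (b (c (l 16515480) (l 16506544)) (c (l 16531792) (l 16523440)))) (c (a (b (l 16480920) (l 16498744)) (b (a (l 16493016) (l 16501456)) (a (l 16510584) (l 16518856)))) (a (b (a (l 6) (l 16474560)) (a (l 16484760) (l 16492904))) (b (a (l 16483128) (l 16491976)) (a (l 16501304) (l 16509976)))))) (c (a (b (l 16518808) (l 16534800)) (b (c (l 16547656) (l 16539848)) (c (l 16563056) (l 16555744)))) (a (b (c (l 16516032) (a (l 16502688) (l 16510672))) (c (l 16532768) (a (l 16520008) (l 16527824)))) (b (c (l 16515960) (a (l 16518912)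 (l 16527416))) (c (l 16537592) (b (l 16514928) (l 16523224))))))))), by decide +kernel⟩

def k10_A00mm_202_s3 : ∃ t, chk3 f_A00mm_202_s3 t 26 16 3 = true :=
  ⟨(b (c (a (b (a (b (l 6) (l 16458208)) (b (l 16458432) (l 16467392))) (a (b (l 16467176) (l 16476064)) (b (l 16476280) (l 16485072)))) (b (a (b (l 16468056) (l 16476928)) (b (l 16478048) (l 16486832))) (a (b (l 16485728) (l 16494432)) (b (l 16495536) (l 16504152))))) (a (b (b (a (l 6) (l 16436248)) (a (l 16435912) (l 16445848))) (a (b (l 16445536) (l 16455072)) (b (l 16455376) (l 16464808)))) (b (b (a (l 16446608) (l 16457336)) (a (l 16456112) (l 16466728))) (a (b (l 16465536) (l 16474880)) (b (l 16476048) (l 16485296)))))) (c (a (b (a (l 16457760) (l 16466648)) (a (l 16474960) (l 16483672))) (b (a (b (l 16503048) (l 16511576)) (b (l 16512680) (l 16521120))) (a (l 16492728) (l 16512624)))) (a (b (a (b (l 16464512) (l 16473856)) (b (l 16474160) (l 16483408))) (a (b (l 16483088) (l 16492216)) (b (l 16492560) (l 16501592)))) (b (a (b (l 16484136) (l 16493288)) (b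 (l 16494456) (l 16503520))) (a (b (l 16502344) (l 16511288)) (b (l 16512480) (l 16521336))))))), by decide +kernel⟩

def k11_A00mm_202_s3 : ∃ t, chk3 f_A00mm_202_s3 t 26 17 3 = true :=
  ⟨(b (c (a (b (a (l 16502232) (l 16510776)) (c (l 16547528) (l 16518896))) (b (a (l 16519656) (l 16528896)) (a (l 16535664) (l 16544728)))) (b (a (c (a (l 16510208) (l 16519264)) (a (l 16501104) (l 16510536))) (a (c (l 16528648) (l 16520272)) (b (l 16530072) (l 16538696)))) (a (a (b (l 16518888) (l 16527520)) (a (l 16509008) (l 16513624))) (c (a (l 16545528) (l 16555080)) (b (l 16517408) (l 16525960)))))) (a (c (b (c (l 16563072) (l 16534976)) (c (l 16578144) (l 16550536))) (b (c (a (l 16544144) (l 16552856)) (b (l 16515520) (l 16523968))) (c (a (l 16560288) (l 16568832)) (b (l 16532256) (l 16540384))))) (c (a (b (l 16551216) (l 16566288)) (b (l 16560112) (l 16575008))) (a (b (c (l 16561888) (l 16554664)) (c (l 16577696) (l 16570976))) (b (c (l 16571264) (l 16564376)) (c (l 16586896) (l 16580520))))))), by decide +kernel⟩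

def k12_A00mm_202_s3 : ∃ t, chk3 f_A00mm_202_s3 t 27 16 3 = true :=
  ⟨(b (a (b (c (a (b (l 16488440) (l 16497136)) (b (l 16499264) (l 16507864))) (a (b (l 16468536) (l 16477816)) (b (l 16480264) (l 16489432)))) (c (a (b (l 16505744) (l 16514272)) (b (l 16516384) (l 16524816))) (a (b (l 16487032) (l 16496176)) (b (l 16498536) (l 16507568))))) (b (c (a (b (c (l 16514832) (l 16506128)) (l 16519024)) (b (c (l 16526272) (l 16518088)) (c (l 16534560) (l 16526632)))) (a (b (c (l 16497128) (l 16487824)) (c (l 16506040) (l 16497016))) (b (c (l 16509616) (l 16500872)) (c (l 16518424) (l 16509952))))) (c (a (b (l 16527456) (l 16535800)) (a (b (l 16536032) (l 16544304)) (b (l 16541912) (l 16550136)))) (b (a (c (l 16514888) (l 16506152)) (c (l 16527168) (l 16518960))) (a (c (l 16523656) (l 16515216)) (c (l 16535824) (l 16527904))))))) (a (b (c (a (b (l 16522712) (l 16531064)) (b (l 16533168) (l 16541424))) (a (c (l 16514144) (l 16505240)) (b (l 16516520) (l 16525384)))) (c (a (b (l 16539312) (l 16547464)) (b (l 16549592) (l 16557648)))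 (a (b (l 16523064) (l 16531824)) (b (l 16534152) (l 16542808))))) (c (a (b (b (l 16544056) (l 16552216)) (b (l 16560288) (l 16568264))) (b (a (b (l 16552488) (l 16560584)) (b (l 16558272) (l 16566320))) (b (l 16550456) (l 16558336)))) (c (a (b (b (l 16532352) (l 16540960)) (l 16532728)) (b (b (l 16544408) (l 16552904)) (b (l 16561304) (l 16569616)))) (a (b (b (l 16524208) (l 16533112)) (b (l 16541928) (l 16550632))) (b (b (l 16536768) (l 16545552)) (b (l 16554256) (l 16562856)))))))), by decide +kernel⟩

def k13_A00mm_202_s3 : ∃ t, chk3 f_A00mm_202_s3 t 27 17 3 = true :=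
  ⟨(a (c (b (a (b (b (l 16555512) (l 16563448)) (c (l 16578392) (l 16571864))) (b (c (l 16572880) (l 16566160)) (c (l 16588088) (l 16581920)))) (a (b (l 16579880) (l 16594608)) (b (c (l 16602864) (l 16597208)) (c (l 16617176) (l 16611992))))) (b (a (b (b (l 16540464) (l 16548992)) (c (l 16565056) (l 16557984))) (b (c (l 16559184) (l 16530960)) (c (l 16575504) (l 16547864)))) (a (b (c (l 16581056) (l 16574536)) (c (l 16596512) (l 16590488))) (b (c (l 16591320) (l 16569456)) (c (l 16606584) (l 16590464)))))) (b (c (a (b (c (l 16583160) (l 16576848)) (c (l 16598192) (l 16592424))) (b (c (l 16572888) (l 16572248)) (b (l 16581344) (l 16588792)))) (a (b (b (l 16541760) (l 16550088)) (b (l 16558288) (l 16566368))) (b (a (b (l 16571568) (l 16579824)) (b (l 16577640) (l 16585840))) (a (b (l 16587952) (l 16595952)) (b (l 16593912) (l 16601864)))))) (c (a (b (c (l 16612792) (l 16607520)) (c (l 16626928) (l 16622128))) (b (b (l 16596128) (l 16603344)) (b (l 16620920) (l 16627896)))) (a (b (b (l 16579552) (l 16587360)) (b (l 16600264)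 (l 16607776))) (b (a (b (l 16603816) (l 16611544)) (b (l 16609672) (l 16617352))) (a (c (l 16625296) (l 16620408)) (b (l 16624888) (l 16632272)))))))), by decide +kernel⟩

def k14_A00mm_202_s3 : ∃ t, chk3 f_A00mm_202_s3 t 12 18 3 = true :=
  ⟨(a (b (b (a (l 6) (c (l 16547888) (c (l 16534784) (l 16504536)))) (c (a (l 16551144) (l 16562800)) (a (c (l 16537272) (l 16527408)) (c (l 16550296) (l 16530936))))) (b (c (a (l 16565440) (l 16576968)) (a (c (l 16552104) (l 16542600)) (c (l 16565000) (l 16546008)))) (c (a (l 16578920) (l 16590336)) (a (c (l 16566080) (l 16556912)) (c (l 16578872) (l 16560216)))))) (b (c (a (b (l 16560680) (l 16575464)) (b (c (l 16577984) (l 16571112)) (c (l 16592352) (l 16585872)))) (c (a (b (l 16548840) (l 16564208)) (b (a (l 16559984) (l 16567792)) (a (l 16575224) (l 16582896)))) (a (b (a (l 16536600) (l 16544304)) (a (l 16552416) (l 16560040))) (b (b (l 16536592) (l 16544560)) (a (l 16567880) (l 16575952)))))) (a (c (b (c (l 16592872) (l 16586016)) (c (l 16605960) (l 16599448))) (b (c (l 16578792)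 (a (l 16567400) (l 16574960))) (c (l 16592560) (c (l 16587152) (l 16604408))))) (c (b (c (l 16606088) (l 16599968)) (c (l 16619056) (l 16613288))) (b (c (l 16593536) (a (l 16582752) (l 16580280))) (c (l 16609816) (a (l 16596784) (l 16594264)))))))), by decide +kernel⟩

def k15_A00mm_202_s3 : ∃ t, chk3 f_A00mm_202_s3 t 12 19 3 = true :=
  ⟨(c (b (a (a (b (l 16507672) (l 16603328)) (b (l 16560936) (l 16572632))) (b (c (a (l 16618256) (l 16631256)) (a (l 16612056) (l 16625800))) (a (a (l 16623616) (l 16588056)) (c (l 16642648) (l 16616512))))) (c (a (a (l 16622832) (l 16633584)) (a (l 16645352) (b (l 16611232) (l 16662944)))) (a (a (l 16615624) (l 16627248)) (a (b (l 16634680) (l 16602792)) (b (l 16627320) (a (l 16654776) (l 16661824))))))) (b (a (c (a (b (l 16579184) (l 16591376)) (b (l 16591880) (l 16604000))) (a (b (l 16570312) (l 16582784)) (b (l 16584016) (l 16599048)))) (c (a (b (l 16605488) (l 16617536)) (a (b (l 16616256) (l 16628256)) (b (l 16623776) (l 16635744)))) (a (a (b (l 16594792) (l 16607152)) (b (l 16602272)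 (l 16614600))) (a (b (l 16599480) (l 16622272)) (b (c (l 16619392) (l 16616376)) (l 16630168)))))) (c (b (a (a (l 16602616) (l 16615184)) (a (a (l 16625168) (l 16632144)) (a (l 16639352) (l 16646816)))) (a (a (l 16613000) (l 16625536)) (a (a (l 16635488) (l 16642448)) (b (l 16650864) (l 16634880))))) (b (a (a (l 16594280) (c (l 16609736) (l 16605976))) (a (a (l 16618568) (l 16625992)) (a (l 16633648) (c (l 16642872) (l 16640160))))) (a (a (l 16604904) (a (l 16614952) (l 16621936))) (a (a (l 16629136) (l 16636560)) (a (c (l 16645592) (l 16642792)) (c (l 16653352) (l 16650768))))))))), by decide +kernel⟩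

def k16_A00mm_202_s3 : ∃ t, chk3 f_A00mm_202_s3 t 26 18 3 = true :=
  ⟨(a (b (c (a (b (l 16585744) (l 16600136)) (b (l 16551672) (l 16607864))) (b (c (a (l 16575848) (l 16584232)) (b (l 16553592) (l 16561392))) (a (c (l 16590840) (l 16573792)) (c (l 16599072) (l 16582384))))) (c (a (b (l 16613928) (l 16626984)) (b (l 16621536) (l 16634544))) (a (b (c (l 16605200) (l 16588528)) (c (l 16618776) (l 16602464))) (b (c (l 16613312) (l 16597000)) (c (l 16626856) (l 16610904)))))) (a (b (b (c (l 16580856) (c (l 16592928) (l 16586656))) (c (l 16615896) (c (l 16607592) (l 16580760)))) (c (b (l 16629472) (l 16642400)) (b (c (l 16621728) (l 16605768)) (c (l 16635200) (l 16619600))))) (b (c (b (l 16599896) (l 16624288)) (b (c (l 16601952) (l 16596016)) (c (l 16616456) (l 16600440)))) (c (b (l 16640336) (c (l 16652696) (l 16648376))) (b (c (l 16630440) (l 16614816)) (b (l 16617168) (l 16623768))))))), by decide +kernel⟩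

def k17_A00mm_202_s3 : ∃ t, chk3 f_A00mm_202_s3 t 26 19 3 = true :=
  ⟨(a (b (a (c (b (l 16618296) (l 16629768)) (b (b (l 16604696) (l 16621440)) (c (l 16643480) (l 16638296)))) (c (b (l 16625808) (l 16637240)) (b (b (l 16612920) (l 16640136)) (c (l 16651472) (l 16646672))))) (b (c (c (l 16646176) (a (l 16659152) (l 16666760))) (a (c (l 16654528) (c (l 16650888) (l 16648376))) (c (l 16662496) (c (l 16659144) (l 16656832))))) (c (c (l 16655896) (c (l 16652976) (l 16650960))) (a (c (l 16664792) (c (l 16661352) (l 16658984))) (c (l 16672744) (c (l 16669600) (l 16667432))))))) (b (c (a (b (l 16633608) (c (l 16667928) (l 16663952))) (b (l 531865615) (l 532241935))) (a (b (c (l 16647872) (l 16643112)) (c (l 16659736) (l 16655296))) (a (b (l 532116495) (l 532223759)) (b (l 532071951) (l 532181007))))) (b (a (c (a (l 16653584) (l 16657520)) (c (l 16670736) (c (l 16667656) (l 16665528)))) (c (l 532335119) (a (l 532315151) (l 532273679)))) (a (c (a (l 16663400) (l 16667320)) (c (l 16660000) (b (l 16674544) (l 16679656)))) (c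 (l 532410895) (a (l 532387855) (l 532615695))))))), by decide +kernel⟩

def k18_A00mm_202_s3 : ∃ t, chk3 f_A00mm_202_s3 t 27 18 3 = true :=
  ⟨(a (b (b (b (a (c (l 16615808) (l 16604904)) (c (l 16625192) (l 16594056))) (a (c (l 16622792) (l 16612304)) (c (l 16632096) (l 16611848)))) (a (c (c (l 16635392) (l 16630672)) (b (l 16598592) (l 16605728))) (a (c (l 16618912) (l 531817231)) (c (l 16623600) (l 531768847))))) (a (c (b (c (l 16648480) (l 16644128)) (c (l 16661016) (l 16657016))) (b (b (l 16623216) (l 16630096)) (c (l 16652800) (l 16648376)))) (a (b (b (l 531809295) (l 531873551)) (b (l 531938063) (l 532003087))) (c (b (l 16657608) (l 532346383)) (b (l 531897615) (l 532028175)))))) (a (b (b (a (c (l 16625448) (l 531592975)) (c (l 531873807) (l 531544591))) (a (c (l 532044815) (l 531720207)) (c (l 531996431) (l 531671311)))) (c (b (c (l 16666520) (l 16662864)) (l 531467791)) (b (a (l 531848463) (l 531799055)) (a (l 531978511) (l 531928335))))) (b (b (a (c (l 531825167) (c (l 16639656) (l 16635192))) (c (l 531776783)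 (c (l 16645176) (l 16630448)))) (a (c (l 531947535) (l 531621903)) (c (l 531898383) (l 531841295)))) (b (a (c (l 532071695) (l 531748879)) (c (l 532021775) (l 531698959))) (a (a (l 531786255) (l 531760655)) (c (l 532147727) (l 531826959))))))), by decide +kernel⟩

def k19_A00mm_202_s3 : ∃ t, chk3 f_A00mm_202_s3 t 27 19 3 = true :=
  ⟨(a (b (a (a (c (l 531858703) (b (l 532026895) (l 532137743))) (c (l 531815951) (b (l 531981327) (l 532362511)))) (c (a (l 531772175) (l 531727631)) (a (b (l 532203535) (l 532318223)) (b (l 532156431) (l 532273167))))) (b (a (c (l 532255503) (a (l 532231951) (l 532189711))) (c (l 532173071) (a (l 532415503) (l 532372239)))) (a (c (l 532332815) (a (l 532306447) (l 532264975))) (c (l 532252431) (c (l 532284943) (l 532116495)))))) (b (a (c (b (l 531864847) (l 531984399)) (a (b (l 532108303) (l 532227343)) (b (l 532059151) (l 532180495)))) (b (a (c (l 532327695) (l 531740431)) (c (l 532276751) (l 531957519))) (c (l 531889167) (a (l 532132367) (l 532083471))))) (a (c (a (l 532150543) (l 532106767))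 (b (c (l 532119823) (l 531952143)) (c (l 532198927) (l 532029455)))) (c (b (l 531727375) (l 532078095)) (a (b (l 532237071) (l 532316175)) (b (l 532189967) (l 532269839))))))), by decide +kernel⟩

def k20_A00mm_202_s3 : ∃ t, chk3 f_A00mm_202_s3 t 56 16 2 = true :=
  ⟨(b (a (b (a (c (b (l 16560368) (l 16567752)) (b (l 16546368) (l 16554224))) (b (a (l 531313423) (l 531291919)) (c (l 16572976) (l 16559936)))) (a (c (b (l 16575032) (l 16582216)) (b (l 16561992) (l 16569664))) (c (b (l 16580232) (l 16587392)) (b (l 16567664) (l 16575296))))) (c (b (a (b (l 16570992) (l 16578328)) (b (l 16576488) (l 16583800))) (a (b (l 16585560) (l 16592688)) (b (l 16591008) (l 16598120)))) (b (a (b (l 16557992) (l 16565776)) (b (l 16564000) (l 16571752))) (a (b (l 16573464) (l 16581064)) (b (l 16579408) (l 16586976)))))) (c (a (b (b (l 16570896) (l 16598832)) (c (l 16611608) (l 16590800))) (b (a (b (l 16599720) (l 16606648)) (b (l 16605120) (l 16612024))) (a (b (l 16613472) (l 16620200)) (b (l 16618824) (l 16625528))))) (c (a (b (b (l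 16583080) (l 16590408)) (l 16585504)) (b (b (l 16594312) (l 16601576)) (b (l 16608744) (l 16615808)))) (a (b (b (l 16576920) (l 16584512)) (b (l 16592000) (l 16599384))) (b (b (l 16588632) (l 16596144)) (b (l 16603552) (l 16610856))))))), by decide +kernel⟩

def k21_A00mm_202_s3 : ∃ t, chk3 f_A00mm_202_s3 t 56 16 3 = true :=
  ⟨(b (a (b (a (c (b (l 16531328) (l 16539672)) (b (l 16515240) (l 16524096))) (b (a (l 530840847) (l 530820879)) (a (l 530624527) (l 530604303)))) (a (c (b (l 16547944) (l 16556120)) (b (l 16532880) (l 16541592))) (c (b (l 16554128) (l 16562256)) (b (l 16539624) (l 16548280))))) (b (a (b (a (l 530801167) (l 530781967)) (a (l 530584335) (l 530833423))) (b (c (l 16561096) (l 16557280)) (a (l 530814223) (l 530795279)))) (a (b (a (l 530637071) (l 530617359)) (a (l 530690831) (l 530670863))) (b (a (l 530597903) (l 530578959)) (a (l 530651407) (l 530632207)))))) (a (b (a (c (b (l 16564208) (l 16572216)) (b (l 16550224) (l 16558776))) (c (b (l 16570304) (l 16578256)) (b (l 16556848) (l 16565336)))) (a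 (c (b (l 16580120) (l 16587928)) (b (l 16567240) (l 16575608))) (c (b (l 16586112) (l 16593872)) (b (l 16573736) (l 16582048))))) (b (a (c (b (l 16576536) (l 16584440)) (b (l 16563632) (l 16572056))) (c (b (l 16582920) (l 16590776)) (b (l 16570576) (l 16578936)))) (a (c (b (l 16592248) (l 16599960)) (b (l 16580400) (l 16588648))) (c (b (l 16598536) (l 16606200)) (b (l 16587216) (l 16595400))))))), by decide +kernel⟩

def k22_A00mm_202_s3 : ∃ t, chk3 f_A00mm_202_s3 t 57 32 1 = true :=
  ⟨(a (c (a (b (b (a (a (l 531191055) (l 531180815)) (a (l 531170319) (l 531160079))) (a (l 531232783) (a (l 531217167) (l 531206671)))) (b (a (l 531279631) (l 531258895)) (c (l 16603672) (l 16593016)))) (b (b (a (a (l 531149583) (l 531139343)) (b (l 14) (l 531135759))) (a (a (l 531196431) (l 531186191)) (a (l 531175951) (l 531165711)))) (b (a (l 531238159) (l 531217679)) (a (l 531285263) (l 531264783))))) (b (c (b (c (a (l 16560616) (l 16567320)) (l 16567976)) (c (l 16582480) (l 16576224))) (b (c (l 16561288) (l 16554392)) (c (l 16559280)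 (l 16552616)))) (a (b (a (l 530828815) (l 530810639)) (a (l 530613263) (l 530594831))) (b (a (l 530792719) (l 530775311)) (a (l 530576911) (l 530827791)))))) (b (b (b (l 14) (a (a (c (l 531115279) (l 530400783)) (l 14)) (l 14))) (a (c (a (b (l 531138831) (l 531162127)) (b (l 531118607) (l 531141903))) (a (b (l 530425871) (l 530451215)) (b (l 530409487) (l 530434831)))) (c (a (b (l 531098639) (l 531121935)) (b (l 14) (l 531102223))) (a (b (l 530393359) (l 530418703)) (b (l 14) (l 530403087)))))) (a (c (b (a (a (l 531202575) (l 531192335)) (b (l 531165455) (l 531189007))) (a (l 531244559) (l 531224335))) (b (a (l 530758159) (b (l 530460431) (l 530486031))) (a (l 530810383) (l 530793743)))) (c (b (a (b (l 531145487) (l 531169039)) (b (l 531125775) (l 531149327))) (a (l 531204367) (l 531184655))) (b (a (b (l 530444047) (l 530469903)) (b (l 530428431) (l 530454031))) (a (l 530777359) (l 530761487))))))), by decide +kernel⟩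

def k23_A00mm_202_s3 : ∃ t, chk3 f_A00mm_202_s3 t 57 33 1 = true :=
  ⟨(a (c (b (c (a (b (l 16610648) (l 16617528)) (b (l 16616304) (l 16623160))) (a (b (l 16600440) (l 16607776)) (b (l 16611824) (l 16613872)))) (a (c (b (l 16624304) (l 16630976)) (b (l 16615008) (l 16622136))) (c (b (l 16629912) (l 16636560)) (b (l 16621072) (l 16628160))))) (b (a (c (b (l 16589448) (l 16597256)) (b (l 16577672) (l 16585968))) (b (a (l 530630415) (l 530612751)) (a (l 530685199) (l 530667023)))) (a (c (b (l 16604960) (l 16612576)) (b (l 16594184) (l 16607544))) (c (b (l 530912271) (l 530966799)) (a (l 530582543) (l 530564879)))))) (b (a (a (c (b (l 531291919) (l 531339279)) (b (l 530595343) (l 530649615))) (c (b (l 531271695) (l 531319311)) (b (l 530578447) (l 530632463)))) (c (b (a (l 531251983) (l 531232271)) (a (l 531299343) (l 531279887))) (b (a (l 530830351) (l 530814223)) (a (l 530615823) (l 530599695))))) (b (a (c (c (l 16635640) (l 531215887)) (a (l 530704911) (l 530687759))) (c (a (l 531347215) (l 531327503)) (a (l 530670863)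 (l 530654479)))) (a (c (c (l 16642264) (l 531265807)) (a (l 530761231) (l 530743823))) (c (a (l 531395087) (l 531375375)) (a (l 530726927) (l 530710287))))))), by decide +kernel⟩

def k24_A00mm_202_s3 : ∃ t, chk3 f_A00mm_202_s3 t 116 16 1 = true :=
  ⟨(b (b (b (l 14) (b (l 14) (a (a (c (l 531082511) (l 530387727)) (l 14)) (l 14)))) (a (c (b (a (b (l 531106063) (l 531129615)) (b (l 531086607) (l 531110415))) (a (b (l 531153423) (l 531176975)) (b (l 531133967) (l 531157775)))) (b (a (b (l 530413071) (l 530438671)) (b (l 530398223) (l 530423823))) (a (l 530813199) (b (l 530449679) (l 530475535))))) (c (b (a (b (l 531067407) (l 531090959)) (b (l 14) (l 531071503))) (a (b (l 531114767) (l 531138575)) (b (l 531095311) (l 531119119)))) (b (a (b (l 530383631) (l 530409231)) (b (l 14) (l 530394383))) (a (b (l 530435087) (l 530460943)) (b (l 530420239) (l 530446095))))))) (b (a (c (b (a (l 531212815) (l 531193615)) (a (l 531260431) (l 531241231))) (b (a (l 530798863) (l 530783759)) (a (l 530584079) (l 530568975)))) (c (b (a (l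 531174415) (b (l 531142927) (l 531166991))) (a (l 531222287) (l 531202831))) (b (a (l 530768911) (b (l 530472463) (l 530498831))) (a (l 530554127) (l 530807567))))) (c (a (b (a (l 531308303) (l 531289103)) (a (l 531356175) (l 531337231))) (b (a (l 531270415) (l 531250959)) (a (l 531318543) (l 531299343)))) (a (b (a (l 530638863) (l 530623503)) (a (l 530694415) (l 530679055))) (b (a (l 530608655) (l 530593807)) (a (l 530664207) (l 530649103))))))), by decide +kernel⟩

def k25_A00mm_202_s3 : ∃ t, chk3 f_A00mm_202_s3 t 117 16 1 = true :=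
  ⟨(b (b (l 14) (b (b (l 14) (a (a (c (l 531051279) (l 530379535)) (l 14)) (l 14))) (b (a (c (c (l 16637768) (l 16630072)) (c (l 16621840) (l 16613072))) (a (c (l 531033871) (l 530374415)) (l 14))) (a (c (c (l 16641216) (l 16633712)) (c (l 16625672) (l 16617096))) (c (c (l 16647496) (l 16640496)) (c (l 16633016) (l 16625040))))))) (b (c (a (b (a (b (l 531122959) (l 531147023)) (c (l 531265807) (l 530958095))) (a (l 531183119) (l 531162895))) (b (a (c (l 531244047) (l 530938639)) (c (l 531221519) (l 530918415))) (a (l 531142159) (l 531121167)))) (a (a (b (c (l 530645007) (l 530290447)) (l 530792463)) (b (c (l 530628367) (l 530276623)) (c (l 530680591) (l 530331151)))) (a (b (c (l 530611471) (l 530262543)) (l 530694415)) (b (c (l 530594063) (l 530248207)) (c (l 530646287) (l 530302479)))))) (c (a (b (a (l 531231503) (l 531211279)) (a (l 531279887) (l 531259919))) (b (a (l 531190799) (l 531169807)) (a (l 531239439) (l 531218447)))) (a (b (a (l 530578447) (l 530831375)) (a (l 530633743) (l 530618383))) (a (b (l 530681359)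 (l 530602511)) (b (c (l 530699023) (l 530358031)) (l 530653711))))))), by decide +kernel⟩

def k26_A00mm_202_s3 : ∃ t, chk3 f_A00mm_202_s3 t 118 16 1 = true :=
  ⟨(b (a (a (a (b (l 14) (b (l 14) (c (l 531008271) (l 530359823)))) (l 14)) (l 14)) (l 14)) (a (c (b (a (b (c (l 531198735) (l 530898191)) (l 531166735)) (b (c (l 531175439) (l 530877199)) (c (l 531222799) (l 530927119)))) (a (b (l 531148303) (l 531197199)) (b (l 531126543) (l 531175439)))) (b (a (b (c (l 530576399) (l 530233871)) (c (l 530628623) (l 530288143))) (b (c (l 530558479) (l 530219279)) (c (l 530610703) (l 530273295)))) (a (b (c (l 530681359) (l 530343439)) (c (l 530735119) (l 530400015))) (b (c (l 530663439) (l 530328591)) (c (l 530717199) (l 530385167)))))) (c (b (a (b (c (l 531151631) (l 530856207)) (c (l 531199247) (l 530906127))) (b (c (l 531127055) (l 530834447)) (c (l 531174927) (l 530884367)))) (a (b (l 531104271) (l 531153423)) (b (c (l 531222799) (l 530934799)) (l 531130639)))) (b (a (b (c (l 530540303) (l 530204431)) (c (l 530592527) (l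 530258447))) (b (a (l 530362383) (l 530353935)) (a (l 530415375) (l 530406927)))) (a (b (c (l 530645263) (l 530313487)) (c (l 530699023) (l 530370063))) (b (c (l 530626831) (l 530298383)) (c (l 530680335) (l 530354703)))))))), by decide +kernel⟩

def k27_A00mm_202_s3 : ∃ t, chk3 f_A00mm_202_s3 t 119 16 1 = true :=
  ⟨(b (l 14) (a (b (b (l 14) (c (a (c (l 531150095) (l 530862607)) (c (l 531124751) (l 530840079))) (a (a (l 530398479) (l 530389775)) (a (l 530381327) (l 530372623))))) (c (a (b (c (l 531198223) (l 530913039)) (l 531107599)) (b (c (l 531173135) (l 530890767)) (c (l 531221263) (l 530941711)))) (a (b (a (l 530452495) (l 530443791)) (c (l 530661647) (l 530339343))) (b (a (l 530435087) (l 530426383)) (a (l 530490127) (l 530481167)))))) (b (b (l 14) (b (l 14) (a (c (l 530972687) (l 530372623)) (c (l 530947855) (l 530354703))))) (c (a (b (c (l 531147279) (l 530867983)) (c (l 531195919) (l 530919183))) (b (c (l 531121167) (l 530844687)) (c (l 531169807) (l 530895887)))) (a (b (a (l 530417679) (l 530408719)) (a (l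 530472463) (l 530463503))) (b (a (l 530399759) (l 530390799)) (a (l 530454543) (l 530445583)))))))), by decide +kernel⟩

def k28_A00mm_202_s3 : ∃ t, chk3 f_A00mm_202_s3 t 15 16 1 = true :=
  ⟨(b (l 14) (a (a (a (b (l 14) (a (c (a (b (a (l 530966543) (l 530953743)) (a (l 531016719) (l 531003919))) (b (a (l 530940943) (l 530927887)) (a (l 530991119) (l 530978063)))) (a (b (a (l 530381839) (l 530372879)) (a (l 530436623) (l 530427407))) (b (a (l 530363663) (l 530354447)) (a (l 530418447) (l 530409231))))) (a (c (b (a (l 530914575) (l 530901263)) (a (l 530965007) (l 530951695))) (b (a (l 530345231) (l 530336015)) (a (l 530400015) (l 530390543)))) (b (l 14) (a (c (l 530938383) (l 530381327)) (c (l 530924815) (l 530371855))))))) (b (l 14) (b (l 14) (a (a (c (a (l 530911247) (l 530897423)) (a (l 530362383) (l 530352911))) (c (a (l 530883599) (l 530869263)) (a (l 530343439) (l 530333967)))) (a (a (c (l 530855183) (l 530324495)) (l 14)) (l 14)))))) (l 14)) (l 14))), by decide +kernel⟩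

def k29_A00mm_202_s3 : ∃ t, chk3 f_A00mm_202_s3 t 56 17 1 = true :=
  ⟨(b (a (c (c (b (b (l 16619120) (l 16625704)) (c (l 16637472) (l 16633328))) (b (b (l 16593544) (l 16595368)) (b (l 16602328) (l 16619688)))) (b (a (c (b (l 16595640) (l 16603240)) (b (l 16583872) (l 16592016))) (c (b (l 16601536) (l 16609088)) (b (l 16590256) (l 16598344)))) (a (c (b (l 16610728) (l 16618104)) (b (l 16600032) (l 16607928))) (c (b (l 16616528) (l 16623864)) (b (l 16606312) (l 16614152)))))) (c (b (a (c (l 531815439) (b (l 16617584) (l 16624592))) (c (b (l 16632120) (l 16638616)) (b (l 16623304) (l 16630272)))) (a (c (l 531908367) (l 531878415)) (c (l 531864335) (b (l 16637136) (l 16643904))))) (a (b (c (b (l 16607576) (l 16615080)) (b (l 16596792) (l 16604824))) (c (b (l 16622472) (l 16629760)) (b (l 16612736) (l 16620520)))) (b (c (b (l 16613760) (l 16621216)) (b (l 16603480) (l 16611464))) (c (b (l 16628560) (l 16635800)) (b (l 16619312) (l 16637528))))))) (c (c (a (b (c (l 16649912) (l 16646200)) (b (l 16657344) (l 16663432)))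 (a (b (l 532004111) (l 532103951)) (b (l 531959311) (l 532058127)))) (a (b (b (l 16626456) (l 16633128)) (b (l 16639696) (l 16646168))) (b (a (l 531715855) (l 531671823)) (a (l 531824655) (l 531779855))))) (a (b (a (c (l 531491087) (b (l 16615688) (l 16623312))) (c (b (l 16631072) (l 16638176)) (c (l 16627976) (l 16612832)))) (a (c (l 531609615) (c (l 16636688) (l 16621768))) (c (l 531563791) (c (l 16632120) (l 16627920))))) (b (a (c (b (l 16636928) (l 16643976)) (c (l 16623664) (l 16619240))) (c (c (l 16648352) (l 16634000)) (b (l 16639880) (l 16631616)))) (a (c (c (l 16656136) (l 16641992)) (b (l 16632576) (l 16639808))) (c (b (l 16656792) (l 16663552)) (b (l 16638936) (l 16646104)))))))), by decide +kernel⟩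

def k30_A00mm_202_s3 : ∃ t, chk3 f_A00mm_202_s3 t 57 34 1 = true :=
  ⟨(a (c (b (a (c (b (l 16637544) (l 16644016)) (b (l 16629160) (l 16636088))) (c (b (l 16643104) (l 16649544)) (b (l 16635152) (l 16642040)))) (a (c (l 532089103) (c (l 16648168) (l 16633896))) (c (b (l 16655888) (l 16662144)) (b (l 16648816) (l 16655504))))) (a (b (c (b (l 16620088) (l 16627496)) (b (l 530699791) (l 530761231))) (c (c (l 16629952) (l 16625848)) (b (l 530823439) (l 530885903)))) (b (c (b (l 531021839) (l 531077647)) (b (l 530662927) (l 530724111))) (c (a (l 531172367) (l 531153167)) (a (l 530826511) (l 530808335)))))) (c (a (b (c (b (l 16648776) (l 16655192)) (b (l 16646512) (l 531366415))) (c (b (l 16661512) (l 16667728)) (b (l 16660104) (l 16651016)))) (b (c (b (l 16665072) (l 16650488)) (a (l 531312655) (l 531293711))) (c (b (l 16656776) (l 16662960)) (a (l 531414031) (l 531395087))))) (a (b (c (a (l 531021583) (l 531003151)) (a (l 530667023) (l 530650127))) (c (a (l 531134223) (l 531115791)) (a (l 530790671) (l 530773519)))) (b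 (c (a (l 530985487) (l 530968079)) (a (l 530633743) (l 530618127))) (c (a (l 531097615) (l 531079951)) (a (l 530756879) (l 530741007))))))), by decide +kernel⟩

def k31_A00mm_202_s3 : ∃ t, chk3 f_A00mm_202_s3 t 57 35 1 = true :=
  ⟨(a (c (c (a (b (l 531915023) (l 532013327)) (b (l 532140047) (l 531969039))) (a (b (c (l 16661200) (l 16647360)) (l 531736079)) (b (b (l 16662088) (l 16668568)) (b (l 16674944) (l 16670736))))) (a (b (c (b (l 16649048) (l 16656000)) (b (l 16630768) (l 16638168))) (c (b (l 16652344) (l 16659048)) (a (l 531115023) (l 531095311)))) (b (c (b (l 16644824) (l 16651728)) (a (l 530951695) (l 530933519))) (c (a (l 531403023) (l 531383055)) (a (l 531076367) (l 531057935)))))) (c (a (b (c (b (l 16673864) (l 16679920)) (b (l 16657560) (l 16663992))) (c (l 531926031) (b (l 531625743) (l 16681808)))) (b (c (b (l 531764751) (l 16680320)) (a (l 531517199) (l 531498255))) (c (l 532152847) (a (l 531622927) (l 531603727))))) (a (b (c (a (l 531248399) (l 531229711)) (a (l 530915599) (l 530898447))) (c (a (l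 531363855) (l 531344911)) (a (l 531040015) (l 531022607)))) (b (c (a (l 531211791) (l 531194127)) (a (l 530881807) (l 530865935))) (c (a (l 531326735) (l 531308815)) (a (l 531005967) (l 530990095))))))), by decide +kernel⟩

def k32_A00mm_202_s3 : ∃ t, chk3 f_A00mm_202_s3 t 116 17 1 = true :=
  ⟨(b (b (c (a (c (a (l 531575567) (l 531555855)) (a (l 531275279) (l 531257103))) (c (a (l 531536655) (l 531516943)) (a (l 531239439) (l 531221263)))) (a (b (a (l 530751247) (l 530735631)) (a (l 530808847) (l 530793231))) (b (a (l 530720783) (l 530705679)) (a (l 530778127) (l 530763023))))) (c (a (c (a (l 531666447) (l 531647247)) (a (l 531376655) (l 531358735))) (c (a (l 531628047) (l 531608847)) (a (l 531341071) (l 531323151)))) (a (c (a (l 531063055) (l 531046415)) (a (l 530725391) (l 530710799))) (b (a (l 530836751) (l 530821391)) (a (l 530896143) (l 530880783)))))) (c (a (b (c (a (l 531758607) (l 531739151)) (a (l 531479567) (l 531461647))) (c (a (l 531854351) (l 531834895)) (a (l 531585039) (l 531566863)))) (b (c (a (l 531720207)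 (l 531700751)) (a (l 531443983) (l 531426063))) (c (a (l 531815695) (l 531795983)) (a (l 531549199) (l 531531535))))) (a (b (c (a (l 531176975) (l 531160591)) (a (l 530850575) (l 530835983))) (c (a (l 531291919) (l 531275535)) (a (l 530974991) (l 530960399)))) (b (c (a (l 531144719) (l 531128591)) (a (l 530821903) (l 530807823))) (c (a (l 531259663) (l 531243791)) (a (l 530946831) (l 530933007))))))), by decide +kernel⟩

def k33_A00mm_202_s3 : ∃ t, chk3 f_A00mm_202_s3 t 117 17 1 = true :=
  ⟨(b (b (c (a (b (a (l 531328271) (l 531308303)) (a (l 531376911) (l 531357199))) (b (a (l 531288079) (l 531267343)) (a (l 531336975) (l 531316495)))) (a (a (b (l 530690319) (l 530747663)) (b (l 530674703) (l 530731791))) (a (b (l 530658831) (l 530715919)) (b (l 530642703) (l 530699791))))) (c (a (c (a (l 531589135) (l 531568911)) (a (l 531304719) (l 531286031))) (c (a (l 531548175) (l 531526927)) (a (l 531267087) (l 531247631)))) (a (b (a (l 530806031) (l 530790159)) (a (l 530865167) (l 530849295))) (a (b (l 530774287) (l 530833423))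 (b (l 530757903) (l 530817039)))))) (b (c (a (c (a (l 531681039) (l 531660815)) (a (l 531407887) (l 531389455))) (c (a (l 531640335) (l 531619599)) (a (l 531370511) (l 531351311)))) (a (a (b (l 530925327) (l 530985743)) (b (l 530909711) (l 530970127))) (a (b (l 530893583) (l 530954255)) (b (l 530877199) (l 530937871))))) (a (c (c (a (l 531776271) (l 531756047)) (a (l 531513359) (l 531494671))) (c (a (l 531227407) (l 531211023)) (a (l 530918927) (l 530904847)))) (c (c (a (l 531735311) (l 531714319)) (a (l 531475727) (l 531456527))) (a (b (l 531014671) (l 531074831)) (b (l 530998799) (l 531058959))))))), by decide +kernel⟩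

def k34_A00mm_202_s3 : ∃ t, chk3 f_A00mm_202_s3 t 118 17 1 = true :=
  ⟨(b (a (c (b (b (a (l 531246351) (l 531224847)) (a (l 531295503) (l 531273999))) (c (a (l 531505423) (l 531483151)) (a (l 531227919) (l 531207695)))) (b (a (b (c (l 530789391) (l 530457871)) (l 530683407)) (b (c (l 530771471) (l 530442767)) (l 530666767))) (a (b (l 530741519) (l 530800399)) (b (l 530724879) (l 530783759))))) (c (b (a (b (l 531202575) (l 531252239)) (b (l 531180303) (l 531229711))) (a (b (l 531301647) (l 531351311)) (b (l 531279631) (l 531329295)))) (b (a (b (c (l 530753295) (l 530427663)) (c (l 530808335) (l 530486287))) (b (c (l 530734863) (l 530412047)) (c (l 530789903) (l 530470671)))) (a (b (l 530707983) (l 530766863)) (b (c (l 530845711) (l 530530575)) (l 530749455)))))) (a (c (b (c (a (l 531598095) (l 531576591)) (a (l 531331599) (l 531311631))) (c (a (l 531692815) (l 531671055)) (a (l 531437071) (l 531417103)))) (b (a (b (l 530860559) (l 530921487)) (b (l 530843663) (l 530904591))) (a (b (l 530982415) (l 531042831)) (b (l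 530965775) (l 531026447))))) (c (b (a (b (l 531400719) (l 531450127)) (b (l 531378959) (l 531428623))) (a (b (l 531500047) (l 531550991)) (b (l 531478287) (l 531529231)))) (b (a (b (l 530826767) (l 530887695)) (b (l 530809359) (l 530870287))) (a (b (l 530948879) (l 531009807)) (b (l 530931727) (l 530992911))))))), by decide +kernel⟩

def k35_A00mm_202_s3 : ∃ t, chk3 f_A00mm_202_s3 t 119 17 1 = true :=
  ⟨(b (a (c (b (a (b (l 531157263) (l 531206927)) (b (l 531133711) (l 531183631))) (a (b (l 531256847) (l 531306767)) (b (l 531233807) (l 531283983)))) (b (a (b (c (l 530715919) (l 530396431)) (c (l 530770959) (l 530455055))) (b (c (l 530696975) (l 530380815)) (c (l 530752015) (l 530439183)))) (a (b (c (l 530826767) (l 530514703)) (c (l 530883343) (l 530575631))) (b (c (l 530807823) (l 530498831)) (c (l 530864399) (l 530559503)))))) (b (a (c (b (c (l 531244303) (l 530970639)) (l 531160079)) (b (c (l 530677519) (l 530364943)) (c (l 530732559) (l 530423311)))) (c (b (c (l 531218447) (l 530947599)) (l 531404047)) (b (c (l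 530657807) (l 530348815)) (c (l 530712847) (l 530407183))))) (b (a (c (l 531210255) (c (l 530788367) (l 530482703))) (c (l 531186191) (c (l 530768655) (l 530466319)))) (a (c (l 531260431) (c (l 530844943) (l 530543119))) (c (l 531236623) (c (l 530825231) (l 530526735))))))) (a (c (b (a (b (l 531356687) (l 531406607)) (b (l 531334159) (l 531384079))) (a (b (l 531456271) (l 531507215)) (b (l 531433999) (l 531484687)))) (b (a (b (l 530791695) (l 530852623)) (b (c (l 530921487) (l 530621455)) (l 530968847))) (a (b (l 530914319) (l 530975503)) (b (l 530896399) (l 530958095))))) (c (b (a (b (l 531310863) (l 531361295)) (b (l 531287311) (l 531337743))) (a (b (l 531411215) (l 531461903)) (b (l 531388175) (l 531438607)))) (b (a (b (c (l 530902031) (l 530605071)) (c (l 530960143) (l 530668047))) (b (c (l 530882319) (l 530588431)) (c (l 530940431) (l 530651407)))) (a (b (c (l 531018767) (l 530732815)) (l 530940175)) (b (c (l 530999055) (l 530715663)) (l 530921999))))))), by decide +kernel⟩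

def k36_A00mm_202_s3 : ∃ t, chk3 f_A00mm_202_s3 t 120 34 1 = true :=
  ⟨(a (c (b (a (b (c (l 531192079) (l 530924047)) (c (l 531240975) (l 530976271))) (b (a (l 531041551) (l 531028751)) (c (l 531214095) (l 530952463)))) (a (b (c (l 531289871) (l 531028495)) (l 531212303)) (b (c (l 531263247) (l 531004943)) (c (l 531312399) (l 531057935))))) (b (a (b (a (l 530492175) (l 530483215)) (a (l 530548751) (l 530539791))) (b (a (l 530473999) (l 530464783)) (a (l 530530575) (l 530521359)))) (a (b (c (l 530748687) (l 530449935)) (c (l 530805263) (l 530510095))) (b (a (l 530587919) (l 530578703)) (a (l 530646287) (l 530637071)))))) (c (b (c (a (b (l 531137295) (l 531186703)) (b (l 531109135) (l 531158799))) (a (b (l 530875919) (l 530928143)) (b (l 530851087) (l 530903567)))) (c (a (b (l 531236111) (l 531285519)) (b (l 531208207) (l 531257871))) (a (b (l 530980879) (l 531033871)) (b (l 530956303) (l 531009551))))) (b (a (b (a (l 530455567) (l 530446351)) (a (l 530512143) (l 530502671))) (b (a (l 530436879) (l 530427407)) (a (l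 530493455) (l 530483983)))) (c (a (b (l 530707727) (l 530764303)) (b (l 530686991) (l 530743567))) (a (b (l 530416911) (l 530476815)) (b (l 530400271) (l 530460175))))))), by decide +kernel⟩

def k37_A00mm_202_s3 : ∃ t, chk3 f_A00mm_202_s3 t 121 34 1 = true :=
  ⟨(a (c (b (c (a (b (l 531080207) (l 531129871)) (b (l 531050511) (l 531100431))) (a (b (l 530825743) (l 530878223)) (a (l 530833167) (l 530820111)))) (a (b (a (l 531064591) (l 531051023)) (a (l 531116047) (l 531102735))) (b (a (l 531037199) (l 531023375)) (a (l 531088911) (l 531075087))))) (a (b (b (a (l 530418191) (l 530408719)) (a (l 530474511) (l 530465039))) (b (a (l 530531855) (l 530522383)) (a (l 530589967) (l 530580495)))) (b (b (a (l 530399247) (l 530389519)) (a (l 530455567) (l 530446095))) (b (a (l 530512911) (l 530503439)) (a (l 530571023) (l 530561551)))))) (c (a (b (b (a (l 530906127) (l 530891791)) (a (l 530957583) (l 530943247))) (b (a (l 531009295) (l 530994959)) (a (l 531061007) (l 531046927)))) (b (b (a (l 530877455) (l 530862863)) (a (l 530928911)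 (l 530914319))) (b (a (l 530980623) (l 530966031)) (a (l 531032591) (l 531017999))))) (b (a (b (a (l 530380047) (l 530370575)) (a (l 530436623) (l 530427151))) (b (a (l 530360847) (l 530350863)) (a (l 530417423) (l 530407695)))) (a (b (a (l 530493967) (l 530484495)) (a (l 530552335) (l 530542863))) (b (a (l 530475023) (l 530465295)) (a (l 530533135) (l 530523407))))))), by decide +kernel⟩

def k38_A00mm_202_s3 : ∃ t, chk3 f_A00mm_202_s3 t 122 34 1 = true :=
  ⟨(a (b (a (c (b (a (l 530848271) (l 530833423)) (a (l 530899727) (l 530885135))) (a (b (l 530340879) (l 530397711)) (b (l 530330895) (l 530387727)))) (c (a (b (l 530818575) (l 530870287)) (b (l 530803727) (l 530855439))) (a (b (l 530320655) (l 530377487)) (b (l 530310415) (l 530367247))))) (a (c (b (a (l 530951439) (l 530936847)) (a (l 531003663) (l 530989071))) (a (b (l 530455311) (l 530513679)) (b (l 530445327) (l 530503695)))) (c (a (b (l 530922255) (l 530974479)) (b (l 530907407) (l 530959631))) (a (b (l 530435343) (l 530493711)) (b (l 530425103) (l 530483471))))))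 (a (b (b (l 14) (c (a (l 530840591) (l 530825743)) (a (l 530356751) (l 530346255)))) (c (a (b (l 530892559) (l 530944783)) (b (l 530877711) (l 530929935))) (a (b (l 530414607) (l 530473231)) (b (l 530404111) (l 530462735))))) (b (b (l 14) (c (a (l 530810639) (l 530795279)) (a (l 530335759) (l 530325007)))) (c (a (b (l 530862607) (l 530915087)) (b (l 530847503) (l 530899983))) (a (b (l 530393615) (l 530452239)) (b (l 530382863) (l 530441487))))))), by decide +kernel⟩

def k39_A00mm_202_s3 : ∃ t, chk3 f_A00mm_202_s3 t 123 34 1 = true :=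
  ⟨(a (a (b (b (l 14) (a (c (l 530780175) (l 530313999)) (c (l 530764815) (l 530437135)))) (c (a (b (l 530832399) (l 530884879)) (b (l 530817039) (l 530869519))) (a (b (l 530371855) (l 530430735)) (b (l 530361103) (l 530419983))))) (a (b (a (b (l 14) (b (l 14) (l 530543631))) (l 14)) (c (b (l 530801679) (l 530854415)) (b (a (l 530352655) (l 530347279)) (a (l 530411791) (l 530406159))))) (b (l 14) (c (b (l 530786319) (l 530839055)) (b (a (l 530341647) (l 530336015)) (a (l 530400527) (l 530394895))))))) (b (l 14) (b (a (a (c (l 530770703) (a (l 530330127) (l 530324495))) (c (l 530755087) (a (l 530318863) (l 530312975)))) (b (l 14) (a (c (l 530752527) (l 530318607)) (c (l 530736911) (l 530307087))))) (a (a (c (l 530823439) (a (l 530389263) (l 530383631))) (c (l 530807823) (a (l 530377999) (l 530372111)))) (a (c (l 530792207) (a (l 530366223) (l 530360591))) (l 4)))))), by decide +kernel⟩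

def k40_A00mm_202_s3 : ∃ t, chk3 f_A00mm_202_s3 t 31 34 1 = true :=
  ⟨(b (l 14) (b (b (l 14) (b (l 14) (l 4))) (l 4))), by decide +kernel⟩

def k41_A00mm_202_s3 : ∃ t, chk3 f_A00mm_202_s3 t 120 35 1 = true :=
  ⟨(b (b (a (a (c (l 531263247) (c (l 530862351) (l 530571791))) (c (l 531238415) (c (l 530842127) (l 530554895)))) (a (c (c (l 531334671) (l 531087119)) (a (l 530686991) (l 530677519))) (c (c (l 531307535) (l 531063055)) (a (l 530668047) (l 530658575))))) (a (a (c (l 531313935) (c (l 530920463) (l 530634255))) (c (l 531289615) (c (l 530899983) (l 530617359)))) (a (c (c (l 531383823) (l 531140623)) (c (l 530879503) (l 530600207))) (c (c (l 531357199) (l 531116559)) (c (l 530858767) (l 530851599)))))) (b (a (a (c (l 531364623) (c (l 530979087) (l 530698511))) (c (l 531340559) (c (l 530958607) (l 530681103)))) (a (c (l 531584271) (c (l 530938127) (l 530663695))) (c (c (l 531406351) (l 531170575)) (c (l 530917135) (l 530914831))))) (a (a (c (l 531415055) (c (l 531038479) (l 530764047))) (c (l 531391247) (c (l 531018255)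 (l 530746639)))) (a (c (l 531366927) (c (l 530997519) (l 530728975))) (a (c (l 531348495) (l 530851087)) (c (l 531335951) (l 530841359))))))), by decide +kernel⟩

def k42_A00mm_202_s3 : ∃ t, chk3 f_A00mm_202_s3 t 121 35 1 = true :=
  ⟨(c (a (b (a (b (a (l 531167759) (l 531154447)) (a (l 531219727) (l 531206415))) (b (a (l 531140879) (l 531127055)) (a (l 531193103) (l 531179279)))) (a (b (c (l 531379215) (l 531146255)) (c (l 531428623) (l 531200527))) (b (a (l 531245327) (l 531231759)) (a (l 531297551) (l 531284239))))) (b (a (b (a (l 531113231) (l 531098895)) (a (l 531165455) (l 531151375))) (b (a (l 531084815) (l 531070223)) (a (l 531137039) (l 531122703)))) (a (a (b (l 531217935) (l 531270671)) (l 531498767)) (b (a (l 531189775) (l 531175439)) (a (l 531242511) (l 531228175)))))) (a (b (a (b (a (l 530649103) (l 530639631)) (a (l 530709007) (l 530699535))) (b (a (l 530630159) (l 530620687)) (a (l 530689807) (l 530680335)))) (a (a (b (l 530769679) (l 530831375)) (b (l 530759951) (c (l 530950159) (l 530688783)))) (b (a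 (l 530750479) (l 530741007)) (a (c (l 530939663) (l 530680079)) (l 530802191))))) (a (b (b (a (l 530611215) (l 530601743)) (a (l 530671119) (l 530661647))) (a (b (l 530731535) (l 530792719)) (b (l 530722319) (l 530783503)))) (b (b (a (l 530592271) (l 530582799)) (a (l 530652175) (l 530642703))) (b (a (l 530712847) (l 530703375)) (a (l 530774031) (l 530764559))))))), by decide +kernel⟩

def k43_A00mm_202_s3 : ∃ t, chk3 f_A00mm_202_s3 t 61 35 1 = true :=
  ⟨(a (a (b (a (c (b (a (l 531055887) (l 531041295)) (a (l 531108367) (l 531094031))) (a (b (l 530572815) (l 530632975)) (b (l 530563087) (l 530622991)))) (c (a (b (l 531026703) (l 531079439)) (b (l 531012111) (l 531064847))) (a (b (l 530553103) (l 530613263)) (b (l 530542863) (l 530603023))))) (a (c (b (a (l 531161103) (l 531146767)) (a (l 531214095) (l 531199503))) (a (b (l 530693647) (l 530755087)) (b (l 530683919) (l 530745359)))) (c (a (b (l 531132175) (l 531185167)) (b (l 531117583) (l 4))) (a (b (l 530673935) (l 530735631)) (b (l 530663951) (l 4)))))) (a (b (c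 (a (b (l 530997263) (l 531049999)) (b (l 530982415) (l 531035407))) (a (b (l 530532623) (l 530592783)) (b (l 530522383) (l 530582543)))) (b (c (a (l 531102991) (l 531088143)) (a (l 530653967) (l 530643471))) (l 4))) (b (c (a (b (l 530967567) (l 531020559)) (b (l 530952719) (l 531005455))) (a (b (l 530511887) (l 530572047)) (b (l 530501135) (l 530561551)))) (l 4)))) (b (b (a (a (c (a (l 530937615) (l 530922511)) (a (l 530490383) (l 530479631))) (c (a (l 530907151) (l 530891791)) (a (l 530468623) (a (l 530460431) (l 530454799))))) (l 4)) (a (a (a (c (l 530990351) (l 530550799)) (l 4)) (l 4)) (l 4))) (l 4))), by decide +kernel⟩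

def k44_A00mm_202_s3 : ∃ t, chk3 f_A00mm_202_s3 t 31 35 1 = true :=
  ⟨(l 4), by decide +kernel⟩

def k45_A00mm_202_s3 : ∃ t, chk3 f_A00mm_202_s3 t 56 18 1 = true :=
  ⟨(b (a (c (b (a (l 531901967) (l 531586319)) (a (l 532016143) (l 531968015))) (b (a (c (l 531729167) (c (l 16640360) (l 531314191))) (c (l 531682575) (c (l 16651416) (l 16647624)))) (a (c (l 531849743) (b (l 16648760) (l 16655536))) (c (l 531802383) (b (l 16654608) (l 531509007)))))) (c (b (a (b (l 532048655) (l 532104207)) (a (l 531773455) (l 531750671))) (a (l 531652111) (c (l 532272399) (l 532005135)))) (b (a (c (l 531905295) (b (l 16646880) (l 16653808))) (c (b (l 16670184) (l 16666200)) (b (l 531237391) (l 16665240)))) (a (c (l 531756047) (c (l 531516175) (l 531347727))) (c (l 531979279) (b (l 531358735) (l 531419407))))))) (c (a (b (a (l 532401679) (l 532084495)) (a (l 532521743) (l 532472335))) (b (a (l 531767823) (l 531720207)) (a (l 532154639) (l 531837711)))) (a (b (a (c (l 531972623) (l 531650063)) (a (l 531510543) (l 531486735))) (a (c (l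 532097551) (l 531777039)) (a (l 531635727) (l 531611407)))) (b (a (a (l 531463183) (l 531440143)) (a (l 531417359) (l 531126543))) (a (b (l 531544079) (l 531606799)) (b (l 531497743) (l 531559439))))))), by decide +kernel⟩

def k46_A00mm_202_s3 : ∃ t, chk3 f_A00mm_202_s3 t 57 18 1 = true :=
  ⟨(b (a (c (c (a (b (l 532117263) (l 532226063)) (b (l 532072463) (l 532180495))) (a (b (l 531846671) (l 531960079)) (b (l 531803407) (l 531916047)))) (a (b (c (b (l 16670872) (l 16677328)) (a (l 531237135) (l 531217167))) (c (a (l 531677967) (l 531656463)) (a (l 531357711) (l 531337231)))) (b (c (a (l 531518991) (l 531498767)) (a (l 531197711) (l 531179023))) (c (a (l 531635471) (l 531614735)) (a (l 531317519) (l 531298063)))))) (c (a (b (b (c (l 16692328) (l 531734031)) (l 532194063)) (b (l 531712015) (l 531767567))) (b (c (l 532254991) (a (l 531731727) (l 531712271))) (a (l 531708431) (l 531688207)))) (a (b (c (a (l 531479055) (l 531459855)) (a (l 531160847) (l 531143183))) (c (a (l 531594767) (l 531575311)) (a (l 531279375)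 (l 531261455)))) (b (c (a (l 531441423) (l 531423503)) (a (l 531126287) (l 531110415))) (c (a (l 531556367) (l 531538191)) (a (l 531244303) (l 531227919))))))) (a (c (b (a (c (l 532337679) (l 532075535)) (a (l 531907599) (l 531885071))) (a (l 531521551) (a (l 532023311) (l 532000271)))) (b (a (a (l 531104527) (c (l 531774991) (l 531457807))) (c (a (l 531753231) (l 531732239)) (a (l 531437327) (l 531417359)))) (a (b (l 531452687) (l 531513871)) (b (c (l 531831567) (l 531517199)) (c (l 531891727) (l 531577615)))))) (c (b (a (b (l 531823375) (l 531880207)) (a (l 531820047) (l 531799311))) (a (b (l 531937295) (l 531995151)) (b (l 531894287) (l 531951375)))) (a (b (c (a (l 531711503) (l 531691535)) (a (l 531398159) (l 531379727))) (b (a (l 531647247) (l 531627279)) (a (l 531706639) (l 531686415)))) (b (a (c (l 531672335) (l 531362063)) (c (l 531653903) (l 531345167))) (a (c (l 531789071) (l 531479567)) (c (l 531770127) (l 531462159)))))))), by decide +kernel⟩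

def k47_A00mm_202_s3 : ∃ t, chk3 f_A00mm_202_s3 t 58 18 1 = true :=
  ⟨(a (b (a (c (b (a (l 532096527) (l 532211727)) (a (l 531668495) (l 531649551))) (b (c (a (l 531406351) (l 531389967)) (a (l 531095055) (l 531080719))) (c (a (l 531521039) (l 531504655)) (a (l 531212559) (l 531198223))))) (a (c (b (l 531790607) (l 531899663)) (b (c (l 531374351) (l 531067407)) (c (l 531489039) (l 531184655)))) (c (b (l 532040463) (l 531881231)) (b (c (l 531358479) (l 531053839)) (c (l 531473167) (l 531171087)))))) (a (c (b (a (l 531779599) (l 531760655)) (a (l 531892495) (l 531873295))) (b (a (c (l 531636239) (l 531329551)) (c (l 531619599) (l 531314959))) (a (l 531065359) (l 531049743)))) (c (b (b (l 531704847) (l 531760911)) (b (l 531817487) (l 531874319))) (b (a (c (l 531604239) (l 531301647)) (c (l 531588623) (l 531288079))) (a (c (l 531719951) (l 531417871)) (c (l 531704335) (l 531404559))))))) (b (c (a (a (b (l 532021263) (l 531862287)) (b (c (l 531857935) (l 531603471)) (l 531843087))) (a (b (c (l 531837455) (l 531584527))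 (l 531823375)) (b (c (l 531816207) (l 531565583)) (l 531803407)))) (a (b (c (a (l 531342351) (l 531325967)) (a (l 531040015) (l 531025935))) (c (a (l 531457295) (l 531440911)) (a (l 531157519) (l 531143695)))) (b (c (a (l 531309327) (l 531292431)) (a (l 531011855) (l 530997263))) (c (a (l 531424527) (l 531407631)) (a (l 531129615) (l 531115279)))))) (a (c (b (b (l 531667471) (l 531723535)) (b (l 531780111) (l 531837199))) (b (a (c (l 531572751) (l 531274511)) (c (l 531556623) (l 531260943))) (a (c (l 531688719) (l 531391247)) (c (l 531672591) (l 531377423))))) (c (b (b (l 531628303) (l 531684623)) (a (l 532048655) (l 532029199))) (b (a (c (l 531540239) (l 531246863)) (c (l 531523599) (l 531232527))) (b (a (l 531483919) (l 531468559)) (l 530997263))))))), by decide +kernel⟩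

def k48_A00mm_202_s3 : ∃ t, chk3 f_A00mm_202_s3 t 118 18 1 = true :=
  ⟨(b (a (c (b (a (c (l 531794959) (l 531545871)) (c (l 531772943) (l 531526159))) (a (l 531783183) (l 532030735))) (b (a (b (l 531102479) (l 531160847)) (b (l 531086095) (l 531144719))) (a (c (l 531390479) (l 531100687)) (c (l 531373071) (l 531086095))))) (c (b (a (c (l 531750671) (l 531505935)) (c (l 531728143) (l 531485199))) (a (l 532009743) (l 531988239))) (b (a (b (l 531069711) (l 531128079)) (b (l 531052815) (l 531111439))) (a (c (l 531355407) (l 531070991)) (c (l 531337487) (l 531055887)))))) (c (a (b (b (l 531587855) (l 531644431)) (b (l 531701519) (l 531758863))) (b (a (l 531853839) (l 531564047)) (a (l 531968015) (l 531947023)))) (a (b (a (c (l 531506447) (l 531218191)) (c (l 531489295) (l 531203599))) (b (a (l 531452943) (l 531437071)) (l 530966287))) (b (a (c (l 531471631) (l 531188751)) (c (l 531453967) (l 531173903))) (a (c (l 531588623) (l 531305999)) (c (l 531570959) (l 531291151))))))), by decide +kernel⟩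

def k49_A00mm_202_s3 : ∃ t, chk3 f_A00mm_202_s3 t 119 18 1 = true :=
  ⟨(b (c (a (b (a (b (l 531559951) (l 531614479)) (b (l 531537423) (l 531592207))) (b (a (l 531670031) (l 531647503)) (l 530908943))) (b (a (b (l 531514383) (l 531569167)) (b (l 531491087) (l 531546127))) (a (c (l 531766543) (l 531534351)) (c (l 531742479) (l 531512591))))) (a (b (a (b (l 531035919) (l 531094543)) (b (l 531018511) (l 531077135))) (a (c (l 531319311) (l 531040527)) (c (l 531300623) (l 531024911)))) (b (a (b (l 531000847) (l 531059727)) (b (l 530982927) (l 531042063))) (a (c (l 531281935) (l 531009039)) (c (l 531262735) (l 531261455)))))) (b (a (c (a (l 531542543) (l 531520271)) (a (c (l 531435791) (l 531158543)) (c (l 531417359) (l 531143183)))) (c (a (l 531497999) (l 531475215)) (a (c (l 531398671) (l 531127311)) (c (l 531379727) (l 531111439))))) (a (c (a (l 531657231) (l 531635471)) (a (c (l 531553039) (l 531276047)) (c (l 531534863) (l 531260687)))) (a (c (l 531613199) (c (l 531516175) (l 531245327))) (l 4))))), by decide +kernel⟩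

def k50_A00mm_202_s3 : ∃ t, chk3 f_A00mm_202_s3 t 15 18 1 = true :=
  ⟨(a (a (a (b (b (a (c (a (b (l 531467279) (l 531522319)) (b (l 531443215) (l 531498255))) (a (b (c (l 531097615) (l 530827535)) (l 531023887)) (b (c (l 531077391) (l 530810895)) (l 531005711)))) (b (a (c (l 531418639) (c (l 531057167) (l 530793743))) (c (l 531393807) (c (l 531036431) (l 530776591)))) (a (c (l 531473935) (c (l 531115535) (l 530854159))) (c (l 531448847) (a (l 530973199) (l 530963471)))))) (b (a (a (c (l 531578127) (l 531082767)) (c (l 531554319) (l 531064591))) (a (c (l 531529999) (c (l 531173903) (l 530913551))) (c (l 531505167) (c (l 531153423) (l 530896655))))) (a (a (c (l 531634703) (l 531141903)) (c (l 531610895) (l 531123727))) (a (a (l 531092495) (l 531081487)) (l 4))))) (b (b (a (a (a (l 531193103) (l 531182607)) (a (l 531172111) (l 4))) (l 4)) (l 4)) (l 4))) (b (a (b (c (a (b (b (l 531355151) (l 531381775)) (l 531423503)) (b (c (a (l 531455247) (l 531445263)) (a (l 531236111) (l 531225103))) (l 531397647))) (a (a (b (l 530894351)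 (l 530953999)) (b (a (l 530886927) (l 530881551)) (l 530944271))) (b (a (b (l 530858767) (l 530889743)) (b (l 530848271) (l 530881807))) (a (l 530934543) (l 530924815))))) (a (b (c (l 531479823) (a (l 531013135) (l 531003663))) (l 4)) (l 4))) (b (b (b (a (a (c (l 531310095) (l 530839055)) (l 531070991)) (a (l 531058959) (l 531047183))) (a (c (a (l 531336719) (l 531322895)) (a (c (l 530992911) (l 530743311)) (l 530860815))) (l 4))) (a (a (c (l 531378447) (l 530915087)) (l 4)) (l 4))) (l 4))) (l 4))) (l 4)) (l 4)), by decide +kernel⟩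

def k51_A00mm_202_s3 : ∃ t, chk3 f_A00mm_202_s3 t 56 19 1 = true :=
  ⟨(b (a (c (b (c (l 532476175) (l 532219663)) (c (l 532867599) (l 532345871))) (b (a (c (l 532225551) (l 531906575)) (a (l 531763471) (l 531738895))) (a (c (l 532353039) (l 532034575)) (c (l 532304143) (l 531985935))))) (c (b (c (l 532107535) (l 531582479)) (c (l 532769039) (l 531978767))) (b (a (a (l 531714063) (l 531689743)) (b (l 531621903) (l 531685135))) (a (c (l 532254991) (l 531669007)) (c (l 532205839) (l 531620623)))))) (b (a (c (c (l 532976143) (l 532456463)) (c (l 531634191) (a (l 532143631) (l 532097551)))) (c (c (l 532883471) (l 532095247)) (a (c (l 532370703) (l 532052239)) (c (l 532324879) (l 531738895))))) (a (c (c (l 533061135) (l 532809999)) (a (c (l 532546319) (l 532223759)) (l 531538703))) (c (c (l 532970255) (l 532182031)) (a (l 531762191) (l 531449103)))))), by decide +kernel⟩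

def k52_A00mm_202_s3 : ∃ t, chk3 f_A00mm_202_s3 t 57 19 1 = true :=
  ⟨(b (a (a (c (b (l 531909903) (l 532034575)) (b (b (l 531575311) (l 531637775)) (b (l 531701263) (l 531766287)))) (c (b (l 531593231) (l 531715855)) (b (b (l 531530511) (l 531591951)) (b (l 531654159) (l 531717903))))) (a (c (b (c (l 532474895) (l 531952655)) (c (l 532593935) (l 532073999))) (b (c (l 531670031) (a (l 531637263) (l 531617039))) (b (l 531340559) (l 531134223)))) (c (b (c (l 532160527) (l 531908623)) (a (l 531899663) (l 531876623))) (b (c (l 531628303) (a (l 531597583) (l 531579151))) (b (a (l 531845391) (l 531825167)) (a (l 531906063) (l 531884815))))))) (b (a (a (c (l 532692495) (c (l 532279311) (l 531694607))) (c (l 532376847) (c (l 531964943) (l 531650319)))) (c (a (c (l 532718095) (l 532468495)) (b (l 531979791) (l 532309519))) (a (b (l 531735567) (l 531794191)) (b (a (l 531968527) (l 531677199)) (a (l 532030223) (l 531739919)))))) (a (c (c (l 532879119) (l 532091407)) (a (l 531405071) (c (l 532321807) (l 531735311)))) (a (c (l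 532690191) (c (l 532278031) (l 531693583))) (c (l 532644623) (c (l 532234767) (l 531652367))))))), by decide +kernel⟩

def k53_A00mm_202_s3 : ∃ t, chk3 f_A00mm_202_s3 t 29 19 1 = true :=
  ⟨(a (c (a (a (b (a (b (l 532275471) (l 531854863)) (b (l 532256015) (l 531834639))) (b (c (c (l 532672783) (l 532019983)) (a (l 531571471) (l 532091919))) (l 532330511))) (b (b (b (l 531931663) (l 531989007)) (b (l 532315407) (l 532373519))) (b (c (l 532042511) (l 531529487)) (l 4)))) (b (a (b (b (l 531894543) (l 531415567)) (b (l 531741967) (l 532337167))) (b (a (b (l 532134927) (l 532192783)) (l 532144399)) (a (l 531743247) (b (l 532231695) (l 4))))) (b (a (c (l 532273423) (l 532032015)) (l 4)) (l 4)))) (a (b (a (b (a (c (l 531868431) (l 531562255)) (b (l 531673615) (l 531731471))) (a (c (l 531985423) (l 531946767)) (c (l 531967503) (l 531930639)))) (b (a (l 531419919) (l 531137039)) (b (l 531499279) (l 531557135)))) (b (a (c (a (b (l 532074767) (l 532149007)) (l 531277839)) (a (b (l 531766287) (l 531571983)) (b (l 531750927) (l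 531535887)))) (b (l 531614735) (a (b (l 531933711) (l 531693583)) (l 531665423)))) (a (a (l 531782415) (l 531761679)) (l 4)))) (b (a (b (a (b (l 531630351) (l 531688463)) (b (l 531615503) (l 531673615))) (b (a (l 531746319) (l 531731727)) (l 531528207))) (b (a (b (l 531600399) (l 531658767)) (l 531345935)) (a (b (l 531716879) (l 531774991)) (b (l 531701775) (l 4))))) (a (b (b (l 531586063) (l 4)) (l 4)) (l 4))))) (a (b (b (a (c (b (l 531816719) (l 531874831)) (a (l 531330575) (l 531314959))) (c (a (l 532083983) (l 532063247)) (a (l 531298831) (l 531282703)))) (a (b (a (c (l 532211983) (l 531686415)) (l 4)) (l 4)) (l 4))) (l 4)) (l 4))), by decide +kernel⟩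

def k54_A00mm_202_s3 : ∃ t, chk3 f_A00mm_202_s3 t 15 19 1 = true :=
  ⟨(l 4), by decide +kernel⟩

def k55_A00mm_202_s3 : ∃ t, chk3 f_A00mm_202_s3 t 24 20 1 = true :=
  ⟨(c (a (b (c (l 16619640) (l 16630928)) (a (l 16629048) (l 533278735))) (b (c (l 16637200) (l 16647008)) (b (l 16648688) (l 16674528)))) (b (c (a (c (l 16640528) (l 16634928)) (c (l 16652240) (l 16646368))) (a (b (a (l 16573880) (l 16580152)) (c (l 16590360) (l 16603688))) (b (c (l 16593368) (a (l 16624976) (l 16631944))) (c (l 16623704) (a (l 16634592) (l 16641528)))))) (a (a (b (l 532875279) (l 532927247)) (c (l 16654424) (a (l 532950287) (l 532922127)))) (c (a (l 533696783) (l 533151247)) (a (b (l 533123343) (l 16630048)) (b (l 532796687) (l 532844303))))))), by decide +kernel⟩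

def k56_A00mm_202_s3 : ∃ t, chk3 f_A00mm_202_s3 t 25 20 1 = true :=
  ⟨(c (c (a (b (l 16654680) (a (l 532342799) (l 16669672))) (b (b (l 16669576) (l 16674800)) (b (l 16680392) (l 16686296)))) (a (b (b (l 16661072) (l 16665384)) (b (l 16670072) (l 16675040))) (b (b (l 16677112) (l 16681768)) (a (b (l 16682616) (l 16687872)) (b (l 16690992) (l 16696440)))))) (a (b (c (c (l 16663888) (a (l 16655584) (l 16662088))) (a (c (b (l 16645240) (l 16654568)) (b (l 16639136) (l 16627736))) (b (b (l 16626016) (l 16630832)) (b (l 16635544) (l 16640160))))) (b (c (c (l 16676600) (l 16672072)) (a (c (l 16642608) (l 16642224)) (c (l 16649496) (l 532857871)))) (a (c (l 16679424) (l 532784655)) (c (l 16685968) (c (l 16658248) (l 532902671)))))) (b (c (b (a (l 16666592) (l 16673440)) (c (l 16680984) (l 16676840))) (a (c (b (l 16659392) (l 16647712)) (b (c (l 16655528) (l 16652856)) (c (l 16665008) (l 16662464)))) (b (c (l 16645856) (c (l 16663288) (l 16660840))) (c (l 16660392) (c (l 16672776) (l 16673080)))))) (a (c (b (l 16684096) (l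 533524751)) (a (b (l 532630543) (l 532676879)) (b (l 532599311) (a (l 532921871) (l 532905743))))) (c (b (c (l 16692736) (l 16689024)) (c (l 16700904) (l 16697448))) (c (b (l 532903439) (l 532682511)) (b (b (l 16678544) (l 16683064)) (a (l 533061903) (l 532761359))))))))), by decide +kernel⟩

def k57_A00mm_202_s3 : ∃ t, chk3 f_A00mm_202_s3 t 12 21 1 = true :=
  ⟨(a (b (b (c (a (l 16640520) (c (l 16654880) (l 16662832))) (c (a (l 16656544) (l 16672168)) (a (c (l 16659080) (l 16631144)) (a (l 16644072) (l 532892943))))) (c (a (l 16645536) (l 533079311)) (a (c (l 16660784) (l 532953871)) (a (l 532869903) (c (l 16680768) (l 533212431)))))) (c (a (a (l 532969487) (l 533502991)) (b (c (l 16666392) (l 533131791)) (l 533459215))) (a (c (l 533414159) (b (l 533405711) (l 16659896))) (a (b (l 533066255) (l 533534223)) (b (l 532919823) (l 533252879)))))) (c (a (b (b (a (l 16672288) (l 533148431)) (c (l 532686863) (l 16685744))) (b (a (l 16683872) (l 533259791)) (a (l 532917263) (l 532913679)))) (b (a (b (l 533143823) (c (l 532950287)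 (l 16699104))) (b (b (l 16697992) (l 16701032)) (c (l 532945423) (l 16708032)))) (b (a (l 533255439) (c (l 532867855) (l 16719480))) (a (l 532909583) (l 533441807))))) (a (c (b (a (l 533261071) (b (l 16691968) (l 16696968))) (b (l 533276687) (l 533337359))) (b (a (b (l 532833039) (l 532884495)) (b (c (l 16687800) (l 532948495)) (c (l 16696240) (l 532998159)))) (b (a (l 533203727) (l 532875023)) (a (l 533519119) (l 533191183))))) (b (b (a (c (l 533553167) (a (l 532725007) (l 532693263))) (c (l 533245199) (c (l 533000719) (a (l 533107471) (l 533075215))))) (a (c (l 533475599) (a (l 533045775) (l 532745743))) (c (l 533468943) (a (l 532713999) (c (l 16709888) (l 533125903)))))) (a (b (c (l 533398543) (c (l 533443087) (l 532985871))) (c (l 533323791) (l 532861967))) (b (c (l 533390863) (a (l 532766479) (c (l 16715432) (l 533176335)))) (c (l 533315343) (c (l 533431055) (l 532969999))))))))), by decide +kernel⟩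

def k58_A00mm_202_s3 : ∃ t, chk3 f_A00mm_202_s3 t 26 20 1 = true :=
  ⟨(a (c (b (c (b (l 16686840) (l 16692368)) (b (c (l 16691576) (l 16689488)) (c (l 16696672) (l 16698032)))) (c (b (l 16703544) (b (l 16702992) (l 16706192))) (b (c (l 16702200) (l 16705040)) (c (l 16708056) (l 16707992))))) (b (b (c (c (l 16686072) (a (l 16657640) (l 16665216))) (c (a (l 16658792) (l 532664847)) (a (c (l 16671296) (l 16669056)) (c (l 16679544) (l 16677520))))) (c (c (l 16694864) (a (l 16666688) (l 16674264))) (a (c (l 532521231) (b (l 16677392) (l 16682080))) (c (l 532587023) (b (l 16685760) (l 16690456)))))) (b (a (a (c (l 16696192) (c (l 16669816) (l 532953871))) (c (l 16699816) (c (l 16684216) (l 532920847)))) (c (c (l 16706856) (l 532930063)) (a (c (l 16688192) (l 532887311)) (c (l 16692248) (l 532853007))))) (a (c (c (l 16707776) (l 16704704)) (c (a (l 16688952) (l 16692856)) (a (l 532728591) (l 532963599)))) (c (c (l 16714952) (l 16712248)) (a (c (l 533102351) (l 532929807)) (c (l 533067791) (l 532894991)))))))) (c (b (c (a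 (b (l 16699776) (l 16705536)) (l 533225487)) (a (b (l 16701544) (l 16709936)) (b (l 16708920) (l 16717296)))) (a (c (b (l 16711704) (l 16718216)) (b (l 16716224) (l 533314319))) (c (b (l 16720632) (l 16732552)) (b (l 533374991) (l 533302287))))) (b (a (b (c (c (l 16676232) (l 16673080)) (a (l 532328207) (l 532760079))) (c (l 532479759) (a (b (l 16672952) (l 16688064)) (l 532817167)))) (c (a (b (l 16680624) (l 16710496)) (l 532224271)) (b (a (l 532720911) (l 532412431)) (a (l 532778767) (l 532739599))))) (a (c (b (l 532534799) (l 532583695)) (b (a (c (l 16696360) (l 532817679)) (l 532599055)) (a (c (l 533032719) (l 532859407)) (l 532642575)))) (c (b (l 532866319) (l 532915983)) (b (a (l 532829711) (l 532791311)) (a (l 532605455) (l 532836111)))))))), by decide +kernel⟩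

def k59_A00mm_202_s3 : ∃ t, chk3 f_A00mm_202_s3 t 52 21 1 = true :=
  ⟨(b (c (a (c (b (l 533014543) (l 532938511)) (b (l 16710888) (l 533179919))) (b (c (l 532467215) (l 533250831)) (c (l 532929039) (l 533173007)))) (c (c (b (a (l 16714720) (l 16722880)) (a (l 16720376) (l 533383439))) (b (a (l 16712928) (l 533298703)) (a (l 533426959) (l 533358095)))) (c (a (b (b (l 16697288) (l 16701504)) (c (l 16718976) (l 532945167))) (b (b (l 16705208) (l 532877839)) (a (l 533206799) (l 533171727)))) (a (b (a (l 533042191) (l 532740367)) (a (l 533093135) (l 533059855))) (b (a (l 532705807) (l 532670735)) (a (l 533025807) (l 532990991))))))) (a (c (c (b (l 532861711) (l 532785935)) (b (l 533101071) (l 533024015))) (b (c (l 533384207) (c (l 533112591) (a (l 533144079) (l 533111567)))) (c (l 533307663) (a (l 532752143) (l 532719631))))) (c (a (b (c (l 532855823) (l 533096463)) (l 532894479)) (b (l 532966159) (l 532890383))) (c (b (c (l 533303567) (l 533419023)) (a (l 533303055) (l 533300239))) (b (c (a (l 533263631) (l 533229071))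 (a (l 532809743) (l 533043727))) (a (l 532686607) (c (l 533283343) (l 533093135)))))))), by decide +kernel⟩

def k60_A00mm_202_s3 : ∃ t, chk3 f_A00mm_202_s3 t 53 21 1 = true :=
  ⟨(c (b (a (b (c (l 16725016) (l 533242383)) (c (l 532914959) (l 533164815))) (b (c (l 532968207) (l 533231631)) (c (l 532893199) (l 533154063)))) (a (c (b (l 532839183) (l 532497423)) (b (l 533085711) (l 533008911))) (b (c (l 532816655) (l 533074447)) (l 532864015)))) (b (a (b (c (l 532702223) (a (c (l 533079823) (l 532902927)) (l 532687375))) (c (c (l 533379599) (l 533286927)) (c (l 533100815) (a (l 532954895) (l 532917519))))) (b (c (l 533233423) (a (l 532648719) (l 532878095))) (c (l 533025551) (a (l 532702479) (l 532663055))))) (a (b (c (l 532838671) (a (c (l 533193999) (l 533008399)) (l 532529423))) (c (l 533296655) (a (c (l 533248783) (l 533058575)) (l 532850959)))) (b (c (l 533358351) (c (l 533100559) (l 532644111))) (c (l 533296399) (c (l 533156623) (l 532695823))))))), by decide +kernel⟩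

def k61_A00mm_202_s3 : ∃ t, chk3 f_A00mm_202_s3 t 27 20 1 = true :=
  ⟨(a (c (b (c (a (l 533211919) (l 533203727)) (a (b (l 16716600) (l 533286927)) (a (l 533199119) (l 533160719)))) (b (a (c (l 16734904) (l 533347855)) (c (l 533074959) (l 533276175))) (a (c (l 533014031) (l 533290255)) (a (l 533136911) (l 533131279))))) (b (c (a (b (l 532402703) (l 533003535)) (b (l 532323855) (c (l 532733711) (l 532848655)))) (a (a (c (l 532755215) (l 532316687)) (b (l 532331791) (l 532660239))) (a (b (l 532290831) (l 532620047)) (c (l 532634383) (l 532193551))))) (a (b (c (l 532256271) (a (l 532752655) (l 532713743))) (c (l 532576271) (a (l 532798223) (l 532760335)))) (c (a (b (l 533005839) (l 533059087)) (b (l 532967439) (l 533021967))) (b (a (l 532674575) (l 532634895)) (a (l 532722191) (l 532683535))))))) (c (b (a (b (c (l 533250063) (l 533064719)) (l 532190479)) (a (c (l 533211663) (l 533037071)) (c (l 533220879) (l 532992015)))) (a (a (b (l 533211151) (l 533127439)) (a (l 532631823) (l 532901391))) (a (a (l 533172495) (l 533176847))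 (l 533184527)))) (b (a (c (b (l 532241167) (l 532845839)) (b (c (l 532269583) (l 532097551)) (a (l 532537871) (l 532495119)))) (a (c (l 532210703) (c (l 532236559) (l 532062735))) (b (l 531971343) (l 532038159)))) (a (b (c (l 532639503) (a (l 532594191) (l 532552463))) (c (a (l 532984079) (l 532944911)) (a (l 532644111) (l 532603663)))) (c (a (b (l 532844559) (l 532902927)) (l 532829711)) (a (b (l 532508431) (l 532292367)) (l 531953167))))))), by decide +kernel⟩

def k62_A00mm_202_s3 : ∃ t, chk3 f_A00mm_202_s3 t 27 21 1 = true :=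
  ⟨(a (c (b (a (b (c (l 532677135) (l 533220367)) (a (l 533005839) (l 532997903))) (b (a (l 533066255) (l 533058575)) (a (l 532990223) (a (l 532984847) (l 532981263))))) (b (a (b (l 532941583) (l 532902159)) (c (a (l 532775439) (b (l 532784655) (l 532745231))) (a (l 533054735) (b (l 533069839) (l 533029391))))) (a (l 532844303) (l 532826127)))) (b (a (b (c (l 532488975) (a (l 532839183) (l 532800527))) (c (a (l 533238287) (l 533200655)) (a (l 532891919) (l 532583695)))) (b (a (c (l 533105423) (l 532762127)) (c (l 533068815) (l 532723983))) (a (c (l 533163023) (l 532275727)) (a (c (l 533134351) (l 532782607)) (l 532140047))))) (a (b (c (l 533015823) (a (l 532949263) (l 532641295))) (c (l 533297679) (l 532983823))) (a (b (b (c (l 533212175) (l 532856079)) (l 532265487)) (l 532578063)) (b (c (c (l 533272591) (l 533105423)) (c (l 532657167) (a (l 532742671) (l 532722703)))) (l 532539663)))))) (c (b (b (a (c (l 533429519) (c (l 533109007) (l 533255183))) (c (l 532904463) (c (l 533126415) (l 533165839)))) (a (a (l 532975375)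 (l 532969231)) (c (a (l 532818447) (l 532824079)) (c (l 533042959) (l 533204751))))) (a (b (a (b (l 532914447) (a (l 532607503) (l 532872207))) (l 532887055)) (l 4)) (l 4))) (b (a (c (b (a (l 533032463) (l 533003535)) (l 532262671)) (b (a (l 532149007) (b (l 532637967) (l 532133391))) (a (l 532465679) (l 532425487)))) (a (b (c (l 532957455) (a (l 532083471) (l 532059919))) (b (c (l 532993807) (c (l 532464399) (l 532275471))) (c (l 533039887) (l 532144911)))) (b (l 532206351) (b (b (l 532772367) (l 4)) (l 4))))) (b (a (a (a (b (l 532435727) (c (l 533178383) (l 532815119))) (l 532163343)) (l 532402447)) (l 4)) (l 4))))), by decide +kernel⟩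

def k63_A00mm_202_s3 : ∃ t, chk3 f_A00mm_202_s3 t 7 10 1 = true :=
  ⟨(b (a (a (a (c (a (b (b (c (l 533138959) (l 532887311)) (c (l 533187087) (l 532959759))) (b (l 532623119) (l 533155343))) (b (c (a (l 533110031) (l 533065487)) (a (l 532588815) (l 532544015))) (a (c (l 533064975) (l 532994319)) (b (l 532245007) (l 4))))) (b (b (a (a (l 531656975) (c (l 532575759) (l 532249359))) (a (c (l 532530703) (l 532204815)) (l 531522575))) (a (a (l 531724047) (c (l 532645391) (l 532313871))) (a (c (l 532600591) (l 532000783)) (c (l 532556047) (l 531957007))))) (b (a (a (l 532054031) (l 531740687)) (c (a (l 532665103) (l 532620815)) (a (l 532327951) (l 532015631)))) (a (c (l 532790799) (l 531910415)) (a (l 532021263) (l 4)))))) (b (b (a (c (a (l 532860687) (l 532815375)) (a (l 531747087) (c (l 532397583) (l 531806479)))) (c (a (l 532770319) (l 532725007)) (a (c (l 532354063) (l 531764495)) (c (l 532310799) (l 531723535))))) (a (c (l 531838735) (a (l 531814927) (l 531771663))) (l 4))) (b (b (a (a (c (l 532988687) (c (l 532560911)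 (l 532226831))) (l 4)) (l 4)) (l 4)) (l 4)))) (l 4)) (l 4)) (b (b (a (a (a (a (c (l 533070095) (c (l 532845071) (l 531957519))) (l 4)) (l 4)) (l 4)) (l 4)) (a (l 4) (l 4))) (l 4))), by decide +kernel⟩

def k64_A00mm_202_s3 : ∃ t, chk3 f_A00mm_202_s3 t 12 11 1 = true :=
  ⟨(b (a (b (c (a (b (l 532855823) (l 532785167)) (b (l 532847119) (l 532775439))) (a (c (l 533273103) (l 533641999)) (c (l 533251599) (b (l 533376271) (l 533577743))))) (c (a (l 532686607) (a (l 532679183) (l 532673807))) (a (l 533313039) (c (l 533113103) (l 533472527))))) (a (a (b (c (l 533340431) (c (l 533236495) (l 532917519))) (c (l 532668175) (l 533266959))) (b (b (c (l 532836367) (l 532891663)) (c (l 532762895) (l 533360655))) (c (l 532662287) (l 533254671)))) (a (b (c (b (l 532832271) (l 532757519)) (b (c (l 533252111) (l 533174799)) (l 532812303))) (c (l 532656143) (c (l 533076239) (l 533422863)))) (b (c (b (l 533096463) (l 532752143)) (b (c (l 533242639) (c (l 533478927) (l 533012239))) (c (l 533172495) (l 533157135)))) (c (b (l 532682767) (l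 532617999)) (b (l 532999183) (l 533196303))))))) (a (c (b (a (l 532563983) (l 532552975)) (a (l 532449551) (l 532438287))) (a (b (l 533179663) (l 533053455)) (b (l 533151247) (l 533291791)))) (a (a (b (c (l 532544527) (l 533131023)) (c (l 532429327) (l 533001999))) (b (c (l 532538127) (l 533117711)) (c (l 532422671) (l 532987663)))) (c (b (a (l 532531471) (l 532524559)) (a (l 532415503) (l 532408079))) (b (a (l 533104911) (l 533092367)) (a (b (l 533006351) (l 532942607)) (l 532960271))))))), by decide +kernel⟩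

def k65_A00mm_202_s3 : ∃ t, chk3 f_A00mm_202_s3 t 26 22 1 = true :=
  ⟨(c (a (b (b (a (c (l 532710159) (l 532948239)) (a (l 533356047) (l 533352719))) (a (l 533283855) (a (l 532743439) (l 533009167)))) (b (a (l 532676623) (b (l 532687119) (l 533190415))) (a (l 532611343) (b (l 532620559) (l 532588559))))) (b (a (a (b (l 532811535) (b (l 532756751) (l 532719375))) (c (b (l 532690959) (l 532355343)) (l 532895247))) (a (a (b (l 532799247) (l 532728591)) (l 532758031)) (l 532749327))) (b (a (a (l 532665871) (c (l 532540175) (l 532782607))) (c (c (l 533021967) (l 532324367)) (l 532777999))) (a (a (b (l 532615695) (l 532583183)) (l 532864271)) (l 4))))) (a (b (b (a (c (l 533233935) (a (l 533066511) (l 533034767))) (c (l 533225999) (a (l 532734223) (l 532701199)))) (a (c (l 533163279) (c (l 533413903) (l 532855567))) (c (a (l 533156623) (l 533152271)) (a (l 532776719) (l 532744463))))) (b (b (a (l 533006863) (a (l 533267983) (l 532994575))) (a (l 533239055) (a (l 533231375) (l 532957967)))) (a (l 533185039) (b (a (l 533195279)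 (a (l 533191695) (l 532920591))) (l 533156879))))) (b (c (a (a (b (l 533221647) (l 533148175)) (b (l 533219343) (l 533143567))) (c (l 533101839) (a (l 533261071) (l 533263631)))) (a (a (a (b (l 532944655) (l 532988943)) (b (l 533196047) (l 533241359))) (b (l 532632847) (a (l 532553743) (l 532535567)))) (a (a (b (l 533142031) (l 532653327)) (l 533147151)) (l 533118223)))) (b (c (a (a (l 533077007) (l 533076751)) (c (l 532991247) (l 533149455))) (c (a (a (l 533325583) (l 533331471)) (c (l 533276687) (l 533259279))) (a (a (l 532926735) (l 533136143)) (a (a (l 533132303) (l 533113615)) (l 533085967))))) (a (b (a (a (l 532918031) (l 533184015)) (l 533180431)) (a (c (l 532988175) (l 533055247)) (l 4))) (l 4)))))), by decide +kernel⟩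

def k66_A00mm_202_s3 : ∃ t, chk3 f_A00mm_202_s3 t 26 23 1 = true :=
  ⟨(a (c (a (b (l 532517391) (l 532400399)) (b (l 532509967) (l 4))) (b (c (l 532913167) (a (l 533254927) (l 533242127))) (a (l 532947215) (l 4)))) (l 4)), by decide +kernel⟩

def k67_A00mm_202_s3 : ∃ t, chk3 f_A00mm_202_s3 t 27 11 1 = true :=
  ⟨(b (b (a (c (a (l 532732431) (l 532711951)) (a (c (l 533181199) (c (l 533159439) (l 532957199))) (c (l 533181711) (c (l 533082639) (l 532878095))))) (l 4)) (l 4)) (l 4)), by decide +kernel⟩

def k68_A00mm_202_s3 : ∃ t, chk3 f_A00mm_202_s3 t 7 11 1 = true :=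
  ⟨(l 4), by decide +kernel⟩

def k69_A00mm_202_s3 : ∃ t, chk3 f_A00mm_202_s3 t 2 12 2 = true :=
  ⟨(b (a (a (l 6) (a (c (l 16573168) (l 16594840)) (b (l 16612592) (l 16626392)))) (a (a (b (l 16651640) (a (l 16572264) (l 16676896))) (c (b (l 16687776) (l 16704168)) (b (l 16699384) (l 16714344)))) (a (a (b (l 532376591) (l 532276239)) (b (l 532366607) (l 532266255))) (a (b (l 532360207) (l 532260623)) (b (l 532352527) (l 532253455)))))) (b (a (a (l 6) (a (l 16604040) (l 16641440))) (a (a (b (l 16678312) (l 16686544)) (a (l 16693832) (l 532197135))) (a (a (l 532183055) (l 532173071)) (a (l 532168463) (l 532162319))))) (a (a (a (l 6) (l 16498744)) (a (l 16619304) (c (l 16566672) (l 16581568)))) (a (a (c (l 16694024) (l 16705312)) (a (l 532128783) (l 532112399))) (a (a (l 532097551) (l 532624143)) (a (l 532083471) (l 532078351))))))), by decide +kernel⟩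

def k70_A00mm_202_s3 : ∃ t, chk3 f_A00mm_202_s3 t 2 12 3 = true :=
  ⟨(b (c (a (a (l 6) (a (l 16620608) (b (l 16562752) (l 16573792)))) (a (a (b (l 16595088) (l 16607296)) (b (a (l 16620688) (l 16638368)) (c (l 16639488) (l 16730080)))) (a (a (b (l 16656464) (l 532768527)) (b (l 532843023) (l 532735503))) (a (l 532760591) (l 532801295))))) (a (a (l 6) (a (b (l 6) (l 16570560)) (b (l 16590064) (l 16599008)))) (a (a (b (l 533486607) (a (l 16620152) (l 16634640))) (a (a (l 532552463) (l 532790543)) (l 533283599))) (a (a (l 533229071) (l 533180943)) (a (l 533139471) (l 533099279)))))) (a (a (b (l 6) (c (l 16598232) (l 16626280))) (c (a (b (l 16552896) (l 16565240)) (b (l 16586080) (l 16599528))) (b (a (l 16579448) (l 16693072)) (a (l 16589568) (l 16704408))))) (b (a (a (c (l 16704560) (c (l 16633968) (l 16643664))) (a (c (l 16647864) (l 16619848)) (c (l 16708488) (l 533133583)))) (a (a (c (l 532669455) (l 533075471)) (c (l 532635151) (l 533024015))) (a (l 532786447) (l 533557263)))) (a (a (c (l 16718992) (c (l 16646936)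 (l 16613632))) (a (c (l 16704936) (l 533108239)) (c (l 16724056) (l 533043215)))) (a (a (c (l 532578063) (l 532981775)) (c (l 532542223) (l 532927759))) (a (l 532690703) (l 532655631))))))), by decide +kernel⟩

def k71_A00mm_202_s3 : ∃ t, chk3 f_A00mm_202_s3 t 3 12 1 = true :=
  ⟨(a (a (a (b (c (a (b (l 532343055) (l 532244495)) (b (l 532331791) (l 532233487))) (a (b (l 532934415) (l 532822287)) (b (l 532902671) (l 532789263)))) (b (c (a (l 532153871) (l 532142863)) (a (l 533254415) (c (l 532525071) (l 532856847)))) (a (a (a (l 533127439) (l 532853775)) (l 533382415)) (l 4)))) (b (b (a (c (l 532318735) (l 532871951)) (a (c (l 532308239) (l 532850191)) (l 4))) (a (c (l 532220175) (l 532756751)) (l 4))) (l 4))) (l 4)) (l 4)), by decide +kernel⟩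

def k72_A00mm_202_s3 : ∃ t, chk3 f_A00mm_202_s3 t 1 13 2 = true :=
  ⟨(b (a (a (b (a (c (l 16486640) (l 16588264)) (a (l 16635736) (b (l 16670472) (l 16679352)))) (a (c (l 16587488) (l 16603328)) (a (c (l 16562872) (l 16576544)) (c (l 16687576) (l 16699200))))) (a (a (b (c (l 16712672) (l 16711976)) (a (l 532048399) (l 532010767))) (b (a (l 532053519) (l 532036623)) (a (l 531988751) (l 531971343)))) (a (a (b (l 532557327) (b (l 531969295) (l 531939087))) (c (b (l 531894031) (l 531825423)) (a (l 533448719) (l 533709327)))) (a (l 532773647) (l 533575695))))) (a (a (l 4) (l 4)) (l 4))) (a (a (b (c (a (l 16605456) (a (l 16582032) (l 16707320))) (a (l 16619408) (a (l 16593960) (l 16717320)))) (l 2)) (b (a (a (a (l 531993359) (l 531954191)) (a (l 531932175) (l 531916047))) (a (a (l 531898383) (c (l 532034575) (l 533075983))) (a (c (l 531772175) (l 531990543)) (l 4)))) (a (a (a (l 2) (l 532710671)) (a (l 531882767) (l 531867919))) (a (a (l 531851535) (l 531833615)) (l 4))))) (l 4))), by decide +kernel⟩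

def k73_A00mm_202_s3 : ∃ t, chk3 f_A00mm_202_s3 t 1 13 3 = true :=
  ⟨(a (a (b (b (a (a (l 6) (l 16639368)) (c (a (l 16578760) (l 16614056)) (a (l 16600856) (a (l 16625088) (l 16640872))))) (a (a (l 16616408) (l 16651736)) (c (a (l 16593312) (l 16713400)) (a (l 16613160) (a (l 16638192) (l 16654472)))))) (b (a (a (l 16628624) (c (l 16571736) (l 16591400))) (a (a (l 16692096) (l 16710016)) (c (l 16708680) (b (l 16656816) (l 16747920))))) (l 2))) (a (b (a (b (c (l 533734671) (c (l 16744776) (l 16710416))) (c (l 534205711) (c (l 16717672) (l 16724200)))) (b (a (l 532799503) (c (l 532539919) (l 532962063))) (a (l 532732431) (l 532672783)))) (a (a (b (b (l 16717560) (l 16725632)) (l 2)) (b (l 532732943) (c (l 532459279) (l 532925199)))) (a (b (l 532405519) (l 532556303)) (b (l 532613903) (l 532562703))))) (a (b (b (a (b (l 532707855) (l 532668175)) (a (l 532649743) (l 532629007))) (a (b (l 532631311) (l 532598287)) (c (l 533183503) (b (l 532509967) (l 532470799))))) (a (b (l 532284687) (l 532501007)) (a (b (l 532508175)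 (l 532454927)) (b (b (l 532359439) (l 532461071)) (l 4))))) (b (a (b (l 532602383) (l 532521231)) (b (l 532566543) (l 4))) (b (b (b (l 532188431) (l 4)) (l 4)) (l 4)))))) (a (a (l 4) (l 4)) (l 4))), by decide +kernel⟩

def k74_A00mm_202_s3 : ∃ t, chk3 f_A00mm_202_s3 t 1 7 1 = true :=
  ⟨(a (a (l 2) (a (l 2) (a (l 2) (l 4)))) (l 4)), by decide +kernel⟩

theorem t75_A00mm_202_s3 : ∃ t, chk3 f_A00mm_202_s3 t 1 13 1 = true := ex3_c k72_A00mm_202_s3 k73_A00mm_202_s3

theorem t76_A00mm_202_s3 : ∃ t, chk3 f_A00mm_202_s3 t 2 12 1 = true := ex3_c k69_A00mm_202_s3 k70_A00mm_202_s3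

theorem t77_A00mm_202_s3 : ∃ t, chk3 f_A00mm_202_s3 t 1 12 1 = true := ex3_a t76_A00mm_202_s3 k71_A00mm_202_s3

theorem t78_A00mm_202_s3 : ∃ t, chk3 f_A00mm_202_s3 t 1 6 1 = true := ex3_b t77_A00mm_202_s3 t75_A00mm_202_s3

theorem t79_A00mm_202_s3 : ∃ t, chk3 f_A00mm_202_s3 t 1 3 1 = true := ex3_b t78_A00mm_202_s3 k74_A00mm_202_s3

theorem t80_A00mm_202_s3 : ∃ t, chk3 f_A00mm_202_s3 t 26 11 1 = true := ex3_b k65_A00mm_202_s3 k66_A00mm_202_s3

theorem t81_A00mm_202_s3 : ∃ t, chk3 f_A00mm_202_s3 t 13 11 1 = true := ex3_a t80_A00mm_202_s3 k67_A00mm_202_s3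

theorem t82_A00mm_202_s3 : ∃ t, chk3 f_A00mm_202_s3 t 6 11 1 = true := ex3_a k64_A00mm_202_s3 t81_A00mm_202_s3

theorem t83_A00mm_202_s3 : ∃ t, chk3 f_A00mm_202_s3 t 3 11 1 = true := ex3_a t82_A00mm_202_s3 k68_A00mm_202_s3

theorem t84_A00mm_202_s3 : ∃ t, chk3 f_A00mm_202_s3 t 27 10 1 = true := ex3_b k61_A00mm_202_s3 k62_A00mm_202_s3

theorem t85_A00mm_202_s3 : ∃ t, chk3 f_A00mm_202_s3 t 26 21 1 = true := ex3_a k59_A00mm_202_s3 k60_A00mm_202_s3

theorem t86_A00mm_202_s3 : ∃ t, chk3 f_A00mm_202_s3 t 26 10 1 = true := ex3_b k58_A00mm_202_s3 t85_A00mm_202_s3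

theorem t87_A00mm_202_s3 : ∃ t, chk3 f_A00mm_202_s3 t 13 10 1 = true := ex3_a t86_A00mm_202_s3 t84_A00mm_202_s3

theorem t88_A00mm_202_s3 : ∃ t, chk3 f_A00mm_202_s3 t 12 20 1 = true := ex3_a k55_A00mm_202_s3 k56_A00mm_202_s3

theorem t89_A00mm_202_s3 : ∃ t, chk3 f_A00mm_202_s3 t 12 10 1 = true := ex3_b t88_A00mm_202_s3 k57_A00mm_202_s3

theorem t90_A00mm_202_s3 : ∃ t, chk3 f_A00mm_202_s3 t 6 10 1 = true := ex3_a t89_A00mm_202_s3 t87_A00mm_202_s3

theorem t91_A00mm_202_s3 : ∃ t, chk3 f_A00mm_202_s3 t 3 10 1 = true := ex3_a t90_A00mm_202_s3 k63_A00mm_202_s3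

theorem t92_A00mm_202_s3 : ∃ t, chk3 f_A00mm_202_s3 t 3 5 1 = true := ex3_b t91_A00mm_202_s3 t83_A00mm_202_s3

theorem t93_A00mm_202_s3 : ∃ t, chk3 f_A00mm_202_s3 t 28 19 1 = true := ex3_a k51_A00mm_202_s3 k52_A00mm_202_s3

theorem t94_A00mm_202_s3 : ∃ t, chk3 f_A00mm_202_s3 t 14 19 1 = true := ex3_a t93_A00mm_202_s3 k53_A00mm_202_s3

theorem t95_A00mm_202_s3 : ∃ t, chk3 f_A00mm_202_s3 t 7 19 1 = true := ex3_a t94_A00mm_202_s3 k54_A00mm_202_s3

theorem t96_A00mm_202_s3 : ∃ t, chk3 f_A00mm_202_s3 t 59 18 1 = true := ex3_a k48_A00mm_202_s3 k49_A00mm_202_s3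

theorem t97_A00mm_202_s3 : ∃ t, chk3 f_A00mm_202_s3 t 29 18 1 = true := ex3_a k47_A00mm_202_s3 t96_A00mm_202_s3

theorem t98_A00mm_202_s3 : ∃ t, chk3 f_A00mm_202_s3 t 28 18 1 = true := ex3_a k45_A00mm_202_s3 k46_A00mm_202_s3

theorem t99_A00mm_202_s3 : ∃ t, chk3 f_A00mm_202_s3 t 14 18 1 = true := ex3_a t98_A00mm_202_s3 t97_A00mm_202_s3

theorem t100_A00mm_202_s3 : ∃ t, chk3 f_A00mm_202_s3 t 7 18 1 = true := ex3_a t99_A00mm_202_s3 k50_A00mm_202_s3

theorem t101_A00mm_202_s3 : ∃ t, chk3 f_A00mm_202_s3 t 7 9 1 = true := ex3_b t100_A00mm_202_s3 t95_A00mm_202_s3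

theorem t102_A00mm_202_s3 : ∃ t, chk3 f_A00mm_202_s3 t 60 35 1 = true := ex3_a k41_A00mm_202_s3 k42_A00mm_202_s3

theorem t103_A00mm_202_s3 : ∃ t, chk3 f_A00mm_202_s3 t 30 35 1 = true := ex3_a t102_A00mm_202_s3 k43_A00mm_202_s3

theorem t104_A00mm_202_s3 : ∃ t, chk3 f_A00mm_202_s3 t 15 35 1 = true := ex3_a t103_A00mm_202_s3 k44_A00mm_202_s3

theorem t105_A00mm_202_s3 : ∃ t, chk3 f_A00mm_202_s3 t 61 34 1 = true := ex3_a k38_A00mm_202_s3 k39_A00mm_202_s3

theorem t106_A00mm_202_s3 : ∃ t, chk3 f_A00mm_202_s3 t 60 34 1 = true := ex3_a k36_A00mm_202_s3 k37_A00mm_202_s3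

theorem t107_A00mm_202_s3 : ∃ t, chk3 f_A00mm_202_s3 t 30 34 1 = true := ex3_a t106_A00mm_202_s3 t105_A00mm_202_s3

theorem t108_A00mm_202_s3 : ∃ t, chk3 f_A00mm_202_s3 t 15 34 1 = true := ex3_a t107_A00mm_202_s3 k40_A00mm_202_s3

theorem t109_A00mm_202_s3 : ∃ t, chk3 f_A00mm_202_s3 t 15 17 1 = true := ex3_b t108_A00mm_202_s3 t104_A00mm_202_s3

theorem t110_A00mm_202_s3 : ∃ t, chk3 f_A00mm_202_s3 t 59 17 1 = true := ex3_a k34_A00mm_202_s3 k35_A00mm_202_s3

theorem t111_A00mm_202_s3 : ∃ t, chk3 f_A00mm_202_s3 t 58 17 1 = true := ex3_a k32_A00mm_202_s3 k33_A00mm_202_s3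

theorem t112_A00mm_202_s3 : ∃ t, chk3 f_A00mm_202_s3 t 29 17 1 = true := ex3_a t111_A00mm_202_s3 t110_A00mm_202_s3

theorem t113_A00mm_202_s3 : ∃ t, chk3 f_A00mm_202_s3 t 57 17 1 = true := ex3_b k30_A00mm_202_s3 k31_A00mm_202_s3

theorem t114_A00mm_202_s3 : ∃ t, chk3 f_A00mm_202_s3 t 28 17 1 = true := ex3_a k29_A00mm_202_s3 t113_A00mm_202_s3

theorem t115_A00mm_202_s3 : ∃ t, chk3 f_A00mm_202_s3 t 14 17 1 = true := ex3_a t114_A00mm_202_s3 t112_A00mm_202_s3

theorem t116_A00mm_202_s3 : ∃ t, chk3 f_A00mm_202_s3 t 7 17 1 = true := ex3_a t115_A00mm_202_s3 t109_A00mm_202_s3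

theorem t117_A00mm_202_s3 : ∃ t, chk3 f_A00mm_202_s3 t 59 16 1 = true := ex3_a k26_A00mm_202_s3 k27_A00mm_202_s3

theorem t118_A00mm_202_s3 : ∃ t, chk3 f_A00mm_202_s3 t 58 16 1 = true := ex3_a k24_A00mm_202_s3 k25_A00mm_202_s3

theorem t119_A00mm_202_s3 : ∃ t, chk3 f_A00mm_202_s3 t 29 16 1 = true := ex3_a t118_A00mm_202_s3 t117_A00mm_202_s3

theorem t120_A00mm_202_s3 : ∃ t, chk3 f_A00mm_202_s3 t 57 16 1 = true := ex3_b k22_A00mm_202_s3 k23_A00mm_202_s3

theorem t121_A00mm_202_s3 : ∃ t, chk3 f_A00mm_202_s3 t 56 16 1 = true := ex3_c k20_A00mm_202_s3 k21_A00mm_202_s3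

theorem t122_A00mm_202_s3 : ∃ t, chk3 f_A00mm_202_s3 t 28 16 1 = true := ex3_a t121_A00mm_202_s3 t120_A00mm_202_s3

theorem t123_A00mm_202_s3 : ∃ t, chk3 f_A00mm_202_s3 t 14 16 1 = true := ex3_a t122_A00mm_202_s3 t119_A00mm_202_s3

theorem t124_A00mm_202_s3 : ∃ t, chk3 f_A00mm_202_s3 t 7 16 1 = true := ex3_a t123_A00mm_202_s3 k28_A00mm_202_s3

theorem t125_A00mm_202_s3 : ∃ t, chk3 f_A00mm_202_s3 t 7 8 1 = true := ex3_b t124_A00mm_202_s3 t116_A00mm_202_s3

theorem t126_A00mm_202_s3 : ∃ t, chk3 f_A00mm_202_s3 t 7 4 1 = true := ex3_b t125_A00mm_202_s3 t101_A00mm_202_s3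

theorem t127_A00mm_202_s3 : ∃ t, chk3 f_A00mm_202_s3 t 27 9 3 = true := ex3_b k18_A00mm_202_s3 k19_A00mm_202_s3

theorem t128_A00mm_202_s3 : ∃ t, chk3 f_A00mm_202_s3 t 26 9 3 = true := ex3_b k16_A00mm_202_s3 k17_A00mm_202_s3

theorem t129_A00mm_202_s3 : ∃ t, chk3 f_A00mm_202_s3 t 13 9 3 = true := ex3_a t128_A00mm_202_s3 t127_A00mm_202_s3

theorem t130_A00mm_202_s3 : ∃ t, chk3 f_A00mm_202_s3 t 12 9 3 = true := ex3_b k14_A00mm_202_s3 k15_A00mm_202_s3

theorem t131_A00mm_202_s3 : ∃ t, chk3 f_A00mm_202_s3 t 6 9 3 = true := ex3_a t130_A00mm_202_s3 t129_A00mm_202_s3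

theorem t132_A00mm_202_s3 : ∃ t, chk3 f_A00mm_202_s3 t 27 8 3 = true := ex3_b k12_A00mm_202_s3 k13_A00mm_202_s3

theorem t133_A00mm_202_s3 : ∃ t, chk3 f_A00mm_202_s3 t 26 8 3 = true := ex3_b k10_A00mm_202_s3 k11_A00mm_202_s3

theorem t134_A00mm_202_s3 : ∃ t, chk3 f_A00mm_202_s3 t 13 8 3 = true := ex3_a t133_A00mm_202_s3 t132_A00mm_202_s3

theorem t135_A00mm_202_s3 : ∃ t, chk3 f_A00mm_202_s3 t 6 8 3 = true := ex3_a k9_A00mm_202_s3 t134_A00mm_202_s3

theorem t136_A00mm_202_s3 : ∃ t, chk3 f_A00mm_202_s3 t 6 4 3 = true := ex3_b t135_A00mm_202_s3 t131_A00mm_202_s3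

theorem t137_A00mm_202_s3 : ∃ t, chk3 f_A00mm_202_s3 t 6 9 2 = true := ex3_a k7_A00mm_202_s3 k8_A00mm_202_s3

theorem t138_A00mm_202_s3 : ∃ t, chk3 f_A00mm_202_s3 t 13 8 2 = true := ex3_b k5_A00mm_202_s3 k6_A00mm_202_s3

theorem t139_A00mm_202_s3 : ∃ t, chk3 f_A00mm_202_s3 t 6 8 2 = true := ex3_a k4_A00mm_202_s3 t138_A00mm_202_s3

theorem t140_A00mm_202_s3 : ∃ t, chk3 f_A00mm_202_s3 t 6 4 2 = true := ex3_b t139_A00mm_202_s3 t137_A00mm_202_s3

theorem t141_A00mm_202_s3 : ∃ t, chk3 f_A00mm_202_s3 t 6 4 1 = true := ex3_c t140_A00mm_202_s3 t136_A00mm_202_s3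

theorem t142_A00mm_202_s3 : ∃ t, chk3 f_A00mm_202_s3 t 3 4 1 = true := ex3_a t141_A00mm_202_s3 t126_A00mm_202_s3

theorem t143_A00mm_202_s3 : ∃ t, chk3 f_A00mm_202_s3 t 3 2 1 = true := ex3_b t142_A00mm_202_s3 t92_A00mm_202_s3

theorem t144_A00mm_202_s3 : ∃ t, chk3 f_A00mm_202_s3 t 5 5 1 = true := ex3_b k2_A00mm_202_s3 k3_A00mm_202_s3

theorem t145_A00mm_202_s3 : ∃ t, chk3 f_A00mm_202_s3 t 2 5 1 = true := ex3_a k1_A00mm_202_s3 t144_A00mm_202_s3

theorem t146_A00mm_202_s3 : ∃ t, chk3 f_A00mm_202_s3 t 2 2 1 = true := ex3_b k0_A00mm_202_s3 t145_A00mm_202_s3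

theorem t147_A00mm_202_s3 : ∃ t, chk3 f_A00mm_202_s3 t 1 2 1 = true := ex3_a t146_A00mm_202_s3 t143_A00mm_202_s3

theorem t148_A00mm_202_s3 : ∃ t, chk3 f_A00mm_202_s3 t 1 1 1 = true := ex3_b t147_A00mm_202_s3 t79_A00mm_202_s3

theorem c_A00mm_202_s3 : CertF 0 536870912 0 536870912 858993459 64424510 true false false .pp 2 0 2
    ndB0q2 ndB0q0 pcB2 cut_A00mm_202_s3 xt_A00mm_202_s3 :=
  certF0 (fam := true) (s1 := false) (s2 := false) (a := 2) (b := 0) (c := 2) (cn := .pp) (n1 := ndB0q2) (n2 := ndB0q0) (pc := pcB2) (cut := cut_A00mm_202_s3) (xt := xt_A00mm_202_s3) (P1 := 0) (W1 := 536870912) (P2 := 0) (W2 := 536870912) (P3 := 858993459) (W3 := 64424510)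
    rfl t148_A00mm_202_s3

theorem s_A00mm_202_s3 {κ x : ℝ} (hκ : κ * h0 = ken x) (hx : ((858993459 : ℕ) : ℝ) / S ≤ x)
    (hx' : x ≤ (((858993459 : ℕ) : ℝ) + (64424510 : ℕ)) / S)
    (H : CutA (VFD κ) PP tK tL pcB (Cut.of [[⟨0, 1, 0, 67108864⟩, ⟨1, 0, 0, 67108864⟩, ⟨2, 1, 0, 67108864⟩]]) 2 0 2 0 0 (sgb false) (sgb false) x) :
    AltA (VFD κ) PP tK tL pcB [⟨4, 0, 0, 2845415833⟩] 2 0 2 0 0 (sgb false) (sgb false) x :=
  strip_altAD (m := 2845415833) false rfl hκ (SH.κ0 hκ (SH.hx1 hx).le (SH.hx2 hx').le) (SH.hx1 hx).le (SH.hx2 hx') (covB02).cov (covB00).cov hx hx' c_A00mm_202_s3 H ((okx hx hx').extA (T := tt) (sideB hx hx') hκ rfl rfl (.O 2 false) (.O 0 false) (Or.inl rfl))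

end Pool.Agent.Strip051.G.I8000_8600.Tab.St.C
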