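import Pool.Agent.Strip051.G.I8000_8600.StH
import Pool.Agent.Strip051.G.I8000_8600.StF

/-! # Unit strips 14 (generated) -/

set_option linter.all false
set_option maxRecDepth 100000

namespace Pool.Agent.Strip051.G.I8000_8600.Tab.St.C

open Pool.Agent.Strip051.PB Pool.Agent.Strip051.PB.T Pool.Agent.StripNear Pool.Agent.Strip051.LC
open Pool.Agent.Strip051.G.I8000_8600.Tab Pool.Agent.Strip051.G.I8000_8600.Tab.St

noncomputable def cut_A00mm_203_s1 : Cut := Cut.of [[⟨4, 0, 0, 1449551462⟩]]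

noncomputable def f_A00mm_203_s1 : ℕ → ℕ → ℕ → ℕ → Bool := onCell 0 536870912 0 536870912 858993459 64424510
    (rowF 0 true false false .up 2 0 3 (qsf 0 536870912 0 536870912 3) ndB0q2 ndB0q0 pcB3 cut_A00mm_203_s1 Ext.none)

def k0_A00mm_203_s1 : ∃ t, chk3 f_A00mm_203_s1 t 1 1 1 = true :=
  ⟨(l 6), by decide +kernel⟩

theorem c_A00mm_203_s1 : CertF 0 536870912 0 536870912 858993459 64424510 true false false .up 2 0 3
    ndB0q2 ndB0q0 pcB3 cut_A00mm_203_s1 Ext.none :=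
  certF0 (fam := true) (s1 := false) (s2 := false) (a := 2) (b := 0) (c := 3) (cn := .up) (n1 := ndB0q2) (n2 := ndB0q0) (pc := pcB3) (cut := cut_A00mm_203_s1) (xt := Ext.none) (P1 := 0) (W1 := 536870912) (P2 := 0) (W2 := 536870912) (P3 := 858993459) (W3 := 64424510)
    rfl k0_A00mm_203_s1

theorem s_A00mm_203_s1 {κ x : ℝ} (hκ : κ * h0 = ken x) (hx : ((858993459 : ℕ) : ℝ) / S ≤ x)
    (hx' : x ≤ (((858993459 : ℕ) : ℝ) + (64424510 : ℕ)) / S) :
    AltA (VFD κ) PP tK tL pcB [⟨3, 0, 0, 1449551462⟩] 2 0 3 0 0 (sgb false) (sgb false) x :=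
  strip_altAD (m := 1449551462) true rfl hκ (SH.κ0 hκ (SH.hx1 hx).le (SH.hx2 hx').le) (SH.hx1 hx).le (SH.hx2 hx') (covB02).cov (covB00).cov hx hx' c_A00mm_203_s1 cutA_nil (noExt_A)

noncomputable def cut_A00mm_203_s3 : Cut := Cut.of [[⟨3, 0, 0, 2845415833⟩]]

noncomputable def xt_A00mm_203_s3 : Ext := strExt dd true false false .u2 .u0m .s2m .up 2 0 3 rfl rfl gl3 vv ndB0q2 ndB0q0

noncomputable def f_A00mm_203_s3 : ℕ → ℕ → ℕ → ℕ → Bool := onCell 0 536870912 1610612736 536870912 858993459 64424510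
    (rowF 1 true false false .up 2 0 3 (qsf 0 536870912 0 536870912 3) ndB0q2 ndB0q0 pcB3 cut_A00mm_203_s3 xt_A00mm_203_s3)

def k0_A00mm_203_s3 : ∃ t, chk3 f_A00mm_203_s3 t 4 8 1 = true :=
  ⟨(a (a (b (c (b (l 16604120) (l 16632696)) (b (c (l 16551312) (l 16575496)) (c (l 16577016) (l 16598824)))) (c (b (l 16659912) (l 16685800)) (b (c (l 16601048) (l 16620248)) (b (l 16626376) (l 16552600))))) (c (b (b (l 16643480) (l 16670360)) (b (l 16695888) (b (l 16630272) (l 16642120)))) (b (b (a (l 16670192) (l 16686560)) (b (l 16696056) (l 16707280))) (b (c (l 16631952) (l 16563488)) (c (l 16737040) (l 16603168)))))) (a (b (a (b (c (l 16674384) (c (l 16611648) (l 16628240))) (c (l 16616096) (c (l 16634904) (l 16649584)))) (b (c (l 16695840) (c (l 16630408) (l 16644896))) (c (l 16720544) (c (l 16652904) (l 16665592))))) (a (c (b (l 16724232) (a (l 16742616) (l 16751888))) (b (b (l 16657720) (l 16667688)) (b (l 16677280) (l 16644544))))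 (c (b (a (l 16738928) (l 16748952)) (c (l 16679000) (l 16769624))) (b (c (l 16673912) (l 16642736)) (b (l 16640808) (l 532188687)))))) (b (c (a (b (l 16696960) (b (l 16652064) (l 16663680))) (b (b (l 16650896) (l 16662760)) (c (l 16760688) (l 16725320)))) (a (b (c (l 16649832) (l 16662224)) (c (l 16671584) (l 533357327))) (b (c (l 16753856) (l 16722192)) (c (l 16732936) (l 533300495))))) (a (b (c (c (l 16761120) (l 16725984)) (c (l 16733840) (l 533502479))) (c (c (l 16741224) (l 16757080)) (c (l 533258511) (l 16738736)))) (b (c (b (l 16738376) (l 532584207)) (c (l 533052431) (l 533446159))) (c (a (l 532719119) (l 532685839)) (b (l 532276495) (l 531807247)))))))), by decide +kernel⟩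

def k1_A00mm_203_s3 : ∃ t, chk3 f_A00mm_203_s3 t 8 9 1 = true :=
  ⟨(b (c (a (b (l 16710496) (b (l 16644136) (l 16655224))) (b (b (l 16653680) (l 16748768)) (b (l 16759520) (l 16727904)))) (a (b (c (l 16644328) (l 16573744)) (c (l 16663616) (l 16673848))) (b (b (l 16673448) (l 16682296)) (b (l 16690792) (l 16698936))))) (a (b (b (c (l 16665864) (l 16681064)) (c (l 16676088) (l 16688840))) (c (l 533545487) (l 534140431))) (c (b (a (b (l 16688088) (l 16697776)) (b (l 16703584) (l 16754840))) (a (b (l 16707064) (l 16715872)) (b (l 533393167) (l 16730272)))) (b (b (l 16732968) (c (l 16669936) (l 16716576))) (a (l 534075663) (b (l 16727864) (l 16734712))))))), by decide +kernel⟩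

def k2_A00mm_203_s3 : ∃ t, chk3 f_A00mm_203_s3 t 9 9 1 = true :=
  ⟨(c (a (b (a (b (b (l 16679856) (l 16690416)) (c (l 16745200) (l 16749792))) (b (c (l 16742712) (l 16747800)) (c (l 533087247) (l 533325583)))) (a (b (c (l 534171663) (l 533293071)) (a (l 532058383) (l 532296463))) (b (b (l 533339919) (l 533435663)) (a (l 533601295) (l 533560591))))) (a (b (b (c (l 532816911) (l 533089295)) (b (l 531471375) (a (l 533190159) (l 533151247)))) (b (b (l 533260559) (l 533355023)) (l 533229583))) (b (b (a (l 532894479) (l 532859663)) (c (a (l 533486095) (l 534250255)) (c (l 533653775) (l 532985871)))) (b (c (b (a (l 533085199) (l 533043471)) (a (l 533189135) (l 533138447))) (b (a (l 533321231) (l 533284111)) (l 532576527))) (a (l 533433615) (l 4)))))) (a (b (a (b (c (l 16737632) (l 16661784)) (b (l 16711984) (l 16719824))) (b (b (l 16710744) (l 16718992)) (b (l 533450511) (l 533776143)))) (a (b (b (l 16727352) (l 533924111))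 (b (l 533964303) (l 534001935))) (b (b (l 533829647) (l 533875471)) (a (l 533946639) (l 533922063))))) (a (b (b (b (l 532736783) (l 532531727)) (b (l 533666831) (a (l 533737999) (l 533711631)))) (b (b (l 533779471) (l 533824783)) (l 533884175))) (b (b (a (l 532725519) (l 532963087)) (c (a (l 533224975) (l 532656655)) (a (l 533818895) (l 533793295)))) (b (c (a (l 532818447) (l 533590799)) (c (l 533826319) (l 533980687))) (l 533830671)))))), by decide +kernel⟩

def k3_A00mm_203_s3 : ∃ t, chk3 f_A00mm_203_s3 t 5 4 1 = true :=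
  ⟨(b (a (c (b (a (a (b (l 532460559) (l 533678351)) (b (l 532401679) (a (l 532289551) (l 532258575)))) (a (b (l 532073999) (a (l 532228111) (l 532197903))) (l 533424911))) (c (a (b (a (l 532334863) (a (l 532284943) (l 532255759))) (l 533268751)) (b (a (l 532204303) (l 532143887)) (a (b (l 532311567) (l 4)) (l 4)))) (a (b (a (l 532639503) (l 533114639)) (l 533297679)) (b (a (l 532509711) (l 532446479)) (a (l 531579151) (l 4)))))) (b (a (a (b (c (l 532693775) (l 533087759)) (c (l 532844047) (l 533240591))) (b (c (l 532633871) (l 533027087)) (c (l 532782095) (l 533178895)))) (a (a (b (l 532777999) (l 532927247)) (b (l 532746511) (l 532894735))) (b (l 532698383) (l 532845327)))) (a (b (a (b (l 533146895) (l 533218063)) (b (l 533083919) (l 531543567))) (a (l 533321231) (l 532719119))) (b (a (c (l 532592911) (l 532720655)) (b (l 532952079) (l 4))) (a (a (l 533206799) (l 4)) (l 4)))))) (b (b (a (a (a (l 532552975) (l 533057295))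 (l 4)) (l 4)) (l 4)) (l 4))) (a (a (b (b (c (l 533579023) (a (l 533451279) (l 533384719))) (a (l 533257487) (l 4))) (l 4)) (l 4)) (l 4))), by decide +kernel⟩

def k4_A00mm_203_s3 : ∃ t, chk3 f_A00mm_203_s3 t 2 5 1 = true :=
  ⟨(a (b (c (a (b (a (b (l 533977871) (l 534114063)) (b (a (l 533924879) (b (l 532232975) (l 533927695))) (l 534042639))) (l 2)) (b (a (a (b (c (a (l 533804047) (l 532160271)) (b (l 533853711) (l 532854287))) (b (a (l 533976591) (l 533959439)) (l 534025999))) (a (b (b (l 533744399) (l 533837071)) (b (l 533926927) (l 534003215))) (b (l 533748751) (l 4)))) (b (a (l 533683727) (l 4)) (l 4))) (l 2))) (a (b (a (b (l 534208271) (l 534262287)) (b (a (l 534144783) (b (l 534083855) (l 534115855))) (l 534180367))) (l 2)) (b (b (a (c (a (l 533998607) (l 533943823)) (a (l 534104079) (l 534063887))) (a (l 533954575) (l 4))) (a (c (a (l 534091791) (l 534035471)) (a (b (l 534115855) (l 534132239)) (l 534083599)))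 (l 4))) (l 2)))) (l 2)) (l 4)), by decide +kernel⟩

def k5_A00mm_203_s3 : ∃ t, chk3 f_A00mm_203_s3 t 2 3 1 = true :=
  ⟨(l 2), by decide +kernel⟩

def k6_A00mm_203_s3 : ∃ t, chk3 f_A00mm_203_s3 t 3 1 1 = true :=
  ⟨(b (l 4) (l 2)), by decide +kernel⟩

theorem t7_A00mm_203_s3 : ∃ t, chk3 f_A00mm_203_s3 t 4 9 1 = true := ex3_a k1_A00mm_203_s3 k2_A00mm_203_s3

theorem t8_A00mm_203_s3 : ∃ t, chk3 f_A00mm_203_s3 t 4 4 1 = true := ex3_b k0_A00mm_203_s3 t7_A00mm_203_s3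

theorem t9_A00mm_203_s3 : ∃ t, chk3 f_A00mm_203_s3 t 2 4 1 = true := ex3_a t8_A00mm_203_s3 k3_A00mm_203_s3

theorem t10_A00mm_203_s3 : ∃ t, chk3 f_A00mm_203_s3 t 2 2 1 = true := ex3_b t9_A00mm_203_s3 k4_A00mm_203_s3

theorem t11_A00mm_203_s3 : ∃ t, chk3 f_A00mm_203_s3 t 2 1 1 = true := ex3_b t10_A00mm_203_s3 k5_A00mm_203_s3

theorem t12_A00mm_203_s3 : ∃ t, chk3 f_A00mm_203_s3 t 1 1 1 = true := ex3_a t11_A00mm_203_s3 k6_A00mm_203_s3

theorem c_A00mm_203_s3 : CertF 0 536870912 0 536870912 858993459 64424510 true false false .up 2 0 3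
    ndB0q2 ndB0q0 pcB3 cut_A00mm_203_s3 xt_A00mm_203_s3 :=
  certF1 (fam := true) (s1 := false) (s2 := false) (a := 2) (b := 0) (c := 3) (cn := .up) (n1 := ndB0q2) (n2 := ndB0q0) (pc := pcB3) (cut := cut_A00mm_203_s3) (xt := xt_A00mm_203_s3) (P1 := 0) (W1 := 536870912) (P2 := 0) (W2 := 536870912) (P3 := 858993459) (W3 := 64424510)
    rfl (fun _ => rfl) t12_A00mm_203_s3

theorem s_A00mm_203_s3 {κ x : ℝ} (hκ : κ * h0 = ken x) (hx : ((858993459 : ℕ) : ℝ) / S ≤ x)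
    (hx' : x ≤ (((858993459 : ℕ) : ℝ) + (64424510 : ℕ)) / S) :
    AltA (VFD κ) PP tK tL pcB [⟨4, 0, 0, 2845415833⟩] 2 0 3 0 0 (sgb false) (sgb false) x :=
  strip_altAD (m := 2845415833) false rfl hκ (SH.κ0 hκ (SH.hx1 hx).le (SH.hx2 hx').le) (SH.hx1 hx).le (SH.hx2 hx') (covB02).cov (covB00).cov hx hx' c_A00mm_203_s3 cutA_nil ((okx hx hx').extA (T := tt) (sideB hx hx') hκ rfl rfl (.O 2 false) (.O 0 false) (Or.inr rfl))

noncomputable def cut_A00mm_213_s1 : Cut := Cut.of [[⟨4, 0, 0, 1449551462⟩]]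

noncomputable def f_A00mm_213_s1 : ℕ → ℕ → ℕ → ℕ → Bool := onCell 0 536870912 536870912 536870912 858993459 64424510
    (rowF 0 true false false .pnn 2 1 3 (qsf 0 536870912 536870912 536870912 3) ndB0q2 ndB0q1 pcB3 cut_A00mm_213_s1 Ext.none)

def k0_A00mm_213_s1 : ∃ t, chk3 f_A00mm_213_s1 t 1 1 1 = true :=
  ⟨(l 6), by decide +kernel⟩

theorem c_A00mm_213_s1 : CertF 0 536870912 536870912 536870912 858993459 64424510 true false false .pnn 2 1 3
    ndB0q2 ndB0q1 pcB3 cut_A00mm_213_s1 Ext.none :=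
  certF0 (fam := true) (s1 := false) (s2 := false) (a := 2) (b := 1) (c := 3) (cn := .pnn) (n1 := ndB0q2) (n2 := ndB0q1) (pc := pcB3) (cut := cut_A00mm_213_s1) (xt := Ext.none) (P1 := 0) (W1 := 536870912) (P2 := 536870912) (W2 := 536870912) (P3 := 858993459) (W3 := 64424510)
    rfl k0_A00mm_213_s1

theorem s_A00mm_213_s1 {κ x : ℝ} (hκ : κ * h0 = ken x) (hx : ((858993459 : ℕ) : ℝ) / S ≤ x)
    (hx' : x ≤ (((858993459 : ℕ) : ℝ) + (64424510 : ℕ)) / S) :
    AltA (VFD κ) PP tK tL pcB [⟨3, 0, 0, 1449551462⟩] 2 1 3 0 0 (sgb false) (sgb false) x :=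
  strip_altAD (m := 1449551462) true rfl hκ (SH.κ0 hκ (SH.hx1 hx).le (SH.hx2 hx').le) (SH.hx1 hx).le (SH.hx2 hx') (covB02).cov (covB01).cov hx hx' c_A00mm_213_s1 cutA_nil (noExt_A)

noncomputable def cut_A00mm_213_s3 : Cut := Cut.of [[⟨3, 0, 0, 2845415833⟩]]

noncomputable def xt_A00mm_213_s3 : Ext := strExt dd true false false .u2 .u0m .s2m .pnn 2 1 3 rfl rfl gl3 vv ndB0q2 ndB0q1

noncomputable def f_A00mm_213_s3 : ℕ → ℕ → ℕ → ℕ → Bool := onCell 0 536870912 536870912 536870912 858993459 64424510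
    (rowF 0 true false false .pnn 2 1 3 (qsf 0 536870912 536870912 536870912 3) ndB0q2 ndB0q1 pcB3 cut_A00mm_213_s3 xt_A00mm_213_s3)

def k0_A00mm_213_s3 : ∃ t, chk3 f_A00mm_213_s3 t 1 1 1 = true :=
  ⟨(a (b (b (a (b (b (b (a (c (l 534174735) (l 534257935)) (a (a (l 534118159) (l 4)) (l 4))) (a (c (l 534272527) (l 534273295)) (l 4))) (a (c (l 533593103) (a (l 534235407) (l 534187023))) (l 4))) (a (b (b (l 533248015) (l 4)) (l 4)) (l 4))) (l 4)) (l 4)) (l 4)) (l 4)), by decide +kernel⟩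

theorem c_A00mm_213_s3 : CertF 0 536870912 536870912 536870912 858993459 64424510 true false false .pnn 2 1 3
    ndB0q2 ndB0q1 pcB3 cut_A00mm_213_s3 xt_A00mm_213_s3 :=
  certF0 (fam := true) (s1 := false) (s2 := false) (a := 2) (b := 1) (c := 3) (cn := .pnn) (n1 := ndB0q2) (n2 := ndB0q1) (pc := pcB3) (cut := cut_A00mm_213_s3) (xt := xt_A00mm_213_s3) (P1 := 0) (W1 := 536870912) (P2 := 536870912) (W2 := 536870912) (P3 := 858993459) (W3 := 64424510)
    rfl k0_A00mm_213_s3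

theorem s_A00mm_213_s3 {κ x : ℝ} (hκ : κ * h0 = ken x) (hx : ((858993459 : ℕ) : ℝ) / S ≤ x)
    (hx' : x ≤ (((858993459 : ℕ) : ℝ) + (64424510 : ℕ)) / S) :
    AltA (VFD κ) PP tK tL pcB [⟨4, 0, 0, 2845415833⟩] 2 1 3 0 0 (sgb false) (sgb false) x :=
  strip_altAD (m := 2845415833) false rfl hκ (SH.κ0 hκ (SH.hx1 hx).le (SH.hx2 hx').le) (SH.hx1 hx).le (SH.hx2 hx') (covB02).cov (covB01).cov hx hx' c_A00mm_213_s3 cutA_nil ((okx hx hx').extA (T := tt) (sideB hx hx') hκ rfl rfl (.O 2 false) (.O 1 false) (Or.inr rfl))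

noncomputable def cut_A04pp_001_s1 : Cut := Cut.of [[⟨4, 0, 0, 1449551462⟩]]

noncomputable def f_A04pp_001_s1 : ℕ → ℕ → ℕ → ℕ → Bool := onCell 0 536870912 0 536870912 858993459 64424510
    (rowF 0 true true true .up 0 0 1 (qsf 0 536870912 0 536870912 1) ndB0q0 ndB4q0 pcB1 cut_A04pp_001_s1 Ext.none)

def k0_A04pp_001_s1 : ∃ t, chk3 f_A04pp_001_s1 t 1 1 1 = true :=
  ⟨(l 4), by decide +kernel⟩

theorem c_A04pp_001_s1 : CertF 0 536870912 0 536870912 858993459 64424510 true true true .up 0 0 1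
    ndB0q0 ndB4q0 pcB1 cut_A04pp_001_s1 Ext.none :=
  certF0 (fam := true) (s1 := true) (s2 := true) (a := 0) (b := 0) (c := 1) (cn := .up) (n1 := ndB0q0) (n2 := ndB4q0) (pc := pcB1) (cut := cut_A04pp_001_s1) (xt := Ext.none) (P1 := 0) (W1 := 536870912) (P2 := 0) (W2 := 536870912) (P3 := 858993459) (W3 := 64424510)
    rfl k0_A04pp_001_s1

theorem s_A04pp_001_s1 {κ x : ℝ} (hκ : κ * h0 = ken x) (hx : ((858993459 : ℕ) : ℝ) / S ≤ x)
    (hx' : x ≤ (((858993459 : ℕ) : ℝ) + (64424510 : ℕ)) / S) :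
    AltA (VFD κ) PP tK tL pcB [⟨3, 0, 0, 1449551462⟩] 0 0 1 0 4 (sgb true) (sgb true) x :=
  strip_altAD (m := 1449551462) true rfl hκ (SH.κ0 hκ (SH.hx1 hx).le (SH.hx2 hx').le) (SH.hx1 hx).le (SH.hx2 hx') (covB00).cov (covB40).cov hx hx' c_A04pp_001_s1 cutA_nil (noExt_A)

noncomputable def cut_A04pp_011_s1 : Cut := Cut.of [[⟨4, 0, 0, 1449551462⟩]]

noncomputable def f_A04pp_011_s1 : ℕ → ℕ → ℕ → ℕ → Bool := onCell 0 536870912 536870912 536870912 858993459 64424510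
    (rowF 0 true true true .pnn 0 1 1 (qsf 0 536870912 536870912 536870912 1) ndB0q0 ndB4q1 pcB1 cut_A04pp_011_s1 Ext.none)

def k0_A04pp_011_s1 : ∃ t, chk3 f_A04pp_011_s1 t 1 1 1 = true :=
  ⟨(l 4), by decide +kernel⟩

theorem c_A04pp_011_s1 : CertF 0 536870912 536870912 536870912 858993459 64424510 true true true .pnn 0 1 1
    ndB0q0 ndB4q1 pcB1 cut_A04pp_011_s1 Ext.none :=
  certF0 (fam := true) (s1 := true) (s2 := true) (a := 0) (b := 1) (c := 1) (cn := .pnn) (n1 := ndB0q0) (n2 := ndB4q1) (pc := pcB1) (cut := cut_A04pp_011_s1) (xt := Ext.none) (P1 := 0) (W1 := 536870912) (P2 := 536870912) (W2 := 536870912) (P3 := 858993459) (W3 := 64424510)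
    rfl k0_A04pp_011_s1

theorem s_A04pp_011_s1 {κ x : ℝ} (hκ : κ * h0 = ken x) (hx : ((858993459 : ℕ) : ℝ) / S ≤ x)
    (hx' : x ≤ (((858993459 : ℕ) : ℝ) + (64424510 : ℕ)) / S) :
    AltA (VFD κ) PP tK tL pcB [⟨3, 0, 0, 1449551462⟩] 0 1 1 0 4 (sgb true) (sgb true) x :=
  strip_altAD (m := 1449551462) true rfl hκ (SH.κ0 hκ (SH.hx1 hx).le (SH.hx2 hx').le) (SH.hx1 hx).le (SH.hx2 hx') (covB00).cov (covB41).cov hx hx' c_A04pp_011_s1 cutA_nil (noExt_A)

noncomputable def cut_A04pp_012_s1 : Cut := Cut.of [[⟨4, 0, 0, 1449551462⟩]]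

noncomputable def f_A04pp_012_s1 : ℕ → ℕ → ℕ → ℕ → Bool := onCell 0 536870912 536870912 536870912 858993459 64424510
    (rowF 0 true true true .pnp 0 1 2 (qsf 0 536870912 536870912 536870912 2) ndB0q0 ndB4q1 pcB2 cut_A04pp_012_s1 Ext.none)

def k0_A04pp_012_s1 : ∃ t, chk3 f_A04pp_012_s1 t 1 1 1 = true :=
  ⟨(l 4), by decide +kernel⟩

theorem c_A04pp_012_s1 : CertF 0 536870912 536870912 536870912 858993459 64424510 true true true .pnp 0 1 2
    ndB0q0 ndB4q1 pcB2 cut_A04pp_012_s1 Ext.none :=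
  certF0 (fam := true) (s1 := true) (s2 := true) (a := 0) (b := 1) (c := 2) (cn := .pnp) (n1 := ndB0q0) (n2 := ndB4q1) (pc := pcB2) (cut := cut_A04pp_012_s1) (xt := Ext.none) (P1 := 0) (W1 := 536870912) (P2 := 536870912) (W2 := 536870912) (P3 := 858993459) (W3 := 64424510)
    rfl k0_A04pp_012_s1

theorem s_A04pp_012_s1 {κ x : ℝ} (hκ : κ * h0 = ken x) (hx : ((858993459 : ℕ) : ℝ) / S ≤ x)
    (hx' : x ≤ (((858993459 : ℕ) : ℝ) + (64424510 : ℕ)) / S) :
    AltA (VFD κ) PP tK tL pcB [⟨3, 0, 0, 1449551462⟩] 0 1 2 0 4 (sgb true) (sgb true) x :=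
  strip_altAD (m := 1449551462) true rfl hκ (SH.κ0 hκ (SH.hx1 hx).le (SH.hx2 hx').le) (SH.hx1 hx).le (SH.hx2 hx') (covB00).cov (covB41).cov hx hx' c_A04pp_012_s1 cutA_nil (noExt_A)

noncomputable def cut_A04pp_022_s1 : Cut := Cut.of [[⟨4, 0, 0, 1449551462⟩]]

noncomputable def f_A04pp_022_s1 : ℕ → ℕ → ℕ → ℕ → Bool := onCell 0 536870912 1073741824 536870912 858993459 64424510
    (rowF 0 true true true .pp 0 2 2 (qsf 0 536870912 1073741824 536870912 2) ndB0q0 ndB4q2 pcB2 cut_A04pp_022_s1 Ext.none)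

def k0_A04pp_022_s1 : ∃ t, chk3 f_A04pp_022_s1 t 1 1 1 = true :=
  ⟨(l 4), by decide +kernel⟩

theorem c_A04pp_022_s1 : CertF 0 536870912 1073741824 536870912 858993459 64424510 true true true .pp 0 2 2
    ndB0q0 ndB4q2 pcB2 cut_A04pp_022_s1 Ext.none :=
  certF0 (fam := true) (s1 := true) (s2 := true) (a := 0) (b := 2) (c := 2) (cn := .pp) (n1 := ndB0q0) (n2 := ndB4q2) (pc := pcB2) (cut := cut_A04pp_022_s1) (xt := Ext.none) (P1 := 0) (W1 := 536870912) (P2 := 1073741824) (W2 := 536870912) (P3 := 858993459) (W3 := 64424510)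
    rfl k0_A04pp_022_s1

theorem s_A04pp_022_s1 {κ x : ℝ} (hκ : κ * h0 = ken x) (hx : ((858993459 : ℕ) : ℝ) / S ≤ x)
    (hx' : x ≤ (((858993459 : ℕ) : ℝ) + (64424510 : ℕ)) / S) :
    AltA (VFD κ) PP tK tL pcB [⟨3, 0, 0, 1449551462⟩] 0 2 2 0 4 (sgb true) (sgb true) x :=
  strip_altAD (m := 1449551462) true rfl hκ (SH.κ0 hκ (SH.hx1 hx).le (SH.hx2 hx').le) (SH.hx1 hx).le (SH.hx2 hx') (covB00).cov (covB42).cov hx hx' c_A04pp_022_s1 cutA_nil (noExt_A)

noncomputable def cut_A04pp_023_s1 : Cut := Cut.of [[⟨4, 0, 0, 1449551462⟩]]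

noncomputable def f_A04pp_023_s1 : ℕ → ℕ → ℕ → ℕ → Bool := onCell 0 536870912 1073741824 536870912 858993459 64424510
    (rowF 0 true true true .up 0 2 3 (qsf 0 536870912 1073741824 536870912 3) ndB0q0 ndB4q2 pcB3 cut_A04pp_023_s1 Ext.none)

def k0_A04pp_023_s1 : ∃ t, chk3 f_A04pp_023_s1 t 1 1 1 = true :=
  ⟨(l 4), by decide +kernel⟩

theorem c_A04pp_023_s1 : CertF 0 536870912 1073741824 536870912 858993459 64424510 true true true .up 0 2 3
    ndB0q0 ndB4q2 pcB3 cut_A04pp_023_s1 Ext.none :=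
  certF0 (fam := true) (s1 := true) (s2 := true) (a := 0) (b := 2) (c := 3) (cn := .up) (n1 := ndB0q0) (n2 := ndB4q2) (pc := pcB3) (cut := cut_A04pp_023_s1) (xt := Ext.none) (P1 := 0) (W1 := 536870912) (P2 := 1073741824) (W2 := 536870912) (P3 := 858993459) (W3 := 64424510)
    rfl k0_A04pp_023_s1

theorem s_A04pp_023_s1 {κ x : ℝ} (hκ : κ * h0 = ken x) (hx : ((858993459 : ℕ) : ℝ) / S ≤ x)
    (hx' : x ≤ (((858993459 : ℕ) : ℝ) + (64424510 : ℕ)) / S) :
    AltA (VFD κ) PP tK tL pcB [⟨3, 0, 0, 1449551462⟩] 0 2 3 0 4 (sgb true) (sgb true) x :=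
  strip_altAD (m := 1449551462) true rfl hκ (SH.κ0 hκ (SH.hx1 hx).le (SH.hx2 hx').le) (SH.hx1 hx).le (SH.hx2 hx') (covB00).cov (covB42).cov hx hx' c_A04pp_023_s1 cutA_nil (noExt_A)

noncomputable def cut_A04pp_033_s1 : Cut := Cut.of [[⟨4, 0, 0, 1449551462⟩]]

noncomputable def f_A04pp_033_s1 : ℕ → ℕ → ℕ → ℕ → Bool := onCell 0 536870912 0 1230186008 858993459 64424510
    (rowF 0 true true true .pnn 0 3 3 (qsf 0 536870912 0 1230186008 3) ndB0q0 ndB4q3 pcB3 cut_A04pp_033_s1 Ext.none)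

def k0_A04pp_033_s1 : ∃ t, chk3 f_A04pp_033_s1 t 1 1 1 = true :=
  ⟨(l 4), by decide +kernel⟩

theorem c_A04pp_033_s1 : CertF 0 536870912 0 1230186008 858993459 64424510 true true true .pnn 0 3 3
    ndB0q0 ndB4q3 pcB3 cut_A04pp_033_s1 Ext.none :=
  certF0 (fam := true) (s1 := true) (s2 := true) (a := 0) (b := 3) (c := 3) (cn := .pnn) (n1 := ndB0q0) (n2 := ndB4q3) (pc := pcB3) (cut := cut_A04pp_033_s1) (xt := Ext.none) (P1 := 0) (W1 := 536870912) (P2 := 0) (W2 := 1230186008) (P3 := 858993459) (W3 := 64424510)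
    rfl k0_A04pp_033_s1

theorem s_A04pp_033_s1 {κ x : ℝ} (hκ : κ * h0 = ken x) (hx : ((858993459 : ℕ) : ℝ) / S ≤ x)
    (hx' : x ≤ (((858993459 : ℕ) : ℝ) + (64424510 : ℕ)) / S) :
    AltA (VFD κ) PP tK tL pcB [⟨3, 0, 0, 1449551462⟩] 0 3 3 0 4 (sgb true) (sgb true) x :=
  strip_altAD (m := 1449551462) true rfl hκ (SH.κ0 hκ (SH.hx1 hx).le (SH.hx2 hx').le) (SH.hx1 hx).le (SH.hx2 hx') (covB00).cov (covB43).cov hx hx' c_A04pp_033_s1 cutA_nil (noExt_A)

noncomputable def cut_A04pp_101_s1 : Cut := Cut.of [[⟨4, 0, 0, 1449551462⟩]]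

noncomputable def f_A04pp_101_s1 : ℕ → ℕ → ℕ → ℕ → Bool := onCell 536870912 536870912 0 536870912 858993459 64424510
    (rowF 0 true true true .npn 1 0 1 (qsf 536870912 536870912 0 536870912 1) ndB0q1 ndB4q0 pcB1 cut_A04pp_101_s1 Ext.none)

def k0_A04pp_101_s1 : ∃ t, chk3 f_A04pp_101_s1 t 1 1 1 = true :=
  ⟨(l 4), by decide +kernel⟩

theorem c_A04pp_101_s1 : CertF 536870912 536870912 0 536870912 858993459 64424510 true true true .npn 1 0 1
    ndB0q1 ndB4q0 pcB1 cut_A04pp_101_s1 Ext.none :=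
  certF0 (fam := true) (s1 := true) (s2 := true) (a := 1) (b := 0) (c := 1) (cn := .npn) (n1 := ndB0q1) (n2 := ndB4q0) (pc := pcB1) (cut := cut_A04pp_101_s1) (xt := Ext.none) (P1 := 536870912) (W1 := 536870912) (P2 := 0) (W2 := 536870912) (P3 := 858993459) (W3 := 64424510)
    rfl k0_A04pp_101_s1

theorem s_A04pp_101_s1 {κ x : ℝ} (hκ : κ * h0 = ken x) (hx : ((858993459 : ℕ) : ℝ) / S ≤ x)
    (hx' : x ≤ (((858993459 : ℕ) : ℝ) + (64424510 : ℕ)) / S) :
    AltA (VFD κ) PP tK tL pcB [⟨3, 0, 0, 1449551462⟩] 1 0 1 0 4 (sgb true) (sgb true) x :=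
  strip_altAD (m := 1449551462) true rfl hκ (SH.κ0 hκ (SH.hx1 hx).le (SH.hx2 hx').le) (SH.hx1 hx).le (SH.hx2 hx') (covB01).cov (covB40).cov hx hx' c_A04pp_101_s1 cutA_nil (noExt_A)

noncomputable def cut_A04pp_102_s1 : Cut := Cut.of [[⟨4, 0, 0, 1449551462⟩]]

noncomputable def f_A04pp_102_s1 : ℕ → ℕ → ℕ → ℕ → Bool := onCell 536870912 536870912 0 536870912 858993459 64424510
    (rowF 0 true true true .npp 1 0 2 (qsf 536870912 536870912 0 536870912 2) ndB0q1 ndB4q0 pcB2 cut_A04pp_102_s1 Ext.none)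

def k0_A04pp_102_s1 : ∃ t, chk3 f_A04pp_102_s1 t 1 1 1 = true :=
  ⟨(l 4), by decide +kernel⟩

theorem c_A04pp_102_s1 : CertF 536870912 536870912 0 536870912 858993459 64424510 true true true .npp 1 0 2
    ndB0q1 ndB4q0 pcB2 cut_A04pp_102_s1 Ext.none :=
  certF0 (fam := true) (s1 := true) (s2 := true) (a := 1) (b := 0) (c := 2) (cn := .npp) (n1 := ndB0q1) (n2 := ndB4q0) (pc := pcB2) (cut := cut_A04pp_102_s1) (xt := Ext.none) (P1 := 536870912) (W1 := 536870912) (P2 := 0) (W2 := 536870912) (P3 := 858993459) (W3 := 64424510)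
    rfl k0_A04pp_102_s1

theorem s_A04pp_102_s1 {κ x : ℝ} (hκ : κ * h0 = ken x) (hx : ((858993459 : ℕ) : ℝ) / S ≤ x)
    (hx' : x ≤ (((858993459 : ℕ) : ℝ) + (64424510 : ℕ)) / S) :
    AltA (VFD κ) PP tK tL pcB [⟨3, 0, 0, 1449551462⟩] 1 0 2 0 4 (sgb true) (sgb true) x :=
  strip_altAD (m := 1449551462) true rfl hκ (SH.κ0 hκ (SH.hx1 hx).le (SH.hx2 hx').le) (SH.hx1 hx).le (SH.hx2 hx') (covB01).cov (covB40).cov hx hx' c_A04pp_102_s1 cutA_nil (noExt_A)

noncomputable def cut_A04pp_112_s1 : Cut := Cut.of [[⟨4, 0, 0, 1449551462⟩]]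

noncomputable def f_A04pp_112_s1 : ℕ → ℕ → ℕ → ℕ → Bool := onCell 536870912 536870912 536870912 536870912 858993459 64424510
    (rowF 0 true true true .dn 1 1 2 (qsf 536870912 536870912 536870912 536870912 2) ndB0q1 ndB4q1 pcB2 cut_A04pp_112_s1 Ext.none)

def k0_A04pp_112_s1 : ∃ t, chk3 f_A04pp_112_s1 t 1 1 1 = true :=
  ⟨(l 4), by decide +kernel⟩

theorem c_A04pp_112_s1 : CertF 536870912 536870912 536870912 536870912 858993459 64424510 true true true .dn 1 1 2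
    ndB0q1 ndB4q1 pcB2 cut_A04pp_112_s1 Ext.none :=
  certF0 (fam := true) (s1 := true) (s2 := true) (a := 1) (b := 1) (c := 2) (cn := .dn) (n1 := ndB0q1) (n2 := ndB4q1) (pc := pcB2) (cut := cut_A04pp_112_s1) (xt := Ext.none) (P1 := 536870912) (W1 := 536870912) (P2 := 536870912) (W2 := 536870912) (P3 := 858993459) (W3 := 64424510)
    rfl k0_A04pp_112_s1

theorem s_A04pp_112_s1 {κ x : ℝ} (hκ : κ * h0 = ken x) (hx : ((858993459 : ℕ) : ℝ) / S ≤ x)
    (hx' : x ≤ (((858993459 : ℕ) : ℝ) + (64424510 : ℕ)) / S) :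
    AltA (VFD κ) PP tK tL pcB [⟨3, 0, 0, 1449551462⟩] 1 1 2 0 4 (sgb true) (sgb true) x :=
  strip_altAD (m := 1449551462) true rfl hκ (SH.κ0 hκ (SH.hx1 hx).le (SH.hx2 hx').le) (SH.hx1 hx).le (SH.hx2 hx') (covB01).cov (covB41).cov hx hx' c_A04pp_112_s1 cutA_nil (noExt_A)

noncomputable def cut_A04pp_113_s1 : Cut := Cut.of [[⟨4, 0, 0, 1449551462⟩]]

noncomputable def f_A04pp_113_s1 : ℕ → ℕ → ℕ → ℕ → Bool := onCell 536870912 536870912 536870912 536870912 858993459 64424510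
    (rowF 0 true true true .nn 1 1 3 (qsf 536870912 536870912 536870912 536870912 3) ndB0q1 ndB4q1 pcB3 cut_A04pp_113_s1 Ext.none)

def k0_A04pp_113_s1 : ∃ t, chk3 f_A04pp_113_s1 t 1 1 1 = true :=
  ⟨(l 4), by decide +kernel⟩

theorem c_A04pp_113_s1 : CertF 536870912 536870912 536870912 536870912 858993459 64424510 true true true .nn 1 1 3
    ndB0q1 ndB4q1 pcB3 cut_A04pp_113_s1 Ext.none :=
  certF0 (fam := true) (s1 := true) (s2 := true) (a := 1) (b := 1) (c := 3) (cn := .nn) (n1 := ndB0q1) (n2 := ndB4q1) (pc := pcB3) (cut := cut_A04pp_113_s1) (xt := Ext.none) (P1 := 536870912) (W1 := 536870912) (P2 := 536870912) (W2 := 536870912) (P3 := 858993459) (W3 := 64424510)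
    rfl k0_A04pp_113_s1

theorem s_A04pp_113_s1 {κ x : ℝ} (hκ : κ * h0 = ken x) (hx : ((858993459 : ℕ) : ℝ) / S ≤ x)
    (hx' : x ≤ (((858993459 : ℕ) : ℝ) + (64424510 : ℕ)) / S) :
    AltA (VFD κ) PP tK tL pcB [⟨3, 0, 0, 1449551462⟩] 1 1 3 0 4 (sgb true) (sgb true) x :=
  strip_altAD (m := 1449551462) true rfl hκ (SH.κ0 hκ (SH.hx1 hx).le (SH.hx2 hx').le) (SH.hx1 hx).le (SH.hx2 hx') (covB01).cov (covB41).cov hx hx' c_A04pp_113_s1 cutA_nil (noExt_A)

noncomputable def cut_A04pp_123_s1 : Cut := Cut.of [[⟨4, 0, 0, 1449551462⟩]]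

noncomputable def f_A04pp_123_s1 : ℕ → ℕ → ℕ → ℕ → Bool := onCell 536870912 536870912 1073741824 536870912 858993459 64424510
    (rowF 0 true true true .npn 1 2 3 (qsf 536870912 536870912 1073741824 536870912 3) ndB0q1 ndB4q2 pcB3 cut_A04pp_123_s1 Ext.none)

def k0_A04pp_123_s1 : ∃ t, chk3 f_A04pp_123_s1 t 1 1 1 = true :=
  ⟨(l 4), by decide +kernel⟩

theorem c_A04pp_123_s1 : CertF 536870912 536870912 1073741824 536870912 858993459 64424510 true true true .npn 1 2 3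
    ndB0q1 ndB4q2 pcB3 cut_A04pp_123_s1 Ext.none :=
  certF0 (fam := true) (s1 := true) (s2 := true) (a := 1) (b := 2) (c := 3) (cn := .npn) (n1 := ndB0q1) (n2 := ndB4q2) (pc := pcB3) (cut := cut_A04pp_123_s1) (xt := Ext.none) (P1 := 536870912) (W1 := 536870912) (P2 := 1073741824) (W2 := 536870912) (P3 := 858993459) (W3 := 64424510)
    rfl k0_A04pp_123_s1

theorem s_A04pp_123_s1 {κ x : ℝ} (hκ : κ * h0 = ken x) (hx : ((858993459 : ℕ) : ℝ) / S ≤ x)
    (hx' : x ≤ (((858993459 : ℕ) : ℝ) + (64424510 : ℕ)) / S) :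
    AltA (VFD κ) PP tK tL pcB [⟨3, 0, 0, 1449551462⟩] 1 2 3 0 4 (sgb true) (sgb true) x :=
  strip_altAD (m := 1449551462) true rfl hκ (SH.κ0 hκ (SH.hx1 hx).le (SH.hx2 hx').le) (SH.hx1 hx).le (SH.hx2 hx') (covB01).cov (covB42).cov hx hx' c_A04pp_123_s1 cutA_nil (noExt_A)

noncomputable def cut_A04pp_133_s1 : Cut := Cut.of [[⟨4, 0, 0, 1449551462⟩]]

noncomputable def f_A04pp_133_s1 : ℕ → ℕ → ℕ → ℕ → Bool := onCell 536870912 536870912 0 1230186008 858993459 64424510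
    (rowF 0 true true true .dn 1 3 3 (qsf 536870912 536870912 0 1230186008 3) ndB0q1 ndB4q3 pcB3 cut_A04pp_133_s1 Ext.none)

def k0_A04pp_133_s1 : ∃ t, chk3 f_A04pp_133_s1 t 1 1 1 = true :=
  ⟨(l 4), by decide +kernel⟩

theorem c_A04pp_133_s1 : CertF 536870912 536870912 0 1230186008 858993459 64424510 true true true .dn 1 3 3
    ndB0q1 ndB4q3 pcB3 cut_A04pp_133_s1 Ext.none :=
  certF0 (fam := true) (s1 := true) (s2 := true) (a := 1) (b := 3) (c := 3) (cn := .dn) (n1 := ndB0q1) (n2 := ndB4q3) (pc := pcB3) (cut := cut_A04pp_133_s1) (xt := Ext.none) (P1 := 536870912) (W1 := 536870912) (P2 := 0) (W2 := 1230186008) (P3 := 858993459) (W3 := 64424510)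
    rfl k0_A04pp_133_s1

theorem s_A04pp_133_s1 {κ x : ℝ} (hκ : κ * h0 = ken x) (hx : ((858993459 : ℕ) : ℝ) / S ≤ x)
    (hx' : x ≤ (((858993459 : ℕ) : ℝ) + (64424510 : ℕ)) / S) :
    AltA (VFD κ) PP tK tL pcB [⟨3, 0, 0, 1449551462⟩] 1 3 3 0 4 (sgb true) (sgb true) x :=
  strip_altAD (m := 1449551462) true rfl hκ (SH.κ0 hκ (SH.hx1 hx).le (SH.hx2 hx').le) (SH.hx1 hx).le (SH.hx2 hx') (covB01).cov (covB43).cov hx hx' c_A04pp_133_s1 cutA_nil (noExt_A)

noncomputable def cut_A04pp_202_s1 : Cut := Cut.of [[⟨4, 0, 0, 1449551462⟩]]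

noncomputable def f_A04pp_202_s1 : ℕ → ℕ → ℕ → ℕ → Bool := onCell 0 536870912 0 536870912 858993459 64424510
    (rowF 0 true true true .pp 2 0 2 (qsf 0 536870912 0 536870912 2) ndB0q2 ndB4q0 pcB2 cut_A04pp_202_s1 Ext.none)

def k0_A04pp_202_s1 : ∃ t, chk3 f_A04pp_202_s1 t 1 1 1 = true :=
  ⟨(l 4), by decide +kernel⟩

theorem c_A04pp_202_s1 : CertF 0 536870912 0 536870912 858993459 64424510 true true true .pp 2 0 2
    ndB0q2 ndB4q0 pcB2 cut_A04pp_202_s1 Ext.none :=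
  certF0 (fam := true) (s1 := true) (s2 := true) (a := 2) (b := 0) (c := 2) (cn := .pp) (n1 := ndB0q2) (n2 := ndB4q0) (pc := pcB2) (cut := cut_A04pp_202_s1) (xt := Ext.none) (P1 := 0) (W1 := 536870912) (P2 := 0) (W2 := 536870912) (P3 := 858993459) (W3 := 64424510)
    rfl k0_A04pp_202_s1

theorem s_A04pp_202_s1 {κ x : ℝ} (hκ : κ * h0 = ken x) (hx : ((858993459 : ℕ) : ℝ) / S ≤ x)
    (hx' : x ≤ (((858993459 : ℕ) : ℝ) + (64424510 : ℕ)) / S) :
    AltA (VFD κ) PP tK tL pcB [⟨3, 0, 0, 1449551462⟩] 2 0 2 0 4 (sgb true) (sgb true) x :=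
  strip_altAD (m := 1449551462) true rfl hκ (SH.κ0 hκ (SH.hx1 hx).le (SH.hx2 hx').le) (SH.hx1 hx).le (SH.hx2 hx') (covB02).cov (covB40).cov hx hx' c_A04pp_202_s1 cutA_nil (noExt_A)

noncomputable def cut_A04pp_203_s1 : Cut := Cut.of [[⟨4, 0, 0, 1449551462⟩]]

noncomputable def f_A04pp_203_s1 : ℕ → ℕ → ℕ → ℕ → Bool := onCell 0 536870912 0 536870912 858993459 64424510
    (rowF 0 true true true .up 2 0 3 (qsf 0 536870912 0 536870912 3) ndB0q2 ndB4q0 pcB3 cut_A04pp_203_s1 Ext.none)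

def k0_A04pp_203_s1 : ∃ t, chk3 f_A04pp_203_s1 t 1 1 1 = true :=
  ⟨(l 4), by decide +kernel⟩

theorem c_A04pp_203_s1 : CertF 0 536870912 0 536870912 858993459 64424510 true true true .up 2 0 3
    ndB0q2 ndB4q0 pcB3 cut_A04pp_203_s1 Ext.none :=
  certF0 (fam := true) (s1 := true) (s2 := true) (a := 2) (b := 0) (c := 3) (cn := .up) (n1 := ndB0q2) (n2 := ndB4q0) (pc := pcB3) (cut := cut_A04pp_203_s1) (xt := Ext.none) (P1 := 0) (W1 := 536870912) (P2 := 0) (W2 := 536870912) (P3 := 858993459) (W3 := 64424510)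
    rfl k0_A04pp_203_s1

theorem s_A04pp_203_s1 {κ x : ℝ} (hκ : κ * h0 = ken x) (hx : ((858993459 : ℕ) : ℝ) / S ≤ x)
    (hx' : x ≤ (((858993459 : ℕ) : ℝ) + (64424510 : ℕ)) / S) :
    AltA (VFD κ) PP tK tL pcB [⟨3, 0, 0, 1449551462⟩] 2 0 3 0 4 (sgb true) (sgb true) x :=
  strip_altAD (m := 1449551462) true rfl hκ (SH.κ0 hκ (SH.hx1 hx).le (SH.hx2 hx').le) (SH.hx1 hx).le (SH.hx2 hx') (covB02).cov (covB40).cov hx hx' c_A04pp_203_s1 cutA_nil (noExt_A)

noncomputable def cut_A04pp_213_s1 : Cut := Cut.of [[⟨4, 0, 0, 1449551462⟩]]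

noncomputable def f_A04pp_213_s1 : ℕ → ℕ → ℕ → ℕ → Bool := onCell 0 536870912 536870912 536870912 858993459 64424510
    (rowF 0 true true true .pnn 2 1 3 (qsf 0 536870912 536870912 536870912 3) ndB0q2 ndB4q1 pcB3 cut_A04pp_213_s1 Ext.none)

def k0_A04pp_213_s1 : ∃ t, chk3 f_A04pp_213_s1 t 1 1 1 = true :=
  ⟨(l 4), by decide +kernel⟩

theorem c_A04pp_213_s1 : CertF 0 536870912 536870912 536870912 858993459 64424510 true true true .pnn 2 1 3
    ndB0q2 ndB4q1 pcB3 cut_A04pp_213_s1 Ext.none :=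
  certF0 (fam := true) (s1 := true) (s2 := true) (a := 2) (b := 1) (c := 3) (cn := .pnn) (n1 := ndB0q2) (n2 := ndB4q1) (pc := pcB3) (cut := cut_A04pp_213_s1) (xt := Ext.none) (P1 := 0) (W1 := 536870912) (P2 := 536870912) (W2 := 536870912) (P3 := 858993459) (W3 := 64424510)
    rfl k0_A04pp_213_s1

theorem s_A04pp_213_s1 {κ x : ℝ} (hκ : κ * h0 = ken x) (hx : ((858993459 : ℕ) : ℝ) / S ≤ x)
    (hx' : x ≤ (((858993459 : ℕ) : ℝ) + (64424510 : ℕ)) / S) :
    AltA (VFD κ) PP tK tL pcB [⟨3, 0, 0, 1449551462⟩] 2 1 3 0 4 (sgb true) (sgb true) x :=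
  strip_altAD (m := 1449551462) true rfl hκ (SH.κ0 hκ (SH.hx1 hx).le (SH.hx2 hx').le) (SH.hx1 hx).le (SH.hx2 hx') (covB02).cov (covB41).cov hx hx' c_A04pp_213_s1 cutA_nil (noExt_A)

noncomputable def cut_A04pm_001_s1 : Cut := Cut.of [[⟨4, 0, 0, 1449551462⟩]]

noncomputable def xt_A04pm_001_s1 : Ext := strExt dd true true false .u0 .s0m .u0m .up 0 0 1 rfl rfl gf1 vv ndB0q0 ndB4q0

noncomputable def f_A04pm_001_s1 : ℕ → ℕ → ℕ → ℕ → Bool := onCell 0 536870912 536870912 536870912 858993459 64424510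
    (rowF 1 true true false .up 0 0 1 (qsf 0 536870912 0 536870912 1) ndB0q0 ndB4q0 pcB1 cut_A04pm_001_s1 xt_A04pm_001_s1)

def k0_A04pm_001_s1 : ∃ t, chk3 f_A04pm_001_s1 t 2 1 1 = true :=
  ⟨(b (l 3) (b (b (l 3) (l 2)) (l 2))), by decide +kernel⟩

def k1_A04pm_001_s1 : ∃ t, chk3 f_A04pm_001_s1 t 3 2 1 = true :=
  ⟨(a (b (l 3) (l 3)) (b (l 3) (b (a (l 3) (a (a (l 3) (b (l 3) (b (l 3) (a (a (l 3) (l 524203023)) (l 524283407))))) (a (b (l 3) (c (l 521899279) (l 527584783))) (b (c (c (l 522209295) (l 524015119)) (l 526921999)) (c (b (l 522656271) (l 522291471)) (l 527727119)))))) (a (c (b (a (l 3) (a (l 3) (l 520804111))) (a (b (c (l 519400975) (l 521905935)) (l 521024527)) (c (c (l 519198735) (l 520375823)) (l 522207759)))) (b (a (l 3) (c (l 525064463) (l 527465487))) (a (b (l 525414927) (l 525225487)) (c (l 524800527) (l 526882319))))) (c (b (a (c (a (b (l 519646991) (l 519829775)) (b (l 520087311) (l 520069647))) (a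 (l 522258191) (l 522516239))) (b (b (l 521953295) (l 520829199)) (a (l 521670415) (l 522077455)))) (a (a (b (l 521168655) (l 521328911)) (b (l 521391119) (l 521527823))) (b (c (l 520829967) (l 522957583)) (c (l 520926735) (l 523004687))))) (c (b (a (c (l 524830479) (l 526329103)) (b (l 526074383) (l 525926671))) (a (l 525270799) (b (l 525764879) (l 525618703)))) (a (b (a (l 528111631) (l 528293647)) (l 527526159)) (b (b (l 528577039) (l 528361231)) (b (l 528084495) (l 16630368)))))))))), by decide +kernel⟩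

def k2_A04pm_001_s1 : ∃ t, chk3 f_A04pm_001_s1 t 3 3 1 = true :=
  ⟨(b (a (b (b (a (l 3) (a (l 3) (c (c (l 520527119) (l 522456079)) (c (l 523886095) (l 524921103))))) (a (a (l 3) (c (l 522134543) (l 523580431))) (a (c (l 522159375) (l 523937295)) (c (c (l 521367311) (l 522906383)) (c (l 523902991) (l 524644623)))))) (a (a (l 2) (b (c (l 522817807) (l 523649039)) (l 2))) (a (b (l 523591951) (l 523822095)) (b (c (l 522894607) (l 524270607)) (a (l 523904527) (l 523965967)))))) (a (b (a (b (c (c (l 520527631) (l 522531599)) (l 524992271)) (c (b (l 522007055) (l 522363151)) (l 525586959))) (b (c (a (l 521533967) (c (l 520567311) (l 522656783))) (a (l 525400335) (l 525659663))) (c (a (l 522202383) (l 522238223)) (l 525246991)))) (a (b (c (l 522904079) (l 524663055)) (c (l 523455503) (l 524613903))) (b (c (l 522912527) (l 525071887)) (c (l 523494927) (l 524965647))))) (b (a (b (c (a (l 521706767) (l 521856527)) (c (l 525060367)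 (l 526907151))) (c (c (l 521495055) (l 523239183)) (l 525695247))) (b (c (c (l 521240591) (l 523165711)) (c (l 525444367) (l 527344911))) (c (c (l 521821199) (l 16590768)) (c (l 16543104) (l 16573048))))) (a (b (c (l 523003151) (l 525467151)) (c (l 16515288) (l 16475272))) (b (c (c (l 16413720) (l 16448464)) (c (l 16481560) (l 16510136))) (c (l 16376872) (l 16432032))))))) (a (b (b (a (l 2) (a (l 2) (b (l 524096271) (l 2)))) (l 2)) (l 2)) (b (a (b (a (b (l 524239119) (l 16516864)) (c (l 16428896) (l 16453848))) (a (c (l 16506904) (l 16433896)) (c (l 16372512) (l 16390160)))) (b (a (c (l 16376496) (l 16410728)) (c (l 16325032) (l 16366400))) (a (c (l 16322464) (l 16346280)) (l 16371344)))) (a (b (a (l 2) (l 69356329031)) (l 2)) (b (a (l 16274624) (l 16228760)) (a (l 16214896) (l 16170080))))))), by decide +kernel⟩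

theorem t3_A04pm_001_s1 : ∃ t, chk3 f_A04pm_001_s1 t 3 1 1 = true := ex3_b k1_A04pm_001_s1 k2_A04pm_001_s1

theorem t4_A04pm_001_s1 : ∃ t, chk3 f_A04pm_001_s1 t 1 1 1 = true := ex3_a k0_A04pm_001_s1 t3_A04pm_001_s1

theorem c_A04pm_001_s1 : CertF 0 536870912 0 536870912 858993459 64424510 true true false .up 0 0 1
    ndB0q0 ndB4q0 pcB1 cut_A04pm_001_s1 xt_A04pm_001_s1 :=
  certF1 (fam := true) (s1 := true) (s2 := false) (a := 0) (b := 0) (c := 1) (cn := .up) (n1 := ndB0q0) (n2 := ndB4q0) (pc := pcB1) (cut := cut_A04pm_001_s1) (xt := xt_A04pm_001_s1) (P1 := 0) (W1 := 536870912) (P2 := 0) (W2 := 536870912) (P3 := 858993459) (W3 := 64424510)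
    rfl (fun _ => rfl) t4_A04pm_001_s1

theorem s_A04pm_001_s1 {κ x : ℝ} (hκ : κ * h0 = ken x) (hx : ((858993459 : ℕ) : ℝ) / S ≤ x)
    (hx' : x ≤ (((858993459 : ℕ) : ℝ) + (64424510 : ℕ)) / S) :
    AltA (VFD κ) PP tK tL pcB [⟨3, 0, 0, 1449551462⟩] 0 0 1 0 4 (sgb true) (sgb false) x :=
  strip_altAD (m := 1449551462) true rfl hκ (SH.κ0 hκ (SH.hx1 hx).le (SH.hx2 hx').le) (SH.hx1 hx).le (SH.hx2 hx') (covB00).cov (covB40).cov hx hx' c_A04pm_001_s1 cutA_nil ((okx hx hx').extA (T := tt) (sideB hx hx') hκ rfl rfl (.O 0 true) (.N 0 false) (Or.inr rfl))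

noncomputable def cut_A04pm_011_s1 : Cut := Cut.of [[⟨4, 0, 0, 1449551462⟩], [⟨0, 0, 0, 67108864⟩, ⟨1, 1, 0, 67108864⟩, ⟨2, 1, 0, 67108864⟩]]

noncomputable def xt_A04pm_011_s1 : Ext := strExt dd true true false .u0 .s0m .u0m .pnn 0 1 1 rfl rfl gf1 vv ndB0q0 ndB4q1

noncomputable def f_A04pm_011_s1 : ℕ → ℕ → ℕ → ℕ → Bool := onCell 0 536870912 536870912 536870912 858993459 64424510
    (rowF 1 true true false .pnn 0 1 1 (qsf 0 536870912 536870912 536870912 1) ndB0q0 ndB4q1 pcB1 cut_A04pm_011_s1 xt_A04pm_011_s1)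

def k0_A04pm_011_s1 : ∃ t, chk3 f_A04pm_011_s1 t 1 2 1 = true :=
  ⟨(a (l 3) (a (b (l 1) (l 3)) (l 1))), by decide +kernel⟩

def k1_A04pm_011_s1 : ∃ t, chk3 f_A04pm_011_s1 t 1 6 1 = true :=
  ⟨(c (b (a (l 3) (a (a (b (l 3) (a (l 3) (l 522129167))) (a (b (l 1) (l 522156559)) (l 1))) (l 1))) (c (a (b (l 3) (a (l 3) (a (l 3) (a (a (l 3) (a (l 3) (l 522781199))) (l 522828303))))) (a (a (a (l 522536463) (l 522614287)) (a (l 522669327) (b (l 522278159) (l 16673072)))) (a (a (b (l 1) (l 16535024)) (l 1)) (l 1)))) (a (b (l 3) (a (l 3) (a (l 3) (a (a (l 3) (b (l 3) (l 523627791))) (l 523594767))))) (a (a (a (l 523491087) (l 523506703)) (a (l 523516175) (l 523521295))) (a (a (b (l 1) (l 16546832)) (l 1)) (l 1)))))) (b (a (l 3) (a (a (b (l 3) (a (l 3) (l 523588879))) (a (b (l 1) (l 523942159)) (l 1))) (l 1))) (a (b (l 3) (a (l 3) (a (l 3) (a (a (l 3) (a (l 3) (l 523081999))) (l 523232015))))) (a (a (a (a (l 523354127) (l 523497999))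 (l 523705871)) (a (l 523991567) (b (l 524275215) (l 524297999)))) (a (a (b (l 1) (l 524617999)) (l 1)) (l 1)))))), by decide +kernel⟩

def k2_A04pm_011_s1 : ∃ t, chk3 f_A04pm_011_s1 t 1 14 4 = true :=
  ⟨(a (b (a (l 3) (a (a (l 3) (b (l 3) (a (b (l 3) (l 523439887)) (a (l 523403535) (l 523419663))))) (a (a (b (l 523292687) (b (l 523384591) (l 523501327))) (a (b (l 523274511) (l 523442959)) (b (l 524905487) (l 523504911)))) (b (a (l 523329295) (l 523395087)) (a (b (l 523522831) (l 523623439)) (l 523659535)))))) (a (a (l 3) (a (l 3) (a (l 3) (b (l 3) (a (l 523895567) (l 523912975)))))) (a (a (a (b (l 3) (l 523895055)) (b (l 523686671) (l 523875087))) (a (b (l 523703823) (l 523839247)) (b (a (l 523747599) (l 523764239)) (l 523864847)))) (a (a (b (l 524848143) (l 523985423)) (b (b (l 523645199) (l 16695232)) (l 524127759))) (a (b (l 523814671) (l 16652760)) (b (l 523906319) (l 16631896))))))) (a (b (a (b (l 524840719) (a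 (l 523763471) (l 16614528))) (b (l 523637519) (l 16636112))) (a (a (b (l 524033295) (l 16641408)) (b (l 16584632) (l 16554240))) (b (l 16595912) (l 16482624)))) (a (b (a (l 16477512) (l 16422792)) (l 16478888)) (b (l 1) (l 16293016))))), by decide +kernel⟩

def k3_A04pm_011_s1 : ∃ t, chk3 f_A04pm_011_s1 t 1 14 5 = true :=
  ⟨(a (b (a (l 3) (a (a (l 3) (b (l 3) (a (b (l 3) (l 523641615)) (l 523682063)))) (a (a (b (l 523661327) (l 523761935)) (b (a (l 523729167) (l 523748111)) (a (l 523836943) (l 523855887)))) (b (a (l 523768335) (l 523796751)) (a (l 523878927) (l 523910671)))))) (a (a (l 3) (a (l 3) (a (l 3) (b (l 3) (a (l 523796751) (l 523828751)))))) (a (a (a (b (l 3) (l 523824655)) (b (l 523762447) (l 523810575))) (a (b (l 523699727) (l 523766799)) (b (a (l 523734287) (l 523768847)) (l 523772431)))) (a (a (b (l 523826959) (l 523862031)) (b (l 523933711) (l 523967759))) (a (b (l 523981327) (l 16651088)) (b (l 16682808)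 (l 16630176))))))) (a (b (a (b (l 523824143) (a (l 523945487) (l 16615880))) (a (l 523980559) (l 16536248))) (a (a (b (l 524058383) (l 16598056)) (b (l 16584840) (l 16553816))) (b (l 16598728) (l 16484440)))) (a (b (a (l 16486608) (l 16436224)) (l 16486336)) (b (l 1) (l 16305552))))), by decide +kernel⟩

def k4_A04pm_011_s1 : ∃ t, chk3 f_A04pm_011_s1 t 1 15 4 = true :=
  ⟨(b (a (b (a (a (l 3) (a (a (l 3) (l 525133327)) (a (l 523693583) (a (l 523953423) (l 523913487))))) (a (a (a (l 523925007) (l 523903247)) (a (l 523870479) (l 16700512))) (a (a (l 16659760) (l 16640296)) (l 16610544)))) (a (a (a (l 3) (a (l 3) (a (l 3) (a (l 3) (l 523416335))))) (a (a (a (l 523412239) (l 523449871)) (a (l 523503375) (l 523571215))) (a (l 525014287) (l 523981327)))) (a (a (a (l 523991055) (l 523990543)) (a (l 16667288) (l 16646848))) (a (l 16617264) (l 16578032))))) (a (a (a (b (l 16568392) (l 16536888)) (l 16550544)) (l 16553832)) (a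 (l 16340440) (l 16244952)))) (a (a (a (b (a (b (l 3) (l 14)) (a (a (b (l 3) (a (l 14) (l 523126287))) (a (l 523219215) (l 523215375))) (a (a (l 523213071) (l 523212047)) (l 523190287)))) (a (l 14) (a (a (l 14) (a (l 14) (l 522878991))) (a (a (l 522884367) (l 522891023)) (a (l 522898959) (l 522908431)))))) (a (a (a (b (l 523192079) (l 522908943)) (b (l 523260943) (l 522952463))) (b (a (l 523318287) (l 523399951)) (b (l 523096335) (l 16702712)))) (a (b (l 523519503) (l 523250959)) (b (l 523760143) (l 523519503))))) (a (a (a (b (l 523945999) (l 16637552)) (b (l 16654304) (l 16619056))) (b (l 525299471) (l 16631328))) (a (b (l 16583784) (l 16549488)) (b (l 16545000) (l 16511104))))) (a (a (b (l 16567696) (l 16534848)) (a (l 16402424) (l 16356432))) (a (l 16286248) (l 16197560))))), by decide +kernel⟩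

def k5_A04pm_011_s1 : ∃ t, chk3 f_A04pm_011_s1 t 1 15 5 = true :=
  ⟨(b (a (b (a (a (l 3) (a (a (l 3) (a (l 3) (l 523548431))) (a (l 523676687) (a (l 523968527) (l 523931407))))) (a (a (a (l 523950095) (l 523922447)) (a (l 523871503) (l 16700288))) (a (a (l 16659128) (l 16639064)) (l 16608656)))) (a (a (a (l 3) (a (l 3) (a (l 3) (a (l 3) (l 523434767))))) (a (a (a (l 523452687) (l 523515919)) (a (l 523590927) (l 523677199))) (a (l 523800335) (l 524135695)))) (a (a (a (l 524140303) (l 524122639)) (a (l 16668152) (l 16647448))) (a (l 16616992) (l 16576432))))) (a (a (a (b (l 16566528) (l 16534888)) (l 16549080)) (a (l 16461896) (l 16415232))) (a (l 16343704) (l 16249920)))) (a (a (a (b (a (b (l 3) (l 14)) (a (a (a (a (l 523377679) (l 523377935)) (l 524706575)) (a (l 523372047) (l 523381519))) (a (a (l 523393295) (l 523407375)) (l 523409423)))) (a (l 14) (a (a (l 14) (a (l 14) (l 523257871))) (a (a (l 523273743) (l 523291663))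 (a (l 523312143) (l 523334671)))))) (a (a (a (b (l 523453199) (l 523355919)) (b (l 523526671) (l 523422223))) (b (a (l 523601679) (l 523691535)) (b (l 523534607) (l 16685368)))) (a (b (l 523819023) (l 523734287)) (b (l 524063247) (l 523990799))))) (a (a (a (b (l 524238863) (l 16642320)) (b (l 16656832) (l 16624024))) (b (l 524957967) (l 16636024))) (a (b (l 16584816) (l 16552536)) (b (l 16544248) (l 16511808))))) (a (a (b (l 16565736) (l 16533352)) (a (l 16400224) (l 16354536))) (a (l 16284912) (l 16194536))))), by decide +kernel⟩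

def k6_A04pm_011_s1 : ∃ t, chk3 f_A04pm_011_s1 t 1 14 3 = true :=
  ⟨(a (b (a (l 3) (a (a (l 3) (b (l 3) (a (a (l 3) (a (l 523267087) (l 523278607))) (a (l 523294735) (l 523314959))))) (a (a (b (b (l 3) (l 523222543)) (b (l 523294735) (l 523370255))) (b (c (a (l 523413007) (l 523454735)) (a (l 522998031) (l 523062031))) (a (b (l 523302159) (l 523389711)) (l 523387151)))) (b (a (b (l 523326735) (l 523384847)) (l 523473167)) (a (b (l 523436559) (l 523488527)) (l 523577103)))))) (a (a (l 3) (a (l 3) (a (l 3) (b (l 3) (a (l 523588367) (l 523643151)))))) (a (a (b (a (l 3) (l 523485711)) (a (l 523660815) (l 523654415))) (a (b (a (l 523449871) (l 523426319)) (l 523595023)) (b (a (l 523435279) (l 523448335)) (a (l 523555087) (l 523564559))))) (a (a (b (b (l 523444495) (l 523503375)) (b (l 523559951) (l 16681760))) (b (a (l 523496975) (l 523517199)) (b (l 16676912) (l 16660672)))) (a (b (b (l 523543567) (l 16671872)) (l 523684623))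 (b (l 523676431) (l 523771663))))))) (a (b (a (b (a (l 523640591) (l 523876111)) (a (l 523735567) (l 16657256))) (a (l 524136975) (l 524362767))) (a (a (b (b (l 16655776) (l 16618768)) (a (l 16605208) (l 16584000))) (b (l 16583600) (l 16551832))) (a (b (l 16539792) (l 16508256)) (l 16479688)))) (a (b (a (l 16498464) (l 16454944)) (a (l 16435408) (l 16391424))) (b (l 1) (l 16450600))))), by decide +kernel⟩

def k7_A04pm_011_s1 : ∃ t, chk3 f_A04pm_011_s1 t 1 15 6 = true :=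
  ⟨(a (b (b (a (a (l 3) (a (a (l 3) (a (l 3) (l 523484943))) (a (l 523648015) (a (l 523973135) (l 523939599))))) (a (a (a (l 523965711) (l 523931151)) (a (l 523859471) (l 16699944))) (a (a (l 16658280) (l 16637496)) (l 16606240)))) (a (a (a (l 3) (a (l 3) (a (l 3) (a (l 3) (l 523454735))))) (a (a (a (l 523496719) (l 523587855)) (a (l 523686671) (l 523793167))) (a (l 523940623) (l 524303375)))) (a (a (a (l 524303375) (l 524267535)) (a (l 16669088) (l 16648104))) (a (l 16616656) (l 16574568))))) (a (a (b (a (b (l 3) (l 14)) (a (a (b (l 3) (a (l 14) (l 523549711))) (a (l 523546127) (l 523570447))) (a (a (l 523598095) (l 523628815)) (l 523657743)))) (a (l 14) (a (a (l 14) (a (l 14) (l 523685391))) (a (a (l 523713295) (l 523744783)) (a (l 523779087) (l 523816719)))))) (a (a (a (b (l 523748879) (l 523861519)) (b (l 523826959) (l 523954447))) (b (a (l 523922191) (l 524021263)) (b (l 524032015) (l 16689480)))) (a (b (l 524157711)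 (l 524284687)) (b (l 524406287) (l 524447503))))) (a (a (a (b (l 524367887) (l 16644104)) (b (l 16658904) (l 16625344))) (a (l 525127183) (l 524488719))) (a (b (l 16586152) (l 16556384)) (b (l 16543616) (l 16513160)))))) (a (a (b (a (b (l 16564072) (l 16532544)) (l 16547184)) (a (b (l 16501296) (l 16470184)) (l 16442680))) (b (a (l 16461272) (l 16416136)) (a (l 16398648) (l 16353648)))) (b (a (l 16347680) (l 16256144)) (a (l 16285248) (l 16193744))))), by decide +kernel⟩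

def k8_A04pm_011_s1 : ∃ t, chk3 f_A04pm_011_s1 t 1 15 7 = true :=
  ⟨(a (b (b (a (a (l 3) (a (a (l 3) (a (l 3) (l 523407375))) (a (l 523607311) (a (l 523967247) (l 523937551))))) (a (a (a (l 523971599) (l 523929359)) (a (l 523835151) (l 16699472))) (a (a (l 16657224) (l 16635584)) (l 16603320)))) (a (a (a (l 3) (a (l 3) (a (l 3) (a (l 3) (l 523476239))))) (a (a (a (l 524887055) (l 523666447)) (a (l 523790607) (l 523919375))) (a (l 524093199) (l 524342543)))) (a (a (a (l 524480015) (l 524424975)) (a (l 16670120) (l 16648816))) (a (l 16616264) (l 16572432))))) (b (a (a (a (b (l 3) (l 14)) (a (a (b (l 3) (a (l 14) (l 523801359))) (a (l 523741199) (l 523782159))) (a (a (l 523827215) (l 523876623)) (l 523935247)))) (a (a (a (l 524078351) (l 524161807)) (a (l 524279823) (l 524262671))) (a (l 524155407) (l 524029967)))) (a (a (a (l 523993615) (l 16655560)) (a (l 16638296) (l 16621136))) (a (l 16587784) (l 16543104)))) (a (a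 (a (l 14) (a (a (l 14) (a (l 14) (l 524161295))) (a (a (l 524203535) (l 524249615)) (a (l 524300047) (l 524281359))))) (a (a (a (l 524206863) (l 524125711)) (b (l 524047631) (l 16688792))) (a (l 523864591) (l 523723535)))) (a (a (a (l 16636488) (l 16616968)) (l 16632448)) (a (l 16557904) (l 16515160)))))) (a (a (b (a (b (l 16561008) (l 16529864)) (b (l 16518960) (l 16487384))) (a (b (l 16499528) (l 16470224)) (l 16441320))) (b (a (l 16460440) (l 16417120)) (a (l 16397704) (l 16353768)))) (b (a (l 16352352) (l 16263656)) (a (l 16287296) (l 16195296))))), by decide +kernel⟩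

theorem t9_A04pm_011_s1 : ∃ t, chk3 f_A04pm_011_s1 t 1 15 3 = true := ex3_c k7_A04pm_011_s1 k8_A04pm_011_s1

theorem t10_A04pm_011_s1 : ∃ t, chk3 f_A04pm_011_s1 t 1 7 3 = true := ex3_b k6_A04pm_011_s1 t9_A04pm_011_s1

theorem t11_A04pm_011_s1 : ∃ t, chk3 f_A04pm_011_s1 t 1 15 2 = true := ex3_c k4_A04pm_011_s1 k5_A04pm_011_s1

theorem t12_A04pm_011_s1 : ∃ t, chk3 f_A04pm_011_s1 t 1 14 2 = true := ex3_c k2_A04pm_011_s1 k3_A04pm_011_s1

theorem t13_A04pm_011_s1 : ∃ t, chk3 f_A04pm_011_s1 t 1 7 2 = true := ex3_b t12_A04pm_011_s1 t11_A04pm_011_s1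

theorem t14_A04pm_011_s1 : ∃ t, chk3 f_A04pm_011_s1 t 1 7 1 = true := ex3_c t13_A04pm_011_s1 t10_A04pm_011_s1

theorem t15_A04pm_011_s1 : ∃ t, chk3 f_A04pm_011_s1 t 1 3 1 = true := ex3_b k1_A04pm_011_s1 t14_A04pm_011_s1

theorem t16_A04pm_011_s1 : ∃ t, chk3 f_A04pm_011_s1 t 1 1 1 = true := ex3_b k0_A04pm_011_s1 t15_A04pm_011_s1

theorem c_A04pm_011_s1 : CertF 0 536870912 536870912 536870912 858993459 64424510 true true false .pnn 0 1 1
    ndB0q0 ndB4q1 pcB1 cut_A04pm_011_s1 xt_A04pm_011_s1 :=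
  certF1 (fam := true) (s1 := true) (s2 := false) (a := 0) (b := 1) (c := 1) (cn := .pnn) (n1 := ndB0q0) (n2 := ndB4q1) (pc := pcB1) (cut := cut_A04pm_011_s1) (xt := xt_A04pm_011_s1) (P1 := 0) (W1 := 536870912) (P2 := 536870912) (W2 := 536870912) (P3 := 858993459) (W3 := 64424510)
    rfl (fun _ => rfl) t16_A04pm_011_s1

theorem s_A04pm_011_s1 {κ x : ℝ} (hκ : κ * h0 = ken x) (hx : ((858993459 : ℕ) : ℝ) / S ≤ x)
    (hx' : x ≤ (((858993459 : ℕ) : ℝ) + (64424510 : ℕ)) / S)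
    (H : CutA (VFD κ) PP tK tL pcB (Cut.of [[⟨0, 0, 0, 67108864⟩, ⟨1, 1, 0, 67108864⟩, ⟨2, 1, 0, 67108864⟩]]) 0 1 1 0 4 (sgb true) (sgb false) x) :
    AltA (VFD κ) PP tK tL pcB [⟨3, 0, 0, 1449551462⟩] 0 1 1 0 4 (sgb true) (sgb false) x :=
  strip_altAD (m := 1449551462) true rfl hκ (SH.κ0 hκ (SH.hx1 hx).le (SH.hx2 hx').le) (SH.hx1 hx).le (SH.hx2 hx') (covB00).cov (covB41).cov hx hx' c_A04pm_011_s1 H ((okx hx hx').extA (T := tt) (sideB hx hx') hκ rfl rfl (.O 0 true) (.N 1 false) (Or.inr rfl))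

noncomputable def cut_A04pm_012_s1 : Cut := Cut.of [[⟨4, 0, 0, 1449551462⟩], [⟨0, 0, 0, 67108864⟩, ⟨1, 1, 0, 67108864⟩, ⟨2, 1, 0, 67108864⟩]]

noncomputable def f_A04pm_012_s1 : ℕ → ℕ → ℕ → ℕ → Bool := onCell 1073741824 536870912 536870912 536870912 858993459 64424510
    (rowF 2 true true false .pnp 0 1 2 (qsf 0 536870912 536870912 536870912 2) ndB0q0 ndB4q1 pcB2 cut_A04pm_012_s1 Ext.none)

def k0_A04pm_012_s1 : ∃ t, chk3 f_A04pm_012_s1 t 4 2 1 = true :=
  ⟨(b (a (b (a (b (l 16151328) (l 16280712)) (l 6)) (b (a (a (l 16162312) (l 16140688)) (l 16084824)) (a (a (l 16196632) (l 16187784)) (l 16125136)))) (l 6)) (a (b (b (a (a (l 16228672) (l 16236608)) (l 16166584)) (a (a (l 16259416) (l 16270856)) (l 16209336))) (a (a (b (l 16289312) (c (l 16338808) (l 16329984))) (b (l 16303296) (l 16427416))) (b (c (l 16254952) (l 16247336)) (c (l 16298600) (l 16287792))))) (b (a (b (l 16078528) (l 16111344)) (l 6)) (a (b (l 16144464)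 (c (l 16186344) (l 16079728))) (b (l 15793040) (c (l 16080848) (l 16050736))))))), by decide +kernel⟩

def k1_A04pm_012_s1 : ∃ t, chk3 f_A04pm_012_s1 t 8 6 1 = true :=
  ⟨(b (b (a (a (c (l 16394328) (l 16384792)) (l 16396448)) (c (l 16338384) (l 16325792))) (a (a (a (b (l 16427888) (l 16453984)) (b (l 16431528) (l 16457424))) (c (l 16446248) (l 16451264))) (c (l 16373832) (l 16361112)))) (a (b (b (a (a (l 16479608) (l 16482856)) (l 16486608)) (a (c (l 16513344) (l 16499536)) (l 16511736))) (b (a (c (l 16539280) (l 16526096)) (l 16536480)) (a (c (l 16565640) (l 16553776)) (l 16561232)))) (a (b (c (l 16439312) (l 16433272)) (c (l 16467720) (l 16462392))) (b (b (l 16272640) (l 16244464)) (c (b (l 16389776) (l 16400432)) (l 16295864)))))), by decide +kernel⟩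

def k2_A04pm_012_s1 : ∃ t, chk3 f_A04pm_012_s1 t 16 7 1 = true :=
  ⟨(b (b (b (a (a (b (l 16496144) (l 16594232)) (l 16588624)) (c (l 16562144) (l 16564008))) (a (a (c (l 16620296) (l 16567568)) (l 16616744)) (c (l 16573312) (l 16572848)))) (a (a (b (c (l 16646328) (l 16638144)) (a (c (l 16639736) (b (l 16657552) (l 16671112))) (l 16679576))) (c (b (l 16645232) (l 16657848)) (b (l 16643072) (l 16658352)))) (c (b (l 16562768) (a (l 16614976) (l 16572864))) (b (l 16559408) (a (l 16610600) (l 16563648)))))) (a (b (a (b (a (b (a (l 16665608) (l 16645288)) (l 14)) (c (l 16694848) (l 16693832))) (l 14)) (a (b (c (l 16681048) (l 16679712)) (l 14)) (b (b (l 16654408) (l 16617520)) (b (c (l 16667464) (l 16661184)) (l 14))))) (l 14)) (b (b (a (c (b (l 16623192) (l 16586696)) (a (l 16630256) (l 16605832))) (c (l 16593072) (l 16569552))) (a (a (b (a (l 16646616) (l 16634800)) (l 14)) (c (l 16628088) (l 16612760))) (c (b (l 16589864)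 (l 16594632)) (b (l 16573896) (l 16576816))))) (b (b (a (l 14) (a (l 14) (a (l 14) (l 16613968)))) (l 14)) (l 14))))), by decide +kernel⟩

def k3_A04pm_012_s1 : ∃ t, chk3 f_A04pm_012_s1 t 17 7 1 = true :=
  ⟨(b (a (b (b (c (l 16401368) (l 16478064)) (a (l 16511144) (l 16470288))) (b (c (a (l 16523352) (l 16484032)) (l 16407120)) (c (a (l 16531704) (l 16491088)) (a (l 16517720) (l 16472336))))) (b (c (b (l 16410216) (l 16418656)) (b (l 16393520) (l 16399896))) (c (b (l 16425880) (a (l 16451288) (l 16412200))) (b (l 16404064) (l 16416240))))) (b (a (a (b (c (l 16498016) (l 16521840)) (c (b (l 16546368) (l 16550656)) (b (l 16525072) (l 16527248)))) (b (c (l 16498088) (l 16474960)) (c (b (l 16503584) (l 16507320)) (b (l 16477032) (l 16478472))))) (b (c (b (l 16519480) (l 16438304)) (c (l 16372512) (l 16398168))) (c (a (b (l 16461552) (l 16464696)) (l 16463504)) (a (l 16472104) (l 16467288))))) (b (a (c (a (b (a (l 16565920)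 (l 16543864)) (a (l 14) (l 16547888))) (b (l 16553016) (a (l 16525768) (l 16503792)))) (a (b (l 16518976) (a (l 14) (l 16519080))) (c (b (l 16488104) (l 16490216)) (l 16451056)))) (c (a (b (l 16467888) (c (l 16480104) (l 16461832))) (b (l 16425432) (l 16470056))) (b (a (l 16431240) (l 16383320)) (a (l 16473992) (l 16383408))))) (a (a (l 14) (a (l 14) (b (c (l 16549256) (l 16470488)) (l 14)))) (c (b (a (a (l 16485272) (l 16463392)) (c (l 16441720) (l 16419608))) (a (a (l 14) (b (l 16465672) (l 14))) (a (b (l 16443776) (l 16445184)) (b (l 16422032) (l 16423336))))) (a (a (b (l 16445416) (l 14)) (b (l 16420528) (l 16463312))) (b (c (l 16395976) (l 16370808)) (a (l 16438264) (l 16455360))))))))), by decide +kernel⟩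

def k4_A04pm_012_s1 : ∃ t, chk3 f_A04pm_012_s1 t 9 6 1 = true :=
  ⟨(b (a (b (c (l 16219112) (l 16107800)) (a (l 16182720) (l 16201440))) (b (c (a (l 16133680) (l 16077976)) (l 16067712)) (c (a (l 16157608) (l 16098088)) (l 16084648)))) (a (b (c (a (l 16304632) (l 16239672)) (a (l 16278408) (l 16204280))) (a (c (b (l 16320216) (l 16328800)) (l 16299200)) (c (l 16213920) (l 16220800)))) (b (c (a (l 16176792) (l 16113600)) (l 16099280)) (c (a (l 16105960) (l 16122984)) (a (l 16144352) (l 16074152)))))), by decide +kernel⟩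

def k5_A04pm_012_s1 : ∃ t, chk3 f_A04pm_012_s1 t 9 14 1 = true :=
  ⟨(a (b (a (c (c (l 16261904) (l 16249704)) (b (l 16310184) (l 16315256))) (c (b (l 16264296) (l 16268424)) (l 16146656))) (c (a (b (l 16348280) (l 16436648)) (b (l 16272032) (l 16274696))) (a (a (l 16256392) (l 16213184)) (b (l 16233496) (l 16232800))))) (b (c (a (c (l 16122936) (l 16185728)) (b (l 16125744) (l 16125824))) (a (b (l 16149368) (l 16150808)) (l 15992688))) (c (a (b (l 16114816) (a (l 16218088) (l 16181248))) (b (l 16125032) (l 16123568))) (a (c (l 16100256) (l 16052832)) (b (l 16074200) (l 16070840)))))), by decide +kernel⟩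

def k6_A04pm_012_s1 : ∃ t, chk3 f_A04pm_012_s1 t 9 15 1 = true :=
  ⟨(a (b (a (c (b (a (l 16376304) (l 16335760)) (a (l 16463688) (l 16337760))) (b (a (l 16339256) (l 16295248)) (c (l 16410104) (l 16386672)))) (b (c (l 16360320) (l 16230144)) (c (b (l 16276936) (l 16360856)) (a (l 16247440) (l 16203688))))) (a (b (c (a (b (l 16382440) (l 16384472)) (b (l 16339304) (l 16340576))) (a (b (l 16336016) (l 16335320)) (b (l 16289400) (l 16287896)))) (c (a (b (c (l 16398504) (l 16374248)) (c (l 16422264) (l 16375800))) (b (l 16383912) (c (l 16356856) (l 16329608)))) (a (b (l 16418640) (c (l 16348576) (l 16319616))) (b (l 16286544) (c (l 16300560) (l 16269688)))))) (c (b (a (b (l 16297488) (l 16297912)) (b (l 16256768) (l 16256560))) (b (a (l 16382456) (l 16256400)) (a (c (l 16313696) (l 16284568)) (c (l 16271792) (l 16240664))))) (b (a (l 16326656) (l 16281440)) (a (b (l 16239264) (l 16321176)) (b (l 16192944) (l 16190176)))))))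 (b (c (a (b (a (l 16218696) (l 16180976)) (a (l 16218168) (l 16179864))) (b (l 16205776) (a (l 16139872) (l 16099304)))) (a (b (a (l 16165952) (l 16123696)) (a (l 16160392) (l 16117648))) (b (l 16065872) (l 16142960)))) (c (a (b (a (b (l 16217168) (l 16216288)) (c (l 16193360) (l 16161576))) (a (b (l 16215520) (c (l 16231152) (l 16197920))) (b (c (l 16192344) (l 16158416)) (c (l 16191768) (l 16156384))))) (b (c (l 16215520) (l 16100656)) (a (b (l 16134320) (l 16216248)) (b (l 16092528) (l 16090168))))) (c (a (b (a (l 16169880) (l 16127656)) (a (l 16164104) (l 16120464))) (b (l 16067824) (b (l 16061640) (l 16057208)))) (a (b (a (l 16136192) (l 16091592)) (a (l 16127320) (l 16081248))) (b (l 16033152) (l 16105496))))))), by decide +kernel⟩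

def k7_A04pm_012_s1 : ∃ t, chk3 f_A04pm_012_s1 t 5 1 1 = true :=
  ⟨(b (b (l 6) (l 6)) (b (a (a (b (a (b (l 6) (l 15934456)) (l 6)) (b (a (l 16028632) (a (l 15983008) (l 6))) (a (l 15949584) (a (l 15985232) (a (l 15961632) (l 15946096)))))) (b (l 6) (b (l 6) (l 16045224)))) (l 6)) (a (b (a (a (b (c (l 16055816) (l 16007368)) (c (b (l 16051920) (l 16048424)) (l 16147520))) (b (a (l 15981536) (a (l 15956728) (l 16024416))) (a (b (l 15975400) (l 15969968)) (a (l 16030768) (c (l 15954616) (l 15904624)))))) (b (c (l 15896672) (l 15837496)) (c (l 15967624) (l 15905520)))) (a (a (c (b (b (l 16044384) (a (l 16059624) (l 16020888))) (b (a (l 16055408) (l 16015824)) (a (l 16134200) (l 16010200)))) (b (b (l 15991872) (l 15984248)) (b (c (l 15990624) (l 15959016)) (c (l 15981408) (l 15946992))))) (b (a (b (l 16047496) (c (l 15983096) (l 15928992))) (a (b (l 15936832) (l 15929152)) (a (b (l 15923816) (l 15915920)) (b (l 15915256)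 (l 15907232))))) (a (b (c (l 15977336) (l 15919192)) (c (l 15971176) (l 15908040))) (a (b (c (l 15949336) (l 15891680)) (c (l 15942712) (l 15880200))) (b (c (a (l 15935992) (l 15927896)) (l 15873224)) (c (a (l 15929328) (l 15921192)) (a (l 15866528) (l 15856816)))))))) (b (c (b (a (l 15904320) (l 15839632)) (a (l 15896648) (l 15830128))) (b (l 15890648) (a (l 15834336) (l 15756640)))) (b (c (a (l 15888736) (l 15820384)) (a (l 15822960) (l 15743480))) (a (c (b (l 15882984) (l 15879064)) (c (l 15828664) (l 15792152))) (c (b (l 15812920) (l 15808048)) (l 15729560))))))) (a (a (b (l 6) (c (b (l 15771648) (b (l 15754480) (b (l 15745712) (l 15739824)))) (b (l 15688600) (b (l 15666432) (l 15734656))))) (b (l 6) (l 6))) (l 6))))), by decide +kernel⟩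

def k8_A04pm_012_s1 : ∃ t, chk3 f_A04pm_012_s1 t 3 1 1 = true :=
  ⟨(b (l 6) (l 6)), by decide +kernel⟩

theorem t9_A04pm_012_s1 : ∃ t, chk3 f_A04pm_012_s1 t 9 7 1 = true := ex3_b k5_A04pm_012_s1 k6_A04pm_012_s1

theorem t10_A04pm_012_s1 : ∃ t, chk3 f_A04pm_012_s1 t 9 3 1 = true := ex3_b k4_A04pm_012_s1 t9_A04pm_012_s1

theorem t11_A04pm_012_s1 : ∃ t, chk3 f_A04pm_012_s1 t 8 7 1 = true := ex3_a k2_A04pm_012_s1 k3_A04pm_012_s1

theorem t12_A04pm_012_s1 : ∃ t, chk3 f_A04pm_012_s1 t 8 3 1 = true := ex3_b k1_A04pm_012_s1 t11_A04pm_012_s1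

theorem t13_A04pm_012_s1 : ∃ t, chk3 f_A04pm_012_s1 t 4 3 1 = true := ex3_a t12_A04pm_012_s1 t10_A04pm_012_s1

theorem t14_A04pm_012_s1 : ∃ t, chk3 f_A04pm_012_s1 t 4 1 1 = true := ex3_b k0_A04pm_012_s1 t13_A04pm_012_s1

theorem t15_A04pm_012_s1 : ∃ t, chk3 f_A04pm_012_s1 t 2 1 1 = true := ex3_a t14_A04pm_012_s1 k7_A04pm_012_s1

theorem t16_A04pm_012_s1 : ∃ t, chk3 f_A04pm_012_s1 t 1 1 1 = true := ex3_a t15_A04pm_012_s1 k8_A04pm_012_s1

theorem c_A04pm_012_s1 : CertF 0 536870912 536870912 536870912 858993459 64424510 true true false .pnp 0 1 2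
    ndB0q0 ndB4q1 pcB2 cut_A04pm_012_s1 Ext.none :=
  certF2 (fam := true) (s1 := true) (s2 := false) (a := 0) (b := 1) (c := 2) (cn := .pnp) (n1 := ndB0q0) (n2 := ndB4q1) (pc := pcB2) (cut := cut_A04pm_012_s1) (xt := Ext.none) (P1 := 0) (W1 := 536870912) (P2 := 536870912) (W2 := 536870912) (P3 := 858993459) (W3 := 64424510)
    rfl (fun _ => rfl) t16_A04pm_012_s1

theorem s_A04pm_012_s1 {κ x : ℝ} (hκ : κ * h0 = ken x) (hx : ((858993459 : ℕ) : ℝ) / S ≤ x)
    (hx' : x ≤ (((858993459 : ℕ) : ℝ) + (64424510 : ℕ)) / S)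
    (H : CutA (VFD κ) PP tK tL pcB (Cut.of [[⟨0, 0, 0, 67108864⟩, ⟨1, 1, 0, 67108864⟩, ⟨2, 1, 0, 67108864⟩]]) 0 1 2 0 4 (sgb true) (sgb false) x) :
    AltA (VFD κ) PP tK tL pcB [⟨3, 0, 0, 1449551462⟩] 0 1 2 0 4 (sgb true) (sgb false) x :=
  strip_altAD (m := 1449551462) true rfl hκ (SH.κ0 hκ (SH.hx1 hx).le (SH.hx2 hx').le) (SH.hx1 hx).le (SH.hx2 hx') (covB00).cov (covB41).cov hx hx' c_A04pm_012_s1 H (noExt_A)

noncomputable def cut_A04pm_022_s1 : Cut := Cut.of [[⟨4, 0, 0, 1449551462⟩], [⟨0, 0, 0, 67108864⟩, ⟨1, 1, 0, 67108864⟩, ⟨2, 1, 0, 67108864⟩]]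

noncomputable def f_A04pm_022_s1 : ℕ → ℕ → ℕ → ℕ → Bool := onCell 1073741824 536870912 1073741824 536870912 858993459 64424510
    (rowF 2 true true false .pp 0 2 2 (qsf 0 536870912 1073741824 536870912 2) ndB0q0 ndB4q2 pcB2 cut_A04pm_022_s1 Ext.none)

def k0_A04pm_022_s1 : ∃ t, chk3 f_A04pm_022_s1 t 8 2 1 = true :=
  ⟨(b (b (a (b (l 14) (b (l 14) (l 1))) (b (a (l 14) (a (l 14) (a (l 14) (c (a (l 14) (b (b (l 16436776) (l 16472752)) (l 16441416))) (b (b (l 16424160) (l 16434560)) (l 16412256)))))) (a (b (l 14) (b (l 14) (l 1))) (b (a (l 14) (c (l 16503624) (l 16462144))) (b (a (l 14) (l 16584000)) (a (a (l 1) (l 690449153191)) (a (l 401612584167) (l 16540768)))))))) (a (l 1) (b (a (l 1) (b (a (l 1) (b (a (l 1) (l 686690994087)) (l 1))) (l 1))) (l 1)))) (l 1)), by decide +kernel⟩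

def k1_A04pm_022_s1 : ∃ t, chk3 f_A04pm_022_s1 t 18 4 1 = true :=
  ⟨(b (b (b (a (c (c (b (a (b (l 16411496) (l 16429016)) (l 16375568)) (a (l 16454984) (l 16410344))) (b (a (l 16437480) (l 16349016)) (a (l 16432984) (l 16386480)))) (a (b (a (l 16409664) (l 16342792)) (l 16397048)) (b (c (l 16320680) (l 16290560)) (l 16347576)))) (c (b (a (c (l 16332056) (l 16303592)) (c (l 16289784) (l 16259288))) (a (l 16396120) (l 16310848))) (b (c (a (l 16273240) (l 16226784)) (l 16300464)) (a (l 16298984) (l 16251304))))) (b (a (c (a (l 16479504) (l 16434056)) (a (l 16438304) (l 16388776))) (a (c (l 16389680) (l 16340120)) (c (l 16346384) (l 16292336)))) (a (c (a (l 16514056) (l 16468752)) (a (l 16478888) (l 16429384))) (c (a (l 16424496) (l 16381288)) (c (l 16368808) (l 16344216)))))) (b (a (c (a (l 16438520) (l 16435408)) (a (l 16454416) (l 16405056))) (a (c (l 16391400) (l 16440304)) (b (l 16478736) (l 16514992)))) (a (a (b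 (l 16520696) (l 16543616)) (c (l 16583704) (l 16565376))) (c (b (l 16418920) (l 16534448)) (l 16325376))))) (c (b (a (b (a (l 685617338439) (l 16510376)) (a (l 1) (l 696891549847))) (b (l 16580168) (a (l 390874988007) (l 16556952)))) (a (l 1) (b (l 694743988391) (l 1)))) (b (a (b (a (l 437045952951) (l 16517424)) (l 830035516375)) (b (l 16566232) (l 376916288615))) (a (l 1) (b (l 679174712839) (l 1)))))), by decide +kernel⟩

def k2_A04pm_022_s1 : ∃ t, chk3 f_A04pm_022_s1 t 19 4 1 = true :=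
  ⟨(b (b (a (b (c (a (b (c (l 16248760) (l 16216112)) (l 16268688)) (b (c (l 16208888) (l 16174056)) (c (l 16243488) (l 16211208)))) (a (b (l 16163128) (l 16204512)) (c (l 16073000) (l 16118872)))) (c (a (b (l 16304184) (l 16339136)) (c (l 16294552) (l 16266112))) (a (l 16265704) (c (l 16235696) (l 16203304))))) (b (c (a (b (c (l 16166472) (l 16131864)) (l 16185104)) (b (l 16106872) (l 16142544))) (c (a (l 16115040) (l 16074672)) (l 16005784))) (c (a (l 16321864) (l 16195232)) (c (l 16172992) (l 16141800))))) (b (a (c (a (l 16390296) (l 16349272)) (a (l 16345400) (l 16299264))) (c (b (l 16352232) (l 16302200)) (c (l 16249424) (l 16223592)))) (a (c (c (l 16275912) (l 16343040)) (a (l 16422368) (l 16376216))) (c (a (l 16372944) (l 16330496)) (l 16313456))))) (b (a (a (c (l 16463728) (l 16447304)) (c (l 16339832) (l 16317664))) (c (a (l 16382264) (l 16382496)) (b (l 16303368) (l 16457512)))) (a (b (a (l 372621257543) (a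 (l 16435936) (l 16521696))) (a (l 1) (l 644814701415))) (c (b (l 16521176) (l 387653549655)) (b (l 16523552) (l 16373040)))))), by decide +kernel⟩

def k3_A04pm_022_s1 : ∃ t, chk3 f_A04pm_022_s1 t 9 5 1 = true :=
  ⟨(a (l 1) (b (b (a (l 1) (b (a (l 1) (l 603475582407)) (l 1))) (l 1)) (l 1))), by decide +kernel⟩

def k4_A04pm_022_s1 : ∃ t, chk3 f_A04pm_022_s1 t 4 3 1 = true :=
  ⟨(l 1), by decide +kernel⟩

def k5_A04pm_022_s1 : ∃ t, chk3 f_A04pm_022_s1 t 10 4 1 = true :=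
  ⟨(b (b (a (a (c (b (a (b (l 16065536) (l 16101160)) (b (l 16025224) (l 16061056))) (a (l 16153912) (l 16113696))) (b (c (l 15932048) (l 15982616)) (c (l 16093864) (l 16065696)))) (a (b (c (l 16046144) (l 15943296)) (c (l 16075032) (l 16023704))) (c (a (b (l 15975920) (l 16047232)) (b (a (l 15962648) (l 15954632)) (a (l 16034256) (l 16026440)))) (a (b (l 15915624) (l 15996392)) (b (a (l 15902008) (l 15892344)) (l 15978176)))))) (b (c (a (b (l 15895760) (l 15932632)) (b (c (l 15843576) (l 15804904)) (l 15861440))) (a (b (l 15825112) (l 15866928)) (b (l 15743792) (l 15786096)))) (c (a (l 15986536) (l 15915792)) (a (l 15927896) (l 15847960))))) (b (a (a (c (a (l 16222520) (l 16182320)) (l 16074328)) (a (c (l 16143832) (l 16101720)) (a (l 16095424) (c (l 16099280) (l 16056000))))) (c (a (l 16055864) (l 15985960)) (a (l 16006040) (l 15927376)))) (a (a (c (l 16269200) (l 16234424)) (a (l 16110352) (a (l 16166520) (c (l 16166256)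 (l 16131360))))) (c (l 16066776) (l 16041896))))) (a (b (a (c (b (l 16333272) (l 16310304)) (l 16175816)) (a (c (l 16306256) (l 16286080)) (a (l 16100960) (c (l 16178792) (l 16239744))))) (a (a (l 16370872) (l 16374392)) (a (l 16337064) (a (l 16393880) (c (l 16380632) (l 16373168)))))) (b (c (a (l 16219320) (l 16149248)) (a (l 16105384) (l 16110776))) (b (a (l 16300488) (l 16226008)) (c (l 16330504) (l 16314176)))))), by decide +kernel⟩

def k6_A04pm_022_s1 : ∃ t, chk3 f_A04pm_022_s1 t 11 4 1 = true :=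
  ⟨(b (a (b (b (c (a (b (l 15755536) (l 15792544)) (b (l 15689472) (l 15726408))) (a (l 15685912) (l 15608984))) (c (a (l 15847216) (l 15780880)) (a (l 15769960) (l 15693816)))) (b (c (a (l 15917824) (l 15851840)) (a (l 15850408) (l 15775384))) (c (l 15952600) (l 15889856)))) (b (l 6) (b (l 6) (c (l 15826128) (l 15745960))))) (a (b (c (b (l 16017600) (l 16080024)) (a (l 16035056) (l 15962112))) (b (c (l 16139656) (l 16099352)) (a (l 16214336) (l 16145688)))) (b (a (b (l 15890272) (l 15957184)) (l 6)) (c (b (l 16015184) (l 16072072)) (l 15823936))))), by decide +kernel⟩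

def k7_A04pm_022_s1 : ∃ t, chk3 f_A04pm_022_s1 t 5 5 1 = true :=
  ⟨(a (b (a (b (a (b (a (l 360809937943) (l 16440072)) (a (l 1) (l 659310054567))) (a (b (l 16442248) (l 16311280)) (a (l 16336216) (l 16251888)))) (a (l 1) (a (l 1) (b (a (l 1) (l 539587754151)) (l 1))))) (b (c (l 16406856) (l 16401592)) (b (l 16191400) (l 309806846167)))) (a (l 1) (b (a (l 1) (l 621191776279)) (l 1)))) (b (b (a (c (l 16274392) (l 16250560)) (b (l 15937216) (l 15990144))) (a (c (l 16347472) (l 16354288)) (c (l 16242800) (l 16216392)))) (a (b (a (l 16088808) (l 16268224)) (a (l 1) (l 598643024455))) (b (l 16282432) (a (l 16097240) (l 16193664)))))), by decide +kernel⟩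

def k8_A04pm_022_s1 : ∃ t, chk3 f_A04pm_022_s1 t 5 3 1 = true :=
  ⟨(a (l 1) (b (b (a (l 1) (b (l 583073513255) (l 1))) (l 1)) (l 1))), by decide +kernel⟩

def k9_A04pm_022_s1 : ∃ t, chk3 f_A04pm_022_s1 t 3 1 1 = true :=
  ⟨(a (a (b (b (l 6) (a (a (b (b (l 16040504) (l 16139648)) (b (l 16225048) (l 16204696))) (b (l 6) (b (l 16168792) (l 16213784)))) (l 6))) (b (b (b (a (l 15943528) (l 16135728)) (a (l 563745962247) (l 16035640))) (a (l 1) (b (l 547102808839) (l 1)))) (l 1))) (b (l 6) (a (b (l 6) (l 1)) (l 6)))) (b (l 6) (l 6))), by decide +kernel⟩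

theorem t10_A04pm_022_s1 : ∃ t, chk3 f_A04pm_022_s1 t 5 4 1 = true := ex3_a k5_A04pm_022_s1 k6_A04pm_022_s1

theorem t11_A04pm_022_s1 : ∃ t, chk3 f_A04pm_022_s1 t 5 2 1 = true := ex3_b t10_A04pm_022_s1 k7_A04pm_022_s1

theorem t12_A04pm_022_s1 : ∃ t, chk3 f_A04pm_022_s1 t 5 1 1 = true := ex3_b t11_A04pm_022_s1 k8_A04pm_022_s1

theorem t13_A04pm_022_s1 : ∃ t, chk3 f_A04pm_022_s1 t 9 4 1 = true := ex3_a k1_A04pm_022_s1 k2_A04pm_022_s1

theorem t14_A04pm_022_s1 : ∃ t, chk3 f_A04pm_022_s1 t 9 2 1 = true := ex3_b t13_A04pm_022_s1 k3_A04pm_022_s1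

theorem t15_A04pm_022_s1 : ∃ t, chk3 f_A04pm_022_s1 t 4 2 1 = true := ex3_a k0_A04pm_022_s1 t14_A04pm_022_s1

theorem t16_A04pm_022_s1 : ∃ t, chk3 f_A04pm_022_s1 t 4 1 1 = true := ex3_b t15_A04pm_022_s1 k4_A04pm_022_s1

theorem t17_A04pm_022_s1 : ∃ t, chk3 f_A04pm_022_s1 t 2 1 1 = true := ex3_a t16_A04pm_022_s1 t12_A04pm_022_s1

theorem t18_A04pm_022_s1 : ∃ t, chk3 f_A04pm_022_s1 t 1 1 1 = true := ex3_a t17_A04pm_022_s1 k9_A04pm_022_s1

theorem c_A04pm_022_s1 : CertF 0 536870912 1073741824 536870912 858993459 64424510 true true false .pp 0 2 2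
    ndB0q0 ndB4q2 pcB2 cut_A04pm_022_s1 Ext.none :=
  certF2 (fam := true) (s1 := true) (s2 := false) (a := 0) (b := 2) (c := 2) (cn := .pp) (n1 := ndB0q0) (n2 := ndB4q2) (pc := pcB2) (cut := cut_A04pm_022_s1) (xt := Ext.none) (P1 := 0) (W1 := 536870912) (P2 := 1073741824) (W2 := 536870912) (P3 := 858993459) (W3 := 64424510)
    rfl (fun _ => rfl) t18_A04pm_022_s1

theorem s_A04pm_022_s1 {κ x : ℝ} (hκ : κ * h0 = ken x) (hx : ((858993459 : ℕ) : ℝ) / S ≤ x)
    (hx' : x ≤ (((858993459 : ℕ) : ℝ) + (64424510 : ℕ)) / S)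
    (H : CutA (VFD κ) PP tK tL pcB (Cut.of [[⟨0, 0, 0, 67108864⟩, ⟨1, 1, 0, 67108864⟩, ⟨2, 1, 0, 67108864⟩]]) 0 2 2 0 4 (sgb true) (sgb false) x) :
    AltA (VFD κ) PP tK tL pcB [⟨3, 0, 0, 1449551462⟩] 0 2 2 0 4 (sgb true) (sgb false) x :=
  strip_altAD (m := 1449551462) true rfl hκ (SH.κ0 hκ (SH.hx1 hx).le (SH.hx2 hx').le) (SH.hx1 hx).le (SH.hx2 hx') (covB00).cov (covB42).cov hx hx' c_A04pm_022_s1 H (noExt_A)

noncomputable def cut_A04pm_023_s1 : Cut := Cut.of [[⟨4, 0, 0, 1449551462⟩]]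

noncomputable def f_A04pm_023_s1 : ℕ → ℕ → ℕ → ℕ → Bool := onCell 1610612736 536870912 1073741824 536870912 858993459 64424510
    (rowF 2 true true false .up 0 2 3 (qsf 0 536870912 1073741824 536870912 3) ndB0q0 ndB4q2 pcB3 cut_A04pm_023_s1 Ext.none)

def k0_A04pm_023_s1 : ∃ t, chk3 f_A04pm_023_s1 t 1 1 1 = true :=
  ⟨(a (l 6) (l 6)), by decide +kernel⟩

theorem c_A04pm_023_s1 : CertF 0 536870912 1073741824 536870912 858993459 64424510 true true false .up 0 2 3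
    ndB0q0 ndB4q2 pcB3 cut_A04pm_023_s1 Ext.none :=
  certF2 (fam := true) (s1 := true) (s2 := false) (a := 0) (b := 2) (c := 3) (cn := .up) (n1 := ndB0q0) (n2 := ndB4q2) (pc := pcB3) (cut := cut_A04pm_023_s1) (xt := Ext.none) (P1 := 0) (W1 := 536870912) (P2 := 1073741824) (W2 := 536870912) (P3 := 858993459) (W3 := 64424510)
    rfl (fun _ => rfl) k0_A04pm_023_s1

theorem s_A04pm_023_s1 {κ x : ℝ} (hκ : κ * h0 = ken x) (hx : ((858993459 : ℕ) : ℝ) / S ≤ x)
    (hx' : x ≤ (((858993459 : ℕ) : ℝ) + (64424510 : ℕ)) / S) :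
    AltA (VFD κ) PP tK tL pcB [⟨3, 0, 0, 1449551462⟩] 0 2 3 0 4 (sgb true) (sgb false) x :=
  strip_altAD (m := 1449551462) true rfl hκ (SH.κ0 hκ (SH.hx1 hx).le (SH.hx2 hx').le) (SH.hx1 hx).le (SH.hx2 hx') (covB00).cov (covB42).cov hx hx' c_A04pm_023_s1 cutA_nil (noExt_A)

noncomputable def cut_A04pm_033_s1 : Cut := Cut.of [[⟨4, 0, 0, 1449551462⟩]]

noncomputable def f_A04pm_033_s1 : ℕ → ℕ → ℕ → ℕ → Bool := onCell 1610612736 536870912 0 1230186008 858993459 64424510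
    (rowF 2 true true false .pnn 0 3 3 (qsf 0 536870912 0 1230186008 3) ndB0q0 ndB4q3 pcB3 cut_A04pm_033_s1 Ext.none)

def k0_A04pm_033_s1 : ∃ t, chk3 f_A04pm_033_s1 t 1 1 1 = true :=
  ⟨(b (l 6) (l 6)), by decide +kernel⟩

theorem c_A04pm_033_s1 : CertF 0 536870912 0 1230186008 858993459 64424510 true true false .pnn 0 3 3
    ndB0q0 ndB4q3 pcB3 cut_A04pm_033_s1 Ext.none :=
  certF2 (fam := true) (s1 := true) (s2 := false) (a := 0) (b := 3) (c := 3) (cn := .pnn) (n1 := ndB0q0) (n2 := ndB4q3) (pc := pcB3) (cut := cut_A04pm_033_s1) (xt := Ext.none) (P1 := 0) (W1 := 536870912) (P2 := 0) (W2 := 1230186008) (P3 := 858993459) (W3 := 64424510)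
    rfl (fun _ => rfl) k0_A04pm_033_s1

theorem s_A04pm_033_s1 {κ x : ℝ} (hκ : κ * h0 = ken x) (hx : ((858993459 : ℕ) : ℝ) / S ≤ x)
    (hx' : x ≤ (((858993459 : ℕ) : ℝ) + (64424510 : ℕ)) / S) :
    AltA (VFD κ) PP tK tL pcB [⟨3, 0, 0, 1449551462⟩] 0 3 3 0 4 (sgb true) (sgb false) x :=
  strip_altAD (m := 1449551462) true rfl hκ (SH.κ0 hκ (SH.hx1 hx).le (SH.hx2 hx').le) (SH.hx1 hx).le (SH.hx2 hx') (covB00).cov (covB43).cov hx hx' c_A04pm_033_s1 cutA_nil (noExt_A)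

noncomputable def cut_A04pm_101_s1 : Cut := Cut.of [[⟨4, 0, 0, 1449551462⟩]]

noncomputable def xt_A04pm_101_s1 : Ext := strExt dd true true false .u0 .s0m .u0m .npn 1 0 1 rfl rfl gf1 vv ndB0q1 ndB4q0

noncomputable def f_A04pm_101_s1 : ℕ → ℕ → ℕ → ℕ → Bool := onCell 536870912 536870912 536870912 536870912 858993459 64424510
    (rowF 1 true true false .npn 1 0 1 (qsf 536870912 536870912 0 536870912 1) ndB0q1 ndB4q0 pcB1 cut_A04pm_101_s1 xt_A04pm_101_s1)

def k0_A04pm_101_s1 : ∃ t, chk3 f_A04pm_101_s1 t 1 2 2 = true :=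
  ⟨(a (b (a (b (a (l 3) (b (l 1) (l 525789711))) (a (b (l 524389391) (l 524389391)) (b (l 525118991) (l 525330447)))) (a (b (l 1) (a (b (l 1) (l 525698319)) (l 1))) (l 1))) (a (b (a (b (b (l 524272399) (a (l 523726607) (l 524497423))) (a (c (b (l 522593295) (l 522153231)) (l 524028943)) (b (l 524316943) (l 523974159)))) (b (l 525363983) (a (l 524896015) (l 525466895)))) (a (b (a (b (a (l 522524175) (l 522682383)) (a (l 522445071) (l 522653967))) (b (l 523536399) (l 523066127))) (a (a (b (l 522416399) (l 16605200)) (b (l 16631744) (l 16534248))) (c (l 522110735) (l 523608847)))) (b (b (a (l 524464911) (l 525179407)) (a (l 524116239) (l 16469704))) (b (a (l 16557872) (l 16430928)) (l 523895055))))) (b (b (a (a (l 525882127) (c (l 525149967) (l 16746664))) (l 1)) (a (a (l 525895951) (c (l 525376783) (l 16478384))) (a (c (l 211022854903) (l 16430376)) (l 1)))) (a (b (a (c (l 16420256) (l 16463440)) (c (l 16364504) (l 16416536)))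 (a (c (l 16346424) (l 16390984)) (c (l 16295904) (l 16348048)))) (b (c (a (l 16299832) (l 16233840)) (a (l 16364320) (l 16313008))) (a (c (l 16233688) (l 16296688)) (c (l 16164384) (l 16240288)))))))) (b (l 1) (b (l 1) (a (a (b (l 1) (c (l 16321832) (l 16248912))) (l 1)) (l 1))))), by decide +kernel⟩

def k1_A04pm_101_s1 : ∃ t, chk3 f_A04pm_101_s1 t 1 2 3 = true :=
  ⟨(a (b (a (b (a (l 3) (b (l 1) (l 528304911))) (c (a (l 527780879) (l 528608271)) (a (l 530399759) (l 531172879)))) (a (b (l 1) (a (b (l 1) (l 530156047)) (l 1))) (l 1))) (a (b (a (b (c (l 527161103) (l 529185807)) (a (a (l 527886863) (l 528038927)) (l 528243727))) (b (l 529397519) (c (l 527849487) (l 529935375)))) (a (b (a (b (a (l 527671055) (l 527812367)) (l 527552271)) (b (l 528011535) (l 527823119))) (a (a (l 527142415) (l 527290383)) (b (l 16525312) (l 16581280)))) (b (c (a (l 526806031) (l 16547568)) (a (l 16547040) (l 16598872))) (a (c (l 16526240)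 (l 16579152)) (l 16345784))))) (b (a (b (a (l 529915663) (l 530139151)) (a (l 529512719) (l 529818639))) (a (b (l 1) (l 298532637175)) (l 1))) (b (a (a (l 527339791) (l 16255736)) (a (l 16224720) (l 16114712))) (a (a (l 16386736) (l 16440184)) (a (l 16407008) (l 16372624))))))) (a (b (l 1) (a (a (a (b (l 1) (l 313564390823)) (l 1)) (l 1)) (l 1))) (l 1))), by decide +kernel⟩

def k2_A04pm_101_s1 : ∃ t, chk3 f_A04pm_101_s1 t 1 3 1 = true :=
  ⟨(a (b (a (b (a (a (b (c (a (l 522593807) (c (l 16466880) (l 16500264))) (c (l 16558664) (l 16594304))) (c (c (l 16415528) (l 16452128)) (l 526383631))) (b (c (c (l 16503952) (l 16455144)) (c (l 16512376) (l 16556840))) (c (c (l 16355856) (l 16394352)) (l 16473432)))) (b (c (c (l 524214287) (l 523942927)) (c (l 526376975) (l 528290063))) (a (c (l 16310160) (l 16429048)) (c (l 16235864) (l 16383200))))) (a (a (c (b (l 16458424) (l 16321136)) (b (l 16452720) (l 16386880))) (b (c (l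 16316512) (l 16407632)) (c (l 16263584) (l 16339984)))) (b (c (a (l 16254008) (l 16183648)) (a (l 16361104) (l 16312976))) (c (a (l 16202568) (l 16135240)) (l 16265712))))) (b (b (a (c (a (l 16286720) (l 16245264)) (a (l 16405224) (l 16357552))) (c (a (l 16193944) (l 16132712)) (a (l 16326552) (l 16290080)))) (a (a (c (l 16196856) (l 16335464)) (c (l 16161512) (l 16285384))) (a (c (l 16116280) (l 16232312)) (l 6)))) (a (c (a (b (l 16100736) (l 16063824)) (l 16184128)) (b (l 16236600) (l 16161072))) (a (b (l 6) (l 6)) (l 6))))) (a (b (a (b (c (a (l 16272840) (l 16217032)) (l 16420808)) (a (l 16239760) (l 16189592))) (b (c (l 16127552) (l 16193984)) (c (l 16091016) (l 16123008)))) (a (b (a (l 16182184) (l 16133208)) (a (l 16124704) (l 16077232))) (b (l 16138456) (l 6)))) (b (a (b (c (l 16001664) (l 16084984)) (l 6)) (l 6)) (l 6)))) (a (b (a (l 6) (l 6)) (l 6)) (l 6))), by decide +kernel⟩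

theorem t3_A04pm_101_s1 : ∃ t, chk3 f_A04pm_101_s1 t 1 2 1 = true := ex3_c k0_A04pm_101_s1 k1_A04pm_101_s1

theorem t4_A04pm_101_s1 : ∃ t, chk3 f_A04pm_101_s1 t 1 1 1 = true := ex3_b t3_A04pm_101_s1 k2_A04pm_101_s1

theorem c_A04pm_101_s1 : CertF 536870912 536870912 0 536870912 858993459 64424510 true true false .npn 1 0 1
    ndB0q1 ndB4q0 pcB1 cut_A04pm_101_s1 xt_A04pm_101_s1 :=
  certF1 (fam := true) (s1 := true) (s2 := false) (a := 1) (b := 0) (c := 1) (cn := .npn) (n1 := ndB0q1) (n2 := ndB4q0) (pc := pcB1) (cut := cut_A04pm_101_s1) (xt := xt_A04pm_101_s1) (P1 := 536870912) (W1 := 536870912) (P2 := 0) (W2 := 536870912) (P3 := 858993459) (W3 := 64424510)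
    rfl (fun _ => rfl) t4_A04pm_101_s1

theorem s_A04pm_101_s1 {κ x : ℝ} (hκ : κ * h0 = ken x) (hx : ((858993459 : ℕ) : ℝ) / S ≤ x)
    (hx' : x ≤ (((858993459 : ℕ) : ℝ) + (64424510 : ℕ)) / S) :
    AltA (VFD κ) PP tK tL pcB [⟨3, 0, 0, 1449551462⟩] 1 0 1 0 4 (sgb true) (sgb false) x :=
  strip_altAD (m := 1449551462) true rfl hκ (SH.κ0 hκ (SH.hx1 hx).le (SH.hx2 hx').le) (SH.hx1 hx).le (SH.hx2 hx') (covB01).cov (covB40).cov hx hx' c_A04pm_101_s1 cutA_nil ((okx hx hx').extA (T := tt) (sideB hx hx') hκ rfl rfl (.O 1 true) (.N 0 false) (Or.inr rfl))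

noncomputable def cut_A04pm_102_s1 : Cut := Cut.of [[⟨4, 0, 0, 1449551462⟩]]

noncomputable def f_A04pm_102_s1 : ℕ → ℕ → ℕ → ℕ → Bool := onCell 536870912 536870912 1073741824 536870912 858993459 64424510
    (rowF 1 true true false .npp 1 0 2 (qsf 536870912 536870912 0 536870912 2) ndB0q1 ndB4q0 pcB2 cut_A04pm_102_s1 Ext.none)

def k0_A04pm_102_s1 : ∃ t, chk3 f_A04pm_102_s1 t 1 1 1 = true :=
  ⟨(a (b (a (b (b (a (b (a (l 6) (l 6)) (l 6)) (l 6)) (l 6)) (l 6)) (l 6)) (l 6)) (l 6)), by decide +kernel⟩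

theorem c_A04pm_102_s1 : CertF 536870912 536870912 0 536870912 858993459 64424510 true true false .npp 1 0 2
    ndB0q1 ndB4q0 pcB2 cut_A04pm_102_s1 Ext.none :=
  certF1 (fam := true) (s1 := true) (s2 := false) (a := 1) (b := 0) (c := 2) (cn := .npp) (n1 := ndB0q1) (n2 := ndB4q0) (pc := pcB2) (cut := cut_A04pm_102_s1) (xt := Ext.none) (P1 := 536870912) (W1 := 536870912) (P2 := 0) (W2 := 536870912) (P3 := 858993459) (W3 := 64424510)
    rfl (fun _ => rfl) k0_A04pm_102_s1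

theorem s_A04pm_102_s1 {κ x : ℝ} (hκ : κ * h0 = ken x) (hx : ((858993459 : ℕ) : ℝ) / S ≤ x)
    (hx' : x ≤ (((858993459 : ℕ) : ℝ) + (64424510 : ℕ)) / S) :
    AltA (VFD κ) PP tK tL pcB [⟨3, 0, 0, 1449551462⟩] 1 0 2 0 4 (sgb true) (sgb false) x :=
  strip_altAD (m := 1449551462) true rfl hκ (SH.κ0 hκ (SH.hx1 hx).le (SH.hx2 hx').le) (SH.hx1 hx).le (SH.hx2 hx') (covB01).cov (covB40).cov hx hx' c_A04pm_102_s1 cutA_nil (noExt_A)

noncomputable def cut_A04pm_112_s1 : Cut := Cut.of [[⟨4, 0, 0, 1449551462⟩]]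

noncomputable def f_A04pm_112_s1 : ℕ → ℕ → ℕ → ℕ → Bool := onCell 536870912 536870912 1073741824 536870912 858993459 64424510
    (rowF 1 true true false .dn 1 1 2 (qsf 536870912 536870912 536870912 536870912 2) ndB0q1 ndB4q1 pcB2 cut_A04pm_112_s1 Ext.none)

def k0_A04pm_112_s1 : ∃ t, chk3 f_A04pm_112_s1 t 1 1 1 = true :=
  ⟨(a (b (a (b (b (a (b (l 16148536) (l 6)) (l 6)) (l 6)) (l 6)) (l 6)) (l 6)) (l 6)), by decide +kernel⟩

theorem c_A04pm_112_s1 : CertF 536870912 536870912 536870912 536870912 858993459 64424510 true true false .dn 1 1 2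
    ndB0q1 ndB4q1 pcB2 cut_A04pm_112_s1 Ext.none :=
  certF1 (fam := true) (s1 := true) (s2 := false) (a := 1) (b := 1) (c := 2) (cn := .dn) (n1 := ndB0q1) (n2 := ndB4q1) (pc := pcB2) (cut := cut_A04pm_112_s1) (xt := Ext.none) (P1 := 536870912) (W1 := 536870912) (P2 := 536870912) (W2 := 536870912) (P3 := 858993459) (W3 := 64424510)
    rfl (fun _ => rfl) k0_A04pm_112_s1

theorem s_A04pm_112_s1 {κ x : ℝ} (hκ : κ * h0 = ken x) (hx : ((858993459 : ℕ) : ℝ) / S ≤ x)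
    (hx' : x ≤ (((858993459 : ℕ) : ℝ) + (64424510 : ℕ)) / S) :
    AltA (VFD κ) PP tK tL pcB [⟨3, 0, 0, 1449551462⟩] 1 1 2 0 4 (sgb true) (sgb false) x :=
  strip_altAD (m := 1449551462) true rfl hκ (SH.κ0 hκ (SH.hx1 hx).le (SH.hx2 hx').le) (SH.hx1 hx).le (SH.hx2 hx') (covB01).cov (covB41).cov hx hx' c_A04pm_112_s1 cutA_nil (noExt_A)

noncomputable def cut_A04pm_113_s1 : Cut := Cut.of [[⟨4, 0, 0, 1449551462⟩]]

noncomputable def f_A04pm_113_s1 : ℕ → ℕ → ℕ → ℕ → Bool := onCell 536870912 536870912 1610612736 536870912 858993459 64424510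
    (rowF 1 true true false .nn 1 1 3 (qsf 536870912 536870912 536870912 536870912 3) ndB0q1 ndB4q1 pcB3 cut_A04pm_113_s1 Ext.none)

def k0_A04pm_113_s1 : ∃ t, chk3 f_A04pm_113_s1 t 1 1 1 = true :=
  ⟨(l 6), by decide +kernel⟩

theorem c_A04pm_113_s1 : CertF 536870912 536870912 536870912 536870912 858993459 64424510 true true false .nn 1 1 3
    ndB0q1 ndB4q1 pcB3 cut_A04pm_113_s1 Ext.none :=
  certF1 (fam := true) (s1 := true) (s2 := false) (a := 1) (b := 1) (c := 3) (cn := .nn) (n1 := ndB0q1) (n2 := ndB4q1) (pc := pcB3) (cut := cut_A04pm_113_s1) (xt := Ext.none) (P1 := 536870912) (W1 := 536870912) (P2 := 536870912) (W2 := 536870912) (P3 := 858993459) (W3 := 64424510)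
    rfl (fun _ => rfl) k0_A04pm_113_s1

theorem s_A04pm_113_s1 {κ x : ℝ} (hκ : κ * h0 = ken x) (hx : ((858993459 : ℕ) : ℝ) / S ≤ x)
    (hx' : x ≤ (((858993459 : ℕ) : ℝ) + (64424510 : ℕ)) / S) :
    AltA (VFD κ) PP tK tL pcB [⟨3, 0, 0, 1449551462⟩] 1 1 3 0 4 (sgb true) (sgb false) x :=
  strip_altAD (m := 1449551462) true rfl hκ (SH.κ0 hκ (SH.hx1 hx).le (SH.hx2 hx').le) (SH.hx1 hx).le (SH.hx2 hx') (covB01).cov (covB41).cov hx hx' c_A04pm_113_s1 cutA_nil (noExt_A)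

noncomputable def cut_A04pm_123_s1 : Cut := Cut.of [[⟨4, 0, 0, 1449551462⟩]]

noncomputable def f_A04pm_123_s1 : ℕ → ℕ → ℕ → ℕ → Bool := onCell 536870912 536870912 1073741824 536870912 858993459 64424510
    (rowF 0 true true false .npn 1 2 3 (qsf 536870912 536870912 1073741824 536870912 3) ndB0q1 ndB4q2 pcB3 cut_A04pm_123_s1 Ext.none)

def k0_A04pm_123_s1 : ∃ t, chk3 f_A04pm_123_s1 t 1 1 1 = true :=
  ⟨(l 6), by decide +kernel⟩

theorem c_A04pm_123_s1 : CertF 536870912 536870912 1073741824 536870912 858993459 64424510 true true false .npn 1 2 3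
    ndB0q1 ndB4q2 pcB3 cut_A04pm_123_s1 Ext.none :=
  certF0 (fam := true) (s1 := true) (s2 := false) (a := 1) (b := 2) (c := 3) (cn := .npn) (n1 := ndB0q1) (n2 := ndB4q2) (pc := pcB3) (cut := cut_A04pm_123_s1) (xt := Ext.none) (P1 := 536870912) (W1 := 536870912) (P2 := 1073741824) (W2 := 536870912) (P3 := 858993459) (W3 := 64424510)
    rfl k0_A04pm_123_s1

theorem s_A04pm_123_s1 {κ x : ℝ} (hκ : κ * h0 = ken x) (hx : ((858993459 : ℕ) : ℝ) / S ≤ x)
    (hx' : x ≤ (((858993459 : ℕ) : ℝ) + (64424510 : ℕ)) / S) :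
    AltA (VFD κ) PP tK tL pcB [⟨3, 0, 0, 1449551462⟩] 1 2 3 0 4 (sgb true) (sgb false) x :=
  strip_altAD (m := 1449551462) true rfl hκ (SH.κ0 hκ (SH.hx1 hx).le (SH.hx2 hx').le) (SH.hx1 hx).le (SH.hx2 hx') (covB01).cov (covB42).cov hx hx' c_A04pm_123_s1 cutA_nil (noExt_A)

noncomputable def cut_A04pm_133_s1 : Cut := Cut.of [[⟨4, 0, 0, 1449551462⟩]]

noncomputable def f_A04pm_133_s1 : ℕ → ℕ → ℕ → ℕ → Bool := onCell 536870912 536870912 0 1230186008 858993459 64424510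
    (rowF 0 true true false .dn 1 3 3 (qsf 536870912 536870912 0 1230186008 3) ndB0q1 ndB4q3 pcB3 cut_A04pm_133_s1 Ext.none)

def k0_A04pm_133_s1 : ∃ t, chk3 f_A04pm_133_s1 t 1 1 1 = true :=
  ⟨(l 6), by decide +kernel⟩

theorem c_A04pm_133_s1 : CertF 536870912 536870912 0 1230186008 858993459 64424510 true true false .dn 1 3 3
    ndB0q1 ndB4q3 pcB3 cut_A04pm_133_s1 Ext.none :=
  certF0 (fam := true) (s1 := true) (s2 := false) (a := 1) (b := 3) (c := 3) (cn := .dn) (n1 := ndB0q1) (n2 := ndB4q3) (pc := pcB3) (cut := cut_A04pm_133_s1) (xt := Ext.none) (P1 := 536870912) (W1 := 536870912) (P2 := 0) (W2 := 1230186008) (P3 := 858993459) (W3 := 64424510)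
    rfl k0_A04pm_133_s1

theorem s_A04pm_133_s1 {κ x : ℝ} (hκ : κ * h0 = ken x) (hx : ((858993459 : ℕ) : ℝ) / S ≤ x)
    (hx' : x ≤ (((858993459 : ℕ) : ℝ) + (64424510 : ℕ)) / S) :
    AltA (VFD κ) PP tK tL pcB [⟨3, 0, 0, 1449551462⟩] 1 3 3 0 4 (sgb true) (sgb false) x :=
  strip_altAD (m := 1449551462) true rfl hκ (SH.κ0 hκ (SH.hx1 hx).le (SH.hx2 hx').le) (SH.hx1 hx).le (SH.hx2 hx') (covB01).cov (covB43).cov hx hx' c_A04pm_133_s1 cutA_nil (noExt_A)

noncomputable def cut_A04pm_202_s1 : Cut := Cut.of [[⟨4, 0, 0, 1449551462⟩]]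

noncomputable def f_A04pm_202_s1 : ℕ → ℕ → ℕ → ℕ → Bool := onCell 0 536870912 0 536870912 858993459 64424510
    (rowF 0 true true false .pp 2 0 2 (qsf 0 536870912 0 536870912 2) ndB0q2 ndB4q0 pcB2 cut_A04pm_202_s1 Ext.none)

def k0_A04pm_202_s1 : ∃ t, chk3 f_A04pm_202_s1 t 1 1 1 = true :=
  ⟨(l 6), by decide +kernel⟩

theorem c_A04pm_202_s1 : CertF 0 536870912 0 536870912 858993459 64424510 true true false .pp 2 0 2
    ndB0q2 ndB4q0 pcB2 cut_A04pm_202_s1 Ext.none :=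
  certF0 (fam := true) (s1 := true) (s2 := false) (a := 2) (b := 0) (c := 2) (cn := .pp) (n1 := ndB0q2) (n2 := ndB4q0) (pc := pcB2) (cut := cut_A04pm_202_s1) (xt := Ext.none) (P1 := 0) (W1 := 536870912) (P2 := 0) (W2 := 536870912) (P3 := 858993459) (W3 := 64424510)
    rfl k0_A04pm_202_s1

theorem s_A04pm_202_s1 {κ x : ℝ} (hκ : κ * h0 = ken x) (hx : ((858993459 : ℕ) : ℝ) / S ≤ x)
    (hx' : x ≤ (((858993459 : ℕ) : ℝ) + (64424510 : ℕ)) / S) :
    AltA (VFD κ) PP tK tL pcB [⟨3, 0, 0, 1449551462⟩] 2 0 2 0 4 (sgb true) (sgb false) x :=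
  strip_altAD (m := 1449551462) true rfl hκ (SH.κ0 hκ (SH.hx1 hx).le (SH.hx2 hx').le) (SH.hx1 hx).le (SH.hx2 hx') (covB02).cov (covB40).cov hx hx' c_A04pm_202_s1 cutA_nil (noExt_A)

noncomputable def cut_A04pm_203_s1 : Cut := Cut.of [[⟨4, 0, 0, 1449551462⟩]]

noncomputable def f_A04pm_203_s1 : ℕ → ℕ → ℕ → ℕ → Bool := onCell 0 536870912 0 536870912 858993459 64424510
    (rowF 0 true true false .up 2 0 3 (qsf 0 536870912 0 536870912 3) ndB0q2 ndB4q0 pcB3 cut_A04pm_203_s1 Ext.none)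

def k0_A04pm_203_s1 : ∃ t, chk3 f_A04pm_203_s1 t 1 1 1 = true :=
  ⟨(l 6), by decide +kernel⟩

theorem c_A04pm_203_s1 : CertF 0 536870912 0 536870912 858993459 64424510 true true false .up 2 0 3
    ndB0q2 ndB4q0 pcB3 cut_A04pm_203_s1 Ext.none :=
  certF0 (fam := true) (s1 := true) (s2 := false) (a := 2) (b := 0) (c := 3) (cn := .up) (n1 := ndB0q2) (n2 := ndB4q0) (pc := pcB3) (cut := cut_A04pm_203_s1) (xt := Ext.none) (P1 := 0) (W1 := 536870912) (P2 := 0) (W2 := 536870912) (P3 := 858993459) (W3 := 64424510)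
    rfl k0_A04pm_203_s1

theorem s_A04pm_203_s1 {κ x : ℝ} (hκ : κ * h0 = ken x) (hx : ((858993459 : ℕ) : ℝ) / S ≤ x)
    (hx' : x ≤ (((858993459 : ℕ) : ℝ) + (64424510 : ℕ)) / S) :
    AltA (VFD κ) PP tK tL pcB [⟨3, 0, 0, 1449551462⟩] 2 0 3 0 4 (sgb true) (sgb false) x :=
  strip_altAD (m := 1449551462) true rfl hκ (SH.κ0 hκ (SH.hx1 hx).le (SH.hx2 hx').le) (SH.hx1 hx).le (SH.hx2 hx') (covB02).cov (covB40).cov hx hx' c_A04pm_203_s1 cutA_nil (noExt_A)

noncomputable def cut_A04pm_213_s1 : Cut := Cut.of [[⟨4, 0, 0, 1449551462⟩]]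

noncomputable def f_A04pm_213_s1 : ℕ → ℕ → ℕ → ℕ → Bool := onCell 0 536870912 536870912 536870912 858993459 64424510
    (rowF 0 true true false .pnn 2 1 3 (qsf 0 536870912 536870912 536870912 3) ndB0q2 ndB4q1 pcB3 cut_A04pm_213_s1 Ext.none)

def k0_A04pm_213_s1 : ∃ t, chk3 f_A04pm_213_s1 t 1 1 1 = true :=
  ⟨(l 6), by decide +kernel⟩

theorem c_A04pm_213_s1 : CertF 0 536870912 536870912 536870912 858993459 64424510 true true false .pnn 2 1 3
    ndB0q2 ndB4q1 pcB3 cut_A04pm_213_s1 Ext.none :=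
  certF0 (fam := true) (s1 := true) (s2 := false) (a := 2) (b := 1) (c := 3) (cn := .pnn) (n1 := ndB0q2) (n2 := ndB4q1) (pc := pcB3) (cut := cut_A04pm_213_s1) (xt := Ext.none) (P1 := 0) (W1 := 536870912) (P2 := 536870912) (W2 := 536870912) (P3 := 858993459) (W3 := 64424510)
    rfl k0_A04pm_213_s1

theorem s_A04pm_213_s1 {κ x : ℝ} (hκ : κ * h0 = ken x) (hx : ((858993459 : ℕ) : ℝ) / S ≤ x)
    (hx' : x ≤ (((858993459 : ℕ) : ℝ) + (64424510 : ℕ)) / S) :
    AltA (VFD κ) PP tK tL pcB [⟨3, 0, 0, 1449551462⟩] 2 1 3 0 4 (sgb true) (sgb false) x :=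
  strip_altAD (m := 1449551462) true rfl hκ (SH.κ0 hκ (SH.hx1 hx).le (SH.hx2 hx').le) (SH.hx1 hx).le (SH.hx2 hx') (covB02).cov (covB41).cov hx hx' c_A04pm_213_s1 cutA_nil (noExt_A)

noncomputable def cut_A04mm_001_s1 : Cut := Cut.of [[⟨4, 0, 0, 1449551462⟩]]

noncomputable def f_A04mm_001_s1 : ℕ → ℕ → ℕ → ℕ → Bool := onCell 0 536870912 0 536870912 858993459 64424510
    (rowF 0 true false false .up 0 0 1 (qsf 0 536870912 0 536870912 1) ndB0q0 ndB4q0 pcB1 cut_A04mm_001_s1 Ext.none)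

def k0_A04mm_001_s1 : ∃ t, chk3 f_A04mm_001_s1 t 1 1 1 = true :=
  ⟨(l 4), by decide +kernel⟩

theorem c_A04mm_001_s1 : CertF 0 536870912 0 536870912 858993459 64424510 true false false .up 0 0 1
    ndB0q0 ndB4q0 pcB1 cut_A04mm_001_s1 Ext.none :=
  certF0 (fam := true) (s1 := false) (s2 := false) (a := 0) (b := 0) (c := 1) (cn := .up) (n1 := ndB0q0) (n2 := ndB4q0) (pc := pcB1) (cut := cut_A04mm_001_s1) (xt := Ext.none) (P1 := 0) (W1 := 536870912) (P2 := 0) (W2 := 536870912) (P3 := 858993459) (W3 := 64424510)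
    rfl k0_A04mm_001_s1

theorem s_A04mm_001_s1 {κ x : ℝ} (hκ : κ * h0 = ken x) (hx : ((858993459 : ℕ) : ℝ) / S ≤ x)
    (hx' : x ≤ (((858993459 : ℕ) : ℝ) + (64424510 : ℕ)) / S) :
    AltA (VFD κ) PP tK tL pcB [⟨3, 0, 0, 1449551462⟩] 0 0 1 0 4 (sgb false) (sgb false) x :=
  strip_altAD (m := 1449551462) true rfl hκ (SH.κ0 hκ (SH.hx1 hx).le (SH.hx2 hx').le) (SH.hx1 hx).le (SH.hx2 hx') (covB00).cov (covB40).cov hx hx' c_A04mm_001_s1 cutA_nil (noExt_A)

noncomputable def cut_A04mm_011_s1 : Cut := Cut.of [[⟨4, 0, 0, 1449551462⟩]]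

noncomputable def f_A04mm_011_s1 : ℕ → ℕ → ℕ → ℕ → Bool := onCell 0 536870912 536870912 536870912 858993459 64424510
    (rowF 0 true false false .pnn 0 1 1 (qsf 0 536870912 536870912 536870912 1) ndB0q0 ndB4q1 pcB1 cut_A04mm_011_s1 Ext.none)

def k0_A04mm_011_s1 : ∃ t, chk3 f_A04mm_011_s1 t 1 1 1 = true :=
  ⟨(l 4), by decide +kernel⟩

theorem c_A04mm_011_s1 : CertF 0 536870912 536870912 536870912 858993459 64424510 true false false .pnn 0 1 1
    ndB0q0 ndB4q1 pcB1 cut_A04mm_011_s1 Ext.none :=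
  certF0 (fam := true) (s1 := false) (s2 := false) (a := 0) (b := 1) (c := 1) (cn := .pnn) (n1 := ndB0q0) (n2 := ndB4q1) (pc := pcB1) (cut := cut_A04mm_011_s1) (xt := Ext.none) (P1 := 0) (W1 := 536870912) (P2 := 536870912) (W2 := 536870912) (P3 := 858993459) (W3 := 64424510)
    rfl k0_A04mm_011_s1

theorem s_A04mm_011_s1 {κ x : ℝ} (hκ : κ * h0 = ken x) (hx : ((858993459 : ℕ) : ℝ) / S ≤ x)
    (hx' : x ≤ (((858993459 : ℕ) : ℝ) + (64424510 : ℕ)) / S) :
    AltA (VFD κ) PP tK tL pcB [⟨3, 0, 0, 1449551462⟩] 0 1 1 0 4 (sgb false) (sgb false) x :=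
  strip_altAD (m := 1449551462) true rfl hκ (SH.κ0 hκ (SH.hx1 hx).le (SH.hx2 hx').le) (SH.hx1 hx).le (SH.hx2 hx') (covB00).cov (covB41).cov hx hx' c_A04mm_011_s1 cutA_nil (noExt_A)

noncomputable def cut_A04mm_012_s1 : Cut := Cut.of [[⟨4, 0, 0, 1449551462⟩]]

noncomputable def f_A04mm_012_s1 : ℕ → ℕ → ℕ → ℕ → Bool := onCell 0 536870912 536870912 536870912 858993459 64424510
    (rowF 0 true false false .pnp 0 1 2 (qsf 0 536870912 536870912 536870912 2) ndB0q0 ndB4q1 pcB2 cut_A04mm_012_s1 Ext.none)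

def k0_A04mm_012_s1 : ∃ t, chk3 f_A04mm_012_s1 t 1 1 1 = true :=
  ⟨(l 4), by decide +kernel⟩

theorem c_A04mm_012_s1 : CertF 0 536870912 536870912 536870912 858993459 64424510 true false false .pnp 0 1 2
    ndB0q0 ndB4q1 pcB2 cut_A04mm_012_s1 Ext.none :=
  certF0 (fam := true) (s1 := false) (s2 := false) (a := 0) (b := 1) (c := 2) (cn := .pnp) (n1 := ndB0q0) (n2 := ndB4q1) (pc := pcB2) (cut := cut_A04mm_012_s1) (xt := Ext.none) (P1 := 0) (W1 := 536870912) (P2 := 536870912) (W2 := 536870912) (P3 := 858993459) (W3 := 64424510)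
    rfl k0_A04mm_012_s1

theorem s_A04mm_012_s1 {κ x : ℝ} (hκ : κ * h0 = ken x) (hx : ((858993459 : ℕ) : ℝ) / S ≤ x)
    (hx' : x ≤ (((858993459 : ℕ) : ℝ) + (64424510 : ℕ)) / S) :
    AltA (VFD κ) PP tK tL pcB [⟨3, 0, 0, 1449551462⟩] 0 1 2 0 4 (sgb false) (sgb false) x :=
  strip_altAD (m := 1449551462) true rfl hκ (SH.κ0 hκ (SH.hx1 hx).le (SH.hx2 hx').le) (SH.hx1 hx).le (SH.hx2 hx') (covB00).cov (covB41).cov hx hx' c_A04mm_012_s1 cutA_nil (noExt_A)

noncomputable def cut_A04mm_022_s1 : Cut := Cut.of [[⟨4, 0, 0, 1449551462⟩]]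

noncomputable def f_A04mm_022_s1 : ℕ → ℕ → ℕ → ℕ → Bool := onCell 0 536870912 1073741824 536870912 858993459 64424510
    (rowF 0 true false false .pp 0 2 2 (qsf 0 536870912 1073741824 536870912 2) ndB0q0 ndB4q2 pcB2 cut_A04mm_022_s1 Ext.none)

def k0_A04mm_022_s1 : ∃ t, chk3 f_A04mm_022_s1 t 1 1 1 = true :=
  ⟨(l 4), by decide +kernel⟩

theorem c_A04mm_022_s1 : CertF 0 536870912 1073741824 536870912 858993459 64424510 true false false .pp 0 2 2
    ndB0q0 ndB4q2 pcB2 cut_A04mm_022_s1 Ext.none :=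
  certF0 (fam := true) (s1 := false) (s2 := false) (a := 0) (b := 2) (c := 2) (cn := .pp) (n1 := ndB0q0) (n2 := ndB4q2) (pc := pcB2) (cut := cut_A04mm_022_s1) (xt := Ext.none) (P1 := 0) (W1 := 536870912) (P2 := 1073741824) (W2 := 536870912) (P3 := 858993459) (W3 := 64424510)
    rfl k0_A04mm_022_s1

theorem s_A04mm_022_s1 {κ x : ℝ} (hκ : κ * h0 = ken x) (hx : ((858993459 : ℕ) : ℝ) / S ≤ x)
    (hx' : x ≤ (((858993459 : ℕ) : ℝ) + (64424510 : ℕ)) / S) :
    AltA (VFD κ) PP tK tL pcB [⟨3, 0, 0, 1449551462⟩] 0 2 2 0 4 (sgb false) (sgb false) x :=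
  strip_altAD (m := 1449551462) true rfl hκ (SH.κ0 hκ (SH.hx1 hx).le (SH.hx2 hx').le) (SH.hx1 hx).le (SH.hx2 hx') (covB00).cov (covB42).cov hx hx' c_A04mm_022_s1 cutA_nil (noExt_A)

noncomputable def cut_A04mm_023_s1 : Cut := Cut.of [[⟨4, 0, 0, 1449551462⟩]]

noncomputable def f_A04mm_023_s1 : ℕ → ℕ → ℕ → ℕ → Bool := onCell 0 536870912 1073741824 536870912 858993459 64424510
    (rowF 0 true false false .up 0 2 3 (qsf 0 536870912 1073741824 536870912 3) ndB0q0 ndB4q2 pcB3 cut_A04mm_023_s1 Ext.none)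

def k0_A04mm_023_s1 : ∃ t, chk3 f_A04mm_023_s1 t 1 1 1 = true :=
  ⟨(l 4), by decide +kernel⟩

theorem c_A04mm_023_s1 : CertF 0 536870912 1073741824 536870912 858993459 64424510 true false false .up 0 2 3
    ndB0q0 ndB4q2 pcB3 cut_A04mm_023_s1 Ext.none :=
  certF0 (fam := true) (s1 := false) (s2 := false) (a := 0) (b := 2) (c := 3) (cn := .up) (n1 := ndB0q0) (n2 := ndB4q2) (pc := pcB3) (cut := cut_A04mm_023_s1) (xt := Ext.none) (P1 := 0) (W1 := 536870912) (P2 := 1073741824) (W2 := 536870912) (P3 := 858993459) (W3 := 64424510)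
    rfl k0_A04mm_023_s1

theorem s_A04mm_023_s1 {κ x : ℝ} (hκ : κ * h0 = ken x) (hx : ((858993459 : ℕ) : ℝ) / S ≤ x)
    (hx' : x ≤ (((858993459 : ℕ) : ℝ) + (64424510 : ℕ)) / S) :
    AltA (VFD κ) PP tK tL pcB [⟨3, 0, 0, 1449551462⟩] 0 2 3 0 4 (sgb false) (sgb false) x :=
  strip_altAD (m := 1449551462) true rfl hκ (SH.κ0 hκ (SH.hx1 hx).le (SH.hx2 hx').le) (SH.hx1 hx).le (SH.hx2 hx') (covB00).cov (covB42).cov hx hx' c_A04mm_023_s1 cutA_nil (noExt_A)

noncomputable def cut_A04mm_033_s1 : Cut := Cut.of [[⟨4, 0, 0, 1449551462⟩]]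

noncomputable def f_A04mm_033_s1 : ℕ → ℕ → ℕ → ℕ → Bool := onCell 0 536870912 0 1230186008 858993459 64424510
    (rowF 0 true false false .pnn 0 3 3 (qsf 0 536870912 0 1230186008 3) ndB0q0 ndB4q3 pcB3 cut_A04mm_033_s1 Ext.none)

def k0_A04mm_033_s1 : ∃ t, chk3 f_A04mm_033_s1 t 1 1 1 = true :=
  ⟨(l 4), by decide +kernel⟩

theorem c_A04mm_033_s1 : CertF 0 536870912 0 1230186008 858993459 64424510 true false false .pnn 0 3 3
    ndB0q0 ndB4q3 pcB3 cut_A04mm_033_s1 Ext.none :=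
  certF0 (fam := true) (s1 := false) (s2 := false) (a := 0) (b := 3) (c := 3) (cn := .pnn) (n1 := ndB0q0) (n2 := ndB4q3) (pc := pcB3) (cut := cut_A04mm_033_s1) (xt := Ext.none) (P1 := 0) (W1 := 536870912) (P2 := 0) (W2 := 1230186008) (P3 := 858993459) (W3 := 64424510)
    rfl k0_A04mm_033_s1

theorem s_A04mm_033_s1 {κ x : ℝ} (hκ : κ * h0 = ken x) (hx : ((858993459 : ℕ) : ℝ) / S ≤ x)
    (hx' : x ≤ (((858993459 : ℕ) : ℝ) + (64424510 : ℕ)) / S) :
    AltA (VFD κ) PP tK tL pcB [⟨3, 0, 0, 1449551462⟩] 0 3 3 0 4 (sgb false) (sgb false) x :=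
  strip_altAD (m := 1449551462) true rfl hκ (SH.κ0 hκ (SH.hx1 hx).le (SH.hx2 hx').le) (SH.hx1 hx).le (SH.hx2 hx') (covB00).cov (covB43).cov hx hx' c_A04mm_033_s1 cutA_nil (noExt_A)

noncomputable def cut_A04mm_101_s1 : Cut := Cut.of [[⟨4, 0, 0, 1449551462⟩]]

noncomputable def f_A04mm_101_s1 : ℕ → ℕ → ℕ → ℕ → Bool := onCell 536870912 536870912 0 536870912 858993459 64424510
    (rowF 0 true false false .npn 1 0 1 (qsf 536870912 536870912 0 536870912 1) ndB0q1 ndB4q0 pcB1 cut_A04mm_101_s1 Ext.none)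

def k0_A04mm_101_s1 : ∃ t, chk3 f_A04mm_101_s1 t 1 1 1 = true :=
  ⟨(l 4), by decide +kernel⟩

theorem c_A04mm_101_s1 : CertF 536870912 536870912 0 536870912 858993459 64424510 true false false .npn 1 0 1
    ndB0q1 ndB4q0 pcB1 cut_A04mm_101_s1 Ext.none :=
  certF0 (fam := true) (s1 := false) (s2 := false) (a := 1) (b := 0) (c := 1) (cn := .npn) (n1 := ndB0q1) (n2 := ndB4q0) (pc := pcB1) (cut := cut_A04mm_101_s1) (xt := Ext.none) (P1 := 536870912) (W1 := 536870912) (P2 := 0) (W2 := 536870912) (P3 := 858993459) (W3 := 64424510)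
    rfl k0_A04mm_101_s1

theorem s_A04mm_101_s1 {κ x : ℝ} (hκ : κ * h0 = ken x) (hx : ((858993459 : ℕ) : ℝ) / S ≤ x)
    (hx' : x ≤ (((858993459 : ℕ) : ℝ) + (64424510 : ℕ)) / S) :
    AltA (VFD κ) PP tK tL pcB [⟨3, 0, 0, 1449551462⟩] 1 0 1 0 4 (sgb false) (sgb false) x :=
  strip_altAD (m := 1449551462) true rfl hκ (SH.κ0 hκ (SH.hx1 hx).le (SH.hx2 hx').le) (SH.hx1 hx).le (SH.hx2 hx') (covB01).cov (covB40).cov hx hx' c_A04mm_101_s1 cutA_nil (noExt_A)

noncomputable def cut_A04mm_102_s1 : Cut := Cut.of [[⟨4, 0, 0, 1449551462⟩]]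

noncomputable def f_A04mm_102_s1 : ℕ → ℕ → ℕ → ℕ → Bool := onCell 536870912 536870912 0 536870912 858993459 64424510
    (rowF 0 true false false .npp 1 0 2 (qsf 536870912 536870912 0 536870912 2) ndB0q1 ndB4q0 pcB2 cut_A04mm_102_s1 Ext.none)

def k0_A04mm_102_s1 : ∃ t, chk3 f_A04mm_102_s1 t 1 1 1 = true :=
  ⟨(l 4), by decide +kernel⟩

theorem c_A04mm_102_s1 : CertF 536870912 536870912 0 536870912 858993459 64424510 true false false .npp 1 0 2
    ndB0q1 ndB4q0 pcB2 cut_A04mm_102_s1 Ext.none :=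
  certF0 (fam := true) (s1 := false) (s2 := false) (a := 1) (b := 0) (c := 2) (cn := .npp) (n1 := ndB0q1) (n2 := ndB4q0) (pc := pcB2) (cut := cut_A04mm_102_s1) (xt := Ext.none) (P1 := 536870912) (W1 := 536870912) (P2 := 0) (W2 := 536870912) (P3 := 858993459) (W3 := 64424510)
    rfl k0_A04mm_102_s1

theorem s_A04mm_102_s1 {κ x : ℝ} (hκ : κ * h0 = ken x) (hx : ((858993459 : ℕ) : ℝ) / S ≤ x)
    (hx' : x ≤ (((858993459 : ℕ) : ℝ) + (64424510 : ℕ)) / S) :
    AltA (VFD κ) PP tK tL pcB [⟨3, 0, 0, 1449551462⟩] 1 0 2 0 4 (sgb false) (sgb false) x :=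
  strip_altAD (m := 1449551462) true rfl hκ (SH.κ0 hκ (SH.hx1 hx).le (SH.hx2 hx').le) (SH.hx1 hx).le (SH.hx2 hx') (covB01).cov (covB40).cov hx hx' c_A04mm_102_s1 cutA_nil (noExt_A)

noncomputable def cut_A04mm_112_s1 : Cut := Cut.of [[⟨4, 0, 0, 1449551462⟩]]

noncomputable def f_A04mm_112_s1 : ℕ → ℕ → ℕ → ℕ → Bool := onCell 536870912 536870912 536870912 536870912 858993459 64424510
    (rowF 0 true false false .dn 1 1 2 (qsf 536870912 536870912 536870912 536870912 2) ndB0q1 ndB4q1 pcB2 cut_A04mm_112_s1 Ext.none)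

def k0_A04mm_112_s1 : ∃ t, chk3 f_A04mm_112_s1 t 1 1 1 = true :=
  ⟨(l 4), by decide +kernel⟩

theorem c_A04mm_112_s1 : CertF 536870912 536870912 536870912 536870912 858993459 64424510 true false false .dn 1 1 2
    ndB0q1 ndB4q1 pcB2 cut_A04mm_112_s1 Ext.none :=
  certF0 (fam := true) (s1 := false) (s2 := false) (a := 1) (b := 1) (c := 2) (cn := .dn) (n1 := ndB0q1) (n2 := ndB4q1) (pc := pcB2) (cut := cut_A04mm_112_s1) (xt := Ext.none) (P1 := 536870912) (W1 := 536870912) (P2 := 536870912) (W2 := 536870912) (P3 := 858993459) (W3 := 64424510)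
    rfl k0_A04mm_112_s1

theorem s_A04mm_112_s1 {κ x : ℝ} (hκ : κ * h0 = ken x) (hx : ((858993459 : ℕ) : ℝ) / S ≤ x)
    (hx' : x ≤ (((858993459 : ℕ) : ℝ) + (64424510 : ℕ)) / S) :
    AltA (VFD κ) PP tK tL pcB [⟨3, 0, 0, 1449551462⟩] 1 1 2 0 4 (sgb false) (sgb false) x :=
  strip_altAD (m := 1449551462) true rfl hκ (SH.κ0 hκ (SH.hx1 hx).le (SH.hx2 hx').le) (SH.hx1 hx).le (SH.hx2 hx') (covB01).cov (covB41).cov hx hx' c_A04mm_112_s1 cutA_nil (noExt_A)

noncomputable def cut_A04mm_113_s1 : Cut := Cut.of [[⟨4, 0, 0, 1449551462⟩]]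

noncomputable def f_A04mm_113_s1 : ℕ → ℕ → ℕ → ℕ → Bool := onCell 536870912 536870912 536870912 536870912 858993459 64424510
    (rowF 0 true false false .nn 1 1 3 (qsf 536870912 536870912 536870912 536870912 3) ndB0q1 ndB4q1 pcB3 cut_A04mm_113_s1 Ext.none)

def k0_A04mm_113_s1 : ∃ t, chk3 f_A04mm_113_s1 t 1 1 1 = true :=
  ⟨(l 4), by decide +kernel⟩

theorem c_A04mm_113_s1 : CertF 536870912 536870912 536870912 536870912 858993459 64424510 true false false .nn 1 1 3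
    ndB0q1 ndB4q1 pcB3 cut_A04mm_113_s1 Ext.none :=
  certF0 (fam := true) (s1 := false) (s2 := false) (a := 1) (b := 1) (c := 3) (cn := .nn) (n1 := ndB0q1) (n2 := ndB4q1) (pc := pcB3) (cut := cut_A04mm_113_s1) (xt := Ext.none) (P1 := 536870912) (W1 := 536870912) (P2 := 536870912) (W2 := 536870912) (P3 := 858993459) (W3 := 64424510)
    rfl k0_A04mm_113_s1

theorem s_A04mm_113_s1 {κ x : ℝ} (hκ : κ * h0 = ken x) (hx : ((858993459 : ℕ) : ℝ) / S ≤ x)
    (hx' : x ≤ (((858993459 : ℕ) : ℝ) + (64424510 : ℕ)) / S) :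
    AltA (VFD κ) PP tK tL pcB [⟨3, 0, 0, 1449551462⟩] 1 1 3 0 4 (sgb false) (sgb false) x :=
  strip_altAD (m := 1449551462) true rfl hκ (SH.κ0 hκ (SH.hx1 hx).le (SH.hx2 hx').le) (SH.hx1 hx).le (SH.hx2 hx') (covB01).cov (covB41).cov hx hx' c_A04mm_113_s1 cutA_nil (noExt_A)

noncomputable def cut_A04mm_123_s1 : Cut := Cut.of [[⟨4, 0, 0, 1449551462⟩]]

noncomputable def f_A04mm_123_s1 : ℕ → ℕ → ℕ → ℕ → Bool := onCell 536870912 536870912 1073741824 536870912 858993459 64424510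
    (rowF 0 true false false .npn 1 2 3 (qsf 536870912 536870912 1073741824 536870912 3) ndB0q1 ndB4q2 pcB3 cut_A04mm_123_s1 Ext.none)

def k0_A04mm_123_s1 : ∃ t, chk3 f_A04mm_123_s1 t 1 1 1 = true :=
  ⟨(l 4), by decide +kernel⟩

theorem c_A04mm_123_s1 : CertF 536870912 536870912 1073741824 536870912 858993459 64424510 true false false .npn 1 2 3
    ndB0q1 ndB4q2 pcB3 cut_A04mm_123_s1 Ext.none :=
  certF0 (fam := true) (s1 := false) (s2 := false) (a := 1) (b := 2) (c := 3) (cn := .npn) (n1 := ndB0q1) (n2 := ndB4q2) (pc := pcB3) (cut := cut_A04mm_123_s1) (xt := Ext.none) (P1 := 536870912) (W1 := 536870912) (P2 := 1073741824) (W2 := 536870912) (P3 := 858993459) (W3 := 64424510)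
    rfl k0_A04mm_123_s1

theorem s_A04mm_123_s1 {κ x : ℝ} (hκ : κ * h0 = ken x) (hx : ((858993459 : ℕ) : ℝ) / S ≤ x)
    (hx' : x ≤ (((858993459 : ℕ) : ℝ) + (64424510 : ℕ)) / S) :
    AltA (VFD κ) PP tK tL pcB [⟨3, 0, 0, 1449551462⟩] 1 2 3 0 4 (sgb false) (sgb false) x :=
  strip_altAD (m := 1449551462) true rfl hκ (SH.κ0 hκ (SH.hx1 hx).le (SH.hx2 hx').le) (SH.hx1 hx).le (SH.hx2 hx') (covB01).cov (covB42).cov hx hx' c_A04mm_123_s1 cutA_nil (noExt_A)

noncomputable def cut_A04mm_133_s1 : Cut := Cut.of [[⟨4, 0, 0, 1449551462⟩]]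

noncomputable def f_A04mm_133_s1 : ℕ → ℕ → ℕ → ℕ → Bool := onCell 536870912 536870912 0 1230186008 858993459 64424510
    (rowF 0 true false false .dn 1 3 3 (qsf 536870912 536870912 0 1230186008 3) ndB0q1 ndB4q3 pcB3 cut_A04mm_133_s1 Ext.none)

def k0_A04mm_133_s1 : ∃ t, chk3 f_A04mm_133_s1 t 1 1 1 = true :=
  ⟨(l 4), by decide +kernel⟩

theorem c_A04mm_133_s1 : CertF 536870912 536870912 0 1230186008 858993459 64424510 true false false .dn 1 3 3
    ndB0q1 ndB4q3 pcB3 cut_A04mm_133_s1 Ext.none :=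
  certF0 (fam := true) (s1 := false) (s2 := false) (a := 1) (b := 3) (c := 3) (cn := .dn) (n1 := ndB0q1) (n2 := ndB4q3) (pc := pcB3) (cut := cut_A04mm_133_s1) (xt := Ext.none) (P1 := 536870912) (W1 := 536870912) (P2 := 0) (W2 := 1230186008) (P3 := 858993459) (W3 := 64424510)
    rfl k0_A04mm_133_s1

theorem s_A04mm_133_s1 {κ x : ℝ} (hκ : κ * h0 = ken x) (hx : ((858993459 : ℕ) : ℝ) / S ≤ x)
    (hx' : x ≤ (((858993459 : ℕ) : ℝ) + (64424510 : ℕ)) / S) :
    AltA (VFD κ) PP tK tL pcB [⟨3, 0, 0, 1449551462⟩] 1 3 3 0 4 (sgb false) (sgb false) x :=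
  strip_altAD (m := 1449551462) true rfl hκ (SH.κ0 hκ (SH.hx1 hx).le (SH.hx2 hx').le) (SH.hx1 hx).le (SH.hx2 hx') (covB01).cov (covB43).cov hx hx' c_A04mm_133_s1 cutA_nil (noExt_A)

noncomputable def cut_A04mm_202_s1 : Cut := Cut.of [[⟨4, 0, 0, 1449551462⟩]]

noncomputable def f_A04mm_202_s1 : ℕ → ℕ → ℕ → ℕ → Bool := onCell 0 536870912 0 536870912 858993459 64424510
    (rowF 0 true false false .pp 2 0 2 (qsf 0 536870912 0 536870912 2) ndB0q2 ndB4q0 pcB2 cut_A04mm_202_s1 Ext.none)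

def k0_A04mm_202_s1 : ∃ t, chk3 f_A04mm_202_s1 t 1 1 1 = true :=
  ⟨(l 4), by decide +kernel⟩

theorem c_A04mm_202_s1 : CertF 0 536870912 0 536870912 858993459 64424510 true false false .pp 2 0 2
    ndB0q2 ndB4q0 pcB2 cut_A04mm_202_s1 Ext.none :=
  certF0 (fam := true) (s1 := false) (s2 := false) (a := 2) (b := 0) (c := 2) (cn := .pp) (n1 := ndB0q2) (n2 := ndB4q0) (pc := pcB2) (cut := cut_A04mm_202_s1) (xt := Ext.none) (P1 := 0) (W1 := 536870912) (P2 := 0) (W2 := 536870912) (P3 := 858993459) (W3 := 64424510)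
    rfl k0_A04mm_202_s1

theorem s_A04mm_202_s1 {κ x : ℝ} (hκ : κ * h0 = ken x) (hx : ((858993459 : ℕ) : ℝ) / S ≤ x)
    (hx' : x ≤ (((858993459 : ℕ) : ℝ) + (64424510 : ℕ)) / S) :
    AltA (VFD κ) PP tK tL pcB [⟨3, 0, 0, 1449551462⟩] 2 0 2 0 4 (sgb false) (sgb false) x :=
  strip_altAD (m := 1449551462) true rfl hκ (SH.κ0 hκ (SH.hx1 hx).le (SH.hx2 hx').le) (SH.hx1 hx).le (SH.hx2 hx') (covB02).cov (covB40).cov hx hx' c_A04mm_202_s1 cutA_nil (noExt_A)

noncomputable def cut_A04mm_203_s1 : Cut := Cut.of [[⟨4, 0, 0, 1449551462⟩]]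

noncomputable def f_A04mm_203_s1 : ℕ → ℕ → ℕ → ℕ → Bool := onCell 0 536870912 0 536870912 858993459 64424510
    (rowF 0 true false false .up 2 0 3 (qsf 0 536870912 0 536870912 3) ndB0q2 ndB4q0 pcB3 cut_A04mm_203_s1 Ext.none)

def k0_A04mm_203_s1 : ∃ t, chk3 f_A04mm_203_s1 t 1 1 1 = true :=
  ⟨(l 4), by decide +kernel⟩

theorem c_A04mm_203_s1 : CertF 0 536870912 0 536870912 858993459 64424510 true false false .up 2 0 3
    ndB0q2 ndB4q0 pcB3 cut_A04mm_203_s1 Ext.none :=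
  certF0 (fam := true) (s1 := false) (s2 := false) (a := 2) (b := 0) (c := 3) (cn := .up) (n1 := ndB0q2) (n2 := ndB4q0) (pc := pcB3) (cut := cut_A04mm_203_s1) (xt := Ext.none) (P1 := 0) (W1 := 536870912) (P2 := 0) (W2 := 536870912) (P3 := 858993459) (W3 := 64424510)
    rfl k0_A04mm_203_s1

theorem s_A04mm_203_s1 {κ x : ℝ} (hκ : κ * h0 = ken x) (hx : ((858993459 : ℕ) : ℝ) / S ≤ x)
    (hx' : x ≤ (((858993459 : ℕ) : ℝ) + (64424510 : ℕ)) / S) :
    AltA (VFD κ) PP tK tL pcB [⟨3, 0, 0, 1449551462⟩] 2 0 3 0 4 (sgb false) (sgb false) x :=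
  strip_altAD (m := 1449551462) true rfl hκ (SH.κ0 hκ (SH.hx1 hx).le (SH.hx2 hx').le) (SH.hx1 hx).le (SH.hx2 hx') (covB02).cov (covB40).cov hx hx' c_A04mm_203_s1 cutA_nil (noExt_A)

noncomputable def cut_A04mm_213_s1 : Cut := Cut.of [[⟨4, 0, 0, 1449551462⟩]]

noncomputable def f_A04mm_213_s1 : ℕ → ℕ → ℕ → ℕ → Bool := onCell 0 536870912 536870912 536870912 858993459 64424510
    (rowF 0 true false false .pnn 2 1 3 (qsf 0 536870912 536870912 536870912 3) ndB0q2 ndB4q1 pcB3 cut_A04mm_213_s1 Ext.none)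

def k0_A04mm_213_s1 : ∃ t, chk3 f_A04mm_213_s1 t 1 1 1 = true :=
  ⟨(l 4), by decide +kernel⟩

theorem c_A04mm_213_s1 : CertF 0 536870912 536870912 536870912 858993459 64424510 true false false .pnn 2 1 3
    ndB0q2 ndB4q1 pcB3 cut_A04mm_213_s1 Ext.none :=
  certF0 (fam := true) (s1 := false) (s2 := false) (a := 2) (b := 1) (c := 3) (cn := .pnn) (n1 := ndB0q2) (n2 := ndB4q1) (pc := pcB3) (cut := cut_A04mm_213_s1) (xt := Ext.none) (P1 := 0) (W1 := 536870912) (P2 := 536870912) (W2 := 536870912) (P3 := 858993459) (W3 := 64424510)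
    rfl k0_A04mm_213_s1

theorem s_A04mm_213_s1 {κ x : ℝ} (hκ : κ * h0 = ken x) (hx : ((858993459 : ℕ) : ℝ) / S ≤ x)
    (hx' : x ≤ (((858993459 : ℕ) : ℝ) + (64424510 : ℕ)) / S) :
    AltA (VFD κ) PP tK tL pcB [⟨3, 0, 0, 1449551462⟩] 2 1 3 0 4 (sgb false) (sgb false) x :=
  strip_altAD (m := 1449551462) true rfl hκ (SH.κ0 hκ (SH.hx1 hx).le (SH.hx2 hx').le) (SH.hx1 hx).le (SH.hx2 hx') (covB02).cov (covB41).cov hx hx' c_A04mm_213_s1 cutA_nil (noExt_A)

noncomputable def cut_B00pp_001_s1 : Cut := Cut.of [[⟨4, 0, 0, 1449551462⟩]]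

noncomputable def f_B00pp_001_s1 : ℕ → ℕ → ℕ → ℕ → Bool := onCell 0 536870912 0 536870912 858993459 64424510
    (rowF 1 false true true .up 0 0 1 (qsf 0 536870912 536870912 536870912 0) ndB0q0 ndB0q1 pcB0 cut_B00pp_001_s1 Ext.none)

def k0_B00pp_001_s1 : ∃ t, chk3 f_B00pp_001_s1 t 1 1 1 = true :=
  ⟨(l 3), by decide +kernel⟩

theorem c_B00pp_001_s1 : CertF 0 536870912 536870912 536870912 858993459 64424510 false true true .up 0 0 1
    ndB0q0 ndB0q1 pcB0 cut_B00pp_001_s1 Ext.none :=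
  certF1 (fam := false) (s1 := true) (s2 := true) (a := 0) (b := 0) (c := 1) (cn := .up) (n1 := ndB0q0) (n2 := ndB0q1) (pc := pcB0) (cut := cut_B00pp_001_s1) (xt := Ext.none) (P1 := 0) (W1 := 536870912) (P2 := 536870912) (W2 := 536870912) (P3 := 858993459) (W3 := 64424510)
    rfl (fun _ => rfl) k0_B00pp_001_s1

theorem s_B00pp_001_s1 {κ x : ℝ} (hκ : κ * h0 = ken x) (hx : ((858993459 : ℕ) : ℝ) / S ≤ x)
    (hx' : x ≤ (((858993459 : ℕ) : ℝ) + (64424510 : ℕ)) / S) :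
    AltB (VFD κ) PP tK tL pcB [⟨3, 0, 0, 1449551462⟩] 0 0 1 0 0 (sgb true) (sgb true) x :=
  strip_altBD (m := 1449551462) true rfl hκ (SH.κ0 hκ (SH.hx1 hx).le (SH.hx2 hx').le) (SH.hx1 hx).le (SH.hx2 hx') (covB00).cov (covB01).cov hx hx' c_B00pp_001_s1 cutB_nil (noExt_B)

noncomputable def cut_B00pp_001_s3 : Cut := Cut.of [[⟨3, 0, 0, 2845415833⟩]]

noncomputable def f_B00pp_001_s3 : ℕ → ℕ → ℕ → ℕ → Bool := onCell 0 536870912 536870912 536870912 858993459 64424510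
    (rowF 0 false true true .up 0 0 1 (qsf 0 536870912 536870912 536870912 0) ndB0q0 ndB0q1 pcB0 cut_B00pp_001_s3 Ext.none)

def k0_B00pp_001_s3 : ∃ t, chk3 f_B00pp_001_s3 t 1 1 1 = true :=
  ⟨(l 6), by decide +kernel⟩

theorem c_B00pp_001_s3 : CertF 0 536870912 536870912 536870912 858993459 64424510 false true true .up 0 0 1
    ndB0q0 ndB0q1 pcB0 cut_B00pp_001_s3 Ext.none :=
  certF0 (fam := false) (s1 := true) (s2 := true) (a := 0) (b := 0) (c := 1) (cn := .up) (n1 := ndB0q0) (n2 := ndB0q1) (pc := pcB0) (cut := cut_B00pp_001_s3) (xt := Ext.none) (P1 := 0) (W1 := 536870912) (P2 := 536870912) (W2 := 536870912) (P3 := 858993459) (W3 := 64424510)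
    rfl k0_B00pp_001_s3

theorem s_B00pp_001_s3 {κ x : ℝ} (hκ : κ * h0 = ken x) (hx : ((858993459 : ℕ) : ℝ) / S ≤ x)
    (hx' : x ≤ (((858993459 : ℕ) : ℝ) + (64424510 : ℕ)) / S) :
    AltB (VFD κ) PP tK tL pcB [⟨4, 0, 0, 2845415833⟩] 0 0 1 0 0 (sgb true) (sgb true) x :=
  strip_altBD (m := 2845415833) false rfl hκ (SH.κ0 hκ (SH.hx1 hx).le (SH.hx2 hx').le) (SH.hx1 hx).le (SH.hx2 hx') (covB00).cov (covB01).cov hx hx' c_B00pp_001_s3 cutB_nil (noExt_B)

noncomputable def cut_B00pp_011_s1 : Cut := Cut.of [[⟨4, 0, 0, 1449551462⟩], [⟨0, 0, 0, 67108864⟩, ⟨1, 1, 0, 67108864⟩, ⟨2, 1, 0, 67108864⟩]]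

noncomputable def f_B00pp_011_s1 : ℕ → ℕ → ℕ → ℕ → Bool := onCell 536870912 536870912 536870912 536870912 858993459 64424510
    (rowF 2 false true true .pnn 0 1 1 (qsf 0 536870912 536870912 536870912 1) ndB0q0 ndB0q1 pcB1 cut_B00pp_011_s1 Ext.none)

def k0_B00pp_011_s1 : ∃ t, chk3 f_B00pp_011_s1 t 1 1 1 = true :=
  ⟨(a (l 3) (b (l 3) (a (l 3) (b (l 3) (b (l 3) (a (l 3) (b (l 3) (a (l 3) (l 14))))))))), by decide +kernel⟩

theorem c_B00pp_011_s1 : CertF 0 536870912 536870912 536870912 858993459 64424510 false true true .pnn 0 1 1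
    ndB0q0 ndB0q1 pcB1 cut_B00pp_011_s1 Ext.none :=
  certF2 (fam := false) (s1 := true) (s2 := true) (a := 0) (b := 1) (c := 1) (cn := .pnn) (n1 := ndB0q0) (n2 := ndB0q1) (pc := pcB1) (cut := cut_B00pp_011_s1) (xt := Ext.none) (P1 := 0) (W1 := 536870912) (P2 := 536870912) (W2 := 536870912) (P3 := 858993459) (W3 := 64424510)
    rfl (fun _ => rfl) k0_B00pp_011_s1

theorem s_B00pp_011_s1 {κ x : ℝ} (hκ : κ * h0 = ken x) (hx : ((858993459 : ℕ) : ℝ) / S ≤ x)
    (hx' : x ≤ (((858993459 : ℕ) : ℝ) + (64424510 : ℕ)) / S)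
    (H : CutB (VFD κ) PP tK tL pcB (Cut.of [[⟨0, 0, 0, 67108864⟩, ⟨1, 1, 0, 67108864⟩, ⟨2, 1, 0, 67108864⟩]]) 0 1 1 0 0 (sgb true) (sgb true) x) :
    AltB (VFD κ) PP tK tL pcB [⟨3, 0, 0, 1449551462⟩] 0 1 1 0 0 (sgb true) (sgb true) x :=
  strip_altBD (m := 1449551462) true rfl hκ (SH.κ0 hκ (SH.hx1 hx).le (SH.hx2 hx').le) (SH.hx1 hx).le (SH.hx2 hx') (covB00).cov (covB01).cov hx hx' c_B00pp_011_s1 H (noExt_B)

noncomputable def cut_B00pp_011_s3 : Cut := Cut.of [[⟨3, 0, 0, 2845415833⟩], [⟨0, 0, 0, 67108864⟩, ⟨1, 1, 0, 67108864⟩, ⟨2, 1, 0, 67108864⟩]]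

noncomputable def f_B00pp_011_s3 : ℕ → ℕ → ℕ → ℕ → Bool := onCell 0 536870912 536870912 536870912 858993459 64424510
    (rowF 0 false true true .pnn 0 1 1 (qsf 0 536870912 536870912 536870912 1) ndB0q0 ndB0q1 pcB1 cut_B00pp_011_s3 Ext.none)

def k0_B00pp_011_s3 : ∃ t, chk3 f_B00pp_011_s3 t 1 1 1 = true :=
  ⟨(l 6), by decide +kernel⟩

theorem c_B00pp_011_s3 : CertF 0 536870912 536870912 536870912 858993459 64424510 false true true .pnn 0 1 1
    ndB0q0 ndB0q1 pcB1 cut_B00pp_011_s3 Ext.none :=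
  certF0 (fam := false) (s1 := true) (s2 := true) (a := 0) (b := 1) (c := 1) (cn := .pnn) (n1 := ndB0q0) (n2 := ndB0q1) (pc := pcB1) (cut := cut_B00pp_011_s3) (xt := Ext.none) (P1 := 0) (W1 := 536870912) (P2 := 536870912) (W2 := 536870912) (P3 := 858993459) (W3 := 64424510)
    rfl k0_B00pp_011_s3

theorem s_B00pp_011_s3 {κ x : ℝ} (hκ : κ * h0 = ken x) (hx : ((858993459 : ℕ) : ℝ) / S ≤ x)
    (hx' : x ≤ (((858993459 : ℕ) : ℝ) + (64424510 : ℕ)) / S)
    (H : CutB (VFD κ) PP tK tL pcB (Cut.of [[⟨0, 0, 0, 67108864⟩, ⟨1, 1, 0, 67108864⟩, ⟨2, 1, 0, 67108864⟩]]) 0 1 1 0 0 (sgb true) (sgb true) x) :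
    AltB (VFD κ) PP tK tL pcB [⟨4, 0, 0, 2845415833⟩] 0 1 1 0 0 (sgb true) (sgb true) x :=
  strip_altBD (m := 2845415833) false rfl hκ (SH.κ0 hκ (SH.hx1 hx).le (SH.hx2 hx').le) (SH.hx1 hx).le (SH.hx2 hx') (covB00).cov (covB01).cov hx hx' c_B00pp_011_s3 H (noExt_B)

end Pool.Agent.Strip051.G.I8000_8600.Tab.St.C
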