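import Pool.Agent.Strip051.G.I8000_8600.StH
import Pool.Agent.Strip051.G.I8000_8600.StF

/-! # Unit strips 3 (generated) -/

set_option linter.all false
set_option maxRecDepth 100000

namespace Pool.Agent.Strip051.G.I8000_8600.Tab.St.C

open Pool.Agent.Strip051.PB Pool.Agent.Strip051.PB.T Pool.Agent.StripNear Pool.Agent.Strip051.LC
open Pool.Agent.Strip051.G.I8000_8600.Tab Pool.Agent.Strip051.G.I8000_8600.Tab.St

noncomputable def cut_A00pm_012_s1 : Cut := Cut.of [[⟨4, 0, 0, 1449551462⟩], [⟨0, 0, 0, 67108864⟩, ⟨1, 1, 0, 67108864⟩, ⟨2, 1, 0, 67108864⟩]]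

noncomputable def xt_A00pm_012_s1 : Ext := strExt dd true true false .u0 .u0m .u2 .pnp 0 1 2 rfl rfl gf2 vv ndB0q0 ndB0q1

noncomputable def f_A00pm_012_s1 : ℕ → ℕ → ℕ → ℕ → Bool := onCell 1073741824 536870912 536870912 536870912 858993459 64424510
    (rowF 2 true true false .pnp 0 1 2 (qsf 0 536870912 536870912 536870912 2) ndB0q0 ndB0q1 pcB2 cut_A00pm_012_s1 xt_A00pm_012_s1)

def k0_A00pm_012_s1 : ∃ t, chk3 f_A00pm_012_s1 t 4 2 1 = true :=
  ⟨(a (l 3) (l 3)), by decide +kernel⟩

def k1_A00pm_012_s1 : ∃ t, chk3 f_A00pm_012_s1 t 4 12 2 = true :=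
  ⟨(c (a (l 3) (a (l 3) (a (l 3) (b (l 3) (a (b (l 3) (a (l 3) (b (l 3) (a (l 3) (a (l 3) (a (l 3) (b (l 3) (l 531303551)))))))) (b (a (l 3) (b (a (l 3) (a (l 3) (b (l 3) (c (a (l 3) (l 530818687)) (l 531250303))))) (a (a (l 3) (b (l 3) (a (l 530561295) (l 530400383)))) (c (a (c (l 530729855) (l 531052159)) (l 530629247)) (l 531054719))))) (a (a (b (l 3) (a (b (l 3) (a (l 531311231) (l 531318287))) (b (a (c (l 531171967) (l 531538815)) (l 530996095)) (l 531040783)))) (b (a (b (l 3) (a (b (l 3) (l 530942847)) (l 530904959))) (b (a (l 3) (b (l 3) (l 530822271))) (l 530726927))) (a (b (l 530951039) (l 531250303)) (l 530774911)))) (a (b (c (a (l 530692111) (l 530829695)) (l 531471231)) (l 530560895)) (b (a (l 530751871) (l 531174271)) (l 531270015)))))))))) (a (l 3) (a (l 3) (a (l 3) (b (l 3) (a (b (l 3) (a (l 3) (b (l 3) (a (l 3) (b (l 3) (a (l 3) (l 531486079))))))) (a (b (l 3) (b (a (l 3) (a (b (l 3) (l 531446655)) (l 531033727))) (a (a (b (l 3) (l 531390847)) (b (l 531469695) (l 531496319))) (a (l 531487359)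 (l 531491199))))) (b (a (b (l 3) (a (l 3) (b (l 3) (l 531399295)))) (b (a (l 3) (b (l 3) (l 531343999))) (l 530850831))) (a (b (l 531172223) (l 531495807)) (l 531472767)))))))))), by decide +kernel⟩

def k2_A00pm_012_s1 : ∃ t, chk3 f_A00pm_012_s1 t 4 13 4 = true :=
  ⟨(a (l 3) (a (a (l 3) (b (l 3) (a (l 3) (a (l 3) (b (l 3) (l 531125519)))))) (a (b (b (l 3) (a (l 3) (b (a (l 3) (a (l 3) (b (l 3) (a (b (l 3) (l 531679103)) (l 531567743))))) (a (c (b (l 3) (l 531520639)) (l 531793279)) (a (l 531555599) (a (l 531843455) (l 531605119))))))) (a (b (a (b (l 3) (l 531449983)) (b (a (l 3) (b (l 3) (l 531522319))) (l 531532671))) (a (l 531498111) (l 531585663))) (b (a (b (c (l 531553551) (l 531567999)) (l 531601423)) (b (a (l 531601023) (l 531637119)) (l 531126287))) (a (l 531389711) (b (l 531435391) (l 531742335)))))) (b (a (b (a (b (l 3) (a (a (l 3) (a (l 3) (b (l 3) (l 531579263)))) (b (a (l 3) (l 531593087)) (l 531477519)))) (b (a (b (l 3) (a (c (l 531595647) (l 531569023)) (l 531603583))) (a (b (l 531587711)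 (l 531623039)) (l 531354751))) (a (l 531642895) (l 531683967)))) (a (a (b (a (b (l 531572239) (l 531598975)) (l 531614847)) (l 531653503)) (b (l 531387775) (l 531712895))) (a (l 531735935) (l 531782015)))) (a (b (a (b (a (l 531639679) (l 531084415)) (l 531707263)) (b (l 530729743) (l 531595647))) (l 531462159)) (b (a (b (l 531431807) (l 531495551)) (l 531372159)) (l 531544703)))) (a (b (a (l 531760255) (l 531876223)) (a (l 531853439) (l 531980671))) (a (b (l 531842175) (l 531949439)) (b (l 531667583) (l 531787391)))))))), by decide +kernel⟩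

def k3_A00pm_012_s1 : ∃ t, chk3 f_A00pm_012_s1 t 4 13 5 = true :=
  ⟨(a (l 3) (a (a (l 3) (b (l 3) (a (l 3) (a (l 3) (b (l 3) (l 530767631)))))) (a (b (b (l 3) (a (l 3) (b (a (l 3) (a (l 3) (a (l 531271295) (l 531550591)))) (a (l 531559551) (a (l 531575679) (l 531588479)))))) (a (b (a (l 531551359) (b (a (l 3) (l 531579775)) (l 531610751))) (l 531646591)) (b (a (b (l 531600767) (l 531640703)) (b (l 531355263) (l 531395711))) (a (l 531697535) (l 531453055))))) (b (a (b (a (b (l 3) (a (b (l 3) (l 531801615)) (l 531272463))) (b (a (b (l 3) (l 531252351)) (l 531387407)) (a (l 531557247) (l 531571327)))) (a (a (l 531320847) (l 531341183)) (l 531634815))) (a (b (a (b (a (l 531530367) (l 531535231)) (l 531583103)) (l 531231503)) (l 531659135)) (b (b (l 531550335) (l 531601023)) (l 531672959)))) (a (b (a (l 531685503) (l 531723135)) (l 531788559)) (a (l 531790351) (b (l 531762559) (l 531844991)))))))), by decide +kernel⟩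

def k4_A00pm_012_s1 : ∃ t, chk3 f_A00pm_012_s1 t 4 12 3 = true :=
  ⟨(c (a (l 3) (a (l 3) (a (l 3) (b (l 3) (a (b (l 3) (a (l 3) (b (l 3) (a (l 3) (b (l 3) (a (l 3) (l 531357055))))))) (b (a (l 3) (b (a (l 3) (b (l 3) (a (l 3) (l 531192703)))) (a (a (l 3) (b (l 3) (l 531236223))) (a (l 531220095) (l 531210367))))) (a (b (a (l 3) (a (b (l 3) (l 531293823)) (l 531276159))) (a (a (b (l 3) (l 531345023)) (l 531325967)) (l 531040271))) (a (b (l 530991743) (l 531285375)) (l 530981759))))))))) (a (l 3) (a (l 3) (a (l 3) (b (l 3) (a (b (l 3) (a (l 3) (b (l 3) (a (l 3) (b (l 3) (l 531468303)))))) (b (a (l 3) (b (a (l 3) (b (l 3) (a (l 3) (c (l 531008127) (l 530852479))))) (a (b (l 3) (a (l 3) (l 530981759))) (a (b (l 530956415) (l 530952319)) (l 530925951))))) (a (b (a (l 3) (a (b (l 3) (l 531072895)) (b (l 531040895) (l 531040383)))) (a (a (b (l 3) (l 531145343)) (b (l 531107711) (l 531109503))) (a (l 531073919) (l 531040127)))) (a (b (a (l 531008895) (l 530977663)) (l 530989951)) (b (l 530931839) (l 530925439))))))))))),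 by decide +kernel⟩

def k5_A00pm_012_s1 : ∃ t, chk3 f_A00pm_012_s1 t 4 13 3 = true :=
  ⟨(c (b (a (l 3) (a (l 3) (a (a (l 3) (b (l 3) (a (l 531070735) (a (l 531325567) (l 531310463))))) (a (b (a (b (l 3) (a (l 531229055) (l 531469951))) (b (a (b (l 3) (l 531418751)) (l 531385471)) (l 531159935))) (a (b (l 531248767) (l 531551359)) (l 531474047))) (a (b (a (a (l 531380863) (l 531099407)) (l 531214095)) (l 531414911)) (b (b (l 531028351) (l 531052159)) (l 531355775))))))) (a (l 3) (a (a (l 3) (a (l 3) (a (l 3) (b (l 3) (l 531802383))))) (a (a (b (a (l 531712895) (b (l 531681407) (l 531720575))) (l 531785855)) (b (a (l 531146623) (l 531391759)) (a (l 531759487) (l 531732607)))) (a (b (l 531837711) (l 531633679)) (a (b (l 531469183) (l 531523711)) (b (l 531403391) (l 531183231)))))))) (b (a (l 3) (a (l 3) (a (a (l 3) (b (l 3) (a (l 531701119) (b (l 531612287) (l 531642239))))) (a (b (a (b (l 3) (a (l 531471999) (l 531383935))) (b (a (l 531016063) (l 531206527)) (l 530988415))) (a (l 531191167) (l 531277951)))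 (b (a (b (a (a (l 531149951) (l 531113087)) (l 531058815)) (a (l 531138431) (l 531062399))) (a (l 531257103) (l 530919295))) (a (l 530841215) (l 530685311))))))) (a (l 3) (a (a (l 3) (a (l 3) (a (l 3) (b (l 3) (a (l 530845455) (l 531730815)))))) (a (a (b (a (l 531771519) (l 531842943)) (l 531925631)) (b (a (l 531769727) (l 531688831)) (a (l 531843199) (l 531756159)))) (a (b (l 531409423) (a (l 531562111) (l 531352703))) (a (b (l 531130751) (l 531159423)) (b (l 530963071) (l 530714383))))))))), by decide +kernel⟩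

def k6_A00pm_012_s1 : ∃ t, chk3 f_A00pm_012_s1 t 8 14 1 = true :=
  ⟨(b (l 3) (a (l 3) (a (l 3) (a (a (l 3) (a (b (l 3) (b (l 3) (a (l 3) (b (l 3) (c (l 529636879) (l 530975871)))))) (b (l 3) (b (l 3) (c (c (l 531129103) (l 529004927)) (c (l 531562367) (l 530823551))))))) (a (b (l 3) (c (c (b (c (l 529623935) (l 530008959)) (c (l 529627519) (l 530022527))) (b (l 530642815) (l 529598079))) (b (c (l 531594367) (l 530386303)) (c (l 531374975) (l 530422031))))) (b (l 3) (c (c (b (c (l 529658495) (l 530054527)) (b (l 530666255) (l 530131983))) (b (l 530707071) (l 530736399))) (c (b (l 531686015) (l 530930559)) (b (l 530501503) (b (l 530535295) (l 530561919))))))))))), by decide +kernel⟩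

def k7_A00pm_012_s1 : ∃ t, chk3 f_A00pm_012_s1 t 16 15 1 = true :=
  ⟨(b (b (l 3) (a (l 3) (a (l 3) (c (b (l 3) (b (l 3) (a (l 3) (c (b (a (l 3) (a (l 530031743) (a (l 530012799) (l 530000767)))) (a (a (l 3) (l 530070911)) (c (l 529890575) (l 530176127)))) (a (b (l 3) (l 530409599)) (a (l 530377599) (l 530360847))))))) (a (l 3) (a (b (l 3) (b (l 3) (a (l 3) (l 530374271)))) (b (l 3) (b (l 3) (a (l 530370431) (l 530097679)))))))))) (b (a (l 14) (b (b (b (a (l 3) (a (l 14) (a (l 14) (a (l 14) (a (l 14) (c (l 530049407) (l 531697023))))))) (l 14)) (l 14)) (l 14))) (l 14))), by decide +kernel⟩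

def k8_A00pm_012_s1 : ∃ t, chk3 f_A00pm_012_s1 t 34 60 1 = true :=
  ⟨(b (l 3) (a (l 3) (c (b (a (l 3) (c (a (l 529759359) (l 529734271)) (l 530253951))) (c (a (a (l 3) (l 529765647)) (a (l 529735551) (l 529710207))) (a (l 529181967) (l 529962367)))) (a (c (c (l 530888063) (l 531066495)) (l 531784575)) (c (c (l 531161727) (l 531361663)) (l 532382847)))))), by decide +kernel⟩

def k9_A00pm_012_s1 : ∃ t, chk3 f_A00pm_012_s1 t 34 122 1 = true :=
  ⟨(a (c (b (b (l 3) (a (l 3) (a (l 3) (c (l 529820543) (l 530531455))))) (a (a (l 3) (a (l 3) (a (l 3) (l 528604431)))) (a (c (c (l 529968911) (l 530022015)) (l 530278783)) (c (c (l 529651327) (l 529982335)) (l 530523007))))) (b (a (l 3) (a (l 3) (l 530169983))) (a (a (l 3) (l 530132607)) (a (l 530141567) (l 530153087))))) (c (b (c (a (a (c (l 529616255) (l 529957247)) (l 530285583)) (a (l 529718655) (l 529693055))) (a (a (l 530514303) (l 530498175)) (l 529408127))) (c (a (c (a (l 529607039) (l 529567615)) (a (l 529947263) (l 529916543))) (a (l 530245503) (l 529683071)))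 (a (a (l 530502783) (l 530486655)) (l 529665295)))) (a (c (c (l 530045711) (l 530759039)) (a (l 532260479) (l 532289919))) (c (c (l 530588543) (l 531055231)) (l 530998911))))), by decide +kernel⟩

def k10_A00pm_012_s1 : ∃ t, chk3 f_A00pm_012_s1 t 68 123 1 = true :=
  ⟨(c (a (b (a (c (c (b (l 3) (l 529814143)) (l 530381183)) (l 530333567)) (c (c (b (l 529753471) (l 529755007)) (l 530063743)) (l 530301567))) (b (a (c (a (l 530381583) (l 529950847)) (l 531542031)) (c (c (l 529758847) (l 530067327)) (l 530570367))) (c (a (a (l 529991183) (l 529961743)) (c (l 529767183) (l 530073727))) (a (l 530070143) (l 531110015))))) (c (c (b (a (b (l 529699199) (l 529700479)) (l 529918079)) (a (b (l 529703807) (l 529712767)) (b (l 529653887) (l 529661823)))) (b (a (l 530019199) (l 529979263)) (a (l 530561807) (l 529984895)))) (b (a (l 530273151) (l 530785919)) (a (l 530274431) (l 530250111))))) (b (a (a (l 530112527) (l 530119039)) (a (l 530128255) (l 530140287))) (c (a (a (l 530784783) (l 530240895)) (a (l 531310719)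 (l 531309951))) (a (c (l 531926031) (l 532355599)) (l 531110527))))), by decide +kernel⟩

def k11_A00pm_012_s1 : ∃ t, chk3 f_A00pm_012_s1 t 69 123 1 = true :=
  ⟨(c (c (c (a (b (a (l 529604991) (l 529565311)) (a (b (l 529608831) (l 529615999)) (l 529571199))) (a (b (l 529530495) (l 529536383)) (b (l 529500799) (b (l 16749608) (a (l 16747568) (l 16745672)))))) (a (b (a (l 529943935) (l 529912959)) (a (l 529948287) (l 529917311))) (a (b (l 529886847) (l 529890943)) (b (l 529865599) (b (l 16750968) (l 16748120)))))) (c (b (a (a (l 530306687) (l 530285439)) (l 530261887)) (a (a (l 530308735) (l 530287231)) (a (l 530270335) (b (l 16752424) (l 16749736))))) (a (b (l 531225471) (a (l 530692735) (l 530681727))) (b (l 530674047) (a (l 530674559) (b (l 16753976) (l 16751456))))))) (c (c (a (b (l 530836863) (l 530833023)) (a (l 531104127) (b (l 531114367) (b (l 16755632) (l 16753280))))) (c (a (b (l 531434111) (l 531427455)) (b (l 531456895) (a (l 16753200) (b (l 16756928) (l 16754720))))) (b (a (l 531660671) (l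 531694975)) (a (l 531652223) (a (l 16754008) (l 16751552)))))) (c (b (a (l 532012159) (l 532064383)) (a (l 532000895) (a (l 16760496) (b (l 16759216) (l 16757248))))) (a (b (l 532500607) (l 532486783)) (a (l 532474751) (b (l 16763224) (l 16754568))))))), by decide +kernel⟩

def k12_A00pm_012_s1 : ∃ t, chk3 f_A00pm_012_s1 t 70 60 1 = true :=
  ⟨(c (a (a (c (b (b (l 3) (l 529744655)) (b (c (l 529530895) (l 529903487)) (l 529689727))) (b (l 530289679) (l 529427215))) (b (b (l 528814975) (a (l 530123023) (l 530120063))) (c (b (l 529698063) (l 529674111)) (l 530232335)))) (b (a (b (l 530153343) (l 529312383)) (c (c (l 529531919) (l 529922319)) (l 530562831))) (a (b (l 528477711) (a (l 530065791) (l 530065023))) (b (l 530089999) (l 528724495))))) (a (b (c (c (l 531234943) (l 531453311)) (l 531815439)) (c (c (l 530375295) (l 531132031)) (l 531379727))) (b (a (l 530675071) (c (l 531519759) (l 530663295))) (c (c (l 531217167) (l 531723279)) (c (l 532258687) (l 532059407)))))), by decide +kernel⟩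

def k13_A00pm_012_s1 : ∃ t, chk3 f_A00pm_012_s1 t 70 61 1 = true :=
  ⟨(a (c (c (b (a (b (l 529672575) (l 529662591)) (a (l 530190607) (l 530183951))) (b (a (l 529659519) (l 529643903)) (a (b (c (l 16745864) (l 16747440)) (a (b (l 16745360) (l 16743784)) (b (l 16743464) (l 16741744)))) (b (a (l 16738632) (l 16736720)) (l 16744792))))) (b (a (l 530198143) (l 530198543)) (b (l 529652239) (a (b (a (l 16750808) (l 16749224)) (a (l 16748072) (l 16746256))) (b (a (l 16747584) (l 16745840)) (l 16743392)))))) (c (a (b (l 530838399) (b (l 531360639) (b (l 16743352) (a (l 16741560) (l 16739912))))) (b (l 530856831) (b (l 531379839) (b (a (l 16741304) (l 16739744)) (l 16737272))))) (b (a (l 532392319) (l 532431231)) (b (l 532392575) (a (b (l 16758112) (l 16745208)) (b (l 16745264) (l 16752632))))))) (c (b (c (a (b (l 529646463) (l 529636479)) (b (l 529641087) (l 529631103))) (b (l 530215439) (l 530204687))) (c (b (a (b (l 16750416) (a (l 16743176) (l 16741304))) (b (a (l 16742464) (l 16740632)) (a (l 16739384)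 (l 16737384)))) (a (a (b (l 16739992) (l 16736488)) (l 16736200)) (c (l 16732176) (l 16734176)))) (b (a (b (l 16748848) (a (l 16747064) (l 16745384))) (b (a (l 16746504) (l 16744896)) (a (l 16743616) (l 16741752)))) (a (b (l 16743048) (l 16739528)) (c (l 16736328) (l 16738624)))))) (c (b (c (l 530644351) (l 531686271)) (b (a (b (l 16742520) (l 16740216)) (b (l 16739912) (l 16737040))) (a (a (l 16736304) (l 16734536)) (b (l 16744112) (l 16740568))))) (b (l 530874639) (b (a (b (l 16757664) (l 16745256)) (b (l 16745184) (l 16742472))) (a (b (l 16752816) (l 16749320)) (l 16737336))))))), by decide +kernel⟩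

def k14_A00pm_012_s1 : ∃ t, chk3 f_A00pm_012_s1 t 71 60 1 = true :=
  ⟨(c (a (a (b (b (b (l 530213247) (l 530176383)) (l 530140175)) (b (l 530104335) (l 529004159))) (b (b (l 529163279) (l 529903231)) (c (l 530762367) (l 530560895)))) (c (b (c (b (l 529646207) (l 529591935)) (l 531120399)) (b (l 529740559) (l 529699087))) (b (b (l 530733695) (l 530683519)) (a (l 530591871) (l 530624639))))) (a (a (b (b (l 530813711) (l 531284607)) (c (l 531242367) (l 531781503))) (b (b (l 530871935) (l 531347071)) (l 530483727))) (a (b (c (l 531713407) (l 530669327)) (l 530805007)) (b (c (l 531756671) (l 530336127)) (c (l 531644031) (l 531328127)))))), by decide +kernel⟩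

def k15_A00pm_012_s1 : ∃ t, chk3 f_A00pm_012_s1 t 71 61 1 = true :=
  ⟨(b (c (a (a (b (l 530059023) (b (l 530049919) (c (l 16735592) (l 16745160)))) (b (l 530073103) (b (c (l 16740144) (l 16744624)) (c (l 16731888) (l 16741840))))) (a (b (l 530090767) (b (c (l 16736504) (l 16741408)) (c (l 16733232) (l 16738232)))) (c (b (b (l 16738776) (l 16735872)) (c (l 16729784) (l 16732216))) (b (b (l 16743568) (l 16740968)) (c (l 16734824) (l 16737616)))))) (a (b (c (l 531499023) (l 531300479)) (c (a (b (l 16741712) (l 16739584)) (b (l 16739224) (l 16736688))) (a (b (l 16756720) (l 16744616)) (b (l 16754256) (l 16742672))))) (a (b (l 531027839) (a (b (l 16740272) (l 16726872)) (b (l 16738880) (l 16725216)))) (b (b (l 16741496) (a (l 16740120) (l 16738824))) (c (a (l 16722016) (l 16720328)) (l 16738304)))))) (a (b (a (c (b (c (a (l 16738752) (l 16736800)) (l 16737016)) (c (l 16734352) (l 16738896))) (b (c (l 16736880) (l 16742584)) (a (l 16726744) (l 16725056)))) (c (c (l 16737304) (l 16736840)) (c (l 16731784)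 (l 16748360)))) (c (c (c (l 16731272) (l 16728192)) (a (l 16733640) (l 16729848))) (a (c (l 16728312) (l 16723616)) (c (l 16724800) (l 16720424))))) (c (c (b (a (l 16728064) (l 16724088)) (c (l 16717904) (l 16720288))) (b (c (l 16729864) (l 16732608)) (a (l 16726088) (l 16722352)))) (b (c (a (l 16728304) (l 16714376)) (a (l 16745200) (l 16742088))) (c (a (l 16731808) (l 16728368)) (a (l 16717280) (l 16714176))))))), by decide +kernel⟩

def k16_A00pm_012_s1 : ∃ t, chk3 f_A00pm_012_s1 t 68 124 1 = true :=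
  ⟨(c (b (a (c (b (a (a (l 530002703) (l 529975167)) (c (l 529785359) (l 530087551))) (a (a (l 14) (l 529987967)) (c (l 529800975) (l 530099839)))) (a (a (l 530354559) (l 530606351)) (b (l 531116671) (l 530855039)))) (c (a (c (b (l 529727615) (l 529744255)) (b (l 530040447) (l 530053503))) (c (b (l 529674879) (l 529691007)) (l 530272383))) (a (l 530016527) (l 530259839)))) (c (b (b (a (a (l 14) (c (l 529812607) (l 530109311))) (a (l 529907727) (l 529860223))) (a (l 14) (a (l 529915151) (a (l 16753360) (a (l 16752000) (l 16751072)))))) (a (l 14) (a (b (b (l 530189183) (l 14)) (l 14)) (a (b (a (l 16752336) (l 16746136)) (l 16750112)) (c (l 16748392) (l 16749552)))))) (a (a (l 14) (a (l 14) (l 531127423))) (a (b (l 530565759) (a (l 14) (b (l 16755920) (l 14)))) (b (a (l 16758920) (b (l 16755368) (l 16754008))) (a (b (l 16754232) (l 16752504)) (c (l 16750792) (l 16752112)))))))) (b (a (c (a (l 530241407) (l 530503039)) (a (l 532095615) (l 532117375))) (c (a (l 531036799) (l 531305343)) (a (l 532143487) (l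 532172159)))) (c (b (c (a (l 530192255) (a (l 16755056) (a (l 16758152) (l 16756712)))) (c (a (l 531140223) (a (l 16761152) (l 16758472))) (c (a (l 531282815) (a (l 16761592) (l 16759008))) (a (l 531647871) (a (l 16761888) (l 16759368)))))) (a (l 14) (a (b (l 16753864) (l 14)) (a (a (l 16751240) (l 16745136)) (l 16743768))))) (b (c (a (l 531895167) (a (l 16757408) (l 16760296))) (a (l 532306815) (a (l 16763928) (l 16761832)))) (c (b (c (a (l 14) (a (l 16760744) (l 16757904))) (a (l 14) (a (l 16761424) (l 16748208)))) (a (l 14) (a (l 14) (l 16756536)))) (a (l 14) (a (l 16756616) (l 16753712)))))))), by decide +kernel⟩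

def k17_A00pm_012_s1 : ∃ t, chk3 f_A00pm_012_s1 t 68 125 1 = true :=
  ⟨(a (l 14) (a (l 14) (a (l 14) (a (l 14) (b (b (c (c (l 16744776) (l 16747208)) (l 16740984)) (l 14)) (l 14)))))), by decide +kernel⟩

def k18_A00pm_012_s1 : ∃ t, chk3 f_A00pm_012_s1 t 69 124 2 = true :=
  ⟨(b (a (b (a (c (l 529791615) (l 530504319)) (c (l 529755007) (l 530487679))) (c (a (l 529805183) (a (b (l 16750472) (c (l 16748320) (l 16749648))) (b (l 16748632) (l 16747000)))) (a (l 530510975) (a (b (l 16753200) (l 16751808)) (b (l 16751568) (l 16749968)))))) (c (a (b (b (l 16754080) (a (l 16748280) (l 16741144))) (a (b (l 16741456) (l 16744936)) (l 16743768))) (b (a (b (l 16746056) (l 16744376)) (l 16740584)) (c (l 16739912) (l 16741464)))) (b (a (a (l 16751968) (l 16745048)) (a (l 16743264) (l 16746632))) (a (a (l 16748888) (l 16746952)) (l 16744016))))) (a (c (b (a (a (b (l 16748568) (a (l 16750104) (l 16749104))) (b (c (l 16748664) (l 16749944)) (l 16747544))) (c (l 16744688) (l 16746032))) (c (a (c (l 16744968) (l 16745552))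 (l 16741088)) (a (l 16746480) (l 16742392)))) (a (b (a (b (l 16753760) (l 16752216)) (b (l 16752024) (l 16750272))) (c (l 16747792) (l 16749192))) (b (c (l 16747472) (l 16749008)) (c (l 16743792) (l 16745288))))) (c (c (a (b (l 16740512) (l 16736912)) (l 16739792)) (b (a (l 16741944) (l 16737872)) (l 16741520))) (a (c (l 16741648) (l 16743264)) (c (l 16737672) (l 16739408)))))), by decide +kernel⟩

def k19_A00pm_012_s1 : ∃ t, chk3 f_A00pm_012_s1 t 69 124 3 = true :=
  ⟨(b (a (a (l 530133519) (b (l 530423935) (a (b (l 16747464) (l 16746272)) (b (l 16746208) (l 16744672))))) (a (b (b (l 16746552) (a (l 16746104) (l 16744680))) (a (b (l 16744688) (l 16742904)) (l 16742048))) (a (b (b (l 16744640) (l 16743032)) (l 16740264)) (b (l 16742144) (l 16738496))))) (a (a (b (a (b (l 16747752) (l 16746296)) (b (l 16746304) (l 16744552))) (c (a (l 16752392) (l 16750512)) (l 16744288))) (c (b (a (l 16752424) (l 16750560)) (l 16737232)) (b (l 16744648) (l 16740800)))) (a (c (b (l 16737288) (l 16744016)) (b (l 16741200)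 (l 16737360))) (c (b (l 16744096) (l 16740336)) (l 16735872))))), by decide +kernel⟩

def k20_A00pm_012_s1 : ∃ t, chk3 f_A00pm_012_s1 t 69 125 1 = true :=
  ⟨(c (c (a (b (c (a (b (l 16741616) (l 16737944)) (b (l 16737456) (l 16733800))) (a (b (l 16742800) (l 16739080)) (b (l 16738720) (l 16735016)))) (a (l 14) (c (b (l 16730112) (l 14)) (l 16729400)))) (b (c (b (a (l 16733296) (l 16729144)) (l 16732824)) (c (l 16735664) (l 16736384))) (c (b (l 16729152) (l 16720208)) (a (l 16725360) (l 16721328))))) (a (a (b (c (b (l 16744072) (l 16740304)) (l 16746144)) (l 14)) (b (c (l 16738208) (l 16739640)) (c (l 16730640) (l 16731976)))) (b (c (a (l 16734240) (l 16730288)) (a (l 16735776) (l 16731936))) (c (a (l 16726696) (l 16722768)) (l 16726232))))) (c (a (b (a (b (l 16737136) (l 16743752)) (b (l 16743896) (l 16740040))) (a (l 14) (c (l 16733408) (l 16734936)))) (b (a (b (l 16740208) (l 16736352)) (c (l 16733696) (l 16735576))) (c (l 16727840) (l 16729552)))) (a (b (a (a (l 16739272) (l 16737520)) (a (l 16735784)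 (l 16734064))) (a (l 14) (b (l 16739432) (l 14)))) (a (b (b (l 16743952) (l 16740008)) (l 16723520)) (b (l 16728112) (l 16730648)))))), by decide +kernel⟩

def k21_A00pm_012_s1 : ∃ t, chk3 f_A00pm_012_s1 t 35 62 2 = true :=
  ⟨(c (b (a (a (b (c (a (l 16742768) (l 16733376)) (c (l 16741968) (l 16737616))) (c (c (l 16733176) (l 16733968)) (a (l 16732000) (l 16727960)))) (b (c (a (l 16729248) (l 16725128)) (a (l 16731112) (l 16727096))) (c (a (l 16722120) (l 16718000)) (l 16727168)))) (a (b (c (l 16718976) (l 16721112)) (c (l 16711848) (l 16713936))) (b (c (l 16710832) (l 16713192)) (c (l 16703696) (l 16706016))))) (a (a (b (c (a (l 16723176) (l 16719040)) (a (l 16724704) (l 16720672))) (c (a (l 16715872) (l 16711752)) (a (l 16717304) (l 16713288)))) (b (c (l 16718104) (l 16714648)) (c (l 16710824) (l 16707280)))) (a (b (c (l 16704656) (l 16706672)) (c (l 16697384) (l 16699320))) (b (c (l 16696504) (l 16698760)) (c (l 16689240) (l 16691424)))))) (a (b (a (a (b (c (l 16740976) (l 16742880)) (c (l 16733728)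 (l 16735568))) (b (c (l 16737032) (l 16739056)) (l 16730760))) (b (c (l 16731160) (l 16733368)) (c (l 16723928) (l 16726088)))) (a (b (c (a (l 16726352) (l 16722432)) (l 16726216)) (c (l 16722144) (l 16718632))) (b (c (l 16716584) (l 16718664)) (c (l 16709128) (l 16711120))))) (b (a (b (c (l 16723408) (l 16725872)) (c (l 16716184) (l 16718600))) (b (c (l 16715744) (l 16718480)) (a (l 16711720) (l 16707984)))) (a (b (c (l 16708856) (l 16711208)) (c (l 16701424) (l 16703696))) (b (c (l 16701208) (l 16703848)) (l 16689816)))))), by decide +kernel⟩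

def k22_A00pm_012_s1 : ∃ t, chk3 f_A00pm_012_s1 t 35 62 3 = true :=
  ⟨(a (b (c (a (b (a (a (l 16736392) (l 16734568)) (b (l 16744160) (l 16740512))) (a (b (l 16740440) (l 16736696)) (b (l 16736816) (l 16733080)))) (b (a (b (l 16740552) (l 16736912)) (l 16724680)) (a (l 16731368) (l 16727808)))) (a (b (a (l 16740024) (l 16736680)) (a (l 16732512) (l 16729184))) (b (a (l 16733376) (l 16719632)) (a (l 16715424) (l 16712184))))) (c (a (b (a (l 16730992) (l 16727400)) (c (l 16720496) (l 16722480))) (b (c (l 16720888) (l 16723264)) (c (l 16713256) (l 16715536)))) (a (b (b (l 16725080) (l 16721168)) (a (l 16727328) (l 16724056))) (b (a (l 16728704) (l 16725488)) (a (l 16720832) (l 16717640)))))) (b (c (a (b (a (l 16731632) (l 16728128)) (c (l 16721184) (l 16723936))) (b (a (l 16724656) (l 16721224)) (c (l 16714112) (l 16717184)))) (a (b (a (l 16716416) (l 16713240)) (a (l 16729952) (l 16726800))) (b (b (l 16710376) (l 16706736)) (a (l 16723680) (l 16720608))))) (c (a (b (c (l 16713728) (l 16716408)) (l 16707408))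 (b (l 16708152) (l 16700552))) (a (b (a (l 16722312) (l 16719184)) (l 16718176)) (b (a (l 16716088) (l 16713032)) (l 16706792)))))), by decide +kernel⟩

def k23_A00pm_012_s1 : ∃ t, chk3 f_A00pm_012_s1 t 17 63 1 = true :=
  ⟨(a (a (l 14) (a (l 14) (a (l 14) (a (l 14) (b (a (l 14) (b (b (c (l 16714872) (l 16721408)) (l 14)) (l 14))) (l 14)))))) (c (a (b (a (b (c (c (a (l 16708456) (l 16704352)) (l 16713032)) (c (l 16709296) (l 16710920))) (a (l 14) (c (l 16697504) (l 16700424)))) (c (b (c (l 16698216) (l 16699816)) (c (l 16690752) (l 16692256))) (b (c (l 16701568) (l 16703456)) (c (l 16693896) (l 16695680))))) (a (l 14) (a (l 14) (b (c (l 16681880) (l 16685088)) (l 14))))) (b (a (c (b (c (l 16690048) (l 16691888)) (c (l 16682632) (l 16684376))) (b (c (l 16693896) (l 16696072)) (a (l 16689152) (l 16685424)))) (c (b (c (l 16681920) (l 16684016)) (c (l 16674528) (l 16676528))) (b (a (l 16689360) (l 16685656)) (a (l 16681720) (l 16678032))))) (c (a (b (c (l 16675120) (l 16676760)) (c (l 16667520) (l 16669064)))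 (b (c (l 16667064) (l 16668968)) (c (l 16659528) (l 16661328)))) (a (b (a (l 16681376) (l 16677672)) (c (l 16670760) (l 16672616))) (b (c (l 16671048) (l 16673312)) (c (l 16663312) (l 16665472))))))) (b (c (a (a (b (c (l 16712680) (l 16714560)) (a (l 14) (l 16703848))) (b (c (l 16705488) (l 16707664)) (a (l 16700352) (l 16696888)))) (a (b (l 16694392) (l 16686504)) (b (l 16687576) (l 16674496)))) (a (a (b (c (l 16716560) (l 16718696)) (a (l 14) (l 16707784))) (b (c (l 16709984) (l 16712456)) (l 16703040))) (a (b (l 16704960) (l 16696848)) (b (l 16698872) (l 16690824))))) (a (a (l 14) (b (c (l 16685336) (l 16694776)) (l 14))) (a (b (c (l 16678520) (l 16678160)) (c (a (l 14) (l 16674024)) (l 16669880))) (b (c (l 16666568) (l 16672184)) (c (l 16658568) (l 16663968)))))))), by decide +kernel⟩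

def k24_A00pm_012_s1 : ∃ t, chk3 f_A00pm_012_s1 t 36 28 1 = true :=
  ⟨(a (l 3) (b (l 3) (c (b (a (l 3) (a (l 3) (a (l 3) (c (l 530904079) (l 531364879))))) (a (a (l 3) (c (l 530410367) (l 529901183))) (a (l 531027727) (a (b (l 531084047) (l 531081855)) (b (c (l 530884111) (l 531374095)) (l 531116559)))))) (a (a (l 3) (b (l 3) (a (a (l 3) (l 530702463)) (l 530428799)))) (a (b (l 3) (c (l 531931263) (l 531517823))) (a (b (l 3) (c (l 531950207) (l 530727039))) (b (c (l 531909391) (l 530969615)) (c (l 531424783) (b (l 530997263) (l 531285119)))))))))), by decide +kernel⟩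

def k25_A00pm_012_s1 : ∃ t, chk3 f_A00pm_012_s1 t 37 56 1 = true :=
  ⟨(a (b (l 3) (c (c (a (l 531030655) (l 531162239)) (a (l 531416191) (l 531499903))) (a (c (l 531879039) (l 531229823)) (c (l 531907967) (l 531279119))))) (a (c (b (b (a (l 3) (l 531442815)) (c (a (b (l 531272975) (l 531275279)) (l 531343631)) (a (l 531544335) (l 531581967)))) (c (a (b (l 531253775) (l 531245071)) (b (l 531328783) (l 531307647))) (a (l 531550735) (b (l 531588623) (l 531592831))))) (c (b (a (b (l 3) (l 531878415)) (b (l 531857535) (l 531878527))) (a (l 531925007) (b (l 531907855) (l 531939199)))) (b (a (b (l 3) (c (l 531764495) (l 530842127))) (c (l 531274623) (l 530923791))) (a (b (l 530773519) (l 531072271)) (b (b (l 531117583) (l 531652879)) (l 531122703)))))) (c (b (b (a (l 531492623) (l 531537791)) (a (a (l 532030479) (l 532054543)) (b (l 531549055) (l 531555711)))) (b (a (c (l 531945743) (l 531628303)) (b (l 531557247) (l 531553919))) (a (b (l 531497231) (l 531493135)) (c (l 531442559) (l 531661439))))) (b (b (a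 (c (l 531855487) (l 531438863)) (l 531712383)) (a (b (l 530946575) (a (l 530954367) (l 531489663))) (c (l 531872895) (l 531268991)))) (b (a (c (l 531900687) (b (l 531198847) (l 531195263))) (c (l 531896703) (l 531147647))) (a (c (l 531936639) (l 531462159)) (c (l 531931007) (l 531272319)))))))), by decide +kernel⟩

def k26_A00pm_012_s1 : ∃ t, chk3 f_A00pm_012_s1 t 74 57 1 = true :=
  ⟨(a (c (b (a (l 531172367) (l 531232527)) (b (a (a (c (l 530923791) (l 531400207)) (b (l 531184255) (l 531183119))) (c (l 531017087) (l 531460735))) (a (a (l 531150095) (l 531182607)) (c (l 531008271) (l 531468671))))) (b (c (l 531934591) (l 530724623)) (c (a (b (c (l 531819023) (l 532115983)) (l 531721743)) (b (l 531982719) (l 531739775))) (a (c (b (l 531515919) (l 531803663)) (b (a (l 531301135) (l 531318911)) (l 531330063))) (b (l 530769023) (l 531058191)))))) (c (b (c (l 531939455) (l 531512959)) (c (a (b (l 531086207) (l 531078527)) (b (l 531151231) (l 531144319))) (a (b (l 531504511) (l 531512959)) (b (l 531544447)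 (l 531553663))))) (b (c (l 531963775) (b (l 530771071) (l 530789647))) (c (a (b (l 531997567) (l 532022911)) (l 531484687)) (b (a (l 531065471) (l 531096591)) (a (l 531086863) (l 531118863))))))), by decide +kernel⟩

def k27_A00pm_012_s1 : ∃ t, chk3 f_A00pm_012_s1 t 75 57 1 = true :=
  ⟨(c (a (b (a (c (l 531225359) (l 531568143)) (c (b (l 531293055) (l 531550079)) (b (l 531599487) (l 531607167)))) (c (a (b (l 531212303) (l 531206415)) (b (c (l 531197311) (l 531352959)) (c (l 531187583) (l 531350911)))) (a (b (l 531581199) (l 531590783)) (b (l 531615759) (l 531625487))))) (b (a (a (c (l 531334671) (l 531628303)) (c (l 531366415) (l 531644943))) (b (b (l 531539215) (l 531536143)) (c (l 531406607) (l 531403903)))) (c (c (a (b (l 531265551) (l 531254799)) (b (l 531332623) (b (l 16751536) (l 16749880)))) (a (b (l 531407887) (l 531405071)) (b (l 531461391) (l 531457807)))) (a (b (a (l 531372415) (l 531656975)) (a (l 531381887) (l 531666191))) (b (b (l 531409791) (l 531682319)) (a (l 531681551) (l 531696399)))))))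 (a (c (b (a (l 531977743) (l 531981839)) (a (a (l 531491455) (l 531494927)) (b (l 532022287) (l 532047887)))) (c (b (a (l 531825279) (l 531322495)) (a (l 531598351) (b (l 531889791) (l 531911551)))) (b (a (l 530904703) (l 531232271)) (a (b (l 531475839) (l 531500159)) (b (l 531532927) (l 531556223)))))) (c (b (a (b (l 531966735) (l 531995407)) (l 531976975)) (a (b (b (l 532015887) (l 531760655)) (b (l 531773711) (l 16750672))) (b (l 531516175) (b (l 16749608) (l 16748256))))) (c (b (a (l 531906063) (l 531557503)) (a (b (l 531395455) (l 531683455)) (b (l 531712639) (l 531730047)))) (b (a (b (l 531303807) (l 531048063)) (l 531392527)) (a (b (l 531333391) (l 531353871)) (b (l 531678735) (l 531427087)))))))), by decide +kernel⟩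

def k28_A00pm_012_s1 : ∃ t, chk3 f_A00pm_012_s1 t 36 29 1 = true :=
  ⟨(a (c (b (b (a (l 3) (c (l 530353791) (l 531036543))) (c (a (a (l 529953039) (l 530138495)) (l 530387839)) (a (l 530840591) (l 531099519)))) (c (a (a (b (l 529971215) (l 530518655)) (b (l 530160255) (l 530174591))) (b (l 530414607) (l 530164863))) (a (b (l 530885903) (a (l 530842495) (l 530989439))) (b (l 531149583) (l 531186191))))) (b (a (b (l 3) (c (l 530947711) (l 530355983))) (c (l 531606399) (a (l 530274943) (l 530237567)))) (c (a (b (l 531824143) (l 531338767)) (b (l 531993359) (l 531509631))) (a (b (a (l 530682239) (l 530636671)) (a (l 530729855) (l 530687103))) (b (b (l 530569343) (l 530860559)) (c (l 532006271) (l 530592783))))))) (c (b (a (a (c (l 530586495) (l 531231359)) (b (c (l 530404367) (l 530465807)) (l 531303695))) (b (a (c (l 530499343) (l 530529807)) (b (a (l 531088511) (l 531392383)) (l 531419151))) (c (a (l 530845311) (l 530939263)) (c (l 531048975) (l 531360271))))) (a (b (c (l 530435455) (l 530292351)) (c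 (l 530460175) (l 530064143))) (c (b (l 530804239) (l 530837263)) (b (a (l 531497855) (l 531569279)) (a (l 531541887) (l 531618175)))))) (b (a (b (a (l 530500735) (c (l 531964943) (b (l 530992143) (l 530445951)))) (a (l 530522127) (c (l 532079743) (l 530746239)))) (b (c (a (l 531994127) (b (l 532000383) (l 532065663))) (a (b (l 531007247) (l 531266175)) (b (l 531026447) (l 530750847)))) (a (c (l 532121983) (l 530742799)) (a (l 530431247) (c (l 532157311) (l 531028751)))))) (a (c (b (l 532126847) (l 532181519)) (b (b (l 530786831) (l 530544655)) (a (l 530868751) (a (l 530858623) (l 530853759))))) (b (a (c (l 532201599) (l 531054863)) (c (l 532237439) (a (l 530791551) (l 531065615)))) (c (a (l 532258431) (l 532298111)) (c (a (l 531902847) (l 531625599)) (a (l 531133567) (l 530883343))))))))), by decide +kernel⟩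

def k29_A00pm_012_s1 : ∃ t, chk3 f_A00pm_012_s1 t 74 29 2 = true :=
  ⟨(c (c (c (a (b (b (a (l 530768399) (l 530853647)) (b (l 530868495) (l 16753472))) (b (l 530940943) (l 530982415))) (a (b (b (l 530934287) (l 16756576)) (b (l 16744192) (l 16736728))) (b (b (l 531278863) (l 16754000)) (b (l 16741784) (b (l 16736392) (l 16732136)))))) (a (b (b (a (l 530880527) (l 530959631)) (b (l 530981903) (l 16753936))) (b (l 531060239) (l 531909759))) (a (b (b (l 531034383) (l 531106943)) (b (l 16744816) (b (l 16739424) (l 16735608)))) (b (b (l 531104527) (l 531171199)) (b (l 16742424) (b (l 16737152) (l 16732968))))))) (b (a (b (a (l 531863567) (l 531127823)) (a (l 531147391) (l 531214207))) (b (b (l 531481359) (l 531238159)) (a (l 531273855) (l 531597183)))) (a (b (l 531516943) (l 531029007)) (b (b (l 16746312) (l 16742928)) (b (l 16739480) (a (l 16736920) (l 16734272))))))) (b (a (b (a (a (l 531435279) (l 531192335)) (b (l 531482239) (l 531522431))) (a (l 531555343) (l 531600655))) (b (a (b (l 531526271) (l 531562623))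 (b (l 531566719) (l 531600255))) (a (l 532176399) (a (l 531665679) (l 531682063))))) (c (c (a (b (l 531447823) (l 531232383)) (b (l 531562767) (b (l 16740736) (a (l 16738304) (l 16735656))))) (a (b (l 531587087) (l 531374463)) (b (l 531419151) (b (l 16741616) (a (l 16739272) (l 16736616)))))) (a (b (l 531536911) (l 531328527)) (b (b (l 531861519) (l 16735584)) (b (l 16732504) (b (l 16730016) (l 16727912)))))))), by decide +kernel⟩

def k30_A00pm_012_s1 : ∃ t, chk3 f_A00pm_012_s1 t 74 29 3 = true :=
  ⟨(c (b (a (b (a (c (l 531885327) (l 532203023)) (c (l 531911183) (l 532212239))) (a (l 531903359) (l 532185359))) (b (a (c (l 531933711) (l 532218895)) (c (l 531953167) (l 532222223))) (a (l 531924751) (l 531660303)))) (a (a (b (l 531996287) (l 531658879)) (b (l 532284943) (l 532086543))) (b (a (l 532030735) (l 531770895)) (a (b (l 16736536) (b (l 16744880) (l 16732720))) (b (l 16734368) (b (l 16732032) (l 16740352))))))) (b (a (b (a (b (c (l 531819135) (l 531347583)) (l 531047695)) (b (l 531077135) (l 531079695)))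 (a (b (l 530775935) (l 531051791)) (b (l 531075599) (l 531078927)))) (b (b (a (l 531107087) (l 530872079)) (a (l 530845199) (l 530881551))) (a (b (l 530843663) (l 530844175)) (c (l 531343631) (a (l 531207439) (l 531234319)))))) (b (c (a (a (l 531571327) (l 531313279)) (a (l 531599119) (l 531354383))) (a (a (l 531113999) (b (l 531141247) (l 531164543))) (a (b (l 530915711) (l 531473423)) (b (l 531232783) (l 531251471))))) (c (a (a (l 531356799) (l 531631887)) (a (b (l 16733496) (b (l 16741592) (l 16735064))) (b (l 16736408) (b (l 16734328) (l 16738936))))) (b (a (a (l 531430271) (l 530926207)) (a (l 531233295) (b (l 16739792) (l 16738096)))) (a (a (l 531199615) (l 531230991)) (a (b (l 16738744) (a (b (l 16738056) (l 16737336)) (b (l 16737008) (l 16736648)))) (b (a (b (l 16737408) (l 16731448)) (b (l 16731152) (l 16736024))) (l 16730736))))))))), by decide +kernel⟩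

def k31_A00pm_012_s1 : ∃ t, chk3 f_A00pm_012_s1 t 150 29 2 = true :=
  ⟨(b (b (c (a (b (l 531473935) (l 531225103)) (b (b (l 16753560) (l 16751896)) (a (l 16750056) (l 16748808)))) (a (b (l 531603983) (l 531635215)) (b (l 531638543) (l 531668239)))) (c (a (b (l 16748648) (l 16745360)) (b (l 16746160) (l 16742928))) (a (a (l 531697679) (l 531712271)) (b (l 531710223) (l 531759375))))) (a (c (b (l 531165199) (b (b (l 16736176) (l 16734208)) (l 16730416))) (b (b (l 16734352) (l 16731328)) (b (c (l 16727192) (l 16729032)) (b (l 16735424) (l 16732856))))) (b (c (b (l 16739688) (l 16736416)) (b (l 16737248) (c (l 16738712) (l 16740392)))) (b (c (b (l 16733656) (l 16731256)) (b (l 16726520) (l 16734752))) (c (l 16727240) (b (l 16732240) (l 16729688))))))), by decide +kernel⟩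

def k32_A00pm_012_s1 : ∃ t, chk3 f_A00pm_012_s1 t 151 29 2 = true :=
  ⟨(c (c (a (b (b (b (l 531249935) (l 531262735)) (b (l 16743224) (l 16739952))) (b (b (l 16736704) (b (l 16734256) (l 16732304))) (l 16736384))) (b (b (b (a (l 16748000) (l 16746784)) (b (l 16744912) (l 16743272))) (b (l 16740832) (l 16737600))) (b (b (l 16734376) (b (l 16731616) (l 16729208))) (l 16733120)))) (a (b (b (b (l 531407119) (l 16747416)) (b (l 16744256) (l 16741120))) (b (b (l 16738000) (b (l 16735656) (l 16733776))) (l 16738040))) (b (b (b (l 531458831) (l 16744992)) (b (l 16741856) (l 16738752))) (b (b (l 16735672) (b (l 16733008) (l 16730680))) (l 16734776))))) (b (b (a (b (a (l 531663231) (l 531678735)) (b (l 16744408) (l 16748168))) (b (a (l 531693839) (l 531439887)) (b (l 531719951) (l 16745760)))) (a (c (l 531394575) (l 531863567)) (b (b (l 16744296) (l 16742848)) (l 531810319)))) (b (a (b (l 16734904) (b (l 16727488) (b (l 16726264) (l 16725248)))) (b (b (l 16738520) (l 16731848)) (b (b (l 16730608) (l 16724352))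 (l 16722616)))) (c (b (b (l 16731464) (l 16728968)) (l 16725160)) (b (b (l 16722776) (l 16730864)) (l 16716704)))))), by decide +kernel⟩

def k33_A00pm_012_s1 : ∃ t, chk3 f_A00pm_012_s1 t 150 29 3 = true :=
  ⟨(b (b (c (a (b (l 532070415) (l 531711103)) (b (l 532074767) (l 532116495))) (a (b (a (l 530900095) (l 531187983)) (a (l 530911615) (l 531200527))) (b (a (l 531209999) (l 531234063)) (a (l 531223055) (l 531247631))))) (a (c (b (l 16748032) (l 16745416)) (b (c (l 16746744) (l 531544079)) (a (l 531185935) (l 531209231)))) (c (b (l 16745688) (l 16743088)) (c (l 531480079) (b (l 531602959) (l 531609359)))))) (b (a (c (b (l 16742800) (l 16734896)) (c (b (l 16740464) (l 16737296)) (b (l 531287311) (b (l 16740872) (l 16739192))))) (c (b (l 16740496) (l 16737888)) (b (c (l 531686783) (b (l 16742000) (l 16740320))) (c (a (l 16730392) (l 16734528)) (b (l 16738648) (b (l 16737400) (l 16731312))))))) (c (a (b (b (l 16732864) (l 16736488)) (l 16738424)) (b (b (l 16735608) (l 16738776)) (l 16735272))) (b (a (b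 (c (l 16740176) (c (l 16738192) (l 16736832))) (c (l 16733664) (a (b (l 16736808) (l 16730872)) (b (l 16730616) (l 16735480))))) (b (c (l 16733064) (a (b (l 16736272) (l 16730376)) (b (l 16730152) (l 16735016)))) (c (l 16737640) (l 16729640)))) (c (b (l 16737760) (l 16737408)) (a (b (l 16730144) (l 16734952)) (l 16728920))))))), by decide +kernel⟩

def k34_A00pm_012_s1 : ∃ t, chk3 f_A00pm_012_s1 t 151 29 3 = true :=
  ⟨(b (b (c (a (b (b (l 16749304) (l 16747952)) (a (l 16746544) (l 16745352))) (c (b (l 531975295) (l 16742944)) (b (l 532175487) (l 16744184)))) (a (c (b (l 531435391) (l 531715599)) (b (a (l 531627903) (l 531661695)) (a (l 531642495) (l 531676031)))) (b (c (l 531614079) (l 531311887)) (c (l 531625855) (b (l 531725327) (l 531730703)))))) (a (c (b (l 16743320) (l 16740728)) (c (b (l 16742256) (l 531591807)) (b (b (l 16741088) (l 16739488)) (b (l 16743120) (l 16741488))))) (c (b (a (l 16746776) (l 16745576)) (l 16738352)) (b (c (l 531766543) (b (l 16738928) (l 16737352))) (c (l 16737096) (b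 (l 16741008) (l 16739400))))))) (b (c (a (b (l 16738160) (b (l 16730984) (l 16734624))) (b (c (l 16740200) (l 16736168)) (b (a (l 16729080) (l 16738064)) (l 16736768)))) (b (a (c (l 531728911) (b (l 16734600) (l 16738192))) (a (b (l 16734192) (l 16732592)) (b (l 16733168) (a (l 16731832) (l 16731336))))) (a (b (c (l 16733728) (a (l 16737048) (l 16730752))) (c (a (l 16732816) (l 16737408)) (a (b (l 16735800) (l 16729952)) (b (l 16729776) (l 16734648))))) (a (b (b (l 16731392) (l 16730856)) (l 16730392)) (b (b (l 16730696) (l 16730360)) (l 16729952)))))) (c (b (c (l 16734040) (l 16736152)) (c (l 16718872) (l 16731680))) (b (c (a (l 16736904) (l 16735976)) (a (b (l 16729216) (l 16728680)) (l 16728008))) (c (l 16734144) (a (l 16727904) (l 16732120))))))), by decide +kernel⟩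

def k35_A00pm_012_s1 : ∃ t, chk3 f_A00pm_012_s1 t 72 60 1 = true :=
  ⟨(c (c (a (a (b (c (l 529759871) (l 530166143)) (l 530387327)) (b (l 530153855) (b (l 16743056) (b (l 16739088) (l 16736352))))) (b (l 530153487) (b (a (l 16740752) (l 16738512)) (a (b (l 16736848) (l 16733920)) (l 16732824))))) (b (a (a (l 530832511) (l 530980479)) (a (l 531119743) (l 531245951))) (a (a (l 530726527) (b (l 16736744) (b (l 16743720) (l 16741288)))) (b (a (l 16745088) (l 16732520)) (a (c (l 16738912) (l 16731016)) (b (l 16739240) (l 16736088))))))) (a (a (b (c (l 531828095) (l 530284159)) (c (l 531723391) (l 530736255))) (b (c (l 531922815) (l 530513791)) (b (l 530761343) (b (l 16741368) (a (l 16739984) (l 16738984)))))) (b (c (l 531517455) (a (l 530477583) (l 530449167))) (b (a (l 530830863) (c (l 16748120) (b (l 16737672) (l 16736104)))) (b (c (c (l 16733904) (l 16736784)) (a (l 16737240) (l 16735344))) (a (a (l 16737752) (l 16736400)) (l 16734200))))))), by decide +kernel⟩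

def k36_A00pm_012_s1 : ∃ t, chk3 f_A00pm_012_s1 t 73 60 1 = true :=
  ⟨(b (a (a (c (c (l 530655871) (l 531359871)) (c (l 532162687) (b (l 531204111) (l 531005311)))) (b (c (l 531661183) (c (l 16751312) (l 530922879))) (c (c (l 16738912) (l 16732632)) (c (l 16747920) (b (l 16735608) (l 16734000)))))) (b (c (c (l 16739968) (l 531600143)) (c (l 532303119) (a (l 530918783) (l 530922255)))) (c (c (a (l 16736592) (b (l 16735488) (l 16732664))) (a (c (l 16739752) (l 16731560)) (a (l 16728568) (l 16727208)))) (c (c (b (l 16744408) (l 16731528)) (a (l 16736608) (l 16734048))) (a (b (l 16733024) (a (l 16732248) (l 16731424))) (b (c (l 16742984) (a (l 16734840) (l 16739256))) (l 16730464))))))) (c (a (c (b (a (l 16736184) (l 16733664)) (l 16728688)) (b (a (c (l 16739552) (l 16731504)) (b (l 16739712) (l 16736792))) (c (l 16732192) (l 16734736)))) (c (b (l 16729440) (l 16722960)) (b (b (l 16725016) (l 16732416)) (c (l 16726416) (l 16728936))))) (a (b (c (b (c (l 16734136) (l 16736848)) (c (l 16731520) (l 16734312)))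 (a (b (l 16735024) (b (l 16734152) (l 16733960))) (b (b (l 16733032) (l 16732784)) (l 16732744)))) (c (c (l 16726968) (l 16740336)) (a (l 16734072) (l 16732912)))) (c (b (l 16733888) (c (l 16731616) (l 16723992))) (b (c (l 16743192) (l 16734528)) (l 16733840)))))), by decide +kernel⟩

def k37_A00pm_012_s1 : ∃ t, chk3 f_A00pm_012_s1 t 72 61 1 = true :=
  ⟨(b (c (c (a (b (a (b (l 16735832) (l 16732728)) (l 16726424)) (c (l 16725056) (l 16727488))) (b (l 16727552) (l 16731152))) (a (b (a (b (l 16740936) (l 16737952)) (b (l 16738408) (l 16735128))) (c (l 16730112) (l 16732912))) (b (c (l 16731224) (l 16733896)) (l 16728368)))) (b (a (c (a (b (l 16736248) (l 16722928)) (b (l 16723208) (l 16740984))) (a (b (l 16739488) (l 16728592)) (l 16737976))) (c (a (l 16729192) (l 16726280)) (a (l 16735640) (l 16743136)))) (c (a (a (l 16717976) (l 16715000)) (b (l 16722752) (l 16729864))) (a (l 16733688) (b (l 16739744) (l 16715456)))))) (a (b (c (c (c (l 16718120) (l 16720576)) (c (l 16723216) (l 16726048))) (c (b (l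 16721880) (l 16728920)) (a (l 16718016) (l 16714936)))) (c (c (a (l 16713688) (l 16710864)) (l 16717584)) (c (c (l 16722072) (l 16725304)) (a (l 16711088) (l 16708016))))) (c (b (c (l 16724168) (l 16718824)) (c (l 16717064) (l 16711768))) (b (c (c (l 16723176) (l 16726312)) (a (l 16711904) (l 16708912))) (c (l 16717728) (b (l 16705248) (l 16722712))))))), by decide +kernel⟩

def k38_A00pm_012_s1 : ∃ t, chk3 f_A00pm_012_s1 t 73 61 1 = true :=
  ⟨(c (a (b (b (c (l 16721944) (c (l 16725536) (l 16728160))) (c (l 16715032) (l 16720024))) (b (c (l 16707960) (l 16713040)) (c (l 16700800) (l 16705944)))) (b (b (c (l 16716240) (l 16721080)) (c (l 16709288) (l 16714264))) (b (c (l 16702184) (l 16707272)) (c (l 16694936) (l 16700112))))) (b (c (a (b (a (l 16723376) (l 16709992)) (c (l 16724248) (l 16727288))) (b (b (l 16717776) (l 16725008)) (c (l 16718488) (l 16721536)))) (b (a (l 16733464) (l 16727672)) (a (b (l 16723360) (l 16709560)) (a (l 16706904) (l 16704072))))) (b (c (a (c (l 16717344) (l 16720456)) (l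 16713136)) (a (a (l 16705960) (l 16703064)) (c (l 16718048) (l 16721560)))) (c (a (l 16711872) (l 16706096)) (a (b (l 16720336) (l 16716840)) (c (l 16711112) (l 16714704))))))), by decide +kernel⟩

def k39_A00pm_012_s1 : ∃ t, chk3 f_A00pm_012_s1 t 74 60 1 = true :=
  ⟨(c (c (b (a (b (a (l 16736544) (a (l 16734688) (l 16733312))) (l 16740216)) (b (a (l 16731080) (l 16727992)) (l 16723664))) (b (a (l 16723544) (l 16717504)) (a (l 16717088) (l 16711072)))) (b (b (a (a (b (l 16741600) (l 16729072)) (b (l 16728784) (l 16736776))) (a (b (l 16736448) (l 16733720)) (l 16721512))) (a (a (l 16725024) (l 16732496)) (c (l 16726808) (l 16729096)))) (b (a (c (l 16726848) (l 16729256)) (l 16732496)) (a (l 16732264) (l 16715808))))) (b (a (c (b (c (b (l 16733256) (l 16731064)) (b (l 16739832) (l 16733544))) (c (l 16737616) (l 16740216))) (c (b (a (b (l 16743224) (l 16731520)) (b (l 16735872) (l 16740584))) (l 16735720)) (b (a (b (l 16740192) (a (l 16733960) (l 16733136))) (b (a (l 16733160) (l 16732336)) (l 16737440)))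 (a (l 16733000) (l 16726648))))) (c (b (c (l 16736928) (l 16739384)) (l 16727592)) (c (b (l 16733832) (l 16736928)) (b (a (b (l 16736656) (l 16736360)) (l 16730200)) (l 16730216))))) (c (b (a (c (l 16721344) (l 16734568)) (a (l 16718208) (l 16715216))) (a (c (l 16725744) (l 16707640)) (c (l 16719832) (l 16722744)))) (a (b (a (l 16729296) (l 16727016)) (l 16728000)) (b (l 16727824) (l 16722208)))))), by decide +kernel⟩

def k40_A00pm_012_s1 : ∃ t, chk3 f_A00pm_012_s1 t 75 60 1 = true :=
  ⟨(c (c (b (b (a (l 16733768) (l 16716888)) (a (l 16717440) (l 16711080))) (a (b (l 16711312) (l 16704912)) (b (l 16704984) (l 16698616)))) (b (a (b (a (l 16728880) (l 16725736)) (l 16732240)) (b (c (l 16719888) (l 16722096)) (l 16725968))) (b (a (l 16715896) (l 16709688)) (a (l 16709752) (l 16703608))))) (b (c (a (b (c (l 16720248) (l 16733200)) (a (l 16717768) (l 16714704))) (b (c (l 16724456) (l 16716496)) (b (l 16711408) (l 16708760)))) (a (b (c (l 16735824) (b (l 16728776) (l 16733648))) (c (l 16730888) (l 16722672)))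 (b (c (l 16729664) (l 16721152)) (c (l 16724856) (l 16727920))))) (b (a (c (c (l 16719800) (l 16722624)) (l 16721944)) (c (c (l 16713704) (l 16716616)) (l 16716088))) (c (a (c (l 16713880) (l 16716864)) (l 16719880)) (c (c (l 16705840) (l 16707504)) (a (l 16723400) (l 16696776))))))), by decide +kernel⟩

def k41_A00pm_012_s1 : ∃ t, chk3 f_A00pm_012_s1 t 37 61 1 = true :=
  ⟨(c (c (a (b (a (b (l 16710384) (l 16703456)) (b (l 16704392) (l 16697480))) (a (b (l 16696312) (l 16689040)) (b (l 16690360) (l 16683056)))) (b (a (b (l 16698264) (l 16691376)) (l 16709552)) (a (l 16691128) (l 16695416)))) (b (a (b (a (l 16715256) (l 16709336)) (a (l 16708480) (l 16702616))) (b (a (l 16703344) (l 16697256)) (a (l 16696672) (l 16690648)))) (a (a (b (l 16701480) (l 16694312)) (b (l 16695664) (l 16688488))) (a (b (l 16689768) (l 16682648)) (l 16680280))))) (a (b (b (c (a (c (l 16719384) (l 16722368)) (c (l 16713552) (l 16716592))) (a (l 16721944) (c (l 16719832) (l 16702280)))) (c (a (l 16724760) (l 16708552)) (a (a (l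 16701272) (l 16698480)) (a (l 16695696) (l 16713904))))) (a (c (b (l 16707440) (l 16700424)) (b (c (l 16712440) (l 16716032)) (c (l 16705552) (l 16709232)))) (c (b (l 16701800) (l 16694800)) (b (c (l 16706952) (l 16710648)) (c (l 16700096) (l 16703912)))))) (b (a (c (b (l 16709216) (l 16702808)) (b (a (l 16696320) (l 16693520)) (c (l 16707960) (l 16711664)))) (c (b (l 16703360) (l 16697040)) (b (b (l 16701264) (l 16687864)) (c (l 16702424) (l 16706288))))) (a (c (b (l 16696136) (l 16689224)) (b (c (l 16701496) (l 16705344)) (l 16707200))) (c (b (l 16690464) (l 16683632)) (b (c (l 16696072) (l 16700096)) (l 16691496))))))), by decide +kernel⟩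

def k42_A00pm_012_s1 : ∃ t, chk3 f_A00pm_012_s1 t 18 62 2 = true :=
  ⟨(a (a (b (a (b (c (a (l 16706584) (l 16703728)) (l 16705208)) (c (a (l 16699408) (l 16696536)) (l 16697960))) (c (b (l 16699408) (l 16692176)) (c (l 16694352) (l 16702376)))) (a (c (b (c (l 16689576) (l 16691936)) (c (l 16682296) (l 16684592))) (b (l 16685360) (l 16688400))) (c (b (l 16684880) (l 16677536)) (b (l 16689952) (l 16682488))))) (b (a (c (b (l 16693568) (l 16686280)) (b (l 16698736) (l 16691432))) (c (b (l 16687648) (l 16680312)) (b (l 16692872) (l 16685536)))) (c (a (b (l 16678944) (l 16671552)) (b (l 16672920) (l 16665488))) (a (b (l 16684040) (l 16676560)) (b (l 16678120) (l 16670616)))))) (a (a (b (c (b (l 16681672) (l 16674272)) (b (l 16687016) (l 16679648))) (c (b (l 16666832) (l 16659352)) (b (l 16672200) (l 16664672)))) (b (c (b (l 16675656) (l 16668184)) (b (l 16681184) (l 16673760))) (c (b (l 16660688) (l 16653160)) (b (l 16666280) (l 16658736))))) (a (b (c (b (l 16669568) (l 16662064)) (b (l 16675336) (l 16667912)))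 (c (b (l 16654496) (l 16646912)) (b (l 16660384) (l 16652800)))) (c (b (l 16680600) (l 16654968)) (b (b (l 16669480) (l 16662048)) (b (l 16654520) (l 16646888))))))), by decide +kernel⟩

def k43_A00pm_012_s1 : ∃ t, chk3 f_A00pm_012_s1 t 18 63 2 = true :=
  ⟨(a (a (b (b (c (a (c (l 16674960) (l 16677176)) (l 16670120)) (a (l 16680864) (l 16674944))) (c (a (c (l 16667560) (l 16669688)) (l 16662656)) (a (l 16673248) (l 16667328)))) (c (a (b (c (l 16660104) (l 16662136)) (c (l 16652584) (l 16654528))) (b (l 16655128) (l 16647552))) (a (b (l 16665552) (l 16657800)) (b (l 16659640) (l 16651888))))) (b (c (b (a (l 16664104) (l 16658008)) (a (l 16656608) (l 16650472))) (a (b (l 16669000) (l 16661376)) (b (l 16663048) (l 16655416)))) (a (b (c (l 16649064) (l 16653688)) (c (l 16641464) (l 16645952))) (b (c (l 16642904) (l 16647720)) (c (l 16635280) (l 16639992)))))) (a (b (c (b (a (l 16651832) (l 16645592)) (a (l 16644264) (l 16637992))) (a (b (l 16657088) (l 16649440)) (b (l 16651120) (l 16643464)))) (c (b (a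 (l 16636664) (l 16630352)) (a (l 16629016) (l 16622688))) (b (a (l 16641744) (l 16635760)) (a (l 16634008) (l 16628024))))) (b (c (b (a (l 16639304) (l 16632968)) (a (l 16631656) (l 16625288))) (b (a (l 16645168) (l 16639232)) (a (l 16637496) (l 16631536)))) (c (b (a (l 16623992) (l 16617584)) (a (l 16616296) (l 16609856))) (b (a (l 16629784) (l 16623808)) (a (l 16622040) (l 16616064))))))), by decide +kernel⟩

def k44_A00pm_012_s1 : ∃ t, chk3 f_A00pm_012_s1 t 18 62 3 = true :=
  ⟨(a (b (c (a (b (a (l 16716520) (l 16710576)) (a (l 16709216) (l 16703272))) (b (a (l 16704712) (l 16698928)) (a (l 16697408) (l 16691608)))) (a (b (a (l 16707648) (l 16701624)) (a (l 16695056) (l 16710024))) (b (a (c (l 16709720) (l 16713312)) (l 16711048)) (a (l 16704192) (l 16698528))))) (a (a (b (c (l 16701760) (l 16708480)) (c (l 16694184) (l 16700760))) (c (c (l 16685272) (l 16693632)) (b (l 16702512) (l 16694840)))) (b (c (c (l 16685488) (l 16688688)) (a (l 16696720) (l 16691080))) (c (a (l 16682400) (l 16676616)) (a (l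 16689080) (l 16683480)))))) (a (b (c (a (b (l 16693216) (l 16685896)) (b (l 16687616) (l 16680264))) (b (a (l 16700288) (l 16694952)) (a (l 16693032) (l 16687696)))) (c (a (b (l 16678456) (l 16670904)) (b (l 16672816) (l 16665264))) (b (a (l 16685608) (l 16680296)) (a (l 16678040) (l 16672752))))) (b (c (c (a (l 16676624) (l 16671024)) (a (l 16680256) (l 16674856))) (a (b (l 16689736) (l 16682536)) (b (l 16684640) (l 16677496)))) (c (a (b (l 16667256) (l 16659704)) (b (l 16661808) (l 16654224))) (b (a (l 16675136) (l 16670160)) (a (l 16667624) (l 16662648))))))), by decide +kernel⟩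

def k45_A00pm_012_s1 : ∃ t, chk3 f_A00pm_012_s1 t 18 63 3 = true :=
  ⟨(a (b (a (b (a (c (l 16686480) (l 16692896)) (c (l 16680576) (l 16687024))) (c (a (l 16678680) (l 16672800)) (a (l 16684904) (l 16679088)))) (b (c (a (l 16674736) (l 16668960)) (a (l 16681304) (l 16675752))) (c (a (l 16666984) (l 16661224)) (c (l 16668936) (l 16672432))))) (a (b (c (a (l 16670792) (l 16664944)) (a (l 16676816) (l 16671064))) (a (c (l 16662840) (l 16668656)) (c (l 16657032) (l 16662968)))) (b (c (a (l 16659152) (l 16653424)) (a (l 16665456) (l 16660000))) (c (a (l 16651272) (l 16645576)) (a (l 16657432) (l 16652040)))))) (b (a (c (b (a (l 16663256) (l 16657624)) (a (l 16655536) (l 16649912))) (b (c (l 16665800) (l 16669672)) (a (l 16662552) (l 16657344)))) (c (a (b (l 16652072) (l 16644368)) (b (l 16646592) (l 16638896))) (b (a (l 16659992) (l 16655048)) (a (l 16652280) (l 16647368))))) (a (c (b (a (l 16647752) (l 16642152)) (a (l 16639936) (l 16634352))) (b (a (l 16654696) (l 16649528)) (a (l 16646784) (l 16641672))))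 (c (a (b (l 16636624) (l 16628848)) (b (l 16631160) (l 16623400))) (b (a (l 16644512) (l 16639632)) (a (l 16636704) (l 16631880))))))), by decide +kernel⟩

def k46_A00pm_012_s1 : ∃ t, chk3 f_A00pm_012_s1 t 38 56 1 = true :=
  ⟨(a (b (a (b (l 531215231) (c (l 531614223) (l 531431183))) (c (l 531674239) (l 531907711))) (c (a (b (a (l 531600767) (l 531640703)) (a (l 531593487) (l 531636863))) (b (l 531692927) (l 531156495))) (a (b (c (l 531887999) (l 531262079)) (c (l 531918863) (l 531258383))) (b (l 531945087) (l 531714575))))) (b (a (l 531782671) (c (l 531776383) (l 531797887))) (a (c (l 530947343) (l 531908111)) (c (l 531802239) (l 531845135))))), by decide +kernel⟩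

def k47_A00pm_012_s1 : ∃ t, chk3 f_A00pm_012_s1 t 38 57 2 = true :=
  ⟨(b (a (a (b (a (l 531584015) (l 531627791)) (a (c (l 531466511) (l 531701631)) (c (l 16747232) (l 16748176)))) (b (a (l 16748192) (l 16740528)) (a (l 531660047) (l 16742848)))) (a (b (l 16736920) (b (l 16734752) (l 16738528))) (a (l 16731872) (l 16729560)))) (c (c (c (a (a (b (a (l 531370879) (l 16748976)) (a (l 531355519) (l 16745728))) (b (l 531796495) (b (l 16743024) (l 16744016)))) (b (a (l 16740848) (l 16731168)) (a (l 531616015) (a (l 16734248) (l 16726952))))) (a (a (b (a (l 16751648) (l 16749224)) (a (l 16748424) (l 16746024))) (b (l 531566607) (b (l 16743296) (l 16741696)))) (b (a (l 16741032) (l 16736520)) (a (l 16737872) (a (l 16734440) (l 16727088)))))) (c (a (a (b (a (l 16751912) (l 16749488)) (a (l 16748752) (l 16746344))) (b (l 531607567) (b (l 16743576) (l 16742008)))) (b (a (l 16741224) (l 16736640)) (a (l 16738120) (a (l 16734640) (l 16721992))))) (a (a (b (a (l 16752200) (l 16749768)) (a (l 16749096) (l 16746680)))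 (b (l 531650831) (b (l 16743880) (l 16742336)))) (a (b (l 16741432) (l 16738384)) (a (l 16725896) (b (l 16735640) (l 16732632))))))) (c (c (a (a (b (l 531895055) (a (l 16749456) (l 16747032))) (b (l 531695999) (l 531696143))) (a (b (l 16741656) (l 16738664)) (a (l 16726096) (l 16729032)))) (a (a (b (l 531689743) (a (l 16749832) (l 16747400))) (b (l 531743871) (l 531749135))) (a (b (l 16741888) (l 16738960)) (a (l 16726304) (l 16729184))))) (a (a (b (l 531521551) (a (l 531793535) (l 16742744))) (b (l 531552127) (l 531564815))) (a (b (l 16731776) (l 16734184)) (a (l 16726640) (l 16729416))))))), by decide +kernel⟩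

def k48_A00pm_012_s1 : ∃ t, chk3 f_A00pm_012_s1 t 38 57 3 = true :=
  ⟨(b (c (a (a (b (l 531951119) (l 531612431)) (b (l 16753400) (l 531960335))) (a (l 531917327) (l 531881343))) (a (a (b (a (l 531617663) (l 16752008)) (a (l 531352959) (l 16749272))) (a (l 531504143) (l 16746576))) (a (l 531794191) (l 531954447)))) (b (a (a (c (a (l 532013839) (l 16746696)) (a (l 531362063) (l 16746512))) (a (b (l 16745592) (l 16744344)) (l 16742400))) (a (b (l 16744336) (l 16737856)) (a (l 16739696) (l 16736848)))) (a (a (c (a (l 531772687) (l 16744032)) (a (b (l 16746520) (l 531380239)) (l 531443215))) (c (a (l 16741544) (l 16744280)) (a (l 16741712) (l 16734536)))) (a (a (l 16737296) (l 16729408)) (a (l 16737208) (a (l 16735136) (l 16723072))))))), by decide +kernel⟩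

def k49_A00pm_012_s1 : ∃ t, chk3 f_A00pm_012_s1 t 39 56 1 = true :=
  ⟨(b (c (a (a (l 16747376) (l 16742960)) (a (l 16728064) (a (l 16714240) (b (l 16734080) (l 16710848))))) (a (a (l 16746136) (l 531519871)) (a (l 530310671) (a (l 16707352) (c (l 16706224) (l 16701472)))))) (a (a (c (l 16742328) (l 16730472)) (c (l 16727576) (a (l 16715184) (l 16711912)))) (b (c (a (l 16735008) (a (l 16721224) (a (l 16708920) (l 16717984)))) (a (l 16708272) (a (a (l 16724984) (l 16702288)) (c (l 16701960) (l 16717864))))) (c (a (c (l 16722440) (l 16720688)) (a (a (l 16719064) (l 16728088)) (l 16725680))) (a (c (l 16717672) (l 16714184)) (a (c (l 16712752) (l 16718760)) (c (l 16719568) (l 16714640)))))))), by decide +kernel⟩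

def k50_A00pm_012_s1 : ∃ t, chk3 f_A00pm_012_s1 t 78 57 1 = true :=
  ⟨(b (a (c (b (l 16738328) (l 16725072)) (b (l 16726616) (l 16724056))) (c (b (l 16734184) (a (b (l 16733192) (l 16731816)) (b (l 16720592) (c (l 16730216) (l 16717976))))) (b (l 16720064) (a (b (l 16730232) (l 16718424)) (c (b (l 16728008) (l 16726416)) (l 16714328)))))) (a (b (c (b (l 16722944) (a (l 16732968) (c (l 16725944) (l 16725360)))) (a (l 16723136) (c (l 16725408) (l 16724672)))) (a (c (c (b (l 16726208) (a (l 16724984) (l 16723816))) (b (l 16731512) (c (l 16724496) (l 16724608)))) (a (b (l 16732544) (l 16725960)) (b (l 16730872) (l 16724072)))) (c (a (b (b (l 16725048) (l 16724048)) (l 16722360)) (c (l 16727464) (l 16726984))) (c (a (l 16723048) (l 16726472)) (a (l 16722808) (l 16725944)))))) (b (c (a (c (b (l 16730784) (l 16723536)) (b (l 16724344) (l 16727712))) (a (l 16716568) (l 16715032))) (a (b (c (l 16717736) (l 16726680)) (c (l 16726496) (l 16725152))) (c (l 16723704) (l 16721704)))) (c (c (a (a (l 16726056) (l 16724632))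 (l 16717248)) (a (a (l 16725360) (l 16723728)) (l 16721280))) (c (a (l 16723672) (l 16719936)) (a (l 16722728) (l 16718448))))))), by decide +kernel⟩

def k51_A00pm_012_s1 : ∃ t, chk3 f_A00pm_012_s1 t 79 57 1 = true :=
  ⟨(b (c (a (a (b (b (l 16731696) (l 16719712)) (c (l 16728440) (l 16715736))) (b (c (l 16729520) (l 16716272)) (a (l 16725032) (l 16723456)))) (a (c (l 16724536) (l 16711024)) (b (l 16700896) (l 16707400)))) (a (a (b (a (l 16715840) (l 16714040)) (c (l 16713152) (l 16720688))) (c (b (l 16712992) (l 16719904)) (b (l 16719704) (l 16716488)))) (a (c (l 16707480) (l 16713904)) (c (l 16714216) (l 16709728))))) (c (b (a (c (a (l 16713640) (l 16710696)) (a (l 16722184) (l 16718864))) (a (a (l 16707224) (l 16716128)) (l 16703256))) (a (a (c (l 16719608) (l 16718000)) (a (l 16706016) (l 16714944))) (a (c (l 16713736) (l 16711376)) (a (l 16710232) (l 16708648))))) (b (c (a (a (l 16719960) (l 16716216)) (a (l 16712472) (l 16708720))) (a (a (l 16717456) (l 16713232)) (a (l 16709016) (l 16704832))))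 (a (a (c (l 16705704) (l 16714192)) (a (l 16706984) (l 16699760))) (a (a (l 16697768) (l 16706272)) (c (l 16704968) (l 16701544))))))), by decide +kernel⟩

def k52_A00pm_012_s1 : ∃ t, chk3 f_A00pm_012_s1 t 152 58 1 = true :=
  ⟨(c (c (a (b (b (c (c (l 16744800) (l 16745168)) (l 531507983)) (c (b (l 16742520) (l 16740896)) (l 16745216))) (b (b (l 16739760) (l 16738184)) (l 16735832))) (b (b (c (b (l 16743424) (l 16741784)) (l 16743360)) (b (l 16740576) (l 16738992))) (b (c (l 16736152) (l 16737144)) (b (l 16734304) (c (l 16732128) (l 16733280)))))) (a (b (b (a (l 531453711) (l 531735311)) (b (l 16744824) (l 16743360))) (b (a (l 16744400) (l 16743208)) (b (l 16739032) (l 16737600)))) (a (b (b (l 531747855) (l 531771663)) (b (l 16742016) (l 16736536))) (b (b (l 531759631) (l 531782927)) (b (l 16738208) (b (l 16736072) (l 16729328))))))) (b (c (a (c (b (l 531978879) (l 16740536)) (b (l 16744344) (l 16741760))) (b (l 531524623) (l 531562511))) (c (a (a (l 531655439) (l 531680271)) (b (l 16741696) (l 16738888)))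 (a (b (l 531520783) (l 531532303)) (b (l 531598719) (l 531607823))))) (c (a (b (c (l 16737848) (l 16739232)) (l 16735952)) (a (b (l 16741944) (l 16739376)) (b (l 16740720) (b (l 16738800) (l 16732216))))) (b (a (c (l 16738024) (b (l 16736856) (l 16735304))) (b (l 16735816) (l 16734320))) (a (b (l 16734776) (l 16733232)) (b (l 16732808) (a (l 16731760) (l 16730872)))))))), by decide +kernel⟩

def k53_A00pm_012_s1 : ∃ t, chk3 f_A00pm_012_s1 t 153 58 1 = true :=
  ⟨(b (c (c (b (a (b (l 16741416) (l 16739824)) (c (l 16735336) (l 16738640))) (a (c (l 16737040) (l 16737880)) (c (l 16734744) (l 16735544)))) (b (a (b (l 16742952) (l 16741480)) (b (l 16740536) (l 16739072))) (a (b (l 16740024) (l 16738576)) (b (l 16737616) (l 16736176))))) (c (b (a (l 16738872) (l 16736368)) (a (l 531552527) (l 16733728))) (b (a (l 531523599) (l 16737016)) (a (b (l 16736792) (l 16735352)) (l 16734200))))) (b (a (c (c (c (l 16733856) (l 16734816)) (a (l 16737016) (l 16735824))) (c (c (l 16732984) (l 16739544)) (b (l 16733888) (l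 16732408)))) (c (c (b (l 16732808) (a (b (l 16732216) (l 16726160)) (b (a (l 16731352) (l 16730688)) (l 16727336)))) (b (l 16734744) (a (l 16728664) (b (l 16733016) (l 16732056))))) (b (l 16733056) (c (a (l 16731120) (l 16729680)) (a (l 16731024) (l 16730352)))))) (a (c (c (b (a (l 16732576) (b (l 16731800) (l 16730832))) (a (b (l 16731256) (l 16730112)) (l 16729048))) (b (a (l 16734880) (b (l 16734040) (l 16733136))) (a (b (l 16733664) (l 16732608)) (l 16731496)))) (b (c (c (l 16730928) (l 16732360)) (a (l 16731368) (l 16730592))) (c (c (l 16729144) (l 16730672)) (a (b (l 16730424) (l 16730024)) (l 16729776))))) (a (b (c (c (a (l 16727592) (l 16729400)) (b (l 16732600) (l 16731504))) (c (l 16729432) (l 16730040))) (c (c (l 16727360) (l 16729808)) (c (l 16732664) (l 16734616)))) (c (c (a (l 16732568) (l 16731720)) (l 16734488)) (c (c (l 16731272) (l 16732744)) (l 16729288))))))), by decide +kernel⟩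

def k54_A00pm_012_s1 : ∃ t, chk3 f_A00pm_012_s1 t 76 59 2 = true :=
  ⟨(b (a (b (a (c (b (a (l 16734064) (l 16732872)) (a (l 16732304) (l 16730784))) (b (l 16730912) (b (l 16729648) (l 16728616)))) (b (a (c (l 16736744) (l 16728904)) (c (l 16729936) (l 16732576))) (c (l 16728288) (l 16731112)))) (c (a (l 16738352) (l 16724512)) (a (c (l 16730144) (l 16731808)) (b (l 16728784) (l 16726440))))) (c (b (a (c (l 16725552) (l 16726808)) (c (l 16722160) (l 16723416))) (a (l 16721128) (l 16717728))) (b (b (a (l 16735296) (l 16726672)) (a (l 16727744) (l 16724376))) (a (l 16734744) (l 16720888))))) (c (b (a (a (l 16722744) (l 16719392)) (a (l 16716016) (l 16712608))) (a (l 16715816) (l 16719560))) (a (a (b (l 16736680) (l 16721280)) (b (l 16722872) (l 16718000))) (b (a (l 16719528) (l 16716168)) (l 16723504))))), by decide +kernel⟩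

def k55_A00pm_012_s1 : ∃ t, chk3 f_A00pm_012_s1 t 76 59 3 = true :=
  ⟨(b (a (a (c (b (b (l 16734024) (c (l 16731504) (l 16733256))) (b (l 16735616) (l 16733472))) (b (b (a (l 16732168) (b (l 16731576) (l 16730856))) (a (b (l 16731024) (l 16730544)) (b (l 16730400) (l 16730080)))) (b (a (l 16730080) (l 16729656)) (l 16729296)))) (b (b (c (a (l 16731976) (l 16735640)) (a (b (l 16730696) (l 16730264)) (l 16729992))) (c (l 16734392) (l 16729600))) (c (c (l 16719792) (l 16732208)) (b (l 16729008) (l 16723168))))) (a (c (b (c (l 16726008) (l 16732960)) (c (l 16726936) (l 16718408))) (b (b (l 16729368) (l 16728760)) (l 16726824))) (b (c (c (l 16727888) (l 16724376)) (l 16727184)) (c (b (l 16725624) (l 16723520)) (l 16728800))))) (c (c (a (b (b (l 16718136) (l 16726368)) (l 16712432)) (b (a (l 16722544) (l 16719240)) (l 16716400))) (a (b (l 16729648) (l 16714808)) (b (a (l 16724744) (l 16721472)) (l 16708376)))) (a (b (c (l 16731936) (a (l 16732296) (l 16731344))) (c (l 16727832) (l 16725272))) (b (c (l 16725472)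 (l 16727984)) (c (l 16711000) (l 16724280)))))), by decide +kernel⟩

def k56_A00pm_012_s1 : ∃ t, chk3 f_A00pm_012_s1 t 154 58 1 = true :=
  ⟨(b (c (b (c (a (b (l 16736768) (l 16735184)) (l 16733680)) (a (l 16732152) (l 16734968))) (a (a (c (l 16733408) (l 16735088)) (b (l 16728544) (c (a (l 16731776) (l 16731192)) (l 16733168)))) (a (b (l 16732608) (c (b (l 16725464) (a (l 16730128) (l 16729352))) (b (l 16732304) (l 16731392)))) (b (c (a (l 16731032) (l 16725168)) (l 16732152)) (b (c (l 16726648) (l 16730824)) (a (l 16729296) (l 16728440))))))) (c (a (b (l 16739080) (b (l 16726616) (l 16730560))) (b (l 16726032) (b (l 16729288) (a (l 16728520) (l 16726936))))) (a (b (l 16729944) (l 16732376)) (b (l 16738320) (b (l 16731328) (l 16729920)))))) (b (a (c (c (b (a (b (l 16731472) (a (l 16730960) (l 16730256))) (b (a (l 16730552) (l 16729816)) (l 16729032))) (c (a (l 16728440) (l 16726744)) (l 16733760))) (b (a (b (l 16733304) (l 16732496)) (b (l 16731952) (l 16730912))) (c (l 16729536) (l 16730648)))) (b (c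 (a (l 16729848) (l 16728328)) (a (l 16730744) (l 16730168))) (c (a (l 16728088) (l 16721152)) (l 16729656)))) (c (c (c (c (l 16730480) (l 16725656)) (l 16731560)) (c (l 16732528) (l 16733576))) (c (a (a (l 16726112) (l 16725264)) (l 16723984)) (c (l 16732024) (l 16733432))))) (c (c (a (c (l 16729072) (l 16730144)) (c (l 16720416) (l 16721488))) (a (b (l 16733072) (l 16725568)) (c (l 16722664) (l 16723952)))) (c (a (b (a (l 16720832) (l 16729624)) (l 16723208)) (b (l 16721840) (l 16725072))) (a (c (l 16731808) (l 16732904)) (l 16729296)))))), by decide +kernel⟩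

def k57_A00pm_012_s1 : ∃ t, chk3 f_A00pm_012_s1 t 155 58 1 = true :=
  ⟨(b (c (b (a (b (l 16732688) (a (c (l 16731168) (l 16732416)) (c (b (l 16730400) (l 16729456)) (l 16731080)))) (c (a (b (b (l 16730872) (l 16724792)) (a (l 16728832) (l 16728064))) (b (c (l 16723944) (l 16729504)) (l 16727032))) (a (b (l 16731408) (l 16724320)) (b (l 16724824) (l 16727968))))) (a (c (a (b (b (l 16724640) (l 16728800)) (l 16726984)) (c (l 16726168) (l 16726840))) (a (b (b (l 16731232) (l 16730240)) (l 16728576)) (l 16733216))) (c (a (a (l 16725216) (c (l 16724104) (l 16724744))) (c (l 16723112) (l 16723680))) (a (c (l 16725872) (l 16726680)) (l 16724648))))) (c (a (b (b (l 16734576) (a (l 16733912) (l 16722024))) (a (b (l 16727128) (l 16730488)) (l 16724504))) (b (a (b (l 16732584) (l 16720432)) (c (l 16724504) (l 16719824))) (c (l 16721424) (l 16722312)))) (a (b (l 16730296) (a (l 16728232) (l 16731824))) (a (b (b (l 16733968) (l 16732520)) (l 16730072)) (b (l 16725992) (l 16728000)))))) (a (c (c (b (c (l 16727280)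 (l 16722904)) (c (l 16716984) (l 16718056))) (b (c (l 16723864) (l 16724912)) (l 16725120))) (c (b (a (l 16717032) (l 16725816)) (b (l 16723688) (l 16721696))) (b (l 16729336) (l 16725960)))) (c (b (a (c (c (l 16719496) (l 16720352)) (l 16721816)) (c (l 16723728) (l 16720200))) (a (c (c (l 16714432) (l 16715504)) (l 16717320)) (c (l 16713536) (l 16715712)))) (b (a (c (l 16713608) (l 16726760)) (b (l 16713864) (l 16712048))) (c (b (l 16709736) (l 16718240)) (c (l 16711080) (l 16712776))))))), by decide +kernel⟩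

def k58_A00pm_012_s1 : ∃ t, chk3 f_A00pm_012_s1 t 77 59 1 = true :=
  ⟨(c (a (c (b (b (a (c (l 16718752) (l 16720016)) (l 16726424)) (a (l 16714312) (l 16710872))) (b (l 16717936) (l 16702216))) (b (b (a (l 16727376) (l 16718736)) (a (l 16717504) (l 16714104))) (b (l 16721584) (l 16706304)))) (a (b (b (c (l 16712496) (l 16715320)) (c (l 16707416) (l 16710696))) (c (l 16710136) (b (l 16706000) (l 16701216)))) (b (b (a (c (l 16709936) (l 16712768)) (c (l 16708520) (l 16711168))) (c (a (l 16704840) (l 16703432)) (a (l 16708152) (l 16706552)))) (b (a (l 16701480) (l 16710472)) (a (l 16717424) (l 16694968)))))) (a (b (a (b (c (b (l 16715928) (l 16724360)) (l 16729128)) (c (b (l 16722288) (l 16720200)) (l 16725552))) (b (c (b (l 16723048) (l 16721008)) (l 16725832)) (c (l 16717912) (l 16722304)))) (c (b (a (l 16717024) (l 16713728)) (c (l 16709824) (l 16712392))) (c (b (l 16708520) (l 16704648)) (b (l 16721624) (l 16718056))))) (c (b (b (a (l 16723912) (c (l 16714368) (l 16716128))) (a (l 16714584) (a (l 16712064)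 (l 16710272)))) (b (a (l 16710416) (l 16707032)) (a (l 16706168) (l 16702800)))) (b (b (a (l 16722544) (b (l 16709384) (l 16707688))) (a (l 16719064) (b (l 16705968) (l 16704232)))) (a (b (l 16705024) (l 16701376)) (c (b (l 16710752) (l 16706984)) (b (l 16702960) (l 16710008)))))))), by decide +kernel⟩

def k59_A00pm_012_s1 : ∃ t, chk3 f_A00pm_012_s1 t 156 58 1 = true :=
  ⟨(b (c (a (b (c (c (l 16726080) (l 16726288)) (c (l 16726528) (l 16726808))) (c (c (l 16721128) (l 16721536)) (c (l 16722000) (l 16722520)))) (c (c (b (l 16720784) (l 16718464)) (b (l 16723408) (l 16718664))) (b (b (l 16719296) (l 16717096)) (c (l 16718904) (l 16719184))))) (c (a (b (c (l 16727120) (l 16727472)) (c (l 16723096) (l 16723728))) (b (a (l 16724496) (l 16722632)) (c (l 16719512) (l 16719872)))) (a (b (b (l 16718400) (l 16716760)) (b (l 16715120) (l 16713480))) (b (a (l 16724832) (l 16722688)) (c (l 16720280) (l 16720736)))))) (c (b (a (c (c (l 16716136) (l 16716752)) (c (l 16717440) (l 16718200))) (c (c (l 16713488) (l 16713888))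 (b (l 16710480) (l 16708256)))) (b (c (c (a (l 16712360) (l 16709712)) (l 16706464)) (a (l 16714456) (l 16706024))) (c (a (l 16710248) (l 16712752)) (c (l 16704904) (l 16705864))))) (b (c (a (c (l 16719048) (l 16719968)) (c (l 16715480) (l 16716136))) (a (b (l 16722320) (l 16720672)) (c (l 16716856) (l 16717632)))) (c (a (b (l 16716552) (l 16714568)) (c (l 16711408) (l 16712360))) (a (b (l 16719016) (l 16717352)) (c (l 16713392) (l 16714512))))))), by decide +kernel⟩

def k60_A00pm_012_s1 : ∃ t, chk3 f_A00pm_012_s1 t 157 58 1 = true :=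
  ⟨(b (b (c (c (a (a (l 16721304) (l 16719896)) (a (l 16718488) (l 16717072))) (a (c (l 16720304) (l 16720112)) (a (l 16717776) (l 16716144)))) (c (a (c (l 16719920) (l 16719736)) (c (l 16716320) (l 16715872))) (a (l 16719472) (c (l 16715424) (l 16714960))))) (c (a (c (c (l 16715776) (l 16715776)) (c (l 16715792) (l 16715848))) (c (c (l 16713064) (l 16712864)) (c (l 16712672) (l 16712496)))) (a (c (c (l 16715920) (l 16716024)) (c (l 16716152) (l 16716312))) (c (c (l 16712328) (l 16712168)) (c (l 16712024) (l 16711888)))))) (c (b (a (c (c (l 16710808) (l 16711008)) (b (l 16707264) (l 16705048))) (c (c (l 16708104) (l 16708104)) (c (l 16708144) (l 16708216)))) (a (c (c (l 16705784) (l 16706200)) (b (l 16702824) (l 16705824))) (c (c (l 16703096) (l 16703312)) (c (l 16703576) (l 16703904))))) (c (b (a (c (l 16711904) (l 16712296)) (c (l 16708320) (l 16708464))) (a (c (l 16707848) (l 16708544)) (c (l 16704288) (l 16704720)))) (b (a (c (l 16712744) (l 16713232)) (c (l 16708632) (l 16708840))) (a (c (l 16709304)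 (l 16710136)) (c (l 16705216) (l 16705760))))))), by decide +kernel⟩

def k61_A00pm_012_s1 : ∃ t, chk3 f_A00pm_012_s1 t 79 58 2 = true :=
  ⟨(b (a (b (a (c (a (l 16715640) (l 16714208)) (a (l 16714512) (l 16712872))) (c (l 16706792) (l 16705168))) (a (c (a (l 16710840) (l 16709416)) (c (l 16709536) (l 16709128))) (c (a (l 16707992) (l 16706552)) (a (l 16706880) (l 16705248))))) (a (c (b (l 16709112) (l 16699136)) (b (l 16707112) (l 16697544))) (c (b (l 16706152) (l 16701456)) (b (l 16703792) (l 16699480))))) (a (b (a (c (c (l 16705376) (l 16705184)) (c (l 16705016) (l 16704864))) (c (b (l 16703656) (l 16701224)) (c (l 16701872) (l 16701504)))) (a (c (c (l 16700376) (l 16700400)) (c (l 16700464) (l 16700568))) (c (c (l 16697640) (l 16697472)) (c (l 16697328) (l 16697216))))) (c (a (b (b (l 16700784) (l 16698360)) (c (l 16694872) (l 16694520))) (b (b (l 16697880) (l 16695472)) (c (l 16692088) (l 16691552)))) (a (b (c (l 16698712) (l 16698128)) (c (l 16694184) (l 16693864))) (b (c (l 16695528) (l 16694744))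 (c (l 16691016) (l 16690488))))))), by decide +kernel⟩

def k62_A00pm_012_s1 : ∃ t, chk3 f_A00pm_012_s1 t 79 58 3 = true :=
  ⟨(b (a (a (c (b (l 16707120) (c (l 16708720) (l 16708312))) (b (l 16705680) (c (l 16707904) (l 16707488)))) (c (b (l 16703384) (l 16699552)) (b (l 16701440) (l 16698208)))) (a (c (b (l 16704888) (l 16695824)) (b (l 16702464) (l 16693976))) (c (c (l 16694632) (l 16693384)) (c (l 16692072) (l 16690712))))) (a (a (b (c (c (l 16704736) (l 16704624)) (c (l 16704528) (l 16704456))) (c (c (l 16700712) (l 16700904)) (c (l 16701136) (l 16701400)))) (c (b (c (l 16701144) (l 16700784)) (c (l 16697136) (l 16697080))) (b (c (l 16700432) (l 16700080)) (c (l 16697056) (l 16697056))))) (c (a (b (c (l 16697544) (l 16696944)) (c (l 16693552) (l 16693256))) (b (l 16698768) (c (l 16689960) (l 16689432)))) (a (c (b (l 16696336) (l 16692984)) (b (l 16695728) (l 16692720))) (b (a (l 16692872) (l 16690768)) (c (l 16688912) (l 16688384))))))), by decide +kernel⟩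

def k63_A00pm_012_s1 : ∃ t, chk3 f_A00pm_012_s1 t 78 59 1 = true :=
  ⟨(a (b (a (b (c (c (c (l 16705984) (l 16707016)) (c (l 16708176) (l 16709448))) (c (c (l 16710840) (l 16712344)) (l 16704344))) (c (c (l 16701416) (l 16714688)) (c (l 16707536) (l 16700936)))) (b (c (c (c (l 16703352) (l 16704184)) (c (l 16705120) (l 16706160))) (c (c (l 16707296) (l 16708544)) (c (l 16709896) (l 16711352)))) (c (c (c (l 16698192) (l 16699240)) (c (l 16700416) (l 16701704))) (c (c (l 16703128) (l 16704664)) (c (l 16706336) (l 16708120)))))) (c (b (a (c (l 16696264) (l 16699528)) (c (l 16693568) (l 16696392))) (a (c (l 16691032) (l 16694768)) (c (l 16688360) (l 16691656)))) (c (b (c (l 16690144) (l 16702600)) (c (l 16696288) (l 16698552))) (b (c (l 16694232) (l 16696504)) (c (l 16700976) (l 16693088)))))) (b (b (c (c (a (c (l 16700704) (l 16701328)) (c (l 16698024) (l 16698456))) (a (c (l 16702048) (l 16702856)) (c (l 16698960) (l 16699544)))) (a (c (c (l 16703752) (l 16704744)) (c (l 16705824) (l 16706992))) (c (c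 (l 16700208) (l 16700944)) (c (l 16701752) (l 16702640))))) (c (c (a (c (l 16695560) (l 16696400)) (c (l 16692896) (l 16693544))) (a (c (l 16697360) (l 16698424)) (c (l 16694288) (l 16695128)))) (c (a (c (l 16699600) (l 16700880)) (c (l 16696064) (l 16697096))) (a (c (l 16702280) (l 16703784)) (c (l 16698232) (l 16699456)))))) (a (c (c (b (l 16690856) (l 16685664)) (b (l 16693240) (l 16688520))) (b (c (l 16701384) (c (l 16698656) (l 16700496))) (c (l 16702456) (c (l 16694944) (l 16697120))))) (c (c (b (l 16698600) (l 16682944)) (b (l 16695320) (l 16685376))) (b (c (c (l 16691856) (l 16693184)) (c (l 16694632) (l 16696192))) (c (c (l 16687560) (l 16689176)) (c (l 16690936) (l 16692832)))))))), by decide +kernel⟩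

def k64_A00pm_012_s1 : ∃ t, chk3 f_A00pm_012_s1 t 79 118 1 = true :=
  ⟨(c (a (c (b (a (c (l 16695328) (l 16695560)) (c (l 16692600) (l 16692648))) (a (c (l 16690208) (l 16690664)) (c (l 16687496) (l 16687760)))) (b (a (c (l 16695864) (l 16696224)) (c (l 16692744) (l 16692888))) (a (c (l 16691200) (l 16691824)) (c (l 16688096) (l 16688504))))) (b (a (c (c (l 16689848) (l 16689712)) (c (l 16689608) (l 16689544))) (c (c (l 16687064) (l 16686752)) (c (l 16686456) (l 16686192)))) (a (c (c (l 16684760) (l 16684840)) (c (l 16684984) (l 16685176))) (c (c (l 16681992) (l 16681896)) (c (l 16681840) (l 16681840)))))) (a (b (a (c (c (l 16696648) (l 16697136)) (c (l 16697688) (l 16698304))) (c (c (l 16693088) (l 16693336)) (c (l 16693632) (l 16693984)))) (c (a (c (l 16692528) (l 16693320)) (c (l 16688984) (l 16689536))) (a (c (l 16694192) (l 16695144)) (c (l 16690152) (l 16690840))))) (a (b (c (c (l 16689520) (l 16689536)) (c (l 16689584) (l 16689664))) (c (c (l 16685432) (l 16685752)) (c (l 16686120) (l 16686552))))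 (c (b (c (l 16685944) (l 16685728)) (c (l 16681880) (l 16681960))) (b (c (l 16685536) (l 16685368)) (c (l 16682096) (l 16682272))))))), by decide +kernel⟩

def k65_A00pm_012_s1 : ∃ t, chk3 f_A00pm_012_s1 t 79 119 1 = true :=
  ⟨(c (a (a (b (c (c (l 16685024) (l 16685696)) (c (l 16686472) (l 16687352))) (c (l 16680200) (l 16692704))) (c (b (c (l 16682328) (l 16682816)) (l 16687912)) (b (c (l 16683384) (l 16684056)) (c (l 16678600) (l 16679520))))) (b (a (c (c (l 16679608) (l 16679904)) (c (l 16680288) (l 16680744))) (c (c (l 16676856) (l 16676976)) (c (l 16677168) (l 16677416)))) (c (a (c (l 16674384) (l 16674904)) (c (l 16671656) (l 16671992))) (a (c (l 16675512) (l 16676224)) (c (l 16672416) (l 16672920)))))) (c (a (b (c (a (l 16688336) (l 16684808)) (a (l 16689416) (l 16685656))) (c (a (l 16684056) (l 16680552)) (a (l 16685432) (l 16681688)))) (b (a (c (l 16681280) (l 16681888)) (c (l 16677736) (l 16678128))) (a (c (l 16677040) (l 16677944)) (c (l 16673520) (l 16674200))))) (a (b (a (c (l 16690608)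 (l 16691904)) (c (l 16686592) (l 16687624))) (c (a (l 16686936) (l 16682944)) (b (l 16682032) (l 16680336)))) (b (a (c (l 16682584) (l 16683352)) (c (l 16678576) (l 16679104))) (c (a (l 16678952) (l 16674968)) (a (l 16680056) (l 16675824))))))), by decide +kernel⟩

def k66_A00pm_012_s1 : ∃ t, chk3 f_A00pm_012_s1 t 38 30 2 = true :=
  ⟨(b (a (b (c (b (a (l 16710336) (l 16703648)) (a (l 16704568) (l 16697920))) (b (a (l 16725016) (l 16707984)) (a (l 16709112) (l 16702640)))) (c (a (l 16705856) (l 16709752)) (a (b (l 16703384) (l 16697368)) (b (l 16696984) (l 16691040))))) (b (a (b (a (l 16721648) (l 16718248)) (c (l 16691136) (l 16696064))) (b (a (l 16693840) (a (l 16712256) (l 16689800))) (a (l 16688400) (c (l 16682688) (l 16687776))))) (c (a (l 16703032) (a (l 16676928) (l 16673712))) (a (c (l 16686112) (l 16689104)) (a (l 16682664) (l 16700424)))))) (a (c (b (a (l 16703168) (l 16675688)) (b (l 16689488) (l 16682272))) (b (a (b (l 16691080) (l 16684536)) (l 16692088)) (a (l 16674264) (l 16689144)))) (c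 (b (a (l 16669048) (a (l 16663984) (l 16660824))) (a (l 16655120) (a (l 16650120) (l 16647032)))) (b (a (l 16675288) (a (l 16670496) (l 16667360))) (a (l 16661992) (a (l 16657312) (l 16654256))))))), by decide +kernel⟩

def k67_A00pm_012_s1 : ∃ t, chk3 f_A00pm_012_s1 t 38 30 3 = true :=
  ⟨(b (a (b (c (b (a (c (l 16718120) (l 16710232)) (c (l 16711704) (l 16714408))) (a (c (l 16712992) (l 16715816)) (c (l 16706688) (l 16709624)))) (a (b (c (l 16723488) (l 16726432)) (l 16715144)) (b (l 16713560) (a (l 16715896) (l 16702424))))) (c (b (a (c (l 16707560) (l 16710584)) (l 16702904)) (a (l 16703400) (l 16697368))) (c (a (b (l 16713808) (l 16708480)) (b (l 16707896) (l 16702696))) (a (b (l 16706744) (l 16691152)) (b (l 16690512) (l 16706536)))))) (a (b (c (b (c (l 16705216) (l 16708048)) (l 16701824)) (c (a (l 16699968) (l 16696880)) (b (l 16703808) (l 16689224)))) (c (b (l 16696712) (l 16691280)) (b (b (l 16694520) (l 16681656)) (c (l 16696912) (l 16700960))))) (b (c (a (b (l 16701752) (l 16697048)) (b (l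 16698424) (l 16693760))) (a (b (l 16697560) (l 16703920)) (b (b (l 16695176) (l 16682736)) (c (l 16698824) (l 16702480))))) (c (a (l 16710352) (b (l 16688792) (l 16683504))) (a (c (l 16695056) (l 16678184)) (b (c (l 16694280) (l 16698240)) (l 16681008))))))) (a (c (b (a (b (l 16697464) (l 16691248)) (b (l 16691536) (l 16685416))) (a (b (l 16684760) (l 16678024)) (b (l 16679032) (l 16672392)))) (b (c (b (a (l 16702840) (l 16697192)) (l 16699384)) (b (a (l 16706696) (l 16701264)) (a (l 16700960) (l 16695664)))) (a (b (l 16703240) (l 16686328)) (b (l 16687488) (l 16681192))))) (a (b (c (b (l 16685560) (l 16679544)) (b (c (l 16691536) (l 16695848)) (l 16698584))) (b (c (l 16673264) (l 16682240)) (a (l 16693576) (l 16690880)))) (c (b (a (l 16678104) (l 16685496)) (a (l 16665704) (l 16662712))) (b (a (b (l 16689504) (l 16684056)) (b (l 16665456) (l 16681048))) (b (a (l 16678312) (l 16675360)) (c (l 16668240) (l 16673480)))))))), by decide +kernel⟩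

def k68_A00pm_012_s1 : ∃ t, chk3 f_A00pm_012_s1 t 39 30 2 = true :=
  ⟨(b (a (c (b (b (a (l 16673848) (a (l 16680336) (l 16677632))) (a (l 16678744) (l 16683928))) (a (a (l 16671152) (l 16668592)) (a (l 16666000) (l 16684352)))) (b (b (a (a (l 16689864) (l 16686768)) (a (l 16683656) (l 16680528))) (a (l 16693664) (c (l 16676040) (l 16677992)))) (a (a (l 16697424) (l 16694408)) (c (l 16678240) (l 16664808))))) (b (a (a (c (b (l 16674912) (l 16669400)) (b (l 16677392) (l 16672320))) (c (b (l 16672160) (l 16666672)) (b (l 16674240) (l 16669192)))) (a (c (b (l 16669384) (l 16663920)) (b (l 16681560) (l 16666048))) (c (b (l 16666584) (l 16661144)) (b (l 16673128) (l 16662880))))) (b (a (c (l 16672800) (c (l 16664608) (l 16666352))) (c (a (l 16658240) (l 16655480)) (a (l 16660784) (l 16657640)))) (c (a (l 16656400) (l 16661472)) (a (c (l 16658984) (l 16660936)) (a (l 16655288) (l 16652176))))))) (c (a (b (a (l 16678144) (c (l 16651128) (l 16653368))) (a (l 16643544) (l 16659800))) (b (a (c (l 16646192) (l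 16648032)) (a (l 16643160) (l 16661456))) (a (c (l 16632928) (l 16635048)) (c (l 16628088) (l 16629824))))) (b (b (a (a (l 16666112) (l 16660200)) (a (l 16664656) (a (l 16649584) (l 16646496)))) (a (c (l 16655504) (l 16637568)) (a (l 16648160) (l 16652608)))) (b (a (a (l 16653408) (l 16647712)) (a (l 16641904) (l 16635984))) (a (a (l 16646704) (l 16641112)) (c (l 16631328) (l 16618040))))))), by decide +kernel⟩

def k69_A00pm_012_s1 : ∃ t, chk3 f_A00pm_012_s1 t 39 60 3 = true :=
  ⟨(a (b (b (c (a (a (l 16694832) (l 16691240)) (c (l 16684840) (l 16676392))) (a (c (l 16697064) (l 16689504)) (a (l 16692288) (l 16688168)))) (c (c (a (l 16687032) (l 16680120)) (a (l 16689856) (l 16682432))) (a (c (l 16692888) (l 16685632)) (c (l 16684920) (l 16687584))))) (a (c (b (c (l 16681984) (l 16685080)) (l 16678304)) (b (c (l 16688392) (l 16691920)) (c (l 16683584) (l 16687408)))) (c (b (c (l 16675144) (l 16677720)) (a (l 16673048) (l 16669520))) (b (c (l 16680488) (l 16683456)) (c (l 16675752) (l 16679000)))))) (b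 (c (b (a (c (b (l 16679008) (l 16676736)) (l 16674184)) (c (a (l 16672640) (l 16669144)) (a (l 16673840) (l 16670112)))) (a (c (l 16673200) (l 16669776)) (a (l 16679200) (l 16670368)))) (b (a (c (a (l 16683096) (l 16679120)) (a (l 16685040) (l 16680800))) (c (a (l 16675152) (l 16671192)) (a (l 16676584) (l 16672368)))) (a (c (l 16671752) (a (l 16681232) (l 16677008))) (c (a (l 16671064) (l 16667128)) (a (l 16672808) (l 16668624)))))) (c (b (a (c (l 16668264) (l 16670344)) (c (l 16661360) (l 16662976))) (a (c (l 16663080) (l 16665408)) (c (l 16656216) (l 16658080)))) (b (a (c (l 16672600) (l 16669776)) (c (a (l 16666704) (l 16662784)) (a (l 16668736) (l 16664568)))) (c (a (l 16667928) (l 16660112)) (a (l 16665392) (l 16657056))))))), by decide +kernel⟩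

def k70_A00pm_012_s1 : ∃ t, chk3 f_A00pm_012_s1 t 39 61 3 = true :=
  ⟨(b (a (a (c (c (l 16668088) (l 16671792)) (b (c (l 16678448) (l 16682544)) (c (l 16673000) (l 16677352)))) (c (c (l 16656240) (b (l 16667432) (l 16661832))) (c (b (l 16670712) (l 16665352)) (b (l 16674232) (l 16669120))))) (c (c (b (a (l 16657632) (l 16650840)) (a (l 16651920) (l 16645216))) (a (b (l 16660192) (l 16654704)) (b (l 16652936) (l 16647520)))) (b (c (a (l 16662960) (l 16655208)) (a (l 16660688) (l 16652416))) (a (c (l 16657696) (l 16660912)) (c (l 16650024) (l 16647472)))))) (c (a (c (a (l 16655720) (l 16649312)) (a (l 16659848) (l 16647648))) (a (c (l 16632352) (l 16640664)) (b (c (l 16639344) (l 16641840)) (c (l 16633200) (l 16635864))))) (a (a (c (l 16664264) (b (l 16671848) (l 16666024))) (c (b (l 16659688) (l 16653728)) (b (l 16663688) (l 16657936)))) (c (a (b (l 16652120) (l 16646240)) (b (l 16644544) (l 16638752))) (a (b (l 16655560) (l 16649888)) (b (l 16647456) (l 16641864))))))), by decide +kernel⟩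

def k71_A00pm_012_s1 : ∃ t, chk3 f_A00pm_012_s1 t 38 31 2 = true :=
  ⟨(b (a (b (a (b (l 16681176) (l 16673736)) (b (l 16674968) (l 16667576))) (a (c (l 16638168) (a (l 16646296) (l 16643352))) (c (l 16631816) (l 16659912)))) (c (b (a (l 16640512) (a (l 16635576) (l 16632544))) (a (l 16625416) (a (l 16620528) (l 16617560)))) (b (a (l 16647856) (a (l 16643280) (l 16640304))) (a (l 16633040) (a (l 16628560) (l 16625664)))))) (c (a (b (b (l 16644424) (l 16636632)) (b (l 16628872) (a (l 16603376) (l 16596864)))) (b (a (l 16609904) (a (l 16605048) (l 16602128))) (a (l 16594232) (a (l 16589336) (l 16586456))))) (a (b (b (a (l 16633312) (l 16627440)) (a (l 16625600) (l 16619680))) (b (a (l 16617856) (l 16611920)) (a (l 16610096) (l 16604152)))) (b (a (l 16638656) (b (l 16615744) (l 16608000))) (a (b (l 16606016) (l 16598232)) (b (l 16600216) (l 16592400))))))), by decide +kernel⟩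

def k72_A00pm_012_s1 : ∃ t, chk3 f_A00pm_012_s1 t 38 31 3 = true :=
  ⟨(b (a (b (c (a (c (l 16665456) (l 16669512)) (l 16664576)) (c (b (l 16674784) (l 16667776)) (b (l 16679472) (l 16672576)))) (c (a (b (l 16656400) (l 16648856)) (b (l 16651048) (l 16643528))) (c (a (l 16659232) (l 16654336)) (b (l 16665376) (l 16658000))))) (c (b (a (l 16656440) (a (l 16652280) (l 16649392))) (a (b (l 16645672) (l 16638248)) (c (l 16634080) (l 16639152)))) (b (a (b (l 16669616) (l 16662856)) (a (l 16667840) (b (l 16663080) (l 16656480)))) (a (b (l 16655824) (l 16648560)) (a (l 16648744) (b (l 16649608) (l 16642496))))))) (a (c (b (a (b (l 16641192) (l 16633504)) (b (l 16635904) (l 16628192))) (b (a (l 16625776) (l 16620472)) (a (l 16618032) (l 16612744)))) (b (b (a (l 16650248) (l 16645616)) (c (l 16637800) (l 16642832))) (c (b (l 16630112) (l 16622408)) (a (l 16628264) (l 16623896))))) (c (b (a (b (l 16630656) (l 16622984)) (b (l 16625400) (l 16617760))) (a (b (l 16615248) (l 16607528)) (b (l 16610056) (l 16602328))))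 (c (b (a (l 16634560) (a (l 16631096) (l 16628480))) (a (l 16619240) (a (l 16615840) (l 16613304)))) (b (a (l 16640144) (a (l 16637000) (l 16623968))) (a (l 16624920) (b (l 16613952) (l 16606344)))))))), by decide +kernel⟩

def k73_A00pm_012_s1 : ∃ t, chk3 f_A00pm_012_s1 t 39 62 1 = true :=
  ⟨(b (c (a (a (c (l 16629232) (b (l 16639800) (l 16632720))) (c (l 16624760) (c (l 16629208) (l 16632536)))) (c (a (l 16630624) (c (l 16614432) (l 16616352))) (c (a (l 16623912) (l 16618504)) (b (l 16606232) (l 16620432))))) (a (a (c (c (l 16642368) (l 16646824)) (c (l 16651584) (b (l 16659872) (l 16653392)))) (c (a (l 16650160) (l 16646904)) (c (b (l 16647464) (l 16640904)) (b (l 16651848) (l 16645432))))) (c (a (b (l 16624336) (l 16628160)) (c (l 16623520) (b (l 16629616) (l 16623104)))) (c (a (b (l 16640056) (l 16633576)) (b (l 16632656) (l 16626256))) (a (a (l 16637464) (l 16633496)) (b (l 16635928) (l 16629648))))))) (c (c (a (a (l 16614424) (l 16610200)) (a (l 16605832) (c (l 16600344) (l 16602344)))) (a (c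 (a (l 16619816) (l 16614848)) (a (l 16623824) (l 16618328))) (c (a (l 16609776) (l 16604600)) (a (l 16612760) (l 16607112))))) (c (c (a (a (l 16628160) (l 16622104)) (a (l 16616008) (l 16609864))) (a (b (l 16612112) (l 16604936)) (a (l 16609056) (b (l 16616352) (l 16609384))))) (a (a (b (l 16643952) (l 16636880)) (c (l 16625328) (a (l 16637216) (l 16633296)))) (a (c (b (l 16626824) (l 16619840)) (b (l 16630872) (l 16623952))) (c (b (l 16619584) (l 16612672)) (b (l 16623064) (l 16616216)))))))), by decide +kernel⟩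

def k74_A00pm_012_s1 : ∃ t, chk3 f_A00pm_012_s1 t 39 63 1 = true :=
  ⟨(c (c (b (a (a (l 16599192) (l 16595216)) (a (l 16596352) (b (l 16590520) (l 16583200)))) (a (a (b (l 16587544) (l 16579728)) (b (l 16583760) (l 16576024))) (a (b (l 16579848) (l 16572248)) (b (l 16575808) (l 16568344))))) (b (a (c (a (l 16604712) (l 16599960)) (a (l 16608816) (l 16603512))) (c (a (l 16595112) (l 16590168)) (a (l 16598144) (l 16592704)))) (a (c (a (l 16589208) (l 16584640)) (a (l 16593376) (l 16588224))) (a (b (l 16585328) (l 16577712)) (b (l 16580312) (l 16572800)))))) (c (a (b (c (a (l 16613264) (l 16607384)) (b (l 16597584) (l 16595328))) (c (a (l 16597888) (l 16592128)) (b (l 16587680) (a (l 16598920) (l 16592528))))) (a (b (b (l 16606928) (l 16599520)) (b (c (l 16590216) (l 16593840)) (c (l 16582592) (l 16586216)))) (c (b (l 16595504) (b (l 16584392) (l 16576856))) (b (b (l 16602224) (l 16594904)) (b (l 16587456) (l 16579904)))))) (a (c (b (a (l 16612704) (b (l 16619768) (l 16612336))) (a (b (l 16611824) (l 16604160))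 (b (l 16604768) (l 16597096)))) (b (a (b (l 16632368) (l 16624944)) (b (l 16624552) (l 16617168))) (a (b (l 16617376) (l 16609760)) (b (l 16609632) (l 16601984))))) (b (a (c (b (l 16612640) (l 16605272)) (b (l 16616808) (l 16609472))) (b (c (l 16605544) (l 16609128)) (c (l 16598240) (l 16601840)))) (a (c (b (l 16597760) (l 16590136)) (b (l 16601976) (l 16594360))) (c (b (l 16590784) (l 16583224)) (b (l 16594384) (a (l 16588688) (l 16584936))))))))), by decide +kernel⟩

def k75_A00pm_012_s1 : ∃ t, chk3 f_A00pm_012_s1 t 10 4 1 = true :=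
  ⟨(a (a (l 3) (l 2)) (l 2)), by decide +kernel⟩

def k76_A00pm_012_s1 : ∃ t, chk3 f_A00pm_012_s1 t 40 5 2 = true :=
  ⟨(b (l 3) (a (l 3) (b (l 3) (a (a (l 3) (b (l 3) (b (l 3) (c (c (a (b (l 3) (c (b (l 3) (l 529842815)) (l 530190463))) (b (a (l 3) (c (l 529745535) (l 530126975))) (a (c (l 529679999) (l 530183295)) (l 529991695)))) (a (b (l 3) (l 530748031)) (l 529926159))) (a (l 530600719) (l 530601343)))))) (b (c (c (a (l 3) (c (b (b (l 3) (a (l 3) (a (l 3) (l 529536127)))) (a (b (l 3) (l 529510671)) (b (a (c (b (l 529359375) (a (l 529346575) (l 529375103))) (a (l 529565711) (l 529594495))) (l 529668479)) (a (a (l 529505919) (l 529502223)) (l 529548047))))) (b (a (l 3) (a (l 3) (l 529985039))) (b (a (l 3) (a (l 529109263) (l 529977727))) (a (l 529943423) (a (l 530197007) (l 529718911))))))) (a (l 3) (a (b (l 3) (b (l 3) (l 530606719))) (b (b (l 3) (l 529562895)) (c (b (l 530398479) (l 530406271)) (b (l 530858111) (l 530862207))))))) (a (l 3) (b (a (l 3) (a (l 3) (l 530187647))) (a (b (l 3) (l 531093119))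 (b (a (l 530824975) (l 530829183)) (l 530827535)))))) (c (a (c (c (b (a (b (l 3) (l 529670671)) (b (l 529591311) (l 529658495))) (b (l 529727247) (l 529789455))) (b (a (l 530038911) (l 530034047)) (l 530146063))) (b (a (l 530385791) (l 530663295)) (l 529941119))) (b (a (c (c (l 529614719) (l 530032767)) (l 530675327)) (c (a (l 529285247) (b (l 529273471) (l 529868159))) (a (l 530687359) (l 530708351)))) (c (a (l 529946239) (l 529145727)) (l 529704463)))) (a (b (l 530573839) (l 531139087)) (a (l 531126655) (b (a (l 531114879) (l 530847103)) (l 531140735)))))))))), by decide +kernel⟩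

def k77_A00pm_012_s1 : ∃ t, chk3 f_A00pm_012_s1 t 41 20 2 = true :=
  ⟨(c (a (l 3) (b (l 2) (b (a (l 532917311) (l 2)) (a (a (l 3) (b (l 532899647) (a (a (l 3) (a (l 533951247) (l 532879487))) (a (l 533687935) (l 532886655))))) (b (a (l 532913983) (l 2)) (a (a (l 532892031) (l 532898879)) (b (l 16775368) (l 16775160)))))))) (a (l 3) (b (l 2) (a (a (l 3) (b (l 2) (b (l 532391999) (b (l 532380223) (a (a (l 3) (l 533711375)) (l 532375167)))))) (b (l 2) (b (a (l 532406335) (l 2)) (a (a (l 532386943) (l 532394303)) (b (l 16774800) (l 16774560))))))))), by decide +kernel⟩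

def k78_A00pm_012_s1 : ∃ t, chk3 f_A00pm_012_s1 t 82 21 4 = true :=
  ⟨(a (l 3) (a (l 3) (b (l 3) (a (a (l 3) (l 531567231)) (l 531397503))))), by decide +kernel⟩

def k79_A00pm_012_s1 : ∃ t, chk3 f_A00pm_012_s1 t 166 21 4 = true :=
  ⟨(a (a (b (a (l 3) (l 532412287)) (l 531250303)) (b (b (a (l 3) (l 532669055)) (a (l 532311935) (l 532360831))) (a (b (l 532011647) (l 531730815)) (b (l 532061823) (l 531778943))))) (a (b (a (b (l 532698495) (l 532401023)) (b (b (a (a (l 532779135) (l 532778879)) (l 533051263)) (a (l 532640127) (l 532645759))) (a (l 532423807) (l 532434303)))) (a (b (l 532374143) (l 531822975)) (a (b (l 532133759) (l 531852415)) (b (l 532148607) (l 531869055))))) (b (b (a (b (b (l 532824191) (l 532755071)) (l 532652415)) (b (l 532799615) (l 532661631))) (a (a (l 532441727) (l 532447871)) (b (l 532524415) (l 532386943)))) (a (b (l 532164991) (l 531888767)) (b (b (l 532249215) (l 16775136)) (l 531908479)))))), by decide +kernel⟩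

def k80_A00pm_012_s1 : ∃ t, chk3 f_A00pm_012_s1 t 334 21 4 = true :=
  ⟨(a (b (b (b (a (l 532840319) (l 532846463)) (a (l 532671359) (l 532681599))) (a (b (l 532534143) (l 532397439)) (b (l 532543871) (l 16775392)))) (b (a (b (l 16775280) (l 16771896)) (b (l 16772048) (l 16771272))) (b (l 16773376) (l 16772480)))) (a (b (b (b (l 532851839) (l 532691839)) (b (l 16775472) (l 16772176))) (b (b (l 16771440) (l 16770648)) (b (l 16769800) (l 16768888)))) (a (a (b (b (l 533085823) (l 532491135)) (b (l 532220287) (l 531955327))) (a (b (b (l 532818559) (l 532492927)) (b (l 532222079) (l 531957375))) (a (b (b (l 532819071) (l 532493951)) (b (l 532223103) (l 531958399))) (b (b (l 532819583) (l 532494463)) (b (l 532223615) (l 531958911)))))) (b (b (b (l 16776000) (l 16772784)) (l 532497279)) (b (b (l 16770688) (l 16769880)) (b (l 16769008) (l 16768072))))))), by decide +kernel⟩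

def k81_A00pm_012_s1 : ∃ t, chk3 f_A00pm_012_s1 t 335 21 4 = true :=
  ⟨(a (a (b (b (b (l 16775592) (l 16774992)) (b (l 16771712) (l 16771000))) (b (b (l 16770240) (l 16769416)) (b (l 16768528) (l 16767592)))) (a (a (b (b (b (l 16772632) (l 16772024)) (b (l 16771360) (l 16770640))) (b (b (l 16769864) (l 16769032)) (b (l 16768136) (l 16767184)))) (a (b (b (b (l 16772536) (l 16771920)) (b (l 16771256) (l 16770528))) (b (b (l 16769752) (l 16768912)) (b (l 16768016) (l 16767064)))) (a (b (b (b (l 16772480) (l 16771872)) (b (l 16771200) (l 16770472))) (b (b (l 16769696) (l 16768856)) (b (l 16767960) (l 16767008)))) (b (b (b (l 16772448) (l 16771840)) (b (l 16771168) (l 16770440))) (b (b (l 16769656) (l 16768816)) (b (l 16767920) (l 16766968))))))) (b (b (b (l 16772296) (l 16771680)) (b (l 16771008) (l 16770272))) (b (b (l 16769488) (l 16768648)) (b (l 16767744) (l 16766784)))))) (b (b (b (l 16771624) (l 16771008)) (b (l 16770304) (l 16769552))) (b (b (l 16768744) (l 16767880)) (b (l 16766960) (l 16765984))))),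 by decide +kernel⟩

def k82_A00pm_012_s1 : ∃ t, chk3 f_A00pm_012_s1 t 41 21 5 = true :=
  ⟨(a (b (l 3) (a (l 3) (a (l 3) (a (b (l 3) (l 531672335)) (a (l 531773311) (l 531789695)))))) (a (a (a (b (a (l 3) (l 532157823)) (a (l 531805055) (l 531818879))) (b (a (l 532170367) (l 532448127)) (a (b (l 531913343) (l 531752063)) (b (l 531923839) (l 531762047))))) (a (a (b (b (l 532270975) (l 532099967)) (b (l 531931775) (l 531770239))) (b (b (b (a (l 533650815) (l 532312191)) (l 533839631)) (a (l 532102271) (l 532103039))) (b (l 533010703) (l 531776015)))) (b (b (a (b (a (l 532314751) (l 532318079)) (l 532230527)) (b (l 532323711) (l 532236159))) (a (a (l 532104319) (l 532105855)) (l 532377471))) (a (b (l 531940479) (l 531780223)) (b (l 532480895) (l 531784063)))))) (b (b (b (a (a (a (l 532350079) (l 532355199)) (a (l 532360319) (l 532364671))) (b (l 16774312) (l 16774024))) (a (a (a (l 532242815) (l 532249983)) (a (l 532257663) (l 16775096))) (a (l 16774176) (l 16770336)))) (b (a (a (b (l 16776184) (l 16773248))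 (a (l 16775088) (l 16774464))) (a (l 16773520) (l 16769656))) (a (a (a (l 16775704) (l 16775064)) (l 16774104)) (a (l 16770208) (l 16768944))))) (b (b (a (a (l 16774688) (l 16773384)) (a (l 16769472) (l 16768184))) (a (a (l 16773944) (l 16772624)) (a (l 16768688) (l 16767384)))) (b (a (a (l 16773152) (l 16769192)) (l 16772440)) (a (a (l 16769688) (l 16768336)) (l 16771552))))))), by decide +kernel⟩

def k83_A00pm_012_s1 : ∃ t, chk3 f_A00pm_012_s1 t 164 22 2 = true :=
  ⟨(b (l 3) (a (a (l 3) (b (l 3) (c (b (l 3) (c (a (b (l 3) (l 529180543)) (l 529258879)) (l 530872191))) (b (l 3) (l 530378623))))) (c (b (a (a (l 3) (a (l 3) (a (l 3) (a (l 529404543) (l 529414783))))) (a (b (l 3) (l 529446927)) (l 529509503))) (a (b (a (b (l 3) (c (l 529348223) (l 530906751))) (b (c (c (a (l 530001023) (l 530042239)) (l 530197631)) (l 530932607)) (c (c (l 530012543) (l 530186879)) (l 530922623)))) (c (c (a (l 529920127) (l 529998975)) (l 530402431)) (l 530901375))) (b (a (b (l 529427471) (b (l 529417999) (l 529412479)))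 (l 529211007)) (a (l 529396751) (l 529998463))))) (b (a (a (l 3) (a (l 3) (l 531280255))) (a (l 531286655) (l 531295359))) (a (b (a (l 531222543) (l 531229967)) (l 530693759)) (b (a (l 531237135) (l 531244415)) (a (l 531206527) (l 531212671)))))))), by decide +kernel⟩

def k84_A00pm_012_s1 : ∃ t, chk3 f_A00pm_012_s1 t 165 22 2 = true :=
  ⟨(a (a (c (b (b (l 3) (l 530402575)) (b (l 529811727) (b (l 530314255) (l 530830863)))) (b (b (l 3) (l 531385615)) (b (l 531308047) (b (l 531254799) (l 531221519))))) (a (b (b (l 3) (l 531236735)) (b (l 530895231) (l 530294031))) (b (b (a (b (l 3) (b (l 3) (l 531302015))) (b (l 3) (b (l 531073551) (l 531042431)))) (l 530985999)) (b (l 531178623) (l 530843263))))) (b (a (b (b (l 531178511) (c (c (l 530995215) (l 530994559)) (c (a (l 531430927) (l 531720831)) (a (l 531533439) (l 531541631))))) (c (c (a (l 530880895) (l 530939519)) (l 530914431)) (c (a (l 531357455) (l 531375231)) (a (l 531463039) (l 531469439))))) (b (b (l 530975103) (a (l 531138431) (l 530898559))) (a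 (b (l 530809471) (l 530759807)) (l 530806799)))) (b (a (a (l 530925695) (l 530943103)) (a (a (l 530956415) (l 530965631)) (l 530979087))) (a (c (l 530920831) (l 531262223)) (a (l 531151231) (l 530896399)))))), by decide +kernel⟩

def k85_A00pm_012_s1 : ∃ t, chk3 f_A00pm_012_s1 t 83 22 4 = true :=
  ⟨(a (a (b (b (a (l 531134079) (b (l 531557903) (l 530631295))) (a (l 530959231) (b (l 530537855) (l 16769928)))) (a (a (l 531050111) (l 530811775)) (a (l 530841471) (l 530601855)))) (b (a (b (a (c (l 531522431) (l 531586943)) (b (l 531660303) (l 531532815))) (a (a (l 531351167) (l 531368319)) (b (l 531429647) (l 531355663)))) (b (a (b (l 16770560) (l 16769576)) (b (l 16769896) (l 16768904))) (b (c (l 16768160) (l 16768256)) (l 16767176)))) (b (a (b (l 16767480) (l 16766368)) (b (l 16766088) (l 16764960))) (a (b (l 16765200) (l 16764000)) (b (l 16763792) (l 16762568)))))) (b (b (b (a (a (l 16771528) (l 16770200)) (a (l 16766256) (l 16764944))) (a (a (l 16770512) (a (l 16766872) (l 16766200))) (a (l 16765192)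 (l 16763848)))) (b (a (a (l 16764224) (l 16762840)) (l 16768648)) (a (a (l 16765784) (l 16764384)) (l 16767536)))) (b (b (a (a (l 16764688) (l 16763280)) (l 16761168)) (a (a (l 16763544) (l 16762128)) (l 16759992))) (b (a (a (l 16762360) (l 16760928)) (l 16758776)) (a (l 16755160) (l 16757512)))))), by decide +kernel⟩

def k86_A00pm_012_s1 : ∃ t, chk3 f_A00pm_012_s1 t 83 22 5 = true :=
  ⟨(a (a (b (a (b (a (l 531579263) (l 531590783)) (a (l 531462015) (l 531470463))) (b (b (l 531642127) (l 531569423)) (a (l 531478143) (l 531484799)))) (a (c (a (l 531279743) (l 531289471)) (a (l 531348863) (l 531350911))) (b (b (l 531405583) (l 16765488)) (b (l 16761768) (l 16760624))))) (b (a (b (a (l 531617039) (a (l 531621759) (l 531624063))) (a (l 532832383) (b (l 531521039) (l 16768392)))) (b (a (l 531627135) (l 531630719)) (b (l 16768312) (l 16767320)))) (a (a (c (l 531314559) (l 531353471)) (b (l 531390735) (l 531296527))) (c (b (l 531380351) (l 16763456)) (b (l 16771008) (l 16763528)))))) (b (c (b (b (a (l 16770776)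 (l 16765440)) (a (l 16767192) (l 16764432))) (b (a (l 16766200) (l 16763392)) (a (l 16765176) (l 16762336)))) (b (b (a (l 16768072) (l 16765304)) (a (l 16767144) (l 16764344))) (a (b (l 16766176) (l 16765176)) (a (l 16768784) (l 16762120))))) (c (b (a (a (l 16769528) (l 16768088)) (l 16765928)) (a (a (l 16761992) (l 16760528)) (l 16758328))) (b (a (a (l 16764312) (l 16762856)) (l 16765928)) (a (a (l 16762048) (l 16760576)) (l 16758360)))))), by decide +kernel⟩

def k87_A00pm_012_s1 : ∃ t, chk3 f_A00pm_012_s1 t 82 23 2 = true :=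
  ⟨(a (b (c (a (a (c (c (b (b (a (l 3) (l 529682559)) (l 529641343)) (b (l 529636991) (b (l 529634943) (l 529637247)))) (b (b (l 529557887) (l 530085503)) (b (l 530078079) (l 529276687)))) (b (l 529833599) (b (l 530754943) (l 529679743)))) (c (b (b (b (l 529211151) (l 529205263)) (l 528930175)) (b (l 529189503) (c (l 529502079) (l 530204799)))) (b (l 530851967) (l 529762319)))) (a (c (c (b (l 529399567) (l 529110143)) (b (l 530375807) (l 530347135))) (b (l 530877055) (l 530855551))) (a (b (l 529364239) (l 529059711)) (b (l 529707135) (l 529936511))))) (a (b (a (b (l 530072847) (l 530587519)) (l 530340367)) (b (a (l 530835327) (l 530574719)) (a (l 530823439) (l 530828671)))) (b (a (l 530619151) (l 530628879)) (a (c (l 530776703) (l 531156607)) (l 530042751))))) (b (a (c (c (a (a (l 528799359) (l 529112703)) (l 529191439)) (a (l 530767999) (l 530868863))) (a (l 530848127) (l 530849151))) (c (a (c (l 530118271) (l 530907263)) (l 530404111)) (a (l 531117951) (l 531118207)))) (a (c (c (a (l 529189247) (l 529533567))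 (l 530870543)) (l 530871567)) (c (a (l 529777535) (l 530690431)) (l 530868239))))) (b (b (a (a (c (l 529462031) (l 531175183)) (c (l 530836351) (l 531183887))) (a (l 529994255) (l 530820111))) (a (a (b (l 529653775) (l 529641231)) (a (l 529389583) (l 529396863))) (a (c (l 530832767) (l 531132431)) (c (l 530862463) (l 531136271))))) (a (c (a (b (l 530809727) (l 530807423)) (b (l 530841983) (l 530915455))) (a (l 530856207) (l 530854271))) (a (b (l 530216207) (l 531060751)) (b (l 531027471) (l 531062287)))))), by decide +kernel⟩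

def k88_A00pm_012_s1 : ∃ t, chk3 f_A00pm_012_s1 t 83 23 2 = true :=
  ⟨(a (a (b (a (b (a (l 531104127) (l 530845567)) (l 531045135)) (b (b (l 16764504) (l 16763248)) (b (l 16761960) (l 16760640)))) (b (a (l 531032847) (c (l 16758280) (l 16758888))) (c (a (l 16757192) (l 16755680)) (l 16756984)))) (a (b (b (b (l 16763032) (l 16761768)) (c (l 16759440) (l 16754760))) (c (b (l 16756776) (l 16754168)) (b (l 16757352) (l 16744176)))) (b (b (b (l 16756320) (l 16755048)) (a (l 16758672) (l 16757912))) (b (l 16755624) (l 16752968))))) (b (b (c (b (a (l 16753880) (l 16756200)) (a (l 16752552) (l 16754848))) (b (a (l 16759472) (l 16756488)) (a (l 16758192) (l 16755192)))) (c (b (a (l 16751184) (l 16753448)) (a (l 16755032) (l 16752032))) (a (a (l 16756960) (l 16750192)) (l 16758400)))) (b (c (c (a (l 16747520) (l 16749744)) (a (l 16753176) (l 16750120))) (a (a (l 16754256) (l 16752712)) (l 16745152))) (c (a (l 16750352) (a (l 16748048) (l 16746504))) (a (l 16745520) (l 16747632)))))), by decide +kernel⟩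

def k89_A00pm_012_s1 : ∃ t, chk3 f_A00pm_012_s1 t 40 5 6 = true :=
  ⟨(b (l 3) (a (l 3) (b (l 3) (a (b (l 3) (a (l 3) (b (l 3) (a (l 531150095) (l 531144063))))) (a (b (l 3) (b (a (l 531172223) (l 531167359)) (l 531134991))) (b (b (a (l 3) (a (l 3) (l 531257103))) (b (a (l 3) (c (l 531212815) (l 531192591))) (a (l 531192447) (a (l 531189887) (l 531186815))))) (a (l 531143439) (b (a (l 531158911) (l 531155839)) (l 531118719))))))))), by decide +kernel⟩

def k90_A00pm_012_s1 : ∃ t, chk3 f_A00pm_012_s1 t 41 10 6 = true :=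
  ⟨(b (a (l 3) (b (l 2) (a (b (l 531869759) (b (l 531851327) (a (l 3) (b (l 531846207) (a (a (l 3) (l 531837967)) (l 531841919)))))) (a (a (l 531869055) (l 531873599)) (a (a (l 531877423) (a (a (l 531878959) (a (l 531879471) (b (l 2) (b (l 2) (l 16771816))))) (l 531880799))) (l 531883871)))))) (a (b (l 3) (a (l 3) (a (l 3) (a (c (l 531693183) (l 531566207)) (a (l 531639167) (l 531639423)))))) (a (a (a (b (a (l 3) (l 531768959)) (a (l 531639423) (l 531639167))) (b (a (l 531768703) (l 531767679)) (a (l 531638399) (b (l 531669887) (l 531605631))))) (a (a (b (l 532034687) (c (l 531698047) (l 531567743))) (b (b (b (l 532619023) (l 531781647)) (l 531731983)) (a (l 531634559) (l 531633791)))) (a (b (b (b (l 531817343) (l 531782015)) (l 531731839)) (b (l 531665791) (l 531601279))) (b (b (l 532070527) (l 531733119)) (b (l 531666303) (l 531601023)))))) (b (b (c (b (a (a (l 531964287) (l 16775656)) (l 16773680)) (a (a (l 16776400) (l 16775072)) (a (l 16771120) (l 16769800)))) (a (a (l 532760447) (a (l 531689855)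 (l 531691903))) (b (l 16773336) (l 16775368)))) (b (a (a (b (l 16773240) (l 16772920)) (a (l 16774672) (l 16771368))) (a (l 16772960) (l 16768968))) (a (a (a (l 16775392) (l 16772080)) (l 16773672)) (a (l 16769672) (l 16768296))))) (b (b (a (a (l 16774360) (l 16770352)) (l 16773520)) (a (a (l 16771016) (l 16769616)) (l 16772776))) (b (a (a (l 16770248) (l 16768848)) (l 16766752)) (a (a (l 16769448) (l 16768040)) (l 16765928)))))))), by decide +kernel⟩

def k91_A00pm_012_s1 : ∃ t, chk3 f_A00pm_012_s1 t 82 22 6 = true :=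
  ⟨(a (b (l 3) (a (a (l 3) (b (l 3) (b (l 3) (a (l 531302271) (l 531300735))))) (b (b (a (l 3) (l 531408655)) (a (a (l 3) (a (l 3) (l 531371135))) (a (l 531370111) (l 531368831)))) (a (a (c (l 531320703) (l 531293055)) (b (c (l 531338879) (l 531308415)) (l 531297407))) (b (a (a (l 531332735) (l 531331967)) (l 531330687)) (a (l 531295615) (l 531293567))))))) (a (b (b (a (l 3) (a (l 3) (b (l 3) (b (l 531807759) (l 532056447))))) (a (l 531468559) (l 531466255))) (a (b (l 531386383) (b (l 531327503) (l 531289871))) (b (l 531382543) (l 531303695)))) (a (b (b (b (l 531561599) (c (a (l 531551871) (l 531553151)) (l 532563983))) (c (a (l 531484031) (l 531485055)) (a (l 531423615) (l 531424895)))) (b (l 531378703) (l 531298319))) (b (b (b (l 531561599) (l 531530511)) (a (l 532000895) (l 531463807))) (b (a (l 531377023) (l 531375743)) (a (l 531295103) (l 531293311))))))), by decide +kernel⟩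

def k92_A00pm_012_s1 : ∃ t, chk3 f_A00pm_012_s1 t 83 22 6 = true :=
  ⟨(a (a (b (b (a (a (l 531545471) (l 531544703)) (a (l 531543679) (l 531542399))) (a (a (l 531463807) (l 531463551)) (a (l 531463039) (l 531462271)))) (a (b (a (l 531374975) (l 531373695)) (a (l 531291519) (l 531289471))) (b (l 531640591) (l 532360719)))) (a (a (b (b (l 531540607) (l 531461247)) (b (l 531369855) (l 16760072))) (b (b (l 531538703) (b (l 16769312) (l 16768344))) (b (l 531368319) (l 16759328)))) (b (b (b (l 16770032) (l 16769160)) (b (l 16768240) (l 16767256))) (c (b (l 16765736) (l 16763504)) (l 532369023))))) (b (b (b (a (a (l 16768608) (l 16767192)) (l 16765072)) (a (a (l 16767728) (l 16766304)) (l 16764176))) (b (a (a (l 16766800) (l 16765368)) (l 16763224)) (a (a (l 16765808) (l 16764368)) (l 16762216)))) (b (b (a (l 16764048) (l 16761144)) (a (l 16762952) (l 16760032))) (b (a (l 16761816) (l 16758872)) (a (l 16760640) (l 16757672)))))), by decide +kernel⟩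

def k93_A00pm_012_s1 : ∃ t, chk3 f_A00pm_012_s1 t 41 23 6 = true :=
  ⟨(a (a (b (b (c (a (a (l 531523455) (l 531254399)) (a (l 531252863) (l 531251071))) (a (a (b (l 531250815) (l 531217535)) (l 531227407)) (a (l 531220239) (l 531212159)))) (a (b (a (l 531207551) (l 531470719)) (a (a (l 531181439) (l 531178367)) (l 531173647))) (a (b (l 531196799) (l 531166847)) (b (l 531190399) (l 531159935))))) (a (b (a (l 531150863) (l 531679871)) (c (l 531142159) (l 531054607))) (a (b (l 531134847) (l 531093375)) (b (l 531126143) (l 531083903))))) (b (a (b (a (l 531235599) (l 531765887)) (a (l 531168015) (l 531160335))) (a (b (l 531222143) (l 531689087)) (b (l 531216511) (l 531413375)))) (a (a (b (l 531116927) (l 531073663)) (b (l 531106943) (l 531062911))) (a (b (l 531096959) (l 531052159)) (b (l 531087743) (l 16759040)))))) (a (a (b (a (b (b (l 16760928) (l 16764952)) (l 531137919)) (b (l 531743759) (a (l 16761880) (l 16761120)))) (a (b (l 531079039) (l 16757472)) (b (l 16758784) (l 16755912)))) (a (b (b (a (l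 16762928) (l 16762176)) (l 16749480)) (b (l 16757232) (l 16754336))) (b (b (l 16761040) (l 16758432)) (b (l 16755672) (l 16752760))))) (b (a (b (a (l 16759528) (l 16758024)) (l 16750896)) (b (l 16766264) (l 16753096))) (b (a (l 16742856) (l 16750256)) (a (l 16750408) (l 16747280)))))), by decide +kernel⟩

def k94_A00pm_012_s1 : ∃ t, chk3 f_A00pm_012_s1 t 40 5 7 = true :=
  ⟨(b (l 3) (a (l 3) (b (l 3) (a (b (l 3) (a (l 3) (b (l 3) (a (l 530932751) (l 530910847))))) (a (b (l 3) (b (a (l 530972287) (l 530951295)) (l 530878223))) (b (b (b (l 3) (a (l 3) (a (l 3) (l 531050623)))) (b (a (l 3) (c (a (l 531099263) (l 531093375)) (b (l 530934543) (l 530917647)))) (a (l 530997119) (c (l 531057535) (l 530879759))))) (a (b (l 530930303) (l 530845311)) (b (a (l 530914687) (l 530905103)) (l 530823551))))))))), by decide +kernel⟩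

def k95_A00pm_012_s1 : ∃ t, chk3 f_A00pm_012_s1 t 41 10 7 = true :=
  ⟨(b (a (l 3) (b (l 2) (a (b (l 531305535) (b (l 531291455) (a (l 3) (b (l 531284031) (a (a (l 3) (l 531278863)) (l 531278975)))))) (a (a (l 531296383) (l 531296319)) (a (a (l 531298607) (a (b (l 2) (b (l 2) (l 16771336))) (l 531301983))) (l 531305311)))))) (a (b (l 3) (a (l 3) (a (l 3) (a (b (l 3) (l 531257871)) (a (l 531267711) (l 531277695)))))) (a (a (a (b (a (l 3) (l 531267455)) (a (l 531287935) (l 531298431))) (b (a (l 531277439) (l 531287935)) (a (l 531309183) (b (l 531314559) (l 531325311))))) (a (b (a (l 531298687) (b (b (l 532900879) (l 531302415)) (l 531320591))) (a (b (l 531326079) (l 531336831)) (a (l 531340927) (l 531346559)))) (a (b (b (b (l 531288959) (l 531307391)) (l 531327103)) (l 532158079)) (b (b (l 531835263) (l 531329663)) (b (l 531350911) (l 531364991)))))) (b (b (b (a (a (a (l 531278719) (l 531277951)) (a (l 531277183) (l 531276927))) (b (l 16770336) (l 16770040))) (c (a (a (l 16776072) (l 16774600)) (l 16769776))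 (a (a (l 531181183) (l 16774360)) (l 16769416)))) (b (a (a (b (l 16775520) (l 16772576)) (a (l 531321471) (l 16770856))) (a (l 16774984) (l 16768240))) (a (a (c (l 16772168) (l 16771984)) (a (l 16770952) (l 16770208))) (l 16773592)))) (b (b (a (a (a (l 16771752) (l 16771016)) (l 16769904)) (l 16772920)) (a (a (l 16770664) (l 16769192)) (l 16766984))) (b (a (a (l 16769920) (l 16768448)) (l 16766248)) (a (a (l 16769136) (l 16767672)) (l 16765488)))))))), by decide +kernel⟩

def k96_A00pm_012_s1 : ∃ t, chk3 f_A00pm_012_s1 t 82 22 7 = true :=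
  ⟨(a (b (l 3) (a (b (l 3) (b (l 3) (a (l 3) (c (a (l 531179647) (l 531174015)) (a (l 531001615) (l 530994047)))))) (b (b (a (l 3) (a (l 3) (l 531173503))) (a (a (l 3) (a (l 3) (l 531149439))) (a (l 531144207) (l 531137407)))) (a (c (b (a (l 531204479) (l 531198735)) (l 531165455)) (b (a (b (l 3) (l 531012479)) (a (l 531015295) (l 531011455))) (a (l 530986623) (l 530978943)))) (a (b (b (l 531117327) (l 531099663)) (l 531073039)) (b (l 531101455) (l 531065983))))))) (b (a (b (b (l 3) (a (l 3) (a (l 3) (c (l 531348495) (a (l 531129103) (l 531131263)))))) (a (a (l 531220607) (l 531212927)) (a (l 531205247) (l 531197567)))) (a (b (b (l 531261567) (c (a (l 531351935) (l 531357311)) (a (l 531678847) (l 531157631)))) (a (b (a (l 531212415) (l 531214719)) (l 531175039)) (a (l 531197455) (l 531201407)))) (b (b (l 531281023) (l 531280399)) (a (l 531745039) (l 531219071))))) (b (a (a (a (l 531148159) (l 531140735)) (l 531129615)) (a (a (l 531120255) (l 531120511)) (a (l 531661439) (l 531131007)))) (a (a (b (l 531090959)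 (l 531055375)) (l 531058703)) (a (l 531047439) (a (l 531048063) (l 531051647))))))), by decide +kernel⟩

def k97_A00pm_012_s1 : ∃ t, chk3 f_A00pm_012_s1 t 83 22 7 = true :=
  ⟨(a (a (b (b (a (a (l 531296639) (l 531307135)) (a (l 531318143) (l 531329407))) (a (a (l 531230847) (l 531243647)) (b (l 531291151) (l 531238671)))) (a (b (a (l 531139199) (l 531148927)) (a (l 531057023) (l 531063935))) (b (b (l 531189263) (l 16762512)) (b (l 16761376) (l 16765432))))) (a (b (b (a (l 531341183) (l 531353615)) (a (l 531285631) (b (l 16769088) (l 16768072)))) (b (b (l 16762136) (l 16766280)) (a (l 16770152) (l 16769416)))) (b (b (b (l 16769784) (l 16768928)) (b (l 16768008) (l 16766992))) (b (c (l 16765480) (l 16765256)) (l 16757824))))) (b (c (b (a (b (l 16767680) (l 16766832)) (a (l 16770344) (l 16763664))) (a (b (l 16765912) (l 16764912)) (l 16767784))) (b (b (a (l 16767512) (l 16764592)) (a (l 16766680) (l 16763784))) (a (a (l 16765984) (l 16759288)) (l 16767632)))) (b (b (a (l 16763752) (l 16760872)) (a (l 16762624)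 (l 16759728))) (a (a (l 16756344) (l 16754864)) (l 16768408))))), by decide +kernel⟩

def k98_A00pm_012_s1 : ∃ t, chk3 f_A00pm_012_s1 t 41 23 7 = true :=
  ⟨(a (a (a (b (b (a (b (c (l 531286799) (a (l 3) (l 530974847))) (l 531040527)) (c (b (l 531141391) (l 531106431)) (b (c (l 531014927) (l 530907919)) (l 530929535)))) (b (a (l 531006735) (a (l 530996351) (l 530989695))) (a (b (l 530979087) (l 530951807)) (l 530955535)))) (b (a (c (l 530983551) (l 530784895)) (l 530878735)) (c (l 530898959) (l 530677519)))) (b (b (a (b (a (l 531051647) (l 531044735)) (l 531013391)) (a (l 531020303) (l 531013503))) (a (b (l 530979343) (l 530941967)) (b (l 530965119) (l 530928255)))) (b (a (l 530865423) (l 531120767)) (a (l 530772863) (l 530758527))))) (a (b (b (a (a (l 531006591) (l 530999423)) (l 530989071)) (a (c (l 531016831) (l 530831999)) (l 530919183))) (a (b (l 530839935) (l 530744959)) (b (l 530827903) (l 530731903)))) (b (a (b (l 530977295) (l 530907151)) (b (l 530975103) (l 530903823))) (a (b (l 530817407) (l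 530720639)) (b (l 530814079) (l 16752776)))))) (a (a (b (a (b (b (l 16760480) (l 16764456)) (l 531175295)) (b (a (l 16769192) (l 16768432)) (a (l 16761296) (l 16760528)))) (a (b (l 530816639) (l 16756408)) (b (l 16758000) (l 16754816)))) (a (b (b (l 16756816) (l 16748896)) (b (l 16756448) (l 16753232))) (b (b (l 16760560) (l 16757864)) (b (l 16754904) (l 16751672))))) (b (b (a (l 16753072) (l 16755352)) (a (l 16745096) (l 16752592))) (b (a (l 16752600) (l 16749568)) (a (l 16749320) (l 16746248)))))), by decide +kernel⟩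

def k99_A00pm_012_s1 : ∃ t, chk3 f_A00pm_012_s1 t 21 10 1 = true :=
  ⟨(a (b (b (l 2) (b (l 2) (l 532191071))) (a (c (a (b (b (b (c (l 16774200) (l 16773176)) (c (l 16773544) (l 16772544))) (b (c (l 16772784) (l 16771832)) (a (l 16772688) (l 16765072)))) (b (a (b (l 16771864) (l 16770992)) (c (l 16769392) (l 16773784))) (b (a (l 16770072) (l 16762288)) (a (l 16769096) (l 16761256))))) (c (b (b (l 16774872) (l 16773216)) (b (l 16771152) (l 16768896))) (b (b (l 16773304) (l 16771800)) (b (l 16770000) (l 16768024))))) (b (b (a (b (c (l 16772072) (l 16770904)) (c (l 16771472) (l 16770328))) (b (l 16760560) (l 16759968))) (b (a (c (l 16770816) (l 16769736)) (l 16769832)) (a (a (l 16771056) (l 16762960)) (l 16758696)))) (b (a (b (a (l 16770368) (l 16762272)) (a (l 16764408) (l 16761552))) (b (l 16758008) (l 16757288))) (a (c (a (l 16768792) (l 16760768)) (a (l 16768200) (l 16760032))) (b (l 16756536) (l 16755744)))))) (b (b (b (l 2) (c (l 16756528) (l 16751464))) (b (c (l 16755720) (l 16750848)) (c (l 16765216)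 (l 16750192)))) (b (a (c (l 16765904) (l 16772952)) (b (l 16770080) (l 16769104))) (c (b (l 16772216) (l 16770944)) (c (l 16769392) (l 16767840))))))) (b (l 2) (b (b (l 2) (a (c (l 16746328) (l 16739264)) (l 2))) (b (a (c (l 16764992) (l 16758872)) (l 16752080)) (a (c (l 16762240) (l 16757376)) (c (l 16732272) (l 16725248))))))), by decide +kernel⟩

def k100_A00pm_012_s1 : ∃ t, chk3 f_A00pm_012_s1 t 21 22 1 = true :=
  ⟨(a (a (b (b (c (a (b (a (l 16768072) (l 16760184)) (b (l 16765920) (l 16765360))) (c (l 16766416) (l 16765872))) (c (a (c (l 16770984) (l 16770784)) (l 16754808)) (b (l 16767952) (l 16767160)))) (c (b (a (b (l 16764792) (l 16764224)) (l 16753832)) (a (c (l 16768632) (l 16758088)) (l 16752592))) (b (c (l 16766632) (l 16766296)) (a (a (l 16769728) (l 16756400)) (l 16752136))))) (b (b (c (a (c (l 16756944) (l 16756952)) (l 16761832)) (c (l 16764472) (l 16764248))) (c (a (c (l 16755728) (l 16755792)) (l 16750072)) (c (l 16763304) (l 16763088)))) (c (c (a (c (l 16764232) (l 16764352)) (l 16748064))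 (b (l 16762168) (l 16760888))) (a (b (l 16764872) (l 16763624)) (c (l 16748072) (l 16747872)))))) (c (b (a (b (l 16760992) (l 16758328)) (b (l 16745472) (l 16742592))) (b (c (l 16763504) (l 16763288)) (a (l 16752872) (l 16736752)))) (b (b (a (l 16748832) (l 16743192)) (a (l 16746976) (l 16741336))) (b (a (l 16765744) (l 16739152)) (c (l 16739504) (l 16739400)))))) (a (b (c (b (l 16759136) (l 16755936)) (c (l 16755520) (l 16754144))) (b (c (l 16752712) (l 16730744)) (c (l 16749504) (l 16728184)))) (b (b (b (l 16768928) (l 16767592)) (c (l 16725240) (l 16721784))) (c (c (l 16762056) (l 16719392)) (b (l 16719608) (l 16717088)))))), by decide +kernel⟩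

def k101_A00pm_012_s1 : ∃ t, chk3 f_A00pm_012_s1 t 21 23 1 = true :=
  ⟨(a (b (c (a (b (b (c (l 16759368) (l 16759560)) (c (l 16757944) (l 16758192))) (b (c (l 16756480) (l 16756784)) (c (l 16754992) (l 16755336)))) (b (a (l 16760488) (l 16733744)) (a (l 16736480) (l 16730576)))) (c (a (a (b (l 16761800) (l 16748568)) (b (l 16745416) (l 16742576))) (b (l 16736704) (l 16733736))) (a (b (a (l 16750984) (l 16745192)) (a (l 16748168) (l 16742320))) (b (l 16736624) (l 16733656))))) (a (c (c (b (b (l 16753528) (l 16752096)) (b (l 16750696) (l 16749336))) (a (b (l 16756248) (l 16742936)) (b (l 16739616) (l 16736688)))) (a (b (c (l 16745664) (l 16745104)) (c (l 16742624) (l 16741728))) (b (l 16749920) (l 16725688)))) (c (b (c (l 16730192) (l 16730536)) (c (l 16727176) (l 16727448))) (b (a (l 16733496) (l 16727616)) (a (l 16730160) (l 16724208)))))) (c (b (a (b (l 16746208) (l 16721888)) (a (l 16736112) (l 16751632))) (a (c (l 16737632) (l 16737976)) (b (l 16706968) (l 16703448)))) (b (a (c (l 16744744) (l 16765840))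 (b (l 16714192) (l 16711032))) (a (c (l 16759104) (l 16717160)) (b (l 16707560) (l 16703888)))))), by decide +kernel⟩

def k102_A00pm_012_s1 : ∃ t, chk3 f_A00pm_012_s1 t 11 2 1 = true :=
  ⟨(b (l 2) (b (b (l 2) (a (a (a (b (l 2) (b (l 2) (l 16760952))) (l 2)) (l 2)) (l 2))) (c (a (b (b (a (b (l 16757488) (l 16753552)) (l 16738456)) (a (b (l 16749376) (l 16744976)) (b (l 16689744) (l 16684936)))) (b (a (b (l 16698744) (l 16736472)) (b (l 16679912) (l 16674688))) (a (b (l 16732272) (l 16728320)) (b (l 16669728) (l 16665104))))) (b (b (l 2) (c (l 16749496) (l 16742872))) (a (b (l 16743616) (l 16690488)) (b (l 16643296) (l 16631192))))) (a (b (b (a (b (l 16749024) (l 16747192)) (l 16663472)) (a (c (l 16744680) (l 16680000)) (l 16722096))) (a (b (a (l 16680568) (l 16690688)) (c (l 16730800) (l 16647360))) (b (l 16716416) (b (l 16669328) (l 16665352))))) (b (a (b (l 2) (l 16658832)) (l 2)) (b (a (l 16653192) (l 16632296)) (a (l 16646144) (l 16625280)))))))), by decide +kernel⟩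

def k103_A00pm_012_s1 : ∃ t, chk3 f_A00pm_012_s1 t 80 24 2 = true :=
  ⟨(a (b (l 3) (a (l 3) (b (l 3) (c (c (a (b (l 3) (b (a (l 3) (c (l 530428543) (l 530673023))) (a (l 530327679) (b (l 530028303) (l 530575487))))) (b (l 530496271) (b (l 530527359) (a (l 530554639) (l 530539647))))) (a (b (l 3) (b (a (l 3) (l 531050879)) (l 530534927))) (b (l 531019391) (l 530513679)))) (a (b (l 3) (b (a (l 3) (l 531011711)) (a (l 531290239) (l 530619519)))) (b (l 531265663) (b (l 531278975) (l 531289103)))))))) (a (b (l 3) (c (c (b (a (b (l 3) (l 530425983)) (l 530377599)) (b (l 529919103) (l 529757967))) (b (l 530689663) (a (l 530488847) (l 531020159)))) (b (l 530700415) (b (l 531263103) (l 530743935))))) (b (b (l 3) (c (c (a (b (l 3) (l 530286207)) (l 529703039)) (l 530342527)) (l 530933119))) (c (c (b (a (l 530353791) (l 530333311)) (l 529625615)) (b (l 530949247) (l 531016575))) (b (l 531234431) (l 530730879)))))), by decide +kernel⟩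

def k104_A00pm_012_s1 : ∃ t, chk3 f_A00pm_012_s1 t 80 24 3 = true :=
  ⟨(a (b (l 3) (c (a (l 3) (b (l 3) (a (a (b (l 3) (b (l 3) (l 531146879))) (b (l 3) (b (l 531142927) (c (l 531192703) (l 531084671))))) (b (l 531137407) (b (l 531134079) (a (l 531136527) (l 531130495))))))) (a (l 3) (b (l 3) (a (b (l 3) (b (a (l 3) (c (l 530950415) (a (l 530785551) (l 530776959)))) (a (c (l 530952831) (l 530783871)) (c (l 530942991) (a (a (l 530775679) (l 530771215)) (l 530764559)))))) (b (l 531067263) (b (l 530847615) (c (l 530924047) (a (l 530750991) (l 530733439)))))))))) (b (a (l 3) (b (l 3) (a (a (l 3) (l 531025279)) (l 531013391)))) (c (a (b (a (l 531134847) (l 531124863)) (b (l 531120255) (a (l 531121791) (l 531109759)))) (b (l 531377535) (a (l 531100543) (l 531089023)))) (a (b (a (l 530877055) (l 530849919)) (b (l 530823183) (a (c (l 530903679) (l 530713471)) (l 530783871)))) (b (l 530809871) (a (l 531304831) (l 530739839))))))), by decide +kernel⟩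

def k105_A00pm_012_s1 : ∃ t, chk3 f_A00pm_012_s1 t 80 25 1 = true :=
  ⟨(a (b (a (c (c (c (b (a (b (a (l 3) (l 530714639)) (l 530774911)) (b (l 530135679) (l 530719615))) (l 530277247)) (b (l 530571135) (l 531250559))) (c (l 531116671) (l 531059327))) (b (c (a (b (l 531172223) (l 531183743)) (l 531169151)) (c (a (l 530987391) (l 530966399)) (b (a (b (l 3) (l 530828159)) (l 530799743)) (l 530803983)))) (c (l 531195519) (a (l 530897791) (l 530870143))))) (c (c (c (b (a (a (l 530655871) (b (l 530601231) (l 530654847))) (l 529793295)) (a (l 530737535) (l 530693759))) (b (a (l 530440463) (l 531099263)) (l 531191567))) (b (a (b (l 530646287) (l 531346559)) (l 531330319)) (a (l 531391359) (l 531390847)))) (a (b (b (a (l 531297039) (c (l 531154191) (a (l 530859135) (l 530852367)))) (c (l 531165311) (l 530854159))) (c (l 531180927) (l 530843007))) (b (c (b (l 531143695) (l 531154815)) (b (c (l 531192191) (b (l 530737935) (l 530732927))) (l 530826511))) (l 530740495))))) (a (c (b (b (l 529889551) (l 529926783))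 (l 530249599)) (b (l 530790671) (l 531064447))) (c (b (c (l 530763791) (l 531448447)) (l 530226447)) (a (l 531032079) (l 531012111))))) (c (a (b (c (b (a (c (l 530034191) (l 531090559)) (l 529734671)) (c (l 530644351) (l 531155071))) (b (b (l 531309327) (l 531341183)) (l 531387007))) (c (l 529943823) (l 531472767))) (b (b (c (c (l 529978127) (l 531080575)) (l 531309327)) (c (l 530866559) (l 531379327))) (c (l 530717055) (l 531465599)))) (b (b (a (b (a (c (l 531130239) (l 530802959)) (c (l 531116159) (l 530771583))) (a (l 530718223) (l 530696575))) (b (a (l 530771471) (l 530649727)) (l 530663439))) (a (a (c (l 531157375) (l 530785151)) (l 530698511)) (a (l 530676863) (l 530654591)))) (a (b (a (l 530990463) (l 530700415)) (l 530981247)) (b (l 530935823) (l 530936703)))))), by decide +kernel⟩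

def k106_A00pm_012_s1 : ∃ t, chk3 f_A00pm_012_s1 t 80 13 1 = true :=
  ⟨(b (a (c (b (a (l 530351375) (l 530051599)) (c (l 531404159) (l 531676543))) (b (a (l 530000767) (l 530493967)) (a (l 531091583) (l 531042943)))) (a (b (c (l 530035583) (l 530179967)) (c (l 530964863) (l 530994559))) (c (b (l 530838143) (b (l 16726352) (l 16722552))) (b (l 530939263) (l 530946319))))) (c (a (b (a (l 531922559) (l 531094543)) (a (l 530689039) (b (l 16715712) (l 16711504)))) (b (a (b (l 16721232) (l 16717232)) (b (l 16718672) (l 16714704))) (a (b (l 16713144) (b (l 16710016) (c (l 16714960) (l 16716384)))) (c (b (l 16717208) (b (a (l 16714704) (l 16713720)) (l 16713576))) (b (l 16730040) (b (l 16716032) (l 16723648))))))) (c (a (b (l 531338767) (b (l 16711984) (l 16706848))) (b (b (l 16715616) (l 16710752)) (a (b (l 16728264) (b (l 16724392) (l 16711160))) (b (l 16725088) (b (l 16710600) (l 16718064)))))) (a (b (l 530541327) (b (l 16707520) (a (l 16724576) (l 16720768)))) (b (b (l 16732272) (l 16705752)) (a (b (l 16722856)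 (b (l 16718432) (l 16704896))) (b (l 16719040) (b (l 16704040) (l 16721864))))))))), by decide +kernel⟩

def k107_A00pm_012_s1 : ∃ t, chk3 f_A00pm_012_s1 t 81 12 2 = true :=
  ⟨(b (a (b (c (c (a (b (a (b (l 3) (l 529610367)) (c (l 529932927) (l 530275711))) (l 529405967)) (b (a (l 529283199) (l 529539343)) (l 529380111))) (a (b (l 530264847) (l 530878335)) (b (l 530540047) (l 530887807)))) (a (b (l 531168127) (l 531199615)) (a (l 531182719) (l 531182207)))) (c (a (b (c (l 530309247) (l 530950271)) (l 529364863)) (b (l 529279103) (l 530167935))) (a (b (l 531231103) (l 531262847)) (l 530436879)))) (b (c (c (a (b (a (l 529800319) (l 530064255)) (l 529907839)) (b (l 529259535) (l 529644415))) (a (l 530061439) (l 530895887))) (a (l 530643983) (l 530910479))) (c (a (b (l 529823359) (l 530715007)) (c (l 529533055) (l 531055487))) (a (l 531236479) (l 531230079))))) (c (a (b (b (a (l 529707535) (l 530783359)) (a (l 530852735) (l 530853247))) (a (l 530968959) (l 530967167))) (a (b (b (l 530796159) (l 530867839))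 (l 530980479)) (b (b (l 530823039) (l 16751704)) (l 530737423)))) (a (b (b (a (l 531302015) (l 531294079)) (l 530825599)) (l 531181839)) (b (b (l 531280911) (l 531337743)) (b (l 531394575) (l 16748160)))))), by decide +kernel⟩

def k108_A00pm_012_s1 : ∃ t, chk3 f_A00pm_012_s1 t 81 13 2 = true :=
  ⟨(c (a (b (b (a (l 531129215) (l 531127167)) (b (c (l 16728008) (l 16741784)) (l 16720352))) (b (c (b (l 16719568) (a (l 16706248) (l 16713784))) (b (l 16733928) (l 16719488))) (b (a (b (l 16704984) (a (l 16714104) (b (l 16713344) (l 16712928)))) (b (a (l 16713584) (b (l 16712912) (l 16712608))) (c (l 16710464) (l 16725384)))) (a (b (a (l 16713152) (l 16723392)) (l 16723496)) (l 16722952))))) (b (a (b (b (l 16743608) (l 16739792)) (b (l 16714928) (l 16721456))) (b (b (l 16740808) (l 16726568)) (b (l 16722744) (b (l 16709344) (l 16717872))))) (c (b (b (a (l 16715216) (a (l 16713160) (b (l 16723360) (b (l 16721824) (l 16715776))))) (a (b (l 16712096) (b (a (l 16721632) (l 16710264)) (a (l 16720912) (l 16720616))))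 (b (a (b (l 16721168) (l 16710168)) (b (l 16720640) (l 16720608))) (l 16710080)))) (b (a (l 16710160) (l 16720472)) (l 16718896))) (b (b (a (l 16730176) (l 16717456)) (a (b (l 16727264) (l 16725848)) (b (l 16720560) (l 16724912)))) (b (a (l 16724280) (l 16720768)) (l 16716656)))))) (b (a (b (l 531554831) (b (l 16742648) (l 16738672))) (b (b (l 16744568) (l 16730368)) (b (l 16726528) (a (l 16734472) (l 16731616))))) (b (a (b (l 16724088) (a (l 16731704) (l 16718456))) (a (b (l 16730376) (b (l 16716704) (a (l 16715200) (l 16713560)))) (b (c (l 16718112) (l 16715792)) (b (a (l 16714448) (l 16712736)) (l 16721344))))) (a (b (a (b (l 16728440) (l 16715576)) (b (b (l 16715680) (l 16714408)) (l 16722752))) (c (l 16726448) (a (l 16709872) (l 16716744)))) (b (c (l 16725384) (a (l 16719256) (l 16715584))) (l 16717968)))))), by decide +kernel⟩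

def k109_A00pm_012_s1 : ∃ t, chk3 f_A00pm_012_s1 t 81 12 3 = true :=
  ⟨(b (c (a (b (a (b (l 531132943) (l 531109247)) (a (l 531108479) (l 531100287))) (a (b (l 531088767) (l 531071359)) (b (l 531068287) (l 531048063)))) (b (a (b (l 531102991) (l 531073407)) (a (l 531075199) (l 531066495))) (a (l 531036175) (l 531014159)))) (a (b (a (b (l 530891279) (l 530821503)) (a (l 530819967) (l 530796415))) (a (b (l 530756991) (l 530698111)) (b (l 530705791) (l 530644351)))) (b (a (b (l 530799119) (l 530724479)) (b (l 530753807) (l 530677375))) (a (l 530892303) (l 530574607))))) (a (b (b (a (c (l 531065359) (l 531190543)) (b (l 530578047) (l 530574975))) (a (l 530621455) (l 530845055))) (a (b (l 530890623) (l 530891391)) (b (l 530845823) (l 530846079)))) (a (b (b (l 530533903) (l 530801023)) (a (l 530813055) (l 530791039))) (b (b (l 530497295) (l 530490895)) (b (l 530825343) (l 530758927)))))), by decide +kernel⟩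

def k110_A00pm_012_s1 : ∃ t, chk3 f_A00pm_012_s1 t 81 13 3 = true :=
  ⟨(a (b (b (a (l 531161871) (b (l 16734744) (l 16730216))) (b (a (l 16718392) (l 16715008)) (c (l 16714040) (l 16730304)))) (b (b (c (l 16709296) (a (l 16726712) (l 16722944))) (c (a (l 16726952) (b (l 16724976) (l 16722448))) (a (l 16721056) (b (l 16718680) (l 16715752))))) (b (c (a (b (l 16723160) (l 16715224)) (b (a (l 16720688) (l 16718928)) (l 16716856))) (a (b (l 16716672) (l 16708416)) (b (l 16707536) (c (l 16711608) (l 16707720))))) (c (a (b (l 16717496) (l 16714296)) (l 16712120)) (a (b (l 16721032) (l 16707352)) (l 16715432)))))) (b (c (b (b (l 16731424) (l 16727152)) (a (b (l 16734800) (l 16730192)) (b (l 16731568) (l 16726936)))) (b (b (l 16738208) (l 16733288)) (a (b (l 16730016) (l 16724688)) (b (l 16726288) (l 16720912))))) (b (b (c (a (l 16725408) (c (l 16713104) (l 16710048))) (a (l 16708648) (b (l 16716736) (l 16708632)))) (c (a (b (l 16721696) (a (l 16719952) (l 16718168))) (b (a (l 16719144) (l 16717320)) (l 16715344)))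 (a (b (l 16704344) (l 16706632)) (b (c (l 16712904) (l 16708920)) (l 16707960))))) (c (b (a (b (l 16716136) (l 16713072)) (l 16710816)) (a (l 16708336) (l 16704544))) (b (a (b (l 16708840) (l 16705736)) (l 16713832)) (a (l 16700968) (l 16697000))))))), by decide +kernel⟩

def k111_A00pm_012_s1 : ∃ t, chk3 f_A00pm_012_s1 t 82 12 2 = true :=
  ⟨(b (a (b (a (c (a (l 528935439) (c (l 529672063) (l 531006591))) (l 531174671)) (c (c (a (l 530280575) (l 530366079)) (l 531087887)) (a (l 531168895) (l 531164031)))) (a (c (l 529135631) (l 531221119)) (c (l 530857231) (l 531207807)))) (a (b (a (c (l 530854415) (l 531158655)) (c (l 530155903) (l 531152511))) (c (b (l 530982927) (l 16739936)) (l 531192335))) (a (b (c (l 531036687) (l 531145599)) (b (l 16741688) (l 16738664))) (b (b (l 531101711) (l 16748328)) (b (l 16740176) (l 16737152)))))) (a (b (c (c (a (l 530578047) (l 531198479)) (b (l 531271439) (l 16749232))) (a (l 531281935) (b (l 16750936) (l 16747640)))) (c (a (b (l 16745368) (l 16741800)) (b (l 16732352)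 (l 16728848))) (b (l 16740544) (l 16737080)))) (b (a (c (b (l 16736752) (l 16733456)) (b (l 16747912) (l 16744616))) (c (b (l 16734664) (l 16731424)) (b (l 16744848) (l 16741536)))) (b (a (c (l 16730072) (l 16741256)) (c (l 16728072) (l 16727688))) (a (c (l 16726616) (l 16737800)) (c (b (l 16725512) (l 16723784)) (l 16724240))))))), by decide +kernel⟩

def k112_A00pm_012_s1 : ∃ t, chk3 f_A00pm_012_s1 t 164 26 2 = true :=
  ⟨(c (c (a (b (b (l 16725672) (l 16721840)) (b (l 16717952) (b (l 16725472) (l 16712992)))) (b (b (l 16723080) (l 16719312)) (a (b (l 16716088) (b (l 16723648) (b (l 16711720) (a (l 16721568) (l 16716096))))) (b (l 16714912) (b (a (l 16722784) (c (l 16718448) (l 16723664))) (b (a (l 16716360) (l 16721640)) (l 16711008))))))) (b (b (l 16728600) (l 16725096)) (b (l 16721512) (a (l 16718928) (b (l 16717888) (b (l 16722008) (l 16721528))))))) (c (b (b (l 16739344) (l 16735784)) (b (l 16721616) (a (l 16729728) (a (l 16717032) (b (l 16727048) (l 16724864)))))) (b (b (l 16727552) (l 16723704))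 (b (l 16719720) (a (l 16727584) (b (l 16725560) (l 16723304))))))), by decide +kernel⟩

def k113_A00pm_012_s1 : ∃ t, chk3 f_A00pm_012_s1 t 165 26 2 = true :=
  ⟨(b (c (c (c (a (b (l 16719568) (l 16715800)) (b (l 16717416) (b (l 16719904) (a (l 16723744) (b (a (l 16723472) (l 16723240)) (a (l 16722776) (l 16722976))))))) (a (b (l 16721912) (l 16718272)) (b (l 16730392) (a (l 16716784) (b (l 16727256) (b (l 16726064) (l 16720296))))))) (a (b (l 16736008) (l 16722088)) (b (l 16733088) (a (l 16720072) (b (l 16729920) (l 16728160)))))) (a (b (l 16723744) (l 16720040)) (a (b (l 16721440) (b (l 16729168) (l 16727288))) (b (l 16730376) (b (l 16727616) (b (l 16726176) (l 16727760))))))) (c (c (b (a (c (b (l 16718224) (a (l 16716856) (b (a (l 16721744) (l 16721536)) (a (l 16721176) (l 16721368))))) (b (l 16715544) (a (l 16724688) (a (l 16718904) (l 16718840))))) (b (a (b (a (l 16713408) (b (l 16718496) (l 16718272))) (a (b (l 16718072) (l 16717864)) (l 16712928))) (l 16713456)) (a (l 16712624) (l 16723688)))) (a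 (b (a (b (a (l 16717032) (l 16716912)) (b (l 16711504) (l 16711464))) (l 16711928)) (l 16711552)) (l 16723040))) (a (a (b (l 16719088) (b (l 16727288) (l 16725032))) (b (b (l 16729504) (l 16727648)) (l 16724344))) (b (b (a (l 16727936) (l 16726160)) (l 16724928)) (l 16721536)))) (c (b (a (b (l 16728616) (a (l 16727488) (l 16720624))) (b (a (l 16726264) (l 16724448)) (l 16723096))) (a (b (a (l 16725408) (l 16723576)) (l 16722080)) (l 16719504))) (b (a (b (l 16726592) (l 16724472)) (b (a (l 16724152) (l 16722304)) (l 16720848))) (a (b (l 16722168) (l 16719640)) (l 16717088)))))), by decide +kernel⟩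

def k114_A00pm_012_s1 : ∃ t, chk3 f_A00pm_012_s1 t 82 27 2 = true :=
  ⟨(a (a (c (b (b (b (c (a (l 16711640) (c (b (l 16720256) (l 16719744)) (l 16717344))) (l 16721680)) (a (b (a (l 16713048) (l 16712848)) (l 16712744)) (l 16712896))) (b (l 16712680) (l 16722392))) (b (l 16718336) (l 16712568))) (c (b (b (b (l 16716208) (l 16724368)) (l 16720368)) (b (l 16714712) (l 16708696))) (b (b (b (l 16724304) (l 16721840)) (l 16717696)) (l 16729792)))) (c (b (b (b (a (b (a (l 16713224) (l 16713328)) (l 16713184)) (l 16713448)) (l 16713136)) (l 16720112)) (l 16711896)) (b (b (c (l 16722016) (l 16729960)) (l 16694392)) (b (l 16709616) (l 16703536))))) (b (b (a (c (l 16721456) (b (l 16718344) (l 16715704))) (c (l 16717720) (l 16713200))) (c (l 16714560) (a (l 16711592) (l 16707752)))) (c (l 16706320) (b (l 16703904) (l 16697824))))), by decide +kernel⟩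

def k115_A00pm_012_s1 : ∃ t, chk3 f_A00pm_012_s1 t 82 12 3 = true :=
  ⟨(b (c (a (b (a (a (l 531057279) (l 531047295)) (b (l 531318287) (l 531014159))) (a (l 530991375) (l 530966799))) (a (b (b (l 531028239) (l 530990863)) (b (l 16753440) (l 16749912))) (a (b (l 531258751) (l 530921231)) (b (l 530979599) (l 531176975))))) (a (b (a (b (l 530713103) (l 530634367)) (a (l 530646799) (l 530630671))) (a (l 530529295) (l 530490383))) (a (b (a (l 530615311) (l 530601231)) (b (l 16751568) (l 16747600))) (b (a (l 530588687) (l 530581263)) (b (l 16748128) (l 16744104)))))) (a (b (a (b (l 530460431) (l 530449679)) (b (l 530425615) (b (l 16745392) (l 16743384)))) (c (a (l 530721919) (b (l 16741928) (l 16737952))) (a (l 530664207) (b (l 16738384) (l 16733800))))) (b (a (b (b (l 16745968) (l 16743984)) (b (l 16741984) (l 16739952))) (c (b (l 16742984) (l 16739200)) (b (l 16739888) (l 16735552)))) (a (a (b (l 16737712) (l 16733424)) (b (l 16735976) (l 16731688))) (c (b (l 16735328) (l 16731328)) (b (l 16731096) (l 16726464))))))),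 by decide +kernel⟩

def k116_A00pm_012_s1 : ∃ t, chk3 f_A00pm_012_s1 t 82 13 3 = true :=
  ⟨(b (a (c (a (b (b (l 16737072) (l 16732776)) (b (l 16728296) (l 16718400))) (b (b (l 16733800) (l 16729480)) (b (l 16724984) (b (a (l 16722336) (l 16720648)) (a (l 16719912) (l 16723360)))))) (a (b (b (l 16732704) (l 16727728)) (b (l 16722528) (l 16711864))) (b (b (l 16729008) (l 16723992)) (b (l 16713520) (b (l 16709456) (a (l 16712864) (l 16716200))))))) (b (c (a (b (l 16730488) (l 16726152)) (b (l 16721904) (b (l 16718664) (a (l 16722528) (a (l 16721248) (l 16720344)))))) (a (b (l 16725304) (l 16715016)) (b (l 16716368) (b (a (l 16718760) (l 16716912)) (c (l 16716992) (l 16713408)))))) (b (c (a (b (l 16717544) (c (l 16716632) (l 16718880))) (b (a (b (l 16720816) (l 16719608)) (l 16718328)) (l 16727216))) (a (b (a (l 16717280) (l 16715400)) (c (l 16715488) (l 16711720))) (b (a (c (l 16715344) (l 16711624)) (l 16711664)) (a (l 16710824) (l 16708952))))) (a (c (b (a (b (l 16719520) (l 16718232)) (l 16716984)) (l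 16715256)) (b (a (b (l 16712544) (l 16711160)) (l 16709960)) (l 16708096))) (c (l 16723248) (l 16716200)))))) (a (b (b (a (c (b (a (l 16720864) (l 16719128)) (a (l 16718264) (l 16716392))) (b (a (l 16713864) (l 16711944)) (a (l 16710984) (l 16709048)))) (a (b (c (l 16717288) (l 16710024)) (l 16710984)) (b (l 16711928) (l 16709064)))) (a (c (l 16723504) (b (l 16707064) (l 16704056))) (b (l 16707096) (l 16704112)))) (b (c (l 16705104) (a (l 16699424) (l 16695528))) (c (l 16698816) (l 16691096)))) (b (a (b (c (l 16711112) (l 16703776)) (l 16701760)) (b (l 16703776) (l 16697896))) (b (a (l 16695648) (l 16691776)) (l 16687336))))), by decide +kernel⟩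

def k117_A00pm_012_s1 : ∃ t, chk3 f_A00pm_012_s1 t 166 24 16 = true :=
  ⟨(a (b (b (l 16753328) (l 16750176)) (b (l 16746968) (l 16743688))) (a (b (l 16749752) (l 16739000)) (b (l 16748248) (l 16737488)))), by decide +kernel⟩

def k118_A00pm_012_s1 : ∃ t, chk3 f_A00pm_012_s1 t 166 25 32 = true :=
  ⟨(c (c (b (a (b (l 16728952) (l 16735936)) (b (l 16737936) (l 16734368))) (b (a (l 16732328) (a (l 16731088) (l 16725136))) (a (l 16723400) (a (b (l 16728296) (a (l 16726640) (l 16726480))) (b (a (l 16727824) (l 16722784)) (l 16727208)))))) (a (b (b (l 16729208) (l 16736200)) (b (l 16732616) (l 16728944))) (a (b (l 16734184) (b (l 16731392) (b (l 16728608) (a (l 16726952) (l 16726792))))) (b (l 16730848) (b (b (l 16731536) (l 16729744)) (b (a (l 16728136) (l 16728344)) (l 16727520))))))) (c (a (b (b (l 16739952) (l 16725992)) (b (l 16732904) (l 16729248))) (a (b (l 16734456) (b (l 16731688) (b (l 16728920) (a (l 16727272) (l 16727112))))) (b (l 16731120) (b (l 16730984) (b (a (l 16728448) (l 16728656)) (l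 16727832)))))) (a (b (b (l 16740208) (l 16726264)) (b (l 16733192) (l 16729552))) (a (b (l 16732104) (b (l 16731984) (b (l 16729224) (a (l 16727584) (l 16727432))))) (b (l 16731400) (b (l 16731288) (b (a (l 16728768) (l 16728968)) (l 16728144)))))))), by decide +kernel⟩

def k119_A00pm_012_s1 : ∃ t, chk3 f_A00pm_012_s1 t 166 25 33 = true :=
  ⟨(c (c (a (b (b (l 16740464) (l 16726536)) (b (l 16723000) (l 16729864))) (a (b (l 16737624) (b (l 16732288) (b (l 16729536) (a (l 16727904) (l 16727752))))) (b (l 16731680) (b (l 16731592) (b (a (l 16729080) (l 16729280)) (l 16728456)))))) (a (b (l 16733784) (b (l 16723288) (l 16719688))) (a (b (l 16737896) (b (l 16722104) (l 16729120))) (b (l 16731880) (b (l 16731896) (b (a (l 16729400) (l 16729592)) (l 16728768))))))) (c (a (b (l 16734048) (b (l 16723576) (l 16719992))) (a (b (l 16738176) (b (l 16732888) (l 16729440))) (b (l 16731888) (b (l 16732200) (b (a (l 16724472) (l 16729912)) (l 16729088)))))) (a (b (l 16734320) (b (l 16734360) (l 16720304))) (a (b (l 16738448)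 (b (l 16733192) (l 16729752))) (b (l 16731896) (b (l 16732512) (a (l 16732216) (l 16729528)))))))), by decide +kernel⟩

def k120_A00pm_012_s1 : ∃ t, chk3 f_A00pm_012_s1 t 166 12 17 = true :=
  ⟨(b (a (b (b (l 16753648) (l 16750928)) (b (l 16748144) (l 16745288))) (a (b (l 16750016) (l 16744424)) (b (l 16748496) (l 16742904)))) (c (c (b (a (l 16734720) (b (l 16739344) (l 16736496))) (b (a (l 16734800) (l 16728088)) (a (l 16731256) (a (l 16730232) (a (l 16732696) (l 16729480)))))) (c (b (a (l 16735120) (b (l 16739360) (l 16736488))) (b (a (l 16735240) (l 16728392)) (a (l 16731720) (a (l 16730712) (a (l 16732936) (l 16729432)))))) (b (a (l 16735392) (b (l 16739360) (l 16736488))) (b (a (l 16735536) (l 16728376)) (a (l 16732032) (a (l 16731032) (b (l 16730648) (l 16729024)))))))) (c (b (a (l 16735688) (b (l 16739368) (l 16736472))) (b (a (l 16735984) (l 16728344)) (a (l 16732504) (a (l 16731432) (b (l 16730600) (l 16728960)))))) (b (a (l 16735688) (b (l 16739368) (l 16736456))) (b (a (l 16736576) (l 16728304))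 (a (l 16733136) (a (l 16731360) (b (l 16730536) (l 16728872))))))))), by decide +kernel⟩

def k121_A00pm_012_s1 : ∃ t, chk3 f_A00pm_012_s1 t 166 12 9 = true :=
  ⟨(b (a (b (a (l 16753336) (l 16751816)) (b (l 16748336) (l 16745384))) (a (b (l 16750288) (l 16744544)) (b (l 16748752) (l 16740384)))) (c (c (c (b (a (l 16735680) (b (l 16739368) (l 16736432))) (b (a (l 16736536) (l 16728248)) (a (l 16733568) (a (l 16731280) (b (l 16730456) (l 16728776)))))) (b (a (l 16735664) (b (l 16728872) (l 16736400))) (b (a (l 16736488) (l 16728192)) (a (l 16733488) (a (l 16731192) (b (a (l 16730816) (l 16729960)) (l 16728680))))))) (c (b (a (l 16740888) (b (l 16728856) (l 16725872))) (b (a (l 16736424) (l 16728128)) (a (l 16733400) (a (l 16725856) (b (a (l 16730728) (l 16729872)) (l 16728576)))))) (a (b (l 16740864) (b (l 16736368) (l 16733312))) (a (b (l 16728080) (b (l 16734072) (l 16725760))) (b (l 16726544) (b (l 16732528) (b (l 16730192) (l 16728456)))))))) (c (c (b (a (l 16740832) (a (l 16728048) (l 16726504)))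 (b (a (l 16736296) (l 16727976)) (a (l 16722728) (a (l 16725656) (b (a (l 16730536) (l 16729664)) (l 16728336)))))) (b (a (l 16740792) (a (l 16728000) (l 16726456))) (b (a (l 16736216) (l 16727896)) (a (l 16733104) (a (l 16730784) (b (a (l 16730424) (l 16729560)) (l 16728208))))))) (a (b (a (l 16731008) (l 16729472)) (b (l 16736096) (l 16732936))) (a (b (l 16727928) (b (l 16733784) (l 16730600))) (b (l 16726376) (b (l 16732224) (b (a (l 16730256) (l 16729376)) (l 16728008))))))))), by decide +kernel⟩

def k122_A00pm_012_s1 : ∃ t, chk3 f_A00pm_012_s1 t 166 12 5 = true :=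
  ⟨(b (a (b (b (l 16754192) (l 16751272)) (b (l 16748216) (l 16745024))) (a (b (b (l 16751864) (l 16748928)) (b (l 16745864) (l 16742664))) (b (b (l 16750296) (l 16747360)) (b (l 16744288) (l 16741088))))) (c (c (c (a (b (b (l 16742208) (l 16739064)) (b (l 16735904) (l 16732688))) (a (b (l 16727808) (b (l 16733576) (l 16725096))) (b (l 16726248) (b (l 16732008) (b (l 16734784) (l 16727720)))))) (a (b (b (l 16742104) (l 16738912)) (b (l 16735688) (l 16732408))) (a (b (l 16727664) (b (l 16733352) (l 16730048))) (b (l 16726096) (b (l 16731776) (b (l 16729256) (l 16727400))))))) (c (b (a (b (l 16741976) (l 16738728)) (b (l 16738840) (l 16735592))) (b (a (l 16735448) (l 16727056)) (a (l 16732104) (a (l 16729728) (b (l 16728944) (l 16727056)))))) (b (a (b (l 16741824) (l 16738520)) (b (l 16738672) (l 16735368))) (b (a (l 16735192) (l 16726776)) (a (l 16731776) (a (l 16729384) (b (l 16728608) (l 16726688)))))))) (c (c (a (b (b (l 16741648) (l 16738296)) (b (l 16734904) (l 16731424))) (b (b (l 16738488) (l 16735120))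 (b (l 16726472) (a (l 16729016) (b (l 16728248) (l 16726288)))))) (b (a (b (l 16741456) (l 16738048)) (b (l 16738280) (l 16734856))) (b (a (l 16734592) (l 16726136)) (a (l 16731048) (a (l 16728616) (b (l 16727856) (l 16725872))))))) (c (b (a (b (l 16741248) (l 16737776)) (b (l 16738048) (l 16734560))) (b (a (l 16734256) (l 16725776)) (a (l 16730640) (a (l 16728200) (b (l 16727448) (l 16725424)))))) (b (a (b (l 16741008) (l 16737480)) (b (l 16737792) (l 16734248))) (b (a (l 16733896) (l 16725400)) (a (l 16730208) (a (l 16727752) (b (l 16727008) (l 16724960)))))))))), by decide +kernel⟩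

def k123_A00pm_012_s1 : ∃ t, chk3 f_A00pm_012_s1 t 166 12 3 = true :=
  ⟨(b (b (a (a (b (l 16753840) (l 16750440)) (b (l 16752240) (l 16748816))) (a (c (b (l 16751272) (l 16748024)) (b (l 16749792) (l 16746120))) (b (l 16743800) (l 16740328)))) (a (a (b (l 16746832) (l 16743024)) (b (l 16745184) (l 16741352))) (a (c (b (l 16744600) (l 16740984)) (b (l 16742224) (l 16738096))) (b (l 16736656) (b (l 16739016) (l 16737024)))))) (c (c (c (c (b (a (b (l 16740752) (l 16737168)) (b (l 16737520) (l 16733912))) (b (a (l 16733512) (l 16724992)) (a (l 16729760) (a (l 16727280) (b (l 16726544) (l 16724464)))))) (a (b (b (l 16740480) (l 16736824)) (b (l 16733104) (l 16729280))) (a (b (l 16725704) (b (l 16730640) (l 16726784))) (b (l 16724072) (b (l 16728984) (b (l 16726056) (l 16723944))))))) (a (b (b (l 16740024) (l 16736280)) (b (l 16732456) (l 16728512))) (a (b (l 16730424) (b (l 16729960) (l 16725992))) (b (l 16728776) (b (l 16728288) (b (l 16725280) (l 16723128))))))) (b (a (b (l 16738984) (l 16735032)) (b (l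 16735648) (l 16731664))) (b (a (l 16731000) (a (l 16728440) (l 16726736))) (a (l 16726824) (a (b (l 16725328) (l 16723168)) (b (l 16723568) (l 16721320))))))) (b (a (b (l 16736376) (l 16731992)) (a (b (l 16733776) (l 16729352)) (b (l 16732056) (l 16727600)))) (b (a (l 16717000) (a (l 16724808) (b (l 16724184) (l 16721864)))) (a (l 16717576) (a (b (l 16721312) (l 16718912)) (b (a (l 16719960) (l 16719056)) (a (l 16717552) (l 16716640))))))))), by decide +kernel⟩

def k124_A00pm_012_s1 : ∃ t, chk3 f_A00pm_012_s1 t 166 13 1 = true :=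
  ⟨(b (b (c (a (b (c (a (b (l 16720760) (a (l 16719208) (l 16718832))) (b (c (c (l 16721368) (l 16729208)) (l 16730136)) (a (b (l 16718904) (a (l 16718248) (l 16718272))) (a (b (l 16718728) (l 16728288)) (l 16717800))))) (a (b (l 16729728) (l 16727904)) (b (l 16728144) (a (l 16726680) (l 16725776))))) (a (b (c (a (b (l 16717904) (a (l 16717216) (l 16717240))) (b (a (l 16717720) (l 16717776)) (l 16717520))) (a (l 16726416) (l 16725536))) (c (a (l 16716904) (l 16726544)) (l 16723792))) (c (b (l 16716608) (l 16725120)) (b (l 16724088) (l 16721840))))) (c (b (a (b (a (b (a (l 16719552) (l 16719136)) (l 16718480)) (l 16717984)) (l 16727096)) (l 16726072)) (l 16723160)) (b (a (b (a (l 16732128) (l 16725928)) (l 16724288)) (l 16723336)) (l 16730424)))) (a (a (b (b (l 16723088) (c (l 16723560) (l 16717608))) (b (c (a (l 16721776) (l 16720872)) (a (l 16715528) (l 16714600))) (c (l 16718912) (l 16712456)))) (b (b (c (l 16724008) (l 16718280)) (c (a (l 16722264) (l 16721336)) (a (l 16716232) (l 16715320)))) (b (c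 (l 16719424) (l 16713216)) (l 16713968)))) (b (a (b (a (c (l 16722688) (l 16716912)) (l 16724296)) (a (l 16717568) (l 16716616))) (b (l 16728104) (l 16715176))) (c (l 16725720) (l 16709144))))) (c (c (a (b (a (l 16723936) (l 16722008)) (l 16718568)) (l 16716776)) (a (b (a (l 16720312) (l 16718344)) (l 16714432)) (b (l 16715280) (l 16710352)))) (a (b (c (l 16724624) (l 16717992)) (l 16705576)) (b (l 16717632) (l 16701704))))) (b (c (c (l 16714456) (a (l 16706544) (l 16702424))) (a (b (l 16699920) (l 16694024)) (l 16693072))) (c (c (l 16698360) (l 16692888)) (a (l 16684696) (l 16680760))))), by decide +kernel⟩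

def k125_A00pm_012_s1 : ∃ t, chk3 f_A00pm_012_s1 t 668 12 2 = true :=
  ⟨(c (b (b (b (l 16748448) (l 16745704)) (b (l 16742896) (l 16740000))) (b (b (l 16737072) (b (l 16734888) (b (l 16733792) (l 16727816)))) (b (b (a (l 16727104) (a (l 16726496) (l 16731280))) (a (b (l 16725976) (l 16730408)) (l 16729840))) (b (l 16728608) (l 16726824))))) (b (b (b (l 16748736) (l 16745784)) (b (l 16742712) (l 16739504))) (b (b (l 16736200) (b (l 16733712) (a (l 16732424) (l 16731624)))) (b (b (a (l 16730728) (a (l 16730096) (l 16729608))) (a (b (l 16729416) (l 16728472)) (l 16727920))) (l 16725424))))), by decide +kernel⟩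

def k126_A00pm_012_s1 : ∃ t, chk3 f_A00pm_012_s1 t 669 12 2 = true :=
  ⟨(a (b (b (b (l 16747544) (l 16739472)) (c (b (l 16741744) (l 16738856)) (b (l 16741528) (l 16738320)))) (b (c (b (l 16735928) (b (a (l 16733936) (l 16733528)) (a (b (l 16732824) (l 16732032)) (l 16731944)))) (b (l 16735016) (b (l 16732496) (a (l 16730976) (l 16730456))))) (b (c (l 16729664) (l 16727808)) (l 16725136)))) (a (a (b (b (b (b (l 16747760) (l 16746368)) (l 16738992)) (b (b (l 16742048) (l 16740560)) (b (l 16739040) (l 16727016)))) (c (b (b (l 16735448) (b (l 16733200) (l 16731552))) (l 16727216)) (b (b (l 16734520) (b (l 16731936) (l 16730040))) (l 16725088)))) (a (c (b (b (b (l 16746680) (l 16743936)) (b (l 16741120) (l 16738232))) (b (b (l 16735296) (l 16732184)) (l 16727000))) (b (b (b (l 16746920) (l 16743968)) (b (l 16740888) (l 16737680))) (b (b (l 16734368) (l 16730776)) (l 16724864)))) (a (c (b (b (b (l 16746608) (l 16743864)) (b (l 16741048) (l 16738160))) (b (b (l 16735224) (l 16732080)) (l 16726888))) (b (b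 (b (l 16746848) (l 16743896)) (b (l 16740816) (l 16737608))) (b (b (l 16734288) (l 16730672)) (l 16724752)))) (b (b (b (b (l 16747488) (l 16746104)) (l 16738720)) (b (b (l 16741784) (l 16740288)) (b (l 16738776) (l 16726752)))) (b (b (b (l 16725192) (c (l 16734440) (l 16733400))) (b (l 16732384) (l 16730584))) (b (l 16727816) (l 16723984))))))) (c (b (b (b (l 16746344) (l 16743600)) (b (l 16740784) (l 16737896))) (b (b (b (l 16735688) (b (l 16734560) (l 16733768))) (l 16731696)) (l 16726456))) (b (b (b (l 16746576) (l 16743624)) (b (l 16740544) (l 16737328))) (b (b (b (l 16734848) (l 16733088)) (l 16730256)) (l 16724312)))))), by decide +kernel⟩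

def k127_A00pm_012_s1 : ∃ t, chk3 f_A00pm_012_s1 t 1340 12 2 = true :=
  ⟨(b (a (c (b (b (l 16745960) (l 16743208)) (b (l 16740392) (b (l 16738240) (a (l 16736872) (l 16736656))))) (b (b (l 16746184) (l 16743232)) (b (l 16740144) (b (l 16737752) (l 16736088))))) (a (c (c (b (b (l 16745472) (l 16742752)) (b (l 16734736) (a (l 16737176) (l 16737048)))) (b (b (l 16745808) (l 16743024)) (b (l 16740152) (b (l 16732672) (l 16736320))))) (b (b (l 16745888) (l 16742928)) (b (l 16739840) (b (l 16732168) (l 16735656))))) (c (a (a (b (b (l 16745544) (l 16742800)) (b (b (l 16740696) (l 16734016)) (l 16736944))) (c (c (b (b (l 16745184) (l 16742480)) (b (b (l 16735176) (l 16733776)) (l 16736792))) (b (b (l 16745408) (l 16742680)) (b (b (l 16740592) (l 16733904)) (l 16736832)))) (b (b (l 16745640) (l 16742848)) (b (b (l 16740712) (l 16733960)) (l 16736760))))) (b (b (l 16745424) (l 16742680)) (b (b (l 16740576) (l 16739096)) (l 16736720)))) (b (b (l 16745688) (l 16742736)) (a (b (a (b (l 16740512) (l 16738912)) (b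 (l 16740456) (l 16738816))) (b (l 16737120) (l 16735296))) (b (l 16739544) (l 16736008))))))) (b (a (b (b (c (a (l 16735360) (l 16735088)) (l 16729088)) (l 16727952)) (l 16730496)) (b (a (b (l 16734424) (l 16732648)) (l 16733120)) (a (l 16729912) (l 16708480)))) (b (a (l 16726768) (a (l 16726144) (l 16715168))) (a (l 16722888) (a (l 16722224) (b (l 16722712) (l 16720688))))))), by decide +kernel⟩

def k128_A00pm_012_s1 : ∃ t, chk3 f_A00pm_012_s1 t 1341 12 2 = true :=
  ⟨(a (a (b (b (b (c (l 16745280) (l 16745496)) (b (l 16743384) (l 16741944))) (b (b (l 16740472) (l 16738896)) (l 16736352))) (b (b (l 16732808) (l 16729128)) (b (l 16725312) (l 16721344)))) (a (b (b (b (c (l 16745136) (l 16745344)) (b (l 16743240) (l 16741800))) (b (b (l 16740328) (l 16738752)) (l 16736208))) (b (b (l 16732656) (l 16728976)) (b (l 16725160) (l 16721192)))) (a (b (b (b (c (l 16745064) (l 16745272)) (b (l 16743168) (l 16741720))) (b (b (l 16740256) (l 16738672)) (l 16736136))) (b (b (l 16732584) (l 16728904)) (b (l 16725080)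 (l 16721120)))) (b (b (b (b (l 16745928) (l 16744536)) (b (l 16743120) (l 16741672))) (b (b (l 16740200) (l 16738624)) (l 16736080))) (b (b (l 16732536) (l 16728848)) (b (l 16725032) (l 16721064))))))) (b (b (b (b (l 16745704) (l 16744312)) (b (l 16742896) (l 16741456))) (b (b (l 16739984) (l 16738400)) (l 16735864))) (b (b (l 16732312) (l 16728624)) (b (l 16724808) (l 16720840))))), by decide +kernel⟩

def k129_A00pm_012_s1 : ∃ t, chk3 f_A00pm_012_s1 t 671 12 2 = true :=
  ⟨(b (b (b (b (l 16744728) (l 16743336)) (b (l 16741912) (l 16740472))) (b (b (l 16738992) (l 16737416)) (l 16734872))) (b (b (l 16731312) (l 16727624)) (b (l 16723800) (l 16719832)))), by decide +kernel⟩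

def k130_A00pm_012_s1 : ∃ t, chk3 f_A00pm_012_s1 t 167 24 3 = true :=
  ⟨(b (c (b (a (l 16747304) (l 16744144)) (a (l 16744016) (l 16740824))) (b (a (l 16745792) (l 16742672)) (a (l 16742048) (l 16738872)))) (c (b (a (l 16740544) (a (a (a (l 16738728) (a (l 16738432) (a (a (l 16738288) (b (l 16739144) (l 16737304))) (l 16738136)))) (l 16737688)) (l 16736488))) (a (l 16736896) (a (a (a (b (l 16736008) (l 16734104)) (a (b (l 16735672) (l 16733704)) (l 16734352))) (l 16733776)) (l 16732568)))) (b (a (l 16738072) (a (a (a (l 16736232) (a (l 16735928) (a (a (l 16735808) (l 16746240)) (l 16735680)))) (l 16735240)) (l 16734048))) (a (l 16733864) (a (a (a (l 16737240) (a (b (l 16732784) (l 16730608)) (l 16731496))) (l 16730992)) (l 16729792)))))), by decide +kernel⟩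

def k131_A00pm_012_s1 : ∃ t, chk3 f_A00pm_012_s1 t 167 25 3 = true :=
  ⟨(a (a (c (b (b (l 16733928) (b (l 16731040) (l 16729080))) (b (b (a (l 16727536) (l 16726632)) (a (l 16725480) (l 16724480))) (l 16732136))) (b (b (l 16730336) (b (l 16726984) (l 16724712))) (b (b (a (l 16722848) (l 16721960)) (a (l 16720520) (l 16719624))) (l 16726976)))) (a (b (c (b (l 16732688) (b (l 16729784) (l 16727752))) (b (l 16729048) (b (l 16725672) (l 16723392)))) (b (b (l 16723512) (l 16721248)) (l 16717776))) (a (a (b (b (b (l 16731536) (l 16729472)) (b (l 16727344) (l 16725136))) (b (l 16721760) (l 16717152))) (a (b (b (b (l 16731384) (l 16729304)) (l 16731296)) (b (l 16721568) (l 16716960))) (a (b (b (b (l 16731304) (l 16729224)) (l 16725960)) (b (l 16721480) (l 16716864))) (b (b (b (l 16731256) (l 16729168)) (l 16725896)) (b (l 16721416) (l 16716800)))))) (b (b (b (l 16731016) (b (l 16729448) (l 16728368))) (l 16736104)) (b (l 16721136) (l 16716520)))))) (a (a (b (b (a (b (a (l 16730688) (l 16730440)) (l 16728408))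 (b (l 16719528) (l 16727848))) (a (l 16725104) (l 16714056))) (c (a (l 16720344) (b (l 16721864) (l 16706912))) (b (l 16697216) (a (l 16713624) (l 16713208))))) (a (a (b (b (l 16728528) (l 16724136)) (b (l 16719632) (l 16715000))) (a (b (b (l 16728376) (l 16723984)) (b (l 16719480) (l 16714840))) (a (b (b (l 16728304) (l 16723912)) (b (l 16719400) (l 16714768))) (b (b (l 16728248) (l 16723856)) (b (l 16719352) (l 16714712)))))) (b (b (l 16728024) (l 16723624)) (b (l 16719120) (l 16714480))))) (b (b (l 16727008) (l 16722608)) (b (l 16718088) (l 16713448))))), by decide +kernel⟩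

def k132_A00pm_012_s1 : ∃ t, chk3 f_A00pm_012_s1 t 334 26 1 = true :=
  ⟨(a (c (b (b (c (l 16724016) (l 16721224)) (l 16718576)) (l 16685520)) (b (b (l 16714456) (l 16709448)) (l 16701488))) (c (b (b (l 16720472) (l 16695216)) (b (l 16711656) (l 16706856))) (b (b (l 16712456) (l 16707432)) (b (l 16702192) (l 16696712))))), by decide +kernel⟩

def k133_A00pm_012_s1 : ∃ t, chk3 f_A00pm_012_s1 t 1340 26 1 = true :=
  ⟨(b (c (a (b (l 16718792) (l 16714456)) (a (b (l 16718096) (l 16713736)) (a (b (c (l 16708352) (l 16716144)) (a (l 16713312) (b (l 16714208) (l 16711952)))) (b (l 16717328) (l 16712936))))) (a (b (l 16711184) (l 16706152)) (b (a (l 16710752) (c (l 16712528) (l 16708144))) (a (l 16705720) (c (b (l 16708888) (l 16706392)) (l 16702968)))))) (a (c (b (l 16709880) (l 16705040)) (b (l 16700896) (l 16695416))) (c (a (b (l 16709128) (a (l 16704448) (l 16704128))) (a (b (a (b (l 16709872) (l 16707504)) (b (l 16709640) (l 16707256))) (a (b (l 16705064) (l 16702560)) (b (c (l 16706544) (l 16702896)) (c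 (l 16704112) (l 16700312))))) (b (b (l 16709480) (l 16707096)) (b (l 16704656) (l 16702144))))) (a (b (l 16700464) (c (l 16697600) (l 16692168))) (b (c (b (l 16703832) (l 16701216)) (b (l 16698944) (l 16696192))) (b (c (l 16698544) (l 16693392)) (c (l 16695816) (l 16690528)))))))), by decide +kernel⟩

def k134_A00pm_012_s1 : ∃ t, chk3 f_A00pm_012_s1 t 1341 26 1 = true :=
  ⟨(a (a (b (c (b (l 16717176) (l 16712784)) (b (l 16710184) (b (l 16706432) (l 16703856)))) (b (c (b (l 16709328) (l 16706952)) (b (l 16701224) (l 16698536))) (c (b (l 16704504) (l 16701992)) (b (l 16695800) (l 16693000))))) (a (b (c (b (l 16717032) (l 16712632)) (b (l 16710024) (b (l 16706272) (l 16703696)))) (b (c (l 16707992) (b (l 16701072) (l 16698384))) (c (b (l 16704352) (l 16701840)) (b (l 16695640) (l 16692848))))) (a (b (c (b (l 16716952) (l 16712552)) (b (l 16709944) (l 16704912))) (b (c (l 16707920) (b (l 16700992) (l 16698304))) (c (b (l 16704280) (l 16701768)) (b (l 16695568) (l 16692768))))) (b (c (b (l 16716904) (l 16712504))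 (b (l 16709896) (l 16704856))) (b (c (l 16707864) (b (l 16700944) (l 16698256))) (c (b (l 16704224) (l 16701720)) (b (l 16695512) (l 16692720)))))))) (b (c (b (l 16716672) (l 16712280)) (b (l 16709664) (b (l 16705912) (l 16703336)))) (b (c (b (l 16708832) (l 16706448)) (b (l 16700712) (l 16698024))) (c (b (l 16704000) (l 16701496)) (b (l 16695280) (l 16692488)))))), by decide +kernel⟩

def k135_A00pm_012_s1 : ∃ t, chk3 f_A00pm_012_s1 t 671 26 1 = true :=
  ⟨(b (c (b (l 16715672) (l 16711272)) (b (l 16708624) (b (l 16704872) (l 16702304)))) (b (c (b (l 16707824) (l 16705448)) (b (l 16699672) (l 16696992))) (c (b (l 16703008) (l 16700496)) (b (l 16694248) (l 16691456))))), by decide +kernel⟩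

def k136_A00pm_012_s1 : ∃ t, chk3 f_A00pm_012_s1 t 334 27 1 = true :=
  ⟨(a (b (c (l 16680688) (l 16669128)) (c (l 16690392) (l 16677768))) (a (b (c (l 16699848) (l 16688576)) (c (l 16688552) (l 16676232))) (a (a (b (b (l 16696776) (l 16691104)) (c (l 16687728) (l 16675576))) (a (b (b (l 16696536) (l 16690864)) (b (l 16684920) (l 16678704))) (a (b (b (l 16696416) (l 16690744)) (b (l 16684800) (l 16678584))) (b (b (l 16696336) (l 16690664)) (b (l 16684720) (l 16678504)))))) (b (b (l 16695960) (c (l 16695416) (l 16684304))) (b (l 16694824) (l 16699088)))))), by decide +kernel⟩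

def k137_A00pm_012_s1 : ∃ t, chk3 f_A00pm_012_s1 t 1340 27 1 = true :=
  ⟨(b (c (a (b (l 16699936) (l 16694544)) (a (b (a (l 16699320) (l 16699000)) (l 16698976)) (b (a (a (b (l 16699984) (l 16697344)) (b (c (l 16701624) (l 16697656)) (c (l 16699056) (l 16694936)))) (b (l 16699560) (l 16696920))) (a (a (b (l 16694632) (l 16691856)) (c (b (l 16696416) (l 16693704)) (b (l 16692152) (l 16689296)))) (b (l 16694200) (l 16691416)))))) (a (b (l 16689712) (l 16683768)) (b (a (c (l 16692024) (l 16686336)) (b (a (c (l 16693072) (l 16687664)) (l 16690296)) (c (l 16690168) (l 16684640)))) (a (l 16688568) (b (c (l 16687256) (l 16681616)) (c (l 16684280) (l 16678536))))))) (c (a (b (l 16688864) (l 16682872)) (a (b (l 16688032) (l 16682032)) (b (a (a (b (l 16689000) (l 16686064)) (b (l 16693968) (l 16685792))) (b (l 16688552) (l 16685616))) (a (a (l 16681520) (b (l 16682784) (l 16679696))) (l 16681064))))) (a (b (l 16677592) (l 16671176)) (b (a (l 16677152) (c (b (l 16681248) (l 16678144)) (l 16684288))) (a (l 16670736)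 (b (l 16682528) (l 16668776))))))), by decide +kernel⟩

def k138_A00pm_012_s1 : ∃ t, chk3 f_A00pm_012_s1 t 1341 27 1 = true :=
  ⟨(a (a (b (c (b (b (l 16699416) (l 16696768)) (b (l 16694056) (l 16691264))) (b (b (l 16690144) (l 16687232)) (b (l 16684256) (l 16681232)))) (b (c (b (l 16688408) (l 16685472)) (b (l 16678136) (l 16674992))) (c (l 16680920) (l 16670152)))) (a (b (c (b (b (l 16699264) (l 16696616)) (b (l 16693904) (l 16691120))) (b (b (l 16689992) (l 16687080)) (b (l 16684104) (l 16681072)))) (b (c (l 16692040) (b (l 16677984) (l 16674840))) (c (l 16680776) (l 16670000)))) (c (a (b (b (b (l 16699192) (l 16696544)) (b (l 16693832) (l 16691040))) (b (l 16691960) (l 16680696))) (b (b (b (l 16699144) (l 16696496)) (b (l 16693776) (l 16690992))) (b (l 16691912) (l 16680648)))) (a (b (b (b (l 16689912) (l 16687000)) (b (l 16684032) (l 16681000))) (b (b (l 16677912) (l 16674760)) (l 16669920))) (b (b (b (l 16689864) (l 16686944)) (b (l 16683976) (l 16680944))) (b (b (l 16677856) (l 16674712)) (l 16669872)))))))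 (b (c (b (b (l 16698920) (l 16696272)) (b (l 16693560) (l 16690768))) (b (b (l 16689632) (l 16686720)) (b (l 16683744) (l 16680720)))) (b (c (b (l 16687912) (l 16684976)) (b (l 16677632) (l 16674480))) (c (l 16680432) (l 16669640))))), by decide +kernel⟩

def k139_A00pm_012_s1 : ∃ t, chk3 f_A00pm_012_s1 t 671 27 1 = true :=
  ⟨(b (b (c (b (l 16697920) (l 16695280)) (b (l 16688600) (l 16685688))) (c (b (l 16692568) (l 16689784)) (b (l 16682720) (l 16679696)))) (b (c (b (l 16686928) (l 16683992)) (b (l 16676608) (l 16673464))) (c (l 16689936) (l 16679112)))), by decide +kernel⟩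

def k140_A00pm_012_s1 : ∃ t, chk3 f_A00pm_012_s1 t 21 24 1 = true :=
  ⟨(a (b (a (c (c (b (b (l 16747976) (l 16746600)) (a (l 16737192) (l 16730920))) (a (b (l 16740056) (l 16737080)) (b (l 16733760) (l 16730744)))) (a (b (c (l 16739432) (l 16738096)) (b (l 16736168) (l 16734320))) (b (l 16732696) (l 16729008)))) (c (a (b (l 16727520) (l 16724600)) (b (l 16721280) (l 16718320))) (b (a (l 16726608) (l 16720584)) (l 16740768)))) (b (c (c (a (a (b (l 16735072) (l 16733592)) (l 16738552)) (l 16739600)) (a (b (l 16731584) (a (l 16733096) (l 16726752))) (l 16718088))) (a (a (c (l 16742984) (l 16751088)) (b (l 16726128) (l 16724120))) (a (l 16718888) (l 16712712)))) (c (c (a (a (l 16731184) (l 16724904)) (l 16715480)) (a (l 16748160) (l 16714520))) (a (c (l 16746344) (l 16743608)) (c (l 16712728) (l 16710136)))))) (b (a (c (c (l 16731456) (l 16731448)) (b (l 16711672) (l 16707728))) (c (b (l 16700024) (l 16696696)) (l 16677008))) (c (a (b (l 16695392) (l 16723544)) (b (l 16693456) (l 16690112))) (a (b (l 16703584)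 (l 16699200)) (b (l 16691632) (l 16687128)))))), by decide +kernel⟩

def k141_A00pm_012_s1 : ∃ t, chk3 f_A00pm_012_s1 t 21 25 1 = true :=
  ⟨(b (b (a (a (c (a (l 16727328) (l 16720960)) (l 16719760)) (c (l 16711448) (l 16707048))) (c (a (l 16698872) (l 16686416)) (a (l 16694592) (l 16682392)))) (a (c (a (a (l 16723616) (l 16717224)) (l 16728648)) (a (a (l 16718528) (l 16712056)) (l 16691984))) (a (c (l 16695056) (l 16689896)) (c (l 16682568) (l 16677576))))) (c (a (a (a (b (l 16725016) (b (l 16716808) (l 16714784))) (b (l 16713360) (l 16709368))) (b (c (l 16704800) (l 16702576)) (a (l 16702944) (l 16696568)))) (a (b (l 16691120) (l 16708040)) (b (l 16678600) (l 16674512)))) (a (a (a (b (l 16708736) (a (l 16700480) (l 16707664))) (b (l 16707456) (l 16692272))) (b (a (l 16700992) (l 16694592)) (a (l 16696232) (l 16689784)))) (a (b (l 16685112) (l 16664496)) (a (l 16652296) (l 16646112)))))), by decide +kernel⟩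

def k142_A00pm_012_s1 : ∃ t, chk3 f_A00pm_012_s1 t 21 26 1 = true :=
  ⟨(a (b (a (c (a (b (b (l 16712704) (l 16710576)) (b (l 16708384) (l 16706136))) (b (b (l 16706264) (l 16704144)) (b (l 16701960) (l 16699720)))) (c (b (a (l 16706576) (l 16700016)) (a (l 16701696) (l 16695144))) (a (b (l 16702224) (b (l 16698368) (l 16695728))) (b (l 16695616) (l 16690440))))) (c (b (b (l 16717632) (l 16715504)) (c (l 16713824) (l 16710440))) (b (a (l 16701848) (l 16684872)) (c (l 16706352) (l 16701576))))) (a (a (b (c (b (l 16709064) (c (l 16703144) (l 16699576))) (c (b (l 16697888) (l 16695280)) (b (l 16693032) (l 16690288)))) (c (c (b (l 16700792) (l 16698376)) (b (l 16697056) (l 16694480))) (c (b (l 16692616) (l 16689888)) (b (l 16687488) (l 16684632))))) (c (b (b (l 16697424) (l 16695064)) (b (l 16692640) (l 16690152))) (b (c (l 16690056) (l 16685056)) (c (l 16684744) (l 16679472))))) (c (b (c (l 16709448) (l 16705712)) (c (l 16694328) (l 16690248))) (b (c (l 16701288) (l 16696208)) (c (l 16696000) (l 16690632))))))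 (b (a (c (b (c (l 16684360) (l 16681216)) (c (l 16680224) (l 16676680))) (b (a (l 16678432) (l 16672056)) (a (l 16673360) (l 16666952)))) (b (c (l 16670296) (l 16662608)) (c (l 16686904) (l 16657432)))) (a (c (b (a (l 16677168) (l 16670848)) (a (l 16672400) (l 16666112))) (b (a (l 16668144) (l 16661712)) (a (l 16662728) (l 16656304)))) (c (b (l 16682392) (c (l 16658840) (l 16654424))) (b (l 16673128) (l 16667720)))))), by decide +kernel⟩

def k143_A00pm_012_s1 : ∃ t, chk3 f_A00pm_012_s1 t 21 27 1 = true :=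
  ⟨(a (b (a (a (c (b (c (b (l 16695888) (l 16693328)) (b (l 16691832) (l 16689128))) (c (b (l 16690704) (l 16688000)) (b (l 16686352) (l 16683512)))) (b (c (b (l 16687112) (l 16684264)) (a (l 16681896) (l 16678592))) (c (b (l 16681360) (l 16678400)) (b (l 16675752) (l 16672680))))) (c (b (c (l 16688328) (l 16684088)) (c (l 16683104) (l 16678568))) (b (c (l 16679192) (l 16673672)) (c (l 16673416) (l 16667664))))) (b (c (a (c (l 16682064) (l 16677712)) (l 16673664)) (c (l 16690488) (l 16684856))) (c (c (l 16684240) (l 16690032)) (c (l 16684744) (l 16678880))))) (a (c (b (a (c (l 16694280) (l 16689600)) (c (l 16677576) (l 16672768))) (a (b (l 16687552) (l 16673992)) (b (l 16670800) (l 16667744)))) (b (a (c (l 16684320) (l 16678456)) (c (l 16667392) (l 16661448))) (a (b (l 16687184) (l 16662960)) (c (l 16661120) (l 16655024))))) (c (b (c (l 16689248) (l 16684280)) (a (l 16684016) (l 16656832))) (b (c (l 16678768) (l 16672712)) (a (l 16651720) (l 16645336)))))) (b (b (c (a (c (l 16666472) (l 16661880)) (l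 16672728)) (a (a (l 16657104) (l 16650696)) (l 16641168))) (c (a (c (l 16661352) (l 16656456)) (l 16667512)) (a (a (l 16651272) (l 16644888)) (l 16635384)))) (c (a (b (c (l 16655928) (l 16650768)) (l 16668528)) (b (l 16682984) (l 16635256))) (a (b (l 16663032) (l 16677760)) (c (l 16671400) (l 16665024)))))), by decide +kernel⟩

def k144_A00pm_012_s1 : ∃ t, chk3 f_A00pm_012_s1 t 11 12 1 = true :=
  ⟨(c (b (b (a (a (c (l 16722584) (l 16722752)) (b (l 16660616) (l 16656376))) (a (l 16679936) (l 16619440))) (a (a (b (l 16675328) (a (l 16677840) (l 16665800))) (c (l 16692376) (l 16650104))) (a (l 16670376) (l 16692248)))) (a (b (a (a (b (l 16674088) (l 16670216)) (b (l 16661976) (l 16658000))) (b (a (l 16650128) (l 16638600)) (l 16682104))) (a (b (a (l 16666224) (l 16653992)) (a (l 16662112) (l 16649856))) (b (l 16677896) (a (l 16637752) (l 16625784))))) (a (b (a (l 16583176) (l 16614136)) (b (l 16612792) (l 16650280))) (b (c (l 16682728) (l 16597728)) (c (l 16589496) (l 16587496)))))) (b (a (b (a (b (l 16683008)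 (l 16678704)) (l 16700864)) (a (a (l 16656640) (l 16666104)) (a (l 16654848) (l 16643840)))) (b (a (l 16721424) (l 16616840)) (a (l 16627816) (l 16606872)))) (a (a (b (a (l 16647008) (l 16614280)) (a (b (l 16660488) (l 16655392)) (b (l 16648552) (l 16643344)))) (a (b (l 16602776) (l 16592264)) (b (l 16633472) (l 16622712)))) (a (b (a (l 16622456) (l 16611680)) (a (l 16611472) (l 16600472))) (b (l 16554056) (l 16542488)))))), by decide +kernel⟩

def k145_A00pm_012_s1 : ∃ t, chk3 f_A00pm_012_s1 t 11 13 1 = true :=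
  ⟨(b (a (a (c (a (b (b (l 16657864) (l 16653480)) (b (l 16648944) (l 16644248))) (b (b (l 16645584) (l 16641184)) (b (l 16636624) (l 16631904)))) (b (b (a (l 16650216) (l 16638064)) (a (l 16644944) (l 16632704))) (b (a (l 16639592) (l 16627256)) (a (l 16634144) (l 16621728))))) (a (b (c (b (l 16633456) (l 16629032)) (l 16591960)) (c (b (l 16624456) (l 16619728)) (b (l 16615160) (l 16609552)))) (b (c (b (l 16621488) (l 16617040)) (l 16611704)) (c (b (l 16612448) (l 16607696)) (l 16600448))))) (c (a (b (b (l 16645784) (l 16641256)) (b (l 16636680) (l 16631912))) (b (c (l 16580464) (l 16577352)) (c (l 16613312) (l 16567112)))) (a (b (a (l 16600240) (l 16589016)) (c (l 16585464) (l 16580600))) (b (a (l 16578032) (l 16567288)) (c (l 16562832) (l 16558520)))))) (c (a (a (b (b (c (l 16677544) (l 16672584)) (c (l 16672568) (l 16667280))) (a (c (l 16670624) (l 16623048)) (b (l 16616552) (l 16610896)))) (a (b (b (l 16614824) (l 16609736)) (b (l 16604416) (l 16598840))) (b (c (l 16602872) (l 16597520)) (l 16631576))))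 (a (b (b (l 16626976) (l 16621856)) (c (l 16616896) (l 16568832))) (b (c (l 16562016) (l 16556656)) (c (l 16551792) (l 16545592))))) (a (a (b (b (a (l 16628560) (l 16616120)) (a (l 16622824) (l 16610384))) (a (b (l 16616888) (l 16610768)) (l 16643408))) (b (b (l 16639792) (l 16634016)) (c (l 16628336) (l 16621816)))) (a (b (c (l 16574168) (l 16568368)) (c (l 16562552) (l 16556120))) (b (c (l 16551256) (l 16545824)) (l 16599200)))))), by decide +kernel⟩

def k146_A00pm_012_s1 : ∃ t, chk3 f_A00pm_012_s1 t 80 28 1 = true :=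
  ⟨(b (c (a (b (b (a (l 16710816) (c (l 16715704) (l 16727120))) (a (a (l 16709048) (l 16718136)) (c (l 16725592) (l 16724040)))) (c (b (l 16726144) (l 16722688)) (c (l 16721584) (l 16708880)))) (b (a (b (a (l 16716560) (l 16725368)) (l 16712408)) (b (l 16712344) (l 16719520))) (c (l 16718144) (l 16713584)))) (c (a (b (b (a (l 16725416) (l 16722136)) (a (l 16722560) (l 16718960))) (a (l 16707072) (l 16713792))) (b (a (b (l 16718552) (l 16715200)) (l 16723592)) (c (l 16709584) (l 16706656)))) (b (b (a (a (l 16720120) (l 16705728)) (a (l 16712184) (l 16708128))) (a (a (l 16717024) (l 16712976)) (l 16706856))) (a (c (l 16711544) (l 16708544)) (a (l 16703904) (l 16699816)))))) (c (a (c (b (b (l 16718848) (l 16714824)) (a (l 16688984) (l 16706888))) (b (a (l 16714744) (l 16711328)) (a (l 16706752) (l 16703368)))) (b (a (l 16689136) (l 16685816)) (a (a (l 16681784) (l 16680152)) (c (l 16700640) (l 16696528))))) (c (a (b (a (l 16710464) (l 16706704)) (a (l 16692616) (l 16699352))) (b (l 16701064) (a (l 16695608)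 (l 16691848)))) (a (b (b (l 16705144) (l 16691376)) (b (l 16688096) (l 16690048))) (b (l 16695264) (a (l 16690720) (l 16686608))))))), by decide +kernel⟩

def k147_A00pm_012_s1 : ∃ t, chk3 f_A00pm_012_s1 t 81 28 1 = true :=
  ⟨(b (c (a (c (b (l 16718392) (l 16711600)) (b (l 16718696) (l 16685592))) (c (b (l 16711608) (l 16704872)) (b (l 16685312) (l 16699432)))) (c (a (b (c (l 16709048) (l 16705784)) (l 16700600)) (b (l 16699872) (l 16693032))) (a (b (b (l 16723056) (l 16698752)) (l 16683248)) (b (l 16713376) (l 16685688))))) (b (a (c (a (l 16682456) (l 16679064)) (a (l 16692368) (l 16688456))) (c (a (l 16696608) (l 16693128)) (a (l 16684544) (l 16680648)))) (c (c (a (l 16695832) (l 16689264)) (a (l 16691328) (l 16684296))) (a (a (l 16674896) (l 16660496)) (b (l 16656400) (l 16652872)))))), by decide +kernel⟩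

def k148_A00pm_012_s1 : ∃ t, chk3 f_A00pm_012_s1 t 40 58 1 = true :=
  ⟨(c (b (b (a (a (a (c (l 16703168) (l 16700448)) (c (l 16700136) (l 16697088))) (a (l 16684952) (l 16692192))) (a (a (l 16688904) (l 16685584)) (l 16670024))) (a (a (a (c (l 16698496) (l 16696160)) (c (l 16695496) (l 16692816))) (a (l 16685752) (l 16687768))) (a (a (l 16684504) (l 16681208)) (a (l 16677872) (l 16674488))))) (a (b (c (a (a (l 16693744) (l 16690776)) (a (l 16687776) (l 16684728))) (a (a (l 16691840) (l 16688520)) (a (l 16685176) (l 16681808)))) (a (a (c (b (l 16690128) (l 16687696)) (l 16692712)) (c (l 16685976) (l 16684168))) (c (a (l 16683008) (l 16679992)) (a (l 16680848) (l 16677504))))) (a (a (c (l 16668800) (l 16665784)) (c (l 16676168) (l 16672864))) (a (c (l 16673000) (l 16669424)) (l 16678384))))) (a (a (b (b (a (c (l 16697416) (l 16694080)) (l 16686600)) (a (c (l 16693608) (l 16690824)) (c (l 16689872) (l 16686656)))) (b (a (c (l 16689800) (l 16687632)) (c (l 16686080) (l 16683456))) (a (c (a (l 16686912)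 (l 16685056)) (l 16673976)) (c (l 16682272) (l 16680296))))) (a (b (c (l 16677568) (l 16673664)) (c (b (l 16682352) (l 16678552)) (b (l 16679304) (l 16676136)))) (b (c (l 16684312) (l 16680024)) (c (b (l 16678624) (l 16674840)) (b (l 16675176) (l 16672000)))))) (c (a (b (a (l 16680568) (l 16676816)) (a (l 16673000) (l 16669264))) (b (l 16671176) (l 16653160))) (a (b (l 16663392) (a (l 16669464) (l 16665376))) (b (l 16665752) (l 16648792)))))), by decide +kernel⟩

def k149_A00pm_012_s1 : ∃ t, chk3 f_A00pm_012_s1 t 40 118 1 = true :=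
  ⟨(a (a (b (c (c (a (c (l 16684264) (l 16683768)) (l 16686344)) (a (c (l 16683288) (l 16682816)) (l 16685008))) (a (c (c (l 16682360) (l 16681920)) (a (l 16682320) (l 16680240))) (c (l 16678440) (l 16677120)))) (c (c (a (c (l 16679200) (l 16678928)) (c (l 16676384) (l 16675936))) (a (c (l 16678688) (l 16678480)) (c (l 16675512) (l 16675112)))) (a (c (c (l 16678312) (l 16678176)) (c (l 16678072) (l 16678008))) (c (c (l 16674736) (l 16674384)) (a (l 16674936) (l 16672872)))))) (b (c (a (c (l 16678152) (l 16676464)) (c (l 16675168) (l 16673136))) (c (a (l 16674736) (l 16671032)) (a (l 16672968) (l 16668840)))) (c (a (c (l 16673224) (l 16672024)) (c (l 16670264) (l 16668720))) (c (c (l 16679848) (l 16679184)) (a (l 16669776) (l 16665656)))))) (b (a (c (a (c (l 16672144) (l 16669792)) (l 16678248)) (a (c (l 16667312) (l 16664720)) (l 16672616))) (c (a (l 16664504) (l 16661192)) (a (l 16658232) (l 16654344)))) (a (c (a (c (l 16667264) (l 16665392)) (c (l 16664224) (l 16662032))) (a (c (l 16663480) (l 16661544))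 (c (l 16659776) (l 16657448)))) (c (a (l 16670392) (l 16656632)) (a (l 16665216) (l 16650840)))))), by decide +kernel⟩

def k150_A00pm_012_s1 : ∃ t, chk3 f_A00pm_012_s1 t 40 119 1 = true :=
  ⟨(a (a (c (c (b (a (c (l 16674080) (l 16674024)) (l 16676400)) (a (c (l 16668896) (l 16669056)) (l 16671336))) (b (a (c (l 16674024) (l 16674080)) (c (l 16670864) (l 16670728))) (a (c (l 16669288) (l 16669600)) (l 16671448)))) (c (b (a (c (l 16674192) (l 16674360)) (c (l 16670640) (l 16670592))) (a (c (l 16669992) (l 16670456)) (c (l 16666456) (l 16666704)))) (b (a (c (l 16674576) (l 16674856)) (a (l 16671624) (l 16669576))) (a (c (l 16670992) (l 16671608)) (c (l 16667024) (l 16667400)))))) (c (c (b (a (l 16668240) (l 16665288)) (c (l 16667096) (l 16666840))) (b (a (l 16667520) (l 16664232)) (c (l 16666640) (l 16666480)))) (c (b (a (l 16666944) (l 16663272)) (c (l 16666376) (l 16666320))) (a (b (l 16671744) (c (l 16663056) (l 16663208))) (b (l 16662400) (l 16659056)))))) (b (a (c (a (c (l 16662304) (l 16660920))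 (c (l 16659296) (l 16657584))) (a (c (l 16659592) (l 16658312)) (c (l 16655896) (l 16654232)))) (c (a (c (l 16656232) (l 16654224)) (l 16662464)) (c (l 16660824) (l 16648136)))) (a (c (c (a (l 16657296) (l 16654288)) (a (l 16656384) (l 16653064))) (c (a (l 16655616) (l 16651944)) (a (l 16654992) (l 16650936)))) (c (a (c (l 16651248) (l 16649720)) (c (l 16648160) (l 16646352))) (a (c (l 16648264) (l 16646888)) (c (l 16644576) (l 16642840))))))), by decide +kernel⟩

def k151_A00pm_012_s1 : ∃ t, chk3 f_A00pm_012_s1 t 41 28 1 = true :=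
  ⟨(a (b (c (c (a (l 16701296) (l 16662528)) (a (b (l 16698960) (l 16692144)) (l 16688048))) (a (b (a (l 16690432) (l 16686552)) (l 16681688)) (b (l 16680712) (l 16673888)))) (b (a (c (l 16666832) (l 16674800)) (c (l 16680448) (l 16666992))) (c (a (l 16679872) (l 16672592)) (a (l 16646832) (l 16660000))))) (a (b (c (b (l 16665520) (l 16679792)) (a (l 16671432) (l 16709424))) (c (b (l 16672544) (l 16664744)) (b (l 16659120) (l 16652120)))) (c (b (b (a (a (l 16681128) (l 16678520)) (a (a (a (l 16676568) (a (l 16675712) (b (l 16687120) (l 16683872)))) (l 16674296)) (l 16673120))) (a (a (l 16674440) (l 16671832)) (a (a (a (l 16669864) (a (l 16669000) (b (l 16670032) (l 16666536)))) (l 16667568)) (l 16666400)))) (b (a (l 16686736) (a (a (a (l 16662624) (a (l 16661752) (l 16661040))) (l 16660312)) (l 16659152))) (a (l 16658000) (a (c (l 16677168) (l 16651208)) (l 16651384))))) (b (b (a (a (l 16667896) (l 16665816)) (a (a (a (l 16664512) (a (l 16664064) (b (l 16665440) (l 16662048)))) (l 16663184)) (l 16661976)))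 (a (l 16649488) (a (a (a (l 16657664) (a (l 16657224) (l 16656896))) (l 16656336)) (l 16655144)))) (b (a (l 16653064) (c (l 16673256) (l 16646072))) (a (l 16646056) (l 16663224))))))), by decide +kernel⟩

def k152_A00pm_012_s1 : ∃ t, chk3 f_A00pm_012_s1 t 41 29 1 = true :=
  ⟨(a (b (b (a (c (a (l 16673216) (l 16669704)) (c (l 16663608) (l 16657712))) (c (l 16643280) (l 16652920))) (a (c (a (l 16664496) (l 16661032)) (c (l 16656120) (l 16651224))) (c (a (l 16657496) (l 16653848)) (l 16666896)))) (a (b (c (a (c (l 16657160) (l 16653928)) (c (l 16653856) (l 16650408))) (c (l 16632880) (l 16644856))) (b (c (a (l 16648680) (l 16645312)) (a (l 16643424) (l 16639544))) (c (a (l 16654464) (l 16640640)) (a (l 16639840) (l 16635968))))) (a (c (b (l 16648672) (b (l 16641872) (l 16637232))) (b (l 16640928) (c (l 16635352) (l 16632448)))) (c (b (l 16645080) (b (l 16638328) (l 16633720))) (b (l 16637040) (l 16630024)))))) (b (c (b (a (l 16656480) (a (l 16649784) (l 16686720))) (a (l 16689920) (a (l 16641344) (l 16636352))))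 (b (a (l 16645048) (a (l 16638992) (l 16635208))) (a (l 16638056) (a (l 16632008) (l 16628248))))) (c (b (a (a (l 16641344) (l 16637376)) (a (l 16632736) (l 16627776))) (a (a (l 16632376) (l 16628464)) (a (l 16644864) (l 16618976)))) (a (b (l 16652104) (a (l 16626128) (l 16622184))) (a (a (l 16580856) (l 16620728)) (l 16576080)))))), by decide +kernel⟩

def k153_A00pm_012_s1 : ∃ t, chk3 f_A00pm_012_s1 t 21 14 1 = true :=
  ⟨(b (b (a (a (c (b (a (b (l 16670832) (l 16667600)) (l 16683976)) (b (l 16682128) (l 16657688))) (b (a (b (l 16659648) (l 16656272)) (l 16672520)) (b (l 16670656) (l 16646280)))) (c (b (b (l 16676272) (l 16652104)) (l 16668072)) (b (c (l 16645104) (l 16638784)) (l 16677264)))) (c (b (a (l 16662376) (l 16629168)) (c (l 16673560) (l 16667800))) (b (a (l 16671312) (l 16616848)) (a (l 16622768) (l 16610336))))) (a (b (c (a (l 16673200) (l 16639968)) (a (l 16683096) (l 16628592))) (c (a (l 16644496) (l 16632304)) (a (l 16634240) (l 16621800)))) (c (b (a (l 16627792) (l 16615704)) (l 16656152))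 (b (a (l 16616144) (l 16603800)) (l 16645304))))) (b (a (c (b (l 16672232) (l 16621952)) (b (l 16663088) (l 16614352))) (c (b (l 16606240) (l 16598064)) (b (l 16596728) (l 16590224)))) (a (c (b (l 16613464) (l 16604760)) (b (l 16607664) (l 16600936))) (c (l 16627576) (l 16538864))))), by decide +kernel⟩

def k154_A00pm_012_s1 : ∃ t, chk3 f_A00pm_012_s1 t 40 120 1 = true :=
  ⟨(a (c (b (a (c (a (l 16663760) (l 16660904)) (a (l 16669936) (l 16661472))) (c (a (l 16658024) (l 16655104)) (a (l 16658240) (l 16654984)))) (a (c (a (l 16658336) (l 16655504)) (a (l 16659704) (l 16656512))) (c (a (l 16652640) (l 16649744)) (a (l 16653296) (l 16650064))))) (a (a (c (b (c (l 16665640) (l 16666384)) (l 16666768)) (b (c (l 16667232) (l 16668176)) (c (l 16663192) (l 16664448)))) (b (c (l 16667624) (c (l 16663280) (l 16663992))) (c (l 16663176) (c (l 16659264) (l 16660288))))) (c (b (a (l 16658760) (l 16655128)) (c (l 16652280) (l 16652792))) (a (b (c (l 16659336) (l 16659824)) (l 16660976)) (b (l 16655528) (l 16651704))))))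 (a (a (c (b (c (l 16652160) (l 16651712)) (c (l 16646816) (l 16646808))) (c (b (l 16651488) (l 16647104)) (b (l 16651488) (l 16647696)))) (c (b (c (l 16649176) (l 16648416)) (c (l 16643856) (l 16643536))) (c (b (l 16647840) (l 16643480)) (b (l 16647456) (l 16643688))))) (c (c (b (a (l 16646152) (l 16643080)) (a (l 16640848) (l 16637800))) (b (a (l 16645088) (l 16641736)) (a (l 16640232) (l 16636896)))) (c (b (a (l 16644184) (l 16640512)) (a (l 16639840) (l 16636192))) (a (b (l 16643432) (l 16639688)) (b (l 16639416) (l 16635696))))))), by decide +kernel⟩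

def k155_A00pm_012_s1 : ∃ t, chk3 f_A00pm_012_s1 t 40 121 1 = true :=
  ⟨(a (c (a (c (b (a (l 16652704) (l 16649888)) (a (l 16646872) (l 16644088))) (b (a (l 16654488) (l 16651312)) (a (l 16649040) (l 16645896)))) (c (b (a (l 16647048) (l 16644184)) (a (l 16641272) (l 16638424))) (a (b (l 16648120) (l 16642728)) (b (l 16644912) (l 16639544))))) (c (a (b (c (l 16654432) (l 16655608)) (c (l 16649336) (l 16650760))) (b (c (l 16647472) (l 16648240)) (a (l 16644696) (l 16641128)))) (a (b (c (a (l 16658872) (l 16654960)) (a (l 16660416) (l 16656280))) (c (l 16652328) (a (l 16656096) (l 16651976)))) (b (a (l 16656840) (l 16647592)) (a (l 16657656) (l 16643192)))))) (a (c (c (a (b (l 16641272) (l 16635544)) (b (l 16638336) (l 16632624))) (b (a (l 16641680) (l 16638424)) (a (l 16636336) (l 16633104)))) (c (b (a (l 16642456) (l 16638856)) (a (l 16637560) (l 16633984))) (a (b (l 16643600) (l 16639224)) (b (l 16639624) (l 16635264))))) (c (c (b (a (l 16635352) (l 16632320)) (a (l 16629664) (l 16626664))) (b (a (l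 16635144) (l 16631832)) (a (l 16629840) (l 16626552)))) (a (c (b (l 16635240) (l 16630392)) (b (l 16635648) (l 16631320))) (c (b (l 16631616) (l 16626792)) (b (l 16631680) (l 16627376))))))), by decide +kernel⟩

def k156_A00pm_012_s1 : ∃ t, chk3 f_A00pm_012_s1 t 40 122 1 = true :=
  ⟨(a (b (c (c (a (l 16639472) (a (l 16635312) (l 16632488))) (a (a (l 16643384) (l 16640264)) (a (l 16637120) (l 16633960)))) (a (c (c (l 16644000) (l 16645656)) (c (l 16647464) (l 16649432))) (c (a (l 16639512) (l 16635968)) (c (l 16639752) (l 16641272))))) (c (c (a (l 16633312) (l 16627792)) (a (a (l 16637536) (l 16634440)) (a (l 16631320) (l 16628192)))) (c (a (c (l 16638456) (l 16640312)) (c (l 16631632) (l 16633072))) (a (a (l 16650640) (l 16646688)) (c (l 16634672) (l 16636424)))))) (c (a (c (b (a (l 16629640) (l 16626752)) (a (l 16623576) (l 16620712))) (b (a (l 16630776) (l 16627576)) (a (l 16625032) (l 16621856)))) (c (b (a (l 16623816) (l 16620840)) (a (l 16617816) (l 16614864))) (b (a (l 16624344) (l 16621080)) (l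 16627512)))) (a (c (c (b (l 16630232) (l 16624776)) (b (l 16631088) (l 16625832))) (b (c (l 16632064) (l 16633168)) (c (l 16627032) (l 16628360)))) (c (b (a (l 16625304) (l 16621728)) (l 16628696)) (b (a (l 16626704) (l 16622792)) (a (l 16621816) (l 16617928))))))), by decide +kernel⟩

def k157_A00pm_012_s1 : ∃ t, chk3 f_A00pm_012_s1 t 40 123 1 = true :=
  ⟨(a (c (c (a (c (l 16623056) (l 16624416)) (c (l 16617864) (l 16618880))) (a (c (l 16625968) (l 16638200)) (c (l 16630552) (b (l 16624456) (l 16618376))))) (c (c (a (b (l 16632664) (l 16626632)) (b (l 16625920) (l 16619976))) (b (a (l 16634704) (l 16627544)) (a (l 16628848) (l 16621768)))) (a (b (c (l 16636944) (l 16639360)) (c (l 16631256) (l 16633864))) (b (c (l 16629336) (l 16631296)) (c (l 16623728) (l 16625872)))))) (c (a (c (c (l 16622976) (l 16623672)) (b (l 16617536) (l 16621952))) (c (a (l 16629520) (l 16616136)) (a (l 16620264) (l 16617072)))) (a (c (b (c (l 16619112) (l 16620352)) (c (l 16613256) (l 16614648))) (b (c (l 16621736) (l 16623280))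 (c (l 16616200) (l 16617920)))) (c (b (l 16623168) (l 16606952)) (b (a (l 16616664) (l 16612792)) (c (l 16608672) (l 16610000))))))), by decide +kernel⟩

def k158_A00pm_012_s1 : ∃ t, chk3 f_A00pm_012_s1 t 40 62 1 = true :=
  ⟨(c (c (b (a (a (c (l 16609680) (l 16611216)) (c (l 16604744) (l 16605928))) (a (c (l 16599584) (l 16600432)) (c (l 16594224) (l 16594776)))) (a (a (c (l 16595864) (l 16597472)) (c (l 16591208) (l 16592448))) (a (c (l 16586360) (l 16587248)) (b (l 16584824) (l 16578256))))) (b (a (b (a (l 16617232) (l 16611304)) (a (l 16610592) (l 16604784))) (a (c (l 16601456) (l 16613144)) (c (l 16595480) (l 16596352)))) (a (c (a (l 16599304) (l 16593888)) (a (l 16601376) (l 16595536))) (a (c (l 16588328) (l 16589592)) (b (l 16586320) (l 16579736)))))) (c (c (a (b (a (b (l 16620352) (l 16613840)) (b (l 16613816) (l 16607408))) (a (b (l 16607112) (l 16600200)) (b (l 16600792) (l 16593984)))) (b (a (b (l 16607184) (l 16600896)) (l 16602624)) (a (b (l 16594392) (l 16587696)) (b (l 16587896) (l 16581312)))))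 (a (b (a (b (l 16622696) (l 16616280)) (b (l 16615728) (l 16609408))) (a (b (l 16609616) (l 16602736)) (b (l 16602848) (l 16596064)))) (b (a (b (l 16608688) (l 16602488)) (b (l 16601608) (l 16595496))) (a (b (l 16596032) (l 16589352)) (b (l 16589152) (l 16582584)))))) (a (b (a (c (b (l 16625248) (l 16618936)) (b (l 16628008) (l 16621808))) (c (b (l 16617824) (l 16611608)) (b (l 16620112) (l 16614000)))) (a (b (c (l 16612344) (l 16615304)) (c (l 16605512) (l 16608520))) (c (b (l 16605104) (l 16598360)) (b (l 16607576) (l 16600864))))) (b (a (c (b (l 16610376) (l 16604264)) (b (l 16612232) (l 16606216))) (b (c (l 16602920) (l 16604384)) (c (l 16596888) (l 16598440)))) (a (c (b (l 16597856) (l 16591200)) (b (l 16599872) (l 16593240))) (b (c (l 16590584) (l 16592192)) (c (l 16584024) (l 16585648)))))))), by decide +kernel⟩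

def k159_A00pm_012_s1 : ∃ t, chk3 f_A00pm_012_s1 t 40 63 2 = true :=
  ⟨(c (a (b (a (b (l 16586048) (l 16578872)) (b (l 16581424) (l 16574384))) (a (b (l 16571616) (l 16564296)) (b (l 16567280) (l 16560104)))) (b (a (b (l 16576616) (l 16569728)) (b (l 16571600) (l 16564872))) (a (b (l 16562768) (l 16555752)) (b (l 16558064) (l 16551208))))) (a (b (a (b (l 16589728) (l 16582520)) (b (l 16584288) (l 16577192))) (a (b (l 16575200) (l 16567808)) (b (l 16570000) (c (l 16561992) (l 16563528))))) (b (a (b (l 16578728) (l 16571760)) (b (l 16573024) (l 16566184))) (a (b (c (l 16564136) (l 16565304)) (c (l 16557024) (l 16558120))) (b (c (l 16558888) (l 16559664)) (c (l 16551912) (l 16552616))))))), by decide +kernel⟩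

def k160_A00pm_012_s1 : ∃ t, chk3 f_A00pm_012_s1 t 40 63 3 = true :=
  ⟨(c (a (b (c (a (b (l 16593112) (l 16585888)) (b (l 16587008) (l 16579880))) (b (a (l 16595672) (l 16589088)) (a (l 16588440) (l 16581944)))) (a (b (c (l 16578536) (l 16581072)) (c (l 16571096) (l 16573592))) (b (c (l 16572632) (l 16574664)) (c (l 16565288) (l 16567280))))) (b (a (b (c (l 16580824) (l 16582472)) (c (l 16573808) (l 16575424))) (b (c (l 16574560) (l 16575808)) (c (l 16567656) (l 16568864)))) (a (b (c (l 16566672) (l 16568240)) (c (l 16559432) (l 16560944))) (b (c (l 16560632) (l 16561776)) (c (l 16553504) (l 16554576)))))) (a (b (c (a (b (l 16598464) (l 16591232)) (b (l 16591392) (l 16584232))) (a (b (l 16601496) (l 16594264)) (b (l 16593904) (l 16586736)))) (b (a (c (l 16583840) (c (l 16586088) (l 16587656))) (c (l 16576920) (c (l 16578760) (l 16580056)))) (a (c (l 16576344) (a (l 16581200) (l 16577480))) (c (l 16569488) (c (l 16571296) (l 16572576)))))) (b (a (b (c (l 16584320) (l 16586360)) (c (l 16577248) (l 16579264)))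 (b (c (l 16577240) (l 16578848)) (c (l 16570256) (l 16571824)))) (a (b (c (l 16570016) (c (l 16571472) (l 16572512))) (c (l 16562656) (c (l 16564080) (l 16565088)))) (b (c (l 16563104) (l 16564624)) (c (l 16555832) (a (l 16559096) (l 16555456)))))))), by decide +kernel⟩

def k161_A00pm_012_s1 : ∃ t, chk3 f_A00pm_012_s1 t 82 30 1 = true :=
  ⟨(b (a (c (a (b (c (b (l 16639952) (l 16634688)) (b (l 16638344) (l 16633520))) (c (b (l 16629232) (l 16623600)) (b (l 16628480) (l 16623224)))) (b (b (l 16635824) (c (l 16631520) (l 16630104))) (c (b (l 16626080) (l 16620472)) (l 16622488)))) (b (c (a (l 16634704) (l 16631000)) (a (l 16633592) (l 16629592))) (b (c (l 16636632) (l 16625752)) (c (l 16631840) (l 16621488))))) (c (b (c (a (l 16630896) (l 16627520)) (a (l 16629040) (l 16625480))) (c (a (l 16620072) (l 16616744)) (a (l 16619048) (l 16615536)))) (c (b (a (l 16627280) (l 16623520)) (a (l 16618280) (l 16614568))) (b (l 16602664) (a (l 16617752) (l 16613832)))))) (c (b (a (c (b (a (l 16617800) (l 16614704))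 (l 16620800)) (b (a (l 16617776) (l 16614432)) (l 16620960))) (c (a (l 16608584) (l 16605312)) (a (l 16608256) (l 16604800)))) (a (c (a (l 16613176) (l 16620640)) (a (l 16613848) (l 16600096))) (c (a (l 16596568) (l 16593368)) (a (l 16596768) (l 16593368))))) (c (a (b (b (l 16626816) (l 16611072)) (a (l 16615040) (l 16601016))) (b (a (l 16608304) (l 16604648)) (a (l 16597448) (l 16593840)))) (a (b (b (l 16616936) (l 16612104)) (b (l 16607008) (l 16601648))) (b (a (l 16608728) (l 16604856)) (a (l 16598608) (l 16594792))))))), by decide +kernel⟩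

def k162_A00pm_012_s1 : ∃ t, chk3 f_A00pm_012_s1 t 83 30 1 = true :=
  ⟨(b (a (c (b (a (c (l 16623984) (l 16621800)) (c (l 16620168) (l 16617936))) (a (c (l 16613256) (l 16611912)) (c (l 16609520) (l 16608104)))) (b (a (l 16618696) (l 16614776)) (a (l 16589360) (l 16606440)))) (a (b (c (a (l 16615928) (l 16613448)) (l 16610720)) (c (a (l 16605712) (l 16603280)) (l 16581456))) (b (a (c (l 16578960) (l 16607808)) (l 16606968)) (a (c (c (l 16558768) (l 16599944)) (l 16599552)) (l 16597728))))) (a (c (b (a (c (l 16601888) (l 16601224)) (c (l 16598200) (l 16597480))) (a (c (l 16590008) (l 16589864)) (c (l 16586392) (l 16586184)))) (b (a (c (l 16600936) (l 16601000)) (l 16576120)) (a (c (l 16590192) (l 16590984)) (c (l 16586448) (l 16587184))))) (c (b (a (a (l 16594776) (l 16592376)) (a (a (a (l 16590488) (l 16589288)) (l 16588232)) (l 16587128))) (a (a (l 16583272) (a (l 16581616) (l 16580312))) (a (a (a (l 16579056) (c (l 16577688) (l 16578224))) (l 16576824)) (l 16575720)))) (b (a (a (l 16594168) (l 16592160))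 (l 16547688)) (a (a (l 16583880) (l 16581896)) (l 16558472)))))), by decide +kernel⟩

def k163_A00pm_012_s1 : ∃ t, chk3 f_A00pm_012_s1 t 82 31 1 = true :=
  ⟨(c (b (a (b (c (b (l 16591864) (l 16585592)) (b (l 16592664) (l 16586480))) (c (b (l 16579248) (l 16572840)) (b (l 16580168) (l 16573728)))) (b (c (a (l 16584232) (l 16581104)) (a (l 16584720) (l 16581392))) (c (b (l 16573344) (l 16567072)) (b (l 16573776) (l 16567456))))) (b (a (c (b (l 16566344) (l 16559768)) (b (l 16567144) (l 16560448))) (c (b (l 16560736) (l 16554328)) (b (l 16561024) (l 16554472)))) (a (c (b (l 16553128) (l 16546432)) (b (l 16558896) (c (l 16546624) (l 16546968)))) (c (b (l 16547856) (a (l 16542672) (l 16540032))) (b (l 16558312) (a (l 16542560) (l 16539656))))))) (b (a (b (c (b (l 16594048) (l 16587976)) (b (l 16596000) (a (l 16591968) (l 16588192)))) (c (b (l 16581712) (l 16575256)) (b (a (l 16585760) (l 16582016)) (a (l 16579280) (l 16575584))))) (b (a (c (l 16585776) (l 16587384)) (c (l 16582232) (l 16583616))) (b (c (l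 16574800) (l 16576416)) (c (l 16568448) (l 16570040))))) (b (b (a (c (c (l 16568176) (l 16569080)) (a (l 16572552) (l 16568912))) (c (l 16561928) (l 16573928))) (a (c (c (l 16561400) (l 16562240)) (c (l 16563248) (l 16564424))) (c (l 16555240) (a (l 16558424) (l 16554824))))) (a (c (b (c (l 16554488) (l 16555256)) (c (l 16547480) (l 16548160))) (b (c (l 16556192) (l 16557296)) (c (l 16549008) (l 16550024)))) (c (b (a (l 16550048) (l 16546784)) (a (l 16543080) (l 16539880))) (b (a (l 16551392) (l 16547848)) (a (l 16544224) (l 16540720)))))))), by decide +kernel⟩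

def k164_A00pm_012_s1 : ∃ t, chk3 f_A00pm_012_s1 t 166 31 1 = true :=
  ⟨(b (b (c (a (c (l 16577832) (l 16577968)) (c (l 16574312) (l 16574360))) (a (c (l 16578640) (l 16579856)) (c (l 16574960) (l 16576104)))) (c (c (a (l 16565544) (l 16562136)) (a (l 16565672) (l 16562168))) (a (c (l 16566392) (l 16567688)) (c (l 16562792) (l 16564000))))) (b (c (c (a (l 16553096) (l 16549824)) (a (l 16553008) (l 16549608))) (a (c (l 16553512) (l 16554616)) (c (l 16550000) (l 16550984)))) (c (c (a (b (l 16543624) (l 16537248)) (b (l 16540512) (l 16534224))) (a (b (l 16543256) (l 16536648)) (b (l 16539992) (l 16533472)))) (c (a (b (l 16543480) (l 16536632)) (b (l 16540072) (l 16533304))) (a (b (l 16544296) (l 16537216)) (b (l 16540752) (l 16533720))))))), by decide +kernel⟩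

def k165_A00pm_012_s1 : ∃ t, chk3 f_A00pm_012_s1 t 167 62 1 = true :=
  ⟨(a (a (c (b (l 16571376) (l 16559248)) (b (l 16572632) (l 16560520))) (a (c (b (l 16569760) (l 16557680)) (b (l 16571184) (l 16559088))) (a (a (c (b (l 16569024) (l 16556960)) (b (l 16570568) (l 16558480))) (a (c (b (l 16568792) (l 16556736)) (b (l 16570376) (l 16558296))) (a (c (b (l 16568664) (l 16556616)) (b (l 16570280) (l 16558208))) (c (b (l 16568576) (l 16556520)) (b (l 16570232) (l 16558160)))))) (c (b (l 16568128) (l 16556088)) (b (l 16569992) (l 16557928)))))) (c (b (a (a (a (l 16567248) (a (l 16566424) (l 16565752))) (l 16565056)) (l 16563952)) (a (a (a (l 16555224) (a (l 16554416) (l 16553760))) (l 16553080)) (l 16551968))) (a (b (l 16547984) (b (l 16560024) (l 16553824))) (l 16540592)))), by decide +kernel⟩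

def k166_A00pm_012_s1 : ∃ t, chk3 f_A00pm_012_s1 t 167 63 1 = true :=
  ⟨(a (a (c (b (c (l 16547136) (l 16546904)) (b (l 16537584) (l 16531256))) (b (c (l 16547288) (l 16548272)) (c (l 16534072) (l 16534592)))) (a (c (b (l 16545440) (b (l 16536136) (l 16529848))) (b (l 16546304) (l 16538152))) (a (a (c (b (l 16544744) (l 16532328)) (b (l 16545712) (l 16532336))) (a (c (b (l 16544528) (l 16532120)) (b (l 16545528) (l 16532160))) (a (c (b (l 16544408) (l 16532008)) (b (l 16545448) (l 16532080))) (c (b (l 16544320) (l 16531928)) (b (l 16545400) (l 16532032)))))) (c (b (l 16543896) (l 16531512)) (b (l 16545176) (l 16531832)))))) (a (a (c (b (a (l 16543056) (a (l 16542272) (l 16541640))) (a (l 16530704) (a (l 16529952) (c (l 16529408) (l 16529464))))) (b (a (l 16544776) (l 16502376)) (a (l 16531448) (c (l 16530408) (l 16531800))))) (a (a (c (b (l 16541240) (l 16528960)) (b (l 16543992) (l 16530720))) (a (c (b (l 16541104) (l 16528824)) (b (l 16543880) (l 16530616))) (a (c (b (l 16541032) (l 16528760)) (b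 (l 16543832) (l 16530560))) (c (b (l 16540984) (l 16528712)) (b (l 16543792) (l 16530528)))))) (c (b (l 16540784) (l 16528512)) (b (l 16543624) (l 16530368))))) (c (b (l 16539864) (l 16527616)) (b (l 16542888) (l 16529680))))), by decide +kernel⟩

def k167_A00pm_012_s1 : ∃ t, chk3 f_A00pm_012_s1 t 21 15 1 = true :=
  ⟨(b (b (b (a (c (l 16637512) (l 16593816)) (c (l 16572216) (l 16570744))) (a (c (a (l 16591360) (l 16579696)) (a (l 16591528) (l 16580112))) (c (l 16562384) (l 16563176)))) (a (c (a (b (l 16580536) (l 16569112)) (b (l 16568920) (l 16557528))) (a (c (l 16534728) (l 16536792)) (b (l 16571384) (l 16561776)))) (c (b (a (l 16557456) (l 16546072)) (c (l 16581736) (l 16541384))) (a (b (l 16560264) (l 16550968)) (l 16502840))))) (b (c (a (b (a (l 16578312) (c (l 16544944) (l 16546784))) (c (a (l 16544760) (l 16532864)) (a (l 16546192) (l 16534952)))) (b (a (c (l 16533424) (l 16535600)) (l 16544160)) (a (c (l 16521248) (l 16523864)) (c (l 16509928) (l 16512936))))) (a (a (c (l 16533464) (l 16515616))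 (c (l 16522880) (l 16505880))) (a (c (l 16512288) (l 16495928)) (b (l 16530352) (l 16519808))))) (c (a (b (a (c (l 16532792) (l 16534056)) (c (l 16520800) (l 16522896))) (a (c (l 16520784) (l 16521680)) (c (b (l 16511800) (l 16505856)) (l 16510752)))) (a (b (c (l 16509112) (l 16511920)) (c (l 16497064) (l 16499872))) (b (c (l 16497704) (l 16501088)) (c (b (l 16488616) (l 16482600)) (l 16489168))))) (a (b (a (c (l 16536184) (l 16539200)) (l 16486056)) (a (c (l 16523448) (l 16526072)) (c (l 16513720) (l 16517736)))) (a (b (l 16476440) (l 16485416)) (b (l 16466752) (l 16476176))))))), by decide +kernel⟩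

def k168_A00pm_012_s1 : ∃ t, chk3 f_A00pm_012_s1 t 11 14 1 = true :=
  ⟨(b (a (b (c (a (b (a (l 16617016) (l 16604952)) (a (l 16610616) (l 16598616))) (b (l 16628960) (l 16622744))) (a (b (a (l 16604448) (l 16592168)) (l 16633856)) (c (l 16658096) (l 16567480)))) (a (c (b (l 16639688) (l 16590360)) (b (l 16585520) (l 16579104))) (c (b (l 16574072) (l 16566840)) (b (l 16561496) (l 16555272))))) (b (c (a (c (l 16605576) (l 16557064)) (b (l 16540184) (l 16534184))) (a (b (l 16550168) (l 16544000)) (l 16586864))) (c (a (b (l 16550728) (l 16543656)) (l 16587200)) (a (l 16618776) (l 16595712))))) (a (a (b (c (l 16620576) (l 16653520)) (c (l 16646264) (l 16557504))) (b (c (l 16639256) (l 16546128)) (b (l 16624000) (l 16616968)))) (b (c (b (l 16608736) (l 16601160)) (a (l 16523024) (l 16500312))) (c (a (l 16516896) (l 16494656)) (a (l 16511936) (l 16489672)))))), by decide +kernel⟩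

def k169_A00pm_012_s1 : ∃ t, chk3 f_A00pm_012_s1 t 11 15 1 = true :=
  ⟨(b (b (a (c (a (b (l 16549248) (l 16539616)) (l 16522008)) (a (l 16460592) (l 16522192))) (c (c (l 16573432) (l 16572528)) (a (l 16500200) (l 16478504)))) (a (c (a (b (l 16529208) (l 16518168)) (b (l 16507016) (l 16496200))) (a (b (l 16532824) (l 16524104)) (l 16465136))) (c (a (b (l 16485168) (l 16474576)) (l 16542384)) (a (l 16401960) (l 16464848))))) (c (a (b (a (b (a (l 16512152) (l 16501184)) (c (a (l 16498824) (l 16487904)) (l 16496768))) (c (b (l 16483632) (l 16471712)) (l 16439152))) (a (b (a (c (l 16486592) (l 16490416)) (c (l 16475696) (l 16479856))) (c (a (b (l 16477440) (l 16471392)) (b (l 16466552) (l 16460488))) (a (l 16478600) (l 16468184)))) (b (a (c (l 16464984) (l 16469400)) (l 16456456)) (c (a (b (l 16455888) (l 16449816)) (l 16442320)) (a (l 16457888) (l 16447688)))))) (a (b (b (l 16463560) (l 16452296)) (b (c (l 16438616) (l 16443608)) (c (l 16468696) (l 16432536)))) (b (b (l 16442512) (l 16431496)) (b (l 16462280)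 (l 6))))) (b (a (a (b (l 16472720) (a (l 16509648) (l 16499472))) (a (l 16410360) (l 16484040))) (a (b (l 16473328) (l 16464272)) (l 16364824))) (a (a (a (b (l 16498904) (l 16466840)) (b (l 16489080) (l 16457408))) (a (b (l 16479232) (l 16426952)) (b (l 16469440) (l 16459392)))) (a (c (l 16414056) (l 16455048)) (a (l 16351760) (l 6))))))), by decide +kernel⟩

def k170_A00pm_012_s1 : ∃ t, chk3 f_A00pm_012_s1 t 3 2 1 = true :=
  ⟨(a (b (l 2) (b (l 2) (a (a (a (b (l 2) (b (l 2) (l 16693944))) (l 2)) (l 2)) (l 2)))) (l 2)), by decide +kernel⟩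

def k171_A00pm_012_s1 : ∃ t, chk3 f_A00pm_012_s1 t 3 6 1 = true :=
  ⟨(a (b (a (b (b (a (a (c (l 16602432) (l 16596416)) (l 16665528)) (l 2)) (a (a (c (l 16590176) (l 16586608)) (c (l 16573520) (l 16566632))) (a (l 16636608) (l 2)))) (b (a (a (c (b (l 16581352) (l 16576032)) (l 16575496)) (c (l 16560928) (l 16555672))) (a (c (l 16544624) (l 16536144)) (l 16523488))) (a (a (c (c (l 16568904) (l 16566840)) (l 16479960)) (c (b (l 16551856) (l 16545952)) (l 16459912))) (c (a (l 16594672) (l 16515936)) (a (l 16524424) (l 16505344)))))) (b (l 2) (b (l 2) (a (a (a (l 16498352) (l 2)) (l 2)) (l 2))))) (a (b (b (a (a (c (c (l 16558856) (l 16555864)) (l 16635504)) (c (c (l 16538840) (l 16535736)) (l 16531520))) (c (a (l 16602784) (l 16502312)) (a (l 16511944) (l 16493032)))) (a (a (c (c (l 16549232) (l 16545120)) (c (l 16541160) (l 16537344))) (c (c (l 16528224) (l 16524192)) (l 16518720))) (c (a (c (l 16508816) (l 16504608)) (l 16572744)) (a (l 16499104) (l 16480008))))) (a (c (a (b (c (l 16539432) (l 16534232))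 (c (l 16529264) (l 16523080))) (b (c (l 16517920) (l 16512824)) (c (l 16507320) (l 16501264)))) (a (b (l 16568680) (l 16598024)) (b (l 16589712) (l 16492896)))) (c (a (b (l 16536880) (l 16567264)) (b (l 16559912) (l 16463608))) (b (a (l 16485824) (l 16466696)) (a (l 16472536) (l 16453048)))))) (a (a (b (c (b (l 16487120) (l 16472816)) (b (l 16474400) (l 16461552))) (b (c (l 16458808) (l 16448072)) (l 6))) (l 6)) (l 6)))) (l 6)), by decide +kernel⟩

def k172_A00pm_012_s1 : ∃ t, chk3 f_A00pm_012_s1 t 3 7 1 = true :=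
  ⟨(a (b (a (b (a (a (b (c (c (l 16518080) (l 16511272)) (l 16585408)) (c (l 16585696) (l 16489384))) (b (c (l 16576624) (l 16479992)) (c (l 16479864) (l 16467616)))) (a (b (c (l 16555352) (l 16459328)) (c (l 16458608) (l 16446712))) (b (c (l 16535128) (l 16439512)) (l 6)))) (b (a (c (c (l 16563368) (l 16473976)) (a (l 16478000) (l 16456264))) (a (a (l 16528392) (l 6)) (l 6))) (a (c (a (l 16472736) (l 16451136)) (a (l 16467768) (l 16446216))) (l 6)))) (l 6)) (a (b (a (a (c (b (l 16456464) (l 16437408)) (b (l 16457112) (l 16444104))) (b (b (l 16396432) (l 6)) (l 6))) (l 6)) (l 6)) (l 6))) (l 6)), by decide +kernel⟩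

theorem t173_A00pm_012_s1 : ∃ t, chk3 f_A00pm_012_s1 t 3 3 1 = true := ex3_b k171_A00pm_012_s1 k172_A00pm_012_s1

theorem t174_A00pm_012_s1 : ∃ t, chk3 f_A00pm_012_s1 t 3 1 1 = true := ex3_b k170_A00pm_012_s1 t173_A00pm_012_s1

theorem t175_A00pm_012_s1 : ∃ t, chk3 f_A00pm_012_s1 t 11 7 1 = true := ex3_b k168_A00pm_012_s1 k169_A00pm_012_s1

theorem t176_A00pm_012_s1 : ∃ t, chk3 f_A00pm_012_s1 t 167 31 1 = true := ex3_b k165_A00pm_012_s1 k166_A00pm_012_s1

theorem t177_A00pm_012_s1 : ∃ t, chk3 f_A00pm_012_s1 t 83 31 1 = true := ex3_a k164_A00pm_012_s1 t176_A00pm_012_s1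

theorem t178_A00pm_012_s1 : ∃ t, chk3 f_A00pm_012_s1 t 41 31 1 = true := ex3_a k163_A00pm_012_s1 t177_A00pm_012_s1

theorem t179_A00pm_012_s1 : ∃ t, chk3 f_A00pm_012_s1 t 41 30 1 = true := ex3_a k161_A00pm_012_s1 k162_A00pm_012_s1

theorem t180_A00pm_012_s1 : ∃ t, chk3 f_A00pm_012_s1 t 41 15 1 = true := ex3_b t179_A00pm_012_s1 t178_A00pm_012_s1

theorem t181_A00pm_012_s1 : ∃ t, chk3 f_A00pm_012_s1 t 40 63 1 = true := ex3_c k159_A00pm_012_s1 k160_A00pm_012_s1

theorem t182_A00pm_012_s1 : ∃ t, chk3 f_A00pm_012_s1 t 40 31 1 = true := ex3_b k158_A00pm_012_s1 t181_A00pm_012_s1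

theorem t183_A00pm_012_s1 : ∃ t, chk3 f_A00pm_012_s1 t 40 61 1 = true := ex3_b k156_A00pm_012_s1 k157_A00pm_012_s1

theorem t184_A00pm_012_s1 : ∃ t, chk3 f_A00pm_012_s1 t 40 60 1 = true := ex3_b k154_A00pm_012_s1 k155_A00pm_012_s1

theorem t185_A00pm_012_s1 : ∃ t, chk3 f_A00pm_012_s1 t 40 30 1 = true := ex3_b t184_A00pm_012_s1 t183_A00pm_012_s1

theorem t186_A00pm_012_s1 : ∃ t, chk3 f_A00pm_012_s1 t 40 15 1 = true := ex3_b t185_A00pm_012_s1 t182_A00pm_012_s1

theorem t187_A00pm_012_s1 : ∃ t, chk3 f_A00pm_012_s1 t 20 15 1 = true := ex3_a t186_A00pm_012_s1 t180_A00pm_012_s1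

theorem t188_A00pm_012_s1 : ∃ t, chk3 f_A00pm_012_s1 t 10 15 1 = true := ex3_a t187_A00pm_012_s1 k167_A00pm_012_s1

theorem t189_A00pm_012_s1 : ∃ t, chk3 f_A00pm_012_s1 t 41 14 1 = true := ex3_b k151_A00pm_012_s1 k152_A00pm_012_s1

theorem t190_A00pm_012_s1 : ∃ t, chk3 f_A00pm_012_s1 t 40 59 1 = true := ex3_b k149_A00pm_012_s1 k150_A00pm_012_s1

theorem t191_A00pm_012_s1 : ∃ t, chk3 f_A00pm_012_s1 t 40 29 1 = true := ex3_b k148_A00pm_012_s1 t190_A00pm_012_s1

theorem t192_A00pm_012_s1 : ∃ t, chk3 f_A00pm_012_s1 t 40 28 1 = true := ex3_a k146_A00pm_012_s1 k147_A00pm_012_s1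

theorem t193_A00pm_012_s1 : ∃ t, chk3 f_A00pm_012_s1 t 40 14 1 = true := ex3_b t192_A00pm_012_s1 t191_A00pm_012_s1

theorem t194_A00pm_012_s1 : ∃ t, chk3 f_A00pm_012_s1 t 20 14 1 = true := ex3_a t193_A00pm_012_s1 t189_A00pm_012_s1

theorem t195_A00pm_012_s1 : ∃ t, chk3 f_A00pm_012_s1 t 10 14 1 = true := ex3_a t194_A00pm_012_s1 k153_A00pm_012_s1

theorem t196_A00pm_012_s1 : ∃ t, chk3 f_A00pm_012_s1 t 10 7 1 = true := ex3_b t195_A00pm_012_s1 t188_A00pm_012_s1

theorem t197_A00pm_012_s1 : ∃ t, chk3 f_A00pm_012_s1 t 5 7 1 = true := ex3_a t196_A00pm_012_s1 t175_A00pm_012_s1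

theorem t198_A00pm_012_s1 : ∃ t, chk3 f_A00pm_012_s1 t 11 6 1 = true := ex3_b k144_A00pm_012_s1 k145_A00pm_012_s1

theorem t199_A00pm_012_s1 : ∃ t, chk3 f_A00pm_012_s1 t 21 13 1 = true := ex3_b k142_A00pm_012_s1 k143_A00pm_012_s1

theorem t200_A00pm_012_s1 : ∃ t, chk3 f_A00pm_012_s1 t 21 12 1 = true := ex3_b k140_A00pm_012_s1 k141_A00pm_012_s1

theorem t201_A00pm_012_s1 : ∃ t, chk3 f_A00pm_012_s1 t 21 6 1 = true := ex3_b t200_A00pm_012_s1 t199_A00pm_012_s1

theorem t202_A00pm_012_s1 : ∃ t, chk3 f_A00pm_012_s1 t 670 27 1 = true := ex3_a k137_A00pm_012_s1 k138_A00pm_012_s1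

theorem t203_A00pm_012_s1 : ∃ t, chk3 f_A00pm_012_s1 t 335 27 1 = true := ex3_a t202_A00pm_012_s1 k139_A00pm_012_s1

theorem t204_A00pm_012_s1 : ∃ t, chk3 f_A00pm_012_s1 t 167 27 1 = true := ex3_a k136_A00pm_012_s1 t203_A00pm_012_s1

theorem t205_A00pm_012_s1 : ∃ t, chk3 f_A00pm_012_s1 t 670 26 1 = true := ex3_a k133_A00pm_012_s1 k134_A00pm_012_s1

theorem t206_A00pm_012_s1 : ∃ t, chk3 f_A00pm_012_s1 t 335 26 1 = true := ex3_a t205_A00pm_012_s1 k135_A00pm_012_s1

theorem t207_A00pm_012_s1 : ∃ t, chk3 f_A00pm_012_s1 t 167 26 1 = true := ex3_a k132_A00pm_012_s1 t206_A00pm_012_s1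

theorem t208_A00pm_012_s1 : ∃ t, chk3 f_A00pm_012_s1 t 167 13 1 = true := ex3_b t207_A00pm_012_s1 t204_A00pm_012_s1

theorem t209_A00pm_012_s1 : ∃ t, chk3 f_A00pm_012_s1 t 167 12 3 = true := ex3_b k130_A00pm_012_s1 k131_A00pm_012_s1

theorem t210_A00pm_012_s1 : ∃ t, chk3 f_A00pm_012_s1 t 670 12 2 = true := ex3_a k127_A00pm_012_s1 k128_A00pm_012_s1

theorem t211_A00pm_012_s1 : ∃ t, chk3 f_A00pm_012_s1 t 335 12 2 = true := ex3_a t210_A00pm_012_s1 k129_A00pm_012_s1

theorem t212_A00pm_012_s1 : ∃ t, chk3 f_A00pm_012_s1 t 334 12 2 = true := ex3_a k125_A00pm_012_s1 k126_A00pm_012_s1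

theorem t213_A00pm_012_s1 : ∃ t, chk3 f_A00pm_012_s1 t 167 12 2 = true := ex3_a t212_A00pm_012_s1 t211_A00pm_012_s1

theorem t214_A00pm_012_s1 : ∃ t, chk3 f_A00pm_012_s1 t 167 12 1 = true := ex3_c t213_A00pm_012_s1 t209_A00pm_012_s1

theorem t215_A00pm_012_s1 : ∃ t, chk3 f_A00pm_012_s1 t 167 6 1 = true := ex3_b t214_A00pm_012_s1 t208_A00pm_012_s1

theorem t216_A00pm_012_s1 : ∃ t, chk3 f_A00pm_012_s1 t 166 25 16 = true := ex3_c k118_A00pm_012_s1 k119_A00pm_012_s1

theorem t217_A00pm_012_s1 : ∃ t, chk3 f_A00pm_012_s1 t 166 12 16 = true := ex3_b k117_A00pm_012_s1 t216_A00pm_012_s1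

theorem t218_A00pm_012_s1 : ∃ t, chk3 f_A00pm_012_s1 t 166 12 8 = true := ex3_c t217_A00pm_012_s1 k120_A00pm_012_s1

theorem t219_A00pm_012_s1 : ∃ t, chk3 f_A00pm_012_s1 t 166 12 4 = true := ex3_c t218_A00pm_012_s1 k121_A00pm_012_s1

theorem t220_A00pm_012_s1 : ∃ t, chk3 f_A00pm_012_s1 t 166 12 2 = true := ex3_c t219_A00pm_012_s1 k122_A00pm_012_s1

theorem t221_A00pm_012_s1 : ∃ t, chk3 f_A00pm_012_s1 t 166 12 1 = true := ex3_c t220_A00pm_012_s1 k123_A00pm_012_s1

theorem t222_A00pm_012_s1 : ∃ t, chk3 f_A00pm_012_s1 t 166 6 1 = true := ex3_b t221_A00pm_012_s1 k124_A00pm_012_s1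

theorem t223_A00pm_012_s1 : ∃ t, chk3 f_A00pm_012_s1 t 83 6 1 = true := ex3_a t222_A00pm_012_s1 t215_A00pm_012_s1

theorem t224_A00pm_012_s1 : ∃ t, chk3 f_A00pm_012_s1 t 82 6 3 = true := ex3_b k115_A00pm_012_s1 k116_A00pm_012_s1

theorem t225_A00pm_012_s1 : ∃ t, chk3 f_A00pm_012_s1 t 82 26 2 = true := ex3_a k112_A00pm_012_s1 k113_A00pm_012_s1

theorem t226_A00pm_012_s1 : ∃ t, chk3 f_A00pm_012_s1 t 82 13 2 = true := ex3_b t225_A00pm_012_s1 k114_A00pm_012_s1

theorem t227_A00pm_012_s1 : ∃ t, chk3 f_A00pm_012_s1 t 82 6 2 = true := ex3_b k111_A00pm_012_s1 t226_A00pm_012_s1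

theorem t228_A00pm_012_s1 : ∃ t, chk3 f_A00pm_012_s1 t 82 6 1 = true := ex3_c t227_A00pm_012_s1 t224_A00pm_012_s1

theorem t229_A00pm_012_s1 : ∃ t, chk3 f_A00pm_012_s1 t 41 6 1 = true := ex3_a t228_A00pm_012_s1 t223_A00pm_012_s1

theorem t230_A00pm_012_s1 : ∃ t, chk3 f_A00pm_012_s1 t 81 6 3 = true := ex3_b k109_A00pm_012_s1 k110_A00pm_012_s1

theorem t231_A00pm_012_s1 : ∃ t, chk3 f_A00pm_012_s1 t 81 6 2 = true := ex3_b k107_A00pm_012_s1 k108_A00pm_012_s1

theorem t232_A00pm_012_s1 : ∃ t, chk3 f_A00pm_012_s1 t 81 6 1 = true := ex3_c t231_A00pm_012_s1 t230_A00pm_012_s1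

theorem t233_A00pm_012_s1 : ∃ t, chk3 f_A00pm_012_s1 t 80 24 1 = true := ex3_c k103_A00pm_012_s1 k104_A00pm_012_s1

theorem t234_A00pm_012_s1 : ∃ t, chk3 f_A00pm_012_s1 t 80 12 1 = true := ex3_b t233_A00pm_012_s1 k105_A00pm_012_s1

theorem t235_A00pm_012_s1 : ∃ t, chk3 f_A00pm_012_s1 t 80 6 1 = true := ex3_b t234_A00pm_012_s1 k106_A00pm_012_s1

theorem t236_A00pm_012_s1 : ∃ t, chk3 f_A00pm_012_s1 t 40 6 1 = true := ex3_a t235_A00pm_012_s1 t232_A00pm_012_s1

theorem t237_A00pm_012_s1 : ∃ t, chk3 f_A00pm_012_s1 t 20 6 1 = true := ex3_a t236_A00pm_012_s1 t229_A00pm_012_s1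

theorem t238_A00pm_012_s1 : ∃ t, chk3 f_A00pm_012_s1 t 10 6 1 = true := ex3_a t237_A00pm_012_s1 t201_A00pm_012_s1

theorem t239_A00pm_012_s1 : ∃ t, chk3 f_A00pm_012_s1 t 5 6 1 = true := ex3_a t238_A00pm_012_s1 t198_A00pm_012_s1

theorem t240_A00pm_012_s1 : ∃ t, chk3 f_A00pm_012_s1 t 5 3 1 = true := ex3_b t239_A00pm_012_s1 t197_A00pm_012_s1

theorem t241_A00pm_012_s1 : ∃ t, chk3 f_A00pm_012_s1 t 21 11 1 = true := ex3_b k100_A00pm_012_s1 k101_A00pm_012_s1

theorem t242_A00pm_012_s1 : ∃ t, chk3 f_A00pm_012_s1 t 21 5 1 = true := ex3_b k99_A00pm_012_s1 t241_A00pm_012_s1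

theorem t243_A00pm_012_s1 : ∃ t, chk3 f_A00pm_012_s1 t 41 22 7 = true := ex3_a k96_A00pm_012_s1 k97_A00pm_012_s1

theorem t244_A00pm_012_s1 : ∃ t, chk3 f_A00pm_012_s1 t 41 11 7 = true := ex3_b t243_A00pm_012_s1 k98_A00pm_012_s1

theorem t245_A00pm_012_s1 : ∃ t, chk3 f_A00pm_012_s1 t 41 5 7 = true := ex3_b k95_A00pm_012_s1 t244_A00pm_012_s1

theorem t246_A00pm_012_s1 : ∃ t, chk3 f_A00pm_012_s1 t 20 5 7 = true := ex3_a k94_A00pm_012_s1 t245_A00pm_012_s1

theorem t247_A00pm_012_s1 : ∃ t, chk3 f_A00pm_012_s1 t 41 22 6 = true := ex3_a k91_A00pm_012_s1 k92_A00pm_012_s1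

theorem t248_A00pm_012_s1 : ∃ t, chk3 f_A00pm_012_s1 t 41 11 6 = true := ex3_b t247_A00pm_012_s1 k93_A00pm_012_s1

theorem t249_A00pm_012_s1 : ∃ t, chk3 f_A00pm_012_s1 t 41 5 6 = true := ex3_b k90_A00pm_012_s1 t248_A00pm_012_s1

theorem t250_A00pm_012_s1 : ∃ t, chk3 f_A00pm_012_s1 t 20 5 6 = true := ex3_a k89_A00pm_012_s1 t249_A00pm_012_s1

theorem t251_A00pm_012_s1 : ∃ t, chk3 f_A00pm_012_s1 t 20 5 3 = true := ex3_c t250_A00pm_012_s1 t246_A00pm_012_s1

theorem t252_A00pm_012_s1 : ∃ t, chk3 f_A00pm_012_s1 t 41 23 2 = true := ex3_a k87_A00pm_012_s1 k88_A00pm_012_s1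

theorem t253_A00pm_012_s1 : ∃ t, chk3 f_A00pm_012_s1 t 83 22 2 = true := ex3_c k85_A00pm_012_s1 k86_A00pm_012_s1

theorem t254_A00pm_012_s1 : ∃ t, chk3 f_A00pm_012_s1 t 82 22 2 = true := ex3_a k83_A00pm_012_s1 k84_A00pm_012_s1

theorem t255_A00pm_012_s1 : ∃ t, chk3 f_A00pm_012_s1 t 41 22 2 = true := ex3_a t254_A00pm_012_s1 t253_A00pm_012_s1

theorem t256_A00pm_012_s1 : ∃ t, chk3 f_A00pm_012_s1 t 41 11 2 = true := ex3_b t255_A00pm_012_s1 t252_A00pm_012_s1

theorem t257_A00pm_012_s1 : ∃ t, chk3 f_A00pm_012_s1 t 167 21 4 = true := ex3_a k80_A00pm_012_s1 k81_A00pm_012_s1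

theorem t258_A00pm_012_s1 : ∃ t, chk3 f_A00pm_012_s1 t 83 21 4 = true := ex3_a k79_A00pm_012_s1 t257_A00pm_012_s1

theorem t259_A00pm_012_s1 : ∃ t, chk3 f_A00pm_012_s1 t 41 21 4 = true := ex3_a k78_A00pm_012_s1 t258_A00pm_012_s1

theorem t260_A00pm_012_s1 : ∃ t, chk3 f_A00pm_012_s1 t 41 21 2 = true := ex3_c t259_A00pm_012_s1 k82_A00pm_012_s1

theorem t261_A00pm_012_s1 : ∃ t, chk3 f_A00pm_012_s1 t 41 10 2 = true := ex3_b k77_A00pm_012_s1 t260_A00pm_012_s1

theorem t262_A00pm_012_s1 : ∃ t, chk3 f_A00pm_012_s1 t 41 5 2 = true := ex3_b t261_A00pm_012_s1 t256_A00pm_012_s1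

theorem t263_A00pm_012_s1 : ∃ t, chk3 f_A00pm_012_s1 t 20 5 2 = true := ex3_a k76_A00pm_012_s1 t262_A00pm_012_s1

theorem t264_A00pm_012_s1 : ∃ t, chk3 f_A00pm_012_s1 t 20 5 1 = true := ex3_c t263_A00pm_012_s1 t251_A00pm_012_s1

theorem t265_A00pm_012_s1 : ∃ t, chk3 f_A00pm_012_s1 t 10 5 1 = true := ex3_a t264_A00pm_012_s1 t242_A00pm_012_s1

theorem t266_A00pm_012_s1 : ∃ t, chk3 f_A00pm_012_s1 t 10 2 1 = true := ex3_b k75_A00pm_012_s1 t265_A00pm_012_s1

theorem t267_A00pm_012_s1 : ∃ t, chk3 f_A00pm_012_s1 t 5 2 1 = true := ex3_a t266_A00pm_012_s1 k102_A00pm_012_s1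

theorem t268_A00pm_012_s1 : ∃ t, chk3 f_A00pm_012_s1 t 5 1 1 = true := ex3_b t267_A00pm_012_s1 t240_A00pm_012_s1

theorem t269_A00pm_012_s1 : ∃ t, chk3 f_A00pm_012_s1 t 39 31 1 = true := ex3_b k73_A00pm_012_s1 k74_A00pm_012_s1

theorem t270_A00pm_012_s1 : ∃ t, chk3 f_A00pm_012_s1 t 38 31 1 = true := ex3_c k71_A00pm_012_s1 k72_A00pm_012_s1

theorem t271_A00pm_012_s1 : ∃ t, chk3 f_A00pm_012_s1 t 19 31 1 = true := ex3_a t270_A00pm_012_s1 t269_A00pm_012_s1

theorem t272_A00pm_012_s1 : ∃ t, chk3 f_A00pm_012_s1 t 39 30 3 = true := ex3_b k69_A00pm_012_s1 k70_A00pm_012_s1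

theorem t273_A00pm_012_s1 : ∃ t, chk3 f_A00pm_012_s1 t 39 30 1 = true := ex3_c k68_A00pm_012_s1 t272_A00pm_012_s1

theorem t274_A00pm_012_s1 : ∃ t, chk3 f_A00pm_012_s1 t 38 30 1 = true := ex3_c k66_A00pm_012_s1 k67_A00pm_012_s1

theorem t275_A00pm_012_s1 : ∃ t, chk3 f_A00pm_012_s1 t 19 30 1 = true := ex3_a t274_A00pm_012_s1 t273_A00pm_012_s1

theorem t276_A00pm_012_s1 : ∃ t, chk3 f_A00pm_012_s1 t 19 15 1 = true := ex3_b t275_A00pm_012_s1 t271_A00pm_012_s1

theorem t277_A00pm_012_s1 : ∃ t, chk3 f_A00pm_012_s1 t 79 59 1 = true := ex3_b k64_A00pm_012_s1 k65_A00pm_012_s1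

theorem t278_A00pm_012_s1 : ∃ t, chk3 f_A00pm_012_s1 t 39 59 1 = true := ex3_a k63_A00pm_012_s1 t277_A00pm_012_s1

theorem t279_A00pm_012_s1 : ∃ t, chk3 f_A00pm_012_s1 t 79 58 1 = true := ex3_c k61_A00pm_012_s1 k62_A00pm_012_s1

theorem t280_A00pm_012_s1 : ∃ t, chk3 f_A00pm_012_s1 t 78 58 1 = true := ex3_a k59_A00pm_012_s1 k60_A00pm_012_s1

theorem t281_A00pm_012_s1 : ∃ t, chk3 f_A00pm_012_s1 t 39 58 1 = true := ex3_a t280_A00pm_012_s1 t279_A00pm_012_s1

theorem t282_A00pm_012_s1 : ∃ t, chk3 f_A00pm_012_s1 t 39 29 1 = true := ex3_b t281_A00pm_012_s1 t278_A00pm_012_s1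

theorem t283_A00pm_012_s1 : ∃ t, chk3 f_A00pm_012_s1 t 77 58 1 = true := ex3_a k56_A00pm_012_s1 k57_A00pm_012_s1

theorem t284_A00pm_012_s1 : ∃ t, chk3 f_A00pm_012_s1 t 77 29 1 = true := ex3_b t283_A00pm_012_s1 k58_A00pm_012_s1

theorem t285_A00pm_012_s1 : ∃ t, chk3 f_A00pm_012_s1 t 76 59 1 = true := ex3_c k54_A00pm_012_s1 k55_A00pm_012_s1

theorem t286_A00pm_012_s1 : ∃ t, chk3 f_A00pm_012_s1 t 76 58 1 = true := ex3_a k52_A00pm_012_s1 k53_A00pm_012_s1

theorem t287_A00pm_012_s1 : ∃ t, chk3 f_A00pm_012_s1 t 76 29 1 = true := ex3_b t286_A00pm_012_s1 t285_A00pm_012_s1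

theorem t288_A00pm_012_s1 : ∃ t, chk3 f_A00pm_012_s1 t 38 29 1 = true := ex3_a t287_A00pm_012_s1 t284_A00pm_012_s1

theorem t289_A00pm_012_s1 : ∃ t, chk3 f_A00pm_012_s1 t 19 29 1 = true := ex3_a t288_A00pm_012_s1 t282_A00pm_012_s1

theorem t290_A00pm_012_s1 : ∃ t, chk3 f_A00pm_012_s1 t 39 57 1 = true := ex3_a k50_A00pm_012_s1 k51_A00pm_012_s1

theorem t291_A00pm_012_s1 : ∃ t, chk3 f_A00pm_012_s1 t 39 28 1 = true := ex3_b k49_A00pm_012_s1 t290_A00pm_012_s1

theorem t292_A00pm_012_s1 : ∃ t, chk3 f_A00pm_012_s1 t 38 57 1 = true := ex3_c k47_A00pm_012_s1 k48_A00pm_012_s1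

theorem t293_A00pm_012_s1 : ∃ t, chk3 f_A00pm_012_s1 t 38 28 1 = true := ex3_b k46_A00pm_012_s1 t292_A00pm_012_s1

theorem t294_A00pm_012_s1 : ∃ t, chk3 f_A00pm_012_s1 t 19 28 1 = true := ex3_a t293_A00pm_012_s1 t291_A00pm_012_s1

theorem t295_A00pm_012_s1 : ∃ t, chk3 f_A00pm_012_s1 t 19 14 1 = true := ex3_b t294_A00pm_012_s1 t289_A00pm_012_s1

theorem t296_A00pm_012_s1 : ∃ t, chk3 f_A00pm_012_s1 t 19 7 1 = true := ex3_b t295_A00pm_012_s1 t276_A00pm_012_s1

theorem t297_A00pm_012_s1 : ∃ t, chk3 f_A00pm_012_s1 t 18 31 3 = true := ex3_b k44_A00pm_012_s1 k45_A00pm_012_s1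

theorem t298_A00pm_012_s1 : ∃ t, chk3 f_A00pm_012_s1 t 18 31 2 = true := ex3_b k42_A00pm_012_s1 k43_A00pm_012_s1

theorem t299_A00pm_012_s1 : ∃ t, chk3 f_A00pm_012_s1 t 18 31 1 = true := ex3_c t298_A00pm_012_s1 t297_A00pm_012_s1

theorem t300_A00pm_012_s1 : ∃ t, chk3 f_A00pm_012_s1 t 37 60 1 = true := ex3_a k39_A00pm_012_s1 k40_A00pm_012_s1

theorem t301_A00pm_012_s1 : ∃ t, chk3 f_A00pm_012_s1 t 37 30 1 = true := ex3_b t300_A00pm_012_s1 k41_A00pm_012_s1

theorem t302_A00pm_012_s1 : ∃ t, chk3 f_A00pm_012_s1 t 36 61 1 = true := ex3_a k37_A00pm_012_s1 k38_A00pm_012_s1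

theorem t303_A00pm_012_s1 : ∃ t, chk3 f_A00pm_012_s1 t 36 60 1 = true := ex3_a k35_A00pm_012_s1 k36_A00pm_012_s1

theorem t304_A00pm_012_s1 : ∃ t, chk3 f_A00pm_012_s1 t 36 30 1 = true := ex3_b t303_A00pm_012_s1 t302_A00pm_012_s1

theorem t305_A00pm_012_s1 : ∃ t, chk3 f_A00pm_012_s1 t 18 30 1 = true := ex3_a t304_A00pm_012_s1 t301_A00pm_012_s1

theorem t306_A00pm_012_s1 : ∃ t, chk3 f_A00pm_012_s1 t 18 15 1 = true := ex3_b t305_A00pm_012_s1 t299_A00pm_012_s1

theorem t307_A00pm_012_s1 : ∃ t, chk3 f_A00pm_012_s1 t 75 29 3 = true := ex3_a k33_A00pm_012_s1 k34_A00pm_012_s1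

theorem t308_A00pm_012_s1 : ∃ t, chk3 f_A00pm_012_s1 t 75 29 2 = true := ex3_a k31_A00pm_012_s1 k32_A00pm_012_s1

theorem t309_A00pm_012_s1 : ∃ t, chk3 f_A00pm_012_s1 t 75 29 1 = true := ex3_c t308_A00pm_012_s1 t307_A00pm_012_s1

theorem t310_A00pm_012_s1 : ∃ t, chk3 f_A00pm_012_s1 t 74 29 1 = true := ex3_c k29_A00pm_012_s1 k30_A00pm_012_s1

theorem t311_A00pm_012_s1 : ∃ t, chk3 f_A00pm_012_s1 t 37 29 1 = true := ex3_a t310_A00pm_012_s1 t309_A00pm_012_s1

theorem t312_A00pm_012_s1 : ∃ t, chk3 f_A00pm_012_s1 t 18 29 1 = true := ex3_a k28_A00pm_012_s1 t311_A00pm_012_s1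

theorem t313_A00pm_012_s1 : ∃ t, chk3 f_A00pm_012_s1 t 37 57 1 = true := ex3_a k26_A00pm_012_s1 k27_A00pm_012_s1

theorem t314_A00pm_012_s1 : ∃ t, chk3 f_A00pm_012_s1 t 37 28 1 = true := ex3_b k25_A00pm_012_s1 t313_A00pm_012_s1

theorem t315_A00pm_012_s1 : ∃ t, chk3 f_A00pm_012_s1 t 18 28 1 = true := ex3_a k24_A00pm_012_s1 t314_A00pm_012_s1

theorem t316_A00pm_012_s1 : ∃ t, chk3 f_A00pm_012_s1 t 18 14 1 = true := ex3_b t315_A00pm_012_s1 t312_A00pm_012_s1

theorem t317_A00pm_012_s1 : ∃ t, chk3 f_A00pm_012_s1 t 18 7 1 = true := ex3_b t316_A00pm_012_s1 t306_A00pm_012_s1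

theorem t318_A00pm_012_s1 : ∃ t, chk3 f_A00pm_012_s1 t 9 7 1 = true := ex3_a t317_A00pm_012_s1 t296_A00pm_012_s1

theorem t319_A00pm_012_s1 : ∃ t, chk3 f_A00pm_012_s1 t 35 62 1 = true := ex3_c k21_A00pm_012_s1 k22_A00pm_012_s1

theorem t320_A00pm_012_s1 : ∃ t, chk3 f_A00pm_012_s1 t 69 124 1 = true := ex3_c k18_A00pm_012_s1 k19_A00pm_012_s1

theorem t321_A00pm_012_s1 : ∃ t, chk3 f_A00pm_012_s1 t 69 62 1 = true := ex3_b t320_A00pm_012_s1 k20_A00pm_012_s1

theorem t322_A00pm_012_s1 : ∃ t, chk3 f_A00pm_012_s1 t 68 62 1 = true := ex3_b k16_A00pm_012_s1 k17_A00pm_012_s1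

theorem t323_A00pm_012_s1 : ∃ t, chk3 f_A00pm_012_s1 t 34 62 1 = true := ex3_a t322_A00pm_012_s1 t321_A00pm_012_s1

theorem t324_A00pm_012_s1 : ∃ t, chk3 f_A00pm_012_s1 t 17 62 1 = true := ex3_a t323_A00pm_012_s1 t319_A00pm_012_s1

theorem t325_A00pm_012_s1 : ∃ t, chk3 f_A00pm_012_s1 t 17 31 1 = true := ex3_b t324_A00pm_012_s1 k23_A00pm_012_s1

theorem t326_A00pm_012_s1 : ∃ t, chk3 f_A00pm_012_s1 t 71 30 1 = true := ex3_b k14_A00pm_012_s1 k15_A00pm_012_s1

theorem t327_A00pm_012_s1 : ∃ t, chk3 f_A00pm_012_s1 t 70 30 1 = true := ex3_b k12_A00pm_012_s1 k13_A00pm_012_s1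

theorem t328_A00pm_012_s1 : ∃ t, chk3 f_A00pm_012_s1 t 35 30 1 = true := ex3_a t327_A00pm_012_s1 t326_A00pm_012_s1

theorem t329_A00pm_012_s1 : ∃ t, chk3 f_A00pm_012_s1 t 34 123 1 = true := ex3_a k10_A00pm_012_s1 k11_A00pm_012_s1

theorem t330_A00pm_012_s1 : ∃ t, chk3 f_A00pm_012_s1 t 34 61 1 = true := ex3_b k9_A00pm_012_s1 t329_A00pm_012_s1

theorem t331_A00pm_012_s1 : ∃ t, chk3 f_A00pm_012_s1 t 34 30 1 = true := ex3_b k8_A00pm_012_s1 t330_A00pm_012_s1

theorem t332_A00pm_012_s1 : ∃ t, chk3 f_A00pm_012_s1 t 17 30 1 = true := ex3_a t331_A00pm_012_s1 t328_A00pm_012_s1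

theorem t333_A00pm_012_s1 : ∃ t, chk3 f_A00pm_012_s1 t 17 15 1 = true := ex3_b t332_A00pm_012_s1 t325_A00pm_012_s1

theorem t334_A00pm_012_s1 : ∃ t, chk3 f_A00pm_012_s1 t 8 15 1 = true := ex3_a k7_A00pm_012_s1 t333_A00pm_012_s1

theorem t335_A00pm_012_s1 : ∃ t, chk3 f_A00pm_012_s1 t 8 7 1 = true := ex3_b k6_A00pm_012_s1 t334_A00pm_012_s1

theorem t336_A00pm_012_s1 : ∃ t, chk3 f_A00pm_012_s1 t 4 7 1 = true := ex3_a t335_A00pm_012_s1 t318_A00pm_012_s1

theorem t337_A00pm_012_s1 : ∃ t, chk3 f_A00pm_012_s1 t 4 6 3 = true := ex3_b k4_A00pm_012_s1 k5_A00pm_012_s1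

theorem t338_A00pm_012_s1 : ∃ t, chk3 f_A00pm_012_s1 t 4 13 2 = true := ex3_c k2_A00pm_012_s1 k3_A00pm_012_s1

theorem t339_A00pm_012_s1 : ∃ t, chk3 f_A00pm_012_s1 t 4 6 2 = true := ex3_b k1_A00pm_012_s1 t338_A00pm_012_s1

theorem t340_A00pm_012_s1 : ∃ t, chk3 f_A00pm_012_s1 t 4 6 1 = true := ex3_c t339_A00pm_012_s1 t337_A00pm_012_s1

theorem t341_A00pm_012_s1 : ∃ t, chk3 f_A00pm_012_s1 t 4 3 1 = true := ex3_b t340_A00pm_012_s1 t336_A00pm_012_s1

theorem t342_A00pm_012_s1 : ∃ t, chk3 f_A00pm_012_s1 t 4 1 1 = true := ex3_b k0_A00pm_012_s1 t341_A00pm_012_s1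

theorem t343_A00pm_012_s1 : ∃ t, chk3 f_A00pm_012_s1 t 2 1 1 = true := ex3_a t342_A00pm_012_s1 t268_A00pm_012_s1

theorem t344_A00pm_012_s1 : ∃ t, chk3 f_A00pm_012_s1 t 1 1 1 = true := ex3_a t343_A00pm_012_s1 t174_A00pm_012_s1

theorem c_A00pm_012_s1 : CertF 0 536870912 536870912 536870912 858993459 64424510 true true false .pnp 0 1 2
    ndB0q0 ndB0q1 pcB2 cut_A00pm_012_s1 xt_A00pm_012_s1 :=
  certF2 (fam := true) (s1 := true) (s2 := false) (a := 0) (b := 1) (c := 2) (cn := .pnp) (n1 := ndB0q0) (n2 := ndB0q1) (pc := pcB2) (cut := cut_A00pm_012_s1) (xt := xt_A00pm_012_s1) (P1 := 0) (W1 := 536870912) (P2 := 536870912) (W2 := 536870912) (P3 := 858993459) (W3 := 64424510)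
    rfl (fun _ => rfl) t344_A00pm_012_s1

theorem s_A00pm_012_s1 {κ x : ℝ} (hκ : κ * h0 = ken x) (hx : ((858993459 : ℕ) : ℝ) / S ≤ x)
    (hx' : x ≤ (((858993459 : ℕ) : ℝ) + (64424510 : ℕ)) / S)
    (H : CutA (VFD κ) PP tK tL pcB (Cut.of [[⟨0, 0, 0, 67108864⟩, ⟨1, 1, 0, 67108864⟩, ⟨2, 1, 0, 67108864⟩]]) 0 1 2 0 0 (sgb true) (sgb false) x) :
    AltA (VFD κ) PP tK tL pcB [⟨3, 0, 0, 1449551462⟩] 0 1 2 0 0 (sgb true) (sgb false) x :=
  strip_altAD (m := 1449551462) true rfl hκ (SH.κ0 hκ (SH.hx1 hx).le (SH.hx2 hx').le) (SH.hx1 hx).le (SH.hx2 hx') (covB00).cov (covB01).cov hx hx' c_A00pm_012_s1 H ((okx hx hx').extA (T := tt) (sideB hx hx') hκ rfl rfl (.O 0 true) (.O 1 false) rfl)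

end Pool.Agent.Strip051.G.I8000_8600.Tab.St.C
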