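import Pool.Agent.Strip051.G.I8000_8600.StH
import Pool.Agent.Strip051.G.I8000_8600.StF

/-! # Unit strips 5 (generated) -/

set_option linter.all false
set_option maxRecDepth 100000

namespace Pool.Agent.Strip051.G.I8000_8600.Tab.St.C

open Pool.Agent.Strip051.PB Pool.Agent.Strip051.PB.T Pool.Agent.StripNear Pool.Agent.Strip051.LC
open Pool.Agent.Strip051.G.I8000_8600.Tab Pool.Agent.Strip051.G.I8000_8600.Tab.St

noncomputable def cut_A00pm_102_s1 : Cut := Cut.of [[⟨4, 0, 0, 1449551462⟩], [⟨0, 1, 0, 67108864⟩, ⟨1, 0, 0, 67108864⟩, ⟨2, 1, 0, 67108864⟩]]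

noncomputable def xt_A00pm_102_s1 : Ext := strExt dd true true false .u0 .u0m .u2 .npp 1 0 2 rfl rfl gf2 vv ndB0q1 ndB0q0

noncomputable def f_A00pm_102_s1 : ℕ → ℕ → ℕ → ℕ → Bool := onCell 536870912 536870912 1073741824 536870912 858993459 64424510
    (rowF 1 true true false .npp 1 0 2 (qsf 536870912 536870912 0 536870912 2) ndB0q1 ndB0q0 pcB2 cut_A00pm_102_s1 xt_A00pm_102_s1)

def k0_A00pm_102_s1 : ∃ t, chk3 f_A00pm_102_s1 t 2 4 1 = true :=
  ⟨(b (l 3) (l 3)), by decide +kernel⟩

def k1_A00pm_102_s1 : ∃ t, chk3 f_A00pm_102_s1 t 4 10 1 = true :=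
  ⟨(b (b (l 3) (l 2)) (l 2)), by decide +kernel⟩

def k2_A00pm_102_s1 : ∃ t, chk3 f_A00pm_102_s1 t 5 40 4 = true :=
  ⟨(a (l 3) (b (l 3) (a (l 3) (b (b (l 3) (a (l 3) (a (l 3) (c (b (a (l 3) (a (l 3) (c (l 529842831) (l 530203535)))) (a (b (l 3) (c (l 529745551) (l 530126991))) (c (a (l 529795727) (l 529825423)) (l 530181775)))) (b (a (l 3) (l 530748047)) (l 529926799)))))) (a (c (a (a (l 3) (b (l 3) (a (l 3) (b (l 3) (b (l 3) (l 528952463)))))) (b (l 3) (c (b (a (l 3) (l 529510687)) (a (b (c (a (l 529360015) (a (b (l 3) (l 529374607)) (b (l 529352591) (l 529363087)))) (a (l 529580687) (a (l 529561743) (l 529577615)))) (a (l 529534863) (l 529539215))) (b (c (l 529403791) (l 529620367)) (b (l 529533327) (l 529556367))))) (b (a (l 3) (l 529943439)) (a (a (l 529410959) (b (a (l 529897103) (l 529911439)) (l 529981583))) (b (l 529949583) (l 529712271))))))) (b (l 3) (b (a (l 3) (a (l 3) (l 530606735))) (a (a (l 3) (l 529564303)) (a (a (l 530631055) (b (l 530321295) (l 530660495))) (b (l 530622095) (l 530655631)))))))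 (a (c (c (b (b (a (l 3) (l 529670687)) (a (l 529591327) (l 529658511))) (b (l 529614479) (b (l 529610895) (l 529625999)))) (b (b (l 530038927) (l 530034063)) (b (l 530032783) (b (l 530035087) (l 530053007))))) (b (b (l 530251407) (l 530663311)) (b (l 530675343) (l 529634959)))) (c (b (c (a (l 529727263) (l 529789471)) (l 530145823)) (b (l 529945999) (l 529145487))) (b (l 529941135) (b (l 530763919) (l 530783887)))))))))), by decide +kernel⟩

def k3_A00pm_102_s1 : ∃ t, chk3 f_A00pm_102_s1 t 20 41 4 = true :=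
  ⟨(b (l 3) (a (l 2) (a (b (l 532917071) (l 2)) (b (b (l 3) (a (l 532899663) (b (b (l 3) (b (a (l 532882767) (l 533948703)) (l 532900751))) (l 532910479)))) (a (b (l 532913999) (l 2)) (b (b (l 532925071) (l 532898895)) (a (l 16775368) (l 16775160)))))))), by decide +kernel⟩

def k4_A00pm_102_s1 : ∃ t, chk3 f_A00pm_102_s1 t 21 41 4 = true :=
  ⟨(b (a (l 3) (b (l 3) (b (l 3) (b (b (l 3) (l 531566735)) (l 531397007))))) (a (b (b (b (l 531577487) (a (b (l 3) (l 532668815)) (b (l 532311951) (l 532360847)))) (b (a (b (l 532698511) (b (a (l 533585295) (l 532640143)) (a (a (l 532815759) (l 532748687)) (l 532645775)))) (b (l 532400783) (b (l 532423567) (l 532434319)))) (a (b (a (a (l 532824207) (l 532755087)) (l 533457551)) (a (l 532799631) (l 532661647))) (b (a (l 532514447) (l 532375183)) (a (l 532524431) (l 532386959)))))) (a (a (c (b (b (l 532929423) (b (l 16774144) (l 16773616))) (b (l 16772832) (l 16771784))) (b (b (l 532697231) (b (l 16773960) (l 16773400))) (b (l 16772568) (l 16771456)))) (b (b (l 532676495)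 (b (l 532691855) (l 532702095))) (b (l 16774720) (l 16771008)))) (c (a (b (b (l 16776408) (l 16775288)) (l 16773624)) (b (b (l 16775760) (l 16771976)) (l 16772880))) (a (b (b (l 16776264) (l 16775088)) (l 16773344)) (b (b (l 16775608) (l 16771784)) (l 16769992)))))) (b (b (b (c (l 531209359) (b (l 531789967) (l 531833487))) (b (a (l 532011407) (l 531730575)) (a (l 532061583) (l 531778959)))) (b (b (a (b (l 532094863) (l 532115343)) (l 532091279)) (a (b (l 532133519) (l 532148623)) (b (l 531852175) (l 531869071)))) (a (b (a (l 532234895) (l 532095375)) (a (l 532249231) (l 16775136))) (b (l 531888783) (a (l 16771704) (l 16770832)))))) (a (a (b (b (b (l 16775280) (l 16772048)) (b (l 16771440) (l 16770840))) (b (l 16769936) (l 16768744))) (b (b (b (l 16771896) (l 16771272)) (b (l 16770648) (l 16770032))) (b (l 16769104) (l 16767880)))) (a (b (b (l 16773376) (b (l 16769800) (l 16769160))) (b (l 16768216) (l 16766960))) (b (b (l 16772480) (l 16771184)) (b (l 16767264) (l 16765984)))))))), by decide +kernel⟩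

def k5_A00pm_102_s1 : ∃ t, chk3 f_A00pm_102_s1 t 22 82 4 = true :=
  ⟨(b (a (l 3) (b (b (l 3) (a (l 3) (a (l 3) (c (b (a (l 3) (l 529180559)) (l 529258639)) (l 530872207))))) (b (c (b (a (l 3) (a (a (l 3) (l 529348239)) (l 529335183))) (a (c (b (l 3) (l 530067855)) (l 530427535)) (c (a (c (l 529906719) (l 530126367)) (l 529998991)) (a (l 529923471) (l 530439823))))) (a (b (l 3) (l 530959503)) (a (l 530919199) (l 530901391)))) (a (b (a (l 3) (l 529178399)) (l 529240975)) (b (a (a (l 529427487) (a (l 529418639) (l 529412495))) (l 529396767)) (a (l 529479199) (l 529998479))))))) (b (a (a (a (l 3) (b (l 3) (b (l 3) (a (l 531078543) (l 531053199))))) (b (l 529865759) (b (l 530979983) (a (l 531025295) (l 530990479))))) (b (a (l 529274655) (a (l 530314271) (l 530025503))) (a (b (l 530919823) (l 530942863)) (l 530341919)))) (a (a (a (l 531032095) (b (a (l 531158927) (b (l 531091343) (l 531145359))) (l 530974351))) (b (c (l 531182623) (l 530916495)) (b (l 531120783) (l 531163279)))) (b (a (b (l 530967951) (l 530997391))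 (l 530919967)) (a (l 531047055) (l 530970511)))))), by decide +kernel⟩

def k6_A00pm_102_s1 : ∃ t, chk3 f_A00pm_102_s1 t 22 83 4 = true :=
  ⟨(a (b (b (a (b (l 531120015) (a (l 531557919) (l 530624143))) (b (l 530958735) (a (l 530537615) (l 16769928)))) (b (b (a (a (l 531622799) (l 531493919)) (c (l 531301263) (l 531408015))) (a (a (l 531660319) (c (l 16770200) (l 16770272))) (a (l 531430943) (l 531355679)))) (a (b (a (l 16770560) (l 16769576)) (a (l 16769896) (l 16768904))) (a (c (l 16768160) (l 16768256)) (l 16767176))))) (a (a (b (b (l 16771528) (l 16770200)) (b (l 16766256) (l 16764944))) (b (b (l 16770512) (b (l 16766872) (l 16766200))) (b (l 16765192) (l 16763848)))) (a (b (b (l 16764224) (l 16762840)) (l 16768648)) (b (b (l 16765784) (l 16764384)) (l 16767536))))) (b (b (b (a (l 530846095) (l 530755215)) (b (l 530840975) (l 530601359))) (b (a (a (l 16767480) (l 16766368)) (a (l 16765200) (l 16764000))) (a (a (l 16766088) (l 16764960)) (a (l 16763792) (l 16762568))))) (a (a (b (b (l 16764688) (l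 16763280)) (l 16761168)) (b (b (l 16763544) (l 16762128)) (l 16759992))) (a (b (b (l 16762360) (l 16760928)) (l 16758776)) (b (l 16755160) (l 16757512)))))), by decide +kernel⟩

def k7_A00pm_102_s1 : ∃ t, chk3 f_A00pm_102_s1 t 23 82 4 = true :=
  ⟨(b (a (b (b (a (c (a (a (l 3) (b (l 3) (l 529365903))) (b (l 529021583) (l 529359503))) (a (l 530243983) (l 530767247))) (c (b (a (a (l 529823119) (l 529020815)) (a (l 529548431) (l 529824143))) (a (l 529621135) (l 529344655))) (a (l 530764943) (b (l 530711695) (l 530772111))))) (c (a (a (a (l 529211167) (l 528938383)) (l 528930191)) (a (l 529189263) (c (l 529766543) (l 529932687)))) (a (l 530851983) (a (l 530836367) (l 530844559))))) (a (b (a (a (b (l 529633823) (l 529842575)) (l 528990751)) (l 528977695)) (b (a (l 529643919) (l 530697871)) (l 529170319))) (a (b (l 529230623) (l 529911951)) (b (c (l 530122383) (l 530859663)) (l 529086607))))) (a (b (b (c (a (l 528801935) (l 529382031)) (l 530768015)) (a (l 529347103) (l 529635103))) (b (c (l 530118031) (l 530907023))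 (l 529063567))) (b (b (l 528799007) (c (l 529533583) (l 530913423))) (b (l 529777551) (l 530690191))))) (b (a (a (b (a (l 530812703) (l 530797199)) (l 530835743)) (b (a (l 530783119) (l 530779791)) (a (l 530810255) (l 530802575)))) (a (b (l 530808975) (l 530841743)) (b (l 530807439) (l 530915471)))) (a (a (b (l 530869647) (l 530908303)) (b (a (l 530838159) (l 530826383)) (l 530843935))) (c (b (l 530672015) (l 530808463)) (a (l 530954015) (l 16759688)))))), by decide +kernel⟩

def k8_A00pm_102_s1 : ∃ t, chk3 f_A00pm_102_s1 t 23 83 4 = true :=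
  ⟨(a (b (b (b (a (l 530949263) (l 530885919)) (a (l 16763560) (l 16760920))) (b (a (l 16762104) (l 16759440)) (b (a (l 16755776) (l 16753088)) (a (l 16755048) (l 16752352))))) (a (a (b (l 16753880) (l 16756200)) (b (l 16752552) (l 16754848))) (a (b (l 16751184) (l 16753448)) (b (l 16755032) (l 16752032))))) (b (b (b (a (l 16759784) (l 16757192)) (a (l 16758280) (l 16755680))) (b (a (l 16756776) (l 16754168)) (a (l 16755272) (l 16752632)))) (a (c (b (l 16747520) (l 16749744)) (b (l 16753176) (l 16750120))) (b (l 16750352) (b (l 16748048) (l 16746504)))))), by decide +kernel⟩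

def k9_A00pm_102_s1 : ∃ t, chk3 f_A00pm_102_s1 t 5 40 5 = true :=
  ⟨(a (l 3) (b (l 3) (a (l 3) (b (a (l 3) (b (l 3) (a (l 3) (b (l 530600591) (l 530869647))))) (b (a (l 3) (a (l 530305311) (l 530333839))) (b (a (a (l 3) (a (l 3) (l 531093135))) (a (l 531113359) (l 531140239))) (a (a (a (l 3) (l 530040719)) (a (a (l 530831503) (b (l 530818959) (l 531090575))) (b (l 531095183) (l 530828175)))) (a (b (l 531114639) (l 531115663)) (l 531140751))))))))), by decide +kernel⟩

def k10_A00pm_102_s1 : ∃ t, chk3 f_A00pm_102_s1 t 10 41 5 = true :=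
  ⟨(a (b (l 3) (a (l 2) (a (b (l 532406863) (l 2)) (b (b (l 3) (a (l 532392015) (a (l 532380239) (b (b (l 3) (b (l 532370575) (l 532373903))) (l 532381583))))) (a (b (l 532406351) (l 2)) (b (b (l 532407695) (l 532394063)) (a (l 16774800) (l 16774560)))))))) (b (a (l 3) (b (l 3) (b (l 3) (b (a (l 3) (l 531672351)) (b (l 532309903) (l 531789455)))))) (b (b (a (b (b (l 3) (l 532157583)) (b (l 532170127) (l 532716175))) (b (b (l 532341647) (a (l 531900559) (l 531740303))) (b (a (l 531913359) (l 531751823)) (a (l 531923855) (l 531762063))))) (b (b (a (a (l 532270991) (l 532099727)) (a (l 531931791) (l 531769999))) (a (a (b (a (l 532311951) (l 532228239)) (a (l 532311951) (l 532228239))) (b (l 532102287) (l 532103055))) (a (b (l 531935887) (l 531937679)) (b (l 531774607) (l 531777167))))) (a (a (b (a (a (l 532338575) (l 532294543)) (l 532230543)) (l 533621647)) (b (a (l 532146831) (l 532063631)) (a (l 532150927) (l 532067471)))) (a (b (l 532208783) (a (l 16775664) (l 16772312))) (b (l 531780239) (l 532052367))))))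 (a (a (a (b (b (l 532334735) (b (l 532345743) (l 532352655))) (a (l 16774312) (l 16774024))) (b (b (l 532246415) (b (l 532257679) (l 16775096))) (b (l 16774176) (l 16770336)))) (a (b (b (l 532159631) (b (l 16775088) (l 16774464))) (b (l 16773520) (l 16769656))) (b (b (b (l 16775704) (l 16775064)) (l 16774104)) (b (l 16770208) (l 16768944))))) (a (a (b (b (l 16774688) (l 16773384)) (b (l 16769472) (l 16768184))) (b (b (l 16773944) (l 16772624)) (b (l 16768688) (l 16767384)))) (a (b (b (l 16773152) (l 16769192)) (l 16772440)) (b (b (l 16769688) (l 16768336)) (l 16771552)))))))), by decide +kernel⟩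

def k11_A00pm_102_s1 : ∃ t, chk3 f_A00pm_102_s1 t 22 82 5 = true :=
  ⟨(b (a (l 3) (b (a (l 3) (b (l 3) (a (l 3) (l 530378527)))) (b (a (b (l 3) (c (l 531194511) (l 531338639))) (a (c (l 531146015) (l 531285023)) (l 530660239))) (a (b (l 531286671) (l 531295375)) (b (a (l 531237263) (l 531206543)) (a (l 531244431) (l 531212687))))))) (a (b (a (b (l 3) (a (l 3) (b (l 3) (c (a (l 531424143) (l 531398799)) (l 532598927))))) (b (l 531385375) (b (l 531401103) (a (b (l 531430799) (l 531435919)) (l 531390095))))) (a (a (b (l 531566479) (l 531595663)) (b (a (l 531513375) (b (l 531479439) (l 531492751))) (l 531793695))) (c (b (b (l 531359375) (l 531374991)) (b (l 531391119) (l 531407247))) (b (b (l 531463055) (l 531469455)) (l 531478047))))) (b (b (a (l 531307807) (a (l 531254815) (l 531221535))) (a (b (l 531320463) (l 531328399)) (b (l 531247503) (l 531253391)))) (b (a (b (l 531336335) (l 531344527)) (b (l 531259535) (l 531265167))) (a (b (l 531352207) (l 531359887)) (b (l 531270799) (l 531276175))))))), by decide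 +kernel⟩

def k12_A00pm_102_s1 : ∃ t, chk3 f_A00pm_102_s1 t 22 83 5 = true :=
  ⟨(a (b (b (b (a (a (l 531621519) (l 531547935)) (b (l 531461775) (l 531470479))) (a (b (l 531594127) (l 532944527)) (a (l 531507999) (l 531455519)))) (b (a (b (c (l 531604367) (l 531606159)) (b (l 531613327) (l 531624079))) (b (l 531490079) (a (l 532595343) (l 16768392)))) (a (b (l 531627151) (l 532167567)) (a (l 16768312) (l 16767320))))) (a (a (b (a (l 16770968) (l 16767888)) (l 16770616)) (b (a (l 16767416) (l 16766928)) (l 16769640))) (a (b (a (l 16766440) (l 16765944)) (l 16763376)) (b (a (l 16765432) (l 16764920)) (l 16762328))))) (b (b (b (a (b (l 531366799) (l 531373199)) (b (l 531281039) (l 531285391))) (a (a (l 531405599) (l 16765488)) (a (l 16761768) (l 16760624)))) (b (a (b (l 531387791) (l 531390751)) (a (l 16760312) (l 16764400))) (a (a (l 16766288) (l 16765208)) (c (l 16763456) (l 16763528))))) (c (a (b (a (l 16764112) (l 16763008)) (l 16765928)) (b (b (l 16761992) (l 16760528)) (l 16758328))) (a (b (a (l 16764128)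 (l 16763040)) (l 16765928)) (b (a (l 16761904) (l 16760720)) (l 16758360)))))), by decide +kernel⟩

def k13_A00pm_102_s1 : ∃ t, chk3 f_A00pm_102_s1 t 23 41 5 = true :=
  ⟨(b (b (a (b (b (a (a (l 530072863) (l 530587535)) (a (l 530827663) (a (l 531096719) (l 531101839)))) (a (a (l 530352783) (l 530597263)) (a (l 531111567) (l 531102863)))) (a (b (a (l 530632591) (l 530606479)) (l 530628895)) (a (b (l 531118991) (l 531126159)) (b (l 531106191) (l 531109775))))) (b (a (b (l 530848143) (l 530848911)) (l 531139871)) (a (b (l 531117967) (l 531117967)) (l 530868255)))) (b (a (a (b (b (l 531172751) (l 531177359)) (l 531183903)) (b (l 530578207) (l 530581903))) (a (b (l 531117711) (l 531116831)) (l 530862879))) (a (a (b (b (l 531190159) (l 531193999)) (l 531199263)) (b (l 530584719) (a (l 531149199) (l 16763880)))) (a (b (l 531115295) (l 16761936)) (l 530854943))))) (b (b (a (b (a (l 531473695) (a (l 16758432) (l 16762376))) (a (c (l 16758744) (l 16764112)) (c (l 16761424) (l 16761568)))) (a (b (l 531109151) (l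 16758888)) (l 16756984))) (a (b (a (b (l 16757704) (l 16756960)) (l 16754760)) (a (l 16755840) (l 16758480))) (b (a (l 16757352) (l 16744176)) (a (l 16755808) (l 16753096))))) (a (a (a (b (l 16759472) (l 16756488)) (b (l 16758192) (l 16755192))) (b (a (l 16756872) (l 16755520)) (l 16758400))) (a (b (a (l 16754168) (l 16752816)) (l 16745152)) (b (l 16745520) (l 16747632)))))), by decide +kernel⟩

def k14_A00pm_102_s1 : ∃ t, chk3 f_A00pm_102_s1 t 5 40 6 = true :=
  ⟨(a (l 3) (b (l 3) (a (l 3) (b (a (l 3) (b (l 3) (a (l 3) (b (l 531149967) (l 531144079))))) (a (b (l 3) (a (b (l 3) (a (l 3) (b (l 3) (l 531241615)))) (a (b (l 3) (b (a (l 531220879) (l 531206031)) (l 531209359))) (b (l 531192463) (c (l 531193999) (l 531163279)))))) (a (b (b (l 531171983) (l 531167375)) (b (l 531162511) (b (l 531158671) (l 531155855)))) (b (l 531134751) (b (l 531125391) (l 531118735))))))))), by decide +kernel⟩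

def k15_A00pm_102_s1 : ∃ t, chk3 f_A00pm_102_s1 t 10 41 6 = true :=
  ⟨(a (b (l 3) (a (l 2) (b (b (l 3) (b (a (l 2) (a (l 531853647) (b (l 3) (a (l 531844943) (l 533448479))))) (l 531887503))) (b (b (a (l 2) (l 531869071)) (l 531872847)) (b (b (l 531876655) (b (b (l 531878447) (b (l 531879215) (a (l 2) (a (l 2) (l 16771816))))) (l 531880543))) (l 531883615)))))) (b (a (l 3) (b (l 3) (b (l 3) (b (c (l 531692687) (l 531565711)) (c (l 531696783) (l 531566735)))))) (b (b (b (a (b (l 3) (l 531768719)) (b (l 531639183) (l 531638671))) (a (b (l 531768463) (l 531767439)) (b (l 531906447) (a (l 531669903) (l 531605647))))) (b (b (a (l 532571279) (a (l 531668367) (l 531604111))) (a (a (c (b (l 531918991) (l 531918991)) (l 532480399)) (b (l 531732367) (l 531731599))) (a (a (l 531682959) (l 531650447)) (l 531602207)))) (b (a (a (c (a (l 531943823) (l 531896719)) (l 531676047)) (l 532268431)) (a (l 531665807) (l 531601039))) (a (a (l 531801999) (c (l 531829647) (l 531634831))) (a (l 532203151) (l 531601039)))))) (a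 (a (c (a (b (b (l 531955343) (l 16775656)) (l 16773680)) (b (b (l 16776400) (l 16775072)) (b (l 16771120) (l 16769800)))) (b (b (l 531681935) (a (l 16775432) (l 16774840))) (a (l 16773336) (l 16775368)))) (a (b (b (l 531754127) (b (l 16774672) (l 16771368))) (b (l 16772960) (l 16768968))) (b (b (b (l 16775392) (l 16772080)) (l 16773672)) (b (l 16769672) (l 16768296))))) (a (a (b (b (l 16774360) (l 16770352)) (l 16773520)) (b (b (l 16771016) (l 16769616)) (l 16772776))) (a (b (a (l 16772368) (l 16769352)) (l 16766752)) (b (a (l 16768952) (l 16768536)) (l 16765928)))))))), by decide +kernel⟩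

def k16_A00pm_102_s1 : ∃ t, chk3 f_A00pm_102_s1 t 22 82 6 = true :=
  ⟨(b (a (l 3) (b (a (l 3) (b (l 3) (a (l 3) (c (l 531303055) (l 531279647))))) (a (b (b (l 3) (b (l 3) (l 531390095))) (b (l 531389471) (l 531388303))) (b (b (c (l 531320719) (l 531292815)) (a (c (l 531338895) (l 531308319)) (l 531297423))) (b (a (c (l 531339407) (l 531305359)) (l 531295631)) (a (l 531330703) (l 531293327))))))) (a (b (b (a (l 3) (l 531468319)) (b (a (l 3) (l 531466895)) (c (a (a (l 3) (l 531550351)) (l 531483279)) (a (a (l 3) (l 531490191)) (l 531427471))))) (b (a (a (l 531561615) (c (l 532357407) (b (l 531488143) (l 531491471)))) (c (b (l 531484047) (l 531484815)) (b (l 531425679) (l 531424399)))) (a (a (l 531561615) (l 531531807)) (a (l 531486351) (l 531441439))))) (b (b (a (l 531386143) (a (l 531327519) (l 531289887))) (a (b (l 531383695) (l 531381647)) (b (l 531304847) (l 531302287)))) (b (a (b (l 531379599) (l 531378063)) (b (l 531299471) (l 531297167))) (a (b (l 531376783) (l 531375759)) (b (l 531295119) (l 531293071))))))),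 by decide +kernel⟩

def k17_A00pm_102_s1 : ∃ t, chk3 f_A00pm_102_s1 t 22 83 6 = true :=
  ⟨(a (b (b (a (b (b (l 531552143) (l 531551887)) (b (l 531551375) (l 531550607))) (b (b (l 531463823) (l 531463567)) (b (l 531463055) (l 531462287)))) (b (a (b (l 532086415) (b (l 531548559) (l 531538319))) (b (l 531461263) (a (l 16769312) (l 16768344)))) (a (a (l 16770032) (l 16769160)) (a (l 16768240) (l 16767256))))) (a (a (b (a (l 16768112) (l 16767688)) (l 16765072)) (b (a (l 16767248) (l 16766792)) (l 16764176))) (a (b (a (l 16766328) (l 16765840)) (l 16763224)) (b (a (l 16765344) (l 16764832)) (l 16762216))))) (b (b (b (a (b (l 531374735) (l 531373711)) (b (l 531291279) (l 531289487))) (a (l 531372063) (a (l 16761760) (l 16765864)))) (b (a (a (l 16762448) (l 16761384)) (b (l 16760072) (l 16759328))) (a (c (l 16765736) (l 16765640)) (b (l 16758584) (l 16763088))))) (a (a (b (l 16764048) (l 16761144)) (b (l 16762952) (l 16760032))) (a (b (l 16761816) (l 16758872)) (b (l 16760640) (l 16757672)))))), by decide +kernel⟩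

def k18_A00pm_102_s1 : ∃ t, chk3 f_A00pm_102_s1 t 23 41 6 = true :=
  ⟨(b (b (a (b (a (b (c (l 531255071) (a (l 531250975) (l 531217551))) (c (l 531254159) (l 531495711))) (a (b (l 531205151) (l 531202447)) (b (a (l 531187343) (l 531176591)) (l 531175311)))) (c (a (b (l 531252879) (l 531251087)) (b (l 531458335) (l 531185039))) (a (b (l 531219999) (l 531212319)) (b (l 531689359) (l 531143567))))) (b (a (b (c (l 531170191) (l 531112847)) (l 531143199)) (b (l 531111055) (l 531102607))) (a (b (l 531134863) (l 531125903)) (b (l 531093391) (l 531083663))))) (b (a (a (b (b (l 531237007) (l 531233935)) (l 531229215)) (b (a (l 531183759) (l 531152527)) (a (l 531176335) (l 531144079)))) (a (b (l 531116687) (l 531106959)) (b (l 531073423) (l 531062927)))) (a (b (a (l 531222559) (b (l 531151247) (l 531147151))) (a (l 531216927) (l 531946783))) (b (a (l 531096975) (l 531051919)) (a (l 531356047) (l 16759040)))))) (b (b (a (b (a (l 531211807) (a (l 16763680) (l 16762368))) (a (l 531206687) (a (l 16762160) (l 16760840))))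 (b (a (l 531884175) (l 16757472)) (a (l 16758784) (l 16755912)))) (a (b (a (b (l 16762928) (l 16762176)) (l 16749480)) (a (l 16761040) (l 16758432))) (b (a (l 16757232) (l 16754336)) (a (l 16755672) (l 16752760))))) (a (a (b (a (l 16759416) (l 16758136)) (l 16766264)) (b (l 16750896) (l 16753096))) (a (b (l 16742856) (l 16750256)) (b (l 16750408) (l 16747280)))))), by decide +kernel⟩

def k19_A00pm_102_s1 : ∃ t, chk3 f_A00pm_102_s1 t 5 40 7 = true :=
  ⟨(a (l 3) (b (l 3) (a (l 3) (a (b (l 3) (b (l 3) (b (a (l 3) (a (l 3) (l 530997135))) (a (a (l 3) (b (l 3) (l 531050639))) (a (a (l 531028767) (b (c (l 531091343) (l 530922383)) (l 531010447))) (c (l 531057807) (l 531148831))))))) (b (b (l 3) (a (l 3) (b (l 530932623) (l 530910863)))) (b (a (b (l 530972303) (l 530951311)) (l 531146527)) (a (b (l 530930063) (b (l 530914447) (l 530904975))) (b (l 530845071) (l 530823567))))))))), by decide +kernel⟩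

def k20_A00pm_102_s1 : ∃ t, chk3 f_A00pm_102_s1 t 10 41 7 = true :=
  ⟨(a (b (l 3) (a (l 2) (b (b (l 3) (b (a (l 2) (a (l 531291215) (b (l 3) (b (l 532350863) (l 531275407))))) (l 531798671))) (b (b (a (l 2) (l 531267983)) (l 531296591)) (b (b (l 531299119) (b (a (l 2) (a (l 2) (l 16771336))) (l 531301727))) (l 531305055)))))) (b (a (l 3) (b (l 3) (b (l 3) (b (c (l 531372431) (l 531923343)) (c (l 531382671) (l 531149199)))))) (b (b (b (a (b (l 3) (l 531267215)) (b (l 531287695) (l 531297935))) (a (b (l 531277199) (l 531287695)) (b (l 531308687) (l 532930447)))) (b (b (a (l 531566735) (a (l 531325839) (l 531336847))) (a (a (c (l 532766095) (b (l 531163791) (l 531167375))) (b (l 531318159) (l 531322767))) (b (l 532682895) (l 531883151)))) (b (a (a (c (l 531427471) (a (l 531155087) (l 531184527))) (l 531863695)) (a (l 531346063) (l 531358351))) (a (a (l 531298447) (c (l 531432847) (l 531224463))) (a (l 531619215) (l 531364751)))))) (a (a (a (b (b (l 531286415) (b (l 531283599) (l 531282319))) (a (l 16770336)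 (l 16770040))) (b (b (l 531306127) (a (l 16772008) (l 16771704))) (a (l 16774992) (l 16769448)))) (a (b (b (l 531323023) (b (l 531321487) (l 16770856))) (b (l 16774984) (l 16768240))) (b (b (c (l 16772168) (l 16771984)) (b (l 16770952) (l 16770208))) (l 16773592)))) (a (a (b (b (b (l 16771752) (l 16771016)) (l 16769904)) (l 16772920)) (b (b (l 16770664) (l 16769192)) (l 16766984))) (a (b (b (l 16769920) (l 16768448)) (l 16766248)) (b (b (l 16769136) (l 16767672)) (l 16765488)))))))), by decide +kernel⟩

def k21_A00pm_102_s1 : ∃ t, chk3 f_A00pm_102_s1 t 22 82 7 = true :=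
  ⟨(b (b (a (l 3) (a (l 3) (b (l 3) (a (l 3) (b (b (l 3) (l 531098399)) (a (l 531102239) (l 531084687))))))) (a (l 3) (b (b (a (l 3) (a (a (l 3) (l 531113247)) (l 531086623))) (b (a (l 3) (a (c (l 531200287) (l 531015199)) (l 531081615))) (a (c (l 531252879) (l 531063183)) (a (c (l 531197327) (l 531011471)) (l 531078287))))) (a (b (c (l 531248271) (l 531057039)) (l 531155231)) (b (a (c (l 531192975) (l 531005583)) (l 531073055)) (a (l 531101471) (l 531065999))))))) (a (b (b (a (l 3) (b (l 531220367) (l 531212943))) (b (a (l 3) (l 531205263)) (a (a (l 3) (c (l 532154511) (a (l 531138703) (l 531125903)))) (b (l 531199375) (b (l 531196559) (l 531194767)))))) (b (a (a (l 531261583) (b (a (l 531265935) (l 531778847)) (l 531268383))) (c (b (l 531291535) (l 531291535)) (b (a (l 531102351) (l 531063183)) (l 531090063)))) (a (a (l 531281039) (l 531285023)) (a (l 531505295) (l 531459359))))) (a (b (b (b (l 531147919) (l 531140751)) (b (l 531133327) (l 531125647))) (b (b (l 531120271) (l 531120527)) (b (l 531124367)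 (l 531130767)))) (b (b (a (l 531090719) (l 531055391)) (b (l 531062159) (l 531054735))) (b (b (l 531048847) (l 531046799)) (b (l 531048079) (l 531051663))))))), by decide +kernel⟩

def k22_A00pm_102_s1 : ∃ t, chk3 f_A00pm_102_s1 t 22 83 7 = true :=
  ⟨(a (b (b (a (b (b (l 531319183) (l 531331727)) (b (l 531344271) (l 531357327))) (b (b (l 531230863) (l 531243407)) (b (l 531256975) (l 531270799)))) (b (a (b (l 532444559) (b (l 531381647) (l 531356303))) (c (l 532151327) (l 532840223))) (a (a (l 16769784) (l 16768928)) (a (l 16768008) (l 16766992))))) (c (a (a (b (l 16767680) (l 16764800)) (b (l 16766832) (l 16763952))) (b (a (l 16765912) (l 16764912)) (l 16767784))) (a (a (b (l 16767512) (l 16764592)) (b (l 16766680) (l 16763784))) (b (a (l 16765760) (l 16764744)) (l 16767632))))) (b (b (b (a (b (l 531139215) (l 531148687)) (b (l 531057039) (l 531063951))) (a (l 531165471) (a (l 16761376) (l 16765432)))) (b (a (a (l 16762136) (l 16766280)) (b (l 16770152) (l 16769416))) (a (c (l 16765480) (l 16765256))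 (l 16757824)))) (a (a (b (l 16763752) (l 16760872)) (b (l 16762624) (l 16759728))) (b (a (l 16761456) (l 16760232)) (l 16768408))))), by decide +kernel⟩

def k23_A00pm_102_s1 : ∃ t, chk3 f_A00pm_102_s1 t 23 41 7 = true :=
  ⟨(b (b (a (b (a (b (a (a (l 3) (a (l 531070751) (l 531062047))) (l 531040543)) (a (c (l 531141407) (b (l 530967439) (l 530960015))) (c (l 531106447) (l 530929295)))) (a (b (b (l 531015311) (l 531003279)) (l 530992927)) (b (a (l 530976655) (l 530951823)) (l 530951711)))) (a (b (a (b (l 531051663) (l 531044751)) (l 531013407)) (a (b (l 531037839) (l 531030927)) (l 530999839))) (b (a (l 530978959) (l 530939423)) (a (l 530965135) (l 530926479))))) (b (a (b (c (l 530983567) (l 530784911)) (a (l 530902415) (l 530855311))) (b (l 530804623) (l 530787983))) (a (b (l 530865039) (l 530852239)) (b (l 530772623) (l 530758287))))) (b (a (a (b (b (l 531006351) (l 530999439)) (b (l 530992271) (l 530985103))) (b (a (l 530951311) (l 530913935)) (a (l 530937231) (l 530900623)))) (a (b (l 530839951) (l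 530827919)) (b (l 530744719) (l 530731919)))) (a (a (b (b (l 530978959) (l 530975887)) (l 531244319)) (b (b (l 530916239) (l 530912911)) (a (l 530922127) (l 16763336)))) (b (a (l 530818079) (l 530720399)) (a (l 530814751) (l 16752776)))))) (b (b (a (b (a (l 531250975) (c (l 16767896) (l 16767472))) (a (l 531800095) (b (l 16761296) (l 16760528)))) (b (a (l 530817823) (l 16756408)) (a (l 16758000) (l 16754816)))) (a (b (a (l 16756816) (l 16748896)) (a (l 16760560) (l 16757864))) (b (a (l 16756448) (l 16753232)) (a (l 16754904) (l 16751672))))) (a (a (b (l 16753072) (l 16755352)) (b (l 16745096) (l 16752592))) (a (b (l 16752600) (l 16749568)) (b (l 16749320) (l 16746248)))))), by decide +kernel⟩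

def k24_A00pm_102_s1 : ∃ t, chk3 f_A00pm_102_s1 t 10 21 1 = true :=
  ⟨(a (a (l 2) (l 532237407)) (b (b (c (b (a (a (a (c (l 16774200) (l 16773176)) (c (l 16773544) (l 16772544))) (a (c (l 16772784) (l 16771832)) (a (l 16771704) (l 16771288)))) (a (b (a (l 16771864) (l 16770992)) (c (l 16769392) (l 16773784))) (a (b (l 16770072) (l 16762288)) (b (l 16769096) (l 16761256))))) (c (a (a (l 16774872) (l 16773216)) (a (l 16771152) (l 16768896))) (a (a (l 16773304) (l 16771800)) (a (l 16770000) (l 16768024))))) (a (a (b (a (c (l 16772072) (l 16770904)) (c (l 16771472) (l 16770328))) (a (l 16760560) (l 16759968))) (a (b (c (l 16770816) (l 16769736)) (l 16769832)) (b (b (l 16771056) (l 16762960)) (l 16758696)))) (a (b (a (b (l 16770368) (l 16762272)) (b (l 16764408) (l 16761552))) (a (l 16758008) (l 16757288))) (b (c (b (l 16768792) (l 16760768)) (b (l 16768200) (l 16760032))) (a (l 16756536) (l 16755744)))))) (a (a (a (l 2) (c (l 16756528) (l 16751464))) (a (c (l 16755720) (l 16750848)) (c (l 16765216) (l 16750192))))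 (a (b (c (l 16765904) (l 16772952)) (a (l 16770080) (l 16769104))) (c (a (l 16772216) (l 16770944)) (c (l 16769392) (l 16767840)))))) (a (a (l 2) (b (c (l 16746328) (l 16739264)) (l 2))) (a (b (c (l 16764992) (l 16758872)) (l 16752080)) (b (c (l 16762240) (l 16757376)) (c (l 16732272) (l 16725248))))))), by decide +kernel⟩

def k25_A00pm_102_s1 : ∃ t, chk3 f_A00pm_102_s1 t 22 21 1 = true :=
  ⟨(b (b (a (a (c (b (a (b (l 16768072) (l 16760184)) (a (l 16765920) (l 16765360))) (c (l 16766416) (l 16765872))) (c (b (c (l 16770984) (l 16770784)) (l 16754808)) (a (l 16767952) (l 16767160)))) (c (a (b (a (l 16764792) (l 16764224)) (l 16753832)) (b (c (l 16768632) (l 16758088)) (l 16752592))) (a (c (l 16766632) (l 16766296)) (b (a (l 16758080) (l 16757552)) (l 16752136))))) (a (a (c (b (c (l 16756944) (l 16756952)) (l 16761832)) (c (l 16764472) (l 16764248))) (c (b (c (l 16755728) (l 16755792)) (l 16750072)) (c (l 16763304) (l 16763088)))) (c (c (b (c (l 16764232) (l 16764352)) (l 16748064)) (a (l 16762168) (l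 16760888))) (b (a (l 16764872) (l 16763624)) (c (l 16748072) (l 16747872)))))) (c (a (b (a (l 16760992) (l 16758328)) (a (l 16745472) (l 16742592))) (a (c (l 16763504) (l 16763288)) (b (l 16752872) (l 16736752)))) (a (a (b (l 16748832) (l 16743192)) (b (l 16746976) (l 16741336))) (a (b (l 16765744) (l 16739152)) (c (l 16739504) (l 16739400)))))) (a (b (c (a (l 16759136) (l 16755936)) (c (l 16755520) (l 16754144))) (a (a (l 16768928) (l 16767592)) (c (l 16725240) (l 16721784)))) (a (b (c (l 16752712) (l 16730744)) (c (l 16721592) (l 16719608))) (b (c (l 16749504) (l 16728184)) (c (l 16717936) (l 16717088)))))), by decide +kernel⟩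

def k26_A00pm_102_s1 : ∃ t, chk3 f_A00pm_102_s1 t 23 21 1 = true :=
  ⟨(b (a (c (b (a (a (c (l 16759368) (l 16759560)) (c (l 16757944) (l 16758192))) (a (c (l 16756480) (l 16756784)) (c (l 16754992) (l 16755336)))) (a (b (l 16760488) (l 16733744)) (b (l 16736480) (l 16730576)))) (c (b (b (a (l 16761800) (l 16748568)) (a (l 16745416) (l 16742576))) (a (l 16736704) (l 16733736))) (b (a (b (l 16750984) (l 16745192)) (b (l 16748168) (l 16742320))) (a (l 16736624) (l 16733656))))) (b (c (c (a (a (l 16753528) (l 16752096)) (a (l 16750696) (l 16749336))) (b (a (l 16756248) (l 16742936)) (a (l 16739616) (l 16736688)))) (b (a (c (l 16745664) (l 16745104)) (c (l 16742624) (l 16741728))) (a (l 16749920) (l 16725688)))) (c (a (c (l 16730192) (l 16730536)) (c (l 16727176) (l 16727448))) (a (b (l 16733496) (l 16727616)) (b (l 16730160) (l 16724208)))))) (c (a (b (a (l 16746208) (l 16721888)) (b (l 16736112) (l 16751632))) (b (c (l 16737632) (l 16737976)) (a (l 16706968) (l 16703448)))) (a (b (c (l 16744744) (l 16765840))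 (a (l 16714192) (l 16711032))) (b (c (l 16759104) (l 16717160)) (a (l 16707560) (l 16703888)))))), by decide +kernel⟩

def k27_A00pm_102_s1 : ∃ t, chk3 f_A00pm_102_s1 t 2 11 1 = true :=
  ⟨(a (l 2) (a (a (l 2) (b (b (a (l 2) (a (l 2) (a (l 2) (l 16755440)))) (l 2)) (l 2))) (c (b (a (a (b (a (l 16757488) (l 16753552)) (l 16738456)) (b (a (l 16749376) (l 16744976)) (a (l 16689744) (l 16684936)))) (a (b (a (l 16698744) (l 16736472)) (a (l 16679912) (l 16674688))) (b (a (l 16732272) (l 16728320)) (a (l 16669728) (l 16665104))))) (a (a (l 2) (c (l 16749496) (l 16742872))) (b (a (l 16743616) (l 16690488)) (a (l 16643296) (l 16631192))))) (b (a (a (b (a (l 16749024) (l 16747192)) (l 16663472)) (b (c (l 16744680) (l 16680000)) (l 16722096))) (b (a (b (l 16680568) (l 16690688)) (c (l 16730800) (l 16647360))) (a (l 16716416) (a (l 16669328) (l 16665352))))) (a (b (a (l 2) (l 16658832)) (l 2)) (a (b (l 16653192) (l 16632296)) (b (l 16646144) (l 16625280)))))))), by decide +kernel⟩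

def k28_A00pm_102_s1 : ∃ t, chk3 f_A00pm_102_s1 t 2 3 1 = true :=
  ⟨(a (l 2) (b (a (l 2) (b (a (l 2) (a (l 2) (b (b (l 16693944) (l 2)) (l 2)))) (l 2))) (l 2))), by decide +kernel⟩

def k29_A00pm_102_s1 : ∃ t, chk3 f_A00pm_102_s1 t 12 4 2 = true :=
  ⟨(c (b (l 3) (b (l 3) (b (l 3) (a (l 3) (b (a (l 3) (b (l 3) (a (l 3) (b (l 3) (a (l 3) (b (l 3) (a (l 3) (l 531308943)))))))) (a (b (l 3) (a (b (l 3) (b (l 3) (a (l 3) (c (b (l 3) (l 530818703)) (l 531250319))))) (b (a (l 3) (b (l 3) (c (l 530570783) (l 531401615)))) (c (b (a (b (l 530416271) (l 530921871)) (l 530978191)) (l 530360463)) (l 531054735))))) (b (b (a (l 3) (a (b (l 3) (b (c (l 531171983) (l 531538831)) (l 530996111))) (b (b (l 531243919) (a (l 531174799) (l 531596687))) (a (l 531033999) (l 531317135))))) (a (b (a (l 3) (b (a (l 3) (l 530942863)) (l 530904975))) (a (b (l 3) (a (l 3) (l 530822287))) (l 530726687))) (a (b (l 530951055) (l 531430543)) (b (l 530981775) (l 531462287))))) (a (b (b (a (b (l 530785423) (l 530757775)) (l 530805647))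 (l 530466447)) (b (l 530416271) (l 531174031))) (b (b (l 530653583) (l 531340687)) (l 531001487)))))))))) (b (l 3) (b (l 3) (b (l 3) (a (l 3) (b (a (l 3) (b (l 3) (a (l 3) (b (l 3) (a (l 3) (b (l 3) (l 531351951))))))) (a (b (l 3) (b (a (l 3) (b (l 3) (a (l 3) (l 531399311)))) (a (b (l 3) (a (l 3) (l 531343759))) (a (l 531104399) (l 531402383))))) (b (a (b (l 3) (b (a (l 3) (l 531446671)) (a (l 531422351) (l 531450255)))) (b (a (b (l 3) (l 531469711)) (b (a (l 531485071) (l 531498127)) (l 531496335))) (a (l 531475599) (l 531502479)))) (a (b (l 531037839) (l 531444879)) (b (l 531495567) (l 531500175))))))))))), by decide +kernel⟩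

def k30_A00pm_102_s1 : ∃ t, chk3 f_A00pm_102_s1 t 13 4 4 = true :=
  ⟨(a (b (l 3) (b (l 3) (b (a (l 3) (b (l 3) (a (b (l 3) (b (l 3) (a (l 3) (b (a (l 3) (l 531679119)) (l 531567503))))) (a (b (l 3) (b (l 531543951) (b (l 531563151) (l 531592847)))) (b (c (l 531520655) (l 531536015)) (b (l 531567247) (l 531602063))))))) (b (a (b (a (l 3) (b (a (l 3) (a (l 3) (b (l 3) (l 531579791)))) (a (b (l 3) (l 531593103)) (b (l 531598991) (l 531624079))))) (a (b (a (l 3) (b (c (l 531595407) (l 531569039)) (l 531603599))) (a (c (l 531342879) (l 531578767)) (l 531632015))) (b (a (l 531626639) (l 531658895)) (l 531683727)))) (b (a (b (a (c (b (l 531577743) (l 531610255)) (l 531579279)) (l 531614095)) (l 531655823)) (b (l 531653263) (l 531712655))) (a (l 531325583) (l 531789967)))) (b (a (b (a (b (l 531370895) (l 531621007)) (l 531707023)) (a (b (l 531563151) (l 531508367)) (l 531595407))) (a (l 531707279) (l 531762831))) (a (a (b (l 531431823) (l 531339663)) (l 531451535)) (l 531543183))))))) (b (l 3) (b (b (l 3) (a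 (l 3) (b (l 3) (b (l 3) (a (l 3) (l 531407759)))))) (b (a (b (a (b (l 3) (b (l 3) (a (l 3) (l 531522191)))) (b (l 531449487) (l 531532431))) (b (a (a (l 531549327) (l 531570575)) (a (l 531859599) (l 531611023))) (a (b (l 531600783) (l 531636879)) (a (l 531115407) (l 531404943))))) (b (b (l 531496591) (l 531315599)) (b (b (l 531639695) (l 531403663)) (a (l 531435151) (l 531742095))))) (a (b (a (b (l 531735439) (l 531848335)) (b (l 531784847) (l 531903631))) (b (l 531839631) (l 531665039))) (b (b (l 531851663) (l 531978895)) (b (l 531945615) (a (l 16741272) (l 16736800))))))))), by decide +kernel⟩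

def k31_A00pm_102_s1 : ∃ t, chk3 f_A00pm_102_s1 t 13 4 5 = true :=
  ⟨(a (b (l 3) (b (l 3) (b (a (l 3) (b (l 3) (a (a (l 3) (b (l 3) (b (l 3) (l 531556239)))) (b (l 531290767) (b (l 531575439) (l 531588239)))))) (b (a (b (a (l 3) (b (a (l 3) (c (l 531539599) (l 531526543))) (a (l 531260559) (l 531552655)))) (a (b (a (l 3) (l 531252367)) (a (l 531240591) (l 531534223))) (b (l 531557263) (l 531571087)))) (b (a (b (l 531566991) (l 531587215)) (l 531353231)) (l 531633551))) (a (a (b (b (l 531566111) (l 531541647)) (l 531550095)) (b (l 531318671) (l 531600783))) (b (l 531657871) (l 531671951))))))) (b (l 3) (b (b (l 3) (a (l 3) (b (l 3) (b (l 3) (a (l 3) (l 531590031)))))) (b (a (b (a (b (l 3) (b (l 3) (l 531579535))) (l 531054479)) (a (b (l 531600527) (l 531355023)) (b (l 531640463) (l 531395471)))) (b (l 531645327) (b (a (l 531679119) (l 531716239)) (l 531182991)))) (a (b (a (b (l 531664783) (l 531701903)) (l 531996447)) (b (l 531747215) (l 531761039))) (b (b (l 531495823) (l 531803535)) (b (l 531829903)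 (a (l 16741760) (l 16737184))))))))), by decide +kernel⟩

def k32_A00pm_102_s1 : ∃ t, chk3 f_A00pm_102_s1 t 12 4 3 = true :=
  ⟨(c (b (l 3) (b (l 3) (b (l 3) (a (l 3) (b (a (l 3) (b (l 3) (a (l 3) (b (l 3) (a (l 3) (b (l 3) (l 531357071))))))) (a (b (l 3) (a (b (l 3) (a (l 3) (b (l 3) (l 531192719)))) (b (b (l 3) (a (l 3) (l 531236239))) (b (l 531219855) (l 531210127))))) (b (a (b (l 3) (b (a (l 3) (l 531293839)) (l 531544463))) (b (a (b (l 3) (l 531318927)) (b (l 531613471) (l 531333263))) (a (l 531301775) (l 531315343)))) (a (b (l 530991503) (l 531238543)) (b (l 531016591) (l 531261839)))))))))) (a (l 3) (b (l 3) (b (l 3) (b (l 3) (b (a (l 3) (a (l 3) (b (l 3) (b (l 3) (a (l 3) (a (l 3) (l 531200655))))))) (a (b (l 3) (a (b (l 3) (a (l 3) (b (l 3) (c (l 531008143) (l 530852495))))) (b (a (l 3) (b (l 3) (l 530981775))) (a (b (l 531090575) (l 530928271)) (l 531206175))))) (b (a (b (l 3) (b (a (l 3) (l 531072911)) (a (l 531040911) (l 531040399)))) (b (a (b (l 3) (l 531107727)) (b (a (l 531144591) (l 531145871))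 (l 531109519))) (a (l 531056527) (l 531057039)))) (a (b (b (l 531008655) (l 530977679)) (l 530931599)) (b (a (l 530990735) (l 530989455)) (l 530925455))))))))))), by decide +kernel⟩

def k33_A00pm_102_s1 : ∃ t, chk3 f_A00pm_102_s1 t 13 4 6 = true :=
  ⟨(a (b (l 3) (b (l 3) (b (a (l 3) (b (l 3) (b (a (l 3) (l 531626383)) (a (c (l 531290767) (l 531308943)) (l 531604879))))) (b (a (a (b (l 3) (b (a (l 3) (l 531418767)) (l 531116943))) (b (b (l 531228815) (l 531469711)) (l 531160607))) (b (a (l 531248527) (l 531550863)) (l 530936207))) (a (a (b (b (l 531091599) (l 531335055)) (l 531028111)) (b (l 531240991) (l 531051919))) (b (l 530877071) (l 531354767))))))) (b (l 3) (b (b (l 3) (a (l 3) (b (l 3) (b (l 3) (a (l 3) (l 531822735)))))) (b (a (b (a (b (l 3) (l 531681167)) (l 531726735)) (a (b (l 531664783) (l 531641487)) (b (l 531702671) (l 531678095)))) (b (l 531784591) (b (l 531757967) (l 531731087)))) (a (b (a (l 531549583) (l 531581583)) (b (l 531467663) (l 531133583))) (b (b (l 531667087) (l 531594383))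 (b (l 530985103) (a (l 16718080) (l 16713008))))))))), by decide +kernel⟩

def k34_A00pm_102_s1 : ∃ t, chk3 f_A00pm_102_s1 t 13 4 7 = true :=
  ⟨(a (b (l 3) (b (l 3) (b (b (l 3) (a (l 3) (b (l 531700111) (a (l 531611791) (l 531641743))))) (b (a (b (a (l 3) (a (l 531287439) (l 531163791))) (a (b (l 531016079) (l 531206287)) (l 530988175))) (b (a (l 531448207) (l 531470991)) (l 531276943))) (a (a (b (b (l 531131023) (l 531327263)) (b (l 530988431) (l 530920847))) (b (l 530831391) (l 530683535))) (b (l 531108751) (l 530684047))))))) (b (l 3) (b (b (l 3) (b (l 3) (a (l 3) (b (l 3) (a (l 3) (b (l 531405711) (l 531753359))))))) (b (a (b (a (b (l 3) (l 531824015)) (l 531875215)) (a (b (l 531752335) (l 531672975)) (b (l 531787919) (l 531705231)))) (b (b (l 531845519) (l 531920527)) (b (l 531841935) (l 531754639)))) (a (b (a (l 531393935) (l 531415951)) (b (l 531129487) (l 530961807))) (b (b (l 531560847) (l 531351183)) (b (l 530621071) (a (l 16735792) (l 16709200))))))))), by decide +kernel⟩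

def k35_A00pm_102_s1 : ∃ t, chk3 f_A00pm_102_s1 t 14 8 1 = true :=
  ⟨(a (l 3) (b (l 3) (b (l 3) (a (l 3) (b (b (l 3) (b (a (l 3) (a (l 3) (a (l 3) (a (l 3) (c (l 530178959) (l 531784335)))))) (a (l 3) (a (l 3) (c (a (l 530189455) (c (l 529784719) (l 530350223))) (c (l 531036559) (l 530572175))))))) (c (a (c (a (b (l 3) (l 529849743)) (b (l 529816207) (a (l 529855119) (l 529857679)))) (b (l 530642063) (l 530706063))) (c (b (a (l 529820559) (b (l 530648719) (l 529833359))) (c (a (l 529662351) (l 529662607)) (a (l 530066575) (l 530071183)))) (b (a (l 530666383) (b (l 530691983) (l 530693775))) (a (l 530730639) (l 530742159))))) (a (c (b (l 531593871) (l 531685263)) (b (c (l 532339855) (l 531642767)) (a (l 531840655) (l 530783119)))) (b (a (c (l 531633807) (l 531758735)) (a (l 530571407) (b (l 531373199) (l 531950991)))) (c (a (l 531725711) (l 531745679)) (a (l 530804367) (l 530562447))))))))))), by decide +kernel⟩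

def k36_A00pm_102_s1 : ∃ t, chk3 f_A00pm_102_s1 t 15 16 1 = true :=
  ⟨(a (a (l 3) (b (l 3) (b (l 3) (b (l 3) (b (a (l 3) (a (l 3) (a (l 3) (a (l 3) (l 14))))) (a (l 3) (a (l 3) (c (c (a (c (a (c (l 529806735) (l 529946255)) (l 529881487)) (a (l 530165135) (l 530169231))) (c (a (l 529887631) (l 529894031)) (a (l 530173839) (l 530178703)))) (a (a (l 531173775) (l 530638479)) (l 530373007))) (a (b (l 530371727) (l 530101391)) (c (l 531331215) (l 532100751))))))))))) (a (b (l 14) (a (a (a (a (b (l 3) (b (l 3) (a (b (l 14) (b (l 14) (c (l 528978063) (l 531431567)))) (l 14)))) (l 14)) (l 14)) (l 14)) (l 14))) (l 14))), by decide +kernel⟩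

def k37_A00pm_102_s1 : ∃ t, chk3 f_A00pm_102_s1 t 60 34 1 = true :=
  ⟨(b (l 3) (c (a (l 3) (c (a (b (l 3) (c (b (l 529583759) (l 529554575)) (a (l 529937295) (l 529923983)))) (b (b (l 3) (a (l 529771151) (l 529760911))) (c (a (l 529549967) (l 529539727)) (a (l 529912207) (l 529901967))))) (a (b (l 3) (l 529180047)) (b (b (l 3) (l 530246799)) (b (l 530234511) (l 530226319)))))) (b (a (l 3) (a (l 3) (c (l 530560911) (l 532309903)))) (a (l 3) (c (a (l 530868367) (l 530576783)) (a (l 532395407) (l 532371343))))))), by decide +kernel⟩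

def k38_A00pm_102_s1 : ∃ t, chk3 f_A00pm_102_s1 t 122 34 1 = true :=
  ⟨(b (c (b (b (l 3) (a (l 3) (a (l 3) (a (l 3) (b (l 3) (l 529413263)))))) (a (a (l 3) (c (c (b (l 3) (l 529657743)) (l 530008975)) (l 529738895))) (c (c (a (b (l 529702287) (l 529653135)) (b (l 529699727) (l 529650575))) (a (l 530004367) (l 530537871))) (a (l 529464719) (b (l 530545551) (l 530521231)))))) (a (b (l 3) (c (l 530001551) (l 532234895))) (b (c (a (l 3) (l 530798479)) (l 531096975)) (c (a (l 531064207) (l 531058063)) (l 531678607))))) (c (c (b (a (a (b (l 529787535) (l 529752463)) (b (l 529780879) (l 529745807))) (a (b (l 530044559) (l 529740943)) (b (c (l 529606031) (l 529945999)) (l 529737871)))) (a (c (a (l 529531023) (l 529524367)) (a (l 529893519) (l 529886607))) (c (a (l 529519247) (l 529784719)) (a (l 529881487) (l 529877903))))) (a (a (b (l 530242447) (l 530217615)) (b (l 530235023) (l 530210447))) (a (b (l 530229391) (l 530204559)) (b (l 530225039) (l 530200463))))) (c (a (b (l 530273423) (l 530289807)) (b (b (l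 530791311) (l 530796687)) (b (l 530805391) (l 530817167)))) (a (b (l 532288143) (l 532350607)) (b (l 532000911) (l 532064143)))))), by decide +kernel⟩

def k39_A00pm_102_s1 : ∃ t, chk3 f_A00pm_102_s1 t 123 68 1 = true :=
  ⟨(c (a (c (b (b (a (l 3) (c (a (l 529813903) (l 529815183)) (l 530113679))) (a (c (l 529753487) (l 530064015)) (c (l 529754767) (l 530064527)))) (a (c (b (l 529699215) (l 529649807)) (b (l 530019727) (l 529979791))) (c (b (l 529700239) (l 529650575)) (b (l 530019983) (l 529979791))))) (b (a (b (l 3) (l 530570895)) (b (l 530601871) (l 530569871))) (a (b (l 530542735) (l 530518415)) (b (l 530541455) (l 530517135))))) (c (b (a (c (b (a (b (l 529833103) (l 529801615)) (l 530225807)) (a (l 529757327) (l 529760399))) (b (a (l 530117007) (l 530120079)) (a (l 530066319) (l 530068367)))) (b (c (a (l 530096783) (l 529835919)) (a (l 530123919) (l 530129551))) (c (a (l 529766287) (l 529773967)) (a (l 530072975) (l 530078607))))) (c (a (b (a (l 529702799) (l 529705359)) (l 530190367)) (b (a (l 529709967)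 (l 529716367)) (a (l 529659279) (l 529664911)))) (a (b (l 530022287) (l 529981839)) (b (l 530028943) (l 529987983))))) (b (a (b (b (l 530342799) (l 531129743)) (l 530032015)) (b (a (l 530605711) (l 530608527)) (a (l 530572687) (l 530575503)))) (a (b (l 530273423) (l 530785679)) (b (l 530276239) (l 530251663)))))) (b (b (a (c (l 529985679) (l 532138895)) (a (b (l 530101391) (l 530106511)) (b (l 530362255) (l 530364303)))) (a (c (l 530247055) (l 532159631)) (a (c (l 531317903) (l 532153231)) (b (l 530368655) (l 530373775))))) (b (a (c (l 530242959) (l 532182927)) (a (l 530120847) (b (l 530379151) (l 530385039)))) (a (c (l 530242191) (l 532208271)) (a (l 530132879) (l 530127135)))))), by decide +kernel⟩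

def k40_A00pm_102_s1 : ∃ t, chk3 f_A00pm_102_s1 t 123 69 1 = true :=
  ⟨(c (c (c (a (b (a (b (l 529605007) (l 529565327)) (b (l 529605775) (l 529566095))) (a (b (l 529530767) (l 529501071)) (b (l 529531279) (l 529501583)))) (a (b (b (l 529608591) (l 529568655)) (b (l 529533839) (l 16749608))) (a (b (l 529592975) (l 529522319)) (b (l 529866271) (b (l 16749632) (l 16745864)))))) (c (a (b (a (l 529840271) (l 529840527)) (a (l 529783439) (l 529783439))) (a (b (l 529842575) (l 529785487)) (b (l 529848207) (b (l 16751336) (l 16747736))))) (a (b (a (l 530018447) (l 530018191)) (a (l 529970319) (l 529970063))) (a (b (l 530019727) (l 529971599)) (b (l 530024591) (b (l 16752008) (l 16748512))))))) (c (c (a (b (a (l 530202767) (l 530201999)) (a (l 530163855) (l 530163087))) (b (a (l 530203023) (l 530206863)) (b (l 16759296) (a (l 16752056) (l 16749320))))) (a (b (a (l 530392975) (l 530391951)) (a (l 530363535) (l 530362511))) (b (a (l 530392463) (l 530395279)) (b (l 16759976) (a (l 16752808) (l 16750160)))))) (a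 (b (a (l 530689935) (l 530688143)) (a (l 530675343) (l 530673551))) (a (b (l 530687631) (l 530673295)) (b (l 530688911) (b (l 16754528) (l 16751456))))))) (c (c (b (a (l 530299535) (a (l 531102351) (l 531101327))) (a (l 530305935) (a (l 531109007) (b (l 16756096) (l 16753280))))) (c (b (a (l 531433615) (a (l 531429007) (l 531426191))) (a (l 531456399) (b (l 16753200) (a (l 16756928) (l 16754720))))) (a (b (l 531391887) (l 531425935)) (b (a (l 531654543) (l 531650191)) (b (l 16754008) (l 16751552)))))) (c (a (a (l 532051855) (l 532045967)) (b (a (l 532003983) (l 531997583)) (b (l 16760496) (a (l 16759216) (l 16757248))))) (b (a (l 532500367) (a (l 532491151) (l 532481679))) (a (l 532428943) (b (l 16762160) (l 16754568))))))), by decide +kernel⟩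

def k41_A00pm_102_s1 : ∃ t, chk3 f_A00pm_102_s1 t 60 70 1 = true :=
  ⟨(c (a (a (b (b (l 3) (c (l 529766287) (l 530575759))) (b (l 528810895) (c (c (l 529565327) (l 529955215)) (l 530594703)))) (b (c (b (c (a (l 529571727) (l 529554063)) (l 529933455)) (a (l 529737871) (l 529720975))) (b (l 530273679) (l 530541711))) (b (a (l 530126223) (l 528767887)) (a (l 530128783) (l 529575055))))) (b (c (a (b (c (l 529530511) (l 529903247)) (a (l 529705359) (l 529691791))) (b (c (l 529505935) (l 529879439)) (a (l 529679759) (l 529669519)))) (a (b (l 530513551) (l 530245007)) (b (l 530222223) (l 530490511)))) (a (b (a (b (l 530095759) (l 530094991)) (l 528471439)) (a (l 529291663) (l 529278351))) (b (a (l 528459919) (l 528718479)) (a (l 528998287) (l 528720015)))))) (a (a (b (b (l 3) (l 531197839)) (b (l 531495567) (a (l 531006863) (l 531260559)))) (b (c (c (l 531220111) (l 531707279)) (l 531851151)) (c (c (l 531257231) (l 531762319)) (c (l 532296847) (l 531978895))))) (b (a (c (l 530359695) (l 532174479)) (c (l 530337167)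 (l 532442511))) (a (c (c (l 531227279) (l 531464847)) (l 531023247)) (c (c (l 531205263) (l 531711375)) (l 531612303)))))), by decide +kernel⟩

def k42_A00pm_102_s1 : ∃ t, chk3 f_A00pm_102_s1 t 61 140 1 = true :=
  ⟨(c (c (a (a (b (a (l 529676431) (l 529669519)) (a (l 529660815) (l 529654159))) (c (a (l 529470607) (l 529467279)) (a (l 529847951) (l 529844623)))) (a (a (c (l 529465999) (l 529842831)) (b (l 529659791) (l 529644431))) (b (a (c (l 16745864) (l 16747440)) (b (a (l 16745360) (l 16743784)) (a (l 16743464) (l 16741744)))) (a (b (l 16738632) (l 16736720)) (l 16744792))))) (b (a (a (l 530205071) (l 529925007)) (a (a (l 530457999) (l 530456719)) (a (b (l 16750808) (l 16749224)) (b (l 16748072) (l 16746256))))) (a (a (l 530205071) (l 530193807)) (a (a (l 530458511) (l 16749432)) (a (a (l 16747464) (l 16745960)) (l 16743392)))))) (c (a (a (l 530319247) (c (l 531139983) (l 531357327))) (a (c (l 530326671) (l 530810511)) (b (a (l 16743352) (b (l 16741560) (l 16739912))) (a (b (l 16741304) (l 16739744))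 (l 16737272))))) (a (a (l 532422543) (l 531868815)) (a (b (l 532370063) (l 16753536)) (b (a (l 16758112) (l 16745208)) (a (l 16745264) (l 16752632))))))), by decide +kernel⟩

def k43_A00pm_102_s1 : ∃ t, chk3 f_A00pm_102_s1 t 61 141 1 = true :=
  ⟨(c (a (a (b (a (l 528441487) (c (l 529643407) (l 530475407))) (a (b (l 530052751) (l 530055311)) (l 528704911))) (c (a (b (l 529638543) (l 16752512)) (b (l 529635215) (l 16744432))) (a (l 530206863) (l 530203023)))) (c (a (b (a (l 16750416) (b (l 16743176) (l 16741304))) (a (b (l 16742464) (l 16740632)) (b (l 16739384) (l 16737384)))) (a (b (a (l 16739848) (l 16738104)) (l 16734912)) (b (l 16735464) (l 16731400)))) (a (b (a (l 16748848) (b (l 16747064) (l 16745384))) (a (b (l 16746504) (l 16744896)) (b (l 16743616) (l 16741752)))) (b (a (l 16743048) (l 16739528)) (c (l 16736328) (l 16738624)))))) (a (a (c (c (l 531188111) (l 531425167)) (l 531394191)) (c (c (l 531175823) (l 531143311)) (l 531147663))) (c (a (b (a (l 16742520) (l 16740216)) (a (l 16739912) (l 16737040)))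 (b (b (l 16736304) (l 16734536)) (a (l 16744112) (l 16740568)))) (a (b (a (l 16757664) (l 16745256)) (a (l 16745184) (l 16742472))) (b (a (l 16752816) (l 16749320)) (l 16737336)))))), by decide +kernel⟩

def k44_A00pm_102_s1 : ∃ t, chk3 f_A00pm_102_s1 t 60 71 1 = true :=
  ⟨(c (a (c (b (a (b (a (l 529791887) (l 529764239)) (l 529805199)) (b (l 529726863) (l 529751439))) (a (c (l 530718095) (l 530056079)) (c (l 529858703) (l 530003855)))) (a (b (b (l 530623887) (l 530671503)) (l 529121167)) (b (b (l 530582415) (l 530620559)) (b (l 530662031) (l 530702223))))) (c (b (a (b (l 529689743) (l 529706383)) (b (l 529662095) (l 529673871))) (a (c (l 529536143) (l 529950863)) (b (l 529689743) (l 529708175)))) (b (a (l 530025615) (b (l 530521743) (l 530546575))) (a (l 530093199) (b (l 530574735) (l 530604687)))))) (a (b (b (a (c (l 531595663) (l 531626127)) (l 530747535)) (a (c (l 531659151) (l 531803535)) (l 530809743))) (a (c (l 531204495) (a (l 531132047) (l 531167375))) (c (l 530888847) (c (l 532380047) (l 531284623)))))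 (b (a (b (l 530446735) (l 530768783)) (b (l 530421647) (l 530469519))) (b (a (l 530824847) (l 530519183)) (a (c (l 531666831) (l 531825295)) (c (l 16749496) (l 531905167))))))), by decide +kernel⟩

def k45_A00pm_102_s1 : ∃ t, chk3 f_A00pm_102_s1 t 61 71 1 = true :=
  ⟨(a (c (b (a (a (b (l 530062991) (l 530078095)) (b (l 530055567) (l 530068879))) (b (a (l 530049679) (c (l 16735592) (l 16745160))) (a (c (l 16740144) (l 16744624)) (c (l 16731888) (l 16741840))))) (a (a (b (l 530096527) (l 530117007)) (b (l 530085519) (c (l 16735872) (l 16740968)))) (c (b (a (l 16736504) (l 16733232)) (c (l 16729784) (l 16732216))) (b (a (l 16741408) (l 16738232)) (c (l 16734824) (l 16737616)))))) (b (a (c (c (l 531241103) (l 531763087)) (l 530762639)) (c (b (a (l 16741712) (l 16739584)) (a (l 16739224) (l 16736688))) (b (a (l 16756720) (l 16744616)) (a (l 16754256) (l 16742672))))) (b (c (a (l 16750392) (a (l 16736488) (l 16743912))) (a (l 16743688) (a (l 16741688) (l 16750280)))) (a (a (l 16741496) (b (l 16740120) (l 16738824)))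 (c (b (l 16722016) (l 16720328)) (l 16738304)))))) (b (a (b (c (a (c (b (l 16738752) (l 16736800)) (l 16737016)) (c (l 16734352) (l 16738896))) (a (c (l 16736880) (l 16742584)) (a (l 16732008) (l 16730280)))) (c (c (l 16737304) (l 16736840)) (c (l 16731784) (l 16748360)))) (c (c (c (l 16731272) (l 16728192)) (b (l 16733640) (l 16729848))) (b (c (l 16728312) (l 16723616)) (c (l 16724800) (l 16720424))))) (c (c (a (b (l 16728064) (l 16724088)) (c (l 16717904) (l 16720288))) (a (c (l 16729864) (l 16732608)) (b (l 16726088) (l 16722352)))) (a (c (b (l 16728304) (l 16714376)) (b (l 16745200) (l 16742088))) (c (b (l 16731808) (l 16728368)) (b (l 16717280) (l 16714176))))))), by decide +kernel⟩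

def k46_A00pm_102_s1 : ∃ t, chk3 f_A00pm_102_s1 t 124 68 2 = true :=
  ⟨(a (c (b (a (b (c (a (l 529842575) (l 529849487)) (a (l 530134927) (l 530140303))) (c (a (l 529781903) (l 529789839)) (a (l 530084751) (l 530090895)))) (c (b (a (l 529856399) (l 14)) (a (l 529797519) (l 529804943))) (b (a (l 530145679) (l 14)) (a (l 530097039) (l 530102927))))) (a (a (c (b (l 529723791) (l 529671311)) (l 530016399)) (c (b (l 529731983) (l 529678735)) (l 530559519))) (c (b (a (l 529740175) (l 529748623)) (c (l 16758000) (l 16758464))) (a (b (l 530050447) (l 16757272)) (b (l 16761968) (l 16755864)))))) (b (a (b (l 530075279) (l 530042767)) (b (a (l 530617231) (l 14)) (l 529512591))) (a (b (l 530281871) (l 530256527)) (b (l 529483663) (l 530263695))))) (c (b (b (l 14) (a (a (c (l 529812623) (l 530109327)) (l 14)) (l 14))) (b (a (a (c (l 529756815) (l 16757936)) (c (l 16758216) (l 16756520))) (a (a (l 529920911) (l 14)) (l 14))) (a (c (b (l 16753576) (a (l 16752464) (l 16750960))) (b (l 16754616) (l 16752840))) (b (a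 (b (l 16752336) (l 16746136)) (l 16750112)) (c (l 16748392) (l 16749552)))))) (b (a (b (l 14) (a (l 530592399) (l 14))) (l 14)) (b (a (a (l 530563727) (l 530568079)) (a (a (l 16757040) (l 14)) (l 14))) (a (b (l 16758920) (a (l 16755368) (l 16754008))) (b (a (l 16754232) (l 16752504)) (c (l 16750792) (l 16752112)))))))), by decide +kernel⟩

def k47_A00pm_102_s1 : ∃ t, chk3 f_A00pm_102_s1 t 124 68 3 = true :=
  ⟨(a (a (b (c (b (l 531316367) (l 531309455)) (b (l 532101519) (l 532123023))) (c (b (l 531306383) (l 531306639)) (l 531362191))) (c (b (b (l 531315599) (l 531307919)) (b (l 531304591) (l 531304847))) (b (l 530764431) (l 531081615)))) (c (a (c (b (l 530594703) (b (l 16755056) (b (l 16758152) (l 16756712)))) (c (b (l 531140239) (b (l 16761152) (l 16758472))) (c (b (l 531283087) (b (l 16761592) (l 16759008))) (b (l 531648143) (b (l 16761888) (l 16759368)))))) (b (l 14) (a (b (l 16753864) (a (l 16751232) (l 16750400))) (b (l 14) (l 16743776))))) (a (c (b (l 531895695) (b (l 16757408) (l 16760296))) (b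 (l 532307855) (b (l 16763928) (l 16761832)))) (b (l 14) (b (a (l 16761776) (l 14)) (b (l 16753776) (l 16746904))))))), by decide +kernel⟩

def k48_A00pm_102_s1 : ∃ t, chk3 f_A00pm_102_s1 t 125 68 1 = true :=
  ⟨(a (a (a (b (l 14) (b (l 14) (b (l 14) (c (c (l 16746216) (l 16748640)) (l 16742416))))) (l 14)) (l 14)) (l 14)), by decide +kernel⟩

def k49_A00pm_102_s1 : ∃ t, chk3 f_A00pm_102_s1 t 124 69 2 = true :=
  ⟨(a (b (a (c (a (b (l 529788815) (l 529752207)) (b (l 529794959) (l 529758095))) (b (l 530235791) (l 530219151))) (c (b (a (l 529801871) (l 529809039)) (a (b (l 16750472) (l 16748632)) (b (c (l 16748320) (l 16749648)) (l 16747000)))) (b (l 530242447) (a (b (l 16753200) (l 16751568)) (b (l 16751808) (l 16749968)))))) (c (b (a (a (l 16754080) (b (l 16748280) (l 16741144))) (b (a (l 16741456) (l 16744936)) (l 16743768))) (a (b (a (l 16746056) (l 16744376)) (l 16740584)) (c (l 16739912) (l 16741464)))) (a (b (b (l 16751968) (l 16745048)) (b (l 16743264) (l 16746632))) (b (b (l 16748888) (l 16746952))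 (l 16744016))))) (b (c (a (b (b (a (l 16748568) (b (l 16750104) (l 16749104))) (a (c (l 16748664) (l 16749944)) (l 16747544))) (c (l 16744688) (l 16746032))) (c (b (c (l 16744968) (l 16745552)) (l 16741088)) (b (l 16746480) (l 16742392)))) (b (a (b (a (l 16753760) (l 16752216)) (a (l 16752024) (l 16750272))) (c (l 16747792) (l 16749192))) (a (c (l 16747472) (l 16749008)) (c (l 16743792) (l 16745288))))) (c (c (b (a (l 16740512) (l 16736912)) (l 16739792)) (a (b (l 16741944) (l 16737872)) (l 16741520))) (b (c (l 16741648) (l 16743264)) (c (l 16737672) (l 16739408)))))), by decide +kernel⟩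

def k50_A00pm_102_s1 : ∃ t, chk3 f_A00pm_102_s1 t 124 69 3 = true :=
  ⟨(a (b (a (c (l 530240655) (l 532226959)) (b (c (l 531308431) (l 16760848)) (b (a (l 16747464) (l 16746272)) (a (l 16746208) (l 16744672))))) (b (a (a (l 16746552) (b (l 16746104) (l 16744680))) (b (a (l 16744688) (l 16742904)) (l 16742048))) (b (a (a (l 16744640) (l 16743032)) (l 16740264)) (a (l 16742144) (l 16738496))))) (b (b (a (b (a (l 16747752) (l 16746296)) (a (l 16746304) (l 16744552))) (c (b (l 16752392) (l 16750512)) (l 16744288))) (c (a (b (l 16752424) (l 16750560)) (l 16737232)) (a (l 16744648) (l 16740800)))) (b (c (a (l 16737288) (l 16744016)) (a (l 16741200) (l 16737360))) (c (a (l 16744096) (l 16740336)) (l 16735872))))), by decide +kernel⟩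

def k51_A00pm_102_s1 : ∃ t, chk3 f_A00pm_102_s1 t 125 69 1 = true :=
  ⟨(c (c (b (a (c (b (a (l 16741616) (l 16737944)) (a (l 16737456) (l 16733800))) (b (a (l 16742800) (l 16739080)) (a (l 16738720) (l 16735016)))) (b (l 14) (c (a (l 16730112) (l 14)) (l 16729400)))) (a (c (a (b (l 16733296) (l 16729144)) (l 16732824)) (c (l 16735664) (l 16736384))) (c (a (l 16729152) (l 16720208)) (b (l 16725360) (l 16721328))))) (b (b (a (c (a (l 16744072) (l 16740304)) (l 16746144)) (l 14)) (a (c (l 16738208) (l 16739640)) (c (l 16730640) (l 16731976)))) (a (c (b (l 16734240) (l 16730288)) (b (l 16735776) (l 16731936))) (c (b (l 16726696) (l 16722768)) (l 16726232))))) (c (b (a (b (a (l 16737136) (l 16743752)) (a (l 16743896) (l 16740040))) (b (l 14) (c (l 16733408) (l 16734936)))) (a (b (a (l 16740208) (l 16736352)) (c (l 16733696) (l 16735576))) (c (l 16727840) (l 16729552)))) (b (a (b (b (l 16739272) (l 16737520)) (b (l 16735784) (l 16734064))) (b (l 14) (a (l 16739432) (l 14)))) (b (a (a (l 16743952) (l 16740008))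 (l 16723520)) (a (l 16728112) (l 16730648)))))), by decide +kernel⟩

def k52_A00pm_102_s1 : ∃ t, chk3 f_A00pm_102_s1 t 62 35 2 = true :=
  ⟨(c (a (b (b (a (c (b (l 16742768) (l 16733376)) (c (l 16741968) (l 16737616))) (c (c (l 16733176) (l 16733968)) (b (l 16732000) (l 16727960)))) (a (c (b (l 16729248) (l 16725128)) (b (l 16731112) (l 16727096))) (c (b (l 16722120) (l 16718000)) (l 16727168)))) (b (a (c (l 16718976) (l 16721112)) (c (l 16711848) (l 16713936))) (a (c (l 16710832) (l 16713192)) (c (l 16703696) (l 16706016))))) (b (b (a (c (b (l 16723176) (l 16719040)) (b (l 16724704) (l 16720672))) (c (b (l 16715872) (l 16711752)) (b (l 16717304) (l 16713288)))) (a (c (l 16718104) (l 16714648)) (c (l 16710824) (l 16707280)))) (b (a (c (l 16704656) (l 16706672)) (c (l 16697384) (l 16699320))) (a (c (l 16696504) (l 16698760)) (c (l 16689240) (l 16691424)))))) (b (a (b (b (a (c (l 16740976) (l 16742880)) (c (l 16733728) (l 16735568))) (a (c (l 16737032) (l 16739056)) (l 16730760))) (a (c (l 16731160) (l 16733368))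 (c (l 16723928) (l 16726088)))) (b (a (c (b (l 16726352) (l 16722432)) (l 16726216)) (c (l 16722144) (l 16718632))) (a (c (l 16716584) (l 16718664)) (c (l 16709128) (l 16711120))))) (a (b (a (c (l 16723408) (l 16725872)) (c (l 16716184) (l 16718600))) (a (c (l 16715744) (l 16718480)) (b (l 16711720) (l 16707984)))) (b (a (c (l 16708856) (l 16711208)) (c (l 16701424) (l 16703696))) (a (c (l 16701208) (l 16703848)) (l 16689816)))))), by decide +kernel⟩

def k53_A00pm_102_s1 : ∃ t, chk3 f_A00pm_102_s1 t 62 35 3 = true :=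
  ⟨(b (a (c (b (a (b (b (l 16736392) (l 16734568)) (a (l 16744160) (l 16740512))) (b (a (l 16740440) (l 16736696)) (a (l 16736816) (l 16733080)))) (a (b (a (l 16740552) (l 16736912)) (l 16724680)) (b (l 16731368) (l 16727808)))) (b (a (b (l 16740024) (l 16736680)) (b (l 16732512) (l 16729184))) (a (b (l 16733376) (l 16719632)) (b (l 16715424) (l 16712184))))) (c (b (a (b (l 16730992) (l 16727400)) (c (l 16720496) (l 16722480))) (a (c (l 16720888) (l 16723264)) (c (l 16713256) (l 16715536)))) (b (a (a (l 16725080) (l 16721168)) (b (l 16727328) (l 16724056))) (a (b (l 16728704) (l 16725488)) (b (l 16720832) (l 16717640)))))) (a (c (b (a (b (l 16731632) (l 16728128)) (c (l 16721184) (l 16723936))) (a (b (l 16724656) (l 16721224)) (c (l 16714112) (l 16717184)))) (b (a (b (l 16716416) (l 16713240)) (b (l 16729952) (l 16726800))) (a (a (l 16710376) (l 16706736)) (b (l 16723680) (l 16720608))))) (c (b (a (c (l 16713728) (l 16716408)) (l 16707408)) (a (l 16708152) (l 16700552))) (b (a (b (l 16722312) (l 16719184))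 (l 16718176)) (a (b (l 16716088) (l 16713032)) (l 16706792)))))), by decide +kernel⟩

def k54_A00pm_102_s1 : ∃ t, chk3 f_A00pm_102_s1 t 63 17 1 = true :=
  ⟨(b (b (l 14) (a (a (a (a (b (l 14) (b (l 14) (b (l 14) (c (l 16716312) (l 16722848))))) (l 14)) (l 14)) (l 14)) (l 14))) (c (b (a (b (a (c (c (b (l 16708456) (l 16704352)) (l 16713032)) (c (l 16709296) (l 16710920))) (b (l 14) (c (l 16697504) (l 16700424)))) (c (a (c (l 16698216) (l 16699816)) (c (l 16690752) (l 16692256))) (a (c (l 16701568) (l 16703456)) (c (l 16693896) (l 16695680))))) (a (a (b (l 14) (c (l 16685792) (l 16688920))) (l 14)) (l 14))) (a (b (c (a (c (l 16690048) (l 16691888)) (c (l 16682632) (l 16684376))) (a (c (l 16693896) (l 16696072)) (b (l 16689152) (l 16685424)))) (c (a (c (l 16681920) (l 16684016)) (c (l 16674528) (l 16676528))) (a (b (l 16689360) (l 16685656)) (b (l 16681720) (l 16678032))))) (c (b (a (c (l 16675120) (l 16676760)) (c (l 16667520) (l 16669064))) (a (c (l 16667064) (l 16668968)) (c (l 16659528) (l 16661328))))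 (b (a (b (l 16681376) (l 16677672)) (c (l 16670760) (l 16672616))) (a (c (l 16671048) (l 16673312)) (c (l 16663312) (l 16665472))))))) (a (c (b (b (a (c (l 16712680) (l 16714560)) (b (l 14) (l 16703848))) (a (c (l 16705488) (l 16707664)) (b (l 16700352) (l 16696888)))) (b (a (l 16694392) (l 16686504)) (a (l 16687576) (l 16674496)))) (b (b (a (c (l 16716560) (l 16718696)) (b (l 14) (l 16707784))) (a (c (l 16709984) (l 16712456)) (l 16703040))) (b (a (l 16704960) (l 16696848)) (a (l 16698872) (l 16690824))))) (b (b (l 14) (a (c (l 16685336) (l 16694776)) (l 14))) (b (a (c (l 16678520) (l 16678160)) (c (b (l 14) (l 16674024)) (l 16669880))) (a (c (l 16666568) (l 16672184)) (c (l 16658568) (l 16663968)))))))), by decide +kernel⟩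

def k55_A00pm_102_s1 : ∃ t, chk3 f_A00pm_102_s1 t 28 36 1 = true :=
  ⟨(a (l 3) (b (l 3) (c (a (a (l 3) (b (l 3) (b (l 3) (b (l 3) (c (l 530897039) (l 531367823)))))) (b (a (l 3) (b (l 3) (c (l 530397583) (l 530702991)))) (c (b (l 530771087) (a (b (l 530843023) (a (l 530887311) (l 530881423))) (l 530852751))) (b (l 531305615) (a (b (l 531346831) (a (l 531372687) (l 531375759))) (l 531367311)))))) (a (a (l 3) (b (l 3) (b (l 3) (b (l 3) (c (l 531923087) (l 530710415)))))) (a (b (l 3) (b (c (l 531918735) (l 531376015)) (c (b (l 531937679) (a (l 531942799) (l 531955599))) (b (l 530986895) (a (l 530993039) (l 531270799)))))) (b (b (l 3) (c (l 531908495) (l 530169231))) (b (l 531235727) (b (l 531767183) (l 530422671))))))))), by decide +kernel⟩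

def k56_A00pm_102_s1 : ∃ t, chk3 f_A00pm_102_s1 t 56 37 1 = true :=
  ⟨(b (a (l 3) (c (c (b (l 531030159) (l 531161743)) (b (l 531415695) (l 531499407))) (b (c (l 531878543) (l 531498127)) (c (l 531907471) (l 530742671))))) (b (c (a (a (b (l 3) (l 531442831)) (c (b (b (l 531260047) (l 531021455)) (l 531083919)) (b (a (l 531542927) (l 531547023)) (l 531585167)))) (c (b (a (l 531529103) (l 531244175)) (a (b (l 531308943) (l 531345295)) (l 531307407))) (b (a (l 531551375) (l 531557263)) (a (b (l 531578255) (l 531597199)) (l 531592591))))) (b (a (a (l 3) (a (b (l 3) (l 531955343)) (c (l 531884943) (c (l 531769743) (l 531384207))))) (c (a (l 531906703) (l 531936143)) (c (l 531520655) (a (l 531397775) (l 531412879))))) (a (a (l 531703695) (c (l 531875215) (a (l 531645583) (l 531390863)))) (c (a (b (l 531908751) (l 531907471)) (l 531939215)) (a (b (l 531633039) (l 531402895)) (l 530854543)))))) (a (a (c (b (a (l 531488911) (b (l 531484047) (l 531507855))) (a (l 531534223) (l 531541647))) (b (a (c (l 531850383)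 (l 531165839)) (b (l 532010127) (l 532003471))) (a (l 531975311) (l 531986319)))) (a (b (c (l 531503247) (l 531214991)) (l 531078287)) (b (c (b (l 531499663) (l 531521679)) (c (l 531879823) (l 531739535))) (c (l 531555727) (l 532009103))))) (c (a (b (c (l 531128719) (l 531623823)) (c (l 531463055) (l 531656847))) (b (c (l 531375503) (l 531627919)) (c (l 531442319) (l 531661199)))) (a (b (c (l 531904911) (c (l 531888015) (l 531300495))) (c (l 531899279) (l 531542927))) (b (c (l 531936655) (c (l 531891343) (l 531566223))) (c (l 531930767) (l 531808655)))))))), by decide +kernel⟩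

def k57_A00pm_102_s1 : ∃ t, chk3 f_A00pm_102_s1 t 57 74 1 = true :=
  ⟨(a (c (b (c (l 530997903) (l 531426447)) (c (a (l 531140495) (l 531128719)) (a (l 531509647) (l 531516815)))) (b (c (l 531934095) (c (l 531759503) (l 531295119))) (c (l 531963279) (a (l 531039887) (l 530790799))))) (b (c (c (a (a (b (a (l 530947471) (l 530944655)) (l 531019663)) (b (l 530940559) (l 531014799))) (b (l 530933135) (l 531008143))) (a (b (a (b (l 531398543) (l 531423631)) (l 531414671)) (a (l 531458959) (l 531462799))) (b (l 531420303) (l 531468687)))) (c (a (b (a (b (l 531953551) (l 531963279)) (l 531971471)) (a (l 531976335) (l 531989391))) (b (l 531990159) (l 532008079))) (a (a (b (a (l 531275151) (l 530742927)) (l 531033231)) (b (l 530750095) (l 531043215))) (b (a (l 531028623) (l 531307407)) (c (l 531816847) (l 531367823)))))) (c (a (c (a (b (l 531088783) (l 531153295)) (b (l 531084175) (l 531149199))) (a (l 531522959) (b (l 531506575) (l 531546767)))) (b (c (l 531078287) (l 531512975)) (c (c (l 531052943) (l 531239823))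 (l 531553423)))) (a (c (a (l 531997327) (l 531473551)) (b (a (l 531329167) (l 531071375)) (a (l 531092111) (l 531102863)))) (c (b (l 532022927) (l 532034447)) (b (c (l 531833743) (l 531408271)) (c (l 531854479) (l 531452303)))))))), by decide +kernel⟩

def k58_A00pm_102_s1 : ∃ t, chk3 f_A00pm_102_s1 t 114 75 1 = true :=
  ⟨(b (c (c (b (a (l 531231119) (l 531220623)) (a (l 531292815) (l 531281551))) (b (a (l 531564431) (l 531572367)) (a (l 531599247) (l 531606927)))) (b (c (l 531708815) (c (l 531823759) (l 530902927))) (c (a (l 531967887) (l 531995535)) (a (l 531137679) (c (l 531869839) (l 531511439)))))) (c (c (b (a (l 531626127) (a (l 16760712) (l 531341967))) (a (l 531421839) (a (l 16758176) (l 16756608)))) (b (a (l 531633551) (c (l 531561103) (l 531723663))) (a (l 531665807) (l 531672207)))) (c (b (a (l 531966863) (l 531726735)) (a (l 531962255) (l 531991695))) (b (a (c (l 531900559) (l 531572111)) (c (l 531914639) (l 531584911))) (a (c (l 531956623) (l 531659663)) (a (l 531279503) (l 531285135))))))),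 by decide +kernel⟩

def k59_A00pm_102_s1 : ∃ t, chk3 f_A00pm_102_s1 t 115 75 1 = true :=
  ⟨(b (c (a (c (b (a (l 531214223) (l 531210639)) (a (l 531275151) (l 531271567))) (b (a (l 531579023) (l 531583631)) (a (l 531613583) (l 531618191)))) (c (b (c (l 531120783) (l 531295887)) (c (b (l 16756392) (l 16755096)) (l 531350671))) (b (c (l 531488143) (l 531697295)) (c (l 531529871) (l 531724943))))) (c (a (b (c (l 531902095) (l 532137359)) (c (l 531914383) (l 532133775))) (b (c (l 531923343) (l 532166799)) (a (l 532041615) (l 16753064)))) (a (b (c (l 531857295) (l 530938767)) (a (l 531037583) (b (l 531438735) (l 16754160)))) (c (b (l 531879311) (l 531642767)) (b (b (l 531487631) (l 531512463)) (a (l 531550607) (l 531562895))))))) (c (c (a (b (a (b (l 16758184) (l 16756912)) (c (l 16755672) (l 16756232))) (a (l 16755032) (c (l 16753168) (l 16753736)))) (b (c (b (l 16753824) (l 16752568)) (b (l 16754464) (l 16753216))) (a (c (l 16751536) (l 16752160)) (l 16750216)))) (a (b (a (l 531378575) (b (l 16757792) (l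 16756552))) (a (l 531409551) (a (l 16755064) (l 16754328)))) (b (c (b (l 16755168) (l 16753928)) (l 531481743)) (c (a (l 16752848) (l 16751320)) (l 531504527))))) (c (c (a (b (l 531923343) (l 531929487)) (b (l 531945103) (l 531951503))) (a (b (l 532125071) (l 532113039)) (b (l 532155279) (l 532144015)))) (a (b (c (l 531529359) (a (l 531597967) (l 531607439))) (c (l 531712399) (a (l 531675791) (l 531683215)))) (b (c (a (l 16751632) (l 16750240)) (a (l 531617679) (l 531360399))) (c (l 531595407) (a (l 531691663) (l 531701135)))))))), by decide +kernel⟩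

def k60_A00pm_102_s1 : ∃ t, chk3 f_A00pm_102_s1 t 29 36 2 = true :=
  ⟨(c (a (b (a (b (l 3) (a (l 3) (l 530363279))) (b (c (b (l 529767567) (l 529962895)) (l 530502287)) (c (l 530225807) (l 530555023)))) (a (b (c (a (l 530483087) (l 530500495)) (l 530505359)) (b (a (l 530513807) (l 530805647)) (a (l 530852495) (l 530889615)))) (b (b (l 530605455) (l 530734223)) (b (l 530844303) (l 530669967))))) (b (a (b (c (a (l 529878927) (l 529884303)) (l 531333775)) (c (l 530246287) (l 530587023))) (b (a (c (l 529888143) (l 530275215)) (c (l 529890447) (l 530281615))) (c (l 531065999) (l 531146895)))) (b (a (a (l 530696847) (l 530711183)) (a (l 530723471) (l 530733711))) (a (b (l 530615951) (l 530718351)) (a (l 530964111) (l 530709647)))))) (a (a (b (b (l 3) (c (l 530586767) (l 531223439))) (b (c (l 530007183) (l 530338447)) (b (a (l 530805391) (l 531379599)) (a (l 531383183) (l 531434127))))) (a (b (b (l 530827407) (l 531085455)) (b (l 530221455) (l 530647183))) (b (b (l 530853263) (l 531113615)) (b (l 531327631)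 (l 530952591))))) (b (a (b (a (l 530876047) (l 530895247)) (a (l 531138703) (l 531160207))) (b (a (l 530911375) (l 530923919)) (a (l 531178383) (l 531193231)))) (a (b (c (l 531190415) (l 531009167)) (a (l 530715791) (l 530474639))) (a (b (l 531397775) (b (l 16741640) (l 16739384))) (b (l 530877071) (b (l 16738104) (l 16735912)))))))), by decide +kernel⟩

def k61_A00pm_102_s1 : ∃ t, chk3 f_A00pm_102_s1 t 29 36 3 = true :=
  ⟨(b (a (a (a (l 3) (b (l 3) (b (l 531714703) (l 531374479)))) (c (b (c (l 531512719) (l 531999375)) (a (l 531898767) (l 531940239))) (b (b (l 530382479) (l 530333327)) (a (l 531342479) (l 530551439))))) (a (c (b (c (l 531040399) (l 532076687)) (a (l 531976847) (l 532008591))) (b (c (l 531261583) (a (l 531373455) (l 531395471))) (a (l 530301583) (l 530593167)))) (b (c (a (l 531864719) (l 531885199)) (a (l 530425487) (l 530186383))) (c (a (l 532035215) (l 532056719)) (a (c (l 531995791) (l 531385487)) (b (l 531206287) (l 530909583))))))) (a (a (a (b (c (l 531929999) (b (l 531274639) (l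 530181007))) (b (c (l 531992975) (c (l 531781263) (l 530989711))) (c (l 532001167) (c (l 531808143) (l 531311247))))) (b (c (l 531981199) (b (l 531552143) (l 531065487))) (b (c (l 532045199) (l 531534223)) (c (l 532065935) (l 530749839))))) (b (c (b (l 532021391) (l 532078735)) (b (l 530494607) (c (l 531817615) (l 531003535)))) (c (b (l 532121231) (l 532150671)) (a (c (l 531796879) (l 530754703)) (b (l 531021967) (l 531031951)))))) (c (a (a (b (l 532110223) (l 531934351)) (b (l 532142479) (l 531700879))) (a (b (l 532169615) (l 531730319)) (b (l 532191887) (l 531619983)))) (c (a (b (a (l 531867279) (l 531891599)) (a (l 531559823) (l 531583887))) (b (a (l 531920015) (l 531952783)) (a (l 531344527) (l 531378063)))) (a (b (a (l 531043471) (l 531071631)) (a (b (l 531321487) (l 531342479)) (b (l 531350415) (l 531369871)))) (b (a (l 530836367) (b (l 531411855) (l 531413391))) (a (b (l 531384463) (l 531402895)) (b (l 531423375) (l 531173007))))))))), by decide +kernel⟩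

def k62_A00pm_102_s1 : ∃ t, chk3 f_A00pm_102_s1 t 29 148 32 = true :=
  ⟨(a (a (b (l 531019407) (a (l 16762824) (l 16759248))) (b (l 530813327) (l 16759088))) (a (l 531715727) (l 16740056))), by decide +kernel⟩

def k63_A00pm_102_s1 : ∃ t, chk3 f_A00pm_102_s1 t 29 298 32 = true :=
  ⟨(b (b (a (a (l 530880143) (l 16752200)) (a (l 16744960) (l 16737464))) (b (c (b (a (a (l 16758856) (l 16751736)) (a (l 16744496) (l 16737008))) (a (a (l 16758680) (l 16751568)) (a (l 16744344) (l 16736864)))) (b (a (a (l 16758928) (l 16751848)) (a (l 16744648) (l 16737200))) (c (a (a (l 16758736) (l 16751656)) (a (l 16744456) (l 16737008))) (a (a (l 16758776) (l 16751712)) (a (l 16744536) (l 16737104)))))) (c (c (b (a (a (l 16758496) (l 16751384)) (a (l 16744160) (l 16736672))) (c (a (a (l 16758312) (l 16751200)) (a (l 16743984) (l 16736496))) (a (a (l 16758328) (l 16751232)) (a (l 16744024) (l 16736544))))) (b (c (a (a (l 16758520) (l 16751424)) (a (l 16744216) (l 16736744))) (a (a (l 16758536) (l 16751448)) (a (l 16744248)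 (l 16736792)))) (a (a (l 16758360) (l 16751272)) (a (l 16744080) (l 16736616))))) (c (b (c (a (a (l 16758560) (l 16751480)) (a (l 16744288) (l 16736840))) (a (a (l 16758576) (l 16751504)) (a (l 16744328) (l 16736888)))) (a (a (l 16758400) (l 16751328)) (a (l 16744152) (l 16736712)))) (b (c (a (a (l 16758600) (l 16751536)) (a (l 16744360) (l 16736936))) (a (a (l 16758616) (l 16751560)) (a (l 16744400) (l 16736984)))) (a (a (l 16758440) (l 16751384)) (a (l 16744232) (l 16736808)))))))) (b (c (a (a (l 16763160) (l 16750840)) (a (l 16743664) (l 16736184))) (a (a (l 16763240) (l 16750952)) (a (l 16743816) (l 16736376)))) (a (a (l 16762520) (l 16750248)) (a (l 16743128) (l 16735680))))), by decide +kernel⟩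

def k64_A00pm_102_s1 : ∃ t, chk3 f_A00pm_102_s1 t 29 598 32 = true :=
  ⟨(b (b (a (a (l 16762016) (l 16749760)) (a (l 16742672) (l 16735224))) (c (b (a (a (l 16756480) (l 16749464)) (a (l 16742376) (l 16734904))) (c (c (a (a (l 16756288) (l 16749256)) (a (l 16742168) (l 16734672))) (a (a (l 16756304) (l 16749288)) (a (l 16742200) (l 16734720)))) (c (a (a (l 16756328) (l 16749320)) (a (l 16742240) (l 16734768))) (a (a (l 16756344) (l 16749344)) (a (l 16742280) (l 16734816)))))) (b (a (a (l 16756568) (l 16749576)) (a (l 16742528) (l 16735096))) (c (c (a (a (l 16756368) (l 16749376)) (a (l 16742320) (l 16734864))) (a (a (l 16756384) (l 16749408)) (a (l 16742360) (l 16734920)))) (c (a (a (l 16756408) (l 16749432)) (a (l 16742392) (l 16734968))) (a (a (l 16756432) (l 16749464)) (a (l 16742432) (l 16735016)))))))) (b (c (c (a (a (l 16756048) (l 16749032)) (a (l 16741960) (l 16734456))) (a (a (l 16756088) (l 16749088)) (a (l 16742032) (l 16734552)))) (c (a (a (l 16756128) (l 16749152)) (a (l 16742112) (l 16734648)))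 (a (a (l 16756168) (l 16749208)) (a (l 16742192) (l 16734744))))) (a (a (l 16761016) (l 16748800)) (a (l 16741776) (l 16723800))))), by decide +kernel⟩

def k65_A00pm_102_s1 : ∃ t, chk3 f_A00pm_102_s1 t 29 599 32 = true :=
  ⟨(b (b (a (a (l 16760688) (l 16748480)) (a (l 16741472) (l 16728720))) (c (b (a (a (l 16760392) (l 16748184)) (a (l 16741168) (l 16723144))) (c (a (a (l 16760208) (l 16747992)) (a (l 16740984) (l 16733424))) (a (a (l 16760248) (l 16748048)) (a (l 16741056) (l 16723032))))) (b (a (a (l 16755232) (l 16748296)) (a (l 16741328) (l 16723344))) (c (a (a (l 16760288) (l 16748112)) (a (l 16741136) (l 16723128))) (a (a (l 16760336) (l 16748168)) (a (l 16741216) (l 16723224))))))) (c (b (c (b (c (a (a (l 16760032) (l 16747816)) (a (l 16740816) (l 16722752))) (a (a (l 16760048) (l 16747848)) (a (l 16740856) (l 16722800)))) (a (a (l 16759872) (l 16747672)) (a (l 16740680) (l 16727856)))) (b (c (a (a (l 16760072) (l 16747880)) (a (l 16740888) (l 16722848))) (a (a (l 16760096) (l 16747904)) (a (l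 16740928) (l 16722896)))) (a (a (l 16759920) (l 16747736)) (a (l 16740760) (l 16727952))))) (c (a (a (l 16759632) (l 16747432)) (a (l 16740456) (l 16727600))) (a (a (l 16759672) (l 16747496)) (a (l 16740536) (l 16727696))))) (b (c (b (c (a (a (l 16760112) (l 16747936)) (a (l 16740968) (l 16722944))) (a (a (l 16760136) (l 16747968)) (a (l 16741008) (l 16722992)))) (a (a (l 16759960) (l 16747792)) (a (l 16740840) (l 16728048)))) (b (c (a (a (l 16760160) (l 16748000)) (a (l 16741048) (l 16723040))) (a (a (l 16760176) (l 16748024)) (a (l 16741088) (l 16723088)))) (a (a (l 16760008) (l 16747856)) (a (l 16740920) (l 16728144))))) (c (a (a (l 16759712) (l 16747552)) (a (l 16740616) (l 16727792))) (a (a (l 16759760) (l 16747616)) (a (l 16740696) (l 16727888))))))), by decide +kernel⟩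

def k66_A00pm_102_s1 : ∃ t, chk3 f_A00pm_102_s1 t 29 74 33 = true :=
  ⟨(a (a (b (b (l 531074191) (a (l 16762944) (l 16759400))) (a (b (l 16760192) (l 16757496)) (l 531006863))) (b (b (l 530870927) (l 16759304)) (b (l 16751448) (l 16748880)))) (a (b (l 531774095) (b (l 16744352) (l 16741936))) (b (l 16740432) (a (l 16737720) (l 16723104))))), by decide +kernel⟩

def k67_A00pm_102_s1 : ∃ t, chk3 f_A00pm_102_s1 t 29 74 34 = true :=
  ⟨(a (a (b (b (l 531130255) (a (l 16763072) (l 16759560))) (a (b (l 16760336) (l 16757656)) (l 531056271))) (b (b (l 530929807) (l 16759520)) (b (l 16756928) (l 16749128)))) (a (b (l 531833743) (b (l 16744664) (l 16742256))) (b (l 16740816) (a (l 16738096) (l 16723512))))), by decide +kernel⟩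

def k68_A00pm_102_s1 : ∃ t, chk3 f_A00pm_102_s1 t 29 148 35 = true :=
  ⟨(a (a (b (l 531187599) (a (l 16763200) (l 16759728))) (a (l 531011215) (l 16754056))) (a (l 531894671) (l 16741208))), by decide +kernel⟩

def k69_A00pm_102_s1 : ∃ t, chk3 f_A00pm_102_s1 t 29 298 35 = true :=
  ⟨(b (b (a (a (l 531033487) (l 16752880)) (a (l 16745880) (l 16738648))) (b (a (a (l 531045775) (l 16752400)) (a (l 16745432) (l 16738216))) (a (a (l 531053967) (l 16752080)) (a (l 16745128) (l 16737928))))) (b (b (a (a (l 531061903) (l 16751760)) (a (l 16744824) (l 16737632))) (c (a (a (l 16763472) (l 16751376)) (a (l 16744448) (l 16737232))) (b (a (a (l 16758392) (l 16751576)) (a (l 16744680) (l 16737512))) (c (a (a (l 16758208) (l 16751392)) (a (l 16744488) (l 16737312))) (c (a (a (l 16758240) (l 16751432)) (a (l 16744552) (l 16737392))) (a (a (l 16758264) (l 16751464)) (a (l 16744592) (l 16737448)))))))) (c (b (c (b (a (a (l 16757960) (l 16751104)) (a (l 16744176) (l 16736960))) (a (a (l 16757792) (l 16750944)) (a (l 16744032)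 (l 16736808)))) (b (c (a (a (l 16757992) (l 16751152)) (a (l 16744240) (l 16737040))) (a (a (l 16758008) (l 16751184)) (a (l 16744280) (l 16737088)))) (a (a (l 16757832) (l 16751008)) (a (l 16744112) (l 16736912))))) (a (a (l 16757568) (l 16750736)) (a (l 16743848) (l 16736632)))) (b (a (a (l 16763224) (l 16751176)) (a (l 16744304) (l 16737136))) (a (a (l 16757648) (l 16750864)) (a (l 16744008) (l 16736832))))))), by decide +kernel⟩

def k70_A00pm_102_s1 : ∃ t, chk3 f_A00pm_102_s1 t 29 299 35 = true :=
  ⟨(b (b (c (b (a (a (l 16757232) (l 16750416)) (a (l 16743544) (l 16736320))) (c (b (a (a (l 16756968) (l 16750152)) (a (l 16743280) (l 16736040))) (c (a (a (l 16756792) (l 16749976)) (a (l 16743112) (l 16735864))) (a (a (l 16756808) (l 16750008)) (a (l 16743152) (l 16735912))))) (b (a (a (l 16757008) (l 16750208)) (a (l 16743360) (l 16736144))) (c (a (a (l 16756832) (l 16750040)) (a (l 16743192) (l 16735968))) (a (a (l 16756856) (l 16750072)) (a (l 16743232) (l 16736016))))))) (b (a (a (l 16757320) (l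 16750544)) (a (l 16743712) (l 16736528))) (c (b (a (a (l 16757048) (l 16750272)) (a (l 16743440) (l 16736248))) (c (a (a (l 16756872) (l 16750096)) (a (l 16743272) (l 16736064))) (a (a (l 16756896) (l 16750128)) (a (l 16743312) (l 16736120))))) (b (a (a (l 16757096) (l 16750336)) (a (l 16743528) (l 16736352))) (c (a (a (l 16756920) (l 16750160)) (a (l 16743360) (l 16736168))) (a (a (l 16756944) (l 16750192)) (a (l 16743400) (l 16736224)))))))) (b (c (c (a (a (l 16756552) (l 16749752)) (a (l 16742904) (l 16735648))) (a (a (l 16756600) (l 16749816)) (a (l 16742992) (l 16735752)))) (c (a (a (l 16756640) (l 16749880)) (a (l 16743072) (l 16735848))) (a (a (l 16756688) (l 16749944)) (a (l 16743152) (l 16735952))))) (a (a (l 531121551) (l 16749528)) (a (l 16742736) (l 16735480))))) (b (b (a (a (l 531129487) (l 16749216)) (a (l 16742432) (l 16735160))) (c (a (a (l 16760832) (l 16748832)) (a (l 16742056) (l 16724248))) (a (a (l 16760928) (l 16748960)) (a (l 16742224) (l 16734944))))) (c (a (a (l 531137679) (l 16748368))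 (a (l 16741608) (l 16734232))) (a (a (l 531161487) (l 16748496)) (a (l 16741776) (l 16729192)))))), by decide +kernel⟩

def k71_A00pm_102_s1 : ∃ t, chk3 f_A00pm_102_s1 t 29 74 9 = true :=
  ⟨(a (b (a (b (a (l 531045263) (l 531085455)) (a (l 531117455) (l 16762776))) (b (l 531146383) (l 531481999))) (a (a (b (l 531181711) (l 531242127)) (b (l 16757512) (l 16754928))) (b (l 531005327) (a (l 16751664) (l 16748392))))) (b (a (a (l 16756424) (l 16747640)) (b (l 16748600) (l 16741088))) (a (a (l 16746312) (l 16742928)) (a (l 16739480) (b (l 16736920) (l 16734272)))))), by decide +kernel⟩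

def k72_A00pm_102_s1 : ∃ t, chk3 f_A00pm_102_s1 t 29 74 5 = true :=
  ⟨(a (a (b (a (b (l 531430287) (a (l 531476623) (l 531490191))) (b (l 531480463) (l 531522191))) (a (b (a (l 531520911) (l 531533455)) (l 531566479)) (b (l 531562383) (l 531600015)))) (b (b (a (l 531532431) (l 531576719)) (a (l 531575695) (l 531624335))) (a (b (l 531613327) (l 531647375)) (b (l 531665295) (l 531700623))))) (c (c (a (b (a (l 16752096) (l 16748696)) (b (l 16746848) (l 16744504))) (b (b (l 16744616) (l 16742384)) (a (l 16740736) (b (l 16738304) (l 16735656))))) (c (b (a (l 531282063) (b (l 16745272) (l 16743056))) (a (b (l 16747392) (l 16745064)) (a (l 16741392) (b (l 16739024) (l 16736376))))) (a (b (l 531352975) (b (l 16747768) (l 16745448))) (b (b (l 16745720) (l 16743520)) (a (l 16741840) (b (l 16739520) (l 16736864))))))) (c (b (a (a (l 16748152) (l 16750200)) (b (l 16735920) (l 16733736))) (a (b (l 16743088) (l 16740792)) (a (l 16742520) (a (l 16729512) (l 16727392))))) (b (a (a (l 16748840) (l 16740504)) (b (l 16736864)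 (l 16734704))) (a (a (l 16738984) (l 16736008)) (a (l 16743464) (a (l 16730528) (l 16728448)))))))), by decide +kernel⟩

def k73_A00pm_102_s1 : ∃ t, chk3 f_A00pm_102_s1 t 29 74 6 = true :=
  ⟨(a (b (a (b (a (l 532016271) (l 532080015)) (a (l 532036751) (l 532090511))) (b (l 531499919) (a (l 532155279) (l 16752288)))) (a (a (b (l 532050831) (l 532062095)) (b (l 532100239) (l 532108175))) (a (b (l 532162191) (l 532166031)) (b (l 16750016) (l 16747728))))) (b (a (a (b (l 16751752) (l 16749544)) (b (l 16748920) (l 16741512))) (a (b (l 16740792) (l 16738672)) (b (l 16737856) (l 16735776)))) (a (a (b (l 16747320) (l 16745072)) (b (l 16739336) (l 16737128))) (b (a (l 16736536) (a (l 16744880) (l 16732720))) (a (l 16734368) (a (l 16732032) (l 16740352))))))), by decide +kernel⟩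

def k74_A00pm_102_s1 : ∃ t, chk3 f_A00pm_102_s1 t 29 74 7 = true :=
  ⟨(a (b (a (a (b (c (l 531824015) (l 531083919)) (c (l 531835279) (l 531119759))) (b (l 530510223) (c (l 531836047) (l 531391375)))) (b (a (l 530775439) (l 530782863)) (a (c (l 531829903) (l 531388303)) (c (l 531831695) (l 531393679))))) (a (a (b (a (l 531104143) (l 531110799)) (c (l 531874703) (l 531474831))) (b (b (l 531104911) (l 530854031)) (a (l 530880911) (l 530883471)))) (a (c (b (l 16751432) (l 16749064)) (b (l 531436943) (l 530952335))) (b (c (l 531853455) (l 531439759)) (c (l 531881103) (l 530954127)))))) (a (b (c (a (b (l 531831183) (l 531842959)) (b (l 531852175) (l 16744320))) (a (b (l 531372175) (l 531408783)) (b (l 531397263) (l 530894991)))) (c (a (b (l 531861647) (l 16742752)) (b (l 16741920) (l 16739576))) (a (b (l 530914959) (b (l 16741088) (l 16739904))) (b (b (l 16740096) (l 16738880)) (b (l 16737688) (l 16736512)))))) (c (c (a (b (l 531987343) (b (l 16744632) (l 16742304))) (b (l 16734584) (b (l 16736408) (a (l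 16740264) (l 16739656))))) (a (b (l 531505551) (b (l 16743320) (l 16740984))) (a (b (l 16744496) (b (l 16740896) (l 16733624))) (b (l 16742864) (b (l 16734336) (l 16738208)))))) (c (c (a (b (l 531341967) (b (l 16742320) (l 16739976))) (b (l 16737360) (b (a (l 16739824) (l 16733224)) (a (l 16732552) (l 16737104))))) (b (a (b (l 16746568) (l 16744072)) (b (l 16743128) (l 16740656))) (b (a (l 16741648) (a (l 16739104) (b (l 16738064) (l 16737264)))) (a (l 16739288) (a (a (l 16732016) (l 16736784)) (l 16736360)))))) (a (b (b (l 16745584) (l 16743064)) (b (l 16740616) (c (l 16738600) (l 16737896)))) (b (b (l 16742040) (l 16739552)) (b (a (l 16738008) (b (l 16731680) (a (l 16736248) (l 16735880)))) (a (b (a (l 16736680) (l 16735952)) (a (l 16735664) (l 16735280))) (l 16735216))))))))), by decide +kernel⟩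

def k75_A00pm_102_s1 : ∃ t, chk3 f_A00pm_102_s1 t 29 150 2 = true :=
  ⟨(a (a (c (a (b (a (l 16756120) (l 16754448)) (a (l 16753560) (l 16751896))) (b (b (l 16752584) (l 16751312)) (b (l 16750056) (l 16748808)))) (a (b (a (l 531598991) (l 16750816)) (a (l 531633807) (l 16748352))) (b (b (l 16749160) (l 16747928)) (c (l 16750832) (l 16746624))))) (c (b (a (l 16748648) (l 16745360)) (a (l 16746160) (l 16742928))) (a (b (b (l 16751392) (l 16750176)) (b (l 16748968) (l 16747760))) (b (b (l 16748416) (l 16747216)) (c (l 16744768) (l 16746120)))))) (a (c (c (a (l 16740240) (l 16736904)) (a (l 16741528) (l 16738336))) (c (a (l 16737680) (l 16734640)) (a (l 16739192) (a (l 16742264) (l 16730320))))) (a (c (b (a (l 16736176) (l 16734208)) (a (l 16733656) (l 16731256))) (b (c (l 16727192) (l 16729032)) (a (l 16726520) (l 16734752)))) (c (b (l 16730416) (l 16727240)) (b (a (l 16735424) (l 16732856)) (a (l 16732240) (l 16729688))))))), by decide +kernel⟩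

def k76_A00pm_102_s1 : ∃ t, chk3 f_A00pm_102_s1 t 29 604 16 = true :=
  ⟨(c (a (a (a (l 16750208) (l 16746824)) (l 16741800)) (a (l 16740352) (l 16726120))) (b (a (a (a (l 16750696) (l 16747336)) (l 16742352)) (a (l 16735744) (l 16726912))) (b (a (a (a (l 16750232) (l 16746872)) (l 16741904)) (a (l 16735296) (l 16726304))) (c (b (a (a (a (l 16749952) (l 16746592)) (l 16741608)) (a (l 16734992) (l 16725904))) (a (a (a (l 16749792) (l 16746440)) (l 16741464)) (a (l 16734840) (l 16725704)))) (c (b (a (a (a (l 16750016) (l 16746672)) (l 16741704)) (a (l 16735120) (l 16726048))) (a (a (a (l 16749864) (l 16746520)) (l 16741560)) (a (l 16734960) (l 16725848)))) (b (a (a (a (l 16750064) (l 16746720)) (l 16741776)) (a (l 16735200) (l 16726152))) (a (a (a (l 16749904) (l 16746568)) (l 16741624)) (a (l 16735048) (l 16725944))))))))), by decide +kernel⟩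

def k77_A00pm_102_s1 : ∃ t, chk3 f_A00pm_102_s1 t 29 1210 32 = true :=
  ⟨(c (b (a (a (a (l 16749384) (l 16746000)) (l 16740984)) (a (l 16734288) (l 16725008))) (c (b (a (a (a (l 16749128) (l 16745744)) (l 16740728)) (a (l 16734016) (l 16724656))) (a (a (a (l 16748976) (l 16745592)) (l 16740576)) (a (l 16733864) (l 16724456)))) (b (a (a (a (l 16749176) (l 16745800)) (l 16740792)) (a (l 16734096) (l 16724752))) (a (a (a (l 16749016) (l 16745648)) (l 16740640)) (a (l 16733936) (l 16724552)))))) (b (c (a (a (a (l 16749448) (l 16746080)) (l 16741080)) (a (l 16734400) (l 16725152))) (b (a (a (a (l 16749568) (l 16746208)) (l 16741216)) (a (l 16734568) (l 16725352))) (a (a (a (l 16749416) (l 16746056)) (l 16741064)) (a (l 16734408) (l 16725152))))) (c (b (a (a (a (l 16749216) (l 16745848)) (l 16740848)) (a (l 16734176) (l 16724848))) (a (a (a (l 16749064) (l 16745696)) (l 16740704)) (a (l 16734016) (l 16724648)))) (b (a (a (a (l 16749264) (l 16745904)) (l 16740912)) (a (l 16734256) (l 16724944))) (a (a (a (l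 16749104) (l 16745744)) (l 16740768)) (a (l 16734096) (l 16724744))))))), by decide +kernel⟩

def k78_A00pm_102_s1 : ∃ t, chk3 f_A00pm_102_s1 t 29 1211 64 = true :=
  ⟨(b (c (b (a (a (a (l 16748816) (l 16745440)) (l 16740424)) (a (l 16733704) (l 16724248))) (a (a (a (l 16748664) (l 16745288)) (l 16740280)) (a (l 16733544) (l 16724048)))) (b (a (a (a (l 16748864) (l 16745488)) (l 16740488)) (a (l 16733784) (l 16724344))) (a (a (a (l 16748712) (l 16745336)) (l 16740344)) (a (l 16733624) (l 16724144))))) (c (b (a (a (a (l 16748512) (l 16745136)) (l 16740128)) (a (l 16730760) (l 16723840))) (c (a (a (a (l 16748344) (l 16744968)) (l 16739968)) (a (l 16730584) (l 16723616))) (a (a (a (l 16748368) (l 16745000)) (l 16740000)) (a (l 16730624) (l 16723664))))) (b (a (a (a (l 16748552) (l 16745184)) (l 16740192)) (a (l 16730840) (l 16723936))) (c (a (a (a (l 16748392) (l 16745024)) (l 16740024)) (a (l 16730664) (l 16723712))) (a (a (a (l 16748408) (l 16745048)) (l 16740056)) (a (l 16730704) (l 16723760))))))), by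 decide +kernel⟩

def k79_A00pm_102_s1 : ∃ t, chk3 f_A00pm_102_s1 t 29 1211 65 = true :=
  ⟨(b (c (b (a (a (a (l 16748904) (l 16745544)) (l 16740552)) (a (l 16733864) (l 16724440))) (a (a (a (l 16748752) (l 16745392)) (l 16740408)) (a (l 16733704) (l 16724240)))) (b (a (a (a (l 16748952) (l 16745592)) (l 16740616)) (a (l 16733944) (l 16724536))) (c (a (a (a (l 16748784) (l 16745432)) (l 16740448)) (a (l 16733760) (l 16724312))) (a (a (a (l 16748808) (l 16745456)) (l 16740480)) (a (l 16733800) (l 16724360)))))) (c (b (c (a (a (a (l 16748584) (l 16745224)) (l 16740240)) (a (l 16730904) (l 16724008))) (a (a (a (l 16748608) (l 16745248)) (l 16740272)) (a (l 16730944) (l 16724056)))) (c (b (a (a (a (l 16748472) (l 16745112)) (l 16740128)) (a (l 16730784) (l 16723856))) (a (a (a (l 16748392) (l 16745032)) (l 16740056)) (a (l 16730704) (l 16723752)))) (b (a (a (a (l 16748496) (l 16745136)) (l 16740160)) (a (l 16730824) (l 16723904))) (a (a (a (l 16748416) (l 16745064)) (l 16740088)) (a (l 16730744) (l 16723800))))))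 (b (c (a (a (a (l 16748632) (l 16745280)) (l 16740304)) (a (l 16730984) (l 16724104))) (b (a (a (a (l 16748696) (l 16745344)) (l 16740368)) (a (l 16733688) (l 16724208))) (a (a (a (l 16748616) (l 16745264)) (l 16740296)) (a (l 16733608) (l 16724104))))) (c (b (a (a (a (l 16748512) (l 16745160)) (l 16740192)) (a (l 16730864) (l 16723952))) (a (a (a (l 16748440) (l 16745088)) (l 16740120)) (a (l 16730784) (l 16723848)))) (b (a (a (a (l 16748536) (l 16745192)) (l 16740224)) (a (l 16730904) (l 16724000))) (a (a (a (l 16748464) (l 16745112)) (l 16740152)) (a (l 16730824) (l 16723904)))))))), by decide +kernel⟩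

def k80_A00pm_102_s1 : ∃ t, chk3 f_A00pm_102_s1 t 29 1210 33 = true :=
  ⟨(c (b (c (b (a (a (a (l 16749616) (l 16746256)) (l 16741280)) (a (l 16734648) (l 16725448))) (a (a (a (l 16749464) (l 16746104)) (l 16741128)) (a (l 16734488) (l 16725248)))) (b (a (a (a (l 16749664) (l 16746312)) (l 16741344)) (a (l 16734728) (l 16725544))) (a (a (a (l 16749504) (l 16746160)) (l 16741192)) (a (l 16734576) (l 16725344))))) (c (b (a (a (a (l 16749304) (l 16745952)) (l 16740976)) (a (l 16734336) (l 16725040))) (a (a (a (l 16749152) (l 16745800)) (l 16740832)) (a (l 16734176) (l 16724840)))) (b (a (a (a (l 16749352) (l 16746008)) (l 16741040)) (a (l 16734416) (l 16725144))) (a (a (a (l 16749192) (l 16745856)) (l 16740896)) (a (l 16734264) (l 16724936)))))) (b (c (b (a (a (a (l 16749704) (l 16746368)) (l 16741408)) (a (l 16734808) (l 16725648))) (a (a (a (l 16749552) (l 16746208)) (l 16741256)) (a (l 16734656) (l 16725440)))) (b (a (a (a (l 16749752) (l 16746416)) (l 16741472)) (a (l 16734888) (l 16725744))) (a (a (a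 (l 16749600) (l 16746264)) (l 16741320)) (a (l 16734736) (l 16725544))))) (c (b (a (a (a (l 16749392) (l 16746056)) (l 16741104)) (a (l 16734496) (l 16725240))) (a (a (a (l 16749240) (l 16745904)) (l 16740960)) (a (l 16734344) (l 16725032)))) (b (a (a (a (l 16749440) (l 16746112)) (l 16741176)) (a (l 16734584) (l 16725336))) (c (a (a (a (l 16749272) (l 16745944)) (l 16741008)) (a (l 16734400) (l 16725112))) (a (a (a (l 16749296) (l 16745968)) (l 16741040)) (a (l 16734448) (l 16725160)))))))), by decide +kernel⟩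

def k81_A00pm_102_s1 : ∃ t, chk3 f_A00pm_102_s1 t 29 2422 66 = true :=
  ⟨(c (b (a (a (a (l 16749000) (l 16745648)) (l 16740680)) (a (l 16734024) (l 16724640))) (c (a (a (a (l 16748832) (l 16745480)) (l 16740512)) (a (l 16733840) (l 16724408))) (a (a (a (l 16748856) (l 16745504)) (l 16740544)) (a (l 16733880) (l 16724456))))) (b (c (a (a (a (l 16749032) (l 16745688)) (l 16740728)) (a (l 16734080) (l 16724712))) (a (a (a (l 16749056) (l 16745712)) (l 16740760)) (a (l 16734120) (l 16724760)))) (c (b (a (a (a (l 16748912) (l 16745576)) (l 16740616)) (a (l 16733968) (l 16724560))) (a (a (a (l 16748840) (l 16745496)) (l 16740544)) (a (l 16733888) (l 16724456)))) (b (a (a (a (l 16748936) (l 16745600)) (l 16740648)) (a (l 16734008) (l 16724608))) (a (a (a (l 16748856) (l 16745520)) (l 16740576)) (a (l 16733928) (l 16724504))))))), by decide +kernel⟩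

def k82_A00pm_102_s1 : ∃ t, chk3 f_A00pm_102_s1 t 29 2423 66 = true :=
  ⟨(c (b (c (b (a (a (a (l 16748712) (l 16745368)) (l 16740400)) (a (l 16733728) (l 16724256))) (a (a (a (l 16748640) (l 16745288)) (l 16740328)) (a (l 16733648) (l 16724152)))) (b (a (a (a (l 16748736) (l 16745392)) (l 16740432)) (a (l 16733768) (l 16724304))) (a (a (a (l 16748664) (l 16745320)) (l 16740360)) (a (l 16733688) (l 16724200))))) (c (b (a (a (a (l 16748560) (l 16745216)) (l 16740256)) (a (l 16730944) (l 16724048))) (a (a (a (l 16748480) (l 16745136)) (l 16740184)) (a (l 16730864) (l 16723952)))) (b (a (a (a (l 16748584) (l 16745240)) (l 16740288)) (a (l 16730984) (l 16724096))) (a (a (a (l 16748504) (l 16745168)) (l 16740216)) (a (l 16730904) (l 16724000)))))) (b (c (b (a (a (a (l 16748760) (l 16745416)) (l 16740464)) (a (l 16733808) (l 16724352))) (a (a (a (l 16748680) (l 16745344)) (l 16740392)) (a (l 16731104) (l 16724248)))) (b (a (a (a (l 16748784) (l 16745448)) (l 16740504)) (a (l 16733848) (l 16724400))) (a (a (a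 (l 16748704) (l 16745368)) (l 16740424)) (a (l 16731144) (l 16724296))))) (c (b (a (a (a (l 16748608) (l 16745264)) (l 16740320)) (a (l 16731024) (l 16724152))) (a (a (a (l 16748528) (l 16745192)) (l 16740248)) (a (l 16730944) (l 16724048)))) (b (a (a (a (l 16748632) (l 16745296)) (l 16740352)) (a (l 16731064) (l 16724200))) (a (a (a (l 16748552) (l 16745216)) (l 16740280)) (a (l 16730984) (l 16724096))))))), by decide +kernel⟩

def k83_A00pm_102_s1 : ∃ t, chk3 f_A00pm_102_s1 t 29 2422 67 = true :=
  ⟨(c (b (c (a (a (a (l 16749072) (l 16745736)) (l 16740792)) (a (l 16734160) (l 16724808))) (b (a (a (a (l 16749136) (l 16745800)) (l 16740864)) (a (l 16734248) (l 16724904))) (a (a (a (l 16749056) (l 16745728)) (l 16740792)) (a (l 16734168) (l 16724808))))) (c (b (a (a (a (l 16748960) (l 16745624)) (l 16740680)) (a (l 16734048) (l 16724656))) (a (a (a (l 16748880) (l 16745552)) (l 16740608)) (a (l 16733968) (l 16724552)))) (b (a (a (a (l 16748984) (l 16745648)) (l 16740712)) (a (l 16734088) (l 16724704)))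 (a (a (a (l 16748904) (l 16745576)) (l 16740640)) (a (l 16734008) (l 16724600)))))) (b (c (b (a (a (a (l 16749160) (l 16745832)) (l 16740896)) (a (l 16734288) (l 16724960))) (a (a (a (l 16749080) (l 16745752)) (l 16740824)) (a (l 16734208) (l 16724856)))) (b (a (a (a (l 16749184) (l 16745856)) (l 16740928)) (a (l 16734328) (l 16725008))) (a (a (a (l 16749104) (l 16745784)) (l 16740856)) (a (l 16734248) (l 16724904))))) (c (b (a (a (a (l 16749008) (l 16745680)) (l 16740744)) (a (l 16734128) (l 16724752))) (a (a (a (l 16748928) (l 16745600)) (l 16740672)) (a (l 16734048) (l 16724648)))) (b (a (a (a (l 16749024) (l 16745704)) (l 16740776)) (a (l 16734168) (l 16724800))) (a (a (a (l 16748952) (l 16745632)) (l 16740704)) (a (l 16734088) (l 16724704))))))), by decide +kernel⟩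

def k84_A00pm_102_s1 : ∃ t, chk3 f_A00pm_102_s1 t 29 2423 67 = true :=
  ⟨(c (b (c (b (a (a (a (l 16748808) (l 16745472)) (l 16740536)) (a (l 16733888) (l 16724448))) (a (a (a (l 16748728) (l 16745400)) (l 16740456)) (a (l 16731184) (l 16724352)))) (b (a (a (a (l 16748824) (l 16745496)) (l 16740568)) (a (l 16733928) (l 16724504))) (a (a (a (l 16748752) (l 16745424)) (l 16740488)) (a (l 16731224) (l 16724400))))) (c (a (a (a (l 16748616) (l 16745280)) (l 16740344)) (a (l 16731064) (l 16724192))) (a (a (a (l 16748632) (l 16745312)) (l 16740376)) (a (l 16731104) (l 16724248))))) (b (c (b (a (a (a (l 16748848) (l 16745528)) (l 16740600)) (a (l 16733968) (l 16724552))) (a (a (a (l 16748776) (l 16745448)) (l 16740520)) (a (l 16731272) (l 16724448)))) (a (a (a (l 16748832) (l 16745512)) (l 16740592)) (a (l 16731344) (l 16724552)))) (a (a (a (l 16748672) (l 16745352)) (l 16740424)) (a (a (l 16735568) (l 16732024)) (l 16724320))))), by decide +kernel⟩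

def k85_A00pm_102_s1 : ∃ t, chk3 f_A00pm_102_s1 t 29 604 34 = true :=
  ⟨(b (c (a (a (a (l 16750832) (l 16747496)) (l 16742544)) (a (l 16735992) (l 16727208))) (b (a (a (a (l 16751080) (l 16747760)) (l 16742832)) (a (l 16736312) (l 16727616))) (b (a (a (a (l 16750848) (l 16747528)) (l 16742600)) (a (l 16736088) (l 16727312))) (a (a (a (l 16750688) (l 16747376)) (l 16742456)) (a (l 16735944) (l 16727104)))))) (c (b (c (a (a (a (l 16750344) (l 16747008)) (l 16742064)) (a (l 16735504) (l 16726552))) (a (a (a (l 16750384) (l 16747064)) (l 16742128)) (a (l 16735584) (l 16726656)))) (c (b (a (a (a (l 16750112) (l 16746776)) (l 16741840)) (a (l 16735280) (l 16726248))) (a (a (a (l 16749952) (l 16746624)) (l 16741688)) (a (l 16735128) (l 16726048)))) (b (a (a (a (l 16750152) (l 16746832)) (l 16741904)) (a (l 16735360) (l 16726352))) (a (a (a (l 16750000) (l 16746680)) (l 16741752)) (a (l 16735208) (l 16726144)))))) (b (c (b (a (a (a (l 16750512) (l 16747192)) (l 16742272)) (a (l 16735752) (l 16726856))) (a (a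 (a (l 16750352) (l 16747040)) (l 16742120)) (a (l 16735600) (l 16726656)))) (b (a (a (a (l 16750560) (l 16747248)) (l 16742336)) (a (l 16735832) (l 16726952))) (a (a (a (l 16750400) (l 16747096)) (l 16742184)) (a (l 16735680) (l 16726752))))) (c (b (a (a (a (l 16750200) (l 16746888)) (l 16741968)) (a (l 16735448) (l 16726448))) (a (a (a (l 16750048) (l 16746728)) (l 16741816)) (a (l 16735296) (l 16726248)))) (b (a (a (a (l 16750248) (l 16746936)) (l 16742032)) (a (l 16735528) (l 16726552))) (a (a (a (l 16750088) (l 16746784)) (l 16741888)) (a (l 16735376) (l 16726344)))))))), by decide +kernel⟩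

def k86_A00pm_102_s1 : ∃ t, chk3 f_A00pm_102_s1 t 29 1208 35 = true :=
  ⟨(c (b (a (a (a (l 16751176) (l 16747864)) (l 16742960)) (a (l 16736480) (l 16727816))) (c (b (a (a (a (l 16750920) (l 16747608)) (l 16742704)) (a (l 16736216) (l 16727464))) (a (a (a (l 16750760) (l 16747456)) (l 16742552)) (a (l 16736064) (l 16727256)))) (b (a (a (a (l 16750960) (l 16747664)) (l 16742768)) (a (l 16736304) (l 16727560))) (a (a (a (l 16750808) (l 16747512)) (l 16742624)) (a (l 16736152) (l 16727360)))))) (b (a (a (a (l 16751264) (l 16747976)) (l 16743096)) (a (l 16736648) (l 16728024))) (c (b (a (a (a (l 16751008) (l 16747720)) (l 16742840)) (a (l 16736384) (l 16727664))) (a (a (a (l 16750856) (l 16747560)) (l 16742688)) (a (l 16736240) (l 16727464)))) (b (a (a (a (l 16751056) (l 16747776)) (l 16742904)) (a (l 16736472) (l 16727768))) (a (a (a (l 16750904) (l 16747616)) (l 16742752)) (a (l 16736320) (l 16727568))))))), by decide +kernel⟩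

def k87_A00pm_102_s1 : ∃ t, chk3 f_A00pm_102_s1 t 29 1209 70 = true :=
  ⟨(b (c (b (a (a (a (l 16750608) (l 16747304)) (l 16742400)) (a (l 16735920) (l 16727056))) (a (a (a (l 16750448) (l 16747144)) (l 16742256)) (a (l 16735768) (l 16726856)))) (b (a (a (a (l 16750648) (l 16747352)) (l 16742472)) (a (l 16736000) (l 16727160))) (a (a (a (l 16750496) (l 16747200)) (l 16742320)) (a (l 16735848) (l 16726960))))) (c (b (a (a (a (l 16750296) (l 16746992)) (l 16742104)) (a (l 16735616) (l 16726656))) (a (a (a (l 16750136) (l 16746840)) (l 16741952)) (a (l 16735464) (l 16726448)))) (b (a (a (a (l 16750336) (l 16747048)) (l 16742168)) (a (l 16735696) (l 16726752))) (a (a (a (l 16750184) (l 16746896)) (l 16742016)) (a (l 16735544) (l 16726552)))))), by decide +kernel⟩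

def k88_A00pm_102_s1 : ∃ t, chk3 f_A00pm_102_s1 t 29 1209 71 = true :=
  ⟨(b (c (b (a (a (a (l 16750696) (l 16747408)) (l 16742536)) (a (l 16736088) (l 16727264))) (a (a (a (l 16750544) (l 16747256)) (l 16742384)) (a (l 16735936) (l 16727056)))) (b (a (a (a (l 16750744) (l 16747464)) (l 16742608)) (a (l 16736176) (l 16727368))) (a (a (a (l 16750592) (l 16747312)) (l 16742456)) (a (l 16736024) (l 16727160))))) (c (b (a (a (a (l 16750384) (l 16747104)) (l 16742240)) (a (l 16735784) (l 16726856))) (c (a (a (a (l 16750216) (l 16746936)) (l 16742072)) (a (l 16735608) (l 16726632))) (b (a (a (a (l 16750280) (l 16747000)) (l 16742144)) (a (l 16735696) (l 16726728))) (a (a (a (l 16750208) (l 16746928)) (l 16742064)) (a (l 16735616) (l 16726632)))))) (b (c (a (a (a (l 16750424) (l 16747144)) (l 16742288)) (a (l 16735848) (l 16726936))) (a (a (a (l 16750448) (l 16747176)) (l 16742320)) (a (l 16735888) (l 16726984)))) (c (b (a (a (a (l 16750304) (l 16747032)) (l 16742176)) (a (l 16735736) (l 16726784))) (a (a (a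 (l 16750232) (l 16746952)) (l 16742104)) (a (l 16735656) (l 16726680)))) (b (a (a (a (l 16750328) (l 16747056)) (l 16742208)) (a (l 16735776) (l 16726832))) (a (a (a (l 16750256) (l 16746984)) (l 16742136)) (a (l 16735704) (l 16726728)))))))), by decide +kernel⟩

def k89_A00pm_102_s1 : ∃ t, chk3 f_A00pm_102_s1 t 29 1210 68 = true :=
  ⟨(b (c (b (a (a (a (l 16749800) (l 16746472)) (l 16741536)) (a (l 16734976) (l 16725840))) (a (a (a (l 16749640) (l 16746320)) (l 16741384)) (a (l 16734816) (l 16725640)))) (b (a (a (a (l 16749840) (l 16746528)) (l 16741600)) (a (l 16735056) (l 16725944))) (a (a (a (l 16749688) (l 16746368)) (l 16741456)) (a (l 16734904) (l 16725744))))) (c (b (a (a (a (l 16749488) (l 16746168)) (l 16741240)) (a (l 16734664) (l 16725440))) (c (a (a (a (l 16749320) (l 16746000)) (l 16741072)) (a (l 16734488) (l 16725208))) (b (a (a (a (l 16749384) (l 16746064)) (l 16741144)) (a (l 16734568) (l 16725312))) (a (a (a (l 16749304) (l 16745984)) (l 16741064)) (a (l 16734488) (l 16725208)))))) (b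 (c (a (a (a (l 16749520) (l 16746208)) (l 16741288)) (a (l 16734728) (l 16725512))) (a (a (a (l 16749544) (l 16746232)) (l 16741320)) (a (l 16734768) (l 16725560)))) (c (b (a (a (a (l 16749408) (l 16746088)) (l 16741176)) (a (l 16734608) (l 16725360))) (a (a (a (l 16749328) (l 16746016)) (l 16741104)) (a (l 16734528) (l 16725256)))) (b (a (a (a (l 16749432) (l 16746120)) (l 16741208)) (a (l 16734648) (l 16725408))) (a (a (a (l 16749352) (l 16746040)) (l 16741136)) (a (l 16734576) (l 16725312)))))))), by decide +kernel⟩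

def k90_A00pm_102_s1 : ∃ t, chk3 f_A00pm_102_s1 t 29 2420 69 = true :=
  ⟨(c (b (a (a (a (l 16749888) (l 16746576)) (l 16741672)) (a (l 16735136) (l 16726048))) (c (a (a (a (l 16749720) (l 16746408)) (l 16741504)) (a (l 16734960) (l 16725816))) (a (a (a (l 16749744) (l 16746440)) (l 16741536)) (a (l 16735008) (l 16725864))))) (b (a (a (a (l 16749936) (l 16746632)) (l 16741736)) (a (l 16735224) (l 16726144))) (c (a (a (a (l 16749768) (l 16746464)) (l 16741568)) (a (l 16735048) (l 16725920))) (b (a (a (a (l 16749832) (l 16746528)) (l 16741640)) (a (l 16735128) (l 16726016))) (a (a (a (l 16749752) (l 16746456)) (l 16741568)) (a (l 16735056) (l 16725920))))))), by decide +kernel⟩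

def k91_A00pm_102_s1 : ∃ t, chk3 f_A00pm_102_s1 t 29 2421 69 = true :=
  ⟨(c (b (c (b (a (a (a (l 16749608) (l 16746296)) (l 16741392)) (a (l 16734848) (l 16725664))) (a (a (a (l 16749528) (l 16746224)) (l 16741320)) (a (l 16734768) (l 16725560)))) (b (a (a (a (l 16749632) (l 16746320)) (l 16741424)) (a (l 16734888) (l 16725712))) (a (a (a (l 16749552) (l 16746248)) (l 16741352)) (a (l 16734816) (l 16725616))))) (c (b (a (a (a (l 16749448) (l 16746144)) (l 16741240)) (a (l 16734696) (l 16725456))) (a (a (a (l 16749376) (l 16746064)) (l 16741168)) (a (l 16734616) (l 16725360)))) (b (a (a (a (l 16749472) (l 16746168)) (l 16741272)) (a (l 16734736) (l 16725512))) (a (a (a (l 16749400) (l 16746096)) (l 16741200)) (a (l 16734656) (l 16725408)))))) (b (c (b (a (a (a (l 16749656) (l 16746352)) (l 16741456)) (a (l 16734936) (l 16725768))) (a (a (a (l 16749576) (l 16746272)) (l 16741384)) (a (l 16734856) (l 16725664)))) (b (a (a (a (l 16749680) (l 16746376)) (l 16741488)) (a (l 16734976) (l 16725816))) (a (a (a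 (l 16749600) (l 16746304)) (l 16741416)) (a (l 16734896) (l 16725712))))) (c (b (a (a (a (l 16749496) (l 16746200)) (l 16741304)) (a (l 16734776) (l 16725560))) (a (a (a (l 16749424) (l 16746120)) (l 16741232)) (a (l 16734696) (l 16725456)))) (b (a (a (a (l 16749520) (l 16746224)) (l 16741344)) (a (l 16734816) (l 16725608))) (a (a (a (l 16749448) (l 16746152)) (l 16741264)) (a (l 16734736) (l 16725512))))))), by decide +kernel⟩

def k92_A00pm_102_s1 : ∃ t, chk3 f_A00pm_102_s1 t 29 1211 68 = true :=
  ⟨(b (c (b (c (b (a (a (a (l 16749208) (l 16745880)) (l 16740960)) (a (l 16734368) (l 16725056))) (a (a (a (l 16749128) (l 16745808)) (l 16740888)) (a (l 16734288) (l 16724952)))) (b (a (a (a (l 16749224) (l 16745912)) (l 16740992)) (a (l 16734408) (l 16725104))) (a (a (a (l 16749152) (l 16745832)) (l 16740920)) (a (l 16734336) (l 16725008))))) (c (b (a (a (a (l 16749048) (l 16745728)) (l 16740808)) (a (l 16734208) (l 16724856))) (a (a (a (l 16748976) (l 16745656)) (l 16740736)) (a (l 16734128) (l 16724752))))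 (b (a (a (a (l 16749072) (l 16745760)) (l 16740848)) (a (l 16734256) (l 16724904))) (a (a (a (l 16749000) (l 16745680)) (l 16740768)) (a (l 16734176) (l 16724800)))))) (b (c (b (a (a (a (l 16749248) (l 16745936)) (l 16741024)) (a (l 16734456) (l 16725160))) (a (a (a (l 16749176) (l 16745864)) (l 16740952)) (a (l 16734376) (l 16725056)))) (b (a (a (a (l 16749272) (l 16745968)) (l 16741056)) (a (l 16734496) (l 16725208))) (a (a (a (l 16749200) (l 16745888)) (l 16740984)) (a (l 16734416) (l 16725104))))) (c (a (a (a (l 16749056) (l 16745744)) (l 16740840)) (a (l 16734248) (l 16724904))) (a (a (a (l 16749080) (l 16745776)) (l 16740872)) (a (l 16734296) (l 16724952)))))) (c (b (c (a (a (a (l 16748856) (l 16745544)) (l 16740624)) (a (l 16731384) (l 16724600))) (a (a (a (l 16748880) (l 16745568)) (l 16740656)) (a (l 16731432) (l 16724648)))) (a (a (a (l 16748712) (l 16745400)) (l 16740496)) (a (a (l 16735648) (l 16732104)) (l 16724416)))) (b (a (a (a (l 16748912) (l 16745608)) (l 16740704)) (a (l 16731488) (l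 16724720))) (a (a (a (l 16748760) (l 16745456)) (l 16740560)) (a (a (l 16735728) (l 16732192)) (l 16724520)))))), by decide +kernel⟩

def k93_A00pm_102_s1 : ∃ t, chk3 f_A00pm_102_s1 t 29 1211 69 = true :=
  ⟨(b (c (b (c (b (a (a (a (l 16749296) (l 16745992)) (l 16741096)) (a (l 16734536) (l 16725256))) (a (a (a (l 16749216) (l 16745912)) (l 16741016)) (a (l 16734456) (l 16725152)))) (b (a (a (a (l 16749320) (l 16746016)) (l 16741128)) (a (l 16734576) (l 16725304))) (a (a (a (l 16749240) (l 16745944)) (l 16741048)) (a (l 16734496) (l 16725208))))) (c (a (a (a (l 16749104) (l 16745800)) (l 16740904)) (a (l 16734336) (l 16725000))) (a (a (a (l 16749128) (l 16745832)) (l 16740936)) (a (l 16734376) (l 16725056))))) (b (c (b (a (a (a (l 16749344) (l 16746048)) (l 16741160)) (a (l 16734616) (l 16725360))) (a (a (a (l 16749264) (l 16745968)) (l 16741088)) (a (l 16734536) (l 16725256)))) (a (a (a (l 16749328) (l 16746032)) (l 16741152)) (a (l 16734616) (l 16725360)))) (a (a (a (l 16749160) (l 16745872)) (l 16740992))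 (a (l 16734440) (l 16725128))))) (c (b (a (a (a (l 16748960) (l 16745664)) (l 16740776)) (a (l 16731576) (l 16724824))) (a (a (a (l 16748808) (l 16745512)) (l 16740624)) (a (a (l 16735808) (l 16732280)) (l 16724616)))) (b (a (a (a (l 16749008) (l 16745720)) (l 16740840)) (a (l 16731656) (l 16724928))) (a (a (a (l 16748856) (l 16745568)) (l 16740688)) (a (a (l 16735888) (l 16732368)) (l 16724720)))))), by decide +kernel⟩

def k94_A00pm_102_s1 : ∃ t, chk3 f_A00pm_102_s1 t 29 2420 70 = true :=
  ⟨(c (b (c (a (a (a (l 16749968) (l 16746672)) (l 16741784)) (a (l 16735288) (l 16726224))) (a (a (a (l 16749992) (l 16746704)) (l 16741816)) (a (l 16735328) (l 16726272)))) (c (b (a (a (a (l 16749856) (l 16746560)) (l 16741672)) (a (l 16735176) (l 16726072))) (a (a (a (l 16749776) (l 16746480)) (l 16741600)) (a (l 16735096) (l 16725968)))) (b (a (a (a (l 16749880) (l 16746584)) (l 16741704)) (a (l 16735216) (l 16726120))) (a (a (a (l 16749800) (l 16746512)) (l 16741632)) (a (l 16735136) (l 16726016)))))) (b (c (b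 (a (a (a (l 16750056) (l 16746768)) (l 16741888)) (a (l 16735408) (l 16726376))) (a (a (a (l 16749976) (l 16746688)) (l 16741816)) (a (l 16735336) (l 16726272)))) (b (a (a (a (l 16750080) (l 16746792)) (l 16741928)) (a (l 16735456) (l 16726424))) (a (a (a (l 16750000) (l 16746720)) (l 16741848)) (a (l 16735376) (l 16726320))))) (c (b (a (a (a (l 16749904) (l 16746616)) (l 16741744)) (a (l 16735256) (l 16726168))) (a (a (a (l 16749824) (l 16746536)) (l 16741664)) (a (l 16735176) (l 16726072)))) (b (a (a (a (l 16749928) (l 16746640)) (l 16741776)) (a (l 16735296) (l 16726224))) (a (a (a (l 16749848) (l 16746568)) (l 16741696)) (a (l 16735224) (l 16726120))))))), by decide +kernel⟩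

def k95_A00pm_102_s1 : ∃ t, chk3 f_A00pm_102_s1 t 29 2421 70 = true :=
  ⟨(c (b (c (b (a (a (a (l 16749696) (l 16746408)) (l 16741528)) (a (l 16735016) (l 16725864))) (a (a (a (l 16749624) (l 16746328)) (l 16741448)) (a (l 16734936) (l 16725760)))) (b (a (a (a (l 16749720) (l 16746432)) (l 16741560)) (a (l 16735056) (l 16725920))) (a (a (a (l 16749648) (l 16746360)) (l 16741480)) (a (l 16734984) (l 16725816))))) (c (b (a (a (a (l 16749544) (l 16746256)) (l 16741376)) (a (l 16734864) (l 16725664))) (a (a (a (l 16749464) (l 16746176)) (l 16741304)) (a (l 16734784) (l 16725560)))) (b (a (a (a (l 16749568) (l 16746280)) (l 16741408)) (a (l 16734904) (l 16725712))) (a (a (a (l 16749488) (l 16746208)) (l 16741336)) (a (l 16734824) (l 16725608)))))) (b (c (b (a (a (a (l 16749744) (l 16746464)) (l 16741592)) (a (l 16735104) (l 16725968))) (a (a (a (l 16749672) (l 16746384)) (l 16741520)) (a (l 16735024) (l 16725864)))) (b (a (a (a (l 16749768) (l 16746488)) (l 16741624)) (a (l 16735144) (l 16726016))) (a (a (a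 (l 16749696) (l 16746408)) (l 16741552)) (a (l 16735064) (l 16725920))))) (c (a (a (a (l 16749552) (l 16746272)) (l 16741408)) (a (l 16734904) (l 16725712))) (a (a (a (l 16749576) (l 16746296)) (l 16741440)) (a (l 16734944) (l 16725768)))))), by decide +kernel⟩

def k96_A00pm_102_s1 : ∃ t, chk3 f_A00pm_102_s1 t 29 2420 71 = true :=
  ⟨(c (b (c (b (a (a (a (l 16750104) (l 16746824)) (l 16741960)) (a (l 16735496) (l 16726472))) (a (a (a (l 16750024) (l 16746744)) (l 16741880)) (a (l 16735416) (l 16726376)))) (b (a (a (a (l 16750128) (l 16746848)) (l 16741992)) (a (l 16735536) (l 16726528))) (a (a (a (l 16750048) (l 16746776)) (l 16741920)) (a (l 16735464) (l 16726424))))) (c (b (a (a (a (l 16749952) (l 16746672)) (l 16741808)) (a (l 16735344) (l 16726272))) (a (a (a (l 16749872) (l 16746592)) (l 16741736)) (a (l 16735264) (l 16726168)))) (b (a (a (a (l 16749976) (l 16746696)) (l 16741840)) (a (l 16735384) (l 16726328))) (a (a (a (l 16749896) (l 16746616)) (l 16741768)) (a (l 16735304) (l 16726224)))))) (b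 (c (b (a (a (a (l 16750152) (l 16746880)) (l 16742024)) (a (l 16735584) (l 16726576))) (a (a (a (l 16750072) (l 16746800)) (l 16741952)) (a (l 16735504) (l 16726480)))) (b (a (a (a (l 16750176) (l 16746904)) (l 16742056)) (a (l 16735624) (l 16726632))) (a (a (a (l 16750096) (l 16746832)) (l 16741984)) (a (l 16735544) (l 16726528))))) (c (b (a (a (a (l 16750000) (l 16746720)) (l 16741880)) (a (l 16735424) (l 16726376))) (a (a (a (l 16749920) (l 16746648)) (l 16741800)) (a (l 16735352) (l 16726272)))) (b (a (a (a (l 16750024) (l 16746752)) (l 16741912)) (a (l 16735472) (l 16726424))) (a (a (a (l 16749944) (l 16746672)) (l 16741832)) (a (l 16735392) (l 16726328))))))), by decide +kernel⟩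

def k97_A00pm_102_s1 : ∃ t, chk3 f_A00pm_102_s1 t 29 2421 71 = true :=
  ⟨(c (b (c (b (a (a (a (l 16749792) (l 16746512)) (l 16741656)) (a (l 16735184) (l 16726072))) (a (a (a (l 16749720) (l 16746440)) (l 16741584)) (a (l 16735112) (l 16725968)))) (a (a (a (l 16749776) (l 16746504)) (l 16741656)) (a (l 16735184) (l 16726072)))) (a (a (a (l 16749616) (l 16746336)) (l 16741488)) (a (l 16735008) (l 16725840)))) (b (c (a (a (a (l 16749800) (l 16746536)) (l 16741688)) (a (l 16735232) (l 16726120))) (a (a (a (l 16749824) (l 16746560)) (l 16741720)) (a (l 16735272) (l 16726176)))) (a (a (a (l 16749664) (l 16746392)) (l 16741560)) (a (l 16735096) (l 16725944))))), by decide +kernel⟩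

def k98_A00pm_102_s1 : ∃ t, chk3 f_A00pm_102_s1 t 29 1211 35 = true :=
  ⟨(c (b (c (b (a (a (a (l 16749360) (l 16746080)) (l 16741208)) (a (l 16734680) (l 16725432))) (a (a (a (l 16749208) (l 16745920)) (l 16741056)) (a (l 16734520) (l 16725232)))) (b (a (a (a (l 16749408) (l 16746128)) (l 16741272)) (a (l 16734768) (l 16725536))) (a (a (a (l 16749256) (l 16745976)) (l 16741120)) (a (l 16731984) (l 16725328))))) (c (b (a (a (a (l 16749056) (l 16745768)) (l 16740904)) (a (a (l 16736112) (l 16732632)) (l 16725024))) (a (a (a (l 16748904) (l 16745616)) (l 16740760)) (a (a (l 16735960) (l 16732456)) (l 16724824)))) (b (a (a (a (l 16749104) (l 16745824)) (l 16740976)) (a (a (l 16736184) (l 16732720)) (l 16725128))) (a (a (a (l 16748952) (l 16745672)) (l 16740824)) (a (a (l 16736040) (l 16732544)) (l 16724920)))))) (b (c (b (a (a (a (l 16749456) (l 16746184)) (l 16741336)) (a (l 16734848) (l 16725640))) (a (a (a (l 16749304) (l 16746032)) (l 16741192)) (a (a (l 16736416) (l 16732984)) (l 16725432)))) (b (a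 (a (a (l 16749504) (l 16746240)) (l 16741408)) (a (l 16734936) (l 16725744))) (a (a (a (l 16749352) (l 16746088)) (l 16741256)) (a (a (l 16736496) (l 16733072)) (l 16725536))))) (c (b (a (a (a (l 16749152) (l 16745880)) (l 16741040)) (a (a (l 16736264) (l 16732808)) (l 16725232))) (a (a (a (l 16749000) (l 16745728)) (l 16740896)) (a (a (l 16736120) (l 16732632)) (l 16725024)))) (b (a (a (a (l 16749200) (l 16745936)) (l 16741112)) (a (a (l 16736352) (l 16732896)) (l 16725336))) (a (a (a (l 16749048) (l 16745784)) (l 16740960)) (a (a (l 16736200) (l 16732720)) (l 16725128))))))), by decide +kernel⟩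

def k99_A00pm_102_s1 : ∃ t, chk3 f_A00pm_102_s1 t 29 2424 64 = true :=
  ⟨(c (b (c (a (a (a (l 16748192) (l 16744816)) (l 16739816)) (a (l 16730424) (l 16723408))) (b (a (a (a (l 16748248) (l 16744880)) (l 16739888)) (a (l 16730504) (l 16723512))) (a (a (a (l 16748176) (l 16744808)) (l 16739808)) (a (l 16730424) (l 16723408))))) (c (b (a (a (a (l 16748072) (l 16744704)) (l 16739704)) (a (l 16730304) (l 16723256))) (a (a (a (l 16748000) (l 16744632)) (l 16739632)) (a (a (l 16734696) (l 16731016)) (l 16723152)))) (b (a (a (a (l 16748096) (l 16744728)) (l 16739736)) (a (l 16730344) (l 16723304))) (a (a (a (l 16748024) (l 16744656)) (l 16739664)) (a (a (l 16734736) (l 16731056)) (l 16723200)))))) (b (c (b (a (a (a (l 16748272) (l 16744904)) (l 16739920)) (a (l 16730544) (l 16723560))) (a (a (a (l 16748200) (l 16744832)) (l 16739840)) (a (l 16730464) (l 16723456)))) (b (a (a (a (l 16748296) (l 16744936)) (l 16739944)) (a (l 16730584) (l 16723608))) (a (a (a (l 16748216) (l 16744856)) (l 16739872)) (a (l 16730504)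 (l 16723504))))) (c (b (a (a (a (l 16748120) (l 16744760)) (l 16739768)) (a (a (l 16734848) (l 16731184)) (l 16723352))) (a (a (a (l 16748040) (l 16744680)) (l 16739696)) (a (a (l 16734776) (l 16731096)) (l 16723248)))) (b (a (a (a (l 16748144) (l 16744784)) (l 16739800)) (a (a (l 16734880) (l 16731224)) (l 16723400))) (a (a (a (l 16748064) (l 16744704)) (l 16739728)) (a (a (l 16734808) (l 16731136)) (l 16723296))))))), by decide +kernel⟩

def k100_A00pm_102_s1 : ∃ t, chk3 f_A00pm_102_s1 t 29 2425 64 = true :=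
  ⟨(c (b (c (b (a (a (a (l 16747920) (l 16744552)) (l 16739560)) (a (a (l 16734624) (l 16730920)) (l 16723056))) (a (a (a (l 16747848) (l 16744480)) (l 16739480)) (a (a (l 16734552) (l 16730824)) (l 16722952)))) (b (a (a (a (l 16747944) (l 16744576)) (l 16739592)) (a (a (l 16734664) (l 16730960)) (l 16723104))) (a (a (a (l 16747864) (l 16744504)) (l 16739512)) (a (a (l 16734592) (l 16730864)) (l 16723000))))) (c (b (a (a (a (l 16747768) (l 16744400)) (l 16739408)) (a (a (l 16734480) (l 16730736)) (l 16722848))) (a (a (a (l 16747696) (l 16744328)) (l 16739336)) (a (a (l 16734408) (l 16730640)) (l 16722744)))) (a (a (a (l 16747752) (l 16744392)) (l 16739400)) (a (a (l 16734480) (l 16730728)) (l 16722848))))) (b (c (b (a (a (a (l 16747968) (l 16744608)) (l 16739616)) (a (a (l 16734704) (l 16731000)) (l 16723152))) (a (a (a (l 16747888) (l 16744528)) (l 16739544)) (a (a (l 16734632) (l 16730912)) (l 16723048)))) (b (a (a (a (l 16747992) (l 16744632)) (l 16739648)) (a (a (l 16734736) (l 16731048)) (l 16723200)))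 (a (a (a (l 16747912) (l 16744552)) (l 16739576)) (a (a (l 16734664) (l 16730952)) (l 16723096))))) (c (a (a (a (l 16747776) (l 16744416)) (l 16739432)) (a (a (l 16734520) (l 16730768)) (l 16722896))) (a (a (a (l 16747800) (l 16744440)) (l 16739464)) (a (a (l 16734552) (l 16730808)) (l 16722944)))))), by decide +kernel⟩

def k101_A00pm_102_s1 : ∃ t, chk3 f_A00pm_102_s1 t 29 2424 65 = true :=
  ⟨(c (b (c (b (a (a (a (l 16748320) (l 16744960)) (l 16739976)) (a (l 16730624) (l 16723656))) (a (a (a (l 16748240) (l 16744880)) (l 16739904)) (a (l 16730544) (l 16723552)))) (b (a (a (a (l 16748336) (l 16744984)) (l 16740008)) (a (l 16730664) (l 16723704))) (a (a (a (l 16748264) (l 16744912)) (l 16739936)) (a (l 16730584) (l 16723600))))) (c (b (a (a (a (l 16748160) (l 16744808)) (l 16739832)) (a (a (l 16734920) (l 16731272)) (l 16723448))) (a (a (a (l 16748088) (l 16744728)) (l 16739760)) (a (a (l 16734848) (l 16731176)) (l 16723344)))) (b (a (a (a (l 16748184) (l 16744832)) (l 16739864)) (a (a (l 16734960) (l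 16731312)) (l 16723496))) (a (a (a (l 16748112) (l 16744760)) (l 16739792)) (a (a (l 16734888) (l 16731216)) (l 16723392)))))) (b (c (b (a (a (a (l 16748360) (l 16745008)) (l 16740040)) (a (l 16730704) (l 16723752))) (a (a (a (l 16748288) (l 16744936)) (l 16739968)) (a (l 16730624) (l 16723648)))) (b (a (a (a (l 16748384) (l 16745040)) (l 16740072)) (a (l 16730744) (l 16723800))) (a (a (a (l 16748304) (l 16744960)) (l 16740000)) (a (a (l 16735104) (l 16731480)) (l 16723696))))) (c (b (a (a (a (l 16748208) (l 16744856)) (l 16739896)) (a (a (l 16734992) (l 16731352)) (l 16723544))) (a (a (a (l 16748128) (l 16744784)) (l 16739824)) (a (a (l 16734920) (l 16731264)) (l 16723440)))) (a (a (a (l 16748192) (l 16744848)) (l 16739888)) (a (a (l 16735000) (l 16731344)) (l 16723544)))))), by decide +kernel⟩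

def k102_A00pm_102_s1 : ∃ t, chk3 f_A00pm_102_s1 t 29 2425 65 = true :=
  ⟨(c (b (c (a (a (a (l 16747968) (l 16744616)) (l 16739648)) (a (a (l 16734736) (l 16731032)) (l 16723192))) (a (a (a (l 16747992) (l 16744648)) (l 16739680)) (a (a (l 16734776) (l 16731072)) (l 16723240)))) (a (a (a (l 16747832) (l 16744480)) (l 16739512)) (a (a (l 16734608) (l 16730872)) (l 16723016)))) (b (a (a (a (l 16748024) (l 16744680)) (l 16739728)) (a (a (l 16734832) (l 16731136)) (l 16723312))) (a (a (a (l 16747872) (l 16744528)) (l 16739576)) (a (a (l 16734688) (l 16730952)) (l 16723112))))), by decide +kernel⟩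

def k103_A00pm_102_s1 : ∃ t, chk3 f_A00pm_102_s1 t 29 1213 32 = true :=
  ⟨(c (b (c (b (a (a (a (l 16747592) (l 16744224)) (l 16739240)) (a (a (l 16734320) (l 16730520)) (l 16722616))) (a (a (a (l 16747432) (l 16744072)) (l 16739096)) (a (a (l 16734176) (l 16730328)) (l 16722408)))) (b (a (a (a (l 16747632) (l 16744280)) (l 16739304)) (a (a (l 16734392) (l 16730600)) (l 16722712))) (a (a (a (l 16747480) (l 16744128)) (l 16739152)) (a (a (l 16734248) (l 16730408)) (l 16722504))))) (c (b (a (a (a (l 16747280) (l 16743928)) (l 16738944)) (a (a (l 16734032) (l 16730136)) (l 16722208))) (a (a (a (l 16747128) (l 16743776)) (l 16738800)) (a (a (l 16733888) (l 16729944)) (l 16722000)))) (b (a (a (a (l 16747328) (l 16743976)) (l 16739008)) (a (a (l 16734104) (l 16730216)) (l 16722304))) (a (a (a (l 16747176) (l 16743824)) (l 16738864)) (a (a (l 16733960) (l 16730024)) (l 16722096)))))) (b (c (b (a (a (a (l 16747680) (l 16744328)) (l 16739368)) (a (a (l 16734464) (l 16730680)) (l 16722808))) (a (a (a (l 16747520)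 (l 16744176)) (l 16739216)) (a (a (l 16734320) (l 16730496)) (l 16722600)))) (b (a (a (a (l 16747720) (l 16744384)) (l 16739432)) (a (a (l 16734544) (l 16730768)) (l 16722904))) (a (a (a (l 16747568) (l 16744232)) (l 16739280)) (a (a (l 16734400) (l 16730576)) (l 16722696))))) (c (b (a (a (a (l 16747368) (l 16744024)) (l 16739072)) (a (a (l 16734176) (l 16730304)) (l 16722400))) (a (a (a (l 16747216) (l 16743880)) (l 16738920)) (a (a (l 16734032) (l 16730104)) (l 16722192)))) (b (a (a (a (l 16747416) (l 16744080)) (l 16739136)) (a (a (l 16734256) (l 16730384)) (l 16722496))) (a (a (a (l 16747264) (l 16743928)) (l 16738984)) (a (a (l 16734112) (l 16730192)) (l 16722288))))))), by decide +kernel⟩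

def k104_A00pm_102_s1 : ∃ t, chk3 f_A00pm_102_s1 t 29 1212 66 = true :=
  ⟨(b (c (b (c (b (a (a (a (l 16748408) (l 16745064)) (l 16740104)) (a (l 16730784) (l 16723848))) (a (a (a (l 16748328) (l 16744984)) (l 16740032)) (a (a (l 16735144) (l 16731528)) (l 16723744)))) (a (a (a (l 16748392) (l 16745048)) (l 16740104)) (a (a (l 16735216) (l 16731608)) (l 16723848)))) (c (a (a (a (l 16748216) (l 16744872)) (l 16739920)) (a (a (l 16735032) (l 16731384)) (l 16723592))) (a (a (a (l 16748240) (l 16744896)) (l 16739952)) (a (a (l 16735072) (l 16731432)) (l 16723640))))) (b (c (a (a (a (l 16748416) (l 16745080)) (l 16740136)) (a (a (l 16735256) (l 16731648)) (l 16723896))) (a (a (a (l 16748432) (l 16745104)) (l 16740168)) (a (a (l 16735296) (l 16731696)) (l 16723944)))) (a (a (a (l 16748272) (l 16744936)) (l 16740000)) (a (a (l 16735128) (l 16731488)) (l 16723712))))) (c (b (a (a (a (l 16748072) (l 16744736)) (l 16739792)) (a (a (l 16734912) (l 16731224)) (l 16723408))) (a (a (a (l 16747920) (l 16744584)) (l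 16739640)) (a (a (l 16734760) (l 16731032)) (l 16723208)))) (b (a (a (a (l 16748120) (l 16744792)) (l 16739856)) (a (a (l 16734984) (l 16731304)) (l 16723512))) (a (a (a (l 16747968) (l 16744640)) (l 16739704)) (a (a (l 16734840) (l 16731120)) (l 16723304)))))), by decide +kernel⟩

def k105_A00pm_102_s1 : ∃ t, chk3 f_A00pm_102_s1 t 29 1212 67 = true :=
  ⟨(b (c (b (a (a (a (l 16748472) (l 16745144)) (l 16740216)) (a (a (l 16735352) (l 16731760)) (l 16724016))) (a (a (a (l 16748320) (l 16744992)) (l 16740064)) (a (a (l 16735208) (l 16731576)) (l 16723808)))) (b (a (a (a (l 16748512) (l 16745200)) (l 16740280)) (a (a (l 16735424) (l 16731840)) (l 16724112))) (a (a (a (l 16748360) (l 16745048)) (l 16740128)) (a (a (l 16735280) (l 16731664)) (l 16723912))))) (c (b (a (a (a (l 16748160) (l 16744840)) (l 16739920)) (a (a (l 16735064) (l 16731392)) (l 16723608))) (a (a (a (l 16748008) (l 16744688)) (l 16739768)) (a (a (l 16734912) (l 16731208)) (l 16723400)))) (b (a (a (a (l 16748208) (l 16744896)) (l 16739984))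 (a (a (l 16735136) (l 16731472)) (l 16723704))) (a (a (a (l 16748056) (l 16744744)) (l 16739832)) (a (a (l 16734992) (l 16731288)) (l 16723504)))))), by decide +kernel⟩

def k106_A00pm_102_s1 : ∃ t, chk3 f_A00pm_102_s1 t 29 1213 33 = true :=
  ⟨(c (b (c (b (a (a (a (l 16747768) (l 16744432)) (l 16739496)) (a (a (l 16734616) (l 16730848)) (l 16723000))) (a (a (a (l 16747616) (l 16744280)) (l 16739344)) (a (a (l 16734472) (l 16730656)) (l 16722800)))) (b (a (a (a (l 16747808) (l 16744488)) (l 16739560)) (a (a (l 16734696) (l 16730936)) (l 16723096))) (a (a (a (l 16747656) (l 16744336)) (l 16739408)) (a (a (l 16734552) (l 16730744)) (l 16722896))))) (c (a (a (a (l 16747384) (l 16744056)) (l 16739128)) (a (a (l 16734256) (l 16730368)) (l 16722488))) (a (a (a (l 16747432) (l 16744112)) (l 16739192)) (a (a (l 16734336) (l 16730448)) (l 16722584))))) (b (c (a (a (a (l 16747784) (l 16744464)) (l 16739544)) (a (a (l 16734696) (l 16730920)) (l 16723096))) (a (a (a (l 16747824) (l 16744520)) (l 16739616)) (a (a (l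 16734776) (l 16731000)) (l 16723192)))) (a (a (a (l 16747496) (l 16744192)) (l 16739288)) (a (a (l 16734448) (l 16730576)) (l 16722736))))), by decide +kernel⟩

def k107_A00pm_102_s1 : ∃ t, chk3 f_A00pm_102_s1 t 29 607 32 = true :=
  ⟨(b (c (b (c (b (a (a (a (l 16746976) (l 16743624)) (l 16738648)) (a (a (l 16733744) (l 16729744)) (l 16721792))) (a (a (a (l 16746824) (l 16743472)) (l 16738504)) (a (a (l 16733600) (l 16729544)) (l 16721592)))) (a (a (a (l 16746944) (l 16743600)) (l 16738640)) (a (a (l 16733744) (l 16729728)) (l 16721784)))) (c (a (a (a (l 16746600) (l 16743248)) (l 16738280)) (a (a (l 16733384) (l 16729240)) (l 16721280))) (a (a (a (l 16746640) (l 16743296)) (l 16738344)) (a (a (l 16733456) (l 16729328)) (l 16721376))))) (b (c (a (a (a (l 16746992) (l 16743648)) (l 16738704)) (a (a (l 16733816) (l 16729808)) (l 16721880))) (a (a (a (l 16747032) (l 16743704)) (l 16738768)) (a (a (l 16733896) (l 16729888)) (l 16721984)))) (a (a (a (l 16746712) (l 16743376)) (l 16738440)) (a (a (l 16733568)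 (l 16729448)) (l 16721520))))) (c (b (a (a (a (l 16746320) (l 16742976)) (l 16738024)) (a (a (l 16733128) (l 16728872)) (l 16720912))) (a (a (a (l 16746016) (l 16742680)) (l 16737728)) (a (a (l 16732832) (l 16728456)) (l 16720504)))) (b (a (a (a (l 16746408) (l 16743080)) (l 16738144)) (a (a (l 16733280) (l 16729040)) (l 16721112))) (a (a (a (l 16746104) (l 16742776)) (l 16737856)) (a (a (l 16732984) (l 16728624)) (l 16720696)))))), by decide +kernel⟩

def k108_A00pm_102_s1 : ∃ t, chk3 f_A00pm_102_s1 t 29 607 33 = true :=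
  ⟨(b (c (b (a (a (a (l 16747104) (l 16743784)) (l 16738864)) (a (a (l 16734008) (l 16730016)) (l 16722128))) (a (a (a (l 16746800) (l 16743480)) (l 16738568)) (a (a (l 16733720) (l 16729616)) (l 16721712)))) (b (a (a (a (l 16747192) (l 16743888)) (l 16738992)) (a (a (l 16734160) (l 16730184)) (l 16722320))) (a (a (a (l 16746888) (l 16743584)) (l 16738696)) (a (a (l 16733872) (l 16729784)) (l 16721912))))) (c (b (a (a (a (l 16746496) (l 16743184)) (l 16738272)) (a (a (l 16733432) (l 16729208)) (l 16721304))) (a (a (a (l 16746192) (l 16742880)) (l 16737984)) (a (a (l 16733128) (l 16728792)) (l 16720888)))) (b (a (a (a (l 16746584) (l 16743288)) (l 16738400)) (a (a (l 16733584) (l 16729376)) (l 16721504))) (a (a (a (l 16746288) (l 16742992)) (l 16738112)) (a (a (l 16733280) (l 16728960)) (l 16721088)))))), by decide +kernel⟩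

def k109_A00pm_102_s1 : ∃ t, chk3 f_A00pm_102_s1 t 29 1212 34 = true :=
  ⟨(c (b (c (b (a (a (a (l 16748560) (l 16745248)) (l 16740344)) (a (a (l 16735504) (l 16731928)) (l 16724216))) (a (a (a (l 16748408) (l 16745096)) (l 16740200)) (a (a (l 16735360) (l 16731744)) (l 16724008)))) (b (a (a (a (l 16748608) (l 16745304)) (l 16740408)) (a (a (l 16735584) (l 16732016)) (l 16724312))) (a (a (a (l 16748456) (l 16745152)) (l 16740264)) (a (a (l 16735440) (l 16731832)) (l 16724112))))) (c (b (a (a (a (l 16748256) (l 16744944)) (l 16740048)) (a (a (l 16735216) (l 16731560)) (l 16723808))) (a (a (a (l 16748104) (l 16744800)) (l 16739896)) (a (a (l 16735064) (l 16731376)) (l 16723600)))) (a (a (a (l 16748224) (l 16744928)) (l 16740040)) (a (a (l 16735224) (l 16731544)) (l 16723800))))) (b (c (b (a (a (a (l 16748656) (l 16745360)) (l 16740480)) (a (a (l 16735664) (l 16732104)) (l 16724416))) (a (a (a (l 16748504) (l 16745208)) (l 16740328)) (a (a (l 16735520) (l 16731920)) (l 16724208)))) (b (a (a (a (l 16748704)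 (l 16745416)) (l 16740544)) (a (a (l 16735736) (l 16732184)) (l 16724512))) (a (a (a (l 16748544) (l 16745264)) (l 16740392)) (a (a (l 16735592) (l 16732008)) (l 16724312))))) (c (a (a (a (l 16748272) (l 16744984)) (l 16740104)) (a (a (l 16735296) (l 16731632)) (l 16723904))) (a (a (a (l 16748320) (l 16745032)) (l 16740176)) (a (a (l 16735376) (l 16731720)) (l 16724008)))))), by decide +kernel⟩

def k110_A00pm_102_s1 : ∃ t, chk3 f_A00pm_102_s1 t 29 1213 34 = true :=
  ⟨(c (b (a (a (a (l 16747896) (l 16744600)) (l 16739712)) (a (a (l 16734888) (l 16731128)) (l 16723344))) (a (a (a (l 16747592) (l 16744296)) (l 16739416)) (a (a (l 16734600) (l 16730744)) (l 16722936)))) (b (a (a (a (l 16747992) (l 16744704)) (l 16739840)) (a (a (l 16735048) (l 16731304)) (l 16723544))) (a (a (a (l 16747680) (l 16744400)) (l 16739544)) (a (a (l 16734760) (l 16730920)) (l 16723136))))), by decide +kernel⟩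

def k111_A00pm_102_s1 : ∃ t, chk3 f_A00pm_102_s1 t 29 606 35 = true :=
  ⟨(b (c (b (c (a (a (a (l 16748672) (l 16745392)) (l 16740536)) (a (a (l 16735744) (l 16732176)) (l 16724512))) (a (a (a (l 16748720) (l 16745448)) (l 16740600)) (a (a (l 16735824) (l 16732264)) (l 16724616)))) (a (a (a (l 16748392) (l 16745120)) (l 16740272)) (a (a (l 16735496) (l 16731848)) (l 16724160)))) (b (a (a (a (l 16748792) (l 16745528)) (l 16740704)) (a (a (l 16735944) (l 16732400)) (l 16724768))) (a (a (a (l 16748488) (l 16745232)) (l 16740408)) (a (a (l 16735656) (l 16732024)) (l 16724360))))) (c (b (a (a (a (l 16748080) (l 16744816)) (l 16739976)) (a (a (l 16735208) (l 16731480)) (l 16723752))) (a (a (a (l 16747776) (l 16744512)) (l 16739680)) (a (a (l 16734912) (l 16731096)) (l 16723336)))) (b (a (a (a (l 16748176) (l 16744928)) (l 16740112)) (a (a (l 16735360) (l 16731656)) (l 16723952))) (a (a (a (l 16747872) (l 16744624)) (l 16739816)) (a (a (l 16735072) (l 16731272)) (l 16723544)))))), by decide +kernel⟩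

def k112_A00pm_102_s1 : ∃ t, chk3 f_A00pm_102_s1 t 29 607 17 = true :=
  ⟨(c (b (c (b (a (a (a (l 16747288) (l 16743992)) (l 16739120)) (a (a (l 16734312) (l 16730352)) (l 16722520))) (a (a (a (l 16746984) (l 16743696)) (l 16738824)) (a (a (l 16734024) (l 16729952)) (l 16722112)))) (b (a (a (a (l 16747376) (l 16744104)) (l 16739256)) (a (a (l 16734472) (l 16730528)) (l 16722728))) (a (a (a (l 16747072) (l 16743800)) (l 16738960)) (a (a (l 16734184) (l 16730128)) (l 16722312))))) (c (b (a (a (a (l 16746680) (l 16743392)) (l 16738536)) (a (a (l 16733736) (l 16729544)) (l 16721696))) (a (a (a (l 16746376) (l 16743096)) (l 16738240)) (a (a (l 16733440) (l 16729128)) (l 16721288)))) (a (a (a (l 16746624) (l 16743352)) (l 16738520)) (a (a (l 16733736) (l 16729512)) (l 16721696))))) (b (c (b (a (a (a (l 16747472) (l 16744216)) (l 16739384)) (a (a (l 16734624) (l 16730704)) (l 16722928))) (a (a (a (l 16747168) (l 16743912)) (l 16739088)) (a (a (l 16734336) (l 16730304)) (l 16722520)))) (b (a (a (a (l 16747568)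 (l 16744320)) (l 16739520)) (a (a (l 16734784) (l 16730880)) (l 16723136))) (a (a (a (l 16747264) (l 16744024)) (l 16739224)) (a (a (l 16734496) (l 16730480)) (l 16722720))))) (c (a (a (a (l 16746712) (l 16743464)) (l 16738648)) (a (a (l 16733896) (l 16729688)) (l 16721896))) (a (a (a (l 16746808) (l 16743576)) (l 16738784)) (a (a (l 16734056) (l 16729864)) (l 16722104)))))), by decide +kernel⟩

def k113_A00pm_102_s1 : ∃ t, chk3 f_A00pm_102_s1 t 29 1208 36 = true :=
  ⟨(c (b (c (b (a (a (a (l 16751416) (l 16748136)) (l 16743272)) (a (l 16736848) (l 16728280))) (a (a (a (l 16751264) (l 16747984)) (l 16743128)) (a (l 16736704) (l 16728072)))) (b (a (a (a (l 16751464) (l 16748192)) (l 16743344)) (a (l 16736936) (l 16728384))) (a (a (a (l 16751304) (l 16748040)) (l 16743192)) (a (l 16736792) (l 16728176))))) (c (b (a (a (a (l 16751104) (l 16747832)) (l 16742976)) (a (l 16736560) (l 16727872))) (a (a (a (l 16750952) (l 16747672)) (l 16742824)) (a (l 16736408) (l 16727672)))) (b (a (a (a (l 16751152) (l 16747888))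 (l 16743040)) (a (l 16736640) (l 16727976))) (a (a (a (l 16751000) (l 16747728)) (l 16742896)) (a (l 16736496) (l 16727776)))))) (b (c (b (a (a (a (l 16751512) (l 16748248)) (l 16743416)) (a (l 16737024) (l 16728488))) (a (a (a (l 16751352) (l 16748096)) (l 16743264)) (a (l 16736880) (l 16728280)))) (b (a (a (a (l 16751560) (l 16748304)) (l 16743480)) (a (l 16737112) (l 16728592))) (a (a (a (l 16751408) (l 16748152)) (l 16743328)) (a (l 16736968) (l 16728392))))) (c (b (a (a (a (l 16751200) (l 16747944)) (l 16743112)) (a (l 16736728) (l 16728080))) (a (a (a (l 16751048) (l 16747784)) (l 16742960)) (a (l 16736584) (l 16727880)))) (b (a (a (a (l 16751248) (l 16748000)) (l 16743184)) (a (l 16736816) (l 16728184))) (a (a (a (l 16751096) (l 16747840)) (l 16743032)) (a (l 16736672) (l 16727984))))))), by decide +kernel⟩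

def k114_A00pm_102_s1 : ∃ t, chk3 f_A00pm_102_s1 t 29 1209 72 = true :=
  ⟨(b (c (b (a (a (a (l 16750792) (l 16747520)) (l 16742672)) (a (l 16736256) (l 16727472))) (a (a (a (l 16750640) (l 16747368)) (l 16742520)) (a (l 16736104) (l 16727264)))) (b (a (a (a (l 16750840) (l 16747576)) (l 16742744)) (a (l 16736344) (l 16727576))) (c (a (a (a (l 16750672) (l 16747408)) (l 16742576)) (a (l 16736168) (l 16727344))) (a (a (a (l 16750696) (l 16747440)) (l 16742608)) (a (l 16736216) (l 16727392)))))) (c (b (c (a (a (a (l 16750472) (l 16747200)) (l 16742360)) (a (l 16735936) (l 16727040))) (b (a (a (a (l 16750536) (l 16747264)) (l 16742424)) (a (l 16736016) (l 16727136))) (a (a (a (l 16750456) (l 16747192)) (l 16742352)) (a (l 16735944) (l 16727040))))) (c (b (a (a (a (l 16750352) (l 16747088)) (l 16742240)) (a (l 16735824) (l 16726888))) (a (a (a (l 16750280) (l 16747008)) (l 16742168)) (a (l 16735744) (l 16726784)))) (b (a (a (a (l 16750376) (l 16747112)) (l 16742280)) (a (l 16735864) (l 16726936))) (a (a (a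 (l 16750304) (l 16747040)) (l 16742200)) (a (l 16735784) (l 16726832)))))) (b (c (b (a (a (a (l 16750560) (l 16747296)) (l 16742464)) (a (l 16736056) (l 16727192))) (a (a (a (l 16750480) (l 16747216)) (l 16742384)) (a (l 16735984) (l 16727088)))) (b (a (a (a (l 16750584) (l 16747320)) (l 16742496)) (a (l 16736104) (l 16727240))) (a (a (a (l 16750504) (l 16747248)) (l 16742424)) (a (l 16736024) (l 16727144))))) (c (b (a (a (a (l 16750400) (l 16747144)) (l 16742312)) (a (l 16735904) (l 16726992))) (a (a (a (l 16750328) (l 16747064)) (l 16742240)) (a (l 16735832) (l 16726888)))) (b (a (a (a (l 16750424) (l 16747168)) (l 16742344)) (a (l 16735952) (l 16727040))) (a (a (a (l 16750352) (l 16747096)) (l 16742272)) (a (l 16735872) (l 16726936)))))))), by decide +kernel⟩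

def k115_A00pm_102_s1 : ∃ t, chk3 f_A00pm_102_s1 t 29 2418 73 = true :=
  ⟨(c (b (c (a (a (a (l 16750880) (l 16747616)) (l 16742792)) (a (l 16736408) (l 16727648))) (a (a (a (l 16750904) (l 16747648)) (l 16742832)) (a (l 16736456) (l 16727704)))) (c (b (a (a (a (l 16750760) (l 16747504)) (l 16742680)) (a (l 16736296) (l 16727496))) (a (a (a (l 16750680) (l 16747424)) (l 16742608)) (a (l 16736224) (l 16727400)))) (b (a (a (a (l 16750784) (l 16747536)) (l 16742712)) (a (l 16736344) (l 16727552))) (a (a (a (l 16750704) (l 16747456)) (l 16742640)) (a (l 16736264) (l 16727448)))))) (b (c (a (a (a (l 16750928) (l 16747680)) (l 16742864)) (a (l 16736496) (l 16727752))) (a (a (a (l 16750952) (l 16747704)) (l 16742896)) (a (l 16736544) (l 16727808)))) (c (b (a (a (a (l 16750808) (l 16747560)) (l 16742752)) (a (l 16736384) (l 16727600))) (a (a (a (l 16750728) (l 16747488)) (l 16742672)) (a (l 16736312) (l 16727504)))) (b (a (a (a (l 16750832) (l 16747592)) (l 16742784)) (a (l 16736432) (l 16727656))) (a (a (a (l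 16750752) (l 16747512)) (l 16742712)) (a (l 16736352) (l 16727552))))))), by decide +kernel⟩

def k116_A00pm_102_s1 : ∃ t, chk3 f_A00pm_102_s1 t 29 2419 73 = true :=
  ⟨(c (b (c (b (a (a (a (l 16750608) (l 16747352)) (l 16742528)) (a (l 16736144) (l 16727296))) (a (a (a (l 16750528) (l 16747272)) (l 16742456)) (a (l 16736072) (l 16727192)))) (b (a (a (a (l 16750632) (l 16747376)) (l 16742568)) (a (l 16736192) (l 16727352))) (a (a (a (l 16750552) (l 16747304)) (l 16742488)) (a (l 16736112) (l 16727248))))) (c (b (a (a (a (l 16750448) (l 16747200)) (l 16742384)) (a (l 16735992) (l 16727096))) (a (a (a (l 16750376) (l 16747120)) (l 16742304)) (a (l 16735920) (l 16726992)))) (b (a (a (a (l 16750472) (l 16747224)) (l 16742416)) (a (l 16736040) (l 16727144))) (a (a (a (l 16750400) (l 16747152)) (l 16742344)) (a (l 16735960) (l 16727048)))))) (b (c (b (a (a (a (l 16750656) (l 16747408)) (l 16742600)) (a (l 16736232) (l 16727400))) (a (a (a (l 16750576) (l 16747328)) (l 16742528)) (a (l 16736160) (l 16727296))))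 (b (a (a (a (l 16750680) (l 16747440)) (l 16742632)) (a (l 16736280) (l 16727456))) (a (a (a (l 16750600) (l 16747360)) (l 16742560)) (a (l 16736200) (l 16727352))))) (c (b (a (a (a (l 16750496) (l 16747256)) (l 16742448)) (a (l 16736080) (l 16727200))) (a (a (a (l 16750424) (l 16747176)) (l 16742376)) (a (l 16736008) (l 16727096)))) (a (a (a (l 16750488) (l 16747248)) (l 16742448)) (a (l 16736088) (l 16727200)))))), by decide +kernel⟩

def k117_A00pm_102_s1 : ∃ t, chk3 f_A00pm_102_s1 t 29 1208 74 = true :=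
  ⟨(b (c (b (a (a (l 16752616) (l 16743552)) (a (l 16737200) (l 16728696))) (a (a (l 16752464) (l 16743400)) (a (l 16737056) (l 16728496)))) (b (a (a (l 16752672) (l 16743624)) (a (l 16737288) (l 16728800))) (a (a (l 16752512) (l 16743472)) (a (l 16737144) (l 16728600))))) (c (b (a (a (a (l 16751296) (l 16748056)) (l 16743248)) (a (l 16736904) (l 16728288))) (c (a (a (a (l 16751128) (l 16747888)) (l 16743080)) (a (l 16736736) (l 16728064))) (a (a (a (l 16751152) (l 16747912)) (l 16743120)) (a (l 16736776) (l 16728120))))) (b (a (a (l 16752360) (l 16743320)) (a (l 16736992) (l 16728400))) (c (a (a (a (l 16751176) (l 16747944)) (l 16743152)) (a (l 16736824) (l 16728168))) (b (a (a (a (l 16751240) (l 16748008)) (l 16743224)) (a (l 16736904) (l 16728272))) (a (a (a (l 16751160) (l 16747936)) (l 16743152)) (a (l 16736832) (l 16728168)))))))), by decide +kernel⟩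

def k118_A00pm_102_s1 : ∃ t, chk3 f_A00pm_102_s1 t 29 1208 75 = true :=
  ⟨(b (c (a (a (l 16752648) (l 16743616)) (a (l 16737304) (l 16728808))) (b (a (a (l 16752776) (l 16743760)) (a (l 16737464) (l 16729016))) (a (a (l 16752624) (l 16743616)) (a (l 16737320) (l 16728816))))) (c (b (c (a (a (l 16752400) (l 16743376)) (a (l 16737056) (l 16728480))) (a (a (l 16752424) (l 16743408)) (a (l 16737104) (l 16728528)))) (c (b (a (a (a (l 16751264) (l 16748040)) (l 16743264)) (a (l 16736952) (l 16728328))) (a (a (a (l 16751192) (l 16747960)) (l 16743184)) (a (l 16736872) (l 16728224)))) (b (a (a (l 16749688) (l 16743296)) (a (l 16736992) (l 16728376))) (a (a (l 16752232) (l 16743224)) (a (l 16736920) (l 16728280)))))) (b (c (a (a (l 16752456) (l 16743448)) (a (l 16737144) (l 16728584))) (a (a (l 16752480) (l 16743480)) (a (l 16737192) (l 16728640)))) (c (b (a (a (l 16752336) (l 16743328)) (a (l 16737040) (l 16728432))) (a (a (l 16752256) (l 16743256)) (a (l 16736960) (l 16728336)))) (a (a (l 16752328) (l 16743328))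 (a (l 16737040) (l 16728440))))))), by decide +kernel⟩

def k119_A00pm_102_s1 : ∃ t, chk3 f_A00pm_102_s1 t 29 2418 74 = true :=
  ⟨(c (b (c (b (a (a (a (l 16751016) (l 16747768)) (l 16742968)) (a (l 16736624) (l 16727912))) (a (a (a (l 16750936) (l 16747696)) (l 16742896)) (a (l 16736544) (l 16727808)))) (b (a (a (a (l 16751040) (l 16747800)) (l 16743008)) (a (l 16736664) (l 16727968))) (a (a (a (l 16750960) (l 16747720)) (l 16742928)) (a (l 16736592) (l 16727864))))) (c (b (a (a (a (l 16750856) (l 16747616)) (l 16742824)) (a (l 16736472) (l 16727712))) (a (a (a (l 16750776) (l 16747544)) (l 16742744)) (a (l 16736400) (l 16727608)))) (b (a (a (a (l 16750880) (l 16747648)) (l 16742856)) (a (l 16736520) (l 16727760))) (a (a (a (l 16750808) (l 16747568)) (l 16742784)) (a (l 16736440) (l 16727664)))))) (b (c (b (a (a (a (l 16751064) (l 16747832)) (l 16743040)) (a (l 16736712) (l 16728016))) (a (a (a (l 16750984) (l 16747752)) (l 16742968)) (a (l 16736632) (l 16727920)))) (b (a (a (a (l 16751088) (l 16747856))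 (l 16743072)) (a (l 16736752) (l 16728072))) (a (a (a (l 16751008) (l 16747784)) (l 16743000)) (a (l 16736680) (l 16727968))))) (c (b (a (a (a (l 16750904) (l 16747672)) (l 16742888)) (a (l 16736560) (l 16727816))) (a (a (a (l 16750832) (l 16747600)) (l 16742816)) (a (l 16736488) (l 16727712)))) (b (a (a (a (l 16750928) (l 16747704)) (l 16742928)) (a (l 16736608) (l 16727872))) (a (a (a (l 16750856) (l 16747624)) (l 16742848)) (a (l 16736528) (l 16727768))))))), by decide +kernel⟩

def k120_A00pm_102_s1 : ∃ t, chk3 f_A00pm_102_s1 t 29 2419 74 = true :=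
  ⟨(c (b (c (b (a (a (a (l 16750704) (l 16747464)) (l 16742672)) (a (l 16736320) (l 16727504))) (a (a (a (l 16750624) (l 16747392)) (l 16742592)) (a (l 16736248) (l 16727408)))) (b (a (a (a (l 16750728) (l 16747496)) (l 16742704)) (a (l 16736368) (l 16727560))) (a (a (a (l 16750648) (l 16747416)) (l 16742632)) (a (l 16736288) (l 16727456))))) (c (a (a (a (l 16750512) (l 16747272)) (l 16742480)) (a (l 16736128) (l 16727256))) (a (a (a (l 16750536) (l 16747304)) (l 16742520)) (a (l 16736176) (l 16727304))))) (b (c (a (a (a (l 16750712) (l 16747480)) (l 16742704)) (a (l 16736368) (l 16727560))) (a (a (a (l 16750736) (l 16747512)) (l 16742736)) (a (l 16736416) (l 16727616)))) (a (a (a (l 16750568) (l 16747344)) (l 16742568)) (a (l 16736240) (l 16727384))))), by decide +kernel⟩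

def k121_A00pm_102_s1 : ∃ t, chk3 f_A00pm_102_s1 t 29 1209 75 = true :=
  ⟨(b (c (b (c (b (a (a (a (l 16751112) (l 16747888)) (l 16743112)) (a (l 16736800) (l 16728128))) (a (a (a (l 16751032) (l 16747808)) (l 16743032)) (a (l 16736728) (l 16728024)))) (b (a (a (l 16752152) (l 16743144)) (a (l 16736840) (l 16728176))) (a (a (l 16752080) (l 16743072)) (a (l 16736768) (l 16728080))))) (c (b (a (a (a (l 16750952) (l 16747736)) (l 16742960)) (a (l 16736648) (l 16727920))) (a (a (a (l 16750880) (l 16747656)) (l 16742888)) (a (l 16736576) (l 16727824)))) (b (a (a (l 16752000) (l 16742992)) (a (l 16736696) (l 16727976))) (a (a (a (l 16750904) (l 16747688)) (l 16742920)) (a (l 16736616) (l 16727872)))))) (b (c (b (a (a (l 16752184) (l 16743184)) (a (l 16736888) (l 16728232))) (a (a (l 16752104) (l 16743104)) (a (l 16736816) (l 16728128)))) (a (a (l 16752168) (l 16743176)) (a (l 16736896) (l 16728232)))) (c (a (a (l 16751992) (l 16742992)) (a (l 16736696) (l 16727976))) (a (a (l 16752016) (l 16743032)) (a (l 16736744)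 (l 16728032)))))) (c (b (a (a (l 16751792) (l 16742792)) (a (l 16736480) (l 16727696))) (a (a (l 16751640) (l 16742640)) (a (l 16736328) (l 16727496)))) (b (a (a (l 16751848) (l 16742864)) (a (l 16736568) (l 16727800))) (a (a (l 16751696) (l 16742712)) (a (l 16736416) (l 16727600)))))), by decide +kernel⟩

def k122_A00pm_102_s1 : ∃ t, chk3 f_A00pm_102_s1 t 29 1210 72 = true :=
  ⟨(b (c (b (c (b (a (a (a (l 16750200) (l 16746936)) (l 16742096)) (a (l 16735664) (l 16726680))) (a (a (a (l 16750120) (l 16746856)) (l 16742016)) (a (l 16735592) (l 16726584)))) (b (a (a (a (l 16750224) (l 16746960)) (l 16742128)) (a (l 16735712) (l 16726736))) (a (a (a (l 16750144) (l 16746888)) (l 16742056)) (a (l 16735632) (l 16726632))))) (c (a (a (a (l 16750008) (l 16746744)) (l 16741904)) (a (l 16735472) (l 16726432))) (a (a (a (l 16750032) (l 16746768)) (l 16741944)) (a (l 16735512) (l 16726480))))) (b (c (b (a (a (a (l 16750248) (l 16746992)) (l 16742160)) (a (l 16735752) (l 16726784))) (a (a (a (l 16750168) (l 16746912))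 (l 16742088)) (a (l 16735680) (l 16726688)))) (b (a (a (a (l 16750272) (l 16747016)) (l 16742200)) (a (l 16735800) (l 16726840))) (a (a (a (l 16750192) (l 16746944)) (l 16742120)) (a (l 16735720) (l 16726736))))) (c (a (a (a (l 16750056) (l 16746800)) (l 16741976)) (a (l 16735560) (l 16726536))) (a (a (a (l 16750080) (l 16746824)) (l 16742008)) (a (l 16735600) (l 16726584)))))) (c (b (a (a (a (l 16749864) (l 16746600)) (l 16741776)) (a (l 16735336) (l 16726248))) (a (a (a (l 16749712) (l 16746448)) (l 16741624)) (a (l 16735184) (l 16726048)))) (b (a (a (a (l 16749912) (l 16746656)) (l 16741840)) (a (l 16735424) (l 16726352))) (a (a (a (l 16749760) (l 16746504)) (l 16741696)) (a (l 16735264) (l 16726152)))))), by decide +kernel⟩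

def k123_A00pm_102_s1 : ∃ t, chk3 f_A00pm_102_s1 t 29 1210 73 = true :=
  ⟨(b (c (b (c (a (a (a (l 16750256) (l 16747008)) (l 16742192)) (a (l 16735800) (l 16726840))) (a (a (a (l 16750280) (l 16747032)) (l 16742232)) (a (l 16735840) (l 16726896)))) (a (a (a (l 16750112) (l 16746872)) (l 16742064)) (a (l 16735664) (l 16726664)))) (b (a (a (a (l 16750320) (l 16747080)) (l 16742280)) (a (l 16735912) (l 16726968))) (a (a (a (l 16750160) (l 16746928)) (l 16742128)) (a (l 16735752) (l 16726768))))) (c (b (a (a (a (l 16749960) (l 16746712)) (l 16741912)) (a (l 16735512) (l 16726464))) (a (a (a (l 16749808) (l 16746560)) (l 16741760)) (a (l 16735352) (l 16726256)))) (b (a (a (a (l 16750008) (l 16746776)) (l 16741984)) (a (l 16735600) (l 16726568))) (a (a (a (l 16749856) (l 16746624)) (l 16741832)) (a (l 16735440) (l 16726360)))))), by decide +kernel⟩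

def k124_A00pm_102_s1 : ∃ t, chk3 f_A00pm_102_s1 t 29 1211 36 = true :=
  ⟨(c (b (c (b (a (a (a (l 16749552) (l 16746296)) (l 16741480)) (a (l 16735024) (l 16725848))) (a (a (a (l 16749400) (l 16746144)) (l 16741328)) (a (a (l 16736576) (l 16733160)) (l 16725640)))) (b (a (a (a (l 16749600) (l 16746352)) (l 16741544)) (a (l 16735112) (l 16725952))) (a (a (a (l 16749448) (l 16746200)) (l 16741392)) (a (a (l 16736656) (l 16733248)) (l 16725744))))) (c (a (a (a (l 16749168) (l 16745920)) (l 16741104)) (a (a (l 16736360) (l 16732888)) (l 16725336))) (a (a (a (l 16749216) (l 16745976)) (l 16741176)) (a (a (l 16736440) (l 16732976)) (l 16725440))))) (b (c (a (a (a (l 16749576) (l 16746336)) (l 16741536)) (a (a (l 16736808) (l 16733416)) (l 16725952))) (a (a (a (l 16749624) (l 16746392)) (l 16741608)) (a (a (l 16736896) (l 16733512)) (l 16726056)))) (a (a (a (l 16749288) (l 16746064)) (l 16741280)) (a (l 16734832) (l 16725600))))), by decide +kernel⟩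

def k125_A00pm_102_s1 : ∃ t, chk3 f_A00pm_102_s1 t 29 605 37 = true :=
  ⟨(b (c (b (c (b (a (a (a (l 16750368) (l 16747136)) (l 16742352)) (a (l 16736000) (l 16727080))) (a (a (a (l 16750216) (l 16746984)) (l 16742200)) (a (l 16735840) (l 16726872)))) (b (a (a (a (l 16750416) (l 16747192)) (l 16742424)) (a (l 16736088) (l 16727184))) (a (a (a (l 16750264) (l 16747040)) (l 16742272)) (a (l 16735928) (l 16726984))))) (c (b (a (a (a (l 16750056) (l 16746832)) (l 16742048)) (a (l 16735688) (l 16726672))) (a (a (a (l 16749904) (l 16746680)) (l 16741904)) (a (l 16735528) (l 16726464)))) (a (a (a (l 16750032) (l 16746808)) (l 16742048)) (a (l 16730448) (l 16726672))))) (b (c (b (a (a (l 16751488) (l 16742488)) (a (l 16736176) (l 16727288))) (a (a (l 16751336) (l 16742344)) (a (l 16736016) (l 16727088)))) (b (a (a (l 16751544) (l 16742560)) (a (l 16736264) (l 16727400))) (a (a (l 16751392) (l 16742416)) (a (l 16736104) (l 16727192))))) (c (a (a (a (l 16750080) (l 16746872)) (l 16742120)) (a (l 16730536) (l 16726784)))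 (a (a (l 16751160) (l 16742192)) (a (l 16735864) (l 16726888)))))) (c (b (a (a (a (l 16749696) (l 16746480)) (l 16741712)) (a (l 16735328) (l 16726216))) (a (a (a (l 16749392) (l 16746176)) (l 16741416)) (a (l 16735008) (l 16725808)))) (b (a (a (a (l 16749800) (l 16746592)) (l 16741856)) (a (l 16735504) (l 16726432))) (a (a (a (l 16749488) (l 16746288)) (l 16741560)) (a (a (l 16736896) (l 16733480)) (l 16726024)))))), by decide +kernel⟩

def k126_A00pm_102_s1 : ∃ t, chk3 f_A00pm_102_s1 t 29 302 19 = true :=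
  ⟨(a (a (a (l 16750824) (l 16747656)) (a (l 16744520) (l 16741424))) (a (a (l 16738344) (l 16735048)) (l 16738472))), by decide +kernel⟩

def k127_A00pm_102_s1 : ∃ t, chk3 f_A00pm_102_s1 t 29 606 18 = true :=
  ⟨(c (b (c (b (a (a (a (l 16748888) (l 16745640)) (l 16740840)) (a (a (l 16736104) (l 16732576)) (l 16724976))) (a (a (a (l 16748584) (l 16745344)) (l 16740544)) (a (a (l 16735816) (l 16732208)) (l 16724568)))) (b (a (a (a (l 16748984) (l 16745760)) (l 16740976)) (a (a (l 16736272) (l 16732760)) (l 16725192))) (a (a (a (l 16748680) (l 16745456)) (l 16740680)) (a (a (l 16735984) (l 16732384)) (l 16724784))))) (c (b (a (a (a (l 16748272) (l 16745040)) (l 16740248)) (a (a (l 16735528) (l 16731832)) (l 16724160))) (a (a (a (l 16747968) (l 16744736)) (l 16739952)) (a (a (l 16735232) (l 16731448)) (l 16723752)))) (b (a (a (a (l 16748376) (l 16745152)) (l 16740384)) (a (a (l 16735688) (l 16732008)) (l 16724368))) (a (a (a (l 16748072) (l 16744848)) (l 16740088)) (a (a (l 16735400) (l 16731624)) (l 16723960))))))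 (b (c (b (a (a (a (l 16749080) (l 16745872)) (l 16741120)) (a (a (l 16736440) (l 16732936)) (l 16725400))) (a (a (a (l 16748776) (l 16745568)) (l 16740824)) (a (a (l 16736144) (l 16732568)) (l 16724992)))) (b (a (a (a (l 16749184) (l 16745984)) (l 16741264)) (a (a (l 16736600) (l 16733120)) (l 16725616))) (a (a (a (l 16748880) (l 16745688)) (l 16740960)) (a (a (l 16736312) (l 16732752)) (l 16725208))))) (c (a (a (a (l 16748320) (l 16745120)) (l 16740376)) (a (a (l 16735704) (l 16731992)) (l 16724376))) (a (a (a (l 16748416) (l 16745232)) (l 16740520)) (a (a (l 16735872) (l 16732176)) (l 16724592)))))), by decide +kernel⟩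

def k128_A00pm_102_s1 : ∃ t, chk3 f_A00pm_102_s1 t 29 607 18 = true :=
  ⟨(c (b (c (a (a (a (l 16747512) (l 16744288)) (l 16739512)) (a (a (l 16734800) (l 16730848)) (l 16723136))) (a (a (a (l 16747608) (l 16744400)) (l 16739648)) (a (a (l 16734968) (l 16731032)) (l 16723344)))) (a (a (a (l 16746960) (l 16743744)) (l 16744232)) (a (a (l 16734296) (l 16730128)) (l 16722416)))) (b (a (a (a (l 16747760) (l 16744576)) (l 16745104)) (a (a (l 16735208) (l 16731304)) (l 16723664))) (a (a (a (l 16747152) (l 16743976)) (l 16744512)) (a (a (l 16734624) (l 16730496)) (l 16722840))))), by decide +kernel⟩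

def k129_A00pm_102_s1 : ∃ t, chk3 f_A00pm_102_s1 t 29 303 19 = true :=
  ⟨(b (c (b (c (a (a (a (l 16749128) (l 16745952)) (l 16741256)) (a (a (l 16736624) (l 16733104)) (l 16725624))) (a (a (a (l 16749232) (l 16746072)) (l 16741400)) (a (a (l 16736800) (l 16733296)) (l 16725848)))) (a (a (a (l 16748576) (l 16745408)) (l 16740736)) (a (a (l 16736128) (l 16732456)) (l 16724920)))) (a (a (a (l 16749088) (l 16745952)) (l 16741320)) (a (a (l 16736768) (l 16733184)) (l 16725768)))) (a (a (a (l 16747768) (l 16744624)) (a (l 16741536) (l 16738472))) (a (a (l 16735416) (l 16731448)) (l 16723912)))), by decide +kernel⟩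

def k130_A00pm_102_s1 : ∃ t, chk3 f_A00pm_102_s1 t 29 151 5 = true :=
  ⟨(a (a (a (b (c (b (l 16752072) (l 16750848)) (b (l 16752976) (l 16751760))) (c (b (l 16749624) (l 16748408)) (b (l 16750544) (l 16749336)))) (b (a (l 16744408) (l 16748168)) (c (l 16748592) (b (l 16747640) (l 16746440))))) (a (b (c (l 16745368) (l 16746576)) (c (l 16742976) (l 16744184))) (b (c (l 16742376) (l 16743736)) (c (l 16740008) (l 16741368))))) (a (b (a (l 16734904) (a (l 16727488) (a (l 16726264) (l 16725248)))) (a (a (l 16738520) (l 16731848)) (a (a (l 16730608) (l 16724352)) (l 16722616)))) (c (a (a (l 16731464) (l 16728968)) (l 16725160)) (a (a (l 16722776) (l 16730864)) (l 16716704))))), by decide +kernel⟩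

def k131_A00pm_102_s1 : ∃ t, chk3 f_A00pm_102_s1 t 29 150 3 = true :=
  ⟨(a (c (a (a (b (a (l 16754072) (l 16752704)) (a (l 16751696) (l 16750336))) (b (b (l 16756512) (l 16755336)) (b (l 16754160) (l 16747736)))) (b (a (l 16748032) (l 16745416)) (a (l 16745688) (l 16743088)))) (a (a (b (c (l 531632015) (b (l 531511183) (l 531536527))) (c (l 531395471) (a (l 531575183) (l 531584911)))) (b (c (l 531642511) (a (l 16748904) (l 16747304))) (c (l 531407503) (a (l 531592079) (l 16744936))))) (b (c (a (l 16746744) (l 531645583)) (a (b (l 16745456) (l 16744264)) (a (l 16742360) (l 16745928)))) (a (c (l 16744472) (a (l 16743336) (l 16741712))) (c (l 531415183) (a (l 16745320) (l 16738424))))))) (a (b (c (a (l 16742800) (l 16734896)) (a (c (l 16740464) (a (l 16744240) (l 16742560))) (c (l 16737296) (a (l 16740872) (l 16739192))))) (c (a (l 16740496) (l 16737888)) (a (c (l 531417231) (a (l 16742000) (l 16740320))) (c (b (l 16730392) (l 16734528)) (a (l 16738648) (a (l 16737400) (l 16731312))))))) (c (b (a (a (l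 16732864) (l 16736488)) (l 16738424)) (a (a (l 16735608) (l 16738776)) (l 16735272))) (a (b (a (c (l 16740176) (c (l 16738192) (l 16736832))) (c (l 16733664) (b (a (l 16736808) (l 16730872)) (a (l 16730616) (l 16735480))))) (a (c (l 16733064) (b (a (l 16736272) (l 16730376)) (a (l 16730152) (l 16735016)))) (c (l 16737640) (l 16729640)))) (c (a (l 16737760) (l 16737408)) (b (a (l 16730144) (l 16734952)) (l 16728920))))))), by decide +kernel⟩

def k132_A00pm_102_s1 : ∃ t, chk3 f_A00pm_102_s1 t 29 151 3 = true :=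
  ⟨(a (a (c (a (b (a (l 16749304) (l 16747952)) (a (l 16746896) (l 16745552))) (b (b (l 16746544) (l 16745352)) (b (l 16744152) (l 16742952)))) (a (a (b (b (l 16748640) (l 16747504)) (b (l 16746392) (l 16745296))) (b (b (l 16747168) (l 16746040)) (b (l 16744936) (l 16743848)))) (a (b (b (l 16745664) (l 16744552)) (c (l 16749016) (l 531457423))) (a (b (l 16743976) (l 16741792)) (b (l 16743208) (l 16741040)))))) (c (a (b (l 16743320) (b (l 16746776) (l 16745576))) (b (l 16740728) (l 16738352))) (b (a (c (l 16742256) (a (l 16741088) (l 16739488))) (c (b (l 16739752) (l 16738680)) (a (l 16743120) (l 16741488)))) (a (c (c (l 16745832) (l 16739624)) (a (l 16738928) (l 16737352))) (c (l 16737096) (a (l 16741008) (l 16739400))))))) (a (c (b (a (l 16738160) (a (l 16730984) (l 16734624))) (a (c (l 16740200) (l 16736168)) (a (a (l 16734040) (l 16738352)) (l 16736768)))) (a (a (b (c (l 16731632) (l 16734600)) (c (l 16729544) (l 16737776))) (a (b (l 16734544) (l 16732480)) (b (l 16733736) (b (l 16732192) (l 16731200)))))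 (b (a (c (l 16733728) (b (l 16737048) (l 16730752))) (c (b (l 16732816) (l 16737408)) (b (a (l 16735800) (l 16729952)) (a (l 16729776) (l 16734648))))) (b (a (a (l 16731392) (l 16730856)) (l 16730392)) (a (a (l 16730696) (l 16730360)) (l 16729952)))))) (c (a (c (l 16734040) (l 16736152)) (c (l 16718872) (l 16731680))) (a (c (b (l 16736904) (l 16735976)) (b (a (l 16729216) (l 16728680)) (l 16728008))) (c (l 16734144) (b (l 16727904) (l 16732120))))))), by decide +kernel⟩

def k133_A00pm_102_s1 : ∃ t, chk3 f_A00pm_102_s1 t 60 72 1 = true :=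
  ⟨(c (c (a (b (a (c (l 529879695) (l 530273935)) (b (l 529930639) (l 16758680))) (a (l 530433935) (l 530137231))) (a (b (c (l 529786511) (l 16745224)) (b (l 16740752) (l 16738512))) (b (a (l 529944463) (b (l 16738664) (l 16736352))) (b (a (l 16736848) (l 16733920)) (l 16732824))))) (b (a (a (b (l 530843791) (l 530994319)) (b (l 530805135) (l 530961551))) (a (b (l 530751375) (l 16736744)) (b (l 16755152) (a (l 16743720) (l 16741288))))) (a (a (l 531195023) (b (l 16739032) (l 16747336))) (a (b (l 16745088) (l 16732520)) (b (c (l 16738912) (l 16731016)) (a (l 16739240) (l 16736088))))))) (b (c (a (a (l 531888271) (l 531586959)) (a (l 530730127) (a (l 16749968) (a (l 16748432) (l 16736904))))) (c (a (a (l 532172943) (l 532244879)) (a (l 16750280) (b (l 16753920) (l 16740864)))) (a (a (l 530697103) (l 530776463)) (a (b (l 16743264) (l 16740560)) (b (l 16739928) (b (l 16737920) (l 16736608))))))) (c (a (a (l 532063375) (l 532039567)) (a (a (l 16750024) (l 16737648)) (a (c (l 16733904) (l 16736784)) (b (l 16733968)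 (l 16741648))))) (b (c (a (a (l 16757672) (l 16754608)) (a (l 16751656) (l 16738824))) (c (a (a (l 16745304) (l 16752432)) (a (l 16749184) (l 16746584))) (b (c (a (a (l 16755520) (l 16752000)) (a (l 16748592) (l 16745552))) (b (a (a (l 16755224) (l 16751600)) (a (l 16748088) (l 16744808))) (a (a (l 16754528) (l 16750904)) (a (l 16747400) (l 16744312))))) (a (a (l 16753816) (l 16750256)) (a (l 16746808) (l 16738944)))))) (c (a (a (l 16755104) (l 16752032)) (a (l 16749032) (l 16737184))) (c (a (a (l 16753112) (l 16749760)) (a (l 16735992) (l 16745008))) (b (a (a (l 16752432) (l 16748888)) (a (l 16745456) (l 16743416))) (a (a (l 16751056) (l 16747520)) (a (l 16744064) (l 16742720)))))))))), by decide +kernel⟩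

def k134_A00pm_102_s1 : ∃ t, chk3 f_A00pm_102_s1 t 60 73 1 = true :=
  ⟨(a (b (a (c (c (l 530466191) (l 530077471)) (c (l 532200591) (b (l 530934159) (c (l 16749960) (l 16741808))))) (a (c (c (l 16741152) (l 16745176)) (c (l 16749760) (c (l 16748920) (l 16740568)))) (c (c (l 16738888) (l 16732672)) (c (l 16748016) (b (l 16736624) (l 16734000)))))) (a (c (c (l 16739968) (c (l 16742840) (l 16734440))) (c (a (l 16738632) (l 16737008)) (a (b (l 16736272) (l 16733728)) (b (l 16734640) (l 16732112))))) (c (c (b (l 16736592) (a (l 16735488) (l 16732664))) (b (c (l 16739752) (l 16731560)) (b (l 16728568) (l 16727208)))) (c (c (a (l 16744408) (l 16731528)) (b (l 16736608) (l 16734048))) (b (a (l 16733024) (b (l 16732248) (l 16731424))) (a (c (l 16742984) (a (l 16734608) (l 16739488))) (l 16730464))))))) (c (b (c (a (b (l 16736184) (l 16733664)) (l 16728688)) (a (b (c (l 16739552) (l 16731504)) (a (l 16739712) (l 16736792))) (c (l 16732192) (l 16734736)))) (c (a (l 16729440) (l 16722960)) (a (a (l 16725016) (l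 16732416)) (c (l 16726416) (l 16728936))))) (b (a (c (a (c (l 16734136) (l 16736848)) (c (l 16731520) (l 16734312))) (b (a (l 16735024) (a (l 16734152) (l 16733960))) (a (a (l 16733032) (l 16732784)) (l 16732744)))) (c (c (l 16726968) (l 16740336)) (b (l 16734072) (l 16732912)))) (c (a (l 16733888) (c (l 16731616) (l 16723992))) (a (c (l 16743192) (l 16734528)) (l 16733840)))))), by decide +kernel⟩

def k135_A00pm_102_s1 : ∃ t, chk3 f_A00pm_102_s1 t 61 72 1 = true :=
  ⟨(a (c (c (b (a (b (a (l 16735832) (l 16732728)) (l 16726424)) (c (l 16725056) (l 16727488))) (a (l 16727552) (l 16731152))) (b (a (b (a (l 16740936) (l 16737952)) (a (l 16738408) (l 16735128))) (c (l 16730112) (l 16732912))) (a (c (l 16731224) (l 16733896)) (l 16728368)))) (a (b (c (b (a (l 16736248) (l 16722928)) (a (l 16723208) (l 16740984))) (b (a (l 16739488) (l 16728592)) (l 16737976))) (c (b (l 16729192) (l 16726280)) (b (l 16735640) (l 16743136)))) (c (b (b (l 16717976) (l 16715000)) (a (l 16722752) (l 16729864))) (b (l 16733688)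 (a (l 16739744) (l 16715456)))))) (b (a (c (c (c (l 16718120) (l 16720576)) (c (l 16723216) (l 16726048))) (c (a (l 16721880) (l 16728920)) (b (l 16718016) (l 16714936)))) (c (c (b (l 16713688) (l 16710864)) (l 16717584)) (c (c (l 16722072) (l 16725304)) (b (l 16711088) (l 16708016))))) (c (a (c (l 16724168) (l 16718824)) (c (l 16717064) (l 16711768))) (a (c (c (l 16723176) (l 16726312)) (b (l 16711904) (l 16708912))) (c (l 16717728) (a (l 16705248) (l 16722712))))))), by decide +kernel⟩

def k136_A00pm_102_s1 : ∃ t, chk3 f_A00pm_102_s1 t 61 73 1 = true :=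
  ⟨(c (b (a (a (c (l 16721944) (c (l 16725536) (l 16728160))) (c (l 16715032) (l 16720024))) (a (c (l 16707960) (l 16713040)) (c (l 16700800) (l 16705944)))) (a (a (c (l 16716240) (l 16721080)) (c (l 16709288) (l 16714264))) (a (c (l 16702184) (l 16707272)) (c (l 16694936) (l 16700112))))) (a (c (b (a (b (l 16723376) (l 16709992)) (c (l 16724248) (l 16727288))) (a (a (l 16717776) (l 16725008)) (c (l 16718488) (l 16721536)))) (a (b (l 16733464) (l 16727672)) (b (a (l 16723360) (l 16709560)) (b (l 16706904) (l 16704072))))) (a (c (b (c (l 16717344) (l 16720456)) (l 16713136)) (b (b (l 16705960) (l 16703064)) (c (l 16718048) (l 16721560)))) (c (b (l 16711872) (l 16706096)) (b (a (l 16720336) (l 16716840)) (c (l 16711112) (l 16714704))))))), by decide +kernel⟩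

def k137_A00pm_102_s1 : ∃ t, chk3 f_A00pm_102_s1 t 60 74 1 = true :=
  ⟨(c (c (a (b (a (b (l 16736544) (a (l 16735312) (l 16732680))) (l 16740216)) (a (b (l 16731080) (l 16727992)) (l 16723664))) (a (b (l 16723544) (l 16717504)) (b (l 16717088) (l 16711072)))) (a (a (b (b (a (l 16741600) (l 16729072)) (a (l 16728784) (l 16736776))) (b (a (l 16736448) (l 16733720)) (l 16721512))) (b (b (l 16725024) (l 16732496)) (c (l 16726808) (l 16729096)))) (a (b (c (l 16726848) (l 16729256)) (l 16732496)) (b (l 16732264) (l 16715808))))) (a (b (c (a (c (a (l 16733256) (l 16731064)) (a (l 16739832) (l 16733544))) (c (l 16737616) (l 16740216))) (c (a (b (a (l 16743224) (l 16731520)) (a (l 16735872) (l 16740584))) (l 16735720)) (a (b (a (l 16740192) (b (l 16733960) (l 16733136))) (a (b (l 16733160) (l 16732336)) (l 16737440))) (b (l 16733000) (l 16726648))))) (c (a (c (l 16736928) (l 16739384)) (l 16727592)) (c (a (l 16733832) (l 16736928)) (a (b (a (l 16736656) (l 16736360)) (l 16730200)) (l 16730216))))) (c (a (b (c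 (l 16721344) (l 16734568)) (b (l 16718208) (l 16715216))) (b (c (l 16725744) (l 16707640)) (c (l 16719832) (l 16722744)))) (b (a (b (l 16729296) (l 16727016)) (l 16728000)) (a (l 16727824) (l 16722208)))))), by decide +kernel⟩

def k138_A00pm_102_s1 : ∃ t, chk3 f_A00pm_102_s1 t 60 75 1 = true :=
  ⟨(c (c (a (a (b (l 16733768) (l 16716888)) (b (l 16717440) (l 16711080))) (b (a (l 16711312) (l 16704912)) (a (l 16704984) (l 16698616)))) (a (b (a (b (l 16728880) (l 16725736)) (l 16732240)) (a (c (l 16719888) (l 16722096)) (l 16725968))) (a (b (l 16715896) (l 16709688)) (b (l 16709752) (l 16703608))))) (a (c (b (a (c (l 16720248) (l 16733200)) (b (l 16717768) (l 16714704))) (a (c (l 16724456) (l 16716496)) (a (l 16711408) (l 16708760)))) (b (a (c (l 16735824) (a (l 16728776) (l 16733648))) (c (l 16730888) (l 16722672))) (a (c (l 16729664) (l 16721152)) (c (l 16724856) (l 16727920))))) (a (b (c (c (l 16719800) (l 16722624)) (l 16721944)) (c (c (l 16713704) (l 16716616)) (l 16716088))) (c (b (c (l 16713880) (l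 16716864)) (l 16719880)) (c (c (l 16705840) (l 16707504)) (b (l 16723400) (l 16696776))))))), by decide +kernel⟩

def k139_A00pm_102_s1 : ∃ t, chk3 f_A00pm_102_s1 t 61 37 1 = true :=
  ⟨(c (c (b (a (b (a (l 16710384) (l 16703456)) (a (l 16704392) (l 16697480))) (b (a (l 16696312) (l 16689040)) (a (l 16690360) (l 16683056)))) (a (b (a (l 16698264) (l 16691376)) (l 16709552)) (b (l 16691128) (l 16695416)))) (a (b (a (b (l 16715256) (l 16709336)) (b (l 16708480) (l 16702616))) (a (b (l 16703344) (l 16697256)) (b (l 16696672) (l 16690648)))) (b (b (a (l 16701480) (l 16694312)) (a (l 16695664) (l 16688488))) (b (a (l 16689768) (l 16682648)) (l 16680280))))) (b (a (a (c (b (c (l 16719384) (l 16722368)) (c (l 16713552) (l 16716592))) (b (l 16721944) (c (l 16719832) (l 16702280)))) (c (b (l 16724760) (l 16708552)) (b (b (l 16701272) (l 16698480)) (b (l 16695696) (l 16713904))))) (b (c (a (l 16707440) (l 16700424)) (a (c (l 16712440) (l 16716032)) (c (l 16705552) (l 16709232)))) (c (a (l 16701800) (l 16694800))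 (a (c (l 16706952) (l 16710648)) (c (l 16700096) (l 16703912)))))) (a (b (c (a (l 16709216) (l 16702808)) (a (b (l 16696320) (l 16693520)) (c (l 16707960) (l 16711664)))) (c (a (l 16703360) (l 16697040)) (a (a (l 16701264) (l 16687864)) (c (l 16702424) (l 16706288))))) (b (c (a (l 16696136) (l 16689224)) (a (c (l 16701496) (l 16705344)) (l 16707200))) (c (a (l 16690464) (l 16683632)) (a (c (l 16696072) (l 16700096)) (l 16691496))))))), by decide +kernel⟩

def k140_A00pm_102_s1 : ∃ t, chk3 f_A00pm_102_s1 t 62 18 2 = true :=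
  ⟨(b (b (a (b (a (c (b (l 16706584) (l 16703728)) (l 16705208)) (c (b (l 16699408) (l 16696536)) (l 16697960))) (c (a (l 16699408) (l 16692176)) (c (l 16694352) (l 16702376)))) (b (c (a (c (l 16689576) (l 16691936)) (c (l 16682296) (l 16684592))) (a (l 16685360) (l 16688400))) (c (a (l 16684880) (l 16677536)) (a (l 16689952) (l 16682488))))) (a (b (c (a (l 16693568) (l 16686280)) (a (l 16698736) (l 16691432))) (c (a (l 16687648) (l 16680312)) (a (l 16692872) (l 16685536)))) (c (b (a (l 16678944) (l 16671552)) (a (l 16672920) (l 16665488))) (b (a (l 16684040) (l 16676560)) (a (l 16678120) (l 16670616)))))) (b (b (a (c (a (l 16681672) (l 16674272)) (a (l 16687016) (l 16679648))) (c (a (l 16666832) (l 16659352)) (a (l 16672200) (l 16664672)))) (a (c (a (l 16675656) (l 16668184)) (a (l 16681184) (l 16673760))) (c (a (l 16660688) (l 16653160)) (a (l 16666280) (l 16658736))))) (b (a (c (a (l 16669568) (l 16662064)) (a (l 16675336) (l 16667912))) (c (a (l 16654496) (l 16646912)) (a (l 16660384) (l 16652800))))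 (c (a (l 16680600) (l 16654968)) (a (a (l 16669480) (l 16662048)) (a (l 16654520) (l 16646888))))))), by decide +kernel⟩

def k141_A00pm_102_s1 : ∃ t, chk3 f_A00pm_102_s1 t 63 18 2 = true :=
  ⟨(b (b (a (a (c (b (c (l 16674960) (l 16677176)) (l 16670120)) (b (l 16680864) (l 16674944))) (c (b (c (l 16667560) (l 16669688)) (l 16662656)) (b (l 16673248) (l 16667328)))) (c (b (a (c (l 16660104) (l 16662136)) (c (l 16652584) (l 16654528))) (a (l 16655128) (l 16647552))) (b (a (l 16665552) (l 16657800)) (a (l 16659640) (l 16651888))))) (a (c (a (b (l 16664104) (l 16658008)) (b (l 16656608) (l 16650472))) (b (a (l 16669000) (l 16661376)) (a (l 16663048) (l 16655416)))) (c (a (b (l 16649064) (l 16642904)) (b (l 16641464) (l 16635280))) (a (b (l 16653688) (l 16647720)) (b (l 16645952) (l 16639992)))))) (b (a (c (a (b (l 16651832) (l 16645592)) (b (l 16644264) (l 16637992))) (b (a (l 16657088) (l 16649440)) (a (l 16651120) (l 16643464)))) (c (a (b (l 16636664) (l 16630352)) (b (l 16629016) (l 16622688))) (a (b (l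 16641744) (l 16635760)) (b (l 16634008) (l 16628024))))) (a (c (a (b (l 16639304) (l 16632968)) (b (l 16631656) (l 16625288))) (a (b (l 16645168) (l 16639232)) (b (l 16637496) (l 16631536)))) (c (a (b (l 16623992) (l 16617584)) (b (l 16616296) (l 16609856))) (a (b (l 16629784) (l 16623808)) (b (l 16622040) (l 16616064))))))), by decide +kernel⟩

def k142_A00pm_102_s1 : ∃ t, chk3 f_A00pm_102_s1 t 62 18 3 = true :=
  ⟨(b (a (c (b (a (b (l 16716520) (l 16710576)) (b (l 16709216) (l 16703272))) (a (b (l 16704712) (l 16698928)) (b (l 16697408) (l 16691608)))) (b (a (b (l 16707648) (l 16701624)) (b (l 16695056) (l 16710024))) (a (b (c (l 16709720) (l 16713312)) (l 16711048)) (b (l 16704192) (l 16698528))))) (b (b (a (c (l 16701760) (l 16708480)) (c (l 16694184) (l 16700760))) (c (c (l 16685272) (l 16693632)) (a (l 16702512) (l 16694840)))) (a (c (c (l 16685488) (l 16688688)) (b (l 16696720) (l 16691080))) (c (b (l 16682400) (l 16676616)) (b (l 16689080) (l 16683480)))))) (b (a (c (b (a (l 16693216) (l 16685896))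 (a (l 16687616) (l 16680264))) (a (b (l 16700288) (l 16694952)) (b (l 16693032) (l 16687696)))) (c (b (a (l 16678456) (l 16670904)) (a (l 16672816) (l 16665264))) (a (b (l 16685608) (l 16680296)) (b (l 16678040) (l 16672752))))) (a (c (c (b (l 16676624) (l 16671024)) (b (l 16680256) (l 16674856))) (b (a (l 16689736) (l 16682536)) (a (l 16684640) (l 16677496)))) (c (b (a (l 16667256) (l 16659704)) (a (l 16661808) (l 16654224))) (a (b (l 16675136) (l 16670160)) (b (l 16667624) (l 16662648))))))), by decide +kernel⟩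

def k143_A00pm_102_s1 : ∃ t, chk3 f_A00pm_102_s1 t 63 18 3 = true :=
  ⟨(b (a (b (a (b (c (l 16686480) (l 16692896)) (c (l 16680576) (l 16687024))) (c (b (l 16678680) (l 16672800)) (b (l 16684904) (l 16679088)))) (a (c (b (l 16674736) (l 16668960)) (b (l 16681304) (l 16675752))) (c (b (l 16666984) (l 16661224)) (c (l 16668936) (l 16672432))))) (b (a (c (b (l 16670792) (l 16664944)) (b (l 16676816) (l 16671064))) (c (b (l 16662840) (l 16657032)) (c (l 16653768) (l 16662136)))) (a (c (b (l 16659152) (l 16653424)) (b (l 16665456) (l 16660000))) (c (b (l 16651272) (l 16645576)) (b (l 16657432) (l 16652040)))))) (a (b (c (a (b (l 16663256) (l 16657624)) (b (l 16655536) (l 16649912))) (a (c (l 16665800) (l 16669672)) (b (l 16662552) (l 16657344)))) (c (b (a (l 16652072) (l 16644368)) (a (l 16646592) (l 16638896))) (a (b (l 16659992) (l 16655048)) (b (l 16652280) (l 16647368))))) (b (c (a (b (l 16647752) (l 16642152)) (b (l 16639936) (l 16634352))) (a (b (l 16654696) (l 16649528)) (b (l 16646784) (l 16641672))))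 (c (b (a (l 16636624) (l 16628848)) (a (l 16631160) (l 16623400))) (a (b (l 16644512) (l 16639632)) (b (l 16636704) (l 16631880))))))), by decide +kernel⟩

def k144_A00pm_102_s1 : ∃ t, chk3 f_A00pm_102_s1 t 56 38 1 = true :=
  ⟨(b (a (b (a (c (l 531598223) (l 531677327)) (c (b (l 531594383) (l 531632527)) (b (l 531979407) (l 531955343)))) (a (l 531766415) (c (l 531682447) (l 531918223)))) (c (b (a (c (l 531283855) (l 531699855)) (c (b (l 531505551) (l 16758512)) (l 531437199))) (a (l 531692943) (b (l 16751064) (l 16743376)))) (b (a (c (l 531888015) (l 531128207)) (b (c (l 16759632) (l 531889551)) (l 531220623))) (a (l 531408671) (b (l 16752360) (l 16755032)))))) (a (b (c (l 531459983) (l 531856527)) (c (l 531775887) (l 531797391))) (b (a (b (l 16754488) (l 16751952)) (b (l 16746624) (l 16749336))) (c (a (l 16748072) (l 16745392)) (a (l 16748256) (l 16745744)))))), by decide +kernel⟩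

def k145_A00pm_102_s1 : ∃ t, chk3 f_A00pm_102_s1 t 114 38 2 = true :=
  ⟨(b (b (c (a (b (l 531483791) (l 16755536)) (b (a (l 16755688) (l 16754136)) (l 16747232))) (a (b (l 531695759) (l 16751024)) (b (l 531433103) (l 16748176)))) (a (b (l 16748192) (l 16740528)) (b (a (l 16751240) (l 16744512)) (l 16742848)))) (b (a (l 16736920) (a (l 16734752) (l 16738528))) (b (l 16731872) (l 16729552)))), by decide +kernel⟩

def k146_A00pm_102_s1 : ∃ t, chk3 f_A00pm_102_s1 t 115 38 8 = true :=
  ⟨(c (c (b (a (b (b (l 16751328) (l 16748920)) (a (l 16746192) (l 16744584))) (b (b (l 16748040) (l 16745648)) (a (l 16742960) (l 16741328)))) (b (a (l 16740808) (a (l 16738384) (l 16736768))) (b (l 16730576) (a (l 16735344) (l 16726920))))) (b (a (b (b (l 16751456) (l 16749040)) (a (l 16746296) (l 16744704))) (b (b (l 16748192) (l 16745800)) (a (l 16743096) (l 16741472)))) (b (a (l 16740896) (l 16735072)) (b (l 16730656) (a (l 16735384) (l 16726984)))))) (c (b (a (b (a (l 16753792) (l 16752192)) (a (l 16746400) (l 16744824)))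 (b (b (l 16748344) (l 16745952)) (a (l 16743224) (l 16741616)))) (b (a (l 16740984) (l 16737808)) (b (l 16730736) (a (l 16735424) (l 16732296))))) (b (a (b (a (l 16751288) (l 16752328)) (a (l 16746512) (l 16744944))) (b (b (l 16748504) (l 16746104)) (a (l 16743368) (l 16741768)))) (b (a (l 16741080) (l 16737928)) (b (l 16730816) (a (l 16735472) (l 16732368))))))), by decide +kernel⟩

def k147_A00pm_102_s1 : ∃ t, chk3 f_A00pm_102_s1 t 115 38 9 = true :=
  ⟨(c (c (b (a (b (a (l 16751416) (l 16749848)) (a (l 16746632) (l 16745072))) (b (b (l 16748672) (l 16746264)) (a (l 16743504) (l 16741928)))) (b (a (l 16741176) (l 16738056)) (b (l 16730904) (a (l 16735520) (l 16732440))))) (b (a (b (a (l 16751552) (l 16749992)) (a (l 16746744) (l 16745208))) (b (b (l 16748840) (l 16746432)) (a (l 16743656) (l 16742088)))) (a (b (l 16741280) (l 16736672)) (b (l 16738184) (b (l 16734696) (l 16732512)))))) (c (b (b (a (a (l 16751680) (l 16750144)) (a (l 16748584) (l 16747016))) (a (a (l 16746872) (l 16745344)) (a (l 16743800)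 (l 16742248)))) (b (a (l 16741384) (l 16738320)) (b (l 16736336) (l 16728864)))) (b (b (a (a (l 16751824) (l 16750296)) (a (l 16748752) (l 16747200))) (a (a (l 16746992) (l 16745480)) (a (l 16743952) (l 16742416)))) (b (a (l 16741488) (l 16738456)) (b (l 16736432) (l 16728928)))))), by decide +kernel⟩

def k148_A00pm_102_s1 : ∃ t, chk3 f_A00pm_102_s1 t 115 38 5 = true :=
  ⟨(c (c (b (b (a (b (l 16752496) (l 16750064)) (b (l 16749456) (l 16747032))) (a (a (l 16747192) (l 16745696)) (a (l 16744192) (l 16742680)))) (b (a (l 16741656) (l 16738664)) (b (l 16726096) (l 16729032)))) (b (b (a (b (l 16752816) (l 16750368)) (b (l 16749832) (l 16747400))) (a (l 531475343) (a (l 16744520) (l 16743040)))) (b (a (l 16741888) (l 16738960)) (b (l 16726304) (l 16729184))))) (c (b (b (a (b (l 16753144) (l 16750696)) (b (l 16750224) (l 16747792))) (a (l 531794063) (a (l 16744872) (l 16743416)))) (a (b (l 16742136) (l 16737224)) (b (l 16739264) (l 16729128)))) (b (b (a (b (l 16753488) (l 16751032)) (b (l 16750632) (l 16748192)))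 (a (l 16742104) (a (l 16745232) (l 16743816)))) (a (b (l 16742392) (l 16737392)) (b (l 16739592) (l 16729352)))))), by decide +kernel⟩

def k149_A00pm_102_s1 : ∃ t, chk3 f_A00pm_102_s1 t 57 38 3 = true :=
  ⟨(a (b (b (c (a (l 531950479) (b (l 531985295) (l 16754568))) (a (b (l 531885967) (l 16752008)) (b (a (l 16752104) (l 16750720)) (l 16749272)))) (a (b (l 16749904) (l 16752576)) (b (l 16747448) (l 16739632)))) (b (a (l 16748648) (a (l 16746808) (l 16745576))) (b (l 16743400) (l 16740584)))) (c (a (b (b (b (a (l 16755072) (l 16753744)) (l 16746696)) (a (l 16748848) (l 16747536))) (b (l 16743096) (l 16737864))) (c (c (b (b (b (l 16745816) (l 16748608)) (a (l 16745608) (l 16738984))) (b (l 16734688) (l 16729592))) (b (b (b (l 16746264) (l 16743808)) (l 16740088)) (b (l 16729792) (l 16729840)))) (b (b (b (l 16746960) (l 16749736)) (a (l 16746624) (l 16745328))) (b (l 16740840) (b (l 16736880) (l 16723624)))))) (a (b (b (b (a (l 16749328) (l 16747928)) (l 16746512)) (a (l 16744152) (l 16742784))) (b (l 16744392)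 (l 16736120))) (b (b (b (a (l 16746520) (a (l 16745464) (l 16744752))) (a (l 16744424) (l 16743024))) (b (l 16741712) (l 16734536))) (b (l 16736808) (b (l 16737896) (l 16729632))))))), by decide +kernel⟩

def k150_A00pm_102_s1 : ∃ t, chk3 f_A00pm_102_s1 t 56 39 1 = true :=
  ⟨(a (b (b (c (l 16747376) (l 16746136)) (c (l 16742960) (b (l 16720480) (l 16717280)))) (b (c (l 16728064) (c (l 16713848) (l 16710816))) (c (b (l 16714240) (a (l 16734080) (l 16710848))) (b (l 16707352) (c (l 16706224) (l 16701472)))))) (b (b (c (l 16742328) (l 16730472)) (c (l 16727576) (b (l 16715184) (l 16711912)))) (a (c (b (l 16735008) (b (l 16721224) (b (l 16708920) (l 16717984)))) (b (l 16708272) (b (b (l 16724984) (l 16702288)) (c (l 16701960) (l 16717864))))) (c (b (c (l 16722440) (l 16720688)) (b (a (l 16719184) (l 16727960)) (l 16725680))) (b (c (l 16717672) (l 16714184)) (b (c (l 16712752) (l 16718760)) (c (l 16719568) (l 16714640)))))))), by decide +kernel⟩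

def k151_A00pm_102_s1 : ∃ t, chk3 f_A00pm_102_s1 t 57 78 1 = true :=
  ⟨(a (a (b (c (l 16738328) (l 16726616)) (c (l 16734184) (l 16720064))) (c (b (l 16725072) (b (a (l 16733192) (l 16731816)) (a (l 16720592) (c (l 16730216) (l 16717976))))) (b (l 16724056) (b (a (l 16730232) (l 16718424)) (c (a (l 16728008) (l 16726416)) (l 16714328)))))) (b (a (c (a (l 16722944) (b (l 16732968) (c (l 16725944) (l 16725360)))) (b (l 16723136) (c (l 16725408) (l 16724672)))) (b (c (c (a (l 16726208) (b (l 16724984) (l 16723816))) (a (l 16731512) (c (l 16724496) (l 16724608)))) (a (c (l 16731632) (l 16721320)) (b (l 16725960) (l 16724072)))) (c (b (a (a (l 16725048) (l 16724048)) (l 16722360)) (c (l 16727464) (l 16726984))) (c (b (l 16723048) (l 16726472)) (b (l 16722808) (l 16725944)))))) (a (c (b (c (a (l 16730784) (l 16723536)) (a (l 16724344) (l 16727712))) (b (l 16716568) (l 16715032))) (b (a (c (l 16717736) (l 16726680)) (c (l 16726496) (l 16725152))) (c (l 16723704) (l 16721704)))) (c (c (b (b (l 16726056) (l 16724632))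 (l 16717248)) (b (b (l 16725360) (l 16723728)) (l 16721280))) (c (b (l 16723672) (l 16719936)) (b (l 16722728) (l 16718448))))))), by decide +kernel⟩

def k152_A00pm_102_s1 : ∃ t, chk3 f_A00pm_102_s1 t 57 79 1 = true :=
  ⟨(a (c (b (b (a (a (l 16731696) (l 16719712)) (c (l 16728440) (l 16715736))) (a (c (l 16729520) (l 16716272)) (b (l 16725032) (l 16723456)))) (b (c (l 16724536) (l 16711024)) (a (l 16700896) (l 16707400)))) (b (b (a (b (l 16715840) (l 16714040)) (c (l 16713152) (l 16720688))) (c (a (l 16712992) (l 16719904)) (a (l 16719704) (l 16716488)))) (b (c (l 16707480) (l 16713904)) (c (l 16714216) (l 16709728))))) (c (a (b (c (b (l 16713640) (l 16710696)) (b (l 16722184) (l 16718864))) (b (b (l 16707224) (l 16716128)) (l 16703256))) (b (b (c (l 16719608) (l 16718000)) (b (l 16706016) (l 16714944))) (b (c (l 16713736) (l 16711376)) (b (l 16710232) (l 16708648))))) (a (c (b (b (l 16719960) (l 16716216)) (b (l 16712472) (l 16708720))) (b (b (l 16717456) (l 16713232)) (b (l 16709016) (l 16704832))))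 (b (b (c (l 16705704) (l 16714192)) (b (l 16706984) (l 16699760))) (b (b (l 16697768) (l 16706272)) (c (l 16704968) (l 16701544))))))), by decide +kernel⟩

def k153_A00pm_102_s1 : ∃ t, chk3 f_A00pm_102_s1 t 58 152 1 = true :=
  ⟨(c (c (a (a (b (c (c (l 16744800) (l 16745168)) (c (l 16745552) (l 16745952))) (c (a (l 16743424) (l 16741784)) (l 16743360))) (b (c (a (l 16742520) (l 16740896)) (l 16745216)) (a (l 16740576) (l 16738992)))) (a (b (a (l 16739760) (l 16738184)) (a (l 16737424) (l 16735856))) (b (l 16735832) (a (l 16734304) (c (l 16732128) (l 16733280)))))) (c (b (a (a (a (l 16747352) (l 16745832)) (l 16743576)) (a (l 16740600) (l 16737656))) (a (a (l 16744184) (l 16741184)) (a (l 16738232) (a (l 16736032) (l 16734528))))) (b (a (a (a (l 16748240) (l 16746784)) (b (l 16745232) (l 16744032))) (a (l 16741800) (l 16738992))) (a (a (a (l 16745816) (l 16744368)) (l 16742224)) (a (l 16739400) (a (l 16737312) (l 16735880))))))) (a (c (a (b (a (l 16744464) (l 16743120)) (c (l 16740824) (l 16741880))) (b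 (b (l 16741744) (l 16740528)) (b (l 16739304) (l 16738080)))) (a (b (c (c (l 16744160) (l 16748616)) (a (l 16742888) (l 16741416))) (a (l 16741616) (l 16740200))) (b (c (a (l 16746896) (l 16745456)) (a (l 16739912) (l 16738392))) (a (l 16738760) (l 16737296))))) (c (a (b (c (l 16737848) (l 16739232)) (c (l 16735424) (l 16742024))) (a (l 16735392) (b (l 16740560) (a (l 16738456) (l 16732512))))) (a (b (c (l 16738024) (a (l 16736856) (l 16735304))) (a (l 16735816) (l 16734320))) (a (b (l 16734776) (l 16732808)) (b (l 16733232) (b (l 16731760) (l 16730872)))))))), by decide +kernel⟩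

def k154_A00pm_102_s1 : ∃ t, chk3 f_A00pm_102_s1 t 58 153 1 = true :=
  ⟨(a (c (c (a (b (a (l 16741416) (l 16739824)) (a (l 16739080) (l 16737496))) (b (c (l 16737040) (l 16737880)) (c (l 16734744) (l 16735544)))) (a (b (a (l 16742952) (l 16741480)) (a (l 16740536) (l 16739072))) (b (a (l 16740024) (l 16738576)) (a (l 16737616) (l 16736176))))) (c (a (b (l 16738872) (l 16736368)) (b (c (l 16735656) (l 16742064)) (l 16733728))) (a (b (a (l 16739624) (l 16738224)) (l 16737016)) (b (a (l 16736792) (l 16735352)) (l 16734200))))) (a (a (c (c (b (l 16735104) (l 16732808)) (b (l 16737136) (l 16734744))) (b (c (l 16739520) (l 16733888)) (l 16733056))) (c (c (b (l 16733552) (b (a (l 16732216) (l 16726160)) (a (b (l 16731352) (l 16730688)) (l 16727336)))) (b (l 16735712) (b (l 16728664) (a (l 16733016) (l 16732056))))) (c (b (l 16738232) (b (l 16731120) (l 16729680))) (b (l 16732408) (b (l 16731024) (l 16730352)))))) (b (c (c (a (b (l 16732576) (a (l 16731800) (l 16730832))) (b (a (l 16731256) (l 16730112)) (l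 16729048))) (a (b (l 16734880) (a (l 16734040) (l 16733136))) (b (a (l 16733664) (l 16732608)) (l 16731496)))) (a (c (c (l 16730928) (l 16732360)) (b (l 16731368) (l 16730592))) (c (c (l 16729144) (l 16730672)) (b (a (l 16730424) (l 16730024)) (l 16729776))))) (b (a (c (c (b (l 16727592) (l 16729400)) (a (l 16732600) (l 16731504))) (c (l 16729432) (l 16730040))) (c (c (l 16727360) (l 16729808)) (c (l 16732664) (l 16734616)))) (c (c (a (l 16728136) (l 16725664)) (l 16734488)) (c (c (l 16731272) (l 16732744)) (l 16729288))))))), by decide +kernel⟩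

def k155_A00pm_102_s1 : ∃ t, chk3 f_A00pm_102_s1 t 59 76 2 = true :=
  ⟨(a (b (a (a (b (c (b (l 16734064) (l 16732872)) (l 16730912)) (b (c (l 16736744) (l 16728904)) (c (l 16729936) (l 16732576)))) (c (b (b (l 16732304) (l 16730784)) (l 16728288)) (b (a (l 16729648) (l 16728616)) (l 16731112)))) (c (b (l 16738352) (l 16724512)) (b (c (l 16730144) (l 16731808)) (a (l 16728784) (l 16726440))))) (c (a (b (c (l 16725552) (l 16726808)) (c (l 16722160) (l 16723416))) (b (l 16721128) (l 16717728))) (a (a (b (l 16735296) (l 16726672)) (b (l 16727744) (l 16724376))) (b (l 16734744) (l 16720888))))) (c (a (b (b (l 16722744) (l 16719392)) (b (l 16716016) (l 16712608))) (b (l 16715816) (l 16719560))) (b (a (b (l 16736680) (l 16722872)) (a (l 16720880) (l 16718392))) (a (b (l 16719528) (l 16716168)) (l 16723504))))), by decide +kernel⟩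

def k156_A00pm_102_s1 : ∃ t, chk3 f_A00pm_102_s1 t 59 76 3 = true :=
  ⟨(a (b (b (c (a (a (l 16734024) (c (l 16731504) (l 16733256))) (a (l 16735616) (l 16733472))) (a (a (b (l 16732168) (a (l 16731576) (l 16730856))) (b (a (l 16731024) (l 16730544)) (a (l 16730400) (l 16730080)))) (a (b (l 16730080) (l 16729656)) (l 16729296)))) (a (a (c (b (l 16731976) (l 16735640)) (b (a (l 16730696) (l 16730264)) (l 16729992))) (c (l 16734392) (l 16729600))) (c (c (l 16719792) (l 16732208)) (a (l 16729008) (l 16723168))))) (b (c (a (c (l 16726008) (l 16732960)) (c (l 16726936) (l 16718408))) (a (a (l 16729368) (l 16728760)) (l 16726824))) (a (c (c (l 16727888) (l 16724376)) (l 16727184)) (c (a (l 16725624) (l 16723520)) (l 16728800))))) (c (c (b (a (a (l 16718136) (l 16726368)) (l 16712432)) (a (b (l 16722544) (l 16719240)) (l 16716400))) (b (a (l 16729648) (l 16714808)) (a (b (l 16724744) (l 16721472)) (l 16708376)))) (b (a (c (l 16731936) (b (l 16732296) (l 16731344))) (c (l 16727832) (l 16725272))) (a (c (l 16725472)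 (l 16727984)) (c (l 16711000) (l 16724280)))))), by decide +kernel⟩

def k157_A00pm_102_s1 : ∃ t, chk3 f_A00pm_102_s1 t 58 154 1 = true :=
  ⟨(a (c (a (c (b (a (l 16736768) (l 16735184)) (l 16733680)) (b (l 16732152) (l 16734968))) (b (b (c (l 16733408) (l 16735088)) (a (l 16728544) (c (b (l 16731776) (l 16731192)) (l 16733168)))) (a (b (l 16732608) (c (b (l 16731032) (l 16725168)) (l 16732152))) (c (a (b (l 16725464) (l 16726648)) (b (b (l 16730128) (l 16729352)) (l 16728080))) (b (a (l 16732304) (l 16731392)) (c (l 16729840) (l 16730720))))))) (c (b (a (l 16739080) (a (l 16726616) (l 16730560))) (a (l 16726032) (a (l 16729288) (b (l 16728520) (l 16726936))))) (b (a (l 16729944) (l 16732376)) (a (l 16738320) (a (l 16731328) (l 16729920)))))) (a (b (c (c (a (b (a (l 16731472) (b (l 16730960) (l 16730256))) (a (b (l 16730552) (l 16729816)) (l 16729032))) (c (b (l 16728440) (l 16726744)) (l 16733760))) (a (b (a (l 16733304) (l 16732496)) (a (l 16731952) (l 16730912))) (c (l 16729536) (l 16730648)))) (a (c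 (b (l 16729848) (l 16728328)) (b (l 16730744) (l 16730168))) (c (b (l 16728088) (l 16721152)) (l 16729656)))) (c (c (c (c (l 16730480) (l 16725656)) (l 16731560)) (c (l 16732528) (l 16733576))) (c (a (a (l 16726328) (l 16725336)) (l 16723840)) (c (l 16732024) (l 16733432))))) (c (c (b (c (l 16729072) (l 16730144)) (c (l 16720416) (l 16721488))) (b (a (l 16733072) (l 16725568)) (c (l 16722664) (l 16723952)))) (c (a (b (a (l 16725736) (l 16719480)) (l 16721840)) (b (l 16723208) (l 16725072))) (b (c (l 16731808) (l 16732904)) (l 16729296)))))), by decide +kernel⟩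

def k158_A00pm_102_s1 : ∃ t, chk3 f_A00pm_102_s1 t 58 155 1 = true :=
  ⟨(a (c (a (b (a (l 16732688) (b (c (l 16731168) (l 16732416)) (c (a (l 16730400) (l 16729456)) (l 16731080)))) (c (b (a (a (l 16730872) (l 16724792)) (b (l 16728832) (l 16728064))) (a (c (l 16723944) (l 16729504)) (l 16727032))) (b (a (l 16731408) (l 16724320)) (a (l 16724824) (l 16727968))))) (b (c (b (a (a (l 16724640) (l 16728800)) (l 16726984)) (c (l 16726168) (l 16726840))) (b (a (a (l 16731232) (l 16730240)) (l 16728576)) (l 16733216))) (c (b (b (l 16725216) (c (l 16724104) (l 16724744))) (c (l 16723112) (l 16723680))) (b (c (l 16725872) (l 16726680)) (l 16724648))))) (c (b (a (a (l 16734576) (b (l 16733912) (l 16722024))) (b (a (l 16727128) (l 16730488)) (l 16724504))) (a (b (a (l 16732584) (l 16720432)) (c (l 16724504) (l 16719824))) (c (l 16721424) (l 16722312)))) (b (a (l 16730296) (b (l 16728232) (l 16731824))) (b (a (a (l 16733968) (l 16732520)) (l 16730072)) (a (l 16725992) (l 16728000)))))) (b (c (c (a (c (l 16727280)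 (l 16722904)) (c (l 16716984) (l 16718056))) (a (c (l 16723864) (l 16724912)) (l 16725120))) (c (a (b (l 16717032) (l 16725816)) (a (l 16723688) (l 16721696))) (a (l 16729336) (l 16725960)))) (c (a (b (c (c (l 16719496) (l 16720352)) (l 16721816)) (c (l 16723728) (l 16720200))) (b (c (c (l 16714432) (l 16715504)) (l 16717312)) (c (l 16713536) (l 16715712)))) (a (b (c (l 16713608) (l 16726760)) (a (l 16713864) (l 16712048))) (c (a (l 16709736) (l 16718240)) (c (l 16711080) (l 16712776))))))), by decide +kernel⟩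

def k159_A00pm_102_s1 : ∃ t, chk3 f_A00pm_102_s1 t 59 77 1 = true :=
  ⟨(c (b (c (a (a (b (c (l 16718752) (l 16720016)) (l 16726424)) (b (l 16714312) (l 16710872))) (a (l 16717936) (l 16702216))) (a (a (b (l 16727376) (l 16718736)) (b (l 16717504) (l 16714104))) (a (l 16721584) (l 16706304)))) (b (a (a (c (l 16712496) (l 16715320)) (c (l 16707416) (l 16710696))) (c (l 16710136) (a (l 16706000) (l 16701216)))) (a (a (b (c (l 16709936) (l 16712768)) (c (l 16708520) (l 16711168))) (c (b (l 16704840) (l 16703432)) (b (l 16708152) (l 16706552)))) (a (b (l 16701480) (l 16710472)) (b (l 16717424) (l 16694968)))))) (b (a (b (a (c (a (l 16715928) (l 16724360)) (l 16729128)) (c (a (l 16722288) (l 16720200)) (l 16725552))) (a (c (a (l 16723048) (l 16721008)) (l 16725832)) (c (l 16717912) (l 16722304)))) (c (a (b (l 16717024) (l 16713728)) (c (l 16709824) (l 16712392))) (c (a (l 16708520) (l 16704648)) (a (l 16721624) (l 16718056))))) (c (a (a (b (l 16723912) (c (l 16714368) (l 16716128))) (b (l 16714584) (b (l 16712064)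 (l 16710272)))) (a (b (l 16710416) (l 16707032)) (b (l 16706168) (l 16702800)))) (a (a (b (l 16722544) (a (l 16709384) (l 16707688))) (b (l 16719064) (a (l 16705968) (l 16704232)))) (b (a (l 16705024) (l 16701376)) (c (a (l 16710752) (l 16706984)) (a (l 16702960) (l 16710008)))))))), by decide +kernel⟩

def k160_A00pm_102_s1 : ∃ t, chk3 f_A00pm_102_s1 t 58 156 1 = true :=
  ⟨(a (c (b (a (c (c (l 16726080) (l 16726288)) (c (l 16726528) (l 16726808))) (c (c (l 16721128) (l 16721536)) (c (l 16722000) (l 16722520)))) (c (c (a (l 16720784) (l 16718464)) (a (l 16723408) (l 16718664))) (a (a (l 16719296) (l 16717096)) (c (l 16718904) (l 16719184))))) (c (b (a (c (l 16727120) (l 16727472)) (c (l 16723096) (l 16723728))) (a (b (l 16724496) (l 16722632)) (c (l 16719512) (l 16719872)))) (b (a (a (l 16718400) (l 16716760)) (a (l 16715120) (l 16713480))) (a (b (l 16724832) (l 16722688)) (c (l 16720280) (l 16720736)))))) (c (a (b (c (c (l 16716136) (l 16716752)) (c (l 16717440) (l 16718200))) (c (c (l 16713488) (l 16713888))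 (a (l 16710480) (l 16708256)))) (a (c (c (b (l 16712360) (l 16709712)) (l 16706464)) (b (l 16714456) (l 16706024))) (c (b (l 16710248) (l 16712752)) (c (l 16704904) (l 16705864))))) (a (c (b (c (l 16719048) (l 16719968)) (c (l 16715480) (l 16716136))) (b (a (l 16722320) (l 16720672)) (c (l 16716856) (l 16717632)))) (c (b (a (l 16716552) (l 16714568)) (c (l 16711408) (l 16712360))) (b (a (l 16719016) (l 16717352)) (c (l 16713392) (l 16714512))))))), by decide +kernel⟩

def k161_A00pm_102_s1 : ∃ t, chk3 f_A00pm_102_s1 t 58 157 1 = true :=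
  ⟨(a (a (c (c (b (b (l 16721304) (l 16719896)) (b (l 16718488) (l 16717072))) (b (c (l 16720304) (l 16720112)) (b (l 16717776) (l 16716144)))) (c (b (c (l 16719920) (l 16719736)) (c (l 16716320) (l 16715872))) (b (l 16719472) (c (l 16715424) (l 16714960))))) (c (b (c (c (l 16715776) (l 16715776)) (c (l 16715792) (l 16715848))) (c (c (l 16713064) (l 16712864)) (c (l 16712672) (l 16712496)))) (b (c (c (l 16715920) (l 16716024)) (c (l 16716152) (l 16716312))) (c (c (l 16712328) (l 16712168)) (c (l 16712024) (l 16711888)))))) (c (a (b (c (c (l 16710808) (l 16711008)) (a (l 16707264) (l 16705048))) (c (c (l 16708104) (l 16708104)) (c (l 16708144) (l 16708216)))) (b (c (c (l 16705784) (l 16706200)) (a (l 16702824) (l 16705824))) (c (c (l 16703096) (l 16703312)) (c (l 16703576) (l 16703904))))) (c (a (b (c (l 16711904) (l 16712296)) (c (l 16708320) (l 16708464))) (b (c (l 16707848) (l 16708544)) (c (l 16704288) (l 16704720)))) (a (b (c (l 16712744) (l 16713232)) (c (l 16708632) (l 16708840))) (b (c (l 16709304)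 (l 16710136)) (c (l 16705216) (l 16705760))))))), by decide +kernel⟩

def k162_A00pm_102_s1 : ∃ t, chk3 f_A00pm_102_s1 t 58 79 2 = true :=
  ⟨(a (b (a (b (c (b (l 16715640) (l 16714208)) (b (l 16714512) (l 16712872))) (c (l 16706792) (l 16705168))) (b (c (b (l 16710840) (l 16709416)) (c (l 16709536) (l 16709128))) (c (b (l 16707992) (l 16706552)) (b (l 16706880) (l 16705248))))) (b (c (a (l 16709112) (l 16699136)) (a (l 16707112) (l 16697544))) (c (a (l 16706152) (l 16701456)) (a (l 16703792) (l 16699480))))) (b (a (b (c (c (l 16705376) (l 16705184)) (c (l 16705016) (l 16704864))) (c (a (l 16703656) (l 16701224)) (c (l 16701872) (l 16701504)))) (b (c (c (l 16700376) (l 16700400)) (c (l 16700464) (l 16700568))) (c (c (l 16697640) (l 16697472)) (c (l 16697328) (l 16697216))))) (c (b (a (a (l 16700784) (l 16698360)) (c (l 16694872) (l 16694520))) (a (a (l 16697880) (l 16695472)) (c (l 16692088) (l 16691552)))) (b (a (c (l 16698712) (l 16698128)) (c (l 16694184) (l 16693864))) (a (c (l 16695528) (l 16694744))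 (c (l 16691016) (l 16690488))))))), by decide +kernel⟩

def k163_A00pm_102_s1 : ∃ t, chk3 f_A00pm_102_s1 t 58 79 3 = true :=
  ⟨(a (b (b (c (a (l 16707120) (c (l 16708720) (l 16708312))) (a (l 16705680) (c (l 16707904) (l 16707488)))) (c (a (l 16703384) (l 16699552)) (a (l 16701440) (l 16698208)))) (b (c (a (l 16704888) (l 16695824)) (a (l 16702464) (l 16693976))) (c (c (l 16694632) (l 16693384)) (c (l 16692072) (l 16690712))))) (b (b (a (c (c (l 16704736) (l 16704624)) (c (l 16704528) (l 16704456))) (c (c (l 16700712) (l 16700904)) (c (l 16701136) (l 16701400)))) (c (a (c (l 16701144) (l 16700784)) (c (l 16697136) (l 16697080))) (a (c (l 16700432) (l 16700080)) (c (l 16697056) (l 16697056))))) (c (b (a (c (l 16697544) (l 16696944)) (c (l 16693552) (l 16693256))) (a (l 16698768) (c (l 16689960) (l 16689432)))) (b (c (a (l 16696336) (l 16692984)) (a (l 16695728) (l 16692720))) (a (b (l 16692872) (l 16690768)) (c (l 16688912) (l 16688384))))))), by decide +kernel⟩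

def k164_A00pm_102_s1 : ∃ t, chk3 f_A00pm_102_s1 t 59 78 1 = true :=
  ⟨(b (a (b (a (c (c (c (l 16705984) (l 16707016)) (c (l 16708176) (l 16709448))) (c (c (l 16710840) (l 16712344)) (l 16704344))) (c (c (l 16701416) (l 16714688)) (c (l 16707536) (l 16700936)))) (a (c (c (c (l 16703352) (l 16704184)) (c (l 16705120) (l 16706160))) (c (c (l 16707296) (l 16708544)) (c (l 16709896) (l 16711352)))) (c (c (c (l 16698192) (l 16699240)) (c (l 16700416) (l 16701704))) (c (c (l 16703128) (l 16704664)) (c (l 16706336) (l 16708120)))))) (c (a (b (c (l 16696264) (l 16699528)) (c (l 16693568) (l 16696392))) (b (c (l 16691032) (l 16694768)) (c (l 16688360) (l 16691656)))) (c (a (c (l 16690144) (l 16702600)) (c (l 16696288) (l 16698552))) (a (c (l 16694232) (l 16696504)) (c (l 16700976) (l 16693088)))))) (a (a (c (c (b (c (l 16700704) (l 16701328)) (c (l 16698024) (l 16698456))) (b (c (l 16702048) (l 16702856)) (c (l 16698960) (l 16699544)))) (b (c (c (l 16703752) (l 16704744)) (c (l 16705824) (l 16706992))) (c (c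 (l 16700208) (l 16700944)) (c (l 16701752) (l 16702640))))) (c (c (b (c (l 16695560) (l 16696400)) (c (l 16692896) (l 16693544))) (b (c (l 16697360) (l 16698424)) (c (l 16694288) (l 16695128)))) (c (b (c (l 16699600) (l 16700880)) (c (l 16696064) (l 16697096))) (b (c (l 16702280) (l 16703784)) (c (l 16698232) (l 16699456)))))) (b (c (c (a (l 16690856) (l 16685664)) (a (l 16693240) (l 16688520))) (a (c (l 16701384) (c (l 16698656) (l 16700496))) (c (l 16702456) (c (l 16694944) (l 16697120))))) (c (c (a (l 16698600) (l 16682944)) (a (l 16695320) (l 16685376))) (a (c (c (l 16691856) (l 16693184)) (c (l 16694632) (l 16696192))) (c (c (l 16687560) (l 16689176)) (c (l 16690936) (l 16692832)))))))), by decide +kernel⟩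

def k165_A00pm_102_s1 : ∃ t, chk3 f_A00pm_102_s1 t 118 79 1 = true :=
  ⟨(c (b (c (a (b (c (l 16695328) (l 16695560)) (c (l 16692600) (l 16692648))) (b (c (l 16690208) (l 16690664)) (c (l 16687496) (l 16687760)))) (a (b (c (l 16695864) (l 16696224)) (c (l 16692744) (l 16692888))) (b (c (l 16691200) (l 16691824)) (c (l 16688096) (l 16688504))))) (a (b (c (c (l 16689848) (l 16689712)) (c (l 16689608) (l 16689544))) (c (c (l 16687064) (l 16686752)) (c (l 16686456) (l 16686192)))) (b (c (c (l 16684760) (l 16684840)) (c (l 16684984) (l 16685176))) (c (c (l 16681992) (l 16681896)) (c (l 16681840) (l 16681840)))))) (b (a (b (c (c (l 16696648) (l 16697136)) (c (l 16697688) (l 16698304))) (c (c (l 16693088) (l 16693336)) (c (l 16693632) (l 16693984)))) (c (b (c (l 16692528) (l 16693320)) (c (l 16688984) (l 16689536))) (b (c (l 16694192) (l 16695144)) (c (l 16690152) (l 16690840))))) (b (a (c (c (l 16689520) (l 16689536)) (c (l 16689584) (l 16689664))) (c (c (l 16685432) (l 16685752)) (c (l 16686120) (l 16686552))))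 (c (a (c (l 16685944) (l 16685728)) (c (l 16681880) (l 16681960))) (a (c (l 16685536) (l 16685368)) (c (l 16682096) (l 16682272))))))), by decide +kernel⟩

def k166_A00pm_102_s1 : ∃ t, chk3 f_A00pm_102_s1 t 119 79 1 = true :=
  ⟨(c (b (b (a (c (c (l 16685024) (l 16685696)) (c (l 16686472) (l 16687352))) (c (l 16680200) (l 16692704))) (c (a (c (l 16682328) (l 16682816)) (l 16687912)) (a (c (l 16683384) (l 16684056)) (c (l 16678600) (l 16679520))))) (a (b (c (c (l 16679608) (l 16679904)) (c (l 16680288) (l 16680744))) (c (c (l 16676856) (l 16676976)) (c (l 16677168) (l 16677416)))) (c (b (c (l 16674384) (l 16674904)) (c (l 16671656) (l 16671992))) (b (c (l 16675512) (l 16676224)) (c (l 16672416) (l 16672920)))))) (c (b (a (c (b (l 16688336) (l 16684808)) (b (l 16689416) (l 16685656))) (c (b (l 16684056) (l 16680552)) (b (l 16685432) (l 16681688)))) (a (b (c (l 16681280) (l 16681888)) (c (l 16677736) (l 16678128))) (b (c (l 16677040) (l 16677944)) (c (l 16673520) (l 16674200))))) (b (a (b (c (l 16690608)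 (l 16691904)) (c (l 16686592) (l 16687624))) (c (b (l 16686936) (l 16682944)) (a (l 16682032) (l 16680336)))) (a (b (c (l 16682584) (l 16683352)) (c (l 16678576) (l 16679104))) (c (b (l 16678952) (l 16674968)) (b (l 16680056) (l 16675824))))))), by decide +kernel⟩

def k167_A00pm_102_s1 : ∃ t, chk3 f_A00pm_102_s1 t 30 38 2 = true :=
  ⟨(a (b (a (c (a (b (l 16710336) (l 16703648)) (b (l 16704568) (l 16697920))) (a (b (l 16725016) (l 16707984)) (b (l 16709112) (l 16702640)))) (c (b (l 16705856) (l 16709752)) (b (a (l 16703384) (l 16697368)) (a (l 16696984) (l 16691040))))) (a (b (a (b (l 16721648) (l 16718248)) (c (l 16691136) (l 16696064))) (a (b (l 16693840) (b (l 16712256) (l 16689800))) (b (l 16688400) (c (l 16682688) (l 16687776))))) (c (b (l 16703032) (b (l 16676928) (l 16673712))) (b (c (l 16686112) (l 16689104)) (b (l 16682664) (l 16700424)))))) (b (c (a (b (l 16703168) (l 16675688)) (a (l 16689488) (l 16682272))) (a (b (a (l 16691080) (l 16684536)) (l 16692088)) (b (l 16674264) (l 16689144)))) (c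 (a (b (l 16669048) (b (l 16663984) (l 16660824))) (b (l 16655120) (b (l 16650120) (l 16647032)))) (a (b (l 16675288) (b (l 16670496) (l 16667360))) (b (l 16661992) (b (l 16657312) (l 16654256))))))), by decide +kernel⟩

def k168_A00pm_102_s1 : ∃ t, chk3 f_A00pm_102_s1 t 30 38 3 = true :=
  ⟨(a (b (a (c (a (b (c (l 16718120) (l 16710232)) (c (l 16711704) (l 16714408))) (b (c (l 16712992) (l 16715816)) (c (l 16706688) (l 16709624)))) (b (a (c (l 16723488) (l 16726432)) (l 16715144)) (a (l 16713560) (a (l 16715536) (l 16713248))))) (c (a (b (c (l 16707560) (l 16710584)) (l 16702904)) (b (l 16703400) (l 16697368))) (c (b (a (l 16713808) (l 16708480)) (a (l 16707896) (l 16702696))) (b (a (l 16706744) (l 16691152)) (a (l 16690512) (l 16706536)))))) (b (a (c (a (c (l 16705216) (l 16708048)) (l 16701824)) (c (b (l 16699968) (l 16696880)) (a (l 16703808) (l 16689224)))) (c (a (l 16696712) (l 16691280)) (a (a (l 16694520) (l 16681656)) (c (l 16696912) (l 16700960))))) (a (c (b (a (l 16701752) (l 16697048)) (a (l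 16698424) (l 16693760))) (b (a (l 16697560) (l 16703920)) (a (a (l 16695176) (l 16682736)) (c (l 16698824) (l 16702480))))) (c (b (l 16710352) (a (l 16688792) (l 16683504))) (b (c (l 16695056) (l 16678184)) (a (c (l 16694280) (l 16698240)) (l 16681008))))))) (b (c (a (b (a (l 16697464) (l 16691248)) (a (l 16691536) (l 16685416))) (b (a (l 16684760) (l 16678024)) (a (l 16679032) (l 16672392)))) (a (c (a (b (l 16702840) (l 16697192)) (l 16699384)) (a (b (l 16706696) (l 16701264)) (b (l 16700960) (l 16695664)))) (a (b (l 16703240) (l 16687488)) (c (l 16681528) (l 16691312))))) (b (a (c (a (l 16685560) (l 16679544)) (a (c (l 16691536) (l 16695848)) (l 16698584))) (a (c (l 16673264) (l 16682240)) (b (l 16693576) (l 16690880)))) (c (a (b (l 16678104) (l 16685496)) (b (l 16665704) (l 16662712))) (a (b (a (l 16689504) (l 16684056)) (a (l 16665456) (l 16681048))) (a (b (l 16678312) (l 16675360)) (c (l 16668240) (l 16673480)))))))), by decide +kernel⟩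

def k169_A00pm_102_s1 : ∃ t, chk3 f_A00pm_102_s1 t 30 39 2 = true :=
  ⟨(a (b (c (a (a (b (l 16673848) (b (l 16680336) (l 16677632))) (b (l 16678744) (l 16683928))) (b (b (l 16671152) (l 16668592)) (b (l 16666000) (l 16684352)))) (a (a (b (b (l 16689864) (l 16686768)) (b (l 16683656) (l 16680528))) (b (l 16693664) (c (l 16676040) (l 16677992)))) (b (b (l 16697424) (l 16694408)) (c (l 16678240) (l 16664808))))) (a (b (b (c (a (l 16674912) (l 16669400)) (a (l 16677392) (l 16672320))) (c (a (l 16672160) (l 16666672)) (a (l 16674240) (l 16669192)))) (b (c (a (l 16669384) (l 16663920)) (a (l 16681560) (l 16666048))) (c (a (l 16666584) (l 16661144)) (a (l 16673128) (l 16662880))))) (a (b (c (l 16672800) (c (l 16664608) (l 16666352))) (c (b (l 16658240) (l 16655480)) (b (l 16660784) (l 16657640)))) (c (b (l 16656400) (l 16661472)) (b (c (l 16658984) (l 16660936)) (b (l 16655288) (l 16652176))))))) (c (b (a (b (l 16678144) (c (l 16651128) (l 16653368))) (b (l 16643544) (l 16659800))) (a (b (c (l 16646192) (l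 16648032)) (b (l 16643160) (l 16661456))) (b (c (l 16632928) (l 16635048)) (c (l 16628088) (l 16629824))))) (a (a (b (b (l 16666112) (l 16660200)) (b (l 16664656) (b (l 16649584) (l 16646496)))) (b (c (l 16655504) (l 16637568)) (b (l 16648160) (l 16652608)))) (a (b (b (l 16653408) (l 16647712)) (b (l 16641904) (l 16635984))) (b (b (l 16646704) (l 16641112)) (c (l 16631328) (l 16618040))))))), by decide +kernel⟩

def k170_A00pm_102_s1 : ∃ t, chk3 f_A00pm_102_s1 t 60 39 3 = true :=
  ⟨(b (a (a (c (b (b (l 16694832) (l 16691240)) (c (l 16684840) (l 16676392))) (b (c (l 16697064) (l 16689504)) (b (l 16692288) (l 16688168)))) (c (c (b (l 16687032) (l 16680120)) (b (l 16689856) (l 16682432))) (b (c (l 16692888) (l 16685632)) (c (l 16684920) (l 16687584))))) (b (c (a (c (l 16681984) (l 16685080)) (l 16678304)) (a (c (l 16688392) (l 16691920)) (c (l 16683584) (l 16687408)))) (c (a (c (l 16675144) (l 16677720)) (b (l 16673048) (l 16669520))) (a (c (l 16680488) (l 16683456)) (c (l 16675752) (l 16679000)))))) (a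 (c (a (b (c (a (l 16679008) (l 16676736)) (l 16674184)) (c (b (l 16672640) (l 16669144)) (b (l 16673840) (l 16670112)))) (b (c (l 16673200) (l 16669776)) (b (l 16679200) (l 16670368)))) (a (b (c (b (l 16683096) (l 16679120)) (b (l 16685040) (l 16680800))) (c (b (l 16675152) (l 16671192)) (b (l 16676584) (l 16672368)))) (b (c (l 16671752) (b (l 16681232) (l 16677008))) (c (b (l 16671064) (l 16667128)) (b (l 16672808) (l 16668624)))))) (c (a (b (c (l 16668264) (l 16670344)) (c (l 16661360) (l 16662976))) (b (c (l 16663080) (l 16665408)) (c (l 16656216) (l 16658080)))) (a (b (c (l 16672600) (l 16669776)) (c (b (l 16666704) (l 16662784)) (b (l 16668736) (l 16664568)))) (c (b (l 16667928) (l 16660112)) (b (l 16665392) (l 16657056))))))), by decide +kernel⟩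

def k171_A00pm_102_s1 : ∃ t, chk3 f_A00pm_102_s1 t 61 39 3 = true :=
  ⟨(a (b (b (c (c (l 16668088) (l 16671792)) (a (c (l 16678448) (l 16682544)) (c (l 16673000) (l 16677352)))) (c (c (l 16656240) (a (l 16667432) (l 16661832))) (c (a (l 16670712) (l 16665352)) (a (l 16674232) (l 16669120))))) (c (c (a (b (l 16657632) (l 16650840)) (b (l 16651920) (l 16645216))) (b (a (l 16660192) (l 16654704)) (a (l 16652936) (l 16647520)))) (a (c (b (l 16662960) (l 16655208)) (b (l 16660688) (l 16652416))) (b (c (l 16657696) (l 16660912)) (c (l 16650024) (l 16647472)))))) (c (b (c (b (l 16655720) (l 16649312)) (b (l 16659848) (l 16647648))) (b (c (l 16632352) (l 16640664)) (a (c (l 16639344) (l 16641840)) (c (l 16633200) (l 16635864))))) (b (b (c (l 16664264) (a (l 16671848) (l 16666024))) (c (a (l 16659688) (l 16653728)) (a (l 16663688) (l 16657936)))) (c (b (a (l 16652120) (l 16646240)) (a (l 16644544) (l 16638752))) (b (a (l 16655560) (l 16649888)) (a (l 16647456) (l 16641864))))))), by decide +kernel⟩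

def k172_A00pm_102_s1 : ∃ t, chk3 f_A00pm_102_s1 t 62 19 2 = true :=
  ⟨(b (b (a (b (a (l 16681176) (l 16673736)) (a (l 16674968) (l 16667576))) (b (c (l 16638168) (a (l 16648640) (l 16641016))) (c (l 16631816) (l 16659912)))) (c (a (b (l 16640512) (b (l 16635576) (l 16632544))) (b (l 16625416) (b (l 16620528) (l 16617560)))) (a (b (l 16647856) (b (l 16643280) (l 16640304))) (b (l 16633040) (b (l 16628560) (l 16625664)))))) (b (b (a (c (l 16629232) (a (l 16639800) (l 16632720))) (c (l 16614424) (a (l 16625472) (l 16618072)))) (a (c (l 16624760) (c (l 16629208) (l 16632536))) (c (l 16610200) (a (l 16620192) (l 16612896))))) (a (c (b (l 16630624) (c (l 16614432) (l 16616352))) (c (b (l 16623912) (l 16618504)) (a (l 16606232) (l 16620432)))) (c (b (l 16605832) (c (l 16600344) (l 16602344))) (c (b (l 16609776) (l 16604600)) (b (l 16612760) (l 16607112))))))), by decide +kernel⟩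

def k173_A00pm_102_s1 : ∃ t, chk3 f_A00pm_102_s1 t 63 19 2 = true :=
  ⟨(b (c (b (a (a (l 16644424) (l 16636632)) (a (l 16628872) (b (l 16603376) (l 16596864)))) (a (b (l 16609904) (b (l 16605048) (l 16602128))) (b (l 16594232) (b (l 16589336) (l 16586456))))) (b (a (a (b (l 16633312) (l 16627440)) (b (l 16625600) (l 16619680))) (a (b (l 16617856) (l 16611920)) (b (l 16610096) (l 16604152)))) (a (b (l 16638656) (a (l 16615744) (l 16608000))) (b (a (l 16606016) (l 16598232)) (a (l 16600216) (l 16592400)))))) (c (a (b (b (l 16599192) (l 16595216)) (b (l 16596352) (a (l 16590520) (l 16583200)))) (b (b (a (l 16587544) (l 16579728)) (a (l 16583760) (l 16576024))) (b (a (l 16579848) (l 16572248)) (a (l 16575808) (l 16568344))))) (a (b (c (b (l 16604712) (l 16599960)) (b (l 16608816) (l 16603512))) (c (b (l 16595112) (l 16590168)) (b (l 16598144) (l 16592704)))) (b (c (b (l 16589208) (l 16584640)) (b (l 16593376) (l 16588224))) (b (a (l 16585328) (l 16577712)) (a (l 16580312) (l 16572800))))))), by decide +kernel⟩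

def k174_A00pm_102_s1 : ∃ t, chk3 f_A00pm_102_s1 t 31 38 3 = true :=
  ⟨(a (b (a (c (b (c (l 16665456) (l 16669512)) (l 16664576)) (c (a (l 16674784) (l 16667776)) (a (l 16679472) (l 16672576)))) (c (b (a (l 16656400) (l 16648856)) (a (l 16651048) (l 16643528))) (c (b (l 16659232) (l 16654336)) (a (l 16665376) (l 16658000))))) (c (a (b (l 16656440) (b (l 16652280) (l 16649392))) (b (a (l 16645672) (l 16638248)) (c (l 16634080) (l 16639152)))) (a (b (a (l 16669616) (l 16662856)) (b (l 16667840) (a (l 16663080) (l 16656480)))) (b (a (l 16655824) (l 16648560)) (b (l 16648744) (a (l 16649608) (l 16642496))))))) (b (c (a (b (a (l 16641192) (l 16633504)) (a (l 16635904) (l 16628192))) (a (b (l 16625776) (l 16620472)) (b (l 16618032) (l 16612744)))) (a (a (b (l 16650248) (l 16645616)) (c (l 16637800) (l 16642832))) (c (a (l 16630112) (l 16622408)) (b (l 16628264) (l 16629136))))) (c (a (b (a (l 16630656) (l 16622984)) (a (l 16625400) (l 16617760))) (b (a (l 16615248) (l 16607528)) (a (l 16610056) (l 16602328))))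 (c (a (b (l 16634560) (b (l 16631096) (l 16628480))) (b (l 16619240) (b (l 16615840) (l 16613304)))) (a (b (l 16640144) (b (l 16637000) (l 16623968))) (b (l 16624920) (a (l 16613952) (l 16606344)))))))), by decide +kernel⟩

def k175_A00pm_102_s1 : ∃ t, chk3 f_A00pm_102_s1 t 31 39 3 = true :=
  ⟨(a (b (b (c (a (c (l 16642368) (l 16646824)) (a (l 16634064) (l 16626816))) (a (c (l 16651584) (a (l 16659872) (l 16653392))) (a (l 16643952) (l 16636880)))) (c (a (b (l 16650160) (l 16646904)) (a (l 16627680) (l 16620512))) (a (c (a (l 16647464) (l 16640904)) (a (l 16651848) (l 16645432))) (c (l 16625328) (a (l 16638720) (l 16631752)))))) (b (c (a (a (l 16624336) (l 16628160)) (c (l 16616008) (l 16609056))) (a (c (a (l 16640056) (l 16633576)) (b (l 16637464) (l 16633496))) (c (a (l 16626824) (l 16619840)) (a (l 16630872) (l 16623952))))) (c (a (c (l 16623520) (a (l 16629616) (l 16623104))) (c (l 16609864) (a (l 16616352) (l 16609384)))) (a (c (a (l 16632656) (l 16626256)) (a (l 16635928) (l 16629648))) (c (a (l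 16619584) (l 16612672)) (a (l 16623064) (l 16616216))))))) (c (b (a (c (b (l 16613264) (l 16607384)) (a (l 16597584) (l 16595328))) (c (b (l 16597888) (l 16592128)) (a (l 16587680) (b (l 16598920) (l 16592528))))) (b (a (a (l 16606928) (l 16599520)) (a (c (l 16590216) (l 16593840)) (c (l 16582592) (l 16586216)))) (c (a (l 16595504) (a (l 16584392) (l 16576856))) (a (a (l 16602224) (l 16594904)) (a (l 16587456) (l 16579904)))))) (b (c (a (b (l 16612704) (a (l 16619768) (l 16612336))) (b (a (l 16611824) (l 16604160)) (a (l 16604768) (l 16597096)))) (a (b (a (l 16632368) (l 16624944)) (a (l 16624552) (l 16617168))) (b (a (l 16617376) (l 16609760)) (a (l 16609632) (l 16601984))))) (a (b (c (a (l 16612640) (l 16605272)) (a (l 16616808) (l 16609472))) (a (c (l 16605544) (l 16609128)) (c (l 16598240) (l 16601840)))) (b (c (a (l 16597760) (l 16590136)) (a (l 16601976) (l 16594360))) (c (a (l 16590784) (l 16583224)) (a (l 16594384) (b (l 16588688) (l 16584936))))))))), by decide +kernel⟩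

def k176_A00pm_102_s1 : ∃ t, chk3 f_A00pm_102_s1 t 24 80 2 = true :=
  ⟨(a (a (l 3) (b (l 3) (b (l 3) (c (c (b (a (l 3) (l 530286223)) (l 529703055)) (l 530342543)) (l 530932879))))) (b (c (b (l 3) (b (a (l 3) (a (l 3) (c (a (b (l 3) (c (l 530422927) (l 530667663))) (b (c (l 530477455) (l 530715023)) (c (l 530450319) (l 530692751)))) (a (b (l 3) (l 531045263)) (l 530537503))))) (a (l 3) (a (c (c (l 530369679) (l 530625167)) (l 531019407)) (c (a (l 530527375) (b (l 530550415) (l 530539407))) (a (l 531043215) (l 531051663))))))) (b (l 3) (a (l 3) (a (b (l 3) (l 531265679)) (b (a (b (l 3) (l 531012751)) (b (l 531292303) (l 531023759))) (a (l 531278991) (l 531022991))))))) (c (a (b (c (b (a (l 3) (l 530425999)) (l 530108815)) (l 530421135)) (c (b (l 529816719) (l 530333071)) (l 530949007))) (b (a (c (l 529919119) (l 531008143)) (c (a (l 530487695) (l 530508431)) (l 531043727))) (c (b (l 529912207) (l 530422415)) (l 531024783)))) (a (b (l 530700175) (l 531234191)) (b (a (l 531263119) (b (l 531011215) (l 531276687)))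 (l 530318735)))))), by decide +kernel⟩

def k177_A00pm_102_s1 : ∃ t, chk3 f_A00pm_102_s1 t 25 80 2 = true :=
  ⟨(b (a (b (c (c (a (b (a (b (l 3) (l 530177935)) (l 530774927)) (a (l 530135695) (l 530719375))) (l 530008719)) (a (b (l 531192719) (l 531156879)) (l 531250319))) (a (b (l 530792847) (l 531330703)) (l 531390095))) (a (c (c (b (b (l 530655631) (a (l 530339471) (l 530654863))) (a (l 530041743) (l 530623887))) (b (a (l 530568335) (l 531144591)) (l 531103375))) (b (c (l 531352463) (l 531032463)) (a (l 531314319) (l 531345807)))) (b (c (l 530161807) (l 531391119)) (c (l 530395791) (l 531390607))))) (c (b (a (l 530572175) (l 531185551)) (c (l 530042767) (l 531300239))) (b (l 531474575) (l 530938255)))) (b (a (c (c (a (b (l 530031247) (l 530542479)) (l 530644367)) (a (b (l 531087503) (l 531080079)) (l 531154831))) (a (b (l 531327119) (l 531323535)) (l 531387023))) (c (a (l 530979471) (l 531061135)) (l 531472015))) (a (a (c (c (l 529975951) (l 531076495)) (l 531317391)) (c (l 530866319) (l 531379087)))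 (c (l 530045071) (l 531464847))))), by decide +kernel⟩

def k178_A00pm_102_s1 : ∃ t, chk3 f_A00pm_102_s1 t 13 80 2 = true :=
  ⟨(a (b (a (b (a (l 531124367) (l 531725455)) (c (l 531226511) (l 531580047))) (c (l 531402383) (l 531675279))) (a (c (b (l 531176847) (l 531144591)) (l 531572111)) (c (a (l 16746048) (l 16741936)) (l 531666831)))) (b (b (a (l 530307871) (a (l 16718344) (l 16714104))) (a (a (l 16744840) (l 16719832)) (a (l 16715712) (l 16711504)))) (a (c (a (l 16722024) (l 16717752)) (a (l 16740016) (l 16735768))) (b (a (l 16713144) (a (l 16710016) (c (l 16714960) (l 16716384)))) (c (a (l 16717208) (a (b (l 16714704) (l 16713720)) (l 16713576))) (a (l 16730040) (a (l 16716032) (l 16723648)))))))), by decide +kernel⟩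

def k179_A00pm_102_s1 : ∃ t, chk3 f_A00pm_102_s1 t 24 80 3 = true :=
  ⟨(a (a (l 3) (b (l 3) (b (l 3) (c (l 531395359) (b (l 530883727) (l 530858895)))))) (b (c (b (l 3) (a (l 3) (a (b (l 3) (l 531137423)) (b (a (b (l 3) (b (l 531145615) (l 531141775))) (c (l 531464479) (b (l 531092623) (l 531086479)))) (a (l 531134095) (b (l 531139215) (l 531131535))))))) (a (l 3) (b (l 3) (a (b (l 3) (l 530865807)) (b (a (b (l 3) (b (b (l 3) (l 530871695)) (l 530866319))) (b (c (l 530955407) (a (l 530787983) (l 530784911))) (c (l 530944911) (c (l 530817423) (b (l 530727055) (l 530718095)))))) (a (l 530847631) (b (a (l 530847375) (l 530845839)) (l 530830991)))))))) (b (a (c (b (l 531134863) (l 531124623)) (b (l 531145359) (l 530849935))) (a (c (l 531120271) (l 530822943)) (a (b (l 530988575) (l 530968975)) (c (l 531382927) (b (l 530807695) (l 530777231)))))) (a (c (l 531109407) (b (l 530823055) (l 530796687))) (a (l 530684703) (b (l 530672671) (l 530926479))))))), by decide +kernel⟩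

def k180_A00pm_102_s1 : ∃ t, chk3 f_A00pm_102_s1 t 25 80 3 = true :=
  ⟨(b (a (a (b (c (b (a (l 531172239) (l 531183759)) (l 531168911)) (c (a (b (l 530988431) (l 530967951)) (l 530975375)) (a (b (a (l 3) (l 530828175)) (l 530799759)) (l 530803999)))) (b (b (c (l 531162255) (l 530864527)) (a (c (b (l 531154063) (l 531151503)) (b (l 530859151) (l 530852495))) (l 530753167))) (a (c (b (l 531147151) (l 531140751)) (b (c (l 530930575) (l 530744719)) (l 530826383))) (c (l 531154831) (l 530826639))))) (b (c (l 531195279) (b (l 530897551) (l 530870159))) (b (c (l 531180687) (l 530842767)) (c (l 531169935) (l 530814863))))) (b (a (a (l 530789007) (l 530791823)) (l 531064463)) (c (a (l 531195023) (l 531214735)) (a (l 531351839) (l 530802575))))) (a (c (a (b (a (b (l 531130255) (l 531116175)) (l 531403151)) (l 530832271)) (b (l 530881679) (l 531121807))) (a (b (b (a (b (l 530811023) (l 530795151)) (l 530796431)) (a (l 530771599) (l 530765455))) (a (l 530725263) (l 530718095))) (b (b (l 530784911) (l 530754447))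 (l 530975887)))) (c (b (l 530909839) (l 530880911)) (b (a (l 530754447) (l 530740879)) (a (l 530692495) (l 530678159)))))), by decide +kernel⟩

def k181_A00pm_102_s1 : ∃ t, chk3 f_A00pm_102_s1 t 13 80 3 = true :=
  ⟨(a (b (a (b (a (l 531070863) (l 531078543)) (c (l 530974607) (l 531592591))) (b (l 531090575) (l 531041935))) (a (c (a (l 531189903) (l 16755392)) (b (l 530722959) (l 530658447))) (b (a (l 16745984) (l 16741192)) (a (l 16742696) (l 16716888))))) (c (b (a (a (l 16721752) (l 16716952)) (a (l 16711984) (l 16706848))) (a (a (l 16715616) (l 16710752)) (b (a (l 16728264) (a (l 16724392) (l 16711160))) (a (l 16725088) (a (l 16710600) (l 16718064)))))) (a (b (a (l 16739488) (l 16734096)) (a (l 16732272) (l 16705752))) (a (b (l 16707520) (b (l 16722856) (l 16719040))) (b (b (l 16724576) (l 16720768)) (b (a (l 16718432) (l 16704896)) (a (l 16704040) (l 16721864)))))))), by decide +kernel⟩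

def k182_A00pm_102_s1 : ∃ t, chk3 f_A00pm_102_s1 t 12 81 2 = true :=
  ⟨(a (b (a (c (c (b (a (b (a (l 3) (l 529610383)) (c (l 529932687) (l 530275471))) (b (l 530220431) (l 530204303))) (a (b (l 529282335) (a (l 529513359) (l 530104207))) (b (l 530191503) (l 530182287)))) (b (a (l 529996319) (l 530878351)) (b (l 530843279) (l 530849679)))) (b (a (l 531168143) (l 531199631)) (b (l 531182479) (l 531181711)))) (c (b (a (c (l 530040719) (l 530950287)) (l 529364623)) (a (l 529010575) (l 530704783))) (b (a (l 531230863) (l 531262607)) (a (l 531227023) (l 531256975))))) (a (b (c (c (a (b (l 529531791) (l 530064271)) (l 529907855)) (l 530329487)) (a (l 531167119) (l 531194767))) (c (c (a (l 528991263) (l 529375887)) (l 529821727)) (b (l 531179151) (l 531177871)))) (c (b (c (l 529522063) (l 531018639)) (c (l 529532303) (l 531054735))) (b (l 531235727) (l 531229327))))) (a (b (c (b (a (l 529974415) (l 530852495)) (a (l 530780815) (l 530853007))) (a (b (l 531308431) (l 531298703)) (l 531362191))) (c (c (b (l 529972879)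 (l 530526863)) (a (l 531155343) (l 531216527))) (b (l 531316367) (l 531303567)))) (b (c (c (l 529343519) (l 531253647)) (b (l 531454863) (l 531442831))) (c (c (b (l 530684559) (l 529898127)) (l 531297567)) (a (l 531394335) (l 16748160)))))), by decide +kernel⟩

def k183_A00pm_102_s1 : ∃ t, chk3 f_A00pm_102_s1 t 13 81 2 = true :=
  ⟨(c (b (a (a (c (a (l 530562191) (l 16732112)) (l 531394959)) (a (c (l 16728008) (l 16741784)) (l 16720352))) (a (c (a (l 16719568) (b (l 16706248) (l 16713784))) (a (l 16733928) (l 16719488))) (a (b (a (l 16704984) (b (l 16714104) (a (l 16713344) (l 16712928)))) (a (b (l 16713584) (a (l 16712912) (l 16712608))) (c (l 16710464) (l 16725384)))) (b (a (b (l 16713152) (l 16723392)) (l 16723496)) (l 16722952))))) (a (b (a (a (l 16743608) (l 16739792)) (a (l 16714928) (l 16721456))) (a (a (l 16740808) (l 16726568)) (a (l 16722744) (a (l 16709344) (l 16717872))))) (c (a (a (b (l 16715216) (b (l 16713160) (a (l 16723360) (a (l 16721824) (l 16715776))))) (b (a (l 16712096) (a (b (l 16721632)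 (l 16710264)) (b (l 16720912) (l 16720616)))) (a (b (a (l 16721168) (l 16710168)) (a (l 16720640) (l 16720608))) (l 16710080)))) (a (b (l 16710160) (l 16720472)) (l 16718896))) (a (a (b (l 16730176) (l 16717456)) (b (a (l 16727264) (l 16725848)) (a (l 16720560) (l 16724912)))) (a (b (l 16724280) (l 16720768)) (l 16716656)))))) (a (b (a (a (l 16750232) (l 16746496)) (a (l 16742648) (l 16738672))) (a (a (l 16744568) (l 16730368)) (a (l 16726528) (b (l 16734472) (l 16731616))))) (a (b (a (l 16724088) (b (l 16731704) (l 16718456))) (b (a (l 16730376) (a (l 16716704) (b (l 16715200) (l 16713560)))) (a (c (l 16718112) (l 16715792)) (a (b (l 16714448) (l 16712736)) (l 16721344))))) (b (a (b (a (l 16728440) (l 16715576)) (a (a (l 16715680) (l 16714408)) (l 16722752))) (c (l 16726448) (b (l 16709872) (l 16716744)))) (a (c (l 16725384) (b (l 16719256) (l 16715584))) (l 16717968)))))), by decide +kernel⟩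

def k184_A00pm_102_s1 : ∃ t, chk3 f_A00pm_102_s1 t 12 81 3 = true :=
  ⟨(a (b (a (b (c (a (l 531132703) (l 531109007)) (a (l 530891039) (l 530821263))) (c (b (l 531107983) (l 531099791)) (b (l 530819471) (l 530795919)))) (b (a (c (l 531088527) (l 530757007)) (c (l 531071375) (l 530698127))) (a (c (l 531068047) (l 530705551)) (l 530601759)))) (a (b (c (a (l 531370639) (l 531073423)) (a (l 530799135) (l 530724239))) (c (b (l 531074703) (l 531065999)) (b (l 530726031) (l 530971791)))) (b (c (l 531303967) (a (l 530655631) (l 530592143))) (a (b (l 530853263) (l 530836879)) (l 530530335))))) (b (a (a (c (b (l 531072143) (l 531043983)) (b (l 531197839) (l 530602127))) (b (l 530889103) (l 530844815))) (c (b (l 530850447) (l 530818959)) (b (l 531427727) (l 530829967)))) (b (a (a (c (l 531016079) (l 530545807)) (l 530801039)) (a (l 530801295) (l 530801295))) (a (a (l 530497055) (l 530490655)) (a (l 530825103) (l 530758687)))))), by decide +kernel⟩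

def k185_A00pm_102_s1 : ∃ t, chk3 f_A00pm_102_s1 t 13 81 3 = true :=
  ⟨(b (a (c (a (a (l 16748208) (l 16733488)) (a (l 16718608) (l 16714040))) (a (a (l 530840351) (l 16740576)) (a (l 16735552) (l 16730304)))) (a (a (c (l 16709296) (b (l 16726712) (l 16722944))) (c (b (l 16726952) (a (l 16724976) (l 16722448))) (b (l 16721056) (a (l 16718680) (l 16715752))))) (a (c (b (a (l 16723160) (l 16715224)) (a (b (l 16720688) (l 16718928)) (l 16716856))) (b (a (l 16716672) (l 16708416)) (a (l 16707536) (c (l 16711608) (l 16707720))))) (c (b (a (l 16717496) (l 16714296)) (l 16712120)) (b (a (l 16721032) (l 16707352)) (l 16715432)))))) (c (a (a (a (l 16731424) (l 16727152)) (b (a (l 16734800) (l 16730192)) (a (l 16731568) (l 16726936)))) (a (a (b (l 16725408) (c (l 16713104) (l 16710048))) (b (a (l 16721696) (b (l 16719952) (l 16718168))) (a (b (l 16719144) (l 16717320)) (l 16715344)))) (a (b (a (l 16716136) (l 16713072)) (l 16710816)) (b (l 16708336) (l 16704544))))) (a (a (a (l 16738208) (l 16733288)) (b (a (l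 16730016) (l 16724688)) (a (l 16726288) (l 16720912)))) (a (a (b (l 16708648) (a (l 16716736) (l 16708632))) (b (a (l 16704344) (l 16706632)) (a (c (l 16712904) (l 16708920)) (l 16707960)))) (a (b (a (l 16708840) (l 16705736)) (l 16713832)) (b (l 16700968) (l 16697000))))))), by decide +kernel⟩

def k186_A00pm_102_s1 : ∃ t, chk3 f_A00pm_102_s1 t 12 82 2 = true :=
  ⟨(a (b (a (b (c (c (c (l 528774687) (l 530377615)) (l 530977423)) (b (l 531175567) (l 531172495))) (c (c (b (l 530280079) (l 530365327)) (l 531087503)) (b (l 531168399) (l 531163535)))) (c (b (c (l 530386319) (l 531122063)) (c (l 530494863) (l 531225231))) (b (l 531220623) (l 531207311)))) (b (a (a (b (l 529494303) (l 531104287)) (b (l 529812367) (l 531151391))) (c (a (l 530982943) (l 16739936)) (a (l 16754352) (l 16751184)))) (a (c (a (c (l 16755896) (l 16757000)) (l 16754056)) (a (l 16757256) (l 16754344))) (c (a (l 16740752) (l 16737808)) (a (l 16751304) (l 16748128)))))) (b (b (a (c (a (l 530878095) (l 16748872)) (l 531288207)) (c (a (l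 16745368) (l 16741800)) (l 531394335))) (a (c (a (l 16749640) (l 16746288)) (a (l 16750936) (l 16747640))) (c (a (l 16732352) (l 16728848)) (a (l 16744280) (l 16740824))))) (a (b (c (a (l 16736752) (l 16733456)) (a (l 16747912) (l 16744616))) (c (a (l 16734664) (l 16731424)) (a (l 16744848) (l 16741536)))) (a (b (c (l 16730072) (l 16741256)) (c (l 16728072) (l 16727688))) (b (c (l 16726616) (l 16737800)) (c (a (l 16725512) (l 16723784)) (l 16724240))))))), by decide +kernel⟩

def k187_A00pm_102_s1 : ∃ t, chk3 f_A00pm_102_s1 t 26 164 2 = true :=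
  ⟨(c (c (c (b (a (a (l 16735168) (l 16731264)) (a (l 16727304) (l 16712792))) (a (a (l 16732480) (l 16728648)) (a (l 16714272) (a (b (l 16722400) (a (l 16721704) (l 16720872))) (b (a (l 16720944) (b (l 16720296) (l 16720056))) (a (b (l 16720320) (l 16720352)) (l 16720216))))))) (b (a (a (l 16737160) (l 16733400)) (a (l 16729576) (l 16715200))) (a (a (l 16734656) (l 16730960)) (a (l 16716720) (a (l 16719216) (b (l 16717960) (l 16717624))))))) (a (a (l 16728600) (l 16725096)) (a (l 16721512) (b (l 16718928) (a (l 16717888) (a (l 16722008) (l 16721528))))))) (a (b (a (l 16740208) (l 16736504)) (a (l 16737240) (l 16723056))) (c (a (l 16721616) (b (l 16729728) (b (l 16717032) (a (l 16727048) (l 16724864))))) (a (l 16719720) (b (l 16727584) (a (l 16725560) (l 16723304))))))), by decide +kernel⟩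

def k188_A00pm_102_s1 : ∃ t, chk3 f_A00pm_102_s1 t 26 165 2 = true :=
  ⟨(a (c (c (c (c (a (b (l 16729480) (l 16716808)) (b (l 16715184) (a (l 16724512) (b (l 16723104) (a (b (l 16722816) (l 16722584)) (b (l 16722120) (l 16722328))))))) (a (b (l 16730632) (l 16718032)) (b (l 16726896) (a (l 16725792) (b (l 16724392) (a (l 16724072) (l 16723544))))))) (c (a (b (l 16731808) (l 16719280)) (b (l 16728128) (a (l 16727080) (b (l 16725696) (a (l 16725392) (l 16724872)))))) (a (b (l 16732992) (l 16731024)) (b (l 16718896) (a (l 16717896) (b (l 16727016) (l 16726536))))))) (a (b (l 16736008) (l 16733088)) (b (l 16722088) (b (l 16720072) (a (l 16729920) (l 16728160)))))) (a (b (l 16723744) (a (l 16721576) (l 16719760))) (b (l 16720040) (b (a (l 16729168) (l 16727288)) (a (l 16727616) (a (l 16726176) (l 16727760))))))) (c (c (a (b (c (a (l 16718224) (b (l 16716856) (a (b (l 16721744) (l 16721536)) (b (l 16721176) (l 16721368))))) (a (l 16715544) (b (l 16724688) (b (l 16718904) (l 16718840))))) (a (b (a (b (l 16713408)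 (a (l 16718496) (l 16718272))) (b (a (l 16718072) (l 16717864)) (l 16712928))) (l 16713456)) (b (l 16712624) (l 16723688)))) (b (a (b (a (b (l 16717032) (l 16716912)) (a (l 16711504) (l 16711464))) (l 16711928)) (l 16711552)) (l 16723040))) (a (b (a (l 16719512) (b (l 16728688) (l 16727648))) (a (b (l 16727936) (l 16726160)) (l 16724928))) (b (a (b (l 16727288) (l 16725496)) (l 16724112)) (l 16721536)))) (c (a (b (a (l 16728616) (b (l 16727488) (l 16720624))) (a (b (l 16726264) (l 16724448)) (l 16723096))) (b (a (b (l 16725408) (l 16723576)) (l 16722080)) (l 16719504))) (a (b (a (l 16726592) (l 16724472)) (a (b (l 16724152) (l 16722304)) (l 16720848))) (b (a (l 16722168) (l 16719640)) (l 16717088)))))), by decide +kernel⟩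

def k189_A00pm_102_s1 : ∃ t, chk3 f_A00pm_102_s1 t 27 82 2 = true :=
  ⟨(b (b (c (a (a (a (c (b (l 16711640) (c (a (l 16720256) (l 16719744)) (l 16717344))) (l 16721680)) (b (a (b (l 16713048) (l 16712848)) (l 16712744)) (l 16712896))) (a (l 16712680) (l 16722392))) (a (l 16718336) (l 16712568))) (c (a (a (a (l 16716208) (l 16724368)) (l 16720368)) (a (l 16714712) (l 16708696))) (a (a (a (l 16724304) (l 16721840)) (l 16717696)) (l 16729792)))) (c (a (a (a (b (a (b (l 16713224) (l 16713328)) (l 16713184)) (l 16713448)) (l 16713136)) (l 16720112)) (l 16711896)) (a (a (c (l 16722016) (l 16729960)) (l 16694392)) (a (l 16709616) (l 16703536))))) (a (a (b (c (l 16721456) (a (l 16718344) (l 16715704))) (c (l 16717720) (l 16713200))) (c (l 16714560) (b (l 16711592) (l 16707752)))) (c (l 16706320) (a (l 16703904) (l 16697824))))), by decide +kernel⟩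

def k190_A00pm_102_s1 : ∃ t, chk3 f_A00pm_102_s1 t 12 82 3 = true :=
  ⟨(a (b (a (b (c (a (l 531069983) (l 531035023)) (a (l 530713119) (l 530902671))) (b (c (l 531036303) (l 530914703)) (c (l 531293583) (l 531167263)))) (a (b (b (l 530820751) (l 530805135)) (b (l 530789775) (l 530774671))) (b (l 530496287) (l 530464031)))) (b (b (a (c (l 531819151) (l 531151903)) (a (l 531296911) (l 16749720))) (a (a (l 530863647) (l 531071007)) (a (l 530746143) (l 16748048)))) (b (a (c (l 530990623) (l 531662111)) (a (l 16750136) (l 16746368))) (a (a (c (l 16756016) (l 16754664)) (l 16752072)) (a (l 16748488) (l 16744696)))))) (b (a (b (a (l 530460191) (l 530583839)) (a (a (l 16749328) (l 16747368)) (a (l 16745392) (l 16743384)))) (b (a (l 530583071) (a (l 16740560) (l 16738384))) (a (a (l 16741344) (l 16739256)) (a (l 16737120) (l 16734936))))) (a (b (a (a (l 16745968) (l 16743984)) (a (l 16741984) (l 16739952))) (a (c (l 16742984) (l 16739888)) (a (l 16738560) (l 16736504)))) (b (a (a (l 16737896) (l 16735800)) (a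 (l 16733656) (l 16731456))) (a (a (l 16734432) (l 16732328)) (a (l 16730168) (l 16727968))))))), by decide +kernel⟩

def k191_A00pm_102_s1 : ∃ t, chk3 f_A00pm_102_s1 t 13 82 3 = true :=
  ⟨(a (b (c (b (a (a (l 16737072) (l 16732776)) (a (l 16728296) (l 16718400))) (a (a (l 16733800) (l 16729480)) (a (l 16724984) (a (b (l 16722336) (l 16720648)) (b (l 16719912) (l 16723360)))))) (b (a (a (l 16732704) (l 16727728)) (a (l 16722528) (l 16711864))) (a (a (l 16729008) (l 16723992)) (a (l 16713520) (a (l 16709456) (b (l 16712864) (l 16716200))))))) (a (c (a (b (l 16730488) (l 16721904)) (b (l 16726152) (a (l 16718664) (b (l 16722528) (b (l 16721248) (l 16720344)))))) (a (b (l 16725304) (l 16716368)) (b (l 16715016) (a (b (l 16718760) (l 16716912)) (c (l 16716992) (l 16713408)))))) (a (c (b (a (l 16717544) (c (l 16716632) (l 16718880))) (a (b (a (l 16720816) (l 16719608)) (l 16718328)) (l 16727216))) (b (a (b (l 16717280) (l 16715400)) (c (l 16715488) (l 16711720))) (a (b (c (l 16715344) (l 16711624)) (l 16711664))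 (b (l 16710824) (l 16708952))))) (b (c (a (b (a (l 16719520) (l 16718232)) (l 16716984)) (l 16715256)) (a (b (a (l 16712544) (l 16711160)) (l 16709960)) (l 16708096))) (c (l 16723248) (l 16716200)))))) (b (a (a (b (c (a (b (l 16720864) (l 16719128)) (b (l 16718264) (l 16716392))) (a (b (l 16713864) (l 16711944)) (b (l 16710984) (l 16709048)))) (a (b (c (l 16717288) (l 16710024)) (l 16711928)) (b (l 16710984) (l 16709064)))) (b (c (l 16723504) (a (l 16707064) (l 16704056))) (a (l 16707096) (l 16704112)))) (a (c (l 16705104) (b (l 16699424) (l 16695528))) (c (l 16698816) (l 16691096)))) (a (a (b (c (l 16711112) (l 16703776)) (l 16703776)) (b (l 16701760) (l 16697896))) (a (b (l 16695648) (l 16691776)) (l 16687336))))), by decide +kernel⟩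

def k192_A00pm_102_s1 : ∃ t, chk3 f_A00pm_102_s1 t 24 166 16 = true :=
  ⟨(b (a (a (l 16753328) (l 16750176)) (a (l 16746968) (l 16743688))) (b (a (l 16749752) (l 16739000)) (a (l 16748248) (l 16737488)))), by decide +kernel⟩

def k193_A00pm_102_s1 : ∃ t, chk3 f_A00pm_102_s1 t 25 166 32 = true :=
  ⟨(c (c (a (b (a (l 16728952) (l 16735936)) (a (l 16737936) (l 16734368))) (a (b (l 16732328) (b (l 16731088) (l 16725136))) (b (l 16723400) (b (a (l 16728296) (b (l 16726640) (l 16726480))) (a (b (l 16727824) (l 16722784)) (l 16727208)))))) (a (b (a (l 16729208) (l 16736200)) (a (l 16738200) (l 16734648))) (a (b (l 16732616) (a (l 16731920) (l 16730136))) (b (l 16728944) (b (a (l 16728608) (b (l 16726952) (l 16726792))) (a (b (l 16728136) (l 16728344)) (l 16727520))))))) (c (a (b (a (l 16739952) (l 16725992)) (a (l 16738464) (l 16734928))) (a (b (l 16732904) (a (l 16732216) (l 16730440))) (b (l 16729248) (b (a (l 16728920) (b (l 16727272) (l 16727112))) (a (b (l 16728448) (l 16728656)) (l 16727832)))))) (a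 (b (a (l 16740208) (l 16726264)) (a (l 16738736) (l 16735216))) (a (b (l 16733192) (a (l 16732512) (l 16730744))) (b (l 16729552) (b (a (l 16729224) (b (l 16727584) (l 16727432))) (a (b (l 16728768) (l 16728968)) (l 16728144)))))))), by decide +kernel⟩

def k194_A00pm_102_s1 : ∃ t, chk3 f_A00pm_102_s1 t 25 166 33 = true :=
  ⟨(c (c (a (b (a (l 16740464) (l 16726536)) (a (l 16739000) (l 16735504))) (a (b (l 16723000) (a (l 16732808) (l 16731056))) (b (l 16729864) (b (a (l 16729536) (b (l 16727904) (l 16727752))) (a (b (l 16729080) (l 16729280)) (l 16728456)))))) (a (b (l 16733784) (a (l 16739264) (l 16735784))) (a (b (l 16723288) (b (l 16722104) (l 16731896))) (b (l 16719688) (b (l 16729120) (a (b (l 16729400) (l 16729592)) (l 16728768))))))) (c (a (b (l 16734048) (a (l 16739320) (l 16736072))) (a (b (l 16723576) (a (l 16733408) (l 16731672))) (b (l 16719992) (b (l 16729440) (a (b (l 16724472) (l 16729912)) (l 16729088)))))) (a (b (l 16734320) (a (l 16739328) (l 16736360))) (a (b (l 16734360) (b (l 16733192)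 (l 16732512))) (b (l 16720304) (b (l 16729752) (b (l 16732216) (l 16729528)))))))), by decide +kernel⟩

def k195_A00pm_102_s1 : ∃ t, chk3 f_A00pm_102_s1 t 12 166 17 = true :=
  ⟨(a (b (a (a (l 16753648) (l 16750928)) (a (l 16748144) (l 16745288))) (b (a (l 16750016) (l 16744424)) (a (l 16748496) (l 16742904)))) (c (c (a (b (l 16734720) (a (l 16739344) (l 16736496))) (a (b (l 16734800) (l 16728088)) (b (l 16731256) (b (l 16730232) (b (l 16732696) (l 16729480)))))) (c (a (b (l 16735120) (a (l 16739360) (l 16736488))) (a (b (l 16735240) (l 16728392)) (b (l 16731720) (b (l 16730712) (b (l 16732936) (l 16729432)))))) (a (b (l 16735392) (a (l 16739360) (l 16736488))) (a (b (l 16735536) (l 16728376)) (b (l 16732032) (b (l 16731032) (a (l 16730648) (l 16729024)))))))) (c (a (b (l 16735688) (a (l 16739368) (l 16736472))) (a (b (l 16735984) (l 16728344)) (b (l 16732504) (b (l 16731432) (a (l 16730600) (l 16728960)))))) (a (b (l 16735688) (a (l 16739368) (l 16736456))) (a (b (l 16736576) (l 16728304)) (b (l 16733136)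 (b (l 16731360) (a (l 16730536) (l 16728872))))))))), by decide +kernel⟩

def k196_A00pm_102_s1 : ∃ t, chk3 f_A00pm_102_s1 t 12 166 9 = true :=
  ⟨(a (b (a (a (l 16753968) (l 16751200)) (a (l 16748336) (l 16745384))) (b (a (l 16750288) (l 16744544)) (a (l 16748752) (l 16740384)))) (c (c (c (a (b (l 16735680) (a (l 16739368) (l 16736432))) (a (b (l 16736536) (l 16728248)) (b (l 16733568) (b (l 16731280) (a (l 16730456) (l 16728776)))))) (a (b (l 16735664) (a (l 16728872) (l 16736400))) (a (b (l 16736488) (l 16728192)) (b (l 16733488) (b (l 16731192) (a (b (l 16730816) (l 16729960)) (l 16728680))))))) (c (a (b (l 16740888) (a (l 16728856) (l 16725872))) (a (b (l 16736424) (l 16728128)) (b (l 16733400) (b (l 16725856) (a (b (l 16730728) (l 16729872)) (l 16728576)))))) (a (b (l 16740864) (b (l 16728080) (l 16726544))) (a (b (l 16736368) (b (l 16734072) (l 16732528))) (b (l 16733312) (b (l 16725760) (a (l 16730192) (l 16728456)))))))) (c (c (a (b (l 16740832) (b (l 16728048) (l 16726504))) (a (b (l 16736296)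 (l 16727976)) (b (l 16722728) (b (l 16725656) (a (b (l 16730536) (l 16729664)) (l 16728336)))))) (a (b (l 16740792) (b (l 16728000) (l 16726456))) (a (b (l 16736216) (l 16727896)) (b (l 16733104) (b (l 16730784) (a (b (l 16730424) (l 16729560)) (l 16728208))))))) (a (b (b (l 16731008) (l 16729472)) (b (l 16727928) (l 16726376))) (a (b (l 16736096) (a (l 16733784) (l 16721736))) (b (l 16732936) (b (l 16730600) (a (b (l 16730256) (l 16729376)) (l 16728008))))))))), by decide +kernel⟩

def k197_A00pm_102_s1 : ∃ t, chk3 f_A00pm_102_s1 t 12 166 5 = true :=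
  ⟨(a (b (a (a (l 16754192) (l 16751272)) (a (l 16748216) (l 16745024))) (b (a (a (l 16751864) (l 16748928)) (a (l 16745864) (l 16742664))) (a (a (l 16750296) (l 16747360)) (a (l 16744288) (l 16741088))))) (c (c (c (a (b (a (l 16742208) (l 16739064)) (b (l 16727808) (l 16726248))) (a (b (l 16735904) (a (l 16733592) (l 16721512))) (b (l 16732688) (b (l 16725096) (a (l 16734784) (l 16727720)))))) (a (b (a (l 16742104) (l 16738912)) (b (l 16727664) (l 16726096))) (a (b (l 16735688) (b (l 16733352) (l 16731776))) (b (l 16732408) (b (l 16730048) (a (l 16729256) (l 16727400))))))) (c (a (b (a (l 16741976) (l 16738728)) (b (l 16727496) (l 16725920))) (a (b (l 16735448) (l 16727056)) (b (l 16732104) (b (l 16729728) (a (l 16728944) (l 16727056)))))) (a (b (a (l 16741824) (l 16738520)) (a (l 16738672) (l 16735368))) (a (b (l 16735192) (l 16726776)) (b (l 16731776) (b (l 16729384) (a (l 16728608) (l 16726688)))))))) (c (c (a (b (a (l 16741648) (l 16738296)) (a (l 16738488) (l 16735120))) (a (b (l 16734904) (l 16726472))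 (b (l 16731424) (b (l 16729016) (a (l 16728248) (l 16726288)))))) (a (b (a (l 16741456) (l 16738048)) (a (l 16738280) (l 16734856))) (a (b (l 16734592) (l 16726136)) (b (l 16731048) (b (l 16728616) (a (l 16727856) (l 16725872))))))) (c (a (b (a (l 16741248) (l 16737776)) (a (l 16738048) (l 16734560))) (a (b (l 16734256) (l 16725776)) (b (l 16730640) (b (l 16728200) (a (l 16727448) (l 16725424)))))) (a (b (a (l 16741008) (l 16737480)) (a (l 16737792) (l 16734248))) (a (b (l 16733896) (l 16725400)) (b (l 16730208) (b (l 16727752) (a (l 16727008) (l 16724960)))))))))), by decide +kernel⟩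

def k198_A00pm_102_s1 : ∃ t, chk3 f_A00pm_102_s1 t 12 166 3 = true :=
  ⟨(a (b (a (c (a (l 16753656) (l 16750432)) (a (l 16741728) (l 16738096))) (c (a (l 16736536) (l 16732952)) (a (l 16744736) (l 16740648)))) (b (a (c (a (l 16751272) (l 16748024)) (a (l 16749792) (l 16746120))) (c (a (l 16744600) (l 16740984)) (a (l 16742224) (l 16738096)))) (a (a (l 16743800) (l 16740328)) (a (l 16736656) (a (l 16739016) (l 16737024)))))) (c (c (c (c (a (b (a (l 16740752) (l 16737168)) (a (l 16737520) (l 16733912))) (a (b (l 16733512) (l 16724992)) (b (l 16729760) (b (l 16727280) (a (l 16726544) (l 16724464)))))) (a (b (a (l 16740480) (l 16736824)) (a (l 16737224) (l 16733552))) (a (b (l 16733104) (b (l 16730640) (l 16728984))) (b (l 16729280) (b (l 16726784) (a (l 16726056) (l 16723944))))))) (a (b (a (l 16740024) (l 16736280)) (a (l 16736744) (l 16732976))) (a (b (l 16732456) (b (l 16729960) (l 16728288))) (b (l 16728512) (b (l 16725992) (a (l 16725280) (l 16723128))))))) (a (b (a (l 16738984) (l 16735032)) (a (l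 16735648) (l 16731664))) (a (b (l 16731000) (b (l 16728440) (l 16726736))) (b (l 16726824) (b (a (l 16725328) (l 16723168)) (a (l 16723568) (l 16721320))))))) (a (b (a (l 16736376) (l 16731992)) (b (a (l 16733776) (l 16729352)) (a (l 16732056) (l 16727600)))) (a (b (l 16717000) (b (l 16724808) (a (l 16724184) (l 16721864)))) (b (l 16717576) (b (a (l 16721312) (l 16718912)) (a (b (l 16719960) (l 16719056)) (b (l 16717552) (l 16716640))))))))), by decide +kernel⟩

def k199_A00pm_102_s1 : ∃ t, chk3 f_A00pm_102_s1 t 13 166 1 = true :=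
  ⟨(a (a (c (b (a (c (b (a (l 16720760) (b (l 16719208) (l 16718832))) (a (c (c (l 16721368) (l 16729208)) (l 16730136)) (b (a (l 16718904) (b (l 16718248) (l 16718272))) (b (a (l 16718728) (l 16728288)) (l 16717800))))) (b (a (l 16729728) (l 16727904)) (a (l 16728144) (b (l 16726680) (l 16725776))))) (b (a (c (b (a (l 16717904) (b (l 16717216) (l 16717240))) (a (b (l 16717720) (l 16717776)) (l 16717520))) (b (l 16726416) (l 16725536))) (c (b (l 16716904) (l 16726544)) (l 16723792))) (c (a (l 16716608) (l 16725120)) (a (l 16724088) (l 16721840))))) (c (a (b (a (b (a (b (l 16719552) (l 16719136)) (l 16718480)) (l 16717984)) (l 16727096)) (l 16726072)) (l 16723160)) (a (b (a (b (l 16732128) (l 16725928)) (l 16724288)) (l 16723336)) (l 16730424)))) (b (b (a (a (l 16723088) (c (l 16723560) (l 16717608))) (a (c (b (l 16721776) (l 16720872)) (b (l 16715528) (l 16714600))) (c (l 16718912) (l 16712456)))) (a (a (c (l 16724008) (l 16718280)) (c (b (l 16722264) (l 16721336)) (b (l 16716232) (l 16715320)))) (a (c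 (l 16719424) (l 16713216)) (l 16713968)))) (a (b (a (b (c (l 16722688) (l 16716912)) (l 16724296)) (b (l 16717568) (l 16716616))) (a (l 16728104) (l 16715176))) (c (l 16725720) (l 16709144))))) (c (c (b (a (b (l 16723936) (l 16722008)) (l 16718568)) (l 16716776)) (b (a (b (l 16720312) (l 16718344)) (l 16714432)) (a (l 16715280) (l 16710352)))) (a (b (c (l 16724624) (l 16717992)) (l 16717632)) (b (l 16705576) (l 16701704))))) (a (c (c (l 16714456) (b (l 16706544) (l 16702424))) (b (a (l 16699920) (l 16694024)) (l 16693072))) (c (c (l 16698360) (l 16692888)) (b (l 16684696) (l 16680760))))), by decide +kernel⟩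

def k200_A00pm_102_s1 : ∃ t, chk3 f_A00pm_102_s1 t 12 668 2 = true :=
  ⟨(c (a (a (a (l 16748448) (l 16745704)) (a (l 16742896) (l 16740000))) (a (a (l 16737072) (a (l 16734888) (a (l 16733792) (l 16727816)))) (a (a (b (l 16727104) (b (l 16726496) (l 16731280))) (b (a (l 16725976) (l 16730408)) (l 16729840))) (a (l 16728608) (l 16726824))))) (a (a (a (l 16748736) (l 16745784)) (a (l 16742712) (l 16739504))) (a (a (l 16736200) (a (l 16733712) (b (l 16732424) (l 16731624)))) (a (a (b (l 16730728) (b (l 16730096) (l 16729608))) (b (a (l 16729416) (l 16728472)) (l 16727920))) (l 16725424))))), by decide +kernel⟩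

def k201_A00pm_102_s1 : ∃ t, chk3 f_A00pm_102_s1 t 12 669 2 = true :=
  ⟨(b (a (a (a (l 16747544) (l 16739472)) (a (a (l 16742536) (l 16741040)) (a (l 16739528) (l 16727504)))) (a (c (a (l 16735928) (a (b (l 16733936) (l 16733528)) (b (a (l 16732824) (l 16732032)) (l 16731944)))) (a (l 16735016) (a (l 16732496) (b (l 16730976) (l 16730456))))) (a (c (l 16729664) (l 16727808)) (l 16725136)))) (b (b (a (a (a (c (l 16746824) (l 16747072)) (l 16738992)) (a (a (l 16742048) (l 16740560)) (a (l 16739040) (l 16727016)))) (c (a (a (l 16735448) (a (l 16733200) (l 16731552))) (l 16727216)) (a (a (l 16734520) (a (l 16731936) (l 16730040))) (l 16725088)))) (b (c (a (a (a (l 16746680) (l 16743936)) (a (l 16741120) (l 16738232))) (a (a (l 16735296) (l 16732184)) (l 16727000))) (a (a (a (l 16746920) (l 16743968)) (a (l 16740888) (l 16737680))) (a (a (l 16734368) (l 16730776)) (l 16724864)))) (b (c (a (a (a (l 16746608) (l 16743864)) (a (l 16741048) (l 16738160))) (a (a (l 16735224) (l 16732080)) (l 16726888))) (a (a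 (a (l 16746848) (l 16743896)) (a (l 16740816) (l 16737608))) (a (a (l 16734288) (l 16730672)) (l 16724752)))) (a (a (a (a (l 16747488) (l 16746104)) (l 16738720)) (a (a (l 16741784) (l 16740288)) (a (l 16738776) (l 16726752)))) (a (a (a (l 16725192) (c (l 16734440) (l 16733400))) (a (l 16732384) (l 16730584))) (a (l 16727816) (l 16723984))))))) (c (a (a (a (l 16746344) (l 16743600)) (a (l 16740784) (l 16737896))) (a (a (a (l 16735688) (a (l 16734560) (l 16733768))) (l 16731696)) (l 16726456))) (a (a (a (l 16746576) (l 16743624)) (a (l 16740544) (l 16737328))) (a (a (a (l 16734848) (l 16733088)) (l 16730256)) (l 16724312)))))), by decide +kernel⟩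

def k202_A00pm_102_s1 : ∃ t, chk3 f_A00pm_102_s1 t 12 1340 2 = true :=
  ⟨(a (b (c (c (a (a (l 16745752) (l 16743040)) (a (l 16740264) (a (l 16738160) (l 16736712)))) (a (a (l 16746096) (l 16743312)) (a (l 16740440) (a (l 16738240) (l 16736720))))) (a (a (l 16746184) (l 16743232)) (a (l 16740144) (a (l 16737752) (l 16736088))))) (b (c (c (a (a (l 16745472) (l 16742752)) (a (l 16734736) (b (l 16737176) (l 16737048)))) (a (a (l 16745808) (l 16743024)) (a (l 16740152) (a (l 16732672) (l 16736320))))) (b (a (a (l 16745936) (l 16742984)) (a (l 16739896) (a (l 16737496) (l 16735760)))) (a (a (l 16745840) (l 16742880)) (a (l 16739792) (a (l 16737352) (l 16735560)))))) (c (b (b (a (a (l 16745544) (l 16742800)) (a (a (l 16740696) (l 16734016)) (l 16736944))) (c (c (a (a (l 16745184) (l 16742480)) (a (a (l 16735176) (l 16733776)) (l 16736792))) (a (a (l 16745408) (l 16742680)) (a (a (l 16740592) (l 16733904)) (l 16736832)))) (a (a (l 16745640) (l 16742848)) (a (a (l 16740712) (l 16733960)) (l 16736760))))) (a (a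 (l 16745424) (l 16742680)) (a (a (l 16740576) (l 16739096)) (l 16736720)))) (a (a (l 16745688) (l 16742736)) (b (a (b (a (l 16740512) (l 16738912)) (a (l 16740456) (l 16738816))) (a (l 16737120) (l 16735296))) (a (l 16739544) (l 16736008))))))) (a (b (a (a (c (b (l 16735360) (l 16735088)) (l 16729088)) (l 16727952)) (l 16730496)) (a (b (a (l 16734424) (l 16732648)) (l 16733120)) (b (l 16729912) (l 16708480)))) (a (b (l 16726768) (b (l 16726144) (l 16715168))) (b (l 16722888) (b (l 16722224) (a (l 16722712) (l 16720688))))))), by decide +kernel⟩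

def k203_A00pm_102_s1 : ∃ t, chk3 f_A00pm_102_s1 t 12 1341 2 = true :=
  ⟨(b (b (a (a (a (c (l 16745280) (l 16745496)) (c (l 16742536) (l 16742536))) (a (a (l 16740472) (l 16738896)) (l 16736352))) (a (a (l 16732808) (l 16729128)) (a (l 16725312) (l 16721344)))) (b (a (a (a (c (l 16745136) (l 16745344)) (c (l 16742392) (l 16742384))) (a (a (l 16740328) (l 16738752)) (l 16736208))) (a (a (l 16732656) (l 16728976)) (a (l 16725160) (l 16721192)))) (b (a (a (a (c (l 16745064) (l 16745272)) (c (l 16742320) (l 16742312))) (a (a (l 16740256) (l 16738672)) (l 16736136))) (a (a (l 16732584) (l 16728904)) (a (l 16725080) (l 16721120)))) (a (a (a (a (l 16745928) (l 16744536)) (a (l 16743120) (l 16741672))) (a (a (l 16740200) (l 16738624)) (l 16736080))) (a (a (l 16732536) (l 16728848)) (a (l 16725032) (l 16721064))))))) (a (a (a (a (l 16745704) (l 16744312)) (a (l 16742896) (l 16741456))) (a (a (l 16739984) (l 16738400)) (l 16735864))) (a (a (l 16732312) (l 16728624)) (a (l 16724808) (l 16720840))))), by decide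 +kernel⟩

def k204_A00pm_102_s1 : ∃ t, chk3 f_A00pm_102_s1 t 12 671 2 = true :=
  ⟨(a (a (a (a (l 16744728) (l 16743336)) (a (l 16741912) (l 16740472))) (a (a (l 16738992) (l 16737416)) (l 16734872))) (a (a (l 16731312) (l 16727624)) (a (l 16723800) (l 16719832)))), by decide +kernel⟩

def k205_A00pm_102_s1 : ∃ t, chk3 f_A00pm_102_s1 t 24 167 3 = true :=
  ⟨(a (c (a (b (l 16747304) (l 16744144)) (b (l 16744016) (l 16740824))) (a (b (l 16745792) (l 16742672)) (b (l 16742048) (l 16738872)))) (c (a (b (l 16740544) (b (b (b (l 16738728) (b (l 16738432) (b (b (l 16738288) (a (l 16739144) (l 16737304))) (l 16738136)))) (l 16737688)) (l 16736488))) (b (l 16736896) (b (b (b (a (l 16736008) (l 16734104)) (b (a (l 16735672) (l 16733704)) (l 16734352))) (l 16733776)) (l 16732568)))) (a (b (l 16738072) (b (b (b (l 16736232) (b (l 16735928) (a (l 16736760) (a (l 16735224) (l 16734176))))) (l 16735240)) (l 16734048))) (b (l 16733864) (b (b (b (l 16737240) (b (a (l 16732784) (l 16730608)) (l 16731496))) (l 16730992))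 (l 16729792)))))), by decide +kernel⟩

def k206_A00pm_102_s1 : ∃ t, chk3 f_A00pm_102_s1 t 25 167 3 = true :=
  ⟨(b (b (c (a (a (l 16733928) (a (l 16731040) (l 16729080))) (a (a (b (l 16727536) (l 16726632)) (b (l 16725480) (l 16724480))) (l 16732136))) (a (a (l 16730336) (a (l 16726984) (l 16724712))) (a (a (b (l 16722848) (l 16721960)) (b (l 16720520) (l 16719624))) (l 16726976)))) (b (a (c (a (l 16732688) (a (l 16729784) (l 16727752))) (a (l 16729048) (a (l 16725672) (l 16723392)))) (a (a (l 16723512) (l 16721248)) (l 16717776))) (b (b (a (a (a (l 16731536) (l 16729472)) (a (l 16727344) (l 16725136))) (a (l 16721760) (l 16717152))) (b (a (a (a (l 16731384) (l 16729304)) (l 16731296)) (a (l 16721568) (l 16716960))) (b (a (a (a (l 16731304) (l 16729224)) (l 16725960)) (a (l 16721480) (l 16716864))) (a (a (a (l 16731256) (l 16729168)) (l 16725896)) (a (l 16721416) (l 16716800)))))) (a (a (a (l 16731016) (a (l 16729448) (l 16728368))) (l 16736104)) (a (l 16721136) (l 16716520)))))) (b (b (a (a (b (a (b (l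 16730688) (l 16730440)) (l 16728408)) (a (l 16719528) (l 16727848))) (b (l 16725104) (l 16714056))) (c (b (l 16720344) (a (l 16721864) (l 16706912))) (a (l 16697216) (b (l 16713624) (l 16713208))))) (b (b (a (a (l 16728528) (l 16724136)) (a (l 16719632) (l 16715000))) (b (a (a (l 16728376) (l 16723984)) (a (l 16719480) (l 16714840))) (b (a (a (l 16728304) (l 16723912)) (a (l 16719400) (l 16714768))) (a (a (l 16728248) (l 16723856)) (a (l 16719352) (l 16714712)))))) (a (a (l 16728024) (l 16723624)) (a (l 16719120) (l 16714480))))) (a (a (l 16727008) (l 16722608)) (a (l 16718088) (l 16713448))))), by decide +kernel⟩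

def k207_A00pm_102_s1 : ∃ t, chk3 f_A00pm_102_s1 t 26 334 1 = true :=
  ⟨(b (c (a (a (c (l 16724016) (l 16721224)) (l 16718576)) (l 16685520)) (a (a (l 16714456) (l 16709448)) (l 16701488))) (c (a (a (l 16720472) (l 16695216)) (a (l 16711656) (l 16706856))) (a (a (l 16712456) (l 16707432)) (a (l 16702192) (l 16696712))))), by decide +kernel⟩

def k208_A00pm_102_s1 : ∃ t, chk3 f_A00pm_102_s1 t 26 1340 1 = true :=
  ⟨(a (c (b (a (l 16718792) (l 16714456)) (b (a (l 16718096) (l 16713736)) (b (a (c (l 16708352) (l 16716144)) (b (l 16713312) (a (l 16714208) (l 16711952)))) (a (l 16717328) (l 16712936))))) (b (a (l 16711184) (l 16706152)) (a (b (l 16710752) (c (l 16712528) (l 16708144))) (b (l 16705720) (c (a (l 16708888) (l 16706392)) (l 16702968)))))) (b (c (a (l 16709880) (l 16705040)) (a (l 16700896) (l 16695416))) (c (b (a (l 16709128) (b (l 16704448) (l 16704128))) (b (a (b (a (l 16709872) (l 16707504)) (a (l 16709640) (l 16707256))) (b (a (l 16705064) (l 16702560)) (a (c (l 16706544) (l 16702896)) (c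 (l 16704112) (l 16700312))))) (a (a (l 16709480) (l 16707096)) (a (l 16704656) (l 16702144))))) (b (a (l 16700464) (c (l 16697600) (l 16692168))) (a (c (a (l 16703832) (l 16701216)) (a (l 16698944) (l 16696192))) (a (c (l 16698544) (l 16693392)) (c (l 16695816) (l 16690528)))))))), by decide +kernel⟩

def k209_A00pm_102_s1 : ∃ t, chk3 f_A00pm_102_s1 t 26 1341 1 = true :=
  ⟨(b (b (a (c (a (l 16717176) (l 16712784)) (a (l 16710184) (a (l 16706432) (l 16703856)))) (a (c (a (l 16709328) (l 16706952)) (a (l 16701224) (l 16698536))) (c (a (l 16704504) (l 16701992)) (a (l 16695800) (l 16693000))))) (b (a (c (a (l 16717032) (l 16712632)) (a (l 16710024) (a (l 16706272) (l 16703696)))) (a (c (l 16707992) (a (l 16701072) (l 16698384))) (c (a (l 16704352) (l 16701840)) (a (l 16695640) (l 16692848))))) (b (a (c (a (l 16716952) (l 16712552)) (a (l 16709944) (l 16704912))) (a (c (l 16707920) (a (l 16700992) (l 16698304))) (c (a (l 16704280) (l 16701768)) (a (l 16695568) (l 16692768))))) (a (c (a (l 16716904) (l 16712504))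 (a (l 16709896) (l 16704856))) (a (c (l 16707864) (a (l 16700944) (l 16698256))) (c (a (l 16704224) (l 16701720)) (a (l 16695512) (l 16692720)))))))) (a (c (a (l 16716672) (l 16712280)) (a (l 16709664) (a (l 16705912) (l 16703336)))) (a (c (a (l 16708832) (l 16706448)) (a (l 16700712) (l 16698024))) (c (a (l 16704000) (l 16701496)) (a (l 16695280) (l 16692488)))))), by decide +kernel⟩

def k210_A00pm_102_s1 : ∃ t, chk3 f_A00pm_102_s1 t 26 671 1 = true :=
  ⟨(a (c (a (l 16715672) (l 16711272)) (a (l 16708624) (a (l 16704872) (l 16702304)))) (a (c (a (l 16707824) (l 16705448)) (a (l 16699672) (l 16696992))) (c (a (l 16703008) (l 16700496)) (a (l 16694248) (l 16691456))))), by decide +kernel⟩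

def k211_A00pm_102_s1 : ∃ t, chk3 f_A00pm_102_s1 t 27 334 1 = true :=
  ⟨(b (a (c (l 16680688) (l 16669128)) (c (l 16690392) (l 16677768))) (b (a (c (l 16699848) (l 16688576)) (c (l 16688552) (l 16676232))) (b (b (a (a (l 16696776) (l 16691104)) (c (l 16687728) (l 16675576))) (b (a (a (l 16696536) (l 16690864)) (a (l 16684920) (l 16678704))) (b (a (a (l 16696416) (l 16690744)) (a (l 16684800) (l 16678584))) (a (a (l 16696336) (l 16690664)) (a (l 16684720) (l 16678504)))))) (a (a (l 16695960) (c (l 16695416) (l 16684304))) (a (l 16694824) (l 16699088)))))), by decide +kernel⟩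

def k212_A00pm_102_s1 : ∃ t, chk3 f_A00pm_102_s1 t 27 1340 1 = true :=
  ⟨(a (c (b (a (l 16699936) (l 16694544)) (b (a (b (l 16699320) (l 16699000)) (l 16698976)) (a (b (b (a (l 16699984) (l 16697344)) (a (c (l 16701624) (l 16697656)) (c (l 16699056) (l 16694936)))) (a (l 16699560) (l 16696920))) (b (b (a (l 16694632) (l 16691856)) (c (a (l 16696416) (l 16693704)) (a (l 16692152) (l 16689296)))) (a (l 16694200) (l 16691416)))))) (b (a (l 16689712) (l 16683768)) (a (b (c (l 16692024) (l 16686336)) (a (b (c (l 16693072) (l 16687664)) (l 16690296)) (c (l 16690168) (l 16684640)))) (b (l 16688568) (a (c (l 16687256) (l 16681616)) (c (l 16684280) (l 16678536))))))) (c (b (a (l 16688864) (l 16682872)) (b (a (l 16688032) (l 16682032)) (a (b (b (a (l 16689000) (l 16686064)) (a (l 16693968) (l 16685792))) (a (l 16688552) (l 16685616))) (b (b (l 16681520) (a (l 16682784) (l 16679696))) (l 16681064))))) (b (a (l 16677592) (l 16671176)) (a (b (l 16677152) (c (a (l 16681248) (l 16678144)) (l 16684288))) (b (l 16670736)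 (a (l 16682528) (l 16668776))))))), by decide +kernel⟩

def k213_A00pm_102_s1 : ∃ t, chk3 f_A00pm_102_s1 t 27 1341 1 = true :=
  ⟨(b (b (a (c (a (a (l 16699416) (l 16696768)) (a (l 16694056) (l 16691264))) (a (a (l 16690144) (l 16687232)) (a (l 16684256) (l 16681232)))) (a (c (a (l 16688408) (l 16685472)) (a (l 16678136) (l 16674992))) (c (l 16680920) (l 16670152)))) (b (a (c (a (a (l 16699264) (l 16696616)) (a (l 16693904) (l 16691120))) (a (a (l 16689992) (l 16687080)) (a (l 16684104) (l 16681072)))) (a (c (l 16692040) (a (l 16677984) (l 16674840))) (c (l 16680776) (l 16670000)))) (c (b (a (a (a (l 16699192) (l 16696544)) (a (l 16693832) (l 16691040))) (a (l 16691960) (l 16680696))) (a (a (a (l 16699144) (l 16696496)) (a (l 16693776) (l 16690992))) (a (l 16691912) (l 16680648)))) (b (a (a (a (l 16689912) (l 16687000)) (a (l 16684032) (l 16681000))) (a (a (l 16677912) (l 16674760)) (l 16669920))) (a (a (a (l 16689864) (l 16686944)) (a (l 16683976) (l 16680944))) (a (a (l 16677856) (l 16674712)) (l 16669872)))))))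 (a (c (a (a (l 16698920) (l 16696272)) (a (l 16693560) (l 16690768))) (a (a (l 16689632) (l 16686720)) (a (l 16683744) (l 16680720)))) (a (c (a (l 16687912) (l 16684976)) (a (l 16677632) (l 16674480))) (c (l 16680432) (l 16669640))))), by decide +kernel⟩

def k214_A00pm_102_s1 : ∃ t, chk3 f_A00pm_102_s1 t 27 671 1 = true :=
  ⟨(a (a (c (a (l 16697920) (l 16695280)) (a (l 16688600) (l 16685688))) (c (a (l 16692568) (l 16689784)) (a (l 16682720) (l 16679696)))) (a (c (a (l 16686928) (l 16683992)) (a (l 16676608) (l 16673464))) (c (l 16689936) (l 16679112)))), by decide +kernel⟩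

def k215_A00pm_102_s1 : ∃ t, chk3 f_A00pm_102_s1 t 24 21 1 = true :=
  ⟨(b (a (b (c (c (a (a (l 16747976) (l 16746600)) (b (l 16737192) (l 16730920))) (b (a (l 16740056) (l 16737080)) (a (l 16733760) (l 16730744)))) (b (a (c (l 16739432) (l 16738096)) (a (l 16736168) (l 16734320))) (a (l 16732696) (l 16729008)))) (c (b (a (l 16727520) (l 16724600)) (a (l 16721280) (l 16718320))) (a (b (l 16726608) (l 16720584)) (l 16740768)))) (a (c (c (b (b (a (l 16735072) (l 16733592)) (l 16738552)) (l 16739600)) (b (a (l 16731584) (b (l 16733096) (l 16726752))) (l 16718088))) (b (b (c (l 16742984) (l 16751088)) (a (l 16726128) (l 16724120))) (b (l 16718888) (l 16712712)))) (c (c (b (b (l 16731184) (l 16724904)) (l 16715480)) (b (l 16748160) (l 16714520))) (b (c (l 16746344) (l 16743608)) (c (l 16712728) (l 16710136)))))) (a (b (c (c (l 16731456) (l 16731448)) (a (l 16711672) (l 16707728))) (c (a (l 16700024) (l 16696696)) (l 16677008))) (c (b (a (l 16695392) (l 16723544)) (a (l 16693456) (l 16690112))) (b (a (l 16703584)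 (l 16699200)) (a (l 16691632) (l 16687128)))))), by decide +kernel⟩

def k216_A00pm_102_s1 : ∃ t, chk3 f_A00pm_102_s1 t 25 21 1 = true :=
  ⟨(a (a (b (b (c (b (l 16727328) (l 16720960)) (l 16719760)) (c (l 16711448) (l 16707048))) (c (b (l 16698872) (l 16686416)) (b (l 16694592) (l 16682392)))) (b (c (b (b (l 16723616) (l 16717224)) (l 16728648)) (b (b (l 16718528) (l 16712056)) (l 16691984))) (b (c (l 16695056) (l 16689896)) (c (l 16682568) (l 16677576))))) (c (b (b (b (a (l 16725016) (a (l 16716808) (l 16714784))) (a (l 16713360) (l 16709368))) (a (c (l 16704800) (l 16702576)) (b (l 16702944) (l 16696568)))) (b (a (l 16691120) (l 16708040)) (a (l 16678600) (l 16674512)))) (b (b (b (a (l 16708736) (b (l 16700480) (l 16707664))) (a (l 16707456) (l 16692272))) (a (b (l 16700992) (l 16694592)) (b (l 16696232) (l 16689784)))) (b (a (l 16685112) (l 16664496)) (b (l 16652296) (l 16646112)))))), by decide +kernel⟩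

def k217_A00pm_102_s1 : ∃ t, chk3 f_A00pm_102_s1 t 26 21 1 = true :=
  ⟨(b (a (b (c (b (a (a (l 16712704) (l 16710576)) (a (l 16708384) (l 16706136))) (a (a (l 16706264) (l 16704144)) (a (l 16701960) (l 16699720)))) (c (a (b (l 16706576) (l 16700016)) (b (l 16701696) (l 16695144))) (b (a (l 16702224) (a (l 16698368) (l 16695728))) (a (l 16695616) (l 16690440))))) (c (a (a (l 16717632) (l 16715504)) (c (l 16713824) (l 16710440))) (a (b (l 16701848) (l 16684872)) (c (l 16706352) (l 16701576))))) (b (b (a (c (a (l 16709064) (c (l 16703144) (l 16699576))) (c (a (l 16697888) (l 16695280)) (a (l 16693032) (l 16690288)))) (c (c (a (l 16700792) (l 16698376)) (a (l 16697056) (l 16694480))) (c (a (l 16692616) (l 16689888)) (a (l 16687488) (l 16684632))))) (c (a (a (l 16697424) (l 16695064)) (a (l 16692640) (l 16690152))) (a (c (l 16690056) (l 16685056)) (c (l 16684744) (l 16679472))))) (c (a (c (l 16709448) (l 16705712)) (c (l 16694328) (l 16690248))) (a (c (l 16701288) (l 16696208)) (c (l 16696000) (l 16690632))))))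 (a (b (c (a (c (l 16684360) (l 16681216)) (c (l 16680224) (l 16676680))) (a (b (l 16678432) (l 16672056)) (b (l 16673360) (l 16666952)))) (a (c (l 16670296) (l 16662608)) (c (l 16686904) (l 16657432)))) (b (c (a (b (l 16677168) (l 16670848)) (b (l 16672400) (l 16666112))) (a (b (l 16668144) (l 16661712)) (b (l 16662728) (l 16656304)))) (c (a (l 16682392) (c (l 16658840) (l 16654424))) (a (l 16673128) (l 16667720)))))), by decide +kernel⟩

def k218_A00pm_102_s1 : ∃ t, chk3 f_A00pm_102_s1 t 27 21 1 = true :=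
  ⟨(b (a (b (b (c (a (c (a (l 16695888) (l 16693328)) (a (l 16691832) (l 16689128))) (c (a (l 16690704) (l 16688000)) (a (l 16686352) (l 16683512)))) (a (c (a (l 16687112) (l 16684264)) (b (l 16681896) (l 16678592))) (c (a (l 16681360) (l 16678400)) (a (l 16675752) (l 16672680))))) (c (a (c (l 16688328) (l 16684088)) (c (l 16683104) (l 16678568))) (a (c (l 16679192) (l 16673672)) (c (l 16673416) (l 16667664))))) (a (c (b (c (l 16682064) (l 16677712)) (l 16673664)) (c (l 16690488) (l 16684856))) (c (c (l 16684240) (l 16690032)) (c (l 16684744) (l 16678880))))) (b (c (a (b (c (l 16694280) (l 16689600)) (c (l 16677576) (l 16672768))) (b (a (l 16687552) (l 16673992)) (a (l 16670800) (l 16667744)))) (a (b (c (l 16684320) (l 16678456)) (c (l 16667392) (l 16661448))) (b (a (l 16687184) (l 16662960)) (c (l 16661120) (l 16655024))))) (c (a (c (l 16689248) (l 16684280)) (b (l 16684016) (l 16656832))) (a (c (l 16678768) (l 16672712)) (b (l 16651720) (l 16645336)))))) (a (a (c (b (c (l 16666472) (l 16661880)) (l 16672728))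 (b (b (l 16657104) (l 16650696)) (l 16641168))) (c (b (c (l 16661352) (l 16656456)) (l 16667512)) (b (b (l 16651272) (l 16644888)) (l 16635384)))) (c (b (a (c (l 16655928) (l 16650768)) (l 16668528)) (a (l 16682984) (l 16635256))) (b (a (l 16663024) (l 16677760)) (c (l 16671400) (l 16665024)))))), by decide +kernel⟩

def k219_A00pm_102_s1 : ∃ t, chk3 f_A00pm_102_s1 t 12 11 1 = true :=
  ⟨(c (a (a (b (b (c (l 16722584) (l 16722752)) (a (l 16660616) (l 16656376))) (b (l 16679936) (l 16619440))) (b (a (b (l 16675328) (l 16652320)) (b (a (l 16672688) (l 16712864)) (l 16648352))) (b (l 16670376) (l 16692248)))) (b (a (b (b (a (l 16674088) (l 16670216)) (a (l 16661976) (l 16658000))) (a (b (l 16650128) (l 16638600)) (l 16682104))) (b (a (b (l 16666224) (l 16653992)) (b (l 16662112) (l 16649856))) (a (l 16677896) (b (l 16637752) (l 16625784))))) (b (a (b (l 16583176) (l 16614136)) (a (l 16612792) (l 16650280))) (a (c (l 16682728) (l 16597728)) (c (l 16589496) (l 16587496)))))) (a (b (a (b (a (l 16683008) (l 16678704))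 (l 16700864)) (b (b (l 16656640) (l 16666104)) (b (l 16654848) (l 16643840)))) (a (b (l 16721424) (l 16616840)) (b (l 16627816) (l 16606872)))) (b (b (a (b (l 16647008) (l 16614280)) (b (a (l 16660488) (l 16655392)) (a (l 16648552) (l 16643344)))) (a (c (l 16598064) (l 16596128)) (a (l 16589200) (l 16594304)))) (b (a (b (l 16622456) (l 16611680)) (b (l 16611472) (l 16600472))) (a (l 16554056) (l 16542488)))))), by decide +kernel⟩

def k220_A00pm_102_s1 : ∃ t, chk3 f_A00pm_102_s1 t 13 11 1 = true :=
  ⟨(a (b (b (c (b (a (a (l 16657864) (l 16653480)) (a (l 16648944) (l 16644248))) (a (a (l 16645584) (l 16641184)) (a (l 16636624) (l 16631904)))) (a (a (b (l 16650216) (l 16638064)) (b (l 16644944) (l 16632704))) (a (b (l 16639592) (l 16627256)) (b (l 16634144) (l 16621728))))) (b (a (c (a (l 16633456) (l 16629032)) (l 16591960)) (c (a (l 16624456) (l 16619728)) (a (l 16615160) (l 16609552)))) (a (c (a (l 16621488) (l 16617040)) (l 16611704)) (c (a (l 16612448) (l 16607696)) (l 16600448))))) (c (b (a (a (l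 16645784) (l 16641256)) (a (l 16636680) (l 16631912))) (a (c (l 16580464) (l 16577352)) (c (l 16613312) (l 16567112)))) (b (a (b (l 16600240) (l 16589016)) (c (l 16585464) (l 16580600))) (a (b (l 16578032) (l 16567288)) (c (l 16562832) (l 16558520)))))) (c (b (b (a (a (c (l 16677544) (l 16672584)) (c (l 16672568) (l 16667280))) (b (c (l 16670624) (l 16623048)) (a (l 16616552) (l 16610896)))) (b (a (a (l 16614824) (l 16609736)) (a (l 16604416) (l 16598840))) (a (c (l 16602872) (l 16597520)) (l 16631576)))) (b (a (a (l 16626976) (l 16621856)) (c (l 16616896) (l 16568832))) (a (c (l 16562016) (l 16556656)) (c (l 16551792) (l 16545592))))) (b (b (a (a (b (l 16628560) (l 16616120)) (b (l 16622824) (l 16610384))) (b (a (l 16616888) (l 16610768)) (l 16643408))) (a (a (l 16639792) (l 16634016)) (c (l 16628336) (l 16621816)))) (b (a (c (l 16574168) (l 16568368)) (c (l 16562552) (l 16556120))) (a (c (l 16551256) (l 16545824)) (l 16599200)))))), by decide +kernel⟩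

def k221_A00pm_102_s1 : ∃ t, chk3 f_A00pm_102_s1 t 28 80 1 = true :=
  ⟨(a (c (b (a (a (b (l 16710816) (c (l 16715704) (l 16727120))) (b (b (l 16709048) (l 16718136)) (c (l 16725592) (l 16724040)))) (c (a (l 16726144) (l 16722688)) (c (l 16721584) (l 16708880)))) (a (a (b (b (l 16716560) (l 16725368)) (l 16712344)) (b (l 16712408) (l 16719520))) (c (l 16718144) (l 16713584)))) (c (b (a (a (b (l 16725416) (l 16722136)) (b (l 16722560) (l 16718960))) (b (l 16707072) (l 16713792))) (a (b (a (l 16718552) (l 16715200)) (l 16723592)) (c (l 16709584) (l 16706656)))) (a (a (b (b (l 16720120) (l 16705728)) (b (l 16712184) (l 16708128))) (b (b (l 16717024) (l 16712976)) (l 16706856))) (b (c (l 16711544) (l 16708544)) (b (l 16703904) (l 16699816)))))) (c (b (c (a (a (l 16718848) (l 16714824)) (b (l 16688984) (l 16706888))) (a (b (l 16714744) (l 16711328)) (b (l 16706752) (l 16703368)))) (a (b (l 16689136) (l 16685816)) (b (b (l 16681784) (l 16680152)) (c (l 16700640) (l 16696528))))) (c (b (a (b (l 16710464) (l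 16706704)) (b (l 16692616) (l 16699352))) (a (l 16701064) (b (l 16695608) (l 16691848)))) (b (a (a (l 16705144) (l 16691376)) (a (l 16688096) (l 16690048))) (a (l 16695264) (b (l 16690720) (l 16686608))))))), by decide +kernel⟩

def k222_A00pm_102_s1 : ∃ t, chk3 f_A00pm_102_s1 t 28 81 1 = true :=
  ⟨(a (c (b (c (a (l 16718392) (l 16711600)) (a (l 16718696) (l 16685592))) (c (a (l 16711608) (l 16704872)) (a (l 16685312) (l 16699432)))) (c (b (a (c (l 16709048) (l 16705784)) (l 16700600)) (a (l 16699872) (l 16693032))) (b (a (a (l 16723056) (l 16698752)) (l 16683248)) (a (l 16713376) (l 16685688))))) (a (b (c (b (l 16682456) (l 16679064)) (b (l 16692368) (l 16688456))) (c (b (l 16696608) (l 16693128)) (b (l 16684544) (l 16680648)))) (c (c (b (l 16695832) (l 16689264)) (b (l 16691328) (l 16684296))) (b (b (l 16674896) (l 16660496)) (a (l 16656400) (l 16652872)))))), by decide +kernel⟩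

def k223_A00pm_102_s1 : ∃ t, chk3 f_A00pm_102_s1 t 58 40 1 = true :=
  ⟨(c (a (a (b (b (b (c (l 16703168) (l 16700448)) (c (l 16700136) (l 16697088))) (b (l 16684952) (l 16692192))) (b (b (l 16688904) (l 16685584)) (l 16670024))) (b (b (b (c (l 16698496) (l 16696160)) (c (l 16695496) (l 16692816))) (b (l 16685752) (l 16687768))) (b (b (l 16684504) (l 16681208)) (b (l 16677872) (l 16674488))))) (b (a (c (b (b (l 16693744) (l 16690776)) (b (l 16687776) (l 16684728))) (b (b (l 16691840) (l 16688520)) (b (l 16685176) (l 16681808)))) (b (b (c (a (l 16690128) (l 16687696)) (l 16692712)) (c (l 16685976) (l 16684168))) (c (b (l 16683008) (l 16679992)) (b (l 16680848) (l 16677504))))) (b (b (c (l 16668800) (l 16665784)) (c (l 16676168) (l 16672864))) (b (c (l 16673000) (l 16669424)) (l 16678384))))) (b (b (a (a (b (c (l 16697416) (l 16694080)) (l 16686600)) (b (c (l 16693608) (l 16690824)) (c (l 16689872) (l 16686656)))) (a (b (c (l 16689800) (l 16687632)) (c (l 16686080) (l 16683456))) (b (c (b (l 16686912) (l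 16685056)) (l 16673976)) (c (l 16682272) (l 16680296))))) (b (a (c (l 16677568) (l 16673664)) (c (a (l 16682352) (l 16678552)) (a (l 16679304) (l 16676136)))) (a (c (l 16684312) (l 16680024)) (c (a (l 16678624) (l 16674840)) (a (l 16675176) (l 16672000)))))) (c (b (a (b (l 16680568) (l 16676816)) (b (l 16673000) (l 16669264))) (a (l 16671176) (l 16653160))) (b (a (l 16663392) (b (l 16669464) (l 16665376))) (a (l 16665752) (l 16648792)))))), by decide +kernel⟩

def k224_A00pm_102_s1 : ∃ t, chk3 f_A00pm_102_s1 t 118 40 1 = true :=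
  ⟨(b (b (a (c (c (b (c (l 16684264) (l 16683768)) (l 16686344)) (b (c (l 16683288) (l 16682816)) (l 16685008))) (b (c (c (l 16682360) (l 16681920)) (b (l 16682320) (l 16680240))) (c (l 16678440) (l 16677120)))) (c (c (b (c (l 16679200) (l 16678928)) (c (l 16676384) (l 16675936))) (b (c (l 16678688) (l 16678480)) (c (l 16675512) (l 16675112)))) (b (c (c (l 16678312) (l 16678176)) (c (l 16678072) (l 16678008))) (c (c (l 16674736) (l 16674384)) (b (l 16674936) (l 16672872)))))) (a (c (b (c (l 16678152) (l 16676464)) (c (l 16675168) (l 16673136))) (c (b (l 16674736) (l 16671032)) (b (l 16672968) (l 16668840)))) (c (b (c (l 16673224) (l 16672024)) (c (l 16670264) (l 16668720))) (c (c (l 16679848) (l 16679184)) (b (l 16669776) (l 16665656)))))) (a (b (c (b (c (l 16672144) (l 16669792)) (l 16678248)) (b (c (l 16667312) (l 16664720)) (l 16672616))) (c (b (l 16664504) (l 16661192)) (b (l 16658232) (l 16654344)))) (b (c (b (c (l 16667264) (l 16665392)) (c (l 16664224) (l 16662032))) (b (c (l 16663480) (l 16661544))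 (c (l 16659776) (l 16657448)))) (c (b (l 16670392) (l 16656632)) (b (l 16665216) (l 16650840)))))), by decide +kernel⟩

def k225_A00pm_102_s1 : ∃ t, chk3 f_A00pm_102_s1 t 119 40 1 = true :=
  ⟨(b (b (c (c (a (b (c (l 16674080) (l 16674024)) (l 16676400)) (b (c (l 16668896) (l 16669056)) (l 16671336))) (a (b (c (l 16674024) (l 16674080)) (c (l 16670864) (l 16670728))) (b (c (l 16669288) (l 16669600)) (l 16671448)))) (c (a (b (c (l 16674192) (l 16674360)) (c (l 16670640) (l 16670592))) (b (c (l 16669992) (l 16670456)) (c (l 16666456) (l 16666704)))) (a (b (c (l 16674576) (l 16674856)) (b (l 16671624) (l 16669576))) (b (c (l 16670992) (l 16671608)) (c (l 16667024) (l 16667400)))))) (c (c (a (b (l 16668240) (l 16665288)) (c (l 16667096) (l 16666840))) (a (b (l 16667520) (l 16664232)) (c (l 16666640) (l 16666480)))) (c (a (b (l 16666944) (l 16663272)) (c (l 16666376) (l 16666320))) (b (a (l 16671744) (c (l 16663056) (l 16663208))) (a (l 16662400) (l 16659056)))))) (a (b (c (b (c (l 16662304) (l 16660920)) (c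 (l 16659296) (l 16657584))) (b (c (l 16659592) (l 16658312)) (c (l 16655896) (l 16654232)))) (c (b (c (l 16656232) (l 16654224)) (l 16662464)) (c (l 16660824) (l 16648136)))) (b (c (c (b (l 16657296) (l 16654288)) (b (l 16656384) (l 16653064))) (c (b (l 16655616) (l 16651944)) (b (l 16654992) (l 16650936)))) (c (b (c (l 16651248) (l 16649720)) (c (l 16648160) (l 16646352))) (b (c (l 16648264) (l 16646888)) (c (l 16644576) (l 16642840))))))), by decide +kernel⟩

def k226_A00pm_102_s1 : ∃ t, chk3 f_A00pm_102_s1 t 28 41 1 = true :=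
  ⟨(b (a (c (c (b (l 16701296) (l 16662528)) (b (a (l 16698960) (l 16692144)) (l 16688048))) (b (a (b (l 16690432) (l 16686552)) (l 16681688)) (a (l 16680712) (l 16673888)))) (a (b (c (l 16666832) (l 16674800)) (c (l 16680448) (l 16666992))) (c (b (l 16679872) (l 16672592)) (b (l 16646832) (l 16660000))))) (b (a (c (a (l 16665520) (l 16679792)) (b (l 16671432) (l 16709424))) (c (a (l 16672544) (l 16664744)) (a (l 16659120) (l 16652120)))) (c (a (a (b (b (l 16681128) (l 16678520)) (b (b (b (l 16676568) (b (l 16675712) (a (l 16687120) (l 16683872)))) (l 16674296)) (l 16673120))) (b (b (l 16674440) (l 16671832)) (b (b (b (l 16669864) (b (l 16669000) (a (l 16670032) (l 16666536)))) (l 16667568)) (l 16666400)))) (a (b (l 16686736) (b (b (b (l 16662624) (b (l 16661752) (l 16661040))) (l 16660312)) (l 16659152))) (b (l 16658000) (a (c (l 16678448) (l 16652384)) (l 16692912))))) (a (a (b (b (l 16667896) (l 16665816)) (b (b (b (l 16664512) (b (l 16664064) (a (l 16665440) (l 16662048)))) (l 16663184)) (l 16661976)))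 (b (l 16649488) (b (b (b (l 16657664) (b (l 16657224) (l 16656896))) (l 16656336)) (l 16655144)))) (a (b (l 16653064) (c (l 16673256) (l 16646072))) (b (l 16646056) (l 16663224))))))), by decide +kernel⟩

def k227_A00pm_102_s1 : ∃ t, chk3 f_A00pm_102_s1 t 29 41 1 = true :=
  ⟨(b (a (a (b (c (b (l 16673216) (l 16669704)) (c (l 16663608) (l 16657712))) (c (l 16643280) (l 16652920))) (b (c (b (l 16664496) (l 16661032)) (c (l 16656120) (l 16651224))) (c (b (l 16657496) (l 16653848)) (l 16666896)))) (b (a (c (b (c (l 16657160) (l 16653928)) (c (l 16653856) (l 16650408))) (c (l 16632880) (l 16644856))) (a (c (b (l 16648680) (l 16645312)) (b (l 16643424) (l 16639544))) (c (b (l 16654464) (l 16640640)) (b (l 16639840) (l 16635968))))) (b (c (a (l 16648672) (a (l 16641872) (l 16637232))) (a (l 16640928) (c (l 16635352) (l 16632448)))) (c (a (l 16645080) (a (l 16638328) (l 16633720))) (a (l 16637040) (l 16630024)))))) (a (c (a (b (l 16656480) (b (l 16649784) (l 16686720))) (b (l 16689920) (b (l 16641344) (l 16636352))))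 (a (b (l 16645048) (b (l 16638992) (l 16635208))) (b (l 16638056) (b (l 16632008) (l 16628248))))) (c (a (b (b (l 16641344) (l 16637376)) (b (l 16632736) (l 16627776))) (b (b (l 16632376) (l 16628464)) (b (l 16644864) (l 16618976)))) (b (a (l 16652104) (b (l 16626128) (l 16622184))) (b (b (l 16580856) (l 16620728)) (l 16576080)))))), by decide +kernel⟩

def k228_A00pm_102_s1 : ∃ t, chk3 f_A00pm_102_s1 t 14 21 1 = true :=
  ⟨(a (a (b (b (c (a (b (a (l 16670832) (l 16667600)) (l 16683976)) (a (l 16682128) (l 16657688))) (a (b (a (l 16659648) (l 16656272)) (l 16672520)) (a (l 16670656) (l 16646280)))) (c (a (a (l 16676272) (l 16652104)) (l 16668072)) (a (c (l 16645104) (l 16638784)) (l 16677264)))) (c (a (b (l 16662376) (l 16629168)) (c (l 16673560) (l 16667800))) (a (b (l 16671312) (l 16616848)) (b (l 16622768) (l 16610336))))) (b (a (c (b (l 16673200) (l 16639968)) (b (l 16683096) (l 16628592))) (c (b (l 16644496) (l 16632304)) (b (l 16634240) (l 16621800)))) (c (a (b (l 16627792) (l 16615704)) (l 16656152))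 (a (b (l 16616144) (l 16603800)) (l 16645304))))) (a (b (c (a (l 16672232) (l 16621952)) (a (l 16663088) (l 16614352))) (c (a (l 16606240) (l 16598064)) (a (l 16596728) (l 16590224)))) (b (c (a (l 16613464) (l 16604760)) (a (l 16607664) (l 16600936))) (c (l 16627576) (l 16538864))))), by decide +kernel⟩

def k229_A00pm_102_s1 : ∃ t, chk3 f_A00pm_102_s1 t 120 40 1 = true :=
  ⟨(b (c (a (b (c (b (l 16663760) (l 16660904)) (b (l 16669936) (l 16661472))) (c (b (l 16658024) (l 16655104)) (b (l 16658240) (l 16654984)))) (b (c (b (l 16658336) (l 16655504)) (b (l 16659704) (l 16656512))) (c (b (l 16652640) (l 16649744)) (b (l 16653296) (l 16650064))))) (b (b (c (a (c (l 16665640) (l 16666384)) (l 16666768)) (a (c (l 16667232) (l 16668176)) (c (l 16663192) (l 16664448)))) (a (c (l 16667624) (c (l 16663280) (l 16663992))) (c (l 16663176) (c (l 16659264) (l 16660288))))) (c (a (b (l 16658760) (l 16655128)) (c (l 16652280) (l 16652792))) (b (a (c (l 16659336) (l 16659824)) (l 16660976)) (a (l 16655528) (l 16651704))))))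 (b (b (c (a (c (l 16652160) (l 16651712)) (c (l 16646816) (l 16646808))) (c (a (l 16651488) (l 16647104)) (a (l 16651488) (l 16647696)))) (c (a (c (l 16649176) (l 16648416)) (c (l 16643856) (l 16643536))) (c (a (l 16647840) (l 16643480)) (a (l 16647456) (l 16643688))))) (c (c (a (b (l 16646152) (l 16643080)) (b (l 16640848) (l 16637800))) (a (b (l 16645088) (l 16641736)) (b (l 16640232) (l 16636896)))) (c (a (b (l 16644184) (l 16640512)) (b (l 16639840) (l 16636192))) (b (a (l 16643432) (l 16639688)) (a (l 16639416) (l 16635696))))))), by decide +kernel⟩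

def k230_A00pm_102_s1 : ∃ t, chk3 f_A00pm_102_s1 t 121 40 1 = true :=
  ⟨(b (c (b (c (a (b (l 16652704) (l 16649888)) (b (l 16646872) (l 16644088))) (a (b (l 16654488) (l 16651312)) (b (l 16649040) (l 16645896)))) (c (a (b (l 16647048) (l 16644184)) (b (l 16641272) (l 16638424))) (b (a (l 16648120) (l 16642728)) (a (l 16644912) (l 16639544))))) (c (b (a (c (l 16654432) (l 16655608)) (c (l 16649336) (l 16650760))) (a (c (l 16647472) (l 16648240)) (b (l 16644696) (l 16641128)))) (b (a (c (b (l 16658872) (l 16654960)) (b (l 16660416) (l 16656280))) (c (l 16652328) (b (l 16656096) (l 16651976)))) (a (b (l 16656840) (l 16647592)) (b (l 16657656) (l 16643192)))))) (b (c (c (b (a (l 16641272) (l 16635544)) (a (l 16638336) (l 16632624))) (a (b (l 16641680) (l 16638424)) (b (l 16636336) (l 16633104)))) (c (a (b (l 16642456) (l 16638856)) (b (l 16637560) (l 16633984))) (b (a (l 16643600) (l 16639224)) (a (l 16639624) (l 16635264))))) (c (c (a (b (l 16635352) (l 16632320)) (b (l 16629664) (l 16626664))) (a (b (l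 16635144) (l 16631832)) (b (l 16629840) (l 16626552)))) (b (c (a (l 16635240) (l 16630392)) (a (l 16635648) (l 16631320))) (c (a (l 16631616) (l 16626792)) (a (l 16631680) (l 16627376))))))), by decide +kernel⟩

def k231_A00pm_102_s1 : ∃ t, chk3 f_A00pm_102_s1 t 122 40 1 = true :=
  ⟨(b (a (c (c (b (l 16639472) (b (l 16635312) (l 16632488))) (b (b (l 16643384) (l 16640264)) (b (l 16637120) (l 16633960)))) (b (c (c (l 16644000) (l 16645656)) (c (l 16647464) (l 16649432))) (c (b (l 16639512) (l 16635968)) (c (l 16639752) (l 16641272))))) (c (c (b (l 16633312) (l 16627792)) (b (b (l 16637536) (l 16634440)) (b (l 16631320) (l 16628192)))) (c (b (c (l 16638456) (l 16640312)) (c (l 16631632) (l 16633072))) (b (b (l 16650640) (l 16646688)) (c (l 16634672) (l 16636424)))))) (c (b (c (a (b (l 16629640) (l 16626752)) (b (l 16623576) (l 16620712))) (a (b (l 16630776) (l 16627576)) (b (l 16625032) (l 16621856)))) (c (a (b (l 16623816) (l 16620840)) (b (l 16617816) (l 16614864))) (a (b (l 16624344) (l 16621080)) (l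 16627512)))) (b (c (c (a (l 16630232) (l 16624776)) (a (l 16631088) (l 16625832))) (a (c (l 16632064) (l 16633168)) (c (l 16627032) (l 16628360)))) (c (a (b (l 16625304) (l 16621728)) (l 16628696)) (a (b (l 16626704) (l 16622792)) (b (l 16621816) (l 16617928))))))), by decide +kernel⟩

def k232_A00pm_102_s1 : ∃ t, chk3 f_A00pm_102_s1 t 123 40 1 = true :=
  ⟨(b (c (c (b (c (l 16623056) (l 16624416)) (c (l 16617864) (l 16618880))) (b (c (l 16625968) (l 16638200)) (c (l 16630552) (a (l 16624456) (l 16618376))))) (c (c (b (a (l 16632664) (l 16626632)) (a (l 16625920) (l 16619976))) (a (b (l 16634704) (l 16627544)) (b (l 16628848) (l 16621768)))) (b (a (c (l 16636944) (l 16639360)) (c (l 16631256) (l 16633864))) (a (c (l 16629336) (l 16631296)) (c (l 16623728) (l 16625872)))))) (c (b (c (c (l 16622976) (l 16623672)) (a (l 16617536) (l 16621952))) (c (b (l 16629520) (l 16616136)) (b (l 16620264) (l 16617072)))) (b (c (a (c (l 16619112) (l 16620352)) (c (l 16613256) (l 16614648))) (a (c (l 16621736) (l 16623280))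 (c (l 16616200) (l 16617920)))) (c (a (l 16623168) (l 16606952)) (a (b (l 16616664) (l 16612792)) (c (l 16608672) (l 16610000))))))), by decide +kernel⟩

def k233_A00pm_102_s1 : ∃ t, chk3 f_A00pm_102_s1 t 62 40 1 = true :=
  ⟨(c (c (a (b (b (c (l 16609680) (l 16611216)) (c (l 16604744) (l 16605928))) (b (c (l 16599584) (l 16600432)) (c (l 16594224) (l 16594776)))) (b (b (c (l 16595864) (l 16597472)) (c (l 16591208) (l 16592448))) (b (c (l 16586360) (l 16587248)) (a (l 16584824) (l 16578256))))) (a (b (a (b (l 16617232) (l 16611304)) (b (l 16610592) (l 16604784))) (b (c (l 16601456) (l 16613144)) (c (l 16595480) (l 16596352)))) (b (c (b (l 16599304) (l 16593888)) (b (l 16601376) (l 16595536))) (b (c (l 16588328) (l 16589592)) (a (l 16586320) (l 16579736)))))) (c (c (b (a (b (a (l 16620352) (l 16613840)) (a (l 16613816) (l 16607408))) (b (a (l 16607112) (l 16600200)) (a (l 16600792) (l 16593984)))) (a (b (a (l 16607184) (l 16600896)) (l 16602624)) (b (a (l 16594392) (l 16587696)) (a (l 16587896) (l 16581312)))))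 (b (a (b (a (l 16622696) (l 16616280)) (a (l 16615728) (l 16609408))) (b (a (l 16609616) (l 16602736)) (a (l 16602848) (l 16596064)))) (a (b (a (l 16608688) (l 16602488)) (a (l 16601608) (l 16595496))) (b (a (l 16596032) (l 16589352)) (a (l 16589152) (l 16582584)))))) (b (a (b (c (a (l 16625248) (l 16618936)) (a (l 16628008) (l 16621808))) (c (a (l 16617824) (l 16611608)) (a (l 16620112) (l 16614000)))) (b (a (c (l 16612344) (l 16615304)) (c (l 16605512) (l 16608520))) (c (a (l 16605104) (l 16598360)) (a (l 16607576) (l 16600864))))) (a (b (c (a (l 16610376) (l 16604264)) (a (l 16612232) (l 16606216))) (a (c (l 16602920) (l 16604384)) (c (l 16596888) (l 16598440)))) (b (c (a (l 16597856) (l 16591200)) (a (l 16599872) (l 16593240))) (a (c (l 16590584) (l 16592192)) (c (l 16584024) (l 16585648)))))))), by decide +kernel⟩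

def k234_A00pm_102_s1 : ∃ t, chk3 f_A00pm_102_s1 t 63 40 2 = true :=
  ⟨(c (b (a (b (a (l 16586048) (l 16578872)) (a (l 16581424) (l 16574384))) (b (a (l 16571616) (l 16564296)) (a (l 16567280) (l 16560104)))) (a (b (a (l 16576616) (l 16569728)) (a (l 16571600) (l 16564872))) (b (a (l 16562768) (l 16555752)) (a (l 16558064) (l 16551208))))) (b (a (b (a (l 16589728) (l 16582520)) (a (l 16584288) (l 16577192))) (b (a (l 16575200) (l 16567808)) (a (l 16570000) (c (l 16561992) (l 16563528))))) (a (b (a (l 16578728) (l 16571760)) (a (l 16573024) (l 16566184))) (b (a (c (l 16564136) (l 16565304)) (c (l 16557024) (l 16558120))) (a (c (l 16558888) (l 16559664)) (c (l 16551912) (l 16552616))))))), by decide +kernel⟩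

def k235_A00pm_102_s1 : ∃ t, chk3 f_A00pm_102_s1 t 63 40 3 = true :=
  ⟨(c (b (a (c (b (a (l 16593112) (l 16585888)) (a (l 16587008) (l 16579880))) (a (b (l 16595672) (l 16589088)) (b (l 16588440) (l 16581944)))) (b (a (c (l 16578536) (l 16581072)) (c (l 16571096) (l 16573592))) (a (c (l 16572632) (l 16574664)) (c (l 16565288) (l 16567280))))) (a (b (a (c (l 16580824) (l 16582472)) (c (l 16573808) (l 16575424))) (a (c (l 16574560) (l 16575808)) (c (l 16567656) (l 16568864)))) (b (a (c (l 16566672) (l 16568240)) (c (l 16559432) (l 16560944))) (a (c (l 16560632) (l 16561776)) (c (l 16553504) (l 16554576)))))) (b (a (c (b (a (l 16598464) (l 16591232)) (a (l 16591392) (l 16584232))) (b (a (l 16601496) (l 16594264)) (a (l 16593904) (l 16586736)))) (a (b (c (l 16583840) (c (l 16586088) (l 16587656))) (c (l 16576920) (c (l 16578760) (l 16580056)))) (b (c (l 16576344) (b (l 16581200) (l 16577480))) (c (l 16569488) (c (l 16571296) (l 16572576)))))) (a (b (a (c (l 16584320) (l 16586360)) (c (l 16577248) (l 16579264)))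 (a (c (l 16577240) (l 16578848)) (c (l 16570256) (l 16571824)))) (b (a (c (l 16570016) (c (l 16571472) (l 16572512))) (c (l 16562656) (c (l 16564080) (l 16565088)))) (a (c (l 16563104) (l 16564624)) (c (l 16555832) (b (l 16559096) (l 16555456)))))))), by decide +kernel⟩

def k236_A00pm_102_s1 : ∃ t, chk3 f_A00pm_102_s1 t 30 82 1 = true :=
  ⟨(a (b (c (b (a (c (a (l 16639952) (l 16634688)) (a (l 16638344) (l 16633520))) (c (a (l 16629232) (l 16623600)) (a (l 16628480) (l 16623224)))) (a (a (l 16635824) (c (l 16631520) (l 16630104))) (c (a (l 16626080) (l 16620472)) (l 16622488)))) (a (c (b (l 16634704) (l 16631000)) (b (l 16633592) (l 16629592))) (a (c (l 16636632) (l 16625752)) (c (l 16631840) (l 16621488))))) (c (a (c (b (l 16630896) (l 16627520)) (b (l 16629040) (l 16625480))) (c (b (l 16620072) (l 16616744)) (b (l 16619048) (l 16615536)))) (c (a (b (l 16627280) (l 16623520)) (b (l 16618280) (l 16614568))) (a (l 16602664) (b (l 16617752) (l 16613832)))))) (c (a (b (c (a (b (l 16617800) (l 16614704))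 (l 16620800)) (a (b (l 16617776) (l 16614432)) (l 16620960))) (c (b (l 16608584) (l 16605312)) (b (l 16608256) (l 16604800)))) (b (c (b (l 16613176) (l 16620640)) (b (l 16613848) (l 16600096))) (c (b (l 16596568) (l 16593368)) (b (l 16596768) (l 16593368))))) (c (b (a (a (l 16626816) (l 16611072)) (b (l 16615040) (l 16601016))) (a (b (l 16608304) (l 16604648)) (b (l 16597448) (l 16593840)))) (b (a (a (l 16616936) (l 16612104)) (a (l 16607008) (l 16601648))) (a (b (l 16608728) (l 16604856)) (b (l 16598608) (l 16594792))))))), by decide +kernel⟩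

def k237_A00pm_102_s1 : ∃ t, chk3 f_A00pm_102_s1 t 30 83 1 = true :=
  ⟨(a (b (c (a (b (c (l 16623984) (l 16621800)) (c (l 16620168) (l 16617936))) (b (c (l 16613256) (l 16611912)) (c (l 16609520) (l 16608104)))) (a (b (l 16618696) (l 16614776)) (b (l 16589360) (l 16606440)))) (b (a (c (a (l 16616960) (l 16612088)) (l 16610720)) (c (b (l 16605712) (l 16603280)) (l 16581456))) (a (b (c (l 16578960) (l 16607808)) (l 16606968)) (b (c (c (l 16558768) (l 16599944)) (l 16599552)) (l 16597728))))) (b (c (a (b (c (l 16601888) (l 16601224)) (c (l 16598200) (l 16597480))) (b (c (l 16590008) (l 16589864)) (c (l 16586392) (l 16586184)))) (a (b (c (l 16600936) (l 16601000)) (l 16576120)) (b (c (l 16590192) (l 16590984)) (c (l 16586448) (l 16587184))))) (c (a (b (b (l 16594776) (l 16592376)) (b (b (b (l 16590488) (l 16589288)) (l 16588232)) (l 16587128))) (b (b (l 16583272) (b (l 16581616) (l 16580312))) (b (b (b (l 16579056) (c (l 16577688) (l 16578224))) (l 16576824)) (l 16575720)))) (a (b (b (l 16594168) (l 16592160))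 (l 16547688)) (b (b (l 16583880) (l 16581896)) (l 16558472)))))), by decide +kernel⟩

def k238_A00pm_102_s1 : ∃ t, chk3 f_A00pm_102_s1 t 31 82 1 = true :=
  ⟨(c (a (b (a (c (a (l 16591864) (l 16585592)) (a (l 16592664) (l 16586480))) (c (a (l 16579248) (l 16572840)) (a (l 16580168) (l 16573728)))) (a (c (b (l 16584232) (l 16581104)) (b (l 16584720) (l 16581392))) (c (a (l 16573344) (l 16567072)) (a (l 16573776) (l 16567456))))) (a (b (c (a (l 16566344) (l 16559768)) (a (l 16567144) (l 16560448))) (c (a (l 16560736) (l 16554328)) (a (l 16561024) (l 16554472)))) (b (c (a (l 16553128) (l 16546432)) (a (l 16558896) (c (l 16546624) (l 16546968)))) (c (a (l 16547856) (b (l 16542672) (l 16540032))) (a (l 16558312) (b (l 16542560) (l 16539656))))))) (a (b (a (c (a (l 16594048) (l 16587976)) (a (l 16596000) (b (l 16591968) (l 16588192)))) (c (a (l 16581712) (l 16575256)) (a (b (l 16585760) (l 16582016)) (b (l 16579280) (l 16575584))))) (a (b (c (l 16585776) (l 16587384)) (c (l 16582232) (l 16583616))) (a (c (l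 16574800) (l 16576416)) (c (l 16568448) (l 16570040))))) (a (a (b (c (c (l 16568176) (l 16569080)) (b (l 16572552) (l 16568912))) (c (l 16561928) (l 16573928))) (b (c (c (l 16561400) (l 16562240)) (c (l 16563248) (l 16564424))) (c (l 16555240) (b (l 16558424) (l 16554824))))) (b (c (a (c (l 16554488) (l 16555256)) (c (l 16547480) (l 16548160))) (a (c (l 16556192) (l 16557296)) (c (l 16549008) (l 16550024)))) (c (a (b (l 16550048) (l 16546784)) (b (l 16543080) (l 16539880))) (a (b (l 16551392) (l 16547848)) (b (l 16544224) (l 16540720)))))))), by decide +kernel⟩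

def k239_A00pm_102_s1 : ∃ t, chk3 f_A00pm_102_s1 t 31 166 1 = true :=
  ⟨(a (a (c (b (c (l 16577832) (l 16577968)) (c (l 16574312) (l 16574360))) (b (c (l 16578640) (l 16579856)) (c (l 16574960) (l 16576104)))) (c (c (b (l 16565544) (l 16562136)) (b (l 16565672) (l 16562168))) (b (c (l 16566392) (l 16567688)) (c (l 16562792) (l 16564000))))) (a (c (c (b (l 16553096) (l 16549824)) (b (l 16553008) (l 16549608))) (b (c (l 16553512) (l 16554616)) (c (l 16550000) (l 16550984)))) (c (c (b (a (l 16543624) (l 16537248)) (a (l 16540512) (l 16534224))) (b (a (l 16543256) (l 16536648)) (a (l 16539992) (l 16533472)))) (c (b (a (l 16543480) (l 16536632)) (a (l 16540072) (l 16533304))) (b (a (l 16544296) (l 16537216)) (a (l 16540752) (l 16533720))))))), by decide +kernel⟩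

def k240_A00pm_102_s1 : ∃ t, chk3 f_A00pm_102_s1 t 62 167 1 = true :=
  ⟨(b (b (c (a (l 16571376) (l 16559248)) (a (l 16572632) (l 16560520))) (b (c (a (l 16569760) (l 16557680)) (a (l 16571184) (l 16559088))) (b (b (c (a (l 16569024) (l 16556960)) (a (l 16570568) (l 16558480))) (b (c (a (l 16568792) (l 16556736)) (a (l 16570376) (l 16558296))) (b (c (a (l 16568664) (l 16556616)) (a (l 16570280) (l 16558208))) (c (a (l 16568576) (l 16556520)) (a (l 16570232) (l 16558160)))))) (c (a (l 16568128) (l 16556088)) (a (l 16569992) (l 16557928)))))) (c (a (b (b (b (l 16567248) (b (l 16566424) (l 16565752))) (l 16565056)) (l 16563952)) (b (b (b (l 16555224) (b (l 16554416) (l 16553760))) (l 16553080)) (l 16551968))) (a (a (l 16571192) (l 16565400)) (a (l 16527936) (l 16521752))))), by decide +kernel⟩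

def k241_A00pm_102_s1 : ∃ t, chk3 f_A00pm_102_s1 t 63 167 1 = true :=
  ⟨(b (b (c (a (c (l 16547136) (l 16546904)) (a (l 16537584) (l 16531256))) (a (c (l 16547288) (l 16548272)) (c (l 16534072) (l 16534592)))) (b (c (a (l 16545440) (a (l 16536136) (l 16529848))) (a (l 16546304) (l 16538152))) (b (b (c (a (l 16544744) (l 16532328)) (a (l 16545712) (l 16532336))) (b (c (a (l 16544528) (l 16532120)) (a (l 16545528) (l 16532160))) (b (c (a (l 16544408) (l 16532008)) (a (l 16545448) (l 16532080))) (c (a (l 16544320) (l 16531928)) (a (l 16545400) (l 16532032)))))) (c (a (l 16543896) (l 16531512)) (a (l 16545176) (l 16531832)))))) (b (b (c (a (b (l 16543056) (b (l 16542272) (l 16541640))) (b (l 16530704) (b (l 16529952) (c (l 16529408) (l 16529464))))) (a (b (l 16544776) (l 16502376)) (b (l 16531448) (c (l 16530408) (l 16531800))))) (b (b (c (a (l 16541240) (l 16528960)) (a (l 16543992) (l 16530720))) (b (c (a (l 16541104) (l 16528824)) (a (l 16543880) (l 16530616))) (b (c (a (l 16541032) (l 16528760)) (a (l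 16543832) (l 16530560))) (c (a (l 16540984) (l 16528712)) (a (l 16543792) (l 16530528)))))) (c (a (l 16540784) (l 16528512)) (a (l 16543624) (l 16530368))))) (c (a (l 16539864) (l 16527616)) (a (l 16542888) (l 16529680))))), by decide +kernel⟩

def k242_A00pm_102_s1 : ∃ t, chk3 f_A00pm_102_s1 t 15 21 1 = true :=
  ⟨(a (a (a (b (c (l 16637512) (l 16593816)) (c (l 16572216) (l 16570744))) (b (c (b (l 16591360) (l 16579696)) (b (l 16591528) (l 16580112))) (c (l 16562384) (l 16563176)))) (b (c (b (a (l 16580536) (l 16569112)) (a (l 16568920) (l 16557528))) (b (c (l 16534728) (l 16536792)) (a (l 16571384) (l 16561776)))) (c (a (b (l 16557456) (l 16546072)) (c (l 16581736) (l 16541384))) (b (a (l 16560264) (l 16550968)) (l 16502840))))) (a (c (b (a (b (l 16578312) (c (l 16544944) (l 16546784))) (c (b (l 16544760) (l 16532864)) (b (l 16546192) (l 16534952)))) (a (b (c (l 16533424) (l 16535600)) (l 16544160)) (b (c (l 16521248) (l 16523864)) (c (l 16509928) (l 16512936))))) (b (b (c (l 16533464) (l 16515616))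 (c (l 16522880) (l 16505880))) (b (c (l 16512288) (l 16495928)) (a (l 16530352) (l 16519808))))) (c (b (a (b (c (l 16532792) (l 16534056)) (c (l 16520800) (l 16522896))) (b (c (l 16520784) (l 16521680)) (c (a (l 16511800) (l 16505856)) (l 16510752)))) (b (a (c (l 16509112) (l 16511920)) (c (l 16497064) (l 16499872))) (a (c (l 16497704) (l 16501088)) (c (a (l 16488616) (l 16482600)) (l 16489168))))) (b (a (b (c (l 16536184) (l 16539200)) (l 16486056)) (b (c (l 16523448) (l 16526072)) (c (l 16513720) (l 16517736)))) (b (a (l 16476440) (l 16485416)) (a (l 16466752) (l 16476176))))))), by decide +kernel⟩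

def k243_A00pm_102_s1 : ∃ t, chk3 f_A00pm_102_s1 t 14 11 1 = true :=
  ⟨(a (b (a (c (b (a (b (l 16617016) (l 16604952)) (b (l 16610616) (l 16598616))) (a (l 16628960) (l 16622744))) (b (a (b (l 16604448) (l 16592168)) (l 16633856)) (c (l 16658096) (l 16567480)))) (b (c (a (l 16639688) (l 16590360)) (a (l 16585520) (l 16579104))) (c (a (l 16574072) (l 16566840)) (a (l 16561496) (l 16555272))))) (a (c (b (c (l 16605576) (l 16557064)) (a (l 16540184) (l 16534184))) (b (a (l 16550168) (l 16544000)) (l 16586864))) (c (b (a (l 16550728) (l 16543656)) (l 16587200)) (b (l 16618776) (l 16595712))))) (b (b (a (c (l 16620576) (l 16653520)) (c (l 16646264) (l 16557504))) (a (c (l 16639256) (l 16546128)) (a (l 16624000) (l 16616968)))) (a (c (a (l 16608736) (l 16601160)) (b (l 16523024) (l 16500312))) (c (b (l 16516896) (l 16494656)) (b (l 16511936) (l 16489672)))))), by decide +kernel⟩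

def k244_A00pm_102_s1 : ∃ t, chk3 f_A00pm_102_s1 t 15 11 1 = true :=
  ⟨(a (a (b (c (b (a (l 16549248) (l 16539616)) (l 16522008)) (b (l 16460592) (l 16522192))) (c (c (l 16573432) (l 16572528)) (b (l 16500200) (l 16478504)))) (b (c (b (a (l 16529208) (l 16518168)) (a (l 16507016) (l 16496200))) (b (a (l 16532824) (l 16524104)) (l 16465136))) (c (b (a (l 16485168) (l 16474576)) (l 16542384)) (b (l 16401960) (l 16464848))))) (c (b (a (b (a (b (l 16512152) (l 16501184)) (c (b (l 16498824) (l 16487904)) (l 16496768))) (c (a (l 16483632) (l 16471712)) (l 16439152))) (b (a (b (c (l 16486592) (l 16490416)) (c (l 16475696) (l 16479856))) (c (b (a (l 16477440) (l 16471392)) (a (l 16466552) (l 16460488))) (b (l 16478600) (l 16468184)))) (a (b (c (l 16464984) (l 16469400)) (l 16456456)) (c (b (a (l 16455888) (l 16449816)) (l 16442320)) (b (l 16457888) (l 16447688)))))) (b (a (a (l 16463560) (l 16452296)) (a (c (l 16438616) (l 16443608)) (c (l 16468696) (l 16432536)))) (a (a (l 16442512) (l 16431496)) (a (l 16462280)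 (l 6))))) (a (b (a (b (l 16472720) (l 16493896)) (b (b (l 16509648) (l 16499472)) (l 16484336))) (b (a (l 16473328) (l 16464272)) (l 16364824))) (b (b (b (a (l 16498904) (l 16466840)) (a (l 16489080) (l 16457408))) (b (a (l 16479232) (l 16426952)) (a (l 16469440) (l 16459392)))) (b (c (l 16414056) (l 16455048)) (b (l 16351760) (l 6))))))), by decide +kernel⟩

def k245_A00pm_102_s1 : ∃ t, chk3 f_A00pm_102_s1 t 6 3 1 = true :=
  ⟨(b (a (b (a (a (b (b (c (l 16602432) (l 16596416)) (l 16665528)) (l 2)) (b (b (c (l 16590176) (l 16586608)) (c (l 16573520) (l 16566632))) (b (l 16636608) (l 2)))) (a (b (b (c (a (l 16581352) (l 16576032)) (l 16575496)) (c (l 16560928) (l 16555672))) (b (c (l 16544624) (l 16536144)) (l 16523488))) (b (b (c (c (l 16568904) (l 16566840)) (l 16479960)) (c (a (l 16551856) (l 16545952)) (l 16459912))) (c (b (l 16594672) (l 16515936)) (b (l 16524424) (l 16505344)))))) (a (l 2) (a (l 2) (a (l 2) (b (b (l 16491064) (l 2)) (l 2)))))) (b (a (a (b (b (c (c (l 16558856) (l 16555864)) (l 16635504))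 (c (c (l 16538840) (l 16535736)) (l 16531520))) (c (b (l 16602784) (l 16502312)) (b (l 16511944) (l 16493032)))) (b (b (c (c (l 16549232) (l 16545120)) (c (l 16541160) (l 16537344))) (c (c (l 16528224) (l 16524192)) (l 16518720))) (c (b (c (l 16508816) (l 16504608)) (l 16572744)) (b (l 16499104) (l 16480008))))) (b (c (b (a (c (l 16539432) (l 16534232)) (c (l 16529264) (l 16523080))) (a (c (l 16517920) (l 16512824)) (c (l 16507320) (l 16501264)))) (b (a (l 16568680) (l 16598024)) (a (l 16589712) (l 16492896)))) (c (b (a (l 16536880) (l 16567264)) (a (l 16559912) (l 16463608))) (a (b (l 16485824) (l 16466696)) (b (l 16472536) (l 16453048)))))) (b (b (a (c (a (l 16487120) (l 16472816)) (a (l 16474400) (l 16461552))) (a (c (l 16458808) (l 16448072)) (l 6))) (l 6)) (l 6)))) (l 6)), by decide +kernel⟩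

def k246_A00pm_102_s1 : ∃ t, chk3 f_A00pm_102_s1 t 7 3 1 = true :=
  ⟨(b (a (b (a (b (b (a (c (c (l 16518080) (l 16511272)) (l 16585408)) (c (l 16585696) (l 16489384))) (a (c (l 16576624) (l 16479992)) (c (l 16479864) (l 16467616)))) (b (a (c (l 16555352) (l 16459328)) (c (l 16458608) (l 16446712))) (a (c (l 16535128) (l 16439512)) (l 6)))) (a (b (c (c (l 16563368) (l 16473976)) (b (l 16478000) (l 16456264))) (b (a (l 16526320) (l 16436032)) (l 6))) (b (c (b (l 16472736) (l 16451136)) (b (l 16467768) (l 16446216))) (l 6)))) (l 6)) (b (a (b (b (c (a (l 16456464) (l 16437408)) (a (l 16457112) (l 16444104))) (a (a (l 16396432) (l 6)) (l 6))) (l 6)) (l 6)) (l 6))) (l 6)), by decide +kernel⟩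

theorem t247_A00pm_102_s1 : ∃ t, chk3 f_A00pm_102_s1 t 3 3 1 = true := ex3_a k245_A00pm_102_s1 k246_A00pm_102_s1

theorem t248_A00pm_102_s1 : ∃ t, chk3 f_A00pm_102_s1 t 7 11 1 = true := ex3_a k243_A00pm_102_s1 k244_A00pm_102_s1

theorem t249_A00pm_102_s1 : ∃ t, chk3 f_A00pm_102_s1 t 31 167 1 = true := ex3_a k240_A00pm_102_s1 k241_A00pm_102_s1

theorem t250_A00pm_102_s1 : ∃ t, chk3 f_A00pm_102_s1 t 31 83 1 = true := ex3_b k239_A00pm_102_s1 t249_A00pm_102_s1

theorem t251_A00pm_102_s1 : ∃ t, chk3 f_A00pm_102_s1 t 31 41 1 = true := ex3_b k238_A00pm_102_s1 t250_A00pm_102_s1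

theorem t252_A00pm_102_s1 : ∃ t, chk3 f_A00pm_102_s1 t 30 41 1 = true := ex3_b k236_A00pm_102_s1 k237_A00pm_102_s1

theorem t253_A00pm_102_s1 : ∃ t, chk3 f_A00pm_102_s1 t 15 41 1 = true := ex3_a t252_A00pm_102_s1 t251_A00pm_102_s1

theorem t254_A00pm_102_s1 : ∃ t, chk3 f_A00pm_102_s1 t 63 40 1 = true := ex3_c k234_A00pm_102_s1 k235_A00pm_102_s1

theorem t255_A00pm_102_s1 : ∃ t, chk3 f_A00pm_102_s1 t 31 40 1 = true := ex3_a k233_A00pm_102_s1 t254_A00pm_102_s1

theorem t256_A00pm_102_s1 : ∃ t, chk3 f_A00pm_102_s1 t 61 40 1 = true := ex3_a k231_A00pm_102_s1 k232_A00pm_102_s1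

theorem t257_A00pm_102_s1 : ∃ t, chk3 f_A00pm_102_s1 t 60 40 1 = true := ex3_a k229_A00pm_102_s1 k230_A00pm_102_s1

theorem t258_A00pm_102_s1 : ∃ t, chk3 f_A00pm_102_s1 t 30 40 1 = true := ex3_a t257_A00pm_102_s1 t256_A00pm_102_s1

theorem t259_A00pm_102_s1 : ∃ t, chk3 f_A00pm_102_s1 t 15 40 1 = true := ex3_a t258_A00pm_102_s1 t255_A00pm_102_s1

theorem t260_A00pm_102_s1 : ∃ t, chk3 f_A00pm_102_s1 t 15 20 1 = true := ex3_b t259_A00pm_102_s1 t253_A00pm_102_s1

theorem t261_A00pm_102_s1 : ∃ t, chk3 f_A00pm_102_s1 t 15 10 1 = true := ex3_b t260_A00pm_102_s1 k242_A00pm_102_s1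

theorem t262_A00pm_102_s1 : ∃ t, chk3 f_A00pm_102_s1 t 14 41 1 = true := ex3_a k226_A00pm_102_s1 k227_A00pm_102_s1

theorem t263_A00pm_102_s1 : ∃ t, chk3 f_A00pm_102_s1 t 59 40 1 = true := ex3_a k224_A00pm_102_s1 k225_A00pm_102_s1

theorem t264_A00pm_102_s1 : ∃ t, chk3 f_A00pm_102_s1 t 29 40 1 = true := ex3_a k223_A00pm_102_s1 t263_A00pm_102_s1

theorem t265_A00pm_102_s1 : ∃ t, chk3 f_A00pm_102_s1 t 28 40 1 = true := ex3_b k221_A00pm_102_s1 k222_A00pm_102_s1

theorem t266_A00pm_102_s1 : ∃ t, chk3 f_A00pm_102_s1 t 14 40 1 = true := ex3_a t265_A00pm_102_s1 t264_A00pm_102_s1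

theorem t267_A00pm_102_s1 : ∃ t, chk3 f_A00pm_102_s1 t 14 20 1 = true := ex3_b t266_A00pm_102_s1 t262_A00pm_102_s1

theorem t268_A00pm_102_s1 : ∃ t, chk3 f_A00pm_102_s1 t 14 10 1 = true := ex3_b t267_A00pm_102_s1 k228_A00pm_102_s1

theorem t269_A00pm_102_s1 : ∃ t, chk3 f_A00pm_102_s1 t 7 10 1 = true := ex3_a t268_A00pm_102_s1 t261_A00pm_102_s1

theorem t270_A00pm_102_s1 : ∃ t, chk3 f_A00pm_102_s1 t 7 5 1 = true := ex3_b t269_A00pm_102_s1 t248_A00pm_102_s1

theorem t271_A00pm_102_s1 : ∃ t, chk3 f_A00pm_102_s1 t 6 11 1 = true := ex3_a k219_A00pm_102_s1 k220_A00pm_102_s1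

theorem t272_A00pm_102_s1 : ∃ t, chk3 f_A00pm_102_s1 t 13 21 1 = true := ex3_a k217_A00pm_102_s1 k218_A00pm_102_s1

theorem t273_A00pm_102_s1 : ∃ t, chk3 f_A00pm_102_s1 t 12 21 1 = true := ex3_a k215_A00pm_102_s1 k216_A00pm_102_s1

theorem t274_A00pm_102_s1 : ∃ t, chk3 f_A00pm_102_s1 t 6 21 1 = true := ex3_a t273_A00pm_102_s1 t272_A00pm_102_s1

theorem t275_A00pm_102_s1 : ∃ t, chk3 f_A00pm_102_s1 t 27 670 1 = true := ex3_b k212_A00pm_102_s1 k213_A00pm_102_s1

theorem t276_A00pm_102_s1 : ∃ t, chk3 f_A00pm_102_s1 t 27 335 1 = true := ex3_b t275_A00pm_102_s1 k214_A00pm_102_s1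

theorem t277_A00pm_102_s1 : ∃ t, chk3 f_A00pm_102_s1 t 27 167 1 = true := ex3_b k211_A00pm_102_s1 t276_A00pm_102_s1

theorem t278_A00pm_102_s1 : ∃ t, chk3 f_A00pm_102_s1 t 26 670 1 = true := ex3_b k208_A00pm_102_s1 k209_A00pm_102_s1

theorem t279_A00pm_102_s1 : ∃ t, chk3 f_A00pm_102_s1 t 26 335 1 = true := ex3_b t278_A00pm_102_s1 k210_A00pm_102_s1

theorem t280_A00pm_102_s1 : ∃ t, chk3 f_A00pm_102_s1 t 26 167 1 = true := ex3_b k207_A00pm_102_s1 t279_A00pm_102_s1

theorem t281_A00pm_102_s1 : ∃ t, chk3 f_A00pm_102_s1 t 13 167 1 = true := ex3_a t280_A00pm_102_s1 t277_A00pm_102_s1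

theorem t282_A00pm_102_s1 : ∃ t, chk3 f_A00pm_102_s1 t 12 167 3 = true := ex3_a k205_A00pm_102_s1 k206_A00pm_102_s1

theorem t283_A00pm_102_s1 : ∃ t, chk3 f_A00pm_102_s1 t 12 670 2 = true := ex3_b k202_A00pm_102_s1 k203_A00pm_102_s1

theorem t284_A00pm_102_s1 : ∃ t, chk3 f_A00pm_102_s1 t 12 335 2 = true := ex3_b t283_A00pm_102_s1 k204_A00pm_102_s1

theorem t285_A00pm_102_s1 : ∃ t, chk3 f_A00pm_102_s1 t 12 334 2 = true := ex3_b k200_A00pm_102_s1 k201_A00pm_102_s1

theorem t286_A00pm_102_s1 : ∃ t, chk3 f_A00pm_102_s1 t 12 167 2 = true := ex3_b t285_A00pm_102_s1 t284_A00pm_102_s1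

theorem t287_A00pm_102_s1 : ∃ t, chk3 f_A00pm_102_s1 t 12 167 1 = true := ex3_c t286_A00pm_102_s1 t282_A00pm_102_s1

theorem t288_A00pm_102_s1 : ∃ t, chk3 f_A00pm_102_s1 t 6 167 1 = true := ex3_a t287_A00pm_102_s1 t281_A00pm_102_s1

theorem t289_A00pm_102_s1 : ∃ t, chk3 f_A00pm_102_s1 t 25 166 16 = true := ex3_c k193_A00pm_102_s1 k194_A00pm_102_s1

theorem t290_A00pm_102_s1 : ∃ t, chk3 f_A00pm_102_s1 t 12 166 16 = true := ex3_a k192_A00pm_102_s1 t289_A00pm_102_s1

theorem t291_A00pm_102_s1 : ∃ t, chk3 f_A00pm_102_s1 t 12 166 8 = true := ex3_c t290_A00pm_102_s1 k195_A00pm_102_s1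

theorem t292_A00pm_102_s1 : ∃ t, chk3 f_A00pm_102_s1 t 12 166 4 = true := ex3_c t291_A00pm_102_s1 k196_A00pm_102_s1

theorem t293_A00pm_102_s1 : ∃ t, chk3 f_A00pm_102_s1 t 12 166 2 = true := ex3_c t292_A00pm_102_s1 k197_A00pm_102_s1

theorem t294_A00pm_102_s1 : ∃ t, chk3 f_A00pm_102_s1 t 12 166 1 = true := ex3_c t293_A00pm_102_s1 k198_A00pm_102_s1

theorem t295_A00pm_102_s1 : ∃ t, chk3 f_A00pm_102_s1 t 6 166 1 = true := ex3_a t294_A00pm_102_s1 k199_A00pm_102_s1

theorem t296_A00pm_102_s1 : ∃ t, chk3 f_A00pm_102_s1 t 6 83 1 = true := ex3_b t295_A00pm_102_s1 t288_A00pm_102_s1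

theorem t297_A00pm_102_s1 : ∃ t, chk3 f_A00pm_102_s1 t 6 82 3 = true := ex3_a k190_A00pm_102_s1 k191_A00pm_102_s1

theorem t298_A00pm_102_s1 : ∃ t, chk3 f_A00pm_102_s1 t 26 82 2 = true := ex3_b k187_A00pm_102_s1 k188_A00pm_102_s1

theorem t299_A00pm_102_s1 : ∃ t, chk3 f_A00pm_102_s1 t 13 82 2 = true := ex3_a t298_A00pm_102_s1 k189_A00pm_102_s1

theorem t300_A00pm_102_s1 : ∃ t, chk3 f_A00pm_102_s1 t 6 82 2 = true := ex3_a k186_A00pm_102_s1 t299_A00pm_102_s1

theorem t301_A00pm_102_s1 : ∃ t, chk3 f_A00pm_102_s1 t 6 82 1 = true := ex3_c t300_A00pm_102_s1 t297_A00pm_102_s1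

theorem t302_A00pm_102_s1 : ∃ t, chk3 f_A00pm_102_s1 t 6 41 1 = true := ex3_b t301_A00pm_102_s1 t296_A00pm_102_s1

theorem t303_A00pm_102_s1 : ∃ t, chk3 f_A00pm_102_s1 t 6 81 3 = true := ex3_a k184_A00pm_102_s1 k185_A00pm_102_s1

theorem t304_A00pm_102_s1 : ∃ t, chk3 f_A00pm_102_s1 t 6 81 2 = true := ex3_a k182_A00pm_102_s1 k183_A00pm_102_s1

theorem t305_A00pm_102_s1 : ∃ t, chk3 f_A00pm_102_s1 t 6 81 1 = true := ex3_c t304_A00pm_102_s1 t303_A00pm_102_s1

theorem t306_A00pm_102_s1 : ∃ t, chk3 f_A00pm_102_s1 t 12 80 3 = true := ex3_a k179_A00pm_102_s1 k180_A00pm_102_s1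

theorem t307_A00pm_102_s1 : ∃ t, chk3 f_A00pm_102_s1 t 6 80 3 = true := ex3_a t306_A00pm_102_s1 k181_A00pm_102_s1

theorem t308_A00pm_102_s1 : ∃ t, chk3 f_A00pm_102_s1 t 12 80 2 = true := ex3_a k176_A00pm_102_s1 k177_A00pm_102_s1

theorem t309_A00pm_102_s1 : ∃ t, chk3 f_A00pm_102_s1 t 6 80 2 = true := ex3_a t308_A00pm_102_s1 k178_A00pm_102_s1

theorem t310_A00pm_102_s1 : ∃ t, chk3 f_A00pm_102_s1 t 6 80 1 = true := ex3_c t309_A00pm_102_s1 t307_A00pm_102_s1

theorem t311_A00pm_102_s1 : ∃ t, chk3 f_A00pm_102_s1 t 6 40 1 = true := ex3_b t310_A00pm_102_s1 t305_A00pm_102_s1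

theorem t312_A00pm_102_s1 : ∃ t, chk3 f_A00pm_102_s1 t 6 20 1 = true := ex3_b t311_A00pm_102_s1 t302_A00pm_102_s1

theorem t313_A00pm_102_s1 : ∃ t, chk3 f_A00pm_102_s1 t 6 10 1 = true := ex3_b t312_A00pm_102_s1 t274_A00pm_102_s1

theorem t314_A00pm_102_s1 : ∃ t, chk3 f_A00pm_102_s1 t 6 5 1 = true := ex3_b t313_A00pm_102_s1 t271_A00pm_102_s1

theorem t315_A00pm_102_s1 : ∃ t, chk3 f_A00pm_102_s1 t 3 5 1 = true := ex3_a t314_A00pm_102_s1 t270_A00pm_102_s1

theorem t316_A00pm_102_s1 : ∃ t, chk3 f_A00pm_102_s1 t 31 19 3 = true := ex3_b k174_A00pm_102_s1 k175_A00pm_102_s1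

theorem t317_A00pm_102_s1 : ∃ t, chk3 f_A00pm_102_s1 t 31 19 2 = true := ex3_a k172_A00pm_102_s1 k173_A00pm_102_s1

theorem t318_A00pm_102_s1 : ∃ t, chk3 f_A00pm_102_s1 t 31 19 1 = true := ex3_c t317_A00pm_102_s1 t316_A00pm_102_s1

theorem t319_A00pm_102_s1 : ∃ t, chk3 f_A00pm_102_s1 t 30 39 3 = true := ex3_a k170_A00pm_102_s1 k171_A00pm_102_s1

theorem t320_A00pm_102_s1 : ∃ t, chk3 f_A00pm_102_s1 t 30 39 1 = true := ex3_c k169_A00pm_102_s1 t319_A00pm_102_s1

theorem t321_A00pm_102_s1 : ∃ t, chk3 f_A00pm_102_s1 t 30 38 1 = true := ex3_c k167_A00pm_102_s1 k168_A00pm_102_s1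

theorem t322_A00pm_102_s1 : ∃ t, chk3 f_A00pm_102_s1 t 30 19 1 = true := ex3_b t321_A00pm_102_s1 t320_A00pm_102_s1

theorem t323_A00pm_102_s1 : ∃ t, chk3 f_A00pm_102_s1 t 15 19 1 = true := ex3_a t322_A00pm_102_s1 t318_A00pm_102_s1

theorem t324_A00pm_102_s1 : ∃ t, chk3 f_A00pm_102_s1 t 59 79 1 = true := ex3_a k165_A00pm_102_s1 k166_A00pm_102_s1

theorem t325_A00pm_102_s1 : ∃ t, chk3 f_A00pm_102_s1 t 59 39 1 = true := ex3_b k164_A00pm_102_s1 t324_A00pm_102_s1

theorem t326_A00pm_102_s1 : ∃ t, chk3 f_A00pm_102_s1 t 58 79 1 = true := ex3_c k162_A00pm_102_s1 k163_A00pm_102_s1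

theorem t327_A00pm_102_s1 : ∃ t, chk3 f_A00pm_102_s1 t 58 78 1 = true := ex3_b k160_A00pm_102_s1 k161_A00pm_102_s1

theorem t328_A00pm_102_s1 : ∃ t, chk3 f_A00pm_102_s1 t 58 39 1 = true := ex3_b t327_A00pm_102_s1 t326_A00pm_102_s1

theorem t329_A00pm_102_s1 : ∃ t, chk3 f_A00pm_102_s1 t 29 39 1 = true := ex3_a t328_A00pm_102_s1 t325_A00pm_102_s1

theorem t330_A00pm_102_s1 : ∃ t, chk3 f_A00pm_102_s1 t 58 77 1 = true := ex3_b k157_A00pm_102_s1 k158_A00pm_102_s1

theorem t331_A00pm_102_s1 : ∃ t, chk3 f_A00pm_102_s1 t 29 77 1 = true := ex3_a t330_A00pm_102_s1 k159_A00pm_102_s1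

theorem t332_A00pm_102_s1 : ∃ t, chk3 f_A00pm_102_s1 t 59 76 1 = true := ex3_c k155_A00pm_102_s1 k156_A00pm_102_s1

theorem t333_A00pm_102_s1 : ∃ t, chk3 f_A00pm_102_s1 t 58 76 1 = true := ex3_b k153_A00pm_102_s1 k154_A00pm_102_s1

theorem t334_A00pm_102_s1 : ∃ t, chk3 f_A00pm_102_s1 t 29 76 1 = true := ex3_a t333_A00pm_102_s1 t332_A00pm_102_s1

theorem t335_A00pm_102_s1 : ∃ t, chk3 f_A00pm_102_s1 t 29 38 1 = true := ex3_b t334_A00pm_102_s1 t331_A00pm_102_s1

theorem t336_A00pm_102_s1 : ∃ t, chk3 f_A00pm_102_s1 t 29 19 1 = true := ex3_b t335_A00pm_102_s1 t329_A00pm_102_s1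

theorem t337_A00pm_102_s1 : ∃ t, chk3 f_A00pm_102_s1 t 57 39 1 = true := ex3_b k151_A00pm_102_s1 k152_A00pm_102_s1

theorem t338_A00pm_102_s1 : ∃ t, chk3 f_A00pm_102_s1 t 28 39 1 = true := ex3_a k150_A00pm_102_s1 t337_A00pm_102_s1

theorem t339_A00pm_102_s1 : ∃ t, chk3 f_A00pm_102_s1 t 115 38 4 = true := ex3_c k146_A00pm_102_s1 k147_A00pm_102_s1

theorem t340_A00pm_102_s1 : ∃ t, chk3 f_A00pm_102_s1 t 115 38 2 = true := ex3_c t339_A00pm_102_s1 k148_A00pm_102_s1

theorem t341_A00pm_102_s1 : ∃ t, chk3 f_A00pm_102_s1 t 57 38 2 = true := ex3_a k145_A00pm_102_s1 t340_A00pm_102_s1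

theorem t342_A00pm_102_s1 : ∃ t, chk3 f_A00pm_102_s1 t 57 38 1 = true := ex3_c t341_A00pm_102_s1 k149_A00pm_102_s1

theorem t343_A00pm_102_s1 : ∃ t, chk3 f_A00pm_102_s1 t 28 38 1 = true := ex3_a k144_A00pm_102_s1 t342_A00pm_102_s1

theorem t344_A00pm_102_s1 : ∃ t, chk3 f_A00pm_102_s1 t 28 19 1 = true := ex3_b t343_A00pm_102_s1 t338_A00pm_102_s1

theorem t345_A00pm_102_s1 : ∃ t, chk3 f_A00pm_102_s1 t 14 19 1 = true := ex3_a t344_A00pm_102_s1 t336_A00pm_102_s1

theorem t346_A00pm_102_s1 : ∃ t, chk3 f_A00pm_102_s1 t 7 19 1 = true := ex3_a t345_A00pm_102_s1 t323_A00pm_102_s1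

theorem t347_A00pm_102_s1 : ∃ t, chk3 f_A00pm_102_s1 t 31 18 3 = true := ex3_a k142_A00pm_102_s1 k143_A00pm_102_s1

theorem t348_A00pm_102_s1 : ∃ t, chk3 f_A00pm_102_s1 t 31 18 2 = true := ex3_a k140_A00pm_102_s1 k141_A00pm_102_s1

theorem t349_A00pm_102_s1 : ∃ t, chk3 f_A00pm_102_s1 t 31 18 1 = true := ex3_c t348_A00pm_102_s1 t347_A00pm_102_s1

theorem t350_A00pm_102_s1 : ∃ t, chk3 f_A00pm_102_s1 t 60 37 1 = true := ex3_b k137_A00pm_102_s1 k138_A00pm_102_s1

theorem t351_A00pm_102_s1 : ∃ t, chk3 f_A00pm_102_s1 t 30 37 1 = true := ex3_a t350_A00pm_102_s1 k139_A00pm_102_s1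

theorem t352_A00pm_102_s1 : ∃ t, chk3 f_A00pm_102_s1 t 61 36 1 = true := ex3_b k135_A00pm_102_s1 k136_A00pm_102_s1

theorem t353_A00pm_102_s1 : ∃ t, chk3 f_A00pm_102_s1 t 60 36 1 = true := ex3_b k133_A00pm_102_s1 k134_A00pm_102_s1

theorem t354_A00pm_102_s1 : ∃ t, chk3 f_A00pm_102_s1 t 30 36 1 = true := ex3_a t353_A00pm_102_s1 t352_A00pm_102_s1

theorem t355_A00pm_102_s1 : ∃ t, chk3 f_A00pm_102_s1 t 30 18 1 = true := ex3_b t354_A00pm_102_s1 t351_A00pm_102_s1

theorem t356_A00pm_102_s1 : ∃ t, chk3 f_A00pm_102_s1 t 15 18 1 = true := ex3_a t355_A00pm_102_s1 t349_A00pm_102_s1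

theorem t357_A00pm_102_s1 : ∃ t, chk3 f_A00pm_102_s1 t 29 75 3 = true := ex3_b k131_A00pm_102_s1 k132_A00pm_102_s1

theorem t358_A00pm_102_s1 : ∃ t, chk3 f_A00pm_102_s1 t 29 303 18 = true := ex3_b k127_A00pm_102_s1 k128_A00pm_102_s1

theorem t359_A00pm_102_s1 : ∃ t, chk3 f_A00pm_102_s1 t 29 303 9 = true := ex3_c t358_A00pm_102_s1 k129_A00pm_102_s1

theorem t360_A00pm_102_s1 : ∃ t, chk3 f_A00pm_102_s1 t 29 1210 36 = true := ex3_c k122_A00pm_102_s1 k123_A00pm_102_s1

theorem t361_A00pm_102_s1 : ∃ t, chk3 f_A00pm_102_s1 t 29 605 36 = true := ex3_b t360_A00pm_102_s1 k124_A00pm_102_s1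

theorem t362_A00pm_102_s1 : ∃ t, chk3 f_A00pm_102_s1 t 29 605 18 = true := ex3_c t361_A00pm_102_s1 k125_A00pm_102_s1

theorem t363_A00pm_102_s1 : ∃ t, chk3 f_A00pm_102_s1 t 29 1209 74 = true := ex3_b k119_A00pm_102_s1 k120_A00pm_102_s1

theorem t364_A00pm_102_s1 : ∃ t, chk3 f_A00pm_102_s1 t 29 1209 37 = true := ex3_c t363_A00pm_102_s1 k121_A00pm_102_s1

theorem t365_A00pm_102_s1 : ∃ t, chk3 f_A00pm_102_s1 t 29 1208 37 = true := ex3_c k117_A00pm_102_s1 k118_A00pm_102_s1

theorem t366_A00pm_102_s1 : ∃ t, chk3 f_A00pm_102_s1 t 29 604 37 = true := ex3_b t365_A00pm_102_s1 t364_A00pm_102_s1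

theorem t367_A00pm_102_s1 : ∃ t, chk3 f_A00pm_102_s1 t 29 1209 73 = true := ex3_b k115_A00pm_102_s1 k116_A00pm_102_s1

theorem t368_A00pm_102_s1 : ∃ t, chk3 f_A00pm_102_s1 t 29 1209 36 = true := ex3_c k114_A00pm_102_s1 t367_A00pm_102_s1

theorem t369_A00pm_102_s1 : ∃ t, chk3 f_A00pm_102_s1 t 29 604 36 = true := ex3_b k113_A00pm_102_s1 t368_A00pm_102_s1

theorem t370_A00pm_102_s1 : ∃ t, chk3 f_A00pm_102_s1 t 29 604 18 = true := ex3_c t369_A00pm_102_s1 t366_A00pm_102_s1

theorem t371_A00pm_102_s1 : ∃ t, chk3 f_A00pm_102_s1 t 29 302 18 = true := ex3_b t370_A00pm_102_s1 t362_A00pm_102_s1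

theorem t372_A00pm_102_s1 : ∃ t, chk3 f_A00pm_102_s1 t 29 302 9 = true := ex3_c t371_A00pm_102_s1 k126_A00pm_102_s1

theorem t373_A00pm_102_s1 : ∃ t, chk3 f_A00pm_102_s1 t 29 151 9 = true := ex3_b t372_A00pm_102_s1 t359_A00pm_102_s1

theorem t374_A00pm_102_s1 : ∃ t, chk3 f_A00pm_102_s1 t 29 606 34 = true := ex3_b k109_A00pm_102_s1 k110_A00pm_102_s1

theorem t375_A00pm_102_s1 : ∃ t, chk3 f_A00pm_102_s1 t 29 606 17 = true := ex3_c t374_A00pm_102_s1 k111_A00pm_102_s1

theorem t376_A00pm_102_s1 : ∃ t, chk3 f_A00pm_102_s1 t 29 303 17 = true := ex3_b t375_A00pm_102_s1 k112_A00pm_102_s1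

theorem t377_A00pm_102_s1 : ∃ t, chk3 f_A00pm_102_s1 t 29 607 16 = true := ex3_c k107_A00pm_102_s1 k108_A00pm_102_s1

theorem t378_A00pm_102_s1 : ∃ t, chk3 f_A00pm_102_s1 t 29 1212 33 = true := ex3_c k104_A00pm_102_s1 k105_A00pm_102_s1

theorem t379_A00pm_102_s1 : ∃ t, chk3 f_A00pm_102_s1 t 29 606 33 = true := ex3_b t378_A00pm_102_s1 k106_A00pm_102_s1

theorem t380_A00pm_102_s1 : ∃ t, chk3 f_A00pm_102_s1 t 29 1212 65 = true := ex3_b k101_A00pm_102_s1 k102_A00pm_102_s1

theorem t381_A00pm_102_s1 : ∃ t, chk3 f_A00pm_102_s1 t 29 1212 64 = true := ex3_b k99_A00pm_102_s1 k100_A00pm_102_s1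

theorem t382_A00pm_102_s1 : ∃ t, chk3 f_A00pm_102_s1 t 29 1212 32 = true := ex3_c t381_A00pm_102_s1 t380_A00pm_102_s1

theorem t383_A00pm_102_s1 : ∃ t, chk3 f_A00pm_102_s1 t 29 606 32 = true := ex3_b t382_A00pm_102_s1 k103_A00pm_102_s1

theorem t384_A00pm_102_s1 : ∃ t, chk3 f_A00pm_102_s1 t 29 606 16 = true := ex3_c t383_A00pm_102_s1 t379_A00pm_102_s1

theorem t385_A00pm_102_s1 : ∃ t, chk3 f_A00pm_102_s1 t 29 303 16 = true := ex3_b t384_A00pm_102_s1 t377_A00pm_102_s1

theorem t386_A00pm_102_s1 : ∃ t, chk3 f_A00pm_102_s1 t 29 303 8 = true := ex3_c t385_A00pm_102_s1 t376_A00pm_102_s1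

theorem t387_A00pm_102_s1 : ∃ t, chk3 f_A00pm_102_s1 t 29 1210 71 = true := ex3_b k96_A00pm_102_s1 k97_A00pm_102_s1

theorem t388_A00pm_102_s1 : ∃ t, chk3 f_A00pm_102_s1 t 29 1210 70 = true := ex3_b k94_A00pm_102_s1 k95_A00pm_102_s1

theorem t389_A00pm_102_s1 : ∃ t, chk3 f_A00pm_102_s1 t 29 1210 35 = true := ex3_c t388_A00pm_102_s1 t387_A00pm_102_s1

theorem t390_A00pm_102_s1 : ∃ t, chk3 f_A00pm_102_s1 t 29 605 35 = true := ex3_b t389_A00pm_102_s1 k98_A00pm_102_s1

theorem t391_A00pm_102_s1 : ∃ t, chk3 f_A00pm_102_s1 t 29 1211 34 = true := ex3_c k92_A00pm_102_s1 k93_A00pm_102_s1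

theorem t392_A00pm_102_s1 : ∃ t, chk3 f_A00pm_102_s1 t 29 1210 69 = true := ex3_b k90_A00pm_102_s1 k91_A00pm_102_s1

theorem t393_A00pm_102_s1 : ∃ t, chk3 f_A00pm_102_s1 t 29 1210 34 = true := ex3_c k89_A00pm_102_s1 t392_A00pm_102_s1

theorem t394_A00pm_102_s1 : ∃ t, chk3 f_A00pm_102_s1 t 29 605 34 = true := ex3_b t393_A00pm_102_s1 t391_A00pm_102_s1

theorem t395_A00pm_102_s1 : ∃ t, chk3 f_A00pm_102_s1 t 29 605 17 = true := ex3_c t394_A00pm_102_s1 t390_A00pm_102_s1

theorem t396_A00pm_102_s1 : ∃ t, chk3 f_A00pm_102_s1 t 29 1209 35 = true := ex3_c k87_A00pm_102_s1 k88_A00pm_102_s1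

theorem t397_A00pm_102_s1 : ∃ t, chk3 f_A00pm_102_s1 t 29 604 35 = true := ex3_b k86_A00pm_102_s1 t396_A00pm_102_s1

theorem t398_A00pm_102_s1 : ∃ t, chk3 f_A00pm_102_s1 t 29 604 17 = true := ex3_c k85_A00pm_102_s1 t397_A00pm_102_s1

theorem t399_A00pm_102_s1 : ∃ t, chk3 f_A00pm_102_s1 t 29 302 17 = true := ex3_b t398_A00pm_102_s1 t395_A00pm_102_s1

theorem t400_A00pm_102_s1 : ∃ t, chk3 f_A00pm_102_s1 t 29 1211 67 = true := ex3_b k83_A00pm_102_s1 k84_A00pm_102_s1

theorem t401_A00pm_102_s1 : ∃ t, chk3 f_A00pm_102_s1 t 29 1211 66 = true := ex3_b k81_A00pm_102_s1 k82_A00pm_102_s1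

theorem t402_A00pm_102_s1 : ∃ t, chk3 f_A00pm_102_s1 t 29 1211 33 = true := ex3_c t401_A00pm_102_s1 t400_A00pm_102_s1

theorem t403_A00pm_102_s1 : ∃ t, chk3 f_A00pm_102_s1 t 29 605 33 = true := ex3_b k80_A00pm_102_s1 t402_A00pm_102_s1

theorem t404_A00pm_102_s1 : ∃ t, chk3 f_A00pm_102_s1 t 29 1211 32 = true := ex3_c k78_A00pm_102_s1 k79_A00pm_102_s1

theorem t405_A00pm_102_s1 : ∃ t, chk3 f_A00pm_102_s1 t 29 605 32 = true := ex3_b k77_A00pm_102_s1 t404_A00pm_102_s1

theorem t406_A00pm_102_s1 : ∃ t, chk3 f_A00pm_102_s1 t 29 605 16 = true := ex3_c t405_A00pm_102_s1 t403_A00pm_102_s1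

theorem t407_A00pm_102_s1 : ∃ t, chk3 f_A00pm_102_s1 t 29 302 16 = true := ex3_b k76_A00pm_102_s1 t406_A00pm_102_s1

theorem t408_A00pm_102_s1 : ∃ t, chk3 f_A00pm_102_s1 t 29 302 8 = true := ex3_c t407_A00pm_102_s1 t399_A00pm_102_s1

theorem t409_A00pm_102_s1 : ∃ t, chk3 f_A00pm_102_s1 t 29 151 8 = true := ex3_b t408_A00pm_102_s1 t386_A00pm_102_s1

theorem t410_A00pm_102_s1 : ∃ t, chk3 f_A00pm_102_s1 t 29 151 4 = true := ex3_c t409_A00pm_102_s1 t373_A00pm_102_s1

theorem t411_A00pm_102_s1 : ∃ t, chk3 f_A00pm_102_s1 t 29 151 2 = true := ex3_c t410_A00pm_102_s1 k130_A00pm_102_s1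

theorem t412_A00pm_102_s1 : ∃ t, chk3 f_A00pm_102_s1 t 29 75 2 = true := ex3_b k75_A00pm_102_s1 t411_A00pm_102_s1

theorem t413_A00pm_102_s1 : ∃ t, chk3 f_A00pm_102_s1 t 29 75 1 = true := ex3_c t412_A00pm_102_s1 t357_A00pm_102_s1

theorem t414_A00pm_102_s1 : ∃ t, chk3 f_A00pm_102_s1 t 29 74 3 = true := ex3_c k73_A00pm_102_s1 k74_A00pm_102_s1

theorem t415_A00pm_102_s1 : ∃ t, chk3 f_A00pm_102_s1 t 29 149 35 = true := ex3_b k69_A00pm_102_s1 k70_A00pm_102_s1

theorem t416_A00pm_102_s1 : ∃ t, chk3 f_A00pm_102_s1 t 29 74 35 = true := ex3_b k68_A00pm_102_s1 t415_A00pm_102_s1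

theorem t417_A00pm_102_s1 : ∃ t, chk3 f_A00pm_102_s1 t 29 74 17 = true := ex3_c k67_A00pm_102_s1 t416_A00pm_102_s1

theorem t418_A00pm_102_s1 : ∃ t, chk3 f_A00pm_102_s1 t 29 299 32 = true := ex3_b k64_A00pm_102_s1 k65_A00pm_102_s1

theorem t419_A00pm_102_s1 : ∃ t, chk3 f_A00pm_102_s1 t 29 149 32 = true := ex3_b k63_A00pm_102_s1 t418_A00pm_102_s1

theorem t420_A00pm_102_s1 : ∃ t, chk3 f_A00pm_102_s1 t 29 74 32 = true := ex3_b k62_A00pm_102_s1 t419_A00pm_102_s1

theorem t421_A00pm_102_s1 : ∃ t, chk3 f_A00pm_102_s1 t 29 74 16 = true := ex3_c t420_A00pm_102_s1 k66_A00pm_102_s1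

theorem t422_A00pm_102_s1 : ∃ t, chk3 f_A00pm_102_s1 t 29 74 8 = true := ex3_c t421_A00pm_102_s1 t417_A00pm_102_s1

theorem t423_A00pm_102_s1 : ∃ t, chk3 f_A00pm_102_s1 t 29 74 4 = true := ex3_c t422_A00pm_102_s1 k71_A00pm_102_s1

theorem t424_A00pm_102_s1 : ∃ t, chk3 f_A00pm_102_s1 t 29 74 2 = true := ex3_c t423_A00pm_102_s1 k72_A00pm_102_s1

theorem t425_A00pm_102_s1 : ∃ t, chk3 f_A00pm_102_s1 t 29 74 1 = true := ex3_c t424_A00pm_102_s1 t414_A00pm_102_s1

theorem t426_A00pm_102_s1 : ∃ t, chk3 f_A00pm_102_s1 t 29 37 1 = true := ex3_b t425_A00pm_102_s1 t413_A00pm_102_s1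

theorem t427_A00pm_102_s1 : ∃ t, chk3 f_A00pm_102_s1 t 29 36 1 = true := ex3_c k60_A00pm_102_s1 k61_A00pm_102_s1

theorem t428_A00pm_102_s1 : ∃ t, chk3 f_A00pm_102_s1 t 29 18 1 = true := ex3_b t427_A00pm_102_s1 t426_A00pm_102_s1

theorem t429_A00pm_102_s1 : ∃ t, chk3 f_A00pm_102_s1 t 57 75 1 = true := ex3_a k58_A00pm_102_s1 k59_A00pm_102_s1

theorem t430_A00pm_102_s1 : ∃ t, chk3 f_A00pm_102_s1 t 57 37 1 = true := ex3_b k57_A00pm_102_s1 t429_A00pm_102_s1

theorem t431_A00pm_102_s1 : ∃ t, chk3 f_A00pm_102_s1 t 28 37 1 = true := ex3_a k56_A00pm_102_s1 t430_A00pm_102_s1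

theorem t432_A00pm_102_s1 : ∃ t, chk3 f_A00pm_102_s1 t 28 18 1 = true := ex3_b k55_A00pm_102_s1 t431_A00pm_102_s1

theorem t433_A00pm_102_s1 : ∃ t, chk3 f_A00pm_102_s1 t 14 18 1 = true := ex3_a t432_A00pm_102_s1 t428_A00pm_102_s1

theorem t434_A00pm_102_s1 : ∃ t, chk3 f_A00pm_102_s1 t 7 18 1 = true := ex3_a t433_A00pm_102_s1 t356_A00pm_102_s1

theorem t435_A00pm_102_s1 : ∃ t, chk3 f_A00pm_102_s1 t 7 9 1 = true := ex3_b t434_A00pm_102_s1 t346_A00pm_102_s1

theorem t436_A00pm_102_s1 : ∃ t, chk3 f_A00pm_102_s1 t 62 35 1 = true := ex3_c k52_A00pm_102_s1 k53_A00pm_102_s1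

theorem t437_A00pm_102_s1 : ∃ t, chk3 f_A00pm_102_s1 t 124 69 1 = true := ex3_c k49_A00pm_102_s1 k50_A00pm_102_s1

theorem t438_A00pm_102_s1 : ∃ t, chk3 f_A00pm_102_s1 t 62 69 1 = true := ex3_a t437_A00pm_102_s1 k51_A00pm_102_s1

theorem t439_A00pm_102_s1 : ∃ t, chk3 f_A00pm_102_s1 t 124 68 1 = true := ex3_c k46_A00pm_102_s1 k47_A00pm_102_s1

theorem t440_A00pm_102_s1 : ∃ t, chk3 f_A00pm_102_s1 t 62 68 1 = true := ex3_a t439_A00pm_102_s1 k48_A00pm_102_s1

theorem t441_A00pm_102_s1 : ∃ t, chk3 f_A00pm_102_s1 t 62 34 1 = true := ex3_b t440_A00pm_102_s1 t438_A00pm_102_s1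

theorem t442_A00pm_102_s1 : ∃ t, chk3 f_A00pm_102_s1 t 62 17 1 = true := ex3_b t441_A00pm_102_s1 t436_A00pm_102_s1

theorem t443_A00pm_102_s1 : ∃ t, chk3 f_A00pm_102_s1 t 31 17 1 = true := ex3_a t442_A00pm_102_s1 k54_A00pm_102_s1

theorem t444_A00pm_102_s1 : ∃ t, chk3 f_A00pm_102_s1 t 30 71 1 = true := ex3_a k44_A00pm_102_s1 k45_A00pm_102_s1

theorem t445_A00pm_102_s1 : ∃ t, chk3 f_A00pm_102_s1 t 61 70 1 = true := ex3_b k42_A00pm_102_s1 k43_A00pm_102_s1

theorem t446_A00pm_102_s1 : ∃ t, chk3 f_A00pm_102_s1 t 30 70 1 = true := ex3_a k41_A00pm_102_s1 t445_A00pm_102_s1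

theorem t447_A00pm_102_s1 : ∃ t, chk3 f_A00pm_102_s1 t 30 35 1 = true := ex3_b t446_A00pm_102_s1 t444_A00pm_102_s1

theorem t448_A00pm_102_s1 : ∃ t, chk3 f_A00pm_102_s1 t 123 34 1 = true := ex3_b k39_A00pm_102_s1 k40_A00pm_102_s1

theorem t449_A00pm_102_s1 : ∃ t, chk3 f_A00pm_102_s1 t 61 34 1 = true := ex3_a k38_A00pm_102_s1 t448_A00pm_102_s1

theorem t450_A00pm_102_s1 : ∃ t, chk3 f_A00pm_102_s1 t 30 34 1 = true := ex3_a k37_A00pm_102_s1 t449_A00pm_102_s1

theorem t451_A00pm_102_s1 : ∃ t, chk3 f_A00pm_102_s1 t 30 17 1 = true := ex3_b t450_A00pm_102_s1 t447_A00pm_102_s1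

theorem t452_A00pm_102_s1 : ∃ t, chk3 f_A00pm_102_s1 t 15 17 1 = true := ex3_a t451_A00pm_102_s1 t443_A00pm_102_s1

theorem t453_A00pm_102_s1 : ∃ t, chk3 f_A00pm_102_s1 t 15 8 1 = true := ex3_b k36_A00pm_102_s1 t452_A00pm_102_s1

theorem t454_A00pm_102_s1 : ∃ t, chk3 f_A00pm_102_s1 t 7 8 1 = true := ex3_a k35_A00pm_102_s1 t453_A00pm_102_s1

theorem t455_A00pm_102_s1 : ∃ t, chk3 f_A00pm_102_s1 t 7 4 1 = true := ex3_b t454_A00pm_102_s1 t435_A00pm_102_s1

theorem t456_A00pm_102_s1 : ∃ t, chk3 f_A00pm_102_s1 t 13 4 3 = true := ex3_c k33_A00pm_102_s1 k34_A00pm_102_s1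

theorem t457_A00pm_102_s1 : ∃ t, chk3 f_A00pm_102_s1 t 6 4 3 = true := ex3_a k32_A00pm_102_s1 t456_A00pm_102_s1

theorem t458_A00pm_102_s1 : ∃ t, chk3 f_A00pm_102_s1 t 13 4 2 = true := ex3_c k30_A00pm_102_s1 k31_A00pm_102_s1

theorem t459_A00pm_102_s1 : ∃ t, chk3 f_A00pm_102_s1 t 6 4 2 = true := ex3_a k29_A00pm_102_s1 t458_A00pm_102_s1

theorem t460_A00pm_102_s1 : ∃ t, chk3 f_A00pm_102_s1 t 6 4 1 = true := ex3_c t459_A00pm_102_s1 t457_A00pm_102_s1

theorem t461_A00pm_102_s1 : ∃ t, chk3 f_A00pm_102_s1 t 3 4 1 = true := ex3_a t460_A00pm_102_s1 t455_A00pm_102_s1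

theorem t462_A00pm_102_s1 : ∃ t, chk3 f_A00pm_102_s1 t 3 2 1 = true := ex3_b t461_A00pm_102_s1 t315_A00pm_102_s1

theorem t463_A00pm_102_s1 : ∃ t, chk3 f_A00pm_102_s1 t 3 1 1 = true := ex3_b t462_A00pm_102_s1 t247_A00pm_102_s1

theorem t464_A00pm_102_s1 : ∃ t, chk3 f_A00pm_102_s1 t 11 21 1 = true := ex3_a k25_A00pm_102_s1 k26_A00pm_102_s1

theorem t465_A00pm_102_s1 : ∃ t, chk3 f_A00pm_102_s1 t 5 21 1 = true := ex3_a k24_A00pm_102_s1 t464_A00pm_102_s1

theorem t466_A00pm_102_s1 : ∃ t, chk3 f_A00pm_102_s1 t 22 41 7 = true := ex3_b k21_A00pm_102_s1 k22_A00pm_102_s1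

theorem t467_A00pm_102_s1 : ∃ t, chk3 f_A00pm_102_s1 t 11 41 7 = true := ex3_a t466_A00pm_102_s1 k23_A00pm_102_s1

theorem t468_A00pm_102_s1 : ∃ t, chk3 f_A00pm_102_s1 t 5 41 7 = true := ex3_a k20_A00pm_102_s1 t467_A00pm_102_s1

theorem t469_A00pm_102_s1 : ∃ t, chk3 f_A00pm_102_s1 t 5 20 7 = true := ex3_b k19_A00pm_102_s1 t468_A00pm_102_s1

theorem t470_A00pm_102_s1 : ∃ t, chk3 f_A00pm_102_s1 t 22 41 6 = true := ex3_b k16_A00pm_102_s1 k17_A00pm_102_s1

theorem t471_A00pm_102_s1 : ∃ t, chk3 f_A00pm_102_s1 t 11 41 6 = true := ex3_a t470_A00pm_102_s1 k18_A00pm_102_s1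

theorem t472_A00pm_102_s1 : ∃ t, chk3 f_A00pm_102_s1 t 5 41 6 = true := ex3_a k15_A00pm_102_s1 t471_A00pm_102_s1

theorem t473_A00pm_102_s1 : ∃ t, chk3 f_A00pm_102_s1 t 5 20 6 = true := ex3_b k14_A00pm_102_s1 t472_A00pm_102_s1

theorem t474_A00pm_102_s1 : ∃ t, chk3 f_A00pm_102_s1 t 5 20 3 = true := ex3_c t473_A00pm_102_s1 t469_A00pm_102_s1

theorem t475_A00pm_102_s1 : ∃ t, chk3 f_A00pm_102_s1 t 22 41 5 = true := ex3_b k11_A00pm_102_s1 k12_A00pm_102_s1

theorem t476_A00pm_102_s1 : ∃ t, chk3 f_A00pm_102_s1 t 11 41 5 = true := ex3_a t475_A00pm_102_s1 k13_A00pm_102_s1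

theorem t477_A00pm_102_s1 : ∃ t, chk3 f_A00pm_102_s1 t 5 41 5 = true := ex3_a k10_A00pm_102_s1 t476_A00pm_102_s1

theorem t478_A00pm_102_s1 : ∃ t, chk3 f_A00pm_102_s1 t 5 20 5 = true := ex3_b k9_A00pm_102_s1 t477_A00pm_102_s1

theorem t479_A00pm_102_s1 : ∃ t, chk3 f_A00pm_102_s1 t 23 41 4 = true := ex3_b k7_A00pm_102_s1 k8_A00pm_102_s1

theorem t480_A00pm_102_s1 : ∃ t, chk3 f_A00pm_102_s1 t 22 41 4 = true := ex3_b k5_A00pm_102_s1 k6_A00pm_102_s1

theorem t481_A00pm_102_s1 : ∃ t, chk3 f_A00pm_102_s1 t 11 41 4 = true := ex3_a t480_A00pm_102_s1 t479_A00pm_102_s1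

theorem t482_A00pm_102_s1 : ∃ t, chk3 f_A00pm_102_s1 t 10 41 4 = true := ex3_a k3_A00pm_102_s1 k4_A00pm_102_s1

theorem t483_A00pm_102_s1 : ∃ t, chk3 f_A00pm_102_s1 t 5 41 4 = true := ex3_a t482_A00pm_102_s1 t481_A00pm_102_s1

theorem t484_A00pm_102_s1 : ∃ t, chk3 f_A00pm_102_s1 t 5 20 4 = true := ex3_b k2_A00pm_102_s1 t483_A00pm_102_s1

theorem t485_A00pm_102_s1 : ∃ t, chk3 f_A00pm_102_s1 t 5 20 2 = true := ex3_c t484_A00pm_102_s1 t478_A00pm_102_s1

theorem t486_A00pm_102_s1 : ∃ t, chk3 f_A00pm_102_s1 t 5 20 1 = true := ex3_c t485_A00pm_102_s1 t474_A00pm_102_s1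

theorem t487_A00pm_102_s1 : ∃ t, chk3 f_A00pm_102_s1 t 5 10 1 = true := ex3_b t486_A00pm_102_s1 t465_A00pm_102_s1

theorem t488_A00pm_102_s1 : ∃ t, chk3 f_A00pm_102_s1 t 2 10 1 = true := ex3_a k1_A00pm_102_s1 t487_A00pm_102_s1

theorem t489_A00pm_102_s1 : ∃ t, chk3 f_A00pm_102_s1 t 2 5 1 = true := ex3_b t488_A00pm_102_s1 k27_A00pm_102_s1

theorem t490_A00pm_102_s1 : ∃ t, chk3 f_A00pm_102_s1 t 2 2 1 = true := ex3_b k0_A00pm_102_s1 t489_A00pm_102_s1

theorem t491_A00pm_102_s1 : ∃ t, chk3 f_A00pm_102_s1 t 2 1 1 = true := ex3_b t490_A00pm_102_s1 k28_A00pm_102_s1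

theorem t492_A00pm_102_s1 : ∃ t, chk3 f_A00pm_102_s1 t 1 1 1 = true := ex3_a t491_A00pm_102_s1 t463_A00pm_102_s1

theorem c_A00pm_102_s1 : CertF 536870912 536870912 0 536870912 858993459 64424510 true true false .npp 1 0 2
    ndB0q1 ndB0q0 pcB2 cut_A00pm_102_s1 xt_A00pm_102_s1 :=
  certF1 (fam := true) (s1 := true) (s2 := false) (a := 1) (b := 0) (c := 2) (cn := .npp) (n1 := ndB0q1) (n2 := ndB0q0) (pc := pcB2) (cut := cut_A00pm_102_s1) (xt := xt_A00pm_102_s1) (P1 := 536870912) (W1 := 536870912) (P2 := 0) (W2 := 536870912) (P3 := 858993459) (W3 := 64424510)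
    rfl (fun _ => rfl) t492_A00pm_102_s1

theorem s_A00pm_102_s1 {κ x : ℝ} (hκ : κ * h0 = ken x) (hx : ((858993459 : ℕ) : ℝ) / S ≤ x)
    (hx' : x ≤ (((858993459 : ℕ) : ℝ) + (64424510 : ℕ)) / S)
    (H : CutA (VFD κ) PP tK tL pcB (Cut.of [[⟨0, 1, 0, 67108864⟩, ⟨1, 0, 0, 67108864⟩, ⟨2, 1, 0, 67108864⟩]]) 1 0 2 0 0 (sgb true) (sgb false) x) :
    AltA (VFD κ) PP tK tL pcB [⟨3, 0, 0, 1449551462⟩] 1 0 2 0 0 (sgb true) (sgb false) x :=
  strip_altAD (m := 1449551462) true rfl hκ (SH.κ0 hκ (SH.hx1 hx).le (SH.hx2 hx').le) (SH.hx1 hx).le (SH.hx2 hx') (covB01).cov (covB00).cov hx hx' c_A00pm_102_s1 H ((okx hx hx').extA (T := tt) (sideB hx hx') hκ rfl rfl (.O 1 true) (.O 0 false) rfl)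

end Pool.Agent.Strip051.G.I8000_8600.Tab.St.C
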