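import Pool.Agent.Strip051.G.I8000_8600.StH
import Pool.Agent.Strip051.G.I8000_8600.StF

/-! # Unit strips 6 (generated) -/

set_option linter.all false
set_option maxRecDepth 100000

namespace Pool.Agent.Strip051.G.I8000_8600.Tab.St.C

open Pool.Agent.Strip051.PB Pool.Agent.Strip051.PB.T Pool.Agent.StripNear Pool.Agent.Strip051.LC
open Pool.Agent.Strip051.G.I8000_8600.Tab Pool.Agent.Strip051.G.I8000_8600.Tab.St

noncomputable def cut_A00pm_102_s3 : Cut := Cut.of [[⟨3, 0, 0, 2845415833⟩], [⟨0, 1, 0, 67108864⟩, ⟨1, 0, 0, 67108864⟩, ⟨2, 1, 0, 67108864⟩]]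

noncomputable def f_A00pm_102_s3 : ℕ → ℕ → ℕ → ℕ → Bool := onCell 536870912 536870912 0 536870912 858993459 64424510
    (rowF 0 true true false .npp 1 0 2 (qsf 536870912 536870912 0 536870912 2) ndB0q1 ndB0q0 pcB2 cut_A00pm_102_s3 Ext.none)

def k0_A00pm_102_s3 : ∃ t, chk3 f_A00pm_102_s3 t 1 1 1 = true :=
  ⟨(l 6), by decide +kernel⟩

theorem c_A00pm_102_s3 : CertF 536870912 536870912 0 536870912 858993459 64424510 true true false .npp 1 0 2
    ndB0q1 ndB0q0 pcB2 cut_A00pm_102_s3 Ext.none :=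
  certF0 (fam := true) (s1 := true) (s2 := false) (a := 1) (b := 0) (c := 2) (cn := .npp) (n1 := ndB0q1) (n2 := ndB0q0) (pc := pcB2) (cut := cut_A00pm_102_s3) (xt := Ext.none) (P1 := 536870912) (W1 := 536870912) (P2 := 0) (W2 := 536870912) (P3 := 858993459) (W3 := 64424510)
    rfl k0_A00pm_102_s3

theorem s_A00pm_102_s3 {κ x : ℝ} (hκ : κ * h0 = ken x) (hx : ((858993459 : ℕ) : ℝ) / S ≤ x)
    (hx' : x ≤ (((858993459 : ℕ) : ℝ) + (64424510 : ℕ)) / S)
    (H : CutA (VFD κ) PP tK tL pcB (Cut.of [[⟨0, 1, 0, 67108864⟩, ⟨1, 0, 0, 67108864⟩, ⟨2, 1, 0, 67108864⟩]]) 1 0 2 0 0 (sgb true) (sgb false) x) :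
    AltA (VFD κ) PP tK tL pcB [⟨4, 0, 0, 2845415833⟩] 1 0 2 0 0 (sgb true) (sgb false) x :=
  strip_altAD (m := 2845415833) false rfl hκ (SH.κ0 hκ (SH.hx1 hx).le (SH.hx2 hx').le) (SH.hx1 hx).le (SH.hx2 hx') (covB01).cov (covB00).cov hx hx' c_A00pm_102_s3 H (noExt_A)

noncomputable def cut_A00pm_112_s1 : Cut := Cut.of [[⟨4, 0, 0, 1449551462⟩]]

noncomputable def xt_A00pm_112_s1 : Ext := strExt dd true true false .u0 .u0m .u2 .dn 1 1 2 rfl rfl gf2 vv ndB0q1 ndB0q1

noncomputable def f_A00pm_112_s1 : ℕ → ℕ → ℕ → ℕ → Bool := onCell 1073741824 536870912 536870912 536870912 858993459 64424510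
    (rowF 2 true true false .dn 1 1 2 (qsf 536870912 536870912 536870912 536870912 2) ndB0q1 ndB0q1 pcB2 cut_A00pm_112_s1 xt_A00pm_112_s1)

def k0_A00pm_112_s1 : ∃ t, chk3 f_A00pm_112_s1 t 4 2 1 = true :=
  ⟨(a (l 3) (l 3)), by decide +kernel⟩

def k1_A00pm_112_s1 : ∃ t, chk3 f_A00pm_112_s1 t 40 4 1 = true :=
  ⟨(l 3), by decide +kernel⟩

def k2_A00pm_112_s1 : ∃ t, chk3 f_A00pm_112_s1 t 82 4 1 = true :=
  ⟨(l 3), by decide +kernel⟩

def k3_A00pm_112_s1 : ∃ t, chk3 f_A00pm_112_s1 t 166 4 1 = true :=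
  ⟨(b (a (l 3) (b (c (l 532703567) (l 531612495)) (l 3))) (l 3)), by decide +kernel⟩

def k4_A00pm_112_s1 : ∃ t, chk3 f_A00pm_112_s1 t 167 16 1 = true :=
  ⟨(b (b (a (a (l 532141903) (l 532144719)) (a (a (l 532146223) (a (a (l 532146735) (a (l 532146991) (a (l 532146991) (c (b (b (l 16772688) (l 16772904)) (b (l 16773120) (l 16773328))) (b (c (l 16771960) (l 16771352)) (c (l 16772456) (l 16771904))))))) (l 532147295))) (l 532148575))) (a (a (l 532168271) (l 532171087)) (a (a (l 532172591) (a (b (a (l 532166959) (b (c (l 16773584) (l 16772632)) (c (l 16773776) (l 16772872)))) (a (l 532179759) (a (l 532179759) (b (c (l 16773928) (l 16773056)) (c (l 16774104) (l 16773280)))))) (l 532173919))) (l 532175199)))) (a (a (l 532202063) (l 532205135)) (a (a (l 532206895) (a (a (l 532207407) (a (l 532207663) (a (l 532207919) (c (b (b (b (l 16774256) (l 16774432)) (a (b (l 16774600) (l 16774752)) (l 532737887))) (b (c (c (l 16775176) (l 16775040)) (c (l 16774896)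 (l 16774752))) (c (c (l 16775432) (l 16775304)) (c (l 16775184) (l 16775056))))) (b (b (b (l 16773480) (l 16773688)) (c (b (l 16774072) (l 16774256)) (b (l 16773704) (l 16773904)))) (b (c (b (l 16774440) (l 16774608)) (b (l 16774104) (l 16774296))) (c (c (l 16774920) (l 16774784)) (b (l 16774480) (l 16774656))))))))) (l 532208223))) (l 532209503)))), by decide +kernel⟩

def k5_A00pm_112_s1 : ∃ t, chk3 f_A00pm_112_s1 t 167 34 1 = true :=
  ⟨(a (a (l 3) (l 532241487)) (a (a (l 532243503) (a (a (l 532244271) (a (l 532244527) (a (l 532244783) (c (b (b (c (b (l 16775552) (l 16775664)) (c (l 16775440) (l 16775328))) (c (b (l 16775776) (l 16775872)) (b (l 16775576) (l 16775688)))) (b (c (b (l 16775976) (l 16776064)) (b (l 16775800) (l 16775904))) (b (b (l 16776056) (l 16776104)) (b (l 16776144) (l 16776192))))) (b (b (c (b (l 16775080) (l 16775224)) (b (l 16774824) (l 16774984))) (c (b (l 16775368) (l 16775496)) (b (l 16775144) (l 16775288)))) (b (c (b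 (l 16775624) (l 16775736)) (b (l 16775424) (l 16775560))) (c (b (l 16775848) (b (l 16775928) (l 16775984))) (b (b (l 16775656) (l 16775712)) (b (l 16775776) (l 16775832)))))))))) (l 532245087))) (l 532246879))), by decide +kernel⟩

def k6_A00pm_112_s1 : ∃ t, chk3 f_A00pm_112_s1 t 167 35 1 = true :=
  ⟨(a (a (l 3) (a (l 3) (l 532266831))) (a (a (l 532268335) (a (a (l 532269359) (a (l 532269615) (a (l 532269615) (b (c (b (b (a (b (l 16776240) (l 16776280)) (l 532806751)) (c (b (l 16776368) (l 16776400)) (b (l 16776248) (l 16776288)))) (b (c (b (l 16776432) (l 16776464)) (b (l 16776328) (l 16776360))) (c (b (l 16776496) (l 16776528)) (b (l 16776400) (l 16776432))))) (b (c (b (b (l 16776032) (l 16776080)) (b (l 16776120) (l 16776168))) (b (b (l 16775888) (l 16775936)) (b (l 16775992) (l 16776040)))) (b (c (b (l 16776208) (l 16776256)) (b (l 16776088) (l 16776136))) (c (b (l 16776296) (l 16776328)) (b (l 16776176) (l 16776224)))))) (c (c (b (b (b (l 16776560)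 (l 16776584)) (b (l 16776608) (l 16776632))) (b (b (l 16776656) (l 16776680)) (b (l 16776704) (l 16776720)))) (b (b (b (l 16776464) (l 16776496)) (b (l 16776528) (l 16776552))) (b (b (l 16776584) (l 16776608)) (b (l 16776632) (l 16776656))))) (b (b (c (b (l 16776368) (l 16776400)) (b (l 16776264) (l 16776304))) (c (b (l 16776432) (l 16776464)) (b (l 16776336) (l 16776376)))) (c (b (b (l 16776496) (l 16776528)) (b (l 16776552) (l 16776576))) (b (b (l 16776408) (l 16776440)) (b (l 16776472) (l 16776504)))))))))) (l 532270175))) (l 532271967))), by decide +kernel⟩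

def k7_A00pm_112_s1 : ∃ t, chk3 f_A00pm_112_s1 t 334 18 1 = true :=
  ⟨(l 3), by decide +kernel⟩

def k8_A00pm_112_s1 : ∃ t, chk3 f_A00pm_112_s1 t 1340 18 1 = true :=
  ⟨(l 532279855), by decide +kernel⟩

def k9_A00pm_112_s1 : ∃ t, chk3 f_A00pm_112_s1 t 5364 18 1 = true :=
  ⟨(l 532280879), by decide +kernel⟩

def k10_A00pm_112_s1 : ∃ t, chk3 f_A00pm_112_s1 t 10730 18 1 = true :=
  ⟨(l 532281135), by decide +kernel⟩

def k11_A00pm_112_s1 : ∃ t, chk3 f_A00pm_112_s1 t 21462 18 1 = true :=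
  ⟨(l 532281391), by decide +kernel⟩

def k12_A00pm_112_s1 : ∃ t, chk3 f_A00pm_112_s1 t 21463 36 1 = true :=
  ⟨(c (c (b (b (b (b (l 16776744) (l 16776760)) (b (l 16776776) (l 16776792))) (b (b (l 16776800) (l 16776816)) (b (l 16776824) (l 16776840)))) (a (b (b (b (l 16776856) (l 16776864)) (b (l 16776872) (l 16776872))) (b (b (l 16776880) (l 16776880)) (b (l 16776880) (l 16776880)))) (l 533096287))) (b (b (b (b (l 16776672) (l 16776696)) (b (l 16776712) (l 16776728))) (b (b (l 16776744) (l 16776760)) (b (l 16776768) (c (l 16776800) (l 16776768))))) (b (b (b (c (l 16776808) (l 16776784)) (c (l 16776816) (l 16776792))) (b (c (l 16776824) (l 16776800)) (c (l 16776832) (l 16776800)))) (b (b (c (l 16776832) (l 16776808)) (c (l 16776840) (l 16776808))) (b (c (l 16776840) (l 16776816)) (c (l 16776840) (l 16776816))))))) (c (b (a (b (b (b (l 16776616) (l 16776632)) (b (l 16776656) (l 16776672))) (b (b (l 16776696) (l 16776712)) (b (l 16776728) (c (l 16776752)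 (l 16776720))))) (l 531993951)) (b (b (b (c (l 16776752) (l 16776720)) (c (l 16776760) (l 16776736))) (b (c (l 16776768) (l 16776744)) (c (l 16776776) (l 16776752)))) (b (b (c (l 16776784) (l 16776752)) (c (l 16776784) (l 16776760))) (b (c (l 16776784) (l 16776760)) (c (l 16776784) (l 16776760)))))) (b (b (b (b (l 16776528) (l 16776552)) (b (l 16776576) (l 16776600))) (b (b (c (l 16776632) (l 16776600)) (c (l 16776648) (l 16776616))) (b (c (l 16776664) (l 16776632)) (c (l 16776680) (l 16776648))))) (b (b (b (c (l 16776696) (l 16776664)) (c (l 16776704) (l 16776672))) (b (c (l 16776712) (l 16776688)) (c (l 16776720) (l 16776696)))) (c (b (b (l 16776728) (l 16776728)) (b (l 16776736) (l 16776736))) (b (b (l 16776696) (l 16776704)) (b (l 16776704) (l 16776704)))))))), by decide +kernel⟩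

def k13_A00pm_112_s1 : ∃ t, chk3 f_A00pm_112_s1 t 21463 37 1 = true :=
  ⟨(c (c (b (a (b (b (b (l 16776880) (l 16776880)) (b (l 16776880) (l 16776872))) (b (b (l 16776864) (l 16776856)) (b (l 16776848) (l 16776840)))) (l 533096031)) (b (b (b (l 16776824) (l 16776816)) (b (l 16776800) (l 16776784))) (b (b (l 16776768) (l 16776752)) (b (l 16776736) (l 16776720))))) (b (b (b (b (c (l 16776840) (l 16776816)) (c (l 16776832) (l 16776808))) (b (c (l 16776832) (l 16776808)) (c (l 16776824) (l 16776800)))) (b (b (c (l 16776824) (l 16776792)) (c (l 16776816) (l 16776784))) (b (c (l 16776808) (l 16776776)) (l 16776784)))) (b (b (b (l 16776768) (l 16776752)) (b (l 16776744) (l 16776728))) (b (b (l 16776704) (l 16776688)) (b (l 16776672) (l 16776648)))))) (c (b (b (b (b (c (l 16776784) (l 16776760)) (c (l 16776784) (l 16776760))) (b (c (l 16776784) (l 16776752)) (c (l 16776776) (l 16776744)))) (b (b (c (l 16776768) (l 16776744)) (c (l 16776760) (l 16776728)))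 (b (c (l 16776752) (l 16776720)) (c (l 16776736) (l 16776712))))) (b (b (b (c (l 16776728) (l 16776696)) (l 16776696)) (b (l 16776680) (l 16776664))) (b (b (l 16776640) (l 16776616)) (b (l 16776600) (l 16776576))))) (b (b (c (b (b (l 16776736) (l 16776728)) (b (l 16776728) (l 16776720))) (b (b (l 16776704) (l 16776704)) (b (l 16776696) (l 16776688)))) (b (b (c (l 16776712) (l 16776680)) (c (l 16776704) (l 16776672))) (b (c (l 16776688) (l 16776664)) (c (l 16776680) (l 16776648))))) (b (b (b (c (l 16776664) (l 16776632)) (c (l 16776648) (l 16776616))) (b (l 16776616) (l 16776592))) (b (b (l 16776568) (l 16776544)) (b (l 16776520) (l 16776496))))))), by decide +kernel⟩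

def k14_A00pm_112_s1 : ∃ t, chk3 f_A00pm_112_s1 t 2683 18 1 = true :=
  ⟨(l 532281951), by decide +kernel⟩

def k15_A00pm_112_s1 : ∃ t, chk3 f_A00pm_112_s1 t 671 18 1 = true :=
  ⟨(l 532284255), by decide +kernel⟩

def k16_A00pm_112_s1 : ∃ t, chk3 f_A00pm_112_s1 t 167 38 1 = true :=
  ⟨(a (a (l 3) (a (l 3) (l 532264255))) (a (a (l 532266543) (a (a (l 532267823) (a (l 532268079) (a (l 532268335) (b (c (c (b (b (b (l 16776696) (l 16776672)) (b (l 16776656) (l 16776632))) (b (b (l 16776600) (l 16776576)) (b (l 16776552) (l 16776520)))) (b (b (b (l 16776624) (l 16776600)) (b (l 16776576) (l 16776544))) (b (b (l 16776520) (l 16776488)) (b (l 16776456) (l 16776424))))) (b (b (c (b (l 16776544) (l 16776520)) (b (l 16776464) (l 16776432))) (c (b (l 16776488) (l 16776456)) (b (l 16776400) (l 16776368)))) (b (c (b (l 16776424) (l 16776392)) (b (l 16776328) (l 16776296))) (c (b (l 16776360) (l 16776320)) (b (l 16776256) (l 16776208)))))) (c (b (b (c (b (l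 16776488) (l 16776456)) (b (l 16776392) (l 16776352))) (c (b (l 16776424) (l 16776392)) (b (l 16776320) (l 16776280)))) (c (b (b (l 16776360) (l 16776320)) (b (l 16776288) (l 16776248))) (b (b (l 16776240) (l 16776200)) (b (l 16776152) (l 16776112))))) (b (b (c (b (l 16776280) (l 16776240)) (b (l 16776168) (l 16776120))) (c (b (l 16776200) (l 16776160)) (b (l 16776080) (l 16776024)))) (c (b (b (l 16776112) (l 16776064)) (b (l 16776016) (l 16775968))) (b (b (l 16775976) (l 16775928)) (b (l 16775872) (l 16775816)))))))))) (l 532269151))) (l 532271711))), by decide +kernel⟩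

def k17_A00pm_112_s1 : ∃ t, chk3 f_A00pm_112_s1 t 167 39 1 = true :=
  ⟨(a (a (l 3) (l 532236863)) (a (a (l 532240431) (a (a (l 532241711) (a (l 532242223) (a (l 532242479) (c (b (b (c (b (l 16776184) (l 16776096)) (b (l 16776040) (l 16775944))) (c (b (l 16776008) (l 16775912)) (b (l 16775840) (l 16775736)))) (b (c (b (l 16775808) (l 16775704)) (b (l 16775616) (l 16775496))) (c (c (l 16775592) (l 16775480)) (c (l 16775360) (l 16775248))))) (b (b (b (b (l 16775840) (l 16775784)) (b (l 16775728) (l 16775664))) (c (b (l 16775664) (l 16775544)) (b (l 16775480) (l 16775336)))) (b (c (b (l 16775416) (l 16775280)) (b (l 16775192) (l 16775048))) (c (b (l 16775136) (l 16774984)) (b (l 16774888) (l 16774720))))))))) (l 532243295))) (l 532246111))), by decide +kernel⟩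

def k18_A00pm_112_s1 : ∃ t, chk3 f_A00pm_112_s1 t 21 4 1 = true :=
  ⟨(b (b (a (a (c (a (a (b (l 532687455) (l 532747103)) (c (c (b (b (l 16768536) (l 16769336)) (l 533127007)) (b (b (l 16767984) (l 16768832)) (l 532877919))) (b (b (b (l 16766856) (l 16767368)) (l 16773272)) (l 532487775)))) (b (b (b (l 16763616) (l 16764184)) (l 532711775)) (l 532754527))) (b (b (b (a (a (l 531587167) (l 16770216)) (l 16760264)) (l 531606367)) (l 531622751)) (l 531652191))) (b (b (a (c (l 16769248) (l 16764768)) (b (l 16771408) (l 16761688))) (a (l 532461919) (c (l 16754928) (l 16749224)))) (l 532235359))) (c (b (a (b (l 16766216) (l 16747208)) (b (l 16733816) (l 16736416))) (a (l 533307247) (c (l 16762264) (l 16757704)))) (b (a (b (l 16738576) (l 16739880)) (b (l 16725984) (l 16727416))) (a (l 531693663) (c (l 16731856) (l 16768600)))))) (b (l 532285791) (l 532317535))) (b (l 532339551) (l 532327263))), by decide +kernel⟩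

def k19_A00pm_112_s1 : ∃ t, chk3 f_A00pm_112_s1 t 20 5 2 = true :=
  ⟨(a (b (l 3) (l 1)) (b (b (c (b (a (l 3) (a (a (l 3) (l 532972351)) (a (l 532985663) (a (a (l 532992047) (a (a (l 532993327) (a (l 532993839) (a (l 532994095) (b (b (c (l 16775352) (l 16775224)) (c (l 16775088) (l 16774952))) (b (b (l 16774808) (l 16774656)) (l 16777040)))))) (l 532994911))) (l 532997983))))) (a (l 3) (a (b (l 532917311) (b (l 532891199) (b (l 532876095) (l 1)))) (a (a (l 532919167) (l 532925247)) (a (a (l 532929327) (a (a (l 532930863) (a (l 532931375) (a (l 532931631) (b (b (l 16774080) (l 16773720)) (b (l 16773336) (l 16772928)))))) (l 532932703))) (l 532935775)))))) (a (l 3) (b (a (l 532447551) (a (l 532467263) (a (a (l 532474415) (a (a (l 532475951) (a (l 532476207) (a (l 532476463) (b (b (c (l 16775096) (l 16774960)) (c (l 16774800) (l 16774648))) (b (b (l 16774488) (l 16774312)) (l 16776672)))))) (l 532477279))) (l 532480351)))) (a (a (l 3) (b (l 532414527)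 (b (l 532391999) (b (l 532380223) (l 1))))) (a (a (l 532409983) (l 532416831)) (a (a (l 532421167) (a (a (l 532422703) (a (l 532423215) (a (l 532423471) (b (b (l 16773672) (l 16773264)) (b (l 16772840) (l 16772384)))))) (l 532424287))) (l 532427615))))))) (b (a (l 1) (a (l 1) (a (l 1) (a (l 1) (b (b (c (l 16774248) (l 16770944)) (l 1)) (l 1)))))) (l 1))) (l 1))), by decide +kernel⟩

def k20_A00pm_112_s1 : ∃ t, chk3 f_A00pm_112_s1 t 20 5 3 = true :=
  ⟨(c (a (b (l 3) (l 1)) (b (b (a (l 3) (a (b (l 531902783) (b (l 531869759) (b (l 531851327) (b (l 531841343) (l 1))))) (b (a (l 531916351) (a (a (l 531921967) (a (a (l 531923503) (a (l 531924015) (a (l 531924271) (b (b (c (l 16774824) (l 16774680)) (b (l 16774504) (l 16774328))) (b (b (l 16774144) (l 16773952)) (b (l 16773760) (l 16773552))))))) (l 531925087))) (l 531928159))) (b (b (a (l 531889727) (a (b (l 16776280) (l 16776064)) (l 16774816))) (a (l 531877951) (a (a (l 531884079) (l 16775384)) (l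 16774368)))) (a (a (l 531856511) (l 531861311)) (b (b (l 16774688) (l 16774440)) (b (l 16774192) (l 16773928)))))))) (a (l 1) (a (l 1) (a (l 1) (a (l 1) (b (b (b (l 16770208) (l 1)) (l 1)) (l 1))))))) (l 1))) (a (b (l 3) (l 1)) (b (b (a (l 3) (a (b (a (l 3) (l 531331391)) (b (l 531305535) (b (l 531291455) (b (l 531284287) (l 1))))) (b (a (l 531333183) (a (a (l 531335471) (a (a (l 531337007) (a (l 531337519) (a (l 531337775) (b (b (b (l 16774544) (l 16774368)) (b (l 16774176) (l 16773984))) (b (b (l 16773776) (l 16773568)) (b (l 16773352) (l 16773120))))))) (l 531338591))) (l 531341663))) (b (a (l 531306815) (a (a (l 531309103) (a (a (l 531310639) (b (b (l 16772960) (l 16772720)) (l 16769720))) (l 531312479))) (l 531315551))) (b (a (l 531291967) (a (b (l 16772224) (l 16771952)) (l 531300703))) (a (a (l 531281535) (l 531280959)) (b (l 16773536) (l 16773248)))))))) (a (l 1) (a (l 1) (a (l 1) (a (l 1) (b (b (b (l 16769432) (l 1)) (l 1)) (l 1))))))) (l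 1)))), by decide +kernel⟩

def k21_A00pm_112_s1 : ∃ t, chk3 f_A00pm_112_s1 t 21 5 1 = true :=
  ⟨(b (a (b (b (l 532249183) (b (l 532216415) (l 532191071))) (a (b (c (b (a (b (c (l 16774200) (l 16773176)) (a (l 1) (l 16771912))) (b (l 16774416) (l 16773768))) (a (l 1) (b (l 16772960) (l 1)))) (b (a (b (c (l 16772080) (l 16770904)) (a (l 1) (l 16769480))) (b (l 16760560) (l 16759968))) (b (l 149283616967) (l 1)))) (l 1)) (b (c (b (c (l 16768544) (l 16755664)) (a (l 63384303559) (l 16753008))) (b (c (l 16753112) (l 16771360)) (c (l 16772728) (l 16770240)))) (b (c (l 56941854327) (l 51573137335)) (l 1))))) (b (b (l 532322911) (l 532282975)) (c (b (a (b (l 16747984) (l 16746328)) (b (l 16739184) (l 16737512))) (a (b (l 16764992) (l 16762248)) (b (l 16735216) (l 16732280)))) (a (b (b (l 16740512) (l 16739272)) (b (a (l 16740704) (l 16735104)) (l 16757384))) (b (b (l 16729344) (l 16728112)) (c (l 16769960) (l 16765896))))))) (b (b (a (l 1) (a (l 1) (b (b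 (l 16768928) (l 1)) (l 1)))) (l 1)) (l 1))), by decide +kernel⟩

def k22_A00pm_112_s1 : ∃ t, chk3 f_A00pm_112_s1 t 11 4 1 = true :=
  ⟨(b (c (a (a (a (b (b (l 16754888) (l 16770688)) (l 532872031)) (b (b (l 16711280) (l 16717792)) (b (l 16721752) (l 16766008)))) (b (b (b (l 16689800) (l 16694376)) (l 16742184)) (b (l 16748184) (l 16751584)))) (b (a (b (l 16665144) (l 16759256)) (b (l 16637304) (l 16648696))) (a (b (l 16683544) (l 16689568)) (b (l 16659032) (l 16667240))))) (a (a (b (b (c (l 16752264) (l 16747232)) (a (l 16758920) (l 16704648))) (b (b (l 16712704) (l 16713792)) (l 531816543))) (b (b (b (l 16681296) (l 16683408)) (l 16728040)) (b (l 16668008) (a (l 16697336) (l 16685440))))) (b (a (b (l 16656080) (l 16660944)) (b (l 16628840) (l 16635176))) (a (b (l 16664728) (l 16667520)) (b (l 16640000) (l 16643688)))))) (a (b (a (l 532413023) (l 532457327)) (a (l 532419935) (l 532477295))) (b (a (b (l 533018991) (l 532513135)) (b (c (l 16673224)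 (l 16646352)) (l 532551791))) (l 532556143)))), by decide +kernel⟩

def k23_A00pm_112_s1 : ∃ t, chk3 f_A00pm_112_s1 t 11 5 1 = true :=
  ⟨(b (a (c (b (l 532937327) (a (b (c (l 16770376) (l 16764184)) (c (l 16765304) (l 16760008))) (b (l 16708344) (l 16745608)))) (b (l 531852143) (b (a (c (l 16757560) (l 16708560)) (l 16669328)) (a (c (l 16754352) (l 16695920)) (l 16666704))))) (b (l 533080943) (a (b (l 532459631) (a (l 16681656) (l 16672256))) (b (l 16703744) (l 16700248))))) (c (a (b (a (b (b (l 16757504) (l 16753568)) (b (l 16749392) (l 1))) (b (l 16738472) (b (l 16689752) (l 16684952)))) (b (a (l 1) (l 48888733751)) (l 1))) (b (a (b (l 16679776) (l 16670600)) (b (l 16663456) (l 16654200))) (a (b (l 16743632) (l 16690528)) (b (l 16643312) (l 16631216))))) (a (b (b (a (a (b (l 16712576) (l 16710744)) (l 16658768)) (l 16726400)) (a (a (l 1) (l 16696408)) (l 16722120))) (b (a (l 1) (l 16716464)) (l 1))) (b (b (b (l 16737312) (l 16735544)) (b (l 16733432)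 (l 16730968))) (a (b (l 16653216) (l 16646184)) (b (l 16632304) (l 16625312))))))), by decide +kernel⟩

def k24_A00pm_112_s1 : ∃ t, chk3 f_A00pm_112_s1 t 2 3 1 = true :=
  ⟨(a (l 1) (b (a (l 1) (a (l 1) (b (a (l 1) (a (l 1) (b (b (l 16655240) (l 1)) (l 1)))) (l 1)))) (l 1))), by decide +kernel⟩

def k25_A00pm_112_s1 : ∃ t, chk3 f_A00pm_112_s1 t 3 4 1 = true :=
  ⟨(a (a (b (b (b (a (a (c (l 16608736) (l 16600672)) (c (l 16579976) (l 16571464))) (a (c (l 16551288) (l 16541616)) (c (l 16522648) (l 16511152)))) (a (a (l 16677856) (l 16670856)) (c (l 16634088) (l 16620992)))) (b (a (c (l 16661032) (l 16685328)) (a (l 16569648) (l 16541512))) (a (a (c (l 16643112) (l 16619408)) (l 16606216)) (a (l 16579904) (l 16552792))))) (a (b (b (a (c (l 16651304) (l 16622976)) (l 16697704)) (a (l 16641816) (l 16619640))) (a (c (l 533138543) (l 532081775)) (b (l 16623656) (l 16625800)))) (b (b (c (l 16588880) (l 16562040)) (c (l 16683624) (l 16567120))) (b (c (l 16609072)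 (l 16570896)) (c (l 16615552) (l 16573416)))))) (a (b (b (b (a (c (l 16494168) (l 16480496)) (l 6)) (c (a (l 16507944) (l 16479920)) (a (l 16492544) (l 16462344)))) (c (b (l 16507576) (l 16521344)) (b (l 16489080) (l 16499856)))) (b (a (b (l 16536392) (l 16546568)) (b (l 16509192) (l 16520456))) (b (c (l 16560424) (l 16524096)) (a (l 16562360) (l 16539024))))) (b (l 6) (l 6)))) (l 6)), by decide +kernel⟩

def k26_A00pm_112_s1 : ∃ t, chk3 f_A00pm_112_s1 t 3 5 1 = true :=
  ⟨(a (b (a (a (b (l 532662895) (b (l 533172591) (a (l 16639976) (l 16621928)))) (b (b (c (l 16619128) (l 16574648)) (l 532771183)) (c (l 533230191) (l 532226159)))) (a (b (b (c (l 16579784) (l 16531856)) (c (l 16585544) (l 16533616))) (b (c (l 16587696) (l 16533952)) (a (l 16569336) (l 16551840)))) (l 6))) (a (b (b (a (c (l 16639664) (l 16611176)) (c (l 16609184) (l 16571040))) (a (a (l 16628112) (l 16610336)) (c (l 16600144) (l 16567440)))) (b (a (c (l 16703304) (l 16685592)) (a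 (l 16584664) (l 16567744))) (a (a (l 16693960) (l 16592296)) (a (l 16574984) (l 16558112))))) (a (b (b (a (l 16565152) (l 16548568)) (l 16634704)) (b (l 16626904) (l 16617464))) (l 6)))) (l 6)), by decide +kernel⟩

def k27_A00pm_112_s1 : ∃ t, chk3 f_A00pm_112_s1 t 3 3 1 = true :=
  ⟨(b (a (b (a (b (b (a (a (c (l 16602456) (l 16596440)) (l 16665544)) (a (l 16564296) (l 16547416))) (a (a (c (l 16590208) (l 16586648)) (c (l 16573536) (l 16566656))) (a (l 16636616) (l 16535792)))) (b (a (a (l 1) (c (l 16644848) (l 16555712))) (a (c (l 16544640) (l 16536168)) (l 16523496))) (a (l 1) (a (c (l 97206551847) (l 16524464)) (c (l 16515952) (l 16505368)))))) (a (b (b (a (l 16531016) (l 16515088)) (c (l 16521648) (l 16500168))) (b (c (l 16507792) (l 16489304)) (c (a (l 16501256) (l 16486992)) (a (l 16486728) (l 16468584))))) (l 6))) (a (a (l 1) (a (l 1) (b (b (b (l 58552078135) (l 1)) (l 1)) (l 1)))) (a (a (b (c (b (l 16487136) (l 16472848)) (b (l 16474424) (l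 16461592))) (l 1)) (l 6)) (l 6)))) (l 6)) (a (b (a (l 1) (l 6)) (l 1)) (l 6))), by decide +kernel⟩

theorem t28_A00pm_112_s1 : ∃ t, chk3 f_A00pm_112_s1 t 3 2 1 = true := ex3_b k25_A00pm_112_s1 k26_A00pm_112_s1

theorem t29_A00pm_112_s1 : ∃ t, chk3 f_A00pm_112_s1 t 3 1 1 = true := ex3_b t28_A00pm_112_s1 k27_A00pm_112_s1

theorem t30_A00pm_112_s1 : ∃ t, chk3 f_A00pm_112_s1 t 11 2 1 = true := ex3_b k22_A00pm_112_s1 k23_A00pm_112_s1

theorem t31_A00pm_112_s1 : ∃ t, chk3 f_A00pm_112_s1 t 20 5 1 = true := ex3_c k19_A00pm_112_s1 k20_A00pm_112_s1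

theorem t32_A00pm_112_s1 : ∃ t, chk3 f_A00pm_112_s1 t 10 5 1 = true := ex3_a t31_A00pm_112_s1 k21_A00pm_112_s1

theorem t33_A00pm_112_s1 : ∃ t, chk3 f_A00pm_112_s1 t 167 19 1 = true := ex3_b k16_A00pm_112_s1 k17_A00pm_112_s1

theorem t34_A00pm_112_s1 : ∃ t, chk3 f_A00pm_112_s1 t 21463 18 1 = true := ex3_b k12_A00pm_112_s1 k13_A00pm_112_s1

theorem t35_A00pm_112_s1 : ∃ t, chk3 f_A00pm_112_s1 t 10731 18 1 = true := ex3_a k11_A00pm_112_s1 t34_A00pm_112_s1

theorem t36_A00pm_112_s1 : ∃ t, chk3 f_A00pm_112_s1 t 5365 18 1 = true := ex3_a k10_A00pm_112_s1 t35_A00pm_112_s1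

theorem t37_A00pm_112_s1 : ∃ t, chk3 f_A00pm_112_s1 t 2682 18 1 = true := ex3_a k9_A00pm_112_s1 t36_A00pm_112_s1

theorem t38_A00pm_112_s1 : ∃ t, chk3 f_A00pm_112_s1 t 1341 18 1 = true := ex3_a t37_A00pm_112_s1 k14_A00pm_112_s1

theorem t39_A00pm_112_s1 : ∃ t, chk3 f_A00pm_112_s1 t 670 18 1 = true := ex3_a k8_A00pm_112_s1 t38_A00pm_112_s1

theorem t40_A00pm_112_s1 : ∃ t, chk3 f_A00pm_112_s1 t 335 18 1 = true := ex3_a t39_A00pm_112_s1 k15_A00pm_112_s1

theorem t41_A00pm_112_s1 : ∃ t, chk3 f_A00pm_112_s1 t 167 18 1 = true := ex3_a k7_A00pm_112_s1 t40_A00pm_112_s1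

theorem t42_A00pm_112_s1 : ∃ t, chk3 f_A00pm_112_s1 t 167 9 1 = true := ex3_b t41_A00pm_112_s1 t33_A00pm_112_s1

theorem t43_A00pm_112_s1 : ∃ t, chk3 f_A00pm_112_s1 t 167 17 1 = true := ex3_b k5_A00pm_112_s1 k6_A00pm_112_s1

theorem t44_A00pm_112_s1 : ∃ t, chk3 f_A00pm_112_s1 t 167 8 1 = true := ex3_b k4_A00pm_112_s1 t43_A00pm_112_s1

theorem t45_A00pm_112_s1 : ∃ t, chk3 f_A00pm_112_s1 t 167 4 1 = true := ex3_b t44_A00pm_112_s1 t42_A00pm_112_s1

theorem t46_A00pm_112_s1 : ∃ t, chk3 f_A00pm_112_s1 t 83 4 1 = true := ex3_a k3_A00pm_112_s1 t45_A00pm_112_s1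

theorem t47_A00pm_112_s1 : ∃ t, chk3 f_A00pm_112_s1 t 41 4 1 = true := ex3_a k2_A00pm_112_s1 t46_A00pm_112_s1

theorem t48_A00pm_112_s1 : ∃ t, chk3 f_A00pm_112_s1 t 20 4 1 = true := ex3_a k1_A00pm_112_s1 t47_A00pm_112_s1

theorem t49_A00pm_112_s1 : ∃ t, chk3 f_A00pm_112_s1 t 10 4 1 = true := ex3_a t48_A00pm_112_s1 k18_A00pm_112_s1

theorem t50_A00pm_112_s1 : ∃ t, chk3 f_A00pm_112_s1 t 10 2 1 = true := ex3_b t49_A00pm_112_s1 t32_A00pm_112_s1

theorem t51_A00pm_112_s1 : ∃ t, chk3 f_A00pm_112_s1 t 5 2 1 = true := ex3_a t50_A00pm_112_s1 t30_A00pm_112_s1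

theorem t52_A00pm_112_s1 : ∃ t, chk3 f_A00pm_112_s1 t 2 2 1 = true := ex3_a k0_A00pm_112_s1 t51_A00pm_112_s1

theorem t53_A00pm_112_s1 : ∃ t, chk3 f_A00pm_112_s1 t 2 1 1 = true := ex3_b t52_A00pm_112_s1 k24_A00pm_112_s1

theorem t54_A00pm_112_s1 : ∃ t, chk3 f_A00pm_112_s1 t 1 1 1 = true := ex3_a t53_A00pm_112_s1 t29_A00pm_112_s1

theorem c_A00pm_112_s1 : CertF 536870912 536870912 536870912 536870912 858993459 64424510 true true false .dn 1 1 2
    ndB0q1 ndB0q1 pcB2 cut_A00pm_112_s1 xt_A00pm_112_s1 :=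
  certF2 (fam := true) (s1 := true) (s2 := false) (a := 1) (b := 1) (c := 2) (cn := .dn) (n1 := ndB0q1) (n2 := ndB0q1) (pc := pcB2) (cut := cut_A00pm_112_s1) (xt := xt_A00pm_112_s1) (P1 := 536870912) (W1 := 536870912) (P2 := 536870912) (W2 := 536870912) (P3 := 858993459) (W3 := 64424510)
    rfl (fun _ => rfl) t54_A00pm_112_s1

theorem s_A00pm_112_s1 {κ x : ℝ} (hκ : κ * h0 = ken x) (hx : ((858993459 : ℕ) : ℝ) / S ≤ x)
    (hx' : x ≤ (((858993459 : ℕ) : ℝ) + (64424510 : ℕ)) / S) :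
    AltA (VFD κ) PP tK tL pcB [⟨3, 0, 0, 1449551462⟩] 1 1 2 0 0 (sgb true) (sgb false) x :=
  strip_altAD (m := 1449551462) true rfl hκ (SH.κ0 hκ (SH.hx1 hx).le (SH.hx2 hx').le) (SH.hx1 hx).le (SH.hx2 hx') (covB01).cov (covB01).cov hx hx' c_A00pm_112_s1 cutA_nil ((okx hx hx').extA (T := tt) (sideB hx hx') hκ rfl rfl (.O 1 true) (.O 1 false) rfl)

noncomputable def cut_A00pm_112_s3 : Cut := Cut.of [[⟨3, 0, 0, 2845415833⟩]]

noncomputable def f_A00pm_112_s3 : ℕ → ℕ → ℕ → ℕ → Bool := onCell 536870912 536870912 1073741824 536870912 858993459 64424510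
    (rowF 1 true true false .dn 1 1 2 (qsf 536870912 536870912 536870912 536870912 2) ndB0q1 ndB0q1 pcB2 cut_A00pm_112_s3 Ext.none)

def k0_A00pm_112_s3 : ∃ t, chk3 f_A00pm_112_s3 t 1 1 1 = true :=
  ⟨(l 6), by decide +kernel⟩

theorem c_A00pm_112_s3 : CertF 536870912 536870912 536870912 536870912 858993459 64424510 true true false .dn 1 1 2
    ndB0q1 ndB0q1 pcB2 cut_A00pm_112_s3 Ext.none :=
  certF1 (fam := true) (s1 := true) (s2 := false) (a := 1) (b := 1) (c := 2) (cn := .dn) (n1 := ndB0q1) (n2 := ndB0q1) (pc := pcB2) (cut := cut_A00pm_112_s3) (xt := Ext.none) (P1 := 536870912) (W1 := 536870912) (P2 := 536870912) (W2 := 536870912) (P3 := 858993459) (W3 := 64424510)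
    rfl (fun _ => rfl) k0_A00pm_112_s3

theorem s_A00pm_112_s3 {κ x : ℝ} (hκ : κ * h0 = ken x) (hx : ((858993459 : ℕ) : ℝ) / S ≤ x)
    (hx' : x ≤ (((858993459 : ℕ) : ℝ) + (64424510 : ℕ)) / S) :
    AltA (VFD κ) PP tK tL pcB [⟨4, 0, 0, 2845415833⟩] 1 1 2 0 0 (sgb true) (sgb false) x :=
  strip_altAD (m := 2845415833) false rfl hκ (SH.κ0 hκ (SH.hx1 hx).le (SH.hx2 hx').le) (SH.hx1 hx).le (SH.hx2 hx') (covB01).cov (covB01).cov hx hx' c_A00pm_112_s3 cutA_nil (noExt_A)

noncomputable def cut_A00pm_113_s1 : Cut := Cut.of [[⟨4, 0, 0, 1449551462⟩], [⟨0, 1, 0, 67108864⟩, ⟨1, 1, 0, 67108864⟩, ⟨2, 2, 0, 16777216⟩], [⟨0, 0, 1, 20971520⟩, ⟨1, 1, 0, 16777216⟩, ⟨2, 1, 1, 20971520⟩], [⟨0, 1, 0, 16777216⟩, ⟨1, 0, 1, 20971520⟩, ⟨2, 1, 1, 20971520⟩]]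

noncomputable def f_A00pm_113_s1 : ℕ → ℕ → ℕ → ℕ → Bool := onCell 536870912 536870912 1610612736 536870912 858993459 64424510
    (rowF 1 true true false .nn 1 1 3 (qsf 536870912 536870912 536870912 536870912 3) ndB0q1 ndB0q1 pcB3 cut_A00pm_113_s1 Ext.none)

def k0_A00pm_113_s1 : ∃ t, chk3 f_A00pm_113_s1 t 1 1 1 = true :=
  ⟨(b (a (b (l 6) (l 6)) (l 6)) (l 6)), by decide +kernel⟩

theorem c_A00pm_113_s1 : CertF 536870912 536870912 536870912 536870912 858993459 64424510 true true false .nn 1 1 3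
    ndB0q1 ndB0q1 pcB3 cut_A00pm_113_s1 Ext.none :=
  certF1 (fam := true) (s1 := true) (s2 := false) (a := 1) (b := 1) (c := 3) (cn := .nn) (n1 := ndB0q1) (n2 := ndB0q1) (pc := pcB3) (cut := cut_A00pm_113_s1) (xt := Ext.none) (P1 := 536870912) (W1 := 536870912) (P2 := 536870912) (W2 := 536870912) (P3 := 858993459) (W3 := 64424510)
    rfl (fun _ => rfl) k0_A00pm_113_s1

theorem s_A00pm_113_s1 {κ x : ℝ} (hκ : κ * h0 = ken x) (hx : ((858993459 : ℕ) : ℝ) / S ≤ x)
    (hx' : x ≤ (((858993459 : ℕ) : ℝ) + (64424510 : ℕ)) / S)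
    (H : CutA (VFD κ) PP tK tL pcB (Cut.of [[⟨0, 1, 0, 67108864⟩, ⟨1, 1, 0, 67108864⟩, ⟨2, 2, 0, 16777216⟩], [⟨0, 0, 1, 20971520⟩, ⟨1, 1, 0, 16777216⟩, ⟨2, 1, 1, 20971520⟩], [⟨0, 1, 0, 16777216⟩, ⟨1, 0, 1, 20971520⟩, ⟨2, 1, 1, 20971520⟩]]) 1 1 3 0 0 (sgb true) (sgb false) x) :
    AltA (VFD κ) PP tK tL pcB [⟨3, 0, 0, 1449551462⟩] 1 1 3 0 0 (sgb true) (sgb false) x :=
  strip_altAD (m := 1449551462) true rfl hκ (SH.κ0 hκ (SH.hx1 hx).le (SH.hx2 hx').le) (SH.hx1 hx).le (SH.hx2 hx') (covB01).cov (covB01).cov hx hx' c_A00pm_113_s1 H (noExt_A)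

end Pool.Agent.Strip051.G.I8000_8600.Tab.St.C
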