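import Pool.Agent.Strip051.G.I8000_8600.StH
import Pool.Agent.Strip051.G.I8000_8600.StF

/-! # Unit strips 7 (generated) -/

set_option linter.all false
set_option maxRecDepth 100000

namespace Pool.Agent.Strip051.G.I8000_8600.Tab.St.C

open Pool.Agent.Strip051.PB Pool.Agent.Strip051.PB.T Pool.Agent.StripNear Pool.Agent.Strip051.LC
open Pool.Agent.Strip051.G.I8000_8600.Tab Pool.Agent.Strip051.G.I8000_8600.Tab.St

noncomputable def cut_A00pm_113_s3 : Cut := Cut.of [[⟨3, 0, 0, 2845415833⟩], [⟨0, 1, 0, 67108864⟩, ⟨1, 1, 0, 67108864⟩, ⟨2, 2, 0, 16777216⟩], [⟨0, 0, 1, 20971520⟩, ⟨1, 1, 0, 16777216⟩, ⟨2, 1, 1, 20971520⟩], [⟨0, 1, 0, 16777216⟩, ⟨1, 0, 1, 20971520⟩, ⟨2, 1, 1, 20971520⟩]]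

noncomputable def f_A00pm_113_s3 : ℕ → ℕ → ℕ → ℕ → Bool := onCell 536870912 536870912 536870912 536870912 858993459 64424510
    (rowF 0 true true false .nn 1 1 3 (qsf 536870912 536870912 536870912 536870912 3) ndB0q1 ndB0q1 pcB3 cut_A00pm_113_s3 Ext.none)

def k0_A00pm_113_s3 : ∃ t, chk3 f_A00pm_113_s3 t 2 1 1 = true :=
  ⟨(l 6), by decide +kernel⟩

def k1_A00pm_113_s3 : ∃ t, chk3 f_A00pm_113_s3 t 3 2 1 = true :=
  ⟨(l 6), by decide +kernel⟩

def k2_A00pm_113_s3 : ∃ t, chk3 f_A00pm_113_s3 t 6 6 1 = true :=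
  ⟨(l 6), by decide +kernel⟩

def k3_A00pm_113_s3 : ∃ t, chk3 f_A00pm_113_s3 t 6 14 1 = true :=
  ⟨(l 6), by decide +kernel⟩

def k4_A00pm_113_s3 : ∃ t, chk3 f_A00pm_113_s3 t 12 15 1 = true :=
  ⟨(l 6), by decide +kernel⟩

def k5_A00pm_113_s3 : ∃ t, chk3 f_A00pm_113_s3 t 13 30 1 = true :=
  ⟨(l 6), by decide +kernel⟩

def k6_A00pm_113_s3 : ∃ t, chk3 f_A00pm_113_s3 t 26 31 1 = true :=
  ⟨(l 6), by decide +kernel⟩

def k7_A00pm_113_s3 : ∃ t, chk3 f_A00pm_113_s3 t 27 62 1 = true :=
  ⟨(l 6), by decide +kernel⟩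

def k8_A00pm_113_s3 : ∃ t, chk3 f_A00pm_113_s3 t 27 126 1 = true :=
  ⟨(l 6), by decide +kernel⟩

def k9_A00pm_113_s3 : ∃ t, chk3 f_A00pm_113_s3 t 54 127 1 = true :=
  ⟨(l 6), by decide +kernel⟩

def k10_A00pm_113_s3 : ∃ t, chk3 f_A00pm_113_s3 t 55 127 2 = true :=
  ⟨(b (l 6) (b (a (l 6) (a (l 6) (a (l 6) (c (b (l 16691904) (l 16687488)) (c (l 16682944) (l 16678456)))))) (a (l 6) (c (b (a (l 6) (c (l 16684488) (a (l 16678976) (l 16680752)))) (a (a (l 6) (a (l 6) (c (l 16677976) (l 16673184)))) (c (a (l 16679248) (l 16680944)) (a (l 16669264) (l 16676264))))) (b (a (l 6) (c (a (l 16674304) (l 16676144)) (a (l 16669640) (l 16671544)))) (b (a (l 6) (c (a (l 16670904) (l 16672736)) (a (l 16666184) (l 16668072)))) (a (a (l 6) (a (l 6) (c (l 16667264) (l 16662456)))) (c (a (c (l 16669816) (l 16667440)) (l 16670448)) (a (c (l 16665056) (l 16662680)) (c (l 16666928) (l 16664576))))))))))), by decide +kernel⟩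

def k11_A00pm_113_s3 : ∃ t, chk3 f_A00pm_113_s3 t 55 254 3 = true :=
  ⟨(l 6), by decide +kernel⟩

def k12_A00pm_113_s3 : ∃ t, chk3 f_A00pm_113_s3 t 55 510 3 = true :=
  ⟨(a (l 6) (a (l 6) (a (l 6) (c (c (l 16673960) (l 16648496)) (c (l 16654496) (l 16650000)))))), by decide +kernel⟩

def k13_A00pm_113_s3 : ∃ t, chk3 f_A00pm_113_s3 t 110 511 3 = true :=
  ⟨(l 6), by decide +kernel⟩

def k14_A00pm_113_s3 : ∃ t, chk3 f_A00pm_113_s3 t 111 511 6 = true :=
  ⟨(b (a (l 6) (c (a (b (l 16666144) (l 16663808)) (l 16645968)) (a (b (l 16661496) (l 16653880)) (b (l 16663536) (l 16661144))))) (a (b (l 6) (b (l 6) (a (l 6) (a (l 6) (a (l 6) (c (l 16657304) (c (l 16653696) (l 16651296)))))))) (b (a (c (c (l 16662640) (l 16660280)) (c (l 16657920) (l 16655552))) (c (c (l 16664576) (l 16662248)) (c (l 16659920) (l 16657592)))) (a (c (a (c (l 16659816) (l 16657432)) (c (l 16660784) (l 16658416))) (c (a (l 16655040) (l 16656040)) (b (a (l 16653256) (l 16654272)) (a (l 16652056) (l 16653072))))) (c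 (c (l 16656984) (a (l 16659392) (l 16660376))) (c (a (l 16657040) (l 16658032)) (b (a (l 16655288) (l 16656296)) (a (l 16654080) (l 16655088))))))))), by decide +kernel⟩

def k15_A00pm_113_s3 : ∃ t, chk3 f_A00pm_113_s3 t 111 511 7 = true :=
  ⟨(b (a (l 6) (c (a (c (l 16656808) (l 16643992)) (c (l 16658880) (l 16656584))) (c (a (l 16641656) (l 16643792)) (l 22)))) (a (b (l 6) (c (b (l 6) (b (l 6) (a (l 6) (a (l 6) (a (l 6) (a (l 6) (c (l 16648720) (l 16646312)))))))) (l 22))) (b (c (a (c (a (l 16652680) (l 16653712)) (a (l 16650312) (l 16651360))) (c (a (l 16654744) (l 16655776)) (a (l 16652408) (l 16653456)))) (c (a (a (l 16647944) (l 16649008)) (a (l 16650072) (l 16651136))) (l 22))) (c (b (a (c (a (l 16650872) (l 16651904)) (a (l 16648488) (l 16649536))) (c (a (l 16652936) (l 16653960)) (a (l 16650584) (l 16651624)))) (a (c (a (c (l 16650264) (l 16649064)) (c (l 16651288) (l 16650096))) (a (c (l 16647872) (a (l 16646408) (l 16646936))) (c (l 16648912) (b (l 16648032) (l 16647416)))))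 (c (a (c (l 16652312) (l 16651128)) (c (l 16653336) (l 16652160))) (a (c (l 16649952) (l 16646152)) (c (l 16650984) (l 16649816)))))) (b (c (a (a (a (l 22) (l 16646368)) (l 16644544)) (a (l 16648232) (l 16649288))) (l 22)) (c (c (c (a (a (l 16645776) (l 16646832)) (a (l 16647888) (l 16648936))) (a (a (l 22) (l 16646240)) (a (l 16647296) (l 16648352)))) (a (l 22) (a (a (l 22) (l 16646672)) (a (l 16647208) (l 16647736))))) (l 22))))))), by decide +kernel⟩

def k16_A00pm_113_s3 : ∃ t, chk3 f_A00pm_113_s3 t 14 6 1 = true :=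
  ⟨(l 6), by decide +kernel⟩

def k17_A00pm_113_s3 : ∃ t, chk3 f_A00pm_113_s3 t 15 12 1 = true :=
  ⟨(l 6), by decide +kernel⟩

def k18_A00pm_113_s3 : ∃ t, chk3 f_A00pm_113_s3 t 30 13 1 = true :=
  ⟨(l 6), by decide +kernel⟩

def k19_A00pm_113_s3 : ∃ t, chk3 f_A00pm_113_s3 t 31 26 1 = true :=
  ⟨(l 6), by decide +kernel⟩

def k20_A00pm_113_s3 : ∃ t, chk3 f_A00pm_113_s3 t 62 27 1 = true :=
  ⟨(l 6), by decide +kernel⟩

def k21_A00pm_113_s3 : ∃ t, chk3 f_A00pm_113_s3 t 126 27 1 = true :=
  ⟨(l 6), by decide +kernel⟩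

def k22_A00pm_113_s3 : ∃ t, chk3 f_A00pm_113_s3 t 127 54 1 = true :=
  ⟨(l 6), by decide +kernel⟩

def k23_A00pm_113_s3 : ∃ t, chk3 f_A00pm_113_s3 t 127 55 2 = true :=
  ⟨(a (l 6) (a (b (l 6) (b (l 6) (b (l 6) (c (a (l 16691904) (l 16687488)) (c (l 16682944) (l 16678456)))))) (b (l 6) (c (a (b (l 6) (c (l 16684488) (b (l 16678976) (l 16680752)))) (b (a (l 6) (b (l 6) (c (l 16676448) (l 16671624)))) (c (b (l 16679248) (l 16680944)) (b (l 16669264) (l 16676264))))) (a (b (l 6) (c (b (l 16674304) (l 16676144)) (b (l 16669640) (l 16671544)))) (a (b (l 6) (c (b (l 16670904) (l 16672736)) (b (l 16666184) (l 16668072)))) (b (b (l 6) (b (l 6) (c (l 16667264) (l 16662456)))) (c (b (c (l 16669816) (l 16667440)) (l 16670448)) (b (c (l 16665056) (l 16662680)) (c (l 16666928) (l 16664576))))))))))), by decide +kernel⟩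

def k24_A00pm_113_s3 : ∃ t, chk3 f_A00pm_113_s3 t 254 55 3 = true :=
  ⟨(l 6), by decide +kernel⟩

def k25_A00pm_113_s3 : ∃ t, chk3 f_A00pm_113_s3 t 510 55 3 = true :=
  ⟨(b (l 6) (b (l 6) (b (l 6) (c (c (l 16673960) (l 16648496)) (c (l 16654496) (l 16650000)))))), by decide +kernel⟩

def k26_A00pm_113_s3 : ∃ t, chk3 f_A00pm_113_s3 t 511 110 3 = true :=
  ⟨(l 6), by decide +kernel⟩

def k27_A00pm_113_s3 : ∃ t, chk3 f_A00pm_113_s3 t 511 111 6 = true :=
  ⟨(a (b (l 6) (c (b (a (l 16666144) (l 16663808)) (l 16645968)) (b (a (l 16661496) (l 16653880)) (a (l 16663536) (l 16661144))))) (b (a (l 6) (a (l 6) (b (l 6) (b (l 6) (b (l 6) (c (l 16657304) (c (l 16653696) (l 16651296)))))))) (a (b (c (c (l 16662640) (l 16660280)) (c (l 16657920) (l 16655552))) (c (c (l 16664576) (l 16662248)) (c (l 16659920) (l 16657592)))) (b (c (b (c (l 16659816) (l 16657432)) (c (l 16660784) (l 16658416))) (c (b (l 16655040) (l 16656040)) (a (b (l 16653256) (l 16654272)) (b (l 16652056) (l 16653072))))) (c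 (c (l 16656984) (b (l 16659392) (l 16660376))) (c (b (l 16657040) (l 16658032)) (a (b (l 16655288) (l 16656296)) (b (l 16654080) (l 16655088))))))))), by decide +kernel⟩

def k28_A00pm_113_s3 : ∃ t, chk3 f_A00pm_113_s3 t 511 111 7 = true :=
  ⟨(a (b (l 6) (c (b (c (l 16656808) (l 16643992)) (c (l 16658880) (l 16656584))) (c (b (l 16641656) (l 16643792)) (l 30)))) (b (a (l 6) (c (a (l 6) (a (l 6) (b (l 6) (b (l 6) (b (l 6) (b (l 6) (c (l 16648720) (l 16646312)))))))) (l 30))) (a (c (b (c (b (l 16652680) (l 16653712)) (b (l 16650312) (l 16651360))) (c (b (l 16654744) (l 16655776)) (b (l 16652408) (l 16653456)))) (c (b (b (l 16647944) (l 16649008)) (b (l 16650072) (l 16651136))) (l 30))) (c (a (b (c (b (l 16650872) (l 16651904)) (b (l 16648488) (l 16649536))) (c (b (l 16652936) (l 16653960)) (b (l 16650584) (l 16651624)))) (b (c (b (c (l 16650264) (l 16649064)) (c (l 16651288) (l 16650096))) (b (c (l 16647872) (b (l 16646408) (l 16646936))) (c (l 16648912) (a (l 16648032) (l 16647416)))))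 (c (b (c (l 16652312) (l 16651128)) (c (l 16653336) (l 16652160))) (b (c (l 16649952) (l 16646152)) (c (l 16650984) (l 16649816)))))) (a (c (b (b (a (l 16646408) (l 16645800)) (l 16644544)) (b (l 16648232) (l 16649288))) (l 30)) (c (c (c (b (b (l 16645776) (l 16646832)) (b (l 16647888) (l 16648936))) (b (b (l 30) (l 16646240)) (b (l 16647296) (l 16648352)))) (b (l 30) (b (b (l 30) (l 16646672)) (b (l 16647208) (l 16647736))))) (l 30))))))), by decide +kernel⟩

def k29_A00pm_113_s3 : ∃ t, chk3 f_A00pm_113_s3 t 14 14 1 = true :=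
  ⟨(l 6), by decide +kernel⟩

def k30_A00pm_113_s3 : ∃ t, chk3 f_A00pm_113_s3 t 14 30 1 = true :=
  ⟨(a (l 6) (b (a (l 6) (c (b (l 16894608) (l 16886992)) (a (l 16868480) (l 16802080)))) (b (a (a (l 6) (c (l 16843904) (c (l 16838408) (b (l 6) (l 16831936))))) (c (a (l 16882128) (l 16877304)) (a (b (l 16793856) (l 16831248)) (l 16788080)))) (a (c (a (a (b (l 6) (l 16817960)) (b (c (l 16840584) (l 16856992)) (c (l 16867272) (l 16862408)))) (b (b (l 16839896) (a (c (l 16861456) (a (l 16856888) (l 16856992))) (l 16879320))) (a (c (l 16830024) (l 16846136)) (b (c (l 16878624) (l 16852984)) (l 16827856))))) (b (a (a (l 6) (b (l 6) (b (l 6) (c (l 16868520) (l 16863208))))) (a (c (b (l 16875680) (b (a (l 16874320) (l 16873760)) (a (l 16871680) (l 16872336)))) (b (l 16870656) (b (a (l 16868944) (l 16868456)) (a (c (l 16867576) (l 16854256)) (b (l 16867568) (l 16866680)))))) (c (l 16873280) (l 16868344)))) (a (c (a (l 16852576) (l 16836304)) (a (c (l 16848720) (l 16846088)) (c (l 16832288)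 (b (l 16854992) (l 16845936))))) (a (c (b (l 16845360) (l 16857768)) (b (c (l 16841280) (b (l 16851104) (l 16857296))) (l 16852368))) (c (b (a (l 16848032) (l 16869432)) (l 16862392)) (b (a (b (l 16854824) (l 16862256)) (b (l 16865216) (l 16853008))) (l 16846600))))))) (a (b (c (l 16876920) (c (l 16870896) (l 16866568))) (c (a (b (l 16875568) (a (l 16851248) (l 16851608))) (l 16861720)) (a (c (b (l 16868704) (b (l 16866592) (l 16863936))) (b (l 16863760) (a (b (l 16861568) (l 16858040)) (b (l 16861656) (l 16859544))))) (c (l 16844744) (b (l 16862360) (l 16849440)))))) (c (l 16849192) (b (l 16823224) (a (l 16840784) (l 16817776))))))))), by decide +kernel⟩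

def k31_A00pm_113_s3 : ∃ t, chk3 f_A00pm_113_s3 t 28 62 1 = true :=
  ⟨(b (a (l 6) (a (l 6) (c (a (c (l 16826152) (l 16779248)) (b (l 16837320) (c (l 16822464) (l 16817240)))) (b (c (l 16827512) (a (l 6) (l 16824592))) (a (c (l 16807032) (l 16801640)) (c (l 16811864) (b (l 16810720) (l 16801792)))))))) (a (l 6) (c (a (b (c (l 16793208) (l 16787656)) (a (l 16728656) (c (l 16736496) (l 16730488)))) (b (a (c (l 16758408) (l 16794784)) (c (l 16806520) (l 16801032))) (a (c (l 16743080) (l 16737184)) (l 16769056)))) (a (b (c (l 16782048) (l 16755416)) (a (c (l 16761480) (l 16755352)) (c (l 16745392) (b (l 16764488) (l 16755680))))) (b (a (c (l 16789120) (b (l 16787664) (l 16778792))) (c (l 16795424) (b (l 16793496) (l 16786032)))) (a (c (l 16773152) (a (l 16765120) (l 16769216))) (c (l 16781328) (l 16775392)))))))), by decide +kernel⟩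

def k32_A00pm_113_s3 : ∃ t, chk3 f_A00pm_113_s3 t 28 126 1 = true :=
  ⟨(a (c (a (a (l 6) (b (l 6) (b (l 6) (l 16697568)))) (b (c (l 16707976) (l 16722248)) (a (c (l 16730472) (l 16681192)) (b (a (l 16734264) (l 16715424)) (c (l 16699528) (l 16702720)))))) (a (a (l 6) (a (l 6) (b (l 6) (c (l 16670776) (l 16705248))))) (b (c (b (l 16699256) (l 16689960)) (a (l 16727672) (l 16731992))) (a (c (l 16694832) (c (l 16710304) (l 16706632))) (c (b (l 16703824) (a (l 16672440) (l 16676008))) (b (l 16707232) (a (l 16686040) (l 16689688)))))))) (c (a (b (a (c (l 16735736) (l 16729200)) (c (l 16721760) (l 16736352))) (a (b (c (l 16745528) (l 16696712)) (l 16694264)) (c (l 16752032) (l 16745296)))) (b (c (l 16755584) (l 16759976)) (c (l 16744496) (c (l 16739664) (l 16736408))))) (a (b (a (c (a (l 16699864) (l 16723880)) (b (l 16699232) (a (l 16688592) (l 16692016)))) (c (c (l 16710552) (l 16707320)) (b (l 16726856) (l 16741096)))) (a (c (b (l 16710784) (l 16725584)) (a (b (l 16680384) (l 16715808))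 (l 16682176))) (c (l 16696568) (l 16731664)))) (c (b (b (l 16746448) (l 16740224)) (a (l 16726944) (l 16735816))) (a (b (l 16753576) (l 16730720)) (b (l 16762200) (l 16739696))))))), by decide +kernel⟩

def k33_A00pm_113_s3 : ∃ t, chk3 f_A00pm_113_s3 t 56 254 1 = true :=
  ⟨(a (c (c (a (c (l 16665672) (l 16682464)) (c (l 16669200) (l 16686112))) (a (b (l 16701744) (l 16671680)) (c (l 16682056) (l 16678000)))) (c (c (a (l 16669928) (l 16673944)) (b (l 16683040) (a (l 16661056) (l 16665160)))) (a (b (l 16664360) (c (l 16656808) (l 16652560))) (b (l 16668704) (c (l 16661032) (l 16656904)))))) (c (a (b (c (l 16685912) (a (l 16708504) (l 16689648))) (c (a (l 16676128) (l 16679656)) (a (b (l 16701616) (a (l 16696536) (l 16697856))) (c (l 16673688) (l 16680192))))) (b (c (l 16692832) (l 16695800)) (c (l 16718952) (l 16711224)))) (a (c (c (b (l 16682832) (a (l 16672472) (l 16676208))) (b (l 16678960) (a (l 16668432) (l 16672224)))) (b (a (l 16692896) (b (l 16697440) (l 16671840))) (a (b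 (l 16685584) (c (l 16662016) (l 16668424))) (b (c (l 16669800) (l 16665840)) (l 16664496))))) (b (c (a (l 16685608) (l 16711816)) (a (c (l 16679896) (l 16676080)) (l 16704320))) (c (l 16682496) (l 16674720)))))), by decide +kernel⟩

def k34_A00pm_113_s3 : ∃ t, chk3 f_A00pm_113_s3 t 112 510 1 = true :=
  ⟨(c (a (c (c (l 16694504) (b (l 16692360) (l 16687880))) (c (b (l 16687992) (l 16683440)) (l 16660336))) (c (b (l 16698032) (a (l 16692712) (a (l 16694008) (b (l 16696096) (l 16694272))))) (a (b (l 16688640) (l 16684024)) (b (l 16690504) (a (l 16685416) (b (l 16687600) (a (l 16685104) (l 16686216)))))))) (a (a (c (c (l 16675944) (l 16650544)) (c (l 16656600) (l 16652168))) (c (c (l 16677912) (l 16652568)) (c (l 16648200) (l 16654320)))) (c (a (c (l 16679864) (l 16654592)) (b (l 16682088) (a (l 16655856) (a (c (l 16679800) (l 16675528)) (c (l 16680728) (l 16655496)))))) (a (c (l 16650288) (l 16656464)) (b (l 16657944) (a (c (l 16670384) (l 16666088)) (a (c (l 16650288) (l 16656504))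 (c (l 16651248) (l 16657472))))))))), by decide +kernel⟩

def k35_A00pm_113_s3 : ∃ t, chk3 f_A00pm_113_s3 t 112 511 2 = true :=
  ⟨(a (b (a (c (l 16679544) (c (l 16677976) (l 16673432))) (c (l 16686512) (c (l 16679792) (l 16675312)))) (c (c (a (l 16682632) (l 16684304)) (a (l 16678016) (l 16679752))) (c (a (b (l 16674552) (l 16672256)) (b (l 16676352) (l 16674048))) (a (b (l 16669952) (c (l 16668784) (l 16666464))) (b (l 16671824) (c (l 16670624) (l 16668336))))))) (b (a (c (l 16688224) (c (l 16681600) (l 16677184))) (c (a (b (l 16690736) (a (l 16688320) (l 16689408))) (l 16692200)) (a (b (a (l 16681712) (l 16682320)) (a (c (l 16681736) (l 16677344)) (l 16680672))) (c (l 16685712) (l 16681392))))) (b (c (a (a (l 16684432) (c (l 16687608) (l 16683160))) (a (l 16687480) (l 16690432))) (a (a (c (l 16677704) (l 16673216)) (a (l 16676144) (c (l 16678984) (b (l 16674992) (l 16674000))))) (a (c (l 16680864) (l 16676448)) (l 16681704)))) (a (c (a (l 16682176) (b (a (l 16683400) (l 16684376))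 (a (c (l 16684712) (l 16680208)) (l 16683768)))) (a (c (l 16675392) (l 16670872)) (c (a (a (l 16675976) (a (l 16676240) (l 16676488))) (l 16677360)) (a (b (l 16672184) (a (l 16670904) (l 16671416))) (b (l 16673200) (l 16672560)))))) (c (c (l 16690008) (l 16685592)) (c (l 16681176) (a (l 16675208) (l 16678296)))))))), by decide +kernel⟩

def k36_A00pm_113_s3 : ∃ t, chk3 f_A00pm_113_s3 t 112 1022 3 = true :=
  ⟨(a (c (c (a (l 16668896) (l 16670840)) (a (b (l 16665552) (l 16663160)) (b (l 16667568) (l 16665160)))) (c (a (c (l 16660952) (l 16658680)) (a (l 16656128) (l 16657160))) (a (a (l 16644256) (l 16645328)) (c (l 16648040) (l 16645800))))) (c (a (c (l 16672768) (b (l 16669568) (l 16667152))) (a (c (b (l 16672896) (a (l 16672952) (l 16674112))) (b (b (l 16671688) (l 16649616)) (a (b (l 16669032) (l 16668008)) (l 16669736)))) (c (l 16677064) (l 16651768)))) (a (a (c (l 16663432) (l 16648520)) (c (l 16664464) (l 16649576))) (a (c (b (a (l 16666464) (b (l 16667616) (l 16666568))) (a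 (b (l 16664648) (a (l 16663304) (l 16663840))) (l 16665360))) (c (b (l 16647832) (a (b (l 16661360) (a (l 16660000) (l 16660544))) (l 16662080))) (b (l 16650904) (a (b (l 16659168) (a (l 16657800) (l 16658344))) (l 16659896))))) (c (l 16652688) (b (l 16649056) (l 16663400))))))), by decide +kernel⟩

def k37_A00pm_113_s3 : ∃ t, chk3 f_A00pm_113_s3 t 224 1023 3 = true :=
  ⟨(c (b (c (a (c (l 16666504) (l 16664208)) (c (l 16668424) (l 16666152))) (a (c (l 16661912) (l 16659608)) (c (l 16663888) (l 16661624)))) (c (a (c (l 16664144) (b (l 16662424) (l 16661240))) (c (l 16666056) (b (l 16664368) (l 16663176)))) (b (a (c (l 16660112) (l 16657800)) (c (l 16662088) (l 16659808))) (a (c (a (l 16658424) (l 16659416)) (a (l 16656096) (l 16657104))) (c (a (l 16660400) (l 16661384)) (a (l 16658104) (l 16659096))))))) (b (c (a (c (l 16657312) (a (l 16654496) (l 16655536))) (c (l 16659352) (a (l 16656576) (l 16657608)))) (a (a (c (l 16652192) (l 16649888)) (c (l 16653248) (l 16650960))) (a (c (l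 16654304) (l 16652024)) (c (l 16655352) (l 16653096))))) (c (b (a (c (a (l 16654984) (l 16656008)) (a (l 16652664) (l 16653704))) (c (a (l 16657024) (l 16658040)) (a (l 16654736) (l 16655768)))) (a (c (a (c (l 16654352) (l 16653184)) (l 16654784)) (a (c (l 16652024) (l 16650856)) (c (l 16653056) (l 16651896)))) (c (a (l 16655808) (l 16656816)) (a (c (l 16654080) (l 16652936)) (c (l 16655104) (l 16653968)))))) (b (a (c (a (l 16650344) (l 16651400)) (c (a (l 16648608) (l 16649672)) (l 22))) (c (a (l 16652448) (l 16653496)) (a (l 16647536) (l 16651224)))) (a (a (c (a (c (l 16649432) (l 16648264)) (c (l 16649952) (l 16648792))) (a (l 22) (c (l 16647632) (l 22)))) (c (c (l 16650736) (b (l 16649896) (l 16649272))) (c (a (l 16648160) (l 16648696)) (l 22)))) (c (a (c (l 16651784) (b (l 16650944) (l 16650328))) (c (l 16652824) (l 16651688))) (a (a (c (l 16649224) (l 22)) (c (l 16649752) (l 16648608))) (a (c (l 16650280) (l 16649136)) (c (l 16650808) (l 16649672)))))))))), by decide +kernel⟩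

def k38_A00pm_113_s3 : ∃ t, chk3 f_A00pm_113_s3 t 225 1023 6 = true :=
  ⟨(b (a (c (a (l 16668736) (a (l 16669456) (b (l 16670552) (a (l 16669256) (l 16669776))))) (a (l 16664248) (a (l 16664992) (b (l 16666120) (a (l 16664800) (l 16665328)))))) (a (c (l 16666792) (c (l 16668728) (l 16666520))) (a (l 16672184) (l 16673744)))) (a (a (c (b (l 16666952) (l 16665760)) (c (l 16662960) (l 16660704))) (c (b (a (b (l 16667968) (l 16667400)) (l 16668728)) (a (a (c (l 16667520) (l 16665264)) (b (l 16667088) (l 16666728))) (l 16668080))) (b (c (a (l 16664328) (l 16665376)) (a (a (l 16661936) (l 16662216)) (l 16663144))) (a (b (a (l 16662152) (c (l 16663712) (l 16661464))) (a (c (l 16662720) (a (l 16660352) (l 16660552))) (l 16662224))) (l 16663592))))) (c (b (l 16672648) (c (l 16673136) (l 16670920))) (a (c (l 16667432) (l 16665208)) (c (l 16670600) (l 16668400)))))), by decide +kernel⟩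

def k39_A00pm_113_s3 : ∃ t, chk3 f_A00pm_113_s3 t 225 2046 7 = true :=
  ⟨(a (c (a (c (l 16660888) (l 16658640)) (a (l 16660528) (c (b (l 16662792) (a (l 16661456) (l 16661992))) (b (l 16660576) (a (l 16659224) (l 16659768)))))) (a (c (l 16656400) (l 16654160)) (a (c (l 16657184) (l 16654952)) (c (b (l 16658360) (a (b (l 16657272) (l 16656696)) (l 16657544))) (b (b (l 16656424) (l 16655832)) (a (b (l 16655040) (a (l 16654352) (l 16654560))) (b (l 16655496) (l 16655112)))))))) (c (a (b (c (l 16664648) (l 16662448)) (l 16662872)) (l 16666408)) (a (a (b (c (l 16659440) (l 16657232)) (l 16657632)) (l 16659600)) (l 16662032)))), by decide +kernel⟩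

def k40_A00pm_113_s3 : ∃ t, chk3 f_A00pm_113_s3 t 450 2047 7 = true :=
  ⟨(b (c (b (a (l 16658232) (a (l 16659000) (a (c (l 16660688) (l 16658456)) (l 16660344)))) (a (c (l 16658744) (l 16656488)) (a (a (l 16658256) (a (l 16658448) (c (l 16659776) (l 16657528)))) (l 16659608)))) (a (c (l 16654544) (l 16652288)) (a (a (c (l 16655192) (l 16652944)) (b (l 16654648) (a (c (l 16655080) (l 16652832)) (c (b (l 16655392) (l 16655152)) (b (l 16653152) (l 16652912)))))) (a (b (a (c (l 16656040) (l 16653800)) (l 16655264)) (l 16654720)) (l 16655712))))) (a (c (c (l 16657832) (c (l 16656128) (l 16655000))) (c (c (l 16653864) (l 16652736)) (a (c (l 16651336) (l 16650200)) (c (l 16651864) (l 16650736))))) (b (c (a (a (c (l 16658768) (l 16656512)) (a (c (l 16659032) (b (l 16656888) (l 16656656))) (l 16658256))) (l 16659272)) (c (a (a (l 16654264) (a (b (l 16654640) (l 16654408)) (l 16654880))) (l 16655912)) (a (a (l 16652008) (a (b (a (l 16652328) (l 16652440)) (a (c (l 16652624) (l 16651496))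 (l 16652240))) (l 16652632))) (l 16653672)))) (c (a (a (c (a (l 16658096) (b (l 16658400) (l 16658168))) (a (l 16655832) (b (l 16656144) (a (l 16655816) (l 16655992))))) (c (l 16658840) (l 16656592))) (c (l 16660064) (l 16657824))) (a (a (a (c (l 16653576) (b (l 16651472) (l 16651160))) (c (b (a (l 16653832) (l 16653936)) (a (b (l 16653608) (l 16653496)) (l 16653736))) (b (a (l 16651576) (b (l 16651736) (l 16651616))) (a (b (c (l 16651920) (l 16650792)) (c (l 16651800) (l 16650672))) (l 16651480))))) (c (l 16654336) (l 16652088))) (c (l 16655576) (a (l 16652920) (l 16653744)))))))), by decide +kernel⟩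

def k41_A00pm_113_s3 : ∃ t, chk3 f_A00pm_113_s3 t 451 2047 7 = true :=
  ⟨(b (c (c (l 16664920) (l 16662712)) (a (c (l 16658880) (l 16656656)) (l 16661024))) (b (c (c (l 16664432) (a (l 16660600) (l 16663832))) (c (a (l 16658376) (l 16661624)) (a (l 16656152) (l 16659416)))) (c (c (a (l 16662496) (l 16665712)) (a (b (l 16660352) (l 16660184)) (b (l 16663584) (l 16663424)))) (c (a (a (l 16657224) (l 16658856)) (a (l 16660480) (l 16662104))) (a (b (l 16655896) (c (l 16656280) (a (l 16654344) (l 16655992)))) (b (l 16659168) (c (l 16659552) (a (l 16657632) (l 16659264))))))))), by decide +kernel⟩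

def k42_A00pm_113_s3 : ∃ t, chk3 f_A00pm_113_s3 t 113 510 1 = true :=
  ⟨(c (c (a (a (a (b (l 16700616) (l 16697512)) (l 16701640)) (l 16705824)) (l 16714104)) (a (a (a (b (b (l 16693168) (l 16691272)) (l 16689072)) (a (l 16692600) (l 16694024))) (l 16697648)) (l 16706160))) (a (c (a (b (c (l 16666360) (a (l 16660920) (l 16684272))) (a (l 16659656) (l 16683656))) (l 16668480)) (a (b (a (c (l 16656760) (l 16663080)) (l 16657112)) (c (l 16654848) (l 16650640))) (c (l 16683304) (l 16679192)))) (c (l 16677200) (c (l 16671200) (l 16667184))))), by decide +kernel⟩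

def k43_A00pm_113_s3 : ∃ t, chk3 f_A00pm_113_s3 t 113 511 2 = true :=
  ⟨(c (b (a (l 16699448) (l 16710704)) (a (a (c (l 16696416) (l 16692112)) (c (l 16702160) (l 16697936))) (a (b (l 16706272) (l 16705208)) (l 16711320)))) (b (a (a (l 16688048) (l 16693944)) (b (l 16703160) (l 16702008))) (a (b (c (l 16691352) (l 16681848)) (c (a (l 16687216) (l 16693136)) (a (b (l 16683176) (l 16677344)) (l 16683640)))) (a (b (l 16697992) (c (l 16698952) (l 16694776))) (c (l 16705200) (l 16701096)))))), by decide +kernel⟩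

def k44_A00pm_113_s3 : ∃ t, chk3 f_A00pm_113_s3 t 113 511 3 = true :=
  ⟨(b (c (a (a (l 16658560) (l 16685576)) (l 16673448)) (a (c (l 16660512) (c (l 16652088) (l 16649976))) (c (l 16688272) (l 16663192)))) (a (b (a (c (c (l 16679776) (l 16675464)) (c (l 16671152) (l 16666832))) (c (c (l 16685832) (l 16681592)) (c (l 16677352) (l 16673104)))) (c (b (c (a (l 16678848) (l 16684928)) (a (l 16674520) (l 16680664))) (c (a (c (l 16679328) (l 16677152)) (c (l 16685400) (l 16683264))) (a (a (a (l 16668920) (l 16673112)) (a (l 16674664) (l 16676216))) (a (l 16673280) (l 16681568))))) (b (a (c (c (l 16671264) (l 16669096)) (c (l 16666928) (l 16664752))) (c (l 16671152) (a (l 16670568) (l 16673672)))) (a (c (a (c (l 16669048) (b (l 16667024) (l 16666704))) (c (l 16672192) (l 16670024))) (c (c (a (l 16665224) (l 16668392)) (a (l 16664128) (l 16667312))) (c (a (l 16660408) (l 16666224)) (b (l 16663712) (a (l 16659152) (l 16664976)))))) (c (a (c (l 16675296) (l 16673144)) (b (l 16677464) (l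 16671904))) (a (c (l 16670992) (l 16663600)) (c (l 16674104) (l 16671960)))))))) (b (c (c (l 16694680) (l 16669576)) (c (l 16670664) (l 16671752))) (a (c (c (l 16685336) (a (l 16684888) (l 16687864))) (c (c (l 16683224) (l 16681112)) (a (a (l 16670416) (l 16677184)) (l 16679456)))) (c (c (l 16696408) (l 16692272)) (c (l 16688112) (b (l 16684256) (l 16683640)))))))), by decide +kernel⟩

def k45_A00pm_113_s3 : ∃ t, chk3 f_A00pm_113_s3 t 57 127 1 = true :=
  ⟨(b (a (c (c (l 16715936) (c (l 16710504) (l 16706872))) (c (a (l 16696120) (l 16706448)) (a (c (l 16690536) (l 16686808)) (c (l 16700992) (l 16697336))))) (c (c (a (l 16751232) (l 16760232)) (c (l 16729712) (l 16726240))) (c (a (l 16716240) (l 16725512)) (a (c (l 16710888) (l 16717768)) (c (l 16720216) (l 16727136)))))) (a (b (c (c (l 16709024) (l 16701440)) (c (c (l 16695704) (l 16702352)) (a (c (l 16703480) (l 16678592)) (a (l 16688696) (l 16693944))))) (c (a (b (c (l 16721544) (l 16713680)) (c (a (l 16716800) (l 16722176)) (a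 (l 16703512) (l 16714240)))) (b (c (l 16731960) (l 16724296)) (c (l 16730040) (l 16722256)))) (c (a (b (l 16684768) (b (l 16683048) (c (l 16683960) (l 16679888)))) (b (l 16716544) (l 16693392))) (a (a (c (l 16679976) (l 16681152)) (c (l 16701328) (l 16676328))) (c (l 16688544) (c (l 16706528) (l 16694048))))))) (c (a (c (l 16711416) (l 16714472)) (c (l 16752320) (l 16745032))) (c (a (c (l 16708816) (l 16705008)) (a (l 16714216) (l 16718928))) (a (c (a (l 16698632) (l 16703648)) (b (l 16699664) (c (l 16716968) (l 16704504)))) (c (a (l 16708520) (l 16713248)) (b (l 16719816) (c (l 16726840) (l 16714384))))))))), by decide +kernel⟩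

def k46_A00pm_113_s3 : ∃ t, chk3 f_A00pm_113_s3 t 58 62 1 = true :=
  ⟨(b (c (a (b (c (a (l 16844792) (l 16850032)) (a (l 16839800) (l 16845064))) (a (c (l 16828208) (l 16823032)) (l 16831856))) (c (b (l 16836640) (l 16842304)) (b (l 16831864) (l 16816480)))) (b (c (a (a (l 16834608) (l 16818896)) (c (l 16828120) (l 16825544))) (a (a (b (l 16833640) (l 16824656)) (b (l 16838624) (l 16830448))) (a (b (l 16844072) (l 16836024)) (b (l 16848848) (l 16840928))))) (c (a (a (l 16817680) (l 16824080)) (a (l 16829760) (l 16834784))) (a (a (b (l 16816152) (l 16808328)) (l 16818656)) (a (l 16824424) (l 16808552)))))) (c (a (b (c (l 16816832) (l 16811568)) (c (l 16803656) (l 16798160))) (b (a (l 16823208) (l 16828384)) (c (l 16815880) (l 16810600)))) (c (a (b (a (l 16802736) (l 16809392)) (a (l 16788936) (l 16795904))) (b (a (l 16815368) (l 16820680)) (a (l 16802200) (l 16807832)))) (a (b (a (l 16797112) (l 16803848)) (a (l 16783104) (l 16790144))) (b (a (l 16809904) (l 16815280)) (a (l 16796496)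 (l 16802184))))))), by decide +kernel⟩

def k47_A00pm_113_s3 : ∃ t, chk3 f_A00pm_113_s3 t 59 62 1 = true :=
  ⟨(b (c (a (b (a (l 16840408) (b (a (l 16825760) (l 16847224)) (l 16818928))) (c (l 16829632) (l 16825016))) (b (a (b (l 16846184) (a (l 16821032) (l 16842616))) (b (l 16864632) (l 16852144))) (a (l 16831944) (b (a (l 16816112) (l 16837800)) (l 16830896))))) (a (b (a (c (l 16833208) (b (l 16852968) (l 16845168))) (b (c (l 16850320) (a (l 16834584) (b (l 16857720) (l 16855208)))) (c (l 16853824) (l 16848760)))) (c (c (l 16821376) (l 16818864)) (a (l 16823480) (b (l 16841360) (l 16834240))))) (b (a (c (b (l 16860584) (l 16845856)) (b (a (l 16856256) (l 16855624)) (a (l 16851072) (l 16841416)))) (b (l 16835448) (c (l 16845672) (b (l 16852440) (l 16840360))))) (a (c (l 16824960) (b (l 16844448) (l 16837464))) (c (b (l 16830712) (l 16845000)) (b (a (l 16846360) (l 16826288)) (l 16840064))))))) (c (a (b (c (l 16837312) (l 16811536)) (c (l 16825496) (l 16820408))) (b (c (l 16822624)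 (a (l 16837640) (l 16840248))) (c (l 16811496) (a (l 16826040) (l 16828992))))) (a (b (c (a (l 16825344) (l 16829352)) (a (l 16820008) (l 16824088))) (c (a (l 16812816) (l 16817152)) (a (l 16807216) (l 16811608)))) (a (b (c (l 16832720) (l 16817048)) (c (l 16820840) (b (l 16818288) (l 16812528)))) (b (c (l 16835440) (b (l 16833512) (l 16827272))) (c (l 16823888) (c (l 16819872) (l 16817112)))))))), by decide +kernel⟩

def k48_A00pm_113_s3 : ∃ t, chk3 f_A00pm_113_s3 t 58 63 1 = true :=
  ⟨(c (b (a (a (b (l 16774856) (l 16764160)) (b (l 16782016) (l 16771704))) (a (b (l 16778040) (l 16778600)) (b (l 16783912) (l 16784864)))) (a (b (c (l 16751808) (c (l 16746848) (l 16743480))) (c (l 16744576) (c (l 16739240) (l 16746104)))) (b (a (l 16770200) (l 16776872)) (c (l 16760048) (c (l 16754832) (l 16751272)))))) (b (a (c (b (a (l 16734432) (l 16783680)) (a (l 16744128) (l 16751800))) (a (b (l 16770232) (a (l 16735544) (l 16739576))) (b (l 16777600) (a (l 16743440) (l 16747128))))) (c (b (c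 (l 16794888) (l 16791936)) (a (l 16758808) (l 16765160))) (b (a (l 16784280) (l 16790304)) (a (a (l 16750648) (l 16754000)) (a (l 16757184) (l 16760216)))))) (c (a (b (a (l 16734216) (l 16742288)) (a (c (l 16748568) (l 16723864)) (c (l 16757056) (l 16732368)))) (b (a (l 16749688) (l 16756448)) (a (l 16752560) (l 16759744)))) (b (a (a (c (l 16728968) (a (l 16723280) (l 16727504))) (c (l 16737072) (a (l 16731552) (l 16735440)))) (a (c (l 16744496) (a (l 16739152) (l 16742696))) (c (l 16751256) (a (l 16746080) (l 16749296))))) (a (a (c (a (l 16717840) (l 16722264)) (b (l 16728888) (c (l 16736120) (a (l 16731888) (l 16736368))))) (c (a (l 16726520) (l 16730608)) (b (l 16737304) (c (l 16744744) (a (l 16740672) (l 16744816)))))) (c (a (a (l 16734528) (l 16738280)) (a (l 16741880) (l 16745312))) (a (b (l 16745032) (c (l 16742208) (a (l 16748784) (l 16752592)))) (b (c (l 16763544) (l 16751152)) (c (l 16749504) (a (l 16756232) (l 16759712))))))))))), by decide +kernel⟩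

def k49_A00pm_113_s3 : ∃ t, chk3 f_A00pm_113_s3 t 59 63 2 = true :=
  ⟨(a (c (b (b (l 16815192) (l 16806456)) (b (l 16778376) (l 16772976))) (b (b (l 16809760) (l 16800600)) (b (c (l 16773656) (l 16770416)) (c (l 16767856) (l 16764336))))) (b (b (a (l 16818616) (c (l 16824440) (l 16819248))) (c (l 16814984) (b (l 16811232) (l 16786480)))) (b (c (l 16808752) (c (l 16783176) (l 16780000))) (c (l 16793808) (a (l 16795152) (l 16778800)))))), by decide +kernel⟩

def k50_A00pm_113_s3 : ∃ t, chk3 f_A00pm_113_s3 t 59 63 3 = true :=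
  ⟨(b (c (a (b (a (l 16801624) (l 16806304)) (a (l 16770864) (l 16775928))) (b (a (l 16810352) (l 16813760)) (a (l 16780360) (l 16805120)))) (a (b (a (l 16795672) (c (l 16801896) (l 16798880))) (a (a (l 16763080) (l 16765784)) (b (l 16771888) (l 16777784)))) (a (b (c (l 16805984) (l 16802984)) (c (l 16775632) (l 16782880))) (b (c (l 16809448) (l 16806480)) (c (l 16779472) (a (l 16775336) (l 16777120))))))) (c (a (b (a (l 16762560) (l 16768032)) (a (l 16766296) (l 16772224))) (b (a (l 16783368) (l 16787576)) (a (c (l 16789824) (l 16765184)) (c (l 16794488) (l 16780352))))) (a (c (b (a (l 16757384) (l 16762872)) (a (a (l 16748592) (l 16751712)) (a (l 16765152) (l 16767960)))) (a (b (a (l 16762848) (l 16765744)) (b (c (l 16769976) (l 16757584)) (c (l 16756160) (a (l 16763040) (l 16755720))))) (a (b (l 16768488) (c (l 16762272) (b (l 16772472) (c (l 16769720) (l 16768712))))) (b (l 16771080) (b (l 16776176) (b (l 16773808) (a (l 16771656) (l 16773056)))))))) (c (a (b (l 16778224) (a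 (l 16770616) (l 16773120))) (b (l 16782472) (a (l 16775464) (l 16777664)))) (b (a (a (l 16773520) (l 16775800)) (b (l 16780744) (l 16782480))) (a (b (a (l 16768288) (l 16770728)) (b (a (l 16776488) (l 16779024)) (c (l 16777432) (a (l 16774088) (l 16776672))))) (b (a (l 16773024) (c (l 16786608) (l 16784704))) (c (a (l 16781752) (l 16784016)) (b (a (l 16780408) (l 16782648)) (a (l 16779112) (a (l 16780848) (l 16781960)))))))))))), by decide +kernel⟩

def k51_A00pm_113_s3 : ∃ t, chk3 f_A00pm_113_s3 t 30 14 1 = true :=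
  ⟨(b (l 6) (a (b (l 6) (c (a (l 16894608) (l 16886992)) (b (l 16868480) (l 16802080)))) (a (b (b (l 6) (c (l 16843904) (c (l 16838408) (a (l 6) (l 16831936))))) (c (b (l 16882128) (l 16877304)) (b (a (l 16793856) (l 16831248)) (l 16788080)))) (b (c (b (b (a (l 6) (l 16817960)) (a (c (l 16840584) (l 16856992)) (c (l 16867200) (l 16862336)))) (a (b (a (l 16882672) (c (l 16861456) (a (l 16878840) (l 16856032)))) (l 16838200)) (b (c (l 16851336) (a (l 16871504) (l 16862896))) (a (c (l 16878624) (l 16852984)) (l 16827856))))) (a (b (a (l 6) (a (l 6) (b (l 6) (c (l 16868520) (l 16863208))))) (b (c (a (l 16875680) (a (b (l 16874320) (l 16873760)) (b (l 16871680) (l 16872336)))) (a (l 16870656) (a (b (l 16868944) (l 16868456)) (b (c (l 16867576) (l 16854256)) (a (l 16867568) (l 16866680)))))) (c (l 16873280) (l 16868344)))) (b (c (b (l 16852576) (l 16836240)) (b (c (l 16848720) (l 16846088)) (c (l 16832224) (a (l 16854992) (l 16845936))))) (b (c (a (l 16845360) (l 16857768)) (a (c (l 16841280)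 (a (l 16851104) (l 16857296))) (l 16852368))) (c (a (b (l 16848032) (l 16869432)) (l 16862392)) (a (b (a (l 16854824) (l 16862256)) (a (l 16865216) (l 16853008))) (l 16846600))))))) (b (a (c (l 16876920) (c (l 16870896) (l 16866568))) (c (b (a (l 16875568) (b (l 16851248) (l 16851608))) (l 16861720)) (b (c (a (l 16868704) (a (l 16866592) (l 16863936))) (a (l 16863760) (b (a (l 16861568) (l 16858040)) (a (l 16861656) (l 16859544))))) (c (l 16844744) (a (l 16862360) (l 16849440)))))) (c (l 16849192) (a (l 16823224) (b (l 16840784) (l 16817776))))))))), by decide +kernel⟩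

def k52_A00pm_113_s3 : ∃ t, chk3 f_A00pm_113_s3 t 62 28 1 = true :=
  ⟨(a (b (l 6) (b (l 6) (c (b (c (l 16826152) (l 16779248)) (a (l 16837320) (c (l 16822392) (l 16817168)))) (a (c (l 16827512) (b (l 6) (l 16824592))) (b (c (l 16807032) (l 16801640)) (c (l 16811800) (a (l 16810720) (l 16801792)))))))) (b (l 6) (c (b (a (c (l 16793208) (l 16787656)) (b (l 16728656) (c (l 16736424) (l 16730416)))) (a (b (c (l 16758336) (l 16794712)) (a (l 16765568) (l 16800256))) (b (c (l 16743344) (l 16758424)) (l 16769056)))) (b (a (c (l 16782048) (l 16755416)) (b (c (l 16761480) (l 16755352)) (c (l 16766296) (a (l 16764488) (l 16755680))))) (a (b (c (l 16789048) (a (l 16787664) (l 16778792))) (c (l 16795688) (a (l 16793496) (l 16786032)))) (b (c (l 16773424) (b (l 16765120) (l 16769216))) (c (l 16781328) (l 16775392)))))))), by decide +kernel⟩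

def k53_A00pm_113_s3 : ∃ t, chk3 f_A00pm_113_s3 t 126 28 1 = true :=
  ⟨(b (c (b (a (l 6) (a (l 6) (b (l 6) (l 16697568)))) (a (c (l 16707976) (l 16722248)) (b (c (l 16730472) (l 16681192)) (c (b (l 16691408) (l 16715376)) (b (l 16705168) (l 16708248)))))) (b (a (l 6) (a (l 6) (b (l 6) (c (l 16707024) (l 16657400))))) (a (c (a (l 16699256) (l 16689960)) (b (l 16727672) (l 16731992))) (b (c (l 16694832) (c (l 16710304) (l 16706632))) (c (a (l 16703824) (b (l 16672400) (l 16676040))) (a (l 16707232) (b (l 16686000) (l 16689720)))))))) (c (b (a (b (c (l 16735664) (l 16729128)) (c (l 16743000) (l 16736624))) (b (a (c (l 16745528) (l 16696712)) (l 16694264)) (c (l 16752032) (l 16745296)))) (a (c (l 16755584) (l 16759976)) (c (l 16744496) (c (l 16739664) (l 16736408))))) (b (a (b (c (b (l 16699864) (l 16723880)) (a (l 16699232) (c (l 16692184) (l 16709784)))) (c (c (l 16710824) (l 16728568)) (a (l 16726856) (l 16741096)))) (b (c (a (l 16710784) (l 16725584)) (b (a (l 16680416) (l 16715808))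 (l 16682176))) (c (l 16696568) (l 16731664)))) (c (a (a (l 16746448) (l 16740224)) (b (l 16726944) (l 16735816))) (b (a (l 16753576) (l 16730720)) (a (l 16762200) (l 16739696))))))), by decide +kernel⟩

def k54_A00pm_113_s3 : ∃ t, chk3 f_A00pm_113_s3 t 254 56 1 = true :=
  ⟨(b (c (c (b (c (l 16665672) (l 16682464)) (c (l 16669200) (l 16686112))) (b (a (l 16701744) (l 16671680)) (c (l 16682056) (l 16678000)))) (c (c (b (l 16669928) (l 16673944)) (a (l 16683040) (b (l 16661056) (l 16665160)))) (b (a (l 16664360) (c (l 16656808) (l 16652560))) (a (l 16668704) (c (l 16661032) (l 16656904)))))) (c (b (a (c (l 16685912) (b (l 16708504) (l 16689608))) (c (b (l 16676088) (l 16679688)) (b (a (l 16701616) (b (l 16696536) (l 16697848))) (c (l 16673720) (l 16680224))))) (a (c (l 16692832) (l 16695800)) (c (l 16718952) (l 16711224)))) (b (c (c (a (l 16682832) (b (l 16672432) (l 16676240))) (a (l 16678960) (b (l 16668384) (l 16672256)))) (a (b (l 16692896) (c (l 16676112) (l 16672256))) (b (a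 (l 16685584) (c (l 16662016) (l 16668424))) (a (c (l 16669800) (l 16665840)) (l 16664496))))) (a (c (b (l 16685640) (l 16711816)) (b (c (l 16679928) (l 16676112)) (l 16704320))) (c (l 16682496) (l 16674720)))))), by decide +kernel⟩

def k55_A00pm_113_s3 : ∃ t, chk3 f_A00pm_113_s3 t 510 112 1 = true :=
  ⟨(c (b (c (c (l 16694504) (a (l 16692360) (l 16687880))) (c (a (l 16687992) (l 16683440)) (l 16660336))) (c (a (l 16698032) (b (l 16692712) (a (l 16695624) (b (l 16692888) (l 16694272))))) (b (a (l 16688640) (l 16684024)) (a (l 16690504) (b (l 16685416) (a (l 16687600) (b (l 16685104) (l 16686216)))))))) (b (b (c (c (l 16675944) (l 16650544)) (c (l 16656600) (l 16652168))) (c (c (l 16677912) (l 16652568)) (c (l 16648200) (l 16654320)))) (c (b (c (l 16679864) (l 16654592)) (a (l 16682088) (a (c (l 16680712) (l 16655480)) (b (l 16675632) (c (l 16679296) (l 16654048)))))) (b (c (l 16650288) (l 16656464)) (a (l 16657944) (b (c (l 16670384) (l 16666088)) (b (c (l 16650288) (l 16656504))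 (c (l 16651248) (l 16657472))))))))), by decide +kernel⟩

def k56_A00pm_113_s3 : ∃ t, chk3 f_A00pm_113_s3 t 511 112 2 = true :=
  ⟨(b (a (b (c (l 16679544) (c (l 16677976) (l 16673432))) (c (l 16686512) (c (l 16679792) (l 16675312)))) (c (c (b (l 16682632) (l 16684304)) (b (l 16678016) (l 16679752))) (c (b (a (l 16674552) (l 16672256)) (a (l 16676352) (l 16674048))) (b (a (l 16669952) (c (l 16668784) (l 16666464))) (a (l 16671824) (c (l 16670624) (l 16668336))))))) (a (b (c (l 16688224) (c (l 16681600) (l 16677184))) (c (b (a (l 16690736) (b (l 16688320) (l 16689416))) (l 16692224)) (b (a (b (l 16681712) (l 16682320)) (b (c (l 16681736) (l 16677344)) (l 16680672))) (c (l 16685736) (l 16681416))))) (a (c (b (b (l 16684432) (c (l 16687608) (l 16683160))) (b (l 16687480) (l 16690432))) (b (b (c (l 16677704) (l 16673216)) (b (l 16676144) (c (l 16678976) (a (l 16674992) (l 16674000))))) (b (c (l 16680864) (l 16676448)) (l 16681704)))) (b (c (b (l 16682176) (a (b (l 16683400) (l 16684376))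 (b (c (l 16684712) (l 16680208)) (l 16683768)))) (b (c (l 16675392) (l 16670872)) (c (b (a (l 16676672) (a (l 16675888) (l 16675456))) (l 16677368)) (a (b (l 16672184) (l 16673200)) (b (b (l 16670904) (l 16671416)) (l 16672560)))))) (c (c (l 16690008) (l 16685592)) (c (l 16681176) (b (l 16675208) (l 16678296)))))))), by decide +kernel⟩

def k57_A00pm_113_s3 : ∃ t, chk3 f_A00pm_113_s3 t 1022 112 3 = true :=
  ⟨(b (c (c (b (l 16668896) (l 16670840)) (b (a (l 16665552) (l 16663160)) (a (l 16667568) (l 16665160)))) (c (b (c (l 16660952) (l 16658680)) (b (l 16656128) (l 16657160))) (b (b (l 16644256) (l 16645328)) (c (l 16648040) (l 16645800))))) (c (b (c (l 16672768) (a (l 16669568) (l 16667152))) (b (c (a (l 16672896) (b (l 16672952) (l 16674112))) (a (a (l 16671688) (l 16649616)) (b (a (l 16669032) (l 16668008)) (l 16669744)))) (c (l 16677088) (l 16651792)))) (b (b (c (l 16663432) (l 16648520)) (c (l 16664464) (l 16649576))) (b (c (a (b (l 16666464) (a (l 16667616) (l 16666568))) (b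 (a (l 16664648) (b (l 16663304) (l 16663840))) (l 16665368))) (c (a (l 16647832) (b (a (l 16661360) (b (l 16660000) (l 16660544))) (l 16662088))) (a (l 16650904) (b (a (l 16659168) (b (l 16657800) (l 16658344))) (l 16659904))))) (c (l 16652712) (a (l 16649056) (l 16663400))))))), by decide +kernel⟩

def k58_A00pm_113_s3 : ∃ t, chk3 f_A00pm_113_s3 t 1023 224 3 = true :=
  ⟨(c (a (c (b (c (l 16666504) (l 16664208)) (c (l 16668424) (l 16666152))) (b (c (l 16661912) (l 16659608)) (c (l 16663888) (l 16661624)))) (c (b (c (l 16664144) (a (l 16662424) (l 16661240))) (c (l 16666056) (a (l 16664368) (l 16663176)))) (a (b (c (l 16660112) (l 16657800)) (c (l 16662088) (l 16659808))) (b (c (b (l 16658424) (l 16659416)) (b (l 16656096) (l 16657104))) (c (b (l 16660400) (l 16661384)) (b (l 16658104) (l 16659096))))))) (a (c (b (c (l 16657312) (b (l 16654496) (l 16655536))) (c (l 16659352) (b (l 16656576) (l 16657608)))) (b (b (c (l 16652192) (l 16649888)) (c (l 16653248) (l 16650960))) (b (c (l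 16654304) (l 16652024)) (c (l 16655352) (l 16653096))))) (c (a (b (c (b (l 16654984) (l 16656008)) (b (l 16652664) (l 16653704))) (c (b (l 16657024) (l 16658040)) (b (l 16654736) (l 16655768)))) (b (c (b (c (l 16654352) (l 16653184)) (l 16654784)) (b (c (l 16652024) (l 16650856)) (c (l 16653056) (l 16651896)))) (c (b (l 16655808) (l 16656816)) (b (c (l 16654080) (l 16652936)) (c (l 16655104) (l 16653968)))))) (a (b (c (b (l 16650344) (l 16651400)) (c (b (l 16648608) (l 16649672)) (l 30))) (c (b (l 16652448) (l 16653496)) (b (l 16647536) (l 16651224)))) (b (b (c (b (c (l 16649432) (l 16648264)) (c (l 16649952) (l 16648792))) (b (l 30) (c (l 16647632) (l 30)))) (c (c (l 16650736) (a (l 16649896) (l 16649272))) (c (b (l 16648160) (l 16648696)) (l 30)))) (c (b (c (l 16651784) (a (l 16650944) (l 16650328))) (c (l 16652824) (l 16651688))) (b (b (c (l 16649224) (l 30)) (c (l 16649752) (l 16648608))) (b (c (l 16650280) (l 16649136)) (c (l 16650808) (l 16649672)))))))))), by decide +kernel⟩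

def k59_A00pm_113_s3 : ∃ t, chk3 f_A00pm_113_s3 t 1023 225 6 = true :=
  ⟨(a (b (c (b (l 16668736) (b (l 16669456) (a (l 16670552) (b (l 16669256) (l 16669776))))) (b (l 16664248) (b (l 16664992) (a (l 16666120) (b (l 16664800) (l 16665328)))))) (b (c (l 16666792) (c (l 16668728) (l 16666520))) (a (l 16673288) (l 16672648)))) (b (b (c (a (l 16666952) (l 16665760)) (c (l 16662960) (l 16660704))) (c (a (b (a (l 16667968) (l 16667400)) (l 16668728)) (b (b (c (l 16667520) (l 16665264)) (a (l 16667088) (l 16666728))) (l 16668080))) (a (c (b (l 16664328) (l 16665376)) (b (b (l 16661936) (l 16662216)) (l 16663144))) (b (b (a (l 16662152) (c (l 16662720) (b (l 16660352) (l 16660552)))) (a (c (l 16663712) (l 16661464)) (l 16662224))) (l 16663592))))) (c (a (l 16672648) (c (l 16673136) (l 16670920))) (b (c (l 16667432) (l 16665208)) (c (l 16670600) (l 16668400)))))), by decide +kernel⟩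

def k60_A00pm_113_s3 : ∃ t, chk3 f_A00pm_113_s3 t 2046 225 7 = true :=
  ⟨(b (c (b (c (l 16660888) (l 16658640)) (b (l 16660528) (c (a (l 16662792) (b (l 16661456) (l 16661992))) (a (l 16660576) (b (l 16659224) (l 16659768)))))) (b (c (l 16656400) (l 16654160)) (b (c (l 16657184) (l 16654952)) (c (a (l 16658360) (b (a (l 16657272) (l 16656696)) (l 16657544))) (a (a (l 16656424) (l 16655832)) (b (a (l 16655040) (b (l 16654352) (l 16654560))) (a (l 16655496) (l 16655112)))))))) (c (a (b (c (l 16664648) (l 16662448)) (l 16666736)) (l 16648752)) (b (a (b (c (l 16659440) (l 16657232)) (l 16659944)) (l 16658448)) (l 16662032)))), by decide +kernel⟩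

def k61_A00pm_113_s3 : ∃ t, chk3 f_A00pm_113_s3 t 2047 450 7 = true :=
  ⟨(a (c (a (b (l 16658232) (b (l 16659000) (b (c (l 16660688) (l 16658456)) (l 16660344)))) (b (c (l 16658744) (l 16656488)) (b (b (l 16658256) (b (l 16658448) (c (l 16659776) (l 16657528)))) (l 16659608)))) (b (c (l 16654544) (l 16652288)) (b (b (c (l 16655192) (l 16652944)) (a (l 16654648) (b (c (l 16655080) (l 16652832)) (c (a (l 16655392) (l 16655152)) (a (l 16653152) (l 16652912)))))) (b (a (b (c (l 16656040) (l 16653800)) (l 16655264)) (l 16654720)) (l 16655712))))) (b (c (c (l 16657832) (c (l 16656128) (l 16655000))) (c (c (l 16653864) (l 16652736)) (b (c (l 16651336) (l 16650200)) (c (l 16651864) (l 16650736))))) (a (c (b (b (c (l 16658768) (l 16656512)) (b (c (l 16659032) (a (l 16656888) (l 16656656))) (l 16658256))) (l 16659272)) (c (b (b (l 16654264) (b (a (l 16654640) (l 16654408)) (l 16654880))) (l 16655912)) (b (b (l 16652008) (b (a (b (l 16652328) (l 16652440)) (b (c (l 16652624) (l 16651496))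 (l 16652240))) (l 16652632))) (l 16653672)))) (c (b (b (c (b (l 16658096) (a (l 16658400) (l 16658168))) (b (l 16655832) (a (l 16656144) (b (l 16655816) (l 16655992))))) (c (l 16658840) (l 16656592))) (c (l 16660064) (l 16657824))) (b (b (b (c (l 16653576) (a (l 16651472) (l 16651160))) (c (a (b (l 16653832) (l 16653936)) (b (a (l 16653608) (l 16653496)) (l 16653736))) (a (b (l 16651576) (a (l 16651736) (l 16651616))) (b (a (c (l 16651920) (l 16650792)) (c (l 16651800) (l 16650672))) (l 16651480))))) (c (l 16654336) (l 16652088))) (c (l 16655576) (b (l 16652920) (l 16653744)))))))), by decide +kernel⟩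

def k62_A00pm_113_s3 : ∃ t, chk3 f_A00pm_113_s3 t 2047 451 7 = true :=
  ⟨(a (c (c (l 16664920) (l 16662712)) (b (c (l 16658880) (l 16656656)) (l 16661024))) (a (c (c (l 16664432) (b (l 16660600) (l 16663832))) (c (b (l 16658376) (l 16661624)) (b (l 16656152) (l 16659416)))) (c (c (b (l 16662496) (l 16665712)) (b (a (l 16660352) (l 16660184)) (a (l 16663584) (l 16663424)))) (c (b (b (l 16657224) (l 16658856)) (b (l 16660480) (l 16662104))) (b (a (l 16655896) (c (l 16656280) (b (l 16654344) (l 16655992)))) (a (l 16659168) (c (l 16659552) (b (l 16657632) (l 16659264))))))))), by decide +kernel⟩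

def k63_A00pm_113_s3 : ∃ t, chk3 f_A00pm_113_s3 t 510 113 1 = true :=
  ⟨(c (c (b (b (b (a (l 16700616) (l 16697536)) (l 16701640)) (l 16705824)) (l 16714104)) (b (b (a (b (a (l 16693168) (l 16691272)) (l 16694616)) (b (l 16689096) (l 16692016))) (l 16697648)) (l 16706160))) (b (c (b (a (c (l 16666360) (b (l 16660920) (l 16684296))) (b (l 16659680) (l 16683656))) (l 16668480)) (b (a (b (c (l 16656752) (l 16663080)) (l 16657136)) (c (l 16654848) (l 16650640))) (c (l 16683304) (l 16679192)))) (c (l 16677200) (c (l 16671200) (l 16667184))))), by decide +kernel⟩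

def k64_A00pm_113_s3 : ∃ t, chk3 f_A00pm_113_s3 t 511 113 2 = true :=
  ⟨(c (a (b (l 16699448) (l 16710704)) (b (b (c (l 16696416) (l 16692112)) (c (l 16702160) (l 16697936))) (b (a (l 16706272) (l 16705208)) (l 16711320)))) (a (b (b (l 16688048) (l 16693944)) (a (l 16703160) (l 16702008))) (b (a (c (l 16691352) (l 16681848)) (c (b (l 16687216) (l 16693136)) (b (a (l 16683176) (l 16677344)) (l 16683640)))) (b (a (l 16697992) (c (l 16698952) (l 16694776))) (c (l 16705200) (l 16701096)))))), by decide +kernel⟩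

def k65_A00pm_113_s3 : ∃ t, chk3 f_A00pm_113_s3 t 511 113 3 = true :=
  ⟨(a (c (b (b (l 16658560) (l 16685576)) (l 16673448)) (b (c (l 16660512) (c (l 16652088) (l 16649976))) (c (l 16688272) (l 16663192)))) (b (a (b (c (c (l 16679776) (l 16675464)) (c (l 16671152) (l 16666832))) (c (c (l 16685832) (l 16681592)) (c (l 16677352) (l 16673104)))) (c (a (c (b (l 16678848) (l 16684928)) (b (l 16674520) (l 16680664))) (c (b (c (l 16679328) (l 16677152)) (c (l 16685400) (l 16683264))) (b (b (b (l 16668920) (l 16673112)) (b (l 16674664) (l 16676216))) (b (l 16673280) (l 16681568))))) (a (b (c (c (l 16671264) (l 16669096)) (c (l 16666928) (l 16664752))) (c (l 16671152) (b (l 16670568) (l 16673672)))) (b (c (b (c (l 16669048) (a (l 16667024) (l 16666704))) (c (l 16672192) (l 16670024))) (c (c (b (l 16665224) (l 16668392)) (b (l 16664128) (l 16667312))) (c (b (l 16660408) (l 16666224)) (a (l 16663712) (b (l 16659152) (l 16664976)))))) (c (b (c (l 16675296) (l 16673144)) (a (l 16677464) (l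 16671904))) (b (c (l 16670992) (l 16663600)) (c (l 16674104) (l 16671960)))))))) (a (c (c (l 16694680) (l 16669576)) (c (l 16670664) (l 16671752))) (b (c (c (l 16685336) (b (l 16684888) (l 16687864))) (c (c (l 16683224) (l 16681112)) (a (l 16678264) (c (l 16678688) (l 16676576))))) (c (c (l 16696408) (l 16692272)) (c (l 16688112) (a (l 16684256) (l 16683640)))))))), by decide +kernel⟩

def k66_A00pm_113_s3 : ∃ t, chk3 f_A00pm_113_s3 t 127 57 1 = true :=
  ⟨(a (b (c (c (l 16715936) (c (l 16710504) (l 16706872))) (c (b (l 16696120) (l 16706448)) (b (c (l 16690536) (l 16686808)) (c (l 16700992) (l 16697336))))) (c (c (b (l 16751232) (l 16760232)) (c (l 16729712) (l 16726240))) (c (b (l 16716240) (l 16725512)) (b (c (l 16710888) (l 16717768)) (c (l 16720216) (l 16727136)))))) (b (a (c (c (l 16709024) (l 16701440)) (c (c (l 16695704) (l 16702352)) (b (c (l 16703480) (l 16678592)) (b (l 16688696) (l 16693944))))) (c (b (a (c (l 16721544) (l 16713680)) (c (b (l 16716800) (l 16722176)) (b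 (l 16703512) (l 16714240)))) (a (c (l 16731960) (l 16724296)) (c (l 16730040) (l 16722256)))) (c (b (a (l 16684768) (a (l 16683048) (c (l 16683960) (l 16679888)))) (a (l 16716544) (l 16693392))) (b (b (c (l 16679976) (l 16681152)) (c (l 16701328) (l 16676328))) (c (l 16688544) (c (l 16706528) (l 16694048))))))) (c (b (c (l 16711416) (l 16714472)) (c (l 16752320) (l 16745032))) (c (b (c (l 16708816) (l 16705008)) (b (l 16714216) (l 16718928))) (b (c (b (l 16698632) (l 16703648)) (a (l 16699664) (c (l 16716968) (l 16704504)))) (c (b (l 16708520) (l 16713248)) (a (l 16719816) (c (l 16726840) (l 16714384))))))))), by decide +kernel⟩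

def k67_A00pm_113_s3 : ∃ t, chk3 f_A00pm_113_s3 t 62 58 1 = true :=
  ⟨(a (c (b (a (c (b (l 16844720) (l 16850296)) (b (l 16839728) (l 16845328))) (b (c (l 16828480) (l 16823296)) (l 16831856))) (c (a (l 16836640) (l 16842304)) (a (l 16831864) (l 16816480)))) (a (c (b (b (l 16834536) (l 16819168)) (c (l 16828120) (l 16825544))) (b (b (c (l 16830512) (l 16806800)) (a (l 16838624) (l 16830448))) (b (a (l 16844072) (l 16836024)) (a (l 16848848) (l 16840928))))) (c (b (b (l 16817952) (l 16824080)) (b (l 16829760) (l 16834784))) (b (b (a (l 16816152) (l 16808328)) (l 16818656)) (b (l 16824424) (l 16808552)))))) (c (b (a (c (l 16816832) (l 16811568)) (c (l 16803656) (l 16798160))) (a (b (l 16823208) (l 16828384)) (c (l 16815880) (l 16810600)))) (c (b (a (b (l 16802736) (l 16809392)) (b (l 16788936) (l 16795904))) (a (b (l 16815368) (l 16820680)) (b (l 16802200) (l 16807832)))) (b (a (b (l 16797112) (l 16803848)) (b (l 16783104) (l 16790144))) (a (b (l 16809904) (l 16815280)) (b (l 16796496)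 (l 16802184))))))), by decide +kernel⟩

def k68_A00pm_113_s3 : ∃ t, chk3 f_A00pm_113_s3 t 62 59 1 = true :=
  ⟨(a (c (b (a (b (l 16840408) (a (b (l 16825760) (l 16847224)) (l 16818928))) (c (l 16829632) (l 16825016))) (a (b (a (l 16846184) (b (l 16821032) (l 16842616))) (a (l 16864632) (l 16852144))) (b (l 16831944) (a (b (l 16816112) (l 16837800)) (l 16830896))))) (b (a (b (c (l 16833208) (a (l 16852968) (l 16845168))) (a (c (l 16850320) (b (l 16834584) (a (l 16857720) (l 16855208)))) (c (l 16853824) (l 16848760)))) (c (c (l 16821376) (l 16818864)) (b (l 16823480) (a (l 16841360) (l 16834240))))) (a (b (c (a (l 16860584) (l 16845856)) (a (b (l 16856256) (l 16855624)) (b (l 16851072) (l 16841416)))) (a (l 16835448) (c (l 16845672) (a (l 16852440) (l 16840360))))) (b (c (l 16824960) (a (l 16844448) (l 16837464))) (c (a (l 16830712) (l 16845000)) (a (b (l 16846360) (l 16826288)) (l 16840064))))))) (c (b (a (c (l 16837312) (l 16811536)) (c (l 16825496) (l 16820408))) (a (c (l 16822624)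 (b (l 16837640) (l 16840248))) (c (l 16811496) (b (l 16826040) (l 16828992))))) (b (a (c (b (l 16825344) (l 16829352)) (b (l 16820008) (l 16824088))) (c (b (l 16812816) (l 16817152)) (b (l 16807216) (l 16811608)))) (b (a (c (l 16832720) (l 16817048)) (c (l 16820840) (a (l 16818288) (l 16812528)))) (a (c (l 16835440) (a (l 16833512) (l 16827272))) (c (l 16823888) (c (l 16819872) (l 16817112)))))))), by decide +kernel⟩

def k69_A00pm_113_s3 : ∃ t, chk3 f_A00pm_113_s3 t 63 58 1 = true :=
  ⟨(c (a (b (a (c (l 16770920) (l 16786080)) (b (l 16764160) (l 16771704))) (a (c (l 16804840) (l 16799232)) (b (l 16778600) (l 16784864)))) (b (a (c (l 16751808) (c (l 16746848) (l 16743480))) (c (l 16744576) (c (l 16739240) (l 16746104)))) (a (b (l 16770200) (l 16776872)) (c (l 16760048) (c (l 16754832) (l 16751272)))))) (a (b (c (a (b (l 16734432) (l 16783680)) (b (l 16744128) (l 16751800))) (b (a (l 16770232) (b (l 16735544) (l 16739576))) (a (l 16777600) (b (l 16743440) (l 16747128))))) (c (a (c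 (l 16794888) (l 16791936)) (b (l 16758808) (l 16765160))) (a (b (l 16784280) (l 16790304)) (b (b (l 16750648) (l 16754000)) (b (l 16757184) (l 16760216)))))) (c (b (a (b (l 16734216) (l 16742288)) (b (c (l 16748568) (l 16723864)) (c (l 16757056) (l 16732368)))) (a (b (l 16749688) (l 16756448)) (b (l 16752560) (l 16759744)))) (a (b (b (c (l 16728968) (b (l 16723280) (l 16727504))) (c (l 16737072) (b (l 16731552) (l 16735440)))) (b (c (l 16744496) (b (l 16739152) (l 16742696))) (c (l 16751256) (b (l 16746080) (l 16749296))))) (b (b (c (b (l 16717840) (l 16722264)) (a (l 16728888) (c (l 16736120) (b (l 16731888) (l 16736368))))) (c (b (l 16726520) (l 16730608)) (a (l 16737304) (c (l 16744744) (b (l 16740672) (l 16744816)))))) (c (b (b (l 16734528) (l 16738280)) (b (l 16741880) (l 16745312))) (b (a (l 16745032) (c (l 16742208) (b (l 16748784) (l 16752592)))) (a (c (l 16763544) (l 16751152)) (c (l 16749504) (b (l 16756232) (l 16759712))))))))))), by decide +kernel⟩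

def k70_A00pm_113_s3 : ∃ t, chk3 f_A00pm_113_s3 t 63 59 2 = true :=
  ⟨(b (c (a (a (l 16815192) (l 16806456)) (a (l 16778376) (l 16772976))) (a (a (l 16809760) (l 16800600)) (a (c (l 16773656) (l 16770416)) (c (l 16767856) (l 16764336))))) (a (a (b (l 16818616) (c (l 16824440) (l 16819248))) (c (l 16814984) (a (l 16811232) (l 16786480)))) (a (c (l 16808752) (c (l 16783176) (l 16780000))) (c (l 16793808) (b (l 16795152) (l 16778800)))))), by decide +kernel⟩

def k71_A00pm_113_s3 : ∃ t, chk3 f_A00pm_113_s3 t 63 59 3 = true :=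
  ⟨(a (c (b (a (b (l 16801624) (l 16806304)) (b (l 16770864) (l 16775928))) (a (b (l 16810352) (l 16813760)) (b (l 16780360) (l 16805120)))) (b (a (b (l 16795672) (c (l 16801896) (l 16798880))) (b (b (l 16763080) (l 16765784)) (a (l 16771888) (l 16777784)))) (b (a (c (l 16805984) (l 16802984)) (c (l 16775632) (l 16782880))) (a (c (l 16809448) (l 16806480)) (c (l 16779472) (b (l 16775336) (l 16777120))))))) (c (a (b (b (l 16762560) (l 16768032)) (b (l 16783368) (l 16787576))) (b (b (l 16766296) (l 16772224)) (b (c (l 16789824) (l 16765184)) (c (l 16794488) (l 16780352))))) (b (c (a (b (l 16757384) (l 16762872)) (a (b (l 16772800) (l 16778608)) (b (l 16769592) (l 16775632)))) (b (a (b (l 16762848) (l 16765744)) (a (c (l 16769976) (l 16757584)) (c (l 16756160) (b (l 16763040) (l 16755720))))) (b (a (l 16768488) (c (l 16762272) (a (l 16772472) (c (l 16769720) (l 16768712))))) (a (l 16771080) (a (l 16776176) (a (l 16773808) (a (l 16772712) (l 16772016)))))))) (c (b (a (l 16778224) (a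 (l 16783800) (l 16770568))) (a (l 16782472) (b (l 16775464) (l 16777664)))) (a (b (b (l 16773520) (l 16775800)) (a (l 16780744) (l 16782480))) (b (a (b (l 16768288) (l 16770728)) (a (b (l 16776488) (l 16779024)) (c (l 16777432) (b (l 16774088) (l 16776672))))) (a (b (l 16773024) (c (l 16786608) (l 16784704))) (c (b (l 16781752) (l 16784016)) (a (b (l 16780408) (l 16782648)) (b (l 16779112) (a (l 16781704) (l 16781112)))))))))))), by decide +kernel⟩

def k72_A00pm_113_s3 : ∃ t, chk3 f_A00pm_113_s3 t 30 30 1 = true :=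
  ⟨(a (b (c (l 16881168) (a (l 16798312) (l 16875544))) (c (b (l 16869192) (a (l 16864568) (l 16858888))) (b (l 16824064) (a (c (l 16776408) (l 16815280)) (l 16812688))))) (b (c (a (l 16869192) (b (l 16864568) (l 16858888))) (a (l 16824064) (b (c (l 16776408) (l 16815280)) (l 16812688)))) (c (a (l 16814904) (l 16849896)) (c (l 16811368) (l 16832008))))), by decide +kernel⟩

def k73_A00pm_113_s3 : ∃ t, chk3 f_A00pm_113_s3 t 60 62 1 = true :=
  ⟨(b (a (b (c (l 16838504) (c (l 16812064) (l 16829080))) (c (a (b (a (l 16837608) (l 16857712)) (l 16832624)) (b (l 16855640) (a (l 16832880) (l 16832144)))) (a (b (c (l 16841112) (a (l 16836880) (l 16846888))) (c (l 16825976) (l 16831656))) (b (l 16826704) (c (l 16836544) (a (l 16832304) (l 16842448))))))) (c (b (l 16853632) (l 16829432)) (b (l 16826792) (c (l 16824200) (l 16820408))))) (c (a (b (a (c (l 16804704) (l 16842264)) (b (l 16827880) (l 16822200))) (c (l 16815992) (c (l 16812568) (l 16810184)))) (b (a (b (a (l 16828144) (l 16827504))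 (l 16823168)) (b (l 16825544) (a (l 16823416) (l 16822824)))) (a (b (l 16818136) (l 16813504)) (b (l 16818688) (l 16814240))))) (c (a (b (a (l 16816616) (c (l 16819624) (l 16817288))) (b (l 16819584) (l 16814424))) (b (a (b (l 16831984) (l 16837680)) (b (l 16840872) (l 16827432))) (a (l 16808928) (l 16820400)))) (b (a (a (b (l 16835704) (l 16829616)) (b (l 16827056) (l 16831528))) (a (b (a (l 16827744) (l 16827504)) (l 16833000)) (b (l 16815800) (a (l 16812728) (l 16823032))))) (a (a (b (l 16823848) (l 16818408)) (b (l 16825920) (l 16820648))) (a (b (l 16827544) (l 16822440)) (c (l 16816888) (l 16814456)))))))), by decide +kernel⟩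

def k74_A00pm_113_s3 : ∃ t, chk3 f_A00pm_113_s3 t 61 62 1 = true :=
  ⟨(b (c (a (l 16824912) (l 16839328)) (a (b (l 16843424) (l 16817896)) (l 16815568))) (b (a (a (a (c (l 16832880) (c (l 16816992) (l 16823536))) (c (l 16841928) (l 16814048))) (c (l 16839496) (l 16812312))) (c (l 16833736) (l 16819200))) (a (a (c (b (a (l 16818696) (l 16828552)) (c (l 16836984) (l 16822576))) (b (a (b (l 16822160) (l 16809248)) (c (l 16822760) (b (l 16819576) (l 16828104)))) (c (l 16818336) (a (l 16813784) (l 16824328))))) (c (b (a (l 16816968) (l 16835832)) (l 16823728)) (b (a (c (l 16811472) (l 16817944)) (l 16808488)) (c (l 16817984) (a (l 16824352) (l 16813800)))))) (a (c (c (l 16819984) (l 16820936)) (b (l 16806672) (a (b (l 16805696) (l 16814640)) (l 16814400)))) (c (l 16827416) (l 16813592)))))), by decide +kernel⟩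

def k75_A00pm_113_s3 : ∃ t, chk3 f_A00pm_113_s3 t 60 63 2 = true :=
  ⟨(b (a (b (c (l 16807192) (a (l 16821976) (l 16824208))) (a (c (l 16819720) (l 16814208)) (c (l 16822216) (l 16816840)))) (b (a (a (l 16806984) (l 16807648)) (b (a (l 16831008) (l 16810144)) (a (l 16806096) (l 16826696)))) (a (b (c (l 16825328) (l 16820256)) (c (l 16821528) (l 16816208))) (b (l 16801352) (l 16817520))))) (b (a (a (c (l 16814152) (l 16787152)) (c (l 16794832) (b (l 16812032) (l 16787296)))) (a (c (l 16814816) (l 16809096)) (l 16789104))) (a (a (c (l 16787752) (b (l 16783208) (l 16779720))) (c (l 16807592) (l 16801136))) (a (l 16780992) (l 16784008))))), by decide +kernel⟩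

def k76_A00pm_113_s3 : ∃ t, chk3 f_A00pm_113_s3 t 60 126 3 = true :=
  ⟨(a (c (b (a (l 16816592) (l 16818968)) (a (l 16808352) (c (l 16812584) (l 16809624)))) (b (a (c (l 16812352) (l 16809432)) (c (l 16814824) (l 16811960))) (a (c (l 16803736) (a (l 16778776) (l 16780336))) (c (l 16806584) (a (l 16792272) (l 16793624)))))) (c (b (a (l 16810360) (b (a (l 16823952) (l 16824240)) (a (l 16819664) (l 16819480)))) (a (b (a (l 16814592) (l 16815160)) (a (l 16789768) (l 16810456))) (b (l 16814640) (l 16809440)))) (b (a (b (l 16817688) (l 16813312)) (b (a (l 16818840) (b (l 16820488) (l 16818096))) (a (c (l 16815680) (l 16812912)) (l 16814248)))) (a (b (a (l 16808768) (a (l 16809432) (l 16809552))) (a (c (l 16795704) (b (l 16793776) (l 16791504))) (l 16793960))) (b (l 16798600) (l 16793120)))))), by decide +kernel⟩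

def k77_A00pm_113_s3 : ∃ t, chk3 f_A00pm_113_s3 t 60 127 6 = true :=
  ⟨(a (b (a (c (l 16803360) (l 16779088)) (b (a (l 16805560) (l 16795912)) (a (l 16791664) (l 16801760)))) (a (b (a (l 16796880) (l 16787504)) (c (l 16784872) (a (l 16781568) (l 16791568)))) (c (l 16796016) (l 16781976)))) (b (a (c (l 16804544) (l 16801392)) (l 16801368)) (a (l 16792048) (l 16790112)))), by decide +kernel⟩

def k78_A00pm_113_s3 : ∃ t, chk3 f_A00pm_113_s3 t 60 127 7 = true :=
  ⟨(a (c (b (a (c (l 16776544) (l 16785312)) (b (a (l 16800672) (l 16791080)) (a (a (l 16786576) (l 16786736)) (l 16796704)))) (b (a (a (l 16791440) (b (l 16783240) (l 16781216))) (l 16791640)) (a (a (b (l 16778872) (l 16776920)) (l 16787776)) (l 16785952)))) (b (a (b (l 16784376) (c (l 16792464) (l 16785408))) (b (a (l 16797296) (b (l 16788944) (a (l 16786840) (l 16797200)))) (a (b (a (l 16794488) (l 16784496)) (a (l 16782176) (l 16792504))) (l 16793200)))) (a (b (a (c (l 16788632) (l 16776248)) (b (b (a (l 16790160) (l 16780472))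 (a (l 16789472) (l 16779416))) (a (a (a (l 16788080) (l 16777720)) (a (l 16777768) (l 16788224))) (l 16787896)))) (a (b (a (l 16785224) (c (l 16776336) (b (a (l 16785320) (l 16775136)) (a (a (l 16784512) (l 16784560)) (l 16784392))))) (b (a (c (l 16785192) (a (l 16783064) (b (l 16783672) (a (l 16783208) (l 16783152))))) (l 16784104)) (a (c (l 16784200) (a (a (b (l 16782496) (l 16782096)) (b (l 16782656) (l 16782040))) (l 16782144))) (l 16782664)))) (c (l 16784856) (b (l 16784336) (l 16781416))))) (a (b (l 16783248) (c (l 16783656) (l 16779072))) (c (l 16774984) (b (l 16786528) (l 16780584))))))) (c (b (a (c (l 16777992) (l 16786824)) (l 16796688)) (a (b (l 16789648) (l 16783792)) (b (l 16787952) (l 16781936)))) (b (a (b (l 16787144) (l 16781432)) (a (l 16793760) (l 16793168))) (a (b (l 16780808) (c (l 16780984) (a (l 16779560) (l 16778616)))) (b (l 16779224) (a (l 16768200) (l 16777888))))))), by decide +kernel⟩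

def k79_A00pm_113_s3 : ∃ t, chk3 f_A00pm_113_s3 t 61 126 1 = true :=
  ⟨(c (a (c (b (b (l 16811040) (l 16827336)) (l 16799136)) (b (a (l 16805040) (l 16804248)) (c (l 16795728) (l 16803832)))) (b (a (b (l 16818392) (l 16802992)) (b (a (l 16815184) (l 16823112)) (l 16812792))) (a (b (l 16797880) (l 16792640)) (c (l 16796216) (l 16802984))))) (a (b (a (c (l 16810952) (b (l 16819184) (l 16813872))) (c (l 16810472) (a (l 16805920) (l 16805920)))) (c (b (l 16802808) (l 16797376)) (a (c (l 16806984) (l 16793696)) (b (l 16808016) (l 16802224))))) (b (a (b (c (l 16812848) (a (l 16819264) (l 16808880))) (c (l 16818048) (l 16813728))) (b (a (b (l 16811512) (l 16809672)) (b (l 16799824) (l 16809120))) (c (l 16807488) (c (l 16804608) (l 16802592))))) (b (c (c (l 16802968) (l 16800848)) (a (l 16807944) (l 16797688))) (c (a (l 16806880) (l 16806528)) (a (l 16801992) (l 16791576))))))), by decide +kernel⟩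

def k80_A00pm_113_s3 : ∃ t, chk3 f_A00pm_113_s3 t 61 127 1 = true :=
  ⟨(c (b (a (c (l 16789112) (a (l 16805672) (l 16804296))) (a (b (l 16787272) (l 16802744)) (b (l 16786176) (l 16780520)))) (a (c (l 16778608) (b (l 16775704) (l 16770016))) (a (b (l 16797120) (l 16791344)) (b (l 16785216) (l 16789768))))) (b (b (c (a (a (l 16802832) (l 16801824)) (a (l 16801072) (l 16800560))) (a (a (l 16786480) (l 16785776)) (a (l 16795864) (c (l 16796992) (l 16794520))))) (c (a (a (l 16797192) (l 16796024)) (a (l 16795104) (l 16794424))) (a (a (c (l 16792592) (l 16789400)) (c (l 16791648) (l 16788608))) (a (c (l 16790984) (l 16777648)) (c (l 16790608) (l 16777480)))))) (c (a (b (a (l 16791408) (l 16790072)) (c (l 16765312) (l 16772536))) (b (a (l 16788984) (l 16777648)) (a (l 16782712) (l 16771192)))) (a (a (a (b (l 16774712) (a (l 16773904) (l 16773544))) (b (l 16774120) (l 16773040))) (a (b (l 16773600) (l 16772432)) (b (l 16773160) (l 16771896)))) (a (a (b (l 16772784) (l 16771432)) (b (l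 16772488) (a (l 16771136) (l 16770960)))) (a (b (l 16777496) (c (l 16777488) (l 16774416))) (b (l 16777352) (c (l 16777192) (l 16768992))))))))), by decide +kernel⟩

def k81_A00pm_113_s3 : ∃ t, chk3 f_A00pm_113_s3 t 62 60 1 = true :=
  ⟨(a (b (a (c (l 16838504) (c (l 16812064) (l 16829080))) (c (b (a (b (l 16837608) (l 16857712)) (l 16832624)) (a (l 16855640) (b (l 16832880) (l 16832144)))) (b (a (c (l 16841112) (b (l 16836880) (l 16846888))) (c (l 16825976) (l 16831656))) (a (l 16826704) (c (l 16836544) (b (l 16832304) (l 16842448))))))) (c (a (l 16853632) (l 16829432)) (a (l 16826792) (c (l 16824200) (l 16820408))))) (c (b (a (b (c (l 16804704) (l 16842264)) (a (l 16827880) (l 16822200))) (c (l 16815992) (c (l 16812568) (l 16810184)))) (a (b (a (b (l 16828144) (l 16827504)) (l 16823168)) (a (l 16825544) (b (l 16823416) (l 16822824)))) (b (a (l 16818136) (l 16813504)) (a (l 16818688) (l 16814240))))) (c (b (a (b (l 16816616) (c (l 16819624) (l 16817288))) (a (l 16819584) (l 16814424)))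 (a (b (a (l 16831984) (l 16837680)) (a (l 16840872) (l 16827432))) (b (l 16808928) (l 16820400)))) (a (b (b (a (l 16835704) (l 16829616)) (a (l 16827056) (l 16831528))) (b (a (b (l 16827744) (l 16827504)) (l 16833000)) (a (l 16815800) (b (l 16812728) (l 16823032))))) (b (b (a (l 16823848) (l 16818408)) (a (l 16825920) (l 16820648))) (b (a (l 16827544) (l 16822440)) (c (l 16816888) (l 16814456)))))))), by decide +kernel⟩

def k82_A00pm_113_s3 : ∃ t, chk3 f_A00pm_113_s3 t 62 61 1 = true :=
  ⟨(a (c (b (l 16824912) (l 16839328)) (b (a (l 16843424) (l 16817896)) (l 16815568))) (a (b (b (b (c (l 16832880) (c (l 16816992) (l 16823536))) (c (l 16841928) (l 16814048))) (c (l 16839496) (l 16812312))) (c (l 16833736) (l 16819200))) (b (b (c (a (b (l 16818696) (l 16828552)) (c (l 16836984) (l 16822576))) (a (b (a (l 16822160) (l 16809248)) (c (l 16822760) (a (l 16819576) (l 16828104)))) (c (l 16818336) (b (l 16813784) (l 16824328))))) (c (a (b (l 16816968) (l 16835832)) (l 16823728)) (a (b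 (c (l 16811472) (l 16817944)) (l 16808488)) (c (l 16817984) (b (l 16824352) (l 16813800)))))) (b (c (c (l 16819984) (l 16820936)) (a (l 16806672) (b (a (l 16805696) (l 16814640)) (l 16814400)))) (c (l 16827416) (l 16813592)))))), by decide +kernel⟩

def k83_A00pm_113_s3 : ∃ t, chk3 f_A00pm_113_s3 t 63 60 2 = true :=
  ⟨(a (b (a (c (l 16807192) (b (l 16821976) (l 16824208))) (b (c (l 16819720) (l 16814208)) (c (l 16822216) (l 16816840)))) (a (b (b (l 16806984) (l 16807648)) (a (b (l 16831008) (l 16810144)) (b (l 16806096) (l 16826696)))) (b (a (c (l 16825328) (l 16820256)) (c (l 16821528) (l 16816208))) (a (l 16801352) (l 16817520))))) (a (b (b (c (l 16814152) (l 16787152)) (c (l 16794832) (a (l 16812032) (l 16787296)))) (b (c (l 16814816) (l 16809096)) (l 16789104))) (b (b (c (l 16787752) (a (l 16783208) (l 16779720))) (c (l 16807592) (l 16801136))) (b (l 16780992) (l 16784008))))), by decide +kernel⟩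

def k84_A00pm_113_s3 : ∃ t, chk3 f_A00pm_113_s3 t 126 60 3 = true :=
  ⟨(b (c (a (b (l 16816592) (l 16818968)) (b (l 16808352) (c (l 16812584) (l 16809624)))) (a (b (c (l 16812352) (l 16809432)) (c (l 16814824) (l 16811960))) (b (c (l 16803736) (b (l 16778776) (l 16780336))) (c (l 16806584) (b (l 16792272) (l 16793624)))))) (c (a (b (l 16810360) (a (b (l 16823952) (l 16824240)) (b (l 16819664) (l 16819480)))) (b (a (b (l 16814592) (l 16815160)) (b (l 16789768) (l 16810456))) (a (l 16814640) (l 16809440)))) (a (b (a (l 16817688) (l 16813312)) (a (b (l 16818840) (a (l 16820488) (l 16818096))) (b (c (l 16815680) (l 16812912)) (l 16814248)))) (b (a (b (l 16808768) (a (l 16800152) (l 16797864))) (b (c (l 16795704) (a (l 16793776) (l 16791504))) (l 16793960))) (a (l 16798600) (l 16793120)))))), by decide +kernel⟩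

def k85_A00pm_113_s3 : ∃ t, chk3 f_A00pm_113_s3 t 127 60 6 = true :=
  ⟨(b (a (b (c (l 16803360) (l 16779088)) (a (b (l 16805560) (l 16795912)) (b (l 16791664) (l 16801760)))) (b (a (b (l 16796880) (l 16787504)) (c (l 16784872) (b (l 16781568) (l 16791568)))) (c (l 16796016) (l 16781976)))) (a (b (c (l 16804544) (l 16801392)) (l 16801368)) (b (l 16792048) (l 16790112)))), by decide +kernel⟩

def k86_A00pm_113_s3 : ∃ t, chk3 f_A00pm_113_s3 t 127 60 7 = true :=
  ⟨(b (c (a (b (c (l 16776544) (l 16785312)) (a (b (l 16800672) (l 16791080)) (b (b (l 16786576) (l 16786736)) (l 16796704)))) (a (b (b (l 16791440) (a (l 16783240) (l 16781216))) (l 16791640)) (b (b (a (l 16778872) (l 16776920)) (l 16787776)) (l 16785952)))) (a (b (a (l 16784376) (c (l 16792464) (l 16785408))) (a (b (l 16797296) (a (l 16788944) (b (l 16786840) (l 16797200)))) (b (a (b (l 16794488) (l 16784496)) (b (l 16782176) (l 16792504))) (l 16793200)))) (b (a (b (c (l 16788632) (l 16776248)) (a (a (b (l 16790160) (l 16780472))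 (b (l 16789472) (l 16779416))) (b (a (a (l 16788928) (l 16778000)) (a (l 16777488) (l 16787376))) (l 16787896)))) (b (a (b (l 16785224) (c (l 16776336) (a (b (l 16785320) (l 16775136)) (b (a (l 16784792) (l 16784280)) (l 16784392))))) (a (b (c (l 16785192) (b (l 16783064) (a (l 16783672) (a (l 16783328) (l 16783032))))) (l 16784104)) (b (c (l 16784200) (b (a (b (l 16782496) (l 16782656)) (b (l 16782096) (l 16782040))) (l 16782144))) (l 16782664)))) (c (l 16784856) (a (l 16784336) (l 16781416))))) (b (a (l 16783248) (c (l 16783656) (l 16779072))) (c (l 16774984) (a (l 16786528) (l 16780584))))))) (c (a (b (c (l 16777992) (l 16786824)) (l 16796688)) (b (a (l 16789648) (l 16783792)) (a (l 16787952) (l 16781936)))) (a (a (b (l 16787144) (l 16796376)) (b (l 16781432) (l 16790504))) (b (a (l 16780808) (c (l 16780984) (b (l 16779560) (l 16778616)))) (a (l 16779224) (b (l 16768200) (l 16777888))))))), by decide +kernel⟩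

def k87_A00pm_113_s3 : ∃ t, chk3 f_A00pm_113_s3 t 126 61 1 = true :=
  ⟨(c (b (c (a (a (l 16811040) (l 16827336)) (l 16799136)) (a (b (l 16805040) (l 16804248)) (c (l 16795728) (l 16803832)))) (a (b (a (l 16818392) (l 16802992)) (a (b (l 16815184) (l 16823112)) (l 16812792))) (b (a (l 16797880) (l 16792640)) (c (l 16796216) (l 16802984))))) (b (a (b (c (l 16810952) (a (l 16819184) (l 16813872))) (c (l 16810472) (b (l 16805920) (l 16805920)))) (c (a (l 16802808) (l 16797376)) (b (c (l 16806984) (l 16793696)) (a (l 16808016) (l 16802224))))) (a (b (a (c (l 16812848) (b (l 16819264) (l 16808880))) (c (l 16818048) (l 16813728))) (a (b (a (l 16811512) (l 16809672)) (a (l 16799824) (l 16809120))) (c (l 16807488) (c (l 16804608) (l 16802592))))) (a (c (c (l 16802968) (l 16800848)) (b (l 16807944) (l 16797688))) (c (b (l 16806880) (l 16806528)) (b (l 16801992) (l 16791576))))))), by decide +kernel⟩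

def k88_A00pm_113_s3 : ∃ t, chk3 f_A00pm_113_s3 t 127 61 1 = true :=
  ⟨(c (a (b (c (l 16789112) (b (l 16805672) (l 16804296))) (b (a (l 16787272) (l 16802744)) (a (l 16786176) (l 16780520)))) (b (c (l 16778608) (a (l 16775704) (l 16770016))) (b (a (l 16797120) (l 16791344)) (a (l 16785216) (l 16789768))))) (a (a (c (b (b (l 16802832) (l 16801824)) (b (l 16801072) (l 16800560))) (b (b (l 16786480) (l 16785776)) (b (l 16795864) (c (l 16796992) (l 16794520))))) (c (b (b (l 16797192) (l 16796024)) (b (l 16795104) (l 16794424))) (b (b (c (l 16792592) (l 16789400)) (c (l 16791648) (l 16788608))) (b (c (l 16790984) (l 16777648)) (c (l 16790608) (l 16777480)))))) (c (b (a (b (l 16791408) (l 16790072)) (c (l 16765312) (l 16772536))) (a (b (l 16788984) (l 16777648)) (b (l 16782712) (l 16771192)))) (b (b (a (c (l 16786552) (l 16777952)) (b (a (l 16780544) (l 16766896)) (l 16773040))) (a (c (l 16785440) (l 16776992)) (b (l 16772432) (l 16771896)))) (b (a (c (l 16784608) (l 16776336)) (b (l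 16771432) (a (l 16777976) (l 16774592)))) (b (a (l 16777496) (c (l 16777488) (l 16774416))) (a (l 16777352) (c (l 16777192) (l 16768992))))))))), by decide +kernel⟩

def k89_A00pm_113_s3 : ∃ t, chk3 f_A00pm_113_s3 t 62 62 1 = true :=
  ⟨(a (a (b (l 16812464) (c (l 16804704) (l 16813192))) (b (l 16808800) (c (l 16821992) (l 16800032)))) (b (b (c (l 16804704) (l 16813192)) (c (l 16821992) (l 16800032))) (c (l 16816936) (l 16806200)))), by decide +kernel⟩

def k90_A00pm_113_s3 : ∃ t, chk3 f_A00pm_113_s3 t 126 62 1 = true :=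
  ⟨(a (b (b (a (c (l 16820024) (l 16807808)) (c (b (l 16809112) (l 16811696)) (b (a (b (l 16806960) (l 16806544)) (l 16804464)) (a (l 16795104) (b (l 16804448) (l 16804104)))))) (c (l 16804576) (a (l 16815544) (l 16802992)))) (c (l 16799392) (b (l 16801112) (l 16808496)))) (b (c (a (b (l 16806856) (b (b (l 16803976) (l 16802384)) (a (l 16811080) (l 16800056)))) (b (l 16801360) (l 16800664))) (c (b (a (l 16801872) (l 16795936)) (a (b (l 16801856) (l 16806416)) (l 16796072))) (b (a (c (l 16799160) (l 16797264)) (a (l 16804048) (l 16800864))) (a (b (a (l 16800064) (l 16807808)) (a (l 16809816) (l 16797528))) (c (l 16793568) (l 16791824)))))) (c (b (a (c (l 16801704) (l 16808728)) (b (a (l 16802448) (l 16798032)) (a (l 16799856) (a (l 16794208) (l 16794592))))) (b (a (l 16805264) (a (l 16803296) (b (l 16797408) (l 16801576)))) (l 16791880))) (a (b (a (l 16798536) (c (l 16809096) (l 16801448))) (l 16805384)) (b (b (a (c (l 16797712) (l 16800176)) (l 16793288)) (a (a (l 16796040) (l 16800624))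 (c (l 16794848) (l 16797488)))) (b (b (a (l 16805104) (l 16798616)) (l 16798560)) (l 16792096))))))), by decide +kernel⟩

def k91_A00pm_113_s3 : ∃ t, chk3 f_A00pm_113_s3 t 127 124 1 = true :=
  ⟨(c (a (b (a (l 16795688) (l 16789880)) (c (a (l 16806888) (l 16780104)) (a (l 16793216) (l 16797568)))) (b (a (l 16783928) (c (l 16790624) (l 16785920))) (a (c (l 16795128) (l 16791280)) (c (l 16789032) (l 16784832))))) (a (a (b (c (l 16800288) (c (l 16797096) (l 16794872))) (c (l 16789768) (a (l 16798232) (l 16794864)))) (b (c (l 16793992) (c (l 16790536) (l 16782896))) (c (b (l 16793816) (l 16793776)) (a (l 16791448) (l 16782744))))) (c (b (a (l 16777040) (l 16775640)) (a (b (l 16787224) (l 16787088)) (c (l 16781472) (l 16773896)))) (c (b (a (l 16773312) (l 16771640)) (a (l 16778600) (b (l 16776752) (l 16776744)))) (a (b (b (l 16781192) (l 16781280)) (a (l 16783352) (l 16774504))) (b (b (l 16768888) (l 16768880)) (b (l 16768944) (a (l 16776200) (l 16772472))))))))), by decide +kernel⟩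

def k92_A00pm_113_s3 : ∃ t, chk3 f_A00pm_113_s3 t 127 125 1 = true :=
  ⟨(a (b (a (c (b (l 16794288) (l 16793952)) (c (b (l 16789896) (l 16790048)) (b (l 16786680) (b (l 16787048) (l 16787320))))) (c (c (l 16789416) (l 16786488)) (c (a (l 16795488) (l 16792120)) (b (a (l 16791968) (l 16788432)) (a (l 16792400) (l 16788816)))))) (c (a (a (b (a (l 16796712) (l 16791984)) (b (l 16794592) (l 16793448))) (b (l 16792096) (c (l 16788264) (l 16790056)))) (b (l 16787392) (a (l 16788640) (l 16785432)))) (a (b (a (c (l 16791880) (l 16794712)) (b (l 16787208) (l 16787408))) (a (b (a (l 16791240) (l 16795416)) (l 16795392)) (c (l 16788808) (l 16791840)))) (b (c (l 16783472) (a (l 16792896) (l 16789272))) (c (a (l 16785376) (l 16792384)) (a (l 16793464) (l 16789792))))))) (c (a (b (c (l 16783304) (l 16780024)) (b (a (l 16782608) (l 16789848)) (a (l 16782184) (l 16778896)))) (b (b (l 16775560) (c (l 16787168) (l 16783672))) (b (c (l 16786456) (l 16783272)) (a (l 16786048) (l 16782672))))) (a (b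 (b (c (l 16787000) (c (l 16784056) (l 16776768))) (c (l 16786976) (c (l 16784280) (l 16782416)))) (c (a (b (l 16788760) (l 16788856)) (b (l 16785232) (l 16785280))) (b (a (l 16785592) (l 16776624)) (a (l 16786064) (c (l 16783048) (l 16781504)))))) (a (b (c (l 16776496) (b (l 16777552) (l 16772544))) (c (b (l 16781648) (l 16781648)) (b (c (l 16779000) (l 16777160)) (c (l 16779272) (l 16777616))))) (b (c (l 16772944) (b (l 16768584) (c (l 16775064) (l 16772936)))) (c (b (l 16778024) (l 16777976)) (b (c (l 16775216) (l 16773272)) (c (l 16775440) (a (l 16774672) (l 16772688)))))))))), by decide +kernel⟩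

def k93_A00pm_113_s3 : ∃ t, chk3 f_A00pm_113_s3 t 62 126 1 = true :=
  ⟨(b (a (a (b (c (l 16820024) (l 16807808)) (c (a (l 16809112) (l 16811696)) (a (b (a (l 16806960) (l 16806544)) (l 16804464)) (b (l 16795104) (a (l 16804448) (l 16804104)))))) (c (l 16804576) (b (l 16815544) (l 16802992)))) (c (l 16799392) (a (l 16801112) (l 16808496)))) (a (c (b (a (l 16806856) (a (a (l 16803976) (l 16802384)) (b (l 16811080) (l 16800056)))) (a (l 16801360) (l 16800664))) (c (a (b (l 16801872) (l 16795936)) (b (a (l 16801856) (l 16806416)) (l 16796072))) (a (b (c (l 16799160) (l 16797264)) (b (l 16804048) (l 16800864))) (b (a (b (l 16800064) (l 16807808)) (b (l 16809816) (l 16797528))) (c (l 16793568) (l 16791824)))))) (c (a (b (c (l 16801704) (l 16808728)) (a (b (l 16802448) (l 16798032)) (b (l 16799856) (b (l 16794208) (l 16794592))))) (a (b (l 16805264) (b (l 16803296) (a (l 16797408) (l 16801576)))) (l 16791880))) (b (a (a (c (l 16810456) (l 16797480)) (l 16797272)) (l 16805384)) (a (a (b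 (c (l 16797712) (l 16800176)) (l 16793288)) (b (b (l 16796040) (l 16800624)) (c (l 16794848) (l 16797488)))) (a (a (b (l 16805104) (l 16798616)) (l 16798560)) (l 16792096))))))), by decide +kernel⟩

def k94_A00pm_113_s3 : ∃ t, chk3 f_A00pm_113_s3 t 124 127 1 = true :=
  ⟨(c (b (a (b (l 16795688) (l 16789880)) (c (b (l 16806888) (l 16780104)) (b (l 16793216) (l 16797568)))) (a (b (l 16783928) (c (l 16790624) (l 16785920))) (b (c (l 16795128) (l 16791280)) (c (l 16789032) (l 16784832))))) (b (b (a (c (l 16800288) (c (l 16797096) (l 16794872))) (c (l 16789768) (b (l 16798232) (l 16794864)))) (a (c (l 16793992) (c (l 16790536) (l 16782896))) (c (a (l 16793816) (l 16793776)) (b (l 16791448) (l 16782744))))) (c (a (b (l 16777040) (l 16775640)) (b (a (l 16787224) (l 16787088)) (c (l 16781472) (l 16773896)))) (c (a (b (l 16773312) (l 16771640)) (b (l 16778600) (a (l 16776752) (l 16776744)))) (b (a (a (l 16781192) (l 16781280)) (b (l 16783352) (l 16774504))) (a (a (l 16768888) (l 16768880))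 (a (l 16768944) (b (l 16776200) (l 16772472))))))))), by decide +kernel⟩

def k95_A00pm_113_s3 : ∃ t, chk3 f_A00pm_113_s3 t 125 127 1 = true :=
  ⟨(b (a (b (c (a (l 16794288) (l 16793952)) (c (a (l 16789896) (l 16790048)) (a (l 16786680) (a (l 16787048) (l 16787320))))) (c (c (l 16789416) (l 16786488)) (c (b (l 16795488) (l 16792120)) (a (b (l 16791968) (l 16788432)) (b (l 16792400) (l 16788816)))))) (c (b (b (a (b (l 16796712) (l 16791984)) (a (l 16794592) (l 16793448))) (a (l 16792096) (c (l 16788264) (l 16790056)))) (a (l 16787392) (b (l 16788640) (l 16785432)))) (b (a (b (c (l 16791880) (l 16794712)) (a (l 16787208) (l 16787408))) (b (a (b (l 16791240) (l 16795416)) (l 16795392)) (c (l 16788808) (l 16791840)))) (a (c (l 16783472) (b (l 16792896) (l 16789272))) (c (b (l 16785376) (l 16792384)) (b (l 16793464) (l 16789792))))))) (c (b (a (c (l 16783304) (l 16780024)) (a (b (l 16782608) (l 16789848)) (b (l 16782184) (l 16778896)))) (a (a (l 16775560) (c (l 16787168) (l 16783672)))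 (a (c (l 16786456) (l 16783272)) (b (l 16786048) (l 16782672))))) (b (a (a (c (l 16787000) (c (l 16784056) (l 16776768))) (c (l 16786976) (c (l 16784280) (l 16782416)))) (c (b (a (l 16788760) (l 16788856)) (a (l 16785232) (l 16785280))) (a (b (l 16785592) (l 16776624)) (b (l 16786064) (c (l 16783048) (l 16781504)))))) (b (a (c (l 16776496) (a (l 16777552) (l 16772544))) (c (a (l 16781648) (l 16781648)) (a (c (l 16779000) (l 16777160)) (c (l 16779272) (l 16777616))))) (a (c (l 16772944) (a (l 16768584) (c (l 16775064) (l 16772936)))) (c (a (l 16778024) (l 16777976)) (a (c (l 16775216) (l 16773272)) (c (l 16775440) (b (l 16774672) (l 16772688)))))))))), by decide +kernel⟩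

def k96_A00pm_113_s3 : ∃ t, chk3 f_A00pm_113_s3 t 126 126 1 = true :=
  ⟨(c (a (b (l 16805296) (l 16794880)) (b (l 16794880) (l 16797400))) (a (b (l 16805168) (b (l 16802008) (l 16789520))) (b (a (l 16802008) (l 16789520)) (l 16786848)))), by decide +kernel⟩

def k97_A00pm_113_s3 : ∃ t, chk3 f_A00pm_113_s3 t 127 126 1 = true :=
  ⟨(a (a (c (b (a (l 16791480) (b (b (a (l 16791728) (l 16786624)) (a (l 16796040) (l 16790352))) (l 16789352))) (l 16788016)) (a (b (l 16793312) (l 16794856)) (b (b (a (b (l 16793744) (l 16798296)) (b (l 16792440) (l 16792328))) (l 16791480)) (l 16788608)))) (b (a (a (b (c (l 16791536) (l 16790800)) (c (b (l 16789008) (l 16787944)) (b (b (l 16791000) (l 16790856)) (l 16790312)))) (b (c (l 16786944) (l 16788976)) (c (c (l 16787904) (l 16789232)) (b (l 16789328) (b (l 16789488) (l 16789400)))))) (c (b (l 16785080) (b (l 16784840) (l 16788496))) (b (c (l 16782088) (l 16785128)) (c (l 16787576) (l 16785776))))) (b (a (c (b (a (l 16792480) (l 16786552)) (l 16786200))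 (b (b (l 16789368) (l 16788864)) (l 16793320))) (c (b (a (b (l 16786760) (l 16785968)) (l 16786960)) (a (a (l 16790528) (l 14)) (l 14))) (b (a (c (l 16788272) (l 16787144)) (l 16786128)) (a (b (l 16787640) (l 14)) (l 14))))) (a (c (l 16790464) (l 16791776)) (l 14))))) (b (c (a (b (a (l 16781792) (l 16778456)) (a (l 16786672) (b (l 16778152) (l 16777960)))) (b (a (l 16780320) (l 16776896)) (a (c (l 16786136) (l 16784048)) (l 14)))) (b (a (c (a (l 16789000) (l 16785376)) (a (l 16786600) (c (l 16783432) (l 16782088)))) (a (c (l 16781696) (c (l 16779600) (l 16775520))) (c (l 16777968) (b (l 16772216) (l 16772424))))) (a (c (a (l 16783952) (l 16785512)) (a (a (l 16788152) (l 16786224)) (c (l 16783872) (l 16782728)))) (a (a (c (l 16782728) (l 16777736)) (l 14)) (l 14))))) (a (b (a (a (b (c (l 16782032) (l 16784240)) (l 14)) (l 14)) (l 14)) (l 14)) (l 14)))), by decide +kernel⟩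

def k98_A00pm_113_s3 : ∃ t, chk3 f_A00pm_113_s3 t 63 127 1 = true :=
  ⟨(a (b (b (c (a (b (l 16791480) (a (a (b (l 16791728) (l 16786624)) (b (l 16796040) (l 16790352))) (l 16789352))) (l 16788016)) (b (a (l 16793312) (l 16794856)) (a (a (a (b (l 16793744) (l 16792440)) (b (l 16798296) (l 16792328))) (l 16791480)) (l 16788608)))) (a (b (b (a (c (l 16791536) (l 16790800)) (c (a (l 16789008) (l 16787944)) (a (a (l 16791000) (l 16790856)) (l 16790312)))) (a (c (l 16786944) (l 16788976)) (c (c (l 16787904) (l 16789232)) (a (l 16789328) (a (l 16789488) (l 16789400)))))) (c (a (l 16785080) (a (l 16784840) (l 16788496))) (a (c (l 16782088) (l 16785128)) (c (l 16787576) (l 16785776))))) (a (b (c (a (b (l 16792480) (l 16786552)) (l 16786200)) (a (a (l 16789368) (l 16788864)) (l 16793320))) (c (a (b (a (l 16786760) (l 16785968)) (l 16786960)) (b (b (l 16790528) (l 14)) (l 14))) (a (b (c (l 16788272) (l 16787144)) (l 16786128)) (b (a (l 16787640) (l 14)) (l 14))))) (b (c (l 16790464) (l 16791776))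 (l 14))))) (a (c (b (a (b (l 16781792) (l 16778456)) (b (l 16786672) (a (l 16778152) (l 16777960)))) (a (b (l 16780320) (l 16776896)) (b (c (l 16786136) (l 16784048)) (l 14)))) (a (b (c (b (l 16789000) (l 16785376)) (b (l 16786600) (c (l 16783432) (l 16782088)))) (b (c (l 16781696) (c (l 16779600) (l 16775520))) (c (l 16777968) (a (l 16772216) (l 16772424))))) (b (c (b (l 16783952) (l 16785512)) (b (b (l 16788152) (l 16786224)) (c (l 16783872) (l 16782728)))) (a (b (c (l 16781760) (l 16776616)) (l 14)) (l 14))))) (b (a (a (a (b (c (l 16781224) (l 16783240)) (l 14)) (l 14)) (l 14)) (l 14)) (l 14)))) (b (a (a (b (l 16786152) (l 14)) (l 14)) (l 14)) (l 14))), by decide +kernel⟩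

theorem t99_A00pm_113_s3 : ∃ t, chk3 f_A00pm_113_s3 t 63 126 1 = true := ex3_a k96_A00pm_113_s3 k97_A00pm_113_s3

theorem t100_A00pm_113_s3 : ∃ t, chk3 f_A00pm_113_s3 t 63 63 1 = true := ex3_b t99_A00pm_113_s3 k98_A00pm_113_s3

theorem t101_A00pm_113_s3 : ∃ t, chk3 f_A00pm_113_s3 t 62 127 1 = true := ex3_a k94_A00pm_113_s3 k95_A00pm_113_s3

theorem t102_A00pm_113_s3 : ∃ t, chk3 f_A00pm_113_s3 t 62 63 1 = true := ex3_b k93_A00pm_113_s3 t101_A00pm_113_s3

theorem t103_A00pm_113_s3 : ∃ t, chk3 f_A00pm_113_s3 t 31 63 1 = true := ex3_a t102_A00pm_113_s3 t100_A00pm_113_s3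

theorem t104_A00pm_113_s3 : ∃ t, chk3 f_A00pm_113_s3 t 127 62 1 = true := ex3_b k91_A00pm_113_s3 k92_A00pm_113_s3

theorem t105_A00pm_113_s3 : ∃ t, chk3 f_A00pm_113_s3 t 63 62 1 = true := ex3_a k90_A00pm_113_s3 t104_A00pm_113_s3

theorem t106_A00pm_113_s3 : ∃ t, chk3 f_A00pm_113_s3 t 31 62 1 = true := ex3_a k89_A00pm_113_s3 t105_A00pm_113_s3

theorem t107_A00pm_113_s3 : ∃ t, chk3 f_A00pm_113_s3 t 31 31 1 = true := ex3_b t106_A00pm_113_s3 t103_A00pm_113_s3

theorem t108_A00pm_113_s3 : ∃ t, chk3 f_A00pm_113_s3 t 63 61 1 = true := ex3_a k87_A00pm_113_s3 k88_A00pm_113_s3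

theorem t109_A00pm_113_s3 : ∃ t, chk3 f_A00pm_113_s3 t 127 60 3 = true := ex3_c k85_A00pm_113_s3 k86_A00pm_113_s3

theorem t110_A00pm_113_s3 : ∃ t, chk3 f_A00pm_113_s3 t 63 60 3 = true := ex3_a k84_A00pm_113_s3 t109_A00pm_113_s3

theorem t111_A00pm_113_s3 : ∃ t, chk3 f_A00pm_113_s3 t 63 60 1 = true := ex3_c k83_A00pm_113_s3 t110_A00pm_113_s3

theorem t112_A00pm_113_s3 : ∃ t, chk3 f_A00pm_113_s3 t 63 30 1 = true := ex3_b t111_A00pm_113_s3 t108_A00pm_113_s3

theorem t113_A00pm_113_s3 : ∃ t, chk3 f_A00pm_113_s3 t 62 30 1 = true := ex3_b k81_A00pm_113_s3 k82_A00pm_113_s3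

theorem t114_A00pm_113_s3 : ∃ t, chk3 f_A00pm_113_s3 t 31 30 1 = true := ex3_a t113_A00pm_113_s3 t112_A00pm_113_s3

theorem t115_A00pm_113_s3 : ∃ t, chk3 f_A00pm_113_s3 t 31 15 1 = true := ex3_b t114_A00pm_113_s3 t107_A00pm_113_s3

theorem t116_A00pm_113_s3 : ∃ t, chk3 f_A00pm_113_s3 t 61 63 1 = true := ex3_b k79_A00pm_113_s3 k80_A00pm_113_s3

theorem t117_A00pm_113_s3 : ∃ t, chk3 f_A00pm_113_s3 t 60 127 3 = true := ex3_c k77_A00pm_113_s3 k78_A00pm_113_s3

theorem t118_A00pm_113_s3 : ∃ t, chk3 f_A00pm_113_s3 t 60 63 3 = true := ex3_b k76_A00pm_113_s3 t117_A00pm_113_s3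

theorem t119_A00pm_113_s3 : ∃ t, chk3 f_A00pm_113_s3 t 60 63 1 = true := ex3_c k75_A00pm_113_s3 t118_A00pm_113_s3

theorem t120_A00pm_113_s3 : ∃ t, chk3 f_A00pm_113_s3 t 30 63 1 = true := ex3_a t119_A00pm_113_s3 t116_A00pm_113_s3

theorem t121_A00pm_113_s3 : ∃ t, chk3 f_A00pm_113_s3 t 30 62 1 = true := ex3_a k73_A00pm_113_s3 k74_A00pm_113_s3

theorem t122_A00pm_113_s3 : ∃ t, chk3 f_A00pm_113_s3 t 30 31 1 = true := ex3_b t121_A00pm_113_s3 t120_A00pm_113_s3

theorem t123_A00pm_113_s3 : ∃ t, chk3 f_A00pm_113_s3 t 30 15 1 = true := ex3_b k72_A00pm_113_s3 t122_A00pm_113_s3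

theorem t124_A00pm_113_s3 : ∃ t, chk3 f_A00pm_113_s3 t 15 15 1 = true := ex3_a t123_A00pm_113_s3 t115_A00pm_113_s3

theorem t125_A00pm_113_s3 : ∃ t, chk3 f_A00pm_113_s3 t 63 59 1 = true := ex3_c k70_A00pm_113_s3 k71_A00pm_113_s3

theorem t126_A00pm_113_s3 : ∃ t, chk3 f_A00pm_113_s3 t 63 29 1 = true := ex3_b k69_A00pm_113_s3 t125_A00pm_113_s3

theorem t127_A00pm_113_s3 : ∃ t, chk3 f_A00pm_113_s3 t 62 29 1 = true := ex3_b k67_A00pm_113_s3 k68_A00pm_113_s3

theorem t128_A00pm_113_s3 : ∃ t, chk3 f_A00pm_113_s3 t 31 29 1 = true := ex3_a t127_A00pm_113_s3 t126_A00pm_113_s3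

theorem t129_A00pm_113_s3 : ∃ t, chk3 f_A00pm_113_s3 t 511 113 1 = true := ex3_c k64_A00pm_113_s3 k65_A00pm_113_s3

theorem t130_A00pm_113_s3 : ∃ t, chk3 f_A00pm_113_s3 t 255 113 1 = true := ex3_a k63_A00pm_113_s3 t129_A00pm_113_s3

theorem t131_A00pm_113_s3 : ∃ t, chk3 f_A00pm_113_s3 t 2047 225 7 = true := ex3_b k61_A00pm_113_s3 k62_A00pm_113_s3

theorem t132_A00pm_113_s3 : ∃ t, chk3 f_A00pm_113_s3 t 1023 225 7 = true := ex3_a k60_A00pm_113_s3 t131_A00pm_113_s3

theorem t133_A00pm_113_s3 : ∃ t, chk3 f_A00pm_113_s3 t 1023 225 3 = true := ex3_c k59_A00pm_113_s3 t132_A00pm_113_s3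

theorem t134_A00pm_113_s3 : ∃ t, chk3 f_A00pm_113_s3 t 1023 112 3 = true := ex3_b k58_A00pm_113_s3 t133_A00pm_113_s3

theorem t135_A00pm_113_s3 : ∃ t, chk3 f_A00pm_113_s3 t 511 112 3 = true := ex3_a k57_A00pm_113_s3 t134_A00pm_113_s3

theorem t136_A00pm_113_s3 : ∃ t, chk3 f_A00pm_113_s3 t 511 112 1 = true := ex3_c k56_A00pm_113_s3 t135_A00pm_113_s3

theorem t137_A00pm_113_s3 : ∃ t, chk3 f_A00pm_113_s3 t 255 112 1 = true := ex3_a k55_A00pm_113_s3 t136_A00pm_113_s3

theorem t138_A00pm_113_s3 : ∃ t, chk3 f_A00pm_113_s3 t 255 56 1 = true := ex3_b t137_A00pm_113_s3 t130_A00pm_113_s3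

theorem t139_A00pm_113_s3 : ∃ t, chk3 f_A00pm_113_s3 t 127 56 1 = true := ex3_a k54_A00pm_113_s3 t138_A00pm_113_s3

theorem t140_A00pm_113_s3 : ∃ t, chk3 f_A00pm_113_s3 t 127 28 1 = true := ex3_b t139_A00pm_113_s3 k66_A00pm_113_s3

theorem t141_A00pm_113_s3 : ∃ t, chk3 f_A00pm_113_s3 t 63 28 1 = true := ex3_a k53_A00pm_113_s3 t140_A00pm_113_s3

theorem t142_A00pm_113_s3 : ∃ t, chk3 f_A00pm_113_s3 t 31 28 1 = true := ex3_a k52_A00pm_113_s3 t141_A00pm_113_s3

theorem t143_A00pm_113_s3 : ∃ t, chk3 f_A00pm_113_s3 t 31 14 1 = true := ex3_b t142_A00pm_113_s3 t128_A00pm_113_s3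

theorem t144_A00pm_113_s3 : ∃ t, chk3 f_A00pm_113_s3 t 15 14 1 = true := ex3_a k51_A00pm_113_s3 t143_A00pm_113_s3

theorem t145_A00pm_113_s3 : ∃ t, chk3 f_A00pm_113_s3 t 15 7 1 = true := ex3_b t144_A00pm_113_s3 t124_A00pm_113_s3

theorem t146_A00pm_113_s3 : ∃ t, chk3 f_A00pm_113_s3 t 59 63 1 = true := ex3_c k49_A00pm_113_s3 k50_A00pm_113_s3

theorem t147_A00pm_113_s3 : ∃ t, chk3 f_A00pm_113_s3 t 29 63 1 = true := ex3_a k48_A00pm_113_s3 t146_A00pm_113_s3

theorem t148_A00pm_113_s3 : ∃ t, chk3 f_A00pm_113_s3 t 29 62 1 = true := ex3_a k46_A00pm_113_s3 k47_A00pm_113_s3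

theorem t149_A00pm_113_s3 : ∃ t, chk3 f_A00pm_113_s3 t 29 31 1 = true := ex3_b t148_A00pm_113_s3 t147_A00pm_113_s3

theorem t150_A00pm_113_s3 : ∃ t, chk3 f_A00pm_113_s3 t 113 511 1 = true := ex3_c k43_A00pm_113_s3 k44_A00pm_113_s3

theorem t151_A00pm_113_s3 : ∃ t, chk3 f_A00pm_113_s3 t 113 255 1 = true := ex3_b k42_A00pm_113_s3 t150_A00pm_113_s3

theorem t152_A00pm_113_s3 : ∃ t, chk3 f_A00pm_113_s3 t 225 2047 7 = true := ex3_a k40_A00pm_113_s3 k41_A00pm_113_s3

theorem t153_A00pm_113_s3 : ∃ t, chk3 f_A00pm_113_s3 t 225 1023 7 = true := ex3_b k39_A00pm_113_s3 t152_A00pm_113_s3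

theorem t154_A00pm_113_s3 : ∃ t, chk3 f_A00pm_113_s3 t 225 1023 3 = true := ex3_c k38_A00pm_113_s3 t153_A00pm_113_s3

theorem t155_A00pm_113_s3 : ∃ t, chk3 f_A00pm_113_s3 t 112 1023 3 = true := ex3_a k37_A00pm_113_s3 t154_A00pm_113_s3

theorem t156_A00pm_113_s3 : ∃ t, chk3 f_A00pm_113_s3 t 112 511 3 = true := ex3_b k36_A00pm_113_s3 t155_A00pm_113_s3

theorem t157_A00pm_113_s3 : ∃ t, chk3 f_A00pm_113_s3 t 112 511 1 = true := ex3_c k35_A00pm_113_s3 t156_A00pm_113_s3

theorem t158_A00pm_113_s3 : ∃ t, chk3 f_A00pm_113_s3 t 112 255 1 = true := ex3_b k34_A00pm_113_s3 t157_A00pm_113_s3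

theorem t159_A00pm_113_s3 : ∃ t, chk3 f_A00pm_113_s3 t 56 255 1 = true := ex3_a t158_A00pm_113_s3 t151_A00pm_113_s3

theorem t160_A00pm_113_s3 : ∃ t, chk3 f_A00pm_113_s3 t 56 127 1 = true := ex3_b k33_A00pm_113_s3 t159_A00pm_113_s3

theorem t161_A00pm_113_s3 : ∃ t, chk3 f_A00pm_113_s3 t 28 127 1 = true := ex3_a t160_A00pm_113_s3 k45_A00pm_113_s3

theorem t162_A00pm_113_s3 : ∃ t, chk3 f_A00pm_113_s3 t 28 63 1 = true := ex3_b k32_A00pm_113_s3 t161_A00pm_113_s3

theorem t163_A00pm_113_s3 : ∃ t, chk3 f_A00pm_113_s3 t 28 31 1 = true := ex3_b k31_A00pm_113_s3 t162_A00pm_113_s3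

theorem t164_A00pm_113_s3 : ∃ t, chk3 f_A00pm_113_s3 t 14 31 1 = true := ex3_a t163_A00pm_113_s3 t149_A00pm_113_s3

theorem t165_A00pm_113_s3 : ∃ t, chk3 f_A00pm_113_s3 t 14 15 1 = true := ex3_b k30_A00pm_113_s3 t164_A00pm_113_s3

theorem t166_A00pm_113_s3 : ∃ t, chk3 f_A00pm_113_s3 t 14 7 1 = true := ex3_b k29_A00pm_113_s3 t165_A00pm_113_s3

theorem t167_A00pm_113_s3 : ∃ t, chk3 f_A00pm_113_s3 t 7 7 1 = true := ex3_a t166_A00pm_113_s3 t145_A00pm_113_s3

theorem t168_A00pm_113_s3 : ∃ t, chk3 f_A00pm_113_s3 t 511 111 3 = true := ex3_c k27_A00pm_113_s3 k28_A00pm_113_s3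

theorem t169_A00pm_113_s3 : ∃ t, chk3 f_A00pm_113_s3 t 511 55 3 = true := ex3_b k26_A00pm_113_s3 t168_A00pm_113_s3

theorem t170_A00pm_113_s3 : ∃ t, chk3 f_A00pm_113_s3 t 255 55 3 = true := ex3_a k25_A00pm_113_s3 t169_A00pm_113_s3

theorem t171_A00pm_113_s3 : ∃ t, chk3 f_A00pm_113_s3 t 127 55 3 = true := ex3_a k24_A00pm_113_s3 t170_A00pm_113_s3

theorem t172_A00pm_113_s3 : ∃ t, chk3 f_A00pm_113_s3 t 127 55 1 = true := ex3_c k23_A00pm_113_s3 t171_A00pm_113_s3

theorem t173_A00pm_113_s3 : ∃ t, chk3 f_A00pm_113_s3 t 127 27 1 = true := ex3_b k22_A00pm_113_s3 t172_A00pm_113_s3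

theorem t174_A00pm_113_s3 : ∃ t, chk3 f_A00pm_113_s3 t 63 27 1 = true := ex3_a k21_A00pm_113_s3 t173_A00pm_113_s3

theorem t175_A00pm_113_s3 : ∃ t, chk3 f_A00pm_113_s3 t 31 27 1 = true := ex3_a k20_A00pm_113_s3 t174_A00pm_113_s3

theorem t176_A00pm_113_s3 : ∃ t, chk3 f_A00pm_113_s3 t 31 13 1 = true := ex3_b k19_A00pm_113_s3 t175_A00pm_113_s3

theorem t177_A00pm_113_s3 : ∃ t, chk3 f_A00pm_113_s3 t 15 13 1 = true := ex3_a k18_A00pm_113_s3 t176_A00pm_113_s3

theorem t178_A00pm_113_s3 : ∃ t, chk3 f_A00pm_113_s3 t 15 6 1 = true := ex3_b k17_A00pm_113_s3 t177_A00pm_113_s3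

theorem t179_A00pm_113_s3 : ∃ t, chk3 f_A00pm_113_s3 t 7 6 1 = true := ex3_a k16_A00pm_113_s3 t178_A00pm_113_s3

theorem t180_A00pm_113_s3 : ∃ t, chk3 f_A00pm_113_s3 t 7 3 1 = true := ex3_b t179_A00pm_113_s3 t167_A00pm_113_s3

theorem t181_A00pm_113_s3 : ∃ t, chk3 f_A00pm_113_s3 t 111 511 3 = true := ex3_c k14_A00pm_113_s3 k15_A00pm_113_s3

theorem t182_A00pm_113_s3 : ∃ t, chk3 f_A00pm_113_s3 t 55 511 3 = true := ex3_a k13_A00pm_113_s3 t181_A00pm_113_s3

theorem t183_A00pm_113_s3 : ∃ t, chk3 f_A00pm_113_s3 t 55 255 3 = true := ex3_b k12_A00pm_113_s3 t182_A00pm_113_s3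

theorem t184_A00pm_113_s3 : ∃ t, chk3 f_A00pm_113_s3 t 55 127 3 = true := ex3_b k11_A00pm_113_s3 t183_A00pm_113_s3

theorem t185_A00pm_113_s3 : ∃ t, chk3 f_A00pm_113_s3 t 55 127 1 = true := ex3_c k10_A00pm_113_s3 t184_A00pm_113_s3

theorem t186_A00pm_113_s3 : ∃ t, chk3 f_A00pm_113_s3 t 27 127 1 = true := ex3_a k9_A00pm_113_s3 t185_A00pm_113_s3

theorem t187_A00pm_113_s3 : ∃ t, chk3 f_A00pm_113_s3 t 27 63 1 = true := ex3_b k8_A00pm_113_s3 t186_A00pm_113_s3

theorem t188_A00pm_113_s3 : ∃ t, chk3 f_A00pm_113_s3 t 27 31 1 = true := ex3_b k7_A00pm_113_s3 t187_A00pm_113_s3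

theorem t189_A00pm_113_s3 : ∃ t, chk3 f_A00pm_113_s3 t 13 31 1 = true := ex3_a k6_A00pm_113_s3 t188_A00pm_113_s3

theorem t190_A00pm_113_s3 : ∃ t, chk3 f_A00pm_113_s3 t 13 15 1 = true := ex3_b k5_A00pm_113_s3 t189_A00pm_113_s3

theorem t191_A00pm_113_s3 : ∃ t, chk3 f_A00pm_113_s3 t 6 15 1 = true := ex3_a k4_A00pm_113_s3 t190_A00pm_113_s3

theorem t192_A00pm_113_s3 : ∃ t, chk3 f_A00pm_113_s3 t 6 7 1 = true := ex3_b k3_A00pm_113_s3 t191_A00pm_113_s3

theorem t193_A00pm_113_s3 : ∃ t, chk3 f_A00pm_113_s3 t 6 3 1 = true := ex3_b k2_A00pm_113_s3 t192_A00pm_113_s3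

theorem t194_A00pm_113_s3 : ∃ t, chk3 f_A00pm_113_s3 t 3 3 1 = true := ex3_a t193_A00pm_113_s3 t180_A00pm_113_s3

theorem t195_A00pm_113_s3 : ∃ t, chk3 f_A00pm_113_s3 t 3 1 1 = true := ex3_b k1_A00pm_113_s3 t194_A00pm_113_s3

theorem t196_A00pm_113_s3 : ∃ t, chk3 f_A00pm_113_s3 t 1 1 1 = true := ex3_a k0_A00pm_113_s3 t195_A00pm_113_s3

theorem c_A00pm_113_s3 : CertF 536870912 536870912 536870912 536870912 858993459 64424510 true true false .nn 1 1 3
    ndB0q1 ndB0q1 pcB3 cut_A00pm_113_s3 Ext.none :=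
  certF0 (fam := true) (s1 := true) (s2 := false) (a := 1) (b := 1) (c := 3) (cn := .nn) (n1 := ndB0q1) (n2 := ndB0q1) (pc := pcB3) (cut := cut_A00pm_113_s3) (xt := Ext.none) (P1 := 536870912) (W1 := 536870912) (P2 := 536870912) (W2 := 536870912) (P3 := 858993459) (W3 := 64424510)
    rfl t196_A00pm_113_s3

theorem s_A00pm_113_s3 {κ x : ℝ} (hκ : κ * h0 = ken x) (hx : ((858993459 : ℕ) : ℝ) / S ≤ x)
    (hx' : x ≤ (((858993459 : ℕ) : ℝ) + (64424510 : ℕ)) / S)
    (H : CutA (VFD κ) PP tK tL pcB (Cut.of [[⟨0, 1, 0, 67108864⟩, ⟨1, 1, 0, 67108864⟩, ⟨2, 2, 0, 16777216⟩], [⟨0, 0, 1, 20971520⟩, ⟨1, 1, 0, 16777216⟩, ⟨2, 1, 1, 20971520⟩], [⟨0, 1, 0, 16777216⟩, ⟨1, 0, 1, 20971520⟩, ⟨2, 1, 1, 20971520⟩]]) 1 1 3 0 0 (sgb true) (sgb false) x) :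
    AltA (VFD κ) PP tK tL pcB [⟨4, 0, 0, 2845415833⟩] 1 1 3 0 0 (sgb true) (sgb false) x :=
  strip_altAD (m := 2845415833) false rfl hκ (SH.κ0 hκ (SH.hx1 hx).le (SH.hx2 hx').le) (SH.hx1 hx).le (SH.hx2 hx') (covB01).cov (covB01).cov hx hx' c_A00pm_113_s3 H (noExt_A)

end Pool.Agent.Strip051.G.I8000_8600.Tab.St.C
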