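import Pool.Agent.Strip051.G.I8000_8600.StH
import Pool.Agent.Strip051.G.I8000_8600.StF

/-! # Unit strips 9 (generated) -/

set_option linter.all false
set_option maxRecDepth 100000

namespace Pool.Agent.Strip051.G.I8000_8600.Tab.St.C

open Pool.Agent.Strip051.PB Pool.Agent.Strip051.PB.T Pool.Agent.StripNear Pool.Agent.Strip051.LC
open Pool.Agent.Strip051.G.I8000_8600.Tab Pool.Agent.Strip051.G.I8000_8600.Tab.St

noncomputable def cut_A00pm_123_s3 : Cut := Cut.of [[⟨3, 0, 0, 2845415833⟩], [⟨0, 1, 0, 67108864⟩, ⟨1, 1, 0, 67108864⟩, ⟨2, 2, 0, 16777216⟩], [⟨0, 0, 1, 20971520⟩, ⟨1, 1, 0, 16777216⟩, ⟨2, 1, 1, 20971520⟩]]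

noncomputable def xt_A00pm_123_s3 : Ext := strExt dd true true false .u0 .u2 .s2 .npn 1 2 3 rfl rfl gl3 vv ndB0q1 ndB0q2

noncomputable def f_A00pm_123_s3 : ℕ → ℕ → ℕ → ℕ → Bool := onCell 1610612736 536870912 0 536870912 858993459 64424510
    (rowF 2 true true false .npn 1 2 3 (qsf 536870912 536870912 0 536870912 3) ndB0q1 ndB0q2 pcB3 cut_A00pm_123_s3 xt_A00pm_123_s3)

def k0_A00pm_123_s3 : ∃ t, chk3 f_A00pm_123_s3 t 2 1 1 = true :=
  ⟨(b (a (b (l 1) (l 6)) (b (a (b (a (a (l 1) (c (l 533919759) (l 534362383))) (c (l 534336783) (l 534385167))) (c (a (a (l 1) (b (l 16653648) (l 16630872))) (a (l 534339599) (l 534421519))) (a (a (l 1) (b (l 16662896) (l 16643432))) (b (l 534435087) (a (l 16654400) (l 16662680)))))) (b (a (c (l 534495759) (l 534271759)) (c (l 534534927) (l 534133775))) (a (c (b (l 534525711) (l 534488079)) (b (l 534279695) (l 534259727))) (b (c (l 534515471) (l 534117903)) (c (l 534398479) (l 534081039)))))) (a (b (b (c (a (a (l 6) (l 16606584)) (l 534321679)) (a (a (l 6) (l 16623848))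 (a (l 16633648) (l 16639976)))) (a (l 6) (a (l 6) (a (l 6) (l 16535968))))) (l 6)) (c (b (a (a (b (l 16652504) (l 16624728)) (b (l 16663848) (l 16634152))) (b (a (l 16671848) (l 16680408)) (a (l 16638416) (l 16650488)))) (a (b (a (l 6) (l 16600856)) (l 6)) (a (b (l 16606120) (l 16572216)) (b (l 16618264) (l 16584208))))) (b (a (a (b (l 16646840) (l 16620568)) (b (l 16654816) (l 16627672))) (b (c (l 534118159) (l 533876751)) (a (l 16636056) (l 16645744)))) (b (a (c (l 16597448) (l 16587552)) (a (l 16604800) (l 16614016))) (a (l 6) (a (l 16569968) (l 16578832))))))))) (a (l 6) (b (a (l 6) (l 6)) (l 6)))), by decide +kernel⟩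

def k1_A00pm_123_s3 : ∃ t, chk3 f_A00pm_123_s3 t 6 4 1 = true :=
  ⟨(a (b (a (c (l 534448399) (l 534012431)) (a (l 534305551) (l 4))) (a (b (c (l 534445071) (l 533971727)) (c (a (l 534330127) (l 534350607)) (a (l 533957903) (l 533883407)))) (c (b (a (b (l 534548751) (l 534553871)) (c (l 534734095) (l 534445327))) (a (b (l 534424847) (l 534297359)) (b (l 534412303) (l 534272271)))) (b (a (l 533875983) (l 533828623)) (a (b (l 533835023) (l 533800719)) (b (l 533782799) (l 533745935))))))) (b (l 4) (a (b (a (c (b (l 4) (l 534534671)) (l 533795599)) (l 4)) (a (c (l 534328335) (l 533725455)) (b (l 534078735) (a (l 533995023) (l 533994255))))) (b (l 4) (l 4))))), by decide +kernel⟩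

def k2_A00pm_123_s3 : ∃ t, chk3 f_A00pm_123_s3 t 6 5 1 = true :=
  ⟨(a (b (a (b (c (a (l 16693272) (l 534118671)) (a (l 16685456) (l 534333967))) (c (a (l 16663400) (l 16676792)) (a (l 16656744) (l 16669040)))) (b (a (c (l 534096655) (l 533723663)) (b (c (l 534132495) (l 533696271)) (a (l 16719608) (l 533846031)))) (a (c (l 16690600) (l 16724536)) (c (a (l 16701488) (l 16709208)) (a (l 16693528) (l 16701168)))))) (c (a (a (b (l 16631328) (l 16597608)) (b (l 16645336) (l 16612408))) (b (a (l 16660352) (l 16677104)) (a (l 16629368) (l 16648656)))) (a (a (b (l 16624776) (l 16589496)) (b (l 16637072) (l 16601992))) (b (a (l 16650888) (l 16666160)) (a (l 16616320) (l 16632400)))))) (a (b (c (a (b (b (l 534128655) (l 534022159)) (a (l 16717216) (l 16725424))) (b (c (l 534279439) (l 534004495)) (b (l 534017039) (l 533955599)))) (a (b (b (l 533655567) (l 533573903)) (l 533976079)) (b (b (l 533614351) (l 533529103)) (a (l 16746448) (l 533390607))))) (a (b (c (l 16716624) (l 16724688)) (c (l 16670176) (l 16650264)))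 (b (c (a (l 16710104) (l 16719760)) (a (l 16695992) (l 16705200))) (c (l 16692856) (l 16669808))))) (b (a (b (c (l 534270991) (l 533542159)) (c (a (l 534099727) (l 534214671)) (a (l 533381647) (l 533382927)))) (b (a (l 533952527) (l 4)) (c (a (l 534348047) (l 534505487)) (a (l 533397007) (l 533423887))))) (b (a (c (l 534131727) (l 533212175)) (c (a (l 534374671) (l 534567695)) (a (l 533253903) (l 533302287)))) (a (a (l 16739440) (c (l 16721152) (l 16696256))) (c (a (l 16731944) (l 534687503)) (a (l 16707272) (l 533212431)))))))), by decide +kernel⟩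

def k3_A00pm_123_s3 : ∃ t, chk3 f_A00pm_123_s3 t 7 2 1 = true :=
  ⟨(a (b (l 4) (b (a (a (b (l 4) (b (a (l 535656719) (l 4)) (a (l 535111951) (c (l 534941199) (l 533536783))))) (l 4)) (l 4)) (a (a (a (b (c (l 534788111) (l 533372687)) (b (a (l 16762904) (l 534130447)) (c (l 16749240) (l 16723664)))) (b (c (l 535049743) (l 533488655)) (b (c (l 535201807) (l 533468175)) (l 535987727)))) (b (b (a (l 534437135) (l 535504143)) (b (a (l 534474767) (l 534754575)) (a (l 534505999) (c (l 535821839) (a (l 533792783) (l 533906191)))))) (a (b (c (l 535549199) (l 533653007)) (c (l 535719439) (l 533691407))) (c (b (a (l 535847183) (c (l 536638223) (l 535510031))) (a (l 536044815) (l 536282895))) (a (b (l 533820943) (l 533881359)) (b (c (l 534450959) (l 533461775)) (l 534024207))))))) (a (b (a (a (b (l 4) (b (l 4) (c (l 536148239) (c (l 534536719) (l 533552399))))) (l 4)) (l 4)) (a (b (c (a (l 536301071) (l 536555023)) (a (l 534088719) (l 534244367))) (a (c (l 536539407) (l 534181903)) (c (l 536815887) (l 534355471))))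 (b (b (l 4) (a (l 534830607) (a (l 535819535) (l 4)))) (c (a (l 537114383) (l 537416207)) (a (l 534545935) (b (l 534712847) (l 534798607))))))) (a (b (l 4) (b (l 4) (b (a (c (l 537414927) (a (l 534878223) (l 4))) (l 4)) (a (c (l 537449231) (a (l 534973711) (l 535097103))) (a (b (l 4) (c (l 537467663) (l 534181903))) (l 4)))))) (l 4)))))) (l 4)), by decide +kernel⟩

def k4_A00pm_123_s3 : ∃ t, chk3 f_A00pm_123_s3 t 12 3 1 = true :=
  ⟨(b (b (a (b (a (c (l 16520120) (c (l 16557136) (l 16543232))) (c (l 16641352) (b (l 16573888) (l 16554232)))) (a (l 6) (a (l 6) (b (a (l 16507040) (l 16553264)) (l 6))))) (a (b (c (l 16597664) (l 16579288)) (c (b (l 16573816) (a (l 16551624) (l 16564272))) (b (l 16549872) (a (l 16525080) (l 16534184))))) (b (c (l 16620312) (l 16596648)) (c (b (l 16599280) (a (l 16578064) (l 16592856))) (b (l 16568592) (a (l 16544064) (l 16554760))))))) (a (l 6) (b (b (a (c (l 16541776) (l 16508592)) (c (a (l 16563176) (l 16579176)) (a (l 16524056) (l 16535520)))) (a (l 6) (c (l 16556360)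 (a (l 16503256) (l 16515576))))) (a (l 6) (b (c (l 16541704) (l 16488264)) (l 6)))))) (l 6)), by decide +kernel⟩

def k5_A00pm_123_s3 : ∃ t, chk3 f_A00pm_123_s3 t 13 12 1 = true :=
  ⟨(b (a (a (c (l 16645584) (l 16616296)) (c (l 16672504) (l 16638224))) (a (c (l 16699872) (l 16662168)) (a (l 16741928) (c (l 16732680) (l 16694040))))) (a (a (a (c (l 16614512) (l 16575368)) (c (l 16630192) (l 16587248))) (c (b (l 16658752) (l 16650640)) (b (l 16614384) (l 16598584)))) (a (c (b (l 16690584) (l 16686032)) (b (l 16641208) (l 16627784))) (c (b (l 16721976) (l 16721488)) (b (l 16670024) (l 16659432)))))), by decide +kernel⟩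

def k6_A00pm_123_s3 : ∃ t, chk3 f_A00pm_123_s3 t 13 13 2 = true :=
  ⟨(a (b (a (b (a (l 16596448) (b (l 16617432) (l 16612064))) (a (l 16583360) (l 16603168))) (b (b (l 16645240) (a (l 16631768) (l 16651920))) (a (l 16624336) (b (a (l 16643160) (l 16654280)) (l 16644552))))) (a (b (a (l 16570256) (l 16591384)) (l 16568152)) (b (a (l 16614072) (l 16638328)) (a (l 16603912) (l 16630160))))) (b (a (a (b (l 16673120) (b (a (l 16665432) (b (l 16676904) (l 16676424))) (a (l 16662424) (l 16674672)))) (b (l 16693208) (b (b (l 16693240) (l 16672512)) (b (a (l 16687584) (l 16678736)) (a (l 16686664) (l 16699544)))))) (b (a (l 16713400) (l 16733488)) (a (b (l 16715744) (b (a (l 16711672) (l 16723512)) (a (b (l 16712424) (l 16712584)) (b (l 16724792) (l 16704600))))) (b (l 16738128) (b (l 16741272) (l 16733216)))))) (a (b (a (b (l 16665536) (l 16662584)) (b (a (l 16685232) (l 16698712)) (l 16690448))) (a (l 16658352) (b (l 16689040) (l 16687776)))) (b (a (a (b (l 16712440) (l 16712224)) (b (c (l 16750864) (l 16702216))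 (l 16727112))) (b (b (a (b (l 16718304) (a (l 16736696) (l 16743608))) (b (l 16752032) (l 16732568))) (a (l 16740864) (b (a (l 16751352) (l 16758328)) (l 16755672)))) (c (l 16734816) (l 16723408)))) (a (b (l 16719984) (l 16720496)) (b (a (l 16744120) (l 16760600)) (l 16749184))))))), by decide +kernel⟩

def k7_A00pm_123_s3 : ∃ t, chk3 f_A00pm_123_s3 t 13 13 3 = true :=
  ⟨(a (b (a (b (a (b (l 16552536) (l 16543264)) (b (l 16565608) (l 16556904))) (a (l 16528976) (l 16543496))) (b (b (l 16586880) (a (l 16571512) (l 16587056))) (a (b (l 16563320) (l 16554952)) (b (a (l 16575520) (l 16583984)) (l 16572160))))) (a (b (a (l 16509456) (l 16525192)) (a (l 16489608) (l 16506640))) (b (a (l 16542256) (l 16560704)) (a (l 16525208) (l 16545384))))) (b (a (b (a (l 16606736) (l 16623560)) (a (b (b (l 16598696) (a (l 16591016) (l 16600080))) (a (l 16585840) (l 16595336))) (a (b (l 16610704) (b (l 16606552) (l 16603632))) (b (l 16620016) (b (c (l 16636792) (l 16596208)) (l 16613816)))))) (b (a (l 16641096) (l 16659224))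 (a (b (l 16676320) (c (b (l 16652392) (a (l 16645800) (l 16656800))) (a (l 16646344) (l 16614400)))) (b (l 16654120) (a (l 16688064) (l 16656784)))))) (a (b (a (b (l 16583872) (l 16577192)) (b (a (l 16599232) (l 16609872)) (l 16598976))) (a (l 16588216) (b (l 16593488) (l 16588096)))) (b (c (a (b (a (l 16643248) (l 16655048)) (l 16646048)) (b (b (a (l 16667408) (l 16679080)) (a (l 16666608) (l 16679032))) (l 16671784))) (a (b (a (l 16598688) (l 16609392)) (l 16598592)) (b (b (a (l 16621424) (l 16632344)) (a (l 16619256) (l 16630648))) (l 16621928)))) (a (b (l 16618016) (l 16614008)) (b (l 16685984) (l 16641648))))))), by decide +kernel⟩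

def k8_A00pm_123_s3 : ∃ t, chk3 f_A00pm_123_s3 t 13 14 1 = true :=
  ⟨(a (b (a (a (l 6) (c (l 16563360) (l 16479128))) (c (a (l 16590440) (b (l 16622832) (l 16617112))) (b (a (l 16508376) (l 16530456)) (a (l 16492208) (l 16516368))))) (b (a (l 6) (a (l 6) (c (l 16613488) (l 16503216)))) (l 6))) (b (a (c (a (b (l 16653512) (l 16650472)) (b (l 16686576) (l 16676520))) (b (a (l 16554464) (l 16580496)) (a (l 16542784) (l 16571552)))) (c (a (b (l 16713960) (l 16691984)) (b (l 16689232) (l 16707504))) (b (a (l 16608584) (l 16680704)) (a (l 16602816) (l 16636704))))) (a (c (b (a (l 16642392) (l 16656160)) (a (b (l 16627752) (l 16617632)) (b (l 16640280) (l 16629344)))) (b (a (l 16532352) (l 16564272)) (a (l 16606880) (c (l 16593104) (l 16524128))))) (c (b (a (l 16669976) (l 16683872)) (a (b (l 16652888) (l 16641144)) (a (l 16656336) (l 16662528)))) (b (a (l 16599208) (l 16637376)) (a (c (l 16634560) (l 16561408)) (c (l 16650704) (l 16602496)))))))), by decide +kernel⟩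

def k9_A00pm_123_s3 : ∃ t, chk3 f_A00pm_123_s3 t 13 30 2 = true :=
  ⟨(a (l 6) (a (a (l 6) (a (b (b (l 16615480) (l 6)) (l 6)) (b (b (l 16620952) (c (l 16570016) (l 16606960))) (b (b (c (b (l 16562656) (l 16583232)) (c (l 16558848) (l 16556512))) (l 6)) (l 6))))) (b (a (b (c (l 16589848) (l 16626648)) (c (a (l 16575048) (l 16580136)) (b (l 16575736) (l 16590680)))) (c (b (l 16621920) (a (l 16606232) (l 16611408))) (b (l 16637808) (a (l 16580640) (l 16585912))))) (a (b (b (c (a (b (l 16609384) (a (l 16575192) (l 16576976))) (b (l 16614200) (a (b (l 16610664) (l 16609984)) (c (l 16624064) (l 16611232))))) (a (b (l 16604680) (l 16581944)) (c (l 16588360) (l 16565272)))) (c (c (a (l 16611952) (l 16614800)) (l 16589800)) (a (l 16605656) (l 16608856)))) (c (a (b (l 16615544) (l 16630992)) (c (b (l 16619872) (l 16625000)) (l 16630168))) (a (l 16591480) (c (l 16617024) (l 16614480))))) (b (b (c (a (c (a (l 16617376) (l 16619816)) (l 16595288)) (c (b (l 16625112) (l 16621736)) (l 16621216))) (a (l 16602584)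 (l 16597160))) (a (c (c (a (l 16616952) (b (l 16622440) (l 16619576))) (a (l 16614576) (l 16616144))) (a (l 16611256) (l 16591952))) (a (c (b (b (b (l 16617344) (a (l 16616648) (l 16617472))) (l 16617896)) (l 16619792)) (b (l 16592576) (l 16615472))) (c (b (c (b (l 16620424) (l 16620408)) (b (l 16618288) (l 16618256))) (l 16621184)) (b (a (l 16593912) (l 16594872)) (l 16617008)))))) (c (c (a (a (l 16624632) (l 16636544)) (a (b (l 16624840) (l 16630080)) (b (l 16626232) (l 16631496)))) (a (b (l 16620192) (l 16625176)) (a (l 16624936) (l 16626408)))) (a (a (l 16597200) (l 16598800)) (c (l 16602304) (l 16600040))))))))), by decide +kernel⟩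

def k10_A00pm_123_s3 : ∃ t, chk3 f_A00pm_123_s3 t 26 31 2 = true :=
  ⟨(l 6), by decide +kernel⟩

def k11_A00pm_123_s3 : ∃ t, chk3 f_A00pm_123_s3 t 27 62 2 = true :=
  ⟨(a (l 6) (a (a (l 6) (a (b (c (c (l 16632088) (l 16628840)) (l 16603176)) (l 6)) (b (c (c (l 16633600) (l 16630424)) (l 16604864)) (c (b (l 16639776) (c (l 16646936) (l 16643160))) (b (l 16632864) (l 16637608)))))) (c (b (c (a (b (l 16633168) (a (l 16637744) (l 16639248))) (b (a (l 16635384) (l 16636832)) (a (l 16640744) (l 16642224)))) (a (b (l 16630208) (l 16635296)) (b (l 16633264) (l 16648896)))) (b (a (c (a (l 16643104) (l 16644640)) (l 16640432)) (c (a (l 16646168) (l 16647680)) (a (l 16642832) (l 16644416)))) (a (c (a (l 16648520) (l 16650088)) (a (l 16644808) (l 16646448))) (c (a (l 16651648) (l 16653192)) (a (l 16648072) (l 16649680)))))) (b (a (c (l 16608816) (l 16605936)) (c (b (l 16630536) (l 16635448)) (l 16609288))) (a (b (c (l 16637080) (l 16633800)) (c (l 16642000) (l 16638448))) (a (b (l 16637984) (l 16653304)) (c (b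 (l 16641224) (l 16646232)) (l 16619528)))))))), by decide +kernel⟩

def k12_A00pm_123_s3 : ∃ t, chk3 f_A00pm_123_s3 t 27 63 2 = true :=
  ⟨(a (l 6) (b (a (l 6) (c (b (a (c (a (l 16654000) (l 16655600)) (a (l 16650032) (l 16651704))) (c (a (l 16657192) (l 16658768)) (a (l 16653352) (l 16655000)))) (a (c (a (l 16659544) (l 16661176)) (a (l 16655312) (l 16657008))) (c (a (l 16662792) (l 16664400)) (a (l 16658696) (l 16660368))))) (b (a (c (a (l 16646120) (l 16647848)) (l 16622168)) (c (a (l 16649568) (l 16651280)) (a (l 16645832) (l 16647608)))) (a (c (a (l 16651120) (l 16652880)) (a (l 16646960) (l 16648792))) (c (a (l 16654632) (l 16656368)) (a (l 16650608) (l 16652408))))))) (a (l 6) (b (a (a (l 6) (c (c (l 16666800) (l 16664992)) (c (b (l 16656680) (l 16659232)) (b (l 16652368) (l 16654768))))) (c (c (a (l 16668456) (l 16670096)) (a (b (l 16662728) (l 16665440)) (b (l 16664424) (l 16667152)))) (c (a (b (l 16658456) (l 16661024)) (b (l 16660216) (l 16662800))) (a (b (l 16654208) (l 16656624)) (b (l 16656032)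 (l 16658464)))))) (c (b (a (a (l 6) (c (l 16671056) (l 16666424))) (c (a (l 16672736) (l 16674400)) (a (l 16668160) (l 16669888)))) (a (a (l 6) (a (l 6) (c (l 16674344) (l 16669584)))) (c (a (l 16675608) (l 16677288)) (a (l 16670904) (l 16672648))))) (b (a (a (l 6) (a (l 6) (c (l 16662248) (l 16657656)))) (c (a (l 16663600) (l 16665392)) (a (b (l 16658440) (l 16659656)) (b (l 16660296) (l 16661520))))) (a (a (l 6) (a (l 6) (c (l 16664832) (b (l 16659472) (l 16660688))))) (c (a (b (l 16665544) (l 16664224)) (b (l 16667344) (l 16668656))) (c (a (l 16662664) (l 16664520)) (a (b (l 16659712) (l 16660920)) (b (l 16661600) (l 16662808)))))))))))), by decide +kernel⟩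

def k13_A00pm_123_s3 : ∃ t, chk3 f_A00pm_123_s3 t 26 15 3 = true :=
  ⟨(l 6), by decide +kernel⟩

def k14_A00pm_123_s3 : ∃ t, chk3 f_A00pm_123_s3 t 27 30 3 = true :=
  ⟨(a (a (l 6) (a (b (b (l 16545952) (l 6)) (l 6)) (b (b (l 16566504) (l 16608648)) (b (c (b (l 16595200) (l 6)) (l 16529480)) (l 6))))) (b (a (c (b (l 16621904) (l 16610360)) (b (l 16559848) (l 16560184))) (a (c (l 16624432) (l 16594936)) (c (l 16629920) (l 16619848)))) (a (b (b (c (a (l 16599616) (l 16604280)) (a (l 16549640) (l 16573912))) (c (l 16602888) (l 16567672))) (c (a (l 16607312) (l 16568936)) (l 16582040))) (b (c (b (a (l 16609272) (l 16614472)) (a (l 16566288) (c (l 16591800) (l 16569144)))) (b (a (l 16599776) (l 16611328)) (a (l 16604856) (l 16608792)))) (c (a (l 16593416) (l 16596856)) (a (l 16610272) (l 16614000))))))), by decide +kernel⟩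

def k15_A00pm_123_s3 : ∃ t, chk3 f_A00pm_123_s3 t 27 62 3 = true :=
  ⟨(a (l 6) (a (a (l 6) (c (b (l 16598160) (c (l 16608160) (l 16583776))) (b (l 16613640) (l 16620728)))) (c (b (a (l 16612264) (a (l 16604464) (l 16606240))) (a (b (l 16608056) (l 16617512)) (b (l 16611704) (c (l 16638608) (l 16635320))))) (b (a (l 16617544) (l 16621384)) (a (b (l 16622920) (l 16605544)) (b (l 16584912) (l 16609536))))))), by decide +kernel⟩

def k16_A00pm_123_s3 : ∃ t, chk3 f_A00pm_123_s3 t 54 63 3 = true :=
  ⟨(l 6), by decide +kernel⟩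

def k17_A00pm_123_s3 : ∃ t, chk3 f_A00pm_123_s3 t 55 126 3 = true :=
  ⟨(a (l 6) (c (a (b (b (l 16615440) (l 16622808)) (c (b (l 16642664) (l 16644880)) (l 16624000))) (b (a (l 16624600) (l 16626472)) (c (b (l 16646408) (l 16648664)) (b (l 16642568) (l 16644656))))) (a (b (l 16619624) (c (l 16614744) (l 22))) (b (b (l 16612264) (l 16614088)) (c (l 16629256) (l 16614920)))))), by decide +kernel⟩

def k18_A00pm_123_s3 : ∃ t, chk3 f_A00pm_123_s3 t 55 254 3 = true :=
  ⟨(a (l 6) (c (a (a (l 6) (c (b (l 16648080) (l 16650320)) (b (l 16643816) (l 16645896)))) (c (b (a (l 16649984) (l 16651872)) (a (l 16652240) (l 16654152))) (b (a (l 16645784) (l 16647744)) (a (l 16647880) (l 16649856))))) (a (a (l 6) (c (l 16630056) (l 22))) (a (c (a (l 16642072) (l 16643088)) (l 16627864)) (b (c (l 16643640) (l 16639560)) (c (l 16645576) (l 16641312))))))), by decide +kernel⟩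

def k19_A00pm_123_s3 : ∃ t, chk3 f_A00pm_123_s3 t 110 255 3 = true :=
  ⟨(l 6), by decide +kernel⟩

def k20_A00pm_123_s3 : ∃ t, chk3 f_A00pm_123_s3 t 111 510 3 = true :=
  ⟨(c (c (a (a (l 6) (b (l 16652016) (l 16653144))) (a (b (l 16653944) (l 16655080)) (b (l 16655856) (l 16657000)))) (c (a (a (l 6) (l 16649136)) (a (l 16651112) (l 16653088))) (a (a (l 6) (l 16646840)) (a (l 16648856) (l 16650856))))) (a (a (l 6) (a (l 6) (c (l 16643928) (l 22)))) (c (a (a (l 16644960) (l 16645984)) (a (l 16647008) (l 16648032))) (c (a (l 16642088) (l 16644184)) (l 22))))), by decide +kernel⟩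

def k21_A00pm_123_s3 : ∃ t, chk3 f_A00pm_123_s3 t 111 511 6 = true :=
  ⟨(a (a (l 6) (a (l 6) (b (c (l 16654768) (c (l 16651240) (l 16648888))) (a (l 6) (c (b (l 16655864) (l 16656432)) (c (l 16652568) (l 16650176))))))) (a (b (c (c (l 16657384) (l 16655056)) (c (l 16652728) (l 16650408))) (c (a (c (l 16658064) (l 16655688)) (c (l 16659032) (l 16656672))) (c (a (l 16653312) (l 16654312)) (a (b (l 16650680) (l 16651200)) (b (l 16651688) (l 16652208)))))) (b (c (c (l 16659296) (l 16657000)) (c (l 16654712) (l 16652416))) (c (c (l 16660472) (a (l 16657648) (l 16658624))) (c (a (l 16655304) (l 16656296)) (a (b (l 16652696) (l 16653224)) (b (l 16653704) (l 16654224)))))))), by decide +kernel⟩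

def k22_A00pm_123_s3 : ∃ t, chk3 f_A00pm_123_s3 t 111 511 7 = true :=
  ⟨(b (a (a (l 6) (a (l 6) (c (a (l 16645112) (l 16645632)) (l 22)))) (c (a (c (b (l 16647832) (l 16648328)) (b (l 16645520) (l 16645992))) (c (l 16650128) (b (l 16647592) (l 16648072)))) (c (a (b (l 16643216) (l 16643664)) (b (l 16645320) (l 16645776))) (l 22)))) (a (a (l 6) (c (a (l 6) (a (l 6) (c (b (l 16647544) (l 16648040)) (b (l 16645168) (c (l 16646240) (l 16645040)))))) (l 22))) (c (a (b (c (a (l 16648312) (l 16649344)) (a (l 16645952) (l 16646992))) (c (a (a (l 16648552) (l 16649072)) (a (l 16649584) (l 16650096))) (a (b (l 16646304) (c (l 16647144) (l 16645944))) (b (l 16647352) (c (l 16648184) (l 16646992)))))) (b (c (a (l 16650368) (l 16651384)) (a (l 16648032) (l 16649072))) (c (a (a (l 16650608) (l 16651120)) (b (l 16651760) (l 16652016))) (a (c (l 16649096) (l 16647920)) (c (l 16650136) (l 16648968)))))) (b (c (a (a (l 16643584) (l 16644648)) (a (l 16645704) (l 16646760))) (l 22)) (a (c (c (a (a (l 22) (l 16644904))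 (a (l 16645432) (l 16645960))) (l 22)) (l 22)) (c (a (a (c (l 16646480) (l 22)) (c (l 16647008) (l 16645832))) (a (c (l 16647536) (l 16646360)) (c (l 16648056) (l 16646896)))) (l 22))))))), by decide +kernel⟩

def k23_A00pm_123_s3 : ∃ t, chk3 f_A00pm_123_s3 t 28 12 1 = true :=
  ⟨(a (b (a (c (l 535231503) (l 534140175)) (b (l 534479631) (l 16761248))) (a (c (l 16745384) (l 16688112)) (b (l 16731848) (l 16730896)))) (b (a (b (c (l 16765064) (l 533753871)) (a (l 16744128) (l 16749896))) (b (c (l 536411151) (a (l 16745760) (l 534128911))) (c (l 536711439) (l 534173967)))) (a (b (l 16755904) (l 16746304)) (b (c (l 16780496) (l 16736352)) (c (l 16789408) (l 16733224)))))), by decide +kernel⟩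

def k24_A00pm_123_s3 : ∃ t, chk3 f_A00pm_123_s3 t 28 13 2 = true :=
  ⟨(a (b (b (a (l 16753064) (l 16770840)) (a (b (l 16760104) (a (l 16760472) (l 16772032))) (b (l 16780016) (l 16787800)))) (b (a (b (a (b (l 16765560) (b (l 16768368) (a (l 16766616) (l 16773648)))) (b (l 16777864) (l 16761248))) (a (c (l 16753648) (l 16745408)) (b (a (b (a (l 16780720) (l 16784160)) (l 16783896)) (b (l 16788768) (l 16748872))) (a (l 16785888) (l 16793144))))) (b (l 16776112) (b (a (b (l 16797752) (l 16758440)) (l 16801904)) (a (b (a (l 16757400) (l 16759792)) (l 16756264)) (b (l 16760392) (a (l 16759256) (l 16760288))))))) (a (b (a (l 16692176) (b (l 16746288) (l 16781760))) (a (l 16763200) (l 16772072))) (b (b (a (l 16751832) (l 16756320)) (l 16748600)) (b (l 16743008) (l 16779376)))))) (b (b (l 16752312) (a (l 16756032) (l 16754832))) (b (b (a (l 16800176) (l 16798880)) (a (b (l 16759232) (a (l 16760160) (l 16801520))) (l 16758216))) (a (b (b (a (b (a (l 16759920) (l 16760416)) (a (l 16799816) (l 16759392))) (b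 (l 16801968) (l 16760136))) (a (l 16755224) (c (l 16785432) (l 16772832)))) (a (l 16748224) (l 16773408))) (b (a (b (l 16801416) (c (l 16807544) (l 16774384))) (l 16779936)) (a (c (l 16782440) (l 16770664)) (b (b (l 16780320) (a (l 16800192) (l 16779872))) (l 16756624)))))))), by decide +kernel⟩

def k25_A00pm_123_s3 : ∃ t, chk3 f_A00pm_123_s3 t 28 13 3 = true :=
  ⟨(a (b (b (a (l 16677744) (l 16696344)) (a (b (l 16674384) (a (l 16667592) (l 16678448))) (b (l 16694680) (l 16694592)))) (b (c (a (b (a (b (l 16690752) (l 16733352)) (l 16702920)) (a (l 16691760) (b (a (l 16701624) (l 16707880)) (l 16705464)))) (b (l 16720128) (b (a (l 16717056) (l 16729192)) (a (l 16750184) (l 16752696))))) (a (b (a (b (l 16643424) (l 16642192)) (l 16654200)) (a (l 16640208) (b (a (l 16650064) (l 16656096)) (l 16652192)))) (b (l 16671352) (b (a (l 16665120) (l 16677208)) (a (l 16664872) (l 16677560)))))) (a (b (a (l 16664480) (b (l 16678432) (l 16678392))) (a (l 16663472) (l 16678496))) (b (a (b (l 16692008) (l 16692584))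 (b (l 16747576) (l 16706848))) (a (l 16693704) (l 16709032)))))) (b (b (l 16723928) (a (l 16715472) (l 16736152))) (b (a (b (l 16718592) (b (l 16721208) (a (l 16759016) (l 16729736)))) (b (l 16741640) (l 16768096))) (c (a (b (b (a (b (l 16746960) (l 16748464)) (l 16761096)) (a (l 16750664) (l 16765080))) (a (l 16755416) (l 16771128))) (b (b (l 16780720) (a (l 16779192) (l 16783064))) (a (l 16758264) (b (b (l 16783088) (l 16782296)) (l 16780928))))) (a (b (b (a (l 16733160) (l 16704528)) (a (l 16692184) (l 16706232))) (l 16743448)) (b (b (l 16724400) (a (l 16720208) (l 16734048))) (b (a (l 16722776) (b (l 16736584) (l 16738280))) (l 16733320)))))))), by decide +kernel⟩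

def k26_A00pm_123_s3 : ∃ t, chk3 f_A00pm_123_s3 t 29 12 1 = true :=
  ⟨(a (b (a (b (a (c (l 536825615) (l 534306063)) (c (l 537129487) (l 534500623))) (a (l 534982927) (l 534724623))) (b (c (a (l 537457679) (l 537214991)) (a (b (l 534667791) (l 534762511)) (b (l 534895375) (l 535004175)))) (a (c (l 537529359) (l 534928655)) (c (l 537545231) (l 535193871))))) (a (b (a (l 536100623) (l 536414223)) (c (l 16747344) (l 16748200))) (b (a (l 535950351) (c (l 537601551) (l 535502095))) (a (l 536691983) (b (l 16761024) (l 16740792)))))) (b (c (a (b (a (b (l 537482255) (l 537513999)) (b (a (l 537492239) (l 537499151)) (l 537528079))) (a (l 537291535) (l 537304847))) (b (a (b (l 537241615) (l 537540879)) (b (l 4) (l 537283855))) (a (b (l 537570063) (l 537597967)) (b (l 537581327) (l 537608719))))) (a (b (a (b (a (l 535080719) (c (l 535932175) (l 534506255))) (l 534732559)) (b (a (c (l 536085775) (b (l 534600975) (l 534652431))) (c (l 536246543) (l 534752783))) (a (l 535485199) (l 535637775)))) (a (b (l 535408399)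 (l 535564047)) (b (l 535718159) (l 535894287)))) (b (a (a (b (b (l 4) (l 535679503)) (l 535797519)) (b (l 4) (l 534891279))) (b (l 4) (c (l 536810255) (a (l 535316495) (l 4))))) (a (b (c (l 536897551) (l 535232783)) (l 536257039)) (b (a (l 536335375) (l 536531215)) (l 536655631)))))) (a (b (a (c (l 537615119) (l 535833871)) (b (l 536199695) (l 536751631))) (a (b (l 537018639) (l 16761360)) (b (l 537034255) (l 537047311)))) (b (a (c (l 537369871) (b (l 536478479) (l 536725263))) (c (l 537379599) (b (l 536904719) (l 536963855)))) (a (b (l 536781071) (l 537061903)) (b (l 536527375) (l 536807951))))))), by decide +kernel⟩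

def k27_A00pm_123_s3 : ∃ t, chk3 f_A00pm_123_s3 t 29 26 1 = true :=
  ⟨(a (b (a (c (l 16792208) (l 16750104)) (b (l 16762672) (l 16742456))) (a (c (l 16753224) (l 16756168)) (c (l 16751288) (l 16774928)))) (b (a (a (l 536514319) (l 536260367)) (b (a (l 537341711) (l 537087247)) (c (l 16765688) (l 16757200)))) (a (c (l 16770072) (l 16757104)) (b (c (l 16746008) (l 16778288)) (c (l 16768256) (l 16778408)))))), by decide +kernel⟩

def k28_A00pm_123_s3 : ∃ t, chk3 f_A00pm_123_s3 t 29 27 2 = true :=
  ⟨(c (c (a (b (b (l 16760792) (l 16783288)) (b (a (l 16807208) (l 16804032)) (a (a (b (l 16808952) (l 16807936)) (l 16797312)) (l 16805136)))) (b (a (l 16798768) (l 16774264)) (a (b (l 16800576) (l 16801592)) (b (l 16796912) (l 16797840))))) (c (a (b (a (l 16801544) (l 16798992)) (b (a (l 16803400) (l 16800736)) (a (b (l 16804400) (a (l 16803960) (l 16804064))) (l 16801752)))) (b (a (l 16796168) (l 16793144)) (a (b (l 16797800) (l 16798744)) (b (l 16794664) (l 16795528))))) (a (b (a (l 16799104) (l 16796888))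 (b (a (l 16800816) (l 16798504)) (a (b (l 16801760) (a (l 16801256) (l 16801496))) (l 16799448)))) (b (a (l 16794400) (l 16791720)) (a (b (l 16795920) (l 16796808)) (b (l 16793136) (l 16793952))))))) (c (a (b (a (l 16795384) (l 16793672)) (b (a (l 16796864) (l 16795088)) (a (b (l 16787248) (a (l 16797136) (l 16797568))) (l 16795944)))) (b (a (l 16791712) (l 16789544)) (a (b (l 16793048) (l 16793848)) (b (l 16790800) (l 16791552))))) (a (b (b (l 16789280) (l 16779640)) (b (a (l 16791480) (l 16790424)) (a (b (l 16787000) (a (l 16791504) (l 16792208))) (l 16791152)))) (b (a (l 16788032) (l 16786568)) (a (b (l 16789120) (l 16789816)) (b (l 16787608) (l 16788280))))))), by decide +kernel⟩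

def k29_A00pm_123_s3 : ∃ t, chk3 f_A00pm_123_s3 t 29 27 3 = true :=
  ⟨(c (c (a (b (a (l 16785104) (l 16784792)) (b (a (l 16785960) (l 16785632)) (a (b (a (l 16786560) (l 16786344)) (a (l 16785728) (l 16786704))) (l 16786224)))) (b (a (l 16784256) (l 16783520)) (a (b (l 16785080) (l 16785664)) (b (l 16784336) (l 16784904))))) (a (b (a (l 16779768) (l 16780176)) (b (a (l 16780288) (l 16780720)) (a (b (a (l 16780584) (l 16780736)) (a (l 16779800) (l 16781064))) (l 16781176)))) (b (a (l 16780376) (l 16780384)) (a (b (l 16780936) (l 16781400)) (b (l 16780968) (l 16781448)))))) (c (c (a (b (a (l 16761584) (l 16776640)) (b (a (l 16773856) (l 16776952)) (a (b (l 16776376) (a (l 16775256) (l 16776736))) (l 16777296)))) (b (a (l 16777408) (l 16777984)) (a (b (l 16777760) (l 16778136)) (b (l 16778384) (l 16778792))))) (b (a (a (l 16749400) (l 16772440)) (a (l 16775400) (l 16776352))) (a (b (a (l 16759736) (l 16774400)) (a (b (l 16766640) (a (l 16764208) (l 16773800))) (l 16774672))) (a (b (l 16775616) (l 16775928))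 (b (l 16776640) (l 16776992)))))) (c (a (b (a (l 16737304) (l 16760736)) (b (a (l 16745744) (l 16771824)) (a (b (l 16751592) (a (l 16748448) (l 16763616))) (l 16772024)))) (b (a (l 16773360) (l 16774704)) (a (b (l 16773432) (l 16773688)) (b (l 16774864) (l 16775168))))) (a (b (a (l 16725320) (l 16749112)) (b (a (l 16731864) (l 16758744)) (a (b (l 16736680) (a (l 16732824) (l 16748016))) (l 16767800)))) (b (a (l 16771304) (l 16773040)) (a (b (l 16771232) (l 16771416)) (b (l 16773072) (l 16773328)))))))), by decide +kernel⟩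

def k30_A00pm_123_s3 : ∃ t, chk3 f_A00pm_123_s3 t 60 24 1 = true :=
  ⟨(b (l 4) (a (a (c (b (a (l 537587471) (l 537323791)) (a (l 537614351) (l 537618959))) (b (b (l 4) (a (l 536794895) (c (l 537140239) (l 536084495)))) (a (l 536972303) (b (l 536713999) (l 536984335))))) (b (l 4) (a (c (l 537354511) (c (l 536889359) (b (l 535872015) (l 536534031)))) (a (a (b (l 4) (c (l 537630991) (l 537003023))) (l 4)) (l 4))))) (l 4))), by decide +kernel⟩

def k31_A00pm_123_s3 : ∃ t, chk3 f_A00pm_123_s3 t 120 25 1 = true :=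
  ⟨(c (b (a (b (l 537374991) (l 537667087)) (b (a (l 537647887) (b (l 537645327) (l 537657103))) (a (l 537671183) (l 537674511)))) (a (b (l 537689103) (l 537709583)) (b (a (l 537692687) (l 537695759)) (l 537447183)))) (b (a (b (a (l 536975887) (l 536987151)) (l 536717583)) (b (a (b (l 536997903) (l 536999183)) (b (a (l 537006351) (l 536743951)) (l 536742671))) (a (l 537001487) (l 536476431)))) (a (b (l 536988431) (l 536990223)) (b (a (l 537003535) (l 536746511)) (l 536475407))))), by decide +kernel⟩

def k32_A00pm_123_s3 : ∃ t, chk3 f_A00pm_123_s3 t 121 50 1 = true :=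
  ⟨(a (b (b (l 4) (a (c (l 537392143) (a (l 536751375) (c (l 537190415) (l 536857359)))) (l 4))) (a (c (b (l 537671695) (l 537682703)) (b (a (l 537020943) (l 537026831)) (l 537025295))) (c (b (a (l 537673743) (l 537272591)) (a (l 537684495) (l 537685775))) (b (a (l 536496143) (b (l 4) (l 536771087))) (a (l 537033999) (l 536771599)))))) (b (l 4) (a (b (l 4) (b (a (c (l 537416207) (c (l 537211663) (l 536876815))) (l 4)) (c (a (l 537689615) (c (l 537840655) (l 537537551))) (a (l 537046543) (c (l 537218319) (l 536883471)))))) (l 4)))), by decide +kernel⟩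

def k33_A00pm_123_s3 : ∃ t, chk3 f_A00pm_123_s3 t 121 51 1 = true :=
  ⟨(a (c (b (a (b (l 537693199) (l 537703183)) (b (l 537427471) (l 537705743))) (a (l 537717775) (l 537451791))) (b (a (b (l 537026063) (l 537026831)) (b (a (l 537034767) (l 537040911)) (l 537038863))) (a (l 537027855) (b (l 537039119) (l 537039375))))) (b (a (b (c (a (b (l 537694735) (l 537699855)) (c (l 537849871) (l 537543439))) (a (c (l 537215759) (l 536874255)) (c (l 537220623) (l 536881935)))) (c (b (a (l 537704719) (l 537705743)) (l 537442063)) (a (l 537047567) (b (l 537053711) (l 537053711))))) (c (b (a (c (b (l 537846799) (a (l 537852687) (l 537852431))) (b (l 537543951) (a (l 537547023) (l 537548303)))) (b (l 4) (a (c (b (l 537850895) (l 537853967)) (b (l 537548559) (l 537550351))) (l 4)))) (c (a (b (a (l 537858319) (l 537858319)) (l 537864207)) (b (l 537841679) (l 537863951))) (a (b (l 537551375) (l 537554959)) (b (l 537553935) (l 537557519))))) (b (a (c (b (l 537224975) (l 537293583)) (b (l 536890127) (l 536889103))) (a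 (b (l 4) (c (b (l 537229839) (l 537230607)) (b (l 536894991) (l 536894479)))) (l 4))) (a (b (c (l 537227791) (l 536888079)) (l 537060111)) (b (c (l 537232911) (l 536895759)) (l 537066511)))))) (a (c (b (l 537448975) (l 537726223)) (b (l 537051407) (l 537051663))) (c (b (a (l 537718543) (l 537719567)) (l 537728271)) (b (a (l 537060367) (l 537066767)) (l 537063951)))))), by decide +kernel⟩

def k34_A00pm_123_s3 : ∃ t, chk3 f_A00pm_123_s3 t 61 12 1 = true :=
  ⟨(a (b (l 4) (b (l 4) (a (a (b (b (l 4) (c (a (c (l 537861135) (l 537558287)) (b (l 4) (l 537714959))) (c (b (l 537241359) (l 537242639)) (b (l 536908303) (l 536907279))))) (c (b (l 537453327) (l 537730319)) (b (l 537077263) (l 537077007)))) (b (l 4) (c (b (l 537455375) (l 537732111)) (b (c (l 537255183) (l 536922127)) (l 537090575))))) (a (b (l 4) (b (l 4) (c (l 537733903) (l 537104399)))) (l 4))))) (l 4)), by decide +kernel⟩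

def k35_A00pm_123_s3 : ∃ t, chk3 f_A00pm_123_s3 t 60 13 1 = true :=
  ⟨(b (b (a (a (b (l 536832271) (l 537110031)) (b (c (l 537733903) (l 537013263)) (l 536585999))) (c (a (b (l 537201423) (l 537753871)) (b (a (l 537739023) (l 537740815)) (l 537220367))) (a (b (l 536499215) (l 537035791)) (b (a (l 537051919) (l 537064207)) (a (l 537051151) (l 537063183)))))) (a (b (a (l 537117711) (l 536861711)) (a (l 16762096) (l 16761432))) (b (a (c (l 16773056) (l 16767872)) (b (l 537153039) (l 537155599))) (a (a (l 16760920) (l 16771048)) (c (l 16772880) (l 16767976)))))) (b (a (c (a (l 16768064) (l 16766704)) (a (l 16778960) (l 16779016))) (a (c (l 16765336) (l 16768528)) (c (c (l 16775816) (l 16773008)) (b (l 16778736) (l 16779112))))) (a (c (b (l 16779120) (a (l 16791088) (l 16789656))) (a (b (l 16779472) (l 16779920)) (b (l 16779544) (l 16780008)))) (c (a (l 16766936) (b (l 16786088) (l 16786752))) (a (l 16769352) (b (l 16779552) (l 16780064))))))), by decide +kernel⟩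

def k36_A00pm_123_s3 : ∃ t, chk3 f_A00pm_123_s3 t 122 26 1 = true :=
  ⟨(b (a (b (c (b (l 537472783) (l 537748751)) (b (l 536817167) (l 537085199))) (c (l 537491727) (l 537084943))) (b (c (b (l 537208079) (l 537752079)) (a (l 537104143) (l 537118735))) (a (l 536902671) (l 536910351)))) (b (a (b (l 536898063) (l 537168655)) (b (a (l 537442831) (l 537449999)) (l 536914447))) (a (c (l 537244431) (l 536544527)) (a (b (l 537446415) (l 537179407)) (b (l 537185039) (c (l 16770088) (l 16778112))))))), by decide +kernel⟩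

def k37_A00pm_123_s3 : ∃ t, chk3 f_A00pm_123_s3 t 123 52 1 = true :=
  ⟨(a (b (a (c (l 537749263) (l 537133839)) (l 4)) (a (l 536918287) (l 537195279))) (l 4)), by decide +kernel⟩

def k38_A00pm_123_s3 : ∃ t, chk3 f_A00pm_123_s3 t 246 53 1 = true :=
  ⟨(b (a (b (l 537457935) (l 537459471)) (b (l 537197583) (l 536930575))) (c (b (a (l 537778191) (b (l 537777935) (l 537778959))) (a (l 537776399) (a (l 537774351) (l 537773327)))) (b (a (l 537125135) (b (l 537140239) (l 537139983))) (a (l 537128719) (a (l 16775240) (l 537149199)))))), by decide +kernel⟩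

def k39_A00pm_123_s3 : ∃ t, chk3 f_A00pm_123_s3 t 247 106 2 = true :=
  ⟨(a (b (l 537772047) (l 537776399)) (a (b (l 4) (l 537776655)) (l 4))), by decide +kernel⟩

def k40_A00pm_123_s3 : ∃ t, chk3 f_A00pm_123_s3 t 494 107 2 = true :=
  ⟨(b (b (l 537778959) (a (l 537778447) (c (l 537922575) (l 537630479)))) (a (c (l 537913615) (l 537624847)) (c (b (l 537913359) (a (l 16778752) (l 537900047))) (b (l 537627407) (l 537489167))))), by decide +kernel⟩

def k41_A00pm_123_s3 : ∃ t, chk3 f_A00pm_123_s3 t 495 107 2 = true :=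
  ⟨(c (a (b (b (b (l 537920527) (c (l 537726479) (l 537853711))) (b (a (l 537921551) (a (l 537919759) (c (l 537886735) (l 537848847)))) (a (l 537916943) (a (l 537914639) (c (l 537980943) (l 537844239)))))) (c (a (b (l 537975823) (l 537963023)) (a (l 537832719) (l 537898767))) (a (b (l 537839631) (l 537830415)) (a (l 537699343) (b (l 537837327) (l 537828879)))))) (b (a (b (b (l 4) (b (a (a (l 537920271) (l 4)) (l 4)) (c (a (a (l 537990415) (c (l 538023695) (l 537955343))) (c (l 538023695) (l 537955599))) (a (c (l 537885967) (l 537815311)) (c (l 537886223) (l 537815823)))))) (a (c (b (c (l 538019599) (l 537951759)) (l 537979919)) (c (l 537746191) (l 537810959))) (l 537915151))) (b (l 4) (c (l 537983503) (l 537847055)))) (a (a (c (l 537898511) (b (l 537837327) (l 537829135))) (c (l 537965839) (l 537833743))) (c (l 537698063) (l 537566223))))) (b (a (c (b (l 537641999) (a (l 537704719) (b (l 537705999) (a (l 537703439) (l 537703183))))) (b (l 537559055) (a (l 537556751) (b (l 537558543) (a (l 537557263)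 (l 537557775)))))) (a (c (b (b (l 4) (a (b (l 537707279) (a (l 537707791) (l 537841935))) (c (l 537744911) (l 537672207)))) (a (c (l 537740303) (l 537668623)) (l 537705231))) (b (b (l 4) (a (c (l 537597455) (l 537522703)) (c (l 537598479) (l 537523727)))) (a (c (l 537595919) (l 537522191)) (l 537560079)))) (b (l 4) (c (l 537706511) (l 537561871))))) (a (c (a (b (l 537699343) (l 537693455)) (a (l 537427727) (l 537562127))) (a (b (l 537554703) (l 537552655)) (a (l 537554703) (l 537287183)))) (c (a (a (l 537562639) (l 537697551)) (l 537430543)) (a (a (l 537287951) (l 537557519)) (l 537559311)))))), by decide +kernel⟩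

def k42_A00pm_123_s3 : ∃ t, chk3 f_A00pm_123_s3 t 247 53 3 = true :=
  ⟨(b (a (b (l 537160463) (l 537158415)) (a (b (l 4) (l 537169935)) (l 4))) (a (b (b (l 537156367) (c (l 537318415) (l 536988431))) (a (c (l 537318927) (l 536995599)) (c (b (l 537324303) (l 537328399)) (b (l 537004303) (l 537016847))))) (c (b (a (b (a (l 537325327) (l 537327119)) (a (l 537326351) (c (b (l 537406735) (l 537407759)) (b (l 537250575) (l 537253903))))) (a (c (b (b (l 4) (a (b (l 537408271) (l 537408271)) (l 537409551))) (a (l 537275151) (l 537410831))) (b (b (l 4) (a (l 537251855) (l 537253647))) (a (l 537255439) (l 537257231)))) (b (l 4) (l 537336847)))) (a (a (b (l 537330191) (c (l 537407759) (l 16777648))) (c (b (l 537409039) (l 537410831)) (l 536992271))) (a (a (c (l 537412111) (l 537263375)) (l 537272591)) (b (l 537340175) (l 537343503))))) (b (a (b (l 536998927) (a (l 537004303) (c (b (l 537090319) (l 537095951)) (l 536930831)))) (a (c (b (a (l 536956175) (l 536823823)) (l 537098511)) (b (b (l 4) (l 536927759)) (l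 536936463))) (b (l 4) (l 537022223)))) (a (c (a (l 536833807) (l 537107215)) (c (l 536718607) (l 536638479))) (a (c (l 536843535) (l 536955407)) (l 537038351))))))), by decide +kernel⟩

def k43_A00pm_123_s3 : ∃ t, chk3 f_A00pm_123_s3 t 122 27 1 = true :=
  ⟨(b (b (a (c (a (l 16783376) (l 16782688)) (a (l 16778664) (l 16778584))) (c (a (l 16771512) (b (l 16781056) (l 16781512))) (a (l 16778496) (b (l 16778280) (l 16778480))))) (a (c (l 16773416) (l 16779016)) (c (a (l 16782848) (b (l 16781936) (l 16782328))) (a (l 16778920) (c (l 16779688) (l 16777944)))))) (b (a (c (l 16779400) (l 16774248)) (c (a (l 16783592) (a (l 16783064) (l 16782720))) (a (l 16779400) (c (l 16780240) (l 16778352))))) (a (c (l 16785304) (l 16780000)) (c (a (l 16784256) (l 16783576)) (a (l 16779896) (l 16779784)))))), by decide +kernel⟩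

def k44_A00pm_123_s3 : ∃ t, chk3 f_A00pm_123_s3 t 246 54 1 = true :=
  ⟨(c (b (a (a (l 16775536) (b (l 16780200) (l 16780648))) (b (a (l 537762831) (b (l 16776768) (l 16779616))) (a (l 16780296) (a (l 16780040) (l 16779864))))) (b (a (a (l 16781408) (l 16781064)) (a (l 16780720) (a (l 16780464) (l 16780296)))) (a (l 16776392) (c (l 16778864) (l 16780408))))) (b (a (b (l 16775536) (l 16775744)) (b (c (l 537316111) (l 536997903)) (c (l 537323535) (l 16777712)))) (a (c (l 16779424) (l 16777976)) (c (b (l 16778992) (l 16779264)) (b (l 16777880) (l 16778056)))))), by decide +kernel⟩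

def k45_A00pm_123_s3 : ∃ t, chk3 f_A00pm_123_s3 t 247 54 2 = true :=
  ⟨(a (b (a (b (c (l 537891343) (l 537616911)) (c (l 537869839) (l 537609231))) (c (b (a (l 537886479) (b (l 537889039) (l 537878799))) (c (l 537792527) (l 537668623))) (b (a (l 537616911) (b (l 537619215) (l 16778600))) (c (l 537406991) (l 537275663))))) (c (c (a (b (l 16780648) (l 16781128)) (b (l 537636879) (l 537616911))) (a (b (l 16780248) (l 16780688)) (b (l 537518607) (l 537503759)))) (a (b (l 16779632) (l 16780000)) (b (c (l 537396751) (l 537271567)) (c (l 537387023) (l 537267215)))))) (b (c (a (b (a (c (l 537677071) (l 537549071)) (c (l 537809679) (l 537682703))) (c (a (l 537923599) (l 537654031)) (a (l 537801231) (l 537532687)))) (b (c (a (b (l 537948943) (l 537938191)) (l 537676047)) (a (b (l 537821199) (l 537813263)) (l 537550095))) (c (a (l 537654287) (l 537654799)) (a (l 537533455) (l 537534479))))) (a (b (c (a (l 537685519) (l 537417743)) (a (l 537549839) (l 537283087))) (c (a (l 537675279) (l 537407759)) (a (l 537545743)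 (l 537547535)))) (b (c (a (l 537553167) (l 537420303)) (a (l 537284879) (l 537555471))) (c (a (l 537409039) (l 537410575)) (c (l 537314575) (l 537249807)))))) (c (a (b (c (a (l 537902863) (l 537633807)) (a (l 537785871) (l 537517583))) (c (c (l 537642511) (l 537587471)) (c (l 537531663) (l 537474831)))) (b (c (a (l 537634063) (l 537903119)) (a (l 537518351) (l 537519375))) (c (c (l 537642767) (l 537588239)) (c (l 537532943) (l 537476623))))) (a (b (c (c (l 537428239) (l 537367311)) (c (l 537305615) (l 537243151))) (c (c (l 537417487) (l 537359119)) (a (l 16779328) (l 537539087)))) (b (c (c (l 537430543) (l 537370127)) (c (l 537308943) (l 537246991))) (c (c (l 537419791) (l 537361935)) (c (l 537303311) (l 537243919)))))))), by decide +kernel⟩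

def k46_A00pm_123_s3 : ∃ t, chk3 f_A00pm_123_s3 t 247 54 3 = true :=
  ⟨(a (b (c (a (b (l 537326351) (l 537333263)) (b (c (l 537137935) (l 537260559)) (c (l 537140751) (l 537270287)))) (a (b (l 537019663) (l 16777688)) (b (a (l 16777520) (l 537037583)) (a (l 16777664) (l 16777648))))) (c (a (b (l 16778760) (l 16779032)) (b (a (l 16778640) (l 16778560)) (c (l 16776464) (l 16778648)))) (a (b (l 16777848) (l 16778016)) (b (a (l 16777824) (l 16777800)) (l 16777976))))) (c (b (a (b (c (a (l 537410319) (l 537412879)) (a (l 537266703) (l 537270543))) (c (c (l 537179407) (l 537112079)) (l 537009679))) (b (c (c (l 537183503) (l 537113871)) (a (l 537273871) (l 537276943))) (c (c (l 537184015) (l 537117455)) (l 537015823)))) (a (b (c (l 537147663) (l 537017359)) (c (l 537148687) (l 537024271))) (b (c (l 537286671) (l 537023503)) (c (l 537153551) (l 537029903))))) (b (a (b (c (l 536854031) (l 536971791)) (c (l 536869647) (l 536994575))) (b (c (l 536862223) (l 536713231)) (c (l 536877327) (l 537003791)))) (a (b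 (a (l 16777776) (l 537085967)) (a (l 16777936) (l 16777904))) (b (c (l 536891151) (l 537023759)) (c (l 536903183) (l 537041935))))))), by decide +kernel⟩

def k47_A00pm_123_s3 : ∃ t, chk3 f_A00pm_123_s3 t 246 55 1 = true :=
  ⟨(c (b (a (c (l 16780296) (l 16781480)) (c (b (l 16781912) (l 16782320)) (b (l 16780752) (l 16781096)))) (a (b (l 16782728) (l 16783080)) (b (a (l 16782240) (l 16781912)) (l 16782432)))) (b (a (c (l 16779968) (l 16778376)) (c (b (l 16779528) (l 16779792)) (a (l 16778360) (l 16778336)))) (a (c (l 16780496) (l 16778776)) (c (l 16777576) (l 16778728))))), by decide +kernel⟩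

def k48_A00pm_123_s3 : ∃ t, chk3 f_A00pm_123_s3 t 247 55 1 = true :=
  ⟨(c (b (a (c (b (a (l 16781344) (b (a (l 16780952) (l 16780768)) (l 16781080))) (a (l 16781760) (a (l 16781488) (l 16781304)))) (b (a (l 16777728) (b (l 16779992) (l 16780168))) (a (l 16780696) (l 16777808)))) (b (c (a (b (a (l 16780584) (l 16780408)) (a (l 16780808) (l 16780624))) (b (a (l 16780224) (l 16780040)) (a (l 16780448) (l 16780264)))) (a (c (b (l 16779920) (l 16780104)) (a (l 16779664) (l 16779544))) (b (a (l 16779520) (l 16779384)) (c (l 16779816) (l 16779440))))) (c (a (b (l 16780928) (l 16781136)) (b (b (l 16780520) (l 16780624)) (l 16780784))) (a (b (l 16780072) (l 16780240)) (b (c (l 16780000) (l 16779608)) (l 16779976)))))) (b (a (a (l 16781600) (b (l 16781192) (l 16781376))) (a (b (l 16780880) (l 16781064)) (b (b (l 16780528) (l 16780616)) (l 16780760)))) (a (a (l 16781968) (l 16781656)) (a (l 16778728) (b (l 16780944) (l 16781144)))))) (b (a (c (b (a (l 16779304) (a (l 16779184) (l 16779096))) (a (l 16779568) (l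 16779400))) (b (a (l 16778192) (l 16778152)) (a (l 16778376) (l 16778328)))) (c (b (a (c (a (l 16779232) (l 16779136)) (a (l 16778792) (l 16778720))) (c (b (l 537422095) (l 16779056)) (a (l 16778648) (l 16778576)))) (a (c (l 16779472) (l 16779000)) (c (b (l 16779200) (l 16779344)) (l 16776232)))) (b (a (c (l 16775696) (l 16777864)) (c (a (l 16778248) (l 16778192)) (l 536789519))) (a (l 16775648) (c (l 16778416) (l 16777968)))))) (a (c (b (a (l 16779824) (l 16779656)) (l 16774760)) (b (l 16778536) (l 16778728))) (c (b (a (l 16776872) (b (l 16779256) (l 16779384))) (a (l 16779760) (l 16779592))) (b (a (l 16773200) (b (l 16778320) (l 16778408))) (a (l 16778640) (l 16778560))))))), by decide +kernel⟩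

def k49_A00pm_123_s3 : ∃ t, chk3 f_A00pm_123_s3 t 31 12 1 = true :=
  ⟨(l 4), by decide +kernel⟩

def k50_A00pm_123_s3 : ∃ t, chk3 f_A00pm_123_s3 t 62 26 2 = true :=
  ⟨(a (b (l 4) (a (a (a (b (l 4) (c (b (b (l 4) (c (l 537716751) (l 537581071))) (c (b (l 537705231) (l 537693967)) (b (l 537572623) (l 537564431)))) (b (b (l 4) (c (l 537441039) (l 537565455))) (c (b (l 537435919) (l 537430799)) (a (l 537292815) (l 537295119)))))) (b (l 4) (b (l 4) (b (l 4) (c (c (l 537696271) (l 537567247)) (c (l 537434639) (l 537297935))))))) (l 4)) (l 4))) (l 4)), by decide +kernel⟩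

def k51_A00pm_123_s3 : ∃ t, chk3 f_A00pm_123_s3 t 248 54 4 = true :=
  ⟨(c (b (a (b (a (a (l 537676815) (l 537677839)) (b (l 537685263) (l 537674255))) (a (a (l 537655823) (l 537656591)) (a (l 537657871) (l 537659151)))) (b (a (b (l 537688079) (l 537677071)) (l 4)) (a (b (l 537666575) (l 537656335)) (a (l 537663503) (l 537665295))))) (a (b (a (a (l 537635599) (l 537636623)) (a (l 537637647) (l 537638927))) (a (c (l 537644303) (l 537590031)) (a (l 537618447) (l 537619727)))) (b (a (a (l 537640207) (l 537641743)) (a (l 537643279) (l 537645071))) (a (a (l 537621007) (l 537622543)) (b (l 537898511) (l 537889039)))))) (b (a (b (a (a (l 537551375) (l 537552655)) (b (l 537559311) (l 537551375))) (a (a (l 537535759) (l 537537039)) (a (l 537538575) (l 537540111)))) (b (a (b (l 537562639) (l 537554703)) (l 4)) (a (b (l 537546767) (l 537539087)) (b (l 537550607) (l 537542927))))) (a (b (a (a (l 537520655) (l 537521935)) (a (l 537523471) (l 537525007))) (a (c (l 537534991) (l 537479183)) (a (l 537508879) (l 537510415))))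 (b (a (a (l 537526543) (l 537528335)) (a (l 537530383) (l 537532431))) (a (a (l 537511951) (l 537513743)) (a (l 537515791) (l 537517839))))))), by decide +kernel⟩

def k52_A00pm_123_s3 : ∃ t, chk3 f_A00pm_123_s3 t 248 54 5 = true :=
  ⟨(c (b (a (b (a (a (l 537422095) (l 537423887)) (b (l 537429519) (l 537424399))) (a (a (l 537412111) (l 537413903)) (a (l 537415695) (l 537417743)))) (b (a (b (l 537433615) (l 537428495)) (l 4)) (a (b (l 537423375) (l 537418511)) (b (l 537427983) (l 537422863))))) (a (b (a (a (l 537402383) (l 537404175)) (a (l 537405967) (l 537407759))) (a (c (l 537422607) (l 537365263)) (a (l 537396239) (l 537398031)))) (b (a (a (l 537409807) (l 537411855)) (a (l 537413903) (l 537416207))) (a (a (l 537400079) (l 537402127)) (a (l 537404175) (l 537406479)))))) (b (a (b (a (a (l 537288975) (l 537291279)) (b (l 537295887) (l 537293839))) (a (a (l 537284879) (l 537287183)) (a (l 537289231) (l 537291535)))) (b (a (b (l 537300751) (l 537298703)) (l 4)) (a (b (l 537296399) (l 537294351)) (b (l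 537301519) (l 537299215))))) (a (b (a (c (l 537312783) (l 537251343)) (a (l 537284879) (l 537287183))) (a (c (l 537307151) (l 537248015)) (a (l 537280271) (l 537282575)))) (b (a (a (l 537289487) (l 537291791)) (a (l 537294351) (l 537296911))) (a (a (l 537284879) (l 537287183)) (a (l 537289487) (l 537292047))))))), by decide +kernel⟩

def k53_A00pm_123_s3 : ∃ t, chk3 f_A00pm_123_s3 t 249 54 2 = true :=
  ⟨(a (b (a (a (b (l 4) (b (l 4) (c (l 537604367) (a (l 537364239) (l 537633807))))) (l 4)) (l 4)) (c (b (a (c (c (l 537676303) (l 537621007)) (a (l 537534479) (l 537536783))) (c (l 537653263) (c (l 537569551) (l 537512719)))) (a (c (b (l 537902351) (l 537892879)) (a (l 537519887) (l 537790479))) (c (l 537634063) (l 537593615)))) (b (a (c (a (l 537418767) (l 537421071)) (b (l 537302287) (l 537299983))) (c (a (l 537423887) (l 537426447)) (b (l 537308175) (l 537305615)))) (a (c (a (l 537408783) (l 537411343)) (a (l 537294607) (l 537297167))) (c (a (l 537413903) (l 537685007)) (a (l 537299983) (l 537302799)))))))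 (b (l 4) (b (l 4) (a (c (c (l 537639183) (l 537531919)) (c (l 537421327) (a (l 537305871) (l 537577487)))) (a (a (c (l 537857039) (l 537368079)) (l 4)) (l 4)))))), by decide +kernel⟩

def k54_A00pm_123_s3 : ∃ t, chk3 f_A00pm_123_s3 t 248 55 2 = true :=
  ⟨(b (a (b (c (c (b (a (l 537871631) (l 537605391)) (a (l 537862927) (l 537864975))) (b (a (l 537764879) (l 537499407)) (a (l 537758223) (l 537761039)))) (c (b (a (l 537655311) (l 537658639)) (a (l 537650447) (l 537654031))) (a (b (l 537542415) (l 537540111)) (b (l 537546511) (l 537543951))))) (c (a (b (a (l 16780304) (l 16780128)) (l 537661455)) (b (a (l 16779952) (l 16779776)) (l 537529871))) (a (b (c (l 16779712) (l 16779360)) (l 537487887)) (b (a (l 16779336) (l 16779200)) (l 537457935))))) (b (b (c (a (c (l 537608207) (l 537502735)) (c (l 537611535) (l 537506319))) (a (c (l 537394191) (l 537282575)) (c (l 537398287) (l 537287183)))) (c (a (c (l 537867791) (l 537495823)) (c (l 537602575) (l 537499407))) (a (c (l 537389327) (l 537280015)) (c (l 537393423)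 (l 537284623))))) (c (a (b (a (l 16779600) (l 16779416)) (l 537532687)) (b (a (l 537810703) (l 537812751)) (l 537536271))) (a (b (a (l 16779064) (l 16778928)) (a (l 16779240) (l 16779104))) (b (b (l 537336591) (l 537334799)) (a (l 16778968) (l 16778832))))))) (a (a (b (c (b (l 16780640) (l 16780848)) (b (l 16779880) (l 16780048))) (b (l 16780640) (l 16780840))) (b (c (b (l 16780288) (l 16780496)) (b (l 16779616) (l 16779784))) (b (l 16780336) (l 16780536)))) (a (b (c (b (l 16777320) (l 16780152)) (b (l 16776728) (l 16779512))) (b (l 16777408) (l 16780232))) (b (c (b (l 16776968) (l 16779800)) (b (b (l 16779032) (l 16779120)) (l 16776624))) (c (l 16780128) (b (l 16779424) (l 16779608))))))), by decide +kernel⟩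

def k55_A00pm_123_s3 : ∃ t, chk3 f_A00pm_123_s3 t 498 110 2 = true :=
  ⟨(b (c (b (a (c (l 537615375) (l 537510671)) (b (c (l 537890575) (l 537785615)) (c (l 537885967) (l 537782031)))) (a (c (l 537606415) (l 537503759)) (a (l 537558287) (a (l 537828623) (l 537829647))))) (b (a (c (l 537469967) (b (l 537561359) (l 537560079))) (b (c (l 537677583) (l 537566735)) (c (l 537675279) (l 537565455)))) (a (c (l 537398031) (l 537289743)) (b (a (l 537616911) (l 537619727)) (a (l 537615119) (l 537617679)))))) (a (c (b (a (l 537814543) (l 537816847)) (a (l 16779104) (l 16778928))) (b (c (l 537661711) (l 537286927)) (a (l 16778696) (l 537605903)))) (c (b (a (l 537819151) (l 537821455)) (a (l 16778744) (l 16778568))) (b (a (l 537343759) (c (l 537667599) (l 537561615))) (a (l 537608463) (l 537611279)))))), by decide +kernel⟩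

def k56_A00pm_123_s3 : ∃ t, chk3 f_A00pm_123_s3 t 499 110 2 = true :=
  ⟨(b (a (a (b (c (b (l 537841679) (l 537837839)) (b (l 537626383) (l 537356047))) (c (b (l 537833743) (l 537829903)) (c (l 537675279) (l 537298959)))) (c (b (b (l 537844495) (c (l 537891855) (l 537788431))) (a (b (l 537835791) (l 16777840)) (l 537566735))) (b (b (c (l 537684239) (l 537573647)) (c (l 537681679) (l 537572367))) (b (a (l 537624591) (l 537626127)) (l 537623567))))) (a (c (b (b (a (c (l 537898511) (l 537793807)) (c (b (l 537901071) (l 537898767)) (b (l 537796367) (l 537794575)))) (a (c (l 537893903) (l 537790479)) (a (l 537843727) (l 537844239)))) (a (b (l 537838607) (l 537834511)) (l 537838095))) (b (b (c (a (l 537686287) (b (l 537688591) (l 537687311))) (a (l 537575951) (b (l 537577999) (l 537577231)))) (c (a (l 537683983) (l 537685519)) (a (l 537574415) (l 537576207)))) (a (b (l 537627663) (l 537625615)) (l 537628175)))) (b (b (l 4) (l 537741583)) (l 537737231)))) (a (a (c (b (l 537824015) (l 16778384)) (b (l 537349391)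 (l 537613839))) (c (b (l 537826831) (l 537819151)) (b (l 537352207) (l 537616911)))) (a (c (b (l 537829647) (l 537822223)) (b (l 537355279) (l 537619727))) (l 537728527)))), by decide +kernel⟩

def k57_A00pm_123_s3 : ∃ t, chk3 f_A00pm_123_s3 t 249 111 2 = true :=
  ⟨(a (a (b (c (b (l 16779232) (l 16776832)) (b (l 537333007) (l 16776352))) (c (l 16779784) (b (l 16779152) (l 16779344)))) (b (c (b (l 537537551) (l 16779096)) (b (a (l 16778592) (l 16778456)) (l 537334287))) (c (b (l 16779320) (l 16779552)) (c (l 16776472) (l 16776240))))) (a (b (c (a (l 537537295) (l 537808399)) (a (l 537339919) (l 537342735))) (c (l 537534479) (b (l 537608463) (l 16778800)))) (b (a (c (l 537811471) (l 537345807)) (l 537717263)) (c (l 537542415) (c (l 537399567) (l 537301519)))))), by decide +kernel⟩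

def k58_A00pm_123_s3 : ∃ t, chk3 f_A00pm_123_s3 t 125 27 2 = true :=
  ⟨(b (l 4) (a (b (a (b (b (l 4) (a (c (l 537846031) (l 537368079)) (l 4))) (a (b (l 537468431) (l 537730831)) (c (l 537573391) (b (l 537371151) (l 537367311))))) (l 4)) (b (a (a (a (l 537452303) (l 537321487)) (b (l 537463823) (c (l 537820175) (l 537356047)))) (a (b (c (l 537571855) (l 537372943)) (c (l 537564431) (c (l 537418511) (l 537317903)))) (l 4))) (a (a (b (l 537721359) (l 537731599)) (b (c (l 537828879) (l 537367567)) (l 537477135))) (a (a (b (l 537474575) (l 537753103)) (c (l 537845775) (l 537385231))) (c (l 537580303) (b (l 537382159) (l 537392911))))))) (b (l 4) (b (l 4) (a (a (a (a (l 537351439) (l 4)) (l 4)) (l 4)) (l 4)))))), by decide +kernel⟩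

def k59_A00pm_123_s3 : ∃ t, chk3 f_A00pm_123_s3 t 63 13 2 = true :=
  ⟨(l 4), by decide +kernel⟩

def k60_A00pm_123_s3 : ∃ t, chk3 f_A00pm_123_s3 t 62 26 3 = true :=
  ⟨(a (b (l 4) (a (a (b (l 4) (a (c (b (a (b (l 4) (l 537205519)) (l 4)) (c (l 537285647) (l 537004303))) (b (b (l 4) (l 537028367)) (c (l 536853007) (l 536966415)))) (b (l 4) (c (c (a (l 537155087) (l 537157903)) (l 537010447)) (c (l 536860431) (l 536974607)))))) (l 4)) (l 4))) (l 4)), by decide +kernel⟩

def k61_A00pm_123_s3 : ∃ t, chk3 f_A00pm_123_s3 t 248 54 3 = true :=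
  ⟨(b (c (a (b (a (c (l 537355279) (l 537013519)) (c (a (l 537157391) (l 537160207)) (l 537154063))) (a (c (l 537357327) (l 537021967)) (c (a (l 537159439) (l 537161999)) (l 537162255)))) (b (a (c (b (l 537164047) (l 537165071)) (c (l 537061135) (l 536990735))) (l 4)) (a (c (a (l 537164815) (l 537167631)) (a (l 537031951) (l 537035023))) (c (b (l 537171727) (l 537172239)) (a (l 537038351) (l 537041423)))))) (a (b (c (a (l 536869391) (l 536876559)) (a (l 536989967) (l 536729359))) (a (c (l 536884239) (l 537011471)) (c (l 536891151) (l 536750863)))) (b (a (c (l 536883471) (l 536737295)) (l 4)) (a (c (l 537032207) (l 536758543)) (c (a (l 536902671) (l 536906255)) (l 536900367)))))) (a (c (b (a (c (l 537325071) (l 537029135)) (c (a (l 537160719) (l 537163279)) (l 537169423))) (a (c (l 537292303) (l 537035535)) (c (c (l 537193231) (l 537132815)) (l 537175311)))) (b (a (c (l 536897807) (l 536762895)) (c (l 536904463) (l 536770319))) (a (c (l 536909839) (l 536780815)) (c (l 536916239) (l 536787983))))) (c (b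 (a (c (a (l 537165839) (l 537168655)) (a (l 537039119) (l 537042191))) (c (a (l 537171471) (l 537174287)) (a (l 537045007) (l 537048079)))) (a (c (a (l 537166351) (l 537169167)) (a (l 537045007) (l 537047823))) (c (a (l 537171727) (l 537174543)) (a (l 537050895) (l 537053967))))) (b (a (c (l 537045263) (l 536777743)) (c (a (l 536915471) (l 536919055)) (c (l 536818703) (l 536751375)))) (a (c (c (l 536953871) (l 536890895)) (l 536795151)) (c (a (l 536926991) (l 536930319)) (a (l 536800015) (l 536803343)))))))), by decide +kernel⟩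

def k62_A00pm_123_s3 : ∃ t, chk3 f_A00pm_123_s3 t 249 54 3 = true :=
  ⟨(a (b (a (a (b (l 4) (c (c (l 537176079) (l 537044751)) (c (l 536909839) (l 536771343)))) (l 4)) (l 4)) (c (b (a (c (b (l 537178639) (l 537178895)) (b (l 537051663) (l 537054735))) (c (b (l 537184783) (l 537185039)) (b (l 537058319) (l 537061135)))) (a (c (a (l 537177359) (l 537180175)) (a (l 537057039) (l 537060111))) (c (b (l 537185039) (l 537184783)) (b (l 537063951) (l 537066255))))) (b (a (c (b (l 536921359) (l 536927247)) (b (l 536787727) (l 536796687))) (c (b (l 536928271) (l 536934159)) (b (l 536795151) (l 536803855)))) (a (c (b (l 536932879) (l 536937999)) (b (l 536804879) (l 536812815))) (c (b (l 536939535) (l 536944655)) (b (l 536812303) (l 536819983))))))) (b (l 4) (b (l 4) (a (c (c (b (l 537191183) (l 537191183)) (b (l 537070351) (l 537072655))) (c (b (l 536946447) (l 536951311)) (b (l 536819471) (l 536827151)))) (a (a (b (l 4) (b (l 4) (c (l 537404431) (l 536894735)))) (l 4)) (l 4)))))), by decide +kernel⟩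

def k63_A00pm_123_s3 : ∃ t, chk3 f_A00pm_123_s3 t 248 55 3 = true :=
  ⟨(b (a (b (c (c (a (b (l 537426703) (l 537426447)) (b (l 537431311) (l 537431311))) (a (b (l 537307663) (l 16778512)) (b (l 537313295) (l 537315599)))) (a (c (b (l 537185807) (l 16778160)) (l 536930831)) (c (b (l 537192207) (l 537196815)) (a (l 536801295) (l 536804879))))) (c (a (b (c (l 16779000) (l 16778632)) (c (l 16779144) (l 16778752))) (b (a (l 16778688) (l 16778600)) (l 537274639))) (a (c (l 537130511) (l 16775288)) (b (c (l 16778152) (l 16777816)) (l 537013007))))) (b (c (b (a (c (l 537167887) (l 537050383)) (c (l 537173263) (l 537056271))) (a (c (l 537167887) (l 537052687)) (c (l 537173007) (l 537058319)))) (b (a (c (l 536930063) (l 537074959)) (c (l 536936207) (l 536813327))) (a (c (l 537202959) (l 537082127)) (c (l 536940815) (l 536820495))))) (c (a (b (a (l 16778504) (l 537112079)) (a (l 16778640) (l 16778544))) (b (a (l 537114895) (l 537117455)) (a (l 16778448) (l 16778360)))) (a (b (a (l 16777920) (l 536881167)) (a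 (l 16778000) (l 16777952))) (b (c (l 536944911) (l 536827151)) (a (l 16777904) (l 537160719))))))) (a (a (b (c (b (l 16779080) (l 16779208)) (b (l 16778240) (l 16778328))) (b (l 16778888) (l 16779016))) (b (c (b (l 16778904) (l 16779032)) (b (l 16775528) (l 16778240))) (b (b (l 16778720) (l 16778784)) (l 16778880)))) (a (b (c (b (l 537112079) (l 16776224)) (b (l 536889615) (l 16775528))) (b (b (l 16778584) (l 16778648)) (l 16776120))) (b (c (b (a (l 16778584) (l 16778488)) (l 16776040)) (b (c (l 16778112) (l 16775200)) (l 536899599))) (c (b (l 16778800) (l 16778944)) (b (l 16775520) (l 16778248))))))), by decide +kernel⟩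

def k64_A00pm_123_s3 : ∃ t, chk3 f_A00pm_123_s3 t 498 110 3 = true :=
  ⟨(b (c (a (b (c (c (l 537207311) (l 537149967)) (c (l 537091599) (l 537032719))) (c (l 537178383) (l 537064207))) (b (b (c (l 537453071) (l 537336079)) (c (l 537452815) (l 537068815))) (b (a (l 537393679) (l 537128207)) (a (l 537393935) (l 537397007))))) (a (b (c (c (l 536972815) (l 536912399)) (c (l 536851215) (l 536789263))) (c (l 537081359) (l 536961551))) (b (b (c (l 537216527) (l 536825359)) (c (l 536950287) (l 536828943))) (b (c (l 536952335) (l 536832271)) (c (l 536954383) (l 536835599)))))) (c (a (b (c (l 537177871) (l 537065743)) (c (l 537177103) (l 537067279))) (b (a (c (l 537449999) (l 537338127)) (c (l 537452815) (l 537341199))) (c (l 537182735) (l 537073167)))) (a (b (c (l 536951055) (l 536833551)) (c (l 536954639) (l 536839439))) (b (c (a (l 537223695) (l 537227023)) (b (l 536838671) (l 536841487))) (c (l 536960783) (l 536846095)))))), by decide +kernel⟩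

def k65_A00pm_123_s3 : ∃ t, chk3 f_A00pm_123_s3 t 499 220 3 = true :=
  ⟨(a (c (b (b (c (l 537190671) (a (l 537340431) (l 537343759))) (c (a (l 537456911) (l 537258767)) (a (l 537341455) (b (l 537344527) (l 537345039))))) (a (c (l 537188111) (b (l 537342479) (l 537343247))) (a (c (l 537458703) (l 537345039)) (c (l 537460239) (l 537346831))))) (b (c (b (a (l 537221135) (l 537224463)) (a (l 537223183) (b (l 537225999) (l 537227023)))) (b (a (l 537098511) (l 536833551)) (a (l 537102095) (b (l 537104655) (l 537106191))))) (a (c (b (l 537225231) (l 537227279)) (b (l 537105423) (l 537108495))) (a (c (l 537228559) (l 536840975)) (c (l 537230351) (l 536976911)))))) (c (a (b (c (b (a (l 537462543) (b (l 537464335) (a (l 537463567) (l 537464591)))) (a (l 537462287) (l 537463823))) (b (a (l 537346063) (b (a (l 537347087) (l 4)) (a (l 537347599) (l 537348367)))) (a (a (l 537346575) (l 537347343)) (l 537348879)))) (a (b (l 537136911) (l 537405455)) (l 537272847))) (b (b (l 4) (l 537409295)) (l 537409807))) (a (b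 (c (b (a (l 537059087) (b (a (l 537227535) (l 4)) (a (l 537228559) (l 537229583)))) (a (a (l 537228559) (l 537229327)) (a (l 537230351) (l 537231119)))) (b (a (b (l 537103631) (l 537105423)) (b (a (l 537105167) (l 4)) (a (c (l 537137423) (l 537075727)) (l 537107727)))) (a (c (l 537138447) (l 537077263)) (a (l 537109263) (l 537110287))))) (a (b (a (l 537170959) (l 537171983)) (l 537174031)) (c (l 537233679) (l 537114639)))) (b (b (l 4) (l 537173519)) (l 536908815))))), by decide +kernel⟩

def k66_A00pm_123_s3 : ∃ t, chk3 f_A00pm_123_s3 t 499 221 3 = true :=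
  ⟨(a (c (a (b (c (l 537455887) (l 537344271)) (l 537400591)) (b (c (l 537458959) (l 537347599)) (l 537403663))) (a (b (c (l 537230095) (l 537113103)) (c (l 537233423) (l 537118735))) (b (c (l 537233423) (l 536848143)) (c (l 537236751) (l 537122063))))) (a (c (a (b (l 537405711) (l 537405711)) (l 537138959)) (a (b (l 536909327) (l 537181967)) (c (l 536970767) (l 536855055)))) (c (l 537141775) (b (l 537181967) (l 537186319))))), by decide +kernel⟩

def k67_A00pm_123_s3 : ∃ t, chk3 f_A00pm_123_s3 t 249 111 3 = true :=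
  ⟨(a (b (a (c (b (a (l 16778392) (l 16778296)) (l 537122575)) (b (a (l 16777888) (l 537171215)) (a (l 16777976) (l 16775304)))) (c (b (c (l 537449999) (l 537342479)) (a (l 16778328) (l 537397519))) (b (c (l 536963855) (l 536851215)) (c (l 537235215) (l 536856079))))) (c (a (b (l 16775992) (l 16778760)) (b (l 537131023) (l 16775944))) (a (b (c (l 16778184) (l 16777896)) (c (l 16778296) (l 16777984))) (b (a (l 16777960) (l 16775288)) (c (l 16778168) (l 16775280)))))) (a (b (c (a (b (l 537400591) (l 537400335)) (b (l 537403407) (l 537403151))) (a (b (l 536912143) (l 537184271)) (c (l 536972815) (l 536861199)))) (c (b (l 537137423) (l 537146127)) (b (c (l 536978703) (l 536870159)) (a (l 16775336) (l 537206543))))) (b (a (c (b (l 537406479) (l 537406223)) (b (l 536918543) (l 536921871))) (b (l 537032719) (l 537302799))) (a (c (l 537146639) (c (l 536989455) (l 536881423))) (b (l 537309199) (l 537321999)))))), by decide +kernel⟩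

def k68_A00pm_123_s3 : ∃ t, chk3 f_A00pm_123_s3 t 125 54 3 = true :=
  ⟨(l 4), by decide +kernel⟩

def k69_A00pm_123_s3 : ∃ t, chk3 f_A00pm_123_s3 t 250 55 3 = true :=
  ⟨(b (a (b (a (a (b (l 4) (c (l 537413135) (l 536912399))) (l 4)) (l 4)) (a (c (b (l 537147151) (l 537147151)) (b (a (l 536917007) (l 536920591)) (a (l 536921359) (l 536924687)))) (c (b (a (l 537420559) (l 4)) (c (l 537208591) (l 537099535))) (b (a (c (l 537250575) (l 536865551)) (l 4)) (a (l 537062415) (c (l 537257231) (l 536874255))))))) (l 4)) (a (c (b (a (b (l 537146895) (l 537146639)) (b (l 537153807) (a (l 537147151) (l 537152527)))) (a (b (l 537152783) (l 537166607)) (b (c (l 537216271) (l 537112335)) (l 537180175)))) (b (a (b (c (l 536983311) (l 536870927)) (c (l 536985871) (l 536875279))) (b (a (l 536931855) (c (l 537259791) (l 536878863))) (a (c (l 536986127) (l 536875791)) (b (l 537206031) (l 536940303))))) (a (b (c (l 536994319) (l 536885519)) (c (l 537010191) (l 536902671))) (b (a (l 536947215) (a (l 536951567) (l 536954895)))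 (a (l 537234191) (l 536971535)))))) (c (b (a (b (a (l 537427215) (l 4)) (a (l 537160463) (a (l 537162255) (l 537163023)))) (l 4)) (a (a (a (l 537179151) (l 537180943)) (a (l 537182479) (l 537183247))) (b (a (l 537445903) (l 537178639)) (c (l 537243151) (l 537139983))))) (b (a (b (a (c (l 537263375) (l 537016591)) (l 4)) (c (a (l 536999439) (b (l 536997903) (l 537273359))) (a (b (l 536882447) (l 536892175)) (b (a (l 536886543) (l 4)) (l 536894735))))) (l 4)) (a (a (b (a (l 536958223) (l 536960527)) (l 536976399)) (b (a (l 536962063) (l 536962831)) (c (l 537300751) (l 536924431)))) (b (a (b (l 537093903) (l 536967951)) (c (l 537019407) (b (l 4) (l 536914191)))) (a (c (l 537301775) (l 536925455)) (b (l 537110799) (l 536984335))))))))), by decide +kernel⟩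

def k70_A00pm_123_s3 : ∃ t, chk3 f_A00pm_123_s3 t 251 55 3 = true :=
  ⟨(b (l 4) (b (l 4) (b (l 4) (a (a (a (a (b (l 4) (a (l 537091087) (l 537091343))) (l 4)) (l 4)) (l 4)) (l 4))))), by decide +kernel⟩

def k71_A00pm_123_s3 : ∃ t, chk3 f_A00pm_123_s3 t 63 13 3 = true :=
  ⟨(l 4), by decide +kernel⟩

def k72_A00pm_123_s3 : ∃ t, chk3 f_A00pm_123_s3 t 28 14 1 = true :=
  ⟨(a (b (a (c (b (a (l 16744168) (l 16711048)) (a (l 16719232) (l 16728032))) (b (a (l 16662776) (b (l 16679048) (l 16680216))) (a (l 16663904) (l 16683472)))) (b (c (b (l 16771120) (l 16760248)) (b (l 16704248) (l 16708088))) (c (l 16702240) (l 16695120)))) (a (c (b (a (l 16694400) (l 16703216)) (a (l 16668752) (b (l 16684112) (l 16650064)))) (b (a (l 16668280) (l 16687448)) (a (l 16656888) (c (l 16668536) (l 16661536))))) (b (c (l 16680888) (l 16665304)) (c (b (l 16706320) (l 16695000)) (b (l 16693552) (l 16684016)))))) (b (b (c (b (a (l 16741864) (a (l 16790928) (l 16752568))) (a (l 16775368) (l 16744960))) (a (b (a (l 16729760) (l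 16746856)) (l 16745976)) (b (a (l 16763936) (l 16751008)) (a (l 16763112) (l 16768456))))) (a (c (b (l 16767040) (l 16758792)) (b (l 16747096) (l 16740784))) (c (b (l 16781064) (l 16775288)) (b (l 16719992) (l 16758056))))) (c (b (a (l 16704480) (b (l 16769536) (l 16763616))) (a (b (l 16733544) (l 16724656)) (l 16722808))) (b (a (b (l 16734504) (l 16728048)) (b (l 16754208) (l 16750176))) (a (b (l 16721240) (l 16714112)) (b (l 16745792) (l 16741088))))))), by decide +kernel⟩

def k73_A00pm_123_s3 : ∃ t, chk3 f_A00pm_123_s3 t 112 60 1 = true :=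
  ⟨(c (a (b (l 16627864) (c (b (l 16641072) (l 16602696)) (l 16591232))) (a (b (l 16632752) (c (a (l 16640936) (l 16601672)) (l 16616928))) (b (l 16661752) (b (l 16651856) (l 16645232))))) (a (b (l 16639360) (c (l 16629160) (l 16625576))) (a (b (l 16644232) (a (l 16630736) (l 16633448))) (b (l 16652288) (l 16640648))))), by decide +kernel⟩

def k74_A00pm_123_s3 : ∃ t, chk3 f_A00pm_123_s3 t 112 61 2 = true :=
  ⟨(b (a (a (b (c (c (l 16627104) (l 16624944)) (l 16621944)) (c (b (b (l 16621720) (c (b (a (l 16621240) (l 16622176)) (l 16622032)) (l 16619880))) (l 16622568)) (b (a (l 16595872) (l 16596912)) (l 16618520)))) (b (c (c (l 16629568) (l 16627440)) (l 16624488)) (c (b (c (b (l 16625176) (b (l 16623856) (a (l 16623088) (l 16623904)))) (b (l 16623120) (b (l 16621816) (l 16621504)))) (c (l 16625000) (l 16622912))) (b (a (l 16598000) (l 16599144)) (l 16620024))))) (b (a (a (c (l 16630360) (l 16626408)) (c (c (l 16634152) (l 16632064)) (l 16629160))) (c (l 16640584) (l 16636696))) (a (c (b (a (c (b (l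 16626992) (b (l 16625664) (l 16624848))) (l 16624080)) (a (b (l 16627448) (a (b (l 16625536) (c (l 16625656) (l 16623680))) (l 16626280))) (l 16629088))) (a (l 16624960) (a (a (a (l 16625344) (l 16625696)) (l 16626568)) (l 16628328)))) (b (a (l 16621312) (b (l 16624944) (l 16602304))) (a (l 16621152) (l 16602488)))) (b (c (l 16635496) (l 16631808)) (c (b (a (l 16631296) (l 16636088)) (l 16634704)) (l 16609600)))))) (a (c (c (a (b (l 16627600) (l 16632904)) (b (l 16628960) (l 16634296))) (a (b (l 16625304) (l 16630392)) (b (l 16626728) (l 16631848)))) (c (a (l 16625576) (l 16627088)) (l 16603216))) (c (a (c (a (b (l 16629976) (l 16635336)) (b (a (l 16631040) (l 16633240)) (a (l 16636384) (l 16638512)))) (a (l 16635624) (b (l 16629984) (l 16635088)))) (b (c (l 16638864) (l 16636760)) (c (l 16643944) (l 16641632)))) (a (a (c (l 16628208) (l 16626160)) (b (l 16626992) (l 16631760))) (l 16620384))))), by decide +kernel⟩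

def k75_A00pm_123_s3 : ∃ t, chk3 f_A00pm_123_s3 t 112 61 3 = true :=
  ⟨(b (a (b (c (l 16577728) (l 16616640)) (c (b (c (l 16595032) (l 16572528)) (l 16615808)) (b (l 16612416) (l 16612888)))) (b (a (c (l 16603376) (l 16621392)) (l 16631728)) (a (c (b (a (l 16618088) (l 16599944)) (a (l 16617872) (l 16620240))) (b (l 16616848) (l 16616360))) (c (b (l 16628616) (l 16627400)) (l 16625408))))) (a (c (b (l 16598064) (l 16602368)) (l 16617664)) (c (a (c (l 16604400) (l 16602608)) (l 16611416)) (a (l 16621120) (l 16629120))))), by decide +kernel⟩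

def k76_A00pm_123_s3 : ∃ t, chk3 f_A00pm_123_s3 t 113 30 1 = true :=
  ⟨(b (c (b (c (l 16685952) (l 16681080)) (a (b (l 16665704) (l 16617592)) (l 16638752))) (b (c (l 16676424) (l 16671992)) (c (l 16665880) (l 16662328)))) (b (c (b (a (b (l 16612952) (l 16630832)) (l 16630400)) (a (b (c (l 16650576) (l 16646960)) (c (b (l 16616952) (l 16648416)) (l 16624024))) (c (l 16626784) (l 16623336)))) (b (c (l 16657816) (l 16654848)) (a (c (b (l 16643800) (l 16599968)) (l 16640280)) (c (l 16620304) (l 16659624))))) (c (a (c (a (b (l 16646736) (l 16651408)) (l 16657776)) (c (l 16608472) (l 16648512))) (c (l 16628696) (l 16624928))) (c (a (l 16624896) (l 16621552)) (a (l 16642712) (l 16660504)))))), by decide +kernel⟩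

def k77_A00pm_123_s3 : ∃ t, chk3 f_A00pm_123_s3 t 112 62 1 = true :=
  ⟨(c (a (c (b (c (a (b (l 16638264) (l 16643688)) (b (l 16639688) (l 16645144))) (b (a (l 16635536) (l 16637024)) (a (l 16640736) (l 16642256)))) (c (b (a (l 16649176) (l 16650664)) (a (l 16654720) (l 16656240))) (b (a (l 16645976) (l 16647536)) (a (l 16651280) (l 16652864))))) (c (b (b (l 16633680) (l 16638648)) (b (a (l 16642856) (l 16644480)) (a (l 16647896) (l 16649544)))) (b (b (l 16631184) (l 16635904)) (b (l 16640648) (a (l 16644576) (l 16646296)))))) (c (b (a (c (a (b (l 16640752) (l 16646232)) (b (a (l 16641784) (l 16643840)) (a (l 16647256) (l 16649232)))) (a (b (l 16638136) (l 16643392)) (b (l 16640240) (l 16645440)))) (b (c (l 16649080) (l 16646552)) (c (l 16654272) (l 16651520)))) (c (a (a (b (l 16651776) (l 16657376)) (b (a (l 16652784) (l 16654688)) (a (l 16658376) (l 16660200)))) (b (l 16659528) (l 16664840))) (b (a (a (l 16648688) (l 16650688)) (l 16656536)) (a (a (l 16654048) (l 16655992)) (l 16661600))))) (b (a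 (a (c (l 16638152) (l 16635616)) (c (b (l 16637760) (l 16642720)) (l 16637752))) (b (l 16642944) (l 16647552))) (b (a (a (l 16644216) (c (l 16647720) (l 16644824))) (l 16652192)) (a (a (l 16649168) (c (l 16652760) (l 16649592))) (l 16656864)))))) (a (c (a (b (l 16607992) (b (l 16635400) (l 16639720))) (b (l 16614976) (c (l 16619904) (l 16637904)))) (b (l 16625176) (b (l 16609760) (l 16623952)))) (c (b (a (a (l 16611032) (l 16623704)) (l 16619576)) (a (a (b (l 16638520) (l 16642896)) (b (l 16640632) (l 16623992))) (b (l 16646664) (l 16650760)))) (b (a (c (l 16608760) (l 16627608)) (l 16636200)) (a (a (l 16624552) (l 16626704)) (l 16632704)))))), by decide +kernel⟩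

def k78_A00pm_123_s3 : ∃ t, chk3 f_A00pm_123_s3 t 113 62 1 = true :=
  ⟨(c (b (a (a (c (a (l 16656488) (l 16660544)) (l 16632592)) (b (l 16662000) (l 16671472))) (c (l 16636544) (l 16631936))) (a (a (c (a (l 16671528) (l 16670024)) (l 16641256)) (c (l 16675576) (l 16669792))) (c (l 16644568) (l 16659984)))) (b (c (a (l 16632176) (l 16627632)) (a (l 16648944) (l 16665576))) (c (a (a (l 16635576) (l 16643280)) (l 16654656)) (a (c (l 16635416) (l 16653768)) (l 16649552))))), by decide +kernel⟩

def k79_A00pm_123_s3 : ∃ t, chk3 f_A00pm_123_s3 t 56 126 1 = true :=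
  ⟨(a (c (a (c (b (c (a (l 16660328) (l 16661880)) (a (l 16656624) (l 16658240))) (a (c (l 16666000) (l 16662032)) (c (l 16667584) (l 16663680)))) (b (c (a (l 16652976) (l 16654656)) (a (l 16649368) (l 16651120))) (c (a (l 16658096) (l 16659808)) (a (l 16654200) (l 16655984))))) (c (b (a (a (c (l 16663040) (l 16659448)) (c (a (l 16664024) (l 16665768)) (l 16661344))) (a (l 16666672) (l 16670224))) (a (a (c (l 16668760) (l 16664912)) (a (b (l 16666408) (l 16669208)) (l 16669488))) (a (l 16672056) (l 16675440)))) (a (b (a (c (l 16655912) (l 16652424)) (c (l 16657840) (l 16654392))) (a (c (l 16661088) (l 16657312)) (c (l 16662968) (l 16659224)))) (b (c (l 16663280) (l 16659880)) (c (l 16668168) (l 16664480)))))) (a (c (b (c (b (l 16645576) (l 16647840)) (l 16622280)) (a (c (l 16650344) (l 16646520)) (c (l 16652192) (l 16648440)))) (b (b (l 16616240) (l 16628576)) (c (b (l 16642736) (l 16644688)) (l 16629520)))) (c (a (a (b (l 16647296) (b (l 16650600) (l 16652816))) (b (c (l 16650992) (l 16647640)) (c (l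 16655520) (l 16651848)))) (b (l 16633912) (c (l 16660832) (l 16657224)))) (a (b (c (l 16632832) (l 16619080)) (a (l 16633896) (b (l 16645480) (l 16631600)))) (b (l 16648384) (l 16641384)))))) (c (b (a (c (a (l 16675504) (l 16682432)) (l 16651384)) (b (l 16657008) (l 16658944))) (c (a (a (l 16680472) (l 16687064)) (l 16696768)) (a (a (l 16673208) (l 16679976)) (l 16689936)))) (c (a (b (l 16644920) (c (l 16650352) (l 16646856))) (c (l 16662328) (l 16659144))) (b (a (l 16638632) (l 16653192)) (a (b (l 16640896) (l 16642424)) (l 16655600)))))), by decide +kernel⟩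

def k80_A00pm_123_s3 : ∃ t, chk3 f_A00pm_123_s3 t 112 254 1 = true :=
  ⟨(c (a (c (c (a (l 16671720) (l 16673336)) (a (b (l 16666112) (l 16668848)) (b (l 16667784) (l 16670536)))) (c (a (b (l 16661968) (l 16664560)) (b (l 16663704) (l 16666312))) (a (b (l 16657848) (l 16660296)) (b (l 16659648) (l 16662112))))) (a (c (a (c (l 16674544) (l 16670424)) (c (a (l 16675504) (l 16677088)) (a (l 16671400) (l 16673016)))) (a (c (l 16666320) (l 16662240)) (c (a (l 16667328) (l 16668960)) (b (l 16662872) (l 16665320))))) (c (b (l 16677760) (l 16680448)) (c (l 16673104) (l 16669120))))) (c (c (a (a (b (l 16653752) (l 16656040)) (b (l 16655624) (l 16657928))) (a (a (l 16658184) (b (l 16658928) (l 16661216))) (b (l 16664072) (l 16666248)))) (a (b (a (l 16649688) (l 16651624)) (a (l 16651808) (l 16653760))) (a (a (l 16654144) (b (l 16655016) (l 16657136))) (b (l 16660216) (l 16662224))))) (c (a (b (a (l 16645648) (l 16647648)) (a (l 16647600) (l 16649616))) (a (a (l 16655376) (b (l 16651120) (a (l 16652224) (l 16653920))))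 (l 16641584))) (a (b (l 16632176) (a (l 16643408) (l 16645488))) (a (a (l 16635664) (b (l 16647256) (l 16638544))) (l 16642928)))))), by decide +kernel⟩

def k81_A00pm_123_s3 : ∃ t, chk3 f_A00pm_123_s3 t 112 255 2 = true :=
  ⟨(a (c (b (c (a (l 16676048) (l 16677688)) (a (l 16671608) (l 16673312))) (c (a (l 16678960) (l 16680616)) (a (l 16674376) (l 16676096)))) (b (c (a (l 16667176) (l 16668944)) (a (c (l 16663856) (l 16661648)) (l 16664584))) (c (a (b (l 16669136) (l 16670456)) (b (l 16670920) (l 16672240))) (a (b (l 16664600) (c (l 16666992) (l 16664688))) (b (l 16666448) (c (l 16668832) (l 16666552))))))) (b (c (a (a (l 16676752) (c (l 16680624) (l 16676336))) (a (l 16681592) (l 16684696))) (a (a (c (l 16670264) (l 16665952)) (c (l 16672048) (a (l 16666976) (l 16668576)))) (c (l 16676824) (l 16672624)))) (a (c (a (b (l 16678896) (l 16680336)) (c (l 16683536) (l 16679104))) (c (a (l 16672912) (a (l 16673904) (l 16675440))) (a (l 16668456) (a (a (l 16669104) (l 16669832)) (l 16671024))))) (c (c (l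 16688048) (b (l 16683024) (l 16684352))) (b (c (l 16678704) (l 16674384)) (c (l 16679960) (a (l 16674000) (l 16677112)))))))), by decide +kernel⟩

def k82_A00pm_123_s3 : ∃ t, chk3 f_A00pm_123_s3 t 112 510 3 = true :=
  ⟨(c (a (b (c (a (l 16657768) (l 16659656)) (a (l 16653408) (l 16655368))) (c (a (l 16658920) (l 16660816)) (a (l 16654480) (l 16656440)))) (a (a (c (l 16661656) (l 16657376)) (c (c (l 16664584) (l 16662456)) (a (b (l 16657912) (l 16658984)) (l 16660088)))) (c (l 16668432) (a (l 16662584) (l 16665888))))) (a (c (a (a (l 16649048) (l 16650064)) (a (l 16651080) (l 16652088))) (c (a (l 16646272) (l 16648352)) (a (l 16644088) (l 16646200)))) (a (c (a (l 16653096) (a (c (l 16655264) (l 16653136)) (l 16655856))) (a (b (l 16648384) (l 16649288)) (c (a (l 16651024) (l 16652696)) (l 16639264)))) (c (a (l 16658384) (l 16661736)) (l 16645416))))), by decide +kernel⟩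

def k83_A00pm_123_s3 : ∃ t, chk3 f_A00pm_123_s3 t 224 511 3 = true :=
  ⟨(c (c (a (a (c (l 16661320) (l 16659032)) (c (l 16662272) (l 16659992))) (a (c (l 16663216) (l 16660960)) (c (l 16664168) (l 16661920)))) (b (a (c (l 16656680) (l 16654416)) (c (l 16658632) (l 16656408))) (a (c (a (l 16657280) (l 16658264)) (a (l 16654968) (l 16655968))) (c (a (l 16659248) (l 16660224)) (a (l 16656968) (l 16657960)))))) (b (c (a (c (l 16652160) (a (l 16649384) (l 16650416))) (c (l 16654176) (a (l 16651440) (l 16652464)))) (a (a (c (l 16647120) (l 16644856)) (c (l 16648168) (l 16645920))) (a (c (l 16649208) (l 16646976)) (c (l 16650248) (l 16648032))))) (b (c (a (c (a (l 16652408) (l 16653424)) (a (l 16650104) (l 16651136))) (c (a (l 16654432) (l 16655448)) (a (l 16652168) (l 16653192)))) (a (c (a (l 16647808) (l 16648856)) (a (l 16645512) (l 16646576))) (c (a (l 16649904) (l 16650944)) (a (l 16647632) (l 16648696))))) (c (a (c (a (b (l 16652784) (l 16653032)) (l 16653928)) (a (a (l 16650328) (l 16650848)) (a (l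 16651360) (l 16651880)))) (c (a (l 16654944) (l 16655952)) (a (a (l 16652392) (l 16652912)) (b (l 16653560) (l 16651176))))) (a (c (a (a (c (l 16648584) (l 16647424)) (c (l 16649104) (l 16647952))) (b (l 16649200) (c (l 16650008) (l 16648848)))) (c (a (a (l 22) (l 16646792)) (a (l 16647320) (l 16647848))) (l 22))) (c (a (b (l 16650248) (c (l 16651048) (l 16649904))) (c (l 16651976) (l 16650840))) (a (a (c (l 16648376) (l 22)) (c (l 16648912) (l 16647768))) (a (c (l 16649440) (l 16648296)) (c (l 16649960) (l 16648832)))))))))), by decide +kernel⟩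

def k84_A00pm_123_s3 : ∃ t, chk3 f_A00pm_123_s3 t 450 511 3 = true :=
  ⟨(b (c (a (c (l 16663408) (l 16658992)) (c (a (a (l 16664080) (l 16664824)) (l 16666040)) (a (a (l 16659688) (l 16660440)) (l 16661680)))) (c (a (c (l 16655688) (l 16653488)) (a (a (a (l 16655160) (l 16655440)) (l 16656064)) (l 16657320))) (a (c (l 16651288) (l 16649088)) (a (a (a (l 16650776) (l 16651064)) (l 16651696)) (l 16652960))))) (c (a (c (l 16661960) (c (l 16661208) (l 16658960))) (a (c (a (a (l 16665112) (l 16665384)) (l 16665984)) (a (a (l 16660632) (l 16660912)) (b (l 16661248) (l 16661792)))) (c (l 16667192) (b (l 16662472) (l 16663008))))) (b (c (a (c (l 16656456) (l 16654216)) (a (a (a (l 16655904) (l 16656192)) (l 16656808)) (l 16658048))) (a (c (l 16651984) (l 16649752)) (a (a (a (c (l 16652568) (l 16650344)) (c (l 16652856) (l 16650632))) (l 16649744)) (c (l 16654728) (l 16652520))))) (b (c (a (c (l 16656832) (l 16654584)) (a (a (a (l 16656280) (l 16656560)) (l 16657176)) (l 16658416))) (a (c (l 16652328) (c (l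 16650640) (l 16649512))) (a (a (a (c (l 16652920) (l 16650672)) (c (l 16653200) (l 16650960))) (c (l 16653824) (l 16651584))) (c (l 16655072) (l 16652840))))) (a (c (c (l 16657088) (l 16654824)) (c (c (l 16653128) (l 16652000)) (c (l 16650864) (a (l 16649472) (l 16650000))))) (c (a (a (a (c (l 16657656) (l 16655408)) (c (l 16657936) (l 16655688))) (c (l 16658552) (l 16656304))) (c (l 16659776) (l 16657536))) (a (a (a (c (l 16653152) (l 16650896)) (c (l 16653432) (l 16651176))) (c (l 16654056) (l 16651808))) (c (l 16655296) (a (l 16652640) (l 16653472)))))))))), by decide +kernel⟩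

def k85_A00pm_123_s3 : ∃ t, chk3 f_A00pm_123_s3 t 451 511 3 = true :=
  ⟨(b (c (c (l 16670072) (l 16665760)) (c (a (l 16659800) (l 16663088)) (a (l 16655480) (l 16658808)))) (b (c (c (l 16670896) (c (l 16667608) (l 16665424))) (c (a (l 16660512) (l 16663768)) (c (l 16658864) (l 16654056)))) (c (a (c (l 16669864) (c (l 16666528) (l 16664312))) (c (l 16673008) (c (l 16669712) (l 16667520)))) (b (c (c (l 16663592) (a (l 16659760) (l 16663008))) (c (a (l 16657544) (l 16660816)) (a (l 16655328) (l 16658624)))) (c (c (a (l 16662216) (l 16665432)) (a (a (l 16659176) (l 16660800)) (b (l 16663176) (l 16663288)))) (c (a (a (l 16656944) (l 16658584)) (a (l 16660216) (l 16661832))) (a (a (c (l 16655272) (l 16654152)) (c (l 16656920) (l 16655808))) (a (c (l 16658552) (l 16657448)) (c (l 16660184) (l 16659080)))))))))), by decide +kernel⟩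

def k86_A00pm_123_s3 : ∃ t, chk3 f_A00pm_123_s3 t 113 127 2 = true :=
  ⟨(b (a (c (a (l 16685496) (l 16691768)) (a (c (l 16679624) (l 16675736)) (l 16684128))) (c (b (l 16699920) (l 16702064)) (b (l 16692680) (l 16694528)))) (b (a (c (a (l 16689296) (l 16695336)) (a (l 16681056) (l 16687264))) (c (a (l 16701280) (l 16707128)) (a (l 16693368) (l 16699360)))) (c (a (a (c (l 16693992) (l 16689728)) (c (l 16699840) (l 16695664))) (a (c (l 16705592) (l 16701496)) (l 16703992))) (b (a (a (c (l 16684864) (l 16680640)) (c (l 16690928) (l 16686776))) (a (l 16694832) (l 16700704))) (a (c (a (l 16686048) (l 16692024)) (a (a (l 16680200) (l 16683264)) (b (l 16687544) (l 16688056)))) (a (c (l 16697896) (l 16693736)) (c (l 16703648) (l 16699560)))))))), by decide +kernel⟩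

def k87_A00pm_123_s3 : ∃ t, chk3 f_A00pm_123_s3 t 113 127 3 = true :=
  ⟨(b (c (a (c (l 16654208) (l 16655640)) (b (l 16685488) (l 16687024))) (a (c (l 16657080) (b (l 16663064) (l 16643520))) (c (l 16659808) (l 16656168)))) (c (a (b (b (a (l 16672352) (l 16678768)) (a (l 16673320) (l 16679656))) (b (a (c (l 16676408) (l 16672184)) (c (l 16682624) (l 16678480))) (c (a (b (l 16677176) (c (l 16678768) (l 16676600))) (a (l 16682040) (l 16685080))) (a (b (l 16672880) (a (c (l 16672864) (l 16670688)) (a (l 16674128) (l 16675680)))) (b (l 16679112) (a (b (l 16677888) (l 16678112)) (l 16681064))))))) (a (b (l 16685464) (a (b (l 16685160) (c (l 16688080) (l 16683896))) (c (l 16690640) (l 16686528)))) (b (l 16691592) (b (l 16692680) (c (l 16695464) (l 16691344)))))) (b (a (a (c (l 16666696) (l 16662608)) (c (l 16673184) (l 16669176))) (c (l 16666944) (l 16668272))) (b (a (a (c (l 16667960) (l 16663736)) (c (l 16674320) (l 16670168))) (a (c (l 16680552) (l 16676456)) (a (l 16683104) (l 16686120)))) (b (a (c (a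 (c (l 16669664) (l 16667512)) (a (l 16673328) (l 16676440))) (c (a (l 16665368) (l 16671720)) (a (l 16663216) (l 16669608)))) (c (a (l 16681056) (l 16687072)) (a (l 16676888) (l 16682968)))) (a (c (c (a (a (l 16668512) (l 16671664)) (a (l 16674784) (l 16677872))) (a (b (l 16667824) (a (l 16666432) (l 16669608))) (a (l 16672640) (l 16675744)))) (a (c (c (a (l 16664696) (l 16667880)) (a (l 16663608) (l 16666800))) (c (b (l 16664032) (a (l 16662608) (l 16665808))) (a (a (l 16660616) (l 16662232)) (l 16664640)))) (a (b (l 16669344) (c (l 16670584) (l 16668432))) (c (l 16673616) (l 16671488))))) (a (c (a (l 16679872) (l 16682896)) (a (b (l 16675568) (l 16675720)) (l 16678696))) (c (l 16687368) (l 16677968))))))))), by decide +kernel⟩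

def k88_A00pm_123_s3 : ∃ t, chk3 f_A00pm_123_s3 t 57 30 1 = true :=
  ⟨(b (c (a (b (l 16715576) (c (l 16708352) (l 16704432))) (b (l 16744360) (l 16695664))) (a (b (c (l 16708856) (l 16704544)) (c (l 16700744) (l 16697280))) (b (c (l 16738120) (l 16734032)) (c (l 16732432) (l 16729168))))) (c (a (b (a (c (l 16647904) (l 16644480)) (l 16663824)) (a (c (l 16645512) (l 16641992)) (c (l 16661992) (l 16658720)))) (b (a (l 16680680) (l 16696648)) (b (c (l 16685896) (l 16683152)) (l 16684952)))) (a (a (b (c (l 16683336) (b (l 16682640) (l 16678472))) (c (l 16659792) (b (l 16676952) (l 16678896)))) (b (c (l 16701184) (l 16698488)) (c (l 16676736) (b (l 16694496) (l 16695664))))) (b (c (a (l 16718248) (l 16734480)) (a (l 16715632) (l 16731984))) (c (b (c (l 16723200) (l 16701048)) (l 16722664)) (b (a (c (l 16712288) (l 16711208)) (c (l 16729064) (l 16728048))) (c (l 16720760) (l 16719560)))))))), by decide +kernel⟩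

def k89_A00pm_123_s3 : ∃ t, chk3 f_A00pm_123_s3 t 57 31 2 = true :=
  ⟨(b (a (b (a (c (l 16693960) (l 16689640)) (l 16685984)) (a (b (l 16654472) (l 16678608)) (b (l 16710632) (l 16713144)))) (b (c (l 16709928) (l 16685344)) (b (l 16720768) (l 16722312)))) (a (a (b (c (b (l 16705800) (l 16709320)) (b (l 16699816) (l 16702800))) (b (c (b (l 16712024) (l 16713856)) (b (l 16705064) (l 16706600))) (c (a (b (l 16712864) (l 16714824)) (l 16719408)) (a (c (l 16708008) (l 16704104)) (a (l 16710320) (l 16713136)))))) (b (c (b (l 16718576) (l 16721488)) (l 16693104)) (b (c (l 16724488) (l 16717608)) (c (a (l 16724864) (l 16730208)) (a (l 16717296) (l 16722736)))))) (b (a (b (l 16728240) (l 16730224)) (c (l 16743800) (l 16738216))) (c (b (l 16720072) (a (l 16738032) (l 16748048))) (b (l 16713472) (a (l 16730688) (l 16740840))))))), by decide +kernel⟩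

def k90_A00pm_123_s3 : ∃ t, chk3 f_A00pm_123_s3 t 57 31 3 = true :=
  ⟨(b (a (b (c (b (l 16692440) (l 16652592)) (a (l 16639872) (l 16676704))) (c (a (l 16648456) (l 16662768)) (a (l 16664592) (l 16679144)))) (c (b (l 16702904) (c (l 16684512) (l 16703304))) (b (a (l 16692112) (l 16707048)) (a (l 16693200) (l 16706704))))) (b (b (a (c (l 16679760) (c (l 16675520) (l 16683224))) (c (l 16705416) (c (l 16701456) (l 16719800)))) (a (c (c (l 16683400) (l 16680248)) (a (l 16669016) (l 16681856))) (c (l 16716600) (a (l 16694144) (l 16716360))))) (a (b (c (a (b (l 16698144) (l 16699344)) (l 16710728)) (a (c (l 16693440) (l 16668944)) (b (l 16703576) (l 16683096)))) (a (a (b (c (l 16697584) (l 16689912)) (c (c (l 16700872) (l 16696864)) (b (l 16690592) (c (l 16693080) (l 16688992))))) (b (c (l 16703448) (l 16695864)) (c (l 16699328) (a (l 16695168) (l 16698024))))) (c (c (l 16693384) (l 16689576)) (c (l 16690984) (a (l 16700032) (l 16705632)))))) (c (b (c (l 16708472) (l 16715608)) (a (c (l 16725104) (l 16721352))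 (l 16712520))) (a (b (c (l 16717112) (l 16692744)) (b (c (l 16717456) (l 16713752)) (c (l 16717688) (a (l 16711136) (l 16716360))))) (b (c (l 16728120) (l 16714264)) (c (b (l 16727936) (l 16727816)) (b (l 16724264) (c (l 16724904) (l 16725576)))))))))), by decide +kernel⟩

def k91_A00pm_123_s3 : ∃ t, chk3 f_A00pm_123_s3 t 58 28 1 = true :=
  ⟨(b (a (b (c (a (b (l 16756192) (l 16796088)) (a (l 16777440) (c (l 16803672) (l 16783224)))) (c (a (l 16780888) (b (l 16772728) (l 16782616))) (a (l 16763888) (b (l 16766592) (l 16771672))))) (c (a (l 16793080) (l 16795976)) (a (l 16772920) (l 16755488)))) (b (c (a (b (b (a (l 16778768) (l 16799160)) (a (l 16778416) (l 16778328))) (l 16788432)) (b (l 16787984) (b (a (l 16788368) (l 16788072)) (a (l 16798848) (l 16787968))))) (a (b (a (b (c (l 16784144) (l 16773056)) (l 16768048)) (c (l 16784312) (l 16773616))) (c (l 16784080) (l 16773528))) (b (c (l 16784248) (l 16774128)) (b (c (a (l 16784368) (l 16784552)) (a (l 16774056) (l 16774584))) (a (l 16779616) (c (l 16784560)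 (l 16774664))))))) (c (a (b (l 16798200) (l 16797496)) (b (l 16788216) (l 16798656))) (a (b (l 16778976) (l 16779128)) (c (l 16785368) (l 16775888)))))) (a (c (b (l 16749416) (l 16788104)) (b (a (l 16770784) (l 16775576)) (l 16729960))) (c (b (a (l 16796480) (l 16798616)) (l 16776032)) (b (a (l 16779424) (l 16761336)) (a (l 16779872) (l 16784008)))))), by decide +kernel⟩

def k92_A00pm_123_s3 : ∃ t, chk3 f_A00pm_123_s3 t 59 56 1 = true :=
  ⟨(a (c (b (a (b (l 16797128) (b (l 16797480) (a (l 16787672) (l 16797400)))) (b (l 16795824) (l 16785792))) (a (b (a (b (l 16787672) (l 16798488)) (b (a (l 16787304) (l 16787104)) (l 16798000))) (l 16788256)) (b (c (b (l 16800472) (a (l 16801128) (l 16800376))) (b (l 16792784) (a (l 16788040) (l 16792872)))) (a (l 16787592) (b (b (a (l 16786448) (l 16786152)) (l 16791752)) (l 16797640)))))) (b (a (b (l 16779488) (a (c (l 16784704) (l 16775144)) (l 16779904))) (c (l 16784136) (l 16775648))) (a (b (a (c (l 16785104) (l 16775744)) (b (c (l 16784848) (l 16775688)) (l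 16780888))) (c (l 16786352) (l 16777528))) (b (c (b (l 16784664) (a (b (l 16784936) (l 16785040)) (l 16784936))) (b (l 16776104) (a (b (l 16776168) (l 16776320)) (l 16776576)))) (a (c (l 16786200) (l 16777728)) (b (b (c (l 16785080) (l 16776744)) (c (l 16785392) (l 16777128))) (l 16782248))))))) (c (a (b (l 16784216) (a (b (l 16795728) (c (b (l 16799792) (a (l 16800416) (l 16799720))) (b (l 16792672) (a (l 16793304) (l 16792736))))) (b (l 16795024) (b (l 16795384) (c (b (l 16798968) (l 16799144)) (b (l 16792216) (l 16792408))))))) (b (l 16782816) (b (l 16788712) (c (l 16797456) (l 16791288))))) (a (c (b (l 16783960) (b (l 16784544) (b (a (l 16785136) (l 16784824)) (a (b (l 16785272) (l 16785904)) (a (l 16785264) (l 16785160)))))) (b (l 16776312) (b (l 16776832) (b (a (l 16777192) (l 16777312)) (a (b (l 16777376) (l 16778096)) (b (l 16777552) (l 16777784))))))) (b (b (l 16780192) (l 16780544)) (c (b (l 16784328) (l 16784768)) (b (l 16777472) (l 16777896))))))), by decide +kernel⟩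

def k93_A00pm_123_s3 : ∃ t, chk3 f_A00pm_123_s3 t 59 57 1 = true :=
  ⟨(a (c (b (a (l 16789200) (b (l 16788504) (l 16800272))) (a (l 16800944) (l 16802224))) (c (b (a (l 16788208) (l 16778336)) (l 16781320)) (b (a (l 16780048) (l 16781112)) (a (l 16783464) (l 16785768))))) (b (a (b (c (a (l 16787488) (a (l 16791984) (b (c (l 16799208) (l 16792632)) (l 16797176)))) (b (a (l 16783000) (a (l 16782552) (c (l 16785680) (l 16778352)))) (c (l 16787680) (l 16780360)))) (c (l 16788944) (c (l 16789576) (l 16782560)))) (b (c (b (c (a (a (b (l 16798568) (l 16798752)) (l 16798232)) (l 16797360)) (a (a (b (l 16792104) (l 16792336)) (l 16791968)) (l 16791384))) (a (c (l 16799192) (l 16792968)) (a (b (c (l 16797888) (l 16791832)) (c (l 16798344) (l 16792344))) (b (l 16794408) (b (c (l 16792248) (l 16786376)) (a (l 16794952) (c (l 16797408) (l 16791592)))))))) (a (b (c (b (l 16785288) (a (l 16785552) (l 16785352))) (b (l 16778192) (a (l 16778408) (l 16778376)))) (c (l 16786392) (l 16779456))) (a (b (l 16784368) (b (c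 (l 16785424) (l 16778672)) (l 16785328))) (b (l 16781792) (b (l 16787216) (c (b (l 16785408) (l 16785552)) (l 16778976))))))) (a (c (l 16787544) (c (l 16788720) (l 16782080))) (c (b (c (l 16798888) (l 16793080)) (l 16786920)) (c (l 16787776) (l 16781408)))))) (c (a (b (l 16801376) (l 16803320)) (b (a (l 16800472) (l 16789000)) (l 16781640))) (a (b (l 16767880) (l 16791600)) (b (a (l 16788648) (l 16777664)) (a (l 16791872) (l 16791688))))))), by decide +kernel⟩

def k94_A00pm_123_s3 : ∃ t, chk3 f_A00pm_123_s3 t 29 29 1 = true :=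
  ⟨(a (a (b (c (b (l 16784864) (l 16781448)) (b (l 16728576) (l 16768936))) (c (c (l 16778240) (l 16773408)) (c (l 16768464) (l 16742440)))) (b (c (b (l 16796320) (l 16795448)) (b (c (l 16786584) (l 16779704)) (c (l 16787016) (l 16781088)))) (c (b (l 16794264) (l 16792808)) (c (l 16766104) (a (l 16778016) (l 16786664)))))) (a (b (c (b (l 16782664) (l 16784352)) (b (a (l 16790120) (l 16751520)) (a (l 16792880) (l 16797488)))) (c (c (l 16809232) (l 16784584)) (c (a (l 16798400) (l 16804680)) (a (l 16794272) (l 16800808))))) (b (c (b (a (l 16806224) (l 16796048)) (a (l 16809912) (l 16811568))) (b (a (c (l 16798472) (l 16792960)) (c (l 16799392) (l 16794312))) (a (l 16780024) (c (l 16805488) (l 16801160))))) (c (a (l 16794000) (a (l 16775912) (l 16798464))) (a (c (l 16809864) (l 16785288)) (c (l 16792920) (b (l 16807464) (l 16813224)))))))), by decide +kernel⟩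

def k95_A00pm_123_s3 : ∃ t, chk3 f_A00pm_123_s3 t 58 30 1 = true :=
  ⟨(a (c (b (b (l 16769640) (l 16765336)) (b (l 16740048) (a (l 16728832) (l 16743792)))) (b (a (c (l 16755944) (l 16752512)) (c (l 16768624) (l 16754904))) (b (c (l 16715304) (a (l 16747448) (l 16761984))) (c (a (l 16746216) (l 16761360)) (a (b (l 16739488) (l 16743520)) (b (l 16760016) (l 16758432))))))) (b (c (b (l 16791184) (l 16789472)) (a (c (l 16780360) (l 16766816)) (b (l 16789560) (l 16789600)))) (c (b (l 16787720) (a (l 16779136) (l 16792816))) (b (c (l 16784272) (a (l 16775584) (l 16788120))) (c (a (l 16775832) (b (l 16789744) (l 16788872))) (b (a (l 16774304) (l 16787648)) (a (c (l 16773376) (l 16772336)) (b (a (l 16773480) (l 16780136)) (l 16786248))))))))), by decide +kernel⟩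

def k96_A00pm_123_s3 : ∃ t, chk3 f_A00pm_123_s3 t 58 31 1 = true :=
  ⟨(c (b (a (b (c (l 16758696) (l 16755512)) (c (l 16717560) (l 16734320))) (b (c (l 16785136) (l 16782176)) (c (l 16783040) (l 16779008)))) (a (a (b (l 16731352) (c (l 16757072) (l 16729344))) (b (l 16742224) (c (l 16766400) (l 16738760)))) (b (a (l 16752568) (l 16762352)) (c (l 16758392) (b (l 16752592) (l 16751016)))))) (b (c (a (b (c (l 16753208) (l 16751704)) (c (l 16731184) (l 16750080))) (a (b (l 16772592) (l 16748144)) (b (l 16785520) (l 16759512)))) (a (b (a (l 16721456) (l 16756312)) (a (c (l 16741672) (l 16718640)) (c (l 16754096) (l 16741560)))) (b (a (c (l 16770416) (l 16768976)) (b (l 16784064) (l 16781040))) (a (c (l 16745056) (l 16763960)) (c (l 16777376) (a (l 16751520) (l 16757040))))))) (c (a (b (a (l 16723136) (l 16734112)) (a (b (l 16743568) (l 16727480)) (a (l 16734832) (l 16739432)))) (b (a (l 16744520) (l 16754336)) (a (b (l 16762688) (l 16739800)) (b (l 16771288) (l 16747616))))) (b (a (a (c (l 16719000) (c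 (l 16716920) (l 16726016))) (c (l 16729992) (b (l 16749152) (l 16726192)))) (a (c (l 16750880) (a (l 16745544) (l 16750576))) (c (l 16760680) (b (l 16759624) (l 16756064))))) (c (a (a (b (l 16738592) (b (l 16737872) (l 16737384))) (b (l 16748464) (c (l 16747696) (l 16745816)))) (b (a (l 16757720) (l 16766304)) (a (l 16744728) (l 16752528)))) (a (b (a (a (l 16732640) (l 16737744)) (c (l 16745944) (l 16733768))) (a (b (l 16723720) (a (l 16731160) (l 16735792))) (b (l 16733032) (a (l 16740256) (l 16744544))))) (a (b (c (l 16755192) (l 16743008)) (a (b (l 16750048) (l 16748672)) (b (l 16754200) (l 16752632)))) (a (b (l 16760816) (c (l 16758272) (l 16745864))) (b (l 16764936) (c (l 16762008) (b (l 16761088) (l 16759072)))))))))))), by decide +kernel⟩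

def k97_A00pm_123_s3 : ∃ t, chk3 f_A00pm_123_s3 t 59 30 1 = true :=
  ⟨(c (a (b (c (l 16810704) (l 16787128)) (b (l 16789720) (a (l 16805656) (l 16796528)))) (b (a (l 16800016) (c (l 16828632) (l 16826240))) (a (c (l 16827912) (l 16804704)) (c (l 16836664) (l 16792432))))) (b (a (c (a (l 16800888) (l 16809592)) (b (l 16780600) (a (l 16798696) (l 16808008)))) (a (c (l 16796224) (b (l 16812568) (l 16816200))) (c (b (l 16821280) (l 16825824)) (b (l 16797504) (c (l 16781960) (l 16812096)))))) (a (c (b (a (l 16801872) (l 16812352)) (a (b (l 16802144) (l 16802040)) (c (l 16814648) (l 16803000)))) (a (b (l 16799608) (b (l 16799944) (a (b (l 16796928) (l 16790952)) (b (l 16803016) (b (l 16797800) (l 16802368)))))) (b (c (l 16810608) (l 16809424)) (b (c (l 16811776) (l 16810592)) (c (b (l 16812264) (l 16812384)) (b (l 16811056) (a (b (l 16808424) (l 16808016)) (b (l 16814024) (a (l 16802104) (l 16810256)))))))))) (b (a (c (l 16821752) (a (l 16817096) (l 16810968))) (c (l 16829976) (c (l 16807112) (b (l 16804808)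 (l 16817232))))) (c (a (l 16814016) (l 16812752)) (c (a (b (l 16821912) (l 16812672)) (b (l 16809872) (l 16822032))) (a (b (a (l 16818224) (l 16822960)) (c (a (l 16819608) (l 16824536)) (a (b (l 16818664) (l 16819160)) (l 16823856)))) (a (b (l 16827384) (a (l 16827720) (l 16829976))) (b (l 16820992) (a (l 16826904) (a (l 16828480) (l 16829504)))))))))))), by decide +kernel⟩

def k98_A00pm_123_s3 : ∃ t, chk3 f_A00pm_123_s3 t 59 31 2 = true :=
  ⟨(b (a (c (c (l 16766064) (l 16764392)) (b (l 16764968) (l 16800640))) (a (b (l 16783344) (l 16775296)) (b (a (l 16791312) (l 16796376)) (l 16784336)))) (a (b (a (l 16771512) (l 16801032)) (c (l 16794376) (b (l 16768512) (l 16765328)))) (a (c (l 16786760) (b (l 16806376) (l 16797552))) (b (l 16795336) (c (l 16809528) (l 16803192)))))), by decide +kernel⟩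

def k99_A00pm_123_s3 : ∃ t, chk3 f_A00pm_123_s3 t 118 62 3 = true :=
  ⟨(b (c (a (l 16797904) (l 16809768)) (c (a (l 16795680) (c (l 16807864) (l 16807096))) (b (a (l 16798768) (a (l 16805320) (l 16811272))) (a (l 16792168) (c (l 16803960) (l 16805720)))))) (c (a (l 16791304) (l 16801504)) (a (c (l 16788160) (b (l 16788096) (l 16783912))) (c (l 16798312) (b (l 16801240) (l 16793608)))))), by decide +kernel⟩

def k100_A00pm_123_s3 : ∃ t, chk3 f_A00pm_123_s3 t 119 62 3 = true :=
  ⟨(c (a (b (c (l 16821592) (l 16799080)) (l 16811096)) (b (c (l 16811008) (b (l 16822832) (l 16786080))) (l 16799128))) (b (c (a (b (b (l 16812000) (l 16820072)) (l 16816040)) (b (b (a (l 16820224) (l 16825232)) (l 16809960)) (l 16815760))) (a (c (b (a (l 16817336) (b (l 16824264) (l 16821656))) (l 16814720)) (b (a (a (l 16815240) (a (l 16817352) (l 16818728))) (b (b (c (l 16824400) (b (l 16824280) (l 16823912))) (l 16823072)) (l 16820864))) (a (l 16811184) (l 16816400)))) (c (b (b (b (a (l 16830072) (l 16834584)) (a (l 16829304)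 (a (l 16833280) (l 16825296)))) (a (l 16827056) (l 16821832))) (a (l 16822376) (l 16816824))) (b (a (c (b (b (l 16829520) (l 16828736)) (l 16826448)) (b (b (a (l 16827960) (l 16830312)) (a (l 16827048) (l 16829712))) (l 16828664))) (a (b (b (l 16832728) (b (a (l 16832272) (l 16833504)) (l 16832264))) (l 16824936)) (b (b (l 16834888) (c (b (l 16835400) (l 16824568)) (b (c (l 16835104) (l 16832280)) (c (l 16829512) (a (l 16833944) (l 16832584)))))) (b (l 16828384) (l 16831904))))) (a (c (l 16821688) (l 16823848)) (b (a (l 16826840) (l 16829312)) (l 16824664))))))) (b (c (a (l 16810592) (l 16819952)) (c (a (l 16809040) (a (l 16816072) (l 16820584))) (a (a (l 16805560) (l 16810352)) (a (l 16815000) (c (l 16819768) (l 16821840)))))) (c (a (l 16805080) (l 16813608)) (a (c (l 16803288) (l 16802072)) (a (l 16809080) (c (l 16813792) (l 16812544)))))))), by decide +kernel⟩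

def k101_A00pm_123_s3 : ∃ t, chk3 f_A00pm_123_s3 t 59 63 3 = true :=
  ⟨(a (c (b (a (l 16763512) (l 16793032)) (a (b (l 16779256) (l 16754792)) (c (l 16786192) (l 16772232)))) (c (b (a (l 16780312) (c (l 16789536) (l 16788112))) (a (b (l 16774256) (l 16759696)) (b (l 16781576) (l 16766232)))) (b (a (b (l 16769144) (c (l 16776024) (l 16764008))) (b (l 16788512) (c (l 16784120) (l 16777328)))) (a (b (a (l 16768904) (l 16762224)) (b (a (l 16765688) (l 16769208)) (c (l 16766216) (a (l 16762552) (l 16765864))))) (a (b (l 16765864) (b (l 16772560) (a (l 16769248) (l 16770792)))) (b (l 16769360) (b (l 16775768) (a (l 16772296) (l 16773768))))))))) (c (a (b (l 16780000) (c (l 16792512) (l 16789040))) (a (b (l 16806512) (l 16774144)) (b (l 16810024) (l 16782064)))) (c (b (a (a (l 16794792) (l 16798592)) (b (l 16807216) (l 16800808))) (a (b (l 16767312) (c (l 16783592) (l 16771208))) (b (l 16783904) (c (l 16788896) (l 16776504))))) (b (a (a (b (l 16794752) (l 16788992)) (b (l 16798736) (l 16782088))) (a (b (l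 16802568) (l 16790760)) (b (l 16806248) (a (l 16798480) (l 16789600))))) (c (a (b (l 16775208) (a (l 16778336) (l 16781144))) (a (b (l 16790304) (l 16783800)) (b (l 16793200) (l 16775816)))) (b (a (a (l 16771824) (l 16775008)) (a (l 16783296) (c (l 16791872) (l 16785744)))) (b (a (a (l 16777864) (l 16780768)) (c (l 16780088) (a (l 16783040) (l 16785648)))) (a (a (c (l 16775400) (l 16774400)) (c (l 16778112) (l 16777104))) (a (a (l 16779544) (l 16780792)) (a (l 16782000) (l 16783168))))))))))), by decide +kernel⟩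

def k102_A00pm_123_s3 : ∃ t, chk3 f_A00pm_123_s3 t 60 28 1 = true :=
  ⟨(a (c (a (a (b (b (l 16792232) (b (l 16792872) (l 16793328))) (b (b (a (b (l 16793856) (c (l 16796968) (l 16791280))) (l 16793608)) (b (a (b (c (a (l 16792136) (l 16791816)) (a (l 16786440) (l 16786200))) (l 16795128)) (b (l 16794008) (c (l 16791648) (l 16786192)))) (l 16795760))) (b (l 16787440) (l 16800816)))) (b (b (l 16791504) (l 16792368)) (b (b (l 16793048) (b (a (l 16793744) (l 16793208)) (b (a (l 16793984) (l 16793520)) (l 16794192)))) (b (l 16796056) (l 16798872))))) (b (b (l 16790408) (l 16791240)) (b (a (b (l 16792296) (a (l 16793200) (l 16792576))) (l 16791792)) (b (a (b (a (l 16793912) (l 16793160)) (l 16794928)) (b (l 16792640) (l 16793048))) (l 16796072))))) (a (b (b (l 16780528) (c (l 16784296) (l 16778288))) (b (b (a (c (a (l 16785160) (l 16785016)) (l 16778920)) (l 16782056)) (a (b (a (b (c (a (l 16785664) (l 16780256)) (l 16779288)) (l 16783328)) (b (l 16785032) (c (l 16785680) (l 16779616)))) (l 16786992)) (b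 (a (l 16782560) (l 16782440)) (b (a (l 16782904) (l 16782776)) (l 16783416))))) (b (c (l 16789152) (l 16783584)) (l 16779496)))) (b (b (l 16780632) (l 16781464)) (b (a (b (l 16782120) (a (l 16782856) (l 16782624))) (l 16782416)) (b (a (b (a (l 16783784) (l 16783304)) (l 16785264)) (b (l 16783280) (l 16783832))) (l 16787112)))))) (b (a (c (l 16778888) (b (l 16780704) (l 16781520))) (c (l 16766952) (l 16770640))) (a (c (b (l 16790688) (b (a (l 16792144) (l 16791096)) (a (l 16793216) (b (l 16791744) (l 16792256))))) (b (l 16782440) (b (a (l 16783496) (l 16783104)) (a (l 16784840) (b (l 16783720) (l 16784368)))))) (a (b (l 16775616) (b (l 16786816) (c (l 16791312) (l 16783880)))) (b (l 16785720) (c (l 16790000) (l 16783200))))))), by decide +kernel⟩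

def k103_A00pm_123_s3 : ∃ t, chk3 f_A00pm_123_s3 t 60 29 1 = true :=
  ⟨(b (a (c (b (a (l 16783176) (l 16779216)) (a (l 16767800) (l 16805496))) (b (a (c (l 16797640) (l 16793000)) (l 16771176)) (a (l 16791696) (l 16798544)))) (b (a (c (l 16775528) (l 16768128)) (b (c (a (l 16792472) (b (l 16790928) (l 16791512))) (a (l 16785256) (b (l 16783992) (l 16784680)))) (c (l 16794280) (l 16787656)))) (c (a (l 16801528) (l 16776848)) (a (l 16795080) (l 16791800))))) (a (c (a (b (l 16773112) (l 16778184)) (b (l 16810528) (l 16773400))) (a (b (l 16787560) (l 16803936)) (b (l 16804472) (l 16789000)))) (a (c (b (l 16764360) (l 16768816)) (b (l 16779648) (l 16763704))) (c (b (l 16781296) (l 16806392)) (c (l 16779664) (l 16776976)))))), by decide +kernel⟩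

def k104_A00pm_123_s3 : ∃ t, chk3 f_A00pm_123_s3 t 122 14 1 = true :=
  ⟨(b (b (a (b (c (l 16786024) (l 16780624)) (c (l 16786912) (l 16781376))) (c (b (l 16779424) (l 16785576)) (b (a (l 16780488) (l 16780360)) (l 16781144)))) (a (b (l 16774640) (c (l 16789000) (l 16783032))) (c (b (l 16786608) (l 16787720)) (b (l 16781936) (l 16782752))))) (b (b (a (b (c (b (l 16789696) (a (l 16790552) (l 16789672))) (a (l 16784096) (l 16783568))) (c (a (l 16791688) (b (l 16790200) (l 16790744))) (a (l 16785392) (b (l 16784120) (l 16784736))))) (c (a (b (l 16788904) (c (l 16791152) (l 16788456))) (l 16788576)) (b (l 16783336) (a (b (l 16783688) (l 16784120)) (l 16783584))))) (a (c (c (l 16795728) (l 16793032)) (c (l 16790192) (l 16787216))) (c (b (a (c (l 16792080) (l 16789424)) (b (c (l 16785448) (l 16777640)) (l 16789784))) (l 16781648)) (b (a (l 16785176) (b (l 16784024) (l 16784408))) (l 16786880))))) (c (b (a (l 16787968) (c (l 16796008) (l 16793680))) (a (l 16781208) (l 16787656))) (b (a (l 16772360) (l 16779464))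 (a (l 16797448) (l 16772576)))))), by decide +kernel⟩

def k105_A00pm_123_s3 : ∃ t, chk3 f_A00pm_123_s3 t 123 28 1 = true :=
  ⟨(b (a (c (b (a (l 16783696) (b (l 16782840) (l 16783280))) (b (l 16784048) (l 16784544))) (b (a (l 16780208) (b (l 16779856) (l 16780176))) (a (l 16780912) (l 16780720)))) (c (a (b (b (b (l 16782104) (l 16782320)) (l 16782664)) (l 16778160)) (b (b (b (l 16778880) (l 16781712)) (l 16776816)) (b (l 16782544) (l 16783064)))) (b (a (c (l 16777872) (l 16779120)) (b (c (l 16774744) (l 16778832)) (b (l 16779640) (l 16779808)))) (a (b (l 16780312) (l 16780680)) (b (l 16780072) (l 16780440)))))) (a (c (b (l 16774872) (l 16786496)) (b (l 16776344) (l 16782392))) (c (b (c (l 16774392) (l 16778200)) (c (l 16786032) (l 16784432))) (a (b (l 16781288) (l 16782040)) (b (b (l 16780832) (l 16781216)) (l 16781768)))))), by decide +kernel⟩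

def k106_A00pm_123_s3 : ∃ t, chk3 f_A00pm_123_s3 t 123 29 1 = true :=
  ⟨(b (a (c (a (b (l 16787936) (b (b (l 16788520) (c (l 16784904) (l 16777232))) (c (l 16785488) (l 16788328)))) (b (l 16787296) (b (l 16787928) (b (c (l 16784296) (l 16776744)) (c (a (l 16790200) (l 16784128)) (l 16782104)))))) (b (l 16777840) (b (a (b (l 16783504) (l 16783832)) (l 16783248)) (a (l 16779240) (b (l 16783528) (l 16783632)))))) (b (c (b (l 16786024) (l 16786480)) (l 16777272)) (c (b (l 16781600) (a (b (l 16787432) (c (a (l 16783760) (l 16788424)) (l 16776176))) (l 16786744))) (b (l 16782728) (a (c (l 16784408) (l 16782008)) (l 16782528)))))) (c (a (b (c (b (l 16791752) (l 16793240)) (l 16779792)) (c (l 16795344) (l 16793224))) (b (b (a (a (l 16788592) (b (b (l 16782280) (l 16787632)) (l 16788232))) (a (b (l 16787224) (c (l 16788424) (l 16786256))) (b (l 16786680) (b (l 16781592) (c (l 16787872) (l 16785744)))))) (c (l 16789872) (l 16787744))) (c (b (l 16791104) (l 16792256)) (l 16779160)))) (a (b (c (l 16787920) (l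 16785440)) (c (l 16790992) (l 16788640))) (b (b (a (b (c (l 16773848) (l 16781872)) (l 16783992)) (b (l 16782648) (a (l 16782784) (l 16782376)))) (l 16779096)) (c (l 16787472) (l 16785184)))))), by decide +kernel⟩

def k107_A00pm_123_s3 : ∃ t, chk3 f_A00pm_123_s3 t 60 30 1 = true :=
  ⟨(c (a (b (c (c (l 16784456) (l 16783352)) (a (l 16784320) (l 16779032))) (c (l 16809880) (c (l 16790136) (l 16810560)))) (b (b (a (l 16773016) (l 16768216)) (c (l 16817232) (l 16773128))) (c (l 16801536) (b (l 16776536) (l 16779720))))) (a (b (c (a (a (l 16804144) (l 16780536)) (l 16797616)) (b (a (l 16797536) (l 16813656)) (a (c (l 16824224) (l 16801936)) (l 16797256)))) (c (a (a (l 16823816) (l 16810232)) (c (l 16827256) (l 16815488))) (b (a (c (l 16828704) (b (l 16805336) (l 16817872))) (c (l 16822816) (l 16811016))) (c (a (l 16822088) (l 16805240)) (a (a (b (l 16821336) (a (b (l 16833984) (l 16829616)) (l 16822304))) (b (l 16828672) (l 16825096))) (b (l 16813504) (c (l 16825848) (l 16819856)))))))) (b (a (b (l 16789232)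 (l 16803728)) (b (l 16784560) (l 16798568))) (c (b (l 16795112) (a (l 16780144) (l 16816072))) (b (a (l 16805920) (l 16789832)) (c (a (l 16799024) (l 16813968)) (a (b (l 16817880) (l 16819144)) (l 16807264)))))))), by decide +kernel⟩

def k108_A00pm_123_s3 : ∃ t, chk3 f_A00pm_123_s3 t 61 30 1 = true :=
  ⟨(a (b (a (c (b (l 16784560) (l 16766664)) (b (l 16780024) (l 16793584))) (c (b (l 16780128) (l 16782816)) (b (l 16775672) (l 16788800)))) (c (b (a (l 16769528) (l 16785320)) (c (l 16791608) (l 16789104))) (b (a (c (l 16807936) (l 16805392)) (c (l 16802752) (l 16800216))) (b (a (l 16797856) (l 16792392)) (c (l 16786920) (a (l 16807832) (l 16802248))))))) (b (a (c (b (l 16786392) (l 16778224)) (b (l 16782016) (l 16784256))) (b (c (b (l 16792352) (l 16793392)) (c (l 16789720) (l 16787464))) (c (b (l 16794352) (l 16795312)) (c (l 16791608) (l 16789288))))) (b (a (c (l 16780376) (c (l 16797824) (l 16795304))) (c (l 16786296) (b (l 16770696) (l 16781928)))) (c (a (l 16782592) (l 16788296)) (b (a (l 16787312)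 (l 16782672)) (c (l 16787040) (a (l 16797080) (l 16792440)))))))), by decide +kernel⟩

def k109_A00pm_123_s3 : ∃ t, chk3 f_A00pm_123_s3 t 60 31 2 = true :=
  ⟨(c (b (a (b (l 16812080) (l 16828080)) (b (b (l 16826552) (l 16825496)) (l 16819440))) (a (b (l 16776320) (l 16787808)) (b (l 16768976) (l 16781720)))) (a (b (b (a (l 16815536) (l 16810392)) (l 16782264)) (b (l 16792280) (c (l 16804160) (l 16779984)))) (b (b (b (l 16824064) (l 16801488)) (l 16773728)) (b (l 16785104) (b (l 16799008) (l 16773504)))))), by decide +kernel⟩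

def k110_A00pm_123_s3 : ∃ t, chk3 f_A00pm_123_s3 t 60 31 6 = true :=
  ⟨(a (a (b (b (b (c (l 16835080) (l 16825048)) (l 16831464)) (l 16801240)) (b (l 16788856) (c (l 16799200) (l 16774784)))) (b (b (b (l 16820016) (l 16826808)) (l 16796976)) (b (l 16785128) (c (l 16796176) (l 16792784))))) (a (b (b (b (l 16824320) (l 16800984)) (l 16792736)) (b (l 16781592) (c (l 16793320) (l 16790000)))) (b (b (b (l 16817912) (l 16796032)) (l 16788664)) (b (l 16778256) (c (l 16790792) (l 16766584)))))), by decide +kernel⟩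

def k111_A00pm_123_s3 : ∃ t, chk3 f_A00pm_123_s3 t 60 62 7 = true :=
  ⟨(a (b (c (a (b (b (l 16824280) (l 16822984)) (l 16807824)) (b (b (l 16828064) (l 16817640)) (l 16824176))) (c (b (a (b (a (l 16830032) (l 16831880)) (a (l 16823152) (l 16820576))) (b (l 16826896) (b (l 16816888) (l 16816168)))) (a (l 16816928) (l 16822808))) (b (a (a (c (b (a (b (l 16835296) (l 16830392)) (l 16833848)) (l 16827768)) (b (b (l 16828816) (a (b (l 16835200) (b (l 16832720) (l 16835144))) (l 16833624))) (b (a (l 16834112) (l 16832864)) (l 16831768)))) (b (l 16831088) (b (b (a (l 16832168) (l 16830688)) (l 16830856)) (l 16829608)))) (b (l 16820856) (a (b (a (l 16828992) (l 16827440)) (l 16827200)) (b (l 16824920) (l 16824616))))) (a (a (b (l 16824128) (l 16825872)) (a (l 16820664) (l 16824760))) (a (l 16812552) (l 16820744)))))) (c (a (b (l 16822200) (l 16815560)) (l 16804184)) (b (a (c (l 16820600) (a (l 16823216) (l 16818432))) (a (l 16816808) (l 16814648))) (a (a (l 16814136) (l 16812096)) (c (l 16809664) (l 16808432))))))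 (b (a (a (a (b (b (l 16823224) (l 16818592)) (l 16809920)) (b (l 16816728) (l 16808744))) (b (l 16819504) (c (l 16818232) (b (l 16812744) (l 16815072))))) (b (c (l 16815576) (l 16803464)) (b (a (a (l 16811776) (l 16810488)) (a (l 16809160) (l 16802536))) (l 16802168)))) (b (c (l 16800856) (a (c (l 16811960) (l 16810896)) (l 16807224))) (c (l 16794984) (a (l 16805048) (l 16801256)))))), by decide +kernel⟩

def k112_A00pm_123_s3 : ∃ t, chk3 f_A00pm_123_s3 t 60 63 7 = true :=
  ⟨(a (c (b (a (b (l 16808896) (l 16802224)) (b (l 16805072) (l 16798704))) (a (b (l 16785048) (l 16778424)) (a (l 16779504) (l 16778064)))) (b (c (a (b (l 16806824) (l 16789400)) (b (l 16803016) (l 16796400))) (a (a (b (l 16806360) (l 16799192)) (b (l 16804464) (l 16797432))) (b (l 16801624) (l 16789600)))) (c (a (b (l 16782456) (a (l 16786768) (l 16785328))) (b (l 16779352) (l 16772840))) (a (b (a (l 16786744) (l 16779904)) (b (a (l 16786608) (l 16785136)) (a (a (l 16783384) (l 16782680)) (l 16781664)))) (a (b (l 16788848) (a (l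 16771904) (l 16771248))) (b (l 16787352) (a (l 16781112) (l 16780504)))))))) (b (c (a (b (l 16801400) (l 16795400)) (l 16784680)) (a (b (l 16798696) (c (l 16793136) (l 16781112))) (b (l 16795296) (l 16784184)))) (b (a (c (l 16789496) (a (l 16776328) (l 16775000))) (c (l 16786920) (c (l 16784472) (l 16777568)))) (c (a (l 16773200) (l 16771048)) (a (c (l 16770448) (a (c (l 16780096) (l 16779152)) (l 16768040))) (c (l 16768368) (a (l 16767024) (l 16776568)))))))), by decide +kernel⟩

def k113_A00pm_123_s3 : ∃ t, chk3 f_A00pm_123_s3 t 61 31 2 = true :=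
  ⟨(b (a (b (b (l 16792304) (a (l 16795832) (l 16790776))) (c (l 16811376) (l 16786792))) (b (a (l 16795504) (l 16780008)) (a (c (l 16805592) (l 16781184)) (b (l 16791280) (l 16799384))))) (a (b (c (l 16783280) (l 16778696)) (c (l 16776496) (b (l 16793792) (l 16769016)))) (b (c (l 16777432) (c (l 16774312) (l 16782616))) (c (b (l 16794280) (l 16770608)) (a (l 16767848) (l 16776512)))))), by decide +kernel⟩

def k114_A00pm_123_s3 : ∃ t, chk3 f_A00pm_123_s3 t 61 31 3 = true :=
  ⟨(b (a (c (b (b (l 16798416) (a (l 16801576) (l 16796560))) (a (l 16784776) (l 16781176))) (b (b (a (l 16803440) (l 16802976)) (b (a (a (l 16805584) (l 16807792)) (l 16803528)) (a (a (l 16809336) (l 16801824)) (c (l 16804432) (a (l 16803896) (l 16801568)))))) (b (c (l 16792824) (a (l 16803224) (l 16799536))) (c (l 16787800) (a (l 16797696) (l 16794464)))))) (a (c (b (l 16791024) (c (l 16778440) (l 16787016))) (b (a (b (l 16799040) (l 16799800)) (l 16796920)) (a (b (l 16792568) (l 16793344)) (b (b (l 16797096) (l 16795200)) (l 16791920)))))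 (c (b (l 16796592) (b (b (l 16797560) (l 16796480)) (l 16793888))) (a (b (l 16794560) (b (b (l 16789936) (l 16793672)) (l 16790568))) (b (l 16792328) (b (b (l 16793128) (l 16792136)) (l 16789288))))))) (c (a (b (a (l 16775224) (l 16772456)) (a (c (l 16767544) (l 16764408)) (c (l 16765512) (l 16772984)))) (b (a (l 16780416) (c (l 16789736) (l 16787472))) (a (c (l 16763712) (l 16771320)) (b (l 16772952) (l 16769584))))) (b (c (a (a (l 16781760) (l 16779120)) (a (l 16776752) (a (l 16785640) (l 16784664)))) (a (a (b (l 16792216) (l 16776312)) (b (l 16778952) (l 16773984))) (a (b (l 16776472) (l 16771952)) (b (l 16774272) (l 16770208))))) (a (a (c (b (l 16784632) (l 16769184)) (a (b (l 16781976) (l 16766120)) (b (l 16780960) (l 16765320)))) (c (b (l 16782632) (l 16767600)) (b (l 16774328) (a (l 16764592) (l 16763944))))) (a (a (c (l 16768712) (b (l 16778352) (l 16763368))) (c (l 16768024) (b (l 16777632) (l 16762872)))) (b (a (l 16767912) (l 16772536)) (c (l 16765248) (a (l 16762440) (c (l 16773320) (l 16771824)))))))))),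 by decide +kernel⟩

def k115_A00pm_123_s3 : ∃ t, chk3 f_A00pm_123_s3 t 248 14 1 = true :=
  ⟨(b (b (b (c (a (b (c (l 16781448) (l 16777944)) (b (l 16781344) (l 16781584))) (b (a (l 16777944) (l 16777640)) (c (l 16781272) (l 16780472)))) (a (b (a (l 16779224) (l 16776472)) (c (l 16774744) (l 16778936))) (b (a (b (l 16778880) (l 16779024)) (b (l 16776112) (l 16778880))) (c (l 16779624) (b (l 16778672) (l 16773576)))))) (c (a (b (l 16781960) (l 16782480)) (b (c (l 16781808) (l 16780928)) (l 16776640))) (a (b (c (l 16780368) (l 16779240)) (c (l 16780776) (l 16779576))) (b (c (l 16780016) (l 16776432)) (c (l 16780416) (l 16779376)))))) (b (c (a (l 16778032) (c (l 16783184) (l 16782128))) (a (c (l 16781408) (l 16780080)) (b (c (l 16780816) (l 16779688)) (l 16780600)))) (c (c (l 16774112) (l 16778064)) (a (l 16776200) (c (l 16781736) (l 16780400)))))) (b (c (b (b (l 16784640) (l 16785056)) (b (l 16780136) (a (l 16785992) (l 16785224)))) (b (c (l 16782576) (l 16775704)) (b (l 16781936) (l 16781888)))) (b (b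 (c (a (c (b (l 16787056) (l 16782048)) (l 16780048)) (l 16780096)) (a (l 16782128) (l 16781512))) (a (c (b (c (a (b (l 16782216) (l 16787768)) (b (l 16787032) (c (l 16782312) (l 16786552)))) (a (l 16780184) (l 16779840))) (l 16786768)) (b (a (l 16782080) (l 16781816)) (l 16782424))) (c (b (l 16780128) (a (b (a (c (l 16786720) (l 16784688)) (l 16785552)) (c (l 16786720) (l 16784696))) (c (b (l 16786128) (c (l 16786720) (l 16785760))) (l 16779088)))) (b (l 16781304) (a (c (l 16777264) (l 16769784)) (l 16781192)))))) (c (b (a (l 16787616) (b (a (l 16786184) (c (c (l 16781528) (l 16780560)) (l 16779056))) (l 16786296))) (c (l 16783536) (l 16786792))) (a (c (l 16785016) (l 16782784)) (b (c (l 16777504) (l 16770048)) (l 16782848))))))), by decide +kernel⟩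

def k116_A00pm_123_s3 : ∃ t, chk3 f_A00pm_123_s3 t 249 28 1 = true :=
  ⟨(b (a (b (c (b (a (c (l 16780264) (l 16774400)) (c (l 16779920) (l 16779376))) (a (c (l 16780776) (l 16780080)) (c (l 16780432) (l 16779816)))) (b (a (c (b (l 16778912) (l 16779080)) (c (l 16778496) (l 16772904))) (c (c (l 16778952) (l 16776048)) (b (l 536941839) (l 536956687)))) (a (c (l 16774112) (l 16778600)) (c (l 16779168) (c (l 16778664) (l 16773072)))))) (c (b (c (l 16781128) (l 16777776)) (c (l 16781664) (l 16780864))) (b (a (c (l 16779736) (l 16773656)) (c (l 16779544) (l 16778784))) (a (l 16777048) (c (l 16779920) (l 16779072)))))) (b (c (a (b (c (l 537549071) (l 537630479)) (c (l 16780088) (l 16779544))) (b (c (l 537561359) (l 537642767)) (c (l 16777112) (l 537399055)))) (a (b (c (a (l 16778672) (l 537167631)) (b (l 536951311) (l 536967695))) (c (l 537463311) (a (l 16778400) (l 16778344)))) (b (c (c (l 537227791) (l 537127183)) (a (l 536967695) (l 536973839))) (c (l 537474575) (a (l 537000463) (l 537005583)))))) (c (a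 (b (c (l 16780608) (l 16779984)) (l 16780784)) (b (l 537511183) (l 537527311))) (a (b (c (l 16779336) (c (l 16778824) (l 16773232))) (c (l 16779696) (l 16773688))) (a (b (a (l 537395215) (l 537397263)) (l 537148431)) (b (l 537132559) (l 537420559))))))) (a (b (c (c (l 16782456) (l 16776304)) (b (c (l 16780392) (l 16779424)) (c (l 16780752) (l 16779696)))) (c (l 16777696) (c (l 16781264) (l 16774840)))) (b (c (a (c (l 16781896) (l 16781088)) (c (l 16781512) (l 16780768))) (a (b (c (l 16780056) (l 16779208)) (l 16779936)) (b (c (l 16779816) (l 16773800)) (c (l 16780152) (l 16779296))))) (c (c (l 16782672) (l 16776496)) (b (c (l 16780592) (l 16779608)) (c (l 16780896) (l 16769336))))))), by decide +kernel⟩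

def k117_A00pm_123_s3 : ∃ t, chk3 f_A00pm_123_s3 t 249 29 1 = true :=
  ⟨(b (b (a (c (l 16783784) (c (l 16781832) (l 16780456))) (c (l 16777792) (c (l 16781304) (l 16780080)))) (a (c (b (l 16784256) (l 16784448)) (l 16781288)) (c (b (l 16783480) (l 16783664)) (c (l 16781544) (l 16780088))))) (b (b (a (c (l 16784552) (l 16781056)) (c (l 16783760) (l 16780584))) (a (c (c (l 16785464) (l 16783656)) (l 16780768)) (c (c (l 16784576) (l 16782936)) (l 16780304)))) (b (a (a (c (b (a (b (l 16790168) (l 16784944)) (b (l 16784648) (a (l 16789952) (l 16789872)))) (l 16785152)) (b (c (l 16776576) (l 16769168)) (l 16781024))) (c (b (c (l 16785336) (l 16783456)) (b (a (c (l 16785400) (l 16783456)) (c (l 16785216) (l 16783304))) (l 16784480))) (b (l 16780440) (b (l 16780304) (l 16780392))))) (a (b (c (l 16783928) (l 16780136)) (a (c (b (l 16783992) (b (l 16784024) (l 16783992))) (l 16780104)) (c (l 16789096) (l 16779936)))) (c (c (l 16784368) (l 16782616)) (l 16779800)))) (c (c (a (l 16786376) (b (a (b (a (l 16785120)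 (b (l 16784696) (l 16784800))) (l 16785136)) (b (a (b (l 16784472) (l 16784480)) (l 16784224)) (a (l 16784536) (a (l 16784288) (l 16784200))))) (l 16785032))) (a (l 16784448) (b (a (l 16777776) (b (l 16782592) (a (l 16782648) (l 16777136)))) (l 16783152)))) (a (l 16781344) (b (a (c (l 16781000) (l 16778880)) (c (b (l 16780640) (l 16775256)) (l 16778528))) (l 16780120))))))), by decide +kernel⟩

def k118_A00pm_123_s3 : ∃ t, chk3 f_A00pm_123_s3 t 250 56 1 = true :=
  ⟨(b (a (c (b (a (b (l 537744143) (l 537755663)) (c (l 537854479) (l 537666831))) (a (l 537502735) (c (l 537871119) (l 537687055)))) (b (a (c (a (l 537186319) (l 537192207)) (b (l 536974863) (l 536991503))) (a (b (l 537088015) (l 537370895)) (b (a (l 537091599) (l 537093903)) (l 537106703)))) (a (c (l 537484815) (b (l 537006351) (l 537019919))) (c (a (l 537222159) (l 537225743)) (b (l 537015055) (l 537027599)))))) (a (a (b (c (l 537767439) (c (l 537206287) (b (l 536991759) (l 537274127)))) (c (l 537784079) (b (l 537122063) (l 537133071))))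 (b (c (l 537500687) (c (l 537208079) (b (l 536993295) (l 537007119)))) (c (l 537785359) (b (a (l 537122831) (l 537123087)) (l 537134095))))) (b (b (c (l 537498639) (c (c (l 537254671) (l 537153039)) (a (l 536994319) (c (l 537316623) (l 536941583))))) (c (l 537775631) (c (l 537215503) (a (l 537007887) (c (l 537329679) (l 536955407)))))) (a (c (l 537786383) (c (l 537230351) (b (l 537020431) (l 537031951)))) (c (l 537787407) (c (l 537231119) (b (l 537021199) (l 537032463)))))))) (a (c (b (a (l 537788431) (l 537527311)) (a (l 537803023) (l 537540367))) (b (a (c (l 537506319) (b (l 537032207) (l 537043215))) (c (l 537244687) (b (l 537038863) (l 537049103)))) (a (b (l 537153039) (l 537429519)) (c (l 537529103) (b (l 537058063) (l 537065999)))))) (b (a (c (c (l 537889807) (l 537708047)) (a (b (l 537143055) (l 537152015)) (b (l 537143823) (l 537152783)))) (c (c (l 537891855) (l 537441295)) (c (b (l 537245199) (l 537253135)) (a (a (l 537047055) (l 537047311)) (b (l 537042703) (l 537320463)))))) (c (a (b (l 537809167)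 (l 537814543)) (b (l 537810703) (l 537816079))) (a (c (a (l 16778792) (l 537262607)) (b (l 537060623) (l 537068047))) (a (b (l 537160975) (l 537167631)) (b (l 537160975) (l 537167631)))))))), by decide +kernel⟩

def k119_A00pm_123_s3 : ∃ t, chk3 f_A00pm_123_s3 t 251 112 1 = true :=
  ⟨(c (b (a (b (a (c (l 537862927) (l 537405199)) (l 4)) (a (c (l 537870351) (l 537414415)) (c (l 537872911) (l 537416719)))) (l 4)) (a (a (b (l 537517327) (l 537524751)) (c (a (l 537881871) (l 537614607)) (b (l 537425167) (l 537433103)))) (a (b (l 4) (c (l 537620239) (l 537435151))) (l 4)))) (a (c (b (a (a (b (l 537473295) (l 537484559)) (b (l 537205775) (l 537485327))) (b (l 4) (a (l 537217807) (l 4)))) (a (b (c (l 537277711) (l 537177615)) (l 537237519)) (b (a (l 537496591) (l 537228815)) (a (l 537505807) (l 537238031))))) (b (b (a (a (c (l 537049103) (a (l 536941839) (l 536942095))) (c (l 537049871) (b (l 4) (l 536946447)))) (l 4)) (a (a (b (l 537006095) (l 537012495)) (c (l 537062671) (b (l 536953359) (l 536960015))))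 (a (c (l 537063439) (b (c (l 537249295) (l 536926991)) (l 536960527))) (l 4)))) (a (b (a (c (l 537342223) (l 536968975)) (b (l 537019151) (l 537025039))) (a (l 537032975) (c (l 537353487) (l 536981007)))) (b (a (c (l 537074959) (b (l 536966671) (l 536972815))) (c (l 537075471) (b (c (l 537262351) (l 537007631)) (l 536973327)))) (a (a (l 537033487) (l 537033487)) (c (l 537085967) (b (l 536978959) (l 536984335)))))))) (b (l 4) (b (l 4) (a (c (a (l 537238799) (l 537239567)) (a (c (l 537086479) (b (c (l 537274127) (l 537019919)) (l 537051663))) (a (b (l 4) (l 537037071)) (l 4)))) (l 4)))))), by decide +kernel⟩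

def k120_A00pm_123_s3 : ∃ t, chk3 f_A00pm_123_s3 t 251 113 2 = true :=
  ⟨(a (b (a (a (l 537802255) (l 537534479)) (b (l 537399311) (l 537539599))) (a (b (l 537812239) (l 537817359)) (b (l 537545231) (l 537818895)))) (c (b (a (a (l 537627663) (l 537628943)) (b (l 537628687) (l 537634063))) (a (a (l 537638159) (l 537638927)) (b (l 537639183) (l 537643791)))) (b (a (b (l 537442319) (l 537448719)) (b (c (l 537491215) (l 537396495)) (c (l 537497359) (l 537403151)))) (a (b (l 537454607) (l 537459727)) (b (l 537456143) (c (l 537507855) (l 537414159))))))), by decide +kernel⟩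

def k121_A00pm_123_s3 : ∃ t, chk3 f_A00pm_123_s3 t 251 113 3 = true :=
  ⟨(a (b (a (c (b (l 537246223) (l 537254159)) (b (a (l 537043215) (l 537043471)) (a (l 537052175) (l 537052431)))) (c (b (c (l 537296399) (l 537197583)) (c (l 537304079) (l 537205519))) (b (a (c (l 537363471) (l 536991503)) (a (l 537043471) (l 537043727))) (a (l 537052431) (b (l 537050383) (l 537054479)))))) (a (a (b (l 537161231) (l 537167887)) (c (l 537263887) (b (l 537060111) (l 537066767)))) (b (c (l 537261839) (a (l 537060111) (l 537060111))) (c (l 537267727) (a (l 537066767) (l 537066511)))))) (b (c (a (b (a (l 537247247) (l 537247759)) (a (l 537523215) (l 537255183))) (b (a (l 537248527) (l 4)) (a (l 537255951) (l 537256463)))) (a (b (a (c (l 537095951) (b (l 536989455) (l 536994319))) (a (b (l 537041935) (l 537314831)) (b (l 537041935) (l 537046543)))) (a (a (l 537052431) (l 537052431)) (c (l 537104399) (b (l 536998927) (l 537002767))))) (a (a (b (b (l 4) (l 537046799)) (b (l 537050895) (l 537323023))) (b (l 4) (b (l 537051151)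 (l 537054735)))) (a (b (l 4) (b (l 4) (l 537122063))) (l 4))))) (c (a (a (b (l 537529871) (l 537535503)) (b (l 537530127) (l 537535759))) (b (a (l 537262351) (l 537262863)) (a (l 537267727) (l 537268239)))) (a (b (a (b (l 537058319) (l 537061647)) (a (l 537059855) (l 537059855))) (a (a (l 537066255) (l 537066255)) (a (l 537065999) (l 537065999)))) (b (a (c (l 537111823) (b (l 537006607) (l 537009935))) (c (c (l 537137679) (l 537086479)) (a (a (l 537008143) (l 537008143)) (b (l 537275151) (l 537278223))))) (b (a (l 537199119) (c (l 537384719) (l 537080335))) (a (l 537067535) (c (l 537387535) (l 537082895))))))))), by decide +kernel⟩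

def k122_A00pm_123_s3 : ∃ t, chk3 f_A00pm_123_s3 t 250 57 1 = true :=
  ⟨(b (a (b (c (a (l 537814799) (l 537551119)) (a (c (l 16774328) (l 16778872)) (b (l 537038095) (l 537177615)))) (c (a (l 16781000) (l 16775384)) (a (c (l 16779896) (l 16773872)) (b (l 537450511) (l 16779352))))) (c (b (a (l 537285647) (c (l 16777016) (l 537732623))) (a (l 537561871) (l 537562895))) (c (b (a (l 537140751) (a (l 16778848) (l 537274127))) (a (l 16779360) (l 537148431))) (b (a (b (l 537074191) (l 537079311)) (b (l 537073935) (l 537078799))) (a (b (l 537083151) (l 16778792)) (b (l 537082383) (l 537084943))))))) (b (a (c (c (l 16781608) (l 16780856)) (a (l 16777160) (c (l 16779936) (l 16773904)))) (c (a (l 16780664) (l 537299727)) (a (b (l 16776624) (l 16779368)) (b (l 536918543) (l 537187343))))) (a (c (l 16776416) (c (l 16780360) (l 16779440))) (c (a (l 16781080) (l 16780680)) (a (c (l 16779944) (l 16779144)) (c (l 16779664) (l 16773696))))))), by decide +kernel⟩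

def k123_A00pm_123_s3 : ∃ t, chk3 f_A00pm_123_s3 t 251 114 1 = true :=
  ⟨(a (c (b (a (b (l 537822223) (l 537826319)) (b (l 537823503) (l 537827343))) (a (c (l 16777056) (l 537472271)) (b (l 537830927) (l 537833743)))) (b (a (a (b (l 537173263) (l 537177871)) (b (l 537173263) (l 537177615))) (b (c (l 537272847) (a (l 537072143) (l 537071887))) (c (l 537276943) (a (l 537076495) (l 537075983))))) (a (b (c (l 537280527) (l 537081359)) (c (l 537283087) (l 537083663))) (a (b (l 537180431) (l 537182735)) (b (l 537180175) (l 537182223)))))) (c (b (a (b (c (l 537914383) (l 537464335)) (c (l 537918223) (l 537468175))) (b (a (l 537556239) (l 537557007)) (c (l 537651727) (l 537469455)))) (a (b (l 537563407) (l 537566223)) (a (c (l 537923343) (l 537740815)) (c (l 537924111) (l 537741327))))) (b (a (b (c (c (l 537321999) (l 537223951)) (a (c (l 537391119) (l 537020175)) (a (l 537071119) (l 537071119)))) (c (c (l 537325839) (l 537227791)) (a (l 537075727) (l 537075215)))) (b (a (c (l 537272335) (b (l 537070095) (l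 537072143))) (c (l 537272591) (b (c (l 537389839) (l 537018127)) (c (l 537391887) (l 537020175))))) (a (c (l 537544463) (a (l 537074703) (l 537074447))) (c (l 537276175) (a (l 537074447) (l 537074447)))))) (a (b (c (l 537280271) (a (l 537078287) (l 537077775))) (c (l 537282319) (a (l 537348367) (l 537079311)))) (b (a (c (l 537547279) (l 537077519)) (c (l 537547279) (c (l 537397007) (l 537025039)))) (a (c (l 537549071) (l 537078799)) (c (l 537549071) (l 537078287)))))))), by decide +kernel⟩

def k124_A00pm_123_s3 : ∃ t, chk3 f_A00pm_123_s3 t 251 115 1 = true :=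
  ⟨(a (c (b (a (c (l 16780128) (l 16779632)) (c (l 16777080) (l 537476879))) (a (c (l 16780576) (l 16779992)) (c (l 16780144) (l 16779632)))) (b (a (b (a (l 16778824) (l 537452815)) (a (l 16778944) (l 16778824))) (b (c (l 16778744) (l 537082895)) (c (l 537284367) (l 537350927)))) (b (a (l 536916751) (a (l 16778816) (l 16778696))) (a (l 16776488) (c (l 16779152) (l 16773328)))))) (a (a (c (b (l 537836559) (l 537838607)) (b (b (l 537451023) (l 537450511)) (b (l 537449231) (l 16778688)))) (c (b (l 537568527) (l 537838607)) (b (b (l 537450255) (l 537449999)) (b (l 537448463) (l 537445647))))) (b (c (a (l 537300495) (l 537300751)) (b (a (l 537181455) (l 537180943)) (a (l 537449231) (l 537448719)))) (c (b (l 537839887) (l 537840143)) (b (a (l 537447439) (l 537446927)) (a (l 537444623) (l 537443855))))))), by decide +kernel⟩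

def k125_A00pm_123_s3 : ∃ t, chk3 f_A00pm_123_s3 t 125 58 1 = true :=
  ⟨(a (b (a (c (c (l 16782736) (l 16781768)) (b (c (l 16780632) (l 16779616)) (c (l 16780848) (l 16779728)))) (c (b (c (l 16781656) (l 16780880)) (l 16776384)) (b (c (l 16780064) (c (l 16774176) (l 16773744))) (c (l 16780272) (l 16779320))))) (a (c (b (l 16782696) (l 16782872)) (c (l 16780984) (l 16779688))) (c (b (l 16781888) (l 16782056)) (b (c (l 16780384) (l 16779312)) (l 16774552))))) (b (a (c (a (b (l 16775432) (l 16781024)) (b (c (l 16780568) (l 16779976)) (l 16780624))) (b (a (c (l 16779640) (l 16773656)) (b (c (l 16779280) (l 16778648)) (l 16776448))) (a (c (l 16779848) (l 16779008)) (c (l 16779560) (l 16773568))))) (b (b (a (c (l 16779776) (a (l 16778792) (l 16778672))) (c (l 537839887) (a (l 537440783) (l 537439759)))) (a (c (l 16779960) (c (l 16779120) (l 16773280))) (c (l 537838863) (a (l 16778648) (l 537434383))))) (a (c (c (l 16780520) (l 16779912)) (c (l 16774032) (l 16778608))) (c (c (l 16780080) (l 16779552)) (c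 (l 16776376) (b (l 537320719) (l 16773176))))))) (a (b (a (c (l 16781288) (l 16779488)) (c (l 16780880) (c (l 16779672) (l 16778816)))) (a (c (l 16781456) (l 16779432)) (c (l 16781048) (l 16779192)))) (b (a (c (l 16780480) (c (l 16779392) (l 16773368))) (c (c (l 16780384) (l 16779760)) (c (l 16773864) (l 16778424)))) (a (c (l 16780640) (c (l 16779392) (l 16778504))) (c (l 16774992) (c (l 16779112) (l 16778312)))))))), by decide +kernel⟩

def k126_A00pm_123_s3 : ∃ t, chk3 f_A00pm_123_s3 t 125 59 1 = true :=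
  ⟨(a (c (c (b (a (b (l 16783616) (l 16783688)) (b (l 16782728) (l 16777544))) (b (a (b (l 16783688) (l 16783680)) (b (l 16782800) (l 16782800))) (b (a (a (b (l 16783888) (l 16783944)) (l 16783440)) (l 16782800)) (a (a (b (a (b (l 16783992) (l 16784080)) (b (l 16783760) (l 16783784))) (l 16783976)) (a (b (l 16783536) (b (l 16783584) (l 16783536))) (l 16783368))) (l 16780176))))) (a (b (l 16782264) (b (l 16782056) (b (a (l 16782168) (l 16781736)) (a (b (a (l 16782136) (l 16782000)) (l 16782128)) (b (l 16781664) (a (c (l 16782216) (l 16781280)) (l 16781576))))))) (b (b (l 16781536) (l 16781472)) (b (l 16776104) (b (l 16781224) (l 16781144)))))) (c (a (b (l 16780768) (b (l 16780336) (b (l 16774944) (a (b (c (l 16775384) (l 16774384)) (l 16780168)) (b (l 16779792) (l 16774576)))))) (b (l 16780184) (b (l 16779800) (l 16779480)))) (a (b (l 16779200) (b (l 16778520) (b (l 16778240) (a (b (l 16767600) (l 16778104)) (l 16772688))))) (b (l 16778792) (b (l 16778176) (l 16777680)))))) (b (a (b (a (c (l 16781528)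 (l 16779264)) (c (l 16781128) (l 16779032))) (a (c (l 16781544) (l 16779008)) (c (l 16781144) (l 16778792)))) (b (c (a (l 16780728) (l 16780336)) (a (l 16773560) (c (l 16779048) (l 16772880)))) (c (a (l 16780768) (c (l 16780864) (l 16779920))) (c (l 16779032) (l 16775312))))) (c (a (b (c (b (l 16781936) (l 16781960)) (l 16775424)) (a (c (l 16782200) (l 16780720)) (c (l 16781808) (l 16780424)))) (b (a (c (l 16781352) (l 16780200)) (c (l 16780960) (l 16779896))) (a (c (l 16781424) (l 16780128)) (c (l 16781048) (l 16779856))))) (a (a (b (l 16778688) (l 16773096)) (b (l 16778504) (l 16778192))) (b (c (l 16773624) (l 16772384)) (c (l 16773424) (l 16772032))))))), by decide +kernel⟩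

def k127_A00pm_123_s3 : ∃ t, chk3 f_A00pm_123_s3 t 124 30 1 = true :=
  ⟨(b (b (c (a (b (a (l 16789632) (l 16787888)) (a (l 16790528) (l 16788720))) (a (c (l 16782344) (l 16785656)) (c (b (l 16780360) (l 16786336)) (c (l 16779360) (l 16773144))))) (a (c (l 16780832) (l 16773384)) (c (a (l 16783624) (l 16782128)) (a (l 16781472) (l 16780024))))) (a (c (b (l 16779952) (l 16780784)) (b (l 16775704) (l 16776448))) (c (b (a (l 16787784) (l 16786152)) (a (l 16788576) (l 16786912))) (c (a (l 16785104) (l 16783536)) (a (l 16782904) (l 16781384)))))) (a (c (b (c (l 16793672) (l 16791512)) (c (l 16795664) (l 16793280))) (b (c (l 16789224) (l 16776320)) (c (l 16790744) (b (l 16787728) (l 16788320))))) (c (b (b (l 16778016) (l 16778848)) (b (l 16779696) (l 16780584))) (b (c (l 16775208) (a (l 16784200) (l 16782624))) (c (l 16776584) (a (l 16785344) (l 16773224))))))), by decide +kernel⟩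

def k128_A00pm_123_s3 : ∃ t, chk3 f_A00pm_123_s3 t 250 120 1 = true :=
  ⟨(b (a (a (c (c (l 16784488) (l 16782640)) (l 16774432)) (b (c (a (l 16782880) (b (b (a (l 16782480) (l 16782408)) (l 16782472)) (l 16782640))) (c (b (l 16774456) (l 16779952)) (l 16772464))) (c (l 16783064) (l 16779216)))) (c (b (c (a (b (a (l 16780560) (l 16782904)) (a (l 16780512) (a (b (l 16782992) (l 16782968)) (l 16782912)))) (l 16782608)) (a (b (l 16776104) (a (l 16781336) (a (l 16781200) (l 16781144)))) (l 16780920))) (c (a (l 16783264) (b (a (b (a (l 16782768) (l 16782680)) (l 16782720)) (l 16782576)) (a (l 16782888) (a (l 16782608) (b (l 16782496) (l 16782528)))))) (a (l 16781472) (b (a (a (l 16780992) (l 16778320)) (l 16780848)) (a (l 16781120) (b (l 16780784) (l 16780848))))))) (b (a (c (b (l 16779496) (b (l 16774144) (l 16774088))) (b (l 16777536) (l 16772128))) (l 16778200)) (a (l 16778584) (b (c (a (l 16773864) (l 16779024)) (l 16771928)) (c (a (l 16779248) (l 16773680)) (l 16771808))))))) (c (c (a (l 16779600) (c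 (l 16778656) (l 16783032))) (a (l 16783008) (c (l 16782144) (l 16781232)))) (c (a (l 16781056) (l 16774568)) (c (l 16773640) (l 16767360))))), by decide +kernel⟩

def k129_A00pm_123_s3 : ∃ t, chk3 f_A00pm_123_s3 t 251 240 1 = true :=
  ⟨(c (c (a (a (b (l 16782216) (b (l 16782224) (a (b (l 16782328) (c (l 16780168) (l 16781952))) (l 16782144)))) (c (l 16782224) (l 16781480))) (a (c (l 16781832) (l 16781136)) (l 16778512))) (a (a (b (l 16780624) (b (l 16780576) (a (l 16778064) (l 16780472)))) (l 16780320)) (a (l 16780048) (l 16779792)))) (a (c (a (b (l 16778936) (b (l 16778824) (l 16773616))) (l 16778688)) (b (l 16777112) (a (l 16771816) (l 16776856)))) (c (b (l 16778496) (l 16778384)) (l 16771648)))), by decide +kernel⟩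

def k130_A00pm_123_s3 : ∃ t, chk3 f_A00pm_123_s3 t 251 241 1 = true :=
  ⟨(a (c (b (c (a (b (a (b (l 16779720) (l 16782472)) (b (l 16782200) (a (l 16782208) (l 16782136)))) (l 16782416)) (b (l 16781880) (a (b (a (l 16779416) (l 16781952)) (a (l 16782104) (l 16781944))) (l 16781856)))) (a (b (a (l 16780632) (b (l 16780504) (l 16777832))) (l 16780688)) (a (b (l 16780312) (b (l 16780336) (l 16780288))) (l 16780232)))) (a (c (l 16782680) (l 16780952)) (a (l 16784008) (b (b (a (b (l 16781024) (l 16781080)) (b (l 16780960) (l 16783584))) (l 16783656)) (l 16781184))))) (a (b (b (a (c (l 16778792) (l 16776856)) (c (c (l 16773912) (l 16778224)) (l 16776792))) (l 16777912)) (l 16778168)) (a (b (b (l 16777632) (b (a (l 16777600) (l 16777568)) (l 16782800))) (l 16777792)) (b (c (l 16778504) (l 16776680)) (b (a (l 16777480) (b (l 16777448) (l 16777424))) (l 16777624)))))) (c (c (b (a (l 16781528) (l 16781184)) (a (b (a (b (l 16781632) (a (l 16784328) (l 16781600))) (l 16781464)) (a (b (a (l 16781752) (c (l 16779392)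 (l 16781208))) (l 16781760)) (b (l 16781512) (a (l 16784152) (l 16781480))))) (l 16781216))) (a (b (l 16779976) (b (a (b (l 16780008) (l 16777424)) (l 16779880)) (a (c (l 16777808) (l 16776952)) (b (l 16779896) (c (l 16777680) (l 16776840)))))) (l 16777096))) (c (b (l 16773016) (a (a (b (l 16778344) (b (l 16778232) (l 16778344))) (b (l 16778200) (b (l 16778184) (l 16775536)))) (l 16778080))) (a (b (l 16776592) (b (l 16776536) (a (l 16776384) (l 16771144)))) (l 16776472))))), by decide +kernel⟩

def k131_A00pm_123_s3 : ∃ t, chk3 f_A00pm_123_s3 t 125 121 1 = true :=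
  ⟨(a (a (c (b (c (l 16785560) (l 16783712)) (l 16785368)) (c (l 16782096) (l 16780008))) (c (c (b (l 16778904) (l 16784840)) (c (l 16777920) (l 16776992))) (c (c (l 16776040) (l 16769816)) (l 16773536)))) (a (c (c (b (b (l 16780064) (l 16783008)) (l 16778256)) (b (c (l 16781576) (l 16780688)) (l 16781760))) (c (b (l 16774072) (l 16779920)) (c (l 16772952) (l 16771960)))) (b (c (b (b (a (a (l 16781056) (a (l 16780856) (c (l 16784096) (l 16779840)))) (a (b (a (b (l 16780592) (l 16783208)) (l 16780504)) (a (l 16780592) (b (l 16780528) (a (l 16780528) (l 16780496))))) (l 16780400))) (b (a (l 16781032) (a (l 16780624) (a (b (l 16783080) (l 16783056)) (l 16780384)))) (a (l 16781104) (a (l 16780704) (a (l 16780512) (b (a (l 16780384) (l 16780368)) (l 16780376))))))) (c (a (l 16782112) (l 16781544)) (a (l 16780456) (l 16779936)))) (b (b (a (c (l 16778264) (l 16776416)) (a (a (b (l 16777184) (l 16777152)) (b (l 16777128) (l 16782360))) (l 16777096))) (a (l 16777568) (a (l 16777224) (b (c (l 16775336) (l 16776184))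 (c (l 16775280) (l 16776112)))))) (c (l 16778448) (l 16776616)))) (c (a (c (l 16782576) (l 16780904)) (c (l 16779368) (l 16780368))) (c (a (l 16779136) (l 16778648)) (l 16771784)))))), by decide +kernel⟩

def k132_A00pm_123_s3 : ∃ t, chk3 f_A00pm_123_s3 t 125 61 1 = true :=
  ⟨(a (c (b (a (b (l 16786104) (l 16786864)) (b (l 16784640) (l 16785352))) (b (a (l 16787648) (l 16786080)) (l 16777120))) (b (a (c (l 16772920) (l 16770704)) (c (l 16771552) (l 16769416))) (c (a (l 16784664) (l 16772728)) (a (l 16771728) (l 16770384))))) (c (c (b (a (l 16779280) (b (l 16777648) (l 16783528))) (b (l 16779592) (l 16775056))) (b (a (l 16777472) (b (l 16775968) (l 16781792))) (a (l 16783992) (l 16777440)))) (b (a (c (l 16775552) (l 16773520)) (c (b (l 16774176) (l 16779944)) (c (l 16773024) (l 16772032)))) (a (b (l 16775296) (l 16775768)) (b (l 16774192) (a (l 16769664) (l 16769128))))))), by decide +kernel⟩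

def k133_A00pm_123_s3 : ∃ t, chk3 f_A00pm_123_s3 t 62 62 1 = true :=
  ⟨(a (c (b (a (l 16786024) (b (l 16771000) (l 16771928))) (a (b (c (l 16778424) (l 16775480)) (l 16775400)) (b (l 16783480) (l 16782784)))) (b (c (a (l 16781784) (l 16777952)) (a (b (l 16788904) (l 16784232)) (b (l 16785256) (l 16780520)))) (c (a (b (b (l 16793224) (l 16793176)) (l 16791216)) (b (l 16779088) (a (l 16789256) (l 16787944)))) (a (b (b (l 16789904) (a (l 16790592) (l 16783800))) (c (l 16788432) (l 16786496))) (b (c (l 16781960) (a (l 16775936) (l 16784616))) (a (l 16780480) (b (l 16780072) (l 16784048)))))))) (c (a (b (c (l 16779488) (l 16777128)) (b (l 16779544) (a (l 16780656) (b (l 16789792) (l 16789544))))) (b (a (c (l 16787472) (l 16785288)) (c (l 16785912) (l 16783864))) (b (a (l 16787456) (l 16785848)) (b (l 16781864) (a (l 16788160) (l 16786672)))))) (a (b (a (b (l 16784264) (l 16779560)) (b (l 16772312) (l 16778048))) (c (b (l 16785968) (a (l 16776216) (b (l 16785672) (l 16785280)))) (a (b (l 16783800) (b (b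 (l 16784080) (l 16773512)) (l 16783144))) (b (l 16771840) (b (l 16772192) (l 16776936)))))) (b (b (a (l 16776232) (a (l 16770088) (l 16769536))) (c (l 16777248) (a (l 16780616) (l 16768992)))) (c (b (l 16777744) (a (b (l 16784104) (l 16773696)) (l 16777680))) (b (a (l 16770512) (l 16774576)) (a (b (l 16781280) (c (l 16771544) (l 16775288))) (a (l 16775304) (l 16774696))))))))), by decide +kernel⟩

def k134_A00pm_123_s3 : ∃ t, chk3 f_A00pm_123_s3 t 62 63 2 = true :=
  ⟨(a (b (a (c (l 16794464) (l 16769672)) (c (l 16770976) (l 16777968))) (a (b (l 16778376) (a (l 16765872) (l 16765064))) (c (l 16777464) (b (l 16784976) (l 16772208))))) (b (b (a (l 16778424) (c (l 16782480) (l 16774680))) (a (l 16776568) (c (l 16786416) (l 16773168)))) (a (b (c (l 16786928) (l 16772952)) (a (l 16773264) (l 16772552))) (b (c (l 16774504) (l 16771544)) (c (l 16773072) (c (l 16770736) (l 16774352))))))), by decide +kernel⟩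

def k135_A00pm_123_s3 : ∃ t, chk3 f_A00pm_123_s3 t 62 63 3 = true :=
  ⟨(b (a (c (a (b (l 16788088) (l 16774520)) (b (l 16786032) (l 16772872))) (a (b (c (l 16784992) (l 16772360)) (a (l 16770304) (l 16769600))) (a (b (l 16772128) (l 16768976)) (b (l 16771336) (l 16768416))))) (a (c (b (l 16784184) (l 16771432)) (a (b (l 16770616) (l 16773176)) (b (l 16775208) (l 16772768)))) (c (b (a (l 16782944) (l 16771584)) (c (l 16770960) (l 16769424))) (b (a (l 16774632) (b (l 16774520) (l 16778856))) (a (c (l 16778520) (l 16771560)) (c (l 16778168) (l 16771360))))))) (a (c (a (b (l 16771480) (c (l 16780280) (l 16767192))) (b (l 16770240) (c (l 16779304) (l 16766464)))) (a (b (c (l 16767768) (c (l 16765848) (l 16769784))) (b (a (l 16764112) (l 16763816)) (c (l 16774168) (a (l 16771424) (l 16771296))))) (a (b (c (l 16777552) (l 16775144)) (b (l 16763592) (a (l 16772600) (l 16772568)))) (b (c (l 16777168) (l 16764408)) (c (l 16774448) (b (l 16772720) (l 16771296))))))) (c (a (b (c (l 16780648) (l 16768224)) (a (l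 16767152) (l 16766888))) (b (a (l 16768568) (l 16768200)) (a (l 16771904) (b (l 16777400) (l 16776544))))) (b (a (a (c (l 16776856) (l 16764224)) (c (l 16776600) (l 16769368))) (a (c (l 16776416) (l 16769336)) (b (l 16770688) (l 16769728)))) (a (a (c (l 16774344) (b (l 16772720) (l 16771408))) (c (l 16769072) (b (l 16772792) (l 16771592)))) (a (c (l 16769096) (a (l 16767096) (l 16767208))) (c (b (l 16774888) (l 16773968)) (b (l 16773144) (l 16766928))))))))), by decide +kernel⟩

def k136_A00pm_123_s3 : ∃ t, chk3 f_A00pm_123_s3 t 252 56 1 = true :=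
  ⟨(b (l 4) (a (c (a (b (l 4) (b (a (l 537549327) (l 4)) (a (c (l 537912591) (l 537461263)) (c (l 537913871) (l 537462287))))) (l 4)) (c (b (l 4) (a (b (a (l 537263631) (l 4)) (a (c (l 537317903) (l 537219087)) (b (l 4) (l 537270543)))) (l 4))) (b (l 4) (a (a (a (b (b (l 4) (l 537129231)) (b (l 537064975) (l 537067535))) (b (l 4) (b (l 537132303) (b (l 537167631) (l 537068047))))) (a (b (l 4) (b (l 4) (a (a (l 537067535) (l 537067535)) (l 537067791)))) (l 4))) (l 4))))) (l 4))), by decide +kernel⟩

def k137_A00pm_123_s3 : ∃ t, chk3 f_A00pm_123_s3 t 252 114 1 = true :=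
  ⟨(a (a (b (c (a (b (l 537558031) (l 537561615)) (b (l 537559055) (l 537830927))) (a (b (b (c (l 537540367) (a (l 537069839) (l 537069839))) (c (l 537542415) (c (l 537391887) (l 537087247)))) (c (l 537276687) (a (l 537074191) (l 537074191)))) (b (c (l 537273871) (c (l 537123087) (b (l 537085455) (l 537020431)))) (c (l 537276943) (b (l 537073935) (l 537075215)))))) (c (a (c (l 537925135) (l 537473295)) (c (l 537926159) (l 537474063))) (a (a (b (l 537178639) (l 537179919)) (b (l 537178639) (l 537179919))) (b (c (l 537547791) (l 537076751)) (c (l 537549327) (l 537077519)))))) (b (c (a (b (l 537560335) (l 537563663)) (b (l 4) (l 537564943))) (b (a (c (l 537274383) (b (l 4) (l 537072655))) (l 4)) (a (c (l 537277711) (b (l 537074191) (l 537075471))) (c (l 537278479) (b (l 4) (l 537075983)))))) (b (c (a (l 537834767) (l 537567503)) (a (c (l 537548303) (l 537077007)) (c (l 537280527) (l 537077263)))) (c (c (l 537930255) (l 537477391)) (a (c (l 537549583) (l 537077519)) (b (l 537180687) (l 537180943))))))) (a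 (b (l 4) (c (a (b (l 537568783) (l 537839375)) (b (l 4) (l 537840911))) (b (a (c (l 537281551) (l 537078031)) (l 4)) (a (b (l 537181455) (l 537181455)) (c (l 537283599) (l 537079055)))))) (l 4))), by decide +kernel⟩

def k138_A00pm_123_s3 : ∃ t, chk3 f_A00pm_123_s3 t 252 115 1 = true :=
  ⟨(a (b (a (c (b (a (l 537837071) (l 537837839)) (a (l 537838351) (l 537838863))) (b (a (l 537180687) (l 537180431)) (a (l 537448207) (l 537447951)))) (c (b (a (l 537838607) (l 537839631)) (a (l 537839631) (l 537840655))) (b (a (l 537180431) (l 537180687)) (a (l 537447695) (l 537447695))))) (a (c (b (l 537304079) (l 537304079)) (b (a (l 537446159) (l 537445647)) (a (l 537443087) (l 537442319)))) (c (b (a (l 537840143) (l 537840911)) (a (l 537839887) (l 537840655))) (b (a (l 537445391) (l 537445391)) (a (l 537441807) (l 537441551)))))) (a (b (a (b (c (l 537840655) (l 537181199)) (c (l 537841679) (l 537179663))) (b (c (l 537842191) (l 537047823)) (c (l 537842959) (b (l 537180687) (l 537179407))))) (c (b (a (l 537841935)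 (l 537842959)) (a (l 537841423) (l 537842447))) (a (b (l 537445391) (l 537441551)) (b (c (l 537548815) (l 537071887)) (l 537441807))))) (a (b (b (c (l 537575183) (a (l 537182223) (l 4))) (c (l 537844239) (c (l 537283599) (l 537076239)))) (b (c (l 537844495) (b (l 537178895) (l 537177103))) (c (l 537843727) (l 537174031)))) (b (b (l 4) (c (l 537846031) (l 537182479))) (b (c (l 537846031) (l 537179407)) (c (l 537845263) (l 537175055))))))), by decide +kernel⟩

def k139_A00pm_123_s3 : ∃ t, chk3 f_A00pm_123_s3 t 253 28 1 = true :=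
  ⟨(b (l 4) (a (b (l 4) (b (l 4) (a (c (b (a (l 537848079) (l 4)) (a (l 537847311) (l 537849359))) (a (b (c (l 537284623) (l 537074959)) (c (l 537281039) (l 537069583))) (a (b (l 4) (l 537177103)) (l 4)))) (l 4)))) (l 4))), by decide +kernel⟩

def k140_A00pm_123_s3 : ∃ t, chk3 f_A00pm_123_s3 t 252 116 1 = true :=
  ⟨(a (b (a (c (b (l 537571855) (l 537570575)) (b (a (l 537438735) (l 537437967)) (a (l 537433359) (l 537432335)))) (c (b (a (l 537839119) (l 537839631)) (l 537168911)) (b (a (l 537437199) (l 537436943)) (a (l 537431567) (l 537430799))))) (b (a (c (l 537567247) (c (l 16778664) (l 536780303))) (c (l 537298959) (a (l 537422607) (l 537421583)))) (a (c (l 537555727) (a (l 16778552) (l 537405455))) (c (l 537285391) (a (l 537403151) (l 537400591)))))) (b (a (a (b (c (l 537840399) (l 537436687)) (c (l 537838863) (l 537430543))) (b (c (l 537841423) (l 537436687)) (c (l 537839631) (l 537430287)))) (c (a (b (l 537842447) (l 537840655)) (b (l 537843983) (l 537841935))) (a (b (l 537168655) (l 537430543))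 (b (l 537169423) (l 536894479))))) (a (c (b (a (l 537833999) (l 537834511)) (a (l 537818127) (l 537816591))) (b (a (l 537420559) (l 537419791)) (a (l 537398031) (l 537394959)))) (c (b (a (l 537834767) (l 537835279)) (a (l 537814287) (l 537810959))) (b (a (l 536882447) (c (l 537258511) (l 537307919))) (a (l 537123087) (c (l 537228815) (l 537274127)))))))), by decide +kernel⟩

def k141_A00pm_123_s3 : ∃ t, chk3 f_A00pm_123_s3 t 252 117 1 = true :=
  ⟨(a (b (c (a (c (l 16779936) (l 16779400)) (b (l 537264143) (l 537237007))) (a (c (l 16776208) (b (l 536733455) (l 16772976))) (b (a (l 537374991) (l 537370639)) (a (l 16778360) (l 537334031))))) (c (a (c (l 16780152) (l 16779520)) (c (l 16779728) (l 16779168))) (a (c (l 16778840) (c (l 16778320) (l 16772712))) (a (b (l 16778344) (l 16778312)) (b (l 537295375) (l 14)))))) (b (c (a (b (a (l 16776296) (l 537789455)) (l 536959247)) (b (a (l 537785103) (l 537781263)) (a (l 537756175) (l 14)))) (a (b (a (l 537365519) (l 537359631)) (a (l 537327119) (l 537320975)))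 (a (b (l 537085455) (l 537047311)) (b (c (l 537461007) (l 537233423)) (l 14))))) (b (a (c (l 537199375) (a (l 537289231) (l 14))) (l 14)) (l 14)))), by decide +kernel⟩

def k142_A00pm_123_s3 : ∃ t, chk3 f_A00pm_123_s3 t 253 58 1 = true :=
  ⟨(a (b (a (b (c (b (a (l 537845775) (l 537847823)) (a (l 537843727) (l 537845519))) (a (b (c (l 537276431) (l 537062671)) (c (l 537270799) (l 537054479))) (a (b (l 537439759) (l 537432591)) (b (l 537440783) (l 537433615))))) (c (b (a (l 537835023) (l 537833487)) (a (l 537807375) (l 537804815))) (c (b (a (l 537526287) (l 537524239)) (a (l 537224463) (l 537489423))) (b (a (a (l 537037839) (l 537036815)) (b (l 537045007) (l 537026575))) (a (l 537000719) (a (l 536996623) (l 536995343))))))) (b (a (c (b (l 537850383) (l 537855759)) (a (b (l 537173519) (l 537166351)) (b (l 4) (b (l 537437711) (l 537168911))))) (b (l 4) (a (b (l 4) (c (l 537851663) (l 537170447))) (l 4)))) (a (c (b (l 537830415) (l 537805327)) (b (c (l 537520655) (a (l 537033743) (l 537032463))) (c (l 537489679)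 (a (l 536994831) (l 536996111))))) (b (c (l 537837583) (c (l 537528079) (a (l 537035791) (c (l 537365519) (l 536984335))))) (l 14))))) (b (a (a (b (b (a (l 537575183) (l 537305359)) (l 14)) (l 14)) (l 14)) (l 14)) (l 14))) (a (a (b (b (l 4) (b (b (l 4) (l 14)) (l 14))) (l 14)) (b (l 4) (l 14))) (b (l 4) (l 14)))), by decide +kernel⟩

def k143_A00pm_123_s3 : ∃ t, chk3 f_A00pm_123_s3 t 126 59 1 = true :=
  ⟨(a (a (a (a (b (b (c (l 16780048) (l 16775816)) (c (l 16780128) (l 16778280))) (b (c (c (l 16780680) (l 16779680)) (l 16778080)) (c (c (l 16780776) (l 16779656)) (l 16777848)))) (l 14)) (l 14)) (l 14)) (l 14)), by decide +kernel⟩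

def k144_A00pm_123_s3 : ∃ t, chk3 f_A00pm_123_s3 t 126 15 1 = true :=
  ⟨(b (b (a (a (b (a (a (a (b (c (c (l 16780912) (l 16779640)) (l 16772344)) (c (c (l 16781000) (l 16779576)) (c (l 16778072) (l 16776480)))) (l 14)) (l 14)) (l 14)) (b (b (a (a (c (b (l 16780264) (c (l 16783688) (l 16779528))) (c (l 16777936) (l 16776224))) (l 14)) (l 14)) (a (a (a (a (c (b (l 16780376) (l 16780536)) (l 16777080)) (l 14)) (l 14)) (l 14)) (l 14))) (a (a (c (c (l 16781576) (l 16779992)) (c (l 16778312) (l 16776528))) (l 14)) (l 14)))) (l 14)) (l 14)) (a (a (a (a (a (b (c (b (l 16776192) (l 16782016)) (c (l 16773904) (l 16772048))) (c (l 16777672) (c (l 16780104) (l 16767600)))) (l 14)) (l 14)) (l 14)) (l 14)) (l 14))) (b (a (a (a (a (c (b (l 16778792) (l 16774720)) (b (b (l 16769144) (l 16769528)) (c (l 16781824) (l 16774120)))) (l 14)) (l 14)) (l 14)) (l 14)) (b (a (a (a (c (b (l 16779824) (l 16783880)) (c (b (l 16770992) (l 16780024)) (b (b (l 16774096) (l 16778560)) (l 16771984)))) (l 14)) (l 14)) (l 14)) (a (a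 (a (a (c (c (l 16772832) (l 16775368)) (c (b (l 16778488) (l 16776896)) (b (l 16770216) (c (l 16774512) (l 16767616))))) (l 14)) (l 14)) (l 14)) (l 14))))), by decide +kernel⟩

def k145_A00pm_123_s3 : ∃ t, chk3 f_A00pm_123_s3 t 127 7 1 = true :=
  ⟨(b (b (l 4) (b (b (l 4) (l 14)) (l 14))) (l 14)), by decide +kernel⟩

theorem t146_A00pm_123_s3 : ∃ t, chk3 f_A00pm_123_s3 t 252 58 1 = true := ex3_b k140_A00pm_123_s3 k141_A00pm_123_s3

theorem t147_A00pm_123_s3 : ∃ t, chk3 f_A00pm_123_s3 t 126 58 1 = true := ex3_a t146_A00pm_123_s3 k142_A00pm_123_s3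

theorem t148_A00pm_123_s3 : ∃ t, chk3 f_A00pm_123_s3 t 126 29 1 = true := ex3_b t147_A00pm_123_s3 k143_A00pm_123_s3

theorem t149_A00pm_123_s3 : ∃ t, chk3 f_A00pm_123_s3 t 252 57 1 = true := ex3_b k137_A00pm_123_s3 k138_A00pm_123_s3

theorem t150_A00pm_123_s3 : ∃ t, chk3 f_A00pm_123_s3 t 252 28 1 = true := ex3_b k136_A00pm_123_s3 t149_A00pm_123_s3

theorem t151_A00pm_123_s3 : ∃ t, chk3 f_A00pm_123_s3 t 126 28 1 = true := ex3_a t150_A00pm_123_s3 k139_A00pm_123_s3

theorem t152_A00pm_123_s3 : ∃ t, chk3 f_A00pm_123_s3 t 126 14 1 = true := ex3_b t151_A00pm_123_s3 t148_A00pm_123_s3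

theorem t153_A00pm_123_s3 : ∃ t, chk3 f_A00pm_123_s3 t 126 7 1 = true := ex3_b t152_A00pm_123_s3 k144_A00pm_123_s3

theorem t154_A00pm_123_s3 : ∃ t, chk3 f_A00pm_123_s3 t 63 7 1 = true := ex3_a t153_A00pm_123_s3 k145_A00pm_123_s3

theorem t155_A00pm_123_s3 : ∃ t, chk3 f_A00pm_123_s3 t 62 63 1 = true := ex3_c k134_A00pm_123_s3 k135_A00pm_123_s3

theorem t156_A00pm_123_s3 : ∃ t, chk3 f_A00pm_123_s3 t 62 31 1 = true := ex3_b k133_A00pm_123_s3 t155_A00pm_123_s3

theorem t157_A00pm_123_s3 : ∃ t, chk3 f_A00pm_123_s3 t 251 120 1 = true := ex3_b k129_A00pm_123_s3 k130_A00pm_123_s3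

theorem t158_A00pm_123_s3 : ∃ t, chk3 f_A00pm_123_s3 t 125 120 1 = true := ex3_a k128_A00pm_123_s3 t157_A00pm_123_s3

theorem t159_A00pm_123_s3 : ∃ t, chk3 f_A00pm_123_s3 t 125 60 1 = true := ex3_b t158_A00pm_123_s3 k131_A00pm_123_s3

theorem t160_A00pm_123_s3 : ∃ t, chk3 f_A00pm_123_s3 t 125 30 1 = true := ex3_b t159_A00pm_123_s3 k132_A00pm_123_s3

theorem t161_A00pm_123_s3 : ∃ t, chk3 f_A00pm_123_s3 t 62 30 1 = true := ex3_a k127_A00pm_123_s3 t160_A00pm_123_s3

theorem t162_A00pm_123_s3 : ∃ t, chk3 f_A00pm_123_s3 t 62 15 1 = true := ex3_b t161_A00pm_123_s3 t156_A00pm_123_s3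

theorem t163_A00pm_123_s3 : ∃ t, chk3 f_A00pm_123_s3 t 125 29 1 = true := ex3_b k125_A00pm_123_s3 k126_A00pm_123_s3

theorem t164_A00pm_123_s3 : ∃ t, chk3 f_A00pm_123_s3 t 251 57 1 = true := ex3_b k123_A00pm_123_s3 k124_A00pm_123_s3

theorem t165_A00pm_123_s3 : ∃ t, chk3 f_A00pm_123_s3 t 125 57 1 = true := ex3_a k122_A00pm_123_s3 t164_A00pm_123_s3

theorem t166_A00pm_123_s3 : ∃ t, chk3 f_A00pm_123_s3 t 251 113 1 = true := ex3_c k120_A00pm_123_s3 k121_A00pm_123_s3

theorem t167_A00pm_123_s3 : ∃ t, chk3 f_A00pm_123_s3 t 251 56 1 = true := ex3_b k119_A00pm_123_s3 t166_A00pm_123_s3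

theorem t168_A00pm_123_s3 : ∃ t, chk3 f_A00pm_123_s3 t 125 56 1 = true := ex3_a k118_A00pm_123_s3 t167_A00pm_123_s3

theorem t169_A00pm_123_s3 : ∃ t, chk3 f_A00pm_123_s3 t 125 28 1 = true := ex3_b t168_A00pm_123_s3 t165_A00pm_123_s3

theorem t170_A00pm_123_s3 : ∃ t, chk3 f_A00pm_123_s3 t 125 14 1 = true := ex3_b t169_A00pm_123_s3 t163_A00pm_123_s3

theorem t171_A00pm_123_s3 : ∃ t, chk3 f_A00pm_123_s3 t 249 14 1 = true := ex3_b k116_A00pm_123_s3 k117_A00pm_123_s3

theorem t172_A00pm_123_s3 : ∃ t, chk3 f_A00pm_123_s3 t 124 14 1 = true := ex3_a k115_A00pm_123_s3 t171_A00pm_123_s3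

theorem t173_A00pm_123_s3 : ∃ t, chk3 f_A00pm_123_s3 t 62 14 1 = true := ex3_a t172_A00pm_123_s3 t170_A00pm_123_s3

theorem t174_A00pm_123_s3 : ∃ t, chk3 f_A00pm_123_s3 t 62 7 1 = true := ex3_b t173_A00pm_123_s3 t162_A00pm_123_s3

theorem t175_A00pm_123_s3 : ∃ t, chk3 f_A00pm_123_s3 t 31 7 1 = true := ex3_a t174_A00pm_123_s3 t154_A00pm_123_s3

theorem t176_A00pm_123_s3 : ∃ t, chk3 f_A00pm_123_s3 t 61 31 1 = true := ex3_c k113_A00pm_123_s3 k114_A00pm_123_s3

theorem t177_A00pm_123_s3 : ∃ t, chk3 f_A00pm_123_s3 t 60 31 7 = true := ex3_b k111_A00pm_123_s3 k112_A00pm_123_s3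

theorem t178_A00pm_123_s3 : ∃ t, chk3 f_A00pm_123_s3 t 60 31 3 = true := ex3_c k110_A00pm_123_s3 t177_A00pm_123_s3

theorem t179_A00pm_123_s3 : ∃ t, chk3 f_A00pm_123_s3 t 60 31 1 = true := ex3_c k109_A00pm_123_s3 t178_A00pm_123_s3

theorem t180_A00pm_123_s3 : ∃ t, chk3 f_A00pm_123_s3 t 30 31 1 = true := ex3_a t179_A00pm_123_s3 t176_A00pm_123_s3

theorem t181_A00pm_123_s3 : ∃ t, chk3 f_A00pm_123_s3 t 30 30 1 = true := ex3_a k107_A00pm_123_s3 k108_A00pm_123_s3

theorem t182_A00pm_123_s3 : ∃ t, chk3 f_A00pm_123_s3 t 30 15 1 = true := ex3_b t181_A00pm_123_s3 t180_A00pm_123_s3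

theorem t183_A00pm_123_s3 : ∃ t, chk3 f_A00pm_123_s3 t 123 14 1 = true := ex3_b k105_A00pm_123_s3 k106_A00pm_123_s3

theorem t184_A00pm_123_s3 : ∃ t, chk3 f_A00pm_123_s3 t 61 14 1 = true := ex3_a k104_A00pm_123_s3 t183_A00pm_123_s3

theorem t185_A00pm_123_s3 : ∃ t, chk3 f_A00pm_123_s3 t 60 14 1 = true := ex3_b k102_A00pm_123_s3 k103_A00pm_123_s3

theorem t186_A00pm_123_s3 : ∃ t, chk3 f_A00pm_123_s3 t 30 14 1 = true := ex3_a t185_A00pm_123_s3 t184_A00pm_123_s3

theorem t187_A00pm_123_s3 : ∃ t, chk3 f_A00pm_123_s3 t 30 7 1 = true := ex3_b t186_A00pm_123_s3 t182_A00pm_123_s3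

theorem t188_A00pm_123_s3 : ∃ t, chk3 f_A00pm_123_s3 t 15 7 1 = true := ex3_a t187_A00pm_123_s3 t175_A00pm_123_s3

theorem t189_A00pm_123_s3 : ∃ t, chk3 f_A00pm_123_s3 t 59 62 3 = true := ex3_a k99_A00pm_123_s3 k100_A00pm_123_s3

theorem t190_A00pm_123_s3 : ∃ t, chk3 f_A00pm_123_s3 t 59 31 3 = true := ex3_b t189_A00pm_123_s3 k101_A00pm_123_s3

theorem t191_A00pm_123_s3 : ∃ t, chk3 f_A00pm_123_s3 t 59 31 1 = true := ex3_c k98_A00pm_123_s3 t190_A00pm_123_s3

theorem t192_A00pm_123_s3 : ∃ t, chk3 f_A00pm_123_s3 t 59 15 1 = true := ex3_b k97_A00pm_123_s3 t191_A00pm_123_s3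

theorem t193_A00pm_123_s3 : ∃ t, chk3 f_A00pm_123_s3 t 58 15 1 = true := ex3_b k95_A00pm_123_s3 k96_A00pm_123_s3

theorem t194_A00pm_123_s3 : ∃ t, chk3 f_A00pm_123_s3 t 29 15 1 = true := ex3_a t193_A00pm_123_s3 t192_A00pm_123_s3

theorem t195_A00pm_123_s3 : ∃ t, chk3 f_A00pm_123_s3 t 59 28 1 = true := ex3_b k92_A00pm_123_s3 k93_A00pm_123_s3

theorem t196_A00pm_123_s3 : ∃ t, chk3 f_A00pm_123_s3 t 29 28 1 = true := ex3_a k91_A00pm_123_s3 t195_A00pm_123_s3

theorem t197_A00pm_123_s3 : ∃ t, chk3 f_A00pm_123_s3 t 29 14 1 = true := ex3_b t196_A00pm_123_s3 k94_A00pm_123_s3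

theorem t198_A00pm_123_s3 : ∃ t, chk3 f_A00pm_123_s3 t 29 7 1 = true := ex3_b t197_A00pm_123_s3 t194_A00pm_123_s3

theorem t199_A00pm_123_s3 : ∃ t, chk3 f_A00pm_123_s3 t 57 31 1 = true := ex3_c k89_A00pm_123_s3 k90_A00pm_123_s3

theorem t200_A00pm_123_s3 : ∃ t, chk3 f_A00pm_123_s3 t 57 15 1 = true := ex3_b k88_A00pm_123_s3 t199_A00pm_123_s3

theorem t201_A00pm_123_s3 : ∃ t, chk3 f_A00pm_123_s3 t 113 127 1 = true := ex3_c k86_A00pm_123_s3 k87_A00pm_123_s3

theorem t202_A00pm_123_s3 : ∃ t, chk3 f_A00pm_123_s3 t 225 511 3 = true := ex3_a k84_A00pm_123_s3 k85_A00pm_123_s3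

theorem t203_A00pm_123_s3 : ∃ t, chk3 f_A00pm_123_s3 t 112 511 3 = true := ex3_a k83_A00pm_123_s3 t202_A00pm_123_s3

theorem t204_A00pm_123_s3 : ∃ t, chk3 f_A00pm_123_s3 t 112 255 3 = true := ex3_b k82_A00pm_123_s3 t203_A00pm_123_s3

theorem t205_A00pm_123_s3 : ∃ t, chk3 f_A00pm_123_s3 t 112 255 1 = true := ex3_c k81_A00pm_123_s3 t204_A00pm_123_s3

theorem t206_A00pm_123_s3 : ∃ t, chk3 f_A00pm_123_s3 t 112 127 1 = true := ex3_b k80_A00pm_123_s3 t205_A00pm_123_s3

theorem t207_A00pm_123_s3 : ∃ t, chk3 f_A00pm_123_s3 t 56 127 1 = true := ex3_a t206_A00pm_123_s3 t201_A00pm_123_s3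

theorem t208_A00pm_123_s3 : ∃ t, chk3 f_A00pm_123_s3 t 56 63 1 = true := ex3_b k79_A00pm_123_s3 t207_A00pm_123_s3

theorem t209_A00pm_123_s3 : ∃ t, chk3 f_A00pm_123_s3 t 56 62 1 = true := ex3_a k77_A00pm_123_s3 k78_A00pm_123_s3

theorem t210_A00pm_123_s3 : ∃ t, chk3 f_A00pm_123_s3 t 56 31 1 = true := ex3_b t209_A00pm_123_s3 t208_A00pm_123_s3

theorem t211_A00pm_123_s3 : ∃ t, chk3 f_A00pm_123_s3 t 112 61 1 = true := ex3_c k74_A00pm_123_s3 k75_A00pm_123_s3

theorem t212_A00pm_123_s3 : ∃ t, chk3 f_A00pm_123_s3 t 112 30 1 = true := ex3_b k73_A00pm_123_s3 t211_A00pm_123_s3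

theorem t213_A00pm_123_s3 : ∃ t, chk3 f_A00pm_123_s3 t 56 30 1 = true := ex3_a t212_A00pm_123_s3 k76_A00pm_123_s3

theorem t214_A00pm_123_s3 : ∃ t, chk3 f_A00pm_123_s3 t 56 15 1 = true := ex3_b t213_A00pm_123_s3 t210_A00pm_123_s3

theorem t215_A00pm_123_s3 : ∃ t, chk3 f_A00pm_123_s3 t 28 15 1 = true := ex3_a t214_A00pm_123_s3 t200_A00pm_123_s3

theorem t216_A00pm_123_s3 : ∃ t, chk3 f_A00pm_123_s3 t 28 7 1 = true := ex3_b k72_A00pm_123_s3 t215_A00pm_123_s3

theorem t217_A00pm_123_s3 : ∃ t, chk3 f_A00pm_123_s3 t 14 7 1 = true := ex3_a t216_A00pm_123_s3 t198_A00pm_123_s3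

theorem t218_A00pm_123_s3 : ∃ t, chk3 f_A00pm_123_s3 t 7 7 1 = true := ex3_a t217_A00pm_123_s3 t188_A00pm_123_s3

theorem t219_A00pm_123_s3 : ∃ t, chk3 f_A00pm_123_s3 t 125 55 3 = true := ex3_a k69_A00pm_123_s3 k70_A00pm_123_s3

theorem t220_A00pm_123_s3 : ∃ t, chk3 f_A00pm_123_s3 t 125 27 3 = true := ex3_b k68_A00pm_123_s3 t219_A00pm_123_s3

theorem t221_A00pm_123_s3 : ∃ t, chk3 f_A00pm_123_s3 t 499 110 3 = true := ex3_b k65_A00pm_123_s3 k66_A00pm_123_s3

theorem t222_A00pm_123_s3 : ∃ t, chk3 f_A00pm_123_s3 t 249 110 3 = true := ex3_a k64_A00pm_123_s3 t221_A00pm_123_s3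

theorem t223_A00pm_123_s3 : ∃ t, chk3 f_A00pm_123_s3 t 249 55 3 = true := ex3_b t222_A00pm_123_s3 k67_A00pm_123_s3

theorem t224_A00pm_123_s3 : ∃ t, chk3 f_A00pm_123_s3 t 124 55 3 = true := ex3_a k63_A00pm_123_s3 t223_A00pm_123_s3

theorem t225_A00pm_123_s3 : ∃ t, chk3 f_A00pm_123_s3 t 124 54 3 = true := ex3_a k61_A00pm_123_s3 k62_A00pm_123_s3

theorem t226_A00pm_123_s3 : ∃ t, chk3 f_A00pm_123_s3 t 124 27 3 = true := ex3_b t225_A00pm_123_s3 t224_A00pm_123_s3

theorem t227_A00pm_123_s3 : ∃ t, chk3 f_A00pm_123_s3 t 62 27 3 = true := ex3_a t226_A00pm_123_s3 t220_A00pm_123_s3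

theorem t228_A00pm_123_s3 : ∃ t, chk3 f_A00pm_123_s3 t 62 13 3 = true := ex3_b k60_A00pm_123_s3 t227_A00pm_123_s3

theorem t229_A00pm_123_s3 : ∃ t, chk3 f_A00pm_123_s3 t 31 13 3 = true := ex3_a t228_A00pm_123_s3 k71_A00pm_123_s3

theorem t230_A00pm_123_s3 : ∃ t, chk3 f_A00pm_123_s3 t 249 110 2 = true := ex3_a k55_A00pm_123_s3 k56_A00pm_123_s3

theorem t231_A00pm_123_s3 : ∃ t, chk3 f_A00pm_123_s3 t 249 55 2 = true := ex3_b t230_A00pm_123_s3 k57_A00pm_123_s3

theorem t232_A00pm_123_s3 : ∃ t, chk3 f_A00pm_123_s3 t 124 55 2 = true := ex3_a k54_A00pm_123_s3 t231_A00pm_123_s3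

theorem t233_A00pm_123_s3 : ∃ t, chk3 f_A00pm_123_s3 t 248 54 2 = true := ex3_c k51_A00pm_123_s3 k52_A00pm_123_s3

theorem t234_A00pm_123_s3 : ∃ t, chk3 f_A00pm_123_s3 t 124 54 2 = true := ex3_a t233_A00pm_123_s3 k53_A00pm_123_s3

theorem t235_A00pm_123_s3 : ∃ t, chk3 f_A00pm_123_s3 t 124 27 2 = true := ex3_b t234_A00pm_123_s3 t232_A00pm_123_s3

theorem t236_A00pm_123_s3 : ∃ t, chk3 f_A00pm_123_s3 t 62 27 2 = true := ex3_a t235_A00pm_123_s3 k58_A00pm_123_s3

theorem t237_A00pm_123_s3 : ∃ t, chk3 f_A00pm_123_s3 t 62 13 2 = true := ex3_b k50_A00pm_123_s3 t236_A00pm_123_s3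

theorem t238_A00pm_123_s3 : ∃ t, chk3 f_A00pm_123_s3 t 31 13 2 = true := ex3_a t237_A00pm_123_s3 k59_A00pm_123_s3

theorem t239_A00pm_123_s3 : ∃ t, chk3 f_A00pm_123_s3 t 31 13 1 = true := ex3_c t238_A00pm_123_s3 t229_A00pm_123_s3

theorem t240_A00pm_123_s3 : ∃ t, chk3 f_A00pm_123_s3 t 31 6 1 = true := ex3_b k49_A00pm_123_s3 t239_A00pm_123_s3

theorem t241_A00pm_123_s3 : ∃ t, chk3 f_A00pm_123_s3 t 123 55 1 = true := ex3_a k47_A00pm_123_s3 k48_A00pm_123_s3

theorem t242_A00pm_123_s3 : ∃ t, chk3 f_A00pm_123_s3 t 247 54 1 = true := ex3_c k45_A00pm_123_s3 k46_A00pm_123_s3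

theorem t243_A00pm_123_s3 : ∃ t, chk3 f_A00pm_123_s3 t 123 54 1 = true := ex3_a k44_A00pm_123_s3 t242_A00pm_123_s3

theorem t244_A00pm_123_s3 : ∃ t, chk3 f_A00pm_123_s3 t 123 27 1 = true := ex3_b t243_A00pm_123_s3 t241_A00pm_123_s3

theorem t245_A00pm_123_s3 : ∃ t, chk3 f_A00pm_123_s3 t 61 27 1 = true := ex3_a k43_A00pm_123_s3 t244_A00pm_123_s3

theorem t246_A00pm_123_s3 : ∃ t, chk3 f_A00pm_123_s3 t 247 107 2 = true := ex3_a k40_A00pm_123_s3 k41_A00pm_123_s3

theorem t247_A00pm_123_s3 : ∃ t, chk3 f_A00pm_123_s3 t 247 53 2 = true := ex3_b k39_A00pm_123_s3 t246_A00pm_123_s3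

theorem t248_A00pm_123_s3 : ∃ t, chk3 f_A00pm_123_s3 t 247 53 1 = true := ex3_c t247_A00pm_123_s3 k42_A00pm_123_s3

theorem t249_A00pm_123_s3 : ∃ t, chk3 f_A00pm_123_s3 t 123 53 1 = true := ex3_a k38_A00pm_123_s3 t248_A00pm_123_s3

theorem t250_A00pm_123_s3 : ∃ t, chk3 f_A00pm_123_s3 t 123 26 1 = true := ex3_b k37_A00pm_123_s3 t249_A00pm_123_s3

theorem t251_A00pm_123_s3 : ∃ t, chk3 f_A00pm_123_s3 t 61 26 1 = true := ex3_a k36_A00pm_123_s3 t250_A00pm_123_s3

theorem t252_A00pm_123_s3 : ∃ t, chk3 f_A00pm_123_s3 t 61 13 1 = true := ex3_b t251_A00pm_123_s3 t245_A00pm_123_s3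

theorem t253_A00pm_123_s3 : ∃ t, chk3 f_A00pm_123_s3 t 30 13 1 = true := ex3_a k35_A00pm_123_s3 t252_A00pm_123_s3

theorem t254_A00pm_123_s3 : ∃ t, chk3 f_A00pm_123_s3 t 121 25 1 = true := ex3_b k32_A00pm_123_s3 k33_A00pm_123_s3

theorem t255_A00pm_123_s3 : ∃ t, chk3 f_A00pm_123_s3 t 60 25 1 = true := ex3_a k31_A00pm_123_s3 t254_A00pm_123_s3

theorem t256_A00pm_123_s3 : ∃ t, chk3 f_A00pm_123_s3 t 60 12 1 = true := ex3_b k30_A00pm_123_s3 t255_A00pm_123_s3

theorem t257_A00pm_123_s3 : ∃ t, chk3 f_A00pm_123_s3 t 30 12 1 = true := ex3_a t256_A00pm_123_s3 k34_A00pm_123_s3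

theorem t258_A00pm_123_s3 : ∃ t, chk3 f_A00pm_123_s3 t 30 6 1 = true := ex3_b t257_A00pm_123_s3 t253_A00pm_123_s3

theorem t259_A00pm_123_s3 : ∃ t, chk3 f_A00pm_123_s3 t 15 6 1 = true := ex3_a t258_A00pm_123_s3 t240_A00pm_123_s3

theorem t260_A00pm_123_s3 : ∃ t, chk3 f_A00pm_123_s3 t 29 27 1 = true := ex3_c k28_A00pm_123_s3 k29_A00pm_123_s3

theorem t261_A00pm_123_s3 : ∃ t, chk3 f_A00pm_123_s3 t 29 13 1 = true := ex3_b k27_A00pm_123_s3 t260_A00pm_123_s3

theorem t262_A00pm_123_s3 : ∃ t, chk3 f_A00pm_123_s3 t 29 6 1 = true := ex3_b k26_A00pm_123_s3 t261_A00pm_123_s3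

theorem t263_A00pm_123_s3 : ∃ t, chk3 f_A00pm_123_s3 t 28 13 1 = true := ex3_c k24_A00pm_123_s3 k25_A00pm_123_s3

theorem t264_A00pm_123_s3 : ∃ t, chk3 f_A00pm_123_s3 t 28 6 1 = true := ex3_b k23_A00pm_123_s3 t263_A00pm_123_s3

theorem t265_A00pm_123_s3 : ∃ t, chk3 f_A00pm_123_s3 t 14 6 1 = true := ex3_a t264_A00pm_123_s3 t262_A00pm_123_s3

theorem t266_A00pm_123_s3 : ∃ t, chk3 f_A00pm_123_s3 t 7 6 1 = true := ex3_a t265_A00pm_123_s3 t259_A00pm_123_s3

theorem t267_A00pm_123_s3 : ∃ t, chk3 f_A00pm_123_s3 t 7 3 1 = true := ex3_b t266_A00pm_123_s3 t218_A00pm_123_s3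

theorem t268_A00pm_123_s3 : ∃ t, chk3 f_A00pm_123_s3 t 111 511 3 = true := ex3_c k21_A00pm_123_s3 k22_A00pm_123_s3

theorem t269_A00pm_123_s3 : ∃ t, chk3 f_A00pm_123_s3 t 111 255 3 = true := ex3_b k20_A00pm_123_s3 t268_A00pm_123_s3

theorem t270_A00pm_123_s3 : ∃ t, chk3 f_A00pm_123_s3 t 55 255 3 = true := ex3_a k19_A00pm_123_s3 t269_A00pm_123_s3

theorem t271_A00pm_123_s3 : ∃ t, chk3 f_A00pm_123_s3 t 55 127 3 = true := ex3_b k18_A00pm_123_s3 t270_A00pm_123_s3

theorem t272_A00pm_123_s3 : ∃ t, chk3 f_A00pm_123_s3 t 55 63 3 = true := ex3_b k17_A00pm_123_s3 t271_A00pm_123_s3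

theorem t273_A00pm_123_s3 : ∃ t, chk3 f_A00pm_123_s3 t 27 63 3 = true := ex3_a k16_A00pm_123_s3 t272_A00pm_123_s3

theorem t274_A00pm_123_s3 : ∃ t, chk3 f_A00pm_123_s3 t 27 31 3 = true := ex3_b k15_A00pm_123_s3 t273_A00pm_123_s3

theorem t275_A00pm_123_s3 : ∃ t, chk3 f_A00pm_123_s3 t 27 15 3 = true := ex3_b k14_A00pm_123_s3 t274_A00pm_123_s3

theorem t276_A00pm_123_s3 : ∃ t, chk3 f_A00pm_123_s3 t 13 15 3 = true := ex3_a k13_A00pm_123_s3 t275_A00pm_123_s3

theorem t277_A00pm_123_s3 : ∃ t, chk3 f_A00pm_123_s3 t 27 31 2 = true := ex3_b k11_A00pm_123_s3 k12_A00pm_123_s3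

theorem t278_A00pm_123_s3 : ∃ t, chk3 f_A00pm_123_s3 t 13 31 2 = true := ex3_a k10_A00pm_123_s3 t277_A00pm_123_s3

theorem t279_A00pm_123_s3 : ∃ t, chk3 f_A00pm_123_s3 t 13 15 2 = true := ex3_b k9_A00pm_123_s3 t278_A00pm_123_s3

theorem t280_A00pm_123_s3 : ∃ t, chk3 f_A00pm_123_s3 t 13 15 1 = true := ex3_c t279_A00pm_123_s3 t276_A00pm_123_s3

theorem t281_A00pm_123_s3 : ∃ t, chk3 f_A00pm_123_s3 t 13 7 1 = true := ex3_b k8_A00pm_123_s3 t280_A00pm_123_s3

theorem t282_A00pm_123_s3 : ∃ t, chk3 f_A00pm_123_s3 t 13 13 1 = true := ex3_c k6_A00pm_123_s3 k7_A00pm_123_s3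

theorem t283_A00pm_123_s3 : ∃ t, chk3 f_A00pm_123_s3 t 13 6 1 = true := ex3_b k5_A00pm_123_s3 t282_A00pm_123_s3

theorem t284_A00pm_123_s3 : ∃ t, chk3 f_A00pm_123_s3 t 13 3 1 = true := ex3_b t283_A00pm_123_s3 t281_A00pm_123_s3

theorem t285_A00pm_123_s3 : ∃ t, chk3 f_A00pm_123_s3 t 6 3 1 = true := ex3_a k4_A00pm_123_s3 t284_A00pm_123_s3

theorem t286_A00pm_123_s3 : ∃ t, chk3 f_A00pm_123_s3 t 3 3 1 = true := ex3_a t285_A00pm_123_s3 t267_A00pm_123_s3

theorem t287_A00pm_123_s3 : ∃ t, chk3 f_A00pm_123_s3 t 6 2 1 = true := ex3_b k1_A00pm_123_s3 k2_A00pm_123_s3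

theorem t288_A00pm_123_s3 : ∃ t, chk3 f_A00pm_123_s3 t 3 2 1 = true := ex3_a t287_A00pm_123_s3 k3_A00pm_123_s3

theorem t289_A00pm_123_s3 : ∃ t, chk3 f_A00pm_123_s3 t 3 1 1 = true := ex3_b t288_A00pm_123_s3 t286_A00pm_123_s3

theorem t290_A00pm_123_s3 : ∃ t, chk3 f_A00pm_123_s3 t 1 1 1 = true := ex3_a k0_A00pm_123_s3 t289_A00pm_123_s3

theorem c_A00pm_123_s3 : CertF 536870912 536870912 0 536870912 858993459 64424510 true true false .npn 1 2 3
    ndB0q1 ndB0q2 pcB3 cut_A00pm_123_s3 xt_A00pm_123_s3 :=
  certF2 (fam := true) (s1 := true) (s2 := false) (a := 1) (b := 2) (c := 3) (cn := .npn) (n1 := ndB0q1) (n2 := ndB0q2) (pc := pcB3) (cut := cut_A00pm_123_s3) (xt := xt_A00pm_123_s3) (P1 := 536870912) (W1 := 536870912) (P2 := 0) (W2 := 536870912) (P3 := 858993459) (W3 := 64424510)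
    rfl (fun _ => rfl) t290_A00pm_123_s3

theorem s_A00pm_123_s3 {κ x : ℝ} (hκ : κ * h0 = ken x) (hx : ((858993459 : ℕ) : ℝ) / S ≤ x)
    (hx' : x ≤ (((858993459 : ℕ) : ℝ) + (64424510 : ℕ)) / S)
    (H : CutA (VFD κ) PP tK tL pcB (Cut.of [[⟨0, 1, 0, 67108864⟩, ⟨1, 1, 0, 67108864⟩, ⟨2, 2, 0, 16777216⟩], [⟨0, 0, 1, 20971520⟩, ⟨1, 1, 0, 16777216⟩, ⟨2, 1, 1, 20971520⟩]]) 1 2 3 0 0 (sgb true) (sgb false) x) :
    AltA (VFD κ) PP tK tL pcB [⟨4, 0, 0, 2845415833⟩] 1 2 3 0 0 (sgb true) (sgb false) x :=
  strip_altAD (m := 2845415833) false rfl hκ (SH.κ0 hκ (SH.hx1 hx).le (SH.hx2 hx').le) (SH.hx1 hx).le (SH.hx2 hx') (covB01).cov (covB02).cov hx hx' c_A00pm_123_s3 H ((okx hx hx').extA (T := tt) (sideB hx hx') hκ rfl rfl (.O 1 true) (.O 2 false) (Or.inr rfl))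

end Pool.Agent.Strip051.G.I8000_8600.Tab.St.C
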