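import Pool.Agent.Strip051.G.I8000_8600.Tab
import Pool.Agent.Strip051.PB.StripB

/-! # Strips, near vertex: certificates 1 (generated) -/

set_option linter.all false
set_option maxRecDepth 100000

namespace Pool.Agent.Strip051.G.I8000_8600.Tab.CS.BA00

open Pool.Agent.Strip051.PB Pool.Agent.Strip051.PB.T
open Pool.Agent.Strip051.G.I8000_8600.Tab

noncomputable def cut_pp_022_t : Cut := Cut.of [[⟨3, 0, 0, 2845415833⟩], [⟨0, 0, 0, 67108864⟩, ⟨1, 1, 0, 67108864⟩, ⟨2, 1, 0, 67108864⟩]]

noncomputable def f_pp_022_t : ℕ → ℕ → ℕ → ℕ → Bool := onCell 0 536870912 0 536870912 858993459 64424510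
    (rowNE 3 eng mog cd0q0 cd0q2 pd2 0 true true true .pp 0 2 2 (qsf 0 536870912 0 536870912 2) ndB0q0 ndB0q2 pcB2 cut_pp_022_t Ext.none)

def k0_pp_022_t : ∃ t, chk3 f_pp_022_t t 4 2 1 = true :=
  ⟨(a (l 6) (b (l 6) (b (l 6) (b (l 6) (a (b (l 6) (a (l 6) (c (l 16524168) (c (l 16540808) (l 16521120))))) (c (a (c (l 16582960) (l 16599080)) (c (l 16587056) (l 16601944))) (c (a (l 16582576) (l 16604536)) (a (b (l 16536248) (l 16547808)) (c (l 16590896) (l 16539080)))))))))), by decide +kernel⟩

def k1_pp_022_t : ∃ t, chk3 f_pp_022_t t 5 4 1 = true :=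
  ⟨(b (l 6) (b (l 6) (b (l 6) (a (l 6) (a (l 6) (a (l 6) (c (l 16546312) (l 16574248)))))))), by decide +kernel⟩

def k2_pp_022_t : ∃ t, chk3 f_pp_022_t t 5 10 1 = true :=
  ⟨(b (a (l 6) (a (c (c (a (l 16511144) (l 16521160)) (a (l 16533456) (l 16541904))) (a (l 16574032) (l 16579832))) (a (c (c (l 16532784) (l 16551912)) (l 16587064)) (c (c (l 16545824) (l 16563344)) (l 16595728))))) (a (a (l 6) (a (c (c (l 16533496) (l 16553504)) (l 16547816)) (c (c (l 16541024) (l 16559912)) (l 16594344)))) (a (c (c (a (l 16550480) (l 16561744)) (a (l 16568056) (l 16577840))) (a (l 16600296) (l 16607552))) (c (a (c (l 16574520) (l 16589088)) (c (l 16588600) (l 16601680))) (c (a (l 16606440) (l 16617336)) (l 16630872)))))), by decide +kernel⟩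

def k3_pp_022_t : ∃ t, chk3 f_pp_022_t t 5 11 1 = true :=
  ⟨(a (a (c (c (b (a (l 16516104) (l 16522192)) (a (l 16593328) (b (l 16591744) (l 16610184)))) (a (b (l 16575624) (l 16607088)) (b (l 16580656) (l 16613712)))) (c (b (a (l 16595928) (l 16599880)) (a (l 16622984) (l 16628512))) (b (a (l 16585496) (l 16604744)) (a (c (l 16610888) (l 16559520)) (b (l 16619552) (l 16630520)))))) (c (c (b (a (l 16592488) (l 16580392)) (a (b (l 16600256) (l 16619424)) (b (l 16610104) (l 16629952)))) (a (b (l 16545104) (l 16621592)) (b (l 16552928) (l 16630800)))) (b (a (c (l 16605248) (l 16622968)) (c (l 16611952) (l 16631688))) (a (c (l 16635360) (l 16621960)) (c (l 16643488) (l 16658208)))))) (c (a (c (b (a (l 16591088) (l 16624480)) (a (b (l 16621680) (l 16642072)) (b (l 16634912) (l 16655824)))) (b (a (l 16562408) (l 16552472)) (a (b (l 16632152) (l 16650856)) (a (l 16629616) (l 16615096))))) (b (c (a (l 16659280) (l 16674320)) (a (b (l 16617992) (l 16637576)) (b (l 16631392) (l 16651496)))) (c (a (b (l 16649496)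 (l 16691856)) (a (l 16714024) (l 16722240))) (a (b (l 16657336) (l 16656192)) (b (l 16671768) (l 16650136)))))) (a (b (a (c (l 16620096) (l 16638376)) (c (l 16587640) (l 16646144))) (a (c (l 16653016) (l 16666424)) (c (l 16663792) (l 16675592)))) (b (a (c (l 16598456) (l 16655152)) (c (l 16610528) (l 16665440))) (a (c (l 16675816) (l 16685920)) (c (l 16689032) (l 16697464))))))), by decide +kernel⟩

def k4_pp_022_t : ∃ t, chk3 f_pp_022_t t 8 12 1 = true :=
  ⟨(b (b (l 6) (a (l 6) (a (l 6) (c (c (l 16515104) (l 16520544)) (a (c (l 16515968) (l 16496376)) (c (l 16532232) (l 16513664))))))) (b (a (l 6) (c (a (a (c (l 16531312) (l 16514440)) (c (l 16545976) (l 16530224))) (c (l 16525512) (a (l 16545600) (l 16560608)))) (a (a (c (l 16495912) (l 16454744)) (c (l 16512840) (l 16472872))) (a (c (l 16529296) (l 16490440)) (c (l 16545280) (l 16507432)))))) (a (a (b (l 6) (a (l 6) (a (l 6) (a (l 6) (c (l 16499000) (l 16459016)))))) (c (a (c (l 16514064) (l 16475144)) (c (l 16529088) (l 16512328))) (a (b (l 6) (c (l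 16480672) (c (l 16465248) (l 16454472)))) (c (l 16473048) (c (l 16479272) (l 16468952)))))) (c (a (a (c (l 16543784) (l 16528176)) (c (l 16558152) (l 16543632))) (c (a (l 16572208) (l 16585952)) (a (l 16558704) (l 16573384)))) (a (a (c (l 16490088) (c (l 16497240) (l 16487560))) (c (l 16506688) (c (l 16514728) (l 16505648)))) (a (c (l 16543792) (l 16516984)) (c (l 16559440) (l 16523152)))))))), by decide +kernel⟩

def k5_pp_022_t : ∃ t, chk3 f_pp_022_t t 16 26 1 = true :=
  ⟨(b (a (c (a (c (a (l 16494192) (l 16501992)) (a (l 16474776) (l 16483168))) (c (l 16492552) (c (l 16500224) (l 16490888)))) (a (a (b (l 6) (c (l 16458432) (l 16436248))) (c (c (l 16468032) (l 16457464)) (b (l 16435912) (l 16445848)))) (c (a (c (l 16476800) (l 16466552)) (l 16501536)) (c (a (l 16455912) (l 16465240)) (a (l 16444896) (l 16454552)))))) (c (a (c (l 16507624) (l 16490888)) (c (l 16522344) (l 16506776))) (a (c (c (l 16498344) (l 16488888)) (c (a (l 16474464) (l 16483600)) (a (l 16464112) (l 16473576)))) (a (b (l 16471832)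 (l 16480928)) (b (l 16480640) (l 16489656)))))) (a (c (a (c (b (l 16510384) (l 16519048)) (a (b (l 16488024) (l 16497336)) (b (l 16496304) (l 16505536)))) (c (b (l 16525592) (l 16534128)) (b (l 16508552) (l 16528160)))) (a (b (c (a (l 16468056) (l 16476928)) (a (l 16446608) (l 16456112))) (c (a (l 16478048) (l 16486832)) (a (l 16457336) (l 16466728)))) (c (b (a (l 16485728) (l 16494432)) (a (l 16495536) (l 16504152))) (b (a (l 16465536) (l 16474880)) (a (l 16476048) (l 16485296)))))) (c (a (c (b (l 16540432) (l 16548824)) (b (l 16524568) (l 16533528))) (c (b (l 16554936) (l 16563176)) (b (l 16540216) (l 16549016)))) (a (c (b (l 16517816) (a (l 16512680) (l 16521120))) (b (a (l 16484136) (l 16493288)) (a (l 16494456) (l 16503520)))) (c (a (l 16503752) (l 16512032)) (c (l 16495280) (l 16487768))))))), by decide +kernel⟩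

def k6_pp_022_t : ∃ t, chk3 f_pp_022_t t 32 27 1 = true :=
  ⟨(c (b (a (c (b (a (l 16524192) (l 16531776)) (a (l 16533424) (l 16540952))) (b (a (l 16506992) (l 16515120)) (a (l 16516984) (l 16525032)))) (c (b (l 16542952) (l 16531080)) (b (a (l 16523152) (l 16531088)) (a (l 16532992) (l 16540864))))) (a (c (b (a (l 16542936) (l 16550408)) (a (l 16552752) (l 16560168))) (b (a (l 16527328) (l 16535304)) (a (c (l 16541824) (l 16534184)) (l 16545944)))) (c (b (a (l 16557776) (l 16565048)) (a (l 16567488) (l 16574704))) (b (a (l 16543192) (l 16550984)) (a (l 16553760) (l 16561488)))))) (b (a (c (b (a (l 16488440) (l 16497136)) (a (l 16499264) (l 16507864))) (b (a (l 16468536) (l 16477816)) (a (c (l 16485136) (l 16475312)) (l 16489432)))) (c (b (a (l 16505744) (l 16514272)) (a (l 16516384) (l 16524816))) (b (a (l 16487032) (l 16496176)) (a (l 16498536) (l 16507568))))) (a (c (b (a (c (l 16514832) (l 16506128)) (l 16519024)) (a (c (l 16526272) (l 16518088)) (c (l 16534560) (l 16526632)))) (c (b (a (l 16497128)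 (l 16506040)) (a (l 16509616) (l 16518424))) (b (a (l 16487824) (l 16497016)) (a (l 16500872) (l 16509952))))) (c (b (a (l 16527456) (l 16535800)) (a (c (l 16542768) (l 16535096)) (l 16547216))) (b (a (c (l 16514888) (l 16506152)) (l 16524712)) (a (c (l 16527168) (l 16518960)) (c (l 16535824) (l 16527904)))))))), by decide +kernel⟩

def k7_pp_022_t : ∃ t, chk3 f_pp_022_t t 33 27 1 = true :=
  ⟨(c (b (a (c (c (l 16544448) (l 16537576)) (c (l 16530400) (l 16522920))) (c (b (l 16571728) (l 16580568)) (c (l 16566336) (l 16538456)))) (c (a (b (l 16560032) (a (l 16581824) (l 16588832))) (b (l 16573976) (c (l 16601888) (l 16596416)))) (a (b (l 16541536) (a (l 16569112) (l 16576648))) (b (l 16556552) (l 16575312))))) (b (a (c (c (l 16516776) (b (l 16522728) (l 16533344))) (c (b (l 16514144) (l 16525168)) (b (l 16505240) (l 16516704)))) (c (b (l 16522440) (l 16532672)) (b (l 16506496) (a (l 16534152) (l 16542808))))) (a (c (b (a (l 16544056) (l 16552216)) (a (l 16555376) (l 16563456))) (b (a (l 16528312) (l 16537064))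 (a (c (l 16544408) (l 16536768)) (c (l 16552904) (l 16545552))))) (c (b (a (l 16560288) (l 16568264)) (b (l 16551584) (l 16557256))) (b (b (l 16526112) (l 16532000)) (c (l 16544512) (l 16537600))))))), by decide +kernel⟩

def k8_pp_022_t : ∃ t, chk3 f_pp_022_t t 34 13 1 = true :=
  ⟨(b (c (b (c (a (l 16557712) (l 16571776)) (a (l 16522304) (l 16558416))) (c (a (l 16567912) (l 16586920)) (a (l 16549328) (l 16553656)))) (c (b (a (l 16506504) (l 16522768)) (a (b (l 16540624) (l 16549864)) (b (l 16556632) (l 16565704)))) (b (a (c (l 16514744) (l 16484856)) (c (l 16531880) (l 16523568))) (a (b (l 16503528) (l 16513432)) (a (l 16521320) (l 16529736)))))) (b (c (c (a (b (l 16585600) (l 16594296)) (b (l 16599144) (l 16607696))) (a (b (l 16573120) (l 16582456)) (b (l 16587696) (l 16596872)))) (a (c (c (l 16546976) (l 16540064)) (b (l 16523784) (l 16539864))) (c (a (l 16555264) (l 16562936)) (b (l 16540584) (l 16561712))))) (c (c (a (b (l 16582328) (l 16602160)) (b (l 16616560) (l 16615280))) (a (b (l 16571192) (l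 16591760)) (b (l 16585440) (l 16605856)))) (c (a (b (l 16559064) (a (l 16587088) (l 16594760))) (b (l 16574360) (l 16595584))) (a (b (b (l 16543056) (l 16548840)) (c (l 16581880) (l 16554576))) (b (a (l 16579264) (l 16587336)) (b (l 16571000) (l 16576936)))))))), by decide +kernel⟩

def k9_pp_022_t : ∃ t, chk3 f_pp_022_t t 35 13 1 = true :=
  ⟨(a (b (c (b (c (l 16585528) (l 16573168)) (c (l 16600368) (l 16589064))) (b (c (l 16538576) (c (l 16548504) (l 16540752))) (c (b (l 16572184) (l 16581080)) (a (l 16538008) (l 16546144))))) (c (b (c (b (l 16612360) (l 16620768)) (b (l 16601880) (l 16610896))) (c (b (l 16629488) (l 16628072)) (b (l 16599304) (l 16619560)))) (b (b (c (l 16590368) (l 16556856)) (c (l 16600064) (l 16567312))) (b (c (l 16589208) (l 16592656)) (c (l 16610248) (b (l 16586736) (l 16592568))))))) (b (c (b (c (l 16598976) (l 16587536)) (c (l 16613504) (l 16603104))) (b (c (l 16553896) (c (l 16564568) (l 16557320))) (b (a (l 16556136) (l 16563776)) (a (l 16565216) (l 16572776))))) (b (c (c (b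 (l 16625272) (l 16633528)) (b (l 16615672) (l 16624528))) (b (c (l 16605096) (l 16572560)) (c (l 16614616) (l 16582824)))) (c (c (b (l 16642104) (l 16651032)) (b (l 16612776) (l 16643352))) (b (c (l 16603584) (l 16609288)) (c (l 16613952) (b (l 16601904) (l 16607632)))))))), by decide +kernel⟩

def k10_pp_022_t : ∃ t, chk3 f_pp_022_t t 9 12 1 = true :=
  ⟨(b (a (a (b (a (l 6) (c (l 16575576) (l 16479104))) (c (c (l 16584808) (l 16550032)) (c (l 16513520) (a (l 16530200) (l 16545912))))) (c (c (l 16605992) (b (l 16588016) (l 16597880))) (c (c (l 16540024) (l 16521624)) (b (l 16512672) (a (l 16560800) (l 16574840)))))) (a (c (c (l 16615112) (b (l 16612048) (l 16621728))) (c (c (l 16606840) (l 16557600)) (b (l 16539168) (a (l 16588008) (l 16600264))))) (c (c (l 16641672) (l 16632376)) (b (c (l 16619296) (l 16561928)) (a (l 16576744) (l 16586968)))))) (b (a (a (c (c (l 16594728) (l 16540264)) (a (c (l 16560680) (l 16523728)) (c (l 16575464) (l 16560272)))) (c (c (l 16619960) (l 16608856)) (c (l 16554304) (a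 (l 16575040) (l 16588984))))) (a (c (c (l 16639184) (l 16632512)) (c (l 16621144) (a (l 16602064) (l 16614256)))) (c (a (l 16648704) (l 16660224)) (c (l 16642632) (c (l 16612976) (l 16606736)))))) (a (c (c (a (c (l 16587640) (l 16582312)) (l 16630920)) (a (a (l 16587672) (l 16601456)) (a (l 16614648) (l 16606144)))) (a (c (a (l 16574592) (l 16589152)) (a (l 16560160) (l 16575528))) (a (c (l 16603072) (l 16590192)) (a (l 16565032) (l 16571576))))) (a (c (c (l 16653152) (l 16644448)) (a (b (l 16577344) (l 16584664)) (a (l 16589960) (l 16595656)))) (c (c (l 16662568) (l 16664744)) (c (l 16634872) (a (l 16619416) (l 16629832)))))))), by decide +kernel⟩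

def k11_pp_022_t : ∃ t, chk3 f_pp_022_t t 18 13 2 = true :=
  ⟨(b (a (a (c (b (l 16612120) (l 16626344)) (b (l 16601496) (l 16595776))) (b (a (l 16574928) (l 16581392)) (c (l 16617856) (l 16609000)))) (c (b (l 16643104) (a (l 16629936) (l 16662456))) (a (b (l 16628024) (l 16621776)) (b (l 16619432) (l 16633984))))) (a (c (b (a (b (l 16637880) (l 16645984)) (b (l 16650136) (l 16658088))) (b (a (l 16654416) (l 16666368)) (a (l 16663192) (l 16654024)))) (b (a (b (l 16629072) (l 16637760)) (b (l 16642056) (l 16650576))) (a (b (l 16646816) (l 16656256)) (b (l 16659464) (c (l 16670368) (l 16667072)))))) (c (b (a (b (l 16662000) (l 16669784)) (l 16677224)) (a (b (l 16656936) (l 16665416)) (b (l 16668064) (l 16676376)))) (b (a (b (l 16654608) (l 16662944)) (b (l 16666632) (l 16674856))) (b (a (l 16671672) (l 16662456)) (a (c (l 16682240) (l 16679272)) (c (l 16693656) (l 16691008)))))))), by decide +kernel⟩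

def k12_pp_022_t : ∃ t, chk3 f_pp_022_t t 18 13 3 = true :=
  ⟨(b (c (a (b (a (l 16589680) (l 16604008)) (a (b (l 16601824) (l 16610384)) (l 16599120))) (a (b (l 16617720) (l 16612624)) (b (l 16630776) (l 16625520)))) (a (b (a (c (l 16580048) (l 16573248)) (c (l 16594968) (l 16588584))) (a (a (l 16569648) (l 16577176)) (c (l 16612024) (l 16606328)))) (b (a (b (l 16602144) (l 16610432)) (l 16599072)) (a (b (l 16619024) (l 16627904)) (b (l 16632672) (l 16641472)))))) (a (b (c (a (c (l 16626440) (l 16621496)) (b (l 16633056) (l 16642232))) (a (b (l 16587656) (l 16597736)) (b (l 16623160) (l 16633056)))) (c (a (b (l 16638432) (l 16648616)) (b (l 16651816) (l 16661816))) (a (b (l 16629248) (b (l 16616472) (l 16622104))) (b (l 16642752) (b (l 16630480) (l 16636008)))))) (b (b (c (a (l 16646336) (l 16659040)) (a (l 16637184) (l 16650616))) (c (a (l 16655312) (l 16667896)) (a (l 16646880) (l 16660184)))) (a (c (b (l 16664712) (l 16653560)) (b (c (l 16659024) (l 16655016)) (c (l 16669440) (l 16665848)))) (c (b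 (l 16677144) (l 16665792)) (b (a (l 16666920) (l 16673360)) (a (l 16677392) (l 16683728)))))))), by decide +kernel⟩

def k13_pp_022_t : ∃ t, chk3 f_pp_022_t t 19 13 1 = true :=
  ⟨(b (b (c (a (c (l 16665192) (a (l 16652024) (l 16662888))) (c (l 16679344) (a (l 16672944) (l 16682272)))) (a (c (c (l 16630192) (l 16604608)) (a (l 16611984) (l 16624056))) (c (a (l 16644120) (l 16674936)) (a (l 16635240) (l 16645632))))) (c (a (c (a (l 16673344) (l 16683536)) (a (l 16645488) (l 16677224))) (c (a (l 16692976) (l 16698688)) (a (l 16687192) (l 16696456)))) (a (c (a (l 16637664) (l 16649032)) (a (b (l 16645520) (l 16654272)) (b (l 16657544) (l 16666256)))) (a (c (l 16659576) (b (l 16668696) (l 16677384))) (c (l 16690344) (a (l 16659896) (l 16664944))))))) (a (c (c (b (a (l 16688000) (l 16698080)) (a (a (l 16701160) (l 16706304)) (b (l 16709672) (l 16717808)))) (b (a (a (l 16658376) (l 16663888)) (l 16692792)) (b (a (l 16673680) (l 16684264)) (c (l 16709880) (a (l 16702272) (l 16712936)))))) (c (b (a (b (l 16671112)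 (l 16679888)) (a (l 16663048) (l 16668488))) (a (b (l 16668032) (l 16677536)) (b (l 16679232) (l 16688664)))) (a (b (a (l 16644032) (l 16650192)) (b (a (l 16679648) (l 16685768)) (a (l 16689944) (l 16696008)))) (a (b (l 16656152) (b (l 16691688) (l 16701904))) (b (l 16661912) (b (l 16697408) (l 16707600))))))) (c (c (b (a (l 16707424) (l 16721088)) (a (b (l 16718944) (l 16727040)) (b (l 16727568) (c (l 16736256) (l 16734968))))) (b (a (l 16702680) (l 16711872)) (a (a (l 16717024) (l 16726976)) (c (l 16729328) (l 16727664))))) (c (b (a (c (l 16677696) (l 16674808)) (l 16706984)) (a (b (l 16689632) (l 16699008)) (b (l 16699320) (l 16708656)))) (b (a (a (l 16662216) (l 16670176)) (b (l 16675792) (l 16685176))) (a (b (a (l 16702928) (l 16708240)) (b (l 16692192) (l 16697376))) (b (b (l 16713416) (l 16697408)) (c (l 16705992) (l 16704088))))))))), by decide +kernel⟩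

def k14_pp_022_t : ∃ t, chk3 f_pp_022_t t 16 56 1 = true :=
  ⟨(a (c (a (c (b (a (c (l 16566264) (l 16559648)) (l 16570360)) (a (c (l 16576776) (l 16570640)) (c (l 16583992) (l 16578072)))) (b (a (c (l 16552768) (l 16545640)) (c (l 16560488) (l 16553600))) (a (c (l 16564264) (l 16557664)) (c (l 16571920) (l 16565544))))) (c (b (a (l 16577632) (l 16584800)) (a (c (l 16591104) (l 16585400)) (c (l 16598112) (l 16592640)))) (b (a (l 16575304) (l 16572472)) (c (a (l 16579480) (l 16586944)) (a (l 16573336) (l 16581032)))))) (a (c (a (b (c (l 16538248) (l 16530608)) (c (l 16550824) (l 16543752))) (b (c (l 16546456) (l 16539056)) (c (l 16558936) (l 16552104)))) (b (a (c (l 16522712) (l 16514552)) (c (l 16531408) (l 16523512))) (a (c (l 16536448) (l 16528912)) (c (l 16545040) (l 16537744))))) (c (b (a (c (l 16554568) (l 16547424)) (c (l 16562600) (l 16555712))) (c (a (l 16566960) (l 16574904)) (a (l 16560368) (l 16568552)))) (b (a (c (l 16540032) (l 16532400)) (c (l 16548584) (l 16541216))) (c (a (l 16553552) (l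 16561984)) (a (l 16546512) (l 16555200))))))) (c (a (c (b (a (l 16591864) (l 16598832)) (c (l 16618928) (l 16584960))) (b (a (l 16580032) (l 16587488)) (c (l 16576992) (l 16571440)))) (c (b (a (l 16605696) (l 16612456)) (a (l 16616152) (l 16622856))) (b (a (l 16594848) (l 16602112)) (c (l 16612296) (l 16586256))))) (a (c (b (c (l 16553504) (l 16547016)) (a (l 16560064) (l 16566632))) (a (b (c (l 16557048) (l 16549952)) (c (l 16570336) (l 16563808))) (b (l 16541080) (c (l 16578600) (l 16572336))))) (b (c (c (l 16589976) (l 16563048)) (a (l 16549512) (l 16557848))) (c (a (l 16574416) (l 16582104)) (a (l 16568072) (l 16576288))))))), by decide +kernel⟩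

def k15_pp_022_t : ∃ t, chk3 f_pp_022_t t 16 114 1 = true :=
  ⟨(a (c (a (c (a (c (l 16587776) (l 16582136)) (c (l 16594952) (l 16589520))) (a (c (l 16576288) (l 16570232)) (c (l 16583880) (l 16578040)))) (c (a (c (l 16602016) (l 16596800)) (c (l 16608984) (l 16603976))) (a (c (l 16591376) (l 16585752)) (c (l 16598776) (l 16593376))))) (a (c (a (c (l 16563968) (l 16567976)) (c (l 16571992) (l 16565736))) (c (a (b (l 16547144) (l 16554464)) (l 16559280)) (a (l 16549152) (l 16552616)))) (c (a (c (l 16579928) (l 16573904)) (c (l 16587776) (l 16581984))) (a (c (l 16567680) (l 16561256)) (c (l 16576000) (l 16569816)))))) (c (a (c (a (c (l 16615848) (l 16611056)) (c (l 16622608) (l 16618032))) (a (l 16585160) (l 16595096))) (c (a (c (l 16629264) (l 16624904)) (l 16654736)) (a (l 16602304) (c (l 16627368) (l 16622880))))) (a (c (a (c (l 16595536) (l 16589976)) (c (l 16603192) (l 16597880))) (a (a (l 16558888) (l 16562384)) (c (l 16592376) (l 16586688)))) (c (a (l 16593824) (l 16600104)) (a (c (l 16600432) (l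 16595000)) (c (l 16608392) (l 16603216))))))), by decide +kernel⟩

def k16_pp_022_t : ∃ t, chk3 f_pp_022_t t 16 115 1 = true :=
  ⟨(a (a (a (a (l 14) (a (l 14) (c (b (l 16591184) (l 14)) (c (l 16577768) (l 16571064))))) (c (c (c (l 16606400) (l 16601472)) (c (l 16596360) (l 16591072))) (c (c (l 16596080) (b (l 16576320) (l 16583560))) (c (b (l 16570328) (l 16577880)) (b (l 16564144) (l 16572024)))))) (c (c (a (c (l 16613424) (l 16608696)) (c (l 16620344) (l 16615824))) (a (c (l 16603792) (l 16598704)) (c (l 16611120) (l 16606248)))) (c (a (c (l 16593440) (l 16588000)) (c (l 16601200) (l 16595984))) (a (c (l 16587632) (b (l 16572688) (l 16580496))) (c (l 16590592) (l 16590264)))))) (c (a (c (a (c (l 16627168) (l 16622848)) (c (l 16633888) (l 16629768))) (a (c (l 16618352) (l 16613696)) (c (l 16625488) (l 16621040)))) (a (c (c (l 16640496) (l 16636584)) (c (l 16632520) (l 16628288))) (c (c (l 16647008) (l 16643304)) (l 16627632)))) (a (c (a (c (l 16608864) (l 16603872)) (c (l 16616432) (l 16611664))) (a (c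 (l 16598704) (l 16593368)) (c (l 16606728) (l 16601632)))) (c (a (c (l 16623904) (l 16619368)) (c (l 16631280) (l 16626968))) (a (c (l 16614664) (l 16609808)) (c (l 16622504) (l 16617888))))))), by decide +kernel⟩

def k17_pp_022_t : ∃ t, chk3 f_pp_022_t t 32 29 1 = true :=
  ⟨(a (a (l 14) (a (l 14) (a (l 14) (b (b (a (l 14) (b (c (l 16611608) (l 16591816)) (l 14))) (l 14)) (l 14))))) (b (b (c (c (a (c (l 16635800) (l 16621088)) (c (l 16632200) (l 16628160))) (a (c (l 16616712) (l 16617416)) (b (l 16618488) (l 16630400)))) (c (c (a (b (l 16603912) (l 16611048)) (l 16625640)) (a (b (l 16598920) (l 16606352)) (a (l 16608552) (l 16612464)))) (a (c (b (l 16593768) (l 16601504)) (b (l 16588448) (l 16596512))) (c (b (l 16601880) (l 16609560)) (b (l 16596784) (l 16604776)))))) (a (a (l 14) (b (c (c (l 16634296) (l 16626416)) (c (l 16617992) (l 16609016))) (l 14))) (c (c (c (l 16652264) (b (l 16637648) (l 16644056))) (c (l 16642432) (b (l 16629912) (l 16636848)))) (c (c (b (l 16625848) (l 16633056)) (b (l 16621640)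 (l 16629144))) (c (b (l 16617312) (l 16625104)) (b (l 16612840) (l 16620952))))))) (a (l 14) (a (l 14) (b (b (c (c (l 16653848) (l 16647352)) (c (l 16640416) (l 16633032))) (l 14)) (l 14)))))), by decide +kernel⟩

def k18_pp_022_t : ∃ t, chk3 f_pp_022_t t 66 29 1 = true :=
  ⟨(a (b (c (b (c (c (l 16638976) (l 16635136)) (c (l 16631144) (l 16627008))) (c (c (l 16651144) (l 16655648)) (c (l 16654776) (l 16645928)))) (b (c (c (l 16622728) (l 16623544)) (c (b (l 16609912) (l 16617536)) (b (l 16605032) (l 16612968)))) (c (c (b (l 16633352) (l 16640520)) (b (l 16629352) (l 16636800))) (c (b (l 16625224) (l 16632968)) (b (l 16620960) (l 16629008)))))) (b (a (b (c (c (l 16657248) (l 16650928)) (c (l 16644176) (l 16636984))) (l 14)) (c (c (b (l 16660624) (l 16667032)) (b (l 16654480) (l 16661376))) (c (b (l 16647912) (l 16655336)) (c (l 16646632) (l 16632688))))) (l 14))) (b (c (b (c (c (l 16645648) (l 16642000)) (c (l 16638208) (l 16634280))) (c (c (l 16657784) (l 16665088)) (c (l 16651296) (l 16647872)))) (b (c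 (c (l 16630200) (l 16625984)) (c (l 16628184) (b (l 16613200) (l 16621064)))) (c (c (l 16649576) (l 16630184)) (c (b (l 16633040) (l 16640728)) (b (l 16628992) (l 16636976)))))) (b (c (c (c (b (l 16667040) (l 16673328)) (b (l 16664208) (l 16670720))) (c (b (l 16661272) (l 16668024)) (l 16652560))) (c (c (l 16651016) (b (l 16651824) (l 16659360))) (b (c (l 16648472) (l 16645016)) (c (l 16656280) (l 16653112))))) (a (b (c (c (l 16676856) (l 16671848)) (c (l 16666496) (l 16660808))) (l 14)) (b (c (c (l 16680160) (l 16675320)) (c (l 16670136) (l 16664632))) (c (c (l 16686736) (l 16682352)) (c (l 16677672) (l 16662216)))))))), by decide +kernel⟩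

def k19_pp_022_t : ∃ t, chk3 f_pp_022_t t 67 29 1 = true :=
  ⟨(c (b (c (b (a (c (l 16652224) (l 16648768)) (c (l 16658688) (l 16655424))) (a (b (l 16670192) (l 16676416)) (b (l 16666240) (l 16663264)))) (c (a (b (l 16645176) (l 16658200)) (b (l 16652032) (l 16664992))) (b (a (l 16641448) (l 16648512)) (b (l 16644584) (l 16654008))))) (b (c (c (a (l 16684800) (b (l 16679952) (l 16686200))) (a (b (l 16670888) (l 16677376)) (b (l 16677464) (l 16683928)))) (c (a (b (l 16668128) (l 16674848)) (b (l 16674872) (l 16681568))) (a (l 16660888) (l 16670424)))) (c (a (c (b (l 16686168) (l 16692624)) (b (l 16683952) (l 16690616))) (c (b (l 16692544) (l 16698976)) (b (l 16690480) (l 16697128)))) (a (b (c (l 16681648) (l 16679272)) (c (l 16688544) (l 16686400))) (c (b (l 16688344) (l 16695208)) (b (l 16686136) (l 16693232))))))) (b (c (b (a (c (l 16637584) (l 16633576)) (a (l 16630656) (l 16634320))) (a (c (l 16641136) (l 16637672)) (b (l 16643112) (l 16650280)))) (b (a (c (l 16634688) (b (l 16621264) (l 16629064)))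 (c (l 16637152) (l 16622624))) (a (c (l 16635408) (b (l 16636928) (l 16644848))) (c (l 16644312) (l 16642472))))) (b (a (c (c (l 16659368) (b (l 16659240) (l 16666720))) (c (b (l 16656080) (l 16663832)) (a (l 16644424) (l 16648288)))) (c (c (l 16667776) (l 16665688)) (c (b (l 16663584) (l 16671280)) (c (l 16660016) (l 16658536))))) (b (c (a (c (l 16676816) (l 16674272)) (c (l 16683848) (l 16681488))) (a (b (l 16657832) (l 16663136)) (b (l 16665328) (l 16671920)))) (a (c (b (l 16670680) (l 16674448)) (a (l 16665984) (l 16669720))) (c (b (l 16677768) (l 16681520)) (a (l 16676056) (l 16679744)))))))), by decide +kernel⟩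

def k20_pp_022_t : ∃ t, chk3 f_pp_022_t t 17 28 2 = true :=
  ⟨(a (b (c (b (a (c (l 16624704) (l 16620112)) (a (l 16632200) (l 16638608))) (a (a (l 16629464) (l 16635984)) (a (l 16642408) (l 16648752)))) (a (b (a (l 16609272) (l 16616336)) (b (l 16610624) (l 16616320))) (b (c (l 16629000) (l 16624472)) (c (l 16639760) (l 16635648))))) (a (b (a (c (l 16661296) (l 16642640)) (c (l 16646776) (l 16649544))) (c (a (c (l 16653408) (l 16649912)) (l 16671192)) (c (a (l 16646272) (l 16652992)) (l 16640728)))) (c (b (c (l 16678936) (l 16675560)) (a (l 16674872) (l 16691560))) (b (c (l 16661544) (l 16636896)) (c (a (l 16659608) (l 16666120)) (l 16654400)))))) (c (b (b (a (l 16648072) (l 16660408)) (a (a (l 16655008) (l 16661184)) (a (l 16667272) (l 16673288)))) (a (b (c (l 16691112) (l 16667168)) (a (l 16697680) (l 16693224))) (b (a (l 16677720) (l 16683664)) (a (l 16688688) (l 16707664))))) (b (a (b (c (l 16642312) (l 16638240)) (c (l 16652912) (l 16649248))) (b (c (l 16655240) (l 16651592)) (c (l 16665680) (l 16662424))))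 (a (b (c (l 16685024) (l 16660800)) (c (l 16675720) (l 16672888))) (c (b (l 16676656) (l 16690944)) (b (l 16673800) (l 16685704))))))), by decide +kernel⟩

def k21_pp_022_t : ∃ t, chk3 f_pp_022_t t 17 28 3 = true :=
  ⟨(a (b (c (b (a (b (l 16578488) (l 16584360)) (b (l 16593464) (l 16599248))) (a (a (l 16589688) (l 16618144)) (c (l 16631376) (l 16605952)))) (a (b (a (l 16566088) (l 16574200)) (a (l 16584408) (l 16592408))) (b (a (l 16582192) (l 16611032)) (a (l 16605536) (l 16613296))))) (a (b (c (a (l 16607592) (l 16620216)) (a (c (l 16616256) (l 16611336)) (c (l 16624008) (l 16619344)))) (c (a (l 16628328) (l 16635936)) (a (c (l 16630240) (l 16625864)) (a (l 16623408) (l 16627256))))) (c (b (a (l 16627488) (l 16624160)) (a (l 16645736) (l 16652792))) (b (a (l 16621608) (l 16629248)) (a (a (l 16631080) (l 16634872)) (a (l 16638640) (l 16642368))))))) (a (a (b (b (c (l 16628216) (l 16618768)) (c (l 16639920) (l 16620920))) (b (c (l 16631208) (l 16639376)) (c (l 16659736) (a (l 16646064) (l 16649728)))))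 (b (b (c (l 16635344) (l 16626368)) (c (l 16646944) (l 16617920))) (b (c (l 16638128) (l 16646752)) (c (l 16666560) (a (l 16653360) (l 16656952)))))) (a (b (b (c (l 16642344) (l 16633824)) (c (l 16653848) (l 16625264))) (b (c (l 16644936) (l 16653984)) (c (l 16673264) (a (l 16660512) (l 16664032))))) (b (b (c (l 16649216) (l 16641128)) (c (l 16660624) (l 16632464))) (b (c (l 16651616) (l 16663696)) (c (l 16685088) (a (l 16667520) (l 16670968)))))))), by decide +kernel⟩

def k22_pp_022_t : ∃ t, chk3 f_pp_022_t t 34 29 2 = true :=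
  ⟨(b (a (c (b (a (c (l 16665048) (l 16661984)) (c (l 16671312) (l 16668432))) (a (b (l 16672664) (l 16689328)) (c (l 16683280) (l 16680824)))) (b (c (c (l 16657680) (l 16650864)) (a (l 16655472) (l 16662328))) (c (b (l 16663880) (l 16673000)) (b (l 16658392) (l 16670360))))) (b (c (a (c (l 16677456) (l 16674776)) (c (l 16683512) (l 16681024))) (c (a (l 16671984) (l 16678424)) (a (l 16669080) (l 16675720)))) (c (a (b (l 16685192) (l 16701816)) (c (l 16705888) (l 16693304))) (c (b (l 16679488) (l 16688544)) (b (l 16671768) (l 16683656)))))) (b (a (c (a (c (b (l 16686248) (l 16692480)) (l 16697640)) (b (l 16701856) (c (l 16698656) (l 16696712)))) (c (a (b (l 16681520) (l 16688184)) (b (l 16688056) (l 16694688))) (a (l 16677232) (l 16695728)))) (c (a (b (l 16708032) (c (l 16704720) (l 16702944))) (c (b (l 16704504) (l 16710688)) (l 16705888))) (c (a (b (l 16694488) (l 16701088)) (l 16704104)) (a (l 16702320) (l 16702248))))) (a (c (a (b (c (l 16698808) (l 16696904)) (c (l 16705224) (l 16703528))) (c (b (l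 16704960) (l 16711368)) (b (l 16703224) (l 16709824)))) (a (b (c (l 16694936) (l 16692888)) (c (l 16701768) (l 16699952))) (c (b (l 16701408) (l 16708224)) (b (l 16699536) (l 16706560))))) (c (b (a (c (l 16711016) (l 16709432)) (c (l 16716960) (l 16715528))) (a (c (l 16717408) (l 16716008)) (a (l 16731712) (l 16734688)))) (b (a (c (l 16707784) (l 16706072)) (c (l 16714040) (l 16712496))) (a (c (l 16714560) (l 16713064)) (c (l 16720792) (l 16719448)))))))), by decide +kernel⟩

def k23_pp_022_t : ∃ t, chk3 f_pp_022_t t 34 29 3 = true :=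
  ⟨(a (b (c (b (a (a (l 16637960) (l 16641576)) (a (l 16645160) (l 16648720))) (a (c (l 16665888) (l 16652344)) (c (l 16672856) (l 16659520)))) (b (a (b (l 16623384) (l 16636144)) (b (l 16625792) (l 16643736))) (a (c (l 16651808) (l 16651160)) (c (l 16661808) (l 16660064))))) (b (c (a (c (l 16674760) (l 16673520)) (c (l 16681648) (l 16681904))) (a (c (b (l 16670984) (l 16678624)) (a (l 16664960) (l 16668720))) (c (b (l 16678280) (l 16685864)) (c (l 16674952) (l 16673664))))) (c (a (c (b (l 16690776) (l 16698064)) (c (l 16687640) (l 16689216))) (c (b (l 16697592) (l 16704840)) (c (l 16694568) (l 16698856)))) (a (c (c (l 16688152) (l 16688384)) (b (l 16684008) (l 16686808))) (c (c (l 16697872) (l 16696880)) (b (l 16691368) (l 16694104))))))) (b (c (b (a (a (l 16652256) (l 16655768)) (a (l 16659240) (l 16662696))) (a (c (l 16679728) (l 16666584)) (c (l 16686480) (l 16673544)))) (b (a (b (l 16633344) (l 16651216)) (b (l 16640776) (l 16658584))) (a (c (l 16669080) (l 16668864)) (c (l 16676248) (l 16677552)))))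 (b (c (a (c (l 16688424) (l 16690176)) (c (l 16700328) (l 16698328))) (a (c (b (l 16685464) (l 16692984)) (c (l 16682248) (l 16683688))) (c (b (l 16692528) (l 16699992)) (c (l 16694680) (l 16693592))))) (c (b (a (c (l 16704304) (l 16702472)) (c (l 16710896) (l 16709240))) (a (b (l 16698384) (l 16702064)) (c (l 16718056) (l 16716616)))) (b (a (a (l 16687336) (l 16690888)) (c (l 16707520) (l 16700512))) (a (c (l 16708240) (l 16703904)) (c (l 16709888) (l 16710976)))))))), by decide +kernel⟩

def k24_pp_022_t : ∃ t, chk3 f_pp_022_t t 35 29 2 = true :=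
  ⟨(b (b (a (c (a (a (l 16707792) (l 16710800)) (a (l 16713776) (l 16706256))) (c (c (l 16688488) (l 16687312)) (c (l 16686104) (l 16684872)))) (c (a (a (l 16709192) (l 16712112)) (c (l 16706848) (l 16705056))) (c (a (l 16697136) (l 16703176)) (a (l 16695000) (l 16701208))))) (a (c (a (c (l 16711792) (l 16709872)) (b (l 16713704) (l 16719760))) (c (a (l 16697376) (l 16703536)) (a (l 16695288) (l 16701632)))) (c (b (a (l 16719528) (l 16714784)) (a (c (l 16715808) (l 16714312)) (c (l 16721440) (l 16720088)))) (c (a (l 16709592) (l 16715552)) (a (l 16707864) (l 16713984)))))) (c (b (a (a (c (b (l 16710376) (l 16716544)) (l 16713472)) (b (c (l 16716152) (l 16714672)) (c (l 16722296) (l 16720992)))) (c (b (a (l 16721832) (l 16727432)) (a (l 16727952) (l 16733520))) (b (a (l 16720512) (l 16726256)) (a (l 16726800) (l 16732512))))) (a (c (b (a (l 16722800) (l 16733784)) (a (l 16734408) (c (l 16735112) (l 16734648)))) (b (a (l 16721520) (l 16727408)) (a (l 16728064) (l 16733920)))) (a (c (b (l 16739416) (c (l 16740696)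 (l 16740296))) (b (l 16733184) (c (l 16739880) (l 16739464)))) (c (a (b (l 16738336) (l 16744640)) (b (l 16741080) (l 16747376))) (b (l 16738864) (a (l 16743920) (l 16746720))))))) (c (a (b (a (l 16711608) (l 16719008)) (a (b (l 16720192) (l 16726912)) (b (l 16726232) (l 16732928)))) (b (c (a (l 16722696) (l 16728536)) (a (l 16722032) (l 16727952))) (b (a (l 16732160) (l 16737984)) (a (l 16738824) (l 16747232))))) (a (b (a (l 16708616) (l 16717496)) (c (a (l 16722600) (l 16731360)) (a (l 16721944) (l 16728168)))) (b (a (c (l 16721360) (l 16720672)) (b (l 16723736) (l 16730360))) (a (b (l 16731096) (l 16737936)) (b (l 16737064) (l 16743864)))))))), by decide +kernel⟩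

def k25_pp_022_t : ∃ t, chk3 f_pp_022_t t 35 29 3 = true :=
  ⟨(b (a (b (c (a (a (l 16666120) (l 16669504)) (a (l 16672872) (l 16676200))) (a (b (l 16648088) (l 16665832)) (b (l 16655256) (l 16672936)))) (a (c (c (l 16693120) (l 16685624)) (c (l 16688536) (l 16686120))) (b (c (l 16695192) (l 16685448)) (c (l 16691568) (l 16696704))))) (b (c (a (a (l 16679504) (l 16682768)) (c (l 16699160) (l 16697032))) (a (b (l 16662280) (l 16679904)) (b (l 16669160) (l 16686728)))) (c (b (a (l 16701712) (l 16687144)) (a (l 16698040) (l 16714880))) (a (c (l 16702240) (c (l 16700736) (l 16699704))) (b (l 16704360) (c (l 16712416) (l 16710704))))))) (a (a (b (b (c (l 16697200) (c (l 16699488) (l 16697432))) (c (l 16708192) (c (l 16706880) (l 16705064)))) (b (c (c (l 16717376) (l 16715888)) (c (l 16714352) (l 16707520))) (c (c (l 16724496) (l 16723216)) (c (l 16721896) (l 16720536))))) (b (c (b (l 16703744) (l 16716896)) (b (c (l 16706320) (l 16704456)) (a (l 16700648) (l 16704048)))) (c (b (c (l 16723736) (l 16722424))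 (c (l 16730816) (l 16729696))) (b (c (l 16721064) (l 16719656)) (c (l 16728544) (l 16728664)))))) (a (b (c (b (l 16715416) (c (l 16723040) (l 16721696))) (b (b (l 16699856) (l 16703536)) (c (l 16720296) (l 16718848)))) (c (c (b (l 16729984) (l 16737016)) (b (l 16728832) (l 16736056))) (b (c (l 16727648) (l 16726416)) (c (l 16737696) (a (l 16732384) (l 16735696)))))) (b (c (b (l 16721712) (c (l 16729216) (l 16728024))) (b (c (l 16719576) (l 16718080)) (c (l 16726800) (l 16725520)))) (c (b (c (l 16736112) (l 16735120)) (c (l 16743096) (l 16742296))) (b (c (l 16734096) (l 16735648)) (c (a (l 16739872) (l 16743032)) (a (l 16738976) (l 16742216))))))))), by decide +kernel⟩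

def k26_pp_022_t : ∃ t, chk3 f_pp_022_t t 16 15 1 = true :=
  ⟨(a (l 14) (b (a (l 14) (b (b (a (b (c (c (c (l 16699176) (l 16697384)) (c (l 16695528) (l 16693616))) (c (a (l 16678368) (l 16681920)) (a (l 16677376) (l 16681736)))) (a (l 14) (a (l 14) (b (c (a (l 16714224) (l 16715040)) (l 16686704)) (l 14))))) (c (c (a (b (l 16703104) (l 16715096)) (b (l 16706288) (l 16718928))) (c (b (l 16702176) (l 16703992)) (c (l 16703168) (l 16701016)))) (b (c (b (l 16687912) (l 16694320)) (c (l 16689560) (l 16688880))) (c (a (l 16698312) (l 16701784)) (c (l 16698864) (a (l 16699216) (l 16702888))))))) (a (l 14) (a (a (l 14) (b (c (c (l 16717520) (l 16709672)) (c (l 16712152) (l 16703984))) (l 14))) (b (c (c (c (l 16720488) (l 16719280)) (c (l 16718032) (l 16716744))) (c (l 16711792) (c (l 16712640) (l 16711200)))) (b (c (c (l 16725112) (l 16722912)) (c (l 16720584) (l 16712872))) (l 14)))))) (l 14))) (l 14))), by decide +kernel⟩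

def k27_pp_022_t : ∃ t, chk3 f_pp_022_t t 68 60 2 = true :=
  ⟨(c (b (b (a (a (l 16719928) (l 16723048)) (c (l 16723120) (l 16716528))) (a (c (a (l 16716840) (l 16719920)) (l 16713152)) (c (a (l 16722976) (l 16726008)) (l 16728584)))) (a (b (c (a (l 16723592) (l 16726672)) (a (l 16722456) (l 16725600))) (c (a (l 16735720) (l 16738792)) (a (l 16729528) (l 16732664)))) (a (b (c (l 16729720) (l 16728712)) (c (l 16739216) (l 16735768))) (b (c (l 16732744) (l 16731808)) (c (b (l 16737880) (l 16741344)) (l 16744096)))))) (b (b (a (c (l 16708704) (l 16707104)) (c (l 16715128) (l 16713680))) (a (c (l 16713120) (l 16714352)) (c (l 16727384) (l 16718272)))) (c (b (a (l 16721576) (l 16729256)) (a (a (l 16728544) (l 16731744)) (c (l 16736704) (l 16736288)))) (b (a (l 16719080) (l 16728216)) (a (a (l 16727528) (l 16730792)) (c (l 16735864) (l 16735432))))))), by decide +kernel⟩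

def k28_pp_022_t : ∃ t, chk3 f_pp_022_t t 69 60 2 = true :=
  ⟨(c (b (a (b (c (l 16729144) (l 16722696)) (c (a (l 16729016) (l 16731992)) (a (l 16727960) (l 16731000)))) (b (c (a (l 16728344) (l 16731280)) (l 16733992)) (c (c (l 16736624) (l 16736192)) (c (l 16735744) (l 16735296))))) (a (b (c (a (l 16740984) (l 16743960)) (c (l 16736608) (l 16736176))) (c (a (b (l 16740872) (l 16744336)) (c (l 16750968) (l 16745408))) (a (l 16747144) (l 16744928)))) (a (b (c (l 16744280) (l 16740912)) (c (c (l 16748648) (l 16748360)) (c (l 16748072) (l 16747776)))) (b (c (c (l 16744744) (l 16744408)) (l 16743896)) (b (c (l 16749688) (l 16749128)) (c (l 16755768) (l 16752664))))))) (b (c (b (a (l 16721440) (l 16727648)) (a (l 16728424) (l 16734600))) (b (a (l 16720144) (l 16726496)) (a (l 16727328) (l 16733648)))) (a (b (c (l 16736832) (c (l 16734848) (l 16734384))) (c (a (l 16741176) (l 16744264)) (a (l 16740432) (l 16743584)))) (c (b (c (l 16741856) (l 16741480)) (a (l 16747328) (l 16750360))) (b (a (l 16739336) (l 16742448))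 (a (l 16746712) (l 16749808))))))), by decide +kernel⟩

def k29_pp_022_t : ∃ t, chk3 f_pp_022_t t 34 60 3 = true :=
  ⟨(a (b (c (b (a (a (l 16692392) (l 16695824)) (a (l 16699232) (l 16702616))) (a (c (l 16712920) (l 16706200)) (c (l 16719616) (l 16715664)))) (c (a (b (l 16696736) (l 16707296)) (b (l 16703800) (l 16715616))) (a (b (l 16697536) (a (l 16706536) (l 16710144))) (b (l 16706088) (b (l 16713472) (l 16712312)))))) (c (a (b (c (l 16717864) (l 16717920)) (c (l 16728160) (c (l 16727384) (l 16726856)))) (b (c (l 16727144) (l 16726032)) (c (c (l 16734992) (l 16734552)) (c (l 16734104) (l 16733648))))) (a (b (c (a (l 16716176) (l 16719688)) (b (l 16709288) (l 16716064))) (c (c (l 16726320) (l 16725776)) (a (l 16720544) (l 16725408)))) (b (c (c (l 16725184) (l 16724608)) (c (l 16724016) (l 16723424))) (c (a (l 16733856) (l 16734656)) (a (l 16730248) (l 16733744))))))) (c (b (c (b (a (l 16718808) (l 16725312)) (a (l 16726192) (l 16732664))) (b (a (l 16717416) (l 16724088)) (a (l 16725024) (l 16731640))))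 (a (b (c (l 16733680) (c (l 16732968) (l 16732480))) (c (a (l 16739656) (l 16742880)) (a (l 16738864) (l 16742160)))) (b (c (a (l 16738512) (l 16741696)) (a (l 16737656) (l 16740912))) (c (a (l 16746072) (l 16749240)) (a (l 16745416) (l 16748648)))))) (c (b (b (a (l 16713368) (l 16722816)) (a (l 16724472) (c (l 16730856) (l 16730320)))) (b (a (c (l 16731984) (l 16731480)) (a (l 16736776) (l 16740104))) (a (a (l 16738048) (l 16741408)) (a (l 16746048) (c (l 16748192) (l 16747888)))))) (b (b (a (l 16713856) (c (l 16721840) (l 16721176))) (a (c (l 16722888) (l 16722256)) (c (l 16729784) (l 16729232)))) (a (b (a (l 16726352) (l 16732440)) (a (l 16738192) (c (l 16740832) (l 16740448)))) (b (a (l 16735872) (l 16739272)) (b (c (l 16743864) (l 16743504)) (a (l 16746096) (l 16749456))))))))), by decide +kernel⟩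

def k30_pp_022_t : ∃ t, chk3 f_pp_022_t t 68 61 2 = true :=
  ⟨(a (b (b (a (a (l 14) (b (c (l 16736104) (l 16734448)) (l 14))) (c (c (b (l 16738800) (l 16742352)) (l 16743792)) (c (l 16739128) (l 16743608)))) (l 14)) (l 14)) (a (b (b (c (c (c (l 16749016) (l 16743456)) (l 16742960)) (c (l 16742288) (l 16741592))) (b (c (c (l 16751600) (l 16748448)) (c (l 16747904) (l 16747336))) (a (l 14) (b (c (l 16752224) (l 16751280)) (l 14))))) (l 14)) (b (b (c (c (c (l 16746776) (l 16746480)) (c (l 16746184) (l 16745880))) (c (l 16745416) (l 16744792))) (c (b (c (c (l 16752104) (l 16751872)) (l 16751512)) (c (c (l 16755712) (l 16755512)) (l 16755216))) (c (b (l 16751024) (l 16754808)) (c (l 16752568) (l 16752336))))) (b (b (c (c (c (c (l 16759400) (l 16759320)) (l 16759200)) (c (l 16759040) (l 16758880))) (c (l 16758624) (l 16758288))) (a (l 14) (a (l 14) (b (c (l 16765672) (l 16762544)) (l 14))))) (l 14))))), by decide +kernel⟩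

def k31_pp_022_t : ∃ t, chk3 f_pp_022_t t 69 122 2 = true :=
  ⟨(a (a (b (c (b (c (l 16747840) (l 16747264)) (c (l 16754008) (l 16750888))) (c (l 16749832) (l 16749264))) (c (c (b (c (l 16755072) (l 16754864)) (c (l 16759984) (l 16758504))) (b (l 16754552) (l 16758904))) (c (b (l 16754120) (l 16757896)) (b (l 16753680) (l 16757536))))) (c (b (b (c (l 16753424) (l 16750280)) (c (c (l 16754448) (l 16754232)) (l 16753904))) (c (b (c (l 16758008) (l 16757832)) (c (a (l 16760880) (l 16762336)) (l 16762776))) (b (l 16757560) (c (l 16761328) (l 16761184))))) (b (c (l 16753568) (l 16753064)) (c (b (l 16757184) (l 16760960)) (b (l 16756808) (l 16760656)))))) (c (b (c (b (a (l 16756352) (c (l 16756736) (l 16756536))) (a (c (l 16757360) (l 16757176)) (c (l 16761560) (l 16760088)))) (b (a (l 16753272) (l 16756240)) (a (l 16756888) (l 16760504)))) (c (b (c (a (l 16761736) (a (l 16763088) (l 16765832))) (a (l 16760768) (l 16764992))) (a (c (a (l 16763792) (l 16766552)) (c (l 16765744) (l 16767000))) (a (c (b (l 16765776)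 (l 16767584)) (l 16767896)) (b (l 16768480) (c (l 16769024) (l 16768952)))))) (b (a (l 16761848) (c (l 16766176) (l 16763432))) (a (c (l 16765600) (l 16764168)) (a (l 16767752) (a (l 16767544) (l 16770896))))))) (b (c (b (a (l 16752800) (l 16755824)) (a (l 16756496) (l 16759512))) (c (b (l 16753976) (l 16757728)) (b (l 16753744) (l 16757544)))) (a (b (c (l 16760224) (l 16759904)) (c (c (l 16764048) (l 16763928)) (l 16765056))) (b (c (l 16764544) (l 16762968)) (a (b (l 16765192) (l 16767096)) (b (l 16766704) (l 16765984)))))))), by decide +kernel⟩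

def k32_pp_022_t : ∃ t, chk3 f_pp_022_t t 69 492 2 = true :=
  ⟨(c (a (c (a (c (a (l 16761584) (l 16763056)) (l 16763168)) (b (c (l 16765648) (l 16764224)) (c (a (l 16765440) (l 16766896)) (l 16767384)))) (a (c (l 16764672) (l 16761920)) (a (l 16764240) (l 16766712)))) (a (c (c (b (a (l 16766520) (l 16767968)) (a (l 16768352) (l 16770456))) (b (l 16768464) (a (l 16768272) (l 16769736)))) (c (b (l 16767064) (l 16769912)) (b (l 16766976) (l 16768856)))) (a (b (c (c (l 16770720) (l 16769336)) (l 16769232)) (c (c (c (l 16771904) (l 16772536)) (l 16772496)) (c (l 16771128) (l 16771080)))) (c (c (b (c (l 16771512) (l 16770824)) (b (l 16772864) (c (l 16773792) (l 16773120)))) (b (l 16770784) (b (l 16772168) (l 16773096)))) (b (l 16770696) (c (l 16772592) (l 16772552))))))) (a (a (c (l 16763024) (l 16761424)) (c (b (l 16763808) (l 16765720)) (c (l 16764592) (l 16764480)))) (b (a (a (l 16765984) (l 16767504)) (c (l 16765904) (l 16769704))) (a (c (l 16765472) (l 16768592)) (c (c (l 16769144) (l 16771720)) (l 16766400)))))),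 by decide +kernel⟩

def k33_pp_022_t : ∃ t, chk3 f_pp_022_t t 138 493 2 = true :=
  ⟨(c (a (c (a (b (l 16764288) (l 16767096)) (c (b (l 16765816) (l 16767672)) (l 16767960))) (b (l 16765472) (c (l 16766760) (l 16766664)))) (c (b (a (c (l 16767280) (l 16767192)) (c (l 16768744) (l 16768664))) (c (a (l 16769792) (c (l 16771264) (l 16770576))) (a (l 16769064) (l 16770536)))) (a (b (l 16767064) (l 16768960)) (b (l 16768552) (l 16771760))))) (a (c (b (l 16764592) (l 16766528)) (c (l 16765400) (l 16765296))) (c (c (b (l 16767688) (l 16769608)) (b (l 16767600) (l 16769544))) (c (l 16763248) (l 16763176))))), by decide +kernel⟩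

def k34_pp_022_t : ∃ t, chk3 f_pp_022_t t 278 493 2 = true :=
  ⟨(a (c (c (c (b (l 16770768) (c (b (l 16771592) (l 16773176)) (l 16772688))) (b (l 16770128) (c (l 16773320) (l 16771992)))) (b (l 16770040) (c (l 16771952) (l 16771912)))) (c (b (l 16769912) (l 16771840)) (l 16765520))) (c (b (c (c (a (l 16771280) (l 16772656)) (l 16772248)) (c (l 16771544) (l 16771488))) (b (c (c (c (l 16773688) (l 16773016)) (l 16772992)) (l 16772936)) (c (c (a (l 16773592) (c (l 16774976) (l 16774304))) (c (l 16773936) (l 16773920))) (l 16772576)))) (c (c (l 16769776) (l 16767112)) (l 16769672)))), by decide +kernel⟩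

def k35_pp_022_t : ∃ t, chk3 f_pp_022_t t 279 986 2 = true :=
  ⟨(c (b (a (c (a (l 16772232) (l 16773448)) (l 16772512)) (c (a (c (l 16773688) (l 16773656)) (a (l 16774544) (a (l 16774480) (l 16774664)))) (l 16772664))) (a (c (c (a (l 16773176) (l 16774552)) (l 16774160)) (l 16770840)) (c (a (c (c (l 16774944) (l 16774608)) (l 16774592)) (c (a (l 16775392) (a (l 16775744) (l 16775800))) (l 16774000))) (l 16773608)))) (c (l 16773616) (l 16773592))), by decide +kernel⟩

def k36_pp_022_t : ∃ t, chk3 f_pp_022_t t 279 987 2 = true :=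
  ⟨(a (c (a (c (b (c (l 16774432) (l 16774080)) (a (a (l 16775080) (l 16775264)) (b (l 16774968) (l 16775768)))) (l 16772544)) (b (c (c (a (l 16774640) (l 16775328)) (l 16774800)) (l 16774768)) (c (c (a (b (l 16775336) (l 16775800)) (b (l 16775696) (a (l 16776072) (l 16776248)))) (l 16774424)) (l 16773096)))) (l 16774160)) (b (c (c (a (a (b (l 16775120) (l 16775744)) (b (l 16775808) (a (l 16775856) (l 16776032)))) (c (a (b (l 16775840) (a (l 16776216) (l 16776064))) (b (a (l 16776112) (l 16776288)) (b (l 16776216) (a (l 16776688) (l 16776536))))) (l 16774936))) (l 16775864)) (l 16775832)) (c (a (c (c (c (b (a (l 16776056) (a (l 16776328) (l 16776176))) (b (a (l 16776408) (l 16776432)) (a (l 16776312) (a (l 16776576) (l 16777080))))) (l 16776424)) (l 16776456)) (l 16776448)) (c (b (b (c (c (a (l 16776328) (a (l 16776592) (l 16777176))) (l 16776832)) (l 16776824)) (c (a (l 16776888) (a (a (l 16777104) (b (l 16777136) (l 95797903559))) (a (b (l 16777288) (l 4)) (l 197803376871)))) (l 16777440))) (b (a (a (l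 16777024) (b (l 16777264) (a (l 16777328) (l 163980509399)))) (a (a (b (l 123715191015) (l 4)) (l 4)) (l 4))) (a (a (b (a (l 16777152) (l 85060485335)) (a (l 118883352791) (l 4))) (l 4)) (l 4)))) (a (l 16776960) (c (l 69491229255) (l 16777216))))) (c (l 16778048) (l 16776728))))), by decide +kernel⟩

def k37_pp_022_t : ∃ t, chk3 f_pp_022_t t 276 247 2 = true :=
  ⟨(a (l 14) (b (b (c (c (c (l 16770192) (l 16769472)) (l 16769368)) (c (l 16769232) (l 16769096))) (a (l 14) (c (c (b (l 16771280) (l 14)) (l 16771664)) (l 16771520)))) (l 14))), by decide +kernel⟩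

def k38_pp_022_t : ∃ t, chk3 f_pp_022_t t 277 494 2 = true :=
  ⟨(a (c (c (c (a (b (l 16770632) (c (l 16773176) (l 16772496))) (b (l 16772016) (b (l 16772768) (l 16774368)))) (b (l 16772256) (b (l 16772360) (l 16773968)))) (a (b (l 16770496) (l 16772408)) (b (l 16771240) (l 16771840)))) (c (a (l 16768728) (l 16769160)) (l 16767704))) (c (b (c (c (b (l 16772320) (c (l 16773424) (l 16772912))) (b (l 16771944) (l 16772888))) (c (l 16770408) (l 16772336))) (b (c (c (a (l 16773496) (c (l 16774888) (l 16774216))) (c (l 16773840) (l 16773824))) (l 16772152)) (a (c (c (c (l 16774768) (l 16774432)) (l 16774416)) (l 16774376)) (c (c (a (l 16775312) (a (l 16775584) (l 16775760))) (l 16773840)) (l 16775120))))) (c (b (l 16772272) (l 16771600)) (l 16769240)))), by decide +kernel⟩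

def k39_pp_022_t : ∃ t, chk3 f_pp_022_t t 554 495 2 = true :=
  ⟨(b (a (b (c (c (c (l 16774248) (l 16773896)) (l 16773856)) (l 16773768)) (l 14)) (c (c (c (b (a (l 16774472) (l 16775160)) (c (b (l 16775696) (a (l 14) (l 16776344))) (b (l 16775360) (l 16775176)))) (b (l 16774632) (l 16774600))) (c (l 16773776) (l 16772448))) (l 16775024))) (b (a (l 14) (a (l 14) (c (c (a (l 14) (b (b (l 16776456) (l 14)) (l 14))) (l 16776712)) (l 16776696)))) (l 14))), by decide +kernel⟩

def k40_pp_022_t : ∃ t, chk3 f_pp_022_t t 555 990 2 = true :=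
  ⟨(a (c (c (c (b (a (c (l 16775528) (l 16775192)) (b (l 16775328) (l 16776128))) (b (a (l 16776232) (a (l 16776176) (a (l 16776312) (l 16776408)))) (b (c (a (l 16776264) (l 16776296)) (l 16775784)) (a (a (l 16776408) (l 16776592)) (l 16776864))))) (b (l 16774056) (l 16776320))) (l 16775824)) (l 16775792)) (c (a (c (c (b (b (l 16775688) (a (l 16776072) (l 16776248))) (b (c (c (b (l 16776520) (l 16776424)) (l 16775976)) (l 16775976)) (a (a (l 16776968) (b (l 16776616) (b (l 16777120) (l 70028099799)))) (b (c (l 16777160) (l 16777072)) (b (a (l 16777280) (l 155390574791)) (l 4)))))) (b (l 16774600) (b (l 16775320) (l 16777400)))) (b (l 16775896) (l 16776840))) (c (b (c (b (c (l 16776384) (l 16776048)) (c (b (l 16776408) (l 16776312)) (l 16775864))) (l 16774968)) (b (c (b (l 16776880) (a (l 16777024) (b (l 16777224) (a (l 54995714231) (l 178476023975))))) (l 16776984)) (a (c (b (b (a (l 16777152) (l 79154905303)) (a (l 114588385495) (l 4))) (l 4)) (l 108682805863)) (l 4)))) (b (l 16773648) (b (l 16776976)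 (l 116735869831))))) (c (l 16777160) (l 16776496)))), by decide +kernel⟩

def k41_pp_022_t : ∃ t, chk3 f_pp_022_t t 555 991 2 = true :=
  ⟨(b (c (b (a (a (c (c (b (a (l 16776648) (l 16776496)) (a (l 16776552) (l 16777064))) (l 16776848)) (l 16776848)) (c (b (a (l 16777008) (b (l 16777208) (a (l 16777312) (l 138747576551)))) (c (a (b (a (l 16777136) (l 65733132487)) (a (l 100629741767) (l 4))) (l 4)) (l 96871645751))) (l 16777160))) (b (b (b (a (a (a (l 72175583447) (l 4)) (l 4)) (l 4)) (l 4)) (l 4)) (l 4))) (a (a (b (c (a (b (l 16777056) (b (l 16777144) (l 14))) (c (b (a (l 16777184) (l 141968801975)) (l 194045280471)) (l 16777240))) (l 16777168)) (a (l 14) (l 4))) (l 4)) (l 4))) (a (a (l 16777024) (l 81839261239)) (l 169349220215))) (l 4)), by decide +kernel⟩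

def k42_pp_022_t : ∃ t, chk3 f_pp_022_t t 278 988 2 = true :=
  ⟨(c (c (c (a (a (b (l 16773080) (l 16774344)) (b (l 16774456) (a (l 16774552) (l 16775248)))) (b (a (a (l 16774344) (l 16774704)) (a (l 16775392) (a (l 16775664) (l 16775760)))) (a (a (a (l 16775184) (l 16775696)) (b (l 16775408) (l 16776200))) (a (b (l 16775768) (a (l 16776144) (l 16775992))) (c (b (l 16776456) (b (l 16776480) (l 16776384))) (l 16775704)))))) (a (b (l 16774064) (a (l 16773984) (l 16774712))) (a (b (l 16774504) (l 16774136)) (b (l 16773920) (l 16775184))))) (a (a (l 16772160) (l 16772568)) (c (l 16775320) (l 16775304)))) (c (a (l 16771160) (l 16775280)) (l 16774480))), by decide +kernel⟩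

def k43_pp_022_t : ∃ t, chk3 f_pp_022_t t 558 988 2 = true :=
  ⟨(c (c (b (b (c (a (a (l 16775552) (l 16776240)) (c (a (a (l 16776184) (l 16776360)) (a (l 16776208) (l 16776392))) (l 16775792))) (l 16776080)) (b (c (a (a (l 16775904) (l 16776256)) (c (a (l 16776288) (l 16776976)) (l 16776792))) (l 16776432)) (a (c (a (l 16776136) (l 16776168)) (l 16776304)) (a (a (l 16776432) (l 16776936)) (a (a (l 16777072) (b (l 16777104) (l 51237617895))) (b (a (l 16777184) (l 127473287399)) (l 173107314983))))))) (a (b (c (c (a (a (l 16776392) (l 16776248)) (b (l 16776400) (l 16776960))) (l 16776664)) (l 16776656)) (c (a (a (l 16776864) (a (l 16777080) (b (l 16776640) (b (l 16777144) (l 103850967239))))) (a (b (a (l 16777056) (l 16777264)) (a (b (l 68954357959) (l 4)) (l 4))) (b (b (a (l 16777176) (l 108682805463)) (l 159148671255)) (l 4)))) (b (l 16777320) (a (l 16777056) (l 140358189607))))) (b (a (a (b (l 16776992) (b (a (l 16777128) (l 16777328)) (a (l 78618034391) (l 4)))) (b (b (l 16777112) (a (l 16777184) (l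 122641449175))) (c (l 212298891447) (l 16777304)))) (a (a (b (b (l 99019129015) (l 4)) (l 4)) (l 4)) (l 4))) (l 4)))) (b (a (l 16773312) (l 16776656)) (a (c (l 16777504) (l 16776848)) (b (c (l 75933680807) (l 16777240)) (l 4))))) (b (l 16776272) (a (l 16776840) (l 97408518167)))), by decide +kernel⟩

def k44_pp_022_t : ∃ t, chk3 f_pp_022_t t 559 988 2 = true :=
  ⟨(a (b (c (c (a (b (c (a (l 16776896) (b (l 16776632) (a (l 16777224) (b (l 16777168) (l 144653156551))))) (l 16776976)) (a (c (b (b (a (l 16777144) (l 64659390663)) (a (l 99555999943) (l 4))) (l 4)) (l 103850967639)) (l 4))) (b (b (b (a (l 16777080) (a (l 16777280) (l 158611800263))) (a (a (l 16777144) (c (l 70564970711) (l 16777216))) (l 4))) (a (a (b (l 100092870903) (l 4)) (l 4)) (l 4))) (l 4))) (b (l 16777752) (l 136600093847))) (l 63048779191)) (l 4)) (l 4)), by decide +kernel⟩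

def k45_pp_022_t : ∃ t, chk3 f_pp_022_t t 556 989 4 = true :=
  ⟨(c (a (c (a (b (l 16775096) (b (l 16775472) (l 16776272))) (b (c (l 16775464) (l 16775128)) (b (l 16776160) (a (l 16776216) (a (l 16776352) (l 16776440)))))) (b (l 16774928) (l 16774896))) (c (b (a (b (l 16775256) (l 16775728)) (c (b (l 16775624) (l 16776416)) (l 16775192))) (b (a (a (l 16776104) (l 16776288)) (b (l 16776112) (a (l 16776584) (l 16776768)))) (a (c (c (b (l 16776552) (l 16776456)) (l 16776008)) (l 16776008)) (b (l 16776912) (a (l 16777056) (b (a (l 16777128) (l 48016392423)) (a (l 94724161719) (l 4)))))))) (b (l 16774352) (b (l 16775056) (l 16777160))))) (c (b (l 16773968) (l 16776232)) (l 16775744))), by decide +kernel⟩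

def k46_pp_022_t : ∃ t, chk3 f_pp_022_t t 557 989 4 = true :=
  ⟨(b (b (c (c (a (a (l 16776304) (b (l 16776224) (l 16776128))) (b (c (a (l 16776256) (l 16776944)) (l 16776760)) (b (a (l 16776432) (a (l 16776704) (a (l 16777160) (l 99555999927)))) (a (l 16776552) (a (l 16777144) (c (l 146800640263) (l 16777264))))))) (a (l 16774840) (l 16777192))) (l 16776824)) (a (c (c (c (a (a (l 16776360) (l 16776216)) (b (l 16776368) (l 16776928))) (l 16776624)) (l 16776624)) (l 16776616)) (c (a (b (a (l 16776960) (c (a (l 16777096) (b (l 16777128) (l 78618034391))) (l 16777128))) (a (b (l 16777216) (a (l 16777320) (l 157001187527))) (a (b (l 117272740055) (l 4)) (l 4)))) (a (c (a (b (b (l 16777280) (l 4)) (l 4)) (l 218741342455)) (l 136063222359)) (l 4))) (c (l 70564970999) (l 16777216))))) (a (b (c (b (a (a (l 16776384) (l 16776560)) (c (a (l 16777072) (b (a (l 16777144) (l 68954357975)) (a (l 108682805447) (l 4)))) (l 16777136))) (a (a (l 16776944) (a (l 16777080) (a (l 16777224) (b (l 16777136) (l 94187290823)))))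 (a (b (a (l 16777272) (l 137136963815)) (l 187065958663)) (l 4)))) (l 16777696)) (a (c (a (b (b (l 16777120) (a (l 16777264) (l 126399545575))) (l 218204471479)) (c (a (b (b (l 98482258119) (l 4)) (l 4)) (l 4)) (l 156464316983))) (l 16777592)) (l 4))) (l 4))), by decide +kernel⟩

def k47_pp_022_t : ∃ t, chk3 f_pp_022_t t 278 989 5 = true :=
  ⟨(b (a (l 16775224) (a (l 16776352) (l 16778328))) (a (l 16776200) (a (c (l 16777816) (l 16777160)) (l 4)))), by decide +kernel⟩

def k48_pp_022_t : ∃ t, chk3 f_pp_022_t t 279 989 2 = true :=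
  ⟨(a (a (a (c (b (c (b (b (c (b (a (l 16777232) (a (l 138747576519) (l 4))) (a (a (l 52848230631) (l 181160378551)) (l 4))) (l 77544292967)) (l 4)) (l 4)) (l 128010159431)) (l 4)) (l 203708957447)) (l 4)) (l 4)) (l 4)), by decide +kernel⟩

def k49_pp_022_t : ∃ t, chk3 f_pp_022_t t 139 495 2 = true :=
  ⟨(b (a (a (c (a (a (b (c (c (c (b (a (l 16776328) (l 16776176)) (c (b (l 16776440) (a (l 16776584) (l 16777192))) (l 16776888))) (l 16776648)) (l 16776640)) (l 16776640)) (b (c (a (b (b (l 16777088) (a (l 16777160) (a (l 16777296) (l 157538058375)))) (a (b (l 122104578279) (l 4)) (l 4))) (b (b (a (a (l 16777200) (l 92576678071)) (l 175254798551)) (l 4)) (l 4))) (l 16777576)) (l 4))) (b (c (b (a (b (l 16776568) (l 16776472)) (b (l 16776416) (l 16776984))) (b (a (l 16777040) (b (a (l 16777112) (l 16777320)) (a (a (l 16777200) (l 111367159975)) (l 4)))) (a (a (b (l 16777168) (l 132305125607)) (a (b (l 16777304) (l 4)) (l 165591122199))) (l 4)))) (l 16777624)) (l 4))) (b (c (c (b (b (a (a (l 16776600) (a (l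 16777064) (b (l 16777096) (l 16777280)))) (b (a (a (l 16777176) (l 118346481879)) (l 4)) (l 215520116935))) (a (a (b (l 16777104) (a (l 16777176) (l 108145934551))) (a (b (l 73786196183) (l 4)) (l 4))) (l 4))) (a (a (b (l 210151407783) (l 4)) (l 4)) (l 4))) (b (a (l 16777552) (l 137673835239)) (l 219815084551))) (c (b (l 61975036439) (l 220888826375)) (l 94187292215))) (l 4))) (a (b (l 16776776) (l 119957096487)) (c (l 177939153543) (l 116199000775)))) (l 4)) (l 4)) (l 4)), by decide +kernel⟩

def k50_pp_022_t : ∃ t, chk3 f_pp_022_t t 68 122 3 = true :=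
  ⟨(a (b (a (b (c (l 16731848) (l 16727832)) (l 14)) (c (c (l 16737584) (l 16736784)) (c (l 16735960) (c (l 16735328) (l 16734904))))) (l 14)) (a (b (c (c (l 16740880) (l 16740144)) (c (l 16740040) (c (l 16738808) (l 16738416)))) (b (c (l 16746464) (c (l 16745552) (l 16744920))) (a (l 14) (c (l 16751288) (l 16749952))))) (b (c (c (l 16744136) (l 16743472)) (c (l 16744424) (c (l 16742256) (l 16741896)))) (c (b (c (l 16750008) (l 16749472)) (c (l 16753952) (l 16753512))) (b (c (l 16748928) (l 16748368)) (c (l 16753056) (l 16753240))))))), by decide +kernel⟩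

def k51_pp_022_t : ∃ t, chk3 f_pp_022_t t 69 122 3 = true :=
  ⟨(c (c (a (b (a (l 16747368) (l 16750576)) (c (b (l 16754928) (l 16758848)) (b (l 16754712) (l 16758672)))) (a (b (l 16756368) (b (l 16759568) (l 16763488))) (b (b (l 16754960) (l 16758816)) (b (l 16762696) (l 16761368))))) (b (a (a (l 16748080) (l 16752000)) (c (b (l 16753032) (l 16756952)) (b (l 16752784) (l 16756752)))) (a (b (a (l 16752752) (l 16756008)) (a (l 16756784) (l 16760024))) (a (b (l 16759224) (l 16763232)) (b (l 16762416) (l 16761168)))))) (b (a (b (a (c (l 16744112) (l 16743424)) (c (l 16747456) (l 16746840))) (a (c (l 16748184) (l 16747592)) (c (l 16751512) (l 16750992)))) (c (b (a (l 16750760) (l 16754040)) (a (l 16754808) (l 16758072))) (b (a (l 16750216) (l 16753568)) (a (l 16754352) (l 16759000))))) (b (a (a (c (l 16752272) (l 16751784)) (c (l 16755592) (l 16756472))) (c (a (l 16758872) (a (l 16761312) (l 16762936))) (a (c (l 16758600) (l 16758424)) (a (l 16761000) (l 16762656))))) (a (a (c (l 16756392) (c (l 16756088)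 (l 16755888))) (c (l 16761000) (c (l 16759440) (l 16759272)))) (b (a (c (l 16761936) (l 16761640)) (a (l 16764248) (l 16766536))) (a (c (l 16763992) (l 16764392)) (c (l 16767224) (a (l 16766208) (l 16767856))))))))), by decide +kernel⟩

def k52_pp_022_t : ∃ t, chk3 f_pp_022_t t 68 123 3 = true :=
  ⟨(a (l 14) (a (l 14) (b (b (c (c (l 16757936) (l 16757576)) (c (l 16758520) (c (l 16756928) (l 16756736)))) (a (l 14) (b (c (l 16761600) (l 16761016)) (l 14)))) (l 14)))), by decide +kernel⟩

def k53_pp_022_t : ∃ t, chk3 f_pp_022_t t 138 123 3 = true :=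
  ⟨(a (b (b (c (c (l 16761136) (l 16760832)) (c (c (l 16760608) (l 16760448)) (c (l 16760296) (l 16761448)))) (c (c (l 16759896) (b (l 16763896) (l 16765944))) (c (b (l 16763648) (l 16766392)) (c (b (l 16763456) (l 16765576)) (b (l 16763336) (l 16765472)))))) (a (l 14) (b (b (c (l 16768872) (a (l 16768160) (l 16768984))) (c (l 16768296) (c (l 16770752) (a (l 14) (l 16771048))))) (l 14)))) (b (b (c (c (l 16764304) (b (l 16763048) (l 16765080))) (c (b (l 16762784) (l 16764856)) (b (l 16763824) (c (l 16764680) (l 16764560))))) (c (c (l 16763056) (c (l 16762936) (l 16762848))) (a (c (b (l 16766112) (l 16768192)) (b (l 16765904) (l 16768032))) (a (b (l 16767248) (l 16769344)) (b (l 16768064) (l 16767544)))))) (a (b (c (c (l 16766296) (l 16766192)) (c (c (l 16766112) (l 16768688)) (b (l 16767536) (c (l 16772312) (l 16769648))))) (b (c (l 16774552) (c (l 16771864) (c (l 16771824) (l 16771800)))) (b (c (l 16776088) (c (l 16776064) (l 16775552))) (l 14)))) (b (c (c (l 16767864) (l 16770408)) (b (c (l 16771912) (c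 (l 16771840) (l 16771792))) (c (l 16771384) (c (l 16771336) (l 16771312))))) (b (c (c (l 16776104) (l 16776080)) (a (c (l 16775696) (l 16773704)) (b (l 16775968) (a (l 16776800) (b (l 16776952) (l 111904031815)))))) (b (c (a (l 16778416) (l 172033574759)) (a (b (c (l 16776968) (l 16776960)) (a (l 75396809703) (l 4))) (c (l 227331277447) (l 230015631991)))) (l 4))))))), by decide +kernel⟩

def k54_pp_022_t : ∃ t, chk3 f_pp_022_t t 139 246 3 = true :=
  ⟨(c (a (b (c (l 16762200) (b (l 16766248) (l 16768272))) (c (c (l 16766208) (l 16766160)) (c (l 16766104) (l 16766056)))) (c (b (l 16765312) (b (l 16768288) (l 16775488))) (b (c (l 16765216) (l 16765152)) (b (l 16768216) (a (l 16769464) (l 16776216)))))) (a (a (b (c (l 16766264) (b (l 16765008) (l 16767112))) (b (a (l 16768888) (l 16769704)) (c (l 16771448) (l 16768720)))) (b (c (l 16765264) (b (l 16766656) (l 16768760))) (c (c (l 16766800) (l 16769376)) (b (l 16768248) (c (l 16773000) (l 16770344)))))) (c (b (c (l 16766400) (c (l 16765048) (l 16765992)))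 (a (c (l 16768400) (l 16770992)) (b (l 16768952) (b (l 16775744) (l 16777672))))) (a (b (b (l 16768304) (l 16770400)) (b (l 16769888) (c (l 16772008) (l 16771984)))) (b (b (l 16769944) (l 16769416)) (b (c (l 16768904) (l 16771504)) (b (l 16775712) (b (l 16776488) (a (l 16776624) (l 78081164631)))))))))), by decide +kernel⟩

def k55_pp_022_t : ∃ t, chk3 f_pp_022_t t 139 247 3 = true :=
  ⟨(a (b (a (c (c (l 16774664) (l 16774616)) (b (c (l 16770904) (c (l 16770856) (l 16770824))) (c (l 16775616) (a (l 16772560) (l 16775664))))) (b (c (l 16775192) (c (l 16775136) (a (l 16772072) (l 16775512)))) (a (c (b (l 16776328) (l 16778464)) (b (l 16776296) (c (l 52848232231) (b (l 16777016) (l 121030837463))))) (b (c (l 16777008) (a (l 16776864) (b (l 16777016) (l 133915739175)))) (l 4))))) (b (a (a (b (c (l 16776760) (c (l 16776752) (l 16777232))) (c (l 118883354663) (c (l 125862676215) (l 191897797031)))) (b (c (l 82913003623) (b (a (l 16777080) (l 124788933655)) (l 226794406359))) (l 4))) (l 4)) (l 4))) (b (b (c (a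 (c (l 16777928) (b (l 16776224) (l 16778336))) (c (l 112440904599) (l 178476024551))) (a (b (c (l 16776208) (l 16776192)) (a (c (l 16776808) (c (l 16776800) (l 16776800))) (a (b (l 16777136) (l 4)) (l 219815084503)))) (b (a (c (l 16778088) (b (l 16777072) (l 131768255767))) (l 4)) (l 4)))) (b (a (a (c (l 132305127351) (c (l 139284448951) (l 199950860775))) (l 4)) (l 4)) (l 4))) (l 4))), by decide +kernel⟩

def k56_pp_022_t : ∃ t, chk3 f_pp_022_t t 70 60 2 = true :=
  ⟨(b (c (c (a (b (c (l 16735856) (l 16735400)) (a (l 16746008) (l 16743632))) (b (c (l 16746768) (l 16741136)) (a (l 16749760) (c (l 16749440) (l 16749152))))) (b (a (l 16734696) (c (l 16740744) (l 16740336))) (a (c (l 16741640) (l 16741256)) (c (l 16750048) (l 16752352))))) (a (b (c (l 16733736) (l 16732736)) (c (l 16742632) (c (l 16740056) (l 16739640)))) (b (c (l 16739720) (l 16738864)) (c (a (l 16745136) (l 16748080)) (c (l 16746112) (l 16745768)))))) (c (c (a (a (b (c (l 16747616) (l 16747312)) (b (l 16757816) (c (l 16756128) (l 16755920))))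 (b (c (l 16750464) (l 16750192)) (b (l 16755432) (c (l 16758968) (l 16758792))))) (b (b (a (l 16751480) (l 16754296)) (a (l 16754856) (c (l 16757760) (l 16757568)))) (b (a (c (l 16758360) (l 16758168)) (c (l 16763768) (l 16760992))) (c (a (l 16763096) (c (l 16765912) (l 16767160))) (a (l 16761632) (l 16765760)))))) (a (b (a (l 16746848) (l 16752392)) (b (a (l 16752072) (l 16754992)) (a (l 16755608) (l 16758520)))) (a (b (c (l 16752800) (l 16752544)) (b (l 16757888) (l 16764024))) (b (c (l 16760896) (l 16755432)) (b (l 16760744) (c (l 16764328) (l 16764200))))))) (a (a (c (b (l 16746200) (l 16755336)) (b (l 16745536) (l 16755496))) (c (b (l 16749192) (b (l 16754536) (l 16758144))) (b (l 16748592) (c (l 16756024) (l 16755808))))) (a (b (c (l 16752152) (l 16751616)) (c (b (l 16757488) (l 16761088)) (b (l 16757080) (l 16760768)))) (b (c (l 16757712) (l 16757240)) (b (a (l 16759504) (l 16760976)) (c (l 16764008) (l 16763744)))))))), by decide +kernel⟩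

def k57_pp_022_t : ∃ t, chk3 f_pp_022_t t 142 60 2 = true :=
  ⟨(a (c (b (b (c (l 16745536) (l 16744848)) (c (c (l 16754840) (l 16751960)) (l 16754176))) (b (c (b (l 16759696) (c (l 16760528) (l 16760360))) (b (l 16756664) (l 16760104))) (b (c (c (c (l 16766568) (l 16763880)) (l 16766408)) (c (l 16763648) (l 16763512))) (c (c (b (l 16767784) (a (l 16767504) (l 16768880))) (b (l 16766368) (l 16769416))) (c (b (l 16766264) (l 16768016)) (l 16767040)))))) (b (b (c (l 16744128) (l 16743376)) (c (l 16751000) (l 16750424))) (b (c (b (l 16756232) (l 16759752)) (b (l 16755784) (l 16759384))) (b (c (l 16763304) (l 16763024)) (c (l 16761648) (l 16766688)))))) (b (c (b (c (l 16751584) (l 16747680)) (c (c (l 16757592) (l 16759984)) (c (l 16754504) (l 16754264)))) (b (c (l 16747032) (l 16746352)) (c (l 16753896) (l 16753384)))) (c (b (b (c (c (l 16759928) (l 16759752)) (l 16759480)) (c (c (l 16764584) (l 16763136)) (l 16765544))) (c (b (c (b (l 16765800) (l 16768480)) (c (l 16769192) (l 16766520))) (c (a (b (l 16768528)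 (l 16771560)) (b (l 16769888) (c (l 16772928) (l 16771592)))) (b (l 16770112) (a (l 16770176) (l 16771552))))) (a (b (l 16765688) (c (l 16769232) (l 16769160))) (b (l 16767088) (c (l 16768000) (l 16770560)))))) (b (c (b (l 16759112) (l 16762624)) (b (l 16758720) (l 16762320))) (b (c (l 16760928) (l 16765944)) (c (c (l 16764544) (l 16769712)) (l 16764360))))))), by decide +kernel⟩

def k58_pp_022_t : ∃ t, chk3 f_pp_022_t t 286 60 2 = true :=
  ⟨(b (b (c (c (c (l 16751192) (l 16750920)) (l 16750496)) (c (l 16749904) (l 16749296))) (c (c (b (l 16755944) (c (l 16759328) (l 16759152))) (b (l 16755496) (l 16758864))) (c (b (l 16755032) (l 16758480)) (l 16756312)))) (c (c (a (b (b (l 16761888) (c (l 16765312) (l 16765192))) (b (b (l 16767792) (c (l 16769536) (l 16769464))) (a (b (l 16772184) (c (l 16773280) (l 16772576))) (b (l 16772208) (b (l 16772848) (l 16774368)))))) (b (b (l 16765872) (c (l 16767968) (l 16766560))) (b (b (l 16769808) (a (l 16770520) (l 16772504))) (b (c (b (l 16772160) (l 16773672)) (l 16771240))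 (a (b (l 16774176) (a (l 16774216) (l 16774560))) (c (b (l 16774216) (a (l 16774904) (l 16775896))) (l 16773312))))))) (b (b (l 16762272) (c (l 16765760) (l 16765648))) (b (c (b (l 16768344) (l 16770072)) (l 16766512)) (a (b (l 16771096) (l 16770240)) (b (l 16769856) (l 16771616)))))) (b (b (a (l 16761080) (l 16762512)) (c (l 16765472) (l 16765224))) (b (c (l 16763768) (l 16763600)) (c (l 16772584) (l 16772488)))))), by decide +kernel⟩

def k59_pp_022_t : ∃ t, chk3 f_pp_022_t t 287 120 2 = true :=
  ⟨(c (b (c (c (l 16756520) (l 16753656)) (l 16755904)) (c (b (l 16761280) (c (l 16764648) (l 16761872))) (b (l 16758272) (l 16761640)))) (b (c (l 16752760) (l 16752216)) (c (b (l 16757864) (l 16761312)) (l 16752656)))), by decide +kernel⟩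

def k60_pp_022_t : ∃ t, chk3 f_pp_022_t t 287 242 2 = true :=
  ⟨(b (c (c (c (c (l 16766672) (l 16767928)) (l 16767840)) (c (l 16765096) (l 16764968))) (c (l 16764784) (l 16764520))) (c (c (a (b (l 16767120) (l 16770112)) (b (l 16769776) (a (l 16769816) (l 16770480)))) (c (b (l 16767648) (l 16769360)) (l 16763176))) (c (l 16763040) (l 16762856)))), by decide +kernel⟩

def k61_pp_022_t : ∃ t, chk3 f_pp_022_t t 287 243 4 = true :=
  ⟨(c (b (c (b (a (l 16771840) (c (l 16773192) (l 16771856))) (a (c (l 16772896) (l 16772216)) (b (l 16773632) (a (l 16773656) (l 16774320))))) (a (b (l 16770464) (l 16772176)) (b (l 16771816) (c (l 16770912) (l 16773520))))) (b (b (a (a (l 16773152) (l 16774480)) (c (a (l 16775160) (b (l 16774960) (l 16774728))) (l 16773504))) (c (a (c (a (l 16774032) (l 16774704)) (l 16773040)) (b (c (a (l 16775152) (l 16775160)) (l 16774168)) (a (a (l 16775408) (l 16775744)) (a (l 16776072) (l 16775752))))) (a (l 16773024) (l 16774368)))) (a (c (b (a (a (l 16774712) (l 16775048)) (b (l 16774680)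 (a (l 16775600) (l 16775936)))) (b (a (a (l 16775360) (l 16775696)) (a (l 16776032) (l 16775712))) (a (a (l 16775792) (l 16776128)) (a (l 16776136) (l 16776792))))) (l 16775632)) (b (b (c (a (a (l 16775840) (l 16776168)) (l 16776632)) (l 16776328)) (a (c (a (l 16775616) (l 16776112)) (l 16773808)) (c (a (a (l 16776520) (l 16777136)) (b (a (l 16777072) (a (l 16777352) (l 106535321895))) (a (a (l 87744839927) (l 153779962135)) (l 4)))) (l 16777712)))) (b (a (a (l 16776696) (b (l 16776920) (a (l 16777056) (b (l 16777160) (l 105461580071))))) (a (c (b (a (a (l 16777128) (l 57143197943)) (a (l 116198998327) (l 4))) (l 212298891511)) (l 97945387751)) (l 4))) (a (c (b (a (l 16777016) (a (a (l 66270003463) (l 131768254759)) (l 4))) (a (a (l 16777304) (a (l 101703483687) (l 197803376855))) (l 4))) (a (l 16777096) (l 134452609735))) (l 4))))))) (a (b (c (l 16768648) (l 16771208)) (b (l 16771232) (l 16775608))) (b (b (l 16771736) (l 16770856)) (b (l 16775224) (b (l 16776512) (a (l 16777664) (l 131768256151))))))),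 by decide +kernel⟩

def k62_pp_022_t : ∃ t, chk3 f_pp_022_t t 287 243 5 = true :=
  ⟨(a (c (b (l 16765872) (l 16774688)) (l 16772816)) (b (l 16772464) (b (l 16775160) (c (c (l 16778144) (l 16776824)) (l 16776816))))), by decide +kernel⟩

def k63_pp_022_t : ∃ t, chk3 f_pp_022_t t 35 120 3 = true :=
  ⟨(a (c (a (c (b (l 16731704) (l 16739008)) (b (l 16730632) (a (l 16736520) (l 16739744)))) (b (c (l 16737976) (l 16737064)) (b (c (l 16743408) (l 16742640)) (c (l 16747064) (l 16746392))))) (a (b (c (l 16730840) (c (l 16728672) (l 16728096))) (c (a (l 16735584) (l 16738880)) (a (l 16734624) (l 16737992)))) (c (b (a (l 16734480) (l 16737736)) (a (l 16742144) (l 16745376))) (b (a (l 16733456) (l 16736800)) (a (l 16741336) (l 16745952)))))) (c (b (c (a (l 16744136) (a (l 16748672) (l 16751656))) (a (a (l 16741800) (l 16744920)) (a (l 16748016) (l 16751072)))) (b (c (a (l 16749536) (l 16755536)) (a (l 16748904) (l 16755048))) (c (a (l 16753168) (l 16759144)) (a (l 16752632) (l 16753504))))) (b (c (a (a (l 16740968)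 (l 16744168)) (a (l 16747336) (l 16750472))) (a (a (l 16740112) (l 16743392)) (a (l 16746640) (l 16752472)))) (a (c (a (l 16748576) (l 16754368)) (a (l 16750376) (b (l 16749208) (l 16753120)))) (c (a (b (l 16752984) (l 16756784)) (b (l 16756096) (l 16759880))) (a (b (l 16752432) (l 16756320)) (b (l 16755616) (l 16759488)))))))), by decide +kernel⟩

def k64_pp_022_t : ∃ t, chk3 f_pp_022_t t 35 242 3 = true :=
  ⟨(a (a (a (c (c (l 16744848) (l 16744136)) (c (l 16743400) (l 16743960))) (c (c (l 16747968) (l 16747328)) (c (l 16746672) (c (l 16746160) (l 16745816))))) (a (c (c (l 16751064) (l 16750496)) (c (l 16752528) (b (l 16747296) (l 16751296)))) (c (c (l 16754128) (l 16753624)) (b (c (l 16751160) (l 16750576)) (c (l 16755048) (l 16754560)))))) (b (c (a (c (l 16756824) (l 16748512)) (a (l 16755888) (l 16758872))) (a (c (a (l 16754336) (l 16757488)) (a (l 16753824) (l 16757048))) (a (c (l 16760600) (l 16760232)) (c (l 16763680) (b (l 16762400) (l 16764352)))))) (c (a (c (l 16755272) (a (l 16758616) (l 16761680)))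 (c (l 16758584) (c (l 16755792) (l 16760912)))) (a (a (c (l 16758208) (l 16757792)) (c (l 16761344) (l 16762304))) (a (c (l 16764440) (b (l 16763176) (l 16765144))) (c (l 16762264) (c (l 16767352) (l 16762000)))))))), by decide +kernel⟩

def k65_pp_022_t : ∃ t, chk3 f_pp_022_t t 35 243 3 = true :=
  ⟨(b (a (a (c (a (l 16750192) (l 16753336)) (a (c (l 16749320) (l 16748720)) (c (l 16752568) (l 16752032)))) (c (c (l 16752952) (a (l 16756224) (l 16759336))) (c (a (l 16755776) (l 16758960)) (a (l 16755320) (l 16758568))))) (c (c (a (a (l 16762728) (l 16765712)) (l 16769808)) (a (c (l 16753536) (l 16758640)) (a (l 16758008) (l 16766232)))) (c (a (a (l 16762104) (l 16759984)) (a (l 16763064) (l 16766112))) (a (a (a (l 16760984) (l 16762584)) (b (l 16763968) (l 16765960))) (a (c (l 16762920) (l 16762824)) (a (l 16765216) (l 16769384))))))) (a (a (a (c (l 16755336) (c (l 16753296) (l 16752792))) (c (c (l 16757360) (l 16756952)) (c (l 16756528) (l 16756088)))) (a (c (c (l 16760432) (l 16760080)) (c (l 16759728)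 (l 16760664))) (c (c (l 16763464) (l 16763184)) (c (l 16762888) (b (l 16761584) (l 16763600)))))) (a (a (c (b (l 16760168) (l 16762072)) (c (l 16760784) (c (l 16765848) (l 16761800)))) (c (c (l 16758960) (l 16764048)) (c (l 16764536) (a (l 16762928) (l 16767120))))) (c (a (c (l 16761912) (l 16767056)) (c (l 16776536) (b (l 16774320) (l 16777416)))) (a (a (c (l 16766184) (l 16767376)) (b (l 16769304) (l 16771272))) (b (a (l 16770840) (l 16772368)) (b (a (l 16774936) (l 16776432)) (a (l 16775920) (a (l 16776976) (l 125862676487)))))))))), by decide +kernel⟩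

def k66_pp_022_t : ∃ t, chk3 f_pp_022_t t 140 244 2 = true :=
  ⟨(b (c (c (a (c (l 16759600) (l 16759432)) (c (l 16763584) (l 16762296))) (a (l 16759176) (c (l 16762152) (l 16762008)))) (c (a (l 16758824) (l 16761784)) (a (l 16758456) (l 16761480)))) (a (c (c (c (a (l 16762400) (l 16763824)) (l 16764288)) (c (l 16762848) (l 16762712))) (c (l 16762504) (l 16762216))) (c (a (c (c (l 16766552) (l 16765128)) (l 16764960)) (c (c (l 16767632) (l 16766552)) (l 16769024))) (c (a (l 16764720) (l 16766200)) (l 16765232))))), by decide +kernel⟩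

def k67_pp_022_t : ∃ t, chk3 f_pp_022_t t 140 245 2 = true :=
  ⟨(a (b (c (c (b (c (l 16767080) (l 16765664)) (c (a (l 16766848) (l 16768264)) (l 16768784))) (b (l 16766816) (c (l 16767384) (l 16767288)))) (c (b (l 16765288) (l 16767152)) (l 16760768))) (b (c (c (a (c (l 16768640) (l 16768568)) (c (l 16770720) (l 16770000))) (a (l 16768448) (l 16769904))) (a (l 16768200) (l 16767080))) (c (a (c (c (l 16771104) (l 16770392)) (l 16770296)) (c (c (a (l 16771512) (l 16772880)) (l 16773136)) (c (l 16771776) (l 16771728)))) (c (l 16768288) (l 16765552))))) (c (a (c (b (b (l 16768840) (c (l 16770992) (l 16769616))) (b (c (c (l 16772144) (l 16771464)) (l 16771424)) (a (b (l 16772456) (l 16773696)) (c (b (l 16773184) (l 16774744)) (l 16772296))))) (b (b (l 16767680) (l 16769512)) (b (l 16768728) (c (l 16770592) (l 16773176))))) (c (a (b (b (l 16768920) (l 16771368)) (c (b (l 16773192) (b (l 16773888) (c (l 16775128) (l 16774784)))) (b (l 16772496) (b (l 16773856) (l 16774768))))) (b (b (l 16769624) (c (l 16771440)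 (l 16771392))) (b (c (c (l 16773736) (l 16773232)) (l 16773200)) (b (c (c (l 16775248) (l 16774584)) (l 16774568)) (c (b (l 16775600) (a (l 16775544) (l 16775896))) (l 16774168)))))) (b (b (l 16769128) (l 16770952)) (b (c (l 16772808) (l 16772768)) (c (l 16772680) (l 16772000)))))) (b (c (c (l 16765280) (l 16763888)) (b (l 16768072) (l 16769968))) (c (b (l 16769352) (l 16773856)) (l 16772512))))), by decide +kernel⟩

def k68_pp_022_t : ∃ t, chk3 f_pp_022_t t 141 244 2 = true :=
  ⟨(c (c (b (a (b (c (l 16764376) (l 16764256)) (c (l 16767432) (l 16766016))) (c (b (l 16768144) (a (l 16768208) (l 16769600))) (b (l 16767072) (l 16769808)))) (a (c (b (a (l 16767176) (l 16768568)) (a (l 16768936) (l 16771648))) (b (l 16769096) (a (l 16768864) (l 16770272)))) (a (c (b (l 16771272) (a (l 16771376) (l 16773384))) (b (l 16769896) (l 16771672))) (c (a (b (l 16771000) (l 16773256)) (b (l 16771696) (b (l 16773008) (l 16773896)))) (b (l 16771296) (a (l 16772720) (l 16773416))))))) (b (a (c (l 16767640) (l 16764904)) (a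 (l 16769728) (b (l 16767632) (l 16769416)))) (b (a (a (l 16766936) (l 16768368)) (a (l 16769792) (l 16771208))) (a (a (l 16768744) (l 16770176)) (a (l 16771600) (l 16770392)))))) (b (a (c (l 16760792) (l 16764480)) (c (c (l 16767680) (l 16767584)) (l 16762200))) (a (c (c (l 16763192) (l 16768352)) (l 16762976)) (c (c (l 16767392) (l 16766024)) (l 16765936))))), by decide +kernel⟩

def k69_pp_022_t : ∃ t, chk3 f_pp_022_t t 282 490 2 = true :=
  ⟨(a (b (c (c (a (l 16771640) (l 16771688)) (l 16770560)) (l 16767752)) (c (c (a (c (l 16772800) (l 16772096)) (b (l 16772376) (l 16773928))) (l 16770424)) (l 16769632))) (c (c (b (c (a (l 16771760) (l 16773112)) (l 16773368)) (a (c (b (l 16773096) (l 16773992)) (l 16773512)) (c (b (l 16773792) (a (l 16774512) (l 16774856))) (l 16772904)))) (c (b (l 16772016) (l 16771208)) (l 16770264))) (c (l 16770200) (l 16767496)))), by decide +kernel⟩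

def k70_pp_022_t : ∃ t, chk3 f_pp_022_t t 283 490 2 = true :=
  ⟨(b (c (c (a (b (a (l 16772688) (l 16774040)) (c (a (l 16773592) (l 16774944)) (l 16772600))) (a (c (b (l 16774744) (a (l 16774808) (l 16775808))) (l 16773032)) (c (c (b (l 16775440) (a (l 16775824) (b (l 16775624) (l 16776064)))) (b (l 16774776) (l 16774352))) (c (l 16773904) (l 16772584))))) (c (a (l 16770808) (l 16772216)) (l 16771488))) (c (l 16774064) (l 16774000))) (c (c (c (a (a (b (l 16774816) (c (b (l 16775160) (l 16775936)) (l 16774064))) (a (b (l 16775008) (b (l 16775672) (l 16775792))) (b (c (l 16775352) (l 16775344)) (c (b (l 16776024) (l 16775976)) (l 16774928))))) (b (a (a (b (l 16775472) (l 16775920)) (c (b (l 16775824) (l 16775608)) (l 16774728))) (c (a (b (l 16776168) (c (l 16776280) (l 16775952))) (b (l 16776016) (a (l 16776544) (a (l 16777000) (b (l 16776968) (l 16777344)))))) (l 16776552))) (a (a (b (c (l 16776040) (l 16776368)) (l 16776816)) (b (a (l 16776296) (l 16776472)) (b (c (a (l 16776304) (l 16777288)) (l 16777040))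 (b (a (l 16777128) (l 125862674711)) (a (a (l 16777192) (l 153779962007)) (l 4)))))) (a (a (b (l 16776968) (a (b (a (l 74323067127) (l 125862674647)) (l 4)) (l 211762020583))) (b (b (l 16777032) (b (l 16777352) (l 130694512935))) (l 4))) (b (b (b (a (l 16777144) (l 139821318439)) (a (a (l 16777200) (l 173107314855)) (l 4))) (l 4)) (l 4)))))) (b (a (c (l 16773504) (l 16774808)) (l 16776200)) (b (a (l 16774176) (a (l 16775224) (a (l 16777040) (l 103850967831)))) (a (l 16774624) (a (l 16777288) (l 198877118887)))))) (a (l 16775232) (a (l 16776280) (b (l 16776544) (a (l 16777816) (l 126399546679)))))) (a (l 16775176) (a (l 16776256) (b (l 16776520) (l 16778232)))))), by decide +kernel⟩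

def k71_pp_022_t : ∃ t, chk3 f_pp_022_t t 564 491 2 = true :=
  ⟨(b (c (a (c (c (b (l 16773488) (l 16774712)) (l 16772600)) (l 16771240)) (c (b (a (l 16774000) (l 16775008)) (c (a (l 16774912) (l 16775592)) (l 16775072))) (l 16771960))) (l 16774136)) (c (c (c (a (a (b (l 16775440) (c (b (l 16775800) (l 16775920)) (l 16774704))) (b (c (l 16775800) (l 16775464)) (a (b (l 16776056) (l 16776184)) (b (l 16776232) (l 16776360))))) (b (a (b (l 16775592) (l 16775552)) (c (b (l 16775944) (l 16775984)) (l 16775504))) (b (a (a (l 16776408) (l 16776256)) (l 16776840)) (b (a (l 16776504) (a (l 16777088) (b (a (l 16777168) (l 97945387207)) (l 151632478471)))) (b (a (l 16777000) (a (a (l 16777200) (l 180086636711)) (l 4))) (a (a (l 16776704) (a (l 16777160) (l 16777304))) (l 4))))))) (b (a (l 16775272) (l 16774664)) (a (l 16774872) (a (l 16776712) (b (l 16776840) (l 68417487655)))))) (b (l 16775608) (a (l 16776176) (l 16777504)))) (c (l 16776024) (l 16776008)))), by decide +kernel⟩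

def k72_pp_022_t : ∃ t, chk3 f_pp_022_t t 565 491 2 = true :=
  ⟨(b (c (c (a (b (c (c (l 16775216) (l 16774880)) (l 16774864)) (c (c (b (l 16775888) (a (l 16775840) (l 16776184))) (l 16774800)) (l 16774464))) (c (b (b (l 16775768) (a (l 16775632) (l 16775976))) (a (b (l 16775592) (a (l 16776448) (l 16776288))) (c (b (l 16775936) (l 16776960)) (l 16776648)))) (l 16776016))) (l 16775648)) (l 16775608)) (a (c (b (c (c (b (a (a (l 16776200) (l 16776376)) (a (l 16776216) (l 16776392))) (b (a (l 16776296) (l 16776976)) (a (l 16776520) (a (l 16777232) (a (b (l 16777176) (l 156464316615)) (l 151632478471)))))) (l 16777000)) (l 16776664)) (b (c (b (a (b (l 16777016) (a (l 16777048) (a (l 16777176) (l 100629741815)))) (a (a (b (l 68954358007) (l 4)) (l 4)) (l 4))) (a (a (b (l 16777320) (a (l 16777288) (l 4))) (a (l 154316833095) (l 4))) (l 4))) (l 74859939063)) (l 4))) (b (l 16776648) (l 96334776327))) (b (c (a (c (c (b (a (l 16776896) (a (l 16777104) (b (l 16776344) (b (l 16777168) (l 151095607447))))) (a (b (b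 (l 16777328) (c (l 117272740103) (l 16777248))) (l 4)) (l 220888826135))) (b (l 16776968) (l 118883353319))) (l 16777784)) (b (b (a (a (l 16777088) (b (l 16777112) (l 65196261623))) (b (a (l 16777360) (l 143579414759)) (l 4))) (b (a (a (l 88818581783) (l 4)) (l 4)) (l 4))) (l 4))) (l 16778184)) (l 4)))), by decide +kernel⟩

def k73_pp_022_t : ∃ t, chk3 f_pp_022_t t 283 491 2 = true :=
  ⟨(a (b (b (c (b (c (c (c (a (a (l 16775880) (l 16776224)) (c (a (l 16776248) (b (l 16776480) (l 16777144))) (l 16776744))) (l 16776392)) (l 16776392)) (l 16776376)) (a (c (c (a (c (l 16776000) (l 16776328)) (a (l 16776256) (l 16776432))) (l 16775184)) (l 16776480)) (c (b (a (l 16776904) (a (b (l 16777112) (a (l 16777176) (l 110830289111))) (a (b (l 16777296) (l 4)) (l 4)))) (a (a (l 16777040) (b (l 16777320) (a (l 16777296) (l 4)))) (c (c (l 212298891511) (l 174717927911)) (l 176328540647)))) (l 16777120)))) (l 16777208)) (c (c (c (a (b (a (l 16776776) (b (c (l 16777088) (l 16777008)) (a (a (l 16777104) (a (l 16777160) (l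 54458843351))) (a (b (l 16777208) (l 4)) (l 193508409575))))) (a (b (b (l 16777056) (a (l 16777080) (a (l 16777200) (l 157538058439)))) (a (b (l 16777344) (l 128010158375)) (l 4))) (b (b (l 202098344103) (l 4)) (l 4)))) (b (b (a (a (b (a (l 16777168) (l 100092870855)) (l 152706220295)) (l 4)) (l 4)) (l 4)) (l 4))) (b (a (l 16777256) (l 192971538807)) (a (a (l 16777488) (l 167201735399)) (l 4)))) (a (a (l 16776960) (l 70028100887)) (l 198340248135))) (a (l 16777072) (l 142505674663)))) (l 4)) (a (b (b (b (c (c (a (a (b (l 16777064) (b (a (l 16777184) (l 122104578263)) (l 168812347671))) (b (b (l 16777336) (a (l 84523614439) (l 4))) (l 4))) (c (c (l 221962568039) (l 222499438951)) (l 184381604535))) (l 90429195511)) (l 16777272)) (l 4)) (l 4)) (l 4)) (l 4))), by decide +kernel⟩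

def k74_pp_022_t : ∃ t, chk3 f_pp_022_t t 70 244 3 = true :=
  ⟨(b (a (c (c (a (l 16758080) (l 16761168)) (a (l 16757688) (l 16760840))) (a (c (l 16757288) (l 16758192)) (c (l 16760504) (c (l 16760248) (l 16760080))))) (a (c (c (l 16764224) (l 16763960)) (c (l 16758448) (b (l 16762400) (l 16764432)))) (a (c (l 16761144) (c (l 16766056) (l 16765832))) (c (l 16762664) (c (l 16767624) (l 16764808)))))) (a (a (c (c (l 16761920) (l 16761616)) (c (l 16762616) (c (l 16761072) (l 16760904)))) (a (c (l 16764104) (c (l 16763712) (l 16763440))) (c (l 16760408) (c (l 16765304) (l 16765064))))) (c (a (c (l 16762808) (l 16762624)) (c (l 16765824) (l 16765704))) (a (a (b (l 16765776) (l 16765176)) (c (l 16768472) (b (l 16767272) (l 16769312)))) (c (c (l 16765608) (l 16765544)) (c (c (l 16765496) (l 16765464)) (a (l 16764616) (l 16768832)))))))), by decide +kernel⟩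

def k75_pp_022_t : ∃ t, chk3 f_pp_022_t t 70 245 3 = true :=
  ⟨(b (a (c (c (c (l 16760832) (l 16760736)) (a (l 16760336) (l 16763456))) (b (a (c (l 16764336) (l 16764080)) (c (l 16767528) (a (l 16766528) (l 16768144)))) (c (a (l 16766360) (l 16764304)) (a (a (l 16765328) (l 16766960)) (c (l 16769432) (l 16766736)))))) (c (a (c (l 16766656) (l 16766552)) (a (l 16773472) (c (l 16775592) (l 16776536)))) (b (a (c (l 16765440) (c (l 16770592) (l 16767904))) (c (l 16773816) (c (l 16768520) (l 16770456)))) (a (c (l 16770080) (a (l 16771808) (l 16770784))) (a (c (l 16775040) (l 16775000)) (b (l 16776080) (a (l 16776680) (a (l 16777792) (l 123715192327))))))))) (a (c (a (c (l 16764456) (c (l 16764352) (l 16764280))) (c (l 16772760) (c (l 16767448) (l 16767408)))) (b (a (c (l 16763152) (a (l 16767408) (l 16769032))) (c (l 16768952) (a (l 16770656) (l 16769648)))) (a (c (l 16767808) (a (l 16769488) (l 16771112))) (c (c (l 16768376) (l 16768344)) (a (l 16770104) (l 16771712)))))) (b (a (c (c (l 16774808) (l 16774760))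 (c (l 16774064) (a (l 16771248) (l 16775464)))) (b (a (c (l 16776528) (c (l 16776504) (a (l 16776144) (l 16776872)))) (c (l 120493968407) (c (l 128547031575) (a (l 111904032503) (l 4))))) (a (a (c (l 16777064) (a (l 16776928) (l 64122521143))) (c (l 16778144) (l 201561473559))) (l 4)))) (a (a (c (l 16775968) (a (l 16775224) (c (l 16776320) (l 16776632)))) (b (c (l 16778208) (a (l 16776600) (a (l 16777760) (l 104924710487)))) (a (b (c (l 16777216) (l 66806875751)) (l 4)) (l 4)))) (l 4))))), by decide +kernel⟩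

def k76_pp_022_t : ∃ t, chk3 f_pp_022_t t 280 492 8 = true :=
  ⟨(a (a (b (a (l 16772368) (l 16772480)) (b (l 16773592) (a (l 16774008) (l 16774688)))) (b (b (l 16772144) (l 16773392)) (b (a (l 16773800) (l 16774816)) (c (a (l 16774728) (l 16775416)) (l 16774888))))) (c (b (a (b (l 16772880) (l 16773792)) (b (l 16773584) (c (l 16775160) (l 16774488)))) (b (a (a (l 16774528) (l 16775536)) (b (l 16775512) (a (l 16775464) (l 16775816)))) (a (a (a (l 16775680) (l 16775856)) (b (l 16775568) (a (l 16775936) (l 16776112)))) (b (a (l 16775920) (a (l 16776184) (l 16776360))) (c (a (a (l 16776296) (l 16776472)) (a (l 16776320) (l 16776496))) (l 16775896)))))) (b (b (l 16773200) (c (l 16774120) (l 16774112))) (b (a (l 16774680) (l 16774080)) (l 16775880))))), by decide +kernel⟩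

def k77_pp_022_t : ∃ t, chk3 f_pp_022_t t 281 984 8 = true :=
  ⟨(a (c (a (b (l 16774624) (c (b (l 16774984) (l 16775760)) (l 16774544))) (a (b (l 16774824) (b (l 16775504) (l 16775960))) (b (l 16775504) (b (l 16775856) (a (l 16776224) (l 16776400)))))) (a (a (l 16773240) (l 16773592)) (b (l 16774976) (l 16774584)))) (b (c (a (a (a (l 16775768) (l 16775944)) (b (l 16775648) (a (l 16776016) (l 16776192)))) (a (c (b (l 16776000) (c (l 16775968) (l 16776456))) (l 16775568)) (b (a (l 16776264) (l 16776112)) (l 16776808)))) (l 16776040)) (a (c (b (a (a (l 16776120) (l 16776296)) (a (l 16776144) (l 16776320))) (b (a (l 16776224) (l 16776904)) (a (l 16776448) (a (l 16777040) (b (l 16777152) (a (l 16777296) (l 4))))))) (l 16776600)) (b (a (c (c (b (l 16776472) (a (l 16776608) (l 16777184))) (l 16776904)) (l 16776904)) (a (b (l 16777056) (b (a (l 16777176) (l 119420223703)) (l 167201734935))) (b (b (a (l 16777136) (l 16777288)) (a (l 81302388967) (l 4))) (l 4)))) (a (b (a (a (l 16777120) (b (l 16777152) (l 100629741815)))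 (a (b (l 68417487095) (l 4)) (l 4))) (c (c (l 212298891511) (l 174717927911)) (l 175791669735))) (l 4)))))), by decide +kernel⟩

def k78_pp_022_t : ∃ t, chk3 f_pp_022_t t 281 985 8 = true :=
  ⟨(a (a (c (b (a (c (b (l 16775712) (l 16775840)) (l 16775280)) (a (b (l 16775976) (l 16776104)) (b (l 16776152) (l 16776280)))) (b (a (b (l 16776184) (l 16776416)) (a (l 16776888) (b (l 16776624) (a (l 16777136) (b (l 16777168) (l 140358189239)))))) (a (b (l 16776968) (a (c (l 16777232) (l 16777104)) (b (a (l 16777184) (l 118346481879)) (l 174717927671)))) (a (b (b (l 16777328) (a (l 94187290807) (l 4))) (l 4)) (l 221962567959))))) (b (l 16774800) (a (l 16777168) (b (l 16776968) (l 117809611511))))) (a (b (c (c (c (b (l 16775928) (l 16776952)) (l 16776648)) (l 16776640)) (l 16776640)) (b (b (a (a (l 16777088) (b (l 16777112) (l 59290681591))) (b (a (l 16777192) (l 139284447463)) (l 4))) (a (a (b (l 93650419943) (l 4)) (l 4)) (l 4))) (l 4))) (b (a (c (b (l 16776352) (b (l 16777024) (a (b (l 16777152) (l 105998450903))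 (b (l 16777296) (l 4))))) (l 16776896)) (b (l 16776856) (b (b (l 16777136) (a (l 16777200) (l 159685542087))) (l 4)))) (l 4)))) (b (a (a (c (a (a (b (l 16776984) (b (l 152169349383) (l 4))) (b (b (l 16776960) (b (l 16777136) (l 93113548983))) (l 4))) (b (b (l 16777168) (a (b (l 16777208) (l 4)) (l 191897796839))) (l 4))) (b (l 16777088) (l 167201735399))) (a (b (c (b (b (a (l 16777168) (l 98482258119)) (l 152169349383)) (l 4)) (l 111367160439)) (l 4)) (l 4))) (l 4)) (l 4))), by decide +kernel⟩

def k79_pp_022_t : ∃ t, chk3 f_pp_022_t t 140 492 9 = true :=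
  ⟨(a (c (a (b (l 16772176) (l 16772072)) (b (l 16771000) (l 16775488))) (a (b (l 16772136) (l 16771392)) (l 16774528))) (a (a (b (l 16773384) (b (l 16776096) (b (l 16776784) (l 51774489863)))) (b (l 16774104) (b (l 16776784) (l 180086636983)))) (a (b (l 16776128) (a (b (l 67343745719) (l 4)) (l 208540795719))) (b (b (l 16776384) (a (l 16777728) (l 96871646519))) (l 4))))), by decide +kernel⟩

def k80_pp_022_t : ∃ t, chk3 f_pp_022_t t 140 492 5 = true :=
  ⟨(a (c (a (c (l 16770416) (l 16767760)) (l 16774496)) (l 16772712)) (b (a (l 16774992) (a (l 16776096) (b (l 16776360) (l 16778136)))) (b (a (l 16777064) (a (l 82913003607) (l 4))) (a (a (l 16776952) (l 117809612807)) (l 4))))), by decide +kernel⟩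

def k81_pp_022_t : ∃ t, chk3 f_pp_022_t t 140 1972 2 = true :=
  ⟨(a (c (c (a (a (c (c (b (l 16774896) (l 16775680)) (l 16774456)) (l 16775096)) (c (a (b (l 16775424) (l 16775880)) (b (l 16775776) (a (l 16776144) (l 16776328)))) (l 16774504))) (b (c (b (a (a (l 16776016) (l 16776368)) (a (l 16776392) (b (l 16777016) (a (l 16777048) (a (l 16777176) (l 107072192727)))))) (a (a (l 16776248) (l 16776272)) (a (l 16776952) (b (a (l 16777320) (l 157538058519)) (a (a (l 16777296) (l 4)) (l 4)))))) (a (l 16774992) (a (l 16776832) (l 16777552)))) (a (c (c (b (a (l 16776480) (l 16776504)) (a (l 16776376) (a (l 16776648) (a (l 16777104) (b (l 16777136) (l 93650419895)))))) (l 16776760)) (l 16776760)) (a (b (c (a (l 16777176) (b (a (l 16777168) (l 101166612679)) (l 154316833031))) (l 16777152)) (a (a (b (l 16777328) (l 4)) (l 177402282295)) (l 4))) (l 4))))) (a (l 16773800) (a (l 16776520) (b (l 16776976) (l 95797904679))))) (a (l 16775384) (c (l 16778104) (l 16776784)))) (a (a (a (a (a (c (c (b (b (b (l 67880616199)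 (l 4)) (l 4)) (l 4)) (l 162369897399)) (l 16777400)) (l 4)) (l 4)) (l 4)) (l 4)) (l 4))), by decide +kernel⟩

def k82_pp_022_t : ∃ t, chk3 f_pp_022_t t 140 1973 2 = true :=
  ⟨(a (c (a (a (c (c (a (c (b (l 16775632) (l 16776096)) (l 16775200)) (b (l 16776312) (a (l 16776360) (l 16776208)))) (l 16774720)) (l 16773392)) (c (a (c (b (a (l 16776256) (l 16776104)) (c (l 16776808) (l 16776144))) (l 16776568)) (b (a (b (l 16776488) (l 16776392)) (l 16776784)) (a (b (l 16776952) (a (l 16777256) (b (l 16777168) (l 131768254695)))) (a (b (l 16777088) (b (l 94724161783) (l 4))) (b (b (l 16777120) (l 62511907063)) (l 4)))))) (l 16776720))) (a (c (a (a (b (c (c (l 16777040) (l 16776960)) (l 16776960)) (b (b (a (l 16777200) (l 152706220231)) (l 4)) (l 4))) (b (b (l 16777024) (b (a (l 16777152) (l 79691776215)) (a (l 112977772759) (l 4)))) (l 4))) (b (b (a (b (l 16777224) (a (l 16777280) (l 157538058455))) (a (b (l 123178320087) (l 4)) (l 4))) (l 4)) (l 4))) (b (l 45868909783) (l 147337512151))) (l 4))) (a (l 16776344)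 (a (l 75933681655) (l 4)))) (l 4)), by decide +kernel⟩

def k83_pp_022_t : ∃ t, chk3 f_pp_022_t t 140 987 2 = true :=
  ⟨(b (a (a (c (b (c (a (c (c (b (a (l 16776440) (l 16776464)) (a (l 16776344) (a (l 16776608) (a (l 16777072) (l 16777232))))) (l 16776728)) (l 16776728)) (a (b (a (l 16777056) (b (a (l 16777136) (l 54995714279)) (a (l 87207968999) (l 4)))) (a (b (a (l 16777184) (l 125862674647)) (l 168275476775)) (l 4))) (c (b (l 221962567943) (l 4)) (l 221962568055)))) (a (l 16776720) (l 89892324615))) (a (c (a (b (l 16776816) (a (l 16777040) (b (a (l 16777120) (l 16777280)) (a (l 64659390711) (l 4))))) (b (b (a (l 16777112) (a (l 81839259863) (l 4))) (a (a (l 16777176) (l 115662127319)) (l 4))) (c (c (l 215520116983) (l 176328540663)) (l 176865411575)))) (l 16777776)) (l 4))) (a (l 16776896) (l 109756549063))) (l 4)) (l 4)) (a (a (a (c (c (b (c (a (a (b (b (a (l 16777168) (l 106535321799)) (l 153779962135)) (l 4)) (l 4)) (l 4)) (l 194045280647)) (l 4)) (l 199413989975)) (l 143579416503)) (l 4)) (l 4))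 (l 4))), by decide +kernel⟩

def k84_pp_022_t : ∃ t, chk3 f_pp_022_t t 141 246 2 = true :=
  ⟨(a (a (b (b (b (c (c (a (b (c (a (b (l 16776256) (l 16776488)) (c (a (l 16776960) (b (l 16777024) (b (l 16777344) (l 137673834743)))) (l 16777280))) (l 16776864)) (b (b (a (l 16776984) (a (a (l 16777192) (l 137673834727)) (l 4))) (a (a (l 16777008) (a (l 16777144) (l 16777288))) (l 219815084247))) (a (b (a (l 16777120) (a (l 92039807207) (l 4))) (a (a (l 16777184) (l 125862674663)) (l 4))) (l 4)))) (b (c (a (b (b (a (l 16777136) (l 136063222055)) (a (a (l 16777200) (l 155927445703)) (l 4))) (l 4)) (l 4)) (l 180623507751)) (l 4))) (a (a (l 16776896) (l 56069457159)) (l 189213442551))) (a (l 16777016) (l 131231385527))) (c (c (a (b (c (a (b (l 219278213383) (l 4)) (l 4)) (l 221962568199)) (l 4)) (l 4)) (l 221962568711)) (l 221962568679))) (l 4)) (l 4)) (l 4)) (l 4)), by decide +kernel⟩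

def k85_pp_022_t : ∃ t, chk3 f_pp_022_t t 70 247 2 = true :=
  ⟨(l 4), by decide +kernel⟩

def k86_pp_022_t : ∃ t, chk3 f_pp_022_t t 70 123 3 = true :=
  ⟨(b (b (a (a (c (c (l 16773632) (b (l 16767320) (l 16774568))) (a (b (a (l 16768600) (l 16769400)) (c (l 16768480) (l 16771040))) (b (c (l 16768024) (l 16770568)) (c (l 16775312) (c (l 16775288) (l 16775272)))))) (b (c (a (l 16774912) (c (l 16776376) (l 16776360))) (a (c (l 16774848) (l 16772184)) (b (l 16775248) (a (l 16776528) (b (l 16777008) (l 105461581399)))))) (b (a (c (l 16776384) (c (l 16776360) (l 16776672))) (a (c (l 16777288) (a (a (l 16777144) (l 89355453751)) (l 138210706951))) (l 4))) (a (a (c (l 16776944) (c (l 16776928) (c (l 16776928) (l 16776920)))) (b (c (l 16777312) (l 100092871575)) (l 4))) (l 4))))) (a (a (b (a (b (c (l 16777000) (a (l 16776856) (l 50163876103))) (c (l 178476025639) (l 229478761111))) (c (l 154316835767) (c (l 213372633943) (l 208540795719)))) (l 4)) (l 4)) (l 4))) (a (a (b (a (c (l 16775808) (c (l 16775768) (a (l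 16772728) (l 16776144)))) (b (c (l 16778080) (c (l 16777736) (b (l 16776560) (a (l 16776704) (l 97945388295))))) (a (c (l 16777240) (b (a (l 16777008) (l 16777272)) (l 141968803319))) (l 4)))) (a (b (a (c (l 16776880) (c (l 16776872) (c (l 16776864) (l 16776864)))) (b (c (l 16777272) (a (l 16777176) (l 180623508375))) (l 4))) (c (l 158611803063) (a (l 203708957223) (l 4)))) (l 4))) (b (a (c (l 221962568999) (b (a (l 219815084631) (l 4)) (l 4))) (l 4)) (l 4))) (l 4))) (l 4)), by decide +kernel⟩

def k87_pp_022_t : ∃ t, chk3 f_pp_022_t t 142 488 4 = true :=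
  ⟨(a (b (c (c (a (l 16769232) (l 16771920)) (a (l 16769160) (l 16770544))) (c (l 16769784) (l 16769712))) (a (c (a (l 16771912) (l 16771944)) (l 16770824)) (c (c (b (l 16771912) (l 16773440)) (c (l 16772312) (l 16772288))) (l 16769608)))) (a (b (c (c (a (l 16771632) (l 16773624)) (l 16771928)) (l 16771848)) (c (b (a (l 16772920) (l 16774256)) (c (a (l 16773808) (l 16775144)) (l 16774120))) (l 16771008))) (b (c (a (b (l 16772536) (l 16774064)) (c (b (l 16773240) (l 16774104)) (l 16773640))) (l 16770624)) (c (c (a (b (l 16774952) (a (l 16775000) (a (l 16775256) (l 16775424)))) (b (a (l 16774808) (l 16775144)) (a (b (l 16775456) (l 16775896)) (b (l 16775800) (l 16775576))))) (b (l 16773304) (l 16774184))) (l 16775024))))), by decide +kernel⟩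

def k88_pp_022_t : ∃ t, chk3 f_pp_022_t t 284 489 4 = true :=
  ⟨(a (c (a (c (b (l 16773040) (b (l 16773704) (a (l 16774408) (l 16774752)))) (b (l 16772336) (l 16772800))) (b (b (l 16772608) (l 16774144)) (c (b (l 16775040) (c (b (l 16775056) (l 16775496)) (l 16775264))) (l 16773336)))) (c (b (l 16772640) (l 16771816)) (l 16770880))) (c (c (b (a (b (l 16773312) (l 16774848)) (b (l 16774000) (a (l 16774704) (l 16775048)))) (b (a (a (l 16774904) (l 16775568)) (a (b (l 16775368) (l 16775808)) (b (l 16775704) (l 16775496)))) (b (a (a (l 16775560) (l 16775904)) (a (l 16775920) (c (l 16776096) (l 16776584)))) (a (a (l 16776008) (a (l 16776264) (l 16776432))) (b (l 16776712) (a (l 16776472) (b (l 16777200) (a (l 16777112) (l 104387838247))))))))) (a (b (l 16773720) (c (l 16774192) (l 16772872))) (b (l 16773104) (l 16776432)))) (b (l 16772056) (l 16775824)))), by decide +kernel⟩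

def k89_pp_022_t : ∃ t, chk3 f_pp_022_t t 570 489 4 = true :=
  ⟨(b (c (b (c (a (a (l 16774512) (l 16774856)) (a (l 16775848) (a (l 16775448) (l 16775944)))) (l 16773696)) (c (a (b (l 16775664) (a (l 16775608) (l 16775952))) (a (b (l 16775848) (l 16775960)) (c (b (l 16776192) (l 16776304)) (l 16775096)))) (l 16775888))) (l 16775424)) (b (a (c (c (a (c (b (l 16776048) (l 16776160)) (l 16774952)) (a (b (l 16776304) (l 16776416)) (l 16776672))) (l 16776432)) (l 16776424)) (b (c (a (l 16776688) (b (l 16776960) (a (l 16777088) (b (a (l 16777160) (l 16777304)) (l 135526351191))))) (l 16776880)) (c (c (b (a (c (a (l 16776320) (l 16777296)) (l 16777056)) (a (b (l 92039807239) (l 4)) (l 4))) (a (a (b (l 16777136) (c (l 79691776263) (l 16777216))) (a (l 136600092983) (l 4))) (l 4))) (a (l 16777128) (l 144653157111))) (l 16777872)))) (a (c (a (b (a (l 16776840) (a (l 16776968) (b (l 16776288) (l 16777320)))) (c (b (b (a (l 16777120) (l 111367160119)) (a (a (l 16777184) (l 129083900087)) (l 4))) (l 214983246071))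 (l 95261033239))) (b (b (a (l 16777072) (b (l 16777344) (c (l 125862674711) (l 16777248)))) (a (a (a (l 73249325287) (l 99556000039)) (l 148948123975)) (l 4))) (l 4))) (a (l 16777088) (l 99019130167))) (l 4)))), by decide +kernel⟩

def k90_pp_022_t : ∃ t, chk3 f_pp_022_t t 571 489 4 = true :=
  ⟨(a (c (a (b (c (c (b (b (l 16775656) (l 16776096)) (b (l 16776200) (a (l 16776560) (a (l 16777008) (b (l 16776984) (l 16777336)))))) (l 16776472)) (l 16776304)) (b (c (b (b (a (b (l 16777152) (l 96871645463)) (l 164517380455)) (l 4)) (l 4)) (l 185992216935)) (l 4))) (b (b (c (b (l 16775992) (l 16775936)) (l 16776200)) (b (c (l 16776872) (l 16776864)) (c (a (b (l 16777104) (b (l 101703483687) (l 4))) (b (b (l 70564970727) (l 162906767639)) (l 4))) (l 77007422199)))) (l 4))) (b (l 16777096) (l 200487732119))) (b (b (c (a (b (a (l 16776240) (l 16776088)) (l 16776688)) (b (l 16776664) (c (b (l 16777000) (a (l 16777288) (b (l 84523614455) (l 4)))) (l 16777080)))) (l 16776696)) (b (c (c (b (b (a (l 16777040) (a (l 117809611063)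 (l 4))) (a (a (l 16777072) (l 75396808951)) (l 4))) (a (a (b (l 16777168) (l 108682805559)) (l 181160378711)) (l 4))) (a (l 16777160) (l 162369897159))) (l 16777896)) (l 4))) (l 4))), by decide +kernel⟩

def k91_pp_022_t : ∃ t, chk3 f_pp_022_t t 142 244 5 = true :=
  ⟨(b (c (a (c (l 16765304) (l 16765240)) (l 16773368)) (a (l 16765136) (l 16773288))) (a (c (a (l 16770832) (l 16774880)) (l 16774112)) (a (b (l 16775368) (b (l 16778008) (a (l 16777160) (l 4)))) (b (c (c (l 16778000) (l 16776680)) (l 16776672)) (c (l 210688279735) (l 165591125159)))))), by decide +kernel⟩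

def k92_pp_022_t : ∃ t, chk3 f_pp_022_t t 572 488 2 = true :=
  ⟨(a (c (c (b (c (b (l 16773920) (c (l 16775440) (l 16774776))) (l 16773008)) (c (c (b (b (l 16775440) (c (l 16775216) (l 16775872))) (a (b (l 16776136) (l 16776248)) (b (l 16775816) (l 16776992)))) (l 16776080)) (l 16776072))) (l 16775168)) (l 16775112)) (c (c (c (b (b (l 16775248) (a (l 16775944) (a (l 16775544) (l 16775056)))) (b (c (a (b (l 16775944) (l 16775720)) (b (l 16776280) (l 16776384))) (l 16775672)) (b (a (l 16776808) (b (c (l 16777112) (l 16777032)) (b (a (l 16777112) (l 107609063735)) (a (l 68954357991) (l 4))))) (b (a (b (l 16777080) (a (l 16777104) (l 100629741863))) (l 212298891511)) (a (a (b (l 63585648855) (l 154853703943)) (l 4)) (l 4)))))) (b (l 16773696) (b (l 16775008) (a (l 16777480) (b (l 16777112) (l 179549766343)))))) (b (l 16772352) (c (b (l 16773688) (l 16777760)) (l 16776688)))) (b (l 16774904) (l 16777984)))), by decide +kernel⟩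

def k93_pp_022_t : ∃ t, chk3 f_pp_022_t t 573 488 2 = true :=
  ⟨(b (c (b (c (c (b (c (a (l 16775056) (l 16775072)) (l 16774072)) (a (a (l 16775312) (l 16775648)) (a (l 16775984) (l 16775664)))) (l 16774272)) (l 16775560)) (c (a (c (a (b (l 16775744) (l 16775520)) (b (l 16776080) (l 16776024))) (l 16774808)) (c (a (b (l 16776088) (l 16776848)) (b (c (l 16776424) (l 16775440)) (b (c (a (l 16776336) (l 16777312)) (l 16777072)) (a (b (l 16777152) (l 94187290903)) (l 162906767719))))) (l 16777272))) (l 16776432))) (l 16775960)) (c (c (b (a (c (b (a (c (l 16776288) (l 16776608)) (a (l 16776536) (b (l 16776272) (l 16777296)))) (a (a (l 16776960) (b (l 16777024) (a (l 16777352) (l 105998450983)))) (a (b (b (l 16777136) (l 83449872631)) (l 184918475095)) (c (l 204782698727) (l 168275476967))))) (a (l 16776816) (b (l 16776944) (l 101703484167)))) (a (b (c (b (a (l 16777088) (b (l 16777352) (l 144653156615))) (a (b (l 88818581767) (l 4)) (l 4))) (l 16777536)) (l 4)) (l 4))) (a (c (b (a (a (b (b (l 78081163495) (l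 178476024055)) (l 4)) (l 4)) (l 4)) (l 4)) (l 203172086359)) (l 4))) (b (a (l 16776944) (l 117272741559)) (l 205319570311))) (c (b (l 16778432) (l 159685544247)) (l 82376134103)))), by decide +kernel⟩

def k94_pp_022_t : ∃ t, chk3 f_pp_022_t t 286 489 2 = true :=
  ⟨(b (b (a (a (c (a (c (b (b (l 16776896) (b (l 16777144) (a (l 16777088) (a (l 16777200) (l 161296154823))))) (b (a (b (l 16777352) (l 125862674759)) (l 4)) (l 4))) (l 16777128)) (c (c (b (c (b (a (l 16777304) (a (l 100092870951) (l 192971538663))) (l 205319569639)) (b (l 16777512) (l 168812347863))) (l 4)) (l 175254798631)) (l 118346482935))) (l 16777216)) (l 4)) (l 4)) (l 4)) (l 4)), by decide +kernel⟩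

def k95_pp_022_t : ∃ t, chk3 f_pp_022_t t 287 244 2 = true :=
  ⟨(b (b (a (b (c (a (c (c (b (a (l 16775568) (l 16776064)) (b (l 16776712) (b (l 16776872) (a (l 16776160) (a (l 16777072) (l 78081163495)))))) (l 16776600)) (l 16776592)) (c (b (c (a (l 16776888) (b (b (l 16777064) (a (l 16777088) (l 88818581767))) (a (a (l 16777360) (l 111367160119)) (l 4)))) (l 16777680)) (a (c (b (a (l 16777128) (a (l 92039807239) (l 161833025815))) (c (l 198340247751) (l 160759284167))) (l 16777560)) (l 4))) (c (l 56069457367) (l 16777136)))) (l 16778152)) (a (c (b (c (b (a (l 16776976) (a (b (l 16777168) (l 110293418295)) (l 169349218727))) (c (a (a (l 16777104) (a (l 81839259879) (l 147874382087))) (l 4)) (l 88818582407))) (l 16777160)) (b (b (a (a (a (l 16777376) (l 4)) (l 4)) (l 4)) (l 4)) (l 4))) (l 16777272)) (l 4))) (c (c (b (a (a (a (b (c (l 206393311479) (l 167201735191)) (l 4)) (l 4)) (l 4)) (l 4)) (l 4)) (l 219815085383)) (l 218741343543))) (l 4)) (l 4)), by decide +kernel⟩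

def k96_pp_022_t : ∃ t, chk3 f_pp_022_t t 284 980 4 = true :=
  ⟨(c (a (a (c (b (a (l 16775624) (b (l 16775416) (l 16775864))) (a (c (b (l 16775968) (l 16776080)) (l 16774872)) (a (b (l 16776216) (l 16776336)) (b (l 16776392) (l 16776512))))) (l 16775904)) (b (c (a (b (l 16775760) (l 16775880)) (c (b (l 16776104) (l 16776056)) (l 16775016))) (l 16774832)) (a (c (b (a (l 16776232) (l 16776408)) (b (l 16776984) (a (l 16777192) (a (a (l 64122519783) (l 95261032727)) (l 152169349399))))) (l 16776856)) (b (b (l 16776880) (b (l 16777128) (a (l 16777072) (a (l 16777192) (l 134989480167))))) (b (a (b (l 16777336) (c (l 115125256503) (l 16777248))) (l 178476024199)) (l 4)))))) (a (b (a (c (c (b (l 16776120) (l 16776968)) (l 16776664)) (l 16776664)) (c (b (l 16776792) (b (b (l 16777064) (a (l 16777088) (c (l 88281710871) (l 16777224)))) (a (b (l 16777352) (l 134989480231)) (l 4)))) (c (l 16777464) (l 16776976)))) (b (a (a (c (b (c (l 16777296) (l 16777128)) (a (l 134452609319) (l 4))) (l 16777192)) (a (b (b (l 16777200)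 (l 4)) (l 4)) (l 213909504231))) (l 4)) (l 4))) (b (b (a (b (a (l 16776936) (l 16777224)) (b (a (l 16777104) (a (l 16777208) (l 4))) (a (a (l 16777168) (l 92576678119)) (l 4)))) (a (b (b (a (l 16777176) (l 114588385479)) (l 151632478519)) (l 4)) (l 4))) (c (a (c (b (l 208540795111) (l 4)) (l 212835762503)) (l 4)) (l 213909504487))) (l 4)))) (a (b (l 16775784) (a (l 16776336) (l 16777960))) (b (a (l 16776808) (c (l 93650420631) (l 16777960))) (b (l 184381604391) (l 4))))), by decide +kernel⟩

def k97_pp_022_t : ∃ t, chk3 f_pp_022_t t 284 981 4 = true :=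
  ⟨(a (b (b (a (c (c (a (l 16776848) (b (b (l 16777024) (a (l 16777056) (a (l 16777176) (l 111904030935)))) (a (b (l 16777160) (a (l 16777216) (l 4))) (l 167738605943)))) (l 16777480)) (l 16776984)) (b (b (a (a (a (l 77544292615) (l 4)) (l 4)) (l 4)) (l 4)) (l 4))) (a (c (a (b (a (l 16777216) (b (a (l 16777168) (l 108145934535)) (l 147337511223))) (a (a (b (l 16777208) (l 4)) (l 176865411383)) (l 4))) (l 4)) (l 96871646503)) (l 4))) (l 4)) (l 4)), by decide +kernel⟩

def k98_pp_022_t : ∃ t, chk3 f_pp_022_t t 284 490 5 = true :=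
  ⟨(a (b (c (l 16776184) (l 16776160)) (c (b (l 80228649527) (l 4)) (l 102777228759))) (b (c (a (l 51237620151) (l 121030838791)) (l 71101844903)) (l 4))), by decide +kernel⟩

def k99_pp_022_t : ∃ t, chk3 f_pp_022_t t 284 491 2 = true :=
  ⟨(l 4), by decide +kernel⟩

def k100_pp_022_t : ∃ t, chk3 f_pp_022_t t 285 245 2 = true :=
  ⟨(l 4), by decide +kernel⟩

def k101_pp_022_t : ∃ t, chk3 f_pp_022_t t 143 245 2 = true :=
  ⟨(l 4), by decide +kernel⟩

def k102_pp_022_t : ∃ t, chk3 f_pp_022_t t 71 122 3 = true :=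
  ⟨(b (a (a (a (c (b (l 16764184) (l 16773264)) (b (b (l 16768104) (l 16767480)) (c (l 16767904) (a (l 16770056) (l 16770840))))) (c (b (l 16765688) (l 16773456)) (b (b (l 16767056) (l 16768720)) (c (l 16774688) (b (l 16768392) (l 16775648)))))) (b (c (c (l 16773216) (l 16773136)) (a (c (l 16767040) (c (l 16766960) (l 16769536))) (b (l 16770168) (l 16774280)))) (b (c (c (l 16775960) (l 16777328)) (a (c (l 16775240) (l 16775200)) (b (l 16776256) (a (l 16776832) (c (l 16777336) (l 102240356087)))))) (b (a (c (l 16776672) (c (l 16776656) (a (l 16776328) (l 16777000)))) (c (l 138210708487) (c (l 151095609703) (l 206393311975)))) (a (c (l 82376133735) (c (l 87207971431) (a (l 60901295735) (l 4)))) (l 4)))))) (b (b (a (c (l 16774520) (c (l 16775112) (a (l 16769064) (l 16775840)))) (b (a (c (l 16776824) (a (l 16776512) (l 48553263879))) (c (l 171496704759) (l 223573181303))) (a (a (c (l 16777256) (a (l 16777160) (l 131768255943))) (l 4)) (l 4)))) (a (a (c (l 16776296) (c (l 16776264) (b (l 16775808) (c (l 16776720)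 (l 16776720))))) (c (c (l 16778648) (l 81302392327)) (b (a (l 16776904) (l 110830291031)) (l 215520117559)))) (l 4))) (b (b (a (a (c (l 90429197431) (c (l 97408518695) (a (l 68954359527) (l 4)))) (l 4)) (l 4)) (l 4)) (l 4)))) (a (b (a (b (c (a (l 16776128) (c (l 69491232151) (l 68417489159))) (a (c (l 16776096) (b (l 16775608) (a (l 16776232) (l 16776936)))) (b (a (l 16776752) (c (l 16777288) (l 89355454199))) (c (l 139821320631) (l 198877119143))))) (b (a (c (l 73249326983) (a (a (l 16776992) (l 82376132087)) (l 219278213719))) (l 4)) (l 4))) (l 4)) (l 4)) (l 4))), by decide +kernel⟩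

def k103_pp_022_t : ∃ t, chk3 f_pp_022_t t 71 123 1 = true :=
  ⟨(l 4), by decide +kernel⟩

def k104_pp_022_t : ∃ t, chk3 f_pp_022_t t 17 31 1 = true :=
  ⟨(a (a (l 14) (a (a (l 14) (a (l 14) (l 4))) (l 4))) (l 4)), by decide +kernel⟩

def k105_pp_022_t : ∃ t, chk3 f_pp_022_t t 18 28 2 = true :=
  ⟨(a (b (a (c (b (l 16693392) (c (l 16683464) (l 16680832))) (b (c (l 16667800) (l 16664520)) (c (l 16678072) (l 16675176)))) (c (b (a (l 16681192) (l 16686920)) (a (l 16690824) (l 16696472))) (c (b (l 16679944) (l 16690048)) (b (l 16677008) (l 16687480))))) (c (a (b (a (l 16689520) (l 16695296)) (a (c (l 16701328) (l 16699328)) (c (l 16706952) (l 16705096)))) (b (a (l 16721936) (l 16717024)) (c (a (l 16712480) (l 16717896)) (a (l 16710760) (l 16716320))))) (a (b (c (l 16688880) (l 16686368)) (c (a (l 16697224) (l 16703144)) (a (l 16695024) (l 16701104)))) (b (c (l 16700680) (l 16698488)) (c (a (l 16708960) (l 16714664)) (a (l 16707072) (l 16712920))))))) (a (b (c (a (b (l 16692536) (l 16702008)) (b (l 16698048)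 (l 16707440))) (b (c (l 16691648) (l 16689032)) (c (l 16701584) (l 16699328)))) (a (b (c (b (l 16709440) (l 16714560)) (l 16721368)) (c (c (l 16733696) (l 16721768)) (c (l 16720256) (l 16718656)))) (c (b (b (l 16714808) (l 16719888)) (b (l 16725096) (c (l 16731040) (l 16729816)))) (b (c (l 16714792) (l 16712976)) (c (l 16725728) (l 16724280)))))) (a (b (b (c (l 16703448) (l 16698944)) (c (l 16691792) (l 16708920))) (b (c (b (l 16720072) (l 16725104)) (c (l 16720248) (l 16718576))) (c (c (b (l 16730896) (l 16736112)) (l 16721840)) (c (l 16731088) (l 16729776))))) (b (b (c (l 16708744) (l 16704528)) (c (l 16702248) (l 16703928))) (b (c (c (l 16717904) (l 16727024)) (c (l 16725576) (l 16724048))) (b (c (a (l 16734080) (l 16736584)) (l 16732952)) (c (c (l 16741072) (l 16740104)) (l 16728056)))))))), by decide +kernel⟩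

def k106_pp_022_t : ∃ t, chk3 f_pp_022_t t 18 28 3 = true :=
  ⟨(a (b (a (c (b (c (l 16661088) (l 16657496)) (c (l 16672136) (l 16668968))) (b (c (l 16653752) (l 16628880)) (a (l 16639512) (l 16646416)))) (c (b (c (l 16673920) (l 16670688)) (a (l 16680224) (l 16686512))) (b (c (l 16667312) (l 16663792)) (a (l 16674152) (l 16680792))))) (a (c (b (a (l 16679144) (l 16685576)) (a (l 16691544) (l 16700488))) (b (a (l 16673248) (l 16681352)) (a (a (l 16674376) (l 16677752)) (c (l 16694424) (l 16692016))))) (c (b (a (l 16691880) (l 16698072)) (b (a (l 16700960) (l 16707072)) (a (l 16707192) (l 16713248)))) (b (a (c (l 16688032) (l 16685336)) (c (l 16694472) (l 16691952))) (a (c (l 16700880) (l 16698640)) (c (l 16707208) (l 16705144))))))) (b (a (c (b (a (l 16681760) (l 16687904)) (a (l 16692680) (l 16698728))) (b (a (l 16675536) (l 16682032)) (a (l 16687304) (l 16693696)))) (c (b (a (l 16693928) (l 16699824)) (b (l 16704840) (l 16689344))) (b (a (l 16688392) (l 16694632)) (a (l 16702576) (b (l 16703152) (l 16709016))))))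 (c (b (a (a (l 16704136) (l 16710088)) (a (l 16694936) (l 16700640))) (a (a (b (l 16713064) (l 16719184)) (b (l 16718936) (l 16725000))) (c (b (l 16728240) (l 16734136)) (c (l 16709200) (l 16713744))))) (a (b (a (c (l 16700792) (l 16698440)) (b (l 16702784) (l 16709024))) (a (b (l 16709200) (l 16715752)) (b (l 16715392) (l 16721888)))) (b (a (b (l 16708960) (l 16715144)) (b (l 16715016) (l 16721136))) (a (b (l 16721456) (l 16727888)) (b (l 16727392) (l 16723288)))))))), by decide +kernel⟩

def k107_pp_022_t : ∃ t, chk3 f_pp_022_t t 72 29 2 = true :=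
  ⟨(b (a (b (c (c (l 16712488) (l 16710840)) (c (l 16709112) (l 16707312))) (c (b (c (l 16721120) (l 16719736)) (c (l 16726992) (l 16725784))) (c (l 16721408) (l 16719992)))) (b (c (b (l 16714416) (l 16730656)) (c (l 16714952) (l 16713296))) (c (b (c (l 16726624) (l 16725368)) (c (l 16732456) (l 16731376))) (c (l 16731096) (l 16729816))))) (c (c (b (b (a (l 16732952) (l 16743632)) (a (c (l 16739224) (l 16738792)) (a (l 16743072) (l 16745744)))) (a (a (b (l 16743808) (l 16753368)) (b (l 16746520) (a (l 16752112) (l 16753448)))) (b (a (l 16754448) (l 16753832)) (b (a (l 16753872) (l 16756520)) (a (l 16757024) (l 16762288)))))) (b (b (a (l 16731912) (l 16737472)) (a (l 16738136) (l 16748896))) (a (b (a (l 16743064) (l 16745832)) (a (l 16749496) (l 16752248))) (a (b (l 16748576) (l 16760224)) (b (l 16751296) (b (l 16756064) (l 16759288))))))) (c (b (a (b (l 16730816) (l 16737216)) (b (l 16736512) (l 16742864))) (a (b (l 16743704) (a (l 16748880) (l 16751696))) (b (a (l 16747920) (l 16750704)) (b (l 16754216)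 (l 16752272))))) (b (a (b (l 16729680) (l 16736256)) (b (l 16735512) (l 16742048))) (b (a (l 16742920) (c (l 16748832) (l 16748504))) (a (a (l 16748240) (l 16751120)) (b (l 16753688) (l 16757072)))))))), by decide +kernel⟩

def k108_pp_022_t : ∃ t, chk3 f_pp_022_t t 72 29 3 = true :=
  ⟨(b (c (b (b (c (l 16705296) (l 16703312)) (a (l 16707736) (l 16713936))) (a (b (l 16714384) (l 16721096)) (b (l 16720528) (l 16727192)))) (b (a (c (l 16701424) (l 16699312)) (b (l 16692960) (l 16710408))) (a (b (l 16710976) (c (l 16718888) (l 16717336))) (b (c (l 16718232) (l 16716624)) (c (l 16725216) (l 16723824)))))) (c (b (c (a (b (l 16728496) (l 16735264)) (b (l 16734472) (l 16741184))) (a (b (l 16727264) (l 16734224)) (b (l 16733384) (l 16740296)))) (a (b (c (l 16742112) (l 16741272)) (c (l 16749048) (a (l 16746880) (l 16749896)))) (c (b (l 16747992) (l 16744392)) (b (l 16747288) (b (l 16752576) (l 16756136)))))) (b (c (a (b (l 16725984) (l 16733152)) (b (l 16732256) (l 16739368))) (b (a (l 16724656) (l 16731088))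 (a (l 16732040) (l 16741032)))) (b (c (a (l 16743016) (a (l 16745024) (l 16748072))) (a (a (l 16737888) (l 16741080)) (a (l 16744232) (l 16747352)))) (b (c (a (l 16745872) (l 16751984)) (a (l 16745112) (l 16752688))) (c (a (l 16749544) (l 16755640)) (a (l 16751512) (a (l 16753576) (l 16756656))))))))), by decide +kernel⟩

def k109_pp_022_t : ∃ t, chk3 f_pp_022_t t 146 29 1 = true :=
  ⟨(c (b (b (c (c (b (l 16720672) (l 16726304)) (l 16732600)) (c (l 16720680) (l 16719168))) (c (b (c (l 16732016) (l 16730896)) (c (l 16737816) (l 16736864))) (c (b (l 16729728) (l 16735864)) (b (l 16728496) (l 16734824))))) (c (b (b (c (a (l 16742384) (l 16745024)) (l 16742920)) (c (a (l 16748384) (l 16756248)) (a (l 16747728) (l 16750400)))) (a (b (c (c (l 16754616) (l 16754368)) (l 16753984)) (c (b (l 16759136) (c (l 16762352) (l 16762200))) (b (l 16758744) (l 16761952)))) (b (c (b (l 16755560) (l 16758632)) (b (l 16755072) (l 16758216))) (b (c (c (l 16761808) (l 16761648)) (l 16761392)) (c (c (l 16766232) (l 16764792))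 (l 16764592)))))) (b (b (a (l 16740256) (l 16743056)) (c (l 16737920) (l 16747712))) (b (c (b (l 16753200) (l 16756432)) (b (l 16752632) (l 16755944))) (c (a (l 16754728) (l 16757432)) (c (l 16750576) (l 16750392))))))) (b (b (c (b (l 16713544) (l 16720016)) (b (l 16709904) (l 16716808))) (c (c (l 16719992) (b (l 16725880) (l 16732592))) (c (b (l 16724488) (l 16731416)) (b (l 16723048) (l 16730184))))) (c (b (b (c (l 16740320) (l 16739376)) (c (l 16746992) (l 16746240))) (b (c (l 16743264) (l 16742696)) (c (l 16750104) (c (l 16749816) (l 16749616))))) (b (b (c (l 16738400) (l 16737384)) (c (l 16737592) (a (l 16743096) (l 16746184)))) (b (a (b (l 16748944) (l 16752584)) (b (l 16751976) (l 16755600))) (b (a (l 16751000) (l 16754000)) (c (l 16756360) (a (l 16759712) (l 16762728))))))))), by decide +kernel⟩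

def k110_pp_022_t : ∃ t, chk3 f_pp_022_t t 147 58 1 = true :=
  ⟨(c (b (c (b (l 16735872) (c (l 16731624) (l 16730472))) (c (l 16726288) (l 16724928))) (c (c (b (l 16737304) (a (l 16741760) (l 16744360))) (b (l 16736312) (l 16742240))) (c (b (l 16735272) (l 16741368)) (b (l 16734184) (l 16740464))))) (b (c (b (l 16719552) (l 16725968)) (b (l 16716232) (c (l 16723816) (l 16722312)))) (c (c (l 16723176) (b (l 16731856) (l 16738520))) (b (c (l 16730624) (l 16729336)) (c (l 16737488) (l 16736416)))))), by decide +kernel⟩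

def k111_pp_022_t : ∃ t, chk3 f_pp_022_t t 147 59 1 = true :=
  ⟨(c (c (a (b (c (b (l 16747632) (c (l 16753728) (l 16753464))) (b (l 16746928) (l 16753048))) (b (b (a (l 16757272) (l 16758568)) (c (l 16763824) (l 16760840))) (b (c (c (l 16766984) (l 16764224)) (l 16764008)) (c (c (b (l 16766680) (l 16769552)) (b (l 16766568) (l 16768144))) (l 16763264))))) (b (b (c (l 16750208) (l 16749568)) (c (b (l 16754656) (l 16757656)) (l 16755672))) (b (c (b (l 16763304) (c (l 16766432) (l 16763664))) (a (l 16755984) (l 16757280))) (b (c (a (l 16767504) (c (l 16767504) (l 16767400))) (l 16761352)) (b (c (a (l 16768528) (l 16771088)) (l 16768976)) (c (c (a (l 16770128) (l 16772688)) (l 16768064)) (l 16765336))))))) (b (c (b (l 16747552) (b (l 16752248) (l 16755408))) (b (l 16746816) (l 16742776))) (c (b (c (l 16752432) (l 16749616)) (c (b (l 16754616) (l 16763104)) (b (l 16764968) (l 16757768)))) (b (b (l 16758152) (l 16750952)) (c (l 16756008) (l 16755880)))))) (b (c (b (c (l 16746048) (l 16745248)) (a (l 16740456)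 (l 16743296))) (c (b (l 16744416) (b (l 16749656) (l 16753176))) (b (a (l 16742016) (l 16745072)) (c (l 16750928) (l 16742720))))) (c (b (c (l 16748896) (l 16748464)) (c (c (l 16755752) (l 16755624)) (a (l 16754008) (l 16756840)))) (a (b (c (l 16757024) (l 16748656)) (c (l 16758944) (c (l 16758712) (l 16758552)))) (b (b (l 16757936) (l 16756288)) (c (l 16759224) (b (l 16765000) (l 16763432)))))))), by decide +kernel⟩

def k112_pp_022_t : ∃ t, chk3 f_pp_022_t t 37 116 1 = true :=
  ⟨(b (c (a (a (c (c (l 16731288) (l 16730096)) (l 16738680)) (c (c (l 16736432) (l 16735368)) (c (l 16734248) (l 16733072)))) (c (a (a (l 16739736) (l 16737016)) (c (b (l 16745032) (l 16747720)) (l 16745568))) (c (a (l 16739536) (l 16744712)) (a (l 16738496) (l 16743808))))) (a (c (a (l 16725440) (l 16731200)) (a (l 16722432) (c (l 16729200) (l 16727792)))) (c (c (l 16719184) (l 16728600)) (a (c (l 16735072) (l 16733824)) (c (l 16740816) (l 16739728)))))) (c (a (c (c (a (l 16736840) (l 16747184)) (a (l 16735808) (l 16741040)))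 (c (a (l 16734736) (l 16740096)) (a (l 16733600) (l 16739096)))) (a (c (c (b (l 16745552) (l 16748312)) (l 16746152)) (c (l 16745336) (l 16744472))) (c (c (a (l 16750600) (l 16747760)) (l 16740664)) (b (l 16738144) (l 16741080))))) (c (a (a (l 16731800) (l 16737512)) (a (l 16732616) (l 16738080))) (a (a (c (l 16729880) (l 16728536)) (c (l 16735816) (l 16734632))) (a (c (l 16741632) (l 16740600)) (c (l 16747320) (l 16746440))))))), by decide +kernel⟩

def k113_pp_022_t : ∃ t, chk3 f_pp_022_t t 37 117 1 = true :=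
  ⟨(b (c (a (a (c (c (l 16747720) (l 16741616)) (c (l 16740704) (l 16739752))) (c (c (b (l 16746128) (l 16748952)) (l 16736312)) (c (l 16746016) (l 16745200)))) (c (b (a (c (l 16745848) (l 16750432)) (c (a (l 16754736) (l 16757128)) (l 16755392))) (a (c (a (l 16752664) (l 16755104)) (l 16753312)) (c (a (l 16757520) (l 16759904)) (l 16753008)))) (c (a (l 16751216) (l 16745808)) (c (l 16742824) (l 16742512))))) (a (c (a (l 16727752) (l 16733408)) (a (c (l 16736624) (l 16735496)) (c (l 16742504) (l 16741528)))) (a (a (c (l 16748056) (l 16746408)) (c (l 16750792) (l 16738800))) (c (c (l 16755152) (l 16754536)) (a (l 16741656) (l 16744480)))))) (a (a (a (c (c (c (l 16746928) (l 16746192)) (l 16745016)) (c (l 16743328) (l 16741480))) (c (c (c (l 16749472) (l 16748792)) (l 16742472)) (c (l 16746160) (l 16744464)))) (c (c (a (c (l 16757224) (l 16751368)) (c (b (l 16753032) (l 16755896)) (l 16753912))) (c (l 16741544) (l 16751384))) (c (c (l 16750704) (l 16750000)) (a (l 16736928) (l 16742464))))) (c (c (c (a (a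 (b (l 16755496) (l 16758352)) (b (l 16757928) (l 16760776))) (a (c (b (l 16760432) (l 16763248)) (l 16756416)) (b (c (l 16762792) (l 16762616)) (c (l 16762976) (l 16765456))))) (a (a (l 16756424) (l 16753672)) (a (l 16756128) (a (l 16757944) (l 16759152))))) (a (c (l 16746696) (l 16746176)) (c (l 16754352) (l 16751336)))) (c (a (b (l 16743736) (l 16746960)) (c (l 16740440) (l 16750496))) (a (c (l 16744472) (b (l 16752600) (l 16756064))) (c (l 16750048) (c (l 16749696) (l 16749456)))))))), by decide +kernel⟩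

def k114_pp_022_t : ∃ t, chk3 f_pp_022_t t 74 118 4 = true :=
  ⟨(a (a (b (c (l 16758000) (l 16752184)) (c (b (l 16757192) (l 16760184)) (b (l 16756728) (l 16759792)))) (b (c (b (l 16753816) (l 16756752)) (l 16754760)) (c (b (l 16759704) (c (l 16762768) (l 16762608))) (b (l 16759296) (l 16762352))))) (b (a (c (b (l 16756320) (l 16759240)) (l 16752072)) (c (c (b (l 16758896) (l 16761792)) (l 16754904)) (l 16754592))) (c (a (b (c (l 16762272) (l 16762096)) (c (b (l 16764488) (l 16765968)) (l 16765088))) (b (a (l 16764024) (l 16765248)) (c (c (b (l 16766944) (l 16768424)) (l 16765008)) (l 16764928)))) (a (a (l 16757488) (l 16758744)) (b (l 16764344) (l 16762136)))))), by decide +kernel⟩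

def k115_pp_022_t : ∃ t, chk3 f_pp_022_t t 148 119 8 = true :=
  ⟨(a (a (b (b (l 16762576) (l 16768248)) (b (b (l 16767928) (l 16769480)) (b (a (l 16770720) (l 16771336)) (c (a (l 16772304) (l 16772920)) (l 16772568))))) (b (b (l 16763832) (c (l 16766928) (l 16766816))) (b (c (b (l 16769216) (l 16770752)) (l 16769912)) (a (b (l 16770648) (b (l 16773128) (l 16773912))) (c (b (l 16772608) (b (l 16773768) (l 16774544))) (l 16770720)))))) (b (b (c (b (l 16765008) (l 16766512)) (l 16765632)) (c (b (l 16770648) (a (l 16768928) (l 16770152))) (b (l 16767920) (l 16769456)))) (a (c (b (b (l 16770448) (c (l 16772000) (l 16771968))) (a (b (l 16771904) (b (l 16774376) (l 16774496))) (b (c (l 16772528) (l 16773824)) (c (b (l 16774992) (l 16775112)) (l 16774064))))) (b (l 16768528) (b (l 16773488) (l 16772424)))) (a (b (c (b (l 16771368) (l 16772904)) (l 16769456)) (c (b (b (l 16774056) (l 16774824)) (c (l 16775992) (l 16775984))) (l 16775192))) (b (b (l 16771952) (b (l 16773104) (l 16773880))) (b (c (b (l 16774664)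 (l 16774776)) (l 16772400)) (b (l 16776280) (c (b (l 16776784) (a (c (l 16777224) (l 16777016)) (b (a (l 16777144) (l 124252062023)) (l 163443638759)))) (l 16776944))))))))), by decide +kernel⟩

def k116_pp_022_t : ∃ t, chk3 f_pp_022_t t 149 238 8 = true :=
  ⟨(a (b (a (c (l 16767600) (l 16767496)) (b (l 16768016) (l 16769528))) (c (a (b (l 16769856) (l 16771368)) (b (l 16771072) (a (l 16772280) (l 16772888)))) (a (l 16767920) (l 16769144)))) (c (a (b (b (l 16769280) (l 16770776)) (a (b (l 16771976) (l 16772176)) (b (l 16772576) (c (l 16772784) (l 16774080))))) (b (b (l 16770488) (l 16770664)) (b (a (l 16773176) (l 16772464)) (a (b (l 16774312) (l 16773752)) (b (l 16774904) (l 16775008)))))) (b (c (l 16767624) (l 16765296)) (l 16773592)))), by decide +kernel⟩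

def k117_pp_022_t : ∃ t, chk3 f_pp_022_t t 298 239 8 = true :=
  ⟨(b (c (b (a (a (l 16772592) (l 16773192)) (b (l 16772408) (a (l 16774184) (l 16774784)))) (c (a (b (l 16772736) (a (l 16774512) (l 16775112))) (a (b (l 16774952) (l 16775056)) (l 16775936))) (l 16775024))) (c (l 16774240) (l 16774224))) (a (b (c (c (b (a (l 16775272) (l 16775224)) (a (c (l 16775392) (l 16774728)) (b (l 16775800) (l 16777000)))) (l 16775952)) (l 16775944)) (b (b (a (l 16776616) (c (a (a (l 16776992) (b (l 16777048) (l 79154905415))) (a (b (l 16777184) (l 4)) (l 205319569639))) (l 16777152))) (a (a (l 16776856) (a (l 16777280) (b (l 16777128) (l 139284447591)))) (a (a (b (l 106535321975) (l 4)) (l 4)) (l 4)))) (b (a (a (b (a (l 16777064) (l 58753810807)) (a (l 86671098247) (l 4))) (l 213372633415)) (l 4)) (l 4)))) (b (b (b (c (a (l 16775632) (a (l 16776080) (a (l 16776960) (l 16777344)))) (l 16776576)) (a (l 16776664) (a (a (l 16777040) (b (l 16777096) (l 108145934727))) (a (b (l 77007421847) (l 4)) (l 4))))) (a (b (a (l 16776904)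 (a (b (l 16777032) (l 63048778103)) (b (l 16777168) (l 167201735063)))) (a (a (b (l 16777112) (l 118346482071)) (b (l 88818581911) (l 4))) (l 4))) (a (a (b (l 195119022295) (l 4)) (l 4)) (l 4)))) (l 4)))), by decide +kernel⟩

def k118_pp_022_t : ∃ t, chk3 f_pp_022_t t 299 239 8 = true :=
  ⟨(b (b (c (b (a (a (l 16774624) (l 16774568)) (c (l 16776120) (l 16776120))) (a (c (a (l 16774080) (l 16775336)) (l 16774368)) (a (l 16776584) (a (b (l 16776840) (b (l 16777280) (a (l 16777368) (l 4)))) (b (a (l 16777056) (b (l 16777112) (l 125325803847))) (l 206930182439)))))) (a (l 16772664) (a (l 16776192) (b (l 16776408) (l 7214204071))))) (b (a (c (b (l 16776256) (a (l 16775680) (a (l 16776784) (a (l 16777008) (b (l 16777064) (l 86134227287)))))) (l 16776432)) (a (b (c (a (l 16777000) (b (a (l 16777128) (l 104387838295)) (l 148948124151))) (l 16777112)) (a (a (b (l 16777360) (l 4)) (l 207467053303)) (l 4))) (l 4))) (a (a (b (l 16776720) (a (l 16776952) (a (b (l 16777080) (l 93650420119)) (b (l 66270003591) (l 4)))))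 (c (b (a (a (l 16777088) (b (l 16777144) (l 144116285815))) (c (l 192434667767) (l 151095607943))) (l 218741342679)) (l 108682806615))) (l 4)))) (b (a (b (c (a (a (b (b (a (l 16777160) (l 130157642071)) (l 206393311447)) (l 4)) (l 4)) (l 4)) (l 194582151879)) (l 4)) (l 4)) (l 4))), by decide +kernel⟩

def k119_pp_022_t : ∃ t, chk3 f_pp_022_t t 74 119 9 = true :=
  ⟨(b (a (a (b (l 16762888) (l 16760768)) (b (l 16765440) (l 16764616))) (b (a (l 16762712) (l 16766512)) (c (l 16772328) (l 16772272)))) (a (b (a (c (l 16763952) (l 16769112)) (c (l 16769088) (l 16766408))) (a (a (l 16769072) (l 16770336)) (a (l 16774216) (l 16776032)))) (a (b (l 16774184) (b (a (l 16775920) (b (l 16776736) (l 88818582663))) (a (a (l 53385102183) (l 116199000471)) (l 4)))) (a (b (b (l 16775248) (c (l 16778216) (l 16776736))) (b (l 197803377719) (l 4))) (b (b (l 16776448) (l 173107314071)) (l 4)))))), by decide +kernel⟩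

def k120_pp_022_t : ∃ t, chk3 f_pp_022_t t 74 59 5 = true :=
  ⟨(a (b (b (c (l 16742416) (l 16752296)) (c (b (l 16757560) (l 16750216)) (l 16750824))) (a (b (c (l 16758912) (l 16753360)) (c (l 16770592) (l 16770440))) (c (b (l 16761512) (l 16773168)) (b (l 16756024) (l 16773080))))) (b (b (c (b (l 16756592) (l 16759664)) (l 16747160)) (c (c (l 16756528) (l 16753752)) (c (l 16753592) (l 16753432)))) (b (c (b (l 16763120) (l 16772184)) (l 16770448)) (b (a (l 16774080) (b (l 16776448) (a (l 16776720) (l 113514647399)))) (a (a (b (l 16775880) (l 69491231255)) (b (l 16778960) (l 4))) (b (l 205856441927) (l 4))))))), by decide +kernel⟩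

def k121_pp_022_t : ∃ t, chk3 f_pp_022_t t 150 118 2 = true :=
  ⟨(c (a (b (c (b (l 16757952) (c (l 16764208) (l 16764056))) (b (l 16760840) (l 16763824))) (b (c (c (b (l 16766384) (l 16767848)) (l 16767000)) (l 16761576)) (c (a (b (l 16768672) (l 16768848)) (c (b (l 16769912) (l 16771392)) (l 16770576))) (l 16764608)))) (c (b (c (b (l 16763720) (b (l 16765872) (l 16767320))) (b (l 16763560) (l 16766472))) (c (b (b (l 16766800) (a (l 16769632) (l 16770816))) (a (b (l 16771104) (c (l 16772584) (l 16772560))) (b (l 16770968) (a (l 16773456) (l 16772728))))) (b (l 16766784) (b (l 16769008) (l 16770496))))) (b (c (l 16759632) (l 16754232)) (c (b (l 16769320) (l 16767072)) (l 16765496))))) (c (b (c (l 16752832) (l 16752664)) (l 16769384)) (b (l 16752392) (l 16769184)))), by decide +kernel⟩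

def k122_pp_022_t : ∃ t, chk3 f_pp_022_t t 150 476 8 = true :=
  ⟨(b (a (c (a (l 16771680) (c (l 16771568) (l 16772856))) (l 16769600)) (c (c (c (a (b (l 16773696) (l 16774432)) (b (l 16773552) (a (l 16775312) (l 16775240)))) (l 16774648)) (l 16774632)) (l 16774608))) (a (c (a (a (l 16772872) (l 16772160)) (b (l 16772672) (a (l 16774432) (l 16775024)))) (c (l 16771120) (l 16771096))) (a (c (a (b (l 16774872) (l 16774960)) (l 16775832)) (l 16775520)) (a (c (a (l 16776272) (b (l 16775536) (a (l 16776864) (b (l 16776168) (b (l 16777104) (l 117272740151)))))) (l 16776400)) (b (c (l 16776712) (l 16776624)) (c (a (b (l 16777280) (a (b (l 16777376) (l 4)) (l 4))) (b (a (b (l 16777160) (l 161833025879)) (l 150558736903)) (l 4))) (l 84523615559))))))), by decide +kernel⟩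

def k123_pp_022_t : ∃ t, chk3 f_pp_022_t t 150 477 8 = true :=
  ⟨(a (b (c (c (a (a (l 16773072) (a (l 16773512) (l 16774136))) (a (b (l 16775192) (l 16775280)) (l 16776152))) (l 16775256)) (l 16775240)) (b (a (c (l 16775800) (l 16773160)) (a (a (l 16776536) (a (l 16776760) (b (l 16776064) (l 16777248)))) (c (a (b (l 16776936) (b (a (l 16777144) (l 122104578359)) (l 155927446023))) (b (b (l 16777296) (a (l 85597356375) (l 4))) (l 4))) (l 68417488135)))) (a (a (l 16776248) (b (l 16776656) (a (l 16776888) (b (l 16777088) (a (l 16777192) (l 154316833159)))))) (a (a (c (b (a (l 16777024) (b (l 16777080) (l 95261032807))) (l 195655893255)) (l 16777192)) (b (a (b (l 65733132679) (l 4)) (l 217667600631)) (l 4))) (l 4))))) (b (a (b (c (a (l 16776360) (a (l 16776968) (b (l 16776912) (b (a (l 16777112) (l 90966065511)) (l 138210705927))))) (l 16776632)) (b (b (a (l 16776832) (a (a (l 16777184) (l 151632478583)) (l 4))) (a (a (l 16776872) (a (l 16777088) (l 75933679975))) (l 4))) (a (a (a (l 16777072) (b (l 16777128)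 (l 130694513031))) (c (c (l 188139700439) (l 145726898807)) (l 16777320))) (l 4)))) (b (c (a (b (a (a (l 16777280) (b (l 16777176) (l 176865411399))) (l 201561473303)) (l 4)) (l 4)) (l 180623508007)) (l 4))) (a (a (a (b (b (l 209077666103) (l 4)) (l 4)) (l 4)) (l 4)) (l 4)))), by decide +kernel⟩

def k124_pp_022_t : ∃ t, chk3 f_pp_022_t t 150 238 9 = true :=
  ⟨(b (a (l 16772904) (b (l 16774568) (a (l 16775488) (l 16777952)))) (a (a (l 16775368) (b (l 16775816) (a (l 16778280) (l 100629744007)))) (b (a (a (l 16776688) (l 66270005495)) (l 187065959319)) (l 217667602199)))), by decide +kernel⟩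

def k125_pp_022_t : ∃ t, chk3 f_pp_022_t t 150 238 5 = true :=
  ⟨(a (b (l 16772752) (c (b (l 16775160) (l 16779232)) (l 16775816))) (b (c (l 16775256) (l 16775208)) (a (b (l 16776896) (l 168812351079)) (l 201561474615)))), by decide +kernel⟩

def k126_pp_022_t : ∃ t, chk3 f_pp_022_t t 150 239 2 = true :=
  ⟨(a (a (b (b (c (a (c (b (c (b (l 16776824) (a (a (l 16776976) (l 16777360)) (a (b (l 16777168) (l 175791669575)) (l 197266505927)))) (l 16776976)) (a (a (b (b (l 88281710983) (l 4)) (l 4)) (l 4)) (l 4))) (l 74859938711)) (a (c (b (b (a (b (l 16777096) (l 106535321991)) (b (l 75933680023) (l 4))) (l 4)) (l 4)) (l 134452611063)) (l 4))) (l 86671101703)) (l 4)) (l 4)) (l 4)) (l 4)), by decide +kernel⟩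

def k127_pp_022_t : ∃ t, chk3 f_pp_022_t t 151 236 4 = true :=
  ⟨(b (c (a (a (l 16765432) (l 16763992)) (c (a (l 16767848) (l 16766384)) (l 16763080))) (c (l 16761784) (l 16761656))) (c (b (a (c (l 16768232) (l 16768128)) (a (l 16769944) (l 16769144))) (a (a (l 16769040) (l 16767600)) (c (a (l 16771424) (l 16771272)) (l 16769320)))) (l 16769912))), by decide +kernel⟩

def k128_pp_022_t : ∃ t, chk3 f_pp_022_t t 151 237 4 = true :=
  ⟨(a (b (c (a (b (l 16769184) (a (l 16771664) (l 16772256))) (c (b (l 16771704) (c (l 16771856) (l 16773144))) (l 16769752))) (l 16767760)) (c (b (c (a (a (l 16773160) (l 16772432)) (b (l 16772936) (a (l 16774688) (l 16773960)))) (l 16771376)) (c (a (a (a (l 16773168) (l 16773464)) (b (l 16774840) (l 16774920))) (a (l 16775792) (b (l 16775184) (c (b (l 16776552) (a (l 16776776) (l 16777224))) (l 16776728))))) (l 16775480))) (l 16774696))) (b (c (c (c (b (a (l 16771568) (a (l 16773744) (l 16773008))) (a (a (l 16774032) (l 16773304)) (l 16775472))) (c (l 16774168) (l 16774160)))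 (l 16774136)) (l 16774080)) (a (c (b (c (a (b (l 16775120) (l 16775192)) (l 16776064)) (l 16775752)) (a (b (c (l 16776584) (l 16776576)) (c (a (b (l 16776984) (a (b (l 16777176) (l 180086636871)) (l 159148671511))) (c (b (b (l 16777408) (l 137136964055)) (l 4)) (l 115125257207))) (l 75396810007))) (b (b (b (l 16776880) (a (l 16776920) (a (l 16777128) (l 104387838327)))) (a (a (l 16777360) (b (l 16777168) (l 161296155015))) (l 196729635079))) (l 4)))) (a (l 16777464) (b (l 16776024) (l 90966067415)))) (a (b (c (c (b (l 16776272) (b (l 16776816) (a (l 16777032) (a (a (l 66270003575) (l 97945387463)) (l 148411253239))))) (l 16776608)) (l 16776600)) (c (b (c (b (c (a (l 176865411239) (l 4)) (l 148948124535)) (l 4)) (l 195119022583)) (l 4)) (l 205856441159))) (b (c (b (b (l 16776656) (b (l 16777056) (a (l 16776968) (a (l 16777176) (l 145190027623))))) (c (c (a (b (b (l 16777144) (l 122104578519)) (l 4)) (l 218204471799)) (l 173107314999)) (l 126399546631))) (l 16778400)) (l 4)))))), by decide +kernel⟩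

def k129_pp_022_t : ∃ t, chk3 f_pp_022_t t 151 118 5 = true :=
  ⟨(b (c (l 16768224) (l 16767992)) (b (c (l 16772784) (l 16772672)) (a (l 16774600) (a (c (l 16776368) (l 16776336)) (b (l 16776808) (l 161833029239)))))), by decide +kernel⟩

def k130_pp_022_t : ∃ t, chk3 f_pp_022_t t 151 119 2 = true :=
  ⟨(a (b (b (a (b (c (b (c (c (l 16776104) (l 16776008)) (l 16775992)) (c (a (l 16776464) (a (a (l 16776832) (b (l 16776792) (b (l 16777072) (l 86134227335)))) (b (c (l 16777008) (l 16777008)) (a (b (l 16777200) (l 4)) (l 212835762407))))) (l 16776720))) (l 16776320)) (b (c (c (a (c (b (b (l 16776936) (a (l 16776976) (a (l 16777184) (l 145726898551)))) (c (a (b (l 16777312) (l 124252062183)) (l 218741342535)) (l 103314097079))) (l 16777792)) (a (b (c (l 191897796855) (l 16777336)) (l 4)) (l 4))) (l 88818583767)) (l 16777264)) (l 4))) (b (c (b (c (a (a (l 16776744) (b (l 16776856) (b (l 16777368) (a (l 16777400) (l 4))))) (c (b (c (a (a (l 16777064) (a (l 16777168) (l 80228647319))) (l 183844733143)) (l 83986744087))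 (l 211225149879)) (l 105461581095))) (l 16777088)) (c (c (a (a (b (b (a (l 16777136) (l 116198998311)) (l 151095607799)) (l 4)) (l 4)) (l 4)) (l 190824055447)) (l 141431933175))) (l 79154908759)) (l 4))) (l 4)) (l 4)) (l 4)), by decide +kernel⟩

def k131_pp_022_t : ∃ t, chk3 f_pp_022_t t 74 59 3 = true :=
  ⟨(a (b (b (c (c (l 16751656) (l 16751000)) (c (l 16739824) (a (l 16748096) (l 16751080)))) (a (c (l 16746112) (a (l 16749552) (l 16748400))) (c (l 16748896) (c (l 16758696) (l 16747728))))) (c (b (c (l 16754408) (c (l 16754184) (l 16754024))) (c (l 16771640) (b (l 16759280) (l 16773240)))) (b (b (a (l 16755624) (l 16758528)) (c (l 16760792) (c (l 16755344) (l 16760440)))) (a (b (c (l 16768160) (l 16762696)) (c (l 16761248) (l 16766360))) (c (l 16771464) (b (l 16765600) (l 16774480))))))) (b (c (b (a (l 16745024) (l 16747768)) (c (l 16753184) (l 16752840))) (b (c (l 16745592) (b (l 16753744) (l 16757272))) (a (c (l 16761552) (l 16755896)) (c (l 16753888) (l 16758792))))) (a (b (c (l 16768840) (c (l 16763280)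 (c (l 16757872) (l 16763008)))) (b (c (l 16773928) (c (l 16773808) (l 16773720))) (b (c (l 16778984) (a (l 16775744) (c (l 16776952) (l 16778576)))) (a (c (l 16777168) (a (l 16777024) (l 107072195543))) (l 4))))) (b (c (l 16770224) (b (a (l 16758280) (l 16764936)) (l 16771704))) (b (a (c (l 16775872) (b (l 16774976) (l 16777960))) (b (c (l 16776376) (l 16776328)) (c (l 16778840) (c (l 116199001319) (l 116199001383))))) (c (l 212835764407) (c (l 218741344375) (l 220351955751)))))))), by decide +kernel⟩

def k132_pp_022_t : ∃ t, chk3 f_pp_022_t t 75 59 3 = true :=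
  ⟨(a (a (b (c (b (l 16750488) (l 16767544)) (b (c (l 16760320) (l 16749376)) (b (l 16760048) (l 16763536)))) (b (c (c (l 16774168) (l 16775400)) (b (l 16772280) (b (l 16774920) (c (l 16776520) (a (l 16775968) (l 57680071863)))))) (a (b (b (c (l 16777312) (c (l 16777296) (l 88281713847))) (l 4)) (l 4)) (l 4)))) (b (c (b (l 16753168) (l 16770200)) (b (c (l 16763112) (l 16752240)) (b (l 16762848) (l 16771568)))) (b (b (c (l 16775128) (c (l 16775048) (l 16774992))) (c (b (c (l 16777160) (l 16777144)) (l 169349223783)) (b (a (l 16778808) (l 131231387479)) (l 221425698407)))) (l 4)))) (a (b (c (b (l 16755824) (l 16772832)) (b (c (l 16755384) (l 16760312)) (c (l 16772656) (l 16771224)))) (b (b (b (c (l 16779368) (a (l 16776216) (l 74859939063))) (c (l 116199003959) (a (l 100629744279) (l 4)))) (l 4)) (l 4))) (b (b (c (l 16768936) (c (l 16758112) (l 16763112))) (b (c (l 16773792) (l 16773608)) (a (c (l 16776296) (b (l 16775512) (l 50163874263))) (c (l 67880621735) (b (l 16776744) (l 162906771063)))))) (l 4)))),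 by decide +kernel⟩

def k133_pp_022_t : ∃ t, chk3 f_pp_022_t t 38 28 2 = true :=
  ⟨(b (b (c (a (l 16716488) (l 16726328)) (a (b (l 16689360) (l 16699360)) (c (l 16702976) (l 16701264)))) (c (a (c (b (l 16703032) (l 16718128)) (l 16708616)) (a (l 16732928) (l 16737656))) (a (c (l 16702296) (l 16700632)) (c (l 16712432) (l 16711056))))) (c (c (a (a (b (l 16722848) (b (l 16740784) (l 16735432))) (b (b (l 16735752) (l 16740592)) (b (l 16735072) (b (l 16749360) (l 16751936))))) (b (b (l 16742832) (l 16747616)) (a (b (l 16744968) (c (l 16750160) (l 16744624))) (c (c (l 16760072) (l 16757320)) (l 16757112))))) (a (a (b (l 16732104) (b (l 16739784) (l 16745072))) (b (l 16726576) (c (l 16737016) (l 16736608)))) (b (l 16745624) (a (b (l 16749456) (l 16744168)) (b (l 16743632) (l 16751408)))))) (a (b (c (c (l 16712712) (l 16712072)) (c (l 16711416) (l 16731712))) (c (a (l 16730960) (l 16735968)) (a (l 16719440) (l 16735072)))) (a (b (c (l 16719896) (l 16739760)) (c (l 16739536) (l 16740088))) (b (c (l 16724760) (l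 16723792)) (c (c (l 16745768) (l 16745456)) (l 16744984))))))), by decide +kernel⟩

def k134_pp_022_t : ∃ t, chk3 f_pp_022_t t 39 56 2 = true :=
  ⟨(c (a (c (b (l 16736136) (a (l 16742736) (l 16747064))) (b (l 16734880) (l 16743952))) (c (b (l 16744560) (a (l 16751232) (l 16755304))) (b (l 16743544) (l 16753872)))) (a (c (b (l 16712568) (l 16742920)) (b (l 16711128) (l 16726088))) (c (b (l 16742456) (l 16751776)) (b (l 16720312) (l 16750944))))), by decide +kernel⟩

def k135_pp_022_t : ∃ t, chk3 f_pp_022_t t 39 57 4 = true :=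
  ⟨(a (b (c (a (l 16754584) (b (l 16753912) (l 16758624))) (b (l 16751024) (l 16755880))) (c (a (b (l 16759168) (c (l 16764224) (l 16764048))) (b (c (l 16763544) (l 16763352)) (c (a (l 16767400) (l 16770128)) (l 16768320)))) (a (b (l 16748176) (l 16763768)) (b (l 16763048) (l 16768128))))) (b (c (a (b (l 16758064) (l 16762760)) (b (l 16762112) (c (l 16766872) (l 16766720)))) (a (l 16759912) (b (l 16761664) (l 16766488)))) (b (a (c (c (a (l 16766624) (l 16768640)) (l 16767504)) (l 16767288)) (c (a (c (l 16771296) (l 16770544)) (c (b (l 16771416) (l 16773816)) (l 16772552))) (l 16771432))) (a (c (c (a (b (l 16770272) (l 16772744)) (b (l 16772288) (c (b (l 16774144) (l 16775384)) (l 16774744)))) (a (l 16771432) (l 16773472))) (c (l 16772392) (l 16772320))) (a (a (c (b (l 16773760) (b (l 16775616) (c (b (l 16776560) (a (l 16777248) (c (b (l 82376129975) (l 203708957047)) (l 104924710007)))) (l 16776824)))) (l 16774920)) (c (b (c (l 16774776) (l 16774744)) (c (b (a (l 16776376) (b (l 16776560) (b (l 16777008)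 (l 97408516247)))) (a (b (b (l 16777456) (l 130157642615)) (l 4)) (l 4))) (b (l 16776592) (l 167738606167)))) (b (l 16774688) (c (l 64659388487) (l 16777040))))) (a (c (b (c (b (l 16775152) (c (l 16776696) (l 16776368))) (l 16775736)) (b (c (b (a (a (l 16776920) (l 18488492711)) (l 169349218615)) (a (l 190824055255) (l 4))) (l 100092871751)) (l 4))) (b (l 16775704) (l 165054251927))) (b (c (b (l 16776120) (c (b (a (l 16776800) (a (l 17414750887) (l 113514644375))) (a (b (l 77007422231) (l 198340247911)) (l 4))) (l 76470550119))) (l 16779264)) (l 4)))))))), by decide +kernel⟩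

def k136_pp_022_t : ∃ t, chk3 f_pp_022_t t 39 57 5 = true :=
  ⟨(a (b (c (l 16752720) (l 16751952)) (c (a (l 16760744) (l 16765240)) (c (l 16762688) (l 16762464)))) (b (c (a (l 16759384) (l 16763664)) (l 16761040)) (a (c (b (l 16766992) (l 16772208)) (l 16769368)) (a (b (l 16770080) (c (l 16775312) (l 16775248))) (b (l 16772224) (b (l 16776096) (l 121567714423))))))), by decide +kernel⟩

def k137_pp_022_t : ∃ t, chk3 f_pp_022_t t 38 28 3 = true :=
  ⟨(b (c (c (a (a (l 16690928) (l 16696472)) (b (l 16720416) (l 16709600))) (a (b (l 16707344) (l 16697032)) (b (l 16718496) (l 16708056)))) (c (a (b (l 16704992) (a (l 16713136) (l 16718936))) (b (l 16695496) (a (l 16724616) (l 16730136)))) (a (b (l 16681560) (a (l 16711016) (l 16716984))) (b (l 16695992) (a (l 16722832) (l 16728520)))))) (c (a (a (b (l 16706216) (a (l 16716432) (l 16729624))) (b (l 16716920) (b (l 16741184) (l 16726072)))) (c (b (l 16725472) (b (l 16728496) (l 16734184))) (b (c (l 16719368) (l 16718776)) (b (l 16727624) (l 16743984))))) (b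 (a (a (b (l 16720936) (l 16727008)) (a (l 16717824) (l 16720680))) (c (b (l 16714936) (l 16731264)) (a (l 16724224) (l 16729832)))) (a (c (a (l 16726504) (l 16732080)) (a (b (l 16732520) (l 16738952)) (b (l 16738288) (l 16744664)))) (b (a (l 16733976) (l 16739416)) (c (c (l 16732968) (l 16743088)) (a (l 16750256) (l 16745232)))))))), by decide +kernel⟩

def k138_pp_022_t : ∃ t, chk3 f_pp_022_t t 39 28 3 = true :=
  ⟨(b (c (a (b (c (l 16709600) (l 16707984)) (c (l 16719672) (l 16718432))) (b (l 16739376) (c (l 16729080) (l 16728128)))) (a (b (a (l 16702728) (l 16707992)) (a (b (l 16731952) (l 16737608)) (a (l 16717752) (l 16720320)))) (a (b (l 16713088) (b (l 16742264) (l 16726920))) (b (l 16728552) (c (l 16729552) (l 16728576)))))) (a (c (b (b (l 16748000) (a (l 16730032) (l 16734920))) (c (a (l 16738752) (l 16764488)) (a (l 16748680) (l 16764080)))) (b (c (a (l 16725840) (l 16730968)) (a (l 16735296) (l 16739272))) (c (a (c (l 16737760) (l 16747944)) (l 16763648)) (a (b (l 16754864) (l 16750584)) (b (l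 16749624) (l 16755792)))))) (b (a (c (l 16757896) (b (l 16743136) (l 16748976))) (c (l 16762520) (b (l 16748072) (l 16764384)))) (c (a (c (l 16769112) (l 16768848)) (b (l 16770760) (a (l 16775136) (b (l 16776016) (l 118346489031))))) (b (a (l 16765400) (l 16767688)) (b (a (l 16769920) (a (l 16773600) (l 16775920))) (a (l 16772968) (c (a (l 16776440) (l 124252067863)) (a (l 16776408) (l 220888822103)))))))))), by decide +kernel⟩

def k139_pp_022_t : ∃ t, chk3 f_pp_022_t t 76 58 2 = true :=
  ⟨(b (a (b (c (c (b (l 16749848) (l 16747272)) (l 16740008)) (c (l 16749760) (l 16748992))) (c (c (c (b (l 16755344) (l 16752800)) (l 16749880)) (b (l 16754632) (l 16757424))) (c (l 16744976) (l 16754864)))) (b (c (c (a (l 16749464) (l 16751776)) (l 16744816)) (a (l 16742656) (l 16745120))) (c (b (c (c (l 16754728) (l 16759752)) (l 16748920)) (c (a (l 16761408) (l 16761072)) (l 16756936))) (c (l 16749864) (l 16749392))))) (b (c (a (a (c (b (l 16759488) (l 16757016)) (l 16755216)) (c (b (l 16756584) (c (l 16764664) (l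 16764504))) (l 16757608))) (a (c (a (b (l 16763560) (l 16766304)) (b (l 16764704) (l 16764824))) (l 16759960)) (c (b (c (l 16763856) (l 16766344)) (c (a (l 16768632) (l 16767128)) (l 16763848))) (c (l 16762352) (l 16756984))))) (c (b (l 16762240) (l 16765144)) (a (l 16750336) (l 16755304)))) (c (b (a (c (c (a (l 16762504) (b (l 16766728) (l 16768112))) (c (l 16761592) (l 16760864))) (c (l 16760760) (l 16755376))) (c (c (c (a (b (l 16769024) (l 16767784)) (b (l 16768640) (a (l 16772080) (l 16771880)))) (l 16771456)) (l 16770744)) (l 16770616))) (a (a (c (c (b (l 16767216) (l 16766000)) (l 16767808)) (l 16762392)) (c (c (b (l 16766888) (c (l 16768960) (l 16770888))) (l 16767504)) (l 16764752))) (c (a (c (a (b (l 16771208) (l 16771296)) (b (l 16769712) (a (l 16773448) (l 16772696)))) (b (l 16766464) (l 16770496))) (c (b (c (l 16774016) (l 16774000)) (a (l 16774840) (a (l 16775672) (l 16776224)))) (l 16774672))) (a (l 16772320) (l 16774624))))) (a (a (c (l 16755424) (l 16755120)) (l 16768216)) (c (l 16771920)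 (l 16771776)))))), by decide +kernel⟩

def k140_pp_022_t : ∃ t, chk3 f_pp_022_t t 154 116 4 = true :=
  ⟨(c (c (b (a (l 16754176) (l 16756424)) (a (b (l 16763360) (l 16760784)) (b (l 16765584) (b (l 16767576) (l 16768904))))) (a (b (l 16759192) (l 16759288)) (c (l 16764160) (l 16764080)))) (c (c (l 16762856) (l 16762760)) (l 16762616))), by decide +kernel⟩

def k141_pp_022_t : ∃ t, chk3 f_pp_022_t t 154 234 4 = true :=
  ⟨(c (c (a (c (a (b (l 16768184) (l 16768264)) (l 16771288)) (l 16770040)) (a (b (l 16767744) (l 16773064)) (c (b (l 16768856) (l 16774160)) (l 16773448)))) (a (l 16769976) (b (l 16765592) (l 16773560)))) (a (l 16769832) (l 16772104))), by decide +kernel⟩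

def k142_pp_022_t : ∃ t, chk3 f_pp_022_t t 154 235 4 = true :=
  ⟨(b (a (c (b (c (l 16773792) (l 16770792)) (a (l 16774264) (a (l 16775096) (l 16775640)))) (l 16774048)) (b (c (c (a (l 16775104) (c (b (l 16775848) (a (l 16776256) (b (l 16776632) (l 16777128)))) (l 16776184))) (l 16775624)) (l 16775592)) (a (c (c (b (l 16776128) (a (l 16776544) (b (l 16776912) (a (l 16777432) (a (l 114588385783) (l 4)))))) (l 16776440)) (l 16776424)) (c (a (b (a (l 16776800) (b (l 16776904) (b (l 16777152) (l 123178320391)))) (a (b (b (l 77007421239) (l 157001187895)) (l 4)) (l 4))) (b (b (a (b (l 16777088) (l 86134227447)) (l 187602829543)) (l 213909504439)) (l 4))) (l 88818581799))))) (b (a (c (b (c (a (l 16775320) (c (l 16776416) (l 16776408))) (l 16775848)) (a (c (l 16776008) (l 16775992)) (a (a (l 16776688) (b (l 16776792) (b (l 16777048) (l 72712453943)))) (c (b (a (l 16777056) (a (l 87744840183) (l 155390575111))) (b (l 184918474983) (l 4))) (l 16777816))))) (l 16777456)) (b (c (a (b (c (a (a (l 16776920) (a (l 16777112)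 (l 83449872887))) (l 202635215239)) (l 81302390183)) (a (a (b (l 16777488) (l 131768254999)) (l 4)) (l 4))) (l 4)) (l 169349219031)) (l 4))) (a (a (c (a (c (b (l 16776424) (b (c (l 16777104) (l 16776936)) (a (a (l 16777080) (l 71101841191)) (l 185992216791)))) (l 16776744)) (b (a (l 16777000) (b (l 16776936) (b (l 13656654247) (l 138747576887)))) (c (a (a (b (l 102240354759) (l 4)) (l 210151408007)) (l 4)) (l 150558737639)))) (l 16778256)) (c (c (b (b (a (a (a (l 16777136) (l 99019129271)) (l 202635215127)) (l 4)) (l 4)) (l 4)) (l 190287184759)) (l 186529088359))) (l 4)))), by decide +kernel⟩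

def k143_pp_022_t : ∃ t, chk3 f_pp_022_t t 154 58 5 = true :=
  ⟨(b (c (l 16762312) (l 16761888)) (a (b (l 16769536) (b (l 16773928) (a (l 16776224) (a (l 16779608) (l 87207973223))))) (b (l 16771896) (b (c (l 16776168) (l 16776136)) (c (l 184918476487) (l 137136969863)))))), by decide +kernel⟩

def k144_pp_022_t : ∃ t, chk3 f_pp_022_t t 155 116 2 = true :=
  ⟨(c (c (b (a (b (l 16757240) (l 16762464)) (l 16767296)) (a (c (c (l 16770440) (l 16769080)) (l 16769000)) (b (l 16769904) (a (l 16772008) (c (l 16773112) (l 16773056)))))) (a (b (l 16752936) (l 16768832)) (b (l 16760432) (l 16771064)))) (c (b (l 16753712) (l 16769752)) (l 16766680))), by decide +kernel⟩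

def k145_pp_022_t : ∃ t, chk3 f_pp_022_t t 310 117 2 = true :=
  ⟨(b (c (a (c (b (l 16773168) (c (b (l 16774560) (c (l 16775912) (l 16775904))) (l 16775208))) (l 16773784)) (a (c (b (l 16773328) (b (l 16775352) (b (l 16776368) (b (l 16776880) (a (l 16777400) (a (l 96334774807) (l 160222413383))))))) (l 16774608)) (c (b (l 16774200) (b (l 16775888) (a (b (l 16776776) (b (a (l 68417487303) (l 128010158615)) (l 4))) (b (a (l 16777216) (b (l 16776936) (l 93650420231))) (l 4))))) (b (l 16773784) (l 16777808))))) (c (l 16774232) (l 16774152))) (b (b (c (c (b (a (a (l 16776648) (a (b (l 16776888) (a (l 16777152) (l 99019129383))) (b (a (l 16777088) (l 74323067319)) (l 209077666071)))) (c (a (c (b (l 195655893335) (l 4)) (l 201024602631)) (l 4)) (l 203708957447))) (a (a (b (a (l 16777024) (a (l 77007421239) (l 135526351399))) (a (b (l 97408516631) (l 4)) (l 4))) (l 4)) (l 4))) (a (l 64122522295) (l 209614537799))) (c (l 90429198807) (l 16777344))) (l 4)) (l 4))), by decide +kernel⟩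

def k146_pp_022_t : ∃ t, chk3 f_pp_022_t t 311 117 2 = true :=
  ⟨(b (b (c (c (c (b (c (l 16774568) (l 16774552)) (a (l 16775360) (b (l 16776088) (a (l 16776496) (a (l 16776888) (b (l 16776984) (a (l 81302389223) (l 148411253239)))))))) (b (l 16774528) (l 16775872))) (l 16775160)) (l 16775072)) (c (c (b (b (c (a (l 16776368) (a (c (b (l 16777312) (a (a (l 16777120) (l 89355452839)) (l 198340247799))) (l 11509171127)) (c (b (l 186529087799) (l 4)) (l 195119022551)))) (a (l 16776352) (l 88281711159))) (a (b (a (l 16776600) (a (l 16777000) (a (l 16777424) (l 121030836743)))) (c (a (l 16776936) (a (a (l 94187291063) (l 155390575111)) (l 4))) (l 16777136))) (l 4))) (a (c (b (a (a (b (l 16777456) (l 202635215111)) (a (l 188139700519) (l 4))) (l 4)) (l 4)) (l 183307862807)) (l 4))) (b (a (l 16776648) (l 108145937303)) (l 188139701527))) (a (a (l 16776936) (l 82913005831)) (l 121567712807)))) (l 4)), by decide +kernel⟩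

def k147_pp_022_t : ∃ t, chk3 f_pp_022_t t 38 58 3 = true :=
  ⟨(a (a (b (c (c (l 16740720) (l 16737344)) (c (c (l 16739376) (l 16738976)) (b (l 16745504) (l 16741672)))) (c (c (l 16763480) (l 16762440)) (b (c (l 16748912) (b (l 16757192) (l 16760568))) (c (l 16755496) (a (l 16753784) (l 16756552)))))) (b (b (c (l 16742544) (b (l 16739448) (l 16742672))) (c (l 16748640) (c (l 16747840) (l 16747272)))) (c (c (l 16768552) (b (l 16754648) (l 16771472))) (b (c (l 16754296) (a (l 16752552) (l 16755288))) (c (l 16771312) (a (l 16764536) (l 16772488))))))) (b (c (c (b (l 16760968) (l 16766888)) (b (l 16760472) (l 16763960))) (a (b (a (l 16745160) (l 16747856)) (c (l 16753152) (l 16755360))) (c (b (l 16752072) (l 16768832)) (b (l 16751608) (l 16768576))))) (b (a (a (c (l 16769096) (l 16768608)) (c (l 16771584) (l 16769936))) (a (c (l 16774016) (c (l 16773864) (l 16773760))) (b (c (l 16774944) (l 16774800)) (c (c (l 16777288) (l 16779888)) (c (l 80765524103) (a (l 58753815079) (l 123715195623))))))) (a (c (a (c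 (l 16775168) (l 16777728)) (b (l 16776080) (l 129083907607))) (a (b (l 16773536) (a (l 16776096) (c (l 16776992) (l 61438167159)))) (a (b (l 16775480) (l 176865412103)) (b (a (l 16776376) (l 16779512)) (l 4))))) (b (a (b (c (l 16777320) (c (l 16777296) (l 84523619031))) (l 4)) (l 4)) (l 4)))))), by decide +kernel⟩

def k148_pp_022_t : ∃ t, chk3 f_pp_022_t t 152 236 1 = true :=
  ⟨(c (a (b (c (c (a (b (l 16769408) (l 16768216)) (b (l 16767944) (a (l 16771704) (l 16772280)))) (l 16765296)) (l 16770288)) (c (c (c (c (b (a (l 16772312) (l 16772144)) (c (l 16774640) (l 16774304))) (l 16773576)) (l 16773544)) (l 16773480)) (l 16773336))) (b (c (c (c (a (b (l 16771744) (c (l 16771864) (l 16773144))) (b (l 16771568) (a (l 16772696) (l 16773264)))) (l 16772968)) (l 16772896)) (l 16772728)) (a (c (c (c (a (b (l 16772984) (l 16775720)) (c (b (l 16773560) (l 16776288)) (l 16775568))) (l 16775272)) (l 16775232)) (l 16775160)) (c (c (c (b (c (l 16775712) (l 16775704)) (a (b (l 16776496) (b (a (l 16776888) (a (l 16777096)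 (a (l 16777352) (l 92576678327)))) (a (b (l 16777144) (l 119420224007)) (l 217130729783)))) (b (b (l 16776872) (a (c (l 16777408) (l 16777080)) (b (l 99556000199) (l 4)))) (b (c (l 199950860663) (l 165054251863)) (l 4))))) (b (l 16775688) (a (l 16777792) (b (l 16777016) (l 203172086311))))) (b (l 16775664) (c (l 6677334359) (l 16777008)))) (l 16778904))))) (c (c (l 16772832) (l 16772712)) (a (b (l 16764264) (l 16772904)) (b (l 16772216) (b (l 16774752) (c (l 16776344) (l 16776312))))))), by decide +kernel⟩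

def k149_pp_022_t : ∃ t, chk3 f_pp_022_t t 306 236 1 = true :=
  ⟨(b (c (c (c (c (b (a (a (l 16772416) (l 16772976)) (l 16775128)) (a (l 16775576) (a (l 16776296) (b (l 16776456) (a (b (l 16776848) (b (l 16777104) (l 101166612935))) (b (a (l 16777056) (l 8287945127)) (l 199950860551))))))) (b (l 16774536) (a (l 16775392) (c (l 16777160) (l 16776496))))) (c (l 16775208) (l 16775184))) (l 16775120)) (c (l 16775000) (l 16774880))) (b (c (c (c (b (a (c (c (a (l 16776200) (b (l 16776576) (l 16777088))) (l 16776472)) (l 16776464)) (a (c (a (b (l 16776992) (b (l 82913001319) (l 179549766103))) (b (b (l 16777336) (l 140358189527)) (l 4))) (l 16777848)) (l 4))) (a (b (a (l 16776728) (c (a (b (l 16777056) (l 72175583031)) (l 183844733127)) (l 16777200))) (c (a (a (l 16776944) (b (l 16777128) (l 109756547559))) (l 210688278951)) (l 85060485287))) (l 4))) (a (l 16776752) (l 121567708919))) (c (l 64122523975) (l 16777024))) (c (l 16779616) (a (l 16776664) (l 110830292791)))) (b (a (a (a (c (c (c (b (b (a (l 16777136)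 (l 105461580151)) (l 144116286023)) (l 4)) (l 16777320)) (l 16777320)) (l 16777304)) (l 4)) (l 4)) (l 4)) (l 4)))), by decide +kernel⟩

def k150_pp_022_t : ∃ t, chk3 f_pp_022_t t 307 236 1 = true :=
  ⟨(b (a (b (c (c (c (c (b (l 16775888) (b (l 16776416) (a (l 16776488) (a (l 16776904) (b (l 16777088) (l 85597356535)))))) (l 16776224)) (l 16776200)) (l 16776160)) (l 16776072)) (c (b (c (c (b (a (l 16776832) (a (b (l 16777480) (l 126399545863)) (l 216056987959))) (c (a (a (l 16777040) (b (l 73786196439) (l 172033573319))) (l 4)) (l 100629743111))) (l 16777136)) (l 16777120)) (b (b (a (a (a (c (l 83986743703) (l 16777208)) (l 4)) (l 4)) (l 4)) (l 4)) (l 4))) (c (l 16777296) (l 86671101591)))) (b (c (c (c (c (a (a (b (l 16776576) (b (l 16777416) (l 193508409575))) (b (l 16776856) (a (b (l 109219676647) (l 4)) (l 217130729879)))) (b (b (a (l 16776952) (a (l 16777152) (l 105998451159))) (a (a (l 74859937591) (l 138210705927)) (l 4))) (l 4))) (b (l 16777928) (l 168812347799))) (l 70028101111)) (l 16777096)) (c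 (l 16777072) (l 16777040))) (l 4))) (l 4)), by decide +kernel⟩

def k151_pp_022_t : ∃ t, chk3 f_pp_022_t t 76 237 1 = true :=
  ⟨(a (b (b (a (c (c (c (c (a (l 16775496) (b (l 16775944) (b (l 16776488) (a (l 16776560) (a (l 16776984) (b (l 16777408) (l 133915738615))))))) (a (l 16775144) (l 16776288))) (l 16775688)) (l 16775632)) (c (l 16775544) (l 16775456))) (a (c (c (a (c (b (a (l 16776656) (a (l 16776864) (b (l 16776824) (b (l 16777096) (l 103850967415))))) (b (a (a (l 16777440) (b (l 16777168) (l 159685542279))) (l 195655893255)) (l 4))) (l 16777056)) (c (b (a (b (l 16777280) (a (a (l 102777225687) (l 143042544087)) (l 4))) (b (a (a (l 61438164791) (l 101166612935)) (l 141968802375)) (l 4))) (l 4)) (l 112977774919))) (l 16777168)) (c (l 16777136) (l 65196265271))) (l 4))) (a (c (a (c (c (a (c (b (l 16775312) (c (l 16776848) (l 16776688))) (l 16776312)) (b (l 16776528) (a (b (l 16776936) (b (a (l 16777128) (l 103850967415)) (l 143042544199))) (b (b (l 16777120) (a (l 16777376) (l 4))) (l 4))))) (l 16776552))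 (l 16776528)) (c (a (c (c (a (b (a (l 16776888) (b (l 16776856) (a (l 16777160) (l 80765518231)))) (l 211225149911)) (b (b (l 16777224) (l 182770991303)) (l 4))) (b (l 16777056) (l 215520117335))) (l 82913003831)) (a (c (b (b (a (b (l 16777176) (l 166127993239)) (l 155927446071)) (l 4)) (l 4)) (l 148411254695)) (l 4))) (l 93113552743))) (c (l 16779544) (a (l 16776440) (l 93113552663)))) (l 4))) (b (a (a (a (b (c (c (c (a (c (b (a (l 16777016) (l 16777392)) (l 190824055015)) (l 16777184)) (a (b (b (l 16777200) (l 4)) (l 4)) (l 213909504407))) (l 16777264)) (l 16777256)) (l 16777240)) (l 4)) (l 4)) (l 4)) (l 4)) (l 4))) (l 4)), by decide +kernel⟩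

def k152_pp_022_t : ∃ t, chk3 f_pp_022_t t 77 118 1 = true :=
  ⟨(a (a (a (a (b (b (b (c (c (c (c (b (c (l 217130730071) (l 217667600983)) (l 4)) (l 217667601319)) (l 217130730391)) (l 16777664)) (l 159685545447)) (l 4)) (l 4)) (l 4)) (l 4)) (l 4)) (l 4)) (l 4)), by decide +kernel⟩

def k153_pp_022_t : ∃ t, chk3 f_pp_022_t t 38 119 1 = true :=
  ⟨(l 4), by decide +kernel⟩

def k154_pp_022_t : ∃ t, chk3 f_pp_022_t t 78 232 1 = true :=
  ⟨(a (c (c (c (c (a (l 16768208) (b (l 16769048) (l 16771608))) (a (l 16768088) (l 16770240))) (l 16769656)) (c (l 16768768) (l 16768520))) (c (l 16768120) (a (l 16755760) (l 16768816)))) (c (c (c (b (a (l 16771768) (a (l 16772672) (l 16774032))) (b (a (l 16773352) (a (l 16774584) (l 16775776))) (a (c (l 16774328) (l 16774296)) (a (a (l 16775608) (l 16776120)) (a (a (l 16776504) (b (l 16776440) (b (l 16776920) (l 73786196631)))) (c (b (l 16776824) (a (b (l 16777160) (l 212835762471)) (l 196192764295))) (l 16777736))))))) (b (l 16772008) (a (l 16773568) (l 16776984)))) (c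 (l 16773200) (l 16773080))) (c (c (l 16772952) (l 16772816)) (c (l 16772672) (a (l 16771272) (l 16773792)))))), by decide +kernel⟩

def k155_pp_022_t : ∃ t, chk3 f_pp_022_t t 79 232 1 = true :=
  ⟨(a (b (a (c (c (c (c (b (l 16774616) (a (l 16775368) (c (b (l 16776064) (a (l 16776440) (l 16777424))) (l 16776368)))) (l 16775216)) (l 16775176)) (l 16775080)) (c (l 16774944) (l 16774792))) (b (c (c (c (a (c (l 16776128) (l 16776112)) (a (b (l 16776560) (b (l 16777016) (a (l 16777192) (l 168275477159)))) (b (a (l 16776928) (b (l 16777024) (l 110293418663))) (l 191897797079)))) (l 16776544)) (l 16776504)) (c (l 16776448) (l 16776392))) (a (c (c (c (a (b (l 16776808) (a (b (l 16777144) (l 169886089895)) (l 189750313319))) (b (b (a (l 16777032) (l 89355453063)) (l 172033573111)) (l 4))) (l 16777176)) (l 16777152)) (l 65196266183)) (l 4)))) (a (c (a (c (a (c (b (l 16776376) (b (b (a (l 16777040) (l 97945387639)) (l 176328540439)) (l 4))) (l 8287947687)) (c (b (b (l 16776568) (c (b (l 16777032) (a (l 16777520) (l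 172033573511))) (l 16777152))) (l 4)) (l 81302390887))) (l 16779600)) (c (c (b (a (c (b (a (l 16776944) (b (l 16777040) (l 118883353191))) (l 197803377143)) (l 83449874199)) (c (b (c (l 175791668951) (l 135526352023)) (l 4)) (l 187065959079))) (l 4)) (l 167738606551)) (l 116199003367))) (c (l 73249332391) (c (l 76470556647) (l 76470554183)))) (l 4))) (a (a (a (b (c (c (a (b (b (b (l 81302389575) (l 4)) (l 4)) (l 4)) (l 4)) (l 158074933495)) (l 152169354807)) (l 4)) (l 4)) (l 4)) (l 4))), by decide +kernel⟩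

def k156_pp_022_t : ∃ t, chk3 f_pp_022_t t 156 233 1 = true :=
  ⟨(c (a (c (c (c (b (l 16772080) (a (l 16774496) (b (l 16774568) (l 16775880)))) (b (l 16772016) (l 16774672))) (l 16773264)) (l 16773096)) (c (c (b (c (a (l 16773664) (c (l 16774720) (l 16774704))) (l 16774152)) (b (c (a (l 16775616) (a (l 16776400) (b (l 16776592) (a (b (l 16776952) (l 87744839623)) (b (l 66270003719) (l 4)))))) (a (l 16775600) (l 16776624))) (a (a (b (l 16776336) (a (l 16776864) (b (l 16776960) (a (l 16777440) (l 130694513191))))) (c (b (c (b (l 16776696) (l 16777344)) (l 16776848)) (a (b (l 71638712183) (l 4)) (l 211762020791))) (l 63585647607))) (c (b (a (b (a (l 16777080) (l 116198998615)) (l 191360926023)) (l 4)) (l 4)) (l 176865411783))))) (b (l 16774088) (a (l 16776200) (b (l 16776608) (l 128547031991))))) (b (l 16773952) (c (l 16779224) (l 16776576))))) (c (c (l 16774000) (l 16776520)) (a (l 16772576) (a (l 16775104) (b (l 16774168) (l 56606326967)))))), by decide +kernel⟩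

def k157_pp_022_t : ∃ t, chk3 f_pp_022_t t 157 233 1 = true :=
  ⟨(a (b (c (c (c (a (c (b (l 16775104) (a (l 16776136) (a (l 16776520) (b (l 16776456) (b (l 16776944) (l 83986743879)))))) (l 16775720)) (a (b (l 16775864) (c (b (l 16777160) (a (b (l 16777504) (l 4)) (l 202635215255))) (l 17414751767))) (c (b (l 16776384) (b (b (a (l 16777064) (l 108682805815)) (l 184918475047)) (l 4))) (b (l 16776376) (l 121567709015))))) (a (l 16775688) (b (l 16776096) (l 78618036935)))) (a (l 16775624) (l 16776632))) (c (l 16776024) (a (l 16775416) (l 16776520)))) (a (c (c (c (b (c (b (b (a (l 16776944) (a (l 112440902215) (l 4))) (a (a (l 16777128) (l 139284447831)) (l 4))) (a (l 210151408167) (l 4))) (l 154853702727)) (l 4)) (l 171496702999)) (l 118346487239)) (c (l 16780304) (l 116199003767))) (l 4))) (b (b (c (c (b (c (a (a (l 16776576) (a (l 16777280) (b (l 16777048) (l 122104578775)))) (a (a (b (l 99019129511) (l 4)) (l 4)) (l 4))) (l 69491229463)) (c (a (c (a (a (b (l 16776936) (l 80765518391)) (b (l 16777168)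 (l 4))) (l 201561473559)) (l 96871646983)) (l 4)) (l 118883356295))) (l 80765523367)) (c (l 16777240) (l 78618039895))) (l 4)) (l 4))), by decide +kernel⟩

def k158_pp_022_t : ∃ t, chk3 f_pp_022_t t 79 233 1 = true :=
  ⟨(l 4), by decide +kernel⟩

def k159_pp_022_t : ∃ t, chk3 f_pp_022_t t 39 117 1 = true :=
  ⟨(a (a (b (b (b (a (c (c (a (c (c (c (b (l 16775824) (l 16776480)) (l 16776144)) (l 16776136)) (l 16776112)) (c (c (b (a (l 16776608) (b (l 16776960) (a (l 16777480) (l 147874382455)))) (a (a (b (l 16776976) (a (l 16777368) (l 141968802279))) (b (l 76470550407) (l 4))) (l 214983246407))) (a (l 16776896) (l 92039807575))) (l 16778392))) (l 16776552)) (c (l 16776496) (l 16776440))) (a (c (c (c (c (b (a (c (b (l 180086636807) (l 4)) (l 189213442487)) (l 4)) (l 4)) (l 199950861319)) (l 203172086775)) (l 16779016)) (l 150021870503)) (l 4))) (a (a (c (c (c (a (a (b (l 16776752) (b (a (l 16777168) (l 115125256695)) (l 4))) (b (a (l 16776944) (b (l 16776912) (l 80765518311))) (l 213909504471))) (c (b (b (a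 (l 16777104) (l 123715191431)) (l 198340247911)) (l 4)) (l 170959831511))) (l 82376133463)) (l 16777216)) (a (l 16777072) (l 104924712647))) (l 4)) (l 4))) (l 4)) (l 4)) (l 4)) (l 4)), by decide +kernel⟩

def k160_pp_022_t : ∃ t, chk3 f_pp_022_t t 39 59 1 = true :=
  ⟨(l 4), by decide +kernel⟩

def k161_pp_022_t : ∃ t, chk3 f_pp_022_t t 72 120 4 = true :=
  ⟨(a (a (b (c (b (l 16754864) (l 16758088)) (b (l 16754392) (l 16757688))) (b (c (c (l 16761424) (l 16761264)) (l 16761016)) (c (c (c (l 16767352) (l 16764664)) (l 16767192)) (c (l 16764440) (l 16764312))))) (b (c (b (l 16757552) (c (l 16760848) (l 16760680))) (b (l 16757128) (l 16760424))) (c (b (a (l 16763352) (l 16767304)) (a (c (l 16769304) (l 16766584)) (b (l 16767136) (l 16770096)))) (b (c (l 16763816) (l 16763672)) (c (l 16764528) (l 16767048)))))) (a (b (b (c (l 16762832) (l 16759848)) (c (c (l 16766112) (l 16763344)) (l 16763128))) (c (a (b (c (l 16766056) (l 16765944)) (b (l 16768456) (a (l 16769776) (l 16770432)))) (b (c (l 16768680) (l 16767264))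 (b (l 16770752) (a (l 16771088) (l 16773048))))) (a (b (l 16765768) (l 16766496)) (b (l 16767112) (l 16767832))))) (c (a (b (b (l 16762184) (l 16766696)) (b (b (l 16767816) (l 16770752)) (b (c (l 16772416) (l 16771040)) (c (a (l 16772416) (l 16773720)) (l 16772696))))) (b (b (l 16763488) (c (l 16766744) (l 16766640))) (b (b (l 16770424) (a (l 16770416) (l 16771064))) (b (c (c (l 16773064) (l 16772384)) (l 16772344)) (c (a (a (l 16773544) (l 16774520)) (b (l 16773944) (a (l 16774600) (l 16774920)))) (l 16772688)))))) (b (b (l 16762536) (a (l 16765144) (l 16766472))) (c (b (l 16765224) (b (l 16769016) (l 16770688))) (b (l 16769072) (l 16769808))))))), by decide +kernel⟩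

def k162_pp_022_t : ∃ t, chk3 f_pp_022_t t 72 120 5 = true :=
  ⟨(a (a (b (c (l 16755584) (l 16755104)) (c (b (l 16760672) (l 16764112)) (b (l 16760320) (l 16763832)))) (b (c (l 16753136) (l 16757968)) (a (c (l 16759240) (l 16764208)) (b (l 16764016) (l 16762232))))) (c (b (a (b (l 16759464) (l 16762824)) (b (l 16762216) (l 16765560))) (a (b (l 16766216) (l 16764392)) (l 16770648))) (b (c (l 16757040) (l 16751632)) (a (c (l 16757296) (l 16757192)) (l 16770504))))), by decide +kernel⟩

def k163_pp_022_t : ∃ t, chk3 f_pp_022_t t 144 242 4 = true :=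
  ⟨(b (b (a (c (c (l 16768480) (l 16767072)) (l 16766920)) (c (a (l 16770424) (a (l 16770112) (l 16770768))) (l 16767008))) (a (c (a (l 16768120) (l 16770112)) (l 16766000)) (a (c (a (l 16770448) (l 16771112)) (l 16770656)) (c (c (c (l 16773448) (l 16772120)) (l 16772080)) (l 16772000))))) (c (b (a (c (a (l 16769832) (l 16772472)) (a (l 16769760) (l 16771104))) (a (c (a (l 16772152) (l 16773464)) (l 16772432)) (a (b (l 16773024) (l 16774520)) (b (l 16774344) (a (l 16774360) (l 16774688)))))) (a (a (c (l 16772496) (l 16771456)) (c (a (l 16773816) (l 16773984)) (l 16770176))) (c (c (a (b (l 16774400) (a (l 16774256) (l 16774912))) (b (a (l 16774728) (a (l 16775216) (l 16775544))) (a (a (l 16775400) (l 16775072)) (b (l 16775352) (a (l 16776264) (l 16775936)))))) (a (b (l 16773728) (l 16773256)) (b (l 16773728) (a (l 16775552) (l 16774896))))) (b (a (l 16773704) (l 16773712)) (l 16775088))))) (a (c (a (l 16767920) (l 16769272)) (l 16767232)) (b (c (l 16770440) (l 16767776)) (l 16774424))))), by decide +kernel⟩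

def k164_pp_022_t : ∃ t, chk3 f_pp_022_t t 144 972 4 = true :=
  ⟨(c (a (b (a (a (l 16772424) (l 16773088)) (a (l 16774408) (a (l 16774248) (l 16774584)))) (a (a (l 16773272) (l 16774424)) (c (a (l 16775272) (a (l 16775112) (l 16774784))) (l 16773608)))) (a (c (b (b (a (l 16774880) (l 16774880)) (c (a (l 16775304) (l 16775304)) (l 16774312))) (c (a (c (b (l 16775728) (l 16775488)) (l 16775280)) (a (b (l 16776216) (l 16775984)) (b (l 16775888) (b (l 16776200) (l 16777224))))) (l 16776256))) (l 16775824)) (b (a (c (b (a (l 16776024) (l 16775696)) (l 16776608)) (l 16776392)) (b (a (l 16776680) (a (l 16776920) (b (l 16776984) (b (l 16777136) (l 79691776295))))) (b (a (l 16776992) (a (a (l 16777352) (l 110293418279)) (l 4))) (a (a (l 16777120) (b (l 73249325335) (l 172033573143))) (l 4))))) (a (b (a (l 16776864) (b (a (l 16777008) (a (l 16777128) (l 51237617959))) (a (a (l 16777168) (l 95797903639)) (l 163443638679)))) (a (b (a (l 16777096) (b (l 16777360) (l 144653156663))) (a (a (l 103850967335) (l 177402282279))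 (l 4))) (l 4))) (c (b (a (c (b (l 195119022263) (l 4)) (l 158611800759)) (l 4)) (l 4)) (l 210151408247)))))) (a (l 16773776) (a (l 16775800) (b (l 16777496) (a (l 16777936) (l 211762020983)))))), by decide +kernel⟩

def k165_pp_022_t : ∃ t, chk3 f_pp_022_t t 144 973 4 = true :=
  ⟨(a (a (c (b (c (c (a (l 16774144) (l 16774808)) (l 16773152)) (l 16771816)) (c (b (a (l 16774776) (l 16774784)) (c (a (l 16775200) (l 16775208)) (l 16774216))) (l 16773992))) (l 16772216)) (c (c (b (b (c (a (l 16775256) (l 16775256)) (l 16774264)) (a (a (l 16775504) (l 16775840)) (a (l 16776168) (l 16775840)))) (a (a (b (l 16775928) (l 16775704)) (b (l 16775608) (l 16776192))) (b (a (l 16776264) (l 16777024)) (b (a (l 16776912) (a (l 16777312) (a (l 105461580071) (l 194582151399)))) (a (b (l 16777064) (a (l 16777096) (l 88818581783))) (l 205319569639)))))) (b (l 16774464) (a (l 16774992) (a (l 16776792) (a (l 16777024) (l 54995714903)))))) (b (l 16775752) (l 16777248)))) (a (b (c (a (a (c (l 16776616) (l 16776608)) (b (l 16776728)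 (c (b (l 16777168) (c (a (l 16777368) (l 137136963943)) (l 16777208))) (l 16777120)))) (b (a (b (l 16776952) (a (l 16777080) (a (l 16777352) (l 111904031031)))) (a (b (b (l 16777144) (l 81302389047)) (l 4)) (c (l 204245827831) (l 16777328)))) (a (a (b (b (l 75396808999) (l 174181056807)) (l 4)) (l 4)) (l 4)))) (a (l 16776752) (l 80228648631))) (c (a (a (b (a (b (l 16777064) (b (l 56069456167) (l 151095607607))) (b (a (l 16777176) (l 101166612759)) (l 4))) (l 4)) (c (b (l 218204471639) (l 4)) (l 220888826391))) (l 4)) (l 182770991751))) (l 4))), by decide +kernel⟩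

def k166_pp_022_t : ∃ t, chk3 f_pp_022_t t 144 487 4 = true :=
  ⟨(b (a (b (a (c (c (c (a (c (b (l 16775632) (l 16775400)) (l 16775184)) (b (a (l 16776120) (l 16775800)) (l 16776712))) (l 16776168)) (l 16776160)) (l 16776144)) (c (a (b (a (l 16776784) (b (l 16777088) (a (l 16777296) (b (l 81302389031) (l 4))))) (c (b (a (a (l 16777016) (a (l 16777136) (l 64122519815))) (c (l 199950860487) (l 162369896903))) (a (a (a (l 16777176) (l 100092870951)) (l 181697249623)) (l 4))) (c (l 84523614599) (l 16777576)))) (c (b (a (a (b (a (l 16777360) (l 115125256503)) (l 4)) (l 4)) (l 4)) (l 4)) (l 198340248103))) (a (l 16777736) (l 146800641687)))) (a (c (a (c (b (a (l 16775656) (l 16776152)) (b (l 16776800) (a (l 16776520) (a (l 16777096) (a (l 58753810695) (l 119957094727)))))) (l 16776680)) (b (a (a (l 16776888) (b (l 16776952) (b (l 16777112) (l 53385101607)))) (a (b (l 16777112) (a (l 112440901943) (l 4))) (a (b (a (l 16777360) (l 91502936343)) (l 4)) (l 201561473223)))) (b (c (a (a (a (l 16777160) (l 89355452679))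 (l 163980509543)) (l 4)) (l 116735869863)) (l 4)))) (a (l 16776672) (l 67343746711))) (l 4))) (l 4)) (b (a (a (a (c (b (b (c (a (c (l 16777216) (l 16777056)) (a (a (l 97945387287) (l 180623507703)) (l 4))) (l 16777488)) (c (a (a (a (l 16777144) (l 67880616215)) (c (l 146800640375) (l 16777280))) (l 4)) (l 111367160727))) (l 4)) (l 99019130535)) (l 4)) (l 4)) (l 4)) (l 4))), by decide +kernel⟩

def k167_pp_022_t : ∃ t, chk3 f_pp_022_t t 144 121 5 = true :=
  ⟨(b (c (a (b (l 16762336) (l 16767136)) (b (l 16765096) (l 16773832))) (c (l 16769584) (l 16769560))) (b (a (c (b (l 16773712) (l 16775464)) (l 16774528)) (b (a (l 16775760) (a (l 16776728) (l 67343746807))) (a (a (l 42110813783) (l 105998453799)) (l 4)))) (a (b (a (c (l 16776496) (l 16776480)) (c (b (l 16778544) (l 4)) (l 96871648679))) (a (c (l 185992217527) (l 131768257847)) (l 4))) (l 4)))), by decide +kernel⟩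

def k168_pp_022_t : ∃ t, chk3 f_pp_022_t t 580 242 2 = true :=
  ⟨(b (b (c (c (a (l 16772736) (l 16772904)) (l 16771648)) (l 16771472)) (c (c (c (a (l 16773768) (a (l 16774256) (l 16774584))) (l 16770776)) (l 16770720)) (l 16767984))) (a (c (c (b (c (b (l 16774360) (a (l 16775024) (l 16775352))) (l 16772128)) (c (a (c (b (l 16775208) (l 16776784)) (l 16776280)) (b (b (l 16775984) (l 16775744)) (b (l 16776816) (b (b (l 16777080) (a (l 16777104) (l 97408516375))) (a (a (l 16777360) (l 129083900183)) (l 4)))))) (b (l 16773392) (l 16777496)))) (b (l 16772096) (l 16776408))) (l 16775512)) (c (b (c (c (b (a (l 16774848) (l 16775168)) (b (l 16774976) (a (l 16775888) (l 16776216)))) (l 16774096)) (l 16772760)) (c (b (c (a (b (l 16775648) (l 16776400)) (b (l 16776304) (b (l 16776944) (b (l 16777096) (a (l 16777120) (l 121567707399)))))) (l 16776664)) (b (c (b (a (l 16777032) (a (a (l 82376130807) (l 152169349383)) (l 4))) (a (a (l 16777320) (c (l 132305125719) (l 16777264))) (l 4))) (l 77544292647)) (a (a (l 209614536951)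 (l 4)) (l 4)))) (b (l 16776656) (l 95797905031)))) (b (l 16775328) (l 16778272))))), by decide +kernel⟩

def k169_pp_022_t : ∃ t, chk3 f_pp_022_t t 581 242 2 = true :=
  ⟨(b (c (c (c (a (b (l 16774072) (c (b (l 16774008) (l 16774832)) (l 16773096))) (b (c (l 16774072) (l 16773400)) (a (b (l 16774488) (l 16775312)) (b (l 16774808) (l 16774984))))) (b (l 16770424) (c (l 16773408) (l 16772088)))) (c (l 16771064) (l 16768568))) (l 16773728)) (b (c (a (c (c (b (a (l 16774840) (c (l 16775168) (l 16775816))) (a (b (l 16776120) (l 16775880)) (l 16776656))) (l 16776064)) (l 16776048)) (c (b (a (b (l 16775272) (l 16775856)) (b (l 16775768) (l 16776672))) (b (a (l 16776768) (a (l 16777128) (b (l 16777064) (a (l 67343745351) (l 134989480279))))) (c (c (b (a (l 16777240) (l 189213442231)) (a (a (a (l 16777160) (l 83986743559)) (l 169886089527)) (l 4))) (a (l 16777480) (l 155927446183))) (l 83986743655)))) (l 16777648))) (l 16776312)) (a (c (b (c (b (c (a (a (l 16776216) (l 16777192)) (b (a (l 16777088) (a (l 16777360)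 (l 116735869255))) (a (a (l 94187290903) (l 165591122215)) (l 4)))) (l 16777072)) (c (a (a (b (a (l 16777144) (l 74323067111)) (l 182234120535)) (l 200487731431)) (l 4)) (l 124252062791))) (l 65196263031)) (l 4)) (l 95797906423)) (l 4)))), by decide +kernel⟩

def k170_pp_022_t : ∃ t, chk3 f_pp_022_t t 582 242 2 = true :=
  ⟨(b (c (c (c (a (b (b (l 16773648) (l 16774472)) (a (c (b (l 16775136) (l 16775312)) (l 16774232)) (b (l 16774800) (b (l 16776080) (l 16775840))))) (b (b (l 16774288) (a (l 16774952) (l 16775280))) (b (b (l 16775080) (a (l 16775984) (l 16775656))) (a (l 16776608) (b (l 16776392) (b (l 16777032) (a (l 16777152) (l 128547029335)))))))) (b (l 16772384) (b (l 16774288) (l 16776432)))) (b (l 16771688) (l 16775992))) (l 16775088)) (b (a (c (b (c (a (a (l 16776712) (b (l 16776008) (a (l 16777040) (b (l 16777016) (l 58216939831))))) (c (b (l 16776904) (b (a (l 16777128) (a (l 94187290887) (l 163980509463))) (l 197803376839))) (l 16777720))) (l 16776912)) (c (c (b (b (a (a (a (l 16777176) (l 98482258215))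 (l 180623507799)) (l 4)) (l 4)) (l 4)) (l 195119022599)) (l 143042545271))) (l 59827555207)) (c (c (b (c (b (b (a (b (l 16777072) (a (l 16777096) (l 89355452695))) (l 206930182359)) (a (a (a (l 16777200) (l 115125256503)) (l 4)) (l 4))) (l 4)) (l 169349217959)) (l 4)) (l 184381604535)) (l 126399548327))) (l 4))), by decide +kernel⟩

def k171_pp_022_t : ∃ t, chk3 f_pp_022_t t 583 242 2 = true :=
  ⟨(b (c (b (c (c (b (a (a (l 16774776) (l 16775096)) (a (l 16775416) (l 16775088))) (b (c (a (l 16775560) (l 16775544)) (l 16774560)) (a (a (l 16775808) (l 16776128)) (a (l 16775792) (l 16776440))))) (l 16775656)) (l 16775632)) (a (c (b (a (l 16776416) (a (l 16776664) (a (l 16776784) (b (l 16776000) (l 16777232))))) (c (a (a (b (l 16776960) (a (b (l 79154905319) (l 4)) (l 199413989575))) (b (a (l 16777080) (b (l 16777064) (l 99019129111))) (l 4))) (b (a (b (l 16777328) (l 180623507783)) (l 198877118679)) (l 4))) (b (l 16777632) (l 147337511975)))) (b (l 16776568) (l 78618035863))) (b (c (a (b (l 16776856) (a (b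 (l 16777088) (a (l 85060485431) (l 153779962183))) (b (a (l 16777360) (l 115125256503)) (l 4)))) (b (b (a (l 16776992) (l 16777312)) (a (a (l 16777160) (l 72175583559)) (l 153779962247))) (l 4))) (l 16777120)) (l 4)))) (b (l 16775584) (a (l 16776888) (l 86671100871)))) (l 4)), by decide +kernel⟩

def k172_pp_022_t : ∃ t, chk3 f_pp_022_t t 145 243 2 = true :=
  ⟨(a (a (a (a (b (c (b (c (b (c (b (b (a (l 16777136) (a (l 98482258199) (l 180623507703))) (l 200487731415)) (l 4)) (l 123715191879)) (l 4)) (l 190287184535)) (l 4)) (l 207467054471)) (l 4)) (l 4)) (l 4)) (l 4)) (l 4)), by decide +kernel⟩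

def k173_pp_022_t : ∃ t, chk3 f_pp_022_t t 146 240 2 = true :=
  ⟨(a (c (b (c (a (l 16767416) (l 16767400)) (l 16762568)) (a (c (a (l 16768976) (l 16769624)) (l 16767800)) (c (b (l 16768480) (l 16771064)) (l 16769112)))) (c (c (l 16761416) (l 16756056)) (l 16761120))) (c (c (b (a (c (l 16770048) (l 16767320)) (c (l 16770336) (l 16768608))) (c (a (b (l 16769800) (l 16772704)) (b (l 16771072) (a (l 16772352) (l 16774288)))) (b (l 16767744) (c (l 16769368) (l 16769344))))) (a (b (l 16767168) (l 16767800)) (b (l 16768472) (l 16769104)))) (c (c (l 16764080) (l 16763992)) (l 16763864)))), by decide +kernel⟩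

def k174_pp_022_t : ∃ t, chk3 f_pp_022_t t 146 482 2 = true :=
  ⟨(c (a (c (c (b (a (l 16770440) (l 16773032)) (c (a (l 16773384) (b (l 16772944) (l 16774408))) (a (l 16772048) (l 16772016)))) (a (b (l 16770376) (l 16772008)) (b (l 16771672) (l 16770680)))) (c (c (l 16768520) (l 16766528)) (l 16766480))) (c (a (b (a (a (l 16772496) (l 16774128)) (b (l 16772896) (l 16773696))) (c (a (b (l 16773888) (l 16774040)) (c (b (l 16774528) (l 16774680)) (l 16773608))) (l 16773272))) (c (b (a (b (l 16773552) (l 16774352)) (c (b (l 16774184) (l 16774984)) (l 16773264))) (c (b (a (l 16774504) (a (l 16775632) (l 16775288))) (a (a (l 16775808) (l 16775464)) (b (l 16775736) (l 16776920)))) (l 16775872))) (b (l 16771616) (l 16775864)))) (c (l 16774384) (l 16774352)))) (c (a (l 16766400) (l 16774304)) (l 16772888))), by decide +kernel⟩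

def k175_pp_022_t : ∃ t, chk3 f_pp_022_t t 146 966 2 = true :=
  ⟨(c (a (c (c (a (a (c (l 16774024) (l 16773352)) (b (l 16773592) (l 16774408))) (a (c (b (l 16774240) (l 16775048)) (l 16773320)) (a (b (l 16774712) (l 16774872)) (b (l 16775032) (l 16775184))))) (a (l 16771024) (l 16772968))) (l 16774248)) (c (a (b (c (a (a (l 16775344) (l 16775008)) (b (l 16775280) (a (l 16776184) (l 16775848)))) (l 16774496)) (a (a (b (l 16775952) (l 16775704)) (l 16776472)) (c (b (l 16776744) (a (c (b (l 16776240) (l 16777256)) (l 16776992)) (b (a (l 16777128) (c (l 114051514663) (l 16777240))) (l 194582151351)))) (l 16777568)))) (a (b (c (a (l 16776616) (b (l 16776072) (a (l 16777208) (b (l 16777104) (l 126399545671))))) (l 16776752)) (b (a (a (b (l 16777040) (a (l 16777192) (l 110830289207))) (b (a (l 16777152) (l 77544292631)) (l 4))) (a (l 202635215079) (l 4))) (l 4))) (b (b (b (a (l 16776936) (a (l 16777408) (l 134452609415))) (a (a (l 16777064) (a (l 16777176) (l 97408516375))) (l 210151407847))) (a (a (b (a (l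 16777368) (l 128010158407)) (l 4)) (l 4)) (l 4))) (l 4)))) (a (l 16776184) (a (b (l 16776744) (l 108682806935)) (l 167738606039))))) (a (l 16774152) (a (l 16776152) (c (l 68417490135) (l 16777168))))), by decide +kernel⟩

def k176_pp_022_t : ∃ t, chk3 f_pp_022_t t 146 967 2 = true :=
  ⟨(a (c (b (c (c (c (a (a (l 16774592) (l 16774568)) (a (a (l 16775704) (l 16775368)) (l 16776496))) (a (l 16773584) (l 16776176))) (l 16775528)) (l 16775496)) (c (c (a (a (a (l 16775240) (l 16774904)) (b (l 16775176) (a (l 16776088) (l 16775752)))) (a (a (b (l 16776312) (l 16776064)) (b (l 16775976) (a (l 16776960) (a (l 16777072) (b (l 16776400) (l 94724161815)))))) (a (b (l 16777032) (a (b (l 16777328) (l 170959831399)) (l 196192764119))) (b (a (b (l 16777088) (a (l 87744839943) (l 157001187607))) (b (a (l 16777192) (l 109219676471)) (l 4))) (l 4))))) (a (l 16774392) (a (l 16776664) (a (l 16777760) (l 105461580951))))) (a (l 16775680) (c (l 16778224) (l 16776912))))) (c (l 16775848) (l 16775816))) (a (b (c (b (c (a (a (l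 16776768) (a (l 16777000) (b (l 16777064) (a (l 16777368) (l 128010158407))))) (a (a (b (a (l 16777176) (l 97408516375)) (l 4)) (l 212835762439)) (l 4))) (l 53921972823)) (c (a (c (b (a (l 16777232) (a (l 126936416583) (l 4))) (a (a (a (l 16777152) (l 16777376)) (l 149484994951)) (l 4))) (l 82376131559)) (l 4)) (l 110830290887))) (l 16778680)) (l 4)) (l 4))), by decide +kernel⟩

def k177_pp_022_t : ∃ t, chk3 f_pp_022_t t 294 240 2 = true :=
  ⟨(c (b (a (c (c (b (l 16769176) (l 16770752)) (l 16767264)) (l 16764528)) (c (c (b (l 16770440) (c (l 16772024) (l 16772000))) (b (l 16770368) (l 16771952))) (l 16768440))) (b (c (a (c (c (l 16773656) (l 16772320)) (l 16772288)) (c (c (b (l 16773208) (a (l 16773680) (l 16774304))) (l 16772272)) (l 16770936))) (l 16770232)) (c (c (a (c (b (l 16773536) (a (l 16774016) (l 16774648))) (l 16772608)) (a (c (b (l 16774480) (l 16774616)) (l 16773552)) (b (l 16774272) (a (l 16775080) (l 16775392))))) (a (l 16771272) (l 16773848))) (l 16774488)))) (c (l 16771936) (l 16771816))),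 by decide +kernel⟩

def k178_pp_022_t : ∃ t, chk3 f_pp_022_t t 294 241 2 = true :=
  ⟨(b (c (c (b (c (a (a (b (l 16774152) (a (l 16775456) (l 16775112))) (c (b (l 16774784) (b (l 16775384) (l 16775784))) (l 16774528))) (b (c (b (a (l 16775872) (l 16775832)) (a (l 16775608) (a (l 16776080) (a (l 16776968) (b (l 16777024) (l 60364423495)))))) (l 16776368)) (a (a (l 16776712) (b (l 16776824) (b (a (l 16777040) (l 16777344)) (a (a (l 16777192) (l 109756547383)) (l 4))))) (a (b (a (l 16777048) (b (l 16777104) (l 126936416583))) (l 207467053367)) (a (b (b (l 89355452775) (l 4)) (l 4)) (l 4)))))) (b (a (l 16772480) (l 16776368)) (a (l 16773288) (a (l 16776840) (a (l 84523615191) (l 150558737479)))))) (a (a (c (b (l 16776416) (b (a (l 16776864) (b (l 16777072) (a (l 16777344) (l 151095607671)))) (a (a (b (l 16777088) (l 107072192855)) (b (a (l 16777192) (l 108682805559)) (l 4))) (l 4)))) (a (l 16777288) (b (l 16773944) (l 90966066199)))) (b (b (a (l 16776680) (a (l 16776920) (b (l 16776976) (l 16777328)))) (a (a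 (l 16777008) (b (l 16777064) (a (l 16777368) (l 128010158407)))) (a (b (a (l 16777176) (l 97945387287)) (l 4)) (l 214446375159)))) (c (b (a (a (l 188139700407) (l 4)) (l 4)) (l 4)) (l 206393311831)))) (b (b (a (a (a (b (l 16777128) (l 134989480327)) (a (b (l 90966065415) (l 4)) (l 206393311431))) (l 4)) (l 4)) (l 4)) (l 4)))) (b (a (l 16775480) (a (l 16776432) (a (l 16776872) (l 53921972951)))) (a (a (l 16778064) (a (l 58216940311) (l 99019130231))) (l 196192764983)))) (b (c (l 16776040) (l 16776016)) (a (c (l 16776968) (l 16776952)) (l 142505676535)))) (l 4)), by decide +kernel⟩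

def k179_pp_022_t : ∃ t, chk3 f_pp_022_t t 295 240 2 = true :=
  ⟨(c (b (c (c (b (a (c (l 16771704) (l 16771672)) (c (b (l 16772552) (l 16773336)) (l 16772928))) (b (a (l 16772864) (a (l 16773800) (l 16774424))) (a (c (l 16773664) (l 16773648)) (a (l 16774584) (l 16774552))))) (a (c (l 16769816) (l 16769792)) (b (l 16772888) (l 16771856)))) (l 16772992)) (b (c (c (b (a (a (l 16774136) (l 16774752)) (a (a (l 16775224) (l 16775528)) (a (l 16775184) (l 16775496)))) (a (c (a (l 16774928) (l 16774896)) (l 16773920)) (b (c (l 16776280) (l 16774968)) (b (a (l 16775608) (l 16776880)) (a (l 16775808) (a (l 16776928) (a (l 16777152) (l 126936416599)))))))) (a (l 16772192) (l 16776064))) (l 16775408)) (b (c (a (c (a (a (l 16775560) (l 16775216)) (b (l 16775488) (c (l 16775888) (l 16775224)))) (l 16776016)) (a (c (b (l 16776760) (a (c (l 16777184) (l 16777000)) (a (b (l 16777128) (l 139284447591)) (b (l 110293418327) (l 4))))) (l 16776928)) (b (c (a (b (c (l 16777360) (l 16777112)) (a (l 80765518151) (l 4))) (l 209077666103))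 (l 90966066215)) (l 4)))) (a (l 16776000) (c (l 57680069367) (l 16777096)))) (a (c (a (c (l 16776512) (l 16776504)) (c (a (b (l 16776128) (b (l 16777072) (a (l 16777352) (l 151095607687)))) (a (b (l 16777008) (l 189213442231)) (b (b (l 16777072) (l 90429194599)) (l 4)))) (a (l 16776960) (l 68954358855)))) (l 16776768)) (c (a (c (b (a (a (b (l 61438165335) (l 4)) (l 213909504263)) (l 4)) (l 4)) (l 193508409847)) (l 4)) (l 197803377431)))))) (b (l 16772848) (b (l 16775352) (a (l 16776344) (a (l 16777128) (l 125862677383)))))), by decide +kernel⟩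

def k180_pp_022_t : ∃ t, chk3 f_pp_022_t t 295 241 2 = true :=
  ⟨(b (b (b (a (a (c (c (b (c (a (l 16776952) (a (b (l 16777088) (l 108682805591)) (b (a (l 16777192) (l 110830289207)) (l 4)))) (l 16777072)) (a (b (a (l 16777328) (l 135526351239)) (l 210688278759)) (l 4))) (l 16777176)) (l 16777168)) (l 4)) (l 4)) (l 4)) (l 4)) (l 4)), by decide +kernel⟩

def k181_pp_022_t : ∃ t, chk3 f_pp_022_t t 73 121 2 = true :=
  ⟨(a (a (a (b (b (b (c (c (b (b (c (a (c (l 16775360) (l 16776008)) (l 16776656)) (l 16776328)) (a (l 16776424) (a (l 16776984) (a (b (l 16777040) (a (l 16777360) (l 112977772855))) (b (a (l 16777152) (l 70564970823)) (l 4)))))) (b (a (b (l 16776728) (a (l 16776448) (a (l 16777016) (a (l 16777136) (l 16777360))))) (c (a (b (a (l 16777128) (c (l 112977772855) (l 16777240))) (l 194045280455)) (l 4)) (l 114588386311))) (b (a (a (l 16776984) (a (a (l 16777176) (l 100092870935)) (l 167201735063))) (l 4)) (a (a (a (l 16777104) (a (l 63585648951) (l 129083900247))) (l 4)) (l 4))))) (a (l 16776584)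 (b (l 16776824) (l 126399546983)))) (c (l 16776816) (l 16776800))) (c (c (b (a (c (b (a (a (c (l 189213442247) (l 146263769607)) (l 4)) (l 4)) (l 4)) (l 206930182759)) (l 4)) (l 4)) (l 215520118007)) (l 214446376167))) (l 4)) (l 4)) (a (b (b (b (c (c (b (b (b (a (l 16777024) (a (a (l 16777368) (l 129083900231)) (l 4))) (c (a (a (l 16777144) (l 127473287495)) (l 4)) (l 102777226087))) (a (a (l 204245827815) (l 4)) (l 4))) (l 4)) (l 175791669831)) (l 114588388311)) (l 4)) (l 4)) (l 4)) (l 4))) (l 4)) (l 4)), by decide +kernel⟩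

def k182_pp_022_t : ∃ t, chk3 f_pp_022_t t 72 120 3 = true :=
  ⟨(a (a (b (c (c (l 16754608) (l 16754096)) (c (l 16753568) (b (l 16751104) (l 16754928)))) (b (c (l 16759760) (c (l 16759176) (l 16758768))) (c (l 16758152) (a (l 16762008) (l 16758304))))) (b (c (c (l 16757536) (l 16757088)) (c (l 16751384) (b (l 16754248) (l 16758048)))) (b (c (l 16757456) (c (l 16762216) (l 16761872))) (c (l 16761080) (c (l 16765968) (l 16760472)))))) (a (c (b (b (l 16758456) (l 16751536)) (c (l 16757040) (l 16759448))) (b (c (b (l 16757800) (l 16761496)) (b (l 16757344) (l 16761136))) (c (c (l 16761904) (l 16760480)) (b (l 16759704) (b (l 16767816) (l 16764488)))))) (c (b (c (l 16752808) (l 16752488)) (c (l 16770360) (l 16770208))) (b (a (b (l 16759856) (l 16763584)) (b (l 16761360) (l 16759848))) (b (c (l 16762944) (l 16762744)) (c (l 16766672) (c (l 16766584) (l 16766528)))))))), by decide +kernel⟩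

def k183_pp_022_t : ∃ t, chk3 f_pp_022_t t 73 120 3 = true :=
  ⟨(a (b (c (c (l 16767528) (a (l 16755384) (l 16763488))) (a (a (b (l 16762864) (l 16761336)) (b (l 16764360) (l 16762824))) (a (b (l 16760600) (l 16764304)) (b (l 16762080) (l 16767088))))) (b (a (c (l 16771328) (c (l 16765888) (c (l 16765784) (l 16765712)))) (c (l 16774144) (c (l 16774040) (l 16772984)))) (a (c (c (l 16774912) (l 16774856)) (c (b (l 16773912) (l 16775720)) (b (l 16773840) (a (l 16775000) (l 16776408))))) (b (a (c (l 16776104) (l 16776056)) (c (l 60901298215) (c (l 64122522999) (a (l 16778304) (l 107072195191))))) (a (b (c (l 16777192) (a (l 16777024) (l 134452611031))) (l 4)) (l 4)))))) (b (b (a (c (l 16764624) (c (l 16759128) (l 16764192))) (c (l 16772648) (a (l 16766464) (l 16773152)))) (c (a (l 16773384) (b (l 16775264) (c (l 16776792) (l 16776768)))) (a (c (l 16773256) (l 16768576)) (a (c (l 16775376) (l 16775328)) (b (l 16775888) (a (l 58753812087) (l 128547031895))))))) (b (b (a (c (l 16777280) (a (l 16775256) (c (l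 16776608) (l 16777904)))) (a (a (b (a (l 16777080) (l 92039808935)) (l 4)) (l 4)) (l 4))) (a (c (c (l 72175588199) (l 71638714807)) (a (a (l 16776680) (a (l 16778384) (l 92576680359))) (l 196192764871))) (l 4))) (l 4)))), by decide +kernel⟩

def k184_pp_022_t : ∃ t, chk3 f_pp_022_t t 72 121 3 = true :=
  ⟨(b (a (c (c (a (l 16761128) (l 16771872)) (a (c (l 16758376) (l 16763528)) (l 16770448))) (a (b (c (l 16761488) (b (l 16765528) (l 16767472))) (c (l 16765296) (c (l 16765192) (l 16765112)))) (b (c (l 16764496) (c (l 16764376) (l 16764296))) (c (l 16773536) (b (l 16769864) (l 16770496)))))) (b (c (a (l 16771552) (b (l 16774800) (c (l 16776464) (l 16779064)))) (a (c (l 16772720) (c (l 16767400) (l 16767352))) (a (b (l 16768712) (l 16775848)) (b (l 16775432) (c (l 53921972775) (b (l 16776768) (l 101166615095))))))) (b (a (c (l 16775576) (a (l 16774784) (c (l 16776240) (l 16776216)))) (a (c (l 75396811559) (b (a (l 16776864) (l 103850969095)) (l 199950861031))) (l 4))) (a (a (c (l 16776616) (a (l 16776312)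 (b (l 16776592) (l 87744841799)))) (a (b (c (l 16777160) (l 16777152)) (l 4)) (l 4))) (l 4))))) (b (b (a (c (a (l 16773528) (c (l 16776296) (l 16777584))) (a (c (l 16768168) (l 16769400)) (a (l 16775640) (b (c (l 16776608) (l 16776600)) (a (l 16777088) (l 166127994759)))))) (a (a (a (c (l 146263772151) (l 195119022823)) (l 4)) (l 4)) (l 4))) (a (a (c (l 16775376) (c (l 16775312) (a (l 16769288) (l 16776032)))) (a (b (c (l 16776968) (a (l 16776696) (l 78618036167))) (c (l 119957097463) (c (l 127473289719) (l 129620772695)))) (l 4))) (l 4))) (a (a (a (b (c (l 16776456) (a (l 16776120) (b (l 16776400) (l 63585650679)))) (a (b (c (l 16777312) (l 90966067303)) (l 4)) (l 4))) (b (b (c (l 16777216) (a (l 16777048) (l 142505674679))) (l 4)) (l 4))) (l 4)) (l 4)))), by decide +kernel⟩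

def k185_pp_022_t : ∃ t, chk3 f_pp_022_t t 73 121 3 = true :=
  ⟨(b (a (b (a (b (a (c (l 16776776) (a (l 16776496) (a (l 16778280) (l 66806875399)))) (c (l 122104582071) (c (l 130157645079) (l 188676571927)))) (c (l 218741343975) (a (l 220351956119) (l 4)))) (l 4)) (l 4)) (l 4)) (l 4)), by decide +kernel⟩

def k186_pp_022_t : ∃ t, chk3 f_pp_022_t t 296 480 1 = true :=
  ⟨(c (c (c (c (b (b (a (c (l 16773792) (l 16773776)) (a (l 16774704) (l 16774664))) (a (a (l 16774256) (l 16773560)) (a (a (l 16775336) (l 16775640)) (a (l 16775296) (l 16775600))))) (a (c (b (a (l 16775048) (l 16775008)) (c (l 16776136) (l 16776136))) (l 16775736)) (b (a (a (l 16775464) (c (l 16775768) (l 16776424))) (a (l 16776728) (b (l 16776840) (b (c (l 16777368) (l 16777120)) (a (l 82913001815) (l 4)))))) (b (a (c (a (l 16776048) (l 16777168)) (l 16776856)) (a (c (b (a (l 16777136) (l 118346481975)) (l 163980509623)) (l 94187291255)) (l 4))) (a (a (a (l 16777016) (b (l 16777072) (l 94724161895))) (a (b (l 65733132631) (l 4)) (l 218204471559)))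 (l 4)))))) (b (l 16774768) (a (l 16775728) (b (l 16776552) (a (l 16777664) (l 181697249687)))))) (a (l 16774896) (a (l 16776480) (b (l 16775672) (c (l 60364423911) (l 16777088)))))) (c (a (l 16774848) (l 16776064)) (l 16775392))) (a (c (l 16774712) (l 16774592)) (c (l 16775984) (a (l 16775640) (b (l 16775464) (l 51237620583)))))), by decide +kernel⟩

def k187_pp_022_t : ∃ t, chk3 f_pp_022_t t 296 481 1 = true :=
  ⟨(a (b (c (a (c (c (b (c (c (b (l 16775760) (l 16776888)) (l 16776608)) (l 16776608)) (b (a (a (l 16776976) (a (l 16777080) (b (l 16777064) (l 102777225495)))) (a (b (l 16777336) (l 168275476887)) (l 196192764119))) (c (a (a (b (l 92039807335) (l 4)) (l 4)) (l 4)) (l 150021866487)))) (c (l 16778232) (l 16776912))) (l 16776904)) (c (b (c (b (c (a (l 16776880) (b (l 16777080) (a (l 16777352) (l 161296154967)))) (l 16777008)) (a (c (a (b (l 16777096) (l 111904031063)) (b (l 82913001799) (l 4))) (l 16777200)) (l 4))) (l 16777120)) (l 4)) (l 16778632))) (c (l 16777024) (a (l 16776856) (l 86671100887))))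 (l 4)) (a (b (b (c (c (c (c (b (a (c (l 198340247815) (l 154853704359)) (l 4)) (l 4)) (l 207467053655)) (l 169886090711)) (l 16777496)) (l 153779964455)) (l 4)) (l 4)) (l 4))), by decide +kernel⟩

def k188_pp_022_t : ∃ t, chk3 f_pp_022_t t 297 240 1 = true :=
  ⟨(b (a (a (b (c (c (c (c (a (l 16776248) (b (l 16775432) (a (l 16776792) (b (l 16776088) (b (l 16777040) (l 68417487191)))))) (l 16776312)) (l 16776296)) (l 16776264)) (l 16776192)) (c (c (c (b (a (a (b (l 16777264) (l 205856440567)) (b (b (l 16777120) (l 127473287559)) (l 4))) (c (a (b (b (l 95797903735) (l 4)) (l 4)) (l 4)) (l 155390575655))) (l 4)) (l 175791669831)) (l 115662130119)) (c (l 16777480) (l 117809613719)))) (b (c (c (c (b (c (l 16776544) (l 16776536)) (b (c (a (l 16776968) (a (b (l 16777104) (l 120493965639)) (b (l 86134227287) (l 4)))) (l 16777088)) (a (a (b (l 16777344) (l 172570444183)) (l 199413989591)) (l 4)))) (l 16778168)) (l 16776840)) (c (l 16776816) (l 16776792))) (l 4))) (b (b (c (c (b (c (a (a (l 16776800) (a (l 16777032)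 (b (l 16777088) (l 102777225591)))) (c (a (a (b (l 70564970855) (l 4)) (l 4)) (l 4)) (l 138747577383))) (l 16777120)) (c (c (a (a (b (l 16777088) (a (l 16777360) (l 165054251367))) (c (l 199950860567) (l 158611800743))) (l 4)) (l 170959831399)) (l 112977774535))) (l 16777224)) (c (l 16777208) (l 70028102647))) (l 4)) (l 4))) (l 4)), by decide +kernel⟩

def k189_pp_022_t : ∃ t, chk3 f_pp_022_t t 149 240 1 = true :=
  ⟨(l 4), by decide +kernel⟩

def k190_pp_022_t : ∃ t, chk3 f_pp_022_t t 75 240 1 = true :=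
  ⟨(l 4), by decide +kernel⟩

def k191_pp_022_t : ∃ t, chk3 f_pp_022_t t 37 241 1 = true :=
  ⟨(l 4), by decide +kernel⟩

def k192_pp_022_t : ∃ t, chk3 f_pp_022_t t 37 121 1 = true :=
  ⟨(l 4), by decide +kernel⟩

def k193_pp_022_t : ∃ t, chk3 f_pp_022_t t 18 61 1 = true :=
  ⟨(l 4), by decide +kernel⟩

def k194_pp_022_t : ∃ t, chk3 f_pp_022_t t 18 31 1 = true :=
  ⟨(l 4), by decide +kernel⟩

def k195_pp_022_t : ∃ t, chk3 f_pp_022_t t 19 15 1 = true :=
  ⟨(l 4), by decide +kernel⟩

def k196_pp_022_t : ∃ t, chk3 f_pp_022_t t 10 12 1 = true :=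
  ⟨(c (a (a (b (c (b (l 16619640) (l 16637200)) (c (l 16636224) (l 16641888))) (c (b (l 16654680) (l 16672136)) (b (l 16663152) (l 16679376)))) (b (c (b (l 16607592) (l 16604936)) (c (l 16644720) (l 16649832))) (b (c (l 16665128) (l 16672496)) (a (c (l 16680392) (l 16686800)) (c (l 16686296) (l 16692160)))))) (a (b (b (c (l 16617600) (l 16647768)) (c (a (l 16654880) (l 16660496)) (l 16665328))) (b (c (l 16687104) (l 16682944)) (c (a (l 16660968) (a (l 16676192) (l 16679424))) (c (l 16699256) (l 16702008))))) (b (b (c (l 16628752) (l 16637000)) (c (a (l 16666392) (l 16672648)) (l 16676200))) (c (b (a (l 16664960) (l 16671528)) (a (a (l 16682736) (l 16686120)) (a (l 16689584) (l 16693128)))) (c (b (l 16672088) (l 16711760)) (b (l 16695992) (l 16713976))))))) (a (a (b (a (b (l 16626600) (l 16596624)) (b (l 16635936) (l 16626848))) (c (b (l 16661416) (l 16674544)) (b (a (l 16624856) (l 16634304)) (a (l 16639704) (l 16649120))))) (b (b (c (l 16650680) (l 16642376)) (c (l 16665768) (l 16655152))) (c (b (l 16678720)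 (a (l 16687528) (l 16695840))) (a (b (l 16664384) (l 16679176)) (b (l 16673280) (l 16687984)))))) (b (a (b (c (l 16658600) (l 16660048)) (c (l 16674392) (l 16672712))) (b (c (l 16667768) (l 16676864)) (c (l 16684224) (l 16689416)))) (a (c (b (l 16690384) (l 16696064)) (b (a (l 16681992) (l 16690568)) (a (l 16696656) (l 16705192)))) (c (b (l 16700872) (l 16707184)) (b (a (l 16698912) (l 16706936)) (a (l 16713512) (l 16721528)))))))), by decide +kernel⟩

def k197_pp_022_t : ∃ t, chk3 f_pp_022_t t 10 26 1 = true :=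
  ⟨(a (b (c (a (c (a (l 16686840) (l 16692368)) (c (l 16694040) (l 16693840))) (c (a (l 16698304) (l 16704576)) (c (l 16705048) (l 16707744)))) (a (a (c (l 16684272) (l 16655504)) (c (l 16693192) (l 16664952))) (c (a (l 16701712) (l 16709960)) (a (l 16694976) (l 16703752))))) (c (a (c (a (l 16704096) (l 16709928)) (c (l 16710712) (l 16708248))) (c (a (c (l 16715208) (l 16717192)) (b (l 16718216) (l 16727312))) (c (l 16722336) (l 16724480)))) (a (c (a (l 16699656) (l 16708552)) (a (c (l 16673976) (l 16670608)) (b (l 16677424) (l 16686112)))) (c (a (l 16717056) (l 16725296)) (a (c (l 16692224) (l 16689440)) (c (l 16721856) (l 16698392))))))) (c (a (c (b (a (l 16711080) (l 16728272)) (a (b (l 16725016) (l 16734296)) (b (l 16732008) (l 16746712)))) (b (c (l 16717256) (l 16719376)) (a (c (l 16731968) (l 16733672)) (c (l 16738648) (l 16740056))))) (b (c (b (a (l 16698952) (l 16706144)) (a (l 16708624) (b (l 16713536) (l 16718464)))) (c (l 16730456) (l 16732024))) (b (c (a (l 16739256) (l 16752056)) (a (l 16741576)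 (l 16748608))) (c (a (b (l 16733384) (l 16751328)) (a (l 16754696) (l 16758632))) (a (l 16750704) (l 16757912)))))) (a (b (c (a (l 16718032) (l 16725736)) (a (l 16712376) (l 16720880))) (c (a (l 16733280) (l 16741152)) (a (c (l 16730272) (l 16707128)) (b (l 16733320) (l 16742016))))) (b (c (a (l 16731608) (l 16737816)) (a (l 16729176) (l 16737184))) (c (a (l 16748560) (l 16749832)) (a (b (l 16741600) (l 16750280)) (b (l 16749600) (l 16758272)))))))), by decide +kernel⟩

def k198_pp_022_t : ∃ t, chk3 f_pp_022_t t 10 54 1 = true :=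
  ⟨(c (c (b (a (a (a (l 16717152) (l 16723216)) (a (l 16729664) (l 16736496))) (a (a (a (l 16741832) (l 16745472)) (a (l 16749160) (l 16752896))) (a (a (l 16756712) (l 16765840)) (c (a (l 16764376) (l 16768472)) (l 16766720))))) (a (a (a (l 16726024) (l 16732240)) (a (l 16744080) (c (l 16745264) (l 16746344)))) (a (a (c (l 16757952) (l 16753512)) (c (a (l 16758464) (l 16762360)) (l 16760936))) (a (c (a (l 16768960) (b (l 16767864) (l 16772912))) (a (l 16766680) (l 16770592))) (a (b (l 16772696) (c (b (c (l 16778400) (l 16775808)) (a (l 68954361367) (l 220351951207))) (b (l 16775848) (l 92039813815)))) (a (b (c (l 16775088) (l 16775160)) (l 213372627271)) (b (b (l 16775920) (l 111367165495)) (l 4)))))))) (a (a (a (c (l 16721592) (l 16719568)) (c (l 16729816) (l 16728048))) (a (c (l 16736600) (l 16736168)) (c (l 16743080) (l 16743952)))) (a (a (c (l 16749864) (l 16750968)) (c (l 16762160) (l 16757720))) (a (b (l 16759864) (c (l 16768920) (l 16769240))) (b (l 16767248) (a (b (l 16772384) (l 33520888135)) (b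 (l 16776304) (l 215520106023)))))))) (a (a (c (a (l 16716256) (l 16722520)) (a (b (l 16685656) (l 16695032)) (b (l 16695128) (l 16704504)))) (c (a (b (l 16729352) (l 16737968)) (b (l 16737560) (l 16746192))) (a (b (l 16704256) (l 16734616)) (b (l 16734032) (l 16743456))))) (a (c (a (b (l 16745520) (l 16754136)) (b (l 16753320) (l 16761904))) (a (b (l 16742608) (l 16752032)) (b (l 16751048) (l 16758488)))) (c (a (b (l 16760912) (l 16769448)) (b (l 16768048) (b (l 16774432) (a (l 16776800) (l 148948137031))))) (b (a (l 16759296) (l 16762040)) (a (a (l 16766648) (l 16770696)) (a (c (l 16774520) (l 64122472215)) (b (l 16775984) (l 213909487751))))))))), by decide +kernel⟩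

def k199_pp_022_t : ∃ t, chk3 f_pp_022_t t 10 110 1 = true :=
  ⟨(a (a (c (c (a (l 16735000) (c (l 16740720) (l 16742048))) (a (l 16732872) (l 16741184))) (c (a (l 16729528) (l 16738392)) (a (b (l 16702280) (l 16707240)) (c (l 16715072) (l 16713384))))) (c (c (a (c (l 16747600) (l 16748648)) (c (a (l 16753008) (l 16756712)) (l 16755616))) (a (l 16749152) (c (l 16756448) (l 16756424)))) (c (a (l 16746920) (l 16755144)) (a (c (l 16724056) (l 16722696)) (c (l 16753728) (l 16731728)))))) (a (a (c (c (c (a (l 16760496) (b (l 16761920) (l 16766824))) (l 16765544)) (c (l 16763464) (l 16763928))) (c (l 16763088) (c (l 16762152) (l 16761472)))) (c (c (a (c (b (l 16765840) (l 16770776)) (l 16768600)) (b (c (l 16769808) (l 16770048)) (a (l 16774832) (b (l 16774608) (a (l 16777904) (a (l 69491231799) (l 99556003335))))))) (a (l 16769088) (c (l 16772664) (l 16772864)))) (c (a (l 16768912) (l 16772680)) (a (l 16768144) (b (l 16769816) (l 16774688)))))) (a (a (b (c (c (a (l 16772912) (c (l 16777512) (l 16774968))) (l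 16774160)) (a (l 16773096) (l 16775008))) (c (c (c (b (a (c (l 16777936) (l 16776640)) (l 187065956231)) (l 224110047095)) (l 150558733207)) (c (l 92576687959) (l 16780192))) (c (l 87207981751) (c (l 92576688727) (l 93650410071))))) (b (c (c (c (a (b (l 16775680) (l 158611798503)) (a (l 158611797991) (l 213909500215))) (b (l 16776776) (l 117809618231))) (c (l 74323075959) (l 16776112))) (c (l 16782440) (c (l 16775664) (l 74323056631)))) (l 4))) (l 4)))), by decide +kernel⟩

def k200_pp_022_t : ∃ t, chk3 f_pp_022_t t 10 111 1 = true :=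
  ⟨(a (a (c (c (a (c (l 16743432) (l 16743240)) (c (a (l 16748408) (l 16751832)) (l 16751112))) (a (l 16741480) (a (l 16747728) (l 16751784)))) (c (a (l 16738832) (l 16747680)) (a (c (l 16715648) (l 16714064)) (c (l 16724952) (l 16728936))))) (a (c (c (c (a (l 16755352) (l 16758960)) (l 16757864)) (c (l 16758080) (l 16757368))) (c (l 16756200) (a (l 16731216) (l 16756688)))) (c (c (b (c (a (l 16760232) (l 16763992)) (l 16762624)) (c (a (l 16765064) (l 16768856)) (l 16767312))) (c (l 16765448) (l 16765160))) (c (c (l 16764680) (l 16764168)) (c (l 16763624) (l 16763032)))))) (a (a (a (c (c (c (b (l 16767832) (c (l 16772696) (l 16772768))) (l 16770520)) (l 16770920)) (c (l 16770416) (l 16769816))) (c (b (c (c (c (l 16771704) (l 16771792)) (l 16771936)) (l 16772240)) (b (c (a (l 16774512) (a (l 16775976) (b (l 16776352) (l 90966068135)))) (l 16775600)) (c (c (a (a (l 16776440) (b (l 16776816) (l 196729634103))) (l 211225147815)) (a (l 16776896) (l 147874387335))) (l 75933689495)))) (b (a (l 16770720) (l 16772752))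 (c (l 15267278727) (a (l 16775480) (l 69491217735)))))) (a (a (b (c (c (c (b (l 16773504) (l 16777960)) (l 16774840)) (l 16774984)) (l 56069438807)) (a (b (b (c (c (l 72175586071) (l 16777048)) (l 16776960)) (l 4)) (l 4)) (l 4))) (b (c (c (b (l 16776856) (a (b (l 16776896) (l 146800643351)) (l 206930180327))) (l 16776680)) (b (l 16775536) (l 86134236375))) (l 4))) (a (b (b (c (c (b (a (l 16776424) (l 16778352)) (l 169886087815)) (l 16776792)) (l 68954366311)) (l 4)) (l 4)) (l 4)))) (l 4))), by decide +kernel⟩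

def k201_pp_022_t : ∃ t, chk3 f_pp_022_t t 22 12 1 = true :=
  ⟨(c (c (a (b (b (l 16620464) (a (l 16679264) (l 16686272))) (b (a (l 16667952) (b (l 16701568) (l 16711768))) (a (b (l 16714496) (l 16703576)) (b (l 16721960) (l 16711200))))) (a (b (b (l 16673000) (l 16693672)) (c (b (l 16713536) (b (l 16729216) (l 16739672))) (b (l 16715160) (l 16714536)))) (b (b (l 16680480) (l 16701392)) (b (b (l 16717056) (l 16727496)) (b (l 16716968) (a (l 16746296) (l 16729520))))))) (a (a (b (l 16675968) (b (l 16683088) (l 16722888))) (b (b (l 16672792) (l 16691776)) (b (l 16689856) (l 16729960)))) (b (b (l 16640768) (b (l 16676288) (l 16686000))) (b (l 16737304) (a (l 16737336) (l 16745016)))))) (b (a (c (b (l 16678296) (l 16695400)) (b (l 16688440) (l 16703528))) (c (b (l 16690024) (l 16707752)) (b (l 16698632) (l 16714400)))) (b (a (c (l 16712672) (a (l 16714736) (l 16721736))) (c (l 16725648) (a (l 16727496) (l 16733512)))) (a (c (a (l 16726912) (l 16733432)) (a (l 16729280) (l 16736856))) (c (a (l 16740224) (l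 16747280)) (a (l 16743624) (l 16749968))))))), by decide +kernel⟩

def k202_pp_022_t : ∃ t, chk3 f_pp_022_t t 23 12 1 = true :=
  ⟨(a (c (a (b (c (b (l 16688232) (b (l 16704096) (l 16714656))) (l 16724256)) (b (c (b (l 16725216) (l 16714800)) (l 16712056)) (c (a (l 16759968) (l 16766864)) (l 16752952)))) (b (c (b (l 16696256) (b (l 16712280) (l 16722952))) (l 16731816)) (b (c (b (l 16733616) (l 16723304)) (l 16740960)) (c (b (l 16754944) (c (l 16765480) (l 16765736))) (l 16770312))))) (b (c (b (l 16702936) (l 16721248)) (b (l 16709944) (l 16726352))) (c (b (l 16739720) (a (l 16754616) (l 16762208))) (b (a (l 16739816) (l 16746392)) (a (l 16756592) (b (l 16759192) (l 16767792))))))) (b (c (c (b (c (l 16728928) (l 16667640)) (a (b (l 16720712) (l 16731480)) (a (l 16711648) (l 16710808)))) (a (l 16739632) (l 16752936))) (c (b (l 16716984) (l 16735840)) (b (l 16722416) (l 16739440)))) (b (c (a (c (l 16763360) (l 16749136)) (c (a (l 16754296) (l 16769280)) (l 16757552))) (c (a (l 16751008) (l 16758824)) (a (l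 16753248) (l 16760360)))) (a (c (c (b (l 16774264) (c (b (l 16771776) (a (l 16774912) (l 104387846663))) (b (l 16771896) (l 58753821959)))) (c (b (l 16764264) (l 16774568)) (l 16785384))) (c (a (l 16768088) (l 74859884647)) (b (l 16766272) (a (l 16773240) (l 72175534039))))) (b (c (c (a (l 16770536) (b (l 16772392) (l 78081172823))) (l 24930959095)) (c (l 16773312) (l 16755352))) (a (b (c (c (l 90429204583) (l 16775232)) (l 95260989831)) (l 4)) (l 4))))))), by decide +kernel⟩

def k203_pp_022_t : ∃ t, chk3 f_pp_022_t t 22 52 1 = true :=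
  ⟨(c (a (c (a (a (b (l 16732712) (l 16721728)) (l 16752056)) (b (b (l 16718840) (l 16723936)) (l 16760424))) (a (l 16741768) (c (l 16748688) (l 16749608)))) (b (c (a (l 16760936) (a (c (l 16735504) (l 16756968)) (l 16760968))) (a (l 16751936) (l 16759816))) (c (a (c (l 16771072) (l 16760992)) (a (l 16772384) (c (l 16776624) (l 16771520)))) (a (l 16761688) (l 16769704))))) (a (c (a (l 16744336) (l 16751160)) (a (l 16739688) (b (l 16748384) (l 16756480)))) (c (a (l 16758256) (b (l 16761016) (l 16770224))) (a (b (l 16755768) (l 16763824)) (b (l 16762448) (l 16770848)))))), by decide +kernel⟩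

def k204_pp_022_t : ∃ t, chk3 f_pp_022_t t 22 53 1 = true :=
  ⟨(b (c (a (c (a (a (l 16742192) (l 16756664)) (c (l 16767816) (l 16762936))) (a (l 16755944) (l 16763560))) (a (a (c (c (l 16768912) (l 16769120)) (l 16769464)) (c (b (l 16770672) (a (l 16774784) (a (l 16779504) (l 86134227175)))) (l 16773496))) (a (c (b (c (c (l 16774904) (l 16774936)) (l 16774984)) (c (l 180623500887) (l 184381596519))) (b (l 16775096) (l 122104590231))) (c (b (c (l 159685537207) (l 111367168519)) (l 4)) (l 185992203095))))) (a (c (a (l 16757488) (l 16764536)) (a (l 16757352) (l 16764856))) (c (a (l 16771904) (a (l 75933674631) (l 124788951495))) (a (a (l 16770368) (l 16763400)) (b (a (l 16775328) (l 104387786935)) (l 189750292999)))))) (a (a (c (c (a (l 16767888) (c (l 16766584) (l 16766864))) (l 16765416)) (c (l 16766296) (l 16766024))) (a (c (c (c (l 16774720) (l 16770952)) (l 16771232)) (b (l 16769784) (l 16774048))) (b (c (c (l 16772504) (l 16772768)) (l 16773264)) (c (c (c (a (l 36205236567) (l 161296151479)) (l 79691783655))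 (l 16781824)) (c (l 16776440) (l 107072148247)))))) (a (a (c (c (b (c (a (l 16775656) (l 90429197207)) (l 16776760)) (l 209614531207)) (b (l 16776840) (l 146800653511))) (c (c (l 16784200) (l 92039821991)) (b (l 16776568) (l 210688259831)))) (b (c (c (c (l 197266497367) (l 195655883607)) (l 141968814615)) (c (l 110830226087) (l 105998386423))) (l 4))) (l 4)))), by decide +kernel⟩

def k205_pp_022_t : ∃ t, chk3 f_pp_022_t t 22 27 1 = true :=
  ⟨(b (a (a (a (c (b (c (b (l 16770176) (a (l 16774200) (b (l 16775008) (l 79691780951)))) (l 16773016)) (c (b (c (l 189750307031) (l 191360918743)) (l 4)) (l 210688263079))) (b (c (l 16773368) (l 16762544)) (c (l 210688259319) (l 210151384663)))) (b (c (c (b (c (l 16778216) (l 16774368)) (a (b (l 42110816551) (l 4)) (l 211762013303))) (b (l 16774512) (l 103850978903))) (c (b (l 16774744) (l 101703495831)) (b (l 16774576) (l 105998463863)))) (l 4))) (a (b (b (c (c (a (b (l 16776200) (l 124252067511)) (l 184918469495)) (l 88818592839)) (c (l 16774944) (l 105461528231)))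 (l 4)) (l 4)) (l 4))) (l 4)) (l 4)), by decide +kernel⟩

def k206_pp_022_t : ∃ t, chk3 f_pp_022_t t 23 13 1 = true :=
  ⟨(b (b (b (a (c (a (c (c (l 16772576) (l 16767560)) (l 16767952)) (a (c (b (l 16771392) (c (l 50700753271) (l 16776664))) (l 16774208)) (c (b (c (l 38889592487) (l 16775816)) (l 194045270759)) (l 85597370871)))) (a (c (l 16768568) (l 16769312)) (c (l 101703451143) (a (l 16774760) (l 100092809495))))) (a (a (c (c (b (l 179012887239) (l 4)) (l 192971522199)) (c (l 141968820583) (l 196192742983))) (l 4)) (l 4))) (a (a (a (c (c (b (l 16773176) (a (a (l 16779400) (l 91502941831)) (l 187602823767))) (l 32447148535)) (c (l 16776104) (l 67880567271))) (b (c (c (a (l 39426463591) (l 103314103847)) (l 16776688)) (c (l 16776584) (l 16776488))) (l 4))) (a (a (b (c (l 202098334295) (l 111903980967)) (l 4)) (l 4)) (l 4))) (l 4))) (l 4)) (l 4)), by decide +kernel⟩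

def k207_pp_022_t : ∃ t, chk3 f_pp_022_t t 40 56 2 = true :=
  ⟨(c (a (b (c (a (l 16750592) (l 16754312)) (l 16751784)) (c (a (b (l 16757056) (l 16761512)) (b (l 16760952) (l 16765400))) (a (l 16758736) (l 16762744)))) (b (c (a (l 16757728) (b (l 16758896) (l 16763568))) (a (l 16757720) (l 16761576))) (c (a (b (l 16764656) (c (l 16769168) (l 16769144))) (b (c (l 16768136) (l 16768304)) (c (a (l 16771888) (b (l 16772560) (l 16774896))) (l 16772888)))) (a (l 16766664) (b (l 16768224) (l 16772792)))))) (a (c (b (l 16750936) (l 16760224)) (b (l 16750032) (l 16759648))) (b (c (l 16759072) (l 16758424)) (c (a (l 16766312) (l 16770280)) (l 16765384))))), by decide +kernel⟩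

def k208_pp_022_t : ∃ t, chk3 f_pp_022_t t 80 114 2 = true :=
  ⟨(c (c (b (a (c (l 16766160) (l 16765992)) (c (a (l 16769048) (l 16770952)) (l 16769896))) (a (c (a (l 16769824) (b (l 16770584) (l 16772928))) (l 16770704)) (a (b (l 16772472) (a (l 16774352) (l 16775312))) (c (b (l 16774408) (b (a (l 16775680) (c (b (l 16776336) (l 16777720)) (l 16776608))) (b (a (l 16776568) (a (l 80228647863) (l 210151408167))) (a (a (l 16776912) (l 100092871767)) (l 4))))) (b (l 16774368) (a (l 16776240) (b (l 16776600) (l 123178322231)))))))) (b (a (l 16765736) (l 16769728)) (a (l 16770552) (a (l 16773544) (a (l 16775008) (b (l 16774792) (l 60901297719))))))) (a (c (l 16767864) (l 16767552)) (b (l 16769360) (c (l 16777008) (l 16774288))))), by decide +kernel⟩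

def k209_pp_022_t : ∃ t, chk3 f_pp_022_t t 81 114 2 = true :=
  ⟨(b (b (c (c (a (c (l 16772872) (l 16772560)) (b (a (l 16774808) (a (l 16776184) (a (l 16777528) (a (l 67343745079) (l 100092871575))))) (a (c (l 16775952) (l 16775944)) (a (b (a (l 16776824) (l 78618035303)) (l 159148671367)) (l 4))))) (a (l 16772456) (a (l 16775328) (c (l 64122523495) (l 16777040))))) (a (l 16772216) (c (l 16776128) (l 16776080)))) (a (c (c (a (l 16773952) (a (l 16775360) (a (l 16776056) (b (l 16775944) (b (l 16776808) (l 96871646471)))))) (l 16774808)) (l 16774688)) (a (c (a (c (c (b (l 16777456) (a (l 151095607607) (l 4))) (b (l 16776624) (l 122104580407))) (l 16778392)) (c (b (a (b (l 16777032) (l 143579415927)) (l 175791669847)) (l 4)) (l 120493969383))) (l 76470557175)) (l 4)))) (a (a (b (c (c (a (c (l 16775816) (l 16775792)) (b (l 16776160) (a (b (l 16776800) (l 97408516711)) (b (l 74859937671) (l 4))))) (l 16776200)) (l 16776144)) (a (c (c (b (b (a (l 16777024) (l 122641450231)) (l 188139700887)) (l 4)) (l 118883356807))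 (l 111367165015)) (l 4))) (b (c (c (a (b (b (l 16777456) (a (l 16777784) (l 181697249703))) (l 208003925063)) (b (c (l 184381604679) (l 183307862855)) (l 4))) (l 150021866167)) (l 97945393879)) (l 4))) (l 4))), by decide +kernel⟩

def k210_pp_022_t : ∃ t, chk3 f_pp_022_t t 40 115 2 = true :=
  ⟨(a (b (b (c (a (c (c (a (l 16773368) (b (l 16774704) (a (l 16775416) (l 16776376)))) (l 16774296)) (l 16774232)) (c (a (a (b (l 16776136) (a (b (l 16776792) (a (l 80765518711) (l 138747577367))) (b (a (l 16777136) (l 109219677127)) (l 4)))) (b (b (c (l 16777440) (l 16776784)) (a (a (l 16777024) (l 80228647799)) (l 182770991527))) (c (l 210688279639) (l 211225150551)))) (b (a (c (b (l 176865411607) (l 4)) (l 184381604679)) (l 4)) (l 4))) (a (a (l 16776656) (l 89892327335)) (l 201024604039)))) (a (l 16774088) (a (l 55532586135) (l 156464323543)))) (a (a (c (c (a (c (l 16775288) (l 16775256)) (b (l 16775640) (b (l 16776552) (a (l 16776912) (b (l 75933680471) (l 191360926055)))))) (l 16775696)) (l 16775624)) (b (c (c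 (a (a (l 16776368) (a (l 16776728) (b (l 16776672) (l 81839260535)))) (c (b (a (l 16777024) (l 164517380391)) (l 192434668215)) (l 97408518471))) (l 16341011927)) (l 16776952)) (b (c (c (a (a (a (l 16777624) (l 110830289879)) (l 4)) (l 4)) (l 123178323399)) (l 16777464)) (l 4)))) (l 4))) (b (b (a (a (c (c (b (a (a (l 16776552) (a (l 16776912) (l 12582912839))) (c (a (l 167201734951) (l 4)) (l 138210707271))) (a (a (b (l 16777008) (l 94187290839)) (l 186529087927)) (l 4))) (l 83449873799)) (l 16777240)) (l 4)) (l 4)) (l 4)) (l 4))) (l 4)), by decide +kernel⟩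

def k211_pp_022_t : ∃ t, chk3 f_pp_022_t t 82 56 2 = true :=
  ⟨(b (c (c (a (b (l 16762472) (l 16767184)) (b (l 16766128) (c (l 16772136) (l 16770936)))) (a (l 16765288) (l 16768832))) (c (l 16766880) (l 16766504))) (b (a (c (c (c (a (l 16770896) (l 16772760)) (l 16771920)) (l 16771992)) (l 16771720)) (c (a (c (b (l 16773488) (a (l 16775376) (a (l 16776080) (b (l 16775960) (l 23320331751))))) (l 16774752)) (c (a (b (l 16774904) (b (l 16776688) (l 170422960263))) (b (l 16775856) (b (l 147874380535) (l 4)))) (b (l 16775448) (l 85060490119)))) (c (l 16780752) (l 16775432)))) (b (a (c (c (a (l 16774448) (a (l 16775840) (b (l 16776192) (b (l 16777872) (l 121030838167))))) (l 16776680)) (l 16775264)) (a (c (c (a (b (b (l 16776848) (l 91502936535)) (l 4)) (l 209614535911)) (l 105998456055)) (l 99019135639)) (l 4))) (a (a (c (a (b (l 16775744) (a (l 16776648) (b (l 16776832) (l 96871646743)))) (c (c (b (l 16776664) (l 163980509719)) (l 66806874359)) (l 16777080))) (l 16776632)) (c (a (b (a (b (l 16777048) (l 149484996263))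 (l 190824054951)) (l 4)) (l 4)) (l 122104584759))) (l 4))))), by decide +kernel⟩

def k212_pp_022_t : ∃ t, chk3 f_pp_022_t t 83 56 2 = true :=
  ⟨(a (b (c (a (c (b (l 16768936) (c (l 16773680) (l 16773744))) (l 16771544)) (b (c (l 16770832) (l 16771056)) (c (b (l 16774424) (b (l 16777216) (a (l 9898559191) (l 178476023655)))) (l 16778328)))) (c (l 16772496) (l 16772320))) (b (b (c (c (a (a (b (l 16776208) (a (l 16777784) (l 113514645415))) (b (a (l 16776936) (l 86671099607)) (l 4))) (l 220888822967)) (a (l 64659395031) (l 233236855415))) (c (l 88818589623) (l 16776224))) (l 4)) (l 4))) (b (b (c (c (a (l 16772744) (b (l 16773464) (c (c (l 16775880) (l 16775896)) (l 16775912)))) (l 16773840)) (l 16773896)) (a (c (c (b (a (l 16775872) (b (l 16776240) (l 83986744311))) (b (c (l 176865410887) (l 124252065111)) (l 4))) (b (l 16776392) (l 193508408007))) (c (l 68954365047) (l 16776744))) (c (b (c (b (c (l 141968800279) (l 94187293735)) (l 4)) (l 109219681431)) (l 4)) (l 136063232071)))) (l 4))), by decide +kernel⟩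

def k213_pp_022_t : ∃ t, chk3 f_pp_022_t t 41 57 2 = true :=
  ⟨(b (a (b (a (c (b (a (c (b (a (l 183844733655) (l 4)) (l 4)) (l 215520117063)) (l 4)) (l 4)) (l 230015627879)) (l 4)) (l 4)) (l 4)) (l 4)), by decide +kernel⟩

def k214_pp_022_t : ∃ t, chk3 f_pp_022_t t 40 28 3 = true :=
  ⟨(b (c (a (b (l 16745928) (c (l 16759032) (l 16758384))) (b (c (l 16757736) (l 16757000)) (c (l 16767680) (l 16767320)))) (a (b (a (l 16733448) (l 16733008)) (c (l 16757688) (a (l 16744016) (l 16748888)))) (b (a (c (l 16732944) (l 16732032)) (l 16758112)) (a (b (l 16740648) (l 16767200)) (b (l 16766264) (l 16771840)))))) (b (a (c (a (l 16767056) (b (l 16768808) (l 16776752))) (a (b (l 16763416) (l 16769224)) (b (l 16768192) (a (l 16772800) (b (l 16773704) (l 16776432)))))) (b (a (c (l 16773176) (l 16772872)) (b (c (l 16775992) (c (l 16775904) (l 16775840))) (a (a (l 53385105271) (l 105461586791)) (l 4)))) (a (c (b (c (l 16776832) (l 16776792)) (l 126936427239)) (a (b (l 16775952) (l 121030843447)) (l 208540788231))) (l 4))))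 (a (b (a (a (c (l 16774128) (l 16773912)) (b (l 16773608) (c (l 16776888) (a (l 16776944) (l 111367165271))))) (c (c (l 102240365175) (l 175791665687)) (c (l 185455340471) (a (l 172033569031) (l 243437394359))))) (a (c (c (l 207467051991) (l 204245823943)) (c (l 218741336023) (l 221962558967))) (l 4))) (l 4)))), by decide +kernel⟩

def k215_pp_022_t : ∃ t, chk3 f_pp_022_t t 41 28 3 = true :=
  ⟨(b (a (a (b (c (l 16763776) (l 16762688)) (a (b (l 16769976) (c (l 16775312) (l 16775152))) (b (l 16770192) (c (l 59290691127) (b (l 16776032) (l 120493972487)))))) (c (b (l 16767952) (b (l 16780544) (l 220888818231))) (b (l 16764568) (b (b (l 16773952) (c (l 16776432) (l 16779000))) (b (l 201561465927) (l 4)))))) (b (b (c (l 16771616) (a (l 16768952) (l 16773312))) (a (c (l 16774464) (a (l 16773208) (l 16775296))) (a (b (l 16778824) (a (l 110293424903) (l 4))) (c (l 136063232279) (l 203172076855))))) (b (a (b (c (l 82376141143) (c (l 86134235687) (l 86671106855))) (l 4)) (l 4)) (l 4)))) (b (a (a (a (c (l 243437392839)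 (l 240216170647)) (l 4)) (l 4)) (l 4)) (l 4))), by decide +kernel⟩

def k216_pp_022_t : ∃ t, chk3 f_pp_022_t t 20 29 1 = true :=
  ⟨(l 4), by decide +kernel⟩

def k217_pp_022_t : ∃ t, chk3 f_pp_022_t t 21 14 1 = true :=
  ⟨(b (a (a (b (b (b (b (a (c (c (a (c (l 16775416) (l 16775480)) (c (c (b (l 10972301383) (l 166127992343)) (l 71638716151)) (l 16777040))) (l 16781592)) (c (l 16776248) (l 16776120))) (a (c (c (l 229478757463) (l 155927452391)) (l 147337520295)) (l 4))) (a (a (c (c (a (b (l 16776768) (l 180623506839)) (c (l 185455344951) (l 16779184))) (l 16776576)) (c (l 16776256) (l 16775944))) (l 4)) (l 4))) (l 4)) (l 4)) (l 4)) (l 4)) (l 4)) (l 4)), by decide +kernel⟩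

def k218_pp_022_t : ∃ t, chk3 f_pp_022_t t 10 15 1 = true :=
  ⟨(l 4), by decide +kernel⟩

def k219_pp_022_t : ∃ t, chk3 f_pp_022_t t 11 7 1 = true :=
  ⟨(l 4), by decide +kernel⟩

def k220_pp_022_t : ∃ t, chk3 f_pp_022_t t 6 4 1 = true :=
  ⟨(a (b (b (l 6) (a (l 6) (a (l 6) (a (l 6) (c (l 16502496) (l 16546936)))))) (c (a (c (b (a (l 6) (l 16496248)) (a (l 16519200) (l 16533832))) (a (l 16606136) (l 16639440))) (b (c (a (l 16511136) (l 16527272)) (l 16600040)) (c (a (l 16549680) (l 16566672)) (a (l 16566240) (l 16581568))))) (c (a (a (l 16589200) (l 16599584)) (a (l 16611264) (l 16645120))) (b (a (l 16524632) (l 16542384)) (a (l 16531416) (a (l 16609184) (l 16620520))))))) (a (c (b (c (a (l 16507616) (l 16524576)) (a (l 16504384) (l 16519440))) (c (a (b (l 16544560) (l 16584728)) (b (l 16562872) (l 16603688))) (a (b (l 16559984) (l 16597976)) (b (l 16576544) (l 16615312))))) (b (a (c (l 16526088) (l 16551752)) (b (l 16532528) (l 16567848))) (b (a (l 16631336) (c (l 16593312) (l 16613160))) (a (c (l 16614056)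 (l 16632936)) (c (l 16629512) (l 16646280)))))) (a (a (b (c (c (l 16516984) (l 16531408)) (l 16622560)) (b (c (l 16603952) (l 16613520)) (c (l 16686256) (l 16607000)))) (b (l 2) (b (l 2) (c (l 16695904) (l 16614768))))) (l 2)))), by decide +kernel⟩

def k221_pp_022_t : ∃ t, chk3 f_pp_022_t t 6 10 1 = true :=
  ⟨(a (c (a (b (a (c (l 16560168) (l 16576104)) (c (l 16575736) (l 16590096))) (c (a (l 16624856) (l 16641256)) (a (l 16615496) (l 16651424)))) (b (a (c (l 16592424) (l 16605232)) (c (l 16610136) (l 16621424))) (c (a (l 16679632) (l 16718928)) (a (l 16667432) (l 16705352))))) (c (a (a (b (l 16595088) (l 16629472)) (b (l 16607296) (l 16642776))) (b (a (l 16620672) (l 16635104)) (a (l 16636168) (l 16630544)))) (a (a (l 16683728) (b (l 16627360) (l 16615328))) (b (a (l 16638736) (l 16651184)) (a (l 16627824) (l 16641320)))))) (a (a (c (b (c (l 16649760) (l 16638576)) (c (c (l 16694840) (l 16697512)) (b (l 16670480) (l 16692144)))) (a (b (l 16590704) (l 16689112)) (b (l 16598160) (l 16697000)))) (c (c (b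 (l 16690224) (b (l 16683344) (l 16727928))) (b (l 16677576) (b (l 16688944) (l 16668920)))) (b (a (l 16584864) (l 16592728)) (c (l 16705760) (l 16712872))))) (a (c (b (c (l 16710384) (l 16717256)) (b (a (l 16721744) (l 16731760)) (c (c (l 16747896) (l 16749064)) (l 16730184)))) (b (c (l 16620904) (l 16652000)) (c (l 16744400) (l 16728736)))) (a (c (b (b (l 2) (l 16697984)) (b (c (l 16719368) (l 16722704)) (l 16770232))) (b (l 16701104) (c (l 16737024) (l 16740976)))) (l 2))))), by decide +kernel⟩

def k222_pp_022_t : ∃ t, chk3 f_pp_022_t t 12 11 1 = true :=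
  ⟨(c (c (b (a (a (l 16711424) (c (l 16685240) (l 16688096))) (a (b (l 16672192) (l 16716112)) (b (l 16690912) (a (l 16709312) (l 16718968))))) (b (a (a (l 16702904) (l 16720560)) (a (a (l 16713384) (l 16722808)) (b (a (l 16726648) (l 16736384)) (l 16743016)))) (a (a (a (l 16699776) (l 16708560)) (a (l 16717544) (b (l 16721096) (l 16732360)))) (a (c (l 16761440) (l 16741232)) (a (l 16755352) (b (l 16759456) (l 16770824))))))) (a (b (a (b (l 16645960) (l 16666536)) (b (l 16661592) (l 16682592))) (b (a (l 16687264) (l 16661792)) (a (a (l 16703968) (l 16712176)) (c (l 16703160) (l 16704736))))) (b (a (b (l 16678200) (l 16657632)) (b (l 16695680) (a (l 16712872) (l 16721968)))) (a (a (l 16748376) (l 16757328)) (a (l 16766464) (b (l 16743856) (l 16765688))))))) (a (b (a (c (l 16602800) (l 16676912)) (a (l 16681128) (l 16688120))) (a (c (l 16703328) (l 16720608)) (c (l 16739600) (b (l 16715072) (l 16732624))))) (b (a (a (l 16716328) (l 16723800)) (c (l 16711536) (l 16717552))) (a (c (b (l 16724864) (l 16744816))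 (b (l 16729440) (l 16747512))) (c (b (l 16741672) (l 16761984)) (b (l 16744672) (l 15804100327))))))), by decide +kernel⟩

def k223_pp_022_t : ∃ t, chk3 f_pp_022_t t 13 11 1 = true :=
  ⟨(b (a (c (b (a (c (l 16731344) (l 16672000)) (c (a (l 16725416) (l 16693672)) (l 16732912))) (a (a (b (l 16724256) (l 16693664)) (b (l 16712984) (l 16745360))) (c (a (l 16748888) (l 16759136)) (l 16755096)))) (a (c (l 16749496) (l 16753840)) (c (b (l 16735968) (l 16756520)) (b (l 16739680) (l 16758272))))) (a (b (c (c (a (l 16745936) (l 16756352)) (l 16752424)) (c (l 16754096) (l 16756136))) (a (c (c (b (l 16763616) (l 64659353575)) (l 16769536)) (b (l 16765584) (l 71101793303))) (c (c (a (l 90966024135) (l 93650347655)) (l 104387796007)) (c (l 90429122999) (l 87207894791))))) (a (b (c (c (l 16766624) (l 16767176)) (c (l 16767888) (l 16768752))) (b (c (c (l 95797840743) (l 16749176)) (l 94187223015)) (l 4))) (b (a (c (b (l 16769072) (l 95260989351)) (l 73249279415)) (l 2)) (l 4))))) (b (a (a (c (c (a (l 16752072) (l 16762104))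 (l 16778960)) (a (l 16755664) (l 16764232))) (a (c (b (l 16766688) (c (l 93113501687) (l 16776064))) (b (l 16767968) (l 86671044487))) (b (c (c (l 90429149303) (l 16776064)) (l 85597308647)) (l 4)))) (b (a (a (a (c (l 95797846023) (l 16748224)) (l 4)) (l 4)) (l 4)) (l 4))) (a (a (a (c (c (b (l 16769368) (b (l 16784752) (l 94187233591))) (l 86671031703)) (c (l 87744800151) (l 82376064999))) (b (c (c (l 95797924903) (l 16774656)) (c (l 16774496) (l 16774352))) (l 4))) (l 4)) (l 4)))), by decide +kernel⟩

def k224_pp_022_t : ∃ t, chk3 f_pp_022_t t 7 2 1 = true :=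
  ⟨(b (l 2) (b (l 2) (b (l 2) (l 4)))), by decide +kernel⟩

def k225_pp_022_t : ∃ t, chk3 f_pp_022_t t 24 12 1 = true :=
  ⟨(b (c (c (b (a (a (b (l 16716288) (l 16727272)) (b (l 16725192) (l 16736264))) (a (b (l 16734304) (l 16745448)) (l 16749208))) (a (a (l 16743720) (l 16763320)) (b (a (l 16756576) (l 16766008)) (a (l 16767688) (c (a (l 16774592) (l 88281661863)) (l 70028114727)))))) (b (a (l 16728816) (l 16767048)) (a (a (l 16745384) (l 16754008)) (a (l 16762832) (a (l 16769520) (l 54995723463)))))) (a (c (b (l 16732056) (l 16751424)) (b (l 16735960) (a (l 16749976) (l 16757280)))) (b (c (l 16748064) (l 16750480)) (a (c (l 16763728) (l 16764816)) (c (l 73786152967) (l 75396747143)))))) (a (a (b (c (a (c (l 16773824) (l 16764008)) (c (b (l 16762448) (l 32447145687)) (l 16768344))) (c (l 16766872) (l 20099069111))) (b (b (a (c (a (l 16775832) (l 86134237063)) (l 16777016)) (c (l 182234109127) (l 103850912807))) (l 4)) (l 4))) (b (c (c (b (c (l 16769280) (l 16769448)) (b (a (l 16775248) (l 119420234407))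 (l 179012880871))) (b (l 16769736) (c (l 91502953479) (l 91502953719)))) (c (b (l 16770208) (l 90429119655)) (b (l 16770784) (l 90429117703)))) (l 4))) (a (b (b (c (c (c (a (l 63585658423) (l 117809623959)) (l 80228663191)) (l 80228667751)) (c (l 80765452839) (l 78617968279))) (l 4)) (l 4)) (l 4)))), by decide +kernel⟩

def k226_pp_022_t : ∃ t, chk3 f_pp_022_t t 25 12 1 = true :=
  ⟨(b (a (a (b (c (c (l 16758704) (l 16759560)) (c (l 16760656) (l 16761992))) (b (c (c (b (l 16772720) (l 80228662759)) (l 16775408)) (c (l 16775648) (l 16775920))) (a (c (l 173644168615) (l 99019054615)) (l 4)))) (b (c (c (b (l 16762696) (c (l 51774501207) (l 16773800))) (l 51237576247)) (c (l 16769200) (l 16769904))) (a (b (b (c (l 107609078647) (l 16773296)) (l 4)) (l 4)) (l 4)))) (b (a (c (b (c (l 53921942215) (l 16772544)) (c (l 146800625767) (l 121567652215))) (c (l 83986660007) (l 81302306695))) (b (b (c (a (l 16776744) (l 116199014391)) (l 86134177607)) (l 4)) (l 4))) (l 4))) (l 4)), by decide +kernel⟩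

def k227_pp_022_t : ∃ t, chk3 f_pp_022_t t 13 12 1 = true :=
  ⟨(l 4), by decide +kernel⟩

def k228_pp_022_t : ∃ t, chk3 f_pp_022_t t 6 13 1 = true :=
  ⟨(l 4), by decide +kernel⟩

def k229_pp_022_t : ∃ t, chk3 f_pp_022_t t 6 7 1 = true :=
  ⟨(l 4), by decide +kernel⟩

def k230_pp_022_t : ∃ t, chk3 f_pp_022_t t 7 3 1 = true :=
  ⟨(l 4), by decide +kernel⟩

theorem s231_pp_022_t : ∃ t, chk3 f_pp_022_t t 12 12 1 = true := ex3_a k225_pp_022_t k226_pp_022_t

theorem s232_pp_022_t : ∃ t, chk3 f_pp_022_t t 6 12 1 = true := ex3_a s231_pp_022_t k227_pp_022_t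

theorem s233_pp_022_t : ∃ t, chk3 f_pp_022_t t 6 6 1 = true := ex3_b s232_pp_022_t k228_pp_022_t

theorem s234_pp_022_t : ∃ t, chk3 f_pp_022_t t 6 3 1 = true := ex3_b s233_pp_022_t k229_pp_022_t

theorem s235_pp_022_t : ∃ t, chk3 f_pp_022_t t 3 3 1 = true := ex3_a s234_pp_022_t k230_pp_022_t

theorem s236_pp_022_t : ∃ t, chk3 f_pp_022_t t 6 11 1 = true := ex3_a k222_pp_022_t k223_pp_022_t

theorem s237_pp_022_t : ∃ t, chk3 f_pp_022_t t 6 5 1 = true := ex3_b k221_pp_022_t s236_pp_022_t

theorem s238_pp_022_t : ∃ t, chk3 f_pp_022_t t 6 2 1 = true := ex3_b k220_pp_022_t s237_pp_022_t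

theorem s239_pp_022_t : ∃ t, chk3 f_pp_022_t t 3 2 1 = true := ex3_a s238_pp_022_t k224_pp_022_t

theorem s240_pp_022_t : ∃ t, chk3 f_pp_022_t t 3 1 1 = true := ex3_b s239_pp_022_t s235_pp_022_t

theorem s241_pp_022_t : ∃ t, chk3 f_pp_022_t t 20 28 3 = true := ex3_a k214_pp_022_t k215_pp_022_t

theorem s242_pp_022_t : ∃ t, chk3 f_pp_022_t t 41 56 2 = true := ex3_a k211_pp_022_t k212_pp_022_t

theorem s243_pp_022_t : ∃ t, chk3 f_pp_022_t t 41 28 2 = true := ex3_b s242_pp_022_t k213_pp_022_t

theorem s244_pp_022_t : ∃ t, chk3 f_pp_022_t t 40 114 2 = true := ex3_a k208_pp_022_t k209_pp_022_t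

theorem s245_pp_022_t : ∃ t, chk3 f_pp_022_t t 40 57 2 = true := ex3_b s244_pp_022_t k210_pp_022_t

theorem s246_pp_022_t : ∃ t, chk3 f_pp_022_t t 40 28 2 = true := ex3_b k207_pp_022_t s245_pp_022_t

theorem s247_pp_022_t : ∃ t, chk3 f_pp_022_t t 20 28 2 = true := ex3_a s246_pp_022_t s243_pp_022_t

theorem s248_pp_022_t : ∃ t, chk3 f_pp_022_t t 20 28 1 = true := ex3_c s247_pp_022_t s241_pp_022_t

theorem s249_pp_022_t : ∃ t, chk3 f_pp_022_t t 20 14 1 = true := ex3_b s248_pp_022_t k216_pp_022_t

theorem s250_pp_022_t : ∃ t, chk3 f_pp_022_t t 10 14 1 = true := ex3_a s249_pp_022_t k217_pp_022_t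

theorem s251_pp_022_t : ∃ t, chk3 f_pp_022_t t 10 7 1 = true := ex3_b s250_pp_022_t k218_pp_022_t

theorem s252_pp_022_t : ∃ t, chk3 f_pp_022_t t 5 7 1 = true := ex3_a s251_pp_022_t k219_pp_022_t

theorem s253_pp_022_t : ∃ t, chk3 f_pp_022_t t 22 26 1 = true := ex3_b k203_pp_022_t k204_pp_022_t

theorem s254_pp_022_t : ∃ t, chk3 f_pp_022_t t 22 13 1 = true := ex3_b s253_pp_022_t k205_pp_022_t

theorem s255_pp_022_t : ∃ t, chk3 f_pp_022_t t 11 13 1 = true := ex3_a s254_pp_022_t k206_pp_022_t

theorem s256_pp_022_t : ∃ t, chk3 f_pp_022_t t 11 12 1 = true := ex3_a k201_pp_022_t k202_pp_022_t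

theorem s257_pp_022_t : ∃ t, chk3 f_pp_022_t t 11 6 1 = true := ex3_b s256_pp_022_t s255_pp_022_t

theorem s258_pp_022_t : ∃ t, chk3 f_pp_022_t t 10 55 1 = true := ex3_b k199_pp_022_t k200_pp_022_t

theorem s259_pp_022_t : ∃ t, chk3 f_pp_022_t t 10 27 1 = true := ex3_b k198_pp_022_t s258_pp_022_t

theorem s260_pp_022_t : ∃ t, chk3 f_pp_022_t t 10 13 1 = true := ex3_b k197_pp_022_t s259_pp_022_t

theorem s261_pp_022_t : ∃ t, chk3 f_pp_022_t t 10 6 1 = true := ex3_b k196_pp_022_t s260_pp_022_t

theorem s262_pp_022_t : ∃ t, chk3 f_pp_022_t t 5 6 1 = true := ex3_a s261_pp_022_t s257_pp_022_t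

theorem s263_pp_022_t : ∃ t, chk3 f_pp_022_t t 5 3 1 = true := ex3_b s262_pp_022_t s252_pp_022_t

theorem s264_pp_022_t : ∃ t, chk3 f_pp_022_t t 296 240 1 = true := ex3_b k186_pp_022_t k187_pp_022_t

theorem s265_pp_022_t : ∃ t, chk3 f_pp_022_t t 148 240 1 = true := ex3_a s264_pp_022_t k188_pp_022_t

theorem s266_pp_022_t : ∃ t, chk3 f_pp_022_t t 74 240 1 = true := ex3_a s265_pp_022_t k189_pp_022_t

theorem s267_pp_022_t : ∃ t, chk3 f_pp_022_t t 37 240 1 = true := ex3_a s266_pp_022_t k190_pp_022_t

theorem s268_pp_022_t : ∃ t, chk3 f_pp_022_t t 37 120 1 = true := ex3_b s267_pp_022_t k191_pp_022_t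

theorem s269_pp_022_t : ∃ t, chk3 f_pp_022_t t 37 60 1 = true := ex3_b s268_pp_022_t k192_pp_022_t

theorem s270_pp_022_t : ∃ t, chk3 f_pp_022_t t 36 121 3 = true := ex3_a k184_pp_022_t k185_pp_022_t

theorem s271_pp_022_t : ∃ t, chk3 f_pp_022_t t 36 120 3 = true := ex3_a k182_pp_022_t k183_pp_022_t

theorem s272_pp_022_t : ∃ t, chk3 f_pp_022_t t 36 60 3 = true := ex3_b s271_pp_022_t s270_pp_022_t

theorem s273_pp_022_t : ∃ t, chk3 f_pp_022_t t 295 120 2 = true := ex3_b k179_pp_022_t k180_pp_022_t

theorem s274_pp_022_t : ∃ t, chk3 f_pp_022_t t 294 120 2 = true := ex3_b k177_pp_022_t k178_pp_022_t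

theorem s275_pp_022_t : ∃ t, chk3 f_pp_022_t t 147 120 2 = true := ex3_a s274_pp_022_t s273_pp_022_t

theorem s276_pp_022_t : ∃ t, chk3 f_pp_022_t t 146 483 2 = true := ex3_b k175_pp_022_t k176_pp_022_t

theorem s277_pp_022_t : ∃ t, chk3 f_pp_022_t t 146 241 2 = true := ex3_b k174_pp_022_t s276_pp_022_t

theorem s278_pp_022_t : ∃ t, chk3 f_pp_022_t t 146 120 2 = true := ex3_b k173_pp_022_t s277_pp_022_t

theorem s279_pp_022_t : ∃ t, chk3 f_pp_022_t t 73 120 2 = true := ex3_a s278_pp_022_t s275_pp_022_t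

theorem s280_pp_022_t : ∃ t, chk3 f_pp_022_t t 73 60 2 = true := ex3_b s279_pp_022_t k181_pp_022_t

theorem s281_pp_022_t : ∃ t, chk3 f_pp_022_t t 291 242 2 = true := ex3_a k170_pp_022_t k171_pp_022_t

theorem s282_pp_022_t : ∃ t, chk3 f_pp_022_t t 290 242 2 = true := ex3_a k168_pp_022_t k169_pp_022_t

theorem s283_pp_022_t : ∃ t, chk3 f_pp_022_t t 145 242 2 = true := ex3_a s282_pp_022_t s281_pp_022_t

theorem s284_pp_022_t : ∃ t, chk3 f_pp_022_t t 145 121 2 = true := ex3_b s283_pp_022_t k172_pp_022_t

theorem s285_pp_022_t : ∃ t, chk3 f_pp_022_t t 144 486 4 = true := ex3_b k164_pp_022_t k165_pp_022_t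

theorem s286_pp_022_t : ∃ t, chk3 f_pp_022_t t 144 243 4 = true := ex3_b s285_pp_022_t k166_pp_022_t

theorem s287_pp_022_t : ∃ t, chk3 f_pp_022_t t 144 121 4 = true := ex3_b k163_pp_022_t s286_pp_022_t

theorem s288_pp_022_t : ∃ t, chk3 f_pp_022_t t 144 121 2 = true := ex3_c s287_pp_022_t k167_pp_022_t

theorem s289_pp_022_t : ∃ t, chk3 f_pp_022_t t 72 121 2 = true := ex3_a s288_pp_022_t s284_pp_022_t

theorem s290_pp_022_t : ∃ t, chk3 f_pp_022_t t 72 120 2 = true := ex3_c k161_pp_022_t k162_pp_022_t

theorem s291_pp_022_t : ∃ t, chk3 f_pp_022_t t 72 60 2 = true := ex3_b s290_pp_022_t s289_pp_022_t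

theorem s292_pp_022_t : ∃ t, chk3 f_pp_022_t t 36 60 2 = true := ex3_a s291_pp_022_t s280_pp_022_t

theorem s293_pp_022_t : ∃ t, chk3 f_pp_022_t t 36 60 1 = true := ex3_c s292_pp_022_t s272_pp_022_t

theorem s294_pp_022_t : ∃ t, chk3 f_pp_022_t t 18 60 1 = true := ex3_a s293_pp_022_t s269_pp_022_t

theorem s295_pp_022_t : ∃ t, chk3 f_pp_022_t t 18 30 1 = true := ex3_b s294_pp_022_t k193_pp_022_t

theorem s296_pp_022_t : ∃ t, chk3 f_pp_022_t t 18 15 1 = true := ex3_b s295_pp_022_t k194_pp_022_t

theorem s297_pp_022_t : ∃ t, chk3 f_pp_022_t t 9 15 1 = true := ex3_a s296_pp_022_t k195_pp_022_t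

theorem s298_pp_022_t : ∃ t, chk3 f_pp_022_t t 78 233 1 = true := ex3_a k156_pp_022_t k157_pp_022_t

theorem s299_pp_022_t : ∃ t, chk3 f_pp_022_t t 39 233 1 = true := ex3_a s298_pp_022_t k158_pp_022_t

theorem s300_pp_022_t : ∃ t, chk3 f_pp_022_t t 39 232 1 = true := ex3_a k154_pp_022_t k155_pp_022_t

theorem s301_pp_022_t : ∃ t, chk3 f_pp_022_t t 39 116 1 = true := ex3_b s300_pp_022_t s299_pp_022_t

theorem s302_pp_022_t : ∃ t, chk3 f_pp_022_t t 39 58 1 = true := ex3_b s301_pp_022_t k159_pp_022_t

theorem s303_pp_022_t : ∃ t, chk3 f_pp_022_t t 39 29 1 = true := ex3_b s302_pp_022_t k160_pp_022_t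

theorem s304_pp_022_t : ∃ t, chk3 f_pp_022_t t 153 236 1 = true := ex3_a k149_pp_022_t k150_pp_022_t

theorem s305_pp_022_t : ∃ t, chk3 f_pp_022_t t 76 236 1 = true := ex3_a k148_pp_022_t s304_pp_022_t

theorem s306_pp_022_t : ∃ t, chk3 f_pp_022_t t 76 118 1 = true := ex3_b s305_pp_022_t k151_pp_022_t

theorem s307_pp_022_t : ∃ t, chk3 f_pp_022_t t 38 118 1 = true := ex3_a s306_pp_022_t k152_pp_022_t

theorem s308_pp_022_t : ∃ t, chk3 f_pp_022_t t 38 59 1 = true := ex3_b s307_pp_022_t k153_pp_022_t

theorem s309_pp_022_t : ∃ t, chk3 f_pp_022_t t 155 117 2 = true := ex3_a k145_pp_022_t k146_pp_022_t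

theorem s310_pp_022_t : ∃ t, chk3 f_pp_022_t t 155 58 2 = true := ex3_b k144_pp_022_t s309_pp_022_t

theorem s311_pp_022_t : ∃ t, chk3 f_pp_022_t t 154 117 4 = true := ex3_b k141_pp_022_t k142_pp_022_t

theorem s312_pp_022_t : ∃ t, chk3 f_pp_022_t t 154 58 4 = true := ex3_b k140_pp_022_t s311_pp_022_t

theorem s313_pp_022_t : ∃ t, chk3 f_pp_022_t t 154 58 2 = true := ex3_c s312_pp_022_t k143_pp_022_t

theorem s314_pp_022_t : ∃ t, chk3 f_pp_022_t t 77 58 2 = true := ex3_a s313_pp_022_t s310_pp_022_t

theorem s315_pp_022_t : ∃ t, chk3 f_pp_022_t t 38 58 2 = true := ex3_a k139_pp_022_t s314_pp_022_t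

theorem s316_pp_022_t : ∃ t, chk3 f_pp_022_t t 38 58 1 = true := ex3_c s315_pp_022_t k147_pp_022_t

theorem s317_pp_022_t : ∃ t, chk3 f_pp_022_t t 38 29 1 = true := ex3_b s316_pp_022_t s308_pp_022_t

theorem s318_pp_022_t : ∃ t, chk3 f_pp_022_t t 19 29 1 = true := ex3_a s317_pp_022_t s303_pp_022_t

theorem s319_pp_022_t : ∃ t, chk3 f_pp_022_t t 19 28 3 = true := ex3_a k137_pp_022_t k138_pp_022_t

theorem s320_pp_022_t : ∃ t, chk3 f_pp_022_t t 39 57 2 = true := ex3_c k135_pp_022_t k136_pp_022_t

theorem s321_pp_022_t : ∃ t, chk3 f_pp_022_t t 39 28 2 = true := ex3_b k134_pp_022_t s320_pp_022_t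

theorem s322_pp_022_t : ∃ t, chk3 f_pp_022_t t 19 28 2 = true := ex3_a k133_pp_022_t s321_pp_022_t

theorem s323_pp_022_t : ∃ t, chk3 f_pp_022_t t 19 28 1 = true := ex3_c s322_pp_022_t s319_pp_022_t

theorem s324_pp_022_t : ∃ t, chk3 f_pp_022_t t 19 14 1 = true := ex3_b s323_pp_022_t s318_pp_022_t

theorem s325_pp_022_t : ∃ t, chk3 f_pp_022_t t 37 59 3 = true := ex3_a k131_pp_022_t k132_pp_022_t

theorem s326_pp_022_t : ∃ t, chk3 f_pp_022_t t 151 118 4 = true := ex3_b k127_pp_022_t k128_pp_022_t

theorem s327_pp_022_t : ∃ t, chk3 f_pp_022_t t 151 118 2 = true := ex3_c s326_pp_022_t k129_pp_022_t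

theorem s328_pp_022_t : ∃ t, chk3 f_pp_022_t t 151 59 2 = true := ex3_b s327_pp_022_t k130_pp_022_t

theorem s329_pp_022_t : ∃ t, chk3 f_pp_022_t t 150 238 8 = true := ex3_b k122_pp_022_t k123_pp_022_t

theorem s330_pp_022_t : ∃ t, chk3 f_pp_022_t t 150 238 4 = true := ex3_c s329_pp_022_t k124_pp_022_t

theorem s331_pp_022_t : ∃ t, chk3 f_pp_022_t t 150 238 2 = true := ex3_c s330_pp_022_t k125_pp_022_t

theorem s332_pp_022_t : ∃ t, chk3 f_pp_022_t t 150 119 2 = true := ex3_b s331_pp_022_t k126_pp_022_t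

theorem s333_pp_022_t : ∃ t, chk3 f_pp_022_t t 150 59 2 = true := ex3_b k121_pp_022_t s332_pp_022_t

theorem s334_pp_022_t : ∃ t, chk3 f_pp_022_t t 75 59 2 = true := ex3_a s333_pp_022_t s328_pp_022_t

theorem s335_pp_022_t : ∃ t, chk3 f_pp_022_t t 149 239 8 = true := ex3_a k117_pp_022_t k118_pp_022_t

theorem s336_pp_022_t : ∃ t, chk3 f_pp_022_t t 149 119 8 = true := ex3_b k116_pp_022_t s335_pp_022_t

theorem s337_pp_022_t : ∃ t, chk3 f_pp_022_t t 74 119 8 = true := ex3_a k115_pp_022_t s336_pp_022_t

theorem s338_pp_022_t : ∃ t, chk3 f_pp_022_t t 74 119 4 = true := ex3_c s337_pp_022_t k119_pp_022_t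

theorem s339_pp_022_t : ∃ t, chk3 f_pp_022_t t 74 59 4 = true := ex3_b k114_pp_022_t s338_pp_022_t

theorem s340_pp_022_t : ∃ t, chk3 f_pp_022_t t 74 59 2 = true := ex3_c s339_pp_022_t k120_pp_022_t

theorem s341_pp_022_t : ∃ t, chk3 f_pp_022_t t 37 59 2 = true := ex3_a s340_pp_022_t s334_pp_022_t

theorem s342_pp_022_t : ∃ t, chk3 f_pp_022_t t 37 59 1 = true := ex3_c s341_pp_022_t s325_pp_022_t

theorem s343_pp_022_t : ∃ t, chk3 f_pp_022_t t 37 58 1 = true := ex3_b k112_pp_022_t k113_pp_022_t

theorem s344_pp_022_t : ∃ t, chk3 f_pp_022_t t 37 29 1 = true := ex3_b s343_pp_022_t s342_pp_022_t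

theorem s345_pp_022_t : ∃ t, chk3 f_pp_022_t t 147 29 1 = true := ex3_b k110_pp_022_t k111_pp_022_t

theorem s346_pp_022_t : ∃ t, chk3 f_pp_022_t t 73 29 1 = true := ex3_a k109_pp_022_t s345_pp_022_t

theorem s347_pp_022_t : ∃ t, chk3 f_pp_022_t t 72 29 1 = true := ex3_c k107_pp_022_t k108_pp_022_t

theorem s348_pp_022_t : ∃ t, chk3 f_pp_022_t t 36 29 1 = true := ex3_a s347_pp_022_t s346_pp_022_t

theorem s349_pp_022_t : ∃ t, chk3 f_pp_022_t t 18 29 1 = true := ex3_a s348_pp_022_t s344_pp_022_t

theorem s350_pp_022_t : ∃ t, chk3 f_pp_022_t t 18 28 1 = true := ex3_c k105_pp_022_t k106_pp_022_t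

theorem s351_pp_022_t : ∃ t, chk3 f_pp_022_t t 18 14 1 = true := ex3_b s350_pp_022_t s349_pp_022_t

theorem s352_pp_022_t : ∃ t, chk3 f_pp_022_t t 9 14 1 = true := ex3_a s351_pp_022_t s324_pp_022_t

theorem s353_pp_022_t : ∃ t, chk3 f_pp_022_t t 9 7 1 = true := ex3_b s352_pp_022_t s297_pp_022_t

theorem s354_pp_022_t : ∃ t, chk3 f_pp_022_t t 284 490 4 = true := ex3_b k96_pp_022_t k97_pp_022_t

theorem s355_pp_022_t : ∃ t, chk3 f_pp_022_t t 284 490 2 = true := ex3_c s354_pp_022_t k98_pp_022_t

theorem s356_pp_022_t : ∃ t, chk3 f_pp_022_t t 284 245 2 = true := ex3_b s355_pp_022_t k99_pp_022_t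

theorem s357_pp_022_t : ∃ t, chk3 f_pp_022_t t 142 245 2 = true := ex3_a s356_pp_022_t k100_pp_022_t

theorem s358_pp_022_t : ∃ t, chk3 f_pp_022_t t 71 245 2 = true := ex3_a s357_pp_022_t k101_pp_022_t

theorem s359_pp_022_t : ∃ t, chk3 f_pp_022_t t 286 488 2 = true := ex3_a k92_pp_022_t k93_pp_022_t

theorem s360_pp_022_t : ∃ t, chk3 f_pp_022_t t 286 244 2 = true := ex3_b s359_pp_022_t k94_pp_022_t

theorem s361_pp_022_t : ∃ t, chk3 f_pp_022_t t 143 244 2 = true := ex3_a s360_pp_022_t k95_pp_022_t

theorem s362_pp_022_t : ∃ t, chk3 f_pp_022_t t 285 489 4 = true := ex3_a k89_pp_022_t k90_pp_022_t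

theorem s363_pp_022_t : ∃ t, chk3 f_pp_022_t t 142 489 4 = true := ex3_a k88_pp_022_t s362_pp_022_t

theorem s364_pp_022_t : ∃ t, chk3 f_pp_022_t t 142 244 4 = true := ex3_b k87_pp_022_t s363_pp_022_t

theorem s365_pp_022_t : ∃ t, chk3 f_pp_022_t t 142 244 2 = true := ex3_c s364_pp_022_t k91_pp_022_t

theorem s366_pp_022_t : ∃ t, chk3 f_pp_022_t t 71 244 2 = true := ex3_a s365_pp_022_t s361_pp_022_t

theorem s367_pp_022_t : ∃ t, chk3 f_pp_022_t t 71 122 2 = true := ex3_b s366_pp_022_t s358_pp_022_t

theorem s368_pp_022_t : ∃ t, chk3 f_pp_022_t t 71 122 1 = true := ex3_c s367_pp_022_t k102_pp_022_t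

theorem s369_pp_022_t : ∃ t, chk3 f_pp_022_t t 71 61 1 = true := ex3_b s368_pp_022_t k103_pp_022_t

theorem s370_pp_022_t : ∃ t, chk3 f_pp_022_t t 140 986 2 = true := ex3_b k81_pp_022_t k82_pp_022_t

theorem s371_pp_022_t : ∃ t, chk3 f_pp_022_t t 140 493 2 = true := ex3_b s370_pp_022_t k83_pp_022_t

theorem s372_pp_022_t : ∃ t, chk3 f_pp_022_t t 281 492 8 = true := ex3_b k77_pp_022_t k78_pp_022_t

theorem s373_pp_022_t : ∃ t, chk3 f_pp_022_t t 140 492 8 = true := ex3_a k76_pp_022_t s372_pp_022_t

theorem s374_pp_022_t : ∃ t, chk3 f_pp_022_t t 140 492 4 = true := ex3_c s373_pp_022_t k79_pp_022_t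

theorem s375_pp_022_t : ∃ t, chk3 f_pp_022_t t 140 492 2 = true := ex3_c s374_pp_022_t k80_pp_022_t

theorem s376_pp_022_t : ∃ t, chk3 f_pp_022_t t 140 246 2 = true := ex3_b s375_pp_022_t s371_pp_022_t

theorem s377_pp_022_t : ∃ t, chk3 f_pp_022_t t 70 246 2 = true := ex3_a s376_pp_022_t k84_pp_022_t

theorem s378_pp_022_t : ∃ t, chk3 f_pp_022_t t 70 123 2 = true := ex3_b s377_pp_022_t k85_pp_022_t

theorem s379_pp_022_t : ∃ t, chk3 f_pp_022_t t 70 123 1 = true := ex3_c s378_pp_022_t k86_pp_022_t

theorem s380_pp_022_t : ∃ t, chk3 f_pp_022_t t 70 122 3 = true := ex3_b k74_pp_022_t k75_pp_022_t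

theorem s381_pp_022_t : ∃ t, chk3 f_pp_022_t t 282 491 2 = true := ex3_a k71_pp_022_t k72_pp_022_t

theorem s382_pp_022_t : ∃ t, chk3 f_pp_022_t t 141 491 2 = true := ex3_a s381_pp_022_t k73_pp_022_t

theorem s383_pp_022_t : ∃ t, chk3 f_pp_022_t t 141 490 2 = true := ex3_a k69_pp_022_t k70_pp_022_t

theorem s384_pp_022_t : ∃ t, chk3 f_pp_022_t t 141 245 2 = true := ex3_b s383_pp_022_t s382_pp_022_t

theorem s385_pp_022_t : ∃ t, chk3 f_pp_022_t t 141 122 2 = true := ex3_b k68_pp_022_t s384_pp_022_t

theorem s386_pp_022_t : ∃ t, chk3 f_pp_022_t t 140 122 2 = true := ex3_b k66_pp_022_t k67_pp_022_t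

theorem s387_pp_022_t : ∃ t, chk3 f_pp_022_t t 70 122 2 = true := ex3_a s386_pp_022_t s385_pp_022_t

theorem s388_pp_022_t : ∃ t, chk3 f_pp_022_t t 70 122 1 = true := ex3_c s387_pp_022_t s380_pp_022_t

theorem s389_pp_022_t : ∃ t, chk3 f_pp_022_t t 70 61 1 = true := ex3_b s388_pp_022_t s379_pp_022_t

theorem s390_pp_022_t : ∃ t, chk3 f_pp_022_t t 35 61 1 = true := ex3_a s389_pp_022_t s369_pp_022_t

theorem s391_pp_022_t : ∃ t, chk3 f_pp_022_t t 35 121 3 = true := ex3_b k64_pp_022_t k65_pp_022_t

theorem s392_pp_022_t : ∃ t, chk3 f_pp_022_t t 35 60 3 = true := ex3_b k63_pp_022_t s391_pp_022_t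

theorem s393_pp_022_t : ∃ t, chk3 f_pp_022_t t 287 243 2 = true := ex3_c k61_pp_022_t k62_pp_022_t

theorem s394_pp_022_t : ∃ t, chk3 f_pp_022_t t 287 121 2 = true := ex3_b k60_pp_022_t s393_pp_022_t

theorem s395_pp_022_t : ∃ t, chk3 f_pp_022_t t 287 60 2 = true := ex3_b k59_pp_022_t s394_pp_022_t

theorem s396_pp_022_t : ∃ t, chk3 f_pp_022_t t 143 60 2 = true := ex3_a k58_pp_022_t s395_pp_022_t

theorem s397_pp_022_t : ∃ t, chk3 f_pp_022_t t 71 60 2 = true := ex3_a k57_pp_022_t s396_pp_022_t

theorem s398_pp_022_t : ∃ t, chk3 f_pp_022_t t 35 60 2 = true := ex3_a k56_pp_022_t s397_pp_022_t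

theorem s399_pp_022_t : ∃ t, chk3 f_pp_022_t t 35 60 1 = true := ex3_c s398_pp_022_t s392_pp_022_t

theorem s400_pp_022_t : ∃ t, chk3 f_pp_022_t t 35 30 1 = true := ex3_b s399_pp_022_t s390_pp_022_t

theorem s401_pp_022_t : ∃ t, chk3 f_pp_022_t t 139 123 3 = true := ex3_b k54_pp_022_t k55_pp_022_t

theorem s402_pp_022_t : ∃ t, chk3 f_pp_022_t t 69 123 3 = true := ex3_a k53_pp_022_t s401_pp_022_t

theorem s403_pp_022_t : ∃ t, chk3 f_pp_022_t t 34 123 3 = true := ex3_a k52_pp_022_t s402_pp_022_t

theorem s404_pp_022_t : ∃ t, chk3 f_pp_022_t t 34 122 3 = true := ex3_a k50_pp_022_t k51_pp_022_t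

theorem s405_pp_022_t : ∃ t, chk3 f_pp_022_t t 34 61 3 = true := ex3_b s404_pp_022_t s403_pp_022_t

theorem s406_pp_022_t : ∃ t, chk3 f_pp_022_t t 278 989 4 = true := ex3_a k45_pp_022_t k46_pp_022_t

theorem s407_pp_022_t : ∃ t, chk3 f_pp_022_t t 278 989 2 = true := ex3_c s406_pp_022_t k47_pp_022_t

theorem s408_pp_022_t : ∃ t, chk3 f_pp_022_t t 139 989 2 = true := ex3_a s407_pp_022_t k48_pp_022_t

theorem s409_pp_022_t : ∃ t, chk3 f_pp_022_t t 279 988 2 = true := ex3_a k43_pp_022_t k44_pp_022_t

theorem s410_pp_022_t : ∃ t, chk3 f_pp_022_t t 139 988 2 = true := ex3_a k42_pp_022_t s409_pp_022_t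

theorem s411_pp_022_t : ∃ t, chk3 f_pp_022_t t 139 494 2 = true := ex3_b s410_pp_022_t s408_pp_022_t

theorem s412_pp_022_t : ∃ t, chk3 f_pp_022_t t 139 247 2 = true := ex3_b s411_pp_022_t k49_pp_022_t

theorem s413_pp_022_t : ∃ t, chk3 f_pp_022_t t 555 495 2 = true := ex3_b k40_pp_022_t k41_pp_022_t

theorem s414_pp_022_t : ∃ t, chk3 f_pp_022_t t 277 495 2 = true := ex3_a k39_pp_022_t s413_pp_022_t

theorem s415_pp_022_t : ∃ t, chk3 f_pp_022_t t 277 247 2 = true := ex3_b k38_pp_022_t s414_pp_022_t

theorem s416_pp_022_t : ∃ t, chk3 f_pp_022_t t 138 247 2 = true := ex3_a k37_pp_022_t s415_pp_022_t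

theorem s417_pp_022_t : ∃ t, chk3 f_pp_022_t t 69 247 2 = true := ex3_a s416_pp_022_t s412_pp_022_t

theorem s418_pp_022_t : ∃ t, chk3 f_pp_022_t t 279 493 2 = true := ex3_b k35_pp_022_t k36_pp_022_t

theorem s419_pp_022_t : ∃ t, chk3 f_pp_022_t t 139 493 2 = true := ex3_a k34_pp_022_t s418_pp_022_t

theorem s420_pp_022_t : ∃ t, chk3 f_pp_022_t t 69 493 2 = true := ex3_a k33_pp_022_t s419_pp_022_t

theorem s421_pp_022_t : ∃ t, chk3 f_pp_022_t t 69 246 2 = true := ex3_b k32_pp_022_t s420_pp_022_t

theorem s422_pp_022_t : ∃ t, chk3 f_pp_022_t t 69 123 2 = true := ex3_b s421_pp_022_t s417_pp_022_t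

theorem s423_pp_022_t : ∃ t, chk3 f_pp_022_t t 69 61 2 = true := ex3_b k31_pp_022_t s422_pp_022_t

theorem s424_pp_022_t : ∃ t, chk3 f_pp_022_t t 34 61 2 = true := ex3_a k30_pp_022_t s423_pp_022_t

theorem s425_pp_022_t : ∃ t, chk3 f_pp_022_t t 34 61 1 = true := ex3_c s424_pp_022_t s405_pp_022_t

theorem s426_pp_022_t : ∃ t, chk3 f_pp_022_t t 34 60 2 = true := ex3_a k27_pp_022_t k28_pp_022_t

theorem s427_pp_022_t : ∃ t, chk3 f_pp_022_t t 34 60 1 = true := ex3_c s426_pp_022_t k29_pp_022_t

theorem s428_pp_022_t : ∃ t, chk3 f_pp_022_t t 34 30 1 = true := ex3_b s427_pp_022_t s425_pp_022_t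

theorem s429_pp_022_t : ∃ t, chk3 f_pp_022_t t 17 30 1 = true := ex3_a s428_pp_022_t s400_pp_022_t

theorem s430_pp_022_t : ∃ t, chk3 f_pp_022_t t 17 15 1 = true := ex3_b s429_pp_022_t k104_pp_022_t

theorem s431_pp_022_t : ∃ t, chk3 f_pp_022_t t 8 15 1 = true := ex3_a k26_pp_022_t s430_pp_022_t

theorem s432_pp_022_t : ∃ t, chk3 f_pp_022_t t 35 29 1 = true := ex3_c k24_pp_022_t k25_pp_022_t

theorem s433_pp_022_t : ∃ t, chk3 f_pp_022_t t 34 29 1 = true := ex3_c k22_pp_022_t k23_pp_022_t

theorem s434_pp_022_t : ∃ t, chk3 f_pp_022_t t 17 29 1 = true := ex3_a s433_pp_022_t s432_pp_022_t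

theorem s435_pp_022_t : ∃ t, chk3 f_pp_022_t t 17 28 1 = true := ex3_c k20_pp_022_t k21_pp_022_t

theorem s436_pp_022_t : ∃ t, chk3 f_pp_022_t t 17 14 1 = true := ex3_b s435_pp_022_t s434_pp_022_t

theorem s437_pp_022_t : ∃ t, chk3 f_pp_022_t t 33 29 1 = true := ex3_a k18_pp_022_t k19_pp_022_t

theorem s438_pp_022_t : ∃ t, chk3 f_pp_022_t t 16 29 1 = true := ex3_a k17_pp_022_t s437_pp_022_t

theorem s439_pp_022_t : ∃ t, chk3 f_pp_022_t t 16 57 1 = true := ex3_b k15_pp_022_t k16_pp_022_t

theorem s440_pp_022_t : ∃ t, chk3 f_pp_022_t t 16 28 1 = true := ex3_b k14_pp_022_t s439_pp_022_t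

theorem s441_pp_022_t : ∃ t, chk3 f_pp_022_t t 16 14 1 = true := ex3_b s440_pp_022_t s438_pp_022_t

theorem s442_pp_022_t : ∃ t, chk3 f_pp_022_t t 8 14 1 = true := ex3_a s441_pp_022_t s436_pp_022_t

theorem s443_pp_022_t : ∃ t, chk3 f_pp_022_t t 8 7 1 = true := ex3_b s442_pp_022_t s431_pp_022_t

theorem s444_pp_022_t : ∃ t, chk3 f_pp_022_t t 4 7 1 = true := ex3_a s443_pp_022_t s353_pp_022_t

theorem s445_pp_022_t : ∃ t, chk3 f_pp_022_t t 18 13 1 = true := ex3_c k11_pp_022_t k12_pp_022_t

theorem s446_pp_022_t : ∃ t, chk3 f_pp_022_t t 9 13 1 = true := ex3_a s445_pp_022_t k13_pp_022_t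

theorem s447_pp_022_t : ∃ t, chk3 f_pp_022_t t 9 6 1 = true := ex3_b k10_pp_022_t s446_pp_022_t

theorem s448_pp_022_t : ∃ t, chk3 f_pp_022_t t 17 13 1 = true := ex3_a k8_pp_022_t k9_pp_022_t

theorem s449_pp_022_t : ∃ t, chk3 f_pp_022_t t 16 27 1 = true := ex3_a k6_pp_022_t k7_pp_022_t

theorem s450_pp_022_t : ∃ t, chk3 f_pp_022_t t 16 13 1 = true := ex3_b k5_pp_022_t s449_pp_022_t

theorem s451_pp_022_t : ∃ t, chk3 f_pp_022_t t 8 13 1 = true := ex3_a s450_pp_022_t s448_pp_022_t

theorem s452_pp_022_t : ∃ t, chk3 f_pp_022_t t 8 6 1 = true := ex3_b k4_pp_022_t s451_pp_022_t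

theorem s453_pp_022_t : ∃ t, chk3 f_pp_022_t t 4 6 1 = true := ex3_a s452_pp_022_t s447_pp_022_t

theorem s454_pp_022_t : ∃ t, chk3 f_pp_022_t t 4 3 1 = true := ex3_b s453_pp_022_t s444_pp_022_t

theorem s455_pp_022_t : ∃ t, chk3 f_pp_022_t t 2 3 1 = true := ex3_a s454_pp_022_t s263_pp_022_t

theorem s456_pp_022_t : ∃ t, chk3 f_pp_022_t t 5 5 1 = true := ex3_b k2_pp_022_t k3_pp_022_t

theorem s457_pp_022_t : ∃ t, chk3 f_pp_022_t t 5 2 1 = true := ex3_b k1_pp_022_t s456_pp_022_t

theorem s458_pp_022_t : ∃ t, chk3 f_pp_022_t t 2 2 1 = true := ex3_a k0_pp_022_t s457_pp_022_t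

theorem s459_pp_022_t : ∃ t, chk3 f_pp_022_t t 2 1 1 = true := ex3_b s458_pp_022_t s455_pp_022_t

theorem s460_pp_022_t : ∃ t, chk3 f_pp_022_t t 1 1 1 = true := ex3_a s459_pp_022_t s240_pp_022_t

theorem c_pp_022_t : CertNE 0 536870912 0 536870912 858993459 64424510 3 eng mog cd0q0 cd0q2 pd2 true true true .pp 0 2 2
    ndB0q0 ndB0q2 pcB2 cut_pp_022_t Ext.none :=
  certNE0 (fam := true) (s1 := true) (s2 := true) (a := 0) (b := 2) (c := 2) (cn := .pp) (n1 := ndB0q0) (n2 := ndB0q2) (pc := pcB2) (cut := cut_pp_022_t) (xt := Ext.none) (P1 := 0) (W1 := 536870912) (P2 := 0) (W2 := 536870912) (P3 := 858993459) (W3 := 64424510) (N0 := 3) (En := eng) (mo := mog) (C1 := cd0q0) (C2 := cd0q2) (C3 := pd2)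
    rfl s460_pp_022_t

end Pool.Agent.Strip051.G.I8000_8600.Tab.CS.BA00

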