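import Pool.Agent.Strip051.G.I8000_8600.Tab
import Pool.Agent.Strip051.PB.StripB

/-! # Strips, near vertex: certificates 2 (generated) -/

set_option linter.all false
set_option maxRecDepth 100000

namespace Pool.Agent.Strip051.G.I8000_8600.Tab.CS.BA00

open Pool.Agent.Strip051.PB Pool.Agent.Strip051.PB.T
open Pool.Agent.Strip051.G.I8000_8600.Tab

noncomputable def cut_pp_023_s : Cut := Cut.of [[⟨4, 0, 0, 1449551462⟩]]

noncomputable def f_pp_023_s : ℕ → ℕ → ℕ → ℕ → Bool := onCell 0 536870912 0 536870912 858993459 64424510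
    (rowNE 3 eng mog cd0q0 cd0q2 pd3 0 true true true .up 0 2 3 (qsf 0 536870912 0 536870912 3) ndB0q0 ndB0q2 pcB3 cut_pp_023_s Ext.none)

def k0_pp_023_s : ∃ t, chk3 f_pp_023_s t 1 1 1 = true :=
  ⟨(l 6), by decide +kernel⟩

theorem c_pp_023_s : CertNE 0 536870912 0 536870912 858993459 64424510 3 eng mog cd0q0 cd0q2 pd3 true true true .up 0 2 3
    ndB0q0 ndB0q2 pcB3 cut_pp_023_s Ext.none :=
  certNE0 (fam := true) (s1 := true) (s2 := true) (a := 0) (b := 2) (c := 3) (cn := .up) (n1 := ndB0q0) (n2 := ndB0q2) (pc := pcB3) (cut := cut_pp_023_s) (xt := Ext.none) (P1 := 0) (W1 := 536870912) (P2 := 0) (W2 := 536870912) (P3 := 858993459) (W3 := 64424510) (N0 := 3) (En := eng) (mo := mog) (C1 := cd0q0) (C2 := cd0q2) (C3 := pd3)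
    rfl k0_pp_023_s

noncomputable def cut_pp_023_t : Cut := Cut.of [[⟨3, 0, 0, 2845415833⟩]]

noncomputable def f_pp_023_t : ℕ → ℕ → ℕ → ℕ → Bool := onCell 1610612736 536870912 0 536870912 858993459 64424510
    (rowNE 3 eng mog cd0q0 cd0q2 pd3 2 true true true .up 0 2 3 (qsf 0 536870912 0 536870912 3) ndB0q0 ndB0q2 pcB3 cut_pp_023_t Ext.none)

def k0_pp_023_t : ∃ t, chk3 f_pp_023_t t 8 4 1 = true :=
  ⟨(b (a (c (c (a (b (l 16511328) (l 16552368)) (l 16560456)) (a (l 16548784) (l 16575688))) (a (a (l 16635600) (l 16480232)) (a (l 16513168) (l 16524688)))) (c (a (b (l 16576032) (l 16674920)) (c (l 16655656) (l 16667192))) (a (c (l 16616624) (l 16612960)) (c (l 16617464) (l 16653064))))) (c (a (a (c (b (l 16595592) (l 16662336)) (b (l 16607360) (l 16649944))) (b (c (l 16621384) (l 16631824)) (c (l 16707360) (l 16609864)))) (a (c (b (l 16645896) (b (l 16677232) (l 16699224))) (c (l 16704168) (l 16697720))) (a (b (l 16688200) (l 16738408)) (b (l 16720184) (l 16759104))))) (b (a (a (l 16523720)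 (l 16650576)) (a (l 16670976) (l 16689856))) (a (a (c (l 16659920) (l 16671264)) (c (l 16660336) (l 16669984))) (a (c (l 16701264) (l 16709136)) (c (l 16719856) (l 16725848))))))), by decide +kernel⟩

def k1_pp_023_t : ∃ t, chk3 f_pp_023_t t 8 5 1 = true :=
  ⟨(a (a (b (b (c (c (b (l 16677520) (l 16723664)) (c (l 16631136) (l 16655008))) (c (l 16701704) (l 16708792))) (c (c (b (l 16760152) (a (l 16750128) (l 16760776))) (b (l 16731608) (l 16756768))) (c (b (l 16735000) (l 16758264)) (l 16754656)))) (b (b (a (c (c (b (l 16770448) (l 93650348743)) (l 90965983399)) (c (l 85597273655) (l 83449795351))) (b (c (a (l 93650374215) (l 94724105095)) (l 88818518023)) (l 4))) (l 4)) (l 4))) (b (b (c (c (b (l 16700416) (l 16724864)) (l 16769240)) (c (l 16721624) (l 16727080))) (b (a (c (l 16756360) (l 16750528)) (c (l 16756016) (l 16759232))) (c (c (a (b (l 16764536) (l 94187239127)) (b (l 16773600) (l 97408444631))) (a (l 16759920) (l 90965980327))) (c (a (l 16770976) (l 89355371863)) (a (l 16771624)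 (l 87207891799)))))) (l 4))) (b (b (a (c (c (a (l 16728744) (l 16739096)) (l 16747344)) (c (l 16740200) (l 16743960))) (a (c (c (l 16749168) (l 16751080)) (l 16754488)) (c (b (l 16748504) (a (l 16768064) (l 50163912839))) (b (l 16753152) (l 66806823175))))) (a (a (b (c (b (l 16759752) (l 16792504)) (l 16767408)) (b (c (a (l 94187239495) (l 4)) (l 94187224551)) (l 4))) (b (b (c (l 16769264) (l 16770528)) (c (c (l 93650360807) (l 16773280)) (l 90966006743))) (l 4))) (b (a (b (c (c (l 95260981463) (l 16775776)) (l 16754928)) (l 4)) (l 4)) (l 4)))) (l 4))), by decide +kernel⟩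

def k2_pp_023_t : ∃ t, chk3 f_pp_023_t t 9 2 1 = true :=
  ⟨(b (a (a (b (c (c (l 16680448) (b (l 16632168) (l 16663536))) (c (l 16616768) (l 16670512))) (c (a (b (l 16626040) (c (l 16725376) (l 16728896))) (b (l 16636408) (l 16746400))) (b (l 16686320) (c (l 16737136) (l 16741208))))) (b (c (c (l 16724768) (b (l 16654112) (l 16684072))) (b (l 16668672) (l 16694904))) (c (b (c (l 16712104) (l 16716176)) (c (b (l 16739472) (l 16758984)) (l 16751024))) (b (c (l 16720840) (l 16726016)) (c (l 16753112) (l 16755440)))))) (a (c (c (b (l 16725304) (b (a (l 16726456) (l 16735536)) (b (l 16757152) (a (l 16771072) (l 93113482423))))) (b (l 16688728) (b (l 16733656) (a (l 16762872) (l 75396733991))))) (b (b (l 16684968) (l 16710504)) (b (l 16759176) (b (l 16760432) (c (l 87207894295) (l 85060414183)))))) (b (c (a (l 16763176) (l 16772136)) (b (l 16699872) (l 16724832))) (b (c (c (l 16748320) (l 16749648)) (c (l 16751136) (l 16752720))) (a (b (c (l 16769272) (l 16770288)) (b (c (l 96871593255) (l 16771936))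 (l 4))) (b (c (l 88281654839) (l 87207915095)) (l 4))))))) (b (b (a (a (a (c (b (l 16757816) (c (l 92576600087) (l 92039734567))) (c (l 73249246231) (l 74322991431))) (b (c (l 16761312) (l 16768256)) (b (c (l 96334713799) (l 95260976743)) (l 4)))) (b (a (c (a (l 16794664) (l 92039750311)) (l 84523554487)) (b (c (l 93650371127) (l 16776192)) (l 4))) (l 4))) (l 4)) (l 4)) (l 4))), by decide +kernel⟩

def k3_pp_023_t : ∃ t, chk3 f_pp_023_t t 5 2 1 = true :=
  ⟨(a (b (a (b (b (c (a (l 16708200) (l 16702816)) (a (l 16713712) (l 16726680))) (c (a (a (l 16731248) (l 16738952)) (l 16791576)) (a (l 16717272) (l 16750912)))) (b (c (a (a (l 16760288) (b (l 16760008) (l 79154858631))) (a (b (l 16766792) (l 94724098135)) (b (l 16772712) (l 113514585015)))) (c (a (l 46405724775) (a (l 84523547239) (l 91502854439))) (a (l 16764880) (l 86670995399)))) (a (a (b (c (l 96334705271) (l 95797835623)) (l 4)) (l 4)) (l 4)))) (b (l 2) (l 2))) (l 4)) (l 2)), by decide +kernel⟩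

def k4_pp_023_t : ∃ t, chk3 f_pp_023_t t 2 3 1 = true :=
  ⟨(l 4), by decide +kernel⟩

def k5_pp_023_t : ∃ t, chk3 f_pp_023_t t 3 1 1 = true :=
  ⟨(l 2), by decide +kernel⟩

theorem s6_pp_023_t : ∃ t, chk3 f_pp_023_t t 8 2 1 = true := ex3_b k0_pp_023_t k1_pp_023_t

theorem s7_pp_023_t : ∃ t, chk3 f_pp_023_t t 4 2 1 = true := ex3_a s6_pp_023_t k2_pp_023_t

theorem s8_pp_023_t : ∃ t, chk3 f_pp_023_t t 2 2 1 = true := ex3_a s7_pp_023_t k3_pp_023_t

theorem s9_pp_023_t : ∃ t, chk3 f_pp_023_t t 2 1 1 = true := ex3_b s8_pp_023_t k4_pp_023_t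

theorem s10_pp_023_t : ∃ t, chk3 f_pp_023_t t 1 1 1 = true := ex3_a s9_pp_023_t k5_pp_023_t

theorem c_pp_023_t : CertNE 0 536870912 0 536870912 858993459 64424510 3 eng mog cd0q0 cd0q2 pd3 true true true .up 0 2 3
    ndB0q0 ndB0q2 pcB3 cut_pp_023_t Ext.none :=
  certNE2 (fam := true) (s1 := true) (s2 := true) (a := 0) (b := 2) (c := 3) (cn := .up) (n1 := ndB0q0) (n2 := ndB0q2) (pc := pcB3) (cut := cut_pp_023_t) (xt := Ext.none) (P1 := 0) (W1 := 536870912) (P2 := 0) (W2 := 536870912) (P3 := 858993459) (W3 := 64424510) (N0 := 3) (En := eng) (mo := mog) (C1 := cd0q0) (C2 := cd0q2) (C3 := pd3)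
    rfl (fun _ => rfl) s10_pp_023_t

noncomputable def cut_pp_101_s : Cut := Cut.of [[⟨4, 0, 0, 1449551462⟩]]

noncomputable def f_pp_101_s : ℕ → ℕ → ℕ → ℕ → Bool := onCell 536870912 536870912 0 536870912 858993459 64424510
    (rowNE 3 eng mog cd0q1 cd0q0 pd1 0 true true true .npn 1 0 1 (qsf 536870912 536870912 0 536870912 1) ndB0q1 ndB0q0 pcB1 cut_pp_101_s Ext.none)

def k0_pp_101_s : ∃ t, chk3 f_pp_101_s t 1 1 1 = true :=
  ⟨(l 6), by decide +kernel⟩

theorem c_pp_101_s : CertNE 536870912 536870912 0 536870912 858993459 64424510 3 eng mog cd0q1 cd0q0 pd1 true true true .npn 1 0 1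
    ndB0q1 ndB0q0 pcB1 cut_pp_101_s Ext.none :=
  certNE0 (fam := true) (s1 := true) (s2 := true) (a := 1) (b := 0) (c := 1) (cn := .npn) (n1 := ndB0q1) (n2 := ndB0q0) (pc := pcB1) (cut := cut_pp_101_s) (xt := Ext.none) (P1 := 536870912) (W1 := 536870912) (P2 := 0) (W2 := 536870912) (P3 := 858993459) (W3 := 64424510) (N0 := 3) (En := eng) (mo := mog) (C1 := cd0q1) (C2 := cd0q0) (C3 := pd1)
    rfl k0_pp_101_s

noncomputable def cut_pp_101_t : Cut := Cut.of [[⟨3, 0, 0, 2845415833⟩]]

noncomputable def f_pp_101_t : ℕ → ℕ → ℕ → ℕ → Bool := onCell 536870912 536870912 0 536870912 858993459 64424510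
    (rowNE 3 eng mog cd0q1 cd0q0 pd1 0 true true true .npn 1 0 1 (qsf 536870912 536870912 0 536870912 1) ndB0q1 ndB0q0 pcB1 cut_pp_101_t Ext.none)

def k0_pp_101_t : ∃ t, chk3 f_pp_101_t t 1 1 1 = true :=
  ⟨(a (l 4) (l 5)), by decide +kernel⟩

theorem c_pp_101_t : CertNE 536870912 536870912 0 536870912 858993459 64424510 3 eng mog cd0q1 cd0q0 pd1 true true true .npn 1 0 1
    ndB0q1 ndB0q0 pcB1 cut_pp_101_t Ext.none :=
  certNE0 (fam := true) (s1 := true) (s2 := true) (a := 1) (b := 0) (c := 1) (cn := .npn) (n1 := ndB0q1) (n2 := ndB0q0) (pc := pcB1) (cut := cut_pp_101_t) (xt := Ext.none) (P1 := 536870912) (W1 := 536870912) (P2 := 0) (W2 := 536870912) (P3 := 858993459) (W3 := 64424510) (N0 := 3) (En := eng) (mo := mog) (C1 := cd0q1) (C2 := cd0q0) (C3 := pd1)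
    rfl k0_pp_101_t

noncomputable def cut_pp_102_s : Cut := Cut.of [[⟨4, 0, 0, 1449551462⟩]]

noncomputable def f_pp_102_s : ℕ → ℕ → ℕ → ℕ → Bool := onCell 536870912 536870912 0 536870912 858993459 64424510
    (rowNE 3 eng mog cd0q1 cd0q0 pd2 0 true true true .npp 1 0 2 (qsf 536870912 536870912 0 536870912 2) ndB0q1 ndB0q0 pcB2 cut_pp_102_s Ext.none)

def k0_pp_102_s : ∃ t, chk3 f_pp_102_s t 1 1 1 = true :=
  ⟨(l 6), by decide +kernel⟩

theorem c_pp_102_s : CertNE 536870912 536870912 0 536870912 858993459 64424510 3 eng mog cd0q1 cd0q0 pd2 true true true .npp 1 0 2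
    ndB0q1 ndB0q0 pcB2 cut_pp_102_s Ext.none :=
  certNE0 (fam := true) (s1 := true) (s2 := true) (a := 1) (b := 0) (c := 2) (cn := .npp) (n1 := ndB0q1) (n2 := ndB0q0) (pc := pcB2) (cut := cut_pp_102_s) (xt := Ext.none) (P1 := 536870912) (W1 := 536870912) (P2 := 0) (W2 := 536870912) (P3 := 858993459) (W3 := 64424510) (N0 := 3) (En := eng) (mo := mog) (C1 := cd0q1) (C2 := cd0q0) (C3 := pd2)
    rfl k0_pp_102_s

noncomputable def cut_pp_102_t : Cut := Cut.of [[⟨3, 0, 0, 2845415833⟩]]

noncomputable def f_pp_102_t : ℕ → ℕ → ℕ → ℕ → Bool := onCell 536870912 536870912 0 536870912 858993459 64424510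
    (rowNE 3 eng mog cd0q1 cd0q0 pd2 0 true true true .npp 1 0 2 (qsf 536870912 536870912 0 536870912 2) ndB0q1 ndB0q0 pcB2 cut_pp_102_t Ext.none)

def k0_pp_102_t : ∃ t, chk3 f_pp_102_t t 1 1 1 = true :=
  ⟨(a (l 4) (l 5)), by decide +kernel⟩

theorem c_pp_102_t : CertNE 536870912 536870912 0 536870912 858993459 64424510 3 eng mog cd0q1 cd0q0 pd2 true true true .npp 1 0 2
    ndB0q1 ndB0q0 pcB2 cut_pp_102_t Ext.none :=
  certNE0 (fam := true) (s1 := true) (s2 := true) (a := 1) (b := 0) (c := 2) (cn := .npp) (n1 := ndB0q1) (n2 := ndB0q0) (pc := pcB2) (cut := cut_pp_102_t) (xt := Ext.none) (P1 := 536870912) (W1 := 536870912) (P2 := 0) (W2 := 536870912) (P3 := 858993459) (W3 := 64424510) (N0 := 3) (En := eng) (mo := mog) (C1 := cd0q1) (C2 := cd0q0) (C3 := pd2)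
    rfl k0_pp_102_t

noncomputable def cut_pp_112_s : Cut := Cut.of [[⟨4, 0, 0, 1449551462⟩]]

noncomputable def f_pp_112_s : ℕ → ℕ → ℕ → ℕ → Bool := onCell 536870912 536870912 536870912 536870912 858993459 64424510
    (rowNE 3 eng mog cd0q1 cd0q1 pd2 0 true true true .dn 1 1 2 (qsf 536870912 536870912 536870912 536870912 2) ndB0q1 ndB0q1 pcB2 cut_pp_112_s Ext.none)

def k0_pp_112_s : ∃ t, chk3 f_pp_112_s t 1 1 1 = true :=
  ⟨(l 4), by decide +kernel⟩

theorem c_pp_112_s : CertNE 536870912 536870912 536870912 536870912 858993459 64424510 3 eng mog cd0q1 cd0q1 pd2 true true true .dn 1 1 2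
    ndB0q1 ndB0q1 pcB2 cut_pp_112_s Ext.none :=
  certNE0 (fam := true) (s1 := true) (s2 := true) (a := 1) (b := 1) (c := 2) (cn := .dn) (n1 := ndB0q1) (n2 := ndB0q1) (pc := pcB2) (cut := cut_pp_112_s) (xt := Ext.none) (P1 := 536870912) (W1 := 536870912) (P2 := 536870912) (W2 := 536870912) (P3 := 858993459) (W3 := 64424510) (N0 := 3) (En := eng) (mo := mog) (C1 := cd0q1) (C2 := cd0q1) (C3 := pd2)
    rfl k0_pp_112_s

noncomputable def cut_pp_112_t : Cut := Cut.of [[⟨3, 0, 0, 2845415833⟩]]

noncomputable def f_pp_112_t : ℕ → ℕ → ℕ → ℕ → Bool := onCell 536870912 536870912 536870912 536870912 858993459 64424510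
    (rowNE 3 eng mog cd0q1 cd0q1 pd2 0 true true true .dn 1 1 2 (qsf 536870912 536870912 536870912 536870912 2) ndB0q1 ndB0q1 pcB2 cut_pp_112_t Ext.none)

def k0_pp_112_t : ∃ t, chk3 f_pp_112_t t 1 1 1 = true :=
  ⟨(l 4), by decide +kernel⟩

theorem c_pp_112_t : CertNE 536870912 536870912 536870912 536870912 858993459 64424510 3 eng mog cd0q1 cd0q1 pd2 true true true .dn 1 1 2
    ndB0q1 ndB0q1 pcB2 cut_pp_112_t Ext.none :=
  certNE0 (fam := true) (s1 := true) (s2 := true) (a := 1) (b := 1) (c := 2) (cn := .dn) (n1 := ndB0q1) (n2 := ndB0q1) (pc := pcB2) (cut := cut_pp_112_t) (xt := Ext.none) (P1 := 536870912) (W1 := 536870912) (P2 := 536870912) (W2 := 536870912) (P3 := 858993459) (W3 := 64424510) (N0 := 3) (En := eng) (mo := mog) (C1 := cd0q1) (C2 := cd0q1) (C3 := pd2)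
    rfl k0_pp_112_t

noncomputable def cut_pp_113_s : Cut := Cut.of [[⟨4, 0, 0, 1449551462⟩]]

noncomputable def f_pp_113_s : ℕ → ℕ → ℕ → ℕ → Bool := onCell 536870912 536870912 536870912 536870912 858993459 64424510
    (rowNE 3 eng mog cd0q1 cd0q1 pd3 0 true true true .nn 1 1 3 (qsf 536870912 536870912 536870912 536870912 3) ndB0q1 ndB0q1 pcB3 cut_pp_113_s Ext.none)

def k0_pp_113_s : ∃ t, chk3 f_pp_113_s t 1 1 1 = true :=
  ⟨(l 4), by decide +kernel⟩

theorem c_pp_113_s : CertNE 536870912 536870912 536870912 536870912 858993459 64424510 3 eng mog cd0q1 cd0q1 pd3 true true true .nn 1 1 3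
    ndB0q1 ndB0q1 pcB3 cut_pp_113_s Ext.none :=
  certNE0 (fam := true) (s1 := true) (s2 := true) (a := 1) (b := 1) (c := 3) (cn := .nn) (n1 := ndB0q1) (n2 := ndB0q1) (pc := pcB3) (cut := cut_pp_113_s) (xt := Ext.none) (P1 := 536870912) (W1 := 536870912) (P2 := 536870912) (W2 := 536870912) (P3 := 858993459) (W3 := 64424510) (N0 := 3) (En := eng) (mo := mog) (C1 := cd0q1) (C2 := cd0q1) (C3 := pd3)
    rfl k0_pp_113_s

noncomputable def cut_pp_113_t : Cut := Cut.of [[⟨3, 0, 0, 2845415833⟩]]

noncomputable def f_pp_113_t : ℕ → ℕ → ℕ → ℕ → Bool := onCell 536870912 536870912 536870912 536870912 858993459 64424510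
    (rowNE 3 eng mog cd0q1 cd0q1 pd3 0 true true true .nn 1 1 3 (qsf 536870912 536870912 536870912 536870912 3) ndB0q1 ndB0q1 pcB3 cut_pp_113_t Ext.none)

def k0_pp_113_t : ∃ t, chk3 f_pp_113_t t 1 1 1 = true :=
  ⟨(l 4), by decide +kernel⟩

theorem c_pp_113_t : CertNE 536870912 536870912 536870912 536870912 858993459 64424510 3 eng mog cd0q1 cd0q1 pd3 true true true .nn 1 1 3
    ndB0q1 ndB0q1 pcB3 cut_pp_113_t Ext.none :=
  certNE0 (fam := true) (s1 := true) (s2 := true) (a := 1) (b := 1) (c := 3) (cn := .nn) (n1 := ndB0q1) (n2 := ndB0q1) (pc := pcB3) (cut := cut_pp_113_t) (xt := Ext.none) (P1 := 536870912) (W1 := 536870912) (P2 := 536870912) (W2 := 536870912) (P3 := 858993459) (W3 := 64424510) (N0 := 3) (En := eng) (mo := mog) (C1 := cd0q1) (C2 := cd0q1) (C3 := pd3)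
    rfl k0_pp_113_t

noncomputable def cut_pp_123_s : Cut := Cut.of [[⟨4, 0, 0, 1449551462⟩]]

noncomputable def f_pp_123_s : ℕ → ℕ → ℕ → ℕ → Bool := onCell 536870912 536870912 0 536870912 858993459 64424510
    (rowNE 3 eng mog cd0q1 cd0q2 pd3 0 true true true .npn 1 2 3 (qsf 536870912 536870912 0 536870912 3) ndB0q1 ndB0q2 pcB3 cut_pp_123_s Ext.none)

def k0_pp_123_s : ∃ t, chk3 f_pp_123_s t 1 1 1 = true :=
  ⟨(l 6), by decide +kernel⟩

theorem c_pp_123_s : CertNE 536870912 536870912 0 536870912 858993459 64424510 3 eng mog cd0q1 cd0q2 pd3 true true true .npn 1 2 3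
    ndB0q1 ndB0q2 pcB3 cut_pp_123_s Ext.none :=
  certNE0 (fam := true) (s1 := true) (s2 := true) (a := 1) (b := 2) (c := 3) (cn := .npn) (n1 := ndB0q1) (n2 := ndB0q2) (pc := pcB3) (cut := cut_pp_123_s) (xt := Ext.none) (P1 := 536870912) (W1 := 536870912) (P2 := 0) (W2 := 536870912) (P3 := 858993459) (W3 := 64424510) (N0 := 3) (En := eng) (mo := mog) (C1 := cd0q1) (C2 := cd0q2) (C3 := pd3)
    rfl k0_pp_123_s

noncomputable def cut_pp_123_t : Cut := Cut.of [[⟨3, 0, 0, 2845415833⟩]]

noncomputable def f_pp_123_t : ℕ → ℕ → ℕ → ℕ → Bool := onCell 536870912 536870912 0 536870912 858993459 64424510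
    (rowNE 3 eng mog cd0q1 cd0q2 pd3 0 true true true .npn 1 2 3 (qsf 536870912 536870912 0 536870912 3) ndB0q1 ndB0q2 pcB3 cut_pp_123_t Ext.none)

def k0_pp_123_t : ∃ t, chk3 f_pp_123_t t 1 1 1 = true :=
  ⟨(a (b (b (a (b (b (a (c (a (a (c (l 16735664) (l 16736672)) (l 16749160)) (a (a (l 16758280) (l 16764080)) (a (l 64659349063) (l 86134166503)))) (c (a (l 16764440) (a (l 16760856) (l 77544229031))) (a (l 16742976) (a (l 16759672) (l 16750736))))) (a (a (c (b (b (l 80765565767) (l 104924752583)) (l 4)) (a (l 93650342199) (l 100092779191))) (l 4)) (l 4))) (a (a (c (a (a (l 16757104) (l 16763408)) (b (l 16766552) (b (l 78081217863) (l 107072237975)))) (a (c (l 16760712) (l 16760728)) (c (b (l 16766632) (l 90966000455)) (l 77007350295)))) (a (b (c (b (l 78618086407) (l 105998495943)) (a (l 16775016) (l 95260976311))) (l 4)) (l 4))) (l 4))) (a (a (b (a (b (c (a (l 83449828359) (l 96871586951)) (c (l 91502867799) (l 16744008))) (l 4)) (l 4)) (l 4)) (l 4)) (l 4))) (l 4)) (l 4)) (l 4)) (l 4)),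 by decide +kernel⟩

theorem c_pp_123_t : CertNE 536870912 536870912 0 536870912 858993459 64424510 3 eng mog cd0q1 cd0q2 pd3 true true true .npn 1 2 3
    ndB0q1 ndB0q2 pcB3 cut_pp_123_t Ext.none :=
  certNE0 (fam := true) (s1 := true) (s2 := true) (a := 1) (b := 2) (c := 3) (cn := .npn) (n1 := ndB0q1) (n2 := ndB0q2) (pc := pcB3) (cut := cut_pp_123_t) (xt := Ext.none) (P1 := 536870912) (W1 := 536870912) (P2 := 0) (W2 := 536870912) (P3 := 858993459) (W3 := 64424510) (N0 := 3) (En := eng) (mo := mog) (C1 := cd0q1) (C2 := cd0q2) (C3 := pd3)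
    rfl k0_pp_123_t

noncomputable def cut_pp_202_s : Cut := Cut.of [[⟨4, 0, 0, 1449551462⟩]]

noncomputable def f_pp_202_s : ℕ → ℕ → ℕ → ℕ → Bool := onCell 0 536870912 0 536870912 858993459 64424510
    (rowNE 3 eng mog cd0q2 cd0q0 pd2 0 true true true .pp 2 0 2 (qsf 0 536870912 0 536870912 2) ndB0q2 ndB0q0 pcB2 cut_pp_202_s Ext.none)

def k0_pp_202_s : ∃ t, chk3 f_pp_202_s t 1 1 1 = true :=
  ⟨(l 5), by decide +kernel⟩

theorem c_pp_202_s : CertNE 0 536870912 0 536870912 858993459 64424510 3 eng mog cd0q2 cd0q0 pd2 true true true .pp 2 0 2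
    ndB0q2 ndB0q0 pcB2 cut_pp_202_s Ext.none :=
  certNE0 (fam := true) (s1 := true) (s2 := true) (a := 2) (b := 0) (c := 2) (cn := .pp) (n1 := ndB0q2) (n2 := ndB0q0) (pc := pcB2) (cut := cut_pp_202_s) (xt := Ext.none) (P1 := 0) (W1 := 536870912) (P2 := 0) (W2 := 536870912) (P3 := 858993459) (W3 := 64424510) (N0 := 3) (En := eng) (mo := mog) (C1 := cd0q2) (C2 := cd0q0) (C3 := pd2)
    rfl k0_pp_202_s

noncomputable def cut_pp_202_t : Cut := Cut.of [[⟨3, 0, 0, 2845415833⟩]]

noncomputable def f_pp_202_t : ℕ → ℕ → ℕ → ℕ → Bool := onCell 0 536870912 0 536870912 858993459 64424510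
    (rowNE 3 eng mog cd0q2 cd0q0 pd2 0 true true true .pp 2 0 2 (qsf 0 536870912 0 536870912 2) ndB0q2 ndB0q0 pcB2 cut_pp_202_t Ext.none)

def k0_pp_202_t : ∃ t, chk3 f_pp_202_t t 1 1 1 = true :=
  ⟨(l 5), by decide +kernel⟩

theorem c_pp_202_t : CertNE 0 536870912 0 536870912 858993459 64424510 3 eng mog cd0q2 cd0q0 pd2 true true true .pp 2 0 2
    ndB0q2 ndB0q0 pcB2 cut_pp_202_t Ext.none :=
  certNE0 (fam := true) (s1 := true) (s2 := true) (a := 2) (b := 0) (c := 2) (cn := .pp) (n1 := ndB0q2) (n2 := ndB0q0) (pc := pcB2) (cut := cut_pp_202_t) (xt := Ext.none) (P1 := 0) (W1 := 536870912) (P2 := 0) (W2 := 536870912) (P3 := 858993459) (W3 := 64424510) (N0 := 3) (En := eng) (mo := mog) (C1 := cd0q2) (C2 := cd0q0) (C3 := pd2)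
    rfl k0_pp_202_t

noncomputable def cut_pp_203_s : Cut := Cut.of [[⟨4, 0, 0, 1449551462⟩]]

noncomputable def f_pp_203_s : ℕ → ℕ → ℕ → ℕ → Bool := onCell 0 536870912 0 536870912 858993459 64424510
    (rowNE 3 eng mog cd0q2 cd0q0 pd3 0 true true true .up 2 0 3 (qsf 0 536870912 0 536870912 3) ndB0q2 ndB0q0 pcB3 cut_pp_203_s Ext.none)

def k0_pp_203_s : ∃ t, chk3 f_pp_203_s t 1 1 1 = true :=
  ⟨(l 5), by decide +kernel⟩

theorem c_pp_203_s : CertNE 0 536870912 0 536870912 858993459 64424510 3 eng mog cd0q2 cd0q0 pd3 true true true .up 2 0 3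
    ndB0q2 ndB0q0 pcB3 cut_pp_203_s Ext.none :=
  certNE0 (fam := true) (s1 := true) (s2 := true) (a := 2) (b := 0) (c := 3) (cn := .up) (n1 := ndB0q2) (n2 := ndB0q0) (pc := pcB3) (cut := cut_pp_203_s) (xt := Ext.none) (P1 := 0) (W1 := 536870912) (P2 := 0) (W2 := 536870912) (P3 := 858993459) (W3 := 64424510) (N0 := 3) (En := eng) (mo := mog) (C1 := cd0q2) (C2 := cd0q0) (C3 := pd3)
    rfl k0_pp_203_s

noncomputable def cut_pp_203_t : Cut := Cut.of [[⟨3, 0, 0, 2845415833⟩]]

noncomputable def f_pp_203_t : ℕ → ℕ → ℕ → ℕ → Bool := onCell 0 536870912 0 536870912 858993459 64424510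
    (rowNE 3 eng mog cd0q2 cd0q0 pd3 0 true true true .up 2 0 3 (qsf 0 536870912 0 536870912 3) ndB0q2 ndB0q0 pcB3 cut_pp_203_t Ext.none)

def k0_pp_203_t : ∃ t, chk3 f_pp_203_t t 1 1 1 = true :=
  ⟨(l 5), by decide +kernel⟩

theorem c_pp_203_t : CertNE 0 536870912 0 536870912 858993459 64424510 3 eng mog cd0q2 cd0q0 pd3 true true true .up 2 0 3
    ndB0q2 ndB0q0 pcB3 cut_pp_203_t Ext.none :=
  certNE0 (fam := true) (s1 := true) (s2 := true) (a := 2) (b := 0) (c := 3) (cn := .up) (n1 := ndB0q2) (n2 := ndB0q0) (pc := pcB3) (cut := cut_pp_203_t) (xt := Ext.none) (P1 := 0) (W1 := 536870912) (P2 := 0) (W2 := 536870912) (P3 := 858993459) (W3 := 64424510) (N0 := 3) (En := eng) (mo := mog) (C1 := cd0q2) (C2 := cd0q0) (C3 := pd3)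
    rfl k0_pp_203_t

noncomputable def cut_pp_213_s : Cut := Cut.of [[⟨4, 0, 0, 1449551462⟩]]

noncomputable def f_pp_213_s : ℕ → ℕ → ℕ → ℕ → Bool := onCell 0 536870912 536870912 536870912 858993459 64424510
    (rowNE 3 eng mog cd0q2 cd0q1 pd3 0 true true true .pnn 2 1 3 (qsf 0 536870912 536870912 536870912 3) ndB0q2 ndB0q1 pcB3 cut_pp_213_s Ext.none)

def k0_pp_213_s : ∃ t, chk3 f_pp_213_s t 1 1 1 = true :=
  ⟨(l 6), by decide +kernel⟩

theorem c_pp_213_s : CertNE 0 536870912 536870912 536870912 858993459 64424510 3 eng mog cd0q2 cd0q1 pd3 true true true .pnn 2 1 3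
    ndB0q2 ndB0q1 pcB3 cut_pp_213_s Ext.none :=
  certNE0 (fam := true) (s1 := true) (s2 := true) (a := 2) (b := 1) (c := 3) (cn := .pnn) (n1 := ndB0q2) (n2 := ndB0q1) (pc := pcB3) (cut := cut_pp_213_s) (xt := Ext.none) (P1 := 0) (W1 := 536870912) (P2 := 536870912) (W2 := 536870912) (P3 := 858993459) (W3 := 64424510) (N0 := 3) (En := eng) (mo := mog) (C1 := cd0q2) (C2 := cd0q1) (C3 := pd3)
    rfl k0_pp_213_s

noncomputable def cut_pp_213_t : Cut := Cut.of [[⟨3, 0, 0, 2845415833⟩]]

noncomputable def f_pp_213_t : ℕ → ℕ → ℕ → ℕ → Bool := onCell 0 536870912 536870912 536870912 858993459 64424510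
    (rowNE 3 eng mog cd0q2 cd0q1 pd3 0 true true true .pnn 2 1 3 (qsf 0 536870912 536870912 536870912 3) ndB0q2 ndB0q1 pcB3 cut_pp_213_t Ext.none)

def k0_pp_213_t : ∃ t, chk3 f_pp_213_t t 1 1 1 = true :=
  ⟨(a (l 5) (l 4)), by decide +kernel⟩

theorem c_pp_213_t : CertNE 0 536870912 536870912 536870912 858993459 64424510 3 eng mog cd0q2 cd0q1 pd3 true true true .pnn 2 1 3
    ndB0q2 ndB0q1 pcB3 cut_pp_213_t Ext.none :=
  certNE0 (fam := true) (s1 := true) (s2 := true) (a := 2) (b := 1) (c := 3) (cn := .pnn) (n1 := ndB0q2) (n2 := ndB0q1) (pc := pcB3) (cut := cut_pp_213_t) (xt := Ext.none) (P1 := 0) (W1 := 536870912) (P2 := 536870912) (W2 := 536870912) (P3 := 858993459) (W3 := 64424510) (N0 := 3) (En := eng) (mo := mog) (C1 := cd0q2) (C2 := cd0q1) (C3 := pd3)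
    rfl k0_pp_213_t

noncomputable def cut_pm_001_s : Cut := Cut.of [[⟨4, 0, 0, 1449551462⟩]]

noncomputable def f_pm_001_s : ℕ → ℕ → ℕ → ℕ → Bool := onCell 0 536870912 0 536870912 858993459 64424510
    (rowNE 3 eng mog cd0q0 cd0q0 pd1 0 true true false .up 0 0 1 (qsf 0 536870912 0 536870912 1) ndB0q0 ndB0q0 pcB1 cut_pm_001_s Ext.none)

def k0_pm_001_s : ∃ t, chk3 f_pm_001_s t 1 1 1 = true :=
  ⟨(l 3), by decide +kernel⟩

theorem c_pm_001_s : CertNE 0 536870912 0 536870912 858993459 64424510 3 eng mog cd0q0 cd0q0 pd1 true true false .up 0 0 1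
    ndB0q0 ndB0q0 pcB1 cut_pm_001_s Ext.none :=
  certNE0 (fam := true) (s1 := true) (s2 := false) (a := 0) (b := 0) (c := 1) (cn := .up) (n1 := ndB0q0) (n2 := ndB0q0) (pc := pcB1) (cut := cut_pm_001_s) (xt := Ext.none) (P1 := 0) (W1 := 536870912) (P2 := 0) (W2 := 536870912) (P3 := 858993459) (W3 := 64424510) (N0 := 3) (En := eng) (mo := mog) (C1 := cd0q0) (C2 := cd0q0) (C3 := pd1)
    rfl k0_pm_001_s

noncomputable def cut_pm_001_t : Cut := Cut.of [[⟨3, 0, 0, 2845415833⟩]]

noncomputable def f_pm_001_t : ℕ → ℕ → ℕ → ℕ → Bool := onCell 0 536870912 0 536870912 858993459 64424510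
    (rowNE 3 eng mog cd0q0 cd0q0 pd1 0 true true false .up 0 0 1 (qsf 0 536870912 0 536870912 1) ndB0q0 ndB0q0 pcB1 cut_pm_001_t Ext.none)

def k0_pm_001_t : ∃ t, chk3 f_pm_001_t t 1 1 1 = true :=
  ⟨(l 3), by decide +kernel⟩

theorem c_pm_001_t : CertNE 0 536870912 0 536870912 858993459 64424510 3 eng mog cd0q0 cd0q0 pd1 true true false .up 0 0 1
    ndB0q0 ndB0q0 pcB1 cut_pm_001_t Ext.none :=
  certNE0 (fam := true) (s1 := true) (s2 := false) (a := 0) (b := 0) (c := 1) (cn := .up) (n1 := ndB0q0) (n2 := ndB0q0) (pc := pcB1) (cut := cut_pm_001_t) (xt := Ext.none) (P1 := 0) (W1 := 536870912) (P2 := 0) (W2 := 536870912) (P3 := 858993459) (W3 := 64424510) (N0 := 3) (En := eng) (mo := mog) (C1 := cd0q0) (C2 := cd0q0) (C3 := pd1)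
    rfl k0_pm_001_t

noncomputable def cut_pm_011_s : Cut := Cut.of [[⟨4, 0, 0, 1449551462⟩], [⟨0, 0, 0, 67108864⟩, ⟨1, 1, 0, 67108864⟩, ⟨2, 1, 0, 67108864⟩]]

noncomputable def f_pm_011_s : ℕ → ℕ → ℕ → ℕ → Bool := onCell 536870912 536870912 536870912 536870912 858993459 64424510
    (rowNE 3 eng mog cd0q0 cd0q1 pd1 2 true true false .pnn 0 1 1 (qsf 0 536870912 536870912 536870912 1) ndB0q0 ndB0q1 pcB1 cut_pm_011_s Ext.none)

def k0_pm_011_s : ∃ t, chk3 f_pm_011_s t 1 1 1 = true :=
  ⟨(a (l 3) (b (l 3) (a (l 3) (b (l 3) (a (l 3) (b (l 3) (a (l 3) (b (l 3) (l 14))))))))), by decide +kernel⟩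

theorem c_pm_011_s : CertNE 0 536870912 536870912 536870912 858993459 64424510 3 eng mog cd0q0 cd0q1 pd1 true true false .pnn 0 1 1
    ndB0q0 ndB0q1 pcB1 cut_pm_011_s Ext.none :=
  certNE2 (fam := true) (s1 := true) (s2 := false) (a := 0) (b := 1) (c := 1) (cn := .pnn) (n1 := ndB0q0) (n2 := ndB0q1) (pc := pcB1) (cut := cut_pm_011_s) (xt := Ext.none) (P1 := 0) (W1 := 536870912) (P2 := 536870912) (W2 := 536870912) (P3 := 858993459) (W3 := 64424510) (N0 := 3) (En := eng) (mo := mog) (C1 := cd0q0) (C2 := cd0q1) (C3 := pd1)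
    rfl (fun _ => rfl) k0_pm_011_s

noncomputable def cut_pm_011_t : Cut := Cut.of [[⟨3, 0, 0, 2845415833⟩], [⟨0, 0, 0, 67108864⟩, ⟨1, 1, 0, 67108864⟩, ⟨2, 1, 0, 67108864⟩]]

noncomputable def f_pm_011_t : ℕ → ℕ → ℕ → ℕ → Bool := onCell 0 536870912 536870912 536870912 858993459 64424510
    (rowNE 3 eng mog cd0q0 cd0q1 pd1 0 true true false .pnn 0 1 1 (qsf 0 536870912 536870912 536870912 1) ndB0q0 ndB0q1 pcB1 cut_pm_011_t Ext.none)

def k0_pm_011_t : ∃ t, chk3 f_pm_011_t t 1 1 1 = true :=
  ⟨(l 6), by decide +kernel⟩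

theorem c_pm_011_t : CertNE 0 536870912 536870912 536870912 858993459 64424510 3 eng mog cd0q0 cd0q1 pd1 true true false .pnn 0 1 1
    ndB0q0 ndB0q1 pcB1 cut_pm_011_t Ext.none :=
  certNE0 (fam := true) (s1 := true) (s2 := false) (a := 0) (b := 1) (c := 1) (cn := .pnn) (n1 := ndB0q0) (n2 := ndB0q1) (pc := pcB1) (cut := cut_pm_011_t) (xt := Ext.none) (P1 := 0) (W1 := 536870912) (P2 := 536870912) (W2 := 536870912) (P3 := 858993459) (W3 := 64424510) (N0 := 3) (En := eng) (mo := mog) (C1 := cd0q0) (C2 := cd0q1) (C3 := pd1)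
    rfl k0_pm_011_t

noncomputable def cut_pm_012_s : Cut := Cut.of [[⟨4, 0, 0, 1449551462⟩], [⟨0, 0, 0, 67108864⟩, ⟨1, 1, 0, 67108864⟩, ⟨2, 1, 0, 67108864⟩]]

noncomputable def f_pm_012_s : ℕ → ℕ → ℕ → ℕ → Bool := onCell 1073741824 536870912 536870912 536870912 858993459 64424510
    (rowNE 3 eng mog cd0q0 cd0q1 pd2 2 true true false .pnp 0 1 2 (qsf 0 536870912 536870912 536870912 2) ndB0q0 ndB0q1 pcB2 cut_pm_012_s Ext.none)

def k0_pm_012_s : ∃ t, chk3 f_pm_012_s t 4 2 1 = true :=
  ⟨(a (l 3) (l 3)), by decide +kernel⟩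

def k1_pm_012_s : ∃ t, chk3 f_pm_012_s t 8 6 1 = true :=
  ⟨(l 3), by decide +kernel⟩

def k2_pm_012_s : ∃ t, chk3 f_pm_012_s t 18 6 1 = true :=
  ⟨(b (l 3) (a (l 3) (b (l 3) (a (l 3) (b (l 3) (a (l 3) (b (l 3) (c (a (c (b (l 3) (c (l 116668762023) (l 16776888))) (l 163376533863)) (c (b (l 102173248183) (l 16774768)) (l 16776152))) (l 84456511959))))))))), by decide +kernel⟩

def k3_pm_012_s : ∃ t, chk3 f_pm_012_s t 19 12 1 = true :=
  ⟨(a (l 3) (b (l 3) (b (a (l 3) (a (l 3) (c (a (l 155323482087) (l 16786664)) (l 16773472)))) (b (a (l 3) (c (a (l 126869322247) (l 16774136)) (l 55465503959))) (c (a (a (l 3) (l 199346891975)) (a (l 16775688) (l 16770520))) (a (l 209010576839) (l 16772968))))))), by decide +kernel⟩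

def k4_pm_012_s : ∃ t, chk3 f_pm_012_s t 19 13 1 = true :=
  ⟨(a (b (a (l 3) (b (l 3) (a (c (b (l 3) (l 263234511831)) (l 235854114519)) (c (a (b (l 3) (l 16776648)) (b (l 137606733575) (l 16774248))) (c (l 16785384) (l 16776152)))))) (a (a (b (c (b (l 3) (l 315310990567)) (l 321753425063)) (b (c (c (a (b (l 3) (l 16778224)) (c (l 16776024) (l 16776048))) (l 74792836247)) (l 16776456)) (c (c (l 16772120) (l 16772248)) (l 16772504)))) (b (c (b (l 291688669799) (c (a (l 106468217015) (l 16775648)) (l 16776448))) (b (l 266455751415) (l 16776304))) (c (c (b (l 16772008) (l 16766944)) (l 16769592)) (l 16769856)))) (a (b (c (b (b (l 97341413735) (l 16775240)) (l 16771672)) (l 16774096)) (c (b (l 16766872) (l 16761936)) (l 16764712))) (b (c (c (b (l 16771088) (l 16766496)) (l 16768792)) (l 16768840)) (c (c (b (l 16761784) (l 16756936)) (l 16759352)) (l 16759424)))))) (b (c (b (c (a (a (b (l 3) (l 123111220695)) (b (l 16776712) (l 16773496))) (a (l 16770136) (l 16764328))) (a (a (l 159081575559)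 (l 16775272)) (l 16767408))) (a (a (c (b (l 16774656) (l 16770392)) (l 16772480)) (c (l 16767440) (l 16767200))) (c (a (l 16762200) (l 16756248)) (l 16759392)))) (b (a (a (l 156934095431) (l 16775488)) (a (l 16769616) (l 16763672))) (a (a (l 16772392) (l 16766712)) (a (l 16760840) (l 16754744))))) (b (a (c (c (a (l 16763848) (l 16759112)) (a (l 16763648) (l 16758552))) (a (l 16763304) (l 16757480))) (c (c (a (l 16753912) (l 16747824)) (l 16750944)) (l 16750952))) (a (c (c (a (l 16754760) (l 16750400)) (l 16751928)) (a (l 16753696) (l 16747640))) (c (c (a (l 16745272) (l 16739056)) (l 16742008)) (l 16727648)))))), by decide +kernel⟩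

def k5_pm_012_s : ∃ t, chk3 f_pm_012_s t 16 14 1 = true :=
  ⟨(l 3), by decide +kernel⟩

def k6_pm_012_s : ∃ t, chk3 f_pm_012_s t 34 14 1 = true :=
  ⟨(l 3), by decide +kernel⟩

def k7_pm_012_s : ∃ t, chk3 f_pm_012_s t 35 28 1 = true :=
  ⟨(l 3), by decide +kernel⟩

def k8_pm_012_s : ∃ t, chk3 f_pm_012_s t 35 58 1 = true :=
  ⟨(l 3), by decide +kernel⟩

def k9_pm_012_s : ∃ t, chk3 f_pm_012_s t 35 118 1 = true :=
  ⟨(a (l 3) (b (a (l 3) (a (l 3) (a (c (c (b (l 3) (c (c (b (l 257865808503) (a (l 162302786199) (l 16776472))) (b (l 257328938887) (l 16776928))) (l 166060882375))) (l 214916136599)) (l 175724564551)) (c (c (c (a (b (l 300278611799) (b (l 16776760) (l 16772968))) (b (b (l 350207606647) (l 95193922151)) (l 16774960))) (b (l 220821715191) (l 16775816))) (b (l 190220076583) (l 16775960))) (l 62444799543))))) (a (a (l 3) (a (l 3) (c (c (b (l 3) (b (l 3) (c (a (l 284172484519) (b (l 178408914359) (l 16776768))) (l 181093268279)))) (l 255181454983)) (l 221358591319)))) (a (c (c (a (b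 (c (b (l 3) (a (l 3) (c (l 225653553847) (l 228874779911)))) (l 281488129831)) (c (a (b (b (l 261623906247) (l 94120181239)) (l 16776176)) (b (l 16776488) (l 16773984))) (l 54928602551))) (a (c (b (b (l 285783097255) (c (l 38822476631) (l 16776792))) (b (l 16774288) (l 16774408))) (b (l 158544689975) (l 16775128))) (c (b (b (a (l 155323465111) (l 16776856)) (l 16775896)) (b (l 16774712) (l 16773520))) (l 16776232)))) (c (b (l 160692176359) (l 16775664)) (l 86067118007))) (c (l 69960993143) (l 16778976))) (c (c (a (c (c (b (b (l 16775728) (c (l 16771896) (l 16774552))) (c (l 16774016) (l 16772760))) (l 16773040)) (l 16774160)) (c (b (b (a (l 16774424) (l 16773536)) (l 16775424)) (c (l 16770944) (l 16771112))) (l 16772488))) (l 16773704)) (l 16774576)))))), by decide +kernel⟩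

def k10_pm_012_s : ∃ t, chk3 f_pm_012_s t 70 119 1 = true :=
  ⟨(b (l 3) (a (l 3) (c (a (c (b (l 3) (a (l 3) (c (b (l 3) (a (l 3) (a (l 3) (a (l 321216577479) (b (l 3) (l 186998849207)))))) (l 315310997303)))) (l 339470182759)) (a (b (l 3) (c (c (b (a (l 3) (c (b (l 287393710039) (a (l 187535719383) (l 16776872))) (l 181093268823))) (b (a (a (l 290078064615) (a (l 165524012727) (l 16777032))) (l 16776480)) (c (a (c (l 16776896) (l 16776736)) (l 16774520)) (l 16776312)))) (b (l 225653555111) (c (l 16776640) (l 16776664)))) (c (l 128479921351) (l 16777088)))) (c (c (a (c (a (b (l 349670735735) (b (b (l 72645344999) (l 16775112)) (l 16774160))) (b (b (l 3) (b (l 3) (l 145122917431))) (b (l 16776288) (l 16775024)))) (b (l 289541193607) (l 16775912))) (b (b (l 319605964711) (b (a (l 222432329223) (l 16776960)) (l 16776568))) (c (b (a (l 16774528) (l 16775384)) (l 16774344)) (l 16775040)))) (b (b (l 342154542935) (l 160692172311)) (l 16775544))) (b (l 186461980199) (l 16775704))))) (a (l 333564607831)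 (b (l 198273142775) (c (l 16776656) (l 16776432))))))), by decide +kernel⟩

def k11_pm_012_s : ∃ t, chk3 f_pm_012_s t 142 119 2 = true :=
  ⟨(c (b (b (a (a (l 3) (c (l 357723799303) (l 360408153847))) (c (a (b (a (l 3) (c (b (l 361481895847) (l 170355850119)) (l 225116683495))) (a (b (l 250886488023) (a (l 149417885287) (l 16776800))) (a (l 16776656) (l 16776216)))) (c (a (b (b (l 84456504935) (l 16776440)) (l 16774216)) (b (l 16774536) (l 16774624))) (l 16775728))) (a (b (l 254644584327) (l 16776912)) (l 16775792)))) (c (b (a (a (l 3) (a (c (l 275045677719) (l 274508808119)) (b (a (l 269140098551) (l 16777080)) (l 16776696)))) (c (a (a (l 16776096) (l 16773888)) (l 16775160)) (l 16774808))) (a (a (a (l 3) (a (l 281488129991) (b (l 309942288343) (l 16777032)))) (a (a (b (l 130627403415) (l 16776584)) (l 16776448)) (l 16775776))) (a (a (a (l 16775112) (l 16774672)) (l 16774000)) (l 16773984)))) (a (a (l 273971937095) (b (l 174650817335) (l 16776280))) (l 16774336)))) (b (c (a (b (a (a (a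 (b (l 3) (l 109689437143)) (b (l 180019527191) (l 16776688))) (a (l 16776552) (l 16776104))) (c (c (a (l 16774096) (l 16774496)) (l 16772360)) (l 16772400))) (c (a (a (l 16775808) (c (l 16775056) (l 16775080))) (l 16775024)) (l 16774688))) (a (b (a (l 16773664) (l 16772776)) (l 16773296)) (a (l 16772584) (l 16770392)))) (a (c (a (l 16776864) (l 16769248)) (l 16775408)) (c (l 16766704) (l 16772104)))) (c (a (a (c (b (c (l 16775552) (l 16774280)) (l 16774304)) (c (l 16771072) (l 16768504))) (b (l 16773832) (l 16772584))) (a (c (l 16772656) (l 16770216)) (l 16769664))) (a (l 16772696) (c (l 16769568) (l 16769800)))))) (b (a (a (l 290078064231) (b (l 357723799239) (l 16776944))) (c (b (l 80161537063) (l 16774520)) (l 16778392))) (a (b (l 16777528) (l 16773424)) (l 16771472)))), by decide +kernel⟩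

def k12_pm_012_s : ∃ t, chk3 f_pm_012_s t 143 119 2 = true :=
  ⟨(c (c (a (b (b (a (a (b (l 16773672) (l 16773776)) (b (l 16774096) (l 16772888))) (c (l 16773408) (l 16772232))) (a (c (l 16772744) (l 16771592)) (l 16771056))) (a (b (l 16770376) (l 16766592)) (b (l 16767296) (l 16764824)))) (b (a (b (l 16771624) (l 16767976)) (b (l 16771256) (l 16766216))) (c (b (l 16764480) (l 16761976)) (l 16766232)))) (a (b (b (l 16773280) (c (l 16770904) (l 16771096))) (b (l 16763448) (l 16766352))) (b (b (l 16764704) (l 16767672)) (b (l 16765368) (l 16763040))))) (a (b (l 16772632) (l 16768472)) (b (l 16769640) (l 16765504)))), by decide +kernel⟩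

def k13_pm_012_s : ∃ t, chk3 f_pm_012_s t 71 119 3 = true :=
  ⟨(a (c (b (a (l 188072591991) (l 16778624)) (a (l 16774936) (l 16772384))) (b (a (l 176798306631) (l 16775784)) (a (l 16775072) (l 16772696)))) (c (b (l 16772120) (l 16768664)) (b (l 16772264) (l 16768920)))), by decide +kernel⟩

def k14_pm_012_s : ∃ t, chk3 f_pm_012_s t 32 30 1 = true :=
  ⟨(l 3), by decide +kernel⟩

def k15_pm_012_s : ∃ t, chk3 f_pm_012_s t 33 60 1 = true :=
  ⟨(l 3), by decide +kernel⟩

def k16_pm_012_s : ∃ t, chk3 f_pm_012_s t 66 61 1 = true :=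
  ⟨(l 3), by decide +kernel⟩

def k17_pm_012_s : ∃ t, chk3 f_pm_012_s t 67 122 1 = true :=
  ⟨(l 3), by decide +kernel⟩

def k18_pm_012_s : ∃ t, chk3 f_pm_012_s t 134 123 1 = true :=
  ⟨(l 3), by decide +kernel⟩

def k19_pm_012_s : ∃ t, chk3 f_pm_012_s t 135 246 1 = true :=
  ⟨(l 3), by decide +kernel⟩

def k20_pm_012_s : ∃ t, chk3 f_pm_012_s t 135 494 1 = true :=
  ⟨(a (l 3) (b (b (l 3) (a (l 3) (c (c (a (l 3) (c (a (l 355039444999) (a (b (l 3) (b (l 299204869991) (a (l 170892722087) (l 16777120)))) (c (b (l 288467451911) (l 16777128)) (l 158007820023)))) (a (l 362018766855) (l 200420621895)))) (l 269676969927)) (l 234780362311)))) (c (a (c (a (l 3) (b (l 3) (c (a (l 3) (a (l 3) (a (l 341617672199) (b (l 3) (b (l 3) (l 144586047399)))))) (l 319069093895)))) (l 343765155799)) (c (c (a (a (b (l 3) (a (b (l 356113186823) (a (b (l 247128391559) (l 16777096)) (l 16777080))) (b (b (l 313700384535) (a (l 193441300359) (l 16777136))) (l 16776920)))) (b (b (l 3) (c (a (l 299741741063) (b (l 233169747815)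 (l 16777112))) (l 204178718471))) (c (a (b (b (l 16777152) (l 16776312)) (l 16776376)) (b (l 16776512) (l 16776488))) (l 16776784)))) (a (b (a (b (a (l 310479159303) (b (l 3) (l 16777200))) (l 16776984)) (b (a (b (l 225116684215) (l 16777088)) (l 16777072)) (l 16776440))) (a (b (l 16776304) (l 16776280)) (b (l 16776416) (l 16776064)))) (c (b (b (l 16776736) (a (l 16776552) (l 16776328))) (a (l 16776344) (l 16775800))) (l 16776280)))) (a (b (l 276656291831) (a (l 135996111863) (l 16776792))) (c (b (l 16776856) (l 16773544)) (l 16776528)))) (c (a (l 161765914551) (l 16776552)) (l 94657050807)))) (a (l 341080801159) (c (l 16777968) (l 16776912)))))), by decide +kernel⟩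

def k21_pm_012_s : ∃ t, chk3 f_pm_012_s t 135 495 1 = true :=
  ⟨(a (b (l 3) (l 14)) (a (a (b (a (b (l 3) (l 14)) (c (c (b (c (l 367387475991) (l 371682443271)) (a (l 14) (a (l 14) (b (c (l 16777176) (l 16777096)) (l 14))))) (l 176798302871)) (l 16777136))) (l 14)) (a (b (c (c (c (b (a (b (l 3) (a (l 270213840663) (b (l 310479159143) (l 16777144)))) (b (l 303499837447) (a (b (l 150491627431) (l 16777032)) (l 16777016)))) (a (b (l 16776928) (l 14)) (b (l 16776392) (l 16776360)))) (b (l 209547427399) (l 16776672))) (l 16777704)) (l 16777048)) (l 14)) (c (c (c (b (b (a (b (b (l 244444036967) (l 16777120)) (l 16776856)) (b (l 16776992) (l 16776312))) (a (b (l 16776176) (l 16776152)) (b (l 16776288) (l 16775936)))) (c (b (l 16775824) (l 14)) (l 16774032))) (b (l 16776768) (l 16773928))) (l 16776008)) (l 16776216)))) (a (c (c (c (c (b (a (b (a (b (l 16776448) (l 16776424)) (b (l 16776560) (l 16776208))) (c (l 16776096) (l 16775784))) (b (b (l 16776568) (l 16775880)) (l 16775672))) (b (c (l 16775160)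 (l 16774856)) (l 16774784))) (b (b (l 16776296) (l 16774280)) (c (l 16775184) (l 16774552)))) (b (l 16775984) (c (l 16774592) (l 16774648)))) (l 16775440)) (l 16775744)) (c (c (b (a (c (b (b (l 16776144) (l 16775464)) (l 16775096)) (l 16774056)) (c (b (a (l 16775320) (l 16775104)) (l 16774504)) (l 16774952))) (c (c (a (l 16774160) (l 16774056)) (l 16773688)) (l 16772488))) (l 16774672)) (l 16775112))))), by decide +kernel⟩

def k22_pm_012_s : ∃ t, chk3 f_pm_012_s t 16 31 1 = true :=
  ⟨(a (l 14) (b (a (l 14) (b (b (b (b (b (a (l 3) (a (l 14) (a (l 14) (a (l 14) (c (c (c (l 16772584) (l 16772768)) (l 16773080)) (l 16773792)))))) (l 14)) (l 14)) (l 14)) (l 14)) (l 14))) (l 14))), by decide +kernel⟩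

def k23_pm_012_s : ∃ t, chk3 f_pm_012_s t 68 60 1 = true :=
  ⟨(l 3), by decide +kernel⟩

def k24_pm_012_s : ∃ t, chk3 f_pm_012_s t 69 120 1 = true :=
  ⟨(l 3), by decide +kernel⟩

def k25_pm_012_s : ∃ t, chk3 f_pm_012_s t 138 242 1 = true :=
  ⟨(l 3), by decide +kernel⟩

def k26_pm_012_s : ∃ t, chk3 f_pm_012_s t 139 484 1 = true :=
  ⟨(a (l 3) (c (c (a (a (l 3) (b (l 3) (c (b (l 336785833959) (a (a (l 322290319351) (b (l 3) (l 128479919959))) (a (b (l 214916136711) (l 16776960)) (l 16776904)))) (l 220821716135)))) (a (c (a (b (l 3) (b (b (l 245517778279) (a (l 121500598119) (l 16776952))) (l 16776384))) (b (a (l 335712092135) (b (l 3) (b (l 3) (l 113984405335)))) (c (b (l 16776616) (l 16775448)) (l 16776456)))) (b (l 295446773703) (l 16776704))) (b (c (a (b (l 319069093863) (a (b (l 199883751175) (l 16776944)) (l 16776888))) (b (c (b (l 239075327719) (l 16777040)) (l 16777208)) (l 16776384))) (l 133848627191)) (c (c (b (a (l 16775584) (l 16775872)) (l 16776000)) (l 16773176)) (l 16775848)))))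 (a (l 273435066215) (a (l 140827949767) (l 16776568)))) (a (l 235317234135) (c (l 16776928) (l 16776808))))), by decide +kernel⟩

def k27_pm_012_s : ∃ t, chk3 f_pm_012_s t 139 485 1 = true :=
  ⟨(c (a (a (l 3) (c (c (b (a (l 3) (b (l 3) (a (l 3) (a (l 327659028471) (b (l 3) (l 138143595687)))))) (a (b (l 343228284903) (c (a (a (l 334638350327) (b (l 3) (l 136532983655))) (a (b (l 224579813223) (l 16776976)) (l 16776920))) (l 162839656679))) (a (b (b (l 259476421991) (a (l 139754208439) (l 16776976))) (c (l 16776496) (l 16776592))) (b (b (l 16776976) (l 16776640)) (a (l 16775592) (l 16776024)))))) (b (l 316921610167) (a (l 224579812519) (l 16776728)))) (b (l 305647320983) (l 116668758743)))) (a (a (c (b (c (a (b (l 333027737591) (a (b (l 224579813127) (l 16776976)) (l 16776936))) (b (b (l 254107712871) (a (l 134385499959) (l 16776968))) (c (l 16776568) (l 16776584)))) (l 141364819895)) (c (c (a (c (b (l 16775688) (l 16775664)) (l 16774704)) (b (l 16775896) (l 16775216))) (l 16775816)) (l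 16775872))) (l 16776592)) (c (c (b (c (c (a (b (l 16776792) (l 16776112)) (b (l 16775680) (l 16775656))) (l 16775904)) (l 16776256)) (c (b (l 16775872) (l 16774536)) (l 16774928))) (l 16775656)) (l 16775784))) (c (a (c (b (c (b (a (l 16775888) (l 16775432)) (l 16775640)) (l 16772744)) (b (l 16774664) (l 16773664))) (l 16774800)) (c (c (b (c (l 16775048) (l 16774424)) (l 16773048)) (b (l 16774472) (l 16773144))) (l 16771320))) (l 16774616)))) (a (c (l 231022263943) (l 204178721319)) (c (l 16775680) (l 16775920)))), by decide +kernel⟩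

def k28_pm_012_s : ∃ t, chk3 f_pm_012_s t 138 243 1 = true :=
  ⟨(a (l 3) (a (b (l 3) (c (c (c (b (a (l 3) (b (l 3) (a (l 3) (a (l 313700384759) (b (l 3) (a (l 161765916519) (l 16777112))))))) (a (a (b (l 3) (a (l 300815482215) (b (l 355576315911) (a (l 138680467319) (l 16777088))))) (b (l 318532222311) (b (a (a (l 253033971511) (l 147270401879)) (l 16777040)) (l 16776808)))) (a (a (b (b (l 3) (a (l 151565369191) (l 16777104))) (l 16776568)) (c (b (b (l 196125654887) (l 16776936)) (l 16775760)) (l 16776768))) (b (b (l 16776944) (l 16775944)) (b (l 16775608) (l 16775920)))))) (b (l 313700384711) (a (b (l 328195899367) (l 154249723303)) (l 16777344)))) (b (l 302962966439) (c (l 119889986343) (l 16777096)))) (c (l 168745240167) (l 155860338871)))) (a (b (l 3) (c (c (c (b (c (a (b (l 332490866679) (a (b (l 204178718567) (l 16776944)) (l 16776888))) (a (b (b (l 3) (l 120963726551)) (l 16776664)) (b (b (l 211158040423) (l 16776952)) (l 16775784)))) (b (l 220284845495) (l 16776792))) (c (a (b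 (a (l 16775776) (l 16776200)) (l 16775624)) (b (l 16776520) (l 16775168))) (l 16774464))) (b (c (l 134922369127) (l 16777152)) (l 16775832))) (l 16777872)) (l 16776736))) (c (c (b (b (l 3) (c (b (l 341080800599) (a (a (l 322290319351) (c (b (l 3) (l 126332435687)) (l 218674233047))) (b (a (l 221358587655) (l 16777080)) (l 16776856)))) (l 222969198471))) (c (b (c (c (b (a (l 16776664) (c (l 16775672) (l 16776328))) (c (a (l 16776088) (l 16775632)) (l 16774888))) (l 16775856)) (l 16776240)) (c (c (b (l 16775824) (l 16774480)) (l 16775504)) (l 16774896))) (l 16774976))) (b (l 258939551623) (l 16775760))) (b (l 223506073479) (l 16776064)))))), by decide +kernel⟩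

def k29_pm_012_s : ∃ t, chk3 f_pm_012_s t 139 486 2 = true :=
  ⟨(c (c (b (a (c (a (a (a (l 3) (a (l 349133864935) (b (l 3) (b (l 3) (l 134385500007))))) (b (a (l 341080801271) (b (l 264308260199) (a (l 135996112743) (l 16776976)))) (a (a (b (l 223506071399) (l 16776968)) (l 16776912)) (l 16776496)))) (a (c (a (b (l 16776720) (l 16776120)) (b (l 16775688) (l 16775656))) (l 16775912)) (b (a (l 16775896) (l 16775440)) (l 16775640)))) (a (a (l 307794804711) (b (l 225653554615) (l 16776816))) (l 16775328))) (c (a (a (a (l 16775304) (l 16774192)) (l 16774160)) (c (l 16772760) (l 16772168))) (a (a (l 16774488) (l 16773592)) (l 16772256)))) (a (a (a (b (a (c (b (l 261087034743) (a (l 130627403655) (l 16776968))) (l 163913399991)) (b (l 16777056) (l 16775976))) (a (b (l 16776744) (l 16775752)) (a (l 16775584) (l 16776016)))) (c (a (b (a (l 16775800) (l 16776232)) (l 16775664)) (b (l 16775896) (l 16775208))) (l 16774496))) (a (c (b (l 16775536) (l 16774528)) (l 16774920)) (b (l 16774664) (l 16773656))))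 (a (c (a (l 16773048) (l 16772136)) (l 16772696)) (c (l 16771416) (l 16770912))))) (a (a (b (a (l 301889224663) (c (l 138143593319) (l 16777168))) (c (l 16776280) (l 16776304))) (b (l 16775872) (l 16771960))) (a (b (l 16771536) (l 16772872)) (a (l 16769608) (l 16771368))))) (a (a (b (l 173577075367) (l 16776376)) (l 16775392)) (c (l 16772920) (l 16773192)))), by decide +kernel⟩

def k30_pm_012_s : ∃ t, chk3 f_pm_012_s t 139 487 2 = true :=
  ⟨(c (a (b (c (a (b (c (a (a (l 16776536) (l 16775424)) (l 16774744)) (l 16773936)) (a (a (l 16775216) (l 16774768)) (l 16774424))) (c (a (l 16774144) (l 16772576)) (l 16774448))) (a (l 16775000) (l 16770664))) (a (c (a (b (l 16774640) (l 16773624)) (c (l 16773672) (l 16773112))) (l 16771072)) (c (c (c (l 16772272) (l 16771680)) (l 16771776)) (l 16771984)))) (c (c (a (b (l 16771616) (l 16769816)) (c (l 16769280) (l 16768720))) (a (l 16771976) (l 16768872))) (c (a (l 16770832) (l 16769088)) (l 16766224)))) (c (a (l 16773696) (l 16765216)) (l 16772408))),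 by decide +kernel⟩

def k31_pm_012_s : ∃ t, chk3 f_pm_012_s t 139 243 3 = true :=
  ⟨(c (a (b (c (l 16776360) (l 16776464)) (l 16774272)) (l 16772616)) (a (b (l 16778968) (l 16774800)) (l 16773448))), by decide +kernel⟩

def k32_pm_012_s : ∃ t, chk3 f_pm_012_s t 68 244 2 = true :=
  ⟨(a (l 3) (a (l 3) (b (l 3) (c (a (b (l 3) (a (l 3) (c (b (l 3) (a (l 3) (l 331953995127))) (l 346449510375)))) (a (b (l 3) (c (b (a (l 3) (a (l 338933317639) (b (l 3) (b (l 256792067943) (l 16777136))))) (b (c (a (a (l 3) (l 238001585927)) (c (l 16777072) (l 16776992))) (l 151565367655)) (a (a (a (l 188072591191) (l 16777144)) (l 16776976)) (l 16776648)))) (b (l 284172484583) (c (l 16777056) (l 16777064))))) (c (a (b (l 358797541367) (c (b (b (a (l 257865809671) (a (l 117742501783) (l 16777072))) (l 16776888)) (b (l 16775888) (l 16776192))) (l 16777056))) (b (b (l 3) (b (l 292762418551) (a (b (l 289004322615) (l 16777168)) (l 16777032)))) (b (a (l 16776568) (b (l 16776032) (l 16776336))) (b (l 16775448) (l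 16775760))))) (b (l 269676967335) (l 16776536))))) (a (l 357723799431) (b (l 284709355431) (c (l 101099501735) (l 16777040)))))))), by decide +kernel⟩

def k33_pm_012_s : ∃ t, chk3 f_pm_012_s t 68 490 2 = true :=
  ⟨(a (l 3) (b (a (l 3) (a (b (a (l 3) (c (c (a (b (l 3) (a (l 276656291847) (b (l 197736267607) (l 16777080)))) (b (a (b (l 329269641063) (l 141901692839)) (l 16777240)) (l 16776672))) (l 162302785655)) (l 16777168))) (c (c (a (b (a (l 3) (a (l 351818219527) (b (l 298667999079) (l 16777176)))) (a (a (l 3) (l 261087035143)) (a (b (l 161765916551) (l 16777048)) (l 16776912)))) (c (a (b (l 16776928) (l 16775920)) (b (l 16775824) (l 16776128))) (l 16776544))) (a (l 212231781719) (l 16776568))) (l 89288344567))) (c (c (a (c (a (b (b (l 16776736) (l 16776384)) (l 16776104)) (b (b (l 16776288) (l 16775936)) (l 16775408))) (l 16776016)) (c (b (a (l 16775664) (l 16775216)) (l 16775064)) (l 16773824))) (l 16775304)) (l 16775760)))) (a (a (l 3) (c (c (a (b (l 3) (a (l 3) (a (l 3) (b (l 3)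 (b (l 320679706391) (l 140291080055)))))) (b (a (l 3) (c (b (l 341080801287) (c (a (l 233706618727) (l 16777104)) (l 148344143703))) (l 218674232935))) (b (a (a (l 298667999239) (b (l 227264167783) (l 16777112))) (l 16776704)) (c (a (c (l 16776952) (l 16776960)) (l 16775856)) (l 16776744))))) (a (l 320679706599) (b (l 261623905591) (l 16776936)))) (a (l 311016030167) (l 135996113751)))) (c (c (a (c (a (b (b (a (a (a (l 217600491367) (l 112910663559)) (l 16777008)) (l 16776016)) (a (l 16776768) (l 16776320))) (a (b (l 16775760) (l 16776064)) (l 16776120))) (a (b (a (l 16776488) (l 16775936)) (l 16775344)) (b (l 16775600) (l 16774896)))) (c (a (l 16776224) (l 16774192)) (l 16775632))) (a (c (c (b (l 16775576) (l 16774208)) (l 16775248)) (l 16773328)) (c (c (l 16774312) (l 16773696)) (l 16773760)))) (c (a (l 16775984) (l 16771648)) (l 16775176))) (c (l 16775256) (l 16775376)))))), by decide +kernel⟩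

def k34_pm_012_s : ∃ t, chk3 f_pm_012_s t 136 491 2 = true :=
  ⟨(a (l 3) (a (l 3) (c (b (l 3) (a (l 3) (c (b (l 3) (a (l 3) (b (l 352891961351) (c (a (l 256792067863) (b (l 153175982007) (l 16777040))) (l 16777128))))) (l 289541192391)))) (l 314774123879)))), by decide +kernel⟩

def k35_pm_012_s : ∃ t, chk3 f_pm_012_s t 274 491 2 = true :=
  ⟨(b (a (a (l 3) (c (c (b (l 358797541383) (a (a (l 331953995783) (b (l 3) (b (l 246054649703) (l 16777128)))) (c (b (a (l 253033971463) (b (l 144586047399) (l 16777032))) (l 16776880)) (l 16777064)))) (b (l 362555637751) (c (l 173040205287) (l 16777184)))) (l 202031235895))) (c (c (c (a (b (a (b (l 300278611319) (a (b (l 289004322663) (l 16777168)) (l 16777032))) (a (b (b (l 186461978503) (l 16777072)) (l 16776152)) (l 16776680))) (a (b (l 16776792) (l 16775784)) (b (l 16776344) (l 16775992)))) (b (a (b (l 16775952) (l 16776248)) (a (l 16776096) (l 16775872))) (a (l 16776048) (l 16775280)))) (a (b (a (l 190756945575) (l 16776880)) (l 16776408)) (l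 16775840))) (a (b (l 106468211879) (l 16776440)) (l 16775928))) (l 16777416))) (a (a (c (c (c (b (a (b (l 3) (l 306721062919)) (b (a (l 3) (b (l 335175221095) (l 149954756535))) (a (b (l 200957493127) (l 16777088)) (l 16776952)))) (b (a (a (b (l 300278611815) (l 16777176)) (l 16777040)) (c (l 16776048) (l 16776712))) (a (l 16776800) (l 16775704)))) (b (a (l 325511544839) (l 161765915015)) (l 16777096))) (b (l 221895458135) (l 16776784))) (l 110763180855)) (c (c (c (b (b (a (a (l 16777168) (l 16776864)) (l 16776040)) (c (a (l 16775960) (l 16776168)) (l 16775088))) (a (b (l 16776264) (l 16775912)) (l 16775976))) (l 16775912)) (l 16776272)) (l 16776344))) (c (a (c (b (c (a (a (l 16776016) (l 16775792)) (l 16775464)) (l 16775720)) (a (l 16775464) (l 16774776))) (l 16774120)) (c (c (b (l 16775120) (l 16774080)) (l 16773184)) (l 16771968))) (l 16775184)))), by decide +kernel⟩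

def k36_pm_012_s : ∃ t, chk3 f_pm_012_s t 275 491 2 = true :=
  ⟨(c (c (c (a (a (b (b (a (l 16775536) (l 16775088)) (l 16774936)) (c (l 16774176) (l 16773560))) (b (a (l 16774616) (l 16774496)) (l 16773296))) (a (b (l 16773488) (l 16771736)) (b (l 16772256) (l 16770832)))) (a (a (b (c (l 16773688) (l 16775024)) (l 16773624)) (b (l 16774128) (l 16772744))) (b (l 16774120) (l 16771416)))) (a (c (b (l 16772664) (l 16773272)) (l 16771408)) (b (c (l 16772912) (l 16773016)) (l 16771624)))) (c (l 16772864) (l 16773576))), by decide +kernel⟩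

def k37_pm_012_s : ∃ t, chk3 f_pm_012_s t 272 246 2 = true :=
  ⟨(b (l 3) (a (a (l 3) (b (l 3) (c (a (c (b (l 3) (c (b (l 3) (a (l 273435065719) (b (l 192904429447) (l 16777072)))) (l 235854101207))) (l 281488128727)) (c (b (b (l 3) (l 327122157575)) (a (b (a (l 286319968023) (b (l 323900931943) (l 16777160))) (l 16776944)) (b (a (b (l 170892722087) (l 16777048)) (l 16777032)) (l 16776408)))) (b (l 338396446727) (l 16777032)))) (l 196662525383)))) (c (b (c (a (b (l 3) (a (l 3) (a (l 361481895943) (b (l 3) (a (l 264308260631) (b (l 294909902727) (l 16777136))))))) (a (b (l 3) (a (c (b (l 297594257415) (l 16777136)) (l 162839658231)) (b (b (l 226190425959) (l 16777104)) (l 16776840)))) (b (c (b (l 348060123143) (a (b (l 3) (l 180019527559)) (a (b (l 209010556855) (l 16777080)) (l 16777056)))) (l 222969200215)) (c (c (b (l 16776864) (l 16776016)) (l 16776688)) (l 16776696))))) (a (l 317995352055) (b (l 252497100791) (c (l 16776928) (l 16776936))))) (b (a (a (c (a (b (l 3) (b (l 259476422455)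 (l 16777136))) (c (b (c (l 256792067447) (l 263234518807)) (l 16777000)) (l 137606725415))) (l 185925107271)) (c (a (b (a (b (l 254644584327) (l 16777104)) (l 16777088)) (l 16776464)) (b (l 16776920) (l 16776240))) (l 16776872))) (c (c (a (c (b (l 16776096) (l 16776232)) (l 16775760)) (a (l 16776416) (l 16775864))) (l 16774904)) (l 16776248))) (c (a (a (a (b (l 16776872) (l 16776192)) (b (l 16776328) (l 16776296))) (b (a (l 16776432) (l 16776216)) (l 16776304))) (a (b (l 16776224) (l 16775544)) (a (l 16775392) (l 16775176)))) (l 16775992)))) (b (a (l 309942288343) (c (l 145659789847) (l 16777136))) (c (l 16776384) (l 16776432)))))), by decide +kernel⟩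

def k38_pm_012_s : ∃ t, chk3 f_pm_012_s t 546 246 2 = true :=
  ⟨(a (b (b (l 3) (b (l 3) (c (c (a (b (l 3) (c (a (l 3) (l 273435065719)) (l 304573578935))) (c (b (a (l 3) (b (l 331417124711) (l 144049176487))) (a (b (l 190756945799) (l 16777072)) (l 16776944))) (b (l 259476422327) (l 16777056)))) (c (l 219211103655) (l 218137361911))) (l 188072591959)))) (c (c (b (c (a (b (b (a (b (l 283635613543) (l 16777160)) (l 16777024)) (l 16776744)) (b (a (l 16776536) (l 16776320)) (l 16776072))) (b (c (b (l 16776200) (l 16776336)) (l 16775872)) (c (l 16776128) (l 16775816)))) (b (l 16777000) (l 16774744))) (b (c (a (l 16775864) (l 16775096)) (l 16775352)) (c (l 16774928) (l 16774656)))) (b (c (l 16776424) (l 16776440)) (l 16773768))) (l 16776024))) (c (b (b (c (b (l 3) (l 360408154119)) (l 366850605047)) (b (a (c (a (l 330343382391) (b (l 3) (b (l 245517778791) (l 16777128)))) (l 261087034887)) (c (b (c (c (a (l 254644584215) (b (l 148344143799) (l 16777040))) (l 164987141239)) (l 166597754615))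 (c (l 16776720) (l 16776888))) (l 16777072))) (c (c (c (a (b (a (l 16777160) (l 16776200)) (l 16776120)) (b (l 16775872) (l 16776168))) (l 16776408)) (l 16776584)) (l 16776608)))) (b (c (a (c (b (b (l 16776256) (l 16775904)) (l 16775368)) (l 16774448)) (b (a (l 16775928) (l 16775872)) (l 16775280))) (l 16774288)) (c (c (b (l 16774760) (l 16773720)) (l 16774144)) (l 16772928)))) (b (b (l 363629379543) (l 3925869415)) (l 16775088)))), by decide +kernel⟩

def k39_pm_012_s : ∃ t, chk3 f_pm_012_s t 547 246 2 = true :=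
  ⟨(c (c (b (a (b (a (b (l 3) (c (b (l 306721062263) (a (b (l 298667999079) (l 16777176)) (l 16777040))) (b (l 311552900791) (l 16777152)))) (a (b (l 3) (b (b (l 205789331287) (l 16777088)) (l 16776824))) (b (a (l 317995351415) (b (l 3) (b (l 327122157415) (l 16777160)))) (b (l 16776952) (l 16775952))))) (c (a (b (b (l 16776792) (a (l 16776552) (l 16776328))) (c (l 16776232) (l 16775912))) (b (b (l 16775864) (l 16776000)) (l 16775792))) (l 16775904))) (b (b (b (a (a (l 314237255687) (b (l 251960229735) (l 16777128))) (a (l 16777000) (l 16776456))) (c (c (a (a (l 16777168) (l 16776208)) (l 16775872)) (l 16776760)) (l 16776768))) (c (b (c (a (l 16775960) (l 16776176)) (l 16775752)) (a (l 16776264) (l 16775824))) (l 16774936))) (b (c (a (l 16775984) (l 16775296)) (l 16775552)) (a (l 16775208) (l 16774608))))) (b (b (c (a (c (l 16775296) (l 16774984)) (l 16774088)) (a (l 16775024) (l 16774152))) (c (a (l 16774920) (l 16773376)) (l 16775200))) (a (b (l 16773832) (l 16772872)) (b (l 16772704)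 (l 16771992))))) (b (b (a (b (l 306184191991) (c (l 126869306311) (l 16777128))) (c (l 16776936) (l 16776624))) (c (l 16775672) (l 16775704))) (a (b (l 16773448) (l 16773400)) (b (l 16773920) (l 16772560))))) (b (b (a (l 172503333095) (l 16776672)) (l 16775800)) (l 16773192))), by decide +kernel⟩

def k40_pm_012_s : ∃ t, chk3 f_pm_012_s t 272 247 4 = true :=
  ⟨(b (c (b (b (a (a (b (a (l 3) (a (l 330880253959) (b (l 282561871671) (a (l 145659789223) (l 16777104))))) (b (a (l 364166250503) (a (a (l 204715589511) (l 16777144)) (l 16776976))) (a (a (l 3) (a (l 261623906183) (l 16777184))) (l 16776912)))) (c (c (a (c (b (l 16776832) (l 16776064)) (l 16776576)) (b (l 16775984) (l 16776120))) (l 16776320)) (l 16776536))) (a (c (a (a (l 16776304) (l 16775752)) (l 16775752)) (l 16774368)) (a (l 16775256) (l 16774576)))) (a (a (c (a (a (b (b (l 217063620455) (l 16777096)) (l 16776496)) (b (l 16776968) (l 16776608))) (c (b (c (l 16776144) (l 16775984)) (l 16776280)) (l 16775808))) (l 16776776)) (c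 (a (b (l 16776200) (l 16775848)) (l 16775920)) (l 16774528))) (c (a (c (l 16775248) (l 16774944)) (l 16774048)) (a (l 16774976) (l 16774120))))) (b (a (c (a (a (a (b (l 16776472) (l 16776112)) (l 16776240)) (a (l 16775856) (l 16775640))) (a (l 16775312) (l 16774872))) (a (l 16774680) (l 16775136))) (c (a (l 16774872) (l 16773336)) (l 16774504))) (a (a (c (a (l 16775800) (l 16775032)) (l 16775288)) (c (l 16774704) (l 16774432))) (c (c (l 16773448) (l 16773080)) (l 16773144))))) (a (a (b (b (a (l 292762419191) (l 123648082231)) (l 16776712)) (l 16775688)) (b (l 16776216) (l 16773224))) (a (b (a (l 16774288) (l 16773872)) (l 16772720)) (b (l 16773248) (l 16773200))))) (b (c (a (c (a (b (l 16774864) (l 16773816)) (c (l 16773608) (l 16773320))) (a (l 16774896) (l 16773376))) (c (a (l 16772752) (l 16771536)) (l 16772736))) (a (a (l 16773024) (l 16773504)) (a (l 16772672) (l 16771832)))) (c (c (a (a (l 16773072) (l 16771864)) (c (l 16771160) (l 16770568))) (a (c (l 16773688) (l 16772424)) (l 16770672)))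 (a (c (l 16772504) (l 16772608)) (l 16772192))))), by decide +kernel⟩

def k41_pm_012_s : ∃ t, chk3 f_pm_012_s t 273 247 4 = true :=
  ⟨(c (b (b (c (a (a (c (l 16773832) (l 16773544)) (l 16772968)) (c (l 16771680) (l 16771336))) (a (a (l 16773600) (l 16772736)) (l 16771424))) (c (a (a (l 16772744) (l 16771200)) (c (l 16769816) (l 16769896))) (a (l 16773072) (l 16770008)))) (c (a (b (c (l 16770168) (l 16770232)) (l 16769408)) (b (l 16769064) (l 16766952))) (a (b (l 16770344) (l 16768928)) (l 16769192)))) (b (b (a (a (l 16773720) (l 16772880)) (l 16772928)) (a (c (l 16771880) (l 16772000)) (l 16770248))) (a (c (l 16771112) (l 16769968)) (c (l 16768080) (l 16768296))))), by decide +kernel⟩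

def k42_pm_012_s : ∃ t, chk3 f_pm_012_s t 136 247 5 = true :=
  ⟨(a (a (a (b (c (b (l 106468210599) (l 16775760)) (l 16776480)) (l 16773904)) (b (l 16775664) (l 16770512))) (c (b (l 16774432) (l 16769208)) (l 16773352))) (c (a (b (l 16770224) (l 16770232)) (b (l 16766000) (l 16768624))) (b (l 16768392) (l 16764608)))), by decide +kernel⟩

def k43_pm_012_s : ∃ t, chk3 f_pm_012_s t 137 123 4 = true :=
  ⟨(b (a (c (b (c (a (b (b (a (a (b (l 16775952) (l 16776088)) (a (l 16775936) (l 16775712))) (c (l 16775472) (l 16775168))) (a (a (l 16775888) (l 16775112)) (l 16775104))) (a (b (l 16774952) (l 16773912)) (c (l 16774016) (l 16773400)))) (a (b (a (l 16774464) (l 16774344)) (l 16773136)) (b (l 16773344) (l 16771584)))) (a (b (a (a (l 16774632) (l 16774200)) (c (l 16773528) (l 16774864))) (a (l 16775640) (l 16773456))) (b (c (l 16774176) (l 16773560)) (l 16773456)))) (a (c (a (b (l 16773168) (l 16771400)) (b (l 16771944) (l 16770504))) (b (l 16773152) (l 16771088))) (c (b (c (l 16771216) (l 16770632))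 (l 16769808)) (b (l 16770736) (l 16769320))))) (c (b (a (b (l 16775336) (l 16772008)) (b (l 16771008) (l 16772256))) (a (a (l 16773648) (l 16771480)) (l 16771504))) (a (b (l 16774712) (l 16769416)) (b (l 16770424) (l 16770360))))) (c (b (c (b (a (c (l 16772128) (l 16771696)) (l 16770424)) (a (c (l 16770192) (l 16770264)) (l 16768416))) (a (b (l 16771784) (l 16770376)) (l 16769968))) (b (c (a (l 16769440) (l 16766960)) (l 16769064)) (c (a (l 16767336) (l 16765512)) (l 16767968)))) (b (a (b (l 16773288) (l 16770616)) (c (l 16769496) (l 16769680))) (a (c (l 16768464) (l 16768680)) (l 16768160))))) (a (a (c (b (c (b (l 16770080) (l 16768056)) (l 16769944)) (c (c (l 16766464) (l 16765928)) (l 16766104))) (b (c (l 16769144) (l 16769336)) (l 16767792))) (c (b (c (a (l 16768080) (l 16767824)) (l 16767192)) (b (l 16766224) (l 16763464))) (b (l 16768512) (l 16764768)))) (c (b (c (a (c (l 16766392) (l 16765208)) (l 16764624)) (a (l 16765408) (l 16763616))) (c (a (l 16763520) (l 16760368)) (l 16762944)))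 (b (c (l 16767424) (l 16765104)) (c (l 16761992) (l 16762360)))))), by decide +kernel⟩

def k44_pm_012_s : ∃ t, chk3 f_pm_012_s t 137 123 5 = true :=
  ⟨(b (b (a (a (l 16774216) (l 16773320)) (c (c (l 16766768) (l 16765640)) (l 16765920))) (a (c (a (l 16769616) (l 16770624)) (l 16766512)) (a (l 16764000) (l 16762424)))) (a (a (b (a (l 16764984) (l 16764208)) (l 16762040)) (b (l 16763024) (l 16760464))) (c (b (l 16760336) (l 16762936)) (c (l 16759568) (l 16759944))))), by decide +kernel⟩

def k45_pm_012_s : ∃ t, chk3 f_pm_012_s t 68 61 3 = true :=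
  ⟨(b (a (a (l 3) (b (l 3) (c (l 349133861975) (l 353965702679)))) (b (a (l 3) (b (l 3) (a (l 355039444759) (c (l 155323464871) (l 144586049751))))) (a (a (b (l 3) (b (l 215453009831) (l 16778832))) (b (b (l 3) (l 165524015271)) (c (l 16775992) (l 16776192)))) (a (b (b (l 113984408183) (l 16776312)) (l 16774816)) (c (l 16774336) (l 16774808)))))) (a (b (b (a (l 3) (a (b (l 359871283047) (c (l 138143597895) (l 16777008))) (c (c (l 16776552) (l 16776616)) (l 16776600)))) (c (a (a (l 276656291671) (b (l 184851366999) (l 16776512))) (a (l 16775688) (l 16774320))) (a (a (l 278266904327) (b (l 177335174471) (l 16776624))) (l 16775344)))) (a (c (b (a (b (l 16776784) (l 16775624)) (l 16774816)) (l 16773256)) (b (a (l 16776376) (l 16775168)) (l 16773824))) (c (c (l 16771456) (l 16771848)) (b (l 16773440) (l 16771520))))) (c (b (a (c (l 16773240) (l 16773528)) (c (l 16770408) (l 16770912))) (a (c (l 16763384) (l 16769232)) (l 16764880))) (b (a (b (l 16774912) (l 16773048)) (l 16771712)) (a (l 16770200)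 (l 16767944)))))), by decide +kernel⟩

def k46_pm_012_s : ∃ t, chk3 f_pm_012_s t 552 122 2 = true :=
  ⟨(b (b (a (l 3) (c (b (l 3) (a (c (b (l 3) (b (l 317995352071) (a (a (l 281488129895) (l 177872043863)) (l 16777072)))) (l 258939551719)) (c (b (c (b (l 3) (l 265918872951)) (l 296520515575)) (a (b (a (l 187535720279) (l 16777144)) (l 16776856)) (l 16776640))) (l 165524011783)))) (l 248202130775))) (c (a (b (b (c (b (a (l 3) (a (l 284172484615) (a (l 167671496535) (l 16777120)))) (c (a (c (a (l 373829926919) (l 194515041495)) (l 244980907783)) (l 16776936)) (l 133848628919))) (l 188609461671)) (c (c (b (a (a (a (l 140827951015) (l 16777096)) (l 16776928)) (l 16775936)) (a (l 16776032) (l 16776240))) (l 16776656)) (l 16776672))) (c (c (a (b (a (l 16775624) (l 16776056)) (l 16775464)) (b (l 16776376) (l 16775016))) (l 16774320)) (l 16775688))) (c (b (c (a (b (b (l 16776840) (l 16775832)) (c (l 16776616) (l 16775976))) (b (a (l 16775672) (l 16776104)) (l 16775520))) (l 16776120)) (c (c (b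 (l 16775688) (l 16774328)) (l 16775360)) (l 16773440))) (l 16774760))) (c (l 16777312) (l 16776080)))) (c (c (b (c (a (b (a (l 16774744) (l 16774616)) (l 16773432)) (b (l 16773616) (l 16771872))) (b (c (l 16775104) (l 16773832)) (l 16773744))) (c (b (c (l 16771520) (l 16770936)) (l 16769472)) (b (l 16771040) (l 16769640)))) (b (c (b (l 16771272) (l 16772544)) (l 16770696)) (c (l 16773120) (l 16770672)))) (b (l 16773584) (l 16767184)))), by decide +kernel⟩

def k47_pm_012_s : ∃ t, chk3 f_pm_012_s t 553 122 2 = true :=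
  ⟨(c (b (c (a (b (b (b (l 3) (a (l 3) (b (l 340007059447) (a (l 246054649607) (a (l 109152567175) (l 16777056)))))) (b (b (a (a (l 316384739335) (a (l 205789331287) (l 16777160))) (l 16776880)) (c (a (l 16777064) (l 16775880)) (l 16776768))) (a (b (l 16776640) (l 16775640)) (b (l 16775544) (l 16775856))))) (b (c (b (a (l 16776416) (l 16775312)) (l 16775496)) (l 16773928)) (c (c (l 16774424) (l 16773808)) (l 16773864)))) (b (c (a (b (b (l 312089771367) (c (b (a (l 162302786775) (l 16777008)) (l 16776776)) (l 16776952))) (b (a (l 16775712) (l 16776144)) (l 16775560))) (b (a (b (b (l 349670735879) (l 4999610247)) (l 16775952)) (b (c (b (l 174113947495) (l 16776904)) (l 16777080)) (l 16775728))) (b (l 16776456) (l 16775112)))) (b (b (a (l 310479159287) (l 140827950823)) (l 16776736)) (l 16774408))) (b (b (a (l 16774888) (l 16774440)) (l 16774216)) (a (l 16773400) (l 16772704))))) (b (a (b (l 285783097303) (l 16777280)) (b (a (l 174113945671) (l 16776872)) (l 16775768))) (c (b (l 16772232)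 (l 16773512)) (l 16771640)))) (b (b (c (c (c (l 16772384) (l 16771952)) (l 16772040)) (l 16769608)) (c (c (c (l 16770464) (l 16770544)) (l 16770656)) (l 16770888))) (c (c (b (l 16770384) (l 16767640)) (l 16769872)) (c (l 16768760) (l 16768976))))) (b (b (c (b (l 174650819335) (l 16776256)) (l 97341403047)) (l 16774464)) (b (l 16769400) (l 16764296)))), by decide +kernel⟩

def k48_pm_012_s : ∃ t, chk3 f_pm_012_s t 277 122 2 = true :=
  ⟨(c (a (b (c (b (a (c (a (b (c (b (l 16776616) (l 16776696)) (l 16776400)) (c (l 16775320) (l 16775016))) (b (b (a (l 16775744) (l 16776176)) (l 16775592)) (l 16774880))) (b (l 16776192) (l 16774832))) (c (b (b (a (l 16776496) (l 16775384)) (l 16775576)) (c (l 16774512) (l 16773888))) (b (l 16774000) (l 16773952)))) (c (a (b (l 16773712) (l 16771976)) (b (l 16772472) (l 16771064))) (b (l 16774336) (l 16771648)))) (b (b (l 16775808) (c (l 16771840) (l 16774528))) (b (l 16771208) (l 16771848)))) (c (c (b (b (l 16770760) (l 16768680)) (c (l 16767776) (l 16766584)))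 (b (l 16770880) (l 16766768))) (b (c (l 16769752) (l 16769944)) (l 16767144)))) (b (c (b (c (b (a (a (l 16774912) (l 16774784)) (l 16773776)) (a (l 16773616) (l 16772056))) (b (a (l 16774424) (l 16773536)) (l 16772616))) (c (b (c (l 16771728) (l 16771136)) (l 16769688)) (b (l 16771240) (l 16769864)))) (b (b (l 16771808) (l 16770168)) (c (l 16770720) (l 16770888)))) (c (c (b (c (l 16768152) (l 16767608)) (l 16765664)) (b (l 16767776) (l 16764968))) (b (l 16770744) (l 16765416))))) (b (c (b (l 16774456) (c (l 16766640) (l 16766792))) (l 16773456)) (c (b (l 16764184) (l 16761624)) (a (l 16764216) (l 16757448))))), by decide +kernel⟩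

def k49_pm_012_s : ∃ t, chk3 f_pm_012_s t 138 122 3 = true :=
  ⟨(b (c (a (b (a (l 248739005847) (l 16778224)) (l 16776832)) (c (l 16773712) (l 16773984))) (a (b (a (l 246054651207) (l 16776792)) (l 16775824)) (l 16774432))) (c (a (c (l 16772112) (l 16772496)) (l 16769584)) (a (l 16773120) (l 16770896)))), by decide +kernel⟩

def k50_pm_012_s : ∃ t, chk3 f_pm_012_s t 139 122 1 = true :=
  ⟨(b (c (c (c (a (b (c (a (b (c (l 16772712) (l 16772112)) (l 16771336)) (b (l 16770904) (l 16768848))) (a (c (l 16772792) (l 16774176)) (l 16771040))) (c (a (b (l 16769272) (l 16767856)) (c (l 16767976) (l 16766784))) (a (l 16768760) (l 16766968)))) (c (b (a (c (l 16768968) (l 16767760)) (l 16767168)) (a (l 16766184) (l 16763016))) (b (a (l 16767936) (l 16766128)) (l 16765568)))) (a (b (a (b (l 16772384) (l 16771072)) (a (l 16770440) (l 16769576))) (a (l 16770392) (l 16767352))) (b (c (l 16769912) (l 16767552)) (c (l 16764584) (l 16764920))))) (c (b (a (l 16765976) (l 16762728)) (a (l 16763472) (l 16765448)))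 (a (l 16770416) (l 16762136)))) (c (a (l 16771144) (l 16768456)) (a (l 16772224) (l 16770048)))) (c (a (c (c (c (a (b (c (l 16765648) (l 16765776)) (l 16762824)) (b (l 16765168) (l 16760968))) (b (l 16766056) (l 16762256))) (b (c (l 16765376) (l 16765688)) (l 16764120))) (c (a (l 16760456) (l 16764064)) (l 16760408))) (b (c (c (c (c (l 16762288) (l 16761168)) (l 16761456)) (l 16764672)) (l 16758104)) (c (c (c (c (l 16758056) (l 16758280)) (l 16758616)) (l 16759320)) (l 16755608)))) (a (c (l 16766888) (l 16768696)) (c (l 16764192) (l 16766536))))), by decide +kernel⟩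

def k51_pm_012_s : ∃ t, chk3 f_pm_012_s t 69 123 1 = true :=
  ⟨(c (c (b (a (c (a (c (b (a (a (l 16768424) (l 16768160)) (c (l 16766720) (l 16765536))) (a (c (l 16764328) (l 16764472)) (l 16763864))) (b (a (l 16767528) (l 16765736)) (l 16764608))) (c (a (b (l 16764936) (l 16760704)) (b (l 16761776) (l 16758840))) (b (l 16764344) (l 16760168)))) (a (b (a (l 16769184) (l 16766144)) (c (l 16764104) (l 16764432))) (b (c (l 16763376) (l 16763728)) (l 16763408)))) (c (a (c (b (c (l 16761496) (l 16759080)) (l 16757344)) (b (l 16759400) (l 16756520))) (b (c (l 16757856) (l 16755752)) (c (l 16752272) (l 16752856)))) (a (c (l 16759744) (l 16761544)) (c (l 16754880) (l 16755472))))) (a (c (a (b (c (a (l 16761464) (l 16759608)) (l 16760912)) (c (c (l 16760096) (l 16757688)) (l 16758016))) (b (c (c (l 16756704) (l 16756928)) (l 16757272)) (c (l 16756456) (l 16754368)))) (a (c (b (l 16761296) (l 16758464)) (l 16762600)) (c (l 16758624) (l 16756864)))) (c (a (b (c (l 16753056) (l 16753616)) (c (l 16750064)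 (l 16750688))) (b (c (l 16749280) (l 16749936)) (c (l 16746256) (l 16746984)))) (a (c (l 16752768) (l 16753400)) (b (l 16750968) (l 16748120)))))) (a (a (b (c (b (l 16762304) (l 16764944)) (a (l 16762408) (l 16755640))) (c (b (l 16762312) (l 16759656)) (l 16756688))) (b (c (b (l 16764280) (l 16761664)) (l 16758592)) (b (l 16754320) (l 16751728)))) (b (a (b (l 16754944) (l 16753704)) (b (l 16747832) (l 16755768))) (c (a (l 16754392) (l 16752392)) (b (l 16755512) (l 16742520)))))) (c (a (a (b (l 16767936) (l 16763464)) (b (l 16765216) (l 16750264))) (b (c (l 16752648) (l 16751368)) (a (l 16747560) (l 16744896)))) (a (b (a (l 16769472) (l 16767256)) (a (l 16765712) (l 16763520))) (b (l 16758760) (a (l 16761360) (l 16759272)))))), by decide +kernel⟩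

def k52_pm_012_s : ∃ t, chk3 f_pm_012_s t 70 480 2 = true :=
  ⟨(a (l 3) (c (a (b (a (l 3) (a (c (b (l 342154543047) (a (c (l 253570841303) (l 16777000)) (b (l 138680467191) (l 16776888)))) (l 219211103383)) (c (b (a (a (l 209547427463) (l 95193922663)) (l 16776784)) (l 16776048)) (l 16776720)))) (c (a (b (a (l 3) (a (l 365776863191) (b (l 280951259127) (l 109689437911)))) (a (c (l 307794804695) (l 306721062871)) (a (b (l 182703881911) (l 16776960)) (l 16776672)))) (c (c (a (b (l 16776624) (l 16774992)) (b (l 16775712) (l 16775064))) (l 16775536)) (l 16775888))) (a (a (l 315847868327) (l 149954755751)) (l 16775944)))) (a (c (c (a (b (c (b (l 16774784) (l 16775448)) (l 16774480)) (l 16775800)) (b (c (l 16776168) (l 16774888)) (l 16773584))) (l 16774336)) (l 16774848)) (c (a (b (l 16775320) (l 16772736)) (b (l 16773120) (l 16771840))) (l 16770536)))) (a (c (a (l 240685940551) (l 16776616)) (l 137069856247)) (l 16774304)))), by decide +kernel⟩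

def k53_pm_012_s : ∃ t, chk3 f_pm_012_s t 70 481 2 = true :=
  ⟨(a (a (l 3) (b (c (a (l 3) (c (a (l 3) (a (l 327122156855) (b (l 3) (b (l 220821716663) (l 16777024))))) (l 272361324439))) (l 308331675415)) (c (b (a (l 3) (c (b (a (l 3) (c (a (l 108078825271) (l 16775392)) (l 16776936))) (a (a (l 3) (a (l 289004322567) (l 16777168))) (l 16776608))) (l 153175979751))) (a (c (l 353428831527) (l 355576315799)) (c (c (a (a (b (l 258402680503) (l 16777080)) (l 16776792)) (a (l 16775680) (l 16775888))) (l 16777240)) (l 16776608)))) (a (l 353428832103) (l 16776976))))) (c (c (c (a (a (a (b (b (a (b (l 328195899367) (l 144586047255)) (l 16777088)) (l 16776176)) (b (a (l 16776080) (l 16775624)) (l 16775200))) (b (a (b (l 16775160) (l 16775824)) (b (l 16776016) (l 16775368))) (l 16775600))) (a (b (c (l 16775656) (l 16775024)) (l 16773712)) (b (l 16774104) (l 16772800)))) (a (b (l 16774048) (l 16771432)) (l 16771248))) (b (a (a (a (b (l 16777160) (l 16776520)) (l 16775952)) (l 16772000)) (a (l 16772848)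 (l 16771080))) (a (a (l 16772504) (l 16773352)) (l 16773312)))) (a (c (a (l 16775800) (l 16771456)) (l 16775008)) (a (l 16769792) (l 16770720)))) (a (c (l 16775112) (l 16775256)) (l 16772088)))), by decide +kernel⟩

def k54_pm_012_s : ∃ t, chk3 f_pm_012_s t 70 482 2 = true :=
  ⟨(a (a (a (l 3) (a (l 3) (b (l 3) (c (c (a (b (l 3) (b (l 308868546551) (a (l 215989878535) (l 16777072)))) (c (b (b (l 3) (l 245517778647)) (a (l 16777008) (l 16776784))) (l 149954756103))) (l 197199395991)) (l 16777160))))) (a (c (c (b (a (b (l 3) (a (l 362018766823) (b (l 280951259127) (a (l 180019527431) (l 16777024))))) (a (c (b (b (l 3) (l 215453007623)) (l 16776848)) (l 138143595991)) (b (a (b (l 235317231367) (l 16777000)) (l 16776936)) (l 16776400)))) (c (a (a (b (c (b (l 172503334023) (l 16776928)) (l 16777096)) (l 16775784)) (b (l 16776640) (l 16775984))) (b (a (l 16775536) (l 16775736)) (l 16775960))) (a (l 16776560) (l 16773048)))) (b (a (l 264308260807) (l 16776976)) (l 16776160))) (a (l 122574341479)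 (l 16776440))) (c (c (c (b (a (c (b (l 16776280) (l 16776360)) (l 16776048)) (b (l 16776112) (l 16774800))) (a (c (l 16775360) (l 16774736)) (l 16775120))) (b (l 16775624) (l 16771720))) (l 16775072)) (l 16775264)))) (a (c (a (b (c (a (a (l 16775136) (l 16774032)) (l 16773848)) (l 16771360)) (c (c (l 16773096) (l 16772560)) (l 16772744))) (c (c (a (l 16772552) (l 16772128)) (l 16774048)) (l 16769040))) (l 16772936)) (c (c (c (a (l 16770752) (l 16767616)) (a (l 16769640) (l 16767864))) (c (l 16771600) (l 16769216))) (l 16769848)))), by decide +kernel⟩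

def k55_pm_012_s : ∃ t, chk3 f_pm_012_s t 70 483 2 = true :=
  ⟨(c (a (c (b (a (a (a (l 3) (b (l 3) (a (l 3) (a (l 285246226423) (b (l 322290319111) (l 16777112)))))) (a (a (b (l 293299289431) (a (b (l 148881014615) (l 16776888)) (l 16776824))) (b (b (a (l 311016029959) (l 134385499959)) (l 16776976)) (l 16776384))) (c (a (b (l 16776688) (l 16776024)) (b (l 16775576) (l 16775568))) (l 16776152)))) (a (a (c (c (b (l 16776200) (l 16774872)) (l 16773920)) (l 16775272)) (b (l 16775328) (l 16774016))) (a (a (l 16773664) (l 16773216)) (l 16773848)))) (a (a (a (a (a (l 328195898711) (b (l 3) (b (l 347523252215) (l 16777144)))) (b (l 307794804055) (a (b (l 180019527431) (l 16776920)) (l 16776856)))) (c (a (b (b (l 221358586999) (l 16777016)) (l 16776512)) (b (l 16776728) (l 16776056))) (l 16776632))) (c (a (b (a (l 16775616) (l 16775816)) (l 16776032)) (a (l 16775680) (l 16774568))) (l 16775304))) (a (c (a (l 16774544) (l 16772976)) (l 16773520)) (a (l 16772120) (l 16771216))))) (a (a (b (l 304573579175)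 (a (l 213305523271) (l 16776656))) (a (b (l 122574339303) (l 16775800)) (l 16775576))) (a (l 16773968) (c (l 16769896) (l 16772648))))) (a (a (c (c (c (l 16771216) (l 16770480)) (l 16770608)) (l 16767592)) (c (b (l 16769376) (l 16768048)) (l 16769160))) (c (c (c (l 16767088) (l 16765920)) (l 16766136)) (l 16769208)))) (a (a (a (a (l 250349617015) (l 133311757079)) (l 16777432)) (l 16773776)) (a (l 16770672) (l 16762328)))), by decide +kernel⟩

def k56_pm_012_s : ∃ t, chk3 f_pm_012_s t 140 121 4 = true :=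
  ⟨(b (c (b (a (a (c (a (b (a (b (l 16776752) (l 16775432)) (b (l 16775648) (l 16775632))) (b (l 16775840) (l 16774512))) (b (c (b (l 16776264) (l 16774936)) (l 16773984)) (l 16774592))) (b (l 16775448) (c (l 16772480) (l 16774480)))) (a (c (b (c (l 16775008) (l 16774392)) (l 16773024)) (b (l 16774440) (l 16773128))) (b (a (l 16774384) (l 16773280)) (l 16772824)))) (c (a (b (l 16772744) (l 16770736)) (c (l 16770840) (l 16769624))) (a (l 16773192) (l 16769760)))) (a (c (a (b (a (l 16774152) (l 16772584)) (l 16772168)) (b (l 16771864) (l 16769840))) (a (b (l 16773136) (l 16771808)) (l 16772000))) (a (c (c (l 16769944) (l 16768736)) (l 16768896)) (c (l 16766840) (l 16767096))))) (c (a (a (b (l 16775176) (l 16769976)) (b (l 16770816) (l 16770856))) (b (a (l 16771696) (l 16769960)) (l 16770856))) (a (b (l 16774384) (l 16767944)) (b (l 16765768) (l 16768488))))) (a (c (b (b (c (a (l 16770304) (l 16768464)) (l 16770880)) (c (a (l 16768920) (l 16767072)) (l 16768224))) (c (a (c (l 16766768) (l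 16766888)) (l 16766288)) (l 16767488))) (c (b (a (l 16769984) (l 16768232)) (l 16766456)) (b (l 16769328) (l 16766752)))) (c (c (a (b (l 16767232) (l 16763120)) (b (l 16764072) (l 16761264))) (b (l 16767920) (l 16762560))) (b (c (l 16765608) (l 16765928)) (l 16765760))))), by decide +kernel⟩

def k57_pm_012_s : ∃ t, chk3 f_pm_012_s t 141 121 4 = true :=
  ⟨(b (c (a (c (a (b (l 16769048) (l 16764992)) (b (l 16765896) (l 16763144))) (b (l 16769696) (l 16764400))) (a (b (l 16765520) (l 16761496)) (b (l 16762392) (l 16759672)))) (a (b (c (l 16767344) (l 16767624)) (l 16767536)) (b (l 16764048) (l 16761464)))) (c (a (a (b (l 16763712) (l 16759624)) (b (l 16760568) (l 16757784))) (c (b (l 16757576) (l 16754752)) (l 16756696))) (a (c (l 16763384) (l 16761224)) (c (l 16757248) (l 16757824))))), by decide +kernel⟩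

def k58_pm_012_s : ∃ t, chk3 f_pm_012_s t 70 121 5 = true :=
  ⟨(a (b (c (b (a (l 16774512) (l 16766040)) (a (l 16766872) (l 16763632))) (a (l 16773568) (l 16770560))) (a (b (l 16769752) (a (l 16768312) (l 16766744))) (b (l 16761544) (l 16759152)))) (a (b (b (l 16763120) (l 16760784)) (b (l 16758416) (l 16750776))) (a (b (l 16759624) (l 16749632)) (b (l 16752832) (l 16748088))))), by decide +kernel⟩

def k59_pm_012_s : ∃ t, chk3 f_pm_012_s t 71 60 2 = true :=
  ⟨(b (a (b (a (b (c (a (c (b (l 16773096) (l 16770504)) (l 16771472)) (c (c (l 16771888) (l 16769472)) (l 16769800))) (l 16771256)) (c (c (c (c (l 16768800) (l 16770240)) (l 16770424)) (c (l 16768064) (l 16768328))) (l 16763808))) (c (b (c (c (l 16767888) (l 16766856)) (l 16762056)) (c (c (l 16763960) (l 16764304)) (l 16764856))) (l 16766008))) (c (b (c (a (c (l 16767512) (l 16765208)) (c (l 16761288) (l 16761704))) (a (l 16765712) (l 16762368))) (c (a (c (l 16764816) (l 16762584)) (l 16761432)) (a (l 16763192) (l 16759832)))) (c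 (a (l 16760000) (l 16762120)) (l 16756784)))) (a (b (c (c (c (c (l 16763560) (l 16767040)) (l 16767360)) (b (l 16763984) (l 16761544))) (l 16753704)) (c (c (c (l 16758968) (l 16756904)) (l 16763024)) (l 16749192))) (b (c (c (b (l 16762288) (l 16762328)) (l 16764704)) (l 16750752)) (c (c (c (l 16758016) (l 16753440)) (l 16754480)) (l 16746256))))) (b (a (a (c (c (c (b (l 16759456) (l 16756688)) (l 16763808)) (c (l 16759080) (l 16759608))) (a (l 16751296) (l 16749776))) (c (c (b (l 16756096) (l 16753344)) (l 16755960)) (l 16747512))) (c (c (c (a (l 16750808) (l 16747216)) (a (l 16751512) (l 16748032))) (a (l 16752616) (l 16749304))) (a (l 16744520) (l 16741584)))) (a (c (b (c (a (l 16759424) (l 16750560)) (l 16758968)) (c (c (l 16753792) (l 16749928)) (l 16751072))) (a (l 16747088) (l 16742736))) (c (c (c (a (l 16745136) (l 16741504)) (l 16749472)) (c (l 16745168) (l 16746144))) (b (l 16739456) (l 16737032)))))), by decide +kernel⟩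

def k60_pm_012_s : ∃ t, chk3 f_pm_012_s t 70 122 2 = true :=
  ⟨(c (c (a (b (a (a (c (b (l 16764008) (l 16761152)) (l 16764080)) (c (b (l 16762152) (l 16759288)) (l 16763744))) (c (b (l 16761320) (l 16759104)) (b (l 16759792) (l 16756992)))) (a (c (b (l 16759952) (l 16754416)) (b (l 16757816) (l 16754960))) (c (b (l 16753584) (l 16750656)) (l 16755352)))) (b (a (c (b (l 16755624) (l 16752744)) (l 16754760)) (b (l 16754824) (l 16749352))) (a (b (l 16752784) (l 16747264)) (a (l 16748560) (l 16749328))))) (a (a (b (b (l 16765264) (l 16761272)) (c (l 16756920) (l 16757472))) (b (c (l 16761504) (l 16759392)) (c (l 16753368) (l 16754032)))) (a (b (c (l 16755352) (l 16755968)) (l 16750200)) (b (l 16752184) (l 16746720))))) (a (b (a (b (l 16759872) (l 16757424)) (b (l 16756728) (l 16759512))) (c (a (l 16763576) (l 16755064)) (c (l 16747208) (l 16747896)))) (c (b (a (l 16756936) (l 16753696)) (a (l 16751800) (l 16748552))) (b (l 16746312) (l 16741520))))), by decide +kernel⟩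

def k61_pm_012_s : ∃ t, chk3 f_pm_012_s t 70 123 2 = true :=
  ⟨(c (a (b (c (a (b (c (l 16751464) (l 16752088)) (l 16751456)) (b (l 16750672) (l 16745104))) (a (c (l 16751312) (l 16752016)) (l 16748144))) (a (c (b (c (l 16745488) (l 16746248)) (c (a (l 16743352) (l 16741352)) (l 16743144))) (b (l 16747440) (l 16744408))) (c (b (c (b (l 16742424) (l 16740832)) (l 16742464)) (l 16738672)) (b (l 16743800) (l 16740464))))) (b (a (c (b (l 16744328) (c (l 16740864) (l 16741760))) (b (l 16746040) (l 16743168))) (c (b (c (l 16740112) (l 16741048)) (a (l 16738416) (l 16736384))) (b (l 16742520) (l 16739400)))) (c (c (a (b (l 16737592) (l 16734088)) (l 16731696)) (a (l 16736760) (l 16732664))) (a (l 16735568) (l 16734176))))) (b (a (a (a (l 16744176) (l 16742592)) (c (l 16749824) (l 16751624))) (a (b (l 16748848) (l 16746200)) (b (l 16745688) (l 16742664)))) (a (a (b (l 16750016) (l 16736648)) (b (l 16746680) (l 16743392))) (a (c (l 16740216) (l 16742384)) (l 16737456))))), by decide +kernel⟩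

def k62_pm_012_s : ∃ t, chk3 f_pm_012_s t 71 61 2 = true :=
  ⟨(b (a (a (c (c (b (c (l 16746720) (l 16747504)) (b (l 16742784) (l 16739848))) (b (l 16748736) (l 16743248))) (b (l 16740912) (b (l 16747680) (l 16745160)))) (c (b (c (c (l 16743024) (l 16743912)) (l 16745312)) (c (b (l 16739120) (c (l 16735536) (l 16736592))) (l 16737072))) (b (l 16748344) (b (l 16744624) (l 16741840))))) (a (c (b (c (l 16745080) (l 16741920)) (c (b (l 16735376) (l 16732088)) (l 16730784))) (b (l 16745320) (b (l 16741408) (l 16738232)))) (c (b (c (b (l 16737680) (l 16734704)) (l 16738480)) (c (l 16724624) (l 16732216))) (b (l 16731776) (l 16736200))))) (c (c (a (b (a (b (c (l 16736232) (l 16737248)) (l 16733312)) (l 16733592)) (c (b (l 16727272) (l 16723760)) (l 16726560))) (a (b (l 16726920) (l 16719928)) (b (l 16722888) (l 16715880)))) (a (b (a (l 16734512) (l 16733200)) (c (l 16727640) (l 16728760))) (b (l 16732536) (l 16715048)))) (a (b (a (b (l 16742264) (l 16738896)) (l 16736840)) (c (l 16730520) (l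 16733008))) (b (c (l 16729864) (l 16732608)) (c (l 16722864) (l 16725616)))))), by decide +kernel⟩

def k63_pm_012_s : ∃ t, chk3 f_pm_012_s t 35 30 3 = true :=
  ⟨(b (a (b (a (b (a (l 3) (b (l 3) (a (l 357723796135) (l 122037472935)))) (a (b (l 294373026295) (a (l 141364825511) (l 16776392))) (a (b (l 16779440) (l 16775152)) (l 16773520)))) (b (b (a (a (l 193978174247) (l 16776720)) (l 16774992)) (c (a (l 16775496) (l 16772872)) (l 16774584))) (c (a (l 16772616) (l 16770000)) (l 16766960)))) (a (c (b (a (l 16773976) (l 16771328)) (a (l 16769936) (l 16767280))) (b (a (l 16774584) (l 16772400)) (l 16767616))) (c (b (c (l 16766928) (l 16767848)) (l 16762032)) (a (l 16763336) (l 16755800))))) (c (b (a (b (l 16770008) (l 16766216)) (c (l 16762496) (l 16763952))) (a (b (l 16762272) (l 16758240)) (c (l 16741192) (l 16756536)))) (b (a (b (l 16770656) (l 16767448)) (b (l 16765600) (l 16762384))) (a (b (l 16764280) (l 16761096)) (b (l 16759208) (l 16756064)))))) (c (b (b (a (a (c (l 16753416) (l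 16765032)) (l 16759200)) (a (l 16754104) (l 16733416))) (a (a (c (l 16748968) (l 16750472)) (l 16754960)) (a (c (l 16737952) (l 16751064)) (l 16727936)))) (a (a (b (a (l 16746672) (l 16733552)) (a (l 16741992) (l 16738792))) (b (a (l 16741384) (l 16727920)) (l 16728368))) (a (b (l 16728176) (l 16716072)) (b (l 16716096) (l 16709120))))) (a (b (a (b (l 16766856) (l 16763376)) (a (l 16751544) (l 16749424))) (a (b (l 16759808) (a (l 16756872) (l 16754072))) (b (a (l 16756736) (l 16754216)) (l 16749400)))) (b (a (b (l 16757904) (l 16744408)) (b (l 16731952) (l 16729104))) (a (b (l 16749776) (l 16742992)) (l 16719216)))))), by decide +kernel⟩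

def k64_pm_012_s : ∃ t, chk3 f_pm_012_s t 136 62 1 = true :=
  ⟨(b (b (a (b (c (c (a (c (b (c (c (l 16771160) (l 16770888)) (l 16770984)) (a (l 14) (l 16769704))) (b (l 16772496) (l 16769808))) (c (c (b (l 16769744) (l 16767632)) (l 16769360)) (c (l 16768720) (l 16768912)))) (c (a (l 16768184) (l 16769208)) (l 16765136))) (c (l 16770976) (l 16771864))) (a (l 14) (c (c (c (c (b (l 16766176) (l 14)) (l 16765680)) (l 16767352)) (l 16762896)) (l 16763384)))) (c (c (c (b (b (c (a (l 16767304) (l 16765496)) (l 16767928)) (c (a (l 16765840) (l 16764032)) (l 16765192))) (a (b (l 16765816) (l 16763056)) (c (l 16763144) (l 16762144)))) (b (a (l 16768104) (l 16765424)) (c (l 16763336) (l 16763648)))) (a (b (l 16763920) (l 16760016)) (b (l 16761040) (l 16763688)))) (c (c (l 16761504) (l 16762200)) (l 16768568)))) (a (l 14) (a (l 14) (b (c (c (c (c (l 16758872) (l 16759240)) (l 16759824)) (l 16761072)) (l 16753440)) (l 14))))) (l 14)), by decide +kernel⟩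

def k65_pm_012_s : ∃ t, chk3 f_pm_012_s t 137 62 1 = true :=
  ⟨(a (b (b (c (c (c (b (c (a (l 16764256) (l 16761112)) (c (l 16762264) (l 16762432))) (c (a (l 16760000) (l 16758160)) (l 16762080))) (b (c (l 16762680) (l 16763016)) (l 16760864))) (c (b (l 16763552) (l 16760880)) (b (l 16764296) (l 16761768)))) (c (c (l 16758656) (l 16754336)) (l 16766288))) (b (c (c (c (a (l 16758552) (l 16758032)) (l 16757232)) (c (l 16758192) (l 16759216))) (c (l 16750376) (l 16763280))) (a (l 14) (c (c (c (b (l 16753192) (l 14)) (l 16753432)) (l 16749904)) (l 16749896))))) (l 14)) (b (c (c (b (c (b (c (a (l 16759264) (l 16757408)) (l 16758744)) (c (l 16757016) (l 16755840))) (b (l 16762000) (l 16756568))) (b (c (a (l 16753576) (b (l 16752464) (l 16750960))) (l 16753720)) (c (b (a (l 16751296) (l 16749296)) (l 16748528)) (b (l 16751424) (l 16749656))))) (c (b (b (l 16760280) (l 16757600)) (b (l 16754888) (l 16751736))) (b (l 16754720) (b (l 16756120) (l 16753016))))) (b (c (l 16753752) (l 16764048)) (c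 (b (l 16747640) (l 16744608)) (a (l 16749824) (l 16748376))))) (a (l 14) (b (b (c (c (c (l 16744744) (l 16745864)) (l 16747704)) (l 16741440)) (l 14)) (l 14))))), by decide +kernel⟩

def k66_pm_012_s : ∃ t, chk3 f_pm_012_s t 138 62 1 = true :=
  ⟨(b (b (a (c (c (c (b (c (l 16755920) (l 16755104)) (c (l 16751624) (l 16752184))) (b (l 16755888) (l 16753056))) (b (l 16752320) (l 16754944))) (c (l 16748400) (l 16761832))) (c (c (b (c (c (l 16750848) (l 16751440)) (l 16752368)) (c (c (b (l 16748576) (a (l 16748000) (l 16745992))) (l 16745784)) (l 16748104))) (b (l 16754368) (c (l 16750840) (l 16752360)))) (b (l 16748456) (c (l 16744328) (l 16758416))))) (c (c (c (a (a (b (b (l 16750600) (l 16748992)) (l 16746304)) (b (b (l 16748664) (l 16746920)) (l 16744216))) (b (c (l 16744360) (l 16745016)) (c (l 16740776) (l 16741400)))) (a (b (b (l 16750856) (l 16749200)) (l 16746480)) (c (l 16743872) (l 16744560)))) (a (b (c (l 16751320) (l 16752728)) (l 16748480)) (c (l 16745632) (l 16747152)))) (c (a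 (b (l 16744504) (l 16751456)) (l 16739120)) (a (l 16745968) (l 16753208))))) (b (a (c (c (c (b (c (l 16741336) (l 16741904)) (c (l 16737680) (l 16738224))) (b (l 16742800) (l 16739080))) (c (l 16742192) (l 16743520))) (c (l 16735200) (l 16727912))) (c (c (c (b (l 16739096) (l 16733800)) (l 16734904)) (c (l 16738208) (l 16739640))) (c (l 16741968) (l 16724440)))) (a (l 14) (b (c (c (c (l 16730112) (l 16731280)) (l 16733216)) (c (l 16736136) (l 16739432))) (l 14))))), by decide +kernel⟩

def k67_pm_012_s : ∃ t, chk3 f_pm_012_s t 139 62 1 = true :=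
  ⟨(c (c (a (b (b (c (b (b (l 16748152) (c (l 16746256) (l 16746952))) (a (c (l 16744776) (l 16745464)) (l 16743040))) (b (l 16746160) (l 16745536))) (c (b (l 16741824) (l 16736912)) (b (l 16741944) (l 16738312)))) (b (c (b (l 16733296) (l 16729648)) (l 16732808)) (c (b (l 16725976) (l 16722272)) (l 16725360)))) (b (c (b (b (a (b (l 16745296) (l 16743616)) (l 16742416)) (l 16739912)) (b (l 16736344) (l 16732752))) (b (b (l 16744992) (l 16741464)) (l 16736056))) (b (c (b (l 16729144) (l 16725504)) (l 16728752)) (c (b (l 16721840) (l 16718152)) (l 16721328))))) (b (b (a (b (c (l 16750312) (l 16751936)) (c (l 16747096) (l 16748752))) (b (c (l 16746664) (l 16748448)) (l 16744016))) (c (c (l 16739256) (l 16740072)) (l 16743960))) (b (c (c (l 16731880) (l 16732648)) (l 16733856)) (c (a (l 16726696) (l 16722768)) (l 16726232))))) (b (b (c (a (c (l 16741528) (l 16743360)) (l 16739040)) (a (l 16746304) (l 16753736))) (c (b (l 16735448) (l 16731688)) (l 16732336))) (c (b (a (l 16738280) (l 16734624))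 (c (l 16727840) (l 16729552))) (b (l 16724560) (l 16716592))))), by decide +kernel⟩

def k68_pm_012_s : ∃ t, chk3 f_pm_012_s t 35 62 4 = true :=
  ⟨(a (b (a (c (b (a (b (l 16739296) (l 16735752)) (c (l 16732960) (l 16733808))) (c (b (l 16732344) (l 16728768)) (b (l 16730520) (l 16726928)))) (b (c (l 16739344) (l 16737616)) (c (l 16729552) (l 16730408)))) (c (b (c (a (l 16728800) (l 16724656)) (b (l 16729424) (l 16725880))) (c (b (l 16721408) (l 16717832)) (l 16723136))) (b (c (l 16728608) (l 16729600)) (c (l 16721448) (l 16722408))))) (a (c (b (a (c (l 16722816) (l 16723552)) (c (l 16718656) (l 16719440))) (c (b (l 16715288) (l 16711624)) (b (l 16716016) (l 16712328)))) (b (c (l 16722280) (l 16723104)) (c (l 16714912) (l 16715680)))) (c (b (c (b (l 16714240) (l 16710632)) (l 16715912)) (c (b (l 16707000) (l 16703352)) (l 16708616))) (b (c (l 16714192) (l 16715120)) (c (l 16706840) (l 16707728)))))) (b (c (a (b (c (b (l 16720240) (l 16716696)) (l 16719496)) (c (b (l 16713144) (l 16709568))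 (l 16712352))) (a (b (l 16712856) (l 16705728)) (b (l 16708800) (l 16701664)))) (a (b (c (l 16720560) (l 16721672)) (l 16719176)) (b (l 16713192) (l 16706016)))) (c (a (b (c (b (l 16705976) (l 16702376)) (l 16705144)) (c (b (l 16698752) (l 16695112)) (l 16697856))) (a (b (l 16698536) (l 16691272)) (b (l 16694472) (l 16687208)))) (a (b (l 16711920) (l 16704568)) (b (l 16698760) (l 16691424)))))), by decide +kernel⟩

def k69_pm_012_s : ∃ t, chk3 f_pm_012_s t 35 62 5 = true :=
  ⟨(b (a (a (b (c (c (l 16738528) (l 16739480)) (l 16740968)) (c (l 16731760) (l 16733664))) (b (c (l 16731160) (l 16733368)) (c (l 16723928) (l 16726088)))) (a (b (c (l 16723408) (l 16725872)) (c (l 16716184) (l 16718600))) (c (b (l 16715744) (l 16708528)) (b (l 16718480) (l 16711224))))) (a (a (b (c (l 16728976) (l 16726216)) (c (l 16716904) (l 16718632))) (c (b (l 16716584) (l 16709128)) (b (l 16718664) (l 16711120)))) (a (c (b (l 16708856) (l 16701424)) (b (l 16711208) (l 16703696))) (b (c (l 16701208) (l 16703848))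 (c (l 16693800) (l 16696360)))))), by decide +kernel⟩

def k70_pm_012_s : ∃ t, chk3 f_pm_012_s t 35 62 3 = true :=
  ⟨(a (b (a (c (b (b (l 16725000) (l 16721352)) (a (l 16738568) (l 16734952))) (b (l 16748832) (l 16720360))) (c (b (l 16715976) (l 16708616)) (c (l 16716176) (l 16718944)))) (c (a (b (a (l 16730992) (l 16727400)) (l 16724088)) (b (l 16722056) (l 16714376))) (a (b (l 16712640) (l 16725688)) (b (l 16727096) (l 16719232))))) (b (b (a (c (l 16729880) (l 16714824)) (a (l 16706808) (l 16703536))) (c (a (l 16722544) (l 16715624)) (c (l 16702664) (l 16705928)))) (a (c (b (l 16715048) (l 16707408)) (a (l 16697440) (l 16694312))) (c (b (l 16708152) (l 16700552)) (b (l 16714552) (l 16706792)))))), by decide +kernel⟩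

def k71_pm_012_s : ∃ t, chk3 f_pm_012_s t 17 126 1 = true :=
  ⟨(b (a (b (a (l 14) (a (l 14) (a (l 14) (a (l 14) (c (c (l 16714024) (l 16716816)) (l 16721840)))))) (l 14)) (c (a (c (c (a (c (b (l 16707936) (l 16704224)) (b (l 16708608) (l 16704872))) (c (b (l 16699688) (l 16695992)) (l 16698600))) (a (c (l 16707432) (l 16708152)) (c (l 16699408) (l 16700240)))) (c (a (l 16709296) (l 16701568)) (a (l 16710920) (l 16703456)))) (c (c (a (c (b (l 16691448) (l 16687776)) (l 16690488)) (a (l 16683944) (l 16679888))) (a (l 16697136) (l 16684016))) (a (c (l 16693896) (l 16696072)) (c (l 16686296) (l 16688768))))) (a (a (c (l 16713600) (l 16717616)) (c (l 16706560) (l 16711200))) (a (c (l 16699632) (l 16704960)) (c (l 16692816) (l 16698872)))))) (a (l 14) (a (a (a (l 14) (a (l 14) (b (c (c (l 16698400) (l 16701432)) (l 16706952)) (l 14)))) (c (c (c (c (b (l 16692272) (l 16688536)) (l 16691112)) (c (l 16691864) (l 16692648))) (c (l 16693896) (l 16695680))) (c (l 16693376) (l 16703040)))) (c (c (c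 (a (c (b (l 16684080) (l 16680360)) (l 16683048)) (a (l 16676544) (l 16672504))) (a (c (l 16683920) (l 16684832)) (l 16676528))) (a (c (l 16686280) (l 16688344)) (c (l 16678712) (l 16681080)))) (a (c (l 16691744) (l 16696848)) (c (l 16684984) (l 16690824))))))), by decide +kernel⟩

def k72_pm_012_s : ∃ t, chk3 f_pm_012_s t 17 127 1 = true :=
  ⟨(a (l 14) (a (a (l 14) (a (l 14) (b (a (l 14) (b (c (c (l 16682800) (l 16686120)) (l 16692200)) (l 14))) (l 14)))) (a (b (c (c (c (b (c (l 16676624) (l 16677416)) (c (l 16672864) (l 16673624))) (c (l 16676336) (l 16677200))) (c (l 16678560) (l 16680520))) (c (l 16673280) (l 16688640))) (a (l 14) (a (l 14) (b (c (c (l 16667240) (l 16670896)) (l 16677616)) (l 14))))) (b (c (c (c (c (b (l 16668488) (l 16664752)) (l 16670144)) (c (l 16668472) (l 16669472))) (c (l 16671048) (l 16673312))) (c (l 16677048) (l 16682672))) (c (c (c (c (b (l 16660992) (l 16657216)) (l 16662576)) (c (l 16660856) (l 16661808))) (c (l 16663312) (l 16665472))) (c (l 16658568)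 (l 16674448))))))), by decide +kernel⟩

def k73_pm_012_s : ∃ t, chk3 f_pm_012_s t 36 28 1 = true :=
  ⟨(a (l 3) (b (l 3) (a (a (l 3) (b (l 3) (b (l 3) (c (c (c (b (l 320679706343) (a (l 242833424231) (l 16776728))) (l 188072588327)) (l 163376532471)) (l 138143603271))))) (a (b (l 3) (c (c (b (c (b (l 3) (l 184314494743)) (l 217063620231)) (c (a (l 4462740679) (l 16774552)) (l 16775416))) (b (l 198810011591) (l 16775552))) (b (l 16776896) (l 16775648)))) (c (b (c (b (l 3) (c (l 275582549655) (l 277730033271))) (l 298667998551)) (c (b (c (b (l 69424121063) (l 16774984)) (l 16775952)) (c (l 16772312) (l 16772504))) (l 16774448))) (b (l 279340651015) (l 16774648))))))), by decide +kernel⟩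

def k74_pm_012_s : ∃ t, chk3 f_pm_012_s t 37 28 1 = true :=
  ⟨(b (b (a (l 3) (c (c (b (a (a (l 3) (c (l 117205632871) (l 16776896))) (l 16773384)) (a (a (c (l 113447536535) (l 16776920)) (l 16774600)) (l 16770600))) (a (b (l 160155308679) (l 16776104)) (l 16772184))) (a (c (l 84993385975) (l 16781544)) (l 16772536)))) (a (c (a (c (b (l 3) (l 312089771303)) (l 318532221911)) (c (b (a (l 318532222455) (c (l 111300052839) (l 16776968))) (a (c (l 96267664695) (l 16776888)) (l 16774168))) (b (l 153175986903) (l 16775776)))) (a (l 332490858391) (c (l 80698418407) (l 16782648)))) (c (a (c (c (a (l 16772864) (l 16770144)) (l 16771640)) (l 16771856)) (c (b (l 16767744) (l 16759552)) (l 16766720))) (a (l 16772280) (l 16767568))))) (a (c (c (a (b (a (b (l 292762418791) (c (b (l 105394472023) (l 16775472)) (l 16776416))) (b (c (b (l 134922372087) (l 16775880)) (l 16776784)) (l 16773448))) (c (b (l 16771440) (a (l 16758904) (l 16766536))) (l 16768664))) (b (c (b (l 16772376) (l 16763888)) (l 16770952))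 (c (b (l 16760552) (l 16757144)) (c (l 16753920) (l 16754144))))) (b (a (b (l 130090537687) (l 16775128)) (l 16771272)) (a (l 16770424) (l 16765232)))) (a (b (a (l 104857608615) (l 16775224)) (l 16771144)) (b (l 16771800) (l 16766360)))) (c (a (c (b (a (l 16766744) (l 16756216)) (c (a (l 16749552) (l 16757408)) (l 16748768))) (b (l 16766104) (l 16760160))) (c (a (b (l 16750992) (l 16744648)) (b (l 16748456) (l 16742152))) (b (l 16761048) (l 16755184)))) (a (b (l 16767016) (l 16761640)) (b (l 16762384) (l 16757080)))))), by decide +kernel⟩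

def k75_pm_012_s : ∃ t, chk3 f_pm_012_s t 144 29 1 = true :=
  ⟨(b (b (l 3) (a (b (l 3) (c (c (c (b (l 344302026343) (a (a (l 3) (l 249812744807)) (b (a (l 253570842551) (l 16776944)) (l 16776256)))) (b (l 346449509975) (a (l 265382002471) (l 16776856)))) (b (l 341617671735) (l 137069857447))) (b (l 313700388263) (l 108078831575)))) (c (a (b (l 3) (c (c (b (c (b (l 222969200551) (l 59760442727)) (l 141364820807)) (l 16775112)) (b (l 127406179319) (l 16775224))) (l 16776408))) (c (b (b (l 3) (c (b (l 311016030055) (c (l 131701144759) (l 16777192))) (l 193441298919))) (c (b (l 16775616) (c (l 16770784) (l 16773496))) (l 16774672))) (b (l 214916138887) (l 16774904)))) (b (l 210084303415) (l 16780120))))) (c (c (b (b (c (a (b (b (a (a (l 150491626695) (l 16776424)) (l 16775136)) (a (l 16775720) (l 16771384))) (a (a (a (l 16772008) (l 16771584)) (l 16770944)) (c (l 16772240) (l 16772368)))) (a (c (b (l 16772840) (l 16770576)) (l 16766608)) (b (l 16771272) (l 16769064)))) (a (b (c (l 16775504)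 (l 16775552)) (l 16773360)) (l 16771304))) (b (a (c (a (a (l 16772080) (l 16771248)) (l 16770008)) (l 16765944)) (c (l 16770240) (l 16768136))) (a (c (c (l 16771008) (l 16768616)) (l 16768984)) (c (l 16770592) (l 16765992))))) (a (b (c (c (b (l 16766000) (l 16763584)) (l 16770368)) (c (l 16765472) (l 16765824))) (c (b (l 16763984) (l 16764176)) (l 16766360))) (c (c (b (l 16766952) (l 16756984)) (b (l 16762112) (l 16757512))) (b (l 16762744) (l 16758352))))) (b (b (a (c (l 16774624) (l 16774816)) (l 16771848)) (c (l 16769096) (l 16769680))) (c (b (c (l 16754304) (l 16754736)) (l 16750352)) (l 16763992)))) (b (b (c (l 16773896) (l 16773784)) (a (l 16772368) (l 16770216))) (c (c (l 16765096) (l 16766280)) (l 16760176))))), by decide +kernel⟩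

def k76_pm_012_s : ∃ t, chk3 f_pm_012_s t 145 29 1 = true :=
  ⟨(b (b (b (l 3) (c (c (c (a (b (l 3) (l 315847868087)) (b (a (l 344838897431) (b (l 221895457735) (l 16776816))) (a (a (l 150491626455) (l 16776528)) (l 16775320)))) (a (l 327659027959) (a (l 164450270055) (l 16777704)))) (a (l 324974673351) (c (l 102173247879) (l 16776880)))) (a (l 300815486983) (l 71034740775)))) (b (c (a (c (c (b (a (b (l 3) (l 199346879447)) (a (l 95193922631) (l 16776112))) (a (c (l 16776072) (l 16776104)) (l 16774456))) (b (a (l 238001584599) (l 16776576)) (l 16775368))) (c (l 62981671351) (l 16776576))) (c (c (b (l 16774104) (c (l 16768080) (l 16772136))) (l 16773288)) (l 16773616))) (c (l 16780696) (l 16774952))) (c (c (c (a (a (b (l 16771352) (l 16771832)) (b (l 16772368) (l 16770256))) (a (a (l 16767520) (l 16769376)) (l 16764304))) (a (l 16772360) (l 16764160))) (l 16771424)) (c (l 16772256) (l 16771928))))) (c (b (b (c (c (a (b (l 16771520) (l 16766744)) (b (l 16765872) (l 16763768))) (a (l 16763064)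 (l 16765448))) (l 16767784)) (c (c (a (c (l 16768536) (l 16763640)) (l 16760576)) (a (l 16764184) (l 16761424))) (l 16764096))) (c (c (a (b (l 16764256) (l 16754480)) (b (l 16756248) (l 16751832))) (b (a (l 16759984) (l 16757336)) (l 16759664))) (b (l 16749856) (l 16746040)))) (b (c (l 16767600) (l 16766944)) (b (l 16753152) (l 16750136))))), by decide +kernel⟩

def k77_pm_012_s : ∃ t, chk3 f_pm_012_s t 73 29 1 = true :=
  ⟨(b (b (b (c (c (a (c (a (b (a (l 3) (l 208473685863)) (a (l 164450269543) (l 16776072))) (b (l 16775632) (l 16773744))) (a (b (l 272898195175) (l 82845894183)) (l 16774800))) (c (a (c (l 16766352) (l 16761224)) (l 16763456)) (l 16770456))) (a (a (l 129553665575) (l 16774992)) (l 16770936))) (a (a (l 106468220199) (l 16775256)) (l 16771696))) (c (a (c (b (c (a (l 16774920) (l 16766608)) (l 16773552)) (c (a (l 16769040) (l 16769952)) (l 16771712))) (l 16772992)) (c (c (a (l 16762704) (l 16765056)) (l 16759080)) (l 16767688))) (a (l 16773592) (l 16768792)))) (c (a (c (c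 (a (a (b (l 16766840) (l 16766752)) (b (l 16764024) (l 16765296))) (b (c (l 16766952) (l 16767176)) (l 16763160))) (b (l 16768928) (c (l 16759784) (l 16754848)))) (c (l 16767592) (l 16768176))) (c (c (b (a (l 16764192) (l 16761392)) (a (l 16760384) (l 16757672))) (b (l 16752928) (l 16749336))) (l 16762800))) (a (c (l 16769120) (l 16768296)) (c (l 16764584) (l 16763024))))) (a (b (b (c (c (c (a (l 16761952) (l 16759192)) (a (l 16762696) (l 16760040))) (l 16762688)) (l 16764736)) (c (c (c (a (l 16757808) (l 16755144)) (l 16747000)) (l 16759160)) (l 16761720))) (b (c (c (c (l 16757544) (l 16753536)) (l 16745088)) (l 16758680)) (c (c (c (l 16748056) (l 16749520)) (l 16730952)) (l 16755624)))) (c (b (c (b (c (l 16760432) (l 16756184)) (c (l 16751288) (l 16752480))) (l 16756136)) (c (b (c (l 16747312) (l 16748704)) (c (l 16743264) (l 16744864))) (l 16749272))) (b (c (l 16758840) (l 16756376)) (c (l 16752968) (l 16749640)))))), by decide +kernel⟩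

def k78_pm_012_s : ∃ t, chk3 f_pm_012_s t 37 29 1 = true :=
  ⟨(b (a (a (c (c (b (b (c (a (l 16765816) (l 16763008)) (l 16754400)) (a (l 16755976) (l 16754568))) (a (b (l 16753776) (l 16755464)) (b (l 16756360) (l 16752888)))) (b (l 16764136) (l 16757816))) (b (l 16757592) (l 16749056))) (c (b (c (c (a (l 16750664) (l 16745376)) (l 16748392)) (l 16759056)) (c (c (b (l 16752008) (l 16748560)) (l 16740792)) (l 16752936))) (b (l 16760744) (l 16754824)))) (c (b (b (c (a (c (l 16753656) (l 16754376)) (l 16749000)) (l 16753152)) (c (a (l 16742824) (l 16745744)) (l 16750144))) (b (c (a (l 16747400) (l 16742528)) (l 16747184)) (c (a (l 16744144) (l 16739344)) (l 16744272)))) (b (a (l 16756096) (l 16751624)) (a (l 16750256) (l 16745896))))) (a (b (c (a (c (c (b (l 16750040) (l 16746320)) (l 16738928)) (l 16751440)) (c (b (l 16735192) (l 16742208)) (l 16746800))) (c (l 16741832) (l 16748792))) (c (a (c (b (l 16732784) (l 16739496)) (l 16744856)) (c (b (l 16738680) (c (l 16733792) (l 16735520)))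 (b (l 16742064) (l 16738360)))) (a (l 16736792) (b (l 16744096) (l 16720688))))) (c (b (a (c (b (l 16740872) (l 16727120)) (l 16742176)) (c (b (l 16725712) (b (l 16723080) (l 16720952))) (l 16731928))) (a (c (b (b (l 16724384) (l 16722200)) (c (l 16727960) (l 16729688))) (b (l 16737128) (l 16732544))) (c (b (l 16717216) (l 16722400)) (l 16728680)))) (b (a (l 16723168) (c (l 16740608) (l 16737928))) (a (a (l 16719336) (l 16718032)) (c (l 16732824) (l 16734592))))))), by decide +kernel⟩

def k79_pm_012_s : ∃ t, chk3 f_pm_012_s t 36 30 4 = true :=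
  ⟨(b (a (b (c (a (a (b (c (l 16760136) (l 16755496)) (c (l 16749624) (l 16750368))) (b (l 16757672) (l 16747384))) (b (c (l 16758648) (l 16748896)) (l 16748928))) (a (b (a (l 16756448) (l 16753808)) (c (l 16749872) (l 16750704))) (b (l 16750064) (l 16745480)))) (b (a (c (a (l 16749816) (l 16742104)) (l 16745224)) (a (l 16740752) (l 16739008))) (b (a (c (l 16744448) (l 16741328)) (a (l 16736848) (l 16734448))) (a (a (l 16743912) (l 16733736)) (c (l 16726192) (l 16733712)))))) (a (b (b (c (l 16743672) (l 16745368)) (a (l 16741120) (l 16738912))) (b (c (a (l 16735144) (l 16732632)) (l 16735944)) (c (l 16727600) (l 16729816)))) (b (b (c (l 16739080) (l 16740896)) (a (l 16726104) (c (l 16733072) (l 16735064)))) (b (c (l 16728408) (l 16730512)) (c (l 16721896) (l 16724072)))))) (b (a (a (b (a (c (b (l 16734664) (l 16731528)) (l 16735472)) (b (l 16728088) (l 16729984))) (c (c (l 16724472) (l 16725648)) (l 16727488))) (c (b (l 16731656) (l 16724760)) (b (l 16728728) (l 16721872)))) (a (c (b (l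 16720832) (l 16713896)) (b (l 16723096) (l 16716208))) (c (b (l 16715144) (l 16708160)) (l 16713928)))) (a (a (c (b (c (l 16717536) (l 16718712)) (c (l 16710488) (l 16711672))) (b (l 16720576) (l 16713536))) (b (c (c (l 16711944) (l 16713088)) (l 16714896)) (c (c (l 16704832) (l 16705984)) (l 16707808)))) (a (b (c (l 16706808) (l 16709160)) (c (l 16699632) (l 16702008))) (b (c (l 16701032) (l 16703384)) (c (l 16693768) (l 16696160))))))), by decide +kernel⟩

def k80_pm_012_s : ∃ t, chk3 f_pm_012_s t 37 30 4 = true :=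
  ⟨(b (a (b (a (a (b (l 16736544) (l 16731232)) (b (l 16733960) (l 16728232))) (b (c (l 16728592) (l 16730456)) (l 16723664))) (a (b (l 16723544) (l 16727576)) (c (l 16713264) (l 16715400)))) (b (a (b (l 16723288) (l 16717440)) (c (l 16713048) (l 16715008))) (a (c (l 16707072) (l 16709248)) (c (l 16700728) (l 16702960))))) (a (b (a (b (l 16720872) (l 16711320)) (b (l 16704392) (l 16697480))) (c (b (a (l 16695152) (l 16689168)) (a (l 16687848) (l 16681832))) (b (l 16689328) (l 16679448)))) (b (c (a (l 16693664) (l 16687368)) (a (l 16696056) (l 16689848))) (c (b (l 16690416) (l 16683104)) (b (l 16682504) (l 16675280)))))), by decide +kernel⟩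

def k81_pm_012_s : ∃ t, chk3 f_pm_012_s t 18 30 5 = true :=
  ⟨(a (b (a (b (b (a (b (l 16747856) (l 16745728)) (l 16742096)) (a (b (l 16743544) (l 16741304)) (l 16727448))) (a (b (c (l 16747264) (l 16749440)) (b (l 16744792) (l 16731904))) (b (l 16733568) (a (l 16719216) (l 16737632))))) (b (a (b (l 16727176) (l 16723200)) (b (l 16722896) (l 16718552))) (a (b (l 16728920) (l 16712472)) (c (l 16708648) (l 16711120))))) (a (b (a (b (b (l 16729136) (l 16715552)) (c (l 16730112) (l 16732912))) (b (l 16711568) (l 16725744))) (a (c (a (l 16721136) (l 16718264)) (l 16722544)) (b (l 16718824) (l 16711768)))) (c (b (a (l 16722136) (l 16716384)) (a (l 16708144) (l 16702368))) (a (b (l 16724784) (l 16710896)) (b (l 16719016) (l 16705136)))))) (b (a (b (a (b (l 16739184) (l 16713032)) (c (l 16708704) (l 16710920))) (a (a (l 16705440) (l 16702464)) (b (l 16722016) (l 16715808)))) (a (b (l 16703592) (l 16691880)) (b (l 16697288) (l 16706672)))) (b (a (a (b (l 16715256) (l 16708480)) (c (l 16704664)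 (l 16707384))) (a (l 16700024) (l 16693976))) (a (c (a (l 16696520) (l 16690648)) (a (l 16699336) (l 16693552))) (c (l 16681752) (l 16684840)))))), by decide +kernel⟩

def k82_pm_012_s : ∃ t, chk3 f_pm_012_s t 18 30 3 = true :=
  ⟨(c (a (b (a (b (a (c (l 16757768) (l 16759672)) (l 16754600)) (a (b (l 16752976) (l 16748976)) (a (l 16737408) (l 16724576)))) (b (a (l 16750664) (l 16725376)) (a (b (l 16744576) (l 16738872)) (l 16736104)))) (a (b (a (b (l 16722824) (l 16716488)) (l 16713968)) (a (a (l 16707688) (l 16704704)) (b (l 16724720) (l 16717728)))) (b (a (l 16708120) (l 16702352)) (a (l 16694408) (l 16688688))))) (b (a (b (a (l 16720232) (l 16735512)) (a (l 16730200) (l 16724264))) (b (l 16726280) (l 16694336))) (b (a (a (l 16696616) (l 16690848)) (a (l 16706040) (l 16700224))) (a (b (l 16683640) (l 16697608)) (a (l 16692704) (l 16687072)))))) (a (b (a (b (a (l 16748256) (l 16753456)) (a (b (l 16753976) (l 16750808)) (a (l 16727720) (l 16725768)))) (a (b (l 16748120) (l 16733960)) (b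 (l 16732968) (l 16741552)))) (a (b (b (a (l 16728360) (l 16744640)) (l 16720144)) (a (l 16713024) (l 16706968))) (b (a (l 16735472) (l 16729696)) (a (l 16701080) (l 16695408))))) (b (a (b (a (l 16740096) (l 16737336)) (l 16733224)) (b (l 16731792) (l 16721584))) (b (a (l 16710752) (l 16689136)) (a (a (l 16689840) (l 16684416)) (l 16671232)))))), by decide +kernel⟩

def k83_pm_012_s : ∃ t, chk3 f_pm_012_s t 18 124 1 = true :=
  ⟨(a (c (a (c (a (b (c (c (l 16703384) (l 16704552)) (l 16706408)) (c (c (l 16696224) (l 16697384)) (l 16699208))) (c (b (c (l 16697664) (l 16698816)) (c (l 16690448) (l 16691584))) (b (l 16700632) (l 16693384)))) (a (b (l 16709136) (l 16699920)) (b (l 16694112) (l 16686840)))) (c (a (c (b (l 16692400) (l 16685120)) (b (l 16694784) (l 16687496))) (c (b (l 16686472) (l 16679136)) (b (l 16688880) (l 16681536)))) (c (b (l 16689192) (l 16687120)) (b (l 16697232) (l 16689912))))) (c (a (a (b (l 16716520) (l 16709216)) (b (l 16710576) (l 16703272))) (a (b (l 16704712) (l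 16697408)) (l 16695272))) (a (a (l 16698744) (l 16692728)) (a (l 16686888) (l 16681208))))) (c (c (b (a (c (a (l 16680472) (l 16674416)) (l 16669488)) (a (l 16669568) (l 16663408))) (a (c (a (l 16673072) (l 16666936)) (l 16683008)) (a (l 16667304) (l 16655880)))) (a (c (b (l 16682696) (l 16675256)) (a (l 16684808) (l 16679040))) (c (b (l 16670832) (l 16663384)) (l 16659864)))) (c (a (a (l 16689560) (l 16683976)) (a (l 16678408) (l 16672904))) (a (c (l 16692176) (l 16675048)) (a (l 16686152) (l 16681080)))))), by decide +kernel⟩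

def k84_pm_012_s : ∃ t, chk3 f_pm_012_s t 18 125 1 = true :=
  ⟨(c (a (c (a (a (c (b (c (l 16689016) (l 16690144)) (c (l 16683720) (l 16682848))) (b (l 16691936) (l 16684592))) (b (c (c (l 16683192) (l 16684304)) (l 16686072)) (c (c (l 16675880) (l 16676968)) (l 16678696)))) (a (b (c (l 16677800) (l 16680144)) (c (l 16670432) (l 16672728))) (b (c (l 16671760) (l 16674144)) (c (l 16664344) (l 16666688))))) (a (a (c (b (l 16694496) (l 16687080)) (l 16688264)) (b (l 16679464) (l 16672008))) (c (a (l 16668472) (l 16672992)) (b (l 16682496) (l 16674992))))) (a (c (c (b (a (l 16665632) (l 16659440)) (a (l 16658168) (l 16651912))) (b (l 16675536) (a (l 16660600) (l 16654464)))) (c (b (l 16667784) (l 16660256)) (b (l 16670752) (l 16663208)))) (a (c (c (b (l 16653184) (l 16645600)) (l 16652072)) (c (l 16655016) (l 16658216))) (c (b (l 16648288) (l 16640632)) (l 16642864))))) (a (c (b (a (a (l 16701760) (l 16695832)) (l 16687064)) (a (c (l 16689704) (l 16692784)) (l 16679504))) (a (a (b (l 16708480)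 (l 16700760)) (l 16677712)) (c (l 16688304) (l 16670944)))) (a (c (c (l 16670176) (l 16673600)) (a (l 16681824) (l 16676528))) (c (a (l 16663480) (l 16658048)) (a (l 16671384) (l 16666440)))))), by decide +kernel⟩

def k85_pm_012_s : ∃ t, chk3 f_pm_012_s t 36 63 1 = true :=
  ⟨(c (a (a (b (c (b (c (a (l 16676416) (l 16673488)) (l 16677176)) (c (a (l 16669032) (l 16666088)) (l 16669688))) (c (b (l 16679584) (l 16672008)) (l 16670496))) (c (b (c (c (b (l 16661496) (l 16657760)) (l 16660592)) (c (l 16661616) (l 16662680))) (c (c (b (l 16654016) (l 16650248)) (l 16653056)) (c (l 16654024) (l 16655040)))) (b (c (l 16664368) (l 16666792)) (c (l 16656664) (l 16658984))))) (b (c (b (c (c (l 16668528) (l 16669576)) (l 16671256)) (c (c (l 16661112) (l 16662128)) (l 16663744))) (b (l 16685432) (l 16677808))) (c (b (c (b (l 16656008) (l 16652256)) (l 16656184)) (c (a (l 16648104) (l 16645072)) (l 16648560))) (b (l 16664880) (c (l 16650728) (l 16653104)))))) (b (b (c (c (a (c (l 16662488) (l 16663552))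 (l 16656880)) (a (l 16665256) (l 16659184))) (a (l 16669000) (l 16663048))) (c (c (a (c (l 16655040) (l 16656072)) (l 16649376)) (a (l 16657720) (l 16651632))) (c (l 16657112) (l 16659744)))) (c (b (c (a (c (l 16647544) (l 16648544)) (c (l 16641320) (l 16642360))) (a (l 16650144) (l 16644024))) (c (a (c (l 16639992) (l 16640960)) (c (l 16633744) (l 16634752))) (a (l 16642504) (l 16636376)))) (b (c (l 16659936) (l 16652024)) (c (a (l 16644752) (l 16638728)) (l 16644256)))))) (c (c (b (a (b (l 16682048) (l 16674304)) (l 16663832)) (a (a (l 16654960) (l 16659600)) (b (l 16654816) (l 16646984)))) (b (a (b (l 16685056) (l 16677224)) (l 16669544)) (a (b (l 16669312) (l 16661328)) (l 16650584)))) (b (a (a (b (l 16692896) (l 16684904)) (l 16683056)) (a (l 16677368) (l 16671832))) (a (a (b (l 16676816) (l 16668656)) (b (l 16671064) (l 16662968))) (b (l 16662720) (l 16649480)))))), by decide +kernel⟩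

def k86_pm_012_s : ∃ t, chk3 f_pm_012_s t 37 63 1 = true :=
  ⟨(a (c (c (b (c (b (a (l 16650656) (l 16644360)) (a (l 16643112) (l 16636776))) (b (a (l 16653056) (l 16646880)) (a (l 16645472) (l 16639264)))) (b (c (a (c (l 16634992) (l 16636088)) (l 16629152)) (a (l 16637848) (l 16631616))) (c (a (c (l 16627384) (l 16628464)) (l 16621504)) (a (l 16630184) (l 16623928))))) (b (a (c (l 16651864) (l 16654704)) (c (l 16645816) (l 16648816))) (b (a (l 16641744) (l 16635760)) (c (l 16629640) (l 16632464))))) (b (a (c (l 16648904) (l 16666448)) (c (l 16632792) (l 16661216))) (c (b (l 16634464) (l 16627968)) (b (l 16652096) (l 16623248))))) (c (b (b (c (c (a (l 16637992) (l 16631576)) (l 16637552)) (c (l 16640584) (l 16643880))) (c (c (a (l 16630360) (l 16623896)) (l 16629888)) (c (l 16632904) (l 16636192)))) (c (b (c (a (l 16622704) (l 16616200)) (l 16632672)) (c (a (l 16615024) (l 16608480)) (a (l 16617632) (l 16611304)))) (b (c (l 16625192) (l 16628464)) (c (l 16617456) (l 16620720))))) (b (c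 (a (l 16627240) (l 16642736)) (a (l 16656136) (l 16651200))) (c (b (l 16612912) (l 16615632)) (a (l 16640600) (l 16635744)))))), by decide +kernel⟩

def k87_pm_012_s : ∃ t, chk3 f_pm_012_s t 19 28 2 = true :=
  ⟨(a (b (a (b (c (a (c (l 16766744) (l 16766856)) (l 16761744)) (l 16764544)) (c (a (l 16761200) (l 16745800)) (l 16759200))) (a (b (l 16756872) (l 16751584)) (b (l 16751936) (l 16746736)))) (c (a (a (b (c (l 16744576) (l 16755440)) (c (l 16748688) (l 16749280))) (b (l 16739928) (l 16733736))) (a (b (l 16724720) (l 16718608)) (b (l 16720112) (c (l 16724408) (l 16714224))))) (a (b (l 16753640) (l 16747872)) (a (l 16743416) (l 16722824))))) (b (a (c (b (l 16745632) (l 16740720)) (l 16742192)) (c (b (l 16724856) (a (l 16734032) (l 16729096))) (b (l 16734928) (l 16729584)))) (b (a (c (a (l 16737208) (l 16733432)) (l 16734280)) (c (a (l 16728752) (l 16723016)) (l 16722984))) (a (c (a (b (l 16732848) (l 16718728)) (b (l 16728344) (l 16723920))) (a (l 16730704) (l 16724936))) (c (a (l 16720416)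 (l 16714488)) (l 16715120)))))), by decide +kernel⟩

def k88_pm_012_s : ∃ t, chk3 f_pm_012_s t 19 29 2 = true :=
  ⟨(a (b (a (b (c (a (c (l 16742176) (l 16742992)) (l 16727400)) (l 16741992)) (c (a (b (l 16737808) (l 16724176)) (b (l 16722616) (a (l 16730808) (l 16727728)))) (a (l 16738560) (l 16733240)))) (a (b (c (b (l 16734832) (l 16721016)) (l 16734648)) (c (a (b (l 16729104) (l 16724352)) (l 16712920)) (l 16727144))) (c (b (a (b (l 16731320) (l 16727296)) (c (l 16715680) (l 16705696))) (c (a (l 16719512) (l 16716272)) (l 16697864))) (b (l 16728968) (l 16699472))))) (b (a (a (c (b (c (l 16730248) (l 16731512)) (l 16715712)) (b (l 16733608) (l 16708320))) (c (b (l 16724472) (l 16719432)) (l 16703920))) (a (c (c (l 16714464) (l 16715824)) (l 16718120)) (c (a (l 16709952) (l 16706680)) (l 16690368)))) (a (a (c (b (l 16721072) (l 16715816)) (l 16701136)) (c (c (l 16710888) (l 16712600)) (l 16694496))) (a (c (c (l 16704008) (l 16705776)) (l 16708744)) (c (a (l 16699656) (l 16706856)) (l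 16701968)))))) (b (a (c (a (b (c (l 16701336) (l 16722504)) (c (l 16712296) (l 16712904))) (b (c (l 16716904) (l 16716704)) (l 16707048))) (b (c (l 16698616) (l 16698664)) (b (l 16692032) (l 16687568)))) (a (c (b (l 16700616) (l 16701432)) (b (l 16709888) (l 16701104))) (c (b (l 16705304) (l 16695696)) (b (l 16703312) (l 16694584))))) (a (c (b (a (l 16702592) (l 16691864)) (c (a (l 16691616) (l 16686400)) (l 16690288))) (b (a (l 16704920) (l 16698568)) (a (l 16695616) (l 16689336)))) (a (c (b (l 16681040) (l 16670928)) (b (l 16692160) (l 16683000))) (c (b (l 16685856) (l 16675800)) (b (l 16685704) (l 16676600))))))), by decide +kernel⟩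

def k89_pm_012_s : ∃ t, chk3 f_pm_012_s t 19 14 3 = true :=
  ⟨(b (a (b (a (b (l 16765104) (l 16760152)) (a (l 16754848) (l 16749496))) (a (c (l 16739056) (l 16731152)) (a (l 16723952) (b (l 16742000) (l 16737048))))) (b (a (b (l 16743048) (l 16737792)) (c (b (l 16731720) (l 16726128)) (l 16693672))) (a (a (b (l 16735816) (l 16730440)) (b (l 16729160) (l 16722888))) (c (b (l 16719688) (l 16691496)) (b (l 16694936) (l 16709488)))))) (a (b (b (a (l 16724248) (a (l 16737440) (c (l 16730472) (l 16732240)))) (a (a (l 16741680) (l 16716328)) (a (l 16731064) (l 16713864)))) (a (b (a (c (l 16734752) (l 16735328)) (l 16730232)) (a (l 16705088) (l 16701280))) (c (b (l 16718288) (c (l 16687800) (l 16711248))) (a (l 16722296) (l 16715688))))) (b (a (c (b (l 16719760) (l 16691016)) (a (l 16720992) (l 16691528))) (c (a (l 16683824) (l 16676384)) (c (l 16679168) (l 16678520)))) (a (c (b (l 16683096) (l 16674936)) (a (l 16707696) (l 16678360))) (a (b (l 16693616) (l 16665208)) (b (l 16685784) (l 16678424))))))),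 by decide +kernel⟩

def k90_pm_012_s : ∃ t, chk3 f_pm_012_s t 19 30 2 = true :=
  ⟨(b (b (a (a (c (a (c (l 16706496) (l 16708512)) (c (l 16699800) (l 16701880))) (b (l 16690296) (l 16684912))) (a (c (l 16693984) (l 16698712)) (c (a (l 16688808) (l 16685536)) (l 16692048)))) (c (a (a (c (l 16680648) (l 16682552)) (l 16665744)) (a (l 16670808) (l 16665280))) (a (c (l 16681696) (l 16683760)) (c (l 16669576) (l 16670760))))) (a (a (c (c (a (l 16694232) (l 16687600)) (l 16693296)) (a (l 16700408) (l 16694040))) (c (a (c (l 16680824) (l 16683352)) (c (l 16663552) (l 16676664))) (a (l 16687576) (l 16681064)))) (c (a (a (l 16659376) (l 16654208)) (a (l 16669872) (l 16653944))) (a (c (l 16670680) (l 16673208)) (c (l 16658840) (l 16660480)))))) (a (c (a (b (c (a (l 16680936) (l 16674360)) (l 16693424)) (c (b (l 16667128) (l 16659864)) (b (l 16669968) (l 16662808)))) (b (a (l 16661184) (a (l 16663984) (l 16660824))) (a (c (l 16653584) (l 16656736)) (a (l 16650120) (l 16647032))))) (a (b (a (l 16687832)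 (l 16681608)) (c (l 16669552) (l 16672968))) (a (b (l 16675288) (l 16661992)) (b (l 16668928) (l 16634816))))) (c (a (b (a (c (l 16655872) (l 16658536)) (l 16657464)) (c (a (l 16642088) (l 16637592)) (l 16642608))) (a (b (l 16647088) (l 16639200)) (b (l 16641824) (l 16628928)))) (b (a (c (l 16658664) (l 16661608)) (c (l 16647144) (l 16649192))) (a (c (l 16645640) (l 16648944)) (c (l 16634592) (l 16636968))))))), by decide +kernel⟩

def k91_pm_012_s : ∃ t, chk3 f_pm_012_s t 19 62 2 = true :=
  ⟨(a (c (a (b (c (b (l 16652464) (l 16644952)) (b (l 16655496) (l 16648040))) (a (b (l 16642008) (l 16634336)) (c (l 16630224) (l 16633480)))) (b (a (c (l 16638872) (l 16642232)) (a (l 16635576) (l 16611568))) (a (c (l 16623712) (l 16627200)) (a (l 16620528) (c (l 16615744) (l 16619456)))))) (a (b (c (l 16655120) (l 16658744)) (a (l 16634344) (l 16628456))) (a (b (l 16647856) (l 16633040)) (b (l 16620824) (l 16616632))))) (c (c (a (b (a (l 16627664) (l 16623416)) (a (l 16612792) (l 16608800))) (b (a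 (l 16619008) (l 16614432)) (a (l 16604648) (l 16600344)))) (a (b (l 16628536) (l 16613920)) (b (l 16618848) (l 16604720)))) (a (b (c (l 16631816) (l 16635392)) (c (l 16617344) (l 16621080))) (b (c (l 16621216) (l 16623832)) (c (l 16607200) (l 16609936)))))), by decide +kernel⟩

def k92_pm_012_s : ∃ t, chk3 f_pm_012_s t 19 63 2 = true :=
  ⟨(a (a (c (b (a (c (b (l 16625112) (l 16617384)) (l 16624296)) (b (l 16620240) (l 16612440))) (b (c (a (l 16609640) (l 16603048)) (l 16609528)) (c (a (l 16601888) (l 16595248)) (l 16601752)))) (b (a (l 16616336) (l 16607856)) (c (a (l 16612168) (l 16606080)) (l 16623424)))) (b (c (b (a (l 16613816) (a (l 16608976) (l 16606048))) (a (l 16606008) (a (l 16601152) (l 16598240)))) (a (l 16596712) (l 16598096))) (c (c (a (b (l 16596416) (l 16588584)) (a (l 16587480) (a (l 16585040) (l 16584072)))) (a (l 16596072) (b (l 16593800) (l 16585936)))) (a (c (l 16600008) (l 16604296)) (c (l 16594088) (l 16598656)))))) (a (b (c (c (a (l 16597520) (l 16593792)) (a (l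 16600944) (l 16596720))) (c (l 16602344) (l 16606176))) (c (c (b (a (l 16585864) (l 16582336)) (a (l 16578040) (l 16574600))) (b (l 16587288) (l 16579520))) (c (b (l 16590808) (l 16583056)) (l 16590800)))) (c (b (c (a (l 16589912) (l 16585880)) (l 16600624)) (a (b (l 16579848) (l 16572248)) (b (l 16575808) (l 16568344)))) (b (c (l 16592648) (l 16595432)) (c (l 16577688) (l 16580464)))))), by decide +kernel⟩

def k93_pm_012_s : ∃ t, chk3 f_pm_012_s t 19 15 3 = true :=
  ⟨(b (a (b (a (b (a (l 16693504) (l 16682080)) (c (l 16682248) (l 16710048))) (a (b (l 16686320) (l 16666136)) (b (c (l 16697776) (l 16704352)) (a (l 16672136) (l 16668936))))) (a (b (c (l 16670480) (l 16678144)) (c (l 16657608) (l 16666008))) (c (b (a (l 16682576) (l 16676560)) (a (l 16670016) (l 16664216))) (b (c (l 16664904) (l 16669440)) (a (l 16679192) (l 16673864)))))) (b (b (a (c (l 16666232) (l 16671456)) (c (l 16672792) (l 16675968))) (a (c (l 16656432) (l 16662784)) (c (l 16663256) (l 16667544)))) (b (c (a (l 16666488)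 (l 16652624)) (a (l 16652880) (l 16657896))) (c (a (l 16654416) (l 16640960)) (a (l 16641704) (l 16647064)))))) (a (b (a (b (c (a (l 16667448) (l 16661952)) (l 16652672)) (c (a (l 16652632) (l 16647280)) (c (l 16656784) (l 16661704)))) (c (b (a (l 16656440) (l 16650840)) (a (l 16641976) (l 16636568))) (b (a (l 16666264) (l 16661200)) (a (l 16652208) (l 16647408))))) (a (b (c (c (l 16632600) (l 16637000)) (a (l 16646424) (l 16641832))) (c (c (l 16617064) (l 16621496)) (a (l 16631032) (l 16626464)))) (c (b (a (l 16626816) (l 16600592)) (a (l 16611376) (l 16585240))) (a (b (l 16637304) (l 16622040)) (b (l 16632712) (l 16617584)))))) (b (c (a (b (l 16641312) (l 16627288)) (b (l 16628224) (l 16593576))) (a (b (l 16629280) (a (l 16640440) (l 16632880))) (b (l 16634944) (l 16621624)))) (a (b (c (c (l 16610328) (l 16614816)) (c (l 16619632) (l 16624776))) (c (c (l 16595008) (l 16599560)) (b (l 16610840) (l 16603200)))) (b (c (l 16589640) (l 16607344)) (c (c (l 16583520) (l 16586856)) (l 16592400))))))),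 by decide +kernel⟩

def k94_pm_012_s : ∃ t, chk3 f_pm_012_s t 5 4 1 = true :=
  ⟨(a (a (a (l 3) (l 2)) (l 2)) (l 2)), by decide +kernel⟩

def k95_pm_012_s : ∃ t, chk3 f_pm_012_s t 10 5 1 = true :=
  ⟨(a (a (b (l 3) (a (l 3) (b (l 3) (a (b (l 3) (b (l 3) (l 94120212103))) (b (c (l 88214640375) (l 16773512)) (c (l 16790464) (l 16774880))))))) (b (a (a (l 3) (a (l 3) (b (l 3) (b (l 3) (l 16796840))))) (b (b (l 2) (a (a (l 3) (l 16797816)) (l 16773776))) (b (a (a (l 16797144) (l 16796544)) (l 16771616)) (a (a (l 16775568) (l 16793800)) (l 16768728))))) (b (b (a (a (l 3) (c (l 16797464) (l 16776536))) (a (c (a (l 16772232) (l 16769472)) (l 16770736)) (c (l 16765328) (l 16764960)))) (a (a (c (l 16796320) (l 16775616)) (c (l 16772512) (l 16772608))) (a (c (a (l 16768136) (l 16765256)) (l 16766664)) (c (l 16760928) (l 16760768))))) (b (a (c (a (l 16784408) (l 16767808)) (a (l 16774024) (l 16767944))) (a (c (a (l 16763320) (l 16760344)) (l 16761832)) (c (l 16755856) (l 16755768)))) (a (a (c (l 16768704)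 (l 16768744)) (c (l 16762656) (l 16762488))) (a (c (a (l 16758112) (l 16755056)) (l 16756200)) (c (l 16750440) (l 16749968)))))))) (a (b (b (a (b (l 2) (l 16766128)) (l 2)) (a (b (l 16763856) (l 16760664)) (b (l 16774616) (l 16750224)))) (c (b (b (l 16751944) (c (l 16746584) (l 16746576))) (b (l 16740944) (l 16735088))) (b (b (l 16750616) (l 16746424)) (b (l 16741024) (l 16713864))))) (b (b (l 2) (b (b (l 2) (l 16716952)) (c (l 16696216) (l 16731576)))) (b (b (c (l 16690032) (l 16728280)) (c (l 16683072) (l 16723792))) (b (c (a (l 16723528) (l 16712408)) (l 16718232)) (c (l 16669048) (l 16711448))))))), by decide +kernel⟩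

def k96_pm_012_s : ∃ t, chk3 f_pm_012_s t 11 5 1 = true :=
  ⟨(b (a (b (l 2) (b (l 2) (c (a (l 16720744) (l 2)) (l 16656576)))) (l 2)) (b (b (a (a (c (l 16713608) (l 16706176)) (l 16732592)) (l 2)) (a (c (a (l 16705384) (l 16687352)) (a (l 16701856) (l 16680152))) (c (l 16662344) (l 16648328)))) (c (a (b (a (l 16696696) (l 16677424)) (a (l 16667352) (l 16667464))) (b (a (l 16659728) (l 16643296)) (a (l 16648552) (l 16631192)))) (a (b (a (l 16696008) (l 16674472)) (a (l 16689072) (l 16667264))) (a (l 16607816) (l 16607912)))))), by decide +kernel⟩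

def k97_pm_012_s : ∃ t, chk3 f_pm_012_s t 40 6 1 = true :=
  ⟨(b (a (b (b (a (l 3) (c (l 118816273959) (l 16771320))) (a (c (c (l 114521300231) (l 16772296)) (l 16771752)) (c (c (l 16774328) (l 16774848)) (l 16774736)))) (c (b (c (a (l 16773440) (l 16767352)) (a (l 16773872) (l 16768176))) (a (c (l 16766048) (l 16766768)) (l 16761368))) (b (c (l 16770808) (l 16770408)) (a (l 16765928) (l 16759720))))) (a (b (b (c (c (l 16774696) (l 16775184)) (l 16775128)) (c (l 16769024) (l 16768512))) (b (c (l 16752144) (l 16761216)) (c (l 16755968) (l 16753304)))) (c (b (b (l 16769216) (l 16752728)) (b (l 16756944) (l 16750496))) (b (b (l 16768944) (l 16762176)) (b (l 16754720) (l 16746680)))))) (a (b (c (b (a (c (l 16758240) (l 16759328)) (l 16754200)) (a (l 16752072) (l 16725760))) (b (a (l 16757536) (l 16751200)) (l 16745248))) (b (c (a (l 16731048) (l 16717960)) (l 16724856)) (c (a (c (l 16732888) (l 16734368)) (b (l 16732848) (c (l 16725688) (l 16726488)))) (a (l 16728088) (l 16721064))))) (b (c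 (b (a (l 16748952) (l 16722768)) (a (l 16720664) (l 16715640))) (b (l 16730832) (a (l 16735232) (l 16728344)))) (c (b (a (c (l 16729880) (l 16732456)) (b (l 16709976) (c (l 16723936) (l 16724272)))) (a (b (c (l 16724584) (l 16725592)) (l 16704072)) (c (l 16720728) (l 16715792)))) (b (c (l 16724376) (l 16697160)) (c (l 16713232) (l 16685136))))))), by decide +kernel⟩

def k98_pm_012_s : ∃ t, chk3 f_pm_012_s t 41 6 1 = true :=
  ⟨(a (a (b (b (b (c (l 16763256) (l 16762640)) (c (l 16757352) (l 16755696))) (b (c (l 16751168) (l 16748064)) (c (l 16744824) (l 16739896)))) (b (c (b (l 16717176) (c (l 16728040) (l 16729120))) (b (l 16730992) (l 16721272))) (c (b (c (b (l 16723976) (l 16721896)) (l 16719880)) (l 16711224)) (b (l 16710440) (l 16698280))))) (b (b (b (c (l 16757248) (l 16756200)) (c (l 16751400) (l 16749080))) (c (b (l 16745264) (l 16717968)) (b (l 16741288) (l 16732960)))) (b (c (b (c (l 16731048) (l 16730800)) (b (l 16705800) (l 16701472))) (b (l 16723960) (l 16713968))) (c (b (l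 16714920) (l 16703752)) (b (l 16702768) (l 16690528)))))) (a (b (c (b (b (a (l 16752696) (l 16749616)) (a (l 16746840) (l 16743752))) (b (c (l 16739416) (l 16738488)) (a (l 16734392) (l 16731192)))) (b (b (l 16749736) (l 16742432)) (b (l 16734448) (l 16725968)))) (b (c (b (a (l 16706552) (l 16723832)) (l 16716952)) (b (l 16716704) (l 16706352))) (c (b (l 16706984) (l 16695760)) (b (l 16695008) (l 16682712))))) (b (c (b (b (l 16744960) (a (l 16740640) (a (b (l 16739808) (l 16736656)) (l 16736536)))) (a (b (c (l 16734712) (l 16733568)) (a (l 16728584) (l 16726416))) (b (b (l 16732472) (l 16728840)) (l 16723112)))) (b (b (l 16743328) (a (l 16737472) (l 16734176))) (a (b (l 16729288) (l 16699544)) (b (l 16725768) (l 16716752))))) (b (c (a (b (l 16719432) (l 16710392)) (b (l 16714864) (c (l 16686424) (l 16703704)))) (a (b (l 16710928) (l 16700440)) (b (l 16707112) (l 16696600)))) (c (a (b (l 16700272) (c (l 16691504) (l 16686224))) (b (b (l 16677120) (l 16682208)) (b (l 16679136) (l 16673136))))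 (a (b (l 16689040) (l 16676696)) (b (l 16685184) (l 16672840)))))))), by decide +kernel⟩

def k99_pm_012_s : ∃ t, chk3 f_pm_012_s t 21 6 1 = true :=
  ⟨(b (b (c (b (a (l 16729200) (l 16662552)) (a (c (l 16723336) (l 16722624)) (c (l 16677224) (l 16697512)))) (b (a (l 16706856) (l 16703824)) (a (a (l 16726192) (l 16713656)) (l 16695368)))) (c (a (b (l 16715928) (a (l 16693624) (l 16701768))) (b (c (l 16691456) (l 16689816)) (c (l 16684024) (l 16681472)))) (a (b (l 16690168) (l 16659992)) (b (l 16686104) (l 16676416))))) (b (c (a (a (b (c (l 16707640) (l 16704632)) (l 16718008)) (b (l 16693432) (l 16684304))) (c (b (l 16676072) (l 16646392)) (b (l 16672680) (l 16663200)))) (b (a (a (l 16698672) (l 16685600)) (l 16666400)) (a (a (l 16688208) (l 16675152)) (l 16655840)))) (a (b (c (a (l 16707760) (l 16653200)) (b (l 16673288) (l 16667400))) (c (c (b (l 16674488) (l 16668664)) (l 16666632)) (c (l 16661112) (l 16655048)))) (c (b (c (l 16636792) (l 16652928)) (c (l 16636496) (l 16641608))) (b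 (l 16623688) (l 16611680)))))), by decide +kernel⟩

def k100_pm_012_s : ∃ t, chk3 f_pm_012_s t 11 6 1 = true :=
  ⟨(b (a (b (b (c (a (l 16680736) (l 16658464)) (a (l 16680872) (l 16658920))) (c (a (b (l 16675328) (l 16671824)) (l 16650288)) (a (l 16671840) (l 16649336)))) (c (b (a (c (l 16666704) (l 16665232)) (l 16621336)) (a (l 16637072) (l 16612856))) (a (b (l 16662096) (l 16651936)) (b (l 16639080) (l 16628456))))) (b (c (a (b (l 16637992) (l 16628432)) (b (l 16619440) (l 16608360))) (b (l 16563992) (l 16554416))) (b (c (a (l 16640560) (l 16598288)) (a (l 16617056) (l 16596000))) (c (a (l 16610624) (l 16588504)) (a (l 16605952) (l 16584432)))))) (b (b (a (c (a (l 16639048) (l 16646224)) (a (l 16641472) (l 16617552))) (c (a (l 16601568) (l 16578912)) (a (l 16594624) (l 16572640)))) (a (c (a (c (l 16642608) (l 16638224)) (l 16637056)) (a (l 16630720) (l 16606392))) (a (c (l 16592360) (l 16583056)) (c (l 16569240) (l 16560680))))) (c (a (a (b (c (l 16633136) (l 16628008)) (c (l 16622648)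 (l 16616944))) (b (l 16627272) (l 16637584))) (a (b (l 16582488) (l 16592880)) (b (l 16559336) (l 16548688)))) (a (a (b (l 16598496) (l 16607664)) (b (l 16595000) (l 16583168))) (a (b (l 16571296) (l 16559352)) (b (l 16548544) (l 16536280))))))), by decide +kernel⟩

def k101_pm_012_s : ∃ t, chk3 f_pm_012_s t 40 14 1 = true :=
  ⟨(b (a (c (b (c (b (a (l 16727184) (l 16724432)) (l 16721304)) (b (l 16723624) (l 16717016))) (c (b (l 16713696) (l 16705312)) (b (l 16709600) (l 16680680)))) (b (a (b (l 16719480) (l 16692000)) (l 16698000)) (c (l 16659216) (l 16675096)))) (c (b (c (b (l 16714984) (l 16708216)) (l 16706448)) (a (c (l 16700016) (l 16695296)) (b (l 16673896) (l 16686864)))) (a (b (l 16669208) (l 16665936)) (b (l 16671896) (l 16679088))))) (b (c (a (c (a (b (l 16699344) (l 16689848)) (b (l 16693240) (l 16683880))) (b (l 16672296) (l 16703000))) (c (b (a (l 16686976) (l 16680512)) (a (l 16677728) (l 16671384))) (b (l 16679560) (l 16650136)))) (c (a (b (l 16689912) (l 16682312)) (b (l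 16674920) (l 16667376))) (a (b (l 16686232) (l 16679824)) (l 16666616)))) (c (a (c (a (b (l 16680096) (l 16670088)) (b (l 16674200) (l 16664264))) (b (l 16665392) (l 16661632))) (c (b (a (l 16668168) (l 16661968)) (a (l 16658336) (l 16652216))) (b (l 16641512) (l 16643160)))) (a (c (b (l 16674648) (l 16666792)) (b (l 16673440) (l 16666896))) (c (b (l 16659816) (l 16652088)) (b (l 16657024) (l 16650584))))))), by decide +kernel⟩

def k102_pm_012_s : ∃ t, chk3 f_pm_012_s t 41 14 1 = true :=
  ⟨(c (b (a (b (a (l 16698568) (l 16691144)) (c (a (l 16665584) (l 16679360)) (l 16645784))) (a (b (c (l 16686048) (l 16680080)) (c (l 16671520) (l 16665680))) (a (b (c (l 16658176) (l 16673400)) (c (l 16664656) (l 16659040))) (b (c (b (l 16677248) (l 16670608)) (l 16668624)) (a (b (l 16645784) (l 16632776)) (l 16655304)))))) (a (b (c (a (l 16648408) (l 16641408)) (a (l 16664872) (l 16657560))) (c (b (a (l 16655504) (l 16648680)) (a (l 16645880) (l 16639216))) (a (l 16626952) (l 16619832)))) (b (a (c (l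 16633744) (l 16649784)) (a (c (l 16647960) (l 16643232)) (c (l 16624392) (l 16638488)))) (a (c (b (l 16641200) (l 16631864)) (l 16612232)) (a (c (l 16609112) (l 16626784)) (c (l 16603944) (l 16622104))))))) (b (a (b (c (l 16684952) (l 16677160)) (c (l 16670848) (l 16663712))) (a (b (l 16669440) (l 16655608)) (b (a (l 16663392) (l 16659544)) (a (l 16649544) (l 16645728))))) (b (a (c (l 16656064) (l 16650512)) (a (l 16620624) (a (l 16635536) (l 16631760)))) (a (c (b (l 16644784) (l 16637184)) (l 16637872)) (a (c (l 16629608) (l 16625888)) (a (l 16600760) (l 16618024))))))), by decide +kernel⟩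

def k103_pm_012_s : ∃ t, chk3 f_pm_012_s t 21 14 1 = true :=
  ⟨(b (a (a (c (b (b (l 16666120) (l 16659432)) (l 16682488)) (b (l 16651368) (l 16637688))) (b (c (l 16681896) (l 16638656)) (c (l 16657152) (l 16625184)))) (c (b (c (l 16655864) (l 16629160)) (c (l 16641704) (l 16615280))) (b (l 16609360) (l 16585696)))) (b (c (a (c (l 16649232) (l 16624136)) (c (l 16604424) (l 16600056))) (a (b (l 16621144) (l 16614352)) (l 16572552))) (c (a (b (l 16613464) (l 16586408)) (c (l 16587024) (l 16584312))) (a (b (l 16607664) (l 16600936)) (l 16559832))))), by decide +kernel⟩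

def k104_pm_012_s : ∃ t, chk3 f_pm_012_s t 40 15 1 = true :=
  ⟨(b (b (c (c (a (b (a (l 16659648) (l 16653896)) (a (l 16648400) (l 16642744))) (b (a (l 16648016) (l 16641976)) (a (l 16636952) (l 16631008)))) (a (b (l 16652144) (l 16641776)) (b (l 16633816) (l 16623624)))) (a (c (b (l 16658368) (l 16648968)) (b (l 16659712) (l 16651424))) (c (c (l 16618328) (l 16639392)) (b (l 16643608) (l 16635504))))) (c (c (a (a (b (l 16636416) (l 16623712)) (b (l 16630856) (l 16618352))) (b (a (l 16625176) (l 16619336)) (a (l 16612816) (l 16607096)))) (a (b (a (l 16638936) (l 16632664)) (c (l 16623016) (l 16624576))) (b (l 16607360) (a (l 16614520) (l 16608184))))) (a (c (b (l 16617640) (l 16627256)) (b (l 16642032) (l 16631464))) (b (c (l 16624424) (l 16626256)) (a (l 16597280) (l 16589904)))))) (c (b (c (a (a (b (l 16610424) (a (l 16597824) (l 16595448))) (b (l 16605312) (l 16602288))) (a (b (l 16599984) (l 16586776)) (b (l 16594480) (l 16581544)))) (a (b (c (l 16610136) (l 16611904)) (c (l 16596600)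 (l 16598456))) (b (c (l 16598456) (l 16599496)) (c (l 16585456) (l 16586552))))) (c (c (a (b (a (l 16581688) (l 16577328)) (b (l 16568800) (l 16561584))) (b (a (l 16572776) (l 16568000)) (a (l 16558912) (l 16554464)))) (a (b (l 16580912) (a (l 16568744) (l 16564272))) (b (l 16571048) (a (l 16559640) (l 16554840))))) (a (b (c (l 16582536) (l 16584392)) (c (l 16568072) (l 16569864))) (b (c (l 16571912) (l 16572968)) (c (l 16557976) (l 16558920)))))) (b (a (b (c (l 16593968) (l 16619704)) (c (l 16580688) (l 16606696))) (b (a (l 16595952) (l 16578256)) (c (l 16588544) (l 16591832)))) (a (b (c (l 16566640) (l 16571736)) (c (l 16557264) (l 16567512))) (b (c (l 16553936) (l 16578168)) (c (l 16539728) (l 16542776))))))), by decide +kernel⟩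

def k105_pm_012_s : ∃ t, chk3 f_pm_012_s t 41 30 1 = true :=
  ⟨(a (b (c (c (b (a (l 16635752) (l 16629192)) (a (l 16624848) (l 16618384))) (b (l 16609704) (l 16599688))) (c (b (l 16629088) (l 16620064)) (l 16623744))) (c (c (b (a (l 16613288) (l 16606928)) (a (l 16601176) (l 16594952))) (b (l 16591496) (a (l 16601720) (l 16595056)))) (c (b (l 16610064) (l 16599176)) (b (l 16610672) (l 16600528))))) (c (b (a (c (b (l 16621992) (l 16611320)) (l 16593984)) (a (c (b (l 16615600) (l 16605024)) (l 16608712)) (c (b (l 16610504) (l 16599976)) (l 16583168)))) (a (c (b (l 16599960) (l 16588120)) (b (l 16599296) (l 16587968))) (a (c (b (l 16593768) (l 16582056)) (b (l 16593200) (l 16581984))) (c (a (b (l 16589504) (b (l 16580800) (l 16574888))) (l 16581240)) (b (l 16588712) (l 16577560)))))) (b (a (c (l 16613368) (l 16611952)) (a (l 16585696) (l 16582088))) (a (c (l 16593720) (l 16594208)) (c (a (l 16587816) (l 16584000)) (l 16565984)))))), by decide +kernel⟩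

def k106_pm_012_s : ∃ t, chk3 f_pm_012_s t 41 31 1 = true :=
  ⟨(c (a (b (c (b (a (l 16588736) (l 16582648)) (a (l 16576032) (l 16570200))) (b (a (l 16589592) (l 16583048)) (a (l 16576936) (l 16570616)))) (c (b (a (l 16573536) (l 16568016)) (a (c (l 16549768) (l 16549816)) (c (l 16544720) (l 16544496)))) (b (a (l 16563800) (l 16557752)) (a (l 16550216) (l 16544456))))) (a (b (c (b (l 16575992) (c (l 16563824) (l 16563736))) (b (l 16576104) (l 16563872))) (b (c (c (l 16551504) (l 16551288)) (l 16551248)) (c (c (l 16539056) (l 16538640)) (l 16538288)))) (c (b (a (b (l 16570072) (l 16558008)) (a (a (a (l 16561040) (b (l 16565784) (l 16553816))) (l 16558648)) (l 16557504))) (c (a (b (l 16546016) (l 16533888)) (a (a (a (l 16537056) (b (l 16541824) (l 16529872))) (l 16534680)) (l 16533520))) (a (b (l 16545792) (l 16533440)) (b (l 16541224) (l 16529040))))) (b (a (b (l 16570256) (l 16558152)) (b (l 16565912) (l 16553896))) (a (b (l 16545760) (l 16533056)) (b (l 16541616) (l 16529088))))))) (a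 (b (c (a (l 16574328) (l 16562152)) (a (l 16565992) (l 16558512))) (c (b (l 16540904) (a (l 16551328) (l 16544944))) (b (l 16563680) (l 16549592)))) (b (a (c (l 16549784) (l 16551072)) (a (c (l 16565008) (l 16566424)) (c (l 16561368) (l 16563552)))) (b (a (l 16531208) (a (l 16546744) (l 16543640))) (a (c (l 16538352) (l 16539000)) (a (l 16533336) (c (l 16529776) (l 16531176)))))))), by decide +kernel⟩

def k107_pm_012_s : ∃ t, chk3 f_pm_012_s t 21 15 1 = true :=
  ⟨(b (b (c (a (c (b (l 16596264) (l 16585744)) (b (l 16594984) (l 16585392))) (c (b (l 16572920) (l 16562616)) (l 16567080))) (a (c (l 16569008) (l 16569224)) (l 16525112))) (b (c (a (c (l 16595568) (l 16575032)) (c (l 16551544) (l 16552208))) (a (l 16555992) (l 16554768))) (c (a (c (a (l 16568712) (l 16557000)) (l 16564008)) (c (l 16560760) (l 16541384))) (a (l 16546216) (l 16524656))))) (b (c (a (c (b (a (l 16556768) (l 16544944)) (a (l 16544760) (l 16532864))) (b (l 16552456) (l 16540576))) (c (b (a (l 16533424) (l 16522120))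 (a (l 16521248) (l 16509928))) (b (l 16530088) (l 16518416)))) (a (c (b (l 16554960) (l 16543296)) (l 16531776)) (c (l 16515560) (l 16511944)))) (c (a (c (b (a (l 16532792) (l 16520800)) (a (l 16520784) (l 16508840))) (b (a (l 16534056) (l 16522896)) (a (l 16521680) (l 16510752)))) (c (b (a (l 16509112) (l 16497704)) (a (l 16497064) (l 16485592))) (b (l 16506512) (l 16494528)))) (a (b (a (l 16537584) (l 16528000)) (c (l 16518616) (l 16521960))) (c (b (l 16510904) (l 16499048)) (l 16489792)))))), by decide +kernel⟩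

def k108_pm_012_s : ∃ t, chk3 f_pm_012_s t 11 14 1 = true :=
  ⟨(b (c (a (a (b (c (l 16610840) (l 16604776)) (c (l 16596968) (l 16591208))) (b (l 16625888) (l 16591480))) (b (a (l 16581328) (l 16537240)) (a (l 16547240) (l 16524288)))) (a (b (a (l 16595120) (l 16570872)) (a (l 16582304) (l 16558376))) (b (a (l 16547080) (l 16523944)) (a (l 16534888) (l 16511824))))) (a (c (b (a (l 16620576) (l 16576336)) (a (c (l 16563848) (l 16561000)) (l 16581416))) (b (a (l 16569632) (l 16546128)) (c (l 16526152) (l 16545152)))) (c (b (a (l 16532432) (l 16509824)) (a (l 16516896) (l 16494656))) (b (a (l 16523024) (l 16500312)) (a (l 16511936) (l 16489672)))))), by decide +kernel⟩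

def k109_pm_012_s : ∃ t, chk3 f_pm_012_s t 11 15 1 = true :=
  ⟨(b (c (a (a (b (c (l 16545000) (l 16544232)) (c (b (l 16528928) (l 16517400)) (l 16524528))) (b (c (l 16522520) (l 16521720)) (c (l 16501064) (l 16502536)))) (b (a (c (l 16500400) (l 16499536)) (l 16498968)) (a (c (l 16479312) (l 16480856)) (c (l 16457920) (l 16459480))))) (a (b (a (l 16523504) (l 16522192)) (a (c (l 16526944) (l 16530432)) (l 16486112))) (b (a (l 16500200) (l 16478504)) (a (l 16464872) (l 16464848))))) (b (a (c (a (c (b (l 16505496) (a (l 16498824) (l 16487904))) (b (l 16508192) (l 16496768))) (c (b (l 16483632) (l 16471712)) (l 16481096))) (a (c (l 16486016) (l 16491928)) (c (l 16486088) (l 16492640)))) (a (c (c (b (l 16462176) (l 16450456)) (l 16460000)) (l 16405928)) (c (c (l 16435328) (l 16439192)) (l 16427736)))) (a (c (a (c (b (a (l 16486592) (l 16475696)) (a (l 16474400) (l 16463512))) (b (l 16485144) (l 16473416))) (c (b (a (l 16464984) (l 16454352)) (a (l 16452824) (l 16442320))) (b (l 16464224)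 (l 16452784)))) (a (c (b (l 16490680) (l 16479472)) (l 16471496)) (c (b (l 16470536) (l 16459928)) (l 16452936)))) (a (c (c (b (l 16438616) (l 16426752)) (b (l 16443608) (l 16432536))) (c (l 16445512) (l 16455048))) (a (b (c (l 16425416) (l 16440256)) (l 6)) (l 6)))))), by decide +kernel⟩

def k110_pm_012_s : ∃ t, chk3 f_pm_012_s t 6 2 1 = true :=
  ⟨(b (l 2) (b (l 2) (a (a (a (b (l 2) (b (l 2) (l 16610056))) (l 2)) (l 2)) (l 2)))), by decide +kernel⟩

def k111_pm_012_s : ∃ t, chk3 f_pm_012_s t 6 6 1 = true :=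
  ⟨(a (b (b (b (a (a (l 16641368) (l 16581648)) (l 2)) (a (c (l 16665584) (l 16576600)) (c (l 16550544) (l 16537480)))) (a (c (b (a (l 16578704) (l 16560928)) (a (l 16567864) (l 16548952))) (a (b (l 16575496) (l 16563848)) (b (l 16555672) (l 16543800)))) (b (c (l 16599680) (l 16526576)) (c (a (l 16531752) (l 16515936)) (l 16556808))))) (b (b (a (c (a (l 16557344) (l 16537256)) (a (l 16551616) (l 16531520))) (c (a (l 16518896) (l 16502312)) (l 16586112))) (a (c (a (l 16547160) (l 16526168)) (a (l 16539232) (l 16518720))) (c (a (l 16506656) (l 16488856)) (l 16573424)))) (a (c (a (b (l 16536816) (l 16526152)) (b (l 16515328) (l 16504240))) (a (b (l 16526736) (l 16514136)) (b (l 16505824) (l 16492896)))) (a (c (b (l 16494936) (l 16483376)) (b (l 16485824) (l 16472536))) (c (b (l 16476024) (l 16463608)) (b (l 16466696) (l 16453048))))))) (a (a (b (b (l 2) (b (l 2) (l 16557168))) (b (c (b (l 16487120) (l 16472816)) (l 16488912)) (a (b (l 16520384) (l 6)) (l 6)))) (b (l 2) (l 6))) (l 6))), by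 decide +kernel⟩

def k112_pm_012_s : ∃ t, chk3 f_pm_012_s t 6 7 1 = true :=
  ⟨(b (a (b (a (c (b (a (l 16514648) (l 16492736)) (a (l 16501816) (l 16479864))) (b (a (l 16501520) (l 16479992)) (a (l 16489384) (l 16467616)))) (c (b (a (l 16471464) (l 16451240)) (a (l 16458608) (l 6))) (b (a (l 16459328) (l 16439512)) (l 16541504)))) (b (c (a (a (l 16487536) (l 16465728)) (a (l 16444448) (l 6))) (a (a (l 16478000) (l 16456264)) (l 16487912))) (a (c (a (l 16472736) (l 16451136)) (a (l 16467768) (l 16446216))) (l 6)))) (l 6)) (a (b (a (a (c (b (l 16477440) (c (l 16436864) (l 16438400))) (b (l 16457112) (l 16444104))) (b (c (l 16435264) (l 16436032)) (l 6))) (l 6)) (l 6)) (l 6))), by decide +kernel⟩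

def k113_pm_012_s : ∃ t, chk3 f_pm_012_s t 7 1 1 = true :=
  ⟨(b (l 2) (l 6)), by decide +kernel⟩

theorem s114_pm_012_s : ∃ t, chk3 f_pm_012_s t 6 3 1 = true := ex3_b k111_pm_012_s k112_pm_012_s

theorem s115_pm_012_s : ∃ t, chk3 f_pm_012_s t 6 1 1 = true := ex3_b k110_pm_012_s s114_pm_012_s

theorem s116_pm_012_s : ∃ t, chk3 f_pm_012_s t 3 1 1 = true := ex3_a s115_pm_012_s k113_pm_012_s

theorem s117_pm_012_s : ∃ t, chk3 f_pm_012_s t 11 7 1 = true := ex3_b k108_pm_012_s k109_pm_012_s

theorem s118_pm_012_s : ∃ t, chk3 f_pm_012_s t 41 15 1 = true := ex3_b k105_pm_012_s k106_pm_012_s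

theorem s119_pm_012_s : ∃ t, chk3 f_pm_012_s t 20 15 1 = true := ex3_a k104_pm_012_s s118_pm_012_s

theorem s120_pm_012_s : ∃ t, chk3 f_pm_012_s t 10 15 1 = true := ex3_a s119_pm_012_s k107_pm_012_s

theorem s121_pm_012_s : ∃ t, chk3 f_pm_012_s t 20 14 1 = true := ex3_a k101_pm_012_s k102_pm_012_s

theorem s122_pm_012_s : ∃ t, chk3 f_pm_012_s t 10 14 1 = true := ex3_a s121_pm_012_s k103_pm_012_s

theorem s123_pm_012_s : ∃ t, chk3 f_pm_012_s t 10 7 1 = true := ex3_b s122_pm_012_s s120_pm_012_s

theorem s124_pm_012_s : ∃ t, chk3 f_pm_012_s t 5 7 1 = true := ex3_a s123_pm_012_s s117_pm_012_s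

theorem s125_pm_012_s : ∃ t, chk3 f_pm_012_s t 20 6 1 = true := ex3_a k97_pm_012_s k98_pm_012_s

theorem s126_pm_012_s : ∃ t, chk3 f_pm_012_s t 10 6 1 = true := ex3_a s125_pm_012_s k99_pm_012_s

theorem s127_pm_012_s : ∃ t, chk3 f_pm_012_s t 5 6 1 = true := ex3_a s126_pm_012_s k100_pm_012_s

theorem s128_pm_012_s : ∃ t, chk3 f_pm_012_s t 5 3 1 = true := ex3_b s127_pm_012_s s124_pm_012_s

theorem s129_pm_012_s : ∃ t, chk3 f_pm_012_s t 5 5 1 = true := ex3_a k95_pm_012_s k96_pm_012_s

theorem s130_pm_012_s : ∃ t, chk3 f_pm_012_s t 5 2 1 = true := ex3_b k94_pm_012_s s129_pm_012_s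

theorem s131_pm_012_s : ∃ t, chk3 f_pm_012_s t 5 1 1 = true := ex3_b s130_pm_012_s s128_pm_012_s

theorem s132_pm_012_s : ∃ t, chk3 f_pm_012_s t 19 31 2 = true := ex3_b k91_pm_012_s k92_pm_012_s

theorem s133_pm_012_s : ∃ t, chk3 f_pm_012_s t 19 15 2 = true := ex3_b k90_pm_012_s s132_pm_012_s

theorem s134_pm_012_s : ∃ t, chk3 f_pm_012_s t 19 15 1 = true := ex3_c s133_pm_012_s k93_pm_012_s

theorem s135_pm_012_s : ∃ t, chk3 f_pm_012_s t 19 14 2 = true := ex3_b k87_pm_012_s k88_pm_012_s

theorem s136_pm_012_s : ∃ t, chk3 f_pm_012_s t 19 14 1 = true := ex3_c s135_pm_012_s k89_pm_012_s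

theorem s137_pm_012_s : ∃ t, chk3 f_pm_012_s t 19 7 1 = true := ex3_b s136_pm_012_s s134_pm_012_s

theorem s138_pm_012_s : ∃ t, chk3 f_pm_012_s t 18 63 1 = true := ex3_a k85_pm_012_s k86_pm_012_s

theorem s139_pm_012_s : ∃ t, chk3 f_pm_012_s t 18 62 1 = true := ex3_b k83_pm_012_s k84_pm_012_s

theorem s140_pm_012_s : ∃ t, chk3 f_pm_012_s t 18 31 1 = true := ex3_b s139_pm_012_s s138_pm_012_s

theorem s141_pm_012_s : ∃ t, chk3 f_pm_012_s t 18 30 4 = true := ex3_a k79_pm_012_s k80_pm_012_s

theorem s142_pm_012_s : ∃ t, chk3 f_pm_012_s t 18 30 2 = true := ex3_c s141_pm_012_s k81_pm_012_s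

theorem s143_pm_012_s : ∃ t, chk3 f_pm_012_s t 18 30 1 = true := ex3_c s142_pm_012_s k82_pm_012_s

theorem s144_pm_012_s : ∃ t, chk3 f_pm_012_s t 18 15 1 = true := ex3_b s143_pm_012_s s140_pm_012_s

theorem s145_pm_012_s : ∃ t, chk3 f_pm_012_s t 72 29 1 = true := ex3_a k75_pm_012_s k76_pm_012_s

theorem s146_pm_012_s : ∃ t, chk3 f_pm_012_s t 36 29 1 = true := ex3_a s145_pm_012_s k77_pm_012_s

theorem s147_pm_012_s : ∃ t, chk3 f_pm_012_s t 18 29 1 = true := ex3_a s146_pm_012_s k78_pm_012_s

theorem s148_pm_012_s : ∃ t, chk3 f_pm_012_s t 18 28 1 = true := ex3_a k73_pm_012_s k74_pm_012_s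

theorem s149_pm_012_s : ∃ t, chk3 f_pm_012_s t 18 14 1 = true := ex3_b s148_pm_012_s s147_pm_012_s

theorem s150_pm_012_s : ∃ t, chk3 f_pm_012_s t 18 7 1 = true := ex3_b s149_pm_012_s s144_pm_012_s

theorem s151_pm_012_s : ∃ t, chk3 f_pm_012_s t 9 7 1 = true := ex3_a s150_pm_012_s s137_pm_012_s

theorem s152_pm_012_s : ∃ t, chk3 f_pm_012_s t 17 63 1 = true := ex3_b k71_pm_012_s k72_pm_012_s

theorem s153_pm_012_s : ∃ t, chk3 f_pm_012_s t 35 62 2 = true := ex3_c k68_pm_012_s k69_pm_012_s

theorem s154_pm_012_s : ∃ t, chk3 f_pm_012_s t 35 62 1 = true := ex3_c s153_pm_012_s k70_pm_012_s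

theorem s155_pm_012_s : ∃ t, chk3 f_pm_012_s t 69 62 1 = true := ex3_a k66_pm_012_s k67_pm_012_s

theorem s156_pm_012_s : ∃ t, chk3 f_pm_012_s t 68 62 1 = true := ex3_a k64_pm_012_s k65_pm_012_s

theorem s157_pm_012_s : ∃ t, chk3 f_pm_012_s t 34 62 1 = true := ex3_a s156_pm_012_s s155_pm_012_s

theorem s158_pm_012_s : ∃ t, chk3 f_pm_012_s t 17 62 1 = true := ex3_a s157_pm_012_s s154_pm_012_s

theorem s159_pm_012_s : ∃ t, chk3 f_pm_012_s t 17 31 1 = true := ex3_b s158_pm_012_s s152_pm_012_s

theorem s160_pm_012_s : ∃ t, chk3 f_pm_012_s t 70 61 2 = true := ex3_b k60_pm_012_s k61_pm_012_s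

theorem s161_pm_012_s : ∃ t, chk3 f_pm_012_s t 35 61 2 = true := ex3_a s160_pm_012_s k62_pm_012_s

theorem s162_pm_012_s : ∃ t, chk3 f_pm_012_s t 70 121 4 = true := ex3_a k56_pm_012_s k57_pm_012_s

theorem s163_pm_012_s : ∃ t, chk3 f_pm_012_s t 70 121 2 = true := ex3_c s162_pm_012_s k58_pm_012_s

theorem s164_pm_012_s : ∃ t, chk3 f_pm_012_s t 70 241 2 = true := ex3_b k54_pm_012_s k55_pm_012_s

theorem s165_pm_012_s : ∃ t, chk3 f_pm_012_s t 70 240 2 = true := ex3_b k52_pm_012_s k53_pm_012_s

theorem s166_pm_012_s : ∃ t, chk3 f_pm_012_s t 70 120 2 = true := ex3_b s165_pm_012_s s164_pm_012_s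

theorem s167_pm_012_s : ∃ t, chk3 f_pm_012_s t 70 60 2 = true := ex3_b s166_pm_012_s s163_pm_012_s

theorem s168_pm_012_s : ∃ t, chk3 f_pm_012_s t 35 60 2 = true := ex3_a s167_pm_012_s k59_pm_012_s

theorem s169_pm_012_s : ∃ t, chk3 f_pm_012_s t 35 30 2 = true := ex3_b s168_pm_012_s s161_pm_012_s

theorem s170_pm_012_s : ∃ t, chk3 f_pm_012_s t 35 30 1 = true := ex3_c s169_pm_012_s k63_pm_012_s

theorem s171_pm_012_s : ∃ t, chk3 f_pm_012_s t 276 122 2 = true := ex3_a k46_pm_012_s k47_pm_012_s

theorem s172_pm_012_s : ∃ t, chk3 f_pm_012_s t 138 122 2 = true := ex3_a s171_pm_012_s k48_pm_012_s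

theorem s173_pm_012_s : ∃ t, chk3 f_pm_012_s t 138 122 1 = true := ex3_c s172_pm_012_s k49_pm_012_s

theorem s174_pm_012_s : ∃ t, chk3 f_pm_012_s t 69 122 1 = true := ex3_a s173_pm_012_s k50_pm_012_s

theorem s175_pm_012_s : ∃ t, chk3 f_pm_012_s t 69 61 1 = true := ex3_b s174_pm_012_s k51_pm_012_s

theorem s176_pm_012_s : ∃ t, chk3 f_pm_012_s t 137 123 2 = true := ex3_c k43_pm_012_s k44_pm_012_s

theorem s177_pm_012_s : ∃ t, chk3 f_pm_012_s t 136 247 4 = true := ex3_a k40_pm_012_s k41_pm_012_s

theorem s178_pm_012_s : ∃ t, chk3 f_pm_012_s t 136 247 2 = true := ex3_c s177_pm_012_s k42_pm_012_s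

theorem s179_pm_012_s : ∃ t, chk3 f_pm_012_s t 273 246 2 = true := ex3_a k38_pm_012_s k39_pm_012_s

theorem s180_pm_012_s : ∃ t, chk3 f_pm_012_s t 136 246 2 = true := ex3_a k37_pm_012_s s179_pm_012_s

theorem s181_pm_012_s : ∃ t, chk3 f_pm_012_s t 136 123 2 = true := ex3_b s180_pm_012_s s178_pm_012_s

theorem s182_pm_012_s : ∃ t, chk3 f_pm_012_s t 68 123 2 = true := ex3_a s181_pm_012_s s176_pm_012_s

theorem s183_pm_012_s : ∃ t, chk3 f_pm_012_s t 137 491 2 = true := ex3_a k35_pm_012_s k36_pm_012_s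

theorem s184_pm_012_s : ∃ t, chk3 f_pm_012_s t 68 491 2 = true := ex3_a k34_pm_012_s s183_pm_012_s

theorem s185_pm_012_s : ∃ t, chk3 f_pm_012_s t 68 245 2 = true := ex3_b k33_pm_012_s s184_pm_012_s

theorem s186_pm_012_s : ∃ t, chk3 f_pm_012_s t 68 122 2 = true := ex3_b k32_pm_012_s s185_pm_012_s

theorem s187_pm_012_s : ∃ t, chk3 f_pm_012_s t 68 61 2 = true := ex3_b s186_pm_012_s s182_pm_012_s

theorem s188_pm_012_s : ∃ t, chk3 f_pm_012_s t 68 61 1 = true := ex3_c s187_pm_012_s k45_pm_012_s

theorem s189_pm_012_s : ∃ t, chk3 f_pm_012_s t 34 61 1 = true := ex3_a s188_pm_012_s s175_pm_012_s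

theorem s190_pm_012_s : ∃ t, chk3 f_pm_012_s t 139 243 2 = true := ex3_b k29_pm_012_s k30_pm_012_s

theorem s191_pm_012_s : ∃ t, chk3 f_pm_012_s t 139 243 1 = true := ex3_c s190_pm_012_s k31_pm_012_s

theorem s192_pm_012_s : ∃ t, chk3 f_pm_012_s t 69 243 1 = true := ex3_a k28_pm_012_s s191_pm_012_s

theorem s193_pm_012_s : ∃ t, chk3 f_pm_012_s t 139 242 1 = true := ex3_b k26_pm_012_s k27_pm_012_s

theorem s194_pm_012_s : ∃ t, chk3 f_pm_012_s t 69 242 1 = true := ex3_a k25_pm_012_s s193_pm_012_s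

theorem s195_pm_012_s : ∃ t, chk3 f_pm_012_s t 69 121 1 = true := ex3_b s194_pm_012_s s192_pm_012_s

theorem s196_pm_012_s : ∃ t, chk3 f_pm_012_s t 69 60 1 = true := ex3_b k24_pm_012_s s195_pm_012_s

theorem s197_pm_012_s : ∃ t, chk3 f_pm_012_s t 34 60 1 = true := ex3_a k23_pm_012_s s196_pm_012_s

theorem s198_pm_012_s : ∃ t, chk3 f_pm_012_s t 34 30 1 = true := ex3_b s197_pm_012_s s189_pm_012_s

theorem s199_pm_012_s : ∃ t, chk3 f_pm_012_s t 17 30 1 = true := ex3_a s198_pm_012_s s170_pm_012_s

theorem s200_pm_012_s : ∃ t, chk3 f_pm_012_s t 17 15 1 = true := ex3_b s199_pm_012_s s159_pm_012_s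

theorem s201_pm_012_s : ∃ t, chk3 f_pm_012_s t 135 247 1 = true := ex3_b k20_pm_012_s k21_pm_012_s

theorem s202_pm_012_s : ∃ t, chk3 f_pm_012_s t 135 123 1 = true := ex3_b k19_pm_012_s s201_pm_012_s

theorem s203_pm_012_s : ∃ t, chk3 f_pm_012_s t 67 123 1 = true := ex3_a k18_pm_012_s s202_pm_012_s

theorem s204_pm_012_s : ∃ t, chk3 f_pm_012_s t 67 61 1 = true := ex3_b k17_pm_012_s s203_pm_012_s

theorem s205_pm_012_s : ∃ t, chk3 f_pm_012_s t 33 61 1 = true := ex3_a k16_pm_012_s s204_pm_012_s

theorem s206_pm_012_s : ∃ t, chk3 f_pm_012_s t 33 30 1 = true := ex3_b k15_pm_012_s s205_pm_012_s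

theorem s207_pm_012_s : ∃ t, chk3 f_pm_012_s t 16 30 1 = true := ex3_a k14_pm_012_s s206_pm_012_s

theorem s208_pm_012_s : ∃ t, chk3 f_pm_012_s t 16 15 1 = true := ex3_b s207_pm_012_s k22_pm_012_s

theorem s209_pm_012_s : ∃ t, chk3 f_pm_012_s t 8 15 1 = true := ex3_a s208_pm_012_s s200_pm_012_s

theorem s210_pm_012_s : ∃ t, chk3 f_pm_012_s t 71 119 2 = true := ex3_a k11_pm_012_s k12_pm_012_s

theorem s211_pm_012_s : ∃ t, chk3 f_pm_012_s t 71 119 1 = true := ex3_c s210_pm_012_s k13_pm_012_s

theorem s212_pm_012_s : ∃ t, chk3 f_pm_012_s t 35 119 1 = true := ex3_a k10_pm_012_s s211_pm_012_s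

theorem s213_pm_012_s : ∃ t, chk3 f_pm_012_s t 35 59 1 = true := ex3_b k9_pm_012_s s212_pm_012_s

theorem s214_pm_012_s : ∃ t, chk3 f_pm_012_s t 35 29 1 = true := ex3_b k8_pm_012_s s213_pm_012_s

theorem s215_pm_012_s : ∃ t, chk3 f_pm_012_s t 35 14 1 = true := ex3_b k7_pm_012_s s214_pm_012_s

theorem s216_pm_012_s : ∃ t, chk3 f_pm_012_s t 17 14 1 = true := ex3_a k6_pm_012_s s215_pm_012_s

theorem s217_pm_012_s : ∃ t, chk3 f_pm_012_s t 8 14 1 = true := ex3_a k5_pm_012_s s216_pm_012_s

theorem s218_pm_012_s : ∃ t, chk3 f_pm_012_s t 8 7 1 = true := ex3_b s217_pm_012_s s209_pm_012_s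

theorem s219_pm_012_s : ∃ t, chk3 f_pm_012_s t 4 7 1 = true := ex3_a s218_pm_012_s s151_pm_012_s

theorem s220_pm_012_s : ∃ t, chk3 f_pm_012_s t 19 6 1 = true := ex3_b k3_pm_012_s k4_pm_012_s

theorem s221_pm_012_s : ∃ t, chk3 f_pm_012_s t 9 6 1 = true := ex3_a k2_pm_012_s s220_pm_012_s

theorem s222_pm_012_s : ∃ t, chk3 f_pm_012_s t 4 6 1 = true := ex3_a k1_pm_012_s s221_pm_012_s

theorem s223_pm_012_s : ∃ t, chk3 f_pm_012_s t 4 3 1 = true := ex3_b s222_pm_012_s s219_pm_012_s

theorem s224_pm_012_s : ∃ t, chk3 f_pm_012_s t 4 1 1 = true := ex3_b k0_pm_012_s s223_pm_012_s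

theorem s225_pm_012_s : ∃ t, chk3 f_pm_012_s t 2 1 1 = true := ex3_a s224_pm_012_s s131_pm_012_s

theorem s226_pm_012_s : ∃ t, chk3 f_pm_012_s t 1 1 1 = true := ex3_a s225_pm_012_s s116_pm_012_s

theorem c_pm_012_s : CertNE 0 536870912 536870912 536870912 858993459 64424510 3 eng mog cd0q0 cd0q1 pd2 true true false .pnp 0 1 2
    ndB0q0 ndB0q1 pcB2 cut_pm_012_s Ext.none :=
  certNE2 (fam := true) (s1 := true) (s2 := false) (a := 0) (b := 1) (c := 2) (cn := .pnp) (n1 := ndB0q0) (n2 := ndB0q1) (pc := pcB2) (cut := cut_pm_012_s) (xt := Ext.none) (P1 := 0) (W1 := 536870912) (P2 := 536870912) (W2 := 536870912) (P3 := 858993459) (W3 := 64424510) (N0 := 3) (En := eng) (mo := mog) (C1 := cd0q0) (C2 := cd0q1) (C3 := pd2)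
    rfl (fun _ => rfl) s226_pm_012_s

noncomputable def cut_pm_012_t : Cut := Cut.of [[⟨3, 0, 0, 2845415833⟩], [⟨0, 0, 0, 67108864⟩, ⟨1, 1, 0, 67108864⟩, ⟨2, 1, 0, 67108864⟩]]

noncomputable def f_pm_012_t : ℕ → ℕ → ℕ → ℕ → Bool := onCell 0 536870912 536870912 536870912 858993459 64424510
    (rowNE 3 eng mog cd0q0 cd0q1 pd2 0 true true false .pnp 0 1 2 (qsf 0 536870912 536870912 536870912 2) ndB0q0 ndB0q1 pcB2 cut_pm_012_t Ext.none)

def k0_pm_012_t : ∃ t, chk3 f_pm_012_t t 1 1 1 = true :=
  ⟨(l 6), by decide +kernel⟩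

theorem c_pm_012_t : CertNE 0 536870912 536870912 536870912 858993459 64424510 3 eng mog cd0q0 cd0q1 pd2 true true false .pnp 0 1 2
    ndB0q0 ndB0q1 pcB2 cut_pm_012_t Ext.none :=
  certNE0 (fam := true) (s1 := true) (s2 := false) (a := 0) (b := 1) (c := 2) (cn := .pnp) (n1 := ndB0q0) (n2 := ndB0q1) (pc := pcB2) (cut := cut_pm_012_t) (xt := Ext.none) (P1 := 0) (W1 := 536870912) (P2 := 536870912) (W2 := 536870912) (P3 := 858993459) (W3 := 64424510) (N0 := 3) (En := eng) (mo := mog) (C1 := cd0q0) (C2 := cd0q1) (C3 := pd2)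
    rfl k0_pm_012_t

noncomputable def cut_pm_022_s : Cut := Cut.of [[⟨4, 0, 0, 1449551462⟩], [⟨0, 0, 0, 67108864⟩, ⟨1, 1, 0, 67108864⟩, ⟨2, 1, 0, 67108864⟩]]

noncomputable def f_pm_022_s : ℕ → ℕ → ℕ → ℕ → Bool := onCell 1073741824 536870912 0 536870912 858993459 64424510
    (rowNE 3 eng mog cd0q0 cd0q2 pd2 2 true true false .pp 0 2 2 (qsf 0 536870912 0 536870912 2) ndB0q0 ndB0q2 pcB2 cut_pm_022_s Ext.none)

def k0_pm_022_s : ∃ t, chk3 f_pm_022_s t 4 2 1 = true :=
  ⟨(a (l 1) (l 6)), by decide +kernel⟩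

def k1_pm_022_s : ∃ t, chk3 f_pm_022_s t 8 3 1 = true :=
  ⟨(b (l 1) (a (b (l 1) (l 14)) (b (b (b (l 1) (a (l 1) (a (l 1) (a (b (l 1) (l 14)) (c (b (c (l 16564560) (l 16541760)) (c (l 16578384) (l 16556688))) (b (c (l 16517088) (l 16490552)) (c (l 16533192) (l 16507896)))))))) (a (l 14) (a (l 14) (a (l 14) (a (l 14) (b (c (b (l 16582504) (l 16597424)) (b (l 16537576) (l 16554936))) (c (b (l 16612792) (l 16628544)) (b (l 16572832) (l 16591216))))))))) (a (l 14) (a (l 14) (a (l 14) (a (l 14) (a (l 14) (b (c (b (c (l 16639320) (l 16645096)) (l 16664880)) (b (b (l 16609928) (l 16629128)) (l 16616688))) (b (c (l 16642832) (l 16656776)) (a (l 14) (c (b (l 16670344) (c (b (l 16660216) (l 16655544)) (l 16662960))) (b (l 16665096) (l 16651112)))))))))))))), by decide +kernel⟩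

def k2_pm_022_s : ∃ t, chk3 f_pm_022_s t 9 12 1 = true :=
  ⟨(a (l 1) (l 6)), by decide +kernel⟩

def k3_pm_022_s : ∃ t, chk3 f_pm_022_s t 18 13 1 = true :=
  ⟨(a (b (l 1) (a (l 1) (a (b (l 1) (c (b (c (l 16514688) (l 16485520)) (c (l 16527368) (l 16499480))) (b (c (l 16453912) (l 16419856)) (c (l 16469240) (l 16436648))))) (b (a (l 1) (b (l 1) (c (c (l 16502408) (l 16471144)) (c (l 16437216) (l 16400632))))) (c (b (c (l 16515952) (l 16486160)) (c (l 16528512) (l 16500040))) (b (c (l 16453824) (l 16418944)) (c (l 16469112) (l 16435744)))))))) (b (a (a (l 1) (b (l 1) (c (c (l 16485792) (l 16429224)) (c (l 16390608) (l 16348976))))) (c (b (c (l 16438776) (l 16399800)) (b (c (l 16460656) (l 16423584)) (c (l 16475624) (l 16439848)))) (b (c (l 16357496) (l 16311872)) (c (a (l 16391624) (l 16392720)) (a (l 16349240) (l 16349592)))))) (c (b (a (c (a (b (l 16486776) (b (l 16499168) (l 16507464))) (b (l 16488392) (l 16504624))) (a (b (l 16453744) (b (l 16467096) (l 16476024))) (b (l 16454760) (l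 16472248)))) (a (c (l 16498032) (l 16464440)) (c (l 16499616) (l 16465408)))) (a (b (c (a (l 16517272) (l 16518640)) (a (l 16486856) (l 16487584))) (c (l 16530320) (l 16500944))) (c (b (l 16520728) (l 16532896)) (b (l 16488704) (l 16502296))))) (b (a (c (a (b (l 16417912) (a (l 16437144) (l 16437096))) (b (l 16418232) (l 16437032))) (a (b (l 16379280) (l 16420872)) (b (l 16378792) (l 16398984)))) (c (a (l 16427864) (l 16428128)) (a (l 16388320) (l 16387760)))) (a (c (b (a (l 16453784) (l 16453768)) (l 16468976)) (b (l 16438600) (l 16434416))) (c (b (l 16453760) (l 16468888)) (b (l 16415896) (l 16432672)))))))), by decide +kernel⟩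

def k4_pm_022_s : ∃ t, chk3 f_pm_022_s t 19 13 1 = true :=
  ⟨(b (a (b (a (a (a (c (l 16423176) (l 16337136)) (l 6)) (l 6)) (l 6)) (c (a (c (l 16472840) (l 16435360)) (c (l 16477656) (l 16439200))) (a (c (l 16394504) (l 16350264)) (a (l 16363720) (l 16343928))))) (l 6)) (c (a (a (b (c (l 16502096) (l 16467000)) (c (l 16508672) (b (l 16490272) (l 16503744)))) (c (b (l 16505504) (l 16511456)) (b (l 16469288) (l 16498576)))) (c (b (l 16486640) (a (l 16530224) (l 16525608))) (b (l 16490992) (l 16476776)))) (a (c (a (b (l 16428648) (b (l 16453800) (l 16468832))) (b (l 16429600) (l 16461408))) (a (b (l 16387056) (l 16433056)) (b (l 16386464) (l 16420928)))) (b (a (l 16391656) (l 16418728)) (a (l 16442024) (l 16428560)))))), by decide +kernel⟩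

def k5_pm_022_s : ∃ t, chk3 f_pm_022_s t 18 28 1 = true :=
  ⟨(b (a (a (a (b (l 1) (c (c (l 16551800) (l 16527368)) (c (l 16500920) (l 16472448)))) (c (b (c (l 16539328) (l 16513232)) (c (l 16552536) (l 16527632))) (b (c (l 16484952) (l 16454496)) (c (l 16500624) (l 16471512))))) (c (c (b (a (l 16540280) (l 16541288)) (l 16553768)) (b (a (l 16513640) (l 16514104)) (l 16528112))) (a (c (b (l 16484744) (l 16500360)) (b (l 16453576) (l 16470592))) (c (l 16492392) (l 16461224))))) (c (a (c (b (l 16542904) (l 16555640)) (b (l 16514872) (l 16528928))) (c (l 16551520) (l 16523000))) (a (c (b (l 16484344) (l 16499800)) (b (l 16451304) (l 16468264))) (c (l 16491816) (l 16457976))))) (b (a (c (a (c (a (l 16565328) (l 16565912)) (a (l 16542040) (l 16542192))) (c (l 16566928) (l 16542520))) (a (a (c (l 16516792) (l 16489600)) (c (l 16516440) (l 16488672))) (c (l 16515960) (l 16487256)))) (c (c (l 16558920) (l 16522480)) (a (l 16479672) (l 16499384)))) (a (c (a (c (l 16558272) (a (l 16556896) (l 16556936)))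 (c (l 16580264) (l 16557096))) (a (c (l 16534280) (l 16516952)) (c (l 16531856) (l 16504552)))) (c (a (l 16569800) (l 16570864)) (a (l 16517104) (l 16515680)))))), by decide +kernel⟩

def k6_pm_022_s : ∃ t, chk3 f_pm_022_s t 18 29 1 = true :=
  ⟨(c (a (b (c (a (b (l 16593080) (l 16607240)) (l 16600736)) (a (b (l 16571912) (l 16587272)) (l 16558472))) (a (c (b (l 16621824) (l 16636752)) (a (l 16611440) (l 16611016))) (c (l 16608176) (l 16610472)))) (b (a (c (l 16601600) (l 16579448)) (c (l 16602728) (l 16579576))) (c (a (l 16608376) (l 16629840)) (a (l 16609896) (l 16609440))))) (a (a (b (c (a (l 16536544) (l 16556984)) (a (l 16512576) (l 16532568))) (c (l 16591456) (l 16549064))) (b (c (l 16535232) (l 16510048)) (c (l 16590000) (l 16567736)))) (c (b (a (l 16555184) (l 16554128)) (l 16545760)) (b (a (l 16528824) (l 16526400)) (a (l 16565168) (l 16562288)))))), by decide +kernel⟩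

def k7_pm_022_s : ∃ t, chk3 f_pm_022_s t 19 14 1 = true :=
  ⟨(b (a (c (c (a (b (l 16553904) (l 16578680)) (b (l 16556304) (l 16580624))) (a (b (l 16524152) (l 16551672)) (b (l 16525320) (l 16552392)))) (a (b (l 16470192) (l 16506128)) (b (c (l 16491232) (l 16454056)) (a (l 16504952) (l 16504280))))) (c (b (a (l 16550176) (l 16536544)) (c (l 16575408) (l 16550528))) (b (a (l 16475576) (l 16479808)) (a (l 16506568) (l 16510088))))) (c (b (a (a (c (l 16604088) (l 16579784)) (c (l 16605512) (l 16580000))) (c (l 16599824) (l 16577440))) (a (a (l 16578168) (l 16579736)) (c (l 16625056) (l 16605240)))) (a (c (b (a (l 16552992) (l 16551768)) (a (l 16585208) (l 16583360))) (b (c (l 16509080) (l 16493384)) (a (l 16559048) (l 16555520)))) (c (b (l 16552624) (l 16562168)) (b (l 16525384) (l 16516832)))))), by decide +kernel⟩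

def k8_pm_022_s : ∃ t, chk3 f_pm_022_s t 18 30 1 = true :=
  ⟨(b (c (c (a (a (l 16617784) (l 16658792)) (l 16637104)) (a (a (l 16602360) (l 16621912)) (l 16620056))) (c (a (a (l 16627360) (l 16625352)) (l 16569704)) (a (a (l 16608904) (l 16606192)) (b (l 16591808) (l 16610944))))) (a (c (a (a (l 16643352) (l 16642288)) (c (l 16677208) (l 16676144))) (a (b (l 16605272) (l 16624936)) (b (l 16602472) (l 16621784)))) (c (a (c (l 16665280) (l 16674120)) (l 16597600)) (c (l 16615536) (a (l 16600320) (l 16596080)))))), by decide +kernel⟩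

def k9_pm_022_s : ∃ t, chk3 f_pm_022_s t 18 31 1 = true :=
  ⟨(c (c (b (a (a (b (l 16677504) (l 16669360)) (b (l 16665760) (l 16657448))) (b (l 16598880) (a (l 16645136) (l 16632512)))) (a (b (a (a (l 16663624) (l 16657728)) (c (l 16646952) (l 16650408))) (a (a (b (l 16656816) (c (a (l 16652560) (l 16649600)) (l 16653208))) (b (l 16650872) (c (b (l 16646224) (l 16643952)) (l 16647256)))) (c (b (l 16640392) (a (l 16638968) (l 16632736))) (a (l 16643712) (l 16637584))))) (b (a (c (l 16634368) (l 16638128)) (l 16613016)) (a (c (b (l 16627744) (a (l 16626400) (l 16619984))) (b (l 16630792) (l 16625768))) (c (b (l 16614784) (a (l 16613488) (l 16606936))) (b (l 16618232) (l 16613176))))))) (b (a (a (l 16641304) (l 16629896)) (a (l 16618360) (l 16606752))) (a (b (a (l 16636280) (l 16656072)) (b (a (l 16654256) (l 16626760)) (a (c (l 16663080) (l 16655136)) (c (l 16640664) (l 16643392))))) (b (a (l 16644304) (l 16632488)) (a (c (l 16616936) (l 16634672)) (c (l 16619200) (l 16622984))))))) (a (c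 (b (a (l 16652184) (l 16662264)) (b (a (l 16654760) (l 16664536)) (a (a (l 16665552) (l 16638840)) (c (l 16649600) (l 16653040))))) (b (b (l 16657520) (l 16652008)) (a (b (l 16663712) (c (l 16667736) (l 16650392))) (b (l 16653048) (a (l 16661288) (l 16655992)))))) (b (a (b (l 16658312) (l 16630528)) (b (l 16654040) (l 16620536))) (c (b (a (l 16653536) (l 16642768)) (a (c (l 16638248) (l 16642072)) (c (l 16627056) (l 16631424)))) (b (a (l 16642960) (l 16633376)) (a (a (l 16650824) (l 16645800)) (l 16617544))))))), by decide +kernel⟩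

def k10_pm_022_s : ∃ t, chk3 f_pm_022_s t 19 15 1 = true :=
  ⟨(b (b (a (a (c (l 16628024) (a (l 16545312) (l 16543656))) (c (l 16585600) (a (l 16541920) (l 16540256)))) (c (c (l 16632112) (l 16633824)) (a (l 16519728) (l 16541648)))) (a (c (a (l 16585704) (a (l 16597680) (l 16570864))) (a (b (l 16592224) (l 16631264)) (b (l 16567240) (l 16605856)))) (a (c (l 16564752) (l 16574752)) (c (l 16557152) (l 16595600))))) (b (a (a (c (c (l 16571656) (l 16595136)) (b (l 16645464) (l 16610888))) (c (c (a (l 16614432) (l 16608160)) (l 16583608)) (c (l 16599720) (l 16617696)))) (c (c (a (l 16581504) (l 16595616)) (c (l 16565848) (l 16572192))) (c (a (l 16588408) (l 16576632)) (b (l 16647000) (l 16590120))))) (c (c (a (a (b (l 16589632) (b (l 16614008) (a (l 16601944) (l 16595424)))) (a (b (l 16600848) (b (l 16593736) (l 16588880))) (b (l 16594512) (c (a (l 16584272) (l 16581344)) (l 16587176))))) (a (b (l 16599096) (c (b (l 16579448) (l 16574800)) (l 16580872))) (b (l 16602440) (c (b (l 16572664)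 (l 16567872)) (l 16572944))))) (a (b (a (l 16620688) (l 16608992)) (a (c (l 16607024) (l 16611384)) (a (l 16600288) (l 16594464)))) (a (b (l 16598768) (c (l 16584936) (l 16589360))) (b (l 16589392) (c (l 16575920) (l 16579200)))))) (c (a (b (a (l 16632248) (l 16621960)) (a (l 16618544) (a (l 16610736) (l 16605560)))) (a (a (l 16559440) (l 16558704)) (b (l 16598656) (l 16563720)))) (a (a (c (l 16592264) (l 16598560)) (a (l 16588832) (a (l 16585672) (l 16583168)))) (b (a (l 16602848) (l 16609272)) (a (l 16586720) (l 16593072)))))))), by decide +kernel⟩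

def k11_pm_022_s : ∃ t, chk3 f_pm_022_s t 5 2 1 = true :=
  ⟨(l 6), by decide +kernel⟩

def k12_pm_022_s : ∃ t, chk3 f_pm_022_s t 5 6 1 = true :=
  ⟨(a (b (l 6) (a (a (a (b (l 6) (b (l 6) (c (l 16509056) (l 16454120)))) (l 6)) (l 6)) (l 6))) (l 6)), by decide +kernel⟩

def k13_pm_022_s : ∃ t, chk3 f_pm_022_s t 5 14 1 = true :=
  ⟨(a (a (b (b (a (c (a (l 16533544) (l 16530632)) (a (l 16483664) (l 16487128))) (a (c (l 16527792) (l 16490176)) (l 6))) (a (c (c (l 16565968) (l 16546904)) (a (l 16513216) (l 16515928))) (a (c (l 16551944) (l 16518256)) (a (c (l 16549656) (l 16519752)) (c (a (l 16548680) (l 16548776)) (l 16520200)))))) (a (c (c (l 16560304) (b (l 16572888) (l 16599512))) (b (c (l 16554080) (l 16533432)) (a (l 16552632) (l 16553672)))) (c (a (b (l 16576224) (l 16600944)) (a (l 16565176) (a (l 16585104) (l 16564096)))) (a (b (l 16546432) (l 16575248)) (a (b (l 16547312) (l 16575448)) (c (l 16546768) (l 16512776))))))) (a (b (l 6) (c (b (l 16572184) (l 16595512)) (b (l 16541744)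 (l 16568600)))) (a (b (l 6) (b (l 6) (l 16535616))) (l 6)))) (l 6)), by decide +kernel⟩

def k14_pm_022_s : ∃ t, chk3 f_pm_022_s t 10 15 2 = true :=
  ⟨(a (a (c (b (a (l 16541672) (l 16540528)) (b (a (l 16567632) (l 16560256)) (a (b (l 16574032) (c (b (l 16565472) (l 16560488)) (l 16564744))) (b (l 16566144) (a (l 16557664) (l 16553312)))))) (a (b (l 16586416) (b (l 16597232) (b (l 16579952) (c (l 16566744) (l 16569008))))) (b (l 16556992) (b (l 16588008) (a (l 16553512) (l 16540616)))))) (b (b (a (l 16615608) (a (l 16609736) (a (l 16606352) (l 16603312)))) (a (l 16533768) (a (l 16569288) (a (l 16586432) (l 16541152))))) (a (b (a (l 16525648) (l 16521088)) (c (b (l 16557416) (a (l 16548744) (l 16543880))) (a (l 16535440) (l 16530064)))) (b (a (c (l 16566520) (l 16570816)) (a (l 16522304) (c (l 16558416) (l 16562992)))) (a (c (b (l 16550048) (c (l 16538528) (l 16538424))) (l 16524320)) (a (c (b (l 16545440) (l 16533576)) (l 16540432)) (c (a (a (a (l 16537032) (a (l 16536240) (l 16535608)))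 (l 16534936)) (l 16533832)) (b (l 16543536) (l 16529808))))))))) (b (c (b (l 16576328) (a (l 16566904) (l 16545272))) (a (l 16503344) (l 16484896))) (b (a (c (l 16545160) (l 16551480)) (c (l 16522728) (l 16531520))) (a (c (b (l 16527464) (a (l 16521104) (l 16509272))) (b (l 16531376) (l 16517320))) (c (b (l 16504544) (c (l 16490992) (l 16492744))) (b (l 16510680) (l 16496024))))))), by decide +kernel⟩

def k15_pm_022_s : ∃ t, chk3 f_pm_022_s t 10 15 3 = true :=
  ⟨(a (a (a (b (b (l 16563112) (l 16615968)) (b (a (l 16552840) (l 16567568)) (c (b (l 16587024) (l 16572872)) (b (l 16595224) (l 16578912))))) (b (b (l 16605088) (l 16606104)) (b (c (l 16574936) (l 16562992)) (c (b (l 16575448) (l 16560936)) (b (l 16581544) (l 16564928)))))) (a (b (b (l 16604608) (l 16615264)) (b (c (l 16584672) (l 16570848)) (b (l 16523776) (a (l 16553104) (l 16546584))))) (b (a (l 16555912) (b (l 16603368) (l 16558984))) (a (b (l 16557928) (c (l 16546992) (l 16549384))) (a (b (l 16574168) (c (l 16542024) (l 16544312)))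 (b (l 16571656) (c (l 16538936) (l 16541944)))))))) (b (a (b (l 16596072) (l 16592216)) (b (l 16584272) (l 16578320))) (b (a (l 16500360) (c (l 16541976) (l 16533144))) (a (a (l 16482688) (l 16484800)) (a (l 16455296) (l 16509504)))))), by decide +kernel⟩

def k16_pm_022_s : ∃ t, chk3 f_pm_022_s t 11 15 1 = true :=
  ⟨(a (b (a (b (c (l 16511616) (l 16573368)) (c (a (l 16514888) (l 16483928)) (l 16563792))) (l 6)) (c (b (a (c (l 16500776) (l 16511584)) (c (l 16479896) (l 16492168))) (a (c (b (l 16482264) (c (l 16468280) (l 16470720))) (b (l 16490152) (l 16475200))) (c (b (l 16461136) (a (l 16453384) (l 16442976))) (b (l 16470216) (l 16454920))))) (b (c (l 16431808) (b (l 16520024) (l 16501528))) (a (c (l 16491368) (l 16501832)) (c (l 16472664) (l 16484832)))))) (a (a (b (l 6) (b (l 6) (c (c (l 16439312) (l 16447800)) (l 16464888)))) (l 6)) (l 6))), by decide +kernel⟩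

def k17_pm_022_s : ∃ t, chk3 f_pm_022_s t 3 1 1 = true :=
  ⟨(b (l 6) (l 6)), by decide +kernel⟩

theorem s18_pm_022_s : ∃ t, chk3 f_pm_022_s t 10 15 1 = true := ex3_c k14_pm_022_s k15_pm_022_s

theorem s19_pm_022_s : ∃ t, chk3 f_pm_022_s t 5 15 1 = true := ex3_a s18_pm_022_s k16_pm_022_s

theorem s20_pm_022_s : ∃ t, chk3 f_pm_022_s t 5 7 1 = true := ex3_b k13_pm_022_s s19_pm_022_s

theorem s21_pm_022_s : ∃ t, chk3 f_pm_022_s t 5 3 1 = true := ex3_b k12_pm_022_s s20_pm_022_s

theorem s22_pm_022_s : ∃ t, chk3 f_pm_022_s t 5 1 1 = true := ex3_b k11_pm_022_s s21_pm_022_s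

theorem s23_pm_022_s : ∃ t, chk3 f_pm_022_s t 18 15 1 = true := ex3_b k8_pm_022_s k9_pm_022_s

theorem s24_pm_022_s : ∃ t, chk3 f_pm_022_s t 9 15 1 = true := ex3_a s23_pm_022_s k10_pm_022_s

theorem s25_pm_022_s : ∃ t, chk3 f_pm_022_s t 18 14 1 = true := ex3_b k5_pm_022_s k6_pm_022_s

theorem s26_pm_022_s : ∃ t, chk3 f_pm_022_s t 9 14 1 = true := ex3_a s25_pm_022_s k7_pm_022_s

theorem s27_pm_022_s : ∃ t, chk3 f_pm_022_s t 9 7 1 = true := ex3_b s26_pm_022_s s24_pm_022_s

theorem s28_pm_022_s : ∃ t, chk3 f_pm_022_s t 9 13 1 = true := ex3_a k3_pm_022_s k4_pm_022_s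

theorem s29_pm_022_s : ∃ t, chk3 f_pm_022_s t 9 6 1 = true := ex3_b k2_pm_022_s s28_pm_022_s

theorem s30_pm_022_s : ∃ t, chk3 f_pm_022_s t 9 3 1 = true := ex3_b s29_pm_022_s s27_pm_022_s

theorem s31_pm_022_s : ∃ t, chk3 f_pm_022_s t 4 3 1 = true := ex3_a k1_pm_022_s s30_pm_022_s

theorem s32_pm_022_s : ∃ t, chk3 f_pm_022_s t 4 1 1 = true := ex3_b k0_pm_022_s s31_pm_022_s

theorem s33_pm_022_s : ∃ t, chk3 f_pm_022_s t 2 1 1 = true := ex3_a s32_pm_022_s s22_pm_022_s

theorem s34_pm_022_s : ∃ t, chk3 f_pm_022_s t 1 1 1 = true := ex3_a s33_pm_022_s k17_pm_022_s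

theorem c_pm_022_s : CertNE 0 536870912 0 536870912 858993459 64424510 3 eng mog cd0q0 cd0q2 pd2 true true false .pp 0 2 2
    ndB0q0 ndB0q2 pcB2 cut_pm_022_s Ext.none :=
  certNE2 (fam := true) (s1 := true) (s2 := false) (a := 0) (b := 2) (c := 2) (cn := .pp) (n1 := ndB0q0) (n2 := ndB0q2) (pc := pcB2) (cut := cut_pm_022_s) (xt := Ext.none) (P1 := 0) (W1 := 536870912) (P2 := 0) (W2 := 536870912) (P3 := 858993459) (W3 := 64424510) (N0 := 3) (En := eng) (mo := mog) (C1 := cd0q0) (C2 := cd0q2) (C3 := pd2)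
    rfl (fun _ => rfl) s34_pm_022_s

noncomputable def cut_pm_022_t : Cut := Cut.of [[⟨3, 0, 0, 2845415833⟩], [⟨0, 0, 0, 67108864⟩, ⟨1, 1, 0, 67108864⟩, ⟨2, 1, 0, 67108864⟩]]

noncomputable def f_pm_022_t : ℕ → ℕ → ℕ → ℕ → Bool := onCell 1073741824 536870912 0 536870912 858993459 64424510
    (rowNE 3 eng mog cd0q0 cd0q2 pd2 2 true true false .pp 0 2 2 (qsf 0 536870912 0 536870912 2) ndB0q0 ndB0q2 pcB2 cut_pm_022_t Ext.none)

def k0_pm_022_t : ∃ t, chk3 f_pm_022_t t 1 1 1 = true :=
  ⟨(a (l 6) (b (l 6) (l 6))), by decide +kernel⟩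

theorem c_pm_022_t : CertNE 0 536870912 0 536870912 858993459 64424510 3 eng mog cd0q0 cd0q2 pd2 true true false .pp 0 2 2
    ndB0q0 ndB0q2 pcB2 cut_pm_022_t Ext.none :=
  certNE2 (fam := true) (s1 := true) (s2 := false) (a := 0) (b := 2) (c := 2) (cn := .pp) (n1 := ndB0q0) (n2 := ndB0q2) (pc := pcB2) (cut := cut_pm_022_t) (xt := Ext.none) (P1 := 0) (W1 := 536870912) (P2 := 0) (W2 := 536870912) (P3 := 858993459) (W3 := 64424510) (N0 := 3) (En := eng) (mo := mog) (C1 := cd0q0) (C2 := cd0q2) (C3 := pd2)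
    rfl (fun _ => rfl) k0_pm_022_t

noncomputable def cut_pm_023_s : Cut := Cut.of [[⟨4, 0, 0, 1449551462⟩]]

noncomputable def f_pm_023_s : ℕ → ℕ → ℕ → ℕ → Bool := onCell 1610612736 536870912 0 536870912 858993459 64424510
    (rowNE 3 eng mog cd0q0 cd0q2 pd3 2 true true false .up 0 2 3 (qsf 0 536870912 0 536870912 3) ndB0q0 ndB0q2 pcB3 cut_pm_023_s Ext.none)

def k0_pm_023_s : ∃ t, chk3 f_pm_023_s t 1 1 1 = true :=
  ⟨(l 6), by decide +kernel⟩

theorem c_pm_023_s : CertNE 0 536870912 0 536870912 858993459 64424510 3 eng mog cd0q0 cd0q2 pd3 true true false .up 0 2 3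
    ndB0q0 ndB0q2 pcB3 cut_pm_023_s Ext.none :=
  certNE2 (fam := true) (s1 := true) (s2 := false) (a := 0) (b := 2) (c := 3) (cn := .up) (n1 := ndB0q0) (n2 := ndB0q2) (pc := pcB3) (cut := cut_pm_023_s) (xt := Ext.none) (P1 := 0) (W1 := 536870912) (P2 := 0) (W2 := 536870912) (P3 := 858993459) (W3 := 64424510) (N0 := 3) (En := eng) (mo := mog) (C1 := cd0q0) (C2 := cd0q2) (C3 := pd3)
    rfl (fun _ => rfl) k0_pm_023_s

noncomputable def cut_pm_023_t : Cut := Cut.of [[⟨3, 0, 0, 2845415833⟩]]

noncomputable def f_pm_023_t : ℕ → ℕ → ℕ → ℕ → Bool := onCell 0 536870912 0 536870912 858993459 64424510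
    (rowNE 3 eng mog cd0q0 cd0q2 pd3 0 true true false .up 0 2 3 (qsf 0 536870912 0 536870912 3) ndB0q0 ndB0q2 pcB3 cut_pm_023_t Ext.none)

def k0_pm_023_t : ∃ t, chk3 f_pm_023_t t 1 1 1 = true :=
  ⟨(a (l 1) (b (a (b (b (b (a (l 1) (a (l 1) (a (l 6) (b (l 6) (l 6))))) (l 6)) (l 6)) (l 6)) (b (b (a (a (b (c (a (l 16518000) (l 16566624)) (a (l 16581072) (l 16603296))) (l 6)) (a (c (b (l 16593056) (l 16562080)) (l 16611496)) (c (b (l 16617864) (l 16588424)) (l 16630616)))) (c (a (a (c (l 16622040) (l 16631832)) (c (l 16644904) (l 16631256))) (a (c (l 16623544) (l 16670704)) (b (l 16697600) (l 16673032)))) (a (a (l 16648048) (l 16663864)) (a (l 16678360) (l 16670792))))) (a (l 6) (a (b (c (a (l 16584160) (l 16607824)) (l 16600800)) (l 6)) (c (a (b (l 16629144) (l 16601320)) (b (l 16647944) (l 16621040))) (a (l 16634072) (l 16647912)))))) (a (l 6) (l 6)))) (l 6))), by decide +kernel⟩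

theorem c_pm_023_t : CertNE 0 536870912 0 536870912 858993459 64424510 3 eng mog cd0q0 cd0q2 pd3 true true false .up 0 2 3
    ndB0q0 ndB0q2 pcB3 cut_pm_023_t Ext.none :=
  certNE0 (fam := true) (s1 := true) (s2 := false) (a := 0) (b := 2) (c := 3) (cn := .up) (n1 := ndB0q0) (n2 := ndB0q2) (pc := pcB3) (cut := cut_pm_023_t) (xt := Ext.none) (P1 := 0) (W1 := 536870912) (P2 := 0) (W2 := 536870912) (P3 := 858993459) (W3 := 64424510) (N0 := 3) (En := eng) (mo := mog) (C1 := cd0q0) (C2 := cd0q2) (C3 := pd3)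
    rfl k0_pm_023_t

noncomputable def cut_pm_101_s : Cut := Cut.of [[⟨4, 0, 0, 1449551462⟩], [⟨0, 1, 0, 67108864⟩, ⟨1, 0, 0, 67108864⟩, ⟨2, 1, 0, 67108864⟩]]

noncomputable def f_pm_101_s : ℕ → ℕ → ℕ → ℕ → Bool := onCell 536870912 536870912 536870912 536870912 858993459 64424510
    (rowNE 3 eng mog cd0q1 cd0q0 pd1 1 true true false .npn 1 0 1 (qsf 536870912 536870912 0 536870912 1) ndB0q1 ndB0q0 pcB1 cut_pm_101_s Ext.none)

def k0_pm_101_s : ∃ t, chk3 f_pm_101_s t 1 1 1 = true :=
  ⟨(b (l 3) (a (l 3) (b (l 3) (a (l 3) (b (l 3) (a (l 3) (b (l 3) (a (l 3) (l 14))))))))), by decide +kernel⟩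

theorem c_pm_101_s : CertNE 536870912 536870912 0 536870912 858993459 64424510 3 eng mog cd0q1 cd0q0 pd1 true true false .npn 1 0 1
    ndB0q1 ndB0q0 pcB1 cut_pm_101_s Ext.none :=
  certNE1 (fam := true) (s1 := true) (s2 := false) (a := 1) (b := 0) (c := 1) (cn := .npn) (n1 := ndB0q1) (n2 := ndB0q0) (pc := pcB1) (cut := cut_pm_101_s) (xt := Ext.none) (P1 := 536870912) (W1 := 536870912) (P2 := 0) (W2 := 536870912) (P3 := 858993459) (W3 := 64424510) (N0 := 3) (En := eng) (mo := mog) (C1 := cd0q1) (C2 := cd0q0) (C3 := pd1)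
    rfl (fun _ => rfl) k0_pm_101_s

noncomputable def cut_pm_101_t : Cut := Cut.of [[⟨3, 0, 0, 2845415833⟩], [⟨0, 1, 0, 67108864⟩, ⟨1, 0, 0, 67108864⟩, ⟨2, 1, 0, 67108864⟩]]

noncomputable def f_pm_101_t : ℕ → ℕ → ℕ → ℕ → Bool := onCell 536870912 536870912 0 536870912 858993459 64424510
    (rowNE 3 eng mog cd0q1 cd0q0 pd1 0 true true false .npn 1 0 1 (qsf 536870912 536870912 0 536870912 1) ndB0q1 ndB0q0 pcB1 cut_pm_101_t Ext.none)

def k0_pm_101_t : ∃ t, chk3 f_pm_101_t t 1 1 1 = true :=
  ⟨(l 6), by decide +kernel⟩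

theorem c_pm_101_t : CertNE 536870912 536870912 0 536870912 858993459 64424510 3 eng mog cd0q1 cd0q0 pd1 true true false .npn 1 0 1
    ndB0q1 ndB0q0 pcB1 cut_pm_101_t Ext.none :=
  certNE0 (fam := true) (s1 := true) (s2 := false) (a := 1) (b := 0) (c := 1) (cn := .npn) (n1 := ndB0q1) (n2 := ndB0q0) (pc := pcB1) (cut := cut_pm_101_t) (xt := Ext.none) (P1 := 536870912) (W1 := 536870912) (P2 := 0) (W2 := 536870912) (P3 := 858993459) (W3 := 64424510) (N0 := 3) (En := eng) (mo := mog) (C1 := cd0q1) (C2 := cd0q0) (C3 := pd1)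
    rfl k0_pm_101_t

end Pool.Agent.Strip051.G.I8000_8600.Tab.CS.BA00

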