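import Pool.Agent.Strip051.G.I8000_8600.Tab
import Pool.Agent.Strip051.PB.StripB

/-! # Strips, near vertex: certificates 6 (generated) -/

set_option linter.all false
set_option maxRecDepth 100000

namespace Pool.Agent.Strip051.G.I8000_8600.Tab.CS.BA00

open Pool.Agent.Strip051.PB Pool.Agent.Strip051.PB.T
open Pool.Agent.Strip051.G.I8000_8600.Tab

noncomputable def cut_mm_202_t : Cut := Cut.of [[⟨3, 0, 0, 2845415833⟩], [⟨0, 1, 0, 67108864⟩, ⟨1, 0, 0, 67108864⟩, ⟨2, 1, 0, 67108864⟩]]

noncomputable def f_mm_202_t : ℕ → ℕ → ℕ → ℕ → Bool := onCell 0 536870912 0 536870912 858993459 64424510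
    (rowNE 3 eng mog cd0q2 cd0q0 pd2 0 true false false .pp 2 0 2 (qsf 0 536870912 0 536870912 2) ndB0q2 ndB0q0 pcB2 cut_mm_202_t Ext.none)

def k0_mm_202_t : ∃ t, chk3 f_mm_202_t t 2 4 1 = true :=
  ⟨(b (l 6) (a (l 6) (a (l 6) (a (l 6) (b (a (l 6) (b (l 6) (c (l 16524168) (c (l 16540808) (l 16521120))))) (c (b (c (l 16582960) (l 16599080)) (c (l 16587056) (l 16601944))) (c (b (l 16582576) (l 16604536)) (b (a (l 16536248) (l 16547808)) (c (l 16590896) (l 16539080)))))))))), by decide +kernel⟩

def k1_mm_202_t : ∃ t, chk3 f_mm_202_t t 4 5 1 = true :=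
  ⟨(a (l 6) (a (l 6) (a (l 6) (b (l 6) (b (l 6) (b (l 6) (c (l 16525344) (l 16574248)))))))), by decide +kernel⟩

def k2_mm_202_t : ∃ t, chk3 f_mm_202_t t 10 5 1 = true :=
  ⟨(a (b (l 6) (b (c (c (b (l 16511144) (l 16521160)) (b (l 16533456) (l 16541904))) (b (l 16574032) (l 16579832))) (b (c (c (l 16532784) (l 16551912)) (l 16587064)) (c (c (l 16545824) (l 16563344)) (l 16595728))))) (b (b (l 6) (b (c (c (l 16533496) (l 16553504)) (l 16568792)) (c (c (l 16541024) (l 16559912)) (l 16594344)))) (b (c (b (c (l 16550480) (l 16568056)) (c (l 16561744) (l 16577840))) (c (l 16613560) (l 16615576))) (c (b (c (l 16574520) (l 16589088)) (a (l 16579288) (l 16647200))) (c (b (l 16606440) (l 16617336)) (l 16630872)))))), by decide +kernel⟩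

def k3_mm_202_t : ∃ t, chk3 f_mm_202_t t 11 5 1 = true :=
  ⟨(a (b (b (b (a (l 6) (c (l 16511808) (l 16559184))) (c (c (l 16564136) (l 16580656)) (c (l 16599880) (l 16604744)))) (c (c (b (l 16571520) (l 16580392)) (b (l 16545104) (l 16573904))) (b (c (l 16605248) (l 16622968)) (c (l 16611952) (l 16631688))))) (b (c (c (b (l 16591088) (l 16603504)) (b (l 16583376) (l 16573448))) (b (c (l 16620096) (l 16638376)) (c (l 16587640) (l 16646144)))) (c (b (c (l 16659280) (l 16564888)) (c (l 16674320) (a (l 16631392) (l 16651496)))) (b (c (l 16598456) (l 16655152)) (c (l 16610528) (l 16665440)))))) (b (b (c (c (b (l 16593328) (a (l 16591744) (l 16610184))) (b (l 16607088) (l 16613712))) (c (b (l 16622984) (l 16628512)) (b (c (l 16610888) (l 16559520)) (l 16593624)))) (c (b (c (a (l 16600256) (l 16619424)) (l 16621592)) (c (a (l 16610104) (l 16629952)) (l 16630800))) (b (c (l 16635360) (l 16621960)) (c (l 16643488) (l 16658208))))) (b (c (c (b (a (l 16621680) (l 16642072)) (a (l 16634912) (l 16655824))) (b (a (l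 16632152) (l 16650856)) (a (l 16644088) (l 16663368)))) (b (c (l 16653016) (l 16666424)) (c (l 16663792) (l 16675592)))) (c (b (c (a (l 16649496) (l 16670888)) (a (l 16657336) (l 16677160))) (c (b (l 16714024) (l 16722240)) (b (l 16636248) (l 16622880)))) (b (c (l 16675816) (l 16685920)) (c (l 16689032) (l 16697464))))))), by decide +kernel⟩

def k4_mm_202_t : ∃ t, chk3 f_mm_202_t t 12 8 1 = true :=
  ⟨(a (a (l 6) (b (l 6) (b (l 6) (c (c (l 16536080) (l 16499576)) (b (c (l 16515968) (l 16496376)) (c (l 16532232) (l 16513664))))))) (a (b (l 6) (c (b (c (b (l 16531312) (l 16545976)) (b (l 16514440) (l 16530224))) (c (l 16525512) (b (l 16545600) (l 16560608)))) (b (b (c (l 16495912) (l 16454744)) (c (l 16512840) (l 16472872))) (b (c (l 16529296) (l 16490440)) (c (l 16545280) (l 16507432)))))) (b (b (a (l 6) (b (l 6) (b (l 6) (b (l 6) (c (l 16499000) (l 16459016)))))) (c (b (c (l 16514064) (l 16475144)) (c (l 16529088) (l 16512328))) (b (a (l 6) (c (l 16480672) (c (l 16465248) (l 16454472)))) (c (l 16473048)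 (c (l 16479272) (l 16468952)))))) (c (b (c (b (l 16543784) (l 16558152)) (b (l 16528176) (l 16543632))) (c (b (l 16572208) (l 16585952)) (b (l 16558704) (l 16573384)))) (b (b (c (l 16490088) (c (l 16497240) (l 16487560))) (c (l 16506688) (c (l 16514728) (l 16505648)))) (b (c (l 16543792) (l 16516984)) (c (l 16559440) (l 16523152)))))))), by decide +kernel⟩

def k5_mm_202_t : ∃ t, chk3 f_mm_202_t t 26 16 1 = true :=
  ⟨(a (b (c (b (c (b (l 16494192) (l 16501992)) (c (l 16483920) (l 16484456))) (c (c (l 16517768) (l 16509184)) (c (l 16500224) (l 16490888)))) (b (a (b (l 6) (c (l 16458208) (l 16435912))) (c (b (l 16458432) (l 16467392)) (b (l 16436248) (l 16445848)))) (c (b (c (l 16476800) (l 16466552)) (l 16501536)) (c (b (l 16455912) (l 16465240)) (b (l 16444896) (l 16454552)))))) (c (b (c (l 16507624) (l 16490888)) (c (l 16522344) (l 16506776))) (b (c (c (l 16498344) (l 16488888)) (c (b (l 16474464) (l 16483600)) (b (l 16464112) (l 16473576)))) (a (b (l 16471832) (l 16480640)) (b (l 16480928) (l 16489656))))))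 (b (c (b (b (c (l 16531840) (a (l 16488024) (l 16497336))) (c (l 16518536) (a (l 16496304) (l 16505536)))) (c (a (l 16525592) (l 16534128)) (a (l 16508552) (b (l 16513648) (l 16521664))))) (b (a (c (b (l 16468056) (l 16476928)) (b (l 16446608) (l 16456112))) (c (b (l 16478048) (l 16486832)) (b (l 16457336) (l 16466728)))) (c (a (b (l 16485728) (l 16494432)) (b (l 16495536) (l 16504152))) (a (b (l 16465536) (l 16474880)) (b (l 16476048) (l 16485296)))))) (c (b (c (a (l 16540432) (l 16548824)) (a (l 16524568) (l 16533528))) (c (a (l 16554936) (l 16563176)) (a (l 16540216) (l 16549016)))) (b (c (a (l 16517816) (b (l 16512680) (l 16521120))) (a (b (l 16484136) (l 16493288)) (b (l 16494456) (l 16503520)))) (c (b (l 16503752) (l 16512032)) (c (l 16495280) (l 16487768))))))), by decide +kernel⟩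

def k6_mm_202_t : ∃ t, chk3 f_mm_202_t t 27 32 1 = true :=
  ⟨(c (a (b (c (a (b (l 16524192) (l 16531776)) (b (l 16533424) (l 16540952))) (a (b (l 16506992) (l 16515120)) (b (l 16516984) (l 16525032)))) (c (a (b (l 16539248) (l 16546624)) (l 16531080)) (a (b (l 16523152) (l 16531088)) (b (l 16532992) (l 16540864))))) (b (c (a (b (l 16542936) (l 16550408)) (b (l 16552752) (l 16560168))) (a (b (l 16527328) (l 16535304)) (b (c (l 16541824) (l 16534184)) (l 16545944)))) (c (a (b (l 16557776) (l 16565048)) (b (l 16567488) (l 16574704))) (a (b (l 16543192) (l 16550984)) (b (l 16553760) (l 16561488)))))) (a (b (c (a (b (l 16488440) (l 16497136)) (b (l 16499264) (l 16507864))) (a (b (l 16468536) (l 16477816)) (b (c (l 16485136) (l 16475312)) (l 16489432)))) (c (a (b (l 16505744) (l 16514272)) (b (l 16516384) (l 16524816))) (a (b (l 16487032) (l 16496176)) (b (l 16498536) (l 16507568))))) (b (c (a (b (c (l 16514832) (l 16506128)) (l 16519024)) (b (c (l 16526272) (l 16518088)) (c (l 16534560) (l 16526632)))) (c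 (a (b (l 16497128) (l 16506040)) (b (l 16509616) (l 16518424))) (a (b (l 16487824) (l 16497016)) (b (l 16500872) (l 16509952))))) (c (a (b (l 16527456) (l 16535800)) (b (c (l 16542768) (l 16535096)) (l 16547216))) (a (b (c (l 16514888) (l 16506152)) (l 16529960)) (b (c (l 16527168) (l 16518960)) (c (l 16535824) (l 16527904)))))))), by decide +kernel⟩

def k7_mm_202_t : ∃ t, chk3 f_mm_202_t t 27 33 1 = true :=
  ⟨(c (a (b (c (a (l 16557528) (l 16545520)) (c (l 16530400) (l 16522920))) (c (a (l 16571728) (l 16580568)) (c (l 16545368) (l 16538456)))) (c (b (a (c (l 16578904) (l 16572552)) (b (l 16581824) (l 16588832))) (a (l 16568736) (l 16588696))) (b (a (b (l 16558688) (l 16566288)) (b (l 16569112) (l 16576648))) (a (l 16561792) (c (l 16590712) (l 16584760)))))) (a (a (b (b (c (l 16522712) (l 16505232)) (c (l 16531064) (l 16514200))) (c (l 16522440) (l 16506496))) (b (c (l 16517000) (b (l 16516520) (l 16525384))) (c (l 16532672) (b (l 16534152) (l 16542808))))) (b (c (a (b (l 16544056) (l 16552216)) (b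 (l 16555376) (l 16563456))) (a (b (l 16528312) (l 16537064)) (b (c (l 16544408) (l 16536768)) (c (l 16552904) (l 16545552))))) (c (a (b (l 16560288) (l 16568264)) (a (l 16551584) (l 16557256))) (a (a (l 16526112) (l 16532000)) (c (l 16544512) (l 16537600))))))), by decide +kernel⟩

def k8_mm_202_t : ∃ t, chk3 f_mm_202_t t 13 17 2 = true :=
  ⟨(a (b (a (c (b (l 16557712) (l 16571776)) (b (l 16522304) (l 16537440))) (c (b (l 16552184) (l 16586920)) (b (c (l 16563264) (l 16556288)) (c (l 16577816) (l 16571376))))) (b (a (c (l 16585528) (l 16552200)) (c (l 16600368) (c (l 16591992) (l 16586064)))) (a (c (l 16598976) (l 16587536)) (c (l 16613504) (c (l 16605808) (l 16600336)))))) (c (c (b (a (b (l 16592832) (l 16606048)) (b (l 16600024) (l 16618224))) (a (b (l 16618968) (l 16631592)) (b (l 16636104) (l 16648448)))) (b (a (b (l 16587024) (l 16600744)) (b (l 16597496) (l 16608312))) (a (b (l 16614120) (l 16627176)) (b (l 16631880) (l 16644632))))) (b (a (b (a (l 16573120) (l 16561488)) (b (l 16567712) (l 16574864)))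 (b (a (l 16581672) (c (l 16604928) (l 16599504))) (a (l 16585440) (c (l 16618776) (l 16613856))))) (a (b (b (l 16581920) (l 16588872)) (b (l 16595728) (l 16602488))) (b (a (l 16599304) (l 16624800)) (a (l 16612776) (l 16643352))))))), by decide +kernel⟩

def k9_mm_202_t : ∃ t, chk3 f_mm_202_t t 13 17 3 = true :=
  ⟨(a (b (c (a (b (l 16506504) (l 16522768)) (b (a (l 16540624) (l 16549864)) (a (l 16556632) (l 16565704)))) (a (b (c (l 16514744) (l 16484856)) (c (l 16531880) (l 16523568))) (b (a (l 16503528) (l 16513432)) (c (l 16529328) (l 16521712))))) (c (a (b (l 16538576) (l 16553896)) (b (a (l 16572184) (l 16581080)) (a (l 16587256) (l 16595984)))) (a (b (c (l 16548504) (l 16540752)) (c (l 16564568) (l 16557320))) (b (b (l 16538008) (l 16546144)) (b (l 16554128) (l 16561968)))))) (a (b (b (c (c (l 16546976) (l 16540064)) (a (l 16523784) (l 16539864))) (c (b (l 16555264) (l 16562936)) (a (l 16540584) (l 16561712)))) (b (a (c (l 16590368) (l 16556856)) (c (l 16600064) (l 16567312))) (a (c (l 16605096) (l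 16572560)) (c (l 16614616) (l 16582824))))) (b (c (b (a (l 16559064) (b (l 16587088) (l 16594760))) (a (l 16574360) (l 16595584))) (b (a (a (l 16543056) (l 16548840)) (c (l 16581880) (l 16554576))) (a (b (l 16579264) (l 16587336)) (a (l 16571000) (l 16576936))))) (c (b (a (l 16589208) (l 16610248)) (a (l 16603584) (l 16613952))) (a (b (l 16591344) (l 16609288)) (b (a (l 16586736) (l 16592568)) (a (l 16601904) (l 16607632)))))))), by decide +kernel⟩

def k10_mm_202_t : ∃ t, chk3 f_mm_202_t t 12 9 2 = true :=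
  ⟨(b (b (c (a (l 16580432) (b (l 16551768) (l 16606816))) (a (c (l 16527808) (l 16520104)) (a (b (l 16575144) (l 16589136)) (b (l 16587672) (l 16601456))))) (c (a (l 16605992) (a (l 16619960) (l 16630920))) (a (a (l 16588016) (l 16597880)) (a (l 16608856) (a (l 16617800) (l 16582224)))))) (b (c (a (l 16615112) (a (l 16639184) (l 16653152))) (a (a (l 16612048) (l 16621728)) (a (l 16632512) (l 16644448)))) (a (c (l 16620696) (l 16632376)) (c (a (l 16645784) (l 16662568)) (a (l 16652944) (l 16664744)))))), by decide +kernel⟩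

def k11_mm_202_t : ∃ t, chk3 f_mm_202_t t 13 9 2 = true :=
  ⟨(a (b (b (b (c (a (l 16612120) (l 16626344)) (a (l 16601496) (a (l 16612752) (l 16620736)))) (c (a (l 16624920) (l 16617856)) (a (l 16615040) (l 16609000)))) (c (a (l 16643104) (b (l 16629936) (l 16662456))) (b (a (l 16628024) (l 16621776)) (a (l 16619432) (l 16633984))))) (b (c (a (l 16665192) (b (l 16673344) (l 16683536))) (a (b (l 16652024) (l 16662888)) (b (l 16645488) (l 16677224)))) (c (a (l 16679344) (b (l 16692976) (l 16698688))) (a (b (l 16672944) (l 16682272)) (b (l 16687192) (l 16696456)))))) (b (b (c (a (b (a (l 16637880) (l 16645984)) (a (l 16650136) (l 16658088))) (a (b (l 16654416) (l 16666368)) (b (l 16663192) (l 16675000)))) (a (b (a (l 16629072) (l 16637760)) (a (l 16642056) (l 16650576))) (b (a (l 16646816) (l 16656256)) (a (l 16659464) (l 16668744))))) (c (a (b (a (l 16662000) (l 16669784)) (l 16677224)) (a (b (l 16677912) (l 16668064)) (b (l 16665416) (l 16676376)))) (a (b (a (l 16654608) (l 16662944)) (a (l 16666632) (l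 16674856))) (a (b (l 16671672) (l 16683432)) (b (l 16659808) (l 16671384)))))) (b (c (a (b (l 16688000) (l 16698080)) (a (b (l 16699656) (l 16709672)) (b (l 16707864) (l 16717808)))) (a (b (b (l 16658376) (l 16663888)) (l 16692792)) (b (a (l 16673680) (l 16682488)) (a (l 16684264) (l 16693000))))) (a (b (c (l 16707424) (l 16702680)) (c (l 16715848) (l 16711872))) (a (c (b (l 16718944) (l 16727568)) (b (l 16715048) (l 16724184))) (c (b (l 16727040) (c (l 16736256) (l 16734968))) (b (l 16723736) (l 16732832)))))))), by decide +kernel⟩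

def k12_mm_202_t : ∃ t, chk3 f_mm_202_t t 12 9 3 = true :=
  ⟨(a (b (b (a (b (l 6) (l 16479104)) (c (l 16513520) (b (l 16530200) (l 16545912)))) (c (c (l 16540024) (l 16521624)) (a (l 16512672) (b (l 16560800) (l 16574840))))) (b (c (c (l 16606840) (l 16557600)) (a (l 16539168) (b (l 16588008) (l 16600264)))) (a (c (l 16619296) (l 16561928)) (b (l 16576744) (l 16586968))))) (a (b (b (b (c (l 16560680) (l 16523728)) (c (l 16575464) (l 16560272))) (c (l 16554304) (b (l 16575040) (l 16588984)))) (b (c (l 16621144) (b (l 16602064) (l 16614256))) (c (l 16642632) (c (l 16612976) (l 16606736))))) (b (b (c (b (l 16574592) (l 16589152)) (b (l 16560160) (l 16575528))) (b (c (l 16603072) (l 16590192)) (a (l 16564640) (l 16572008)))) (b (a (b (l 16577344) (l 16589192)) (b (l 16584664) (l 16596480))) (c (l 16634872) (b (l 16619416) (l 16629832))))))), by decide +kernel⟩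

def k13_mm_202_t : ∃ t, chk3 f_mm_202_t t 13 9 6 = true :=
  ⟨(b (a (b (a (b (l 16589680) (l 16604008)) (b (a (l 16601824) (l 16610384)) (l 16599120))) (a (b (l 16617720) (l 16630776)) (b (l 16612624) (l 16625520)))) (b (a (b (c (l 16626440) (l 16621496)) (a (l 16633056) (l 16642232))) (b (a (l 16638432) (l 16648616)) (a (l 16651816) (l 16661816)))) (a (b (a (l 16646336) (l 16655312)) (a (l 16659040) (l 16667896))) (a (b (l 16664712) (l 16677144)) (b (l 16653560) (l 16665792)))))) (a (b (b (a (l 16643032) (l 16637664)) (a (l 16633512) (l 16649032))) (a (b (l 16644120) (l 16674936)) (b (l 16659576) (l 16690344)))) (b (a (b (a (l 16671112) (l 16679888)) (b (l 16663048) (l 16668488))) (b (a (l 16668032) (l 16677536)) (a (l 16679232) (l 16688664)))) (a (b (a (l 16671920) (l 16680608)) (c (l 16687296) (l 16684696))) (a (b (l 16689632) (l 16699320)) (b (l 16699008) (a (l 16706272) (l 16711032)))))))), by decide +kernel⟩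

def k14_mm_202_t : ∃ t, chk3 f_mm_202_t t 13 9 7 = true :=
  ⟨(b (a (b (a (b (c (l 16580048) (l 16573248)) (c (l 16594968) (l 16588584))) (b (b (l 16569648) (l 16577176)) (c (l 16612024) (l 16606328)))) (a (b (a (l 16602144) (l 16610432)) (l 16599072)) (b (a (l 16619024) (l 16627904)) (a (l 16632672) (l 16641472))))) (a (a (b (b (l 16587656) (l 16623160)) (b (l 16637184) (l 16650616))) (b (b (l 16597736) (l 16633056)) (b (l 16646880) (l 16660184)))) (b (b (a (l 16629248) (a (l 16616472) (l 16622104))) (a (l 16643408) (a (l 16630480) (l 16636008)))) (a (b (c (l 16659024) (l 16655016)) (b (l 16666920) (l 16673360))) (b (c (l 16669440) (l 16665848)) (b (l 16677392) (l 16683728))))))) (a (a (b (b (l 16611984) (l 16624056)) (b (l 16635240) (l 16645632))) (b (b (a (l 16645520) (l 16654272)) (a (l 16657544) (l 16666256))) (a (c (l 16655000) (l 16651008)) (b (l 16677384) (l 16687752))))) (b (b (a (b (l 16644032) (l 16650192)) (a (b (l 16679648) (l 16685768)) (b (l 16689944) (l 16696008)))) (b (a (l 16656152)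 (a (l 16691688) (l 16701904))) (a (l 16661912) (a (l 16697408) (l 16707600))))) (a (a (b (l 16686416) (l 16675792)) (b (l 16674848) (l 16685176))) (b (a (b (l 16702928) (l 16708240)) (a (l 16692192) (l 16697376))) (a (a (l 16713416) (l 16697408)) (c (l 16705992) (l 16704088)))))))), by decide +kernel⟩

def k15_mm_202_t : ∃ t, chk3 f_mm_202_t t 56 16 1 = true :=
  ⟨(b (c (b (c (a (b (c (l 16566264) (l 16559648)) (c (l 16573528) (l 16567136))) (b (c (l 16576776) (l 16570640)) (c (l 16583992) (l 16578072)))) (a (b (c (l 16552768) (l 16545640)) (c (l 16560488) (l 16553600))) (b (c (l 16564264) (l 16557664)) (c (l 16571920) (l 16565544))))) (c (a (b (c (l 16580680) (l 16574520)) (l 16584800)) (c (b (l 16591104) (l 16598112)) (b (l 16585400) (l 16592640)))) (a (b (c (l 16568120) (l 16561464)) (l 16572472)) (c (b (l 16579480) (l 16586944)) (b (l 16573336) (l 16581032)))))) (b (c (b (a (c (l 16538248) (l 16530608)) (c (l 16550824) (l 16543752))) (a (c (l 16546456) (l 16539056)) (c (l 16558936) (l 16552104))))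 (a (b (c (l 16522712) (l 16514552)) (c (l 16531408) (l 16523512))) (b (c (l 16536448) (l 16528912)) (c (l 16545040) (l 16537744))))) (c (a (b (c (l 16554568) (l 16547424)) (c (l 16562600) (l 16555712))) (c (b (l 16566960) (l 16574904)) (b (l 16560368) (l 16568552)))) (a (b (c (l 16540032) (l 16532400)) (c (l 16548584) (l 16541216))) (c (b (l 16553552) (l 16561984)) (b (l 16546512) (l 16555200))))))) (c (b (c (a (b (l 16591864) (l 16598832)) (c (l 16608440) (l 16586264))) (a (b (l 16580032) (l 16587488)) (b (l 16570528) (l 16577912)))) (c (a (b (l 16605696) (l 16612456)) (b (l 16616152) (l 16622856))) (a (c (l 16601232) (l 16595712)) (c (l 16596568) (l 16586256))))) (b (c (a (c (l 16553504) (l 16547016)) (b (l 16560064) (l 16566632))) (b (a (c (l 16557048) (l 16549952)) (c (l 16570336) (l 16563808))) (a (l 16541080) (c (l 16578600) (l 16572336))))) (a (c (c (l 16589976) (l 16563048)) (b (l 16549512) (l 16557848))) (c (b (l 16574416) (l 16582104)) (b (l 16568072) (l 16576288))))))), by decide +kernel⟩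

def k16_mm_202_t : ∃ t, chk3 f_mm_202_t t 114 16 1 = true :=
  ⟨(b (c (b (c (b (c (l 16587776) (l 16582136)) (c (l 16594952) (l 16589520))) (b (c (l 16576288) (l 16570232)) (c (l 16583880) (l 16578040)))) (c (b (c (l 16602016) (l 16596800)) (c (l 16608984) (l 16603976))) (b (c (l 16591376) (l 16585752)) (c (l 16598776) (l 16593376))))) (b (c (b (c (l 16563968) (a (l 16553984) (l 16561000))) (c (l 16571992) (l 16565736))) (c (b (a (l 16547144) (l 16554464)) (l 16559280)) (b (a (l 16540088) (l 16547736)) (l 16552616)))) (c (b (c (l 16579928) (l 16573904)) (c (l 16587776) (l 16581984))) (b (c (l 16567680) (l 16561256)) (c (l 16576000) (l 16569816)))))) (c (b (c (b (c (l 16615848) (l 16611056)) (l 16630824)) (b (c (l 16606072) (l 16600896)) (c (l 16613272) (l 16608328)))) (c (b (l 16627104) (l 16633768)) (c (b (l 16620368) (l 16627368)) (l 16603560)))) (b (c (b (c (l 16595536) (l 16589976)) (c (l 16603192) (l 16597880))) (b (b (l 16558232) (l 16562384)) (c (l 16592376) (l 16586688)))) (c (b (l 16593824) (l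 16600104)) (b (c (l 16600432) (l 16595000)) (c (l 16608392) (l 16603216))))))), by decide +kernel⟩

def k17_mm_202_t : ∃ t, chk3 f_mm_202_t t 115 16 1 = true :=
  ⟨(b (b (b (a (a (c (c (l 16592248) (l 16581224)) (c (l 16569416) (l 16556832))) (l 14)) (l 14)) (c (c (c (l 16606400) (l 16601472)) (c (l 16596360) (l 16591072))) (c (c (l 16590840) (a (l 16576320) (l 16583560))) (c (a (l 16570328) (l 16577880)) (a (l 16564144) (l 16572024)))))) (c (c (b (c (l 16613424) (l 16608696)) (c (l 16620344) (l 16615824))) (b (c (l 16603792) (l 16598704)) (c (l 16611120) (l 16606248)))) (c (b (c (l 16593440) (l 16588000)) (c (l 16601200) (l 16595984))) (b (c (l 16587632) (a (l 16572688) (l 16580496))) (c (l 16590592) (l 16590264)))))) (c (b (c (b (c (l 16627168) (l 16622848)) (c (l 16633888) (l 16629768))) (c (b (l 16618352) (l 16625488)) (b (l 16613696) (l 16621040)))) (c (b (c (l 16640496) (l 16636584)) (l 16655656)) (c (b (l 16632520) (l 16639448)) (b (l 16628288) (l 16635440))))) (b (c (b (c (l 16608864) (l 16603872))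 (c (l 16616432) (l 16611664))) (b (c (l 16598704) (l 16593368)) (a (l 16600472) (l 16613176)))) (c (b (c (l 16623904) (l 16619368)) (c (l 16631280) (l 16626968))) (b (c (l 16614664) (l 16609808)) (c (l 16622504) (l 16617888))))))), by decide +kernel⟩

def k18_mm_202_t : ∃ t, chk3 f_mm_202_t t 29 32 1 = true :=
  ⟨(b (b (l 14) (b (l 14) (a (a (a (c (c (l 16614816) (l 16605504)) (c (l 16595528) (l 16584904))) (l 14)) (l 14)) (l 14)))) (a (a (c (c (b (c (l 16625312) (a (l 16617936) (l 16624240))) (c (l 16632200) (l 16628160))) (b (c (l 16616712) (a (l 16608752) (l 16615592))) (c (l 16623976) (l 16619640)))) (c (c (b (a (l 16603912) (l 16611048)) (l 16620392)) (b (a (l 16598920) (l 16606352)) (a (l 16606824) (l 16614200)))) (b (c (a (l 16593768) (l 16601504)) (a (l 16588448) (l 16596512))) (c (a (l 16601880) (l 16609560)) (a (l 16596784) (l 16604776)))))) (b (a (a (c (c (l 16630984) (l 16622880)) (c (l 16614216) (l 16604984))) (l 14)) (l 14)) (c (c (c (l 16644400) (a (l 16637648) (l 16644056))) (c (a (l 16633848)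 (l 16640512)) (a (l 16629912) (l 16636848)))) (c (c (a (l 16625848) (l 16633056)) (a (l 16621640) (l 16629144))) (c (a (l 16617312) (l 16625104)) (a (l 16612840) (l 16620952))))))) (b (l 14) (b (l 14) (a (a (c (c (l 16653848) (l 16647352)) (c (l 16640416) (l 16633032))) (l 14)) (l 14)))))), by decide +kernel⟩

def k19_mm_202_t : ∃ t, chk3 f_mm_202_t t 58 33 1 = true :=
  ⟨(c (b (c (c (a (b (l 16638976) (l 16645648)) (b (l 16651144) (l 16657784))) (a (b (l 16635136) (l 16642000)) (b (l 16647784) (l 16654600)))) (a (c (b (l 16631144) (l 16638208)) (b (l 16627008) (l 16634280))) (b (c (a (l 16640968) (l 16647608)) (l 16645928)) (c (a (l 16647984) (l 16654592)) (l 16647872))))) (c (c (a (b (l 16652224) (l 16658688)) (b (l 16664312) (l 16670744))) (a (b (l 16648768) (l 16655424)) (a (l 16650984) (l 16660256)))) (c (a (b (l 16645176) (l 16652032)) (b (l 16647712) (l 16664992))) (a (b (l 16641448) (l 16648512)) (b (l 16654968) (l 16661952)))))) (b (a (c (b (c (l 16622728) (l 16623544)) (c (l 16630200) (l 16625984)))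 (b (c (a (l 16609912) (l 16617536)) (a (l 16605032) (l 16612968))) (c (l 16628840) (a (l 16613200) (l 16621064))))) (c (b (c (a (l 16633352) (l 16640520)) (a (l 16629352) (l 16636800))) (c (a (l 16640760) (l 16647888)) (l 16630184))) (b (a (c (l 16625224) (l 16620960)) (c (l 16632968) (l 16629008))) (c (a (l 16633040) (l 16640728)) (a (l 16628992) (l 16636976)))))) (c (a (b (c (l 16637584) (l 16633576)) (b (l 16630656) (l 16634320))) (b (c (l 16641136) (l 16637672)) (a (l 16643112) (l 16650280)))) (a (b (c (l 16634688) (a (l 16621264) (l 16629064))) (c (l 16637152) (l 16622624))) (b (c (l 16635408) (a (l 16636928) (l 16644848))) (c (l 16644312) (l 16642144))))))), by decide +kernel⟩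

def k20_mm_202_t : ∃ t, chk3 f_mm_202_t t 59 33 1 = true :=
  ⟨(b (b (a (a (c (c (c (l 16660432) (l 16657424)) (c (l 16654312) (l 16651088))) (c (c (l 16647752) (l 16644312)) (c (l 16640768) (l 16637112)))) (b (l 14) (c (c (l 16667032) (l 16661376)) (c (l 16655336) (l 16648904))))) (l 14)) (a (c (c (a (l 16676128) (c (l 16673328) (l 16670720))) (c (a (l 16661272) (l 16668024)) (l 16653544))) (c (c (a (l 16655080) (l 16662336)) (a (l 16651824) (l 16659360))) (a (c (l 16648472) (l 16645016)) (c (l 16656280) (l 16653112))))) (a (c (c (c (l 16679696) (l 16677320)) (c (l 16674856) (l 16672304))) (c (c (l 16669672) (l 16666960)) (c (l 16664160) (l 16661272)))) (b (l 14) (c (c (l 16686736) (l 16687592)) (c (l 16677672) (l 16662216))))))) (c (a (c (b (c (l 16684800) (l 16684624)) (c (a (l 16679952) (l 16686200)) (l 16691184))) (c (b (a (l 16668128) (l 16674848)) (l 16686096)) (b (l 16662200) (l 16670424)))) (c (b (a (c (l 16686168) (l 16683952)) (c (l 16692624) (l 16690616))) (a (c (l 16692544) (l 16690480))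 (c (l 16698976) (l 16697128)))) (b (c (a (l 16681648) (l 16688544)) (a (l 16679272) (l 16686400))) (c (a (l 16688344) (l 16695208)) (a (l 16686136) (l 16693232)))))) (a (b (c (c (l 16659368) (a (l 16659240) (l 16666720))) (a (c (l 16656080) (l 16652824)) (c (l 16663832) (l 16660856)))) (c (c (l 16667776) (l 16665688)) (c (a (l 16663584) (l 16671280)) (c (l 16660016) (l 16658536))))) (a (b (c (c (l 16676816) (l 16674272)) (a (l 16657832) (l 16663136))) (c (c (l 16683848) (l 16681488)) (a (l 16665328) (l 16671920)))) (b (c (a (l 16670680) (l 16674448)) (b (l 16665984) (l 16669720))) (c (a (l 16677768) (l 16681520)) (b (l 16673432) (l 16679744)))))))), by decide +kernel⟩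

def k21_mm_202_t : ∃ t, chk3 f_mm_202_t t 28 17 2 = true :=
  ⟨(b (a (c (a (b (l 16614568) (l 16630176)) (b (b (l 16629464) (l 16635984)) (b (l 16642408) (l 16648752)))) (b (a (c (l 16615304) (l 16610296)) (b (l 16604712) (l 16648400))) (a (c (l 16629000) (l 16624472)) (c (l 16639760) (l 16635648))))) (b (a (c (c (l 16666424) (l 16641648)) (c (b (l 16634256) (l 16641048)) (l 16623056))) (c (b (l 16672648) (l 16679056)) (c (b (l 16646272) (l 16652992)) (b (l 16642480) (l 16649424))))) (c (a (c (l 16678936) (l 16654584)) (b (l 16685352) (l 16691560))) (c (a (l 16651056) (b (l 16659608) (l 16666120))) (a (b (l 16643952) (l 16650760)) (b (l 16656256) (l 16662984))))))) (a (b (a (c (l 16648072) (c (l 16642312) (l 16638240))) (c (b (l 16655008) (l 16661184)) (c (l 16652912) (l 16649248)))) (a (c (l 16660408) (c (l 16655240) (l 16651592))) (c (b (l 16667272) (l 16673288)) (c (l 16665680) (l 16662424))))) (b (c (a (b (l 16665600) (l 16671704)) (b (l 16697680) (l 16703712))) (a (b (l 16669656) (l 16676160)) (c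 (l 16675720) (l 16673232)))) (b (a (c (l 16677720) (l 16693040)) (c (l 16688688) (l 16683816))) (a (c (l 16683664) (l 16699344)) (c (l 16707664) (l 16691008))))))), by decide +kernel⟩

def k22_mm_202_t : ∃ t, chk3 f_mm_202_t t 28 17 3 = true :=
  ⟨(b (a (c (a (b (a (l 16578488) (l 16584360)) (a (l 16593464) (l 16599248))) (b (c (l 16595904) (l 16601440)) (c (l 16631376) (l 16605952)))) (b (a (b (l 16566088) (l 16574200)) (b (l 16584408) (l 16592408))) (a (c (l 16609752) (l 16583488)) (b (l 16605536) (l 16613296))))) (b (a (c (b (l 16607592) (l 16620216)) (b (c (l 16616256) (l 16611336)) (c (l 16624008) (l 16619344)))) (c (b (c (l 16638544) (l 16634464)) (l 16635936)) (b (b (l 16610384) (l 16619528)) (b (l 16623408) (l 16627256))))) (c (a (b (l 16627488) (l 16624160)) (b (l 16645736) (l 16652792))) (a (b (l 16621608) (l 16629248)) (b (b (l 16631080) (l 16634872)) (b (l 16638640) (l 16642368))))))) (b (a (a (c (c (l 16633992) (l 16629568)) (c (l 16624968) (l 16599208))) (c (a (l 16619504) (l 16625464)) (b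 (l 16610432) (l 16617920)))) (c (a (b (l 16631208) (l 16638128)) (c (l 16669936) (l 16666872))) (a (b (l 16639376) (l 16646752)) (b (b (l 16646064) (l 16649728)) (b (l 16653360) (l 16656952)))))) (b (a (a (c (l 16642344) (l 16633824)) (c (l 16653848) (l 16625264))) (a (c (l 16644936) (l 16653984)) (c (l 16673264) (b (l 16660512) (l 16664032))))) (a (a (c (l 16649216) (l 16641128)) (c (l 16660624) (l 16632464))) (a (c (l 16651616) (l 16663696)) (c (l 16685088) (b (l 16667520) (l 16670968)))))))), by decide +kernel⟩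

def k23_mm_202_t : ∃ t, chk3 f_mm_202_t t 29 34 2 = true :=
  ⟨(a (b (c (a (b (c (l 16665048) (l 16661984)) (c (l 16671312) (l 16668432))) (b (c (l 16677064) (l 16674424)) (b (l 16690984) (l 16694104)))) (a (c (b (l 16658792) (l 16665440)) (a (l 16645136) (l 16651728))) (c (a (l 16663880) (l 16673000)) (b (l 16658352) (l 16665128))))) (a (c (b (c (l 16677456) (l 16674776)) (c (l 16683512) (l 16681024))) (c (b (l 16671984) (l 16678424)) (c (l 16667896) (l 16661216)))) (c (b (b (l 16697208) (l 16700280)) (c (l 16705888) (l 16693304))) (c (a (l 16679488) (l 16685920)) (b (l 16692768) (l 16699328)))))) (a (b (c (b (c (a (l 16686248) (l 16692480)) (l 16697640)) (a (l 16701856) (c (l 16698656) (l 16696712)))) (c (b (l 16695344) (l 16701864)) (b (l 16678544) (a (l 16685744) (l 16692600))))) (c (b (a (l 16708032) (c (l 16704720) (l 16702944))) (c (a (l 16704504) (l 16710688)) (l 16705888))) (b (c (l 16708280) (a (l 16692352) (l 16699168))) (c (l 16704104) (l 16702248))))) (b (c (b (a (c (l 16698808) (l 16696904))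 (c (l 16705224) (l 16703528))) (c (a (l 16704960) (l 16711368)) (a (l 16703224) (l 16709824)))) (b (c (a (l 16694936) (l 16701768)) (a (l 16692888) (l 16699952))) (c (a (l 16701408) (l 16708224)) (a (l 16699536) (l 16706560))))) (c (a (b (c (l 16711016) (l 16709432)) (c (l 16716960) (l 16715528))) (b (c (l 16717408) (l 16716008)) (b (l 16731712) (l 16734688)))) (a (b (c (l 16707784) (l 16706072)) (c (l 16714040) (l 16712496))) (b (c (l 16714560) (l 16713064)) (c (l 16720792) (l 16719448)))))))), by decide +kernel⟩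

def k24_mm_202_t : ∃ t, chk3 f_mm_202_t t 29 34 3 = true :=
  ⟨(b (a (c (a (b (b (l 16637960) (l 16641576)) (b (l 16645160) (l 16648720))) (b (c (l 16665888) (l 16652344)) (c (l 16672856) (l 16659520)))) (a (b (a (l 16623384) (l 16636144)) (a (l 16625792) (l 16643736))) (b (c (l 16651808) (l 16651160)) (c (l 16661808) (l 16660064))))) (a (c (b (c (l 16674760) (l 16673520)) (c (l 16681648) (l 16681904))) (b (c (a (l 16670984) (l 16678624)) (b (l 16664960) (l 16668720))) (c (a (l 16678280) (l 16685864)) (c (l 16674952) (l 16673664))))) (c (b (c (a (l 16690776) (l 16698064)) (c (l 16687640) (l 16689216))) (c (a (l 16697592) (l 16704840)) (c (l 16694568) (l 16698856)))) (b (c (c (l 16688152) (l 16688384)) (a (l 16684008) (l 16686808))) (c (c (l 16697872) (l 16696880)) (a (l 16691368) (l 16694104))))))) (a (c (a (b (b (l 16652256) (l 16655768)) (b (l 16659248) (l 16662696))) (b (c (l 16679728) (l 16666584)) (c (l 16686480) (l 16673544)))) (a (b (a (l 16633344) (l 16651216)) (a (l 16640776) (l 16658584))) (b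 (c (l 16669080) (l 16668864)) (c (l 16676248) (l 16677552))))) (c (a (b (c (l 16688424) (l 16690176)) (c (l 16700328) (l 16698328))) (a (b (c (l 16704304) (l 16702472)) (c (l 16710896) (l 16709240))) (b (a (l 16698384) (l 16702064)) (c (l 16718056) (l 16716616))))) (a (b (c (a (l 16685464) (l 16692984)) (c (l 16682248) (l 16683688))) (c (a (l 16692528) (l 16699992)) (c (l 16694680) (l 16693592)))) (a (b (b (l 16687336) (l 16690888)) (c (l 16707520) (l 16700512))) (b (c (l 16708240) (l 16703904)) (c (l 16709888) (l 16710976)))))))), by decide +kernel⟩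

def k25_mm_202_t : ∃ t, chk3 f_mm_202_t t 29 70 1 = true :=
  ⟨(b (c (c (c (a (a (l 16689472) (l 16711792)) (a (a (l 16710376) (l 16716544)) (a (l 16722800) (l 16734408)))) (a (a (l 16687168) (l 16709872)) (a (l 16713384) (a (l 16721520) (l 16728064))))) (a (a (c (l 16684760) (l 16682256)) (c (l 16697376) (l 16705776))) (a (c (l 16710296) (l 16709928)) (a (c (l 16720192) (l 16718808)) (c (l 16726912) (l 16725728)))))) (a (a (c (b (l 16666120) (l 16669504)) (c (l 16674128) (l 16660736))) (c (c (l 16693120) (l 16685624)) (c (l 16688536) (l 16686120)))) (a (a (c (l 16697200) (c (l 16699488) (l 16697432))) (c (l 16708192) (c (l 16706880) (l 16705064)))) (a (c (c (l 16717376) (l 16715888)) (c (l 16714352) (l 16707520))) (c (c (l 16724496) (l 16723216)) (c (l 16721896) (l 16720536))))))) (c (a (a (c (b (l 16713776) (l 16706256)) (c (l 16691000) (l 16688680))) (c (a (l 16713704) (l 16719760)) (c (l 16703536) (l 16701632)))) (a (c (a (c (l 16716152) (l 16714672)) (c (l 16722296) (l 16720992))) (c (l 16719008)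 (l 16717496))) (c (a (c (l 16733784) (l 16727408)) (c (c (l 16735112) (l 16734648)) (l 16733920))) (a (c (l 16726232) (l 16725008)) (c (l 16732928) (l 16731888)))))) (a (a (c (b (l 16672872) (l 16676200)) (c (l 16681160) (l 16673224))) (a (c (l 16695192) (l 16685448)) (c (l 16691568) (l 16696704)))) (a (c (a (l 16703744) (l 16716816)) (a (a (l 16693048) (l 16696760)) (b (l 16700648) (l 16704048)))) (c (a (c (l 16723736) (l 16722424)) (c (l 16730816) (l 16729696))) (a (c (l 16721064) (l 16719656)) (c (l 16728544) (l 16728664)))))))), by decide +kernel⟩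

def k26_mm_202_t : ∃ t, chk3 f_mm_202_t t 29 71 2 = true :=
  ⟨(a (c (a (b (b (l 16709192) (l 16712112)) (c (l 16706848) (l 16705056))) (a (b (l 16719528) (l 16714784)) (b (c (l 16715808) (l 16714312)) (c (l 16721440) (l 16720088))))) (a (c (b (l 16697136) (l 16703176)) (b (l 16695000) (l 16701208))) (b (c (l 16709592) (l 16707864)) (c (l 16715552) (l 16713984))))) (c (a (c (a (b (l 16721832) (l 16727432)) (b (l 16727952) (l 16733520))) (a (b (l 16720512) (l 16726256)) (b (l 16726800) (l 16732512)))) (b (c (a (l 16739416) (c (l 16740696) (l 16740296))) (a (l 16733184) (c (l 16739880) (l 16739464)))) (c (a (c (l 16739920) (l 16739504)) (b (l 16744640) (l 16747376))) (a (l 16738864) (b (l 16743920) (l 16746720)))))) (a (a (b (l 16718408) (c (l 16725024) (l 16723736))) (b (c (l 16725600) (l 16724344)) (c (l 16731456) (l 16730360)))) (c (a (b (l 16732160) (l 16737984)) (b (l 16738824) (l 16749848))) (b (a (l 16731096) (l 16737936)) (a (l 16737064) (l 16743864))))))), by decide +kernel⟩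

def k27_mm_202_t : ∃ t, chk3 f_mm_202_t t 29 71 3 = true :=
  ⟨(a (a (c (b (b (l 16679504) (l 16682768)) (c (l 16699160) (l 16697032))) (b (a (l 16662280) (l 16679904)) (a (l 16669160) (l 16686728)))) (c (a (b (l 16701712) (l 16687144)) (b (l 16698040) (l 16714880))) (b (c (l 16702240) (l 16702928)) (a (l 16704360) (c (l 16712416) (l 16710704)))))) (b (a (c (a (l 16715416) (c (l 16723040) (l 16721696))) (a (a (l 16699856) (l 16703536)) (c (l 16720296) (l 16718848)))) (c (c (a (l 16729984) (l 16737016)) (a (l 16728832) (l 16736056))) (a (c (l 16727648) (l 16726416)) (c (l 16735072) (b (l 16732384) (l 16735696)))))) (a (c (a (c (l 16722400) (l 16721016)) (c (l 16729216) (l 16728024))) (a (c (l 16719576) (l 16718080)) (c (l 16726800) (l 16725520)))) (c (a (c (l 16736112) (l 16735120)) (c (l 16743096) (l 16742296))) (a (c (l 16734096) (l 16735648)) (c (b (l 16739872) (l 16743032)) (b (l 16738976) (l 16742216)))))))), by decide +kernel⟩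

def k28_mm_202_t : ∃ t, chk3 f_mm_202_t t 15 16 1 = true :=
  ⟨(a (a (b (l 14) (b (l 14) (a (a (c (c (b (c (l 16699176) (l 16697384)) (c (l 16705512) (l 16703872))) (b (c (l 16695528) (l 16693616)) (c (l 16702176) (l 16700416)))) (b (c (b (l 16678368) (l 16681920)) (b (l 16677376) (l 16681736))) (c (b (l 16685432) (l 16688928)) (c (l 16689560) (l 16687568))))) (b (b (l 14) (a (b (l 14) (c (a (l 16703272) (l 16705024)) (l 16686704))) (l 14))) (c (c (b (l 16715096) (l 16718272)) (c (l 16709232) (l 16702456))) (c (b (l 16698312) (l 16701784)) (c (l 16698864) (b (l 16699216) (l 16702888))))))) (b (l 14) (a (c (c (c (b (l 16717360) (l 16720488)) (b (l 16716080) (l 16719280))) (c (l 16713784) (l 16712464))) (c (c (l 16711096) (l 16709696)) (c (b (l 16709080) (l 16712640)) (c (l 16704512) (l 16706384))))) (a (b (l 14) (c (c (l 16725112) (l 16722912)) (c (l 16720584) (l 16712872)))) (l 14))))))) (l 14)) (l 14)), by decide +kernel⟩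

def k29_mm_202_t : ∃ t, chk3 f_mm_202_t t 60 68 2 = true :=
  ⟨(a (c (a (b (b (l 16719928) (l 16723048)) (c (l 16723120) (l 16716528))) (b (c (b (l 16716840) (l 16719920)) (l 16713152)) (c (b (l 16722976) (l 16726008)) (l 16728584)))) (a (b (c (l 16708704) (l 16707104)) (c (l 16715128) (l 16713680))) (b (c (l 16715744) (l 16711728)) (c (l 16722136) (l 16718272))))) (c (b (a (c (b (l 16723592) (l 16726672)) (b (l 16722456) (l 16725600))) (c (b (l 16735720) (l 16738792)) (b (l 16729528) (l 16732664)))) (a (c (b (l 16729720) (l 16732744)) (b (l 16728712) (l 16731808))) (c (b (l 16741840) (a (l 16737880) (l 16741344))) (c (l 16737520) (l 16737112))))) (b (a (c (l 16720264) (l 16720392)) (c (b (l 16728544) (l 16731744)) (b (l 16727528) (l 16730792)))) (a (c (l 16729256) (l 16728216)) (c (c (l 16736704) (l 16736288)) (c (l 16735864) (l 16735432))))))), by decide +kernel⟩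

def k30_mm_202_t : ∃ t, chk3 f_mm_202_t t 60 69 2 = true :=
  ⟨(c (a (b (a (c (l 16729144) (l 16722696)) (c (b (l 16729016) (l 16731992)) (b (l 16727960) (l 16731000)))) (a (c (b (l 16728344) (l 16731280)) (l 16733992)) (c (c (l 16736624) (l 16736192)) (c (l 16735744) (l 16735296))))) (b (a (c (b (l 16740984) (l 16743960)) (c (l 16736608) (l 16736176))) (c (b (a (l 16740872) (l 16744336)) (b (l 16750072) (l 16751544))) (b (l 16747144) (l 16744928)))) (a (c (b (l 16744280) (c (l 16744744) (l 16744408))) (c (l 16743904) (l 16742224))) (c (b (c (l 16748648) (l 16748360)) (c (l 16754120) (l 16751288))) (b (c (l 16748072) (l 16747776)) (c (l 16751032) (l 16750768))))))) (a (c (a (b (l 16721440) (l 16727648)) (b (l 16728424) (l 16734600))) (a (b (l 16720144) (l 16726496)) (b (l 16727328) (l 16733648)))) (b (a (c (l 16736832) (l 16736256)) (c (b (l 16741176) (l 16744264)) (b (l 16740432) (l 16743584)))) (a (c (c (l 16741856) (l 16741480)) (b (l 16739336) (l 16742448))) (c (b (l 16747328) (l 16750360)) (b (l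 16746712) (l 16749808))))))), by decide +kernel⟩

def k31_mm_202_t : ∃ t, chk3 f_mm_202_t t 60 34 3 = true :=
  ⟨(b (a (c (a (b (b (l 16692392) (l 16695824)) (b (l 16699232) (l 16702616))) (b (c (l 16712920) (l 16706200)) (c (l 16719616) (l 16715664)))) (c (b (a (l 16696736) (l 16707296)) (a (l 16703800) (l 16715616))) (b (a (l 16697536) (b (l 16706536) (l 16710144))) (a (l 16706088) (b (l 16713736) (l 16717288)))))) (c (b (a (c (l 16717864) (l 16717920)) (c (l 16728816) (c (l 16727384) (l 16726856)))) (a (c (l 16727144) (l 16726032)) (c (c (l 16734992) (l 16734552)) (c (l 16734104) (l 16733648))))) (b (a (c (b (l 16716176) (l 16719688)) (a (l 16709288) (l 16716064))) (c (c (l 16726320) (l 16725776)) (b (l 16720544) (l 16725408)))) (a (c (c (l 16725184) (l 16724608)) (c (l 16724016) (l 16723424))) (c (b (l 16733856) (l 16734656)) (b (l 16730248) (l 16733744))))))) (c (a (c (a (b (l 16718808) (l 16725312)) (b (l 16726192) (l 16732664))) (a (b (l 16717416) (l 16724088)) (b (l 16725024) (l 16731640)))) (b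 (a (c (l 16734992) (c (l 16732968) (l 16732480))) (c (b (l 16739656) (l 16742880)) (b (l 16738864) (l 16742160)))) (a (c (b (l 16738512) (l 16741696)) (b (l 16737656) (l 16740912))) (c (b (l 16746072) (l 16749240)) (b (l 16745416) (l 16748648)))))) (c (a (a (b (l 16713368) (l 16722816)) (b (l 16724472) (c (l 16730856) (l 16730320)))) (a (b (c (l 16731984) (l 16731480)) (b (l 16736776) (l 16740104))) (b (b (l 16738048) (l 16741408)) (b (l 16746048) (c (l 16748192) (l 16747888)))))) (a (a (b (l 16713856) (l 16722496)) (b (c (l 16722888) (l 16722256)) (c (l 16729784) (l 16729232)))) (b (a (b (l 16726352) (l 16732440)) (b (l 16737864) (c (l 16740832) (l 16740448)))) (a (b (l 16735872) (l 16739272)) (a (c (l 16743864) (l 16743504)) (b (l 16746096) (l 16749456))))))))), by decide +kernel⟩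

def k32_mm_202_t : ∃ t, chk3 f_mm_202_t t 61 68 2 = true :=
  ⟨(a (b (a (b (a (a (c (l 16734432) (l 16732696)) (l 14)) (l 14)) (c (c (a (l 16738800) (l 16742352)) (l 16742480)) (c (l 16739128) (l 16738368)))) (l 14)) (b (c (a (c (a (l 16741840) (l 16745392)) (l 16742960)) (c (a (l 16751600) (c (l 16752720) (l 16752496))) (c (l 16753048) (l 16750176)))) (a (c (l 16742288) (l 16741592)) (c (c (l 16749920) (l 16749664)) (l 16751240)))) (a (c (c (c (l 16746776) (l 16746480)) (c (l 16746184) (l 16745880))) (c (l 16745416) (l 16744792))) (c (a (c (l 16754280) (l 16751512)) (c (c (l 16755712) (l 16755512)) (l 16755216))) (c (a (l 16751024) (l 16754808)) (a (l 16750520) (l 16754384))))))) (a (b (l 14) (b (l 14) (b (a (a (c (l 16760056) (l 16756704)) (l 14)) (l 14)) (a (c (c (c (l 16760104) (l 16759952)) (l 16759720)) (l 16759240)) (a (a (c (l 16763520) (l 16761664)) (l 14)) (l 14)))))) (l 14))), by decide +kernel⟩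

def k33_mm_202_t : ∃ t, chk3 f_mm_202_t t 122 69 2 = true :=
  ⟨(a (b (c (c (a (b (l 16747840) (l 16753424)) (b (l 16754008) (c (l 16754448) (l 16754232)))) (a (c (l 16748920) (l 16748640)) (c (l 16753832) (l 16752280)))) (c (b (l 16749832) (l 16753568)) (b (l 16747960) (l 16752408)))) (a (c (b (c (l 16756352) (l 16753272)) (c (c (l 16756736) (l 16756536)) (l 16756240))) (b (l 16753216) (a (l 16754688) (l 16756544)))) (c (c (b (c (l 16757360) (l 16757176)) (c (l 16761560) (l 16760088))) (b (l 16756888) (l 16760504))) (c (b (l 16756496) (l 16759512)) (b (l 16756096) (l 16759168)))))) (b (a (c (b (c (c (l 16755072) (l 16754864)) (l 16754552)) (c (c (l 16758008) (l 16757832)) (l 16757560))) (b (c (l 16754120) (l 16753680)) (c (l 16757184) (l 16756808)))) (c (c (b (c (l 16759984) (l 16758504)) (c (b (l 16760880) (l 16762336)) (l 16762776))) (b (l 16758904) (c (l 16761328) (l 16761184)))) (c (b (l 16757896) (l 16760960)) (b (l 16757536) (l 16760656))))) (c (c (a (c (b (l 16761736) (b (l 16763088) (l 16765832)))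 (b (l 16760768) (l 16764992))) (b (c (b (l 16763792) (l 16766552)) (c (l 16765744) (l 16767000))) (b (c (a (l 16765776) (l 16767584)) (l 16767896)) (a (l 16768480) (c (l 16769024) (l 16768952)))))) (a (b (l 16761848) (c (l 16766176) (l 16763432))) (b (c (l 16765600) (l 16764168)) (b (l 16767752) (a (l 16766984) (l 16768840)))))) (b (a (c (l 16760224) (l 16759904)) (c (c (l 16764048) (l 16763928)) (l 16763744))) (c (a (l 16764544) (c (l 16763112) (l 16766952))) (a (l 16762968) (l 16761560))))))), by decide +kernel⟩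

def k34_mm_202_t : ∃ t, chk3 f_mm_202_t t 246 138 2 = true :=
  ⟨(c (a (c (b (c (b (l 16761584) (l 16763056)) (l 16763168)) (a (c (l 16765648) (l 16764224)) (c (b (l 16765440) (l 16766896)) (l 16767384)))) (b (c (l 16762056) (l 16761920)) (b (l 16764240) (l 16766712)))) (b (c (a (b (l 16764288) (l 16767080)) (c (b (l 16766200) (l 16767672)) (l 16767504))) (a (l 16765472) (c (l 16766760) (l 16766664)))) (c (a (b (c (l 16767280) (l 16767192)) (c (l 16768744) (l 16768664))) (c (b (l 16770448) (c (l 16771264) (l 16770576))) (b (l 16769064) (l 16770536)))) (a (b (l 16767064) (l 16768552)) (b (l 16768960) (l 16771760)))))) (a (c (b (l 16763024) (a (l 16763808) (l 16765720))) (b (l 16761424) (l 16759296))) (b (c (a (l 16764592) (l 16766528)) (a (l 16764368) (l 16766336))) (a (b (l 16766792) (l 16768320)) (b (l 16768744) (l 16767648)))))), by decide +kernel⟩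

def k35_mm_202_t : ∃ t, chk3 f_mm_202_t t 492 139 2 = true :=
  ⟨(a (b (c (c (c (b (l 16766520) (l 16767968)) (l 16768464)) (c (l 16767064) (l 16766976))) (c (l 16766840) (l 16766648))) (b (c (c (c (l 16770720) (l 16769336)) (l 16769232)) (l 16769016)) (c (c (c (c (l 16771512) (l 16770824)) (l 16770784)) (l 16770696)) (l 16767896)))) (c (b (c (b (c (l 16768352) (l 16768272)) (c (l 16770456) (l 16769736))) (b (l 16768152) (l 16769632))) (b (c (c (c (l 16771904) (l 16772536)) (l 16772496)) (c (l 16771128) (l 16771080))) (c (c (a (l 16772864) (c (l 16773792) (l 16773120))) (a (l 16772168) (l 16773096))) (c (l 16772592) (l 16772552))))) (b (c (l 16766128) (l 16768592)) (b (l 16768320) (l 16769824))))), by decide +kernel⟩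

def k36_mm_202_t : ∃ t, chk3 f_mm_202_t t 493 278 2 = true :=
  ⟨(a (b (c (c (c (l 16770768) (l 16770128)) (l 16770040)) (l 16767224)) (c (c (c (a (l 16771176) (l 16772752)) (l 16772248)) (c (l 16771544) (l 16771488))) (l 16768744))) (c (b (c (c (c (a (l 16771592) (l 16773176)) (l 16772688)) (c (l 16773320) (l 16771992))) (c (l 16771952) (l 16771912))) (a (c (c (c (l 16773688) (l 16773016)) (l 16772992)) (l 16772936)) (c (c (b (l 16773592) (c (l 16774976) (l 16774304))) (c (l 16773936) (l 16773920))) (l 16772576)))) (c (c (l 16769992) (l 16767328)) (l 16767272)))), by decide +kernel⟩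

def k37_mm_202_t : ∃ t, chk3 f_mm_202_t t 986 279 2 = true :=
  ⟨(c (a (b (c (b (l 16772232) (l 16773280)) (l 16772512)) (c (a (b (l 16773440) (l 16774488)) (b (l 16773904) (a (l 16774504) (l 16775064)))) (l 16772664))) (b (c (c (b (l 16773176) (l 16774552)) (l 16774160)) (l 16770840)) (c (b (c (c (l 16774944) (l 16774608)) (l 16774592)) (c (a (l 16775424) (a (l 16775440) (l 16776000))) (l 16774000))) (l 16773608)))) (c (l 16773656) (l 16773592))), by decide +kernel⟩

def k38_mm_202_t : ∃ t, chk3 f_mm_202_t t 987 279 2 = true :=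
  ⟨(c (b (b (c (a (c (l 16774432) (l 16774080)) (a (a (l 16775000) (l 16775072)) (b (l 16775080) (l 16775768)))) (l 16773200)) (a (c (c (a (l 16774592) (l 16775384)) (l 16774800)) (l 16774768)) (c (c (a (c (l 16775768) (l 16775512)) (b (l 16775800) (a (l 16776048) (l 16776280)))) (l 16774424)) (l 16773096)))) (a (c (a (b (b (l 16775120) (l 16775808)) (c (b (l 16775840) (a (l 16776080) (l 16776312))) (l 16776008))) (c (b (b (l 16775592) (l 16776272)) (c (a (b (l 16776192) (l 16776544)) (b (l 16776424) (l 16776448))) (l 16775824))) (l 16776120))) (l 16775864)) (b (c (c (c (a (b (l 16776056) (a (l 16776296) (l 16776528))) (a (b (l 16776408) (l 16776432)) (b (l 16776312) (b (l 16776576) (l 16777080))))) (l 16776424)) (l 16776456)) (l 16776448)) (c (a (a (c (c (b (l 16776328) (b (l 16776592) (l 16777176))) (l 16776832)) (l 16776824)) (c (b (l 16776888) (b (a (l 16777096) (b (l 16777160) (l 95797903559))) (a (b (l 16777288) (l 183307862199)) (l 4)))) (l 16777440))) (b (a (b (l 16777024) (a (l 16777264) (b (l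 16777328) (l 163980509399)))) (b (a (b (l 16777152) (l 85060485335)) (b (l 118883352791) (l 4))) (l 4))) (c (a (a (b (l 150558736647) (l 4)) (l 4)) (l 4)) (l 211225149783)))) (a (l 16776920) (a (l 16777856) (l 123178320951))))))) (b (l 16774816) (c (a (l 16775840) (l 16778048)) (l 16776256)))), by decide +kernel⟩

def k39_mm_202_t : ∃ t, chk3 f_mm_202_t t 247 276 2 = true :=
  ⟨(b (l 14) (a (a (c (c (c (l 16770192) (l 16769472)) (l 16769368)) (l 16766544)) (a (c (c (b (l 14) (l 16771280)) (l 16770808)) (l 16770640)) (l 14))) (l 14))), by decide +kernel⟩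

def k40_mm_202_t : ∃ t, chk3 f_mm_202_t t 494 277 2 = true :=
  ⟨(a (c (b (c (c (c (l 16771664) (l 16772296)) (l 16772256)) (c (l 16770896) (l 16770840))) (c (c (a (l 16772320) (c (l 16773424) (l 16772912))) (a (l 16771944) (l 16772888))) (c (l 16770408) (l 16772336)))) (c (c (l 16768920) (l 16766248)) (l 16766168))) (c (b (b (c (c (c (l 16773176) (l 16772496)) (l 16772472)) (l 16772408)) (c (c (a (l 16772768) (l 16774368)) (l 16773864)) (l 16771840))) (a (c (c (b (l 16773496) (c (l 16774888) (l 16774216))) (c (l 16773840) (l 16773824))) (l 16772480)) (b (c (c (c (l 16774768) (l 16774432)) (l 16774416)) (l 16774376)) (c (c (a (l 16775256) (a (l 16775280) (l 16775848))) (l 16773840)) (l 16775120))))) (b (c (l 16770088) (l 16772624)) (l 16774032)))), by decide +kernel⟩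

def k41_mm_202_t : ∃ t, chk3 f_mm_202_t t 990 277 2 = true :=
  ⟨(c (a (c (b (b (b (l 14) (l 16774416)) (c (a (l 16774416) (l 16775216)) (l 16774632))) (b (a (b (l 16774952) (l 16775648)) (b (l 16775592) (a (l 16775672) (l 16775912)))) (c (c (a (b (l 16775696) (l 16776384)) (a (b (l 16776048) (l 16776408)) (b (l 16776280) (l 16776312)))) (a (l 16775216) (l 16775688))) (c (l 16774792) (l 16774784))))) (b (c (l 16774240) (l 16774216)) (l 16775712))) (b (b (l 14) (c (c (c (a (l 16775696) (b (l 14) (l 16776344))) (a (l 16775360) (l 16775176))) (l 16774600)) (l 16774256))) (b (c (c (a (b (l 16776232) (a (l 16776152) (a (l 16776328) (l 16776448)))) (a (c (b (l 16776264) (l 16776296)) (l 16775784)) (b (a (l 16776440) (l 16776560)) (l 16776864)))) (l 16776320)) (l 16776304)) (a (c (b (a (b (l 16776424) (l 16776272)) (b (l 16776328) (l 16776592))) (c (a (l 16776880) (b (l 16777024) (a (l 16777224) (b (l 54995714231) (l 177939153063))))) (l 16776984))) (l 16776800)) (c (b (c (b (b (l 16776968) (a (l 16776616) (a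 (l 16777120) (l 70028099799)))) (a (c (l 16777160) (l 16777072)) (a (b (l 16777280) (l 155390574791)) (l 4)))) (l 16777400)) (b (c (a (a (b (l 16777152) (l 79154905303)) (b (l 114051514583) (l 4))) (l 4)) (l 108682805863)) (l 4))) (a (l 16777112) (l 87744840775))))))) (b (l 16774152) (c (b (l 16775800) (l 16777160)) (l 16776120)))), by decide +kernel⟩

def k42_mm_202_t : ∃ t, chk3 f_mm_202_t t 991 277 2 = true :=
  ⟨(a (c (a (b (a (b (l 14) (b (l 14) (b (l 14) (a (l 16776392) (l 16776184))))) (l 14)) (b (b (c (c (a (a (l 16776352) (l 16776464)) (b (l 16776552) (l 16777064))) (l 16776848)) (l 16776848)) (c (a (b (l 16777008) (a (l 16777208) (b (l 16777312) (l 138747576551)))) (c (b (a (b (l 16777136) (l 65733132487)) (b (l 100629741767) (l 4))) (l 4)) (l 96871645751))) (l 16777160))) (a (a (a (b (b (b (l 72175583447) (l 4)) (l 4)) (l 4)) (l 4)) (l 4)) (l 4)))) (b (l 14) (b (b (c (b (a (a (l 16777056) (a (l 16777144) (l 14))) (l 14)) (c (a (a (b (l 16777184) (l 141968801975)) (l 194045280471)) (l 4)) (l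 129083900487))) (l 16777560)) (l 4)) (l 4)))) (b (l 16776128) (b (a (l 16776984) (l 16777968)) (l 169349220215)))) (b (l 14) (l 4))), by decide +kernel⟩

def k43_mm_202_t : ∃ t, chk3 f_mm_202_t t 988 278 2 = true :=
  ⟨(c (c (c (b (b (a (l 16773080) (l 16774344)) (a (l 16774456) (a (l 16774504) (l 16775296)))) (a (a (b (l 16774288) (l 16775336)) (b (l 16774760) (c (l 16775808) (l 16775472)))) (b (a (a (l 16775104) (l 16775344)) (b (l 16775512) (l 16776200))) (b (a (l 16775768) (a (l 16776112) (l 16776352))) (c (a (l 16776456) (a (l 16776480) (l 16776384))) (l 16775704)))))) (b (a (l 16774064) (b (l 16773984) (l 16774712))) (a (b (l 16774504) (l 16773920)) (b (l 16774136) (l 16775184))))) (b (a (l 16772048) (l 16772672)) (c (l 16775320) (l 16775304)))) (c (b (l 16771160) (l 16775280)) (l 16774480))), by decide +kernel⟩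

def k44_mm_202_t : ∃ t, chk3 f_mm_202_t t 988 558 2 = true :=
  ⟨(c (c (a (c (b (b (c (a (l 16775552) (l 16776016)) (l 16775784)) (a (l 16776240) (a (l 16776256) (l 16776168)))) (a (c (a (b (l 16776152) (l 16776512)) (b (l 16776384) (l 16776416))) (l 16775792)) (a (c (b (l 16776288) (l 16776976)) (l 16776792)) (a (b (l 16776464) (b (l 16777064) (b (l 16777184) (l 140358189239)))) (b (l 16776584) (b (a (l 16777144) (l 16777320)) (l 192434667735))))))) (b (l 16774640) (a (l 16775128) (b (l 16775416) (l 16777064))))) (a (b (c (c (a (b (l 16776368) (l 16776400)) (b (l 16776272) (l 16776960))) (l 16776664)) (l 16776656)) (b (b (a (l 16776992) (a (b (l 16777128) (l 16777328)) (b (l 79154905303) (l 4)))) (a (a (l 16777112) (b (l 16777184) (l 122641449175))) (c (l 212298891447) (l 16777304)))) (a (a (b (b (l 99019129015) (l 4)) (l 4)) (l 4)) (l 4)))) (b (b (c (b (l 16776864) (b (l 16777080) (a (l 16776640) (a (l 16777144) (l 103850967239))))) (l 16776944)) (b (c (a (a (l 16777048) (l 16777280)) (a (b (l 68954357959)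 (l 4)) (l 4))) (l 16777168)) (c (a (a (b (l 16777176) (l 108682805463)) (l 159148671255)) (l 4)) (l 115125256839)))) (l 4)))) (a (b (l 16773312) (l 16776656)) (b (c (l 16777504) (l 16776848)) (a (c (l 75933680807) (l 16777240)) (l 4))))) (a (l 16776272) (b (l 16776840) (l 97408518167)))), by decide +kernel⟩

def k45_mm_202_t : ∃ t, chk3 f_mm_202_t t 988 559 2 = true :=
  ⟨(b (a (c (c (b (b (a (l 16776808) (c (a (a (b (l 16777144) (l 64659390663)) (a (l 114588385495) (l 185992216775))) (l 4)) (l 103850967639))) (a (a (l 16776960) (a (l 16777128) (b (l 16777272) (l 138210705639)))) (l 4))) (a (a (a (b (l 16777080) (b (l 16777280) (l 158611800263))) (b (b (l 16777144) (c (l 70564970711) (l 16777216))) (l 4))) (a (b (b (l 100092870903) (l 4)) (l 4)) (l 4))) (l 4))) (a (l 16777752) (l 136600093847))) (l 63048779847)) (l 4)) (l 4)), by decide +kernel⟩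

def k46_mm_202_t : ∃ t, chk3 f_mm_202_t t 989 556 4 = true :=
  ⟨(c (b (c (b (a (l 16775096) (a (l 16775472) (l 16776272))) (a (c (l 16775464) (l 16775128)) (a (l 16776160) (a (l 16776184) (a (l 16776360) (l 16776480)))))) (a (l 16774928) (l 16774896))) (c (a (a (c (l 16775768) (l 16775432)) (b (l 16775728) (a (l 16775968) (l 16776208)))) (a (a (b (l 16776080) (l 16776112)) (b (l 16776312) (a (l 16776288) (l 16776408)))) (b (c (c (a (l 16776552) (l 16776456)) (l 16776008)) (l 16776008)) (a (l 16776912) (b (l 16777056) (a (b (l 16777128) (l 48016392423)) (b (l 94724161719) (l 4)))))))) (a (l 16774352) (a (l 16775056) (l 16777160))))) (c (a (l 16773968) (l 16776232)) (l 16775744))), by decide +kernel⟩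

def k47_mm_202_t : ∃ t, chk3 f_mm_202_t t 989 557 4 = true :=
  ⟨(a (a (c (c (b (b (l 16776304) (a (l 16776224) (l 16776128))) (a (c (b (l 16776256) (l 16776944)) (l 16776760)) (a (b (l 16776432) (b (l 16776704) (b (l 16777160) (l 99555999927)))) (b (l 16776552) (b (l 16777144) (a (l 134989480167) (l 4))))))) (b (l 16774840) (l 16777192))) (l 16776824)) (b (c (c (c (b (a (l 16776336) (l 16776240)) (a (l 16776368) (l 16776928))) (l 16776624)) (l 16776624)) (l 16776616)) (c (b (a (a (l 16776992) (c (b (l 16776696) (b (l 16777152) (l 78618034391))) (l 16777096))) (b (a (l 16777216) (b (l 16777320) (l 157001187527))) (a (b (l 116735869143) (l 4)) (l 4)))) (b (c (b (a (a (l 16777280) (l 4)) (l 4)) (l 217667600631)) (l 136063222359)) (l 4))) (c (l 70564970999) (l 16777216))))) (b (a (c (b (b (a (l 16776384) (l 16776944)) (b (l 16776944) (a (l 16776608) (a (l 16777112) (a (l 16777192) (l 117809610919)))))) (b (a (c (l 16777072) (l 16777064)) (a (b (l 16777272) (l 136600092903)) (l 187065958663))) (c (a (a (b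 (l 16777144) (l 68954357975)) (b (l 108682805447) (l 4))) (l 4)) (l 107072193111)))) (l 16777696)) (b (c (b (a (a (l 16777120) (b (l 16777264) (l 126399545575))) (l 218204471479)) (c (a (a (b (l 98482258119) (l 4)) (l 4)) (l 4)) (l 156464316983))) (l 16777592)) (l 4))) (l 4))), by decide +kernel⟩

def k48_mm_202_t : ∃ t, chk3 f_mm_202_t t 989 278 5 = true :=
  ⟨(a (b (l 16775224) (b (l 16776352) (l 16778328))) (b (l 16776200) (b (l 52311361671) (l 4)))), by decide +kernel⟩

def k49_mm_202_t : ∃ t, chk3 f_mm_202_t t 989 279 2 = true :=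
  ⟨(a (b (b (b (c (c (a (a (c (a (b (l 16777232) (a (l 139821318391) (l 4))) (b (b (l 52848230631) (l 181160378551)) (l 4))) (l 77544292967)) (l 4)) (l 4)) (l 128010159431)) (l 121030837815)) (l 4)) (l 4)) (l 4)) (l 4)), by decide +kernel⟩

def k50_mm_202_t : ∃ t, chk3 f_mm_202_t t 495 139 2 = true :=
  ⟨(a (b (b (a (c (b (b (c (c (c (a (a (l 16776296) (l 16776208)) (c (a (l 16776440) (b (l 16776584) (l 16777192))) (l 16776888))) (l 16776648)) (l 16776640)) (l 16776640)) (c (a (a (b (l 16776568) (l 16776416)) (b (l 16776472) (l 16776984))) (a (b (l 16777040) (a (b (l 16777112) (l 16777320)) (a (b (l 16777200) (l 4)) (l 147874382071)))) (b (a (b (l 16777168) (a (l 16777216) (l 4))) (b (l 132305125607) (l 4))) (l 4)))) (l 16777624))) (c (c (a (a (b (a (l 16776960) (a (l 16777048) (b (l 16777016) (l 16777312)))) (a (b (b (l 16777176) (l 118346481879)) (l 4)) (l 215520116935))) (b (b (a (l 16777104) (b (l 16777176) (l 108145934551))) (a (b (l 73786196183) (l 4)) (l 4))) (l 4))) (a (b (b (l 210151407783) (l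 4)) (l 4)) (l 4))) (a (b (l 16777552) (l 137673835239)) (l 219815084551))) (c (a (l 61975036439) (l 220888826375)) (l 94187292215)))) (b (l 16776776) (l 84523616375))) (b (c (a (b (a (b (a (l 16777112) (b (l 16777160) (a (l 16777296) (l 172033573015)))) (a (b (a (l 16777192) (l 107609063623)) (l 166664864007)) (l 4))) (a (a (b (b (l 101703483591) (l 4)) (l 4)) (l 4)) (l 4))) (l 4)) (l 4)) (l 119957096487)) (l 4))) (l 4)) (l 4)) (l 4)), by decide +kernel⟩

def k51_mm_202_t : ∃ t, chk3 f_mm_202_t t 61 68 3 = true :=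
  ⟨(a (a (b (b (a (c (l 16731848) (l 16727664)) (l 14)) (c (c (l 16737584) (l 16736784)) (c (l 16735960) (c (l 16735328) (l 16734904))))) (b (c (c (l 16740880) (l 16740144)) (c (l 16740040) (c (l 16738808) (l 16738416)))) (c (c (l 16744136) (l 16743472)) (c (l 16744424) (c (l 16742256) (l 16741896)))))) (b (l 14) (b (c (c (l 16750704) (a (l 16746160) (l 16750208))) (a (c (l 16745552) (l 16744920)) (c (l 16749688) (l 16749160)))) (c (a (c (l 16750008) (l 16749472)) (c (l 16753952) (l 16753512))) (a (c (l 16748928) (l 16748368)) (c (l 16753056) (l 16752592))))))) (a (b (l 14) (b (l 14) (a (c (c (l 16757936) (l 16757576)) (c (l 16758520) (c (l 16756928) (l 16756736)))) (a (b (l 14) (c (l 16761600) (l 16761016))) (l 14))))) (l 14))), by decide +kernel⟩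

def k52_mm_202_t : ∃ t, chk3 f_mm_202_t t 122 69 3 = true :=
  ⟨(c (c (b (b (a (l 16747368) (a (l 16753224) (l 16757160))) (a (l 16753192) (a (l 16756408) (l 16760344)))) (a (c (a (l 16753512) (l 16757352)) (a (l 16753272) (l 16757152))) (a (b (l 16759568) (l 16762696)) (b (l 16763488) (l 16761368))))) (a (b (b (l 16748080) (l 16752000)) (c (a (l 16753032) (l 16756952)) (a (l 16752784) (l 16756752)))) (b (a (b (l 16752752) (l 16756008)) (b (l 16756784) (l 16760024))) (b (a (l 16759224) (l 16763232)) (a (l 16762416) (l 16761168)))))) (a (b (a (b (c (l 16744112) (l 16743424)) (c (l 16747456) (l 16746840))) (b (c (l 16748184) (l 16747592)) (c (l 16751512) (l 16750992)))) (c (a (b (l 16750760) (l 16754040)) (b (l 16754808) (l 16758072))) (a (b (l 16750216) (l 16753568)) (b (l 16754352) (l 16759000))))) (a (b (b (c (l 16752272) (l 16751784)) (c (l 16755592) (l 16756472))) (c (b (l 16758872) (b (l 16761312) (l 16762936))) (b (c (l 16758600) (l 16758424)) (b (l 16761000) (l 16762656))))) (b (b (c (l 16756392)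 (c (l 16756088) (l 16755888))) (c (l 16761000) (c (l 16759440) (l 16759272)))) (b (c (a (l 16761936) (l 16763992)) (a (l 16761640) (l 16764392))) (a (b (l 16764248) (l 16766536)) (c (l 16767224) (b (l 16766208) (l 16767856))))))))), by decide +kernel⟩

def k53_mm_202_t : ∃ t, chk3 f_mm_202_t t 123 138 3 = true :=
  ⟨(a (b (a (c (c (l 16761136) (l 16760832)) (c (c (l 16760608) (l 16760448)) (c (l 16760296) (l 16761448)))) (c (c (a (l 16764128) (l 16766144)) (a (l 16763896) (l 16765944))) (a (b (l 16762688) (l 16765008)) (c (l 16766392) (a (l 16764992) (l 16766712)))))) (a (c (c (l 16759064) (a (l 16763048) (l 16765080))) (c (a (l 16762784) (l 16764856)) (a (l 16763824) (c (l 16764680) (l 16764560))))) (a (c (c (l 16767296) (l 16767112)) (c (l 16762992) (b (l 16765904) (l 16767568)))) (b (c (l 16768432) (c (l 16768192) (l 16768032))) (c (l 16767400) (c (l 16769824) (l 16769688))))))) (b (b (l 14) (a (c (c (l 16764720) (l 16764592)) (a (b (l 16768160) (l 16768984)) (a (a (l 16769896) (l 16770424)) (l 14))))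 (l 14))) (b (a (c (c (l 16766296) (l 16766192)) (c (c (l 16766112) (l 16768688)) (a (l 16767536) (c (l 16772312) (l 16769648))))) (a (c (c (l 16769336) (l 16769288)) (c (l 16771864) (c (l 16771824) (l 16771800)))) (a (c (l 16776088) (b (l 14) (l 16776456))) (l 14)))) (a (c (c (l 16767864) (l 16770408)) (a (c (l 16771912) (c (l 16771840) (l 16771792))) (c (l 16771384) (c (l 16771336) (l 16771312))))) (a (c (c (l 16776104) (l 16776080)) (b (c (l 16775696) (l 16773704)) (a (l 16775968) (a (l 16776752) (b (l 16777056) (l 111904031815)))))) (a (c (c (l 75933682327) (c (l 78081165719) (l 79154907543))) (b (a (c (l 16776968) (l 16776960)) (b (l 75396809703) (l 4))) (c (l 227331277447) (l 229478761079)))) (l 4))))))), by decide +kernel⟩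

def k54_mm_202_t : ∃ t, chk3 f_mm_202_t t 246 139 3 = true :=
  ⟨(c (c (c (b (a (l 16767488) (l 16766208)) (a (l 16765344) (l 16774512))) (a (b (l 16767400) (l 16765280)) (b (l 16766160) (l 16774488)))) (c (a (b (l 16767312) (l 16765216)) (b (l 16766104) (l 16774464))) (a (b (l 16767216) (l 16765152)) (b (l 16766056) (a (l 16768200) (l 16775448)))))) (b (b (a (c (l 16766264) (a (l 16765008) (l 16767112))) (a (a (l 16768768) (l 16767200)) (c (l 16771448) (l 16768720)))) (a (c (l 16765264) (a (l 16766656) (l 16768760))) (c (c (l 16766800) (l 16769376)) (a (l 16768248) (c (l 16773000) (l 16770344)))))) (c (a (c (l 16766400) (c (l 16765048) (l 16766320))) (b (c (l 16768400) (l 16770992)) (a (l 16768952) (a (l 16775744) (l 16777672))))) (b (a (a (l 16768304) (l 16770400)) (a (l 16769888) (c (l 16772008) (l 16771984)))) (a (a (l 16769944) (l 16769416)) (a (c (l 16768904) (l 16771504)) (a (l 16775712) (a (l 16776488) (b (l 16776624) (l 78081164631)))))))))), by decide +kernel⟩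

def k55_mm_202_t : ∃ t, chk3 f_mm_202_t t 247 139 3 = true :=
  ⟨(a (a (b (c (c (l 16774432) (l 16774384)) (b (c (l 16770904) (c (l 16770856) (l 16770824))) (c (l 16775136) (a (l 16771952) (l 16775632))))) (b (b (c (l 16776336) (c (l 16776304) (a (l 16773176) (l 16777416)))) (a (c (l 16776616) (l 16776600)) (a (c (l 16777224) (a (l 16777816) (l 108682806599))) (l 4)))) (a (b (c (l 60901296183) (c (l 16778088) (a (l 16777072) (l 131768255767)))) (l 4)) (l 4)))) (a (b (c (c (l 16776560) (l 16776536)) (b (c (l 16769856) (l 16772432)) (b (l 16776296) (a (l 16776816) (a (l 16777792) (l 101703484711)))))) (b (b (c (l 132305127351) (c (l 139284448951) (l 199950860775))) (l 4)) (l 4))) (b (b (c (l 16776160) (c (l 16776136) (l 16775784))) (b (c (l 49627005783) (c (l 52848232231) (a (l 16777016) (l 121030837463)))) (l 4))) (l 4)))) (b (a (b (b (a (c (l 16776760) (c (l 16776752) (l 16777232))) (c (l 118883354663) (c (l 125862676215) (l 191897797031)))) (a (c (l 82913002967) (a (a (l 16777776) (l 96334774887)) (l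 226794406359))) (l 4))) (l 4)) (l 4)) (l 4))), by decide +kernel⟩

def k56_mm_202_t : ∃ t, chk3 f_mm_202_t t 60 70 2 = true :=
  ⟨(a (c (c (b (a (c (l 16735856) (l 16735400)) (b (l 16746008) (l 16743632))) (a (c (l 16746768) (l 16741136)) (b (l 16749760) (c (l 16749440) (l 16749152))))) (a (b (l 16734696) (c (l 16740744) (l 16740336))) (b (c (l 16741640) (l 16741256)) (b (l 16745824) (l 16748704))))) (b (a (c (l 16733736) (l 16732736)) (c (l 16742632) (l 16742472))) (a (c (l 16739720) (l 16738864)) (c (b (l 16745136) (l 16748080)) (b (l 16744424) (l 16747440)))))) (c (c (b (b (a (c (l 16747616) (l 16747312)) (a (l 16752576) (l 16758152))) (a (c (l 16750464) (l 16750192)) (a (l 16755432) (c (l 16758968) (l 16758792))))) (a (a (b (l 16751480) (l 16754296)) (b (l 16754856) (l 16759632))) (a (b (c (l 16758360) (l 16758168)) (c (l 16763768) (l 16760992))) (c (b (l 16763096) (c (l 16765912) (l 16767160))) (b (l 16761632) (l 16765760)))))) (b (a (b (l 16746848) (l 16752392)) (a (b (l 16752072) (l 16754992)) (b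 (l 16755608) (l 16758520)))) (b (a (c (l 16752800) (l 16752544)) (a (l 16757888) (l 16764024))) (a (c (l 16760896) (l 16755432)) (a (l 16760744) (c (l 16764328) (l 16764200))))))) (b (b (a (c (l 16746200) (l 16745536)) (c (l 16755336) (l 16752880))) (a (c (l 16749192) (l 16748592)) (a (l 16754304) (a (l 16757040) (l 16758872))))) (b (a (c (l 16752152) (l 16751616)) (c (a (l 16757488) (l 16761088)) (a (l 16757080) (l 16760768)))) (a (c (l 16757712) (l 16754616)) (a (a (l 16759336) (l 16761144)) (a (l 16762960) (l 16760856)))))))), by decide +kernel⟩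

def k57_mm_202_t : ∃ t, chk3 f_mm_202_t t 120 71 2 = true :=
  ⟨(c (c (b (a (b (l 16745536) (l 16751584)) (a (c (l 16754576) (l 16751688)) (b (l 16753744) (l 16756504)))) (b (a (c (l 16751192) (l 16750920)) (a (l 16755944) (c (l 16759328) (l 16759152)))) (a (c (l 16756520) (l 16753656)) (a (l 16761280) (c (l 16764648) (l 16761872)))))) (b (a (b (l 16744848) (l 16747680)) (a (l 16752592) (b (l 16753248) (l 16756072)))) (b (a (l 16750496) (a (l 16755496) (l 16758864))) (a (l 16755904) (a (l 16758272) (l 16761640)))))) (a (c (b (b (l 16744128) (l 16747032)) (b (l 16749904) (l 16752760))) (b (l 16747496) (b (l 16749296) (l 16752216)))) (a (b (b (l 16748960) (l 16751888)) (b (l 16754792) (l 16757656))) (b (c (l 16755496) (l 16753680)) (c (b (l 16758480) (l 16761312)) (l 16754288)))))), by decide +kernel⟩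

def k58_mm_202_t : ∃ t, chk3 f_mm_202_t t 242 71 4 = true :=
  ⟨(c (b (a (b (l 16759696) (c (l 16759928) (l 16759752))) (b (c (l 16760528) (l 16760360)) (c (l 16764584) (l 16763136)))) (b (a (c (l 16765264) (l 16762496)) (c (b (l 16765312) (l 16767968)) (b (l 16765192) (l 16766560)))) (a (c (c (l 16766672) (l 16767928)) (l 16767840)) (a (b (l 16767120) (l 16769776)) (b (l 16770112) (a (l 16769728) (l 16770568))))))) (b (a (b (l 16756664) (l 16759480)) (b (l 16760104) (l 16765544))) (b (a (l 16762272) (c (l 16765760) (l 16765648))) (c (a (l 16765096) (a (l 16767648) (l 16769360))) (a (l 16764968) (l 16763176)))))), by decide +kernel⟩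

def k59_mm_202_t : ∃ t, chk3 f_mm_202_t t 243 142 4 = true :=
  ⟨(c (b (a (c (c (l 16766568) (l 16763880)) (l 16766408)) (a (b (l 16765728) (l 16767112)) (b (l 16767456) (l 16769824)))) (a (a (c (l 16765800) (l 16765688)) (c (l 16768480) (l 16767408))) (c (b (a (l 16768528) (l 16771560)) (a (l 16769888) (c (l 16772928) (l 16771592)))) (a (l 16770112) (b (l 16770176) (l 16771552)))))) (a (b (c (l 16763648) (l 16763512)) (c (l 16769064) (l 16766336))) (b (c (a (l 16766264) (l 16768016)) (l 16767040)) (a (c (l 16769056) (l 16768976)) (b (l 16770080) (l 16771472)))))), by decide +kernel⟩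

def k60_mm_202_t : ∃ t, chk3 f_mm_202_t t 486 143 8 = true :=
  ⟨(a (b (b (l 16767792) (l 16769808)) (a (b (l 16770072) (l 16772072)) (b (l 16772232) (a (l 16772056) (l 16773136))))) (b (c (b (l 16769536) (l 16772192)) (b (l 16769464) (l 16770824))) (c (b (c (l 16772896) (l 16772216)) (a (l 16773632) (b (l 16773656) (l 16774320)))) (b (l 16772176) (c (l 16770912) (l 16773520)))))), by decide +kernel⟩

def k61_mm_202_t : ∃ t, chk3 f_mm_202_t t 487 143 8 = true :=
  ⟨(a (b (b (c (l 16771896) (l 16771184)) (c (a (l 16772160) (l 16773672)) (l 16771240))) (a (b (b (l 16773152) (l 16774480)) (c (b (l 16775160) (a (l 16774960) (l 16774728))) (l 16773504))) (c (b (c (b (l 16774032) (l 16774704)) (l 16773040)) (a (c (b (l 16775152) (l 16775160)) (l 16774168)) (b (a (l 16775472) (l 16775680)) (b (l 16776072) (l 16775752))))) (b (l 16773024) (l 16774368))))) (b (b (a (c (l 16773184) (l 16772488)) (b (l 16773032) (l 16774368))) (a (b (l 16774176) (a (l 16773984) (l 16774416))) (c (b (l 16775056) (a (l 16774856) (l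 16775288))) (l 16773400)))) (b (c (a (a (b (l 16774672) (l 16775336)) (c (b (l 16775104) (l 16775112)) (l 16774120))) (a (b (a (l 16775424) (l 16775632)) (b (l 16776032) (l 16775712))) (b (b (l 16775792) (l 16776128)) (b (l 16776136) (l 16776792))))) (l 16775632)) (a (a (c (b (b (l 16775840) (l 16776168)) (l 16776632)) (l 16776328)) (b (c (b (l 16775616) (l 16776112)) (l 16773808)) (c (b (c (l 16777056) (l 16776928)) (a (b (l 16777072) (a (l 16777176) (l 117809611063))) (a (b (l 74859938039) (l 4)) (l 216056987847)))) (l 16777712)))) (b (a (b (l 16776696) (a (l 16776920) (b (l 16777056) (a (l 16777160) (l 105461580071))))) (b (c (a (l 16777016) (b (l 16777304) (a (l 94724161815) (l 4)))) (l 16777096)) (a (b (a (a (l 16777184) (l 16777344)) (l 146800640311)) (l 4)) (l 4)))) (c (a (b (a (a (b (l 16777120) (l 108145934647)) (b (l 69491228903) (l 4))) (l 211762020599)) (l 4)) (l 4)) (l 187065958871))))))), by decide +kernel⟩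

def k62_mm_202_t : ∃ t, chk3 f_mm_202_t t 243 143 9 = true :=
  ⟨(a (b (c (a (l 16768344) (l 16770072)) (l 16766512)) (a (c (l 16768464) (l 16771024)) (b (l 16772104) (l 16770856)))) (b (a (b (l 16771096) (l 16769856)) (b (l 16770240) (l 16771616))) (b (a (l 16771232) (l 16775608)) (a (l 16775224) (a (l 16776512) (b (l 16777664) (l 131768256151))))))), by decide +kernel⟩

def k63_mm_202_t : ∃ t, chk3 f_mm_202_t t 121 71 5 = true :=
  ⟨(b (b (a (c (a (l 16756232) (l 16759752)) (l 16752344)) (a (a (l 16762264) (l 16764064)) (c (l 16761648) (l 16766688)))) (a (c (a (l 16759112) (l 16762624)) (l 16755280)) (a (c (l 16760928) (l 16765944)) (c (c (l 16764544) (l 16769712)) (l 16764360))))) (a (a (c (b (l 16761960) (l 16764784)) (l 16756528)) (a (b (l 16764456) (l 16762064)) (b (l 16760992) (l 16765152)))) (a (c (b (l 16763768) (c (l 16766600) (l 16766544))) (l 16769952)) (b (c (l 16772584) (l 16772488)) (a (l 16774456) (b (l 16775568) (a (l 16776496) (l 62511909847)))))))), by decide +kernel⟩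

def k64_mm_202_t : ∃ t, chk3 f_mm_202_t t 60 70 3 = true :=
  ⟨(c (a (b (c (a (l 16731704) (l 16741632)) (a (l 16730632) (l 16741088))) (a (c (l 16737976) (l 16737064)) (a (c (l 16743408) (l 16742640)) (c (l 16747064) (l 16746392))))) (b (b (a (c (l 16744848) (l 16744136)) (c (l 16752368) (l 16754472))) (a (c (l 16747968) (l 16747328)) (a (l 16754648) (a (l 16756200) (l 16758112))))) (b (a (c (l 16751064) (l 16750496)) (c (a (l 16756664) (l 16760432)) (a (l 16756224) (l 16760080)))) (c (a (l 16754128) (a (l 16759712) (l 16763464))) (a (l 16753624) (a (l 16759336) (l 16763184))))))) (a (b (a (c (l 16729528) (c (l 16728672) (l 16728096))) (c (b (l 16735584) (l 16738880)) (b (l 16734624) (l 16737992)))) (a (c (b (l 16734480) (l 16737736)) (b (l 16733456) (l 16736800))) (a (b (l 16734544) (l 16743064)) (b (l 16743696) (l 16746960))))) (a (c (b (b (l 16743400) (l 16746672)) (b (l 16752528) (a (l 16751160) (l 16755048)))) (b (b (l 16743960) (c (l 16746160) (l 16745816))) (c (a (l 16749096) (l 16753064)) (b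 (l 16749144) (l 16755056))))) (b (c (c (a (l 16751088) (l 16755032)) (a (l 16750808) (l 16757424))) (a (b (l 16748720) (l 16752032)) (b (l 16752792) (l 16756088)))) (b (a (a (l 16754552) (l 16757200)) (c (l 16759728) (l 16760664))) (a (c (l 16758960) (l 16758568)) (c (l 16762888) (a (l 16761584) (l 16763600))))))))), by decide +kernel⟩

def k65_mm_202_t : ∃ t, chk3 f_mm_202_t t 60 142 3 = true :=
  ⟨(c (c (a (a (l 16746752) (b (l 16749832) (l 16752856))) (b (a (l 16751920) (c (l 16759424) (l 16754048))) (a (l 16753616) (c (l 16762392) (l 16757048))))) (a (a (b (l 16741800) (l 16744920)) (a (l 16748904) (l 16752632))) (a (a (l 16751136) (a (l 16759208) (l 16761096))) (a (c (l 16753536) (l 16758640)) (b (l 16766256) (l 16764048)))))) (b (a (a (c (l 16740968) (l 16740112)) (c (l 16748576) (l 16750216))) (a (c (a (l 16754336) (l 16758208)) (a (l 16753824) (l 16757792))) (c (a (l 16762104) (l 16760784)) (a (b (l 16760984) (l 16762584)) (c (l 16765848) (l 16761800)))))) (a (a (c (l 16744168) (l 16743392)) (a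 (l 16750184) (c (l 16753648) (l 16753120)))) (a (a (a (l 16756296) (l 16758240)) (c (l 16761344) (l 16762304))) (c (a (l 16759984) (l 16763880)) (a (a (l 16763968) (l 16765960)) (a (l 16762712) (l 16766024)))))))), by decide +kernel⟩

def k66_mm_202_t : ∃ t, chk3 f_mm_202_t t 60 143 3 = true :=
  ⟨(b (c (a (a (c (l 16748672) (l 16748016)) (a (l 16753784) (l 16752200))) (a (c (a (l 16761304) (l 16764976)) (a (l 16760960) (l 16764712))) (a (c (l 16758184) (l 16758008)) (c (l 16767152) (l 16767056))))) (a (a (c (l 16747336) (l 16746640)) (c (a (l 16752984) (l 16756784)) (a (l 16752432) (l 16756320)))) (a (a (c (l 16760600) (l 16760232)) (c (l 16764440) (a (l 16763176) (l 16765144)))) (a (c (l 16763064) (c (l 16762920) (l 16762824))) (a (b (l 16767760) (l 16769304)) (b (l 16769736) (l 16771272))))))) (a (a (c (c (l 16751656) (l 16751072)) (c (l 16750472) (l 16752472))) (a (c (l 16756792) (c (l 16756096) (l 16755616))) (c (l 16755192) (c (l 16759880) (l 16759488))))) (a (a (c (c (l 16764248) (l 16763968)) (c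 (l 16763680) (l 16758792))) (c (b (l 16761824) (l 16763304)) (c (l 16762264) (c (l 16767352) (l 16762000))))) (c (a (c (l 16766352) (l 16766232)) (a (l 16773040) (c (l 16777440) (l 16777416)))) (a (c (l 16766112) (a (l 16765000) (l 16769600))) (a (b (l 16770840) (l 16774992)) (a (b (l 16774936) (l 16776432)) (b (l 16775920) (b (l 16776976) (l 125862676487)))))))))), by decide +kernel⟩

def k67_mm_202_t : ∃ t, chk3 f_mm_202_t t 244 140 2 = true :=
  ⟨(a (c (c (b (c (l 16759600) (l 16759432)) (c (l 16763584) (l 16762296))) (b (l 16759176) (c (l 16762152) (l 16762008)))) (c (b (l 16758824) (l 16761784)) (b (l 16758456) (l 16761480)))) (b (c (c (c (b (l 16762400) (l 16763824)) (l 16764288)) (c (l 16762848) (l 16762712))) (c (l 16762504) (l 16762216))) (c (b (c (c (l 16766552) (l 16765128)) (l 16764960)) (c (c (l 16767632) (l 16766552)) (l 16769024))) (c (c (l 16765520) (l 16765408)) (l 16765232))))), by decide +kernel⟩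

def k68_mm_202_t : ∃ t, chk3 f_mm_202_t t 245 140 2 = true :=
  ⟨(c (b (b (a (c (c (l 16767264) (l 16765848)) (l 16768312)) (c (c (a (l 16768640) (l 16771104)) (a (l 16768568) (l 16770392))) (a (l 16768448) (l 16770296)))) (a (c (c (c (l 16768704) (l 16768664)) (l 16768592)) (c (l 16767192) (l 16767104))) (c (a (c (l 16770720) (l 16770000)) (c (a (l 16771416) (l 16772976)) (l 16773136))) (c (a (l 16769936) (l 16771776)) (l 16768176))))) (b (c (a (a (l 16768840) (c (l 16770992) (l 16769616))) (a (c (c (l 16772144) (l 16771464)) (l 16771424)) (a (b (l 16772456) (l 16773824)) (c (b (l 16773384) (l 16774744)) (l 16772392))))) (a (a (l 16767680) (l 16769512)) (a (l 16768728) (c (l 16770592) (l 16773176))))) (c (b (a (a (l 16768920) (l 16771368)) (c (a (l 16773192) (a (l 16773888) (c (l 16775128) (l 16774784)))) (a (l 16772496) (a (l 16773856) (l 16774768))))) (a (a (l 16769624) (c (l 16771440) (l 16771392))) (a (c (c (l 16773736) (l 16773232)) (l 16773200)) (a (c (c (l 16775248) (l 16774584)) (l 16774568))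 (c (a (l 16775600) (b (l 16775544) (l 16775896))) (l 16774168)))))) (a (a (l 16769128) (l 16770952)) (a (c (l 16772808) (l 16772768)) (c (l 16772680) (l 16772000))))))) (a (b (c (a (l 16765288) (l 16767152)) (l 16766008)) (c (c (l 16765280) (l 16763888)) (l 16763776))) (c (a (b (l 16763784) (l 16769352)) (b (l 16768288) (l 16773856))) (b (l 16764592) (l 16772840))))), by decide +kernel⟩

def k69_mm_202_t : ∃ t, chk3 f_mm_202_t t 244 141 2 = true :=
  ⟨(c (c (a (b (a (c (l 16764376) (l 16764256)) (c (l 16767432) (l 16766016))) (c (a (l 16768144) (b (l 16768208) (l 16769600))) (a (l 16767072) (l 16769808)))) (b (c (a (b (l 16767176) (l 16768568)) (b (l 16768936) (l 16771648))) (a (l 16769096) (b (l 16768864) (l 16770272)))) (b (c (a (l 16771272) (b (l 16771376) (l 16773384))) (a (l 16769896) (l 16771672))) (c (a (c (l 16772672) (l 16771336)) (a (l 16773320) (c (l 16774048) (l 16773544)))) (a (l 16771296) (a (l 16772624) (l 16773520))))))) (a (a (b (l 16764072) (l 16768232)) (b (l 16765856) (b (l 16768000)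 (l 16769416)))) (a (b (b (l 16766936) (l 16768368)) (b (l 16769792) (l 16771208))) (b (b (l 16768744) (l 16770176)) (b (l 16771600) (l 16770392)))))) (b (c (a (l 16759480) (c (l 16763192) (l 16768352))) (a (l 16764480) (l 16762976))) (a (c (c (l 16767680) (l 16767584)) (l 16767448)) (c (c (l 16767392) (l 16766024)) (l 16765936))))), by decide +kernel⟩

def k70_mm_202_t : ∃ t, chk3 f_mm_202_t t 490 282 2 = true :=
  ⟨(c (a (b (c (b (l 16771640) (l 16771688)) (l 16770560)) (c (c (a (l 16771664) (l 16773208)) (l 16773368)) (l 16769368))) (b (c (a (c (l 16772704) (l 16772000)) (b (l 16772568) (l 16773928))) (l 16769768)) (b (c (c (a (l 16773096) (l 16773992)) (l 16773512)) (l 16773456)) (c (c (a (l 16773792) (a (l 16774464) (l 16774912))) (l 16772904)) (l 16771552))))) (c (a (l 16768544) (l 16770408)) (l 16766760))), by decide +kernel⟩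

def k71_mm_202_t : ∃ t, chk3 f_mm_202_t t 491 282 16 = true :=
  ⟨(b (b (a (a (l 16773488) (l 16774712)) (b (a (l 16775440) (c (a (l 16775800) (l 16775920)) (l 16774704))) (a (c (l 16775800) (l 16775464)) (a (a (l 16776032) (l 16776256)) (a (l 16776152) (l 16776384)))))) (a (a (l 16774840) (a (l 16774864) (l 16775800))) (a (b (a (l 16775592) (l 16775552)) (c (a (l 16775944) (l 16775896)) (l 16775504))) (a (b (a (l 16776376) (l 16776280)) (l 16776840)) (a (b (l 16776504) (b (l 16777088) (a (a (l 16777176) (l 70564970743)) (l 151632478471)))) (a (b (l 16777000) (b (a (l 66270003447) (l 133378867431)) (l 4))) (b (a (l 16777088) (b (l 16776400) (l 61438165239))) (l 4)))))))) (a (a (a (b (l 16774664) (l 16775768)) (b (l 16775768) (b (l 16775632) (l 16775976)))) (c (b (a (l 16775888) (b (l 16775840) (l 16776184))) (a (b (l 16776080) (l 16775936)) (b (c (l 16776208) (l 16776536)) (l 16776960)))) (b (l 16774800) (l 16776480)))) (a (b (a (a (b (l 16776176) (l 16776192)) (b (l 16776400) (l 16776416))) (a (b (l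 16776296) (l 16776976)) (b (l 16776520) (b (l 16777232) (b (a (l 16777176) (l 156464316615)) (l 151632478471)))))) (a (a (b (l 16776544) (b (a (l 16777072) (l 16777336)) (a (a (l 16777280) (l 119420223703)) (l 4)))) (a (b (l 16777040) (c (b (l 121567707415) (l 4)) (l 148411253143))) (b (b (l 16777064) (a (l 16777200) (l 114051514567))) (l 4)))) (b (b (a (a (l 16777328) (c (l 117272740103) (l 16777248))) (l 4)) (l 220888826135)) (l 4)))) (b (a (b (a (a (l 16777016) (a (l 16777224) (b (l 16776416) (l 78081163527)))) (a (b (l 16777152) (l 155390574871)) (b (a (l 73249325319) (l 140358189303)) (l 4)))) (a (a (b (a (l 82913001735) (l 158611800279)) (l 4)) (l 4)) (l 4))) (l 4)) (l 4))))), by decide +kernel⟩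

def k72_mm_202_t : ∃ t, chk3 f_mm_202_t t 491 282 17 = true :=
  ⟨(a (a (b (l 16772496) (c (l 16773912) (l 16772592))) (b (c (l 16773408) (l 16774712)) (l 16776120))) (b (a (a (l 16774088) (l 16774544)) (b (l 16774872) (b (l 16776712) (a (l 16776840) (l 68417487655))))) (b (a (l 16777000) (a (b (l 16777472) (l 158611800759)) (l 4))) (a (a (b (l 16776968) (l 81839260423)) (l 185992216919)) (l 4))))), by decide +kernel⟩

def k73_mm_202_t : ∃ t, chk3 f_mm_202_t t 491 282 9 = true :=
  ⟨(a (b (c (l 16771616) (l 16771584)) (l 16775648)) (b (a (l 16775608) (b (l 16776176) (l 16777504))) (b (a (l 16776664) (a (l 74859939063) (l 4))) (a (a (l 16777096) (l 127473288487)) (l 4))))), by decide +kernel⟩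

def k74_mm_202_t : ∃ t, chk3 f_mm_202_t t 491 282 5 = true :=
  ⟨(b (c (l 16775584) (l 16775056)) (a (l 16775608) (c (a (l 16778224) (l 119957096951)) (l 60364425303)))), by decide +kernel⟩

def k75_mm_202_t : ∃ t, chk3 f_mm_202_t t 490 283 2 = true :=
  ⟨(c (c (a (b (b (a (l 16772688) (l 16773944)) (c (a (l 16773400) (l 16774944)) (l 16772504))) (b (c (a (l 16774744) (c (l 16775312) (l 16774976))) (l 16773200)) (c (c (a (l 16775440) (a (l 16775448) (a (l 16775784) (l 16775680)))) (a (l 16774776) (l 16774352))) (c (l 16773904) (l 16772584))))) (c (b (b (a (l 16774816) (c (a (l 16775160) (l 16775936)) (l 16774064))) (b (a (l 16775008) (a (l 16775672) (l 16775792))) (a (c (l 16775352) (l 16775344)) (c (a (l 16776024) (l 16775976)) (l 16774928))))) (a (b (a (b (l 16775472) (l 16775816)) (b (l 16775920) (a (l 16776152) (l 16776376)))) (c (b (a (l 16776168) (c (l 16776280) (l 16775952))) (a (l 16776016) (a (l 16776512) (a (l 16777008) (b (l 16777032) (l 16777312)))))) (l 16776552))) (b (b (a (c (l 16776040)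 (l 16776368)) (l 16776816)) (a (a (l 16776272) (l 16776496)) (a (c (b (l 16776304) (l 16777288)) (l 16777040)) (a (b (l 16777128) (l 125862674711)) (b (a (l 16777200) (l 111904030935)) (l 4)))))) (b (b (a (l 16776968) (a (a (a (l 16777368) (l 122104578263)) (l 4)) (l 4))) (a (a (l 16777032) (a (l 16777352) (l 130694512935))) (l 4))) (a (a (a (b (l 16777144) (l 139821318439)) (b (a (l 16777288) (l 127473287399)) (l 4))) (l 4)) (l 4)))))) (a (b (c (l 16773504) (l 16774808)) (l 16776200)) (a (b (l 16774176) (b (l 16775224) (b (l 16777040) (l 103850967831)))) (b (l 16774624) (b (l 16777288) (l 198877118887))))))) (a (c (b (l 16770808) (l 16772216)) (l 16771488)) (b (l 16775232) (b (l 16776280) (a (l 16776544) (a (l 16777136) (l 147874383047))))))) (c (a (l 16774064) (b (l 16775200) (a (l 16776168) (l 16778288)))) (a (l 16774000) (l 16777136)))), by decide +kernel⟩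

def k76_mm_202_t : ∃ t, chk3 f_mm_202_t t 491 283 2 = true :=
  ⟨(b (a (a (c (a (c (c (c (b (b (l 16775880) (l 16776224)) (c (b (l 16776248) (a (l 16776480) (l 16777104))) (l 16776744))) (l 16776392)) (l 16776392)) (l 16776376)) (b (c (b (b (l 16775904) (l 16776000)) (c (a (l 16776232) (l 16776456)) (l 16776672))) (l 16776480)) (c (a (b (l 16776904) (a (b (l 16777112) (a (l 85060485399) (l 150558736647))) (b (a (l 16777184) (l 83449872647)) (l 4)))) (b (b (l 16777040) (a (l 16777320) (a (l 78618034439) (l 144653156599)))) (c (c (l 212298891511) (l 174717927911)) (l 176328540647)))) (l 16777120)))) (l 16776552)) (b (c (c (c (a (b (l 16776776) (a (c (l 16777088) (l 16777008)) (a (b (l 16777088) (a (l 67880616183) (l 134452609255))) (b (a (l 16777168) (l 63048777975)) (l 4))))) (b (a (a (l 16777056) (b (l 16777080) (a (l 16777328) (l 124252061927)))) (b (a (l 16777344) (l 128010158375)) (l 4))) (a (a (l 201561473191) (l 4)) (l 4)))) (a (l 16777256) (b (l 16777488) (l 167201735399)))) (a (l 16776920) (l 80765519143)))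 (l 16777072)) (a (a (b (b (c (a (b (l 16777168) (l 89892323607)) (b (l 133915738343) (l 4))) (l 16777224)) (l 4)) (l 4)) (l 4)) (l 4)))) (l 4)) (b (a (c (a (a (c (b (b (a (l 16777064) (a (a (l 16777352) (l 89892323607)) (l 168812347671))) (a (a (l 16777336) (a (l 94724161815) (l 169886089447))) (l 4))) (c (c (l 221962568039) (l 222499438951)) (l 184381604535))) (l 90429195511)) (l 4)) (l 4)) (l 183844733687)) (l 4)) (l 4))), by decide +kernel⟩

def k77_mm_202_t : ∃ t, chk3 f_mm_202_t t 488 142 4 = true :=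
  ⟨(b (a (c (c (b (l 16769232) (l 16771920)) (b (l 16769160) (l 16770544))) (c (l 16769784) (l 16769712))) (b (c (b (l 16771912) (l 16771944)) (l 16770824)) (c (c (a (l 16771912) (l 16773440)) (c (l 16772312) (l 16772288))) (l 16769608)))) (b (a (c (c (b (l 16771632) (l 16773624)) (l 16771928)) (l 16771848)) (c (a (b (l 16772920) (l 16774256)) (c (b (l 16773808) (l 16775144)) (l 16774120))) (l 16771008))) (a (c (a (c (l 16773560) (l 16772864)) (b (l 16774064) (a (l 16773872) (l 16774312)))) (l 16770624)) (c (c (b (a (l 16774952) (a (l 16774952) (a (l 16775280) (l 16775496)))) (a (a (l 16774760) (l 16775192)) (a (a (l 16775520) (l 16775736)) (b (l 16775896) (l 16775576))))) (a (l 16773304) (l 16774184))) (l 16775024))))), by decide +kernel⟩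

def k78_mm_202_t : ∃ t, chk3 f_mm_202_t t 978 142 8 = true :=
  ⟨(b (b (a (c (l 16772944) (l 16772240)) (b (l 16772800) (l 16774144))) (a (c (b (l 16773312) (l 16774000)) (l 16773624)) (c (b (l 16774848) (a (l 16774656) (l 16775096))) (l 16773200)))) (a (c (b (a (b (l 16774464) (l 16775144)) (c (b (l 16774904) (l 16775584)) (l 16773928))) (b (a (b (l 16775656) (l 16775992)) (b (l 16776088) (l 16775936))) (a (b (l 16776008) (c (l 16776344) (l 16776672))) (a (c (l 16776912) (l 16776824)) (b (l 16776552) (b (l 16777288) (a (l 84523614455) (l 4)))))))) (b (l 16773696) (b (l 16774720) (l 16776704)))) (b (c (b (a (l 16775664) (b (l 16775608) (l 16775952))) (b (a (l 16775848) (l 16775960)) (c (a (l 16776192) (l 16776304)) (l 16775096)))) (l 16775888)) (b (b (c (b (l 16776664) (a (l 16775960) (a (l 16776288) (a (l 16777104) (l 53385101575))))) (l 16776744)) (a (c (l 16776872) (l 16776864)) (c (a (b (l 16777104) (a (l 70564970727) (l 162906767639))) (a (b (l 101703483687) (l 4)) (l 4))) (l 77007422199)))) (a (b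 (c (a (a (l 16777040) (b (l 16777072) (l 75396808951))) (b (a (l 16777168) (l 108682805559)) (l 181160378711))) (l 16777160)) (a (a (b (l 120493965623) (l 4)) (l 4)) (l 4))) (l 4)))))), by decide +kernel⟩

def k79_mm_202_t : ∃ t, chk3 f_mm_202_t t 979 142 8 = true :=
  ⟨(a (c (b (b (b (l 16773704) (l 16775040)) (b (a (l 16774856) (l 16775624)) (a (a (l 16775424) (l 16775648)) (b (l 16775808) (l 16775496))))) (b (b (b (c (a (l 16776048) (l 16776160)) (l 16774952)) (a (l 16775896) (l 16776832))) (b (b (a (l 16776320) (b (l 16777120) (a (l 16776360) (a (l 16777176) (l 148948123847))))) (a (l 16776488) (a (a (l 16777088) (l 16777352)) (a (l 131768254759) (l 4))))) (b (a (l 16776984) (a (a (l 91502936327) (l 4)) (l 4))) (a (a (l 16777040) (a (l 16777320) (l 147874382087))) (l 4))))) (b (a (a (b (b (a (l 16777152) (l 96871645463)) (l 164517380455)) (l 4)) (l 4)) (l 4)) (l 4)))) (b (b (l 16774016) (c (l 16774096) (l 16772776))) (a (b (l 16776872) (b (l 182234120503) (l 4))) (b (b (l 16776656) (a (l 51237618535)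 (l 111367160727))) (l 4))))) (b (c (b (b (l 16774912) (c (a (l 16775056) (l 16775496)) (l 16775264))) (a (b (b (l 16775560) (l 16775904)) (b (l 16775920) (c (l 16776264) (l 16776584)))) (b (b (l 16776008) (a (l 16776240) (l 16776456))) (a (l 16776712) (b (l 16776472) (a (l 16777200) (b (l 16777112) (l 104387838247)))))))) (b (l 16773592) (l 16776528))) (b (b (b (a (a (l 16776816) (a (l 16776984) (b (l 16777008) (l 16777336)))) (c (a (a (b (l 16777120) (l 111367160119)) (b (a (l 16777192) (l 105461579975)) (l 4))) (l 214983246071)) (l 95261033239))) (a (c (a (b (l 16777072) (a (l 16777344) (l 125862674711))) (a (b (a (l 16777200) (l 102777225463)) (l 4)) (l 216593858775))) (l 16777520)) (l 4))) (l 4)) (l 4)))), by decide +kernel⟩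

def k80_mm_202_t : ∃ t, chk3 f_mm_202_t t 489 142 9 = true :=
  ⟨(b (a (b (l 16770000) (l 16772056)) (b (c (l 16771816) (l 16769168)) (l 16775824))) (a (b (l 16775424) (a (l 16776352) (b (l 16776872) (c (l 109219677671) (l 16778008))))) (a (b (b (l 16776424) (c (l 16777696) (l 16777040))) (l 198340248375)) (b (a (b (l 16777048) (l 4)) (l 189213442631)) (l 4))))), by decide +kernel⟩

def k81_mm_202_t : ∃ t, chk3 f_mm_202_t t 244 142 5 = true :=
  ⟨(a (c (b (c (l 16765304) (l 16765240)) (l 16773368)) (b (l 16765136) (l 16773288))) (b (c (b (l 16770832) (l 16774880)) (l 16774112)) (a (b (l 16775368) (c (c (l 16778000) (l 16776680)) (l 16776672))) (b (a (l 16776696) (a (l 68954360327) (l 128010160615))) (l 208003925159))))), by decide +kernel⟩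

def k82_mm_202_t : ∃ t, chk3 f_mm_202_t t 488 572 2 = true :=
  ⟨(b (c (c (a (c (a (l 16773920) (c (l 16775440) (l 16774776))) (l 16773008)) (c (c (a (a (l 16775440) (c (l 16775216) (l 16775872))) (a (b (l 16776136) (l 16775816)) (b (l 16776248) (l 16776992)))) (l 16776080)) (l 16776072))) (l 16775168)) (l 16775112)) (c (c (c (a (a (l 16775248) (a (l 16775240) (a (l 16775568) (l 16775128)))) (a (c (a (a (l 16776000) (l 16775560)) (b (l 16775720) (l 16776384))) (l 16775672)) (b (a (l 16776808) (a (a (l 16777080) (b (l 16777104) (l 100629741863))) (b (a (l 63585648855) (l 154853703943)) (l 4)))) (b (a (a (l 16776296) (a (l 16777112) (l 68954357991))) (l 214446375175)) (a (a (l 16777112) (a (l 107609063735) (l 4))) (l 4)))))) (a (l 16773696) (a (l 16775008) (a (l 16776952) (a (l 77544293175) (l 140358189895)))))) (a (l 16772352) (c (a (l 16773688) (l 16777760)) (l 16776688)))) (c (l 16775800) (l 16775768)))), by decide +kernel⟩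

def k83_mm_202_t : ∃ t, chk3 f_mm_202_t t 488 573 2 = true :=
  ⟨(c (a (a (c (c (a (c (b (l 16775056) (l 16775072)) (l 16774072)) (b (a (l 16775376) (l 16775592)) (b (l 16775984) (l 16775664)))) (l 16774272)) (l 16775560)) (c (b (c (a (b (l 16775744) (l 16776080)) (b (l 16775520) (l 16776024))) (l 16774808)) (c (b (a (l 16776088) (l 16776848)) (a (c (l 16776424) (l 16775440)) (a (c (b (l 16776336) (l 16777312)) (l 16777072)) (b (a (l 16777152) (l 94187290903)) (l 162369896807))))) (l 16777272))) (l 16776432))) (a (b (c (a (c (a (b (l 16776504) (l 16776512)) (b (l 16776064) (b (l 16776320) (l 16777296)))) (l 16776776)) (b (a (l 16776936) (b (l 16777072) (a (l 16777336) (l 119420223799)))) (a (a (b (l 16777136) (l 124788932935)) (b (c (l 83449872631) (l 16777216)) (l 4))) (l 218741342471)))) (l 16776944)) (b (a (c (c (a (b (l 16777088) (a (l 16777352) (l 144653156615))) (a (b (l 88818581767) (l 4)) (l 4))) (l 16777536)) (l 16777208)) (l 4)) (l 4))) (c (b (c (a (b (b (a (a (l 78081163495) (l 178476024055))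 (l 4)) (l 4)) (l 4)) (l 4)) (l 203172086359)) (l 4)) (l 205319570311)))) (a (l 16775960) (a (l 53385103079) (l 161833028375)))), by decide +kernel⟩

def k84_mm_202_t : ∃ t, chk3 f_mm_202_t t 489 286 2 = true :=
  ⟨(a (a (b (b (c (b (c (a (a (l 16776896) (a (l 16777144) (b (l 16777088) (a (l 16777328) (l 130157641959))))) (a (b (a (l 16777352) (l 125862674759)) (l 4)) (l 4))) (l 16777128)) (c (c (a (c (a (b (l 16777304) (a (l 92576678167) (l 4))) (l 205319569639)) (a (l 16777512) (l 168812347863))) (l 4)) (l 175254798631)) (l 118346482935))) (l 16777216)) (l 4)) (l 4)) (l 4)) (l 4)), by decide +kernel⟩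

def k85_mm_202_t : ∃ t, chk3 f_mm_202_t t 244 287 2 = true :=
  ⟨(a (a (c (c (b (b (a (c (a (b (l 16775568) (l 16776064)) (a (l 16776712) (a (l 16776872) (b (l 16776160) (b (l 16777072) (l 78081163495)))))) (l 16776600)) (a (a (b (l 16776976) (b (a (l 16777168) (l 110293418295)) (l 169349218727))) (c (b (b (l 16777104) (a (l 68417487079) (l 160222413079))) (l 4)) (l 88818582407))) (c (b (a (a (b (l 100092870951) (l 4)) (l 4)) (l 4)) (l 4)) (l 204245828023)))) (a (c (b (a (l 16776888) (a (b (l 16777128) (a (l 83449872631) (l 195119022295))) (c (l 198340247751) (l 160759284167)))) (a (a (a (l 16777064) (b (l 16777088) (l 88818581767))) (b (a (l 16777184) (l 128547029287)) (l 4))) (l 4))) (a (l 16777680) (a (l 93113549719) (l 163980510023)))) (l 4))) (a (b (a (a (b (c (l 205856440535) (l 16777320)) (l 4)) (l 4)) (l 4)) (l 4)) (l 4))) (b (a (b (l 16776592) (l 55532585303)) (b (l 86134227975) (l 4))) (l 219815085383))) (b (a (l 16776840) (l 102240357447)) (l 218741343543))) (l 4)) (l 4)), by decide +kernel⟩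

def k86_mm_202_t : ∃ t, chk3 f_mm_202_t t 980 284 4 = true :=
  ⟨(c (b (b (c (a (a (l 16775576) (b (l 16775520) (l 16775864))) (b (c (a (l 16775968) (l 16776080)) (l 16774872)) (a (a (l 16776192) (l 16776416)) (a (l 16776312) (l 16776536))))) (l 16775904)) (a (c (b (a (l 16775760) (l 16775880)) (c (a (l 16776104) (l 16776056)) (l 16775016))) (l 16774832)) (b (c (a (a (l 16775880) (l 16776432)) (a (l 16776984) (b (l 16777192) (a (a (l 16777192) (l 110293418183)) (l 186529087703))))) (l 16776856)) (a (a (l 16776880) (a (l 16777128) (b (l 16777072) (a (l 16777368) (l 101703483687))))) (a (b (a (l 16777336) (a (l 96871645479) (l 174181056743))) (l 178476024199)) (l 4)))))) (b (a (b (c (c (a (l 16776120) (l 16776888)) (l 16776664)) (l 16776664)) (b (c (a (l 16776376) (a (l 16777040) (a (l 16777352) (l 134989480231)))) (l 16776912)) (a (l 16776872) (a (a (l 16777144) (a (l 71101841655) (l 136600092903))) (l 4))))) (a (b (b (c (a (c (l 16777296) (l 16777128)) (a (l 129620771095) (l 4))) (l 16777192)) (a (a (a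 (l 65196261607) (l 126399545575)) (l 4)) (l 4))) (l 4)) (l 4))) (a (b (b (a (a (l 16776936) (a (l 16777104) (a (l 16777176) (l 76470550775)))) (c (c (l 209077666055) (l 174181057015)) (l 175254798839))) (a (a (l 16777184) (a (a (l 77007421703) (l 143042543863)) (l 4))) (l 4))) (a (b (a (a (a (l 16777184) (l 82376130823)) (l 151632478519)) (l 4)) (l 4)) (l 4))) (l 4)))) (a (b (l 16775784) (b (l 16776808) (c (l 93650420631) (l 16777960)))) (b (b (l 16776336) (l 16777960)) (a (l 184381604391) (l 4))))), by decide +kernel⟩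

def k87_mm_202_t : ∃ t, chk3 f_mm_202_t t 981 284 4 = true :=
  ⟨(a (b (a (b (c (c (b (l 16776848) (a (a (l 16777024) (a (l 16777192) (b (l 16777080) (l 83986743559)))) (b (a (l 16777160) (a (l 78618034439) (l 153779962071))) (l 167738605943)))) (l 16777480)) (l 16776984)) (a (a (b (b (b (l 77544292615) (l 4)) (l 4)) (l 4)) (l 4)) (l 4))) (b (b (c (a (b (l 16777216) (a (a (l 16777184) (l 77007421703)) (l 147337511223))) (a (b (a (l 76470550775) (l 137673834743)) (l 4)) (l 4))) (l 16777208)) (l 4)) (l 4))) (l 4)) (l 4)), by decide +kernel⟩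

def k88_mm_202_t : ∃ t, chk3 f_mm_202_t t 490 284 5 = true :=
  ⟨(b (a (c (l 16776184) (l 16776160)) (c (a (l 80228649527) (l 4)) (l 103314099671))) (a (a (c (l 16778344) (l 16777024)) (l 131768257495)) (l 4))), by decide +kernel⟩

def k89_mm_202_t : ∃ t, chk3 f_mm_202_t t 490 285 2 = true :=
  ⟨(l 4), by decide +kernel⟩

def k90_mm_202_t : ∃ t, chk3 f_mm_202_t t 491 142 2 = true :=
  ⟨(l 4), by decide +kernel⟩

def k91_mm_202_t : ∃ t, chk3 f_mm_202_t t 245 143 2 = true :=
  ⟨(l 4), by decide +kernel⟩

def k92_mm_202_t : ∃ t, chk3 f_mm_202_t t 492 280 8 = true :=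
  ⟨(a (b (a (c (l 16772464) (l 16771760)) (b (l 16772344) (l 16773392))) (b (c (a (l 16772880) (l 16773792)) (l 16773296)) (c (a (l 16773584) (c (l 16775160) (l 16774488))) (a (l 16773552) (l 16774472))))) (a (b (b (l 16773592) (a (l 16773752) (l 16774536))) (b (c (a (l 16774472) (l 16774928)) (l 16774680)) (c (a (l 16775512) (b (l 16775464) (l 16775816))) (l 16774080)))) (b (b (a (l 16773952) (l 16774664)) (c (a (l 16774680) (l 16775464)) (l 16774888))) (c (b (a (a (l 16775272) (l 16775832)) (b (l 16775672) (a (l 16775912) (l 16776136)))) (a (b (l 16775920) (a (l 16776160) (l 16776392))) (c (a (b (l 16776264) (l 16776288)) (b (l 16776496) (l 16776520))) (l 16775896)))) (l 16775880))))), by decide +kernel⟩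

def k93_mm_202_t : ∃ t, chk3 f_mm_202_t t 984 281 8 = true :=
  ⟨(c (b (b (a (l 16774624) (c (a (l 16774984) (l 16775760)) (l 16774544))) (b (a (l 16774824) (a (l 16775504) (l 16775960))) (a (l 16775504) (a (l 16775856) (a (l 16776200) (l 16776424)))))) (a (b (a (c (l 16775808) (l 16775472)) (b (l 16775752) (a (l 16775992) (l 16776216)))) (b (c (a (l 16776000) (c (l 16775968) (l 16776456))) (l 16775568)) (a (a (l 16776240) (l 16776464)) (l 16776808)))) (b (a (a (b (l 16776096) (l 16776448)) (b (l 16776320) (l 16776344))) (a (b (l 16776224) (l 16776904)) (b (l 16776448) (b (l 16777040) (a (l 16777152) (a (l 73249325319) (l 140358189303))))))) (a (b (a (l 16776472) (b (l 16776608) (l 16777232))) (b (a (l 16777056) (a (a (l 16777192) (l 103850967239)) (l 164517380375))) (a (a (l 16777328) (a (l 108682805447) (l 168812347607))) (l 4)))) (b (a (b (a (l 16777104) (a (l 16777184) (l 78081163527))) (a (a (l 82376130823) (l 159148671191)) (l 4))) (c (l 212298891511) (l 174717927911))) (l 4)))))) (b (a (c (l 16773320)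 (l 16774616)) (b (l 16775184) (l 16774584))) (a (l 16776040) (b (l 16776600) (a (b (l 16776904) (l 59827553015)) (b (l 89892324151) (l 4))))))), by decide +kernel⟩

def k94_mm_202_t : ∃ t, chk3 f_mm_202_t t 985 281 8 = true :=
  ⟨(b (b (c (a (b (c (a (l 16775712) (l 16775840)) (l 16775280)) (a (a (l 16775952) (l 16776176)) (a (l 16776408) (l 16776312)))) (a (b (a (l 16776184) (l 16776416)) (b (l 16776888) (a (l 16776624) (a (l 16777120) (a (l 16777280) (l 115125256391)))))) (b (a (l 16776968) (b (c (l 16777232) (l 16777104)) (a (a (l 16777352) (l 105461579975)) (l 174181056759)))) (b (a (a (l 16777328) (a (l 110293418183) (l 166664863975))) (l 4)) (l 221962567959))))) (a (l 16774800) (b (l 16777168) (a (l 16776968) (l 117809611511))))) (a (b (c (c (c (a (l 16775928) (l 16776952)) (l 16776648)) (l 16776640)) (l 16776640)) (b (c (a (l 16776352) (a (l 16777024) (a (a (l 16777160) (l 55532585191)) (a (l 124788932823) (l 4))))) (l 16776896)) (a (l 16776856) (a (a (l 16777136) (b (l 16777200) (l 159685542087)))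 (l 4))))) (a (b (a (b (a (l 16777072) (b (l 16777144) (l 59290681591))) (a (b (l 16777192) (l 139284447463)) (l 4))) (a (b (b (l 93650419943) (l 4)) (l 4)) (l 4))) (l 4)) (l 4)))) (a (b (b (c (b (b (a (l 16776984) (a (l 152169349383) (l 4))) (a (a (l 16776960) (a (l 16777136) (l 93113548983))) (l 4))) (a (a (l 16777168) (a (a (l 66270003447) (l 133915738343)) (l 4))) (l 4))) (a (l 16777088) (l 167201735399))) (b (a (c (a (a (a (l 16777176) (l 71101841655)) (l 152169349383)) (l 4)) (l 111367160439)) (l 4)) (l 4))) (l 4)) (l 4))), by decide +kernel⟩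

def k95_mm_202_t : ∃ t, chk3 f_mm_202_t t 492 140 9 = true :=
  ⟨(b (c (b (a (l 16772176) (l 16772072)) (a (l 16771000) (l 16775488))) (b (a (l 16772136) (l 16771392)) (l 16774528))) (a (b (l 16774928) (b (l 16776128) (a (l 16776384) (a (l 16777040) (l 115125257431))))) (a (b (c (l 16776768) (l 16776432)) (a (b (l 58753811719) (l 4)) (l 213372633879))) (b (b (a (l 16776784) (l 51774489863)) (l 180086636983)) (l 4))))), by decide +kernel⟩

def k96_mm_202_t : ∃ t, chk3 f_mm_202_t t 492 140 5 = true :=
  ⟨(b (c (b (c (l 16770416) (l 16767760)) (l 16774496)) (l 16773696)) (a (b (l 16774992) (c (a (l 16776008) (l 16778168)) (l 16776392))) (b (a (l 16776408) (b (l 16776952) (l 117809612807))) (a (c (l 109756549063) (l 108145936967)) (l 4))))), by decide +kernel⟩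

def k97_mm_202_t : ∃ t, chk3 f_mm_202_t t 1972 280 4 = true :=
  ⟨(c (b (b (c (c (a (l 16774896) (l 16775680)) (l 16774456)) (l 16775096)) (c (a (c (l 16775808) (l 16775592)) (b (l 16775880) (a (l 16776120) (l 16776352)))) (l 16774504))) (b (c (c (b (a (l 16776136) (a (l 16776480) (l 16776376))) (b (a (l 16776400) (l 16776528)) (a (l 16776248) (a (l 16776592) (a (l 16777088) (a (l 16777168) (l 62511907063))))))) (a (l 16775648) (l 16776760))) (l 16776528)) (a (b (c (c (l 16776840) (l 16776840)) (l 16776832)) (c (a (a (l 16777016) (b (l 16777048) (b (l 16777176) (l 107072192727)))) (a (b (l 16777320) (l 157538058519)) (b (b (l 16777296) (l 4)) (l 4)))) (l 16777552))) (b (a (c (b (l 16777176) (a (b (l 16777168) (l 101166612679)) (l 154316833031))) (l 16777152)) (b (b (a (l 16777328) (l 4)) (l 177402282295)) (l 4))) (l 4))))) (b (l 16773800) (b (l 16776520) (a (l 16776976) (l 95797904679))))), by decide +kernel⟩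

def k98_mm_202_t : ∃ t, chk3 f_mm_202_t t 1973 280 4 = true :=
  ⟨(b (b (c (c (b (c (a (l 16775632) (l 16776096)) (l 16775200)) (a (l 16776312) (a (l 16776336) (l 16776232)))) (l 16774720)) (l 16773392)) (c (b (c (a (a (l 16776224) (l 16776128)) (c (l 16776808) (l 16776144))) (l 16776568)) (b (a (a (l 16776488) (l 16776392)) (a (l 16776952) (b (l 16777256) (a (l 16777168) (l 131768254695))))) (a (l 16776784) (a (a (l 16777072) (b (l 16777144) (l 62511907063))) (a (b (l 94187290871) (l 4)) (l 4)))))) (l 16776720))) (b (c (b (b (a (c (c (l 16777040) (l 16776960)) (l 16776960)) (a (a (b (l 16777200) (l 152169349319)) (l 4)) (l 4))) (a (a (l 16777024) (a (b (l 16777152) (l 79691776215)) (a (l 127473287399) (l 4)))) (l 4))) (a (a (b (a (l 16777224) (b (l 16777280) (l 157538058455))) (a (a (l 136063221991) (l 4)) (l 4))) (l 4)) (l 4))) (a (l 45868909783) (l 147337512151))) (l 4))), by decide +kernel⟩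

def k99_mm_202_t : ∃ t, chk3 f_mm_202_t t 987 280 4 = true :=
  ⟨(a (b (a (c (b (c (c (a (b (l 16776440) (l 16776464)) (b (l 16776344) (b (l 16776608) (c (l 16777232) (l 16777112))))) (l 16776728)) (l 16776728)) (b (a (b (l 16777056) (a (b (l 16777136) (l 54995714279)) (b (l 87207968999) (l 4)))) (b (a (b (l 16777184) (l 125862674647)) (l 168275476775)) (l 4))) (c (a (l 221962567943) (l 4)) (l 221962568055)))) (b (l 16776720) (l 89892324615))) (b (c (b (a (l 16776816) (b (l 16777040) (a (c (l 16777240) (l 16777160)) (b (l 64659390711) (l 4))))) (a (a (b (l 16777112) (b (l 81839259863) (l 4))) (b (b (l 16777176) (l 115662127319)) (l 4))) (c (c (l 215520116983) (l 176328540663)) (l 176865411575)))) (l 16777776)) (l 4))) (l 4)) (a (b (c (b (c (b (b (a (a (b (l 16777168) (l 106535321799)) (l 153779962135)) (l 4)) (l 4)) (l 4)) (l 194045280647)) (l 4)) (l 201024602823)) (l 4)) (l 4))), by decide +kernel⟩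

def k100_mm_202_t : ∃ t, chk3 f_mm_202_t t 493 280 5 = true :=
  ⟨(a (b (c (l 16775872) (l 16775848)) (a (c (l 16778104) (l 16776784)) (b (l 75933681655) (l 4)))) (b (a (b (l 16776896) (l 109756549063)) (l 201024602999)) (l 4))), by decide +kernel⟩

def k101_mm_202_t : ∃ t, chk3 f_mm_202_t t 493 281 2 = true :=
  ⟨(b (b (b (b (b (a (c (a (c (a (a (a (l 67880616199) (l 4)) (l 4)) (l 4)) (l 162369897399)) (l 4)) (l 168812349479)) (l 4)) (l 4)) (l 4)) (l 4)) (l 4)) (l 4)), by decide +kernel⟩

def k102_mm_202_t : ∃ t, chk3 f_mm_202_t t 246 141 2 = true :=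
  ⟨(a (a (b (b (b (a (c (a (c (c (b (a (l 16776256) (l 16776488)) (c (b (l 16776960) (a (l 16777024) (a (l 16777344) (l 137673834743)))) (l 16777360))) (l 16776864)) (l 16776856)) (a (c (a (b (l 16776984) (b (b (l 16777192) (l 137673834727)) (l 4))) (b (b (l 16777008) (b (l 16777144) (l 16777288))) (l 219815084247))) (l 16777152)) (b (c (a (b (l 16777120) (b (l 92039807207) (l 4))) (b (b (l 16777184) (l 125862674663)) (l 4))) (l 16777208)) (l 4)))) (l 16777016)) (c (c (a (c (b (a (l 218741342471) (l 4)) (l 4)) (l 221962568199)) (l 4)) (l 222499439303)) (l 175254800183))) (b (c (a (c (c (a (a (a (b (l 16777136) (l 136063222055)) (b (a (l 59290681575) (l 123178320103)) (l 4))) (l 4)) (l 4)) (l 183307862375)) (l 125325804855)) (l 4)) (l 153243093335)) (l 4))) (l 4)) (l 4)) (l 4)) (l 4)), by decide +kernel⟩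

def k103_mm_202_t : ∃ t, chk3 f_mm_202_t t 247 70 2 = true :=
  ⟨(l 4), by decide +kernel⟩

def k104_mm_202_t : ∃ t, chk3 f_mm_202_t t 123 71 2 = true :=
  ⟨(l 4), by decide +kernel⟩

def k105_mm_202_t : ∃ t, chk3 f_mm_202_t t 244 70 3 = true :=
  ⟨(a (b (c (c (b (l 16758080) (l 16761168)) (b (l 16757688) (l 16760840))) (b (c (l 16757288) (l 16756880)) (c (l 16760504) (c (l 16760248) (l 16760080))))) (b (c (c (l 16764224) (l 16763960)) (c (l 16758448) (a (l 16762400) (l 16764432)))) (b (c (l 16761144) (c (l 16766056) (l 16765832))) (c (l 16763976) (c (l 16767624) (l 16764808)))))) (b (c (b (c (l 16761920) (l 16761616)) (c (l 16765000) (l 16764760))) (c (b (l 16761312) (a (l 16763504) (l 16765512))) (b (c (l 16761072) (l 16760904)) (b (l 16763440) (l 16765064))))) (c (b (c (l 16762808) (l 16762624)) (c (l 16765824) (l 16765704))) (b (a (c (l 16766680) (l 16763192)) (c (l 16768680) (b (l 16767704) (l 16769312)))) (a (b (l 16766336) (l 16767912)) (c (l 16766576) (a (l 16768576) (l 16769592)))))))), by decide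 +kernel⟩

def k106_mm_202_t : ∃ t, chk3 f_mm_202_t t 245 70 3 = true :=
  ⟨(a (b (c (c (b (l 16760552) (l 16763624)) (b (l 16760336) (l 16763456))) (a (b (c (l 16764336) (l 16764080)) (c (l 16767528) (b (l 16766528) (l 16768144)))) (c (b (l 16766360) (l 16764304)) (b (b (l 16765328) (l 16766960)) (c (l 16769432) (l 16766736)))))) (c (b (c (l 16766656) (l 16766552)) (b (c (l 16774160) (l 16774096)) (c (l 16776896) (l 16776536)))) (b (c (c (l 16766480) (l 16767408)) (c (b (l 16765568) (l 16767168)) (a (l 16767904) (l 16769312)))) (a (c (l 16773816) (c (l 16768520) (l 16770456))) (b (c (l 16775040) (l 16775000)) (a (l 16776080) (b (l 16776680) (a (l 16777112) (l 141431932407))))))))) (b (c (b (c (l 16764456) (c (l 16764352) (l 16764280))) (c (l 16772432) (c (l 16767448) (l 16767408)))) (a (b (c (l 16763152) (b (l 16767408) (l 16769032))) (c (l 16768952) (b (l 16770656) (l 16769648)))) (b (c (l 16767808) (b (l 16769488) (l 16771112))) (c (c (l 16768376) (l 16768344)) (b (l 16770104) (l 16771712)))))) (b (a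 (c (c (l 16774808) (l 16774760)) (c (l 16774064) (b (l 16771248) (l 16775464)))) (a (c (c (l 16776192) (l 16776168)) (b (l 16775104) (b (l 16776600) (a (l 16777072) (l 125325805047))))) (b (c (l 16776456) (c (l 16776432) (l 16776904))) (a (b (c (l 16777216) (l 66806875751)) (l 4)) (l 4))))) (a (b (c (c (l 16778176) (l 16778856)) (a (c (l 16776504) (b (l 16776144) (l 16776872))) (b (a (l 16776888) (l 79691777527)) (l 201561473559)))) (a (a (b (c (l 16777264) (l 85060486695)) (l 4)) (l 4)) (l 4))) (l 4))))), by decide +kernel⟩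

def k107_mm_202_t : ∃ t, chk3 f_mm_202_t t 123 70 3 = true :=
  ⟨(a (b (b (a (c (c (l 16772648) (a (l 16767320) (l 16774568))) (b (a (a (l 16768488) (l 16769520)) (c (l 16768480) (l 16771040))) (a (c (l 16768024) (l 16770568)) (c (l 16775312) (c (l 16775288) (l 16775272)))))) (a (b (c (c (l 16775824) (l 16775800)) (c (l 16775768) (b (l 16772728) (l 16776144)))) (a (c (c (l 16776776) (l 16776768)) (c (l 16777736) (a (l 16776560) (b (l 16776704) (l 97945388295))))) (b (c (l 68417489031) (a (a (l 16777056) (l 16777872)) (l 141968803319))) (l 4)))) (b (b (a (c (l 16776880) (c (l 16776872) (l 16777600))) (c (l 151632480247) (l 203708957223))) (a (a (c (l 16777272) (a (l 16777864) (l 131231384807))) (l 4)) (l 4))) (l 4)))) (a (a (b (c (l 16774912) (c (l 16774848) (l 16772184))) (c (c (l 16776376) (l 16776360)) (a (l 16775248) (b (l 16776528) (a (l 16777008) (l 105461581399)))))) (a (b (c (l 16776384) (c (l 16776360) (l 16776672))) (b (c (l 80765519943) (a (a (l 16777112) (l 16777880)) (l 169349219735))) (l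 4))) (b (b (c (l 16776944) (c (l 16776928) (c (l 16776928) (l 16776920)))) (a (c (l 16777312) (l 100092871575)) (l 4))) (l 4)))) (a (a (b (b (c (l 166127994759) (l 219815084631)) (l 4)) (l 4)) (l 4)) (l 4)))) (a (b (b (a (c (a (c (l 16777184) (l 16777176)) (l 175791672023)) (b (a (a (l 16776816) (l 61438165271)) (l 229478761111)) (c (l 213372633943) (l 208540795719)))) (l 4)) (l 4)) (l 4)) (l 4))) (l 4)), by decide +kernel⟩

def k108_mm_202_t : ∃ t, chk3 f_mm_202_t t 61 71 3 = true :=
  ⟨(a (a (b (a (b (c (c (l 16765008) (l 16764864)) (a (c (l 16768976) (l 16764872)) (b (l 16767480) (l 16769048)))) (c (c (l 16773216) (l 16773136)) (a (b (l 16768616) (l 16770168)) (b (a (l 16770104) (l 16771104)) (l 16774280))))) (b (c (c (l 16774048) (l 16773984)) (c (b (l 16767904) (l 16774688)) (a (c (l 16767624) (l 16770200)) (b (l 16771464) (l 16775648))))) (a (c (c (l 16777272) (l 16777248)) (b (c (l 16775240) (l 16775200)) (a (l 16776256) (b (l 16776832) (c (l 16777336) (l 102240356087)))))) (a (b (c (l 16776672)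 (c (l 16776656) (b (l 16776328) (l 16777000)))) (c (l 138210708487) (c (l 151095609703) (l 206393311975)))) (b (b (c (l 16777152) (a (l 16777024) (l 108682806839))) (l 4)) (l 4)))))) (a (b (a (c (c (l 16775200) (l 16775152)) (c (l 16775112) (b (l 16769064) (l 16775840)))) (b (c (l 16777280) (c (l 16776264) (a (l 16775808) (c (l 16776720) (l 16776720))))) (c (c (l 80765521351) (l 81302392327)) (a (b (l 16776904) (l 110830291031)) (l 215520117559))))) (a (a (b (c (l 16776824) (b (l 16776512) (l 48553263879))) (c (l 171496704759) (l 223573181303))) (b (b (c (l 16777256) (a (l 16777136) (l 153779963239))) (l 4)) (l 4))) (l 4))) (a (b (b (a (b (c (l 16777208) (a (l 16777088) (l 131768255927))) (l 4)) (l 4)) (l 4)) (l 4)) (l 4)))) (b (a (b (a (c (b (l 16776784) (c (l 69491232151) (l 68417489159))) (b (b (l 16775736) (c (l 16776472) (l 16777192))) (a (b (l 16776752) (c (l 16777288) (l 89355454199))) (c (l 139821320631) (l 198877119143))))) (a (b (b (c (l 16777096) (a (l 16776960) (l 90966066775))) (c (l 166127994759)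 (l 219278213719))) (l 4)) (l 4))) (l 4)) (l 4)) (l 4))) (l 4)), by decide +kernel⟩

def k109_mm_202_t : ∃ t, chk3 f_mm_202_t t 31 17 1 = true :=
  ⟨(b (b (l 14) (b (b (l 14) (b (l 14) (l 4))) (l 4))) (l 4)), by decide +kernel⟩

def k110_mm_202_t : ∃ t, chk3 f_mm_202_t t 56 18 1 = true :=
  ⟨(c (b (b (a (c (l 16693392) (c (l 16667800) (l 16664520))) (c (c (l 16683464) (l 16680832)) (c (l 16678072) (l 16675176)))) (c (a (b (l 16681192) (l 16686920)) (b (l 16690824) (l 16696472))) (c (a (l 16679944) (l 16690048)) (a (l 16677008) (l 16687480))))) (b (c (a (b (l 16692536) (l 16698048)) (b (l 16702008) (l 16707440))) (a (c (l 16691648) (l 16689032)) (c (l 16701584) (l 16699328)))) (c (a (a (l 16682888) (l 16687400)) (b (l 16691792) (l 16702248))) (a (c (l 16702896) (l 16700592)) (b (l 16708920) (l 16714416)))))) (b (b (c (a (c (l 16661088) (l 16657496)) (c (l 16672136) (l 16668968))) (a (c (l 16653752) (l 16628880)) (b (l 16639512) (l 16646416)))) (c (a (c (l 16673920) (l 16670688)) (b (l 16680224) (l 16686512)))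 (a (c (l 16667312) (l 16663792)) (b (l 16674152) (l 16680792))))) (b (c (a (b (l 16681760) (l 16687904)) (b (l 16692680) (l 16698728))) (a (b (l 16675536) (l 16682032)) (b (l 16687304) (l 16693696)))) (c (a (b (l 16693928) (l 16699824)) (a (l 16683872) (l 16689344))) (a (b (l 16688392) (l 16694632)) (b (l 16702576) (a (l 16703152) (l 16709016)))))))), by decide +kernel⟩

def k111_mm_202_t : ∃ t, chk3 f_mm_202_t t 114 18 1 = true :=
  ⟨(b (c (b (c (b (l 16689520) (l 16695296)) (c (l 16688880) (l 16686368))) (b (c (l 16700968) (l 16696640)) (c (l 16717024) (l 16702504)))) (c (b (b (l 16679144) (l 16685576)) (b (l 16691880) (l 16698072))) (b (b (l 16673248) (l 16680040)) (b (c (l 16688032) (l 16685336)) (c (l 16694472) (l 16691952)))))) (c (c (b (c (b (l 16712872) (l 16718152)) (b (l 16711096) (l 16716520))) (a (c (l 16712920) (l 16721896)) (b (l 16725104) (l 16730216)))) (b (b (l 16708264) (c (l 16714792) (l 16712976))) (c (b (l 16720248) (l 16725576)) (l 16705608)))) (b (c (b (l 16704136) (l 16689112))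 (b (c (l 16700792) (l 16698440)) (a (l 16702784) (l 16709024)))) (c (c (l 16698688) (b (l 16714976) (l 16720760))) (b (a (l 16708960) (l 16715144)) (a (l 16715016) (l 16721136))))))), by decide +kernel⟩

def k112_mm_202_t : ∃ t, chk3 f_mm_202_t t 115 18 1 = true :=
  ⟨(b (c (b (c (b (c (l 16701328) (l 16699328)) (c (l 16706952) (l 16705096))) (b (c (l 16697224) (l 16695024)) (c (l 16703144) (l 16701104)))) (c (c (b (l 16712480) (l 16717896)) (b (l 16710760) (l 16716320))) (c (b (l 16708960) (l 16714664)) (b (l 16707072) (l 16712920))))) (b (c (b (l 16691544) (l 16700488)) (b (b (l 16674376) (l 16677752)) (c (l 16694424) (l 16692016)))) (c (b (c (l 16705096) (l 16703032)) (a (l 16707072) (l 16713248))) (b (c (l 16700880) (l 16698640)) (c (l 16707208) (l 16705144)))))) (a (c (c (b (b (l 16719808) (l 16725096)) (b (l 16719792) (c (l 16735896) (l 16734768)))) (b (b (l 16716600) (l 16722168)) (b (l 16727624) (l 16732952)))) (b (c (b (l 16713064) (l 16718936)) (b (l 16709200) (l 16715392))) (c (b (l 16724680)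 (l 16730304)) (b (l 16721456) (l 16727392))))) (c (b (b (c (l 16725192) (l 16722336)) (c (c (l 16731040) (l 16729816)) (l 16727856))) (b (c (c (l 16736112) (l 16735016)) (l 16733256)) (c (c (l 16741072) (l 16740104)) (l 16738544)))) (b (c (b (l 16719184) (l 16725000)) (b (l 16715752) (l 16721888))) (b (c (l 16730696) (l 16727888)) (c (l 16736272) (l 16723288))))))), by decide +kernel⟩

def k113_mm_202_t : ∃ t, chk3 f_mm_202_t t 29 144 1 = true :=
  ⟨(c (a (a (c (c (l 16712488) (l 16710840)) (c (l 16709112) (l 16707312))) (c (a (c (l 16721120) (l 16719736)) (c (l 16726992) (l 16725784))) (a (l 16717544) (l 16723856)))) (c (b (a (a (l 16741536) (l 16742440)) (c (a (l 16743808) (l 16752712)) (a (l 16743064) (l 16749496)))) (a (a (l 16733816) (c (l 16740368) (l 16739520))) (c (a (l 16746520) (c (l 16752912) (l 16752648))) (a (l 16745832) (l 16752248))))) (a (c (a (l 16730816) (l 16737216)) (a (l 16729680) (l 16736256))) (c (a (l 16743704) (b (l 16748880) (l 16751696))) (a (l 16742920) (l 16741816)))))) (a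 (c (a (c (l 16705424) (l 16703464)) (a (l 16714384) (l 16721096))) (a (c (l 16701424) (l 16699312)) (a (l 16710976) (c (l 16718888) (l 16717336))))) (a (c (c (a (l 16728496) (l 16735264)) (a (l 16727264) (l 16734224))) (c (a (l 16725984) (l 16733152)) (a (l 16724656) (l 16732040)))) (c (a (c (l 16742112) (l 16741272)) (c (l 16741184) (b (l 16746880) (l 16749896)))) (c (a (l 16740392) (b (l 16746160) (l 16749248))) (a (b (l 16737888) (l 16741080)) (b (l 16745416) (l 16748576)))))))), by decide +kernel⟩

def k114_mm_202_t : ∃ t, chk3 f_mm_202_t t 29 145 1 = true :=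
  ⟨(c (a (a (c (c (l 16728528) (l 16716536)) (c (l 16714952) (l 16713296))) (c (a (c (l 16726624) (l 16725368)) (c (l 16732456) (l 16731376))) (c (l 16731096) (l 16731128)))) (a (c (c (a (l 16743632) (b (l 16743072) (l 16745744))) (a (l 16737472) (l 16748896))) (c (a (l 16736512) (l 16742864)) (a (l 16735512) (l 16742048)))) (b (a (c (c (l 16754448) (l 16748576)) (l 16750208)) (c (c (c (l 16758192) (l 16755336)) (l 16760224)) (c (l 16754480) (l 16753968)))) (a (c (c (l 16754488) (l 16751296)) (c (l 16750704) (l 16750080))) (c (c (a (l 16756520) (l 16762288)) (a (l 16756064) (l 16759288))) (c (l 16757240) (l 16756792))))))) (a (a (c (c (l 16711568) (l 16709768)) (a (l 16692960) (l 16710408))) (c (c (l 16724560) (l 16728416)) (a (c (l 16718232) (l 16716624)) (c (l 16725216) (l 16723824))))) (c (a (c (a (l 16734472) (l 16741184)) (a (l 16733384) (l 16740296))) (c (a (l 16747992) (a (l 16753144) (l 16756616))) (a (l 16747288) (a (l 16752576) (l 16756136))))) (a (a (c (l 16732256) (l 16731088)) (c (l 16739368)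 (l 16741032))) (b (a (c (l 16745024) (l 16744232)) (c (l 16752296) (l 16754320))) (a (c (l 16748072) (l 16747352)) (c (l 16755320) (a (l 16752920) (l 16756656))))))))), by decide +kernel⟩

def k115_mm_202_t : ∃ t, chk3 f_mm_202_t t 29 146 1 = true :=
  ⟨(c (a (a (c (c (a (l 16720672) (l 16726304)) (l 16732600)) (c (l 16720680) (l 16719168))) (a (c (c (l 16732016) (l 16730896)) (l 16729120)) (c (c (l 16737816) (l 16736864)) (c (l 16735864) (l 16734824))))) (a (a (c (c (b (l 16742384) (l 16745024)) (l 16742920)) (c (l 16742088) (l 16741224))) (c (c (b (l 16748384) (l 16756248)) (b (l 16747728) (l 16750400))) (c (l 16737920) (l 16747712)))) (c (b (a (c (a (l 16752952) (l 16756032)) (l 16753984)) (c (a (l 16759136) (c (l 16762352) (l 16762200))) (a (l 16758744) (l 16761952)))) (a (c (a (l 16755560) (l 16758632)) (a (l 16755072) (l 16758216))) (a (c (c (l 16761808) (l 16761648)) (l 16761392)) (c (c (l 16766232) (l 16764792)) (l 16764592))))) (a (c (a (l 16753200) (l 16756432)) (l 16743808)) (c (b (l 16754728)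 (l 16757432)) (c (l 16750576) (l 16750392))))))) (a (a (c (a (l 16713544) (l 16720016)) (a (l 16709904) (l 16716808))) (a (c (l 16726552) (c (l 16724488) (l 16723048))) (c (c (l 16733728) (l 16732592)) (c (l 16731416) (l 16730184))))) (c (a (a (c (l 16740320) (l 16739376)) (b (l 16745160) (l 16748064))) (a (c (l 16743264) (l 16742696)) (c (a (l 16758864) (l 16751824)) (c (l 16749816) (l 16749616))))) (a (a (c (l 16738400) (l 16737384)) (c (l 16734976) (b (l 16743096) (l 16746184)))) (a (a (b (l 16748944) (l 16751976)) (b (l 16752584) (l 16755600))) (a (b (l 16751000) (l 16754000)) (c (l 16756360) (b (l 16759712) (l 16762728))))))))), by decide +kernel⟩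

def k116_mm_202_t : ∃ t, chk3 f_mm_202_t t 29 147 2 = true :=
  ⟨(c (a (a (a (l 16735872) (c (l 16731624) (l 16730472))) (c (a (l 16737304) (b (l 16741760) (l 16744360))) (a (l 16736312) (l 16742240)))) (b (a (c (a (l 16747632) (c (l 16753728) (l 16753464))) (a (l 16746928) (l 16753048))) (a (a (a (l 16757152) (l 16761312)) (c (l 16763824) (l 16760840))) (a (c (c (l 16766984) (l 16764224)) (l 16764008)) (c (c (a (l 16766680) (l 16769552)) (a (l 16766568) (l 16768144))) (l 16763264))))) (a (a (c (l 16750208) (l 16749568)) (c (a (l 16754656) (l 16757656)) (l 16755672))) (a (c (a (l 16763304) (c (l 16766432) (l 16763664))) (b (l 16755984) (l 16757280))) (a (c (b (l 16767504) (a (l 16766680) (l 16768224))) (l 16761352)) (a (c (b (l 16768528) (l 16771088)) (l 16768976)) (c (c (b (l 16770128) (l 16772688)) (l 16768064)) (l 16765336)))))))) (a (a (a (l 16722600) (l 16728624)) (c (a (l 16735272) (l 16741368)) (a (l 16734184) (l 16740464)))) (a (a (c (l 16747552) (l 16746816)) (c (a (l 16752248) (l 16755408))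 (l 16753264))) (a (c (c (l 16752432) (l 16749616)) (l 16749312)) (a (b (l 16758312) (l 16760984)) (b (l 16761616) (l 16764280))))))), by decide +kernel⟩

def k117_mm_202_t : ∃ t, chk3 f_mm_202_t t 29 147 3 = true :=
  ⟨(a (a (c (a (l 16719552) (l 16725968)) (a (l 16716232) (c (l 16723816) (l 16722312)))) (a (c (l 16721976) (c (l 16730624) (l 16729336))) (c (c (l 16739512) (l 16738520)) (c (l 16737488) (l 16736416))))) (a (c (a (c (l 16746048) (l 16745248)) (b (l 16740456) (l 16743296))) (c (a (l 16744416) (a (l 16749656) (l 16753176))) (a (b (l 16742016) (l 16745072)) (c (l 16750928) (l 16742720))))) (c (a (c (l 16748896) (l 16748464)) (c (c (l 16755752) (l 16755624)) (b (l 16754008) (l 16756840)))) (b (a (c (l 16757024) (l 16751280)) (c (l 16758944) (c (l 16758712) (l 16758552)))) (a (a (l 16757936) (l 16756288)) (c (l 16759224) (a (l 16765000) (l 16763432)))))))), by decide +kernel⟩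

def k118_mm_202_t : ∃ t, chk3 f_mm_202_t t 116 37 1 = true :=
  ⟨(c (b (a (b (c (c (l 16731288) (l 16730096)) (l 16728192)) (c (c (l 16736432) (l 16735368)) (l 16733672))) (b (c (c (l 16736840) (l 16735808)) (l 16734176)) (c (c (l 16747184) (l 16741040)) (l 16729112)))) (c (c (b (a (l 16741464) (a (l 16745552) (l 16748312))) (a (a (l 16745032) (l 16747720)) (b (l 16750600) (l 16747760)))) (a (b (l 16740528) (l 16745568)) (b (l 16746152) (l 16740664)))) (b (c (a (l 16739536) (l 16745336)) (l 16731000)) (c (c (l 16737296) (l 16736904)) (l 16736280))))) (b (c (a (b (l 16725440) (l 16731200)) (b (l 16731800) (l 16727024))) (b (a (l 16722432) (c (l 16729880) (l 16728536))) (a (c (l 16729200) (l 16727792)) (c (l 16735816) (l 16734632))))) (b (c (c (l 16730008) (l 16728960)) (a (c (l 16735072) (l 16733824)) (c (l 16741632) (l 16740600)))) (c (c (l 16735424) (l 16734528)) (a (c (l 16740816) (l 16739728)) (c (l 16747320) (l 16746440))))))), by decide +kernel⟩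

def k119_mm_202_t : ∃ t, chk3 f_mm_202_t t 117 37 1 = true :=
  ⟨(a (c (b (c (c (b (l 16747720) (a (l 16746128) (l 16748952))) (b (l 16741616) (l 16736312))) (b (c (l 16740704) (l 16739752)) (c (l 16746016) (l 16745200)))) (c (a (b (c (l 16745848) (l 16750432)) (c (b (l 16754736) (l 16757128)) (l 16755392))) (b (c (b (l 16752664) (l 16755104)) (l 16753312)) (c (b (l 16757520) (l 16759904)) (l 16753008)))) (c (b (l 16751216) (l 16745808)) (c (l 16742824) (l 16742512))))) (b (c (b (c (l 16738752) (l 16737712)) (c (l 16744344) (l 16743440))) (b (c (l 16736624) (l 16735496)) (c (l 16742504) (l 16741528)))) (b (c (c (l 16749808) (l 16749048)) (a (l 16735672) (l 16741680))) (c (a (l 16742776) (l 16745936)) (b (l 16741656) (l 16744480)))))) (b (b (b (c (c (c (l 16746928) (l 16746192)) (l 16745016)) (c (l 16743328) (l 16741480))) (c (c (c (l 16749472) (l 16748792)) (l 16747720)) (c (l 16746160) (l 16744464)))) (b (c (c (c (l 16757224) (l 16751368)) (l 16750384)) (c (l 16748960) (l 16736928))) (c (c (c (a (l 16753032)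 (l 16755896)) (l 16753912)) (l 16742536)) (c (l 16751736) (l 16742464))))) (c (c (c (b (a (c (l 16751600) (l 16756592)) (b (l 16758352) (l 16760776))) (b (c (a (l 16760432) (l 16763248)) (l 16756416)) (a (c (l 16762792) (l 16762616)) (c (l 16762976) (l 16765456))))) (a (b (l 16756208) (l 16755888)) (b (l 16753896) (a (l 16758064) (l 16759520))))) (b (b (l 16745144) (l 16747720)) (c (l 16754352) (l 16751336)))) (c (b (b (l 16743992) (l 16746704)) (c (l 16750928) (l 16750496))) (b (c (l 16744472) (a (l 16752600) (l 16756064))) (c (l 16750048) (c (l 16749696) (l 16749456)))))))), by decide +kernel⟩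

def k120_mm_202_t : ∃ t, chk3 f_mm_202_t t 118 74 4 = true :=
  ⟨(a (b (a (b (l 16750984) (l 16758784)) (c (b (l 16754232) (l 16756752)) (l 16754984))) (b (c (a (l 16756320) (l 16759240)) (l 16752072)) (c (c (a (l 16758896) (l 16761792)) (l 16754904)) (l 16754592)))) (a (b (c (b (l 16757192) (l 16759704)) (b (l 16756728) (l 16759296))) (c (a (b (l 16761448) (l 16763896)) (b (l 16762928) (l 16762752))) (a (l 16757096) (l 16758608)))) (c (b (b (l 16760184) (a (l 16761936) (l 16763440))) (b (c (a (l 16764488) (l 16765968)) (l 16765088)) (c (c (a (l 16766944) (l 16768424)) (l 16765008)) (l 16764928)))) (b (a (l 16755064) (l 16756608)) (b (l 16764880) (l 16762136)))))), by decide +kernel⟩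

def k121_mm_202_t : ∃ t, chk3 f_mm_202_t t 238 74 4 = true :=
  ⟨(a (b (b (c (a (l 16762448) (l 16763960)) (l 16762888)) (c (c (a (l 16765008) (l 16766512)) (l 16765632)) (l 16765440))) (c (b (a (c (l 16767464) (l 16767352)) (b (l 16768304) (l 16769528))) (b (c (a (l 16769280) (l 16770776)) (l 16769944)) (c (a (l 16770488) (l 16770664)) (l 16768544)))) (b (l 16762712) (l 16766512)))) (b (b (c (b (l 16768248) (c (l 16766928) (l 16766816))) (l 16760768)) (c (c (a (l 16770648) (b (l 16768928) (l 16770152))) (a (l 16767920) (l 16769456))) (l 16765928))) (c (c (a (b (b (l 16769856) (l 16771072)) (a (b (l 16771904) (l 16773104)) (b (l 16772656) (l 16772544)))) (b (b (l 16771368) (a (l 16772208) (l 16772960))) (a (b (l 16772096) (a (l 16773112) (l 16773816))) (b (a (l 16773976) (l 16773048)) (b (l 16773752) (l 16775008)))))) (b (b (l 16767920) (l 16769144)) (l 16773592))) (c (l 16772328) (l 16772272))))), by decide +kernel⟩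

def k122_mm_202_t : ∃ t, chk3 f_mm_202_t t 478 74 4 = true :=
  ⟨(a (b (b (c (b (l 16767928) (l 16769176)) (l 16768360)) (c (c (c (b (l 16770472) (l 16771688)) (l 16768424)) (l 16768376)) (l 16765648))) (b (c (c (b (a (l 16772512) (l 16773272)) (a (l 16772408) (a (l 16772984) (l 16774016)))) (c (l 16770848) (l 16770824))) (l 16770776)) (c (c (a (b (b (l 16774624) (l 16773912)) (c (l 16776120) (l 16776120))) (b (c (b (l 16774080) (l 16775336)) (l 16774368)) (b (l 16776584) (b (a (l 16776840) (a (l 16777280) (b (l 16777368) (l 4)))) (a (a (l 16777040) (a (l 16777168) (l 95797903767))) (l 206930182439)))))) (a (l 16775504) (b (l 16773048) (b (l 16776576) (l 7214204071))))) (b (l 16775248) (l 16776448))))) (b (b (c (c (b (l 16769520) (l 16770752)) (l 16770064)) (l 16764696)) (c (c (a (b (l 16771600) (l 16772824)) (b (l 16772368) (l 16772608))) (c (l 16769936) (l 16767288))) (l 16769848))) (b (c (c (c (b (a (l 16772736) (b (l 16774512) (l 16775112))) (a (b (l 16774952) (l 16774896)) (l 16776016))) (l 16775024))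 (l 16775000)) (l 16774968)) (c (a (b (c (a (l 16776256) (b (l 16775680) (b (l 16776784) (b (l 16777008) (a (l 16777064) (l 86134227287)))))) (l 16776432)) (b (a (c (b (l 16777000) (a (b (l 16777128) (l 104387838295)) (l 148948124151))) (l 16777112)) (b (b (a (l 16777360) (l 4)) (l 207467053303)) (l 4))) (l 4))) (b (b (a (l 16776720) (b (l 16776952) (a (b (l 16777080) (l 66270003591)) (b (l 93650420119) (l 4))))) (c (a (b (a (l 16777072) (b (l 16777176) (l 144116285815))) (c (l 192434667767) (l 151095607943))) (l 218741342679)) (l 108682806615))) (l 4))) (b (c (l 16778216) (l 16776736)) (l 173107315383)))))), by decide +kernel⟩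

def k123_mm_202_t : ∃ t, chk3 f_mm_202_t t 479 148 4 = true :=
  ⟨(c (b (a (c (b (l 16771064) (a (l 16771912) (l 16772680))) (l 16769000)) (c (b (a (l 16772224) (l 16773000)) (c (a (l 16773472) (b (l 16773936) (l 16774552))) (l 16772528))) (c (l 16770576) (l 16770560)))) (a (b (c (c (a (l 16773152) (l 16773920)) (l 16770896)) (l 16773488)) (c (a (a (l 16772856) (l 16773568)) (b (l 16774824) (l 16774776))) (l 16772096))) (a (b (b (l 16773704) (a (l 16774784) (l 16774520))) (b (b (l 16774784) (l 16775088)) (l 16776368))) (c (b (c (b (l 16775160) (l 16775112)) (l 16774144)) (b (l 16776376) (a (l 16776784) (b (c (l 16777184) (l 16777016)) (a (b (l 16777144) (l 124252062023)) (l 163443638759)))))) (b (l 16772816) (l 16777304)))))) (b (c (l 16769080) (l 16767056)) (b (l 16774216) (l 16776112)))), by decide +kernel⟩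

def k124_mm_202_t : ∃ t, chk3 f_mm_202_t t 479 149 4 = true :=
  ⟨(b (c (b (a (c (c (a (b (l 16775272) (l 16775224)) (b (c (l 16775392) (l 16774728)) (a (l 16775800) (l 16777000)))) (l 16775952)) (l 16775944)) (a (a (b (l 16776616) (b (b (l 16776992) (a (l 16777048) (l 72712454551))) (b (a (l 16777352) (l 4)) (l 202635215079)))) (b (b (l 16776856) (b (l 16777280) (a (l 16777128) (l 139284447591)))) (a (b (b (l 106535321975) (l 4)) (l 4)) (l 4)))) (b (a (b (a (b (l 16777064) (l 58753810807)) (b (l 86671098247) (l 4))) (l 212835762503)) (l 4)) (l 4)))) (a (b (a (c (l 16776480) (l 16776472)) (a (b (l 16776904) (a (c (l 16777104) (l 16777096)) (b (l 63048778103) (l 167201735063)))) (b (a (b (l 16777112) (l 88818581911)) (b (l 118346482071) (l 4))) (l 4)))) (b (a (a (l 16776736) (b (l 16777040) (a (l 16777096) (l 108145934727)))) (c (a (l 202635215127) (l 4)) (l 170959832071))) (a (c (a (c (l 16777232) (l 16777032)) (a (b (l 83449872711) (l 4)) (l 4))) (l 16777144)) (l 4)))) (l 4))) (a (a (l 16776784) (b (l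 16776320) (l 88818582663))) (b (a (l 16778328) (l 131231385959)) (l 4)))) (b (a (c (a (c (b (b (a (a (b (l 16777160) (l 130157642071)) (l 206393311447)) (l 4)) (l 4)) (l 4)) (l 194582151879)) (l 4)) (l 197803377719)) (l 4)) (l 4))), by decide +kernel⟩

def k125_mm_202_t : ∃ t, chk3 f_mm_202_t t 59 74 5 = true :=
  ⟨(a (b (a (b (l 16740768) (l 16743448)) (c (a (l 16757560) (l 16750216)) (l 16748208))) (a (b (l 16751336) (l 16751328)) (c (c (l 16756528) (l 16753752)) (l 16753512)))) (a (b (a (c (l 16758624) (l 16763544)) (c (l 16761808) (l 16756328))) (c (a (l 16763776) (l 16772184)) (l 16770448))) (b (c (b (l 16770592) (l 16773168)) (l 16771768)) (b (a (l 16774080) (a (c (l 16779040) (l 16776400)) (b (l 69491232567) (l 4)))) (b (a (l 16777248) (l 208540796631)) (a (a (l 16776416) (l 113514647399)) (l 4))))))), by decide +kernel⟩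

def k126_mm_202_t : ∃ t, chk3 f_mm_202_t t 236 75 2 = true :=
  ⟨(b (c (b (c (a (l 16758608) (c (l 16764208) (l 16764056))) (a (l 16760840) (l 16763824))) (c (c (a (l 16763720) (a (l 16765872) (l 16767320))) (a (l 16763560) (l 16766472))) (c (l 16759632) (l 16754232)))) (c (c (l 16752832) (l 16752664)) (l 16752392))) (a (c (c (b (b (l 16765432) (l 16763992)) (c (a (l 16767720) (l 16766520)) (l 16763080))) (c (l 16761784) (l 16761656))) (l 16766576)) (c (c (a (b (a (l 16765200) (l 16765920)) (b (l 16769944) (l 16769800))) (b (b (l 16769040) (l 16770216)) (c (b (l 16771424) (l 16771272)) (l 16769320)))) (l 16769912)) (l 16769640)))), by decide +kernel⟩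

def k127_mm_202_t : ∃ t, chk3 f_mm_202_t t 237 150 2 = true :=
  ⟨(b (c (a (c (c (a (l 16766384) (l 16767848)) (l 16767000)) (l 16761576)) (c (a (b (l 16768672) (l 16769872)) (b (l 16768848) (c (l 16771392) (l 16771320)))) (l 16764608))) (l 16768016)) (c (c (c (a (a (l 16766144) (a (l 16769864) (l 16769280))) (a (b (l 16771104) (l 16770968)) (a (b (l 16772200) (l 16773384)) (b (l 16772944) (l 16772808))))) (a (l 16766784) (a (l 16769008) (l 16770496)))) (l 16771432)) (l 16770544))), by decide +kernel⟩

def k128_mm_202_t : ∃ t, chk3 f_mm_202_t t 237 151 2 = true :=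
  ⟨(a (b (c (c (a (b (l 16767872) (a (l 16771312) (l 16772040))) (c (b (l 16770680) (c (l 16771856) (l 16773144))) (l 16769896))) (l 16767760)) (l 16771488)) (c (c (c (c (a (b (l 16771568) (a (l 16773672) (l 16773080))) (b (a (l 16773960) (l 16773376)) (l 16775472))) (c (l 16774168) (l 16774160))) (l 16774136)) (l 16774080)) (l 16773960))) (b (c (c (a (c (a (b (l 16773088) (l 16772936)) (c (b (l 16773824) (l 16774008)) (l 16772424))) (l 16771376)) (c (b (a (c (l 16773248) (l 16774544)) (b (l 16774992) (l 16774920))) (b (l 16775792) (a (l 16775184) (c (a (l 16776552) (b (l 16776776) (l 16777224))) (l 16776728))))) (l 16775480))) (l 16774696)) (l 16774600)) (b (c (c (a (b (l 16775720) (c (l 16776064) (l 16776048))) (a (c (b (l 16776584) (a (a (l 16776880) (a (l 16777016) (b (l 16776968) (l 86134227319)))) (b (a (l 16777096) (a (l 74859938183) (l 133378867607))) (l 199413989639)))) (l 16777808)) (b (b (a (l 16776984) (b (a (l 16777176) (l 176865411431)) (l 155927446087))) (c (c (a (a (l 16777328) (l 137136964055))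 (l 4)) (l 115125257207)) (l 116198999031))) (l 4)))) (a (l 16775728) (c (l 60364424327) (l 16777056)))) (l 16778976)) (b (c (a (c (a (l 16776264) (a (l 16776896) (b (c (l 16777032) (l 16777032)) (a (a (l 16777336) (l 96871645639)) (l 158074929719))))) (l 16776600)) (a (a (a (b (b (l 71101841895) (l 4)) (l 4)) (l 4)) (l 4)) (l 4))) (l 60364427719)) (a (c (c (a (a (l 16776656) (a (l 16777056) (b (l 16776968) (a (l 18488492407) (l 109756547559))))) (c (c (a (b (a (l 16777144) (l 122104578519)) (l 218741342519)) (l 4)) (l 173107314999)) (l 126399546631))) (l 16778400)) (l 16777080)) (l 4)))))), by decide +kernel⟩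

def k129_mm_202_t : ∃ t, chk3 f_mm_202_t t 476 150 8 = true :=
  ⟨(a (b (c (b (l 16771680) (c (l 16771568) (l 16772856))) (l 16769600)) (c (c (a (b (l 16773688) (l 16773720)) (b (l 16773120) (b (l 16775312) (l 16775240)))) (l 16774632)) (l 16774608))) (b (c (b (a (l 16772800) (l 16772232)) (a (l 16772672) (a (l 16773232) (l 16773936)))) (c (l 16771120) (l 16771096))) (b (c (a (b (l 16774872) (l 16774808)) (l 16775912)) (l 16775520)) (b (c (b (l 16776272) (a (l 16775536) (a (l 16776752) (a (l 16777032) (a (l 16777160) (l 85060485543)))))) (l 16776400)) (a (c (l 16776712) (l 16776624)) (c (b (a (l 16777280) (a (a (l 94187291031) (l 158074929543)) (l 4))) (a (a (a (l 16777176) (l 100629741991)) (l 173644186055)) (l 4))) (l 84523615559))))))), by decide +kernel⟩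

def k130_mm_202_t : ∃ t, chk3 f_mm_202_t t 477 150 8 = true :=
  ⟨(b (a (c (c (b (a (l 16772992) (a (l 16773552) (l 16774584))) (a (b (l 16775192) (l 16775120)) (l 16776232))) (l 16775256)) (l 16775240)) (a (c (b (l 16775800) (b (a (l 16775840) (b (l 16776072) (l 16777176))) (b (a (l 16776936) (a (a (l 16777160) (l 92576678279)) (l 155927446023))) (a (a (l 16777296) (a (l 98482258327) (l 159685542295))) (l 4))))) (b (l 16773160) (b (l 16776680) (l 68417488135)))) (b (b (l 16776248) (b (l 16776696) (a (l 16776808) (a (l 16777088) (b (l 16777192) (l 154316833159)))))) (b (b (c (a (a (l 16777008) (a (l 16777144) (l 74859938199))) (l 195655893255)) (l 16777192)) (a (b (a (l 65733132679) (l 4)) (l 217667600631)) (l 4))) (l 4))))) (b (a (b (a (l 16776360) (a (a (l 16776832) (b (l 16776872) (b (l 16777088) (l 75933679975)))) (b (b (l 16777072) (a (l 16777128) (l 130694513031))) (c (c (l 188139700439) (l 145726898807)) (l 16777320))))) (c (b (a (l 16776968) (a (a (a (l 66270003575) (l 119957094823)) (l 4)) (l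 4))) (a (a (l 16776912) (a (a (l 16777136) (l 72175583623)) (l 138210705927))) (l 4))) (a (l 16776920) (l 189213442503)))) (a (a (b (b (l 209077666103) (l 4)) (l 4)) (l 4)) (l 4))) (a (a (c (b (a (b (b (l 16777280) (a (l 16777176) (l 176865411399))) (l 201561473303)) (l 4)) (l 4)) (l 180623508007)) (l 4)) (l 4)))), by decide +kernel⟩

def k131_mm_202_t : ∃ t, chk3 f_mm_202_t t 238 150 9 = true :=
  ⟨(a (b (l 16772904) (a (l 16774568) (b (l 16775488) (l 16777952)))) (b (b (l 16775368) (a (l 16775816) (a (l 16776912) (l 114051516759)))) (a (b (a (l 16776624) (l 75933681895)) (l 187065959319)) (l 217667602199)))), by decide +kernel⟩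

def k132_mm_202_t : ∃ t, chk3 f_mm_202_t t 238 150 5 = true :=
  ⟨(a (b (l 16772752) (c (l 16775256) (l 16775208))) (b (a (l 16775136) (c (l 16779232) (l 16776584))) (a (c (l 73786199367) (l 16777184)) (l 216056989415)))), by decide +kernel⟩

def k133_mm_202_t : ∃ t, chk3 f_mm_202_t t 238 151 2 = true :=
  ⟨(a (b (c (b (a (c (a (c (l 16776024) (l 16776008)) (b (l 16776464) (b (a (l 16776720) (a (l 16777000) (b (l 16777112) (l 86134227335)))) (a (l 16777216) (b (a (l 16777200) (l 4)) (l 212835762407)))))) (l 16776352)) (a (c (b (c (a (a (l 16776936) (b (l 16776976) (a (l 16777400) (l 118883352983)))) (c (b (a (l 16777312) (l 124252062183)) (l 218741342535)) (l 103314097079))) (l 16777792)) (a (b (c (l 191897796855) (l 16777336)) (l 4)) (l 4))) (l 88818583767)) (l 4))) (a (a (c (b (a (l 16776704) (b (l 16776928) (a (l 16777288) (b (l 16777400) (l 4))))) (c (a (b (a (l 16777048) (a (l 16777176) (l 97945387431))) (l 184381604039)) (l 211225149879)) (l 105461581095))) (l 16777088)) (c (c (b (b (a (a (a (l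 16777152) (l 82376130983)) (l 150558736887)) (l 4)) (l 4)) (l 4)) (l 190824055447)) (l 141431933175))) (l 4))) (c (a (l 16779416) (l 126936420951)) (l 68954361511))) (l 4)) (l 4)), by decide +kernel⟩

def k134_mm_202_t : ∃ t, chk3 f_mm_202_t t 239 75 2 = true :=
  ⟨(a (a (b (b (b (c (b (c (a (c (a (l 16776824) (b (a (l 16776960) (l 16777384)) (a (a (l 16777392) (l 111367160215)) (l 212298891495)))) (l 16776976)) (a (a (b (b (l 88281710983) (l 4)) (l 4)) (l 4)) (l 4))) (l 74859938711)) (b (c (a (a (a (b (l 16777096) (l 75933680023)) (b (l 106535321991) (l 4))) (l 4)) (l 4)) (l 134452611063)) (l 4))) (l 86671101703)) (l 4)) (l 4)) (l 4)) (l 4)) (l 4)), by decide +kernel⟩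

def k135_mm_202_t : ∃ t, chk3 f_mm_202_t t 59 74 3 = true :=
  ⟨(b (a (a (c (a (l 16739192) (l 16745120)) (c (l 16739824) (a (l 16747816) (l 16751368)))) (c (c (l 16747744) (l 16747272)) (a (c (l 16755504) (l 16754944)) (b (l 16757304) (l 16754976))))) (b (c (a (a (l 16761656) (l 16754568)) (a (l 16763232) (l 16771928))) (a (a (l 16755624) (l 16759208)) (a (c (l 16768160) (l 16762696)) (c (l 16761248) (l 16766360))))) (c (a (c (l 16755760) (l 16755496)) (c (l 16772976) (l 16772880))) (c (a (l 16755208) (l 16771464)) (a (c (l 16754992) (l 16760088)) (a (l 16765600) (l 16774480))))))) (a (c (a (c (l 16746664) (l 16746136)) (c (l 16753184) (l 16752840))) (a (c (l 16745592) (a (l 16753744) (l 16757272))) (a (b (l 16759584) (l 16757208)) (b (l 16757856) (l 16760712))))) (a (c (c (l 16770280) (l 16770112)) (c (b (l 16763280) (l 16771320)) (b (c (l 16757872) (l 16763008)) (a (l 16758888) (l 16772960))))) (a (c (b (l 16773928) (c (l 16778992) (l 16779944))) (a (b (l 16772864) (c (l 16775664) (l 16775624))) (b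 (l 16774656) (b (l 16777960) (c (l 116199001319) (l 116199001383)))))) (a (b (c (c (l 16776376) (l 16776352)) (b (l 16775744) (c (l 16776952) (l 16778576)))) (c (l 159685546375) (b (l 206393312199) (l 4)))) (b (b (c (l 16778480) (c (l 16777152) (l 69491229351))) (l 4)) (l 4))))))), by decide +kernel⟩

def k136_mm_202_t : ∃ t, chk3 f_mm_202_t t 59 75 3 = true :=
  ⟨(b (b (a (c (a (l 16750488) (l 16767544)) (a (c (l 16760320) (l 16749376)) (a (l 16760048) (l 16763536)))) (a (c (c (l 16775480) (l 16775400)) (a (l 16772280) (a (l 16774920) (c (l 16776520) (b (l 16775968) (l 16778840)))))) (a (a (b (c (l 16778624) (c (l 16777296) (l 88281713847))) (l 4)) (l 4)) (l 4)))) (a (c (a (l 16755792) (l 16770200)) (a (c (l 16763112) (l 16752240)) (a (l 16762848) (l 16771568)))) (a (a (c (l 16775128) (c (l 16775048) (l 16774992))) (c (a (c (l 16777160) (l 16777144)) (l 169349223783)) (a (b (l 16778808) (l 131231387479)) (l 220888827495)))) (l 4)))) (b (a (c (c (l 16769672) (l 16768160)) (a (c (l 16755384) (l 16760312))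 (c (l 16772656) (l 16771224)))) (a (a (c (c (l 65733136087) (l 66806877943)) (a (b (l 16776216) (l 74859939063)) (b (l 100629744279) (l 4)))) (l 4)) (l 4))) (a (a (c (l 16768936) (c (l 16758112) (l 16763112))) (a (c (l 16773792) (l 16773608)) (c (c (l 16779368) (l 16779992)) (b (a (l 16775512) (l 50163879511)) (a (l 16776744) (l 162906771063)))))) (l 4)))), by decide +kernel⟩

def k137_mm_202_t : ∃ t, chk3 f_mm_202_t t 28 38 2 = true :=
  ⟨(a (a (b (c (l 16716488) (a (l 16689360) (l 16694120))) (c (l 16726328) (c (l 16702976) (l 16701264)))) (b (c (c (a (l 16703032) (l 16707640)) (l 16709112)) (c (l 16702296) (l 16700632))) (b (a (l 16729216) (l 16739240)) (c (l 16737656) (l 16714224))))) (b (c (a (a (c (l 16720240) (l 16711128)) (b (l 16724720) (l 16729600))) (a (c (b (l 16740784) (l 16735072)) (c (l 16732008) (l 16721040))) (b (c (l 16735432) (l 16745072)) (b (l 16741240) (c (l 16751808) (l 16751120)))))) (a (c (c (l 16712712) (l 16712072)) (a (l 16729376) (l 16734728))) (c (b (l 16730960) (l 16735968))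 (a (l 16719232) (l 16735328))))) (c (c (a (a (l 16742832) (l 16747616)) (b (a (l 16744968) (c (l 16750160) (l 16744624))) (c (c (l 16760072) (l 16757320)) (l 16757112)))) (a (l 16746936) (a (b (l 16749456) (l 16743632)) (b (l 16744168) (l 16754032))))) (a (a (b (l 16737728) (l 16742680)) (l 16750656)) (c (b (l 16740848) (c (l 16745768) (l 16745456))) (l 16753048)))))), by decide +kernel⟩

def k138_mm_202_t : ∃ t, chk3 f_mm_202_t t 56 39 2 = true :=
  ⟨(b (c (c (a (l 16736136) (b (l 16742736) (l 16747064))) (a (l 16734880) (l 16743952))) (a (l 16732832) (c (l 16742920) (l 16720840)))) (c (a (c (l 16744560) (l 16743544)) (c (b (l 16751232) (l 16755304)) (l 16753872))) (a (l 16741880) (c (l 16751776) (l 16750944))))), by decide +kernel⟩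

def k139_mm_202_t : ∃ t, chk3 f_mm_202_t t 57 78 2 = true :=
  ⟨(c (a (c (b (l 16751960) (a (l 16753912) (l 16758624))) (a (l 16751024) (l 16755880))) (c (b (a (l 16759168) (c (l 16764224) (l 16764048))) (a (c (l 16763544) (l 16763352)) (c (b (l 16767400) (l 16769472)) (l 16768320)))) (b (a (l 16748176) (l 16763768)) (a (l 16763048) (l 16768128))))) (a (c (l 16752720) (l 16751952)) (c (b (l 16760744) (l 16765240)) (a (l 16759864) (l 16765280))))), by decide +kernel⟩

def k140_mm_202_t : ∃ t, chk3 f_mm_202_t t 57 79 2 = true :=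
  ⟨(b (c (a (c (a (l 16758064) (l 16762760)) (l 16759912)) (c (b (a (l 16766544) (c (a (l 16770272) (l 16772744)) (l 16771432))) (a (c (l 16768640) (l 16768520)) (a (l 16772584) (a (l 16774360) (b (l 16774856) (l 16775864)))))) (a (l 16767288) (c (l 16772392) (l 16772320))))) (a (l 16759104) (c (l 16768944) (l 16769368)))) (a (c (c (a (l 16762112) (c (l 16766872) (l 16766720))) (a (l 16761664) (l 16766488))) (c (l 16763664) (l 16763232))) (a (c (c (b (c (l 16771296) (l 16770544)) (c (a (l 16771416) (l 16773816)) (l 16772552))) (l 16771432)) (l 16771160)) (b (c (b (c (a (l 16773760) (c (a (l 16775632) (a (l 16776560) (b (l 16777248) (c (a (l 82376129975) (l 203708957047)) (l 104924710007))))) (l 16777520))) (l 16774920)) (c (a (c (l 16774776) (l 16774744)) (c (a (a (l 16776312) (a (l 16776768) (b (l 16776832) (l 97408516247)))) (a (b (a (l 16777456) (l 130157642615)) (l 4)) (l 4))) (a (l 16776592) (l 167738606167)))) (a (l 16774688) (c (l 64659388487) (l 16777040))))) (a (l 16774032) (l 16779184))) (c (b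 (c (a (c (a (l 16775152) (c (l 16776696) (l 16776368))) (l 16775736)) (a (c (a (b (a (l 16776896) (l 21709718247)) (l 169349218615)) (b (l 190824055255) (l 4))) (l 100092871751)) (l 4))) (a (l 16775704) (l 165054251927))) (a (c (a (l 16776120) (c (a (b (l 16776800) (a (l 16777120) (l 124788933527))) (a (b (l 77007422231) (l 4)) (l 202098344551))) (l 76470550119))) (l 16776648)) (l 4))) (a (l 16776096) (l 122104585335))))))), by decide +kernel⟩

def k141_mm_202_t : ∃ t, chk3 f_mm_202_t t 56 19 3 = true :=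
  ⟨(b (c (c (b (a (l 16709576) (l 16698880)) (a (l 16720416) (l 16709600))) (b (a (l 16707344) (l 16697032)) (a (l 16718496) (l 16708056)))) (c (b (a (l 16704992) (b (l 16713136) (l 16718936))) (a (l 16695496) (b (l 16724616) (l 16730136)))) (b (a (l 16681560) (b (l 16711016) (l 16716984))) (a (l 16698608) (b (l 16722832) (l 16728520)))))) (c (b (a (c (l 16709600) (l 16707984)) (c (l 16719672) (l 16718432))) (a (c (l 16719064) (l 16717736)) (c (l 16729080) (l 16728128)))) (b (a (b (l 16702728) (l 16707992)) (b (a (l 16731952) (l 16737608)) (b (l 16717752) (l 16720320)))) (a (b (l 16713088) (l 16718072)) (c (a (l 16724368) (l 16729880)) (b (l 16723528) (l 16728576))))))), by decide +kernel⟩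

def k142_mm_202_t : ∃ t, chk3 f_mm_202_t t 57 19 3 = true :=
  ⟨(a (b (c (c (b (a (l 16727896) (l 16733432)) (c (l 16720512) (l 16719944))) (b (b (l 16726416) (l 16731952)) (c (l 16719368) (l 16718776)))) (b (b (a (l 16720936) (l 16727008)) (b (l 16717824) (l 16720680))) (c (a (l 16714936) (l 16731264)) (b (l 16724224) (l 16729832))))) (b (c (b (c (l 16727760) (l 16726824)) (c (l 16732584) (l 16731800))) (c (b (l 16725840) (l 16730968)) (b (l 16735296) (l 16737960)))) (c (c (l 16760504) (l 16759944)) (a (b (l 16743136) (l 16748072)) (b (l 16748976) (l 16764384)))))) (b (c (c (b (a (l 16718128) (l 16734400)) (a (l 16728496) (l 16744664))) (b (a (l 16716960) (l 16733432)) (a (l 16727624) (l 16743984)))) (b (a (b (l 16733208) (l 16728408)) (b (l 16729040) (c (l 16745648) (l 16744664)))) (a (b (l 16733976) (l 16739416)) (c (c (l 16732968) (l 16743088)) (b (l 16750256) (l 16745232)))))) (b (c (c (b (l 16749240) (l 16764488)) (b (l 16748680) (l 16764080))) (c (b (c (l 16737760) (l 16747944)) (l 16763648)) (b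 (a (l 16754864) (l 16750584)) (a (l 16749624) (l 16755792))))) (c (b (c (l 16769112) (l 16768848)) (a (l 16770760) (a (l 16774904) (b (l 16776496) (l 118346489031))))) (a (b (l 16765400) (l 16767688)) (a (b (l 16769920) (b (l 16773600) (l 16775920))) (b (l 16772968) (c (b (l 16776440) (l 124252067863)) (b (l 16776408) (l 220888822103)))))))))), by decide +kernel⟩

def k143_mm_202_t : ∃ t, chk3 f_mm_202_t t 58 76 2 = true :=
  ⟨(b (a (a (c (c (a (l 16749848) (l 16747272)) (l 16740008)) (l 16738896)) (c (c (c (a (l 16755344) (l 16752800)) (l 16749880)) (a (l 16754632) (l 16757424))) (c (l 16744976) (l 16754864)))) (a (c (a (c (b (l 16759488) (l 16756584)) (l 16755000)) (c (b (l 16757016) (c (l 16764664) (l 16764504))) (l 16757832))) (l 16761040)) (a (c (c (c (b (l 16762504) (a (l 16766728) (l 16768112))) (c (l 16761592) (l 16760864))) (c (l 16760760) (l 16755376))) (l 16765496)) (c (c (b (b (l 16764656) (c (l 16768496) (l 16768384))) (c (a (l 16766888) (c (l 16768960) (l 16770888))) (l 16767504))) (c (l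 16763952) (l 16763520))) (l 16768488))))) (b (a (a (c (c (l 16749464) (l 16754104)) (l 16753136)) (c (c (b (l 16754240) (l 16756048)) (l 16749128)) (l 16748400))) (c (a (c (a (a (l 16763448) (l 16764816)) (a (l 16763568) (l 16764944))) (l 16759960)) (c (c (b (a (l 16766504) (a (l 16771208) (l 16771296))) (c (a (l 16767656) (a (l 16772352) (l 16772424))) (l 16771624))) (l 16771664)) (l 16770888))) (a (l 16759480) (l 16770640)))) (a (c (a (c (l 16751776) (l 16756480)) (c (a (l 16761008) (l 16758456)) (l 16756720))) (l 16761088)) (c (a (c (a (c (l 16763856) (l 16766344)) (c (a (l 16768512) (l 16767256)) (l 16763848))) (c (l 16762352) (l 16756984))) (c (a (a (b (l 16768024) (l 16770456)) (c (b (l 16772064) (l 16771864)) (l 16769944))) (c (a (c (l 16774016) (l 16774000)) (b (l 16774840) (a (l 16775600) (l 16776296)))) (l 16774672))) (a (l 16766528) (l 16774624)))) (a (l 16767144) (l 16773040)))))), by decide +kernel⟩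

def k144_mm_202_t : ∃ t, chk3 f_mm_202_t t 116 77 2 = true :=
  ⟨(c (b (a (a (b (l 16752496) (l 16754784)) (c (b (l 16760616) (l 16757624)) (l 16750848))) (b (c (c (a (l 16763360) (l 16760784)) (l 16759288)) (l 16759040)) (c (a (c (l 16765584) (l 16765440)) (a (l 16764888) (l 16766232))) (l 16761328)))) (b (c (a (a (l 16757240) (l 16762464)) (a (c (l 16765160) (l 16767656)) (l 16771032))) (a (l 16752936) (l 16768832))) (c (a (l 16767296) (a (l 16769904) (a (l 16771880) (a (l 16772880) (l 16773872))))) (a (l 16760432) (l 16771064))))) (c (b (l 16762312) (a (l 16753712) (l 16769752))) (b (l 16761888) (l 16766680)))), by decide +kernel⟩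

def k145_mm_202_t : ∃ t, chk3 f_mm_202_t t 234 154 4 = true :=
  ⟨(c (c (b (c (b (a (l 16768184) (l 16768264)) (l 16771288)) (l 16770040)) (b (a (l 16767744) (l 16773064)) (c (a (l 16768856) (l 16774160)) (l 16773448)))) (b (l 16769976) (a (l 16765592) (l 16773560)))) (b (l 16769832) (l 16772104))), by decide +kernel⟩

def k146_mm_202_t : ∃ t, chk3 f_mm_202_t t 235 154 4 = true :=
  ⟨(a (c (a (b (c (l 16773464) (l 16770792)) (c (b (l 16775104) (c (a (l 16775848) (b (l 16776256) (a (l 16776632) (l 16777128)))) (l 16776184))) (l 16775624))) (b (b (l 16774264) (a (l 16775024) (l 16775880))) (b (c (b (l 16776200) (a (l 16776400) (a (l 16776912) (b (l 16777432) (a (l 107609063911) (l 4)))))) (l 16776440)) (b (a (a (l 16776768) (b (l 16776976) (a (l 16777152) (l 123178320391)))) (a (a (b (l 77007421895) (l 4)) (l 203708956999)) (l 4))) (a (a (b (a (l 16777088) (l 86134227447)) (l 187602829543)) (l 213909504439)) (l 4)))))) (b (l 16774048) (b (l 16775728) (a (l 16776152) (l 88818584423))))) (a (b (c (b (c (c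 (l 16775664) (l 16775656)) (l 16775640)) (b (a (l 16776136) (a (l 16776656) (a (l 16776912) (b (l 16776952) (l 72712453943))))) (a (c (l 16776680) (l 16776680)) (c (a (b (l 16777056) (a (l 79691776487) (l 176865411527))) (c (l 192434667847) (l 151632479111))) (l 16777896))))) (l 16777456)) (a (c (b (a (c (b (a (l 16776968) (b (l 16777008) (l 98482258359))) (l 202635215239)) (l 81302390183)) (b (b (a (l 16777488) (l 131768254999)) (l 4)) (l 4))) (l 4)) (l 169349219031)) (l 4))) (b (b (c (a (b (l 16776424) (a (l 16776800) (b (l 16777008) (a (l 13656654247) (l 138210705975))))) (a (c (b (c (l 16777104) (l 16776936)) (a (b (l 94187291063) (l 4)) (l 4))) (l 16777880)) (c (b (b (a (l 16777064) (l 76470550999)) (l 185992216791)) (l 4)) (l 116198999623)))) (l 16778256)) (c (c (a (a (b (b (a (l 16777120) (l 105461580247)) (l 202635215127)) (l 4)) (l 4)) (l 4)) (l 190287184759)) (l 186529088359))) (l 4)))), by decide +kernel⟩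

def k147_mm_202_t : ∃ t, chk3 f_mm_202_t t 117 154 5 = true :=
  ⟨(b (a (l 16769536) (a (l 16773928) (b (l 16776224) (l 65733136407)))) (a (l 16771896) (a (c (l 16776168) (l 16776136)) (c (l 184918476487) (l 137136969863))))), by decide +kernel⟩

def k148_mm_202_t : ∃ t, chk3 f_mm_202_t t 117 155 2 = true :=
  ⟨(a (c (b (b (c (a (l 16773168) (c (a (l 16774560) (c (l 16775912) (l 16775904))) (l 16775208))) (l 16773784)) (b (c (a (l 16773328) (a (l 16775352) (a (l 16776368) (a (l 16776880) (b (l 16777400) (a (l 89355452935) (l 4))))))) (l 16774608)) (c (a (l 16774200) (a (l 16775888) (a (a (l 16776736) (a (l 16776992) (b (l 16777024) (l 101166613031)))) (a (a (b (l 16777512) (l 4)) (l 193508409623)) (l 4))))) (a (l 16773784) (l 16777808))))) (a (c (c (a (c (l 16774568) (l 16774552)) (b (l 16775360) (a (l 16776088) (a (l 16776592) (c (b (l 16776664) (b (l 16777048) (l 106535321511))) (l 16776904)))))) (a (l 16774528) (l 16775872))) (l 16775160)) (b (c (b (a (c (c (a (l 16776104) (l 16776768)) (l 16776432))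 (l 16776424)) (c (a (a (b (l 16777456) (a (l 117272740343) (l 4))) (l 205856440727)) (l 4)) (l 174717927943))) (a (a (l 16776624) (a (b (l 16777000) (a (l 16777168) (l 131768254999))) (a (b (l 83986743783) (l 4)) (l 211225149783)))) (l 4))) (a (l 16776648) (l 134452612103))) (a (a (c (c (b (a (a (l 16776912) (l 16777392)) (b (a (l 16777104) (l 97408516551)) (l 196729635063))) (c (a (l 186529087799) (l 4)) (l 195119022551))) (l 88281711159)) (l 16777240)) (l 4)) (l 4))))) (b (c (l 16774232) (l 16774152)) (a (l 16775072) (a (l 16779624) (l 137136969111))))) (a (a (b (c (c (a (b (b (l 16776648) (a (a (l 16776936) (b (l 16776968) (l 80228647383))) (b (a (l 16777136) (l 108682805815)) (l 209077666071)))) (a (b (c (l 194045280599) (l 16777384)) (l 4)) (l 4))) (b (b (a (b (l 16777024) (a (l 66806874567) (l 146263769671))) (a (b (l 97408516631) (l 4)) (l 4))) (l 4)) (l 4))) (b (l 64122522295) (l 209614537799))) (l 86671103543)) (l 4)) (l 4)) (l 4))), by decide +kernel⟩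

def k149_mm_202_t : ∃ t, chk3 f_mm_202_t t 58 38 3 = true :=
  ⟨(b (c (a (b (c (l 16740720) (l 16737344)) (a (l 16742544) (a (l 16747104) (l 16750176)))) (c (b (l 16763480) (a (l 16754984) (l 16771624))) (b (l 16762440) (a (l 16754648) (l 16771472))))) (b (a (c (c (l 16739376) (l 16738976)) (a (l 16745504) (l 16741672))) (a (b (l 16749888) (l 16752648)) (c (l 16755496) (b (l 16753784) (l 16756552))))) (c (a (a (l 16751936) (l 16747840)) (a (l 16754296) (l 16771312))) (a (a (l 16751160) (l 16747272)) (a (b (l 16752552) (l 16755288)) (b (l 16764536) (l 16772488))))))) (a (c (c (a (l 16760968) (l 16763936)) (a (l 16760472) (l 16763960))) (b (a (b (l 16745160) (l 16747856)) (c (l 16753152) (l 16752736))) (c (a (l 16752072) (l 16768832)) (a (l 16751608) (l 16768576))))) (a (c (a (b (l 16768808) (l 16773736)) (b (l 16771880) (b (l 16775520) (c (l 16779912) (l 16779888))))) (b (c (l 16770040) (l 16768440)) (b (c (l 16773864) (l 16773760)) (a (l 16774800) (c (l 80765524103) (b (l 58753815079) (l 123715195623)))))))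 (b (a (c (b (l 16773736) (l 16778696)) (b (l 16773536) (a (l 16775328) (c (l 16776768) (l 16776744))))) (b (a (c (l 16776032) (l 16775960)) (c (l 68954363479) (c (l 16777136) (l 71638711799)))) (b (c (l 122104583767) (l 176865412103)) (l 4)))) (a (a (b (c (l 81839265447) (c (l 16777296) (l 84523619031))) (l 4)) (l 4)) (l 4)))))), by decide +kernel⟩

def k150_mm_202_t : ∃ t, chk3 f_mm_202_t t 236 152 1 = true :=
  ⟨(c (b (c (a (c (a (b (l 16769408) (l 16767944)) (b (l 16768216) (a (l 16771632) (l 16771032)))) (l 16765296)) (c (c (c (a (b (l 16772312) (l 16772144)) (c (l 16774640) (l 16774304))) (l 16773576)) (l 16773544)) (l 16773480))) (l 16771816)) (a (c (c (c (b (a (l 16771744) (c (l 16771864) (l 16773144))) (a (l 16771568) (a (l 16772624) (l 16773336)))) (l 16772968)) (l 16772896)) (l 16772728)) (b (c (c (c (b (a (l 16772984) (l 16775720)) (c (a (l 16773560) (l 16776288)) (l 16775568))) (l 16775272)) (l 16775232)) (l 16775160)) (c (c (c (a (c (l 16775712) (l 16775704)) (b (a (l 16776496) (a (a (l 16776936)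 (b (l 16776976) (a (l 16777192) (l 115662127511)))) (b (a (l 16777144) (l 119420224007)) (l 217130729783)))) (a (a (l 16776872) (a (b (l 16777008) (l 99556000199)) (b (l 16777328) (l 4)))) (a (c (l 199950860663) (l 165054251863)) (l 4))))) (a (l 16775688) (a (l 16776744) (a (l 75933679783) (l 130157643367))))) (c (a (l 16775672) (l 6677334359)) (l 16776312))) (l 16776280))))) (c (c (l 16772832) (l 16772712)) (a (b (l 16764264) (l 16772216)) (b (l 16772904) (c (l 16775536) (l 16777128)))))), by decide +kernel⟩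

def k151_mm_202_t : ∃ t, chk3 f_mm_202_t t 236 306 1 = true :=
  ⟨(a (c (c (c (c (a (b (a (l 16773656) (l 16773048)) (l 16775128)) (b (l 16775576) (a (l 16776176) (b (l 16776608) (a (a (l 16776896) (b (l 16776936) (l 13119783367))) (b (a (l 16777104) (l 101166612935)) (l 199950860551))))))) (a (l 16774536) (b (l 16775392) (c (l 16777160) (l 16776496))))) (c (l 16775208) (l 16775184))) (l 16775120)) (c (l 16775000) (l 16774880))) (b (a (c (c (c (b (c (b (l 16776408) (a (l 16776336) (a (l 16776864) (a (l 16777128) (l 109756547559))))) (l 16776536)) (a (c (c (a (l 16776576) (l 16777088)) (l 16776752)) (l 16776744)) (c (a (b (a (l 16777056) (l 72175583031)) (l 183307862215)) (l 210688278951)) (l 105461581095)))) (l 16776752)) (l 16776728)) (c (l 16776696) (l 16776664))) (a (a (c (c (c (c (b (a (b (l 12046041527) (l 4)) (l 201024602423)) (l 4)) (l 183844733399)) (l 16778104)) (l 16777440)) (l 115125259559)) (l 4)) (l 4))) (a (b (a (c (c (c (c (b (a (l 16776992) (a (l 82913001319) (l 179549766103))) (a (a (l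 16777336) (l 140358189527)) (l 4))) (l 16777848)) (l 16777192)) (l 16777184)) (l 16777160)) (l 4)) (l 4)) (l 4)))), by decide +kernel⟩

def k152_mm_202_t : ∃ t, chk3 f_mm_202_t t 236 307 1 = true :=
  ⟨(a (a (c (c (c (c (b (a (l 16775888) (a (l 16776416) (b (l 16776488) (a (l 16776952) (b (l 16776992) (l 85597356535)))))) (b (b (a (l 16776576) (a (l 16777416) (l 193508409575))) (a (l 16776856) (a (a (l 103850967495) (l 4)) (l 4)))) (a (a (a (l 16777000) (b (l 16777040) (l 112977773047))) (a (b (l 64122520007) (l 4)) (l 203708956983))) (l 4)))) (b (l 16776224) (a (l 16777928) (l 168812347799)))) (b (l 16776200) (l 70028101111))) (l 16779264)) (c (l 16776592) (c (l 16776560) (l 16776528)))) (b (c (a (c (c (a (b (l 16776832) (b (a (l 16777480) (l 126399545863)) (l 216056987959))) (c (b (b (l 16777040) (a (l 73786196439) (l 171496702407))) (l 4)) (l 100629743111))) (l 16777136)) (l 16777120)) (a (a (b (b (b (a (l 16777192) (l 119420223975)) (l 4)) (l 4)) (l 4)) (l 4)) (l 4))) (c (l 16777296) (l 86671101591)))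 (l 4))) (l 4)), by decide +kernel⟩

def k153_mm_202_t : ∃ t, chk3 f_mm_202_t t 236 77 1 = true :=
  ⟨(a (a (a (b (b (b (c (c (c (c (b (c (l 217130730071) (l 217667600983)) (l 4)) (l 216593859431)) (l 172033575063)) (l 16777624)) (l 154316836583)) (l 4)) (l 4)) (l 4)) (l 4)) (l 4)) (l 4)), by decide +kernel⟩

def k154_mm_202_t : ∃ t, chk3 f_mm_202_t t 237 38 1 = true :=
  ⟨(b (b (b (b (a (c (c (c (b (c (c (a (l 16773576) (a (l 16775312) (l 16776688))) (l 16775600)) (l 16775584)) (a (l 16775608) (a (l 16776528) (a (b (l 16776936) (a (l 16777120) (a (l 90429194679) (l 144116285911)))) (b (a (a (l 16777152) (l 77544292199)) (l 143042544199)) (l 4)))))) (l 16776808)) (l 16775768)) (c (l 16775696) (l 16775608))) (a (a (b (c (c (c (b (c (a (c (l 16777368) (l 16777080)) (l 190824055015)) (l 16777184)) (a (a (a (l 71638712791) (l 127473287639)) (l 4)) (l 4))) (l 16777264)) (l 16777256)) (l 16778544)) (l 4)) (l 4)) (l 4))) (a (c (a (c (c (c (a (l 16775944) (a (l 16776488) (b (l 16776560) (b (l 16776984) (a (l 16777328)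 (l 133915738615)))))) (l 16776288)) (l 16776264)) (l 16776232)) (c (b (c (c (b (a (a (l 16776784) (a (l 16777048) (a (l 16777176) (l 97408516503)))) (l 211225149911)) (a (a (l 16777224) (l 182770991303)) (l 4))) (a (l 16777056) (l 215520117335))) (l 82913003831)) (b (c (a (a (a (a (l 16777440) (l 109756547559)) (l 169886089767)) (l 4)) (l 4)) (l 148411254695)) (l 4))) (l 16778696))) (c (l 16779888) (a (l 16776120) (l 93113552663)))) (l 4))) (b (a (a (c (c (b (c (a (a (l 16776616) (a (l 16776888) (b (l 16776920) (a (l 16777152) (l 78081163767))))) (a (b (a (l 16777096) (a (l 71638712791) (l 127473287639))) (l 195655893255)) (l 4))) (l 16777056)) (c (a (b (a (l 16777280) (a (a (l 90966065591) (l 144116285911)) (l 4))) (a (a (a (l 16777176) (l 97408516551)) (l 158074929719)) (l 4))) (l 4)) (l 112977774919))) (l 16777168)) (c (l 16777136) (l 65196265271))) (l 4)) (l 4)) (l 4))) (l 4)) (l 4)), by decide +kernel⟩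

def k155_mm_202_t : ∃ t, chk3 f_mm_202_t t 119 38 1 = true :=
  ⟨(l 4), by decide +kernel⟩

def k156_mm_202_t : ∃ t, chk3 f_mm_202_t t 232 78 1 = true :=
  ⟨(c (c (b (c (c (b (l 16768208) (a (l 16769048) (l 16771608))) (b (l 16768088) (l 16770240))) (l 16770312)) (c (a (c (b (l 16771152) (l 16773624)) (l 16772120)) (a (b (l 16773024) (b (l 16774584) (l 16775776))) (b (c (l 16774328) (l 16774296)) (b (c (l 16775872) (l 16775856)) (b (a (l 16776312) (a (l 16776792) (b (l 16776984) (l 73786196631)))) (c (a (l 16776824) (a (b (l 16777160) (l 149484995191)) (l 212835762599))) (l 16777736))))))) (a (l 16772008) (b (l 16773568) (l 16776984))))) (b (l 16768648) (c (l 16773200) (l 16773080)))) (c (b (l 16768120) (c (l 16772952) (l 16772816))) (b (b (l 16755760) (l 16768816)) (c (l 16772672) (l 16772528))))), by decide +kernel⟩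

def k157_mm_202_t : ∃ t, chk3 f_mm_202_t t 232 79 1 = true :=
  ⟨(b (b (a (c (c (c (c (a (l 16774616) (b (l 16775368) (c (a (l 16776064) (b (l 16776440) (l 16777424))) (l 16776368)))) (l 16775216)) (l 16775176)) (l 16775080)) (c (l 16774944) (l 16774792))) (c (b (c (b (c (a (l 16776376) (a (a (b (l 16777040) (l 97945387639)) (l 176328540439)) (l 4))) (l 8287947687)) (c (a (a (l 16776568) (a (l 16777520) (b (l 72175583847) (l 170422960823)))) (l 4)) (l 81302390887))) (l 16776976)) (c (c (a (b (c (a (a (l 16776912) (a (l 16777136) (l 94724162247))) (l 197803377143)) (l 83449874199)) (c (a (c (l 175791669607) (l 135526352023)) (l 4)) (l 187065959079))) (l 4)) (l 167738606551)) (l 116199003367))) (c (l 73249332391) (c (l 76470556647) (l 76470554183))))) (a (c (c (a (c (b (c (l 16776128) (l 16776112)) (a (a (l 16776648) (b (l 16776712) (a (l 16777120) (l 89892323447)))) (b (a (l 16777016) (a (l 78081163415) (l 129620771671))) (l 191897797079)))) (l 16776544)) (b (c (b (a (l 16776808) (a (b (l 16777144) (l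 138747577015)) (l 208003924359))) (a (a (b (l 16777032) (l 89355453063)) (l 172033573111)) (l 4))) (l 16777176)) (l 4))) (l 56606330839)) (c (l 16779528) (a (l 16776392) (l 91502941767)))) (l 4))) (a (a (b (b (c (c (a (a (b (b (l 81302389575) (l 4)) (l 4)) (l 4)) (l 4)) (l 16777648)) (l 144116290295)) (l 4)) (l 4)) (l 4)) (l 4))), by decide +kernel⟩

def k158_mm_202_t : ∃ t, chk3 f_mm_202_t t 233 156 1 = true :=
  ⟨(c (b (c (c (c (a (l 16772080) (a (l 16774040) (b (l 16774832) (l 16775880)))) (a (l 16772016) (l 16774672))) (l 16773264)) (l 16773096)) (c (c (a (c (b (l 16773664) (c (l 16774720) (l 16774704))) (l 16774152)) (a (c (b (l 16775616) (b (l 16776400) (a (l 16776592) (a (b (l 16776952) (l 66270003719)) (b (l 87744840279) (l 4)))))) (b (l 16775600) (l 16776624))) (b (b (a (l 16776336) (a (l 16776832) (b (l 16777024) (a (l 16777192) (l 141968802359))))) (c (a (c (a (l 16776696) (l 16777344)) (l 16776848)) (a (b (l 71638712183) (l 204245827863)) (l 4))) (l 63585647607))) (c (a (b (a (b (l 16777080)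 (l 116198998615)) (l 191360926023)) (l 4)) (l 4)) (l 176865411783))))) (a (l 16774088) (a (l 16776080) (b (l 16776856) (l 128547031991))))) (a (l 16773952) (c (l 16779224) (l 16776576))))) (c (c (l 16776624) (l 16776520)) (a (l 16769640) (b (l 16774168) (a (l 16775872) (l 64659390871)))))), by decide +kernel⟩

def k159_mm_202_t : ∃ t, chk3 f_mm_202_t t 233 157 1 = true :=
  ⟨(b (a (c (c (c (a (c (b (l 16775104) (c (l 16776136) (l 16776128))) (l 16775592)) (b (a (l 16776064) (c (a (l 16776552) (b (l 16776624) (b (l 16777008) (l 83986743879)))) (l 16776696))) (b (c (a (l 16777160) (a (b (l 16777504) (l 157001187991)) (l 4))) (l 17414751767)) (c (a (a (b (l 16777064) (l 108682805815)) (l 184918475047)) (l 4)) (l 121567709015))))) (a (l 16775560) (b (l 16776360) (l 78618036935)))) (l 16778720)) (c (l 16776024) (a (l 16775264) (l 16776672)))) (a (c (c (c (b (c (a (b (a (l 16776944) (b (l 16777128) (l 139284447831))) (a (l 172033572439) (l 4))) (b (l 210151408167) (l 4))) (l 154853702727)) (l 4)) (l 167738606471))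 (l 112440907399)) (c (l 109219681879) (l 111904036503))) (l 4))) (a (a (c (c (a (c (b (b (l 16776576) (a (l 16776920) (b (l 16777112) (l 122104578775)))) (a (b (b (l 99019129511) (l 4)) (l 4)) (l 4))) (l 69491229463)) (c (b (c (b (a (a (l 16776976) (l 16777456)) (b (l 80765518391) (l 4))) (l 201561473559)) (l 96871646983)) (l 4)) (l 118883356295))) (l 80765523367)) (c (l 16777240) (l 78618039895))) (l 4)) (l 4))), by decide +kernel⟩

def k160_mm_202_t : ∃ t, chk3 f_mm_202_t t 233 79 1 = true :=
  ⟨(l 4), by decide +kernel⟩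

def k161_mm_202_t : ∃ t, chk3 f_mm_202_t t 117 39 1 = true :=
  ⟨(a (a (b (b (a (b (c (c (b (c (c (c (a (l 16775824) (l 16776480)) (l 16776144)) (l 16776136)) (l 16776112)) (c (c (a (b (l 16776608) (a (l 16776960) (b (l 16777480) (l 147874382455)))) (b (a (b (l 16776976) (l 76470550407)) (a (b (l 16777192) (l 4)) (l 201561473335))) (l 214983246407))) (a (l 16776840) (l 103314097991))) (l 16778392))) (l 16776552)) (c (l 16776496) (l 16776440))) (a (a (b (c (a (b (b (b (l 16777528) (l 150021866087)) (l 4)) (l 4)) (l 4)) (l 124788935943)) (l 4)) (l 4)) (l 4))) (b (b (c (c (c (a (b (b (l 16776752) (a (l 16776848) (a (l 16777096) (l 88818582007)))) (c (a (b (l 16777104) (l 123715191431)) (l 198340247911)) (l 16777272))) (a (b (b (a (l 16777152) (l 124788933127)) (l 212835762487)) (l 4)) (l 4))) (l 82376133463)) (l 16777216)) (a (l 16778336) (l 117809614631))) (l 4)) (l 4))) (l 4)) (l 4)) (l 4)) (l 4)), by decide +kernel⟩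

def k162_mm_202_t : ∃ t, chk3 f_mm_202_t t 59 39 1 = true :=
  ⟨(l 4), by decide +kernel⟩

def k163_mm_202_t : ∃ t, chk3 f_mm_202_t t 120 72 2 = true :=
  ⟨(b (b (a (c (c (a (l 16754864) (l 16758088)) (a (l 16754392) (l 16757688))) (c (l 16755584) (l 16755104))) (a (c (c (c (l 16761424) (l 16761264)) (l 16761016)) (l 16755256)) (b (c (c (l 16766584) (l 16763696)) (l 16763264)) (c (c (l 16766616) (l 16765056)) (l 16764680))))) (c (a (c (a (l 16757552) (c (l 16760848) (l 16760680))) (a (l 16757128) (l 16760424))) (c (a (b (l 16763352) (l 16767304)) (c (a (l 16766528) (l 16769392)) (a (l 16766416) (l 16768080)))) (a (c (l 16763816) (l 16763672)) (c (l 16764528) (l 16767048))))) (a (c (l 16753136) (l 16757968)) (c (c (l 16759664) (l 16759864)) (l 16759672))))) (b (c (a (a (c (l 16762832) (l 16759848)) (c (c (l 16766112) (l 16763344)) (l 16763128))) (c (b (a (c (l 16766056) (l 16765944)) (a (l 16768456) (a (l 16769688) (l 16770512)))) (a (c (l 16768680) (l 16767264)) (a (l 16771080) (a (l 16771000) (l 16772480)))))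 (a (c (l 16766496) (l 16766384)) (b (l 16766496) (l 16767832))))) (a (a (l 16759272) (l 16757432)) (c (a (l 16766216) (l 16764392)) (l 16762488)))) (c (c (b (a (a (l 16762184) (l 16766696)) (a (a (l 16767816) (l 16770752)) (a (c (l 16772416) (l 16771040)) (c (a (l 16772328) (l 16773800)) (l 16772696))))) (a (a (l 16763488) (c (l 16766744) (l 16766640))) (a (a (l 16770424) (a (l 16770328) (l 16771144))) (a (c (c (l 16773064) (l 16772384)) (l 16772344)) (c (a (c (l 16774280) (l 16773608)) (b (l 16774112) (a (l 16774552) (l 16774960)))) (l 16772688)))))) (a (a (l 16762536) (a (l 16764984) (l 16766632))) (c (a (l 16765224) (a (l 16769016) (l 16770688))) (a (l 16769072) (l 16767184))))) (a (c (a (l 16762216) (l 16765560)) (l 16753112)) (c (l 16770648) (l 16770504)))))), by decide +kernel⟩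

def k164_mm_202_t : ∃ t, chk3 f_mm_202_t t 242 144 2 = true :=
  ⟨(c (c (a (a (b (c (l 16768480) (l 16767072)) (b (l 16770424) (a (l 16770024) (l 16770856)))) (b (b (l 16768120) (l 16770112)) (a (b (l 16770368) (l 16772344)) (b (l 16772512) (a (l 16773624) (l 16773384)))))) (a (b (c (b (l 16769832) (l 16772472)) (b (l 16769760) (l 16771104))) (b (c (a (l 16772064) (l 16773552)) (l 16772432)) (a (b (l 16773024) (l 16774344)) (b (l 16774520) (a (l 16774312) (l 16774080)))))) (b (b (c (l 16772496) (l 16771456)) (c (b (l 16773816) (l 16773984)) (l 16770176))) (c (c (b (a (l 16774400) (b (l 16774256) (l 16774912))) (a (b (l 16774728) (a (l 16775168) (l 16775584))) (b (a (l 16775352) (l 16775120)) (a (l 16775352) (a (l 16775664) (l 16775872)))))) (a (b (l 16773728) (l 16773728)) (b (l 16773256) (a (l 16774360) (l 16774784))))) (a (b (l 16773704) (l 16773712)) (l 16775128)))))) (b (a (a (l 16766920) (l 16766000)) (c (b (l 16767920) (l 16769272)) (l 16767232))) (a (a (l 16767008) (a (l 16768280) (l 16769136)))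 (a (c (l 16770440) (l 16767776)) (l 16774096))))) (c (a (b (l 16762336) (l 16765096)) (b (l 16765824) (l 16773832))) (c (l 16769632) (l 16770544)))), by decide +kernel⟩

def k165_mm_202_t : ∃ t, chk3 f_mm_202_t t 484 290 4 = true :=
  ⟨(c (b (a (b (l 16772736) (l 16772904)) (c (a (l 16773680) (b (l 16773528) (l 16774176))) (l 16770776))) (c (b (a (l 16774072) (c (a (l 16774008) (l 16774832)) (l 16773096))) (a (c (l 16774072) (l 16773400)) (a (a (l 16774440) (l 16774856)) (a (l 16775272) (l 16775032))))) (a (l 16770424) (c (l 16773408) (l 16772088))))) (a (c (l 16769720) (l 16772288)) (l 16774008))), by decide +kernel⟩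

def k166_mm_202_t : ∃ t, chk3 f_mm_202_t t 485 290 4 = true :=
  ⟨(b (c (b (a (c (a (l 16774360) (a (l 16774984) (l 16775400))) (l 16772128)) (c (b (c (a (l 16775208) (l 16776784)) (l 16776280)) (a (a (l 16775984) (l 16775744)) (a (l 16776816) (a (a (l 16777080) (b (l 16777104) (l 97408516375))) (b (a (l 16777192) (l 147337511175)) (l 4)))))) (a (l 16773392) (l 16777496)))) (a (c (a (a (l 16774800) (l 16775216)) (a (l 16774976) (a (l 16775288) (l 16775496)))) (l 16774096)) (a (c (b (a (l 16775648) (l 16776400)) (a (l 16776304) (a (l 16776944) (a (l 16777096) (b (l 16777120) (l 121567707399)))))) (l 16776664)) (a (c (a (b (l 16777032) (a (b (l 16777368) (l 4)) (l 172033573303))) (b (b (l 16777320) (c (l 132305125719) (l 16777264))) (l 4))) (l 77544292647)) (b (b (l 209614536951) (l 4)) (l 4)))))) (a (l 16775048) (b (l 16776408) (a (l 16776656) (l 95797905031))))) (b (a (c (c (a (a (l 16775448) (c (l 16775216) (l 16775864))) (a (b (l 16776120) (l 16775792)) (l 16776704))) (l 16776064)) (l 16776048)) (a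 (c (a (c (a (b (l 16776192) (a (l 16777280) (b (l 16777144) (l 146263769335)))) (b (l 16777216) (a (b (l 86671098119) (l 4)) (l 4)))) (l 16777072)) (c (b (a (b (a (l 16777136) (l 16777336)) (l 143042543991)) (l 219815084279)) (l 4)) (l 124252062791))) (l 65196263031)) (l 4))) (a (c (b (c (a (a (l 16775936) (l 16775696)) (a (l 16776440) (c (a (l 16777240) (b (a (l 16777152) (l 92039807255)) (l 169886089527))) (l 16777480)))) (l 16776872)) (a (a (l 16775600) (l 16776672)) (b (a (l 16777128) (c (c (l 192971538631) (l 150021865991)) (l 16777312))) (a (a (l 16777064) (a (l 16777368) (l 155927445815))) (l 4))))) (l 16777648)) (l 4)))), by decide +kernel⟩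

def k167_mm_202_t : ∃ t, chk3 f_mm_202_t t 242 290 5 = true :=
  ⟨(b (a (l 16768416) (a (l 16774984) (a (l 16776296) (l 16777048)))) (a (l 16773728) (a (l 16776312) (c (l 114588388663) (l 111367163255))))), by decide +kernel⟩

def k168_mm_202_t : ∃ t, chk3 f_mm_202_t t 484 291 2 = true :=
  ⟨(c (a (c (c (b (a (b (l 16773648) (l 16774288)) (c (b (l 16774480) (l 16774464)) (l 16773480))) (a (a (b (l 16774728) (l 16775376)) (b (l 16775144) (l 16775128))) (a (c (b (l 16775560) (l 16775544)) (l 16774560)) (b (a (l 16775864) (l 16775416)) (b (l 16775792) (l 16776440)))))) (b (l 16772384) (l 16775656))) (l 16774968)) (b (c (a (c (a (b (l 16775088) (l 16775080)) (c (b (l 16775504) (l 16775496)) (l 16774512))) (l 16774288)) (c (b (c (c (a (l 16775920) (l 16775680)) (l 16775472)) (l 16774808)) (b (l 16776608) (a (l 16776392) (a (l 16777032) (b (l 16777152) (l 128547029335)))))) (l 16776432))) (l 16775992)) (a (b (c (b (l 16776416) (b (l 16776664) (a (l 16775960) (a (l 16776272) (l 16777128))))) (l 16776568)) (c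 (b (a (l 16776856) (a (b (l 16777088) (a (l 16777184) (l 125862674759))) (a (b (l 78081163559) (l 4)) (l 177402282439)))) (c (a (a (l 16777232) (b (a (l 16777144) (l 89892323591)) (l 152169349511))) (l 4)) (l 90966065559))) (l 16777120))) (b (c (c (b (b (a (l 16776960) (a (a (l 16777200) (l 156464316695)) (l 4))) (a (a (l 16777024) (a (l 16777168) (l 107609063719))) (l 4))) (a (b (a (l 16777328) (l 180623507783)) (l 198877118679)) (l 4))) (a (l 16777632) (l 147337511975))) (l 78618035863)) (l 4))))) (a (l 16774904) (b (l 16775960) (a (l 16776816) (l 98482260999))))), by decide +kernel⟩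

def k169_mm_202_t : ∃ t, chk3 f_mm_202_t t 485 291 2 = true :=
  ⟨(a (b (b (c (a (c (b (b (l 16776712) (a (l 16776008) (a (l 16776976) (a (l 16777128) (l 74323067159))))) (c (a (l 16776904) (a (b (l 16777128) (a (l 82376130823) (l 4))) (l 197803376839))) (l 16777720))) (l 16776912)) (c (c (a (a (b (b (a (l 16777168) (l 117272740103)) (l 180623507799)) (l 4)) (l 4)) (l 4)) (l 195119022599)) (l 143042545271))) (l 16778440)) (c (c (a (c (a (a (b (a (l 16777072) (b (l 16777096) (l 89355452695))) (l 206930182359)) (b (a (b (l 16777192) (l 4)) (l 157001187735)) (l 4))) (l 4)) (l 169349217959)) (l 4)) (l 184381604535)) (l 126399548327))) (l 4)) (l 4)), by decide +kernel⟩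

def k170_mm_202_t : ∃ t, chk3 f_mm_202_t t 243 576 2 = true :=
  ⟨(c (a (c (a (a (b (l 16772424) (l 16773088)) (b (l 16773272) (l 16774592))) (a (c (c (b (l 16774144) (l 16774808)) (l 16773152)) (l 16771816)) (c (a (b (l 16774776) (l 16774784)) (c (b (l 16775200) (l 16775208)) (l 16774216))) (l 16773992)))) (l 16773968)) (a (a (c (c (c (b (c (a (l 16775632) (l 16775400)) (l 16775184)) (a (a (l 16775528) (l 16775736)) (l 16776712))) (l 16776168)) (l 16776160)) (l 16776144)) (b (c (c (a (b (l 16775656) (l 16776152)) (a (l 16776800) (b (l 16776520) (b (l 16777096) (a (l 16777192) (l 146263769351)))))) (l 16776680)) (l 16776672)) (c (c (a (a (b (l 16776544) (b (l 16777112) (a (l 16777328) (l 170422960375)))) (c (b (b (l 16776344) (l 16777320)) (c (l 191897796791) (l 144653156855))) (b (l 16777072) (l 145190027767)))) (a (b (b (a (l 16777152) (l 96334774551)) (l 163980509543)) (l 4)) (l 4))) (a (l 16777664) (l 129083901031))) (l 67343746711)))) (b (a (c (a (a (c (b (c (l 16777216) (l 16777056)) (a (b (l 90429194503)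 (l 4)) (l 4))) (l 16777488)) (c (b (b (a (l 16777136) (l 84523614455)) (l 146800640375)) (l 4)) (l 111367160727))) (l 4)) (l 99019130535)) (l 4)) (l 4)))) (a (l 16773872) (a (c (l 16776496) (l 16776480)) (l 182770992039)))), by decide +kernel⟩

def k171_mm_202_t : ∃ t, chk3 f_mm_202_t t 243 577 2 = true :=
  ⟨(a (c (c (c (a (a (b (l 16773768) (l 16774432)) (b (l 16775272) (a (l 16775064) (l 16774832)))) (a (a (c (b (l 16775256) (l 16775256)) (l 16774264)) (b (a (l 16775568) (l 16775776)) (b (l 16776168) (l 16775840)))) (b (a (b (l 16775928) (l 16775608)) (b (l 16775704) (l 16776192))) (a (b (l 16776264) (l 16777024)) (a (b (l 16776912) (b (l 16777312) (a (l 99019129111) (l 4)))) (b (a (l 16777064) (b (l 16777096) (l 88818581783))) (l 205319569639))))))) (a (c (l 16773192) (l 16771864)) (a (l 16774464) (a (l 16776416) (a (l 16776728) (b (l 16774000) (l 75396809495))))))) (a (l 16771832) (a (l 16775752) (l 16777248)))) (c (l 16775272) (l 16775232))) (a (a (c (c (b (a (b (l 16776784) (a (l 16777088) (b (l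 16777296) (a (l 81302389031) (l 4))))) (a (c (b (a (l 16777048) (b (l 16777072) (l 77007421687))) (c (l 199950860487) (l 162369896903))) (l 16777680)) (b (b (a (l 16777168) (l 112977772855)) (l 179012895095)) (l 4)))) (c (a (b (a (b (a (l 16777184) (l 132305125671)) (l 4)) (l 4)) (l 4)) (l 4)) (l 198340248103))) (b (l 16777736) (l 146263770775))) (l 69491231815)) (l 4)) (l 4))), by decide +kernel⟩

def k172_mm_202_t : ∃ t, chk3 f_mm_202_t t 486 289 2 = true :=
  ⟨(b (c (c (c (a (a (a (b (l 16774880) (l 16774880)) (c (b (l 16775304) (l 16775304)) (l 16774312))) (c (b (c (a (l 16775728) (l 16775488)) (l 16775280)) (b (a (l 16776216) (l 16775984)) (a (l 16775888) (a (l 16776200) (l 16777224))))) (l 16776256))) (a (b (b (l 16776616) (a (l 16776240) (c (a (l 16777048) (b (l 16777368) (l 137136963943))) (l 16777448)))) (a (b (b (l 16776976) (a (l 16777032) (a (l 16777184) (l 128547029271)))) (b (a (a (l 16777144) (l 86671098119)) (l 4)) (l 204245827831))) (b (a (a (b (l 80228647159) (l 4)) (l 219278213319))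 (l 4)) (l 4)))) (b (a (b (a (a (l 16777088) (b (l 16777112) (l 105461580071))) (a (b (l 16777360) (l 4)) (l 165591122359))) (l 218204471639)) (l 4)) (l 4)))) (a (l 16775824) (b (a (l 16776760) (c (l 172570443463) (l 116735870407))) (a (a (c (l 59290682199) (l 16777144)) (l 197803377031)) (l 4))))) (a (l 16775800) (a (b (l 16776752) (l 80228648631)) (l 182770991751)))) (a (l 16775760) (a (l 16776984) (l 121567710215)))) (a (c (c (b (a (c (a (b (l 16776024) (l 16775696)) (l 16776608)) (l 16776392)) (a (b (l 16776864) (a (a (l 16777040) (b (l 16777064) (l 57680068919))) (b (a (l 16777160) (l 103850967335)) (l 163443638679)))) (b (a (b (l 16777096) (a (l 16777360) (l 144653156663))) (a (b (l 97945387287) (l 4)) (l 4))) (l 4)))) (a (b (a (l 16776680) (a (l 16776992) (b (l 16777120) (a (l 73249325335) (l 172033573143))))) (b (a (l 16776920) (a (a (l 16777176) (l 119957094711)) (l 4))) (a (b (l 16777040) (a (l 16777024) (l 66270003511))) (l 4)))) (c (a (b (c (a (l 195119022263) (l 4)) (l 158611800759)) (l 4))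 (l 4)) (l 210151408247)))) (a (l 16777328) (b (l 16778104) (l 211762020983)))) (a (l 16776656) (l 79154908183))) (l 4))), by decide +kernel⟩

def k173_mm_202_t : ∃ t, chk3 f_mm_202_t t 487 289 2 = true :=
  ⟨(l 4), by decide +kernel⟩

def k174_mm_202_t : ∃ t, chk3 f_mm_202_t t 243 145 2 = true :=
  ⟨(a (a (a (a (b (c (b (c (b (b (a (b (l 16777304) (a (l 96334774535) (l 4))) (c (l 200487731415) (l 16777320))) (l 4)) (l 4)) (l 132841998295)) (l 4)) (l 191897797719)) (l 4)) (l 4)) (l 4)) (l 4)) (l 4)), by decide +kernel⟩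

def k175_mm_202_t : ∃ t, chk3 f_mm_202_t t 240 146 2 = true :=
  ⟨(b (c (a (c (b (l 16767416) (l 16767400)) (l 16759944)) (a (c (c (l 16769192) (l 16767784)) (l 16767640)) (c (b (l 16768792) (l 16771392)) (l 16764032)))) (c (c (l 16761416) (l 16756056)) (l 16755880))) (c (c (a (a (c (l 16767272) (l 16767168)) (b (l 16768168) (l 16770760))) (c (a (b (l 16769800) (l 16771072)) (b (l 16772704) (a (l 16772264) (l 16774376)))) (a (l 16767744) (b (l 16771336) (l 16772616))))) (a (c (l 16767872) (l 16767768)) (a (l 16767640) (l 16769272)))) (a (l 16762264) (l 16770880)))), by decide +kernel⟩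

def k176_mm_202_t : ∃ t, chk3 f_mm_202_t t 480 147 4 = true :=
  ⟨(b (a (c (c (b (l 16769176) (l 16770440)) (l 16769728)) (l 16764368)) (c (c (b (l 16770752) (c (l 16772024) (l 16772000))) (b (l 16770688) (l 16771952))) (l 16768608))) (c (c (a (b (c (l 16771704) (l 16771672)) (c (a (l 16772552) (l 16773336)) (l 16772928))) (a (b (l 16772864) (a (l 16773912) (l 16773328))) (b (c (l 16773664) (l 16773648)) (b (l 16774584) (l 16774552))))) (a (b (l 16771632) (l 16772888)) (b (l 16773216) (l 16771856)))) (l 16772992))), by decide +kernel⟩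

def k177_mm_202_t : ∃ t, chk3 f_mm_202_t t 481 147 4 = true :=
  ⟨(b (a (c (b (c (a (l 16771936) (l 16772736)) (l 16772288)) (c (c (a (l 16773208) (b (l 16773680) (l 16774304))) (l 16772272)) (l 16770936))) (l 16770232)) (c (c (b (c (a (l 16773536) (b (l 16774016) (l 16774648))) (l 16772608)) (b (c (a (l 16774480) (l 16774616)) (l 16773552)) (a (l 16774440) (a (l 16775040) (l 16775432))))) (b (l 16771272) (l 16773848))) (l 16774488))) (b (c (a (c (a (b (l 16774136) (l 16774752)) (c (b (l 16774928) (l 16774896)) (l 16773920))) (l 16772192)) (b (c (a (a (l 16775520) (l 16775264)) (l 16776512)) (l 16776104)) (b (c (a (c (l 16775536) (l 16776184)) (a (l 16776128) (a (l 16777072) (b (l 16777352) (l 151095607687))))) (l 16776568)) (a (l 16776488) (c (b (a (l 16777008) (l 189213442231)) (a (a (l 16777072) (l 90429194599)) (l 4))) (l 68954358855)))))) (a (l 16772160) (l 16777360))) (a (c (c (b (c (a (l 16774728) (a (l 16775976) (l 16775712))) (l 16774456)) (a (a (l 16775144) (l 16775536)) (a (l 16776592) (a (l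 16776880) (b (l 16776928) (b (l 16777152) (l 126936416599))))))) (l 16776064)) (l 16776048)) (c (a (b (c (a (l 16776760) (b (c (l 16777184) (l 16777000)) (b (a (l 16777128) (l 139284447591)) (a (l 110293418327) (l 4))))) (l 16776928)) (a (c (b (a (b (l 16777048) (l 16777352)) (b (l 80765518151) (l 4))) (l 209077666103)) (l 90966066215)) (l 4))) (b (c (a (a (b (b (l 61438165335) (l 172570444135)) (l 4)) (l 4)) (l 4)) (l 193508409847)) (l 4))) (a (c (l 57680069367) (l 16777096)) (l 197266506519)))))), by decide +kernel⟩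

def k178_mm_202_t : ∃ t, chk3 f_mm_202_t t 240 147 5 = true :=
  ⟨(b (c (l 16771936) (l 16771816)) (a (l 16772848) (a (l 16775352) (b (l 16776344) (l 81839262279))))), by decide +kernel⟩

def k179_mm_202_t : ∃ t, chk3 f_mm_202_t t 482 146 4 = true :=
  ⟨(c (a (c (b (b (l 16770440) (l 16773032)) (a (b (l 16772600) (b (l 16773552) (l 16774184))) (b (c (l 16773408) (l 16773392)) (b (l 16774352) (l 16774160))))) (b (b (l 16770376) (l 16771672)) (b (l 16772952) (l 16771616)))) (c (b (c (b (l 16773384) (a (l 16772944) (l 16774408))) (b (l 16772048) (l 16772016))) (b (a (b (l 16773888) (l 16774520)) (c (b (l 16774704) (l 16774680)) (l 16773696))) (c (a (b (l 16774504) (a (l 16775592) (l 16775336))) (a (b (l 16775760) (l 16775736)) (b (l 16775512) (l 16776920)))) (l 16775872)))) (b (b (l 16772008) (l 16770680)) (b (l 16773272) (l 16775864))))) (c (b (c (l 16768520) (l 16766528)) (l 16774384)) (b (l 16766480) (l 16774352)))), by decide +kernel⟩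

def k180_mm_202_t : ∃ t, chk3 f_mm_202_t t 482 147 4 = true :=
  ⟨(b (c (a (c (b (b (a (l 16774152) (a (l 16775408) (l 16775160))) (c (a (l 16774784) (a (l 16775384) (l 16775784))) (l 16774528))) (a (c (a (b (l 16775872) (l 16775832)) (b (l 16775608) (a (l 16776792) (b (l 16776176) (b (l 16777064) (l 60364423495)))))) (l 16776368)) (b (b (l 16776712) (a (l 16776824) (a (b (l 16777040) (l 16777344)) (a (b (l 16777184) (l 4)) (l 154853704071))))) (b (a (a (l 16777032) (b (l 16777144) (l 126936416583))) (l 207467053367)) (a (a (b (l 89355452775) (l 4)) (l 4)) (l 4)))))) (a (l 16775936) (b (l 16773288) (b (l 16776840) (a (l 75396809639) (l 177402282919)))))) (b (b (c (a (l 16776416) (a (b (l 16776864) (a (l 16777072) (b (l 16777344) (l 150558736759)))) (b (b (a (l 16777088) (l 107072192855)) (a (a (l 16777184) (l 126399545623)) (l 4))) (l 4)))) (a (l 16773784) (a (l 16776992) (l 106535322567)))) (a (a (a (l 16776736) (b (l 16776128) (b (l 16777016) (l 16777328)))) (b (b (l 16777008) (a (l 16777064) (a (l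 16777200) (l 145726898487)))) (a (b (a (l 16777168) (l 105998450983)) (l 164517380503)) (l 4)))) (c (a (b (b (l 188139700407) (l 4)) (l 4)) (l 4)) (l 206393311831)))) (a (a (b (b (b (a (l 16777128) (l 134989480327)) (a (a (l 16777376) (l 173644185879)) (l 4))) (l 4)) (l 4)) (l 4)) (l 4)))) (a (a (l 16775712) (b (l 16775896) (a (l 16776920) (l 72712456087)))) (b (a (l 16776680) (a (l 67880617815) (l 126399547271))) (l 196192764983)))) (b (b (a (a (c (a (c (b (l 16776952) (b (a (l 16777088) (l 108682805591)) (a (a (l 16777184) (l 129083900183)) (l 4)))) (l 16777072)) (b (a (b (l 16777328) (l 135526351239)) (l 210688278759)) (l 4))) (l 16777176)) (l 4)) (l 4)) (l 4)) (l 4))), by decide +kernel⟩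

def k181_mm_202_t : ∃ t, chk3 f_mm_202_t t 482 73 5 = true :=
  ⟨(b (b (l 16771584) (l 16773944)) (a (b (c (l 16776040) (l 16776016)) (b (l 108682809335) (l 4))) (b (b (c (l 16776968) (l 16776952)) (l 142505676535)) (l 4)))), by decide +kernel⟩

def k182_mm_202_t : ∃ t, chk3 f_mm_202_t t 483 292 2 = true :=
  ⟨(a (c (c (c (b (a (a (l 16773072) (l 16773480)) (b (l 16773768) (l 16774408))) (b (c (a (l 16774240) (l 16775048)) (l 16773320)) (a (a (l 16774664) (l 16775072)) (a (l 16775480) (l 16775232))))) (b (l 16771024) (l 16772968))) (l 16774248)) (l 16774152)) (c (c (a (c (c (b (b (l 16774592) (l 16774568)) (b (a (l 16775664) (l 16775408)) (l 16776496))) (b (l 16773584) (l 16776176))) (l 16775528)) (b (c (a (b (l 16775192) (l 16775176)) (c (b (l 16775608) (l 16775592)) (l 16774608))) (l 16774392)) (b (a (l 16776472) (b (l 16776720) (b (l 16776960) (a (l 16777016) (a (l 16777168) (l 107072192807)))))) (b (c (a (l 16777032) (b (a (l 16777328) (l 170959831399)) (l 196192764119))) (l 16777760)) (a (a (a (l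 16777272) (b (l 16777136) (l 122104578375))) (a (b (l 16777360) (l 4)) (l 176328540599))) (l 4)))))) (b (l 16775264) (a (l 16776152) (c (l 16778224) (l 16776912))))) (c (l 16775848) (l 16775816)))), by decide +kernel⟩

def k183_mm_202_t : ∃ t, chk3 f_mm_202_t t 483 293 2 = true :=
  ⟨(b (a (c (c (a (c (a (b (l 16775304) (l 16775280)) (c (b (l 16775712) (l 16775688)) (l 16774712))) (l 16774496)) (a (c (b (c (l 16775464) (l 16776112)) (l 16776744)) (l 16776424)) (b (l 16776520) (b (a (l 16776896) (b (l 16777016) (l 16777368))) (b (a (l 16777128) (l 134989480327)) (a (a (l 16777376) (l 173644185879)) (l 4))))))) (l 16776184)) (l 16776152)) (a (c (a (c (b (b (l 16776768) (b (l 16777000) (a (l 16777064) (a (l 16777200) (l 146263769399))))) (a (b (b (a (l 16777168) (l 105998450983)) (l 164517380503)) (l 4)) (l 4))) (l 53921974135)) (c (b (c (a (b (l 16777232) (b (l 126936416583) (l 4))) (b (b (a (l 16777144) (l 16777304)) (l 149484994951)) (l 4))) (l 82376131559)) (l 4)) (l 110830290887))) (l 16778520)) (l 4)))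 (a (c (c (b (a (c (b (l 16776616) (a (l 16776072) (a (l 16777024) (b (l 16777144) (l 126399545671))))) (l 16776752)) (a (a (b (a (l 16777064) (b (l 16777088) (l 90966065415))) (l 199950860503)) (b (b (a (l 16777184) (l 121567707463)) (l 4)) (l 4))) (l 4))) (a (a (a (b (l 16776936) (b (l 16777328) (l 134452609415))) (b (a (l 16777088) (b (l 16777112) (l 105461580071))) (l 210151407847))) (a (b (b (a (l 16777200) (l 145726898487)) (l 4)) (l 4)) (l 4))) (l 4))) (a (c (l 16778136) (l 16776984)) (l 179549766231))) (a (l 16776976) (l 118883355607))) (l 4))), by decide +kernel⟩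

def k184_mm_202_t : ∃ t, chk3 f_mm_202_t t 483 147 2 = true :=
  ⟨(l 4), by decide +kernel⟩

def k185_mm_202_t : ∃ t, chk3 f_mm_202_t t 121 73 2 = true :=
  ⟨(a (b (a (b (a (c (b (c (a (a (c (b (c (l 16775360) (l 16776008)) (l 16776656)) (l 16776328)) (b (l 16776424) (b (l 16776904) (a (a (l 16777064) (b (l 16777088) (l 93113549063))) (b (a (l 16777184) (l 123715191111)) (l 4)))))) (a (b (a (l 16776728) (b (l 16776448) (a (l 16777048) (b (l 16777072) (l 16777368))))) (c (b (a (b (l 16777128) (c (l 112977772855) (l 16777240))) (l 194045280455)) (l 4)) (l 114588386311))) (a (b (b (l 16776984) (b (a (l 16777168) (l 108682805543)) (l 167201735063))) (l 4)) (b (b (b (l 16777104) (a (l 16777360) (l 149484994871))) (l 4)) (l 4))))) (a (l 16776504) (a (l 16778048) (l 101703485271)))) (a (c (b (a (a (b (l 16777024) (b (a (l 16777200) (l 147337511223)) (l 4))) (c (b (b (l 16777144) (l 127473287495)) (l 4)) (l 102777226087))) (b (b (l 204245827815) (l 4)) (l 4))) (l 4)) (l 172033573351)) (l 4))) (c (b (l 16776816)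 (l 130157645063)) (l 63585650999))) (a (c (b (c (b (c (a (a (b (b (l 126399545687) (l 4)) (l 4)) (l 4)) (l 4)) (l 206930182759)) (l 4)) (l 212298892167)) (l 4)) (l 213909505447)) (l 4))) (l 4)) (l 4)) (l 4)) (l 4)), by decide +kernel⟩

def k186_mm_202_t : ∃ t, chk3 f_mm_202_t t 120 72 3 = true :=
  ⟨(c (b (b (a (c (l 16754608) (l 16754096)) (c (l 16751264) (l 16756168))) (a (c (l 16757536) (l 16757088)) (c (l 16759408) (l 16759136)))) (c (a (c (l 16751464) (l 16751296)) (b (l 16762280) (l 16770360))) (a (c (l 16751120) (l 16753560)) (b (l 16759448) (l 16770208))))) (b (b (a (c (l 16753568) (a (l 16751104) (l 16754928))) (a (c (l 16759176) (l 16758768)) (b (l 16762008) (l 16758304)))) (a (c (l 16751384) (a (l 16754248) (l 16758048))) (a (c (l 16762216) (l 16761872)) (c (l 16765968) (l 16760472))))) (b (a (c (a (l 16757800) (l 16761496)) (a (l 16757344) (l 16761136))) (c (c (l 16761904) (l 16760480)) (a (l 16759704) (a (l 16767816) (l 16764488))))) (a (a (a (l 16759680) (l 16761536)) (a (l 16758160) (l 16760032)))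 (a (c (l 16762944) (l 16762744)) (c (l 16766672) (c (l 16766584) (l 16766528)))))))), by decide +kernel⟩

def k187_mm_202_t : ∃ t, chk3 f_mm_202_t t 120 73 3 = true :=
  ⟨(b (b (c (a (c (l 16755640) (l 16755384)) (a (l 16771328) (c (l 16774912) (l 16774856)))) (a (a (a (l 16762688) (l 16759296)) (a (l 16761152) (l 16764328))) (a (c (l 16765888) (c (l 16765784) (l 16765712))) (c (l 16775464) (a (l 16773840) (b (l 16775000) (l 16776408))))))) (a (a (c (l 16761824) (c (l 16766704) (l 16761216))) (c (l 16770592) (c (l 16759880) (l 16764960)))) (a (c (l 16772832) (c (l 16774040) (l 16772984))) (a (b (c (l 16776104) (l 16776056)) (c (l 60901296903) (c (l 64122522999) (a (l 16776936) (l 125862676919))))) (a (b (c (l 16777192) (c (l 16777184) (l 68954360311))) (l 4)) (l 4)))))) (a (a (b (c (l 16764624) (c (l 16759128) (l 16764192))) (c (l 16772648) (b (l 16766464) (l 16773152)))) (c (b (l 16773384) (a (l 16775264) (b (l 16776304) (l 76470554599)))) (b (c (l 16773256) (l 16769232)) (b (c (l 16775376) (l 16775328))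 (a (l 16775888) (a (l 50163876167) (l 146263771927))))))) (a (a (b (c (c (l 16775984) (l 16775952)) (b (l 16775256) (c (l 16776608) (l 16777904)))) (a (b (c (l 16777320) (l 88818583255)) (l 4)) (l 4))) (b (c (c (l 72175588199) (l 71638714807)) (b (a (l 16776608) (a (l 16778448) (l 116199000535))) (l 196192764871))) (l 4))) (l 4)))), by decide +kernel⟩

def k188_mm_202_t : ∃ t, chk3 f_mm_202_t t 121 72 3 = true :=
  ⟨(a (b (b (c (c (c (l 16758552) (l 16758464)) (c (l 16758376) (l 16763528))) (a (c (l 16761488) (a (l 16765528) (l 16767472))) (c (l 16765296) (c (l 16765192) (l 16765112))))) (c (c (l 16770560) (l 16770448)) (a (c (l 16764496) (c (l 16764376) (l 16764296))) (c (l 16773536) (a (l 16769864) (l 16771808)))))) (a (c (a (b (l 16766704) (l 16774800)) (b (l 16773776) (c (l 16776464) (l 16779064)))) (b (c (l 16772720) (c (l 16767400) (l 16767352))) (a (c (l 16774720) (l 16774672)) (b (l 16775848) (c (l 53921970151) (a (l 16776768) (l 101166615095))))))) (b (b (c (a (l 16774888) (l 16777928)) (a (l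 16774784) (a (l 16776216) (b (l 16776776) (l 87744841799))))) (a (c (l 16776272) (c (l 16776240) (l 16776216))) (a (b (c (l 16777160) (l 16777152)) (l 4)) (l 4)))) (b (a (a (c (l 16777064) (c (l 16777048) (l 50700746567))) (c (l 142505675607) (l 199950861031))) (l 4)) (l 4))))) (a (b (b (c (c (l 16774480) (l 16774416)) (c (a (l 16768168) (l 16775312)) (a (l 16770712) (b (l 16769288) (l 16776032))))) (b (a (c (l 16775704) (l 16775640)) (a (c (l 16776968) (b (l 16776696) (l 78618036167))) (c (l 119957097463) (c (l 127473289719) (l 129620772695))))) (a (a (c (l 16776632) (l 16777424)) (c (l 75396811863) (b (l 16777088) (l 166127994759)))) (l 4)))) (a (a (b (b (c (l 130694515623) (l 191897797271)) (l 4)) (l 4)) (l 4)) (l 4))) (b (b (b (a (c (l 16777768) (a (l 16776016) (b (l 16776608) (l 63585650679)))) (a (b (c (l 16777312) (l 90966067303)) (l 4)) (l 4))) (a (a (c (l 66806877239) (b (l 16777048) (l 142505674679))) (l 4)) (l 4))) (l 4)) (l 4)))), by decide +kernel⟩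

def k189_mm_202_t : ∃ t, chk3 f_mm_202_t t 121 73 3 = true :=
  ⟨(a (b (a (b (a (b (c (l 16778088) (a (l 16776416) (a (l 16777024) (l 88281713223)))) (c (l 122104582071) (c (l 130157645079) (l 188676571927)))) (c (l 218741342663) (b (l 220351956119) (l 4)))) (l 4)) (l 4)) (l 4)) (l 4)), by decide +kernel⟩

def k190_mm_202_t : ∃ t, chk3 f_mm_202_t t 480 296 1 = true :=
  ⟨(c (c (c (c (a (a (b (c (l 16773792) (l 16773776)) (b (l 16774704) (l 16774664))) (b (b (l 16774256) (l 16773560)) (a (b (l 16775296) (l 16775248)) (b (l 16775680) (l 16775640))))) (b (c (a (b (l 16775048) (l 16775008)) (c (l 16776136) (l 16776136))) (l 16775736)) (a (b (a (l 16775416) (c (l 16775816) (l 16776464))) (b (l 16776728) (a (l 16776840) (a (c (l 16777368) (l 16777120)) (b (l 82913001815) (l 4)))))) (a (b (c (b (l 16776048) (l 16777168)) (l 16776856)) (b (c (a (b (l 16777136) (l 118346481975)) (l 163980509623)) (l 94187291255)) (l 4))) (b (b (b (l 16777016) (a (l 16777072) (l 94724161895))) (a (b (l 65733132631) (l 182234120519))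 (l 4))) (l 4)))))) (a (l 16774768) (b (l 16775728) (a (l 16776552) (b (l 16777664) (l 181697249687)))))) (a (l 16774728) (a (l 16775920) (b (l 16776104) (c (l 69491230711) (l 16777160)))))) (c (a (l 16774672) (l 16776232)) (l 16775392))) (c (c (l 16775344) (l 16775304)) (a (l 16774392) (a (l 16775744) (b (l 16775960) (l 61975038823)))))), by decide +kernel⟩

def k191_mm_202_t : ∃ t, chk3 f_mm_202_t t 480 297 1 = true :=
  ⟨(b (a (c (c (b (c (c (b (l 16776248) (a (l 16775432) (b (l 16776792) (a (l 16776088) (a (l 16777040) (l 68417487191)))))) (l 16776312)) (l 16776296)) (c (a (c (l 16776544) (l 16776536)) (a (c (b (l 16776968) (b (a (l 16777104) (l 120493965639)) (a (l 86134227287) (l 4)))) (l 16777088)) (b (b (a (l 16777344) (l 172570444183)) (l 199413989591)) (l 4)))) (l 16778168))) (l 16776536)) (c (l 16776496) (l 16777768))) (b (c (c (c (a (b (b (a (l 16777264) (l 205856440567)) (a (a (l 16777120) (l 127473287559)) (l 4))) (c (a (a (b (l 95797903735) (l 4)) (l 4)) (l 4)) (l 155390575655))) (l 4)) (l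 175791669831)) (l 116199001031)) (c (l 16777480) (l 117809613719))) (l 4))) (a (a (c (c (a (c (b (b (l 16776800) (b (l 16777032) (a (l 16777088) (l 102777225591)))) (c (a (b (b (l 70564970855) (l 4)) (l 4)) (l 4)) (l 138747577383))) (l 16777120)) (c (c (b (b (a (l 16777088) (b (l 16777360) (l 165054251367))) (l 198340247831)) (l 4)) (l 170959831399)) (l 112977774535))) (l 16777224)) (c (l 16777208) (l 70028102647))) (l 4)) (l 4))), by decide +kernel⟩

def k192_mm_202_t : ∃ t, chk3 f_mm_202_t t 481 148 1 = true :=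
  ⟨(a (b (c (c (a (c (a (b (b (l 16776408) (c (b (l 16776880) (a (l 16777080) (b (l 16777352) (l 161296154967)))) (l 16777008))) (b (c (b (c (l 198340247815) (l 154853704359)) (l 4)) (l 163980510167)) (l 4))) (b (b (c (c (l 16776888) (l 16776808)) (l 16776800)) (b (c (b (a (l 16777096) (l 111904031063)) (a (l 82913001799) (l 4))) (l 16777200)) (l 4))) (l 4))) (b (l 16776856) (l 212835763047))) (b (b (b (a (b (l 16776968) (a (l 16777024) (a (l 16777168) (l 104387838327)))) (a (b (a (l 16777368) (l 150021865815)) (l 4)) (l 4))) (a (c (b (a (l 16777336) (l 168275476887)) (l 196192764119)) (l 16777264)) (l 4))) (l 4)) (l 4))) (b (l 53921976151) (l 213909505207))) (b (c (l 16778336) (a (l 16776792) (l 98482261015))) (c (l 169349222023) (l 219278214247)))) (l 4)) (l 4)), by decide +kernel⟩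

def k193_mm_202_t : ∃ t, chk3 f_mm_202_t t 240 149 1 = true :=
  ⟨(l 4), by decide +kernel⟩

def k194_mm_202_t : ∃ t, chk3 f_mm_202_t t 240 75 1 = true :=
  ⟨(l 4), by decide +kernel⟩

def k195_mm_202_t : ∃ t, chk3 f_mm_202_t t 241 37 1 = true :=
  ⟨(l 4), by decide +kernel⟩

def k196_mm_202_t : ∃ t, chk3 f_mm_202_t t 121 37 1 = true :=
  ⟨(l 4), by decide +kernel⟩

def k197_mm_202_t : ∃ t, chk3 f_mm_202_t t 61 18 1 = true :=
  ⟨(l 4), by decide +kernel⟩

def k198_mm_202_t : ∃ t, chk3 f_mm_202_t t 31 18 1 = true :=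
  ⟨(l 4), by decide +kernel⟩

def k199_mm_202_t : ∃ t, chk3 f_mm_202_t t 15 19 1 = true :=
  ⟨(l 4), by decide +kernel⟩

def k200_mm_202_t : ∃ t, chk3 f_mm_202_t t 12 10 1 = true :=
  ⟨(c (b (b (a (c (a (l 16619640) (l 16637200)) (a (l 16630928) (l 16647008))) (c (a (l 16654680) (l 16672136)) (a (l 16663152) (l 16679376)))) (a (c (a (l 16607592) (l 16604936)) (a (l 16638776) (l 16655608))) (a (c (l 16665128) (l 16672496)) (a (b (l 16679136) (l 16684664)) (b (l 16687816) (l 16693544)))))) (b (a (a (b (l 16640520) (l 16645536)) (c (a (l 16652864) (l 16662376)) (l 16665328))) (a (c (l 16687104) (l 16682944)) (a (b (l 16690432) (l 16706920)) (c (l 16710736) (l 16705024))))) (a (a (b (l 16650872) (l 16614624)) (c (b (l 16666392) (l 16672648)) (l 16676200))) (a (c (b (l 16664960) (l 16671528)) (l 16694488)) (a (b (l 16713208) (l 16719816)) (c (b (l 16710224) (l 16717248)) (l 16717432))))))) (b (b (a (a (b (l 16626600) (l 16635936)) (b (l 16596624) (l 16626848))) (c (a (l 16661416) (l 16674544)) (a (b (l 16624856)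 (l 16634304)) (b (l 16639704) (l 16649120))))) (a (a (c (l 16650680) (l 16642376)) (c (l 16665768) (l 16655152))) (c (a (l 16678720) (b (l 16687528) (l 16695840))) (a (c (l 16671472) (l 16645240)) (b (l 16679176) (l 16687984)))))) (a (b (a (c (l 16658600) (l 16660048)) (c (l 16674392) (l 16672712))) (a (c (l 16667768) (l 16676864)) (c (l 16684224) (l 16689416)))) (b (c (a (l 16690384) (b (l 16703992) (l 16709240))) (a (b (l 16681992) (l 16690568)) (b (l 16696656) (l 16705192)))) (c (a (l 16700872) (b (l 16714792) (l 16720688))) (a (b (l 16698912) (l 16706936)) (b (l 16713512) (l 16721528)))))))), by decide +kernel⟩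

def k201_mm_202_t : ∃ t, chk3 f_mm_202_t t 26 20 1 = true :=
  ⟨(a (c (b (c (b (l 16686840) (l 16692368)) (b (l 16691104) (l 16698216))) (c (b (l 16698304) (l 16704576)) (b (l 16703592) (l 16709312)))) (b (b (c (l 16684272) (l 16655504)) (c (l 16693192) (l 16664952))) (c (b (l 16701712) (l 16709960)) (b (l 16694976) (l 16703752))))) (c (b (c (b (l 16704096) (l 16709928)) (b (l 16705240) (l 16713624))) (c (b (l 16724048) (a (l 16718216) (l 16727312))) (b (l 16720456) (l 16726472)))) (b (c (b (l 16699656) (l 16708552)) (b (c (l 16673976) (l 16670608)) (a (l 16677424) (l 16686112)))) (c (b (l 16717056) (l 16725296)) (b (c (l 16692224) (l 16689440)) (c (l 16721856) (l 16698392))))))), by decide +kernel⟩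

def k202_mm_202_t : ∃ t, chk3 f_mm_202_t t 27 20 1 = true :=
  ⟨(c (b (a (b (c (a (l 16717152) (l 16726024)) (l 16720600)) (c (a (l 16723216) (l 16732240)) (l 16728944))) (b (c (a (l 16735000) (c (l 16743432) (l 16743240))) (a (l 16732872) (l 16741480))) (c (a (c (l 16740720) (l 16742048)) (c (b (l 16748408) (l 16751832)) (l 16751112))) (a (l 16741184) (l 16749776))))) (a (a (c (b (l 16729664) (l 16736496)) (b (l 16732952) (l 16739416))) (c (b (l 16744080) (c (l 16745264) (l 16746344))) (b (l 16740896) (l 16748112)))) (b (c (a (c (l 16747600) (l 16748648)) (c (b (l 16755352) (l 16758960)) (l 16757864))) (a (l 16749152) (c (l 16758080) (l 16757368)))) (c (a (c (b (l 16753008) (l 16756712)) (l 16755616)) (a (b (l 16760528) (l 16765528)) (c (b (l 16765064) (l 16768856)) (l 16767312)))) (a (l 16756816) (c (l 16765448) (l 16765160))))))) (b (a (a (c (b (l 16711928) (l 16720816)) (b (l 16685656) (l 16695128))) (c (b (l 16720560) (l 16729440)) (b (l 16695032) (l 16704504)))) (c (b (a (l 16729528) (l 16738832))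 (a (l 16738392) (l 16747680))) (b (a (a (l 16702280) (l 16707240)) (c (l 16715648) (l 16714064))) (a (c (l 16715072) (l 16713384)) (c (l 16724952) (l 16723696)))))) (a (c (b (a (l 16729352) (l 16737968)) (c (l 16742592) (l 16741128))) (b (a (l 16704256) (l 16734616)) (a (l 16734032) (l 16743456)))) (c (b (a (l 16746920) (c (l 16756608) (l 16755784))) (a (l 16755144) (c (l 16764680) (l 16764168)))) (b (a (c (l 16724056) (l 16722696)) (b (l 16731216) (l 16756688))) (a (c (l 16753728) (l 16731728)) (c (l 16763624) (l 16763032)))))))), by decide +kernel⟩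

def k203_mm_202_t : ∃ t, chk3 f_mm_202_t t 13 84 1 = true :=
  ⟨(a (c (a (c (l 16711080) (l 16715272)) (c (a (l 16725016) (l 16734296)) (l 16732800))) (a (c (l 16718032) (l 16712376)) (c (l 16733280) (c (l 16730272) (l 16707128))))) (a (c (b (c (a (l 16741832) (l 16751256)) (l 16748736)) (c (a (l 16745472) (l 16760224)) (l 16752128))) (c (c (l 16750416) (l 16749248)) (a (l 16742608) (l 16752032)))) (c (c (a (c (b (l 16760496) (a (l 16761920) (l 16766824))) (l 16762920)) (b (c (a (l 16767832) (c (l 16772696) (l 16772768))) (l 16770520)) (a (c (c (l 16771704) (l 16771792)) (l 16771936)) (a (b (l 16774512) (a (l 16775856) (b (l 16776592) (l 90966068135)))) (c (b (a (l 16776320) (a (l 36742105639) (l 109756550135))) (l 211225147815)) (a (l 36205237879) (l 107609070087))))))) (a (c (l 16763464) (l 16763928)) (b (l 16770920) (c (a (l 16772136) (l 20635984551)) (l 16774368))))) (c (a (c (l 16763384) (l 16762792)) (a (l 16770024) (c (l 16779864) (l 16779728)))) (a (c (l 16762152) (l 16761472)) (a (l 16766760)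 (b (l 16772400) (a (l 16775280) (l 76470550727))))))))), by decide +kernel⟩

def k204_mm_202_t : ∃ t, chk3 f_mm_202_t t 13 85 1 = true :=
  ⟨(a (c (a (c (l 16728272) (l 16721448)) (c (a (l 16732008) (l 16746712)) (l 16739336))) (a (c (l 16725736) (l 16720880)) (c (l 16741152) (a (l 16733320) (l 16742016))))) (a (a (c (c (b (l 16749160) (l 16752896)) (l 16752800)) (c (l 16753320) (l 16751048))) (c (c (c (b (l 16758464) (l 16762360)) (l 16760936)) (l 16761832)) (c (l 16761904) (l 16757832)))) (a (c (c (b (c (a (l 16765840) (l 16770776)) (l 16768600)) (a (c (l 16769808) (l 16770048)) (b (l 16774504) (a (l 16774608) (a (l 16776472) (a (l 74859941095) (l 115125260023))))))) (b (l 16769088) (l 16777352))) (c (c (l 16770944) (l 16770664)) (b (l 16768144) (a (l 16769816) (l 16774688))))) (b (c (a (c (a (c (l 16775488) (l 16774600)) (c (b (l 16777960) (a (l 73786196551) (l 224646920599))) (l 29225916583))) (l 16781080)) (c (b (c (c (l 211225147111) (l 214983242919)) (l 214446371159)) (l 4)) (l 218741334439))) (c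 (a (l 16775672) (l 144116300119)) (a (c (l 16775536) (l 16775440)) (l 218741328231)))) (a (a (b (c (c (a (a (l 16776624) (l 37278977287)) (l 169886087815)) (l 16776792)) (l 68954361063)) (l 4)) (l 4)) (l 4)))))), by decide +kernel⟩

def k205_mm_202_t : ∃ t, chk3 f_mm_202_t t 13 86 1 = true :=
  ⟨(a (c (a (c (a (l 16698952) (l 16708624)) (l 16727904)) (a (c (l 16739256) (l 16741576)) (c (a (l 16730760) (l 16751328)) (l 16750704)))) (a (c (l 16731608) (l 16729176)) (c (a (l 16744304) (l 16752720)) (a (l 16741600) (l 16750280))))) (a (c (c (b (a (l 16756712) (c (l 16768960) (l 16766680))) (a (l 16765840) (c (a (l 16767864) (l 16772912)) (l 16770592)))) (a (l 16759864) (l 16767768))) (c (a (l 16760912) (l 16764208)) (a (l 16759296) (b (l 16766648) (l 16770696))))) (a (a (b (c (c (b (l 16772912) (c (l 16777512) (l 16774968))) (l 16774160)) (b (l 16773096) (l 16775008))) (c (c (c (a (b (l 16775680) (l 85060486695)) (b (l 158611798503) (l 4))) (a (l 16776776) (l 117809618231))) (l 72175594775)) (c (l 69491240759)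 (a (l 16776504) (l 100629691351))))) (b (c (c (c (a (b (c (l 16777936) (l 16776640)) (l 187065956231)) (l 224110047095)) (l 150558733207)) (l 89892335847)) (c (l 87207981751) (c (l 92576688727) (l 93650410071)))) (l 4))) (l 4)))), by decide +kernel⟩

def k206_mm_202_t : ∃ t, chk3 f_mm_202_t t 13 87 1 = true :=
  ⟨(a (c (a (a (a (l 16726112) (l 16734184)) (b (l 16736288) (l 16739928))) (a (c (l 16746816) (l 16748608)) (c (b (l 16754696) (l 16758632)) (l 16757912)))) (a (c (l 16737816) (l 16737184)) (c (c (l 16754592) (l 16755568)) (a (l 16749600) (l 16758272))))) (a (a (c (c (c (b (l 16764376) (l 16768472)) (l 16766720)) (l 16767248)) (c (l 16768048) (l 16762040))) (b (c (a (c (l 16772040) (l 16772384)) (c (c (a (c (l 16778400) (l 16775808)) (b (l 68954361367) (l 220351951207))) (a (l 16775848) (l 92039813815))) (l 16782168))) (c (a (l 16772744) (l 16776800)) (c (l 16774520) (l 64122472135)))) (a (c (c (a (l 16778160) (b (l 16776384) (l 111367165495))) (l 16776304)) (c (l 16776160) (l 16775984))) (c (c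 (a (l 211225144007) (l 4)) (l 215520106023)) (c (l 148948137031) (l 213909487751)))))) (l 4))), by decide +kernel⟩

def k207_mm_202_t : ∃ t, chk3 f_mm_202_t t 24 11 1 = true :=
  ⟨(a (b (c (b (b (l 16620720) (l 16627208)) (c (b (l 16673000) (l 16680480)) (l 16661736))) (b (a (l 16679184) (l 16666216)) (b (l 16691336) (l 16697104)))) (c (b (c (b (l 16688232) (l 16696256)) (l 16655088)) (c (c (l 16728928) (l 16667640)) (b (l 16708504) (l 16716456)))) (b (c (l 16702936) (l 16709944)) (c (l 16716984) (l 16722416))))) (b (c (b (c (b (l 16679264) (l 16686272)) (l 16646528)) (a (c (l 16660816) (l 16697256)) (b (l 16680040) (l 16666576)))) (b (c (l 16695400) (l 16703528)) (c (l 16707752) (l 16714400)))) (c (b (c (b (l 16677920) (a (l 16712280) (l 16722952))) (l 16716952)) (b (a (l 16690664) (l 16732608)) (b (l 16754672) (l 16748464)))) (b (c (l 16721248) (l 16726352)) (c (l 16735840) (l 16739440)))))), by decide +kernel⟩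

def k208_mm_202_t : ∃ t, chk3 f_mm_202_t t 25 11 1 = true :=
  ⟨(a (c (b (b (c (b (l 16667952) (a (l 16701568) (l 16711768))) (l 16707384)) (b (a (l 16669080) (l 16721040)) (b (l 16737520) (l 16741432)))) (b (a (b (l 16737040) (l 16745192)) (c (b (l 16714800) (l 16723304)) (l 16741944))) (b (c (l 16763360) (l 16749136)) (c (b (l 16754296) (l 16769280)) (l 16757552))))) (b (b (c (l 16712672) (b (l 16714736) (l 16721736))) (c (l 16725648) (b (l 16727496) (l 16733512)))) (b (c (b (l 16736128) (l 16743440)) (b (l 16739816) (l 16746392))) (c (b (l 16751008) (l 16758824)) (b (l 16753248) (l 16760360)))))) (b (c (a (b (c (b (l 16714496) (l 16721960)) (l 16721608)) (c (b (l 16708832) (l 16716968)) (l 16736224))) (b (c (b (l 16703576) (l 16711200)) (l 16731104)) (b (b (l 16739152) (l 16743088)) (b (l 16747096) (l 16761656))))) (b (c (b (l 16726912) (l 16733432)) (b (l 16729280) (l 16736856))) (c (b (l 16740224) (l 16747280)) (b (l 16743624) (l 16749968))))) (b (b (c (c (b (l 16759968) (l 16769488)) (l 16752952))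 (c (l 16754616) (l 16756592))) (c (c (a (l 16754944) (c (l 16765480) (l 16765736))) (l 16761136)) (c (l 16762208) (a (l 16759192) (l 16767792))))) (b (c (c (a (l 16774264) (c (a (l 16771776) (b (l 16774912) (l 104387846663))) (a (l 16771896) (l 58753821959)))) (a (l 16764448) (c (l 16774568) (l 16774696)))) (c (a (l 16765272) (l 75933627479)) (a (l 16766272) (b (l 16773240) (l 72175533719))))) (a (c (c (a (l 16770096) (b (l 16773248) (l 78081172823))) (l 16772984)) (c (l 16773312) (l 16757976))) (a (b (c (a (l 63585659351) (l 128547041655)) (l 95260989831)) (l 4)) (l 4))))))), by decide +kernel⟩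

def k209_mm_202_t : ∃ t, chk3 f_mm_202_t t 52 22 1 = true :=
  ⟨(c (b (c (b (b (a (l 16732712) (l 16721728)) (l 16752056)) (a (a (l 16718840) (l 16723936)) (l 16760424))) (b (l 16741768) (l 16749136))) (c (a (b (l 16760936) (b (c (l 16735504) (l 16756968)) (l 16760968))) (b (c (l 16771072) (l 16760992)) (b (l 16772384) (c (l 16776624) (l 16771520))))) (b (l 16762048) (a (l 16759816) (l 16769704))))) (b (c (b (l 16744336) (l 16751160)) (b (l 16744936) (a (l 16748384) (l 16756480)))) (c (b (c (l 16757872) (l 16758656)) (c (l 16765392) (l 16765864))) (b (a (l 16755768) (l 16763824)) (a (l 16762448) (l 16770848)))))), by decide +kernel⟩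

def k210_mm_202_t : ∃ t, chk3 f_mm_202_t t 53 22 1 = true :=
  ⟨(a (c (b (c (b (b (l 16742192) (l 16756664)) (c (l 16767816) (l 16762936))) (b (l 16755944) (l 16763560))) (a (c (b (c (l 16768440) (l 16768656)) (c (b (c (l 16774904) (l 16774936)) (l 159685537207)) (b (l 16774984) (l 111367168519)))) (b (l 16769016) (b (l 16775096) (l 16782080)))) (b (c (b (l 16771592) (a (l 16774560) (b (l 16776080) (l 112977777719)))) (l 16773928)) (c (b (c (l 180623500887) (l 184381596519)) (l 4)) (l 189750298263))))) (b (c (b (l 16757488) (l 16764536)) (b (l 16757352) (l 16764856))) (c (b (b (l 16770008) (l 16773792)) (b (a (l 16775272) (l 102240298103)) (l 124788951495))) (b (b (l 16770368) (l 16763400)) (a (c (l 32447149623) (l 67880561111)) (l 189750292999)))))) (b (b (c (c (a (l 16767400) (c (l 16767048) (l 16767320))) (l 16765416)) (c (l 16766296) (l 16766024))) (b (c (c (c (l 16774720) (l 16770952)) (l 16771232)) (c (l 16771672) (l 16771672))) (a (c (c (l 16772504) (l 16772768)) (l 16773264)) (c (c (b (a (l 16775296)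 (l 94187295735)) (l 155390568599)) (l 16776584)) (c (l 16776440) (l 107072148167)))))) (b (c (c (a (a (b (l 10435434007) (l 190824048919)) (b (b (l 16776968) (l 194582146823)) (l 4))) (b (l 209614525959) (l 4))) (c (l 165591110327) (l 105998466071))) (b (c (c (l 90429208711) (l 92039821991)) (a (l 16776568) (l 210688259831))) (c (l 205319547543) (l 205856414903)))) (l 4)))), by decide +kernel⟩

def k211_mm_202_t : ∃ t, chk3 f_mm_202_t t 27 22 1 = true :=
  ⟨(b (a (b (b (c (a (c (a (l 16770176) (a (l 16773968) (b (l 16775464) (l 79691780951)))) (l 16773016)) (c (a (c (l 189750307031) (l 191360918743)) (l 4)) (l 210688263079))) (a (c (l 16773368) (l 16773032)) (c (l 210688259319) (l 210151384663)))) (a (c (c (a (c (l 16779528) (l 16774368)) (a (b (l 42110816551) (l 208540790599)) (l 4))) (a (l 16774512) (l 103850978903))) (c (a (l 16774744) (l 101703495831)) (a (l 16774576) (l 105998463863)))) (l 4))) (b (a (a (c (c (a (b (l 16776200) (l 109219681607)) (l 192971532711)) (l 88818592839)) (c (l 16780184) (l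 105461528231))) (l 4)) (l 4)) (l 4))) (l 4)) (l 4)), by decide +kernel⟩

def k212_mm_202_t : ∃ t, chk3 f_mm_202_t t 13 23 1 = true :=
  ⟨(a (a (a (b (c (c (c (b (l 16772576) (a (b (l 16771328) (l 38889592487)) (b (l 50700753271) (l 194582142071)))) (b (l 16767560) (b (l 16774056) (l 86134235847)))) (b (l 16767952) (b (l 16774208) (l 85597370871)))) (b (c (l 16768568) (l 16769312)) (b (c (l 16774464) (l 16774760)) (c (l 147874360535) (l 100092809495))))) (a (b (c (c (b (l 179012887239) (l 4)) (l 124252081111)) (c (l 123715210535) (l 137673779207))) (l 4)) (l 4))) (b (b (b (c (c (a (l 16773176) (b (l 77544296471) (l 187602823767))) (l 16783776)) (c (l 16776104) (l 67880567271))) (a (c (c (a (l 16778848) (l 108682813687)) (l 16776688)) (c (l 16776584) (l 16776488))) (l 4))) (a (a (b (c (l 200487723431) (l 111367112311)) (l 4)) (l 4)) (l 4))) (l 4))) (l 4)) (l 4)), by decide +kernel⟩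

def k213_mm_202_t : ∃ t, chk3 f_mm_202_t t 56 40 2 = true :=
  ⟨(b (c (a (c (b (l 16750592) (l 16754312)) (l 16751784)) (c (b (a (l 16757056) (l 16761512)) (a (l 16760952) (l 16765400))) (b (l 16758736) (l 16762744)))) (a (c (l 16750936) (l 16750032)) (c (l 16760224) (l 16759648)))) (c (a (c (b (l 16757728) (a (l 16758896) (l 16763568))) (b (l 16757720) (l 16761576))) (c (b (a (l 16764656) (c (l 16769168) (l 16769144))) (a (c (l 16768136) (l 16768304)) (c (b (l 16771888) (a (l 16772560) (l 16774896))) (l 16772888)))) (b (l 16766664) (a (l 16768224) (l 16772792))))) (a (c (l 16759072) (l 16758424)) (b (l 16766128) (c (l 16770280) (l 16770040)))))), by decide +kernel⟩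

def k214_mm_202_t : ∃ t, chk3 f_mm_202_t t 228 40 2 = true :=
  ⟨(c (b (c (b (c (l 16766160) (l 16765992)) (c (b (l 16769048) (l 16770952)) (l 16769896))) (b (l 16765736) (l 16769728))) (a (c (b (c (l 16772952) (l 16772560)) (a (b (l 16774808) (b (l 16776184) (a (l 16776816) (a (l 71101842807) (l 117272741463))))) (b (c (l 16775952) (l 16775944)) (b (a (b (l 16776824) (l 78618035303)) (l 159148671367)) (l 4))))) (b (l 16772456) (b (l 16775328) (c (l 64122523495) (l 16777040))))) (b (c (b (l 16773952) (a (l 16775248) (a (l 16776112) (b (l 16776224) (b (l 16776920) (l 96871646471)))))) (l 16774808)) (b (b (c (c (a (l 16777288) (b (l 151095607607) (l 4))) (a (l 16776624) (l 122104580407))) (l 16778392)) (c (a (a (b (l 16777032) (l 123178321143)) (l 187602829975)) (l 4)) (l 119957098471))) (l 4))))) (b (c (l 16767448) (l 16767128)) (b (l 16773448) (c (a (l 16776128) (l 105461587895)) (l 60364428599))))), by decide +kernel⟩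

def k215_mm_202_t : ∃ t, chk3 f_mm_202_t t 229 40 2 = true :=
  ⟨(b (c (c (b (c (b (l 16769824) (a (l 16770584) (l 16772928))) (l 16770704)) (b (a (l 16772472) (b (l 16774352) (l 16775312))) (c (a (l 16774408) (a (b (l 16775680) (c (a (l 16776336) (l 16777560)) (l 16776608))) (a (b (l 16776568) (b (l 80228647863) (l 210151408167))) (b (b (l 16776912) (l 100092871767)) (l 4))))) (a (l 16774368) (a (l 16776128) (a (l 12582914295) (l 96871646695))))))) (b (l 16770552) (a (l 16773320) (a (l 16775128) (b (l 16775368) (l 68417490535)))))) (b (l 16770240) (b (l 16773368) (l 16779280)))) (b (b (a (c (c (a (l 16775608) (b (l 16776384) (a (b (l 16776800) (l 74859938983)) (b (l 97408517367) (l 4))))) (l 16776200)) (l 16776144)) (b (c (c (a (a (b (l 16777024) (l 122641450231)) (l 188139700887)) (l 4)) (l 118883356807)) (l 16777200)) (l 4))) (c (a (c (b (a (a (l 16777456) (b (l 16777784) (l 181697249703))) (l 208003925063)) (a (c (l 184381604679) (l 183307862855)) (l 4))) (l 150021866167)) (l 4)) (l 174181055959)))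 (l 4))), by decide +kernel⟩

def k216_mm_202_t : ∃ t, chk3 f_mm_202_t t 115 40 2 = true :=
  ⟨(b (a (a (c (b (c (c (b (l 16773368) (a (l 16774704) (b (l 16775416) (l 16776376)))) (l 16774296)) (l 16774232)) (c (b (b (a (l 16776136) (a (a (l 16777528) (b (l 16776944) (l 117809611767))) (a (b (l 73786196823) (l 4)) (l 195119022663)))) (a (a (c (l 16777440) (l 16776784)) (b (a (l 16777000) (l 90966066007)) (l 182770991527))) (c (l 210688279639) (l 211225150551)))) (a (b (c (a (l 176865411607) (l 4)) (l 184381604679)) (l 4)) (l 4))) (b (a (l 16776552) (l 99556003783)) (l 201024604039)))) (b (l 16774088) (b (l 16779600) (l 156464323543)))) (b (b (c (c (a (c (l 16775168) (l 16775136)) (b (l 16775880) (a (l 16776552) (b (l 16776912) (a (l 75933680471) (l 191360926055)))))) (l 16775696)) (l 16775624)) (c (a (c (b (a (l 16776312) (a (l 16776760) (b (l 16776824) (l 92576678743)))) (c (a (b (l 16777024) (l 164517380391)) (l 192434668215)) (l 97408518471))) (l 16341011927)) (a (c (b (b (a (l 16777112) (l 118883353607))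 (l 4)) (l 4)) (l 123178323399)) (l 4))) (l 77007428199))) (l 4))) (a (a (b (b (c (c (a (a (b (l 16776640) (b (l 106535322551) (l 4))) (b (b (l 16776704) (l 18488492919)) (l 4))) (b (b (a (l 16777008) (l 94187290839)) (l 186529087927)) (l 4))) (l 83449873799)) (l 16777240)) (l 4)) (l 4)) (l 4)) (l 4))) (l 4)), by decide +kernel⟩

def k217_mm_202_t : ∃ t, chk3 f_mm_202_t t 56 82 2 = true :=
  ⟨(a (c (c (a (b (l 16762472) (l 16766128)) (b (l 16767184) (c (l 16772136) (l 16770936)))) (b (l 16765288) (l 16768832))) (c (l 16766880) (l 16766504))) (c (a (b (c (c (b (l 16770896) (l 16772760)) (l 16771920)) (l 16771992)) (a (c (b (l 16773488) (c (l 16775360) (l 16775392))) (l 16774536)) (c (b (c (a (l 16775240) (b (l 16775952) (l 3992978919))) (l 16775872)) (b (a (l 16776688) (l 170422960263)) (a (l 147874380535) (l 4)))) (b (l 16775872) (l 85060490119))))) (a (b (c (b (l 16774448) (a (l 16775720) (b (l 16776424) (a (l 16777872) (l 121030838167))))) (l 16777984)) (a (c (b (b (a (l 16776848) (l 91502936535)) (l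 201561473319)) (l 4)) (l 165591121447)) (l 4))) (b (b (b (a (l 16775744) (a (l 16776600) (b (l 16776936) (l 96871646743)))) (c (c (a (l 16776664) (l 163980509719)) (l 66806874359)) (l 16777080))) (a (b (a (b (l 16777048) (l 121567708695)) (l 201561473239)) (l 4)) (l 4))) (l 4)))) (a (b (l 16771720) (c (l 16780752) (l 16775432))) (b (a (l 16775264) (a (l 16780848) (l 95797912103))) (l 205319560359))))), by decide +kernel⟩

def k218_mm_202_t : ∃ t, chk3 f_mm_202_t t 56 83 2 = true :=
  ⟨(b (a (c (b (c (a (l 16768936) (c (l 16773680) (l 16773744))) (l 16771544)) (a (c (l 16770832) (l 16771056)) (c (a (l 16774424) (a (l 16776888) (b (l 9898559191) (l 178476023655)))) (l 16778328)))) (a (l 16770152) (l 16777304))) (a (a (c (c (b (a (a (l 16776400) (b (l 16776504) (l 95797905127))) (a (b (l 16777080) (l 4)) (l 188676571143))) (l 220888825591)) (b (l 64659395031) (l 233236855415))) (c (l 88818589623) (l 16776224))) (l 4)) (l 4))) (a (a (c (c (a (l 16772496) (b (l 16773944) (c (c (l 16775880) (l 16775896)) (l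 16775912)))) (l 16773840)) (l 16773896)) (b (c (c (a (a (l 16775752) (b (l 16776480) (l 83986744311))) (a (c (l 176865410887) (l 124252065111)) (l 4))) (a (l 16776392) (l 193508408007))) (l 65733141607)) (c (a (c (a (c (l 141968800279) (l 94187293735)) (l 4)) (l 109219681431)) (l 4)) (l 136063232071)))) (l 4))), by decide +kernel⟩

def k219_mm_202_t : ∃ t, chk3 f_mm_202_t t 57 41 2 = true :=
  ⟨(a (b (a (b (c (a (b (c (a (b (l 183844733655) (l 4)) (l 4)) (l 215520117063)) (l 4)) (l 4)) (l 230015627879)) (l 4)) (l 4)) (l 4)) (l 4)), by decide +kernel⟩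

def k220_mm_202_t : ∃ t, chk3 f_mm_202_t t 28 40 3 = true :=
  ⟨(a (a (c (b (c (l 16749056) (l 16727056)) (c (l 16757736) (l 16757000))) (b (b (l 16733448) (l 16733008)) (b (c (l 16732944) (l 16732032)) (l 16758112)))) (c (b (c (l 16759032) (l 16758384)) (c (l 16767680) (l 16767320))) (c (b (l 16757688) (l 16763672)) (b (b (l 16744016) (l 16748888)) (b (l 16764168) (l 16768896)))))) (a (b (c (b (c (l 16767232) (l 16766880)) (c (l 16771560) (l 16771360))) (b (a (l 16763416) (l 16769224)) (a (l 16768192) (b (l 16772800) (a (l 16773704) (l 16776432)))))) (b (a (c (l 16773176) (l 16772872)) (b (a (c (l 16776056) (l 16775952)) (c (l 118346488663) (l 121030843447))) (a (c (l 16778984) (l 96334781575)) (l 4)))) (a (a (c (l 16775992) (c (l 16775904) (l 16775840))) (b (c (l 16776688) (l 75933686599)) (l 4))) (l 4)))) (b (a (c (b (c (l 16775112) (l 16775032)) (a (c (l 81302397543) (l 82913010375)) (l 4))) (b (b (l 16773912) (c (l 16781288) (a (l 16774792) (l 76470556471)))) (c (l 185455340471) (b (l 172033569031)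 (l 243437394359))))) (b (c (c (l 207467051991) (l 204245823943)) (c (l 218741336023) (l 221962558967))) (l 4))) (l 4)))), by decide +kernel⟩

def k221_mm_202_t : ∃ t, chk3 f_mm_202_t t 28 41 3 = true :=
  ⟨(a (a (b (c (c (l 16766096) (l 16765664)) (b (l 16762688) (l 16764568))) (a (c (b (l 16769592) (l 16773624)) (b (l 16768952) (l 16773312))) (b (c (l 16774464) (b (l 16773208) (l 16775296))) (a (c (l 16782048) (a (l 16776464) (l 81302397767))) (c (l 147874392471) (l 209077656087)))))) (b (c (a (b (l 16771304) (c (l 16775352) (l 16775264))) (b (c (l 16776168) (l 16776096)) (l 220888818231))) (a (b (l 16770832) (a (l 16773952) (c (l 16776432) (l 16779000)))) (b (a (l 16774928) (b (l 16776488) (l 120493972487))) (l 209614525319)))) (a (a (b (c (l 82376141143) (c (l 86134235687) (l 86671106855))) (l 4)) (l 4)) (l 4)))) (a (b (a (b (c (l 241289911751) (l 238068681079)) (l 4)) (l 4)) (l 4)) (l 4))), by decide +kernel⟩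

def k222_mm_202_t : ∃ t, chk3 f_mm_202_t t 29 20 1 = true :=
  ⟨(l 4), by decide +kernel⟩

def k223_mm_202_t : ∃ t, chk3 f_mm_202_t t 14 21 1 = true :=
  ⟨(a (b (b (a (a (a (a (c (c (b (b (c (l 16775416) (l 16775480)) (c (c (a (l 10972301383) (l 166127992343)) (l 71638716151)) (l 16777040))) (c (l 236458079527) (l 235384336183))) (b (l 16776352) (l 233236850279))) (b (c (l 16776248) (l 16776120)) (c (l 154316843543) (l 228405006135)))) (b (b (c (c (b (a (l 16776768) (l 180623506839)) (c (l 185455344951) (l 16779184))) (l 16776576)) (c (l 16776256) (l 16775944))) (l 4)) (l 4))) (l 4)) (l 4)) (l 4)) (l 4)) (l 4)) (l 4)), by decide +kernel⟩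

def k224_mm_202_t : ∃ t, chk3 f_mm_202_t t 15 10 1 = true :=
  ⟨(l 4), by decide +kernel⟩

def k225_mm_202_t : ∃ t, chk3 f_mm_202_t t 7 11 1 = true :=
  ⟨(l 4), by decide +kernel⟩

def k226_mm_202_t : ∃ t, chk3 f_mm_202_t t 2 24 1 = true :=
  ⟨(a (a (l 6) (b (a (l 6) (c (a (l 16519448) (l 16538112)) (l 16575944))) (c (c (a (l 16496248) (l 16533832)) (l 16618464)) (c (l 16599584) (a (l 16570560) (l 16599008)))))) (c (a (a (b (c (l 16560168) (l 16576104)) (c (l 16575736) (l 16590096))) (c (b (l 16624856) (l 16641256)) (b (l 16615496) (l 16630456)))) (a (b (c (l 16711424) (a (l 16645960) (l 16666536))) (c (c (l 16685240) (l 16688096)) (a (l 16661592) (l 16682592)))) (b (c (a (l 16702904) (b (l 16699776) (l 16708560))) (l 16718616)) (a (c (l 16720560) (l 16682760)) (a (b (l 16713544) (l 16701464)) (b (l 16703456) (l 16701944))))))) (a (c (b (a (l 16595088) (l 16629472)) (a (l 16607296) (l 16642776))) (b (l 16683728) (a (l 16627360) (l 16615328)))) (a (a (b (l 16662424) (l 16675632)) (b (l 16679792) (l 16693536)))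 (b (c (l 16724304) (l 16731096)) (c (a (l 16687912) (l 16728400)) (a (l 16715072) (l 16732624)))))))), by decide +kernel⟩

def k227_mm_202_t : ∃ t, chk3 f_mm_202_t t 2 25 1 = true :=
  ⟨(b (a (a (l 6) (a (c (l 16604040) (l 16607640)) (c (c (l 16549680) (l 16566240)) (c (l 16586080) (l 16609184))))) (a (c (a (c (l 16592424) (l 16605232)) (a (l 16672864) (l 16705360))) (c (a (l 16620672) (l 16615200)) (a (l 16638736) (l 16627824)))) (c (a (c (a (l 16672192) (l 16716112)) (b (l 16642688) (l 16630336))) (c (a (b (l 16713384) (l 16722808)) (c (l 16740472) (l 16741232))) (a (l 16679136) (l 16742592)))) (a (c (a (l 16685616) (l 16684112)) (l 16703056)) (c (a (l 16724864) (l 16744816)) (a (l 16729440) (l 16747512))))))) (a (a (a (l 6) (c (l 16519712) (l 16544240))) (c (a (c (l 16527272) (l 16544472)) (c (l 16566672) (l 16581568))) (c (l 16645120) (a (l 16589568) (l 16620520))))) (a (c (a (c (l 16610136) (l 16621424)) (c (l 16718928) (l 16705352))) (a (c (l 16635104) (l 16651184)) (b (l 16673984) (l 16681440))))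 (a (c (a (b (l 16688560) (l 16718792)) (c (b (l 16709312) (l 16718968)) (l 16675432))) (c (l 16732504) (l 16717552))) (a (c (a (b (l 16706864) (l 16716344)) (b (l 16697104) (l 16748592))) (c (l 16741672) (l 16744672))) (c (c (b (l 16755352) (a (l 16759456) (l 16770824))) (c (l 16760752) (l 16761200))) (c (b (l 16757664) (l 16766408)) (l 16757984)))))))), by decide +kernel⟩

def k228_mm_202_t : ∃ t, chk3 f_mm_202_t t 2 26 1 = true :=
  ⟨(b (a (a (a (l 6) (c (l 16535168) (l 16555480))) (c (a (c (l 16544560) (l 16559984)) (c (l 16584728) (l 16597976))) (c (a (l 16578760) (l 16614056)) (a (l 16600856) (l 16632936))))) (a (b (c (a (l 16670800) (a (l 16662152) (l 16684688))) (a (l 16569728) (l 16710088))) (c (a (l 16679984) (a (l 16671544) (l 16694200))) (a (l 16577192) (l 16717968)))) (a (c (a (c (l 16731344) (l 16672000)) (b (l 16735176) (a (l 16712984) (l 16745360)))) (c (a (l 16697448) (l 16738664)) (l 16753840))) (a (c (c (b (l 16752072) (l 16762104)) (l 16757992)) (c (l 16759200) (l 16760672))) (b (c (c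 (a (l 16769368) (l 102240355783)) (l 87207923591)) (c (l 87744800151) (l 82376064679))) (a (c (c (l 95797924903) (l 16774656)) (c (l 16774496) (l 16774352))) (l 4))))))) (a (a (c (c (l 16524576) (l 16519440)) (a (l 16532528) (l 16567848))) (c (a (c (l 16562872) (l 16576544)) (c (l 16603688) (l 16615312))) (c (a (l 16593312) (l 16629512)) (a (l 16613160) (l 16646280))))) (a (c (a (a (l 16683176) (l 16726264)) (c (a (l 16683344) (l 16727928)) (c (l 16740456) (l 16638272)))) (a (c (l 16624880) (l 16657960)) (c (l 16705760) (l 16712872)))) (a (a (c (b (c (l 16725416) (l 16728112)) (l 16747096)) (c (l 16735968) (l 16739680))) (c (c (b (l 16748888) (l 16759136)) (l 16755096)) (c (l 16756520) (l 16758272)))) (a (b (c (c (a (l 16766456) (l 93113501687)) (l 67880564935)) (c (l 16755432) (l 16773008))) (a (c (c (l 90429149303) (l 16776064)) (l 85597308647)) (l 4))) (l 4)))))), by decide +kernel⟩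

def k229_mm_202_t : ∃ t, chk3 f_mm_202_t t 2 27 1 = true :=
  ⟨(a (b (b (a (c (a (l 16503744) (l 16543840)) (l 16622560)) (a (c (l 16582984) (l 16613520)) (c (l 16644312) (l 16586024)))) (a (l 2) (a (l 2) (c (l 16674936) (l 16593800))))) (l 2)) (a (b (c (c (a (l 16710384) (a (l 16724720) (c (l 16747896) (l 16749064)))) (a (l 16696280) (a (l 16708040) (l 16730184)))) (a (a (l 77409727399) (l 16718832)) (c (l 16760128) (l 16728736)))) (b (c (a (a (l 2) (l 16697984)) (a (c (l 16719368) (l 16722704)) (l 16785960))) (a (l 16722072) (c (l 16737024) (l 16740976)))) (l 2))) (a (b (b (a (c (l 16757160) (l 16750712)) (c (c (a (l 16763616) (l 16759016)) (l 16769536)) (c (l 16770096) (l 16770776)))) (a (c (l 16777808) (l 16759512)) (c (c (a (l 16773584) (l 96334706375)) (l 104387796007)) (c (l 90429122999) (l 87207894791))))) (b (a (c (c (l 16766624) (l 16767176)) (c (l 16767888) (l 16768752))) (a (c (c (l 95797840743) (l 16749176)) (l 94187223015)) (l 4))) (a (c (a (l 74188818599) (l 112977801255)) (c (l 90966022791)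 (l 16776320))) (l 4)))) (b (b (a (a (a (c (l 95797908039) (l 95797845255)) (l 4)) (l 4)) (l 4)) (l 4)) (l 4))))), by decide +kernel⟩

def k230_mm_202_t : ∃ t, chk3 f_mm_202_t t 2 7 1 = true :=
  ⟨(a (l 2) (a (l 2) (a (l 2) (l 4)))), by decide +kernel⟩

def k231_mm_202_t : ∃ t, chk3 f_mm_202_t t 12 24 1 = true :=
  ⟨(a (b (a (c (c (b (a (l 16716288) (l 16727272)) (a (l 16725192) (l 16736264))) (l 16728816)) (c (l 16732056) (l 16735960))) (c (c (b (l 16743720) (l 16763320)) (l 16760136)) (c (l 16756664) (b (l 16749976) (l 16757280))))) (c (b (a (b (l 16738496) (l 16763968)) (c (a (l 16756576) (l 16767688)) (l 16762832))) (a (c (l 16749208) (l 16750544)) (a (l 16784600) (c (c (b (l 16774592) (l 88281661863)) (l 70028114727)) (l 66270022631))))) (a (c (l 16748064) (l 16750480)) (b (c (l 16763728) (l 16764816)) (c (l 73786152967) (l 75396746967)))))) (b (b (a (c (c (a (l 16760144) (b (l 16768800) (l 32447145687))) (l 16787128)) (c (l 16766872) (l 16759216))) (a (a (b (c (a (l 16775632) (l 90429205479)) (l 16760632))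 (c (l 182234109127) (l 103850912807))) (l 4)) (l 4))) (a (c (c (a (c (l 16769280) (l 16769448)) (a (b (l 16775248) (l 119420234407)) (l 179012880871))) (a (l 16769736) (l 91502957815))) (c (a (l 16770208) (l 90429119655)) (a (l 16770784) (l 90429117703)))) (l 4))) (b (a (a (c (a (b (l 16773720) (l 85597370231)) (b (l 94724176375) (l 4))) (c (l 80765452839) (l 78617968279))) (l 4)) (l 4)) (l 4)))), by decide +kernel⟩

def k232_mm_202_t : ∃ t, chk3 f_mm_202_t t 12 25 1 = true :=
  ⟨(a (b (b (c (a (c (l 16758704) (l 16759560)) (a (c (a (l 16772720) (l 80228662759)) (l 16775408)) (c (l 175791647783) (l 127473313511)))) (a (a (l 16756480) (l 16766120)) (c (c (l 87744744135) (l 86134130919)) (c (l 86671001367) (l 87207871175))))) (a (c (c (a (l 16762696) (c (l 51774501207) (l 16773800))) (l 16755520)) (c (l 16769200) (l 16769904))) (a (a (b (c (l 107609078647) (l 16773296)) (l 4)) (l 4)) (l 4)))) (a (b (c (a (b (l 16770168) (l 60901311559)) (c (l 146800625767) (l 114051538759))) (c (c (l 84523535511) (l 16733928))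 (l 81302306695))) (a (a (c (a (l 81839279591) (l 109219698103)) (l 86134177447)) (l 4)) (l 4))) (l 4))) (l 4)), by decide +kernel⟩

def k233_mm_202_t : ∃ t, chk3 f_mm_202_t t 12 13 1 = true :=
  ⟨(l 4), by decide +kernel⟩

def k234_mm_202_t : ∃ t, chk3 f_mm_202_t t 13 6 1 = true :=
  ⟨(l 4), by decide +kernel⟩

def k235_mm_202_t : ∃ t, chk3 f_mm_202_t t 7 6 1 = true :=
  ⟨(l 4), by decide +kernel⟩

def k236_mm_202_t : ∃ t, chk3 f_mm_202_t t 3 7 1 = true :=
  ⟨(l 4), by decide +kernel⟩

theorem s237_mm_202_t : ∃ t, chk3 f_mm_202_t t 12 12 1 = true := ex3_b k231_mm_202_t k232_mm_202_t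

theorem s238_mm_202_t : ∃ t, chk3 f_mm_202_t t 12 6 1 = true := ex3_b s237_mm_202_t k233_mm_202_t

theorem s239_mm_202_t : ∃ t, chk3 f_mm_202_t t 6 6 1 = true := ex3_a s238_mm_202_t k234_mm_202_t

theorem s240_mm_202_t : ∃ t, chk3 f_mm_202_t t 3 6 1 = true := ex3_a s239_mm_202_t k235_mm_202_t

theorem s241_mm_202_t : ∃ t, chk3 f_mm_202_t t 3 3 1 = true := ex3_b s240_mm_202_t k236_mm_202_t

theorem s242_mm_202_t : ∃ t, chk3 f_mm_202_t t 2 13 1 = true := ex3_b k228_mm_202_t k229_mm_202_t

theorem s243_mm_202_t : ∃ t, chk3 f_mm_202_t t 2 12 1 = true := ex3_b k226_mm_202_t k227_mm_202_t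

theorem s244_mm_202_t : ∃ t, chk3 f_mm_202_t t 2 6 1 = true := ex3_b s243_mm_202_t s242_mm_202_t

theorem s245_mm_202_t : ∃ t, chk3 f_mm_202_t t 2 3 1 = true := ex3_b s244_mm_202_t k230_mm_202_t

theorem s246_mm_202_t : ∃ t, chk3 f_mm_202_t t 1 3 1 = true := ex3_a s245_mm_202_t s241_mm_202_t

theorem s247_mm_202_t : ∃ t, chk3 f_mm_202_t t 28 20 3 = true := ex3_b k220_mm_202_t k221_mm_202_t

theorem s248_mm_202_t : ∃ t, chk3 f_mm_202_t t 56 41 2 = true := ex3_b k217_mm_202_t k218_mm_202_t

theorem s249_mm_202_t : ∃ t, chk3 f_mm_202_t t 28 41 2 = true := ex3_a s248_mm_202_t k219_mm_202_t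

theorem s250_mm_202_t : ∃ t, chk3 f_mm_202_t t 114 40 2 = true := ex3_a k214_mm_202_t k215_mm_202_t

theorem s251_mm_202_t : ∃ t, chk3 f_mm_202_t t 57 40 2 = true := ex3_a s250_mm_202_t k216_mm_202_t

theorem s252_mm_202_t : ∃ t, chk3 f_mm_202_t t 28 40 2 = true := ex3_a k213_mm_202_t s251_mm_202_t

theorem s253_mm_202_t : ∃ t, chk3 f_mm_202_t t 28 20 2 = true := ex3_b s252_mm_202_t s249_mm_202_t

theorem s254_mm_202_t : ∃ t, chk3 f_mm_202_t t 28 20 1 = true := ex3_c s253_mm_202_t s247_mm_202_t

theorem s255_mm_202_t : ∃ t, chk3 f_mm_202_t t 14 20 1 = true := ex3_a s254_mm_202_t k222_mm_202_t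

theorem s256_mm_202_t : ∃ t, chk3 f_mm_202_t t 14 10 1 = true := ex3_b s255_mm_202_t k223_mm_202_t

theorem s257_mm_202_t : ∃ t, chk3 f_mm_202_t t 7 10 1 = true := ex3_a s256_mm_202_t k224_mm_202_t

theorem s258_mm_202_t : ∃ t, chk3 f_mm_202_t t 7 5 1 = true := ex3_b s257_mm_202_t k225_mm_202_t

theorem s259_mm_202_t : ∃ t, chk3 f_mm_202_t t 26 22 1 = true := ex3_a k209_mm_202_t k210_mm_202_t

theorem s260_mm_202_t : ∃ t, chk3 f_mm_202_t t 13 22 1 = true := ex3_a s259_mm_202_t k211_mm_202_t

theorem s261_mm_202_t : ∃ t, chk3 f_mm_202_t t 13 11 1 = true := ex3_b s260_mm_202_t k212_mm_202_t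

theorem s262_mm_202_t : ∃ t, chk3 f_mm_202_t t 12 11 1 = true := ex3_a k207_mm_202_t k208_mm_202_t

theorem s263_mm_202_t : ∃ t, chk3 f_mm_202_t t 6 11 1 = true := ex3_a s262_mm_202_t s261_mm_202_t

theorem s264_mm_202_t : ∃ t, chk3 f_mm_202_t t 13 43 1 = true := ex3_b k205_mm_202_t k206_mm_202_t

theorem s265_mm_202_t : ∃ t, chk3 f_mm_202_t t 13 42 1 = true := ex3_b k203_mm_202_t k204_mm_202_t

theorem s266_mm_202_t : ∃ t, chk3 f_mm_202_t t 13 21 1 = true := ex3_b s265_mm_202_t s264_mm_202_t

theorem s267_mm_202_t : ∃ t, chk3 f_mm_202_t t 13 20 1 = true := ex3_a k201_mm_202_t k202_mm_202_t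

theorem s268_mm_202_t : ∃ t, chk3 f_mm_202_t t 13 10 1 = true := ex3_b s267_mm_202_t s266_mm_202_t

theorem s269_mm_202_t : ∃ t, chk3 f_mm_202_t t 6 10 1 = true := ex3_a k200_mm_202_t s268_mm_202_t

theorem s270_mm_202_t : ∃ t, chk3 f_mm_202_t t 6 5 1 = true := ex3_b s269_mm_202_t s263_mm_202_t

theorem s271_mm_202_t : ∃ t, chk3 f_mm_202_t t 3 5 1 = true := ex3_a s270_mm_202_t s258_mm_202_t

theorem s272_mm_202_t : ∃ t, chk3 f_mm_202_t t 480 148 1 = true := ex3_b k190_mm_202_t k191_mm_202_t

theorem s273_mm_202_t : ∃ t, chk3 f_mm_202_t t 240 148 1 = true := ex3_a s272_mm_202_t k192_mm_202_t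

theorem s274_mm_202_t : ∃ t, chk3 f_mm_202_t t 240 74 1 = true := ex3_b s273_mm_202_t k193_mm_202_t

theorem s275_mm_202_t : ∃ t, chk3 f_mm_202_t t 240 37 1 = true := ex3_b s274_mm_202_t k194_mm_202_t

theorem s276_mm_202_t : ∃ t, chk3 f_mm_202_t t 120 37 1 = true := ex3_a s275_mm_202_t k195_mm_202_t

theorem s277_mm_202_t : ∃ t, chk3 f_mm_202_t t 60 37 1 = true := ex3_a s276_mm_202_t k196_mm_202_t

theorem s278_mm_202_t : ∃ t, chk3 f_mm_202_t t 121 36 3 = true := ex3_b k188_mm_202_t k189_mm_202_t

theorem s279_mm_202_t : ∃ t, chk3 f_mm_202_t t 120 36 3 = true := ex3_b k186_mm_202_t k187_mm_202_t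

theorem s280_mm_202_t : ∃ t, chk3 f_mm_202_t t 60 36 3 = true := ex3_a s279_mm_202_t s278_mm_202_t

theorem s281_mm_202_t : ∃ t, chk3 f_mm_202_t t 483 146 2 = true := ex3_b k182_mm_202_t k183_mm_202_t

theorem s282_mm_202_t : ∃ t, chk3 f_mm_202_t t 483 73 2 = true := ex3_b s281_mm_202_t k184_mm_202_t

theorem s283_mm_202_t : ∃ t, chk3 f_mm_202_t t 482 73 4 = true := ex3_b k179_mm_202_t k180_mm_202_t

theorem s284_mm_202_t : ∃ t, chk3 f_mm_202_t t 482 73 2 = true := ex3_c s283_mm_202_t k181_mm_202_t

theorem s285_mm_202_t : ∃ t, chk3 f_mm_202_t t 241 73 2 = true := ex3_a s284_mm_202_t s282_mm_202_t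

theorem s286_mm_202_t : ∃ t, chk3 f_mm_202_t t 240 147 4 = true := ex3_a k176_mm_202_t k177_mm_202_t

theorem s287_mm_202_t : ∃ t, chk3 f_mm_202_t t 240 147 2 = true := ex3_c s286_mm_202_t k178_mm_202_t

theorem s288_mm_202_t : ∃ t, chk3 f_mm_202_t t 240 73 2 = true := ex3_b k175_mm_202_t s287_mm_202_t

theorem s289_mm_202_t : ∃ t, chk3 f_mm_202_t t 120 73 2 = true := ex3_a s288_mm_202_t s285_mm_202_t

theorem s290_mm_202_t : ∃ t, chk3 f_mm_202_t t 60 73 2 = true := ex3_a s289_mm_202_t k185_mm_202_t

theorem s291_mm_202_t : ∃ t, chk3 f_mm_202_t t 243 289 2 = true := ex3_a k172_mm_202_t k173_mm_202_t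

theorem s292_mm_202_t : ∃ t, chk3 f_mm_202_t t 243 288 2 = true := ex3_b k170_mm_202_t k171_mm_202_t

theorem s293_mm_202_t : ∃ t, chk3 f_mm_202_t t 243 144 2 = true := ex3_b s292_mm_202_t s291_mm_202_t

theorem s294_mm_202_t : ∃ t, chk3 f_mm_202_t t 243 72 2 = true := ex3_b s293_mm_202_t k174_mm_202_t

theorem s295_mm_202_t : ∃ t, chk3 f_mm_202_t t 242 291 2 = true := ex3_a k168_mm_202_t k169_mm_202_t

theorem s296_mm_202_t : ∃ t, chk3 f_mm_202_t t 242 290 4 = true := ex3_a k165_mm_202_t k166_mm_202_t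

theorem s297_mm_202_t : ∃ t, chk3 f_mm_202_t t 242 290 2 = true := ex3_c s296_mm_202_t k167_mm_202_t

theorem s298_mm_202_t : ∃ t, chk3 f_mm_202_t t 242 145 2 = true := ex3_b s297_mm_202_t s295_mm_202_t

theorem s299_mm_202_t : ∃ t, chk3 f_mm_202_t t 242 72 2 = true := ex3_b k164_mm_202_t s298_mm_202_t

theorem s300_mm_202_t : ∃ t, chk3 f_mm_202_t t 121 72 2 = true := ex3_a s299_mm_202_t s294_mm_202_t

theorem s301_mm_202_t : ∃ t, chk3 f_mm_202_t t 60 72 2 = true := ex3_a k163_mm_202_t s300_mm_202_t

theorem s302_mm_202_t : ∃ t, chk3 f_mm_202_t t 60 36 2 = true := ex3_b s301_mm_202_t s290_mm_202_t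

theorem s303_mm_202_t : ∃ t, chk3 f_mm_202_t t 60 36 1 = true := ex3_c s302_mm_202_t s280_mm_202_t

theorem s304_mm_202_t : ∃ t, chk3 f_mm_202_t t 60 18 1 = true := ex3_b s303_mm_202_t s277_mm_202_t

theorem s305_mm_202_t : ∃ t, chk3 f_mm_202_t t 30 18 1 = true := ex3_a s304_mm_202_t k197_mm_202_t

theorem s306_mm_202_t : ∃ t, chk3 f_mm_202_t t 15 18 1 = true := ex3_a s305_mm_202_t k198_mm_202_t

theorem s307_mm_202_t : ∃ t, chk3 f_mm_202_t t 15 9 1 = true := ex3_b s306_mm_202_t k199_mm_202_t

theorem s308_mm_202_t : ∃ t, chk3 f_mm_202_t t 233 78 1 = true := ex3_b k158_mm_202_t k159_mm_202_t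

theorem s309_mm_202_t : ∃ t, chk3 f_mm_202_t t 233 39 1 = true := ex3_b s308_mm_202_t k160_mm_202_t

theorem s310_mm_202_t : ∃ t, chk3 f_mm_202_t t 232 39 1 = true := ex3_b k156_mm_202_t k157_mm_202_t

theorem s311_mm_202_t : ∃ t, chk3 f_mm_202_t t 116 39 1 = true := ex3_a s310_mm_202_t s309_mm_202_t

theorem s312_mm_202_t : ∃ t, chk3 f_mm_202_t t 58 39 1 = true := ex3_a s311_mm_202_t k161_mm_202_t

theorem s313_mm_202_t : ∃ t, chk3 f_mm_202_t t 29 39 1 = true := ex3_a s312_mm_202_t k162_mm_202_t

theorem s314_mm_202_t : ∃ t, chk3 f_mm_202_t t 236 153 1 = true := ex3_b k151_mm_202_t k152_mm_202_t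

theorem s315_mm_202_t : ∃ t, chk3 f_mm_202_t t 236 76 1 = true := ex3_b k150_mm_202_t s314_mm_202_t

theorem s316_mm_202_t : ∃ t, chk3 f_mm_202_t t 236 38 1 = true := ex3_b s315_mm_202_t k153_mm_202_t

theorem s317_mm_202_t : ∃ t, chk3 f_mm_202_t t 118 38 1 = true := ex3_a s316_mm_202_t k154_mm_202_t

theorem s318_mm_202_t : ∃ t, chk3 f_mm_202_t t 59 38 1 = true := ex3_a s317_mm_202_t k155_mm_202_t

theorem s319_mm_202_t : ∃ t, chk3 f_mm_202_t t 117 154 4 = true := ex3_a k145_mm_202_t k146_mm_202_t

theorem s320_mm_202_t : ∃ t, chk3 f_mm_202_t t 117 154 2 = true := ex3_c s319_mm_202_t k147_mm_202_t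

theorem s321_mm_202_t : ∃ t, chk3 f_mm_202_t t 117 77 2 = true := ex3_b s320_mm_202_t k148_mm_202_t

theorem s322_mm_202_t : ∃ t, chk3 f_mm_202_t t 58 77 2 = true := ex3_a k144_mm_202_t s321_mm_202_t

theorem s323_mm_202_t : ∃ t, chk3 f_mm_202_t t 58 38 2 = true := ex3_b k143_mm_202_t s322_mm_202_t

theorem s324_mm_202_t : ∃ t, chk3 f_mm_202_t t 58 38 1 = true := ex3_c s323_mm_202_t k149_mm_202_t

theorem s325_mm_202_t : ∃ t, chk3 f_mm_202_t t 29 38 1 = true := ex3_a s324_mm_202_t s318_mm_202_t

theorem s326_mm_202_t : ∃ t, chk3 f_mm_202_t t 29 19 1 = true := ex3_b s325_mm_202_t s313_mm_202_t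

theorem s327_mm_202_t : ∃ t, chk3 f_mm_202_t t 28 19 3 = true := ex3_a k141_mm_202_t k142_mm_202_t

theorem s328_mm_202_t : ∃ t, chk3 f_mm_202_t t 57 39 2 = true := ex3_b k139_mm_202_t k140_mm_202_t

theorem s329_mm_202_t : ∃ t, chk3 f_mm_202_t t 28 39 2 = true := ex3_a k138_mm_202_t s328_mm_202_t

theorem s330_mm_202_t : ∃ t, chk3 f_mm_202_t t 28 19 2 = true := ex3_b k137_mm_202_t s329_mm_202_t

theorem s331_mm_202_t : ∃ t, chk3 f_mm_202_t t 28 19 1 = true := ex3_c s330_mm_202_t s327_mm_202_t

theorem s332_mm_202_t : ∃ t, chk3 f_mm_202_t t 14 19 1 = true := ex3_a s331_mm_202_t s326_mm_202_t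

theorem s333_mm_202_t : ∃ t, chk3 f_mm_202_t t 59 37 3 = true := ex3_b k135_mm_202_t k136_mm_202_t

theorem s334_mm_202_t : ∃ t, chk3 f_mm_202_t t 238 150 8 = true := ex3_a k129_mm_202_t k130_mm_202_t

theorem s335_mm_202_t : ∃ t, chk3 f_mm_202_t t 238 150 4 = true := ex3_c s334_mm_202_t k131_mm_202_t

theorem s336_mm_202_t : ∃ t, chk3 f_mm_202_t t 238 150 2 = true := ex3_c s335_mm_202_t k132_mm_202_t

theorem s337_mm_202_t : ∃ t, chk3 f_mm_202_t t 238 75 2 = true := ex3_b s336_mm_202_t k133_mm_202_t

theorem s338_mm_202_t : ∃ t, chk3 f_mm_202_t t 119 75 2 = true := ex3_a s337_mm_202_t k134_mm_202_t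

theorem s339_mm_202_t : ∃ t, chk3 f_mm_202_t t 237 75 2 = true := ex3_b k127_mm_202_t k128_mm_202_t

theorem s340_mm_202_t : ∃ t, chk3 f_mm_202_t t 118 75 2 = true := ex3_a k126_mm_202_t s339_mm_202_t

theorem s341_mm_202_t : ∃ t, chk3 f_mm_202_t t 59 75 2 = true := ex3_a s340_mm_202_t s338_mm_202_t

theorem s342_mm_202_t : ∃ t, chk3 f_mm_202_t t 479 74 4 = true := ex3_b k123_mm_202_t k124_mm_202_t

theorem s343_mm_202_t : ∃ t, chk3 f_mm_202_t t 239 74 4 = true := ex3_a k122_mm_202_t s342_mm_202_t

theorem s344_mm_202_t : ∃ t, chk3 f_mm_202_t t 119 74 4 = true := ex3_a k121_mm_202_t s343_mm_202_t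

theorem s345_mm_202_t : ∃ t, chk3 f_mm_202_t t 59 74 4 = true := ex3_a k120_mm_202_t s344_mm_202_t

theorem s346_mm_202_t : ∃ t, chk3 f_mm_202_t t 59 74 2 = true := ex3_c s345_mm_202_t k125_mm_202_t

theorem s347_mm_202_t : ∃ t, chk3 f_mm_202_t t 59 37 2 = true := ex3_b s346_mm_202_t s341_mm_202_t

theorem s348_mm_202_t : ∃ t, chk3 f_mm_202_t t 59 37 1 = true := ex3_c s347_mm_202_t s333_mm_202_t

theorem s349_mm_202_t : ∃ t, chk3 f_mm_202_t t 58 37 1 = true := ex3_a k118_mm_202_t k119_mm_202_t

theorem s350_mm_202_t : ∃ t, chk3 f_mm_202_t t 29 37 1 = true := ex3_a s349_mm_202_t s348_mm_202_t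

theorem s351_mm_202_t : ∃ t, chk3 f_mm_202_t t 29 147 1 = true := ex3_c k116_mm_202_t k117_mm_202_t

theorem s352_mm_202_t : ∃ t, chk3 f_mm_202_t t 29 73 1 = true := ex3_b k115_mm_202_t s351_mm_202_t

theorem s353_mm_202_t : ∃ t, chk3 f_mm_202_t t 29 72 1 = true := ex3_b k113_mm_202_t k114_mm_202_t

theorem s354_mm_202_t : ∃ t, chk3 f_mm_202_t t 29 36 1 = true := ex3_b s353_mm_202_t s352_mm_202_t

theorem s355_mm_202_t : ∃ t, chk3 f_mm_202_t t 29 18 1 = true := ex3_b s354_mm_202_t s350_mm_202_t

theorem s356_mm_202_t : ∃ t, chk3 f_mm_202_t t 57 18 1 = true := ex3_a k111_mm_202_t k112_mm_202_t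

theorem s357_mm_202_t : ∃ t, chk3 f_mm_202_t t 28 18 1 = true := ex3_a k110_mm_202_t s356_mm_202_t

theorem s358_mm_202_t : ∃ t, chk3 f_mm_202_t t 14 18 1 = true := ex3_a s357_mm_202_t s355_mm_202_t

theorem s359_mm_202_t : ∃ t, chk3 f_mm_202_t t 14 9 1 = true := ex3_b s358_mm_202_t s332_mm_202_t

theorem s360_mm_202_t : ∃ t, chk3 f_mm_202_t t 7 9 1 = true := ex3_a s359_mm_202_t s307_mm_202_t

theorem s361_mm_202_t : ∃ t, chk3 f_mm_202_t t 122 70 3 = true := ex3_a k105_mm_202_t k106_mm_202_t

theorem s362_mm_202_t : ∃ t, chk3 f_mm_202_t t 61 70 3 = true := ex3_a s361_mm_202_t k107_mm_202_t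

theorem s363_mm_202_t : ∃ t, chk3 f_mm_202_t t 61 35 3 = true := ex3_b s362_mm_202_t k108_mm_202_t

theorem s364_mm_202_t : ∃ t, chk3 f_mm_202_t t 986 280 4 = true := ex3_a k97_mm_202_t k98_mm_202_t

theorem s365_mm_202_t : ∃ t, chk3 f_mm_202_t t 493 280 4 = true := ex3_a s364_mm_202_t k99_mm_202_t

theorem s366_mm_202_t : ∃ t, chk3 f_mm_202_t t 493 280 2 = true := ex3_c s365_mm_202_t k100_mm_202_t

theorem s367_mm_202_t : ∃ t, chk3 f_mm_202_t t 493 140 2 = true := ex3_b s366_mm_202_t k101_mm_202_t

theorem s368_mm_202_t : ∃ t, chk3 f_mm_202_t t 492 281 8 = true := ex3_a k93_mm_202_t k94_mm_202_t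

theorem s369_mm_202_t : ∃ t, chk3 f_mm_202_t t 492 140 8 = true := ex3_b k92_mm_202_t s368_mm_202_t

theorem s370_mm_202_t : ∃ t, chk3 f_mm_202_t t 492 140 4 = true := ex3_c s369_mm_202_t k95_mm_202_t

theorem s371_mm_202_t : ∃ t, chk3 f_mm_202_t t 492 140 2 = true := ex3_c s370_mm_202_t k96_mm_202_t

theorem s372_mm_202_t : ∃ t, chk3 f_mm_202_t t 246 140 2 = true := ex3_a s371_mm_202_t s367_mm_202_t

theorem s373_mm_202_t : ∃ t, chk3 f_mm_202_t t 246 70 2 = true := ex3_b s372_mm_202_t k102_mm_202_t

theorem s374_mm_202_t : ∃ t, chk3 f_mm_202_t t 123 70 2 = true := ex3_a s373_mm_202_t k103_mm_202_t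

theorem s375_mm_202_t : ∃ t, chk3 f_mm_202_t t 123 35 2 = true := ex3_b s374_mm_202_t k104_mm_202_t

theorem s376_mm_202_t : ∃ t, chk3 f_mm_202_t t 490 284 4 = true := ex3_a k86_mm_202_t k87_mm_202_t

theorem s377_mm_202_t : ∃ t, chk3 f_mm_202_t t 490 284 2 = true := ex3_c s376_mm_202_t k88_mm_202_t

theorem s378_mm_202_t : ∃ t, chk3 f_mm_202_t t 490 142 2 = true := ex3_b s377_mm_202_t k89_mm_202_t

theorem s379_mm_202_t : ∃ t, chk3 f_mm_202_t t 245 142 2 = true := ex3_a s378_mm_202_t k90_mm_202_t

theorem s380_mm_202_t : ∃ t, chk3 f_mm_202_t t 245 71 2 = true := ex3_b s379_mm_202_t k91_mm_202_t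

theorem s381_mm_202_t : ∃ t, chk3 f_mm_202_t t 488 286 2 = true := ex3_b k82_mm_202_t k83_mm_202_t

theorem s382_mm_202_t : ∃ t, chk3 f_mm_202_t t 244 286 2 = true := ex3_a s381_mm_202_t k84_mm_202_t

theorem s383_mm_202_t : ∃ t, chk3 f_mm_202_t t 244 143 2 = true := ex3_b s382_mm_202_t k85_mm_202_t

theorem s384_mm_202_t : ∃ t, chk3 f_mm_202_t t 489 142 8 = true := ex3_a k78_mm_202_t k79_mm_202_t

theorem s385_mm_202_t : ∃ t, chk3 f_mm_202_t t 489 142 4 = true := ex3_c s384_mm_202_t k80_mm_202_t

theorem s386_mm_202_t : ∃ t, chk3 f_mm_202_t t 244 142 4 = true := ex3_a k77_mm_202_t s385_mm_202_t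

theorem s387_mm_202_t : ∃ t, chk3 f_mm_202_t t 244 142 2 = true := ex3_c s386_mm_202_t k81_mm_202_t

theorem s388_mm_202_t : ∃ t, chk3 f_mm_202_t t 244 71 2 = true := ex3_b s387_mm_202_t s383_mm_202_t

theorem s389_mm_202_t : ∃ t, chk3 f_mm_202_t t 122 71 2 = true := ex3_a s388_mm_202_t s380_mm_202_t

theorem s390_mm_202_t : ∃ t, chk3 f_mm_202_t t 245 283 2 = true := ex3_a k75_mm_202_t k76_mm_202_t

theorem s391_mm_202_t : ∃ t, chk3 f_mm_202_t t 491 282 8 = true := ex3_c k71_mm_202_t k72_mm_202_t

theorem s392_mm_202_t : ∃ t, chk3 f_mm_202_t t 491 282 4 = true := ex3_c s391_mm_202_t k73_mm_202_t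

theorem s393_mm_202_t : ∃ t, chk3 f_mm_202_t t 491 282 2 = true := ex3_c s392_mm_202_t k74_mm_202_t

theorem s394_mm_202_t : ∃ t, chk3 f_mm_202_t t 245 282 2 = true := ex3_a k70_mm_202_t s393_mm_202_t

theorem s395_mm_202_t : ∃ t, chk3 f_mm_202_t t 245 141 2 = true := ex3_b s394_mm_202_t s390_mm_202_t

theorem s396_mm_202_t : ∃ t, chk3 f_mm_202_t t 122 141 2 = true := ex3_a k69_mm_202_t s395_mm_202_t

theorem s397_mm_202_t : ∃ t, chk3 f_mm_202_t t 122 140 2 = true := ex3_a k67_mm_202_t k68_mm_202_t

theorem s398_mm_202_t : ∃ t, chk3 f_mm_202_t t 122 70 2 = true := ex3_b s397_mm_202_t s396_mm_202_t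

theorem s399_mm_202_t : ∃ t, chk3 f_mm_202_t t 122 35 2 = true := ex3_b s398_mm_202_t s389_mm_202_t

theorem s400_mm_202_t : ∃ t, chk3 f_mm_202_t t 61 35 2 = true := ex3_a s399_mm_202_t s375_mm_202_t

theorem s401_mm_202_t : ∃ t, chk3 f_mm_202_t t 61 35 1 = true := ex3_c s400_mm_202_t s363_mm_202_t

theorem s402_mm_202_t : ∃ t, chk3 f_mm_202_t t 60 71 3 = true := ex3_b k65_mm_202_t k66_mm_202_t

theorem s403_mm_202_t : ∃ t, chk3 f_mm_202_t t 60 35 3 = true := ex3_b k64_mm_202_t s402_mm_202_t

theorem s404_mm_202_t : ∃ t, chk3 f_mm_202_t t 243 143 8 = true := ex3_a k60_mm_202_t k61_mm_202_t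

theorem s405_mm_202_t : ∃ t, chk3 f_mm_202_t t 243 143 4 = true := ex3_c s404_mm_202_t k62_mm_202_t

theorem s406_mm_202_t : ∃ t, chk3 f_mm_202_t t 243 71 4 = true := ex3_b k59_mm_202_t s405_mm_202_t

theorem s407_mm_202_t : ∃ t, chk3 f_mm_202_t t 121 71 4 = true := ex3_a k58_mm_202_t s406_mm_202_t

theorem s408_mm_202_t : ∃ t, chk3 f_mm_202_t t 121 71 2 = true := ex3_c s407_mm_202_t k63_mm_202_t

theorem s409_mm_202_t : ∃ t, chk3 f_mm_202_t t 60 71 2 = true := ex3_a k57_mm_202_t s408_mm_202_t

theorem s410_mm_202_t : ∃ t, chk3 f_mm_202_t t 60 35 2 = true := ex3_b k56_mm_202_t s409_mm_202_t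

theorem s411_mm_202_t : ∃ t, chk3 f_mm_202_t t 60 35 1 = true := ex3_c s410_mm_202_t s403_mm_202_t

theorem s412_mm_202_t : ∃ t, chk3 f_mm_202_t t 30 35 1 = true := ex3_a s411_mm_202_t s401_mm_202_t

theorem s413_mm_202_t : ∃ t, chk3 f_mm_202_t t 123 139 3 = true := ex3_a k54_mm_202_t k55_mm_202_t

theorem s414_mm_202_t : ∃ t, chk3 f_mm_202_t t 123 69 3 = true := ex3_b k53_mm_202_t s413_mm_202_t

theorem s415_mm_202_t : ∃ t, chk3 f_mm_202_t t 61 69 3 = true := ex3_a k52_mm_202_t s414_mm_202_t

theorem s416_mm_202_t : ∃ t, chk3 f_mm_202_t t 61 34 3 = true := ex3_b k51_mm_202_t s415_mm_202_t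

theorem s417_mm_202_t : ∃ t, chk3 f_mm_202_t t 989 278 4 = true := ex3_b k46_mm_202_t k47_mm_202_t

theorem s418_mm_202_t : ∃ t, chk3 f_mm_202_t t 989 278 2 = true := ex3_c s417_mm_202_t k48_mm_202_t

theorem s419_mm_202_t : ∃ t, chk3 f_mm_202_t t 989 139 2 = true := ex3_b s418_mm_202_t k49_mm_202_t

theorem s420_mm_202_t : ∃ t, chk3 f_mm_202_t t 988 279 2 = true := ex3_b k44_mm_202_t k45_mm_202_t

theorem s421_mm_202_t : ∃ t, chk3 f_mm_202_t t 988 139 2 = true := ex3_b k43_mm_202_t s420_mm_202_t

theorem s422_mm_202_t : ∃ t, chk3 f_mm_202_t t 494 139 2 = true := ex3_a s421_mm_202_t s419_mm_202_t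

theorem s423_mm_202_t : ∃ t, chk3 f_mm_202_t t 247 139 2 = true := ex3_a s422_mm_202_t k50_mm_202_t

theorem s424_mm_202_t : ∃ t, chk3 f_mm_202_t t 495 277 2 = true := ex3_a k41_mm_202_t k42_mm_202_t

theorem s425_mm_202_t : ∃ t, chk3 f_mm_202_t t 247 277 2 = true := ex3_a k40_mm_202_t s424_mm_202_t

theorem s426_mm_202_t : ∃ t, chk3 f_mm_202_t t 247 138 2 = true := ex3_b k39_mm_202_t s425_mm_202_t

theorem s427_mm_202_t : ∃ t, chk3 f_mm_202_t t 247 69 2 = true := ex3_b s426_mm_202_t s423_mm_202_t

theorem s428_mm_202_t : ∃ t, chk3 f_mm_202_t t 493 279 2 = true := ex3_a k37_mm_202_t k38_mm_202_t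

theorem s429_mm_202_t : ∃ t, chk3 f_mm_202_t t 493 139 2 = true := ex3_b k36_mm_202_t s428_mm_202_t

theorem s430_mm_202_t : ∃ t, chk3 f_mm_202_t t 246 139 2 = true := ex3_a k35_mm_202_t s429_mm_202_t

theorem s431_mm_202_t : ∃ t, chk3 f_mm_202_t t 246 69 2 = true := ex3_b k34_mm_202_t s430_mm_202_t

theorem s432_mm_202_t : ∃ t, chk3 f_mm_202_t t 123 69 2 = true := ex3_a s431_mm_202_t s427_mm_202_t

theorem s433_mm_202_t : ∃ t, chk3 f_mm_202_t t 61 69 2 = true := ex3_a k33_mm_202_t s432_mm_202_t

theorem s434_mm_202_t : ∃ t, chk3 f_mm_202_t t 61 34 2 = true := ex3_b k32_mm_202_t s433_mm_202_t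

theorem s435_mm_202_t : ∃ t, chk3 f_mm_202_t t 61 34 1 = true := ex3_c s434_mm_202_t s416_mm_202_t

theorem s436_mm_202_t : ∃ t, chk3 f_mm_202_t t 60 34 2 = true := ex3_b k29_mm_202_t k30_mm_202_t

theorem s437_mm_202_t : ∃ t, chk3 f_mm_202_t t 60 34 1 = true := ex3_c s436_mm_202_t k31_mm_202_t

theorem s438_mm_202_t : ∃ t, chk3 f_mm_202_t t 30 34 1 = true := ex3_a s437_mm_202_t s435_mm_202_t

theorem s439_mm_202_t : ∃ t, chk3 f_mm_202_t t 30 17 1 = true := ex3_b s438_mm_202_t s412_mm_202_t

theorem s440_mm_202_t : ∃ t, chk3 f_mm_202_t t 15 17 1 = true := ex3_a s439_mm_202_t k109_mm_202_t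

theorem s441_mm_202_t : ∃ t, chk3 f_mm_202_t t 15 8 1 = true := ex3_b k28_mm_202_t s440_mm_202_t

theorem s442_mm_202_t : ∃ t, chk3 f_mm_202_t t 29 71 1 = true := ex3_c k26_mm_202_t k27_mm_202_t

theorem s443_mm_202_t : ∃ t, chk3 f_mm_202_t t 29 35 1 = true := ex3_b k25_mm_202_t s442_mm_202_t

theorem s444_mm_202_t : ∃ t, chk3 f_mm_202_t t 29 34 1 = true := ex3_c k23_mm_202_t k24_mm_202_t

theorem s445_mm_202_t : ∃ t, chk3 f_mm_202_t t 29 17 1 = true := ex3_b s444_mm_202_t s443_mm_202_t

theorem s446_mm_202_t : ∃ t, chk3 f_mm_202_t t 28 17 1 = true := ex3_c k21_mm_202_t k22_mm_202_t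

theorem s447_mm_202_t : ∃ t, chk3 f_mm_202_t t 14 17 1 = true := ex3_a s446_mm_202_t s445_mm_202_t

theorem s448_mm_202_t : ∃ t, chk3 f_mm_202_t t 29 33 1 = true := ex3_a k19_mm_202_t k20_mm_202_t

theorem s449_mm_202_t : ∃ t, chk3 f_mm_202_t t 29 16 1 = true := ex3_b k18_mm_202_t s448_mm_202_t

theorem s450_mm_202_t : ∃ t, chk3 f_mm_202_t t 57 16 1 = true := ex3_a k16_mm_202_t k17_mm_202_t

theorem s451_mm_202_t : ∃ t, chk3 f_mm_202_t t 28 16 1 = true := ex3_a k15_mm_202_t s450_mm_202_t

theorem s452_mm_202_t : ∃ t, chk3 f_mm_202_t t 14 16 1 = true := ex3_a s451_mm_202_t s449_mm_202_t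

theorem s453_mm_202_t : ∃ t, chk3 f_mm_202_t t 14 8 1 = true := ex3_b s452_mm_202_t s447_mm_202_t

theorem s454_mm_202_t : ∃ t, chk3 f_mm_202_t t 7 8 1 = true := ex3_a s453_mm_202_t s441_mm_202_t

theorem s455_mm_202_t : ∃ t, chk3 f_mm_202_t t 7 4 1 = true := ex3_b s454_mm_202_t s360_mm_202_t

theorem s456_mm_202_t : ∃ t, chk3 f_mm_202_t t 13 9 3 = true := ex3_c k13_mm_202_t k14_mm_202_t

theorem s457_mm_202_t : ∃ t, chk3 f_mm_202_t t 6 9 3 = true := ex3_a k12_mm_202_t s456_mm_202_t

theorem s458_mm_202_t : ∃ t, chk3 f_mm_202_t t 6 9 2 = true := ex3_a k10_mm_202_t k11_mm_202_t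

theorem s459_mm_202_t : ∃ t, chk3 f_mm_202_t t 6 9 1 = true := ex3_c s458_mm_202_t s457_mm_202_t

theorem s460_mm_202_t : ∃ t, chk3 f_mm_202_t t 13 17 1 = true := ex3_c k8_mm_202_t k9_mm_202_t

theorem s461_mm_202_t : ∃ t, chk3 f_mm_202_t t 27 16 1 = true := ex3_b k6_mm_202_t k7_mm_202_t

theorem s462_mm_202_t : ∃ t, chk3 f_mm_202_t t 13 16 1 = true := ex3_a k5_mm_202_t s461_mm_202_t

theorem s463_mm_202_t : ∃ t, chk3 f_mm_202_t t 13 8 1 = true := ex3_b s462_mm_202_t s460_mm_202_t

theorem s464_mm_202_t : ∃ t, chk3 f_mm_202_t t 6 8 1 = true := ex3_a k4_mm_202_t s463_mm_202_t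

theorem s465_mm_202_t : ∃ t, chk3 f_mm_202_t t 6 4 1 = true := ex3_b s464_mm_202_t s459_mm_202_t

theorem s466_mm_202_t : ∃ t, chk3 f_mm_202_t t 3 4 1 = true := ex3_a s465_mm_202_t s455_mm_202_t

theorem s467_mm_202_t : ∃ t, chk3 f_mm_202_t t 3 2 1 = true := ex3_b s466_mm_202_t s271_mm_202_t

theorem s468_mm_202_t : ∃ t, chk3 f_mm_202_t t 5 5 1 = true := ex3_a k2_mm_202_t k3_mm_202_t

theorem s469_mm_202_t : ∃ t, chk3 f_mm_202_t t 2 5 1 = true := ex3_a k1_mm_202_t s468_mm_202_t

theorem s470_mm_202_t : ∃ t, chk3 f_mm_202_t t 2 2 1 = true := ex3_b k0_mm_202_t s469_mm_202_t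

theorem s471_mm_202_t : ∃ t, chk3 f_mm_202_t t 1 2 1 = true := ex3_a s470_mm_202_t s467_mm_202_t

theorem s472_mm_202_t : ∃ t, chk3 f_mm_202_t t 1 1 1 = true := ex3_b s471_mm_202_t s246_mm_202_t

theorem c_mm_202_t : CertNE 0 536870912 0 536870912 858993459 64424510 3 eng mog cd0q2 cd0q0 pd2 true false false .pp 2 0 2
    ndB0q2 ndB0q0 pcB2 cut_mm_202_t Ext.none :=
  certNE0 (fam := true) (s1 := false) (s2 := false) (a := 2) (b := 0) (c := 2) (cn := .pp) (n1 := ndB0q2) (n2 := ndB0q0) (pc := pcB2) (cut := cut_mm_202_t) (xt := Ext.none) (P1 := 0) (W1 := 536870912) (P2 := 0) (W2 := 536870912) (P3 := 858993459) (W3 := 64424510) (N0 := 3) (En := eng) (mo := mog) (C1 := cd0q2) (C2 := cd0q0) (C3 := pd2)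
    rfl s472_mm_202_t

end Pool.Agent.Strip051.G.I8000_8600.Tab.CS.BA00

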