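import Pool.Agent.Strip051.G.I8000_8600.Tab
import Pool.Agent.Strip051.PB.StripB

/-! # Strips, near vertex: certificates 7 (generated) -/

set_option linter.all false
set_option maxRecDepth 100000

namespace Pool.Agent.Strip051.G.I8000_8600.Tab.CS.BA00

open Pool.Agent.Strip051.PB Pool.Agent.Strip051.PB.T
open Pool.Agent.Strip051.G.I8000_8600.Tab

noncomputable def cut_mm_203_s : Cut := Cut.of [[⟨4, 0, 0, 1449551462⟩]]

noncomputable def f_mm_203_s : ℕ → ℕ → ℕ → ℕ → Bool := onCell 0 536870912 0 536870912 858993459 64424510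
    (rowNE 3 eng mog cd0q2 cd0q0 pd3 0 true false false .up 2 0 3 (qsf 0 536870912 0 536870912 3) ndB0q2 ndB0q0 pcB3 cut_mm_203_s Ext.none)

def k0_mm_203_s : ∃ t, chk3 f_mm_203_s t 1 1 1 = true :=
  ⟨(l 6), by decide +kernel⟩

theorem c_mm_203_s : CertNE 0 536870912 0 536870912 858993459 64424510 3 eng mog cd0q2 cd0q0 pd3 true false false .up 2 0 3
    ndB0q2 ndB0q0 pcB3 cut_mm_203_s Ext.none :=
  certNE0 (fam := true) (s1 := false) (s2 := false) (a := 2) (b := 0) (c := 3) (cn := .up) (n1 := ndB0q2) (n2 := ndB0q0) (pc := pcB3) (cut := cut_mm_203_s) (xt := Ext.none) (P1 := 0) (W1 := 536870912) (P2 := 0) (W2 := 536870912) (P3 := 858993459) (W3 := 64424510) (N0 := 3) (En := eng) (mo := mog) (C1 := cd0q2) (C2 := cd0q0) (C3 := pd3)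
    rfl k0_mm_203_s

noncomputable def cut_mm_203_t : Cut := Cut.of [[⟨3, 0, 0, 2845415833⟩]]

noncomputable def f_mm_203_t : ℕ → ℕ → ℕ → ℕ → Bool := onCell 0 536870912 1610612736 536870912 858993459 64424510
    (rowNE 3 eng mog cd0q2 cd0q0 pd3 1 true false false .up 2 0 3 (qsf 0 536870912 0 536870912 3) ndB0q2 ndB0q0 pcB3 cut_mm_203_t Ext.none)

def k0_mm_203_t : ∃ t, chk3 f_mm_203_t t 8 2 1 = true :=
  ⟨(b (b (b (b (c (c (l 16525760) (l 16548784)) (a (l 16563072) (l 16531608))) (c (c (l 16560456) (l 16575688)) (b (l 16492192) (l 16503720)))) (c (b (a (l 16576032) (l 16653944)) (b (l 16675952) (l 16688208))) (b (c (l 16616624) (l 16612960)) (c (l 16596496) (l 16653064))))) (c (c (b (b (l 16680448) (l 16724768)) (b (l 16725304) (l 16745016))) (b (b (l 16564080) (l 16585312)) (b (l 16688728) (l 16706632)))) (b (b (c (l 16595792) (l 16670512)) (c (l 16677472) (l 16686432))) (b (c (l 16694696) (l 16700992)) (a (l 16699872) (l 16724832)))))) (b (b (c (a (b (l 16708200) (l 16723792)) (b (b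 (l 16731248) (l 16738952)) (l 16770600))) (b (c (l 16704064) (l 16726968)) (c (l 16738456) (l 16739112)))) (l 2)) (l 2))), by decide +kernel⟩

def k1_mm_203_t : ∃ t, chk3 f_mm_203_t t 9 2 1 = true :=
  ⟨(b (c (b (b (b (c (a (l 16595592) (l 16662336)) (a (l 16607360) (l 16649944))) (a (c (l 16621384) (l 16631824)) (c (l 16707360) (l 16630840)))) (b (a (c (l 16645896) (l 16654896)) (c (a (l 16677232) (l 16699224)) (l 16631368))) (a (c (l 16669248) (l 16676664)) (c (l 16751832) (l 16714520))))) (b (b (a (a (l 16643240) (l 16703216)) (b (l 16769008) (l 16736568))) (a (c (l 16712104) (l 16716176)) (c (a (l 16739472) (l 16758984)) (l 16751024)))) (a (b (b (l 16727888) (l 16715648)) (c (l 16748320) (l 16749648))) (b (c (a (l 16757152) (b (l 16771072) (l 93113482423))) (b (l 16762872) (l 75396733991))) (a (b (l 16769272) (l 88281654839)) (b (l 99019047799) (l 4))))))) (b (b (b (c (a (l 16621040) (l 16659920)) (l 16653984)) (a (l 16650576) (c (l 16660336) (l 16669984)))) (b (c (a (l 16665280) (l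 16701264)) (l 16745528)) (c (a (l 16685192) (l 16719856)) (a (l 16694760) (l 16725848))))) (b (b (c (a (l 16703704) (l 16737136)) (l 16726136)) (a (c (l 16720840) (l 16726016)) (c (l 16753112) (l 16755440)))) (a (b (c (l 16736616) (l 16739848)) (c (l 16751136) (l 16752720))) (a (b (c (l 16759688) (l 16761200)) (b (l 16770288) (l 87207915095))) (b (c (l 87207894295) (l 85060414183)) (b (l 99019051367) (l 4)))))))) (b (b (a (c (b (b (l 16760288) (a (l 16760008) (l 79154858631))) (a (b (l 16766792) (l 16772712)) (b (l 94724098135) (l 113514585015)))) (b (c (l 46405724775) (l 16764880)) (c (b (l 84523547239) (l 91502854439)) (a (l 16770200) (l 95260946951))))) (b (a (b (c (l 96334705271) (l 95797835623)) (l 4)) (l 4)) (l 4))) (l 2)) (l 2))), by decide +kernel⟩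

def k2_mm_203_t : ∃ t, chk3 f_mm_203_t t 5 2 1 = true :=
  ⟨(b (b (b (b (a (a (c (c (a (l 16677520) (l 16723664)) (a (l 16683688) (l 16707240))) (c (l 16701704) (l 16708792))) (c (c (a (l 16760152) (b (l 16750128) (l 16760776))) (a (l 16731608) (l 16756768))) (c (a (l 16735000) (l 16758264)) (l 16749416)))) (a (a (b (c (c (a (l 16770448) (l 93650348743)) (l 90965983399)) (c (l 85597273655) (l 83449795351))) (a (c (b (l 93650374215) (l 94724105095)) (l 88818518023)) (l 4))) (l 4)) (l 4))) (a (c (c (a (a (l 16700416) (l 16724864)) (a (l 16750176) (b (a (l 16764536) (l 94187239127)) (a (l 16773600) (l 97408444631))))) (a (l 16737776) (a (l 16751872) (b (l 16759920) (l 90965980327))))) (a (c (l 16742600) (l 16727080)) (a (c (l 16753848) (l 16756080)) (c (c (l 87207874199) (l 85060391207)) (b (l 16771624) (l 87207891799)))))) (l 4))) (a (a (c (b (c (b (l 16728744) (l 16739096)) (l 16736856)) (b (c (l 16749168) (l 16751080)) (a (l 16748504) (b (l 16768064) (l 50163912839))))) (b (c (l 16740200)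 (l 16743960)) (b (c (l 16753280) (l 16755760)) (c (l 16761256) (l 16762944))))) (b (b (a (c (a (l 16759752) (l 16792504)) (l 44795126471)) (a (c (b (l 94187239495) (l 4)) (l 94187224551)) (l 4))) (a (a (c (l 16769264) (l 16770528)) (c (c (l 93650360807) (l 16773280)) (l 90966006743))) (l 4))) (a (b (a (c (l 94187245511) (l 88818528407)) (l 4)) (l 4)) (l 4)))) (l 4))) (a (a (b (b (b (a (c (l 16757816) (l 16760912)) (a (c (l 16773320) (l 16774000)) (c (l 97945320167) (l 97945325207)))) (a (c (l 16766552) (l 16768256)) (a (c (l 96334713799) (l 95260976743)) (l 4)))) (a (b (c (a (l 16770080) (l 94187234407)) (l 84523554487)) (a (c (l 93650371127) (l 16755216)) (l 4))) (l 4))) (l 4)) (l 4)) (l 4))) (l 4)), by decide +kernel⟩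

def k3_mm_203_t : ∃ t, chk3 f_mm_203_t t 3 2 1 = true :=
  ⟨(l 4), by decide +kernel⟩

def k4_mm_203_t : ∃ t, chk3 f_mm_203_t t 1 3 1 = true :=
  ⟨(l 2), by decide +kernel⟩

theorem s5_mm_203_t : ∃ t, chk3 f_mm_203_t t 4 2 1 = true := ex3_a k0_mm_203_t k1_mm_203_t

theorem s6_mm_203_t : ∃ t, chk3 f_mm_203_t t 2 2 1 = true := ex3_a s5_mm_203_t k2_mm_203_t

theorem s7_mm_203_t : ∃ t, chk3 f_mm_203_t t 1 2 1 = true := ex3_a s6_mm_203_t k3_mm_203_t

theorem s8_mm_203_t : ∃ t, chk3 f_mm_203_t t 1 1 1 = true := ex3_b s7_mm_203_t k4_mm_203_t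

theorem c_mm_203_t : CertNE 0 536870912 0 536870912 858993459 64424510 3 eng mog cd0q2 cd0q0 pd3 true false false .up 2 0 3
    ndB0q2 ndB0q0 pcB3 cut_mm_203_t Ext.none :=
  certNE1 (fam := true) (s1 := false) (s2 := false) (a := 2) (b := 0) (c := 3) (cn := .up) (n1 := ndB0q2) (n2 := ndB0q0) (pc := pcB3) (cut := cut_mm_203_t) (xt := Ext.none) (P1 := 0) (W1 := 536870912) (P2 := 0) (W2 := 536870912) (P3 := 858993459) (W3 := 64424510) (N0 := 3) (En := eng) (mo := mog) (C1 := cd0q2) (C2 := cd0q0) (C3 := pd3)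
    rfl (fun _ => rfl) s8_mm_203_t

noncomputable def cut_mm_213_s : Cut := Cut.of [[⟨4, 0, 0, 1449551462⟩]]

noncomputable def f_mm_213_s : ℕ → ℕ → ℕ → ℕ → Bool := onCell 0 536870912 536870912 536870912 858993459 64424510
    (rowNE 3 eng mog cd0q2 cd0q1 pd3 0 true false false .pnn 2 1 3 (qsf 0 536870912 536870912 536870912 3) ndB0q2 ndB0q1 pcB3 cut_mm_213_s Ext.none)

def k0_mm_213_s : ∃ t, chk3 f_mm_213_s t 1 1 1 = true :=
  ⟨(l 6), by decide +kernel⟩

theorem c_mm_213_s : CertNE 0 536870912 536870912 536870912 858993459 64424510 3 eng mog cd0q2 cd0q1 pd3 true false false .pnn 2 1 3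
    ndB0q2 ndB0q1 pcB3 cut_mm_213_s Ext.none :=
  certNE0 (fam := true) (s1 := false) (s2 := false) (a := 2) (b := 1) (c := 3) (cn := .pnn) (n1 := ndB0q2) (n2 := ndB0q1) (pc := pcB3) (cut := cut_mm_213_s) (xt := Ext.none) (P1 := 0) (W1 := 536870912) (P2 := 536870912) (W2 := 536870912) (P3 := 858993459) (W3 := 64424510) (N0 := 3) (En := eng) (mo := mog) (C1 := cd0q2) (C2 := cd0q1) (C3 := pd3)
    rfl k0_mm_213_s

noncomputable def cut_mm_213_t : Cut := Cut.of [[⟨3, 0, 0, 2845415833⟩]]

noncomputable def f_mm_213_t : ℕ → ℕ → ℕ → ℕ → Bool := onCell 0 536870912 536870912 536870912 858993459 64424510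
    (rowNE 3 eng mog cd0q2 cd0q1 pd3 0 true false false .pnn 2 1 3 (qsf 0 536870912 536870912 536870912 3) ndB0q2 ndB0q1 pcB3 cut_mm_213_t Ext.none)

def k0_mm_213_t : ∃ t, chk3 f_mm_213_t t 1 1 1 = true :=
  ⟨(a (b (a (b (b (a (a (b (c (b (l 16704728) (l 16749160)) (b (l 16716560) (l 16749160))) (c (b (b (l 16758280) (l 16764080)) (b (l 64659349063) (l 86134166503))) (b (c (l 16760856) (l 16759672)) (c (l 77544229031) (l 75396744615))))) (b (c (a (b (l 16754176) (l 16766552)) (b (l 39426503463) (a (l 78081217863) (l 107072237975)))) (b (c (l 16760712) (l 16760728)) (c (l 78617963751) (l 77007350295)))) (b (c (a (a (l 78618086407) (l 105998495943)) (l 4)) (c (l 95797802487) (l 95260928711))) (l 4)))) (b (a (a (b (c (b (l 83449828359) (l 96871586951)) (c (l 91502867799) (l 89892252983))) (l 4)) (l 4)) (l 4)) (l 4))) (a (b (a (b (c (b (l 95260955511) (l 100092786647)) (c (l 96871550343) (l 95260934199))) (l 4)) (l 4)) (l 4)) (l 4))) (l 4)) (l 4)) (l 4)) (l 4)), by decide +kernel⟩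

theorem c_mm_213_t : CertNE 0 536870912 536870912 536870912 858993459 64424510 3 eng mog cd0q2 cd0q1 pd3 true false false .pnn 2 1 3
    ndB0q2 ndB0q1 pcB3 cut_mm_213_t Ext.none :=
  certNE0 (fam := true) (s1 := false) (s2 := false) (a := 2) (b := 1) (c := 3) (cn := .pnn) (n1 := ndB0q2) (n2 := ndB0q1) (pc := pcB3) (cut := cut_mm_213_t) (xt := Ext.none) (P1 := 0) (W1 := 536870912) (P2 := 536870912) (W2 := 536870912) (P3 := 858993459) (W3 := 64424510) (N0 := 3) (En := eng) (mo := mog) (C1 := cd0q2) (C2 := cd0q1) (C3 := pd3)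
    rfl k0_mm_213_t

end Pool.Agent.Strip051.G.I8000_8600.Tab.CS.BA00

namespace Pool.Agent.Strip051.G.I8000_8600.Tab.CS.BA04

open Pool.Agent.Strip051.PB Pool.Agent.Strip051.PB.T
open Pool.Agent.Strip051.G.I8000_8600.Tab

noncomputable def cut_pp_001_s : Cut := Cut.of [[⟨4, 0, 0, 1449551462⟩]]

noncomputable def f_pp_001_s : ℕ → ℕ → ℕ → ℕ → Bool := onCell 0 536870912 0 536870912 858993459 64424510
    (rowNE 3 eng mog cd0q0 cd4q0 pd1 0 true true true .up 0 0 1 (qsf 0 536870912 0 536870912 1) ndB0q0 ndB4q0 pcB1 cut_pp_001_s Ext.none)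

def k0_pp_001_s : ∃ t, chk3 f_pp_001_s t 1 1 1 = true :=
  ⟨(l 4), by decide +kernel⟩

theorem c_pp_001_s : CertNE 0 536870912 0 536870912 858993459 64424510 3 eng mog cd0q0 cd4q0 pd1 true true true .up 0 0 1
    ndB0q0 ndB4q0 pcB1 cut_pp_001_s Ext.none :=
  certNE0 (fam := true) (s1 := true) (s2 := true) (a := 0) (b := 0) (c := 1) (cn := .up) (n1 := ndB0q0) (n2 := ndB4q0) (pc := pcB1) (cut := cut_pp_001_s) (xt := Ext.none) (P1 := 0) (W1 := 536870912) (P2 := 0) (W2 := 536870912) (P3 := 858993459) (W3 := 64424510) (N0 := 3) (En := eng) (mo := mog) (C1 := cd0q0) (C2 := cd4q0) (C3 := pd1)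
    rfl k0_pp_001_s

noncomputable def cut_pp_011_s : Cut := Cut.of [[⟨4, 0, 0, 1449551462⟩]]

noncomputable def f_pp_011_s : ℕ → ℕ → ℕ → ℕ → Bool := onCell 0 536870912 536870912 536870912 858993459 64424510
    (rowNE 3 eng mog cd0q0 cd4q1 pd1 0 true true true .pnn 0 1 1 (qsf 0 536870912 536870912 536870912 1) ndB0q0 ndB4q1 pcB1 cut_pp_011_s Ext.none)

def k0_pp_011_s : ∃ t, chk3 f_pp_011_s t 1 1 1 = true :=
  ⟨(l 4), by decide +kernel⟩

theorem c_pp_011_s : CertNE 0 536870912 536870912 536870912 858993459 64424510 3 eng mog cd0q0 cd4q1 pd1 true true true .pnn 0 1 1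
    ndB0q0 ndB4q1 pcB1 cut_pp_011_s Ext.none :=
  certNE0 (fam := true) (s1 := true) (s2 := true) (a := 0) (b := 1) (c := 1) (cn := .pnn) (n1 := ndB0q0) (n2 := ndB4q1) (pc := pcB1) (cut := cut_pp_011_s) (xt := Ext.none) (P1 := 0) (W1 := 536870912) (P2 := 536870912) (W2 := 536870912) (P3 := 858993459) (W3 := 64424510) (N0 := 3) (En := eng) (mo := mog) (C1 := cd0q0) (C2 := cd4q1) (C3 := pd1)
    rfl k0_pp_011_s

noncomputable def cut_pp_012_s : Cut := Cut.of [[⟨4, 0, 0, 1449551462⟩]]

noncomputable def f_pp_012_s : ℕ → ℕ → ℕ → ℕ → Bool := onCell 0 536870912 536870912 536870912 858993459 64424510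
    (rowNE 3 eng mog cd0q0 cd4q1 pd2 0 true true true .pnp 0 1 2 (qsf 0 536870912 536870912 536870912 2) ndB0q0 ndB4q1 pcB2 cut_pp_012_s Ext.none)

def k0_pp_012_s : ∃ t, chk3 f_pp_012_s t 1 1 1 = true :=
  ⟨(l 4), by decide +kernel⟩

theorem c_pp_012_s : CertNE 0 536870912 536870912 536870912 858993459 64424510 3 eng mog cd0q0 cd4q1 pd2 true true true .pnp 0 1 2
    ndB0q0 ndB4q1 pcB2 cut_pp_012_s Ext.none :=
  certNE0 (fam := true) (s1 := true) (s2 := true) (a := 0) (b := 1) (c := 2) (cn := .pnp) (n1 := ndB0q0) (n2 := ndB4q1) (pc := pcB2) (cut := cut_pp_012_s) (xt := Ext.none) (P1 := 0) (W1 := 536870912) (P2 := 536870912) (W2 := 536870912) (P3 := 858993459) (W3 := 64424510) (N0 := 3) (En := eng) (mo := mog) (C1 := cd0q0) (C2 := cd4q1) (C3 := pd2)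
    rfl k0_pp_012_s

noncomputable def cut_pp_022_s : Cut := Cut.of [[⟨4, 0, 0, 1449551462⟩]]

noncomputable def f_pp_022_s : ℕ → ℕ → ℕ → ℕ → Bool := onCell 0 536870912 1073741824 536870912 858993459 64424510
    (rowNE 3 eng mog cd0q0 cd4q2 pd2 0 true true true .pp 0 2 2 (qsf 0 536870912 1073741824 536870912 2) ndB0q0 ndB4q2 pcB2 cut_pp_022_s Ext.none)

def k0_pp_022_s : ∃ t, chk3 f_pp_022_s t 1 1 1 = true :=
  ⟨(l 4), by decide +kernel⟩

theorem c_pp_022_s : CertNE 0 536870912 1073741824 536870912 858993459 64424510 3 eng mog cd0q0 cd4q2 pd2 true true true .pp 0 2 2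
    ndB0q0 ndB4q2 pcB2 cut_pp_022_s Ext.none :=
  certNE0 (fam := true) (s1 := true) (s2 := true) (a := 0) (b := 2) (c := 2) (cn := .pp) (n1 := ndB0q0) (n2 := ndB4q2) (pc := pcB2) (cut := cut_pp_022_s) (xt := Ext.none) (P1 := 0) (W1 := 536870912) (P2 := 1073741824) (W2 := 536870912) (P3 := 858993459) (W3 := 64424510) (N0 := 3) (En := eng) (mo := mog) (C1 := cd0q0) (C2 := cd4q2) (C3 := pd2)
    rfl k0_pp_022_s

noncomputable def cut_pp_023_s : Cut := Cut.of [[⟨4, 0, 0, 1449551462⟩]]

noncomputable def f_pp_023_s : ℕ → ℕ → ℕ → ℕ → Bool := onCell 0 536870912 1073741824 536870912 858993459 64424510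
    (rowNE 3 eng mog cd0q0 cd4q2 pd3 0 true true true .up 0 2 3 (qsf 0 536870912 1073741824 536870912 3) ndB0q0 ndB4q2 pcB3 cut_pp_023_s Ext.none)

def k0_pp_023_s : ∃ t, chk3 f_pp_023_s t 1 1 1 = true :=
  ⟨(l 4), by decide +kernel⟩

theorem c_pp_023_s : CertNE 0 536870912 1073741824 536870912 858993459 64424510 3 eng mog cd0q0 cd4q2 pd3 true true true .up 0 2 3
    ndB0q0 ndB4q2 pcB3 cut_pp_023_s Ext.none :=
  certNE0 (fam := true) (s1 := true) (s2 := true) (a := 0) (b := 2) (c := 3) (cn := .up) (n1 := ndB0q0) (n2 := ndB4q2) (pc := pcB3) (cut := cut_pp_023_s) (xt := Ext.none) (P1 := 0) (W1 := 536870912) (P2 := 1073741824) (W2 := 536870912) (P3 := 858993459) (W3 := 64424510) (N0 := 3) (En := eng) (mo := mog) (C1 := cd0q0) (C2 := cd4q2) (C3 := pd3)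
    rfl k0_pp_023_s

noncomputable def cut_pp_033_s : Cut := Cut.of [[⟨4, 0, 0, 1449551462⟩]]

noncomputable def f_pp_033_s : ℕ → ℕ → ℕ → ℕ → Bool := onCell 0 536870912 0 1230186008 858993459 64424510
    (rowNE 3 eng mog cd0q0 cd4q3 pd3 0 true true true .pnn 0 3 3 (qsf 0 536870912 0 1230186008 3) ndB0q0 ndB4q3 pcB3 cut_pp_033_s Ext.none)

def k0_pp_033_s : ∃ t, chk3 f_pp_033_s t 1 1 1 = true :=
  ⟨(l 4), by decide +kernel⟩

theorem c_pp_033_s : CertNE 0 536870912 0 1230186008 858993459 64424510 3 eng mog cd0q0 cd4q3 pd3 true true true .pnn 0 3 3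
    ndB0q0 ndB4q3 pcB3 cut_pp_033_s Ext.none :=
  certNE0 (fam := true) (s1 := true) (s2 := true) (a := 0) (b := 3) (c := 3) (cn := .pnn) (n1 := ndB0q0) (n2 := ndB4q3) (pc := pcB3) (cut := cut_pp_033_s) (xt := Ext.none) (P1 := 0) (W1 := 536870912) (P2 := 0) (W2 := 1230186008) (P3 := 858993459) (W3 := 64424510) (N0 := 3) (En := eng) (mo := mog) (C1 := cd0q0) (C2 := cd4q3) (C3 := pd3)
    rfl k0_pp_033_s

noncomputable def cut_pp_101_s : Cut := Cut.of [[⟨4, 0, 0, 1449551462⟩]]

noncomputable def f_pp_101_s : ℕ → ℕ → ℕ → ℕ → Bool := onCell 536870912 536870912 0 536870912 858993459 64424510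
    (rowNE 3 eng mog cd0q1 cd4q0 pd1 0 true true true .npn 1 0 1 (qsf 536870912 536870912 0 536870912 1) ndB0q1 ndB4q0 pcB1 cut_pp_101_s Ext.none)

def k0_pp_101_s : ∃ t, chk3 f_pp_101_s t 1 1 1 = true :=
  ⟨(l 4), by decide +kernel⟩

theorem c_pp_101_s : CertNE 536870912 536870912 0 536870912 858993459 64424510 3 eng mog cd0q1 cd4q0 pd1 true true true .npn 1 0 1
    ndB0q1 ndB4q0 pcB1 cut_pp_101_s Ext.none :=
  certNE0 (fam := true) (s1 := true) (s2 := true) (a := 1) (b := 0) (c := 1) (cn := .npn) (n1 := ndB0q1) (n2 := ndB4q0) (pc := pcB1) (cut := cut_pp_101_s) (xt := Ext.none) (P1 := 536870912) (W1 := 536870912) (P2 := 0) (W2 := 536870912) (P3 := 858993459) (W3 := 64424510) (N0 := 3) (En := eng) (mo := mog) (C1 := cd0q1) (C2 := cd4q0) (C3 := pd1)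
    rfl k0_pp_101_s

noncomputable def cut_pp_102_s : Cut := Cut.of [[⟨4, 0, 0, 1449551462⟩]]

noncomputable def f_pp_102_s : ℕ → ℕ → ℕ → ℕ → Bool := onCell 536870912 536870912 0 536870912 858993459 64424510
    (rowNE 3 eng mog cd0q1 cd4q0 pd2 0 true true true .npp 1 0 2 (qsf 536870912 536870912 0 536870912 2) ndB0q1 ndB4q0 pcB2 cut_pp_102_s Ext.none)

def k0_pp_102_s : ∃ t, chk3 f_pp_102_s t 1 1 1 = true :=
  ⟨(l 4), by decide +kernel⟩

theorem c_pp_102_s : CertNE 536870912 536870912 0 536870912 858993459 64424510 3 eng mog cd0q1 cd4q0 pd2 true true true .npp 1 0 2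
    ndB0q1 ndB4q0 pcB2 cut_pp_102_s Ext.none :=
  certNE0 (fam := true) (s1 := true) (s2 := true) (a := 1) (b := 0) (c := 2) (cn := .npp) (n1 := ndB0q1) (n2 := ndB4q0) (pc := pcB2) (cut := cut_pp_102_s) (xt := Ext.none) (P1 := 536870912) (W1 := 536870912) (P2 := 0) (W2 := 536870912) (P3 := 858993459) (W3 := 64424510) (N0 := 3) (En := eng) (mo := mog) (C1 := cd0q1) (C2 := cd4q0) (C3 := pd2)
    rfl k0_pp_102_s

noncomputable def cut_pp_112_s : Cut := Cut.of [[⟨4, 0, 0, 1449551462⟩]]

noncomputable def f_pp_112_s : ℕ → ℕ → ℕ → ℕ → Bool := onCell 536870912 536870912 536870912 536870912 858993459 64424510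
    (rowNE 3 eng mog cd0q1 cd4q1 pd2 0 true true true .dn 1 1 2 (qsf 536870912 536870912 536870912 536870912 2) ndB0q1 ndB4q1 pcB2 cut_pp_112_s Ext.none)

def k0_pp_112_s : ∃ t, chk3 f_pp_112_s t 1 1 1 = true :=
  ⟨(l 4), by decide +kernel⟩

theorem c_pp_112_s : CertNE 536870912 536870912 536870912 536870912 858993459 64424510 3 eng mog cd0q1 cd4q1 pd2 true true true .dn 1 1 2
    ndB0q1 ndB4q1 pcB2 cut_pp_112_s Ext.none :=
  certNE0 (fam := true) (s1 := true) (s2 := true) (a := 1) (b := 1) (c := 2) (cn := .dn) (n1 := ndB0q1) (n2 := ndB4q1) (pc := pcB2) (cut := cut_pp_112_s) (xt := Ext.none) (P1 := 536870912) (W1 := 536870912) (P2 := 536870912) (W2 := 536870912) (P3 := 858993459) (W3 := 64424510) (N0 := 3) (En := eng) (mo := mog) (C1 := cd0q1) (C2 := cd4q1) (C3 := pd2)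
    rfl k0_pp_112_s

noncomputable def cut_pp_113_s : Cut := Cut.of [[⟨4, 0, 0, 1449551462⟩]]

noncomputable def f_pp_113_s : ℕ → ℕ → ℕ → ℕ → Bool := onCell 536870912 536870912 536870912 536870912 858993459 64424510
    (rowNE 3 eng mog cd0q1 cd4q1 pd3 0 true true true .nn 1 1 3 (qsf 536870912 536870912 536870912 536870912 3) ndB0q1 ndB4q1 pcB3 cut_pp_113_s Ext.none)

def k0_pp_113_s : ∃ t, chk3 f_pp_113_s t 1 1 1 = true :=
  ⟨(l 4), by decide +kernel⟩

theorem c_pp_113_s : CertNE 536870912 536870912 536870912 536870912 858993459 64424510 3 eng mog cd0q1 cd4q1 pd3 true true true .nn 1 1 3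
    ndB0q1 ndB4q1 pcB3 cut_pp_113_s Ext.none :=
  certNE0 (fam := true) (s1 := true) (s2 := true) (a := 1) (b := 1) (c := 3) (cn := .nn) (n1 := ndB0q1) (n2 := ndB4q1) (pc := pcB3) (cut := cut_pp_113_s) (xt := Ext.none) (P1 := 536870912) (W1 := 536870912) (P2 := 536870912) (W2 := 536870912) (P3 := 858993459) (W3 := 64424510) (N0 := 3) (En := eng) (mo := mog) (C1 := cd0q1) (C2 := cd4q1) (C3 := pd3)
    rfl k0_pp_113_s

noncomputable def cut_pp_123_s : Cut := Cut.of [[⟨4, 0, 0, 1449551462⟩]]

noncomputable def f_pp_123_s : ℕ → ℕ → ℕ → ℕ → Bool := onCell 536870912 536870912 1073741824 536870912 858993459 64424510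
    (rowNE 3 eng mog cd0q1 cd4q2 pd3 0 true true true .npn 1 2 3 (qsf 536870912 536870912 1073741824 536870912 3) ndB0q1 ndB4q2 pcB3 cut_pp_123_s Ext.none)

def k0_pp_123_s : ∃ t, chk3 f_pp_123_s t 1 1 1 = true :=
  ⟨(l 4), by decide +kernel⟩

theorem c_pp_123_s : CertNE 536870912 536870912 1073741824 536870912 858993459 64424510 3 eng mog cd0q1 cd4q2 pd3 true true true .npn 1 2 3
    ndB0q1 ndB4q2 pcB3 cut_pp_123_s Ext.none :=
  certNE0 (fam := true) (s1 := true) (s2 := true) (a := 1) (b := 2) (c := 3) (cn := .npn) (n1 := ndB0q1) (n2 := ndB4q2) (pc := pcB3) (cut := cut_pp_123_s) (xt := Ext.none) (P1 := 536870912) (W1 := 536870912) (P2 := 1073741824) (W2 := 536870912) (P3 := 858993459) (W3 := 64424510) (N0 := 3) (En := eng) (mo := mog) (C1 := cd0q1) (C2 := cd4q2) (C3 := pd3)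
    rfl k0_pp_123_s

noncomputable def cut_pp_133_s : Cut := Cut.of [[⟨4, 0, 0, 1449551462⟩]]

noncomputable def f_pp_133_s : ℕ → ℕ → ℕ → ℕ → Bool := onCell 536870912 536870912 0 1230186008 858993459 64424510
    (rowNE 3 eng mog cd0q1 cd4q3 pd3 0 true true true .dn 1 3 3 (qsf 536870912 536870912 0 1230186008 3) ndB0q1 ndB4q3 pcB3 cut_pp_133_s Ext.none)

def k0_pp_133_s : ∃ t, chk3 f_pp_133_s t 1 1 1 = true :=
  ⟨(l 4), by decide +kernel⟩

theorem c_pp_133_s : CertNE 536870912 536870912 0 1230186008 858993459 64424510 3 eng mog cd0q1 cd4q3 pd3 true true true .dn 1 3 3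
    ndB0q1 ndB4q3 pcB3 cut_pp_133_s Ext.none :=
  certNE0 (fam := true) (s1 := true) (s2 := true) (a := 1) (b := 3) (c := 3) (cn := .dn) (n1 := ndB0q1) (n2 := ndB4q3) (pc := pcB3) (cut := cut_pp_133_s) (xt := Ext.none) (P1 := 536870912) (W1 := 536870912) (P2 := 0) (W2 := 1230186008) (P3 := 858993459) (W3 := 64424510) (N0 := 3) (En := eng) (mo := mog) (C1 := cd0q1) (C2 := cd4q3) (C3 := pd3)
    rfl k0_pp_133_s

noncomputable def cut_pp_202_s : Cut := Cut.of [[⟨4, 0, 0, 1449551462⟩]]

noncomputable def f_pp_202_s : ℕ → ℕ → ℕ → ℕ → Bool := onCell 0 536870912 0 536870912 858993459 64424510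
    (rowNE 3 eng mog cd0q2 cd4q0 pd2 0 true true true .pp 2 0 2 (qsf 0 536870912 0 536870912 2) ndB0q2 ndB4q0 pcB2 cut_pp_202_s Ext.none)

def k0_pp_202_s : ∃ t, chk3 f_pp_202_s t 1 1 1 = true :=
  ⟨(l 4), by decide +kernel⟩

theorem c_pp_202_s : CertNE 0 536870912 0 536870912 858993459 64424510 3 eng mog cd0q2 cd4q0 pd2 true true true .pp 2 0 2
    ndB0q2 ndB4q0 pcB2 cut_pp_202_s Ext.none :=
  certNE0 (fam := true) (s1 := true) (s2 := true) (a := 2) (b := 0) (c := 2) (cn := .pp) (n1 := ndB0q2) (n2 := ndB4q0) (pc := pcB2) (cut := cut_pp_202_s) (xt := Ext.none) (P1 := 0) (W1 := 536870912) (P2 := 0) (W2 := 536870912) (P3 := 858993459) (W3 := 64424510) (N0 := 3) (En := eng) (mo := mog) (C1 := cd0q2) (C2 := cd4q0) (C3 := pd2)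
    rfl k0_pp_202_s

noncomputable def cut_pp_203_s : Cut := Cut.of [[⟨4, 0, 0, 1449551462⟩]]

noncomputable def f_pp_203_s : ℕ → ℕ → ℕ → ℕ → Bool := onCell 0 536870912 0 536870912 858993459 64424510
    (rowNE 3 eng mog cd0q2 cd4q0 pd3 0 true true true .up 2 0 3 (qsf 0 536870912 0 536870912 3) ndB0q2 ndB4q0 pcB3 cut_pp_203_s Ext.none)

def k0_pp_203_s : ∃ t, chk3 f_pp_203_s t 1 1 1 = true :=
  ⟨(l 4), by decide +kernel⟩

theorem c_pp_203_s : CertNE 0 536870912 0 536870912 858993459 64424510 3 eng mog cd0q2 cd4q0 pd3 true true true .up 2 0 3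
    ndB0q2 ndB4q0 pcB3 cut_pp_203_s Ext.none :=
  certNE0 (fam := true) (s1 := true) (s2 := true) (a := 2) (b := 0) (c := 3) (cn := .up) (n1 := ndB0q2) (n2 := ndB4q0) (pc := pcB3) (cut := cut_pp_203_s) (xt := Ext.none) (P1 := 0) (W1 := 536870912) (P2 := 0) (W2 := 536870912) (P3 := 858993459) (W3 := 64424510) (N0 := 3) (En := eng) (mo := mog) (C1 := cd0q2) (C2 := cd4q0) (C3 := pd3)
    rfl k0_pp_203_s

noncomputable def cut_pp_213_s : Cut := Cut.of [[⟨4, 0, 0, 1449551462⟩]]

noncomputable def f_pp_213_s : ℕ → ℕ → ℕ → ℕ → Bool := onCell 0 536870912 536870912 536870912 858993459 64424510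
    (rowNE 3 eng mog cd0q2 cd4q1 pd3 0 true true true .pnn 2 1 3 (qsf 0 536870912 536870912 536870912 3) ndB0q2 ndB4q1 pcB3 cut_pp_213_s Ext.none)

def k0_pp_213_s : ∃ t, chk3 f_pp_213_s t 1 1 1 = true :=
  ⟨(l 4), by decide +kernel⟩

theorem c_pp_213_s : CertNE 0 536870912 536870912 536870912 858993459 64424510 3 eng mog cd0q2 cd4q1 pd3 true true true .pnn 2 1 3
    ndB0q2 ndB4q1 pcB3 cut_pp_213_s Ext.none :=
  certNE0 (fam := true) (s1 := true) (s2 := true) (a := 2) (b := 1) (c := 3) (cn := .pnn) (n1 := ndB0q2) (n2 := ndB4q1) (pc := pcB3) (cut := cut_pp_213_s) (xt := Ext.none) (P1 := 0) (W1 := 536870912) (P2 := 536870912) (W2 := 536870912) (P3 := 858993459) (W3 := 64424510) (N0 := 3) (En := eng) (mo := mog) (C1 := cd0q2) (C2 := cd4q1) (C3 := pd3)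
    rfl k0_pp_213_s

noncomputable def cut_pm_001_s : Cut := Cut.of [[⟨4, 0, 0, 1449551462⟩]]

noncomputable def f_pm_001_s : ℕ → ℕ → ℕ → ℕ → Bool := onCell 0 536870912 536870912 536870912 858993459 64424510
    (rowNE 3 eng mog cd0q0 cd4q0 pd1 1 true true false .up 0 0 1 (qsf 0 536870912 0 536870912 1) ndB0q0 ndB4q0 pcB1 cut_pm_001_s Ext.none)

def k0_pm_001_s : ∃ t, chk3 f_pm_001_s t 2 1 1 = true :=
  ⟨(b (l 3) (b (b (l 3) (l 2)) (l 2))), by decide +kernel⟩

def k1_pm_001_s : ∃ t, chk3 f_pm_001_s t 3 4 1 = true :=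
  ⟨(l 3), by decide +kernel⟩

def k2_pm_001_s : ∃ t, chk3 f_pm_001_s t 6 5 1 = true :=
  ⟨(l 3), by decide +kernel⟩

def k3_pm_001_s : ∃ t, chk3 f_pm_001_s t 14 5 1 = true :=
  ⟨(b (l 3) (b (a (l 3) (b (l 3) (a (l 3) (b (a (l 3) (b (c (l 566566562759) (l 324437734743)) (c (l 310479098855) (l 309942237127)))) (c (a (b (l 317995277463) (l 312089716295)) (b (l 211157999543) (l 16761432))) (c (l 304573497655) (l 304036632551))))))) (a (b (a (l 3) (b (l 3) (b (l 3) (c (l 582672682295) (l 544554844007))))) (a (b (l 3) (a (l 3) (c (b (l 590188879895) (l 305647257463)) (b (l 321753369543) (l 16748648))))) (c (b (a (b (l 3) (l 310479086759)) (c (l 268603163559) (l 272361266039))) (a (b (l 16752440) (l 16764520)) (l 16762040))) (b (c (a (l 524153761207) (l 16752432)) (l 304036615175)) (a (l 272361265143) (l 16760408)))))) (b (a (b (c (a (l 585357032343) (c (l 307794725959) (l 307257863591))) (c (l 433959420087) (l 422685141575))) (c (c (a (l 308868474919) (l 16758848)) (a (l 307257868583) (l 16761488)))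 (c (l 270213770343) (l 270750645399)))) (c (b (c (a (l 16762016) (l 16745496)) (l 63518504103)) (c (a (l 16742408) (l 16725968)) (l 16740320))) (b (a (l 205789286967) (l 16757584)) (c (l 16747160) (l 16752560))))) (c (a (c (b (l 16747520) (l 16728312)) (b (l 16751712) (l 16735016))) (c (b (l 16714792) (l 16695784)) (b (l 16723576) (l 16706984)))) (a (b (c (l 16755960) (l 16759328)) (l 16765520)) (c (l 16704960) (l 16734496)))))))), by decide +kernel⟩

def k4_pm_001_s : ∃ t, chk3 f_pm_001_s t 30 5 1 = true :=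
  ⟨(b (b (l 3) (b (l 3) (a (l 3) (b (a (l 3) (c (l 539186141591) (l 513953209223))) (a (b (l 3) (c (l 316384670679) (l 316384678359))) (c (c (l 305647257687) (l 305110393239)) (c (l 16755400) (l 16755720)))))))) (b (b (a (b (a (l 3) (b (l 3) (c (l 314774059079) (l 314237196695)))) (b (a (l 3) (c (l 307794757895) (l 16755480))) (c (c (l 305647249623) (l 305110381655)) (a (l 312089716663) (l 16770608))))) (c (b (c (a (l 257328877463) (l 16756672)) (a (l 266992560487) (l 16759568))) (c (l 16756152) (l 16750184))) (b (c (l 226727238359) (l 248202077015)) (c (l 16756392) (l 16761096))))) (a (c (b (a (c (l 16752072) (l 16748288)) (c (l 16751256) (l 16755064))) (c (l 16740096) (l 16745488))) (b (c (l 178408866535) (l 16747000)) (c (l 16752096) (l 16757248)))) (c (c (b (a (l 16734640) (l 16718264)) (l 16707120)) (b (l 16733696) (l 16717144))) (c (l 16757608) (l 16745416))))) (c (b (a (c (b (l 16720664) (l 16701288)) (b (l 16728808) (l 16712096))) (c (l 16733200) (l 16692120))) (a (c (l 16714536)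 (l 16687096)) (c (l 16640256) (l 16659040)))) (b (a (b (l 16763568) (l 16709024)) (c (l 16709344) (l 16723144))) (c (a (l 16703400) (l 16681120)) (a (l 16716536) (l 16699088))))))), by decide +kernel⟩

def k5_pm_001_s : ∃ t, chk3 f_pm_001_s t 31 5 1 = true :=
  ⟨(b (a (b (l 3) (b (b (l 3) (c (a (l 3) (c (l 311015965271) (l 307257873575))) (c (l 420537659127) (l 416779582935)))) (c (b (c (a (l 308331611671) (l 16761640)) (a (l 307257875511) (l 16763552))) (c (l 16761592) (l 16754464))) (b (c (l 260013230295) (l 268066295287)) (c (l 16759944) (l 16763904)))))) (b (b (l 3) (b (l 3) (a (l 3) (c (c (l 309405352647) (l 308868485431)) (b (l 316384683287) (l 305110403047)))))) (c (b (b (a (c (l 308868480487) (l 308331615607)) (c (l 16765864) (l 16767216))) (c (a (l 16763776) (l 16748416)) (l 102710081431))) (c (c (l 16738016) (l 16751232)) (a (l 16741496) (l 16706752)))) (b (b (c (l 301352284583) (l 300815413223)) (c (l 16762936) (l 16766136))) (c (l 16765608) (l 16751960)))))) (b (a (c (b (b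 (c (a (l 16740424) (l 16724544)) (l 16717344)) (c (l 16713336) (l 16722016))) (c (b (l 16694264) (l 16675176)) (l 16676264))) (b (c (l 16761960) (l 16749224)) (c (l 16714720) (l 16728464)))) (c (b (c (b (l 16701416) (l 16682624)) (b (l 16710656) (l 16694456))) (c (l 16654160) (l 16669792))) (b (c (l 16719344) (l 16732376)) (c (l 16692928) (l 16711256))))) (c (c (b (a (l 16646440) (l 16616336)) (a (l 16608856) (l 16579024))) (b (a (l 16664232) (l 16636912)) (l 16659480))) (b (a (c (l 16687304) (l 16705912)) (l 16656856)) (a (l 16671040) (l 16651280)))))), by decide +kernel⟩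

def k6_pm_001_s : ∃ t, chk3 f_pm_001_s t 12 12 1 = true :=
  ⟨(b (l 3) (a (l 3) (b (l 3) (a (l 3) (b (l 3) (b (a (l 3) (c (c (l 590725759127) (l 314237173639)) (l 313163428567))) (a (l 2) (c (c (l 290078012631) (l 16774688)) (l 289541141079))))))))), by decide +kernel⟩

def k7_pm_001_s : ∃ t, chk3 f_pm_001_s t 13 24 1 = true :=
  ⟨(a (l 3) (b (a (l 3) (b (l 3) (c (a (l 589652001383) (c (l 301352274759) (l 300278539607))) (a (l 562808455447) (c (l 299204802135) (l 16745200)))))) (a (b (a (l 3) (b (l 3) (c (c (l 306184119207) (l 305647252199)) (l 304573507959)))) (c (a (b (l 603610652135) (c (l 300815421687) (l 16754936))) (b (l 285783047719) (l 16764704))) (a (b (l 321216489271) (l 299204808871)) (b (l 16774096) (l 16766776))))) (c (a (b (c (l 283098676663) (l 280414326087)) (l 16755320)) (b (l 16758856) (l 16741432))) (b (c (l 258402613063) (l 264308194999)) (c (l 16752560) (l 16754408))))))), by decide +kernel⟩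

def k8_pm_001_s : ∃ t, chk3 f_pm_001_s t 13 25 1 = true :=
  ⟨(a (b (a (b (l 3) (a (l 3) (b (l 3) (c (c (l 585357050135) (l 302962887767)) (l 430738184471))))) (b (a (b (l 3) (c (l 615421809799) (l 591799488055))) (c (c (b (l 321753371127) (l 299204822935)) (l 298667915095)) (c (l 298131046855) (l 297594178567)))) (c (a (c (c (l 301352283639) (l 294372962567)) (l 293299218727)) (c (l 16760616) (l 16762232))) (c (a (l 292225479591) (l 16763152)) (l 286856760999))))) (c (a (c (c (b (a (l 501068317143) (l 16749536)) (l 54391698823)) (b (a (l 503752671207) (l 283635559735)) (a (l 16766040) (l 16753104)))) (b (a (l 493552123191) (l 16749752)) (l 97341365975))) (b (c (a (l 16756592) (l 16742896)) (l 16752280)) (c (l 16753384) (l 16736264)))) (a (b (a (b (l 601463162519) (l 293299222599)) (b (l 289541142039) (l 16767384))) (a (b (l 16771112) (l 16763496)) (l 16755976))) (b (c (l 16753592) (l 16754464)) (c (l 16738248) (l 16739560)))))) (b (b (c (a (a (b (l 205252425271) (l 16760960)) (l 16751744))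 (c (l 16728624) (l 16733792))) (a (c (l 16760800) (l 16761728)) (l 16718000))) (c (a (c (l 16760568) (l 16743288)) (l 16735328)) (a (c (l 16745600) (l 16747256)) (l 16724224)))) (c (a (b (c (l 16722072) (l 16727200)) (l 16729288)) (c (l 16685160) (l 16693592))) (a (b (l 16731568) (l 16716520)) (b (l 16709336) (l 16694320)))))), by decide +kernel⟩

def k9_pm_001_s : ∃ t, chk3 f_pm_001_s t 6 13 1 = true :=
  ⟨(a (b (a (l 2) (b (b (a (l 2) (a (l 2) (c (c (l 16761456) (l 16762704)) (l 54861471175)))) (l 2)) (l 2))) (l 2)) (b (c (a (a (b (b (c (c (l 16741224) (l 16742728)) (l 16744736)) (c (l 16725040) (l 16728880))) (c (l 17817319815) (l 16705112))) (b (c (b (l 16715384) (l 16698720)) (l 16712336)) (c (l 16674432) (l 16680872)))) (a (b (a (l 16711640) (l 16677584)) (l 16674000)) (b (l 16678720) (l 16626760)))) (a (b (a (b (c (l 16745872) (l 16746520)) (l 16730904)) (b (l 16723784) (l 16708480))) (a (b (l 16715464) (l 2)) (l 16706184))) (b (a (b (l 16701360) (l 16686096)) (l 16671432)) (a (l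 16662888) (l 16640744))))) (a (a (l 2) (b (c (l 16668544) (l 16654136)) (l 2))) (c (b (a (l 16622056) (l 16595984)) (l 16620304)) (b (l 16672832) (l 16589088)))))), by decide +kernel⟩

def k10_pm_001_s : ∃ t, chk3 f_pm_001_s t 7 12 1 = true :=
  ⟨(a (c (b (c (a (b (a (b (a (l 305647234503) (l 16764888)) (l 16753744)) (b (l 16741472) (l 16722760))) (a (b (l 16735176) (l 16716928)) (l 16716288))) (b (a (l 16747320) (l 16667880)) (a (l 16663840) (l 16631984)))) (a (b (a (b (b (l 302426013943) (l 16748048)) (l 16756616)) (b (l 16746120) (l 16729616))) (a (b (l 16740152) (l 16723800)) (l 16705056))) (b (a (l 16750880) (l 16682368)) (a (l 16677704) (l 16650088))))) (a (b (a (c (l 16690264) (l 16699480)) (c (l 16660048) (l 16672848))) (c (l 16704408) (l 16706816))) (b (c (l 16676376) (l 16653080)) (c (l 16580624) (l 16600896))))) (b (a (c (b (a (b (b (l 301352277463) (l 16749104)) (l 16759008)) (l 16763984)) (a (l 16757632) (l 16713488))) (b (a (b (l 297057304439) (l 16760856)) (l 16768104))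 (a (l 16740376) (l 16720264)))) (b (c (a (l 16719928) (l 16697080)) (a (l 16727776) (l 16709080))) (a (b (l 16703176) (l 16688864)) (l 16675208)))) (a (b (a (b (l 16717032) (l 16702336)) (l 16688056)) (a (l 16679880) (l 16658384))) (b (a (l 16666904) (l 16646088)) (a (l 16637208) (l 16616296)))))) (a (c (b (b (c (a (l 16635640) (l 16603672)) (a (l 16654368) (l 16626464))) (c (l 16667984) (l 16608424))) (b (c (l 16550328) (l 16577168)) (c (l 16518304) (l 16546616)))) (b (b (a (l 16662216) (l 16663304)) (a (l 16654848) (l 16634760))) (b (a (l 16625576) (l 16605272)) (l 16585184)))) (c (b (a (b (l 16585488) (l 16552040)) (b (l 16557072) (l 16523736))) (c (l 16578072) (l 16527856))) (b (b (a (l 16643432) (l 16623376)) (l 16604312)) (b (l 16574376) (l 16543752)))))), by decide +kernel⟩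

def k11_pm_001_s : ∃ t, chk3 f_pm_001_s t 7 13 1 = true :=
  ⟨(a (c (b (a (b (c (l 16609304) (l 16623136)) (a (l 16599896) (l 16572480))) (c (b (l 16549488) (l 16520040)) (l 16638624))) (a (c (l 16618392) (l 16588008)) (b (l 16501032) (l 16472128)))) (b (a (b (a (l 16649632) (l 16628136)) (l 16607824)) (b (l 16596136) (l 16565248))) (a (b (l 16576680) (l 16545272)) (b (l 16533952) (l 16502296))))) (b (a (c (c (l 16515432) (l 16501624)) (b (l 16554528) (l 16523352))) (c (b (l 16445040) (l 16416856)) (b (l 16512536) (l 16480816)))) (c (a (l 16536264) (l 16376872)) (a (l 16475272) (l 16432032))))), by decide +kernel⟩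

def k12_pm_001_s : ∃ t, chk3 f_pm_001_s t 3 7 1 = true :=
  ⟨(a (b (a (l 2) (b (a (l 2) (b (c (l 16548152) (l 16557576)) (l 2))) (l 2))) (l 2)) (b (a (b (a (c (b (l 16496488) (l 16467120)) (b (l 16513640) (l 16481944))) (c (l 16491808) (l 16453848))) (a (b (l 16507240) (l 2)) (c (l 16372512) (l 16390160)))) (b (a (c (l 16376496) (l 16410728)) (c (l 16325032) (l 16366400))) (a (c (l 16322464) (l 16346280)) (c (l 16274040) (l 16301024))))) (a (b (a (l 2) (b (l 16336672) (l 2))) (l 2)) (b (a (c (l 16268912) (l 16281616)) (l 16228760)) (a (l 16330240) (l 16170080)))))), by decide +kernel⟩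

theorem s13_pm_001_s : ∃ t, chk3 f_pm_001_s t 7 6 1 = true := ex3_b k10_pm_001_s k11_pm_001_s

theorem s14_pm_001_s : ∃ t, chk3 f_pm_001_s t 13 12 1 = true := ex3_b k7_pm_001_s k8_pm_001_s

theorem s15_pm_001_s : ∃ t, chk3 f_pm_001_s t 6 12 1 = true := ex3_a k6_pm_001_s s14_pm_001_s

theorem s16_pm_001_s : ∃ t, chk3 f_pm_001_s t 6 6 1 = true := ex3_b s15_pm_001_s k9_pm_001_s

theorem s17_pm_001_s : ∃ t, chk3 f_pm_001_s t 3 6 1 = true := ex3_a s16_pm_001_s s13_pm_001_s

theorem s18_pm_001_s : ∃ t, chk3 f_pm_001_s t 3 3 1 = true := ex3_b s17_pm_001_s k12_pm_001_s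

theorem s19_pm_001_s : ∃ t, chk3 f_pm_001_s t 15 5 1 = true := ex3_a k4_pm_001_s k5_pm_001_s

theorem s20_pm_001_s : ∃ t, chk3 f_pm_001_s t 7 5 1 = true := ex3_a k3_pm_001_s s19_pm_001_s

theorem s21_pm_001_s : ∃ t, chk3 f_pm_001_s t 3 5 1 = true := ex3_a k2_pm_001_s s20_pm_001_s

theorem s22_pm_001_s : ∃ t, chk3 f_pm_001_s t 3 2 1 = true := ex3_b k1_pm_001_s s21_pm_001_s

theorem s23_pm_001_s : ∃ t, chk3 f_pm_001_s t 3 1 1 = true := ex3_b s22_pm_001_s s18_pm_001_s

theorem s24_pm_001_s : ∃ t, chk3 f_pm_001_s t 1 1 1 = true := ex3_a k0_pm_001_s s23_pm_001_s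

theorem c_pm_001_s : CertNE 0 536870912 0 536870912 858993459 64424510 3 eng mog cd0q0 cd4q0 pd1 true true false .up 0 0 1
    ndB0q0 ndB4q0 pcB1 cut_pm_001_s Ext.none :=
  certNE1 (fam := true) (s1 := true) (s2 := false) (a := 0) (b := 0) (c := 1) (cn := .up) (n1 := ndB0q0) (n2 := ndB4q0) (pc := pcB1) (cut := cut_pm_001_s) (xt := Ext.none) (P1 := 0) (W1 := 536870912) (P2 := 0) (W2 := 536870912) (P3 := 858993459) (W3 := 64424510) (N0 := 3) (En := eng) (mo := mog) (C1 := cd0q0) (C2 := cd4q0) (C3 := pd1)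
    rfl (fun _ => rfl) s24_pm_001_s

noncomputable def cut_pm_011_s : Cut := Cut.of [[⟨4, 0, 0, 1449551462⟩], [⟨0, 0, 0, 67108864⟩, ⟨1, 1, 0, 67108864⟩, ⟨2, 1, 0, 67108864⟩]]

noncomputable def f_pm_011_s : ℕ → ℕ → ℕ → ℕ → Bool := onCell 0 536870912 536870912 536870912 858993459 64424510
    (rowNE 3 eng mog cd0q0 cd4q1 pd1 1 true true false .pnn 0 1 1 (qsf 0 536870912 536870912 536870912 1) ndB0q0 ndB4q1 pcB1 cut_pm_011_s Ext.none)

def k0_pm_011_s : ∃ t, chk3 f_pm_011_s t 1 2 1 = true :=
  ⟨(a (l 3) (b (l 1) (a (l 3) (l 1)))), by decide +kernel⟩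

def k1_pm_011_s : ∃ t, chk3 f_pm_011_s t 2 6 1 = true :=
  ⟨(a (l 3) (b (l 3) (a (l 3) (b (l 3) (a (b (l 3) (b (l 3) (b (l 3) (a (l 3) (a (l 3) (c (c (a (l 3) (a (l 599315700951) (b (l 620790539447) (l 16775416)))) (l 591262631047)) (c (l 597168208951) (l 598241948631)))))))) (b (a (l 3) (b (a (l 3) (b (l 3) (b (l 3) (c (l 647634089735) (l 631527936647))))) (b (a (l 3) (c (c (a (l 597705085479) (b (l 174113958583) (l 16773240))) (c (l 305110376135) (l 296520441287))) (c (l 285246149783) (l 283098665911)))) (c (c (a (a (l 672867003799) (b (l 630991083639) (l 16781592))) (l 170892694231)) (a (l 554218539383) (l 16770288))) (a (c (l 294372935799) (l 295446677063)) (l 16759656)))))) (a (a (b (l 3) (b (c (a (b (l 3) (l 567103447703)) (c (b (a (l 644949730503) (l 16776728)) (l 16774008)) (l 87140873927))) (c (a (b (l 3) (l 305647267735)) (l 16755104)) (l 306184103015))) (c (c (a (b (c (l 16775376) (l 16775432)) (l 16771312)) (l 16767864)) (l 16770888)) (c (l 16770760) (l 16770576))))) (c (c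 (b (b (a (l 3) (l 601463180679)) (a (b (l 651392177383) (c (l 111300059671) (l 16776696))) (c (l 16773104) (l 16773224)))) (b (l 16767744) (l 16759592))) (b (a (l 582135821079) (b (l 596631340791) (l 16773368))) (l 16764232))) (c (b (b (l 632601679399) (l 275582482023)) (l 16764008)) (b (b (l 628843580247) (l 16743152)) (l 16763664))))) (c (b (a (c (b (b (b (l 301352311847) (l 16781216)) (l 16770920)) (l 16764744)) (c (l 270213790215) (l 260550109895))) (c (l 16761456) (l 16758496))) (c (a (l 16763008) (l 16741312)) (c (l 16748216) (l 16748112)))) (b (c (a (l 256792008231) (l 16758272)) (a (l 16747984) (l 16757872))) (c (l 16747784) (l 16747128))))))))))), by decide +kernel⟩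

def k2_pm_011_s : ∃ t, chk3 f_pm_011_s t 8 14 1 = true :=
  ⟨(l 3), by decide +kernel⟩

def k3_pm_011_s : ∃ t, chk3 f_pm_011_s t 9 28 1 = true :=
  ⟨(l 3), by decide +kernel⟩

def k4_pm_011_s : ∃ t, chk3 f_pm_011_s t 18 29 1 = true :=
  ⟨(l 3), by decide +kernel⟩

def k5_pm_011_s : ∃ t, chk3 f_pm_011_s t 19 58 1 = true :=
  ⟨(l 3), by decide +kernel⟩

def k6_pm_011_s : ∃ t, chk3 f_pm_011_s t 19 118 1 = true :=
  ⟨(l 3), by decide +kernel⟩

def k7_pm_011_s : ∃ t, chk3 f_pm_011_s t 38 119 1 = true :=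
  ⟨(l 3), by decide +kernel⟩

def k8_pm_011_s : ∃ t, chk3 f_pm_011_s t 78 119 1 = true :=
  ⟨(a (l 3) (b (l 3) (b (l 3) (c (a (b (l 3) (b (l 3) (b (l 3) (a (l 3) (b (l 3) (a (l 3) (a (l 3) (a (l 310479160135) (l 16777512))))))))) (c (b (b (l 3) (a (l 3) (a (l 3) (c (a (b (l 3) (b (l 384030475255) (l 16777208))) (b (l 557976650327) (l 16777040))) (l 16778056))))) (c (b (b (a (l 3) (a (a (b (l 3) (l 232096006855)) (b (l 188072591991) (l 16777000))) (l 16776688))) (a (a (l 3) (a (l 538649297431) (b (l 270213841703) (l 16777088)))) (l 16776480))) (a (a (a (c (b (l 604684419767) (l 16777504)) (l 190756947527)) (b (b (l 357186929607) (l 16777176)) (l 16776800))) (c (l 16776936) (l 16776608))) (l 16775728))) (b (a (l 510195139815) (l 16776720)) (l 16777616)))) (b (l 545628621351) (a (l 167134629015) (l 16776224))))) (c (c (c (l 496236495943) (l 509658267911)) (l 524153781303)) (c (l 560661001687) (l 597705092983))))))), by decide +kernel⟩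

def k9_pm_011_s : ∃ t, chk3 f_pm_011_s t 158 119 1 = true :=
  ⟨(b (l 3) (c (b (b (a (l 3) (c (b (b (l 3) (a (l 3) (a (l 3) (a (l 3) (b (l 387251700759) (l 16777192)))))) (a (a (l 3) (a (l 3) (b (l 3) (l 525764395543)))) (c (a (c (b (c (l 510195139191) (l 329269642823)) (a (a (l 199346881287) (l 16777128)) (l 16776912))) (l 172503336695)) (c (c (l 16777048) (l 16776720)) (l 16776720))) (l 16777008)))) (l 472614175575))) (c (b (a (l 3) (a (a (c (b (l 602536936391) (a (b (l 3) (l 16777584)) (l 16777416))) (l 16778112)) (b (a (b (l 345912640519) (l 16777168)) (l 16777000)) (l 16776648))) (c (l 16776016) (l 16776016)))) (a (a (l 3) (b (c (a (l 3) (a (l 513953235431) (a (l 172503335719) (l 16777104)))) (l 269140101607)) (a (a (l 571935294087) (b (l 320679707607) (l 16777144))) (l 16776832)))) (c (c (l 16775768) (l 16775600)) (l 16775600)))) (a (l 515026978359) (l 16776088)))) (b (a (c (a (a (b (a (l 3) (b (l 3) (b (l 3) (l 249812747095)))) (b (a (b (l 293299291047) (l 16777120)) (l 16776952))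 (l 16776600))) (b (a (b (l 3) (b (l 205789332231) (l 16777032))) (b (b (l 403894699063) (l 161765917367)) (l 16776864))) (l 16776256))) (b (a (b (c (l 16777248) (l 16776920)) (l 16776416)) (l 16776080)) (l 16775368))) (l 16779232)) (c (c (l 16774760) (l 16774096)) (l 16774088))) (c (a (a (b (l 16775552) (l 16774544)) (l 16773864)) (l 16772088)) (l 16773264)))) (b (a (c (c (l 650318446375) (l 703468664695)) (l 727090981911)) (c (c (b (l 237464721687) (l 16776088)) (l 16777048)) (l 61907935047))) (c (c (l 16774256) (l 16774240)) (l 16774224))))), by decide +kernel⟩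

def k10_pm_011_s : ∃ t, chk3 f_pm_011_s t 159 119 1 = true :=
  ⟨(b (c (b (a (l 3) (c (b (l 3) (a (l 3) (a (l 3) (b (l 3) (b (l 3) (l 602000065447)))))) (l 748565824311))) (b (a (l 3) (b (a (l 3) (c (c (a (a (c (l 548849845143) (l 355039447223)) (b (l 3) (l 16777496))) (a (b (l 261087036503) (l 16776880)) (l 16776832))) (l 16778552)) (l 16777216))) (c (a (c (a (c (b (l 3) (l 481740980759)) (l 521469428711)) (b (a (l 570861552263) (a (l 242296554439) (l 16777192))) (l 16776912))) (l 194515045175)) (c (l 16776280) (l 16776272))) (l 16776856)))) (a (a (c (c (b (l 3) (b (l 3) (a (l 3) (a (a (l 371145573591) (l 258939552743)) (l 16777464))))) (l 526301267943)) (l 326585292615)) (c (b (c (c (a (b (l 3) (l 589115163495)) (b (l 528448750279) (a (l 163376530279) (l 16776952)))) (l 443623146247)) (l 251423362039)) (a (b (a (b (l 389936055351) (l 16777208)) (l 16777048)) (l 16776696)) (l 16776352))) (l 16777128))) (c (c (a (a (b (b (l 16777584) (l 16776512)) (l 16775760)) (l 16775664)) (l 16774776))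 (l 16775368)) (l 16775360))))) (a (c (c (l 666424571495) (l 711521725255)) (l 713132333767)) (b (c (l 828559585239) (l 817285291191)) (c (c (l 16776336) (l 16776328)) (l 16776312))))) (c (c (b (c (a (b (b (a (a (b (a (l 547776102967) (a (l 210621170567) (l 16777152))) (l 16776880)) (l 16776536)) (l 16775648)) (l 16775240)) (l 16773736)) (c (l 16773024) (l 16772368))) (a (b (l 16775736) (l 16773736)) (l 16772360))) (c (c (l 16770856) (l 16769544)) (l 16769536))) (b (c (l 16773544) (l 16773528)) (l 16769512))) (c (c (l 16771496) (l 16771480)) (l 16771448)))), by decide +kernel⟩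

def k11_pm_011_s : ∃ t, chk3 f_pm_011_s t 16 30 1 = true :=
  ⟨(l 3), by decide +kernel⟩

def k12_pm_011_s : ∃ t, chk3 f_pm_011_s t 17 60 1 = true :=
  ⟨(l 3), by decide +kernel⟩

def k13_pm_011_s : ∃ t, chk3 f_pm_011_s t 34 61 1 = true :=
  ⟨(l 3), by decide +kernel⟩

def k14_pm_011_s : ∃ t, chk3 f_pm_011_s t 35 122 1 = true :=
  ⟨(l 3), by decide +kernel⟩

def k15_pm_011_s : ∃ t, chk3 f_pm_011_s t 35 246 1 = true :=
  ⟨(l 3), by decide +kernel⟩

def k16_pm_011_s : ∃ t, chk3 f_pm_011_s t 70 247 1 = true :=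
  ⟨(l 3), by decide +kernel⟩

def k17_pm_011_s : ∃ t, chk3 f_pm_011_s t 71 494 1 = true :=
  ⟨(l 3), by decide +kernel⟩

def k18_pm_011_s : ∃ t, chk3 f_pm_011_s t 142 495 1 = true :=
  ⟨(l 3), by decide +kernel⟩

def k19_pm_011_s : ∃ t, chk3 f_pm_011_s t 286 495 1 = true :=
  ⟨(a (l 3) (b (l 3) (b (l 3) (c (b (c (a (l 3) (b (c (a (l 3) (a (l 3) (b (l 3) (a (l 3) (l 201494364455))))) (l 576767132263)) (c (b (a (l 3) (a (a (l 3) (l 230485393735)) (l 16777152))) (a (a (l 3) (a (l 3) (l 266455744855))) (l 16777208))) (l 200420623287)))) (l 513953235799)) (a (a (l 3) (c (c (a (b (l 3) (a (b (l 3) (l 199883751719)) (b (l 381882990967) (l 16777176)))) (b (c (l 588041421127) (l 379198636759)) (a (b (l 164987142423) (l 16777104)) (l 16777096)))) (l 227264168951)) (l 16777312))) (c (c (c (a (b (a (b (a (l 3) (l 310479159623)) (l 16777344)) (l 16777232)) (l 16776912)) (l 16776752)) (l 16777224)) (l 16776896)) (l 16776904)))) (c (c (l 173577079559) (l 16777392)) (l 170892725239)))))), by decide +kernel⟩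

def k20_pm_011_s : ∃ t, chk3 f_pm_011_s t 287 990 1 = true :=
  ⟨(a (l 3) (b (b (l 3) (a (l 3) (b (l 3) (b (l 3) (a (l 3) (b (l 3) (c (c (l 621327417655) (l 16777368)) (l 408189666071)))))))) (c (a (b (l 3) (c (c (b (a (l 3) (b (a (l 3) (a (l 377051152759) (l 160155304215))) (a (a (l 399062860167) (l 196662526247)) (l 16777136)))) (a (b (a (l 3) (a (l 3) (l 226190426439))) (a (a (l 3) (l 263234519383)) (l 16777160))) (c (l 16777008) (l 16777008)))) (a (l 290078065831) (l 16777136))) (l 16777264))) (c (a (b (b (l 3) (a (b (l 3) (a (l 337322705287) (l 159081562359))) (b (a (l 313163514215) (l 16777288)) (l 16777112)))) (c (c (l 16776848) (l 16776848)) (l 16776848))) (b (b (b (a (l 3) (a (l 238001586503) (l 16777184))) (a (a (l 275582550359) (l 16777192)) (l 16777088))) (l 16777040)) (l 16776560))) (l 16777616))) (c (c (l 16778528) (l 16777216)) (l 16777216))))), by decide +kernel⟩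

def k21_pm_011_s : ∃ t, chk3 f_pm_011_s t 287 991 1 = true :=
  ⟨(c (c (c (a (b (b (a (l 3) (c (b (a (l 3) (a (l 586967679303) (b (a (l 3) (l 307794805063)) (l 16777344)))) (a (b (l 605221290343) (a (l 3) (a (l 192367558951) (l 16777176)))) (a (b (l 39896219863) (l 16777064)) (l 16776984)))) (a (l 522006299095) (b (l 230485394167) (l 16777056))))) (b (b (a (l 3) (a (b (a (l 221895459127) (l 16777112)) (l 16777112)) (l 16776856))) (a (a (l 3) (a (l 3) (a (l 265918873943) (l 16777200)))) (l 16776872))) (a (b (a (l 3) (a (a (l 324437803335) (l 16777208)) (l 16777104))) (a (a (l 3) (a (l 361481896279) (l 16777304))) (l 16777040))) (l 16776672)))) (b (a (a (b (a (b (a (l 382956732791) (l 165524013335)) (l 16777136)) (l 16777056)) (l 16776864)) (l 16776704)) (l 16776264)) (c (l 16776024) (l 16776024)))) (b (c (a (b (c (a (b (l 16777152) (l 16776768)) (l 16776608)) (l 16776752)) (l 16776216)) (l 16775896)) (l 16776192)) (l 16775120))) (a (b (a (a (l 585357067239) (b (l 3) (l 16777552))) (b (a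 (l 320142836999) (l 16777184)) (l 16776800))) (l 16776296)) (b (l 16776200) (l 16775128)))) (b (a (a (b (l 3) (l 16778008)) (c (l 16777712) (l 16777056))) (l 16776200)) (l 16775720))) (a (c (c (c (l 16778112) (l 16778440)) (l 16776808)) (b (l 16778616) (l 16776320))) (c (l 16775688) (l 16775704)))), by decide +kernel⟩

def k22_pm_011_s : ∃ t, chk3 f_pm_011_s t 16 31 1 = true :=
  ⟨(b (b (l 3) (l 14)) (l 14)), by decide +kernel⟩

def k23_pm_011_s : ∃ t, chk3 f_pm_011_s t 34 248 1 = true :=
  ⟨(l 3), by decide +kernel⟩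

def k24_pm_011_s : ∃ t, chk3 f_pm_011_s t 68 249 1 = true :=
  ⟨(l 3), by decide +kernel⟩

def k25_pm_011_s : ∃ t, chk3 f_pm_011_s t 138 249 1 = true :=
  ⟨(l 3), by decide +kernel⟩

def k26_pm_011_s : ∃ t, chk3 f_pm_011_s t 278 249 1 = true :=
  ⟨(l 3), by decide +kernel⟩

def k27_pm_011_s : ∃ t, chk3 f_pm_011_s t 279 498 1 = true :=
  ⟨(l 3), by decide +kernel⟩

def k28_pm_011_s : ∃ t, chk3 f_pm_011_s t 279 998 1 = true :=
  ⟨(l 3), by decide +kernel⟩

def k29_pm_011_s : ∃ t, chk3 f_pm_011_s t 279 1998 1 = true :=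
  ⟨(a (l 3) (c (c (a (a (l 3) (b (l 3) (b (l 3) (b (a (l 3) (a (l 3) (b (l 3) (l 291688677607)))) (a (a (l 3) (b (l 3) (l 328195899639))) (b (a (l 299741741303) (l 16777184)) (l 16777152))))))) (a (b (l 3) (a (a (b (l 3) (b (b (l 263234519271) (l 16777184)) (l 16777080))) (c (b (a (l 614348095751) (b (l 3) (l 298667999479))) (l 16777072)) (l 16777528))) (b (a (b (l 3) (b (l 226190426327) (l 16777176))) (b (b (l 3) (l 217600491719)) (l 16777136))) (l 16776968)))) (b (b (l 3) (a (a (l 3) (b (l 3) (b (l 3) (l 16777304)))) (b (a (l 3) (b (l 392620409127) (l 16777296))) (c (c (l 16777232) (l 16777152)) (l 16777152))))) (b (a (a (b (b (l 188609462471) (l 16777160)) (l 16777064)) (l 16777056)) (l 16776952)) (l 16776752))))) (b (b (l 3) (l 548849845079)) (a (l 544554877591) (l 16777024)))) (c (c (a (l 362018769591) (l 143512307559)) (l 210621172535)) (a (l 371682446135) (l 16778240))))), by decide +kernel⟩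

def k30_pm_011_s : ∃ t, chk3 f_pm_011_s t 279 1999 1 = true :=
  ⟨(a (a (a (l 3) (b (l 3) (a (l 3) (b (l 3) (b (l 3) (c (c (a (b (l 3) (l 324974674183)) (b (l 313163514103) (l 16777192))) (l 16777256)) (l 212768653799))))))) (c (c (a (b (l 3) (c (b (a (l 3) (b (l 3) (a (a (l 411947761975) (l 311552901367)) (b (l 222432329943) (l 16777176))))) (a (b (a (a (l 3) (l 340543930631)) (b (l 297594257607) (l 16777184))) (l 16777120)) (l 16777040))) (b (l 295446774631) (l 16777112)))) (b (a (l 3) (b (l 3) (b (l 3) (b (a (l 3) (l 16777304)) (c (l 16777312) (l 16777192)))))) (b (c (a (b (a (a (l 393694150951) (l 282025001191)) (a (l 117205631191) (l 16777184))) (l 16777104)) (l 16777024)) (l 16777096)) (l 16776824)))) (b (l 563882230487) (l 16777752))) (c (c (l 169282110807) (l 16777328)) (l 173040208007)))) (c (c (a (a (b (a (a (b (l 3) (b (b (l 3) (l 16777296)) (l 16777120))) (c (b (c (l 620253675815) (l 421611438663)) (c (l 16777192) (l 16777112))) (l 141364822791))) (b (a (b (l 3) (b (l 377588023575)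 (l 16777208))) (b (b (l 3) (l 364703121671)) (l 16777256))) (l 16777008))) (c (l 16776672) (l 16776672))) (b (b (b (a (a (b (l 338396446983) (l 16777200)) (l 16777160)) (l 16777056)) (l 16776992)) (l 16776784)) (l 16776464))) (c (c (b (l 16776488) (l 16775936)) (l 16776216)) (l 16776216))) (c (a (l 16777448) (l 16776224)) (l 16776512))) (c (c (l 16776520) (l 16776520)) (l 16776528)))), by decide +kernel⟩

def k31_pm_011_s : ∃ t, chk3 f_pm_011_s t 68 250 1 = true :=
  ⟨(b (l 3) (l 14)), by decide +kernel⟩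

def k32_pm_011_s : ∃ t, chk3 f_pm_011_s t 138 1000 2 = true :=
  ⟨(l 3), by decide +kernel⟩

def k33_pm_011_s : ∃ t, chk3 f_pm_011_s t 276 1001 2 = true :=
  ⟨(l 3), by decide +kernel⟩

def k34_pm_011_s : ∃ t, chk3 f_pm_011_s t 277 2002 2 = true :=
  ⟨(a (l 3) (a (l 3) (b (l 3) (a (b (l 3) (c (b (a (l 3) (a (l 3) (b (l 3) (l 295983644903)))) (a (a (l 3) (b (l 3) (l 327659028727))) (a (b (l 301352354039) (l 16777192)) (l 16777152)))) (l 16777304))) (c (b (b (a (l 3) (a (l 3) (b (l 3) (l 230485393607)))) (b (a (l 3) (a (l 236390973655) (l 16777168))) (a (a (l 3) (l 263234519255)) (l 16777136)))) (a (b (a (b (l 269140099303) (l 16777184)) (l 16777144)) (l 16777048)) (l 16776968))) (l 16777168)))))), by decide +kernel⟩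

def k35_pm_011_s : ∃ t, chk3 f_pm_011_s t 277 2003 2 = true :=
  ⟨(a (a (l 3) (b (l 3) (c (c (b (b (l 3) (a (l 3) (a (l 3) (a (b (l 3) (l 224579813591)) (b (l 201494364375) (l 16777168)))))) (a (c (b (l 3) (a (l 3) (a (b (l 3) (l 389936054439)) (b (l 387251699863) (l 16777192))))) (l 528985620791)) (b (a (a (b (l 3) (l 258939551975)) (b (l 291688677559) (l 16777176))) (l 16777104)) (l 16777120)))) (a (l 562808488471) (b (l 292225549143) (l 16777104)))) (a (l 345375770087) (l 16777720))))) (c (a (b (a (b (l 3) (a (l 3) (b (l 3) (a (b (l 3) (l 180019527863)) (b (l 153712853175) (l 16777152)))))) (b (a (a (l 3) (b (l 3) (b (l 3) (l 394231021847)))) (a (b (l 3) (b (l 371682443543) (l 16777288))) (b (b (l 3) (l 359334412551)) (c (l 16777168) (l 16777168))))) (a (b (b (a (l 3) (l 16777296)) (c (l 16777280) (l 16777184))) (l 16777080)) (l 16777024)))) (c (a (b (b (a (a (b (l 3) (l 190220075207)) (b (l 167134625991) (l 16777160))) (l 16777088)) (l 16777024)) (l 16776816)) (l 16776744)) (l 16776808)))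 (c (b (a (b (b (b (a (a (l 376514281687) (l 16777192)) (l 16777088)) (l 16777176)) (l 16776992)) (l 16776784)) (l 16776632)) (l 16776224)) (l 16776672))) (b (a (a (l 320142837175) (l 16777856)) (l 16776784)) (l 16776528)))), by decide +kernel⟩

def k36_pm_011_s : ∃ t, chk3 f_pm_011_s t 139 2000 2 = true :=
  ⟨(a (a (l 3) (a (a (l 3) (a (l 3) (a (l 3) (a (l 3) (b (l 3) (b (l 3) (b (l 3) (b (l 3) (l 297057386727))))))))) (b (b (l 3) (b (l 3) (b (l 3) (a (l 3) (a (l 3) (a (l 3) (c (l 185388236999) (l 16777224)))))))) (c (c (b (b (a (l 3) (a (a (l 3) (b (l 3) (l 204178718935))) (a (b (l 191293817031) (l 16777168)) (l 16777128)))) (b (a (l 3) (a (a (l 228337909975) (l 16777176)) (l 16777064))) (a (a (l 3) (a (l 3) (l 298131128503))) (l 16777064)))) (a (b (a (a (l 3) (a (l 3) (l 344838897927))) (b (a (l 303499837639) (l 16777184)) (l 16777152))) (a (b (a (l 337859576023) (l 16777192)) (l 16777160)) (l 16777048))) (l 16776896))) (b (a (l 401210344327) (l 16777160)) (l 16777040))) (c (l 16777816)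 (l 16777160)))))) (a (c (c (b (a (b (c (b (a (l 3) (a (c (a (l 413558374727) (a (l 261623906535) (l 16777296))) (l 259476422999)) (l 16777128))) (a (b (l 624011772199) (a (l 3) (a (l 492478398663) (l 16777208)))) (l 16777144))) (a (l 550460457319) (l 16777376))) (a (a (b (b (l 3) (a (l 3) (l 16777216))) (b (l 16777312) (l 16777120))) (c (c (l 16777184) (l 16777080)) (l 16777080))) (l 16776864))) (c (l 16776640) (l 16776560))) (a (b (l 16776776) (l 16776464)) (l 16776016))) (b (b (a (a (l 334101480359) (l 16777128)) (l 16776696)) (l 16777040)) (l 16776312))) (a (b (l 6073353415) (l 16776608)) (l 16776304))) (c (c (c (l 16775576) (l 16775416)) (l 16775424)) (l 16775440)))), by decide +kernel⟩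

def k37_pm_011_s : ∃ t, chk3 f_pm_011_s t 139 2001 2 = true :=
  ⟨(a (a (a (l 3) (b (l 3) (a (c (b (l 3) (a (b (l 3) (a (b (l 3) (l 324437803271)) (b (l 313700385015) (l 16777192)))) (a (b (b (l 3) (l 288467452151)) (l 16777152)) (b (b (l 280414388455) (l 16777184)) (l 16777080))))) (l 253033972983)) (c (c (b (a (b (l 3) (a (b (l 3) (l 295983644855)) (b (l 227264168151) (l 16777176)))) (b (a (b (l 3) (l 203641848023)) (b (l 190756946119) (l 16777168))) (l 16777104))) (c (l 16776968) (l 16776968))) (c (l 16777512) (l 16777096))) (l 16777096))))) (c (c (a (b (b (a (b (l 3) (b (l 3) (b (l 3) (l 624011772183)))) (a (a (b (l 3) (b (l 405505310967) (l 16777208))) (b (a (l 3) (l 400673472807)) (l 16777176))) (b (a (b (l 372219314407) (l 16777200)) (l 16777168)) (l 16777064)))) (a (a (b (l 3) (a (b (l 3) (l 167134625991)) (c (l 16777272) (l 16777192)))) (b (a (b (l 3) (l 16777304)) (l 16777264)) (l 16777080))) (l 16776936))) (a (b (l 16776952) (l 16776680)) (l 16776520))) (c (b (c (l 16776712)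 (l 16776632)) (l 16776088)) (l 16776360))) (a (b (a (b (l 430201373639) (l 16777536)) (l 16777392)) (l 16776672)) (l 16776368))) (a (a (b (l 229411652791) (l 16776824)) (l 16776800)) (l 16776376)))) (c (a (b (a (l 16776200) (l 16775472)) (l 16775384)) (l 16774656)) (l 16774936))), by decide +kernel⟩

def k38_pm_011_s : ∃ t, chk3 f_pm_011_s t 139 1001 2 = true :=
  ⟨(a (c (a (b (b (a (a (b (l 3) (b (b (l 3) (a (l 3) (a (l 3) (l 164450271399)))) (a (a (l 3) (b (l 3) (l 197199397047))) (a (b (l 170355851447) (l 16777160)) (l 16777120))))) (c (b (a (b (l 3) (a (a (l 3) (l 411947761975)) (b (l 423758921959) (l 16777208)))) (b (a (a (l 3) (l 395841634599)) (b (l 366850605287) (l 16777200))) (l 16777216))) (a (a (b (l 16777264) (l 16777048)) (l 16777040)) (l 16776936))) (b (l 195051913879) (l 16777008)))) (c (c (c (a (b (l 16777072) (l 16776712)) (l 16776560)) (l 16776704)) (l 16776704)) (l 16776704))) (c (a (a (b (a (a (b (b (l 182703882439) (l 16777168)) (l 16777064)) (l 16777056)) (l 16776952))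 (l 16776752)) (l 16776592)) (l 16776160)) (l 16776456))) (c (c (a (l 16776080) (l 16775336)) (l 16775632)) (l 16775640))) (c (b (c (a (l 16775848) (l 16775264)) (l 16775560)) (l 16774456)) (b (l 16775568) (l 16774480)))) (b (b (a (a (a (l 275582551351) (l 16777136)) (l 16776712)) (l 16775856)) (l 16776216)) (l 16775080))) (c (c (c (a (l 16773832) (l 16772664)) (l 16773264)) (l 16773280)) (l 16773648))), by decide +kernel⟩

def k39_pm_011_s : ∃ t, chk3 f_pm_011_s t 69 501 2 = true :=
  ⟨(a (a (b (b (b (l 3) (l 14)) (l 14)) (l 14)) (b (b (a (a (c (a (a (b (l 3) (l 14)) (a (b (l 3) (l 14)) (b (b (l 3) (b (l 3) (b (l 3) (l 154249724087)))) (b (l 16777056) (l 14))))) (b (a (b (l 3) (b (a (l 3) (b (l 394767892759) (l 16777296))) (a (b (l 149417885863) (l 16777152)) (l 16777112)))) (a (b (b (l 3) (b (l 3) (l 373829927191))) (b (b (l 16777288) (l 16777144)) (l 16777040))) (b (b (l 3) (b (l 362555638023) (l 16777288))) (l 16777032)))) (c (c (l 16776736) (l 16776736)) (l 16776736)))) (b (a (l 368998090279)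 (l 176798303271)) (l 16776880))) (c (b (c (b (a (b (a (a (b (l 3) (l 380809248983)) (b (l 353428832471) (l 16777200))) (l 16777120)) (a (l 16777216) (l 16776984))) (l 16776832)) (c (l 16776704) (l 16776712))) (l 16777176)) (c (l 16776296) (l 16776304))) (l 16776576))) (c (c (c (a (l 16776152) (l 16775400)) (l 16775696)) (l 16775704)) (l 16775720))) (c (c (a (a (a (l 14) (l 16776072)) (l 16775472)) (l 16774600)) (a (l 16775776) (l 16774616))) (c (l 16775208) (l 16775224)))) (b (c (c (a (l 16774664) (l 16773496)) (l 16774104)) (l 16774136)) (a (l 14) (l 16772936))))) (c (b (a (c (c (a (l 16774304) (l 16772800)) (l 16774056)) (l 16773744)) (c (l 16771056) (l 16771096))) (c (a (l 16771184) (l 16768840)) (l 16770720))) (b (a (c (l 16773448) (l 16773480)) (l 16771168)) (c (l 16770120) (l 16770184))))), by decide +kernel⟩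

def k40_pm_011_s : ∃ t, chk3 f_pm_011_s t 69 250 3 = true :=
  ⟨(a (a (b (l 3) (b (b (b (l 3) (l 14)) (l 14)) (l 14))) (b (b (l 3) (a (a (l 3) (b (l 3) (b (l 3) (c (a (l 343228286439) (l 141364823031)) (l 16777344))))) (c (b (c (c (l 523616912439) (l 519858816055)) (l 514490106935)) (c (a (l 16778048) (l 16776520)) (l 16776792))) (c (b (l 520932557863) (l 16776800)) (b (l 527375008791) (l 16776800)))))) (c (b (b (a (c (c (l 16776848) (l 16777512)) (l 16776856)) (l 16775744)) (c (l 16775240) (l 16775256))) (c (l 16773640) (l 16773672))) (b (a (b (b (l 16778096) (l 16776616)) (l 16775840)) (l 16775256)) (l 16773728))))) (a (b (b (b (a (l 3) (c (a (c (l 657297769783) (l 656224027959)) (c (c (l 203641849799) (l 197199398855)) (l 16777392))) (a (l 663203349799) (l 198810011911)))) (a (a (l 3) (b (l 3) (c (a (l 245517780215) (l 16777104)) (l 16777224)))) (c (c (l 16777312) (l 16776664)) (l 16776664)))) (c (c (a (c (l 16776192) (l 16776856)) (l 16775072)) (l 16776384)) (a (b (l 16777392) (l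 16775704)) (l 16775120)))) (c (c (b (l 16773504) (l 16771376)) (l 16772488)) (b (l 16773592) (l 16771520)))) (b (c (b (c (c (l 16775488) (l 16775496)) (l 16775504)) (c (l 16773368) (l 16773400))) (b (c (l 16775520) (l 16775536)) (l 16773456))) (c (c (l 16770176) (l 16770248)) (l 16770352))))), by decide +kernel⟩

def k41_pm_011_s : ∃ t, chk3 f_pm_011_s t 34 251 1 = true :=
  ⟨(a (l 14) (a (a (l 14) (b (b (a (l 14) (b (c (l 16771352) (l 16771560)) (l 14))) (l 14)) (l 14))) (c (c (b (c (b (l 16767792) (l 16765560)) (l 16768072)) (c (l 16762192) (l 16762328))) (b (c (l 16766856) (l 16766952)) (c (l 16762472) (l 16762624)))) (c (b (c (l 16767048) (l 16767160)) (l 16762872)) (b (b (l 16768360) (l 16766304)) (l 16763232)))))), by decide +kernel⟩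

def k42_pm_011_s : ∃ t, chk3 f_pm_011_s t 70 496 1 = true :=
  ⟨(l 3), by decide +kernel⟩

def k43_pm_011_s : ∃ t, chk3 f_pm_011_s t 140 497 1 = true :=
  ⟨(l 3), by decide +kernel⟩

def k44_pm_011_s : ∃ t, chk3 f_pm_011_s t 282 497 1 = true :=
  ⟨(a (l 3) (a (l 3) (b (l 3) (b (l 3) (b (l 3) (c (c (c (b (l 3) (a (l 3) (a (a (l 3) (l 619716804903)) (a (b (l 3) (a (l 306721063159) (l 16777304))) (b (l 389936054631) (l 16777168)))))) (l 552607941303)) (l 339470190503)) (c (l 343228286839) (l 16777552)))))))), by decide +kernel⟩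

def k45_pm_011_s : ∃ t, chk3 f_pm_011_s t 283 994 1 = true :=
  ⟨(b (l 3) (b (l 3) (a (l 3) (a (l 3) (c (c (a (c (c (b (l 3) (b (l 3) (b (l 3) (l 576230260999)))) (l 605221290647)) (l 605221290647)) (b (b (l 3) (b (l 3) (a (l 3) (a (l 3) (l 16777232))))) (c (a (b (a (l 3) (a (l 403894698295) (l 263771390231))) (a (l 115058147575) (l 16777144))) (b (l 9294577815) (l 16777032))) (l 16777168)))) (l 240149071575)) (c (l 235317233351) (l 16777400))))))), by decide +kernel⟩

def k46_pm_011_s : ∃ t, chk3 f_pm_011_s t 283 1990 2 = true :=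
  ⟨(a (b (l 3) (a (l 3) (c (b (l 3) (a (l 3) (c (b (a (l 3) (a (l 348596994391) (l 127943049463))) (a (a (l 379198636391) (a (l 225653555463) (l 16777208))) (l 16777120))) (l 16777248)))) (l 289004324679)))) (c (a (b (a (l 3) (a (b (l 3) (b (l 3) (a (b (l 3) (l 16777224)) (l 16777272)))) (c (b (c (l 615958708567) (l 406042182343)) (a (b (a (l 315310997767) (l 16777312)) (l 16777112)) (l 16777112))) (l 181093270343)))) (c (b (a (b (a (l 3) (a (c (l 272898195767) (l 16777264)) (l 16777280))) (a (a (c (l 305110450503) (l 16777272)) (l 16777328)) (l 16777104))) (l 16776952)) (c (l 16776824) (l 16776824))) (l 16777280))) (c (b (a (b (c (a (a (c (b (l 3) (l 183240753399)) (l 272361325031)) (b (l 356113187175) (l 16777168))) (a (b (l 137606725895) (l 16777096)) (l 16777088))) (l 16777480)) (l 16776928)) (l 16776768)) (l 16776376)) (l 16777056))) (a (b (l 263771391767) (l 16776960)) (l 16776648)))), by decide +kernel⟩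

def k47_pm_011_s : ∃ t, chk3 f_pm_011_s t 283 1991 2 = true :=
  ⟨(a (b (c (a (a (l 3) (b (l 3) (b (b (l 3) (a (l 3) (a (l 3) (l 16777224)))) (a (a (l 3) (b (l 3) (l 16777320))) (c (l 16777288) (l 16777160)))))) (c (b (b (a (a (l 3) (a (l 403357827447) (a (l 263771390231) (l 16777304)))) (l 16777056)) (a (a (a (l 3) (a (l 331953996039) (l 171429593335))) (l 16777144)) (l 16776928))) (c (c (a (l 16777136) (l 16776720)) (l 16776864)) (l 16776872))) (l 16777488))) (a (l 312089773959) (l 16777000))) (c (c (a (a (a (b (a (l 3) (c (l 581598970119) (l 375440540231))) (a (b (a (l 270213841127) (l 16777216)) (l 16777096)) (l 16777096))) (b (c (a (b (l 3) (l 154786595031)) (b (l 315310997831) (l 16777152))) (l 16777408)) (l 16776984))) (a (a (b (b (l 99488891127) (l 16777080)) (l 16776872)) (l 16777016)) (l 16776824))) (l 16776544)) (a (a (l 32380027719) (l 16776904)) (l 16776464))) (l 16776752))) (c (c (a (b (l 16776416) (l 16775880)) (l 16775568)) (l 16775864)) (l 16775872))), by decide +kernel⟩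

def k48_pm_011_s : ∃ t, chk3 f_pm_011_s t 283 995 3 = true :=
  ⟨(b (c (c (a (l 574082778567) (l 16778232)) (a (l 359871286791) (l 16776928))) (a (a (l 3) (l 328732773239)) (l 16776928))) (c (c (c (l 16776440) (l 16777752)) (l 16776448)) (a (l 16778320) (l 16775904)))), by decide +kernel⟩

def k49_pm_011_s : ∃ t, chk3 f_pm_011_s t 284 496 4 = true :=
  ⟨(b (l 3) (a (l 3) (b (l 3) (b (l 3) (a (l 3) (b (a (l 3) (c (a (a (l 599315710231) (b (l 3) (l 160155304215))) (b (a (l 357186928983) (l 127406178567)) (l 16777120))) (l 16777248))) (c (b (a (a (l 3) (a (l 399062860167) (a (l 310479159543) (l 16777224)))) (l 16777064)) (a (a (a (l 3) (a (l 350744477959) (l 186461978871))) (l 16777144)) (l 16776928))) (l 16777136)))))))), by decide +kernel⟩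

def k50_pm_011_s : ∃ t, chk3 f_pm_011_s t 570 496 4 = true :=
  ⟨(b (l 3) (b (b (a (l 3) (c (a (l 3) (a (l 3) (a (l 3) (b (l 3) (b (l 3) (l 247665262919)))))) (l 597168227175))) (c (b (a (l 3) (a (c (b (l 3) (b (l 3) (l 571398422791))) (l 590188904887)) (a (b (a (l 3) (l 306721063223)) (l 16777336)) (c (l 16777224) (l 16777096))))) (b (a (l 3) (a (a (a (l 3) (l 359334412647)) (a (l 141364822279) (l 16777152))) (l 16776968))) (b (a (l 3) (a (a (l 162302787863) (l 16777088)) (l 16776872))) (a (a (l 3) (l 616495579431)) (l 16777048))))) (a (l 627232998327) (a (l 221358588903) (l 16777032))))) (b (b (a (a (l 3) (c (c (a (b (l 3) (a (l 257328939287) (l 16777184))) (a (b (l 222432329991) (l 16777112)) (l 16777112))) (l 123111211575)) (l 16777208))) (c (l 16776784) (l 16776784))) (a (a (c (b (a (l 3) (a (a (l 395841634599) (l 280951259367)) (l 16777200))) (a (a (l 323900932423) (l 16777288)) (l 16777104))) (l 16777232)) (l 16776992)) (l 16776512))) (c (c (a (c (l 16776776) (l 16776688)) (l 16776104))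 (l 16776400)) (l 16776400))))), by decide +kernel⟩

def k51_pm_011_s : ∃ t, chk3 f_pm_011_s t 571 496 4 = true :=
  ⟨(b (b (l 3) (a (b (l 3) (b (l 3) (b (l 3) (c (a (l 3) (a (l 3) (a (l 320142836087) (l 16777336)))) (l 327659029655))))) (c (a (b (l 3) (b (a (l 3) (b (l 3) (b (l 243370295623) (l 16777192)))) (b (a (a (l 285246226791) (l 16777200)) (l 16777096)) (l 16777032)))) (b (c (b (l 3) (a (l 617032450407) (a (b (l 3) (l 198273138951)) (b (l 373293056359) (l 16777168))))) (l 523080040903)) (b (b (b (a (l 209547428151) (l 16777104)) (l 16777112)) (l 16777008)) (l 16776808)))) (b (l 548849844935) (c (l 16777656) (l 16777080)))))) (a (b (c (b (b (a (b (l 3) (a (l 3) (a (l 401747214711) (l 180019527975)))) (a (b (a (l 373293056359) (l 153175982343)) (l 16777128)) (l 16777056))) (a (b (a (a (l 3) (l 213842395447)) (l 16777144)) (l 16777208)) (l 16776856))) (c (l 16776600) (l 16776600))) (a (b (l 170892723175) (l 16776744)) (l 16776720))) (c (l 16775952) (l 16775800))) (b (b (c (l 16776632)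 (l 16776552)) (l 16776016)) (l 16775376)))), by decide +kernel⟩

def k52_pm_011_s : ∃ t, chk3 f_pm_011_s t 142 994 4 = true :=
  ⟨(a (b (a (b (l 3) (a (l 3) (b (a (l 3) (a (l 3) (c (a (b (l 3) (a (l 323900932359) (l 16777312))) (b (l 399062860151) (l 16777176))) (l 16777272)))) (b (a (l 3) (a (a (a (l 339470188871) (l 203641848103)) (l 16777352)) (l 16777080))) (a (a (l 3) (a (a (l 378661765463) (l 242296553783)) (l 28621930711))) (l 16777016)))))) (a (b (a (b (l 3) (c (a (a (l 3) (l 595557613831)) (b (b (l 3) (l 342154543447)) (a (l 149954756871) (l 16777152)))) (l 16777312))) (c (b (a (a (l 3) (b (l 3) (a (l 404968440119) (l 297594257655)))) (b (a (l 3) (a (l 372219314471) (l 226190426375))) (l 16777288))) (a (a (b (l 117742502135) (l 16777080)) (l 16777080)) (l 16776968))) (l 16777496))) (c (a (a (c (a (b (b (l 197736268023) (l 16777104)) (l 16776904)) (l 16776968)) (l 16777000)) (l 16776856)) (l 16776640)) (l 16776784))) (c (c (b (c (a (b (l 16777096) (l 16776752)) (l 16776592)) (l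 16776736)) (l 16776200)) (l 16776472)) (l 16776472)))) (b (a (c (b (b (a (l 3) (a (a (a (l 328195899719) (l 16777336)) (l 16777104)) (l 16776880))) (a (a (l 3) (a (l 3) (a (l 360408154455) (l 130090533127)))) (l 16776976))) (a (a (b (l 3) (a (l 3) (a (l 399599731079) (a (l 311552901367) (l 16777304))))) (a (b (a (l 378661765495) (a (l 272898195687) (l 16777216))) (l 16777136)) (l 16777056))) (l 16776696))) (a (a (l 575693390407) (c (l 161765917559) (l 16777248))) (l 16776824))) (c (c (l 16775952) (l 16775952)) (l 16775960))) (a (c (a (a (b (a (b (a (l 3) (a (l 350744477959) (l 186461978871))) (l 16777240)) (l 16777200)) (l 16776880)) (l 16776728)) (l 16776288)) (l 16776584)) (l 16775664)))) (a (c (b (c (l 16775832) (l 16775592)) (l 16774512)) (l 16775064)) (c (l 16774288) (l 16773896)))), by decide +kernel⟩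

def k53_pm_011_s : ∃ t, chk3 f_pm_011_s t 142 995 4 = true :=
  ⟨(a (c (b (a (c (a (l 16776224) (l 16775472)) (l 16775768)) (l 16774600)) (c (l 16774096) (l 16774104))) (c (l 16774984) (l 16774656))) (c (l 16772952) (l 16772328))), by decide +kernel⟩

def k54_pm_011_s : ∃ t, chk3 f_pm_011_s t 143 248 4 = true :=
  ⟨(c (b (a (b (b (a (a (a (l 3) (b (l 3) (b (l 3) (b (a (l 3) (a (l 3) (l 224042942791))) (a (a (l 3) (l 258939552087)) (l 16777160)))))) (a (b (l 3) (b (a (a (l 620253675815) (b (l 3) (l 196125655335))) (b (a (l 378124894583) (l 161229046039)) (l 16777136))) (c (l 16777008) (l 16777008)))) (b (b (l 3) (b (a (l 3) (a (l 299204870503) (l 16777208))) (a (a (l 356650058071) (l 16777344)) (l 16777112)))) (c (l 16776928) (l 16776848))))) (a (b (b (a (a (b (l 3) (a (l 263771390295) (l 16777192))) (a (b (l 228337910087) (l 16777128)) (l 16777120))) (l 16776936)) (l 16776816)) (l 16776408)) (c (l 16776096) (l 16776096)))) (b (a (a (a (b (c (a (c (l 591799517495) (l 384030474919)) (b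 (a (l 3) (l 301889225031)) (l 16777344))) (l 227264168695)) (a (a (b (l 154786595095) (l 16777096)) (l 16777088)) (l 16776984))) (a (b (b (l 16777336) (l 16777040)) (l 16776840)) (l 16776824))) (l 16776456)) (l 16775584)) (a (a (l 16776592) (l 16775920)) (l 16775040)))) (b (c (a (l 16775408) (l 16774232)) (l 16774824)) (l 16774072))) (b (a (b (l 16775544) (l 16774144)) (l 16773504)) (l 16771936))) (a (b (l 16772120) (l 16769952)) (l 16768680))) (b (b (a (a (b (b (a (l 3) (l 502142075415)) (a (l 526838137447) (l 16776992))) (a (b (l 16777688) (l 16776512)) (l 16776192))) (b (c (l 16776712) (l 16776392)) (l 16775320))) (l 16774104)) (a (l 16774584) (l 16771960))) (a (l 16771720) (l 16768728)))), by decide +kernel⟩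

def k55_pm_011_s : ∃ t, chk3 f_pm_011_s t 71 248 5 = true :=
  ⟨(b (a (a (b (l 3) (a (l 3) (a (l 3) (b (l 3) (b (l 3) (l 16777904)))))) (a (b (l 3) (b (a (l 640117900647) (b (l 407652796455) (l 16777168))) (c (l 16777320) (l 16776664)))) (b (b (l 3) (a (l 591262647511) (b (l 337859577783) (l 16777080)))) (b (c (l 16776576) (l 16776576)) (l 16775520))))) (b (a (b (a (a (l 557976650807) (b (l 285783099191) (l 16776992))) (l 16776392)) (c (l 16775904) (l 16775912))) (l 16774128)) (a (l 16774320) (l 16772000)))) (a (a (b (a (b (a (l 3) (c (l 488183431863) (l 264845134279))) (a (b (l 214916138663) (l 16776872)) (l 16776568))) (a (b (b (l 16777984) (l 16776784)) (l 16775992)) (l 16775944))) (c (l 16774672) (l 16774688))) (c (b (l 16774496) (l 16772352)) (l 16773448))) (c (l 16770600) (l 16769984)))), by decide +kernel⟩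

def k56_pm_011_s : ∃ t, chk3 f_pm_011_s t 71 248 3 = true :=
  ⟨(a (b (a (b (l 3) (b (l 3) (b (l 3) (c (c (l 531669976583) (l 527911880199)) (l 532743718391))))) (a (b (l 3) (b (c (c (c (l 264308263863) (l 258402683831)) (l 252497103943)) (l 248202137015)) (c (c (l 16776672) (l 16776672)) (l 16776680)))) (b (b (l 3) (c (c (c (l 228874783671) (l 236390976263)) (l 16778544)) (l 221358591287))) (c (c (l 16776056) (l 16776064)) (l 16776072))))) (a (b (a (b (a (l 3) (b (l 3) (c (l 184851367511) (l 16777328)))) (c (c (l 16776840) (l 16776840)) (l 16776848))) (c (c (l 16776888) (l 16776240)) (l 16776248))) (c (a (l 16775280) (l 16774136)) (l 16774744))) (c (c (l 16773464) (l 16773496)) (b (l 16774568) (l 16772496))))) (c (b (b (a (b (a (c (c (l 204178721543) (l 198273141511)) (l 16777480)) (l 16776400)) (c (l 16775920) (l 16775928))) (l 16774160)) (c (l 16773192) (l 16773216))) (c (l 16770032) (l 16770088))) (b (a (b (a (b (l 196662529175) (l 16776504)) (l 16775896)) (l 16774384)) (l 16773168))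 (c (l 16770144) (l 16770200))))), by decide +kernel⟩

def k57_pm_011_s : ∃ t, chk3 f_pm_011_s t 280 498 2 = true :=
  ⟨(l 3), by decide +kernel⟩

def k58_pm_011_s : ∃ t, chk3 f_pm_011_s t 281 996 2 = true :=
  ⟨(l 3), by decide +kernel⟩

def k59_pm_011_s : ∃ t, chk3 f_pm_011_s t 281 1994 2 = true :=
  ⟨(a (l 3) (b (a (l 3) (c (b (a (l 3) (b (a (l 3) (c (a (a (l 399599730999) (l 286856839415)) (l 1778385127)) (l 16777232))) (a (a (b (l 3) (l 284172484839)) (b (l 253033971943) (l 16777184))) (l 16777104)))) (c (a (b (a (l 3) (a (a (l 3) (l 355576316183)) (a (l 241759682775) (l 16777208)))) (a (a (c (l 414095245639) (l 16777296)) (a (l 276656292071) (l 16777296))) (l 16777128))) (l 16777056)) (l 16777440))) (l 135996114327))) (c (c (a (b (a (l 3) (b (b (l 621327417639) (a (l 3) (a (l 499994591431) (l 16777208)))) (a (a (l 3) (a (l 344838897927) (l 182167011575))) (l 16777224)))) (a (a (a (l 3) (a (l 603610677511) (b (l 3) (l 280414388471)))) (b (b (l 3) (a (l 3) (l 16777232))) (c (l 16777288)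 (l 16777168)))) (a (b (l 16777280) (l 16777024)) (l 16776944)))) (a (b (b (l 16777144) (l 16776928)) (l 16776728)) (l 16776568))) (a (a (a (l 379198637239) (l 249812747239)) (l 16777632)) (l 16776720))) (a (l 157470950871) (l 16776720))))), by decide +kernel⟩

def k60_pm_011_s : ∃ t, chk3 f_pm_011_s t 281 1995 2 = true :=
  ⟨(c (a (b (a (l 3) (b (a (l 3) (a (a (l 3) (b (l 3) (b (l 3) (l 315847868663)))) (a (b (l 3) (b (l 286856839415) (l 16777192))) (b (b (l 3) (l 275582550247)) (l 16777152))))) (b (c (a (b (l 3) (c (l 599852581159) (l 425906405943))) (a (a (a (l 234243490055) (l 16777296)) (l 16777160)) (l 16777048))) (l 169282110247)) (a (a (a (l 3) (a (l 3) (l 388325441895))) (a (b (l 371682443543) (l 16777208)) (l 16777256))) (l 16776992))))) (a (b (b (l 3) (c (a (l 3) (a (l 3) (b (a (l 3) (l 16777224)) (l 16777272)))) (l 313163514935))) (a (a (l 3) (b (l 3) (a (b (l 3) (l 260550164711)) (b (l 250886488279) (l 16777176))))) (a (b (a (b (l 3) (l 220284846295)) (c (l 16777320) (l 16777200)))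 (l 16777104)) (l 16777064)))) (c (a (a (b (b (a (a (l 334638350599) (l 173577076983)) (l 16777176)) (l 16777080)) (l 16776880)) (l 16776872)) (l 16776648)) (l 16776800)))) (c (c (a (a (b (a (a (b (b (l 127406178503) (l 16777080)) (l 16776872)) (l 16776936)) (l 16776824)) (l 16776360)) (l 16776416)) (l 16775896)) (a (l 16776648) (l 16775904))) (l 16776200))) (a (a (a (l 583746454471) (b (l 3) (l 16777216))) (a (b (l 309942289815) (l 16776944)) (l 16777576))) (l 16776208))), by decide +kernel⟩

def k61_pm_011_s : ∃ t, chk3 f_pm_011_s t 564 996 4 = true :=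
  ⟨(a (b (l 3) (a (b (l 3) (b (a (l 3) (a (l 3) (c (l 621864288551) (l 16777360)))) (a (b (l 3) (c (a (a (l 365239992615) (l 221358588167)) (l 16777272)) (l 16777224))) (b (a (b (l 3) (l 16777216)) (l 16777264)) (l 16777088))))) (c (b (c (b (l 3) (b (l 3) (b (l 3) (l 588578291991)))) (l 611126870695)) (b (a (c (a (b (l 3) (a (l 299741741303) (l 16777304))) (b (l 417316471111) (l 16777176))) (l 207399944711)) (a (b (a (l 279877517543) (l 16777296)) (l 16777104)) (l 16777096))) (l 16776936))) (b (l 619716805287) (l 16777064))))) (a (b (l 3) (b (b (b (l 3) (b (l 3) (a (l 3) (a (l 3) (l 243370295511))))) (a (a (b (l 3) (b (l 297057386743) (l 16777192))) (b (a (l 3) (l 316384739623)) (l 16777152))) (a (b (b (l 254644584679) (l 16777184)) (l 16777080)) (l 16777072)))) (b (l 16776952) (l 16776640)))) (b (a (l 3) (a (l 3) (c (b (l 3) (b (l 3) (b (l 3) (a (l 349133865223) (l 185388237047))))) (l 595557614439)))) (b (b (c (a (b (b (l 3) (a (l 3) (l 16777232))) (c (l 16777288) (l 16777168))) (b (l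 16777280) (l 16777024))) (l 16777160)) (l 16776896)) (l 16776568))))), by decide +kernel⟩

def k62_pm_011_s : ∃ t, chk3 f_pm_011_s t 565 996 4 = true :=
  ⟨(b (b (b (a (l 3) (b (a (l 3) (a (a (b (l 3) (l 16777216)) (l 16777264)) (l 16777072))) (a (a (l 3) (a (b (l 3) (l 16777312)) (l 10905190599))) (l 16777008)))) (c (b (a (l 3) (a (a (a (a (l 396378505527) (l 283635613943)) (l 16777280)) (l 16777096)) (l 16776872))) (a (a (l 3) (a (l 3) (c (a (l 321753448775) (l 96804536567)) (l 16777240)))) (l 16776968))) (a (l 555292295719) (l 16776952)))) (a (c (b (a (b (l 3) (a (l 3) (b (l 377051152743) (a (l 390472925415) (l 16777200))))) (a (b (a (a (l 3) (l 355576316183)) (a (l 241222811863) (l 16777208))) (l 16777128)) (l 16777048))) (a (a (b (b (l 403357827447) (a (l 501605204167) (l 16777208))) (l 16777144)) (l 16777152)) (l 16776848))) (a (a (l 233706619847) (l 16777192)) (l 16776984))) (c (c (l 16776544) (l 16776552)) (l 16776552)))) (c (c (a (b (l 16776592) (l 16776048)) (l 16775736)) (l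 16776032)) (l 16776032))), by decide +kernel⟩

def k63_pm_011_s : ∃ t, chk3 f_pm_011_s t 282 996 5 = true :=
  ⟨(a (a (b (l 3) (b (l 636359803783) (l 16777848))) (b (l 622938031367) (c (l 16777552) (l 16776896)))) (b (a (b (l 367387477959) (l 16777120)) (l 16777472)) (l 16776040))), by decide +kernel⟩

def k64_pm_011_s : ∃ t, chk3 f_pm_011_s t 283 996 2 = true :=
  ⟨(b (c (c (a (c (a (b (l 16776504) (l 16775960)) (l 16775648)) (l 16775944)) (l 16774776)) (l 16775528)) (l 16775384)) (c (c (c (l 16774600) (l 16774280)) (l 16774288)) (l 16774312))), by decide +kernel⟩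

def k65_pm_011_s : ∃ t, chk3 f_pm_011_s t 141 997 2 = true :=
  ⟨(c (a (c (b (a (c (a (b (c (l 16776752) (l 16776672)) (l 16776128)) (l 16775816)) (l 16776112)) (l 16774944)) (a (l 16775352) (l 16773856))) (b (a (l 16776112) (l 16774952)) (l 16774456))) (c (c (l 16772632) (l 16772648)) (l 16772664))) (a (c (l 16775008) (l 16775024)) (l 16772712))), by decide +kernel⟩

def k66_pm_011_s : ∃ t, chk3 f_pm_011_s t 560 998 4 = true :=
  ⟨(b (l 3) (a (a (l 3) (b (l 3) (b (l 3) (a (b (l 3) (a (b (l 3) (l 307257934071)) (b (l 299204870375) (l 16777184)))) (b (a (b (l 3) (l 269676970215)) (b (l 261087035607) (l 16777176))) (l 16777112)))))) (b (a (l 3) (a (b (l 3) (c (b (a (l 3) (a (l 3) (l 417853342007))) (a (a (l 347523252487) (l 184314495223)) (l 16777184))) (l 16777272))) (b (a (l 3) (c (c (l 609516257559) (l 417853342263)) (l 16777352))) (b (a (b (l 387788570903) (l 16777208)) (l 16777256)) (l 16777072))))) (c (b (a (a (b (l 3) (a (a (l 390472925495) (l 278803775735)) (c (l 16777320) (l 16777200))))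 (b (b (a (l 3) (l 16777224)) (l 16777320)) (l 16777096))) (l 16776944)) (c (l 16776896) (l 16776816))) (c (l 16777280) (l 16776952)))))), by decide +kernel⟩

def k67_pm_011_s : ∃ t, chk3 f_pm_011_s t 561 998 4 = true :=
  ⟨(a (b (b (l 3) (a (a (l 3) (a (l 3) (b (l 3) (b (l 3) (b (l 3) (l 298667999463)))))) (a (b (l 3) (a (b (l 3) (b (l 268603228391) (l 16777184))) (b (b (l 3) (l 259476422871)) (l 16777144)))) (b (a (l 3) (b (l 3) (b (l 3) (l 220284846279)))) (a (b (b (l 229411651799) (l 16777176)) (l 16777072)) (l 16777064)))))) (b (c (a (b (b (a (a (l 3) (a (l 3) (l 365776863511))) (b (a (l 351281348807) (l 16777184)) (l 16777160))) (a (b (a (l 365776863463) (l 16777200)) (l 16777168)) (l 16777056))) (l 16776928)) (c (l 16776768) (l 16776768))) (l 16777240)) (c (l 16776368) (l 16776376)))) (b (a (b (b (l 3) (a (l 3) (a (l 3) (b (l 3) (b (l 392083538215) (l 16777216)))))) (b (c (b (a (a (l 3) (a (l 350744477975) (l 202568106231))) (l 16777272)) (a (c (l 16777280) (l 16777160)) (l 16777016)))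 (l 16777152)) (l 16776928))) (c (b (b (b (l 3) (c (a (l 3) (a (l 393694150983) (a (l 237464715495) (l 16777208)))) (l 286856839799))) (c (b (a (a (l 420000825687) (a (l 270213841143) (l 16777304))) (l 16777128)) (l 16777152)) (l 16777456))) (l 16776808)) (b (a (l 231022265271) (l 16777520)) (l 16776728)))) (c (c (l 16776224) (l 16776064)) (l 16776064)))), by decide +kernel⟩

def k68_pm_011_s : ∃ t, chk3 f_pm_011_s t 280 999 4 = true :=
  ⟨(b (b (a (a (a (a (c (b (b (l 3) (c (a (l 421611438423) (a (l 273435066615) (l 159081562295))) (l 16777264))) (c (l 16777176) (l 16777072))) (l 104320729879)) (b (a (b (b (l 3) (l 345912639751)) (l 16777248)) (b (b (l 320679706887) (l 16777200)) (l 16777096))) (l 16776928))) (b (a (b (l 16777208) (l 16776984)) (l 16776912)) (l 16776712))) (c (l 16776488) (l 16776416))) (c (l 16775536) (l 16775544))) (a (a (c (l 16776568) (l 16776448)) (l 16775864)) (l 16774992))) (c (a (c (l 16775664) (l 16775336)) (l 16774168)) (l 16774768))), by decide +kernel⟩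

def k69_pm_011_s : ∃ t, chk3 f_pm_011_s t 281 499 4 = true :=
  ⟨(b (a (a (c (b (b (b (a (b (a (a (a (l 3) (l 334101479703)) (a (l 188609462519) (l 16777200))) (l 16777112)) (l 16777048)) (l 16776824)) (l 16776696)) (l 16776288)) (l 16775472)) (b (l 16776896) (l 16775488))) (c (b (c (l 16776144) (l 16775984)) (l 16774888)) (l 16775448))) (b (c (l 16775432) (l 16775112)) (l 16774024))) (c (c (l 16773608) (l 16772968)) (l 16772984))), by decide +kernel⟩

def k70_pm_011_s : ∃ t, chk3 f_pm_011_s t 141 499 4 = true :=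
  ⟨(a (b (c (c (l 16773456) (l 16772808)) (l 16772832)) (l 16771288)) (c (l 16770344) (l 16769408))), by decide +kernel⟩

def k71_pm_011_s : ∃ t, chk3 f_pm_011_s t 70 499 5 = true :=
  ⟨(a (a (b (b (a (l 3) (b (b (l 611663741975) (l 487646560839)) (a (a (l 407652796007) (l 16777944)) (l 16776880)))) (a (b (b (l 644412867735) (l 517174461143)) (a (c (l 287930582663) (l 288467453575)) (l 16776952))) (l 16776856))) (a (a (b (l 16777376) (l 16775656)) (l 16775616)) (l 16774752))) (b (c (b (l 16775704) (l 16774632)) (l 16775184)) (l 16773024))) (c (a (l 16771776) (l 16769464)) (a (l 16771816) (l 16769520)))), by decide +kernel⟩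

def k72_pm_011_s : ∃ t, chk3 f_pm_011_s t 70 249 3 = true :=
  ⟨(a (a (b (l 3) (a (b (b (l 3) (c (c (a (l 335712094775) (l 16778176)) (l 190756948663)) (a (l 326585289575) (l 16777192)))) (c (c (l 16775912) (l 16775920)) (l 16775936))) (c (b (b (c (a (l 299741743623) (l 16777128)) (l 171966466599)) (c (l 16776368) (l 16776376))) (l 16774792)) (b (b (a (l 297057389287) (l 16777128)) (l 16776384)) (l 16774832))))) (b (b (l 3) (b (a (l 3) (c (c (c (l 130627406087) (l 123111213319)) (l 16778536)) (c (l 115595020727) (l 16777224)))) (a (c (c (a (l 272361326967) (l 16777048)) (l 136532986439)) (c (l 152102242711) (l 16778440))) (c (l 16776216) (l 16776232))))) (c (c (b (l 16775192) (l 16773072)) (l 16774160)) (b (l 16775232) (l 16773160))))) (b (c (a (c (b (a (b (l 644412868311) (c (l 16778472) (l 16778144))) (b (c (l 16777080) (l 16777080)) (l 16776056))) (l 16775032)) (b (b (a (l 643339126487) (l 16777080)) (l 16777912)) (l 16775048))) (c (b (l 16774872) (l 16772752)) (l 16773840))) (a (b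 (a (b (l 650855319223) (c (l 16778472) (l 16777160))) (b (l 16778480) (l 16776072))) (l 16775072)) (b (l 16774912) (l 16772840)))) (c (c (a (l 16771856) (l 16769584)) (l 16770768)) (c (l 16770824) (l 16770888))))), by decide +kernel⟩

def k73_pm_011_s : ∃ t, chk3 f_pm_011_s t 71 249 1 = true :=
  ⟨(c (c (b (a (a (b (c (l 16773088) (l 16772496)) (l 16770312)) (b (l 16770144) (l 16767968))) (c (l 16766808) (l 16765568))) (a (c (l 16767136) (l 16765904)) (l 16761152))) (b (a (c (a (l 16771456) (l 16769136)) (l 16770992)) (c (l 16765648) (l 16765736))) (a (c (l 16765984) (l 16766072)) (l 16761408)))) (c (b (a (c (a (l 16771528) (l 16769248)) (l 16770440)) (l 16765872)) (a (c (l 16766168) (l 16766264)) (l 16761688))) (b (a (c (l 16770496) (l 16770552)) (l 16766072)) (a (l 16766424) (l 16762008))))), by decide +kernel⟩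

def k74_pm_011_s : ∃ t, chk3 f_pm_011_s t 35 125 1 = true :=
  ⟨(c (b (b (a (b (a (a (c (b (c (l 16773984) (l 16773680)) (l 16773232)) (l 16773176)) (c (l 16771528) (l 16770880))) (c (c (l 16767240) (l 16767304)) (l 16767416))) (c (a (c (a (l 16770912) (l 16768560)) (l 16769792)) (l 16765072)) (a (a (l 16771024) (l 16768720)) (l 16765264)))) (c (a (l 16761464) (l 16756744)) (a (l 16761728) (l 16757104)))) (a (c (a (c (b (l 16767528) (l 16765304)) (l 16766504)) (l 16763064)) (a (c (l 16766584) (l 16766680)) (l 16763336))) (c (a (l 16757032) (l 16752296)) (a (l 16757400) (l 16752776))))) (a (c (b (a (l 16763328) (l 16757304)) (a (l 16757544) (l 16742328))) (b (a (c (l 16762224) (l 16762368)) (l 16757680)) (a (l 16757936) (l 16753320)))) (c (b (l 16750192) (l 16745680)) (c (l 16748408) (l 16748744))))) (a (b (c (a (b (c (a (l 16772160) (l 16769888)) (a (l 16772208) (l 16769960))) (c (l 16766776) (l 16766880))) (b (c (l 16766480) (l 16766584)) (l 16762320))) (a (b (c (l 16771136) (l 16771200))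 (l 16767048)) (b (l 16766744) (l 16762664)))) (c (b (a (l 16762608) (l 16758112)) (a (l 16758384) (l 16753904))) (a (b (l 16762952) (l 16758880)) (l 16756568)))) (b (c (a (b (l 16762016) (l 16757824)) (l 16755416)) (a (b (l 16762344) (l 16758288)) (l 16755952))) (c (b (l 16751384) (l 16747192)) (a (l 16752248) (l 16747944)))))), by decide +kernel⟩

def k75_pm_011_s : ∃ t, chk3 f_pm_011_s t 17 63 1 = true :=
  ⟨(b (b (b (a (b (a (l 14) (a (l 14) (a (l 14) (c (l 16757904) (l 16758816))))) (l 14)) (c (a (c (a (l 16742544) (l 16737792)) (l 16753216)) (a (l 16746520) (l 16739200))) (a (c (l 16751920) (l 16752664)) (l 16743536)))) (a (l 14) (c (a (c (l 16746096) (l 16746840)) (c (l 16726048) (l 16737592))) (a (c (l 16747688) (l 16748632)) (l 16739440))))) (a (l 14) (c (a (a (b (l 16746912) (l 14)) (b (l 16739584) (l 16735024))) (c (b (l 16710936) (l 16706264)) (l 16730928))) (a (c (l 16741328) (l 16742600)) (c (l 16732456) (l 16734168)))))) (a (l 14) (a (a (l 14) (a (l 14) (b (c (l 16726936)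 (l 16730432)) (l 14)))) (c (b (c (l 16699176) (l 16721944)) (c (l 16689568) (l 16691856))) (b (l 16725080) (l 16716816)))))), by decide +kernel⟩

def k76_pm_011_s : ∃ t, chk3 f_pm_011_s t 36 60 1 = true :=
  ⟨(l 3), by decide +kernel⟩

def k77_pm_011_s : ∃ t, chk3 f_pm_011_s t 37 120 1 = true :=
  ⟨(l 3), by decide +kernel⟩

def k78_pm_011_s : ∃ t, chk3 f_pm_011_s t 74 121 1 = true :=
  ⟨(l 3), by decide +kernel⟩

def k79_pm_011_s : ∃ t, chk3 f_pm_011_s t 75 242 1 = true :=
  ⟨(l 3), by decide +kernel⟩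

def k80_pm_011_s : ∃ t, chk3 f_pm_011_s t 75 486 1 = true :=
  ⟨(b (b (l 3) (a (l 3) (a (l 3) (a (l 3) (c (c (b (a (l 3) (a (l 3) (b (l 613811225047) (b (a (l 3) (l 16777208)) (l 16777400))))) (b (c (a (l 3) (a (a (a (l 393694151271) (l 266455745031)) (l 16777432)) (l 16776968))) (l 200957495127)) (a (a (l 3) (a (b (l 3) (l 315310997991)) (b (l 279877517767) (l 16777160)))) (l 16776856)))) (l 210621172903)) (c (l 201494367383) (l 16777472))))))) (a (l 3) (c (b (a (l 3) (a (c (b (a (l 3) (b (l 3) (a (l 3) (b (l 3) (a (l 3) (l 16777224)))))) (a (a (l 3) (b (l 3) (c (l 564955971991) (l 16777416)))) (c (c (a (b (l 529522491735) (a (l 145122918807) (l 16777072))) (b (l 16777272) (l 16776848))) (l 16777608)) (l 16777120)))) (l 246054653351)) (c (c (a (b (a (b (c (a (l 399062860487) (a (l 275045679575) (l 16777216))) (l 16777312)) (l 16777072)) (l 16776904)) (l 16776536)) (l 16776208)) (l 16776504)) (l 16776504)))) (a (b (l 3) (a (l 3) (c (a (l 3) (a (b (l 3) (a (b (l 3) (l 302426096087)) (b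 (l 267529486775) (l 16777152)))) (b (a (b (l 3) (l 232632877463)) (a (l 146733531543) (l 16777144))) (l 16776992)))) (l 16778168)))) (c (c (a (b (a (a (b (l 602000064983) (b (a (l 3) (l 16777208)) (l 16777152))) (b (b (a (l 373293056439) (l 16777168)) (l 16777112)) (l 16776920))) (l 16776608)) (c (l 16776384) (l 16776392))) (l 16775472)) (a (l 16776640) (l 16775472))) (l 16776056)))) (a (c (c (l 584283327415) (l 582672714663)) (l 586430811031)) (c (c (l 16776552) (l 16776552)) (l 16776552)))))), by decide +kernel⟩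

def k81_pm_011_s : ∃ t, chk3 f_pm_011_s t 150 487 1 = true :=
  ⟨(b (b (l 3) (b (l 3) (b (l 3) (a (l 3) (a (l 3) (a (l 3) (a (l 3) (c (c (a (b (l 3) (l 275045679559)) (b (l 241222812071) (l 16777136))) (l 16777264)) (l 16777264))))))))) (a (l 3) (c (c (c (b (b (a (l 3) (b (a (l 3) (a (a (a (l 3) (l 374903669303)) (a (l 234780361175) (l 16777200))) (l 16777016))) (a (a (l 3) (b (l 596094484839) (a (l 3) (l 16777208)))) (l 16777072)))) (b (a (l 3) (a (a (a (l 3) (a (l 349133865559) (l 224579813847))) (l 16777328)) (l 16776648))) (a (a (l 3) (c (a (l 3) (l 544018006375)) (l 573545906791))) (b (a (a (a (l 225653555575) (l 16777112)) (l 16776896)) (l 16776448)) (l 16776616))))) (a (b (b (a (l 3) (a (l 576767132071) (b (a (l 326048416135) (l 16777144)) (l 16777088)))) (a (a (l 3) (l 611126870503)) (b (a (a (l 393157280199) (l 16777184)) (l 16776960)) (l 16777144)))) (a (a (c (b (l 3) (a (a (l 382956733031) (l 278266905047)) (l 16777392))) (l 252497101927)) (b (a (a (l 334101480007) (l 210621170119))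 (l 16777152)) (l 16776968))) (l 16776656))) (b (l 16776376) (l 16775776)))) (a (b (l 612200613671) (b (a (l 621327418311) (l 16777168)) (l 16776944))) (a (b (a (l 254644586439) (l 16777848)) (l 16776328)) (l 16776256)))) (a (b (l 619179935511) (l 122037471911)) (c (l 16777848) (l 16776536)))) (c (c (c (l 16779712) (l 105931346167)) (l 16777088)) (l 95730798503))))), by decide +kernel⟩

def k82_pm_011_s : ∃ t, chk3 f_pm_011_s t 151 487 1 = true :=
  ⟨(c (a (b (a (c (a (b (l 3) (b (a (l 3) (b (c (l 590188904903) (l 16777440)) (b (a (l 385104216631) (l 16777192)) (l 16777304)))) (b (a (a (b (l 3) (l 207399944583)) (c (l 16777328) (l 16777168))) (l 16776944)) (l 16776832)))) (b (c (b (l 3) (a (c (b (l 3) (l 556366037383)) (l 388862313799)) (b (c (l 520395686215) (l 16777376)) (a (a (l 175724560839) (l 16777168)) (l 16777064))))) (l 496773366567)) (b (b (a (b (a (l 320142836215) (l 16777160)) (l 16777104)) (l 16776880)) (l 16776768)) (l 16776376)))) (b (l 320142839655) (l 16776920))) (c (b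 (a (c (a (b (b (l 3) (b (l 613274354039) (a (l 3) (l 16777216)))) (a (b (l 16777336) (l 16776912)) (l 16776896))) (b (b (a (a (l 3) (l 390472925783)) (a (l 250886488567) (l 16777376))) (l 16777064)) (l 16776680))) (l 16777728)) (c (c (c (l 16776656) (l 16776496)) (l 16776496)) (l 16776496))) (c (c (l 16775752) (l 16775752)) (l 16775752))) (l 16776264))) (c (c (c (a (b (l 16775896) (l 16774856)) (l 16774200)) (l 16774784)) (l 16774792)) (l 16774792))) (c (c (b (a (b (l 16775936) (l 16774576)) (l 16773920)) (l 16772432)) (b (l 16774512) (l 16772440))) (l 16773480))) (c (a (c (c (l 16778424) (l 16778424)) (l 16775800)) (l 16773488)) (a (b (l 16779440) (l 16774800)) (l 16773488)))), by decide +kernel⟩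

def k83_pm_011_s : ∃ t, chk3 f_pm_011_s t 72 122 1 = true :=
  ⟨(l 3), by decide +kernel⟩

def k84_pm_011_s : ∃ t, chk3 f_pm_011_s t 146 122 1 = true :=
  ⟨(a (l 3) (a (l 3) (a (l 3) (a (l 3) (b (l 3) (b (l 3) (b (l 3) (b (l 3) (b (l 3) (b (l 3) (c (c (c (a (b (l 3) (l 211694911847)) (b (l 186998849863) (l 16777104))) (l 16777232)) (l 16777232)) (l 16777232)))))))))))), by decide +kernel⟩

def k85_pm_011_s : ∃ t, chk3 f_pm_011_s t 147 244 1 = true :=
  ⟨(l 3), by decide +kernel⟩

def k86_pm_011_s : ∃ t, chk3 f_pm_011_s t 147 490 1 = true :=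
  ⟨(a (l 3) (a (l 3) (b (l 3) (b (l 3) (c (c (c (a (a (l 3) (a (l 3) (b (l 3) (b (l 3) (b (l 408726536679) (l 16777376)))))) (a (b (l 3) (b (b (l 566029713719) (a (l 389399183815) (l 16777184))) (c (l 16777224) (l 16777056)))) (b (b (l 3) (a (b (l 3) (l 301889225143)) (b (l 297594257783) (l 16777152)))) (c (l 16777064) (l 16776896))))) (a (l 573545907367) (b (l 311016031975) (l 16777040)))) (a (l 362555640903) (l 16777928))) (c (c (l 16777528) (l 16777528)) (l 16777520))))))), by decide +kernel⟩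

def k87_pm_011_s : ∃ t, chk3 f_pm_011_s t 147 982 1 = true :=
  ⟨(a (b (l 3) (b (l 3) (a (l 3) (a (l 3) (c (c (c (b (a (l 3) (a (b (l 3) (l 261087035799)) (b (l 235317231991) (l 16777136)))) (a (a (b (l 3) (l 346449510823)) (b (l 321216577927) (l 16777160))) (l 16777008))) (l 158544692535)) (l 16777264)) (c (l 16777264) (l 16777256))))))) (c (c (a (a (b (a (l 3) (b (l 3) (b (l 3) (b (l 3) (l 601463193943))))) (b (c (b (a (l 3) (a (b (l 421074567655) (l 16777376)) (l 16777344))) (a (a (b (l 3) (l 209547428183)) (b (l 155323466087) (l 16777104))) (l 16776952))) (l 16777864)) (c (c (l 16776704) (l 16776704)) (l 16776704)))) (b (b (a (l 3) (a (l 3) (c (b (l 3) (b (l 3) (l 280414388583))) (l 16777440)))) (c (b (a (a (l 3) (b (l 3) (l 344302027159))) (b (a (l 284172485031) (l 16777144)) (l 16777088))) (a (b (a (l 370608701879) (l 16777176)) (l 16777112)) (l 16776888))) (l 16777152))) (c (c (l 16776456) (l 16776376)) (l 16776376)))) (c (b (a (b (a (b (a (l 3) (b (l 3) (l 193441300823))) (b (a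 (l 231022264679) (l 16777112)) (l 16777056))) (a (b (b (l 146733531479) (l 16777096)) (l 16776904)) (l 16776888))) (l 16776576)) (c (l 16776256) (l 16776256))) (l 16775744)) (b (l 16777200) (l 16775504)))) (a (b (a (l 632064836983) (l 193978173863)) (l 16776664)) (l 16776024))) (c (c (c (l 16779208) (l 16778552)) (l 16776584)) (c (l 16776584) (l 16776584))))), by decide +kernel⟩

def k88_pm_011_s : ∃ t, chk3 f_pm_011_s t 147 983 1 = true :=
  ⟨(a (b (c (c (a (a (l 3) (b (l 3) (c (b (b (l 3) (a (l 3) (a (l 3) (l 207936815463)))) (a (a (l 3) (b (l 3) (l 304036708711))) (b (a (l 244980908407) (l 16777120)) (l 16777064)))) (l 232632878519)))) (c (a (b (a (a (l 3) (b (l 3) (b (l 414095245815) (l 156934078759)))) (b (b (l 580525228359) (a (l 408726536663) (l 16777192))) (c (c (l 16777232) (l 16777064)) (l 16777064)))) (b (a (b (a (l 163376529767) (l 16777088)) (l 16777032)) (l 16776808)) (l 16776688))) (a (b (b (l 16777200) (l 16776776)) (l 16776384)) (l 16776352))) (a (b (l 188072592807) (l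 16776816)) (l 16776496)))) (a (l 530059363591) (l 16776784))) (c (c (c (l 149417889319) (l 142438567463)) (l 16777296)) (l 133311761287))) (c (c (b (c (a (b (b (a (l 3) (a (a (l 329269641607) (l 16777152)) (l 16776928))) (a (a (l 3) (l 568177197351)) (l 16777064))) (a (a (c (l 609516257751) (l 405505311687)) (b (a (l 389936054711) (l 16777176)) (l 16777288))) (l 16776744))) (l 16776000)) (a (a (l 260550166055) (l 16776880)) (l 16776000))) (c (a (c (b (a (a (a (b (l 3) (l 172503335175)) (l 16777304)) (l 16776920)) (l 16776480)) (l 16776512)) (l 16776968)) (l 16775472)) (l 16776056))) (a (l 16778208) (l 16775744))) (c (c (l 16776320) (l 16776320)) (l 16776328)))) (c (c (c (c (a (b (l 16775616) (l 16774560)) (l 16773912)) (l 16774504)) (l 16774512)) (l 16774520)) (c (l 16774536) (l 16774552)))), by decide +kernel⟩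

def k89_pm_011_s : ∃ t, chk3 f_pm_011_s t 144 246 2 = true :=
  ⟨(l 3), by decide +kernel⟩

def k90_pm_011_s : ∃ t, chk3 f_pm_011_s t 145 492 2 = true :=
  ⟨(l 3), by decide +kernel⟩

def k91_pm_011_s : ∃ t, chk3 f_pm_011_s t 145 986 2 = true :=
  ⟨(a (l 3) (a (b (l 3) (a (a (l 3) (c (c (b (l 3) (b (l 3) (a (l 608979386727) (b (l 404431569351) (l 16777360))))) (l 560661005191)) (l 350744480231))) (c (b (a (l 3) (b (l 3) (a (b (l 3) (a (l 3) (l 246591521095))) (b (a (l 395841634727) (l 216526749991)) (l 16777144))))) (c (a (c (b (b (l 559587262759) (a (l 359871283639) (l 16777176))) (c (l 16777216) (l 16777048))) (a (l 150491628311) (l 16777104))) (b (l 16777144) (l 16776760))) (l 16777032))) (l 148881016359)))) (b (a (a (l 3) (c (c (b (l 3) (b (l 3) (c (b (a (l 3) (l 173577076999)) (a (l 207936815383) (l 16777096))) (l 16777224)))) (l 513416364743)) (l 297057388919))) (c (b (a (a (l 3) (b (l 3) (c (l 582672712007) (l 16777368)))) (c (b (b (l 3) (c (l 553681682711) (l 340543931063))) (b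 (a (l 364703121831) (l 16777168)) (l 16777272))) (l 16777616))) (c (b (a (c (a (b (l 406042182103) (l 16777368)) (l 16777296)) (l 16777200)) (l 16776912)) (l 16776792)) (l 16776920))) (l 16778152))) (c (c (a (b (a (b (b (a (l 3) (a (l 320142836087) (l 16777216))) (a (a (l 383493603687) (l 16777224)) (l 16777120))) (l 16776992)) (l 16776832)) (l 16776448)) (c (l 16776128) (l 16776128))) (l 16776752)) (l 16776424))))), by decide +kernel⟩

def k92_pm_011_s : ∃ t, chk3 f_pm_011_s t 145 987 2 = true :=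
  ⟨(b (a (a (l 3) (c (c (a (b (l 3) (a (l 3) (a (l 3) (b (l 3) (c (l 559587262759) (l 351281349303)))))) (a (b (l 3) (a (b (l 3) (b (a (l 3) (l 242296553799)) (l 16777168))) (b (a (l 3) (b (l 3) (l 201494364471))) (l 16777088)))) (a (b (l 3) (b (b (a (l 386714829175) (l 16777312)) (l 16777136)) (l 16776936))) (b (b (l 3) (b (l 3) (a (l 358797541719) (l 16777216)))) (l 16776928))))) (a (l 618643064135) (b (l 573545906983) (l 16777792)))) (c (l 466171724599) (l 254644587559)))) (c (c (a (b (a (a (a (b (l 3) (b (c (l 211694911783) (l 16777240)) (l 16777112))) (b (b (l 3) (c (l 190756946183) (l 16777224))) (l 16777032))) (a (c (b (b (l 156934078711) (l 16777080)) (l 16776888)) (l 16777016)) (l 16776872))) (l 16776504)) (c (l 16776392) (l 16776264))) (l 16775608)) (a (b (l 16777448) (l 16776272)) (l 16775368))) (l 16776776))) (a (a (a (l 3) (b (l 3) (c (b (a (l 3) (a (b (l 3) (a (l 309405417847) (l 16777208))) (b (a (l 281488130391) (l 16777192)) (l 16777104)))) (a (b (a (l 3) (a (l 350744478087)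 (l 16777344))) (a (a (l 381346120103) (l 199883751703)) (l 16777128))) (l 16777056))) (l 16777232)))) (c (b (a (c (b (a (a (l 3) (l 595020742999)) (a (b (a (l 3) (l 317458481527)) (l 16777352)) (l 16777272))) (a (c (a (b (l 408189665767) (l 166597755127)) (b (l 16777328) (l 16777072))) (l 16777208)) (l 16776920))) (l 113447535111)) (c (l 16776696) (l 16776616))) (a (a (c (l 16776816) (l 16776816)) (l 16776520)) (l 16776080))) (l 16776640))) (c (c (c (a (l 16775464) (l 16774296)) (l 16774880)) (l 16774888)) (l 16774904)))), by decide +kernel⟩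

def k93_pm_011_s : ∃ t, chk3 f_pm_011_s t 288 494 4 = true :=
  ⟨(b (l 3) (b (a (l 3) (a (l 3) (a (l 3) (b (l 3) (b (l 3) (b (b (l 616495579447) (a (l 3) (l 217063620919))) (a (a (l 3) (l 251960230215)) (l 16777152)))))))) (a (a (l 3) (a (l 3) (a (l 3) (b (l 3) (b (l 3) (b (l 3) (a (l 330880254327) (l 16777336)))))))) (a (a (b (l 3) (b (a (l 3) (b (l 3) (a (l 267529486663) (l 16777192)))) (b (a (a (l 292762419559) (l 16777368)) (l 16777096)) (l 16777032)))) (b (c (c (b (l 3) (a (l 615958708567) (b (a (l 3) (l 349670736231)) (l 16777344)))) (l 516100719047)) (l 314774127863)) (b (a (a (b (l 228874780983) (l 16777120)) (l 16777192)) (l 16777000)) (l 16776808)))) (c (b (a (a (b (c (l 573009035575) (l 364703122119)) (b (l 16777352) (l 16777056))) (b (b (a (l 3) (l 270750712151)) (l 16777176)) (l 16776976))) (a (b (l 16777256) (l 16776832)) (l 16776816))) (l 16776504)) (c (l 16777424) (l 16776768))))))), by decide +kernel⟩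

def k94_pm_011_s : ∃ t, chk3 f_pm_011_s t 288 495 4 = true :=
  ⟨(b (a (b (b (b (a (l 3) (a (b (l 3) (b (l 611126870311) (a (l 3) (l 207399944487)))) (b (a (a (l 358260670871) (l 177872044295)) (l 16777120)) (l 16777144)))) (a (b (l 3) (b (l 3) (a (l 3) (a (l 3) (l 269140099415))))) (a (b (a (a (l 3) (l 241759682871)) (l 16777144)) (c (l 16777080) (l 16777080))) (l 16776856)))) (a (c (a (b (c (a (l 3) (l 588041421111)) (l 396915377063)) (c (a (a (b (l 3) (l 199346880775)) (b (l 371682443623) (l 16777168))) (b (l 16777352) (l 16777064))) (l 16777192))) (b (a (b (a (l 3) (l 286856839527)) (l 16777344)) (c (l 16777264) (l 16777104))) (l 16776912))) (a (l 224042943479) (l 16777040))) (c (l 16776688) (l 16776608)))) (c (a (a (b (l 16776800) (l 16776264)) (l 16776400)) (l 16775800)) (l 16776096))) (c (b (a (b (l 16776552) (l 16776016)) (l 16775696)) (l 16774920)) (l 16775464))) (c (c (a (l 16774808) (l 16773304)) (l 16773904)) (l 16773912))), by decide +kernel⟩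

def k95_pm_011_s : ∃ t, chk3 f_pm_011_s t 289 494 4 = true :=
  ⟨(b (b (b (l 3) (a (l 3) (a (l 3) (b (c (c (a (l 3) (a (l 616495579495) (b (l 393694151127) (l 58686701799)))) (l 523616911847)) (l 322290320663)) (a (a (l 3) (b (l 3) (a (l 282561872215) (l 16777192)))) (b (a (a (l 241759682887) (l 16777184)) (l 16777072)) (l 16777016))))))) (a (b (l 3) (a (l 3) (a (a (l 3) (b (l 3) (c (l 601463193927) (l 16777376)))) (c (b (a (l 3) (c (l 560124133671) (l 351818220215))) (a (b (a (l 3) (l 315847868791)) (l 16777352)) (c (l 16777272) (l 16777112)))) (l 215453008855))))) (a (b (b (a (l 3) (a (l 3) (b (l 3) (a (l 349670736263) (l 157470949639))))) (a (b (l 3) (b (l 620790546743) (a (l 3) (l 229948522807)))) (b (a (a (l 389399183767) (l 198273138967)) (l 16777128)) (l 16777152)))) (c (a (b (b (a (a (l 3) (l 244444037447)) (l 16777152)) (l 16777256)) (l 16776896)) (l 16776736)) (l 16776880))) (c (c (a (b (b (b (a (a (l 311552901447) (l 16777208)) (l 16777104)) (l 16777040)) (l 16776840)) (l 16776440))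 (l 16776416)) (l 16776560)) (l 16776560))))) (b (a (a (b (a (l 3) (b (l 3) (b (a (l 3) (a (l 273435066711) (l 16777192))) (a (a (l 312626643303) (l 16777368)) (l 16777096))))) (c (a (b (b (a (l 3) (a (l 355039445335) (l 16777216))) (a (a (l 380272378231) (l 16777352)) (l 16777120))) (l 16777000)) (l 16776920)) (l 16776976))) (c (b (a (b (c (a (b (l 406042182119) (l 161765916919)) (b (l 52781121767) (l 16777072))) (l 16777208)) (l 16776944)) (l 16776784)) (l 16776400)) (l 16776664))) (c (c (a (l 16776080) (l 16775488)) (l 16775784)) (l 16775792))) (c (a (a (b (l 16776448) (l 16775912)) (l 16775600)) (l 16774720)) (l 16775312)))), by decide +kernel⟩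

def k96_pm_011_s : ∃ t, chk3 f_pm_011_s t 289 495 4 = true :=
  ⟨(c (b (c (a (l 16774280) (l 16773104)) (l 16773704)) (l 16771544)) (b (l 16773712) (l 16771576))), by decide +kernel⟩

def k97_pm_011_s : ∃ t, chk3 f_pm_011_s t 145 247 4 = true :=
  ⟨(b (b (a (a (b (c (b (a (a (b (l 3) (c (b (l 570861551911) (a (l 374903669175) (l 16777176))) (l 224579814135))) (b (a (c (c (l 549386715399) (l 346449511031)) (l 333027738279)) (b (a (l 3) (l 207399944503)) (l 16777152))) (c (l 16777192) (l 16777024)))) (c (c (l 16776800) (l 16776720)) (l 16776720))) (c (a (a (b (b (l 16777280) (l 16776984)) (l 16776784)) (l 16776624)) (l 16776184)) (l 16776480))) (a (a (b (l 284709356839) (l 16776920)) (l 16776888)) (l 16776456))) (c (c (l 16775928) (l 16775680)) (l 16775688))) (c (c (b (l 16775576) (l 16774504)) (l 16775048)) (l 16775048))) (c (c (l 16773768) (l 16773288)) (l 16773296))) (a (b (a (l 16774944) (l 16773448)) (l 16773456)) (l 16771808))) (c (a (b (l 16771344) (l 16769192)) (l 16767920)) (a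 (l 16770304) (l 16767960)))), by decide +kernel⟩

def k98_pm_011_s : ∃ t, chk3 f_pm_011_s t 72 247 5 = true :=
  ⟨(a (b (a (b (l 3) (a (b (l 3) (l 615421839047)) (a (b (l 3) (c (l 172503336247) (l 16777312))) (b (l 553144812583) (l 16776768))))) (b (a (b (l 3) (b (l 3) (l 522543170455))) (b (c (l 521469428903) (l 308331679127)) (c (l 16777824) (l 16776840)))) (a (a (b (a (l 193441302567) (l 16777096)) (l 16776192)) (l 16776144)) (l 16775272)))) (a (b (a (b (a (a (l 283098745159) (l 156397209479)) (l 16776864)) (l 16776104)) (l 16775472)) (l 16773936)) (c (l 16772664) (l 16772688)))) (b (b (a (c (a (b (l 16776744) (l 16775696)) (l 16775056)) (l 16775640)) (l 16773320)) (c (l 16772360) (l 16772376))) (c (l 16769176) (l 16769216)))), by decide +kernel⟩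

def k99_pm_011_s : ∃ t, chk3 f_pm_011_s t 146 984 2 = true :=
  ⟨(a (a (l 3) (a (l 3) (c (b (l 3) (c (a (l 3) (a (l 3) (b (l 3) (b (l 3) (l 597168226647))))) (l 625085515127))) (l 633675449975)))) (b (a (a (l 3) (a (l 3) (a (l 3) (c (c (b (l 3) (b (l 3) (b (l 3) (l 160692175143)))) (l 560661005111)) (l 352355092727))))) (c (a (b (a (l 3) (b (l 3) (c (a (l 559587262759) (b (l 330880254343) (l 16777168))) (l 16777288)))) (c (a (b (a (l 601463193943) (b (l 390472925623) (l 16777192))) (a (b (l 16777368) (l 16777080)) (l 16777000))) (c (c (l 16777072) (l 16776912)) (l 16776912))) (l 16777048))) (c (b (a (b (a (b (l 3) (l 294909903223)) (b (l 247665262967) (l 16777136))) (l 16777008)) (l 16776848)) (l 16776472)) (l 16776728))) (c (l 16778240) (l 16777008)))) (c (a (c (b (b (a (l 3) (a (a (l 3) (b (l 3) (a (l 322290319735) (l 16777216)))) (b (a (l 184851366215) (l 16777096)) (l 16777032)))) (b (a (l 3) (a (a (a (l 388862312807) (l 16777224)) (l 16777120)) (l 16776904))) (a (a (l 3) (a (l 3)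 (l 302426095975))) (l 16776912)))) (a (b (a (a (l 3) (l 555829166375)) (a (b (l 326048416135) (l 16777160)) (l 16777080))) (a (b (a (l 384567345591) (l 16777176)) (l 16777280)) (l 16776896))) (l 16776584))) (a (b (l 588041421639) (l 16777816)) (l 16777496))) (c (a (c (l 16776264) (l 16776264)) (l 16775680)) (l 16775976))) (a (a (l 195051915703) (l 16776848)) (l 16775976))))), by decide +kernel⟩

def k100_pm_011_s : ∃ t, chk3 f_pm_011_s t 146 985 2 = true :=
  ⟨(a (a (b (l 3) (b (a (l 3) (c (c (a (a (l 3) (c (b (l 3) (b (l 402284085735) (l 160692175095))) (l 302962967527))) (b (a (l 596094484807) (b (l 371682443703) (l 16777184))) (a (b (l 16777368) (l 16777072)) (l 16776992)))) (c (l 185388238151) (l 16777312))) (l 16777312))) (b (c (b (a (l 3) (a (a (a (l 276656292183) (l 16777192)) (l 16777088)) (l 16776864))) (a (a (l 3) (a (l 3) (a (l 307257934199) (l 16777208)))) (l 16776880))) (l 16777208)) (c (a (a (a (l 3) (b (l 3) (a (l 381346120103) (l 202568106263)))) (b (a (a (l 351281348999)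 (l 16777384)) (l 16777112)) (l 16777056))) (l 16776680)) (l 16776968))))) (b (a (c (b (l 3) (c (b (a (l 3) (c (a (b (l 3) (l 280414388583)) (b (l 257328939335) (l 16777128))) (l 16777256))) (a (c (a (l 557439779095) (b (l 302962966919) (l 16777160))) (l 16777528)) (l 16777008))) (l 159081563431))) (l 248739006935)) (c (c (a (b (b (l 3) (c (a (b (l 3) (l 221895459127)) (b (l 198810009879) (l 16777104))) (l 16777232))) (l 16776848)) (c (b (b (a (b (l 411947762151) (l 175187689719)) (l 16777320)) (l 16776952)) (l 16776552)) (l 16777144))) (b (l 130090534087) (l 16776704))) (l 16776952))) (c (c (c (a (b (c (a (l 16777064) (l 16776608)) (l 16776760)) (l 16776224)) (l 16775904)) (l 16776200)) (l 16776200)) (l 16776208)))) (c (c (a (b (a (b (l 16776640) (l 16776112)) (l 16775792)) (l 16775024)) (c (l 16774376) (l 16774384))) (l 16775224)) (l 16774984))), by decide +kernel⟩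

def k101_pm_011_s : ∃ t, chk3 f_pm_011_s t 146 493 2 = true :=
  ⟨(c (c (a (b (a (b (a (c (a (b (b (a (b (l 297057386871) (l 16777152)) (l 16777072)) (l 16776880)) (l 16776488)) (l 16776456)) (l 16776600)) (l 16776184)) (l 16775248)) (c (l 16774936) (l 16774608))) (c (l 16773064) (l 16773072))) (b (c (l 16772840) (l 16772848)) (l 16770720))) (a (b (b (l 16776136) (l 16774672)) (l 16773080)) (l 16771800))) (b (c (a (l 16775208) (l 16772872)) (l 16774048)) (l 16772600))), by decide +kernel⟩

def k102_pm_011_s : ∃ t, chk3 f_pm_011_s t 147 246 2 = true :=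
  ⟨(c (b (c (a (b (a (c (b (c (l 16775856) (l 16775856)) (l 16774792)) (l 16775328)) (l 16774560)) (l 16773272)) (b (l 16772392) (l 16770272))) (a (b (l 16774744) (l 16772632)) (l 16771352))) (c (b (l 16770632) (l 16767192)) (l 16768288))) (b (c (a (l 16773704) (l 16771368)) (l 16772552)) (l 16769656))), by decide +kernel⟩

def k103_pm_011_s : ∃ t, chk3 f_pm_011_s t 73 247 2 = true :=
  ⟨(a (c (b (b (a (l 16771600) (l 16768600)) (l 16768624)) (c (l 16764392) (l 16764456))) (b (c (l 16768760) (l 16768800)) (l 16764560))) (c (b (c (l 16763984) (l 16764040)) (l 16759728)) (c (l 16761992) (l 16762072)))), by decide +kernel⟩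

def k104_pm_011_s : ∃ t, chk3 f_pm_011_s t 72 123 3 = true :=
  ⟨(b (a (l 3) (b (l 3) (b (a (l 3) (c (c (a (l 498920850935) (b (l 16778728) (l 16776432))) (a (l 277193167703) (l 16776928))) (a (b (l 3) (l 16778824)) (l 16779056)))) (a (c (c (a (l 537575556983) (b (l 251423362071) (l 16776640))) (a (l 534354331495) (l 16777128))) (a (l 537038686039) (c (l 16779096) (l 16777128)))) (c (c (l 16775440) (l 16775440)) (l 16775456)))))) (a (a (b (b (l 3) (a (c (b (l 3) (l 627232999079)) (l 643339127303)) (c (c (b (l 382956736247) (l 16777040)) (l 174650821415)) (b (l 386714832855) (l 16777040))))) (b (c (c (c (l 16776048) (l 16777360)) (l 16776056)) (a (l 16778264) (l 16775512))) (c (l 16773968) (l 16774008)))) (c (c (b (b (a (l 576767133911) (b (l 304036711831) (l 16776848))) (c (l 16775848) (l 16775848))) (l 16772712)) (b (b (a (l 574082779335) (l 138680471255)) (l 16775856)) (l 16772736))) (b (b (a (l 576767133879) (b (l 298131132103) (l 16776848))) (l 16777096)) (l 16772776)))) (c (b (c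 (a (b (l 16775648) (l 16773552)) (l 16772296)) (a (l 16774616) (l 16772320))) (c (l 16769264) (l 16769312))) (b (a (b (l 16775664) (l 16773600)) (l 16772360)) (l 16769384))))), by decide +kernel⟩

def k105_pm_011_s : ∃ t, chk3 f_pm_011_s t 73 123 3 = true :=
  ⟨(b (a (b (b (a (c (c (l 648707837639) (l 648170966711)) (l 655687159447)) (a (c (c (c (l 201494368231) (l 195051917287)) (l 189146337495)) (c (l 189146337495) (l 189146337495))) (c (c (l 16776496) (l 16776496)) (l 16776496)))) (a (a (b (l 3) (c (a (l 277730036391) (l 16777064)) (l 16777312))) (c (c (l 16778024) (l 16776712)) (l 16776712))) (c (l 16775000) (l 16775016)))) (c (c (a (l 16774176) (l 16771864)) (l 16773032)) (a (l 16774208) (l 16771920)))) (c (b (c (l 16772560) (l 16772584)) (c (l 16768400) (l 16768440))) (b (l 16772280) (l 16768504)))) (c (c (a (b (l 16768840) (l 16764672)) (l 16762160)) (a (l 16766816) (l 16762256))) (a (b (l 16768952) (l 16764880)) (l 16762408)))), by decide +kernel⟩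

def k106_pm_011_s : ∃ t, chk3 f_pm_011_s t 148 244 2 = true :=
  ⟨(b (l 3) (a (l 3) (b (l 3) (a (a (l 3) (a (l 3) (c (b (l 3) (a (l 3) (b (l 3) (b (l 3) (b (l 3) (l 298667999719)))))) (l 606295033799)))) (b (a (l 3) (c (c (b (l 3) (c (a (l 3) (b (l 3) (a (a (l 3) (l 356113187383)) (b (l 328195899799) (l 16777168))))) (l 528985621143))) (l 559587263575)) (l 348060126215))) (c (c (a (a (b (l 3) (b (a (l 3) (b (l 3) (l 249812746615))) (b (a (l 301889225079) (l 16777136)) (l 16777080)))) (a (b (l 3) (b (b (l 209547428199) (l 16777120)) (l 16776928))) (b (b (l 3) (b (l 3) (l 180019528007))) (l 16776912)))) (b (c (a (b (b (l 598778839383) (a (l 409263407591) (l 16777200))) (l 16777288)) (l 16777080)) (l 16777632)) (l 16776544))) (b (a (l 354502575991) (l 16777056)) (l 16776832))) (c (l 16778392) (l 16777080)))))))), by decide +kernel⟩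

def k107_pm_011_s : ∃ t, chk3 f_pm_011_s t 149 488 2 = true :=
  ⟨(a (l 3) (a (b (l 3) (b (l 3) (a (l 3) (c (c (a (b (l 3) (b (l 602536935879) (a (b (l 422685180391) (l 16777216)) (l 16777136)))) (b (c (b (l 3) (l 566029713815)) (l 586430808695)) (b (a (b (l 365239992759) (l 16777184)) (l 16777104)) (l 16776920)))) (b (l 605758161783) (l 16777184))) (l 16778392))))) (b (l 3) (b (b (c (c (a (l 3) (c (a (l 3) (a (a (l 3) (l 585893937607)) (b (l 3) (a (l 231559135655) (l 16777192))))) (l 527911879303))) (l 559050392727)) (l 365239995447)) (c (c (a (a (l 3) (a (l 3) (b (l 3) (b (l 3) (l 16777392))))) (c (a (b (b (l 590725775703) (a (l 401747214823) (l 16777200))) (l 16777240)) (l 16776912)) (l 16777712))) (a (l 353965705079) (l 16777056))) (l 16777320))) (c (c (a (b (a (b (a (l 3) (b (l 3) (l 271824453975))) (b (a (l 302962966903) (l 16777136)) (l 16777080))) (a (a (b (l 149954756983) (l 16776960)) (l 16777016)) (l 16776912))) (l 16776608)) (c (l 16776280) (l 16776280))) (l 16776568)) (l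 16776576)))))), by decide +kernel⟩

def k108_pm_011_s : ∃ t, chk3 f_pm_011_s t 149 489 4 = true :=
  ⟨(a (a (a (b (l 3) (b (a (b (l 3) (b (a (b (l 3) (l 277730034119)) (b (l 248202133927) (l 16777136))) (l 16777184))) (c (b (b (l 3) (a (b (l 3) (l 216526750055)) (b (l 186461978951) (l 16777104)))) (l 16776856)) (l 16777760))) (b (l 16776560) (l 16775952)))) (b (b (l 3) (c (b (l 3) (c (a (b (l 3) (l 602000064983)) (b (l 570324681111) (a (b (l 361481896375) (l 16777184)) (l 16777104)))) (l 464561111463))) (l 513416364919))) (c (b (b (a (b (a (b (l 424832664039) (l 16777384)) (l 16777304)) (l 16776952)) (l 16776792)) (l 16776416)) (l 16775632)) (l 16776152)))) (b (a (b (l 3) (b (a (a (l 3) (b (l 3) (b (l 3) (l 250349617575)))) (b (a (l 3) (b (l 3) (l 179482657143))) (b (a (l 220284846471) (l 16777104)) (l 16777048)))) (a (b (a (b (l 280414388679) (l 16777160)) (l 16777072)) (l 16776888)) (l 16776728)))) (b (b (l 3) (a (b (l 3) (b (l 603610677591) (a (l 413558374935) (l 16777368)))) (a (b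 (b (l 3) (l 339470189063)) (l 16777288)) (b (b (l 308331676135) (l 16777168)) (l 16776976))))) (c (a (a (b (b (l 16777400) (l 16776896)) (l 16776504)) (l 16776616)) (l 16776400)) (l 16776544)))) (c (c (b (l 16775792) (l 16774744)) (l 16775272)) (l 16775272)))) (b (c (a (a (b (b (b (c (a (l 3) (a (a (l 370608702023) (l 247128392135)) (l 16777336))) (l 253570843751)) (a (a (b (l 3) (l 310479159671)) (b (l 245517779335) (l 16777136))) (l 16776984))) (c (l 16776744) (l 16776744))) (l 16775960)) (c (b (l 16776416) (l 16775368)) (l 16775896))) (b (l 16775856) (l 16774488))) (a (b (a (l 16777976) (l 16776416)) (l 16775664)) (l 16775016))) (c (c (l 16773832) (l 16773512)) (l 16773512)))), by decide +kernel⟩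

def k109_pm_011_s : ∃ t, chk3 f_pm_011_s t 149 489 5 = true :=
  ⟨(a (b (a (b (l 3) (l 541333652855)) (b (l 508584526983) (l 16776832))) (c (a (l 16777752) (l 16775280)) (l 16775856))) (b (c (l 16775600) (l 16775600)) (l 16773528))), by decide +kernel⟩

def k110_pm_011_s : ∃ t, chk3 f_pm_011_s t 148 980 2 = true :=
  ⟨(b (a (l 3) (c (a (a (b (l 3) (c (b (a (l 3) (a (b (l 3) (l 209010557271)) (b (l 180556398903) (l 16777104)))) (a (a (b (l 3) (l 265918874007)) (b (l 237464715639) (l 16777136))) (l 16776976))) (l 16777888))) (c (b (a (c (b (l 600389452231) (a (b (l 401210343911) (l 16777216)) (l 16777136))) (l 218137363463)) (a (b (b (l 370608701863) (l 16777184)) (l 16776992)) (l 16777136))) (l 16776672)) (l 16777576))) (c (a (b (l 16776608) (l 16776080)) (l 16775760)) (l 16776056))) (c (a (l 126869309799) (l 16776056)) (l 16776624)))) (c (a (a (l 3) (c (b (a (l 3) (a (b (l 3) (b (l 588578292039) (a (l 419463954903) (l 16777192)))) (b (a (b (l 3) (l 356650058151)) (b (l 328195899783) (l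 16777168))) (l 16777208)))) (a (a (a (l 3) (b (l 3) (b (l 3) (l 231559135591)))) (b (a (l 3) (b (l 3) (l 16777384))) (b (a (l 192367558999) (l 16777096)) (l 16777040)))) (a (a (b (l 16777352) (l 16776888)) (l 16776872)) (l 16776648)))) (a (l 488183431911) (a (l 127406179079) (l 16776904))))) (c (c (a (a (b (l 16776736) (l 16776208)) (l 16775880)) (l 16775000)) (l 16775592)) (l 16775592))) (a (a (l 3) (a (l 279340649111) (l 16777048))) (l 16775600)))), by decide +kernel⟩

def k111_pm_011_s : ∃ t, chk3 f_pm_011_s t 148 981 2 = true :=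
  ⟨(a (c (c (a (b (b (a (l 3) (b (a (l 3) (a (l 3) (b (l 3) (l 321216577911)))) (a (c (l 588578292151) (l 394231022503)) (a (b (l 348596994455) (l 16777176)) (l 16777096))))) (a (c (a (l 3) (b (l 616495579623) (a (b (l 3) (l 204178718999)) (l 16777320)))) (l 490330915319)) (a (b (a (b (l 403357827543) (l 16777200)) (l 16777120)) (l 16776936)) (l 16776776)))) (b (a (b (a (a (b (l 3) (l 247665262967)) (b (l 209547428199) (l 16777120))) (l 16776968)) (l 16776848)) (l 16776392)) (l 16776288))) (b (c (a (a (a (b (b (b (l 270750712167) (l 16777144)) (l 16776944)) (l 16776552)) (l 16776672)) (l 16776448)) (l 16776008)) (l 16776304)) (l 16775248))) (a (b (a (l 531133105095) (b (l 251423360519) (l 16776920))) (l 16776424)) (l 16775776))) (a (b (a (l 320679709559) (l 16777168)) (l 16776424)) (l 16775784))) (c (c (c (a (l 16774928) (l 16773424)) (l 16774016)) (l 16774024)) (l 16774032))), by decide +kernel⟩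

def k112_pm_011_s : ∃ t, chk3 f_pm_011_s t 148 491 2 = true :=
  ⟨(c (c (a (b (a (b (l 16775376) (l 16774320)) (l 16773672)) (l 16772152)) (b (l 16771912) (l 16769800))) (a (b (l 16774264) (l 16772168)) (l 16770872))) (c (a (l 16773224) (l 16770888)) (l 16772072))), by decide +kernel⟩

def k113_pm_011_s : ∃ t, chk3 f_pm_011_s t 149 245 2 = true :=
  ⟨(c (a (b (c (b (b (l 16774616) (l 16773240)) (l 16771664)) (l 16773384)) (c (l 16768504) (l 16768528))) (b (b (l 16772072) (l 16769328)) (l 16766176))) (b (c (l 16771568) (l 16771576)) (l 16767408))), by decide +kernel⟩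

def k114_pm_011_s : ∃ t, chk3 f_pm_011_s t 75 244 2 = true :=
  ⟨(c (a (b (a (b (a (b (l 3) (b (c (a (l 3) (a (b (l 3) (l 589115163079)) (c (b (l 556902908295) (b (a (l 339470188967) (l 16777160)) (l 16777104))) (l 191830688711)))) (l 515563848599)) (b (a (l 3) (a (a (b (l 377051152951) (l 16777376)) (l 16777296)) (l 16776912))) (a (a (l 3) (c (a (b (l 3) (l 16777384)) (l 16777408)) (l 16777224))) (l 16776800))))) (b (a (c (b (l 3) (b (a (l 3) (a (l 3) (a (l 316384739895) (l 193441300919)))) (a (a (l 3) (b (l 3) (l 252497101127))) (c (l 16777344) (l 16777104))))) (l 486035948263)) (c (b (a (c (a (l 607368774199) (b (l 3) (a (l 264845132247) (l 16777376)))) (l 298668000487)) (b (a (a (l 3) (l 323364061767)) (a (l 206863073719) (l 16777184))) (l 16777032))) (a (c (l 16777104) (l 16776936)) (l 16776648))) (l 16778024))) (c (b (b (a (b (a (a (l 285246226791) (l 16777128)) (l 16776904)) (l 16776928)) (l 16776400)) (l 16776432)) (l 16776048)) (l 16776304)))) (c (a (b (a (b (b (a (a (b (l 3)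 (l 268603228567)) (b (l 270213841223) (l 16777136))) (l 16776976)) (l 16776864)) (l 16776472)) (l 16776144)) (l 16775400)) (c (l 16775072) (l 16774744))) (a (l 16775920) (l 16774744)))) (c (b (c (a (b (b (l 16776552) (l 16775912)) (l 16775128)) (l 16774472)) (l 16775312)) (l 16773472)) (b (l 16775064) (l 16772984)))) (c (a (b (c (l 16773248) (l 16773248)) (l 16771160)) (l 16770512)) (a (l 16772208) (l 16769864)))) (b (c (a (b (l 16772712) (l 16770632)) (l 16769320)) (l 16771488)) (c (l 16766328) (l 16766352)))) (a (b (a (b (b (a (l 3) (l 157470952327)) (a (c (l 191293819719) (l 16777424)) (l 16776304))) (l 16775336)) (c (l 16774032) (l 16774032))) (c (l 16771048) (l 16771064))) (b (l 16771504) (l 16766392)))), by decide +kernel⟩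

def k115_pm_011_s : ∃ t, chk3 f_pm_011_s t 75 245 2 = true :=
  ⟨(c (b (a (c (l 16768152) (l 16766864)) (l 16762168)) (a (l 16762656) (l 16757968))) (c (a (l 16764816) (l 16760152)) (a (l 16764848) (l 16760216)))), by decide +kernel⟩

def k116_pm_011_s : ∃ t, chk3 f_pm_011_s t 37 122 3 = true :=
  ⟨(a (b (b (a (l 3) (a (l 3) (b (l 3) (c (c (a (l 310479164567) (l 16777064)) (l 168208373239)) (c (l 167671501015) (l 167671502311)))))) (b (a (l 3) (c (c (a (a (l 570324682999) (l 146196663991)) (l 16775600)) (a (l 201494370263) (l 16775608))) (a (a (l 349670742071) (l 16778600)) (l 16775608)))) (a (a (l 3) (c (a (a (l 3) (l 636359805111)) (c (l 189683207031) (l 16777528))) (a (l 646560352919) (l 182703886967)))) (c (c (l 16776008) (l 16774696)) (l 16774704))))) (a (b (b (a (c (c (c (l 504289560663) (l 500531464263)) (l 494089013319)) (l 496236496951)) (c (c (l 16776104) (l 16776112)) (l 16776112))) (c (c (c (l 16775192) (l 16777160)) (l 16775200)) (a (l 16777664) (l 16774064)))) (c (c (l 16772088)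 (l 16772104)) (l 16772128))) (c (c (b (l 16771592) (l 16767456)) (l 16769544)) (b (l 16771624) (l 16767544))))) (b (c (a (a (b (b (c (a (l 256255202135) (l 16776808)) (l 16779936)) (l 16775344)) (l 16772240)) (b (c (l 16774040) (l 16774040)) (l 16769920))) (c (b (l 16770536) (l 16766424)) (l 16768496))) (b (a (a (a (b (l 249275880743) (l 16775928)) (l 16775784)) (l 16774048)) (l 16770560)) (a (l 16771104) (l 16766496)))) (c (c (a (l 16764888) (l 16760280)) (l 16762632)) (a (l 16765000) (l 16760440))))), by decide +kernel⟩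

def k117_pm_011_s : ∃ t, chk3 f_pm_011_s t 37 123 1 = true :=
  ⟨(c (c (a (b (b (a (c (a (l 16768984) (l 16766632)) (l 16767832)) (l 16763128)) (a (l 16764888) (l 16758888))) (c (a (l 16757128) (l 16752416)) (l 16757512))) (b (b (l 16758720) (l 16751864)) (l 16748088))) (a (b (a (b (l 16767888) (l 16763696)) (a (l 16763616) (l 16759992))) (c (l 16755016) (l 16757776))) (b (c (l 16754144) (l 16754264)) (c (l 16745760) (l 16745976))))) (c (a (a (b (b (l 16767952) (l 16763824)) (l 16757648)) (b (l 16761952) (l 16753096))) (b (c (l 16754384) (l 16754504)) (l 16746312))) (a (b (a (b (l 16768032) (l 16763968)) (l 16761464)) (l 16755688)) (b (l 16754712) (l 16746808))))), by decide +kernel⟩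

def k118_pm_011_s : ∃ t, chk3 f_pm_011_s t 76 120 1 = true :=
  ⟨(l 3), by decide +kernel⟩

def k119_pm_011_s : ∃ t, chk3 f_pm_011_s t 77 240 1 = true :=
  ⟨(a (l 3) (a (l 3) (b (l 3) (b (l 3) (b (a (l 3) (a (l 3) (a (l 3) (b (l 3) (c (c (b (l 3) (a (l 330880254695) (l 16777368))) (l 16777384)) (l 16777224)))))) (c (c (b (a (l 3) (b (a (l 3) (a (a (l 374366798647) (l 190756946471)) (l 16777024))) (a (b (l 611126870663) (a (l 3) (l 250886488711))) (l 16777080)))) (a (a (l 3) (a (l 3) (b (l 3) (l 564955972007)))) (c (a (a (b (a (l 3) (l 313163514471)) (l 16777480)) (l 16777312)) (l 16776544)) (l 16776832)))) (a (l 394767896999) (l 16777072))) (c (c (l 16777600) (l 16777376)) (l 16777008)))))))), by decide +kernel⟩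

def k120_pm_011_s : ∃ t, chk3 f_pm_011_s t 154 482 1 = true :=
  ⟨(a (l 3) (a (l 3) (a (l 3) (b (l 3) (b (l 3) (c (c (b (a (l 3) (b (l 3) (l 549386715527))) (c (a (b (l 604147548615) (a (l 257865810455) (l 16777136))) (a (b (l 199346880983) (l 16776992)) (l 16776976))) (l 16777184))) (l 16777408)) (c (l 16777408) (l 16777184)))))))), by decide +kernel⟩

def k121_pm_011_s : ∃ t, chk3 f_pm_011_s t 308 483 1 = true :=
  ⟨(b (a (l 3) (a (l 3) (b (l 3) (a (l 3) (b (l 3) (c (c (c (b (l 3) (a (l 290614936135) (l 16777168))) (l 16777344)) (l 16777344)) (l 16777312))))))) (c (c (c (a (a (b (l 3) (a (b (l 3) (b (l 3) (a (l 313163514487) (l 16777184)))) (b (c (l 606295032519) (l 402820957607)) (a (b (l 264308261415) (l 16777040)) (l 16777016))))) (b (b (l 3) (c (a (l 3) (a (l 3) (l 542944264615))) (l 574619648823))) (b (c (a (b (l 565492842903) (a (l 193978171879) (l 16777104))) (b (l 16777384) (l 16776888))) (l 16777152)) (l 16776656)))) (b (a (a (b (l 3) (b (a (l 3) (l 250349617687)) (l 16777104)))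 (b (a (l 597168226855) (b (l 3) (l 200420622791))) (l 16776936))) (b (b (a (a (l 340543931031) (l 16777368)) (l 16776984)) (l 16776880)) (l 16776496))) (c (l 16776024) (l 16776024)))) (a (b (l 606295033623) (a (l 229948524791) (l 16776904))) (a (b (l 179482658759) (l 16776320)) (l 16776240)))) (a (b (l 612200613639) (l 16777184)) (l 16776520))) (c (c (l 16779376) (l 16777080)) (l 16777072)))), by decide +kernel⟩

def k122_pm_011_s : ∃ t, chk3 f_pm_011_s t 309 483 1 = true :=
  ⟨(c (c (c (b (a (a (b (l 3) (a (b (c (l 596631356055) (l 397989119351)) (a (b (l 233706619399) (l 16777016)) (l 16777000))) (b (b (l 542944264551) (a (l 183240753591) (l 16777088))) (l 16776776)))) (b (b (l 3) (b (a (l 3) (a (l 397989118711) (l 221358588391))) (a (a (l 3) (l 272361325111)) (l 16777080)))) (c (b (c (l 16777088) (l 16776848)) (l 16776336)) (l 16776592)))) (b (a (b (b (a (l 3) (a (l 309405418087) (l 16777176))) (a (a (l 359871283895) (l 16777376)) (l 16777000))) (l 16776768)) (l 16776432)) (l 16775712)))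 (a (b (l 16775992) (l 16774848)) (l 16774184))) (b (a (b (l 513416365271) (l 16778184)) (l 16776872)) (l 16774768))) (b (a (b (l 305647325015) (l 16776872)) (l 16776208)) (l 16774768))) (c (c (b (l 16776776) (l 16774760)) (l 16775760)) (l 16775752))), by decide +kernel⟩

def k123_pm_011_s : ∃ t, chk3 f_pm_011_s t 155 482 1 = true :=
  ⟨(b (a (b (l 3) (a (l 3) (c (c (a (b (l 3) (a (b (l 3) (l 606831903207)) (b (l 560124133783) (a (l 206863073847) (l 16777112))))) (c (b (a (a (l 3) (b (l 3) (l 299741741671))) (b (a (l 3) (l 247128392215)) (l 16777104))) (a (b (l 16777472) (l 16776888)) (l 16776720))) (l 16777112))) (l 16777376)) (c (l 16777368) (l 16777152))))) (c (a (c (a (b (a (b (l 3) (b (l 3) (a (l 377051153191) (l 185925108247)))) (b (l 3) (b (a (l 320679707367) (l 16777360)) (l 16777024)))) (c (c (l 16776696) (l 16776536)) (l 16776536))) (b (b (a (b (l 611663741415) (a (l 268603228823) (l 16777160))) (a (b (l 215453008455) (l 16777016)) (l 16776992))) (l 16776704)) (l 16776272))) (l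 16778040)) (c (c (c (b (l 16776080) (l 16775064)) (l 16775568)) (l 16775568)) (l 16775568))) (c (l 16778104) (l 16776136)))) (c (b (c (c (a (b (b (a (l 3) (a (b (a (l 250349617703) (l 16776992)) (l 16777016)) (l 16776488))) (a (a (l 3) (a (l 3) (a (l 327122158199) (l 16777192)))) (l 16776528))) (a (b (a (l 3) (a (a (l 379198636743) (l 181630140855)) (l 16777016))) (a (a (l 3) (a (l 3) (l 234243490311))) (l 16776904))) (l 16776152))) (l 16774968)) (a (a (a (l 567640327335) (l 16778080)) (l 16776400)) (l 16774632))) (a (c (l 16778936) (l 16776968)) (l 16774632))) (c (a (c (a (a (b (a (b (a (l 3) (l 286319968855)) (l 16777456)) (l 16777128)) (l 16776608)) (l 16776272)) (l 16775384)) (l 16775976)) (l 16773952)) (l 16774792))) (c (c (l 16775288) (l 16775280)) (l 16775272)))), by decide +kernel⟩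

def k124_pm_011_s : ∃ t, chk3 f_pm_011_s t 155 483 1 = true :=
  ⟨(c (c (c (a (b (c (a (l 16775368) (l 16773864)) (l 16774448)) (l 16772416)) (c (l 16771088) (l 16771088))) (a (l 16773432) (l 16771088))) (c (l 16772256) (l 16772256))) (c (c (l 16772248) (l 16772240)) (l 16772232))), by decide +kernel⟩

def k125_pm_011_s : ∃ t, chk3 f_pm_011_s t 152 242 2 = true :=
  ⟨(b (l 3) (a (b (l 3) (a (l 3) (c (a (b (l 3) (b (l 3) (c (a (c (a (l 579451486727) (b (l 3) (l 149954757031))) (l 280951260327)) (b (a (a (l 396378505831) (l 271287583239)) (l 16777352)) (l 16777000))) (l 16777256)))) (c (b (a (l 3) (b (l 3) (b (l 3) (l 573545906583)))) (b (a (b (l 607905645031) (a (a (l 334101480007) (l 209547428295)) (l 16777152))) (a (b (a (l 270750712327) (l 16777384)) (l 16777000)) (l 16776984))) (l 16776688))) (b (l 613811225943) (l 16776944)))) (b (l 625085515607) (l 16778512))))) (c (b (a (b (l 3) (c (a (l 3) (b (l 3) (c (a (l 3) (a (l 581062099447) (b (l 3) (l 145659789735)))) (l 522543170167))))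 (l 569250940503))) (a (b (l 3) (c (b (a (l 3) (b (l 610589999575) (a (a (l 327659029063) (l 210084299191)) (l 16777144)))) (b (a (a (c (l 298667999847) (l 16777320)) (l 16777344)) (l 16776960)) (l 16776856))) (l 144049178375))) (b (b (l 3) (c (a (b (l 3) (l 566029713815)) (b (l 526301266263) (a (l 161765917079) (l 16777072)))) (l 16777392))) (c (c (b (a (a (b (l 192904430055) (l 16777000)) (l 16776984)) (l 16776760)) (l 16776392)) (l 16776648)) (l 16776648))))) (c (a (b (b (b (a (l 3) (a (c (a (l 380272378615) (l 198273139175)) (l 16777320)) (l 16777040))) (a (a (l 3) (a (l 3) (a (l 332490867271) (l 206863073735)))) (l 16777088))) (a (c (a (b (l 536501813591) (a (l 149417886119) (l 16777072))) (c (l 16777232) (l 16776984))) (l 16777776)) (l 16776544))) (c (l 16776144) (l 16776064))) (c (b (l 16775920) (l 16774888)) (l 16775400))) (a (a (c (b (l 196662527879) (l 16776360)) (l 16778168)) (l 16776280)) (l 16775400)))) (b (a (l 601463196119) (b (l 321753452455) (l 16776936))) (c (l 16777296)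 (l 16775984)))))), by decide +kernel⟩

def k126_pm_011_s : ∃ t, chk3 f_pm_011_s t 153 484 2 = true :=
  ⟨(b (a (l 3) (a (b (l 3) (c (a (c (b (l 3) (b (l 3) (a (l 3) (a (l 332490867351) (l 16777368))))) (l 544018007079)) (c (a (b (l 3) (a (b (l 285246227015) (l 16777056)) (l 16777200))) (b (b (l 581062099383) (a (l 230485393927) (l 16777128))) (l 16776816))) (l 16778096))) (l 203641851095))) (a (c (b (b (l 3) (c (a (b (l 3) (l 545091748199)) (b (a (l 3) (l 276119421495)) (l 16777368))) (l 16777368))) (b (c (a (a (b (l 182703882679) (l 16776976)) (l 16776960)) (l 16776736)) (l 16776888)) (l 16776376))) (l 54391737527)) (c (c (b (b (b (a (l 3) (a (l 368461218487) (l 171966464423))) (a (a (l 392620409607) (l 220821717495)) (l 16777040))) (c (l 16776968) (l 16776808))) (l 16776040)) (l 16777528)) (l 16776544))))) (a (a (c (b (l 3) (c (a (l 3) (b (l 3) (b (c (a (l 3) (a (l 284172485223) (l 16777176))) (l 262160778359)) (a (a (l 349133865639) (l 153175982487)) (l 16776992))))) (l 492478398887)))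 (l 529522493367)) (c (c (a (b (a (l 3) (b (l 3) (b (l 3) (l 556366037383)))) (b (b (a (l 597168226759) (a (l 196125655511) (l 16777096))) (b (a (a (l 423222051303) (l 16777200)) (l 16776984)) (l 16777000))) (l 16776680))) (b (b (a (l 3) (a (l 3) (b (l 3) (l 245517779463)))) (c (a (b (a (l 3) (l 278266905175)) (l 16777376)) (l 16777136)) (l 16777112))) (l 16776352))) (b (a (l 609516258615) (l 189146335239)) (l 16776640))) (b (l 244980911527) (l 16776640)))) (c (c (a (b (a (b (b (a (a (l 386714829527) (l 190756946375)) (l 16777024)) (l 16776912)) (l 16776528)) (l 16776192)) (l 16775464)) (c (l 16774800) (l 16774800))) (l 16776040)) (l 16775384)))), by decide +kernel⟩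

def k127_pm_011_s : ∃ t, chk3 f_pm_011_s t 153 485 2 = true :=
  ⟨(c (c (a (b (a (b (a (c (a (b (a (l 3) (b (l 3) (l 238538457639))) (l 16777224)) (b (b (a (l 380809249511) (l 192367559127)) (l 16777072)) (l 16776688))) (c (b (l 193441301191) (l 16776832)) (l 16777896))) (c (l 16776664) (l 16776496))) (l 16775888)) (b (l 16775616) (l 16774592))) (c (l 16774296) (l 16773640))) (b (c (l 16773336) (l 16773336)) (l 16771288))) (a (b (a (b (l 16777440) (l 16775768)) (l 16775104)) (l 16773640)) (l 16772312))) (c (a (l 16775976) (l 16772320)) (l 16773488))), by decide +kernel⟩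

def k128_pm_011_s : ∃ t, chk3 f_pm_011_s t 76 243 2 = true :=
  ⟨(c (b (a (a (a (b (b (a (c (b (l 3) (b (a (l 3) (l 534891200855)) (a (l 573009035671) (a (a (l 207936815559) (l 16777184)) (l 16777072))))) (l 502142075703)) (c (b (b (a (l 3) (a (a (l 3) (l 396378505831)) (a (l 271287583239) (l 16777384)))) (a (b (l 3) (a (l 3) (l 16777224))) (l 16777072))) (c (c (a (l 16777232) (l 16776688)) (l 16776840)) (l 16776840))) (l 16777736))) (c (c (a (a (b (a (a (b (l 280951259607) (l 16777040)) (l 16777336)) (l 16776984)) (l 16776544)) (l 16776504)) (l 16776064)) (l 16776360)) (l 16776360))) (c (c (l 16775136) (l 16774808)) (l 16774808))) (c (b (c (b (a (c (l 16776672) (l 16776504)) (l 16775920)) (l 16775184)) (l 16775696)) (l 16773632)) (l 16774664))) (c (b (a (l 16774928) (l 16773344)) (l 16771872)) (l 16772904))) (a (b (l 16772240) (l 16769528)) (l 16769192))) (a (c (c (a (l 16771776) (l 16768768)) (l 16771256)) (l 16769952)) (c (l 16765248) (l 16765272)))) (a (b (a (a (b (b (l 169818983399)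 (l 16776360)) (l 16774816)) (l 16774672)) (l 16772912)) (l 16769968)) (b (l 16769392) (l 16765296)))), by decide +kernel⟩

def k129_pm_011_s : ∃ t, chk3 f_pm_011_s t 77 121 2 = true :=
  ⟨(b (b (c (a (c (a (b (c (a (b (c (l 16776184) (l 16776184)) (l 16775160)) (l 16774496)) (l 16775080)) (l 16773688)) (c (l 16772448) (l 16771712))) (a (b (l 16775080) (l 16773040)) (l 16771712))) (c (c (l 16768184) (l 16768192)) (l 16768192))) (a (c (l 16772880) (l 16772880)) (l 16768192))) (c (a (c (c (l 16769776) (l 16768792)) (l 16768800)) (l 16765424)) (a (l 16768800) (l 16764136)))) (c (a (b (l 16766008) (l 16760584)) (a (l 16759144) (l 16756816))) (c (l 16762968) (l 16760376)))), by decide +kernel⟩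

def k130_pm_011_s : ∃ t, chk3 f_pm_011_s t 38 121 3 = true :=
  ⟨(a (b (a (b (l 3) (a (a (l 3) (c (c (l 503752690359) (l 498383981223)) (l 497310239399))) (b (c (c (c (l 231022270327) (l 225116690279)) (l 216526756023)) (l 217063627527)) (c (c (l 16775984) (l 16775984)) (l 16775976))))) (b (a (b (l 3) (c (c (c (l 195051918647) (l 188072596791)) (l 16777632)) (l 178408921351))) (b (c (c (l 145122921127) (l 16777344)) (l 16779896)) (c (l 16775384) (l 16775384)))) (c (c (l 16773488) (l 16773488)) (l 16773488)))) (c (a (b (c (a (l 16777208) (l 16772912)) (l 16774072)) (l 16769984)) (c (l 16767360) (l 16767368))) (a (b (a (l 16775248) (l 16772912)) (l 16770000)) (l 16767384)))) (c (b (c (a (b (l 16772880) (l 16768808)) (l 16766168)) (a (l 16770840) (l 16766168))) (c (l 16760400) (l 16760424))) (b (a (b (l 16772872) (l 16768808)) (l 16766168)) (l 16760464)))), by decide +kernel⟩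

def k131_pm_011_s : ∃ t, chk3 f_pm_011_s t 156 120 4 = true :=
  ⟨(b (b (a (l 3) (b (l 3) (b (a (l 3) (b (c (a (l 3) (a (l 552607941175) (b (c (l 305647321847) (l 16777344)) (l 16777104)))) (l 287930583623)) (c (a (a (l 605758161623) (b (l 373293056999) (l 16777480))) (c (l 16777200) (l 16776872))) (l 16777160)))) (b (b (a (l 3) (a (a (a (l 274508808855) (l 16777160)) (l 16776944)) (l 16776496))) (a (a (l 3) (a (l 3) (a (l 329806512871) (l 16777200)))) (l 16776544))) (a (c (a (c (a (l 3) (l 527375008247)) (l 373293057751)) (a (b (a (l 384567345895) (l 16777240)) (l 16777072)) (l 16776904))) (l 16778296)) (l 16776160)))))) (b (a (a (a (l 3) (c (b (l 3) (c (b (l 3) (a (l 557976650311) (b (a (l 3) (l 243370295847)) (l 16777112)))) (l 485499077367))) (l 533280589447))) (c (a (b (l 3) (b (b (a (l 3) (a (l 344302027415) (l 16777208))) (a (a (l 386714829543) (l 16777408)) (l 16777024))) (l 16776800))) (b (a (b (l 3) (a (l 524690653591) (b (l 3) (l 16777160)))) (b (l 583209583255) (b (l 56002347543)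 (l 16776944)))) (l 16776456))) (b (l 476372272087) (l 16776752)))) (c (a (b (c (a (a (b (b (l 354502574919) (l 16777152)) (l 16776776)) (l 16776896)) (l 16776288)) (l 16776584)) (l 16775576)) (l 16775312)) (l 16775488))) (a (c (b (a (a (b (c (a (l 3) (b (l 577304002983) (l 38285607447))) (l 262697649735)) (b (a (a (l 286319968839) (l 16777160)) (l 16776944)) (l 16776840))) (c (c (b (l 16777208) (l 16776376)) (l 16776624)) (l 16776624))) (l 16775744)) (a (l 16775912) (l 16774736))) (a (b (l 16778224) (l 16775912)) (l 16775240))) (c (l 16774128) (l 16773472))))) (b (c (a (c (b (l 16773808) (l 16771784)) (l 16772792)) (l 16771104)) (a (l 16772792) (l 16770440))) (c (l 16768880) (l 16767568)))), by decide +kernel⟩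

def k132_pm_011_s : ∃ t, chk3 f_pm_011_s t 157 120 4 = true :=
  ⟨(c (b (b (a (a (b (b (a (l 3) (a (l 3) (b (l 3) (l 577304003191)))) (b (a (l 3) (a (b (l 605221290471) (l 162302788183)) (c (l 16777384) (l 16777056)))) (a (a (c (c (l 496773366167) (l 309942289527)) (l 16777416)) (b (l 205252461223) (l 16777024))) (l 16776704)))) (c (b (l 16776408) (l 16775240)) (l 16775744))) (b (b (a (a (b (l 3) (b (l 325511545735) (l 16777144))) (b (c (l 519858815447) (l 16777448)) (l 16776976))) (b (b (a (l 239612199655) (l 16777016)) (l 16776912)) (l 16776536))) (l 16776072)) (l 16774568))) (b (c (a (l 16775560) (l 16774224)) (l 16774808)) (l 16772800))) (a (b (l 16773144) (l 16771128)) (l 16769792))) (b (l 16766936) (l 16762896))) (b (b (b (a (a (b (l 611663742823) (c (l 145122920711) (l 16777216))) (c (l 16778080) (l 16776568))) (l 16774808)) (l 16773976)) (l 16770960)) (l 16764920))), by decide +kernel⟩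

def k133_pm_011_s : ∃ t, chk3 f_pm_011_s t 79 120 4 = true :=
  ⟨(b (b (a (a (b (l 16773104) (l 16770448)) (l 16770064)) (l 16766832)) (c (a (l 16766264) (l 16761520)) (l 16763888))) (c (a (l 16760240) (l 16755504)) (l 16757880))), by decide +kernel⟩

def k134_pm_011_s : ∃ t, chk3 f_pm_011_s t 39 120 5 = true :=
  ⟨(a (b (a (a (b (l 3) (b (c (a (l 549386717335) (l 145659792919)) (l 211694917479)) (l 16775816))) (b (b (l 3) (a (c (l 285783102535) (l 284709360695)) (l 16778216))) (l 16775784))) (b (b (a (a (c (l 228874785207) (l 16777664)) (l 16776568)) (l 16774800)) (l 16773968)) (l 16770952))) (a (b (l 16771608) (l 16767568)) (l 16766224))) (b (b (a (l 16770248) (l 16765496)) (l 16763872)) (c (l 16757880) (l 16757880)))), by decide +kernel⟩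

def k135_pm_011_s : ∃ t, chk3 f_pm_011_s t 39 120 3 = true :=
  ⟨(a (a (b (b (c (c (b (l 3) (l 481740981847)) (l 574082777255)) (l 629917348471)) (a (c (c (c (l 16780064) (l 30232549431)) (l 16776784)) (c (l 16779400) (l 16776776))) (c (l 16774464) (l 16774448)))) (c (c (l 16769576) (l 16769568)) (l 16769552))) (b (b (c (c (a (l 16779728) (l 16773784)) (l 16774944)) (a (l 16776112) (l 16773760))) (c (l 16770928) (l 16770904))) (c (l 16766216) (l 16764872)))) (c (b (c (a (l 16768224) (l 16763472)) (l 16765832)) (l 16759840)) (b (a (l 16768168) (l 16763400)) (l 16757848)))), by decide +kernel⟩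

def k136_pm_011_s : ∃ t, chk3 f_pm_011_s t 39 121 1 = true :=
  ⟨(c (c (a (a (b (b (l 16763512) (l 16759448)) (l 16753328)) (b (l 16759456) (l 16748712))) (b (l 16752464) (l 16741760))) (a (b (c (l 16759200) (l 16759208)) (c (l 16751120) (l 16751176))) (b (l 16749920) (l 16741952)))) (c (a (b (c (l 16759224) (l 16759232)) (l 16751264)) (b (l 16749984) (l 16742136))) (a (b (l 16759248) (l 16751376)) (l 16746168)))), by decide +kernel⟩

def k137_pm_011_s : ∃ t, chk3 f_pm_011_s t 19 61 1 = true :=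
  ⟨(c (a (b (c (a (b (c (a (b (l 16765800) (l 16761632)) (l 16759032)) (a (l 16765064) (l 16759080))) (c (l 16755640) (l 16753104))) (b (c (l 16752032) (l 16752104)) (l 16743768))) (a (a (b (a (l 16764960) (l 16762632)) (l 16755552)) (b (l 16759152) (l 16750944))) (b (c (l 16752184) (l 16752256)) (l 16744064)))) (c (a (b (l 16744648) (l 16736152)) (b (l 16735392) (l 16726920))) (a (b (l 16745000) (l 16736712)) (b (l 16735880) (l 16727648))))) (b (c (a (b (l 16742840) (l 16734576)) (l 16734776)) (a (b (l 16743080) (l 16734992)) (l 16733248))) (c (a (l 16727288) (l 16712960)) (a (l 16722808) (l 16713880))))) (a (b (b (c (a (c (l 16762840) (l 16761568)) (l 16752376)) (a (a (l 16763920) (l 16759344)) (l 16752544))) (c (a (l 16753448) (l 16744376)) (a (l 16753664) (l 16744720)))) (a (b (a (l 16747824) (l 16743352)) (l 16737680)) (b (l 16736696) (l 16728904)))) (b (c (a (b (l 16743336) (l 16735448)) (l 16730432)) (a (l 16739752) (l 16730920))) (c (a (l 16723656) (l 16714904)) (l 16719648))))),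 by decide +kernel⟩

def k138_pm_011_s : ∃ t, chk3 f_pm_011_s t 18 62 1 = true :=
  ⟨(c (a (b (c (a (b (b (a (c (a (b (l 16771744) (l 16769584)) (l 16768304)) (a (l 16770696) (l 16768352))) (c (l 16764768) (l 16764840))) (a (c (l 16765136) (l 16765208)) (l 16760456))) (b (a (l 16760816) (l 16756088)) (l 16756672))) (b (b (a (l 16760104) (l 16755400)) (l 16756016)) (b (l 16749008) (l 16744592)))) (a (b (a (b (c (l 16769568) (l 16769616)) (c (l 16765288) (l 16765376))) (b (l 16766264) (l 16760696))) (c (a (l 16758840) (l 16754184)) (a (l 16759000) (l 16754400)))) (a (b (b (l 16760320) (l 16756072)) (l 16749664)) (b (l 16754888) (l 16745056))))) (c (b (a (b (l 16749616) (l 16745152)) (l 16743144)) (a (b (l 16730168) (l 16725632)) (l 16728848))) (a (b (c (l 16747840) (l 16748168)) (l 16739320)) (b (l 16738768) (l 16730096))))) (b (c (b (a (b (l 16748360) (l 16744000)) (l 16736824)) (a (l 16737400) (l 16728048))) (a (b (c (l 16746528) (l 16746784)) (l 16738160)) (b (l 16737480) (l 16729024))))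 (c (b (a (l 16728472) (l 16719128)) (a (l 16698432) (l 16689088))) (a (b (l 16729592) (l 16720944)) (l 16716200))))) (a (b (b (a (c (a (b (c (l 16769664) (l 16769712)) (l 16765512)) (b (l 16765120) (l 16760968))) (a (b (l 16769792) (l 16765704)) (b (l 16765312) (l 16761264)))) (c (a (l 16758496) (l 16753960)) (a (l 16758832) (l 16754392)))) (a (c (c (l 16757552) (l 16757104)) (a (l 16759632) (l 16755248))) (c (l 16747984) (l 16748680)))) (b (a (c (a (l 16750928) (l 16746456)) (l 16749456)) (c (l 16739752) (l 16740840))) (a (c (l 16740376) (l 16741552)) (l 16732272)))) (b (b (a (c (l 16747184) (l 16747768)) (c (l 16738208) (l 16739024))) (a (c (l 16739016) (l 16739968)) (l 16730720))) (c (a (l 16726776) (l 16717992)) (a (l 16727840) (l 16718552)))))), by decide +kernel⟩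

def k139_pm_011_s : ∃ t, chk3 f_pm_011_s t 18 63 1 = true :=
  ⟨(c (a (b (c (a (b (b (l 16710568) (l 16705952)) (l 16698960)) (b (l 16698688) (l 16689344))) (b (a (l 16730552) (l 16721336)) (l 16722312))) (a (c (b (l 16689488) (l 16679840)) (l 16713392)) (b (l 16702104) (l 16692704)))) (b (a (c (l 16710768) (l 16707792)) (b (l 16701960) (l 16692848))) (c (b (l 16665600) (l 16655872)) (l 16695848)))) (b (a (b (a (c (l 16732032) (l 16733568)) (l 16724264)) (a (l 16724728) (l 16716248))) (b (a (l 16715728) (l 16707256)) (a (l 16707816) (l 16699032)))) (a (b (a (l 16716592) (l 16708192)) (a (l 16708408) (l 16700096))) (b (l 16695576) (l 16687480))))), by decide +kernel⟩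

def k140_pm_011_s : ∃ t, chk3 f_pm_011_s t 19 31 1 = true :=
  ⟨(b (c (b (a (c (b (a (l 16727528) (l 16718328)) (l 16719416)) (a (l 16726800) (l 16715208))) (c (a (l 16704936) (l 16695944)) (l 16701968))) (a (c (a (l 16705368) (l 16696232)) (a (l 16707216) (l 16698344))) (c (l 16682816) (l 16685296)))) (b (a (c (a (l 16725320) (l 16716584)) (a (l 16726272) (l 16716848))) (c (l 16703704) (l 16702336))) (a (c (l 16705000) (l 16704264)) (c (l 16687824) (l 16684472))))) (c (b (a (c (l 16692872) (l 16685464)) (c (l 16664584) (l 16668240))) (a (c (l 16663312) (l 16667704)) (c (l 16645696) (l 16650712)))) (b (a (c (l 16688968) (l 16686592)) (l 16669056)) (a (c (l 16672712) (l 16668792)) (l 16652024))))), by decide +kernel⟩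

def k141_pm_011_s : ∃ t, chk3 f_pm_011_s t 20 28 1 = true :=
  ⟨(l 3), by decide +kernel⟩

def k142_pm_011_s : ∃ t, chk3 f_pm_011_s t 21 28 1 = true :=
  ⟨(b (l 3) (a (a (l 3) (b (l 3) (b (l 3) (c (b (a (l 3) (c (b (l 731922819207) (a (l 750713302871) (a (l 133311762263) (l 16776016)))) (l 567103450055))) (a (c (a (l 3) (b (l 3) (c (l 444696886423) (l 194515048103)))) (l 704542400759)) (c (a (b (a (a (l 684141312135) (l 203641851479)) (l 16776544)) (l 16775152)) (l 16773616)) (l 16774912)))) (c (a (l 720111657831) (b (c (l 224042955895) (l 16773752)) (l 16774872))) (c (l 508584515863) (l 517711320423))))))) (a (b (a (l 3) (b (l 3) (a (l 3) (b (l 3) (b (l 3) (c (l 678235730215) (l 326048424263))))))) (b (a (b (l 3) (c (a (c (l 653002796679) (l 656760891543)) (b (a (l 649244701943) (l 95730798615)) (l 16775624))) (c (c (l 16781192) (l 16775808)) (l 16775600)))) (c (b (a (b (l 728164723559) (b (l 197736272807) (l 16776584))) (c (c (l 16778120) (l 16775536)) (l 16775544))) (c (l 16772744)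 (l 16772824))) (c (c (l 16774768) (l 16774736)) (l 16774688)))) (c (c (a (b (c (a (l 16775088) (l 16772496)) (l 16773872)) (l 16769784)) (l 16771920)) (a (l 16771880) (l 16766840))) (c (c (l 16769272) (l 16769192)) (l 16769064))))) (b (a (b (l 3) (b (a (l 3) (c (c (l 538649293687) (l 241222821655)) (b (l 370071840503) (l 16779312)))) (c (b (a (a (l 725480370151) (l 155323470471)) (l 16775456)) (c (l 16774680) (l 16774728))) (c (l 16775680) (l 16775632))))) (b (b (l 3) (c (b (l 686825661367) (a (l 697026210919) (l 16776328))) (c (c (l 16774504) (l 16774264)) (l 16773904)))) (c (c (b (c (a (l 16778472) (l 16773208)) (l 16774592)) (l 16770496)) (l 16772632)) (c (l 16772544) (l 16772424))))) (c (b (c (a (c (l 16769520) (l 16769696)) (l 16764416)) (l 16767216)) (c (l 16758944) (l 16759256))) (c (b (l 16767040) (l 16758944)) (l 16762664))))))), by decide +kernel⟩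

def k143_pm_011_s : ∃ t, chk3 f_pm_011_s t 40 58 1 = true :=
  ⟨(l 3), by decide +kernel⟩

def k144_pm_011_s : ∃ t, chk3 f_pm_011_s t 41 116 1 = true :=
  ⟨(b (l 3) (b (l 3) (a (l 3) (c (a (l 3) (c (b (c (l 745881465895) (l 745881464551)) (a (l 759840110167) (b (a (a (l 3) (l 16778376)) (l 16776496)) (l 16776112)))) (c (l 550997324343) (l 568177192711)))) (c (c (l 711521717879) (l 705079264887)) (l 701321165479)))))), by decide +kernel⟩

def k145_pm_011_s : ∃ t, chk3 f_pm_011_s t 41 234 1 = true :=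
  ⟨(a (a (l 3) (a (l 3) (a (l 3) (b (l 3) (c (c (b (l 3) (a (l 654613413079) (b (l 3) (l 16777032)))) (l 666424570663)) (c (l 294373041639) (l 16773832))))))) (c (a (b (c (a (l 3) (c (b (l 3) (b (l 574619647255) (a (l 528448749191) (l 16776424)))) (l 553144809591))) (l 658371504663)) (b (a (c (a (l 763598207639) (b (l 624011771207) (l 22179481607))) (l 229411658455)) (c (c (l 16775536) (l 16775552)) (l 16775544))) (c (b (a (a (a (l 217063622871) (l 16776808)) (l 16775888)) (l 16774056)) (l 16774936)) (l 16774768)))) (c (b (a (b (c (a (b (l 773798755367) (l 142438566103)) (l 16777776)) (l 82309026327)) (l 16775080)) (c (l 16773584) (l 16773640))) (c (l 16770816) (l 16770888))) (b (c (l 16774848) (l 16774832)) (l 16770848)))) (c (a (b (l 665350823847) (c (l 16775736) (l 16775720))) (c (l 16772800) (l 16772768))) (a (b (l 271287598679) (l 16775696)) (l 16772712))))), by decide +kernel⟩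

def k146_pm_011_s : ∃ t, chk3 f_pm_011_s t 41 235 1 = true :=
  ⟨(c (c (a (a (b (a (l 3) (b (l 3) (l 789368011623))) (a (b (l 3) (c (a (b (l 3) (l 584283324439)) (b (l 502142074855) (l 16776656))) (l 448991854247))) (b (b (a (l 3) (a (a (l 330343385511) (l 211694913367)) (l 16776912))) (a (a (l 615958707991) (a (l 171429594855) (l 16776976))) (l 16776224))) (c (l 16775328) (l 16775336))))) (b (b (b (a (l 3) (a (a (l 726017244679) (l 157470951399)) (l 16776336))) (a (l 678235731879) (l 16776608))) (a (a (b (l 657297767943) (a (a (l 239075330151) (l 16777152)) (l 16776696))) (c (c (l 16776928) (l 16776288)) (l 16776288))) (l 16774464))) (c (a (l 16774376) (l 16771448)) (l 16772696)))) (b (a (c (a (l 16772984) (l 16770520)) (l 16771808)) (l 16766920)) (c (l 16767952) (l 16765368)))) (a (a (b (l 801179165479) (a (l 581062096519) (c (l 16778936) (l 16776304)))) (b (b (a (l 752323916759) (l 16776440)) (l 16775664)) (l 16772672))) (a (l 16769768) (l 16764832)))) (c (c (a (a (c (l 570324675063)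 (l 574619641687)) (b (a (l 182167019879) (l 16775424)) (l 16772632))) (l 16767224)) (a (a (l 571935286103) (l 16774600)) (l 16767160))) (a (a (c (l 592336379399) (l 612200601815)) (b (l 16781840) (l 16772552))) (l 16767048)))), by decide +kernel⟩

def k147_pm_011_s : ∃ t, chk3 f_pm_011_s t 40 236 1 = true :=
  ⟨(a (l 3) (c (a (b (l 3) (a (l 3) (c (a (b (l 3) (b (c (l 655687156343) (l 712595472407)) (a (b (l 666424574135) (l 16777824)) (l 16777640)))) (b (b (l 3) (b (l 3) (l 540796780663))) (b (a (b (l 266455746231) (l 16776968)) (l 16776616)) (l 16775920)))) (b (l 772188141703) (l 16779616))))) (a (c (a (b (l 3) (b (b (b (l 709911117927) (a (l 747492081767) (l 16777152))) (a (b (l 159618434423) (l 16776760)) (l 16776408))) (l 16775216))) (b (b (l 3) (b (l 3) (a (l 623474901031) (b (l 251423360711) (l 16776944))))) (c (b (c (l 16776000) (l 16776008)) (l 16774016)) (l 16775008)))) (b (l 705616147527) (l 16778216))) (c (b (b (b (l 724943503143) (a (l 763598208935) (a (b (l 362018768919) (l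 16777128)) (l 16776776)))) (b (a (a (l 520395685879) (c (l 16777640) (l 16776984))) (l 16776088)) (l 16775696))) (c (l 16773696) (l 16773200))) (b (b (l 256255204183) (l 16776176)) (l 16773184))))) (b (c (b (l 763598202775) (c (l 607905638951) (l 667498308535))) (l 704005524327)) (c (c (a (l 606831898743) (l 16774368)) (a (l 628843604823) (l 16774344))) (a (l 646023472039) (l 16774320)))))), by decide +kernel⟩

def k148_pm_011_s : ∃ t, chk3 f_pm_011_s t 80 237 1 = true :=
  ⟨(b (b (l 3) (a (l 3) (a (l 3) (c (c (b (a (l 3) (a (l 3) (b (l 649781576007) (a (l 236390974503) (l 16777024))))) (b (a (l 3) (a (a (l 288467453223) (l 16777120)) (l 16776680))) (a (a (l 3) (a (l 355039446487) (l 16777216))) (l 16776480)))) (c (l 209547433735) (l 16776912))) (c (l 200957499703) (l 16776160)))))) (b (a (l 3) (c (a (a (l 3) (c (a (b (l 3) (b (l 622938030567) (a (l 225653556295) (l 16777024)))) (c (b (l 569787810615) (l 16777560)) (l 159618436119))) (l 16779408))) (c (b (a (a (b (a (l 3) (l 232096007223))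 (l 16776976)) (l 16776624)) (l 16775728)) (l 16775656)) (l 16775816))) (c (c (l 109689445271) (l 16776968)) (l 16776960)))) (c (a (b (l 3) (a (l 3) (a (l 3) (c (a (b (l 3) (l 524153782743)) (b (a (l 650855318023) (l 216526750807)) (l 16776960))) (l 16777184))))) (c (a (c (a (b (b (a (l 3) (a (l 301352354919) (l 16777120))) (a (a (l 367924348183) (l 16777208)) (l 16776768))) (l 16776320)) (l 16775632)) (c (l 16777528) (l 16776216))) (l 16774656)) (l 16775016))) (c (a (l 773798752183) (l 16774992)) (a (l 765745684679) (l 16774968)))))), by decide +kernel⟩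

def k149_pm_011_s : ∃ t, chk3 f_pm_011_s t 81 237 1 = true :=
  ⟨(a (c (a (c (b (b (b (c (a (l 3) (a (l 510732009831) (b (l 166597756151) (l 16776776)))) (l 506973913223)) (c (a (b (l 562271617575) (a (l 558513520999) (l 16776976))) (l 16776328)) (l 43654319031))) (c (c (a (b (l 16776528) (l 16775528)) (l 16774832)) (l 16775432)) (l 16775432))) (c (l 16773760) (l 16772432))) (b (b (l 161765922375) (l 16775416)) (l 16772416))) (c (b (c (b (l 16775032) (l 16773040)) (l 16774024)) (l 16770040)) (l 16772008))) (c (c (b (l 16775184) (l 16771176)) (l 16773152)) (b (l 16775152) (l 16771096)))) (c (c (c (b (l 16771744) (l 16766440)) (l 16768416)) (l 16768376)) (c (l 16768304) (l 16768208)))), by decide +kernel⟩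

def k150_pm_011_s : ∃ t, chk3 f_pm_011_s t 40 119 1 = true :=
  ⟨(c (c (a (b (a (b (b (b (a (l 3) (a (a (a (l 3) (l 634212320167)) (b (l 591262646903) (a (l 208473687127) (l 16777008)))) (c (c (a (l 16777464) (l 16776216)) (l 16776512)) (l 16776512)))) (c (b (a (l 3) (a (a (a (l 277193163911) (l 16777104)) (l 16776656)) (l 16775768))) (a (a (l 3) (a (l 3) (a (l 342154544439) (l 16777192)))) (l 16775864))) (a (l 599852582455) (l 16776104)))) (a (a (a (c (b (l 3) (b (l 543481135863) (a (l 181093270519) (l 16776984)))) (l 491941528487)) (c (b (b (l 3) (l 493015269975)) (b (l 16777528) (l 16776544))) (l 153175983799))) (b (a (b (a (l 613811225207) (a (l 273971938359) (l 16777216))) (l 16777600)) (l 16776928)) (l 16775896))) (c (c (l 16774616) (l 16774616)) (l 16774608)))) (c (b (a (c (l 16775328) (l 16774992)) (l 16772616)) (l 16773120)) (l 16772800))) (b (c (a (b (l 16774232) (l 16772232)) (l 16770848)) (l 16772032)) (c (l 16768040) (l 16768024)))) (c (b (a (l 16770112) (l 16764024)) (l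 16765016)) (a (l 16766776) (l 16761992)))) (a (b (b (l 16768552) (l 16763232)) (l 16757200)) (b (l 16763040) (l 16752360)))) (a (b (b (a (a (b (l 696489345111) (c (l 52244255047) (l 16776968))) (b (l 16779216) (l 16774600))) (l 16772008)) (a (l 16772784) (l 16767992))) (c (l 16766992) (l 16764344))) (b (c (l 16762784) (l 16762744)) (l 16754720)))) (c (a (a (b (b (c (a (a (l 271287591127) (l 16777088)) (l 16775584)) (l 44191196135)) (l 16772752)) (l 16766696)) (b (c (l 16769968) (l 16769936)) (l 16761880))) (b (c (l 16762696) (l 16762640)) (l 16754608))) (a (b (a (a (b (l 185388246407) (l 16773928)) (l 16773528)) (l 16769888)) (l 16764200)) (b (l 16762544) (l 16754464))))), by decide +kernel⟩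

def k151_pm_011_s : ∃ t, chk3 f_pm_011_s t 41 59 1 = true :=
  ⟨(a (c (b (b (c (b (a (c (a (b (c (a (a (b (l 72645346823) (l 16776168)) (l 16776056)) (l 16775144)) (l 16775768)) (l 16773768)) (l 16772336)) (l 16773560)) (l 16770032)) (c (a (l 16769584) (l 16764744)) (l 16767152))) (a (b (l 16773544) (l 16769536)) (l 16766656))) (c (c (a (l 16763608) (l 16758744)) (l 16761144)) (l 16761072))) (c (b (l 16758376) (l 16745056)) (b (l 16753024) (l 16744968)))) (b (c (b (c (l 16769040) (l 16769000)) (l 16760944)) (b (l 16768920) (l 16760768))) (c (b (l 16752872) (l 16744816)) (l 16748608)))) (b (c (c (b (c (l 16762032) (l 16759368)) (l 16751368)) (b (l 16759272) (l 16751224))) (c (b (l 16759096) (l 16751008)) (l 16754792))) (c (c (b (l 16743304) (l 16735208)) (l 16744680)) (c (l 16738888) (l 16738592))))), by decide +kernel⟩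

def k152_pm_011_s : ∃ t, chk3 f_pm_011_s t 21 116 1 = true :=
  ⟨(a (a (a (b (l 3) (b (c (a (c (b (l 3) (a (l 779167463095) (b (l 729238469383) (l 16777024)))) (l 669108923607)) (c (b (a (l 667498314023) (b (l 224042945687) (l 16776544))) (c (l 16775640) (l 16775672))) (l 16780576))) (c (c (l 164987153735) (l 16775872)) (l 158544704071))) (c (c (a (a (b (b (l 156397210263) (l 16776256)) (l 16774760)) (l 16774520)) (l 16772656)) (l 16773896)) (c (l 16773856) (l 16773792))))) (c (c (b (b (b (l 3) (l 739975885143)) (b (a (l 759303238199) (a (b (l 282561875687) (l 16776808)) (l 16776056))) (a (a (l 512879492103) (l 16778520)) (l 16774672)))) (b (c (l 16774176) (l 16772960)) (l 16768928))) (b (a (l 651392180311) (b (l 734070301943) (l 16775680))) (l 16770920))) (c (b (a (l 652465919463) (b (l 374366810679) (l 16775656))) (l 16770840)) (b (b (l 731385937463) (l 16776856)) (l 16770728))))) (c (c (b (c (a (b (a (b (l 573545904455) (l 16778136)) (l 16774632)) (l 16771848)) (l 16770072)) (a (a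 (b (a (l 201494369895) (l 16776560)) (l 16773200)) (l 16772696)) (l 16768944))) (c (a (l 16765808) (l 16760728)) (l 16763504))) (b (a (b (c (l 32916905543) (l 16775912)) (l 16771928)) (l 16768904)) (l 16763400))) (c (b (c (a (l 16773880) (l 16768816)) (l 16771296)) (l 16763208)) (b (a (l 16773800) (l 16768624)) (l 16762952))))) (a (c (c (b (c (l 16761032) (l 16761384)) (l 16753296)) (b (l 16761368) (l 16753320))) (c (b (l 16761120) (l 16752976)) (l 16756640))) (c (c (b (l 16750944) (l 16743064)) (l 16747264)) (c (l 16746784) (l 16746152))))), by decide +kernel⟩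

def k153_pm_011_s : ∃ t, chk3 f_pm_011_s t 21 117 1 = true :=
  ⟨(a (c (b (a (c (a (b (l 16772536) (l 16765960)) (l 16765616)) (l 16768016)) (c (l 16760768) (l 16755328))) (c (a (c (l 16757456) (l 16757480)) (l 16747504)) (a (l 16757352) (l 16747256)))) (c (a (b (c (l 16765288) (l 16765208)) (l 16757128)) (b (l 16755048) (l 16746904))) (a (b (l 16765056) (l 16756840)) (l 16750560)))) (c (c (a (l 16752024) (l 16731544)) (c (l 16736288) (l 16736048))) (c (a (l 16740736) (l 16730488)) (l 16734888)))), by decide +kernel⟩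

def k154_pm_011_s : ∃ t, chk3 f_pm_011_s t 21 59 1 = true :=
  ⟨(b (c (a (c (b (a (l 16749488) (l 16739448)) (l 16746888)) (b (a (l 16749296) (l 16739176)) (l 16746640))) (c (l 16741376) (l 16730432))) (a (c (a (l 16744968) (l 16734712)) (l 16744624)) (c (l 16719296) (l 16718464)))) (c (c (a (a (l 16729280) (l 16719176)) (l 16704072)) (a (a (l 16729088) (l 16718904)) (l 16703624))) (a (c (l 16723648) (l 16723176)) (l 16713096)))), by decide +kernel⟩

def k155_pm_011_s : ∃ t, chk3 f_pm_011_s t 44 28 1 = true :=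
  ⟨(b (b (l 3) (b (a (l 3) (b (a (l 3) (c (a (l 617032443623) (b (l 196125661767) (l 16775600))) (c (l 309405370343) (l 16775544)))) (c (c (a (l 563882224263) (l 16773832)) (a (l 247665276967) (l 16773936))) (c (c (l 103247002167) (l 16776448)) (l 99488907303))))) (c (c (a (a (l 720111658151) (a (c (l 590188896791) (l 603610670151)) (b (l 623474895879) (l 16774960)))) (a (b (c (c (l 16778960) (l 16775056)) (l 16775104)) (l 16771000)) (l 16767728))) (a (b (l 694878712695) (l 474761652567)) (l 16777136))) (c (a (c (l 603073791879) (l 598241952503)) (l 257328904647)) (a (l 598241950759) (l 16770232)))))) (c (a (b (b (a (b (c (a (l 593410125703) (c (l 16778768) (l 16776176))) (l 156934089527)) (c (l 16773400) (l 16773496))) (c (l 16771488) (l 16770368))) (c (c (l 16764544) (l 16764832)) (l 16764992))) (c (b (l 16756600) (l 16748568)) (l 16753080))) (b (c (b (l 16767496) (l 16754160)) (l 16761344)) (c (l 16742096) (l 16742880)))) (b (c (b (a (c (a (l 16775432) (l 16770264)) (l 16772784)) (l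 16762360)) (a (l 16764744) (l 16754288))) (a (b (l 336785799703) (l 16764424)) (l 16757800))) (c (a (l 16752616) (l 16742176)) (l 16746664))))), by decide +kernel⟩

def k156_pm_011_s : ∃ t, chk3 f_pm_011_s t 45 28 1 = true :=
  ⟨(b (c (b (b (b (a (l 3) (a (a (l 618106184519) (b (l 224042949095) (l 16775792))) (l 16772816))) (a (a (l 3) (c (l 584283317799) (l 256792083079))) (c (a (l 16774040) (l 16768616)) (l 16771544)))) (a (a (b (c (l 657297758119) (l 663203336263)) (c (a (a (l 604684414887) (l 138143602983)) (l 16775304)) (l 16776656))) (b (a (b (l 200957500135) (l 16775720)) (l 16774096)) (l 16771432))) (c (b (l 16767264) (l 16763216)) (l 16765640)))) (a (b (c (c (l 16770376) (l 16767976)) (l 16768168)) (c (l 16759736) (l 16760288))) (c (c (l 16763296) (l 16753384)) (l 16753840)))) (b (c (a (a (c (l 603610655639) (l 604684395959)) (b (l 617569303831) (l 16773360))) (b (c (l 266455692247) (l 16773384)) (l 16765384))) (b (a (l 657834607815) (l 16773288)) (a (c (l 274508734839) (l 16733944))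 (l 16765040)))) (c (a (b (l 16767952) (l 16759880)) (l 16753312)) (a (l 16763512) (l 16752608))))) (c (b (c (a (l 16754144) (l 16736952)) (a (l 16748448) (l 16738088))) (c (a (l 16731528) (l 16720944)) (l 16732736))) (c (b (a (l 16747784) (l 16737208)) (l 16726392)) (b (l 16741520) (l 16724968))))), by decide +kernel⟩

def k157_pm_011_s : ∃ t, chk3 f_pm_011_s t 23 28 1 = true :=
  ⟨(b (c (b (a (b (c (a (l 16762472) (l 16751504)) (l 16757752)) (c (l 16759448) (l 16749888))) (c (l 16751920) (l 16732488))) (c (a (a (l 16742352) (l 16731528)) (l 16715176)) (a (a (l 16743360) (l 16732800)) (l 16716792)))) (b (a (c (b (l 16757376) (l 16749368)) (l 16752744)) (c (l 16731840) (l 16730856))) (a (c (l 16737336) (l 16736312)) (l 16715288)))) (c (b (c (a (l 16720960) (l 16699464)) (a (l 16722376) (l 16701096))) (c (a (l 16705088) (l 16683840)) (a (l 16706648) (l 16685408)))) (b (a (c (l 16721288) (l 16719816)) (l 16699160)) (a (l 16704360) (l 16683024))))), by decide +kernel⟩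

def k158_pm_011_s : ∃ t, chk3 f_pm_011_s t 11 29 1 = true :=
  ⟨(a (b (c (a (c (b (a (l 16736664) (l 16726248)) (l 16716096)) (b (c (l 16732232) (l 16731880)) (l 16716024))) (c (b (l 16710488) (l 16695232)) (b (l 16711656) (l 16695712)))) (a (b (c (l 16731248) (l 16730192)) (c (l 16715032) (l 16713752))) (b (c (l 16710288) (l 16708528)) (l 16693184)))) (c (a (c (b (l 16700592) (l 16684328)) (b (l 16699800) (l 16683520))) (c (b (l 16680568) (l 16664784)) (l 16671536))) (a (b (l 16698040) (l 16681760)) (b (l 16676912) (l 16660672))))) (a (b (c (c (l 16697624) (b (l 16690896) (l 16675072))) (b (l 16688128) (l 16671872))) (c (c (l 16652760) (l 16651088)) (l 16657984))) (b (c (c (l 16660904) (l 16661840)) (b (l 16666848) (l 16650664))) (c (c (l 16631896) (l 16630176)) (l 16626368))))), by decide +kernel⟩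

def k159_pm_011_s : ∃ t, chk3 f_pm_011_s t 10 30 1 = true :=
  ⟨(b (a (b (c (a (c (b (a (c (l 16758976) (l 16756344)) (l 16746712)) (a (l 16748352) (l 16738664))) (b (a (l 16758944) (l 16746680)) (a (l 16748376) (l 16738696)))) (c (a (l 16732928) (l 16723040)) (b (l 16742472) (l 16723984)))) (a (c (a (b (l 16756264) (l 16748368)) (l 16742632)) (a (b (l 16756176) (l 16748336)) (l 16742544))) (c (a (l 16732848) (l 16722904)) (l 16727752)))) (a (c (c (a (b (l 16740320) (l 16732280)) (l 16726648)) (a (b (l 16740432) (l 16732528)) (l 16726864))) (c (a (l 16736648) (l 16727064)) (a (l 16736800) (l 16727240)))) (c (c (l 16722328) (l 16722560)) (c (l 16712280) (l 16712456))))) (a (c (b (c (l 16707952) (l 16707840)) (c (l 16691704) (l 16691864))) (b (c (l 16707632) (l 16707328)) (l 16692008))) (c (c (b (l 16687712) (l 16671376)) (l 16695048)) (b (l 16686600) (l 16671024))))) (a (b (a (c (c (a (l 16720152) (l 16710504)) (a (l 16720680) (l 16711104))) (c (l 16716504) (l 16717144))) (c (c (l 16695776)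 (l 16696432)) (c (l 16697120) (l 16697864)))) (c (a (c (l 16709456) (l 16700088)) (c (l 16679416) (l 16680656))) (a (c (l 16701328) (l 16700992)) (l 16682784)))) (a (c (b (l 16686216) (l 16659664)) (b (l 16676968) (l 16662320))) (c (b (l 16655208) (l 16639056)) (l 16648448))))), by decide +kernel⟩

def k160_pm_011_s : ∃ t, chk3 f_pm_011_s t 10 31 1 = true :=
  ⟨(b (a (a (c (b (c (l 16682136) (l 16684016)) (c (l 16664760) (l 16667632))) (b (l 16684200) (l 16666720))) (b (c (l 16674280) (l 16666184)) (c (l 16647248) (l 16648232)))) (a (c (b (l 16643584) (l 16627104)) (b (l 16648152) (l 16631024))) (c (l 16635584) (l 16619640)))) (a (c (b (a (l 16648752) (l 16630176)) (a (l 16630792) (l 16612560))) (b (a (l 16649152) (l 16630232)) (a (l 16631712) (l 16612368)))) (c (c (a (l 16599416) (l 16579232)) (l 16636024)) (a (l 16614056) (l 16586832))))), by decide +kernel⟩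

def k161_pm_011_s : ∃ t, chk3 f_pm_011_s t 11 15 1 = true :=
  ⟨(b (a (b (c (a (c (l 16659760) (l 16659128)) (c (l 16640296) (l 16639064))) (a (b (l 16665664) (l 16649920)) (l 16636576))) (c (a (l 16647888) (l 16607160)) (a (l 16627096) (l 16605640)))) (b (c (c (l 16631520) (l 16608656)) (b (l 16612808) (l 16596976))) (c (a (l 16587360) (l 16567256)) (a (l 16584240) (l 16563032))))) (a (c (b (a (l 16594264) (l 16574320)) (a (l 16560920) (l 16540968))) (b (a (l 16597928) (l 16575960)) (b (l 16565640) (l 16551624)))) (c (b (l 16544608) (l 16511376)) (b (l 16543344) (l 16514072))))), by decide +kernel⟩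

def k162_pm_011_s : ∃ t, chk3 f_pm_011_s t 6 12 1 = true :=
  ⟨(a (b (l 3) (a (l 3) (b (l 3) (a (l 3) (b (l 3) (a (c (c (l 642802214055) (l 626159213511)) (l 605221265783)) (c (c (b (l 594483855495) (l 290078013079)) (l 293299198983)) (c (l 292225458823) (l 290614847383))))))))) (b (l 1) (a (a (a (b (l 1) (b (l 1) (c (c (l 136935599463) (l 16766800)) (l 194917647575)))) (l 1)) (l 1)) (l 1)))), by decide +kernel⟩

def k163_pm_011_s : ∃ t, chk3 f_pm_011_s t 12 26 1 = true :=
  ⟨(a (b (l 3) (a (a (l 3) (b (l 3) (b (l 3) (c (c (c (l 482277842951) (l 486035938887)) (a (l 619716785607) (l 277729986599))) (c (l 294372950919) (l 292762338583)))))) (b (b (a (l 3) (a (l 3) (c (c (l 319069041847) (l 307257883015)) (l 298131073271)))) (c (a (c (l 627769845079) (l 613811199399)) (c (l 284709310631) (l 277729988183))) (a (l 594483843703) (l 273435016999)))) (c (a (c (b (b (l 316921551511) (l 16774440)) (l 16768152)) (c (l 276656224327) (l 275045611783))) (c (l 16760320) (l 16761472))) (c (c (l 270750635639)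 (l 270213765847)) (l 269140019111)))))) (b (a (a (b (l 3) (c (b (c (l 637970389335) (l 622401131031)) (c (l 320142769015) (l 307257868727))) (b (l 602536904647) (l 298667929927)))) (b (c (c (l 611126842839) (l 594483842759)) (c (l 583746422807) (l 577840841143))) (c (c (b (l 285783046759) (l 16765360)) (l 280951201143)) (b (l 279877464967) (l 16766528))))) (c (a (c (b (b (l 303499769911) (l 16769912)) (l 16757024)) (b (l 286856764279) (l 16758632))) (c (b (l 16761408) (l 16744288)) (l 16762664))) (c (b (c (l 283098664823) (l 282561794759)) (l 16753376)) (b (l 280951175927) (l 16753624))))) (c (a (c (b (a (l 16764984) (l 16752616)) (l 16742064)) (b (a (l 16765904) (l 16754432)) (l 16744416))) (c (c (l 16745544) (l 16747456)) (l 16760536))) (a (b (c (l 16760416) (l 16760416)) (c (l 16744768) (l 16744720))) (c (l 16750984) (l 16730344)))))), by decide +kernel⟩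

def k164_pm_011_s : ∃ t, chk3 f_pm_011_s t 12 27 1 = true :=
  ⟨(c (c (a (a (b (b (a (b (l 611663722343) (a (a (l 283635562055) (l 102173256599)) (l 16772064))) (b (l 276119380567) (l 16763280))) (a (b (l 16766648) (l 16758376)) (l 16750880))) (b (l 16761352) (l 16724352))) (b (b (a (l 16755616) (l 16743688)) (l 16733288)) (l 16730240))) (b (b (a (l 16725624) (l 16701144)) (l 16739400)) (c (l 16693560) (l 16696512)))) (a (b (a (b (b (a (l 599315689463) (l 273435026775)) (c (l 291688613895) (l 290614871255))) (a (l 16763328) (l 16752336))) (b (c (l 16751112) (l 16751400)) (l 16735656))) (a (b (l 16763120) (l 16726464)) (l 16733112))) (a (b (l 16741808) (l 16689552)) (b (l 16697704) (l 16666512))))) (a (b (a (b (b (a (l 580525204743) (l 285783052087)) (c (l 287930515303) (l 16743248))) (c (l 16757720) (l 16757392))) (b (c (l 16751400) (l 16751152)) (l 16756440))) (a (b (a (l 16747112) (l 16736112)) (l 16725624)) (b (l 16719600) (l 16703712)))) (b (b (a (l 16729080) (l 16706840)) (a (l 16713336)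 (l 16691160))) (a (l 16715840) (l 16667552))))), by decide +kernel⟩

def k165_pm_011_s : ∃ t, chk3 f_pm_011_s t 13 13 1 = true :=
  ⟨(b (b (a (a (c (c (b (l 16762840) (l 16724936)) (l 16747384)) (b (l 16758232) (l 16731088))) (b (l 1) (c (l 16701928) (l 16708656)))) (l 1)) (b (a (c (c (l 16737352) (l 16701168)) (a (l 16715656) (l 16693272))) (l 1)) (a (c (c (l 16700272) (l 16685496)) (l 16709968)) (c (l 16632400) (l 16644416))))) (b (a (c (c (l 16697704) (l 16662080)) (a (l 16676752) (l 16654480))) (c (l 16651248) (l 16621112))) (c (a (c (l 16625568) (l 16631048)) (l 16578848)) (a (l 16634312) (l 16589840))))), by decide +kernel⟩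

def k166_pm_011_s : ∃ t, chk3 f_pm_011_s t 7 6 1 = true :=
  ⟨(b (l 1) (a (a (a (b (l 1) (b (l 1) (l 16548928))) (l 1)) (l 1)) (l 1))), by decide +kernel⟩

def k167_pm_011_s : ∃ t, chk3 f_pm_011_s t 3 7 1 = true :=
  ⟨(b (a (a (b (b (a (c (b (c (l 16728808) (a (l 16710784) (l 16688688))) (c (l 16702944) (l 16684152))) (b (a (l 16709632) (l 16687800)) (a (l 16693632) (l 16671880)))) (c (c (l 16685872) (l 16646960)) (a (l 16657960) (l 16635992)))) (c (c (a (b (l 16666664) (l 16651464)) (l 16614528)) (a (a (l 16671632) (l 16649632)) (l 16615880))) (a (b (l 16666800) (l 16650808)) (l 16615312)))) (b (c (a (a (b (l 16648688) (l 16633136)) (l 16618824)) (l 16626784)) (a (a (l 16637464) (l 16616032)) (l 16583600))) (c (a (c (b (l 16607216) (l 16591728)) (l 16598056)) (l 16554112)) (a (a (l 16605208) (l 16584000)) (l 16551832))))) (a (b (c (b (l 16640688) (l 16568224)) (b (l 16602848) (l 16571328))) (b (c (l 16537816) (l 16539792)) (c (l 16507592) (l 16508256)))) (c (b (b (l 16548712) (l 16518712))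 (l 16516032)) (b (b (l 16558392) (l 16526880)) (l 16479688))))) (a (a (b (c (l 16545096) (l 16498464)) (c (l 16424152) (l 16435408))) (b (c (l 16429600) (l 16454944)) (c (l 16373448) (l 16391424)))) (a (a (b (l 1) (l 16346904)) (l 1)) (l 1)))) (a (a (b (b (c (a (b (l 16575408) (l 16559696)) (l 16523320)) (a (l 16562616) (l 16520096))) (a (c (l 16535928) (l 16531248)) (c (l 16492432) (l 16488520)))) (b (a (c (l 16504024) (l 16500408)) (l 16480216)) (a (c (l 16471200) (l 16470128)) (l 16427816)))) (a (b (b (l 16477216) (l 16446104)) (b (l 16414976) (l 16383840))) (b (b (l 16431136) (l 16400304)) (b (l 16369440) (l 16338624))))) (c (a (b (a (l 16366480) (l 16317736)) (l 16411208)) (b (l 16331168) (l 16237720))) (a (b (a (l 16372136) (l 16327688)) (a (l 16308584) (l 16263472))) (b (l 16280712) (l 16194216)))))), by decide +kernel⟩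

theorem s168_pm_011_s : ∃ t, chk3 f_pm_011_s t 12 13 1 = true := ex3_b k163_pm_011_s k164_pm_011_s

theorem s169_pm_011_s : ∃ t, chk3 f_pm_011_s t 6 13 1 = true := ex3_a s168_pm_011_s k165_pm_011_s

theorem s170_pm_011_s : ∃ t, chk3 f_pm_011_s t 6 6 1 = true := ex3_b k162_pm_011_s s169_pm_011_s

theorem s171_pm_011_s : ∃ t, chk3 f_pm_011_s t 3 6 1 = true := ex3_a s170_pm_011_s k166_pm_011_s

theorem s172_pm_011_s : ∃ t, chk3 f_pm_011_s t 3 3 1 = true := ex3_b s171_pm_011_s k167_pm_011_s

theorem s173_pm_011_s : ∃ t, chk3 f_pm_011_s t 10 15 1 = true := ex3_b k159_pm_011_s k160_pm_011_s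

theorem s174_pm_011_s : ∃ t, chk3 f_pm_011_s t 5 15 1 = true := ex3_a s173_pm_011_s k161_pm_011_s

theorem s175_pm_011_s : ∃ t, chk3 f_pm_011_s t 22 28 1 = true := ex3_a k155_pm_011_s k156_pm_011_s

theorem s176_pm_011_s : ∃ t, chk3 f_pm_011_s t 11 28 1 = true := ex3_a s175_pm_011_s k157_pm_011_s

theorem s177_pm_011_s : ∃ t, chk3 f_pm_011_s t 11 14 1 = true := ex3_b s176_pm_011_s k158_pm_011_s

theorem s178_pm_011_s : ∃ t, chk3 f_pm_011_s t 21 58 1 = true := ex3_b k152_pm_011_s k153_pm_011_s

theorem s179_pm_011_s : ∃ t, chk3 f_pm_011_s t 21 29 1 = true := ex3_b s178_pm_011_s k154_pm_011_s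

theorem s180_pm_011_s : ∃ t, chk3 f_pm_011_s t 40 237 1 = true := ex3_a k148_pm_011_s k149_pm_011_s

theorem s181_pm_011_s : ∃ t, chk3 f_pm_011_s t 40 118 1 = true := ex3_b k147_pm_011_s s180_pm_011_s

theorem s182_pm_011_s : ∃ t, chk3 f_pm_011_s t 40 59 1 = true := ex3_b s181_pm_011_s k150_pm_011_s

theorem s183_pm_011_s : ∃ t, chk3 f_pm_011_s t 20 59 1 = true := ex3_a s182_pm_011_s k151_pm_011_s

theorem s184_pm_011_s : ∃ t, chk3 f_pm_011_s t 41 117 1 = true := ex3_b k145_pm_011_s k146_pm_011_s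

theorem s185_pm_011_s : ∃ t, chk3 f_pm_011_s t 41 58 1 = true := ex3_b k144_pm_011_s s184_pm_011_s

theorem s186_pm_011_s : ∃ t, chk3 f_pm_011_s t 20 58 1 = true := ex3_a k143_pm_011_s s185_pm_011_s

theorem s187_pm_011_s : ∃ t, chk3 f_pm_011_s t 20 29 1 = true := ex3_b s186_pm_011_s s183_pm_011_s

theorem s188_pm_011_s : ∃ t, chk3 f_pm_011_s t 10 29 1 = true := ex3_a s187_pm_011_s s179_pm_011_s

theorem s189_pm_011_s : ∃ t, chk3 f_pm_011_s t 10 28 1 = true := ex3_a k141_pm_011_s k142_pm_011_s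

theorem s190_pm_011_s : ∃ t, chk3 f_pm_011_s t 10 14 1 = true := ex3_b s189_pm_011_s s188_pm_011_s

theorem s191_pm_011_s : ∃ t, chk3 f_pm_011_s t 5 14 1 = true := ex3_a s190_pm_011_s s177_pm_011_s

theorem s192_pm_011_s : ∃ t, chk3 f_pm_011_s t 5 7 1 = true := ex3_b s191_pm_011_s s174_pm_011_s

theorem s193_pm_011_s : ∃ t, chk3 f_pm_011_s t 18 31 1 = true := ex3_b k138_pm_011_s k139_pm_011_s

theorem s194_pm_011_s : ∃ t, chk3 f_pm_011_s t 9 31 1 = true := ex3_a s193_pm_011_s k140_pm_011_s

theorem s195_pm_011_s : ∃ t, chk3 f_pm_011_s t 78 120 4 = true := ex3_a k131_pm_011_s k132_pm_011_s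

theorem s196_pm_011_s : ∃ t, chk3 f_pm_011_s t 39 120 4 = true := ex3_a s195_pm_011_s k133_pm_011_s

theorem s197_pm_011_s : ∃ t, chk3 f_pm_011_s t 39 120 2 = true := ex3_c s196_pm_011_s k134_pm_011_s

theorem s198_pm_011_s : ∃ t, chk3 f_pm_011_s t 39 120 1 = true := ex3_c s197_pm_011_s k135_pm_011_s

theorem s199_pm_011_s : ∃ t, chk3 f_pm_011_s t 39 60 1 = true := ex3_b s198_pm_011_s k136_pm_011_s

theorem s200_pm_011_s : ∃ t, chk3 f_pm_011_s t 153 242 2 = true := ex3_b k126_pm_011_s k127_pm_011_s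

theorem s201_pm_011_s : ∃ t, chk3 f_pm_011_s t 76 242 2 = true := ex3_a k125_pm_011_s s200_pm_011_s

theorem s202_pm_011_s : ∃ t, chk3 f_pm_011_s t 76 121 2 = true := ex3_b s201_pm_011_s k128_pm_011_s

theorem s203_pm_011_s : ∃ t, chk3 f_pm_011_s t 38 121 2 = true := ex3_a s202_pm_011_s k129_pm_011_s

theorem s204_pm_011_s : ∃ t, chk3 f_pm_011_s t 38 121 1 = true := ex3_c s203_pm_011_s k130_pm_011_s

theorem s205_pm_011_s : ∃ t, chk3 f_pm_011_s t 155 241 1 = true := ex3_b k123_pm_011_s k124_pm_011_s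

theorem s206_pm_011_s : ∃ t, chk3 f_pm_011_s t 154 483 1 = true := ex3_a k121_pm_011_s k122_pm_011_s

theorem s207_pm_011_s : ∃ t, chk3 f_pm_011_s t 154 241 1 = true := ex3_b k120_pm_011_s s206_pm_011_s

theorem s208_pm_011_s : ∃ t, chk3 f_pm_011_s t 77 241 1 = true := ex3_a s207_pm_011_s s205_pm_011_s

theorem s209_pm_011_s : ∃ t, chk3 f_pm_011_s t 77 120 1 = true := ex3_b k119_pm_011_s s208_pm_011_s

theorem s210_pm_011_s : ∃ t, chk3 f_pm_011_s t 38 120 1 = true := ex3_a k118_pm_011_s s209_pm_011_s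

theorem s211_pm_011_s : ∃ t, chk3 f_pm_011_s t 38 60 1 = true := ex3_b s210_pm_011_s s204_pm_011_s

theorem s212_pm_011_s : ∃ t, chk3 f_pm_011_s t 19 60 1 = true := ex3_a s211_pm_011_s s199_pm_011_s

theorem s213_pm_011_s : ∃ t, chk3 f_pm_011_s t 19 30 1 = true := ex3_b s212_pm_011_s k137_pm_011_s

theorem s214_pm_011_s : ∃ t, chk3 f_pm_011_s t 75 122 2 = true := ex3_b k114_pm_011_s k115_pm_011_s

theorem s215_pm_011_s : ∃ t, chk3 f_pm_011_s t 148 490 2 = true := ex3_b k110_pm_011_s k111_pm_011_s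

theorem s216_pm_011_s : ∃ t, chk3 f_pm_011_s t 148 245 2 = true := ex3_b s215_pm_011_s k112_pm_011_s

theorem s217_pm_011_s : ∃ t, chk3 f_pm_011_s t 74 245 2 = true := ex3_a s216_pm_011_s k113_pm_011_s

theorem s218_pm_011_s : ∃ t, chk3 f_pm_011_s t 149 489 2 = true := ex3_c k108_pm_011_s k109_pm_011_s

theorem s219_pm_011_s : ∃ t, chk3 f_pm_011_s t 149 244 2 = true := ex3_b k107_pm_011_s s218_pm_011_s

theorem s220_pm_011_s : ∃ t, chk3 f_pm_011_s t 74 244 2 = true := ex3_a k106_pm_011_s s219_pm_011_s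

theorem s221_pm_011_s : ∃ t, chk3 f_pm_011_s t 74 122 2 = true := ex3_b s220_pm_011_s s217_pm_011_s

theorem s222_pm_011_s : ∃ t, chk3 f_pm_011_s t 37 122 2 = true := ex3_a s221_pm_011_s s214_pm_011_s

theorem s223_pm_011_s : ∃ t, chk3 f_pm_011_s t 37 122 1 = true := ex3_c s222_pm_011_s k116_pm_011_s

theorem s224_pm_011_s : ∃ t, chk3 f_pm_011_s t 37 61 1 = true := ex3_b s223_pm_011_s k117_pm_011_s

theorem s225_pm_011_s : ∃ t, chk3 f_pm_011_s t 36 123 3 = true := ex3_a k104_pm_011_s k105_pm_011_s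

theorem s226_pm_011_s : ∃ t, chk3 f_pm_011_s t 146 492 2 = true := ex3_b k99_pm_011_s k100_pm_011_s

theorem s227_pm_011_s : ∃ t, chk3 f_pm_011_s t 146 246 2 = true := ex3_b s226_pm_011_s k101_pm_011_s

theorem s228_pm_011_s : ∃ t, chk3 f_pm_011_s t 73 246 2 = true := ex3_a s227_pm_011_s k102_pm_011_s

theorem s229_pm_011_s : ∃ t, chk3 f_pm_011_s t 73 123 2 = true := ex3_b s228_pm_011_s k103_pm_011_s

theorem s230_pm_011_s : ∃ t, chk3 f_pm_011_s t 289 247 4 = true := ex3_b k95_pm_011_s k96_pm_011_s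

theorem s231_pm_011_s : ∃ t, chk3 f_pm_011_s t 288 247 4 = true := ex3_b k93_pm_011_s k94_pm_011_s

theorem s232_pm_011_s : ∃ t, chk3 f_pm_011_s t 144 247 4 = true := ex3_a s231_pm_011_s s230_pm_011_s

theorem s233_pm_011_s : ∃ t, chk3 f_pm_011_s t 72 247 4 = true := ex3_a s232_pm_011_s k97_pm_011_s

theorem s234_pm_011_s : ∃ t, chk3 f_pm_011_s t 72 247 2 = true := ex3_c s233_pm_011_s k98_pm_011_s

theorem s235_pm_011_s : ∃ t, chk3 f_pm_011_s t 145 493 2 = true := ex3_b k91_pm_011_s k92_pm_011_s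

theorem s236_pm_011_s : ∃ t, chk3 f_pm_011_s t 145 246 2 = true := ex3_b k90_pm_011_s s235_pm_011_s

theorem s237_pm_011_s : ∃ t, chk3 f_pm_011_s t 72 246 2 = true := ex3_a k89_pm_011_s s236_pm_011_s

theorem s238_pm_011_s : ∃ t, chk3 f_pm_011_s t 72 123 2 = true := ex3_b s237_pm_011_s s234_pm_011_s

theorem s239_pm_011_s : ∃ t, chk3 f_pm_011_s t 36 123 2 = true := ex3_a s238_pm_011_s s229_pm_011_s

theorem s240_pm_011_s : ∃ t, chk3 f_pm_011_s t 36 123 1 = true := ex3_c s239_pm_011_s s225_pm_011_s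

theorem s241_pm_011_s : ∃ t, chk3 f_pm_011_s t 147 491 1 = true := ex3_b k87_pm_011_s k88_pm_011_s

theorem s242_pm_011_s : ∃ t, chk3 f_pm_011_s t 147 245 1 = true := ex3_b k86_pm_011_s s241_pm_011_s

theorem s243_pm_011_s : ∃ t, chk3 f_pm_011_s t 147 122 1 = true := ex3_b k85_pm_011_s s242_pm_011_s

theorem s244_pm_011_s : ∃ t, chk3 f_pm_011_s t 73 122 1 = true := ex3_a k84_pm_011_s s243_pm_011_s

theorem s245_pm_011_s : ∃ t, chk3 f_pm_011_s t 36 122 1 = true := ex3_a k83_pm_011_s s244_pm_011_s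

theorem s246_pm_011_s : ∃ t, chk3 f_pm_011_s t 36 61 1 = true := ex3_b s245_pm_011_s s240_pm_011_s

theorem s247_pm_011_s : ∃ t, chk3 f_pm_011_s t 18 61 1 = true := ex3_a s246_pm_011_s s224_pm_011_s

theorem s248_pm_011_s : ∃ t, chk3 f_pm_011_s t 75 487 1 = true := ex3_a k81_pm_011_s k82_pm_011_s

theorem s249_pm_011_s : ∃ t, chk3 f_pm_011_s t 75 243 1 = true := ex3_b k80_pm_011_s s248_pm_011_s

theorem s250_pm_011_s : ∃ t, chk3 f_pm_011_s t 75 121 1 = true := ex3_b k79_pm_011_s s249_pm_011_s

theorem s251_pm_011_s : ∃ t, chk3 f_pm_011_s t 37 121 1 = true := ex3_a k78_pm_011_s s250_pm_011_s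

theorem s252_pm_011_s : ∃ t, chk3 f_pm_011_s t 37 60 1 = true := ex3_b k77_pm_011_s s251_pm_011_s

theorem s253_pm_011_s : ∃ t, chk3 f_pm_011_s t 18 60 1 = true := ex3_a k76_pm_011_s s252_pm_011_s

theorem s254_pm_011_s : ∃ t, chk3 f_pm_011_s t 18 30 1 = true := ex3_b s253_pm_011_s s247_pm_011_s

theorem s255_pm_011_s : ∃ t, chk3 f_pm_011_s t 9 30 1 = true := ex3_a s254_pm_011_s s213_pm_011_s

theorem s256_pm_011_s : ∃ t, chk3 f_pm_011_s t 9 15 1 = true := ex3_b s255_pm_011_s s194_pm_011_s

theorem s257_pm_011_s : ∃ t, chk3 f_pm_011_s t 280 998 4 = true := ex3_a k66_pm_011_s k67_pm_011_s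

theorem s258_pm_011_s : ∃ t, chk3 f_pm_011_s t 280 499 4 = true := ex3_b s257_pm_011_s k68_pm_011_s

theorem s259_pm_011_s : ∃ t, chk3 f_pm_011_s t 140 499 4 = true := ex3_a s258_pm_011_s k69_pm_011_s

theorem s260_pm_011_s : ∃ t, chk3 f_pm_011_s t 70 499 4 = true := ex3_a s259_pm_011_s k70_pm_011_s

theorem s261_pm_011_s : ∃ t, chk3 f_pm_011_s t 70 499 2 = true := ex3_c s260_pm_011_s k71_pm_011_s

theorem s262_pm_011_s : ∃ t, chk3 f_pm_011_s t 282 996 4 = true := ex3_a k61_pm_011_s k62_pm_011_s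

theorem s263_pm_011_s : ∃ t, chk3 f_pm_011_s t 282 996 2 = true := ex3_c s262_pm_011_s k63_pm_011_s

theorem s264_pm_011_s : ∃ t, chk3 f_pm_011_s t 141 996 2 = true := ex3_a s263_pm_011_s k64_pm_011_s

theorem s265_pm_011_s : ∃ t, chk3 f_pm_011_s t 141 498 2 = true := ex3_b s264_pm_011_s k65_pm_011_s

theorem s266_pm_011_s : ∃ t, chk3 f_pm_011_s t 281 997 2 = true := ex3_b k59_pm_011_s k60_pm_011_s

theorem s267_pm_011_s : ∃ t, chk3 f_pm_011_s t 281 498 2 = true := ex3_b k58_pm_011_s s266_pm_011_s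

theorem s268_pm_011_s : ∃ t, chk3 f_pm_011_s t 140 498 2 = true := ex3_a k57_pm_011_s s267_pm_011_s

theorem s269_pm_011_s : ∃ t, chk3 f_pm_011_s t 70 498 2 = true := ex3_a s268_pm_011_s s265_pm_011_s

theorem s270_pm_011_s : ∃ t, chk3 f_pm_011_s t 70 249 2 = true := ex3_b s269_pm_011_s s261_pm_011_s

theorem s271_pm_011_s : ∃ t, chk3 f_pm_011_s t 70 249 1 = true := ex3_c s270_pm_011_s k72_pm_011_s

theorem s272_pm_011_s : ∃ t, chk3 f_pm_011_s t 35 249 1 = true := ex3_a s271_pm_011_s k73_pm_011_s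

theorem s273_pm_011_s : ∃ t, chk3 f_pm_011_s t 142 497 4 = true := ex3_b k52_pm_011_s k53_pm_011_s

theorem s274_pm_011_s : ∃ t, chk3 f_pm_011_s t 285 496 4 = true := ex3_a k50_pm_011_s k51_pm_011_s

theorem s275_pm_011_s : ∃ t, chk3 f_pm_011_s t 142 496 4 = true := ex3_a k49_pm_011_s s274_pm_011_s

theorem s276_pm_011_s : ∃ t, chk3 f_pm_011_s t 142 248 4 = true := ex3_b s275_pm_011_s s273_pm_011_s

theorem s277_pm_011_s : ∃ t, chk3 f_pm_011_s t 71 248 4 = true := ex3_a s276_pm_011_s k54_pm_011_s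

theorem s278_pm_011_s : ∃ t, chk3 f_pm_011_s t 71 248 2 = true := ex3_c s277_pm_011_s k55_pm_011_s

theorem s279_pm_011_s : ∃ t, chk3 f_pm_011_s t 71 248 1 = true := ex3_c s278_pm_011_s k56_pm_011_s

theorem s280_pm_011_s : ∃ t, chk3 f_pm_011_s t 283 995 2 = true := ex3_b k46_pm_011_s k47_pm_011_s

theorem s281_pm_011_s : ∃ t, chk3 f_pm_011_s t 283 995 1 = true := ex3_c s280_pm_011_s k48_pm_011_s

theorem s282_pm_011_s : ∃ t, chk3 f_pm_011_s t 283 497 1 = true := ex3_b k45_pm_011_s s281_pm_011_s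

theorem s283_pm_011_s : ∃ t, chk3 f_pm_011_s t 141 497 1 = true := ex3_a k44_pm_011_s s282_pm_011_s

theorem s284_pm_011_s : ∃ t, chk3 f_pm_011_s t 70 497 1 = true := ex3_a k43_pm_011_s s283_pm_011_s

theorem s285_pm_011_s : ∃ t, chk3 f_pm_011_s t 70 248 1 = true := ex3_b k42_pm_011_s s284_pm_011_s

theorem s286_pm_011_s : ∃ t, chk3 f_pm_011_s t 35 248 1 = true := ex3_a s285_pm_011_s s279_pm_011_s

theorem s287_pm_011_s : ∃ t, chk3 f_pm_011_s t 35 124 1 = true := ex3_b s286_pm_011_s s272_pm_011_s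

theorem s288_pm_011_s : ∃ t, chk3 f_pm_011_s t 35 62 1 = true := ex3_b s287_pm_011_s k74_pm_011_s

theorem s289_pm_011_s : ∃ t, chk3 f_pm_011_s t 139 1000 2 = true := ex3_b k36_pm_011_s k37_pm_011_s

theorem s290_pm_011_s : ∃ t, chk3 f_pm_011_s t 139 500 2 = true := ex3_b s289_pm_011_s k38_pm_011_s

theorem s291_pm_011_s : ∃ t, chk3 f_pm_011_s t 277 1001 2 = true := ex3_b k34_pm_011_s k35_pm_011_s

theorem s292_pm_011_s : ∃ t, chk3 f_pm_011_s t 138 1001 2 = true := ex3_a k33_pm_011_s s291_pm_011_s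

theorem s293_pm_011_s : ∃ t, chk3 f_pm_011_s t 138 500 2 = true := ex3_b k32_pm_011_s s292_pm_011_s

theorem s294_pm_011_s : ∃ t, chk3 f_pm_011_s t 69 500 2 = true := ex3_a s293_pm_011_s s290_pm_011_s

theorem s295_pm_011_s : ∃ t, chk3 f_pm_011_s t 69 250 2 = true := ex3_b s294_pm_011_s k39_pm_011_s

theorem s296_pm_011_s : ∃ t, chk3 f_pm_011_s t 69 250 1 = true := ex3_c s295_pm_011_s k40_pm_011_s

theorem s297_pm_011_s : ∃ t, chk3 f_pm_011_s t 34 250 1 = true := ex3_a k31_pm_011_s s296_pm_011_s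

theorem s298_pm_011_s : ∃ t, chk3 f_pm_011_s t 34 125 1 = true := ex3_b s297_pm_011_s k41_pm_011_s

theorem s299_pm_011_s : ∃ t, chk3 f_pm_011_s t 279 999 1 = true := ex3_b k29_pm_011_s k30_pm_011_s

theorem s300_pm_011_s : ∃ t, chk3 f_pm_011_s t 279 499 1 = true := ex3_b k28_pm_011_s s299_pm_011_s

theorem s301_pm_011_s : ∃ t, chk3 f_pm_011_s t 279 249 1 = true := ex3_b k27_pm_011_s s300_pm_011_s

theorem s302_pm_011_s : ∃ t, chk3 f_pm_011_s t 139 249 1 = true := ex3_a k26_pm_011_s s301_pm_011_s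

theorem s303_pm_011_s : ∃ t, chk3 f_pm_011_s t 69 249 1 = true := ex3_a k25_pm_011_s s302_pm_011_s

theorem s304_pm_011_s : ∃ t, chk3 f_pm_011_s t 34 249 1 = true := ex3_a k24_pm_011_s s303_pm_011_s

theorem s305_pm_011_s : ∃ t, chk3 f_pm_011_s t 34 124 1 = true := ex3_b k23_pm_011_s s304_pm_011_s

theorem s306_pm_011_s : ∃ t, chk3 f_pm_011_s t 34 62 1 = true := ex3_b s305_pm_011_s s298_pm_011_s

theorem s307_pm_011_s : ∃ t, chk3 f_pm_011_s t 17 62 1 = true := ex3_a s306_pm_011_s s288_pm_011_s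

theorem s308_pm_011_s : ∃ t, chk3 f_pm_011_s t 17 31 1 = true := ex3_b s307_pm_011_s k75_pm_011_s

theorem s309_pm_011_s : ∃ t, chk3 f_pm_011_s t 8 31 1 = true := ex3_a k22_pm_011_s s308_pm_011_s

theorem s310_pm_011_s : ∃ t, chk3 f_pm_011_s t 287 495 1 = true := ex3_b k20_pm_011_s k21_pm_011_s

theorem s311_pm_011_s : ∃ t, chk3 f_pm_011_s t 143 495 1 = true := ex3_a k19_pm_011_s s310_pm_011_s

theorem s312_pm_011_s : ∃ t, chk3 f_pm_011_s t 71 495 1 = true := ex3_a k18_pm_011_s s311_pm_011_s

theorem s313_pm_011_s : ∃ t, chk3 f_pm_011_s t 71 247 1 = true := ex3_b k17_pm_011_s s312_pm_011_s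

theorem s314_pm_011_s : ∃ t, chk3 f_pm_011_s t 35 247 1 = true := ex3_a k16_pm_011_s s313_pm_011_s

theorem s315_pm_011_s : ∃ t, chk3 f_pm_011_s t 35 123 1 = true := ex3_b k15_pm_011_s s314_pm_011_s

theorem s316_pm_011_s : ∃ t, chk3 f_pm_011_s t 35 61 1 = true := ex3_b k14_pm_011_s s315_pm_011_s

theorem s317_pm_011_s : ∃ t, chk3 f_pm_011_s t 17 61 1 = true := ex3_a k13_pm_011_s s316_pm_011_s

theorem s318_pm_011_s : ∃ t, chk3 f_pm_011_s t 17 30 1 = true := ex3_b k12_pm_011_s s317_pm_011_s

theorem s319_pm_011_s : ∃ t, chk3 f_pm_011_s t 8 30 1 = true := ex3_a k11_pm_011_s s318_pm_011_s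

theorem s320_pm_011_s : ∃ t, chk3 f_pm_011_s t 8 15 1 = true := ex3_b s319_pm_011_s s309_pm_011_s

theorem s321_pm_011_s : ∃ t, chk3 f_pm_011_s t 4 15 1 = true := ex3_a s320_pm_011_s s256_pm_011_s

theorem s322_pm_011_s : ∃ t, chk3 f_pm_011_s t 79 119 1 = true := ex3_a k9_pm_011_s k10_pm_011_s

theorem s323_pm_011_s : ∃ t, chk3 f_pm_011_s t 39 119 1 = true := ex3_a k8_pm_011_s s322_pm_011_s

theorem s324_pm_011_s : ∃ t, chk3 f_pm_011_s t 19 119 1 = true := ex3_a k7_pm_011_s s323_pm_011_s

theorem s325_pm_011_s : ∃ t, chk3 f_pm_011_s t 19 59 1 = true := ex3_b k6_pm_011_s s324_pm_011_s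

theorem s326_pm_011_s : ∃ t, chk3 f_pm_011_s t 19 29 1 = true := ex3_b k5_pm_011_s s325_pm_011_s

theorem s327_pm_011_s : ∃ t, chk3 f_pm_011_s t 9 29 1 = true := ex3_a k4_pm_011_s s326_pm_011_s

theorem s328_pm_011_s : ∃ t, chk3 f_pm_011_s t 9 14 1 = true := ex3_b k3_pm_011_s s327_pm_011_s

theorem s329_pm_011_s : ∃ t, chk3 f_pm_011_s t 4 14 1 = true := ex3_a k2_pm_011_s s328_pm_011_s

theorem s330_pm_011_s : ∃ t, chk3 f_pm_011_s t 4 7 1 = true := ex3_b s329_pm_011_s s321_pm_011_s

theorem s331_pm_011_s : ∃ t, chk3 f_pm_011_s t 2 7 1 = true := ex3_a s330_pm_011_s s192_pm_011_s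

theorem s332_pm_011_s : ∃ t, chk3 f_pm_011_s t 2 3 1 = true := ex3_b k1_pm_011_s s331_pm_011_s

theorem s333_pm_011_s : ∃ t, chk3 f_pm_011_s t 1 3 1 = true := ex3_a s332_pm_011_s s172_pm_011_s

theorem s334_pm_011_s : ∃ t, chk3 f_pm_011_s t 1 1 1 = true := ex3_b k0_pm_011_s s333_pm_011_s

theorem c_pm_011_s : CertNE 0 536870912 536870912 536870912 858993459 64424510 3 eng mog cd0q0 cd4q1 pd1 true true false .pnn 0 1 1
    ndB0q0 ndB4q1 pcB1 cut_pm_011_s Ext.none :=
  certNE1 (fam := true) (s1 := true) (s2 := false) (a := 0) (b := 1) (c := 1) (cn := .pnn) (n1 := ndB0q0) (n2 := ndB4q1) (pc := pcB1) (cut := cut_pm_011_s) (xt := Ext.none) (P1 := 0) (W1 := 536870912) (P2 := 536870912) (W2 := 536870912) (P3 := 858993459) (W3 := 64424510) (N0 := 3) (En := eng) (mo := mog) (C1 := cd0q0) (C2 := cd4q1) (C3 := pd1)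
    rfl (fun _ => rfl) s334_pm_011_s

end Pool.Agent.Strip051.G.I8000_8600.Tab.CS.BA04

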