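import Pool.Agent.Strip051.G.I8000_8600.StH
import Pool.Agent.Strip051.G.I8000_8600.StF

/-! # Unit strips 15 (generated) -/

set_option linter.all false
set_option maxRecDepth 100000

namespace Pool.Agent.Strip051.G.I8000_8600.Tab.St.C

open Pool.Agent.Strip051.PB Pool.Agent.Strip051.PB.T Pool.Agent.StripNear Pool.Agent.Strip051.LC
open Pool.Agent.Strip051.G.I8000_8600.Tab Pool.Agent.Strip051.G.I8000_8600.Tab.St

noncomputable def cut_B00pp_012_s1 : Cut := Cut.of [[⟨4, 0, 0, 1449551462⟩], [⟨0, 0, 0, 67108864⟩, ⟨1, 1, 0, 67108864⟩, ⟨2, 1, 0, 67108864⟩]]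

noncomputable def xt_B00pp_012_s1 : Ext := strExt dd false true true .u0 .u2 .u0m .pnp 0 1 2 rfl rfl gf1 vv ndB0q0 ndB0q2

noncomputable def f_B00pp_012_s1 : ℕ → ℕ → ℕ → ℕ → Bool := onCell 536870912 536870912 0 536870912 858993459 64424510
    (rowF 2 false true true .pnp 0 1 2 (qsf 0 536870912 0 536870912 1) ndB0q0 ndB0q2 pcB1 cut_B00pp_012_s1 xt_B00pp_012_s1)

def k0_B00pp_012_s1 : ∃ t, chk3 f_B00pp_012_s1 t 4 2 1 = true :=
  ⟨(b (l 2) (l 3)), by decide +kernel⟩

def k1_B00pp_012_s1 : ∃ t, chk3 f_B00pp_012_s1 t 10 4 1 = true :=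
  ⟨(b (c (a (c (a (l 2) (c (l 531091983) (l 532348943))) (l 532870415)) (c (a (b (c (l 531331087) (l 532524559)) (a (l 531727887) (l 531773711))) (b (c (l 531469327) (l 532609039)) (c (l 531819023) (l 532440847)))) (c (a (l 533663503) (l 533691919)) (l 534601743)))) (a (c (l 533937167) (a (l 2) (l 532003343))) (c (c (l 534263055) (l 534700303)) (a (b (l 532163599) (l 532115471)) (b (l 532306447) (l 532253455)))))) (c (b (c (b (a (a (l 2) (c (l 530874127) (l 532155151))) (a (c (l 531007759) (l 532236047)) (a (l 531690767) (l 531747343)))) (a (a (l 2) (c (l 530782223) (l 532072463))) (a (a (l 531505167) (l 531543311)) (c (l 531034383) (l 532214799))))) (a (c (l 533388559) (l 534461199)) (a (l 534060815) (l 532709647)))) (a (l 3) (a (c (b (l 531418895) (l 3)) (l 533607183)) (c (b (c (l 530928655) (l 532116495)) (c (l 530820367) (l 532016399))) (l 532794895))))) (a (b (c (l 533312527) (c (l 532452623) (l 531185423))) (l 3)) (b (c (a (l 533870607) (l 533883919)) (a (l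 532042255) (l 531909903))) (c (c (l 533967119) (l 533400079)) (a (l 531737871) (l 531887375))))))), by decide +kernel⟩

def k2_B00pp_012_s1 : ∃ t, chk3 f_B00pp_012_s1 t 11 8 1 = true :=
  ⟨(a (c (a (c (c (b (l 531638031) (c (l 531176207) (l 531714831))) (b (l 532715791) (l 532540943))) (c (l 533734159) (l 534618127))) (c (b (c (l 531835919) (l 532844559)) (c (c (l 531390991) (l 531895311)) (l 532667919))) (c (l 533792271) (l 534605839)))) (a (c (b (l 534049807) (l 533980431)) (b (l 532461839) (l 532409871))) (c (b (l 534070543) (l 533993231)) (b (l 532625167) (l 532574223))))) (c (c (c (a (b (l 532048143) (c (l 531622415) (l 16680312))) (b (c (l 16571664) (l 16589848)) (c (l 16651872) (l 16624384)))) (a (b (l 532985615) (l 532808719)) (b (l 16533816) (l 532960783)))) (a (b (l 16578272) (l 534262287)) (b (l 16590256) (l 534306319)))) (c (c (c (l 16729080) (l 533357071)) (a (l 533776655) (l 533540879))) (a (b (l 532776463) (l 532722447)) (b (l 16618536) (l 532857359)))))),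 by decide +kernel⟩

def k3_B00pp_012_s1 : ∃ t, chk3 f_B00pp_012_s1 t 11 9 1 = true :=
  ⟨(c (a (c (c (b (a (b (l 531295247) (l 531461903)) (b (l 531495183) (l 531396623))) (a (a (b (l 531044623) (l 530937103)) (b (l 531139087) (l 531034639))) (c (b (l 531039503) (l 530935823)) (l 532042767)))) (b (a (b (l 532405263) (l 532310543)) (l 532218383)) (a (b (l 532213519) (l 531846415)) (l 532031503)))) (b (a (c (l 533490703) (l 534418703)) (l 534071311)) (c (a (l 533312783) (l 533374223)) (l 534194447)))) (a (b (c (c (b (l 531711247) (l 531615759)) (l 532361999)) (l 534106127)) (c (c (b (l 531518479) (l 531419151)) (b (l 532494863) (l 532402447))) (c (l 533447695) (l 534152975)))) (b (c (c (a (l 532104463) (l 531966735)) (l 532786959)) (l 534152207)) (c (c (a (l 531915791) (l 531786511)) (l 532611855)) (l 533995535))))) (b (a (c (a (l 533869071) (l 533876239)) (a (l 531288335) (l 532520975))) (c (a (l 533876239) (l 533874703)) (a (l 532660239) (l 532517135)))) (a (c (a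 (l 533716239) (l 533715215)) (a (c (l 532734735) (l 531833871)) (l 531649807))) (c (a (l 532909583) (l 533699343)) (a (b (l 532598799) (l 532525071)) (l 532672783)))))), by decide +kernel⟩

def k4_B00pp_012_s1 : ∃ t, chk3 f_B00pp_012_s1 t 5 5 1 = true :=
  ⟨(a (l 3) (b (a (b (c (c (c (a (a (l 3) (l 530876687)) (l 531038479)) (a (l 531698959) (l 532109327))) (c (l 532354063) (l 533980943))) (c (a (l 533508367) (l 533497871)) (a (l 532138255) (l 532252175)))) (l 3)) (a (c (c (b (c (c (l 531022863) (l 531512079)) (l 532261391)) (b (c (l 531111183) (l 532119055)) (l 3))) (b (l 533779983) (l 533615375))) (c (b (l 533489935) (l 533258255)) (b (l 532359439) (l 532099855)))) (c (c (b (b (l 530687503) (l 530594575)) (b (l 530232847) (l 531742991))) (b (l 533844495) (l 533687311))) (c (b (l 533486095) (l 533257999)) (b (l 532462351) (l 532203279)))))) (l 3))), by decide +kernel⟩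

def k5_B00pp_012_s1 : ∃ t, chk3 f_B00pp_012_s1 t 6 4 2 = true :=
  ⟨(a (b (c (a (c (b (a (l 16655240) (l 16563928)) (a (c (l 16597808) (l 16612760)) (l 16679240))) (a (b (l 16608752) (l 16551808)) (b (l 16601200) (l 16542376)))) (c (b (a (l 16558424) (l 16554872)) (a (l 16587432) (l 16581552))) (a (b (l 16595064) (l 16618304)) (l 16517424)))) (a (a (b (l 16666000) (l 16598512)) (b (l 16658488) (l 16673888))) (b (l 16543384) (a (l 16666064) (l 16656864))))) (a (a (b (c (b (l 530991119) (l 532787215)) (l 534218255)) (c (c (l 532789263) (l 532805903)) (l 534069263))) (b (c (c (l 532675343) (l 533145103)) (l 534283535)) (c (c (l 532241935) (l 532988175)) (l 534140175)))) (c (b (c (a (l 532384271) (l 16547160)) (a (l 16559464) (l 16551352))) (c (a (l 532495887) (l 532750863)) (a (l 16690656) (l 16659848)))) (b (c (l 16707032) (l 16673192)) (c (l 533916687) (l 534075151)))))) (c (b (a (a (b (l 16486104) (l 16508184)) (a (l 16474672) (l 16495008))) (a (c (l 16480976) (l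 16592760)) (l 6))) (b (a (a (b (l 16609808) (l 16622224)) (l 16611184)) (c (l 16596136) (l 16617688))) (c (a (a (l 16589280) (l 16540696)) (l 16618048)) (a (l 533623055) (l 16636408))))) (a (b (a (l 16638400) (l 16626936)) (b (a (l 16659024) (l 16647032)) (l 534135823))) (b (l 16567496) (a (l 16642192) (l 16629760)))))), by decide +kernel⟩

def k6_B00pp_012_s1 : ∃ t, chk3 f_B00pp_012_s1 t 6 5 2 = true :=
  ⟨(b (a (a (b (c (a (b (l 531722767) (l 531363855)) (b (l 532484367) (l 532395791))) (a (l 533918223) (l 533992975))) (c (a (l 530683663) (l 530912527)) (l 533802255))) (a (b (c (c (l 532323599) (l 533007887)) (l 533998095)) (c (c (l 532134671) (l 532833551)) (l 533865487))) (b (c (l 532621583) (l 533988111)) (c (l 532713999) (l 533857295))))) (b (a (c (c (l 531351311) (l 533474575)) (l 533976591)) (a (l 532345615) (l 532475663))) (a (c (c (l 531441167) (l 533308687)) (l 533850127)) (a (l 532456975) (l 533942543))))) (b (a (a (a (c (l 530220047) (l 533604879)) (c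 (a (l 532004879) (l 530777359)) (l 533682447))) (a (c (a (l 530892815) (l 532088079)) (l 533747471)) (b (l 532422159) (l 531798287)))) (a (c (a (l 532756751) (l 532970255)) (l 533725711)) (c (l 532747023) (l 533730319)))) (a (a (l 3) (c (c (l 531874831) (l 532568335)) (l 533651727))) (a (c (l 532132111) (l 533653519)) (c (l 533095695) (l 533635599)))))), by decide +kernel⟩

def k7_B00pp_012_s1 : ∃ t, chk3 f_B00pp_012_s1 t 7 2 2 = true :=
  ⟨(a (b (b (l 6) (b (a (a (l 16616840) (l 6)) (l 6)) (a (a (l 16629752) (l 16616112)) (a (l 16601768) (l 6))))) (b (a (b (a (l 16646328) (l 16632576)) (a (l 533690895) (l 16651664))) (b (a (l 16618152) (l 16602776)) (a (l 16637184) (l 16621720)))) (a (a (b (l 533874447) (l 533745167)) (b (l 16672032) (a (l 16696344) (l 16689296)))) (a (b (l 16657592) (a (l 16682104) (l 16674592))) (b (l 16641952) (a (l 16666744) (l 16658472))))))) (b (l 6) (a (b (a (l 16595408) (c (l 16493288) (l 16493536))) (a (b (l 16625056) (l 16645320)) (b (l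 16522912) (l 16543288)))) (b (a (b (l 6) (l 16483328)) (l 6)) (a (b (l 16503328) (l 16523992)) (b (l 16482432) (l 16503368))))))), by decide +kernel⟩

def k8_B00pp_012_s1 : ∃ t, chk3 f_B00pp_012_s1 t 6 2 3 = true :=
  ⟨(b (a (c (b (a (c (c (l 16663544) (l 533622799)) (b (l 16630112) (l 533805839))) (c (l 16636000) (a (l 16624120) (l 16612392)))) (a (b (a (l 533873679) (l 533876495)) (a (l 533696527) (l 533699599))) (b (c (l 16663744) (l 533456399)) (a (l 533705487) (l 16671664))))) (a (b (a (b (l 16596496) (l 532983311)) (b (l 16585488) (l 16617344))) (b (a (l 532902415) (l 533005327)) (a (l 532776719) (l 532868879)))) (a (b (b (l 16574992) (l 16605408)) (b (l 16634912) (l 532954895))) (b (b (l 16564976) (l 16593968)) (b (l 16622056) (l 533035023)))))) (a (b (a (c (l 16610128) (l 16569336)) (c (l 16599008) (l 16560256))) (b (a (a (l 16544792) (l 16538728)) (c (l 16626944) (l 16598800))) (c (l 533734927) (c (l 533321487) (l 532726543))))) (a (c (b (l 16588336) (l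 16624040)) (b (l 16552128) (b (l 16588608) (l 16611552)))) (b (l 6) (c (l 16528528) (l 16505840)))))) (b (a (a (b (c (a (l 533487119) (l 533494799)) (a (l 532559375) (l 532645647))) (c (l 533280015) (l 531379471))) (b (a (c (l 533504783) (l 532729615)) (c (l 533514511) (l 532809231))) (a (c (l 533301007) (l 532453135)) (c (l 533315855) (l 532539407))))) (b (a (c (l 533545487) (l 532943887)) (a (l 533357839) (l 16631584))) (a (c (l 533357327) (a (l 532638479) (l 532744463))) (c (l 533431823) (l 532105999))))) (a (a (b (c (a (l 533056015) (l 532534799)) (a (l 531954959) (b (l 532133135) (l 531971343)))) (l 3)) (a (b (c (l 532824847) (l 531883791)) (l 532422927)) (b (c (l 533114895) (l 532250639)) (l 532497423)))) (a (a (b (b (l 532843023) (l 532733455)) (l 532576783)) (b (l 532863247) (l 532660239))) (b (a (l 532943119) (l 533026063)) (a (l 532747023) (l 532836623))))))), by decide +kernel⟩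

def k9_B00pp_012_s1 : ∃ t, chk3 f_B00pp_012_s1 t 7 2 3 = true :=
  ⟨(a (b (b (l 6) (a (a (b (l 16498816) (l 16601152)) (a (l 16584368) (l 16495856))) (a (l 16573032) (l 6)))) (b (a (a (b (l 16619976) (l 16640336)) (c (l 16541336) (l 16526896))) (a (l 16607312) (l 16596696))) (a (a (b (l 533110799) (c (l 533179151) (l 532654607))) (b (c (l 16572144) (l 16642600)) (a (l 532993551) (l 533034255)))) (b (a (l 16636936) (l 16540936)) (a (a (l 532537615) (l 16613600)) (a (l 16607000) (l 16558712))))))) (b (l 6) (a (b (a (l 16503144) (l 16494512)) (a (b (l 16529856) (c (l 16552944) (l 16588344))) (b (l 16604216) (l 16581680)))) (b (a (l 16487368) (l 6)) (a (b (l 16596232) (l 16615352)) (b (l 16589592) (l 16608440))))))), by decide +kernel⟩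

def k10_B00pp_012_s1 : ∃ t, chk3 f_B00pp_012_s1 t 1 12 8 = true :=
  ⟨(a (l 3) (a (a (a (l 3) (b (l 531667727) (l 3))) (a (b (l 532195087) (a (l 3) (l 532125711))) (b (l 532693007) (a (l 532378639) (l 531553551))))) (a (a (a (b (l 533057295) (b (a (l 532861967) (l 532978703)) (a (l 532768783) (l 532347407)))) (b (b (l 16700488) (l 16705928)) (a (b (l 533079823) (b (l 533004047) (l 532952591))) (b (l 16719288) (b (l 533100815) (l 533051919)))))) (b (a (b (l 16691408) (l 16701112)) (l 16687856)) (a (b (a (l 16713648) (l 16708856)) (a (l 533020943) (l 16719256))) (b (l 16702608) (a (l 16714912) (l 16708024)))))) (a (b (a (l 16669176) (l 16565032)) (a (a (l 16693848) (l 16642352)) (b (l 16664336) (l 16632752)))) (a (b (l 16626920) (a (l 16653696) (l 16642448))) (b (l 16602552) (a (l 16630352) (l 16617376)))))))), by decide +kernel⟩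

def k11_B00pp_012_s1 : ∃ t, chk3 f_B00pp_012_s1 t 2 13 8 = true :=
  ⟨(l 3), by decide +kernel⟩

def k12_B00pp_012_s1 : ∃ t, chk3 f_B00pp_012_s1 t 6 13 8 = true :=
  ⟨(a (l 3) (a (l 3) (a (l 3) (b (b (l 531950863) (b (a (l 3) (b (l 532494863) (l 3))) (l 3))) (l 3))))), by decide +kernel⟩

def k13_B00pp_012_s1 : ∃ t, chk3 f_B00pp_012_s1 t 14 13 8 = true :=
  ⟨(a (b (a (b (a (b (l 532699663) (a (l 532623631) (l 532685583))) (b (a (l 532787727) (l 532834063)) (a (l 532742671) (l 532782863)))) (a (b (a (b (l 532589583) (l 532567055)) (l 532371983)) (a (l 3) (l 532329999))) (b (a (l 532421135) (l 532735503)) (l 532665359)))) (b (a (b (l 532901903) (l 532853775)) (b (l 533005071) (l 532692751))) (a (b (l 532810767) (l 532780047)) (b (l 532386319) (l 532894991))))) (a (b (a (l 3) (l 532632591)) (l 3)) (b (a (l 532739343) (b (a (l 532840463) (l 532900879)) (a (b (l 532820495) (l 532538127)) (b (l 532881423) (l 532867599))))) (b (a (a (l 3) (b (a (l 3) (l 532747791)) (l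 3))) (a (b (l 532792079) (l 532777231)) (l 532845839))) (a (l 3) (a (l 3) (l 532544527))))))) (b (a (b (a (b (l 532855055) (l 533084175)) (a (l 16731432) (l 16728824))) (a (b (l 533050383) (l 533027343)) (b (l 16738512) (l 533194511)))) (b (a (l 16725320) (l 16717840)) (a (l 533380367) (l 16727680)))) (b (b (a (a (l 532466447) (l 533179663)) (l 533246479)) (a (a (b (l 532984591) (l 532971791)) (l 533162255)) (l 533193743))) (a (b (a (l 532950031) (l 533137167)) (a (b (l 532928527) (l 532913679)) (l 533093391))) (a (l 533164303) (l 533091855)))))), by decide +kernel⟩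

def k14_B00pp_012_s1 : ∃ t, chk3 f_B00pp_012_s1 t 15 13 8 = true :=
  ⟨(a (b (a (b (l 16704160) (a (l 16718832) (l 16688840))) (b (a (l 16690032) (l 16680152)) (a (l 16700536) (l 16690912)))) (a (b (a (l 16739832) (l 532725775)) (a (l 532999695) (l 532928015))) (b (a (l 16690512) (l 16681040)) (a (l 532321807) (b (l 16710768) (l 16706328)))))) (b (a (b (l 16622344) (a (l 16680592) (l 16669424))) (b (l 16640024) (a (l 16657200) (l 16643920)))) (a (b (a (l 16691768) (l 16680504)) (a (b (l 16700512) (l 16706496)) (b (l 16689208) (l 16695176)))) (b (a (l 16668200) (l 16654864)) (a (b (l 16676880) (l 16682848)) (b (l 16663528) (l 16669496))))))), by decide +kernel⟩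

def k15_B00pp_012_s1 : ∃ t, chk3 f_B00pp_012_s1 t 1 12 9 = true :=
  ⟨(a (l 3) (a (a (a (l 3) (b (l 532376591) (l 3))) (a (b (l 532760591) (l 532572943)) (b (l 533124623) (a (l 532854799) (l 533037583))))) (a (a (a (b (l 533393935) (b (l 533261839) (a (l 533132559) (l 533218319)))) (b (b (l 16706496) (l 16705840)) (a (b (l 16729616) (l 533287951)) (b (l 16723656) (l 533361167))))) (b (a (b (l 16695824) (l 16706072)) (l 16705800)) (a (b (a (l 16718120) (l 16712496)) (a (l 533446159) (l 16722656))) (b (l 16720920) (a (l 16714472) (l 16705808)))))) (a (b (a (l 16666960) (l 16564240)) (a (a (l 16691816) (l 16640808)) (b (l 16663736) (l 16632336)))) (b (a (l 16628184) (l 16606472)) (a (b (l 16644160) (l 16655032)) (a (l 16633616) (l 16622032)))))))), by decide +kernel⟩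

def k16_B00pp_012_s1 : ∃ t, chk3 f_B00pp_012_s1 t 2 13 9 = true :=
  ⟨(l 3), by decide +kernel⟩

def k17_B00pp_012_s1 : ∃ t, chk3 f_B00pp_012_s1 t 6 13 9 = true :=
  ⟨(a (l 3) (b (a (l 3) (a (l 3) (b (l 532905487) (b (a (l 3) (l 532351247)) (l 3))))) (l 3))), by decide +kernel⟩

def k18_B00pp_012_s1 : ∃ t, chk3 f_B00pp_012_s1 t 7 13 9 = true :=
  ⟨(a (a (b (a (b (a (a (l 533022991) (l 532531727)) (b (l 533153551) (a (l 533089807) (l 533119503)))) (a (b (a (l 532958223) (l 533004559)) (a (l 3) (l 532963855))) (b (b (l 533069071) (l 533046031)) (l 533013519)))) (b (a (b (l 533217551) (l 533172495)) (b (l 533294607) (l 533252879))) (a (b (l 533131279) (l 533099279)) (b (l 533215247) (l 533185295))))) (a (b (a (l 3) (l 532975375)) (l 3)) (b (a (l 533054991) (b (l 532620559) (a (b (l 533113871) (l 533099023)) (l 532883471)))) (a (b (a (l 3) (b (l 532771343) (l 3))) (l 3)) (b (b (l 532703247) (l 533090575)) (l 533063695)))))) (b (a (b (a (a (l 533339407) (l 16737184))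 (l 532925967)) (b (a (l 533311759) (l 16740368)) (a (l 533286415) (l 533333007)))) (b (a (l 16724576) (l 16716008)) (a (l 533268239) (l 16726288)))) (b (a (a (b (l 533259279) (b (l 533238799) (l 533224975))) (b (l 533271823) (l 533214223))) (b (l 533139727) (l 533091087))) (a (a (b (l 533201935) (l 533168655)) (b (l 533166351) (l 533144591))) (a (l 533052175) (l 533007375)))))) (a (b (a (b (l 16713296) (b (l 16710720) (l 16726544))) (b (a (l 16689496) (l 16680360)) (a (l 16700296) (l 16691368)))) (a (b (b (l 533003791) (l 532962831)) (a (l 532944655) (l 532368399))) (b (a (l 16690528) (l 16681680)) (a (l 532332815) (b (l 16711472) (l 16707032)))))) (b (a (b (l 16623968) (a (l 16681888) (l 16671736))) (b (l 16644056) (a (l 16660664) (l 16648664)))) (a (b (a (l 16693208) (l 16682888)) (a (b (l 16701960) (l 16707896)) (b (l 16691552) (l 16697440)))) (b (a (l 16671688) (l 16659568)) (b (a (l 16680272) (l 16668088)) (a (l 16686120) (l 16673912)))))))), by decide +kernel⟩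

def k19_B00pp_012_s1 : ∃ t, chk3 f_B00pp_012_s1 t 1 12 10 = true :=
  ⟨(a (l 3) (a (a (a (l 3) (b (l 533111055) (l 3))) (a (b (l 533351183) (l 533177871)) (b (l 533577999) (a (l 533355023) (l 533469199))))) (a (a (a (b (l 533618959) (b (l 533543695) (a (l 533500943) (l 533480207)))) (b (b (l 16706584) (l 16706752)) (b (a (l 16731448) (l 16724336)) (a (l 533464591) (l 533444879))))) (b (a (b (l 16692072) (l 16702608)) (l 16702496)) (a (b (l 533461007) (a (l 533416975) (l 16719968))) (b (l 16718040) (a (l 16711864) (l 16682448)))))) (a (b (a (b (l 16659456) (l 16585864)) (l 16563424)) (a (b (l 16638208) (b (l 16646048) (l 16672328))) (b (l 16663128) (l 16631920)))) (b (a (l 16629608) (l 16610760)) (a (b (l 16645672) (l 16656664)) (a (l 16637168) (l 16627072)))))))), by decide +kernel⟩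

def k20_B00pp_012_s1 : ∃ t, chk3 f_B00pp_012_s1 t 1 13 10 = true :=
  ⟨(a (l 3) (a (a (l 3) (b (a (l 3) (a (l 3) (b (l 533345551) (b (a (l 3) (l 533315087)) (l 3))))) (l 3))) (a (a (b (a (b (a (b (l 533455119) (l 533145871)) (b (l 533437711) (a (l 533413903) (l 533407247)))) (a (b (a (l 533359375) (l 533388559)) (l 533334543)) (b (l 533379855) (l 533346063)))) (b (a (b (l 533422351) (l 533391119)) (b (l 533398287) (l 533363215))) (a (b (l 533355023) (l 533309199)) (b (l 533323535) (l 533275919))))) (a (b (a (l 3) (l 533263887)) (l 3)) (b (a (l 533233935) (b (l 533225999) (a (b (l 533198351) (l 533173775)) (l 533168143)))) (b (a (a (l 3) (b (l 533166351) (l 3))) (a (l 532868879) (l 533119247))) (a (l 3) (l 533083919)))))) (b (a (b (a (a (l 533357327) (l 16736488)) (a (l 16732592) (l 16728600))) (a (b (l 533284879) (l 533234191)) (b (l 16738608) (l 533171215)))) (b (a (l 16722424) (l 16693056)) (b (l 533127439) (l 533074447)))) (b (b (a (a (l 533183503) (l 533114639))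 (l 533024271)) (a (a (b (l 533146127) (l 533121039)) (l 533060623)) (l 532979727))) (a (b (a (l 533085967) (l 533015311)) (a (l 533043471) (l 532995087))) (a (b (l 532968463) (l 532949775)) (l 532378895)))))) (a (b (a (b (a (l 16684560) (l 16697216)) (a (l 532762127) (l 16687248))) (b (a (l 16688944) (l 16680608)) (a (l 16700048) (l 16691864)))) (a (b (a (l 532674831) (l 532660495)) (a (l 532348687) (l 532612367))) (b (a (l 16690552) (l 16682384)) (a (l 532344591) (l 532060943))))) (b (a (b (l 16625736) (b (l 16634096) (l 16639672))) (a (l 16616968) (l 16606424))) (a (b (a (l 16694752) (l 16685456)) (a (l 532822287) (b (l 16694064) (l 16699872)))) (b (a (l 16675424) (l 16664608)) (a (b (l 16683896) (l 16689632)) (l 16654832))))))))), by decide +kernel⟩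

def k21_B00pp_012_s1 : ∃ t, chk3 f_B00pp_012_s1 t 2 6 11 = true :=
  ⟨(l 3), by decide +kernel⟩

def k22_B00pp_012_s1 : ∃ t, chk3 f_B00pp_012_s1 t 6 6 11 = true :=
  ⟨(b (a (a (l 3) (b (l 533397519) (l 3))) (a (b (l 533399311) (l 533277455)) (b (l 533397263) (a (l 533275151) (l 533270287))))) (a (l 3) (b (a (l 3) (a (l 3) (b (l 533167375) (b (a (l 3) (l 533112079)) (l 3))))) (l 3)))), by decide +kernel⟩

def k23_B00pp_012_s1 : ∃ t, chk3 f_B00pp_012_s1 t 14 6 11 = true :=
  ⟨(b (a (b (a (l 533394959) (b (l 16702504) (l 16703088))) (a (b (l 533298959) (a (l 533233423) (l 533229839))) (b (a (l 16728408) (l 16700096)) (a (l 533228047) (l 533224463))))) (b (a (b (l 16646008) (l 16698816)) (a (l 16639992) (l 16674032))) (a (b (a (l 16692672) (l 16685024)) (a (l 533216271) (l 533196047))) (b (a (l 16698120) (l 16690008)) (a (l 533168655) (l 16679872)))))) (a (b (a (b (a (a (l 533163791) (l 532893199)) (b (l 533176847) (a (l 533141775) (l 533141263)))) (a (b (a (l 533109007)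 (l 533106447)) (l 532800015)) (b (l 532835343) (l 533064719)))) (b (a (b (l 533175311) (l 533138191)) (b (l 533169935) (l 533131535))) (a (b (l 533098767) (l 533054991)) (b (l 533090831) (l 533046543))))) (a (b (a (l 3) (l 532992783)) (l 3)) (b (a (l 532985871) (b (l 533000975) (a (b (l 532969743) (l 532946703)) (l 532953359)))) (b (a (a (l 3) (b (l 532928015) (l 3))) (b (l 532920847) (l 532897551))) (a (l 3) (l 532329487)))))) (b (a (b (a (b (l 533159951) (l 533120015)) (a (l 533121807) (l 16715744))) (a (b (l 533077775) (l 533031183)) (b (l 533046287) (l 532996111)))) (a (b (l 533079823) (a (l 532992271) (l 532976143))) (b (l 533048335) (l 532689167)))) (b (a (a (b (l 532716815) (b (l 532950799) (l 532927247))) (b (l 532944399) (l 532894735))) (a (a (l 532896015) (l 532885519)) (l 532605199))) (a (a (b (l 532357391) (l 532987663)) (b (l 532852495) (l 532834063))) (a (b (l 532836367) (l 532819727)) (l 532280847))))))), by decide +kernel⟩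

def k24_B00pp_012_s1 : ∃ t, chk3 f_B00pp_012_s1 t 15 6 11 = true :=
  ⟨(b (a (b (a (a (l 16666008) (l 16658120)) (l 16646488)) (a (b (l 16656976) (a (l 16692688) (l 16684840))) (b (l 16662504) (l 16631504)))) (b (a (l 16631192) (l 16615416)) (a (a (l 16656624) (l 16649016)) (a (l 16641008) (l 16632512))))) (a (b (a (b (a (l 16703752) (l 16695952)) (a (l 532946703) (l 16686368))) (b (a (l 16688376) (l 16680896)) (a (l 16699800) (l 16692416)))) (a (b (a (l 532602895) (l 532624655)) (a (l 532285455) (l 532317711))) (b (a (l 16701064) (l 16683136)) (a (l 532357391) (l 532918543))))) (b (a (b (l 16627656) (a (l 16684832) (l 16676928))) (a (l 16620960) (l 16611896))) (a (b (a (l 16696416) (l 16688208)) (a (l 532915471) (c (l 16677960) (l 16679320)))) (b (b (l 16630120) (l 16656576)) (a (l 16669608) (l 16659960))))))), by decide +kernel⟩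

def k25_B00pp_012_s1 : ∃ t, chk3 f_B00pp_012_s1 t 2 7 2 = true :=
  ⟨(l 3), by decide +kernel⟩

def k26_B00pp_012_s1 : ∃ t, chk3 f_B00pp_012_s1 t 6 7 2 = true :=
  ⟨(l 3), by decide +kernel⟩

def k27_B00pp_012_s1 : ∃ t, chk3 f_B00pp_012_s1 t 14 7 2 = true :=
  ⟨(b (a (l 3) (b (a (b (a (b (b (l 532323343) (l 532319503)) (l 3)) (b (l 532121615) (b (l 532246799) (a (l 3) (l 532491791))))) (l 3)) (a (a (b (b (l 533015311) (c (l 533122831) (l 532867343))) (b (l 532442895) (l 3))) (b (b (l 532985103) (l 532162831)) (b (l 532409615) (b (l 532391183) (l 3))))) (a (b (b (l 532955663) (l 532400143)) (b (l 532377103) (a (l 532358415) (l 532341519)))) (b (b (l 532926735) (l 532369935)) (b (l 532345615) (b (l 532325135) (l 532309263))))))) (a (l 3) (b (b (a (l 3) (a (l 3) (b (c (l 532911119) (l 532203535)) (a (l 3) (a (l 3) (l 532509711)))))) (l 3)) (l 3))))) (l 3)), by decide +kernel⟩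

def k28_B00pp_012_s1 : ∃ t, chk3 f_B00pp_012_s1 t 30 28 2 = true :=
  ⟨(a (b (a (a (b (l 532902671) (l 532882703)) (b (l 532889615) (l 532872719))) (b (a (l 532882191) (l 532876815)) (l 533031439))) (a (b (a (b (l 532866319) (l 532854287)) (l 532586767)) (a (c (b (l 532901135) (l 532884751)) (b (l 532502543) (l 532215567))) (b (l 532840975) (l 532556815)))) (b (a (l 532582671) (l 532569103)) (a (b (l 532829967) (l 532806927)) (b (l 532808719) (l 532512527)))))) (b (a (b (l 532321039) (a (l 532579087) (l 532824335))) (a (b (l 532826383) (l 532793871)) (b (l 532794895) (l 532488463)))) (a (a (b (l 532814863) (b (l 532780303) (l 532480527))) (b (l 532516367) (b (l 532745743) (l 532711951)))) (b (a (l 532211727) (b (l 532722191) (l 532693519))) (a (b (l 532705807) (l 532669711)) (a (l 532385807) (l 532092687))))))), by decide +kernel⟩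

def k29_B00pp_012_s1 : ∃ t, chk3 f_B00pp_012_s1 t 60 29 2 = true :=
  ⟨(b (a (b (b (c (a (l 532879375) (l 532583695)) (a (l 532476687) (l 532755471))) (a (l 532368399) (l 532482063))) (a (b (c (l 532522767) (l 532378127)) (l 3)) (a (b (l 532707343) (b (l 532672015) (l 3))) (b (l 532427535) (b (l 532929295) (a (l 532640783) (l 532634895))))))) (b (a (b (l 532773135) (a (l 532732687) (l 532718863))) (b (l 532475407) (a (l 532704015) (l 532687887)))) (a (a (b (b (l 532696079) (l 532672015)) (b (l 532917007) (l 532625423))) (b (l 532535823) (b (l 532635151) (l 532612111)))) (a (b (l 532386831) (l 532339983)) (b (l 532639503) (l 532592655)))))) (a (l 3) (b (b (a (a (l 532457231) (l 532309775)) (a (l 532563471) (l 532547855))) (a (a (l 3) (l 532266511)) (a (l 532252175) (l 532505103)))) (a (l 3) (b (a (l 532211471) (l 532195855)) (l 3)))))), by decide +kernel⟩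

def k30_B00pp_012_s1 : ∃ t, chk3 f_B00pp_012_s1 t 61 29 2 = true :=
  ⟨(b (a (b (a (b (l 532441103) (c (l 532385551) (l 532667919))) (b (l 532402191) (c (l 532327439) (l 532649487)))) (a (b (c (l 532338959) (l 532349199)) (c (l 532294415) (l 532300047))) (b (c (l 532280591) (l 532330767)) (c (l 532236047) (l 532282127))))) (b (a (b (l 532090383) (a (l 532590607) (l 532567823))) (b (a (l 532592911) (l 532567311)) (a (l 532543759) (l 532518159)))) (a (b (c (l 532217359) (l 532307983)) (c (l 532172559) (l 532259599))) (b (c (l 532148751) (l 532280847)) (a (l 532180239) (l 532154383)))))) (a (b (b (a (c (l 532252175) (l 532252943)) (c (l 532193295) (l 532235279))) (a (a (l 532488207) (l 532470031)) (a (l 532450831) (l 532430351)))) (a (a (b (l 532447503) (l 532140559)) (b (l 532429583) (l 532122639))) (a (b (l 532410127) (l 532103183)) (b (l 532389647) (l 532082703))))) (b (b (a (c (l 532129551) (l 532213007)) (a (l 532135439) (l 532109583))) (a (a (l 532408591) (l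 532117007)) (a (l 532092687) (l 532066575)))) (a (a (b (l 532099343) (l 532060943)) (b (l 532076303) (l 532037903))) (a (b (l 532051983) (l 532013327)) (b (l 532025615) (l 531986703))))))), by decide +kernel⟩

def k31_B00pp_012_s1 : ∃ t, chk3 f_B00pp_012_s1 t 30 15 2 = true :=
  ⟨(b (a (l 3) (b (a (b (a (a (l 3) (b (l 532086287) (l 3))) (a (b (l 532066831) (l 3)) (b (l 532046351) (c (l 532269839) (l 532024335))))) (l 3)) (b (a (b (a (l 532024591) (l 532001295)) (a (c (l 532237071) (l 532013839)) (a (l 532242447) (l 532230415)))) (a (b (a (l 532252431) (l 532239631)) (c (l 531898895) (l 531988751))) (b (a (l 532226063) (l 532211727)) (c (l 531860495) (l 531973647))))) (a (b (a (c (l 532208911) (l 531978255)) (c (l 532174607) (l 531966479))) (l 3)) (b (a (a (l 531917839) (b (l 532181775) (l 532166415))) (b (l 532024591) (a (l 532151311) (l 532136207)))) (a (a (b (l 531963663) (l 3)) (b (l 532151055) (l 532140047))) (b (a (l 532136207) (l 532123151)) (l 531849487)))))))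 (a (l 3) (a (l 3) (a (l 3) (a (l 3) (l 14))))))) (l 3)), by decide +kernel⟩

def k32_B00pp_012_s1 : ∃ t, chk3 f_B00pp_012_s1 t 31 28 2 = true :=
  ⟨(a (b (b (a (a (l 532756495) (l 532443151)) (a (l 532124175) (l 531800591))) (a (a (l 532176655) (l 531858447)) (a (c (l 532484879) (l 16693808)) (c (l 16694720) (l 16689040))))) (b (a (a (b (l 532675087) (l 532644111)) (b (l 532622095) (l 532320527))) (a (b (l 532295951) (l 531992335)) (b (l 531965199) (l 531660047)))) (a (a (b (l 532340751) (l 532032783)) (b (l 532015375) (c (l 532134927) (l 532625935)))) (a (b (l 531685391) (a (l 532465935) (l 532433423))) (c (b (l 532007695) (l 531963151)) (a (l 16711592) (l 16709136))))))) (b (b (a (a (l 531472655) (c (l 16687264) (l 16694536))) (c (a (l 16680872) (l 16674240)) (c (l 16684272) (l 16689088)))) (a (c (a (l 16699288) (l 16693128)) (a (l 16684112) (l 16700008))) (c (a (l 16686744) (l 16680120)) (c (l 16668832) (l 16673416))))) (b (a (a (b (l 531630863) (l 531323919))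 (b (l 531292943) (a (l 16683936) (l 16681064)))) (a (c (b (l 16691128) (l 16694056)) (l 16679136)) (c (b (l 16684520) (l 16666488)) (l 16673688)))) (a (a (c (a (l 531649551) (l 16709408)) (b (l 16693560) (l 16706712))) (c (a (l 16706344) (l 16703224)) (b (l 16688416) (l 16701560)))) (c (a (c (l 16691600) (l 16689624)) (c (l 16684784) (l 16683320))) (a (c (l 16703592) (l 16707296)) (c (l 16697840) (l 16702120)))))))), by decide +kernel⟩

def k33_B00pp_012_s1 : ∃ t, chk3 f_B00pp_012_s1 t 62 29 2 = true :=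
  ⟨(b (a (b (a (b (a (l 532540175) (l 532511759)) (a (l 532490767) (l 532462095))) (b (a (l 532482063) (l 532451087)) (a (l 532432143) (l 532400911)))) (a (b (a (l 532442127) (l 532413199)) (a (l 532395279) (l 532365839))) (b (a (l 532382735) (l 532351503)) (a (l 532335375) (l 532035087))))) (b (b (a (a (l 532419343) (l 532386319)) (a (l 532352527) (l 532049423))) (a (a (l 532368655) (l 532067087)) (a (l 532032783) (l 531729423)))) (b (a (a (l 532050447) (l 531748623)) (a (l 531714063) (l 531410447))) (a (a (l 531734031) (l 531700239)) (a (l 531397135) (c (l 532011023) (l 532333071))))))) (a (b (a (a (b (l 532349967) (l 532306703)) (b (l 532320527) (l 532276751))) (b (a (l 532289551) (l 531989007)) (a (l 531976975) (l 531676175)))) (a (a (b (l 531996943) (l 531890191)) (b (l 531966479) (l 531792143))) (b (a (l 531666447) (b (l 532182031) (l 532161295))) (a (c (l 531798543) (l 531996431)) (b (l 532140815) (l 532121359)))))) (a (b (b (a (l 531687439) (l 531384847))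 (a (a (l 532188943) (l 532172047)) (b (l 532157455) (l 532135695)))) (b (a (b (l 532148495) (l 532127759)) (b (l 532114447) (l 532093711))) (a (b (l 532107535) (l 532088079)) (l 14)))) (b (b (a (a (l 532165135) (l 532147727)) (c (l 532232975) (l 532285711))) (a (b (l 532122895) (l 532101135)) (l 14))) (l 14))))), by decide +kernel⟩

def k34_B00pp_012_s1 : ∃ t, chk3 f_B00pp_012_s1 t 63 29 2 = true :=
  ⟨(b (a (a (a (b (b (l 531745551) (l 531425295)) (b (c (l 532013327) (l 16726544)) (c (l 532232975) (l 16718872)))) (b (b (l 531709199) (l 531388943)) (a (b (l 532153615) (l 531836687)) (b (l 531866895) (l 14))))) (b (b (a (l 531404047) (l 531098127)) (c (a (l 16708424) (l 16705328)) (l 531534607))) (a (a (b (l 531848719) (l 14)) (l 14)) (l 14)))) (a (a (a (b (b (l 532144655) (l 14)) (l 14)) (l 14)) (l 14)) (l 14))) (a (b (a (a (a (b (l 531826191) (l 14)) (l 14)) (l 14)) (l 14)) (l 14)) (l 14))), by decide +kernel⟩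

def k35_B00pp_012_s1 : ∃ t, chk3 f_B00pp_012_s1 t 31 15 2 = true :=
  ⟨(a (b (b (a (a (b (b (a (a (l 532196623) (l 532181263)) (c (l 531806223) (l 531975695))) (a (a (l 531892495) (l 531876879)) (b (l 531862287) (l 531845135)))) (b (a (b (l 531859727) (l 532012559)) (b (l 531829263) (l 14))) (a (b (l 531965967) (l 14)) (l 14)))) (b (b (a (b (l 531866383) (l 531848207)) (b (l 531833871) (l 531815695))) (a (b (l 531830543) (l 14)) (l 14))) (l 14))) (l 14)) (l 14)) (l 14)) (l 14)), by decide +kernel⟩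

def k36_B00pp_012_s1 : ∃ t, chk3 f_B00pp_012_s1 t 2 6 12 = true :=
  ⟨(l 3), by decide +kernel⟩

def k37_B00pp_012_s1 : ∃ t, chk3 f_B00pp_012_s1 t 6 6 12 = true :=
  ⟨(b (a (a (l 3) (b (l 532979727) (l 3))) (a (b (l 533034511) (l 532062223)) (b (l 532559887) (a (l 532919567) (l 532685327))))) (a (l 3) (b (a (l 3) (a (l 3) (b (l 532825359) (b (a (l 3) (l 532500239)) (l 3))))) (l 3)))), by decide +kernel⟩

def k38_B00pp_012_s1 : ∃ t, chk3 f_B00pp_012_s1 t 14 6 12 = true :=
  ⟨(b (a (a (b (l 532879375) (b (l 532493071) (a (l 532939791) (l 532956431)))) (b (b (l 16656088) (l 532871183)) (b (a (l 533053711) (l 533067535)) (a (l 532702223) (l 532716815))))) (b (a (b (l 16641528) (l 533163023)) (a (l 16635960) (l 16670408))) (a (b (a (l 16688992) (l 16681368)) (a (l 532730639) (l 532735503))) (b (a (l 16694632) (l 16686848)) (a (l 532735759) (l 16698096)))))) (a (b (a (b (a (b (l 532875791) (a (l 532827663) (l 532836879))) (b (l 532892943) (a (l 532845327) (l 532852239))))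 (a (b (a (l 532782863) (l 532792079)) (a (l 3) (l 532747535))) (b (a (l 532800271) (l 532808463)) (l 532759311)))) (b (b (a (l 532907023) (l 532922895)) (a (l 532863759) (l 532880655))) (a (b (l 532821007) (l 532780303)) (b (l 532839183) (l 532798735))))) (a (b (a (l 3) (l 532699151)) (l 3)) (b (a (l 532717839) (b (a (l 532754191) (l 532763407)) (a (b (l 532722959) (l 532701711)) (l 532721679)))) (b (a (a (l 3) (b (l 532670479) (l 3))) (a (b (l 532679951) (l 532657935)) (l 532678159))) (a (l 3) (a (l 3) (l 532369423))))))) (b (a (b (a (a (l 532645647) (l 532649743)) (b (l 532940815) (l 532897295))) (a (b (l 532854287) (l 532543759)) (b (l 532853007) (l 532807951)))) (b (a (l 532646415) (l 532647183)) (a (b (l 532847375) (l 532803599)) (l 532295951)))) (b (a (a (b (l 532503055) (b (l 532740367) (l 532718863))) (b (l 532761871) (l 532716559))) (a (b (l 532762383) (l 532724751)) (l 532223759))) (a (a (b (l 532151055) (b (l 532656655) (l 532647439))) (b (l 532677647)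 (l 532661263))) (a (b (l 532694799) (l 532680463)) (b (l 532721423) (l 532708367)))))))), by decide +kernel⟩

def k39_B00pp_012_s1 : ∃ t, chk3 f_B00pp_012_s1 t 15 6 12 = true :=
  ⟨(b (a (b (a (a (l 16662952) (l 16655816)) (l 16645648)) (a (b (l 16654624) (a (l 16690384) (l 16683152))) (b (l 16661864) (l 16652048)))) (a (b (l 16632944) (b (l 16649152) (l 16618416))) (b (l 16620456) (l 16599784)))) (a (b (a (b (a (l 16701864) (l 16694616)) (a (l 532589071) (l 16685448))) (b (a (l 16687776) (l 16681224)) (a (l 16699544) (l 16693008)))) (a (b (a (l 532258063) (l 532586767)) (a (a (l 532474127) (l 532504591)) (l 532290063))) (b (a (l 532925711) (l 16683944)) (a (l 532907791) (l 532974607))))) (b (a (b (l 16629720) (l 16683128)) (a (l 16625216) (l 16617736))) (a (b (a (l 16656248) (l 16649192)) (a (l 533014543) (l 16681448))) (b (l 16700736) (a (l 16673656) (l 16644424))))))), by decide +kernel⟩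

def k40_B00pp_012_s1 : ∃ t, chk3 f_B00pp_012_s1 t 1 12 13 = true :=
  ⟨(a (l 3) (a (a (a (l 3) (b (l 532493839) (l 3))) (a (b (l 532621839) (a (l 3) (l 532449295))) (b (l 531958543) (a (l 532258575) (l 531801871))))) (a (a (b (a (l 532340495) (a (l 532930831) (l 532694031))) (a (b (a (l 532719631) (l 532758031)) (a (l 532621071) (l 532391951))) (b (a (l 532791311) (l 532823311)) (a (b (l 532718095) (l 532667919)) (b (l 532751887) (l 532704015)))))) (b (a (b (l 16678632) (l 532695055)) (a (l 16673592) (l 16666536))) (a (b (a (l 532857615) (l 16698416)) (a (l 532497423) (l 532529935))) (b (a (l 16690896) (l 16683480)) (a (l 532560143) (l 16695160)))))) (a (b (a (a (l 16659704) (l 16653384)) (l 16602840)) (a (b (a (l 16676416) (l 16669896)) (a (l 16687928) (l 16681368))) (a (l 16648672) (l 16664192)))) (a (b (l 16550976) (l 16656856)) (b (l 16625864) (l 16647032))))))), by decide +kernel⟩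

def k41_B00pp_012_s1 : ∃ t, chk3 f_B00pp_012_s1 t 2 13 13 = true :=
  ⟨(l 3), by decide +kernel⟩

def k42_B00pp_012_s1 : ∃ t, chk3 f_B00pp_012_s1 t 6 13 13 = true :=
  ⟨(a (l 3) (b (a (l 3) (a (l 3) (b (l 532184335) (b (a (l 3) (b (l 532409871) (l 3))) (l 3))))) (l 3))), by decide +kernel⟩

def k43_B00pp_012_s1 : ∃ t, chk3 f_B00pp_012_s1 t 14 13 13 = true :=
  ⟨(a (b (b (a (a (b (l 532545295) (a (l 532483087) (l 532505103))) (b (l 532317455) (a (l 532525327) (l 532540431)))) (b (a (l 532617487) (l 532656911)) (a (l 532568335) (l 532342799)))) (a (a (b (a (b (l 532443663) (l 532417295)) (l 532452879)) (a (l 3) (l 532402703))) (b (a (b (l 532484367) (l 532458767)) (l 532490511)) (l 532430607))) (a (b (l 532253711) (l 532484623)) (b (l 532300303) (l 532532751))))) (a (b (a (l 3) (l 532383247)) (l 3)) (b (a (l 532429583) (b (a (l 532485903) (l 532510735)) (a (b (l 532457999) (l 532438543)) (b (l 532483087) (l 532463631))))) (b (a (a (l 3) (b (l 532393999) (l 3))) (a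 (b (l 532418575) (l 532397839)) (l 532433167))) (a (l 3) (a (l 3) (l 532126223))))))) (b (b (a (a (b (l 532698895) (l 532387087)) (b (l 532731919) (l 532688399))) (a (b (l 16701400) (l 532717327)) (l 532505871))) (a (a (b (l 532346383) (l 532309263)) (b (l 532646415) (l 532606991))) (a (b (l 532675343) (l 532637455)) (b (l 16716456) (l 532685583))))) (a (b (a (b (a (l 532534543) (l 532550159)) (b (l 532515087) (l 532227087))) (b (l 532566543) (l 532526095))) (a (b (a (l 532456207) (l 532466703)) (b (l 532168975) (l 532428815))) (b (l 532222479) (l 532476687)))) (b (a (b (l 532602639) (l 532570127)) (b (l 532656143) (l 532629519))) (b (a (l 532543759) (l 532608271)) (a (l 532532239) (l 532598031))))))), by decide +kernel⟩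

def k44_B00pp_012_s1 : ∃ t, chk3 f_B00pp_012_s1 t 15 13 13 = true :=
  ⟨(a (b (a (b (a (l 16699856) (l 16693208)) (a (a (l 16713984) (l 16710440)) (l 16684472))) (b (a (l 16687160) (l 16681584)) (a (l 16699288) (l 16693656)))) (a (b (a (b (l 16711168) (l 532705551)) (l 532546831)) (a (b (l 532689167) (l 532413199)) (b (l 532801295) (l 532799759)))) (b (a (l 532659983) (l 16684808)) (a (l 532922383) (l 533033743))))) (b (a (b (l 16673880) (l 16685504)) (b (l 16663384) (l 16674264))) (a (b (a (l 16700080) (l 16694248)) (a (l 16711672) (l 16705392))) (b (l 16706008) (a (l 16698912) (l 16692128)))))), by decide +kernel⟩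

def k45_B00pp_012_s1 : ∃ t, chk3 f_B00pp_012_s1 t 1 12 14 = true :=
  ⟨(a (l 3) (a (a (a (l 3) (b (l 531942415) (l 3))) (a (b (l 531894287) (a (l 3) (l 531969295))) (b (a (l 532341263) (l 532462863)) (a (l 531830543) (b (l 532292111) (l 532173071)))))) (a (a (a (b (a (l 532556303) (l 532616463)) (b (a (l 532391439) (l 532454415)) (a (l 532277007) (b (l 532370447) (l 532313615))))) (a (b (l 532671247) (b (l 532509199) (b (l 532423951) (l 532365583)))) (b (l 532454671) (b (l 532561423) (b (l 532478991) (l 532424975)))))) (b (a (b (l 16673448) (l 532212495)) (a (l 16668984) (l 16662416))) (a (b (a (l 532619023) (l 16694224)) (a (b (l 532542223) (l 532492303)) (b (l 16703728) (l 532555535)))) (b (a (l 16686928) (l 16679904)) (a (l 532373519) (l 16713024)))))) (a (b (a (a (l 16656272) (l 16650824)) (l 16601968)) (a (b (a (l 16673424) (l 16667696)) (a (l 16685336) (l 16679496))) (a (l 16647576) (l 16664248)))) (a (b (l 16636936) (l 16659032)) (b (l 16631648) (l 16652680))))))),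 by decide +kernel⟩

def k46_B00pp_012_s1 : ∃ t, chk3 f_B00pp_012_s1 t 2 13 14 = true :=
  ⟨(l 3), by decide +kernel⟩

def k47_B00pp_012_s1 : ∃ t, chk3 f_B00pp_012_s1 t 6 13 14 = true :=
  ⟨(a (l 3) (b (a (l 3) (a (l 3) (b (a (l 532015887) (l 532087567)) (b (a (l 3) (b (l 532011023) (l 3))) (l 3))))) (l 3))), by decide +kernel⟩

def k48_B00pp_012_s1 : ∃ t, chk3 f_B00pp_012_s1 t 14 13 14 = true :=
  ⟨(a (b (b (a (a (b (l 532189455) (a (l 532112143) (b (l 532163599) (l 532133647)))) (b (a (l 532240143) (l 532266767)) (a (a (l 532173327) (l 532186639)) (l 532206095)))) (b (a (l 532575759) (a (l 532355599) (l 532390671))) (a (a (l 532235791) (l 532269327)) (a (l 532305167) (l 532342799))))) (a (a (b (a (b (l 532066831) (l 532036367)) (b (l 532103695) (l 532073743))) (a (l 3) (b (l 532044815) (l 3)))) (b (a (b (l 532133391) (l 532104463)) (l 532150287)) (b (l 532090639) (l 532085007)))) (a (b (b (l 532214031) (l 532192015)) (l 532168207)) (b (a (l 532260623) (l 532300815))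 (l 532517135))))) (a (b (a (l 3) (l 532044815)) (l 3)) (b (a (l 532121615) (b (a (l 532199439) (l 532240911)) (a (b (l 532175375) (l 532157967)) (b (l 532216847) (l 532199695))))) (b (a (a (l 3) (b (a (l 3) (l 532109071)) (l 3))) (a (b (l 532139535) (l 532120335)) (l 532171791))) (a (l 3) (a (l 3) (l 531866895))))))) (b (b (a (a (b (a (l 532427023) (l 16722768)) (a (l 532381199) (l 532416783))) (b (l 532509455) (l 532734223))) (a (a (l 532535823) (l 16710224)) (l 532355855))) (a (a (b (a (l 532341263) (l 532377615)) (a (l 532311055) (l 532346383))) (b (l 532426255) (l 532392719))) (a (b (l 532492303) (l 532461071)) (b (l 16703864) (l 532548623))))) (a (b (a (b (a (l 532281871) (l 532315151)) (b (a (l 532257551) (l 532288271)) (l 531989263))) (b (l 532358927) (l 532323599))) (a (a (b (l 532748815) (l 531640591)) (b (l 532240399) (l 532202511))) (b (l 532023823) (l 532011791)))) (b (a (b (l 532432655) (l 532405775)) (b (l 532525839) (l 532504847))) (a (b (l 532383759)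 (l 532374543)) (b (l 532488463) (l 532481295))))))), by decide +kernel⟩

def k49_B00pp_012_s1 : ∃ t, chk3 f_B00pp_012_s1 t 15 13 14 = true :=
  ⟨(a (b (a (b (a (l 16687248) (l 16691736)) (a (a (l 16712296) (l 16708984)) (l 532257039))) (b (a (l 16686520) (l 16681984)) (a (l 16699016) (l 16652408)))) (a (b (a (b (l 16709976) (l 532622863)) (l 532236303)) (a (b (l 532611343) (l 532338959)) (b (l 532768015) (l 532770831)))) (b (a (l 532662799) (l 16706704)) (a (l 532937743) (l 533096463))))) (b (a (b (l 16676240) (l 16688040)) (b (l 16669032) (l 16677880))) (a (a (b (l 16702080) (l 16713616)) (b (l 16697536) (l 16708528))) (a (b (l 16690648) (l 16699128)) (a (l 16687536) (l 16682744)))))), by decide +kernel⟩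

def k50_B00pp_012_s1 : ∃ t, chk3 f_B00pp_012_s1 t 1 12 15 = true :=
  ⟨(a (l 3) (a (a (a (l 3) (b (l 531327759) (l 3))) (a (b (l 531390223) (a (l 3) (l 531447567))) (b (a (l 531918863) (l 532094223)) (a (b (l 531709711) (l 531564047)) (b (l 531896591) (l 531759631)))))) (a (a (a (b (a (l 532228111) (l 532314383)) (a (b (l 532039183) (l 531908367)) (b (l 532129295) (a (l 531979791) (l 532020495))))) (a (b (l 532392719) (b (l 532207119) (b (l 532109583) (l 532042767)))) (b (l 532198415) (b (l 532281871) (b (l 532188175) (l 532396047)))))) (b (a (b (l 16667912) (a (l 16684120) (l 16676912))) (a (l 16669336) (l 16658056))) (a (b (a (l 532364815) (l 532451855)) (a (a (l 532227855) (l 532275215)) (b (l 16699744) (l 532589583)))) (b (a (l 16682712) (l 16676120)) (a (b (l 16671440) (l 16699024)) (l 532011279)))))) (a (b (a (b (l 16644712) (l 16655976)) (l 16601080)) (a (b (a (l 16670272) (l 16665384)) (a (l 16682608) (l 16677528))) (a (l 16646440) (l 16622384)))) (a (b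 (l 16639184) (l 16682328)) (b (l 16637808) (l 16653040))))))), by decide +kernel⟩

def k51_B00pp_012_s1 : ∃ t, chk3 f_B00pp_012_s1 t 1 26 15 = true :=
  ⟨(a (l 3) (a (a (l 3) (a (l 3) (a (l 3) (b (a (l 531568655) (b (l 531706895) (l 531637007))) (a (l 3) (b (b (b (l 531593231) (l 3)) (l 3)) (l 3))))))) (a (a (a (b (a (a (b (l 531783695) (l 531715599)) (b (l 531834639) (a (l 531755023) (l 531780623)))) (b (a (l 531880975) (l 531918863)) (a (a (l 531802895) (l 531821583)) (l 531849487)))) (a (b (a (b (b (l 531672847) (l 531655695)) (l 531629583)) (a (l 531686927) (a (l 531706639) (l 531718671)))) (a (l 3) (b (a (l 531637263) (l 531664399)) (l 3)))) (b (a (b (l 531759119) (l 531726607)) (b (l 531800591) (l 531772943))) (b (a (l 531694607) (l 531755279)) (l 531717391))))) (b (b (a (a (l 531956495) (l 531998735)) (a (l 532045583) (l 532095503))) (a (a (l 531891727) (l 531939343)) (a (l 531990543) (l 532044559)))) (b (a (b (l 531874063) (l 531851791)) (a (l 531944975)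 (l 532002575))) (a (l 531831823) (a (l 531917839) (l 531976975)))))) (b (a (a (b (a (l 532147727) (l 532198671)) (a (l 532100111) (l 532153103))) (b (a (l 16710216) (l 16711496)) (a (l 16722560) (l 16718496)))) (a (b (l 532375311) (l 532333839)) (a (l 16703672) (l 16700216)))) (a (a (b (a (l 532060943) (l 532115471)) (a (l 532036367) (l 532090383))) (b (l 532461327) (l 532165903))) (a (b (l 532298767) (l 532274447)) (b (l 532421903) (l 532403727)))))) (a (a (b (a (l 532062223) (l 16690184)) (a (a (l 16710512) (l 16707440)) (a (l 16704640) (l 16702104)))) (b (a (l 16685864) (l 16682432)) (a (l 16677768) (l 16653144)))) (a (b (l 16678752) (l 16690720)) (b (l 16663176) (l 16670576))))))), by decide +kernel⟩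

def k52_B00pp_012_s1 : ∃ t, chk3 f_B00pp_012_s1 t 1 27 15 = true :=
  ⟨(a (l 3) (a (l 3) (a (a (a (b (a (l 3) (l 531684367)) (l 3)) (b (a (a (l 531766543) (l 531822863)) (b (a (l 531894799) (l 531954191)) (a (b (l 531874575) (a (l 531845135) (l 531874575))) (b (l 531934223) (l 531919119))))) (b (a (a (l 3) (b (a (l 3) (l 531799311)) (l 3))) (a (b (l 531843087) (l 531825423)) (l 531894031))) (a (l 3) (a (l 3) (b (l 531866895) (l 3))))))) (a (b (a (b (a (l 532013327) (l 532065551)) (a (b (l 531993359) (l 531977487)) (l 532033807))) (b (a (l 532114191) (l 532165391)) (a (l 532082447) (l 532138255)))) (a (b (a (b (l 531961359) (l 531944463)) (l 532000271)) (b (a (l 531927055) (l 531972367)) (l 531949327))) (b (l 531813391) (a (l 532041487) (l 532105487))))) (b (a (b (l 532252943) (l 532231695)) (b (l 532388367) (l 532373519))) (a (b (l 532214287) (l 532208143)) (b (l 532361743) (l 532089359)))))) (a (a (b (a (a (l 532227855) (l 532316687)) (a (l 16707568) (l 16715344)))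 (a (b (l 532529423) (l 532260879)) (b (l 532732943) (l 532740367)))) (b (a (l 532666383) (l 16707672)) (a (a (l 532902159) (l 16712808)) (b (l 16716824) (l 16722824))))) (a (a (b (l 16704192) (l 16715672)) (b (l 16696736) (l 16705136))) (b (a (l 16684736) (l 16672680)) (a (l 16693664) (l 16640160)))))))), by decide +kernel⟩

def k53_B00pp_012_s1 : ∃ t, chk3 f_B00pp_012_s1 t 2 7 3 = true :=
  ⟨(l 3), by decide +kernel⟩

def k54_B00pp_012_s1 : ∃ t, chk3 f_B00pp_012_s1 t 6 7 3 = true :=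
  ⟨(l 3), by decide +kernel⟩

def k55_B00pp_012_s1 : ∃ t, chk3 f_B00pp_012_s1 t 14 7 3 = true :=
  ⟨(b (a (l 3) (b (a (b (a (b (a (l 3) (c (l 532541455) (l 532094735))) (l 3)) (b (a (l 531819791) (l 531854095)) (c (b (l 532283663) (l 532005647)) (a (l 531593231) (l 531915279))))) (l 3)) (b (a (b (a (l 532159759) (l 531662863)) (c (b (l 532318735) (l 532308495)) (a (l 531972367) (l 532032783)))) (b (a (l 531973903) (l 532287503)) (a (b (l 532499215) (l 532488207)) (b (l 532275727) (l 532533007))))) (a (b (a (a (l 531571727) (l 531858959)) (b (l 532432911) (a (l 532407567) (l 532427791)))) (a (l 3) (a (l 3) (b (a (l 532135951) (l 532414735)) (l 3))))) (a (b (c (l 532320527) (b (l 532345615) (l 532060175))) (b (c (l 532564495) (l 532040719)) (c (l 532545039) (l 532017935)))) (a (b (l 532231695) (b (l 532473871) (l 532452623))) (b (l 532254735) (b (l 532496911) (l 532476175)))))))) (a (l 3) (b (b (a (l 3) (a (l 3) (b (a (b (l 532435215) (l 532154127)) (c (l 532284431)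 (l 532077583))) (a (l 3) (a (l 3) (l 532140559)))))) (l 3)) (l 3))))) (l 3)), by decide +kernel⟩

def k56_B00pp_012_s1 : ∃ t, chk3 f_B00pp_012_s1 t 30 28 3 = true :=
  ⟨(a (b (a (b (a (l 532608015) (l 532674575)) (a (l 532054799) (l 532394511))) (b (a (l 532480783) (l 532827407)) (a (l 532742671) (l 532821519)))) (a (b (a (a (l 532282639) (l 532317711)) (a (l 532357391) (l 532399375))) (a (a (b (l 532527119) (l 532237327)) (b (l 532566799) (l 532552207))) (b (l 532629775) (l 532341775)))) (b (a (l 532459023) (l 532799503)) (a (b (l 532704015) (l 532677391)) (b (l 532768783) (l 532469263)))))) (b (a (b (l 532935951) (a (l 532891919) (l 532686351))) (b (a (l 533032719) (l 533087503)) (a (l 533010703) (l 533061391)))) (a (b (a (l 532594447) (l 532651279)) (a (b (l 532827151) (l 532792847)) (c (l 532556815) (l 532631055)))) (b (a (l 532971023) (l 533017615)) (a (c (l 532580111) (l 532972303)) (l 532281103)))))), by decide +kernel⟩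

def k57_B00pp_012_s1 : ∃ t, chk3 f_B00pp_012_s1 t 30 29 3 = true :=
  ⟨(a (b (a (a (b (b (c (l 532323599) (b (l 532158479) (l 532146447))) (a (l 532439311) (l 532472335))) (b (a (l 3) (l 532411407)) (l 3))) (b (b (b (l 532587279) (l 532296207)) (l 532519695)) (c (b (l 532256783) (b (l 532215055) (l 532287759))) (b (l 532121871) (a (l 532305935) (l 532350991)))))) (b (a (b (l 532637455) (l 532312335)) (b (l 532426511) (l 532369935))) (a (b (c (l 532295183) (l 532209167)) (c (c (l 532261391) (l 532217615)) (l 532147983))) (b (c (l 532329999) (l 532561679)) (c (l 532275471) (l 532233231)))))) (a (l 3) (b (a (b (a (l 532122639) (l 532154127)) (a (l 3) (l 532232207))) (b (c (l 532222223) (l 532173839)) (a (l 532129039) (l 532159247)))) (a (l 3) (b (a (a (l 3) (l 532350991)) (l 532104975)) (l 3)))))) (b (a (b (a (b (l 532748303) (l 532692495)) (b (l 532798223) (l 532474639))) (a (b (l 532367119) (l 532311055)) (b (l 532418831) (l 532363535)))) (b (a (b (l 532844559) (l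 532521743)) (c (l 532238351) (l 532945935))) (a (a (l 532158991) (l 532182287)) (c (b (l 532698639) (l 532646927)) (l 532264207))))) (a (b (a (b (c (l 532254735) (l 532257295)) (c (l 532203279) (l 532199695))) (b (a (l 532566031) (l 532592143)) (a (l 532512527) (l 532538895)))) (a (b (a (l 532134927) (l 532163599)) (a (l 532081935) (l 532111375))) (b (a (l 532191503) (l 532218383)) (a (l 532139791) (l 532167183))))) (b (a (b (l 532090639) (a (l 532564495) (l 532589071))) (a (b (l 532664335) (l 532612623)) (b (l 532418831) (l 532367631)))) (a (b (a (l 532512783) (l 532537871)) (a (l 532462095) (l 532487439))) (b (a (l 532561935) (l 532317455)) (a (l 532243727) (l 532268303)))))))), by decide +kernel⟩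

def k58_B00pp_012_s1 : ∃ t, chk3 f_B00pp_012_s1 t 30 15 3 = true :=
  ⟨(b (a (l 3) (b (a (b (a (b (a (l 3) (a (l 3) (l 532068111))) (l 3)) (b (a (c (l 532082447) (l 532096271)) (b (l 532398863) (l 532105487))) (a (l 3) (a (l 532195855) (l 532075535))))) (l 3)) (b (a (b (a (c (l 532379407) (l 532178959)) (b (l 532451599) (l 532427279))) (a (a (l 532089359) (l 532102671)) (c (l 532079119) (l 532166671)))) (b (a (c (l 532135183) (l 532526095)) (c (l 532146447) (l 532566799))) (a (a (l 532410127) (l 532154383)) (a (l 532033807) (l 532047375))))) (a (b (b (a (c (l 532303119) (l 532088079)) (b (l 532093711) (l 532081935))) (a (l 3) (c (l 532295183) (l 532103695)))) (l 3)) (b (a (a (b (l 532375823) (l 532084495)) (b (l 532389135) (a (l 532363023) (l 532370703)))) (b (a (l 532403471) (l 532417807)) (c (l 532052239) (c (l 532153615) (l 532226063))))) (c (a (b (b (l 532024335) (l 532013839)) (a (l 3) (l 532269327))) (b (l 532031759) (l 532009487))) (a (b (a (c (l 532353551)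 (l 532134415)) (l 532131855)) (a (l 3) (l 532369935))) (b (a (l 532154639) (l 532442639)) (c (l 532101391) (l 532166927))))))))) (a (l 3) (b (a (l 3) (b (b (a (l 3) (a (l 3) (l 14))) (l 3)) (l 3))) (l 3))))) (l 3)), by decide +kernel⟩

def k59_B00pp_012_s1 : ∃ t, chk3 f_B00pp_012_s1 t 31 28 3 = true :=
  ⟨(a (a (b (b (c (l 16724472) (l 16722840)) (a (l 533107727) (l 533150223))) (b (a (l 532792591) (l 532832271)) (a (l 532187919) (c (l 532895247) (l 533174799))))) (a (b (c (l 16716536) (l 16718824)) (b (l 532599567) (c (l 532903439) (l 16731992)))) (b (c (l 16712856) (l 16713816)) (b (l 532630543) (c (l 532907279) (l 16727304)))))) (b (b (a (c (l 16704656) (l 16703608)) (a (l 16702200) (l 16656144))) (a (a (l 16694224) (l 16690368)) (a (l 16686240) (l 16682192)))) (b (a (a (l 532388367) (l 532141071)) (a (a (l 16692536) (l 16669552)) (a (l 16667560) (l 16665600)))) (a (a (c (l 16721432) (l 16722560)) (a (l 16700904) (l 16699168))) (a (a (l 16697416) (l 16695648))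 (a (l 16693856) (l 14))))))), by decide +kernel⟩

def k60_B00pp_012_s1 : ∃ t, chk3 f_B00pp_012_s1 t 31 29 3 = true :=
  ⟨(a (b (b (a (a (a (l 532623119) (l 532374799)) (b (l 532698639) (l 532378127))) (a (c (l 532004623) (l 533135119)) (a (l 532462351) (l 532207887)))) (b (a (a (l 532285711) (l 532326159)) (a (l 532094223) (l 531857423))) (a (a (l 531965199) (l 532006671)) (a (l 532044047) (c (l 532557839) (l 533081103)))))) (a (b (a (b (b (l 532196367) (l 532171023)) (a (l 532391183) (l 532413967))) (b (b (l 532238863) (l 532214031)) (b (l 532189711) (l 532165391)))) (a (b (a (l 532341519) (l 532365327)) (a (l 532024847) (l 532049423))) (b (a (l 532119567) (l 532141327)) (a (c (l 532488463) (l 532737551)) (l 531826447))))) (b (b (a (b (l 532277263) (l 531984399)) (b (l 532041743) (l 532017679))) (a (b (l 531960591) (l 531936783)) (b (l 531993615) (l 531835407)))) (a (b (a (l 532161551) (l 531911439)) (a (l 531846415) (l 14))) (l 14))))) (b (a (b (a (a (l 532220687)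 (l 531963663)) (b (l 532272143) (l 531953423))) (b (a (l 531883535) (c (l 16715184) (l 16728400))) (a (c (l 532154639) (l 16725392)) (l 14)))) (a (b (b (l 532017167) (l 14)) (l 14)) (l 14))) (a (a (b (b (b (l 531799311) (l 14)) (l 14)) (l 14)) (l 14)) (l 14)))), by decide +kernel⟩

def k61_B00pp_012_s1 : ∃ t, chk3 f_B00pp_012_s1 t 31 15 3 = true :=
  ⟨(a (b (b (a (b (b (a (a (c (l 532425999) (l 532608527)) (b (l 532284431) (l 532261903))) (a (a (l 532022543) (l 532034063)) (b (l 532061711) (l 532038671)))) (a (a (b (l 532213519) (c (l 532374031) (l 532550159))) (c (l 532124687) (l 532199695))) (a (c (l 532133135) (l 532104207)) (l 14)))) (a (b (c (a (a (l 532071183) (l 532076559)) (a (l 532081423) (l 14))) (a (b (l 532526095) (l 532500751)) (a (l 532275215) (l 14)))) (a (b (c (l 532042255) (l 532473103)) (l 14)) (l 14))) (l 14))) (l 14)) (l 14)) (l 14)) (l 14)), by decide +kernel⟩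

theorem t62_B00pp_012_s1 : ∃ t, chk3 f_B00pp_012_s1 t 31 14 3 = true := ex3_b k59_B00pp_012_s1 k60_B00pp_012_s1

theorem t63_B00pp_012_s1 : ∃ t, chk3 f_B00pp_012_s1 t 31 7 3 = true := ex3_b t62_B00pp_012_s1 k61_B00pp_012_s1

theorem t64_B00pp_012_s1 : ∃ t, chk3 f_B00pp_012_s1 t 30 14 3 = true := ex3_b k56_B00pp_012_s1 k57_B00pp_012_s1

theorem t65_B00pp_012_s1 : ∃ t, chk3 f_B00pp_012_s1 t 30 7 3 = true := ex3_b t64_B00pp_012_s1 k58_B00pp_012_s1

theorem t66_B00pp_012_s1 : ∃ t, chk3 f_B00pp_012_s1 t 15 7 3 = true := ex3_a t65_B00pp_012_s1 t63_B00pp_012_s1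

theorem t67_B00pp_012_s1 : ∃ t, chk3 f_B00pp_012_s1 t 7 7 3 = true := ex3_a k55_B00pp_012_s1 t66_B00pp_012_s1

theorem t68_B00pp_012_s1 : ∃ t, chk3 f_B00pp_012_s1 t 3 7 3 = true := ex3_a k54_B00pp_012_s1 t67_B00pp_012_s1

theorem t69_B00pp_012_s1 : ∃ t, chk3 f_B00pp_012_s1 t 1 7 3 = true := ex3_a k53_B00pp_012_s1 t68_B00pp_012_s1

theorem t70_B00pp_012_s1 : ∃ t, chk3 f_B00pp_012_s1 t 1 13 15 = true := ex3_b k51_B00pp_012_s1 k52_B00pp_012_s1

theorem t71_B00pp_012_s1 : ∃ t, chk3 f_B00pp_012_s1 t 1 6 15 = true := ex3_b k50_B00pp_012_s1 t70_B00pp_012_s1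

theorem t72_B00pp_012_s1 : ∃ t, chk3 f_B00pp_012_s1 t 7 13 14 = true := ex3_a k48_B00pp_012_s1 k49_B00pp_012_s1

theorem t73_B00pp_012_s1 : ∃ t, chk3 f_B00pp_012_s1 t 3 13 14 = true := ex3_a k47_B00pp_012_s1 t72_B00pp_012_s1

theorem t74_B00pp_012_s1 : ∃ t, chk3 f_B00pp_012_s1 t 1 13 14 = true := ex3_a k46_B00pp_012_s1 t73_B00pp_012_s1

theorem t75_B00pp_012_s1 : ∃ t, chk3 f_B00pp_012_s1 t 1 6 14 = true := ex3_b k45_B00pp_012_s1 t74_B00pp_012_s1

theorem t76_B00pp_012_s1 : ∃ t, chk3 f_B00pp_012_s1 t 1 6 7 = true := ex3_c t75_B00pp_012_s1 t71_B00pp_012_s1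

theorem t77_B00pp_012_s1 : ∃ t, chk3 f_B00pp_012_s1 t 7 13 13 = true := ex3_a k43_B00pp_012_s1 k44_B00pp_012_s1

theorem t78_B00pp_012_s1 : ∃ t, chk3 f_B00pp_012_s1 t 3 13 13 = true := ex3_a k42_B00pp_012_s1 t77_B00pp_012_s1

theorem t79_B00pp_012_s1 : ∃ t, chk3 f_B00pp_012_s1 t 1 13 13 = true := ex3_a k41_B00pp_012_s1 t78_B00pp_012_s1

theorem t80_B00pp_012_s1 : ∃ t, chk3 f_B00pp_012_s1 t 1 6 13 = true := ex3_b k40_B00pp_012_s1 t79_B00pp_012_s1

theorem t81_B00pp_012_s1 : ∃ t, chk3 f_B00pp_012_s1 t 7 6 12 = true := ex3_a k38_B00pp_012_s1 k39_B00pp_012_s1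

theorem t82_B00pp_012_s1 : ∃ t, chk3 f_B00pp_012_s1 t 3 6 12 = true := ex3_a k37_B00pp_012_s1 t81_B00pp_012_s1

theorem t83_B00pp_012_s1 : ∃ t, chk3 f_B00pp_012_s1 t 1 6 12 = true := ex3_a k36_B00pp_012_s1 t82_B00pp_012_s1

theorem t84_B00pp_012_s1 : ∃ t, chk3 f_B00pp_012_s1 t 1 6 6 = true := ex3_c t83_B00pp_012_s1 t80_B00pp_012_s1

theorem t85_B00pp_012_s1 : ∃ t, chk3 f_B00pp_012_s1 t 1 6 3 = true := ex3_c t84_B00pp_012_s1 t76_B00pp_012_s1

theorem t86_B00pp_012_s1 : ∃ t, chk3 f_B00pp_012_s1 t 1 3 3 = true := ex3_b t85_B00pp_012_s1 t69_B00pp_012_s1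

theorem t87_B00pp_012_s1 : ∃ t, chk3 f_B00pp_012_s1 t 31 29 2 = true := ex3_a k33_B00pp_012_s1 k34_B00pp_012_s1

theorem t88_B00pp_012_s1 : ∃ t, chk3 f_B00pp_012_s1 t 31 14 2 = true := ex3_b k32_B00pp_012_s1 t87_B00pp_012_s1

theorem t89_B00pp_012_s1 : ∃ t, chk3 f_B00pp_012_s1 t 31 7 2 = true := ex3_b t88_B00pp_012_s1 k35_B00pp_012_s1

theorem t90_B00pp_012_s1 : ∃ t, chk3 f_B00pp_012_s1 t 30 29 2 = true := ex3_a k29_B00pp_012_s1 k30_B00pp_012_s1

theorem t91_B00pp_012_s1 : ∃ t, chk3 f_B00pp_012_s1 t 30 14 2 = true := ex3_b k28_B00pp_012_s1 t90_B00pp_012_s1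

theorem t92_B00pp_012_s1 : ∃ t, chk3 f_B00pp_012_s1 t 30 7 2 = true := ex3_b t91_B00pp_012_s1 k31_B00pp_012_s1

theorem t93_B00pp_012_s1 : ∃ t, chk3 f_B00pp_012_s1 t 15 7 2 = true := ex3_a t92_B00pp_012_s1 t89_B00pp_012_s1

theorem t94_B00pp_012_s1 : ∃ t, chk3 f_B00pp_012_s1 t 7 7 2 = true := ex3_a k27_B00pp_012_s1 t93_B00pp_012_s1

theorem t95_B00pp_012_s1 : ∃ t, chk3 f_B00pp_012_s1 t 3 7 2 = true := ex3_a k26_B00pp_012_s1 t94_B00pp_012_s1

theorem t96_B00pp_012_s1 : ∃ t, chk3 f_B00pp_012_s1 t 1 7 2 = true := ex3_a k25_B00pp_012_s1 t95_B00pp_012_s1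

theorem t97_B00pp_012_s1 : ∃ t, chk3 f_B00pp_012_s1 t 7 6 11 = true := ex3_a k23_B00pp_012_s1 k24_B00pp_012_s1

theorem t98_B00pp_012_s1 : ∃ t, chk3 f_B00pp_012_s1 t 3 6 11 = true := ex3_a k22_B00pp_012_s1 t97_B00pp_012_s1

theorem t99_B00pp_012_s1 : ∃ t, chk3 f_B00pp_012_s1 t 1 6 11 = true := ex3_a k21_B00pp_012_s1 t98_B00pp_012_s1

theorem t100_B00pp_012_s1 : ∃ t, chk3 f_B00pp_012_s1 t 1 6 10 = true := ex3_b k19_B00pp_012_s1 k20_B00pp_012_s1

theorem t101_B00pp_012_s1 : ∃ t, chk3 f_B00pp_012_s1 t 1 6 5 = true := ex3_c t100_B00pp_012_s1 t99_B00pp_012_s1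

theorem t102_B00pp_012_s1 : ∃ t, chk3 f_B00pp_012_s1 t 3 13 9 = true := ex3_a k17_B00pp_012_s1 k18_B00pp_012_s1

theorem t103_B00pp_012_s1 : ∃ t, chk3 f_B00pp_012_s1 t 1 13 9 = true := ex3_a k16_B00pp_012_s1 t102_B00pp_012_s1

theorem t104_B00pp_012_s1 : ∃ t, chk3 f_B00pp_012_s1 t 1 6 9 = true := ex3_b k15_B00pp_012_s1 t103_B00pp_012_s1

theorem t105_B00pp_012_s1 : ∃ t, chk3 f_B00pp_012_s1 t 7 13 8 = true := ex3_a k13_B00pp_012_s1 k14_B00pp_012_s1

theorem t106_B00pp_012_s1 : ∃ t, chk3 f_B00pp_012_s1 t 3 13 8 = true := ex3_a k12_B00pp_012_s1 t105_B00pp_012_s1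

theorem t107_B00pp_012_s1 : ∃ t, chk3 f_B00pp_012_s1 t 1 13 8 = true := ex3_a k11_B00pp_012_s1 t106_B00pp_012_s1

theorem t108_B00pp_012_s1 : ∃ t, chk3 f_B00pp_012_s1 t 1 6 8 = true := ex3_b k10_B00pp_012_s1 t107_B00pp_012_s1

theorem t109_B00pp_012_s1 : ∃ t, chk3 f_B00pp_012_s1 t 1 6 4 = true := ex3_c t108_B00pp_012_s1 t104_B00pp_012_s1

theorem t110_B00pp_012_s1 : ∃ t, chk3 f_B00pp_012_s1 t 1 6 2 = true := ex3_c t109_B00pp_012_s1 t101_B00pp_012_s1

theorem t111_B00pp_012_s1 : ∃ t, chk3 f_B00pp_012_s1 t 1 3 2 = true := ex3_b t110_B00pp_012_s1 t96_B00pp_012_s1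

theorem t112_B00pp_012_s1 : ∃ t, chk3 f_B00pp_012_s1 t 1 3 1 = true := ex3_c t111_B00pp_012_s1 t86_B00pp_012_s1

theorem t113_B00pp_012_s1 : ∃ t, chk3 f_B00pp_012_s1 t 3 2 3 = true := ex3_a k8_B00pp_012_s1 k9_B00pp_012_s1

theorem t114_B00pp_012_s1 : ∃ t, chk3 f_B00pp_012_s1 t 6 2 2 = true := ex3_b k5_B00pp_012_s1 k6_B00pp_012_s1

theorem t115_B00pp_012_s1 : ∃ t, chk3 f_B00pp_012_s1 t 3 2 2 = true := ex3_a t114_B00pp_012_s1 k7_B00pp_012_s1

theorem t116_B00pp_012_s1 : ∃ t, chk3 f_B00pp_012_s1 t 3 2 1 = true := ex3_c t115_B00pp_012_s1 t113_B00pp_012_s1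

theorem t117_B00pp_012_s1 : ∃ t, chk3 f_B00pp_012_s1 t 11 4 1 = true := ex3_b k2_B00pp_012_s1 k3_B00pp_012_s1

theorem t118_B00pp_012_s1 : ∃ t, chk3 f_B00pp_012_s1 t 5 4 1 = true := ex3_a k1_B00pp_012_s1 t117_B00pp_012_s1

theorem t119_B00pp_012_s1 : ∃ t, chk3 f_B00pp_012_s1 t 5 2 1 = true := ex3_b t118_B00pp_012_s1 k4_B00pp_012_s1

theorem t120_B00pp_012_s1 : ∃ t, chk3 f_B00pp_012_s1 t 2 2 1 = true := ex3_a k0_B00pp_012_s1 t119_B00pp_012_s1

theorem t121_B00pp_012_s1 : ∃ t, chk3 f_B00pp_012_s1 t 1 2 1 = true := ex3_a t120_B00pp_012_s1 t116_B00pp_012_s1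

theorem t122_B00pp_012_s1 : ∃ t, chk3 f_B00pp_012_s1 t 1 1 1 = true := ex3_b t121_B00pp_012_s1 t112_B00pp_012_s1

theorem c_B00pp_012_s1 : CertF 0 536870912 0 536870912 858993459 64424510 false true true .pnp 0 1 2
    ndB0q0 ndB0q2 pcB1 cut_B00pp_012_s1 xt_B00pp_012_s1 :=
  certF2 (fam := false) (s1 := true) (s2 := true) (a := 0) (b := 1) (c := 2) (cn := .pnp) (n1 := ndB0q0) (n2 := ndB0q2) (pc := pcB1) (cut := cut_B00pp_012_s1) (xt := xt_B00pp_012_s1) (P1 := 0) (W1 := 536870912) (P2 := 0) (W2 := 536870912) (P3 := 858993459) (W3 := 64424510)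
    rfl (fun _ => rfl) t122_B00pp_012_s1

theorem s_B00pp_012_s1 {κ x : ℝ} (hκ : κ * h0 = ken x) (hx : ((858993459 : ℕ) : ℝ) / S ≤ x)
    (hx' : x ≤ (((858993459 : ℕ) : ℝ) + (64424510 : ℕ)) / S)
    (H : CutB (VFD κ) PP tK tL pcB (Cut.of [[⟨0, 0, 0, 67108864⟩, ⟨1, 1, 0, 67108864⟩, ⟨2, 1, 0, 67108864⟩]]) 0 1 2 0 0 (sgb true) (sgb true) x) :
    AltB (VFD κ) PP tK tL pcB [⟨3, 0, 0, 1449551462⟩] 0 1 2 0 0 (sgb true) (sgb true) x :=
  strip_altBD (m := 1449551462) true rfl hκ (SH.κ0 hκ (SH.hx1 hx).le (SH.hx2 hx').le) (SH.hx1 hx).le (SH.hx2 hx') (covB00).cov (covB02).cov hx hx' c_B00pp_012_s1 H ((okx hx hx').extB (T := tt) (sideB hx hx') hκ rfl rfl (.O 0 true) (.O 2 true) (Or.inr rfl))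

noncomputable def cut_B00pp_012_s3 : Cut := Cut.of [[⟨3, 0, 0, 2845415833⟩], [⟨0, 0, 0, 67108864⟩, ⟨1, 1, 0, 67108864⟩, ⟨2, 1, 0, 67108864⟩]]

noncomputable def f_B00pp_012_s3 : ℕ → ℕ → ℕ → ℕ → Bool := onCell 0 536870912 0 536870912 858993459 64424510
    (rowF 0 false true true .pnp 0 1 2 (qsf 0 536870912 0 536870912 1) ndB0q0 ndB0q2 pcB1 cut_B00pp_012_s3 Ext.none)

def k0_B00pp_012_s3 : ∃ t, chk3 f_B00pp_012_s3 t 1 1 1 = true :=
  ⟨(l 6), by decide +kernel⟩

theorem c_B00pp_012_s3 : CertF 0 536870912 0 536870912 858993459 64424510 false true true .pnp 0 1 2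
    ndB0q0 ndB0q2 pcB1 cut_B00pp_012_s3 Ext.none :=
  certF0 (fam := false) (s1 := true) (s2 := true) (a := 0) (b := 1) (c := 2) (cn := .pnp) (n1 := ndB0q0) (n2 := ndB0q2) (pc := pcB1) (cut := cut_B00pp_012_s3) (xt := Ext.none) (P1 := 0) (W1 := 536870912) (P2 := 0) (W2 := 536870912) (P3 := 858993459) (W3 := 64424510)
    rfl k0_B00pp_012_s3

theorem s_B00pp_012_s3 {κ x : ℝ} (hκ : κ * h0 = ken x) (hx : ((858993459 : ℕ) : ℝ) / S ≤ x)
    (hx' : x ≤ (((858993459 : ℕ) : ℝ) + (64424510 : ℕ)) / S)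
    (H : CutB (VFD κ) PP tK tL pcB (Cut.of [[⟨0, 0, 0, 67108864⟩, ⟨1, 1, 0, 67108864⟩, ⟨2, 1, 0, 67108864⟩]]) 0 1 2 0 0 (sgb true) (sgb true) x) :
    AltB (VFD κ) PP tK tL pcB [⟨4, 0, 0, 2845415833⟩] 0 1 2 0 0 (sgb true) (sgb true) x :=
  strip_altBD (m := 2845415833) false rfl hκ (SH.κ0 hκ (SH.hx1 hx).le (SH.hx2 hx').le) (SH.hx1 hx).le (SH.hx2 hx') (covB00).cov (covB02).cov hx hx' c_B00pp_012_s3 H (noExt_B)

noncomputable def cut_B00pp_022_s1 : Cut := Cut.of [[⟨4, 0, 0, 1449551462⟩], [⟨0, 0, 0, 67108864⟩, ⟨1, 1, 0, 67108864⟩, ⟨2, 1, 0, 67108864⟩]]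

noncomputable def f_B00pp_022_s1 : ℕ → ℕ → ℕ → ℕ → Bool := onCell 1073741824 536870912 0 536870912 858993459 64424510
    (rowF 2 false true true .pp 0 2 2 (qsf 0 536870912 0 536870912 2) ndB0q0 ndB0q2 pcB2 cut_B00pp_022_s1 Ext.none)

def k0_B00pp_022_s1 : ∃ t, chk3 f_B00pp_022_s1 t 4 2 1 = true :=
  ⟨(a (b (l 6) (a (b (l 6) (b (l 6) (c (a (a (a (l 16521248) (l 16570352)) (l 16580864)) (l 16531472)) (a (a (b (l 16521144) (l 16515376)) (l 16540704)) (a (l 16599416) (l 16574080)))))) (l 6))) (l 6)), by decide +kernel⟩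

def k1_B00pp_022_s1 : ∃ t, chk3 f_B00pp_022_s1 t 8 12 1 = true :=
  ⟨(a (b (a (a (c (a (l 16535416) (l 16564600)) (a (c (l 16546568) (l 16497680)) (l 16513712))) (c (l 16534832) (l 16532328))) (a (c (l 16592560) (l 16598584)) (l 16543720))) (a (c (a (b (l 16536176) (l 16534736)) (l 16533112)) (a (a (b (l 16535232) (l 16530600)) (l 16504984)) (b (l 16568904) (l 16565920)))) (a (a (l 16546160) (l 16599080)) (l 16552312)))) (b (a (c (l 16493520) (b (l 16468480) (l 16480664))) (c (l 16447848) (a (l 16512840) (l 16481496)))) (a (c (l 16516192) (a (l 16599536) (l 16482736))) (c (l 16465736) (a (l 16532880) (l 16498344)))))), by decide +kernel⟩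

def k2_B00pp_022_s1 : ∃ t, chk3 f_B00pp_022_s1 t 16 13 1 = true :=
  ⟨(b (a (b (c (a (l 16512848) (l 16574976)) (a (a (l 16526368) (l 16541272)) (l 16563336))) (a (a (c (a (l 16546208) (l 16551640)) (l 16485848)) (c (l 16559720) (l 16538120))) (c (b (l 16575368) (l 16575784)) (l 16519224)))) (c (b (l 16520160) (c (l 16522416) (l 16522216))) (b (l 16522416) (c (l 16522144) (l 16522208))))) (c (a (a (b (b (a (b (a (l 16545768) (l 16551400)) (a (l 16548768) (l 16554032))) (b (l 16559728) (l 16561936))) (a (l 16560056) (l 16570336))) (a (b (l 16571640) (l 16583248)) (c (l 16592568) (l 16582424)))) (b (b (a (b (l 16570688) (l 16572368)) (l 16582024)) (l 16585536)) (a (l 16597536) (l 16607344)))) (a (b (b (c (l 16599296) (l 16596064)) (l 16605296)) (l 16621776)) (b (b (l 16576016) (l 16540536)) (l 16556520)))) (c (a (a (b (b (b (l 16535080) (l 16506096)) (l 16546472)) (a (l 16558256) (l 16571704))) (b (b (l 16522848) (l 16573688)) (l 16591688))) (b (b (l 16522816) (l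 16529808)) (l 16546968))) (a (a (b (b (b (l 16521504) (l 16523880)) (l 16533120)) (l 16541992)) (b (b (l 16556256) (l 16565304)) (l 16584048))) (b (b (l 16522048) (l 16529040)) (l 16546848)))))), by decide +kernel⟩

def k3_B00pp_022_s1 : ∃ t, chk3 f_B00pp_022_s1 t 17 13 1 = true :=
  ⟨(b (c (a (b (l 16617552) (l 16566576)) (b (l 16479464) (c (l 16496240) (l 16481016)))) (a (b (l 16602272) (l 16531400)) (b (l 16445880) (a (l 16558584) (l 16519792))))) (c (b (a (c (b (l 16641720) (l 16561600)) (c (l 16555088) (l 16551824))) (c (a (l 16561280) (b (l 16573704) (l 16577704))) (b (l 16488240) (c (l 16495976) (l 16487824))))) (c (a (l 16561424) (a (l 16604760) (l 16577240))) (a (l 16554432) (a (l 16590840) (l 16558440))))) (b (c (a (c (l 16548376) (l 16544736)) (a (l 16575888) (l 16496456))) (a (l 16538920) (a (l 16560264) (l 16517208)))) (a (c (l 16546672) (l 16538136)) (a (l 16525536) (a (l 16537264) (l 16516864))))))), by decide +kernel⟩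

def k4_B00pp_022_s1 : ∃ t, chk3 f_B00pp_022_s1 t 8 7 1 = true :=
  ⟨(a (b (b (b (c (a (c (a (l 16595096) (l 16628096)) (a (l 16590416) (l 16622376))) (c (l 16589776) (l 16569584))) (a (c (a (l 16579912) (l 16616360)) (a (l 16579312) (l 16610040))) (c (l 16570512) (l 16571608)))) (b (b (c (a (a (l 16599864) (l 16639784)) (l 16604032)) (a (a (l 16591312) (l 16629624)) (l 16586648))) (l 14)) (l 14))) (l 14)) (l 14)) (b (b (c (a (b (c (l 16581496) (l 16552208)) (a (l 16600528) (a (l 16630616) (l 16615584)))) (a (b (c (l 16603216) (l 16587936)) (b (a (l 16601216) (l 16586032)) (l 14))) (a (b (l 16594048) (b (l 16570752) (l 14))) (b (b (l 16558576) (l 16557056)) (b (l 114923548855) (l 16585024)))))) (a (a (b (l 16641536) (l 16594264)) (b (l 16518568) (a (l 16606624) (l 16586640)))) (b (c (a (l 16571304) (l 16491336)) (a (l 16553312) (l 16509680))) (c (a (l 16555456) (b (l 16529112) (l 16526056))) (a (l 16504304) (b (l 16504264) (l 16500320))))))) (a (l 14) (a (l 14) (a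 (l 14) (l 1))))) (a (l 14) (l 1)))), by decide +kernel⟩

def k5_B00pp_022_s1 : ∃ t, chk3 f_B00pp_022_s1 t 9 3 1 = true :=
  ⟨(b (b (b (l 6) (a (a (c (c (l 16509592) (l 16485568)) (a (l 16463104) (l 16427248))) (a (c (l 16458448) (l 16390856)) (l 6))) (l 6))) (a (b (a (a (c (b (l 16521816) (l 16529192)) (b (l 16473440) (l 16480336))) (c (b (l 16493776) (b (l 16498320) (l 16543336))) (b (l 16435104) (l 16524184)))) (b (c (a (l 16465520) (l 16437112)) (a (l 16396256) (l 16356984))) (c (a (a (l 16477680) (l 16504792)) (b (l 16481624) (l 366178928695))) (a (b (l 16398904) (l 16484528)) (l 375305610967))))) (a (a (b (c (b (l 16576888) (a (l 16588168) (b (l 16530240) (l 16531552)))) (c (l 16479248) (l 16431336))) (c (a (b (l 16545944) (l 16544608)) (b (l 16530656) (l 16571096))) (c (l 16478608) (l 16471656)))) (c (b (c (b (l 16518152) (a (l 16528648) (b (l 16513672) (l 16515168)))) (b (l 16490376) (a (l 16501768) (l 16484928)))) (a (b (l 16557224) (l 151967558279)) (b (c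 (l 16514504) (l 16484520)) (l 1)))) (c (b (b (l 16460152) (l 16431216)) (b (l 16461800) (l 16459296))) (b (l 16397144) (l 16395280))))) (a (b (a (b (c (l 16523592) (l 16412808)) (c (a (l 324839951815) (l 288869595575)) (l 300680623783))) (c (b (l 16508248) (l 1)) (l 304438717927))) (l 1)) (l 1)))) (a (a (b (b (c (l 16408592) (l 16317360)) (l 1)) (l 1)) (l 1)) (l 1)))) (a (b (b (a (a (c (b (c (b (l 63383820583) (l 107944176951)) (b (l 16522720) (l 16541616))) (a (b (l 16560688) (l 1)) (l 1))) (b (c (l 106333471559) (l 101501564327)) (a (l 89153623015) (l 1)))) (a (a (b (c (l 90764276727) (l 16453824)) (l 1)) (l 1)) (l 1))) (l 1)) (l 1)) (l 1)) (l 1))), by decide +kernel⟩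

def k6_B00pp_022_s1 : ∃ t, chk3 f_B00pp_022_s1 t 5 1 1 = true :=
  ⟨(b (l 6) (b (l 1) (l 1))), by decide +kernel⟩

def k7_B00pp_022_s1 : ∃ t, chk3 f_B00pp_022_s1 t 3 1 1 = true :=
  ⟨(l 1), by decide +kernel⟩

theorem t8_B00pp_022_s1 : ∃ t, chk3 f_B00pp_022_s1 t 8 13 1 = true := ex3_a k2_B00pp_022_s1 k3_B00pp_022_s1

theorem t9_B00pp_022_s1 : ∃ t, chk3 f_B00pp_022_s1 t 8 6 1 = true := ex3_b k1_B00pp_022_s1 t8_B00pp_022_s1

theorem t10_B00pp_022_s1 : ∃ t, chk3 f_B00pp_022_s1 t 8 3 1 = true := ex3_b t9_B00pp_022_s1 k4_B00pp_022_s1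

theorem t11_B00pp_022_s1 : ∃ t, chk3 f_B00pp_022_s1 t 4 3 1 = true := ex3_a t10_B00pp_022_s1 k5_B00pp_022_s1

theorem t12_B00pp_022_s1 : ∃ t, chk3 f_B00pp_022_s1 t 4 1 1 = true := ex3_b k0_B00pp_022_s1 t11_B00pp_022_s1

theorem t13_B00pp_022_s1 : ∃ t, chk3 f_B00pp_022_s1 t 2 1 1 = true := ex3_a t12_B00pp_022_s1 k6_B00pp_022_s1

theorem t14_B00pp_022_s1 : ∃ t, chk3 f_B00pp_022_s1 t 1 1 1 = true := ex3_a t13_B00pp_022_s1 k7_B00pp_022_s1

theorem c_B00pp_022_s1 : CertF 0 536870912 0 536870912 858993459 64424510 false true true .pp 0 2 2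
    ndB0q0 ndB0q2 pcB2 cut_B00pp_022_s1 Ext.none :=
  certF2 (fam := false) (s1 := true) (s2 := true) (a := 0) (b := 2) (c := 2) (cn := .pp) (n1 := ndB0q0) (n2 := ndB0q2) (pc := pcB2) (cut := cut_B00pp_022_s1) (xt := Ext.none) (P1 := 0) (W1 := 536870912) (P2 := 0) (W2 := 536870912) (P3 := 858993459) (W3 := 64424510)
    rfl (fun _ => rfl) t14_B00pp_022_s1

theorem s_B00pp_022_s1 {κ x : ℝ} (hκ : κ * h0 = ken x) (hx : ((858993459 : ℕ) : ℝ) / S ≤ x)
    (hx' : x ≤ (((858993459 : ℕ) : ℝ) + (64424510 : ℕ)) / S)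
    (H : CutB (VFD κ) PP tK tL pcB (Cut.of [[⟨0, 0, 0, 67108864⟩, ⟨1, 1, 0, 67108864⟩, ⟨2, 1, 0, 67108864⟩]]) 0 2 2 0 0 (sgb true) (sgb true) x) :
    AltB (VFD κ) PP tK tL pcB [⟨3, 0, 0, 1449551462⟩] 0 2 2 0 0 (sgb true) (sgb true) x :=
  strip_altBD (m := 1449551462) true rfl hκ (SH.κ0 hκ (SH.hx1 hx).le (SH.hx2 hx').le) (SH.hx1 hx).le (SH.hx2 hx') (covB00).cov (covB02).cov hx hx' c_B00pp_022_s1 H (noExt_B)

noncomputable def cut_B00pp_022_s3 : Cut := Cut.of [[⟨3, 0, 0, 2845415833⟩], [⟨0, 0, 0, 67108864⟩, ⟨1, 1, 0, 67108864⟩, ⟨2, 1, 0, 67108864⟩]]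

noncomputable def f_B00pp_022_s3 : ℕ → ℕ → ℕ → ℕ → Bool := onCell 0 536870912 0 536870912 858993459 64424510
    (rowF 0 false true true .pp 0 2 2 (qsf 0 536870912 0 536870912 2) ndB0q0 ndB0q2 pcB2 cut_B00pp_022_s3 Ext.none)

def k0_B00pp_022_s3 : ∃ t, chk3 f_B00pp_022_s3 t 1 1 1 = true :=
  ⟨(l 6), by decide +kernel⟩

theorem c_B00pp_022_s3 : CertF 0 536870912 0 536870912 858993459 64424510 false true true .pp 0 2 2
    ndB0q0 ndB0q2 pcB2 cut_B00pp_022_s3 Ext.none :=
  certF0 (fam := false) (s1 := true) (s2 := true) (a := 0) (b := 2) (c := 2) (cn := .pp) (n1 := ndB0q0) (n2 := ndB0q2) (pc := pcB2) (cut := cut_B00pp_022_s3) (xt := Ext.none) (P1 := 0) (W1 := 536870912) (P2 := 0) (W2 := 536870912) (P3 := 858993459) (W3 := 64424510)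
    rfl k0_B00pp_022_s3

theorem s_B00pp_022_s3 {κ x : ℝ} (hκ : κ * h0 = ken x) (hx : ((858993459 : ℕ) : ℝ) / S ≤ x)
    (hx' : x ≤ (((858993459 : ℕ) : ℝ) + (64424510 : ℕ)) / S)
    (H : CutB (VFD κ) PP tK tL pcB (Cut.of [[⟨0, 0, 0, 67108864⟩, ⟨1, 1, 0, 67108864⟩, ⟨2, 1, 0, 67108864⟩]]) 0 2 2 0 0 (sgb true) (sgb true) x) :
    AltB (VFD κ) PP tK tL pcB [⟨4, 0, 0, 2845415833⟩] 0 2 2 0 0 (sgb true) (sgb true) x :=
  strip_altBD (m := 2845415833) false rfl hκ (SH.κ0 hκ (SH.hx1 hx).le (SH.hx2 hx').le) (SH.hx1 hx).le (SH.hx2 hx') (covB00).cov (covB02).cov hx hx' c_B00pp_022_s3 H (noExt_B)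

noncomputable def cut_B00pp_101_s1 : Cut := Cut.of [[⟨4, 0, 0, 1449551462⟩]]

noncomputable def f_B00pp_101_s1 : ℕ → ℕ → ℕ → ℕ → Bool := onCell 536870912 536870912 536870912 536870912 858993459 64424510
    (rowF 0 false true true .npn 1 0 1 (qsf 536870912 536870912 536870912 536870912 0) ndB0q1 ndB0q1 pcB0 cut_B00pp_101_s1 Ext.none)

def k0_B00pp_101_s1 : ∃ t, chk3 f_B00pp_101_s1 t 1 1 1 = true :=
  ⟨(l 3), by decide +kernel⟩

theorem c_B00pp_101_s1 : CertF 536870912 536870912 536870912 536870912 858993459 64424510 false true true .npn 1 0 1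
    ndB0q1 ndB0q1 pcB0 cut_B00pp_101_s1 Ext.none :=
  certF0 (fam := false) (s1 := true) (s2 := true) (a := 1) (b := 0) (c := 1) (cn := .npn) (n1 := ndB0q1) (n2 := ndB0q1) (pc := pcB0) (cut := cut_B00pp_101_s1) (xt := Ext.none) (P1 := 536870912) (W1 := 536870912) (P2 := 536870912) (W2 := 536870912) (P3 := 858993459) (W3 := 64424510)
    rfl k0_B00pp_101_s1

theorem s_B00pp_101_s1 {κ x : ℝ} (hκ : κ * h0 = ken x) (hx : ((858993459 : ℕ) : ℝ) / S ≤ x)
    (hx' : x ≤ (((858993459 : ℕ) : ℝ) + (64424510 : ℕ)) / S) :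
    AltB (VFD κ) PP tK tL pcB [⟨3, 0, 0, 1449551462⟩] 1 0 1 0 0 (sgb true) (sgb true) x :=
  strip_altBD (m := 1449551462) true rfl hκ (SH.κ0 hκ (SH.hx1 hx).le (SH.hx2 hx').le) (SH.hx1 hx).le (SH.hx2 hx') (covB01).cov (covB01).cov hx hx' c_B00pp_101_s1 cutB_nil (noExt_B)

noncomputable def cut_B00pp_101_s3 : Cut := Cut.of [[⟨3, 0, 0, 2845415833⟩]]

noncomputable def f_B00pp_101_s3 : ℕ → ℕ → ℕ → ℕ → Bool := onCell 536870912 536870912 536870912 536870912 858993459 64424510
    (rowF 0 false true true .npn 1 0 1 (qsf 536870912 536870912 536870912 536870912 0) ndB0q1 ndB0q1 pcB0 cut_B00pp_101_s3 Ext.none)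

def k0_B00pp_101_s3 : ∃ t, chk3 f_B00pp_101_s3 t 1 1 1 = true :=
  ⟨(l 3), by decide +kernel⟩

theorem c_B00pp_101_s3 : CertF 536870912 536870912 536870912 536870912 858993459 64424510 false true true .npn 1 0 1
    ndB0q1 ndB0q1 pcB0 cut_B00pp_101_s3 Ext.none :=
  certF0 (fam := false) (s1 := true) (s2 := true) (a := 1) (b := 0) (c := 1) (cn := .npn) (n1 := ndB0q1) (n2 := ndB0q1) (pc := pcB0) (cut := cut_B00pp_101_s3) (xt := Ext.none) (P1 := 536870912) (W1 := 536870912) (P2 := 536870912) (W2 := 536870912) (P3 := 858993459) (W3 := 64424510)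
    rfl k0_B00pp_101_s3

theorem s_B00pp_101_s3 {κ x : ℝ} (hκ : κ * h0 = ken x) (hx : ((858993459 : ℕ) : ℝ) / S ≤ x)
    (hx' : x ≤ (((858993459 : ℕ) : ℝ) + (64424510 : ℕ)) / S) :
    AltB (VFD κ) PP tK tL pcB [⟨4, 0, 0, 2845415833⟩] 1 0 1 0 0 (sgb true) (sgb true) x :=
  strip_altBD (m := 2845415833) false rfl hκ (SH.κ0 hκ (SH.hx1 hx).le (SH.hx2 hx').le) (SH.hx1 hx).le (SH.hx2 hx') (covB01).cov (covB01).cov hx hx' c_B00pp_101_s3 cutB_nil (noExt_B)

noncomputable def cut_B00pp_102_s1 : Cut := Cut.of [[⟨4, 0, 0, 1449551462⟩]]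

noncomputable def f_B00pp_102_s1 : ℕ → ℕ → ℕ → ℕ → Bool := onCell 0 536870912 0 536870912 858993459 64424510
    (rowF 2 false true true .npp 1 0 2 (qsf 536870912 536870912 0 536870912 0) ndB0q1 ndB0q2 pcB0 cut_B00pp_102_s1 Ext.none)

def k0_B00pp_102_s1 : ∃ t, chk3 f_B00pp_102_s1 t 1 1 1 = true :=
  ⟨(a (b (l 3) (l 3)) (l 3)), by decide +kernel⟩

theorem c_B00pp_102_s1 : CertF 536870912 536870912 0 536870912 858993459 64424510 false true true .npp 1 0 2
    ndB0q1 ndB0q2 pcB0 cut_B00pp_102_s1 Ext.none :=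
  certF2 (fam := false) (s1 := true) (s2 := true) (a := 1) (b := 0) (c := 2) (cn := .npp) (n1 := ndB0q1) (n2 := ndB0q2) (pc := pcB0) (cut := cut_B00pp_102_s1) (xt := Ext.none) (P1 := 536870912) (W1 := 536870912) (P2 := 0) (W2 := 536870912) (P3 := 858993459) (W3 := 64424510)
    rfl (fun _ => rfl) k0_B00pp_102_s1

theorem s_B00pp_102_s1 {κ x : ℝ} (hκ : κ * h0 = ken x) (hx : ((858993459 : ℕ) : ℝ) / S ≤ x)
    (hx' : x ≤ (((858993459 : ℕ) : ℝ) + (64424510 : ℕ)) / S) :
    AltB (VFD κ) PP tK tL pcB [⟨3, 0, 0, 1449551462⟩] 1 0 2 0 0 (sgb true) (sgb true) x :=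
  strip_altBD (m := 1449551462) true rfl hκ (SH.κ0 hκ (SH.hx1 hx).le (SH.hx2 hx').le) (SH.hx1 hx).le (SH.hx2 hx') (covB01).cov (covB02).cov hx hx' c_B00pp_102_s1 cutB_nil (noExt_B)

noncomputable def cut_B00pp_102_s3 : Cut := Cut.of [[⟨3, 0, 0, 2845415833⟩]]

noncomputable def f_B00pp_102_s3 : ℕ → ℕ → ℕ → ℕ → Bool := onCell 536870912 536870912 0 536870912 858993459 64424510
    (rowF 0 false true true .npp 1 0 2 (qsf 536870912 536870912 0 536870912 0) ndB0q1 ndB0q2 pcB0 cut_B00pp_102_s3 Ext.none)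

def k0_B00pp_102_s3 : ∃ t, chk3 f_B00pp_102_s3 t 1 1 1 = true :=
  ⟨(l 6), by decide +kernel⟩

theorem c_B00pp_102_s3 : CertF 536870912 536870912 0 536870912 858993459 64424510 false true true .npp 1 0 2
    ndB0q1 ndB0q2 pcB0 cut_B00pp_102_s3 Ext.none :=
  certF0 (fam := false) (s1 := true) (s2 := true) (a := 1) (b := 0) (c := 2) (cn := .npp) (n1 := ndB0q1) (n2 := ndB0q2) (pc := pcB0) (cut := cut_B00pp_102_s3) (xt := Ext.none) (P1 := 536870912) (W1 := 536870912) (P2 := 0) (W2 := 536870912) (P3 := 858993459) (W3 := 64424510)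
    rfl k0_B00pp_102_s3

theorem s_B00pp_102_s3 {κ x : ℝ} (hκ : κ * h0 = ken x) (hx : ((858993459 : ℕ) : ℝ) / S ≤ x)
    (hx' : x ≤ (((858993459 : ℕ) : ℝ) + (64424510 : ℕ)) / S) :
    AltB (VFD κ) PP tK tL pcB [⟨4, 0, 0, 2845415833⟩] 1 0 2 0 0 (sgb true) (sgb true) x :=
  strip_altBD (m := 2845415833) false rfl hκ (SH.κ0 hκ (SH.hx1 hx).le (SH.hx2 hx').le) (SH.hx1 hx).le (SH.hx2 hx') (covB01).cov (covB02).cov hx hx' c_B00pp_102_s3 cutB_nil (noExt_B)

noncomputable def cut_B00pp_112_s1 : Cut := Cut.of [[⟨4, 0, 0, 1449551462⟩]]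

noncomputable def xt_B00pp_112_s1 : Ext := strExt dd false true true .u0 .u2 .u0m .dn 1 1 2 rfl rfl gf1 vv ndB0q1 ndB0q2

noncomputable def f_B00pp_112_s1 : ℕ → ℕ → ℕ → ℕ → Bool := onCell 536870912 536870912 0 536870912 858993459 64424510
    (rowF 0 false true true .dn 1 1 2 (qsf 536870912 536870912 0 536870912 1) ndB0q1 ndB0q2 pcB1 cut_B00pp_112_s1 xt_B00pp_112_s1)

def k0_B00pp_112_s1 : ∃ t, chk3 f_B00pp_112_s1 t 1 1 1 = true :=
  ⟨(a (b (a (b (b (a (c (c (c (a (c (l 530674959) (l 531309839)) (c (l 530310927) (l 530996751))) (a (l 532282383) (l 532047375))) (a (l 534211343) (l 534117647))) (c (a (l 533933071) (l 533898511)) (a (c (l 532524303) (l 531252495)) (l 531127823)))) (a (a (b (c (c (l 531190287) (l 534069519)) (l 531562511)) (l 3)) (l 3)) (l 3))) (b (b (a (a (c (c (c (l 530750479) (l 532073999)) (l 534058767)) (c (l 533865999) (l 531832591))) (l 3)) (l 3)) (a (l 3) (l 3))) (l 3))) (l 3)) (l 3)) (l 3)) (l 1)), by decide +kernel⟩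

theorem c_B00pp_112_s1 : CertF 536870912 536870912 0 536870912 858993459 64424510 false true true .dn 1 1 2
    ndB0q1 ndB0q2 pcB1 cut_B00pp_112_s1 xt_B00pp_112_s1 :=
  certF0 (fam := false) (s1 := true) (s2 := true) (a := 1) (b := 1) (c := 2) (cn := .dn) (n1 := ndB0q1) (n2 := ndB0q2) (pc := pcB1) (cut := cut_B00pp_112_s1) (xt := xt_B00pp_112_s1) (P1 := 536870912) (W1 := 536870912) (P2 := 0) (W2 := 536870912) (P3 := 858993459) (W3 := 64424510)
    rfl k0_B00pp_112_s1

theorem s_B00pp_112_s1 {κ x : ℝ} (hκ : κ * h0 = ken x) (hx : ((858993459 : ℕ) : ℝ) / S ≤ x)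
    (hx' : x ≤ (((858993459 : ℕ) : ℝ) + (64424510 : ℕ)) / S) :
    AltB (VFD κ) PP tK tL pcB [⟨3, 0, 0, 1449551462⟩] 1 1 2 0 0 (sgb true) (sgb true) x :=
  strip_altBD (m := 1449551462) true rfl hκ (SH.κ0 hκ (SH.hx1 hx).le (SH.hx2 hx').le) (SH.hx1 hx).le (SH.hx2 hx') (covB01).cov (covB02).cov hx hx' c_B00pp_112_s1 cutB_nil ((okx hx hx').extB (T := tt) (sideB hx hx') hκ rfl rfl (.O 1 true) (.O 2 true) (Or.inr rfl))

noncomputable def cut_B00pp_112_s3 : Cut := Cut.of [[⟨3, 0, 0, 2845415833⟩]]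

noncomputable def f_B00pp_112_s3 : ℕ → ℕ → ℕ → ℕ → Bool := onCell 536870912 536870912 0 536870912 858993459 64424510
    (rowF 0 false true true .dn 1 1 2 (qsf 536870912 536870912 0 536870912 1) ndB0q1 ndB0q2 pcB1 cut_B00pp_112_s3 Ext.none)

def k0_B00pp_112_s3 : ∃ t, chk3 f_B00pp_112_s3 t 1 1 1 = true :=
  ⟨(l 6), by decide +kernel⟩

theorem c_B00pp_112_s3 : CertF 536870912 536870912 0 536870912 858993459 64424510 false true true .dn 1 1 2
    ndB0q1 ndB0q2 pcB1 cut_B00pp_112_s3 Ext.none :=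
  certF0 (fam := false) (s1 := true) (s2 := true) (a := 1) (b := 1) (c := 2) (cn := .dn) (n1 := ndB0q1) (n2 := ndB0q2) (pc := pcB1) (cut := cut_B00pp_112_s3) (xt := Ext.none) (P1 := 536870912) (W1 := 536870912) (P2 := 0) (W2 := 536870912) (P3 := 858993459) (W3 := 64424510)
    rfl k0_B00pp_112_s3

theorem s_B00pp_112_s3 {κ x : ℝ} (hκ : κ * h0 = ken x) (hx : ((858993459 : ℕ) : ℝ) / S ≤ x)
    (hx' : x ≤ (((858993459 : ℕ) : ℝ) + (64424510 : ℕ)) / S) :
    AltB (VFD κ) PP tK tL pcB [⟨4, 0, 0, 2845415833⟩] 1 1 2 0 0 (sgb true) (sgb true) x :=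
  strip_altBD (m := 2845415833) false rfl hκ (SH.κ0 hκ (SH.hx1 hx).le (SH.hx2 hx').le) (SH.hx1 hx).le (SH.hx2 hx') (covB01).cov (covB02).cov hx hx' c_B00pp_112_s3 cutB_nil (noExt_B)

noncomputable def cut_B00pp_202_s1 : Cut := Cut.of [[⟨4, 0, 0, 1449551462⟩]]

noncomputable def f_B00pp_202_s1 : ℕ → ℕ → ℕ → ℕ → Bool := onCell 0 536870912 0 536870912 858993459 64424510
    (rowF 0 false true true .pp 2 0 2 (qsf 0 536870912 0 536870912 0) ndB0q2 ndB0q2 pcB0 cut_B00pp_202_s1 Ext.none)

def k0_B00pp_202_s1 : ∃ t, chk3 f_B00pp_202_s1 t 1 1 1 = true :=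
  ⟨(l 3), by decide +kernel⟩

theorem c_B00pp_202_s1 : CertF 0 536870912 0 536870912 858993459 64424510 false true true .pp 2 0 2
    ndB0q2 ndB0q2 pcB0 cut_B00pp_202_s1 Ext.none :=
  certF0 (fam := false) (s1 := true) (s2 := true) (a := 2) (b := 0) (c := 2) (cn := .pp) (n1 := ndB0q2) (n2 := ndB0q2) (pc := pcB0) (cut := cut_B00pp_202_s1) (xt := Ext.none) (P1 := 0) (W1 := 536870912) (P2 := 0) (W2 := 536870912) (P3 := 858993459) (W3 := 64424510)
    rfl k0_B00pp_202_s1

theorem s_B00pp_202_s1 {κ x : ℝ} (hκ : κ * h0 = ken x) (hx : ((858993459 : ℕ) : ℝ) / S ≤ x)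
    (hx' : x ≤ (((858993459 : ℕ) : ℝ) + (64424510 : ℕ)) / S) :
    AltB (VFD κ) PP tK tL pcB [⟨3, 0, 0, 1449551462⟩] 2 0 2 0 0 (sgb true) (sgb true) x :=
  strip_altBD (m := 1449551462) true rfl hκ (SH.κ0 hκ (SH.hx1 hx).le (SH.hx2 hx').le) (SH.hx1 hx).le (SH.hx2 hx') (covB02).cov (covB02).cov hx hx' c_B00pp_202_s1 cutB_nil (noExt_B)

noncomputable def cut_B00pp_202_s3 : Cut := Cut.of [[⟨3, 0, 0, 2845415833⟩]]

noncomputable def f_B00pp_202_s3 : ℕ → ℕ → ℕ → ℕ → Bool := onCell 0 536870912 0 536870912 858993459 64424510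
    (rowF 0 false true true .pp 2 0 2 (qsf 0 536870912 0 536870912 0) ndB0q2 ndB0q2 pcB0 cut_B00pp_202_s3 Ext.none)

def k0_B00pp_202_s3 : ∃ t, chk3 f_B00pp_202_s3 t 1 1 1 = true :=
  ⟨(l 3), by decide +kernel⟩

theorem c_B00pp_202_s3 : CertF 0 536870912 0 536870912 858993459 64424510 false true true .pp 2 0 2
    ndB0q2 ndB0q2 pcB0 cut_B00pp_202_s3 Ext.none :=
  certF0 (fam := false) (s1 := true) (s2 := true) (a := 2) (b := 0) (c := 2) (cn := .pp) (n1 := ndB0q2) (n2 := ndB0q2) (pc := pcB0) (cut := cut_B00pp_202_s3) (xt := Ext.none) (P1 := 0) (W1 := 536870912) (P2 := 0) (W2 := 536870912) (P3 := 858993459) (W3 := 64424510)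
    rfl k0_B00pp_202_s3

theorem s_B00pp_202_s3 {κ x : ℝ} (hκ : κ * h0 = ken x) (hx : ((858993459 : ℕ) : ℝ) / S ≤ x)
    (hx' : x ≤ (((858993459 : ℕ) : ℝ) + (64424510 : ℕ)) / S) :
    AltB (VFD κ) PP tK tL pcB [⟨4, 0, 0, 2845415833⟩] 2 0 2 0 0 (sgb true) (sgb true) x :=
  strip_altBD (m := 2845415833) false rfl hκ (SH.κ0 hκ (SH.hx1 hx).le (SH.hx2 hx').le) (SH.hx1 hx).le (SH.hx2 hx') (covB02).cov (covB02).cov hx hx' c_B00pp_202_s3 cutB_nil (noExt_B)

noncomputable def cut_B00pm_001_s1 : Cut := Cut.of [[⟨4, 0, 0, 1449551462⟩]]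

noncomputable def f_B00pm_001_s1 : ℕ → ℕ → ℕ → ℕ → Bool := onCell 0 536870912 536870912 536870912 858993459 64424510
    (rowF 0 false true false .up 0 0 1 (qsf 0 536870912 536870912 536870912 0) ndB0q0 ndB0q1 pcB0 cut_B00pm_001_s1 Ext.none)

def k0_B00pm_001_s1 : ∃ t, chk3 f_B00pm_001_s1 t 1 1 1 = true :=
  ⟨(l 6), by decide +kernel⟩

theorem c_B00pm_001_s1 : CertF 0 536870912 536870912 536870912 858993459 64424510 false true false .up 0 0 1
    ndB0q0 ndB0q1 pcB0 cut_B00pm_001_s1 Ext.none :=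
  certF0 (fam := false) (s1 := true) (s2 := false) (a := 0) (b := 0) (c := 1) (cn := .up) (n1 := ndB0q0) (n2 := ndB0q1) (pc := pcB0) (cut := cut_B00pm_001_s1) (xt := Ext.none) (P1 := 0) (W1 := 536870912) (P2 := 536870912) (W2 := 536870912) (P3 := 858993459) (W3 := 64424510)
    rfl k0_B00pm_001_s1

theorem s_B00pm_001_s1 {κ x : ℝ} (hκ : κ * h0 = ken x) (hx : ((858993459 : ℕ) : ℝ) / S ≤ x)
    (hx' : x ≤ (((858993459 : ℕ) : ℝ) + (64424510 : ℕ)) / S) :
    AltB (VFD κ) PP tK tL pcB [⟨3, 0, 0, 1449551462⟩] 0 0 1 0 0 (sgb true) (sgb false) x :=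
  strip_altBD (m := 1449551462) true rfl hκ (SH.κ0 hκ (SH.hx1 hx).le (SH.hx2 hx').le) (SH.hx1 hx).le (SH.hx2 hx') (covB00).cov (covB01).cov hx hx' c_B00pm_001_s1 cutB_nil (noExt_B)

end Pool.Agent.Strip051.G.I8000_8600.Tab.St.C
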