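import Pool.Agent.Strip051.G.I8000_8600.StH
import Pool.Agent.Strip051.G.I8000_8600.StF

/-! # Unit strips 16 (generated) -/

set_option linter.all false
set_option maxRecDepth 100000

namespace Pool.Agent.Strip051.G.I8000_8600.Tab.St.C

open Pool.Agent.Strip051.PB Pool.Agent.Strip051.PB.T Pool.Agent.StripNear Pool.Agent.Strip051.LC
open Pool.Agent.Strip051.G.I8000_8600.Tab Pool.Agent.Strip051.G.I8000_8600.Tab.St

noncomputable def cut_B00pm_001_s3 : Cut := Cut.of [[⟨3, 0, 0, 2845415833⟩]]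

noncomputable def xt_B00pm_001_s3 : Ext := strExt dd false true false .u0 .u0m .s0m .up 0 0 1 rfl rfl gl0 vv ndB0q0 ndB0q1

noncomputable def f_B00pm_001_s3 : ℕ → ℕ → ℕ → ℕ → Bool := onCell 0 536870912 536870912 536870912 858993459 64424510
    (rowF 0 false true false .up 0 0 1 (qsf 0 536870912 536870912 536870912 0) ndB0q0 ndB0q1 pcB0 cut_B00pm_001_s3 xt_B00pm_001_s3)

def k0_B00pm_001_s3 : ∃ t, chk3 f_B00pm_001_s3 t 2 1 1 = true :=
  ⟨(b (l 4) (b (b (l 4) (l 2)) (l 2))), by decide +kernel⟩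

def k1_B00pm_001_s3 : ∃ t, chk3 f_B00pm_001_s3 t 6 2 1 = true :=
  ⟨(b (l 4) (l 4)), by decide +kernel⟩

def k2_B00pm_001_s3 : ∃ t, chk3 f_B00pm_001_s3 t 7 4 1 = true :=
  ⟨(l 4), by decide +kernel⟩

def k3_B00pm_001_s3 : ∃ t, chk3 f_B00pm_001_s3 t 7 10 1 = true :=
  ⟨(a (l 4) (a (a (l 4) (a (b (l 4) (b (l 4) (a (l 4) (c (l 531624975) (l 531506703))))) (b (l 4) (b (l 4) (c (l 531716111) (l 531514895)))))) (a (b (l 4) (c (b (a (l 4) (l 532065551)) (c (l 532002831) (l 531791887))) (b (l 531402511) (l 531529743)))) (a (b (l 4) (c (b (l 532167951) (l 532064015)) (b (l 531407375) (l 531542543)))) (b (b (l 4) (b (l 4) (c (l 533347343) (l 531292687)))) (b (c (a (l 532235791) (b (l 532311055) (l 532264719))) (b (l 531370511) (l 531447311))) (c (l 532170511) (l 531549711)))))))), by decide +kernel⟩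

def k4_B00pm_001_s3 : ∃ t, chk3 f_B00pm_001_s3 t 14 11 1 = true :=
  ⟨(a (b (l 4) (c (b (a (l 4) (b (l 4) (b (l 4) (l 530919183)))) (c (a (l 530895887) (l 530894863)) (a (l 531075599) (l 531120911)))) (b (a (l 4) (b (l 4) (l 530974991))) (a (c (l 531087119) (l 530954511)) (l 530931471))))) (c (b (a (l 4) (b (l 4) (c (l 531032591) (l 531173391)))) (c (b (a (c (a (l 530769423) (l 530838287)) (l 531298319)) (c (b (l 530965007) (l 530950159)) (l 530762767))) (a (a (l 531170063) (b (l 530904847) (l 530952719))) (b (l 530991887) (l 531289871)))) (b (a (c (l 530998543) (l 531136783)) (b (l 531162895) (l 531164175))) (a (a (l 531146255) (l 531154191)) (b (l 531176463) (l 531214863)))))) (a (b (l 4) (b (c (b (l 531324687) (l 531329039)) (l 531306511)) (a (l 531052815) (b (l 531409935) (l 531385359))))) (b (b (l 4) (l 531487247)) (b (c (l 531410703) (l 531590671)) (b (l 531513359) (l 531496207))))))), by decide +kernel⟩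

def k5_B00pm_001_s3 : ∃ t, chk3 f_B00pm_001_s3 t 15 11 2 = true :=
  ⟨(b (a (a (b (b (a (l 4) (a (l 4) (b (l 4) (l 531389967)))) (l 531302671)) (c (l 531216399) (l 531317263))) (c (b (b (c (l 531587855) (l 531563791)) (a (c (l 531422991) (l 531431695)) (l 531568911))) (a (b (l 531387919) (l 531347983)) (b (l 531513871) (l 531466255)))) (b (c (b (l 531550223) (l 531506191)) (b (l 531546895) (l 531524111))) (a (l 531433999) (b (l 531532815) (l 531508239)))))) (b (a (a (b (l 531738127) (l 531678223)) (b (l 531857935) (l 531798031))) (b (c (l 532148239) (l 531922703)) (c (l 532067343) (l 531889679)))) (a (c (a (b (l 531649551) (l 531595535)) (b (l 531788815) (l 531730191))) (a (l 531610639) (l 531703311))) (a (b (l 531865871) (l 532155407)) (b (l 531981839) (l 531935247)))))) (a (a (b (c (b (l 531170063) (l 531144719)) (l 531289871)) (c (a (l 530834959) (l 531177487)) (l 531292431))) (b (c (a (l 531294735) (l 531672079)) (a (l 531396367) (l 531475471))) (c (a (l 531259151) (c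 (l 531336719) (l 531374607))) (a (l 531383567) (l 531452943))))) (b (a (c (a (l 531523855) (b (l 531676687) (l 531627535))) (a (l 531559951) (l 531648271))) (c (c (b (l 531904015) (l 531843599)) (b (l 531854351) (l 531806223))) (c (l 531797007) (l 531775247)))) (a (c (c (a (l 531451407) (l 531575311)) (a (l 531473423) (l 531580431))) (c (l 531551759) (l 531588623))) (c (a (c (l 531706639) (l 531693071)) (c (l 531842831) (l 16655824))) (c (l 531739663) (l 531739407))))))), by decide +kernel⟩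

def k6_B00pm_001_s3 : ∃ t, chk3 f_B00pm_001_s3 t 15 11 3 = true :=
  ⟨(b (b (a (a (a (l 531507215) (c (l 531498255) (l 531648015))) (c (c (l 531821583) (l 531581711)) (c (l 531620367) (l 531669007)))) (a (b (c (l 531644943) (l 531588367)) (c (l 531660303) (l 531657487))) (c (l 532271375) (l 531863055)))) (a (a (l 531547663) (a (l 532420367) (b (l 531643151) (l 531653391)))) (a (c (a (l 531643151) (l 531690255)) (a (l 531717135) (l 531717135))) (c (l 531758863) (l 531711503))))) (a (a (b (c (l 531464975) (l 531704591)) (c (l 531521039) (l 531684367))) (b (c (l 531567119) (l 531744015)) (c (l 531573519) (l 531793423)))) (b (a (c (a (l 531640591) (l 531688975)) (l 532706319)) (c (c (l 531763471) (l 531762191)) (l 531778063))) (a (c (l 531664399) (l 531811855)) (c (l 531758607) (l 531819279)))))), by decide +kernel⟩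

def k7_B00pm_001_s3 : ∃ t, chk3 f_B00pm_001_s3 t 12 12 1 = true :=
  ⟨(b (l 4) (b (l 4) (b (l 4) (a (l 2) (a (l 2) (c (c (a (l 531280911) (c (l 531284751) (l 531418895))) (l 531608591)) (c (a (l 531273999) (l 531217423)) (a (l 530741519) (l 530689551))))))))), by decide +kernel⟩

def k8_B00pm_001_s3 : ∃ t, chk3 f_B00pm_001_s3 t 26 12 1 = true :=
  ⟨(b (l 4) (c (b (a (b (l 4) (c (l 530407951) (l 531329039))) (c (c (l 531297295) (l 531363855)) (c (l 531296271) (l 531182095)))) (b (a (c (c (l 530796047) (l 531457295)) (l 531416591)) (c (l 531446287) (l 531355919))) (a (c (a (l 530600975) (l 531451919)) (l 531510543)) (c (l 530561039) (l 531437583))))) (a (a (b (l 4) (c (l 531125007) (l 530608143))) (c (b (l 530945807) (l 531090447)) (b (l 530466063) (l 530583567)))) (c (b (a (l 530935311) (l 530931471)) (a (l 531064079) (l 531045391))) (b (a (l 530470415) (l 530483215)) (a (l 530568463) (l 530562575))))))), by decide +kernel⟩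

def k9_B00pm_001_s3 : ∃ t, chk3 f_B00pm_001_s3 t 27 12 1 = true :=
  ⟨(b (c (a (b (l 4) (c (a (c (l 531560207) (l 531186959)) (l 531182351)) (a (b (l 4) (a (l 531133711) (l 531136783))) (l 530857999)))) (b (c (l 531046671) (l 531087631)) (b (l 531164943) (a (c (l 531213071) (l 531163151)) (l 531219983))))) (a (b (l 4) (b (a (l 4) (l 530734607)) (a (a (c (l 530871311) (b (l 4) (l 530469135))) (c (l 530884111) (b (l 530491407) (l 530491663)))) (c (l 530909455) (l 530534159))))) (b (b (l 4) (l 530832911)) (b (l 530821647) (b (l 530816015) (c (l 530971407) (l 530626575))))))) (c (a (a (b (a (l 531311375) (b (c (l 531293199) (l 531187983)) (l 531340047))) (c (l 531498255) (l 531360783))) (b (c (b (l 531288079) (l 531367951)) (b (l 530925839) (l 531250959))) (c (l 531492111) (b (l 531312911) (l 531380239))))) (a (b (b (c (l 531282191) (l 531205647)) (c (l 531357967) (l 531256079))) (c (l 531476495) (l 531073295))) (b (c (l 531315215) (l 531244047)) (c (l 531465743) (l 531076367)))))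 (a (a (b (a (c (l 530932239) (l 530497295)) (b (c (l 530912783) (b (l 530495247) (l 530503183))) (l 530754319))) (c (l 531033871) (b (l 530545935) (l 530585871)))) (c (b (b (a (l 530925583) (l 530939919)) (l 530966799)) (l 531300623)) (b (b (a (l 530521359) (l 530546703)) (l 530545679)) (b (l 530565903) (l 530596111))))) (b (b (a (c (l 530964495) (l 530588431)) (l 530841103)) (a (c (l 530990095) (l 530589967)) (c (l 531021327) (l 530643983)))) (a (c (b (l 531022863) (l 531063311)) (b (l 530600207) (l 530620175))) (c (b (l 531046927) (l 531079183)) (b (l 530645775) (l 530655503)))))))), by decide +kernel⟩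

def k10_B00pm_001_s3 : ∃ t, chk3 f_B00pm_001_s3 t 12 13 1 = true :=
  ⟨(a (l 2) (a (l 2) (a (l 2) (a (l 2) (b (b (c (c (b (l 531377423) (l 2)) (l 531684879)) (c (l 530833167) (l 530835471))) (l 2)) (l 2)))))), by decide +kernel⟩

def k11_B00pm_001_s3 : ∃ t, chk3 f_B00pm_001_s3 t 26 13 1 = true :=
  ⟨(b (c (c (c (a (b (b (l 531661839) (a (l 531371791) (l 531441935))) (a (l 2) (b (l 531449871) (l 2)))) (a (b (l 531485455) (b (l 531519503) (l 531527439))) (b (l 531527439) (l 531855887)))) (a (b (a (l 530694927) (l 531559695)) (b (a (l 2) (l 531579919)) (l 2))) (b (l 531626255) (b (l 531671823) (l 530882063))))) (b (a (a (l 531692047) (l 531639055)) (a (l 531592719) (l 531552527))) (a (b (l 530968847) (l 2)) (a (l 531802383) (l 531748623))))) (a (a (b (c (b (l 531269903) (l 531379983)) (l 530524175)) (l 2)) (b (c (l 531271439) (b (l 530699023) (l 530791439))) (b (c (l 531432463) (l 530896911)) (l 2)))) (b (c (a (l 531227151) (l 531191311)) (a (l 530976271) (l 530681359))) (c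 (b (l 531885071) (a (l 531484943) (l 531425039))) (a (l 530626063) (b (l 530798095) (l 530891791))))))) (a (l 2) (a (l 2) (a (l 2) (b (c (c (b (l 530876943) (l 2)) (l 531957263)) (c (l 530775055) (l 531040783))) (l 2)))))), by decide +kernel⟩

def k12_B00pm_001_s3 : ∃ t, chk3 f_B00pm_001_s3 t 27 13 1 = true :=
  ⟨(b (a (c (b (a (c (c (l 531559951) (l 531670031)) (l 531518479)) (c (l 531635471) (l 531492111))) (a (c (b (l 531679759) (l 530905615)) (l 531701263)) (c (c (l 531681295) (l 531793167)) (l 531393295)))) (b (a (c (l 531163663) (b (l 530635023) (l 530694671))) (c (l 531145743) (b (l 530635279) (l 530684431)))) (c (a (l 531059727) (l 531023887)) (a (b (l 530765071) (l 530847247)) (b (l 530744079) (l 530814735)))))) (c (c (b (c (l 531606543) (l 531610383)) (a (c (l 531713807) (l 531791375)) (l 531787279))) (b (a (l 531474703) (l 531464975)) (c (l 531683855) (a (l 531554831) (l 531533583))))) (c (b (a (l 531139343) (l 531142671)) (a (l 531804943) (l 531522319))) (b (a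 (b (l 530649103) (l 530688015)) (b (l 530674703) (l 530703119))) (a (b (l 530736655) (l 530796047)) (b (l 530741519) (l 530789903))))))) (a (a (b (c (c (c (b (l 531673359) (l 531680527)) (l 530992911)) (l 531912207)) (c (c (l 531643407) (l 531411471)) (b (l 530941455) (l 531048975)))) (l 2)) (c (c (b (b (l 530980623) (c (l 531749391) (l 531866639))) (a (l 2) (b (l 530959119) (l 2)))) (b (l 531590159) (l 531279375))) (b (c (b (l 531426063) (l 531528463)) (b (l 530897167) (l 530992143))) (b (c (l 531641871) (l 531100175)) (l 2))))) (c (b (a (c (b (l 531830031) (l 531055375)) (l 531545103)) (c (c (l 531833871) (l 531940879)) (c (l 531844879) (l 531697167)))) (c (c (a (b (l 531824911) (l 109085095671)) (c (l 531866639) (l 531917583))) (a (l 531139087) (l 532002831))) (a (l 531756559) (l 531436559)))) (b (c (a (l 531298831) (b (l 531359247) (l 531441679))) (a (c (l 531051023) (l 530756879)) (c (l 531024911) (l 530736399)))) (c (a (c (l 531751439) (l 531517199)) (c (l 531697679)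 (l 531464207))) (a (b (l 531044623) (l 531153167)) (b (l 531002639) (l 531098127)))))))), by decide +kernel⟩

def k13_B00pm_001_s3 : ∃ t, chk3 f_B00pm_001_s3 t 6 7 1 = true :=
  ⟨(b (b (b (b (a (l 2) (a (l 2) (a (l 2) (a (l 2) (a (l 2) (b (c (c (l 146665936279) (l 16570792)) (l 531586319)) (l 2))))))) (l 2)) (l 2)) (l 2)) (l 2)), by decide +kernel⟩

def k14_B00pm_001_s3 : ∃ t, chk3 f_B00pm_001_s3 t 28 12 1 = true :=
  ⟨(b (c (b (c (a (l 531041039) (l 531028495)) (a (l 531140879) (l 531194895))) (a (c (l 531178511) (b (l 531186703) (l 531218191))) (c (l 531176719) (l 531257103)))) (b (a (c (l 531072783) (l 530867983)) (c (l 531194639) (l 531058959))) (a (b (l 530953487) (c (l 531064591) (l 530780431))) (c (l 531178511) (l 530971151))))) (c (b (a (c (l 531581199) (b (l 531252239) (l 531292175))) (c (l 531313423) (b (l 531302159) (l 531336719)))) (a (c (c (l 531452175) (l 531449359)) (b (l 531335951) (l 531383823))) (c (l 531587599) (b (l 531374095) (l 531414287))))) (b (a (b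 (c (l 531068431) (l 530755599)) (c (l 531079439) (l 530738959))) (c (b (l 531171343) (l 531173135)) (b (l 530914831) (l 530886159)))) (a (c (b (l 531096079) (l 531118607)) (b (a (l 530699279) (l 530759951)) (a (l 530700815) (l 530753807)))) (c (b (l 531179791) (l 531191311)) (b (l 530863631) (l 530847503))))))), by decide +kernel⟩

def k15_B00pm_001_s3 : ∃ t, chk3 f_B00pm_001_s3 t 29 12 1 = true :=
  ⟨(b (c (a (b (c (a (l 531026447) (l 531037711)) (a (l 531231759) (l 531257615))) (c (a (l 531171343) (l 531168271)) (l 531045903))) (b (c (a (l 531065615) (l 531106063)) (a (l 531285519) (l 531309327))) (c (c (l 531155727) (l 531237135)) (l 531381519)))) (a (b (a (l 531262735) (l 531343119)) (c (a (l 531268623) (l 531331855)) (a (l 531110927) (l 531205903)))) (b (a (l 531421967) (l 531229455)) (b (l 531149071) (c (l 531424783) (l 531320335)))))) (c (a (b (c (a (l 531314703) (l 531318031)) (a (l 531360015) (l 531391503))) (c (a (l 531454735) (l 531459855)) (a (l 531428367) (l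 531457039)))) (b (c (c (l 531284751) (l 531374863)) (b (l 531430927) (l 531462671))) (c (a (l 531470095) (l 531482895)) (a (l 531491087) (l 531529487))))) (a (b (c (b (l 531287055) (l 531282703)) (b (l 531091727) (l 531053327))) (c (a (l 531256591) (l 531309839)) (a (l 530966287) (l 531045647)))) (b (c (a (l 531377679) (l 531442703)) (b (l 531272463) (l 531228175))) (c (a (l 531367439) (l 531428879)) (a (l 531127055) (l 531210767))))))), by decide +kernel⟩

def k16_B00pm_001_s3 : ∃ t, chk3 f_B00pm_001_s3 t 28 13 1 = true :=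
  ⟨(b (c (a (a (c (b (l 531611663) (l 531773967)) (b (l 531462415) (l 531458319))) (c (b (l 531602447) (l 531757839)) (b (l 531465743) (l 531584015)))) (c (b (c (l 531595791) (l 531045647)) (c (l 531752975) (l 531718159))) (b (b (l 531457551) (l 531504655)) (a (l 531581711) (l 531585295))))) (b (c (a (a (l 531154959) (l 531175439)) (b (l 531207951) (l 531498767))) (a (a (b (l 530710287) (l 530729231)) (b (l 530755343) (l 530764815))) (b (a (l 530808079) (l 530867983)) (a (l 530809615) (l 530861839))))) (c (a (a (l 531517967) (l 531522063)) (a (l 531534351) (l 531554575))) (a (a (b (l 530757391) (l 530795279)) (b (l 530783503) (l 530811407))) (a (b (l 530818831) (l 530837263)) (b (l 530863119) (l 530872335))))))) (a (c (b (c (b (l 532562959) (c (l 531904271) (l 531947535))) (c (a (l 531815183) (l 531792143)) (a (l 531669007) (l 531648783)))) (c (a (b (l 531979023) (l 531203087)) (c (l 531984655) (l 532070159))) (b (a (l 531880463) (l 531847951)) (c (l 532029711) (l 531876623)))))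 (b (c (a (c (l 531483663) (l 531262735)) (c (l 531467535) (l 531252495))) (a (b (l 530843407) (l 530902799)) (b (l 530849039) (l 530897167)))) (c (b (a (l 531496719) (l 531469071)) (a (l 531589391) (l 531552015))) (b (a (l 530973455) (l 530956559)) (a (l 531056399) (l 531027471)))))) (a (b (c (c (l 531904783) (l 531576335)) (c (c (l 531460111) (l 531251471)) (c (l 531013135) (l 530747663)))) (c (b (c (l 16565416) (l 531822607)) (c (l 532087311) (l 531638031))) (c (b (l 531451151) (l 531524367)) (b (l 530950927) (l 531010319))))) (b (c (c (l 531889679) (l 531433743)) (b (c (l 16567728) (l 530890767)) (c (l 16552608) (l 530918415)))) (c (c (l 532053519) (b (l 16554584) (l 16542200))) (c (b (l 531442191) (l 531505935)) (b (l 530956047) (l 531004431)))))))), by decide +kernel⟩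

def k17_B00pm_001_s3 : ∃ t, chk3 f_B00pm_001_s3 t 29 13 1 = true :=
  ⟨(b (c (c (a (a (b (l 531592719) (l 531732239)) (b (l 531596559) (l 531732495))) (b (a (l 531606287) (l 531620367)) (b (l 531711503) (l 531777039)))) (c (a (b (l 531819023) (a (l 531643407) (l 531654415))) (b (l 531598863) (l 531952911))) (a (b (l 531742223) (a (l 531535887) (l 531555343))) (b (l 531542287) (b (l 16578528) (l 16542864)))))) (b (a (c (b (l 531291151) (l 531604239)) (a (b (l 530934287) (l 530921231)) (l 530995727))) (a (c (l 531368975) (l 531067151)) (c (l 531423759) (l 531142159)))) (a (c (a (c (l 531394831) (l 531223567)) (c (l 531423247) (l 531261711))) (a (b (l 530915087) (l 530916111)) (c (l 531073295) (l 530860303)))) (c (b (l 531403279) (a (l 16539256) (l 16528832))) (b (a (l 16541448) (l 16531160)) (a (l 16523192) (l 16512744))))))) (c (c (c (b (a (l 531891215) (l 531888399)) (a (l 532050703) (l 532036111))) (b (a (l 531847439) (a (l 531849487) (l 531859471))) (a (a (l 16534312)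 (l 16522632)) (a (l 531982095) (l 531984143))))) (b (a (a (l 531431439) (l 531973135)) (a (l 531985679) (a (l 531730959) (l 531742479)))) (a (b (a (l 16532144) (l 16520448)) (a (l 16519496) (l 16507552))) (b (a (l 16509104) (l 16498128)) (a (l 16495976) (l 16484776)))))) (a (b (c (b (a (l 16545568) (l 16534232)) (a (l 16530200) (l 16518624))) (b (a (l 530925583) (l 530967823)) (a (l 530943759) (l 530977295)))) (c (b (a (l 16515192) (l 16503320)) (a (l 16511144) (l 16488432))) (b (a (l 530971407) (l 530995471)) (a (l 531009295) (l 531023375))))) (b (c (b (a (l 16523264) (l 16512688)) (a (l 16507432) (l 16496648))) (b (a (l 16504920) (l 16494264)) (a (l 16486712) (l 16475800)))) (c (b (a (l 16491856) (l 16480816)) (a (l 16476632) (l 16465272))) (b (a (l 531026959) (l 16457440)) (a (l 531045647) (c (l 16446328) (l 16431920))))))))), by decide +kernel⟩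

def k18_B00pm_001_s3 : ∃ t, chk3 f_B00pm_001_s3 t 30 12 1 = true :=
  ⟨(b (c (a (a (b (c (l 531156239) (l 531324687)) (c (l 531239695) (l 531429391))) (b (c (l 531214351) (l 531359759)) (c (l 531551247) (l 531454223)))) (c (b (c (a (l 531255311) (l 531340047)) (l 531075599)) (c (a (l 531309583) (l 531378191)) (l 531390735))) (b (l 531706127) (c (l 531450127) (l 531539471))))) (a (b (b (l 531612943) (l 531594767)) (b (l 531302671) (l 531275023))) (b (c (l 531632143) (l 531762959)) (c (l 531668495) (l 531423503))))) (b (c (a (c (c (l 531333391) (l 531401487)) (l 531590927)) (a (c (l 531415311) (l 531574031)) (c (l 531732495) (l 531599887)))) (a (c (b (l 531546383) (l 531537935)) (b (l 531452431) (l 531405583))) (a (a (l 531059983) (l 531365647)) (l 531553039)))) (c (a (c (c (l 531462415) (l 531541007)) (b (l 531575055) (l 531337999))) (c (b (l 532049935) (l 532107535)) (a (l 531652623) (l 16563032)))) (a (c (a (l 531492879) (l 531558927)) (a (l 531296015) (l 531382543))) (b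 (a (l 531574799) (l 531648783)) (c (l 531654159) (l 531489039))))))), by decide +kernel⟩

def k19_B00pm_001_s3 : ∃ t, chk3 f_B00pm_001_s3 t 31 12 1 = true :=
  ⟨(b (c (a (c (b (c (a (l 531437583) (l 531545871)) (a (l 531466255) (l 531559439))) (c (a (l 531459343) (l 531551759)) (a (l 16608944) (l 531569423)))) (b (c (l 531545359) (l 531589647)) (c (l 531565583) (l 531613455)))) (c (b (c (a (l 531663119) (l 531787023)) (c (l 531714831) (l 531712015))) (c (a (l 531653647) (l 531763727)) (c (l 531703311) (l 531703823)))) (b (c (l 531713039) (l 531724559)) (a (l 531682831) (l 531753231))))) (a (b (c (l 531676431) (l 531850767)) (c (l 532273935) (l 531818767))) (b (c (l 531761679) (l 531863823)) (c (l 531775759) (l 531897359))))) (c (b (a (c (c (a (l 531509775) (l 531586063)) (c (l 531431439) (l 531581711))) (c (l 531611407) (l 531677199))) (a (c (b (l 16563680) (l 16549552)) (l 16579080)) (c (b (l 16555624) (l 16541416)) (l 16569760)))) (a (a (c (l 532007695) (l 16552696)) (c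 (a (l 531645455) (l 531675407)) (l 16542088))) (c (b (a (l 16577616) (l 16527440)) (a (l 16522088) (l 16555664))) (c (l 16546440) (l 16527608))))) (b (a (c (b (l 16585440) (l 16571248)) (a (l 531715343) (l 16572744))) (c (b (l 16564240) (l 16551264)) (l 16558752))) (a (c (b (l 16556648) (l 531779599)) (b (l 16552536) (l 16535360))) (c (b (l 16537680) (l 16523528)) (a (l 16530912) (l 16522160))))))), by decide +kernel⟩

def k20_B00pm_001_s3 : ∃ t, chk3 f_B00pm_001_s3 t 15 26 1 = true :=
  ⟨(a (c (b (a (c (b (l 531611407) (l 531678991)) (a (l 531630863) (l 531672591))) (c (c (l 531913487) (l 531710735)) (b (l 16547504) (l 16533528)))) (a (a (c (l 531766543) (l 531961615)) (c (l 531785231) (l 531730959))) (a (c (l 531805711) (a (l 16519472) (l 16514696))) (c (l 531827727) (l 531548687))))) (b (a (a (c (l 531482383) (l 531220239)) (c (l 531544591) (l 531301135))) (a (c (l 531609103) (l 531383567)) (b (l 16535744) (l 16518680)))) (a (c (a (a (l 531468559) (l 531495183)) (l 531805967))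 (b (a (l 16521280) (l 16511816)) (a (l 16502720) (l 16493136)))) (c (a (l 531865103) (l 531657743)) (b (a (l 16502744) (l 16493928)) (a (l 16483960) (l 16475064))))))) (c (c (b (a (a (l 531979279) (l 532221199)) (a (a (l 531787791) (l 532083215)) (b (l 16500304) (l 16487216)))) (a (c (l 532305167) (l 531884303)) (c (a (l 16476888) (l 6)) (l 16494120)))) (b (a (b (l 16527936) (l 16514560)) (b (l 16507720) (l 16495456))) (a (a (l 16498528) (l 16489552)) (b (l 16482736) (l 6))))) (b (a (c (b (l 531773967) (l 16510512)) (b (l 16517696) (l 16499568))) (c (a (l 16505536) (l 16496976)) (b (l 16500768) (l 16482872)))) (a (c (a (l 531720463) (l 531783695)) (b (l 16481016) (l 16462080))) (b (a (l 16476216) (l 6)) (l 6)))))), by decide +kernel⟩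

def k21_B00pm_001_s3 : ∃ t, chk3 f_B00pm_001_s3 t 15 27 1 = true :=
  ⟨(a (c (b (a (a (c (l 531892751) (b (l 16515432) (l 16501384))) (c (l 531976207) (b (l 16505440) (l 16491312)))) (a (c (l 531928847) (b (l 16495784) (l 16481616))) (c (l 531952399) (b (l 16486480) (l 6))))) (a (c (c (l 532044047) (b (l 16490288) (l 16478080))) (b (a (l 16487544) (l 16477344)) (a (l 16473992) (l 6)))) (l 6))) (b (a (c (b (a (l 16502512) (l 16492752)) (a (l 16486296) (l 16476376))) (b (a (l 16484048) (l 16474288)) (a (l 16465336) (l 16455360)))) (a (b (c (l 16483408) (l 16464960)) (c (l 16466888) (l 16445824))) (b (c (l 16474432) (l 16455936)) (l 6)))) (a (c (b (a (l 16470224) (l 16460088)) (a (l 16454384) (l 6))) (b (a (l 16446680) (l 16436416)) (a (l 16428168) (l 6)))) (l 6)))) (a (a (a (b (b (c (l 16482512) (l 16459392)) (l 6)) (l 6)) (l 6)) (l 6)) (l 6))), by decide +kernel⟩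

def k22_B00pm_001_s3 : ∃ t, chk3 f_B00pm_001_s3 t 14 28 1 = true :=
  ⟨(a (b (c (a (c (c (b (a (l 531974159) (l 532030991)) (a (l 107474387527) (l 16540664))) (b (l 531842575) (a (l 16543144) (l 16535720)))) (b (a (l 16537456) (l 532037647)) (c (l 16545168) (l 531820559)))) (c (c (b (l 531425039) (c (l 531567375) (l 16519600))) (b (l 16535640) (l 16523872))) (c (b (l 532053519) (l 16519328)) (b (l 531898383) (l 531723791))))) (c (a (b (a (l 531693071) (l 531644943)) (a (l 531808015) (l 531749135))) (b (a (l 531607311) (l 16489216)) (a (l 531701007) (l 16476440)))) (a (b (a (b (l 16519288) (l 16512368)) (b (l 16504672) (l 16497464))) (a (b (l 16505712) (l 2)) (b (l 16490496) (l 16483800)))) (b (a (b (l 16490424) (l 16482936)) (c (l 16479992) (l 16465000))) (a (b (l 16475664) (l 16468640)) (c (l 16465504) (l 16449200))))))) (b (a (a (l 2) (b (c (c (l 132707161271) (l 16527808)) (c (l 16506712) (l 16477400))) (l 2))) (c (c (c (a (l 16506968) (l 16499528)) (l 16509440)) (c (l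 16509384) (l 531557391))) (c (a (l 531537423) (l 16464584)) (a (b (l 16461896) (l 16455440)) (c (l 16451976) (l 16434360)))))) (a (l 2) (a (a (l 2) (l 6)) (l 6))))) (c (b (a (c (b (c (l 16513872) (l 16511448)) (c (l 16501096) (l 16500736))) (b (a (l 16517912) (l 16495184)) (c (l 532083727) (l 531659023)))) (a (b (c (l 16496136) (l 16483320)) (l 6)) (l 6))) (l 6)) (b (b (a (c (a (l 16470960) (l 16453088)) (a (c (l 16466608) (l 16451368)) (c (l 16453680) (l 16438224)))) (a (c (l 16461864) (c (l 16441200) (l 16425544))) (l 6))) (a (c (a (l 16457704) (l 16439360)) (a (c (l 16451568) (l 16434968)) (c (l 16438088) (l 16421240)))) (l 6))) (l 6)))), by decide +kernel⟩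

def k23_B00pm_001_s3 : ∃ t, chk3 f_B00pm_001_s3 t 14 29 1 = true :=
  ⟨(b (b (a (a (l 2) (l 6)) (l 6)) (l 6)) (l 6)), by decide +kernel⟩

def k24_B00pm_001_s3 : ∃ t, chk3 f_B00pm_001_s3 t 15 14 1 = true :=
  ⟨(l 6), by decide +kernel⟩

def k25_B00pm_001_s3 : ∃ t, chk3 f_B00pm_001_s3 t 7 15 1 = true :=
  ⟨(l 6), by decide +kernel⟩

theorem t26_B00pm_001_s3 : ∃ t, chk3 f_B00pm_001_s3 t 14 14 1 = true := ex3_b k22_B00pm_001_s3 k23_B00pm_001_s3

theorem t27_B00pm_001_s3 : ∃ t, chk3 f_B00pm_001_s3 t 7 14 1 = true := ex3_a t26_B00pm_001_s3 k24_B00pm_001_s3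

theorem t28_B00pm_001_s3 : ∃ t, chk3 f_B00pm_001_s3 t 7 7 1 = true := ex3_b t27_B00pm_001_s3 k25_B00pm_001_s3

theorem t29_B00pm_001_s3 : ∃ t, chk3 f_B00pm_001_s3 t 15 13 1 = true := ex3_b k20_B00pm_001_s3 k21_B00pm_001_s3

theorem t30_B00pm_001_s3 : ∃ t, chk3 f_B00pm_001_s3 t 15 12 1 = true := ex3_a k18_B00pm_001_s3 k19_B00pm_001_s3

theorem t31_B00pm_001_s3 : ∃ t, chk3 f_B00pm_001_s3 t 15 6 1 = true := ex3_b t30_B00pm_001_s3 t29_B00pm_001_s3

theorem t32_B00pm_001_s3 : ∃ t, chk3 f_B00pm_001_s3 t 14 13 1 = true := ex3_a k16_B00pm_001_s3 k17_B00pm_001_s3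

theorem t33_B00pm_001_s3 : ∃ t, chk3 f_B00pm_001_s3 t 14 12 1 = true := ex3_a k14_B00pm_001_s3 k15_B00pm_001_s3

theorem t34_B00pm_001_s3 : ∃ t, chk3 f_B00pm_001_s3 t 14 6 1 = true := ex3_b t33_B00pm_001_s3 t32_B00pm_001_s3

theorem t35_B00pm_001_s3 : ∃ t, chk3 f_B00pm_001_s3 t 7 6 1 = true := ex3_a t34_B00pm_001_s3 t31_B00pm_001_s3

theorem t36_B00pm_001_s3 : ∃ t, chk3 f_B00pm_001_s3 t 7 3 1 = true := ex3_b t35_B00pm_001_s3 t28_B00pm_001_s3

theorem t37_B00pm_001_s3 : ∃ t, chk3 f_B00pm_001_s3 t 13 13 1 = true := ex3_a k11_B00pm_001_s3 k12_B00pm_001_s3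

theorem t38_B00pm_001_s3 : ∃ t, chk3 f_B00pm_001_s3 t 6 13 1 = true := ex3_a k10_B00pm_001_s3 t37_B00pm_001_s3

theorem t39_B00pm_001_s3 : ∃ t, chk3 f_B00pm_001_s3 t 13 12 1 = true := ex3_a k8_B00pm_001_s3 k9_B00pm_001_s3

theorem t40_B00pm_001_s3 : ∃ t, chk3 f_B00pm_001_s3 t 6 12 1 = true := ex3_a k7_B00pm_001_s3 t39_B00pm_001_s3

theorem t41_B00pm_001_s3 : ∃ t, chk3 f_B00pm_001_s3 t 6 6 1 = true := ex3_b t40_B00pm_001_s3 t38_B00pm_001_s3

theorem t42_B00pm_001_s3 : ∃ t, chk3 f_B00pm_001_s3 t 6 3 1 = true := ex3_b t41_B00pm_001_s3 k13_B00pm_001_s3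

theorem t43_B00pm_001_s3 : ∃ t, chk3 f_B00pm_001_s3 t 3 3 1 = true := ex3_a t42_B00pm_001_s3 t36_B00pm_001_s3

theorem t44_B00pm_001_s3 : ∃ t, chk3 f_B00pm_001_s3 t 15 11 1 = true := ex3_c k5_B00pm_001_s3 k6_B00pm_001_s3

theorem t45_B00pm_001_s3 : ∃ t, chk3 f_B00pm_001_s3 t 7 11 1 = true := ex3_a k4_B00pm_001_s3 t44_B00pm_001_s3

theorem t46_B00pm_001_s3 : ∃ t, chk3 f_B00pm_001_s3 t 7 5 1 = true := ex3_b k3_B00pm_001_s3 t45_B00pm_001_s3

theorem t47_B00pm_001_s3 : ∃ t, chk3 f_B00pm_001_s3 t 7 2 1 = true := ex3_b k2_B00pm_001_s3 t46_B00pm_001_s3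

theorem t48_B00pm_001_s3 : ∃ t, chk3 f_B00pm_001_s3 t 3 2 1 = true := ex3_a k1_B00pm_001_s3 t47_B00pm_001_s3

theorem t49_B00pm_001_s3 : ∃ t, chk3 f_B00pm_001_s3 t 3 1 1 = true := ex3_b t48_B00pm_001_s3 t43_B00pm_001_s3

theorem t50_B00pm_001_s3 : ∃ t, chk3 f_B00pm_001_s3 t 1 1 1 = true := ex3_a k0_B00pm_001_s3 t49_B00pm_001_s3

theorem c_B00pm_001_s3 : CertF 0 536870912 536870912 536870912 858993459 64424510 false true false .up 0 0 1
    ndB0q0 ndB0q1 pcB0 cut_B00pm_001_s3 xt_B00pm_001_s3 :=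
  certF0 (fam := false) (s1 := true) (s2 := false) (a := 0) (b := 0) (c := 1) (cn := .up) (n1 := ndB0q0) (n2 := ndB0q1) (pc := pcB0) (cut := cut_B00pm_001_s3) (xt := xt_B00pm_001_s3) (P1 := 0) (W1 := 536870912) (P2 := 536870912) (W2 := 536870912) (P3 := 858993459) (W3 := 64424510)
    rfl t50_B00pm_001_s3

theorem s_B00pm_001_s3 {κ x : ℝ} (hκ : κ * h0 = ken x) (hx : ((858993459 : ℕ) : ℝ) / S ≤ x)
    (hx' : x ≤ (((858993459 : ℕ) : ℝ) + (64424510 : ℕ)) / S) :
    AltB (VFD κ) PP tK tL pcB [⟨4, 0, 0, 2845415833⟩] 0 0 1 0 0 (sgb true) (sgb false) x :=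
  strip_altBD (m := 2845415833) false rfl hκ (SH.κ0 hκ (SH.hx1 hx).le (SH.hx2 hx').le) (SH.hx1 hx).le (SH.hx2 hx') (covB00).cov (covB01).cov hx hx' c_B00pm_001_s3 cutB_nil ((okx hx hx').extB (T := tt) (sideB hx hx') hκ rfl rfl (.O 0 true) (.O 1 false) (Or.inl rfl))

noncomputable def cut_B00pm_011_s1 : Cut := Cut.of [[⟨4, 0, 0, 1449551462⟩], [⟨0, 0, 0, 67108864⟩, ⟨1, 1, 0, 67108864⟩, ⟨2, 1, 0, 67108864⟩]]

noncomputable def f_B00pm_011_s1 : ℕ → ℕ → ℕ → ℕ → Bool := onCell 0 536870912 536870912 536870912 858993459 64424510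
    (rowF 0 false true false .pnn 0 1 1 (qsf 0 536870912 536870912 536870912 1) ndB0q0 ndB0q1 pcB1 cut_B00pm_011_s1 Ext.none)

def k0_B00pm_011_s1 : ∃ t, chk3 f_B00pm_011_s1 t 1 1 1 = true :=
  ⟨(l 6), by decide +kernel⟩

theorem c_B00pm_011_s1 : CertF 0 536870912 536870912 536870912 858993459 64424510 false true false .pnn 0 1 1
    ndB0q0 ndB0q1 pcB1 cut_B00pm_011_s1 Ext.none :=
  certF0 (fam := false) (s1 := true) (s2 := false) (a := 0) (b := 1) (c := 1) (cn := .pnn) (n1 := ndB0q0) (n2 := ndB0q1) (pc := pcB1) (cut := cut_B00pm_011_s1) (xt := Ext.none) (P1 := 0) (W1 := 536870912) (P2 := 536870912) (W2 := 536870912) (P3 := 858993459) (W3 := 64424510)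
    rfl k0_B00pm_011_s1

theorem s_B00pm_011_s1 {κ x : ℝ} (hκ : κ * h0 = ken x) (hx : ((858993459 : ℕ) : ℝ) / S ≤ x)
    (hx' : x ≤ (((858993459 : ℕ) : ℝ) + (64424510 : ℕ)) / S)
    (H : CutB (VFD κ) PP tK tL pcB (Cut.of [[⟨0, 0, 0, 67108864⟩, ⟨1, 1, 0, 67108864⟩, ⟨2, 1, 0, 67108864⟩]]) 0 1 1 0 0 (sgb true) (sgb false) x) :
    AltB (VFD κ) PP tK tL pcB [⟨3, 0, 0, 1449551462⟩] 0 1 1 0 0 (sgb true) (sgb false) x :=
  strip_altBD (m := 1449551462) true rfl hκ (SH.κ0 hκ (SH.hx1 hx).le (SH.hx2 hx').le) (SH.hx1 hx).le (SH.hx2 hx') (covB00).cov (covB01).cov hx hx' c_B00pm_011_s1 H (noExt_B)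

noncomputable def cut_B00pm_011_s3 : Cut := Cut.of [[⟨3, 0, 0, 2845415833⟩], [⟨0, 0, 0, 67108864⟩, ⟨1, 1, 0, 67108864⟩, ⟨2, 1, 0, 67108864⟩]]

noncomputable def xt_B00pm_011_s3 : Ext := strExt dd false true false .u0 .u0m .s0m .pnn 0 1 1 rfl rfl gl1 vv ndB0q0 ndB0q1

noncomputable def f_B00pm_011_s3 : ℕ → ℕ → ℕ → ℕ → Bool := onCell 0 536870912 536870912 536870912 858993459 64424510
    (rowF 0 false true false .pnn 0 1 1 (qsf 0 536870912 536870912 536870912 1) ndB0q0 ndB0q1 pcB1 cut_B00pm_011_s3 xt_B00pm_011_s3)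

def k0_B00pm_011_s3 : ∃ t, chk3 f_B00pm_011_s3 t 1 2 1 = true :=
  ⟨(a (l 4) (a (a (l 4) (l 1)) (l 1))), by decide +kernel⟩

def k1_B00pm_011_s3 : ∃ t, chk3 f_B00pm_011_s3 t 2 6 1 = true :=
  ⟨(b (l 4) (b (l 4) (b (a (l 4) (a (l 4) (a (l 4) (a (l 4) (c (a (l 531773711) (l 531785231)) (l 531429647)))))) (a (l 4) (a (l 4) (a (a (l 4) (a (l 4) (a (l 4) (l 531543823)))) (a (l 532093199) (c (l 531629327) (l 531528975))))))))), by decide +kernel⟩

def k2_B00pm_011_s3 : ∃ t, chk3 f_B00pm_011_s3 t 4 14 1 = true :=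
  ⟨(b (l 4) (a (l 4) (a (l 4) (a (l 4) (b (l 4) (b (l 4) (a (a (l 4) (b (l 4) (a (l 532108047) (l 532139791)))) (c (l 532227855) (c (l 532157199) (l 532099087)))))))))), by decide +kernel⟩

def k3_B00pm_011_s3 : ∃ t, chk3 f_B00pm_011_s3 t 8 30 1 = true :=
  ⟨(b (l 4) (b (l 4) (b (l 4) (b (l 4) (a (l 4) (a (l 4) (a (l 4) (a (l 4) (c (l 532084239) (l 531073551)))))))))), by decide +kernel⟩

def k4_B00pm_011_s3 : ∃ t, chk3 f_B00pm_011_s3 t 9 30 1 = true :=
  ⟨(a (a (b (l 4) (b (a (l 4) (c (a (l 532008463) (l 532021263)) (a (l 530725903) (l 531057935)))) (b (a (a (l 4) (c (l 532047375) (l 531197455))) (c (l 530846479) (a (l 531259407) (l 531322383)))) (a (a (c (l 531806735) (c (l 531386895) (l 530600719))) (c (l 532078095) (a (l 531182095) (l 531212303)))) (c (a (l 532083983) (l 532093455)) (a (l 530988047) (l 531318031))))))) (a (a (b (l 4) (b (c (l 532036623) (l 531122703)) (c (l 531554319) (b (l 531386127) (l 531381263))))) (b (l 4) (b (b (l 530692111) (l 530704143)) (b (l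 530447119) (c (l 532119311) (l 531445263)))))) (b (b (l 4) (b (l 4) (a (l 530991119) (l 531304975)))) (b (c (l 532082191) (a (l 531523087) (l 531590159))) (c (a (l 532123919) (l 532143631)) (a (l 530707215) (l 531041551))))))) (a (b (c (a (b (l 4) (l 532088591)) (c (l 532195343) (l 532068111))) (a (b (l 4) (a (l 531666959) (l 531736591))) (c (b (l 531920399) (l 531925519)) (b (l 531770895) (l 531749391))))) (b (a (c (l 532133135) (a (l 531657999) (l 531726863))) (c (l 532193039) (a (l 531796239) (l 531866383)))) (a (c (c (l 532282639) (l 532060175)) (b (l 531142927) (l 530867215))) (c (l 532229391) (a (l 531513103) (l 531582223)))))) (b (b (a (c (l 532216335) (c (l 532074767) (l 531962895))) (c (l 532924175) (c (l 532150799) (b (l 532075791) (l 532073999))))) (a (c (l 532228367) (c (l 532050959) (l 531912719))) (c (l 532302351) (c (l 532171279) (l 532067599))))) (a (c (b (l 532261647) (l 532292367)) (b (c (l 532049935) (l 531886351)) (c (l 531777039) (l 531587343)))) (b (c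 (l 532332815) (c (l 532169999) (l 531506191))) (c (l 532359695) (c (l 531895823) (l 531744783)))))))), by decide +kernel⟩

def k5_B00pm_011_s3 : ∃ t, chk3 f_B00pm_011_s3 t 8 62 1 = true :=
  ⟨(a (b (l 4) (l 14)) (a (a (b (l 4) (b (b (l 4) (l 14)) (l 14))) (a (a (b (l 4) (b (b (l 4) (c (l 532218895) (l 530822927))) (l 14))) (b (l 4) (b (c (l 531935759) (b (l 530841359) (l 530843663))) (c (l 531698703) (b (l 530845455) (l 14)))))) (b (a (l 4) (b (l 4) (c (l 532162063) (l 530881295)))) (c (b (a (l 531930127) (l 531924751)) (a (l 531692815) (l 531955471))) (a (c (b (l 531220495) (l 531230479)) (b (l 530489359) (l 530484495))) (c (l 530968335) (b (l 530519567) (l 530513679)))))))) (a (c (a (a (b (c (l 532413711) (l 531584783)) (c (l 532487695) (l 531363855))) (b (l 531063311) (c (l 532476687) (l 531634447)))) (b (b (l 531577359) (l 531339279)) (b (l 531100431) (c (l 532476687) (l 531647247))))) (c (b (a (a (l 531232783) (l 531249935)) (a (l 531268111) (l 531286543))) (a (b (l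 530985999) (l 530457359)) (a (l 531285263) (l 531302415)))) (a (b (a (l 530284047) (l 530317327)) (a (l 530274063) (l 530305551))) (b (a (l 530351119) (l 530385935)) (a (l 530337807) (l 530370831)))))) (a (c (b (c (l 532366351) (l 531060751)) (b (l 531362575) (l 531122703))) (b (b (c (l 531309583) (l 530440975)) (c (l 531318287) (l 530434831))) (b (c (l 531325455) (l 530426383)) (c (l 531331343) (l 530415631))))) (c (b (c (l 532348943) (l 531339791)) (c (l 532419343) (l 531112975))) (b (b (l 530268687) (a (l 531062543) (l 531091215))) (b (c (l 531364367) (l 530497807)) (c (l 531368975) (l 530485519))))))))), by decide +kernel⟩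

def k6_B00pm_011_s3 : ∃ t, chk3 f_B00pm_011_s3 t 16 63 1 = true :=
  ⟨(l 14), by decide +kernel⟩

def k7_B00pm_011_s3 : ∃ t, chk3 f_B00pm_011_s3 t 34 126 1 = true :=
  ⟨(b (b (a (l 14) (a (l 14) (a (l 14) (c (l 532247055) (l 530888975))))) (l 14)) (l 14)), by decide +kernel⟩

def k8_B00pm_011_s3 : ∃ t, chk3 f_B00pm_011_s3 t 35 126 1 = true :=
  ⟨(b (c (c (b (a (a (l 532525839) (l 16745568)) (a (l 16746344) (l 16741832))) (a (a (l 532544271) (l 16746784)) (a (l 16742304) (b (l 16738800) (a (l 16738088) (l 16736080)))))) (c (a (a (l 531820815) (l 532086543)) (a (l 532085263) (b (l 16738752) (b (l 16735400) (l 16723024))))) (c (a (a (l 531585039) (l 531860751)) (a (l 531869711) (b (l 16737120) (b (l 16733608) (l 16731560))))) (a (a (l 531422991) (l 531705615)) (a (l 531721743) (b (l 16735992) (b (l 16732368) (l 16730224)))))))) (a (a (c (a (l 531267087) (l 531282191)) (a (l 530534671) (l 530564623))) (c (l 531032847) (l 530337551))) (a (c (l 531335439) (l 530402831)) (b (l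 530797071) (b (l 531063823) (a (c (l 16727864) (l 16721992)) (b (l 16723040) (l 16721992)))))))) (c (a (b (b (a (l 531456015) (c (l 16743888) (l 16728840))) (a (l 14) (a (b (l 16730752) (l 16730200)) (a (l 16729104) (l 16728344))))) (a (l 14) (b (b (l 16729440) (l 16718920)) (l 16716376)))) (b (b (a (a (b (l 16738648) (l 16727400)) (b (l 16726040) (l 16736264))) (a (l 16724256) (l 16733240))) (a (l 16726472) (l 16712936))) (c (c (l 16726336) (l 16729640)) (l 16731760)))) (c (a (b (a (b (l 16739600) (l 14)) (b (l 16734296) (a (l 16733248) (l 16731016)))) (a (l 14) (l 16719712))) (b (a (b (a (l 16730512) (l 16728216)) (l 16727912)) (l 16713992)) (b (l 16703688) (l 16702472)))) (a (b (a (b (l 16734656) (l 14)) (b (a (l 16730288) (l 16727376)) (a (l 16727456) (l 16724896)))) (a (l 14) (b (l 16723984) (l 16721904)))) (b (a (b (a (l 16724656) (l 16711632)) (l 16721144)) (b (l 16718432) (l 16716312))) (a (l 16718008) (l 16713176))))))), by decide +kernel⟩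

def k9_B00pm_011_s3 : ∃ t, chk3 f_B00pm_011_s3 t 17 127 1 = true :=
  ⟨(a (l 14) (a (b (b (a (l 14) (a (l 14) (c (l 16709224) (l 16701288)))) (l 14)) (l 14)) (c (b (b (c (a (l 16722336) (l 16695856)) (l 16727976)) (a (l 16687032) (l 16681872))) (b (b (a (l 16670640) (l 16665520)) (l 16664688)) (l 16659720))) (c (b (b (l 16721632) (l 16719240)) (l 16716896)) (b (b (l 16690440) (l 16707248)) (b (l 16662000) (l 16703832))))))), by decide +kernel⟩

def k10_B00pm_011_s3 : ∃ t, chk3 f_B00pm_011_s3 t 18 62 1 = true :=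
  ⟨(c (a (a (a (b (c (l 532332815) (l 531620367)) (c (l 532401935) (l 531392015))) (b (c (l 532318991) (l 531634447)) (c (l 532386575) (l 531404303)))) (a (c (b (l 532312591) (l 532375311)) (b (l 531652367) (l 531687695))) (b (b (l 532118031) (l 532141583)) (c (l 532367119) (l 531705103))))) (b (a (a (l 531602447) (l 532151823)) (a (l 532166927) (l 532184335))) (b (a (a (l 532173071) (l 532183311)) (l 531394831)) (a (a (b (l 16725184) (b (l 16721952) (b (l 16720424) (l 16698664)))) (b (l 16720608) (b (l 16701864) (l 16716400)))) (b (a (l 16700488) (b (l 16712728) (l 16711136))) (c (l 16714504) (l 16714528))))))) (b (b (a (a (a (l 530865679) (l 530389775)) (a (l 530986511) (l 531315727))) (a (a (l 531377679) (l 531440655)) (a (l 531504655) (l 531569679)))) (a (a (a (l 530595599) (l 530387471)) (a (l 530984207) (l 531312399))) (a (a (l 531373583) (l 531435791)) (a (l 531499023) (l 531563279))))) (c (c (a (a (a (l 531272207) (l 531307023)) (a (l 531611919) (l 531649807))) (a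 (b (l 531435279) (b (l 16717296) (a (l 16714896) (l 16710632)))) (b (l 16704800) (b (a (l 16710400) (l 16706144)) (l 16704976))))) (a (a (a (l 530997519) (l 531048207)) (a (l 531099663) (l 531420687))) (b (a (l 531230223) (l 531343375)) (a (b (l 16714856) (a (l 16712168) (l 16707816))) (b (a (l 16707864) (l 16703552)) (l 16701920)))))) (a (a (a (a (l 530546959) (l 530584591)) (b (l 530916367) (l 530901263))) (a (l 530712847) (l 530788367))) (a (b (a (l 531141391) (l 531217167)) (b (l 16710984) (a (b (l 16709248) (l 16706520)) (b (l 16704448) (l 16702144))))) (b (l 531327247) (b (a (l 16703832) (b (l 16700672) (l 16698224))) (a (l 16699088) (l 16694896))))))))), by decide +kernel⟩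

def k11_B00pm_011_s3 : ∃ t, chk3 f_B00pm_011_s3 t 19 62 1 = true :=
  ⟨(b (c (a (a (c (l 532331023) (l 532084495)) (l 531455503)) (a (l 532318991) (b (l 16703008) (b (l 16696856) (c (l 16694688) (l 16691776)))))) (a (a (a (l 531094543) (l 531160847)) (b (l 531264015) (l 530986767))) (a (c (l 531769615) (l 531287311)) (b (l 531539215) (b (l 16670216) (a (l 16667448) (a (l 16664776) (l 16663064)))))))) (c (b (a (a (b (l 16713528) (a (l 16711456) (l 16696864))) (b (c (l 16706752) (l 16682240)) (c (l 16703864) (l 16699784)))) (a (b (c (l 16699136) (l 16695632)) (l 16696024)) (b (l 16691296) (l 16687840)))) (a (a (b (a (c (l 16710496) (l 16685000)) (l 16705168)) (l 16706128)) (a (l 16681088) (l 16697424))) (c (l 16679792) (l 16686984)))) (a (b (b (a (l 531115023) (a (l 16699184) (l 16695096))) (a (a (l 16702728) (b (l 16699672) (l 16676288))) (a (b (l 16695520) (l 16693480)) (b (l 16691776) (l 16689944))))) (b (a (a (b (l 16678136) (l 16697192)) (l 16673440)) (a (l 16669840)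 (l 16645368))) (a (a (l 16673616) (l 16648976)) (l 16664592)))) (b (c (a (b (a (l 16693384) (l 16689872)) (l 16688552)) (l 16683712)) (a (b (a (l 16689088) (l 16685552)) (l 16682848)) (b (l 16680368) (l 16675952)))) (a (a (l 16661176) (l 16657848)) (l 16642472)))))), by decide +kernel⟩

def k12_B00pm_011_s3 : ∃ t, chk3 f_B00pm_011_s3 t 18 126 1 = true :=
  ⟨(b (c (b (a (a (a (l 532206863) (c (l 16732912) (b (l 16729216) (l 16716544)))) (a (b (l 16716456) (c (l 16727856) (l 16712296))) (b (b (l 16712480) (l 16711832)) (l 16722128)))) (a (c (l 16719344) (l 16714608)) (l 16690496))) (a (a (b (a (c (l 16734520) (l 16719112)) (c (l 16730680) (l 16714992))) (a (a (l 16721320) (l 16730280)) (l 16727968))) (a (l 16703984) (l 16721880))) (a (a (l 16717528) (l 16712224)) (l 16704224)))) (a (b (a (a (l 531120143) (b (l 16721536) (a (l 16720072) (l 16707056)))) (a (b (a (l 16717728) (l 16715216)) (c (l 16717160) (l 16711000))) (b (b (l 16701776) (l 16700728)) (l 16688896)))) (c (a (a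 (b (l 16724160) (l 16722352)) (b (l 16719712) (l 16718376))) (l 16702688)) (a (a (b (b (l 16718904) (l 16717528)) (l 16715864)) (b (l 16713384) (l 16711168))) (a (l 16707696) (l 16703248))))) (a (a (b (b (l 16697032) (l 16705808)) (l 16682296)) (b (l 16681696) (l 16678296))) (b (a (l 16677776) (l 16652968)) (l 16672440))))) (a (a (a (c (b (a (l 16710680) (l 16708848)) (l 16697312)) (b (c (l 16720464) (l 16712632)) (l 16692360))) (c (b (l 16704912) (l 16697352)) (b (b (l 16692208) (l 16690544)) (l 16688064)))) (c (c (a (l 16712880) (l 16707424)) (l 16718616)) (c (l 16688440) (a (l 16680392) (l 16696904))))) (a (c (b (l 16676048) (l 16658152)) (b (l 16666432) (l 16652600))) (c (a (l 16653976) (l 16648688)) (b (l 16648080) (l 16644712)))))), by decide +kernel⟩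

def k13_B00pm_011_s3 : ∃ t, chk3 f_B00pm_011_s3 t 18 127 1 = true :=
  ⟨(c (a (b (a (c (b (l 16687688) (l 16658368)) (l 16714728)) (c (a (l 16654480) (l 16659496)) (l 16704872))) (b (a (a (l 16658968) (l 16654016)) (l 16646584)) (l 16644928))) (b (b (a (l 16650704) (l 16682248)) (a (l 16643120) (l 16632944))) (b (l 16631488) (l 16667144)))) (b (a (a (b (a (l 16668096) (l 16663792)) (l 16673144)) (b (l 16657464) (l 16654176))) (c (l 16672336) (a (l 16640072) (l 16631840)))) (a (a (l 16670912) (l 16652584)) (l 16641504)))), by decide +kernel⟩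

def k14_B00pm_011_s3 : ∃ t, chk3 f_B00pm_011_s3 t 19 63 1 = true :=
  ⟨(b (c (a (c (a (b (l 16693056) (l 16677384)) (a (l 16676872) (l 16671272))) (b (l 16696000) (l 16683024))) (c (b (l 16664728) (l 16607544)) (b (l 16674416) (l 16661720)))) (a (b (a (b (l 16668328) (l 16643928)) (a (l 16640200) (l 16636688))) (a (l 16638832) (l 16631592))) (b (a (l 16631592) (l 16625008)) (b (l 16623112) (l 16619688))))) (b (a (c (c (a (l 16619584) (l 16608960)) (l 16669792)) (b (l 16630112) (l 16627720))) (c (a (l 16584064) (l 16552392)) (b (l 16616432) (l 16656944)))) (a (a (l 16584992) (l 16574864)) (a (l 16564440) (l 16553808))))), by decide +kernel⟩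

def k15_B00pm_011_s3 : ∃ t, chk3 f_B00pm_011_s3 t 10 28 1 = true :=
  ⟨(a (l 4) (b (l 4) (a (a (l 4) (b (l 4) (b (l 4) (a (c (l 532077583) (l 532031759)) (l 532058383))))) (c (a (a (b (l 4) (l 532069903)) (b (b (l 4) (c (l 532055055) (l 532018703))) (c (l 532082959) (l 532058895)))) (b (l 532028943) (c (a (l 531816463) (l 532086287)) (a (l 532060431) (l 532061967))))) (c (a (b (a (l 4) (b (l 4) (l 531975183))) (a (l 532027407) (l 532028687))) (b (l 531960079) (a (l 532030223) (l 532032271)))) (a (b (a (l 4) (b (l 4) (l 531924239))) (a (l 531991567) (l 531992591))) (b (l 531905551) (a (l 531994639) (l 531997455))))))))), by decide +kernel⟩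

def k16_B00pm_011_s3 : ∃ t, chk3 f_B00pm_011_s3 t 10 29 1 = true :=
  ⟨(a (a (b (l 4) (a (c (b (l 532249615) (l 532268047)) (b (l 532237583) (c (l 532230671) (l 532197647)))) (b (l 532556815) (b (l 532292623) (l 532294927))))) (a (b (c (l 532167183) (b (l 4) (l 532267791))) (b (c (l 532295951) (l 532344591)) (c (l 532323599) (l 532339727)))) (b (c (l 532168207) (c (l 532180239) (l 532184847))) (c (b (l 532308751) (l 532341519)) (b (l 532371471) (l 532381967)))))) (a (a (b (c (l 532173327) (b (l 532112143) (l 532236559))) (b (l 532602127) (a (l 532379151) (l 532386575)))) (a (b (b (a (l 532125967) (c (l 532125967) (l 532104463))) (l 532232207)) (c (l 532339471) (l 532405263))) (b (b (c (l 532128783) (b (l 532078607) (l 532141327))) (c (l 532228623) (l 532233231))) (c (l 532342031) (l 532401423))))) (b (b (a (c (c (l 532404751) (l 532496143)) (a (b (l 532078607) (l 532135439)) (c (l 532114703) (l 532096015)))) (c (c (a (l 532133903) (l 532133647)) (a (l 532123663) (l 531855119)))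 (c (a (l 531841039) (l 532109327)) (a (l 531822607) (l 532091407))))) (a (c (a (l 532226319) (l 532221455)) (a (l 532227855) (l 532220943))) (c (a (l 532216847) (l 532213263)) (a (l 532215055) (l 532211215))))) (b (c (a (l 532314895) (a (l 532309775) (l 532304399))) (a (l 532607759) (a (l 532330767) (l 532324367)))) (a (c (l 532371983) (l 532445711)) (c (l 532661775) (b (l 532407823) (l 16698248)))))))), by decide +kernel⟩

def k17_B00pm_011_s3 : ∃ t, chk3 f_B00pm_011_s3 t 10 30 1 = true :=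
  ⟨(a (b (c (a (c (a (b (l 532315663) (l 532369167)) (l 532967951)) (b (a (l 532278031) (l 532318991)) (a (l 532315151) (l 532355855)))) (a (b (l 532356111) (l 532402703)) (b (l 532377359) (l 532424719)))) (a (b (a (a (l 532184591) (l 532225295)) (l 532278543)) (a (c (l 532250895) (l 532176143)) (l 532290319))) (a (b (l 532340495) (l 532357647)) (b (l 532389903) (l 532411663))))) (b (a (a (c (l 532383503) (c (l 532263183) (l 531899407))) (c (l 532419599) (c (l 532335375) (l 532267279)))) (c (a (l 532446991) (l 532472591)) (a (l 532640527) (l 532433679)))) (a (a (c (l 532413199) (c (l 532263183) (l 531877903))) (c (l 532455183) (c (l 532344847) (l 531989263)))) (a (c (l 532488207) (c (l 16678288) (l 532350479))) (c (l 532513807) (c (l 16670400) (l 16674776))))))) (b (b (c (a (a (l 532392207) (l 532402191)) (a (l 532415759) (l 532704527))) (a (a (l 532426767) (l 532451855)) (a (l 532474639) (b (l 16685952) (l 16689144))))) (a (a (a (l 532577295) (l 532589583)) (a (l 532599567)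 (l 532675855))) (a (c (l 532466959) (l 532511247)) (c (l 532754959) (a (l 16669848) (l 16665672)))))) (a (a (b (c (l 532491279) (l 532481551)) (b (c (l 16677224) (l 16676608)) (b (l 16660720) (c (l 16668224) (c (l 16667192) (l 16666312)))))) (c (b (l 532504847) (b (l 16668672) (b (l 16663376) (l 16659952)))) (b (l 532517903) (b (l 16668640) (b (l 16662872) (l 16659048)))))) (b (c (a (l 16660648) (l 16652160)) (a (l 532549647) (a (l 16655240) (l 16640680)))) (b (a (c (l 16660344) (l 16655408)) (b (l 16643616) (c (l 16650128) (l 16650800)))) (a (c (b (l 16655160) (l 16649200)) (b (l 16654976) (l 16651240))) (c (l 16641520) (l 16645168)))))))), by decide +kernel⟩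

def k18_B00pm_011_s3 : ∃ t, chk3 f_B00pm_011_s3 t 10 62 1 = true :=
  ⟨(a (b (a (b (c (a (l 16694888) (b (l 16688736) (l 16684960))) (a (l 532194831) (c (l 16663144) (b (l 16684200) (l 16658720))))) (c (a (b (l 16689152) (l 16686648)) (b (l 16682072) (l 16678480))) (b (a (a (l 16685624) (l 16671544)) (c (l 16678288) (l 16664864))) (a (c (l 16660744) (l 16656952)) (l 16673168))))) (b (c (a (b (l 16680624) (l 16677520)) (b (l 16672920) (l 16669112))) (a (b (l 16656776) (c (l 16674768) (l 16662104))) (b (c (l 16671080) (l 16659112)) (l 16666576)))) (a (c (l 16670544) (c (l 16670240) (l 16644944))) (c (l 16659536) (l 16640112))))) (a (b (c (a (l 16679816) (l 16668568)) (a (b (l 16676232) (l 16672664)) (l 16646792))) (c (c (l 16656776) (l 16664968)) (b (l 16634344) (l 16620328)))) (c (c (b (l 16648744) (l 16592552)) (l 16649560)) (a (b (l 16660912) (l 16653776)) (b (l 16653840) (l 16646688)))))) (c (b (a (b (a (b (l 16664560) (l 16658224)) (l 16650648)) (c (l 16640760) (l 16646304)))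 (c (b (l 16632560) (l 16577320)) (b (l 16637096) (l 16625968)))) (c (a (a (l 16583392) (l 16572816)) (b (l 16563880) (l 16592232))) (a (l 16628944) (l 16609000)))) (b (a (a (b (c (l 16662312) (l 16659784)) (l 16653752)) (b (l 16642992) (l 16646112))) (b (b (l 16622592) (l 16618888)) (b (l 16636184) (l 16632528)))) (a (b (b (l 16602576) (l 16640912)) (l 16593608)) (a (l 16585496) (l 16577552)))))), by decide +kernel⟩

def k19_B00pm_011_s3 : ∃ t, chk3 f_B00pm_011_s3 t 10 63 1 = true :=
  ⟨(a (c (b (b (a (c (l 16600096) (l 16652664)) (c (l 16620088) (l 16631568))) (a (c (l 16627136) (l 16640232)) (c (l 16605408) (l 16535440)))) (a (b (b (l 16539344) (l 16617120)) (l 16608216)) (b (l 16515952) (l 16587872)))) (b (a (b (b (l 16616824) (l 16655280)) (l 16608144)) (b (l 16601288) (l 16594320))) (a (b (l 16561512) (l 16637240)) (l 16561608)))) (c (a (b (b (l 16542040) (b (l 16511264) (l 16504632))) (l 16500912)) (b (b (l 16521992) (b (l 16491456) (l 16485296))) (l 16471160))) (a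 (b (b (l 16544584) (l 16537864)) (l 16520688)) (b (b (l 16612808) (l 16522592)) (l 16585400))))), by decide +kernel⟩

def k20_B00pm_011_s3 : ∃ t, chk3 f_B00pm_011_s3 t 22 28 1 = true :=
  ⟨(b (a (a (b (l 4) (b (l 4) (c (l 532001039) (l 531882255)))) (b (l 4) (c (l 531994383) (c (l 531905807) (l 531839759))))) (c (a (a (b (b (l 4) (c (b (a (l 4) (l 531992847)) (a (l 532004879) (l 532007183))) (c (l 531682319) (l 531916815)))) (c (a (l 532023055) (l 531751183)) (l 531699983))) (b (b (l 531939343) (b (l 531962895) (c (l 532007951) (l 531944463)))) (c (b (l 531755535) (l 532034319)) (b (l 531964175) (l 531986447))))) (b (b (l 531943951) (b (l 531966991) (l 531981839))) (b (a (l 531997711) (l 532002063)) (a (l 532016143) (l 532022031))))) (c (a (b (a (b (l 4) (c (l 531881743) (l 531845391))) (b (l 531840783) (l 531868943))) (a (l 531916303) (b (l 531900175) (l 531935759)))) (b (l 531594255) (a (l 531653135) (l 531925775)))) (a (b (a (b (l 4) (c (l 531807503) (l 531768591))) (b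 (l 531769871) (l 531795983))) (a (l 531592207) (b (l 531831567) (l 531881743)))) (b (l 531524879) (b (l 531840015) (l 531884303))))))) (a (c (b (a (l 532032271) (l 532035343)) (a (b (l 532065295) (l 532088079)) (l 531810319))) (b (c (l 531700239) (l 531651343)) (a (b (l 532000783) (l 532039695)) (c (l 532042767) (l 532014863))))) (c (a (b (a (l 532037903) (l 531771663)) (c (l 532090383) (l 532071439))) (b (a (l 531775759) (l 532049935)) (b (l 16729376) (l 16721960)))) (a (b (a (l 531961871) (l 531699215)) (c (l 532050959) (l 532029199))) (b (c (l 531722511) (l 531682063)) (b (l 16728912) (l 16721616))))))), by decide +kernel⟩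

def k21_B00pm_011_s3 : ∃ t, chk3 f_B00pm_011_s3 t 23 28 1 = true :=
  ⟨(b (b (b (a (l 531627279) (l 531650063)) (a (c (l 531984143) (l 531591439)) (l 532080143))) (a (c (a (b (l 532008207) (l 532029711)) (l 531759631)) (a (b (l 531884559) (l 531920143)) (l 531912719))) (c (l 532041487) (l 531661071)))) (a (c (b (a (l 532058639) (l 531801615)) (a (l 531828495) (l 16706480))) (b (a (l 531641615) (l 531984143)) (a (l 531786255) (l 16705752)))) (c (b (l 532085519) (a (l 16696904) (l 16687328))) (b (l 531728399) (a (l 16695968) (l 16686200)))))), by decide +kernel⟩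

def k22_B00pm_011_s3 : ∃ t, chk3 f_B00pm_011_s3 t 11 29 1 = true :=
  ⟨(a (a (b (c (a (b (c (l 532133647) (l 532123663)) (c (l 532207119) (l 532209167))) (b (l 532129551) (l 532204047))) (a (b (c (l 531842319) (l 531826191)) (c (l 532208655) (l 532206095))) (b (l 532109327) (l 532342543)))) (b (c (a (b (l 16711784) (l 532318735)) (b (l 16704928) (l 16697920))) (a (c (l 532312079) (l 532320783)) (b (l 16705240) (l 16698416)))) (a (c (b (l 16700400) (l 16693480)) (b (l 16695736) (l 16683768))) (c (b (l 16690976) (l 16684096)) (b (l 16691672) (l 16684992)))))) (b (b (c (a (b (l 16724176) (l 16716840)) (l 532133903)) (a (b (l 16723968) (l 16716768)) (l 532260623))) (c (a (l 532200719) (l 16696456)) (a (l 532346895) (l 16696752)))) (c (a (b (b (l 16695400) (l 16688416)) (b (l 16681496) (l 16674632))) (b (l 16682376) (l 16668600))) (a (c (b (l 16692320) (l 16678824)) (b (l 16692624) (l 16679344))) (b (l 16683120) (l 16669808)))))) (a (b (c (a (b (l 16701344) (l 16686928)) (b (l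 16691816) (l 16677432))) (a (b (l 16701192) (l 16687248)) (b (l 16691528) (l 16677704)))) (c (b (l 16668152) (l 16654440)) (b (a (l 16673712) (l 16664280)) (l 16650576)))) (b (a (b (a (l 16684464) (l 16679664)) (l 16668024)) (b (l 16672472) (l 16658512))) (c (b (l 16649312) (l 16635688)) (b (l 16650056) (l 16637072)))))), by decide +kernel⟩

def k23_B00pm_011_s3 : ∃ t, chk3 f_B00pm_011_s3 t 11 30 1 = true :=
  ⟨(b (a (b (a (a (c (b (l 16686552) (l 16679392)) (a (l 16675920) (l 16671328))) (c (b (l 16677200) (l 16670216)) (c (l 16664120) (l 16664720)))) (c (a (l 16659064) (l 16654872)) (a (l 16660472) (l 16656512)))) (a (c (a (b (l 16672184) (l 16665008)) (l 16654328)) (a (a (l 16661496) (l 16646824)) (b (l 16664584) (l 16657584)))) (a (c (l 16650224) (l 16641464)) (c (l 16640864) (l 16642808))))) (a (c (b (l 16640792) (l 16626856)) (b (l 16632144) (l 16618520))) (b (c (l 16622136) (l 16624048)) (b (l 16612848) (a (l 16615648) (c (l 16599704) (l 16602696))))))) (a (b (c (a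 (a (l 16643792) (b (l 16648800) (b (l 16643392) (l 16639472)))) (a (b (l 16639512) (a (l 16644640) (l 16639736))) (b (l 16630064) (l 16637280)))) (a (a (l 16645048) (b (l 16650504) (b (l 16645160) (l 16641600)))) (b (a (l 16641392) (l 16632264)) (a (b (l 16636048) (l 16632672)) (l 16635992))))) (a (a (b (b (c (l 16644888) (l 16646472)) (a (l 16644112) (l 16639136))) (c (l 16630832) (l 16637080))) (b (c (a (l 16634576) (l 16629088)) (b (l 16638208) (l 16634488))) (c (l 16620168) (l 16628840)))) (c (a (b (l 16621008) (l 16609520)) (c (l 16602344) (l 16607112))) (b (a (l 16627688) (l 16618944)) (a (l 16620448) (l 16611960)))))) (c (a (b (b (a (l 16620464) (l 16610760)) (l 16626480)) (b (l 16594512) (l 16583336))) (b (b (l 16616328) (l 16584656)) (a (l 16573528) (l 16563432)))) (b (b (a (b (l 16620304) (l 16627544)) (l 16600960)) (a (l 16612248) (l 16594776))) (a (c (l 16598824) (l 16599736)) (l 16585360)))))), by decide +kernel⟩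

def k24_B00pm_011_s3 : ∃ t, chk3 f_B00pm_011_s3 t 11 31 1 = true :=
  ⟨(b (c (b (a (a (a (b (l 16618928) (l 16606880)) (b (l 16608392) (l 16596480))) (c (b (a (l 16594496) (l 16583696)) (l 16534456)) (l 16591184))) (a (b (l 16572024) (l 16560584)) (c (l 16499136) (l 16468232)))) (a (a (c (b (l 16584688) (l 16571424)) (l 16589248)) (c (b (l 16563576) (l 16550632)) (l 16527720))) (c (a (l 16620440) (l 16516664)) (l 16582840)))) (a (a (b (b (a (l 16629632) (l 16621400)) (l 16618200)) (b (l 16610928) (l 16603744))) (b (a (l 16577880) (l 16600872)) (b (l 16594208) (l 16587024)))) (a (b (b (l 16591792) (l 16584472)) (l 16573632)) (b (l 16571008) (l 16556552))))) (c (b (b (a (a (l 16502048) (l 16482176)) (a (l 16441704) (l 16422568))) (a (a (a (l 16473664) (l 16464008)) (l 16449600)) (a (l 16430632) (l 16495944)))) (a (a (l 16452192) (l 16433240)) (a (l 16498512) (l 16480416)))) (b (a (a (b (l 16596632) (l 16589712)) (b (l 16579912) (l 16572320))) (b (l 16481368) (l 16461896)))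 (a (b (l 16481784) (l 16549384)) (l 16489896))))), by decide +kernel⟩

def k25_B00pm_011_s3 : ∃ t, chk3 f_B00pm_011_s3 t 6 6 1 = true :=
  ⟨(b (b (a (l 4) (l 1)) (b (a (l 4) (l 1)) (a (a (l 4) (a (l 4) (b (l 4) (l 531551759)))) (a (c (a (l 531517199) (l 1)) (l 531724559)) (l 1))))) (a (a (b (b (l 4) (a (a (l 4) (l 531397135)) (a (l 531680015) (l 531426319)))) (b (a (c (l 531533839) (l 531460623)) (l 531962639)) (a (c (a (l 531915279) (l 531926799)) (l 531558415)) (c (l 531675919) (l 531588367))))) (b (c (a (b (l 531340047) (l 531463695)) (b (l 531630607) (l 531755791))) (a (l 531648527) (a (l 531405583) (l 531690511)))) (c (a (b (l 531584015) (l 531969551)) (b (l 531877135) (l 531995151))) (a (l 531971855) (l 532003599))))) (a (b (c (a (b (l 531649807) (l 531777551)) (b (l 531665167) (l 531796495))) (a (l 531915791) (l 531880975))) (c (a (b (l 531900943) (l 532020239)) (b (l 531922703) (l 532044303))) (a (b (l 531587343) (l 531681295)) (b (l 531887887) (l 531981071))))) (a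 (a (b (c (c (l 531726863) (l 531752719)) (l 531770895)) (c (b (l 531937295) (l 532061199)) (l 531957007))) (b (l 1) (c (b (l 531945999) (l 532071439)) (l 531972623)))) (b (l 1) (b (a (c (l 531950607) (l 531942415)) (l 1)) (c (l 532077839) (l 532042255)))))))), by decide +kernel⟩

def k26_B00pm_011_s3 : ∃ t, chk3 f_B00pm_011_s3 t 6 28 1 = true :=
  ⟨(a (b (a (b (a (c (l 531739407) (l 531901967)) (c (l 531762703) (l 531930639))) (a (c (a (l 532057871) (l 532068879)) (l 531687183)) (c (l 531817231) (l 531982863)))) (a (b (l 532178191) (c (l 532110351) (l 532011279))) (c (b (l 532081679) (l 532136463)) (l 532149007)))) (a (c (b (a (a (l 16692232) (l 16682576)) (l 531864079)) (a (l 531881743) (l 16653848))) (a (b (l 531750159) (l 531817999)) (b (l 531774735) (l 16652064)))) (c (b (a (l 532158223) (l 532185103)) (a (l 16634792) (l 16615816))) (a (b (l 532069135) (l 16632632)) (c (l 531879695) (l 531834127)))))) (a (a (b (c (b (l 532107535) (l 532162831)) (l 532045071)) (c (c (l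 532252431) (l 532217359)) (c (l 531907855) (l 532129039)))) (b (c (b (l 532132879) (l 532189199)) (l 532075535)) (c (a (l 16599936) (l 16590448)) (l 532316175)))) (b (a (c (c (l 532197647) (l 532169999)) (c (l 532130319) (l 16587464))) (c (b (l 532173071) (l 16565688)) (l 532135695))) (a (c (b (l 16572280) (l 16559208)) (b (l 16568584) (l 16555560))) (c (b (l 16553080) (l 16540312)) (b (l 16549216) (l 16536392))))))), by decide +kernel⟩

def k27_B00pm_011_s3 : ∃ t, chk3 f_B00pm_011_s3 t 6 29 1 = true :=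
  ⟨(a (a (a (b (c (b (l 16658552) (l 16644400)) (b (l 16657648) (l 16644152))) (c (b (l 16630584) (l 16617080)) (b (l 16631072) (l 16618280)))) (b (b (a (l 16643760) (l 16634224)) (l 16625320)) (b (l 16612024) (l 16599016)))) (b (b (c (a (l 16620744) (l 16601976)) (a (l 16619080) (l 16599896))) (a (l 16606456) (l 16587696))) (a (b (l 16593336) (l 16580504)) (b (l 16574768) (l 16562128))))) (b (a (a (c (b (l 16583288) (l 16569920)) (l 16574392)) (c (l 16558144) (l 16555456))) (a (c (l 16539728) (l 16536608)) (c (l 16521296) (l 16517752)))) (a (a (b (l 16556328) (c (b (l 16547224) (l 16540552)) (l 16543656))) (b (l 16538008) (c (b (l 16529088) (l 16522312)) (l 16525616)))) (a (b (c (l 16520624) (l 16518496)) (c (b (l 16511048) (l 6)) (l 16507904))) (l 6))))), by decide +kernel⟩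

def k28_B00pm_011_s3 : ∃ t, chk3 f_B00pm_011_s3 t 6 15 1 = true :=
  ⟨(b (c (a (b (a (a (b (l 16603632) (b (l 16593008) (l 16605864))) (b (l 16585032) (b (l 16595104) (l 16564528)))) (b (a (b (l 16570360) (l 16563128)) (b (l 16551928) (l 16543792))) (a (l 16549544) (l 16530240)))) (b (a (a (c (l 16567312) (l 16571920)) (l 16570600)) (a (l 16530288) (l 16511496))) (a (c (a (l 16502632) (l 16524784)) (l 16543320)) (a (l 16510336) (l 6))))) (b (a (a (b (l 16550048) (l 16511456)) (a (l 16548216) (l 6))) (l 6)) (l 6))) (a (b (b (a (a (l 16605432) (l 16586816)) (a (b (l 16571472) (l 16565496)) (b (l 16553208) (l 16547776)))) (a (a (b (l 16595520) (l 16589392)) (b (l 16577560) (l 16571792))) (a (l 16557168) (l 16539848)))) (b (a (a (l 16580424) (l 16563120)) (a (l 16545936) (l 16528856))) (a (a (l 16568216) (l 16550944)) (a (l 16533336) (l 6))))) (b (a (a (b (l 16532984) (l 16522632)) (a (l 16514880) (l 6))) (l 6)) (l 6)))) (a (b (c (a (a (c (b (l 16521224) (l 16497440)) (l 16523216))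 (b (l 16529096) (l 6))) (l 6)) (a (b (a (l 16553768) (l 16536392)) (a (l 16539360) (l 6))) (l 6))) (a (b (b (a (b (l 16385096) (l 6)) (l 6)) (l 6)) (l 6)) (l 6))) (l 6))), by decide +kernel⟩

def k29_B00pm_011_s3 : ∃ t, chk3 f_B00pm_011_s3 t 7 3 1 = true :=
  ⟨(b (a (b (l 1) (a (b (l 1) (b (l 1) (a (a (c (l 532071695) (l 16580600)) (l 1)) (l 1)))) (l 1))) (l 1)) (b (a (b (b (a (c (a (c (l 532172815) (l 16551768)) (c (l 532164367) (l 16531248))) (a (b (l 16555760) (l 16542664)) (c (l 16530576) (l 16528112)))) (l 1)) (a (a (c (a (l 16531552) (l 16521144)) (l 16523448)) (c (c (l 16503920) (l 16507264)) (l 16504144))) (l 6))) (b (a (a (c (l 16502320) (l 16498864)) (l 6)) (l 6)) (l 6))) (l 6)) (l 6))), by decide +kernel⟩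

theorem t30_B00pm_011_s3 : ∃ t, chk3 f_B00pm_011_s3 t 6 14 1 = true := ex3_b k26_B00pm_011_s3 k27_B00pm_011_s3

theorem t31_B00pm_011_s3 : ∃ t, chk3 f_B00pm_011_s3 t 6 7 1 = true := ex3_b t30_B00pm_011_s3 k28_B00pm_011_s3

theorem t32_B00pm_011_s3 : ∃ t, chk3 f_B00pm_011_s3 t 6 3 1 = true := ex3_b k25_B00pm_011_s3 t31_B00pm_011_s3

theorem t33_B00pm_011_s3 : ∃ t, chk3 f_B00pm_011_s3 t 3 3 1 = true := ex3_a t32_B00pm_011_s3 k29_B00pm_011_s3

theorem t34_B00pm_011_s3 : ∃ t, chk3 f_B00pm_011_s3 t 11 15 1 = true := ex3_b k23_B00pm_011_s3 k24_B00pm_011_s3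

theorem t35_B00pm_011_s3 : ∃ t, chk3 f_B00pm_011_s3 t 11 28 1 = true := ex3_a k20_B00pm_011_s3 k21_B00pm_011_s3

theorem t36_B00pm_011_s3 : ∃ t, chk3 f_B00pm_011_s3 t 11 14 1 = true := ex3_b t35_B00pm_011_s3 k22_B00pm_011_s3

theorem t37_B00pm_011_s3 : ∃ t, chk3 f_B00pm_011_s3 t 11 7 1 = true := ex3_b t36_B00pm_011_s3 t34_B00pm_011_s3

theorem t38_B00pm_011_s3 : ∃ t, chk3 f_B00pm_011_s3 t 10 31 1 = true := ex3_b k18_B00pm_011_s3 k19_B00pm_011_s3

theorem t39_B00pm_011_s3 : ∃ t, chk3 f_B00pm_011_s3 t 10 15 1 = true := ex3_b k17_B00pm_011_s3 t38_B00pm_011_s3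

theorem t40_B00pm_011_s3 : ∃ t, chk3 f_B00pm_011_s3 t 10 14 1 = true := ex3_b k15_B00pm_011_s3 k16_B00pm_011_s3

theorem t41_B00pm_011_s3 : ∃ t, chk3 f_B00pm_011_s3 t 10 7 1 = true := ex3_b t40_B00pm_011_s3 t39_B00pm_011_s3

theorem t42_B00pm_011_s3 : ∃ t, chk3 f_B00pm_011_s3 t 5 7 1 = true := ex3_a t41_B00pm_011_s3 t37_B00pm_011_s3

theorem t43_B00pm_011_s3 : ∃ t, chk3 f_B00pm_011_s3 t 18 63 1 = true := ex3_b k12_B00pm_011_s3 k13_B00pm_011_s3

theorem t44_B00pm_011_s3 : ∃ t, chk3 f_B00pm_011_s3 t 9 63 1 = true := ex3_a t43_B00pm_011_s3 k14_B00pm_011_s3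

theorem t45_B00pm_011_s3 : ∃ t, chk3 f_B00pm_011_s3 t 9 62 1 = true := ex3_a k10_B00pm_011_s3 k11_B00pm_011_s3

theorem t46_B00pm_011_s3 : ∃ t, chk3 f_B00pm_011_s3 t 9 31 1 = true := ex3_b t45_B00pm_011_s3 t44_B00pm_011_s3

theorem t47_B00pm_011_s3 : ∃ t, chk3 f_B00pm_011_s3 t 17 126 1 = true := ex3_a k7_B00pm_011_s3 k8_B00pm_011_s3

theorem t48_B00pm_011_s3 : ∃ t, chk3 f_B00pm_011_s3 t 17 63 1 = true := ex3_b t47_B00pm_011_s3 k9_B00pm_011_s3

theorem t49_B00pm_011_s3 : ∃ t, chk3 f_B00pm_011_s3 t 8 63 1 = true := ex3_a k6_B00pm_011_s3 t48_B00pm_011_s3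

theorem t50_B00pm_011_s3 : ∃ t, chk3 f_B00pm_011_s3 t 8 31 1 = true := ex3_b k5_B00pm_011_s3 t49_B00pm_011_s3

theorem t51_B00pm_011_s3 : ∃ t, chk3 f_B00pm_011_s3 t 4 31 1 = true := ex3_a t50_B00pm_011_s3 t46_B00pm_011_s3

theorem t52_B00pm_011_s3 : ∃ t, chk3 f_B00pm_011_s3 t 4 30 1 = true := ex3_a k3_B00pm_011_s3 k4_B00pm_011_s3

theorem t53_B00pm_011_s3 : ∃ t, chk3 f_B00pm_011_s3 t 4 15 1 = true := ex3_b t52_B00pm_011_s3 t51_B00pm_011_s3

theorem t54_B00pm_011_s3 : ∃ t, chk3 f_B00pm_011_s3 t 4 7 1 = true := ex3_b k2_B00pm_011_s3 t53_B00pm_011_s3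

theorem t55_B00pm_011_s3 : ∃ t, chk3 f_B00pm_011_s3 t 2 7 1 = true := ex3_a t54_B00pm_011_s3 t42_B00pm_011_s3

theorem t56_B00pm_011_s3 : ∃ t, chk3 f_B00pm_011_s3 t 2 3 1 = true := ex3_b k1_B00pm_011_s3 t55_B00pm_011_s3

theorem t57_B00pm_011_s3 : ∃ t, chk3 f_B00pm_011_s3 t 1 3 1 = true := ex3_a t56_B00pm_011_s3 t33_B00pm_011_s3

theorem t58_B00pm_011_s3 : ∃ t, chk3 f_B00pm_011_s3 t 1 1 1 = true := ex3_b k0_B00pm_011_s3 t57_B00pm_011_s3

theorem c_B00pm_011_s3 : CertF 0 536870912 536870912 536870912 858993459 64424510 false true false .pnn 0 1 1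
    ndB0q0 ndB0q1 pcB1 cut_B00pm_011_s3 xt_B00pm_011_s3 :=
  certF0 (fam := false) (s1 := true) (s2 := false) (a := 0) (b := 1) (c := 1) (cn := .pnn) (n1 := ndB0q0) (n2 := ndB0q1) (pc := pcB1) (cut := cut_B00pm_011_s3) (xt := xt_B00pm_011_s3) (P1 := 0) (W1 := 536870912) (P2 := 536870912) (W2 := 536870912) (P3 := 858993459) (W3 := 64424510)
    rfl t58_B00pm_011_s3

theorem s_B00pm_011_s3 {κ x : ℝ} (hκ : κ * h0 = ken x) (hx : ((858993459 : ℕ) : ℝ) / S ≤ x)
    (hx' : x ≤ (((858993459 : ℕ) : ℝ) + (64424510 : ℕ)) / S)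
    (H : CutB (VFD κ) PP tK tL pcB (Cut.of [[⟨0, 0, 0, 67108864⟩, ⟨1, 1, 0, 67108864⟩, ⟨2, 1, 0, 67108864⟩]]) 0 1 1 0 0 (sgb true) (sgb false) x) :
    AltB (VFD κ) PP tK tL pcB [⟨4, 0, 0, 2845415833⟩] 0 1 1 0 0 (sgb true) (sgb false) x :=
  strip_altBD (m := 2845415833) false rfl hκ (SH.κ0 hκ (SH.hx1 hx).le (SH.hx2 hx').le) (SH.hx1 hx).le (SH.hx2 hx') (covB00).cov (covB01).cov hx hx' c_B00pm_011_s3 H ((okx hx hx').extB (T := tt) (sideB hx hx') hκ rfl rfl (.O 0 true) (.O 1 false) (Or.inr rfl))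

noncomputable def cut_B00pm_012_s1 : Cut := Cut.of [[⟨4, 0, 0, 1449551462⟩], [⟨0, 0, 0, 67108864⟩, ⟨1, 1, 0, 67108864⟩, ⟨2, 1, 0, 67108864⟩]]

noncomputable def xt_B00pm_012_s1 : Ext := strExt dd false true false .u0 .u2 .u0m .pnp 0 1 2 rfl rfl gf1 vv ndB0q0 ndB0q2

noncomputable def f_B00pm_012_s1 : ℕ → ℕ → ℕ → ℕ → Bool := onCell 0 536870912 0 536870912 858993459 64424510
    (rowF 0 false true false .pnp 0 1 2 (qsf 0 536870912 0 536870912 1) ndB0q0 ndB0q2 pcB1 cut_B00pm_012_s1 xt_B00pm_012_s1)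

def k0_B00pm_012_s1 : ∃ t, chk3 f_B00pm_012_s1 t 1 1 1 = true :=
  ⟨(a (l 6) (b (a (b (b (b (b (a (l 6) (a (l 6) (l 6))) (l 6)) (l 6)) (l 6)) (l 6)) (b (a (c (b (c (b (a (c (a (l 16534800) (l 16539872)) (l 532464143)) (c (a (l 16609752) (l 532215567)) (a (l 16591440) (l 16600424)))) (a (l 6) (c (a (l 16597824) (l 532390415)) (a (l 16566312) (l 16573232))))) (c (a (l 534378511) (c (l 16661752) (l 16644240))) (a (l 16640880) (l 16640448)))) (l 6)) (b (a (b (c (l 533917455) (l 532336143)) (l 6)) (c (c (l 16689784) (l 533093135)) (a (b (l 16572976) (l 16451272)) (b (l 16583896) (l 16544592))))) (l 6))) (b (a (c (c (a (c (b (l 532004111) (l 532178191)) (l 533081871)) (c (b (l 531806479) (l 531978255)) (l 532950031))) (a (l 534308879) (l 534540815))) (c (a (l 534133263) (l 534102543)) (b (a (l 532643599) (l 532480015)) (a (l 16554952) (l 532486159))))) (c (c (c (a (c (l 531441167) (l 531991823)) (c (l 531276815) (l 531854095))) (a (l 532834831) (l 532737807))) (c (l 533951759)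 (l 534716687))) (c (a (l 534070031) (l 534034447)) (a (l 532323343) (l 532176143))))) (c (b (c (c (a (a (l 532335119) (l 532133135)) (a (l 531949327) (l 531786255))) (a (a (l 16554728) (l 16563360)) (a (l 16573960) (l 532941071)))) (a (b (l 533373711) (l 16478032)) (l 533592591))) (a (l 6) (c (c (a (c (l 16458184) (l 16492168)) (c (l 16471352) (l 16504344))) (a (l 16544056) (l 16554712))) (b (l 534468111) (l 16476968))))) (b (a (c (c (l 16629448) (l 16508704)) (a (l 16428032) (l 532461839))) (c (l 533784335) (a (l 532299791) (l 532146959)))) (a (l 6) (c (c (l 16623056) (l 16497008)) (a (l 532250127) (l 532094991)))))))) (l 6))) (l 6))), by decide +kernel⟩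

theorem c_B00pm_012_s1 : CertF 0 536870912 0 536870912 858993459 64424510 false true false .pnp 0 1 2
    ndB0q0 ndB0q2 pcB1 cut_B00pm_012_s1 xt_B00pm_012_s1 :=
  certF0 (fam := false) (s1 := true) (s2 := false) (a := 0) (b := 1) (c := 2) (cn := .pnp) (n1 := ndB0q0) (n2 := ndB0q2) (pc := pcB1) (cut := cut_B00pm_012_s1) (xt := xt_B00pm_012_s1) (P1 := 0) (W1 := 536870912) (P2 := 0) (W2 := 536870912) (P3 := 858993459) (W3 := 64424510)
    rfl k0_B00pm_012_s1

theorem s_B00pm_012_s1 {κ x : ℝ} (hκ : κ * h0 = ken x) (hx : ((858993459 : ℕ) : ℝ) / S ≤ x)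
    (hx' : x ≤ (((858993459 : ℕ) : ℝ) + (64424510 : ℕ)) / S)
    (H : CutB (VFD κ) PP tK tL pcB (Cut.of [[⟨0, 0, 0, 67108864⟩, ⟨1, 1, 0, 67108864⟩, ⟨2, 1, 0, 67108864⟩]]) 0 1 2 0 0 (sgb true) (sgb false) x) :
    AltB (VFD κ) PP tK tL pcB [⟨3, 0, 0, 1449551462⟩] 0 1 2 0 0 (sgb true) (sgb false) x :=
  strip_altBD (m := 1449551462) true rfl hκ (SH.κ0 hκ (SH.hx1 hx).le (SH.hx2 hx').le) (SH.hx1 hx).le (SH.hx2 hx') (covB00).cov (covB02).cov hx hx' c_B00pm_012_s1 H ((okx hx hx').extB (T := tt) (sideB hx hx') hκ rfl rfl (.O 0 true) (.O 2 false) (Or.inr rfl))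

noncomputable def cut_B00pm_012_s3 : Cut := Cut.of [[⟨3, 0, 0, 2845415833⟩], [⟨0, 0, 0, 67108864⟩, ⟨1, 1, 0, 67108864⟩, ⟨2, 1, 0, 67108864⟩]]

noncomputable def f_B00pm_012_s3 : ℕ → ℕ → ℕ → ℕ → Bool := onCell 536870912 536870912 0 536870912 858993459 64424510
    (rowF 2 false true false .pnp 0 1 2 (qsf 0 536870912 0 536870912 1) ndB0q0 ndB0q2 pcB1 cut_B00pm_012_s3 Ext.none)

def k0_B00pm_012_s3 : ∃ t, chk3 f_B00pm_012_s3 t 2 1 1 = true :=
  ⟨(b (l 6) (a (l 6) (l 6))), by decide +kernel⟩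

def k1_B00pm_012_s3 : ∃ t, chk3 f_B00pm_012_s3 t 3 2 1 = true :=
  ⟨(l 6), by decide +kernel⟩

def k2_B00pm_012_s3 : ∃ t, chk3 f_B00pm_012_s3 t 6 3 1 = true :=
  ⟨(b (l 6) (b (l 6) (a (b (l 6) (b (a (l 6) (c (l 16517488) (l 16533984))) (c (a (l 16396552) (b (l 16432496) (l 16431976))) (a (l 16502560) (a (l 16529600) (l 16547800)))))) (c (b (a (l 16552216) (b (l 16556672) (l 16584320))) (a (b (l 16551904) (a (l 16459752) (l 16561944))) (b (l 16640168) (a (l 16580808) (l 16600224))))) (b (a (l 16544944) (a (l 16554032) (l 16559288))) (a (b (l 16570384) (a (l 16566320) (l 16585296))) (b (l 16594528) (a (l 16605120) (l 16625576))))))))), by decide +kernel⟩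

def k3_B00pm_012_s3 : ∃ t, chk3 f_B00pm_012_s3 t 7 6 1 = true :=
  ⟨(l 6), by decide +kernel⟩

def k4_B00pm_012_s3 : ∃ t, chk3 f_B00pm_012_s3 t 14 14 1 = true :=
  ⟨(b (l 6) (b (a (l 6) (a (l 6) (c (a (l 16526840) (l 16527952)) (l 16463904)))) (a (a (l 6) (c (l 16545928) (l 16529976))) (a (c (l 16550008) (l 16529864)) (c (a (l 16553040) (l 16555040)) (l 16530104)))))), by decide +kernel⟩

def k5_B00pm_012_s3 : ∃ t, chk3 f_B00pm_012_s3 t 30 14 1 = true :=
  ⟨(b (b (l 6) (a (l 6) (a (c (l 16506208) (l 16478704)) (c (l 16549000) (l 16477520))))) (a (c (b (b (l 16481384) (l 16494448)) (a (l 16557096) (l 16559408))) (b (a (l 16504400) (l 16503752)) (a (l 16530672) (l 16531600)))) (a (c (b (l 16532032) (l 16561864)) (b (l 16503592) (l 16574856))) (c (b (b (l 16526608) (l 16540880)) (l 16564424)) (b (l 16545752) (b (l 16526304) (l 16542944))))))), by decide +kernel⟩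

def k6_B00pm_012_s3 : ∃ t, chk3 f_B00pm_012_s3 t 31 14 1 = true :=
  ⟨(b (a (a (b (l 6) (c (b (l 16501608) (l 16514504)) (l 16518680))) (a (b (l 6) (c (l 16508864) (l 16476384))) (b (c (l 16526144) (l 16450328)) (c (b (l 16502752) (l 16516120)) (l 16518216))))) (c (b (b (a (l 6) (a (l 16478680) (l 16520792))) (a (a (l 16490448) (l 16490776)) (a (l 16491104) (c (l 16499840) (l 16482752))))) (a (b (a (l 16503240) (l 16503744)) (a (l 16516792) (l 16517472))) (a (b (l 16525216) (l 16539112)) (b (c (l 16512920) (l 16496280)) (c (l 16526728) (l 16510576)))))) (b (a (a (l 16491600) (l 16491024)) (a (c (l 16458104) (l 16438792)) (c (l 16457872) (l 16438208)))) (a (a (l 16518192) (b (l 16469104) (l 16483520))) (a (b (l 16469096) (l 16483832)) (b (l 16511120) (l 16515696))))))) (a (c (b (a (b (l 16528208) (l 16542880)) (b (l 16550856) (l 16565912))) (a (a (l 16566376) (l 16567704)) (b (l 16566328) (l 16567816)))) (b (a (b (l 16496984) (l 16511848)) (b (l 16539528) (l 16555072))) (a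 (b (l 16527960) (l 16545320)) (b (c (l 16538144) (l 16521472)) (a (l 16547320) (l 14)))))) (b (b (c (a (a (l 16531152) (l 16531992)) (a (l 16543304) (l 14))) (a (a (l 16498248) (l 16498816)) (a (l 16541408) (l 14)))) (a (c (a (l 16546472) (l 16547480)) (a (l 16514320) (l 16515216))) (l 14))) (b (a (a (c (l 16562880) (l 16531656)) (l 14)) (l 14)) (l 14))))), by decide +kernel⟩

def k7_B00pm_012_s3 : ∃ t, chk3 f_B00pm_012_s3 t 7 15 1 = true :=
  ⟨(a (b (a (b (c (l 16570664) (l 16552688)) (a (l 16587512) (c (l 16604512) (l 16581592)))) (c (a (b (l 16579136) (l 16611856)) (b (c (l 16590488) (l 16578656)) (l 16598512))) (a (b (l 16556104) (l 16544696)) (b (a (l 16558008) (l 16559744)) (b (l 16583552) (l 16601680)))))) (b (c (a (a (l 16615920) (l 16635600)) (a (l 16648264) (l 16637208))) (a (a (l 16606496) (l 16613824)) (a (l 16621856) (a (l 16544928) (l 16591976))))) (c (a (a (b (l 16619424) (l 16621856)) (b (l 16639616) (l 16642488))) (a (a (l 16614096) (l 16623872)) (a (l 16633544)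 (a (l 16640768) (l 16645552))))) (a (a (l 16639992) (l 16650528)) (a (b (l 16651400) (l 16672696)) (b (l 16663560) (l 16665648))))))) (a (b (a (b (c (a (l 16589328) (l 16592608)) (a (l 16561864) (l 16564352))) (b (c (l 16576152) (l 16590232)) (c (l 16595528) (a (l 16607776) (l 16612280))))) (a (b (c (c (l 16602472) (l 16589216)) (l 16567192)) (c (b (l 16624152) (l 16644208)) (b (l 16596104) (l 16617104)))) (b (c (c (l 16605984) (l 16592584)) (c (l 16578056) (l 16541416))) (c (b (l 16628216) (l 16606736)) (b (l 16600456) (l 16622256)))))) (b (a (c (b (l 16615880) (l 16658144)) (a (a (l 16554064) (l 16598800)) (b (l 16633752) (l 16614568)))) (a (b (c (l 16665208) (l 16639408)) (l 14)) (l 14))) (a (b (c (a (l 16692920) (l 16702448)) (b (l 16629000) (l 16641112))) (a (c (l 16654584) (l 16697888)) (l 14))) (l 14)))) (b (a (b (a (b (c (l 16593392) (l 16563952)) (c (l 16612320) (l 16573392))) (l 14)) (l 14)) (l 14)) (l 14)))), by decide +kernel⟩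

theorem t8_B00pm_012_s3 : ∃ t, chk3 f_B00pm_012_s3 t 15 14 1 = true := ex3_a k5_B00pm_012_s3 k6_B00pm_012_s3

theorem t9_B00pm_012_s3 : ∃ t, chk3 f_B00pm_012_s3 t 7 14 1 = true := ex3_a k4_B00pm_012_s3 t8_B00pm_012_s3

theorem t10_B00pm_012_s3 : ∃ t, chk3 f_B00pm_012_s3 t 7 7 1 = true := ex3_b t9_B00pm_012_s3 k7_B00pm_012_s3

theorem t11_B00pm_012_s3 : ∃ t, chk3 f_B00pm_012_s3 t 7 3 1 = true := ex3_b k3_B00pm_012_s3 t10_B00pm_012_s3

theorem t12_B00pm_012_s3 : ∃ t, chk3 f_B00pm_012_s3 t 3 3 1 = true := ex3_a k2_B00pm_012_s3 t11_B00pm_012_s3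

theorem t13_B00pm_012_s3 : ∃ t, chk3 f_B00pm_012_s3 t 3 1 1 = true := ex3_b k1_B00pm_012_s3 t12_B00pm_012_s3

theorem t14_B00pm_012_s3 : ∃ t, chk3 f_B00pm_012_s3 t 1 1 1 = true := ex3_a k0_B00pm_012_s3 t13_B00pm_012_s3

theorem c_B00pm_012_s3 : CertF 0 536870912 0 536870912 858993459 64424510 false true false .pnp 0 1 2
    ndB0q0 ndB0q2 pcB1 cut_B00pm_012_s3 Ext.none :=
  certF2 (fam := false) (s1 := true) (s2 := false) (a := 0) (b := 1) (c := 2) (cn := .pnp) (n1 := ndB0q0) (n2 := ndB0q2) (pc := pcB1) (cut := cut_B00pm_012_s3) (xt := Ext.none) (P1 := 0) (W1 := 536870912) (P2 := 0) (W2 := 536870912) (P3 := 858993459) (W3 := 64424510)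
    rfl (fun _ => rfl) t14_B00pm_012_s3

theorem s_B00pm_012_s3 {κ x : ℝ} (hκ : κ * h0 = ken x) (hx : ((858993459 : ℕ) : ℝ) / S ≤ x)
    (hx' : x ≤ (((858993459 : ℕ) : ℝ) + (64424510 : ℕ)) / S)
    (H : CutB (VFD κ) PP tK tL pcB (Cut.of [[⟨0, 0, 0, 67108864⟩, ⟨1, 1, 0, 67108864⟩, ⟨2, 1, 0, 67108864⟩]]) 0 1 2 0 0 (sgb true) (sgb false) x) :
    AltB (VFD κ) PP tK tL pcB [⟨4, 0, 0, 2845415833⟩] 0 1 2 0 0 (sgb true) (sgb false) x :=
  strip_altBD (m := 2845415833) false rfl hκ (SH.κ0 hκ (SH.hx1 hx).le (SH.hx2 hx').le) (SH.hx1 hx).le (SH.hx2 hx') (covB00).cov (covB02).cov hx hx' c_B00pm_012_s3 H (noExt_B)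

noncomputable def cut_B00pm_022_s1 : Cut := Cut.of [[⟨4, 0, 0, 1449551462⟩], [⟨0, 0, 0, 67108864⟩, ⟨1, 1, 0, 67108864⟩, ⟨2, 1, 0, 67108864⟩]]

noncomputable def f_B00pm_022_s1 : ℕ → ℕ → ℕ → ℕ → Bool := onCell 1073741824 536870912 0 536870912 858993459 64424510
    (rowF 2 false true false .pp 0 2 2 (qsf 0 536870912 0 536870912 2) ndB0q0 ndB0q2 pcB2 cut_B00pm_022_s1 Ext.none)

def k0_B00pm_022_s1 : ∃ t, chk3 f_B00pm_022_s1 t 1 1 1 = true :=
  ⟨(l 6), by decide +kernel⟩

theorem c_B00pm_022_s1 : CertF 0 536870912 0 536870912 858993459 64424510 false true false .pp 0 2 2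
    ndB0q0 ndB0q2 pcB2 cut_B00pm_022_s1 Ext.none :=
  certF2 (fam := false) (s1 := true) (s2 := false) (a := 0) (b := 2) (c := 2) (cn := .pp) (n1 := ndB0q0) (n2 := ndB0q2) (pc := pcB2) (cut := cut_B00pm_022_s1) (xt := Ext.none) (P1 := 0) (W1 := 536870912) (P2 := 0) (W2 := 536870912) (P3 := 858993459) (W3 := 64424510)
    rfl (fun _ => rfl) k0_B00pm_022_s1

theorem s_B00pm_022_s1 {κ x : ℝ} (hκ : κ * h0 = ken x) (hx : ((858993459 : ℕ) : ℝ) / S ≤ x)
    (hx' : x ≤ (((858993459 : ℕ) : ℝ) + (64424510 : ℕ)) / S)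
    (H : CutB (VFD κ) PP tK tL pcB (Cut.of [[⟨0, 0, 0, 67108864⟩, ⟨1, 1, 0, 67108864⟩, ⟨2, 1, 0, 67108864⟩]]) 0 2 2 0 0 (sgb true) (sgb false) x) :
    AltB (VFD κ) PP tK tL pcB [⟨3, 0, 0, 1449551462⟩] 0 2 2 0 0 (sgb true) (sgb false) x :=
  strip_altBD (m := 1449551462) true rfl hκ (SH.κ0 hκ (SH.hx1 hx).le (SH.hx2 hx').le) (SH.hx1 hx).le (SH.hx2 hx') (covB00).cov (covB02).cov hx hx' c_B00pm_022_s1 H (noExt_B)

noncomputable def cut_B00pm_022_s3 : Cut := Cut.of [[⟨3, 0, 0, 2845415833⟩], [⟨0, 0, 0, 67108864⟩, ⟨1, 1, 0, 67108864⟩, ⟨2, 1, 0, 67108864⟩]]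

noncomputable def f_B00pm_022_s3 : ℕ → ℕ → ℕ → ℕ → Bool := onCell 0 536870912 0 536870912 858993459 64424510
    (rowF 0 false true false .pp 0 2 2 (qsf 0 536870912 0 536870912 2) ndB0q0 ndB0q2 pcB2 cut_B00pm_022_s3 Ext.none)

def k0_B00pm_022_s3 : ∃ t, chk3 f_B00pm_022_s3 t 2 2 1 = true :=
  ⟨(l 6), by decide +kernel⟩

def k1_B00pm_022_s3 : ∃ t, chk3 f_B00pm_022_s3 t 4 6 1 = true :=
  ⟨(a (a (b (l 6) (a (a (c (b (b (a (c (l 16493968) (l 16474912)) (l 6)) (b (a (l 16455544) (l 16505488)) (c (l 16518816) (l 16460056)))) (b (b (c (l 16527848) (l 16480256)) (a (c (l 16533392) (l 16517368)) (l 16533608))) (b (a (c (l 16542936) (l 16527752)) (l 16522608)) (a (a (c (l 16550896) (l 16536280)) (l 16526848)) (c (l 16560208) (l 16547304)))))) (b (a (b (b (l 6) (b (l 6) (l 16419312))) (b (b (l 16424344) (l 16429456)) (c (l 16478736) (l 16458472)))) (b (l 6) (b (l 16427216) (l 16437680)))) (a (b (b (c (l 16489200) (l 16469752)) (c (l 16500088) (l 16481552))) (b (c (l 16511400) (l 16493880))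 (c (a (l 16520568) (l 16525728)) (a (l 16503752) (l 16509672))))) (b (b (l 16469552) (l 16480920)) (b (l 16498008) (c (l 16533392) (l 16518480))))))) (b (b (l 6) (b (c (l 16433312) (l 16443128)) (c (l 16526304) (l 16453648)))) (c (b (b (l 16535712) (l 16545400)) (c (a (l 16562520) (l 16569592)) (a (l 16550504) (l 16558936)))) (c (b (l 16477792) (a (l 16537520) (l 16547384))) (b (l 16504480) (a (l 16523568) (l 16534952))))))) (a (b (b (l 6) (c (l 16452904) (l 16427072))) (b (c (l 16513712) (l 16491040)) (c (c (l 16579888) (l 16571240)) (c (l 16561832) (l 16551656))))) (b (l 6) (c (b (l 16570032) (l 16590032)) (b (l 16469040) (l 16576832))))))) (b (l 6) (b (l 6) (b (a (c (l 16590216) (l 16581192)) (l 6)) (a (c (l 16598592) (l 16521232)) (c (l 16554016) (l 16551560))))))) (b (l 6) (a (b (l 6) (l 6)) (l 6)))), by decide +kernel⟩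

def k2_B00pm_022_s3 : ∃ t, chk3 f_B00pm_022_s3 t 4 7 1 = true :=
  ⟨(a (b (a (a (b (a (a (b (c (b (a (c (l 16561160) (l 16547520)) (c (l 16564920) (l 16551968))) (c (a (l 16571928) (l 16575688)) (a (l 16559312) (l 16563760)))) (c (b (a (l 16532864) (l 16538040)) (a (l 16556256) (l 16550952))) (b (a (l 16517200) (l 16523144)) (a (l 16552288) (l 16537272))))) (b (b (c (c (l 16582216) (l 16581216)) (c (l 16568912) (l 16545288))) (l 14)) (l 14))) (c (b (b (c (l 16570480) (l 16558552)) (c (l 16581248) (l 16570360))) (b (c (l 16592512) (l 16582696)) (l 14))) (b (c (b (l 16545720) (l 16558648)) (b (l 16531968) (l 16546120))) (b (b (l 16547288) (l 14)) (l 14))))) (b (a (c (b (l 16572560) (l 16583832)) (c (l 16562240) (l 16550640))) (c (b (l 16580304) (l 16591576)) (b (l 16560432) (l 16573992)))) (b (c (a (l 16585136) (l 16603352)) (c (l 16587240) (l 16578312))) (l 14)))) (l 14)) (a (b (b (c (c (l 16516552) (l 16509928)) (b (l 16576024) (l 16505712))) (b (c (l 16614608) (l 16519880))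 (l 14))) (l 14)) (b (b (c (l 16611544) (l 16602800)) (c (l 16635000) (l 16631112))) (l 14)))) (c (b (a (b (l 16601616) (a (l 16616328) (l 16507784))) (b (a (l 16566408) (l 16542848)) (a (l 16566928) (l 16542152)))) (a (l 14) (a (l 14) (a (l 14) (l 1))))) (b (a (b (l 16562520) (a (l 16616440) (l 16502360))) (b (l 16462872) (a (l 16556024) (l 16525864)))) (a (l 14) (a (l 14) (a (l 14) (l 1))))))) (a (l 14) (a (l 14) (l 1)))) (b (a (b (a (b (c (l 16591400) (l 16405512)) (c (l 120292241079) (a (l 16495864) (l 1)))) (l 1)) (l 1)) (l 1)) (l 1))), by decide +kernel⟩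

def k3_B00pm_022_s3 : ∃ t, chk3 f_B00pm_022_s3 t 5 3 1 = true :=
  ⟨(b (l 1) (l 1)), by decide +kernel⟩

def k4_B00pm_022_s3 : ∃ t, chk3 f_B00pm_022_s3 t 3 1 1 = true :=
  ⟨(l 1), by decide +kernel⟩

theorem t5_B00pm_022_s3 : ∃ t, chk3 f_B00pm_022_s3 t 4 3 1 = true := ex3_b k1_B00pm_022_s3 k2_B00pm_022_s3

theorem t6_B00pm_022_s3 : ∃ t, chk3 f_B00pm_022_s3 t 2 3 1 = true := ex3_a t5_B00pm_022_s3 k3_B00pm_022_s3

theorem t7_B00pm_022_s3 : ∃ t, chk3 f_B00pm_022_s3 t 2 1 1 = true := ex3_b k0_B00pm_022_s3 t6_B00pm_022_s3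

theorem t8_B00pm_022_s3 : ∃ t, chk3 f_B00pm_022_s3 t 1 1 1 = true := ex3_a t7_B00pm_022_s3 k4_B00pm_022_s3

theorem c_B00pm_022_s3 : CertF 0 536870912 0 536870912 858993459 64424510 false true false .pp 0 2 2
    ndB0q0 ndB0q2 pcB2 cut_B00pm_022_s3 Ext.none :=
  certF0 (fam := false) (s1 := true) (s2 := false) (a := 0) (b := 2) (c := 2) (cn := .pp) (n1 := ndB0q0) (n2 := ndB0q2) (pc := pcB2) (cut := cut_B00pm_022_s3) (xt := Ext.none) (P1 := 0) (W1 := 536870912) (P2 := 0) (W2 := 536870912) (P3 := 858993459) (W3 := 64424510)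
    rfl t8_B00pm_022_s3

theorem s_B00pm_022_s3 {κ x : ℝ} (hκ : κ * h0 = ken x) (hx : ((858993459 : ℕ) : ℝ) / S ≤ x)
    (hx' : x ≤ (((858993459 : ℕ) : ℝ) + (64424510 : ℕ)) / S)
    (H : CutB (VFD κ) PP tK tL pcB (Cut.of [[⟨0, 0, 0, 67108864⟩, ⟨1, 1, 0, 67108864⟩, ⟨2, 1, 0, 67108864⟩]]) 0 2 2 0 0 (sgb true) (sgb false) x) :
    AltB (VFD κ) PP tK tL pcB [⟨4, 0, 0, 2845415833⟩] 0 2 2 0 0 (sgb true) (sgb false) x :=
  strip_altBD (m := 2845415833) false rfl hκ (SH.κ0 hκ (SH.hx1 hx).le (SH.hx2 hx').le) (SH.hx1 hx).le (SH.hx2 hx') (covB00).cov (covB02).cov hx hx' c_B00pm_022_s3 H (noExt_B)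

end Pool.Agent.Strip051.G.I8000_8600.Tab.St.C
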