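import Pool.Agent.Strip051.G.I8000_8600.StH
import Pool.Agent.Strip051.G.I8000_8600.StF

/-! # Unit strips 17 (generated) -/

set_option linter.all false
set_option maxRecDepth 100000

namespace Pool.Agent.Strip051.G.I8000_8600.Tab.St.C

open Pool.Agent.Strip051.PB Pool.Agent.Strip051.PB.T Pool.Agent.StripNear Pool.Agent.Strip051.LC
open Pool.Agent.Strip051.G.I8000_8600.Tab Pool.Agent.Strip051.G.I8000_8600.Tab.St

noncomputable def cut_B00pm_101_s1 : Cut := Cut.of [[⟨4, 0, 0, 1449551462⟩], [⟨0, 1, 0, 33554432⟩, ⟨1, 0, 0, 33554432⟩, ⟨2, 1, 0, 33554432⟩], [⟨0, 0, 1, 20971520⟩, ⟨1, 1, 2, 20971520⟩, ⟨2, 1, 0, 16777216⟩]]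

noncomputable def f_B00pm_101_s1 : ℕ → ℕ → ℕ → ℕ → Bool := onCell 0 536870912 536870912 536870912 858993459 64424510
    (rowF 2 false true false .npn 1 0 1 (qsf 536870912 536870912 536870912 536870912 0) ndB0q1 ndB0q1 pcB0 cut_B00pm_101_s1 Ext.none)

def k0_B00pm_101_s1 : ∃ t, chk3 f_B00pm_101_s1 t 2 2 1 = true :=
  ⟨(l 6), by decide +kernel⟩

def k1_B00pm_101_s1 : ∃ t, chk3 f_B00pm_101_s1 t 4 6 1 = true :=
  ⟨(l 6), by decide +kernel⟩

def k2_B00pm_101_s1 : ∃ t, chk3 f_B00pm_101_s1 t 8 14 1 = true :=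
  ⟨(l 6), by decide +kernel⟩

def k3_B00pm_101_s1 : ∃ t, chk3 f_B00pm_101_s1 t 16 30 1 = true :=
  ⟨(b (b (a (a (c (l 16802864) (c (l 16806192) (l 16808944))) (a (b (l 6) (c (l 16845608) (l 16849456))) (l 6))) (l 6)) (a (c (a (c (l 16819440) (l 16818824)) (c (l 16828040) (l 16827584))) (a (c (l 16776504) (b (l 16826520) (l 16810200))) (c (l 16785424) (a (l 16783056) (l 16787928))))) (c (a (c (l 16837416) (l 16795256)) (c (l 16847640) (l 16847728))) (c (a (l 16805784) (l 16806128)) (a (a (l 16793032) (l 16798464)) (a (l 16803944) (l 6))))))) (b (a (c (a (b (l 16778472) (b (l 16747464) (b (l 16742384) (a (b (l 16780232) (l 16779000)) (l 16750952))))) (b (l 16765048) (b (l 16754480) (c (l 16770032) (b (l 16789136) (l 16764304)))))) (a (b (c (l 16754032) (l 16751856)) (b (c (l 16784592) (l 16739504)) (b (c (l 16778856) (l 16775240)) (c (b (l 16775976) (l 16743072)) (b (l 16772128) (c (l 16750576) (l 16748592))))))) (b (c (l 16761456) (l 16801136)) (b (c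 (l 16791304) (l 16787936)) (c (a (l 16760152) (l 16742640)) (a (b (l 16779632) (l 16754176)) (l 16759440))))))) (c (a (b (l 16773760) (c (l 16760472) (l 16777568))) (a (b (l 16822832) (l 16765432)) (l 16778040))) (a (b (c (l 16812192) (l 16809976)) (c (a (l 16750632) (l 16754992)) (a (l 16767736) (l 16751112)))) (b (c (l 16821968) (l 16819880)) (a (c (l 16801576) (l 16755752)) (l 16762560)))))) (a (c (a (c (l 16763096) (c (l 16760048) (l 16758000))) (b (l 16766584) (l 16747528))) (a (c (a (l 16753504) (l 16756320)) (b (l 16750056) (l 16756704))) (b (c (l 16781000) (l 16755592)) (b (l 16759232) (l 16760200))))) (c (a (b (l 16752840) (l 16796896)) (b (l 16782416) (l 16805264))) (a (b (c (l 16787944) (l 16741360)) (l 16766888)) (b (c (l 16754528) (l 16770792)) (l 16754240))))))), by decide +kernel⟩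

def k4_B00pm_101_s1 : ∃ t, chk3 f_B00pm_101_s1 t 17 30 1 = true :=
  ⟨(b (l 6) (b (a (c (a (b (l 16835320) (l 16777520)) (b (l 6) (l 16829480))) (a (c (l 16781040) (b (l 16830288) (l 16809920))) (b (l 6) (l 16800960)))) (l 6)) (a (a (c (b (l 16791608) (l 16814400)) (b (c (l 16763704) (l 16779936)) (l 16763464))) (c (b (l 16801096) (l 16824120)) (b (c (l 16773152) (l 16789352)) (l 16815240)))) (a (c (b (l 16810720) (l 16833992)) (b (c (l 16824616) (b (l 16818368) (l 16819568))) (l 16825152))) (b (l 6) (c (l 16843992) (l 16835024))))))), by decide +kernel⟩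

def k5_B00pm_101_s1 : ∃ t, chk3 f_B00pm_101_s1 t 8 62 1 = true :=
  ⟨(a (a (a (a (b (c (c (l 16784752) (l 16760024)) (c (l 16761408) (c (l 16753208) (l 16756440)))) (l 14)) (c (b (c (l 16788416) (l 16784496)) (c (l 16789832) (l 16765632))) (b (c (l 16759488) (l 16765816)) (b (l 16770264) (l 14))))) (c (b (c (l 16752112) (l 16769008)) (b (l 16773024) (l 16773968))) (b (c (c (l 16744896) (l 16763736)) (b (l 16780432) (l 16761512))) (c (b (l 16788464) (l 16769152)) (b (l 16763624) (l 16765752)))))) (c (b (a (l 16778864) (l 16808376)) (a (c (l 16804744) (l 16801368)) (l 16791064))) (b (a (c (l 16751576) (l 16768168)) (c (l 16760200) (l 16797824))) (a (b (l 16773896) (c (l 16798864) (l 16795456))) (c (l 16807048) (l 16782584)))))) (c (a (b (c (l 16782824) (l 16789488)) (a (l 16779728) (l 16790240))) (a (b (l 16838504) (l 16801280)) (b (l 16849064) (l 16854872)))) (a (b (a (c (l 16811824) (l 16807656)) (c (l 16822120) (l 16818136))) (a (c (l 16817064) (l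 16813832)) (c (l 16828064) (l 16825184)))) (b (a (c (l 16833040) (l 16829256)) (c (l 16843784) (l 16840120))) (a (c (l 16839624) (l 16816144)) (c (l 16851784) (l 16828664))))))), by decide +kernel⟩

def k6_B00pm_101_s1 : ∃ t, chk3 f_B00pm_101_s1 t 8 63 1 = true :=
  ⟨(a (a (b (a (l 14) (a (l 14) (b (c (l 16797840) (l 16792440)) (l 14)))) (l 14)) (b (c (a (b (l 16783816) (l 16784560)) (b (l 16814216) (l 16815368))) (a (b (c (l 16800816) (l 16798000)) (c (l 16781632) (l 16779528))) (b (l 16788280) (c (l 16770768) (l 16789832))))) (b (a (a (l 14) (c (l 16787504) (l 16795640))) (c (l 16795224) (c (l 16793736) (l 16792648)))) (a (l 14) (b (c (l 16796400) (c (l 16786352) (l 16786704))) (a (l 14) (c (l 16779368) (a (l 16788872) (l 16790080))))))))) (b (a (c (a (l 16803888) (l 16814536)) (a (b (l 16798824) (l 16801664)) (b (l 16810232) (l 16813280)))) (c (a (l 16826040) (c (l 16817256) (l 16816904))) (a (c (l 16803760) (l 16834296)) (c (l 16837504) (a (l 16812816)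 (l 16819728)))))) (a (b (c (a (l 16803544) (l 16808680)) (a (c (l 16783304) (l 16804056)) (c (l 16787680) (l 16808656)))) (c (a (c (l 16787552) (l 16787248)) (c (l 16792976) (l 16792168))) (c (a (a (l 16785800) (l 16788128)) (a (l 16790320) (l 16792360))) (a (b (l 16791224) (c (l 16792792) (l 16792544))) (b (l 16795032) (c (l 16796736) (l 16796192))))))) (b (c (a (l 16813144) (l 16816760)) (a (c (l 16791264) (l 16811616)) (c (l 16814896) (a (l 16813184) (l 16813992))))) (c (a (c (l 16797896) (l 16796496)) (c (l 16802040) (c (l 16800512) (l 16799464)))) (b (a (c (l 16820304) (l 16808536)) (c (l 16812592) (a (l 16820688) (l 16810984)))) (c (a (a (l 16810896) (l 16812568)) (a (l 16814016) (l 16804728))) (a (a (l 16798848) (c (l 16811128) (l 16810152))) (a (c (l 16812304) (a (l 16810912) (l 16800856))) (c (l 16802728) (a (l 16801224) (b (l 16814264) (c (l 16810120) (l 16804128)))))))))))))), by decide +kernel⟩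

def k7_B00pm_101_s1 : ∃ t, chk3 f_B00pm_101_s1 t 18 14 1 = true :=
  ⟨(l 6), by decide +kernel⟩

def k8_B00pm_101_s1 : ∃ t, chk3 f_B00pm_101_s1 t 18 30 1 = true :=
  ⟨(l 6), by decide +kernel⟩

def k9_B00pm_101_s1 : ∃ t, chk3 f_B00pm_101_s1 t 18 62 1 = true :=
  ⟨(a (c (a (b (l 16832768) (l 16837032)) (b (l 16803312) (l 16818336))) (b (a (c (l 16786424) (a (l 16772448) (l 16794272))) (l 16847712)) (a (b (l 16832528) (l 16846584)) (c (l 16775928) (l 16817680))))) (b (l 6) (a (c (l 16791352) (c (l 16747408) (l 16746232))) (b (l 6) (c (l 16799944) (l 16752816)))))), by decide +kernel⟩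

def k10_B00pm_101_s1 : ∃ t, chk3 f_B00pm_101_s1 t 18 126 1 = true :=
  ⟨(a (c (a (b (l 16819952) (l 16804904)) (c (l 16793584) (l 16791712))) (a (a (b (l 16824688) (l 16828272)) (b (l 16813592) (l 16818496))) (a (b (l 16843904) (l 16808136)) (b (l 16831784) (l 16818192))))) (a (c (b (l 16817600) (l 16807456)) (b (a (l 16819128) (l 16805992)) (c (l 16802496) (l 16778208)))) (c (a (l 16752624) (l 16739880)) (b (a (l 16792296) (l 16778056)) (a (l 16740416) (l 16727384)))))), by decide +kernel⟩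

def k11_B00pm_101_s1 : ∃ t, chk3 f_B00pm_101_s1 t 36 127 1 = true :=
  ⟨(b (a (c (c (l 16791192) (l 16810160)) (c (a (l 16791152) (l 16824896)) (a (c (l 16810704) (l 16809736)) (l 16806776)))) (c (a (l 16820288) (l 16811632)) (c (a (l 16816072) (l 16806648)) (a (l 16792200) (l 16803232))))) (a (c (a (c (l 16822128) (l 16798552)) (c (l 16816152) (l 16813080))) (c (a (c (l 16796512) (b (l 16820176) (l 16811984))) (a (l 16801192) (l 16797584))) (b (a (a (l 16820024) (l 16816360)) (c (l 16811312) (l 16809744))) (c (a (a (l 16812040) (l 16808776)) (b (l 16805480) (l 16796368))) (b (a (c (l 16811400) (l 16810632)) (a (l 16805624) (l 16801808))) (c (a (a (l 16808712) (l 16805448)) (a (l 16802008) (l 16798384))) (a (a (a (l 16808704) (l 16807096)) (b (l 16805664) (l 16803528))) (a (l 16795856) (l 16797416))))))))) (c (a (c (l 16809560) (l 16806016)) (c (l 16802368) (l 16777352))) (c (a (a (l 16793808) (l 16789872)) (b (l 16797248) (l 16780608))) (b (a (c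 (l 16803080) (l 16801272)) (c (l 16794208) (l 16792152))) (a (c (b (l 16797736) (l 16788952)) (b (l 16790504) (c (l 16787384) (a (l 16793560) (l 16789536))))) (b (c (l 16789336) (l 16787112)) (c (l 16786120) (a (l 16785920) (l 16781592)))))))))), by decide +kernel⟩

def k12_B00pm_101_s1 : ∃ t, chk3 f_B00pm_101_s1 t 37 127 1 = true :=
  ⟨(b (a (c (c (l 16799664) (l 16795616)) (c (b (l 16794208) (l 16788728)) (a (l 16792728) (l 16781728)))) (c (b (l 16736848) (l 16754152)) (a (c (l 16775088) (l 16749208)) (c (l 16763504) (l 16716192))))) (c (a (a (a (l 16773416) (l 16779736)) (c (l 16786208) (l 16760192))) (a (c (l 16777312) (l 16756048)) (c (l 16767816) (l 16746072)))) (b (a (c (c (l 16763600) (l 16782192)) (a (l 16773104) (l 16762952))) (c (b (l 16743080) (l 16751488)) (a (l 16741800) (l 16730600)))) (c (a (a (l 16772120) (l 16763048)) (a (l 16753416) (b (l 16754704) (l 16752808)))) (b (a (a (l 16773848) (c (l 16770736) (l 16768008))) (a (l 16748632)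 (l 16737872))) (a (a (c (l 16777408) (a (l 16777120) (l 16772496))) (c (l 16768112) (a (l 16767720) (l 16762808)))) (a (c (l 16758264) (a (l 16757760) (l 16752584))) (c (l 16747896) (a (l 16747272) (l 16741848)))))))))), by decide +kernel⟩

def k13_B00pm_101_s1 : ∃ t, chk3 f_B00pm_101_s1 t 19 14 1 = true :=
  ⟨(l 6), by decide +kernel⟩

def k14_B00pm_101_s1 : ∃ t, chk3 f_B00pm_101_s1 t 19 30 1 = true :=
  ⟨(l 6), by decide +kernel⟩

def k15_B00pm_101_s1 : ∃ t, chk3 f_B00pm_101_s1 t 38 31 1 = true :=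
  ⟨(b (a (b (l 6) (l 6)) (l 6)) (b (a (c (b (c (l 16724368) (l 16720040)) (c (l 16719592) (l 16714440))) (b (a (l 16721352) (l 16727048)) (a (l 16734776) (c (l 16744248) (l 16697080))))) (a (c (b (l 16720584) (l 16717232)) (b (c (l 16734520) (l 16730040)) (c (l 16687816) (l 16682296)))) (b (l 6) (c (c (l 16726600) (l 16699632)) (c (l 16693760) (l 16688008)))))) (a (b (c (a (l 16759952) (l 16705856)) (a (b (l 16708288) (l 16725656)) (c (l 16738552) (l 16690432)))) (c (a (b (l 16755864) (c (l 16756520) (l 16749848))) (c (l 16747040) (l 16719144))) (c (b (b (l 16699240) (l 16718720)) (a (l 16727328) (l 16716032))) (b (a (l 16739848) (l 16727552)) (a (c (l 16727400) (a (l 16737272) (l 16731504))) (b (l 16725200) (c (l 16725536) (l 16711296)))))))) (c (c (a (b (l 16738280) (l 16735664)) (b (l 16693576) (b (l 16723952) (l 16723280)))) (a (b (l 16689800) (l 16707352)) (b (l 16697192) (c (b (l 16718328) (l 16717360)) (b (l 16714568) (l 16713384)))))) (b (a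 (c (l 16704248) (c (l 16678384) (l 16696096))) (c (b (l 16712144) (l 16689528)) (b (l 16684624) (l 16682464)))) (b (a (c (l 16721960) (l 16693744)) (c (l 16687936) (a (l 16683768) (l 16682200)))) (c (a (l 16698896) (c (l 16688424) (l 16684416))) (c (a (l 16693120) (b (l 16680848) (l 16679920))) (a (b (l 16710872) (l 16699064)) (a (l 16700584) (l 16678280))))))))))), by decide +kernel⟩

def k16_B00pm_101_s1 : ∃ t, chk3 f_B00pm_101_s1 t 39 62 1 = true :=
  ⟨(l 6), by decide +kernel⟩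

def k17_B00pm_101_s1 : ∃ t, chk3 f_B00pm_101_s1 t 78 126 1 = true :=
  ⟨(a (a (b (l 6) (b (l 6) (b (l 6) (c (l 16711784) (l 16683216))))) (l 6)) (l 6)), by decide +kernel⟩

def k18_B00pm_101_s1 : ∃ t, chk3 f_B00pm_101_s1 t 78 254 1 = true :=
  ⟨(c (a (c (b (l 16711200) (l 16700552)) (b (l 16704264) (a (l 16707200) (l 16700096)))) (b (c (l 16696376) (l 16689200)) (c (a (l 16700416) (l 16693136)) (a (l 16692848) (l 16685448))))) (c (a (b (l 16676448) (l 16680600)) (b (l 16661176) (a (l 16664368) (l 16677840)))) (a (b (l 16680176) (c (l 16669888) (l 16666248))) (b (l 16664728) (a (b (l 16678208) (l 16677608)) (l 16659840)))))), by decide +kernel⟩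

def k19_B00pm_101_s1 : ∃ t, chk3 f_B00pm_101_s1 t 78 255 2 = true :=
  ⟨(a (c (b (a (l 16714256) (l 16707592)) (a (l 16714040) (l 16707672))) (b (a (l 16706512) (l 16699696)) (a (l 16700632) (c (l 16701432) (l 16697264))))) (b (c (a (l 16700752) (l 16693752)) (a (b (l 16692752) (l 16692704)) (b (l 16685560) (l 16685656)))) (c (a (c (l 16703240) (l 16699016)) (c (l 16696568) (l 16692272))) (a (c (l 16694784) (b (l 16690584) (l 16690504))) (b (c (l 16687888) (l 16683648)) (c (l 16688072) (l 16678472))))))), by decide +kernel⟩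

def k20_B00pm_101_s1 : ∃ t, chk3 f_B00pm_101_s1 t 78 255 3 = true :=
  ⟨(c (a (b (c (l 16676280) (l 16677616)) (a (c (l 16699712) (l 16674616)) (c (b (l 16693248) (l 16692912)) (b (l 16689120) (l 16688656))))) (a (c (b (l 16686728) (b (l 16686400) (a (l 16687896) (l 16684504)))) (b (l 16682728) (b (l 16682208) (a (l 16683592) (l 16680176))))) (b (b (l 16677576) (c (l 16679480) (l 16675368))) (c (b (l 16679408) (a (l 16681072) (l 16677616))) (b (b (l 16675216) (l 16675120)) (a (b (l 16676776) (l 16676664)) (c (l 16674328) (l 16672136)))))))) (a (b (c (b (l 16668800) (l 16668112)) (b (l 16664952) (l 16674616))) (a (c (l 16675728) (b (l 16687728) (l 16671152))) (c (b (l 16684976) (a (l 16686080) (l 16682696))) (b (l 16665104) (a (b (l 16682000) (l 16681632)) (c (l 16679480) (l 16677328))))))) (b (c (a (l 16663008) (b (l 16671632) (l 16671272))) (a (l 16664272) (b (l 16667680) (l 16667176)))) (b (c (a (b (l 16678136) (l 16677904)) (a (l 16672712) (l 16669136)))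 (a (c (l 16674872) (l 16662288)) (b (l 16666808) (c (l 16667640) (l 16665504))))) (c (b (a (a (l 16679400) (l 16675936)) (c (l 16671768) (l 16664352))) (a (a (l 16679168) (c (l 16676824) (l 16674640))) (c (a (l 16673368) (l 16669880)) (a (l 16671168) (b (l 16667712) (l 16667632)))))) (c (b (a (l 16674448) (a (l 16669192) (l 16665648))) (a (a (l 16675896) (l 16672448)) (a (b (l 16669024) (l 16668912)) (a (l 16666336) (l 16664576))))) (b (a (a (l 16674040) (l 16670552)) (a (l 16667024) (l 16663472))) (a (a (l 16673720) (b (l 16670328) (l 16670184))) (a (b (l 16666832) (c (l 16667256) (l 16666144))) (b (l 16663296) (c (l 16663744) (a (l 16663512) (l 16661744))))))))))))), by decide +kernel⟩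

def k21_B00pm_101_s1 : ∃ t, chk3 f_B00pm_101_s1 t 79 126 1 = true :=
  ⟨(l 6), by decide +kernel⟩

def k22_B00pm_101_s1 : ∃ t, chk3 f_B00pm_101_s1 t 79 254 1 = true :=
  ⟨(b (l 6) (a (c (a (c (l 16685720) (l 16677904)) (a (c (l 16680080) (l 16672184)) (l 6))) (a (c (l 16649232) (l 16652120)) (a (b (l 6) (c (l 16664424) (l 16640896))) (l 6)))) (l 6))), by decide +kernel⟩

def k23_B00pm_101_s1 : ∃ t, chk3 f_B00pm_101_s1 t 158 255 2 = true :=
  ⟨(b (c (a (l 16686600) (a (b (l 16680888) (l 16681440)) (l 16679232))) (a (b (l 16678224) (l 16678456)) (a (b (l 16672648) (c (l 16675096) (l 16670880))) (b (l 16670632) (l 16671000))))) (a (c (b (l 16687304) (c (l 16690000) (l 16685592))) (b (c (l 16680856) (l 16676560)) (c (l 16681176) (b (l 16676712) (l 16676816))))) (b (a (c (c (l 16684192) (l 16679840)) (c (l 16675504) (a (l 16672056) (l 16670280)))) (c (l 16680128) (c (l 16673560) (l 16669200)))) (a (a (c (l 16683464) (c (l 16676792) (l 16672352))) (c (a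 (l 16682152) (l 16681352)) (b (c (l 16674944) (l 16670520)) (c (l 16675176) (a (l 16671096) (l 16670280)))))) (c (l 16680744) (c (l 16674016) (l 16669536))))))), by decide +kernel⟩

def k24_B00pm_101_s1 : ∃ t, chk3 f_B00pm_101_s1 t 158 510 3 = true :=
  ⟨(a (c (b (l 16670144) (c (l 16672208) (l 16668056))) (c (b (l 16664136) (l 16663920)) (b (l 16660152) (l 16659784)))) (c (c (a (b (l 16666528) (l 16666680)) (l 16664560)) (a (a (l 16663408) (l 16661560)) (l 16660408))) (c (a (b (l 16658440) (a (l 16659248) (l 16657400))) (l 16656272)) (a (b (l 16654424) (a (l 16655096) (l 16653240))) (l 16652160))))), by decide +kernel⟩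

def k25_B00pm_101_s1 : ∃ t, chk3 f_B00pm_101_s1 t 158 1022 3 = true :=
  ⟨(a (c (c (l 16672272) (b (l 16668000) (l 16667976))) (c (a (l 16665528) (l 16661888)) (b (l 16659520) (c (l 16660424) (l 16658272))))) (a (c (c (a (l 16667744) (l 16665952)) (a (l 16663432) (a (l 16662056) (l 16661208)))) (c (a (l 16659128) (a (l 16657744) (b (l 16656912) (l 16656880)))) (a (l 16654832) (a (l 16653440) (a (l 16652744) (l 16652432)))))) (c (c (l 16664848) (l 16660504)) (c (l 16653544) (b (l 16651888) (l 16651792)))))), by decide +kernel⟩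

def k26_B00pm_101_s1 : ∃ t, chk3 f_B00pm_101_s1 t 316 1023 3 = true :=
  ⟨(c (c (b (l 16672328) (c (l 16673488) (l 16671264))) (a (c (l 16670808) (l 16665984)) (b (l 16666160) (a (l 16667040) (l 16665264))))) (b (c (c (l 16664664) (a (l 16664264) (l 16660672))) (c (a (l 16662080) (l 16658472)) (a (l 16659888) (l 16656280)))) (c (c (a (l 16666360) (l 16662808)) (a (b (l 16664168) (l 16664112)) (b (l 16660600) (l 16660552)))) (c (a (b (l 16661960) (c (l 16662432) (l 16661320))) (b (l 16658376) (c (l 16658872) (l 16657752)))) (a (b (l 16657120) (a (c (l 16661088) (l 16659976)) (c (l 16659312) (l 16658200)))) (a (b (l 16657056) (c (l 16657528) (l 16656408))) (b (l 16655256) (c (l 16655736) (l 16654616))))))))), by decide +kernel⟩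

def k27_B00pm_101_s1 : ∃ t, chk3 f_B00pm_101_s1 t 317 1023 3 = true :=
  ⟨(c (a (a (c (l 16667904) (b (l 16663456) (l 16663472))) (a (c (l 16666560) (b (l 16662096) (l 16662128))) (b (c (l 16665688) (a (l 16661416) (l 16661112))) (c (a (l 16665944) (l 16665648)) (a (l 16661456) (l 16661152)))))) (c (a (l 16665296) (l 16664816)) (a (c (l 16661944) (l 16659712)) (c (l 16661448) (l 16659208))))) (a (b (c (a (l 16659048) (a (l 16657680) (a (l 16657000) (l 16656696)))) (a (c (l 16655752) (l 16653552)) (a (l 16653272) (a (l 16652584) (l 16652280))))) (c (c (a (l 16660120) (a (l 16658768) (a (l 16658088) (l 16657792)))) (a (l 16657880) (a (l 16656528) (a (l 16655848) (l 16655544))))) (c (a (b (l 16655672) (l 16655624)) (a (l 16654288) (a (l 16653608) (l 16653304)))) (c (a (l 16653968) (a (l 16652608) (a (l 16651928) (l 16651624)))) (a (b (l 16652888) (l 16652816)) (a (l 16651488) (a (l 16650808) (l 16650504)))))))) (a (c (b (l 16656376) (c (l 16657472) (l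 16655224))) (a (b (l 16652080) (c (l 16653112) (b (l 16650888) (l 16650832)))) (b (l 16651816) (c (l 16652848) (c (l 16651160) (l 16650032)))))) (c (b (l 16655864) (c (l 16656968) (l 16654712))) (b (c (l 16652528) (l 16650312)) (c (a (l 16652584) (l 16652328)) (b (l 16650232) (c (l 16650744) (l 16649608))))))))), by decide +kernel⟩

def k28_B00pm_101_s1 : ∃ t, chk3 f_B00pm_101_s1 t 159 255 2 = true :=
  ⟨(b (b (a (c (l 16677672) (l 16669264)) (l 6)) (a (c (l 16678264) (c (l 16671784) (l 16667488))) (c (l 16676544) (c (l 16669968) (l 16665600))))) (a (a (c (b (l 16679272) (l 16679896)) (b (c (l 16672664) (l 16668264)) (c (l 16673120) (l 16668608)))) (c (b (l 16678424) (l 16679048)) (b (c (l 16671760) (l 16667328)) (c (l 16672224) (l 16667680))))) (a (c (b (l 16677568) (l 16672960)) (b (c (l 16670856) (l 16666392)) (c (l 16671328) (l 16664128)))) (c (c (l 16679312) (l 16674744)) (b (c (l 16669944) (l 16665448)) (c (l 16670424) (b (l 16665720) (l 16665912)))))))),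 by decide +kernel⟩

def k29_B00pm_101_s1 : ∃ t, chk3 f_B00pm_101_s1 t 159 510 3 = true :=
  ⟨(b (a (a (c (l 16661416) (l 16653216)) (c (l 16660408) (l 16652136))) (l 6)) (c (a (c (l 16663208) (a (l 16659424) (l 16658408))) (c (l 16661248) (a (l 16657392) (l 16656376)))) (a (a (c (l 16655184) (l 16650968)) (c (l 16654136) (l 16649880))) (c (a (l 16653088) (l 16652032)) (l 16637792))))), by decide +kernel⟩

def k30_B00pm_101_s1 : ∃ t, chk3 f_B00pm_101_s1 t 159 1022 3 = true :=
  ⟨(c (a (c (a (l 16663880) (l 16662904)) (a (l 16659496) (l 16658496))) (c (a (l 16661936) (l 16660960)) (a (l 16657488) (l 16656480)))) (b (a (c (a (l 16655144) (l 16654104)) (a (l 16650816) (l 16649744))) (c (a (l 16653056) (l 16652016)) (a (l 16648664) (l 16647584)))) (a (c (a (l 16655120) (l 16654080)) (a (l 16650720) (l 16649656))) (c (a (l 16653048) (l 16652008)) (a (l 16648584) (l 16644888)))))), by decide +kernel⟩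

def k31_B00pm_101_s1 : ∃ t, chk3 f_B00pm_101_s1 t 159 2046 3 = true :=
  ⟨(c (a (c (a (l 16664040) (l 16663080)) (a (l 16659568) (l 16658568))) (c (a (l 16662112) (l 16661144)) (a (l 16657576) (c (l 16657712) (l 16655424))))) (c (a (a (c (l 16656216) (l 16653984)) (c (l 16655192) (l 16652944))) (a (c (l 16654168) (l 16651904)) (c (l 16653144) (l 16650856)))) (a (a (c (l 16651752) (b (l 16649544) (l 16649488))) (c (l 16650696) (b (l 16648472) (l 16648424)))) (c (a (l 16649640) (l 16648576)) (c (a (l 16647936) (l 16646864)) (l 22)))))), by decide +kernel⟩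

def k32_B00pm_101_s1 : ∃ t, chk3 f_B00pm_101_s1 t 159 2047 6 = true :=
  ⟨(a (c (a (b (l 16664128) (l 16664184)) (b (l 16663168) (l 16663232))) (c (a (l 16660752) (l 16659768)) (a (b (l 16658472) (l 16658496)) (b (l 16657472) (l 16657496))))) (c (a (c (l 16663384) (l 16661088)) (c (l 16662432) (l 16660112))) (a (c (l 16658784) (a (l 16656728) (l 16656224))) (c (l 16657792) (a (l 16655720) (l 16655216)))))), by decide +kernel⟩

def k33_B00pm_101_s1 : ∃ t, chk3 f_B00pm_101_s1 t 159 2047 7 = true :=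
  ⟨(b (c (a (a (c (l 16656216) (l 16653952)) (c (l 16655200) (l 16652920))) (a (c (l 16654176) (a (l 16652136) (l 16651616))) (c (l 16653152) (a (l 16651104) (l 16650584))))) (a (a (c (a (l 16651952) (l 16651424)) (a (l 16649696) (l 16649168))) (c (a (l 16650904) (l 16650376)) (a (l 16648632) (l 16648096)))) (a (c (a (l 16649848) (l 16649328)) (a (l 16647560) (l 16647032))) (c (a (l 16648800) (l 16648272)) (a (l 16646496) (l 22)))))) (c (b (a (a (c (l 16656216) (a (l 16654192) (l 16653680))) (c (l 16655200) (a (l 16653160) (l 16652648)))) (a (c (l 16654184) (a (l 16652128) (l 16651616))) (c (l 16653160) (a (l 16651096) (l 16650576))))) (a (a (c (a (l 16656464) (l 16655960)) (a (l 16654184) (l 16653672))) (c (a (l 16655448) (l 16654944)) (a (l 16653160) (l 16652640)))) (a (c (a (l 16654432) (l 16653928)) (a (l 16652128) (l 16651608))) (c (a (l 16653416) (l 16652904)) (a (l 16651088) (l 16650576)))))) (b (a (a (c (a (l 16651928) (l 16651400)) (a (l 16649656)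 (l 16649128))) (c (a (l 16650880) (l 16650352)) (a (l 16648592) (l 16648064)))) (a (c (a (l 16649832) (l 16649304)) (a (l 16647528) (l 16646992))) (c (a (l 16648776) (l 16648248)) (a (c (l 16647040) (l 22)) (l 22))))) (a (a (c (a (l 16651912) (l 16651384)) (c (a (l 16650200) (l 16649672)) (a (l 16649064) (l 16648528)))) (c (a (b (l 16650864) (l 16650856)) (a (l 16650472) (l 16650208))) (c (a (l 16649144) (l 16648616)) (a (l 16648000) (l 22))))) (a (c (a (a (l 16649944) (l 16649680)) (a (l 16649424) (l 16649160))) (c (a (l 16648080) (l 16647552)) (l 22))) (c (a (a (l 16648896) (l 16648632)) (a (l 16648368) (l 16648104))) (a (c (l 16647024) (l 22)) (l 22)))))))), by decide +kernel⟩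

def k34_B00pm_101_s1 : ∃ t, chk3 f_B00pm_101_s1 t 5 6 1 = true :=
  ⟨(l 6), by decide +kernel⟩

def k35_B00pm_101_s1 : ∃ t, chk3 f_B00pm_101_s1 t 10 14 1 = true :=
  ⟨(l 6), by decide +kernel⟩

def k36_B00pm_101_s1 : ∃ t, chk3 f_B00pm_101_s1 t 10 30 1 = true :=
  ⟨(l 6), by decide +kernel⟩

def k37_B00pm_101_s1 : ∃ t, chk3 f_B00pm_101_s1 t 40 62 1 = true :=
  ⟨(l 6), by decide +kernel⟩

def k38_B00pm_101_s1 : ∃ t, chk3 f_B00pm_101_s1 t 40 126 1 = true :=
  ⟨(l 6), by decide +kernel⟩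

def k39_B00pm_101_s1 : ∃ t, chk3 f_B00pm_101_s1 t 40 254 1 = true :=
  ⟨(l 6), by decide +kernel⟩

def k40_B00pm_101_s1 : ∃ t, chk3 f_B00pm_101_s1 t 40 510 1 = true :=
  ⟨(l 6), by decide +kernel⟩

def k41_B00pm_101_s1 : ∃ t, chk3 f_B00pm_101_s1 t 80 511 2 = true :=
  ⟨(b (a (a (c (c (l 16677728) (l 16673160)) (c (l 16668600) (a (l 16664504) (l 16663560)))) (l 6)) (l 6)) (b (a (c (a (c (l 16678240) (l 16673600)) (c (l 16676544) (l 16671840))) (a (c (a (l 16669400) (l 16668488)) (a (l 16664784) (l 16663840))) (a (c (l 16667576) (l 16662896)) (l 6)))) (l 6)) (a (c (a (c (l 16678592) (l 16673904)) (c (l 16676904) (l 16669528))) (a (c (a (l 16669648) (l 16668736)) (a (l 16664976) (l 16664032))) (c (a (l 16667832) (l 16666920)) (a (l 16663096) (l 16662152))))) (a (a (c (l 16673208) (c (l 16666000) (l 16661208))) (l 6)) (l 6))))), by decide +kernel⟩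

def k42_B00pm_101_s1 : ∃ t, chk3 f_B00pm_101_s1 t 80 1022 3 = true :=
  ⟨(a (a (c (c (a (l 16659984) (l 16659000)) (a (l 16655472) (l 16654456))) (c (a (b (l 16650968) (l 16650960)) (b (l 6) (l 16649920))) (c (a (l 16647592) (l 16646520)) (l 22)))) (l 6)) (l 6)), by decide +kernel⟩

def k43_B00pm_101_s1 : ∃ t, chk3 f_B00pm_101_s1 t 160 2046 3 = true :=
  ⟨(c (a (c (a (l 16660176) (l 16659200)) (a (c (l 16656720) (l 16654416)) (c (l 16655720) (l 16653400)))) (a (c (l 16658224) (c (l 16654720) (l 16652384))) (l 6))) (c (a (a (c (l 16652112) (l 16649816)) (c (l 16651080) (l 16648768))) (a (c (l 16650048) (l 16647712)) (l 6))) (c (a (a (b (l 16647528) (l 16647504)) (b (l 16646464) (l 16646440))) (a (b (l 16645392) (l 16645376)) (l 6))) (l 22)))), by decide +kernel⟩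

def k44_B00pm_101_s1 : ∃ t, chk3 f_B00pm_101_s1 t 160 2047 6 = true :=
  ⟨(b (a (c (a (l 16660272) (l 16659296)) (a (c (l 16656784) (l 16654456)) (c (l 16655784) (l 16653440)))) (c (a (l 16658328) (l 16657352)) (a (c (l 16654784) (l 16652432)) (c (l 16653784) (l 16651408))))) (a (c (a (c (l 16661512) (l 16659168)) (c (l 16660544) (l 16658192))) (a (c (l 16656824) (a (l 16654728) (l 16654224))) (c (l 16655832) (a (l 16653720) (l 16653216))))) (c (a (c (l 16659584) (l 16657208)) (c (l 16658616) (l 16656224))) (a (c (l 16654832) (a (l 16652712) (l 16652200))) (c (l 16653840) (a (l 16651696) (l 16651184))))))), by decide +kernel⟩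

def k45_B00pm_101_s1 : ∃ t, chk3 f_B00pm_101_s1 t 160 2047 7 = true :=
  ⟨(b (c (a (a (c (l 16652128) (a (l 16650064) (l 16649536))) (c (l 16651104) (a (l 16649016) (l 16648496)))) (a (c (l 16650072) (a (l 16647968) (l 16647448))) (c (a (l 16649288) (l 16648776)) (a (l 16646920) (l 16646400))))) (c (a (a (a (l 16647736) (l 16647208)) (a (l 16646680) (l 16646152))) (a (a (l 16645616) (l 16645088)) (a (l 16644552) (l 22)))) (l 22))) (c (b (a (a (c (a (l 16652392) (l 16651880)) (a (l 16650056) (l 16649536))) (c (a (l 16651360) (l 16650848)) (a (l 16649016) (l 16648496)))) (a (c (a (l 16650336) (l 16649824)) (a (l 16647968) (l 16647448))) (c (a (l 16649304) (l 16648792)) (a (l 16646920) (l 16646400))))) (a (a (c (a (l 16652392) (l 16651880)) (a (l 16650056) (l 16649536))) (c (a (l 16651368) (l 16650856)) (a (l 16649016) (b (l 16648496) (l 16648496))))) (a (c (a (l 16650344) (l 16649832)) (a (c (l 16648568) (l 16647376)) (c (l 16648040) (l 16646856))))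 (c (a (l 16649312) (l 16648800)) (a (c (l 16647520) (l 16646328)) (c (l 16647000) (l 16645800))))))) (a (c (a (b (a (l 16647720) (l 16647192)) (a (a (l 16647840) (l 16647576)) (a (l 16647312) (l 16647048)))) (b (a (l 16646664) (l 16646136)) (a (c (l 16647248) (l 16646064)) (c (l 16646720) (l 22))))) (l 22)) (a (c (c (a (l 16646192) (l 16645664)) (l 22)) (l 22)) (a (a (c (c (l 16645264) (l 22)) (l 22)) (l 22)) (l 22)))))), by decide +kernel⟩

def k46_B00pm_101_s1 : ∃ t, chk3 f_B00pm_101_s1 t 161 1023 3 = true :=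
  ⟨(a (b (l 6) (b (l 6) (b (l 6) (a (a (c (c (l 16656704) (c (l 16653096) (l 16650688))) (c (c (l 16648280) (c (l 16646480) (l 16645272))) (l 22))) (l 6)) (l 6))))) (l 6)), by decide +kernel⟩

def k47_B00pm_101_s1 : ∃ t, chk3 f_B00pm_101_s1 t 81 511 1 = true :=
  ⟨(l 6), by decide +kernel⟩

def k48_B00pm_101_s1 : ∃ t, chk3 f_B00pm_101_s1 t 41 31 1 = true :=
  ⟨(l 6), by decide +kernel⟩

def k49_B00pm_101_s1 : ∃ t, chk3 f_B00pm_101_s1 t 21 31 1 = true :=
  ⟨(l 6), by decide +kernel⟩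

def k50_B00pm_101_s1 : ∃ t, chk3 f_B00pm_101_s1 t 11 7 1 = true :=
  ⟨(l 6), by decide +kernel⟩

def k51_B00pm_101_s1 : ∃ t, chk3 f_B00pm_101_s1 t 3 1 1 = true :=
  ⟨(l 6), by decide +kernel⟩

theorem t52_B00pm_101_s1 : ∃ t, chk3 f_B00pm_101_s1 t 160 2047 3 = true := ex3_c k44_B00pm_101_s1 k45_B00pm_101_s1

theorem t53_B00pm_101_s1 : ∃ t, chk3 f_B00pm_101_s1 t 160 1023 3 = true := ex3_b k43_B00pm_101_s1 t52_B00pm_101_s1

theorem t54_B00pm_101_s1 : ∃ t, chk3 f_B00pm_101_s1 t 80 1023 3 = true := ex3_a t53_B00pm_101_s1 k46_B00pm_101_s1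

theorem t55_B00pm_101_s1 : ∃ t, chk3 f_B00pm_101_s1 t 80 511 3 = true := ex3_b k42_B00pm_101_s1 t54_B00pm_101_s1

theorem t56_B00pm_101_s1 : ∃ t, chk3 f_B00pm_101_s1 t 80 511 1 = true := ex3_c k41_B00pm_101_s1 t55_B00pm_101_s1

theorem t57_B00pm_101_s1 : ∃ t, chk3 f_B00pm_101_s1 t 40 511 1 = true := ex3_a t56_B00pm_101_s1 k47_B00pm_101_s1

theorem t58_B00pm_101_s1 : ∃ t, chk3 f_B00pm_101_s1 t 40 255 1 = true := ex3_b k40_B00pm_101_s1 t57_B00pm_101_s1

theorem t59_B00pm_101_s1 : ∃ t, chk3 f_B00pm_101_s1 t 40 127 1 = true := ex3_b k39_B00pm_101_s1 t58_B00pm_101_s1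

theorem t60_B00pm_101_s1 : ∃ t, chk3 f_B00pm_101_s1 t 40 63 1 = true := ex3_b k38_B00pm_101_s1 t59_B00pm_101_s1

theorem t61_B00pm_101_s1 : ∃ t, chk3 f_B00pm_101_s1 t 40 31 1 = true := ex3_b k37_B00pm_101_s1 t60_B00pm_101_s1

theorem t62_B00pm_101_s1 : ∃ t, chk3 f_B00pm_101_s1 t 20 31 1 = true := ex3_a t61_B00pm_101_s1 k48_B00pm_101_s1

theorem t63_B00pm_101_s1 : ∃ t, chk3 f_B00pm_101_s1 t 10 31 1 = true := ex3_a t62_B00pm_101_s1 k49_B00pm_101_s1

theorem t64_B00pm_101_s1 : ∃ t, chk3 f_B00pm_101_s1 t 10 15 1 = true := ex3_b k36_B00pm_101_s1 t63_B00pm_101_s1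

theorem t65_B00pm_101_s1 : ∃ t, chk3 f_B00pm_101_s1 t 10 7 1 = true := ex3_b k35_B00pm_101_s1 t64_B00pm_101_s1

theorem t66_B00pm_101_s1 : ∃ t, chk3 f_B00pm_101_s1 t 5 7 1 = true := ex3_a t65_B00pm_101_s1 k50_B00pm_101_s1

theorem t67_B00pm_101_s1 : ∃ t, chk3 f_B00pm_101_s1 t 5 3 1 = true := ex3_b k34_B00pm_101_s1 t66_B00pm_101_s1

theorem t68_B00pm_101_s1 : ∃ t, chk3 f_B00pm_101_s1 t 159 2047 3 = true := ex3_c k32_B00pm_101_s1 k33_B00pm_101_s1

theorem t69_B00pm_101_s1 : ∃ t, chk3 f_B00pm_101_s1 t 159 1023 3 = true := ex3_b k31_B00pm_101_s1 t68_B00pm_101_s1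

theorem t70_B00pm_101_s1 : ∃ t, chk3 f_B00pm_101_s1 t 159 511 3 = true := ex3_b k30_B00pm_101_s1 t69_B00pm_101_s1

theorem t71_B00pm_101_s1 : ∃ t, chk3 f_B00pm_101_s1 t 159 255 3 = true := ex3_b k29_B00pm_101_s1 t70_B00pm_101_s1

theorem t72_B00pm_101_s1 : ∃ t, chk3 f_B00pm_101_s1 t 159 255 1 = true := ex3_c k28_B00pm_101_s1 t71_B00pm_101_s1

theorem t73_B00pm_101_s1 : ∃ t, chk3 f_B00pm_101_s1 t 158 1023 3 = true := ex3_a k26_B00pm_101_s1 k27_B00pm_101_s1

theorem t74_B00pm_101_s1 : ∃ t, chk3 f_B00pm_101_s1 t 158 511 3 = true := ex3_b k25_B00pm_101_s1 t73_B00pm_101_s1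

theorem t75_B00pm_101_s1 : ∃ t, chk3 f_B00pm_101_s1 t 158 255 3 = true := ex3_b k24_B00pm_101_s1 t74_B00pm_101_s1

theorem t76_B00pm_101_s1 : ∃ t, chk3 f_B00pm_101_s1 t 158 255 1 = true := ex3_c k23_B00pm_101_s1 t75_B00pm_101_s1

theorem t77_B00pm_101_s1 : ∃ t, chk3 f_B00pm_101_s1 t 79 255 1 = true := ex3_a t76_B00pm_101_s1 t72_B00pm_101_s1

theorem t78_B00pm_101_s1 : ∃ t, chk3 f_B00pm_101_s1 t 79 127 1 = true := ex3_b k22_B00pm_101_s1 t77_B00pm_101_s1

theorem t79_B00pm_101_s1 : ∃ t, chk3 f_B00pm_101_s1 t 79 63 1 = true := ex3_b k21_B00pm_101_s1 t78_B00pm_101_s1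

theorem t80_B00pm_101_s1 : ∃ t, chk3 f_B00pm_101_s1 t 78 255 1 = true := ex3_c k19_B00pm_101_s1 k20_B00pm_101_s1

theorem t81_B00pm_101_s1 : ∃ t, chk3 f_B00pm_101_s1 t 78 127 1 = true := ex3_b k18_B00pm_101_s1 t80_B00pm_101_s1

theorem t82_B00pm_101_s1 : ∃ t, chk3 f_B00pm_101_s1 t 78 63 1 = true := ex3_b k17_B00pm_101_s1 t81_B00pm_101_s1

theorem t83_B00pm_101_s1 : ∃ t, chk3 f_B00pm_101_s1 t 39 63 1 = true := ex3_a t82_B00pm_101_s1 t79_B00pm_101_s1

theorem t84_B00pm_101_s1 : ∃ t, chk3 f_B00pm_101_s1 t 39 31 1 = true := ex3_b k16_B00pm_101_s1 t83_B00pm_101_s1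

theorem t85_B00pm_101_s1 : ∃ t, chk3 f_B00pm_101_s1 t 19 31 1 = true := ex3_a k15_B00pm_101_s1 t84_B00pm_101_s1

theorem t86_B00pm_101_s1 : ∃ t, chk3 f_B00pm_101_s1 t 19 15 1 = true := ex3_b k14_B00pm_101_s1 t85_B00pm_101_s1

theorem t87_B00pm_101_s1 : ∃ t, chk3 f_B00pm_101_s1 t 19 7 1 = true := ex3_b k13_B00pm_101_s1 t86_B00pm_101_s1

theorem t88_B00pm_101_s1 : ∃ t, chk3 f_B00pm_101_s1 t 18 127 1 = true := ex3_a k11_B00pm_101_s1 k12_B00pm_101_s1

theorem t89_B00pm_101_s1 : ∃ t, chk3 f_B00pm_101_s1 t 18 63 1 = true := ex3_b k10_B00pm_101_s1 t88_B00pm_101_s1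

theorem t90_B00pm_101_s1 : ∃ t, chk3 f_B00pm_101_s1 t 18 31 1 = true := ex3_b k9_B00pm_101_s1 t89_B00pm_101_s1

theorem t91_B00pm_101_s1 : ∃ t, chk3 f_B00pm_101_s1 t 18 15 1 = true := ex3_b k8_B00pm_101_s1 t90_B00pm_101_s1

theorem t92_B00pm_101_s1 : ∃ t, chk3 f_B00pm_101_s1 t 18 7 1 = true := ex3_b k7_B00pm_101_s1 t91_B00pm_101_s1

theorem t93_B00pm_101_s1 : ∃ t, chk3 f_B00pm_101_s1 t 9 7 1 = true := ex3_a t92_B00pm_101_s1 t87_B00pm_101_s1

theorem t94_B00pm_101_s1 : ∃ t, chk3 f_B00pm_101_s1 t 8 31 1 = true := ex3_b k5_B00pm_101_s1 k6_B00pm_101_s1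

theorem t95_B00pm_101_s1 : ∃ t, chk3 f_B00pm_101_s1 t 8 30 1 = true := ex3_a k3_B00pm_101_s1 k4_B00pm_101_s1

theorem t96_B00pm_101_s1 : ∃ t, chk3 f_B00pm_101_s1 t 8 15 1 = true := ex3_b t95_B00pm_101_s1 t94_B00pm_101_s1

theorem t97_B00pm_101_s1 : ∃ t, chk3 f_B00pm_101_s1 t 8 7 1 = true := ex3_b k2_B00pm_101_s1 t96_B00pm_101_s1

theorem t98_B00pm_101_s1 : ∃ t, chk3 f_B00pm_101_s1 t 4 7 1 = true := ex3_a t97_B00pm_101_s1 t93_B00pm_101_s1

theorem t99_B00pm_101_s1 : ∃ t, chk3 f_B00pm_101_s1 t 4 3 1 = true := ex3_b k1_B00pm_101_s1 t98_B00pm_101_s1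

theorem t100_B00pm_101_s1 : ∃ t, chk3 f_B00pm_101_s1 t 2 3 1 = true := ex3_a t99_B00pm_101_s1 t67_B00pm_101_s1

theorem t101_B00pm_101_s1 : ∃ t, chk3 f_B00pm_101_s1 t 2 1 1 = true := ex3_b k0_B00pm_101_s1 t100_B00pm_101_s1

theorem t102_B00pm_101_s1 : ∃ t, chk3 f_B00pm_101_s1 t 1 1 1 = true := ex3_a t101_B00pm_101_s1 k51_B00pm_101_s1

theorem c_B00pm_101_s1 : CertF 536870912 536870912 536870912 536870912 858993459 64424510 false true false .npn 1 0 1
    ndB0q1 ndB0q1 pcB0 cut_B00pm_101_s1 Ext.none :=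
  certF2 (fam := false) (s1 := true) (s2 := false) (a := 1) (b := 0) (c := 1) (cn := .npn) (n1 := ndB0q1) (n2 := ndB0q1) (pc := pcB0) (cut := cut_B00pm_101_s1) (xt := Ext.none) (P1 := 536870912) (W1 := 536870912) (P2 := 536870912) (W2 := 536870912) (P3 := 858993459) (W3 := 64424510)
    rfl (fun _ => rfl) t102_B00pm_101_s1

theorem s_B00pm_101_s1 {κ x : ℝ} (hκ : κ * h0 = ken x) (hx : ((858993459 : ℕ) : ℝ) / S ≤ x)
    (hx' : x ≤ (((858993459 : ℕ) : ℝ) + (64424510 : ℕ)) / S)
    (H : CutB (VFD κ) PP tK tL pcB (Cut.of [[⟨0, 1, 0, 33554432⟩, ⟨1, 0, 0, 33554432⟩, ⟨2, 1, 0, 33554432⟩], [⟨0, 0, 1, 20971520⟩, ⟨1, 1, 2, 20971520⟩, ⟨2, 1, 0, 16777216⟩]]) 1 0 1 0 0 (sgb true) (sgb false) x) :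
    AltB (VFD κ) PP tK tL pcB [⟨3, 0, 0, 1449551462⟩] 1 0 1 0 0 (sgb true) (sgb false) x :=
  strip_altBD (m := 1449551462) true rfl hκ (SH.κ0 hκ (SH.hx1 hx).le (SH.hx2 hx').le) (SH.hx1 hx).le (SH.hx2 hx') (covB01).cov (covB01).cov hx hx' c_B00pm_101_s1 H (noExt_B)

noncomputable def cut_B00pm_101_s3 : Cut := Cut.of [[⟨3, 0, 0, 2845415833⟩], [⟨0, 1, 0, 33554432⟩, ⟨1, 0, 0, 33554432⟩, ⟨2, 1, 0, 33554432⟩], [⟨0, 0, 1, 20971520⟩, ⟨1, 1, 2, 20971520⟩, ⟨2, 1, 0, 16777216⟩]]

noncomputable def xt_B00pm_101_s3 : Ext := strExt dd false true false .u0 .u0m .s0m .npn 1 0 1 rfl rfl gl0 vv ndB0q1 ndB0q1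

noncomputable def f_B00pm_101_s3 : ℕ → ℕ → ℕ → ℕ → Bool := onCell 536870912 536870912 536870912 536870912 858993459 64424510
    (rowF 0 false true false .npn 1 0 1 (qsf 536870912 536870912 536870912 536870912 0) ndB0q1 ndB0q1 pcB0 cut_B00pm_101_s3 xt_B00pm_101_s3)

def k0_B00pm_101_s3 : ∃ t, chk3 f_B00pm_101_s3 t 4 4 1 = true :=
  ⟨(b (a (l 4) (a (a (l 4) (l 1)) (l 1))) (a (b (a (l 4) (a (l 4) (b (l 4) (l 531104015)))) (a (c (l 532700687) (l 531558927)) (c (b (l 531862031) (l 532021263)) (b (l 530626831) (l 530835471))))) (b (b (a (c (l 531700751) (l 530287375)) (l 1)) (a (c (l 531818255) (l 530458127)) (c (l 532038927) (l 531143183)))) (a (c (b (l 531952399) (l 532097039)) (b (l 530644751) (l 530840591))) (c (b (l 532129551) (l 532243215)) (b (l 530747919) (l 530912783))))))), by decide +kernel⟩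

def k1_B00pm_101_s3 : ∃ t, chk3 f_B00pm_101_s3 t 4 10 1 = true :=
  ⟨(a (c (b (b (a (l 532134415) (l 532177935)) (a (a (c (l 532505359) (l 532018959)) (l 532291343)) (l 532328463))) (b (a (a (c (b (l 532560911) (l 532552719)) (b (l 532097551) (l 532118543))) (b (l 532383503) (l 532405775))) (a (l 532438799) (l 532477711))) (a (a (a (l 532256527) (l 533126671)) (b (l 532405007) (l 532388623))) (a (l 532477199) (l 532544015))))) (b (b (a (l 531061263) (l 531039503)) (a (a (c (l 531510031) (l 530984719)) (l 531244303)) (l 531234319))) (b (a (a (c (l 531646479) (l 531713551)) (b (l 531375119) (l 531457295))) (a (l 531418127) (l 531420943))) (a (a (a (l 531556367) (l 531563279)) (c (l 531778575) (l 531366159))) (a (l 531582991) (l 531593487)))))) (b (a (c (b (l 532247055) (l 532397583)) (b (l 531039759) (l 531236879))) (c (b (l 532372239) (l 532510991)) (b (l 531091983) (l 531278863)))) (b (a (c (a (l 532518415) (l 532564751)) (a (l 531426319) (l 531437071)))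 (c (a (l 532620815) (l 532690959)) (a (l 531456783) (l 531489039)))) (c (a (a (l 532605711) (l 532667919)) (a (l 532735247) (l 532812303))) (a (a (l 531605263) (l 531620623)) (a (l 531642383) (l 531674127))))))), by decide +kernel⟩

def k2_B00pm_101_s3 : ∃ t, chk3 f_B00pm_101_s3 t 4 22 1 = true :=
  ⟨(a (a (a (c (a (b (b (l 532185871) (l 532134415)) (c (l 532160015) (l 531975439))) (b (b (l 532264207) (l 532219663)) (c (l 532268047) (l 16691416)))) (b (c (l 531805967) (l 531569935)) (c (l 531842831) (l 531703311)))) (c (b (b (l 532629519) (c (l 16724000) (l 16717240))) (c (b (l 16711504) (l 16677664)) (l 532148495))) (b (b (l 531677455) (l 531737871)) (c (l 531913231) (l 531704847))))) (c (b (a (b (l 532468239) (l 532449551)) (b (l 16696848) (l 16685624))) (a (c (b (l 16653640) (l 16641208)) (l 532263183)) (c (l 532713743) (l 16662208)))) (b (a (c (l 531908367) (l 531552527)) (c (l 16673336) (l 16703368))) (a (c (l 16671480) (l 16663440)) (c (l 16608624)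 (l 16597560)))))) (a (c (b (a (b (l 16637304) (l 16626680)) (b (l 16620048) (l 16610104))) (a (c (l 16617824) (l 16602664)) (c (l 16603912) (l 16585480)))) (b (a (c (l 16609544) (l 16594344)) (l 532865039)) (a (c (l 16587800) (l 16573376)) (c (l 16567128) (l 16549008))))) (c (b (a (b (l 16603336) (l 16594120)) (b (l 16587432) (l 16578984))) (a (c (l 16590808) (l 16568880)) (l 16649888))) (b (a (l 532623631) (l 532658447)) (a (l 16619520) (l 16597432)))))), by decide +kernel⟩

def k3_B00pm_101_s3 : ∃ t, chk3 f_B00pm_101_s3 t 4 23 1 = true :=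
  ⟨(c (a (a (c (a (b (c (b (l 16681184) (l 16667104)) (b (l 16658040) (l 16644088))) (c (b (l 16652800) (l 16638440)) (b (l 16629920) (l 16615672)))) (b (b (l 532333327) (a (l 16633504) (l 16626008))) (c (b (l 16617480) (l 16603424)) (b (l 16614264) (l 16600296))))) (a (b (c (l 531990543) (l 531929103)) (b (l 16648608) (l 16655584))) (b (c (l 16663312) (l 16670944)) (b (l 16610064) (l 16596304))))) (b (a (c (b (l 16628384) (l 16615136)) (b (l 16619336) (l 16606328))) (c (b (l 16614048) (l 16601312)) (l 16595856))) (c (a (b (l 16601624) (l 16587968)) (b (l 16588296) (l 16575096))) (a (a (l 16590488) (l 16582232)) (l 16570208))))) (a (c (b (a (l 16636432) (l 16582128)) (a (b (l 16575952) (l 16563320)) (l 16558768))) (b (a (l 16579392) (l 16563552)) (a (l 16554824) (l 16540280)))) (b (a (c (l 16570768) (l 16548464)) (c (l 16560648) (l 16534320))) (a (c (l 16549144) (l 16526712)) (l 6))))) (a (a (a (b (c (l 532122639) (l 531785999)) (c (c (l 16661144)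 (l 16618632)) (l 531836943))) (b (c (l 531936783) (l 531801359)) (c (b (l 16605600) (l 16592256)) (l 16596016)))) (b (a (c (l 16646904) (l 16682016)) (c (l 16584944) (l 16575104))) (a (c (l 16621296) (l 16657688)) (c (l 16560168) (l 16551648))))) (a (b (a (c (l 16565176) (l 16551960)) (l 16600008)) (c (l 532772111) (l 531976207))) (b (a (l 16599856) (l 16495240)) (a (l 16579232) (l 6)))))), by decide +kernel⟩

def k4_B00pm_101_s3 : ∃ t, chk3 f_B00pm_101_s3 t 5 2 1 = true :=
  ⟨(b (a (b (l 1) (a (a (a (b (l 1) (b (l 1) (l 532013327))) (l 1)) (l 1)) (l 1))) (l 1)) (b (a (c (a (a (b (l 532586511) (b (l 532780303) (l 532904463))) (b (b (l 532681231) (l 532779535)) (b (l 532895759) (l 533017871)))) (b (b (l 1) (a (l 532949519) (l 1))) (b (a (l 533046031) (b (l 1) (l 16566528))) (a (l 533160207) (l 6))))) (a (a (b (l 532346383) (b (l 531539471) (l 531720463))) (b (b (l 531303951) (l 531450639)) (b (l 531613967) (l 531786767)))) (b (b (l 1) (a (l 531578127)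 (l 1))) (b (a (l 531720975) (b (l 1) (l 16486160))) (a (l 531879951) (l 6)))))) (a (b (l 1) (l 6)) (l 1))) (a (b (a (a (b (c (b (l 16572712) (l 16565064)) (l 16592768)) (c (l 16637304) (l 16492040))) (b (c (a (l 16559248) (l 16553496)) (b (l 16491096) (l 16483104))) (l 6))) (l 6)) (l 6)) (l 6)))), by decide +kernel⟩

def k5_B00pm_101_s3 : ∃ t, chk3 f_B00pm_101_s3 t 8 24 1 = true :=
  ⟨(a (c (a (c (b (c (b (l 16624024) (l 16609560)) (b (l 16601352) (l 16586960))) (b (c (l 16595056) (l 16572528)) (c (l 16559568) (l 16558072)))) (b (c (l 531889423) (l 531866639)) (b (l 16613008) (l 16598704)))) (b (c (b (c (l 16589272) (l 16586200)) (c (l 16575016) (l 16571992))) (b (l 16582384) (l 16568328))) (c (c (b (l 16560672) (l 16546248)) (b (l 16557688) (l 16543288))) (b (l 16554144) (l 16539856))))) (b (a (c (l 531851791) (l 16633928)) (c (c (l 16572560) (l 16613168)) (l 16569952))) (a (c (l 531855631) (l 16566216)) (c (l 16565032) (l 16543056))))) (c (b (c (a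 (b (l 16574168) (l 16602160)) (a (l 16557888) (l 16552064))) (a (b (l 16565976) (l 16552144)) (l 16543656))) (c (a (c (b (l 16548440) (l 16534200)) (l 16557744)) (a (l 16530136) (l 16524688))) (a (c (l 16532792) (l 16529360)) (l 16558072)))) (b (a (c (l 16594696) (l 16548208)) (c (l 16534248) (l 16526760))) (a (c (l 16525216) (l 16521496)) (c (l 16507160) (l 16500456)))))), by decide +kernel⟩

def k6_B00pm_101_s3 : ∃ t, chk3 f_B00pm_101_s3 t 8 25 1 = true :=
  ⟨(a (c (b (b (a (c (c (l 16545112) (l 16543664)) (l 16542504)) (c (c (l 16531816) (l 16528872)) (l 16525544))) (c (a (c (l 16530792) (l 16529392)) (c (l 16517456) (l 16514520))) (a (l 16528392) (l 16511304)))) (c (b (a (c (l 16516648) (l 16515312)) (c (l 16503200) (l 16500288))) (a (c (l 16502720) (l 16501448)) (c (l 16489088) (l 16486208)))) (a (c (l 16507648) (l 16507632)) (c (l 16532936) (l 16489480))))) (c (b (a (l 16577768) (l 16516040)) (a (l 16510640) (l 16488496))) (b (a (l 16539304)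 (l 16517560)) (a (l 16508888) (l 16490488))))) (c (b (c (a (c (b (l 16519888) (l 16505568)) (l 16550072)) (a (l 16501792) (l 6))) (a (b (l 16509656) (l 16495368)) (l 16529784))) (a (b (c (l 16509864) (l 16481120)) (l 6)) (l 6))) (b (a (c (l 16497128) (l 16494216)) (c (l 16479208) (l 16473208))) (a (c (l 16469168) (l 16469416)) (l 6))))), by decide +kernel⟩

def k7_B00pm_101_s3 : ∃ t, chk3 f_B00pm_101_s3 t 9 12 1 = true :=
  ⟨(a (b (a (c (b (c (b (l 16550464) (l 16537376)) (l 16529208)) (c (c (l 16542272) (l 16513312)) (l 16502432))) (b (c (l 16516392) (l 16505576)) (c (l 16489984) (l 16479952)))) (b (b (c (l 16614968) (l 16497704)) (l 6)) (l 6))) (l 6)) (l 6)), by decide +kernel⟩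

def k8_B00pm_101_s3 : ∃ t, chk3 f_B00pm_101_s3 t 4 13 1 = true :=
  ⟨(a (a (a (b (b (c (c (b (a (l 16534200) (l 16484536)) (c (l 16475632) (l 16474544))) (b (l 16487424) (l 16474400))) (c (l 16483736) (b (l 16484128) (l 16466696)))) (l 6)) (l 6)) (l 6)) (l 6)) (l 6)), by decide +kernel⟩

def k9_B00pm_101_s3 : ∃ t, chk3 f_B00pm_101_s3 t 4 7 1 = true :=
  ⟨(l 6), by decide +kernel⟩

def k10_B00pm_101_s3 : ∃ t, chk3 f_B00pm_101_s3 t 5 3 1 = true :=
  ⟨(b (l 6) (l 6)), by decide +kernel⟩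

def k11_B00pm_101_s3 : ∃ t, chk3 f_B00pm_101_s3 t 3 1 1 = true :=
  ⟨(b (a (b (l 1) (l 6)) (l 1)) (l 6)), by decide +kernel⟩

theorem t12_B00pm_101_s3 : ∃ t, chk3 f_B00pm_101_s3 t 8 12 1 = true := ex3_b k5_B00pm_101_s3 k6_B00pm_101_s3

theorem t13_B00pm_101_s3 : ∃ t, chk3 f_B00pm_101_s3 t 4 12 1 = true := ex3_a t12_B00pm_101_s3 k7_B00pm_101_s3

theorem t14_B00pm_101_s3 : ∃ t, chk3 f_B00pm_101_s3 t 4 6 1 = true := ex3_b t13_B00pm_101_s3 k8_B00pm_101_s3

theorem t15_B00pm_101_s3 : ∃ t, chk3 f_B00pm_101_s3 t 4 3 1 = true := ex3_b t14_B00pm_101_s3 k9_B00pm_101_s3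

theorem t16_B00pm_101_s3 : ∃ t, chk3 f_B00pm_101_s3 t 2 3 1 = true := ex3_a t15_B00pm_101_s3 k10_B00pm_101_s3

theorem t17_B00pm_101_s3 : ∃ t, chk3 f_B00pm_101_s3 t 4 11 1 = true := ex3_b k2_B00pm_101_s3 k3_B00pm_101_s3

theorem t18_B00pm_101_s3 : ∃ t, chk3 f_B00pm_101_s3 t 4 5 1 = true := ex3_b k1_B00pm_101_s3 t17_B00pm_101_s3

theorem t19_B00pm_101_s3 : ∃ t, chk3 f_B00pm_101_s3 t 4 2 1 = true := ex3_b k0_B00pm_101_s3 t18_B00pm_101_s3

theorem t20_B00pm_101_s3 : ∃ t, chk3 f_B00pm_101_s3 t 2 2 1 = true := ex3_a t19_B00pm_101_s3 k4_B00pm_101_s3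

theorem t21_B00pm_101_s3 : ∃ t, chk3 f_B00pm_101_s3 t 2 1 1 = true := ex3_b t20_B00pm_101_s3 t16_B00pm_101_s3

theorem t22_B00pm_101_s3 : ∃ t, chk3 f_B00pm_101_s3 t 1 1 1 = true := ex3_a t21_B00pm_101_s3 k11_B00pm_101_s3

theorem c_B00pm_101_s3 : CertF 536870912 536870912 536870912 536870912 858993459 64424510 false true false .npn 1 0 1
    ndB0q1 ndB0q1 pcB0 cut_B00pm_101_s3 xt_B00pm_101_s3 :=
  certF0 (fam := false) (s1 := true) (s2 := false) (a := 1) (b := 0) (c := 1) (cn := .npn) (n1 := ndB0q1) (n2 := ndB0q1) (pc := pcB0) (cut := cut_B00pm_101_s3) (xt := xt_B00pm_101_s3) (P1 := 536870912) (W1 := 536870912) (P2 := 536870912) (W2 := 536870912) (P3 := 858993459) (W3 := 64424510)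
    rfl t22_B00pm_101_s3

theorem s_B00pm_101_s3 {κ x : ℝ} (hκ : κ * h0 = ken x) (hx : ((858993459 : ℕ) : ℝ) / S ≤ x)
    (hx' : x ≤ (((858993459 : ℕ) : ℝ) + (64424510 : ℕ)) / S)
    (H : CutB (VFD κ) PP tK tL pcB (Cut.of [[⟨0, 1, 0, 33554432⟩, ⟨1, 0, 0, 33554432⟩, ⟨2, 1, 0, 33554432⟩], [⟨0, 0, 1, 20971520⟩, ⟨1, 1, 2, 20971520⟩, ⟨2, 1, 0, 16777216⟩]]) 1 0 1 0 0 (sgb true) (sgb false) x) :
    AltB (VFD κ) PP tK tL pcB [⟨4, 0, 0, 2845415833⟩] 1 0 1 0 0 (sgb true) (sgb false) x :=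
  strip_altBD (m := 2845415833) false rfl hκ (SH.κ0 hκ (SH.hx1 hx).le (SH.hx2 hx').le) (SH.hx1 hx).le (SH.hx2 hx') (covB01).cov (covB01).cov hx hx' c_B00pm_101_s3 H ((okx hx hx').extB (T := tt) (sideB hx hx') hκ rfl rfl (.O 1 true) (.O 1 false) (Or.inl rfl))

end Pool.Agent.Strip051.G.I8000_8600.Tab.St.C
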