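import Pool.Agent.Strip051.G.I8000_8600.StH
import Pool.Agent.Strip051.G.I8000_8600.StF

/-! # Unit strips 18 (generated) -/

set_option linter.all false
set_option maxRecDepth 100000

namespace Pool.Agent.Strip051.G.I8000_8600.Tab.St.C

open Pool.Agent.Strip051.PB Pool.Agent.Strip051.PB.T Pool.Agent.StripNear Pool.Agent.Strip051.LC
open Pool.Agent.Strip051.G.I8000_8600.Tab Pool.Agent.Strip051.G.I8000_8600.Tab.St

noncomputable def cut_B00pm_102_s1 : Cut := Cut.of [[⟨4, 0, 0, 1449551462⟩], [⟨0, 1, 0, 67108864⟩, ⟨1, 0, 0, 67108864⟩, ⟨2, 1, 0, 67108864⟩], [⟨0, 0, 1, 20971520⟩, ⟨1, 1, 2, 20971520⟩, ⟨2, 1, 0, 16777216⟩]]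

noncomputable def xt_B00pm_102_s1 : Ext := strExt dd false true false .u0 .u2 .u0m .npp 1 0 2 rfl rfl gf0 vv ndB0q1 ndB0q2

noncomputable def f_B00pm_102_s1 : ℕ → ℕ → ℕ → ℕ → Bool := onCell 0 536870912 0 536870912 858993459 64424510
    (rowF 2 false true false .npp 1 0 2 (qsf 536870912 536870912 0 536870912 0) ndB0q1 ndB0q2 pcB0 cut_B00pm_102_s1 xt_B00pm_102_s1)

def k0_B00pm_102_s1 : ∃ t, chk3 f_B00pm_102_s1 t 2 2 1 = true :=
  ⟨(a (l 3) (l 3)), by decide +kernel⟩

def k1_B00pm_102_s1 : ∃ t, chk3 f_B00pm_102_s1 t 4 6 1 = true :=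
  ⟨(l 3), by decide +kernel⟩

def k2_B00pm_102_s1 : ∃ t, chk3 f_B00pm_102_s1 t 8 7 1 = true :=
  ⟨(b (l 3) (b (a (l 3) (a (l 14) (a (l 14) (a (l 14) (a (l 14) (a (l 14) (b (b (l 3) (b (l 3) (l 537246991))) (b (b (b (l 537798159) (l 537809423)) (l 537828111)) (b (l 537581583) (l 537603599)))))))))) (a (l 14) (b (c (a (l 14) (a (l 14) (a (l 14) (a (l 14) (a (l 14) (b (b (l 16778792) (l 16797248)) (l 16813400))))))) (a (l 14) (a (l 14) (a (l 14) (a (l 14) (b (b (b (l 16786816) (b (l 16787920) (l 16789192))) (l 16775024)) (l 16792152))))))) (a (l 14) (a (l 14) (a (l 14) (a (l 14) (a (l 14) (a (l 14) (c (b (l 16814704) (l 16804920)) (b (l 16801424) (c (l 16801344) (b (l 16809760) (c (l 16809560) (b (l 16808384) (l 16807856))))))))))))))))), by decide +kernel⟩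

def k3_B00pm_102_s1 : ∃ t, chk3 f_B00pm_102_s1 t 18 14 1 = true :=
  ⟨(b (l 3) (a (l 3) (b (l 3) (a (a (b (l 3) (b (l 3) (a (l 3) (l 537931023)))) (b (l 3) (b (l 3) (a (l 537962511) (l 537995279))))) (a (b (l 3) (b (a (l 537996303) (l 538031119)) (c (l 538118671) (l 537980943)))) (b (b (l 3) (l 537517327)) (c (l 537900815) (b (l 538027023) (l 538068751))))))))), by decide +kernel⟩

def k4_B00pm_102_s1 : ∃ t, chk3 f_B00pm_102_s1 t 36 30 1 = true :=
  ⟨(b (a (b (l 3) (b (a (l 3) (a (b (l 3) (l 537290767)) (l 537580047))) (a (a (c (l 537634831) (b (l 537685263) (l 537704975))) (c (l 537652495) (b (l 537712655) (l 537732879)))) (a (c (l 537941775) (l 537752591)) (c (l 537962767) (l 537781775)))))) (b (b (a (l 3) (a (l 3) (l 537901327))) (a (a (b (l 3) (l 537851919)) (l 537873935)) (a (l 537901327) (l 537930255)))) (b (a (a (l 537605647) (l 537901071)) (a (l 537929231) (l 537958927))) (a (a (b (l 537891343) (l 537636111)) (l 537659407)) (a (l 537688591) (l 537987343)))))) (a (b (a (c (b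 (a (l 537910799) (l 537932047)) (a (l 537920783) (l 16777600))) (b (a (b (l 537724687) (l 537474831)) (l 537762319)) (a (l 537773327) (l 537798927)))) (c (b (b (l 537964559) (l 537970703)) (c (l 16784720) (l 16784280))) (b (a (l 537789455) (l 537818639)) (c (l 16783832) (l 16772888))))) (a (c (b (c (l 16785096) (l 16784672)) (l 16787520)) (b (c (l 16784240) (l 16783800)) (l 16781360))) (c (b (l 16787208) (b (l 16789288) (l 16780696))) (b (l 16780968) (a (l 16788376) (b (l 16788912) (l 16785624))))))) (b (c (a (b (l 537748239) (l 16776376)) (c (l 16777728) (l 16777216))) (a (b (c (l 16772952) (l 16777744)) (l 16780600)) (b (c (l 16785752) (l 16785248)) (l 16777888)))) (a (c (b (l 16789728) (b (l 16792360) (c (l 16774744) (l 16784816)))) (b (l 16788680) (b (a (l 16790232) (l 16786824)) (a (b (l 16791840) (l 16794160)) (l 16775400))))) (b (c (l 16782384) (a (l 16790720) (b (l 16791376) (l 16793376)))) (b (c (a (l 16784664) (l 16798312)) (a (b (l 16793096) (l 16795256)) (l 16787112))) (c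 (l 16761296) (l 16781848)))))))), by decide +kernel⟩

def k5_B00pm_102_s1 : ∃ t, chk3 f_B00pm_102_s1 t 37 30 1 = true :=
  ⟨(b (a (b (c (a (b (l 538037519) (l 538059023)) (b (l 538088463) (l 538112015))) (a (b (l 537593103) (l 537630991)) (b (l 537938191) (l 537977615)))) (c (a (b (l 538080527) (l 538101263)) (b (l 538135311) (l 16778240))) (a (b (l 537668879) (l 537438735)) (b (l 538016783) (l 537787919))))) (b (c (a (l 537625359) (b (l 538206479) (l 16777424))) (a (b (l 538021391) (l 538061839)) (b (l 538110479) (l 538152207)))) (c (a (c (l 16779688) (l 16779280)) (c (l 16772248) (l 16771904))) (a (b (l 538102543) (l 16780304)) (c (l 16771576) (l 16781736)))))) (b (a (c (c (b (l 16769776) (l 16773296)) (a (l 16769432) (l 16772672))) (c (a (l 16779408) (l 16782712)) (a (l 16778896) (b (l 16790760) (l 16794448))))) (a (c (b (l 16795024) (b (l 16797792) (a (l 16788936) (l 16781520)))) (b (l 16794256) (b (l 16797144) (a (b (l 16797640) (c (l 16799632) (l 16799392))) (b (c (l 16800464)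 (l 16800272)) (l 16804136)))))) (b (c (l 16798400) (l 16797896)) (c (b (a (l 16801048) (l 16793584)) (l 16767768)) (b (a (b (l 16799408) (c (l 16801328) (l 16790704))) (b (c (l 16802216) (l 16791648)) (l 16805808))) (l 16788840)))))) (a (b (c (a (b (l 16794920) (a (l 16785992) (l 16778632))) (b (a (l 16787416) (l 16780016)) (l 16764464))) (a (b (c (l 16794232) (l 16793792)) (a (b (l 16794480) (l 16796504)) (b (l 16786704) (l 16800984)))) (b (a (b (l 16795992) (l 16787432)) (c (l 16779624) (l 16789872))) (l 16785208)))) (c (a (l 16766480) (l 16773896)) (a (l 16787320) (l 16772880)))) (c (b (c (l 16775080) (l 16775280)) (l 16769632)) (b (a (l 16791248) (l 16793648)) (b (l 16790208) (l 16786752))))))), by decide +kernel⟩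

def k6_B00pm_102_s1 : ∃ t, chk3 f_B00pm_102_s1 t 36 62 1 = true :=
  ⟨(b (a (a (b (a (b (c (l 16788984) (l 16788112)) (c (l 16791632) (b (l 16789720) (l 16792232)))) (b (c (l 16790672) (l 16784544)) (l 16784032))) (c (l 16759568) (l 16780360))) (c (b (a (b (l 16792736) (l 16798368)) (l 16757080)) (l 16809240)) (b (b (a (b (l 16790720) (l 16793200)) (l 16795272)) (l 16757848)) (l 16767464)))) (c (b (l 16788160) (l 16771392)) (b (a (l 16783712) (l 16771824)) (l 16791064)))) (a (a (c (l 16793216) (a (l 16792200) (l 16812552))) (c (l 16812976) (l 16800664))) (c (c (l 16768192) (l 16787808)) (a (l 16787408) (l 16783760))))), by decide +kernel⟩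

def k7_B00pm_102_s1 : ∃ t, chk3 f_B00pm_102_s1 t 36 63 1 = true :=
  ⟨(a (b (c (a (c (l 16814400) (l 16812896)) (l 16800176)) (c (a (l 16800832) (l 16807808)) (a (b (l 16810376) (l 16808944)) (b (l 16807048) (l 16804608))))) (c (a (b (l 16813432) (a (l 16814592) (l 16812208))) (b (l 16788184) (l 16797792))) (c (a (b (l 16809944) (c (l 16809856) (l 16803128))) (b (l 16805064) (c (l 16804168) (l 16791984)))) (b (a (c (l 16808104) (l 16806848)) (c (l 16802928) (l 16801472))) (c (a (a (l 16803008) (l 16794920)) (b (l 16801272) (l 16794960))) (a (b (a (l 16807088) (l 16804248)) (a (b (l 16806592) (a (l 16807016) (l 16805504))) (c (l 16803776) (b (l 16803160) (l 16802688))))) (b (a (l 16801184) (l 16797936)) (a (a (l 16800912) (l 16799224)) (a (l 16797496) (l 16795720)))))))))) (b (c (a (l 16785888) (l 16802256)) (a (c (l 16803424) (b (l 16802712) (l 16799376))) (b (l 16798752) (c (l 16796432) (l 16793320))))) (b (c (c (l 16781968) (l 16799648)) (a (c (l 16799368) (b (l 16796880) (l 16784784)))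 (c (l 16792976) (c (l 16790184) (l 16767304))))) (c (c (l 16790728) (a (l 16800616) (l 16793912))) (c (a (b (l 16797448) (l 16785720)) (b (l 16790472) (l 16778360))) (a (c (b (l 16794640) (l 16787920)) (b (l 16787480) (b (a (l 16793352) (l 16789592)) (a (l 16792592) (l 16788728))))) (b (c (l 16787312) (l 16774672)) (b (a (l 16786768) (l 16782736)) (c (l 16784976) (a (l 16784696) (l 16780504))))))))))), by decide +kernel⟩

def k8_B00pm_102_s1 : ∃ t, chk3 f_B00pm_102_s1 t 37 31 1 = true :=
  ⟨(b (a (a (b (c (l 16811728) (l 16788960)) (c (l 16804168) (l 16779248))) (b (c (l 16808752) (l 16785248)) (c (l 16799656) (l 16794872)))) (c (b (c (l 16761864) (l 16760032)) (l 16770776)) (a (b (l 16780704) (l 16788888)) (b (l 16775496) (l 16782264))))) (b (c (a (a (l 16797008) (l 16791112)) (a (l 16763632) (l 16756528))) (a (a (c (l 16792296) (l 16768080)) (b (l 16786592) (l 16760224))) (a (c (l 16778520) (l 16774360)) (c (l 16770720) (l 16766088))))) (c (a (b (c (l 16790704) (l 16776000)) (c (l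 16777040) (a (l 16786584) (l 16778664)))) (b (c (l 16755096) (l 16760408)) (c (l 16761072) (a (l 16770160) (l 16761120))))) (b (a (a (c (l 16785928) (l 16771232)) (c (l 16778248) (l 16763072))) (c (b (l 16746120) (l 16753632)) (a (l 16743832) (l 16734512)))) (c (a (a (b (l 16782856) (l 16770360)) (b (l 16774624) (l 16761768))) (a (c (l 16765888) (l 16752504)) (b (l 16756448) (l 16737664)))) (b (a (a (l 16772896) (a (l 16771664) (l 16767160))) (a (l 16749648) (l 16739808))) (a (a (c (l 16766592) (a (l 16776728) (l 16772272))) (c (l 16757624) (a (l 16767664) (l 16762920)))) (a (c (l 16748096) (a (l 16758032) (l 16753008))) (c (l 16738040) (a (l 16747856) (l 16742584))))))))))), by decide +kernel⟩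

def k9_B00pm_102_s1 : ∃ t, chk3 f_B00pm_102_s1 t 19 14 1 = true :=
  ⟨(b (a (l 3) (b (l 3) (b (l 3) (b (l 3) (a (l 3) (a (l 3) (l 538481167))))))) (a (b (b (l 3) (b (a (l 3) (a (l 3) (c (l 538292239) (l 538244623)))) (a (a (l 3) (l 3)) (a (c (l 538254095) (l 538185231)) (c (l 538329615) (l 538291215)))))) (b (b (a (a (l 537825039) (l 537905167)) (a (c (l 538289167) (l 538230799)) (c (l 538365967) (l 538068751)))) (a (a (l 537861647) (c (l 538250511) (l 538173455))) (a (c (l 538323727) (l 538276111)) (c (l 538399247) (l 537843215))))) (b (a (a (c (l 538213647) (l 538119439)) (c (l 538283023) (l 538217487))) (a (c (l 538358031) (l 538321167)) (c (l 16779176) (l 538157071)))) (a (a (c (l 538243855) (l 538162191)) (c (l 538315023) (l 538261775))) (a (c (l 16779640) (l 538096911)) (c (l 16772440) (l 16782936))))))) (b (a (a (b (b (l 3) (l 538318863)) (c (b (l 538372111) (l 538143503)) (b (l 538086671) (a (l 538371855) (l 538425359))))) (b (c (l 538403855) (b (l 538115087) (l 538423055)))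 (c (b (l 538460175) (l 538225679)) (b (l 538472719) (l 538513935))))) (a (c (b (l 538481935) (l 538249743)) (b (b (l 538512911) (l 538229519)) (c (l 538278415) (l 538302479)))) (b (c (l 538474511) (b (l 538513423) (l 538525199))) (c (l 538507535) (b (l 538549775) (l 16780632)))))) (b (a (a (c (b (l 538443023) (l 16778696)) (b (l 538174223) (l 538213135))) (c (l 538252303) (c (l 16780176) (l 538291215)))) (c (a (l 538300943) (l 16775408)) (a (c (l 16773120) (l 538368783)) (c (l 16754992) (l 16776408))))) (a (a (c (l 16784384) (c (l 16774056) (l 16774208))) (c (l 16777328) (c (l 16756752) (l 16778056)))) (c (c (l 16781960) (l 16782432)) (a (c (l 16760528) (l 16761056)) (c (l 16805352) (l 16764120))))))))), by decide +kernel⟩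

def k10_B00pm_102_s1 : ∃ t, chk3 f_B00pm_102_s1 t 38 30 1 = true :=
  ⟨(b (b (a (c (a (c (l 16778872) (l 16778608)) (c (l 16771480) (l 16771288))) (a (b (l 538205199) (l 538248207)) (c (l 16781600) (l 16781440)))) (a (c (c (l 16774744) (l 16774664)) (c (l 16774616) (l 16774600))) (c (l 16778240) (c (l 16757424) (l 16778552))))) (c (a (a (l 16785856) (l 16778896)) (b (l 16782400) (a (a (l 16784144) (b (l 16805416) (l 16798448))) (b (c (l 16788408) (l 16799224)) (l 16794872))))) (b (a (c (l 16774960) (l 16785296)) (c (l 16761664) (l 16782864))) (a (c (l 16778816) (l 16789232)) (b (a (l 16804800) (a (c (l 16808224) (l 16787656)) (b (l 16799464) (a (l 16800768) (l 16772000))))) (a (c (a (l 16806320) (b (l 16807784) (l 16810576))) (a (l 16796080) (b (l 16808128) (l 16790016)))) (c (l 16795672) (a (l 16803824) (l 16778152))))))))) (c (a (b (b (a (a (l 16791312) (b (l 16801936) (l 16795184))) (b (a (l 16804392) (l 16796808)) (l 16770872))) (c (l 16776744) (l 16775944))) (c (l 16766032) (l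 16785432))) (b (a (c (l 16775648) (l 16795472)) (l 16770496)) (c (l 16756584) (l 16754184)))) (b (a (b (b (a (l 16800808) (a (b (l 16803312) (c (l 16804952) (l 16794584))) (b (c (l 16805888) (l 16806072)) (l 16788080)))) (a (a (b (l 16801312) (c (l 16803120) (l 16792608))) (b (c (l 16804032) (l 16793584)) (l 16786440))) (c (l 16771272) (l 16792576)))) (a (c (l 16774160) (l 16774480)) (l 16793440))) (a (b (c (l 16798816) (a (l 16796400) (l 16775416))) (l 16788632)) (c (l 16768096) (l 16787392)))) (a (c (b (l 16766896) (l 16800760)) (b (l 16786480) (l 16756896))) (c (c (l 16752344) (l 16751104)) (b (l 16775152) (l 16786216))))))), by decide +kernel⟩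

def k11_B00pm_102_s1 : ∃ t, chk3 f_B00pm_102_s1 t 39 60 1 = true :=
  ⟨(b (c (a (b (l 16781640) (l 16764808)) (b (l 16809464) (a (b (l 16811368) (a (l 16812744) (a (b (l 16813568) (l 16794328)) (l 16815760)))) (b (l 16793496) (l 16799784))))) (a (c (l 16784304) (b (l 16782536) (l 16787008))) (b (a (l 16788488) (l 16791472)) (a (b (l 16770992) (a (l 16814376) (a (a (l 16795024) (b (l 16815608) (b (l 16795648) (l 16776072)))) (c (l 16775232) (l 16797288))))) (b (c (l 16794936) (a (l 16815848) (b (l 16816520) (l 16797680)))) (c (l 16801432) (a (b (l 16797744) (l 16739392)) (l 16739832)))))))) (c (a (b (a (a (l 16808416) (b (l 16808920) (l 16791296))) (b (a (l 16811096) (l 16792976)) (c (l 16776584) (l 16798320)))) (a (a (l 16798448) (l 16737280)) (l 16775712))) (a (b (a (c (l 16780176) (l 16802072)) (l 16738696)) (l 16770648)) (l 16793840))) (a (b (a (b (l 16808896) (b (c (l 16810600) (l 16790248)) (a (l 16800472) (c (l 16772120) (c (l 16793640) (l 16804520)))))) (b (a (l 16791432) (b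 (l 16813968) (a (a (l 16814560) (l 16794480)) (l 16796336)))) (a (c (l 16796288) (b (c (l 16794608) (l 16805528)) (l 16820808))) (l 16779520)))) (b (a (c (l 16797424) (a (a (b (l 16791544) (l 16817376)) (l 16775792)) (l 16736480))) (l 16775120)) (c (l 16773104) (l 16792360)))) (b (a (a (b (b (c (l 16816800) (a (l 16795624) (l 16776784))) (l 16780152)) (l 16776736)) (l 16798040)) (l 16795392)) (a (c (l 16809440) (l 16765288)) (l 16783288)))))), by decide +kernel⟩

def k12_B00pm_102_s1 : ∃ t, chk3 f_B00pm_102_s1 t 39 61 1 = true :=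
  ⟨(b (a (c (c (l 16764016) (l 16782816)) (c (a (l 16762584) (l 16756504)) (a (l 16781456) (l 16774968)))) (c (a (l 16775256) (l 16750672)) (a (c (l 16750048) (l 16768120)) (c (l 16787856) (l 16742656))))) (a (c (b (l 16748128) (l 16738368)) (c (c (l 16739152) (l 16737496)) (b (l 16761520) (l 16771360)))) (a (c (b (l 16780096) (l 16727512)) (c (l 16768952) (l 16744056))) (c (l 16749824) (c (l 16764472) (l 16760200)))))), by decide +kernel⟩

def k13_B00pm_102_s1 : ∃ t, chk3 f_B00pm_102_s1 t 38 31 1 = true :=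
  ⟨(b (b (a (a (c (l 16795632) (l 16769632)) (c (l 16790016) (l 16763144))) (c (c (l 16782344) (l 16736848)) (c (l 16754216) (a (l 16775320) (l 16767512))))) (c (a (a (l 16782472) (l 16775560)) (a (l 16768104) (l 16718128))) (a (a (l 16754056) (l 16746240)) (c (a (l 16761208) (l 16752528)) (a (l 16756528) (l 16747424)))))) (a (c (b (a (l 16727888) (l 16719680)) (c (a (l 16739856) (l 16730472)) (b (l 16742592) (a (l 16751512) (l 16741328))))) (b (a (c (l 16762352) (l 16757256)) (c (l 16753464) (l 16747920))) (a (b (c (l 16751760) (l 16724680)) (c (b (l 16746568) (l 16727416)) (b (l 16729464) (c (l 16727456) (a (l 16737184) (l 16731656)))))) (b (c (l 16741832) (l 16714312)) (c (b (l 16736120) (l 16732336)) (b (l 16729072) (b (l 16715488) (c (l 16725800) (l 16722032))))))))) (b (c (a (c (l 16755712) (l 16707960)) (c (l 16704592) (l 16698352))) (a (c (l 16744008) (l 16717056)) (c (l 16713016) (b (l 16732544) (l 16680736))))) (c (a (b (l 16720640) (c (l 16737920) (l 16709536))) (b (c (l 16734672)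 (l 16685552)) (c (l 16695400) (c (l 16700040) (l 16696120))))) (a (b (c (l 16731344) (l 16703408)) (b (c (l 16725072) (l 16696640)) (c (l 16720920) (c (l 16715088) (l 16700680))))) (b (c (l 16699264) (b (l 16673384) (l 16689480))) (c (a (l 16693208) (b (l 16710416) (l 16705808))) (a (b (l 16708656) (l 16682936)) (c (l 16681104) (l 16687536)))))))))), by decide +kernel⟩

def k14_B00pm_102_s1 : ∃ t, chk3 f_B00pm_102_s1 t 39 62 1 = true :=
  ⟨(a (c (b (a (l 16769760) (c (l 16764120) (l 16759536))) (a (a (l 16711728) (l 16707248)) (c (l 16703112) (l 16697328)))) (b (c (a (l 16763424) (l 16754904)) (a (l 16759144) (l 16708288))) (a (c (l 16743296) (l 16695856)) (c (l 16691512) (l 16706624))))) (b (a (c (a (l 16713584) (l 16709640)) (a (l 16724736) (c (l 16743968) (l 16738856)))) (c (c (l 16709848) (l 16704560)) (b (l 16744448) (l 16711576)))) (a (c (a (l 16713816) (c (l 16691408) (l 16706168))) (a (c (l 16725680) (l 16719576)) (c (l 16720912) (l 16693680)))) (c (b (l 16712032) (a (l 16723016)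 (l 16700464))) (c (a (l 16676856) (l 16675088)) (b (l 16675624) (l 16684456))))))), by decide +kernel⟩

def k15_B00pm_102_s1 : ∃ t, chk3 f_B00pm_102_s1 t 39 126 1 = true :=
  ⟨(a (c (a (b (l 16716888) (b (l 16689160) (l 16705656))) (b (c (l 16730848) (l 16724160)) (c (l 16679488) (l 16693176)))) (a (c (b (l 16728312) (l 16697424)) (b (l 16679936) (l 16690368))) (c (b (l 16675496) (l 16685848)) (b (l 16689704) (b (l 16681280) (l 16675688)))))) (a (c (a (b (l 16698352) (c (l 16712824) (l 16705304))) (a (c (l 16692544) (l 16685208)) (c (l 16690952) (l 16683544)))) (a (c (b (l 16708896) (l 16676792)) (b (l 16701920) (l 16669232))) (c (b (l 16682720) (a (l 16693128) (l 16691360))) (b (l 16675600) (a (l 16664504) (l 16683648)))))) (c (b (a (l 16691368) (c (l 16714384) (l 16707040))) (a (c (l 16705592) (l 16697800)) (c (l 16703968) (l 16696064)))) (c (b (l 16690160) (a (l 16669024) (l 16667176))) (b (b (l 16675376) (l 16669336)) (a (l 16671696) (l 16669736))))))), by decide +kernel⟩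

def k16_B00pm_102_s1 : ∃ t, chk3 f_B00pm_102_s1 t 78 127 2 = true :=
  ⟨(a (b (c (l 16692240) (l 16695176)) (c (c (l 16685696) (a (l 16716112) (l 16710032))) (c (a (l 16712072) (l 16705920)) (b (l 16707248) (l 16681624))))) (b (c (a (l 16715032) (l 16709048)) (b (l 16685696) (l 16680720))) (c (a (b (l 16708168) (l 16703608)) (b (l 16701896) (c (l 16699312) (l 16694984)))) (b (a (l 16699928) (c (l 16695608) (l 16691408))) (a (c (l 16697208) (l 16692936)) (c (l 16690648) (b (l 16687576) (l 16685024)))))))), by decide +kernel⟩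

def k17_B00pm_102_s1 : ∃ t, chk3 f_B00pm_102_s1 t 78 127 3 = true :=
  ⟨(b (c (a (b (l 16690024) (l 16685112)) (b (l 16677920) (c (l 16674672) (l 16670632)))) (a (b (l 16682496) (c (l 16679240) (l 16675312))) (b (b (l 16671496) (l 16679200)) (c (l 16677064) (l 16673000))))) (a (a (c (c (l 16682976) (l 16678888)) (b (l 16680504) (c (l 16672272) (l 16678552)))) (c (b (l 16677064) (c (l 16695192) (b (l 16692208) (l 16689696)))) (c (b (l 16691888) (c (l 16666792) (l 16669904))) (b (l 16687768) (b (a (l 16685416) (l 16682096)) (c (l 16666440) (l 16669528))))))) (b (a (c (c (l 16693712) (l 16689552)) (c (l 16664408) (l 16670712))) (c (c (l 16687192) (l 16662008)) (c (b (l 16680136) (l 16677360)) (l 16664024)))) (c (c (a (b (l 16689904) (l 16687376)) (b (l 16683256) (a (l 16682336) (l 16678928)))) (b (a (l 16685640) (l 16673688)) (a (a (l 16684712) (l 16681344)) (a (l 16677952) (c (l 16675616) (l 16673416)))))) (c (b (a (l 16665632) (a (l 16676296) (l 16672880))) (a (a (l 16680376) (a (l 16677832)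 (l 16676128))) (a (c (l 16674656) (l 16672456)) (c (l 16671200) (b (l 16669696) (l 16668296)))))) (c (a (b (l 16678136) (a (l 16677112) (l 16673696))) (b (a (l 16673048) (l 16669616)) (a (b (l 16670952) (l 16669552)) (b (l 16667488) (a (l 16666944) (l 16665192)))))) (a (b (l 16675992) (a (l 16674928) (a (l 16672368) (l 16670640)))) (b (l 16658672) (b (a (l 16668760) (l 16665280)) (b (a (l 16667696) (l 16664208)) (a (c (l 16667544) (l 16666432)) (c (l 16664048) (a (l 16663808) (l 16662048)))))))))))))), by decide +kernel⟩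

def k18_B00pm_102_s1 : ∃ t, chk3 f_B00pm_102_s1 t 79 254 1 = true :=
  ⟨(c (a (a (c (b (l 16705368) (l 16700408)) (b (l 16697416) (l 16692176))) (c (a (b (l 16700728) (l 16695632)) (l 16696456)) (a (b (l 16692680) (l 16676808)) (b (l 16690912) (l 16685488))))) (c (a (b (l 16697824) (l 16692664)) (b (l 16696176) (l 16690992))) (a (c (l 16688992) (l 16663848)) (c (l 16682000) (l 16662040))))) (a (a (c (c (l 16667736) (l 16663672)) (c (l 16670096) (l 16666016))) (c (a (c (l 16662864) (l 16658760)) (b (l 16682792) (l 16677088))) (c (a (l 16665144) (l 16673736)) (a (l 16661032) (l 16648632))))) (c (a (c (l 16659672) (l 16660736)) (c (l 16657808) (l 16658824))) (a (b (l 16662704) (c (l 16669328) (l 16654592))) (b (l 16660712) (c (l 16667352) (l 16642072))))))), by decide +kernel⟩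

def k19_B00pm_102_s1 : ∃ t, chk3 f_B00pm_102_s1 t 158 255 2 = true :=
  ⟨(a (c (b (l 16695456) (c (l 16692712) (l 16688312))) (a (b (l 16688600) (c (l 16685616) (l 16681224))) (b (l 16685272) (c (l 16682208) (l 16677792))))) (c (c (a (b (l 16692688) (l 16687672)) (l 16688384)) (a (b (l 16688384) (b (l 16684520) (l 16676696))) (b (l 16686576) (l 16681384)))) (c (a (b (l 16684080) (b (l 16680112) (a (l 16678320) (l 16676616)))) (b (l 16682248) (l 16676912))) (a (a (b (l 16680608) (l 16675200)) (b (l 16678944) (a (l 16673896) (a (l 16673240) (l 16672952))))) (b (l 16677912) (b (l 16673808) (l 16671072))))))), by decide +kernel⟩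

def k20_B00pm_102_s1 : ∃ t, chk3 f_B00pm_102_s1 t 158 510 3 = true :=
  ⟨(a (c (c (l 16680536) (b (l 16677656) (l 16674872))) (c (b (l 16673416) (l 16670552)) (b (l 16669160) (l 16655752)))) (c (a (c (a (l 16676304) (l 16674624)) (b (l 16672584) (a (l 16670576) (l 16668880)))) (c (l 16673576) (l 16669240))) (a (a (c (l 16667688) (l 16663384)) (c (a (l 16666392) (l 16665600)) (l 16651192))) (c (l 16664896) (l 16650072))))), by decide +kernel⟩

def k21_B00pm_102_s1 : ∃ t, chk3 f_B00pm_102_s1 t 158 1022 3 = true :=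
  ⟨(a (a (c (c (l 16678176) (l 16673808)) (c (l 16669440) (c (l 16666152) (l 16663960)))) (c (c (l 16674744) (l 16670352)) (c (l 16665960) (c (l 16662664) (l 16660464))))) (c (a (c (a (l 16672144) (a (l 16670840) (l 16670040))) (a (l 16667736) (a (l 16666424) (l 16665616)))) (c (l 16669368) (l 16664928))) (a (c (a (l 16663328) (a (l 16662008) (a (l 16661344) (l 16661048)))) (a (l 16658920) (a (l 16657592) (a (l 16656928) (l 16656632))))) (a (c (l 16660736) (l 16656304)) (c (l 16660232) (l 16655792)))))), by decide +kernel⟩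

def k22_B00pm_102_s1 : ∃ t, chk3 f_B00pm_102_s1 t 158 1023 3 = true :=
  ⟨(a (c (a (c (l 16675488) (c (l 16672160) (l 16669944))) (c (l 16672008) (c (l 16668664) (l 16666440)))) (c (a (c (l 16662480) (a (l 16666376) (l 16664624))) (a (c (l 16665088) (l 16660240)) (c (l 16663320) (l 16658464)))) (b (c (a (l 16663992) (l 16660472)) (a (l 16661776) (l 16658248))) (c (a (a (l 16663440) (l 16659056)) (b (l 16659376) (c (l 16659208) (l 16658088)))) (a (a (c (l 16661768) (l 16660648)) (b (l 16659800) (c (l 16659632) (l 16658512)))) (c (a (l 16658224) (l 16656440)) (b (l 16656584) (a (l 16656736) (l 16654944))))))))) (c (a (c (a (l 16669376) (a (l 16668056) (a (l 16667392) (l 16667096)))) (a (c (l 16666024) (l 16663784)) (a (l 16663576) (a (l 16662904) (l 16657368))))) (a (c (l 16666800) (b (l 16663024) (l 16661592))) (c (l 16666328) (b (l 16662528) (l 16661096))))) (a (b (c (a (l 16661152) (a (l 16659824) (a (l 16659152) (l 16658856)))) (a (c (l 16657808) (l 16655576)) (a (c (l 16656472) (l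 16654240)) (a (l 16654680) (c (l 16655504) (l 16653264)))))) (c (c (a (l 16660824) (a (l 16659488) (a (l 16658816) (l 16658512)))) (a (l 16658584) (a (l 16657240) (a (l 16656560) (l 16656264))))) (c (a (b (l 16656704) (l 16655968)) (a (l 16654992) (a (l 16654312) (l 16654008)))) (c (a (l 16654648) (a (l 16653304) (a (l 16652624) (l 16652320)))) (a (l 16653528) (a (l 16652176) (a (l 16651496) (l 16651192)))))))) (c (b (c (l 16659416) (l 16657168)) (a (c (l 16658200) (l 16655944)) (c (l 16657696) (l 16655432)))) (b (c (l 16654928) (a (l 16652936) (l 16652416))) (b (c (a (l 16654064) (l 16653544)) (a (l 16651808) (l 16651280))) (c (a (l 16653312) (l 16652792)) (c (a (l 16651616) (l 16651096)) (a (l 16650488) (l 16649960)))))))))), by decide +kernel⟩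

def k23_B00pm_102_s1 : ∃ t, chk3 f_B00pm_102_s1 t 159 510 1 = true :=
  ⟨(c (a (c (c (l 16689704) (l 16685328)) (c (l 16680944) (a (l 16677000) (l 16676088)))) (c (c (l 16688048) (l 16683616)) (c (l 16679176) (a (l 16675176) (l 16674256))))) (b (c (a (c (l 16673592) (l 16669248)) (c (l 16671712) (l 16667304))) (a (c (a (l 16665376) (l 16664376)) (l 16650064)) (c (l 16662904) (l 16648008)))) (c (a (c (l 16670784) (a (l 16666832) (l 16665856))) (c (l 16663648) (a (l 16664880) (l 16663904)))) (c (a (a (l 16662432) (l 16661424)) (a (l 16660424) (l 16659408))) (a (a (l 16658032) (l 16656992)) (a (l 16655960) (l 16654920))))))), by decide +kernel⟩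

def k24_B00pm_102_s1 : ∃ t, chk3 f_B00pm_102_s1 t 159 511 2 = true :=
  ⟨(c (c (a (l 16684640) (l 16682976)) (a (b (l 16681416) (l 16678824)) (b (l 16679696) (l 16671848)))) (a (a (c (l 16676024) (a (l 16671744) (l 16671288))) (c (l 16675136) (a (l 16670824) (l 16670368)))) (a (c (l 16674240) (a (l 16669904) (l 16669440))) (c (l 16673352) (a (l 16668976) (l 16668512)))))), by decide +kernel⟩

def k25_B00pm_102_s1 : ∃ t, chk3 f_B00pm_102_s1 t 159 1022 3 = true :=
  ⟨(c (a (c (a (l 16668424) (l 16667472)) (a (l 16663952) (l 16662976))) (c (a (l 16666520) (l 16665568)) (a (l 16661992) (l 16661008)))) (c (a (a (b (l 16660224) (l 16658752)) (b (l 16659216) (l 16657736))) (a (b (l 16658200) (l 16656720)) (b (l 16657184) (l 16655704)))) (c (a (a (l 16656136) (l 16655104)) (a (l 16654064) (l 16653024))) (a (a (l 16653896) (l 16652848)) (a (l 16651800) (l 16650744)))))), by decide +kernel⟩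

def k26_B00pm_102_s1 : ∃ t, chk3 f_B00pm_102_s1 t 159 1023 6 = true :=
  ⟨(b (a (c (a (l 16666320) (l 16665368)) (a (l 16661800) (l 16655568))) (c (a (l 16664408) (l 16663448)) (a (c (l 16660976) (l 16658680)) (c (l 16659992) (l 16657688))))) (a (c (a (l 16664920) (b (l 16664312) (l 16663608))) (c (a (l 16661504) (l 16660520)) (a (l 16659224) (b (l 16658592) (l 16657864))))) (c (a (b (l 16663352) (l 16662648)) (b (l 16662392) (l 16656448))) (c (a (l 16659536) (l 16658552)) (a (b (l 16657592) (l 16656864)) (a (l 16656472) (l 16655976))))))), by decide +kernel⟩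

def k27_B00pm_102_s1 : ∃ t, chk3 f_B00pm_102_s1 t 159 1023 7 = true :=
  ⟨(b (c (a (a (c (l 16658408) (l 16656152)) (c (l 16657400) (l 16655128))) (a (c (l 16656392) (l 16654096)) (c (l 16655376) (l 16653072)))) (a (a (c (l 16651264) (a (l 16651888) (l 16651360))) (c (a (l 16653104) (l 16652584)) (a (l 16650832) (l 16650304)))) (a (c (a (l 16652064) (l 16651544)) (a (l 16649776) (l 16649248))) (c (a (l 16651016) (l 16650496)) (a (l 16648720) (l 16648184)))))) (b (c (a (a (c (l 16657312) (a (l 16655288) (l 16654776))) (c (l 16656304) (a (l 16654264) (l 16653752)))) (a (c (l 16655288) (a (l 16653240) (l 16652720))) (c (l 16654272) (a (l 16652208) (l 16651688))))) (a (a (c (a (l 16653024) (l 16652504)) (a (l 16650752) (l 16650224))) (c (a (l 16651976) (l 16651456)) (a (l 16649696) (l 16649168)))) (a (c (a (l 16650936) (l 16650416)) (a (l 16648632) (l 16648104))) (c (a (l 16649888) (l 16649368)) (a (l 16647576) (l 16647040)))))) (c (a (a (c (a (l 16656832) (l 16656320)) (a (l 16654552)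 (l 16654040))) (c (a (l 16655816) (l 16655312)) (a (l 16653520) (l 16653008)))) (a (c (a (l 16654800) (l 16654296)) (a (l 16652496) (l 16651976))) (c (a (l 16653784) (l 16653280)) (a (l 16651464) (l 16650944))))) (a (a (c (a (l 16649656) (b (l 16651936) (l 16651568))) (c (a (l 16650568) (l 16650040)) (a (l 16649424) (b (l 16649088) (l 16648704))))) (c (a (b (l 16651416) (l 16648424)) (a (l 16650840) (l 16650576))) (c (a (l 16649512) (l 16648984)) (a (b (l 16648552) (l 16648176)) (l 22))))) (a (c (c (a (l 16650760) (l 16650240)) (a (l 16649608) (l 16649080))) (c (a (l 16648456) (l 16647920)) (l 22))) (c (c (a (l 16649720) (l 16649192)) (a (l 16648552) (l 16648024))) (c (a (b (l 16647584) (l 16647200)) (l 22)) (l 22)))))))), by decide +kernel⟩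

def k28_B00pm_102_s1 : ∃ t, chk3 f_B00pm_102_s1 t 10 6 1 = true :=
  ⟨(b (l 3) (a (l 3) (b (l 3) (a (b (l 3) (b (b (l 3) (a (l 3) (a (l 3) (a (l 537763599) (l 538299919))))) (b (a (l 3) (a (c (l 537962255) (l 537318671)) (l 538044943))) (a (a (l 3) (c (l 538251791) (l 537846799))) (a (c (l 537955087) (l 537330959)) (l 537510159)))))) (b (b (l 3) (b (a (l 3) (a (l 3) (a (l 537490447) (l 537301775)))) (a (a (l 3) (a (l 3) (a (l 3) (b (l 3) (c (l 538130191) (l 535875343)))))) (c (c (l 538063119) (l 538175503)) (c (l 536409103) (l 534571023)))))) (c (a (b (a (c (l 538117903) (l 538225935)) (a (b (l 538150927) (c (l 538119183) (l 538221071))) (b (c (l 538092559) (l 538201359)) (l 538163471)))) (a (b (a (l 538198543) (l 538192143)) (c (l 16777824) (l 16772976))) (b (a (l 538186511) (l 538181391)) (l 538198287)))) (a (b (b (b (l 537865743) (l 538143247)) (l 538157327)) (b (l 538175503) (l 16766328))) (b (b (l 538131983) (l 538150671)) (b (l 16765648) (l 16789296))))) (a (b (b (a (l 536405263)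 (a (l 536109839) (c (l 536894223) (l 534956559)))) (a (l 536411663) (a (c (l 537110799) (l 535123727)) (l 535927567)))) (a (b (a (l 536522255) (l 536316687)) (a (l 16778432) (l 16774528))) (b (l 536024847) (l 536030479)))) (a (b (b (c (l 536601359) (l 534718991)) (l 535661583)) (c (l 16775560) (l 16773336))) (b (b (l 535331087) (l 16779536)) (b (l 16766096) (l 16763128))))))))))), by decide +kernel⟩

def k29_B00pm_102_s1 : ∃ t, chk3 f_B00pm_102_s1 t 20 28 1 = true :=
  ⟨(a (b (l 3) (a (a (b (l 3) (c (l 538437135) (l 538233871))) (c (b (l 538411279) (l 538414607)) (b (l 538494991) (l 538227983)))) (c (b (a (l 538390031) (l 538368527)) (a (l 538391823) (l 538368271))) (b (a (l 538490383) (l 538214671)) (a (c (l 538461711) (l 538516495)) (c (l 538447375) (l 538508815))))))) (b (b (a (l 3) (a (b (l 3) (l 538390031)) (c (l 538291471) (l 538471439)))) (a (c (a (l 538081551) (l 538059535)) (a (c (l 538449167) (l 538524943)) (c (l 538435599) (l 538517775)))) (c (b (l 538296591) (l 538291727))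 (b (l 538192399) (l 538179855))))) (a (c (b (a (l 538077455) (l 538322191)) (a (l 538343951) (l 538318351))) (b (a (c (l 538437903) (l 538509071)) (b (l 538461199) (l 538453519))) (a (c (l 538430479) (l 538497295)) (c (l 16769288) (l 16780376))))) (b (a (c (l 538297103) (l 538171919)) (c (b (l 16775912) (l 16768256)) (b (l 538423055) (l 16769496)))) (c (a (c (l 16770280) (l 16770864)) (b (l 16771120) (l 16794984))) (a (b (l 16770312) (l 16773456)) (b (l 16772584) (l 16754704)))))))), by decide +kernel⟩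

def k30_B00pm_102_s1 : ∃ t, chk3 f_B00pm_102_s1 t 40 29 1 = true :=
  ⟨(b (a (b (a (b (l 538202895) (l 538076431)) (c (l 538421263) (b (l 538498575) (l 538504719)))) (c (a (l 538476559) (l 16783072)) (a (c (l 16770712) (l 16781560)) (c (l 16773224) (l 16773728))))) (b (c (a (l 538396431) (l 538370831)) (a (c (l 16779112) (l 538518543)) (c (l 16771056) (l 16782104)))) (c (a (l 16774824) (l 16776912)) (a (c (l 16754680) (l 16755336)) (c (l 16756976) (l 16757784)))))) (c (b (a (a (l 16777728) (l 16779944)) (a (l 16782024) (b (l 16803184) (l 16806864)))) (b (a (l 16784728) (a (l 16808728) (l 16810664))) (a (l 16799216) (b (a (l 16811672) (a (l 16813112) (l 16814240))) (a (a (l 16813192) (l 16814384)) (a (c (l 16795176) (l 16806832)) (l 16799392))))))) (b (a (c (l 16779744) (a (l 16758112) (l 16760704))) (a (c (l 16762240) (l 16763160)) (c (l 16785432) (b (l 16805480) (l 16809488))))) (a (a (c (l 16765840) (l 16787696)) (c (l 16768128) (b (l 16808960) (l 16771392)))) (a (c (b (l 16810200)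 (a (l 16813824) (l 16804584))) (b (l 16769408) (a (l 16815096) (b (l 16815144) (b (l 16816792) (a (l 16817624) (l 16808136))))))) (b (c (l 16812336) (l 16771696)) (b (a (l 16794600) (c (l 16816120) (b (l 16816864) (a (l 16817672) (b (l 16817960) (l 16797928)))))) (c (a (b (l 16816760) (l 16778048)) (l 16801464)) (a (b (a (l 16817640) (b (l 16817928) (l 16818992))) (a (l 16799288) (l 16738736))) (b (a (b (l 16818944) (l 16821088)) (l 16780424)) (l 16742776))))))))))), by decide +kernel⟩

def k31_B00pm_102_s1 : ∃ t, chk3 f_B00pm_102_s1 t 41 29 2 = true :=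
  ⟨(b (a (b (a (l 16782968) (l 16785008)) (a (b (l 16798248) (l 16801624)) (b (l 16800232) (l 16803576)))) (b (a (b (l 16795960) (l 16798992)) (b (l 16797944) (l 16800984))) (a (b (l 16802192) (l 16795072)) (b (l 16804192) (l 16802312))))) (b (b (a (a (l 16805136) (l 16796616)) (a (c (l 16808576) (l 16809624)) (b (l 16810184) (l 16801504)))) (a (a (l 16808800) (c (l 16810248) (l 16811328))) (a (a (l 16801760) (b (l 16812312) (l 16808952))) (a (b (l 16813320) (b (l 16814720) (a (b (l 16815184) (l 16805808)) (b (l 16811016) (l 16818440))))) (b (l 16814328) (b (a (b (l 16815240) (l 16810984)) (b (l 16810968) (l 16818264))) (l 16800024))))))) (a (b (a (a (l 16812120) (b (l 16812128) (l 16808912))) (b (c (l 16813088) (l 16814248)) (b (a (l 16814640) (a (c (l 16815464) (l 16816672)) (l 16796872))) (a (c (l 16816648) (l 16807392)) (l 16821824))))) (a (b (a (b (l 16814720) (l 16807104)) (c (l 16798328) (l 16810088))) (l 16785928)) (l 16811832))) (b (b (a (a (b (l 16814640) (c (l 16811152) (a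 (l 16816576) (l 16818320)))) (b (a (b (l 16815152) (l 16816384)) (b (l 16816336) (l 16818640))) (l 16800408))) (a (l 16802904) (l 16808152))) (a (l 16805920) (l 16816448))) (a (l 16813456) (l 16810120)))))), by decide +kernel⟩

def k32_B00pm_102_s1 : ∃ t, chk3 f_B00pm_102_s1 t 41 58 3 = true :=
  ⟨(a (b (a (c (l 16752424) (l 16774096)) (c (l 16754640) (l 16755488))) (a (c (l 16759216) (l 16760168)) (b (l 16781080) (c (l 16805056) (l 16806200))))) (b (a (b (l 16755656) (l 16758888)) (b (l 16757848) (l 16782040))) (a (b (l 16783248) (b (l 16764920) (l 16787712))) (b (l 16785400) (b (l 16788024) (l 16789824)))))), by decide +kernel⟩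

def k33_B00pm_102_s1 : ∃ t, chk3 f_B00pm_102_s1 t 41 118 3 = true :=
  ⟨(a (a (b (l 16796688) (c (l 16810456) (l 16769800))) (b (c (l 16808728) (l 16810000)) (c (l 16812560) (b (l 16812952) (l 16814968))))) (a (c (b (l 16810824) (a (l 16814120) (l 16804672))) (b (l 16770240) (b (l 16815112) (a (l 16816576) (l 16796168))))) (c (b (l 16812896) (b (l 16815720) (a (b (l 16816656) (a (b (l 16817136) (l 16818272)) (b (l 16818224) (l 16820464)))) (b (b (a (l 16817168) (l 16818136)) (a (l 16818176) (l 16820240))) (l 16781104))))) (b (l 16802792) (b (l 16804872) (a (b (l 16809536) (a (b (l 16811960) (b (l 16812184) (l 16812152))) (b (b (l 16808128) (l 16808096)) (l 16807784)))) (b (a (b (l 16803960) (l 16793608)) (b (l 16800160) (l 16799840))) (l 16801240)))))))), by decide +kernel⟩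

def k34_B00pm_102_s1 : ∃ t, chk3 f_B00pm_102_s1 t 41 119 3 = true :=
  ⟨(a (b (b (c (a (l 16813432) (a (l 16815000) (l 16816088))) (a (l 16814824) (a (l 16816472) (c (l 16817208) (l 16794576))))) (a (c (a (l 16814936) (l 16805592)) (a (l 16816376) (b (l 16816952) (a (l 16817736) (b (l 16818016) (l 16797784)))))) (a (b (c (l 16816600) (c (l 16817728) (l 16797560))) (c (a (l 16807680) (l 16820104)) (b (a (l 16797760) (l 16778400)) (l 16800768)))) (c (b (a (b (l 16817152) (l 16818688)) (l 16798928)) (l 16782048)) (b (a (b (l 16776752) (l 16799280)) (c (l 16779136) (l 16793272))) (l 16783704)))))) (a (a (b (b (c (l 16816656) (a (l 16817704) (b (l 16817984) (l 16797848)))) (c (l 16809120) (a (b (l 16797888) (l 16820848)) (l 16780184)))) (l 16807392)) (b (b (c (a (l 16797320) (l 16820320)) (a (b (l 16797816) (l 16820632)) (l 16779960))) (l 16804328)) (l 16790400))) (a (b (a (a (l 16804872) (l 16806208)) (l 16808216)) (l 16788656)) (c (l 16791288) (l 16788696))))) (b (a (a (c (b (b (l 16816600)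 (a (b (l 16817128) (l 16818528)) (l 16798752))) (l 16784576)) (b (b (l 16797160) (b (a (l 16818672) (b (l 16798456) (l 16820456))) (a (b (l 16777544) (l 16820568)) (l 16822528)))) (l 16783896))) (b (c (b (a (b (l 16817120) (l 16818392)) (l 16809072)) (l 16781560)) (b (b (a (l 16818656) (b (l 16795328) (l 16816272))) (a (a (l 16798424) (l 16819400)) (l 16815976))) (l 16817632))) (b (l 16787944) (l 16793568)))) (b (c (b (l 16783984) (l 16789536)) (l 16793608)) (c (l 16794464) (l 16801528)))) (a (c (l 16788712) (l 16817784)) (c (l 16785232) (l 16797016))))), by decide +kernel⟩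

def k35_B00pm_102_s1 : ∃ t, chk3 f_B00pm_102_s1 t 21 28 1 = true :=
  ⟨(a (b (a (b (a (c (l 538266639) (l 538438415)) (c (b (l 537974287) (l 538237455)) (b (l 537861903) (l 537878031)))) (c (a (b (l 538256143) (l 538252303)) (b (l 538232847) (l 16766760))) (a (b (l 538158863) (l 538145807)) (b (l 537894927) (l 16785256))))) (b (a (c (b (l 538216719) (l 538224911)) (b (l 537344271) (l 537357071))) (c (b (l 538220047) (l 16776024)) (b (l 536868367) (l 16777280)))) (a (c (b (l 16776616) (l 16768848)) (b (l 16780864) (l 16782008))) (c (b (l 16768224) (l 16791920)) (b (l 16777408) (l 16777592)))))) (a (b (a (c (b (l 16777968) (l 16791248)) (c (l 16769904) (l 16780752))) (c (b (l 16769520) (l 16793296)) (b (l 16787536) (l 16789920)))) (a (c (b (l 16794096) (l 16797000)) (b (l 16753832) (l 16756912))) (c (b (l 16796152) (l 16799048)) (b (l 16792400) (l 16794984))))) (c (b (a (b (l 16792576) (l 16795384)) (l 16785592)) (a (l 16789200) (l 16791296))) (b (a (b (l 16783232) (l 16784528)) (l 16788464))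 (a (b (l 16785912) (l 16787376)) (l 16789216)))))) (b (a (b (c (a (c (l 16776480) (l 16777064)) (b (l 16777464) (l 16790624))) (a (b (l 16779632) (l 16773608)) (b (l 16770520) (l 16768952)))) (c (a (b (l 16791272) (l 16793992)) (l 16784216)) (a (b (l 16772864) (l 16772168)) (l 16787616)))) (b (c (a (l 16780840) (l 16772392)) (a (l 16785552) (l 16758672))) (c (b (l 16775472) (l 16778232)) (a (l 16760024) (l 16752752))))) (a (b (c (a (l 16787680) (l 16779296)) (a (l 16771208) (l 16763696))) (c (a (l 16793408) (l 16785024)) (a (l 16791080) (l 16760888)))) (c (b (a (l 16802352) (l 16804424)) (l 16798640)) (b (a (l 16755552) (l 16746872)) (l 16788080)))))), by decide +kernel⟩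

def k36_B00pm_102_s1 : ∃ t, chk3 f_B00pm_102_s1 t 42 58 1 = true :=
  ⟨(c (a (b (a (b (l 16799960) (l 16803008)) (b (l 16802008) (l 16805056))) (a (b (l 16806208) (b (l 16808720) (l 16810448))) (b (l 16797776) (b (l 16810776) (l 16812504))))) (b (a (b (l 16804088) (l 16807136)) (b (l 16806192) (l 16809248))) (a (b (l 16805112) (c (l 16813288) (l 16814216))) (b (l 16807216) (b (l 16814968) (a (c (l 16810784) (l 16816872)) (b (c (l 16816712) (l 16817504)) (l 16815032)))))))) (c (a (b (b (l 16760560) (l 16784664)) (b (l 16787936) (a (l 16811312) (l 16813336)))) (b (b (l 16806664) (l 16788744)) (b (l 16802440) (a (l 16815304) (b (l 16812304) (a (l 16817056) (b (l 16810280) (l 16810176)))))))) (a (b (b (l 16780088) (l 16780720)) (b (l 16781400) (a (l 16788264) (l 16775872)))) (b (b (l 16760832) (l 16759376)) (b (l 16799864) (a (l 16763032) (b (l 16750328) (a (l 16752656) (b (l 16746128) (l 16744896)))))))))), by decide +kernel⟩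

def k37_B00pm_102_s1 : ∃ t, chk3 f_B00pm_102_s1 t 84 118 1 = true :=
  ⟨(b (a (c (c (l 16812600) (l 16813680)) (c (l 16793952) (l 16789648))) (c (a (b (l 16813752) (b (l 16815104) (b (c (l 16815416) (l 16816472)) (c (l 16811432) (l 16807256))))) (b (l 16814792) (a (b (l 16815992) (l 16808688)) (b (b (l 16816304) (l 16817840)) (l 16821744))))) (a (b (l 16811888) (b (l 16813176) (c (a (l 16817704) (l 16808496)) (a (l 16781376) (l 16798552))))) (b (l 16805392) (b (c (b (l 16817712) (l 16808424)) (a (l 16774288) (l 16770560))) (c (l 16801272) (l 16771400))))))) (a (b (c (a (b (l 16814880) (a (b (l 16815328) (l 16810952)) (b (l 16810944) (l 16818112)))) (b (a (b (l 16815416) (l 16816192)) (b (l 16816200) (l 16817992))) (l 16810200))) (a (b (l 16796488) (c (b (l 16807232) (a (l 16818104) (l 16820032))) (a (b (l 16796200) (l 16796296)) (b (l 16792480) (l 16792152))))) (b (a (c (l 16817712) (l 16788688)) (c (l 16808576) (b (l 16785040) (l 16784688)))) (c (l 16801648) (l 16785864))))) (c (a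 (l 16813040) (l 16807824)) (a (c (l 16783640) (l 16792784)) (c (l 16788968) (l 16783696))))) (c (b (a (a (l 16811448) (l 16803584)) (l 16807568)) (l 16815832)) (b (a (c (l 16804192) (l 16777776)) (l 16804192)) (c (l 16797008) (l 16769976)))))), by decide +kernel⟩

def k38_B00pm_102_s1 : ∃ t, chk3 f_B00pm_102_s1 t 85 118 1 = true :=
  ⟨(b (a (c (b (a (b (l 16815392) (c (b (l 16815664) (l 16816760)) (l 16812080))) (b (c (l 16816464) (l 16817368)) (a (l 16808576) (l 16821552)))) (a (c (l 16812072) (l 16802624)) (l 16807360))) (b (a (b (l 16798528) (c (l 16807960) (a (l 16767408) (l 16763736)))) (b (c (l 16818432) (l 16758872)) (a (l 16809016) (l 16789176)))) (a (c (l 16803816) (l 16763656)) (l 16789304)))) (b (a (c (c (l 16812008) (l 16802432)) (c (l 16817048) (l 16750336))) (c (l 16807184) (l 16775264))) (c (l 16815408) (l 16776344)))) (a (b (c (l 16815608) (l 16790856)) (c (l 16799392) (l 16787776))) (c (l 16798728) (l 16771096)))), by decide +kernel⟩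

def k39_B00pm_102_s1 : ∃ t, chk3 f_B00pm_102_s1 t 42 119 1 = true :=
  ⟨(a (c (a (b (b (l 16816112) (l 16815552)) (l 16806664)) (b (l 16815000) (l 16824096))) (a (b (c (l 16794032) (l 16783608)) (l 16805928)) (c (l 16805296) (l 16802016)))) (c (a (b (l 16790416) (l 16820504)) (l 16801808)) (a (b (l 16782560) (l 16774568)) (l 16800560)))), by decide +kernel⟩

def k40_B00pm_102_s1 : ∃ t, chk3 f_B00pm_102_s1 t 43 29 1 = true :=
  ⟨(b (c (b (a (a (b (l 16808304) (l 16811344)) (b (l 16810400) (l 16813424))) (b (l 16813488) (a (l 16815456) (b (l 16816696) (b (l 16817840) (l 16809104)))))) (a (b (a (l 16814544) (b (l 16815784) (a (l 16817008) (b (l 16817624) (l 16820304))))) (c (a (b (a (l 16816344) (b (l 16817000) (l 16819920))) (l 16814592)) (b (l 16804104) (l 16793720))) (a (b (a (l 16817088) (l 16808952)) (l 16804912)) (l 16810176)))) (c (b (a (b (a (l 16817096) (l 16819184)) (l 16804144)) (l 16809440)) (l 16804552)) (b (a (b (l 16797992) (l 16783776)) (l 16819872)) (l 16823928))))) (a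 (a (b (b (l 16769432) (l 16769032)) (b (l 16768664) (c (b (a (l 16803000) (l 16796256)) (l 16798576)) (b (a (l 16740368) (l 16733320)) (l 16733720))))) (b (l 16800168) (b (b (l 16756616) (a (l 16759112) (b (l 16752928) (l 16752000)))) (c (l 16783696) (l 16719720))))) (b (a (l 16788808) (a (l 16780080) (c (l 16759760) (l 16704736)))) (b (a (b (a (l 16747304) (l 16782688)) (a (l 16787168) (l 16737624))) (b (l 16813944) (l 16726024))) (l 16811288))))) (a (c (b (a (b (l 16820736) (l 16795024)) (l 16818256)) (c (l 16797520) (l 16774032))) (b (b (a (l 16802792) (l 16743680)) (l 16806624)) (a (l 16738736) (l 16719128)))) (c (b (a (l 16793488) (l 16789640)) (l 16788680)) (b (a (l 16721664) (l 16704200)) (l 16774240))))), by decide +kernel⟩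

def k41_B00pm_102_s1 : ∃ t, chk3 f_B00pm_102_s1 t 40 30 1 = true :=
  ⟨(b (a (b (c (b (a (a (l 16812320) (l 16792688)) (b (l 16803576) (a (l 16796536) (l 16779536)))) (a (a (l 16801984) (l 16785600)) (l 16784368))) (b (a (a (l 16793304) (c (l 16804728) (b (l 16814912) (b (l 16816640) (l 16808024))))) (b (c (l 16805240) (a (l 16816112) (b (l 16816720) (a (l 16817632) (l 16797824))))) (c (a (l 16808784) (l 16781480)) (a (b (a (l 16817648) (l 16797928)) (l 16780400)) (l 16782960))))) (a (b (a (b (c (l 16817352) (l 16797608)) (l 16780200)) (l 16803704)) (l 16780224)) (c (l 16781080) (l 16778736))))) (c (a (l 16791128) (l 16788384)) (a (c (l 16766344) (b (l 16769840) (l 16799456))) (c (l 16763144) (l 16781144))))) (b (c (a (b (b (a (l 16806592) (l 16778944)) (l 16787120)) (l 16781560)) (b (l 16790152) (l 16778632))) (a (b (b (c (a (b (l 16816912) (l 16778496)) (l 16780960)) (a (b (a (l 16817624) (l 16797728)) (l 16779960)) (b (l 16800728) (l 16743288)))) (l 16806744)) (c (l 16777848) (l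 16775216))) (c (b (l 16786664) (l 16816488)) (b (l 16784168) (l 16813616))))) (c (a (a (l 16765256) (l 16763792)) (b (l 16809168) (l 16797832))) (a (c (l 16759872) (l 16777608)) (c (l 16756544) (l 16774056)))))) (a (c (b (a (l 16768912) (l 16766056)) (a (l 16746952) (c (l 16767304) (l 16762560)))) (b (a (c (l 16784648) (l 16781072)) (b (l 16785472) (l 16773408))) (a (c (l 16761152) (l 16756568)) (c (l 16757768) (l 16752928))))) (c (b (a (l 16763080) (c (l 16783032) (l 16778864))) (a (c (l 16764304) (l 16759344)) (c (l 16761128) (l 16756024)))) (b (a (b (l 16782024) (l 16769936)) (b (l 16778552) (l 16766440))) (a (c (l 16754344) (l 16749304)) (c (l 16750888) (l 16745712))))))), by decide +kernel⟩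

def k42_B00pm_102_s1 : ∃ t, chk3 f_B00pm_102_s1 t 40 62 1 = true :=
  ⟨(a (c (b (a (b (l 16730592) (l 16719728)) (b (l 16727496) (l 16716552))) (a (b (l 16708896) (c (l 16701568) (l 16694608))) (c (a (l 16704384) (l 16723720)) (a (l 16697552) (l 16695832))))) (a (b (c (l 16737736) (l 16732096)) (c (a (l 16694280) (l 16692496)) (b (l 16713776) (l 16680632)))) (b (c (l 16734256) (l 16728392)) (c (a (l 16711680) (l 16709872)) (b (l 16710032) (l 16697816)))))) (c (c (b (a (l 16721736) (l 16718432)) (a (a (l 16701088) (l 16720368)) (l 16696888))) (a (b (l 16736736) (a (l 16694096) (l 16713304))) (b (l 16733296) (l 16689712)))) (a (b (c (l 16730744) (l 16724728)) (c (a (l 16708064) (l 16706240)) (b (l 16706296) (l 16694016)))) (b (c (l 16727184) (l 16721048)) (c (l 16703512) (l 16675376)))))), by decide +kernel⟩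

def k43_B00pm_102_s1 : ∃ t, chk3 f_B00pm_102_s1 t 40 126 1 = true :=
  ⟨(a (c (a (a (c (c (l 16688512) (l 16684648)) (c (l 16680784) (l 16676912))) (c (b (l 16711144) (l 16700648)) (c (l 16679056) (l 16675136)))) (c (a (b (l 16709488) (l 16698960)) (l 16681560)) (b (l 16685288) (c (l 16671016) (l 16666888))))) (a (c (b (l 16686512) (a (l 16665320) (l 16663456))) (b (c (l 16670384) (l 16687584)) (a (l 16667776) (l 16655336)))) (c (b (l 16682824) (a (l 16661576) (l 16659680))) (b (b (l 16667680) (l 16661592)) (a (l 16653360) (l 16651376)))))) (c (a (c (a (l 16679856) (l 16678144)) (b (l 16676472) (a (l 16687152) (l 16685328)))) (c (a (l 16676416) (l 16674672)) (b (l 16672840) (a (l 16683488) (l 16681640))))) (a (c (b (l 16668600) (a (l 16678744) (l 16676824))) (b (l 16681712) (a (l 16649376) (l 16668328)))) (c (b (l 16664808) (b (l 16655952) (l 16660544))) (b (l 16677744) (a (l 16666304) (l 16664256))))))), by decide +kernel⟩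

def k44_B00pm_102_s1 : ∃ t, chk3 f_B00pm_102_s1 t 40 254 1 = true :=
  ⟨(a (c (a (c (a (b (l 16694504) (l 16689312)) (b (l 16692816) (l 16687616))) (a (c (l 16685480) (l 16660224)) (c (l 16683712) (l 16658400)))) (c (a (b (l 16691120) (l 16685912)) (b (l 16689408) (l 16684192))) (a (c (l 16681920) (l 16656560)) (a (l 16657368) (l 16656456))))) (a (c (a (c (l 16655944) (l 16651656)) (c (l 16654064) (l 16649720))) (c (a (l 16657856) (l 16655864)) (a (l 16653568) (l 16651528)))) (c (a (c (l 16652168) (l 16647776)) (c (l 16650256) (l 16645816))) (c (a (l 16653864) (l 16651848)) (a (l 16649472) (l 16647408)))))) (c (a (c (a (b (l 16687680) (l 16682456)) (b (l 16685944) (l 16680712))) (a (c (l 16678312) (l 16652840)) (c (l 16676488) (l 16650960)))) (c (a (b (l 16684192) (l 16678952)) (b (l 16682432) (l 6))) (a (c (l 16674648) (l 16649072)) (c (l 16672800) (l 16647160))))) (a (c (a (c (l 16648336) (l 16643840)) (c (l 16646408) (l 16641848))) (a (c (l 16649824) (l 16655808)) (c (l 16637296)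 (l 22)))) (a (c (c (l 16644456) (l 16639848)) (c (l 16635240) (l 22))) (b (c (l 16664088) (l 16654920)) (l 6)))))), by decide +kernel⟩

def k45_B00pm_102_s1 : ∃ t, chk3 f_B00pm_102_s1 t 40 510 1 = true :=
  ⟨(a (c (a (c (a (c (l 16686384) (l 16681888)) (c (l 16684712) (l 16680152))) (a (c (l 16677392) (a (l 16673336) (l 16672416))) (c (l 16675600) (a (l 16671488) (l 16670560))))) (c (a (c (l 16683024) (l 16678408)) (c (l 16681320) (l 16676648))) (a (c (l 16673792) (a (l 16669624) (l 16668688))) (c (l 16671976) (a (l 16667752) (l 16666808)))))) (a (c (a (a (c (l 16668856) (l 16664368)) (c (l 16667904) (l 16663392))) (a (c (l 16666944) (l 16662408)) (c (l 16665984) (l 16661416)))) (a (a (c (l 16659888) (l 16644920)) (c (l 16658880) (l 16643880))) (a (c (l 16657864) (l 16642832)) (c (l 16656848) (l 16641784))))) (c (a (a (c (l 16665024) (l 16660424)) (c (l 16664064) (l 16659432))) (a (c (l 16663096) (l 16658432)) (c (l 16662120) (l 16657432)))) (a (c (c (l 16640760) (l 16643696)) (c (l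 16641384) (l 22))) (c (b (l 16654784) (l 16641288)) (l 22)))))) (a (c (c (a (c (l 16679608) (l 16674880)) (c (l 16677888) (l 16673096))) (a (c (l 16670144) (a (l 16665864) (l 16664920))) (c (l 16668296) (b (l 16664912) (l 6))))) (c (a (a (c (l 16661152) (l 16656432)) (b (l 16659256) (l 6))) (a (b (l 16658264) (l 6)) (l 6))) (c (a (b (l 16652728) (l 16639216)) (b (l 16650656) (l 6))) (l 22)))) (l 6))), by decide +kernel⟩

def k46_B00pm_102_s1 : ∃ t, chk3 f_B00pm_102_s1 t 80 511 2 = true :=
  ⟨(a (c (c (a (l 16681304) (b (l 16680888) (l 16678352))) (a (a (l 16677080) (l 16676208)) (a (l 16675336) (l 16674456)))) (a (a (c (l 16672448) (a (l 16668048) (l 16667584))) (c (l 16671552) (a (l 16667120) (l 16666656)))) (a (c (l 16670648) (a (l 16666184) (l 16665720))) (c (l 16669736) (a (l 16660008) (l 16659536)))))) (c (a (a (b (l 16677248) (l 16669424)) (c (l 16677480) (l 16672696))) (b (c (l 16677488) (l 16672704)) (l 6))) (a (a (c (l 16663584) (c (l 16665264) (l 16662888))) (c (l 16662672)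 (c (l 16664328) (l 16656696)))) (b (c (a (l 16668352) (l 16667432)) (a (l 16663576) (l 16662632))) (l 6))))), by decide +kernel⟩

def k47_B00pm_102_s1 : ∃ t, chk3 f_B00pm_102_s1 t 80 1022 3 = true :=
  ⟨(a (c (a (c (a (l 16664608) (l 16663648)) (a (l 16660016) (l 16659024))) (c (a (l 16662688) (l 16661720)) (a (l 16658032) (l 16657040)))) (a (c (a (b (l 16656168) (l 16654688)) (b (l 16655152) (l 16653664))) (a (a (l 16651096) (l 16650568)) (a (l 16650040) (l 16649512)))) (c (a (b (l 16654128) (l 16652632)) (b (l 16653104) (l 16651608))) (c (a (l 16649896) (l 16648840)) (l 22))))) (c (c (a (a (l 16660752) (l 16659776)) (a (l 16658800) (l 16657824))) (a (a (l 16656040) (l 16655032)) (a (l 16654032) (l 16647776)))) (a (c (a (a (l 16651576) (l 16651064)) (a (l 16650544) (l 16650024))) (a (a (l 16644248) (l 22)) (l 22))) (c (a (a (l 16649512) (l 16648992)) (b (l 16648968) (l 6))) (l 22))))), by decide +kernel⟩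

def k48_B00pm_102_s1 : ∃ t, chk3 f_B00pm_102_s1 t 80 1023 6 = true :=
  ⟨(a (a (c (b (a (l 16662488) (l 16661528)) (a (a (l 16661312) (l 16660832)) (a (l 16660344) (l 16659864)))) (c (b (a (l 16659008) (l 16658016)) (a (l 16657568) (l 16656576))) (c (b (a (l 16657264) (l 16656264)) (a (l 16655808) (l 16654808))) (b (a (l 16656104) (l 16655096)) (a (l 16654640) (l 16651008)))))) (c (b (a (l 16660560) (l 16659584)) (a (a (l 16659376) (l 16658896)) (a (l 16658408) (l 16657920)))) (c (a (a (l 16656552) (l 16656048)) (a (l 16655552) (l 16655056))) (b (a (l 16654672) (l 16653664)) (c (a (l 16653800) (l 16652792)) (a (b (l 16652984) (l 16652248)) (b (l 16651968) (l 16651232)))))))) (a (c (a (b (l 16658616) (a (l 16657432) (l 16656944))) (b (l 16657640) (l 6))) (b (a (c (l 16655040) (l 16652656)) (c (l 16654040) (l 16651640))) (a (a (c (l 16653832) (l 16651432)) (b (l 16652496) (l 6))) (l 6)))) (l 6))), by decide +kernel⟩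

def k49_B00pm_102_s1 : ∃ t, chk3 f_B00pm_102_s1 t 80 1023 7 = true :=
  ⟨(a (a (c (b (a (c (l 16654360) (l 16652040)) (c (l 16653344) (l 16651008))) (a (b (c (l 16653256) (a (l 16651168) (l 16650656))) (c (a (l 16652768) (l 16652256)) (a (l 16650424) (l 16649904)))) (b (c (l 16652232) (a (l 16650136) (l 16649616))) (c (a (l 16651744) (l 16651232)) (a (b (l 16649576) (l 16649200)) (b (l 16649056) (l 16648680))))))) (b (c (a (a (l 16649976) (l 16649448)) (a (l 16648920) (l 16648400))) (l 22)) (c (c (a (a (l 16649048) (l 16648520)) (a (l 16648000) (l 16644848))) (b (a (a (l 16648256) (l 16647728)) (a (l 16647200) (l 22))) (a (a (l 16647496) (l 16646968)) (a (l 16646440) (l 22))))) (l 22)))) (b (c (a (c (l 16652320) (l 16649968)) (c (l 16651296) (l 16648928))) (c (c (a (l 16648200) (l 16647152)) (l 22)) (l 22))) (b (c (a (c (a (l 16651456) (l 16650944)) (a (l 16649096) (l 16648576))) (c (a (l 16650432) (l 16649920)) (a (l 16648056) (l 16647528)))) (c (a (a (l 16646736) (l 16646200)) (a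 (l 16645672) (l 22))) (l 22))) (c (a (a (c (l 16650720) (a (l 16648472) (l 16648216))) (c (l 16650208) (a (l 16647952) (l 16647696)))) (a (c (l 16649688) (a (l 16647432) (l 16647168))) (c (l 16649176) (a (l 16646912) (l 16646648))))) (a (c (c (a (l 16646568) (l 16646040)) (l 22)) (l 22)) (c (c (a (l 16645512) (l 22)) (l 22)) (l 22))))))) (a (c (b (a (c (l 16650272) (l 16645264)) (c (l 16649240) (a (l 16647096) (l 16646568)))) (a (a (b (c (l 16649400) (l 16647008)) (c (l 16648656) (a (l 16646384) (l 16646120)))) (b (c (l 16648888) (l 16646488)) (l 6))) (l 6))) (l 22)) (l 6))), by decide +kernel⟩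

def k50_B00pm_102_s1 : ∃ t, chk3 f_B00pm_102_s1 t 81 511 1 = true :=
  ⟨(l 6), by decide +kernel⟩

def k51_B00pm_102_s1 : ∃ t, chk3 f_B00pm_102_s1 t 41 30 1 = true :=
  ⟨(b (c (a (b (a (c (l 16782664) (l 16800992)) (b (l 16784016) (l 16814384))) (a (b (l 16806088) (l 16794704)) (b (l 16802888) (l 16791440)))) (b (a (b (l 16801744) (l 16811104)) (b (l 16819352) (l 16807704))) (a (b (l 16799552) (l 16788064)) (b (l 16796120) (l 16784592))))) (c (a (b (a (l 16798224) (l 16794832)) (b (l 16778480) (l 16787480))) (b (a (l 16791400) (l 16787936)) (a (l 16788232) (l 16784720)))) (a (b (a (b (l 16780600) (l 16810064)) (b (l 16777032) (l 16806512))) (a (l 16749528) (l 16787976))) (b (a (l 16787936) (l 16785800)) (a (l 16784440) (l 16766800)))))) (a (c (b (a (c (l 16779864) (l 16775560)) (c (l 16776576) (l 16772176))) (a (c (l 16757840) (l 16752616)) (l 16751784))) (b (a (b (l 16775064) (l 16762936)) (c (l 16767736) (l 16763256))) (a (c (l 16747376) (l 16742112)) (c (l 16743816) (l 16738496)))))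 (c (b (a (l 16770928) (l 16767424)) (a (l 16748272) (l 16744712))) (b (a (l 16761960) (l 16758344)) (a (l 16737488) (l 16733752)))))), by decide +kernel⟩

def k52_B00pm_102_s1 : ∃ t, chk3 f_B00pm_102_s1 t 41 31 1 = true :=
  ⟨(b (c (a (b (a (c (l 16715032) (l 16729784)) (c (l 16711576) (l 16726208))) (a (c (l 16693440) (l 16686104)) (c (l 16689928) (l 16682440)))) (a (b (c (l 16729040) (l 16722576)) (c (l 16686360) (l 16699688))) (b (c (l 16725472) (l 16718880)) (c (l 16682728) (l 16695896))))) (a (b (a (c (l 16723568) (l 16717352)) (c (l 16719880) (l 16713568))) (a (c (l 16699760) (l 16692456)) (c (l 16695944) (l 16688504)))) (b (a (c (l 16716136) (l 16709712)) (c (l 16712320) (l 16686536))) (a (c (l 16692072) (l 16684480)) (c (l 16688128) (l 22)))))) (b (c (b (a (a (c (l 16677384) (l 16669160)) (c (l 16673832) (l 16665424))) (a (c (l 16670216) (l 16661624)) (c (l 16666544) (l 16657760)))) (a (a (c (a (l 16688576) (l 16686800)) (c (l 16660128) (l 16655704))) (b (c (l 16686800) (l 16677912))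 (l 6))) (l 6))) (b (c (a (a (l 16660944) (l 16657032)) (a (l 16674024) (l 16669984))) (a (a (l 16673720) (l 16669632)) (l 22))) (a (a (c (b (l 16652040) (l 16656592)) (a (l 16662192) (l 16660120))) (c (b (l 16648064) (l 6)) (l 22))) (l 6)))) (a (a (a (a (a (b (c (c (l 16678672) (l 16669264)) (c (l 16649384) (l 16650480))) (l 6)) (l 6)) (l 6)) (l 6)) (l 6)) (l 6)))), by decide +kernel⟩

def k53_B00pm_102_s1 : ∃ t, chk3 f_B00pm_102_s1 t 21 15 1 = true :=
  ⟨(b (b (b (a (a (c (a (b (l 16815880) (l 16804208)) (l 16785520)) (a (b (l 16809912) (l 16797664)) (l 16783200))) (c (a (l 16802888) (l 16799232)) (a (l 16760552) (l 16738344)))) (c (a (a (l 16795528) (l 16791760)) (l 16786040)) (a (l 16747896) (l 16664576)))) (a (a (c (a (l 16786832) (l 16783256)) (a (l 16779248) (l 16763232))) (c (a (l 16779616) (l 16775928)) (a (l 16738480) (l 16714432)))) (c (a (a (l 16772176) (l 16768360)) (l 16762576)) (a (l 16763624) (l 16635968))))) (a (c (a (b (a (l 16763856) (l 16760232)) (a (l 16741080) (l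 16737392))) (b (a (l 16756544) (l 16752792)) (a (l 16733640) (l 16729832)))) (a (b (a (l 16754648) (l 16739512)) (a (l 16729936) (l 16712384))) (b (c (l 16747552) (l 16651864)) (c (l 16721896) (l 16619432))))) (c (a (c (b (l 16749640) (l 16727136)) (b (l 16744616) (l 16721024))) (b (l 16728760) (c (l 16719256) (l 16711536)))) (a (b (l 16734480) (c (l 16667680) (l 16570016))) (b (l 16604792) (l 16655160)))))) (b (a (c (a (b (a (c (l 16721840) (l 16715120)) (c (l 16718152) (l 16711296))) (a (c (l 16679040) (l 16692048)) (c (l 16675296) (l 16688136)))) (b (a (c (l 16714408) (l 16707408)) (l 16701768)) (a (c (l 16671488) (l 16684152)) (l 6)))) (a (b (c (a (l 16708432) (l 16704480)) (l 16682576)) (c (a (l 16684120) (l 16680048)) (a (l 16620576) (l 16589800)))) (a (b (l 16694496) (b (l 16627096) (l 6))) (b (l 16666272) (l 6))))) (a (b (a (c (l 16703072) (l 16681312)) (c (l 16699056) (l 16655680))) (l 6)) (l 6))) (l 6))), by decide +kernel⟩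

def k54_B00pm_102_s1 : ∃ t, chk3 f_B00pm_102_s1 t 11 12 1 = true :=
  ⟨(a (l 3) (b (l 3) (a (l 3) (b (l 3) (a (l 534077967) (l 533849103)))))), by decide +kernel⟩

def k55_B00pm_102_s1 : ∃ t, chk3 f_B00pm_102_s1 t 22 13 1 = true :=
  ⟨(b (a (a (l 3) (b (l 3) (b (l 3) (a (b (l 3) (l 537447183)) (b (l 3) (l 536093711)))))) (b (a (l 3) (a (l 3) (a (l 3) (b (l 3) (l 536203535))))) (b (b (a (l 3) (a (a (l 535160335) (l 536666383)) (c (l 536227855) (l 533572367)))) (a (a (l 3) (c (l 536741135) (l 533896207))) (a (l 535106831) (l 535441167)))) (a (c (a (c (l 537774351) (l 536304911)) (b (l 536751119) (l 536760591))) (c (a (l 534822671) (l 534606863)) (a (l 533328143) (l 533157391)))) (b (a (c (l 536486671) (l 533713679)) (l 535171087)) (c (l 536368399) (l 533623055))))))) (c (a (b (b (a (l 538059023) (a (l 537713167) (c (l 538008079) (l 536604175)))) (a (l 538098703) (a (b (l 537736207) (l 16782584)) (l 537401871)))) (a (b (b (l 537859087) (a (l 16764992) (l 16787912))) (a (l 16779472) (l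 16770960))) (b (a (l 16780072) (l 16783064)) (l 16787488)))) (b (a (a (b (b (l 537057807) (l 16778280)) (l 16778976)) (b (b (l 16776704) (l 16776584)) (l 16776456))) (b (a (l 16774488) (l 16771696)) (l 16771464))) (a (b (l 16778312) (l 16778976)) (b (l 16769840) (l 16768280))))) (a (b (b (a (l 534891535) (a (l 534509327) (c (l 535055887) (l 533501455)))) (a (l 534889743) (a (b (l 534505743) (l 16762776)) (l 534272527)))) (a (b (b (l 535157775) (a (l 16764616) (l 16759456))) (a (l 16780240) (l 16753288))) (b (a (l 16776936) (l 16749888)) (l 16743288)))) (b (a (a (b (b (l 534070287) (l 16762136)) (l 16754160)) (b (c (l 16763696) (l 16755000)) (l 16748000))) (b (c (l 16756144) (l 16765680)) (l 16738024))) (a (b (l 16739912) (l 16728456)) (b (l 16725336) (l 16712352))))))), by decide +kernel⟩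

def k56_B00pm_102_s1 : ∃ t, chk3 f_B00pm_102_s1 t 23 13 1 = true :=
  ⟨(b (b (a (a (b (l 3) (c (l 535887631) (l 533373199))) (l 534322191)) (a (l 534050063) (l 533815567))) (a (a (b (c (l 535895823) (l 533351695)) (c (l 535904527) (l 533330703))) (b (l 534843919) (c (l 535504655) (l 16779424)))) (b (a (l 534030095) (l 533791503)) (a (c (l 16754168) (l 16723432)) (l 16768440))))) (b (a (c (a (b (l 16776944) (l 16762952)) (b (l 16757856) (l 16752744))) (a (b (l 16779248) (l 16723656)) (l 533048335))) (c (b (l 16784216) (l 16735080)) (c (l 16745952) (l 16764688)))) (a (c (b (a (l 16759432) (l 16747552)) (l 16749224)) (b (l 16785456) (l 16686672))) (c (b (l 16727728) (l 16720232)) (l 16722336))))), by decide +kernel⟩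

def k57_B00pm_102_s1 : ∃ t, chk3 f_B00pm_102_s1 t 22 14 1 = true :=
  ⟨(b (a (c (b (a (b (b (l 16774056) (l 16797776)) (l 16801904)) (b (l 16790992) (l 16794832))) (a (b (l 16807464) (l 16813128)) (b (l 16799040) (a (l 16808384) (l 16809272))))) (a (b (b (a (l 16752112) (l 16744992)) (l 16740840)) (b (l 16733032) (l 16725200))) (a (b (l 16732664) (l 16713632)) (b (l 16724168) (b (l 16708416) (l 16697704)))))) (c (a (b (l 16780368) (b (l 16782336) (b (l 16783520) (a (l 16809752) (l 16776728))))) (b (l 16766168) (b (l 16764432) (b (a (l 16768088) (l 16756600)) (l 16757024))))) (a (b (l 16794760) (b (l 16693016) (b (l 16683912) (a (l 16683072) (l 16670592))))) (b (l 16692408) (b (l 16672072) (b (l 16660816) (l 16651104))))))) (a (b (b (a (b (c (a (l 16816448) (l 16808264)) (a (l 16725144) (l 16713352))) (a (c (b (l 16808800) (l 16804536)) (b (l 16722280) (l 16719288))) (c (b (l 16803304) (l 16822784)) (l 16790800)))) (c (b (a (b (l 16811832) (l 16811800)) (l 16798944)) (l 16801536)) (b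 (a (b (l 16702712) (l 16699352)) (l 16687832)) (l 16685264)))) (a (c (a (l 16791536) (l 16817152)) (a (l 16708128) (l 16692464))) (c (l 16792648) (l 16669208)))) (c (a (b (l 16813704) (l 16798136)) (b (l 16777336) (l 16758648))) (a (b (l 16678416) (l 16653328)) (l 16715672)))) (b (c (a (b (l 16775056) (l 16760264)) (l 16800616)) (a (b (l 16662000) (l 16638864)) (l 16622160))) (c (a (l 16773760) (l 16696880)) (a (l 16598968) (l 16567824)))))), by decide +kernel⟩

def k58_B00pm_102_s1 : ∃ t, chk3 f_B00pm_102_s1 t 23 14 1 = true :=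
  ⟨(b (c (b (a (a (l 16750712) (b (l 16737016) (l 16731720))) (b (l 16712632) (a (b (l 16715720) (a (b (l 16717656) (l 16715528)) (b (l 16708144) (l 16704800)))) (b (a (l 16702144) (b (l 16694312) (l 16690856))) (l 16690080))))) (a (b (a (a (b (l 16751168) (a (b (l 16752536) (l 16751592)) (l 16746736))) (b (l 16741872) (b (l 16739824) (l 16736880)))) (b (a (b (l 16733128) (l 16731352)) (b (l 16723264) (l 16720096))) (l 16720376))) (a (c (l 16760160) (l 16708184)) (l 16707776))) (a (b (l 16784192) (l 16681528)) (c (l 16690768) (l 16641992))))) (a (b (a (l 16673384) (l 16737920)) (b (a (a (b (l 16659936) (a (b (l 16657048) (l 16653168)) (l 16649464))) (b (l 16649472) (l 16640856))) (b (a (l 16638808) (l 16627936)) (l 16623016))) (a (l 16630840) (l 16605552)))) (b (b (l 16633736) (a (b (l 16630424) (a (l 16626640) (l 16616192))) (b (a (l 16615544) (l 16605496)) (l 16599928)))) (a (l 16677080) (l 16569616))))) (a (c (a (b (c (l 16736176) (l 16679104)) (c (l 16694336) (l 16631336))) (b (l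 16761456) (l 16628880))) (a (b (l 16678080) (l 16537584)) (b (l 16566584) (l 16507592)))) (c (b (a (l 16648368) (l 16620168)) (a (l 16596632) (l 16566136))) (b (a (l 16539976) (l 16514520)) (c (l 16494264) (l 16437544)))))), by decide +kernel⟩

def k59_B00pm_102_s1 : ∃ t, chk3 f_B00pm_102_s1 t 11 15 1 = true :=
  ⟨(a (b (c (a (b (a (c (l 16747408) (l 16728880)) (b (l 16737064) (l 16712952))) (a (b (l 16731128) (c (l 16711128) (l 16661560))) (b (l 16686640) (l 6)))) (b (a (c (l 16721528) (l 16647808)) (c (l 16682056) (l 16611128))) (l 6))) (a (b (a (c (l 16649824) (l 16571328)) (l 16656872)) (a (c (l 16588792) (l 16501912)) (c (l 16547400) (l 16464296)))) (b (a (l 16537968) (l 16505352)) (l 6)))) (l 6)) (a (a (b (b (b (c (l 16623592) (l 16490312)) (l 6)) (l 6)) (l 6)) (l 6)) (l 6))), by decide +kernel⟩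

def k60_B00pm_102_s1 : ∃ t, chk3 f_B00pm_102_s1 t 3 2 2 = true :=
  ⟨(c (b (a (l 3) (b (l 3) (a (l 3) (a (b (l 3) (a (l 533808911) (l 533867791))) (b (a (l 534212367) (l 534338575)) (a (l 534005007) (l 534125583))))))) (a (b (a (l 3) (l 3)) (a (a (l 3) (b (l 3) (l 534177551))) (a (b (l 3) (l 533775631)) (b (a (l 533636879) (l 533547791)) (a (l 533571599) (l 533469455)))))) (a (b (a (b (l 3) (l 533520399)) (b (a (l 533552655) (l 533602575)) (a (l 533452303) (l 533446927)))) (a (b (l 533440271) (l 533361679)) (b (a (l 533371663) (l 16782752)) (a (l 16671712) (l 16653032))))) (b (a (b (a (l 533638159) (l 533703951)) (a (l 533501455) (l 16750448))) (b (a (l 533794831) (l 16762000)) (a (l 16694376) (l 16681096)))) (a (b (a (l 16681728) (l 16665848)) (l 16711672)) (a (l 16712328) (l 16614832))))))) (b (a (l 3) (b (l 3) (a (l 3) (a (b (l 3) (l 535282447)) (b (l 534550031) (a (l 533799183) (l 533885455))))))) (a (b (a (l 3) (l 3)) (a (a (l 3) (b (l 3) (l 533516815))) (a (b (l 3) (l 533238287))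 (b (a (l 533208591) (l 533171471)) (a (l 533114639) (l 533062927)))))) (a (b (a (b (l 3) (l 533246991)) (b (l 533643535) (l 533522191))) (a (b (l 533136143) (l 533027599)) (b (a (l 533133839) (l 16778112)) (a (l 16663688) (l 16644696))))) (b (a (b (a (l 533479695) (l 533545999)) (a (l 533335311) (l 16747144))) (b (a (l 533623823) (l 16758064)) (a (l 16689904) (l 16675272)))) (a (b (a (l 16676568) (l 16659944)) (l 16702448)) (b (l 16720880) (l 16586576)))))))), by decide +kernel⟩

def k61_B00pm_102_s1 : ∃ t, chk3 f_B00pm_102_s1 t 3 2 3 = true :=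
  ⟨(c (b (a (l 3) (a (l 3) (b (l 3) (a (b (l 3) (l 533795087)) (b (l 533722127) (l 533615631)))))) (a (b (a (l 3) (l 3)) (a (a (l 3) (b (l 3) (l 532865295))) (a (b (l 3) (a (l 532747023) (l 532699663))) (b (a (l 532803343) (l 532821263)) (a (l 532677647) (l 532679951)))))) (a (b (a (b (l 3) (l 533008399)) (b (l 533246735) (l 533101583))) (a (b (l 532863247) (l 532721935)) (b (a (l 532931343) (l 16774240)) (a (l 16656600) (l 16637448))))) (b (a (b (a (l 533351695) (l 533412367)) (a (l 533201935) (l 16786368))) (b (a (l 533469711) (l 16754272)) (a (l 16685976) (l 16669880)))) (a (b (l 533622031) (l 16610456)) (b (l 16713912) (l 16576296))))))) (b (a (l 3) (b (l 3) (a (l 3) (a (b (l 3) (l 534743567)) (b (l 533408527) (l 533388047)))))) (a (b (a (l 3) (l 3)) (a (a (l 3) (b (l 3) (l 532222991))) (a (b (l 3) (a (l 532209167) (l 532223759))) (b (a (l 532420879) (l 532497423)) (a (l 532260879) (l 532320783)))))) (a (b (a (b (l 3) (l 532804367)) (b (l 533158159) (l 532987919))) (a (b (l 533158415)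 (l 532445199)) (b (a (l 532763919) (l 16771152)) (a (l 16650440) (l 16631296))))) (b (a (b (a (l 533253903) (l 533303311)) (a (l 533101327) (l 16784240))) (b (a (l 533333519) (l 16750640)) (a (l 16682592) (l 16664928)))) (a (b (a (l 16668880) (l 16650816)) (l 16687352)) (b (l 16707688) (l 16566944)))))))), by decide +kernel⟩

def k62_B00pm_102_s1 : ∃ t, chk3 f_B00pm_102_s1 t 12 6 1 = true :=
  ⟨(b (a (b (a (l 3) (l 533381135)) (a (b (l 533601295) (l 533561359)) (b (l 533314319) (l 533267983)))) (b (a (l 533175567) (l 533024015)) (b (l 533013007) (a (l 533050639) (l 16774752))))) (c (b (a (b (a (l 534487311) (l 16728736)) (a (b (l 16736288) (l 16727304)) (l 16707912))) (b (l 533657359) (a (l 16682360) (l 16655984)))) (a (b (a (l 16797256) (l 16686000)) (a (l 16777864) (b (l 16668800) (a (b (l 16667880) (a (l 16665992) (l 16657432))) (b (a (l 16655816) (l 16647544)) (l 16643768)))))) (b (a (l 16657648) (b (l 16635928) (a (l 16713064) (b (l 16618216) (l 16610416))))) (a (b (a (b (l 16649088)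 (l 16726200)) (b (l 16633712) (l 16625840))) (a (l 16629912) (l 16611792))) (a (b (l 16613440) (l 16594024)) (l 16587016)))))) (b (a (b (a (l 532552463) (l 16698392)) (a (l 533563919) (l 16663904))) (b (l 532162063) (a (l 16633392) (l 16603360)))) (a (b (a (l 16660120) (l 16627512)) (a (l 16624152) (b (l 16599072) (a (b (l 16593136) (l 16667120)) (b (l 16575712) (l 16565280)))))) (a (b (l 16595336) (b (a (l 16657744) (b (l 16562544) (l 16552352))) (a (l 16553088) (l 16535976)))) (b (b (l 16574096) (a (l 16561832) (l 16630520))) (a (l 16614640) (l 16515088)))))))), by decide +kernel⟩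

def k63_B00pm_102_s1 : ∃ t, chk3 f_B00pm_102_s1 t 13 6 1 = true :=
  ⟨(a (b (b (a (l 532913423) (c (l 533366287) (b (l 532354319) (l 16689480)))) (a (b (l 532831759) (l 16665504)) (c (l 16672056) (l 16723280)))) (b (a (b (l 16634408) (l 16685472)) (b (l 16608144) (b (l 16582976) (a (c (l 16602176) (l 16543512)) (c (l 16589000) (l 16530544)))))) (a (b (b (a (c (l 16614832) (l 16551784)) (c (l 16684736) (l 16537736))) (c (a (l 16599256) (l 16584136)) (l 16609120))) (c (l 16646304) (l 16492936))) (b (c (a (l 16578432) (l 16564280)) (a (l 16515104) (l 16502624))) (c (l 16531600) (l 16466152)))))) (a (b (b (l 532785167) (c (l 16648760) (l 16614016))) (b (b (l 16582576) (c (b (a (l 16590944) (l 16578496)) (l 16569800)) (b (a (l 16536792) (l 16524872)) (l 16513256)))) (b (a (l 16603808) (l 16507560)) (l 6)))) (b (b (c (l 16678984) (l 16740832)) (l 16691152)) (b (b (b (l 16566424) (c (l 16659040) (l 16610024))) (c (l 16637192) (l 16501144))) (l 6))))), by decide +kernel⟩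

def k64_B00pm_102_s1 : ∃ t, chk3 f_B00pm_102_s1 t 6 7 1 = true :=
  ⟨(a (b (a (b (a (b (b (a (b (l 16649912) (c (a (l 16689056) (l 16763744)) (a (l 16605424) (l 16595752)))) (c (b (a (l 16677040) (l 16668176)) (l 16664912)) (b (a (l 16596192) (l 16586880)) (l 16580944)))) (c (a (l 16756360) (l 16650704)) (a (l 16584248) (l 16563416)))) (c (a (l 16641816) (l 16617904)) (a (l 16546736) (l 16524696)))) (c (b (a (b (l 16649328) (l 16629240)) (l 16619096)) (a (l 16594760) (l 16572488))) (b (a (l 16639264) (l 16536096)) (a (l 16503608) (l 16483552))))) (b (a (c (a (l 16593120) (l 16567312)) (a (l 16490336) (l 16467488))) (c (a (l 16542800) (l 6)) (l 16519720))) (l 6))) (b (b (a (c (a (l 16599088) (l 16579648)) (a (l 16517544) (l 16499792))) (c (l 16551776) (l 16474848))) (a (c (l 16624736) (l 16455568)) (l 6))) (l 6))) (l 6)) (b (a (a (a (b (b (l 16571792) (l 6)) (l 6)) (l 6)) (l 6)) (l 6)) (l 6))), by decide +kernel⟩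

def k65_B00pm_102_s1 : ∃ t, chk3 f_B00pm_102_s1 t 7 3 1 = true :=
  ⟨(b (a (b (a (b (a (c (l 16657472) (l 16634392)) (l 16708000)) (a (l 16668160) (b (l 16578472) (b (l 16554296) (a (l 16543528) (l 16617800)))))) (a (b (l 16729512) (b (l 16557760) (b (a (l 16539104) (l 16530360)) (l 16690032)))) (b (l 16668192) (b (c (l 16639872) (l 16608784)) (l 6))))) (a (b (b (a (c (b (l 16566752) (l 16553224)) (b (l 16522440) (l 16506896))) (c (l 16540304) (l 16498272))) (a (c (l 16530832) (l 16482800)) (l 6))) (l 6)) (l 6))) (b (b (a (b (a (l 16580880) (l 16563712)) (a (l 16551296) (b (l 16541648) (l 6)))) (b (a (l 16547560) (l 6)) (l 6))) (a (a (b (c (l 16624872) (b (l 16515520) (l 6))) (l 6)) (l 6)) (l 6))) (l 6))) (l 6)), by decide +kernel⟩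

theorem t66_B00pm_102_s1 : ∃ t, chk3 f_B00pm_102_s1 t 6 6 1 = true := ex3_a k62_B00pm_102_s1 k63_B00pm_102_s1

theorem t67_B00pm_102_s1 : ∃ t, chk3 f_B00pm_102_s1 t 6 3 1 = true := ex3_b t66_B00pm_102_s1 k64_B00pm_102_s1

theorem t68_B00pm_102_s1 : ∃ t, chk3 f_B00pm_102_s1 t 3 3 1 = true := ex3_a t67_B00pm_102_s1 k65_B00pm_102_s1

theorem t69_B00pm_102_s1 : ∃ t, chk3 f_B00pm_102_s1 t 3 2 1 = true := ex3_c k60_B00pm_102_s1 k61_B00pm_102_s1

theorem t70_B00pm_102_s1 : ∃ t, chk3 f_B00pm_102_s1 t 3 1 1 = true := ex3_b t69_B00pm_102_s1 t68_B00pm_102_s1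

theorem t71_B00pm_102_s1 : ∃ t, chk3 f_B00pm_102_s1 t 11 14 1 = true := ex3_a k57_B00pm_102_s1 k58_B00pm_102_s1

theorem t72_B00pm_102_s1 : ∃ t, chk3 f_B00pm_102_s1 t 11 7 1 = true := ex3_b t71_B00pm_102_s1 k59_B00pm_102_s1

theorem t73_B00pm_102_s1 : ∃ t, chk3 f_B00pm_102_s1 t 11 13 1 = true := ex3_a k55_B00pm_102_s1 k56_B00pm_102_s1

theorem t74_B00pm_102_s1 : ∃ t, chk3 f_B00pm_102_s1 t 11 6 1 = true := ex3_b k54_B00pm_102_s1 t73_B00pm_102_s1

theorem t75_B00pm_102_s1 : ∃ t, chk3 f_B00pm_102_s1 t 11 3 1 = true := ex3_b t74_B00pm_102_s1 t72_B00pm_102_s1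

theorem t76_B00pm_102_s1 : ∃ t, chk3 f_B00pm_102_s1 t 41 15 1 = true := ex3_b k51_B00pm_102_s1 k52_B00pm_102_s1

theorem t77_B00pm_102_s1 : ∃ t, chk3 f_B00pm_102_s1 t 80 1023 3 = true := ex3_c k48_B00pm_102_s1 k49_B00pm_102_s1

theorem t78_B00pm_102_s1 : ∃ t, chk3 f_B00pm_102_s1 t 80 511 3 = true := ex3_b k47_B00pm_102_s1 t77_B00pm_102_s1

theorem t79_B00pm_102_s1 : ∃ t, chk3 f_B00pm_102_s1 t 80 511 1 = true := ex3_c k46_B00pm_102_s1 t78_B00pm_102_s1

theorem t80_B00pm_102_s1 : ∃ t, chk3 f_B00pm_102_s1 t 40 511 1 = true := ex3_a t79_B00pm_102_s1 k50_B00pm_102_s1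

theorem t81_B00pm_102_s1 : ∃ t, chk3 f_B00pm_102_s1 t 40 255 1 = true := ex3_b k45_B00pm_102_s1 t80_B00pm_102_s1

theorem t82_B00pm_102_s1 : ∃ t, chk3 f_B00pm_102_s1 t 40 127 1 = true := ex3_b k44_B00pm_102_s1 t81_B00pm_102_s1

theorem t83_B00pm_102_s1 : ∃ t, chk3 f_B00pm_102_s1 t 40 63 1 = true := ex3_b k43_B00pm_102_s1 t82_B00pm_102_s1

theorem t84_B00pm_102_s1 : ∃ t, chk3 f_B00pm_102_s1 t 40 31 1 = true := ex3_b k42_B00pm_102_s1 t83_B00pm_102_s1

theorem t85_B00pm_102_s1 : ∃ t, chk3 f_B00pm_102_s1 t 40 15 1 = true := ex3_b k41_B00pm_102_s1 t84_B00pm_102_s1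

theorem t86_B00pm_102_s1 : ∃ t, chk3 f_B00pm_102_s1 t 20 15 1 = true := ex3_a t85_B00pm_102_s1 t76_B00pm_102_s1

theorem t87_B00pm_102_s1 : ∃ t, chk3 f_B00pm_102_s1 t 10 15 1 = true := ex3_a t86_B00pm_102_s1 k53_B00pm_102_s1

theorem t88_B00pm_102_s1 : ∃ t, chk3 f_B00pm_102_s1 t 42 118 1 = true := ex3_a k37_B00pm_102_s1 k38_B00pm_102_s1

theorem t89_B00pm_102_s1 : ∃ t, chk3 f_B00pm_102_s1 t 42 59 1 = true := ex3_b t88_B00pm_102_s1 k39_B00pm_102_s1

theorem t90_B00pm_102_s1 : ∃ t, chk3 f_B00pm_102_s1 t 42 29 1 = true := ex3_b k36_B00pm_102_s1 t89_B00pm_102_s1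

theorem t91_B00pm_102_s1 : ∃ t, chk3 f_B00pm_102_s1 t 21 29 1 = true := ex3_a t90_B00pm_102_s1 k40_B00pm_102_s1

theorem t92_B00pm_102_s1 : ∃ t, chk3 f_B00pm_102_s1 t 21 14 1 = true := ex3_b k35_B00pm_102_s1 t91_B00pm_102_s1

theorem t93_B00pm_102_s1 : ∃ t, chk3 f_B00pm_102_s1 t 41 59 3 = true := ex3_b k33_B00pm_102_s1 k34_B00pm_102_s1

theorem t94_B00pm_102_s1 : ∃ t, chk3 f_B00pm_102_s1 t 41 29 3 = true := ex3_b k32_B00pm_102_s1 t93_B00pm_102_s1

theorem t95_B00pm_102_s1 : ∃ t, chk3 f_B00pm_102_s1 t 41 29 1 = true := ex3_c k31_B00pm_102_s1 t94_B00pm_102_s1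

theorem t96_B00pm_102_s1 : ∃ t, chk3 f_B00pm_102_s1 t 20 29 1 = true := ex3_a k30_B00pm_102_s1 t95_B00pm_102_s1

theorem t97_B00pm_102_s1 : ∃ t, chk3 f_B00pm_102_s1 t 20 14 1 = true := ex3_b k29_B00pm_102_s1 t96_B00pm_102_s1

theorem t98_B00pm_102_s1 : ∃ t, chk3 f_B00pm_102_s1 t 10 14 1 = true := ex3_a t97_B00pm_102_s1 t92_B00pm_102_s1

theorem t99_B00pm_102_s1 : ∃ t, chk3 f_B00pm_102_s1 t 10 7 1 = true := ex3_b t98_B00pm_102_s1 t87_B00pm_102_s1

theorem t100_B00pm_102_s1 : ∃ t, chk3 f_B00pm_102_s1 t 10 3 1 = true := ex3_b k28_B00pm_102_s1 t99_B00pm_102_s1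

theorem t101_B00pm_102_s1 : ∃ t, chk3 f_B00pm_102_s1 t 5 3 1 = true := ex3_a t100_B00pm_102_s1 t75_B00pm_102_s1

theorem t102_B00pm_102_s1 : ∃ t, chk3 f_B00pm_102_s1 t 159 1023 3 = true := ex3_c k26_B00pm_102_s1 k27_B00pm_102_s1

theorem t103_B00pm_102_s1 : ∃ t, chk3 f_B00pm_102_s1 t 159 511 3 = true := ex3_b k25_B00pm_102_s1 t102_B00pm_102_s1

theorem t104_B00pm_102_s1 : ∃ t, chk3 f_B00pm_102_s1 t 159 511 1 = true := ex3_c k24_B00pm_102_s1 t103_B00pm_102_s1

theorem t105_B00pm_102_s1 : ∃ t, chk3 f_B00pm_102_s1 t 159 255 1 = true := ex3_b k23_B00pm_102_s1 t104_B00pm_102_s1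

theorem t106_B00pm_102_s1 : ∃ t, chk3 f_B00pm_102_s1 t 158 511 3 = true := ex3_b k21_B00pm_102_s1 k22_B00pm_102_s1

theorem t107_B00pm_102_s1 : ∃ t, chk3 f_B00pm_102_s1 t 158 255 3 = true := ex3_b k20_B00pm_102_s1 t106_B00pm_102_s1

theorem t108_B00pm_102_s1 : ∃ t, chk3 f_B00pm_102_s1 t 158 255 1 = true := ex3_c k19_B00pm_102_s1 t107_B00pm_102_s1

theorem t109_B00pm_102_s1 : ∃ t, chk3 f_B00pm_102_s1 t 79 255 1 = true := ex3_a t108_B00pm_102_s1 t105_B00pm_102_s1

theorem t110_B00pm_102_s1 : ∃ t, chk3 f_B00pm_102_s1 t 79 127 1 = true := ex3_b k18_B00pm_102_s1 t109_B00pm_102_s1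

theorem t111_B00pm_102_s1 : ∃ t, chk3 f_B00pm_102_s1 t 78 127 1 = true := ex3_c k16_B00pm_102_s1 k17_B00pm_102_s1

theorem t112_B00pm_102_s1 : ∃ t, chk3 f_B00pm_102_s1 t 39 127 1 = true := ex3_a t111_B00pm_102_s1 t110_B00pm_102_s1

theorem t113_B00pm_102_s1 : ∃ t, chk3 f_B00pm_102_s1 t 39 63 1 = true := ex3_b k15_B00pm_102_s1 t112_B00pm_102_s1

theorem t114_B00pm_102_s1 : ∃ t, chk3 f_B00pm_102_s1 t 39 31 1 = true := ex3_b k14_B00pm_102_s1 t113_B00pm_102_s1

theorem t115_B00pm_102_s1 : ∃ t, chk3 f_B00pm_102_s1 t 19 31 1 = true := ex3_a k13_B00pm_102_s1 t114_B00pm_102_s1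

theorem t116_B00pm_102_s1 : ∃ t, chk3 f_B00pm_102_s1 t 39 30 1 = true := ex3_b k11_B00pm_102_s1 k12_B00pm_102_s1

theorem t117_B00pm_102_s1 : ∃ t, chk3 f_B00pm_102_s1 t 19 30 1 = true := ex3_a k10_B00pm_102_s1 t116_B00pm_102_s1

theorem t118_B00pm_102_s1 : ∃ t, chk3 f_B00pm_102_s1 t 19 15 1 = true := ex3_b t117_B00pm_102_s1 t115_B00pm_102_s1

theorem t119_B00pm_102_s1 : ∃ t, chk3 f_B00pm_102_s1 t 19 7 1 = true := ex3_b k9_B00pm_102_s1 t118_B00pm_102_s1

theorem t120_B00pm_102_s1 : ∃ t, chk3 f_B00pm_102_s1 t 36 31 1 = true := ex3_b k6_B00pm_102_s1 k7_B00pm_102_s1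

theorem t121_B00pm_102_s1 : ∃ t, chk3 f_B00pm_102_s1 t 18 31 1 = true := ex3_a t120_B00pm_102_s1 k8_B00pm_102_s1

theorem t122_B00pm_102_s1 : ∃ t, chk3 f_B00pm_102_s1 t 18 30 1 = true := ex3_a k4_B00pm_102_s1 k5_B00pm_102_s1

theorem t123_B00pm_102_s1 : ∃ t, chk3 f_B00pm_102_s1 t 18 15 1 = true := ex3_b t122_B00pm_102_s1 t121_B00pm_102_s1

theorem t124_B00pm_102_s1 : ∃ t, chk3 f_B00pm_102_s1 t 18 7 1 = true := ex3_b k3_B00pm_102_s1 t123_B00pm_102_s1

theorem t125_B00pm_102_s1 : ∃ t, chk3 f_B00pm_102_s1 t 9 7 1 = true := ex3_a t124_B00pm_102_s1 t119_B00pm_102_s1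

theorem t126_B00pm_102_s1 : ∃ t, chk3 f_B00pm_102_s1 t 4 7 1 = true := ex3_a k2_B00pm_102_s1 t125_B00pm_102_s1

theorem t127_B00pm_102_s1 : ∃ t, chk3 f_B00pm_102_s1 t 4 3 1 = true := ex3_b k1_B00pm_102_s1 t126_B00pm_102_s1

theorem t128_B00pm_102_s1 : ∃ t, chk3 f_B00pm_102_s1 t 2 3 1 = true := ex3_a t127_B00pm_102_s1 t101_B00pm_102_s1

theorem t129_B00pm_102_s1 : ∃ t, chk3 f_B00pm_102_s1 t 2 1 1 = true := ex3_b k0_B00pm_102_s1 t128_B00pm_102_s1

theorem t130_B00pm_102_s1 : ∃ t, chk3 f_B00pm_102_s1 t 1 1 1 = true := ex3_a t129_B00pm_102_s1 t70_B00pm_102_s1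

theorem c_B00pm_102_s1 : CertF 536870912 536870912 0 536870912 858993459 64424510 false true false .npp 1 0 2
    ndB0q1 ndB0q2 pcB0 cut_B00pm_102_s1 xt_B00pm_102_s1 :=
  certF2 (fam := false) (s1 := true) (s2 := false) (a := 1) (b := 0) (c := 2) (cn := .npp) (n1 := ndB0q1) (n2 := ndB0q2) (pc := pcB0) (cut := cut_B00pm_102_s1) (xt := xt_B00pm_102_s1) (P1 := 536870912) (W1 := 536870912) (P2 := 0) (W2 := 536870912) (P3 := 858993459) (W3 := 64424510)
    rfl (fun _ => rfl) t130_B00pm_102_s1

theorem s_B00pm_102_s1 {κ x : ℝ} (hκ : κ * h0 = ken x) (hx : ((858993459 : ℕ) : ℝ) / S ≤ x)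
    (hx' : x ≤ (((858993459 : ℕ) : ℝ) + (64424510 : ℕ)) / S)
    (H : CutB (VFD κ) PP tK tL pcB (Cut.of [[⟨0, 1, 0, 67108864⟩, ⟨1, 0, 0, 67108864⟩, ⟨2, 1, 0, 67108864⟩], [⟨0, 0, 1, 20971520⟩, ⟨1, 1, 2, 20971520⟩, ⟨2, 1, 0, 16777216⟩]]) 1 0 2 0 0 (sgb true) (sgb false) x) :
    AltB (VFD κ) PP tK tL pcB [⟨3, 0, 0, 1449551462⟩] 1 0 2 0 0 (sgb true) (sgb false) x :=
  strip_altBD (m := 1449551462) true rfl hκ (SH.κ0 hκ (SH.hx1 hx).le (SH.hx2 hx').le) (SH.hx1 hx).le (SH.hx2 hx') (covB01).cov (covB02).cov hx hx' c_B00pm_102_s1 H ((okx hx hx').extB (T := tt) (sideB hx hx') hκ rfl rfl (.O 1 true) (.O 2 false) (Or.inl rfl))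

noncomputable def cut_B00pm_102_s3 : Cut := Cut.of [[⟨3, 0, 0, 2845415833⟩], [⟨0, 1, 0, 67108864⟩, ⟨1, 0, 0, 67108864⟩, ⟨2, 1, 0, 67108864⟩], [⟨0, 0, 1, 20971520⟩, ⟨1, 1, 2, 20971520⟩, ⟨2, 1, 0, 16777216⟩]]

noncomputable def f_B00pm_102_s3 : ℕ → ℕ → ℕ → ℕ → Bool := onCell 536870912 536870912 0 536870912 858993459 64424510
    (rowF 0 false true false .npp 1 0 2 (qsf 536870912 536870912 0 536870912 0) ndB0q1 ndB0q2 pcB0 cut_B00pm_102_s3 Ext.none)

def k0_B00pm_102_s3 : ∃ t, chk3 f_B00pm_102_s3 t 1 1 1 = true :=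
  ⟨(l 6), by decide +kernel⟩

theorem c_B00pm_102_s3 : CertF 536870912 536870912 0 536870912 858993459 64424510 false true false .npp 1 0 2
    ndB0q1 ndB0q2 pcB0 cut_B00pm_102_s3 Ext.none :=
  certF0 (fam := false) (s1 := true) (s2 := false) (a := 1) (b := 0) (c := 2) (cn := .npp) (n1 := ndB0q1) (n2 := ndB0q2) (pc := pcB0) (cut := cut_B00pm_102_s3) (xt := Ext.none) (P1 := 536870912) (W1 := 536870912) (P2 := 0) (W2 := 536870912) (P3 := 858993459) (W3 := 64424510)
    rfl k0_B00pm_102_s3

theorem s_B00pm_102_s3 {κ x : ℝ} (hκ : κ * h0 = ken x) (hx : ((858993459 : ℕ) : ℝ) / S ≤ x)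
    (hx' : x ≤ (((858993459 : ℕ) : ℝ) + (64424510 : ℕ)) / S)
    (H : CutB (VFD κ) PP tK tL pcB (Cut.of [[⟨0, 1, 0, 67108864⟩, ⟨1, 0, 0, 67108864⟩, ⟨2, 1, 0, 67108864⟩], [⟨0, 0, 1, 20971520⟩, ⟨1, 1, 2, 20971520⟩, ⟨2, 1, 0, 16777216⟩]]) 1 0 2 0 0 (sgb true) (sgb false) x) :
    AltB (VFD κ) PP tK tL pcB [⟨4, 0, 0, 2845415833⟩] 1 0 2 0 0 (sgb true) (sgb false) x :=
  strip_altBD (m := 2845415833) false rfl hκ (SH.κ0 hκ (SH.hx1 hx).le (SH.hx2 hx').le) (SH.hx1 hx).le (SH.hx2 hx') (covB01).cov (covB02).cov hx hx' c_B00pm_102_s3 H (noExt_B)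

end Pool.Agent.Strip051.G.I8000_8600.Tab.St.C
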