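import Pool.Agent.Strip051.G.I8000_8600.StH
import Pool.Agent.Strip051.G.I8000_8600.StF

/-! # Unit strips 19 (generated) -/

set_option linter.all false
set_option maxRecDepth 100000

namespace Pool.Agent.Strip051.G.I8000_8600.Tab.St.C

open Pool.Agent.Strip051.PB Pool.Agent.Strip051.PB.T Pool.Agent.StripNear Pool.Agent.Strip051.LC
open Pool.Agent.Strip051.G.I8000_8600.Tab Pool.Agent.Strip051.G.I8000_8600.Tab.St

noncomputable def cut_B00pm_112_s1 : Cut := Cut.of [[⟨4, 0, 0, 1449551462⟩]]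

noncomputable def xt_B00pm_112_s1 : Ext := strExt dd false true false .u0 .u2 .u0m .dn 1 1 2 rfl rfl gf1 vv ndB0q1 ndB0q2

noncomputable def f_B00pm_112_s1 : ℕ → ℕ → ℕ → ℕ → Bool := onCell 536870912 536870912 0 536870912 858993459 64424510
    (rowF 2 false true false .dn 1 1 2 (qsf 536870912 536870912 0 536870912 1) ndB0q1 ndB0q2 pcB1 cut_B00pm_112_s1 xt_B00pm_112_s1)

def k0_B00pm_112_s1 : ∃ t, chk3 f_B00pm_112_s1 t 8 4 1 = true :=
  ⟨(c (b (a (b (l 3) (c (c (a (l 529660175) (l 529937423)) (l 531394063)) (l 533698063))) (c (c (a (l 530101775) (l 530335503)) (l 531745807)) (l 533155599))) (c (c (b (a (b (l 530201871) (a (a (l 529805071) (l 529941263)) (l 530151183))) (c (b (l 530071567) (l 530157071)) (l 531110927))) (b (a (a (c (l 529532943) (l 530304783)) (l 530208271)) (c (l 530226703) (l 530949903))) (a (a (c (l 529569295) (l 530336271)) (l 530253071)) (a (l 530520335) (l 530761487))))) (a (b (b (l 531505423) (a (l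 531460879) (l 531689487))) (a (b (l 531481359) (l 531503887)) (l 532019215))) (b (l 531692047) (a (l 531974415) (l 532171791))))) (a (a (b (l 533168143) (l 532590863)) (b (l 533852687) (l 533868559))) (b (l 533539599) (c (l 533510159) (l 534292239)))))) (b (c (a (l 533891087) (l 533878543)) (a (l 530644495) (c (l 532105231) (l 530377487)))) (c (a (c (b (l 534145551) (l 534026255)) (b (l 533371663) (l 533294095))) (b (l 533825807) (a (l 533754127) (l 533768463)))) (a (b (c (l 532012815) (a (l 530178063) (l 530237711))) (c (l 531982607) (a (l 530172687) (l 530232847)))) (b (c (l 532068623) (l 530381583)) (c (l 532031503) (c (l 530819855) (l 529907983)))))))), by decide +kernel⟩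

def k1_B00pm_112_s1 : ∃ t, chk3 f_B00pm_112_s1 t 9 4 1 = true :=
  ⟨(c (a (c (b (c (c (l 530836751) (l 531007247)) (l 532088847)) (b (c (c (l 530562063) (l 531252239)) (l 532305679)) (c (a (l 530950671) (l 531152143)) (l 532428559)))) (b (l 533913103) (b (l 534311439) (l 534098447)))) (c (b (c (a (l 530936591) (l 531111183)) (l 532367631)) (b (c (c (l 530954511) (l 531599631)) (l 532584975)) (c (a (l 531340047) (l 531516175)) (l 532715791)))) (b (l 534067983) (c (l 533940751) (l 534583311))))) (c (b (a (l 533891599) (l 533928719)) (a (c (l 534156559) (l 533370895)) (c (l 534224655) (l 533454351)))) (b (a (c (l 532221711) (l 530653711)) (l 531179791)) (a (b (l 530920207) (l 530896143)) (b (l 531163919) (l 531139855)))))), by decide +kernel⟩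

def k2_B00pm_112_s1 : ∃ t, chk3 f_B00pm_112_s1 t 8 10 1 = true :=
  ⟨(c (c (c (c (a (b (a (b (l 529609231) (l 529658895)) (b (l 529927439) (l 529979919))) (a (b (l 529715215) (l 529782031)) (b (l 530037519) (l 530103311)))) (b (a (b (l 530210831) (l 530267407)) (l 530497551)) (a (a (l 530289935) (l 16518312)) (c (l 16495936) (l 16471168))))) (b (a (a (l 530392079) (l 530692367)) (b (l 531053583) (l 531106063))) (a (a (l 530492943) (l 530795791)) (a (l 531066383) (l 16581056))))) (b (a (a (l 531544079) (l 531814671)) (c (l 531797263) (l 532515599))) (a (a (l 531352335) (l 531626255)) (c (l 532967951) (l 532595215))))) (a (b (c (l 533148943) (l 533965327)) (c (l 533174031) (l 533866511))) (b (c (l 533548815) (l 534203151)) (a (l 533946895) (l 534097423))))) (c (c (a (b (l 533904911) (l 533768463)) (b (l 533981967) (l 533857551))) (a (b (l 533199375) (l 533075727)) (b (l 533215759) (l 533103375)))) (c (a (b (l 531932175)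 (l 531852815)) (b (l 531983375) (l 531906575))) (a (b (c (l 530663183) (l 529684239)) (c (l 530626831) (l 529677839))) (b (c (l 530798095) (l 529900559)) (a (l 530278927) (l 16450344))))))), by decide +kernel⟩

def k3_B00pm_112_s1 : ∃ t, chk3 f_B00pm_112_s1 t 8 11 1 = true :=
  ⟨(c (c (c (a (c (b (a (b (l 529858319) (l 529941007)) (a (l 530140431) (l 530291471))) (a (b (l 530028815) (a (l 16351808) (l 6))) (b (l 16371816) (l 6)))) (b (a (l 530629391) (l 530928399)) (b (a (l 16427816) (l 16415328)) (a (a (l 16396352) (l 6)) (l 6))))) (b (a (c (c (l 530333455) (l 16420496)) (l 16450480)) (b (l 531069199) (l 6))) (l 6))) (a (a (b (l 531462159) (b (l 16489472) (a (l 16463216) (l 6)))) (b (l 532002063) (b (l 16480752) (l 6)))) (b (a (l 532243727) (l 532460303)) (l 6)))) (a (b (a (l 533543695) (l 533740047)) (b (l 532564751) (a (l 16481904) (l 6)))) (b (b (l 533455887) (l 533439759)) (l 6)))) (a (b (c (c (l 533637135) (l 532938511))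 (c (l 531749135) (a (l 530106639) (l 530153743)))) (b (c (a (l 16569752) (l 16553080)) (a (l 529838095) (l 530396175))) (a (a (c (l 16546104) (l 16318904)) (l 6)) (l 6)))) (b (a (c (l 533392911) (b (l 530267919) (l 530222863))) (c (l 533425423) (c (l 16461864) (l 530328079)))) (l 6)))), by decide +kernel⟩

def k4_B00pm_112_s1 : ∃ t, chk3 f_B00pm_112_s1 t 9 5 1 = true :=
  ⟨(b (a (c (c (c (c (b (a (l 530734863) (l 530954767)) (a (c (l 16436352) (l 16454624)) (l 16471728))) (b (l 531514127) (a (l 16482296) (l 16468592)))) (b (l 532529423) (a (l 532542991) (l 16359648)))) (b (l 533807375) (b (l 534301711) (l 16451888)))) (c (b (l 533715983) (b (l 533635599) (l 533576975))) (b (a (l 530544399) (l 530921743)) (a (l 530486543) (l 530593551))))) (a (c (c (c (c (b (l 16515104) (l 16415432)) (b (l 16506984) (l 16455976))) (b (l 16432600) (l 16517464))) (b (l 16567056) (l 16535888))) (b (c (l 533772047) (l 531580175)) (c (l 16632080)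 (l 530713871)))) (b (c (c (c (a (l 16520360) (l 16434376)) (l 16546696)) (l 16560952)) (c (l 16432008) (l 531711759))) (l 6)))) (a (l 6) (l 6))), by decide +kernel⟩

def k5_B00pm_112_s1 : ∃ t, chk3 f_B00pm_112_s1 t 5 2 1 = true :=
  ⟨(b (a (b (a (c (c (a (c (l 531276559) (l 532545039)) (c (c (l 531133967) (l 531733263)) (l 532650255))) (l 532825359)) (c (l 532913167) (a (l 531918095) (l 532056335)))) (l 1)) (c (c (a (c (a (b (l 531525903) (l 531683087)) (b (l 531681039) (a (l 16540080) (l 16532616)))) (b (l 532812303) (a (l 16488728) (l 16476216)))) (l 1)) (a (a (l 534076943) (l 533321743)) (l 1))) (a (c (c (l 534023951) (l 533562127)) (b (a (l 531906575) (l 532048911)) (a (l 531883791) (l 532027919)))) (l 1)))) (l 1)) (b (b (b (a (a (a (c (c (a (l 532355087) (l 532426767)) (l 16646040)) (c (l 16598056) (l 16393064))) (l 6)) (l 1)) (l 1)) (l 6)) (l 6)) (l 6))), by decide +kernel⟩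

def k6_B00pm_112_s1 : ∃ t, chk3 f_B00pm_112_s1 t 2 3 1 = true :=
  ⟨(a (b (l 6) (l 6)) (l 6)), by decide +kernel⟩

def k7_B00pm_112_s1 : ∃ t, chk3 f_B00pm_112_s1 t 3 1 1 = true :=
  ⟨(l 1), by decide +kernel⟩

theorem t8_B00pm_112_s1 : ∃ t, chk3 f_B00pm_112_s1 t 8 5 1 = true := ex3_b k2_B00pm_112_s1 k3_B00pm_112_s1

theorem t9_B00pm_112_s1 : ∃ t, chk3 f_B00pm_112_s1 t 4 5 1 = true := ex3_a t8_B00pm_112_s1 k4_B00pm_112_s1

theorem t10_B00pm_112_s1 : ∃ t, chk3 f_B00pm_112_s1 t 4 4 1 = true := ex3_a k0_B00pm_112_s1 k1_B00pm_112_s1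

theorem t11_B00pm_112_s1 : ∃ t, chk3 f_B00pm_112_s1 t 4 2 1 = true := ex3_b t10_B00pm_112_s1 t9_B00pm_112_s1

theorem t12_B00pm_112_s1 : ∃ t, chk3 f_B00pm_112_s1 t 2 2 1 = true := ex3_a t11_B00pm_112_s1 k5_B00pm_112_s1

theorem t13_B00pm_112_s1 : ∃ t, chk3 f_B00pm_112_s1 t 2 1 1 = true := ex3_b t12_B00pm_112_s1 k6_B00pm_112_s1

theorem t14_B00pm_112_s1 : ∃ t, chk3 f_B00pm_112_s1 t 1 1 1 = true := ex3_a t13_B00pm_112_s1 k7_B00pm_112_s1

theorem c_B00pm_112_s1 : CertF 536870912 536870912 0 536870912 858993459 64424510 false true false .dn 1 1 2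
    ndB0q1 ndB0q2 pcB1 cut_B00pm_112_s1 xt_B00pm_112_s1 :=
  certF2 (fam := false) (s1 := true) (s2 := false) (a := 1) (b := 1) (c := 2) (cn := .dn) (n1 := ndB0q1) (n2 := ndB0q2) (pc := pcB1) (cut := cut_B00pm_112_s1) (xt := xt_B00pm_112_s1) (P1 := 536870912) (W1 := 536870912) (P2 := 0) (W2 := 536870912) (P3 := 858993459) (W3 := 64424510)
    rfl (fun _ => rfl) t14_B00pm_112_s1

theorem s_B00pm_112_s1 {κ x : ℝ} (hκ : κ * h0 = ken x) (hx : ((858993459 : ℕ) : ℝ) / S ≤ x)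
    (hx' : x ≤ (((858993459 : ℕ) : ℝ) + (64424510 : ℕ)) / S) :
    AltB (VFD κ) PP tK tL pcB [⟨3, 0, 0, 1449551462⟩] 1 1 2 0 0 (sgb true) (sgb false) x :=
  strip_altBD (m := 1449551462) true rfl hκ (SH.κ0 hκ (SH.hx1 hx).le (SH.hx2 hx').le) (SH.hx1 hx).le (SH.hx2 hx') (covB01).cov (covB02).cov hx hx' c_B00pm_112_s1 cutB_nil ((okx hx hx').extB (T := tt) (sideB hx hx') hκ rfl rfl (.O 1 true) (.O 2 false) (Or.inr rfl))

noncomputable def cut_B00pm_112_s3 : Cut := Cut.of [[⟨3, 0, 0, 2845415833⟩]]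

noncomputable def f_B00pm_112_s3 : ℕ → ℕ → ℕ → ℕ → Bool := onCell 536870912 536870912 0 536870912 858993459 64424510
    (rowF 0 false true false .dn 1 1 2 (qsf 536870912 536870912 0 536870912 1) ndB0q1 ndB0q2 pcB1 cut_B00pm_112_s3 Ext.none)

def k0_B00pm_112_s3 : ∃ t, chk3 f_B00pm_112_s3 t 1 1 1 = true :=
  ⟨(l 6), by decide +kernel⟩

theorem c_B00pm_112_s3 : CertF 536870912 536870912 0 536870912 858993459 64424510 false true false .dn 1 1 2
    ndB0q1 ndB0q2 pcB1 cut_B00pm_112_s3 Ext.none :=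
  certF0 (fam := false) (s1 := true) (s2 := false) (a := 1) (b := 1) (c := 2) (cn := .dn) (n1 := ndB0q1) (n2 := ndB0q2) (pc := pcB1) (cut := cut_B00pm_112_s3) (xt := Ext.none) (P1 := 536870912) (W1 := 536870912) (P2 := 0) (W2 := 536870912) (P3 := 858993459) (W3 := 64424510)
    rfl k0_B00pm_112_s3

theorem s_B00pm_112_s3 {κ x : ℝ} (hκ : κ * h0 = ken x) (hx : ((858993459 : ℕ) : ℝ) / S ≤ x)
    (hx' : x ≤ (((858993459 : ℕ) : ℝ) + (64424510 : ℕ)) / S) :
    AltB (VFD κ) PP tK tL pcB [⟨4, 0, 0, 2845415833⟩] 1 1 2 0 0 (sgb true) (sgb false) x :=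
  strip_altBD (m := 2845415833) false rfl hκ (SH.κ0 hκ (SH.hx1 hx).le (SH.hx2 hx').le) (SH.hx1 hx).le (SH.hx2 hx') (covB01).cov (covB02).cov hx hx' c_B00pm_112_s3 cutB_nil (noExt_B)

noncomputable def cut_B00pm_202_s1 : Cut := Cut.of [[⟨4, 0, 0, 1449551462⟩], [⟨0, 1, 0, 67108864⟩, ⟨1, 0, 0, 67108864⟩, ⟨2, 1, 0, 67108864⟩]]

noncomputable def f_B00pm_202_s1 : ℕ → ℕ → ℕ → ℕ → Bool := onCell 0 536870912 0 536870912 858993459 64424510
    (rowF 0 false true false .pp 2 0 2 (qsf 0 536870912 0 536870912 0) ndB0q2 ndB0q2 pcB0 cut_B00pm_202_s1 Ext.none)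

def k0_B00pm_202_s1 : ∃ t, chk3 f_B00pm_202_s1 t 1 1 1 = true :=
  ⟨(a (l 3) (b (l 3) (a (l 3) (b (l 3) (b (l 3) (a (l 3) (l 14))))))), by decide +kernel⟩

theorem c_B00pm_202_s1 : CertF 0 536870912 0 536870912 858993459 64424510 false true false .pp 2 0 2
    ndB0q2 ndB0q2 pcB0 cut_B00pm_202_s1 Ext.none :=
  certF0 (fam := false) (s1 := true) (s2 := false) (a := 2) (b := 0) (c := 2) (cn := .pp) (n1 := ndB0q2) (n2 := ndB0q2) (pc := pcB0) (cut := cut_B00pm_202_s1) (xt := Ext.none) (P1 := 0) (W1 := 536870912) (P2 := 0) (W2 := 536870912) (P3 := 858993459) (W3 := 64424510)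
    rfl k0_B00pm_202_s1

theorem s_B00pm_202_s1 {κ x : ℝ} (hκ : κ * h0 = ken x) (hx : ((858993459 : ℕ) : ℝ) / S ≤ x)
    (hx' : x ≤ (((858993459 : ℕ) : ℝ) + (64424510 : ℕ)) / S)
    (H : CutB (VFD κ) PP tK tL pcB (Cut.of [[⟨0, 1, 0, 67108864⟩, ⟨1, 0, 0, 67108864⟩, ⟨2, 1, 0, 67108864⟩]]) 2 0 2 0 0 (sgb true) (sgb false) x) :
    AltB (VFD κ) PP tK tL pcB [⟨3, 0, 0, 1449551462⟩] 2 0 2 0 0 (sgb true) (sgb false) x :=
  strip_altBD (m := 1449551462) true rfl hκ (SH.κ0 hκ (SH.hx1 hx).le (SH.hx2 hx').le) (SH.hx1 hx).le (SH.hx2 hx') (covB02).cov (covB02).cov hx hx' c_B00pm_202_s1 H (noExt_B)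

noncomputable def cut_B00pm_202_s3 : Cut := Cut.of [[⟨3, 0, 0, 2845415833⟩], [⟨0, 1, 0, 67108864⟩, ⟨1, 0, 0, 67108864⟩, ⟨2, 1, 0, 67108864⟩]]

noncomputable def f_B00pm_202_s3 : ℕ → ℕ → ℕ → ℕ → Bool := onCell 0 536870912 0 536870912 858993459 64424510
    (rowF 0 false true false .pp 2 0 2 (qsf 0 536870912 0 536870912 0) ndB0q2 ndB0q2 pcB0 cut_B00pm_202_s3 Ext.none)

def k0_B00pm_202_s3 : ∃ t, chk3 f_B00pm_202_s3 t 1 1 1 = true :=
  ⟨(l 6), by decide +kernel⟩

theorem c_B00pm_202_s3 : CertF 0 536870912 0 536870912 858993459 64424510 false true false .pp 2 0 2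
    ndB0q2 ndB0q2 pcB0 cut_B00pm_202_s3 Ext.none :=
  certF0 (fam := false) (s1 := true) (s2 := false) (a := 2) (b := 0) (c := 2) (cn := .pp) (n1 := ndB0q2) (n2 := ndB0q2) (pc := pcB0) (cut := cut_B00pm_202_s3) (xt := Ext.none) (P1 := 0) (W1 := 536870912) (P2 := 0) (W2 := 536870912) (P3 := 858993459) (W3 := 64424510)
    rfl k0_B00pm_202_s3

theorem s_B00pm_202_s3 {κ x : ℝ} (hκ : κ * h0 = ken x) (hx : ((858993459 : ℕ) : ℝ) / S ≤ x)
    (hx' : x ≤ (((858993459 : ℕ) : ℝ) + (64424510 : ℕ)) / S)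
    (H : CutB (VFD κ) PP tK tL pcB (Cut.of [[⟨0, 1, 0, 67108864⟩, ⟨1, 0, 0, 67108864⟩, ⟨2, 1, 0, 67108864⟩]]) 2 0 2 0 0 (sgb true) (sgb false) x) :
    AltB (VFD κ) PP tK tL pcB [⟨4, 0, 0, 2845415833⟩] 2 0 2 0 0 (sgb true) (sgb false) x :=
  strip_altBD (m := 2845415833) false rfl hκ (SH.κ0 hκ (SH.hx1 hx).le (SH.hx2 hx').le) (SH.hx1 hx).le (SH.hx2 hx') (covB02).cov (covB02).cov hx hx' c_B00pm_202_s3 H (noExt_B)

noncomputable def cut_B00mm_001_s1 : Cut := Cut.of [[⟨4, 0, 0, 1449551462⟩]]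

noncomputable def f_B00mm_001_s1 : ℕ → ℕ → ℕ → ℕ → Bool := onCell 0 536870912 0 536870912 858993459 64424510
    (rowF 1 false false false .up 0 0 1 (qsf 0 536870912 536870912 536870912 0) ndB0q0 ndB0q1 pcB0 cut_B00mm_001_s1 Ext.none)

def k0_B00mm_001_s1 : ∃ t, chk3 f_B00mm_001_s1 t 1 1 1 = true :=
  ⟨(l 3), by decide +kernel⟩

theorem c_B00mm_001_s1 : CertF 0 536870912 536870912 536870912 858993459 64424510 false false false .up 0 0 1
    ndB0q0 ndB0q1 pcB0 cut_B00mm_001_s1 Ext.none :=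
  certF1 (fam := false) (s1 := false) (s2 := false) (a := 0) (b := 0) (c := 1) (cn := .up) (n1 := ndB0q0) (n2 := ndB0q1) (pc := pcB0) (cut := cut_B00mm_001_s1) (xt := Ext.none) (P1 := 0) (W1 := 536870912) (P2 := 536870912) (W2 := 536870912) (P3 := 858993459) (W3 := 64424510)
    rfl (fun _ => rfl) k0_B00mm_001_s1

theorem s_B00mm_001_s1 {κ x : ℝ} (hκ : κ * h0 = ken x) (hx : ((858993459 : ℕ) : ℝ) / S ≤ x)
    (hx' : x ≤ (((858993459 : ℕ) : ℝ) + (64424510 : ℕ)) / S) :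
    AltB (VFD κ) PP tK tL pcB [⟨3, 0, 0, 1449551462⟩] 0 0 1 0 0 (sgb false) (sgb false) x :=
  strip_altBD (m := 1449551462) true rfl hκ (SH.κ0 hκ (SH.hx1 hx).le (SH.hx2 hx').le) (SH.hx1 hx).le (SH.hx2 hx') (covB00).cov (covB01).cov hx hx' c_B00mm_001_s1 cutB_nil (noExt_B)

noncomputable def cut_B00mm_001_s3 : Cut := Cut.of [[⟨3, 0, 0, 2845415833⟩]]

noncomputable def f_B00mm_001_s3 : ℕ → ℕ → ℕ → ℕ → Bool := onCell 0 536870912 536870912 536870912 858993459 64424510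
    (rowF 0 false false false .up 0 0 1 (qsf 0 536870912 536870912 536870912 0) ndB0q0 ndB0q1 pcB0 cut_B00mm_001_s3 Ext.none)

def k0_B00mm_001_s3 : ∃ t, chk3 f_B00mm_001_s3 t 1 1 1 = true :=
  ⟨(l 6), by decide +kernel⟩

theorem c_B00mm_001_s3 : CertF 0 536870912 536870912 536870912 858993459 64424510 false false false .up 0 0 1
    ndB0q0 ndB0q1 pcB0 cut_B00mm_001_s3 Ext.none :=
  certF0 (fam := false) (s1 := false) (s2 := false) (a := 0) (b := 0) (c := 1) (cn := .up) (n1 := ndB0q0) (n2 := ndB0q1) (pc := pcB0) (cut := cut_B00mm_001_s3) (xt := Ext.none) (P1 := 0) (W1 := 536870912) (P2 := 536870912) (W2 := 536870912) (P3 := 858993459) (W3 := 64424510)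
    rfl k0_B00mm_001_s3

theorem s_B00mm_001_s3 {κ x : ℝ} (hκ : κ * h0 = ken x) (hx : ((858993459 : ℕ) : ℝ) / S ≤ x)
    (hx' : x ≤ (((858993459 : ℕ) : ℝ) + (64424510 : ℕ)) / S) :
    AltB (VFD κ) PP tK tL pcB [⟨4, 0, 0, 2845415833⟩] 0 0 1 0 0 (sgb false) (sgb false) x :=
  strip_altBD (m := 2845415833) false rfl hκ (SH.κ0 hκ (SH.hx1 hx).le (SH.hx2 hx').le) (SH.hx1 hx).le (SH.hx2 hx') (covB00).cov (covB01).cov hx hx' c_B00mm_001_s3 cutB_nil (noExt_B)

noncomputable def cut_B00mm_011_s1 : Cut := Cut.of [[⟨4, 0, 0, 1449551462⟩]]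

noncomputable def f_B00mm_011_s1 : ℕ → ℕ → ℕ → ℕ → Bool := onCell 0 536870912 536870912 536870912 858993459 64424510
    (rowF 1 false false false .pnn 0 1 1 (qsf 0 536870912 536870912 536870912 1) ndB0q0 ndB0q1 pcB1 cut_B00mm_011_s1 Ext.none)

def k0_B00mm_011_s1 : ∃ t, chk3 f_B00mm_011_s1 t 1 1 1 = true :=
  ⟨(l 5), by decide +kernel⟩

theorem c_B00mm_011_s1 : CertF 0 536870912 536870912 536870912 858993459 64424510 false false false .pnn 0 1 1
    ndB0q0 ndB0q1 pcB1 cut_B00mm_011_s1 Ext.none :=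
  certF1 (fam := false) (s1 := false) (s2 := false) (a := 0) (b := 1) (c := 1) (cn := .pnn) (n1 := ndB0q0) (n2 := ndB0q1) (pc := pcB1) (cut := cut_B00mm_011_s1) (xt := Ext.none) (P1 := 0) (W1 := 536870912) (P2 := 536870912) (W2 := 536870912) (P3 := 858993459) (W3 := 64424510)
    rfl (fun _ => rfl) k0_B00mm_011_s1

theorem s_B00mm_011_s1 {κ x : ℝ} (hκ : κ * h0 = ken x) (hx : ((858993459 : ℕ) : ℝ) / S ≤ x)
    (hx' : x ≤ (((858993459 : ℕ) : ℝ) + (64424510 : ℕ)) / S) :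
    AltB (VFD κ) PP tK tL pcB [⟨3, 0, 0, 1449551462⟩] 0 1 1 0 0 (sgb false) (sgb false) x :=
  strip_altBD (m := 1449551462) true rfl hκ (SH.κ0 hκ (SH.hx1 hx).le (SH.hx2 hx').le) (SH.hx1 hx).le (SH.hx2 hx') (covB00).cov (covB01).cov hx hx' c_B00mm_011_s1 cutB_nil (noExt_B)

noncomputable def cut_B00mm_011_s3 : Cut := Cut.of [[⟨3, 0, 0, 2845415833⟩]]

noncomputable def f_B00mm_011_s3 : ℕ → ℕ → ℕ → ℕ → Bool := onCell 0 536870912 536870912 536870912 858993459 64424510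
    (rowF 0 false false false .pnn 0 1 1 (qsf 0 536870912 536870912 536870912 1) ndB0q0 ndB0q1 pcB1 cut_B00mm_011_s3 Ext.none)

def k0_B00mm_011_s3 : ∃ t, chk3 f_B00mm_011_s3 t 1 1 1 = true :=
  ⟨(l 6), by decide +kernel⟩

theorem c_B00mm_011_s3 : CertF 0 536870912 536870912 536870912 858993459 64424510 false false false .pnn 0 1 1
    ndB0q0 ndB0q1 pcB1 cut_B00mm_011_s3 Ext.none :=
  certF0 (fam := false) (s1 := false) (s2 := false) (a := 0) (b := 1) (c := 1) (cn := .pnn) (n1 := ndB0q0) (n2 := ndB0q1) (pc := pcB1) (cut := cut_B00mm_011_s3) (xt := Ext.none) (P1 := 0) (W1 := 536870912) (P2 := 536870912) (W2 := 536870912) (P3 := 858993459) (W3 := 64424510)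
    rfl k0_B00mm_011_s3

theorem s_B00mm_011_s3 {κ x : ℝ} (hκ : κ * h0 = ken x) (hx : ((858993459 : ℕ) : ℝ) / S ≤ x)
    (hx' : x ≤ (((858993459 : ℕ) : ℝ) + (64424510 : ℕ)) / S) :
    AltB (VFD κ) PP tK tL pcB [⟨4, 0, 0, 2845415833⟩] 0 1 1 0 0 (sgb false) (sgb false) x :=
  strip_altBD (m := 2845415833) false rfl hκ (SH.κ0 hκ (SH.hx1 hx).le (SH.hx2 hx').le) (SH.hx1 hx).le (SH.hx2 hx') (covB00).cov (covB01).cov hx hx' c_B00mm_011_s3 cutB_nil (noExt_B)

noncomputable def cut_B00mm_012_s1 : Cut := Cut.of [[⟨4, 0, 0, 1449551462⟩]]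

noncomputable def f_B00mm_012_s1 : ℕ → ℕ → ℕ → ℕ → Bool := onCell 0 536870912 0 536870912 858993459 64424510
    (rowF 0 false false false .pnp 0 1 2 (qsf 0 536870912 0 536870912 1) ndB0q0 ndB0q2 pcB1 cut_B00mm_012_s1 Ext.none)

def k0_B00mm_012_s1 : ∃ t, chk3 f_B00mm_012_s1 t 1 1 1 = true :=
  ⟨(l 5), by decide +kernel⟩

theorem c_B00mm_012_s1 : CertF 0 536870912 0 536870912 858993459 64424510 false false false .pnp 0 1 2
    ndB0q0 ndB0q2 pcB1 cut_B00mm_012_s1 Ext.none :=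
  certF0 (fam := false) (s1 := false) (s2 := false) (a := 0) (b := 1) (c := 2) (cn := .pnp) (n1 := ndB0q0) (n2 := ndB0q2) (pc := pcB1) (cut := cut_B00mm_012_s1) (xt := Ext.none) (P1 := 0) (W1 := 536870912) (P2 := 0) (W2 := 536870912) (P3 := 858993459) (W3 := 64424510)
    rfl k0_B00mm_012_s1

theorem s_B00mm_012_s1 {κ x : ℝ} (hκ : κ * h0 = ken x) (hx : ((858993459 : ℕ) : ℝ) / S ≤ x)
    (hx' : x ≤ (((858993459 : ℕ) : ℝ) + (64424510 : ℕ)) / S) :
    AltB (VFD κ) PP tK tL pcB [⟨3, 0, 0, 1449551462⟩] 0 1 2 0 0 (sgb false) (sgb false) x :=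
  strip_altBD (m := 1449551462) true rfl hκ (SH.κ0 hκ (SH.hx1 hx).le (SH.hx2 hx').le) (SH.hx1 hx).le (SH.hx2 hx') (covB00).cov (covB02).cov hx hx' c_B00mm_012_s1 cutB_nil (noExt_B)

noncomputable def cut_B00mm_012_s3 : Cut := Cut.of [[⟨3, 0, 0, 2845415833⟩]]

noncomputable def f_B00mm_012_s3 : ℕ → ℕ → ℕ → ℕ → Bool := onCell 0 536870912 0 536870912 858993459 64424510
    (rowF 0 false false false .pnp 0 1 2 (qsf 0 536870912 0 536870912 1) ndB0q0 ndB0q2 pcB1 cut_B00mm_012_s3 Ext.none)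

def k0_B00mm_012_s3 : ∃ t, chk3 f_B00mm_012_s3 t 1 1 1 = true :=
  ⟨(l 5), by decide +kernel⟩

theorem c_B00mm_012_s3 : CertF 0 536870912 0 536870912 858993459 64424510 false false false .pnp 0 1 2
    ndB0q0 ndB0q2 pcB1 cut_B00mm_012_s3 Ext.none :=
  certF0 (fam := false) (s1 := false) (s2 := false) (a := 0) (b := 1) (c := 2) (cn := .pnp) (n1 := ndB0q0) (n2 := ndB0q2) (pc := pcB1) (cut := cut_B00mm_012_s3) (xt := Ext.none) (P1 := 0) (W1 := 536870912) (P2 := 0) (W2 := 536870912) (P3 := 858993459) (W3 := 64424510)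
    rfl k0_B00mm_012_s3

theorem s_B00mm_012_s3 {κ x : ℝ} (hκ : κ * h0 = ken x) (hx : ((858993459 : ℕ) : ℝ) / S ≤ x)
    (hx' : x ≤ (((858993459 : ℕ) : ℝ) + (64424510 : ℕ)) / S) :
    AltB (VFD κ) PP tK tL pcB [⟨4, 0, 0, 2845415833⟩] 0 1 2 0 0 (sgb false) (sgb false) x :=
  strip_altBD (m := 2845415833) false rfl hκ (SH.κ0 hκ (SH.hx1 hx).le (SH.hx2 hx').le) (SH.hx1 hx).le (SH.hx2 hx') (covB00).cov (covB02).cov hx hx' c_B00mm_012_s3 cutB_nil (noExt_B)

noncomputable def cut_B00mm_022_s1 : Cut := Cut.of [[⟨4, 0, 0, 1449551462⟩]]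

noncomputable def f_B00mm_022_s1 : ℕ → ℕ → ℕ → ℕ → Bool := onCell 0 536870912 0 536870912 858993459 64424510
    (rowF 0 false false false .pp 0 2 2 (qsf 0 536870912 0 536870912 2) ndB0q0 ndB0q2 pcB2 cut_B00mm_022_s1 Ext.none)

def k0_B00mm_022_s1 : ∃ t, chk3 f_B00mm_022_s1 t 1 1 1 = true :=
  ⟨(l 5), by decide +kernel⟩

theorem c_B00mm_022_s1 : CertF 0 536870912 0 536870912 858993459 64424510 false false false .pp 0 2 2
    ndB0q0 ndB0q2 pcB2 cut_B00mm_022_s1 Ext.none :=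
  certF0 (fam := false) (s1 := false) (s2 := false) (a := 0) (b := 2) (c := 2) (cn := .pp) (n1 := ndB0q0) (n2 := ndB0q2) (pc := pcB2) (cut := cut_B00mm_022_s1) (xt := Ext.none) (P1 := 0) (W1 := 536870912) (P2 := 0) (W2 := 536870912) (P3 := 858993459) (W3 := 64424510)
    rfl k0_B00mm_022_s1

theorem s_B00mm_022_s1 {κ x : ℝ} (hκ : κ * h0 = ken x) (hx : ((858993459 : ℕ) : ℝ) / S ≤ x)
    (hx' : x ≤ (((858993459 : ℕ) : ℝ) + (64424510 : ℕ)) / S) :
    AltB (VFD κ) PP tK tL pcB [⟨3, 0, 0, 1449551462⟩] 0 2 2 0 0 (sgb false) (sgb false) x :=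
  strip_altBD (m := 1449551462) true rfl hκ (SH.κ0 hκ (SH.hx1 hx).le (SH.hx2 hx').le) (SH.hx1 hx).le (SH.hx2 hx') (covB00).cov (covB02).cov hx hx' c_B00mm_022_s1 cutB_nil (noExt_B)

noncomputable def cut_B00mm_022_s3 : Cut := Cut.of [[⟨3, 0, 0, 2845415833⟩]]

noncomputable def f_B00mm_022_s3 : ℕ → ℕ → ℕ → ℕ → Bool := onCell 0 536870912 0 536870912 858993459 64424510
    (rowF 0 false false false .pp 0 2 2 (qsf 0 536870912 0 536870912 2) ndB0q0 ndB0q2 pcB2 cut_B00mm_022_s3 Ext.none)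

def k0_B00mm_022_s3 : ∃ t, chk3 f_B00mm_022_s3 t 1 1 1 = true :=
  ⟨(l 5), by decide +kernel⟩

theorem c_B00mm_022_s3 : CertF 0 536870912 0 536870912 858993459 64424510 false false false .pp 0 2 2
    ndB0q0 ndB0q2 pcB2 cut_B00mm_022_s3 Ext.none :=
  certF0 (fam := false) (s1 := false) (s2 := false) (a := 0) (b := 2) (c := 2) (cn := .pp) (n1 := ndB0q0) (n2 := ndB0q2) (pc := pcB2) (cut := cut_B00mm_022_s3) (xt := Ext.none) (P1 := 0) (W1 := 536870912) (P2 := 0) (W2 := 536870912) (P3 := 858993459) (W3 := 64424510)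
    rfl k0_B00mm_022_s3

theorem s_B00mm_022_s3 {κ x : ℝ} (hκ : κ * h0 = ken x) (hx : ((858993459 : ℕ) : ℝ) / S ≤ x)
    (hx' : x ≤ (((858993459 : ℕ) : ℝ) + (64424510 : ℕ)) / S) :
    AltB (VFD κ) PP tK tL pcB [⟨4, 0, 0, 2845415833⟩] 0 2 2 0 0 (sgb false) (sgb false) x :=
  strip_altBD (m := 2845415833) false rfl hκ (SH.κ0 hκ (SH.hx1 hx).le (SH.hx2 hx').le) (SH.hx1 hx).le (SH.hx2 hx') (covB00).cov (covB02).cov hx hx' c_B00mm_022_s3 cutB_nil (noExt_B)

noncomputable def cut_B00mm_101_s1 : Cut := Cut.of [[⟨4, 0, 0, 1449551462⟩]]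

noncomputable def f_B00mm_101_s1 : ℕ → ℕ → ℕ → ℕ → Bool := onCell 536870912 536870912 536870912 536870912 858993459 64424510
    (rowF 0 false false false .npn 1 0 1 (qsf 536870912 536870912 536870912 536870912 0) ndB0q1 ndB0q1 pcB0 cut_B00mm_101_s1 Ext.none)

def k0_B00mm_101_s1 : ∃ t, chk3 f_B00mm_101_s1 t 1 1 1 = true :=
  ⟨(l 3), by decide +kernel⟩

theorem c_B00mm_101_s1 : CertF 536870912 536870912 536870912 536870912 858993459 64424510 false false false .npn 1 0 1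
    ndB0q1 ndB0q1 pcB0 cut_B00mm_101_s1 Ext.none :=
  certF0 (fam := false) (s1 := false) (s2 := false) (a := 1) (b := 0) (c := 1) (cn := .npn) (n1 := ndB0q1) (n2 := ndB0q1) (pc := pcB0) (cut := cut_B00mm_101_s1) (xt := Ext.none) (P1 := 536870912) (W1 := 536870912) (P2 := 536870912) (W2 := 536870912) (P3 := 858993459) (W3 := 64424510)
    rfl k0_B00mm_101_s1

theorem s_B00mm_101_s1 {κ x : ℝ} (hκ : κ * h0 = ken x) (hx : ((858993459 : ℕ) : ℝ) / S ≤ x)
    (hx' : x ≤ (((858993459 : ℕ) : ℝ) + (64424510 : ℕ)) / S) :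
    AltB (VFD κ) PP tK tL pcB [⟨3, 0, 0, 1449551462⟩] 1 0 1 0 0 (sgb false) (sgb false) x :=
  strip_altBD (m := 1449551462) true rfl hκ (SH.κ0 hκ (SH.hx1 hx).le (SH.hx2 hx').le) (SH.hx1 hx).le (SH.hx2 hx') (covB01).cov (covB01).cov hx hx' c_B00mm_101_s1 cutB_nil (noExt_B)

noncomputable def cut_B00mm_101_s3 : Cut := Cut.of [[⟨3, 0, 0, 2845415833⟩]]

noncomputable def f_B00mm_101_s3 : ℕ → ℕ → ℕ → ℕ → Bool := onCell 536870912 536870912 536870912 536870912 858993459 64424510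
    (rowF 0 false false false .npn 1 0 1 (qsf 536870912 536870912 536870912 536870912 0) ndB0q1 ndB0q1 pcB0 cut_B00mm_101_s3 Ext.none)

def k0_B00mm_101_s3 : ∃ t, chk3 f_B00mm_101_s3 t 1 1 1 = true :=
  ⟨(l 3), by decide +kernel⟩

theorem c_B00mm_101_s3 : CertF 536870912 536870912 536870912 536870912 858993459 64424510 false false false .npn 1 0 1
    ndB0q1 ndB0q1 pcB0 cut_B00mm_101_s3 Ext.none :=
  certF0 (fam := false) (s1 := false) (s2 := false) (a := 1) (b := 0) (c := 1) (cn := .npn) (n1 := ndB0q1) (n2 := ndB0q1) (pc := pcB0) (cut := cut_B00mm_101_s3) (xt := Ext.none) (P1 := 536870912) (W1 := 536870912) (P2 := 536870912) (W2 := 536870912) (P3 := 858993459) (W3 := 64424510)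
    rfl k0_B00mm_101_s3

theorem s_B00mm_101_s3 {κ x : ℝ} (hκ : κ * h0 = ken x) (hx : ((858993459 : ℕ) : ℝ) / S ≤ x)
    (hx' : x ≤ (((858993459 : ℕ) : ℝ) + (64424510 : ℕ)) / S) :
    AltB (VFD κ) PP tK tL pcB [⟨4, 0, 0, 2845415833⟩] 1 0 1 0 0 (sgb false) (sgb false) x :=
  strip_altBD (m := 2845415833) false rfl hκ (SH.κ0 hκ (SH.hx1 hx).le (SH.hx2 hx').le) (SH.hx1 hx).le (SH.hx2 hx') (covB01).cov (covB01).cov hx hx' c_B00mm_101_s3 cutB_nil (noExt_B)

noncomputable def cut_B00mm_102_s1 : Cut := Cut.of [[⟨4, 0, 0, 1449551462⟩]]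

noncomputable def f_B00mm_102_s1 : ℕ → ℕ → ℕ → ℕ → Bool := onCell 536870912 536870912 0 536870912 858993459 64424510
    (rowF 0 false false false .npp 1 0 2 (qsf 536870912 536870912 0 536870912 0) ndB0q1 ndB0q2 pcB0 cut_B00mm_102_s1 Ext.none)

def k0_B00mm_102_s1 : ∃ t, chk3 f_B00mm_102_s1 t 1 1 1 = true :=
  ⟨(a (l 5) (l 3)), by decide +kernel⟩

theorem c_B00mm_102_s1 : CertF 536870912 536870912 0 536870912 858993459 64424510 false false false .npp 1 0 2
    ndB0q1 ndB0q2 pcB0 cut_B00mm_102_s1 Ext.none :=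
  certF0 (fam := false) (s1 := false) (s2 := false) (a := 1) (b := 0) (c := 2) (cn := .npp) (n1 := ndB0q1) (n2 := ndB0q2) (pc := pcB0) (cut := cut_B00mm_102_s1) (xt := Ext.none) (P1 := 536870912) (W1 := 536870912) (P2 := 0) (W2 := 536870912) (P3 := 858993459) (W3 := 64424510)
    rfl k0_B00mm_102_s1

theorem s_B00mm_102_s1 {κ x : ℝ} (hκ : κ * h0 = ken x) (hx : ((858993459 : ℕ) : ℝ) / S ≤ x)
    (hx' : x ≤ (((858993459 : ℕ) : ℝ) + (64424510 : ℕ)) / S) :
    AltB (VFD κ) PP tK tL pcB [⟨3, 0, 0, 1449551462⟩] 1 0 2 0 0 (sgb false) (sgb false) x :=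
  strip_altBD (m := 1449551462) true rfl hκ (SH.κ0 hκ (SH.hx1 hx).le (SH.hx2 hx').le) (SH.hx1 hx).le (SH.hx2 hx') (covB01).cov (covB02).cov hx hx' c_B00mm_102_s1 cutB_nil (noExt_B)

noncomputable def cut_B00mm_102_s3 : Cut := Cut.of [[⟨3, 0, 0, 2845415833⟩]]

noncomputable def f_B00mm_102_s3 : ℕ → ℕ → ℕ → ℕ → Bool := onCell 536870912 536870912 0 536870912 858993459 64424510
    (rowF 0 false false false .npp 1 0 2 (qsf 536870912 536870912 0 536870912 0) ndB0q1 ndB0q2 pcB0 cut_B00mm_102_s3 Ext.none)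

def k0_B00mm_102_s3 : ∃ t, chk3 f_B00mm_102_s3 t 1 1 1 = true :=
  ⟨(l 6), by decide +kernel⟩

theorem c_B00mm_102_s3 : CertF 536870912 536870912 0 536870912 858993459 64424510 false false false .npp 1 0 2
    ndB0q1 ndB0q2 pcB0 cut_B00mm_102_s3 Ext.none :=
  certF0 (fam := false) (s1 := false) (s2 := false) (a := 1) (b := 0) (c := 2) (cn := .npp) (n1 := ndB0q1) (n2 := ndB0q2) (pc := pcB0) (cut := cut_B00mm_102_s3) (xt := Ext.none) (P1 := 536870912) (W1 := 536870912) (P2 := 0) (W2 := 536870912) (P3 := 858993459) (W3 := 64424510)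
    rfl k0_B00mm_102_s3

theorem s_B00mm_102_s3 {κ x : ℝ} (hκ : κ * h0 = ken x) (hx : ((858993459 : ℕ) : ℝ) / S ≤ x)
    (hx' : x ≤ (((858993459 : ℕ) : ℝ) + (64424510 : ℕ)) / S) :
    AltB (VFD κ) PP tK tL pcB [⟨4, 0, 0, 2845415833⟩] 1 0 2 0 0 (sgb false) (sgb false) x :=
  strip_altBD (m := 2845415833) false rfl hκ (SH.κ0 hκ (SH.hx1 hx).le (SH.hx2 hx').le) (SH.hx1 hx).le (SH.hx2 hx') (covB01).cov (covB02).cov hx hx' c_B00mm_102_s3 cutB_nil (noExt_B)

noncomputable def cut_B00mm_112_s1 : Cut := Cut.of [[⟨4, 0, 0, 1449551462⟩]]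

noncomputable def f_B00mm_112_s1 : ℕ → ℕ → ℕ → ℕ → Bool := onCell 536870912 536870912 0 536870912 858993459 64424510
    (rowF 2 false false false .dn 1 1 2 (qsf 536870912 536870912 0 536870912 1) ndB0q1 ndB0q2 pcB1 cut_B00mm_112_s1 Ext.none)

def k0_B00mm_112_s1 : ∃ t, chk3 f_B00mm_112_s1 t 1 1 1 = true :=
  ⟨(l 5), by decide +kernel⟩

theorem c_B00mm_112_s1 : CertF 536870912 536870912 0 536870912 858993459 64424510 false false false .dn 1 1 2
    ndB0q1 ndB0q2 pcB1 cut_B00mm_112_s1 Ext.none :=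
  certF2 (fam := false) (s1 := false) (s2 := false) (a := 1) (b := 1) (c := 2) (cn := .dn) (n1 := ndB0q1) (n2 := ndB0q2) (pc := pcB1) (cut := cut_B00mm_112_s1) (xt := Ext.none) (P1 := 536870912) (W1 := 536870912) (P2 := 0) (W2 := 536870912) (P3 := 858993459) (W3 := 64424510)
    rfl (fun _ => rfl) k0_B00mm_112_s1

theorem s_B00mm_112_s1 {κ x : ℝ} (hκ : κ * h0 = ken x) (hx : ((858993459 : ℕ) : ℝ) / S ≤ x)
    (hx' : x ≤ (((858993459 : ℕ) : ℝ) + (64424510 : ℕ)) / S) :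
    AltB (VFD κ) PP tK tL pcB [⟨3, 0, 0, 1449551462⟩] 1 1 2 0 0 (sgb false) (sgb false) x :=
  strip_altBD (m := 1449551462) true rfl hκ (SH.κ0 hκ (SH.hx1 hx).le (SH.hx2 hx').le) (SH.hx1 hx).le (SH.hx2 hx') (covB01).cov (covB02).cov hx hx' c_B00mm_112_s1 cutB_nil (noExt_B)

noncomputable def cut_B00mm_112_s3 : Cut := Cut.of [[⟨3, 0, 0, 2845415833⟩]]

noncomputable def f_B00mm_112_s3 : ℕ → ℕ → ℕ → ℕ → Bool := onCell 536870912 536870912 0 536870912 858993459 64424510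
    (rowF 0 false false false .dn 1 1 2 (qsf 536870912 536870912 0 536870912 1) ndB0q1 ndB0q2 pcB1 cut_B00mm_112_s3 Ext.none)

def k0_B00mm_112_s3 : ∃ t, chk3 f_B00mm_112_s3 t 1 1 1 = true :=
  ⟨(l 6), by decide +kernel⟩

theorem c_B00mm_112_s3 : CertF 536870912 536870912 0 536870912 858993459 64424510 false false false .dn 1 1 2
    ndB0q1 ndB0q2 pcB1 cut_B00mm_112_s3 Ext.none :=
  certF0 (fam := false) (s1 := false) (s2 := false) (a := 1) (b := 1) (c := 2) (cn := .dn) (n1 := ndB0q1) (n2 := ndB0q2) (pc := pcB1) (cut := cut_B00mm_112_s3) (xt := Ext.none) (P1 := 536870912) (W1 := 536870912) (P2 := 0) (W2 := 536870912) (P3 := 858993459) (W3 := 64424510)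
    rfl k0_B00mm_112_s3

theorem s_B00mm_112_s3 {κ x : ℝ} (hκ : κ * h0 = ken x) (hx : ((858993459 : ℕ) : ℝ) / S ≤ x)
    (hx' : x ≤ (((858993459 : ℕ) : ℝ) + (64424510 : ℕ)) / S) :
    AltB (VFD κ) PP tK tL pcB [⟨4, 0, 0, 2845415833⟩] 1 1 2 0 0 (sgb false) (sgb false) x :=
  strip_altBD (m := 2845415833) false rfl hκ (SH.κ0 hκ (SH.hx1 hx).le (SH.hx2 hx').le) (SH.hx1 hx).le (SH.hx2 hx') (covB01).cov (covB02).cov hx hx' c_B00mm_112_s3 cutB_nil (noExt_B)

noncomputable def cut_B00mm_202_s1 : Cut := Cut.of [[⟨4, 0, 0, 1449551462⟩]]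

noncomputable def f_B00mm_202_s1 : ℕ → ℕ → ℕ → ℕ → Bool := onCell 0 536870912 0 536870912 858993459 64424510
    (rowF 0 false false false .pp 2 0 2 (qsf 0 536870912 0 536870912 0) ndB0q2 ndB0q2 pcB0 cut_B00mm_202_s1 Ext.none)

def k0_B00mm_202_s1 : ∃ t, chk3 f_B00mm_202_s1 t 1 1 1 = true :=
  ⟨(l 3), by decide +kernel⟩

theorem c_B00mm_202_s1 : CertF 0 536870912 0 536870912 858993459 64424510 false false false .pp 2 0 2
    ndB0q2 ndB0q2 pcB0 cut_B00mm_202_s1 Ext.none :=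
  certF0 (fam := false) (s1 := false) (s2 := false) (a := 2) (b := 0) (c := 2) (cn := .pp) (n1 := ndB0q2) (n2 := ndB0q2) (pc := pcB0) (cut := cut_B00mm_202_s1) (xt := Ext.none) (P1 := 0) (W1 := 536870912) (P2 := 0) (W2 := 536870912) (P3 := 858993459) (W3 := 64424510)
    rfl k0_B00mm_202_s1

theorem s_B00mm_202_s1 {κ x : ℝ} (hκ : κ * h0 = ken x) (hx : ((858993459 : ℕ) : ℝ) / S ≤ x)
    (hx' : x ≤ (((858993459 : ℕ) : ℝ) + (64424510 : ℕ)) / S) :
    AltB (VFD κ) PP tK tL pcB [⟨3, 0, 0, 1449551462⟩] 2 0 2 0 0 (sgb false) (sgb false) x :=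
  strip_altBD (m := 1449551462) true rfl hκ (SH.κ0 hκ (SH.hx1 hx).le (SH.hx2 hx').le) (SH.hx1 hx).le (SH.hx2 hx') (covB02).cov (covB02).cov hx hx' c_B00mm_202_s1 cutB_nil (noExt_B)

noncomputable def cut_B00mm_202_s3 : Cut := Cut.of [[⟨3, 0, 0, 2845415833⟩]]

noncomputable def f_B00mm_202_s3 : ℕ → ℕ → ℕ → ℕ → Bool := onCell 0 536870912 0 536870912 858993459 64424510
    (rowF 0 false false false .pp 2 0 2 (qsf 0 536870912 0 536870912 0) ndB0q2 ndB0q2 pcB0 cut_B00mm_202_s3 Ext.none)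

def k0_B00mm_202_s3 : ∃ t, chk3 f_B00mm_202_s3 t 1 1 1 = true :=
  ⟨(l 3), by decide +kernel⟩

theorem c_B00mm_202_s3 : CertF 0 536870912 0 536870912 858993459 64424510 false false false .pp 2 0 2
    ndB0q2 ndB0q2 pcB0 cut_B00mm_202_s3 Ext.none :=
  certF0 (fam := false) (s1 := false) (s2 := false) (a := 2) (b := 0) (c := 2) (cn := .pp) (n1 := ndB0q2) (n2 := ndB0q2) (pc := pcB0) (cut := cut_B00mm_202_s3) (xt := Ext.none) (P1 := 0) (W1 := 536870912) (P2 := 0) (W2 := 536870912) (P3 := 858993459) (W3 := 64424510)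
    rfl k0_B00mm_202_s3

theorem s_B00mm_202_s3 {κ x : ℝ} (hκ : κ * h0 = ken x) (hx : ((858993459 : ℕ) : ℝ) / S ≤ x)
    (hx' : x ≤ (((858993459 : ℕ) : ℝ) + (64424510 : ℕ)) / S) :
    AltB (VFD κ) PP tK tL pcB [⟨4, 0, 0, 2845415833⟩] 2 0 2 0 0 (sgb false) (sgb false) x :=
  strip_altBD (m := 2845415833) false rfl hκ (SH.κ0 hκ (SH.hx1 hx).le (SH.hx2 hx').le) (SH.hx1 hx).le (SH.hx2 hx') (covB02).cov (covB02).cov hx hx' c_B00mm_202_s3 cutB_nil (noExt_B)

noncomputable def cut_B04pp_001_s1 : Cut := Cut.of [[⟨4, 0, 0, 1449551462⟩]]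

noncomputable def f_B04pp_001_s1 : ℕ → ℕ → ℕ → ℕ → Bool := onCell 0 536870912 0 536870912 858993459 64424510
    (rowF 1 false true true .up 0 0 1 (qsf 0 536870912 536870912 536870912 0) ndB0q0 ndB4q1 pcB0 cut_B04pp_001_s1 Ext.none)

def k0_B04pp_001_s1 : ∃ t, chk3 f_B04pp_001_s1 t 1 1 1 = true :=
  ⟨(l 3), by decide +kernel⟩

theorem c_B04pp_001_s1 : CertF 0 536870912 536870912 536870912 858993459 64424510 false true true .up 0 0 1
    ndB0q0 ndB4q1 pcB0 cut_B04pp_001_s1 Ext.none :=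
  certF1 (fam := false) (s1 := true) (s2 := true) (a := 0) (b := 0) (c := 1) (cn := .up) (n1 := ndB0q0) (n2 := ndB4q1) (pc := pcB0) (cut := cut_B04pp_001_s1) (xt := Ext.none) (P1 := 0) (W1 := 536870912) (P2 := 536870912) (W2 := 536870912) (P3 := 858993459) (W3 := 64424510)
    rfl (fun _ => rfl) k0_B04pp_001_s1

theorem s_B04pp_001_s1 {κ x : ℝ} (hκ : κ * h0 = ken x) (hx : ((858993459 : ℕ) : ℝ) / S ≤ x)
    (hx' : x ≤ (((858993459 : ℕ) : ℝ) + (64424510 : ℕ)) / S) :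
    AltB (VFD κ) PP tK tL pcB [⟨3, 0, 0, 1449551462⟩] 0 0 1 0 4 (sgb true) (sgb true) x :=
  strip_altBD (m := 1449551462) true rfl hκ (SH.κ0 hκ (SH.hx1 hx).le (SH.hx2 hx').le) (SH.hx1 hx).le (SH.hx2 hx') (covB00).cov (covB41).cov hx hx' c_B04pp_001_s1 cutB_nil (noExt_B)

noncomputable def cut_B04pp_011_s1 : Cut := Cut.of [[⟨4, 0, 0, 1449551462⟩], [⟨0, 0, 0, 67108864⟩, ⟨1, 1, 0, 67108864⟩, ⟨2, 1, 0, 67108864⟩]]

noncomputable def f_B04pp_011_s1 : ℕ → ℕ → ℕ → ℕ → Bool := onCell 0 536870912 536870912 536870912 858993459 64424510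
    (rowF 1 false true true .pnn 0 1 1 (qsf 0 536870912 536870912 536870912 1) ndB0q0 ndB4q1 pcB1 cut_B04pp_011_s1 Ext.none)

def k0_B04pp_011_s1 : ∃ t, chk3 f_B04pp_011_s1 t 1 1 1 = true :=
  ⟨(b (l 3) (a (b (l 3) (a (b (l 3) (a (a (b (l 3) (l 14)) (l 3)) (l 3))) (l 3))) (l 3))), by decide +kernel⟩

theorem c_B04pp_011_s1 : CertF 0 536870912 536870912 536870912 858993459 64424510 false true true .pnn 0 1 1
    ndB0q0 ndB4q1 pcB1 cut_B04pp_011_s1 Ext.none :=
  certF1 (fam := false) (s1 := true) (s2 := true) (a := 0) (b := 1) (c := 1) (cn := .pnn) (n1 := ndB0q0) (n2 := ndB4q1) (pc := pcB1) (cut := cut_B04pp_011_s1) (xt := Ext.none) (P1 := 0) (W1 := 536870912) (P2 := 536870912) (W2 := 536870912) (P3 := 858993459) (W3 := 64424510)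
    rfl (fun _ => rfl) k0_B04pp_011_s1

theorem s_B04pp_011_s1 {κ x : ℝ} (hκ : κ * h0 = ken x) (hx : ((858993459 : ℕ) : ℝ) / S ≤ x)
    (hx' : x ≤ (((858993459 : ℕ) : ℝ) + (64424510 : ℕ)) / S)
    (H : CutB (VFD κ) PP tK tL pcB (Cut.of [[⟨0, 0, 0, 67108864⟩, ⟨1, 1, 0, 67108864⟩, ⟨2, 1, 0, 67108864⟩]]) 0 1 1 0 4 (sgb true) (sgb true) x) :
    AltB (VFD κ) PP tK tL pcB [⟨3, 0, 0, 1449551462⟩] 0 1 1 0 4 (sgb true) (sgb true) x :=
  strip_altBD (m := 1449551462) true rfl hκ (SH.κ0 hκ (SH.hx1 hx).le (SH.hx2 hx').le) (SH.hx1 hx).le (SH.hx2 hx') (covB00).cov (covB41).cov hx hx' c_B04pp_011_s1 H (noExt_B)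

noncomputable def cut_B04pp_012_s1 : Cut := Cut.of [[⟨4, 0, 0, 1449551462⟩], [⟨0, 0, 0, 67108864⟩, ⟨1, 1, 0, 67108864⟩, ⟨2, 1, 0, 67108864⟩]]

noncomputable def f_B04pp_012_s1 : ℕ → ℕ → ℕ → ℕ → Bool := onCell 0 536870912 536870912 536870912 858993459 64424510
    (rowF 1 false true true .pnp 0 1 2 (qsf 0 536870912 1073741824 536870912 1) ndB0q0 ndB4q2 pcB1 cut_B04pp_012_s1 Ext.none)

def k0_B04pp_012_s1 : ∃ t, chk3 f_B04pp_012_s1 t 1 1 1 = true :=
  ⟨(b (l 3) (a (b (l 3) (a (a (a (b (l 1) (b (l 3) (l 14))) (l 3)) (l 3)) (l 3))) (l 3))), by decide +kernel⟩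

theorem c_B04pp_012_s1 : CertF 0 536870912 1073741824 536870912 858993459 64424510 false true true .pnp 0 1 2
    ndB0q0 ndB4q2 pcB1 cut_B04pp_012_s1 Ext.none :=
  certF1 (fam := false) (s1 := true) (s2 := true) (a := 0) (b := 1) (c := 2) (cn := .pnp) (n1 := ndB0q0) (n2 := ndB4q2) (pc := pcB1) (cut := cut_B04pp_012_s1) (xt := Ext.none) (P1 := 0) (W1 := 536870912) (P2 := 1073741824) (W2 := 536870912) (P3 := 858993459) (W3 := 64424510)
    rfl (fun _ => rfl) k0_B04pp_012_s1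

theorem s_B04pp_012_s1 {κ x : ℝ} (hκ : κ * h0 = ken x) (hx : ((858993459 : ℕ) : ℝ) / S ≤ x)
    (hx' : x ≤ (((858993459 : ℕ) : ℝ) + (64424510 : ℕ)) / S)
    (H : CutB (VFD κ) PP tK tL pcB (Cut.of [[⟨0, 0, 0, 67108864⟩, ⟨1, 1, 0, 67108864⟩, ⟨2, 1, 0, 67108864⟩]]) 0 1 2 0 4 (sgb true) (sgb true) x) :
    AltB (VFD κ) PP tK tL pcB [⟨3, 0, 0, 1449551462⟩] 0 1 2 0 4 (sgb true) (sgb true) x :=
  strip_altBD (m := 1449551462) true rfl hκ (SH.κ0 hκ (SH.hx1 hx).le (SH.hx2 hx').le) (SH.hx1 hx).le (SH.hx2 hx') (covB00).cov (covB42).cov hx hx' c_B04pp_012_s1 H (noExt_B)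

noncomputable def cut_B04pp_022_s1 : Cut := Cut.of [[⟨4, 0, 0, 1449551462⟩], [⟨0, 0, 0, 67108864⟩, ⟨1, 1, 0, 67108864⟩, ⟨2, 1, 0, 67108864⟩]]

noncomputable def xt_B04pp_022_s1 : Ext := strExt dd false true true .u0 .s2 .u2 .pp 0 2 2 rfl rfl gf2 vv ndB0q0 ndB4q2

noncomputable def f_B04pp_022_s1 : ℕ → ℕ → ℕ → ℕ → Bool := onCell 1073741824 536870912 1073741824 536870912 858993459 64424510
    (rowF 2 false true true .pp 0 2 2 (qsf 0 536870912 1073741824 536870912 2) ndB0q0 ndB4q2 pcB2 cut_B04pp_022_s1 xt_B04pp_022_s1)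

def k0_B04pp_022_s1 : ∃ t, chk3 f_B04pp_022_s1 t 8 8 1 = true :=
  ⟨(a (b (l 14) (a (b (l 14) (b (l 14) (l 3))) (b (l 14) (a (b (l 14) (b (l 14) (b (l 14) (a (l 3) (a (l 523127679) (l 523096191)))))) (a (c (a (c (c (c (b (l 14) (b (l 14) (l 522693759))) (c (b (l 14) (b (l 14) (l 522235775))) (c (b (l 14) (b (l 14) (l 522276223))) (b (l 14) (b (l 14) (l 522303615)))))) (c (c (c (b (l 14) (b (l 14) (l 522331007))) (b (l 14) (b (l 14) (l 522358655)))) (c (b (l 14) (b (l 14) (l 522386815))) (b (l 14) (b (l 14) (l 522414975))))) (b (l 14) (b (l 14) (l 522486655))))) (c (b (l 14) (b (l 14) (l 522933375))) (b (l 14) (b (l 14) (l 16760968))))) (b (l 14) (b (l 14) (c (l 16742576) (l 16743368))))) (a (b (l 14) (b (l 14) (c (l 16761440) (l 16762136)))) (b (l 14) (b (l 14) (l 16755232))))) (b (l 14) (b (l 14) (c (a (l 16735816) (l 16718160)) (a (l 16748656) (l 16742072)))))))))) (b (a (l 14) (l 1)) (a (b (l 14) (b (l 14) (b (l 14)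 (b (l 14) (a (a (c (l 16708120) (l 16732624)) (a (l 16719096) (l 16669248))) (c (l 16668416) (l 16651752))))))) (a (b (l 14) (b (l 14) (c (a (l 16661456) (l 16645480)) (l 16616256)))) (b (l 1) (b (a (l 14) (l 1)) (a (c (l 16629504) (l 16634792)) (l 16574216)))))))), by decide +kernel⟩

def k1_B04pp_022_s1 : ∃ t, chk3 f_B04pp_022_s1 t 16 9 1 = true :=
  ⟨(b (a (l 3) (b (a (a (l 3) (a (b (b (c (l 522620543) (l 523697791)) (l 3)) (l 3)) (b (b (c (l 522585727) (l 523666047)) (c (l 522593407) (l 523694207))) (b (c (l 522602367) (l 523725695)) (l 3))))) (b (a (b (a (c (l 523357311) (l 523638143)) (b (l 523045759) (l 523051647))) (a (c (l 522559871) (l 523664767)) (c (l 522527103) (l 523639167)))) (b (a (c (c (l 16739912) (l 16740808)) (l 16752864)) (c (l 16722696) (l 16746280))) (a (c (l 522763903) (l 16759664)) (c (l 16737712) (l 16750480))))) (a (b (c (a (l 522568575) (l 522535807)) (a (l 523694463) (l 523667327))) (c (a (l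 522578815) (l 522545791)) (l 523709055))) (b (a (c (l 522504319) (l 523644287)) (c (l 522473599) (l 16754664))) (c (a (l 522514047) (l 522483327)) (a (l 523673983) (l 523653503))))))) (a (l 3) (b (a (b (c (l 522567295) (l 523746687)) (c (l 522582143) (l 523787647))) (a (b (l 523080063) (l 523104127)) (b (l 521442319) (l 523075967)))) (a (l 3) (c (b (l 522530175) (l 522547583)) (b (l 523769215) (l 523813759)))))))) (a (l 3) (a (l 3) (b (a (l 3) (a (l 3) (b (b (l 521819263) (l 3)) (l 3)))) (l 3))))), by decide +kernel⟩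

def k2_B04pp_022_s1 : ∃ t, chk3 f_B04pp_022_s1 t 34 18 1 = true :=
  ⟨(a (a (a (b (b (c (b (l 16715496) (l 16720040)) (l 16741816)) (b (c (l 16735056) (l 16748104)) (c (l 522453631) (l 16752280)))) (b (b (c (l 522464639) (l 16756432)) (l 523050623)) (b (l 523074943) (l 523102335)))) (b (b (b (c (l 16729040) (l 16732768)) (l 16719704)) (c (c (l 16729472) (l 16720320)) (l 16743632))) (b (b (c (l 16736888) (l 16749896)) (l 521685631)) (b (l 523051135) (l 523077247))))) (c (c (a (c (a (b (b (l 16724520) (l 16734080)) (b (l 16743344) (l 16742048))) (b (b (l 16720608) (l 16730344)) (b (l 16739632) (l 16748840)))) (a (b (b (l 16725320) (l 16734792)) (b (l 16743928) (l 16742488))) (b (b (l 16721440) (l 16731128)) (b (l 16740280) (l 16749344))))) (b (b (l 16715048) (l 16725064)) (b (l 16734400) (c (l 16732784) (l 16733400))))) (a (b (b (l 16724680) (l 16713224)) (b (l 16732624) (l 522972287))) (b (b (l 16716896) (l 16726952)) (b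 (l 16715048) (l 16734408))))) (c (b (b (l 16701800) (l 16732560)) (b (l 16741240) (c (l 16754640) (l 16755352)))) (b (b (l 16725040) (l 16734808)) (b (l 16743128) (c (l 16756104) (l 16754272))))))) (a (b (c (b (l 16683024) (b (l 16669928) (l 16696008))) (b (l 16708440) (l 16719176))) (b (a (b (l 16706808) (l 16711192)) (b (l 16720584) (l 16725216))) (b (c (l 16710096) (l 16735336)) (c (l 522360447) (l 16739512))))) (b (c (b (l 16688048) (l 16656624)) (b (l 16650856) (l 16703800))) (c (b (a (l 16670920) (l 16705016)) (a (l 16701424) (l 16673016))) (b (l 16714496) (l 16724248)))))), by decide +kernel⟩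

def k3_B04pp_022_s1 : ∃ t, chk3 f_B04pp_022_s1 t 34 19 1 = true :=
  ⟨(b (a (b (a (c (b (l 522490751) (l 522518399)) (b (l 523821183) (l 523861375))) (b (c (l 522428543) (l 523787903)) (c (l 522442623) (l 523838335)))) (a (c (l 522552447) (l 523907455)) (c (b (l 522469759) (l 522234495)) (b (l 523880063) (l 523920511))))) (b (a (b (c (l 522371967) (l 16743672)) (c (l 522384767) (l 523819391))) (c (b (l 16704560) (l 16709072)) (l 16737992))) (a (c (b (l 522404735) (l 522432639)) (b (l 523863679) (l 523904895))) (c (a (l 16750920) (l 16712192)) (c (l 16739856) (l 16742224)))))) (a (a (b (c (l 522634879) (l 523999615)) (l 3)) (b (c (l 522545535) (l 523971199)) (c (l 522636671) (l 524066431)))) (b (a (c (l 522468223) (l 523951743)) (c (a (l 522427775) (l 16752624)) (l 525284223))) (c (a (l 522554239) (l 522484351)) (a (l 524043391) (l 524029567)))))), by decide +kernel⟩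

def k4_B04pp_022_s1 : ∃ t, chk3 f_B04pp_022_s1 t 35 9 1 = true :=
  ⟨(b (b (b (a (c (a (l 16672080) (l 16656104)) (l 16627384)) (c (l 16590160) (l 16554200))) (a (c (a (l 16682624) (l 16666664)) (l 16680400)) (c (l 16600720) (l 16565328)))) (b (a (c (a (l 16651136) (l 16677144)) (l 16691408)) (c (l 16611240) (l 16618376))) (c (a (a (l 16682400) (l 16687536)) (l 16621688)) (a (a (l 16709848) (l 16694592)) (l 16671376))))) (a (c (a (c (b (b (l 16711688) (l 16700024)) (b (l 522021759) (l 520483711))) (a (b (b (l 16718232) (l 16727112)) (b (l 16714960) (l 16734176))) (b (a (l 16696360) (l 16692720)) (b (l 16728856) (l 16716664))))) (b (b (l 16655832) (l 16686512)) (b (c (l 16715264) (l 16676272)) (l 16736208)))) (b (a (b (l 16719616) (l 16728096)) (b (l 16705248) (l 16715016))) (b (a (c (l 16734912) (l 16737752)) (l 16723456)) (a (l 524026239) (l 16731592))))) (b (c (c (a (l 16664392) (l 16669376)) (b (l 16633936) (l 16644304)))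 (a (l 16705816) (l 16680144))) (c (a (b (l 16659984) (l 16669232)) (b (l 16644672) (l 16654488))) (a (b (l 16710440) (l 16718880)) (b (l 16696152) (l 16705904))))))), by decide +kernel⟩

def k5_B04pp_022_s1 : ∃ t, chk3 f_B04pp_022_s1 t 8 5 1 = true :=
  ⟨(a (l 3) (b (a (b (a (l 3) (b (b (c (a (l 522654079) (l 522578559)) (a (l 524141951) (l 524124031))) (c (a (l 522767743) (l 522686847)) (l 524233087))) (a (l 3) (b (a (l 523535487) (l 523509119)) (l 3))))) (l 3)) (b (b (a (b (a (c (l 522516351) (l 524116351)) (c (l 522469247) (l 524120191))) (c (a (l 522618495) (l 522565247)) (a (l 524213887) (l 524213119)))) (b (a (c (l 522441855) (l 16726952)) (c (l 16663800) (l 16714376))) (c (a (l 16739680) (l 16693864)) (a (l 16734888) (l 16722424))))) (a (c (b (a (l 522735231) (l 522675583)) (a (l 522866047) (l 522804095))) (b (a (l 524318847) (l 524313471)) (a (l 524431743) (l 524426111)))) (a (c (b (l 522641791) (l 522766719)) (b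 (l 524332415) (l 524443263))) (b (c (l 16723808) (l 16730336)) (c (l 522761087) (l 524490879)))))) (a (a (a (l 3) (b (b (l 523715199) (l 3)) (l 3))) (b (b (c (l 522943359) (l 524542079)) (c (l 523099007) (l 524667775))) (c (l 523174271) (l 524672383)))) (b (c (a (b (l 522911103) (l 523138687)) (b (l 522910591) (l 523087231))) (a (b (l 524567935) (l 524778111)) (b (l 524624511) (l 524780415)))) (b (c (c (l 522895743) (l 523590271)) (a (l 524806783) (l 524911487))) (c (l 523280767) (l 524866431))))))) (a (l 3) (b (a (l 3) (b (c (b (l 523324543) (l 523360895)) (b (l 524850815) (l 524819583))) (l 3))) (l 3))))), by decide +kernel⟩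

def k6_B04pp_022_s1 : ∃ t, chk3 f_B04pp_022_s1 t 9 4 1 = true :=
  ⟨(a (b (b (l 1) (a (a (b (l 1) (c (l 16544352) (l 16506992))) (l 1)) (l 1))) (b (a (b (a (b (a (l 16569848) (l 16597184)) (a (l 16538720) (l 16607968))) (b (l 16491296) (a (l 16593280) (l 16578536)))) (c (a (a (l 16635448) (l 16621328)) (l 16557952)) (a (c (l 16549384) (l 16553280)) (l 16520856)))) (b (a (b (l 1) (l 16556336)) (l 1)) (a (b (a (l 16574488) (l 16559616)) (l 16493944)) (b (l 16537208) (l 16464032))))) (a (b (a (c (b (l 16560152) (l 16612480)) (l 16678392)) (c (l 16578864) (l 16543328))) (b (a (c (l 16622824) (l 16673824)) (c (l 16636440) (l 16560048))) (a (c (l 16633072) (l 16684456)) (c (l 16646848) (l 16654920))))) (b (c (a (l 16591848) (l 16562392)) (a (l 16512968) (l 16566408))) (c (a (l 16528928) (l 16583424)) (a (l 16535552) (l 16505312))))))) (b (l 1) (b (b (l 1) (a (a (l 16428624) (l 1)) (l 1))) (b (a (a (a (l 16457696) (l 16442536))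 (b (l 16414288) (l 16425080))) (a (l 16389056) (l 1))) (a (a (l 16492984) (b (l 16436016) (l 16447064))) (a (c (l 16494480) (l 16495184)) (l 16379744))))))), by decide +kernel⟩

def k7_B04pp_022_s1 : ∃ t, chk3 f_B04pp_022_s1 t 18 10 1 = true :=
  ⟨(a (b (a (a (b (c (b (l 16649968) (l 16659264)) (b (l 16701584) (l 16710112))) (b (c (l 16668272) (l 16718136)) (c (l 16719112) (l 16726032)))) (b (c (l 16683272) (l 16692440)) (c (l 16728192) (b (l 16706120) (l 16714096))))) (b (c (l 16662440) (l 16671032)) (a (c (l 16689176) (l 16697720)) (b (l 16674856) (l 16684800))))) (c (c (c (c (c (a (b (b (l 522035583) (l 522748287)) (a (l 521220735) (l 523119487))) (a (b (l 16704312) (l 16700624)) (b (l 16691688) (l 16709144)))) (a (b (b (l 522376575) (l 522819967)) (b (l 523017087) (l 523106687))) (a (b (l 16704640) (l 16700880)) (b (l 16692056) (l 16709440))))) (b (a (a (l 522683519) (l 16696888)) (a (l 16705160) (l 16692616))) (a (b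 (l 522858111) (l 523212671)) (a (l 16701272) (l 16709896))))) (a (b (a (l 522929023) (l 16697848)) (b (l 523357055) (l 523436159))) (b (a (l 16664296) (l 16693792)) (l 16737800)))) (c (a (b (b (l 523332223) (l 16730656)) (a (l 523591551) (l 16736600))) (b (l 16701712) (l 16739088))) (a (b (a (l 16734072) (l 16721688)) (a (l 523962239) (l 16737664))) (b (l 16703440) (l 16729992))))) (c (a (b (b (l 16726096) (l 524464255)) (b (l 524644223) (l 524692863))) (c (b (l 16705304) (l 16731496)) (b (l 16707288) (l 16733104)))) (b (a (b (l 16733024) (l 524558975)) (a (l 16712760) (l 16700640))) (a (b (l 524405119) (l 524365183)) (a (l 16725928) (l 16713456))))))) (b (b (c (a (l 16591864) (l 16520720)) (a (l 16641600) (l 16527928))) (c (a (l 16654744) (l 16541976)) (a (l 16662984) (l 16633872)))) (a (a (c (b (l 16681816) (l 16699352)) (b (l 16689800) (l 16703672))) (b (c (l 16668344) (l 16676312)) (c (l 16687096) (l 16691920)))) (b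 (c (l 16647024) (l 16655160)) (c (l 16667232) (l 16674872)))))), by decide +kernel⟩

def k8_B04pp_022_s1 : ∃ t, chk3 f_B04pp_022_s1 t 18 11 1 = true :=
  ⟨(a (b (a (b (c (c (l 523354495) (l 523965823)) (a (l 525024895) (l 524876415))) (c (c (b (l 523437951) (l 523474047)) (l 523991167)) (c (l 524654719) (l 524331647)))) (b (a (c (l 523993983) (l 524765311)) (b (l 524481151) (l 524762239))) (a (c (l 524036735) (l 524757631)) (c (l 524213631) (l 524678015))))) (b (a (a (l 3) (l 524357503)) (a (l 524534655) (c (l 524225919) (l 524664959)))) (a (l 3) (c (c (a (l 523902591) (l 524012159)) (a (l 524261503) (l 524360575))) (c (a (l 524717183) (l 524799103)) (a (l 524283007) (l 524305535))))))) (b (c (a (b (a (l 16714864) (l 16702888)) (a (l 524356479) (l 16717160))) (b (l 16705608) (a (l 16705352) (l 16693520)))) (a (b (c (l 16712600) (l 16718928)) (a (l 524653439) (l 16718056))) (a (b (l 16692560) (l 16705856)) (b (l 16681304)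 (l 16693912))))) (a (b (a (c (l 524339327) (b (l 16740512) (l 524707967))) (c (l 524453247) (c (l 16733112) (l 16730208)))) (c (a (b (l 524303231) (a (l 524277119) (l 16762024))) (b (l 16740864) (l 16758048))) (a (b (l 524756863) (a (l 524803199) (l 524805503))) (b (l 16741896) (l 524813439))))) (b (a (c (l 16718832) (l 16719576)) (c (l 16706928) (l 16707592))) (c (a (b (l 16728744) (l 16735336)) (l 16720008)) (a (c (l 16734088) (l 16731832)) (l 16721256))))))), by decide +kernel⟩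

def k9_B04pp_022_s1 : ∃ t, chk3 f_B04pp_022_s1 t 19 5 1 = true :=
  ⟨(b (b (a (a (b (l 16578008) (l 16642000)) (b (a (l 16471432) (l 16456168)) (c (l 16482368) (l 16574528)))) (c (b (l 16417664) (l 16439288)) (b (l 16417600) (l 16441512)))) (a (c (a (b (l 16617944) (l 16639096)) (b (l 16588216) (l 16609904))) (a (b (l 16626408) (l 16647264)) (b (l 16597208) (l 16618880)))) (c (b (l 16461336) (l 16567312)) (b (l 16549248) (l 16572296))))) (a (b (b (a (c (l 16658608) (l 16666016)) (c (l 16630344) (l 16638592))) (a (c (l 16675264) (l 16677208)) (c (l 16648680) (l 16655824)))) (b (a (c (l 16689272) (l 16690056)) (a (c (l 16671336) (l 16673168)) (c (l 16658472) (l 16663544)))) (a (c (l 16723088) (b (l 16700240) (l 16707056))) (a (l 16686392) (b (l 16671464) (l 16677624)))))) (a (b (c (l 16654344) (b (l 16609000) (l 16627488))) (a (b (l 16647800) (l 16662032)) (c (l 16682288) (l 16685472)))) (b (b (l 16576128) (l 16595904))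 (b (l 16613336) (l 16670704)))))), by decide +kernel⟩

def k10_B04pp_022_s1 : ∃ t, chk3 f_B04pp_022_s1 t 8 3 1 = true :=
  ⟨(l 3), by decide +kernel⟩

def k11_B04pp_022_s1 : ∃ t, chk3 f_B04pp_022_s1 t 9 3 4 = true :=
  ⟨(b (a (b (a (b (a (l 3) (b (a (l 3) (b (l 524145535) (l 524240767))) (l 3))) (l 3)) (b (a (b (b (a (a (l 524206975) (l 524244863)) (l 16764536)) (a (l 524312959) (l 524377983))) (l 524473983)) (b (a (b (l 16741680) (l 16748512)) (l 16743328)) (a (b (l 16760440) (l 524610943)) (b (l 16743000) (l 16749616))))) (b (a (b (l 524658303) (l 3)) (a (l 525839231) (b (l 16761336) (l 524872575)))) (a (l 3) (a (b (l 524838271) (l 3)) (b (l 524912511) (l 524938111))))))) (a (l 3) (b (a (l 3) (a (l 3) (l 524976767))) (l 3)))) (b (b (b (a (a (l 16735632) (l 16690656)) (a (l 16667512) (l 16643040))) (a (a (b (l 16724784) (l 16731528)) (l 16704120)) (a (l 16681000) (l 16657528)))) (a (a (b (b (l 16748600) (l 524941183))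 (b (l 525004671) (l 525033599))) (b (b (l 16714240) (l 16720832)) (b (l 16727232) (l 16754328)))) (a (b (l 16694248) (l 16707240)) (b (l 16671424) (l 16682608))))) (b (a (a (l 525054335) (b (l 525164671) (l 525181311))) (a (b (l 16740160) (l 525306239)) (a (l 16727256) (l 16693216)))) (a (a (l 525102463) (l 525178495)) (a (l 525264511) (l 525049983)))))) (a (l 3) (b (a (b (a (l 3) (l 525166975)) (l 3)) (b (a (l 525196159) (l 524991359)) (a (l 525088639) (l 524903039)))) (a (l 3) (b (a (l 3) (l 524772991)) (l 3)))))), by decide +kernel⟩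

def k12_B04pp_022_s1 : ∃ t, chk3 f_B04pp_022_s1 t 9 3 5 = true :=
  ⟨(b (a (b (a (b (a (l 3) (b (a (l 3) (b (l 524426367) (l 524471167))) (l 3))) (l 3)) (b (a (b (b (a (l 524501119) (l 524568447)) (a (l 524542335) (l 524606079))) (l 524628351)) (b (a (b (l 16742440) (l 16749032)) (l 16733680)) (a (l 524715647) (l 524767359)))) (b (a (b (l 524712063) (l 3)) (a (l 524804223) (l 524864127))) (a (l 3) (b (a (l 524844159) (l 524902271)) (l 524888847)))))) (a (l 3) (b (a (l 3) (a (l 3) (l 524935551))) (l 3)))) (b (b (a (a (b (l 16736712) (b (l 16725448) (l 16731952))) (b (l 16691912) (l 16704776))) (a (b (l 16668200) (l 16681176)) (b (l 16642896) (l 16656808)))) (a (a (b (b (l 16738320) (l 524946303)) (b (l 524975999) (l 524992895))) (b (l 16717672) (b (l 16727040) (l 16733112)))) (a (b (l 16693936) (l 16706576)) (b (l 16670264) (l 16683080))))) (b (a (b (a (l 525006207) (l 525092991)) (l 525869951)) (a (b (l 16718560) (l 16751072))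 (a (l 16727896) (l 16695232)))) (a (a (l 525041023) (l 525118335)) (a (l 525199999) (l 525280127)))))) (a (l 3) (b (a (b (a (l 3) (l 525131391)) (l 3)) (b (a (l 525199487) (l 525270911)) (a (l 525176191) (l 525234815)))) (a (l 3) (b (a (l 3) (l 525170303)) (l 3)))))), by decide +kernel⟩

def k13_B04pp_022_s1 : ∃ t, chk3 f_B04pp_022_s1 t 9 3 6 = true :=
  ⟨(b (a (b (a (b (a (l 3) (b (a (l 3) (b (l 524794495) (l 524787071))) (l 3))) (l 3)) (b (a (b (b (a (l 524859775) (l 524917631)) (l 524880255)) (l 524857471)) (b (a (b (l 16743400) (l 16749712)) (l 16734760)) (a (l 524938367) (l 524979839)))) (b (a (b (l 524834175) (l 3)) (a (l 524904831) (l 524935551))) (a (l 3) (a (l 524909695) (b (l 524942463) (l 524948095))))))) (a (l 3) (b (a (l 3) (a (l 3) (l 524945535))) (l 3)))) (b (a (b (a (b (l 16727592) (b (l 16726344) (l 16732552))) (b (l 16693456) (l 16705648))) (a (b (l 526048383) (b (l 524982655) (l 524987007))) (b (l 16717912)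 (b (l 16726936) (l 16732920))))) (b (a (b (l 16668976) (l 16681368)) (b (l 16642624) (l 16655808))) (a (b (l 16693568) (l 16705800)) (b (l 16668688) (l 16681192))))) (b (a (a (l 524984703) (b (l 525037183) (l 525058175))) (a (b (l 16717808) (l 16750552)) (b (l 16693400) (l 16705368)))) (a (a (l 525017983) (l 525076095)) (a (l 525110655) (l 525125503)))))) (a (l 3) (b (a (b (a (l 3) (l 525117055)) (l 3)) (b (a (l 525179263) (l 525229183)) (a (l 525243519) (l 525329791)))) (a (l 3) (b (a (l 3) (l 525425791)) (l 3)))))), by decide +kernel⟩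

def k14_B04pp_022_s1 : ∃ t, chk3 f_B04pp_022_s1 t 9 3 7 = true :=
  ⟨(b (a (b (a (b (a (l 3) (b (a (l 3) (b (l 524323711) (l 524334719))) (l 3))) (l 3)) (b (a (b (b (a (l 524361855) (l 524413311)) (l 524381055)) (l 524380543)) (b (a (b (l 16742016) (l 16748592)) (l 16733232)) (a (l 524486271) (l 524589695)))) (b (a (b (l 524440191) (l 3)) (a (l 524509567) (b (l 524629119) (l 524691583)))) (a (l 3) (a (l 524785279) (b (l 524701567) (l 524706943))))))) (a (l 3) (b (a (l 3) (a (l 3) (l 524704639))) (l 3)))) (b (a (b (a (b (l 16726056) (b (l 16725400) (l 16731792))) (b (l 16693008) (l 16706056))) (a (b (b (l 16738160) (l 524925311)) (b (l 524961919) (l 524976255))) (b (l 16718288) (b (l 16726904) (l 16732792))))) (b (a (b (l 16669848) (l 16681576)) (b (l 16642232) (l 16654520))) (a (b (l 16693152) (l 16704912)) (b (l 16666704) (l 16678824))))) (b (a (a (l 524973951) (b (l 524996735) (l 525020799))) (a (b (l 16716928) (l 16749936))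 (b (l 16691128) (l 16703504)))) (a (a (l 525020799) (l 525051775)) (a (l 524995967) (l 524894847)))))) (a (l 3) (b (a (b (a (l 3) (l 525123967)) (l 3)) (b (a (l 525135487) (l 525109119)) (a (l 525290879) (l 525345151)))) (a (l 3) (b (a (l 3) (l 525602175)) (l 3)))))), by decide +kernel⟩

def k15_B04pp_022_s1 : ∃ t, chk3 f_B04pp_022_s1 t 5 2 1 = true :=
  ⟨(b (a (b (l 1) (a (b (l 1) (a (b (l 1) (a (l 16432336) (l 1))) (l 1))) (l 1))) (l 1)) (a (b (a (a (b (b (a (l 16370568) (l 16422608)) (a (l 16477304) (l 16445440))) (c (a (l 16429320) (l 16399608)) (b (l 16398456) (l 16423240)))) (b (a (b (l 16390168) (l 16412872)) (b (l 1) (a (l 16387744) (l 16369888)))) (a (b (l 16436480) (l 16460400)) (a (l 16339576) (c (l 16326512) (l 16400712)))))) (b (b (l 1) (a (l 16330640) (l 1))) (a (b (l 16354024) (l 16378256)) (b (l 16293704) (l 16317600))))) (a (a (b (c (b (l 16447104) (l 16551600)) (b (l 16446496) (l 16551616))) (c (c (l 16642232)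 (l 16620960)) (b (l 16570408) (l 16586512)))) (a (b (l 16536768) (c (l 16452392) (l 16450120))) (b (a (l 16386544) (c (l 16370696) (l 16451568))) (a (l 16428096) (c (l 16411904) (l 16495160)))))) (b (a (c (l 16415040) (l 16413408)) (c (l 16355248) (l 16352488))) (c (a (l 16373608) (l 16398752)) (a (l 16374856) (l 16400120)))))) (b (b (l 1) (a (a (l 16161600) (l 1)) (l 1))) (b (a (a (b (l 16280976) (l 16304768)) (b (l 16220472) (l 16243960))) (a (l 16171976) (l 1))) (a (a (l 16255504) (l 16195000)) (a (l 16134128) (l 16157152))))))), by decide +kernel⟩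

def k16_B04pp_022_s1 : ∃ t, chk3 f_B04pp_022_s1 t 10 6 1 = true :=
  ⟨(a (a (b (b (c (a (b (l 16616704) (l 16631464)) (l 16639592)) (b (l 16642752) (l 16661104))) (a (b (c (l 16646128) (l 16640888)) (c (l 16660000) (l 16653736))) (b (c (l 16619648) (l 16529352)) (c (l 16634392) (l 16626504))))) (b (a (c (b (l 16671688) (l 16682584)) (b (l 16666552) (l 16679176))) (b (c (l 16648336) (l 16639896)) (c (l 16660776) (l 16653064)))) (b (c (a (l 16693672) (l 16670696)) (a (l 16691536) (l 16665928))) (a (c (l 16704504) (l 16703440)) (c (l 16680856) (l 16678432)))))) (a (b (b (a (l 16616904) (l 16560712)) (c (l 16600192) (l 16592352))) (b (c (l 16628752) (l 16619016)) (a (b (l 16651024) (l 16663040)) (b (l 16638040) (l 16650496))))) (b (b (a (b (l 16538072) (l 16553544)) (b (l 16438568) (l 16454416))) (a (l 16575368) (a (l 16564256) (l 16472784)))) (b (a (l 16604184) (a (l 16593488) (l 16586176))) (a (l 16673264) (a (l 16621208)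 (l 16614320))))))) (b (b (b (a (l 16486640) (l 16430000)) (a (l 16503624) (l 16448872))) (b (a (l 16519344) (l 16465976)) (a (l 16534112) (l 16481832)))) (b (a (b (l 16465200) (a (l 16576872) (l 16550936))) (b (l 16496744) (l 16511880))) (a (b (l 16494608) (l 16529472)) (c (l 16455896) (l 16443792)))))), by decide +kernel⟩

def k17_B04pp_022_s1 : ∃ t, chk3 f_B04pp_022_s1 t 20 7 1 = true :=
  ⟨(a (b (a (b (a (l 525847055) (b (l 16709952) (l 525364607))) (a (c (l 525109375) (l 525391999)) (c (l 525084543) (l 525414527)))) (b (a (c (l 16723256) (l 16702296)) (c (l 16690720) (l 16690032))) (a (c (l 525120383) (l 525431167)) (c (l 525196815) (l 16733088))))) (a (a (b (c (l 525002879) (l 525610623)) (b (a (c (l 524870527) (l 525775487)) (c (l 524879231) (l 525814911))) (l 3))) (b (c (l 524953471) (l 525661055)) (b (c (l 524913535) (l 525876495)) (l 525567103)))) (b (a (c (l 525023103) (l 525712767)) (c (l 525389439) (l 525754751)))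 (c (a (b (l 524965759) (l 524916351)) (b (l 525036415) (l 524987263))) (a (b (l 525949823) (l 526187391)) (b (l 526014335) (l 526267263))))))) (a (a (b (c (b (l 16679760) (l 16720296)) (b (l 16677656) (l 16700248))) (b (c (c (l 16735144) (l 16740064)) (l 525788175)) (c (b (l 16730984) (l 525095807)) (b (l 16734728) (l 526068607))))) (c (b (b (l 16710936) (l 16688280)) (b (b (l 16701968) (l 16710800)) (b (l 16719400) (l 16727864)))) (b (b (l 16665136) (l 16688304)) (b (l 16709344) (b (l 16723688) (l 16732720)))))) (a (c (b (b (l 16657360) (b (l 16672256) (l 16681624))) (b (b (l 16690696) (l 16699600)) (b (l 16708272) (l 16716816)))) (b (b (l 16652424) (l 16676264)) (b (b (l 16692624) (l 16702888)) (b (l 16712608) (l 16721928))))) (b (b (a (l 16646224) (l 16639816)) (a (a (l 16670224) (l 16667296)) (l 16662872))) (c (b (a (a (l 16688352) (l 16706864)) (l 16682400)) (a (a (l 16705816) (l 16724096)) (b (l 16695104) (l 16708776))))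 (b (a (l 16689232) (l 16683456)) (a (a (l 16710504) (l 16707760)) (b (l 16698712) (l 16708328))))))))), by decide +kernel⟩

def k18_B04pp_022_s1 : ∃ t, chk3 f_B04pp_022_s1 t 21 7 1 = true :=
  ⟨(a (b (b (b (l 16605664) (l 16618312)) (c (l 16637792) (l 16549696))) (b (b (l 16652720) (l 16663032)) (b (l 16672784) (c (l 16679688) (l 16599672))))) (b (b (l 16562616) (l 16588424)) (b (l 16611904) (b (l 16628032) (l 16638344))))), by decide +kernel⟩

def k19_B04pp_022_s1 : ∃ t, chk3 f_B04pp_022_s1 t 11 3 1 = true :=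
  ⟨(b (b (b (a (a (l 16298336) (l 16239528)) (a (l 16263544) (l 16202936))) (a (a (l 16335920) (l 16280512)) (a (l 16306936) (l 16248088)))) (b (a (a (b (l 16444520) (l 16459608)) (l 16315608)) (c (l 16237320) (l 16229264))) (a (a (b (l 16474952) (l 16490144)) (l 16346936)) (a (l 16378944) (l 16326008))))) (b (a (b (a (l 16428576) (l 16377440)) (a (l 16540008) (l 16407024))) (b (a (l 16410024) (l 16358480)) (l 16499248))) (b (a (l 16583528) (l 16445680)) (a (a (l 16588400) (l 16459064)) (l 16305720))))), by decide +kernel⟩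

def k20_B04pp_022_s1 : ∃ t, chk3 f_B04pp_022_s1 t 3 1 1 = true :=
  ⟨(b (b (l 1) (a (b (l 1) (a (b (l 1) (a (a (l 16096688) (l 1)) (l 1))) (l 1))) (l 1))) (b (a (a (b (b (a (a (l 16141936) (l 16080920)) (l 15990144)) (a (l 16073888) (l 15951752))) (b (a (l 16119192) (l 16083208)) (a (a (l 16271896) (l 16216584)) (l 16129808)))) (l 6)) (l 6)) (a (b (a (a (b (l 16112688) (l 16145840)) (b (l 16088160) (l 16210384))) (a (b (l 16058200) (l 16102360)) (l 6))) (a (a (b (a (l 16371984) (l 16321568)) (l 16294696)) (b (l 16161544) (l 16196280))) (a (b (l 16142840) (l 16179864)) (l 6)))) (l 6)))), by decide +kernel⟩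

theorem t21_B04pp_022_s1 : ∃ t, chk3 f_B04pp_022_s1 t 10 7 1 = true := ex3_a k17_B04pp_022_s1 k18_B04pp_022_s1

theorem t22_B04pp_022_s1 : ∃ t, chk3 f_B04pp_022_s1 t 10 3 1 = true := ex3_b k16_B04pp_022_s1 t21_B04pp_022_s1

theorem t23_B04pp_022_s1 : ∃ t, chk3 f_B04pp_022_s1 t 5 3 1 = true := ex3_a t22_B04pp_022_s1 k19_B04pp_022_s1

theorem t24_B04pp_022_s1 : ∃ t, chk3 f_B04pp_022_s1 t 5 1 1 = true := ex3_b k15_B04pp_022_s1 t23_B04pp_022_s1

theorem t25_B04pp_022_s1 : ∃ t, chk3 f_B04pp_022_s1 t 9 3 3 = true := ex3_c k13_B04pp_022_s1 k14_B04pp_022_s1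

theorem t26_B04pp_022_s1 : ∃ t, chk3 f_B04pp_022_s1 t 9 3 2 = true := ex3_c k11_B04pp_022_s1 k12_B04pp_022_s1

theorem t27_B04pp_022_s1 : ∃ t, chk3 f_B04pp_022_s1 t 9 3 1 = true := ex3_c t26_B04pp_022_s1 t25_B04pp_022_s1

theorem t28_B04pp_022_s1 : ∃ t, chk3 f_B04pp_022_s1 t 4 3 1 = true := ex3_a k10_B04pp_022_s1 t27_B04pp_022_s1

theorem t29_B04pp_022_s1 : ∃ t, chk3 f_B04pp_022_s1 t 18 5 1 = true := ex3_b k7_B04pp_022_s1 k8_B04pp_022_s1

theorem t30_B04pp_022_s1 : ∃ t, chk3 f_B04pp_022_s1 t 9 5 1 = true := ex3_a t29_B04pp_022_s1 k9_B04pp_022_s1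

theorem t31_B04pp_022_s1 : ∃ t, chk3 f_B04pp_022_s1 t 9 2 1 = true := ex3_b k6_B04pp_022_s1 t30_B04pp_022_s1

theorem t32_B04pp_022_s1 : ∃ t, chk3 f_B04pp_022_s1 t 34 9 1 = true := ex3_b k2_B04pp_022_s1 k3_B04pp_022_s1

theorem t33_B04pp_022_s1 : ∃ t, chk3 f_B04pp_022_s1 t 17 9 1 = true := ex3_a t32_B04pp_022_s1 k4_B04pp_022_s1

theorem t34_B04pp_022_s1 : ∃ t, chk3 f_B04pp_022_s1 t 8 9 1 = true := ex3_a k1_B04pp_022_s1 t33_B04pp_022_s1

theorem t35_B04pp_022_s1 : ∃ t, chk3 f_B04pp_022_s1 t 8 4 1 = true := ex3_b k0_B04pp_022_s1 t34_B04pp_022_s1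

theorem t36_B04pp_022_s1 : ∃ t, chk3 f_B04pp_022_s1 t 8 2 1 = true := ex3_b t35_B04pp_022_s1 k5_B04pp_022_s1

theorem t37_B04pp_022_s1 : ∃ t, chk3 f_B04pp_022_s1 t 4 2 1 = true := ex3_a t36_B04pp_022_s1 t31_B04pp_022_s1

theorem t38_B04pp_022_s1 : ∃ t, chk3 f_B04pp_022_s1 t 4 1 1 = true := ex3_b t37_B04pp_022_s1 t28_B04pp_022_s1

theorem t39_B04pp_022_s1 : ∃ t, chk3 f_B04pp_022_s1 t 2 1 1 = true := ex3_a t38_B04pp_022_s1 t24_B04pp_022_s1

theorem t40_B04pp_022_s1 : ∃ t, chk3 f_B04pp_022_s1 t 1 1 1 = true := ex3_a t39_B04pp_022_s1 k20_B04pp_022_s1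

theorem c_B04pp_022_s1 : CertF 0 536870912 1073741824 536870912 858993459 64424510 false true true .pp 0 2 2
    ndB0q0 ndB4q2 pcB2 cut_B04pp_022_s1 xt_B04pp_022_s1 :=
  certF2 (fam := false) (s1 := true) (s2 := true) (a := 0) (b := 2) (c := 2) (cn := .pp) (n1 := ndB0q0) (n2 := ndB4q2) (pc := pcB2) (cut := cut_B04pp_022_s1) (xt := xt_B04pp_022_s1) (P1 := 0) (W1 := 536870912) (P2 := 1073741824) (W2 := 536870912) (P3 := 858993459) (W3 := 64424510)
    rfl (fun _ => rfl) t40_B04pp_022_s1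

theorem s_B04pp_022_s1 {κ x : ℝ} (hκ : κ * h0 = ken x) (hx : ((858993459 : ℕ) : ℝ) / S ≤ x)
    (hx' : x ≤ (((858993459 : ℕ) : ℝ) + (64424510 : ℕ)) / S)
    (H : CutB (VFD κ) PP tK tL pcB (Cut.of [[⟨0, 0, 0, 67108864⟩, ⟨1, 1, 0, 67108864⟩, ⟨2, 1, 0, 67108864⟩]]) 0 2 2 0 4 (sgb true) (sgb true) x) :
    AltB (VFD κ) PP tK tL pcB [⟨3, 0, 0, 1449551462⟩] 0 2 2 0 4 (sgb true) (sgb true) x :=
  strip_altBD (m := 1449551462) true rfl hκ (SH.κ0 hκ (SH.hx1 hx).le (SH.hx2 hx').le) (SH.hx1 hx).le (SH.hx2 hx') (covB00).cov (covB42).cov hx hx' c_B04pp_022_s1 H ((okx hx hx').extB (T := tt) (sideB hx hx') hκ rfl rfl (.O 0 true) (.N 2 true) rfl)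

noncomputable def cut_B04pp_023_s1 : Cut := Cut.of [[⟨4, 0, 0, 1449551462⟩]]

noncomputable def xt_B04pp_023_s1 : Ext := strExt dd false true true .u0 .s2 .u2 .up 0 2 3 rfl rfl gf2 vv ndB0q0 ndB4q3

noncomputable def f_B04pp_023_s1 : ℕ → ℕ → ℕ → ℕ → Bool := onCell 1073741824 536870912 0 1230186008 858993459 64424510
    (rowF 2 false true true .up 0 2 3 (qsf 0 536870912 0 1230186008 2) ndB0q0 ndB4q3 pcB2 cut_B04pp_023_s1 xt_B04pp_023_s1)

def k0_B04pp_023_s1 : ∃ t, chk3 f_B04pp_023_s1 t 1 2 1 = true :=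
  ⟨(a (l 2) (a (l 2) (l 6))), by decide +kernel⟩

def k1_B04pp_023_s1 : ∃ t, chk3 f_B04pp_023_s1 t 4 3 1 = true :=
  ⟨(b (l 2) (b (l 2) (l 3))), by decide +kernel⟩

def k2_B04pp_023_s1 : ∃ t, chk3 f_B04pp_023_s1 t 5 6 1 = true :=
  ⟨(a (l 2) (b (l 2) (a (l 2) (b (l 2) (b (l 2) (l 16495472)))))), by decide +kernel⟩

def k3_B04pp_023_s1 : ∃ t, chk3 f_B04pp_023_s1 t 40 7 1 = true :=
  ⟨(c (c (b (l 3) (b (l 3) (b (a (l 3) (a (l 3) (b (l 523871871) (l 523730303)))) (a (a (l 3) (l 524586623)) (b (a (l 523967103) (l 523995007)) (l 524100879)))))) (b (l 3) (b (l 3) (b (a (l 3) (a (l 3) (b (l 525722239) (l 525495935)))) (a (a (l 3) (l 525278847)) (b (l 525442575) (l 525396751))))))) (c (b (l 3) (b (l 3) (a (b (l 3) (a (l 3) (l 526137727))) (b (a (l 3) (b (l 526287231) (l 526770815))) (a (l 526261631) (l 526374927)))))) (b (l 3) (b (l 3) (a (b (l 3) (a (l 3) (l 526818431))) (b (a (l 3) (b (a (l 3) (l 528177791)) (l 527752831))) (b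 (l 526407695) (l 526786063)))))))), by decide +kernel⟩

def k4_B04pp_023_s1 : ∃ t, chk3 f_B04pp_023_s1 t 41 14 1 = true :=
  ⟨(a (l 3) (a (c (b (l 2) (b (l 2) (a (b (l 3) (a (l 3) (l 529653631))) (b (a (b (l 2) (l 529643391)) (a (l 531065727) (l 531047295))) (a (a (l 530201471) (b (l 530711311) (l 530647167))) (b (a (l 530681103) (l 530700927)) (b (l 16774136) (l 16773408)))))))) (b (l 2) (b (l 2) (a (b (l 3) (a (l 3) (l 529557631))) (a (b (a (l 3) (l 529753727)) (b (l 529597967) (l 529510671))) (b (l 529766783) (c (l 531410047) (b (l 529337983) (l 529325695))))))))) (b (l 2) (b (l 2) (b (b (a (l 530477119) (b (l 366246613191) (l 23722970327))) (a (a (l 530363775) (l 530357311)) (b (l 16770128) (l 16769544)))) (b (c (a (a (b (l 16773728) (l 16767848)) (l 16771704)) (l 16769160)) (a (a (l 529632895) (l 16770824)) (l 16757416))) (a (a (a (l 529909375) (l 529915519)) (a (l 530186623) (l 16769392))) (l 16769672)))))))), by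 decide +kernel⟩

def k5_B04pp_023_s1 : ∃ t, chk3 f_B04pp_023_s1 t 41 30 2 = true :=
  ⟨(b (a (a (l 3) (a (a (l 3) (l 3)) (b (l 528108671) (c (l 526617871) (l 527859327))))) (a (b (a (a (l 528573567) (b (l 529152895) (l 528666239))) (a (b (l 529493007) (l 528991871)) (b (l 529736319) (l 16770304)))) (a (b (l 527245839) (a (l 527482751) (l 527759999))) (a (b (l 528505215) (l 528036623)) (b (l 16768136) (l 16765672))))) (a (b (b (l 16769408) (l 16767416)) (b (l 16765128) (l 16762552))) (b (b (l 16765688) (l 16763544)) (b (l 16761096) (l 16758392)))))) (a (a (b (l 3) (a (l 525407103) (l 525639551))) (b (a (b (a (l 3) (l 526391167)) (l 526163839)) (c (b (l 526024831) (l 525724799)) (l 527281791))) (a (l 525883007) (a (l 526071167) (l 526235263))))) (a (a (b (a (b (l 527104127) (l 526809983)) (b (l 527370111) (l 16764416))) (a (l 526145039) (l 526071055))) (b (a (b (l 16765064) (l 16762184)) (c (l 16760872) (l 16762064))) (b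 (l 16757928) (l 16754520)))) (b (b (l 16757616) (l 16754536)) (b (l 16751192) (l 16747600)))))), by decide +kernel⟩

def k6_B04pp_023_s1 : ∃ t, chk3 f_B04pp_023_s1 t 41 30 3 = true :=
  ⟨(b (a (a (l 3) (b (a (l 3) (b (l 3) (l 529302655))) (a (l 3) (a (l 529135375) (a (l 529141631) (l 529145215)))))) (a (b (a (c (a (l 529224063) (l 529291903)) (a (l 529455999) (l 529414271))) (a (b (l 529414671) (l 529315599)) (b (l 16771960) (l 16770384)))) (a (a (b (l 529205375) (l 529901583)) (l 529159039)) (a (b (l 529213455) (l 16768864)) (b (l 16768664) (l 16756312))))) (b (b (a (l 16768976) (l 16764984)) (a (l 16756872) (l 16763328))) (b (a (l 16755120) (l 16761536)) (l 16766856))))) (a (a (b (l 3) (l 527133711)) (b (a (a (l 528765823) (l 528049791)) (a (l 528331391) (l 528869247))) (a (l 528345215) (a (l 528401935) (b (l 528534031) (l 16765952)))))) (a (a (b (a (l 528883839) (b (l 16768920) (l 16766664))) (b (c (l 16764712) (l 16765776))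 (l 16762592))) (b (b (c (l 16765368) (l 16766104)) (l 16763432)) (c (l 16758800) (l 16760136)))) (b (b (l 16759416) (l 16756952)) (b (l 16733296) (l 16730376)))))), by decide +kernel⟩

def k7_B04pp_023_s1 : ∃ t, chk3 f_B04pp_023_s1 t 41 31 1 = true :=
  ⟨(c (b (a (a (b (c (l 524865807) (l 525995791)) (c (a (l 524049023) (l 524361087)) (l 525746703))) (b (a (l 525533455) (l 525760015)) (a (l 525291135) (l 525511039)))) (b (a (a (b (l 16755680) (l 16751896)) (c (l 16747496) (l 16750216))) (b (l 16743752) (l 16739736))) (a (a (l 525736463) (l 16740928)) (l 16733536)))) (a (a (b (a (l 524974207) (l 525097855)) (l 525056015)) (b (a (l 525239423) (l 525396351)) (c (l 16750312) (l 16748880)))) (b (a (a (l 16737552) (l 16732400)) (l 16724792)) (a (c (l 16734192) (l 16727600)) (l 16715344))))) (b (a (a (b (a (l 527238271) (l 527312911)) (a (l 527126143) (l 526920575))) (b (a (l 527390847) (l 527452431)) (a (l 526982527) (l 526765439))))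 (b (a (a (c (l 16762432) (l 16758872)) (c (l 16752488) (l 16754328))) (l 16746488)) (a (a (l 526526479) (l 16746368)) (l 16739096)))) (a (a (b (b (l 526057231) (l 525872767)) (l 525859455)) (b (a (l 527108223) (l 16748216)) (c (l 16740960) (l 16742608)))) (b (a (a (l 16743200) (l 16738168)) (l 16730584)) (a (a (l 16734072) (l 16728800)) (l 16720912)))))), by decide +kernel⟩

def k8_B04pp_023_s1 : ∃ t, chk3 f_B04pp_023_s1 t 21 7 1 = true :=
  ⟨(b (b (l 531396959) (a (a (b (l 530762591) (b (l 530420063) (a (b (l 16763056) (l 16750920)) (l 16760008)))) (b (b (l 2) (l 530680159)) (b (l 530422367) (l 16743432)))) (b (b (l 530935391) (l 530691935)) (b (l 16725488) (l 16720312))))) (b (a (b (a (b (a (b (l 16749064) (l 16736512)) (b (l 16751760) (l 16749488))) (b (a (l 16734240) (l 16746992)) (a (l 16731736) (l 16744272)))) (b (l 16738656) (l 16733016))) (c (b (a (l 16758744) (l 16725288)) (a (l 16735608) (l 16716976))) (b (a (l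 16755720) (l 16727736)) (a (a (l 16701880) (l 16734744)) (l 16721016))))) (b (b (l 16735216) (a (l 16715944) (l 16698592))) (b (a (l 16624608) (l 16690280)) (a (l 16616352) (l 16681224))))) (a (a (b (b (c (l 16727472) (l 16690408)) (c (l 16718808) (l 16682400))) (b (l 16702288) (l 16702832))) (b (b (l 16668792) (l 16701848)) (b (l 16692104) (l 16681576)))) (b (b (l 16597552) (l 16587528)) (b (l 16576888) (l 16565456)))))), by decide +kernel⟩

def k9_B04pp_023_s1 : ∃ t, chk3 f_B04pp_023_s1 t 11 7 1 = true :=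
  ⟨(b (a (c (a (a (c (b (l 16771744) (b (l 16718984) (l 16705096))) (b (l 531775583) (b (l 16713264) (l 16701608)))) (b (l 16757008) (b (l 16703296) (l 16687784)))) (b (l 16782176) (b (l 16682448) (l 16663816)))) (a (a (b (l 530848351) (b (l 16704152) (l 16696360))) (b (l 530876767) (b (l 16689272) (l 16680488)))) (b (b (l 16680928) (l 16674832)) (b (l 16666976) (l 16656168))))) (b (b (l 16571648) (l 16561040)) (b (a (l 16645048) (l 16613856)) (b (l 16615072) (l 16603920))))) (a (b (b (a (c (l 16592392) (l 16592720)) (l 16556912)) (a (c (l 16571696) (l 16575952)) (l 16534992))) (b (a (c (l 16549544) (l 16554576)) (l 16510856)) (b (l 16513048) (l 16500056)))) (b (b (l 16627864) (a (l 16495576) (l 16539360))) (b (a (l 16552976) (l 16510352)) (l 16418376))))), by decide +kernel⟩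

def k10_B04pp_023_s1 : ∃ t, chk3 f_B04pp_023_s1 t 3 3 1 = true :=
  ⟨(b (a (b (a (l 2) (b (l 163846170695) (c (l 16589464) (l 16281264)))) (a (a (b (l 16469312) (l 16706400)) (b (l 16600648) (l 16324488))) (a (b (l 16393648) (l 16357856)) (l 6)))) (l 6)) (b (a (a (b (a (b (l 16604848) (l 16587088)) (b (l 16548936) (l 16524784))) (a (b (l 16565152) (l 16538640)) (l 16574096))) (a (b (l 16389032) (l 16153184)) (l 6))) (l 6)) (a (a (b (b (a (l 16509048) (l 16429728)) (a (l 16394144) (l 16393560))) (b (a (l 16445400) (l 16356536)) (a (l 16411552) (l 16317968)))) (a (b (b (l 16347200) (l 16306568)) (b (l 16264688) (l 16220656))) (l 6))) (l 6)))), by decide +kernel⟩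

theorem t11_B04pp_023_s1 : ∃ t, chk3 f_B04pp_023_s1 t 41 30 1 = true := ex3_c k5_B04pp_023_s1 k6_B04pp_023_s1

theorem t12_B04pp_023_s1 : ∃ t, chk3 f_B04pp_023_s1 t 41 15 1 = true := ex3_b t11_B04pp_023_s1 k7_B04pp_023_s1

theorem t13_B04pp_023_s1 : ∃ t, chk3 f_B04pp_023_s1 t 41 7 1 = true := ex3_b k4_B04pp_023_s1 t12_B04pp_023_s1

theorem t14_B04pp_023_s1 : ∃ t, chk3 f_B04pp_023_s1 t 20 7 1 = true := ex3_a k3_B04pp_023_s1 t13_B04pp_023_s1

theorem t15_B04pp_023_s1 : ∃ t, chk3 f_B04pp_023_s1 t 10 7 1 = true := ex3_a t14_B04pp_023_s1 k8_B04pp_023_s1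

theorem t16_B04pp_023_s1 : ∃ t, chk3 f_B04pp_023_s1 t 5 7 1 = true := ex3_a t15_B04pp_023_s1 k9_B04pp_023_s1

theorem t17_B04pp_023_s1 : ∃ t, chk3 f_B04pp_023_s1 t 5 3 1 = true := ex3_b k2_B04pp_023_s1 t16_B04pp_023_s1

theorem t18_B04pp_023_s1 : ∃ t, chk3 f_B04pp_023_s1 t 2 3 1 = true := ex3_a k1_B04pp_023_s1 t17_B04pp_023_s1

theorem t19_B04pp_023_s1 : ∃ t, chk3 f_B04pp_023_s1 t 1 3 1 = true := ex3_a t18_B04pp_023_s1 k10_B04pp_023_s1

theorem t20_B04pp_023_s1 : ∃ t, chk3 f_B04pp_023_s1 t 1 1 1 = true := ex3_b k0_B04pp_023_s1 t19_B04pp_023_s1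

theorem c_B04pp_023_s1 : CertF 0 536870912 0 1230186008 858993459 64424510 false true true .up 0 2 3
    ndB0q0 ndB4q3 pcB2 cut_B04pp_023_s1 xt_B04pp_023_s1 :=
  certF2 (fam := false) (s1 := true) (s2 := true) (a := 0) (b := 2) (c := 3) (cn := .up) (n1 := ndB0q0) (n2 := ndB4q3) (pc := pcB2) (cut := cut_B04pp_023_s1) (xt := xt_B04pp_023_s1) (P1 := 0) (W1 := 536870912) (P2 := 0) (W2 := 1230186008) (P3 := 858993459) (W3 := 64424510)
    rfl (fun _ => rfl) t20_B04pp_023_s1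

theorem s_B04pp_023_s1 {κ x : ℝ} (hκ : κ * h0 = ken x) (hx : ((858993459 : ℕ) : ℝ) / S ≤ x)
    (hx' : x ≤ (((858993459 : ℕ) : ℝ) + (64424510 : ℕ)) / S) :
    AltB (VFD κ) PP tK tL pcB [⟨3, 0, 0, 1449551462⟩] 0 2 3 0 4 (sgb true) (sgb true) x :=
  strip_altBD (m := 1449551462) true rfl hκ (SH.κ0 hκ (SH.hx1 hx).le (SH.hx2 hx').le) (SH.hx1 hx).le (SH.hx2 hx') (covB00).cov (covB43).cov hx hx' c_B04pp_023_s1 cutB_nil ((okx hx hx').extB (T := tt) (sideB hx hx') hκ rfl rfl (.O 0 true) (.N 3 true) rfl)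

noncomputable def cut_B04pp_033_s1 : Cut := Cut.of [[⟨4, 0, 0, 1449551462⟩]]

noncomputable def f_B04pp_033_s1 : ℕ → ℕ → ℕ → ℕ → Bool := onCell 1610612736 536870912 0 1230186008 858993459 64424510
    (rowF 2 false true true .pnn 0 3 3 (qsf 0 536870912 0 1230186008 3) ndB0q0 ndB4q3 pcB3 cut_B04pp_033_s1 Ext.none)

def k0_B04pp_033_s1 : ∃ t, chk3 f_B04pp_033_s1 t 1 1 1 = true :=
  ⟨(b (l 6) (l 6)), by decide +kernel⟩

theorem c_B04pp_033_s1 : CertF 0 536870912 0 1230186008 858993459 64424510 false true true .pnn 0 3 3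
    ndB0q0 ndB4q3 pcB3 cut_B04pp_033_s1 Ext.none :=
  certF2 (fam := false) (s1 := true) (s2 := true) (a := 0) (b := 3) (c := 3) (cn := .pnn) (n1 := ndB0q0) (n2 := ndB4q3) (pc := pcB3) (cut := cut_B04pp_033_s1) (xt := Ext.none) (P1 := 0) (W1 := 536870912) (P2 := 0) (W2 := 1230186008) (P3 := 858993459) (W3 := 64424510)
    rfl (fun _ => rfl) k0_B04pp_033_s1

theorem s_B04pp_033_s1 {κ x : ℝ} (hκ : κ * h0 = ken x) (hx : ((858993459 : ℕ) : ℝ) / S ≤ x)
    (hx' : x ≤ (((858993459 : ℕ) : ℝ) + (64424510 : ℕ)) / S) :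
    AltB (VFD κ) PP tK tL pcB [⟨3, 0, 0, 1449551462⟩] 0 3 3 0 4 (sgb true) (sgb true) x :=
  strip_altBD (m := 1449551462) true rfl hκ (SH.κ0 hκ (SH.hx1 hx).le (SH.hx2 hx').le) (SH.hx1 hx).le (SH.hx2 hx') (covB00).cov (covB43).cov hx hx' c_B04pp_033_s1 cutB_nil (noExt_B)

noncomputable def cut_B04pp_101_s1 : Cut := Cut.of [[⟨4, 0, 0, 1449551462⟩]]

noncomputable def f_B04pp_101_s1 : ℕ → ℕ → ℕ → ℕ → Bool := onCell 536870912 536870912 536870912 536870912 858993459 64424510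
    (rowF 0 false true true .npn 1 0 1 (qsf 536870912 536870912 536870912 536870912 0) ndB0q1 ndB4q1 pcB0 cut_B04pp_101_s1 Ext.none)

def k0_B04pp_101_s1 : ∃ t, chk3 f_B04pp_101_s1 t 1 1 1 = true :=
  ⟨(a (l 3) (l 5)), by decide +kernel⟩

theorem c_B04pp_101_s1 : CertF 536870912 536870912 536870912 536870912 858993459 64424510 false true true .npn 1 0 1
    ndB0q1 ndB4q1 pcB0 cut_B04pp_101_s1 Ext.none :=
  certF0 (fam := false) (s1 := true) (s2 := true) (a := 1) (b := 0) (c := 1) (cn := .npn) (n1 := ndB0q1) (n2 := ndB4q1) (pc := pcB0) (cut := cut_B04pp_101_s1) (xt := Ext.none) (P1 := 536870912) (W1 := 536870912) (P2 := 536870912) (W2 := 536870912) (P3 := 858993459) (W3 := 64424510)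
    rfl k0_B04pp_101_s1

theorem s_B04pp_101_s1 {κ x : ℝ} (hκ : κ * h0 = ken x) (hx : ((858993459 : ℕ) : ℝ) / S ≤ x)
    (hx' : x ≤ (((858993459 : ℕ) : ℝ) + (64424510 : ℕ)) / S) :
    AltB (VFD κ) PP tK tL pcB [⟨3, 0, 0, 1449551462⟩] 1 0 1 0 4 (sgb true) (sgb true) x :=
  strip_altBD (m := 1449551462) true rfl hκ (SH.κ0 hκ (SH.hx1 hx).le (SH.hx2 hx').le) (SH.hx1 hx).le (SH.hx2 hx') (covB01).cov (covB41).cov hx hx' c_B04pp_101_s1 cutB_nil (noExt_B)

noncomputable def cut_B04pp_102_s1 : Cut := Cut.of [[⟨4, 0, 0, 1449551462⟩]]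

noncomputable def f_B04pp_102_s1 : ℕ → ℕ → ℕ → ℕ → Bool := onCell 536870912 536870912 1073741824 536870912 858993459 64424510
    (rowF 0 false true true .npp 1 0 2 (qsf 536870912 536870912 1073741824 536870912 0) ndB0q1 ndB4q2 pcB0 cut_B04pp_102_s1 Ext.none)

def k0_B04pp_102_s1 : ∃ t, chk3 f_B04pp_102_s1 t 1 1 1 = true :=
  ⟨(a (l 3) (b (l 5) (l 3))), by decide +kernel⟩

theorem c_B04pp_102_s1 : CertF 536870912 536870912 1073741824 536870912 858993459 64424510 false true true .npp 1 0 2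
    ndB0q1 ndB4q2 pcB0 cut_B04pp_102_s1 Ext.none :=
  certF0 (fam := false) (s1 := true) (s2 := true) (a := 1) (b := 0) (c := 2) (cn := .npp) (n1 := ndB0q1) (n2 := ndB4q2) (pc := pcB0) (cut := cut_B04pp_102_s1) (xt := Ext.none) (P1 := 536870912) (W1 := 536870912) (P2 := 1073741824) (W2 := 536870912) (P3 := 858993459) (W3 := 64424510)
    rfl k0_B04pp_102_s1

theorem s_B04pp_102_s1 {κ x : ℝ} (hκ : κ * h0 = ken x) (hx : ((858993459 : ℕ) : ℝ) / S ≤ x)
    (hx' : x ≤ (((858993459 : ℕ) : ℝ) + (64424510 : ℕ)) / S) :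
    AltB (VFD κ) PP tK tL pcB [⟨3, 0, 0, 1449551462⟩] 1 0 2 0 4 (sgb true) (sgb true) x :=
  strip_altBD (m := 1449551462) true rfl hκ (SH.κ0 hκ (SH.hx1 hx).le (SH.hx2 hx').le) (SH.hx1 hx).le (SH.hx2 hx') (covB01).cov (covB42).cov hx hx' c_B04pp_102_s1 cutB_nil (noExt_B)

noncomputable def cut_B04pp_112_s1 : Cut := Cut.of [[⟨4, 0, 0, 1449551462⟩]]

noncomputable def f_B04pp_112_s1 : ℕ → ℕ → ℕ → ℕ → Bool := onCell 536870912 536870912 1073741824 536870912 858993459 64424510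
    (rowF 0 false true true .dn 1 1 2 (qsf 536870912 536870912 1073741824 536870912 1) ndB0q1 ndB4q2 pcB1 cut_B04pp_112_s1 Ext.none)

def k0_B04pp_112_s1 : ∃ t, chk3 f_B04pp_112_s1 t 1 1 1 = true :=
  ⟨(a (l 3) (b (l 5) (l 3))), by decide +kernel⟩

theorem c_B04pp_112_s1 : CertF 536870912 536870912 1073741824 536870912 858993459 64424510 false true true .dn 1 1 2
    ndB0q1 ndB4q2 pcB1 cut_B04pp_112_s1 Ext.none :=
  certF0 (fam := false) (s1 := true) (s2 := true) (a := 1) (b := 1) (c := 2) (cn := .dn) (n1 := ndB0q1) (n2 := ndB4q2) (pc := pcB1) (cut := cut_B04pp_112_s1) (xt := Ext.none) (P1 := 536870912) (W1 := 536870912) (P2 := 1073741824) (W2 := 536870912) (P3 := 858993459) (W3 := 64424510)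
    rfl k0_B04pp_112_s1

theorem s_B04pp_112_s1 {κ x : ℝ} (hκ : κ * h0 = ken x) (hx : ((858993459 : ℕ) : ℝ) / S ≤ x)
    (hx' : x ≤ (((858993459 : ℕ) : ℝ) + (64424510 : ℕ)) / S) :
    AltB (VFD κ) PP tK tL pcB [⟨3, 0, 0, 1449551462⟩] 1 1 2 0 4 (sgb true) (sgb true) x :=
  strip_altBD (m := 1449551462) true rfl hκ (SH.κ0 hκ (SH.hx1 hx).le (SH.hx2 hx').le) (SH.hx1 hx).le (SH.hx2 hx') (covB01).cov (covB42).cov hx hx' c_B04pp_112_s1 cutB_nil (noExt_B)

noncomputable def cut_B04pp_113_s1 : Cut := Cut.of [[⟨4, 0, 0, 1449551462⟩], [⟨0, 1, 0, 67108864⟩, ⟨1, 1, 0, 67108864⟩, ⟨2, 2, 0, 16777216⟩]]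

noncomputable def f_B04pp_113_s1 : ℕ → ℕ → ℕ → ℕ → Bool := onCell 536870912 536870912 0 1230186008 858993459 64424510
    (rowF 2 false true true .nn 1 1 3 (qsf 536870912 536870912 0 1230186008 1) ndB0q1 ndB4q3 pcB1 cut_B04pp_113_s1 Ext.none)

def k0_B04pp_113_s1 : ∃ t, chk3 f_B04pp_113_s1 t 1 1 1 = true :=
  ⟨(b (a (l 2) (a (l 2) (b (a (l 2) (a (l 2) (b (l 14) (l 3)))) (l 3)))) (a (a (b (l 2) (b (l 2) (l 3))) (b (b (l 2) (a (l 2) (l 3))) (l 3))) (b (a (l 3) (l 3)) (l 3)))), by decide +kernel⟩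

theorem c_B04pp_113_s1 : CertF 536870912 536870912 0 1230186008 858993459 64424510 false true true .nn 1 1 3
    ndB0q1 ndB4q3 pcB1 cut_B04pp_113_s1 Ext.none :=
  certF2 (fam := false) (s1 := true) (s2 := true) (a := 1) (b := 1) (c := 3) (cn := .nn) (n1 := ndB0q1) (n2 := ndB4q3) (pc := pcB1) (cut := cut_B04pp_113_s1) (xt := Ext.none) (P1 := 536870912) (W1 := 536870912) (P2 := 0) (W2 := 1230186008) (P3 := 858993459) (W3 := 64424510)
    rfl (fun _ => rfl) k0_B04pp_113_s1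

theorem s_B04pp_113_s1 {κ x : ℝ} (hκ : κ * h0 = ken x) (hx : ((858993459 : ℕ) : ℝ) / S ≤ x)
    (hx' : x ≤ (((858993459 : ℕ) : ℝ) + (64424510 : ℕ)) / S)
    (H : CutB (VFD κ) PP tK tL pcB (Cut.of [[⟨0, 1, 0, 67108864⟩, ⟨1, 1, 0, 67108864⟩, ⟨2, 2, 0, 16777216⟩]]) 1 1 3 0 4 (sgb true) (sgb true) x) :
    AltB (VFD κ) PP tK tL pcB [⟨3, 0, 0, 1449551462⟩] 1 1 3 0 4 (sgb true) (sgb true) x :=
  strip_altBD (m := 1449551462) true rfl hκ (SH.κ0 hκ (SH.hx1 hx).le (SH.hx2 hx').le) (SH.hx1 hx).le (SH.hx2 hx') (covB01).cov (covB43).cov hx hx' c_B04pp_113_s1 H (noExt_B)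

noncomputable def cut_B04pp_123_s1 : Cut := Cut.of [[⟨4, 0, 0, 1449551462⟩], [⟨0, 1, 0, 67108864⟩, ⟨1, 1, 0, 67108864⟩, ⟨2, 2, 0, 16777216⟩]]

noncomputable def xt_B04pp_123_s1 : Ext := strExt dd false true true .u0 .s2 .u2 .npn 1 2 3 rfl rfl gf2 vv ndB0q1 ndB4q3

noncomputable def f_B04pp_123_s1 : ℕ → ℕ → ℕ → ℕ → Bool := onCell 1073741824 536870912 0 1230186008 858993459 64424510
    (rowF 2 false true true .npn 1 2 3 (qsf 536870912 536870912 0 1230186008 2) ndB0q1 ndB4q3 pcB2 cut_B04pp_123_s1 xt_B04pp_123_s1)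

def k0_B04pp_123_s1 : ∃ t, chk3 f_B04pp_123_s1 t 8 2 1 = true :=
  ⟨(b (b (a (l 14) (a (l 14) (a (l 14) (b (l 16698032) (b (l 16730944) (b (l 16747472) (a (l 16719464) (l 16755208)))))))) (a (l 3) (b (a (l 14) (c (b (a (l 533835807) (b (a (b (l 16762856) (l 16766272)) (l 16758808)) (l 533912207))) (a (l 533695775) (l 533801503))) (b (a (l 536054303) (b (a (b (l 16773880) (l 16774824)) (l 16771568)) (l 536282255))) (a (b (l 535985439) (l 3)) (l 536216863))))) (l 3)))) (l 3)), by decide +kernel⟩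

def k1_B04pp_123_s1 : ∃ t, chk3 f_B04pp_123_s1 t 9 4 1 = true :=
  ⟨(b (a (c (b (l 16759688) (a (b (l 16708272) (l 16729704)) (l 16698568))) (b (l 16777176) (a (b (l 16726688) (l 16745840)) (l 16721552)))) (b (a (l 16660424) (l 16649328)) (a (a (l 16696600) (l 16688696)) (l 16677744)))) (a (b (a (b (a (b (a (l 16759976) (l 16754960)) (a (b (l 16724792) (c (l 16764144) (l 16775136))) (l 16722448))) (b (l 16747392) (l 16757120))) (a (a (l 535159583) (a (l 535349903) (b (l 16727888) (l 535430799)))) (a (b (b (l 16766496) (l 16769472)) (l 535570575)) (b (l 16763640) (l 16727904))))) (a (b (l 16741904) (c (l 16753992) (l 16723504))) (b (l 16731760) (l 16748992)))) (a (a (b (c (l 534120735) (l 536314399)) (l 3)) (b (c (l 534742303) (l 536160799)) (c (a (l 534471455) (l 534710303)) (a (l 536099871) (l 536080671))))) (b (a (b (a (l 16770792) (l 16768440)) (a (l 535673631) (l 16771168))) (b (l 16761416) (a (l 16769600) (l 16766208))))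 (b (a (c (l 535021599) (l 536124447)) (a (l 16771504) (l 16770040))) (a (l 534803087) (a (l 535697951) (l 16771712))))))) (b (a (a (b (l 16721872) (l 16738272)) (b (l 16712424) (l 16727896))) (c (l 16698272) (l 16714792))) (a (b (a (l 16754384) (l 16743184)) (a (a (b (l 16767504) (l 16770096)) (l 16744272)) (a (l 16760696) (l 16755264)))) (b (l 16726968) (a (l 16746544) (l 16735104))))))), by decide +kernel⟩

def k2_B04pp_123_s1 : ∃ t, chk3 f_B04pp_123_s1 t 9 5 1 = true :=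
  ⟨(c (a (b (a (l 3) (b (b (a (l 534884895) (a (l 535112735) (l 535263263))) (a (l 3) (l 535055903))) (l 3))) (l 3)) (a (b (b (b (a (l 535438111) (b (l 16765304) (l 16768264))) (a (l 535321743) (l 535471503))) (a (b (l 535206799) (l 3)) (b (l 535361167) (l 535244175)))) (l 3)) (b (b (b (a (l 16760136) (l 16750624)) (a (b (l 16767592) (l 16769344)) (l 16763152))) (a (l 535549983) (b (l 16790272) (l 535674511)))) (b (a (b (l 535361167) (l 3)) (b (l 535561103) (l 535436175))) (b (a (l 3) (a (l 3) (l 535339039))) (l 3)))))) (a (b (b (a (l 3) (b (a (l 535991583) (a (l 536065823) (l 536105759))) (a (l 3) (l 534896671)))) (l 3)) (l 3)) (a (b (b (b (a (l 535986207) (b (l 16767712) (l 16769856))) (a (l 535881359) (l 535704463))) (a (b (l 535772815) (l 3)) (b (l 535594895) (l 535481999)))) (l 3)) (b (b (b (a (l 16758720) (l 16745704)) (a (a (l 16767768) (l 16763800)) (l 16755264))) (a (l 535180063) (b (a (l 16764272) (l 16759832))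 (l 534679695)))) (b (a (b (l 534990991) (l 3)) (b (l 534559375) (l 534438287))) (b (a (l 3) (a (l 3) (l 534227487))) (l 3))))))), by decide +kernel⟩

def k3_B04pp_123_s1 : ∃ t, chk3 f_B04pp_123_s1 t 5 4 1 = true :=
  ⟨(a (b (a (a (b (l 16639904) (l 16664592)) (a (l 16644336) (b (l 6) (l 16566656)))) (b (l 6) (l 16639120))) (a (b (a (l 16688224) (a (l 16675712) (l 16583120))) (a (a (l 16717456) (l 16622992)) (a (l 16696336) (l 16684896)))) (b (l 16652336) (l 16581704)))) (b (l 6) (b (a (l 16634280) (l 6)) (a (l 16641296) (l 16621608))))), by decide +kernel⟩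

def k4_B04pp_123_s1 : ∃ t, chk3 f_B04pp_123_s1 t 5 5 1 = true :=
  ⟨(a (a (a (b (b (b (l 16772136) (a (l 16748160) (l 16735488))) (b (a (b (l 16672440) (l 16718280)) (l 16746240)) (a (a (l 16765488) (l 16762312)) (b (l 16711624) (l 16715248))))) (b (b (a (a (l 535011615) (l 534929439)) (a (l 16762944) (l 16675184))) (a (c (l 535523103) (c (l 534471199) (l 533608223))) (a (l 534699039) (c (l 16768408) (l 16757248))))) (a (b (c (a (l 535384095) (l 535392799)) (a (b (l 534056591) (l 533999135)) (l 533831455))) (a (l 3) (l 534551071))) (b (a (c (l 535328911) (l 533580943)) (b (l 16745536) (l 534397215))) (a (l 533628959) (c (l 535145759) (l 533241631))))))) (b (b (a (l 16717344) (a (l 16707624) (l 16616360))) (a (b (l 16732616) (l 16742208)) (a (l 16726312) (a (l 16636032) (l 16715448))))) (a (b (b (a (l 16670152) (l 16663656)) (a (l 16717264) (l 16712288))) (a (b (b (l 16762464) (l 16722712)) (c (l 535032607) (l 533045535)))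 (b (c (l 16764888) (l 16751816)) (c (l 16767640) (l 16758136))))) (a (b (b (l 16739536) (c (l 16755280) (l 16738560))) (c (b (l 16760368) (l 16763520)) (b (l 16745640) (l 16752144)))) (b (c (a (l 16743400) (l 16737440)) (l 16753400)) (b (a (a (l 16749800) (l 16747256)) (l 16743392)) (a (a (l 16755136) (l 16753528)) (b (l 16749024) (l 16731328))))))))) (b (b (b (l 16676384) (l 16599888)) (b (l 16607208) (a (l 16707760) (l 16688760)))) (a (b (b (l 16715360) (l 16638872)) (b (l 16771984) (l 16737312))) (b (b (l 16695512) (l 16702240)) (l 16754504))))) (b (b (a (l 16566616) (l 16542056)) (a (a (l 16668296) (l 16652696)) (l 16632544))) (a (b (l 16734728) (a (b (l 16689848) (l 16696744)) (l 16591832))) (b (l 16473520) (l 16653376))))), by decide +kernel⟩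

def k5_B04pp_123_s1 : ∃ t, chk3 f_B04pp_123_s1 t 3 2 1 = true :=
  ⟨(a (b (l 6) (a (b (b (l 6) (a (l 16526768) (l 6))) (a (b (l 16533768) (l 16459248)) (b (l 16513912) (l 16604040)))) (l 6))) (l 6)), by decide +kernel⟩

def k6_B04pp_123_s1 : ∃ t, chk3 f_B04pp_123_s1 t 4 6 1 = true :=
  ⟨(l 3), by decide +kernel⟩

def k7_B04pp_123_s1 : ∃ t, chk3 f_B04pp_123_s1 t 40 6 1 = true :=
  ⟨(b (b (a (l 3) (a (b (c (l 535058319) (l 533321103)) (l 3)) (a (b (l 534223903) (l 3)) (b (b (l 534185503) (l 534126879)) (c (l 534853407) (l 531286815)))))) (l 3)) (l 3)), by decide +kernel⟩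

def k8_B04pp_123_s1 : ∃ t, chk3 f_B04pp_123_s1 t 41 12 1 = true :=
  ⟨(c (b (a (a (b (b (l 534936095) (l 534870303)) (c (l 534636063) (l 534314271))) (b (a (l 534725663) (l 16769336)) (a (b (l 534548367) (l 534497935)) (b (l 16771448) (l 534355087))))) (b (b (a (l 16765472) (a (l 16761840) (l 16759192))) (a (a (l 16767952) (l 16765552)) (l 16761800))) (a (a (b (l 16769384) (l 16770880)) (b (l 16766992) (l 16768496))) (l 16763920)))) (a (a (b (b (l 534619423) (l 3)) (l 3)) (b (a (b (l 534442527) (l 534385951)) (b (l 534288159) (l 534225439))) (a (b (l 534336031) (l 3)) (b (l 534124943) (l 534062223))))) (b (a (a (b (l 534072351) (l 533951519)) (b (l 16769952) (a (l 16771984) (l 16770712)))) (b (l 16766136) (l 16767584))) (a (a (b (l 533822095) (l 532395551)) (a (b (l 533568399) (l 533420063)) (b (l 16772128) (l 16773512)))) (b (l 16774296) (a (l 16771712) (l 16769328))))))) (b (a (a (b (b (l 532921887) (l 532839711)) (c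 (l 533334559) (l 532049439))) (a (b (l 532739103) (b (l 532600463) (l 532504207))) (b (l 532648479) (b (l 16766880) (l 532397455))))) (b (a (a (l 16759656) (l 16756712)) (a (l 16753768) (l 16729944))) (a (a (c (l 16766704) (l 16774176)) (c (l 16763928) (l 16739680))) (l 16758056)))) (a (b (b (a (l 532600351) (a (l 532413727) (l 532315679))) (a (l 3) (a (l 532309791) (l 532200223)))) (a (l 3) (a (b (l 532204575) (l 3)) (b (l 532135055) (l 532047503))))) (b (a (a (b (l 532276767) (l 531414303)) (b (l 16766320) (c (l 16769520) (l 16767976)))) (b (l 16741096) (l 16764504))) (a (a (b (l 532128399) (l 532040591)) (b (a (l 532151183) (l 16759816)) (a (l 530996511) (l 16772336)))) (b (l 16771960) (b (l 16757744) (a (l 16770632) (l 16767728))))))))), by decide +kernel⟩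

def k9_B04pp_123_s1 : ∃ t, chk3 f_B04pp_123_s1 t 82 13 1 = true :=
  ⟨(l 3), by decide +kernel⟩

def k10_B04pp_123_s1 : ∃ t, chk3 f_B04pp_123_s1 t 166 13 1 = true :=
  ⟨(b (b (a (b (a (l 532915855) (l 532776079)) (l 3)) (b (a (c (l 533233695) (a (l 531977871) (l 530369935))) (c (b (l 16774528) (l 532957327)) (l 531981599))) (c (a (b (l 534375311) (l 532903967)) (b (l 532784271) (l 532935311))) (a (l 531889695) (l 531890831))))) (l 532231759)) (l 3)), by decide +kernel⟩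

def k11_B04pp_123_s1 : ∃ t, chk3 f_B04pp_123_s1 t 167 26 1 = true :=
  ⟨(b (a (b (a (l 532508047) (l 532510095)) (a (l 532442255) (l 532461967))) (b (b (l 16769560) (l 16759880)) (b (l 16771120) (l 16774424)))) (a (l 532289871) (a (a (l 532310319) (a (a (b (l 532367407) (l 532256303)) (a (b (b (l 16762392) (l 16768224)) (b (l 532285487) (l 16774512))) (a (b (b (l 16762328) (l 16768160)) (b (l 16768704) (l 16774448))) (b (b (l 16762288) (l 16768120)) (b (l 16768664) (l 16774408)))))) (b (b (l 16762104) (l 16767928)) (b (l 16768472) (l 16774216))))) (l 532319839)))), by decide +kernel⟩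

def k12_B04pp_123_s1 : ∃ t, chk3 f_B04pp_123_s1 t 167 27 1 = true :=
  ⟨(b (a (l 531243855) (a (a (l 532072495) (a (a (b (l 532137519) (l 532010287)) (a (b (b (l 532168751) (l 532107311)) (b (l 532043823) (l 531978031))) (a (b (b (c (l 16775200) (l 16774600)) (b (l 16769984) (l 16775416))) (b (b (l 16772984) (c (l 16775952) (l 16775584))) (b (c (l 16776088) (l 16775760)) (c (l 16776216) (l 16775928))))) (b (b (c (l 16775168) (l 16774552)) (b (l 16769936) (l 16775376))) (b (b (l 16772936) (c (l 16775912) (l 16775536))) (b (c (l 16776048) (l 16775712)) (l 16776032))))))) (b (b (l 532170335) (l 532108895)) (b (l 532045151) (l 531979615))))) (l 532081247))) (a (b (l 531847247) (l 3)) (a (a (l 531800623) (a (a (b (l 531874351) (l 531728943)) (a (b (b (l 531909935) (l 531839791)) (b (l 531767087) (l 531691823))) (a (b (b (b (b (l 16776176) (l 16773616)) (c (l 16776432) (l 16776216))) (c (b (b (l 16776504) (l 16776552)) (b (l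 16776592) (l 16776632))) (b (l 16776336) (b (l 16776416) (l 16776464))))) (c (b (b (l 16776680) (l 16776736)) (b (b (l 16776768) (l 16776792)) (b (l 16776808) (l 16776816)))) (b (b (b (l 16776512) (l 16776552)) (b (l 16776584) (l 16776624))) (b (c (l 16776688) (l 16776632)) (c (l 16776728) (l 16776672)))))) (b (b (b (c (l 16776296) (l 16776032)) (c (l 16776400) (l 16776168))) (c (c (l 16776576) (l 16776480)) (b (l 16776288) (b (l 16776368) (l 16776416))))) (c (b (b (b (l 16776624) (l 16776656)) (l 16776696)) (b (l 16776736) (l 16776768))) (b (b (b (l 16776456) (l 16776504)) (b (l 16776536) (l 16776568))) (b (b (l 16776600) (l 16776624)) (b (l 16776640) (l 16776656))))))))) (b (b (l 531911519) (l 531841119)) (b (l 531768415) (l 531693151))))) (l 531808351)))), by decide +kernel⟩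

def k13_B04pp_123_s1 : ∃ t, chk3 f_B04pp_123_s1 t 21 6 1 = true :=
  ⟨(b (b (c (a (b (l 16747880) (l 16751112)) (b (l 16727104) (l 16732232))) (a (b (l 16738776) (l 16744664)) (l 16763304))) (a (a (b (b (l 16756304) (l 16758232)) (b (l 16760088) (l 16772352))) (b (l 16747040) (l 16751000))) (b (l 16732840) (l 16736680)))) (b (b (a (a (b (a (l 16776592) (l 16719088)) (c (l 16766648) (l 16763312))) (b (l 16711592) (l 16712928))) (l 16739560)) (a (b (a (a (l 532394079) (l 16742576)) (l 16713864)) (l 532324447)) (l 16767064))) (l 532048479))), by decide +kernel⟩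

def k14_B04pp_123_s1 : ∃ t, chk3 f_B04pp_123_s1 t 11 6 1 = true :=
  ⟨(b (a (b (b (l 16695392) (l 16743912)) (b (l 16706600) (l 16626000))) (a (b (l 16674168) (l 16683320)) (b (l 16659168) (l 16583208)))) (a (b (b (l 16711296) (l 16711056)) (b (l 16751656) (l 532053359))) (a (b (l 16599072) (l 16592288)) (b (l 16580608) (l 16655272))))), by decide +kernel⟩

def k15_B04pp_123_s1 : ∃ t, chk3 f_B04pp_123_s1 t 3 6 1 = true :=
  ⟨(a (b (a (b (a (l 16553656) (l 16609640)) (a (l 16643088) (l 16443392))) (a (b (l 16582432) (l 16579000)) (l 6))) (a (a (b (l 16469296) (c (l 16474720) (l 16517072))) (b (l 16600512) (l 16659488))) (b (a (l 16561072) (l 1)) (l 1)))) (l 6)), by decide +kernel⟩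

def k16_B04pp_123_s1 : ∃ t, chk3 f_B04pp_123_s1 t 4 7 1 = true :=
  ⟨(b (l 3) (l 3)), by decide +kernel⟩

def k17_B04pp_123_s1 : ∃ t, chk3 f_B04pp_123_s1 t 40 7 1 = true :=
  ⟨(c (c (b (l 3) (b (l 3) (l 1))) (b (l 3) (b (l 3) (l 1)))) (c (b (l 3) (b (l 3) (l 1))) (b (l 3) (b (l 3) (l 1))))), by decide +kernel⟩

def k18_B04pp_123_s1 : ∃ t, chk3 f_B04pp_123_s1 t 82 14 1 = true :=
  ⟨(l 3), by decide +kernel⟩

def k19_B04pp_123_s1 : ∃ t, chk3 f_B04pp_123_s1 t 166 14 1 = true :=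
  ⟨(c (b (l 3) (b (l 531472959) (b (a (l 3) (b (l 531138879) (b (l 531047999) (l 1)))) (l 1)))) (b (l 3) (b (l 530029887) (b (a (l 3) (b (l 529808703) (b (l 529730879) (l 1)))) (l 1))))), by decide +kernel⟩

def k20_B04pp_123_s1 : ∃ t, chk3 f_B04pp_123_s1 t 167 56 1 = true :=
  ⟨(a (l 3) (a (a (l 531489839) (a (a (b (l 531573551) (l 531407919)) (a (a (b (l 531574063) (l 531408431)) (b (b (l 531614255) (l 531533871)) (b (l 531451183) (l 531365679)))) (a (b (c (b (b (b (l 16776824) (l 16776832)) (b (l 16776832) (l 16776832))) (b (b (l 16776832) (l 16776816)) (b (l 16776808) (l 16776792)))) (b (b (b (l 16776720) (l 16776728)) (b (l 16776736) (l 16776728))) (b (b (l 16776728) (l 16776720)) (b (l 16776704) (l 16776680))))) (b (c (b (b (l 16776776) (l 16776752)) (b (l 16776720) (l 16776696))) (b (c (l 16776672) (l 16776616)) (c (l 16776608) (l 16776544)))) (c (b (b (l 16776656) (l 16776616)) (c (l 16776592) (l 16776512))) (b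 (b (l 16776520) (l 16776472)) (b (l 16776416) (l 16776360)))))) (b (c (b (a (b (l 16776800) (l 16776800)) (l 532217439)) (b (b (l 16776784) (l 16776776)) (b (l 16776768) (l 16776752)))) (b (b (c (l 16776704) (l 16776640)) (c (l 16776712) (l 16776648))) (b (c (l 16776696) (l 16776640)) (c (l 16776672) (l 16776608))))) (b (c (b (l 16776720) (b (l 16776680) (l 16776648))) (b (c (l 16776624) (l 16776560)) (b (l 16776544) (l 16776504)))) (c (b (c (l 16776632) (l 16776560)) (b (l 16776536) (l 16776488))) (b (b (l 16776464) (l 16776416)) (b (l 16776360) (l 16776304))))))))) (b (b (l 531615327) (l 531535199)) (b (l 531452255) (l 531366751))))) (l 531496543))), by decide +kernel⟩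

def k21_B04pp_123_s1 : ∃ t, chk3 f_B04pp_123_s1 t 167 57 1 = true :=
  ⟨(a (a (l 3) (l 531139647)) (a (a (l 531137071) (a (a (b (l 531231535) (l 531044399)) (a (b (b (l 531277359) (l 531186479)) (b (l 531093039) (l 530996783))) (a (b (b (b (b (l 531311151) (l 16776328)) (c (l 16776336) (l 16776120))) (b (c (l 16776200) (l 16775952)) (c (l 16776048) (l 16775768)))) (b (b (c (l 16775872) (l 16775560)) (c (l 16775688) (l 16775328))) (b (b (l 16775336) (l 16775216)) (l 16775024)))) (b (b (b (c (l 16776408) (l 16776208)) (c (l 16776288) (l 16776064))) (b (c (l 16776152) (l 16775896)) (c (l 16776000) (l 16773088)))) (b (b (c (l 16775832) (l 16775504)) (c (l 16775640) (l 16775272))) (b (b (l 16775288) (l 16775168)) (l 16774976))))))) (b (b (l 531278431) (l 531187551)) (b (l 531094111) (l 530997599))))) (l 531142751))), by decide +kernel⟩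

def k22_B04pp_123_s1 : ∃ t, chk3 f_B04pp_123_s1 t 167 29 1 = true :=
  ⟨(b (a (l 530746943) (a (a (l 530741039) (a (a (b (l 530846511) (l 530637871)) (a (b (b (l 530897711) (l 530796079)) (b (l 530691631) (l 530584879))) (a (b (b (c (l 16772240) (l 16771704)) (b (l 16774136) (l 16773792))) (b (c (l 16773592) (l 16772824)) (c (l 16772824) (l 16771912)))) (b (b (b (l 16774704) (l 16774400)) (b (l 16774080) (l 16773736))) (b (c (l 16773544) (l 16772768)) (c (l 16772776) (l 16771848))))))) (b (b (l 530898783) (l 530796895)) (b (l 530692703) (l 530585695))))) (l 530745951))) (b (b (a (l 530477119) (a (b (l 16772040) (l 16771536)) (l 530478175))) (a (a (l 530363775) (l 1)) (l 1))) (l 1))), by decide +kernel⟩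

def k23_B04pp_123_s1 : ∃ t, chk3 f_B04pp_123_s1 t 41 15 1 = true :=
  ⟨(l 1), by decide +kernel⟩

def k24_B04pp_123_s1 : ∃ t, chk3 f_B04pp_123_s1 t 21 7 1 = true :=
  ⟨(b (b (l 531396959) (a (a (b (l 530762591) (b (l 530420063) (l 1))) (b (b (l 530897503) (l 530680159)) (l 1))) (b (b (l 530935391) (l 530691935)) (l 1)))) (l 1)), by decide +kernel⟩

def k25_B04pp_123_s1 : ∃ t, chk3 f_B04pp_123_s1 t 11 7 1 = true :=
  ⟨(b (a (c (a (a (b (l 532068703) (l 1)) (b (l 16756952) (l 1))) (b (l 16761080) (l 1))) (a (a (b (l 530848351) (l 1)) (b (l 530876767) (l 1))) (b (b (l 16680904) (l 16674760)) (l 1)))) (b (b (l 16571512) (l 1)) (l 1))) (l 1)), by decide +kernel⟩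

def k26_B04pp_123_s1 : ∃ t, chk3 f_B04pp_123_s1 t 3 7 1 = true :=
  ⟨(l 1), by decide +kernel⟩

theorem t27_B04pp_123_s1 : ∃ t, chk3 f_B04pp_123_s1 t 167 28 1 = true := ex3_b k20_B04pp_123_s1 k21_B04pp_123_s1

theorem t28_B04pp_123_s1 : ∃ t, chk3 f_B04pp_123_s1 t 167 14 1 = true := ex3_b t27_B04pp_123_s1 k22_B04pp_123_s1

theorem t29_B04pp_123_s1 : ∃ t, chk3 f_B04pp_123_s1 t 83 14 1 = true := ex3_a k19_B04pp_123_s1 t28_B04pp_123_s1

theorem t30_B04pp_123_s1 : ∃ t, chk3 f_B04pp_123_s1 t 41 14 1 = true := ex3_a k18_B04pp_123_s1 t29_B04pp_123_s1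

theorem t31_B04pp_123_s1 : ∃ t, chk3 f_B04pp_123_s1 t 41 7 1 = true := ex3_b t30_B04pp_123_s1 k23_B04pp_123_s1

theorem t32_B04pp_123_s1 : ∃ t, chk3 f_B04pp_123_s1 t 20 7 1 = true := ex3_a k17_B04pp_123_s1 t31_B04pp_123_s1

theorem t33_B04pp_123_s1 : ∃ t, chk3 f_B04pp_123_s1 t 10 7 1 = true := ex3_a t32_B04pp_123_s1 k24_B04pp_123_s1

theorem t34_B04pp_123_s1 : ∃ t, chk3 f_B04pp_123_s1 t 5 7 1 = true := ex3_a t33_B04pp_123_s1 k25_B04pp_123_s1

theorem t35_B04pp_123_s1 : ∃ t, chk3 f_B04pp_123_s1 t 2 7 1 = true := ex3_a k16_B04pp_123_s1 t34_B04pp_123_s1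

theorem t36_B04pp_123_s1 : ∃ t, chk3 f_B04pp_123_s1 t 1 7 1 = true := ex3_a t35_B04pp_123_s1 k26_B04pp_123_s1

theorem t37_B04pp_123_s1 : ∃ t, chk3 f_B04pp_123_s1 t 167 13 1 = true := ex3_b k11_B04pp_123_s1 k12_B04pp_123_s1

theorem t38_B04pp_123_s1 : ∃ t, chk3 f_B04pp_123_s1 t 83 13 1 = true := ex3_a k10_B04pp_123_s1 t37_B04pp_123_s1

theorem t39_B04pp_123_s1 : ∃ t, chk3 f_B04pp_123_s1 t 41 13 1 = true := ex3_a k9_B04pp_123_s1 t38_B04pp_123_s1

theorem t40_B04pp_123_s1 : ∃ t, chk3 f_B04pp_123_s1 t 41 6 1 = true := ex3_b k8_B04pp_123_s1 t39_B04pp_123_s1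

theorem t41_B04pp_123_s1 : ∃ t, chk3 f_B04pp_123_s1 t 20 6 1 = true := ex3_a k7_B04pp_123_s1 t40_B04pp_123_s1

theorem t42_B04pp_123_s1 : ∃ t, chk3 f_B04pp_123_s1 t 10 6 1 = true := ex3_a t41_B04pp_123_s1 k13_B04pp_123_s1

theorem t43_B04pp_123_s1 : ∃ t, chk3 f_B04pp_123_s1 t 5 6 1 = true := ex3_a t42_B04pp_123_s1 k14_B04pp_123_s1

theorem t44_B04pp_123_s1 : ∃ t, chk3 f_B04pp_123_s1 t 2 6 1 = true := ex3_a k6_B04pp_123_s1 t43_B04pp_123_s1

theorem t45_B04pp_123_s1 : ∃ t, chk3 f_B04pp_123_s1 t 1 6 1 = true := ex3_a t44_B04pp_123_s1 k15_B04pp_123_s1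

theorem t46_B04pp_123_s1 : ∃ t, chk3 f_B04pp_123_s1 t 1 3 1 = true := ex3_b t45_B04pp_123_s1 t36_B04pp_123_s1

theorem t47_B04pp_123_s1 : ∃ t, chk3 f_B04pp_123_s1 t 5 2 1 = true := ex3_b k3_B04pp_123_s1 k4_B04pp_123_s1

theorem t48_B04pp_123_s1 : ∃ t, chk3 f_B04pp_123_s1 t 9 2 1 = true := ex3_b k1_B04pp_123_s1 k2_B04pp_123_s1

theorem t49_B04pp_123_s1 : ∃ t, chk3 f_B04pp_123_s1 t 4 2 1 = true := ex3_a k0_B04pp_123_s1 t48_B04pp_123_s1

theorem t50_B04pp_123_s1 : ∃ t, chk3 f_B04pp_123_s1 t 2 2 1 = true := ex3_a t49_B04pp_123_s1 t47_B04pp_123_s1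

theorem t51_B04pp_123_s1 : ∃ t, chk3 f_B04pp_123_s1 t 1 2 1 = true := ex3_a t50_B04pp_123_s1 k5_B04pp_123_s1

theorem t52_B04pp_123_s1 : ∃ t, chk3 f_B04pp_123_s1 t 1 1 1 = true := ex3_b t51_B04pp_123_s1 t46_B04pp_123_s1

theorem c_B04pp_123_s1 : CertF 536870912 536870912 0 1230186008 858993459 64424510 false true true .npn 1 2 3
    ndB0q1 ndB4q3 pcB2 cut_B04pp_123_s1 xt_B04pp_123_s1 :=
  certF2 (fam := false) (s1 := true) (s2 := true) (a := 1) (b := 2) (c := 3) (cn := .npn) (n1 := ndB0q1) (n2 := ndB4q3) (pc := pcB2) (cut := cut_B04pp_123_s1) (xt := xt_B04pp_123_s1) (P1 := 536870912) (W1 := 536870912) (P2 := 0) (W2 := 1230186008) (P3 := 858993459) (W3 := 64424510)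
    rfl (fun _ => rfl) t52_B04pp_123_s1

theorem s_B04pp_123_s1 {κ x : ℝ} (hκ : κ * h0 = ken x) (hx : ((858993459 : ℕ) : ℝ) / S ≤ x)
    (hx' : x ≤ (((858993459 : ℕ) : ℝ) + (64424510 : ℕ)) / S)
    (H : CutB (VFD κ) PP tK tL pcB (Cut.of [[⟨0, 1, 0, 67108864⟩, ⟨1, 1, 0, 67108864⟩, ⟨2, 2, 0, 16777216⟩]]) 1 2 3 0 4 (sgb true) (sgb true) x) :
    AltB (VFD κ) PP tK tL pcB [⟨3, 0, 0, 1449551462⟩] 1 2 3 0 4 (sgb true) (sgb true) x :=
  strip_altBD (m := 1449551462) true rfl hκ (SH.κ0 hκ (SH.hx1 hx).le (SH.hx2 hx').le) (SH.hx1 hx).le (SH.hx2 hx') (covB01).cov (covB43).cov hx hx' c_B04pp_123_s1 H ((okx hx hx').extB (T := tt) (sideB hx hx') hκ rfl rfl (.O 1 true) (.N 3 true) rfl)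

noncomputable def cut_B04pp_133_s1 : Cut := Cut.of [[⟨4, 0, 0, 1449551462⟩]]

noncomputable def f_B04pp_133_s1 : ℕ → ℕ → ℕ → ℕ → Bool := onCell 1610612736 536870912 0 1230186008 858993459 64424510
    (rowF 2 false true true .dn 1 3 3 (qsf 536870912 536870912 0 1230186008 3) ndB0q1 ndB4q3 pcB3 cut_B04pp_133_s1 Ext.none)

def k0_B04pp_133_s1 : ∃ t, chk3 f_B04pp_133_s1 t 1 1 1 = true :=
  ⟨(b (l 6) (l 1)), by decide +kernel⟩

theorem c_B04pp_133_s1 : CertF 536870912 536870912 0 1230186008 858993459 64424510 false true true .dn 1 3 3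
    ndB0q1 ndB4q3 pcB3 cut_B04pp_133_s1 Ext.none :=
  certF2 (fam := false) (s1 := true) (s2 := true) (a := 1) (b := 3) (c := 3) (cn := .dn) (n1 := ndB0q1) (n2 := ndB4q3) (pc := pcB3) (cut := cut_B04pp_133_s1) (xt := Ext.none) (P1 := 536870912) (W1 := 536870912) (P2 := 0) (W2 := 1230186008) (P3 := 858993459) (W3 := 64424510)
    rfl (fun _ => rfl) k0_B04pp_133_s1

theorem s_B04pp_133_s1 {κ x : ℝ} (hκ : κ * h0 = ken x) (hx : ((858993459 : ℕ) : ℝ) / S ≤ x)
    (hx' : x ≤ (((858993459 : ℕ) : ℝ) + (64424510 : ℕ)) / S) :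
    AltB (VFD κ) PP tK tL pcB [⟨3, 0, 0, 1449551462⟩] 1 3 3 0 4 (sgb true) (sgb true) x :=
  strip_altBD (m := 1449551462) true rfl hκ (SH.κ0 hκ (SH.hx1 hx).le (SH.hx2 hx').le) (SH.hx1 hx).le (SH.hx2 hx') (covB01).cov (covB43).cov hx hx' c_B04pp_133_s1 cutB_nil (noExt_B)

noncomputable def cut_B04pp_202_s1 : Cut := Cut.of [[⟨4, 0, 0, 1449551462⟩]]

noncomputable def f_B04pp_202_s1 : ℕ → ℕ → ℕ → ℕ → Bool := onCell 0 536870912 1073741824 536870912 858993459 64424510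
    (rowF 0 false true true .pp 2 0 2 (qsf 0 536870912 1073741824 536870912 0) ndB0q2 ndB4q2 pcB0 cut_B04pp_202_s1 Ext.none)

def k0_B04pp_202_s1 : ∃ t, chk3 f_B04pp_202_s1 t 1 1 1 = true :=
  ⟨(l 5), by decide +kernel⟩

theorem c_B04pp_202_s1 : CertF 0 536870912 1073741824 536870912 858993459 64424510 false true true .pp 2 0 2
    ndB0q2 ndB4q2 pcB0 cut_B04pp_202_s1 Ext.none :=
  certF0 (fam := false) (s1 := true) (s2 := true) (a := 2) (b := 0) (c := 2) (cn := .pp) (n1 := ndB0q2) (n2 := ndB4q2) (pc := pcB0) (cut := cut_B04pp_202_s1) (xt := Ext.none) (P1 := 0) (W1 := 536870912) (P2 := 1073741824) (W2 := 536870912) (P3 := 858993459) (W3 := 64424510)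
    rfl k0_B04pp_202_s1

theorem s_B04pp_202_s1 {κ x : ℝ} (hκ : κ * h0 = ken x) (hx : ((858993459 : ℕ) : ℝ) / S ≤ x)
    (hx' : x ≤ (((858993459 : ℕ) : ℝ) + (64424510 : ℕ)) / S) :
    AltB (VFD κ) PP tK tL pcB [⟨3, 0, 0, 1449551462⟩] 2 0 2 0 4 (sgb true) (sgb true) x :=
  strip_altBD (m := 1449551462) true rfl hκ (SH.κ0 hκ (SH.hx1 hx).le (SH.hx2 hx').le) (SH.hx1 hx).le (SH.hx2 hx') (covB02).cov (covB42).cov hx hx' c_B04pp_202_s1 cutB_nil (noExt_B)

noncomputable def cut_B04pp_203_s1 : Cut := Cut.of [[⟨4, 0, 0, 1449551462⟩]]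

noncomputable def f_B04pp_203_s1 : ℕ → ℕ → ℕ → ℕ → Bool := onCell 0 536870912 0 1230186008 858993459 64424510
    (rowF 0 false true true .up 2 0 3 (qsf 0 536870912 0 1230186008 0) ndB0q2 ndB4q3 pcB0 cut_B04pp_203_s1 Ext.none)

def k0_B04pp_203_s1 : ∃ t, chk3 f_B04pp_203_s1 t 1 1 1 = true :=
  ⟨(b (l 2) (b (l 2) (a (l 5) (l 3)))), by decide +kernel⟩

theorem c_B04pp_203_s1 : CertF 0 536870912 0 1230186008 858993459 64424510 false true true .up 2 0 3
    ndB0q2 ndB4q3 pcB0 cut_B04pp_203_s1 Ext.none :=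
  certF0 (fam := false) (s1 := true) (s2 := true) (a := 2) (b := 0) (c := 3) (cn := .up) (n1 := ndB0q2) (n2 := ndB4q3) (pc := pcB0) (cut := cut_B04pp_203_s1) (xt := Ext.none) (P1 := 0) (W1 := 536870912) (P2 := 0) (W2 := 1230186008) (P3 := 858993459) (W3 := 64424510)
    rfl k0_B04pp_203_s1

theorem s_B04pp_203_s1 {κ x : ℝ} (hκ : κ * h0 = ken x) (hx : ((858993459 : ℕ) : ℝ) / S ≤ x)
    (hx' : x ≤ (((858993459 : ℕ) : ℝ) + (64424510 : ℕ)) / S) :
    AltB (VFD κ) PP tK tL pcB [⟨3, 0, 0, 1449551462⟩] 2 0 3 0 4 (sgb true) (sgb true) x :=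
  strip_altBD (m := 1449551462) true rfl hκ (SH.κ0 hκ (SH.hx1 hx).le (SH.hx2 hx').le) (SH.hx1 hx).le (SH.hx2 hx') (covB02).cov (covB43).cov hx hx' c_B04pp_203_s1 cutB_nil (noExt_B)

noncomputable def cut_B04pp_213_s1 : Cut := Cut.of [[⟨4, 0, 0, 1449551462⟩], [⟨0, 1, 0, 67108864⟩, ⟨1, 1, 0, 67108864⟩, ⟨2, 2, 0, 16777216⟩]]

noncomputable def f_B04pp_213_s1 : ℕ → ℕ → ℕ → ℕ → Bool := onCell 0 536870912 0 1230186008 858993459 64424510
    (rowF 0 false true true .pnn 2 1 3 (qsf 0 536870912 0 1230186008 1) ndB0q2 ndB4q3 pcB1 cut_B04pp_213_s1 Ext.none)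

def k0_B04pp_213_s1 : ∃ t, chk3 f_B04pp_213_s1 t 1 1 1 = true :=
  ⟨(a (b (l 3) (l 5)) (b (b (a (l 3) (b (a (l 3) (l 14)) (l 3))) (l 3)) (b (l 3) (l 3)))), by decide +kernel⟩

theorem c_B04pp_213_s1 : CertF 0 536870912 0 1230186008 858993459 64424510 false true true .pnn 2 1 3
    ndB0q2 ndB4q3 pcB1 cut_B04pp_213_s1 Ext.none :=
  certF0 (fam := false) (s1 := true) (s2 := true) (a := 2) (b := 1) (c := 3) (cn := .pnn) (n1 := ndB0q2) (n2 := ndB4q3) (pc := pcB1) (cut := cut_B04pp_213_s1) (xt := Ext.none) (P1 := 0) (W1 := 536870912) (P2 := 0) (W2 := 1230186008) (P3 := 858993459) (W3 := 64424510)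
    rfl k0_B04pp_213_s1

theorem s_B04pp_213_s1 {κ x : ℝ} (hκ : κ * h0 = ken x) (hx : ((858993459 : ℕ) : ℝ) / S ≤ x)
    (hx' : x ≤ (((858993459 : ℕ) : ℝ) + (64424510 : ℕ)) / S)
    (H : CutB (VFD κ) PP tK tL pcB (Cut.of [[⟨0, 1, 0, 67108864⟩, ⟨1, 1, 0, 67108864⟩, ⟨2, 2, 0, 16777216⟩]]) 2 1 3 0 4 (sgb true) (sgb true) x) :
    AltB (VFD κ) PP tK tL pcB [⟨3, 0, 0, 1449551462⟩] 2 1 3 0 4 (sgb true) (sgb true) x :=
  strip_altBD (m := 1449551462) true rfl hκ (SH.κ0 hκ (SH.hx1 hx).le (SH.hx2 hx').le) (SH.hx1 hx).le (SH.hx2 hx') (covB02).cov (covB43).cov hx hx' c_B04pp_213_s1 H (noExt_B)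

noncomputable def cut_B04pm_001_s1 : Cut := Cut.of [[⟨4, 0, 0, 1449551462⟩]]

noncomputable def f_B04pm_001_s1 : ℕ → ℕ → ℕ → ℕ → Bool := onCell 0 536870912 536870912 536870912 858993459 64424510
    (rowF 0 false true false .up 0 0 1 (qsf 0 536870912 536870912 536870912 0) ndB0q0 ndB4q1 pcB0 cut_B04pm_001_s1 Ext.none)

def k0_B04pm_001_s1 : ∃ t, chk3 f_B04pm_001_s1 t 1 1 1 = true :=
  ⟨(l 4), by decide +kernel⟩

theorem c_B04pm_001_s1 : CertF 0 536870912 536870912 536870912 858993459 64424510 false true false .up 0 0 1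
    ndB0q0 ndB4q1 pcB0 cut_B04pm_001_s1 Ext.none :=
  certF0 (fam := false) (s1 := true) (s2 := false) (a := 0) (b := 0) (c := 1) (cn := .up) (n1 := ndB0q0) (n2 := ndB4q1) (pc := pcB0) (cut := cut_B04pm_001_s1) (xt := Ext.none) (P1 := 0) (W1 := 536870912) (P2 := 536870912) (W2 := 536870912) (P3 := 858993459) (W3 := 64424510)
    rfl k0_B04pm_001_s1

theorem s_B04pm_001_s1 {κ x : ℝ} (hκ : κ * h0 = ken x) (hx : ((858993459 : ℕ) : ℝ) / S ≤ x)
    (hx' : x ≤ (((858993459 : ℕ) : ℝ) + (64424510 : ℕ)) / S) :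
    AltB (VFD κ) PP tK tL pcB [⟨3, 0, 0, 1449551462⟩] 0 0 1 0 4 (sgb true) (sgb false) x :=
  strip_altBD (m := 1449551462) true rfl hκ (SH.κ0 hκ (SH.hx1 hx).le (SH.hx2 hx').le) (SH.hx1 hx).le (SH.hx2 hx') (covB00).cov (covB41).cov hx hx' c_B04pm_001_s1 cutB_nil (noExt_B)

noncomputable def cut_B04pm_011_s1 : Cut := Cut.of [[⟨4, 0, 0, 1449551462⟩]]

noncomputable def f_B04pm_011_s1 : ℕ → ℕ → ℕ → ℕ → Bool := onCell 0 536870912 536870912 536870912 858993459 64424510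
    (rowF 0 false true false .pnn 0 1 1 (qsf 0 536870912 536870912 536870912 1) ndB0q0 ndB4q1 pcB1 cut_B04pm_011_s1 Ext.none)

def k0_B04pm_011_s1 : ∃ t, chk3 f_B04pm_011_s1 t 1 1 1 = true :=
  ⟨(l 4), by decide +kernel⟩

theorem c_B04pm_011_s1 : CertF 0 536870912 536870912 536870912 858993459 64424510 false true false .pnn 0 1 1
    ndB0q0 ndB4q1 pcB1 cut_B04pm_011_s1 Ext.none :=
  certF0 (fam := false) (s1 := true) (s2 := false) (a := 0) (b := 1) (c := 1) (cn := .pnn) (n1 := ndB0q0) (n2 := ndB4q1) (pc := pcB1) (cut := cut_B04pm_011_s1) (xt := Ext.none) (P1 := 0) (W1 := 536870912) (P2 := 536870912) (W2 := 536870912) (P3 := 858993459) (W3 := 64424510)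
    rfl k0_B04pm_011_s1

theorem s_B04pm_011_s1 {κ x : ℝ} (hκ : κ * h0 = ken x) (hx : ((858993459 : ℕ) : ℝ) / S ≤ x)
    (hx' : x ≤ (((858993459 : ℕ) : ℝ) + (64424510 : ℕ)) / S) :
    AltB (VFD κ) PP tK tL pcB [⟨3, 0, 0, 1449551462⟩] 0 1 1 0 4 (sgb true) (sgb false) x :=
  strip_altBD (m := 1449551462) true rfl hκ (SH.κ0 hκ (SH.hx1 hx).le (SH.hx2 hx').le) (SH.hx1 hx).le (SH.hx2 hx') (covB00).cov (covB41).cov hx hx' c_B04pm_011_s1 cutB_nil (noExt_B)

noncomputable def cut_B04pm_012_s1 : Cut := Cut.of [[⟨4, 0, 0, 1449551462⟩]]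

noncomputable def f_B04pm_012_s1 : ℕ → ℕ → ℕ → ℕ → Bool := onCell 0 536870912 1073741824 536870912 858993459 64424510
    (rowF 0 false true false .pnp 0 1 2 (qsf 0 536870912 1073741824 536870912 1) ndB0q0 ndB4q2 pcB1 cut_B04pm_012_s1 Ext.none)

def k0_B04pm_012_s1 : ∃ t, chk3 f_B04pm_012_s1 t 1 1 1 = true :=
  ⟨(l 4), by decide +kernel⟩

theorem c_B04pm_012_s1 : CertF 0 536870912 1073741824 536870912 858993459 64424510 false true false .pnp 0 1 2
    ndB0q0 ndB4q2 pcB1 cut_B04pm_012_s1 Ext.none :=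
  certF0 (fam := false) (s1 := true) (s2 := false) (a := 0) (b := 1) (c := 2) (cn := .pnp) (n1 := ndB0q0) (n2 := ndB4q2) (pc := pcB1) (cut := cut_B04pm_012_s1) (xt := Ext.none) (P1 := 0) (W1 := 536870912) (P2 := 1073741824) (W2 := 536870912) (P3 := 858993459) (W3 := 64424510)
    rfl k0_B04pm_012_s1

theorem s_B04pm_012_s1 {κ x : ℝ} (hκ : κ * h0 = ken x) (hx : ((858993459 : ℕ) : ℝ) / S ≤ x)
    (hx' : x ≤ (((858993459 : ℕ) : ℝ) + (64424510 : ℕ)) / S) :
    AltB (VFD κ) PP tK tL pcB [⟨3, 0, 0, 1449551462⟩] 0 1 2 0 4 (sgb true) (sgb false) x :=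
  strip_altBD (m := 1449551462) true rfl hκ (SH.κ0 hκ (SH.hx1 hx).le (SH.hx2 hx').le) (SH.hx1 hx).le (SH.hx2 hx') (covB00).cov (covB42).cov hx hx' c_B04pm_012_s1 cutB_nil (noExt_B)

noncomputable def cut_B04pm_022_s1 : Cut := Cut.of [[⟨4, 0, 0, 1449551462⟩]]

noncomputable def f_B04pm_022_s1 : ℕ → ℕ → ℕ → ℕ → Bool := onCell 0 536870912 1073741824 536870912 858993459 64424510
    (rowF 0 false true false .pp 0 2 2 (qsf 0 536870912 1073741824 536870912 2) ndB0q0 ndB4q2 pcB2 cut_B04pm_022_s1 Ext.none)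

def k0_B04pm_022_s1 : ∃ t, chk3 f_B04pm_022_s1 t 1 1 1 = true :=
  ⟨(l 4), by decide +kernel⟩

theorem c_B04pm_022_s1 : CertF 0 536870912 1073741824 536870912 858993459 64424510 false true false .pp 0 2 2
    ndB0q0 ndB4q2 pcB2 cut_B04pm_022_s1 Ext.none :=
  certF0 (fam := false) (s1 := true) (s2 := false) (a := 0) (b := 2) (c := 2) (cn := .pp) (n1 := ndB0q0) (n2 := ndB4q2) (pc := pcB2) (cut := cut_B04pm_022_s1) (xt := Ext.none) (P1 := 0) (W1 := 536870912) (P2 := 1073741824) (W2 := 536870912) (P3 := 858993459) (W3 := 64424510)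
    rfl k0_B04pm_022_s1

theorem s_B04pm_022_s1 {κ x : ℝ} (hκ : κ * h0 = ken x) (hx : ((858993459 : ℕ) : ℝ) / S ≤ x)
    (hx' : x ≤ (((858993459 : ℕ) : ℝ) + (64424510 : ℕ)) / S) :
    AltB (VFD κ) PP tK tL pcB [⟨3, 0, 0, 1449551462⟩] 0 2 2 0 4 (sgb true) (sgb false) x :=
  strip_altBD (m := 1449551462) true rfl hκ (SH.κ0 hκ (SH.hx1 hx).le (SH.hx2 hx').le) (SH.hx1 hx).le (SH.hx2 hx') (covB00).cov (covB42).cov hx hx' c_B04pm_022_s1 cutB_nil (noExt_B)

noncomputable def cut_B04pm_023_s1 : Cut := Cut.of [[⟨4, 0, 0, 1449551462⟩]]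

noncomputable def f_B04pm_023_s1 : ℕ → ℕ → ℕ → ℕ → Bool := onCell 0 536870912 0 1230186008 858993459 64424510
    (rowF 0 false true false .up 0 2 3 (qsf 0 536870912 0 1230186008 2) ndB0q0 ndB4q3 pcB2 cut_B04pm_023_s1 Ext.none)

def k0_B04pm_023_s1 : ∃ t, chk3 f_B04pm_023_s1 t 1 1 1 = true :=
  ⟨(l 6), by decide +kernel⟩

theorem c_B04pm_023_s1 : CertF 0 536870912 0 1230186008 858993459 64424510 false true false .up 0 2 3
    ndB0q0 ndB4q3 pcB2 cut_B04pm_023_s1 Ext.none :=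
  certF0 (fam := false) (s1 := true) (s2 := false) (a := 0) (b := 2) (c := 3) (cn := .up) (n1 := ndB0q0) (n2 := ndB4q3) (pc := pcB2) (cut := cut_B04pm_023_s1) (xt := Ext.none) (P1 := 0) (W1 := 536870912) (P2 := 0) (W2 := 1230186008) (P3 := 858993459) (W3 := 64424510)
    rfl k0_B04pm_023_s1

theorem s_B04pm_023_s1 {κ x : ℝ} (hκ : κ * h0 = ken x) (hx : ((858993459 : ℕ) : ℝ) / S ≤ x)
    (hx' : x ≤ (((858993459 : ℕ) : ℝ) + (64424510 : ℕ)) / S) :
    AltB (VFD κ) PP tK tL pcB [⟨3, 0, 0, 1449551462⟩] 0 2 3 0 4 (sgb true) (sgb false) x :=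
  strip_altBD (m := 1449551462) true rfl hκ (SH.κ0 hκ (SH.hx1 hx).le (SH.hx2 hx').le) (SH.hx1 hx).le (SH.hx2 hx') (covB00).cov (covB43).cov hx hx' c_B04pm_023_s1 cutB_nil (noExt_B)

noncomputable def cut_B04pm_033_s1 : Cut := Cut.of [[⟨4, 0, 0, 1449551462⟩]]

noncomputable def f_B04pm_033_s1 : ℕ → ℕ → ℕ → ℕ → Bool := onCell 0 536870912 0 1230186008 858993459 64424510
    (rowF 0 false true false .pnn 0 3 3 (qsf 0 536870912 0 1230186008 3) ndB0q0 ndB4q3 pcB3 cut_B04pm_033_s1 Ext.none)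

def k0_B04pm_033_s1 : ∃ t, chk3 f_B04pm_033_s1 t 1 1 1 = true :=
  ⟨(l 6), by decide +kernel⟩

theorem c_B04pm_033_s1 : CertF 0 536870912 0 1230186008 858993459 64424510 false true false .pnn 0 3 3
    ndB0q0 ndB4q3 pcB3 cut_B04pm_033_s1 Ext.none :=
  certF0 (fam := false) (s1 := true) (s2 := false) (a := 0) (b := 3) (c := 3) (cn := .pnn) (n1 := ndB0q0) (n2 := ndB4q3) (pc := pcB3) (cut := cut_B04pm_033_s1) (xt := Ext.none) (P1 := 0) (W1 := 536870912) (P2 := 0) (W2 := 1230186008) (P3 := 858993459) (W3 := 64424510)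
    rfl k0_B04pm_033_s1

theorem s_B04pm_033_s1 {κ x : ℝ} (hκ : κ * h0 = ken x) (hx : ((858993459 : ℕ) : ℝ) / S ≤ x)
    (hx' : x ≤ (((858993459 : ℕ) : ℝ) + (64424510 : ℕ)) / S) :
    AltB (VFD κ) PP tK tL pcB [⟨3, 0, 0, 1449551462⟩] 0 3 3 0 4 (sgb true) (sgb false) x :=
  strip_altBD (m := 1449551462) true rfl hκ (SH.κ0 hκ (SH.hx1 hx).le (SH.hx2 hx').le) (SH.hx1 hx).le (SH.hx2 hx') (covB00).cov (covB43).cov hx hx' c_B04pm_033_s1 cutB_nil (noExt_B)

noncomputable def cut_B04pm_101_s1 : Cut := Cut.of [[⟨4, 0, 0, 1449551462⟩]]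

noncomputable def f_B04pm_101_s1 : ℕ → ℕ → ℕ → ℕ → Bool := onCell 536870912 536870912 536870912 536870912 858993459 64424510
    (rowF 0 false true false .npn 1 0 1 (qsf 536870912 536870912 536870912 536870912 0) ndB0q1 ndB4q1 pcB0 cut_B04pm_101_s1 Ext.none)

def k0_B04pm_101_s1 : ∃ t, chk3 f_B04pm_101_s1 t 1 1 1 = true :=
  ⟨(l 4), by decide +kernel⟩

theorem c_B04pm_101_s1 : CertF 536870912 536870912 536870912 536870912 858993459 64424510 false true false .npn 1 0 1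
    ndB0q1 ndB4q1 pcB0 cut_B04pm_101_s1 Ext.none :=
  certF0 (fam := false) (s1 := true) (s2 := false) (a := 1) (b := 0) (c := 1) (cn := .npn) (n1 := ndB0q1) (n2 := ndB4q1) (pc := pcB0) (cut := cut_B04pm_101_s1) (xt := Ext.none) (P1 := 536870912) (W1 := 536870912) (P2 := 536870912) (W2 := 536870912) (P3 := 858993459) (W3 := 64424510)
    rfl k0_B04pm_101_s1

theorem s_B04pm_101_s1 {κ x : ℝ} (hκ : κ * h0 = ken x) (hx : ((858993459 : ℕ) : ℝ) / S ≤ x)
    (hx' : x ≤ (((858993459 : ℕ) : ℝ) + (64424510 : ℕ)) / S) :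
    AltB (VFD κ) PP tK tL pcB [⟨3, 0, 0, 1449551462⟩] 1 0 1 0 4 (sgb true) (sgb false) x :=
  strip_altBD (m := 1449551462) true rfl hκ (SH.κ0 hκ (SH.hx1 hx).le (SH.hx2 hx').le) (SH.hx1 hx).le (SH.hx2 hx') (covB01).cov (covB41).cov hx hx' c_B04pm_101_s1 cutB_nil (noExt_B)

noncomputable def cut_B04pm_102_s1 : Cut := Cut.of [[⟨4, 0, 0, 1449551462⟩]]

noncomputable def f_B04pm_102_s1 : ℕ → ℕ → ℕ → ℕ → Bool := onCell 536870912 536870912 1073741824 536870912 858993459 64424510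
    (rowF 0 false true false .npp 1 0 2 (qsf 536870912 536870912 1073741824 536870912 0) ndB0q1 ndB4q2 pcB0 cut_B04pm_102_s1 Ext.none)

def k0_B04pm_102_s1 : ∃ t, chk3 f_B04pm_102_s1 t 1 1 1 = true :=
  ⟨(l 6), by decide +kernel⟩

theorem c_B04pm_102_s1 : CertF 536870912 536870912 1073741824 536870912 858993459 64424510 false true false .npp 1 0 2
    ndB0q1 ndB4q2 pcB0 cut_B04pm_102_s1 Ext.none :=
  certF0 (fam := false) (s1 := true) (s2 := false) (a := 1) (b := 0) (c := 2) (cn := .npp) (n1 := ndB0q1) (n2 := ndB4q2) (pc := pcB0) (cut := cut_B04pm_102_s1) (xt := Ext.none) (P1 := 536870912) (W1 := 536870912) (P2 := 1073741824) (W2 := 536870912) (P3 := 858993459) (W3 := 64424510)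
    rfl k0_B04pm_102_s1

theorem s_B04pm_102_s1 {κ x : ℝ} (hκ : κ * h0 = ken x) (hx : ((858993459 : ℕ) : ℝ) / S ≤ x)
    (hx' : x ≤ (((858993459 : ℕ) : ℝ) + (64424510 : ℕ)) / S) :
    AltB (VFD κ) PP tK tL pcB [⟨3, 0, 0, 1449551462⟩] 1 0 2 0 4 (sgb true) (sgb false) x :=
  strip_altBD (m := 1449551462) true rfl hκ (SH.κ0 hκ (SH.hx1 hx).le (SH.hx2 hx').le) (SH.hx1 hx).le (SH.hx2 hx') (covB01).cov (covB42).cov hx hx' c_B04pm_102_s1 cutB_nil (noExt_B)

noncomputable def cut_B04pm_112_s1 : Cut := Cut.of [[⟨4, 0, 0, 1449551462⟩]]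

noncomputable def f_B04pm_112_s1 : ℕ → ℕ → ℕ → ℕ → Bool := onCell 536870912 536870912 1073741824 536870912 858993459 64424510
    (rowF 0 false true false .dn 1 1 2 (qsf 536870912 536870912 1073741824 536870912 1) ndB0q1 ndB4q2 pcB1 cut_B04pm_112_s1 Ext.none)

def k0_B04pm_112_s1 : ∃ t, chk3 f_B04pm_112_s1 t 1 1 1 = true :=
  ⟨(l 6), by decide +kernel⟩

theorem c_B04pm_112_s1 : CertF 536870912 536870912 1073741824 536870912 858993459 64424510 false true false .dn 1 1 2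
    ndB0q1 ndB4q2 pcB1 cut_B04pm_112_s1 Ext.none :=
  certF0 (fam := false) (s1 := true) (s2 := false) (a := 1) (b := 1) (c := 2) (cn := .dn) (n1 := ndB0q1) (n2 := ndB4q2) (pc := pcB1) (cut := cut_B04pm_112_s1) (xt := Ext.none) (P1 := 536870912) (W1 := 536870912) (P2 := 1073741824) (W2 := 536870912) (P3 := 858993459) (W3 := 64424510)
    rfl k0_B04pm_112_s1

theorem s_B04pm_112_s1 {κ x : ℝ} (hκ : κ * h0 = ken x) (hx : ((858993459 : ℕ) : ℝ) / S ≤ x)
    (hx' : x ≤ (((858993459 : ℕ) : ℝ) + (64424510 : ℕ)) / S) :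
    AltB (VFD κ) PP tK tL pcB [⟨3, 0, 0, 1449551462⟩] 1 1 2 0 4 (sgb true) (sgb false) x :=
  strip_altBD (m := 1449551462) true rfl hκ (SH.κ0 hκ (SH.hx1 hx).le (SH.hx2 hx').le) (SH.hx1 hx).le (SH.hx2 hx') (covB01).cov (covB42).cov hx hx' c_B04pm_112_s1 cutB_nil (noExt_B)

noncomputable def cut_B04pm_113_s1 : Cut := Cut.of [[⟨4, 0, 0, 1449551462⟩], [⟨0, 1, 0, 67108864⟩, ⟨1, 1, 0, 67108864⟩, ⟨2, 2, 0, 16777216⟩]]

noncomputable def f_B04pm_113_s1 : ℕ → ℕ → ℕ → ℕ → Bool := onCell 536870912 536870912 0 1230186008 858993459 64424510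
    (rowF 0 false true false .nn 1 1 3 (qsf 536870912 536870912 0 1230186008 1) ndB0q1 ndB4q3 pcB1 cut_B04pm_113_s1 Ext.none)

def k0_B04pm_113_s1 : ∃ t, chk3 f_B04pm_113_s1 t 1 1 1 = true :=
  ⟨(b (a (l 2) (a (l 2) (b (a (l 2) (a (l 2) (b (l 14) (b (l 14) (a (l 16749104) (l 16796288)))))) (a (l 6) (b (b (a (l 6) (a (l 6) (l 16803584))) (l 6)) (l 6)))))) (b (l 6) (l 6))), by decide +kernel⟩

theorem c_B04pm_113_s1 : CertF 536870912 536870912 0 1230186008 858993459 64424510 false true false .nn 1 1 3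
    ndB0q1 ndB4q3 pcB1 cut_B04pm_113_s1 Ext.none :=
  certF0 (fam := false) (s1 := true) (s2 := false) (a := 1) (b := 1) (c := 3) (cn := .nn) (n1 := ndB0q1) (n2 := ndB4q3) (pc := pcB1) (cut := cut_B04pm_113_s1) (xt := Ext.none) (P1 := 536870912) (W1 := 536870912) (P2 := 0) (W2 := 1230186008) (P3 := 858993459) (W3 := 64424510)
    rfl k0_B04pm_113_s1

theorem s_B04pm_113_s1 {κ x : ℝ} (hκ : κ * h0 = ken x) (hx : ((858993459 : ℕ) : ℝ) / S ≤ x)
    (hx' : x ≤ (((858993459 : ℕ) : ℝ) + (64424510 : ℕ)) / S)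
    (H : CutB (VFD κ) PP tK tL pcB (Cut.of [[⟨0, 1, 0, 67108864⟩, ⟨1, 1, 0, 67108864⟩, ⟨2, 2, 0, 16777216⟩]]) 1 1 3 0 4 (sgb true) (sgb false) x) :
    AltB (VFD κ) PP tK tL pcB [⟨3, 0, 0, 1449551462⟩] 1 1 3 0 4 (sgb true) (sgb false) x :=
  strip_altBD (m := 1449551462) true rfl hκ (SH.κ0 hκ (SH.hx1 hx).le (SH.hx2 hx').le) (SH.hx1 hx).le (SH.hx2 hx') (covB01).cov (covB43).cov hx hx' c_B04pm_113_s1 H (noExt_B)

noncomputable def cut_B04pm_123_s1 : Cut := Cut.of [[⟨4, 0, 0, 1449551462⟩], [⟨0, 1, 0, 67108864⟩, ⟨1, 1, 0, 67108864⟩, ⟨2, 2, 0, 16777216⟩]]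

noncomputable def f_B04pm_123_s1 : ℕ → ℕ → ℕ → ℕ → Bool := onCell 1073741824 536870912 0 1230186008 858993459 64424510
    (rowF 2 false true false .npn 1 2 3 (qsf 536870912 536870912 0 1230186008 2) ndB0q1 ndB4q3 pcB2 cut_B04pm_123_s1 Ext.none)

def k0_B04pm_123_s1 : ∃ t, chk3 f_B04pm_123_s1 t 1 1 1 = true :=
  ⟨(b (a (a (b (a (b (a (l 14) (a (l 14) (a (l 14) (b (l 16648016) (l 16624840))))) (a (b (l 14) (a (l 16663952) (l 16652576))) (b (a (l 14) (l 16624200)) (l 6)))) (b (b (a (a (l 16641496) (l 16633832)) (a (l 16625992) (l 16615784))) (a (l 16703192) (l 6))) (l 6))) (b (l 6) (l 6))) (b (b (l 6) (l 6)) (l 6))) (l 6)) (l 6)), by decide +kernel⟩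

theorem c_B04pm_123_s1 : CertF 536870912 536870912 0 1230186008 858993459 64424510 false true false .npn 1 2 3
    ndB0q1 ndB4q3 pcB2 cut_B04pm_123_s1 Ext.none :=
  certF2 (fam := false) (s1 := true) (s2 := false) (a := 1) (b := 2) (c := 3) (cn := .npn) (n1 := ndB0q1) (n2 := ndB4q3) (pc := pcB2) (cut := cut_B04pm_123_s1) (xt := Ext.none) (P1 := 536870912) (W1 := 536870912) (P2 := 0) (W2 := 1230186008) (P3 := 858993459) (W3 := 64424510)
    rfl (fun _ => rfl) k0_B04pm_123_s1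

theorem s_B04pm_123_s1 {κ x : ℝ} (hκ : κ * h0 = ken x) (hx : ((858993459 : ℕ) : ℝ) / S ≤ x)
    (hx' : x ≤ (((858993459 : ℕ) : ℝ) + (64424510 : ℕ)) / S)
    (H : CutB (VFD κ) PP tK tL pcB (Cut.of [[⟨0, 1, 0, 67108864⟩, ⟨1, 1, 0, 67108864⟩, ⟨2, 2, 0, 16777216⟩]]) 1 2 3 0 4 (sgb true) (sgb false) x) :
    AltB (VFD κ) PP tK tL pcB [⟨3, 0, 0, 1449551462⟩] 1 2 3 0 4 (sgb true) (sgb false) x :=
  strip_altBD (m := 1449551462) true rfl hκ (SH.κ0 hκ (SH.hx1 hx).le (SH.hx2 hx').le) (SH.hx1 hx).le (SH.hx2 hx') (covB01).cov (covB43).cov hx hx' c_B04pm_123_s1 H (noExt_B)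

noncomputable def cut_B04pm_133_s1 : Cut := Cut.of [[⟨4, 0, 0, 1449551462⟩]]

noncomputable def f_B04pm_133_s1 : ℕ → ℕ → ℕ → ℕ → Bool := onCell 1610612736 536870912 0 1230186008 858993459 64424510
    (rowF 2 false true false .dn 1 3 3 (qsf 536870912 536870912 0 1230186008 3) ndB0q1 ndB4q3 pcB3 cut_B04pm_133_s1 Ext.none)

def k0_B04pm_133_s1 : ∃ t, chk3 f_B04pm_133_s1 t 1 1 1 = true :=
  ⟨(l 6), by decide +kernel⟩

theorem c_B04pm_133_s1 : CertF 536870912 536870912 0 1230186008 858993459 64424510 false true false .dn 1 3 3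
    ndB0q1 ndB4q3 pcB3 cut_B04pm_133_s1 Ext.none :=
  certF2 (fam := false) (s1 := true) (s2 := false) (a := 1) (b := 3) (c := 3) (cn := .dn) (n1 := ndB0q1) (n2 := ndB4q3) (pc := pcB3) (cut := cut_B04pm_133_s1) (xt := Ext.none) (P1 := 536870912) (W1 := 536870912) (P2 := 0) (W2 := 1230186008) (P3 := 858993459) (W3 := 64424510)
    rfl (fun _ => rfl) k0_B04pm_133_s1

theorem s_B04pm_133_s1 {κ x : ℝ} (hκ : κ * h0 = ken x) (hx : ((858993459 : ℕ) : ℝ) / S ≤ x)
    (hx' : x ≤ (((858993459 : ℕ) : ℝ) + (64424510 : ℕ)) / S) :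
    AltB (VFD κ) PP tK tL pcB [⟨3, 0, 0, 1449551462⟩] 1 3 3 0 4 (sgb true) (sgb false) x :=
  strip_altBD (m := 1449551462) true rfl hκ (SH.κ0 hκ (SH.hx1 hx).le (SH.hx2 hx').le) (SH.hx1 hx).le (SH.hx2 hx') (covB01).cov (covB43).cov hx hx' c_B04pm_133_s1 cutB_nil (noExt_B)

noncomputable def cut_B04pm_202_s1 : Cut := Cut.of [[⟨4, 0, 0, 1449551462⟩]]

noncomputable def f_B04pm_202_s1 : ℕ → ℕ → ℕ → ℕ → Bool := onCell 0 536870912 1073741824 536870912 858993459 64424510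
    (rowF 0 false true false .pp 2 0 2 (qsf 0 536870912 1073741824 536870912 0) ndB0q2 ndB4q2 pcB0 cut_B04pm_202_s1 Ext.none)

def k0_B04pm_202_s1 : ∃ t, chk3 f_B04pm_202_s1 t 1 1 1 = true :=
  ⟨(a (b (l 6) (b (l 6) (l 6))) (l 6)), by decide +kernel⟩

theorem c_B04pm_202_s1 : CertF 0 536870912 1073741824 536870912 858993459 64424510 false true false .pp 2 0 2
    ndB0q2 ndB4q2 pcB0 cut_B04pm_202_s1 Ext.none :=
  certF0 (fam := false) (s1 := true) (s2 := false) (a := 2) (b := 0) (c := 2) (cn := .pp) (n1 := ndB0q2) (n2 := ndB4q2) (pc := pcB0) (cut := cut_B04pm_202_s1) (xt := Ext.none) (P1 := 0) (W1 := 536870912) (P2 := 1073741824) (W2 := 536870912) (P3 := 858993459) (W3 := 64424510)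
    rfl k0_B04pm_202_s1

theorem s_B04pm_202_s1 {κ x : ℝ} (hκ : κ * h0 = ken x) (hx : ((858993459 : ℕ) : ℝ) / S ≤ x)
    (hx' : x ≤ (((858993459 : ℕ) : ℝ) + (64424510 : ℕ)) / S) :
    AltB (VFD κ) PP tK tL pcB [⟨3, 0, 0, 1449551462⟩] 2 0 2 0 4 (sgb true) (sgb false) x :=
  strip_altBD (m := 1449551462) true rfl hκ (SH.κ0 hκ (SH.hx1 hx).le (SH.hx2 hx').le) (SH.hx1 hx).le (SH.hx2 hx') (covB02).cov (covB42).cov hx hx' c_B04pm_202_s1 cutB_nil (noExt_B)

noncomputable def cut_B04pm_203_s1 : Cut := Cut.of [[⟨4, 0, 0, 1449551462⟩]]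

noncomputable def f_B04pm_203_s1 : ℕ → ℕ → ℕ → ℕ → Bool := onCell 0 536870912 0 1230186008 858993459 64424510
    (rowF 0 false true false .up 2 0 3 (qsf 0 536870912 0 1230186008 0) ndB0q2 ndB4q3 pcB0 cut_B04pm_203_s1 Ext.none)

def k0_B04pm_203_s1 : ∃ t, chk3 f_B04pm_203_s1 t 1 1 1 = true :=
  ⟨(b (l 2) (b (l 2) (a (b (b (l 2) (b (a (l 2) (l 2)) (a (a (l 16670632) (l 16543056)) (l 6)))) (a (b (a (b (l 16646008) (l 16718984)) (b (l 16871880) (l 6))) (a (b (a (l 16627800) (l 16609688)) (l 16582880)) (l 6))) (l 6))) (l 6)))), by decide +kernel⟩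

theorem c_B04pm_203_s1 : CertF 0 536870912 0 1230186008 858993459 64424510 false true false .up 2 0 3
    ndB0q2 ndB4q3 pcB0 cut_B04pm_203_s1 Ext.none :=
  certF0 (fam := false) (s1 := true) (s2 := false) (a := 2) (b := 0) (c := 3) (cn := .up) (n1 := ndB0q2) (n2 := ndB4q3) (pc := pcB0) (cut := cut_B04pm_203_s1) (xt := Ext.none) (P1 := 0) (W1 := 536870912) (P2 := 0) (W2 := 1230186008) (P3 := 858993459) (W3 := 64424510)
    rfl k0_B04pm_203_s1

theorem s_B04pm_203_s1 {κ x : ℝ} (hκ : κ * h0 = ken x) (hx : ((858993459 : ℕ) : ℝ) / S ≤ x)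
    (hx' : x ≤ (((858993459 : ℕ) : ℝ) + (64424510 : ℕ)) / S) :
    AltB (VFD κ) PP tK tL pcB [⟨3, 0, 0, 1449551462⟩] 2 0 3 0 4 (sgb true) (sgb false) x :=
  strip_altBD (m := 1449551462) true rfl hκ (SH.κ0 hκ (SH.hx1 hx).le (SH.hx2 hx').le) (SH.hx1 hx).le (SH.hx2 hx') (covB02).cov (covB43).cov hx hx' c_B04pm_203_s1 cutB_nil (noExt_B)

noncomputable def cut_B04pm_213_s1 : Cut := Cut.of [[⟨4, 0, 0, 1449551462⟩], [⟨0, 1, 0, 67108864⟩, ⟨1, 1, 0, 67108864⟩, ⟨2, 2, 0, 16777216⟩]]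

noncomputable def xt_B04pm_213_s1 : Ext := strExt dd false true false .u2 .s2m .u0m .pnn 2 1 3 rfl rfl gf1 vv ndB0q2 ndB4q3

noncomputable def f_B04pm_213_s1 : ℕ → ℕ → ℕ → ℕ → Bool := onCell 0 536870912 0 1230186008 858993459 64424510
    (rowF 0 false true false .pnn 2 1 3 (qsf 0 536870912 0 1230186008 1) ndB0q2 ndB4q3 pcB1 cut_B04pm_213_s1 xt_B04pm_213_s1)

def k0_B04pm_213_s1 : ∃ t, chk3 f_B04pm_213_s1 t 2 2 1 = true :=
  ⟨(a (l 3) (b (l 3) (b (l 3) (a (b (l 3) (a (l 3) (c (l 535701007) (l 532867087)))) (b (a (l 3) (l 536378383)) (a (c (l 535336719) (b (l 533675279) (l 533490447))) (c (l 536104975) (b (l 533883407) (l 533692431))))))))), by decide +kernel⟩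

def k1_B04pm_213_s1 : ∃ t, chk3 f_B04pm_213_s1 t 3 4 1 = true :=
  ⟨(b (a (l 3) (a (a (l 3) (l 14)) (l 14))) (a (a (l 3) (a (l 3) (b (l 3) (b (a (l 3) (c (l 537209871) (l 535729167))) (a (c (l 537254415) (l 535558159)) (c (l 537352975) (l 535719951))))))) (a (a (b (b (l 3) (a (l 536470543) (l 536522255))) (b (a (l 536541455) (l 536595215)) (a (b (l 536599055) (l 536599567)) (l 536669199)))) (b (a (b (l 536477711) (l 536551183)) (l 14)) (a (b (l 537700623) (c (l 16781912) (l 16766216))) (b (l 538206991) (l 16773160))))) (b (a (a (l 14) (l 14)) (a (l 14) (l 14))) (a (a (b (l 16770832) (l 16771472)) (l 16768888)) (b (l 16765912) (l 16767376))))))), by decide +kernel⟩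

def k2_B04pm_213_s1 : ∃ t, chk3 f_B04pm_213_s1 t 3 5 1 = true :=
  ⟨(b (a (a (b (a (l 3) (b (l 3) (a (l 3) (l 536505615)))) (a (l 536442639) (c (l 536803343) (l 534873615)))) (a (a (b (b (l 3) (l 536548623)) (l 536616463)) (b (c (b (l 535768335) (l 537069839)) (b (a (l 535335695) (l 535408143)) (l 535325711))) (b (c (l 537018639) (l 535261455)) (l 536671503)))) (b (a (b (c (l 537231119) (l 535543823)) (c (l 537159183) (l 535471887))) (b (b (c (l 537347087) (l 535703055)) (c (l 16781872) (l 16765200))) (c (l 16783608) (l 16758816)))) (a (b (l 535062799) (l 16605760)) (b (c (l 16785056) (l 16749112)) (l 16689912)))))) (b (a (a (b (a (c (l 16784680) (l 16721608)) (c (l 16786368) (l 16761848))) (c (l 16789856) (l 16755568))) (b (c (l 16786928) (l 16761704)) (l 16608248))) (a (b (l 16772552) (l 16775296)) (l 16771848))) (a (a (c (l 16667440) (b (l 16746736) (l 16736112))) (b (l 16777880) (l 16780224))) (a (b (l 16778624) (l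 16782808)) (l 16781136))))) (a (a (b (a (l 536492303) (c (l 536647951) (l 534648591))) (a (b (l 536247823) (l 535840015)) (c (l 536428303) (l 534331919)))) (a (b (a (l 536678671) (c (l 16776568) (l 16640152))) (b (c (l 16768600) (l 16698424)) (l 16588608))) (b (b (a (l 16689608) (l 16774312)) (l 16606680)) (c (l 16771632) (l 16676048))))) (a (b (a (b (l 16609352) (l 16778912)) (c (l 16807528) (l 16721704))) (a (c (l 16783064) (l 16675104)) (l 6))) (b (l 6) (l 6))))), by decide +kernel⟩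

def k3_B04pm_213_s1 : ∃ t, chk3 f_B04pm_213_s1 t 2 6 2 = true :=
  ⟨(a (b (a (l 3) (a (l 3) (b (l 3) (b (l 534693647) (l 532922127))))) (a (b (b (l 3) (l 534184463)) (l 534080527)) (b (a (c (l 533040399) (l 535104271)) (b (c (l 532850447) (l 535072527)) (a (l 534235407) (l 534308111)))) (a (a (l 534077199) (l 534086159)) (b (c (l 16726264) (l 16736256)) (l 532730127)))))) (b (a (b (a (l 535094287) (b (l 535367439) (l 535104783))) (a (b (l 534797583) (l 534639631)) (b (l 534897423) (l 534705423)))) (b (a (l 534532367) (b (l 535651855) (l 16654832))) (a (b (l 534995983) (l 16631320)) (c (l 16677224) (l 16713416))))) (b (a (a (b (c (l 533164559) (l 535008271)) (l 534380559)) (b (l 534573839) (l 16609360))) (b (a (l 16693272) (l 16672248)) (a (l 16668984) (l 16645264)))) (b (a (c (l 16628616) (l 16702000)) (l 16376384)) (a (a (l 16668056) (l 16639656)) (a (l 16610648) (l 6))))))), by decide +kernel⟩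

def k4_B04pm_213_s1 : ∃ t, chk3 f_B04pm_213_s1 t 2 6 3 = true :=
  ⟨(a (b (a (l 3) (b (l 3) (a (l 3) (c (l 533859599) (l 531292175))))) (a (b (b (l 3) (l 532089871)) (l 532058383)) (b (a (c (l 533610511) (l 529725455)) (b (c (l 533723407) (l 531137551)) (a (l 532441615) (l 532516879)))) (a (c (l 533591567) (l 528999183)) (b (c (l 16709200) (l 530907663)) (c (l 16685808) (l 16685400))))))) (b (a (b (a (l 532811023) (l 532705807)) (a (b (l 532458511) (c (l 533861135) (l 531491599))) (b (l 532627983) (l 532465935)))) (b (a (b (l 533274127) (l 533014799)) (b (l 533482511) (l 533187599))) (a (b (l 532787471) (l 16482480)) (c (l 16671968) (l 16711744))))) (a (a (b (b (c (l 533774351) (l 531385871)) (l 532609039)) (b (l 532369679) (l 16441296))) (b (b (l 532514063) (l 16380704)) (b (l 16601464) (l 16568096)))) (b (b (a (l 16614104) (l 16572440)) (a (l 16587400) (l 16538416))) (b (a (l 16558936) (l 16514928)) (a (l 16526816) (l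 6))))))), by decide +kernel⟩

def k5_B04pm_213_s1 : ∃ t, chk3 f_B04pm_213_s1 t 3 6 1 = true :=
  ⟨(a (b (a (b (b (a (l 535218959) (l 535662351)) (a (c (l 16729912) (l 16649808)) (l 16534904))) (b (c (l 16535784) (l 16342544)) (c (l 16675880) (l 16468960)))) (b (a (c (l 16746168) (l 16533272)) (c (l 16751552) (l 16601624))) (a (c (l 16603632) (l 16523520)) (l 6)))) (a (a (b (b (l 16305328) (l 6)) (l 6)) (l 6)) (l 6))) (b (l 6) (l 6))), by decide +kernel⟩

def k6_B04pm_213_s1 : ∃ t, chk3 f_B04pm_213_s1 t 1 7 1 = true :=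
  ⟨(a (b (a (c (a (b (l 533577743) (b (l 533563919) (l 533295887))) (b (a (c (l 532027407) (l 534766607)) (b (l 16500832) (l 16552912))) (b (a (l 16466856) (l 16598696)) (a (l 16423544) (l 16216744))))) (a (b (c (l 533629455) (l 530167823)) (b (l 532213007) (l 532396047))) (b (a (c (l 533786639) (l 530505743)) (b (l 16279408) (l 16328088))) (b (b (l 16155864) (l 16139768)) (a (l 16305480) (l 16031112)))))) (a (a (b (b (b (l 16255632) (l 16246216)) (c (l 16603912) (l 16538952))) (b (c (l 16478568) (l 16185336)) (l 6))) (b (b (c (l 16607544) (l 16533280)) (c (l 16570080) (l 16344400))) (l 6))) (l 6))) (a (l 1) (l 6))) (l 6)), by decide +kernel⟩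

theorem t7_B04pm_213_s1 : ∃ t, chk3 f_B04pm_213_s1 t 2 6 1 = true := ex3_c k3_B04pm_213_s1 k4_B04pm_213_s1

theorem t8_B04pm_213_s1 : ∃ t, chk3 f_B04pm_213_s1 t 1 6 1 = true := ex3_a t7_B04pm_213_s1 k5_B04pm_213_s1

theorem t9_B04pm_213_s1 : ∃ t, chk3 f_B04pm_213_s1 t 1 3 1 = true := ex3_b t8_B04pm_213_s1 k6_B04pm_213_s1

theorem t10_B04pm_213_s1 : ∃ t, chk3 f_B04pm_213_s1 t 3 2 1 = true := ex3_b k1_B04pm_213_s1 k2_B04pm_213_s1

theorem t11_B04pm_213_s1 : ∃ t, chk3 f_B04pm_213_s1 t 1 2 1 = true := ex3_a k0_B04pm_213_s1 t10_B04pm_213_s1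

theorem t12_B04pm_213_s1 : ∃ t, chk3 f_B04pm_213_s1 t 1 1 1 = true := ex3_b t11_B04pm_213_s1 t9_B04pm_213_s1

theorem c_B04pm_213_s1 : CertF 0 536870912 0 1230186008 858993459 64424510 false true false .pnn 2 1 3
    ndB0q2 ndB4q3 pcB1 cut_B04pm_213_s1 xt_B04pm_213_s1 :=
  certF0 (fam := false) (s1 := true) (s2 := false) (a := 2) (b := 1) (c := 3) (cn := .pnn) (n1 := ndB0q2) (n2 := ndB4q3) (pc := pcB1) (cut := cut_B04pm_213_s1) (xt := xt_B04pm_213_s1) (P1 := 0) (W1 := 536870912) (P2 := 0) (W2 := 1230186008) (P3 := 858993459) (W3 := 64424510)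
    rfl t12_B04pm_213_s1

theorem s_B04pm_213_s1 {κ x : ℝ} (hκ : κ * h0 = ken x) (hx : ((858993459 : ℕ) : ℝ) / S ≤ x)
    (hx' : x ≤ (((858993459 : ℕ) : ℝ) + (64424510 : ℕ)) / S)
    (H : CutB (VFD κ) PP tK tL pcB (Cut.of [[⟨0, 1, 0, 67108864⟩, ⟨1, 1, 0, 67108864⟩, ⟨2, 2, 0, 16777216⟩]]) 2 1 3 0 4 (sgb true) (sgb false) x) :
    AltB (VFD κ) PP tK tL pcB [⟨3, 0, 0, 1449551462⟩] 2 1 3 0 4 (sgb true) (sgb false) x :=
  strip_altBD (m := 1449551462) true rfl hκ (SH.κ0 hκ (SH.hx1 hx).le (SH.hx2 hx').le) (SH.hx1 hx).le (SH.hx2 hx') (covB02).cov (covB43).cov hx hx' c_B04pm_213_s1 H ((okx hx hx').extB (T := tt) (sideB hx hx') hκ rfl rfl (.O 2 true) (.N 3 false) (Or.inr rfl))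

noncomputable def cut_B04mm_001_s1 : Cut := Cut.of [[⟨4, 0, 0, 1449551462⟩]]

noncomputable def f_B04mm_001_s1 : ℕ → ℕ → ℕ → ℕ → Bool := onCell 0 536870912 0 536870912 858993459 64424510
    (rowF 1 false false false .up 0 0 1 (qsf 0 536870912 536870912 536870912 0) ndB0q0 ndB4q1 pcB0 cut_B04mm_001_s1 Ext.none)

def k0_B04mm_001_s1 : ∃ t, chk3 f_B04mm_001_s1 t 1 1 1 = true :=
  ⟨(l 3), by decide +kernel⟩

theorem c_B04mm_001_s1 : CertF 0 536870912 536870912 536870912 858993459 64424510 false false false .up 0 0 1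
    ndB0q0 ndB4q1 pcB0 cut_B04mm_001_s1 Ext.none :=
  certF1 (fam := false) (s1 := false) (s2 := false) (a := 0) (b := 0) (c := 1) (cn := .up) (n1 := ndB0q0) (n2 := ndB4q1) (pc := pcB0) (cut := cut_B04mm_001_s1) (xt := Ext.none) (P1 := 0) (W1 := 536870912) (P2 := 536870912) (W2 := 536870912) (P3 := 858993459) (W3 := 64424510)
    rfl (fun _ => rfl) k0_B04mm_001_s1

theorem s_B04mm_001_s1 {κ x : ℝ} (hκ : κ * h0 = ken x) (hx : ((858993459 : ℕ) : ℝ) / S ≤ x)
    (hx' : x ≤ (((858993459 : ℕ) : ℝ) + (64424510 : ℕ)) / S) :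
    AltB (VFD κ) PP tK tL pcB [⟨3, 0, 0, 1449551462⟩] 0 0 1 0 4 (sgb false) (sgb false) x :=
  strip_altBD (m := 1449551462) true rfl hκ (SH.κ0 hκ (SH.hx1 hx).le (SH.hx2 hx').le) (SH.hx1 hx).le (SH.hx2 hx') (covB00).cov (covB41).cov hx hx' c_B04mm_001_s1 cutB_nil (noExt_B)

noncomputable def cut_B04mm_011_s1 : Cut := Cut.of [[⟨4, 0, 0, 1449551462⟩]]

noncomputable def f_B04mm_011_s1 : ℕ → ℕ → ℕ → ℕ → Bool := onCell 0 536870912 536870912 536870912 858993459 64424510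
    (rowF 1 false false false .pnn 0 1 1 (qsf 0 536870912 536870912 536870912 1) ndB0q0 ndB4q1 pcB1 cut_B04mm_011_s1 Ext.none)

def k0_B04mm_011_s1 : ∃ t, chk3 f_B04mm_011_s1 t 1 1 1 = true :=
  ⟨(l 5), by decide +kernel⟩

theorem c_B04mm_011_s1 : CertF 0 536870912 536870912 536870912 858993459 64424510 false false false .pnn 0 1 1
    ndB0q0 ndB4q1 pcB1 cut_B04mm_011_s1 Ext.none :=
  certF1 (fam := false) (s1 := false) (s2 := false) (a := 0) (b := 1) (c := 1) (cn := .pnn) (n1 := ndB0q0) (n2 := ndB4q1) (pc := pcB1) (cut := cut_B04mm_011_s1) (xt := Ext.none) (P1 := 0) (W1 := 536870912) (P2 := 536870912) (W2 := 536870912) (P3 := 858993459) (W3 := 64424510)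
    rfl (fun _ => rfl) k0_B04mm_011_s1

theorem s_B04mm_011_s1 {κ x : ℝ} (hκ : κ * h0 = ken x) (hx : ((858993459 : ℕ) : ℝ) / S ≤ x)
    (hx' : x ≤ (((858993459 : ℕ) : ℝ) + (64424510 : ℕ)) / S) :
    AltB (VFD κ) PP tK tL pcB [⟨3, 0, 0, 1449551462⟩] 0 1 1 0 4 (sgb false) (sgb false) x :=
  strip_altBD (m := 1449551462) true rfl hκ (SH.κ0 hκ (SH.hx1 hx).le (SH.hx2 hx').le) (SH.hx1 hx).le (SH.hx2 hx') (covB00).cov (covB41).cov hx hx' c_B04mm_011_s1 cutB_nil (noExt_B)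

noncomputable def cut_B04mm_012_s1 : Cut := Cut.of [[⟨4, 0, 0, 1449551462⟩]]

noncomputable def f_B04mm_012_s1 : ℕ → ℕ → ℕ → ℕ → Bool := onCell 0 536870912 1073741824 536870912 858993459 64424510
    (rowF 0 false false false .pnp 0 1 2 (qsf 0 536870912 1073741824 536870912 1) ndB0q0 ndB4q2 pcB1 cut_B04mm_012_s1 Ext.none)

def k0_B04mm_012_s1 : ∃ t, chk3 f_B04mm_012_s1 t 1 1 1 = true :=
  ⟨(l 5), by decide +kernel⟩

theorem c_B04mm_012_s1 : CertF 0 536870912 1073741824 536870912 858993459 64424510 false false false .pnp 0 1 2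
    ndB0q0 ndB4q2 pcB1 cut_B04mm_012_s1 Ext.none :=
  certF0 (fam := false) (s1 := false) (s2 := false) (a := 0) (b := 1) (c := 2) (cn := .pnp) (n1 := ndB0q0) (n2 := ndB4q2) (pc := pcB1) (cut := cut_B04mm_012_s1) (xt := Ext.none) (P1 := 0) (W1 := 536870912) (P2 := 1073741824) (W2 := 536870912) (P3 := 858993459) (W3 := 64424510)
    rfl k0_B04mm_012_s1

theorem s_B04mm_012_s1 {κ x : ℝ} (hκ : κ * h0 = ken x) (hx : ((858993459 : ℕ) : ℝ) / S ≤ x)
    (hx' : x ≤ (((858993459 : ℕ) : ℝ) + (64424510 : ℕ)) / S) :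
    AltB (VFD κ) PP tK tL pcB [⟨3, 0, 0, 1449551462⟩] 0 1 2 0 4 (sgb false) (sgb false) x :=
  strip_altBD (m := 1449551462) true rfl hκ (SH.κ0 hκ (SH.hx1 hx).le (SH.hx2 hx').le) (SH.hx1 hx).le (SH.hx2 hx') (covB00).cov (covB42).cov hx hx' c_B04mm_012_s1 cutB_nil (noExt_B)

noncomputable def cut_B04mm_022_s1 : Cut := Cut.of [[⟨4, 0, 0, 1449551462⟩]]

noncomputable def f_B04mm_022_s1 : ℕ → ℕ → ℕ → ℕ → Bool := onCell 0 536870912 1073741824 536870912 858993459 64424510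
    (rowF 0 false false false .pp 0 2 2 (qsf 0 536870912 1073741824 536870912 2) ndB0q0 ndB4q2 pcB2 cut_B04mm_022_s1 Ext.none)

def k0_B04mm_022_s1 : ∃ t, chk3 f_B04mm_022_s1 t 1 1 1 = true :=
  ⟨(l 5), by decide +kernel⟩

theorem c_B04mm_022_s1 : CertF 0 536870912 1073741824 536870912 858993459 64424510 false false false .pp 0 2 2
    ndB0q0 ndB4q2 pcB2 cut_B04mm_022_s1 Ext.none :=
  certF0 (fam := false) (s1 := false) (s2 := false) (a := 0) (b := 2) (c := 2) (cn := .pp) (n1 := ndB0q0) (n2 := ndB4q2) (pc := pcB2) (cut := cut_B04mm_022_s1) (xt := Ext.none) (P1 := 0) (W1 := 536870912) (P2 := 1073741824) (W2 := 536870912) (P3 := 858993459) (W3 := 64424510)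
    rfl k0_B04mm_022_s1

theorem s_B04mm_022_s1 {κ x : ℝ} (hκ : κ * h0 = ken x) (hx : ((858993459 : ℕ) : ℝ) / S ≤ x)
    (hx' : x ≤ (((858993459 : ℕ) : ℝ) + (64424510 : ℕ)) / S) :
    AltB (VFD κ) PP tK tL pcB [⟨3, 0, 0, 1449551462⟩] 0 2 2 0 4 (sgb false) (sgb false) x :=
  strip_altBD (m := 1449551462) true rfl hκ (SH.κ0 hκ (SH.hx1 hx).le (SH.hx2 hx').le) (SH.hx1 hx).le (SH.hx2 hx') (covB00).cov (covB42).cov hx hx' c_B04mm_022_s1 cutB_nil (noExt_B)

noncomputable def cut_B04mm_023_s1 : Cut := Cut.of [[⟨4, 0, 0, 1449551462⟩]]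

noncomputable def f_B04mm_023_s1 : ℕ → ℕ → ℕ → ℕ → Bool := onCell 0 536870912 0 1230186008 858993459 64424510
    (rowF 0 false false false .up 0 2 3 (qsf 0 536870912 0 1230186008 2) ndB0q0 ndB4q3 pcB2 cut_B04mm_023_s1 Ext.none)

def k0_B04mm_023_s1 : ∃ t, chk3 f_B04mm_023_s1 t 1 1 1 = true :=
  ⟨(l 5), by decide +kernel⟩

theorem c_B04mm_023_s1 : CertF 0 536870912 0 1230186008 858993459 64424510 false false false .up 0 2 3
    ndB0q0 ndB4q3 pcB2 cut_B04mm_023_s1 Ext.none :=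
  certF0 (fam := false) (s1 := false) (s2 := false) (a := 0) (b := 2) (c := 3) (cn := .up) (n1 := ndB0q0) (n2 := ndB4q3) (pc := pcB2) (cut := cut_B04mm_023_s1) (xt := Ext.none) (P1 := 0) (W1 := 536870912) (P2 := 0) (W2 := 1230186008) (P3 := 858993459) (W3 := 64424510)
    rfl k0_B04mm_023_s1

theorem s_B04mm_023_s1 {κ x : ℝ} (hκ : κ * h0 = ken x) (hx : ((858993459 : ℕ) : ℝ) / S ≤ x)
    (hx' : x ≤ (((858993459 : ℕ) : ℝ) + (64424510 : ℕ)) / S) :
    AltB (VFD κ) PP tK tL pcB [⟨3, 0, 0, 1449551462⟩] 0 2 3 0 4 (sgb false) (sgb false) x :=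
  strip_altBD (m := 1449551462) true rfl hκ (SH.κ0 hκ (SH.hx1 hx).le (SH.hx2 hx').le) (SH.hx1 hx).le (SH.hx2 hx') (covB00).cov (covB43).cov hx hx' c_B04mm_023_s1 cutB_nil (noExt_B)

noncomputable def cut_B04mm_033_s1 : Cut := Cut.of [[⟨4, 0, 0, 1449551462⟩]]

noncomputable def f_B04mm_033_s1 : ℕ → ℕ → ℕ → ℕ → Bool := onCell 0 536870912 0 1230186008 858993459 64424510
    (rowF 0 false false false .pnn 0 3 3 (qsf 0 536870912 0 1230186008 3) ndB0q0 ndB4q3 pcB3 cut_B04mm_033_s1 Ext.none)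

def k0_B04mm_033_s1 : ∃ t, chk3 f_B04mm_033_s1 t 1 1 1 = true :=
  ⟨(l 5), by decide +kernel⟩

theorem c_B04mm_033_s1 : CertF 0 536870912 0 1230186008 858993459 64424510 false false false .pnn 0 3 3
    ndB0q0 ndB4q3 pcB3 cut_B04mm_033_s1 Ext.none :=
  certF0 (fam := false) (s1 := false) (s2 := false) (a := 0) (b := 3) (c := 3) (cn := .pnn) (n1 := ndB0q0) (n2 := ndB4q3) (pc := pcB3) (cut := cut_B04mm_033_s1) (xt := Ext.none) (P1 := 0) (W1 := 536870912) (P2 := 0) (W2 := 1230186008) (P3 := 858993459) (W3 := 64424510)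
    rfl k0_B04mm_033_s1

theorem s_B04mm_033_s1 {κ x : ℝ} (hκ : κ * h0 = ken x) (hx : ((858993459 : ℕ) : ℝ) / S ≤ x)
    (hx' : x ≤ (((858993459 : ℕ) : ℝ) + (64424510 : ℕ)) / S) :
    AltB (VFD κ) PP tK tL pcB [⟨3, 0, 0, 1449551462⟩] 0 3 3 0 4 (sgb false) (sgb false) x :=
  strip_altBD (m := 1449551462) true rfl hκ (SH.κ0 hκ (SH.hx1 hx).le (SH.hx2 hx').le) (SH.hx1 hx).le (SH.hx2 hx') (covB00).cov (covB43).cov hx hx' c_B04mm_033_s1 cutB_nil (noExt_B)

noncomputable def cut_B04mm_101_s1 : Cut := Cut.of [[⟨4, 0, 0, 1449551462⟩], [⟨0, 1, 0, 67108864⟩, ⟨1, 0, 0, 67108864⟩, ⟨2, 1, 0, 67108864⟩]]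

noncomputable def f_B04mm_101_s1 : ℕ → ℕ → ℕ → ℕ → Bool := onCell 536870912 536870912 0 536870912 858993459 64424510
    (rowF 1 false false false .npn 1 0 1 (qsf 536870912 536870912 536870912 536870912 0) ndB0q1 ndB4q1 pcB0 cut_B04mm_101_s1 Ext.none)

def k0_B04mm_101_s1 : ∃ t, chk3 f_B04mm_101_s1 t 1 1 1 = true :=
  ⟨(a (l 3) (b (a (l 3) (b (b (a (l 3) (b (a (l 3) (l 14)) (l 3))) (l 3)) (l 3))) (l 3))), by decide +kernel⟩

theorem c_B04mm_101_s1 : CertF 536870912 536870912 536870912 536870912 858993459 64424510 false false false .npn 1 0 1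
    ndB0q1 ndB4q1 pcB0 cut_B04mm_101_s1 Ext.none :=
  certF1 (fam := false) (s1 := false) (s2 := false) (a := 1) (b := 0) (c := 1) (cn := .npn) (n1 := ndB0q1) (n2 := ndB4q1) (pc := pcB0) (cut := cut_B04mm_101_s1) (xt := Ext.none) (P1 := 536870912) (W1 := 536870912) (P2 := 536870912) (W2 := 536870912) (P3 := 858993459) (W3 := 64424510)
    rfl (fun _ => rfl) k0_B04mm_101_s1

theorem s_B04mm_101_s1 {κ x : ℝ} (hκ : κ * h0 = ken x) (hx : ((858993459 : ℕ) : ℝ) / S ≤ x)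
    (hx' : x ≤ (((858993459 : ℕ) : ℝ) + (64424510 : ℕ)) / S)
    (H : CutB (VFD κ) PP tK tL pcB (Cut.of [[⟨0, 1, 0, 67108864⟩, ⟨1, 0, 0, 67108864⟩, ⟨2, 1, 0, 67108864⟩]]) 1 0 1 0 4 (sgb false) (sgb false) x) :
    AltB (VFD κ) PP tK tL pcB [⟨3, 0, 0, 1449551462⟩] 1 0 1 0 4 (sgb false) (sgb false) x :=
  strip_altBD (m := 1449551462) true rfl hκ (SH.κ0 hκ (SH.hx1 hx).le (SH.hx2 hx').le) (SH.hx1 hx).le (SH.hx2 hx') (covB01).cov (covB41).cov hx hx' c_B04mm_101_s1 H (noExt_B)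

noncomputable def cut_B04mm_102_s1 : Cut := Cut.of [[⟨4, 0, 0, 1449551462⟩], [⟨0, 1, 0, 67108864⟩, ⟨1, 0, 0, 67108864⟩, ⟨2, 1, 0, 67108864⟩]]

noncomputable def f_B04mm_102_s1 : ℕ → ℕ → ℕ → ℕ → Bool := onCell 536870912 536870912 0 536870912 858993459 64424510
    (rowF 1 false false false .npp 1 0 2 (qsf 536870912 536870912 1073741824 536870912 0) ndB0q1 ndB4q2 pcB0 cut_B04mm_102_s1 Ext.none)

def k0_B04mm_102_s1 : ∃ t, chk3 f_B04mm_102_s1 t 1 1 1 = true :=
  ⟨(a (l 3) (b (a (l 3) (b (a (l 3) (a (l 3) (b (b (l 14) (l 3)) (l 3)))) (l 3))) (l 3))), by decide +kernel⟩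

theorem c_B04mm_102_s1 : CertF 536870912 536870912 1073741824 536870912 858993459 64424510 false false false .npp 1 0 2
    ndB0q1 ndB4q2 pcB0 cut_B04mm_102_s1 Ext.none :=
  certF1 (fam := false) (s1 := false) (s2 := false) (a := 1) (b := 0) (c := 2) (cn := .npp) (n1 := ndB0q1) (n2 := ndB4q2) (pc := pcB0) (cut := cut_B04mm_102_s1) (xt := Ext.none) (P1 := 536870912) (W1 := 536870912) (P2 := 1073741824) (W2 := 536870912) (P3 := 858993459) (W3 := 64424510)
    rfl (fun _ => rfl) k0_B04mm_102_s1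

theorem s_B04mm_102_s1 {κ x : ℝ} (hκ : κ * h0 = ken x) (hx : ((858993459 : ℕ) : ℝ) / S ≤ x)
    (hx' : x ≤ (((858993459 : ℕ) : ℝ) + (64424510 : ℕ)) / S)
    (H : CutB (VFD κ) PP tK tL pcB (Cut.of [[⟨0, 1, 0, 67108864⟩, ⟨1, 0, 0, 67108864⟩, ⟨2, 1, 0, 67108864⟩]]) 1 0 2 0 4 (sgb false) (sgb false) x) :
    AltB (VFD κ) PP tK tL pcB [⟨3, 0, 0, 1449551462⟩] 1 0 2 0 4 (sgb false) (sgb false) x :=
  strip_altBD (m := 1449551462) true rfl hκ (SH.κ0 hκ (SH.hx1 hx).le (SH.hx2 hx').le) (SH.hx1 hx).le (SH.hx2 hx') (covB01).cov (covB42).cov hx hx' c_B04mm_102_s1 H (noExt_B)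

noncomputable def cut_B04mm_112_s1 : Cut := Cut.of [[⟨4, 0, 0, 1449551462⟩]]

noncomputable def f_B04mm_112_s1 : ℕ → ℕ → ℕ → ℕ → Bool := onCell 536870912 536870912 1073741824 536870912 858993459 64424510
    (rowF 2 false false false .dn 1 1 2 (qsf 536870912 536870912 1073741824 536870912 1) ndB0q1 ndB4q2 pcB1 cut_B04mm_112_s1 Ext.none)

def k0_B04mm_112_s1 : ∃ t, chk3 f_B04mm_112_s1 t 1 1 1 = true :=
  ⟨(a (l 3) (l 5)), by decide +kernel⟩

theorem c_B04mm_112_s1 : CertF 536870912 536870912 1073741824 536870912 858993459 64424510 false false false .dn 1 1 2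
    ndB0q1 ndB4q2 pcB1 cut_B04mm_112_s1 Ext.none :=
  certF2 (fam := false) (s1 := false) (s2 := false) (a := 1) (b := 1) (c := 2) (cn := .dn) (n1 := ndB0q1) (n2 := ndB4q2) (pc := pcB1) (cut := cut_B04mm_112_s1) (xt := Ext.none) (P1 := 536870912) (W1 := 536870912) (P2 := 1073741824) (W2 := 536870912) (P3 := 858993459) (W3 := 64424510)
    rfl (fun _ => rfl) k0_B04mm_112_s1

theorem s_B04mm_112_s1 {κ x : ℝ} (hκ : κ * h0 = ken x) (hx : ((858993459 : ℕ) : ℝ) / S ≤ x)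
    (hx' : x ≤ (((858993459 : ℕ) : ℝ) + (64424510 : ℕ)) / S) :
    AltB (VFD κ) PP tK tL pcB [⟨3, 0, 0, 1449551462⟩] 1 1 2 0 4 (sgb false) (sgb false) x :=
  strip_altBD (m := 1449551462) true rfl hκ (SH.κ0 hκ (SH.hx1 hx).le (SH.hx2 hx').le) (SH.hx1 hx).le (SH.hx2 hx') (covB01).cov (covB42).cov hx hx' c_B04mm_112_s1 cutB_nil (noExt_B)

noncomputable def cut_B04mm_113_s1 : Cut := Cut.of [[⟨4, 0, 0, 1449551462⟩]]

noncomputable def f_B04mm_113_s1 : ℕ → ℕ → ℕ → ℕ → Bool := onCell 536870912 536870912 0 1230186008 858993459 64424510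
    (rowF 0 false false false .nn 1 1 3 (qsf 536870912 536870912 0 1230186008 1) ndB0q1 ndB4q3 pcB1 cut_B04mm_113_s1 Ext.none)

def k0_B04mm_113_s1 : ∃ t, chk3 f_B04mm_113_s1 t 1 1 1 = true :=
  ⟨(b (l 5) (a (l 5) (b (a (l 5) (l 3)) (l 3)))), by decide +kernel⟩

theorem c_B04mm_113_s1 : CertF 536870912 536870912 0 1230186008 858993459 64424510 false false false .nn 1 1 3
    ndB0q1 ndB4q3 pcB1 cut_B04mm_113_s1 Ext.none :=
  certF0 (fam := false) (s1 := false) (s2 := false) (a := 1) (b := 1) (c := 3) (cn := .nn) (n1 := ndB0q1) (n2 := ndB4q3) (pc := pcB1) (cut := cut_B04mm_113_s1) (xt := Ext.none) (P1 := 536870912) (W1 := 536870912) (P2 := 0) (W2 := 1230186008) (P3 := 858993459) (W3 := 64424510)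
    rfl k0_B04mm_113_s1

theorem s_B04mm_113_s1 {κ x : ℝ} (hκ : κ * h0 = ken x) (hx : ((858993459 : ℕ) : ℝ) / S ≤ x)
    (hx' : x ≤ (((858993459 : ℕ) : ℝ) + (64424510 : ℕ)) / S) :
    AltB (VFD κ) PP tK tL pcB [⟨3, 0, 0, 1449551462⟩] 1 1 3 0 4 (sgb false) (sgb false) x :=
  strip_altBD (m := 1449551462) true rfl hκ (SH.κ0 hκ (SH.hx1 hx).le (SH.hx2 hx').le) (SH.hx1 hx).le (SH.hx2 hx') (covB01).cov (covB43).cov hx hx' c_B04mm_113_s1 cutB_nil (noExt_B)

noncomputable def cut_B04mm_123_s1 : Cut := Cut.of [[⟨4, 0, 0, 1449551462⟩]]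

noncomputable def f_B04mm_123_s1 : ℕ → ℕ → ℕ → ℕ → Bool := onCell 1073741824 536870912 0 1230186008 858993459 64424510
    (rowF 2 false false false .npn 1 2 3 (qsf 536870912 536870912 0 1230186008 2) ndB0q1 ndB4q3 pcB2 cut_B04mm_123_s1 Ext.none)

def k0_B04mm_123_s1 : ∃ t, chk3 f_B04mm_123_s1 t 1 1 1 = true :=
  ⟨(b (l 5) (l 5)), by decide +kernel⟩

theorem c_B04mm_123_s1 : CertF 536870912 536870912 0 1230186008 858993459 64424510 false false false .npn 1 2 3
    ndB0q1 ndB4q3 pcB2 cut_B04mm_123_s1 Ext.none :=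
  certF2 (fam := false) (s1 := false) (s2 := false) (a := 1) (b := 2) (c := 3) (cn := .npn) (n1 := ndB0q1) (n2 := ndB4q3) (pc := pcB2) (cut := cut_B04mm_123_s1) (xt := Ext.none) (P1 := 536870912) (W1 := 536870912) (P2 := 0) (W2 := 1230186008) (P3 := 858993459) (W3 := 64424510)
    rfl (fun _ => rfl) k0_B04mm_123_s1

theorem s_B04mm_123_s1 {κ x : ℝ} (hκ : κ * h0 = ken x) (hx : ((858993459 : ℕ) : ℝ) / S ≤ x)
    (hx' : x ≤ (((858993459 : ℕ) : ℝ) + (64424510 : ℕ)) / S) :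
    AltB (VFD κ) PP tK tL pcB [⟨3, 0, 0, 1449551462⟩] 1 2 3 0 4 (sgb false) (sgb false) x :=
  strip_altBD (m := 1449551462) true rfl hκ (SH.κ0 hκ (SH.hx1 hx).le (SH.hx2 hx').le) (SH.hx1 hx).le (SH.hx2 hx') (covB01).cov (covB43).cov hx hx' c_B04mm_123_s1 cutB_nil (noExt_B)

noncomputable def cut_B04mm_133_s1 : Cut := Cut.of [[⟨4, 0, 0, 1449551462⟩]]

noncomputable def f_B04mm_133_s1 : ℕ → ℕ → ℕ → ℕ → Bool := onCell 1610612736 536870912 0 1230186008 858993459 64424510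
    (rowF 2 false false false .dn 1 3 3 (qsf 536870912 536870912 0 1230186008 3) ndB0q1 ndB4q3 pcB3 cut_B04mm_133_s1 Ext.none)

def k0_B04mm_133_s1 : ∃ t, chk3 f_B04mm_133_s1 t 1 1 1 = true :=
  ⟨(l 5), by decide +kernel⟩

theorem c_B04mm_133_s1 : CertF 536870912 536870912 0 1230186008 858993459 64424510 false false false .dn 1 3 3
    ndB0q1 ndB4q3 pcB3 cut_B04mm_133_s1 Ext.none :=
  certF2 (fam := false) (s1 := false) (s2 := false) (a := 1) (b := 3) (c := 3) (cn := .dn) (n1 := ndB0q1) (n2 := ndB4q3) (pc := pcB3) (cut := cut_B04mm_133_s1) (xt := Ext.none) (P1 := 536870912) (W1 := 536870912) (P2 := 0) (W2 := 1230186008) (P3 := 858993459) (W3 := 64424510)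
    rfl (fun _ => rfl) k0_B04mm_133_s1

theorem s_B04mm_133_s1 {κ x : ℝ} (hκ : κ * h0 = ken x) (hx : ((858993459 : ℕ) : ℝ) / S ≤ x)
    (hx' : x ≤ (((858993459 : ℕ) : ℝ) + (64424510 : ℕ)) / S) :
    AltB (VFD κ) PP tK tL pcB [⟨3, 0, 0, 1449551462⟩] 1 3 3 0 4 (sgb false) (sgb false) x :=
  strip_altBD (m := 1449551462) true rfl hκ (SH.κ0 hκ (SH.hx1 hx).le (SH.hx2 hx').le) (SH.hx1 hx).le (SH.hx2 hx') (covB01).cov (covB43).cov hx hx' c_B04mm_133_s1 cutB_nil (noExt_B)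

noncomputable def cut_B04mm_202_s1 : Cut := Cut.of [[⟨4, 0, 0, 1449551462⟩], [⟨0, 1, 0, 67108864⟩, ⟨1, 0, 0, 67108864⟩, ⟨2, 1, 0, 67108864⟩]]

noncomputable def xt_B04mm_202_s1 : Ext := strExt dd false false false .u2 .s2m .u0m .pp 2 0 2 rfl rfl gf0 vv ndB0q2 ndB4q2

noncomputable def f_B04mm_202_s1 : ℕ → ℕ → ℕ → ℕ → Bool := onCell 0 536870912 0 536870912 858993459 64424510
    (rowF 1 false false false .pp 2 0 2 (qsf 0 536870912 1073741824 536870912 0) ndB0q2 ndB4q2 pcB0 cut_B04mm_202_s1 xt_B04mm_202_s1)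

def k0_B04mm_202_s1 : ∃ t, chk3 f_B04mm_202_s1 t 2 1 1 = true :=
  ⟨(b (a (a (l 6) (b (l 6) (b (l 6) (b (l 16487728) (l 16538480))))) (b (a (a (l 6) (b (l 6) (l 6))) (b (b (l 6) (b (l 16413728) (a (l 6) (l 16484936)))) (b (b (l 16471616) (l 16475960)) (b (l 16482704) (l 16330592))))) (b (a (b (b (l 16432912) (l 16465432)) (l 16512368)) (b (b (l 16528544) (l 16560856)) (b (l 16591672) (l 16619344)))) (a (b (l 16568952) (b (l 16606280) (l 16626184))) (a (b (l 16633512) (b (l 16651904) (l 16662872))) (b (l 16660992) (l 16687736))))))) (b (a (b (a (b (l 6) (l 16557392)) (b (l 16585328) (a (l 16610808) (l 16633504)))) (b (a (l 16518872) (a (l 16631448) (l 16650000))) (a (a (l 16621744) (l 16630600)) (l 16663800)))) (a (b (b (a (l 16635736) (l 16653560)) (l 16666840)) (b (c (l 16777896) (l 16779752)) (a (l 294305742599) (a (l 179952433127) (l 532446223))))) (b (a (b (l 16684568) (b (l 16706336) (l 16721120))) (b (l 532260111)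 (l 532174095))) (a (b (b (l 16767544) (l 532314127)) (a (l 532309007) (l 532159759))) (b (l 532071439) (c (l 531890447) (l 532034063))))))) (a (l 2) (a (l 2) (a (l 2) (l 3)))))), by decide +kernel⟩

def k1_B04mm_202_s1 : ∃ t, chk3 f_B04mm_202_s1 t 6 2 1 = true :=
  ⟨(b (a (b (b (b (l 16426232) (a (l 16455808) (l 16508888))) (b (l 16620728) (l 16547424))) (b (b (l 16557912) (l 16564464)) (b (l 16579632) (l 16602552)))) (b (b (a (b (l 16600144) (l 16555872)) (b (l 16479648) (l 16597984))) (a (l 16595912) (a (l 16627848) (l 16649896)))) (b (a (b (l 16623496) (l 16638472)) (b (l 16670800) (a (l 16679944) (l 16690136)))) (a (b (l 16661368) (a (l 16672944) (l 16730040))) (a (b (l 16691080) (l 16706712)) (b (l 16705856) (l 16724808))))))) (a (b (a (b (b (l 16606768) (l 16638552)) (b (l 16662512) (l 16669544))) (b (b (l 16659488) (l 16677040)) (b (l 16688760) (l 16703424)))) (b (a (l 16691472) (b (l 16760464) (b (l 16729968) (l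 16758672)))) (a (l 532060687) (l 531771919)))) (b (a (b (b (l 16737704) (l 16751624)) (a (b (l 16714952) (l 16730120)) (b (l 16733240) (a (l 16743960) (l 531515919))))) (b (a (b (l 16722120) (l 16757832)) (b (c (l 16739896) (l 16741088)) (a (l 531474703) (l 531393295)))) (a (b (b (l 16769144) (l 531448079)) (b (l 531413775) (l 531383567))) (b (c (l 531232527) (l 531426063)) (a (l 531282959) (l 3)))))) (a (b (a (b (c (l 16766328) (l 16746008)) (l 531605519)) (b (c (l 531446287) (l 531565839)) (a (l 531491599) (l 531413775)))) (a (l 531545615) (l 3))) (b (a (b (l 531344143) (l 3)) (l 3)) (l 3)))))), by decide +kernel⟩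

def k2_B04mm_202_s1 : ∃ t, chk3 f_B04mm_202_s1 t 7 2 1 = true :=
  ⟨(b (a (b (b (a (b (l 16609592) (l 16641896)) (b (a (l 16643400) (l 16709456)) (c (l 16728032) (l 16752504)))) (b (a (l 16670576) (a (l 16704720) (b (l 16719320) (a (l 16716632) (l 16725808))))) (a (a (l 16685136) (b (l 16696048) (l 16697360))) (a (b (l 16708800) (l 16715616)) (a (b (l 16722928) (l 16732024)) (l 530105359)))))) (b (a (a (b (l 16690632) (l 16706480)) (b (b (l 16703216) (l 16711448)) (l 16757744))) (a (a (b (l 16723344) (l 530567183)) (b (l 530340111) (l 530519055))) (a (b (l 530288655) (l 530466831)) (b (l 530231567) (l 530409231))))) (a (a (b (l 16725176) (l 531351567)) (b (a (l 16761208) (l 530840079)) (a (l 531208975) (l 531215887)))) (a (b (a (l 530795791) (l 530747407)) (a (l 531053839) (l 531532047))) (b (a (l 530694671) (l 3)) (l 3)))))) (b (b (a (a (b (l 14) (b (l 14) (b (l 16729584) (l 16731192)))) (l 14)) (l 14)) (a (a (b (a (b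 (l 16729376) (l 16736648)) (b (a (l 16736688) (l 16742192)) (l 529902351))) (a (b (l 16767160) (l 530061839)) (a (l 529996047) (l 529960463)))) (a (b (a (l 529852943) (l 529813519)) (a (l 529923087) (l 529883919))) (a (b (l 529772047) (l 529842703)) (b (b (l 14) (l 529728015)) (l 3))))) (b (a (a (b (l 14) (a (l 529681423) (l 3))) (l 3)) (l 3)) (l 3)))) (b (a (a (a (b (l 530168591) (l 530346255)) (b (a (l 530121999) (l 530086671)) (l 3))) (l 3)) (l 3)) (l 3)))) (b (a (a (b (a (b (l 531341839) (l 531253263)) (b (l 531162895) (l 531073039))) (a (b (a (l 531190799) (l 3)) (l 3)) (l 3))) (l 3)) (l 3)) (l 3))), by decide +kernel⟩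

def k3_B04mm_202_s1 : ∃ t, chk3 f_B04mm_202_s1 t 3 3 1 = true :=
  ⟨(a (b (a (b (a (b (l 531982095) (l 531894031)) (b (l 531690511) (l 3))) (l 3)) (l 3)) (l 3)) (l 3)), by decide +kernel⟩

theorem t4_B04mm_202_s1 : ∃ t, chk3 f_B04mm_202_s1 t 3 2 1 = true := ex3_a k1_B04mm_202_s1 k2_B04mm_202_s1

theorem t5_B04mm_202_s1 : ∃ t, chk3 f_B04mm_202_s1 t 3 1 1 = true := ex3_b t4_B04mm_202_s1 k3_B04mm_202_s1

theorem t6_B04mm_202_s1 : ∃ t, chk3 f_B04mm_202_s1 t 1 1 1 = true := ex3_a k0_B04mm_202_s1 t5_B04mm_202_s1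

theorem c_B04mm_202_s1 : CertF 0 536870912 1073741824 536870912 858993459 64424510 false false false .pp 2 0 2
    ndB0q2 ndB4q2 pcB0 cut_B04mm_202_s1 xt_B04mm_202_s1 :=
  certF1 (fam := false) (s1 := false) (s2 := false) (a := 2) (b := 0) (c := 2) (cn := .pp) (n1 := ndB0q2) (n2 := ndB4q2) (pc := pcB0) (cut := cut_B04mm_202_s1) (xt := xt_B04mm_202_s1) (P1 := 0) (W1 := 536870912) (P2 := 1073741824) (W2 := 536870912) (P3 := 858993459) (W3 := 64424510)
    rfl (fun _ => rfl) t6_B04mm_202_s1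

theorem s_B04mm_202_s1 {κ x : ℝ} (hκ : κ * h0 = ken x) (hx : ((858993459 : ℕ) : ℝ) / S ≤ x)
    (hx' : x ≤ (((858993459 : ℕ) : ℝ) + (64424510 : ℕ)) / S)
    (H : CutB (VFD κ) PP tK tL pcB (Cut.of [[⟨0, 1, 0, 67108864⟩, ⟨1, 0, 0, 67108864⟩, ⟨2, 1, 0, 67108864⟩]]) 2 0 2 0 4 (sgb false) (sgb false) x) :
    AltB (VFD κ) PP tK tL pcB [⟨3, 0, 0, 1449551462⟩] 2 0 2 0 4 (sgb false) (sgb false) x :=
  strip_altBD (m := 1449551462) true rfl hκ (SH.κ0 hκ (SH.hx1 hx).le (SH.hx2 hx').le) (SH.hx1 hx).le (SH.hx2 hx') (covB02).cov (covB42).cov hx hx' c_B04mm_202_s1 H ((okx hx hx').extB (T := tt) (sideB hx hx') hκ rfl rfl (.O 2 false) (.N 2 false) (Or.inl rfl))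

noncomputable def cut_B04mm_203_s1 : Cut := Cut.of [[⟨4, 0, 0, 1449551462⟩]]

noncomputable def xt_B04mm_203_s1 : Ext := strExt dd false false false .u2 .s2m .u0m .up 2 0 3 rfl rfl gf0 vv ndB0q2 ndB4q3

noncomputable def f_B04mm_203_s1 : ℕ → ℕ → ℕ → ℕ → Bool := onCell 0 536870912 0 1230186008 858993459 64424510
    (rowF 0 false false false .up 2 0 3 (qsf 0 536870912 0 1230186008 0) ndB0q2 ndB4q3 pcB0 cut_B04mm_203_s1 xt_B04mm_203_s1)

def k0_B04mm_203_s1 : ∃ t, chk3 f_B04mm_203_s1 t 1 1 1 = true :=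
  ⟨(b (l 2) (b (l 2) (a (c (a (b (b (l 2) (a (l 533589519) (b (l 2) (a (l 533335311) (l 3))))) (b (a (b (l 16700928) (l 16671448)) (a (b (b (l 533225487) (l 16739288)) (l 16716120)) (b (a (l 532946959) (l 532749071)) (c (l 532712719) (l 532869391))))) (b (a (l 16644968) (b (l 16772272) (l 16693360))) (a (l 16549992) (l 16669560))))) (b (l 3) (b (a (b (l 3) (a (b (l 532465423) (l 532464399)) (l 3))) (l 3)) (a (b (a (l 532479247) (l 532182287)) (a (l 532629007) (l 532328207))) (b (l 3) (a (l 532030479) (l 3))))))) (a (b (b (l 2) (a (l 533435919) (b (l 2) (a (l 532406287) (l 3))))) (b (a (b (l 16701904) (l 16675384)) (a (b (b (l 533287951) (l 16740856)) (l 16719840)) (b (a (l 533151247) (l 533063183)) (c (l 533042191) (l 533231375))))) (a (b (l 16650616) (a (l 16623624) (l 16636984))) (b (a (l 16690024) (l 16785008)) (l 16674152))))) (b (l 3) (b (a (b (l 3) (a (b (l 532882959) (l 532879631)) (l 3))) (l 3)) (a (b (a (l 532871439)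 (l 532595727)) (a (l 532864271) (l 532592911))) (b (l 3) (a (l 532304399) (l 3)))))))) (l 3)))), by decide +kernel⟩

theorem c_B04mm_203_s1 : CertF 0 536870912 0 1230186008 858993459 64424510 false false false .up 2 0 3
    ndB0q2 ndB4q3 pcB0 cut_B04mm_203_s1 xt_B04mm_203_s1 :=
  certF0 (fam := false) (s1 := false) (s2 := false) (a := 2) (b := 0) (c := 3) (cn := .up) (n1 := ndB0q2) (n2 := ndB4q3) (pc := pcB0) (cut := cut_B04mm_203_s1) (xt := xt_B04mm_203_s1) (P1 := 0) (W1 := 536870912) (P2 := 0) (W2 := 1230186008) (P3 := 858993459) (W3 := 64424510)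
    rfl k0_B04mm_203_s1

theorem s_B04mm_203_s1 {κ x : ℝ} (hκ : κ * h0 = ken x) (hx : ((858993459 : ℕ) : ℝ) / S ≤ x)
    (hx' : x ≤ (((858993459 : ℕ) : ℝ) + (64424510 : ℕ)) / S) :
    AltB (VFD κ) PP tK tL pcB [⟨3, 0, 0, 1449551462⟩] 2 0 3 0 4 (sgb false) (sgb false) x :=
  strip_altBD (m := 1449551462) true rfl hκ (SH.κ0 hκ (SH.hx1 hx).le (SH.hx2 hx').le) (SH.hx1 hx).le (SH.hx2 hx') (covB02).cov (covB43).cov hx hx' c_B04mm_203_s1 cutB_nil ((okx hx hx').extB (T := tt) (sideB hx hx') hκ rfl rfl (.O 2 false) (.N 3 false) (Or.inl rfl))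

noncomputable def cut_B04mm_213_s1 : Cut := Cut.of [[⟨4, 0, 0, 1449551462⟩]]

noncomputable def xt_B04mm_213_s1 : Ext := strExt dd false false false .u2 .s2m .u0m .pnn 2 1 3 rfl rfl gf1 vv ndB0q2 ndB4q3

noncomputable def f_B04mm_213_s1 : ℕ → ℕ → ℕ → ℕ → Bool := onCell 0 536870912 0 1230186008 858993459 64424510
    (rowF 0 false false false .pnn 2 1 3 (qsf 0 536870912 0 1230186008 1) ndB0q2 ndB4q3 pcB1 cut_B04mm_213_s1 xt_B04mm_213_s1)

def k0_B04mm_213_s1 : ∃ t, chk3 f_B04mm_213_s1 t 1 1 1 = true :=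
  ⟨(b (a (l 3) (b (l 5) (l 3))) (b (b (l 3) (a (a (l 3) (l 3)) (l 3))) (a (c (b (a (b (a (l 533878543) (l 3)) (a (b (l 533587471) (c (l 531367183) (l 534269967))) (b (a (a (l 533602831) (l 3)) (l 3)) (a (c (c (l 530492687) (l 532563215)) (l 534139407)) (l 3))))) (l 3)) (a (l 1) (b (a (l 1) (l 3)) (l 1)))) (b (a (b (a (c (l 533348367) (l 529691663)) (l 3)) (a (b (l 531820303) (c (l 533739279) (l 529945359))) (a (b (c (l 533293839) (l 529366543)) (c (l 533454095) (l 529548303))) (b (l 3) (l 3))))) (l 3)) (a (l 1) (b (a (l 1) (l 3)) (l 1))))) (l 3)))), by decide +kernel⟩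

theorem c_B04mm_213_s1 : CertF 0 536870912 0 1230186008 858993459 64424510 false false false .pnn 2 1 3
    ndB0q2 ndB4q3 pcB1 cut_B04mm_213_s1 xt_B04mm_213_s1 :=
  certF0 (fam := false) (s1 := false) (s2 := false) (a := 2) (b := 1) (c := 3) (cn := .pnn) (n1 := ndB0q2) (n2 := ndB4q3) (pc := pcB1) (cut := cut_B04mm_213_s1) (xt := xt_B04mm_213_s1) (P1 := 0) (W1 := 536870912) (P2 := 0) (W2 := 1230186008) (P3 := 858993459) (W3 := 64424510)
    rfl k0_B04mm_213_s1

theorem s_B04mm_213_s1 {κ x : ℝ} (hκ : κ * h0 = ken x) (hx : ((858993459 : ℕ) : ℝ) / S ≤ x)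
    (hx' : x ≤ (((858993459 : ℕ) : ℝ) + (64424510 : ℕ)) / S) :
    AltB (VFD κ) PP tK tL pcB [⟨3, 0, 0, 1449551462⟩] 2 1 3 0 4 (sgb false) (sgb false) x :=
  strip_altBD (m := 1449551462) true rfl hκ (SH.κ0 hκ (SH.hx1 hx).le (SH.hx2 hx').le) (SH.hx1 hx).le (SH.hx2 hx') (covB02).cov (covB43).cov hx hx' c_B04mm_213_s1 cutB_nil ((okx hx hx').extB (T := tt) (sideB hx hx') hκ rfl rfl (.O 2 false) (.N 3 false) (Or.inr rfl))

noncomputable def cut_B40pp_001_s1 : Cut := Cut.of [[⟨4, 0, 0, 1449551462⟩]]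

noncomputable def xt_B40pp_001_s1 : Ext := strExt dd false true true .s0 .u0 .u0m .up 0 0 1 rfl rfl gf0 vv ndB4q0 ndB0q1

noncomputable def f_B40pp_001_s1 : ℕ → ℕ → ℕ → ℕ → Bool := onCell 0 536870912 536870912 536870912 858993459 64424510
    (rowF 2 false true true .up 0 0 1 (qsf 0 536870912 536870912 536870912 0) ndB4q0 ndB0q1 pcB0 cut_B40pp_001_s1 xt_B40pp_001_s1)

def k0_B40pp_001_s1 : ∃ t, chk3 f_B40pp_001_s1 t 1 1 1 = true :=
  ⟨(a (b (l 3) (b (b (l 3) (l 2)) (l 2))) (a (b (l 3) (b (b (a (b (l 3) (l 528166927)) (b (a (l 3) (l 527971343)) (a (l 528314639) (l 528401167)))) (a (l 530126863) (a (l 528946191) (l 529034511)))) (b (b (a (l 2) (a (l 2) (l 16580016))) (l 2)) (l 2)))) (b (b (l 3) (b (a (l 3) (a (b (l 3) (a (l 3) (l 528224015))) (c (b (b (l 3) (l 529460751)) (l 529081103)) (b (l 527344655) (l 527916047))))) (a (a (b (l 3) (l 527844623)) (b (b (l 3) (l 527923727)) (c (l 527646479) (l 528420367)))) (a (b (c (c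 (l 527981839) (l 528133903)) (l 528403727)) (c (l 528052495) (l 528600591))) (b (c (a (l 528549391) (l 528903183)) (l 528406543)) (a (c (l 16769280) (l 16688240)) (l 528695055))))))) (a (b (b (b (a (l 528163599) (l 528322319)) (a (l 528515087) (l 528642831))) (a (b (l 528924431) (l 16593968)) (b (l 16605672) (l 16556264)))) (b (b (a (l 16543136) (l 16506400)) (l 77409829031)) (b (a (l 2) (l 16495304)) (l 2)))) (a (b (b (b (a (l 528480271) (l 16698624)) (l 16700744)) (b (l 16567936) (l 16519184))) (b (b (l 16470008) (l 16421264)) (b (l 16372248) (l 6)))) (b (b (b (c (l 16626912) (l 16631536)) (l 16580016)) (b (l 16531432) (l 16483056))) (b (b (l 16434384) (l 16386456)) (l 6)))))))), by decide +kernel⟩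

theorem c_B40pp_001_s1 : CertF 0 536870912 536870912 536870912 858993459 64424510 false true true .up 0 0 1
    ndB4q0 ndB0q1 pcB0 cut_B40pp_001_s1 xt_B40pp_001_s1 :=
  certF2 (fam := false) (s1 := true) (s2 := true) (a := 0) (b := 0) (c := 1) (cn := .up) (n1 := ndB4q0) (n2 := ndB0q1) (pc := pcB0) (cut := cut_B40pp_001_s1) (xt := xt_B40pp_001_s1) (P1 := 0) (W1 := 536870912) (P2 := 536870912) (W2 := 536870912) (P3 := 858993459) (W3 := 64424510)
    rfl (fun _ => rfl) k0_B40pp_001_s1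

theorem s_B40pp_001_s1 {κ x : ℝ} (hκ : κ * h0 = ken x) (hx : ((858993459 : ℕ) : ℝ) / S ≤ x)
    (hx' : x ≤ (((858993459 : ℕ) : ℝ) + (64424510 : ℕ)) / S) :
    AltB (VFD κ) PP tK tL pcB [⟨3, 0, 0, 1449551462⟩] 0 0 1 4 0 (sgb true) (sgb true) x :=
  strip_altBD (m := 1449551462) true rfl hκ (SH.κ0 hκ (SH.hx1 hx).le (SH.hx2 hx').le) (SH.hx1 hx).le (SH.hx2 hx') (covB40).cov (covB01).cov hx hx' c_B40pp_001_s1 cutB_nil ((okx hx hx').extB (T := tt) (sideB hx hx') hκ rfl rfl (.N 0 true) (.O 1 true) (Or.inl rfl))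

noncomputable def cut_B40pp_011_s1 : Cut := Cut.of [[⟨4, 0, 0, 1449551462⟩]]

noncomputable def xt_B40pp_011_s1 : Ext := strExt dd false true true .s0 .u0 .u0m .pnn 0 1 1 rfl rfl gf1 vv ndB4q0 ndB0q1

noncomputable def f_B40pp_011_s1 : ℕ → ℕ → ℕ → ℕ → Bool := onCell 536870912 536870912 536870912 536870912 858993459 64424510
    (rowF 2 false true true .pnn 0 1 1 (qsf 0 536870912 536870912 536870912 1) ndB4q0 ndB0q1 pcB1 cut_B40pp_011_s1 xt_B40pp_011_s1)

def k0_B40pp_011_s1 : ∃ t, chk3 f_B40pp_011_s1 t 4 2 1 = true :=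
  ⟨(b (b (a (l 3) (a (a (l 3) (l 1)) (l 1))) (a (c (a (l 524088335) (l 524708623)) (c (l 528334607) (l 531365903))) (c (a (l 523611663) (c (l 524862479) (l 526686223))) (c (l 528753935) (l 530110735))))) (b (a (b (c (a (l 524003343) (l 524784143)) (l 528873743)) (c (a (c (a (l 522747407) (l 523237135)) (l 525621007)) (c (l 523826191) (l 525806607))) (a (c (l 527990543) (l 531541519)) (l 529057807)))) (c (b (a (l 525338895) (l 525698831)) (b (a (l 525325839) (l 525768207)) (a (l 525167631) (l 525692431)))) (c (b (l 528940303) (l 529037583)) (c (l 529555727) (l 532237839))))) (a (a (b (c (b (a (l 524110607) (l 524405263)) (c (l 522879247) (l 525654543))) (c (l 526704399) (l 531724815))) (c (c (l 522901007) (l 525768719)) (c (l 528571407) (l 531554319)))) (b (b (c (l 524697103) (l 530341647)) (c (l 524713487) (l 530440463))) (c (c (l 523512079) (l 526110991)) (l 530508815)))) (b (c (c (a (l 523846159) (l 524372239)) (l 526304015))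 (c (l 528926479) (l 531683599))) (c (a (b (l 525052175) (l 525148431)) (b (l 525211151) (l 525322255))) (c (l 527075343) (a (l 16644928) (l 16617072)))))))), by decide +kernel⟩

def k1_B40pp_011_s1 : ∃ t, chk3 f_B40pp_011_s1 t 4 3 1 = true :=
  ⟨(b (c (b (b (a (a (c (l 523165199) (l 526054159)) (c (l 523502607) (l 16478048))) (a (b (l 525294351) (l 525468943)) (c (l 16289856) (l 16376976)))) (a (a (c (l 523839247) (l 16460320)) (a (l 525364751) (l 525555215))) (a (l 525768719) (l 525953039)))) (a (c (b (a (c (l 16263864) (l 16316192)) (l 16328208)) (a (l 16455864) (l 16163376))) (a (b (l 16396896) (l 16333016)) (b (l 16356336) (l 16295800)))) (a (b (c (l 16196104) (l 16311824)) (c (l 16119712) (l 16254224))) (b (l 526411535) (c (l 16072448) (l 16207744)))))) (b (b (a (a (l 530286607) (c (l 16548488) (l 16627288))) (c (l 528647183) (l 531089167))) (a (a (l 530204431) (l 16381136)) (c (l 16350392) (l 16466168)))) (b (a (a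 (l 16355480) (l 16413768)) (a (l 16469752) (l 16434744))) (a (a (l 16382256) (l 16441448)) (c (l 16345080) (l 16433040)))))) (b (b (a (c (c (a (c (l 16078160) (l 16152712)) (l 15995320)) (a (l 16267672) (l 16234088))) (a (l 16404008) (l 16379976))) (l 6)) (a (a (b (c (c (l 16046016) (l 16217992)) (l 16354744)) (l 6)) (l 6)) (l 6))) (l 6))), by decide +kernel⟩

def k2_B40pp_011_s1 : ∃ t, chk3 f_B40pp_011_s1 t 5 1 1 = true :=
  ⟨(b (b (a (b (l 1) (a (c (l 527622671) (l 529686799)) (l 1))) (l 1)) (a (a (b (c (b (l 526035983) (l 526034959)) (b (l 529959183) (l 530139663))) (b (c (c (l 524930831) (l 16464456)) (l 528668687)) (c (c (l 16311560) (l 16390008)) (l 16359800)))) (b (c (b (c (l 525802767) (l 16749720)) (c (l 525551887) (l 16479744))) (c (l 528894223) (l 530775311))) (c (b (c (l 16269552) (l 16416480)) (c (l 16266712) (l 16345960))) (b (c (l 16487392) (l 16566304)) (l 16316160))))) (c (a (b (a (b (l 1) (l 16379952))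 (l 1)) (b (a (l 16344776) (l 16237472)) (c (l 16216016) (l 16294744)))) (b (l 1) (b (c (l 16266472) (l 16322544)) (c (l 16169160) (l 16242712))))) (a (b (b (l 1) (l 325913008119)) (b (a (l 16488016) (l 16461400)) (l 16263776))) (b (l 1) (b (l 16170104) (l 16287448))))))) (b (a (a (b (b (c (c (l 16230336) (l 16320752)) (l 16392672)) (c (c (l 16158528) (l 16263664)) (l 16424816))) (b (c (l 16232696) (l 16385064)) (l 6))) (b (c (b (c (l 16167864) (l 16264272)) (l 16149464)) (b (l 16349496) (l 16373640))) (l 6))) (b (c (a (b (c (l 16124840) (l 16218488)) (l 16083128)) (b (l 16119768) (l 6))) (c (a (l 16289008) (l 16231936)) (a (l 16417840) (l 16351736)))) (l 6))) (l 6))), by decide +kernel⟩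

def k3_B40pp_011_s1 : ∃ t, chk3 f_B40pp_011_s1 t 3 1 1 = true :=
  ⟨(b (b (l 1) (b (l 1) (b (l 1) (b (l 1) (a (b (l 1) (l 6)) (l 1)))))) (a (b (a (l 6) (l 6)) (l 6)) (l 6))), by decide +kernel⟩

theorem t4_B40pp_011_s1 : ∃ t, chk3 f_B40pp_011_s1 t 4 1 1 = true := ex3_b k0_B40pp_011_s1 k1_B40pp_011_s1

theorem t5_B40pp_011_s1 : ∃ t, chk3 f_B40pp_011_s1 t 2 1 1 = true := ex3_a t4_B40pp_011_s1 k2_B40pp_011_s1

theorem t6_B40pp_011_s1 : ∃ t, chk3 f_B40pp_011_s1 t 1 1 1 = true := ex3_a t5_B40pp_011_s1 k3_B40pp_011_s1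

theorem c_B40pp_011_s1 : CertF 0 536870912 536870912 536870912 858993459 64424510 false true true .pnn 0 1 1
    ndB4q0 ndB0q1 pcB1 cut_B40pp_011_s1 xt_B40pp_011_s1 :=
  certF2 (fam := false) (s1 := true) (s2 := true) (a := 0) (b := 1) (c := 1) (cn := .pnn) (n1 := ndB4q0) (n2 := ndB0q1) (pc := pcB1) (cut := cut_B40pp_011_s1) (xt := xt_B40pp_011_s1) (P1 := 0) (W1 := 536870912) (P2 := 536870912) (W2 := 536870912) (P3 := 858993459) (W3 := 64424510)
    rfl (fun _ => rfl) t6_B40pp_011_s1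

theorem s_B40pp_011_s1 {κ x : ℝ} (hκ : κ * h0 = ken x) (hx : ((858993459 : ℕ) : ℝ) / S ≤ x)
    (hx' : x ≤ (((858993459 : ℕ) : ℝ) + (64424510 : ℕ)) / S) :
    AltB (VFD κ) PP tK tL pcB [⟨3, 0, 0, 1449551462⟩] 0 1 1 4 0 (sgb true) (sgb true) x :=
  strip_altBD (m := 1449551462) true rfl hκ (SH.κ0 hκ (SH.hx1 hx).le (SH.hx2 hx').le) (SH.hx1 hx).le (SH.hx2 hx') (covB40).cov (covB01).cov hx hx' c_B40pp_011_s1 cutB_nil ((okx hx hx').extB (T := tt) (sideB hx hx') hκ rfl rfl (.N 0 true) (.O 1 true) (Or.inr rfl))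

noncomputable def cut_B40pp_012_s1 : Cut := Cut.of [[⟨4, 0, 0, 1449551462⟩]]

noncomputable def f_B40pp_012_s1 : ℕ → ℕ → ℕ → ℕ → Bool := onCell 0 536870912 0 536870912 858993459 64424510
    (rowF 0 false true true .pnp 0 1 2 (qsf 0 536870912 0 536870912 1) ndB4q0 ndB0q2 pcB1 cut_B40pp_012_s1 Ext.none)

def k0_B40pp_012_s1 : ∃ t, chk3 f_B40pp_012_s1 t 1 1 1 = true :=
  ⟨(a (l 6) (l 6)), by decide +kernel⟩

theorem c_B40pp_012_s1 : CertF 0 536870912 0 536870912 858993459 64424510 false true true .pnp 0 1 2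
    ndB4q0 ndB0q2 pcB1 cut_B40pp_012_s1 Ext.none :=
  certF0 (fam := false) (s1 := true) (s2 := true) (a := 0) (b := 1) (c := 2) (cn := .pnp) (n1 := ndB4q0) (n2 := ndB0q2) (pc := pcB1) (cut := cut_B40pp_012_s1) (xt := Ext.none) (P1 := 0) (W1 := 536870912) (P2 := 0) (W2 := 536870912) (P3 := 858993459) (W3 := 64424510)
    rfl k0_B40pp_012_s1

theorem s_B40pp_012_s1 {κ x : ℝ} (hκ : κ * h0 = ken x) (hx : ((858993459 : ℕ) : ℝ) / S ≤ x)
    (hx' : x ≤ (((858993459 : ℕ) : ℝ) + (64424510 : ℕ)) / S) :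
    AltB (VFD κ) PP tK tL pcB [⟨3, 0, 0, 1449551462⟩] 0 1 2 4 0 (sgb true) (sgb true) x :=
  strip_altBD (m := 1449551462) true rfl hκ (SH.κ0 hκ (SH.hx1 hx).le (SH.hx2 hx').le) (SH.hx1 hx).le (SH.hx2 hx') (covB40).cov (covB02).cov hx hx' c_B40pp_012_s1 cutB_nil (noExt_B)

noncomputable def cut_B40pp_022_s1 : Cut := Cut.of [[⟨4, 0, 0, 1449551462⟩]]

noncomputable def f_B40pp_022_s1 : ℕ → ℕ → ℕ → ℕ → Bool := onCell 1073741824 536870912 0 536870912 858993459 64424510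
    (rowF 2 false true true .pp 0 2 2 (qsf 0 536870912 0 536870912 2) ndB4q0 ndB0q2 pcB2 cut_B40pp_022_s1 Ext.none)

def k0_B40pp_022_s1 : ∃ t, chk3 f_B40pp_022_s1 t 1 1 1 = true :=
  ⟨(l 6), by decide +kernel⟩

theorem c_B40pp_022_s1 : CertF 0 536870912 0 536870912 858993459 64424510 false true true .pp 0 2 2
    ndB4q0 ndB0q2 pcB2 cut_B40pp_022_s1 Ext.none :=
  certF2 (fam := false) (s1 := true) (s2 := true) (a := 0) (b := 2) (c := 2) (cn := .pp) (n1 := ndB4q0) (n2 := ndB0q2) (pc := pcB2) (cut := cut_B40pp_022_s1) (xt := Ext.none) (P1 := 0) (W1 := 536870912) (P2 := 0) (W2 := 536870912) (P3 := 858993459) (W3 := 64424510)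
    rfl (fun _ => rfl) k0_B40pp_022_s1

theorem s_B40pp_022_s1 {κ x : ℝ} (hκ : κ * h0 = ken x) (hx : ((858993459 : ℕ) : ℝ) / S ≤ x)
    (hx' : x ≤ (((858993459 : ℕ) : ℝ) + (64424510 : ℕ)) / S) :
    AltB (VFD κ) PP tK tL pcB [⟨3, 0, 0, 1449551462⟩] 0 2 2 4 0 (sgb true) (sgb true) x :=
  strip_altBD (m := 1449551462) true rfl hκ (SH.κ0 hκ (SH.hx1 hx).le (SH.hx2 hx').le) (SH.hx1 hx).le (SH.hx2 hx') (covB40).cov (covB02).cov hx hx' c_B40pp_022_s1 cutB_nil (noExt_B)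

end Pool.Agent.Strip051.G.I8000_8600.Tab.St.C
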