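import Pool.Agent.Strip051.G.I8000_8600.Tab
import Pool.Agent.Strip051.PB.StripB

/-! # Strips, near vertex: certificates 8 (generated) -/

set_option linter.all false
set_option maxRecDepth 100000

namespace Pool.Agent.Strip051.G.I8000_8600.Tab.CS.BA04

open Pool.Agent.Strip051.PB Pool.Agent.Strip051.PB.T
open Pool.Agent.Strip051.G.I8000_8600.Tab

noncomputable def cut_pm_012_s : Cut := Cut.of [[⟨4, 0, 0, 1449551462⟩], [⟨0, 0, 0, 67108864⟩, ⟨1, 1, 0, 67108864⟩, ⟨2, 1, 0, 67108864⟩]]

noncomputable def f_pm_012_s : ℕ → ℕ → ℕ → ℕ → Bool := onCell 1073741824 536870912 536870912 536870912 858993459 64424510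
    (rowNE 3 eng mog cd0q0 cd4q1 pd2 2 true true false .pnp 0 1 2 (qsf 0 536870912 536870912 536870912 2) ndB0q0 ndB4q1 pcB2 cut_pm_012_s Ext.none)

def k0_pm_012_s : ∃ t, chk3 f_pm_012_s t 4 2 1 = true :=
  ⟨(b (a (b (a (b (c (l 16060608) (l 16075504)) (c (l 16105336) (l 16121880))) (l 6)) (a (b (a (l 16162312) (l 16140688)) (c (l 16199920) (l 16198856))) (c (b (l 16076520) (l 16118824)) (b (l 16093392) (l 16131408))))) (l 6)) (a (b (a (b (a (l 16228672) (l 16236608)) (c (l 16327960) (l 16308416))) (c (b (l 16163496) (l 16209688)) (b (l 16169064) (l 16207792)))) (b (a (a (c (l 16251632) (l 16264200)) (l 16303296)) (c (l 16254952) (l 16247336))) (a (a (c (l 16254920) (l 16309016)) (c (l 16339096) (l 16348648))) (c (l 16382488) (l 16287792))))) (b (a (b (c (l 16012536) (l 16080368)) (l 16153288)) (l 6)) (a (c (b (l 16151072) (l 16186344)) (b (l 16135456) (l 16037784))) (b (c (l 16053080) (l 16033648)) (c (l 16080848) (l 16050736))))))), by decide +kernel⟩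

def k1_pm_012_s : ∃ t, chk3 f_pm_012_s t 4 6 1 = true :=
  ⟨(c (a (b (b (a (a (b (l 16380624) (l 16408104)) (l 16392552)) (l 16338384)) (a (a (b (l 16435272) (l 16419888)) (l 16446248)) (a (l 16406176) (l 16341648)))) (a (b (a (b (l 16424920) (a (l 16513632) (l 16513024))) (b (l 16485240) (l 16511000))) (a (a (b (l 16539560) (l 16545256)) (l 16557208)) (b (l 16534296) (l 16549024)))) (a (b (l 16439312) (b (l 16460832) (l 16431848))) (b (l 16371048) (b (l 16389776) (l 16400432)))))) (b (a (b (l 16219112) (a (l 16278592) (l 16217192))) (b (a (l 16133680) (l 16077976)) (a (l 16157608) (l 16098088)))) (a (b (a (l 16304632) (l 16239672)) (a (b (l 16320216) (l 16328800)) (b (l 16252592) (l 16259056)))) (a (b (l 16176792) (l 16273728)) (b (l 16113600) (l 16122984)))))) (a (b (a (b (a (l 16363816) (l 16400848)) (a (b (l 16423888) (l 16449216)) (l 16451264))) (b (l 16325792) (l 16361112))) (a (b (a (b (l 16474176) (l 16499536)) (l 16500176)) (a (a (b (l 16522968) (l 16551136)) (l 16542736))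 (b (l 16537584) (l 16552576)))) (b (a (l 16433272) (l 16271160)) (a (b (l 16434688) (l 16426112)) (b (l 16374200) (l 16384840)))))) (b (a (b (a (l 16224408) (l 16159536)) (a (l 16252600) (l 16183112))) (b (l 16067712) (l 16084648))) (a (b (a (l 16278408) (l 16204280)) (a (l 16299200) (l 16199824))) (b (a (l 16132560) (l 16066264)) (a (l 16165320) (l 16074152))))))), by decide +kernel⟩

def k2_pm_012_s : ∃ t, chk3 f_pm_012_s t 8 14 1 = true :=
  ⟨(c (a (b (b (a (a (b (l 16586600) (l 16600264)) (l 16591896)) (l 16562144)) (a (a (b (l 16592768) (l 16627056)) (l 16618976)) (a (l 16593192) (l 16553704)))) (a (a (b (b (l 16639992) (l 16652624)) (a (b (l 16665128) (l 16656288)) (l 16670936))) (b (l 16645232) (b (l 16654768) (l 16660888)))) (b (a (l 16604208) (l 16542400)) (a (c (l 16595024) (l 16592960)) (c (l 16574984) (l 16570664)))))) (b (a (b (l 16422344) (a (l 16514608) (l 16475944))) (b (l 16410216) (l 16418656))) (a (b (a (l 16523352) (l 16484032)) (a (l 16531704) (l 16470112)))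 (b (a (l 16445120) (l 16406656)) (c (l 16416544) (l 16404504)))))) (a (b (a (a (b (l 16538432) (b (l 16602376) (l 16616912))) (b (l 16585032) (l 16614280))) (b (l 16564008) (l 16551880))) (a (b (a (b (l 16610160) (l 16645136)) (l 16643072)) (a (a (b (l 16657552) (l 16671112)) (l 16667096)) (l 16658352))) (b (a (l 16603136) (l 16557712)) (a (l 16610600) (l 16563648))))) (b (a (b (l 16436120) (l 16422896)) (b (l 16393520) (l 16399896))) (a (b (a (l 16513104) (l 16469192)) (a (l 16517720) (l 16472336))) (b (l 16404064) (c (l 16412552) (l 16398736))))))), by decide +kernel⟩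

def k3_pm_012_s : ∃ t, chk3 f_pm_012_s t 16 15 1 = true :=
  ⟨(b (b (a (a (b (c (c (l 16689832) (l 16688320)) (a (l 16663472) (l 16687256))) (a (l 14) (a (l 14) (l 16700840)))) (a (c (l 16681048) (l 16679712)) (c (l 16658880) (l 16654896)))) (a (c (b (l 16581248) (a (l 16639632) (l 16617648))) (c (l 16578160) (l 16573936))) (c (c (l 16585576) (l 16579480)) (c (l 16572968) (l 16566032))))) (b (a (a (l 14) (a (l 14) (c (l 16667464) (l 16661184)))) (a (c (a (l 16645104) (l 16622888)) (a (l 16636008) (l 16611016))) (c (c (l 16593528) (l 16586064)) (l 16573896)))) (a (l 14) (a (a (l 14) (c (l 16628000) (l 16614464))) (c (c (l 16598728) (l 16590400)) (c (l 16581488) (l 16571992))))))) (a (l 14) (b (b (a (l 14) (a (l 14) (c (l 16609104) (l 16567080)))) (l 14)) (l 14)))), by decide +kernel⟩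

def k4_pm_012_s : ∃ t, chk3 f_pm_012_s t 17 15 1 = true :=
  ⟨(a (a (b (c (b (b (l 16537816) (l 16542080)) (b (l 16535880) (c (l 16556032) (l 16545088)))) (b (b (l 16520744) (l 16522904)) (b (l 16504104) (l 16524624)))) (b (a (b (c (l 16565920) (l 16541952)) (l 14)) (b (c (l 16543864) (l 16516992)) (a (l 14) (c (l 16542344) (l 16512776))))) (l 14))) (b (c (b (b (l 16496272) (l 16499896)) (b (l 16503584) (c (l 16513944) (l 16500464)))) (b (l 16464472) (c (l 16506000) (l 16449304)))) (a (b (c (b (l 16521952) (a (l 16531288) (l 16520256))) (b (l 16492240) (l 16514944))) (l 14)) (b (c (b (l 16500192) (l 16524760)) (b (l 16467688) (l 16490016))) (a (l 14) (b (c (l 16522760) (l 16485168)) (l 14))))))) (a (b (c (b (b (l 16455624) (l 16458496)) (b (l 16461552) (l 16485664))) (b (l 16408144) (b (l 16429816) (l 16430488)))) (a (b (c (b (l 16478608) (l 16502936)) (b (l 16443328) (l 16444320))) (b (c (a (l 16511744) (l 16500760)) (a (l 16472624) (l 16460136))) (l 14))) (b (c (b (l 16457200)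 (l 16460288)) (b (l 16419168) (l 16419808))) (b (c (c (l 16473240) (l 16453192)) (c (l 16431760) (l 16408944))) (b (c (l 16486648) (l 16442112)) (l 14)))))) (b (b (c (b (l 16415680) (l 16417992)) (l 16404816)) (c (b (l 16420304) (l 16422816)) (b (l 16383448) (l 16383336)))) (b (c (b (c (l 16435096) (l 16415424)) (c (l 16438384) (l 16417488))) (b (c (l 16394368) (l 16371936)) (c (l 16395128) (l 16371320)))) (c (b (c (a (l 16452176) (l 16431256)) (l 16440584)) (a (b (l 16464752) (c (l 16456392) (l 16433584))) (c (l 16455432) (l 16410504)))) (b (c (l 16416944) (l 16391776)) (a (c (l 16429912) (l 16383320)) (c (l 16384896) (l 16357640))))))))), by decide +kernel⟩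

def k5_pm_012_s : ∃ t, chk3 f_pm_012_s t 9 14 1 = true :=
  ⟨(a (b (a (c (b (l 16336152) (l 16321808)) (b (l 16310184) (l 16315256))) (c (b (l 16264296) (l 16268424)) (b (l 16228640) (l 16231992)))) (c (a (b (l 16327304) (a (l 16372656) (l 16332952))) (b (l 16293000) (a (l 16293984) (l 16255656)))) (a (b (l 16297088) (l 16308232)) (b (l 16233496) (l 16274744))))) (b (c (a (b (l 16195272) (l 16239376)) (b (l 16125744) (l 16125824))) (a (b (l 16149368) (l 16150808)) (b (l 16076200) (l 16076008)))) (a (c (b (a (l 16216672) (l 16180824)) (a (l 16218088) (l 16181248))) (b (l 16192592) (a (l 16169496) (l 16127928)))) (c (b (l 16125032) (l 16144544)) (b (l 16074200) (l 16070840)))))), by decide +kernel⟩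

def k6_pm_012_s : ∃ t, chk3 f_pm_012_s t 18 15 1 = true :=
  ⟨(b (a (c (b (a (l 16397280) (l 16335760)) (a (b (l 16378832) (l 16380528)) (b (l 16337248) (l 16338264)))) (b (c (l 16348232) (l 16285632)) (a (b (l 16337840) (l 16336824)) (b (l 16292824) (l 16291128))))) (c (b (a (l 16295976) (l 16256976)) (a (b (l 16296800) (l 16297104)) (l 16278144))) (b (c (l 16242280) (l 16217624)) (a (b (l 16248664) (l 16246240)) (l 16203688))))) (a (b (c (a (b (l 16403416) (c (l 16395768) (l 16372776))) (b (l 16339304) (c (l 16352704) (l 16328024)))) (a (b (l 16356984) (c (l 16348200) (l 16322040))) (b (l 16289400) (l 16329840)))) (c (b (a (c (l 16419472) (l 16374248)) (c (l 16354736) (l 16328768))) (a (a (c (l 16433552) (l 16387504)) (c (l 16390040) (l 16364128))) (c (b (l 16356312) (l 16378360)) (b (l 16329384) (l 16329832))))) (b (a (c (l 16348336) (l 16320760)) (c (l 16301048) (l 16271600))) (a (c (b (l 16348504) (l 16369616)) (b (l 16319888) (l 16319360))) (c (l 16337256) (l 16269688))))))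 (b (c (a (b (l 16297488) (c (l 16310936) (l 16284448))) (b (l 16256768) (l 16298504))) (a (b (l 16243832) (l 16262392)) (b (l 16199088) (l 16216976)))) (c (a (b (c (l 16312248) (l 16284432)) (c (b (l 16313320) (l 16314064)) (l 16305536))) (b (c (l 16271040) (l 16241264)) (c (b (l 16271584) (l 16272000)) (l 16240664)))) (a (b (c (l 16254784) (l 16223296)) (c (l 16253528) (l 16220584))) (b (c (l 16209544) (l 16175864)) (c (l 16207512) (l 16172328)))))))), by decide +kernel⟩

def k7_pm_012_s : ∃ t, chk3 f_pm_012_s t 19 15 1 = true :=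
  ⟨(b (a (c (b (a (l 16218696) (l 16180976)) (a (l 16218168) (c (l 16194160) (l 16165064)))) (b (a (l 16165952) (l 16123696)) (a (l 16160392) (l 16180560)))) (c (b (c (l 16134856) (l 16108504)) (c (l 16175448) (l 16105032))) (b (c (l 16080496) (l 16050832)) (c (l 16074824) (l 16042888))))) (c (a (b (a (b (l 16217168) (l 16237264)) (c (b (l 16193608) (l 16193048)) (l 16161576))) (a (b (c (l 16231168) (l 16199344)) (c (l 16252128) (l 16197920))) (c (b (l 16213320) (a (l 16201488) (l 16181976))) (b (l 16158416) (l 16198328))))) (b (a (c (l 16152552) (l 16120952)) (c (l 16110760) (l 16080384))) (a (b (c (l 16150912) (l 16117208)) (c (l 16149664) (l 16114520))) (c (b (l 16108488) (l 16106816)) (l 16116552))))) (a (b (a (b (l 16155208) (l 16151408)) (c (l 16127656) (l 16091592))) (a (b (c (l 16165424) (l 16129416)) (c (l 16162520) (l 16124960))) (c (b (l 16122240) (l 16118696)) (b (l 16083824) (l 16078680))))) (b (c (a (l 16087344) (l 16048304)) (l 16054120)) (a (b (l 16062712) (c (l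 16077200) (l 16037704))) (c (l 16039688) (l 16002920))))))), by decide +kernel⟩

def k8_pm_012_s : ∃ t, chk3 f_pm_012_s t 5 2 1 = true :=
  ⟨(b (l 6) (l 6)), by decide +kernel⟩

def k9_pm_012_s : ∃ t, chk3 f_pm_012_s t 5 6 1 = true :=
  ⟨(a (a (b (a (b (l 6) (a (l 16032824) (l 16003936))) (l 6)) (b (a (c (l 16050952) (l 16004256)) (a (l 15983008) (l 6))) (a (c (l 16056520) (l 16008656)) (a (l 15985232) (a (l 15961632) (c (l 15969320) (l 15921752))))))) (b (l 6) (b (l 6) (c (l 15905040) (l 15848184))))) (l 6)), by decide +kernel⟩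

def k10_pm_012_s : ∃ t, chk3 f_pm_012_s t 5 14 1 = true :=
  ⟨(a (a (a (b (c (l 16076792) (l 16007368)) (c (b (l 16051920) (l 16069400)) (b (l 16002888) (l 15998072)))) (a (b (c (l 16004912) (l 15957024)) (c (l 16059680) (l 15948000))) (b (a (l 15956728) (c (l 15964264) (l 15915848))) (c (a (l 15971040) (a (l 15958528) (l 15950776))) (a (l 15921912) (l 15904624)))))) (b (c (l 15917648) (l 15837496)) (c (b (l 15887216) (l 15879888)) (b (l 15825984) (l 15816792))))) (l 6)), by decide +kernel⟩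

def k11_pm_012_s : ∃ t, chk3 f_pm_012_s t 5 15 1 = true :=
  ⟨(a (a (a (b (c (b (a (l 16063280) (l 16025512)) (a (l 16059624) (l 16020888))) (b (l 15991872) (c (l 15998704) (l 15969488)))) (c (b (a (c (l 16069912) (l 16040544)) (c (l 16029968) (l 16001384))) (a (c (b (l 16067080) (l 16065024)) (l 16034144)) (c (b (l 16026720) (l 16024320)) (l 15994512)))) (b (c (l 15990624) (l 15959016)) (c (a (l 16000624) (l 15962136)) (a (l 15965528) (l 15928424)))))) (a (b (c (b (l 15988856) (l 15983096)) (b (l 15937520) (l 15928992))) (c (b (c (l 15991264) (l 15963168)) (c (b (l 15987552) (l 15984888)) (l 15955808))) (b (l 15919192) (c (l 15924248) (l 15891560))))) (b (c (a (b (l 15962104) (l 15955688)) (b (l 15987240) (a (l 15942640) (l 15934656)))) (a (l 15906480) (b (l 15892952) (l 15883728)))) (c (a (b (l 15949336) (c (l 15957712) (l 15927456))) (b (a (l 15935992) (l 15927896)) (a (c (l 15944416) (l 15913992)) (c (l 15936640) (l 15905488))))) (a (b (l 15891680) (l 15880200)) (b (l 15915168)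 (a (l 15866528) (l 15856816)))))))) (b (c (b (a (l 15904320) (l 15839632)) (a (l 15896648) (l 15830128))) (b (a (l 15844728) (l 15768800)) (a (l 15834336) (l 15756640)))) (c (b (a (c (l 15904472) (l 15872720)) (c (l 15838608) (l 15801760))) (a (c (b (l 15899512) (l 15896200)) (l 15863912)) (c (l 15850672) (l 15790888)))) (b (a (l 15822960) (l 15743480)) (a (c (l 15828664) (l 15792152)) (c (l 15750416) (l 15708280))))))) (a (a (b (c (b (l 6) (l 15766040)) (l 15688600)) (c (b (l 15817400) (c (l 15785448) (l 15720584))) (b (l 15666432) (c (l 15674568) (l 15626440))))) (l 6)) (l 6))), by decide +kernel⟩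

def k12_pm_012_s : ∃ t, chk3 f_pm_012_s t 3 1 1 = true :=
  ⟨(b (l 6) (l 6)), by decide +kernel⟩

theorem s13_pm_012_s : ∃ t, chk3 f_pm_012_s t 5 7 1 = true := ex3_b k10_pm_012_s k11_pm_012_s

theorem s14_pm_012_s : ∃ t, chk3 f_pm_012_s t 5 3 1 = true := ex3_b k9_pm_012_s s13_pm_012_s

theorem s15_pm_012_s : ∃ t, chk3 f_pm_012_s t 5 1 1 = true := ex3_b k8_pm_012_s s14_pm_012_s

theorem s16_pm_012_s : ∃ t, chk3 f_pm_012_s t 9 15 1 = true := ex3_a k6_pm_012_s k7_pm_012_s

theorem s17_pm_012_s : ∃ t, chk3 f_pm_012_s t 9 7 1 = true := ex3_b k5_pm_012_s s16_pm_012_s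

theorem s18_pm_012_s : ∃ t, chk3 f_pm_012_s t 8 15 1 = true := ex3_a k3_pm_012_s k4_pm_012_s

theorem s19_pm_012_s : ∃ t, chk3 f_pm_012_s t 8 7 1 = true := ex3_b k2_pm_012_s s18_pm_012_s

theorem s20_pm_012_s : ∃ t, chk3 f_pm_012_s t 4 7 1 = true := ex3_a s19_pm_012_s s17_pm_012_s

theorem s21_pm_012_s : ∃ t, chk3 f_pm_012_s t 4 3 1 = true := ex3_b k1_pm_012_s s20_pm_012_s

theorem s22_pm_012_s : ∃ t, chk3 f_pm_012_s t 4 1 1 = true := ex3_b k0_pm_012_s s21_pm_012_s

theorem s23_pm_012_s : ∃ t, chk3 f_pm_012_s t 2 1 1 = true := ex3_a s22_pm_012_s s15_pm_012_s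

theorem s24_pm_012_s : ∃ t, chk3 f_pm_012_s t 1 1 1 = true := ex3_a s23_pm_012_s k12_pm_012_s

theorem c_pm_012_s : CertNE 0 536870912 536870912 536870912 858993459 64424510 3 eng mog cd0q0 cd4q1 pd2 true true false .pnp 0 1 2
    ndB0q0 ndB4q1 pcB2 cut_pm_012_s Ext.none :=
  certNE2 (fam := true) (s1 := true) (s2 := false) (a := 0) (b := 1) (c := 2) (cn := .pnp) (n1 := ndB0q0) (n2 := ndB4q1) (pc := pcB2) (cut := cut_pm_012_s) (xt := Ext.none) (P1 := 0) (W1 := 536870912) (P2 := 536870912) (W2 := 536870912) (P3 := 858993459) (W3 := 64424510) (N0 := 3) (En := eng) (mo := mog) (C1 := cd0q0) (C2 := cd4q1) (C3 := pd2)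
    rfl (fun _ => rfl) s24_pm_012_s

noncomputable def cut_pm_022_s : Cut := Cut.of [[⟨4, 0, 0, 1449551462⟩], [⟨0, 0, 0, 67108864⟩, ⟨1, 1, 0, 67108864⟩, ⟨2, 1, 0, 67108864⟩]]

noncomputable def f_pm_022_s : ℕ → ℕ → ℕ → ℕ → Bool := onCell 1073741824 536870912 1073741824 536870912 858993459 64424510
    (rowNE 3 eng mog cd0q0 cd4q2 pd2 2 true true false .pp 0 2 2 (qsf 0 536870912 1073741824 536870912 2) ndB0q0 ndB4q2 pcB2 cut_pm_022_s Ext.none)

def k0_pm_022_s : ∃ t, chk3 f_pm_022_s t 8 2 1 = true :=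
  ⟨(b (b (a (b (l 14) (b (l 14) (l 1))) (b (a (l 14) (a (l 14) (a (l 14) (a (l 14) (b (c (b (b (l 16427672) (l 16445840)) (l 16472752)) (b (c (l 16399664) (l 16372864)) (l 16428320))) (c (b (l 16507992) (l 16542440)) (b (l 16469568) (l 16510112)))))))) (a (b (l 14) (b (l 14) (l 1))) (b (a (l 14) (a (l 14) (a (l 14) (a (l 14) (c (l 16526968) (l 16524344)))))) (b (a (l 14) (a (l 14) (l 16597688))) (a (b (l 14) (l 1)) (c (a (l 483216989095) (l 16600208)) (l 452615325335)))))))) (a (l 1) (b (a (l 1) (a (l 1) (a (l 1) (b (c (l 733935717895) (l 746820657207)) (l 1))))) (l 1)))) (l 1)), by decide +kernel⟩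

def k1_pm_022_s : ∃ t, chk3 f_pm_022_s t 36 4 1 = true :=
  ⟨(b (b (b (c (a (b (c (b (a (l 16422856) (l 16400184)) (l 16429016)) (b (l 16407048) (l 16404960))) (c (l 16436632) (l 16412008))) (b (c (b (l 16387728) (l 16384320)) (b (l 16339552) (l 16358432))) (c (l 16410344) (l 16386480)))) (a (b (c (b (l 16379904) (l 16379232)) (b (l 16330048) (l 16351840))) (c (l 16409416) (l 16384288))) (b (c (b (l 16310536) (l 16330800)) (l 16311528)) (c (l 16360960) (l 16333784))))) (b (c (a (c (l 16488912) (l 16469736)) (c (l 16444432) (l 16423304))) (a (c (l 16449128) (l 16427112)) (l 16387464))) (c (a (c (l 16522056) (l 16505736)) (l 16468752)) (a (l 16499856) (l 16429384))))) (c (a (b (b (a (l 16559240) (l 16536400)) (a (l 16592080) (l 16569344))) (b (l 16612680) (l 16600992))) (b (c (l 16442296) (l 16449216)) (b (l 16567952) (l 16599240)))) (b (a (b (l 16544928) (l 16515744)) (a (l 16438280) (l 16434752))) (a (b (l 16595712) (l 16632696)) (b (l 16525664) (l 16583880)))))) (b (a (b (b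 (c (l 461742082311) (l 470332024119)) (c (l 733398828919) (l 721050795591))) (l 1)) (b (c (a (l 301754510343) (l 16531808)) (l 284037751895)) (c (l 724808837271) (l 718903266871)))) (l 1))), by decide +kernel⟩

def k2_pm_022_s : ∃ t, chk3 f_pm_022_s t 37 4 1 = true :=
  ⟨(b (a (b (b (c (b (c (b (l 16323264) (l 16340808)) (b (l 16294144) (l 16313000))) (c (l 16366872) (l 16341040))) (c (b (l 16273240) (l 16313440)) (b (l 16241008) (l 16284096)))) (c (b (c (l 16401056) (l 16377896)) (l 16424496)) (b (l 16319152) (l 16380680)))) (b (c (b (l 16458560) (l 16491816)) (c (l 16449520) (l 16430776))) (b (c (l 16524232) (l 16498192)) (c (l 16555760) (l 16535648))))) (b (b (c (b (c (b (l 16281016) (l 16298528)) (l 16280256)) (c (l 16324560) (l 16296664))) (c (b (l 16226784) (l 16266896)) (b (l 16192280) (l 16235248)))) (c (c (l 16359944) (l 16330760)) (b (l 16313312) (l 16332840)))) (b (c (b (l 16415488) (l 16448912)) (b (l 16372736) (l 16411968))) (c (l 16392640) (l 16406424))))) (b (c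 (b (a (l 16574704) (l 16559168)) (a (l 795675802455) (l 280279581863))) (b (a (l 16589896) (l 16542624)) (b (l 416644820423) (l 593812172423)))) (a (l 1) (b (c (l 717829439927) (l 716218814183)) (l 1))))), by decide +kernel⟩

def k3_pm_022_s : ∃ t, chk3 f_pm_022_s t 19 4 1 = true :=
  ⟨(b (b (a (c (b (a (b (c (b (l 16240016) (l 16257480)) (l 16216112)) (c (l 16283464) (l 16253400))) (b (c (a (l 16218784) (l 16199024)) (a (l 16184464) (l 16163672))) (c (l 16264464) (l 16211208)))) (a (b (l 16304184) (l 16339136)) (c (b (l 16277656) (l 16311320)) (l 16287088)))) (b (a (b (c (l 16181328) (l 16144400)) (c (l 16221312) (l 16187216))) (c (b (l 16136928) (l 16176760)) (b (l 16097512) (l 16140144)))) (a (b (l 16245456) (l 16285864)) (c (l 16235696) (l 16203304))))) (a (c (b (b (c (l 16208416) (l 16131864)) (c (l 16200912) (l 16168792))) (b (l 16220472) (l 16255384))) (b (b (c (l 16095096) (l 16056176)) (l 16158752)) (c (l 16193360) (l 16161296)))) (c (b (b (c (l 16123264) (l 16090016))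 (c (l 16157728) (l 16126920))) (b (l 16177744) (l 16212624))) (b (c (l 16074672) (l 16039016)) (c (l 16152728) (l 16122408)))))) (c (a (b (a (c (l 16400544) (l 16379656)) (c (l 16360696) (l 16337416))) (a (l 16392960) (c (l 16423992) (l 16405976)))) (a (b (l 16296280) (l 16372944)) (b (l 16284992) (l 16330496)))) (a (b (a (l 16366368) (c (l 16312416) (l 16285680))) (a (l 16422368) (a (l 16387616) (l 16364840)))) (c (b (l 16249424) (l 16323488)) (b (l 16223592) (l 16303120)))))) (b (a (c (a (b (l 16518008) (l 16557592)) (c (l 16397176) (l 16397584))) (a (b (l 16495960) (l 16565456)) (b (l 16387104) (l 16519944)))) (c (b (a (l 16436008) (l 16394016)) (a (l 16495488) (l 16454088))) (b (a (l 16407488) (l 16367088)) (l 16415576)))) (b (c (a (a (l 450467579479) (l 272226419623)) (l 16458264)) (a (a (l 463352470823) (l 16440520)) (l 16502576))) (a (a (l 1) (c (l 703333846135) (l 699575739079))) (c (c (l 450467476695) (l 443488155863)) (c (l 440266932423) (l 16393488))))))), by decide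 +kernel⟩

def k4_pm_022_s : ∃ t, chk3 f_pm_022_s t 9 5 1 = true :=
  ⟨(a (l 1) (b (b (a (l 1) (b (a (l 1) (c (l 622802986951) (l 621729213479))) (l 1))) (l 1)) (l 1))), by decide +kernel⟩

def k5_pm_022_s : ∃ t, chk3 f_pm_022_s t 4 3 1 = true :=
  ⟨(l 1), by decide +kernel⟩

def k6_pm_022_s : ∃ t, chk3 f_pm_022_s t 10 8 1 = true :=
  ⟨(a (a (b (c (b (a (b (c (l 16081384) (l 16049296)) (l 16164072)) (c (b (l 16040632) (l 16075288)) (l 16028064))) (a (b (l 16136384) (l 16171120)) (c (l 16126200) (l 16100912)))) (b (c (a (l 16035288) (l 15996792)) (a (l 16001304) (l 15964208))) (c (a (l 16113248) (l 16074512)) (l 16065696)))) (c (b (a (l 16222520) (l 16182320)) (a (l 16289176) (l 16249080))) (b (c (l 16169656) (l 16146520)) (c (l 16243432) (l 16225200))))) (b (a (c (b (c (b (l 16001200) (l 16036128)) (l 15989392)) (c (l 16087288) (l 16062544))) (b (c (l 15958936) (l 15927376)) (l 16023704))) (c (b (a (c (l 15990368) (l 15961216)) (a (c (l 15977200) (l 15947848)) (c (l 15969552) (l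 15939448)))) (a (l 16047232) (a (l 16034256) (l 16026440)))) (a (b (l 15915624) (l 15996392)) (b (a (l 15902008) (l 15892344)) (a (l 15982960) (l 15973440)))))) (a (c (b (l 16143832) (l 16210528)) (b (l 16101720) (l 16177360))) (c (a (b (l 16116040) (l 16182896)) (b (a (l 16103240) (l 16095576)) (l 16208200))) (a (l 16091336) (b (l 16056000) (l 16131360))))))) (b (c (b (a (b (c (l 15912608) (l 15878584)) (l 15932632)) (c (b (l 15843576) (l 15879320)) (l 15824120))) (a (c (l 16000528) (l 15972280)) (b (l 15897872) (l 15933680)))) (b (a (c (l 15863560) (l 15828232)) (c (l 15785144) (l 15744568))) (a (l 15948872) (l 15847960)))) (c (b (a (l 16055864) (l 15985960)) (a (l 16122936) (l 16053040))) (b (a (l 16006040) (l 15927376)) (a (l 16081424) (l 16002920)))))), by decide +kernel⟩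

def k7_pm_022_s : ∃ t, chk3 f_pm_022_s t 10 9 1 = true :=
  ⟨(a (a (b (b (c (a (l 16353088) (l 16313352)) (l 16245096)) (c (l 16289336) (l 16315424))) (c (b (l 16451448) (l 16485176)) (b (l 16444888) (l 16484736)))) (b (a (c (b (l 16275096) (l 16336752)) (l 16181224)) (c (a (l 16278992) (a (l 16266544) (l 16259112))) (a (l 16258152) (c (l 16245616) (l 16233768))))) (a (b (l 16328400) (l 16449672)) (c (a (l 16396216) (b (l 16352608) (l 16407832))) (b (l 16308608) (l 16413464)))))) (a (b (c (b (l 16187696) (l 16250200)) (b (l 16154064) (l 16224032))) (b (c (l 16309656) (l 16290816)) (l 16338952))) (b (c (b (l 16117704) (l 16179888)) (b (l 16075464) (l 16145016))) (c (l 16142320) (l 16138832))))), by decide +kernel⟩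

def k8_pm_022_s : ∃ t, chk3 f_pm_022_s t 11 4 1 = true :=
  ⟨(b (b (a (c (b (a (b (l 15755536) (l 15792544)) (c (l 15731240) (l 15684160))) (a (c (l 15865464) (l 15828536)) (l 15780880))) (b (a (c (l 15708696) (l 15662624)) (l 15692872)) (a (l 15769960) (l 15693816)))) (l 6)) (b (a (c (a (l 15917824) (l 15851840)) (a (l 15850408) (l 15775384))) (l 6)) (a (c (a (l 15985728) (l 15920184)) (a (l 15927200) (l 15853184))) (c (l 15930984) (l 15871784))))) (b (a (c (b (a (l 16050440) (l 15985704)) (l 16059056)) (b (l 15942048) (l 16032904))) (a (c (l 15954440) (l 15891800)) (l 6))) (b (a (c (l 16139656) (l 16099352)) (c (l 16015184) (l 15959536))) (a (c (l 16196152) (l 16162160)) (c (l 16072072) (l 16022984)))))), by decide +kernel⟩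

def k9_pm_022_s : ∃ t, chk3 f_pm_022_s t 5 5 1 = true :=
  ⟨(a (b (a (a (b (b (c (a (l 16380120) (l 16445184)) (l 395706528055)) (c (l 679174505975) (l 683469428199))) (l 1)) (b (a (c (l 255046274247) (l 265783658679)) (c (a (l 16403896) (l 16296744)) (c (l 16291768) (l 16329728)))) (a (l 1) (b (a (l 1) (c (l 564283865543) (l 16337880))) (l 1))))) (b (c (b (l 16382552) (l 16402336)) (a (l 16425064) (l 16362696))) (b (c (l 16256712) (l 16231048)) (a (l 621192106087) (l 374231459015))))) (a (l 1) (b (a (l 1) (b (l 608843950119) (l 1))) (l 1)))) (c (b (b (a (b (l 16186384) (l 16298488)) (a (l 16180744) (l 16121536))) (a (l 16263592) (l 16242800))) (b (a (a (l 384968675239) (l 16247392)) (l 16274712)) (a (l 645888097399) (a (l 16102576) (l 16193640))))) (b (b (a (b (l 16159152) (l 16278160)) (a (l 16144728) (l 16078320))) (a (l 16291368) (l 16216392))) (a (b (c (l 362956902247) (l 16090984)) (l 653941189543)) (b (l 16291296) (l 350071786183)))))), by decide +kernel⟩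

def k10_pm_022_s : ∃ t, chk3 f_pm_022_s t 5 3 1 = true :=
  ⟨(a (l 1) (b (a (l 1) (b (b (c (l 627634289415) (l 560524926839)) (l 1)) (l 1))) (l 1))), by decide +kernel⟩

def k11_pm_022_s : ∃ t, chk3 f_pm_022_s t 3 1 1 = true :=
  ⟨(b (a (a (b (l 6) (a (b (b (c (b (l 6) (l 16062072)) (l 16046392)) (c (l 16130696) (l 15942776))) (b (c (l 16209280) (l 16182352)) (c (l 16202048) (l 16218112)))) (l 6))) (l 6)) (l 6)) (a (a (b (a (b (b (b (l 16011008) (l 351145421703)) (c (l 546029361543) (l 537439294647))) (l 1)) (a (b (b (l 16130368) (l 340407847415)) (l 1)) (b (l 6) (b (l 605085718759) (l 1))))) (l 1)) (a (b (l 6) (l 1)) (l 6))) (l 6))), by decide +kernel⟩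

theorem s12_pm_022_s : ∃ t, chk3 f_pm_022_s t 10 4 1 = true := ex3_b k6_pm_022_s k7_pm_022_s

theorem s13_pm_022_s : ∃ t, chk3 f_pm_022_s t 5 4 1 = true := ex3_a s12_pm_022_s k8_pm_022_s

theorem s14_pm_022_s : ∃ t, chk3 f_pm_022_s t 5 2 1 = true := ex3_b s13_pm_022_s k9_pm_022_s

theorem s15_pm_022_s : ∃ t, chk3 f_pm_022_s t 5 1 1 = true := ex3_b s14_pm_022_s k10_pm_022_s

theorem s16_pm_022_s : ∃ t, chk3 f_pm_022_s t 18 4 1 = true := ex3_a k1_pm_022_s k2_pm_022_s

theorem s17_pm_022_s : ∃ t, chk3 f_pm_022_s t 9 4 1 = true := ex3_a s16_pm_022_s k3_pm_022_s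

theorem s18_pm_022_s : ∃ t, chk3 f_pm_022_s t 9 2 1 = true := ex3_b s17_pm_022_s k4_pm_022_s

theorem s19_pm_022_s : ∃ t, chk3 f_pm_022_s t 4 2 1 = true := ex3_a k0_pm_022_s s18_pm_022_s

theorem s20_pm_022_s : ∃ t, chk3 f_pm_022_s t 4 1 1 = true := ex3_b s19_pm_022_s k5_pm_022_s

theorem s21_pm_022_s : ∃ t, chk3 f_pm_022_s t 2 1 1 = true := ex3_a s20_pm_022_s s15_pm_022_s

theorem s22_pm_022_s : ∃ t, chk3 f_pm_022_s t 1 1 1 = true := ex3_a s21_pm_022_s k11_pm_022_s

theorem c_pm_022_s : CertNE 0 536870912 1073741824 536870912 858993459 64424510 3 eng mog cd0q0 cd4q2 pd2 true true false .pp 0 2 2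
    ndB0q0 ndB4q2 pcB2 cut_pm_022_s Ext.none :=
  certNE2 (fam := true) (s1 := true) (s2 := false) (a := 0) (b := 2) (c := 2) (cn := .pp) (n1 := ndB0q0) (n2 := ndB4q2) (pc := pcB2) (cut := cut_pm_022_s) (xt := Ext.none) (P1 := 0) (W1 := 536870912) (P2 := 1073741824) (W2 := 536870912) (P3 := 858993459) (W3 := 64424510) (N0 := 3) (En := eng) (mo := mog) (C1 := cd0q0) (C2 := cd4q2) (C3 := pd2)
    rfl (fun _ => rfl) s22_pm_022_s

noncomputable def cut_pm_023_s : Cut := Cut.of [[⟨4, 0, 0, 1449551462⟩]]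

noncomputable def f_pm_023_s : ℕ → ℕ → ℕ → ℕ → Bool := onCell 1610612736 536870912 1073741824 536870912 858993459 64424510
    (rowNE 3 eng mog cd0q0 cd4q2 pd3 2 true true false .up 0 2 3 (qsf 0 536870912 1073741824 536870912 3) ndB0q0 ndB4q2 pcB3 cut_pm_023_s Ext.none)

def k0_pm_023_s : ∃ t, chk3 f_pm_023_s t 1 1 1 = true :=
  ⟨(a (l 6) (l 6)), by decide +kernel⟩

theorem c_pm_023_s : CertNE 0 536870912 1073741824 536870912 858993459 64424510 3 eng mog cd0q0 cd4q2 pd3 true true false .up 0 2 3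
    ndB0q0 ndB4q2 pcB3 cut_pm_023_s Ext.none :=
  certNE2 (fam := true) (s1 := true) (s2 := false) (a := 0) (b := 2) (c := 3) (cn := .up) (n1 := ndB0q0) (n2 := ndB4q2) (pc := pcB3) (cut := cut_pm_023_s) (xt := Ext.none) (P1 := 0) (W1 := 536870912) (P2 := 1073741824) (W2 := 536870912) (P3 := 858993459) (W3 := 64424510) (N0 := 3) (En := eng) (mo := mog) (C1 := cd0q0) (C2 := cd4q2) (C3 := pd3)
    rfl (fun _ => rfl) k0_pm_023_s

noncomputable def cut_pm_033_s : Cut := Cut.of [[⟨4, 0, 0, 1449551462⟩]]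

noncomputable def f_pm_033_s : ℕ → ℕ → ℕ → ℕ → Bool := onCell 1610612736 536870912 0 1230186008 858993459 64424510
    (rowNE 3 eng mog cd0q0 cd4q3 pd3 2 true true false .pnn 0 3 3 (qsf 0 536870912 0 1230186008 3) ndB0q0 ndB4q3 pcB3 cut_pm_033_s Ext.none)

def k0_pm_033_s : ∃ t, chk3 f_pm_033_s t 1 1 1 = true :=
  ⟨(b (l 6) (l 6)), by decide +kernel⟩

theorem c_pm_033_s : CertNE 0 536870912 0 1230186008 858993459 64424510 3 eng mog cd0q0 cd4q3 pd3 true true false .pnn 0 3 3
    ndB0q0 ndB4q3 pcB3 cut_pm_033_s Ext.none :=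
  certNE2 (fam := true) (s1 := true) (s2 := false) (a := 0) (b := 3) (c := 3) (cn := .pnn) (n1 := ndB0q0) (n2 := ndB4q3) (pc := pcB3) (cut := cut_pm_033_s) (xt := Ext.none) (P1 := 0) (W1 := 536870912) (P2 := 0) (W2 := 1230186008) (P3 := 858993459) (W3 := 64424510) (N0 := 3) (En := eng) (mo := mog) (C1 := cd0q0) (C2 := cd4q3) (C3 := pd3)
    rfl (fun _ => rfl) k0_pm_033_s

noncomputable def cut_pm_101_s : Cut := Cut.of [[⟨4, 0, 0, 1449551462⟩]]

noncomputable def f_pm_101_s : ℕ → ℕ → ℕ → ℕ → Bool := onCell 536870912 536870912 536870912 536870912 858993459 64424510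
    (rowNE 3 eng mog cd0q1 cd4q0 pd1 1 true true false .npn 1 0 1 (qsf 536870912 536870912 0 536870912 1) ndB0q1 ndB4q0 pcB1 cut_pm_101_s Ext.none)

def k0_pm_101_s : ∃ t, chk3 f_pm_101_s t 4 8 1 = true :=
  ⟨(a (l 3) (a (a (l 3) (l 1)) (l 1))), by decide +kernel⟩

def k1_pm_101_s : ∃ t, chk3 f_pm_101_s t 4 18 1 = true :=
  ⟨(b (a (l 3) (a (a (b (l 3) (a (l 3) (b (l 3) (c (l 307257881847) (l 308331625127))))) (b (l 1) (a (b (l 1) (c (c (l 16770576) (l 16771768)) (l 211560660775))) (l 1)))) (l 1))) (a (a (l 3) (a (l 3) (b (l 3) (a (l 3) (b (l 3) (c (l 308331623495) (l 308868495991))))))) (a (c (b (a (a (b (l 3) (l 307794752663)) (c (b (l 287393668759) (l 16770512)) (l 239612153783))) (c (a (l 16759768) (l 258268316583)) (a (l 16762656) (l 16729808)))) (a (a (c (b (l 291151765463) (l 16770392)) (l 242833379463)) (c (l 16759736) (l 16762568))) (c (a (l 16703336) (l 16730816)) (l 16744432)))) (a (b (a (l 464024212007) (c (l 261623863927) (l 283098700231))) (a (b (l 297594212967) (l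 16752560)) (c (l 16765736) (l 16769256)))) (c (b (l 16761280) (l 16751624)) (b (l 16766400) (l 16759592))))) (a (a (b (l 1) (c (l 259878837271) (l 16744208))) (l 1)) (l 1))))), by decide +kernel⟩

def k2_pm_101_s : ∃ t, chk3 f_pm_101_s t 4 19 1 = true :=
  ⟨(b (a (a (l 3) (a (b (l 3) (a (l 3) (b (l 3) (c (l 308868494295) (l 308868496023))))) (c (b (a (b (l 3) (l 308868494247)) (c (b (l 291688636823) (l 16770136)) (l 244980863255))) (a (c (b (l 289541153719) (l 16769728)) (l 243370251495)) (c (l 16759208) (l 16761976)))) (b (a (l 447381224743) (c (l 265381960663) (l 285783055207))) (a (c (l 16756536) (l 16755032)) (c (l 16765088) (l 16768584))))))) (a (a (c (c (a (b (l 16759560) (l 16723984)) (b (l 16703280) (l 16730704))) (b (l 16766776) (l 16743920))) (c (b (l 16760720) (l 16750824)) (b (l 16765648) (l 16758520)))) (c (b (c (a (l 16730848) (l 16716416)) (l 16690280)) (c (l 16709216) (l 16719968))) (c (l 16757920) (l 16749040)))) (a (c (a (b (l 16645040) (l 16694608)) (b (l 16653112)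 (l 16681432))) (c (l 16676592) (l 16736616))) (b (l 1) (c (l 16746272) (l 16666680)))))) (a (a (a (l 3) (b (l 3) (b (l 3) (c (c (l 469392931543) (l 477445994183)) (l 457044876967))))) (c (a (b (a (b (l 3) (l 308868494135)) (c (b (l 283635574807) (l 16769168)) (l 220284802999))) (c (a (b (l 273971899591) (l 16768440)) (l 16757960)) (a (l 214379224391) (l 16760728)))) (c (c (b (l 16750640) (l 16698600)) (l 16755688)) (b (l 16755368) (l 16742584)))) (c (a (b (a (l 311015967895) (l 16753488)) (a (l 16752936) (l 16763872))) (b (l 16759712) (l 16749296))) (a (b (a (l 311552838295) (l 16754640)) (l 226727248967)) (b (l 16764616) (l 16756888)))))) (c (c (a (a (b (a (l 16730312) (l 16716144)) (l 16708496)) (l 16771400)) (c (l 16702712) (l 16691528))) (a (c (a (l 16680672) (l 16697672)) (l 16747536)) (a (l 16677424) (l 16653792)))) (a (a (c (l 16735480) (l 16747192)) (c (l 16695784) (l 16734000))) (c (a (l 16698112) (l 16679928)) (l 16714856)))))), by decide +kernel⟩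

def k3_pm_101_s : ∃ t, chk3 f_pm_101_s t 5 4 1 = true :=
  ⟨(a (a (a (a (b (l 1) (b (l 1) (b (l 1) (c (l 158947066487) (l 16641864))))) (l 1)) (l 1)) (l 1)) (l 1)), by decide +kernel⟩

def k4_pm_101_s : ∃ t, chk3 f_pm_101_s t 8 20 1 = true :=
  ⟨(a (a (b (b (l 3) (a (l 3) (b (l 3) (c (c (l 307257888967) (l 16753544)) (l 307257885239))))) (c (c (b (a (l 309942223335) (l 161229006535)) (a (l 145659752375) (l 16753056))) (b (a (l 309942226711) (l 16770056)) (a (l 16768800) (l 16755952)))) (b (c (l 301889157047) (a (l 309942228455) (l 16773112))) (c (l 166060844135) (l 16757688))))) (c (c (b (b (a (l 311015964759) (b (l 16753744) (l 16767544))) (a (b (l 16773864) (l 16766456)) (l 16755936))) (b (l 16757840) (a (l 16738600) (l 16724360)))) (b (b (a (l 310479096279) (l 16756304)) (a (l 16750160) (l 16758752))) (b (l 16751160) (l 16716064)))) (c (b (b (b (l 305647256311) (l 298667946263)) (l 183777579719)) (b (l 16755568) (l 16743824))) (b (b (a (l 311015968071) (l 16774560)) (l 216526704903))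 (b (l 16761304) (l 16752488)))))) (a (b (c (c (c (b (l 16749016) (l 16733240)) (l 16753792)) (b (l 16753688) (l 16719344))) (c (b (l 16758032) (l 16746920)) (b (l 16763128) (l 16754864)))) (c (c (b (l 16719024) (l 16703264)) (b (l 16726640) (l 16712624))) (c (l 16687488) (l 16741728)))) (c (b (c (b (a (l 16728744) (l 16714720)) (l 16706528)) (b (l 16729584) (l 16716320))) (b (c (l 16691200) (l 16702760)) (l 16640096))) (b (c (l 16733008) (l 16744592)) (c (l 16710008) (l 16726984)))))), by decide +kernel⟩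

def k5_pm_101_s : ∃ t, chk3 f_pm_101_s t 8 21 1 = true :=
  ⟨(a (a (b (c (c (c (l 16747008) (l 16757104)) (b (l 16747592) (l 16732040))) (c (b (l 16753536) (l 16741552)) (l 16762600))) (c (c (b (l 16707760) (l 16689496)) (b (l 16715616) (l 16698896))) (c (l 16702200) (l 16714536)))) (c (b (c (b (l 16715000) (l 16697760)) (b (l 16722400) (l 16707000))) (c (l 16712048) (l 16682240))) (b (c (l 16705168) (l 16738624)) (c (l 16701504) (l 16719400))))) (c (c (b (a (l 16720552) (l 16651392)) (a (l 16642936) (l 16616368))) (b (a (l 16690520) (l 16667008)) (a (l 16658440) (l 16635360)))) (a (b (a (l 16677256) (l 16689048)) (l 16650792)) (b (l 16633400) (l 16653112))))), by decide +kernel⟩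

def k6_pm_101_s : ∃ t, chk3 f_pm_101_s t 9 10 1 = true :=
  ⟨(c (b (c (a (b (c (l 16752432) (l 16759560)) (a (l 16656056) (l 16628704))) (c (b (l 16610336) (l 16580824)) (b (l 16621696) (l 16593536)))) (a (b (a (l 16657304) (l 16675760)) (a (l 16672456) (l 16649280))) (b (a (l 16652232) (l 16628448)) (l 16614200)))) (c (a (b (a (l 16624496) (l 16597720)) (l 16576824)) (b (l 16556992) (l 16524488))) (a (b (l 16569384) (l 16601328)) (b (l 16586696) (l 16556768))))) (a (b (c (c (b (l 16658096) (l 16676152)) (l 16761208)) (b (l 16765888) (l 16663520))) (c (b (l 16656816) (l 16629472)) (b (l 16685784) (l 16664984)))) (b (c (b (l 16604488) (l 16644808)) (c (l 16617016) (l 16633992))) (c (b (l 16620344) (l 16593496)) (l 16562784))))), by decide +kernel⟩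

def k7_pm_101_s : ∃ t, chk3 f_pm_101_s t 4 11 1 = true :=
  ⟨(a (b (c (c (a (b (a (l 16682688) (l 16630232)) (a (l 16624448) (l 16593624))) (b (l 16658808) (l 16549056))) (a (b (a (l 16674680) (l 16646264)) (a (l 16642336) (l 16613608))) (b (l 16611480) (l 16573096)))) (a (a (b (a (l 16691336) (l 16702848)) (l 16662760)) (b (l 16646720) (l 16664520))) (c (b (l 16642904) (l 16615704)) (b (l 16674672) (l 16651992))))) (c (a (b (c (l 16613544) (l 16595088)) (c (l 16534840) (l 16562576))) (b (c (l 16507592) (l 16534584)) (c (l 16472352) (l 16503040)))) (c (a (b (l 16632376) (l 16603480)) (l 16572880)) (a (b (l 16661744) (l 16636344)) (l 16613864))))) (c (c (b (a (b (l 16539840) (l 16500344)) (b (l 16489328) (l 16451952))) (a (l 16520256) (l 16391680))) (b (a (b (l 16567392) (l 16530520)) (l 16506400)) (a (l 16469056) (l 16430168)))) (b (a (b (l 16559192) (l 16596552)) (b (l 16564864) (l 16556520))) (a (b (l 16569280) (l 16540424)) (c (l 16477864) (l 16544144)))))), by decide +kernel⟩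

def k8_pm_101_s : ∃ t, chk3 f_pm_101_s t 5 5 1 = true :=
  ⟨(b (b (a (a (c (b (a (c (l 16573440) (l 16604912)) (l 165389406327)) (a (c (l 16544904) (l 16578912)) (l 16551144))) (c (b (l 16632136) (l 16608160)) (l 16747976))) (a (b (l 1) (c (l 16510464) (l 16610072))) (l 1))) (l 1)) (a (c (a (b (a (l 16533448) (l 16507280)) (a (l 16503256) (l 16477848))) (c (b (l 16444016) (l 16412824)) (l 16478384))) (c (a (l 16507488) (l 16534248)) (a (l 16578128) (l 16596320)))) (a (c (c (l 109554797799) (l 16430376)) (a (l 16336240) (l 1))) (l 1)))) (b (a (c (a (c (b (l 16437984) (l 16402848)) (l 16463440)) (c (l 16343536) (l 16416536))) (c (a (l 16512576) (l 16475384)) (a (l 16568040) (l 16541168)))) (c (a (c (l 16341776) (l 16364320)) (c (l 16233840) (l 16313008))) (a (c (l 16436976) (l 16517824)) (l 313565009799)))) (a (c (a (c (l 16346424) (l 16390984)) (c (l 16295904) (l 16348048))) (a (c (l 16442272) (l 16508128)) (l 16335328))) (c (a (c (l 16233688) (l 16296688)) (c (l 16164384) (l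 16240288))) (a (l 16260208) (l 16183880)))))), by decide +kernel⟩

def k9_pm_101_s : ∃ t, chk3 f_pm_101_s t 3 2 1 = true :=
  ⟨(b (l 1) (b (l 1) (b (l 1) (a (a (b (l 1) (b (l 1) (l 6))) (l 1)) (l 1))))), by decide +kernel⟩

def k10_pm_101_s : ∃ t, chk3 f_pm_101_s t 1 3 1 = true :=
  ⟨(a (b (a (b (a (c (b (a (b (c (l 16499216) (l 16530440)) (l 16586312)) (c (l 16462008) (l 16455144))) (a (c (l 16415528) (l 16452128)) (c (l 16355856) (l 16394352)))) (b (a (b (l 16592920) (l 16563216)) (b (l 16551944) (l 16521336))) (a (b (l 16532544) (l 16501160)) (l 16452456)))) (c (b (a (c (l 16351888) (l 16388696)) (c (l 16306104) (l 16342912))) (a (l 16435992) (l 16235864))) (b (a (b (l 16510104) (l 16478472)) (l 16450648)) (a (l 16429048) (l 16383200))))) (a (b (c (a (l 16500368) (l 16316512)) (a (l 16452720) (l 16407632))) (c (a (l 16321136) (l 16263584)) (a (l 16386880) (l 16339984)))) (b (c (a (l 16254008) (l 16183648)) (a (l 16361104) (l 16312976))) (c (a (l 16202568) (l 16135240)) (a (l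 16291384) (l 16241000)))))) (a (b (c (b (a (c (l 16266712) (l 16308456)) (l 16245264)) (a (l 16196856) (l 16161512))) (b (a (l 16405224) (l 16357552)) (a (l 16335464) (l 16285384)))) (c (b (a (l 16100736) (l 16067888)) (a (l 16063824) (l 15997552))) (b (a (l 16262920) (l 16210544)) (l 16265928)))) (a (b (c (b (l 16214912) (l 16116280)) (b (l 16326552) (l 16232312))) (b (l 6) (l 6))) (b (b (c (l 16111744) (l 16290080)) (l 6)) (l 6))))) (a (b (a (b (c (a (l 16272840) (l 16217032)) (a (l 16319920) (l 16271320))) (c (l 16283672) (l 16332312))) (b (c (l 16232416) (l 16193984)) (c (l 16091016) (l 16123008)))) (a (b (a (l 16182184) (l 16133208)) (a (l 16124704) (l 16077232))) (b (a (l 16081792) (l 6)) (l 6)))) (b (a (b (c (l 16106520) (l 16084984)) (l 6)) (l 6)) (l 6)))) (a (b (a (l 6) (l 6)) (l 6)) (l 6))), by decide +kernel⟩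

theorem s11_pm_101_s : ∃ t, chk3 f_pm_101_s t 8 10 1 = true := ex3_b k4_pm_101_s k5_pm_101_s

theorem s12_pm_101_s : ∃ t, chk3 f_pm_101_s t 4 10 1 = true := ex3_a s11_pm_101_s k6_pm_101_s

theorem s13_pm_101_s : ∃ t, chk3 f_pm_101_s t 4 5 1 = true := ex3_b s12_pm_101_s k7_pm_101_s

theorem s14_pm_101_s : ∃ t, chk3 f_pm_101_s t 2 5 1 = true := ex3_a s13_pm_101_s k8_pm_101_s

theorem s15_pm_101_s : ∃ t, chk3 f_pm_101_s t 4 9 1 = true := ex3_b k1_pm_101_s k2_pm_101_s

theorem s16_pm_101_s : ∃ t, chk3 f_pm_101_s t 4 4 1 = true := ex3_b k0_pm_101_s s15_pm_101_s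

theorem s17_pm_101_s : ∃ t, chk3 f_pm_101_s t 2 4 1 = true := ex3_a s16_pm_101_s k3_pm_101_s

theorem s18_pm_101_s : ∃ t, chk3 f_pm_101_s t 2 2 1 = true := ex3_b s17_pm_101_s s14_pm_101_s

theorem s19_pm_101_s : ∃ t, chk3 f_pm_101_s t 1 2 1 = true := ex3_a s18_pm_101_s k9_pm_101_s

theorem s20_pm_101_s : ∃ t, chk3 f_pm_101_s t 1 1 1 = true := ex3_b s19_pm_101_s k10_pm_101_s

theorem c_pm_101_s : CertNE 536870912 536870912 0 536870912 858993459 64424510 3 eng mog cd0q1 cd4q0 pd1 true true false .npn 1 0 1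
    ndB0q1 ndB4q0 pcB1 cut_pm_101_s Ext.none :=
  certNE1 (fam := true) (s1 := true) (s2 := false) (a := 1) (b := 0) (c := 1) (cn := .npn) (n1 := ndB0q1) (n2 := ndB4q0) (pc := pcB1) (cut := cut_pm_101_s) (xt := Ext.none) (P1 := 536870912) (W1 := 536870912) (P2 := 0) (W2 := 536870912) (P3 := 858993459) (W3 := 64424510) (N0 := 3) (En := eng) (mo := mog) (C1 := cd0q1) (C2 := cd4q0) (C3 := pd1)
    rfl (fun _ => rfl) s20_pm_101_s

noncomputable def cut_pm_102_s : Cut := Cut.of [[⟨4, 0, 0, 1449551462⟩]]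

noncomputable def f_pm_102_s : ℕ → ℕ → ℕ → ℕ → Bool := onCell 536870912 536870912 1073741824 536870912 858993459 64424510
    (rowNE 3 eng mog cd0q1 cd4q0 pd2 1 true true false .npp 1 0 2 (qsf 536870912 536870912 0 536870912 2) ndB0q1 ndB4q0 pcB2 cut_pm_102_s Ext.none)

def k0_pm_102_s : ∃ t, chk3 f_pm_102_s t 1 1 1 = true :=
  ⟨(a (b (a (b (b (a (b (b (l 6) (l 6)) (l 6)) (l 6)) (l 6)) (l 6)) (l 6)) (l 6)) (l 6)), by decide +kernel⟩

theorem c_pm_102_s : CertNE 536870912 536870912 0 536870912 858993459 64424510 3 eng mog cd0q1 cd4q0 pd2 true true false .npp 1 0 2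
    ndB0q1 ndB4q0 pcB2 cut_pm_102_s Ext.none :=
  certNE1 (fam := true) (s1 := true) (s2 := false) (a := 1) (b := 0) (c := 2) (cn := .npp) (n1 := ndB0q1) (n2 := ndB4q0) (pc := pcB2) (cut := cut_pm_102_s) (xt := Ext.none) (P1 := 536870912) (W1 := 536870912) (P2 := 0) (W2 := 536870912) (P3 := 858993459) (W3 := 64424510) (N0 := 3) (En := eng) (mo := mog) (C1 := cd0q1) (C2 := cd4q0) (C3 := pd2)
    rfl (fun _ => rfl) k0_pm_102_s

noncomputable def cut_pm_112_s : Cut := Cut.of [[⟨4, 0, 0, 1449551462⟩]]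

noncomputable def f_pm_112_s : ℕ → ℕ → ℕ → ℕ → Bool := onCell 536870912 536870912 1073741824 536870912 858993459 64424510
    (rowNE 3 eng mog cd0q1 cd4q1 pd2 1 true true false .dn 1 1 2 (qsf 536870912 536870912 536870912 536870912 2) ndB0q1 ndB4q1 pcB2 cut_pm_112_s Ext.none)

def k0_pm_112_s : ∃ t, chk3 f_pm_112_s t 1 1 1 = true :=
  ⟨(a (b (a (b (b (a (b (c (l 16017576) (l 16028464)) (l 6)) (l 6)) (l 6)) (l 6)) (l 6)) (l 6)) (l 6)), by decide +kernel⟩

theorem c_pm_112_s : CertNE 536870912 536870912 536870912 536870912 858993459 64424510 3 eng mog cd0q1 cd4q1 pd2 true true false .dn 1 1 2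
    ndB0q1 ndB4q1 pcB2 cut_pm_112_s Ext.none :=
  certNE1 (fam := true) (s1 := true) (s2 := false) (a := 1) (b := 1) (c := 2) (cn := .dn) (n1 := ndB0q1) (n2 := ndB4q1) (pc := pcB2) (cut := cut_pm_112_s) (xt := Ext.none) (P1 := 536870912) (W1 := 536870912) (P2 := 536870912) (W2 := 536870912) (P3 := 858993459) (W3 := 64424510) (N0 := 3) (En := eng) (mo := mog) (C1 := cd0q1) (C2 := cd4q1) (C3 := pd2)
    rfl (fun _ => rfl) k0_pm_112_s

noncomputable def cut_pm_113_s : Cut := Cut.of [[⟨4, 0, 0, 1449551462⟩]]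

noncomputable def f_pm_113_s : ℕ → ℕ → ℕ → ℕ → Bool := onCell 536870912 536870912 1610612736 536870912 858993459 64424510
    (rowNE 3 eng mog cd0q1 cd4q1 pd3 1 true true false .nn 1 1 3 (qsf 536870912 536870912 536870912 536870912 3) ndB0q1 ndB4q1 pcB3 cut_pm_113_s Ext.none)

def k0_pm_113_s : ∃ t, chk3 f_pm_113_s t 1 1 1 = true :=
  ⟨(l 6), by decide +kernel⟩

theorem c_pm_113_s : CertNE 536870912 536870912 536870912 536870912 858993459 64424510 3 eng mog cd0q1 cd4q1 pd3 true true false .nn 1 1 3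
    ndB0q1 ndB4q1 pcB3 cut_pm_113_s Ext.none :=
  certNE1 (fam := true) (s1 := true) (s2 := false) (a := 1) (b := 1) (c := 3) (cn := .nn) (n1 := ndB0q1) (n2 := ndB4q1) (pc := pcB3) (cut := cut_pm_113_s) (xt := Ext.none) (P1 := 536870912) (W1 := 536870912) (P2 := 536870912) (W2 := 536870912) (P3 := 858993459) (W3 := 64424510) (N0 := 3) (En := eng) (mo := mog) (C1 := cd0q1) (C2 := cd4q1) (C3 := pd3)
    rfl (fun _ => rfl) k0_pm_113_s

noncomputable def cut_pm_123_s : Cut := Cut.of [[⟨4, 0, 0, 1449551462⟩]]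

noncomputable def f_pm_123_s : ℕ → ℕ → ℕ → ℕ → Bool := onCell 536870912 536870912 1073741824 536870912 858993459 64424510
    (rowNE 3 eng mog cd0q1 cd4q2 pd3 0 true true false .npn 1 2 3 (qsf 536870912 536870912 1073741824 536870912 3) ndB0q1 ndB4q2 pcB3 cut_pm_123_s Ext.none)

def k0_pm_123_s : ∃ t, chk3 f_pm_123_s t 1 1 1 = true :=
  ⟨(l 6), by decide +kernel⟩

theorem c_pm_123_s : CertNE 536870912 536870912 1073741824 536870912 858993459 64424510 3 eng mog cd0q1 cd4q2 pd3 true true false .npn 1 2 3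
    ndB0q1 ndB4q2 pcB3 cut_pm_123_s Ext.none :=
  certNE0 (fam := true) (s1 := true) (s2 := false) (a := 1) (b := 2) (c := 3) (cn := .npn) (n1 := ndB0q1) (n2 := ndB4q2) (pc := pcB3) (cut := cut_pm_123_s) (xt := Ext.none) (P1 := 536870912) (W1 := 536870912) (P2 := 1073741824) (W2 := 536870912) (P3 := 858993459) (W3 := 64424510) (N0 := 3) (En := eng) (mo := mog) (C1 := cd0q1) (C2 := cd4q2) (C3 := pd3)
    rfl k0_pm_123_s

noncomputable def cut_pm_133_s : Cut := Cut.of [[⟨4, 0, 0, 1449551462⟩]]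

noncomputable def f_pm_133_s : ℕ → ℕ → ℕ → ℕ → Bool := onCell 536870912 536870912 0 1230186008 858993459 64424510
    (rowNE 3 eng mog cd0q1 cd4q3 pd3 0 true true false .dn 1 3 3 (qsf 536870912 536870912 0 1230186008 3) ndB0q1 ndB4q3 pcB3 cut_pm_133_s Ext.none)

def k0_pm_133_s : ∃ t, chk3 f_pm_133_s t 1 1 1 = true :=
  ⟨(l 6), by decide +kernel⟩

theorem c_pm_133_s : CertNE 536870912 536870912 0 1230186008 858993459 64424510 3 eng mog cd0q1 cd4q3 pd3 true true false .dn 1 3 3
    ndB0q1 ndB4q3 pcB3 cut_pm_133_s Ext.none :=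
  certNE0 (fam := true) (s1 := true) (s2 := false) (a := 1) (b := 3) (c := 3) (cn := .dn) (n1 := ndB0q1) (n2 := ndB4q3) (pc := pcB3) (cut := cut_pm_133_s) (xt := Ext.none) (P1 := 536870912) (W1 := 536870912) (P2 := 0) (W2 := 1230186008) (P3 := 858993459) (W3 := 64424510) (N0 := 3) (En := eng) (mo := mog) (C1 := cd0q1) (C2 := cd4q3) (C3 := pd3)
    rfl k0_pm_133_s

noncomputable def cut_pm_202_s : Cut := Cut.of [[⟨4, 0, 0, 1449551462⟩]]

noncomputable def f_pm_202_s : ℕ → ℕ → ℕ → ℕ → Bool := onCell 0 536870912 0 536870912 858993459 64424510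
    (rowNE 3 eng mog cd0q2 cd4q0 pd2 0 true true false .pp 2 0 2 (qsf 0 536870912 0 536870912 2) ndB0q2 ndB4q0 pcB2 cut_pm_202_s Ext.none)

def k0_pm_202_s : ∃ t, chk3 f_pm_202_s t 1 1 1 = true :=
  ⟨(l 6), by decide +kernel⟩

theorem c_pm_202_s : CertNE 0 536870912 0 536870912 858993459 64424510 3 eng mog cd0q2 cd4q0 pd2 true true false .pp 2 0 2
    ndB0q2 ndB4q0 pcB2 cut_pm_202_s Ext.none :=
  certNE0 (fam := true) (s1 := true) (s2 := false) (a := 2) (b := 0) (c := 2) (cn := .pp) (n1 := ndB0q2) (n2 := ndB4q0) (pc := pcB2) (cut := cut_pm_202_s) (xt := Ext.none) (P1 := 0) (W1 := 536870912) (P2 := 0) (W2 := 536870912) (P3 := 858993459) (W3 := 64424510) (N0 := 3) (En := eng) (mo := mog) (C1 := cd0q2) (C2 := cd4q0) (C3 := pd2)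
    rfl k0_pm_202_s

noncomputable def cut_pm_203_s : Cut := Cut.of [[⟨4, 0, 0, 1449551462⟩]]

noncomputable def f_pm_203_s : ℕ → ℕ → ℕ → ℕ → Bool := onCell 0 536870912 0 536870912 858993459 64424510
    (rowNE 3 eng mog cd0q2 cd4q0 pd3 0 true true false .up 2 0 3 (qsf 0 536870912 0 536870912 3) ndB0q2 ndB4q0 pcB3 cut_pm_203_s Ext.none)

def k0_pm_203_s : ∃ t, chk3 f_pm_203_s t 1 1 1 = true :=
  ⟨(l 6), by decide +kernel⟩

theorem c_pm_203_s : CertNE 0 536870912 0 536870912 858993459 64424510 3 eng mog cd0q2 cd4q0 pd3 true true false .up 2 0 3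
    ndB0q2 ndB4q0 pcB3 cut_pm_203_s Ext.none :=
  certNE0 (fam := true) (s1 := true) (s2 := false) (a := 2) (b := 0) (c := 3) (cn := .up) (n1 := ndB0q2) (n2 := ndB4q0) (pc := pcB3) (cut := cut_pm_203_s) (xt := Ext.none) (P1 := 0) (W1 := 536870912) (P2 := 0) (W2 := 536870912) (P3 := 858993459) (W3 := 64424510) (N0 := 3) (En := eng) (mo := mog) (C1 := cd0q2) (C2 := cd4q0) (C3 := pd3)
    rfl k0_pm_203_s

noncomputable def cut_pm_213_s : Cut := Cut.of [[⟨4, 0, 0, 1449551462⟩]]

noncomputable def f_pm_213_s : ℕ → ℕ → ℕ → ℕ → Bool := onCell 0 536870912 536870912 536870912 858993459 64424510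
    (rowNE 3 eng mog cd0q2 cd4q1 pd3 0 true true false .pnn 2 1 3 (qsf 0 536870912 536870912 536870912 3) ndB0q2 ndB4q1 pcB3 cut_pm_213_s Ext.none)

def k0_pm_213_s : ∃ t, chk3 f_pm_213_s t 1 1 1 = true :=
  ⟨(l 6), by decide +kernel⟩

theorem c_pm_213_s : CertNE 0 536870912 536870912 536870912 858993459 64424510 3 eng mog cd0q2 cd4q1 pd3 true true false .pnn 2 1 3
    ndB0q2 ndB4q1 pcB3 cut_pm_213_s Ext.none :=
  certNE0 (fam := true) (s1 := true) (s2 := false) (a := 2) (b := 1) (c := 3) (cn := .pnn) (n1 := ndB0q2) (n2 := ndB4q1) (pc := pcB3) (cut := cut_pm_213_s) (xt := Ext.none) (P1 := 0) (W1 := 536870912) (P2 := 536870912) (W2 := 536870912) (P3 := 858993459) (W3 := 64424510) (N0 := 3) (En := eng) (mo := mog) (C1 := cd0q2) (C2 := cd4q1) (C3 := pd3)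
    rfl k0_pm_213_s

noncomputable def cut_mm_001_s : Cut := Cut.of [[⟨4, 0, 0, 1449551462⟩]]

noncomputable def f_mm_001_s : ℕ → ℕ → ℕ → ℕ → Bool := onCell 0 536870912 0 536870912 858993459 64424510
    (rowNE 3 eng mog cd0q0 cd4q0 pd1 0 true false false .up 0 0 1 (qsf 0 536870912 0 536870912 1) ndB0q0 ndB4q0 pcB1 cut_mm_001_s Ext.none)

def k0_mm_001_s : ∃ t, chk3 f_mm_001_s t 1 1 1 = true :=
  ⟨(l 4), by decide +kernel⟩

theorem c_mm_001_s : CertNE 0 536870912 0 536870912 858993459 64424510 3 eng mog cd0q0 cd4q0 pd1 true false false .up 0 0 1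
    ndB0q0 ndB4q0 pcB1 cut_mm_001_s Ext.none :=
  certNE0 (fam := true) (s1 := false) (s2 := false) (a := 0) (b := 0) (c := 1) (cn := .up) (n1 := ndB0q0) (n2 := ndB4q0) (pc := pcB1) (cut := cut_mm_001_s) (xt := Ext.none) (P1 := 0) (W1 := 536870912) (P2 := 0) (W2 := 536870912) (P3 := 858993459) (W3 := 64424510) (N0 := 3) (En := eng) (mo := mog) (C1 := cd0q0) (C2 := cd4q0) (C3 := pd1)
    rfl k0_mm_001_s

noncomputable def cut_mm_011_s : Cut := Cut.of [[⟨4, 0, 0, 1449551462⟩]]

noncomputable def f_mm_011_s : ℕ → ℕ → ℕ → ℕ → Bool := onCell 0 536870912 536870912 536870912 858993459 64424510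
    (rowNE 3 eng mog cd0q0 cd4q1 pd1 0 true false false .pnn 0 1 1 (qsf 0 536870912 536870912 536870912 1) ndB0q0 ndB4q1 pcB1 cut_mm_011_s Ext.none)

def k0_mm_011_s : ∃ t, chk3 f_mm_011_s t 1 1 1 = true :=
  ⟨(l 4), by decide +kernel⟩

theorem c_mm_011_s : CertNE 0 536870912 536870912 536870912 858993459 64424510 3 eng mog cd0q0 cd4q1 pd1 true false false .pnn 0 1 1
    ndB0q0 ndB4q1 pcB1 cut_mm_011_s Ext.none :=
  certNE0 (fam := true) (s1 := false) (s2 := false) (a := 0) (b := 1) (c := 1) (cn := .pnn) (n1 := ndB0q0) (n2 := ndB4q1) (pc := pcB1) (cut := cut_mm_011_s) (xt := Ext.none) (P1 := 0) (W1 := 536870912) (P2 := 536870912) (W2 := 536870912) (P3 := 858993459) (W3 := 64424510) (N0 := 3) (En := eng) (mo := mog) (C1 := cd0q0) (C2 := cd4q1) (C3 := pd1)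
    rfl k0_mm_011_s

noncomputable def cut_mm_012_s : Cut := Cut.of [[⟨4, 0, 0, 1449551462⟩]]

noncomputable def f_mm_012_s : ℕ → ℕ → ℕ → ℕ → Bool := onCell 0 536870912 536870912 536870912 858993459 64424510
    (rowNE 3 eng mog cd0q0 cd4q1 pd2 0 true false false .pnp 0 1 2 (qsf 0 536870912 536870912 536870912 2) ndB0q0 ndB4q1 pcB2 cut_mm_012_s Ext.none)

def k0_mm_012_s : ∃ t, chk3 f_mm_012_s t 1 1 1 = true :=
  ⟨(l 4), by decide +kernel⟩

theorem c_mm_012_s : CertNE 0 536870912 536870912 536870912 858993459 64424510 3 eng mog cd0q0 cd4q1 pd2 true false false .pnp 0 1 2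
    ndB0q0 ndB4q1 pcB2 cut_mm_012_s Ext.none :=
  certNE0 (fam := true) (s1 := false) (s2 := false) (a := 0) (b := 1) (c := 2) (cn := .pnp) (n1 := ndB0q0) (n2 := ndB4q1) (pc := pcB2) (cut := cut_mm_012_s) (xt := Ext.none) (P1 := 0) (W1 := 536870912) (P2 := 536870912) (W2 := 536870912) (P3 := 858993459) (W3 := 64424510) (N0 := 3) (En := eng) (mo := mog) (C1 := cd0q0) (C2 := cd4q1) (C3 := pd2)
    rfl k0_mm_012_s

noncomputable def cut_mm_022_s : Cut := Cut.of [[⟨4, 0, 0, 1449551462⟩]]

noncomputable def f_mm_022_s : ℕ → ℕ → ℕ → ℕ → Bool := onCell 0 536870912 1073741824 536870912 858993459 64424510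
    (rowNE 3 eng mog cd0q0 cd4q2 pd2 0 true false false .pp 0 2 2 (qsf 0 536870912 1073741824 536870912 2) ndB0q0 ndB4q2 pcB2 cut_mm_022_s Ext.none)

def k0_mm_022_s : ∃ t, chk3 f_mm_022_s t 1 1 1 = true :=
  ⟨(l 4), by decide +kernel⟩

theorem c_mm_022_s : CertNE 0 536870912 1073741824 536870912 858993459 64424510 3 eng mog cd0q0 cd4q2 pd2 true false false .pp 0 2 2
    ndB0q0 ndB4q2 pcB2 cut_mm_022_s Ext.none :=
  certNE0 (fam := true) (s1 := false) (s2 := false) (a := 0) (b := 2) (c := 2) (cn := .pp) (n1 := ndB0q0) (n2 := ndB4q2) (pc := pcB2) (cut := cut_mm_022_s) (xt := Ext.none) (P1 := 0) (W1 := 536870912) (P2 := 1073741824) (W2 := 536870912) (P3 := 858993459) (W3 := 64424510) (N0 := 3) (En := eng) (mo := mog) (C1 := cd0q0) (C2 := cd4q2) (C3 := pd2)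
    rfl k0_mm_022_s

noncomputable def cut_mm_023_s : Cut := Cut.of [[⟨4, 0, 0, 1449551462⟩]]

noncomputable def f_mm_023_s : ℕ → ℕ → ℕ → ℕ → Bool := onCell 0 536870912 1073741824 536870912 858993459 64424510
    (rowNE 3 eng mog cd0q0 cd4q2 pd3 0 true false false .up 0 2 3 (qsf 0 536870912 1073741824 536870912 3) ndB0q0 ndB4q2 pcB3 cut_mm_023_s Ext.none)

def k0_mm_023_s : ∃ t, chk3 f_mm_023_s t 1 1 1 = true :=
  ⟨(l 4), by decide +kernel⟩

theorem c_mm_023_s : CertNE 0 536870912 1073741824 536870912 858993459 64424510 3 eng mog cd0q0 cd4q2 pd3 true false false .up 0 2 3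
    ndB0q0 ndB4q2 pcB3 cut_mm_023_s Ext.none :=
  certNE0 (fam := true) (s1 := false) (s2 := false) (a := 0) (b := 2) (c := 3) (cn := .up) (n1 := ndB0q0) (n2 := ndB4q2) (pc := pcB3) (cut := cut_mm_023_s) (xt := Ext.none) (P1 := 0) (W1 := 536870912) (P2 := 1073741824) (W2 := 536870912) (P3 := 858993459) (W3 := 64424510) (N0 := 3) (En := eng) (mo := mog) (C1 := cd0q0) (C2 := cd4q2) (C3 := pd3)
    rfl k0_mm_023_s

noncomputable def cut_mm_033_s : Cut := Cut.of [[⟨4, 0, 0, 1449551462⟩]]

noncomputable def f_mm_033_s : ℕ → ℕ → ℕ → ℕ → Bool := onCell 0 536870912 0 1230186008 858993459 64424510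
    (rowNE 3 eng mog cd0q0 cd4q3 pd3 0 true false false .pnn 0 3 3 (qsf 0 536870912 0 1230186008 3) ndB0q0 ndB4q3 pcB3 cut_mm_033_s Ext.none)

def k0_mm_033_s : ∃ t, chk3 f_mm_033_s t 1 1 1 = true :=
  ⟨(l 4), by decide +kernel⟩

theorem c_mm_033_s : CertNE 0 536870912 0 1230186008 858993459 64424510 3 eng mog cd0q0 cd4q3 pd3 true false false .pnn 0 3 3
    ndB0q0 ndB4q3 pcB3 cut_mm_033_s Ext.none :=
  certNE0 (fam := true) (s1 := false) (s2 := false) (a := 0) (b := 3) (c := 3) (cn := .pnn) (n1 := ndB0q0) (n2 := ndB4q3) (pc := pcB3) (cut := cut_mm_033_s) (xt := Ext.none) (P1 := 0) (W1 := 536870912) (P2 := 0) (W2 := 1230186008) (P3 := 858993459) (W3 := 64424510) (N0 := 3) (En := eng) (mo := mog) (C1 := cd0q0) (C2 := cd4q3) (C3 := pd3)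
    rfl k0_mm_033_s

noncomputable def cut_mm_101_s : Cut := Cut.of [[⟨4, 0, 0, 1449551462⟩]]

noncomputable def f_mm_101_s : ℕ → ℕ → ℕ → ℕ → Bool := onCell 536870912 536870912 0 536870912 858993459 64424510
    (rowNE 3 eng mog cd0q1 cd4q0 pd1 0 true false false .npn 1 0 1 (qsf 536870912 536870912 0 536870912 1) ndB0q1 ndB4q0 pcB1 cut_mm_101_s Ext.none)

def k0_mm_101_s : ∃ t, chk3 f_mm_101_s t 1 1 1 = true :=
  ⟨(l 4), by decide +kernel⟩

theorem c_mm_101_s : CertNE 536870912 536870912 0 536870912 858993459 64424510 3 eng mog cd0q1 cd4q0 pd1 true false false .npn 1 0 1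
    ndB0q1 ndB4q0 pcB1 cut_mm_101_s Ext.none :=
  certNE0 (fam := true) (s1 := false) (s2 := false) (a := 1) (b := 0) (c := 1) (cn := .npn) (n1 := ndB0q1) (n2 := ndB4q0) (pc := pcB1) (cut := cut_mm_101_s) (xt := Ext.none) (P1 := 536870912) (W1 := 536870912) (P2 := 0) (W2 := 536870912) (P3 := 858993459) (W3 := 64424510) (N0 := 3) (En := eng) (mo := mog) (C1 := cd0q1) (C2 := cd4q0) (C3 := pd1)
    rfl k0_mm_101_s

noncomputable def cut_mm_102_s : Cut := Cut.of [[⟨4, 0, 0, 1449551462⟩]]

noncomputable def f_mm_102_s : ℕ → ℕ → ℕ → ℕ → Bool := onCell 536870912 536870912 0 536870912 858993459 64424510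
    (rowNE 3 eng mog cd0q1 cd4q0 pd2 0 true false false .npp 1 0 2 (qsf 536870912 536870912 0 536870912 2) ndB0q1 ndB4q0 pcB2 cut_mm_102_s Ext.none)

def k0_mm_102_s : ∃ t, chk3 f_mm_102_s t 1 1 1 = true :=
  ⟨(l 4), by decide +kernel⟩

theorem c_mm_102_s : CertNE 536870912 536870912 0 536870912 858993459 64424510 3 eng mog cd0q1 cd4q0 pd2 true false false .npp 1 0 2
    ndB0q1 ndB4q0 pcB2 cut_mm_102_s Ext.none :=
  certNE0 (fam := true) (s1 := false) (s2 := false) (a := 1) (b := 0) (c := 2) (cn := .npp) (n1 := ndB0q1) (n2 := ndB4q0) (pc := pcB2) (cut := cut_mm_102_s) (xt := Ext.none) (P1 := 536870912) (W1 := 536870912) (P2 := 0) (W2 := 536870912) (P3 := 858993459) (W3 := 64424510) (N0 := 3) (En := eng) (mo := mog) (C1 := cd0q1) (C2 := cd4q0) (C3 := pd2)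
    rfl k0_mm_102_s

noncomputable def cut_mm_112_s : Cut := Cut.of [[⟨4, 0, 0, 1449551462⟩]]

noncomputable def f_mm_112_s : ℕ → ℕ → ℕ → ℕ → Bool := onCell 536870912 536870912 536870912 536870912 858993459 64424510
    (rowNE 3 eng mog cd0q1 cd4q1 pd2 0 true false false .dn 1 1 2 (qsf 536870912 536870912 536870912 536870912 2) ndB0q1 ndB4q1 pcB2 cut_mm_112_s Ext.none)

def k0_mm_112_s : ∃ t, chk3 f_mm_112_s t 1 1 1 = true :=
  ⟨(l 4), by decide +kernel⟩

theorem c_mm_112_s : CertNE 536870912 536870912 536870912 536870912 858993459 64424510 3 eng mog cd0q1 cd4q1 pd2 true false false .dn 1 1 2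
    ndB0q1 ndB4q1 pcB2 cut_mm_112_s Ext.none :=
  certNE0 (fam := true) (s1 := false) (s2 := false) (a := 1) (b := 1) (c := 2) (cn := .dn) (n1 := ndB0q1) (n2 := ndB4q1) (pc := pcB2) (cut := cut_mm_112_s) (xt := Ext.none) (P1 := 536870912) (W1 := 536870912) (P2 := 536870912) (W2 := 536870912) (P3 := 858993459) (W3 := 64424510) (N0 := 3) (En := eng) (mo := mog) (C1 := cd0q1) (C2 := cd4q1) (C3 := pd2)
    rfl k0_mm_112_s

noncomputable def cut_mm_113_s : Cut := Cut.of [[⟨4, 0, 0, 1449551462⟩]]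

noncomputable def f_mm_113_s : ℕ → ℕ → ℕ → ℕ → Bool := onCell 536870912 536870912 536870912 536870912 858993459 64424510
    (rowNE 3 eng mog cd0q1 cd4q1 pd3 0 true false false .nn 1 1 3 (qsf 536870912 536870912 536870912 536870912 3) ndB0q1 ndB4q1 pcB3 cut_mm_113_s Ext.none)

def k0_mm_113_s : ∃ t, chk3 f_mm_113_s t 1 1 1 = true :=
  ⟨(l 4), by decide +kernel⟩

theorem c_mm_113_s : CertNE 536870912 536870912 536870912 536870912 858993459 64424510 3 eng mog cd0q1 cd4q1 pd3 true false false .nn 1 1 3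
    ndB0q1 ndB4q1 pcB3 cut_mm_113_s Ext.none :=
  certNE0 (fam := true) (s1 := false) (s2 := false) (a := 1) (b := 1) (c := 3) (cn := .nn) (n1 := ndB0q1) (n2 := ndB4q1) (pc := pcB3) (cut := cut_mm_113_s) (xt := Ext.none) (P1 := 536870912) (W1 := 536870912) (P2 := 536870912) (W2 := 536870912) (P3 := 858993459) (W3 := 64424510) (N0 := 3) (En := eng) (mo := mog) (C1 := cd0q1) (C2 := cd4q1) (C3 := pd3)
    rfl k0_mm_113_s

noncomputable def cut_mm_123_s : Cut := Cut.of [[⟨4, 0, 0, 1449551462⟩]]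

noncomputable def f_mm_123_s : ℕ → ℕ → ℕ → ℕ → Bool := onCell 536870912 536870912 1073741824 536870912 858993459 64424510
    (rowNE 3 eng mog cd0q1 cd4q2 pd3 0 true false false .npn 1 2 3 (qsf 536870912 536870912 1073741824 536870912 3) ndB0q1 ndB4q2 pcB3 cut_mm_123_s Ext.none)

def k0_mm_123_s : ∃ t, chk3 f_mm_123_s t 1 1 1 = true :=
  ⟨(l 4), by decide +kernel⟩

theorem c_mm_123_s : CertNE 536870912 536870912 1073741824 536870912 858993459 64424510 3 eng mog cd0q1 cd4q2 pd3 true false false .npn 1 2 3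
    ndB0q1 ndB4q2 pcB3 cut_mm_123_s Ext.none :=
  certNE0 (fam := true) (s1 := false) (s2 := false) (a := 1) (b := 2) (c := 3) (cn := .npn) (n1 := ndB0q1) (n2 := ndB4q2) (pc := pcB3) (cut := cut_mm_123_s) (xt := Ext.none) (P1 := 536870912) (W1 := 536870912) (P2 := 1073741824) (W2 := 536870912) (P3 := 858993459) (W3 := 64424510) (N0 := 3) (En := eng) (mo := mog) (C1 := cd0q1) (C2 := cd4q2) (C3 := pd3)
    rfl k0_mm_123_s

noncomputable def cut_mm_133_s : Cut := Cut.of [[⟨4, 0, 0, 1449551462⟩]]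

noncomputable def f_mm_133_s : ℕ → ℕ → ℕ → ℕ → Bool := onCell 536870912 536870912 0 1230186008 858993459 64424510
    (rowNE 3 eng mog cd0q1 cd4q3 pd3 0 true false false .dn 1 3 3 (qsf 536870912 536870912 0 1230186008 3) ndB0q1 ndB4q3 pcB3 cut_mm_133_s Ext.none)

def k0_mm_133_s : ∃ t, chk3 f_mm_133_s t 1 1 1 = true :=
  ⟨(l 4), by decide +kernel⟩

theorem c_mm_133_s : CertNE 536870912 536870912 0 1230186008 858993459 64424510 3 eng mog cd0q1 cd4q3 pd3 true false false .dn 1 3 3
    ndB0q1 ndB4q3 pcB3 cut_mm_133_s Ext.none :=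
  certNE0 (fam := true) (s1 := false) (s2 := false) (a := 1) (b := 3) (c := 3) (cn := .dn) (n1 := ndB0q1) (n2 := ndB4q3) (pc := pcB3) (cut := cut_mm_133_s) (xt := Ext.none) (P1 := 536870912) (W1 := 536870912) (P2 := 0) (W2 := 1230186008) (P3 := 858993459) (W3 := 64424510) (N0 := 3) (En := eng) (mo := mog) (C1 := cd0q1) (C2 := cd4q3) (C3 := pd3)
    rfl k0_mm_133_s

noncomputable def cut_mm_202_s : Cut := Cut.of [[⟨4, 0, 0, 1449551462⟩]]

noncomputable def f_mm_202_s : ℕ → ℕ → ℕ → ℕ → Bool := onCell 0 536870912 0 536870912 858993459 64424510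
    (rowNE 3 eng mog cd0q2 cd4q0 pd2 0 true false false .pp 2 0 2 (qsf 0 536870912 0 536870912 2) ndB0q2 ndB4q0 pcB2 cut_mm_202_s Ext.none)

def k0_mm_202_s : ∃ t, chk3 f_mm_202_s t 1 1 1 = true :=
  ⟨(l 4), by decide +kernel⟩

theorem c_mm_202_s : CertNE 0 536870912 0 536870912 858993459 64424510 3 eng mog cd0q2 cd4q0 pd2 true false false .pp 2 0 2
    ndB0q2 ndB4q0 pcB2 cut_mm_202_s Ext.none :=
  certNE0 (fam := true) (s1 := false) (s2 := false) (a := 2) (b := 0) (c := 2) (cn := .pp) (n1 := ndB0q2) (n2 := ndB4q0) (pc := pcB2) (cut := cut_mm_202_s) (xt := Ext.none) (P1 := 0) (W1 := 536870912) (P2 := 0) (W2 := 536870912) (P3 := 858993459) (W3 := 64424510) (N0 := 3) (En := eng) (mo := mog) (C1 := cd0q2) (C2 := cd4q0) (C3 := pd2)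
    rfl k0_mm_202_s

noncomputable def cut_mm_203_s : Cut := Cut.of [[⟨4, 0, 0, 1449551462⟩]]

noncomputable def f_mm_203_s : ℕ → ℕ → ℕ → ℕ → Bool := onCell 0 536870912 0 536870912 858993459 64424510
    (rowNE 3 eng mog cd0q2 cd4q0 pd3 0 true false false .up 2 0 3 (qsf 0 536870912 0 536870912 3) ndB0q2 ndB4q0 pcB3 cut_mm_203_s Ext.none)

def k0_mm_203_s : ∃ t, chk3 f_mm_203_s t 1 1 1 = true :=
  ⟨(l 4), by decide +kernel⟩

theorem c_mm_203_s : CertNE 0 536870912 0 536870912 858993459 64424510 3 eng mog cd0q2 cd4q0 pd3 true false false .up 2 0 3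
    ndB0q2 ndB4q0 pcB3 cut_mm_203_s Ext.none :=
  certNE0 (fam := true) (s1 := false) (s2 := false) (a := 2) (b := 0) (c := 3) (cn := .up) (n1 := ndB0q2) (n2 := ndB4q0) (pc := pcB3) (cut := cut_mm_203_s) (xt := Ext.none) (P1 := 0) (W1 := 536870912) (P2 := 0) (W2 := 536870912) (P3 := 858993459) (W3 := 64424510) (N0 := 3) (En := eng) (mo := mog) (C1 := cd0q2) (C2 := cd4q0) (C3 := pd3)
    rfl k0_mm_203_s

noncomputable def cut_mm_213_s : Cut := Cut.of [[⟨4, 0, 0, 1449551462⟩]]

noncomputable def f_mm_213_s : ℕ → ℕ → ℕ → ℕ → Bool := onCell 0 536870912 536870912 536870912 858993459 64424510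
    (rowNE 3 eng mog cd0q2 cd4q1 pd3 0 true false false .pnn 2 1 3 (qsf 0 536870912 536870912 536870912 3) ndB0q2 ndB4q1 pcB3 cut_mm_213_s Ext.none)

def k0_mm_213_s : ∃ t, chk3 f_mm_213_s t 1 1 1 = true :=
  ⟨(l 4), by decide +kernel⟩

theorem c_mm_213_s : CertNE 0 536870912 536870912 536870912 858993459 64424510 3 eng mog cd0q2 cd4q1 pd3 true false false .pnn 2 1 3
    ndB0q2 ndB4q1 pcB3 cut_mm_213_s Ext.none :=
  certNE0 (fam := true) (s1 := false) (s2 := false) (a := 2) (b := 1) (c := 3) (cn := .pnn) (n1 := ndB0q2) (n2 := ndB4q1) (pc := pcB3) (cut := cut_mm_213_s) (xt := Ext.none) (P1 := 0) (W1 := 536870912) (P2 := 536870912) (W2 := 536870912) (P3 := 858993459) (W3 := 64424510) (N0 := 3) (En := eng) (mo := mog) (C1 := cd0q2) (C2 := cd4q1) (C3 := pd3)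
    rfl k0_mm_213_s

end Pool.Agent.Strip051.G.I8000_8600.Tab.CS.BA04

namespace Pool.Agent.Strip051.G.I8000_8600.Tab.CS.BB00

open Pool.Agent.Strip051.PB Pool.Agent.Strip051.PB.T
open Pool.Agent.Strip051.G.I8000_8600.Tab

noncomputable def cut_pp_001_s : Cut := Cut.of [[⟨4, 0, 0, 1449551462⟩]]

noncomputable def f_pp_001_s : ℕ → ℕ → ℕ → ℕ → Bool := onCell 0 536870912 0 536870912 858993459 64424510
    (rowNE 3 eng mog cd0q0 cd0q1 pd0 1 false true true .up 0 0 1 (qsf 0 536870912 536870912 536870912 0) ndB0q0 ndB0q1 pcB0 cut_pp_001_s Ext.none)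

def k0_pp_001_s : ∃ t, chk3 f_pp_001_s t 1 1 1 = true :=
  ⟨(l 3), by decide +kernel⟩

theorem c_pp_001_s : CertNE 0 536870912 536870912 536870912 858993459 64424510 3 eng mog cd0q0 cd0q1 pd0 false true true .up 0 0 1
    ndB0q0 ndB0q1 pcB0 cut_pp_001_s Ext.none :=
  certNE1 (fam := false) (s1 := true) (s2 := true) (a := 0) (b := 0) (c := 1) (cn := .up) (n1 := ndB0q0) (n2 := ndB0q1) (pc := pcB0) (cut := cut_pp_001_s) (xt := Ext.none) (P1 := 0) (W1 := 536870912) (P2 := 536870912) (W2 := 536870912) (P3 := 858993459) (W3 := 64424510) (N0 := 3) (En := eng) (mo := mog) (C1 := cd0q0) (C2 := cd0q1) (C3 := pd0)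
    rfl (fun _ => rfl) k0_pp_001_s

noncomputable def cut_pp_001_t : Cut := Cut.of [[⟨3, 0, 0, 2845415833⟩]]

noncomputable def f_pp_001_t : ℕ → ℕ → ℕ → ℕ → Bool := onCell 0 536870912 536870912 536870912 858993459 64424510
    (rowNE 3 eng mog cd0q0 cd0q1 pd0 0 false true true .up 0 0 1 (qsf 0 536870912 536870912 536870912 0) ndB0q0 ndB0q1 pcB0 cut_pp_001_t Ext.none)

def k0_pp_001_t : ∃ t, chk3 f_pp_001_t t 1 1 1 = true :=
  ⟨(l 6), by decide +kernel⟩

theorem c_pp_001_t : CertNE 0 536870912 536870912 536870912 858993459 64424510 3 eng mog cd0q0 cd0q1 pd0 false true true .up 0 0 1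
    ndB0q0 ndB0q1 pcB0 cut_pp_001_t Ext.none :=
  certNE0 (fam := false) (s1 := true) (s2 := true) (a := 0) (b := 0) (c := 1) (cn := .up) (n1 := ndB0q0) (n2 := ndB0q1) (pc := pcB0) (cut := cut_pp_001_t) (xt := Ext.none) (P1 := 0) (W1 := 536870912) (P2 := 536870912) (W2 := 536870912) (P3 := 858993459) (W3 := 64424510) (N0 := 3) (En := eng) (mo := mog) (C1 := cd0q0) (C2 := cd0q1) (C3 := pd0)
    rfl k0_pp_001_t

noncomputable def cut_pp_011_s : Cut := Cut.of [[⟨4, 0, 0, 1449551462⟩], [⟨0, 0, 0, 67108864⟩, ⟨1, 1, 0, 67108864⟩, ⟨2, 1, 0, 67108864⟩]]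

noncomputable def f_pp_011_s : ℕ → ℕ → ℕ → ℕ → Bool := onCell 536870912 536870912 536870912 536870912 858993459 64424510
    (rowNE 3 eng mog cd0q0 cd0q1 pd1 2 false true true .pnn 0 1 1 (qsf 0 536870912 536870912 536870912 1) ndB0q0 ndB0q1 pcB1 cut_pp_011_s Ext.none)

def k0_pp_011_s : ∃ t, chk3 f_pp_011_s t 1 1 1 = true :=
  ⟨(a (l 3) (b (l 3) (a (l 3) (b (l 3) (a (l 3) (b (l 3) (b (l 3) (a (l 3) (l 14))))))))), by decide +kernel⟩

theorem c_pp_011_s : CertNE 0 536870912 536870912 536870912 858993459 64424510 3 eng mog cd0q0 cd0q1 pd1 false true true .pnn 0 1 1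
    ndB0q0 ndB0q1 pcB1 cut_pp_011_s Ext.none :=
  certNE2 (fam := false) (s1 := true) (s2 := true) (a := 0) (b := 1) (c := 1) (cn := .pnn) (n1 := ndB0q0) (n2 := ndB0q1) (pc := pcB1) (cut := cut_pp_011_s) (xt := Ext.none) (P1 := 0) (W1 := 536870912) (P2 := 536870912) (W2 := 536870912) (P3 := 858993459) (W3 := 64424510) (N0 := 3) (En := eng) (mo := mog) (C1 := cd0q0) (C2 := cd0q1) (C3 := pd1)
    rfl (fun _ => rfl) k0_pp_011_s

noncomputable def cut_pp_011_t : Cut := Cut.of [[⟨3, 0, 0, 2845415833⟩], [⟨0, 0, 0, 67108864⟩, ⟨1, 1, 0, 67108864⟩, ⟨2, 1, 0, 67108864⟩]]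

noncomputable def f_pp_011_t : ℕ → ℕ → ℕ → ℕ → Bool := onCell 0 536870912 536870912 536870912 858993459 64424510
    (rowNE 3 eng mog cd0q0 cd0q1 pd1 0 false true true .pnn 0 1 1 (qsf 0 536870912 536870912 536870912 1) ndB0q0 ndB0q1 pcB1 cut_pp_011_t Ext.none)

def k0_pp_011_t : ∃ t, chk3 f_pp_011_t t 1 1 1 = true :=
  ⟨(l 6), by decide +kernel⟩

theorem c_pp_011_t : CertNE 0 536870912 536870912 536870912 858993459 64424510 3 eng mog cd0q0 cd0q1 pd1 false true true .pnn 0 1 1
    ndB0q0 ndB0q1 pcB1 cut_pp_011_t Ext.none :=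
  certNE0 (fam := false) (s1 := true) (s2 := true) (a := 0) (b := 1) (c := 1) (cn := .pnn) (n1 := ndB0q0) (n2 := ndB0q1) (pc := pcB1) (cut := cut_pp_011_t) (xt := Ext.none) (P1 := 0) (W1 := 536870912) (P2 := 536870912) (W2 := 536870912) (P3 := 858993459) (W3 := 64424510) (N0 := 3) (En := eng) (mo := mog) (C1 := cd0q0) (C2 := cd0q1) (C3 := pd1)
    rfl k0_pp_011_t

noncomputable def cut_pp_012_s : Cut := Cut.of [[⟨4, 0, 0, 1449551462⟩], [⟨0, 0, 0, 67108864⟩, ⟨1, 1, 0, 67108864⟩, ⟨2, 1, 0, 67108864⟩]]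

noncomputable def f_pp_012_s : ℕ → ℕ → ℕ → ℕ → Bool := onCell 536870912 536870912 0 536870912 858993459 64424510
    (rowNE 3 eng mog cd0q0 cd0q2 pd1 2 false true true .pnp 0 1 2 (qsf 0 536870912 0 536870912 1) ndB0q0 ndB0q2 pcB1 cut_pp_012_s Ext.none)

def k0_pp_012_s : ∃ t, chk3 f_pp_012_s t 4 4 1 = true :=
  ⟨(l 2), by decide +kernel⟩

def k1_pp_012_s : ∃ t, chk3 f_pp_012_s t 10 4 1 = true :=
  ⟨(a (a (l 2) (b (a (l 2) (b (c (c (c (l 16702064) (l 16681128)) (l 16733504)) (c (l 16727968) (l 16695288))) (c (c (c (l 16730112) (l 16740264)) (l 16755496)) (c (l 16753376) (l 16737784))))) (b (a (l 2) (b (c (c (a (l 16770344) (l 16765264)) (l 16772304)) (a (l 16751560) (l 16768640))) (b (c (l 116668799271) (l 16793600)) (l 3)))) (l 3)))) (a (c (b (c (b (c (b (l 16652424) (l 16697128)) (l 16625728)) (c (a (l 16717992) (b (l 16694168) (l 16717976))) (l 16746872))) (c (b (l 16713312) (l 16739936)) (b (l 16731752) (l 16751064)))) (b (b (c (c (l 16748248) (l 16754320)) (c (l 16760480)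 (l 16765512))) (a (b (b (l 16792984) (l 68887278375)) (l 114521314999)) (c (a (l 16769568) (l 16764352)) (l 16771712)))) (a (l 3) (c (l 178945754119) (l 174113916567))))) (c (b (c (l 16756856) (l 16746312)) (b (b (l 16762424) (b (l 16771640) (l 104857646679))) (l 164450234103))) (b (b (c (l 16692352) (l 16669080)) (c (l 16729128) (l 16716056))) (b (b (l 16753360) (a (l 16774392) (l 16767888))) (l 158007785031))))) (b (b (c (c (c (l 16684968) (l 16629408)) (l 16693080)) (c (l 16706520) (l 16579816))) (c (c (c (b (l 16677312) (a (l 16706208) (l 16694832))) (l 16728200)) (c (l 16725864) (l 16741048))) (c (l 16731272) (c (l 16712192) (l 16674392))))) (b (c (c (c (b (l 16723792) (l 16747328)) (l 16765032)) (c (l 16752688) (l 16759808))) (c (c (l 16757480) (l 16753152)) (c (l 16747080) (l 16739504)))) (a (b (c (b (c (l 16771544) (l 16774208)) (l 108615734023)) (b (l 16773376) (l 16794336))) (l 3)) (b (c (c (b (l 16760704) (l 16771008)) (l 16770936)) (c (l 16770640) (l 16767248))) (b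 (c (l 106468251783) (l 16794672)) (l 3)))))))), by decide +kernel⟩

def k2_pp_012_s : ∃ t, chk3 f_pp_012_s t 22 4 1 = true :=
  ⟨(a (c (b (c (b (c (l 16644800) (l 16655432)) (c (b (l 16656480) (l 16699576)) (l 16626824))) (c (b (l 16687560) (l 16712304)) (l 16721512))) (b (c (a (c (l 16717968) (l 16729792)) (b (l 16661648) (l 16723712))) (c (l 16738272) (l 16748984))) (c (b (c (l 16746472) (l 16752456)) (a (a (l 90362114183) (l 44728082695)) (b (l 16759568) (l 16769808)))) (b (c (l 16758544) (l 16763344)) (a (l 83382801383) (l 16770048)))))) (b (b (c (l 16694456) (l 16584952)) (c (l 16718744) (a (l 16691088) (l 16682904)))) (b (c (c (l 16745408) (l 16739080)) (c (l 16730288) (l 16719328))) (b (c (l 16760664) (l 16753056)) (a (b (l 16751528) (l 16795064)) (c (l 16769656) (l 16766416))))))) (b (b (c (c (a (l 16522816) (l 16536528)) (l 16692896)) (c (l 16682504) (l 16633600))) (c (c (c (l 16690400) (l 16631800)) (l 16712176)) (c (l 16706288) (l 16608376)))) (b (c (c (a (b (l 16652176)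 (l 16713776)) (b (l 16643112) (l 16704240))) (c (l 16724472) (l 16737896))) (c (l 16729600) (c (l 16714424) (l 16679984)))) (c (c (c (b (l 16723624) (l 16745688)) (l 16763656)) (c (l 16750824) (l 16756856))) (c (c (l 16754816) (l 16751344)) (c (l 16746512) (l 16740408))))))), by decide +kernel⟩

def k3_pp_012_s : ∃ t, chk3 f_pp_012_s t 23 4 1 = true :=
  ⟨(b (c (c (a (c (b (l 16592600) (l 16631528)) (b (l 16628512) (l 16659240))) (c (b (l 16580712) (l 16617120)) (b (l 16617704) (l 16646544)))) (c (a (l 16676416) (l 16666144)) (l 16695032))) (a (b (a (l 16525584) (l 16519352)) (c (l 16693800) (l 16656608))) (c (l 16669848) (b (l 16608056) (l 16642824))))) (c (b (c (a (c (b (l 16661544) (l 16640048)) (l 16691400)) (c (b (l 16645336) (l 16664616)) (l 16635000))) (a (c (l 16711392) (l 16726568)) (l 16710488))) (c (a (c (a (l 16718424) (b (l 16697832) (l 16718488))) (l 16766776)) (c (b (l 16684152) (l 16661960)) (l 16708640))) (a (c (l 16736696) (l 16745040)) (c (l 16723520) (l 16732968)))))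 (c (a (b (l 16716560) (l 16760608)) (b (l 16703448) (l 16725944))) (a (b (c (l 16699168) (l 16683896)) (b (l 16675800) (l 16734520))) (b (l 16634704) (c (l 16714232) (l 16703976))))))), by decide +kernel⟩

def k4_pp_012_s : ∃ t, chk3 f_pp_012_s t 2 5 1 = true :=
  ⟨(a (l 3) (b (b (a (l 3) (a (b (a (a (l 3) (b (c (a (l 16793304) (l 16787096)) (l 16795496)) (l 3))) (c (a (c (a (l 82309049687) (l 16788776)) (l 78014090135)) (c (l 16763416) (l 16769056))) (b (a (l 16771376) (l 16763352)) (a (l 16798616) (l 16770720))))) (a (l 3) (a (l 3) (b (c (a (l 16789368) (l 16786160)) (l 16799184)) (l 3))))) (a (a (b (c (c (l 16752872) (l 16762648)) (l 16738000)) (c (c (b (l 16767664) (l 83919661767)) (l 95730740423)) (a (l 106468172375) (l 16771592)))) (c (c (b (l 16742736) (l 16762024)) (b (l 16756328) (l 16767944))) (c (l 16760544) (l 16755104)))) (c (c (c (a (l 16739240) (l 16729088)) (l 16762400)) (b (l 16747120) (l 16779384))) (c (c (l 16751264) (l 16748096)) (c (l 16743936) (l 16738824)))))))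 (a (l 3) (a (l 3) (b (c (a (a (l 193441271655) (b (a (l 16790736) (l 16774392)) (l 127406213159))) (c (a (b (l 16766064) (l 68887273607)) (l 16760624)) (a (l 94656997095) (l 16766792)))) (a (a (l 153712889911) (a (l 125258724263) (l 104320767431))) (b (c (l 16765776) (l 16762376)) (a (l 88751515047) (l 16767528))))) (a (l 3) (a (a (l 3) (c (l 189683183959) (l 148881042103))) (c (c (b (l 43654339159) (l 116668792183)) (l 83919673431)) (b (l 68350418823) (l 122037502599))))))))) (l 3))), by decide +kernel⟩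

def k5_pp_012_s : ∃ t, chk3 f_pp_012_s t 2 3 1 = true :=
  ⟨(l 3), by decide +kernel⟩

def k6_pp_012_s : ∃ t, chk3 f_pp_012_s t 24 4 1 = true :=
  ⟨(a (c (c (b (b (l 16485048) (b (l 16570552) (l 16565216))) (b (c (l 16661696) (l 16643304)) (c (b (l 16668040) (l 16686552)) (l 16694168)))) (b (l 16674328) (b (l 16700456) (l 16699048)))) (b (c (l 16657624) (b (l 16596496) (l 16629800))) (b (c (l 16690352) (l 16662168)) (c (l 16712248) (l 16619976))))) (c (c (b (b (l 16498520) (l 16505816)) (c (b (l 16628440) (l 16620728)) (l 16719680))) (b (l 16666320) (b (l 16691032) (l 16709688)))) (b (c (l 16645528) (b (l 16585488) (l 16617344))) (b (a (l 16625664) (l 16639952)) (c (l 16698648) (l 16657056)))))), by decide +kernel⟩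

def k7_pp_012_s : ∃ t, chk3 f_pp_012_s t 24 5 1 = true :=
  ⟨(b (a (b (c (c (c (b (l 16663336) (l 16682288)) (l 16725104)) (c (l 16735640) (l 16740784))) (c (l 16735488) (c (l 16727344) (l 16678456)))) (c (b (c (a (l 16750864) (l 16741560)) (l 16778312)) (a (c (a (l 16786944) (l 16766488)) (l 16771888)) (c (l 16759144) (l 16765536)))) (a (b (l 16755520) (b (l 16766592) (l 66202933143))) (c (l 16756968) (l 16751488))))) (b (c (c (c (a (l 16659824) (l 16672744)) (l 16710216)) (c (l 16723120) (l 16728128))) (c (l 16721256) (c (l 16711200) (l 16702808)))) (c (c (c (a (l 16738264) (l 16728960)) (l 16761264)) (b (l 16745264) (l 16777104))) (c (c (l 16747344) (l 16744048)) (c (l 16740024) (l 16735296)))))) (b (b (a (a (c (c (l 190756925367) (l 129553703271)) (l 138143638743)) (a (c (b (l 16788304) (l 123648111415)) (l 101636405415)) (c (b (l 16771256) (l 88214626439)) (l 76940352151)))) (c (a (c (c (l 16766128) (l 16767856)) (l 16770528)) (c (l 16757592) (l 16764168))) (a (c (l 16769280)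 (l 16767096)) (c (l 16761584) (l 16757512))))) (a (l 3) (a (b (c (c (l 91972725543) (l 16789608)) (l 101636408839)) (l 3)) (a (c (b (l 16783952) (l 118816271111)) (l 86604021751)) (c (b (l 16769464) (l 66739788359)) (l 86603955415)))))) (l 3))), by decide +kernel⟩

def k8_pp_012_s : ∃ t, chk3 f_pp_012_s t 25 2 1 = true :=
  ⟨(b (c (c (b (c (a (l 16594048) (l 16568368)) (l 16603904)) (a (c (b (l 16618200) (l 16629128)) (l 16656664)) (b (l 16622536) (l 16649672)))) (b (a (l 16659008) (l 16649784)) (b (a (l 16682312) (l 16670952)) (a (l 16698680) (l 16686520))))) (a (b (c (l 16633568) (l 16611048)) (c (l 16674512) (b (l 16634912) (l 16663240)))) (b (c (l 16621704) (l 16579352)) (c (l 16661376) (b (l 16622056) (l 16648992)))))) (a (b (b (c (c (a (l 16693080) (l 16686480)) (l 16717360)) (c (l 16707064) (l 16648960))) (c (c (a (l 16764088) (l 16748200)) (b (l 16732896) (l 16743688))) (c (l 16762376) (c (l 16702064) (l 16674744))))) (a (b (c (c (c (l 16776264) (l 16758528)) (a (l 16759832)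 (l 16761848))) (c (l 16760536) (l 16756288))) (b (b (c (a (l 92509593751) (l 53318013399)) (l 84993411223)) (c (l 200420602311) (l 140291113703))) (l 3))) (b (c (c (b (l 16740064) (l 16756032)) (l 16777960)) (c (l 16752784) (l 16746800))) (b (c (a (b (l 16771552) (l 80161561047)) (c (l 16769880) (l 16772200))) (b (l 16768728) (l 73719122215))) (a (l 3) (c (l 203641827111) (l 142975465143))))))) (b (c (c (b (l 16698400) (a (l 16730488) (l 16702712))) (b (l 16704896) (l 16746424))) (b (c (l 16693000) (l 16675296)) (c (l 16716192) (l 16702904)))) (c (b (c (c (a (l 16736960) (l 16686624)) (l 16759816)) (c (l 16745216) (l 16746000))) (b (c (a (l 16763120) (l 16754400)) (c (l 16762856) (l 16763416))) (a (b (a (c (l 16776840) (l 16776984)) (l 26474464791)) (c (l 190220062535) (l 117205661927))) (c (c (b (l 16765168) (l 16773304)) (l 16780792)) (b (l 16769168) (l 16774760)))))) (b (c (c (l 16743000) (l 16739416)) (c (l 16735264) (l 16730576))) (b (c (l 16761168) (l 16757312)) (a (b (l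 61907962487) (l 125795600087)) (b (l 16766264) (l 50096801623))))))))), by decide +kernel⟩

def k9_pp_012_s : ∃ t, chk3 f_pp_012_s t 13 4 1 = true :=
  ⟨(a (a (b (c (b (l 16436880) (c (l 16592072) (l 16645296))) (c (l 16610128) (l 16569336))) (c (c (b (l 16616088) (l 16641240)) (l 16666624)) (c (l 16648512) (b (l 16609960) (l 16635552))))) (b (b (l 6) (c (l 16491712) (l 16550208))) (c (b (l 16509616) (c (l 16634400) (l 16661936))) (c (l 16636072) (l 16547496))))) (a (b (a (c (l 16460904) (l 16521248)) (l 6)) (c (b (l 16567824) (l 16543664)) (c (l 16624040) (l 16578600)))) (b (l 6) (b (c (l 16627184) (l 16592384)) (c (l 16642824) (l 16611800)))))), by decide +kernel⟩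

def k10_pp_012_s : ∃ t, chk3 f_pp_012_s t 13 5 1 = true :=
  ⟨(b (a (c (c (a (b (l 16666888) (c (l 16645440) (l 16699320))) (b (l 16657952) (l 16682184))) (a (b (l 16692328) (l 16712664)) (b (l 16679720) (l 16699800)))) (a (b (c (l 16679192) (l 16660496)) (c (l 16701776) (l 16644824))) (c (l 16697416) (b (l 16646680) (l 16671592))))) (c (c (a (b (l 16650632) (l 16672720)) (b (l 16644960) (l 16664888))) (a (l 16676728) (l 16663720))) (b (a (l 16612424) (l 16631584)) (c (l 16688272) (a (l 16657416) (l 16644272)))))) (b (c (c (a (a (c (l 16737864) (l 16724760)) (a (l 16710696) (l 16704472))) (a (l 16695904) (l 16685928))) (a (a (c (l 16732936) (l 16732528)) (l 16721208)) (a (l 16708016) (l 16694648)))) (a (a (c (l 16726208) (c (l 16697376) (l 16691320))) (c (l 16711464) (b (l 16691744) (l 16705992)))) (a (c (l 16697072) (l 16641264)) (c (l 16683056) (l 16668672))))) (a (a (c (c (a (c (l 16773016) (l 16755328)) (c (l 16743448) (l 16747712))) (a (b (l 16754200) (l 16765376)) (l 16774160)))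 (c (a (l 16756072) (l 16748264)) (a (l 16751216) (l 16741888)))) (c (c (c (l 16762920) (l 16757912)) (c (l 16742656) (l 16741776))) (a (c (l 16740528) (l 16732816)) (b (l 16721800) (l 16735672))))) (c (c (a (c (l 16738152) (l 16723824)) (a (l 16711264) (l 16705648))) (a (b (l 16724360) (l 16735360)) (l 16716272))) (a (c (l 16742544) (a (l 16694488) (l 16686216))) (c (l 16706824) (b (l 16688488) (l 16681264)))))))), by decide +kernel⟩

def k11_pp_012_s : ∃ t, chk3 f_pp_012_s t 12 6 1 = true :=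
  ⟨(b (a (l 3) (a (l 3) (a (l 3) (a (l 3) (b (b (c (c (l 188072578919) (l 191830672887)) (l 120963758103)) (l 3)) (l 3)))))) (l 3)), by decide +kernel⟩

def k12_pp_012_s : ∃ t, chk3 f_pp_012_s t 26 6 1 = true :=
  ⟨(b (b (b (c (a (a (c (b (c (l 16772048) (l 16772736)) (a (l 126869327431) (l 68887263655))) (b (l 16773776) (l 91435854327))) (c (a (l 16782736) (l 16765320)) (l 16780416))) (c (a (l 16779984) (l 16750976)) (a (l 16763248) (l 16756536)))) (a (a (a (l 93046469527) (a (l 16774960) (l 16772840))) (a (l 16769560) (l 16765136))) (c (l 16756328) (l 16757096)))) (a (a (l 3) (b (c (c (a (l 114521294599) (l 64055423799)) (l 78014079447)) (b (l 16792264) (l 104320758839))) (l 3))) (c (c (a (b (l 16780360) (a (l 95730810679) (l 16782792))) (a (l 16767136) (l 16762976))) (a (a (l 53854884903) (l 16772744)) (l 16767680))) (a (b (l 16789344) (b (l 16790912) (l 68350407335))) (c (l 16765672) (l 16763184)))))) (b (a (l 3) (a (c (b (c (l 210084285431) (l 204178701175)) (l 3)) (l 195588759463))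 (a (b (c (c (b (l 16776032) (l 110763192743)) (l 16776368)) (l 16775912)) (l 3)) (c (c (b (l 16773568) (l 178945780167)) (b (l 16774384) (l 96267685047))) (a (l 74792852135) (l 57612982311)))))) (l 3))) (l 3)), by decide +kernel⟩

def k13_pp_012_s : ∃ t, chk3 f_pp_012_s t 54 6 1 = true :=
  ⟨(b (b (c (b (c (a (l 16743360) (l 16736152)) (l 16767368)) (c (a (l 16777896) (l 16749216)) (a (l 16760896) (l 16754056)))) (a (c (l 16751024) (l 16745736)) (c (l 16743168) (l 16736664)))) (b (c (a (c (b (l 16777760) (a (c (l 54391744023) (l 16776368)) (l 16772168))) (a (l 28085077111) (l 16770360))) (c (a (l 16764616) (l 16760624)) (l 16765200))) (a (c (b (l 16767632) (l 16774280)) (l 16780024)) (c (l 16762824) (l 16759968)))) (a (a (l 3) (b (c (c (b (l 53854873463) (l 214379261015)) (l 75329717127)) (l 80161559543)) (l 3))) (a (c (b (c (c (l 16779960) (l 16775008)) (l 16775328)) (c (l 209547422343) (l 214916127703))) (b (l 16774632) (l 123648105975))) (b (c (c (l 16770744) (l 16771888))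 (l 16770200)) (c (c (c (b (l 16775744) (l 97878287895)) (l 58149842055)) (l 56002362167)) (l 64592302487))))))) (l 3)), by decide +kernel⟩

def k14_pp_012_s : ∃ t, chk3 f_pp_012_s t 55 6 1 = true :=
  ⟨(b (a (b (c (c (c (l 16733528) (l 16737960)) (l 16741640)) (c (l 16735400) (l 16727872))) (c (c (b (c (l 16753672) (l 16756016)) (a (b (l 16766672) (c (l 16773200) (l 16773608))) (c (l 16765472) (l 16766616)))) (b (l 16758272) (b (l 16766664) (l 16780152)))) (b (c (l 16754752) (l 16750544)) (c (l 16767968) (l 16766184))))) (c (b (c (l 16750056) (l 16734704)) (b (c (l 16747464) (l 16751288)) (c (c (l 16769848) (l 16761040)) (c (l 16762808) (l 16761832))))) (b (c (l 16727728) (l 16677424)) (c (b (l 16746768) (l 16759784)) (b (l 16720440) (l 16756640)))))) (b (b (b (c (c (c (a (a (l 182703880471) (b (l 16774176) (l 72108479735))) (l 16771016)) (a (a (l 189683200951) (l 28621939783)) (l 16770256))) (a (a (l 87140878487) (l 16781392)) (l 16770904))) (a (a (l 91435850519) (l 29695692215))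 (c (l 16769728) (l 16768360)))) (a (l 3) (a (c (b (c (a (l 82309028599) (l 16775832)) (l 16776880)) (c (l 204178707303) (l 130627418423))) (b (l 16776656) (l 128479939767))) (c (c (c (b (l 16772576) (c (l 16778560) (l 16776008))) (l 16774560)) (l 16774776)) (l 16784504))))) (b (b (a (l 3) (a (l 3) (c (c (c (l 166597755431) (l 108615706727)) (l 101099517271)) (l 100025780503)))) (l 3)) (l 3))) (l 3))), by decide +kernel⟩

def k15_pp_012_s : ∃ t, chk3 f_pp_012_s t 6 7 1 = true :=
  ⟨(l 3), by decide +kernel⟩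

def k16_pp_012_s : ∃ t, chk3 f_pp_012_s t 7 2 1 = true :=
  ⟨(a (b (b (l 6) (a (a (c (c (l 16614984) (l 16617104)) (c (l 16580208) (l 16580880))) (b (l 6) (a (l 16587288) (l 16602112)))) (a (c (l 16574536) (l 16573032)) (l 6)))) (a (a (b (b (c (l 16646328) (l 16619976)) (c (l 16602584) (l 16640336))) (b (c (c (l 16677608) (l 16681064)) (c (l 16648432) (l 16655216))) (c (c (l 16697976) (l 16702480)) (c (l 16692440) (a (l 16684024) (l 16676824)))))) (b (c (c (l 16646184) (l 16637048)) (c (l 16583280) (l 16589808))) (b (c (l 16672032) (c (l 16656032) (l 16642600))) (c (c (l 16688856) (l 16688464)) (c (l 16678320) (l 16624392)))))) (c (b (a (b (l 16618152) (l 16637184)) (b (l 16602776) (l 16621720))) (b (a (l 16657592) (l 16641952)) (a (c (l 16681240) (l 16674096)) (b (l 16657448) (l 16667776))))) (b (a (b (l 16598448) (l 16595824)) (l 16596696)) (a (c (b (l 16642784) (l 16643368)) (b (l 16630632) (l 16611032))) (b (l 16582880) (c (l 16629408) (l 16619704)))))))) (b (l 6) (a (b (a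 (c (b (l 16586216) (l 16605040)) (l 16545088)) (b (l 6) (a (l 16590200) (l 16541224)))) (a (c (b (l 16625056) (l 16645320)) (b (l 16592768) (l 16654616))) (b (c (l 16585832) (l 16583248)) (c (l 16585232) (l 16581680))))) (b (a (b (l 6) (c (l 16504304) (l 16579096))) (l 6)) (a (c (b (l 16524296) (l 16544960)) (b (l 16596232) (l 16615352))) (b (c (c (l 16561680) (l 16571432)) (l 16589592)) (c (a (l 16592584) (l 16560864)) (l 16608440)))))))), by decide +kernel⟩

def k17_pp_012_s : ∃ t, chk3 f_pp_012_s t 56 12 1 = true :=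
  ⟨(c (b (a (c (l 16743848) (l 16727712)) (c (l 16717016) (l 16720656))) (b (c (a (l 16740520) (l 16733912)) (a (l 16744224) (l 16737112))) (c (a (c (l 16751648) (l 16753920)) (c (l 16744320) (l 16747080))) (a (l 16755352) (l 16748200))))) (c (a (b (l 16720152) (b (l 16738888) (l 16751688))) (b (l 16712656) (c (l 16738744) (l 16714896)))) (b (a (l 16690192) (l 16682232)) (a (b (l 16711632) (l 16747392)) (b (l 16724032) (l 16717432)))))), by decide +kernel⟩

def k18_pp_012_s : ∃ t, chk3 f_pp_012_s t 56 13 1 = true :=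
  ⟨(b (b (a (c (c (a (c (b (l 16742440) (l 16770104)) (l 16767720)) (c (l 16768016) (l 16764032))) (c (l 16767008) (l 16766168))) (c (l 16764760) (l 16762616))) (c (c (a (c (l 16758848) (l 16760400)) (l 16761136)) (c (l 16760056) (l 16758728))) (c (l 16756520) (l 16753176)))) (a (b (a (b (c (c (c (l 16779088) (l 16775352)) (l 16775480)) (l 16774960)) (c (c (c (a (l 206863074551) (l 79087801319)) (l 91972707319)) (l 85530259655)) (l 84993394023))) (c (c (c (b (l 16771000) (l 16774328)) (l 16773056)) (l 16773320)) (l 16777496))) (b (a (l 3) (c (c (c (a (l 110763186567) (l 16779232)) (l 75329705591)) (l 70497873031)) (l 16785816))) (l 3))) (b (c (c (a (c (l 16768560) (l 16769288)) (l 16765040)) (l 16767896)) (c (l 16766352) (l 16764576))) (a (c (c (a (b (l 16774640) (a (l 111300056007) (l 77477185239))) (c (l 16774112) (l 16774376))) (c (l 16775456) (l 16775288))) (a (l 16775936) (l 16773784))) (c (c (c (l 16771032) (l 16771536)) (l 16771768)) (l 16770400)))))) (b (b (a (l 3) (a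 (a (l 3) (c (c (c (l 189683205863) (l 195588787767)) (l 213305524327)) (l 126869326615))) (b (c (c (c (a (l 33990644023) (l 16774896)) (l 16778672)) (l 16776032)) (l 16775696)) (c (c (a (l 3) (c (b (l 16777288) (l 203104979127)) (l 94120188055))) (l 98415162135)) (l 90898975223))))) (l 3)) (l 3))), by decide +kernel⟩

def k19_pp_012_s : ∃ t, chk3 f_pp_012_s t 114 6 1 = true :=
  ⟨(b (c (b (b (l 16711976) (l 16685112)) (b (a (l 16733280) (l 16730296)) (c (l 16749288) (l 16741000)))) (c (b (l 16705208) (b (l 16702352) (l 16735712))) (b (l 16674440) (b (l 16715600) (l 16708600))))) (b (b (c (c (c (l 16749384) (l 16751592)) (l 16752144)) (c (l 16748368) (l 16744008))) (c (c (a (c (b (l 16739632) (l 16767016)) (l 16764904)) (c (l 16765216) (l 16761312))) (c (l 16765192) (l 16762912))) (c (l 16761320) (l 16758912)))) (b (c (a (b (c (c (b (l 16771840) (c (l 16777640) (l 16775104))) (l 16777688)) (l 16773808)) (b (c (c (a (l 193978174103) (b (l 16776448) (l 107005088087))) (a (l 144586055255)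 (l 16777176))) (l 81772162551)) (l 3))) (c (b (c (l 16769448) (l 16770040)) (c (b (l 16774200) (a (l 152102241783) (b (l 16775568) (l 33990643095)))) (a (b (l 16775368) (l 100562639367)) (l 16777608)))) (b (l 16770104) (a (l 54391741431) (l 16774936))))) (b (c (l 16771192) (l 16770312)) (a (b (l 76403459111) (l 3)) (c (l 16775576) (l 16775296))))) (a (l 3) (b (c (c (b (a (l 3) (c (l 209547430887) (l 208473689207))) (l 3)) (l 209547435127)) (l 243370290919)) (l 3)))))), by decide +kernel⟩

def k20_pp_012_s : ∃ t, chk3 f_pp_012_s t 115 6 1 = true :=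
  ⟨(b (c (c (b (l 16706040) (b (l 16721440) (l 16732280))) (b (l 16706424) (b (l 16722736) (l 16733720)))) (c (b (l 16676840) (b (l 16694672) (l 16727832))) (b (l 16666792) (b (l 16707424) (l 16721032))))) (b (c (c (b (c (l 16742264) (l 16744880)) (b (l 16757480) (a (l 16759968) (l 16756400)))) (b (l 16744792) (c (l 16756624) (l 16755288)))) (b (c (l 16740304) (l 16714176)) (c (l 16753080) (l 16749768)))) (b (c (c (b (c (a (l 16765552) (l 16761776)) (l 16764624)) (a (c (b (l 16770224) (l 16773352)) (l 16772192)) (c (l 16767912) (l 16768560)))) (c (b (l 16764848) (l 16770448)) (l 16767048))) (c (a (l 16768184) (l 16764000)) (a (l 16766984) (l 16762336)))) (a (b (b (a (c (c (c (a (l 147270403047) (l 62444798519)) (l 73719092663)) (l 16777288)) (l 16777112)) (c (c (c (l 16775480) (l 16775608)) (l 16775560)) (l 16775232))) (a (l 3) (c (c (a (l 211158040535) (c (l 153712854135) (l 101099508711))) (l 101636383047)) (l 16776944)))) (l 3)) (b (a (c (c (b (l 16773624) (c (c (b (l 16775784)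 (l 78550925927)) (l 12515806871)) (l 16779248))) (l 16780344)) (l 16779928)) (c (c (c (l 16773080) (l 16773360)) (l 16773224)) (l 16772504))) (b (a (c (c (c (l 219211107607) (l 218674236807)) (l 214379269719)) (l 144049189431)) (c (c (b (a (a (l 104320731799) (l 63518541927)) (l 16776432)) (c (l 176798303863) (l 124184958311))) (l 76940320231)) (l 16777272))) (l 3))))))), by decide +kernel⟩

def k21_pp_012_s : ∃ t, chk3 f_pp_012_s t 29 12 2 = true :=
  ⟨(b (a (c (a (l 16701152) (l 16696944)) (l 16695384)) (a (l 16687416) (l 16679008))) (b (a (c (l 16721256) (l 16711552)) (a (l 16702888) (l 16694344))) (a (a (c (l 16726312) (l 16726272)) (c (l 16721088) (l 16718536))) (a (l 16713200) (l 16704640))))), by decide +kernel⟩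

def k22_pp_012_s : ∃ t, chk3 f_pp_012_s t 29 13 2 = true :=
  ⟨(c (b (a (b (a (l 16737192) (l 16731576)) (a (c (l 16752736) (l 16749520)) (c (l 16741400) (l 16742904)))) (a (b (l 16725592) (a (l 16737592) (l 16733408))) (b (l 16716936) (l 16727000)))) (a (b (a (a (c (b (l 16758144) (l 16764176)) (l 16762272)) (c (l 16762960) (l 16758976))) (a (b (l 16752288) (l 16757880)) (l 16751832))) (b (a (a (c (b (l 16768688) (l 16771704)) (l 16770672)) (c (l 16766528) (l 16767144))) (a (c (l 16763032) (l 16763368)) (l 16759840))) (a (a (b (c (a (a (l 16778488) (l 16775200)) (l 16773760)) (a (l 16775808) (l 16773984))) (b (c (a (a (l 220821718711) (l 89288346407)) (l 16776008)) (a (l 103783863127) (l 16776088))) (a (l 3) (c (a (l 174650819639) (l 17884514535)) (l 82309026103))))) (c (b (l 16770928) (a (l 16774816) (l 16772920))) (b (l 16771280) (l 16774072)))) (a (c (c (l 16768616) (l 16768856)) (l 16768960)) (c (l 16765216) (l 16765168)))))) (a (b (a (l 16747824) (l 16743760)) (a (b (l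 16755952) (l 16764176)) (b (l 16751968) (l 16757640)))) (b (a (l 16739616) (l 16735384)) (a (b (l 16747904) (l 16753624)) (l 16751880)))))) (b (a (a (b (l 16737264) (c (l 16749144) (l 16747552))) (b (l 16729440) (l 16740440))) (a (b (l 16721288) (l 16732288)) (b (l 16712976) (l 16723992)))) (a (a (a (b (l 16761624) (b (l 16770328) (b (l 16774744) (a (l 110226318199) (l 16776696))))) (b (l 16757712) (b (l 16766424) (l 16772352)))) (b (c (l 16752272) (l 16751168)) (a (b (l 16762456) (l 16768432)) (b (l 16758472) (l 16764472))))) (a (b (l 16748848) (b (l 16752440) (a (l 16760480) (l 16756456)))) (b (l 16735408) (b (l 16744296) (l 16750368))))))), by decide +kernel⟩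

def k23_pp_012_s : ∃ t, chk3 f_pp_012_s t 29 6 3 = true :=
  ⟨(b (a (c (b (a (l 16669496) (l 16662144)) (b (l 16704184) (a (l 16699072) (l 16691272)))) (b (c (l 16658456) (l 16632176)) (b (a (l 16699552) (l 16692032)) (a (l 16712888) (l 16705056))))) (a (b (a (l 16652096) (l 16648632)) (c (l 16677600) (b (l 16684848) (l 16697544)))) (b (l 16622560) (c (l 16669896) (b (l 16678040) (l 16690432)))))) (b (a (a (c (b (l 16732336) (l 16744920)) (b (l 16705720) (c (l 16721048) (l 16718952)))) (b (c (l 16703376) (l 16697560)) (c (l 16736704) (l 16711480)))) (a (b (c (l 16695344) (l 16689696)) (c (l 16707576) (l 16703328))) (c (b (l 16687464) (l 16699568)) (b (l 16703304) (l 16695680))))) (a (a (b (c (a (l 16759824) (l 16755632)) (a (l 16757776) (l 16753256))) (c (b (l 16767432) (a (b (l 16774472) (l 69961003479)) (l 16771864))) (b (l 16766368) (a (b (l 16774160) (l 16777144)) (l 16771312))))) (b (c (l 16749352) (a (l 16727848) (l 16723528))) (c (b (l 16758984) (l 16765512)) (b (l 16757288)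 (l 16764448))))) (a (c (b (l 16741072) (b (l 16750672) (l 16757160))) (b (b (l 16713752) (l 16720712)) (a (l 16754304) (l 16729112)))) (b (c (b (l 16708904) (l 16715208)) (c (l 16710048) (l 16708624))) (c (b (l 16721568) (l 16748976)) (a (l 16725032) (l 16721088)))))))), by decide +kernel⟩

def k24_pp_012_s : ∃ t, chk3 f_pp_012_s t 30 6 1 = true :=
  ⟨(b (a (c (b (a (l 16670232) (l 16661336)) (a (c (l 16692856) (l 16667504)) (l 16681944))) (a (b (l 16616072) (b (l 16653968) (l 16665680))) (b (l 16631152) (c (l 16655592) (l 16651496))))) (c (b (l 16647720) (a (b (l 16667896) (l 16657504)) (l 16632776))) (b (a (l 16625824) (l 16642072)) (b (l 16671384) (a (l 16674928) (l 16649016)))))) (a (b (b (c (a (l 16706376) (l 16697816)) (a (a (l 16679544) (l 16697160)) (l 16671512))) (c (a (c (l 16718264) (l 16694808)) (l 16708632)) (a (c (l 16691984) (l 16688816)) (b (l 16680816) (l 16687136))))) (a (c (a (b (l 16730224) (b (l 16738896) (l 16744848))) (b (l 16726064) (c (l 16738256) (l 16721520))))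 (b (c (l 16704360) (l 16702200)) (c (a (l 16718888) (l 16715128)) (a (l 16717336) (l 16713832))))) (c (b (c (l 16699352) (l 16698360)) (a (b (l 16709712) (l 16736696)) (c (l 16708816) (l 16708448)))) (b (c (l 16697256) (l 16696024)) (c (l 16730720) (l 16730016)))))) (b (b (c (a (l 16668256) (l 16659512)) (a (l 16665872) (l 16660808))) (a (c (b (l 16676448) (l 16681992)) (b (l 16675072) (l 16681304))) (c (b (l 16667800) (l 16673424)) (l 16694000)))) (b (a (c (c (l 16690520) (l 16690568)) (l 16718208)) (c (c (l 16681352) (l 16682752)) (c (l 16705344) (l 16707184)))) (a (c (c (l 16733776) (l 16723616)) (c (l 16723984) (l 16724400))) (c (c (b (l 16690144) (l 16696192)) (b (l 16691656) (l 16697696))) (c (l 16717328) (l 16719264)))))))), by decide +kernel⟩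

def k25_pp_012_s : ∃ t, chk3 f_pp_012_s t 31 6 1 = true :=
  ⟨(a (b (b (c (c (l 16585592) (l 16609408)) (a (l 16616880) (l 16634008))) (a (c (b (l 16649664) (l 16660464)) (l 16659816)) (c (c (l 16622448) (l 16626832)) (l 16655848)))) (c (b (b (a (l 16650504) (l 16640944)) (a (l 16682584) (a (l 16654480) (l 16649456)))) (a (b (c (l 16671504) (l 16674600)) (c (b (l 16680248) (l 16686216)) (l 16707264))) (a (b (l 16665712) (b (l 16674368) (l 16680240))) (b (l 16660600) (b (l 16669208) (l 16675040)))))) (c (b (a (l 16681472) (l 16675528)) (a (b (l 16699120) (l 16710736)) (b (l 16692672) (l 16703880)))) (b (a (l 16685040) (l 16681944)) (b (a (l 16703120) (l 16698744)) (a (l 16714632) (l 16706992))))))) (b (c (a (b (l 16571952) (c (l 16631944) (l 16618080))) (b (l 16561176) (c (l 16598680) (l 16608776)))) (b (a (l 16630528) (l 16626904)) (a (l 16609952) (b (l 16642560) (l 16653128))))) (b (c (b (a (l 16609712) (c (l 16635608) (l 16645752))) (c (a (l 16658896) (l 16646248)) (a (l 16666368)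 (l 16635472)))) (b (a (l 16668488) (l 16663760)) (a (l 16679592) (l 16653464)))) (a (a (b (c (l 16655288) (l 16691896)) (c (b (l 16663840) (l 16669648)) (l 16681640))) (b (c (l 16628792) (l 16689176)) (c (b (l 16658272) (l 16664048)) (l 16678616)))) (a (b (c (l 16623056) (l 16686384)) (c (b (l 16652488) (l 16647760)) (l 16674320))) (b (c (b (l 16635328) (l 16640856)) (l 16682512)) (c (b (l 16625520) (c (l 16668320) (l 16678416))) (l 16659632)))))))), by decide +kernel⟩

def k26_pp_012_s : ∃ t, chk3 f_pp_012_s t 28 14 1 = true :=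
  ⟨(l 3), by decide +kernel⟩

def k27_pp_012_s : ∃ t, chk3 f_pp_012_s t 58 112 1 = true :=
  ⟨(a (a (l 3) (a (b (c (c (c (a (a (l 204715591447) (b (l 80161540071) (l 3))) (b (l 16776576) (l 181630141575))) (b (l 16778984) (l 185925109591))) (l 82845897847)) (l 16782752)) (l 3)) (b (c (c (c (a (a (b (l 16775840) (l 83382765575)) (l 16776104)) (l 16775384)) (l 16778544)) (l 16775832)) (l 16775608)) (a (l 3) (c (c (c (b (b (l 74255959927) (l 213842396183)) (l 3)) (l 172503336455)) (l 112373799287)) (l 16778064)))))) (c (b (c (a (c (a (l 16773960) (l 16772104)) (l 16773184)) (c (l 16769384) (l 16769432))) (a (l 16772920) (l 16768984))) (c (a (a (c (a (b (l 16777944) (l 187535721671)) (b (l 16775672) (b (l 16776768) (l 109689438903)))) (c (b (l 16776200) (l 93046438583)) (l 13589549431))) (c (c (l 16774952) (l 16775016)) (l 16775056))) (c (c (l 16772136) (l 16772272)) (l 16772256))) (a (c (c (l 16779816) (l 16775856)) (l 16775800)) (l 16771976)))) (a (c (c (l 16774168) (l 16774024))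 (l 16773784)) (c (l 16769920) (l 16769296))))), by decide +kernel⟩

def k28_pp_012_s : ∃ t, chk3 f_pp_012_s t 58 113 1 = true :=
  ⟨(a (l 3) (a (a (l 3) (b (c (a (c (b (c (b (l 80161538711) (l 219747976263)) (l 101636377687)) (l 3)) (l 117205637367)) (c (c (b (c (l 16777912) (l 16776696)) (b (l 182703882999) (l 3))) (b (l 16776680) (l 159081565703))) (l 74255963367))) (l 80698419863)) (l 3))) (c (c (b (c (a (a (b (l 16775728) (b (l 16776816) (a (l 221358588695) (l 89825215767)))) (l 16775512)) (l 16774120)) (a (b (l 16775304) (c (l 16776688) (l 16776672))) (l 16774144))) (b (a (c (a (l 3) (a (l 191293817783) (b (l 16777064) (l 224579814183)))) (l 173040207111)) (c (a (a (b (l 16776592) (l 92509570343)) (l 16776480)) (l 16775776)) (l 16776240))) (a (l 3) (a (c (b (l 188072592167) (l 3)) (l 210621170999)) (c (c (b (l 16776848) (l 166060883111)) (l 76940312135)) (l 73182218759)))))) (a (b (l 16775904) (l 180019530071)) (a (b (l 16774464) (l 76940317879)) (l 16778216)))) (a (b (l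 16775720) (l 139217350087)) (c (l 16780472) (l 16775048)))))), by decide +kernel⟩

def k29_pp_012_s : ∃ t, chk3 f_pp_012_s t 58 57 1 = true :=
  ⟨(l 3), by decide +kernel⟩

def k30_pp_012_s : ∃ t, chk3 f_pp_012_s t 59 56 1 = true :=
  ⟨(c (b (a (c (a (c (b (l 16765904) (l 16768640)) (l 16767032)) (c (l 16763520) (l 16763136))) (a (l 16766512) (l 16762512))) (c (a (l 16759384) (l 16755336)) (a (l 16758480) (l 16754416)))) (a (c (a (c (b (a (l 16772296) (l 16770512)) (a (c (b (l 16774360) (l 16775784)) (l 16775120)) (l 16773272))) (b (l 16771304) (a (l 16775088) (l 16773192)))) (c (a (b (l 16768664) (l 16771440)) (l 16768152)) (c (l 16768936) (l 16768824)))) (a (c (l 16772568) (l 16772408)) (c (l 16768640) (l 16768376)))) (c (a (c (b (l 16763832) (l 16766648)) (l 16764960)) (c (l 16761256) (l 16760952))) (a (l 16764488) (l 16760440))))) (a (c (a (b (l 16765720) (l 16772144)) (b (l 16761560) (l 16767944))) (a (b (l 16764832) (l 16771752)) (l 16763904))) (c (a (l 16760616) (l 16756528))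 (a (l 16759640) (l 16755504))))), by decide +kernel⟩

def k31_pp_012_s : ∃ t, chk3 f_pp_012_s t 236 57 1 = true :=
  ⟨(b (b (a (a (c (c (b (c (b (a (l 132774889047) (l 16777736)) (l 228337910919)) (l 110763183175)) (l 3)) (l 178408916631)) (l 137069862887)) (c (c (c (a (b (c (b (l 16776616) (l 96267665367)) (l 16776960)) (l 3)) (b (l 16776512) (b (l 182703882727) (l 3)))) (b (l 16776720) (l 213305525575))) (l 79624669799)) (l 16777216))) (c (c (b (c (l 16775352) (l 16775320)) (a (c (a (b (c (l 16777744) (l 16777080)) (l 229411652423)) (b (l 16776632) (a (l 130090534007) (l 79087797159)))) (l 74255958039)) (c (c (l 16776280) (l 16776288)) (l 16776264)))) (l 16779216)) (l 16781032))) (a (l 3) (a (l 3) (c (c (b (b (c (a (l 184314495479) (a (l 80161538983) (l 16776984))) (l 16777256)) (l 3)) (l 3)) (l 181093271191)) (l 113984413655))))) (l 3)), by decide +kernel⟩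

def k32_pp_012_s : ∃ t, chk3 f_pp_012_s t 237 57 1 = true :=
  ⟨(a (b (b (c (c (c (c (l 16774192) (l 16774192)) (l 16774128)) (l 16773984)) (l 16773656)) (b (c (c (c (a (a (b (l 16776640) (a (l 131701146743) (l 80698409895))) (l 16776520)) (l 16775832)) (c (l 16776264) (l 16776248))) (l 16776208)) (l 16776096)) (c (c (c (a (a (l 3) (b (l 185388237303) (l 3))) (b (a (a (l 81235279495) (l 16776984)) (l 16776640)) (a (l 3) (b (l 16777640) (l 196125655463))))) (a (l 215453009223) (c (l 78014054087) (l 16777136)))) (c (l 98415153703) (l 16777480))) (l 86603997207)))) (l 3)) (b (c (c (c (b (l 16772336) (c (b (l 16774448) (a (c (l 16776288) (l 16776288)) (l 16775368))) (l 16775112))) (b (l 16772208) (l 16775072))) (l 16774792)) (c (l 16773248) (l 16772984))) (b (b (c (a (b (c (c (c (a (l 188072591863) (a (l 87140859367) (l 16776984))) (l 95193922695)) (l 90362087431)) (l 16777248)) (l 3)) (c (c (b (l 16776400) (a (a (l 178408915271) (b (l 16777040) (l 138143597367))) (l 16777192)))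 (l 16778024)) (l 16776688))) (l 16779664)) (a (l 3) (c (c (a (l 3) (b (c (a (l 233169748631) (l 178408915271)) (l 16777456)) (l 3))) (l 163913404551)) (l 16777920)))) (l 3)))), by decide +kernel⟩

def k33_pp_012_s : ∃ t, chk3 f_pp_012_s t 119 114 2 = true :=
  ⟨(c (a (a (c (b (l 16770432) (c (l 16773256) (l 16773216))) (l 16773008)) (c (b (l 16768496) (l 16771320)) (l 16769736))) (c (a (l 16769264) (l 16765968)) (l 16768072))) (a (c (l 16770560) (l 16770384)) (c (l 16766544) (l 16766312)))), by decide +kernel⟩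

def k34_pp_012_s : ∃ t, chk3 f_pp_012_s t 119 115 2 = true :=
  ⟨(a (a (a (b (c (c (b (l 16775816) (b (a (a (b (l 16777040) (l 138143597367)) (l 16776976)) (l 16776624)) (a (l 232096006983) (a (l 179482657079) (b (l 16777032) (l 138680468263)))))) (b (l 16775776) (a (l 102173247655) (l 16776944)))) (l 16779040)) (l 3)) (b (c (c (b (l 16774864) (a (b (l 16776160) (l 16777344)) (l 16776032))) (l 16775528)) (l 16775456)) (c (b (c (a (a (l 234780361863) (b (c (l 180556398903) (l 16777696)) (l 3))) (b (a (b (l 16777032) (l 137606726439)) (l 16776968)) (l 233169748791))) (b (l 91972700135) (l 234780361863))) (l 3)) (l 185388238439)))) (b (c (c (c (b (l 16773456) (l 16774856)) (l 16774120)) (l 16774072)) (l 16773952)) (b (c (c (a (b (l 16776384) (a (b (a (l 96804537015) (l 16777024)) (l 197199397255)) (c (l 16777176) (l 16776840)))) (l 16775784)) (a (c (l 16776704) (l 16776696)) (l 16775752))) (l 16776184)) (b (c (a (c (a (l 3) (a (l 234243490439) (b (l 95193924279) (l 3)))) (l 146196662759))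 (c (a (a (b (l 16777016) (l 136532984599)) (l 16777280)) (l 16776600)) (l 16776816))) (l 79624669047)) (a (l 3) (c (c (c (a (l 234780361511) (b (a (l 97341407831) (l 16777016)) (l 198273139063))) (l 173577075847)) (l 116131891543)) (l 16777424))))))) (c (c (a (b (c (l 16772232) (l 16772184)) (c (b (l 16774352) (a (b (l 16775896) (a (l 16777160) (l 16776360))) (l 16775288))) (b (l 16774328) (l 16775752)))) (b (l 16770248) (a (l 16774248) (l 16772616)))) (b (a (l 16772104) (l 16770120)) (a (b (l 16774280) (l 16775728)) (l 16773032)))) (c (b (l 16770984) (l 16773952)) (l 16772360)))), by decide +kernel⟩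

def k35_pp_012_s : ∃ t, chk3 f_pp_012_s t 119 57 3 = true :=
  ⟨(a (b (c (l 16770104) (l 16769680)) (c (b (l 16777424) (a (l 130090541703) (l 16780720))) (a (b (l 16775752) (l 124721833047)) (l 16780384)))) (c (b (l 16765936) (a (l 16773248) (l 16771152))) (b (l 16765384) (l 16771944)))), by decide +kernel⟩

def k36_pp_012_s : ∃ t, chk3 f_pp_012_s t 29 29 1 = true :=
  ⟨(a (l 3) (b (b (a (l 3) (a (l 3) (b (c (c (b (c (a (b (a (a (a (l 232632877687) (a (l 197199397239) (b (l 16777176) (l 3)))) (a (b (l 16777008) (a (l 182703882903) (l 118816244311))) (l 16777352))) (l 16776344)) (b (a (a (l 3) (l 221895459351)) (a (a (a (l 117205631575) (l 16777168)) (l 16777000)) (l 16776640))) (a (l 3) (c (a (a (l 3) (l 136532984487)) (l 16777320)) (l 84993376359))))) (c (a (l 16775744) (l 16774776)) (l 16775240))) (a (c (a (l 171429592327) (l 16777984)) (a (l 117205633815) (l 16776664))) (l 16775216))) (a (a (l 3) (c (b (a (l 3) (a (l 230485394023) (b (a (l 115058147911) (l 16777168)) (l 3))))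 (l 3)) (l 206326203639))) (a (b (c (a (b (l 16776872) (a (a (l 167671497383) (l 113447535175)) (l 16777432))) (l 16776568)) (l 16776784)) (b (c (a (l 219211104775) (a (a (l 112910664247) (l 16777160)) (l 16776984))) (l 99488892631)) (c (a (l 3) (a (l 3) (a (l 164987142807) (l 111836922423)))) (l 152102242407)))) (c (c (b (l 16775848) (a (b (l 16776624) (l 16777304)) (l 16776320))) (l 16776192)) (l 16776176))))) (a (b (a (l 108615700199) (l 16776648)) (l 204715591591)) (c (b (l 16775176) (l 16778904)) (l 16775848)))) (a (b (c (l 16777048) (l 16777024)) (l 161765925559)) (c (l 16775800) (l 16775728)))) (a (l 3) (a (l 3) (b (c (c (b (a (b (c (a (l 212768653655) (a (l 109689438775) (l 16777144))) (l 16777280)) (l 3)) (c (b (l 16776848) (a (a (l 161229046423) (l 109152567191)) (l 16777408))) (l 16777008))) (c (a (l 3) (c (b (l 219747975655) (l 3)) (l 223506072295))) (l 232096007223))) (l 107541958487)) (l 16777448)) (l 3))))))) (l 3)) (l 3))), by decide +kernel⟩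

def k37_pp_012_s : ∃ t, chk3 f_pp_012_s t 14 15 1 = true :=
  ⟨(l 3), by decide +kernel⟩

def k38_pp_012_s : ∃ t, chk3 f_pp_012_s t 60 28 1 = true :=
  ⟨(a (b (b (c (c (a (l 16751224) (l 16747112)) (l 16748376)) (c (l 16747464) (l 16746432))) (c (c (a (l 16757048) (l 16752984)) (a (l 16756400) (l 16752424))) (c (l 16755008) (l 16752904)))) (a (b (c (c (c (l 16764272) (l 16762744)) (l 16762392)) (c (l 16761864) (l 16761264))) (c (a (c (c (b (l 16768272) (l 16771808)) (l 16769592)) (l 16769392)) (c (c (b (l 16766296) (l 16769176)) (l 16767600)) (l 16767384))) (c (l 16768064) (l 16767704)))) (b (c (c (c (l 16758944) (l 16758752)) (l 16758432)) (c (l 16757944) (l 16757400))) (c (c (c (b (l 16763296) (l 16767008)) (l 16765912)) (c (l 16764448) (l 16764296))) (c (l 16764040) (l 16763664)))))) (a (b (c (c (b (l 16732488) (l 16748904)) (l 16745512)) (c (l 16745008) (l 16744432))) (b (c (c (l 16754784) (l 16754480)) (c (l 16754128) (l 16732760))) (c (c (c (l 16763272) (l 16760544)) (l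 16761352)) (c (l 16760112) (l 16759808))))) (c (b (b (l 16738696) (c (l 16734256) (l 16723624))) (c (b (l 16750616) (a (l 16757464) (l 16750096))) (b (l 16740024) (l 16756312)))) (b (c (l 16741408) (l 16741176)) (c (b (l 16729416) (l 16756208)) (l 16753176)))))), by decide +kernel⟩

def k39_pp_012_s : ∃ t, chk3 f_pp_012_s t 120 116 1 = true :=
  ⟨(c (c (b (a (c (a (c (b (l 16773320) (a (l 16775232) (l 16774256))) (l 16774000)) (c (l 16772728) (l 16772032))) (a (c (l 16773976) (l 16773944)) (l 16771976))) (c (a (l 16770056) (l 16768040)) (l 16769616))) (a (a (a (a (b (b (c (l 16776544) (l 16776536)) (c (a (b (a (l 108615696263) (l 16777136)) (l 3)) (b (l 16776960) (b (l 95193924071) (l 178945786535)))) (l 16777856))) (l 3)) (b (c (c (b (l 16776064) (b (l 16776600) (l 16777240))) (l 16776408)) (l 16776400)) (c (b (b (a (l 208473686327) (b (l 16777104) (l 115595018167))) (l 3)) (l 3)) (l 200420623207)))) (b (c (c (l 16775688) (l 16775672)) (l 16775656)) (b (c (a (b (l 16776824) (a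 (b (l 90898956103) (l 174650819223)) (l 16777392))) (l 16776520)) (l 16776744)) (a (a (l 3) (b (c (l 205789331751) (l 16777360)) (l 3))) (c (c (b (a (a (l 97878277991) (l 16777120)) (l 16776936)) (a (l 3) (a (l 148881015399) (l 95193923431)))) (c (l 92509568807) (l 16777840))) (l 16777840)))))) (a (c (c (b (l 16774704) (b (l 16775784) (a (b (l 16776568) (l 16777176)) (l 16776256)))) (l 16775408)) (l 16775384)) (c (c (b (l 16773720) (l 16775152)) (l 16774416)) (l 16774384)))) (c (a (c (b (l 16772224) (l 16773656)) (l 16772912)) (c (l 16770920) (l 16770888))) (a (l 16772872) (l 16770832))))) (a (b (c (l 16772896) (l 16772816)) (a (a (b (l 16776608) (l 199883752647)) (c (l 16778704) (l 16776312))) (l 16774832))) (c (b (l 16768864) (l 16771792)) (l 16770232)))) (a (a (b (l 16773664) (a (a (l 87677736887) (l 16779616)) (l 16778880))) (c (l 16773200) (l 16773048))) (c (c (l 16770136) (l 16770040)) (l 16769880)))), by decide +kernel⟩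

def k40_pp_012_s : ∃ t, chk3 f_pp_012_s t 240 117 1 = true :=
  ⟨(a (l 3) (b (a (b (c (c (b (c (b (a (c (a (l 204715589911) (b (l 16777080) (l 104857599879))) (l 107541955447)) (l 16776800)) (a (l 3) (a (b (a (l 16777400) (l 16777136)) (l 164987142775)) (l 16777368)))) (c (l 87677731191) (l 16777152))) (c (a (l 3) (c (b (a (l 3) (l 200957493511)) (l 3)) (l 218674234023))) (l 219747976183))) (l 105394473447)) (l 16780024)) (l 3)) (b (c (c (a (b (c (l 16776488) (l 16776472)) (c (c (b (a (b (l 16777064) (l 99488890743)) (l 16776912)) (a (l 3) (b (l 16777424) (l 160155304519)))) (c (l 85530246999) (l 16777824))) (l 16777824))) (c (c (b (l 16775992) (c (l 16776880) (l 16776720))) (l 16776352)) (l 16776336))) (l 16776552)) (l 16776520)) (b (c (c (c (a (l 3) (c (b (a (c (l 199883751655) (l 148881015511)) (a (a (l 97341406999) (l 16777168)) (l 16777080))) (l 241222812215)) (b (l 103246988103) (l 241759683127)))) (l 192367557975)) (l 130090535959)) (l 16777528)) (l 3)))) (l 3))), by decide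 +kernel⟩

def k41_pp_012_s : ∃ t, chk3 f_pp_012_s t 482 117 1 = true :=
  ⟨(b (a (c (b (c (c (c (c (l 16775608) (l 16775608)) (l 16775600)) (l 16775584)) (l 16775544)) (c (b (c (c (a (a (b (l 16776896) (b (l 16777328) (l 155323466279))) (l 16776824)) (l 16776456)) (l 16777344)) (l 16776688)) (a (a (l 3) (c (a (l 239075328567) (b (b (l 16777208) (l 3)) (l 3))) (l 160692176135))) (c (b (a (a (b (l 16777096) (l 129016791463)) (l 16777064)) (l 16776880)) (c (a (l 231559135623) (b (l 16777472) (a (l 3) (l 134922371399)))) (l 125258695655))) (l 16777808)))) (c (l 16778312) (l 16776992)))) (l 16779480)) (c (c (c (c (b (l 16774608) (b (l 16775704) (a (c (l 16776688) (l 16776688)) (l 16776184)))) (l 16775320)) (l 16775304)) (l 16775264)) (l 16775176))) (a (l 3) (b (c (b (c (c (a (a (b (a (l 224579813671) (b (l 16777200) (l 3))) (l 3)) (b (a (b (l 16777080) (l 120963727751)) (l 16777048)) (l 225653555559))) (a (b (l 16776864) (b (l 16777456) (a (l 3) (l 117205631351)))) (l 16776872))) (a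 (l 116668761655) (l 16776904))) (l 16777112)) (b (b (c (c (a (l 3) (a (l 3) (a (l 163376529799) (l 16777184)))) (l 154786596679)) (l 16777488)) (l 3)) (l 3))) (l 16779976)) (l 3)))), by decide +kernel⟩

def k42_pp_012_s : ∃ t, chk3 f_pp_012_s t 483 117 1 = true :=
  ⟨(c (c (b (c (c (b (l 16773088) (a (l 16775056) (l 16774040))) (b (l 16773064) (l 16774536))) (c (l 16773784) (l 16773760))) (b (b (c (c (a (l 16776160) (l 16775144)) (l 16775648)) (l 16775632)) (a (a (c (a (c (b (a (b (l 16777064) (l 115058147655)) (l 16777032)) (l 222969200983)) (l 100025761495)) (b (l 16776840) (b (l 16777440) (a (l 195051913671) (l 107005084007))))) (l 16777776)) (c (c (l 16776648) (l 16776648)) (l 16776640))) (c (c (l 16775888) (l 16775880)) (l 16775864)))) (b (a (a (l 3) (c (a (b (a (l 213305524471) (b (l 16777168) (l 190756946359))) (l 3)) (a (b (b (l 16777048) (l 97878278519)) (l 3)) (b (l 16777016) (l 210084298983)))) (l 111300052519))) (c (a (b (l 16776696) (a (b (l 16777096) (a (l 183240753591)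 (l 92509569383))) (l 16776944))) (l 16776368)) (l 16776616))) (a (l 3) (a (a (l 3) (b (c (a (l 207399944407) (b (l 16777152) (l 178408915367))) (l 16777264)) (l 3))) (c (a (c (a (b (l 16777360) (l 3)) (b (l 16776992) (l 205789331655))) (l 94657052311)) (b (l 16776800) (b (l 16777080) (a (l 173577077143) (l 16777360))))) (l 16777744))))))) (b (l 16773712) (b (c (l 16775984) (l 16775960)) (c (a (l 200957494295) (l 16778240)) (l 93583312791))))) (a (b (l 16774104) (b (l 16776456) (l 130627409063))) (c (l 16777232) (l 16774536)))), by decide +kernel⟩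

def k43_pp_012_s : ∃ t, chk3 f_pp_012_s t 120 59 1 = true :=
  ⟨(l 3), by decide +kernel⟩

def k44_pp_012_s : ∃ t, chk3 f_pp_012_s t 121 58 1 = true :=
  ⟨(a (b (c (a (c (c (b (l 16765984) (l 16768848)) (l 16767336)) (l 16768520)) (c (b (l 16763872) (l 16767392)) (l 16765152))) (c (l 16765992) (l 16765784))) (b (c (c (a (c (a (l 16772600) (l 16771240)) (l 16771712)) (c (l 16770336) (l 16769624))) (c (l 16770616) (l 16770560))) (c (l 16770472) (l 16770336))) (c (c (c (b (a (a (l 16774648) (l 16773456)) (l 16772216)) (a (c (a (b (l 16775608) (a (l 16776608) (l 16776096))) (l 16774944)) (l 16775456)) (c (l 16773712) (l 16773376)))) (a (a (l 16775208) (l 16774168)) (l 16772600))) (a (l 16774328) (l 16772552))) (c (l 16772224) (l 16773456))))) (b (c (c (c (b (l 16760720) (l 16763584)) (l 16762112)) (c (l 16762072) (l 16762024))) (c (l 16761952) (l 16761848))) (c (c (c (a (b (l 16767568) (c (l 16770536) (l 16770520))) (b (l 16761488) (l 16768384))) (b (l 16766464) (a (l 16770488) (l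 16763112)))) (c (b (l 16766424) (l 16769400)) (l 16767864))) (c (c (l 16767824) (l 16767784)) (l 16767720))))), by decide +kernel⟩

def k45_pp_012_s : ∃ t, chk3 f_pp_012_s t 484 236 1 = true :=
  ⟨(a (b (c (a (b (c (c (a (b (b (a (l 119889985927) (l 16777136)) (l 219211104487)) (l 3)) (c (b (l 16777280) (a (l 3) (b (l 118816244039) (l 3)))) (l 90898955895))) (l 105931342023)) (l 16777264)) (l 3)) (c (a (b (c (b (l 16776784) (a (b (l 16777128) (l 154786595239)) (l 16777256))) (l 16776960)) (l 3)) (c (b (l 16776712) (b (a (b (l 109152567655) (l 3)) (b (l 16777120) (l 149417886103))) (l 3))) (b (l 16776704) (l 134922372359)))) (l 16778432))) (l 86603994055)) (l 3)) (c (b (c (a (b (c (l 16776328) (l 16776320)) (c (a (c (b (l 16777176) (a (l 243907166535) (b (l 100025762135) (l 3)))) (l 86603988583)) (b (l 16776760) (a (b (l 16777104) (l 144049176967)) (l 16777072)))) (l 16777704))) (c (b (l 16775808) (l 16776560)) (l 16776176))) (l 16776408)) (b (c (c (a (a (l 3) (b (l 235317232023)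 (l 3))) (a (b (a (b (l 92509569383) (l 3)) (b (l 16777096) (l 130627404199))) (l 3)) (b (l 16777160) (a (l 231559135527) (b (l 86603989335) (l 3)))))) (a (l 243907167031) (l 100562632839))) (l 116668763015)) (l 3))) (c (l 70497864199) (l 16777008)))), by decide +kernel⟩

def k46_pp_012_s : ∃ t, chk3 f_pp_012_s t 485 236 1 = true :=
  ⟨(c (c (c (b (c (a (c (l 16775408) (l 16775408)) (l 16774360)) (l 16774880)) (a (a (b (a (a (b (l 16776800) (b (l 16777088) (l 124184953239))) (l 16776984)) (l 16776664)) (b (c (a (l 231022264695) (b (l 16777376) (a (l 3) (l 131164274983)))) (l 124184952503)) (l 3))) (b (l 16776272) (a (b (l 16776976) (a (l 221358588183) (b (l 16777352) (l 3)))) (a (b (l 16776776) (b (l 16777064) (l 113984405863))) (l 16776840))))) (c (c (b (l 16775496) (l 16776256)) (l 16775872)) (l 16775864)))) (b (l 16774864) (a (b (l 16776528) (a (l 139754210935) (l 16777008))) (l 16775864)))) (b (l 16774840) (a (c (l 16778168) (l 16776848)) (l 16775848)))) (c (l 16775544) (l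 16775512))), by decide +kernel⟩

def k47_pp_012_s : ∃ t, chk3 f_pp_012_s t 243 236 1 = true :=
  ⟨(c (a (c (c (c (b (l 16772784) (a (l 16774824) (l 16773760))) (b (l 16772768) (l 16774288))) (c (l 16773512) (l 16773504))) (l 16773480)) (c (c (a (l 16772584) (l 16770856)) (l 16771376)) (l 16771344))) (c (l 16772368) (l 16772312))), by decide +kernel⟩

def k48_pp_012_s : ∃ t, chk3 f_pp_012_s t 121 474 1 = true :=
  ⟨(a (a (l 3) (c (c (b (b (a (a (l 3) (a (l 3) (a (l 3) (c (l 217063620871) (l 16777336))))) (c (c (a (a (b (l 16777280) (a (l 198810010023) (l 103246987607))) (l 16776952)) (l 16776560)) (l 16777384)) (l 16776808))) (a (l 3) (a (a (l 3) (c (b (a (l 140827951543) (l 16777168)) (l 235317231895)) (l 16777280))) (c (a (a (b (l 16777040) (l 93583310567)) (l 16777000)) (l 16776808)) (l 16776928))))) (b (a (l 3) (a (l 3) (c (a (a (l 3) (b (l 133311758759) (l 3))) (b (l 16777256) (a (l 181630140839) (l 88214601415)))) (l 16777752)))) (l 3))) (a (l 242296555063) (a (l 120426859399)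 (l 16778368)))) (a (l 185388242295) (l 82845897367)))) (c (c (a (c (a (a (b (l 16776224) (b (l 16776832) (a (b (a (l 125795565975) (l 16777144)) (l 224579813623)) (c (c (b (l 16776952) (l 16777376)) (l 16777040)) (l 16777040))))) (b (l 16775696) (l 16776456))) (c (c (l 16775288) (l 16775280)) (l 16775280))) (a (c (b (l 16775952) (l 16776704)) (l 16776320)) (l 16775272))) (c (a (l 16774544) (l 16773136)) (l 16773664))) (a (c (l 16775784) (l 16775776)) (l 16773648))) (c (a (l 16775760) (l 16773616)) (l 16774656)))), by decide +kernel⟩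

def k49_pp_012_s : ∃ t, chk3 f_pp_012_s t 121 475 1 = true :=
  ⟨(a (l 3) (a (a (b (c (c (b (a (c (c (a (l 3) (a (l 3) (b (l 129553662263) (l 3)))) (l 218137362887)) (l 165524014327)) (c (a (b (l 16777064) (a (l 167134626183) (l 16777352))) (l 16776904)) (l 16777016))) (c (a (l 3) (a (l 3) (c (b (a (l 110226309479) (l 16777120)) (l 215989878999)) (l 16777568)))) (l 204715590215))) (l 105931344711)) (l 16777336)) (l 3)) (c (b (c (c (c (a (b (l 16776504) (c (a (l 16777184) (l 16776752)) (l 16776888))) (l 16776168)) (l 16776424)) (l 16776424)) (l 16776416)) (c (c (b (a (a (a (l 244444037463) (a (l 213305524423) (b (l 16777200) (l 3)))) (b (l 16777040) (a (l 139754209719) (l 16777160)))) (l 16776744)) (c (b (a (l 239612199367) (a (a (l 94120181431) (l 16777096)) (l 16776896))) (a (l 3) (a (a (l 3) (l 141364822359)) (l 16777088)))) (a (l 243907166791) (l 16777600)))) (c (a (l 126869307511) (l 16776920)) (l 80161537223))) (l 74792828919))) (l 16776744))) (c (c (c (c (a (c (b (l 16775368)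 (l 16776136)) (l 16775752)) (l 16774680)) (a (l 16775744) (l 16774672))) (c (l 16775208) (l 16775200))) (l 16775192)) (c (l 16775176) (l 16775152))))), by decide +kernel⟩

def k50_pp_012_s : ∃ t, chk3 f_pp_012_s t 121 119 1 = true :=
  ⟨(b (b (a (l 3) (a (a (l 3) (a (l 3) (c (c (c (b (b (c (a (l 3) (a (l 234780360999) (b (l 86067117735) (l 3)))) (l 207936815479)) (l 3)) (l 3)) (l 226190427239)) (l 234243490903)) (l 179482660551)))) (c (a (b (c (b (c (c (a (b (l 16776880) (a (a (l 127406178663) (l 16777136)) (l 16776944))) (l 16776448)) (l 16776704)) (l 16776704)) (a (c (a (c (l 231559135607) (l 189146333959)) (c (a (b (l 16777360) (l 3)) (c (b (l 16777072) (l 126332436775)) (l 16777152))) (l 16777200))) (l 117205632119)) (c (a (l 16777128) (l 16776696)) (l 16776832)))) (l 16776872)) (a (l 3) (c (a (c (b (a (l 221895459079) (b (a (l 16777376) (l 16777152)) (l 3))) (l 3)) (l 156934079703)) (c (a (b (a (b (l 16777088) (l 139754209607)) (l 16777320)) (l 3)) (c (b (l 16777016) (l 218137362679))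 (l 89288342983))) (l 93583312007))) (l 16777304)))) (c (c (b (c (l 16775832) (l 16775832)) (a (b (l 16776680) (a (b (c (l 16777264) (l 16777104)) (a (l 190756946375) (a (l 128479920439) (l 16777192)))) (l 16776936))) (l 16776336))) (c (l 16776544) (l 16776208))) (l 16776208))) (a (l 76403443623) (l 16776192))))) (b (a (l 3) (a (l 3) (a (l 3) (c (c (a (a (l 3) (c (b (c (b (a (l 146196660567) (l 16777152)) (l 235317231879)) (l 123111211703)) (l 3)) (l 147807274231))) (a (c (a (b (a (b (l 16777056) (l 117742502183)) (l 16777088)) (l 3)) (b (l 16776992) (c (b (l 137606725959) (l 3)) (l 154249724519)))) (l 88214602839)) (c (b (l 16776784) (b (l 16777240) (a (l 175187689879) (a (l 110226309383) (l 16777168))))) (l 16776968)))) (l 94657054151)) (l 16777248))))) (l 3))) (l 3)), by decide +kernel⟩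

def k51_pp_012_s : ∃ t, chk3 f_pp_012_s t 61 28 1 = true :=
  ⟨(b (a (b (c (a (l 16722800) (l 16719920)) (c (l 16733120) (l 16733600))) (a (c (l 16745792) (l 16740952)) (c (l 16736296) (l 16737616)))) (b (a (c (l 16715576) (l 16728672)) (c (l 16711088) (l 16725568))) (a (c (l 16737160) (l 16734328)) (c (a (l 16707568) (l 16705264)) (l 16731080))))) (c (a (a (c (b (c (l 16735784) (l 16735864)) (l 16752080)) (b (l 16735984) (l 16752200))) (c (b (l 16731360) (a (l 16738256) (l 16735976))) (b (l 16721392) (l 16737544)))) (a (b (c (l 16726736) (l 16717192)) (c (c (l 16732304) (l 16743168)) (l 16733288))) (c (b (l 16711440) (l 16727688)) (c (l 16725816) (l 16716056))))) (a (a (c (b (l 16725680) (l 16752344)) (l 16749688)) (c (b (l 16742944) (l 16748504)) (l 16746320))) (c (a (l 16741960) (l 16738192)) (a (l 16743056) (l 16739904)))))), by decide +kernel⟩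

def k52_pp_012_s : ∃ t, chk3 f_pp_012_s t 122 58 2 = true :=
  ⟨(c (a (b (a (b (l 16746976) (l 16755080)) (a (l 16752000) (l 16750896))) (c (a (b (l 16757992) (c (l 16763584) (l 16760960))) (b (l 16761016) (l 16758752))) (b (l 16756912) (l 16765112)))) (b (c (b (l 16741328) (l 16749448)) (l 16745536)) (a (c (b (l 16758760) (l 16756496)) (l 16755072)) (b (l 16751288) (l 16754256))))) (a (b (a (l 16753680) (l 16746328)) (c (l 16764944) (l 16763648))) (b (l 16753632) (c (b (l 16747352) (l 16750288)) (l 16751536))))), by decide +kernel⟩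

def k53_pp_012_s : ∃ t, chk3 f_pp_012_s t 122 118 2 = true :=
  ⟨(c (b (a (c (a (l 16769880) (c (l 16763736) (l 16761776))) (a (l 16765280) (l 16761784))) (a (a (l 16762728) (l 16758984)) (c (l 16757240) (l 16762568)))) (c (a (a (a (b (l 16770088) (l 16773592)) (l 16772392)) (a (b (l 16769864) (l 16768784)) (c (l 16766904) (l 16764288)))) (a (a (l 16765784) (l 16764656)) (b (l 16764792) (l 16763728)))) (a (a (c (l 16772272) (l 16772272)) (l 16770088)) (l 16767736)))) (a (a (b (l 16769200) (l 16772256)) (b (l 16761800) (l 16770096))) (c (b (l 16758512) (l 16766800)) (l 16765328)))), by decide +kernel⟩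

def k54_pp_012_s : ∃ t, chk3 f_pp_012_s t 244 238 2 = true :=
  ⟨(c (a (c (b (a (a (l 16775576) (l 16774872)) (l 16774384)) (a (b (c (a (l 16776576) (l 16776040)) (l 16776304)) (a (b (b (a (a (a (l 152639111527) (l 106468212983)) (l 16777128)) (l 16776928)) (c (a (l 221358588135) (a (l 16777344) (l 16777056))) (l 98952020711))) (a (l 3) (a (l 3) (a (l 217600491735) (b (l 16777368) (l 3)))))) (a (c (b (l 16776760) (b (l 16777048) (a (l 153712853367) (l 16777336)))) (l 16776944)) (l 16776680)))) (a (b (l 16775496) (l 16776272)) (l 16775504)))) (b (c (l 16774592) (l 16774592)) (a (a (b (l 16776576) (a (l 138680468775) (l 82845893671))) (l 16776416)) (l 16775608)))) (c (a (c (b (l 16771648) (l 16774520)) (l 16773736)) (c (l 16773288) (l 16772632))) (c (l 16773184) (l 16773184)))) (a (c (b (l 16774584) (a (l 16777968) (l 16775608))) (l 16776656)) (c (l 16773184) (l 16773184)))), by decide +kernel⟩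

def k55_pp_012_s : ∃ t, chk3 f_pp_012_s t 244 478 2 = true :=
  ⟨(a (c (b (b (a (a (l 3) (c (c (a (l 244980908455) (a (a (l 211694911687) (b (l 16777192) (l 3))) (b (l 16777104) (l 147807273303)))) (a (l 248202133911) (l 100025762471))) (l 124184954023))) (c (c (a (a (c (l 16777160) (l 16776992)) (l 16776728)) (l 16776320)) (l 16776584)) (l 16776584))) (a (l 3) (a (c (a (a (l 235317231927) (b (a (l 118816244007) (l 16777184)) (l 3))) (a (b (l 16777088) (a (l 169818980695) (l 114521276695))) (l 16777208))) (l 87677731927)) (c (l 16776704) (l 16776704))))) (a (l 3) (c (a (a (l 3) (a (l 3) (b (l 228874780967) (l 3)))) (b (b (a (b (l 16777088) (a (l 119889985831) (l 16777120))) (l 16776864)) (a (a (l 3) (a (l 152639111527) (l 105931342071))) (l 16777224))) (a (l 3) (b (a (l 165524013447) (a (l 97341407479) (l 16777152))) (l 3))))) (a (l 243907166999) (a (l 127943050439) (l 16777616)))))) (a (l 217063621895) (a (a (l 120426858807) (l 88751474743)) (l 16778168)))) (c (c (a (c (b (l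 16775696) (a (a (a (b (l 16776760) (b (l 16777056) (a (l 140291080519) (l 16777368)))) (l 16776816)) (l 16776616)) (l 16776200))) (b (l 16775688) (l 16776800))) (a (l 16775424) (b (l 16773000) (l 16774448)))) (a (c (l 16776080) (l 16776080)) (l 16774984))) (c (l 16775536) (l 16775528)))), by decide +kernel⟩

def k56_pp_012_s : ∃ t, chk3 f_pp_012_s t 244 479 2 = true :=
  ⟨(a (l 3) (c (a (a (b (b (c (b (c (c (a (l 214916137175) (l 16777264)) (a (l 167134626327) (l 16777104))) (l 89825213943)) (a (l 3) (a (l 191293817287) (a (l 128479920439) (l 16777192))))) (l 112910664775)) (l 3)) (l 3)) (a (b (c (b (l 16776928) (b (a (a (l 190756946231) (l 123648082215)) (l 16777320)) (l 232632877319))) (l 16777752)) (l 3)) (c (a (b (b (l 16776728) (a (b (l 16777056) (l 118816243991)) (l 16777248))) (l 3)) (b (l 16776784) (b (a (l 231022264567) (b (l 110226309399) (l 3))) (l 3)))) (b (l 16776848) (l 224579813911))))) (a (c (b (c (l 16776440) (l 16776440)) (a (b (b (c (l 16777072) (l 16777072))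 (a (l 172503335319) (a (l 105394471175) (l 16777160)))) (l 3)) (b (l 16776896) (c (a (a (l 223506071783) (b (l 97341407479) (l 3))) (b (l 16777120) (l 161765917047))) (l 107541955271))))) (b (l 16776440) (b (l 16777016) (l 129553663175)))) (c (b (l 16775888) (a (a (a (b (l 16776728) (b (l 16777024) (l 95730794727))) (l 16776976)) (l 16776752)) (l 16776544))) (l 16776288)))) (c (a (b (l 83382763079) (l 231022265351)) (l 16777840)) (a (l 113447537799) (l 16776528))))), by decide +kernel⟩

def k57_pp_012_s : ∃ t, chk3 f_pp_012_s t 245 119 2 = true :=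
  ⟨(a (c (c (b (a (c (b (l 16770736) (l 16770992)) (l 16768896)) (b (l 16769616) (l 16768560))) (a (a (c (b (l 16772840) (l 16775896)) (l 16774944)) (b (l 16772288) (l 16775344))) (c (b (l 16771112) (b (l 16772632) (c (l 16773752) (l 16773424)))) (l 16773552)))) (b (l 16770968) (c (b (l 16773320) (l 16774904)) (l 16774112)))) (c (b (l 16770984) (l 16774120)) (l 16772552))) (c (c (b (b (l 16765128) (a (l 16770048) (l 16768912))) (c (a (b (l 16769000) (a (l 16772184) (l 16772928))) (b (l 16770488) (l 16770768))) (l 16772512))) (b (c (l 16763480) (l 16763496)) (b (l 16768464) (l 16772664)))) (c (b (l 16763528) (l 16771896)) (l 16770360)))), by decide +kernel⟩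

def k58_pp_012_s : ∃ t, chk3 f_pp_012_s t 122 29 3 = true :=
  ⟨(b (c (a (b (l 16757952) (l 16763672)) (b (l 16753984) (l 16759576))) (a (b (l 16758040) (l 16763704)) (b (l 16754376) (l 16759832)))) (b (c (a (c (l 16769640) (l 16769640)) (c (l 16765392) (l 16765456))) (a (a (l 16770688) (l 16768608)) (a (l 16766568) (l 16764560)))) (a (b (c (a (l 16776648) (l 16773184)) (a (l 16775320) (l 16773192))) (b (a (a (l 170892727527) (c (l 16777064) (l 16777064))) (a (l 16776072) (l 16774984))) (a (l 3) (a (a (l 145122922007) (l 16778544)) (l 16779152))))) (c (a (b (l 16771032) (l 16774128)) (l 16770416)) (a (l 16772600) (l 16770488)))))), by decide +kernel⟩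

def k59_pp_012_s : ∃ t, chk3 f_pp_012_s t 123 29 1 = true :=
  ⟨(b (a (b (c (c (a (b (l 16748440) (l 16751304)) (l 16739648)) (a (l 16739920) (l 16737752))) (c (l 16750032) (l 16750824))) (c (a (c (c (l 16750368) (l 16745304)) (l 16750840)) (c (a (l 16748696) (l 16747512)) (l 16743400))) (c (l 16755512) (l 16756088)))) (b (c (c (c (l 16733176) (l 16733656)) (l 16734448)) (c (l 16746096) (l 16747400))) (c (c (a (a (l 16746320) (l 16745112)) (b (l 16747040) (l 16750032))) (a (l 16741184) (l 16738944))) (c (l 16751456) (l 16752472))))) (b (c (a (c (a (c (b (l 16760160) (l 16760632)) (c (l 16756544) (l 16756600))) (b (l 16752640) (b (l 16754952) (l 16756504)))) (a (c (l 16756696) (l 16751584)) (c (l 16749200) (l 16749392)))) (a (c (b (l 16750264) (c (l 16758496) (l 16758704))) (c (l 16746928) (l 16747192))) (c (b (l 16753080) (l 16750936)) (l 16747424)))) (c (a (c (l 16761144) (l 16761328)) (c (l 16746416) (l 16757248))) (a (a (l 16762592) (l 16760656)) (l 16757808)))) (c (a (a (c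 (c (a (b (l 16764352) (b (l 16769344) (l 16768312))) (b (l 16765808) (b (l 16768184) (l 16769784)))) (b (l 16761216) (c (l 16765664) (l 16764376)))) (b (a (l 16761888) (l 16760776)) (l 16769680))) (b (c (a (l 16760752) (l 16758272)) (l 16759096)) (a (c (b (l 16764432) (l 16766024)) (l 16762760)) (c (c (l 16764016) (l 16766728)) (l 16761632))))) (c (b (a (c (l 16756408) (l 16761816)) (c (l 16759208) (l 16759440))) (a (c (b (l 16764048) (l 16763040)) (l 16759736)) (a (l 16760496) (l 16756664)))) (c (b (l 16755608) (c (l 16758672) (l 16758760))) (l 16763336)))) (c (a (a (l 16768264) (l 16766120)) (c (l 16762808) (l 16763032))) (a (a (l 16768424) (l 16766384)) (a (l 16764384) (l 16762416))))))), by decide +kernel⟩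

def k60_pp_012_s : ∃ t, chk3 f_pp_012_s t 31 28 1 = true :=
  ⟨(c (a (b (b (a (c (l 16694784) (l 16695024)) (a (l 16686072) (l 16680848))) (a (c (c (l 16697424) (l 16698664)) (l 16721656)) (c (a (l 16710896) (l 16705208)) (l 16691440)))) (a (b (c (a (l 16706424) (l 16722160)) (l 16725912)) (a (c (l 16722672) (l 16714000)) (c (l 16717448) (l 16709424)))) (a (c (b (l 16716704) (l 16712000)) (c (l 16701128) (l 16702928))) (c (b (l 16711024) (l 16706328)) (c (l 16696072) (l 16698336)))))) (c (b (a (a (b (l 16693424) (l 16699288)) (b (l 16687264) (l 16693128))) (a (b (l 16680872) (l 16686744)) (b (l 16674240) (l 16680120)))) (a (a (b (l 16705112) (l 16700432)) (b (l 16698968) (a (l 16706344) (l 16703224)))) (b (a (l 16692592) (c (l 16683992) (l 16688056))) (a (b (l 16696984) (l 16699920)) (c (l 16679544) (l 16693808)))))) (a (b (a (l 16681368) (l 16676304)) (a (c (l 16690856) (l 16693608)) (c (l 16685464) (l 16688752)))) (b (a (l 16671072) (l 16665656)) (b (c (l 16674320) (l 16678616))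 (a (l 16684448) (l 16678976))))))) (c (a (a (b (l 16716712) (a (l 16734424) (l 16730632))) (b (a (l 16716536) (l 16712856)) (a (l 16726808) (l 16722944)))) (a (a (b (l 16709104) (l 16719016)) (b (l 16705272) (l 16715016))) (b (b (l 16696872) (l 16701768)) (a (l 16689952) (l 16685744))))) (a (a (a (b (l 16726752) (l 16736864)) (b (l 16723760) (l 16733928))) (a (b (l 16718824) (l 16729264)) (b (l 16713816) (l 16724520)))) (a (b (a (l 16708768) (l 16703704)) (a (l 16719712) (l 16693904))) (b (b (l 16693384) (l 16677872)) (a (l 16689080) (b (l 16702200) (l 16708304)))))))), by decide +kernel⟩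

def k61_pp_012_s : ∃ t, chk3 f_pp_012_s t 62 58 1 = true :=
  ⟨(c (a (c (b (a (b (l 16726976) (l 16729856)) (b (l 16732248) (l 16724648))) (a (a (l 16735552) (l 16733008)) (a (l 16730416) (l 16727768)))) (a (b (l 16729944) (c (l 16735200) (l 16725384))) (b (l 16725336) (b (l 16718984) (l 16732312))))) (c (c (b (a (l 16727608) (l 16721776)) (a (l 16733624) (l 16727832))) (b (a (l 16728928) (l 16723464)) (a (l 16734752) (l 16729304)))) (b (a (l 16710104) (l 16705232)) (a (l 16726112) (l 16721216))))) (c (a (a (b (l 16742160) (l 16747424)) (b (l 16738224) (l 16743384))) (a (b (l 16734264) (l 16739328)) (b (l 16730264) (l 16735248)))) (a (a (b (l 16744088) (l 16748984)) (b (l 16740904) (l 16745632))) (a (b (l 16737664) (l 16742368)) (b (l 16733112) (l 16738912)))))), by decide +kernel⟩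

def k62_pp_012_s : ∃ t, chk3 f_pp_012_s t 62 59 1 = true :=
  ⟨(b (c (a (a (a (c (b (l 16750600) (l 16748464)) (l 16745136)) (c (a (l 16745008) (l 16738496)) (l 16740200))) (c (c (b (l 16743824) (l 16746992)) (b (l 16744536) (l 16747624))) (c (l 16736312) (l 16737080)))) (a (c (c (a (l 16741296) (l 16738488)) (l 16731672)) (c (l 16731368) (l 16732440))) (c (c (a (l 16735624) (l 16732712)) (l 16724944)) (b (l 16725520) (l 16728464))))) (a (c (a (c (l 16742168) (l 16753224)) (l 16748800)) (a (a (l 16755048) (l 16753248)) (l 16745368))) (a (c (l 16744656) (l 16736704)) (c (l 16740480) (l 16733344))))) (a (b (a (c (c (a (l 16751616) (c (l 16754152) (l 16754552))) (c (l 16750928) (l 16746088))) (c (l 16757224) (l 16758176))) (c (a (a (l 16746368) (l 16746440)) (a (l 16739952) (l 16738696))) (c (l 16753024) (l 16754520)))) (a (c (a (c (b (l 16754016) (l 16755624)) (l 16755360)) (c (c (l 16757400) (l 16757736)) (l 16747792))) (c (l 16760152) (l 16760936))) (c (c (a (c (l 16754800) (l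 16755232)) (l 16747168)) (c (l 16749232) (l 16744536))) (c (l 16755896) (l 16751944))))) (a (a (c (a (b (l 16737424) (l 16743208)) (b (l 16736144) (l 16741936))) (c (l 16751280) (l 16753128))) (b (c (a (l 16734856) (l 16733560)) (l 16738400)) (l 14))) (l 14)))), by decide +kernel⟩

def k63_pp_012_s : ∃ t, chk3 f_pp_012_s t 63 29 1 = true :=
  ⟨(b (b (a (c (c (a (c (l 16715704) (l 16717792)) (c (l 16698920) (l 16711928))) (a (l 16700216) (l 16695056))) (a (b (l 16706848) (l 16709080)) (a (l 16705288) (l 16703496)))) (a (a (b (c (l 16686520) (l 16721592)) (l 14)) (l 14)) (l 14))) (a (a (c (c (a (l 16724208) (l 16721240)) (l 16713560)) (a (l 16723936) (l 16711624))) (a (c (b (l 16703240) (l 14)) (l 16709776)) (l 14))) (l 14))) (b (b (b (a (a (a (c (l 16719264) (l 16737440)) (l 14)) (l 14)) (l 14)) (l 14)) (l 14)) (l 14))), by decide +kernel⟩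

def k64_pp_012_s : ∃ t, chk3 f_pp_012_s t 60 30 1 = true :=
  ⟨(l 3), by decide +kernel⟩

def k65_pp_012_s : ∃ t, chk3 f_pp_012_s t 122 480 1 = true :=
  ⟨(a (b (a (l 3) (a (l 3) (a (l 3) (c (c (b (c (b (a (a (l 247128391895) (a (l 135459242311) (l 90362085591))) (l 16777040)) (c (a (l 3) (a (a (l 196125655367) (l 128479920439)) (l 16777328))) (l 130090533079))) (l 91972697959)) (c (c (a (l 3) (l 241759682967)) (l 246054650439)) (l 247128392247))) (l 118279374695)) (l 16777336))))) (l 3)) (c (c (a (a (b (a (c (b (l 16776744) (a (a (b (a (l 125258694951) (l 16777184)) (l 3)) (b (l 16777088) (a (l 176261431639) (l 119889985815)))) (c (c (l 16777144) (l 16776976)) (l 16776976)))) (l 16777560)) (c (c (l 16776368) (l 16776368)) (l 16776368))) (a (c (b (c (a (l 3) (b (a (l 183240753527) (a (l 107541954839) (l 16777168))) (l 3))) (l 207936815479)) (l 3)) (l 217600492135)) (b (c (a (a (b (l 16777072) (a (l 156397207911) (l 105931342087))) (l 16777192)) (l 16776824)) (l 16776952)) (b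 (c (a (c (l 224042942695) (l 176261431863)) (a (b (l 16777144) (l 112910663943)) (l 16777056))) (l 16777544)) (a (l 3) (c (a (l 3) (b (l 16777192) (l 168745238839))) (l 16777272))))))) (c (c (b (l 16775528) (a (b (l 16776408) (c (l 16776888) (l 16776808))) (l 16776048))) (l 16775928)) (l 16775928))) (c (c (c (a (l 16774808) (b (l 16773272) (l 16772760))) (l 16774568)) (l 16774576)) (a (l 16774816) (l 16771072)))) (a (a (a (a (l 104320730087) (l 75329699143)) (l 16778048)) (l 16775936)) (l 16774272))) (a (c (c (l 16776424) (l 16776424)) (l 16779048)) (c (l 16774296) (l 16774320))))), by decide +kernel⟩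

def k66_pp_012_s : ∃ t, chk3 f_pp_012_s t 122 481 1 = true :=
  ⟨(a (l 3) (a (a (l 3) (a (c (c (b (c (a (b (b (a (a (l 202568106327) (l 134385500487)) (b (l 16777128) (l 96804536567))) (l 239612199207)) (l 3)) (a (b (b (l 16777032) (a (l 129016791351) (l 16777352))) (l 3)) (b (l 16776992) (a (l 237464715543) (b (l 123111211303) (l 3)))))) (b (l 76940312327) (l 173577078039))) (l 3)) (l 196125655703)) (l 130090536519)) (c (b (c (c (b (l 16776648) (a (b (a (l 16777352) (l 16777016)) (a (l 182703882663) (b (l 16777160) (l 127943049527)))) (l 16776904))) (l 16777488)) (l 16776840)) (a (l 3) (b (c (c (c (b (a (a (l 173577077031) (l 108615696647)) (l 16777136)) (c (l 226727297271) (l 182703882775))) (l 115058148023)) (l 16777256)) (l 16777248)) (l 3)))) (l 16778432)))) (a (c (a (c (b (c (c (l 16776288) (l 16776288)) (l 16776288)) (a (a (c (b (b (l 16777000) (b (l 16777144) (l 115058147607))) (l 3)) (l 98415150071)) (c (b (l 16776960) (b (b (l 16777360) (l 170892722503)) (l 3))) (l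 16777784))) (c (c (b (l 16776744) (b (l 16777048) (a (a (l 3) (l 138680467783)) (a (l 86603989223) (l 16777144))))) (l 16777264)) (l 16776936)))) (l 16776664)) (c (c (b (l 16775728) (a (l 16776664) (l 16776384))) (l 16776128)) (l 16776136))) (l 16777712)) (c (c (c (a (c (l 16775728) (l 16775560)) (l 16775328)) (l 16775288)) (l 16775296)) (l 16775320))))), by decide +kernel⟩

def k67_pp_012_s : ∃ t, chk3 f_pp_012_s t 122 241 1 = true :=
  ⟨(a (l 3) (a (l 3) (a (b (b (c (c (c (a (b (c (a (l 3) (l 248202133927)) (l 250349617735)) (l 3)) (a (b (a (b (b (l 16777184) (l 147807273303)) (l 3)) (b (l 16777096) (b (l 117205631255) (l 3)))) (l 3)) (c (b (a (b (l 16776960) (l 16777320)) (l 16776920)) (b (a (l 184314495399) (b (l 16777168) (l 147807273191))) (l 3))) (b (l 16776984) (l 141364822791))))) (a (l 251960230711) (b (l 16777680) (l 159618434215)))) (a (l 253570843431) (l 99488892551))) (l 112910667655)) (l 3)) (l 3)) (b (b (c (c (c (a (b (l 16776568) (a (b (l 16777008) (a (b (l 103246987511)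 (l 199883751735)) (l 16777296))) (l 16776832))) (c (l 16776200) (l 16776208))) (c (l 16776480) (l 16776488))) (l 16776488)) (l 16776496)) (c (a (c (b (b (c (a (c (c (l 228874780919) (l 184851366423)) (l 181630140983)) (b (l 16777080) (a (l 118279373079) (l 16777112)))) (l 101099504455)) (c (c (a (l 3) (a (l 3) (b (l 16777368) (l 177872044327)))) (l 212768653623)) (l 155860337687))) (l 3)) (l 138143598407)) (c (b (c (c (a (l 16777072) (l 16776664)) (l 16776808)) (l 16776808)) (b (c (a (a (b (l 133311758647) (l 3)) (a (a (l 96804536583) (l 16777192)) (l 16777144))) (l 16776968)) (l 16777096)) (c (a (l 247128391975) (a (b (l 16777352) (l 149954756951)) (l 16777096))) (l 110763180935)))) (l 16776984))) (l 80161539095))) (a (l 3) (c (c (b (c (b (c (a (l 3) (a (l 3) (b (b (l 113984405783) (l 3)) (l 3)))) (l 229411652071)) (l 3)) (l 233169748695)) (l 3)) (l 247665263783)) (l 197736271447))))))), by decide +kernel⟩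

def k68_pp_012_s : ∃ t, chk3 f_pp_012_s t 122 121 1 = true :=
  ⟨(l 3), by decide +kernel⟩

def k69_pp_012_s : ∃ t, chk3 f_pp_012_s t 492 240 2 = true :=
  ⟨(c (c (c (b (a (b (l 16772128) (l 16772936)) (l 16771376)) (a (b (l 16772424) (c (l 16773392) (l 16773232))) (a (l 16771968) (l 16772704)))) (c (l 16773424) (l 16772776))) (c (l 16772784) (l 16772792))) (c (l 16772816) (l 16772840))), by decide +kernel⟩

def k70_pp_012_s : ∃ t, chk3 f_pp_012_s t 492 241 2 = true :=
  ⟨(b (a (c (c (b (c (l 16775352) (l 16775352)) (a (a (l 16776584) (l 16776304)) (l 16775872))) (l 16775760)) (l 16775768)) (c (c (a (c (b (l 16774488) (l 16774648)) (l 16773592)) (b (l 16773920) (l 16774072))) (l 16774624)) (l 16774648))) (b (c (c (a (a (a (b (a (c (b (a (l 16777352) (l 16777128)) (l 190756946311)) (l 16777384)) (b (l 16777016) (b (l 16777168) (l 133311758647)))) (l 3)) (b (l 16776992) (c (b (a (b (l 98415149303) (l 206326202647)) (l 16777296)) (c (l 229411651831) (l 185388237335))) (l 112373792855))))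 (c (b (l 16776480) (b (l 16776784) (b (l 16777040) (a (a (l 113984405783) (l 16777112)) (l 16776896))))) (l 16776680))) (c (c (l 16775992) (l 16775824)) (l 16775832))) (a (a (b (l 16777688) (a (l 3) (l 109689439031))) (l 16776680)) (l 16775832))) (a (c (l 16778232) (l 16776928)) (l 16775848))) (a (a (l 3) (c (c (b (c (b (a (a (l 3) (b (l 16777328) (l 177872044327))) (l 16777208)) (a (l 3) (a (b (l 130627404087) (l 3)) (b (l 16777128) (l 97878278391))))) (a (l 159618433783) (l 16777456))) (a (l 3) (a (l 3) (l 249812746567)))) (a (l 222969201143) (b (l 16777128) (l 210621170487)))) (l 121500600183))) (c (a (c (a (b (l 16776864) (a (b (b (l 16777344) (l 149417886039)) (l 3)) (b (l 16777096) (a (l 196662526263) (a (l 158007820535) (l 109689438487)))))) (c (b (l 16775928) (c (b (l 16776888) (a (l 16777320) (l 16777016))) (l 16776984))) (l 16776784))) (c (b (l 16776728) (l 16777760)) (l 16776904))) (c (c (l 16776352) (l 16776352)) (l 16776360))) (l 16777288))))), by decide +kernel⟩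

def k71_pp_012_s : ∃ t, chk3 f_pp_012_s t 493 120 2 = true :=
  ⟨(a (c (c (b (b (l 16767600) (c (l 16770520) (l 16771848))) (b (c (a (l 16772432) (l 16771848)) (l 16772152)) (c (a (l 16775696) (b (l 16774384) (l 16774544))) (l 16775088)))) (b (c (l 16768440) (l 16765840)) (b (l 16770864) (l 16775096)))) (b (l 16767864) (l 16774320))) (c (c (b (b (l 16769056) (l 16768048)) (b (b (l 16769264) (l 16771392)) (c (b (l 16772200) (c (l 16773184) (l 16773024))) (l 16772296)))) (b (l 16767296) (l 16773792))) (b (l 16767392) (l 16773184)))), by decide +kernel⟩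

def k72_pp_012_s : ∃ t, chk3 f_pp_012_s t 247 120 2 = true :=
  ⟨(c (b (a (a (c (b (l 16767872) (l 16769488)) (l 16763512)) (b (l 16764104) (l 16765720))) (c (a (l 16763656) (l 16765064)) (l 16761880))) (a (a (c (a (b (l 16771416) (c (l 16771728) (l 16773056))) (b (l 16770824) (l 16771152))) (c (l 16769352) (l 16769368))) (c (b (l 16767312) (c (l 16770248) (l 16771584))) (c (l 16768176) (l 16765584)))) (a (c (b (l 16768736) (l 16767760)) (l 16767016)) (c (b (l 16767520) (l 16769168)) (l 16765824))))) (a (c (b (l 16765640) (l 16771456)) (l 16769936)) (c (b (l 16760712) (c (l 16763872) (l 16763928))) (l 16767672)))), by decide +kernel⟩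

def k73_pp_012_s : ∃ t, chk3 f_pp_012_s t 246 484 2 = true :=
  ⟨(a (a (l 3) (b (a (a (l 3) (c (c (b (c (a (l 238538457399) (b (b (l 16777168) (l 129553662263)) (l 3))) (l 141364822791)) (l 3)) (l 214916137415)) (l 161229047175))) (c (b (c (a (b (l 16777008) (c (a (a (l 176261431591) (a (l 139754209495) (l 90362085623))) (l 16777296)) (l 16777192))) (l 16776824)) (l 16776952)) (a (c (a (l 3) (a (l 3) (c (l 229411651815) (l 188609462759)))) (l 185925108567)) (c (b (b (l 16777072) (a (a (l 180019527895) (l 16777208)) (l 16777104))) (a (l 3) (b (a (l 16777312) (l 16777168)) (l 170892722503)))) (l 16777192)))) (l 16777768))) (l 3))) (c (a (b (c (c (b (a (l 16776392) (l 16775160)) (c (a (a (l 16777024) (l 16776000)) (l 16775568)) (l 16776512))) (l 16776312)) (l 16776312)) (c (a (a (b (a (a (l 3) (a (l 233169748199) (b (l 145659789527) (l 3)))) (b (a (b (l 16777160) (l 141901693159)) (l 16777136)) (l 243370295495))) (l 3)) (a (b (b (l 16777032) (b (l 16777344) (a (l 3) (l 128479920343))))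 (l 3)) (b (l 16776992) (a (l 239075328279) (b (b (l 16777208) (l 3)) (l 3)))))) (a (b (l 16776776) (a (c (c (b (l 16777312) (l 184851366279)) (b (l 16777152) (l 184851366279))) (l 102710116855)) (b (l 16777008) (b (l 16777160) (a (l 202568106215) (l 16777216)))))) (c (l 16776776) (l 16776696)))) (a (a (l 207399944583) (b (l 16777056) (l 167671497575))) (a (l 16777296) (l 16776696))))) (c (c (c (b (a (l 16774784) (l 16774856)) (c (l 16776128) (l 16775968))) (l 16775720)) (l 16775560)) (l 16775656))) (a (a (b (l 16776600) (l 110226310919)) (l 16776432)) (l 16775592)))), by decide +kernel⟩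

def k74_pp_012_s : ∃ t, chk3 f_pp_012_s t 246 485 2 = true :=
  ⟨(a (l 3) (b (a (a (l 3) (a (l 3) (c (c (b (a (b (b (a (l 141364822231) (l 16777184)) (l 193978171703)) (l 3)) (c (b (l 16777296) (a (l 3) (l 155860336951))) (l 16777448))) (l 3)) (l 199346880183)) (l 138143598007)))) (c (c (b (a (a (b (l 16776920) (b (l 16777072) (a (a (l 177335173319) (l 16777200)) (l 16777104)))) (l 16776728)) (l 16776296)) (a (c (b (a (a (l 3) (b (l 16777320) (l 173040206103))) (l 16777120)) (a (l 3) (a (c (b (l 140291080407) (l 3)) (l 153712853351)) (a (b (l 16777152) (l 144049176759)) (l 16777136))))) (a (l 158007821031) (l 16777448))) (c (l 16776704) (l 16776704)))) (b (l 16776832) (a (a (l 154249724727) (l 16777120)) (l 16776712)))) (c (l 16777424) (l 16776768)))) (a (l 3) (a (c (c (b (a (l 3) (c (b (l 243907166487) (l 3)) (l 248739004823))) (l 3)) (l 252497101607)) (l 254644585239)) (c (a (b (c (a (c (b (b (l 16777176) (l 155860336887)) (l 3)) (l 129553662567)) (b (l 16777088) (a (l 178945786199)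 (b (l 16777200) (l 3))))) (l 95730795239)) (l 3)) (b (c (c (c (b (l 16776872) (a (l 16777304) (l 16777000))) (l 16776968)) (l 16776968)) (l 16776968)) (b (c (a (a (l 3) (l 170355851591)) (b (l 16777152) (a (l 191293817063) (l 16777216)))) (l 16777240)) (l 3)))) (l 98952020311)))))), by decide +kernel⟩

def k75_pp_012_s : ∃ t, chk3 f_pp_012_s t 246 243 2 = true :=
  ⟨(l 3), by decide +kernel⟩

def k76_pp_012_s : ∃ t, chk3 f_pp_012_s t 247 242 2 = true :=
  ⟨(c (a (c (a (a (b (c (b (l 16774272) (l 16774440)) (l 16773384)) (b (l 16776080) (b (c (l 16776536) (l 16776536)) (a (b (l 16776992) (c (a (a (l 159618433335) (b (l 16777176) (l 193441300647))) (l 16777288)) (l 16777176))) (l 16776800))))) (b (b (l 16773688) (l 16773856)) (c (b (c (l 16774680) (l 16775336)) (l 16776160)) (l 16775752)))) (c (a (b (l 16772200) (b (l 16773432) (a (l 16775064) (l 16775424)))) (b (l 16772912) (b (l 16774152) (l 16774328)))) (c (l 16774536) (l 16774056)))) (b (a (l 16774416) (l 16771288)) (a (a (b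 (l 16775928) (l 16777064)) (l 16775760)) (l 16774888)))) (c (a (b (a (l 16771016) (l 16771728)) (a (b (l 16773568) (l 16773088)) (a (l 16772224) (l 16771928)))) (a (b (l 16771128) (c (l 16772776) (l 16772800))) (b (l 16770520) (l 16770872)))) (c (b (l 16768856) (a (l 16771088) (l 16772528))) (l 16772320)))) (a (c (a (l 16775656) (l 16774096)) (l 16775024)) (c (l 16772696) (l 16772424)))), by decide +kernel⟩

def k77_pp_012_s : ∃ t, chk3 f_pp_012_s t 494 486 2 = true :=
  ⟨(c (a (a (b (b (a (c (a (l 3) (a (l 3) (a (l 236927844599) (b (l 151565369575) (l 3))))) (l 182703883079)) (c (a (b (a (b (l 16777168) (l 154786595047)) (l 16777144)) (l 250349617367)) (b (l 16777040) (c (b (l 16777352) (l 156934078775)) (l 16777224)))) (l 16777504))) (l 3)) (l 3)) (a (b (b (c (c (c (l 16776920) (l 16776920)) (l 16776928)) (l 16776928)) (c (a (a (l 244444037399) (b (b (l 16777208) (l 3)) (l 3))) (b (a (b (l 16777144) (l 127943049415)) (l 16777120)) (l 234243489975))) (l 119353115431))) (l 3))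 (b (c (b (l 16776632) (b (l 16776944) (a (b (l 16777328) (a (l 3) (l 115058147511))) (l 16777072)))) (l 16776840)) (a (l 3) (c (b (b (a (l 172503335239) (b (l 16777192) (l 194515042535))) (l 3)) (l 3)) (l 225653555639)))))) (b (c (c (c (a (l 16776400) (b (l 16775600) (l 16775360))) (l 16776104)) (l 16776112)) (l 16776120)) (a (b (c (a (a (c (b (l 16777296) (b (l 161765916935) (l 3))) (l 89288344103)) (b (l 16776992) (b (l 16777144) (a (l 180019527895) (l 16777208))))) (l 16776872)) (c (l 16777008) (l 16777008))) (a (l 3) (c (b (a (b (a (l 119353114823) (l 16777168)) (l 169818980679)) (l 16777232)) (a (l 3) (a (l 3) (b (l 16777304) (l 3))))) (l 103246988039)))) (c (c (a (a (b (l 16776000) (a (b (l 16777000) (b (l 16777160) (l 149954756791))) (l 16777032))) (l 16776712)) (l 16776496)) (l 16776640)) (l 16776648))))) (a (a (a (l 252497101831) (l 209010557607)) (b (l 16776960) (l 229948523175))) (a (b (l 16776416) (l 81235280231)) (l 16776248)))), by decide +kernel⟩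

def k78_pp_012_s : ∃ t, chk3 f_pp_012_s t 495 486 2 = true :=
  ⟨(a (c (c (c (a (a (l 16776032) (b (l 16775072) (l 16775248))) (b (l 16773312) (a (l 16774952) (l 16775312)))) (l 16775352)) (c (l 16775360) (l 16775368))) (l 16775392)) (c (a (c (c (b (l 16774024) (l 16774208)) (l 16773152)) (l 16773168)) (c (b (l 16773440) (l 16772960)) (l 16771272))) (l 16774240))), by decide +kernel⟩

def k79_pp_012_s : ∃ t, chk3 f_pp_012_s t 247 487 2 = true :=
  ⟨(b (a (a (l 3) (a (l 3) (b (c (c (b (a (a (l 242296553671) (b (l 16777320) (a (l 3) (l 129016791239)))) (c (l 16777016) (l 16777016))) (a (l 3) (a (a (l 182167011671) (b (l 16777200) (l 3))) (a (b (l 16777136) (l 115595018423)) (l 16777112))))) (a (l 145122919239) (l 16777104))) (l 16777200)) (c (c (a (l 3) (c (b (a (l 3) (c (l 229411651751) (l 183777624439))) (l 3)) (l 240149070199))) (l 240149070375)) (l 187535721959))))) (a (c (a (a (c (b (l 16776824) (a (b (b (l 16777152) (a (l 194515042535) (l 16777296))) (l 3)) (b (l 16777064)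 (b (a (l 132238016727) (l 16777176)) (l 181093269847))))) (b (l 16776832) (l 89825215175))) (c (a (c (b (l 16775944) (b (l 16776264) (l 16777280))) (l 16776808)) (l 16776664)) (l 16776744))) (c (a (l 16776528) (b (l 16775288) (l 16775864))) (l 16776304))) (c (l 16776592) (l 16776600))) (c (a (a (b (c (l 16775648) (l 16775656)) (l 14)) (l 14)) (l 14)) (l 16775456)))) (a (l 3) (a (b (a (a (l 3) (c (c (a (a (l 3) (a (l 238001586423) (b (l 152639111399) (l 3)))) (b (a (b (l 16777168) (l 155323465959)) (l 16777144)) (l 251423359191))) (l 126332437319)) (l 16777280))) (b (c (c (c (l 16776816) (l 16776816)) (l 16776824)) (l 16776824)) (l 14))) (a (l 3) (l 14))) (l 14)))), by decide +kernel⟩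

def k80_pp_012_s : ∃ t, chk3 f_pp_012_s t 123 60 3 = true :=
  ⟨(b (b (a (c (a (l 16772888) (l 16770704)) (a (l 16772952) (l 16770840))) (c (a (l 16768528) (l 16766360)) (a (l 16768768) (l 16766728)))) (a (a (a (b (l 16775792) (a (l 116131892679) (l 16778656))) (c (l 16775464) (l 16775488))) (c (l 16773808) (l 16773880))) (c (a (l 16771608) (l 16769424)) (a (l 16771752) (l 16769672))))) (a (b (b (a (a (l 3) (b (c (l 16778600) (l 16777280)) (l 3))) (a (c (l 16776680) (l 16776688)) (l 16775632))) (a (l 3) (a (b (l 152639115223) (l 3)) (c (c (l 74792826519) (l 16777072)) (l 73719085175))))) (l 3)) (b (c (a (c (l 16774720) (l 16774752)) (l 16772520)) (a (l 16774144) (l 16772664))) (a (a (b (b (c (l 16778464) (l 16777152)) (l 175724564279)) (l 3)) (b (c (l 16776520) (l 16776536)) (c (l 213305525239) (l 217063621575)))) (a (b (l 16774800) (a (a (l 101636377223) (l 16778472)) (l 16778104))) (c (l 16775104) (l 16775168))))))), by decide +kernel⟩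

def k81_pp_012_s : ∃ t, chk3 f_pp_012_s t 61 61 1 = true :=
  ⟨(a (l 3) (a (l 3) (a (l 3) (a (l 3) (l 14))))), by decide +kernel⟩

def k82_pp_012_s : ∃ t, chk3 f_pp_012_s t 30 31 1 = true :=
  ⟨(l 3), by decide +kernel⟩

def k83_pp_012_s : ∃ t, chk3 f_pp_012_s t 31 15 1 = true :=
  ⟨(a (b (b (a (a (b (a (c (b (c (c (b (l 16762384) (l 16764024)) (l 16758160)) (b (l 16757696) (l 16759264))) (a (c (b (l 16763744) (c (l 16767944) (l 16768064))) (l 16764840)) (c (c (l 16763264) (l 16766040)) (l 16761064)))) (c (b (l 16753720) (l 16767240)) (b (l 16764736) (l 16767632)))) (c (b (c (c (l 16755440) (l 16760952)) (l 16756152)) (c (c (b (l 16763168) (l 16762216)) (l 16758968)) (c (l 16759192) (l 16754192)))) (c (c (l 16758152) (l 16763704)) (l 16762888)))) (b (a (c (b (c (c (a (l 16766984) (l 16768384)) (l 16766480)) (a (l 16764616) (l 16763456))) (c (c (a (c (l 16769952) (l 16771296)) (l 16768744)) (c (l 16768112) (l 16765528))) (l 16771216))) (c (l 16770312) (l 16770576))) (a (b (c (c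 (l 16764592) (l 16767536)) (l 16768096)) (l 14)) (l 14))) (a (a (b (a (c (c (c (c (l 16771936) (l 16773264)) (l 16770680)) (l 16768128)) (l 16773544)) (l 14)) (l 14)) (l 14)) (l 14)))) (b (b (c (a (c (c (l 16758104) (l 16758464)) (l 16753800)) (c (c (l 16755480) (l 16755928)) (l 16746176))) (c (c (l 16748088) (l 16748600)) (l 16757288))) (a (a (c (b (a (l 16761992) (l 16761376)) (l 14)) (l 16763784)) (l 14)) (l 14))) (l 14))) (l 14)) (l 14)) (l 14)) (l 14)), by decide +kernel⟩

theorem s84_pp_012_s : ∃ t, chk3 f_pp_012_s t 247 486 2 = true := ex3_a k77_pp_012_s k78_pp_012_s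

theorem s85_pp_012_s : ∃ t, chk3 f_pp_012_s t 247 243 2 = true := ex3_b s84_pp_012_s k79_pp_012_s

theorem s86_pp_012_s : ∃ t, chk3 f_pp_012_s t 247 121 2 = true := ex3_b k76_pp_012_s s85_pp_012_s

theorem s87_pp_012_s : ∃ t, chk3 f_pp_012_s t 246 242 2 = true := ex3_b k73_pp_012_s k74_pp_012_s

theorem s88_pp_012_s : ∃ t, chk3 f_pp_012_s t 246 121 2 = true := ex3_b s87_pp_012_s k75_pp_012_s

theorem s89_pp_012_s : ∃ t, chk3 f_pp_012_s t 123 121 2 = true := ex3_a s88_pp_012_s s86_pp_012_s

theorem s90_pp_012_s : ∃ t, chk3 f_pp_012_s t 492 120 2 = true := ex3_b k69_pp_012_s k70_pp_012_s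

theorem s91_pp_012_s : ∃ t, chk3 f_pp_012_s t 246 120 2 = true := ex3_a s90_pp_012_s k71_pp_012_s

theorem s92_pp_012_s : ∃ t, chk3 f_pp_012_s t 123 120 2 = true := ex3_a s91_pp_012_s k72_pp_012_s

theorem s93_pp_012_s : ∃ t, chk3 f_pp_012_s t 123 60 2 = true := ex3_b s92_pp_012_s s89_pp_012_s

theorem s94_pp_012_s : ∃ t, chk3 f_pp_012_s t 123 60 1 = true := ex3_c s93_pp_012_s k80_pp_012_s

theorem s95_pp_012_s : ∃ t, chk3 f_pp_012_s t 122 240 1 = true := ex3_b k65_pp_012_s k66_pp_012_s

theorem s96_pp_012_s : ∃ t, chk3 f_pp_012_s t 122 120 1 = true := ex3_b s95_pp_012_s k67_pp_012_s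

theorem s97_pp_012_s : ∃ t, chk3 f_pp_012_s t 122 60 1 = true := ex3_b s96_pp_012_s k68_pp_012_s

theorem s98_pp_012_s : ∃ t, chk3 f_pp_012_s t 61 60 1 = true := ex3_a s97_pp_012_s s94_pp_012_s

theorem s99_pp_012_s : ∃ t, chk3 f_pp_012_s t 61 30 1 = true := ex3_b s98_pp_012_s k81_pp_012_s

theorem s100_pp_012_s : ∃ t, chk3 f_pp_012_s t 30 30 1 = true := ex3_a k64_pp_012_s s99_pp_012_s

theorem s101_pp_012_s : ∃ t, chk3 f_pp_012_s t 30 15 1 = true := ex3_b s100_pp_012_s k82_pp_012_s

theorem s102_pp_012_s : ∃ t, chk3 f_pp_012_s t 15 15 1 = true := ex3_a s101_pp_012_s k83_pp_012_s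

theorem s103_pp_012_s : ∃ t, chk3 f_pp_012_s t 62 29 1 = true := ex3_b k61_pp_012_s k62_pp_012_s

theorem s104_pp_012_s : ∃ t, chk3 f_pp_012_s t 31 29 1 = true := ex3_a s103_pp_012_s k63_pp_012_s

theorem s105_pp_012_s : ∃ t, chk3 f_pp_012_s t 31 14 1 = true := ex3_b k60_pp_012_s s104_pp_012_s

theorem s106_pp_012_s : ∃ t, chk3 f_pp_012_s t 244 239 2 = true := ex3_b k55_pp_012_s k56_pp_012_s

theorem s107_pp_012_s : ∃ t, chk3 f_pp_012_s t 244 119 2 = true := ex3_b k54_pp_012_s s106_pp_012_s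

theorem s108_pp_012_s : ∃ t, chk3 f_pp_012_s t 122 119 2 = true := ex3_a s107_pp_012_s k57_pp_012_s

theorem s109_pp_012_s : ∃ t, chk3 f_pp_012_s t 122 59 2 = true := ex3_b k53_pp_012_s s108_pp_012_s

theorem s110_pp_012_s : ∃ t, chk3 f_pp_012_s t 122 29 2 = true := ex3_b k52_pp_012_s s109_pp_012_s

theorem s111_pp_012_s : ∃ t, chk3 f_pp_012_s t 122 29 1 = true := ex3_c s110_pp_012_s k58_pp_012_s

theorem s112_pp_012_s : ∃ t, chk3 f_pp_012_s t 61 29 1 = true := ex3_a s111_pp_012_s k59_pp_012_s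

theorem s113_pp_012_s : ∃ t, chk3 f_pp_012_s t 61 14 1 = true := ex3_b k51_pp_012_s s112_pp_012_s

theorem s114_pp_012_s : ∃ t, chk3 f_pp_012_s t 121 237 1 = true := ex3_b k48_pp_012_s k49_pp_012_s

theorem s115_pp_012_s : ∃ t, chk3 f_pp_012_s t 242 236 1 = true := ex3_a k45_pp_012_s k46_pp_012_s

theorem s116_pp_012_s : ∃ t, chk3 f_pp_012_s t 121 236 1 = true := ex3_a s115_pp_012_s k47_pp_012_s

theorem s117_pp_012_s : ∃ t, chk3 f_pp_012_s t 121 118 1 = true := ex3_b s116_pp_012_s s114_pp_012_s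

theorem s118_pp_012_s : ∃ t, chk3 f_pp_012_s t 121 59 1 = true := ex3_b s117_pp_012_s k50_pp_012_s

theorem s119_pp_012_s : ∃ t, chk3 f_pp_012_s t 121 29 1 = true := ex3_b k44_pp_012_s s118_pp_012_s

theorem s120_pp_012_s : ∃ t, chk3 f_pp_012_s t 241 117 1 = true := ex3_a k41_pp_012_s k42_pp_012_s

theorem s121_pp_012_s : ∃ t, chk3 f_pp_012_s t 120 117 1 = true := ex3_a k40_pp_012_s s120_pp_012_s

theorem s122_pp_012_s : ∃ t, chk3 f_pp_012_s t 120 58 1 = true := ex3_b k39_pp_012_s s121_pp_012_s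

theorem s123_pp_012_s : ∃ t, chk3 f_pp_012_s t 120 29 1 = true := ex3_b s122_pp_012_s k43_pp_012_s

theorem s124_pp_012_s : ∃ t, chk3 f_pp_012_s t 60 29 1 = true := ex3_a s123_pp_012_s s119_pp_012_s

theorem s125_pp_012_s : ∃ t, chk3 f_pp_012_s t 60 14 1 = true := ex3_b k38_pp_012_s s124_pp_012_s

theorem s126_pp_012_s : ∃ t, chk3 f_pp_012_s t 30 14 1 = true := ex3_a s125_pp_012_s s113_pp_012_s

theorem s127_pp_012_s : ∃ t, chk3 f_pp_012_s t 15 14 1 = true := ex3_a s126_pp_012_s s105_pp_012_s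

theorem s128_pp_012_s : ∃ t, chk3 f_pp_012_s t 15 7 1 = true := ex3_b s127_pp_012_s s102_pp_012_s

theorem s129_pp_012_s : ∃ t, chk3 f_pp_012_s t 119 57 2 = true := ex3_b k33_pp_012_s k34_pp_012_s

theorem s130_pp_012_s : ∃ t, chk3 f_pp_012_s t 119 57 1 = true := ex3_c s129_pp_012_s k35_pp_012_s

theorem s131_pp_012_s : ∃ t, chk3 f_pp_012_s t 118 57 1 = true := ex3_a k31_pp_012_s k32_pp_012_s

theorem s132_pp_012_s : ∃ t, chk3 f_pp_012_s t 59 57 1 = true := ex3_a s131_pp_012_s s130_pp_012_s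

theorem s133_pp_012_s : ∃ t, chk3 f_pp_012_s t 59 28 1 = true := ex3_b k30_pp_012_s s132_pp_012_s

theorem s134_pp_012_s : ∃ t, chk3 f_pp_012_s t 58 56 1 = true := ex3_b k27_pp_012_s k28_pp_012_s

theorem s135_pp_012_s : ∃ t, chk3 f_pp_012_s t 58 28 1 = true := ex3_b s134_pp_012_s k29_pp_012_s

theorem s136_pp_012_s : ∃ t, chk3 f_pp_012_s t 29 28 1 = true := ex3_a s135_pp_012_s s133_pp_012_s

theorem s137_pp_012_s : ∃ t, chk3 f_pp_012_s t 29 14 1 = true := ex3_b s136_pp_012_s k36_pp_012_s

theorem s138_pp_012_s : ∃ t, chk3 f_pp_012_s t 14 14 1 = true := ex3_a k26_pp_012_s s137_pp_012_s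

theorem s139_pp_012_s : ∃ t, chk3 f_pp_012_s t 14 7 1 = true := ex3_b s138_pp_012_s k37_pp_012_s

theorem s140_pp_012_s : ∃ t, chk3 f_pp_012_s t 7 7 1 = true := ex3_a s139_pp_012_s s128_pp_012_s

theorem s141_pp_012_s : ∃ t, chk3 f_pp_012_s t 15 6 1 = true := ex3_a k24_pp_012_s k25_pp_012_s

theorem s142_pp_012_s : ∃ t, chk3 f_pp_012_s t 29 6 2 = true := ex3_b k21_pp_012_s k22_pp_012_s

theorem s143_pp_012_s : ∃ t, chk3 f_pp_012_s t 29 6 1 = true := ex3_c s142_pp_012_s k23_pp_012_s

theorem s144_pp_012_s : ∃ t, chk3 f_pp_012_s t 57 6 1 = true := ex3_a k19_pp_012_s k20_pp_012_s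

theorem s145_pp_012_s : ∃ t, chk3 f_pp_012_s t 56 6 1 = true := ex3_b k17_pp_012_s k18_pp_012_s

theorem s146_pp_012_s : ∃ t, chk3 f_pp_012_s t 28 6 1 = true := ex3_a s145_pp_012_s s144_pp_012_s

theorem s147_pp_012_s : ∃ t, chk3 f_pp_012_s t 14 6 1 = true := ex3_a s146_pp_012_s s143_pp_012_s

theorem s148_pp_012_s : ∃ t, chk3 f_pp_012_s t 7 6 1 = true := ex3_a s147_pp_012_s s141_pp_012_s

theorem s149_pp_012_s : ∃ t, chk3 f_pp_012_s t 7 3 1 = true := ex3_b s148_pp_012_s s140_pp_012_s

theorem s150_pp_012_s : ∃ t, chk3 f_pp_012_s t 7 1 1 = true := ex3_b k16_pp_012_s s149_pp_012_s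

theorem s151_pp_012_s : ∃ t, chk3 f_pp_012_s t 27 6 1 = true := ex3_a k13_pp_012_s k14_pp_012_s

theorem s152_pp_012_s : ∃ t, chk3 f_pp_012_s t 13 6 1 = true := ex3_a k12_pp_012_s s151_pp_012_s

theorem s153_pp_012_s : ∃ t, chk3 f_pp_012_s t 6 6 1 = true := ex3_a k11_pp_012_s s152_pp_012_s

theorem s154_pp_012_s : ∃ t, chk3 f_pp_012_s t 6 3 1 = true := ex3_b s153_pp_012_s k15_pp_012_s

theorem s155_pp_012_s : ∃ t, chk3 f_pp_012_s t 13 2 1 = true := ex3_b k9_pp_012_s k10_pp_012_s

theorem s156_pp_012_s : ∃ t, chk3 f_pp_012_s t 24 2 1 = true := ex3_b k6_pp_012_s k7_pp_012_s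

theorem s157_pp_012_s : ∃ t, chk3 f_pp_012_s t 12 2 1 = true := ex3_a s156_pp_012_s k8_pp_012_s

theorem s158_pp_012_s : ∃ t, chk3 f_pp_012_s t 6 2 1 = true := ex3_a s157_pp_012_s s155_pp_012_s

theorem s159_pp_012_s : ∃ t, chk3 f_pp_012_s t 6 1 1 = true := ex3_b s158_pp_012_s s154_pp_012_s

theorem s160_pp_012_s : ∃ t, chk3 f_pp_012_s t 3 1 1 = true := ex3_a s159_pp_012_s s150_pp_012_s

theorem s161_pp_012_s : ∃ t, chk3 f_pp_012_s t 11 4 1 = true := ex3_a k2_pp_012_s k3_pp_012_s

theorem s162_pp_012_s : ∃ t, chk3 f_pp_012_s t 5 4 1 = true := ex3_a k1_pp_012_s s161_pp_012_s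

theorem s163_pp_012_s : ∃ t, chk3 f_pp_012_s t 2 4 1 = true := ex3_a k0_pp_012_s s162_pp_012_s

theorem s164_pp_012_s : ∃ t, chk3 f_pp_012_s t 2 2 1 = true := ex3_b s163_pp_012_s k4_pp_012_s

theorem s165_pp_012_s : ∃ t, chk3 f_pp_012_s t 2 1 1 = true := ex3_b s164_pp_012_s k5_pp_012_s

theorem s166_pp_012_s : ∃ t, chk3 f_pp_012_s t 1 1 1 = true := ex3_a s165_pp_012_s s160_pp_012_s

theorem c_pp_012_s : CertNE 0 536870912 0 536870912 858993459 64424510 3 eng mog cd0q0 cd0q2 pd1 false true true .pnp 0 1 2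
    ndB0q0 ndB0q2 pcB1 cut_pp_012_s Ext.none :=
  certNE2 (fam := false) (s1 := true) (s2 := true) (a := 0) (b := 1) (c := 2) (cn := .pnp) (n1 := ndB0q0) (n2 := ndB0q2) (pc := pcB1) (cut := cut_pp_012_s) (xt := Ext.none) (P1 := 0) (W1 := 536870912) (P2 := 0) (W2 := 536870912) (P3 := 858993459) (W3 := 64424510) (N0 := 3) (En := eng) (mo := mog) (C1 := cd0q0) (C2 := cd0q2) (C3 := pd1)
    rfl (fun _ => rfl) s166_pp_012_s

noncomputable def cut_pp_012_t : Cut := Cut.of [[⟨3, 0, 0, 2845415833⟩], [⟨0, 0, 0, 67108864⟩, ⟨1, 1, 0, 67108864⟩, ⟨2, 1, 0, 67108864⟩]]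

noncomputable def f_pp_012_t : ℕ → ℕ → ℕ → ℕ → Bool := onCell 0 536870912 0 536870912 858993459 64424510
    (rowNE 3 eng mog cd0q0 cd0q2 pd1 0 false true true .pnp 0 1 2 (qsf 0 536870912 0 536870912 1) ndB0q0 ndB0q2 pcB1 cut_pp_012_t Ext.none)

def k0_pp_012_t : ∃ t, chk3 f_pp_012_t t 1 1 1 = true :=
  ⟨(l 6), by decide +kernel⟩

theorem c_pp_012_t : CertNE 0 536870912 0 536870912 858993459 64424510 3 eng mog cd0q0 cd0q2 pd1 false true true .pnp 0 1 2
    ndB0q0 ndB0q2 pcB1 cut_pp_012_t Ext.none :=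
  certNE0 (fam := false) (s1 := true) (s2 := true) (a := 0) (b := 1) (c := 2) (cn := .pnp) (n1 := ndB0q0) (n2 := ndB0q2) (pc := pcB1) (cut := cut_pp_012_t) (xt := Ext.none) (P1 := 0) (W1 := 536870912) (P2 := 0) (W2 := 536870912) (P3 := 858993459) (W3 := 64424510) (N0 := 3) (En := eng) (mo := mog) (C1 := cd0q0) (C2 := cd0q2) (C3 := pd1)
    rfl k0_pp_012_t

noncomputable def cut_pp_022_s : Cut := Cut.of [[⟨4, 0, 0, 1449551462⟩], [⟨0, 0, 0, 67108864⟩, ⟨1, 1, 0, 67108864⟩, ⟨2, 1, 0, 67108864⟩]]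

noncomputable def f_pp_022_s : ℕ → ℕ → ℕ → ℕ → Bool := onCell 1073741824 536870912 0 536870912 858993459 64424510
    (rowNE 3 eng mog cd0q0 cd0q2 pd2 2 false true true .pp 0 2 2 (qsf 0 536870912 0 536870912 2) ndB0q0 ndB0q2 pcB2 cut_pp_022_s Ext.none)

def k0_pp_022_s : ∃ t, chk3 f_pp_022_s t 4 2 1 = true :=
  ⟨(b (l 6) (a (a (b (l 6) (b (l 6) (c (a (c (l 16511584) (l 16510424)) (l 16552440)) (a (c (l 16509256) (l 16508088)) (l 16544896))))) (l 6)) (l 6))), by decide +kernel⟩

def k1_pp_022_s : ∃ t, chk3 f_pp_022_s t 8 6 2 = true :=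
  ⟨(a (b (a (a (b (c (l 16542216) (l 16557888)) (c (b (l 16560696) (l 16559928)) (b (l 16553504) (l 16551384)))) (b (l 16555808) (c (l 16576864) (l 16573208)))) (b (a (l 16592560) (l 16607784)) (c (l 16537672) (l 16561200)))) (b (a (a (b (a (l 16549640) (l 16559888)) (a (b (l 16549024) (c (l 16555104) (l 16542256))) (b (l 16559680) (l 16559696)))) (b (l 16574976) (c (l 16579024) (l 16572128)))) (b (b (l 16540616) (l 16541584)) (c (a (l 16597392) (l 16614960)) (l 16543184)))) (a (a (a (b (b (b (c (a (l 16552624) (l 16557696)) (l 16541808)) (c (a (l 16555648) (l 16560368)) (l 16544632))) (c (l 16566496) (l 16553424))) (b (c (l 16577824) (l 16565272)) (c (l 16589144) (l 16577184)))) (b (b (b (c (l 16565192) (l 16554120)) (c (l 16567448) (l 16556264))) (l 16591312)) (b (l 16581800) (l 16593288)))) (b (b (c (a (b (l 16575032) (l 16576784)) (l 16585304)) (b (l 16572232) (l 16573696))) (c (l 16589296) (l 16581688))) (c (l 16598016) (l 16588480)))) (b (a (b (c (l 16599296) (l 16596064))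 (l 16605296)) (b (l 16596992) (l 16603448))) (c (c (l 16568552) (l 16568376)) (b (l 16583568) (l 16594608))))))) (a (b (b (a (l 16588600) (l 16566176)) (a (l 16612440) (l 16587640))) (b (b (l 16554640) (a (l 16634840) (l 16615472))) (b (c (b (l 16641720) (l 16624512)) (c (l 16597032) (l 16572800))) (c (l 16603368) (l 16575408))))) (b (c (b (l 16539320) (l 16515176)) (b (l 16523728) (l 16520760))) (b (a (b (l 16577056) (l 16524152)) (b (l 16549592) (c (l 16566864) (l 16549296)))) (b (a (b (l 16552896) (c (l 16605208) (l 16592072))) (c (b (l 16573704) (l 16577704)) (b (l 16555976) (l 16559712)))) (a (c (l 16604760) (l 16590840)) (c (l 16571992) (l 16547960)))))))), by decide +kernel⟩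

def k2_pp_022_s : ∃ t, chk3 f_pp_022_s t 8 6 3 = true :=
  ⟨(b (a (a (a (b (c (l 16552344) (l 16546552)) (c (l 16533792) (l 16514656))) (b (l 16553296) (c (l 16569448) (l 16565568)))) (b (a (l 16598584) (l 16602176)) (b (l 16545128) (l 16523096)))) (a (b (a (l 16573216) (l 16543432)) (a (l 16599536) (l 16545656))) (a (b (l 16512840) (l 16532880)) (b (l 16481496) (l 16498344))))) (b (a (a (a (b (c (l 16539280) (l 16528280)) (c (a (l 16529408) (l 16543728)) (l 16503656))) (b (l 16542368) (c (l 16564904) (l 16557344)))) (b (l 16532896) (c (l 16543112) (l 16543176)))) (a (a (l 16584888) (c (l 16574744) (l 16564176))) (a (b (l 16548224) (l 16558584)) (b (l 16511176) (l 16519792))))) (b (a (a (a (a (b (b (c (l 16527696) (l 16512832)) (c (l 16530464) (l 16515528))) (c (l 16539592) (l 16525008))) (b (b (l 16557344) (c (l 16544456) (l 16532040))) (l 16547328))) (b (c (b (l 16564192) (l 16565464)) (l 16535288)) (l 16561680))) (a (b (c (l 16592760) (l 16589384)) (l 16598800)) (b (l 16600176)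 (l 16606624)))) (a (a (l 16604008) (a (l 16617352) (l 16576936))) (a (a (l 16578224) (l 16558320)) (b (l 16526240) (a (l 16539800) (l 16519400)))))) (a (a (a (c (a (b (l 16551976) (l 16564504)) (l 16571704)) (b (l 16524984) (l 16543288))) (c (l 16591688) (l 16584048))) (c (c (l 16567984) (l 16567896)) (l 16567824))) (a (c (l 16567648) (l 16538136)) (c (a (l 16575592) (l 16516984)) (a (l 16559032) (l 16494816)))))))), by decide +kernel⟩

def k3_pp_022_s : ∃ t, chk3 f_pp_022_s t 8 7 1 = true :=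
  ⟨(b (b (b (a (a (a (c (c (a (b (l 16600576) (l 16612160)) (l 16615192)) (a (b (l 16589264) (l 16601568)) (l 16606312))) (c (a (b (l 16577280) (l 16590352)) (l 16596920)) (a (b (l 16564632) (l 16578504)) (l 16587008)))) (c (c (l 16622856) (l 16622376)) (c (l 16616360) (l 16610040)))) (c (a (c (l 16644656) (l 16643248)) (l 16640960)) (a (l 16591328) (l 16647544)))) (a (a (c (l 16634048) (l 16599600)) (c (b (l 16584200) (l 16583120)) (c (l 16608616) (l 16596032)))) (a (c (c (l 16603216) (l 16587936)) (c (l 16571304) (l 16553312))) (c (a (b (l 16573776) (l 16572344)) (b (l 16558576) (a (l 16560888) (l 16553224)))) (a (c (l 16542856) (l 16520672)) (b (l 16523376) (a (l 16515024) (l 16504672)))))))) (b (a (b (b (a (a (c (a (l 16614472) (l 16624128)) (a (l 16603536) (l 16607080))) (c (l 16638312) (l 16627952))) (c (a (l 16656624) (l 16674224)) (l 16606024))) (l 14)) (l 14)) (a (b (c (c (l 16580632) (l 16571368)) (c (l 16561232) (l 16550240))) (l 14)) (a (c (a (l 16601216) (l 16578168))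 (c (l 16546416) (l 16548136))) (a (b (c (l 16571168) (l 16528072)) (l 14)) (c (c (l 16566432) (l 16543872)) (c (l 16519448) (l 16493176))))))) (a (l 14) (a (l 14) (a (l 14) (a (l 14) (a (l 14) (l 1)))))))) (a (l 14) (a (l 14) (a (l 14) (a (l 14) (l 1)))))) (a (l 14) (a (l 14) (l 1)))), by decide +kernel⟩

def k4_pp_022_s : ∃ t, chk3 f_pp_022_s t 9 12 1 = true :=
  ⟨(b (l 6) (a (a (c (c (l 16509592) (l 16485568)) (a (l 16463104) (l 16387928))) (a (a (c (l 16465064) (l 16400008)) (l 6)) (l 6))) (l 6))), by decide +kernel⟩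

def k5_pp_022_s : ∃ t, chk3 f_pp_022_s t 9 26 1 = true :=
  ⟨(b (a (a (a (c (l 16521816) (l 16473440)) (c (l 16483288) (l 16414136))) (c (a (c (l 16481064) (l 16449272)) (c (l 16455128) (l 16418288))) (a (c (l 16414640) (l 16377168)) (c (l 16372984) (l 163241459895))))) (b (l 6) (b (l 6) (l 1)))) (a (a (c (c (a (l 16540120) (l 16513192)) (a (l 16517752) (l 16485864))) (c (a (l 16493320) (l 16456096)) (a (l 16466832) (l 16423888)))) (a (a (c (c (l 16492904) (l 16461768)) (a (l 16415024) (l 16425840))) (c (c (l 16479336) (l 16445624)) (c (l 16408992) (l 16369424)))) (a (c (c (l 324302946935) (l 300143674423)) (c (l 288332459895) (l 278668740535))) (a (c (l 267931426919) (l 232497830951)) (l 1))))) (l 1))), by decide +kernel⟩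

def k6_pp_022_s : ∃ t, chk3 f_pp_022_s t 9 27 1 = true :=
  ⟨(a (b (a (c (a (a (c (l 16554960) (l 16554368)) (b (l 16527376) (a (l 16534776) (l 16527096)))) (c (b (l 16518152) (a (l 16528648) (b (l 16513672) (l 16515168)))) (b (a (l 16498648) (l 16482088)) (a (l 16501768) (b (l 16484272) (l 16490776)))))) (a (c (b (l 16498608) (a (l 16511392) (l 16492040))) (b (l 16471816) (l 16453568))) (b (c (l 16460152) (l 16427488)) (c (a (l 16472528) (b (l 16452328) (l 16453344))) (a (l 16440928) (b (l 16417824) (l 16418584))))))) (a (a (c (c (b (l 16497144) (l 243235522215)) (b (l 16465464) (b (l 16467376) (l 182032180087)))) (b (c (l 16431048) (l 16393888)) (c (l 219613078663) (l 219076163719)))) (b (c (c (l 16483096) (l 16448776)) (c (l 16411520) (l 16371328))) (l 1))) (l 1))) (a (a (a (c (b (l 16545944) (l 16555096)) (b (l 16497512) (l 16515944))) (b (c (l 16535896) (l 16476768)) (c (a (l 16533024) (l 16530520)) (a (l 16479360) (l 16468896))))) (a (c (b (c (l 16528664) (l 16501304))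 (c (l 16527280) (l 16499384))) (b (c (l 16471584) (l 16439512)) (c (l 16469136) (l 16436528)))) (b (c (c (l 16514504) (l 16484520)) (c (l 16451984) (l 16416904))) (l 1)))) (l 1))) (l 1)), by decide +kernel⟩

def k7_pp_022_s : ∃ t, chk3 f_pp_022_s t 9 7 1 = true :=
  ⟨(a (b (b (a (a (a (a (b (c (b (l 16547048) (l 153041305255)) (b (l 16497368) (l 172905440887))) (b (c (l 52646440055) (l 61236284135)) (l 1))) (b (c (b (l 16539256) (l 104722906599)) (b (l 16486944) (l 112239007223))) (l 1))) (b (a (c (b (l 151967535255) (l 47814573335)) (b (l 164852343271) (l 66068088599))) (b (c (l 95596072535) (l 104722780279)) (l 1))) (l 1))) (a (a (a (b (b (c (l 16517744) (l 16458072)) (l 1)) (l 1)) (l 1)) (l 1)) (l 1))) (l 1)) (l 1)) (l 1)) (l 1)), by decide +kernel⟩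

def k8_pp_022_s : ∃ t, chk3 f_pp_022_s t 5 1 1 = true :=
  ⟨(b (l 6) (b (l 1) (l 1))), by decide +kernel⟩

def k9_pp_022_s : ∃ t, chk3 f_pp_022_s t 3 1 1 = true :=
  ⟨(l 1), by decide +kernel⟩

theorem s10_pp_022_s : ∃ t, chk3 f_pp_022_s t 9 13 1 = true := ex3_b k5_pp_022_s k6_pp_022_s

theorem s11_pp_022_s : ∃ t, chk3 f_pp_022_s t 9 6 1 = true := ex3_b k4_pp_022_s s10_pp_022_s

theorem s12_pp_022_s : ∃ t, chk3 f_pp_022_s t 9 3 1 = true := ex3_b s11_pp_022_s k7_pp_022_s

theorem s13_pp_022_s : ∃ t, chk3 f_pp_022_s t 8 6 1 = true := ex3_c k1_pp_022_s k2_pp_022_s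

theorem s14_pp_022_s : ∃ t, chk3 f_pp_022_s t 8 3 1 = true := ex3_b s13_pp_022_s k3_pp_022_s

theorem s15_pp_022_s : ∃ t, chk3 f_pp_022_s t 4 3 1 = true := ex3_a s14_pp_022_s s12_pp_022_s

theorem s16_pp_022_s : ∃ t, chk3 f_pp_022_s t 4 1 1 = true := ex3_b k0_pp_022_s s15_pp_022_s

theorem s17_pp_022_s : ∃ t, chk3 f_pp_022_s t 2 1 1 = true := ex3_a s16_pp_022_s k8_pp_022_s

theorem s18_pp_022_s : ∃ t, chk3 f_pp_022_s t 1 1 1 = true := ex3_a s17_pp_022_s k9_pp_022_s

theorem c_pp_022_s : CertNE 0 536870912 0 536870912 858993459 64424510 3 eng mog cd0q0 cd0q2 pd2 false true true .pp 0 2 2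
    ndB0q0 ndB0q2 pcB2 cut_pp_022_s Ext.none :=
  certNE2 (fam := false) (s1 := true) (s2 := true) (a := 0) (b := 2) (c := 2) (cn := .pp) (n1 := ndB0q0) (n2 := ndB0q2) (pc := pcB2) (cut := cut_pp_022_s) (xt := Ext.none) (P1 := 0) (W1 := 536870912) (P2 := 0) (W2 := 536870912) (P3 := 858993459) (W3 := 64424510) (N0 := 3) (En := eng) (mo := mog) (C1 := cd0q0) (C2 := cd0q2) (C3 := pd2)
    rfl (fun _ => rfl) s18_pp_022_s

noncomputable def cut_pp_022_t : Cut := Cut.of [[⟨3, 0, 0, 2845415833⟩], [⟨0, 0, 0, 67108864⟩, ⟨1, 1, 0, 67108864⟩, ⟨2, 1, 0, 67108864⟩]]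

noncomputable def f_pp_022_t : ℕ → ℕ → ℕ → ℕ → Bool := onCell 0 536870912 0 536870912 858993459 64424510
    (rowNE 3 eng mog cd0q0 cd0q2 pd2 0 false true true .pp 0 2 2 (qsf 0 536870912 0 536870912 2) ndB0q0 ndB0q2 pcB2 cut_pp_022_t Ext.none)

def k0_pp_022_t : ∃ t, chk3 f_pp_022_t t 1 1 1 = true :=
  ⟨(l 6), by decide +kernel⟩

theorem c_pp_022_t : CertNE 0 536870912 0 536870912 858993459 64424510 3 eng mog cd0q0 cd0q2 pd2 false true true .pp 0 2 2
    ndB0q0 ndB0q2 pcB2 cut_pp_022_t Ext.none :=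
  certNE0 (fam := false) (s1 := true) (s2 := true) (a := 0) (b := 2) (c := 2) (cn := .pp) (n1 := ndB0q0) (n2 := ndB0q2) (pc := pcB2) (cut := cut_pp_022_t) (xt := Ext.none) (P1 := 0) (W1 := 536870912) (P2 := 0) (W2 := 536870912) (P3 := 858993459) (W3 := 64424510) (N0 := 3) (En := eng) (mo := mog) (C1 := cd0q0) (C2 := cd0q2) (C3 := pd2)
    rfl k0_pp_022_t

noncomputable def cut_pp_101_s : Cut := Cut.of [[⟨4, 0, 0, 1449551462⟩]]

noncomputable def f_pp_101_s : ℕ → ℕ → ℕ → ℕ → Bool := onCell 536870912 536870912 536870912 536870912 858993459 64424510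
    (rowNE 3 eng mog cd0q1 cd0q1 pd0 0 false true true .npn 1 0 1 (qsf 536870912 536870912 536870912 536870912 0) ndB0q1 ndB0q1 pcB0 cut_pp_101_s Ext.none)

def k0_pp_101_s : ∃ t, chk3 f_pp_101_s t 1 1 1 = true :=
  ⟨(l 3), by decide +kernel⟩

theorem c_pp_101_s : CertNE 536870912 536870912 536870912 536870912 858993459 64424510 3 eng mog cd0q1 cd0q1 pd0 false true true .npn 1 0 1
    ndB0q1 ndB0q1 pcB0 cut_pp_101_s Ext.none :=
  certNE0 (fam := false) (s1 := true) (s2 := true) (a := 1) (b := 0) (c := 1) (cn := .npn) (n1 := ndB0q1) (n2 := ndB0q1) (pc := pcB0) (cut := cut_pp_101_s) (xt := Ext.none) (P1 := 536870912) (W1 := 536870912) (P2 := 536870912) (W2 := 536870912) (P3 := 858993459) (W3 := 64424510) (N0 := 3) (En := eng) (mo := mog) (C1 := cd0q1) (C2 := cd0q1) (C3 := pd0)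
    rfl k0_pp_101_s

noncomputable def cut_pp_101_t : Cut := Cut.of [[⟨3, 0, 0, 2845415833⟩]]

noncomputable def f_pp_101_t : ℕ → ℕ → ℕ → ℕ → Bool := onCell 536870912 536870912 536870912 536870912 858993459 64424510
    (rowNE 3 eng mog cd0q1 cd0q1 pd0 0 false true true .npn 1 0 1 (qsf 536870912 536870912 536870912 536870912 0) ndB0q1 ndB0q1 pcB0 cut_pp_101_t Ext.none)

def k0_pp_101_t : ∃ t, chk3 f_pp_101_t t 1 1 1 = true :=
  ⟨(l 3), by decide +kernel⟩

theorem c_pp_101_t : CertNE 536870912 536870912 536870912 536870912 858993459 64424510 3 eng mog cd0q1 cd0q1 pd0 false true true .npn 1 0 1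
    ndB0q1 ndB0q1 pcB0 cut_pp_101_t Ext.none :=
  certNE0 (fam := false) (s1 := true) (s2 := true) (a := 1) (b := 0) (c := 1) (cn := .npn) (n1 := ndB0q1) (n2 := ndB0q1) (pc := pcB0) (cut := cut_pp_101_t) (xt := Ext.none) (P1 := 536870912) (W1 := 536870912) (P2 := 536870912) (W2 := 536870912) (P3 := 858993459) (W3 := 64424510) (N0 := 3) (En := eng) (mo := mog) (C1 := cd0q1) (C2 := cd0q1) (C3 := pd0)
    rfl k0_pp_101_t

noncomputable def cut_pp_102_s : Cut := Cut.of [[⟨4, 0, 0, 1449551462⟩]]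

noncomputable def f_pp_102_s : ℕ → ℕ → ℕ → ℕ → Bool := onCell 0 536870912 0 536870912 858993459 64424510
    (rowNE 3 eng mog cd0q1 cd0q2 pd0 2 false true true .npp 1 0 2 (qsf 536870912 536870912 0 536870912 0) ndB0q1 ndB0q2 pcB0 cut_pp_102_s Ext.none)

def k0_pp_102_s : ∃ t, chk3 f_pp_102_s t 1 1 1 = true :=
  ⟨(a (b (l 3) (l 3)) (l 3)), by decide +kernel⟩

theorem c_pp_102_s : CertNE 536870912 536870912 0 536870912 858993459 64424510 3 eng mog cd0q1 cd0q2 pd0 false true true .npp 1 0 2
    ndB0q1 ndB0q2 pcB0 cut_pp_102_s Ext.none :=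
  certNE2 (fam := false) (s1 := true) (s2 := true) (a := 1) (b := 0) (c := 2) (cn := .npp) (n1 := ndB0q1) (n2 := ndB0q2) (pc := pcB0) (cut := cut_pp_102_s) (xt := Ext.none) (P1 := 536870912) (W1 := 536870912) (P2 := 0) (W2 := 536870912) (P3 := 858993459) (W3 := 64424510) (N0 := 3) (En := eng) (mo := mog) (C1 := cd0q1) (C2 := cd0q2) (C3 := pd0)
    rfl (fun _ => rfl) k0_pp_102_s

noncomputable def cut_pp_102_t : Cut := Cut.of [[⟨3, 0, 0, 2845415833⟩]]

noncomputable def f_pp_102_t : ℕ → ℕ → ℕ → ℕ → Bool := onCell 536870912 536870912 0 536870912 858993459 64424510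
    (rowNE 3 eng mog cd0q1 cd0q2 pd0 0 false true true .npp 1 0 2 (qsf 536870912 536870912 0 536870912 0) ndB0q1 ndB0q2 pcB0 cut_pp_102_t Ext.none)

def k0_pp_102_t : ∃ t, chk3 f_pp_102_t t 1 1 1 = true :=
  ⟨(l 6), by decide +kernel⟩

theorem c_pp_102_t : CertNE 536870912 536870912 0 536870912 858993459 64424510 3 eng mog cd0q1 cd0q2 pd0 false true true .npp 1 0 2
    ndB0q1 ndB0q2 pcB0 cut_pp_102_t Ext.none :=
  certNE0 (fam := false) (s1 := true) (s2 := true) (a := 1) (b := 0) (c := 2) (cn := .npp) (n1 := ndB0q1) (n2 := ndB0q2) (pc := pcB0) (cut := cut_pp_102_t) (xt := Ext.none) (P1 := 536870912) (W1 := 536870912) (P2 := 0) (W2 := 536870912) (P3 := 858993459) (W3 := 64424510) (N0 := 3) (En := eng) (mo := mog) (C1 := cd0q1) (C2 := cd0q2) (C3 := pd0)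
    rfl k0_pp_102_t

noncomputable def cut_pp_112_s : Cut := Cut.of [[⟨4, 0, 0, 1449551462⟩]]

noncomputable def f_pp_112_s : ℕ → ℕ → ℕ → ℕ → Bool := onCell 536870912 536870912 0 536870912 858993459 64424510
    (rowNE 3 eng mog cd0q1 cd0q2 pd1 0 false true true .dn 1 1 2 (qsf 536870912 536870912 0 536870912 1) ndB0q1 ndB0q2 pcB1 cut_pp_112_s Ext.none)

def k0_pp_112_s : ∃ t, chk3 f_pp_112_s t 8 4 1 = true :=
  ⟨(b (a (c (c (b (a (c (a (l 16725576) (b (l 16682496) (l 16707856))) (l 16750608)) (c (b (a (l 16694168) (l 16706168)) (l 16736640)) (l 16748392))) (a (c (b (l 16738096) (l 16753872)) (b (l 16738392) (l 16758912))) (b (a (l 16749736) (l 16761224)) (a (b (l 16767624) (l 103247011175)) (l 114521312903))))) (b (a (c (l 16728184) (l 16742272)) (c (l 16741824) (l 16752000))) (b (a (l 16754536) (a (l 16763272) (l 16769160))) (a (a (l 16763560) (l 16769464)) (a (l 87140895719) (l 112910704007)))))) (b (a (c (l 16732504) (c (l 16711376) (l 16692472))) (c (c (l 16748608) (l 16740824))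 (c (l 16729440) (l 16715160)))) (a (c (b (l 16752304) (l 71571535991)) (c (l 16750384) (l 16742688))) (b (c (l 16744216) (l 38822404759)) (a (b (l 16770392) (l 16796184)) (l 123648139127)))))) (b (c (a (c (c (b (l 16745768) (l 16751752)) (b (l 16736616) (l 16757456))) (c (l 16755896) (l 16762056))) (b (c (c (l 16750928) (l 16756896)) (a (l 16762784) (l 16768696))) (a (c (b (l 16766320) (l 16786352)) (l 87677668647)) (c (l 112910700295) (l 112910702567))))) (a (c (b (l 16751488) (l 16743888)) (c (l 16748376) (l 16739400))) (b (c (l 16743648) (a (l 16749184) (l 16760664))) (a (b (l 16769472) (l 16796600)) (l 123111266919))))) (a (b (c (a (c (b (l 16766896) (l 16786624)) (l 110763118295)) (c (l 113447571063) (l 112910703287))) (a (b (l 16769872) (l 16796464)) (l 123111267223))) (l 3)) (l 3)))) (a (b (a (b (a (c (c (a (l 66739709047) (l 92509594007)) (l 87140896439)) (b (l 16771032) (l 16795728))) (c (c (l 115595055063) (l 113447575799)) (l 124185010375))) (l 3)) (l 3)) (l 3)) (l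 3))), by decide +kernel⟩

def k1_pp_112_s : ∃ t, chk3 f_pp_112_s t 9 4 1 = true :=
  ⟨(b (a (b (a (b (c (a (c (b (l 16765904) (l 16786136)) (l 87140797463)) (c (l 112910700775) (l 113984443639))) (a (b (l 16769208) (l 16796656)) (l 123111265895))) (l 3)) (l 3)) (l 3)) (l 3)) (l 3)), by decide +kernel⟩

def k2_pp_112_s : ∃ t, chk3 f_pp_112_s t 5 4 1 = true :=
  ⟨(l 3), by decide +kernel⟩

def k3_pp_112_s : ∃ t, chk3 f_pp_112_s t 2 5 1 = true :=
  ⟨(l 3), by decide +kernel⟩

def k4_pp_112_s : ∃ t, chk3 f_pp_112_s t 2 3 1 = true :=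
  ⟨(l 3), by decide +kernel⟩

def k5_pp_112_s : ∃ t, chk3 f_pp_112_s t 3 1 1 = true :=
  ⟨(l 1), by decide +kernel⟩

theorem s6_pp_112_s : ∃ t, chk3 f_pp_112_s t 4 4 1 = true := ex3_a k0_pp_112_s k1_pp_112_s

theorem s7_pp_112_s : ∃ t, chk3 f_pp_112_s t 2 4 1 = true := ex3_a s6_pp_112_s k2_pp_112_s

theorem s8_pp_112_s : ∃ t, chk3 f_pp_112_s t 2 2 1 = true := ex3_b s7_pp_112_s k3_pp_112_s

theorem s9_pp_112_s : ∃ t, chk3 f_pp_112_s t 2 1 1 = true := ex3_b s8_pp_112_s k4_pp_112_s

theorem s10_pp_112_s : ∃ t, chk3 f_pp_112_s t 1 1 1 = true := ex3_a s9_pp_112_s k5_pp_112_s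

theorem c_pp_112_s : CertNE 536870912 536870912 0 536870912 858993459 64424510 3 eng mog cd0q1 cd0q2 pd1 false true true .dn 1 1 2
    ndB0q1 ndB0q2 pcB1 cut_pp_112_s Ext.none :=
  certNE0 (fam := false) (s1 := true) (s2 := true) (a := 1) (b := 1) (c := 2) (cn := .dn) (n1 := ndB0q1) (n2 := ndB0q2) (pc := pcB1) (cut := cut_pp_112_s) (xt := Ext.none) (P1 := 536870912) (W1 := 536870912) (P2 := 0) (W2 := 536870912) (P3 := 858993459) (W3 := 64424510) (N0 := 3) (En := eng) (mo := mog) (C1 := cd0q1) (C2 := cd0q2) (C3 := pd1)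
    rfl s10_pp_112_s

noncomputable def cut_pp_112_t : Cut := Cut.of [[⟨3, 0, 0, 2845415833⟩]]

noncomputable def f_pp_112_t : ℕ → ℕ → ℕ → ℕ → Bool := onCell 536870912 536870912 0 536870912 858993459 64424510
    (rowNE 3 eng mog cd0q1 cd0q2 pd1 0 false true true .dn 1 1 2 (qsf 536870912 536870912 0 536870912 1) ndB0q1 ndB0q2 pcB1 cut_pp_112_t Ext.none)

def k0_pp_112_t : ∃ t, chk3 f_pp_112_t t 1 1 1 = true :=
  ⟨(l 6), by decide +kernel⟩

theorem c_pp_112_t : CertNE 536870912 536870912 0 536870912 858993459 64424510 3 eng mog cd0q1 cd0q2 pd1 false true true .dn 1 1 2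
    ndB0q1 ndB0q2 pcB1 cut_pp_112_t Ext.none :=
  certNE0 (fam := false) (s1 := true) (s2 := true) (a := 1) (b := 1) (c := 2) (cn := .dn) (n1 := ndB0q1) (n2 := ndB0q2) (pc := pcB1) (cut := cut_pp_112_t) (xt := Ext.none) (P1 := 536870912) (W1 := 536870912) (P2 := 0) (W2 := 536870912) (P3 := 858993459) (W3 := 64424510) (N0 := 3) (En := eng) (mo := mog) (C1 := cd0q1) (C2 := cd0q2) (C3 := pd1)
    rfl k0_pp_112_t

noncomputable def cut_pp_202_s : Cut := Cut.of [[⟨4, 0, 0, 1449551462⟩]]

noncomputable def f_pp_202_s : ℕ → ℕ → ℕ → ℕ → Bool := onCell 0 536870912 0 536870912 858993459 64424510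
    (rowNE 3 eng mog cd0q2 cd0q2 pd0 0 false true true .pp 2 0 2 (qsf 0 536870912 0 536870912 0) ndB0q2 ndB0q2 pcB0 cut_pp_202_s Ext.none)

def k0_pp_202_s : ∃ t, chk3 f_pp_202_s t 1 1 1 = true :=
  ⟨(l 3), by decide +kernel⟩

theorem c_pp_202_s : CertNE 0 536870912 0 536870912 858993459 64424510 3 eng mog cd0q2 cd0q2 pd0 false true true .pp 2 0 2
    ndB0q2 ndB0q2 pcB0 cut_pp_202_s Ext.none :=
  certNE0 (fam := false) (s1 := true) (s2 := true) (a := 2) (b := 0) (c := 2) (cn := .pp) (n1 := ndB0q2) (n2 := ndB0q2) (pc := pcB0) (cut := cut_pp_202_s) (xt := Ext.none) (P1 := 0) (W1 := 536870912) (P2 := 0) (W2 := 536870912) (P3 := 858993459) (W3 := 64424510) (N0 := 3) (En := eng) (mo := mog) (C1 := cd0q2) (C2 := cd0q2) (C3 := pd0)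
    rfl k0_pp_202_s

noncomputable def cut_pp_202_t : Cut := Cut.of [[⟨3, 0, 0, 2845415833⟩]]

noncomputable def f_pp_202_t : ℕ → ℕ → ℕ → ℕ → Bool := onCell 0 536870912 0 536870912 858993459 64424510
    (rowNE 3 eng mog cd0q2 cd0q2 pd0 0 false true true .pp 2 0 2 (qsf 0 536870912 0 536870912 0) ndB0q2 ndB0q2 pcB0 cut_pp_202_t Ext.none)

def k0_pp_202_t : ∃ t, chk3 f_pp_202_t t 1 1 1 = true :=
  ⟨(l 3), by decide +kernel⟩

theorem c_pp_202_t : CertNE 0 536870912 0 536870912 858993459 64424510 3 eng mog cd0q2 cd0q2 pd0 false true true .pp 2 0 2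
    ndB0q2 ndB0q2 pcB0 cut_pp_202_t Ext.none :=
  certNE0 (fam := false) (s1 := true) (s2 := true) (a := 2) (b := 0) (c := 2) (cn := .pp) (n1 := ndB0q2) (n2 := ndB0q2) (pc := pcB0) (cut := cut_pp_202_t) (xt := Ext.none) (P1 := 0) (W1 := 536870912) (P2 := 0) (W2 := 536870912) (P3 := 858993459) (W3 := 64424510) (N0 := 3) (En := eng) (mo := mog) (C1 := cd0q2) (C2 := cd0q2) (C3 := pd0)
    rfl k0_pp_202_t

noncomputable def cut_pm_001_s : Cut := Cut.of [[⟨4, 0, 0, 1449551462⟩]]

noncomputable def f_pm_001_s : ℕ → ℕ → ℕ → ℕ → Bool := onCell 0 536870912 536870912 536870912 858993459 64424510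
    (rowNE 3 eng mog cd0q0 cd0q1 pd0 0 false true false .up 0 0 1 (qsf 0 536870912 536870912 536870912 0) ndB0q0 ndB0q1 pcB0 cut_pm_001_s Ext.none)

def k0_pm_001_s : ∃ t, chk3 f_pm_001_s t 1 1 1 = true :=
  ⟨(l 6), by decide +kernel⟩

theorem c_pm_001_s : CertNE 0 536870912 536870912 536870912 858993459 64424510 3 eng mog cd0q0 cd0q1 pd0 false true false .up 0 0 1
    ndB0q0 ndB0q1 pcB0 cut_pm_001_s Ext.none :=
  certNE0 (fam := false) (s1 := true) (s2 := false) (a := 0) (b := 0) (c := 1) (cn := .up) (n1 := ndB0q0) (n2 := ndB0q1) (pc := pcB0) (cut := cut_pm_001_s) (xt := Ext.none) (P1 := 0) (W1 := 536870912) (P2 := 536870912) (W2 := 536870912) (P3 := 858993459) (W3 := 64424510) (N0 := 3) (En := eng) (mo := mog) (C1 := cd0q0) (C2 := cd0q1) (C3 := pd0)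
    rfl k0_pm_001_s

noncomputable def cut_pm_001_t : Cut := Cut.of [[⟨3, 0, 0, 2845415833⟩]]

noncomputable def f_pm_001_t : ℕ → ℕ → ℕ → ℕ → Bool := onCell 0 536870912 536870912 536870912 858993459 64424510
    (rowNE 3 eng mog cd0q0 cd0q1 pd0 0 false true false .up 0 0 1 (qsf 0 536870912 536870912 536870912 0) ndB0q0 ndB0q1 pcB0 cut_pm_001_t Ext.none)

def k0_pm_001_t : ∃ t, chk3 f_pm_001_t t 2 1 1 = true :=
  ⟨(b (l 4) (b (b (l 4) (l 2)) (l 2))), by decide +kernel⟩

def k1_pm_001_t : ∃ t, chk3 f_pm_001_t t 3 4 1 = true :=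
  ⟨(l 4), by decide +kernel⟩

def k2_pm_001_t : ∃ t, chk3 f_pm_001_t t 6 5 1 = true :=
  ⟨(l 4), by decide +kernel⟩

def k3_pm_001_t : ∃ t, chk3 f_pm_001_t t 7 10 1 = true :=
  ⟨(a (l 4) (b (a (l 4) (b (l 4) (a (l 4) (b (l 4) (a (l 4) (c (c (l 111903984583) (l 111367110183)) (l 110293359863))))))) (a (b (l 4) (a (l 4) (b (a (l 4) (c (l 205856416695) (l 108682730311))) (c (a (b (l 4) (l 108145879047)) (c (l 16754856) (l 16754896))) (a (l 108145859799) (l 16754992)))))) (b (a (a (l 4) (b (l 4) (c (c (l 112977728103) (l 16754328)) (l 111367109463)))) (c (b (a (c (l 112440856295) (l 111903982983)) (l 16769936)) (a (l 16768664) (l 16779792))) (b (a (l 110830234359) (l 16768496)) (l 16766808)))) (a (b (c (a (c (l 16755240) (l 16755360)) (l 16767144)) (a (l 16752880) (l 16766160))) (c (a (l 16765392) (l 16754984)) (l 16759120))) (c (c (l 16757776) (l 16753160)) (a (l 16748232) (l 16726160)))))))), by decide +kernel⟩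

def k4_pm_001_t : ∃ t, chk3 f_pm_001_t t 14 11 1 = true :=
  ⟨(b (a (l 4) (b (l 4) (a (l 4) (a (b (l 4) (c (c (l 112977708727) (l 112977711319)) (l 112977711367))) (c (b (c (l 111903962503) (l 111903965671)) (l 16768400)) (b (l 111367094071) (l 16769000))))))) (a (b (a (l 4) (b (l 4) (a (l 4) (c (l 212835736583) (l 108145845975))))) (a (b (l 4) (a (l 4) (c (c (l 110830211655) (l 110293342791)) (l 109756475559)))) (c (b (a (b (l 4) (l 109756488215)) (b (l 16755896) (l 16769424))) (a (l 16758656) (l 16758288))) (b (a (l 108682722327) (l 16752256)) (a (l 16770464) (l 16758816)))))) (b (a (c (b (a (l 221425665959) (c (l 82912942311) (l 82376073767))) (a (c (l 16749512) (l 16754824)) (l 16763376))) (b (a (l 211225118567) (l 81302330071)) (a (l 79691723927) (l 16764432)))) (c (b (a (l 16765968) (l 16753912)) (a (l 16751192) (l 16739216))) (b (a (l 16766840) (l 16755648)) (a (l 16753224) (l 16742160))))) (a (c (b (a (l 16760776) (l 16748488)) (a (l 16746008) (l 16733680))) (b (a (l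 16761752) (l 16750456)) (a (l 16747376) (l 16736176)))) (c (b (a (l 16736368) (l 16724456)) (l 16736616)) (b (l 16712880) (l 16719752))))))), by decide +kernel⟩

def k5_pm_001_t : ∃ t, chk3 f_pm_001_t t 15 11 1 = true :=
  ⟨(b (a (b (b (a (a (l 4) (c (c (l 109219602855) (l 109219605175)) (l 109219603559))) (c (a (c (l 16753504) (l 16753520)) (l 16763384)) (a (l 16753584) (l 16763328)))) (a (c (a (c (l 110293347255) (l 110293349367)) (b (l 16760264) (l 16769280))) (a (l 110293348583) (l 16772872))) (c (a (l 16761208) (l 16750144)) (l 16756048)))) (a (c (b (c (l 10972266135) (l 16761256)) (a (l 16756496) (l 16744888))) (b (a (l 16770976) (l 16759744)) (l 16752056))) (c (b (a (l 16747552) (l 16736584)) (a (l 16733592) (l 16722720))) (c (b (l 16742696) (l 16729336)) (l 16716024))))) (a (b (b (c (a (l 16752664) (l 16742368)) (a (l 16752032) (l 16740712))) (c (c (l 16734776) (l 16734088)) (l 16733688))) (c (b (l 16741960) (l 16707272)) (b (l 16720856) (l 16707896)))) (b (c (c (l 16743576)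 (l 16741256)) (b (l 16723672) (l 16711192))) (c (c (l 16696160) (l 16694112)) (c (l 16692688) (l 16691872)))))) (c (b (a (a (b (a (l 16742104) (l 16730568)) (c (l 16721056) (l 16722432))) (c (l 16727152) (l 16707280))) (a (c (l 16686008) (l 16686304)) (c (l 16689200) (l 16666808)))) (a (a (c (l 16698672) (l 16700752)) (c (l 16676656) (l 16678648))) (a (c (l 16656728) (l 16657872)) (c (l 16639304) (l 16638656))))) (b (a (a (b (l 16717896) (l 16725632)) (b (l 16716680) (l 16703328))) (a (c (l 16687360) (l 16689112)) (l 16703712))) (a (a (c (l 16703968) (l 16706056)) (c (l 16681416) (l 16685368))) (a (l 16692872) (l 16639848)))))), by decide +kernel⟩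

def k6_pm_001_t : ∃ t, chk3 f_pm_001_t t 12 6 1 = true :=
  ⟨(b (b (l 4) (a (l 4) (b (l 4) (a (l 4) (b (l 4) (b (a (l 4) (a (l 4) (c (c (l 93113502855) (l 16773584)) (l 16752272)))) (a (l 2) (c (c (l 83986700359) (l 16774960)) (l 80765472583))))))))) (b (b (b (a (l 2) (a (l 2) (a (l 2) (c (c (l 16763504) (l 16764224)) (l 16752176))))) (l 2)) (l 2)) (l 2))), by decide +kernel⟩

def k7_pm_001_t : ∃ t, chk3 f_pm_001_t t 13 24 1 = true :=
  ⟨(a (l 4) (b (a (l 4) (b (l 4) (c (a (l 215520087511) (c (l 82912940903) (l 16745088))) (a (l 209077634695) (c (l 16744832) (l 16754976)))))) (a (b (a (l 4) (a (l 4) (b (l 4) (c (l 16775448) (l 16775344))))) (c (a (c (b (l 109219598183) (l 85597305079)) (l 109756464695)) (b (l 71101804791) (l 16766496))) (c (a (l 109219593271) (l 16769752)) (a (l 109756465031) (l 16769200))))) (c (b (a (b (l 83449822871) (l 16769728)) (l 16761672)) (a (c (l 16758552) (l 16758360)) (l 16746824))) (b (a (b (l 16755800) (l 16769192)) (l 16760768)) (a (l 16757096)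 (l 16744760))))))), by decide +kernel⟩

def k8_pm_001_t : ∃ t, chk3 f_pm_001_t t 13 25 1 = true :=
  ⟨(a (b (a (b (l 4) (a (l 4) (b (l 4) (c (c (c (l 101166543111) (l 103850897863)) (l 105461509271)) (l 105461506647))))) (c (c (b (a (l 230015596935) (b (l 104924642103) (l 16758968))) (a (c (l 83449813831) (l 82376071543)) (l 16763720))) (b (a (l 226257498599) (l 84523542663)) (a (l 82376069463) (l 16763352)))) (b (a (l 223036270343) (c (l 83986671639) (l 82912929703))) (a (c (l 80765456071) (l 16753088)) (l 16762024))))) (a (c (c (b (a (b (l 229478735223) (c (l 90429137863) (l 88818525351))) (b (l 82376088039) (l 16767640))) (a (l 16765248) (l 16756560))) (b (a (b (l 105998364119) (l 16753968)) (l 16771264)) (a (l 16767696) (l 16756616)))) (b (a (c (b (l 105998363767) (l 16743368)) (l 107072097591)) (b (l 16753608) (l 16766536))) (a (c (l 16767016) (l 16766048)) (l 16754304)))) (c (c (b (a (l 16760256) (l 16749160)) (a (l 16745624) (l 16734688))) (b (l 16754184) (l 16739568)))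 (b (a (l 16758152) (l 16745616)) (c (l 16737112) (l 16733648)))))) (c (b (a (b (c (a (l 16766976) (l 16755440)) (l 16760856)) (c (a (l 16752360) (l 16740880)) (l 16745872))) (c (b (c (l 16737888) (l 16737952)) (l 16723488)) (b (l 16737440) (l 16722520)))) (a (c (b (a (l 16738008) (l 16726560)) (l 16718216)) (b (l 16731040) (l 16716416))) (c (b (l 16709240) (l 16695240)) (b (l 16707720) (l 16693072))))) (b (a (b (a (l 16765832) (l 16753288)) (a (l 16749440) (l 16736888))) (b (a (l 16740840) (l 16728544)) (c (l 16719984) (l 16695192)))) (a (c (b (l 16728408) (l 16712728)) (a (l 16722552) (l 16667608))) (c (l 16706664) (a (l 16654776) (l 16663112))))))), by decide +kernel⟩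

def k9_pm_001_t : ∃ t, chk3 f_pm_001_t t 13 13 1 = true :=
  ⟨(b (a (b (c (a (c (b (a (l 16752544) (l 16741728)) (a (l 16737336) (l 16726736))) (b (a (l 16753392) (l 16742312)) (a (l 16739520) (l 16728408)))) (c (b (l 16725656) (l 16711024)) (b (l 16725248) (l 16711280)))) (a (b (a (l 16750584) (l 16738264)) (c (l 16730792) (l 16726288))) (c (b (l 16721712) (l 16706624)) (b (l 16716736) (l 16658128))))) (b (a (c (c (l 84389299207) (l 101032282471)) (c (l 16716328) (l 16710264))) (c (c (l 16696216) (l 16697736)) (c (l 16691944) (l 16641816)))) (a (l 2) (c (c (l 16681128) (l 16684688)) (c (l 16677760) (l 16625976)))))) (c (b (a (c (b (l 16704072) (l 16689928)) (b (l 16702032) (l 16687968))) (c (b (l 16681512) (l 16668088)) (b (l 16678624) (l 16664432)))) (a (c (b (l 16675712) (l 16661320)) (b (l 16674264) (l 16661000))) (c (b (l 16654824) (l 16641104)) (b (l 16650560) (l 16637064))))) (c (b (a (b (l 16697216) (l 16640000)) (l 16664904)) (a (l 16659576) (c (l 16595208) (l 16589704))))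 (b (a (a (l 16646592) (l 16654400)) (a (l 16662352) (l 16649536))) (a (a (l 16634488) (l 16641960)) (b (l 16630400) (l 16613688))))))) (a (a (l 2) (a (l 2) (b (b (c (l 104253329575) (l 16652256)) (l 2)) (l 2)))) (a (a (b (c (c (l 16643776) (l 16648152)) (b (l 16638880) (l 16624832))) (l 2)) (b (c (c (l 16634440) (l 16635984)) (b (l 16583552) (l 16611144))) (b (c (l 16615792) (l 16597536)) (l 2)))) (c (b (c (b (l 16627224) (l 16613064)) (l 16617616)) (c (b (l 16598504) (l 16583400)) (l 16593832))) (b (c (b (l 16612784) (l 16598888)) (b (l 16597360) (l 16581528))) (c (c (l 16583448) (l 16532672)) (b (l 16566336) (l 16551920)))))))), by decide +kernel⟩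

def k10_pm_001_t : ∃ t, chk3 f_pm_001_t t 14 12 1 = true :=
  ⟨(b (b (a (a (c (b (a (c (l 85060415847) (l 84523547127)) (l 16767648)) (a (l 16764720) (l 16752816))) (b (a (c (l 83986677111) (l 16742616)) (l 16767480)) (a (l 16764240) (l 16752200)))) (c (b (a (l 16755632) (l 16743552)) (a (l 16740888) (l 16728912))) (c (a (l 16748296) (l 16736728)) (l 16733640)))) (c (a (b (a (l 16731392) (l 16719176)) (l 16726584)) (c (l 16713448) (l 16695672))) (a (b (a (l 16732656) (l 16721568)) (l 16712008)) (c (l 16697688) (l 16697576))))) (a (c (a (c (b (l 16743728) (l 16729008)) (b (l 16743904) (l 16729008))) (c (b (l 16719576) (l 16705048)) (l 16723544))) (a (c (b (l 16743144) (l 16727648)) (b (l 16741624) (l 16725192))) (c (l 16722560) (l 16709640)))) (c (a (c (b (l 16694984) (l 16680736)) (l 16689960)) (c (l 16684408) (l 16667248))) (a (c (l 16689648) (l 16687352)) (c (l 16668112) (l 16666344)))))) (b (a (c (a (c (b (l 16714456) (l 16700104)) (l 16706592)) (c (b (l 16690680) (l 16676504))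 (l 16683520))) (a (c (l 16704024) (l 16699848)) (a (l 16684688) (l 16673328)))) (c (a (c (c (l 16658736) (l 16660232)) (l 16660752)) (c (l 16635664) (l 16638560))) (a (a (l 16662264) (l 16651488)) (c (l 16637536) (l 16591432))))) (a (c (a (c (b (l 16685968) (l 16672056)) (l 16677072)) (c (l 16666040) (l 16654136))) (a (a (l 16675288) (l 16663408)) (a (l 16651768) (a (l 16601304) (l 16595696))))) (c (c (a (l 16632064) (l 16608800)) (a (l 16631576) (l 16609744))) (c (a (b (l 16635248) (l 16619368)) (l 16564232)) (a (l 16577800) (l 16598968))))))), by decide +kernel⟩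

def k11_pm_001_t : ∃ t, chk3 f_pm_001_t t 15 12 1 = true :=
  ⟨(a (b (c (b (a (c (l 16669168) (l 16672072)) (c (l 16647272) (l 16650016))) (a (c (l 16640168) (l 16644688)) (c (l 16618248) (l 16621656)))) (b (a (c (l 16676240) (l 16677248)) (c (l 16654632) (l 16657496))) (a (c (l 16647368) (l 16646480)) (c (l 16626952) (l 16627480))))) (c (b (a (c (l 16612024) (l 16616872)) (c (l 16589968) (l 16595160))) (a (c (l 16585656) (l 16588712)) (c (l 16562896) (l 16568152)))) (b (a (l 16616032) (l 16597168)) (a (l 16583424) (l 16565032))))) (b (c (b (a (c (l 16627464) (l 16629296)) (c (l 16610216) (l 16610200))) (a (c (l 16598400) (l 16600824)) (c (l 16581144) (l 16581640)))) (b (a (l 16635136) (l 16612792)) (a (l 16607936) (l 16586632)))) (c (b (c (a (l 16569904) (l 16552432)) (a (l 16572880) (l 16553392))) (a (c (l 16542488) (l 16547448)) (c (l 16524592) (l 16526064)))) (b (a (l 16578560) (l 16559360)) (a (l 16547272) (l 16529560)))))), by decide +kernel⟩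

def k12_pm_001_t : ∃ t, chk3 f_pm_001_t t 14 13 1 = true :=
  ⟨(b (a (c (b (a (c (l 16651584) (l 16648088)) (c (l 16628376) (l 16625080))) (a (c (l 16625368) (l 16620000)) (c (l 16602168) (l 16596696)))) (b (a (c (b (l 16648848) (l 16633184)) (b (l 16639528) (l 16622120))) (c (b (l 16625664) (l 16609808)) (l 16638248))) (a (c (b (l 16617680) (l 16602448)) (b (l 16604776) (l 16587624))) (c (b (l 16594056) (l 16578472)) (l 16571488))))) (c (b (a (c (l 16605184) (l 16602552)) (c (l 16582400) (l 16580888))) (a (a (l 16593448) (l 16571680)) (a (l 16560648) (l 16549872)))) (b (a (c (l 16553376) (l 16584352)) (c (l 16574208) (l 16563368))) (c (a (l 16563392) (l 16541944)) (a (l 16548440) (l 16526952)))))) (a (c (b (a (c (l 16600464) (l 16593336)) (c (l 16577184) (l 16569432))) (a (c (l 16573328) (l 16568664)) (c (l 16553776) (l 16543864)))) (b (a (c (b (l 16587560) (l 16573112)) (b (l 16570736) (l 16554240))) (c (b (l 16563144) (l 16548160)) (l 16536672))) (a (c (b (l 16559208) (l 16545968))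 (b (l 16538240) (l 16522888))) (c (b (l 16533616) (l 16519624)) (l 16503168))))) (c (b (a (a (l 16556736) (l 16545304)) (c (l 16531456) (l 16544976))) (a (c (l 16530232) (l 16456824)) (c (l 16507456) (l 16496832)))) (b (c (a (l 16531960) (l 16509824)) (a (l 16512616) (l 16490224))) (c (a (l 16501704) (l 16478456)) (a (l 16477632) (l 16453880))))))), by decide +kernel⟩

def k13_pm_001_t : ∃ t, chk3 f_pm_001_t t 15 13 1 = true :=
  ⟨(b (a (c (b (c (a (l 16560104) (l 16537880)) (a (l 16560256) (l 16540488))) (a (c (l 16534792) (l 16468752)) (c (l 16513584) (l 16512320)))) (b (a (c (l 16554440) (l 16543888)) (l 16531496)) (a (c (l 16521984) (l 16507072)) (c (l 16503496) (l 16488752))))) (c (b (a (c (l 16516424) (l 16521240)) (c (l 16497928) (l 16501624))) (a (c (l 16492512) (l 16494000)) (c (l 16472712) (l 16476184)))) (b (a (l 16514232) (l 16497488)) (a (c (l 16486256) (l 16471512)) (l 16463416))))) (b (b (a (c (a (l 16514240) (l 16494360)) (a (l 16488952) (l 16470280))) (a (c (l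 16475568) (l 16452992)) (l 6))) (a (c (a (l 16501120) (l 16481272)) (a (l 16471424) (l 16452416))) (l 6))) (a (a (c (l 16481792) (c (l 16456992) (l 16432024))) (l 6)) (l 6)))), by decide +kernel⟩

def k14_pm_001_t : ∃ t, chk3 f_pm_001_t t 3 7 1 = true :=
  ⟨(a (b (b (a (l 2) (a (l 2) (a (l 2) (a (l 2) (b (c (b (l 16569136) (l 2)) (c (l 16548952) (l 16524304))) (l 2)))))) (l 2)) (l 2)) (b (a (b (b (a (c (a (c (b (l 16551840) (l 16536608)) (l 16546648)) (c (l 16527944) (l 16520656))) (a (c (a (l 16492736) (l 16520584)) (b (l 16508320) (l 16494712))) (c (b (l 16506304) (l 16493776)) (l 16471976)))) (a (c (c (l 16508224) (l 16495336)) (c (l 16473416) (l 16423440))) (b (c (l 16485216) (l 16446376)) (l 6)))) (a (a (a (l 2) (a (l 2) (b (c (l 16521856) (l 16486320)) (l 2)))) (c (c (a (l 16501904) (l 16494880)) (l 16500432)) (c (b (l 16482208) (l 16471728)) (l 16444392)))) (l 6))) (a (a (l 2) (l 6)) (l 6))) (l 6)) (l 6))), by decide +kernel⟩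

theorem s15_pm_001_t : ∃ t, chk3 f_pm_001_t t 7 13 1 = true := ex3_a k12_pm_001_t k13_pm_001_t

theorem s16_pm_001_t : ∃ t, chk3 f_pm_001_t t 7 12 1 = true := ex3_a k10_pm_001_t k11_pm_001_t

theorem s17_pm_001_t : ∃ t, chk3 f_pm_001_t t 7 6 1 = true := ex3_b s16_pm_001_t s15_pm_001_t

theorem s18_pm_001_t : ∃ t, chk3 f_pm_001_t t 13 12 1 = true := ex3_b k7_pm_001_t k8_pm_001_t

theorem s19_pm_001_t : ∃ t, chk3 f_pm_001_t t 13 6 1 = true := ex3_b s18_pm_001_t k9_pm_001_t

theorem s20_pm_001_t : ∃ t, chk3 f_pm_001_t t 6 6 1 = true := ex3_a k6_pm_001_t s19_pm_001_t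

theorem s21_pm_001_t : ∃ t, chk3 f_pm_001_t t 3 6 1 = true := ex3_a s20_pm_001_t s17_pm_001_t

theorem s22_pm_001_t : ∃ t, chk3 f_pm_001_t t 3 3 1 = true := ex3_b s21_pm_001_t k14_pm_001_t

theorem s23_pm_001_t : ∃ t, chk3 f_pm_001_t t 7 11 1 = true := ex3_a k4_pm_001_t k5_pm_001_t

theorem s24_pm_001_t : ∃ t, chk3 f_pm_001_t t 7 5 1 = true := ex3_b k3_pm_001_t s23_pm_001_t

theorem s25_pm_001_t : ∃ t, chk3 f_pm_001_t t 3 5 1 = true := ex3_a k2_pm_001_t s24_pm_001_t

theorem s26_pm_001_t : ∃ t, chk3 f_pm_001_t t 3 2 1 = true := ex3_b k1_pm_001_t s25_pm_001_t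

theorem s27_pm_001_t : ∃ t, chk3 f_pm_001_t t 3 1 1 = true := ex3_b s26_pm_001_t s22_pm_001_t

theorem s28_pm_001_t : ∃ t, chk3 f_pm_001_t t 1 1 1 = true := ex3_a k0_pm_001_t s27_pm_001_t

theorem c_pm_001_t : CertNE 0 536870912 536870912 536870912 858993459 64424510 3 eng mog cd0q0 cd0q1 pd0 false true false .up 0 0 1
    ndB0q0 ndB0q1 pcB0 cut_pm_001_t Ext.none :=
  certNE0 (fam := false) (s1 := true) (s2 := false) (a := 0) (b := 0) (c := 1) (cn := .up) (n1 := ndB0q0) (n2 := ndB0q1) (pc := pcB0) (cut := cut_pm_001_t) (xt := Ext.none) (P1 := 0) (W1 := 536870912) (P2 := 536870912) (W2 := 536870912) (P3 := 858993459) (W3 := 64424510) (N0 := 3) (En := eng) (mo := mog) (C1 := cd0q0) (C2 := cd0q1) (C3 := pd0)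
    rfl s28_pm_001_t

noncomputable def cut_pm_011_s : Cut := Cut.of [[⟨4, 0, 0, 1449551462⟩], [⟨0, 0, 0, 67108864⟩, ⟨1, 1, 0, 67108864⟩, ⟨2, 1, 0, 67108864⟩]]

noncomputable def f_pm_011_s : ℕ → ℕ → ℕ → ℕ → Bool := onCell 0 536870912 536870912 536870912 858993459 64424510
    (rowNE 3 eng mog cd0q0 cd0q1 pd1 0 false true false .pnn 0 1 1 (qsf 0 536870912 536870912 536870912 1) ndB0q0 ndB0q1 pcB1 cut_pm_011_s Ext.none)

def k0_pm_011_s : ∃ t, chk3 f_pm_011_s t 1 1 1 = true :=
  ⟨(l 6), by decide +kernel⟩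

theorem c_pm_011_s : CertNE 0 536870912 536870912 536870912 858993459 64424510 3 eng mog cd0q0 cd0q1 pd1 false true false .pnn 0 1 1
    ndB0q0 ndB0q1 pcB1 cut_pm_011_s Ext.none :=
  certNE0 (fam := false) (s1 := true) (s2 := false) (a := 0) (b := 1) (c := 1) (cn := .pnn) (n1 := ndB0q0) (n2 := ndB0q1) (pc := pcB1) (cut := cut_pm_011_s) (xt := Ext.none) (P1 := 0) (W1 := 536870912) (P2 := 536870912) (W2 := 536870912) (P3 := 858993459) (W3 := 64424510) (N0 := 3) (En := eng) (mo := mog) (C1 := cd0q0) (C2 := cd0q1) (C3 := pd1)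
    rfl k0_pm_011_s

end Pool.Agent.Strip051.G.I8000_8600.Tab.CS.BB00

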