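import Pool.Agent.Strip051.G.I8000_8600.Tab
import Pool.Agent.Strip051.PB.StripB

/-! # Strips, near vertex: certificates 9 (generated) -/

set_option linter.all false
set_option maxRecDepth 100000

namespace Pool.Agent.Strip051.G.I8000_8600.Tab.CS.BB00

open Pool.Agent.Strip051.PB Pool.Agent.Strip051.PB.T
open Pool.Agent.Strip051.G.I8000_8600.Tab

noncomputable def cut_pm_011_t : Cut := Cut.of [[⟨3, 0, 0, 2845415833⟩], [⟨0, 0, 0, 67108864⟩, ⟨1, 1, 0, 67108864⟩, ⟨2, 1, 0, 67108864⟩]]

noncomputable def f_pm_011_t : ℕ → ℕ → ℕ → ℕ → Bool := onCell 0 536870912 536870912 536870912 858993459 64424510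
    (rowNE 3 eng mog cd0q0 cd0q1 pd1 0 false true false .pnn 0 1 1 (qsf 0 536870912 536870912 536870912 1) ndB0q0 ndB0q1 pcB1 cut_pm_011_t Ext.none)

def k0_pm_011_t : ∃ t, chk3 f_pm_011_t t 1 2 1 = true :=
  ⟨(a (l 4) (b (l 1) (a (l 4) (l 1)))), by decide +kernel⟩

def k1_pm_011_t : ∃ t, chk3 f_pm_011_t t 2 6 1 = true :=
  ⟨(a (l 4) (b (l 4) (a (l 4) (b (l 4) (a (b (l 4) (a (l 4) (b (l 4) (b (l 4) (a (l 4) (c (a (l 4) (a (l 221425687927) (b (l 230552495431) (l 16775576)))) (c (l 213909487959) (l 103850866279)))))))) (b (a (l 4) (a (b (l 4) (b (l 4) (c (a (l 248269221991) (a (l 198877110647) (b (l 104924677415) (l 16775200)))) (c (l 100092784199) (l 100092782631))))) (b (c (c (l 245047979735) (l 243437362407)) (l 241826742711)) (c (a (b (c (l 214983235207) (l 103850903927)) (l 16773240)) (c (l 67343705431) (l 16771784))) (c (l 85060411703) (l 85060411255)))))) (c (a (b (a (l 4) (a (b (l 4) (c (b (l 233236846871) (l 29225917975)) (l 71638726391))) (b (l 221425689495) (l 16773568)))) (b (a (a (l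 227331269079) (a (b (l 134989488695) (l 16775552)) (l 16774896))) (l 16763496)) (a (a (b (l 74323043543) (l 16771904)) (l 16768816)) (l 16761408)))) (b (a (b (a (c (b (l 61438174327) (l 16774136)) (l 16775824)) (l 16770952)) (l 16766128)) (c (l 16759848) (l 16759696))) (a (l 16755160) (l 16745232)))) (a (b (a (l 4) (b (l 229478733847) (c (l 88281650455) (l 16775768)))) (a (a (b (l 240216171255) (l 16773608)) (b (l 81839217191) (l 16768616))) (c (l 16764864) (l 16764720)))) (b (a (b (l 81302346775) (l 16765904)) (l 16759448)) (c (l 16749776) (l 16749472))))))))))), by decide +kernel⟩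

def k2_pm_011_t : ∃ t, chk3 f_pm_011_t t 8 14 1 = true :=
  ⟨(l 4), by decide +kernel⟩

def k3_pm_011_t : ∃ t, chk3 f_pm_011_t t 9 28 1 = true :=
  ⟨(l 4), by decide +kernel⟩

def k4_pm_011_t : ∃ t, chk3 f_pm_011_t t 18 29 1 = true :=
  ⟨(l 4), by decide +kernel⟩

def k5_pm_011_t : ∃ t, chk3 f_pm_011_t t 19 58 1 = true :=
  ⟨(l 4), by decide +kernel⟩

def k6_pm_011_t : ∃ t, chk3 f_pm_011_t t 38 59 1 = true :=
  ⟨(l 4), by decide +kernel⟩

def k7_pm_011_t : ∃ t, chk3 f_pm_011_t t 39 118 1 = true :=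
  ⟨(l 4), by decide +kernel⟩

def k8_pm_011_t : ∃ t, chk3 f_pm_011_t t 39 238 1 = true :=
  ⟨(a (l 4) (a (l 4) (b (a (l 4) (b (l 4) (c (a (l 4) (a (l 4) (b (l 4) (b (l 4) (l 231626244711))))) (l 295513881335)))) (b (a (l 4) (c (c (b (a (l 4) (a (a (l 209077666423) (b (l 4) (l 16777488))) (a (b (l 100092871575) (l 16776896)) (l 16776848)))) (a (b (a (l 4) (a (l 222499439031) (l 58753811191))) (a (c (l 175791669607) (l 16777384)) (l 16776936))) (l 16776320))) (c (l 55532588903) (l 16777176))) (c (c (l 16777184) (l 16777120)) (l 16777032)))) (c (a (b (c (c (a (l 4) (a (l 227868148631) (b (l 198340248039) (a (l 53921972919) (l 16776968))))) (l 187602830535)) (l 133378871383)) (c (b (a (l 4) (a (a (a (l 137136964327) (l 64659391079)) (l 16777056)) (l 16776632))) (a (c (a (l 4) (a (l 124252062583) (l 16777136))) (l 16778080)) (l 16776432))) (l 16778448))) (c (c (a (c (b (a (l 16777112) (l 16776216)) (l 16775544)) (l 16776024)) (l 16774888)) (l 16775448)) (l 16775440))) (c (c (l 21172851479) (l 16776552))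 (l 16776568))))))), by decide +kernel⟩

def k9_pm_011_t : ∃ t, chk3 f_pm_011_t t 78 239 1 = true :=
  ⟨(a (l 4) (b (l 4) (c (b (a (l 4) (c (a (l 4) (a (l 4) (c (b (l 4) (b (l 220351955543) (a (a (l 131231384279) (l 60364423767)) (l 16777048)))) (l 181160379223)))) (l 206393313159))) (c (b (a (l 4) (a (a (l 4) (b (l 4) (a (l 203172086119) (b (l 109756547719) (l 16777096))))) (a (b (a (b (l 4) (l 89355452999)) (b (l 68417487367) (l 16777008))) (l 16776792)) (l 16776464)))) (a (b (l 4) (b (l 4) (a (l 4) (a (l 4) (a (l 4) (l 74323067415)))))) (c (a (a (a (c (b (l 232699986407) (l 16777424)) (l 75933680711)) (b (a (l 119957095079) (l 49090134567)) (l 16776816))) (c (l 16776632) (l 16776632))) (l 16775784)) (l 16776360)))) (a (l 229478762807) (a (l 56606329975) (l 16776256))))) (c (a (l 267596595815) (c (b (l 158611805319) (l 16776816)) (l 68954363783))) (c (l 196729632679) (l 210151403911)))))), by decide +kernel⟩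

def k10_pm_011_t : ∃ t, chk3 f_pm_011_t t 79 239 1 = true :=
  ⟨(c (a (a (b (a (l 4) (c (b (l 4) (b (l 4) (b (a (l 4) (a (l 192434667847) (a (l 60901294679) (l 16777112)))) (a (b (l 209614537111) (a (l 167201735351) (l 16777144))) (l 16776848))))) (l 195119024039))) (c (a (a (b (b (b (l 4) (b (l 4) (l 186529087799))) (b (b (a (l 123715191463) (l 16777080)) (l 16776984)) (l 16776616))) (l 16775416)) (b (b (b (b (l 235921211911) (a (l 4) (l 16777456))) (a (a (l 51237618215) (l 16777088)) (l 16776872))) (l 16776296)) (l 16774848))) (c (b (c (b (a (l 16776856) (l 16776128)) (l 16775448)) (l 16775928)) (l 16774000)) (l 16774952))) (b (l 16777816) (l 16774528)))) (c (b (a (b (a (l 4) (b (l 4) (b (l 4) (l 211762020887)))) (b (b (a (l 233236857495) (a (a (l 112440902391) (l 48016392743)) (l 16777016))) (a (a (a (l 155927446311) (l 83986743975)) (l 16777424)) (l 16776672))) (a (l 16776520) (l 16775952)))) (c (b (a (b (l 4) (b (l 188676571559) (a (l 38352716439) (l 16776928)))) (b (c (b (l 4) (c (l 166664864039)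 (l 112440902759))) (l 190287184487)) (c (l 16777032) (l 16776744)))) (l 16775256)) (b (b (l 204782699479) (l 16777000)) (l 16775576)))) (b (a (l 16774792) (l 16773656)) (l 16772296))) (b (b (a (l 237531825847) (l 65196264551)) (l 16776160)) (l 16773216)))) (c (b (b (a (c (b (a (a (b (a (l 209077666183) (l 44795167431)) (l 16776896)) (l 16776568)) (l 16775720)) (l 16775160)) (l 16775808)) (c (l 16773544) (l 16773536))) (c (a (l 16773888) (l 16771632)) (l 16772744))) (c (a (l 16771016) (l 16768760)) (l 16769856))) (b (l 16773688) (l 16769808)))) (c (a (b (a (l 241826785431) (c (b (l 107072197175) (l 16776144)) (l 16777008))) (c (l 16774352) (l 16774336))) (c (l 16771704) (l 16771672))) (a (b (a (l 268670332519) (l 16777016)) (l 16774296)) (l 16771624)))), by decide +kernel⟩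

def k11_pm_011_t : ∃ t, chk3 f_pm_011_t t 16 30 1 = true :=
  ⟨(l 4), by decide +kernel⟩

def k12_pm_011_t : ∃ t, chk3 f_pm_011_t t 17 60 1 = true :=
  ⟨(l 4), by decide +kernel⟩

def k13_pm_011_t : ∃ t, chk3 f_pm_011_t t 34 61 1 = true :=
  ⟨(l 4), by decide +kernel⟩

def k14_pm_011_t : ∃ t, chk3 f_pm_011_t t 35 122 1 = true :=
  ⟨(l 4), by decide +kernel⟩

def k15_pm_011_t : ∃ t, chk3 f_pm_011_t t 70 123 1 = true :=
  ⟨(l 4), by decide +kernel⟩

def k16_pm_011_t : ∃ t, chk3 f_pm_011_t t 71 246 1 = true :=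
  ⟨(l 4), by decide +kernel⟩

def k17_pm_011_t : ∃ t, chk3 f_pm_011_t t 71 494 1 = true :=
  ⟨(l 4), by decide +kernel⟩

def k18_pm_011_t : ∃ t, chk3 f_pm_011_t t 142 495 1 = true :=
  ⟨(l 4), by decide +kernel⟩

def k19_pm_011_t : ∃ t, chk3 f_pm_011_t t 286 495 1 = true :=
  ⟨(a (l 4) (b (l 4) (b (l 4) (c (b (c (a (l 4) (a (c (c (b (l 4) (a (l 4) (l 205319569607))) (l 223036309959)) (l 223573180871)) (c (a (b (l 4) (b (a (l 4) (l 105998450903)) (l 16777160))) (b (a (l 4) (b (l 4) (l 90966065351))) (l 16777096))) (l 67343745831)))) (l 185992217191)) (a (a (l 4) (c (c (a (b (l 4) (b (l 184381604167) (a (l 89892323527) (l 16777176)))) (b (l 220888826087) (a (b (l 73786196151) (l 16777112)) (l 16777104)))) (l 85597356855)) (l 16777280))) (c (c (a (b (a (c (b (l 158611800359) (l 16777304)) (l 16777232)) (b (l 16777296) (l 16777056))) (l 16776936)) (l 16776784)) (l 16776912)) (l 16776888)))) (c (c (l 82376132487) (l 16777360)) (l 85060487335)))))), by decide +kernel⟩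

def k20_pm_011_t : ∃ t, chk3 f_pm_011_t t 574 495 1 = true :=
  ⟨(b (l 4) (b (c (a (b (l 4) (c (b (b (l 4) (a (l 4) (a (l 4) (a (l 127473287399) (l 16777200))))) (a (a (l 4) (b (l 4) (a (l 158074929415) (l 43721425143)))) (a (b (a (l 143042543863) (l 27615297767)) (l 16777120)) (l 16777040)))) (l 92576679063))) (a (c (a (b (l 4) (b (a (b (l 111904030935) (l 16777128)) (l 3992977399)) (l 16776904))) (b (c (b (l 4) (b (l 183844733255) (a (l 89892323527) (l 16777176)))) (l 130157642455)) (l 16776848))) (l 16777848)) (c (c (b (b (b (c (l 211762020583) (l 170422960599)) (a (l 161833025895) (l 19562234039))) (a (a (b (l 74323067063) (l 16777112)) (l 16777104)) (l 16777000))) (l 16776696)) (l 16777432)) (l 16776920)))) (c (c (l 70564972295) (l 16777304)) (l 71638714439))) (c (c (a (c (b (a (a (b (b (a (l 178476024055) (l 75396808887)) (l 16777144)) (l 16776960)) (l 16776944)) (l 16776744)) (l 16776376)) (l 16776600)) (c (c (l 16776008) (l 16776072)) (l 16776024))) (l 16776248)) (c (l 16776152) (l 16776040))))),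 by decide +kernel⟩

def k21_pm_011_t : ∃ t, chk3 f_pm_011_t t 575 495 1 = true :=
  ⟨(b (c (c (b (a (l 4) (c (b (l 4) (a (l 4) (c (b (l 4) (l 233236857191)) (l 235921211911)))) (l 237531825159))) (a (b (l 4) (b (a (l 4) (a (a (l 234310598871) (b (l 4) (l 94724161735))) (b (a (l 170959831319) (l 57143197959)) (l 16777144)))) (c (a (c (a (l 204782698695) (b (l 134452609287) (l 16777160))) (l 90429194743)) (c (l 16777024) (l 16777024))) (l 16777152)))) (b (b (a (l 4) (b (a (l 4) (a (l 107609063639) (l 16777184))) (a (a (l 123178320103) (l 16777192)) (l 16777088)))) (a (b (a (l 4) (a (l 139284447479) (l 16777288))) (a (a (l 154853703943) (l 40500199671)) (l 16777120))) (l 16776968))) (a (c (c (l 16776880) (l 16776872)) (l 16776856)) (l 16776504))))) (b (l 240216180055) (a (c (l 105998452359) (l 109219677783)) (l 16776968)))) (c (c (b (l 247732372791) (l 58216941191)) (l 104387840935)) (b (l 194045283351) (l 16777248)))) (c (c (c (c (b (a (a (a (b (b (l 16777192) (l 16776872)) (l 16776496)) (l 16776448))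 (l 16776240)) (l 16775840)) (l 16775120)) (b (l 16776168) (l 16775240))) (c (l 16775712) (l 16775680))) (l 16775584)) (c (l 16775424) (l 16775248)))), by decide +kernel⟩

def k22_pm_011_t : ∃ t, chk3 f_pm_011_t t 16 31 1 = true :=
  ⟨(b (b (l 4) (l 14)) (l 14)), by decide +kernel⟩

def k23_pm_011_t : ∃ t, chk3 f_pm_011_t t 68 124 1 = true :=
  ⟨(l 4), by decide +kernel⟩

def k24_pm_011_t : ∃ t, chk3 f_pm_011_t t 69 248 1 = true :=
  ⟨(l 4), by decide +kernel⟩

def k25_pm_011_t : ∃ t, chk3 f_pm_011_t t 138 249 1 = true :=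
  ⟨(l 4), by decide +kernel⟩

def k26_pm_011_t : ∃ t, chk3 f_pm_011_t t 278 249 1 = true :=
  ⟨(l 4), by decide +kernel⟩

def k27_pm_011_t : ∃ t, chk3 f_pm_011_t t 279 498 1 = true :=
  ⟨(l 4), by decide +kernel⟩

def k28_pm_011_t : ∃ t, chk3 f_pm_011_t t 279 998 1 = true :=
  ⟨(l 4), by decide +kernel⟩

def k29_pm_011_t : ∃ t, chk3 f_pm_011_t t 279 1998 1 = true :=
  ⟨(a (l 4) (c (b (b (l 4) (a (l 4) (a (l 4) (c (a (a (l 4) (b (l 4) (b (l 4) (l 57680068791)))) (a (b (l 4) (a (l 20099104951) (l 16777176))) (b (b (l 179012894935) (l 16777296)) (l 16777120)))) (l 16777256))))) (c (b (a (l 4) (b (a (a (l 4) (a (l 4) (b (l 4) (l 74859937991)))) (a (a (b (l 67880616119) (l 16777168)) (l 16777128)) (l 16777032))) (a (a (a (l 4) (b (l 4) (l 95797903559))) (a (b (l 85597356231) (l 16777176)) (l 16777144))) (l 16776968)))) (a (c (a (l 4) (a (a (l 4) (b (l 4) (l 166664863975))) (a (b (l 4) (a (l 84523614407) (l 16777288))) (b (a (l 4) (l 137136963783)) (l 16777160))))) (l 183844733255)) (a (a (a (b (b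 (l 118346481831) (l 16777184)) (l 16777088)) (l 16777104)) (l 16776984)) (l 16776744)))) (a (l 199413989863) (l 16777032)))) (c (c (a (l 175791671031) (l 61438166247)) (l 102240356327)) (a (l 169349220471) (l 60901295639))))), by decide +kernel⟩

def k30_pm_011_t : ∃ t, chk3 f_pm_011_t t 279 1999 1 = true :=
  ⟨(c (c (b (b (a (l 4) (a (a (c (a (c (l 233773728007) (l 190287184375)) (a (b (l 4) (a (l 127473287351) (l 58753810599))) (b (l 177402282231) (l 16777176)))) (l 117272740407)) (a (b (a (b (l 150021865671) (l 16777200)) (l 16777168)) (l 16777072)) (l 16777000))) (a (l 16776760) (l 16776528)))) (a (b (l 4) (a (l 4) (a (l 4) (a (l 4) (a (b (l 4) (l 63585648823)) (b (l 53385101495) (l 16777160))))))) (c (a (a (a (b (a (a (l 139821318343) (l 71638712503)) (l 16777264)) (l 16777088)) (l 16777016)) (l 16776816)) (l 16776408)) (l 16776672)))) (a (b (a (l 4) (a (a (l 4) (b (l 4) (a (b (l 4) (l 112977772711)) (b (l 90966065351) (l 16777176))))) (c (a (b (a (a (l 168275476711) (l 100092870871)) (c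 (l 16877879463) (l 16777200))) (l 16777112)) (l 16777040)) (l 16777104)))) (a (b (l 4) (c (a (l 4) (a (l 4) (a (l 170422960359) (a (l 88818581703) (l 31373394071))))) (l 203172086087))) (c (a (a (b (c (a (l 151632478439) (a (l 71638712503) (l 16777200))) (l 16777232)) (l 16777128)) (l 16777056)) (l 16776848)) (l 16776984)))) (c (c (a (c (l 16776472) (l 16776568)) (l 16776016)) (l 16775992)) (l 16776280)))) (a (a (c (l 226257535895) (l 230015632263)) (b (l 208540795415) (l 16777688))) (c (a (l 16777128) (l 16776200)) (l 16776448)))) (c (c (a (a (l 233236857719) (l 74859939127)) (l 16776400)) (a (l 111904032823) (l 16776344))) (a (a (l 183307864231) (l 74323068519)) (l 16776264)))), by decide +kernel⟩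

def k31_pm_011_t : ∃ t, chk3 f_pm_011_t t 68 125 1 = true :=
  ⟨(b (b (l 4) (l 14)) (l 14)), by decide +kernel⟩

def k32_pm_011_t : ∃ t, chk3 f_pm_011_t t 138 1000 2 = true :=
  ⟨(l 4), by decide +kernel⟩

def k33_pm_011_t : ∃ t, chk3 f_pm_011_t t 276 1001 2 = true :=
  ⟨(l 4), by decide +kernel⟩

def k34_pm_011_t : ∃ t, chk3 f_pm_011_t t 554 1001 2 = true :=
  ⟨(a (l 4) (b (l 4) (b (l 4) (b (a (l 4) (a (l 4) (b (l 4) (a (b (l 4) (a (l 180623507607) (l 56606326967))) (b (a (l 153243091127) (l 48016392359)) (l 16777176)))))) (c (c (a (a (l 4) (b (l 4) (a (a (l 4) (l 150021865671)) (b (l 121567707319) (l 16777192))))) (a (b (a (a (l 4) (l 132305125575)) (b (l 105998450855) (l 16777184))) (l 16777120)) (l 16777048))) (a (l 139284447879) (l 16777120))) (l 59827553111)))))), by decide +kernel⟩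

def k35_pm_011_t : ∃ t, chk3 f_pm_011_t t 555 1001 2 = true :=
  ⟨(a (b (l 4) (c (a (c (b (a (l 4) (b (l 4) (b (l 4) (a (b (l 4) (l 82913001575)) (a (l 24394072215) (l 16777176)))))) (b (b (a (b (a (l 4) (l 78618034311)) (a (l 81839259799) (l 16777168))) (l 16777096)) (l 16777040)) (l 16776848))) (b (l 194582151527) (l 16776976))) (b (b (c (a (b (l 4) (l 230015631543)) (a (b (l 4) (b (l 178476023975) (l 16777208))) (b (l 176328540407) (l 16777256)))) (l 116198998583)) (a (b (a (b (l 4) (l 42110812327)) (b (l 32984006823) (l 16777152))) (l 16777088)) (l 16776936))) (c (c (l 16776608) (l 16776712)) (l 16776696)))) (b (a (l 143042544711) (l 16777856)) (l 16776792)))) (c (b (b (l 4) (b (a (l 4) (c (b (b (l 4) (a (l 4) (a (l 4) (l 103850967159)))) (a (a (l 4) (a (l 194582151367) (l 128010158263))) (a (b (l 114588385399) (l 16777176)) (l 16777144)))) (l 90966065751))) (a (a (a (l 4) (b (l 4) (b (l 4) (l 145726898359)))) (a (b (l 4) (b (l 148411252887) (l 16777192))) (b (b (l 4) (l 124788932791)) (l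 16777160)))) (a (b (a (b (l 121030836391) (l 16777184)) (l 16777152)) (l 16777056)) (l 16776904))))) (a (c (b (b (a (b (a (b (l 164517380247) (l 16777200)) (l 16777168)) (l 16777072)) (l 16777000)) (l 16776816)) (l 16776432)) (l 16776680)) (c (c (b (l 16776664) (l 16776144)) (l 16776424)) (l 16776400)))) (b (b (l 4) (a (l 131768255511) (l 16777176))) (l 16776472)))), by decide +kernel⟩

def k36_pm_011_t : ∃ t, chk3 f_pm_011_t t 138 501 2 = true :=
  ⟨(b (a (b (b (l 4) (l 14)) (l 14)) (c (c (a (b (b (a (a (a (l 4) (b (l 4) (b (l 4) (a (l 4) (b (l 4) (l 57680068743)))))) (a (b (l 4) (b (a (l 4) (b (l 190287184039) (l 16777296))) (a (a (l 22246588551) (l 16777168)) (l 16777120)))) (b (b (l 4) (a (l 195119022295) (b (l 168812347559) (l 16777200)))) (a (b (l 5603590231) (l 16777048)) (l 16777048))))) (a (b (a (c (b (a (l 167738605815) (a (l 102777225383) (l 34057748631))) (l 16777176)) (l 24394072423)) (b (l 16777168) (l 16777000))) (l 16776880)) (c (l 16776640) (l 16776744)))) (a (a (a (l 14) (a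 (l 14) (c (l 16776928) (l 16776936)))) (c (l 16776720) (l 16776768))) (c (l 16776264) (l 16776368)))) (c (a (b (l 16776336) (l 14)) (l 16775560)) (a (l 16776152) (l 16775616)))) (b (c (a (b (l 16776232) (l 16775792)) (l 16775504)) (a (l 16776088) (l 16775552))) (c (l 16774656) (l 16774816)))) (a (b (a (b (a (l 217667600823) (b (l 147874382487) (l 16777144))) (c (l 16777112) (l 16776896))) (c (b (l 16776872) (l 16776360)) (l 16776600))) (l 16775520)) (b (l 16775776) (l 16774744)))) (a (b (a (b (a (l 168812348519) (l 61438165879)) (l 16776864)) (l 16776544)) (l 16775696)) (c (l 16775128) (l 16774984))))) (a (l 14) (a (a (l 14) (c (c (c (l 16773832) (l 16774104)) (l 16774016)) (l 16773680))) (c (c (b (l 16773752) (l 16772728)) (l 16773184)) (l 16772768))))), by decide +kernel⟩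

def k37_pm_011_t : ∃ t, chk3 f_pm_011_t t 556 500 2 = true :=
  ⟨(b (a (l 4) (b (l 4) (b (l 4) (a (c (b (l 4) (c (a (b (l 4) (a (l 170422960359) (b (l 147874381975) (l 16777192)))) (b (c (a (l 152169349351) (a (l 73249325239) (l 16777200))) (l 16777232)) (l 16777128))) (l 65196261911))) (l 104924709895)) (c (a (c (b (b (l 4) (a (a (l 196192764103) (l 131231383735)) (b (l 118883352695) (l 16777176)))) (l 16777056)) (l 22783459895)) (b (b (a (b (l 4) (l 83449872583)) (b (l 77007421623) (l 16777176))) (l 16777112)) (l 16776920))) (l 16777104)))))) (c (b (b (a (b (a (l 4) (c (a (a (l 234847469783) (b (l 4) (b (l 184381604007) (l 16777208)))) (b (a (l 180086636791) (a (l 111904030903) (l 43721425063))) (c (l 16777224) (l 16777144)))) (l 74323067431))) (a (a (b (l 4) (b (l 4) (a (l 4) (l 63585648823)))) (a (b (l 4) (b (l 53921972407) (l 16777160))) (b (b (l 4) (l 48553263271)) (l 16777128)))) (a (a (b (b (l 38352715943) (l 16777152)) (l 16777056)) (l 16777056)) (l 16776952)))) (c (a (a (b (b (l 16777176)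 (l 16777008)) (l 16776816)) (l 16776728)) (l 16776520)) (l 16776728))) (c (c (a (a (a (b (a (a (b (l 39426457767) (l 16777088)) (l 16777120)) (l 16777064)) (l 16776840)) (l 16776832)) (l 16776624)) (l 16776216)) (a (l 16776776) (l 16776248))) (l 16776488))) (c (c (a (b (l 16776248) (l 16775728)) (l 16775440)) (l 16775600)) (l 16775712))) (b (a (a (b (l 120493966311) (l 16776872)) (l 16777184)) (l 16776392)) (l 16775560)))), by decide +kernel⟩

def k38_pm_011_t : ∃ t, chk3 f_pm_011_t t 557 500 2 = true :=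
  ⟨(b (a (c (b (b (l 4) (c (a (l 4) (c (a (l 4) (a (l 4) (b (l 4) (l 220888826055)))) (l 231089373687))) (l 233773728423))) (b (a (b (c (c (a (l 4) (l 234847469831)) (l 235384340839)) (l 193508410023)) (a (b (l 4) (a (b (l 4) (l 66806874295)) (b (l 57143197879) (l 16777160)))) (b (a (b (l 4) (l 51237617831)) (c (l 16777288) (l 16777184))) (l 16777096)))) (c (b (a (a (b (l 4) (b (l 186529087655) (l 16777208))) (b (l 181697249527) (l 16777256))) (b (a (a (l 113514643639) (l 45332037799)) (l 16777168)) (l 16777072))) (l 16776872)) (l 16777408))) (c (c (c (a (l 16776792) (l 16776560)) (l 16776704)) (l 16776712)) (l 16776696)))) (b (l 238068696039) (c (b (l 43721425847) (l 16776664)) (l 16776928)))) (b (c (b (b (l 4) (a (l 4) (b (l 4) (b (l 4) (a (l 4) (a (l 4) (l 66806874295))))))) (a (a (b (l 4) (a (b (l 4) (b (l 154316832919) (l 16777192))) (b (b (l 4) (l 130694512823)) (l 16777160)))) (b (a (l 4) (b (l 4) (b (l 4) (l 115662127271)))) (b (b (a (l 119957094583) (l 16777184)) (l 16777152)) (l 16777064))))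 (b (a (a (b (l 4) (b (l 93650419911) (l 16777184))) (b (b (l 4) (l 83449872583)) (l 16777144))) (a (b (b (l 77007421623) (l 16777176)) (l 16777080)) (l 16777072))) (c (l 16776920) (l 16776912))))) (b (l 227331277415) (c (l 30836523911) (l 16777176)))) (c (c (c (b (a (l 16776720) (l 16776528)) (l 16776152)) (l 16776104)) (l 16776400)) (l 16776320)))) (c (c (b (c (a (c (l 16775872) (l 16775936)) (l 16775376)) (l 16775368)) (c (l 16774616) (l 16774696))) (b (l 16775640) (l 16774600))) (c (l 16774984) (l 16774840)))), by decide +kernel⟩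

def k39_pm_011_t : ∃ t, chk3 f_pm_011_t t 278 501 2 = true :=
  ⟨(b (c (c (a (c (b (l 16774680) (l 16773640)) (l 16773928)) (c (l 16773064) (l 16773192))) (a (l 16773824) (l 16773040))) (c (l 16773360) (l 16773104))) (c (c (a (l 16772000) (l 16771096)) (l 16771520)) (l 16770936))), by decide +kernel⟩

def k40_pm_011_t : ∃ t, chk3 f_pm_011_t t 279 250 2 = true :=
  ⟨(b (a (c (b (b (c (a (b (a (a (b (l 4) (c (a (b (l 4) (l 16777296)) (b (a (l 140358189255) (l 73786196151)) (l 16777128))) (l 45332037991))) (b (a (l 234847469783) (b (l 4) (a (l 131231383735) (l 57143197879)))) (a (b (l 16777264) (l 16777056)) (l 16777056)))) (b (c (a (b (a (l 178476024055) (a (l 108682805431) (l 42110812327))) (l 16777144)) (l 16777112)) (l 2919235911)) (l 16776888))) (a (a (l 16776760) (l 16776704)) (l 16776504))) (b (a (a (l 16776648) (l 16776672)) (l 16776472)) (l 16775936))) (a (a (b (b (l 152169349783) (l 16777152)) (l 16776768)) (l 16776912)) (l 16776328))) (c (a (b (l 16776048) (l 16775624)) (l 16775256))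 (l 16775568))) (c (c (b (l 16774552) (l 16773520)) (l 16773808)) (l 16774008))) (b (a (b (c (b (l 16777800) (l 16776584)) (l 16776848)) (l 16775712)) (l 16775672)) (l 16773688))) (c (b (c (a (b (b (l 16776064) (l 16775560)) (l 16774800)) (b (l 16775112) (l 16774264))) (c (l 16775008) (l 16774944))) (c (c (l 16772944) (l 16773080)) (l 16772896))) (b (l 16774760) (l 16772472)))) (c (c (b (a (l 16771400) (l 16770984)) (l 16769496)) (b (l 16771376) (l 16769296))) (b (l 16770792) (l 16768504)))), by decide +kernel⟩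

def k41_pm_011_t : ∃ t, chk3 f_pm_011_t t 69 250 3 = true :=
  ⟨(a (b (a (l 4) (b (l 4) (b (b (l 4) (a (l 4) (a (l 4) (c (a (l 137673835495) (l 16777168)) (l 16777296))))) (a (a (l 4) (b (l 4) (c (c (l 16777648) (l 16777320)) (l 16777328)))) (c (c (a (l 16777720) (l 16776392)) (l 16776696)) (a (l 16777672) (l 16776256))))))) (a (b (b (b (l 4) (l 14)) (l 14)) (l 14)) (c (c (a (b (b (c (l 16776816) (l 16777456)) (l 16775544)) (l 16771024)) (l 16773576)) (b (a (b (l 16776776) (l 16770192)) (l 16769440)) (l 16770080))) (b (a (b (c (l 16777720) (l 16776696)) (l 16775264)) (l 16774440)) (c (l 16768480) (l 16766864)))))) (b (a (b (a (a (l 4) (b (l 4) (c (c (l 106535323111) (l 107609064951)) (l 108145936119)))) (c (c (b (a (l 245584888791) (l 87207970199)) (l 16776568)) (b (l 123715192887) (l 16776520))) (b (a (l 248269243319) (l 94724163255)) (l 16777104)))) (c (a (c (c (l 16776040) (l 16776000)) (l 16775944)) (b (l 16775248) (l 16771992))) (a (c (l 16776512) (l 16775768)) (l 16774272)))) (c (b (c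 (c (l 16775224) (l 16775160)) (l 16775064)) (c (l 16769408) (l 16767152))) (b (a (c (l 16775680) (l 16775584)) (l 16774096)) (c (l 16766856) (l 16766552))))) (b (c (a (c (a (l 16768256) (l 16766920)) (l 16767312)) (c (l 16764928) (l 16764480))) (a (c (l 16767016) (l 16766712)) (a (l 16764552) (l 16768256)))) (a (c (c (l 16765064) (l 16764624)) (b (l 16764656) (l 16763176))) (c (c (l 16767648) (l 16767040)) (l 16760840)))))), by decide +kernel⟩

def k42_pm_011_t : ∃ t, chk3 f_pm_011_t t 69 251 1 = true :=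
  ⟨(a (b (a (l 14) (a (l 14) (a (l 14) (b (c (b (l 16771152) (l 14)) (c (l 16763952) (l 16768128))) (l 14))))) (l 14)) (b (c (c (a (c (b (l 16769264) (l 16767544)) (b (l 16769448) (l 16767376))) (c (b (l 16767464) (l 16765432)) (l 16766184))) (a (a (l 16768104) (l 16766888)) (l 16765064))) (a (c (c (a (l 16761936) (l 16760608)) (c (l 16760752) (l 16760400))) (b (l 16760960) (l 16757992))) (c (c (l 16758616) (l 16757760)) (a (l 16757176) (l 16755656))))) (b (c (c (a (l 16763072) (l 16763528)) (l 16762832)) (c (c (l 16756136) (l 16755104)) (a (l 16760248) (l 16757200)))) (a (l 14) (c (l 16757336) (c (l 16756880) (l 16754216))))))), by decide +kernel⟩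

def k43_pm_011_t : ∃ t, chk3 f_pm_011_t t 140 248 1 = true :=
  ⟨(l 4), by decide +kernel⟩

def k44_pm_011_t : ∃ t, chk3 f_pm_011_t t 141 496 1 = true :=
  ⟨(l 4), by decide +kernel⟩

def k45_pm_011_t : ∃ t, chk3 f_pm_011_t t 141 994 1 = true :=
  ⟨(b (l 4) (b (l 4) (a (l 4) (a (l 4) (a (l 4) (c (c (c (b (b (l 4) (b (l 4) (a (l 4) (a (l 4) (l 119420223719))))) (a (c (a (l 4) (l 216056987879)) (l 224110051639)) (b (a (a (l 4) (l 128547029239)) (c (l 16777248) (l 16777168))) (a (a (l 38889586887) (l 16777152)) (l 16777048))))) (a (l 228941890023) (l 73786196791))) (l 108682806519)) (c (l 110830290167) (l 16777360)))))))), by decide +kernel⟩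

def k46_pm_011_t : ∃ t, chk3 f_pm_011_t t 141 1990 1 = true :=
  ⟨(a (l 4) (a (a (l 4) (b (l 4) (a (l 4) (b (l 4) (c (c (c (b (a (l 4) (a (l 148948123911) (l 46405779655))) (a (a (l 171496702199) (l 59827552471)) (l 16777128))) (l 16777232)) (l 16777240)) (c (l 16777240) (l 16777248))))))) (c (b (a (a (l 4) (c (c (b (a (l 4) (l 229478760711)) (b (a (l 4) (a (l 95261032647) (l 16777176))) (a (a (l 108682805463) (l 16777184)) (l 16777088)))) (l 89892324183)) (l 16777296))) (c (c (a (b (a (c (b (l 172033573191) (a (l 78081163447) (l 16777168))) (l 16777408)) (a (b (l 54458843351) (l 16777104)) (l 16777096))) (l 16776952)) (l 16776728)) (l 16776928)) (l 16776904))) (c (c (b (a (a (a (b (l 4) (a (l 134989480183) (l 31373394103))) (b (a (l 121567707367) (l 16777280)) (l 16777112))) (l 16776968)) (l 16776568)) (a (a (l 16776992) (l 16776720)) (l 16776320))) (a (l 16777304) (l 16776408))) (l 16776648))) (c (c (l 16776904) (l 16776880)) (l 16776832))))), by decide +kernel⟩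

def k47_pm_011_t : ∃ t, chk3 f_pm_011_t t 141 1991 1 = true :=
  ⟨(a (b (l 4) (a (l 4) (a (l 4) (b (l 4) (c (c (c (a (l 4) (b (c (l 226257535239) (l 184918475255)) (a (l 189213442391) (a (l 86671098055) (l 16777176))))) (l 138210706407)) (l 140895061047)) (c (l 143579415607) (l 16777376))))))) (c (a (a (c (c (a (b (l 4) (a (b (c (l 221425696999) (l 176328540647)) (a (b (l 73786196151) (l 16777112)) (l 16777104))) (b (a (b (l 4) (l 59827552423)) (b (l 150021865687) (l 16777152))) (l 16777000)))) (a (b (a (l 4) (b (l 4) (b (l 4) (l 121567707383)))) (a (b (b (l 33520877767) (l 16777088)) (l 16776904)) (l 16776960))) (b (b (l 4) (b (a (l 4) (l 108682805479)) (c (l 16777248) (l 16777168)))) (l 16776856)))) (b (l 191897797063) (a (l 34594620055) (l 16776912)))) (b (l 140895061399) (l 16777048))) (c (b (c (a (a (b (a (l 4) (b (l 4) (l 95797903575))) (b (l 16777240) (l 16777032))) (b (b (a (l 201024602327) (a (l 122104578231) (l 16777296))) (l 16777144)) (l 16776960))) (a (b (l 16777080) (l 16776832))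 (l 16776816))) (c (l 16777344) (l 16777016))) (c (c (l 16776352) (l 16776520)) (l 16776488))) (l 16776712))) (c (c (c (a (b (l 16776472) (l 16775968)) (l 16775680)) (l 16775632)) (l 16775904)) (l 16775792))) (c (c (a (l 20635977063) (l 16775672)) (l 16776280)) (a (l 16777928) (l 16775448))))), by decide +kernel⟩

def k48_pm_011_t : ∃ t, chk3 f_pm_011_t t 280 498 2 = true :=
  ⟨(l 4), by decide +kernel⟩

def k49_pm_011_t : ∃ t, chk3 f_pm_011_t t 560 499 2 = true :=
  ⟨(b (b (l 4) (b (a (l 4) (a (l 4) (c (b (c (c (a (l 4) (l 230552502519)) (l 232699986263)) (l 191897797271)) (a (b (a (l 4) (l 183307862311)) (a (b (l 4) (l 16777296)) (c (l 16777264) (l 16777184)))) (b (a (b (l 172033573079) (l 16777208)) (l 16777256)) (l 16777088)))) (l 89355453399)))) (c (a (a (l 4) (b (l 4) (b (a (l 4) (a (c (l 150021865687) (l 16777256)) (b (l 97945387207) (l 16777184)))) (a (a (a (l 4) (l 139821318391)) (b (l 125325803703) (l 16777192))) (l 16777120))))) (c (b (a (b (a (l 4) (a (a (l 158074929367) (l 91502936263))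 (c (l 16777272) (l 16777192)))) (c (a (a (l 136063221959) (l 18488492215)) (l 16777104)) (l 16777160))) (l 16776960)) (a (a (l 16777048) (l 16776912)) (l 16776712))) (c (l 16777304) (l 16776968)))) (c (a (l 130157642935) (l 16776952)) (l 51774489975))))) (c (c (b (b (b (a (a (a (a (l 231089373399) (b (l 4) (a (l 121030836407) (l 52311359655)))) (b (a (l 172033573111) (a (l 107609063591) (l 38889586839))) (l 16777136))) (c (c (l 16776992) (l 16777000)) (l 16777000))) (l 16776512)) (a (a (a (b (l 2382364695) (l 16777024)) (l 16776952)) (l 16776744)) (l 16776344))) (c (a (l 16776448) (l 16775944)) (l 16776248))) (c (a (l 16775640) (l 16775176)) (l 16775504))) (b (a (b (c (a (l 12046041671) (l 16776872)) (l 16777008)) (l 16776480)) (l 16776184)) (l 16775424))) (c (b (l 16776744) (l 16775312)) (l 16775776)))), by decide +kernel⟩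

def k50_pm_011_t : ∃ t, chk3 f_pm_011_t t 561 499 2 = true :=
  ⟨(c (b (b (b (a (l 4) (b (b (l 4) (c (a (l 4) (a (l 4) (a (l 170422960375) (a (l 105461579943) (l 16777288))))) (l 157001188151))) (a (a (l 4) (a (l 4) (b (l 4) (b (l 178476024023) (l 16777296))))) (c (a (b (a (l 197803376855) (a (l 119420223671) (l 50700746919))) (l 16777224)) (c (l 16777072) (l 16777080))) (l 16777144))))) (a (a (c (c (a (l 4) (a (l 4) (b (l 4) (l 212298891447)))) (l 227868148199)) (l 228941890023)) (a (b (l 4) (a (b (l 4) (b (l 119957094567) (l 16777184))) (b (b (l 4) (l 97408516295)) (l 16777152)))) (a (b (l 4) (b (b (l 86671098055) (l 16777176)) (l 16777080))) (b (b (l 4) (b (l 4) (l 75933679815))) (l 16777080))))) (c (a (b (a (b (a (l 4) (a (l 147874382039) (l 80228647111))) (a (l 16877879463) (l 16777128))) (a (b (l 16777272) (l 16777064)) (l 16777064))) (l 16776912)) (c (l 16776760) (l 16776768))) (l 16776896)))) (b (a (c (a (b (a (a (b (l 4) (a (l 111367159991) (l 42647683239))) (b (l 169349218535) (l 16777168)))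 (a (b (a (l 86671098055) (l 16777288)) (l 16777104)) (l 16777096))) (l 16776944)) (c (l 16776632) (l 16776808))) (l 16777216)) (a (a (l 16776512) (l 16776464)) (l 16776176))) (c (c (a (l 16776336) (l 16775872)) (l 16776176)) (l 16776128)))) (c (b (c (a (l 16775656) (l 16775112)) (l 16775432)) (l 16774280)) (l 16774664))) (b (a (b (c (l 188139700839) (l 140358190823)) (l 16776616)) (b (a (b (l 166664864871) (l 16777016)) (l 16777656)) (l 16776008))) (l 16774600))), by decide +kernel⟩

def k51_pm_011_t : ∃ t, chk3 f_pm_011_t t 562 249 2 = true :=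
  ⟨(b (b (l 4) (b (l 4) (a (b (l 4) (c (b (b (l 4) (c (a (l 4) (a (l 4) (a (a (l 153779962071) (l 87207968967)) (l 16777272)))) (l 134989480791))) (a (a (l 4) (b (l 4) (a (a (l 4) (l 121567707367)) (b (l 94187290823) (l 16777184))))) (a (b (a (a (l 173644185831) (l 107609063639)) (c (l 17414750391) (l 16777200))) (l 16777112)) (l 16777040)))) (a (l 151632479319) (l 16777216)))) (c (b (b (a (l 4) (c (a (c (c (l 221962567911) (l 222499438823)) (l 176328540647)) (a (b (l 4) (a (l 80228647111) (l 16777200))) (b (l 151095607511) (l 16777152)))) (l 97945387639))) (a (c (a (c (l 233236857095) (l 189213442551)) (a (b (l 4) (a (l 125325803703) (l 56606326951))) (b (l 174717927671) (l 16777176)))) (l 116198998583)) (a (b (a (a (l 98482258135) (l 34057748679)) (l 16777168)) (l 16777072)) (l 16777000)))) (c (c (a (b (b (c (a (a (l 91502936279) (l 16777184)) (l 16777080)) (l 16777304)) (l 16777024)) (l 16776832)) (l 16776688)) (l 16776832)) (l 16776816))) (b (l 73786197239) (l 16776776)))))) (c (b (a (c (a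 (b (b (b (a (b (a (l 149484994823) (a (l 75396808903) (l 16777200))) (l 16777128)) (l 16777056)) (l 16776872)) (l 16776496)) (l 16775744)) (b (b (l 16776648) (l 16776224)) (l 16775472))) (b (l 16776760) (l 16775552))) (c (b (a (b (l 16776464) (l 16775960)) (l 16775856)) (l 16775072)) (l 16775512))) (c (b (l 16774168) (l 16773328)) (l 16773704))) (b (c (l 16775704) (l 16775616)) (l 16773376)))), by decide +kernel⟩

def k52_pm_011_t : ∃ t, chk3 f_pm_011_t t 563 249 2 = true :=
  ⟨(b (b (l 4) (a (b (b (l 4) (c (a (b (l 4) (b (b (l 4) (a (l 4) (a (l 4) (l 68954357943)))) (c (c (a (a (l 4) (l 136600092871)) (a (l 16777280) (l 16777136))) (l 57680068983)) (l 16777224)))) (c (b (b (a (l 4) (a (l 204245827799) (a (l 129083900087) (l 54995714231)))) (a (a (l 4) (a (l 143579414727) (l 75933679799))) (l 16777232))) (a (a (b (l 16777272) (l 16777072)) (l 16777064)) (l 16776968))) (l 15804138151))) (l 63585649863))) (c (c (b (a (a (a (b (b (l 48553263255) (l 16777088)) (l 16776904)) (l 16776920)) (l 16776696))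 (l 16776656)) (l 16776208)) (l 16776512)) (l 16776448))) (b (c (c (b (b (a (l 4) (b (a (l 4) (a (l 125862674679) (l 23857201335))) (a (a (l 153779962071) (a (l 65733132471) (l 16777192))) (l 16777112)))) (b (a (a (l 4) (a (l 165591122151) (a (l 81839259847) (l 16777200)))) (l 16777056)) (c (a (a (a (l 175254798583) (l 72175583415)) (l 16777128)) (l 16776928)) (l 16777224)))) (c (c (a (b (l 16777048) (l 16776752)) (l 16776608)) (l 16776752)) (l 16776752))) (b (a (c (l 111904031511) (l 112440902423)) (l 16777440)) (l 16776736))) (b (l 53385102487) (l 16776688))) (c (c (b (l 16776168) (l 16775752)) (l 16775952)) (l 16775840))))) (c (c (b (b (c (a (l 16775512) (l 16774968)) (l 16775280)) (l 16773944)) (c (l 16772696) (l 16772784))) (b (l 16774672) (l 16772584))) (b (l 16774440) (l 16772160)))), by decide +kernel⟩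

def k53_pm_011_t : ∃ t, chk3 f_pm_011_t t 282 1992 4 = true :=
  ⟨(b (a (l 4) (a (b (l 4) (b (l 4) (c (a (l 4) (a (l 4) (a (l 153243091159) (l 36205232327)))) (l 150558737191)))) (c (a (a (b (l 4) (b (a (l 124788932855) (l 16777304)) (l 16777112))) (b (b (l 4) (a (l 111904030951) (l 16777192))) (l 16777040))) (a (b (a (b (l 99555999959) (l 16777128)) (l 16777200)) (l 16776904)) (l 16776896))) (a (l 46942651095) (l 16776952))))) (a (b (l 4) (b (l 4) (b (l 4) (a (l 4) (a (l 4) (a (l 4) (a (l 4) (l 16777216)))))))) (b (a (b (c (a (l 4) (a (a (l 165591122151) (l 63585648807)) (l 16777120))) (l 93113549511)) (c (a (a (l 4) (a (l 177939153143) (l 75396808887))) (l 16777064)) (l 16777512))) (a (l 16776768) (l 16776576))) (c (a (a (c (a (b (a (l 202635215063) (l 85060485319)) (l 16777152)) (l 16777080)) (l 16777144)) (l 16776880)) (l 16776480)) (l 16776728))))), by decide +kernel⟩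

def k54_pm_011_t : ∃ t, chk3 f_pm_011_t t 282 1993 4 = true :=
  ⟨(a (c (b (a (a (l 4) (a (l 4) (a (l 4) (b (l 4) (l 217667600583))))) (b (b (a (l 4) (a (a (l 4) (l 114051514599)) (c (l 16777240) (l 16777160)))) (a (a (l 4) (a (l 4) (l 126399545591))) (a (a (l 23320330423) (l 16777136)) (l 16777040)))) (a (a (a (b (l 4) (l 64659390631)) (b (l 140358189319) (l 16777160))) (a (b (l 36205232327) (l 16777088)) (l 16777088))) (l 16776920)))) (a (a (b (a (l 4) (l 234310598919)) (b (a (l 4) (a (a (l 145190027463) (l 72712454343)) (l 16777184))) (a (a (a (l 160222413015) (l 104924709031)) (l 16777272)) (l 16777096)))) (b (c (a (b (l 181697249607) (a (l 85597356231) (l 16777176))) (a (b (l 72712454327) (l 16777112)) (l 16777104))) (c (l 32984007111) (l 16777192))) (l 16776960))) (c (c (l 16776584) (l 16776672)) (l 16776680)))) (a (b (l 233236857511) (a (c (l 98482258663) (l 98482258663)) (l 16777080))) (a (b (c (l 78618034935) (l 16777592)) (l 16776792)) (l 16776776)))) (c (c (a (c (b (l 16776544) (l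 16776120)) (l 16776056)) (l 16775672)) (l 16775952)) (l 16776072))), by decide +kernel⟩

def k55_pm_011_t : ∃ t, chk3 f_pm_011_t t 282 997 4 = true :=
  ⟨(c (a (a (b (b (a (a (l 16776880) (l 16776784)) (l 16776584)) (l 16776056)) (l 16775304)) (b (b (l 16776176) (l 16775680)) (l 16774928))) (c (b (l 16775016) (l 16774088)) (l 16774288))) (a (b (l 16776152) (l 16775112)) (l 16774504))), by decide +kernel⟩

def k56_pm_011_t : ∃ t, chk3 f_pm_011_t t 283 498 4 = true :=
  ⟨(c (b (a (c (b (a (b (l 16776472) (l 16776048)) (l 16775760)) (l 16774856)) (b (l 16775712) (l 16775040))) (c (b (l 16774616) (l 16773936)) (l 16774456))) (a (c (l 16773184) (l 16773536)) (l 16771840))) (b (a (c (l 16774832) (l 16775440)) (l 16774336)) (l 16772816))), by decide +kernel⟩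

def k57_pm_011_t : ∃ t, chk3 f_pm_011_t t 141 498 5 = true :=
  ⟨(b (a (a (a (b (l 4) (b (l 235921212055) (l 42647684199))) (b (l 231089374119) (c (l 16777560) (l 16776888)))) (b (a (b (l 165591123383) (l 16777136)) (l 16777464)) (l 16775968))) (c (l 16774768) (l 16774632))) (a (a (l 16775160) (l 16774264)) (l 16772432))), by decide +kernel⟩

def k58_pm_011_t : ∃ t, chk3 f_pm_011_t t 141 499 2 = true :=
  ⟨(b (c (a (a (c (b (l 16774200) (l 16773200)) (l 16773544)) (c (l 16772304) (l 16772424))) (c (c (l 16770952) (l 16770992)) (l 16770728))) (a (l 16772608) (l 16770160))) (c (a (c (c (l 16771080) (l 16771168)) (l 16770896)) (c (l 16769048) (l 16768640))) (a (l 16770328) (l 16762648)))), by decide +kernel⟩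

def k59_pm_011_t : ∃ t, chk3 f_pm_011_t t 70 249 3 = true :=
  ⟨(a (a (b (l 4) (b (b (a (l 4) (c (c (c (l 82913003127) (l 82913003127)) (l 84523615975)) (c (l 83986745159) (l 87207970583)))) (c (c (a (a (l 162369898135) (l 16777792)) (l 16776224)) (a (l 94724163383) (l 16776168))) (a (a (l 155927447591) (l 16777848)) (l 16776072)))) (c (c (a (l 16775688) (l 16769112)) (l 16774888)) (c (l 16774752) (l 16774600))))) (b (b (l 4) (b (a (l 4) (c (c (c (l 59827553783) (l 61975037367)) (l 16777920)) (c (l 66270004775) (l 16777896)))) (a (c (c (c (l 70564972119) (l 72175584791)) (l 74323068551)) (c (l 73249326839) (l 76470552263))) (c (l 16776016) (l 16775872))))) (c (c (b (l 16774848) (l 16769744)) (l 16773392)) (c (a (l 16773912) (l 16767184)) (l 16772280))))) (a (b (c (c (b (a (b (l 240216179959) (c (l 16777848) (l 16777848))) (c (l 16777808) (l 16777616))) (l 16774672)) (b (a (b (l 241289921767) (l 16777184)) (l 16776432)) (l 16774528))) (b (a (b (l 242900534471) (c (l 16777984) (l 16777144))) (b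 (c (l 16777056) (l 16777040)) (l 16775664))) (l 16774296))) (c (c (b (l 16766952) (l 16764472)) (a (l 16766048) (l 16764648))) (b (l 16767512) (l 16763344)))) (c (c (b (l 16773256) (l 16763728)) (b (l 16773032) (l 16762568))) (b (b (l 16774096) (l 16766024)) (c (l 16762040) (l 16761488)))))), by decide +kernel⟩

def k60_pm_011_t : ∃ t, chk3 f_pm_011_t t 568 248 2 = true :=
  ⟨(b (l 4) (b (a (b (l 4) (b (c (b (b (l 4) (c (a (l 4) (a (l 4) (a (l 153779962119) (l 46942650583)))) (l 153779962679))) (c (b (a (l 4) (a (a (l 176328540407) (l 74323067063)) (l 16777128))) (a (a (l 4) (a (l 204245827799) (l 88281710791))) (l 16777112))) (l 65196262151))) (l 98482259127)) (c (c (a (b (a (b (a (l 4) (l 101703483607)) (l 16777240)) (c (l 16777088) (l 16777088))) (l 16776912)) (l 16776600)) (l 16776888)) (l 16776856)))) (b (b (l 4) (c (c (b (a (l 4) (b (l 231626244359) (a (l 4) (a (l 92576678103) (l 16777176))))) (b (a (l 4) (a (a (l 106535321831) (l 16777192)) (l 16777088))) (a (a (l 4) (a (l 120493965559)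 (l 16777200))) (l 16777032)))) (a (l 151095608231) (l 41573941959))) (l 87207969927))) (c (c (b (b (a (a (b (a (l 149484994775) (l 31373394119)) (l 16777120)) (l 16777048)) (l 16776848)) (l 16776656)) (l 16776280)) (l 16776584)) (l 16776528)))) (c (c (c (b (a (c (l 16776056) (l 16776152)) (l 16775600)) (l 16774872)) (b (l 16775872) (l 16774872))) (l 16774968)) (l 16775136)))), by decide +kernel⟩

def k61_pm_011_t : ∃ t, chk3 f_pm_011_t t 569 248 2 = true :=
  ⟨(b (a (l 4) (b (l 4) (b (l 4) (b (l 4) (c (c (b (a (l 4) (a (a (l 226794406087) (b (l 4) (l 72175583415))) (b (a (l 152169349383) (l 49090134215)) (l 16777128)))) (b (a (a (l 4) (a (l 203708956887) (l 87207968967))) (l 16777072)) (a (a (a (l 4) (l 101166612695)) (l 16777152)) (l 16776952)))) (a (l 115125257095) (l 16777128))) (l 16777728)))))) (c (c (b (b (b (a (b (a (l 4) (c (a (c (l 209614536919) (l 164517380551)) (b (a (l 4) (l 128010158263)) (l 16777248))) (l 94187291143))) (a (c (b (l 218204471527) (a (l 173107315015) (a (l 60364423351)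 (l 16777160)))) (l 104387838503)) (a (a (b (l 39963328711) (l 16777096)) (l 16777088)) (l 16776984)))) (a (a (a (b (l 16777216) (l 16776888)) (l 16776944)) (l 16776840)) (l 16776640))) (a (a (a (b (a (b (l 79154905287) (l 16777112)) (l 16777112)) (l 16776896)) (l 16776888)) (l 16776680)) (l 16776280))) (a (b (l 16776160) (l 16775824)) (l 16775376))) (c (b (l 16774792) (l 16773792)) (l 16774280))) (b (a (b (b (a (l 136063222647) (l 16777496)) (l 16776800)) (l 16776016)) (l 16775968)) (l 16774160))) (b (b (c (a (l 12046042263) (l 16776456)) (l 16776736)) (l 16775608)) (l 16773912)))), by decide +kernel⟩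

def k62_pm_011_t : ∃ t, chk3 f_pm_011_t t 570 496 4 = true :=
  ⟨(b (l 4) (b (b (a (l 4) (a (l 4) (a (l 4) (a (l 4) (b (l 4) (b (l 4) (l 116198998247))))))) (c (a (a (l 4) (a (l 4) (b (l 4) (l 231626244343)))) (a (a (b (l 4) (a (b (l 4) (l 67343745255)) (b (l 168275476711) (l 16777168)))) (b (c (l 213909504231) (l 170959831511)) (a (b (l 50700746967) (l 16777104)) (l 16777096)))) (b (a (a (b (l 4) (l 16777312)) (b (l 124252061943) (l 16777144))) (b (l 16777248) (l 16777048))) (l 16776928)))) (a (l 236458082999) (a (l 79691776823) (l 16777048))))) (c (b (a (b (a (l 4) (a (b (l 4) (a (l 108682805463) (l 16777184))) (a (b (l 94724161735) (l 16777120)) (l 16777120)))) (a (a (b (l 4) (a (l 137136963831) (l 16777288))) (a (b (l 122641449191) (l 16777144)) (l 1845493815))) (l 16776968))) (a (l 16776744) (l 16776552))) (a (a (a (l 16776912) (l 16776800)) (l 16776600)) (l 16776192))) (a (a (b (l 100629742407) (l 16776848)) (l 16776832)) (l 16776400))))), by decide +kernel⟩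

def k63_pm_011_t : ∃ t, chk3 f_pm_011_t t 571 496 4 = true :=
  ⟨(b (b (l 4) (b (a (l 4) (c (a (l 4) (c (b (l 4) (a (l 233773728007) (b (l 177402282311) (a (l 81302388935) (l 16777176))))) (l 188676571463))) (l 202635215351))) (b (a (l 4) (b (a (l 4) (a (a (l 106535321815) (l 16777184)) (l 16777080))) (a (a (l 4) (a (l 121030836455) (l 16777272))) (l 16777024)))) (a (b (l 4) (c (a (l 4) (a (l 4) (a (l 145190027527) (l 16777312)))) (l 152706220839))) (a (b (a (a (a (l 183844733159) (l 112977772775)) (l 21172846823)) (l 16777104)) (l 16777048)) (l 16776832)))))) (c (a (b (a (b (a (b (l 4) (b (a (l 4) (l 95261032663)) (l 16777160))) (b (a (l 231626244311) (b (l 4) (l 79691776199))) (l 16777088))) (l 16776616)) (b (b (a (b (a (l 174181056743) (l 57143197911)) (l 16777136)) (l 16777064)) (l 16776888)) (l 16776512))) (a (l 16775872) (l 16775768))) (b (b (a (l 16776736) (l 16776464)) (l 16776104)) (l 16775360))) (b (a (a (b (l 62511907607) (l 16776760)) (l 16776736)) (l 16776312)) (l 16775552)))),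 by decide +kernel⟩

def k64_pm_011_t : ∃ t, chk3 f_pm_011_t t 285 497 4 = true :=
  ⟨(c (b (b (a (a (a (l 16776040) (l 16775856)) (l 16775448)) (l 16774472)) (c (a (l 16774712) (l 16773640)) (l 16774144))) (c (a (l 16773216) (l 16772144)) (l 16772640))) (b (a (l 16774464) (l 16773984)) (l 16772464))), by decide +kernel⟩

def k65_pm_011_t : ∃ t, chk3 f_pm_011_t t 285 248 5 = true :=
  ⟨(b (a (b (l 4) (b (a (l 240216179687) (a (l 125325805207) (l 57680070007))) (c (l 16777360) (l 16776632)))) (b (b (l 4) (a (l 224646923127) (a (l 100629743143) (l 39426458871)))) (c (b (l 16776568) (l 16775464)) (l 16775952)))) (c (b (l 16774408) (l 16772208)) (l 16773104))), by decide +kernel⟩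

def k66_pm_011_t : ∃ t, chk3 f_pm_011_t t 143 248 4 = true :=
  ⟨(b (a (b (c (a (a (a (b (l 4) (b (a (b (c (l 219278213351) (l 175791669719)) (a (b (l 60901294295) (l 16777104)) (l 16777104))) (b (c (b (l 155927445799) (l 16777304)) (l 16777224)) (l 16777000))) (l 16776696))) (b (b (l 4) (c (b (l 4) (c (a (l 203708956871) (b (l 132305125639) (l 16777160))) (a (l 156464316871) (l 50700747079)))) (l 173107314951))) (b (a (b (b (l 16777296) (l 16777048)) (l 16776864)) (l 16776856)) (l 16776424)))) (b (a (b (l 4) (b (b (a (l 4) (a (l 175791669495) (l 72175583415))) (a (a (l 204245827799) (l 88281710791)) (l 16777144))) (c (l 16777064) (l 16777024)))) (b (b (l 4) (a (b (l 4) (a (l 151632478471) (l 48016392391))) (b (a (l 135526351095) (l 16777208)) (l 16777120)))) (c (l 16776856) (l 16776872)))) (a (c (l 16776320) (l 16776392)) (l 16775968)))) (a (b (b (a (b (a (b (l 4) (a (l 120493965543) (l 16777192))) (a (b (l 105461579991) (l 16777128)) (l 16777128))) (l 16776976)) (l 16776664)) (l 16776384))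 (l 16775640)) (b (b (l 16776344) (l 16775928)) (l 16775176)))) (a (b (a (b (l 4) (l 190287184327)) (b (l 178476024199) (l 16777008))) (a (b (l 16777544) (l 16776528)) (l 16776216))) (b (c (l 16776664) (l 16776400)) (l 16775360)))) (c (a (c (b (c (l 16775456) (l 16775552)) (l 16774552)) (l 16774688)) (b (l 16774456) (l 16773456))) (a (l 16774936) (l 16773792)))) (a (c (b (b (a (l 16775464) (l 16775088)) (l 16774360)) (l 16772536)) (b (l 16774744) (l 16772656))) (c (b (c (l 16773480) (l 16773728)) (l 16771776)) (l 16772472)))) (c (a (b (a (l 16772896) (l 16771968)) (l 16769872)) (b (l 16770328) (l 16768336))) (a (b (l 16772272) (l 16770184)) (l 16768944)))), by decide +kernel⟩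

def k67_pm_011_t : ∃ t, chk3 f_pm_011_t t 143 248 5 = true :=
  ⟨(b (b (a (a (b (a (l 208540795655) (a (l 81839261095) (l 16777128))) (l 16776448)) (c (l 16775824) (l 16775752))) (l 16773952)) (a (c (l 16774224) (l 16774072)) (l 16771704))) (c (a (l 16770920) (l 16768536)) (l 16769352))), by decide +kernel⟩

def k68_pm_011_t : ∃ t, chk3 f_pm_011_t t 71 249 2 = true :=
  ⟨(c (a (b (c (a (b (c (a (l 16773360) (l 16772288)) (l 16772168)) (c (l 16770816) (l 16770816))) (b (l 16770392) (l 16768736))) (a (b (l 16772640) (l 16770552)) (l 16769328))) (c (a (b (l 16768928) (l 16766952)) (l 16765776)) (a (l 16767424) (l 16765152)))) (a (b (c (b (l 16768544) (l 16766560)) (l 16767048)) (l 16763072)) (b (c (l 16765360) (l 16764768)) (l 16760992)))) (a (b (a (c (l 16771288) (l 16770960)) (l 16768848)) (b (l 16766504) (l 16764232))) (b (c (l 16765328) (a (l 16760720) (l 16752984))) (l 16760496)))), by decide +kernel⟩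

def k69_pm_011_t : ∃ t, chk3 f_pm_011_t t 71 124 3 = true :=
  ⟨(b (a (b (a (b (l 4) (a (l 4) (b (l 4) (c (c (l 135526353063) (l 136063223975)) (l 133378869831))))) (a (b (l 4) (b (c (c (l 124252063799) (l 122104580231)) (l 122104580567)) (c (c (l 16776600) (l 16776560)) (l 16776504)))) (b (b (l 4) (c (c (l 109756549143) (l 109756549159)) (l 108145936839))) (c (c (l 16775888) (l 16775816)) (l 16775704))))) (c (a (a (b (c (b (l 144653158759) (l 16776800)) (b (l 147337513239) (l 16776776))) (l 16774904)) (c (b (l 16776088) (l 16768400)) (l 16774736))) (c (l 16772888) (l 16772656))) (a (b (a (b (l 147337513559) (l 16776728)) (l 16775920)) (l 16773896)) (b (l 16773688) (l 16765664))))) (c (b (c (a (a (b (b (l 95261034487) (l 16776392)) (l 16774568)) (l 16774464)) (l 16772496)) (b (a (a (l 27078428775) (l 16775600)) (l 16763048)) (l 16772368))) (a (c (l 16765672) (l 16764656)) (c (l 16762408) (l 16756680)))) (a (a (b (b (b (l 97408518423) (l 16776272)) (l 16774216)) (l 16764832)) (b (l 16774104)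 (l 16763360))) (b (l 16771896) (l 16761168))))) (b (c (a (a (c (c (l 16765464) (l 16765288)) (l 16765016)) (c (l 16762744) (l 16762256))) (c (c (l 16758992) (l 16758664)) (c (l 16758328) (l 16752736)))) (a (a (b (l 16765848) (l 16763032)) (c (l 16761736) (l 16755960))) (a (l 16758536) (l 16750392)))) (c (a (c (b (l 16760368) (l 16757896)) (c (l 16758608) (l 16758248))) (c (l 16753928) (l 16752984))) (a (a (b (l 16765448) (l 16762616)) (l 16755848)) (b (l 16747656) (l 16755336)))))), by decide +kernel⟩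

def k70_pm_011_t : ∃ t, chk3 f_pm_011_t t 35 500 1 = true :=
  ⟨(c (a (a (c (a (c (b (a (c (b (l 16774424) (l 16773400)) (l 16774016)) (c (l 16772824) (l 16772944))) (c (l 16771160) (l 16771496))) (b (a (l 16773864) (l 16772744)) (l 16771224))) (c (b (c (l 16771200) (l 16771336)) (l 16769280)) (b (l 16771064) (l 16768984)))) (a (c (b (l 16773056) (l 16770840)) (l 16771616)) (a (l 16769960) (l 16768736)))) (c (c (a (b (l 16769168) (l 16767168)) (l 16764760)) (a (l 16767776) (l 16765512))) (b (a (l 16764120) (l 16760368)) (l 16764552)))) (c (a (c (a (l 16763976) (l 16761832)) (l 16762112)) (c (l 16758536) (l 16757552))) (a (l 16760816) (a (l 16746688) (l 16744264))))) (a (b (a (c (a (c (l 16769904) (l 16767000)) (a (l 16767712) (l 16766352))) (a (c (l 16766696) (l 16766384)) (l 16763496))) (c (c (l 16760664) (l 16760008)) (c (l 16759328) (l 16758616)))) (c (a (a (c (l 16764776) (l 16769584)) (c (l 16767368) (l 16766776))) (c (l 16758168) (l 16757368))) (a (a (l 16763640) (l 16760600)) (a (l 16762832)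 (l 16759856))))) (a (c (c (l 16754184) (a (l 16759800) (l 16757080))) (c (l 16746920) (l 16745840))) (c (a (l 16744472) (l 16752328)) (a (l 16752528) (l 16749680)))))), by decide +kernel⟩

def k71_pm_011_t : ∃ t, chk3 f_pm_011_t t 35 501 1 = true :=
  ⟨(c (a (a (c (a (c (b (l 16769392) (l 16767368)) (l 16768104)) (b (l 16766552) (l 16765192))) (b (b (l 16767712) (l 16766568)) (l 16764848))) (c (c (a (l 16764168) (l 16762088)) (l 16762480)) (a (c (l 16757528) (l 16756656)) (l 16754664)))) (a (c (c (l 16758984) (l 16757936)) (a (l 16752232) (l 16744560))) (c (l 16753992) (l 16743544)))) (a (a (c (a (c (l 16761008) (l 16760336)) (c (l 16758368) (l 16757544))) (a (c (l 16759624) (l 16758888)) (b (l 16762936) (l 16760016)))) (c (c (l 16753112) (a (l 16760016) (l 16757264))) (c (l 16749696) (l 16751192)))) (c (a (a (l 16749904) (l 16752496)) (c (l 16749288) (l 16747792))) (a (a (l 16752592) (l 16749696)) (l 16745416))))), by decide +kernel⟩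

def k72_pm_011_t : ∃ t, chk3 f_pm_011_t t 35 251 1 = true :=
  ⟨(b (c (a (a (c (c (a (l 16764336) (l 16762248)) (l 16762656)) (c (l 16761896) (b (l 16756856) (l 16749248)))) (a (c (l 16759976) (l 16752520)) (c (l 16757760) (l 16744848)))) (a (c (l 16754424) (b (l 16742344) (l 16740056))) (a (l 16749592) (l 16747264)))) (a (a (c (c (a (l 16761216) (l 16758576)) (c (l 16753848) (l 16753304))) (a (b (l 16760096) (l 16757144)) (l 16750376))) (a (c (l 16748768) (l 16752648)) (c (l 16752648) (l 16749704)))) (a (c (c (l 16749448) (l 16747864)) (a (l 16746800) (l 16743920))) (c (l 16732936) (l 16739672))))) (c (a (a (a (c (l 16757720) (l 16752792)) (c (l 16758152) (l 16745120))) (a (a (l 16755176) (l 16754016)) (l 16749648))) (a (c (l 16750376) (l 16736616)) (l 16741496))) (a (c (a (c (l 16744344) (a (l 16754808) (l 16752048))) (c (l 16749600) (l 16747936))) (a (b (l 16747440) (l 16749712)) (a (l 16746760) (l 16743840)))) (a (c (l 16733000) (l 16739520)) (c (l 16738264) (l 16733880)))))), by decide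 +kernel⟩

def k73_pm_011_t : ∃ t, chk3 f_pm_011_t t 34 63 1 = true :=
  ⟨(a (l 14) (a (l 14) (a (l 14) (b (b (a (l 14) (b (c (l 16752720) (c (l 16752248) (l 16748960))) (l 14))) (l 14)) (l 14))))), by decide +kernel⟩

def k74_pm_011_t : ∃ t, chk3 f_pm_011_t t 35 63 1 = true :=
  ⟨(a (b (a (a (b (c (b (a (l 16752872) (l 16754344)) (l 16745368)) (b (c (l 16750224) (l 16746720)) (c (l 16744928) (l 16740688)))) (l 14)) (b (b (c (c (l 16754128) (l 16740512)) (c (l 16747536) (l 16743752))) (c (l 16748296) (c (l 16742248) (l 16737736)))) (b (b (c (l 16745064) (l 16735776)) (l 14)) (l 14)))) (b (b (c (c (l 16750808) (l 16736872)) (c (c (l 16744528) (l 16742528)) (c (l 16740440) (l 16738264)))) (c (c (l 16746784) (l 16732248)) (c (l 16738264) (l 16733376)))) (c (b (b (l 16736424) (a (l 16735760) (l 16739200))) (b (l 16724184) (l 16716376))) (b (c (b (l 16734296) (l 16732176)) (b (l 16728792) (a (l 16727456) (l 16724896)))) (c (l 16730200) (l 16722944)))))) (a (l 14) (b (b (b (c (l 16712488) (l 16708480))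 (l 14)) (l 14)) (l 14)))) (b (b (c (a (b (a (l 16745640) (l 16743304)) (l 16740160)) (b (l 16739808) (a (l 16731568) (a (l 16735136) (l 16728824))))) (a (c (b (l 16738264) (l 16733016)) (b (l 16733624) (l 16727672))) (b (c (l 16733072) (l 16728032)) (c (b (l 16729144) (l 16726744)) (b (l 16723600) (l 16720744)))))) (b (c (a (b (c (l 16739848) (l 16734888)) (l 16726472)) (b (l 16723488) (l 16712936))) (c (b (a (l 16729416) (l 16725088)) (l 16704912)) (a (b (l 16718176) (l 16721144)) (l 16717400)))) (c (c (c (l 16723544) (l 16729640)) (l 16731760)) (c (l 16713568) (a (l 16718008) (l 16713176)))))) (b (c (c (b (a (l 16701360) (l 16695856)) (a (l 16692896) (l 16687432))) (c (l 16722088) (l 16726896))) (b (c (l 16721632) (l 16690440)) (a (l 16689408) (l 16690184)))) (c (b (a (b (l 16681128) (l 14)) (b (l 16676008) (l 16683096))) (l 16670208)) (b (c (l 16717232) (l 16682968)) (l 16689448)))))), by decide +kernel⟩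

def k75_pm_011_t : ∃ t, chk3 f_pm_011_t t 36 60 1 = true :=
  ⟨(l 4), by decide +kernel⟩

def k76_pm_011_t : ∃ t, chk3 f_pm_011_t t 37 120 1 = true :=
  ⟨(l 4), by decide +kernel⟩

def k77_pm_011_t : ∃ t, chk3 f_pm_011_t t 74 121 1 = true :=
  ⟨(l 4), by decide +kernel⟩

def k78_pm_011_t : ∃ t, chk3 f_pm_011_t t 75 242 1 = true :=
  ⟨(l 4), by decide +kernel⟩

def k79_pm_011_t : ∃ t, chk3 f_pm_011_t t 75 486 1 = true :=
  ⟨(a (l 4) (b (a (l 4) (a (l 4) (b (l 4) (c (c (c (a (a (l 4) (b (l 4) (a (l 218204471655) (b (l 4) (l 46942650727))))) (a (b (l 4) (b (a (l 138747576711) (l 16777344)) (l 16777008))) (b (b (l 232163115351) (a (l 101703483815) (l 16777152))) (l 16776848)))) (a (l 208003924727) (l 46942651719))) (l 89355454727)) (c (l 90429196551) (l 16777392)))))) (a (a (l 4) (a (l 4) (c (c (b (l 4) (c (b (l 4) (b (a (l 4) (a (l 120493965783) (l 16777344))) (a (a (l 155927445943) (l 39963328871)) (l 16777000)))) (l 100629743239))) (l 191897797607)) (c (l 141968804903) (l 16777688))))) (c (a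 (b (c (a (a (l 4) (b (l 4) (b (l 4) (l 212298891543)))) (c (a (b (l 4) (b (l 195119022311) (a (l 43184554343) (l 16777080)))) (a (b (l 4) (b (l 16777344) (l 16776936))) (b (b (l 4) (l 99556000167)) (l 16776912)))) (l 72175584743))) (l 107072195015)) (c (c (a (b (a (c (b (l 231089373511) (a (l 101703483767) (l 16777144))) (l 95261033175)) (a (b (l 74323067239) (l 16777000)) (l 16776984))) (l 16776696)) (l 16776216)) (l 16776664)) (l 16776640))) (c (c (b (a (b (a (b (a (l 184381604327) (l 75933679991)) (l 16777080)) (l 16776920)) (l 16776560)) (l 16776240)) (l 16775520)) (l 16776000)) (l 16775960))) (c (c (l 16776560) (l 16776544)) (l 16776504)))))), by decide +kernel⟩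

def k80_pm_011_t : ∃ t, chk3 f_pm_011_t t 150 487 1 = true :=
  ⟨(a (l 4) (b (a (l 4) (a (l 4) (a (l 4) (b (l 4) (b (l 4) (c (c (c (b (l 4) (a (l 148411253159) (l 31910265175))) (l 16777328)) (l 16777328)) (l 116198999063))))))) (c (a (c (a (b (l 4) (b (a (l 4) (c (l 234847470071) (l 190287184855))) (a (c (b (l 4) (a (l 139284447623) (l 22246588727))) (l 16777312)) (b (a (a (l 151095607703) (l 78618034551)) (l 16777320)) (l 16776968))))) (c (b (a (l 4) (b (l 4) (b (l 4) (l 201024602359)))) (b (b (a (l 217667600679) (a (a (l 90966065463) (l 16777192)) (l 16777088))) (b (a (a (l 161296154983) (l 16777184)) (l 16776968)) (l 16777112))) (l 16776672))) (b (l 228405019543) (l 16776928)))) (b (l 234310599911) (l 16778240))) (c (b (b (a (a (l 4) (a (l 4) (b (l 4) (a (l 132841996647) (l 56606327127))))) (a (b (a (a (l 4) (l 160759284135)) (a (l 96334774631) (l 16777360))) (l 16777184)) (l 16776936))) (c (a (a (c (a (b (l 4) (l 33520877847)) (b (l 119957094759) (l 16777056))) (l 16777216)) (b (l 16777256)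 (l 16776840))) (l 16776536)) (l 16776824))) (a (b (l 16776520) (l 16776088)) (l 16775768))) (l 16777864))) (c (c (c (l 16778424) (l 16778752)) (l 16777128)) (l 45868912167))))), by decide +kernel⟩

def k81_pm_011_t : ∃ t, chk3 f_pm_011_t t 151 487 1 = true :=
  ⟨(c (b (c (a (a (a (b (l 4) (b (a (l 4) (b (l 224646922551) (a (a (l 137136963959) (l 61975036263)) (l 16777136)))) (a (b (a (a (l 164517380519) (l 100092871015)) (l 8824815943)) (l 16776984)) (l 16776824)))) (b (c (b (l 4) (b (a (l 4) (l 189213442279)) (a (l 206393311511) (a (l 38352716119) (l 16777064))))) (l 180623508007)) (b (a (a (b (a (l 97945387383) (l 16777368)) (l 16776992)) (l 16776976)) (l 16776760)) (l 16776392)))) (b (b (c (a (a (a (l 4) (a (l 210151407911) (b (l 4) (l 78618034455)))) (b (a (l 179012895207) (a (l 111367160135) (l 16777208))) (l 16777072))) (l 16776808)) (l 16777704)) (a (a (a (b (l 13656654151) (l 16776920)) (l 16776904)) (l 16776688)) (l 16776256))) (c (c (l 16775808) (l 16775792)) (l 16775768)))) (c (a (b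 (l 16775664) (l 16774656)) (l 16774016)) (l 16774536))) (a (a (b (l 146263771799) (l 16776944)) (l 16776256)) (l 16774448))) (c (a (c (c (a (b (c (l 16775776) (l 16775936)) (l 16774944)) (l 16774304)) (l 16774520)) (l 16774808)) (a (l 16773112) (l 16771968))) (l 16773200))) (a (c (c (b (l 19025365863) (l 16774640)) (l 16775720)) (b (l 16776824) (l 16774472))) (c (l 16773208) (l 16773008)))), by decide +kernel⟩

def k82_pm_011_t : ∃ t, chk3 f_pm_011_t t 36 244 1 = true :=
  ⟨(l 4), by decide +kernel⟩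

def k83_pm_011_t : ∃ t, chk3 f_pm_011_t t 72 245 1 = true :=
  ⟨(l 4), by decide +kernel⟩

def k84_pm_011_t : ∃ t, chk3 f_pm_011_t t 146 245 1 = true :=
  ⟨(a (l 4) (a (l 4) (a (l 4) (a (l 4) (b (l 4) (b (l 4) (b (l 4) (b (l 4) (b (l 4) (c (a (b (l 4) (a (l 140895060311) (l 42647683319))) (b (a (l 121030836551) (l 16777368)) (l 16777104))) (l 16777232))))))))))), by decide +kernel⟩

def k85_pm_011_t : ∃ t, chk3 f_pm_011_t t 294 245 1 = true :=
  ⟨(b (l 4) (b (a (l 4) (a (l 4) (b (l 4) (b (l 4) (c (c (c (b (a (l 4) (a (b (l 4) (l 105461580103)) (b (l 89892323639) (l 16777136)))) (a (a (a (l 4) (l 148948124055)) (b (l 121030836567) (l 16777168))) (l 16777016))) (l 61438166023)) (l 16777240)) (c (l 16777256) (l 16777264))))))) (c (c (a (a (b (l 4) (b (c (b (c (a (l 4) (l 217130729767)) (l 224646922727)) (a (l 230015631703) (a (b (l 159148671319) (l 16777192)) (l 16777120)))) (l 113514644567)) (c (b (a (a (b (l 4) (l 53385101559)) (c (l 16777312) (l 16777144))) (l 16776936)) (l 16776824)) (l 16776944))))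 (b (c (b (l 4) (b (a (l 4) (a (l 4) (b (l 4) (l 78081163559)))) (a (a (l 4) (b (l 4) (l 108682805575))) (a (b (l 93650420023) (l 16777144)) (l 16777064))))) (l 178476024359)) (a (b (b (a (b (l 128547029335) (l 16777168)) (l 16777088)) (l 16776904)) (l 16776520)) (b (l 16776744) (l 16776232))))) (a (b (b (b (a (l 4) (a (l 225720664311) (b (l 152706220423) (l 16777352)))) (b (a (l 235384340743) (a (l 43184554215) (l 16777064))) (a (a (l 4) (l 58216939767)) (l 16777008)))) (a (a (c (b (b (l 66270003463) (l 16777112)) (l 16776920)) (l 16777048)) (l 16776904)) (l 16776688))) (c (l 16776040) (l 16776040))) (c (b (a (b (b (l 16777128) (l 16776792)) (l 16776416)) (l 16776224)) (l 16775520)) (l 16775984)))) (a (b (l 196729635719) (l 2382366359)) (c (l 16776248) (l 16776216)))) (c (c (a (a (l 97945389575) (l 16777144)) (l 16776176)) (l 16778448)) (c (l 20635978407) (l 16778056)))))), by decide +kernel⟩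

def k86_pm_011_t : ∃ t, chk3 f_pm_011_t t 295 490 1 = true :=
  ⟨(a (l 4) (b (l 4) (b (l 4) (c (c (c (a (a (l 4) (a (l 4) (b (l 4) (b (l 4) (b (l 187065958727) (l 16777368)))))) (a (b (l 4) (b (a (l 220888826087) (b (l 147874382151) (l 16777184))) (c (l 16777152) (l 16777064)))) (c (b (b (l 4) (a (a (l 4) (l 139284447623)) (a (l 79691776295) (l 16777176)))) (l 16776912)) (b (l 119420224311) (l 16776912))))) (a (l 216593859399) (b (l 138210706663) (l 16777056)))) (a (l 167738607703) (l 16777904))) (c (c (l 16777432) (l 16777440)) (l 16777440)))))), by decide +kernel⟩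

def k87_pm_011_t : ∃ t, chk3 f_pm_011_t t 295 491 1 = true :=
  ⟨(c (c (b (c (a (b (a (a (l 4) (b (l 4) (b (l 4) (l 228405018951)))) (a (b (l 4) (b (c (l 212835762471) (l 170422960743)) (a (b (l 151632478551) (l 16777184)) (l 16777112)))) (a (b (l 4) (b (b (l 116198998359) (l 16777160)) (l 16776968))) (b (b (l 4) (b (l 4) (l 100092870983))) (l 16776960))))) (b (a (b (a (l 4) (a (b (l 186529087831) (l 46405779703)) (l 16777304))) (a (a (b (l 4) (l 77007421719)) (a (l 35668361479) (l 16777136))) (l 16776960))) (l 16776664)) (a (a (l 16776864) (l 16776584)) (l 16776160)))) (b (a (b (a (a (b (l 4) (b (l 86671098151) (l 16777136))) (b (b (l 4) (l 70564970775)) (l 16777056))) (a (a (b (l 32984006903) (l 16776952)) (l 16777008)) (l 16776896))) (l 16776608)) (c (l 16776136) (l 16776288))) (c (l 16775576) (l 16775552)))) (a (b (a (l 236994954215) (b (l 220351955543) (l 16777152))) (a (c (l 16777632) (l 16776976)) (l 16776384))) (b (l 16777056) (l 16775512)))) (c (a (b (a (l 16775968) (l 16775400)) (l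 16774680)) (c (l 16774080) (l 16774032))) (l 16774536))) (b (a (b (a (l 240216179671) (l 78618035879)) (l 16776656)) (l 16775976)) (l 16774400))) (b (c (c (a (l 41037072727) (l 16775912)) (l 16776536)) (a (l 16778488) (l 16775792))) (c (l 16774192) (l 16773976)))), by decide +kernel⟩

def k88_pm_011_t : ∃ t, chk3 f_pm_011_t t 144 246 1 = true :=
  ⟨(l 4), by decide +kernel⟩

def k89_pm_011_t : ∃ t, chk3 f_pm_011_t t 145 492 1 = true :=
  ⟨(l 4), by decide +kernel⟩

def k90_pm_011_t : ∃ t, chk3 f_pm_011_t t 145 986 1 = true :=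
  ⟨(a (l 4) (a (b (l 4) (c (a (a (l 4) (c (c (b (l 4) (b (l 4) (b (l 223573180663) (a (l 185992216919) (l 33520877783))))) (l 209077666439)) (l 158074930935))) (c (b (a (l 4) (b (l 4) (c (c (a (b (l 4) (l 134989480199)) (b (l 108682805543) (l 16777152))) (l 83986743783)) (l 16777248)))) (c (a (b (a (l 215520116951) (b (l 139284447559) (l 16777176))) (c (c (l 3992977303) (l 16777064)) (l 16777056))) (c (c (l 16776912) (l 16776912)) (l 16776904))) (l 16777048))) (l 57680070151))) (c (c (l 100092872743) (l 16777440)) (l 16778096)))) (c (b (b (a (l 4) (c (c (a (c (b (l 4) (l 224110051655)) (l 230552502759)) (b (b (l 4) (l 202635215047)) (a (b (l 145726898519) (l 16777184)) (l 16777112)))) (l 110830289991)) (l 16777352))) (c (c (a (b (l 4) (a (l 4) (b (a (l 4) (l 53921972471)) (a (l 67880616199) (l 16777096))))) (b (a (a (b (l 184381604167) (l 40500199655)) (c (l 16777256) (l 16777136))) (l 16776928)) (l 16776816))) (a (l 119957095655) (l 16776936))) (l 47479522871))) (c (c (b (a (a (c (b (a (b (l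 4) (l 99556000007)) (b (l 76470550823) (l 16777128))) (l 16777008)) (l 16777456)) (l 16776856)) (l 16776440)) (a (l 16776488) (l 16775936))) (l 16776768)) (l 16776392))) (c (c (b (l 16778184) (l 16776336)) (l 16776912)) (l 16778512))))), by decide +kernel⟩

def k91_pm_011_t : ∃ t, chk3 f_pm_011_t t 145 987 2 = true :=
  ⟨(c (a (a (a (l 4) (b (l 4) (b (l 4) (b (a (l 4) (a (b (l 4) (a (l 142505672951) (l 16777208))) (a (b (l 124788932839) (l 16777144)) (l 16777216)))) (a (a (b (l 4) (a (l 173107314983) (l 64659390727))) (b (a (l 159685542151) (l 44795166967)) (l 16777128))) (l 16776984)))))) (c (b (a (a (l 4) (a (l 4) (b (l 4) (b (l 4) (l 206393311447))))) (b (a (l 4) (a (l 4) (b (l 4) (b (l 4) (a (l 151632478471) (l 16777216)))))) (a (a (b (l 4) (b (l 131231383863) (l 16777168))) (b (a (l 4) (b (l 4) (l 93113548999))) (l 16777096))) (a (b (b (a (l 179012894967) (l 16777304)) (l 16777144)) (l 16776952)) (l 16776944))))) (b (a (a (a (b (l 4) (b (l 188139700567) (a (l 101166612695) (l 16777184))))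 (b (l 225183793399) (b (l 34057748711) (l 16777080)))) (b (a (b (l 157001187671) (l 16777312)) (l 16777240)) (l 16776936))) (c (l 16776656) (l 16776640))) (c (a (l 16776536) (l 16776152)) (l 16776416)))) (b (a (l 232699986887) (b (l 216056988215) (l 16777632))) (a (b (l 39963329431) (l 16776680)) (l 16776360))))) (c (a (a (b (b (b (a (a (l 4) (b (l 4) (a (l 114051514599) (l 16777192)))) (a (b (l 47479521511) (l 16777088)) (l 16777016))) (c (a (a (b (l 67880616215) (l 16777120)) (l 16777040)) (l 16776840)) (l 16776976))) (l 16776512)) (l 16775760)) (b (b (l 16776376) (l 16776040)) (l 16775288))) (c (b (l 16775392) (l 16774480)) (l 16774936))) (a (b (a (l 2382364919) (l 16776256)) (l 16775496)) (l 16774864)))) (b (a (a (l 4) (c (l 164517380663) (l 113514645671))) (c (l 16775920) (l 16775864))) (a (a (a (l 4) (l 99019130663)) (l 16776624)) (l 16774776)))), by decide +kernel⟩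

def k92_pm_011_t : ∃ t, chk3 f_pm_011_t t 145 987 3 = true :=
  ⟨(c (c (a (a (l 203708958007) (c (l 16778312) (l 38889588903))) (l 16775216)) (a (a (l 204782699831) (l 16777168)) (l 16775136))) (a (a (l 205319570727) (b (l 117809613143) (l 16776496))) (l 16775000))), by decide +kernel⟩

def k93_pm_011_t : ∃ t, chk3 f_pm_011_t t 144 988 1 = true :=
  ⟨(a (l 4) (a (b (l 4) (b (l 4) (a (l 4) (c (c (a (c (c (b (l 4) (l 227331277143)) (l 232699986423)) (l 233773728247)) (c (b (a (l 4) (l 206393311447)) (a (b (l 157001187671) (l 22783459527)) (a (l 16777232) (l 16777088)))) (l 78618034983))) (l 110830290183)) (c (l 117272741047) (l 16777368)))))) (a (b (l 4) (c (c (b (a (a (l 4) (a (l 4) (b (l 4) (b (l 4) (l 101166612679))))) (a (b (l 4) (b (a (l 172570444071) (l 64122519815)) (l 16777144))) (b (b (l 4) (a (l 159685542151) (l 44795166967))) (l 16777064)))) (c (c (a (a (b (b (l 128547029303) (l 16777168)) (l 16776984)) (l 16776976)) (l 16776768)) (l 16776904)) (l 16776888))) (l 27078428119)) (c (l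 29762782519) (l 16777112)))) (c (c (b (b (l 4) (a (a (l 4) (b (l 4) (b (l 4) (a (l 125325803751) (l 16777200))))) (c (b (b (l 227331277047) (a (l 188676571479) (l 35131490535))) (a (a (b (l 102240354519) (l 16777128)) (l 16777128)) (l 16777016))) (l 16777200)))) (c (b (b (b (a (a (a (l 136600092919) (l 16777208)) (l 16777104)) (l 16776904)) (l 16776912)) (l 16776728)) (l 16776352)) (l 16776576))) (b (l 116735870887) (l 16776528))) (c (c (l 16778072) (l 16777072)) (l 16777040)))))), by decide +kernel⟩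

def k94_pm_011_t : ∃ t, chk3 f_pm_011_t t 288 989 1 = true :=
  ⟨(a (b (l 4) (c (c (a (l 4) (c (b (l 4) (a (l 4) (c (b (l 4) (a (l 4) (b (l 4) (a (l 153779962071) (l 16777208))))) (l 203708957063)))) (l 221962568583))) (l 228405019863)) (c (l 233773728951) (l 185455348647)))) (c (b (b (l 4) (b (l 4) (c (a (l 4) (a (l 4) (a (a (l 4) (b (l 4) (l 112440901847))) (b (a (l 4) (l 96334774471)) (l 16777152))))) (l 147874383719)))) (c (c (a (a (b (l 4) (a (b (l 4) (a (b (l 124788932855) (l 16777144)) (l 16777144))) (b (b (l 4) (a (l 108145934567) (l 16777192))) (l 16777040)))) (b (c (b (l 4) (b (l 223036309751) (a (l 182770991447) (l 26541555927)))) (l 185992216903)) (c (a (b (b (l 39426457831) (l 16777088)) (l 16776904)) (l 16776896)) (l 16776960)))) (b (a (b (a (l 214983246039) (b (a (l 4) (l 123178320103)) (l 16777336))) (a (b (l 17951621319) (l 16777064)) (l 16776992))) (a (b (l 16777184) (l 16776856)) (l 16776840))) (l 16776464))) (a (b (l 201024602615) (l 16777584)) (c (l 16776792) (l 16776776))))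 (a (a (l 99556001303) (l 16777192)) (l 16776752)))) (c (c (b (l 173644188167) (l 16777048)) (l 78081166023)) (b (l 173107317543) (l 16777008))))), by decide +kernel⟩

def k95_pm_011_t : ∃ t, chk3 f_pm_011_t t 289 989 1 = true :=
  ⟨(b (c (a (c (a (b (a (l 4) (b (l 4) (a (b (l 4) (a (l 138747576567) (l 16777208))) (a (b (l 122104578279) (l 16777136)) (l 16777240))))) (c (a (b (a (a (l 183844733335) (b (l 4) (l 73249325239))) (a (b (l 150558736647) (l 16777168)) (l 7751073927))) (l 16777008)) (l 16776824)) (l 16777000))) (c (b (b (a (a (b (l 187065958743) (a (l 99019129047) (l 16777184))) (b (l 35668361431) (l 16777080))) (l 16776936)) (l 16776664)) (l 16776448)) (l 16776680))) (a (c (l 46942651751) (l 16777216)) (l 16776640))) (c (c (c (a (l 16776080) (l 16775616)) (l 16775856)) (l 16775816)) (l 16775720))) (c (c (l 16776280) (l 16776232)) (l 16776152))) (c (c (c (a (a (b (l 16776496) (l 16776000)) (l 16775696)) (l 16774784)) (l 16775344)) (l 16775216)) (c (l 16775032) (l 16774832)))), by decide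 +kernel⟩

def k96_pm_011_t : ∃ t, chk3 f_pm_011_t t 145 494 1 = true :=
  ⟨(c (c (a (b (c (a (a (b (b (a (b (l 4) (a (l 216593858791) (b (l 145726898503) (l 16777184)))) (b (c (a (b (l 4) (l 129620771127)) (b (l 116735869223) (l 16777160))) (l 87744840167)) (c (l 16777120) (l 16777040)))) (a (a (b (b (l 26004684999) (l 16777072)) (l 16776880)) (l 16776872)) (l 16776664))) (c (l 16776056) (l 16776032))) (b (b (a (a (l 16776960) (l 16776816)) (l 16776608)) (l 16776248)) (l 16775496))) (c (b (c (l 16775608) (l 16775672)) (l 16774688)) (l 16774816))) (a (a (b (a (b (l 131768255335) (l 16776928)) (l 16776904)) (l 16776000)) (l 16775944)) (l 16775080))) (c (a (b (l 16774768) (l 16773768)) (l 16773160)) (l 16773568))) (c (b (c (a (l 16773928) (l 16772984)) (l 16773464)) (c (l 16771552) (l 16771440))) (b (l 16773352) (l 16771264)))) (a (b (c (a (b (l 16776752) (l 16775648)) (l 16774992)) (l 16775528)) (l 16773328)) (c (l 16772104) (l 16771896)))) (c (c (a (b (l 16775448) (l 16767832)) (l 16771672)) (a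 (l 16774128) (l 16760944))) (a (b (l 16775248) (l 16767360)) (l 16771056)))), by decide +kernel⟩

def k97_pm_011_t : ∃ t, chk3 f_pm_011_t t 72 495 1 = true :=
  ⟨(c (a (c (c (a (b (a (b (b (a (a (l 4) (c (b (l 4) (a (l 4) (l 201024602311))) (l 220888826311))) (a (b (a (l 4) (a (l 232163115223) (b (l 4) (l 80765518023)))) (a (b (a (l 4) (l 96871645399)) (l 16777160)) (l 16777088))) (a (b (b (a (l 173107314919) (l 16777304)) (l 16777136)) (l 16776952)) (l 16776936)))) (a (b (b (a (l 4) (a (l 148411253063) (l 16777168))) (a (l 219278213351) (a (l 16777304) (l 16777048)))) (a (b (a (l 180086636871) (l 27078426823)) (a (a (l 85060485319) (l 16777176)) (l 16777072))) (l 16776928))) (c (l 16776488) (l 16776640)))) (c (a (b (l 16776536) (l 16776200)) (l 16775904)) (l 16776152))) (c (b (a (a (l 16776408) (l 16776216)) (l 16775808)) (l 16775096)) (b (l 16776056) (l 16775048)))) (c (a (b (l 16774864) (l 16774200)) (l 16773608)) (a (l 16774640) (l 16773528)))) (b (c (a (b (l 16774992) (l 16774000)) (l 16773408))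 (a (l 16774440) (l 16773328))) (c (l 16771648) (l 16771856)))) (a (b (a (b (a (b (l 226257535607) (a (l 83986744119) (l 16777048))) (b (c (l 20635976503) (l 16777136)) (l 16776616))) (l 16776120)) (l 16775496)) (l 16773896)) (b (l 16773776) (l 16771680)))) (a (b (a (b (a (a (l 129083901511) (l 60364424519)) (l 16776864)) (l 16776040)) (l 16775376)) (l 16773744)) (c (l 16772528) (l 16772312)))) (a (c (c (b (c (l 16771760) (l 16771648)) (l 16769704)) (l 16770432)) (l 16769984)) (c (c (b (l 16769488) (l 16767488)) (l 16768128)) (l 16767544)))) (a (a (b (c (c (c (l 16775920) (l 16775888)) (l 16775840)) (a (l 16777768) (l 16775008))) (c (l 16773416) (l 16773040))) (c (c (l 16772088) (l 16766616)) (l 16771488))) (c (c (a (l 16764256) (l 16756432)) (b (l 16758568) (l 16756080))) (a (l 16763368) (l 16755280))))), by decide +kernel⟩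

def k98_pm_011_t : ∃ t, chk3 f_pm_011_t t 292 492 2 = true :=
  ⟨(b (a (l 4) (c (b (l 4) (a (l 4) (a (l 4) (a (l 4) (b (l 4) (b (l 4) (l 225183793399))))))) (l 241289922487))) (a (b (l 4) (a (b (l 4) (c (c (a (a (l 4) (b (l 4) (b (l 4) (l 100629741879)))) (b (a (l 4) (b (l 4) (l 72712454423))) (a (b (l 86134227239) (l 16777136)) (l 16777056)))) (l 96871646215)) (l 16777320))) (c (c (b (a (a (l 4) (b (l 4) (b (l 185992216919) (l 48553263335)))) (b (a (l 222499438839) (b (l 152706220375) (l 16777184))) (a (a (l 5603590391) (l 16777104)) (l 16777000)))) (b (b (a (a (l 58753810695) (l 16777088)) (l 16776880)) (l 16776896)) (l 16776704))) (b (l 79154906119) (l 16776824))) (l 16777088)))) (c (c (b (b (a (l 4) (b (a (l 4) (a (b (l 188676571479) (l 49627005175)) (c (l 16777304) (l 16777144)))) (a (a (b (l 4) (l 78618034455)) (b (l 64122519815) (l 16777112))) (l 16776960)))) (b (a (a (l 4) (a (b (l 4) (l 104387838279)) (b (l 89892323639) (l 16777136)))) (l 16776848)) (a (a (a (b (l 4) (l 138747576647))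 (b (l 118883352919) (l 16777160))) (l 16777016)) (l 16776600)))) (c (a (a (a (b (l 16777072) (l 16776488)) (l 16776600)) (l 16776392)) (l 16775984)) (l 16776240))) (b (a (b (l 4) (l 60901295111)) (b (l 47479522231) (l 16776704))) (l 16776216))) (a (b (l 104387839815) (l 16776464)) (l 16776408))))), by decide +kernel⟩

def k99_pm_011_t : ∃ t, chk3 f_pm_011_t t 292 493 2 = true :=
  ⟨(c (c (b (a (b (b (a (a (a (b (b (l 112977772887) (l 16777160)) (l 16776968)) (l 16776960)) (l 16776744)) (l 16776328)) (c (l 16776032) (l 16776096))) (c (l 16775368) (l 16775336))) (c (b (l 16775256) (l 16774264)) (l 16774712))) (c (a (l 16773872) (l 16772768)) (l 16773248))) (b (a (b (l 16776328) (l 16775280)) (l 16774648)) (l 16773136))) (c (b (l 16775144) (l 16772976)) (l 16773936))), by decide +kernel⟩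

def k100_pm_011_t : ∃ t, chk3 f_pm_011_t t 293 246 2 = true :=
  ⟨(c (c (b (b (a (b (a (l 4) (b (l 4) (b (l 4) (b (l 4) (a (l 4) (a (l 4) (l 52848230647))))))) (b (b (a (l 4) (a (a (l 4) (b (l 4) (l 78618034471))) (a (b (l 67343745287) (l 16777112)) (l 16777032)))) (b (a (l 4) (a (a (l 93650420023) (l 16777128)) (l 16776912))) (a (a (l 4) (a (l 4) (l 108145934663))) (l 16776928)))) (a (a (b (c (l 216056987943) (l 171496702583)) (a (b (l 157001187671) (l 16777192)) (l 16777120))) (a (b (b (l 123178320215) (l 16777168)) (l 16776976)) (l 16776968))) (l 16776448)))) (a (a (b (b (l 4) (b (a (l 227868147959) (b (l 159685542231) (l 16777192))) (a (a (l 9898557703) (l 16777112)) (l 16777008)))) (l 16776368)) (b (a (b (a (l 4) (b (l 4) (l 151632478615))) (c (l 16777080) (l 16776992))) (b (b (l 4) (b (l 130694512951) (l 16777168))) (l 16776856))) (l 16776168))) (b (b (a (b (a (b (l 4) (l 109756547399)) (b (l 94724161847) (l 16777144))) (l 16777024)) (l 16776864)) (l 16776504)) (l 16775744)))) (a (c (b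 (c (a (l 16776344) (l 16775880)) (l 16776144)) (l 16775152)) (l 16775296)) (b (l 16775016) (l 16774016)))) (b (c (a (l 16773656) (l 16772544)) (l 16773024)) (l 16771056))) (b (b (a (a (b (l 4) (b (l 222499439191) (l 16777488))) (b (l 218204472151) (l 16777192))) (a (b (b (l 141431932151) (l 16777064)) (l 16776272)) (l 16776384))) (a (l 16775576) (l 16774416))) (b (l 16772912) (l 16770824)))) (b (b (a (b (l 226257536167) (a (l 85060486839) (l 16776840))) (c (b (l 19025364551) (l 16775944)) (l 16776464))) (l 16774872)) (l 16771560))), by decide +kernel⟩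

def k101_pm_011_t : ∃ t, chk3 f_pm_011_t t 147 246 2 = true :=
  ⟨(c (b (c (a (a (b (c (b (a (l 16776040) (l 16775648)) (l 16774928)) (l 16775392)) (l 16773400)) (b (c (l 16774232) (l 16774264)) (l 16772272))) (b (c (l 16772640) (l 16772568)) (l 16770592))) (a (b (l 16774440) (l 16772680)) (l 16771408))) (c (a (b (l 16770824) (l 16768816)) (l 16767576)) (a (l 16769560) (l 16767248)))) (b (a (c (l 16773600) (l 16773472)) (l 16771112)) (c (l 16768088) (l 16767752)))), by decide +kernel⟩

def k102_pm_011_t : ∃ t, chk3 f_pm_011_t t 73 247 2 = true :=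
  ⟨(c (a (b (c (a (b (l 16771280) (l 16769272)) (l 16767880)) (a (l 16770000) (l 16767696))) (c (a (l 16766264) (l 16764032)) (l 16764672))) (b (c (a (l 16765808) (l 16763568)) (l 16764240)) (c (l 16760680) (l 16760072)))) (a (b (c (l 16768520) (l 16768176)) (l 16763912)) (c (b (l 16763760) (l 16748944)) (l 16761008)))), by decide +kernel⟩

def k103_pm_011_t : ∃ t, chk3 f_pm_011_t t 73 123 3 = true :=
  ⟨(b (a (b (a (b (c (c (l 247732374087) (l 249342986791)) (l 249879857655)) (a (b (l 4) (c (a (l 128547030919) (l 16777064)) (l 16777320))) (c (c (l 16776688) (l 16776656)) (l 16776608)))) (a (b (c (c (b (l 183844735575) (l 16777152)) (l 93113551623)) (l 83449875639)) (c (l 16775352) (l 16775200))) (c (c (l 16775264) (l 16775184)) (l 16775064)))) (c (c (a (l 16773808) (l 16771232)) (l 16772328)) (a (l 16773448) (l 16765376)))) (c (c (b (l 16772056) (l 16760848)) (b (l 16771864) (l 16756552))) (b (l 16771232) (c (l 16756160) (l 16755752))))) (c (c (a (b (a (l 16763848) (l 16756048)) (l 16757840))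 (a (l 16753784) (l 16748648))) (a (b (l 16762184) (l 16752008)) (a (l 16750544) (l 16747952)))) (a (b (a (l 16762976) (l 16754936)) (a (l 16752472) (l 16760184))) (b (l 16756040) (l 16745600))))), by decide +kernel⟩

def k104_pm_011_t : ∃ t, chk3 f_pm_011_t t 148 244 2 = true :=
  ⟨(b (l 4) (a (l 4) (b (l 4) (a (c (b (l 4) (c (a (l 4) (b (l 4) (c (a (l 4) (b (l 4) (l 211762020631))) (l 226257535607)))) (l 234310599959))) (l 238605567879)) (c (a (b (l 4) (b (b (l 4) (b (l 4) (a (l 4) (a (l 4) (l 71101841671))))) (a (b (a (l 4) (b (l 4) (l 100092870967))) (a (b (l 116198998343) (l 16777160)) (l 16777080))) (a (b (b (l 83986743591) (l 16777128)) (l 16776936)) (l 16776920))))) (b (a (l 4) (c (b (l 4) (b (l 4) (a (l 172570444231) (a (l 99019129143) (l 16777360))))) (l 203708957271))) (c (b (c (a (b (a (l 233236857095) (a (l 122104578407) (l 62511907079))) (l 16777256)) (l 16777016)) (l 3992978103)) (l 16776568)) (l 16776816)))) (b (l 220351956071) (l 26004686695))))))), by decide +kernel⟩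

def k105_pm_011_t : ∃ t, chk3 f_pm_011_t t 149 488 2 = true :=
  ⟨(a (l 4) (b (l 4) (a (b (l 4) (c (a (l 4) (a (b (l 4) (b (l 227331277127) (a (b (l 182770991479) (l 16777336)) (l 16777304)))) (c (b (b (l 4) (l 212298891543)) (a (b (a (l 108682805591) (l 53385101543)) (l 16777000)) (l 16776984))) (l 60901295303)))) (l 115662129703))) (c (c (a (b (b (l 4) (a (l 4) (a (l 4) (a (l 214446375239) (b (l 4) (l 91502936359)))))) (b (b (c (a (l 194582151415) (a (l 27078426887) (l 16777048))) (l 59827552967)) (a (a (a (l 82913001767) (l 16777184)) (l 16777080)) (l 16776864))) (l 16776632))) (b (a (b (l 4) (b (a (l 234847469815) (a (l 121030836583) (l 54458843431))) (l 2919235655))) (b (a (l 221962568055) (b (l 4) (a (l 93650420023) (l 16777192)))) (l 16777008))) (l 16776232))) (b (a (l 221425697623) (a (l 96871646535) (l 16777160))) (l 16776584))) (b (l 99019131255) (l 16776560)))))), by decide +kernel⟩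

def k106_pm_011_t : ∃ t, chk3 f_pm_011_t t 149 489 4 = true :=
  ⟨(a (a (a (b (l 4) (b (b (c (c (a (l 4) (b (l 4) (a (a (l 168812347783) (l 103850967367)) (l 16777352)))) (l 178476024183)) (l 128010159271)) (a (b (a (b (l 4) (l 115662127447)) (b (l 102777225527) (l 16777144))) (l 16777024)) (l 16776864))) (b (l 16776496) (l 16775984)))) (b (b (l 4) (c (b (l 4) (a (a (l 4) (l 230552502679)) (b (l 211762020647) (a (a (l 112440901975) (l 45868908823)) (l 16777112))))) (l 188139700839))) (c (b (a (b (b (a (a (l 136600093063) (l 81839259927)) (l 16777144)) (l 16776960)) (l 16776584)) (l 16776392)) (l 16775688)) (l 16776160)))) (b (a (b (l 4) (b (b (b (l 4) (a (l 4) (a (l 4) (l 73249325319)))) (c (c (a (l 196729635063) (a (a (l 58753810679) (l 16777152)) (l 16777048))) (l 59827552983)) (l 16777224))) (a (b (a (b (l 116198998359) (l 16777160)) (l 16777080)) (l 16776896)) (l 16776736)))) (b (b (l 4) (c (a (a (l 234847469991) (b (l 4) (a (l 126399545703) (l 66270003463)))) (b (a (l 170422960599) (a (l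 101166612791) (l 16777360))) (l 16777056))) (l 16777760))) (c (a (a (b (b (l 16777320) (l 16776904)) (l 16776528)) (l 16776640)) (l 16776424)) (l 16776552)))) (c (b (a (l 16776128) (l 16775560)) (l 16774832)) (l 16775288)))) (c (b (a (b (b (a (a (c (b (l 4) (a (l 147337511335) (a (l 72175583495) (l 16777168)))) (l 115662127911)) (b (a (a (l 165054251431) (l 104387838279)) (l 14730395927)) (l 16776992))) (l 16776696)) (a (a (l 16776896) (l 16776616)) (l 16776192))) (c (l 16775728) (l 16775704))) (c (b (l 16775600) (l 16774600)) (l 16775072))) (c (a (l 16774224) (l 16773096)) (l 16773616))) (b (a (b (c (l 16777384) (l 16776720)) (l 16775680)) (l 16775032)) (l 16773544)))), by decide +kernel⟩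

def k107_pm_011_t : ∃ t, chk3 f_pm_011_t t 149 489 5 = true :=
  ⟨(a (b (a (l 216593860167) (b (l 132305128135) (l 16776840))) (c (a (l 16776448) (l 16775232)) (l 16775800))) (c (b (l 16775576) (l 16773448)) (l 16774432))), by decide +kernel⟩

def k108_pm_011_t : ∃ t, chk3 f_pm_011_t t 296 490 2 = true :=
  ⟨(b (a (l 4) (b (l 4) (b (a (l 4) (c (c (b (c (a (l 4) (a (l 163980509639) (a (l 90429194551) (l 16777352)))) (l 128547029847)) (a (a (l 230552502519) (a (l 116735869287) (l 50700747047))) (l 16777048))) (l 73786196967)) (l 16777264))) (c (a (b (b (l 4) (a (l 4) (a (l 4) (l 64659390711)))) (a (a (l 4) (b (l 4) (l 92576678183))) (a (b (l 77007421719) (l 16777112)) (l 16777040)))) (a (a (a (b (l 17951621383) (l 16776928)) (l 16776984)) (l 16776880)) (l 16776664))) (l 16777096))))) (a (b (c (c (a (b (l 4) (c (a (l 4) (b (l 233773728103) (a (a (l 148948124055) (l 88818581815)) (l 16777320)))) (l 173644185959))) (a (b (b (l 4) (l 221425697079)) (b (a (a (l 126936416615) (l 67343745287)) (l 16777128))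 (l 16776944))) (b (c (b (l 205319569687) (a (a (l 97408516423) (l 41573941463)) (l 16777104))) (l 73249325783)) (l 16776792)))) (a (l 196192764583) (a (l 65196262615) (l 16777048)))) (c (l 80765519895) (l 16777352))) (c (b (a (a (b (a (b (l 4) (l 99556000055)) (b (l 83986743591) (l 16777128))) (l 16777000)) (l 16776760)) (l 16776408)) (c (c (l 16776048) (l 16776200)) (l 16776176))) (l 16776400))) (c (c (c (b (a (a (a (b (a (b (l 73249325335) (l 16776992)) (l 16777136)) (l 16776584)) (l 16776696)) (l 16776480)) (l 16776064)) (l 16775344)) (b (l 16776336) (l 16775312))) (l 16775792)) (l 16775728)))), by decide +kernel⟩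

def k109_pm_011_t : ∃ t, chk3 f_pm_011_t t 297 490 2 = true :=
  ⟨(a (c (c (b (b (a (b (l 4) (b (c (a (l 4) (a (a (l 165591122295) (l 97945387335)) (l 8287944983))) (l 102240355159)) (a (a (a (l 185992216999) (l 127473287527)) (a (l 69491228935) (l 16777168))) (l 16776992)))) (b (a (b (l 226257535303) (a (a (l 134989480311) (l 75396808983)) (l 16777144))) (a (b (a (l 108145934679) (l 41573941527)) (l 16777000)) (l 16776984))) (l 16776688))) (a (a (b (l 16776896) (l 16776384)) (l 16776360)) (l 16775936))) (b (l 16775208) (l 16774200))) (b (b (a (a (l 195655893543) (l 73786197271)) (l 16777600)) (l 16776184)) (l 16774632))) (b (c (b (l 49627006663) (l 16776152)) (l 16776696)) (l 16774512))) (c (c (b (b (a (a (l 16776352) (l 16776232)) (l 16775808)) (l 16775088)) (l 16773576)) (l 16774256)) (l 16774384))), by decide +kernel⟩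

def k110_pm_011_t : ∃ t, chk3 f_pm_011_t t 148 491 2 = true :=
  ⟨(c (c (a (b (c (a (b (l 16775464) (l 16774464)) (l 16773840)) (l 16774360)) (c (l 16772400) (l 16772328))) (b (c (l 16772160) (l 16772088)) (l 16770112))) (a (b (l 16774296) (l 16772216)) (l 16770936))) (a (c (l 16773128) (l 16772992)) (l 16770640))), by decide +kernel⟩

def k111_pm_011_t : ∃ t, chk3 f_pm_011_t t 149 245 2 = true :=
  ⟨(c (b (a (c (b (c (a (l 16774472) (l 16773352)) (l 16773872)) (l 16771880)) (b (l 16773800) (l 16771728))) (c (b (l 16771624) (l 16769616)) (l 16770440))) (c (a (b (l 16769864) (l 16767856)) (l 16766600)) (l 16767464))) (b (a (l 16772568) (l 16770152)) (l 16767032))), by decide +kernel⟩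

def k112_pm_011_t : ∃ t, chk3 f_pm_011_t t 74 122 3 = true :=
  ⟨(b (a (b (l 4) (a (l 4) (b (l 4) (c (a (l 244511147847) (c (l 86671100759) (l 16777440))) (a (l 248806115095) (l 87207971959)))))) (b (a (l 4) (b (l 4) (c (c (a (l 147337514455) (l 16777096)) (l 81302392599)) (a (l 146800643847) (l 16777080))))) (c (c (a (b (a (l 222499440167) (l 54995716695)) (l 16775752)) (l 16774352)) (a (b (l 99556003863) (l 16775704)) (l 16774272))) (a (b (a (l 170959835191) (l 16777304)) (l 16775632)) (l 16774128))))) (c (a (b (c (a (b (a (l 4) (l 109219679383)) (a (l 16776944) (l 16775648))) (b (l 16776032) (l 16773744))) (a (b (l 186529088951) (l 16776264)) (l 16774808))) (c (l 16771584) (l 16771392))) (c (b (l 16771096) (l 16756072)) (l 16768568))) (a (b (a (b (l 187602830759) (l 16777512)) (b (l 16775920) (l 16773448))) (l 16771088)) (b (l 16770608) (l 16760440))))), by decide +kernel⟩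

def k113_pm_011_t : ∃ t, chk3 f_pm_011_t t 150 122 2 = true :=
  ⟨(c (b (b (a (a (b (b (l 4) (a (c (b (l 4) (b (l 4) (c (a (l 4) (a (l 123715191143) (l 16777168))) (l 101703484247)))) (l 197803377335)) (b (c (a (c (l 228941890023) (l 231626244567)) (b (l 206393311511) (a (a (l 104387838279) (l 16777368)) (l 16777104)))) (l 109219677255)) (a (b (a (b (l 172033573271) (l 16777208)) (l 16777136)) (l 16776952)) (l 16776792))))) (c (b (a (b (a (b (a (l 147337511319) (a (l 67343745287) (l 16777168))) (l 16777016)) (l 16776864)) (l 16776496)) (l 16776184)) (l 16775456)) (l 16775936))) (c (b (b (b (a (l 4) (a (a (l 231089373591) (b (l 4) (a (l 112977772887) (l 16777368)))) (b (a (l 160759284151) (a (l 84523614503) (l 16777184))) (l 16777040)))) (a (b (a (l 4) (a (l 4) (a (l 139284447623) (l 82376130839)))) (a (c (l 190287184103) (l 16777488)) (a (l 12582912327) (l 16777032)))) (a (a (l 16777104) (l 16776880)) (l 16776664)))) (c (a (a (a (b (b (l 40500199735) (l 16776960)) (l 16776584)) (l 16776696))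 (l 16776480)) (l 16776056)) (l 16776328))) (b (l 16775328) (l 16774320))) (b (b (a (l 175254798839) (l 16777712)) (l 16776312)) (l 16774768)))) (a (c (b (b (a (b (l 16776736) (l 16776232)) (l 16775920)) (l 16775200)) (l 16773688)) (l 16773976)) (c (b (c (l 16774576) (l 16774544)) (l 16772552)) (l 16773472)))) (c (a (b (a (l 16773952) (l 16772816)) (l 16771368)) (b (l 16771112) (l 16769104))) (a (l 16772256) (l 16769936)))) (b (c (a (l 16768360) (l 16766096)) (l 16766976)) (c (l 16763216) (l 16762856)))) (b (b (a (b (a (b (l 4) (l 82913003719)) (b (l 61975038119) (l 16776280))) (l 16775280)) (l 16773936)) (c (l 16770936) (l 16770776))) (b (l 16766568) (l 16762264)))), by decide +kernel⟩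

def k114_pm_011_t : ∃ t, chk3 f_pm_011_t t 151 122 2 = true :=
  ⟨(b (a (c (b (c (b (c (l 16772880) (l 16772832)) (l 16770848)) (l 16771736)) (c (l 16767848) (l 16767632))) (b (l 16771536) (l 16767280))) (c (b (b (l 16770512) (l 16768488)) (l 16765456)) (l 16767032))) (c (b (c (l 16762712) (l 16762376)) (l 16758496)) (l 16759688))), by decide +kernel⟩

def k115_pm_011_t : ∃ t, chk3 f_pm_011_t t 75 122 3 = true :=
  ⟨(b (c (a (a (b (b (c (a (l 121030839591) (l 16776816)) (l 63048781335)) (l 16775168)) (l 16771768)) (b (l 16773440) (l 16769256))) (c (l 16767888) (l 16767648))) (a (a (b (a (b (l 122104581623) (l 16775728)) (l 16775576)) (l 16771448)) (l 16771192)) (l 16766608))) (c (c (a (l 16763872) (l 16748512)) (c (l 16761088) (l 16760864))) (a (b (l 16754800) (l 16749936)) (c (l 16747496) (l 16736472))))), by decide +kernel⟩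

def k116_pm_011_t : ∃ t, chk3 f_pm_011_t t 37 123 1 = true :=
  ⟨(c (a (b (c (a (a (b (c (b (l 16770352) (l 16768344)) (l 16769096)) (l 16765136)) (b (c (l 16767096) (l 16766784)) (l 16762864))) (b (c (l 16763720) (l 16763328)) (l 16759448))) (a (b (c (l 16767640) (l 16767320)) (l 16763104)) (b (l 16762688) (l 16758336)))) (c (a (b (c (l 16760200) (l 16759632)) (l 16755840)) (b (l 16755384) (l 16751304))) (a (b (l 16750856) (l 16743832)) (l 16751784)))) (b (c (a (b (l 16758976) (l 16754912)) (b (l 16754448) (l 16750400))) (a (l 16755784) (l 16751112))) (c (a (l 16748824) (l 16744320)) (a (l 16736608) (l 16731984))))) (a (c (a (b (c (l 16764680) (a (l 16760288) (l 16752464))) (c (l 16746224) (l 16744112))) (b (c (a (l 16750456) (l 16747992)) (l 16749952)) (c (l 16740000) (l 16739080)))) (b (a (b (l 16758856) (l 16750520)) (c (l 16748040) (l 16747408))) (a (c (l 16743272) (l 16742400)) (l 16737624)))) (b (a (c (c (l 16744328) (l 16743640)) (l 16742544)) (c (a (l 16740344) (l 16737952)) (l 16737512)))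 (c (a (b (l 16747504) (l 16742816)) (l 16729912)) (b (l 16732568) (l 16717064)))))), by decide +kernel⟩

def k117_pm_011_t : ∃ t, chk3 f_pm_011_t t 76 120 1 = true :=
  ⟨(l 4), by decide +kernel⟩

def k118_pm_011_t : ∃ t, chk3 f_pm_011_t t 154 240 1 = true :=
  ⟨(l 4), by decide +kernel⟩

def k119_pm_011_t : ∃ t, chk3 f_pm_011_t t 154 482 1 = true :=
  ⟨(a (l 4) (a (l 4) (b (l 4) (c (c (b (l 4) (c (a (l 4) (a (b (l 4) (a (l 185992216823) (b (l 182234120663) (l 16777144)))) (b (l 218741342631) (a (b (l 66270003591) (l 16777000)) (l 16776984))))) (l 170422960743))) (l 194582152407)) (c (l 142505676695) (l 16777184)))))), by decide +kernel⟩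

def k120_pm_011_t : ∃ t, chk3 f_pm_011_t t 154 483 1 = true :=
  ⟨(c (b (c (a (a (l 4) (b (l 4) (c (a (l 4) (b (l 4) (a (l 4) (a (l 196192764183) (b (l 4) (l 16777168)))))) (l 210151408663)))) (c (a (a (b (l 4) (a (b (l 226257535447) (a (b (l 88281710983) (l 16777024)) (l 16777008))) (b (b (a (l 4) (l 145190027671)) (l 17951621511)) (l 16776792)))) (b (b (l 4) (a (a (l 4) (l 191360925959)) (b (a (l 185992217063) (l 80228647287)) (l 16777088)))) (a (b (l 16777208) (l 16776504)) (l 16776464)))) (b (a (b (a (a (l 218741342567) (b (l 4) (l 16777368))) (a (b (l 123715191255) (l 16777080)) (l 16777064))) (l 16776784)) (l 16776456)) (l 16775752))) (a (b (l 189750313799) (l 16777560)) (l 16776248)))) (a (l 227331279159) (a (a (l 93113551623) (l 16777080)) (l 16776224)))) (a (b (a (c (c (a (l 4) (b (l 4) (c (a (l 4) (l 207467053447)) (l 218204471863)))) (l 230015632615)) (l 232699987143)) (c (b (a (a (l 4) (a (l 228405019015) (b (l 4) (l 59827552695)))) (b (a (a (l 143579415031) (l 16777360)) (l 16776992))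 (l 16776888))) (a (a (b (a (l 4) (l 92576678343)) (l 16777272)) (l 16777024)) (l 16776512))) (l 16777040))) (c (a (b (c (a (c (l 234310599335) (l 235384341159)) (a (b (l 212835762455) (a (l 74859938167) (l 16777112))) (b (l 8824815975) (l 16776896)))) (l 88281712231)) (a (a (b (l 4) (a (l 132305125847) (l 16777352))) (a (b (l 99019129303) (l 16777040)) (l 16777024))) (l 16776664))) (c (c (l 16776064) (l 16776056)) (l 16776040))) (l 16777944))) (c (c (a (b (l 16775824) (l 16774920)) (l 16774272)) (l 16774816)) (l 16774760)))) (c (a (b (l 232163117303) (c (l 16778392) (l 16777096))) (c (l 16775784) (l 16775752))) (a (b (l 180086642503) (l 16777112)) (l 16775712)))), by decide +kernel⟩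

def k121_pm_011_t : ∃ t, chk3 f_pm_011_t t 155 240 1 = true :=
  ⟨(a (l 4) (b (l 4) (b (l 4) (c (b (b (l 4) (a (l 4) (b (l 4) (a (l 4) (a (l 4) (a (l 140358189639) (l 29762781655))))))) (a (a (l 4) (a (l 4) (b (l 4) (c (l 223036309959) (l 16777432))))) (c (c (a (b (c (a (l 4) (l 195655893335)) (l 158611801335)) (a (b (l 144653156999) (l 16777152)) (l 16776992))) (a (b (a (b (l 181697249751) (l 16777144)) (l 7214203271)) (l 16776704)) (l 16776664))) (l 29762782855)) (l 16777072)))) (c (c (l 112977777239) (l 16777640)) (l 112977777591)))))), by decide +kernel⟩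

def k122_pm_011_t : ∃ t, chk3 f_pm_011_t t 155 241 1 = true :=
  ⟨(c (b (a (a (b (l 4) (c (b (b (a (l 4) (a (l 4) (a (l 207467053367) (b (l 4) (l 16777192))))) (b (a (l 4) (a (a (l 162369896983) (l 51774488999)) (l 16777016))) (a (a (l 4) (a (l 4) (l 82913001943))) (l 16776912)))) (c (c (a (b (a (b (l 139821318727) (l 16777136)) (l 16776976)) (l 16776624)) (l 16776304)) (l 16776592)) (l 16776584))) (l 27615300311))) (b (b (l 4) (c (b (c (a (l 4) (a (l 207467053447) (b (a (l 4) (l 94187291031)) (l 16777112)))) (l 124252063591)) (c (a (b (l 221962568151) (a (l 232163115351) (l 28689039783))) (c (c (l 16777088) (l 16776888)) (l 16776880))) (l 16777144))) (l 16777296))) (c (c (c (b (a (a (a (b (b (l 103314096551) (l 16777048)) (l 16776680)) (l 16776784)) (l 16776576)) (l 16776144)) (l 16775448)) (l 16775936)) (l 16775928)) (l 16775904)))) (b (c (b (a (b (c (a (l 4) (a (a (l 192971538711) (b (l 184918475255) (l 16777160))) (b (l 33520878007) (l 16776944)))) (l 96334775991)) (a (a (a (l 228405018999)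 (b (l 4) (l 58216939943))) (a (b (l 139821318647) (l 16777096)) (l 16777328))) (l 16776720))) (a (l 16776312) (l 16775824))) (a (a (a (b (l 16776944) (l 16776448)) (l 16776408)) (l 16775976)) (l 16775120))) (l 16777496)) (c (a (b (l 16775280) (l 16774296)) (l 16773648)) (l 16774144)))) (c (b (c (a (c (a (l 16775112) (l 16773976)) (l 16774528)) (l 16772272)) (l 16773360)) (c (a (l 16772568) (l 16770312)) (l 16771368))) (l 16771616))) (a (b (c (c (b (l 136600097623) (l 16776496)) (l 50163881447)) (b (l 136063227063) (l 16776464))) (c (l 16773328) (l 16773208))) (c (c (l 16773064) (l 16773008)) (l 16772912)))), by decide +kernel⟩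

def k123_pm_011_t : ∃ t, chk3 f_pm_011_t t 76 484 2 = true :=
  ⟨(a (l 4) (b (a (l 4) (c (a (b (l 4) (a (b (l 4) (a (l 4) (b (l 4) (a (l 140895060471) (l 31910265207))))) (a (b (l 4) (a (b (l 110830289383) (l 16777056)) (l 2382364695))) (b (b (l 219278213431) (a (c (l 87207969159) (l 16777248)) (l 16777128))) (l 16776824))))) (b (b (a (l 4) (a (a (l 235384340887) (b (l 4) (l 80228647335))) (b (a (l 155927446039) (l 46942650775)) (l 16777048)))) (c (c (a (a (l 213372633511) (b (a (l 4) (l 112440902023)) (l 16777128))) (l 16776824)) (a (l 91502937159) (l 16776824))) (l 16777088))) (a (a (a (b (b (l 52311359911) (l 16776984)) (l 16776608)) (l 16776712)) (l 16776496)) (l 16776064)))) (a (l 174717928375) (l 16778504)))) (c (b (a (a (l 4) (a (a (l 4) (b (l 4) (b (l 4) (l 206930182423)))) (c (a (b (l 4) (c (b (a (l 4) (l 128010158455)) (l 16777304)) (l 16777224))) (b (a (l 4) (b (l 4) (l 90429194647))) (l 16777144))) (l 72712455671)))) (c (a (a (a (b (b (a (l 175791669719) (l 60901294471)) (l 16777064))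 (l 16776688)) (l 16776656)) (l 16776224)) (l 16775368)) (l 16775920))) (a (c (b (a (l 4) (a (a (b (l 226794406215) (a (l 95797903767) (l 16777144))) (a (b (l 65196261767) (l 16777000)) (l 16776984))) (l 16776624))) (a (a (l 4) (b (a (l 4) (a (l 119420223959) (l 16777176))) (a (a (l 157001187767) (l 40500199783)) (l 16777000)))) (l 16776368))) (a (l 179012895447) (l 16776656))) (a (a (l 16775792) (l 16775216)) (l 16774352)))) (a (a (l 201561474359) (c (l 35668363799) (l 16777120))) (l 16775376))))), by decide +kernel⟩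

def k124_pm_011_t : ∃ t, chk3 f_pm_011_t t 76 970 2 = true :=
  ⟨(a (a (l 4) (c (a (b (l 4) (c (a (l 4) (a (l 4) (b (l 4) (a (l 218204471655) (b (l 4) (l 45868908903)))))) (l 216593859687))) (b (c (a (l 4) (b (l 4) (c (a (l 220888826311) (b (a (l 4) (l 133378867591)) (l 8287945063))) (l 101166613527)))) (l 198340248471)) (b (c (b (a (l 233236857351) (b (a (l 66270003591) (l 16776960)) (l 16776976))) (a (a (l 4) (a (l 100092871079) (l 16777152))) (l 16776792))) (l 43184555383)) (a (b (a (a (l 129620771287) (l 16777384)) (l 16776968)) (l 16776864)) (l 16776408))))) (a (l 227331278519) (a (l 99556002647) (l 16778280))))) (c (b (a (a (c (c (a (a (b (a (l 4) (l 187065958647)) (l 16777152)) (b (b (a (l 179549766119) (l 71638712679)) (l 16777080)) (l 16776704))) (l 16776520)) (a (b (l 82913002423) (l 16776840)) (l 16776520))) (l 16777472)) (a (l 16775936) (l 16775360))) (c (l 16773952) (l 16773904))) (c (a (a (l 16775848) (l 16774672)) (l 16772960)) (l 16774048))) (a (l 16775680) (l 16773304)))), by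 decide +kernel⟩

def k125_pm_011_t : ∃ t, chk3 f_pm_011_t t 76 971 2 = true :=
  ⟨(c (a (a (a (l 4) (b (a (l 4) (a (l 4) (b (l 4) (b (l 4) (l 213909504295))))) (b (c (a (l 4) (a (b (l 232699986263) (a (l 102777225639) (l 16777152))) (a (b (l 78618034551) (l 16777008)) (l 16776992)))) (l 94187292327)) (a (c (b (a (l 4) (a (l 140895060359) (l 16777344))) (a (a (l 165054251447) (l 47479521639)) (l 16777008))) (l 16777232)) (l 16776704))))) (b (b (a (c (b (a (l 4) (a (a (l 184918475239) (l 77007421815)) (l 16777048))) (a (a (l 4) (a (l 4) (l 101703483815))) (l 16777064))) (l 67880617511)) (c (l 16776208) (l 16776184))) (c (a (a (a (b (l 195655893239) (a (l 46942650727) (l 16777080))) (b (l 16777280) (l 16776864))) (l 16776560)) (l 16775704)) (l 16776264))) (a (a (c (l 16776384) (l 16776368)) (l 16775800)) (l 16774936)))) (c (a (a (l 16774312) (l 16773176)) (l 16771472)) (l 16772536))) (a (a (a (l 4) (a (l 192971539431) (l 65733134967))) (c (l 16776000) (l 16775976))) (l 16772408))), by decide +kernel⟩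

def k126_pm_011_t : ∃ t, chk3 f_pm_011_t t 76 243 2 = true :=
  ⟨(a (c (a (b (a (c (b (a (b (b (l 4) (a (c (l 222499439047) (l 179012895655)) (b (l 196192764151) (a (l 46942650727) (l 16777080))))) (a (a (b (b (l 77544292727) (l 16777008)) (l 16776632)) (l 16776744)) (l 16776528))) (b (b (a (a (l 4) (b (l 4) (l 102777225639))) (b (a (l 185992217063) (l 78618034551)) (l 16777080))) (a (b (l 7214203095) (l 16776864)) (l 16776704))) (l 16776096))) (a (l 16775168) (l 16774600))) (b (b (a (l 133378868919) (l 16777088)) (l 16776368)) (l 16774840))) (c (b (b (a (b (l 16776776) (l 16776280)) (l 16775952)) (l 16775240)) (l 16773744)) (l 16774696))) (c (b (l 16772312) (l 16770312)) (l 16771200))) (b (c (b (c (a (l 16774616) (l 16773480)) (l 16774016)) (l 16772032)) (l 16772960)) (c (l 16769048) (l 16768888)))) (b (a (b (a (c (l 13119785047) (l 16776888)) (l 16775672)) (l 16774168)) (l 16772832)) (l 16769824))) (c (b (c (a (c (l 16770872) (l 16770736)) (l 16768496)) (l 16769496)) (a (l 16766688) (l 16764424)))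 (b (l 16769288) (l 16765120)))), by decide +kernel⟩

def k127_pm_011_t : ∃ t, chk3 f_pm_011_t t 77 121 2 = true :=
  ⟨(b (a (c (b (c (b (a (a (a (b (l 16776496) (l 16775504)) (l 16775432)) (l 16774576)) (l 16773032)) (a (c (l 16773176) (l 16773152)) (l 16770896))) (a (l 16773784) (l 16771808))) (a (b (l 16771144) (l 16769144)) (l 16768032))) (b (a (l 16774040) (l 16771696)) (l 16768752))) (c (c (b (a (l 16769616) (l 16767368)) (l 16764560)) (b (l 16768384) (l 16764400))) (c (l 16766248) (l 16766096)))) (c (a (c (b (l 16765112) (l 16761160)) (l 16762920)) (c (l 16758672) (l 16758416))) (a (l 16762568) (l 16758000)))), by decide +kernel⟩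

def k128_pm_011_t : ∃ t, chk3 f_pm_011_t t 38 121 3 = true :=
  ⟨(a (b (b (a (l 4) (a (b (l 4) (c (c (l 83986747431) (l 16777480)) (l 85060489527))) (c (c (c (l 16779056) (l 3456110407)) (l 16776408)) (b (l 16778608) (l 16775232))))) (c (a (a (a (l 4) (c (l 191897798439) (l 138210711159))) (a (b (l 178476026791) (l 16776552)) (c (l 16777736) (l 16776408)))) (c (l 16773344) (l 16773272))) (a (a (l 203708956519) (b (l 105461584471) (l 16775872))) (l 16773152)))) (c (b (a (c (a (l 16775168) (l 16772696)) (l 16773856)) (l 16768984)) (c (l 16767160) (l 16766944))) (a (b (a (l 16775040) (l 16772448)) (l 16769136)) (l 16766368)))) (c (b (a (c (l 16770656) (l 16770544)) (c (l 16765936) (l 16765760))) (c (l 16759848) (l 16759536))) (b (a (l 16770360) (l 16765480)) (a (l 16761448) (l 16735704))))), by decide +kernel⟩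

def k129_pm_011_t : ∃ t, chk3 f_pm_011_t t 156 240 1 = true :=
  ⟨(a (b (l 4) (b (c (c (c (a (b (l 4) (b (l 4) (a (l 4) (a (l 210151408023) (b (l 125325804119) (l 16777120)))))) (a (b (l 4) (c (b (a (l 181697249575) (b (l 84523614679) (l 16777032))) (l 16776816)) (l 14730396695))) (b (b (l 229478761079) (a (b (l 4) (l 56069456375)) (a (l 14193525175) (l 16777008)))) (l 16776488)))) (a (l 209077667287) (b (l 173107315335) (l 16776776)))) (a (l 211225150919) (l 43184556999))) (c (a (l 159685546071) (l 40500202375)) (l 16776928))) (c (c (c (b (a (a (b (a (l 4) (b (l 218741342503) (l 36205232567))) (a (a (b (l 113514643895) (l 16777064)) (l 16777048)) (l 16776832))) (a (b (l 16777280) (l 16776544)) (l 16776504))) (l 16775792)) (a (l 16775952) (l 16774816))) (a (l 16777432) (l 16775288))) (l 16775848)) (c (l 16775816) (l 16775776))))) (b (b (l 4) (b (a (l 4) (c (c (a (b (l 4) (b (l 223573180887) (a (l 234847469911) (l 37815845303)))) (c (b (a (l 209077666183) (b (l 124252062279) (l 16777112))) (c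 (l 16776896) (l 16776888))) (l 16777112))) (l 16777296)) (c (l 16777288) (l 16777088)))) (c (c (c (b (b (a (l 4) (a (a (l 56606327271) (l 16776952)) (l 16776528))) (a (a (l 4) (a (l 4) (l 76470551079))) (l 16776568))) (a (a (a (l 4) (l 195655893335)) (b (a (l 105461580311) (l 16777032)) (l 16776936))) (l 16776200))) (a (c (l 94724163751) (l 95261034663)) (l 16776440))) (l 29225913255)) (c (l 16778304) (l 16777008))))) (c (c (c (b (a (b (a (a (b (b (l 146263769735) (l 16777152)) (l 16776792)) (l 16776912)) (l 16776320)) (l 16775632)) (l 16774984)) (c (l 16773616) (l 16773600))) (b (l 16775544) (l 16773576))) (l 16774520)) (c (l 16774464) (l 16774400))))), by decide +kernel⟩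

def k130_pm_011_t : ∃ t, chk3 f_pm_011_t t 157 240 1 = true :=
  ⟨(c (c (c (b (a (a (b (b (a (l 4) (b (l 4) (l 225720664695))) (b (a (l 4) (a (b (l 232699986263) (l 52848230887)) (l 16777392))) (a (a (l 179549765911) (b (l 73249325607) (l 16777032))) (l 16776720)))) (c (b (l 16776280) (l 16775312)) (l 16775792))) (b (b (a (a (b (l 4) (b (l 141431931511) (l 16777144))) (b (l 191897796935) (l 16776984))) (a (b (b (l 90429194839) (l 16777064)) (l 16776696)) (l 16776656))) (l 16776112)) (l 16774664))) (b (c (a (l 16775304) (l 16774344)) (l 16774896)) (l 16772976))) (a (b (l 16773288) (l 16771352)) (l 16770080))) (b (b (a (a (b (l 235921212679) (l 51237619559)) (a (l 16778184) (l 16776312))) (l 16774888)) (l 16774080)) (l 16771152))) (a (b (a (b (l 94187294231) (l 16775768)) (l 16775616)) (l 16772216)) (l 16771256))) (a (c (b (c (l 16776216) (l 16776200)) (l 16772120)) (b (l 16776176) (l 16772008))) (c (l 16770832) (l 16771712)))), by decide +kernel⟩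

def k131_pm_011_t : ∃ t, chk3 f_pm_011_t t 78 241 1 = true :=
  ⟨(c (c (a (a (b (c (b (a (l 16774488) (l 16773352)) (l 16771968)) (l 16772904)) (c (l 16769032) (l 16768952))) (b (b (l 16771632) (l 16769680)) (l 16766744))) (a (b (l 16768408) (l 16764512)) (b (l 16766176) (l 16762288)))) (a (b (l 16771680) (l 16767664)) (l 16765128))) (c (c (a (l 16769536) (l 16764944)) (l 16764504)) (a (l 16769288) (l 16764600)))), by decide +kernel⟩

def k132_pm_011_t : ∃ t, chk3 f_pm_011_t t 78 121 1 = true :=
  ⟨(c (c (b (a (c (b (l 16764008) (l 16760104)) (l 16761896)) (c (l 16757648) (l 16757464))) (a (l 16754112) (l 16749744))) (b (a (l 16761624) (l 16757152)) (a (l 16753512) (l 16749120)))) (c (b (c (l 16759064) (l 16758832)) (c (l 16750800) (l 16750424))) (b (l 16758456) (l 16749824)))), by decide +kernel⟩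

def k133_pm_011_t : ∃ t, chk3 f_pm_011_t t 79 60 1 = true :=
  ⟨(c (b (b (c (a (c (b (a (c (l 16771696) (l 16771680)) (l 16769432)) (l 16766720)) (b (l 16770520) (l 16766656))) (c (b (l 16766056) (l 16762232)) (l 16764088))) (a (c (l 16768528) (l 16768472)) (l 16763984))) (a (c (b (l 16762832) (l 16758976)) (l 16760656)) (c (l 16756448) (l 16756184)))) (c (b (a (l 16753176) (l 16748784)) (l 16743256)) (b (l 16750560) (l 16742640)))) (b (c (b (c (a (l 16768400) (l 16763856)) (l 16766040)) (c (l 16758192) (l 16758024))) (b (a (l 16768208) (l 16763616)) (l 16757760))) (c (b (l 16750072) (l 16741920)) (b (l 16749504) (l 16741096))))), by decide +kernel⟩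

def k134_pm_011_t : ∃ t, chk3 f_pm_011_t t 19 61 1 = true :=
  ⟨(a (c (b (a (b (c (b (a (c (a (l 16767320) (l 16765056)) (l 16765968)) (l 16761544)) (a (c (l 16762200) (l 16761888)) (l 16757528))) (a (b (l 16765608) (l 16761384)) (l 16758848))) (c (a (b (l 16758016) (l 16753984)) (l 16751512)) (a (l 16755024) (l 16750432)))) (c (b (a (c (l 16755232) (l 16754864)) (l 16750616)) (a (l 16747064) (l 16742664))) (b (a (l 16754272) (l 16749768)) (l 16743688)))) (a (b (c (a (l 16747936) (l 16743472)) (l 16744224)) (c (l 16737632) (l 16735656))) (b (c (l 16736872) (l 16735296)) (c (l 16728864) (l 16726840))))) (b (a (c (b (a (c (l 16763032) (l 16762696)) (l 16758072)) (a (c (l 16743736) (l 16732672)) (l 16738736))) (b (a (c (l 16751856) (l 16751488)) (l 16746712)) (a (l 16742232) (l 16726896)))) (c (a (c (l 16749296) (l 16748720)) (a (l 16745608) (l 16743368))) (b (a (l 16731416) (l 16726752)) (l 16730384)))) (a (b (c (a (l 16734408) (l 16729768)) (c (l 16720224) (l 16719256))) (c (c (l 16713048) (l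 16711880)) (l 16715256))) (c (b (c (l 16713008) (l 16712072)) (l 16703584)) (b (l 16710560) (l 16701048)))))) (c (b (a (c (b (a (l 16746232) (l 16741912)) (l 16736200)) (b (l 16743192) (l 16734992))) (c (b (l 16735504) (l 16727712)) (l 16730624))) (a (c (b (l 16728288) (l 16720336)) (l 16722568)) (b (l 16719184) (l 16711136)))) (b (a (c (b (l 16742176) (l 16723144)) (b (l 16720064) (l 16711120))) (c (b (l 16733656) (l 16725280)) (l 16728200))) (a (c (b (l 16703984) (l 16695184)) (b (l 16702008) (l 16713680))) (c (l 16712488) (l 16689448)))))), by decide +kernel⟩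

def k135_pm_011_t : ∃ t, chk3 f_pm_011_t t 36 124 1 = true :=
  ⟨(c (a (b (a (a (c (b (c (b (c (l 16771848) (l 16772064)) (l 16770128)) (b (l 16771888) (l 16769792))) (c (l 16766480) (l 16766656))) (b (c (l 16770536) (l 16770224)) (l 16765888))) (c (b (c (b (l 16769912) (l 16767920)) (l 16768544)) (c (l 16764928) (l 16764360))) (b (l 16767944) (l 16758208)))) (c (b (c (a (l 16766704) (l 16764480)) (l 16765096)) (c (l 16761592) (l 16760912))) (c (b (l 16764568) (l 16754944)) (l 16762376)))) (c (a (b (c (l 16761392) (l 16761328)) (c (l 16758072) (l 16757144))) (b (l 16757168) (l 16753088))) (a (a (l 16759776) (b (l 16748464) (l 16743952))) (b (b (l 16745960) (l 16743712)) (l 16740328))))) (b (c (a (b (c (l 16761136) (l 16760496)) (l 16756728)) (b (l 16756288) (l 16752200))) (a (c (l 16757632) (a (l 16747552) (l 16745104))) (l 16752440))) (c (a (b (l 16752640) (l 16748552)) (l 16746064)) (c (l 16746520) (a (l 16737160) (l 16742824)))))) (a (b (b (c (a (c (a (l 16764640) (l 16762048)) (a (l 16764296)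 (l 16756344))) (c (l 16758184) (l 16757568))) (a (a (c (l 16758680) (l 16758296)) (l 16760856)) (c (l 16751688) (l 16751008)))) (a (c (c (c (l 16753424) (l 16753112)) (l 16757872)) (c (l 16757192) (l 16751248))) (c (c (l 16748144) (l 16757784)) (l 16748584)))) (b (c (a (c (l 16748416) (l 16747528)) (c (l 16753800) (l 16752720))) (a (a (l 16758016) (l 16755192)) (l 16740528))) (c (a (c (l 16754024) (l 16752880)) (l 16737808)) (a (l 16740576) (l 16745528))))) (b (b (a (c (b (l 16753912) (l 16751480)) (l 16745784)) (c (l 16744976) (l 16750840))) (a (c (c (l 16753560) (l 16752544)) (l 16750936)) (c (l 16737512) (l 16745560)))) (c (a (c (l 16735872) (l 16734512)) (b (l 16743120) (l 16738208))) (a (b (l 16745552) (l 16740120)) (l 16727064)))))), by decide +kernel⟩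

def k136_pm_011_t : ∃ t, chk3 f_pm_011_t t 37 124 1 = true :=
  ⟨(c (a (b (a (b (a (l 16752016) (l 16749696)) (l 16746600)) (c (l 16745184) (l 16732504))) (a (c (l 16741528) (l 16728304)) (c (l 16737008) (l 16713152)))) (a (b (c (l 16740680) (l 16727856)) (l 16731056)) (b (l 16735016) (l 16726544)))) (a (a (b (c (a (l 16736184) (l 16733712)) (l 16732464)) (c (l 16725256) (l 16732392))) (c (b (b (l 16742920) (l 16738144)) (l 16730912)) (b (l 16737832) (l 16727376)))) (b (c (c (l 16713096) (l 16722184)) (a (l 16732856) (l 16728032))) (c (a (l 16726184) (l 16721560)) (a (l 16722512) (l 16717792)))))), by decide +kernel⟩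

def k137_pm_011_t : ∃ t, chk3 f_pm_011_t t 18 125 1 = true :=
  ⟨(b (a (c (a (a (b (c (l 16753544) (l 16740632)) (c (l 16749472) (l 16736088))) (b (c (l 16749008) (l 16735808)) (l 16743392))) (a (c (l 16742424) (l 16727456)) (c (l 16737880) (l 16724032)))) (a (c (a (c (l 16736176) (b (l 16747712) (l 16742504))) (b (l 16743288) (l 16738248))) (a (c (l 16733008) (l 16731320)) (b (l 16739992) (l 16734400)))) (c (a (b (l 16738232) (l 16733224)) (l 16720296)) (b (a (l 16734640) (l 16729416)) (l 16716016))))) (a (a (c (l 16731632) (c (l 16725920) (l 16721632))) (c (l 16727056) (c (l 16721160) (l 16716720)))) (c (c (l 16722080) (l 16697384)) (c (l 16693232) (l 16688664))))) (a (c (a (a (b (l 16743760) (l 16739448)) (c (l 16738824) (l 16724448))) (a (a (l 16733432) (l 16731112)) (l 16727632))) (a (c (a (b (l 16738256) (l 16733128)) (b (l 16733176) (l 16728072))) (a (b (l 16734144) (l 16728392)) (b (l 16728752) (l 16723048)))) (a (c (l 16725648) (l 16720680)) (c (l 16720752) (l 16715592))))) (b (c (a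 (l 16722896) (c (l 16716456) (l 16696280))) (a (c (l 16716088) (l 16710984)) (a (l 16693440) (c (l 16704864) (l 16699432))))) (c (a (c (a (l 16723448) (l 16719424)) (l 16716808)) (c (l 16714504) (l 16709280))) (c (a (a (l 16713544) (l 16709240)) (l 16703464)) (a (a (l 16707824) (l 16703344)) (l 16676080))))))), by decide +kernel⟩

def k138_pm_011_t : ∃ t, chk3 f_pm_011_t t 18 126 1 = true :=
  ⟨(a (a (c (a (b (b (l 16735128) (b (l 16726880) (l 16720528))) (c (c (l 16716912) (l 16725552)) (l 16727136))) (b (b (l 16725368) (c (l 16730672) (l 16725168))) (b (l 16702288) (l 16692104)))) (b (c (b (a (l 16727952) (l 16722944)) (a (l 16712848) (l 16719056))) (b (a (l 16722584) (l 16717208)) (a (b (l 16718200) (l 16715864)) (l 16712352)))) (c (b (l 16697504) (l 16716008)) (b (a (l 16712632) (l 16708008)) (l 16685144))))) (c (b (b (c (a (l 16728720) (l 16724904)) (a (l 16713280) (l 16719720))) (a (l 16703984) (l 16721880))) (c (b (l 16714224) (l 16706072)) (l 16718616))) (c (b (b (a (l 16718280) (l 16713976))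 (l 16713176)) (l 16709408)) (b (b (a (b (l 16713520) (l 16711000)) (l 16707664)) (l 16705464)) (b (l 16701232) (l 16697016)))))) (c (a (c (b (b (l 16719344) (l 16711304)) (a (l 16701976) (l 16696528))) (b (l 16714048) (l 16708616))) (b (b (l 16684592) (l 16672768)) (b (l 16665480) (l 16647672)))) (b (c (a (a (l 16687768) (l 16705000)) (l 16699512)) (a (b (l 16701048) (l 16696744)) (l 16669536))) (c (a (l 16701784) (l 16694384)) (a (l 16669408) (l 16681992)))))), by decide +kernel⟩

def k139_pm_011_t : ∃ t, chk3 f_pm_011_t t 18 127 1 = true :=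
  ⟨(c (a (b (a (a (c (b (l 16690400) (l 16703000)) (l 16717160)) (b (l 16679264) (l 16671616))) (b (a (l 16674104) (l 16658464)) (a (l 16656024) (l 16656088)))) (a (b (a (b (l 16660504) (l 16678144)) (l 16654016)) (l 16649864)) (a (b (l 16670008) (l 16663472)) (l 16640896)))) (b (c (b (a (l 16666136) (l 16676344)) (a (l 16657888) (l 16647424))) (c (l 16686664) (l 16693272))) (a (l 16633328) (l 16623360)))) (b (c (a (a (l 16712360) (l 16704512)) (a (l 16696928) (l 16689592))) (a (a (a (l 16681200) (l 16697520)) (a (l 16692960) (l 16667496))) (b (l 16658840) (l 16634056)))) (a (a (a (l 16672888) (l 16679368)) (l 16663072)) (a (l 16666072) (l 16679896))))), by decide +kernel⟩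

def k140_pm_011_t : ∃ t, chk3 f_pm_011_t t 19 62 1 = true :=
  ⟨(b (b (a (c (a (c (l 16729536) (l 16716528)) (l 16719592)) (a (c (l 16708472) (l 16700112)) (c (l 16694496) (l 16712336)))) (c (a (l 16711176) (l 16703008)) (a (b (l 16687104) (l 16682464)) (l 16677072)))) (a (c (a (l 16719888) (l 16711224)) (a (c (l 16693856) (l 16711000)) (b (l 16685832) (l 16681016)))) (c (a (l 16702880) (b (l 16696856) (l 16693280))) (a (c (l 16698168) (l 16694576)) (c (l 16669688) (l 16666128)))))) (b (c (b (a (a (l 16713528) (l 16705032)) (a (l 16702680) (l 16691296))) (a (a (l 16714784) (c (l 16703864) (l 16699784))) (c (l 16690984) (l 16690856)))) (a (a (a (l 16689512) (b (l 16703392) (l 16677480))) (c (b (l 16699240) (l 16695216)) (b (l 16694856) (l 16690168)))) (c (a (l 16669192) (l 16683712)) (b (a (l 16687344) (l 16680368)) (l 16658416))))) (a (b (c (a (c (l 16708992) (l 16704344)) (l 16700920)) (a (c (l 16699152) (l 16693416)) (l 16668080))) (c (c (l 16701640) (l 16700000)) (a (a (l 16673616) (l 16669944))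 (l 16664592)))) (c (c (a (l 16685608) (l 16673984)) (l 16686984)) (a (c (l 16684456) (l 16676320)) (l 16652960)))))), by decide +kernel⟩

def k141_pm_011_t : ∃ t, chk3 f_pm_011_t t 19 63 1 = true :=
  ⟨(b (c (a (c (a (b (l 16693056) (l 16677384)) (b (l 16681832) (l 16645360))) (b (l 16696000) (l 16683024))) (b (a (c (l 16670456) (l 16679888)) (l 16621872)) (c (b (l 16611376) (l 16624688)) (l 16661720)))) (c (a (a (l 16668864) (l 16683000)) (b (l 16675952) (l 16670680))) (a (b (c (l 16660384) (l 16654968)) (l 16638664)) (a (l 16631936) (l 16635488))))) (c (b (a (b (c (a (l 16665528) (l 16654608)) (l 16673216)) (c (a (l 16658000) (l 16647544)) (l 16666728))) (c (a (l 16598240) (l 16629400)) (l 16648928))) (c (a (l 16643848) (l 16622976)) (a (l 16635792) (l 16635912)))) (b (a (c (l 16679184) (b (l 16642752) (l 16660840))) (a (l 16618904) (l 16633608))) (a (l 16648864) (l 16657664))))), by decide +kernel⟩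

def k142_pm_011_t : ∃ t, chk3 f_pm_011_t t 10 28 1 = true :=
  ⟨(a (l 4) (b (l 4) (a (b (l 4) (b (l 4) (a (l 4) (b (a (l 4) (c (a (l 273502168311) (b (l 247195497095) (a (l 39426460695) (l 16776096)))) (c (c (l 100629751463) (l 16774040)) (l 16781408)))) (a (a (l 4) (c (a (l 263301623207) (b (l 4) (l 20099107575))) (c (l 111904038407) (l 16774072)))) (c (c (a (a (b (l 97945390503) (l 16775888)) (l 16775640)) (l 16773880)) (l 16775008)) (c (l 16774992) (l 16774968)))))))) (a (b (a (l 4) (a (l 4) (b (l 4) (c (b (l 4) (l 250953590871)) (l 259543524615))))) (c (b (a (c (b (l 4) (a (l 241826787447) (a (b (l 245048014727) (l 16776296)) (l 16776032)))) (l 213372625495)) (b (c (a (c (l 166127988503) (l 83449879047)) (l 16775624)) (l 32984014263)) (l 16773088))) (c (a (b (a (l 16775256) (l 16772904)) (l 16770336)) (l 16767480)) (l 16769808))) (c (b (c (a (l 224110042247) (l 16774824)) (a (l 103850981863) (l 16774808))) (l 16764520)) (b (a (b (l 4) (l 16775768)) (l 16774776)) (l 16769720))))) (c (b (b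 (a (l 4) (a (l 261691012823) (b (l 4) (b (l 111367165287) (l 16776352))))) (b (c (a (l 233236850999) (c (l 16776072) (l 16774752))) (a (l 234310591111) (l 16774728))) (a (a (a (b (l 264375366007) (l 16776640)) (l 16777680)) (l 16774616)) (l 16771040)))) (c (b (a (l 16767592) (l 16765456)) (l 16759056)) (b (l 16767784) (l 16760288)))) (c (b (b (a (l 4) (l 230015618711)) (a (b (l 124252072759) (l 16775704)) (l 16772824))) (c (l 16763968) (l 16763928))) (b (b (l 240753023495) (a (l 37278986743) (l 16772776))) (l 16763848)))))))), by decide +kernel⟩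

def k143_pm_011_t : ∃ t, chk3 f_pm_011_t t 40 58 1 = true :=
  ⟨(l 4), by decide +kernel⟩

def k144_pm_011_t : ∃ t, chk3 f_pm_011_t t 82 58 1 = true :=
  ⟨(b (l 4) (b (a (l 4) (a (l 4) (a (l 4) (b (l 4) (b (l 4) (c (a (l 255785434007) (b (l 4) (l 16777024))) (l 100629745415))))))) (c (c (a (b (a (l 4) (l 288534559511)) (b (a (l 4) (a (a (l 252564209383) (b (l 4) (l 16777768))) (a (b (l 108145935879) (l 16776568)) (l 16776456)))) (a (b (c (a (l 4) (l 170959831095)) (l 223036309031)) (a (l 209077665735) (l 16776680))) (c (l 16775440) (l 16775448))))) (a (b (a (b (l 4) (b (l 240216178327) (a (l 52311361015) (l 16776720)))) (b (l 233236856247) (a (l 16777264) (l 16776048)))) (c (l 16772784) (l 16774104))) (b (b (a (b (a (l 265449111159) (l 16777840)) (l 16776592)) (l 16775920)) (l 16774624)) (l 16771816)))) (a (a (l 257396042935) (b (l 287997685111) (l 16778936))) (a (b (a (l 117809616759) (l 16779696)) (l 16774120)) (l 16773680)))) (c (a (a (l 258469783351) (b (l 286387068919) (l 16778936))) (c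 (b (a (l 16776408) (l 16775544)) (l 16773008)) (l 16774744))) (a (l 212298882727) (b (l 16776544) (l 16773040))))))), by decide +kernel⟩

def k145_pm_011_t : ∃ t, chk3 f_pm_011_t t 83 58 1 = true :=
  ⟨(b (a (l 4) (b (l 4) (b (l 4) (c (c (a (l 276186526535) (b (l 238068693319) (a (b (l 113514645975) (l 16776744)) (l 16776064)))) (l 191897793127)) (c (c (l 98482262599) (l 97408526071)) (l 96871655639)))))) (b (a (c (a (b (l 4) (b (b (l 260080400711) (a (l 268670335863) (a (l 16777816) (l 16776616)))) (a (a (b (l 83449874103) (l 16776472)) (l 16776360)) (l 16775504)))) (b (b (l 4) (a (c (l 224110050471) (l 16776304)) (a (b (l 138210707511) (l 16776760)) (l 16777296)))) (b (c (l 16775640) (l 16775648)) (l 16773776)))) (b (c (l 245584880263) (l 128010169383)) (c (c (l 16775776) (l 16775776)) (l 16775768)))) (c (b (c (a (b (a (b (l 275649657847) (l 43184555991)) (l 16777152)) (l 16775216)) (l 16773840)) (l 16774952)) (a (l 16772080) (l 16770112))) (c (a (l 16775560) (l 16771984)) (l 16773104)))) (c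 (c (a (b (a (l 16773264) (l 16770968)) (l 16768384)) (c (l 16765648) (l 16765672))) (a (l 16770280) (l 16765712))) (c (c (l 16768032) (l 16768048)) (l 16768072))))), by decide +kernel⟩

def k146_pm_011_t : ∃ t, chk3 f_pm_011_t t 80 118 1 = true :=
  ⟨(b (l 4) (b (a (l 4) (a (l 4) (b (l 4) (c (c (b (a (l 4) (a (l 4) (b (l 228405019015) (l 38352716647)))) (a (c (c (a (l 4) (l 172570444263)) (l 192971539271)) (l 140895062487)) (a (b (l 63048778727) (l 16776800)) (l 16776472)))) (l 85597360711)) (c (l 86134231623) (l 16776280)))))) (a (a (l 4) (a (l 4) (b (l 4) (b (l 4) (c (c (a (c (l 204245828327) (l 16777864)) (b (a (l 234847470071) (l 79154905911)) (l 16776976))) (l 16777216)) (l 86134229431)))))) (c (b (c (a (a (l 4) (b (a (l 4) (l 209614537383)) (c (a (b (l 216056988215) (l 33520878439)) (l 16776840)) (l 16777088)))) (c (a (a (b (b (l 116198999143) (l 16776984)) (l 16776280)) (l 16776184)) (l 16775336)) (l 16775912))) (a (l 111367164919) (l 16775912))) (c (a (a (b (a (a (l 219278213799) (b (l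 4) (l 16777200))) (a (b (l 115662128039) (l 16776936)) (l 16776888))) (l 16776368)) (l 16775704)) (l 16774008)) (l 16775160))) (c (c (a (l 35131495735) (l 16774960)) (l 16776048)) (l 16778680)))))), by decide +kernel⟩

def k147_pm_011_t : ∃ t, chk3 f_pm_011_t t 81 118 1 = true :=
  ⟨(c (b (b (a (l 4) (b (a (l 4) (a (l 291218914471) (b (l 254711692791) (a (b (l 158074930551) (l 16777120)) (l 16776800))))) (a (a (l 4) (a (l 261691014727) (b (l 4) (b (l 105461581079) (l 16776960))))) (a (b (a (b (l 4) (l 79691777175)) (a (l 20099105895) (l 16776856))) (l 16776352)) (l 16775688))))) (a (a (l 4) (c (a (b (l 4) (b (l 234847470039) (a (b (l 234310598919) (l 16777152)) (l 16776832)))) (a (b (l 4) (b (b (l 108145935607) (l 16776976)) (l 16776272))) (b (b (l 4) (l 183844733095)) (l 16776184)))) (b (l 275112786423) (l 16776952)))) (a (c (b (b (a (a (l 271354691847) (a (l 119957095895) (l 45868909735))) (l 16776536)) (c (a (c (l 16777384) (l 16776728)) (l 16775608)) (l 16776168))) (l 16774112)) (l 16775688))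 (c (c (l 16772784) (l 16773448)) (l 16773456))))) (a (b (b (c (b (a (a (l 4) (a (l 181160378647) (b (l 63048778711) (l 16776800)))) (l 16775616)) (a (a (a (l 218741342695) (b (l 115125257383) (l 16776984))) (l 16776376)) (l 16774680))) (a (l 60364427335) (l 16775152))) (c (a (a (a (b (l 16776840) (l 16775904)) (l 16775808)) (l 16774960)) (l 16773264)) (l 16774400))) (c (c (a (l 16772696) (l 16770440)) (l 16771568)) (l 16771576))) (c (b (a (l 16771944) (l 16769688)) (l 16767056)) (l 16768960)))) (b (a (c (c (l 254174815287) (l 254711683671)) (l 253637938119)) (c (c (b (a (l 267059719607) (l 16777040)) (l 16774600)) (b (l 84523623303) (l 16774616))) (b (a (l 158074937271) (l 16777032)) (l 16774632)))) (c (a (c (b (l 16775336) (l 16771576)) (l 16773504)) (l 16768976)) (a (l 16773504) (l 16768992))))), by decide +kernel⟩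

def k148_pm_011_t : ∃ t, chk3 f_pm_011_t t 41 118 1 = true :=
  ⟨(c (a (b (a (c (b (a (a (a (b (b (l 30299653431) (l 16776232)) (l 16774832)) (l 16774544)) (l 16773040)) (l 16772640)) (c (l 16770032) (l 16770056))) (l 16771952)) (c (b (l 16769232) (l 16765520)) (l 16767448))) (c (a (a (l 16765552) (l 16763296)) (l 16759904)) (l 16762240))) (b (c (a (l 16762168) (l 16758264)) (l 16760648)) (a (l 16754800) (l 16750960)))) (a (c (b (c (l 16769744) (l 16769760)) (c (l 16762288) (l 16762320))) (b (l 16769800) (l 16762368))) (c (c (l 16757096) (l 16757168)) (l 16757272)))), by decide +kernel⟩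

def k149_pm_011_t : ∃ t, chk3 f_pm_011_t t 20 119 1 = true :=
  ⟨(a (c (a (b (c (a (a (b (b (a (l 4) (a (l 4) (b (l 4) (a (l 215520117399) (b (l 4) (l 16777184)))))) (b (a (a (l 4) (b (l 4) (l 183844733319))) (a (b (a (l 232699986391) (l 72712454951)) (l 16776960)) (l 16776632))) (a (a (b (l 206930182663) (a (l 68417487639) (l 16777000))) (a (b (l 16777504) (l 16776712)) (l 16776672))) (l 16775960)))) (b (a (a (l 16775944) (l 16775384)) (l 16774536)) (l 16773192))) (a (b (b (b (a (l 234847470551) (b (l 212835762727) (a (l 75933680439) (l 16777016)))) (a (a (b (l 110293418903) (l 16776920)) (l 16776872)) (l 16776448))) (l 16775304)) (l 16772448)) (b (b (a (b (b (l 16777552) (l 16776592)) (l 16775880)) (l 16775792)) (l 16774176)) (l 16771320)))) (b (c (a (b (l 16774376) (l 16772480)) (l 16771176)) (l 16772296)) (c (l 16768504) (l 16768496)))) (a (b (a (b (l 244511146375) (l 27615301255)) (l 16777352)) (l 16772992)) (l 16767768))) (b (c (a (a (l 16770328) (l 16768072)) (l 16764696)) (l 16766896))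 (c (a (l 16765368) (l 16760880)) (l 16763040)))) (c (b (a (c (b (l 16767792) (l 16764000)) (l 16765896)) (c (l 16761392) (l 16761400))) (a (l 16758304) (l 16753824))) (b (a (l 16765888) (l 16761416)) (l 16756032)))) (a (b (c (a (b (a (b (l 167201740375) (l 27615301255)) (l 16777024)) (l 16772968)) (l 16767744)) (a (b (a (l 75933686247) (l 16775704)) (l 16772936)) (l 16770328))) (c (c (l 16764904) (l 16764856)) (l 16764784))) (c (b (c (l 16763648) (l 16763640)) (l 16755976)) (b (l 16763624) (l 16755896))))) (c (a (c (b (a (l 16756904) (l 16752400)) (l 16747112)) (b (l 16754728) (l 16747160))) (c (b (l 16745648) (l 16738144)) (l 16742064))) (c (a (b (l 16754784) (l 16747184)) (b (l 16745984) (l 16738448))) (a (l 16751016) (l 16742360))))), by decide +kernel⟩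

def k150_pm_011_t : ∃ t, chk3 f_pm_011_t t 42 58 1 = true :=
  ⟨(c (b (a (a (b (l 4) (b (b (a (l 4) (a (l 251490465831) (b (l 86671100519) (l 16776576)))) (c (a (a (l 282092107783) (b (l 257932917687) (l 16777008))) (l 16775752)) (l 35131496359))) (c (a (a (a (b (l 21709719607) (l 16775200)) (l 16775552)) (l 16774688)) (l 16772944)) (l 16774096)))) (b (a (b (l 4) (a (c (l 239679305351) (l 133378873767)) (b (l 267059721575) (l 16777800)))) (b (c (l 260617269191) (l 261154137991)) (a (b (b (l 118883355623) (l 16776816)) (l 16775424)) (l 16775184)))) (c (b (c (l 16771888) (l 16773192)) (l 16769456)) (l 16771320)))) (b (a (a (b (c (b (l 201024600423) (a (l 16776800) (l 16775664))) (l 16777040)) (l 16773432)) (c (b (l 16774832) (l 16771096)) (l 16772952))) (c (c (l 16768128) (l 16769432)) (l 16769424))) (c (a (c (l 16766664) (l 16766664)) (l 16761992)) (l 16764312)))) (a (b (c (a (a (l 16769000) (l 16767344)) (l 16763872)) (l 16760960)) (c (a (l 16761072) (l 16756488)) (l 16758840))) (c (b (a (l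 16759256) (l 16754616)) (l 16749600)) (b (l 16756952) (l 16749656))))) (c (b (a (b (c (c (l 231626231511) (l 233236843335)) (l 232699971047)) (a (c (b (l 67343753959) (l 16774096)) (l 16781024)) (l 16771320))) (b (a (c (l 16774048) (l 16774040)) (l 16769392)) (l 16764296))) (a (b (l 16763592) (l 16758888)) (c (l 16753304) (l 16753304)))) (b (a (b (c (l 232163098311) (l 231626225591)) (a (b (l 16781040) (l 16774088)) (l 16771304))) (b (l 16773312) (l 16764264))) (a (l 16757304) (l 16753304))))), by decide +kernel⟩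

def k151_pm_011_t : ∃ t, chk3 f_pm_011_t t 43 58 1 = true :=
  ⟨(c (b (a (c (b (a (l 16764720) (l 16760000)) (l 16754288)) (b (l 16762320) (l 16754920))) (c (b (l 16752896) (l 16745488)) (l 16749136))) (a (c (b (l 16747600) (l 16740328)) (l 16743976)) (c (l 16733240) (l 16734568)))) (b (c (a (c (l 16758592) (l 16758560)) (l 16749048)) (a (l 16758504) (l 16748936))) (c (a (l 16743976) (l 16734560)) (a (l 16743952) (l 16734528))))), by decide +kernel⟩

def k152_pm_011_t : ∃ t, chk3 f_pm_011_t t 21 59 1 = true :=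
  ⟨(c (a (b (a (c (b (l 16750120) (l 16744048)) (l 16745304)) (c (b (l 16742312) (l 16734920)) (l 16738840))) (a (b (l 16736752) (l 16729288)) (c (l 16723792) (l 16724192)))) (b (a (c (l 16729520) (l 16729664)) (c (l 16720200) (l 16720360))) (a (c (l 16714792) (l 16715296)) (l 16706232)))) (a (b (c (a (c (l 16748032) (l 16748104)) (l 16738976)) (a (l 16748208) (l 16739096))) (c (a (l 16733440) (l 16724608)) (a (l 16733720) (l 16725024)))) (b (c (a (l 16729792) (l 16720480)) (l 16725240)) (c (a (l 16715808) (l 16706744)) (l 16711632))))), by decide +kernel⟩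

def k153_pm_011_t : ∃ t, chk3 f_pm_011_t t 22 56 1 = true :=
  ⟨(a (b (a (l 4) (l 4)) (b (a (l 4) (a (b (l 4) (c (c (l 197803371687) (l 97408526743)) (c (l 106535269863) (l 16773064)))) (c (b (a (l 226257529143) (c (l 16776568) (l 16776552))) (l 16774120)) (c (l 79691730551) (l 16775744))))) (c (a (a (l 263301620679) (b (l 236458073463) (a (a (l 90429199863) (l 16779504)) (l 16775144)))) (a (c (b (a (l 16776408) (l 16774064)) (l 16771568)) (l 16773336)) (l 16768560))) (c (a (c (l 214983232551) (l 217130715063)) (l 16770848)) (a (l 217667584263) (l 16770760)))))) (c (b (a (b (a (l 4) (b (l 4) (l 210688271991))) (b (a (l 234310588407) (a (a (l 16779584) (l 16776112)) (l 16774312))) (a (a (a (l 111367166455) (l 36742108103)) (l 16775464)) (l 16771832)))) (a (b (b (a (l 230015624679) (l 16779352)) (l 16774328)) (l 16768808)) (b (l 16771288) (l 16763928)))) (a (c (b (a (l 16771176) (l 16766352)) (l 16761376)) (l 16759696)) (c (b (l 16759104) (l 16751736)) (l 16755176)))) (b (c (a (b (l 236458077383)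 (c (a (l 68417500551) (l 16773576)) (l 19025378759))) (b (a (l 80765473495) (l 16771176)) (l 16766152))) (a (b (l 238068665463) (l 90965996679)) (l 73249270167))) (c (a (l 16759544) (l 16754920)) (a (l 16764632) (l 16754648)))))), by decide +kernel⟩

def k154_pm_011_t : ∃ t, chk3 f_pm_011_t t 22 57 1 = true :=
  ⟨(a (c (b (b (a (a (b (a (l 220351950663) (c (l 16776200) (l 16776176))) (l 16773712)) (l 16768152)) (c (l 16763600) (l 16763480))) (a (a (l 16768112) (l 16763312)) (l 16756096))) (a (c (b (l 16758304) (l 16750840)) (l 16754456)) (c (l 16744992) (l 16744848)))) (c (b (a (b (c (l 16773016) (l 16772984)) (l 16765576)) (l 16759600)) (a (l 16754320) (l 16744680))) (b (a (l 76470503767) (l 16759432)) (l 16749328)))) (c (b (a (a (l 16752568) (l 16747736)) (c (l 16740632) (l 16740360))) (a (l 16735296) (l 16725664))) (c (b (a (l 16749848) (l 16740072)) (l 16730192)) (b (l 16744680) (l 16729992))))), by decide +kernel⟩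

def k155_pm_011_t : ∃ t, chk3 f_pm_011_t t 23 28 1 = true :=
  ⟨(b (c (a (b (a (b (l 16763928) (l 16756600)) (c (l 16750608) (l 16750288))) (a (c (l 16745768) (l 16745408)) (l 16735864))) (b (a (l 16740624) (l 16730792)) (a (l 16726128) (l 16716384)))) (a (b (c (a (l 16759936) (l 16749960)) (l 16754656)) (c (l 16740088) (l 16739624))) (c (b (l 16734992) (l 16720304)) (b (l 16734480) (l 16719616))))) (b (c (a (a (l 16730848) (l 16721208)) (l 16706720)) (a (c (l 16725376) (l 16724920)) (l 16705744))) (c (a (a (l 16716064) (l 16706480)) (l 16692112)) (a (c (l 16710800) (l 16710472)) (l 16691080))))), by decide +kernel⟩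

def k156_pm_011_t : ∃ t, chk3 f_pm_011_t t 11 29 1 = true :=
  ⟨(a (b (c (a (b (a (c (l 16737072) (l 16739616)) (l 16730104)) (a (c (l 16725072) (l 16725096)) (l 16715576))) (b (a (l 16720512) (l 16710912)) (a (l 16706016) (l 16696456)))) (a (b (c (a (l 16739512) (l 16729960)) (l 16734608)) (c (a (l 16725088) (l 16715624)) (l 16720344))) (c (b (l 16715616) (l 16701408)) (b (l 16715544) (l 16701536))))) (c (a (b (a (l 16710888) (l 16701408)) (a (l 16696952) (l 16687552))) (b (a (l 16691896) (l 16682376)) (a (l 16678072) (l 16668600)))) (a (b (c (l 16706432) (l 16706584)) (c (l 16692800) (l 16693152))) (b (c (l 16687616) (l 16687960)) (c (l 16674144) (l 16674728)))))) (b (b (c (a (l 16696584) (l 16677536)) (a (l 16696352) (l 16677008))) (c (a (l 16682176) (l 16663248)) (a (l 16682480) (l 16663328)))) (c (a (b (l 16668152) (l 16654440)) (b (l 16649312) (l 16635688))) (a (b (l 16668992) (l 16655816)) (b (l 16650056) (l 16637072)))))), by decide +kernel⟩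

def k157_pm_011_t : ∃ t, chk3 f_pm_011_t t 20 30 1 = true :=
  ⟨(b (a (c (b (a (b (c (a (c (l 16759656) (l 16759592)) (l 16755160)) (l 16757248)) (c (a (l 16752000) (l 16747552)) (l 16749536))) (a (b (l 16750648) (l 16743016)) (b (l 16746208) (l 16738616)))) (a (c (b (l 16742168) (l 16734552)) (b (l 16741784) (l 16734000))) (b (l 16733208) (l 16725608)))) (b (a (c (b (c (l 16757112) (l 16757016)) (l 16749232)) (b (l 16756848) (l 16748872))) (c (b (l 16748240) (l 16740480)) (l 16744144))) (a (c (b (l 16741320) (l 16733344)) (l 16736704)) (c (l 16728808) (l 16728280))))) (c (b (a (c (b (l 16739560) (l 16732040)) (l 16735776)) (c (l 16726912) (l 16727008))) (a (c (l 16720808) (l 16720600)) (c (l 16712016) (l 16711984)))) (b (c (a (l 16733080) (l 16727080)) (a (l 16735592) (l 16727120))) (c (a (l 16720312) (l 16711888)) (a (l 16719960) (l 16711736)))))) (a (c (b (a (c (l 16721760) (l 16722208)) (c (l 16714456) (l 16713768))) (a (c (l 16707592) (l 16706176)) (l 16698616))) (b (a (c (l 16721192) (l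 16720040)) (c (l 16712936) (l 16711976))) (a (c (l 16704552) (l 16681736)) (c (l 16696656) (l 16674136))))) (a (c (b (l 16703960) (l 16690288)) (b (c (l 16704744) (l 16704024)) (l 16682944))) (c (b (l 16697032) (l 16681920)) (b (l 16692392) (l 16680472)))))), by decide +kernel⟩

def k158_pm_011_t : ∃ t, chk3 f_pm_011_t t 21 30 1 = true :=
  ⟨(b (c (a (b (a (c (l 16717976) (l 16718224)) (l 16706552)) (a (l 16703264) (l 16694448))) (b (a (l 16700312) (l 16691600)) (a (l 16685696) (l 16677080)))) (a (b (c (a (l 16718448) (l 16709744)) (l 16703904)) (c (l 16693928) (l 16699344))) (b (c (l 16696784) (l 16697352)) (c (l 16682176) (l 16682696))))) (b (c (a (a (l 16688424) (l 16679752)) (l 16656400)) (a (c (l 16684160) (l 16684128)) (c (l 16667568) (l 16667992)))) (a (c (b (l 16672960) (a (l 16670112) (l 16662176))) (b (l 16672640) (c (l 16665312) (l 16664392)))) (a (c (b (l 16660344) (l 16652296)) (b (l 16660648) (l 16653088))) (c (b (l 16652008) (l 16641520)) (b (l 16652664) (l 16645168))))))), by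 decide +kernel⟩

def k159_pm_011_t : ∃ t, chk3 f_pm_011_t t 10 31 1 = true :=
  ⟨(b (c (b (a (a (b (a (l 16694888) (l 16686968)) (a (b (l 16689152) (l 16686648)) (c (l 16680064) (l 16680016)))) (a (b (b (l 16680624) (l 16677520)) (l 16670544)) (b (l 16682488) (l 16659536)))) (c (a (b (l 16654528) (l 16640760)) (b (l 16632560) (l 16598288))) (a (l 16652176) (l 16631528)))) (a (a (c (b (l 16671352) (l 16656776)) (b (l 16677136) (l 16664968))) (c (b (l 16648744) (l 16592552)) (l 16649560))) (a (c (a (l 16583392) (l 16572816)) (l 16628944)) (c (a (l 16562328) (l 16572816)) (l 16609000))))) (b (a (a (b (a (l 16669536) (l 16683032)) (c (a (l 16683584) (l 16676800)) (a (l 16659168) (l 16652192)))) (b (c (l 16673208) (a (l 16674696) (l 16667432))) (c (l 16666904) (l 16662272)))) (a (c (l 16655696) (b (l 16655824) (l 16646920))) (c (l 16637952) (l 16634992)))) (c (a (a (l 16671536) (l 16658360)) (a (l 16639144) (l 16620480))) (a (a (a (l 16645912) (l 16659880)) (l 16654312)) (a (l 16633712) (l 16617360))))))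 (a (a (b (c (c (b (a (l 16647656) (l 16636488)) (a (l 16632672) (l 16621672))) (l 16651680)) (b (c (l 16663312) (l 16650368)) (l 16608144))) (b (c (c (b (l 16616152) (l 16610280)) (l 16606864)) (l 16603456)) (c (l 16566272) (l 16637240)))) (b (b (c (c (l 16578144) (l 16631568)) (l 16622264)) (c (c (a (l 16610864) (l 16600200)) (l 16598360)) (l 16583840))) (c (c (b (l 16592936) (l 16581880)) (l 16559120)) (b (l 16632528) (l 16616416))))) (a (b (b (c (c (l 16599000) (l 16590384)) (l 16628472)) (c (c (b (l 16588360) (l 16581216)) (l 16578272)) (l 16579808))) (c (a (l 16516120) (l 16527344)) (l 16531176))) (b (c (c (b (l 16578504) (l 16564728)) (l 16585592)) (b (l 16612808) (l 16585504))) (c (c (l 16548768) (l 16561848)) (l 16585400)))))), by decide +kernel⟩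

def k160_pm_011_t : ∃ t, chk3 f_pm_011_t t 11 30 1 = true :=
  ⟨(b (a (c (a (b (a (l 16683016) (l 16673712)) (l 16658952)) (b (a (l 16664304) (l 16654872)) (l 16645544))) (a (b (c (l 16679216) (l 16679768)) (c (l 16665280) (l 16666016))) (b (c (l 16660720) (l 16661504)) (l 16636872)))) (c (a (b (l 16640792) (l 16626856)) (b (l 16622136) (b (l 16611800) (l 16604280)))) (a (b (l 16642632) (l 16629008)) (b (l 16624048) (c (l 16609816) (l 16611408)))))) (a (b (a (c (a (l 16654280) (l 16644816)) (a (l 16655536) (l 16646920))) (c (b (l 16634680) (c (l 16646672) (l 16627288))) (c (l 16632552) (l 16634280)))) (a (c (b (a (l 16642336) (l 16631888)) (l 16625480)) (c (l 16636024) (l 16635672))) (c (c (l 16607840) (l 16612200)) (c (l 16617208) (l 16617896))))) (b (a (c (b (l 16636432) (l 16605504)) (c (l 16614264) (l 16617032))) (c (c (l 16588544) (l 16591888)) (c (l 16595776) (l 16599200)))) (c (a (c (l 16586112) (l 16591984)) (l 16578936)) (c (l 16589664) (l 16590728)))))), by decide +kernel⟩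

def k161_pm_011_t : ∃ t, chk3 f_pm_011_t t 11 31 1 = true :=
  ⟨(b (a (c (c (a (b (l 16604304) (b (l 16584688) (l 16571424))) (a (b (l 16567136) (l 16562312)) (b (l 16577384) (l 16551896)))) (a (b (l 16611264) (l 16589248)) (b (l 16591184) (l 16548688)))) (c (b (a (l 16619272) (l 16600976)) (l 16603632)) (b (a (l 16617928) (l 16600144)) (a (l 16600344) (l 16582616))))) (c (c (a (b (l 16509160) (l 16557528)) (b (l 16520112) (l 16516664))) (b (l 16561672) (l 16540896))) (c (b (l 16573968) (l 16557848)) (b (l 16573144) (l 16555736))))) (a (a (b (c (c (b (l 16558032) (l 16545080)) (l 16503456)) (a (l 16535048) (l 16526608))) (c (c (l 16529800) (l 16542904)) (l 16566704))) (c (b (c (b (l 16537560) (l 16525512)) (l 16505416)) (c (l 16510776) (l 16524072))) (b (c (l 16566184) (l 16567160)) (l 16548464)))) (a (b (b (c (l 16462672) (l 16562928)) (c (l 16472576) (l 16554816))) (c (l 16456568) (l 16530416))) (b (c (b (l 16443544) (l 16474976)) (l 16479696)) (c (l 16480416) (l 16512400)))))), by decide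 +kernel⟩

def k162_pm_011_t : ∃ t, chk3 f_pm_011_t t 12 12 1 = true :=
  ⟨(b (l 4) (a (l 4) (b (l 4) (a (l 4) (b (l 4) (a (c (c (l 232163079207) (l 228404980039)) (l 226257492311)) (c (c (a (l 94187218375) (l 85060436343)) (l 87207892871)) (l 86134150583)))))))), by decide +kernel⟩

def k163_pm_011_t : ∃ t, chk3 f_pm_011_t t 12 26 1 = true :=
  ⟨(a (b (l 4) (b (a (l 4) (a (c (c (l 228941857351) (l 226794370439)) (l 225720623703)) (c (b (c (l 192434656183) (l 143042489895)) (c (l 16773544) (l 16773520))) (c (l 87207890279) (l 16737288))))) (a (a (l 4) (c (b (l 4) (a (l 227331270743) (c (l 16755936) (l 16755920)))) (l 206393292167))) (c (b (a (c (l 89892270087) (l 87744786055)) (l 16763712)) (c (l 16764272) (l 16764208))) (c (l 77544226087) (l 16744016)))))) (b (a (b (a (l 4) (c (c (l 211761995815) (l 209614510119)) (l 208003894327))) (c (c (a (l 168812313735) (l 16770776)) (a (b (l 224646896455) (l 88818525879)) (l 16755024))) (a (c (l 92576581639) (l 92576581159)) (l 16770728)))) (c (b (a (c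 (l 84523553287) (l 82912941159)) (c (l 16764048) (l 16764080))) (c (l 16754968) (l 16754976))) (a (b (l 81839197943) (l 16760248)) (l 16735888)))) (c (a (b (c (l 16756360) (a (l 16766792) (l 16756344))) (c (l 16747240) (l 16747136))) (c (b (l 16740672) (l 16726520)) (b (l 16740640) (l 16726400)))) (a (b (l 16756256) (l 16746952)) (b (l 16740536) (l 16726144)))))), by decide +kernel⟩

def k164_pm_011_t : ∃ t, chk3 f_pm_011_t t 12 27 1 = true :=
  ⟨(a (b (a (c (c (a (b (b (l 216593841767) (a (l 94187245271) (l 16772720))) (l 16764344)) (b (l 31910231095) (l 16754256))) (b (a (b (l 215520097959) (l 85597306903)) (l 32983972967)) (a (l 16764248) (l 16754088)))) (b (a (b (l 165054188599) (l 84523563991)) (l 16768552)) (a (l 16764088) (l 16753816)))) (c (b (c (l 16753440) (l 16753312)) (c (l 16739112) (l 16738856))) (b (l 16753088) (l 16738432)))) (c (a (a (b (l 16749752) (l 16735312)) (b (l 16739728) (l 16725376))) (b (c (l 16724888) (l 16724480)) (l 16710488))) (a (c (b (l 16744320) (l 16729656))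 (l 16736560)) (b (l 16723816) (l 16709232))))) (c (b (a (c (b (l 16733000) (l 16718880)) (b (l 16732792) (l 16718536))) (c (l 16705520) (l 16705208))) (a (b (l 16704624) (l 16690624)) (b (l 16684552) (l 16670776)))) (b (a (b (l 16732424) (l 16717936)) (l 16704600)) (a (c (l 16696616) (l 16695880)) (l 16676056))))), by decide +kernel⟩

def k165_pm_011_t : ∃ t, chk3 f_pm_011_t t 13 6 1 = true :=
  ⟨(b (b (l 1) (a (b (l 1) (a (b (l 1) (c (c (l 100965228199) (l 16762376)) (l 16762472))) (l 1))) (l 1))) (b (b (a (c (a (c (b (l 16747920) (l 16733696)) (b (l 16748032) (l 16733792))) (c (l 16719200) (l 16719488))) (a (b (l 16748144) (l 16733840)) (l 16719760))) (l 1)) (a (c (a (c (l 16712624) (l 16712608)) (c (l 16691536) (l 16691664))) (a (l 16712440) (l 16691592))) (a (a (c (l 16675752) (l 16675960)) (l 1)) (l 1)))) (a (c (b (a (c (l 16685056) (l 16684760)) (c (l 16664472) (l 16664280))) (a (l 16657648) (l 16637632))) (b (a (l 16684088) (l 16663600)) (a (l 16655904) (l 16635800)))) (c (b (a (l 16643752)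 (l 16622632)) (a (l 16617520) (l 16597000))) (b (a (l 16643144) (l 16622688)) (a (l 16615728) (l 16595656))))))), by decide +kernel⟩

def k166_pm_011_t : ∃ t, chk3 f_pm_011_t t 7 6 1 = true :=
  ⟨(b (l 1) (a (b (l 1) (b (l 1) (a (a (c (l 16575536) (l 16575584)) (l 1)) (l 1)))) (l 1))), by decide +kernel⟩

def k167_pm_011_t : ∃ t, chk3 f_pm_011_t t 6 14 1 = true :=
  ⟨(b (a (a (b (c (a (b (a (l 16720960) (l 16711120)) (l 16701768)) (b (l 16696376) (l 16682288))) (a (c (b (l 16715048) (l 16700528)) (l 16706936)) (c (l 16687920) (l 16686912)))) (c (a (b (l 16687400) (l 16672960)) (b (l 16668112) (l 16653848))) (a (c (l 16678992) (l 16678160)) (c (l 16659512) (l 16658472))))) (c (b (a (b (l 16676720) (l 16662840)) (l 16650232)) (a (l 16641808) (l 16622720))) (b (a (c (l 16668136) (l 16666920)) (c (l 16648392) (l 16646976))) (a (l 16639472) (l 16620008))))) (a (c (b (a (l 16630728) (l 16611224)) (a (l 16603688) (l 16584704))) (b (a (l 16627928) (l 16608200)) (a (l 16600608) (l 16581272)))) (c (b (a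 (l 16591680) (l 16571888)) (a (l 16565728) (l 16546680))) (b (a (l 16588528) (l 16568856)) (a (l 16562008) (l 16542744)))))) (a (a (b (c (a (l 16651488) (l 16632624)) (a (c (l 16651032) (l 16650744)) (l 16631664))) (c (a (l 16623888) (l 16605344)) (a (b (l 16631072) (l 16618280)) (l 16605880)))) (b (c (a (l 16613856) (l 16595184)) (a (l 16612504) (l 16593408))) (c (a (l 16586920) (l 16568640)) (a (l 16587080) (l 16568360))))) (a (b (c (a (l 16576616) (l 16558144)) (a (l 16574392) (l 16555456))) (b (c (l 16547768) (l 16546328)) (c (a (l 16543680) (l 16525608)) (a (l 16543656) (l 16525616))))) (b (c (l 16530496) (l 16532392)) (a (c (b (l 16520624) (l 16507416)) (b (l 16518496) (l 16507904))) (l 6)))))), by decide +kernel⟩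

def k168_pm_011_t : ∃ t, chk3 f_pm_011_t t 6 15 1 = true :=
  ⟨(b (a (b (a (a (b (c (l 16603632) (l 16605432)) (c (b (l 16593008) (l 16584896)) (c (l 16591520) (l 16593632)))) (c (b (l 16585032) (l 16590512)) (b (l 16586816) (l 16574784)))) (b (c (a (l 16566464) (l 16548000)) (a (l 16568504) (l 16550624))) (c (a (l 16549544) (l 16530240)) (c (l 16545992) (l 16551088))))) (a (a (b (c (l 16569512) (l 16580424)) (c (l 16548520) (l 16568216))) (c (c (l 16535864) (l 16543288)) (c (l 16552184) (l 16553888)))) (c (a (c (l 16516440) (l 16524624)) (a (l 16522112) (l 16518232))) (c (l 16525744) (l 16526528))))) (a (b (c (b (a (l 16529080) (l 16510080)) (l 16523192)) (a (c (l 16525800) (l 16530200)) (l 16510576))) (l 6)) (l 6))) (a (b (a (c (a (c (b (l 16521224) (l 16497440)) (l 16523216)) (b (l 16505504) (l 6))) (c (l 16531088) (a (l 16537392) (l 16519416)))) (l 6)) (b (a (b (a (c (l 16425200) (l 16529336)) (l 6)) (l 6)) (l 6)) (l 6))) (l 6))), by decide +kernel⟩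

def k169_pm_011_t : ∃ t, chk3 f_pm_011_t t 7 7 1 = true :=
  ⟨(b (a (b (b (a (c (a (l 16550784) (l 16529544)) (a (l 16549168) (l 16529480))) (l 1)) (a (c (l 16515952) (l 16513784)) (l 6))) (b (a (a (a (l 16505880) (l 6)) (l 6)) (l 6)) (l 6))) (l 6)) (l 6)), by decide +kernel⟩

theorem s170_pm_011_t : ∃ t, chk3 f_pm_011_t t 6 7 1 = true := ex3_b k167_pm_011_t k168_pm_011_t

theorem s171_pm_011_t : ∃ t, chk3 f_pm_011_t t 3 7 1 = true := ex3_a s170_pm_011_t k169_pm_011_t

theorem s172_pm_011_t : ∃ t, chk3 f_pm_011_t t 12 13 1 = true := ex3_b k163_pm_011_t k164_pm_011_t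

theorem s173_pm_011_t : ∃ t, chk3 f_pm_011_t t 12 6 1 = true := ex3_b k162_pm_011_t s172_pm_011_t

theorem s174_pm_011_t : ∃ t, chk3 f_pm_011_t t 6 6 1 = true := ex3_a s173_pm_011_t k165_pm_011_t

theorem s175_pm_011_t : ∃ t, chk3 f_pm_011_t t 3 6 1 = true := ex3_a s174_pm_011_t k166_pm_011_t

theorem s176_pm_011_t : ∃ t, chk3 f_pm_011_t t 3 3 1 = true := ex3_b s175_pm_011_t s171_pm_011_t

theorem s177_pm_011_t : ∃ t, chk3 f_pm_011_t t 11 15 1 = true := ex3_b k160_pm_011_t k161_pm_011_t

theorem s178_pm_011_t : ∃ t, chk3 f_pm_011_t t 10 30 1 = true := ex3_a k157_pm_011_t k158_pm_011_t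

theorem s179_pm_011_t : ∃ t, chk3 f_pm_011_t t 10 15 1 = true := ex3_b s178_pm_011_t k159_pm_011_t

theorem s180_pm_011_t : ∃ t, chk3 f_pm_011_t t 5 15 1 = true := ex3_a s179_pm_011_t s177_pm_011_t

theorem s181_pm_011_t : ∃ t, chk3 f_pm_011_t t 22 28 1 = true := ex3_b k153_pm_011_t k154_pm_011_t

theorem s182_pm_011_t : ∃ t, chk3 f_pm_011_t t 11 28 1 = true := ex3_a s181_pm_011_t k155_pm_011_t

theorem s183_pm_011_t : ∃ t, chk3 f_pm_011_t t 11 14 1 = true := ex3_b s182_pm_011_t k156_pm_011_t

theorem s184_pm_011_t : ∃ t, chk3 f_pm_011_t t 21 58 1 = true := ex3_a k150_pm_011_t k151_pm_011_t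

theorem s185_pm_011_t : ∃ t, chk3 f_pm_011_t t 21 29 1 = true := ex3_b s184_pm_011_t k152_pm_011_t

theorem s186_pm_011_t : ∃ t, chk3 f_pm_011_t t 40 118 1 = true := ex3_a k146_pm_011_t k147_pm_011_t

theorem s187_pm_011_t : ∃ t, chk3 f_pm_011_t t 20 118 1 = true := ex3_a s186_pm_011_t k148_pm_011_t

theorem s188_pm_011_t : ∃ t, chk3 f_pm_011_t t 20 59 1 = true := ex3_b s187_pm_011_t k149_pm_011_t

theorem s189_pm_011_t : ∃ t, chk3 f_pm_011_t t 41 58 1 = true := ex3_a k144_pm_011_t k145_pm_011_t

theorem s190_pm_011_t : ∃ t, chk3 f_pm_011_t t 20 58 1 = true := ex3_a k143_pm_011_t s189_pm_011_t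

theorem s191_pm_011_t : ∃ t, chk3 f_pm_011_t t 20 29 1 = true := ex3_b s190_pm_011_t s188_pm_011_t

theorem s192_pm_011_t : ∃ t, chk3 f_pm_011_t t 10 29 1 = true := ex3_a s191_pm_011_t s185_pm_011_t

theorem s193_pm_011_t : ∃ t, chk3 f_pm_011_t t 10 14 1 = true := ex3_b k142_pm_011_t s192_pm_011_t

theorem s194_pm_011_t : ∃ t, chk3 f_pm_011_t t 5 14 1 = true := ex3_a s193_pm_011_t s183_pm_011_t

theorem s195_pm_011_t : ∃ t, chk3 f_pm_011_t t 5 7 1 = true := ex3_b s194_pm_011_t s180_pm_011_t

theorem s196_pm_011_t : ∃ t, chk3 f_pm_011_t t 19 31 1 = true := ex3_b k140_pm_011_t k141_pm_011_t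

theorem s197_pm_011_t : ∃ t, chk3 f_pm_011_t t 18 63 1 = true := ex3_b k138_pm_011_t k139_pm_011_t

theorem s198_pm_011_t : ∃ t, chk3 f_pm_011_t t 18 124 1 = true := ex3_a k135_pm_011_t k136_pm_011_t

theorem s199_pm_011_t : ∃ t, chk3 f_pm_011_t t 18 62 1 = true := ex3_b s198_pm_011_t k137_pm_011_t

theorem s200_pm_011_t : ∃ t, chk3 f_pm_011_t t 18 31 1 = true := ex3_b s199_pm_011_t s197_pm_011_t

theorem s201_pm_011_t : ∃ t, chk3 f_pm_011_t t 9 31 1 = true := ex3_a s200_pm_011_t s196_pm_011_t

theorem s202_pm_011_t : ∃ t, chk3 f_pm_011_t t 78 240 1 = true := ex3_a k129_pm_011_t k130_pm_011_t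

theorem s203_pm_011_t : ∃ t, chk3 f_pm_011_t t 78 120 1 = true := ex3_b s202_pm_011_t k131_pm_011_t

theorem s204_pm_011_t : ∃ t, chk3 f_pm_011_t t 78 60 1 = true := ex3_b s203_pm_011_t k132_pm_011_t

theorem s205_pm_011_t : ∃ t, chk3 f_pm_011_t t 39 60 1 = true := ex3_a s204_pm_011_t k133_pm_011_t

theorem s206_pm_011_t : ∃ t, chk3 f_pm_011_t t 76 485 2 = true := ex3_b k124_pm_011_t k125_pm_011_t

theorem s207_pm_011_t : ∃ t, chk3 f_pm_011_t t 76 242 2 = true := ex3_b k123_pm_011_t s206_pm_011_t

theorem s208_pm_011_t : ∃ t, chk3 f_pm_011_t t 76 121 2 = true := ex3_b s207_pm_011_t k126_pm_011_t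

theorem s209_pm_011_t : ∃ t, chk3 f_pm_011_t t 38 121 2 = true := ex3_a s208_pm_011_t k127_pm_011_t

theorem s210_pm_011_t : ∃ t, chk3 f_pm_011_t t 38 121 1 = true := ex3_c s209_pm_011_t k128_pm_011_t

theorem s211_pm_011_t : ∃ t, chk3 f_pm_011_t t 155 120 1 = true := ex3_b k121_pm_011_t k122_pm_011_t

theorem s212_pm_011_t : ∃ t, chk3 f_pm_011_t t 154 241 1 = true := ex3_b k119_pm_011_t k120_pm_011_t

theorem s213_pm_011_t : ∃ t, chk3 f_pm_011_t t 154 120 1 = true := ex3_b k118_pm_011_t s212_pm_011_t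

theorem s214_pm_011_t : ∃ t, chk3 f_pm_011_t t 77 120 1 = true := ex3_a s213_pm_011_t s211_pm_011_t

theorem s215_pm_011_t : ∃ t, chk3 f_pm_011_t t 38 120 1 = true := ex3_a k117_pm_011_t s214_pm_011_t

theorem s216_pm_011_t : ∃ t, chk3 f_pm_011_t t 38 60 1 = true := ex3_b s215_pm_011_t s210_pm_011_t

theorem s217_pm_011_t : ∃ t, chk3 f_pm_011_t t 19 60 1 = true := ex3_a s216_pm_011_t s205_pm_011_t

theorem s218_pm_011_t : ∃ t, chk3 f_pm_011_t t 19 30 1 = true := ex3_b s217_pm_011_t k134_pm_011_t

theorem s219_pm_011_t : ∃ t, chk3 f_pm_011_t t 75 122 2 = true := ex3_a k113_pm_011_t k114_pm_011_t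

theorem s220_pm_011_t : ∃ t, chk3 f_pm_011_t t 75 122 1 = true := ex3_c s219_pm_011_t k115_pm_011_t

theorem s221_pm_011_t : ∃ t, chk3 f_pm_011_t t 148 490 2 = true := ex3_a k108_pm_011_t k109_pm_011_t

theorem s222_pm_011_t : ∃ t, chk3 f_pm_011_t t 148 245 2 = true := ex3_b s221_pm_011_t k110_pm_011_t

theorem s223_pm_011_t : ∃ t, chk3 f_pm_011_t t 74 245 2 = true := ex3_a s222_pm_011_t k111_pm_011_t

theorem s224_pm_011_t : ∃ t, chk3 f_pm_011_t t 149 489 2 = true := ex3_c k106_pm_011_t k107_pm_011_t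

theorem s225_pm_011_t : ∃ t, chk3 f_pm_011_t t 149 244 2 = true := ex3_b k105_pm_011_t s224_pm_011_t

theorem s226_pm_011_t : ∃ t, chk3 f_pm_011_t t 74 244 2 = true := ex3_a k104_pm_011_t s225_pm_011_t

theorem s227_pm_011_t : ∃ t, chk3 f_pm_011_t t 74 122 2 = true := ex3_b s226_pm_011_t s223_pm_011_t

theorem s228_pm_011_t : ∃ t, chk3 f_pm_011_t t 74 122 1 = true := ex3_c s227_pm_011_t k112_pm_011_t

theorem s229_pm_011_t : ∃ t, chk3 f_pm_011_t t 37 122 1 = true := ex3_a s228_pm_011_t s220_pm_011_t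

theorem s230_pm_011_t : ∃ t, chk3 f_pm_011_t t 37 61 1 = true := ex3_b s229_pm_011_t k116_pm_011_t

theorem s231_pm_011_t : ∃ t, chk3 f_pm_011_t t 292 246 2 = true := ex3_b k98_pm_011_t k99_pm_011_t

theorem s232_pm_011_t : ∃ t, chk3 f_pm_011_t t 146 246 2 = true := ex3_a s231_pm_011_t k100_pm_011_t

theorem s233_pm_011_t : ∃ t, chk3 f_pm_011_t t 73 246 2 = true := ex3_a s232_pm_011_t k101_pm_011_t

theorem s234_pm_011_t : ∃ t, chk3 f_pm_011_t t 73 123 2 = true := ex3_b s233_pm_011_t k102_pm_011_t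

theorem s235_pm_011_t : ∃ t, chk3 f_pm_011_t t 73 123 1 = true := ex3_c s234_pm_011_t k103_pm_011_t

theorem s236_pm_011_t : ∃ t, chk3 f_pm_011_t t 144 989 1 = true := ex3_a k94_pm_011_t k95_pm_011_t

theorem s237_pm_011_t : ∃ t, chk3 f_pm_011_t t 144 494 1 = true := ex3_b k93_pm_011_t s236_pm_011_t

theorem s238_pm_011_t : ∃ t, chk3 f_pm_011_t t 72 494 1 = true := ex3_a s237_pm_011_t k96_pm_011_t

theorem s239_pm_011_t : ∃ t, chk3 f_pm_011_t t 72 247 1 = true := ex3_b s238_pm_011_t k97_pm_011_t

theorem s240_pm_011_t : ∃ t, chk3 f_pm_011_t t 145 987 1 = true := ex3_c k91_pm_011_t k92_pm_011_t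

theorem s241_pm_011_t : ∃ t, chk3 f_pm_011_t t 145 493 1 = true := ex3_b k90_pm_011_t s240_pm_011_t

theorem s242_pm_011_t : ∃ t, chk3 f_pm_011_t t 145 246 1 = true := ex3_b k89_pm_011_t s241_pm_011_t

theorem s243_pm_011_t : ∃ t, chk3 f_pm_011_t t 72 246 1 = true := ex3_a k88_pm_011_t s242_pm_011_t

theorem s244_pm_011_t : ∃ t, chk3 f_pm_011_t t 72 123 1 = true := ex3_b s243_pm_011_t s239_pm_011_t

theorem s245_pm_011_t : ∃ t, chk3 f_pm_011_t t 36 123 1 = true := ex3_a s244_pm_011_t s235_pm_011_t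

theorem s246_pm_011_t : ∃ t, chk3 f_pm_011_t t 295 245 1 = true := ex3_b k86_pm_011_t k87_pm_011_t

theorem s247_pm_011_t : ∃ t, chk3 f_pm_011_t t 147 245 1 = true := ex3_a k85_pm_011_t s246_pm_011_t

theorem s248_pm_011_t : ∃ t, chk3 f_pm_011_t t 73 245 1 = true := ex3_a k84_pm_011_t s247_pm_011_t

theorem s249_pm_011_t : ∃ t, chk3 f_pm_011_t t 36 245 1 = true := ex3_a k83_pm_011_t s248_pm_011_t

theorem s250_pm_011_t : ∃ t, chk3 f_pm_011_t t 36 122 1 = true := ex3_b k82_pm_011_t s249_pm_011_t

theorem s251_pm_011_t : ∃ t, chk3 f_pm_011_t t 36 61 1 = true := ex3_b s250_pm_011_t s245_pm_011_t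

theorem s252_pm_011_t : ∃ t, chk3 f_pm_011_t t 18 61 1 = true := ex3_a s251_pm_011_t s230_pm_011_t

theorem s253_pm_011_t : ∃ t, chk3 f_pm_011_t t 75 487 1 = true := ex3_a k80_pm_011_t k81_pm_011_t

theorem s254_pm_011_t : ∃ t, chk3 f_pm_011_t t 75 243 1 = true := ex3_b k79_pm_011_t s253_pm_011_t

theorem s255_pm_011_t : ∃ t, chk3 f_pm_011_t t 75 121 1 = true := ex3_b k78_pm_011_t s254_pm_011_t

theorem s256_pm_011_t : ∃ t, chk3 f_pm_011_t t 37 121 1 = true := ex3_a k77_pm_011_t s255_pm_011_t

theorem s257_pm_011_t : ∃ t, chk3 f_pm_011_t t 37 60 1 = true := ex3_b k76_pm_011_t s256_pm_011_t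

theorem s258_pm_011_t : ∃ t, chk3 f_pm_011_t t 18 60 1 = true := ex3_a k75_pm_011_t s257_pm_011_t

theorem s259_pm_011_t : ∃ t, chk3 f_pm_011_t t 18 30 1 = true := ex3_b s258_pm_011_t s252_pm_011_t

theorem s260_pm_011_t : ∃ t, chk3 f_pm_011_t t 9 30 1 = true := ex3_a s259_pm_011_t s218_pm_011_t

theorem s261_pm_011_t : ∃ t, chk3 f_pm_011_t t 9 15 1 = true := ex3_b s260_pm_011_t s201_pm_011_t

theorem s262_pm_011_t : ∃ t, chk3 f_pm_011_t t 17 63 1 = true := ex3_a k73_pm_011_t k74_pm_011_t

theorem s263_pm_011_t : ∃ t, chk3 f_pm_011_t t 35 250 1 = true := ex3_b k70_pm_011_t k71_pm_011_t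

theorem s264_pm_011_t : ∃ t, chk3 f_pm_011_t t 35 125 1 = true := ex3_b s263_pm_011_t k72_pm_011_t

theorem s265_pm_011_t : ∃ t, chk3 f_pm_011_t t 143 248 2 = true := ex3_c k66_pm_011_t k67_pm_011_t

theorem s266_pm_011_t : ∃ t, chk3 f_pm_011_t t 285 496 4 = true := ex3_a k62_pm_011_t k63_pm_011_t

theorem s267_pm_011_t : ∃ t, chk3 f_pm_011_t t 285 248 4 = true := ex3_b s266_pm_011_t k64_pm_011_t

theorem s268_pm_011_t : ∃ t, chk3 f_pm_011_t t 285 248 2 = true := ex3_c s267_pm_011_t k65_pm_011_t

theorem s269_pm_011_t : ∃ t, chk3 f_pm_011_t t 284 248 2 = true := ex3_a k60_pm_011_t k61_pm_011_t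

theorem s270_pm_011_t : ∃ t, chk3 f_pm_011_t t 142 248 2 = true := ex3_a s269_pm_011_t s268_pm_011_t

theorem s271_pm_011_t : ∃ t, chk3 f_pm_011_t t 71 248 2 = true := ex3_a s270_pm_011_t s265_pm_011_t

theorem s272_pm_011_t : ∃ t, chk3 f_pm_011_t t 71 124 2 = true := ex3_b s271_pm_011_t k68_pm_011_t

theorem s273_pm_011_t : ∃ t, chk3 f_pm_011_t t 71 124 1 = true := ex3_c s272_pm_011_t k69_pm_011_t

theorem s274_pm_011_t : ∃ t, chk3 f_pm_011_t t 282 996 4 = true := ex3_b k53_pm_011_t k54_pm_011_t

theorem s275_pm_011_t : ∃ t, chk3 f_pm_011_t t 282 498 4 = true := ex3_b s274_pm_011_t k55_pm_011_t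

theorem s276_pm_011_t : ∃ t, chk3 f_pm_011_t t 141 498 4 = true := ex3_a s275_pm_011_t k56_pm_011_t

theorem s277_pm_011_t : ∃ t, chk3 f_pm_011_t t 141 498 2 = true := ex3_c s276_pm_011_t k57_pm_011_t

theorem s278_pm_011_t : ∃ t, chk3 f_pm_011_t t 141 249 2 = true := ex3_b s277_pm_011_t k58_pm_011_t

theorem s279_pm_011_t : ∃ t, chk3 f_pm_011_t t 281 249 2 = true := ex3_a k51_pm_011_t k52_pm_011_t

theorem s280_pm_011_t : ∃ t, chk3 f_pm_011_t t 280 499 2 = true := ex3_a k49_pm_011_t k50_pm_011_t

theorem s281_pm_011_t : ∃ t, chk3 f_pm_011_t t 280 249 2 = true := ex3_b k48_pm_011_t s280_pm_011_t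

theorem s282_pm_011_t : ∃ t, chk3 f_pm_011_t t 140 249 2 = true := ex3_a s281_pm_011_t s279_pm_011_t

theorem s283_pm_011_t : ∃ t, chk3 f_pm_011_t t 70 249 2 = true := ex3_a s282_pm_011_t s278_pm_011_t

theorem s284_pm_011_t : ∃ t, chk3 f_pm_011_t t 70 249 1 = true := ex3_c s283_pm_011_t k59_pm_011_t

theorem s285_pm_011_t : ∃ t, chk3 f_pm_011_t t 141 995 1 = true := ex3_b k46_pm_011_t k47_pm_011_t

theorem s286_pm_011_t : ∃ t, chk3 f_pm_011_t t 141 497 1 = true := ex3_b k45_pm_011_t s285_pm_011_t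

theorem s287_pm_011_t : ∃ t, chk3 f_pm_011_t t 141 248 1 = true := ex3_b k44_pm_011_t s286_pm_011_t

theorem s288_pm_011_t : ∃ t, chk3 f_pm_011_t t 70 248 1 = true := ex3_a k43_pm_011_t s287_pm_011_t

theorem s289_pm_011_t : ∃ t, chk3 f_pm_011_t t 70 124 1 = true := ex3_b s288_pm_011_t s284_pm_011_t

theorem s290_pm_011_t : ∃ t, chk3 f_pm_011_t t 35 124 1 = true := ex3_a s289_pm_011_t s273_pm_011_t

theorem s291_pm_011_t : ∃ t, chk3 f_pm_011_t t 35 62 1 = true := ex3_b s290_pm_011_t s264_pm_011_t

theorem s292_pm_011_t : ∃ t, chk3 f_pm_011_t t 278 500 2 = true := ex3_a k37_pm_011_t k38_pm_011_t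

theorem s293_pm_011_t : ∃ t, chk3 f_pm_011_t t 278 250 2 = true := ex3_b s292_pm_011_t k39_pm_011_t

theorem s294_pm_011_t : ∃ t, chk3 f_pm_011_t t 139 250 2 = true := ex3_a s293_pm_011_t k40_pm_011_t

theorem s295_pm_011_t : ∃ t, chk3 f_pm_011_t t 277 1001 2 = true := ex3_a k34_pm_011_t k35_pm_011_t

theorem s296_pm_011_t : ∃ t, chk3 f_pm_011_t t 138 1001 2 = true := ex3_a k33_pm_011_t s295_pm_011_t

theorem s297_pm_011_t : ∃ t, chk3 f_pm_011_t t 138 500 2 = true := ex3_b k32_pm_011_t s296_pm_011_t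

theorem s298_pm_011_t : ∃ t, chk3 f_pm_011_t t 138 250 2 = true := ex3_b s297_pm_011_t k36_pm_011_t

theorem s299_pm_011_t : ∃ t, chk3 f_pm_011_t t 69 250 2 = true := ex3_a s298_pm_011_t s294_pm_011_t

theorem s300_pm_011_t : ∃ t, chk3 f_pm_011_t t 69 250 1 = true := ex3_c s299_pm_011_t k41_pm_011_t

theorem s301_pm_011_t : ∃ t, chk3 f_pm_011_t t 69 125 1 = true := ex3_b s300_pm_011_t k42_pm_011_t

theorem s302_pm_011_t : ∃ t, chk3 f_pm_011_t t 34 125 1 = true := ex3_a k31_pm_011_t s301_pm_011_t

theorem s303_pm_011_t : ∃ t, chk3 f_pm_011_t t 279 999 1 = true := ex3_b k29_pm_011_t k30_pm_011_t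

theorem s304_pm_011_t : ∃ t, chk3 f_pm_011_t t 279 499 1 = true := ex3_b k28_pm_011_t s303_pm_011_t

theorem s305_pm_011_t : ∃ t, chk3 f_pm_011_t t 279 249 1 = true := ex3_b k27_pm_011_t s304_pm_011_t

theorem s306_pm_011_t : ∃ t, chk3 f_pm_011_t t 139 249 1 = true := ex3_a k26_pm_011_t s305_pm_011_t

theorem s307_pm_011_t : ∃ t, chk3 f_pm_011_t t 69 249 1 = true := ex3_a k25_pm_011_t s306_pm_011_t

theorem s308_pm_011_t : ∃ t, chk3 f_pm_011_t t 69 124 1 = true := ex3_b k24_pm_011_t s307_pm_011_t

theorem s309_pm_011_t : ∃ t, chk3 f_pm_011_t t 34 124 1 = true := ex3_a k23_pm_011_t s308_pm_011_t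

theorem s310_pm_011_t : ∃ t, chk3 f_pm_011_t t 34 62 1 = true := ex3_b s309_pm_011_t s302_pm_011_t

theorem s311_pm_011_t : ∃ t, chk3 f_pm_011_t t 17 62 1 = true := ex3_a s310_pm_011_t s291_pm_011_t

theorem s312_pm_011_t : ∃ t, chk3 f_pm_011_t t 17 31 1 = true := ex3_b s311_pm_011_t s262_pm_011_t

theorem s313_pm_011_t : ∃ t, chk3 f_pm_011_t t 8 31 1 = true := ex3_a k22_pm_011_t s312_pm_011_t

theorem s314_pm_011_t : ∃ t, chk3 f_pm_011_t t 287 495 1 = true := ex3_a k20_pm_011_t k21_pm_011_t

theorem s315_pm_011_t : ∃ t, chk3 f_pm_011_t t 143 495 1 = true := ex3_a k19_pm_011_t s314_pm_011_t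

theorem s316_pm_011_t : ∃ t, chk3 f_pm_011_t t 71 495 1 = true := ex3_a k18_pm_011_t s315_pm_011_t

theorem s317_pm_011_t : ∃ t, chk3 f_pm_011_t t 71 247 1 = true := ex3_b k17_pm_011_t s316_pm_011_t

theorem s318_pm_011_t : ∃ t, chk3 f_pm_011_t t 71 123 1 = true := ex3_b k16_pm_011_t s317_pm_011_t

theorem s319_pm_011_t : ∃ t, chk3 f_pm_011_t t 35 123 1 = true := ex3_a k15_pm_011_t s318_pm_011_t

theorem s320_pm_011_t : ∃ t, chk3 f_pm_011_t t 35 61 1 = true := ex3_b k14_pm_011_t s319_pm_011_t

theorem s321_pm_011_t : ∃ t, chk3 f_pm_011_t t 17 61 1 = true := ex3_a k13_pm_011_t s320_pm_011_t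

theorem s322_pm_011_t : ∃ t, chk3 f_pm_011_t t 17 30 1 = true := ex3_b k12_pm_011_t s321_pm_011_t

theorem s323_pm_011_t : ∃ t, chk3 f_pm_011_t t 8 30 1 = true := ex3_a k11_pm_011_t s322_pm_011_t

theorem s324_pm_011_t : ∃ t, chk3 f_pm_011_t t 8 15 1 = true := ex3_b s323_pm_011_t s313_pm_011_t

theorem s325_pm_011_t : ∃ t, chk3 f_pm_011_t t 4 15 1 = true := ex3_a s324_pm_011_t s261_pm_011_t

theorem s326_pm_011_t : ∃ t, chk3 f_pm_011_t t 39 239 1 = true := ex3_a k9_pm_011_t k10_pm_011_t

theorem s327_pm_011_t : ∃ t, chk3 f_pm_011_t t 39 119 1 = true := ex3_b k8_pm_011_t s326_pm_011_t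

theorem s328_pm_011_t : ∃ t, chk3 f_pm_011_t t 39 59 1 = true := ex3_b k7_pm_011_t s327_pm_011_t

theorem s329_pm_011_t : ∃ t, chk3 f_pm_011_t t 19 59 1 = true := ex3_a k6_pm_011_t s328_pm_011_t

theorem s330_pm_011_t : ∃ t, chk3 f_pm_011_t t 19 29 1 = true := ex3_b k5_pm_011_t s329_pm_011_t

theorem s331_pm_011_t : ∃ t, chk3 f_pm_011_t t 9 29 1 = true := ex3_a k4_pm_011_t s330_pm_011_t

theorem s332_pm_011_t : ∃ t, chk3 f_pm_011_t t 9 14 1 = true := ex3_b k3_pm_011_t s331_pm_011_t

theorem s333_pm_011_t : ∃ t, chk3 f_pm_011_t t 4 14 1 = true := ex3_a k2_pm_011_t s332_pm_011_t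

theorem s334_pm_011_t : ∃ t, chk3 f_pm_011_t t 4 7 1 = true := ex3_b s333_pm_011_t s325_pm_011_t

theorem s335_pm_011_t : ∃ t, chk3 f_pm_011_t t 2 7 1 = true := ex3_a s334_pm_011_t s195_pm_011_t

theorem s336_pm_011_t : ∃ t, chk3 f_pm_011_t t 2 3 1 = true := ex3_b k1_pm_011_t s335_pm_011_t

theorem s337_pm_011_t : ∃ t, chk3 f_pm_011_t t 1 3 1 = true := ex3_a s336_pm_011_t s176_pm_011_t

theorem s338_pm_011_t : ∃ t, chk3 f_pm_011_t t 1 1 1 = true := ex3_b k0_pm_011_t s337_pm_011_t

theorem c_pm_011_t : CertNE 0 536870912 536870912 536870912 858993459 64424510 3 eng mog cd0q0 cd0q1 pd1 false true false .pnn 0 1 1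
    ndB0q0 ndB0q1 pcB1 cut_pm_011_t Ext.none :=
  certNE0 (fam := false) (s1 := true) (s2 := false) (a := 0) (b := 1) (c := 1) (cn := .pnn) (n1 := ndB0q0) (n2 := ndB0q1) (pc := pcB1) (cut := cut_pm_011_t) (xt := Ext.none) (P1 := 0) (W1 := 536870912) (P2 := 536870912) (W2 := 536870912) (P3 := 858993459) (W3 := 64424510) (N0 := 3) (En := eng) (mo := mog) (C1 := cd0q0) (C2 := cd0q1) (C3 := pd1)
    rfl s338_pm_011_t

noncomputable def cut_pm_012_s : Cut := Cut.of [[⟨4, 0, 0, 1449551462⟩], [⟨0, 0, 0, 67108864⟩, ⟨1, 1, 0, 67108864⟩, ⟨2, 1, 0, 67108864⟩]]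

noncomputable def f_pm_012_s : ℕ → ℕ → ℕ → ℕ → Bool := onCell 0 536870912 0 536870912 858993459 64424510
    (rowNE 3 eng mog cd0q0 cd0q2 pd1 0 false true false .pnp 0 1 2 (qsf 0 536870912 0 536870912 1) ndB0q0 ndB0q2 pcB1 cut_pm_012_s Ext.none)

def k0_pm_012_s : ∃ t, chk3 f_pm_012_s t 2 1 1 = true :=
  ⟨(l 6), by decide +kernel⟩

def k1_pm_012_s : ∃ t, chk3 f_pm_012_s t 3 2 1 = true :=
  ⟨(a (b (b (b (a (l 6) (a (l 6) (a (l 6) (l 6)))) (l 6)) (l 6)) (l 6)) (b (b (a (a (b (c (c (a (l 16451656) (l 16436088)) (l 16648768)) (c (l 16619368) (a (l 16553248) (l 16562832)))) (l 6)) (c (c (c (a (b (l 16546840) (l 16513936)) (b (l 16556344) (l 16520768))) (b (l 16490928) (l 16485752))) (a (l 16631592) (l 16576072))) (c (a (l 16624296) (l 16593448)) (a (c (l 16574224) (l 16532360)) (b (l 16583896) (l 16544592)))))) (c (c (a (c (a (b (l 16568424) (l 16530208)) (b (l 16582960) (l 16542184))) (a (b (l 16611280) (l 16582064)) (b (l 16623856) (l 16592688)))) (a (c (b (l 16600048) (l 16556864)) (b (l 16638184)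 (l 16605184))) (b (c (l 16640320) (l 16633008)) (c (l 16574016) (l 16619352))))) (c (a (c (l 16533008) (l 16661200)) (a (l 16665528) (l 16677144))) (a (l 16680888) (a (l 16694648) (l 16703440))))) (a (c (c (l 16664288) (a (l 16631760) (l 16643296))) (a (b (l 16595728) (l 16554952)) (b (l 16608688) (l 16566472)))) (b (c (c (l 16697304) (l 16634640)) (a (l 16560360) (l 16534784))) (c (c (l 16673848) (l 16646384)) (a (l 16579664) (l 16510864))))))) (a (l 6) (a (b (c (c (c (a (l 16493736) (l 16503144)) (a (l 16554728) (l 16563360))) (c (l 16620024) (l 16653064))) (c (c (l 16629448) (l 16592592)) (a (l 16490944) (l 16522024)))) (l 6)) (c (c (c (b (a (l 16515376) (l 16509368)) (a (c (l 16458184) (l 16492168)) (c (l 16471352) (l 16504344)))) (b (a (l 16573960) (l 16586440)) (a (l 16544056) (l 16554712)))) (c (b (l 16637792) (l 16617312)) (l 16659056))) (c (c (l 16636480) (a (l 16592496) (l 16603960))) (a (b (l 16533872) (l 16485592)) (c (l 16553088) (b (l 16518600) (l 16463104))))))))) (l 6))), by decide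 +kernel⟩

def k2_pm_012_s : ∃ t, chk3 f_pm_012_s t 3 3 1 = true :=
  ⟨(l 6), by decide +kernel⟩

theorem s3_pm_012_s : ∃ t, chk3 f_pm_012_s t 3 1 1 = true := ex3_b k1_pm_012_s k2_pm_012_s

theorem s4_pm_012_s : ∃ t, chk3 f_pm_012_s t 1 1 1 = true := ex3_a k0_pm_012_s s3_pm_012_s

theorem c_pm_012_s : CertNE 0 536870912 0 536870912 858993459 64424510 3 eng mog cd0q0 cd0q2 pd1 false true false .pnp 0 1 2
    ndB0q0 ndB0q2 pcB1 cut_pm_012_s Ext.none :=
  certNE0 (fam := false) (s1 := true) (s2 := false) (a := 0) (b := 1) (c := 2) (cn := .pnp) (n1 := ndB0q0) (n2 := ndB0q2) (pc := pcB1) (cut := cut_pm_012_s) (xt := Ext.none) (P1 := 0) (W1 := 536870912) (P2 := 0) (W2 := 536870912) (P3 := 858993459) (W3 := 64424510) (N0 := 3) (En := eng) (mo := mog) (C1 := cd0q0) (C2 := cd0q2) (C3 := pd1)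
    rfl s4_pm_012_s

noncomputable def cut_pm_012_t : Cut := Cut.of [[⟨3, 0, 0, 2845415833⟩], [⟨0, 0, 0, 67108864⟩, ⟨1, 1, 0, 67108864⟩, ⟨2, 1, 0, 67108864⟩]]

noncomputable def f_pm_012_t : ℕ → ℕ → ℕ → ℕ → Bool := onCell 0 536870912 0 536870912 858993459 64424510
    (rowNE 3 eng mog cd0q0 cd0q2 pd1 0 false true false .pnp 0 1 2 (qsf 0 536870912 0 536870912 1) ndB0q0 ndB0q2 pcB1 cut_pm_012_t Ext.none)

def k0_pm_012_t : ∃ t, chk3 f_pm_012_t t 1 2 1 = true :=
  ⟨(l 6), by decide +kernel⟩

def k1_pm_012_t : ∃ t, chk3 f_pm_012_t t 4 6 1 = true :=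
  ⟨(a (l 2) (b (l 6) (a (b (l 6) (l 6)) (l 6)))), by decide +kernel⟩

def k2_pm_012_t : ∃ t, chk3 f_pm_012_t t 8 7 1 = true :=
  ⟨(b (a (l 2) (b (a (l 2) (b (l 2) (a (l 2) (a (b (l 2) (l 14)) (c (b (l 16515520) (l 16518536)) (b (b (l 16465576) (l 16472912)) (l 16484064))))))) (a (l 14) (a (l 14) (a (l 14) (a (l 14) (a (l 14) (b (c (l 16523696) (l 16491336)) (c (l 16569696) (l 16528480)))))))))) (a (l 14) (a (l 14) (a (l 14) (a (l 14) (a (l 14) (a (l 14) (c (b (b (l 16602472) (l 16595296)) (b (l 16652600) (l 16654880))) (b (b (l 16573456) (l 16609928)) (b (l 16606096) (l 16645296))))))))))), by decide +kernel⟩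

def k3_pm_012_t : ∃ t, chk3 f_pm_012_t t 9 14 1 = true :=
  ⟨(a (b (b (b (a (a (a (l 2) (c (l 16478936) (l 16441144))) (c (l 16499656) (l 16462912))) (l 6)) (a (a (c (a (l 16491632) (l 16491296)) (a (l 16475784) (l 16455000))) (c (l 16490800) (l 16455456))) (a (c (l 16490160) (l 16456368)) (l 6)))) (a (c (a (b (a (l 16504552) (l 16504048)) (a (l 16517880) (l 16517208))) (c (l 16517472) (l 16501800))) (a (b (a (l 16469120) (l 16469080)) (a (l 16483696) (l 16483416))) (c (l 16485024) (l 16467144)))) (c (a (c (l 16516016) (l 16500976)) (l 16507568)) (a (c (l 16484872) (l 16467704)) (l 16476992))))) (c (a (b (a (b (a (l 16531648) (l 16530792)) (l 16545480)) (b (l 16529520) (l 16543424))) (a (c (l 16554216) (l 16540008)) (b (l 16557984) (l 16573176)))) (b (a (l 16524160) (l 16511920)) (a (l 16562992) (l 16560480)))) (a (b (a (a (b (l 16498560) (l 16513920)) (b (l 16498040) (l 16513152))) (b (l 16497416) (l 16512152))) (a (b (l 16508392) (l 16524808)) (b (l 16527472) (l 16543336)))) (b (a (l 16488312)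 (l 16482648)) (c (l 16519480) (l 16503944)))))) (b (a (a (b (l 6) (c (l 16506632) (l 16477952))) (l 6)) (l 6)) (c (a (b (b (l 16503192) (l 16515832)) (a (l 16558096) (l 16555880))) (b (a (l 16528528) (l 16527424)) (a (l 16553872) (l 16552016)))) (a (b (a (l 16503576) (l 16503928)) (a (l 16531008) (l 16530288))) (b (l 16484256) (l 16529960)))))), by decide +kernel⟩

def k4_pm_012_t : ∃ t, chk3 f_pm_012_t t 9 15 1 = true :=
  ⟨(a (b (a (b (a (c (c (l 16607104) (l 16593688)) (c (l 16558184) (l 16542520))) (c (c (l 16603616) (l 16590296)) (b (l 16559720) (l 16576576)))) (b (c (a (l 16626016) (l 16621936)) (a (l 16598056) (l 16593888))) (c (a (l 16622600) (l 16618080)) (a (l 16616400) (l 16611624))))) (c (b (c (a (l 16600096) (l 16596608)) (l 16585424)) (b (l 16573976) (l 16611408))) (b (a (l 16565224) (l 16562608)) (b (l 16588264) (l 16563128))))) (b (b (a (c (c (l 16664936) (l 16631848)) (a (l 16635112) (l 16629704))) (c (l 16649184) (l 16580264))) (a (c (l 16656080) (a (l 16633152) (l 16627104)))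 (c (l 16666296) (l 16597656)))) (b (a (c (a (l 16692784) (l 16683296)) (a (l 16631416) (l 16645680))) (c (l 16627032) (l 16636208))) (a (c (a (l 16648096) (l 16638408)) (a (l 16671776) (l 16685360))) (c (a (l 16628680) (l 16639848)) (l 16653904)))))) (b (c (a (b (c (l 16591528) (l 16579504)) (c (l 16621912) (l 16589008))) (b (l 16580000) (l 16608720))) (a (b (c (l 16566376) (l 16552136)) (c (l 16596824) (l 16582456))) (b (l 16535472) (l 16542456)))) (b (c (a (l 16605952) (l 16614040)) (a (b (l 16592416) (l 16629472)) (l 16613504))) (a (c (a (l 16600256) (l 16579792)) (b (l 16645720) (l 16662056))) (c (a (l 16590576) (l 16580248)) (l 16601328)))))), by decide +kernel⟩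

def k5_pm_012_t : ∃ t, chk3 f_pm_012_t t 5 3 1 = true :=
  ⟨(b (l 6) (a (b (a (b (l 6) (b (l 6) (a (c (l 16549080) (l 16530056)) (l 6)))) (l 6)) (b (c (b (a (a (l 16574520) (l 16568392)) (l 16557784)) (a (a (l 16601504) (l 16593632)) (l 16578688))) (a (a (b (l 16554200) (l 16579680)) (b (l 16551544) (l 16574528))) (a (l 16558480) (l 16552952)))) (c (b (a (c (l 16600784) (l 16610936)) (a (l 16578192) (l 16560640))) (a (a (c (l 16580440) (l 16612712)) (l 16524128)) (c (a (l 16563152) (l 16545000)) (l 16563968)))) (b (a (a (l 16606176) (l 16598392)) (l 16585184)) (a (a (l 16632576) (l 16611728)) (a (l 16591752) (l 16572600))))))) (b (l 6) (b (l 6) (b (a (c (l 16544776) (l 16551632)) (l 6)) (a (a (c (l 16489432) (l 16553888)) (c (l 16471120) (l 16535664))) (c (a (l 16474104) (l 6)) (l 16508608)))))))), by decide +kernel⟩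

def k6_pm_012_t : ∃ t, chk3 f_pm_012_t t 3 3 1 = true :=
  ⟨(a (l 6) (l 6)), by decide +kernel⟩

theorem s7_pm_012_t : ∃ t, chk3 f_pm_012_t t 9 7 1 = true := ex3_b k3_pm_012_t k4_pm_012_t

theorem s8_pm_012_t : ∃ t, chk3 f_pm_012_t t 4 7 1 = true := ex3_a k2_pm_012_t s7_pm_012_t

theorem s9_pm_012_t : ∃ t, chk3 f_pm_012_t t 4 3 1 = true := ex3_b k1_pm_012_t s8_pm_012_t

theorem s10_pm_012_t : ∃ t, chk3 f_pm_012_t t 2 3 1 = true := ex3_a s9_pm_012_t k5_pm_012_t

theorem s11_pm_012_t : ∃ t, chk3 f_pm_012_t t 1 3 1 = true := ex3_a s10_pm_012_t k6_pm_012_t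

theorem s12_pm_012_t : ∃ t, chk3 f_pm_012_t t 1 1 1 = true := ex3_b k0_pm_012_t s11_pm_012_t

theorem c_pm_012_t : CertNE 0 536870912 0 536870912 858993459 64424510 3 eng mog cd0q0 cd0q2 pd1 false true false .pnp 0 1 2
    ndB0q0 ndB0q2 pcB1 cut_pm_012_t Ext.none :=
  certNE0 (fam := false) (s1 := true) (s2 := false) (a := 0) (b := 1) (c := 2) (cn := .pnp) (n1 := ndB0q0) (n2 := ndB0q2) (pc := pcB1) (cut := cut_pm_012_t) (xt := Ext.none) (P1 := 0) (W1 := 536870912) (P2 := 0) (W2 := 536870912) (P3 := 858993459) (W3 := 64424510) (N0 := 3) (En := eng) (mo := mog) (C1 := cd0q0) (C2 := cd0q2) (C3 := pd1)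
    rfl s12_pm_012_t

noncomputable def cut_pm_022_s : Cut := Cut.of [[⟨4, 0, 0, 1449551462⟩], [⟨0, 0, 0, 67108864⟩, ⟨1, 1, 0, 67108864⟩, ⟨2, 1, 0, 67108864⟩]]

noncomputable def f_pm_022_s : ℕ → ℕ → ℕ → ℕ → Bool := onCell 1073741824 536870912 0 536870912 858993459 64424510
    (rowNE 3 eng mog cd0q0 cd0q2 pd2 2 false true false .pp 0 2 2 (qsf 0 536870912 0 536870912 2) ndB0q0 ndB0q2 pcB2 cut_pm_022_s Ext.none)

def k0_pm_022_s : ∃ t, chk3 f_pm_022_s t 1 1 1 = true :=
  ⟨(l 6), by decide +kernel⟩

theorem c_pm_022_s : CertNE 0 536870912 0 536870912 858993459 64424510 3 eng mog cd0q0 cd0q2 pd2 false true false .pp 0 2 2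
    ndB0q0 ndB0q2 pcB2 cut_pm_022_s Ext.none :=
  certNE2 (fam := false) (s1 := true) (s2 := false) (a := 0) (b := 2) (c := 2) (cn := .pp) (n1 := ndB0q0) (n2 := ndB0q2) (pc := pcB2) (cut := cut_pm_022_s) (xt := Ext.none) (P1 := 0) (W1 := 536870912) (P2 := 0) (W2 := 536870912) (P3 := 858993459) (W3 := 64424510) (N0 := 3) (En := eng) (mo := mog) (C1 := cd0q0) (C2 := cd0q2) (C3 := pd2)
    rfl (fun _ => rfl) k0_pm_022_s

noncomputable def cut_pm_022_t : Cut := Cut.of [[⟨3, 0, 0, 2845415833⟩], [⟨0, 0, 0, 67108864⟩, ⟨1, 1, 0, 67108864⟩, ⟨2, 1, 0, 67108864⟩]]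

noncomputable def f_pm_022_t : ℕ → ℕ → ℕ → ℕ → Bool := onCell 0 536870912 0 536870912 858993459 64424510
    (rowNE 3 eng mog cd0q0 cd0q2 pd2 0 false true false .pp 0 2 2 (qsf 0 536870912 0 536870912 2) ndB0q0 ndB0q2 pcB2 cut_pm_022_t Ext.none)

def k0_pm_022_t : ∃ t, chk3 f_pm_022_t t 2 2 1 = true :=
  ⟨(l 6), by decide +kernel⟩

def k1_pm_022_t : ∃ t, chk3 f_pm_022_t t 4 6 1 = true :=
  ⟨(b (l 6) (b (a (a (b (b (l 6) (b (l 6) (a (a (a (c (l 16490928) (c (l 16461368) (l 16439792))) (l 6)) (l 6)) (l 6)))) (a (c (c (a (b (l 16510064) (l 16518816)) (l 16528840)) (a (a (b (l 16488248) (l 16497616)) (l 16501616)) (l 16514352))) (a (c (a (b (l 16468680) (l 16478736)) (l 16483792)) (a (b (l 16447664) (l 16458472)) (b (l 16459216) (l 16470064)))) (c (l 16477672) (l 16460728)))) (c (a (l 16473872) (l 6)) (c (l 16464232) (l 16451720))))) (l 6)) (l 6)) (a (a (a (c (b (c (a (b (l 16527848) (l 16516152)) (l 16525992)) (a (a (b (l 16507328) (l 16517368)) (l 16521088)) (l 16512920))) (a (a (c (b (l 16542936)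 (l 16552776)) (b (l 16527752) (l 16538512))) (b (l 16522608) (l 16542736))) (c (b (l 16561168) (l 16571024)) (b (l 16549368) (l 16560160))))) (a (b (c (a (b (l 16489200) (l 16500088)) (l 16483824)) (a (b (l 16469752) (l 16481552)) (l 16466320))) (c (b (a (l 16511400) (l 16521608)) (c (l 16511088) (l 16503512))) (a (b (c (l 16498368) (l 16489312)) (c (l 16510936) (l 16502440))) (b (l 16505600) (l 16518480))))) (b (c (l 16498760) (l 16504480)) (c (b (l 16536600) (l 16548416)) (c (l 16532680) (l 16525856)))))) (c (b (a (c (l 16560744) (l 16550336)) (l 16570032)) (a (a (l 16529992) (l 16558336)) (l 16590032))) (a (b (c (l 16539000) (l 16526736)) (c (l 16561832) (l 16551656))) (b (l 16531952) (c (l 16559384) (l 16573152)))))) (a (b (c (l 16548272) (l 16518272)) (b (c (l 16597752) (l 16598920)) (c (l 16599384) (l 16606128)))) (b (l 6) (a (b (l 16565440) (l 16523000)) (c (l 16542872) (l 16537856)))))) (a (l 6) (l 1))))), by decide +kernel⟩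

def k2_pm_022_t : ∃ t, chk3 f_pm_022_t t 4 7 1 = true :=
  ⟨(a (b (b (b (a (a (a (c (c (a (b (l 16563048) (c (l 16576744) (l 16570832))) (b (l 16570480) (l 16581248))) (b (c (l 16536456) (l 16532528)) (a (c (l 16564696) (l 16558336)) (l 16570360)))) (c (a (b (c (l 16539128) (l 16531736)) (a (l 16556256) (l 16550952))) (b (l 16545720) (l 16558648))) (a (b (a (l 16517200) (l 16523144)) (c (l 16537904) (l 16530640))) (b (l 16531968) (l 16546120))))) (c (b (a (l 16551584) (l 16580304)) (c (l 16592064) (l 16583240))) (c (a (l 16541272) (l 16572136)) (a (l 16550640) (l 16562064))))) (c (a (b (l 16570608) (l 16560904)) (l 16611544)) (a (c (l 16565632) (l 16557856)) (l 16581832)))) (c (a (a (l 16613344) (l 16589920)) (c (l 16514512) (l 16531728))) (a (a (l 16618888) (l 16590088)) (a (l 16561224) (l 16532392))))) (a (b (b (b (a (a (c (a (c (l 16580792) (l 16569176)) (l 16583200)) (a (c (l 16556720) (l 16543432)) (l 16561232))) (c (l 16595024) (a (l 16572096) (l 16582760)))) (a (a (l 16600064) (l 16608824))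 (l 16579608))) (l 14)) (l 14)) (l 14)) (a (c (a (l 16616328) (l 16549728)) (a (l 16616440) (l 16544304))) (a (c (c (l 16569480) (l 16564312)) (l 16535048)) (c (c (l 16545944) (l 16538240)) (l 16525864)))))) (a (l 14) (a (l 14) (a (l 14) (a (l 14) (l 1)))))) (a (l 14) (a (l 14) (l 1)))) (b (a (b (a (a (c (b (l 16519288) (l 16496408)) (b (l 16503712) (l 16495864))) (b (c (l 16495824) (l 16475216)) (l 1))) (l 1)) (l 1)) (l 1)) (l 1))), by decide +kernel⟩

def k3_pm_022_t : ∃ t, chk3 f_pm_022_t t 5 3 1 = true :=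
  ⟨(b (l 1) (l 1)), by decide +kernel⟩

def k4_pm_022_t : ∃ t, chk3 f_pm_022_t t 3 1 1 = true :=
  ⟨(l 1), by decide +kernel⟩

theorem s5_pm_022_t : ∃ t, chk3 f_pm_022_t t 4 3 1 = true := ex3_b k1_pm_022_t k2_pm_022_t

theorem s6_pm_022_t : ∃ t, chk3 f_pm_022_t t 2 3 1 = true := ex3_a s5_pm_022_t k3_pm_022_t

theorem s7_pm_022_t : ∃ t, chk3 f_pm_022_t t 2 1 1 = true := ex3_b k0_pm_022_t s6_pm_022_t

theorem s8_pm_022_t : ∃ t, chk3 f_pm_022_t t 1 1 1 = true := ex3_a s7_pm_022_t k4_pm_022_t

theorem c_pm_022_t : CertNE 0 536870912 0 536870912 858993459 64424510 3 eng mog cd0q0 cd0q2 pd2 false true false .pp 0 2 2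
    ndB0q0 ndB0q2 pcB2 cut_pm_022_t Ext.none :=
  certNE0 (fam := false) (s1 := true) (s2 := false) (a := 0) (b := 2) (c := 2) (cn := .pp) (n1 := ndB0q0) (n2 := ndB0q2) (pc := pcB2) (cut := cut_pm_022_t) (xt := Ext.none) (P1 := 0) (W1 := 536870912) (P2 := 0) (W2 := 536870912) (P3 := 858993459) (W3 := 64424510) (N0 := 3) (En := eng) (mo := mog) (C1 := cd0q0) (C2 := cd0q2) (C3 := pd2)
    rfl s8_pm_022_t

end Pool.Agent.Strip051.G.I8000_8600.Tab.CS.BB00

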