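import Pool.Agent.Strip051.G.I8000_8600.Tab

/-! # Certificates B0 (generated) -/

set_option linter.all false
set_option maxRecDepth 100000

namespace Pool.Agent.Strip051.G.I8000_8600.Tab.C.BA00

open Pool.Agent.Strip051.PB Pool.Agent.Strip051.PB.T
open Pool.Agent.Strip051.G.I8000_8600.Tab

noncomputable def cut_pp_001 : Cut := Cut.of [[⟨3, 0, 0, 1449551462⟩], [⟨4, 0, 0, 2845415833⟩]]

noncomputable def f_pp_001 : ℕ → ℕ → ℕ → ℕ → Bool := onCell 0 536870912 0 536870912 858993459 64424510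
    (rowB 3 eng mog cd0q0 cd0q0 pd1 0 true true true .up 0 0 1 (qsf 0 536870912 0 536870912 1) ndB0q0 ndB0q0 pcB1 cut_pp_001 Ext.none)

def k0_pp_001 : ∃ t, chk3 f_pp_001 t 1 1 1 = true :=
  ⟨(l 4), by decide +kernel⟩

theorem c_pp_001 : CertB 0 536870912 0 536870912 858993459 64424510 3 eng mog cd0q0 cd0q0 pd1 true true true .up 0 0 1
    ndB0q0 ndB0q0 pcB1 cut_pp_001 Ext.none :=
  certB0 (fam := true) (s1 := true) (s2 := true) (a := 0) (b := 0) (c := 1) (cn := .up) (n1 := ndB0q0) (n2 := ndB0q0) (pc := pcB1) (cut := cut_pp_001) (xt := Ext.none) (P1 := 0) (W1 := 536870912) (P2 := 0) (W2 := 536870912) (P3 := 858993459) (W3 := 64424510) (N0 := 3) (En := eng) (mo := mog) (C1 := cd0q0) (C2 := cd0q0) (C3 := pd1)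
    rfl k0_pp_001

noncomputable def cut_pp_011 : Cut := Cut.of [[⟨3, 0, 0, 1449551462⟩], [⟨4, 0, 0, 2845415833⟩], [⟨0, 0, 0, 67108864⟩, ⟨1, 1, 0, 67108864⟩, ⟨2, 1, 0, 67108864⟩]]

noncomputable def f_pp_011 : ℕ → ℕ → ℕ → ℕ → Bool := onCell 0 536870912 536870912 536870912 858993459 64424510
    (rowB 3 eng mog cd0q0 cd0q1 pd1 0 true true true .pnn 0 1 1 (qsf 0 536870912 536870912 536870912 1) ndB0q0 ndB0q1 pcB1 cut_pp_011 Ext.none)

def k0_pp_011 : ∃ t, chk3 f_pp_011 t 1 1 1 = true :=
  ⟨(l 14), by decide +kernel⟩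

theorem c_pp_011 : CertB 0 536870912 536870912 536870912 858993459 64424510 3 eng mog cd0q0 cd0q1 pd1 true true true .pnn 0 1 1
    ndB0q0 ndB0q1 pcB1 cut_pp_011 Ext.none :=
  certB0 (fam := true) (s1 := true) (s2 := true) (a := 0) (b := 1) (c := 1) (cn := .pnn) (n1 := ndB0q0) (n2 := ndB0q1) (pc := pcB1) (cut := cut_pp_011) (xt := Ext.none) (P1 := 0) (W1 := 536870912) (P2 := 536870912) (W2 := 536870912) (P3 := 858993459) (W3 := 64424510) (N0 := 3) (En := eng) (mo := mog) (C1 := cd0q0) (C2 := cd0q1) (C3 := pd1)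
    rfl k0_pp_011

noncomputable def cut_pp_012 : Cut := Cut.of [[⟨3, 0, 0, 1449551462⟩], [⟨4, 0, 0, 2845415833⟩], [⟨0, 0, 0, 67108864⟩, ⟨1, 1, 0, 67108864⟩, ⟨2, 1, 0, 67108864⟩]]

noncomputable def f_pp_012 : ℕ → ℕ → ℕ → ℕ → Bool := onCell 0 536870912 536870912 536870912 858993459 64424510
    (rowB 3 eng mog cd0q0 cd0q1 pd2 0 true true true .pnp 0 1 2 (qsf 0 536870912 536870912 536870912 2) ndB0q0 ndB0q1 pcB2 cut_pp_012 Ext.none)

def k0_pp_012 : ∃ t, chk3 f_pp_012 t 1 1 1 = true :=
  ⟨(l 14), by decide +kernel⟩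

theorem c_pp_012 : CertB 0 536870912 536870912 536870912 858993459 64424510 3 eng mog cd0q0 cd0q1 pd2 true true true .pnp 0 1 2
    ndB0q0 ndB0q1 pcB2 cut_pp_012 Ext.none :=
  certB0 (fam := true) (s1 := true) (s2 := true) (a := 0) (b := 1) (c := 2) (cn := .pnp) (n1 := ndB0q0) (n2 := ndB0q1) (pc := pcB2) (cut := cut_pp_012) (xt := Ext.none) (P1 := 0) (W1 := 536870912) (P2 := 536870912) (W2 := 536870912) (P3 := 858993459) (W3 := 64424510) (N0 := 3) (En := eng) (mo := mog) (C1 := cd0q0) (C2 := cd0q1) (C3 := pd2)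
    rfl k0_pp_012

noncomputable def cut_pp_022 : Cut := Cut.of [[⟨3, 0, 0, 1449551462⟩], [⟨4, 0, 0, 2845415833⟩], [⟨0, 0, 0, 67108864⟩, ⟨1, 1, 0, 67108864⟩, ⟨2, 1, 0, 67108864⟩]]

noncomputable def f_pp_022 : ℕ → ℕ → ℕ → ℕ → Bool := onCell 0 536870912 0 536870912 858993459 64424510
    (rowB 3 eng mog cd0q0 cd0q2 pd2 0 true true true .pp 0 2 2 (qsf 0 536870912 0 536870912 2) ndB0q0 ndB0q2 pcB2 cut_pp_022 Ext.none)

def k0_pp_022 : ∃ t, chk3 f_pp_022 t 8 2 2 = true :=
  ⟨(c (b (b (a (a (l 16379112) (l 16422088)) (l 16475624)) (a (a (l 16291528) (l 16414576)) (b (l 16485592) (l 16492592)))) (a (b (a (b (l 16408480) (l 16416312)) (b (l 16445384) (l 16431072))) (a (b (l 16384680) (b (l 16436760) (l 16424032))) (b (l 16440208) (b (l 16470464) (l 16478120))))) (a (b (l 16399344) (b (l 16494224) (l 16443376))) (b (l 16515568) (b (l 16525472) (l 16536720)))))) (b (a (b (b (l 16242656) (l 16230680)) (a (b (l 16345328) (l 16357392)) (l 16288656))) (b (l 16312432) (b (l 16385168)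 (l 16351448)))) (a (b (b (a (l 16369168) (l 16409040)) (a (l 16360704) (l 16420256))) (b (a (b (l 16392312) (l 16400392)) (l 16391672)) (a (b (l 16388360) (a (l 16410136) (l 16428376))) (b (l 16445680) (l 16434072))))) (a (b (b (l 16446840) (l 16435936)) (b (l 16448256) (b (l 16480456) (l 16489208)))) (b (l 16389816) (b (l 16502776) (b (l 16513304) (l 16521656)))))))), by decide +kernel⟩

def k1_pp_022 : ∃ t, chk3 f_pp_022 t 8 2 6 = true :=
  ⟨(b (a (b (a (b (l 16266720) (l 16279264)) (l 16321440)) (a (b (l 16293352) (l 16287952)) (b (l 16339208) (l 16353200)))) (b (a (l 16367088) (l 16388560)) (a (b (l 16382488) (l 16395064)) (l 16344608)))) (a (b (a (b (l 16283680) (b (l 16338760) (l 16369024))) (b (l 16368416) (l 16321960))) (b (a (a (b (l 16347496) (l 16358024)) (b (l 16368096) (l 16378280))) (b (l 16398216) (l 16386944))) (b (a (a (l 16369256) (l 16389176)) (l 16397352)) (a (a (l 16381392) (l 16400976)) (a (l 16420168) (l 16438952)))))) (a (b (b (l 16408984) (l 16403224))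 (a (b (l 16431904) (l 16441384)) (b (l 16450472) (l 16448936)))) (b (b (l 16446704) (l 16460944)) (a (b (l 16468408) (l 16487376)) (b (l 16485592) (l 16504208))))))), by decide +kernel⟩

def k2_pp_022 : ∃ t, chk3 f_pp_022 t 8 2 7 = true :=
  ⟨(b (a (b (a (b (l 16161912) (a (l 16206320) (l 16231944))) (b (l 16255408) (l 16248272))) (a (b (a (l 16223664) (l 16248520)) (a (l 16243528) (l 16267616))) (b (l 16263784) (l 16239872)))) (b (a (b (l 16304048) (l 16316464)) (l 16270912)) (a (b (l 16330624) (l 16347352)) (b (l 16373128) (l 16388624))))) (a (b (c (a (b (l 16290184) (a (l 16301264) (l 16323464))) (b (l 16335144) (l 16335008))) (a (b (a (l 16253336) (l 16277016)) (a (l 16279104) (l 16302024))) (b (l 16311632) (l 16314624)))) (b (a (a (b (l 16309192) (l 16322280)) (b (l 16331208) (l 16343944))) (b (l 16342448) (a (l 16365184) (l 16385960)))) (a (a (b (l 16335896) (c (l 16358256) (l 16342080))) (b (l 16357208) (c (l 16378872) (l 16363392)))) (b (a (l 16378112) (l 16398560))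 (a (c (l 16399088) (l 16384304)) (c (l 16418872) (l 16404760))))))) (b (a (b (a (l 16356240) (l 16377128)) (c (l 16397296) (l 16357272))) (b (b (l 16402040) (l 16411656)) (b (l 16421704) (l 16432112)))) (b (a (b (l 16383576) (a (l 16406216) (l 16425904))) (b (l 16442880) (a (l 16444864) (l 16462976)))) (a (b (c (l 16435384) (l 16400120)) (c (l 16426672) (a (l 16424712) (l 16444104)))) (b (c (l 16472160) (l 16438032)) (a (l 16448112) (l 16465856)))))))), by decide +kernel⟩

def k3_pp_022 : ∃ t, chk3 f_pp_022 t 9 4 1 = true :=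
  ⟨(c (c (b (a (l 16314064) (a (l 16420896) (l 16411992))) (a (a (l 16471792) (l 16461776)) (a (l 16328824) (b (l 16438792) (l 16461136))))) (a (b (l 16482520) (a (l 16504376) (l 16498368))) (b (l 16456408) (a (l 16490008) (l 16484512))))) (c (a (b (l 16340584) (b (l 16434536) (l 16381056))) (b (l 16502240) (a (l 16525896) (l 16523520)))) (a (b (a (l 16332432) (l 16368960)) (a (b (l 16411792) (l 16426128)) (b (l 16446512) (l 16438760)))) (b (a (l 16425784) (l 16493024)) (a (c (l 16494840) (l 16409288)) (b (l 16504296) (l 16515424))))))), by decide +kernel⟩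

def k4_pp_022 : ∃ t, chk3 f_pp_022 t 9 5 1 = true :=
  ⟨(b (a (c (a (b (l 16516392) (l 16493712)) (b (l 16508936) (l 16513176))) (a (c (b (l 16481176) (l 16452568)) (b (l 16380376) (a (l 16453848) (l 16470624)))) (b (c (l 16512112) (l 16412928)) (c (l 16524680) (c (l 16502088) (l 16485816)))))) (a (c (c (b (l 16490168) (l 16519688)) (l 16531832)) (b (b (l 16414400) (l 16421088)) (c (l 16551240) (a (l 16494368) (l 16507352))))) (c (c (b (l 16488936) (l 16520368)) (l 16530352)) (b (c (l 16549216) (l 16508584)) (c (l 16570136) (a (l 16540344) (l 16551552))))))) (a (b (a (c (c (l 16554312) (l 16533728)) (b (a (l 16421024) (l 16437104)) (c (l 16514064) (a (l 16480184) (l 16496488))))) (c (c (l 16551272) (l 16561704)) (c (c (l 16545296) (l 16512416)) (b (l 16466864) (a (l 16511904) (l 16526408)))))) (a (c (a (l 16476320) (l 16521864)) (c (b (l 16502112) (l 16470040)) (b (c (l 16505856) (l 16493592)) (a (l 16482728) (l 16519688))))) (c (c (l 16581632) (l 16575352)) (c (a (l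 16508104) (l 16521752)) (b (a (l 16523008) (l 16537384)) (a (l 16534832) (l 16549088))))))) (b (c (c (a (l 16551016) (l 16553440)) (a (l 16570928) (l 16572136))) (c (a (l 16565424) (l 16587832)) (a (b (l 16494248) (a (l 16539968) (l 16552568))) (c (l 16570872) (b (l 16553168) (l 16563784)))))) (c (c (a (l 16582960) (l 16587056)) (a (l 16599080) (l 16601944))) (a (c (b (l 16577848) (l 16587248)) (a (b (l 16550832) (l 16541464)) (b (l 16563336) (l 16553872)))) (b (c (l 16599888) (a (l 16553872) (l 16564544))) (l 14))))))), by decide +kernel⟩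

def k5_pp_022 : ∃ t, chk3 f_pp_022 t 5 4 1 = true :=
  ⟨(a (c (a (b (c (a (l 16405680) (l 16401536)) (l 16336504)) (c (b (l 16418352) (a (l 16460176) (l 16461064))) (a (l 16418512) (l 16417368)))) (b (c (a (l 16399480) (l 16441520)) (a (l 16435624) (l 16434264))) (c (b (a (l 16435728) (l 16438656)) (a (l 16463736) (l 16468320))) (b (l 16468888) (l 16494592))))) (b (a (c (l 16485000) (c (l 16521464) (l 16475608))) (c (l 16475728) (a (l 16524784) (l 16520344)))) (a (a (b (l 16490680) (l 16443096)) (b (l 16528856) (l 16504232))) (a (b (l 16526720) (l 16545952)) (b (l 16526120) (l 16547176)))))) (c (b (c (a (a (l 16422952) (l 16427600)) (a (l 16413240) (l 16421608))) (a (a (l 16435032) (l 16437840)) (a (l 16442536) (l 16448984)))) (a (c (b (a (l 16443752) (l 16450944)) (a (l 16474984) (l 16483640))) (b (l 16475952) (l 16483968))) (c (b (a (l 16459944) (l 16470552)) (a (l 16494016) (l 16505896))) (a (b (l 16486128) (l 16517344)) (l 16574208))))) (a (b (c (a (l 16473536) (l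 16474376)) (a (l 16517528) (l 16516248))) (a (c (l 16415456) (l 16557616)) (b (l 16529744) (l 16554208)))) (b (a (c (l 16476992) (l 16432744)) (b (l 16507056) (l 16554584))) (c (a (l 16593608) (l 16622128)) (b (l 16554272) (l 16600088))))))), by decide +kernel⟩

def k6_pp_022 : ∃ t, chk3 f_pp_022 t 5 5 1 = true :=
  ⟨(b (b (c (a (a (c (a (l 16489912) (l 16492592)) (l 16517512)) (c (a (l 16496912) (l 16503032)) (a (l 16521832) (l 16526736)))) (b (a (c (l 16569224) (l 16528984)) (c (l 16549880) (l 16548328))) (a (c (l 16609536) (l 16525032)) (l 14)))) (a (a (c (l 16548056) (a (l 16551688) (l 16572176))) (c (l 16552320) (a (l 16583664) (l 16585904)))) (a (a (l 16574032) (l 16579832)) (b (a (l 16580096) (l 16588432)) (l 14))))) (a (a (c (c (a (l 16523184) (l 16527584)) (a (l 16545272) (l 16548640))) (a (c (l 16570728) (l 16504504)) (c (l 16573048) (l 16545248)))) (c (c (a (l 16533496) (l 16541024)) (a (l 16553504) (l 16559912))) (a (c (l 16576832) (l 16582568)) (c (l 16582040)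 (l 16607480))))) (a (a (c (c (l 16550480) (l 16568056)) (c (l 16546808) (l 16612640))) (l 14)) (l 14)))) (a (b (a (c (c (a (l 16516104) (l 16522192)) (a (l 16575624) (l 16580656))) (c (a (l 16595928) (l 16599880)) (a (a (l 16528024) (l 16548464)) (a (l 16558080) (l 16588384))))) (a (b (a (c (l 16568096) (l 16607448)) (l 14)) (l 14)) (l 14))) (b (a (a (a (a (c (l 16589336) (l 16561072)) (l 14)) (l 14)) (l 14)) (l 14)) (l 14))) (l 14))), by decide +kernel⟩

def k7_pp_022 : ∃ t, chk3 f_pp_022 t 4 48 1 = true :=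
  ⟨(a (a (c (a (c (l 16412536) (a (l 16421416) (l 16439320))) (a (l 16426256) (l 16463768))) (a (a (c (l 16394520) (c (l 16372904) (l 16357808))) (c (l 16413760) (c (l 16393160) (l 16378760)))) (a (c (l 16432624) (c (l 16413040) (l 16399328))) (c (l 16451080) (c (l 16432488) (l 16419448)))))) (a (c (c (l 16518160) (l 16499080)) (a (c (l 16469104) (c (l 16451464) (l 16439072))) (c (l 16486664) (c (l 16469936) (l 16458152))))) (c (c (l 16526992) (l 16510056)) (a (c (l 16503744) (c (l 16487856) (l 16476640))) (c (l 16520248) (c (l 16505120) (l 16494416))))))) (a (a (c (c (l 16576064) (l 16518944)) (c (a (l 16536080) (l 16551144)) (a (c (l 16521616) (l 16511360)) (c (l 16537272) (l 16527408))))) (c (c (l 16601736) (l 16588016)) (c (a (l 16565440) (l 16578920)) (a (c (l 16552104) (l 16542600)) (c (l 16566080) (l 16556912)))))) (l 14))), by decide +kernel⟩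

def k8_pp_022 : ∃ t, chk3 f_pp_022 t 4 49 1 = true :=
  ⟨(a (a (c (c (a (a (l 16457040) (l 16473352)) (l 16455248)) (a (a (l 16433872) (l 16451456)) (a (l 16468688) (l 16485544)))) (c (c (a (a (l 16415176) (l 16433744)) (l 16439944)) (a (a (l 16402088) (l 16421320)) (a (l 16440176) (l 16458632)))) (a (a (c (l 16388496) (b (l 16370128) (l 16378656))) (c (l 16408400) (b (l 16390808) (l 16399152)))) (c (a (l 16427928) (l 16447040)) (a (b (l 16411112) (l 16419280)) (b (l 16430976) (l 16438976))))))) (a (c (a (c (l 16520232) (l 16502016)) (l 16463952)) (a (c (l 16460984) (c (l 16465696) (b (l 16450360) (l 16458184)))) (c (l 16499200) (c (l 16483840) (b (l 16469192) (l 16476856)))))) (c (a (l 16479104) (l 16514872)) (c (a (l 16515968) (l 16532232)) (a (c (l 16501440) (l 16470232)) (c (l 16518464) (l 16487776))))))) (a (a (b (c (c (l 16582464) (l 16568328)) (a (c (l 16544808) (l 16505704)) (c (l 16559760) (l 16521448)))) (l 14)) (l 14)) (l 14))), by decide +kernel⟩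

def k9_pp_022 : ∃ t, chk3 f_pp_022 t 4 25 1 = true :=
  ⟨(a (b (a (c (a (a (c (l 16469320) (c (l 16453192) (l 16441864))) (c (l 16485328) (l 16464840))) (a (c (l 16500992) (l 16481744)) (c (l 16516320) (l 16498280)))) (a (a (c (c (l 16430072) (l 16417824)) (c (b (l 16400816) (l 16409400)) (b (l 16387424) (l 16396448)))) (c (c (l 16448296) (l 16436704)) (c (b (l 16420456) (l 16428856)) (b (l 16407744) (l 16416584))))) (a (c (c (l 16466160) (l 16455216)) (c (b (l 16439728) (l 16447944)) (b (l 16427688) (l 16436344)))) (c (c (l 16483632) (l 16473336)) (c (b (l 16458576) (l 16466624)) (b (l 16447208) (l 16455688))))))) (a (c (a (c (l 16531312) (l 16514440)) (c (l 16545976) (l 16530224))) (a (c (l 16477560) (c (l 16480920) (b (l 16466248) (l 16474560)))) (c (l 16497112) (c (l 16498744) (a (l 16484272) (l 16493344)))))) (a (b (c (l 16550216) (c (l 16525816) (c (l 16512248) (l 16502688)))) (l 14)) (l 14)))) (a (a (c (a (c (c (l 16487824) (l 16478048)) (c (l 16467856) (l 16457240)))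 (c (l 16498696) (c (l 16484480) (l 16474488)))) (a (c (c (b (l 16442008) (l 16450392)) (b (l 16430352) (l 16439112))) (a (b (l 16407096) (l 16416504)) (b (l 16416984) (l 16426296)))) (c (c (l 16464080) (b (l 16448968) (l 16457552))) (a (b (l 16426784) (l 16436008)) (b (l 16436504) (l 16445640)))))) (c (a (c (l 16514064) (l 16475144)) (c (l 16529088) (l 16491360))) (a (c (c (l 16481600) (b (l 16467216) (l 16475632))) (c (b (l 16456448) (l 16465248)) (a (l 16455520) (l 16465160)))) (c (c (l 16498744) (l 16489200)) (c (b (l 16474952) (l 16483576)) (b (l 16464440) (l 16473456))))))) (b (a (a (a (c (l 16528920) (c (l 16502872) (l 16483568))) (l 14)) (l 14)) (l 14)) (l 14)))) (l 14)), by decide +kernel⟩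

def k10_pp_022 : ∃ t, chk3 f_pp_022 t 4 13 1 = true :=
  ⟨(a (a (b (a (b (a (a (c (c (l 16494192) (l 16474776)) (c (c (l 16459184) (l 16448296)) (b (l 16426216) (l 16436248)))) (c (c (l 16501992) (l 16483168)) (c (c (l 16468032) (l 16457464)) (b (l 16435912) (l 16445848))))) (b (c (c (l 16509640) (l 16491408)) (a (c (l 16467176) (l 16445536)) (c (l 16476064) (l 16455072)))) (l 14))) (l 14)) (l 14)) (l 14)) (l 14)) (l 14)), by decide +kernel⟩

def k11_pp_022 : ∃ t, chk3 f_pp_022 t 4 7 1 = true :=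
  ⟨(l 14), by decide +kernel⟩

def k12_pp_022 : ∃ t, chk3 f_pp_022 t 5 3 1 = true :=
  ⟨(l 14), by decide +kernel⟩

def k13_pp_022 : ∃ t, chk3 f_pp_022 t 3 1 1 = true :=
  ⟨(b (b (a (c (a (b (b (a (c (l 16440832) (l 16445320)) (c (l 16465712) (l 16466256))) (a (c (l 16496584) (l 16478120)) (c (l 16545064) (l 16522816)))) (b (a (c (a (l 16482688) (l 16496248)) (l 16552896)) (c (a (l 16511136) (l 16527272)) (a (l 16530120) (l 16544472)))) (a (c (a (l 16519200) (l 16533832)) (a (l 16539128) (l 16552064))) (l 14)))) (b (a (c (a (l 16507616) (l 16524576)) (a (l 16525352) (l 16561384))) (a (c (l 16584480) (l 16598440)) (l 2))) (l 14))) (a (b (a (a (c (l 16487344) (l 16564360)) (c (l 16494896) (l 16569584))) (a (c (l 16503928) (l 16597248)) (b (l 16553392) (l 16607152)))) (b (a (a (c (l 16532032) (l 16562992)) (l 16639568)) (a (l 16649584) (c (l 16565240) (l 16589568)))) (a (a (c (l 16562752) (l 16590064)) (c (l 16573792) (l 16599008))) (l 14)))) (b (b (a (a (l 16563320) (l 16574464))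 (a (l 16628624) (l 2))) (a (a (l 16618400) (l 16651736)) (l 14))) (l 14)))) (l 2)) (l 14)) (l 14)), by decide +kernel⟩

theorem s14_pp_022 : ∃ t, chk3 f_pp_022 t 4 24 1 = true := ex3_b k7_pp_022 k8_pp_022

theorem s15_pp_022 : ∃ t, chk3 f_pp_022 t 4 12 1 = true := ex3_b s14_pp_022 k9_pp_022

theorem s16_pp_022 : ∃ t, chk3 f_pp_022 t 4 6 1 = true := ex3_b s15_pp_022 k10_pp_022

theorem s17_pp_022 : ∃ t, chk3 f_pp_022 t 4 3 1 = true := ex3_b s16_pp_022 k11_pp_022

theorem s18_pp_022 : ∃ t, chk3 f_pp_022 t 2 3 1 = true := ex3_a s17_pp_022 k12_pp_022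

theorem s19_pp_022 : ∃ t, chk3 f_pp_022 t 5 2 1 = true := ex3_b k5_pp_022 k6_pp_022

theorem s20_pp_022 : ∃ t, chk3 f_pp_022 t 9 2 1 = true := ex3_b k3_pp_022 k4_pp_022

theorem s21_pp_022 : ∃ t, chk3 f_pp_022 t 8 2 3 = true := ex3_c k1_pp_022 k2_pp_022

theorem s22_pp_022 : ∃ t, chk3 f_pp_022 t 8 2 1 = true := ex3_c k0_pp_022 s21_pp_022

theorem s23_pp_022 : ∃ t, chk3 f_pp_022 t 4 2 1 = true := ex3_a s22_pp_022 s20_pp_022

theorem s24_pp_022 : ∃ t, chk3 f_pp_022 t 2 2 1 = true := ex3_a s23_pp_022 s19_pp_022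

theorem s25_pp_022 : ∃ t, chk3 f_pp_022 t 2 1 1 = true := ex3_b s24_pp_022 s18_pp_022

theorem s26_pp_022 : ∃ t, chk3 f_pp_022 t 1 1 1 = true := ex3_a s25_pp_022 k13_pp_022

theorem c_pp_022 : CertB 0 536870912 0 536870912 858993459 64424510 3 eng mog cd0q0 cd0q2 pd2 true true true .pp 0 2 2
    ndB0q0 ndB0q2 pcB2 cut_pp_022 Ext.none :=
  certB0 (fam := true) (s1 := true) (s2 := true) (a := 0) (b := 2) (c := 2) (cn := .pp) (n1 := ndB0q0) (n2 := ndB0q2) (pc := pcB2) (cut := cut_pp_022) (xt := Ext.none) (P1 := 0) (W1 := 536870912) (P2 := 0) (W2 := 536870912) (P3 := 858993459) (W3 := 64424510) (N0 := 3) (En := eng) (mo := mog) (C1 := cd0q0) (C2 := cd0q2) (C3 := pd2)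
    rfl s26_pp_022

noncomputable def cut_pp_023 : Cut := Cut.of [[⟨3, 0, 0, 1449551462⟩], [⟨4, 0, 0, 2845415833⟩]]

noncomputable def f_pp_023 : ℕ → ℕ → ℕ → ℕ → Bool := onCell 1610612736 536870912 0 536870912 858993459 64424510
    (rowB 3 eng mog cd0q0 cd0q2 pd3 2 true true true .up 0 2 3 (qsf 0 536870912 0 536870912 3) ndB0q0 ndB0q2 pcB3 cut_pp_023 Ext.none)

def k0_pp_023 : ∃ t, chk3 f_pp_023 t 1 1 1 = true :=
  ⟨(a (b (a (a (b (b (b (a (a (c (c (l 16511328) (l 16529872)) (c (l 16551312) (l 16575496))) (b (c (l 16539640) (l 16580360)) (l 14))) (l 14)) (l 14)) (l 14)) (l 14)) (l 14)) (l 14)) (l 4)) (l 2)), by decide +kernel⟩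

theorem c_pp_023 : CertB 0 536870912 0 536870912 858993459 64424510 3 eng mog cd0q0 cd0q2 pd3 true true true .up 0 2 3
    ndB0q0 ndB0q2 pcB3 cut_pp_023 Ext.none :=
  certB2 (fam := true) (s1 := true) (s2 := true) (a := 0) (b := 2) (c := 3) (cn := .up) (n1 := ndB0q0) (n2 := ndB0q2) (pc := pcB3) (cut := cut_pp_023) (xt := Ext.none) (P1 := 0) (W1 := 536870912) (P2 := 0) (W2 := 536870912) (P3 := 858993459) (W3 := 64424510) (N0 := 3) (En := eng) (mo := mog) (C1 := cd0q0) (C2 := cd0q2) (C3 := pd3)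
    rfl (fun _ => rfl) k0_pp_023

noncomputable def cut_pp_101 : Cut := Cut.of [[⟨3, 0, 0, 1449551462⟩], [⟨4, 0, 0, 2845415833⟩]]

noncomputable def f_pp_101 : ℕ → ℕ → ℕ → ℕ → Bool := onCell 536870912 536870912 0 536870912 858993459 64424510
    (rowB 3 eng mog cd0q1 cd0q0 pd1 0 true true true .npn 1 0 1 (qsf 536870912 536870912 0 536870912 1) ndB0q1 ndB0q0 pcB1 cut_pp_101 Ext.none)

def k0_pp_101 : ∃ t, chk3 f_pp_101 t 1 1 1 = true :=
  ⟨(l 14), by decide +kernel⟩

theorem c_pp_101 : CertB 536870912 536870912 0 536870912 858993459 64424510 3 eng mog cd0q1 cd0q0 pd1 true true true .npn 1 0 1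
    ndB0q1 ndB0q0 pcB1 cut_pp_101 Ext.none :=
  certB0 (fam := true) (s1 := true) (s2 := true) (a := 1) (b := 0) (c := 1) (cn := .npn) (n1 := ndB0q1) (n2 := ndB0q0) (pc := pcB1) (cut := cut_pp_101) (xt := Ext.none) (P1 := 536870912) (W1 := 536870912) (P2 := 0) (W2 := 536870912) (P3 := 858993459) (W3 := 64424510) (N0 := 3) (En := eng) (mo := mog) (C1 := cd0q1) (C2 := cd0q0) (C3 := pd1)
    rfl k0_pp_101

noncomputable def cut_pp_102 : Cut := Cut.of [[⟨3, 0, 0, 1449551462⟩], [⟨4, 0, 0, 2845415833⟩]]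

noncomputable def f_pp_102 : ℕ → ℕ → ℕ → ℕ → Bool := onCell 536870912 536870912 0 536870912 858993459 64424510
    (rowB 3 eng mog cd0q1 cd0q0 pd2 0 true true true .npp 1 0 2 (qsf 536870912 536870912 0 536870912 2) ndB0q1 ndB0q0 pcB2 cut_pp_102 Ext.none)

def k0_pp_102 : ∃ t, chk3 f_pp_102 t 1 1 1 = true :=
  ⟨(l 14), by decide +kernel⟩

theorem c_pp_102 : CertB 536870912 536870912 0 536870912 858993459 64424510 3 eng mog cd0q1 cd0q0 pd2 true true true .npp 1 0 2
    ndB0q1 ndB0q0 pcB2 cut_pp_102 Ext.none :=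
  certB0 (fam := true) (s1 := true) (s2 := true) (a := 1) (b := 0) (c := 2) (cn := .npp) (n1 := ndB0q1) (n2 := ndB0q0) (pc := pcB2) (cut := cut_pp_102) (xt := Ext.none) (P1 := 536870912) (W1 := 536870912) (P2 := 0) (W2 := 536870912) (P3 := 858993459) (W3 := 64424510) (N0 := 3) (En := eng) (mo := mog) (C1 := cd0q1) (C2 := cd0q0) (C3 := pd2)
    rfl k0_pp_102

noncomputable def cut_pp_112 : Cut := Cut.of [[⟨3, 0, 0, 1449551462⟩], [⟨4, 0, 0, 2845415833⟩]]

noncomputable def f_pp_112 : ℕ → ℕ → ℕ → ℕ → Bool := onCell 536870912 536870912 536870912 536870912 858993459 64424510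
    (rowB 3 eng mog cd0q1 cd0q1 pd2 0 true true true .dn 1 1 2 (qsf 536870912 536870912 536870912 536870912 2) ndB0q1 ndB0q1 pcB2 cut_pp_112 Ext.none)

def k0_pp_112 : ∃ t, chk3 f_pp_112 t 1 1 1 = true :=
  ⟨(l 4), by decide +kernel⟩

theorem c_pp_112 : CertB 536870912 536870912 536870912 536870912 858993459 64424510 3 eng mog cd0q1 cd0q1 pd2 true true true .dn 1 1 2
    ndB0q1 ndB0q1 pcB2 cut_pp_112 Ext.none :=
  certB0 (fam := true) (s1 := true) (s2 := true) (a := 1) (b := 1) (c := 2) (cn := .dn) (n1 := ndB0q1) (n2 := ndB0q1) (pc := pcB2) (cut := cut_pp_112) (xt := Ext.none) (P1 := 536870912) (W1 := 536870912) (P2 := 536870912) (W2 := 536870912) (P3 := 858993459) (W3 := 64424510) (N0 := 3) (En := eng) (mo := mog) (C1 := cd0q1) (C2 := cd0q1) (C3 := pd2)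
    rfl k0_pp_112

noncomputable def cut_pp_113 : Cut := Cut.of [[⟨3, 0, 0, 1449551462⟩], [⟨4, 0, 0, 2845415833⟩]]

noncomputable def f_pp_113 : ℕ → ℕ → ℕ → ℕ → Bool := onCell 536870912 536870912 536870912 536870912 858993459 64424510
    (rowB 3 eng mog cd0q1 cd0q1 pd3 0 true true true .nn 1 1 3 (qsf 536870912 536870912 536870912 536870912 3) ndB0q1 ndB0q1 pcB3 cut_pp_113 Ext.none)

def k0_pp_113 : ∃ t, chk3 f_pp_113 t 1 1 1 = true :=
  ⟨(l 4), by decide +kernel⟩

theorem c_pp_113 : CertB 536870912 536870912 536870912 536870912 858993459 64424510 3 eng mog cd0q1 cd0q1 pd3 true true true .nn 1 1 3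
    ndB0q1 ndB0q1 pcB3 cut_pp_113 Ext.none :=
  certB0 (fam := true) (s1 := true) (s2 := true) (a := 1) (b := 1) (c := 3) (cn := .nn) (n1 := ndB0q1) (n2 := ndB0q1) (pc := pcB3) (cut := cut_pp_113) (xt := Ext.none) (P1 := 536870912) (W1 := 536870912) (P2 := 536870912) (W2 := 536870912) (P3 := 858993459) (W3 := 64424510) (N0 := 3) (En := eng) (mo := mog) (C1 := cd0q1) (C2 := cd0q1) (C3 := pd3)
    rfl k0_pp_113

noncomputable def cut_pp_123 : Cut := Cut.of [[⟨3, 0, 0, 1449551462⟩], [⟨4, 0, 0, 2845415833⟩]]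

noncomputable def f_pp_123 : ℕ → ℕ → ℕ → ℕ → Bool := onCell 536870912 536870912 0 536870912 858993459 64424510
    (rowB 3 eng mog cd0q1 cd0q2 pd3 0 true true true .npn 1 2 3 (qsf 536870912 536870912 0 536870912 3) ndB0q1 ndB0q2 pcB3 cut_pp_123 Ext.none)

def k0_pp_123 : ∃ t, chk3 f_pp_123 t 1 1 1 = true :=
  ⟨(a (l 14) (l 4)), by decide +kernel⟩

theorem c_pp_123 : CertB 536870912 536870912 0 536870912 858993459 64424510 3 eng mog cd0q1 cd0q2 pd3 true true true .npn 1 2 3
    ndB0q1 ndB0q2 pcB3 cut_pp_123 Ext.none :=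
  certB0 (fam := true) (s1 := true) (s2 := true) (a := 1) (b := 2) (c := 3) (cn := .npn) (n1 := ndB0q1) (n2 := ndB0q2) (pc := pcB3) (cut := cut_pp_123) (xt := Ext.none) (P1 := 536870912) (W1 := 536870912) (P2 := 0) (W2 := 536870912) (P3 := 858993459) (W3 := 64424510) (N0 := 3) (En := eng) (mo := mog) (C1 := cd0q1) (C2 := cd0q2) (C3 := pd3)
    rfl k0_pp_123

noncomputable def cut_pp_202 : Cut := Cut.of [[⟨3, 0, 0, 1449551462⟩], [⟨4, 0, 0, 2845415833⟩]]

noncomputable def f_pp_202 : ℕ → ℕ → ℕ → ℕ → Bool := onCell 0 536870912 0 536870912 858993459 64424510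
    (rowB 3 eng mog cd0q2 cd0q0 pd2 0 true true true .pp 2 0 2 (qsf 0 536870912 0 536870912 2) ndB0q2 ndB0q0 pcB2 cut_pp_202 Ext.none)

def k0_pp_202 : ∃ t, chk3 f_pp_202 t 1 1 1 = true :=
  ⟨(l 5), by decide +kernel⟩

theorem c_pp_202 : CertB 0 536870912 0 536870912 858993459 64424510 3 eng mog cd0q2 cd0q0 pd2 true true true .pp 2 0 2
    ndB0q2 ndB0q0 pcB2 cut_pp_202 Ext.none :=
  certB0 (fam := true) (s1 := true) (s2 := true) (a := 2) (b := 0) (c := 2) (cn := .pp) (n1 := ndB0q2) (n2 := ndB0q0) (pc := pcB2) (cut := cut_pp_202) (xt := Ext.none) (P1 := 0) (W1 := 536870912) (P2 := 0) (W2 := 536870912) (P3 := 858993459) (W3 := 64424510) (N0 := 3) (En := eng) (mo := mog) (C1 := cd0q2) (C2 := cd0q0) (C3 := pd2)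
    rfl k0_pp_202

noncomputable def cut_pp_203 : Cut := Cut.of [[⟨3, 0, 0, 1449551462⟩], [⟨4, 0, 0, 2845415833⟩]]

noncomputable def f_pp_203 : ℕ → ℕ → ℕ → ℕ → Bool := onCell 0 536870912 0 536870912 858993459 64424510
    (rowB 3 eng mog cd0q2 cd0q0 pd3 0 true true true .up 2 0 3 (qsf 0 536870912 0 536870912 3) ndB0q2 ndB0q0 pcB3 cut_pp_203 Ext.none)

def k0_pp_203 : ∃ t, chk3 f_pp_203 t 1 1 1 = true :=
  ⟨(l 5), by decide +kernel⟩

theorem c_pp_203 : CertB 0 536870912 0 536870912 858993459 64424510 3 eng mog cd0q2 cd0q0 pd3 true true true .up 2 0 3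
    ndB0q2 ndB0q0 pcB3 cut_pp_203 Ext.none :=
  certB0 (fam := true) (s1 := true) (s2 := true) (a := 2) (b := 0) (c := 3) (cn := .up) (n1 := ndB0q2) (n2 := ndB0q0) (pc := pcB3) (cut := cut_pp_203) (xt := Ext.none) (P1 := 0) (W1 := 536870912) (P2 := 0) (W2 := 536870912) (P3 := 858993459) (W3 := 64424510) (N0 := 3) (En := eng) (mo := mog) (C1 := cd0q2) (C2 := cd0q0) (C3 := pd3)
    rfl k0_pp_203

noncomputable def cut_pp_213 : Cut := Cut.of [[⟨3, 0, 0, 1449551462⟩], [⟨4, 0, 0, 2845415833⟩]]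

noncomputable def f_pp_213 : ℕ → ℕ → ℕ → ℕ → Bool := onCell 0 536870912 536870912 536870912 858993459 64424510
    (rowB 3 eng mog cd0q2 cd0q1 pd3 0 true true true .pnn 2 1 3 (qsf 0 536870912 536870912 536870912 3) ndB0q2 ndB0q1 pcB3 cut_pp_213 Ext.none)

def k0_pp_213 : ∃ t, chk3 f_pp_213 t 1 1 1 = true :=
  ⟨(a (l 5) (l 4)), by decide +kernel⟩

theorem c_pp_213 : CertB 0 536870912 536870912 536870912 858993459 64424510 3 eng mog cd0q2 cd0q1 pd3 true true true .pnn 2 1 3
    ndB0q2 ndB0q1 pcB3 cut_pp_213 Ext.none :=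
  certB0 (fam := true) (s1 := true) (s2 := true) (a := 2) (b := 1) (c := 3) (cn := .pnn) (n1 := ndB0q2) (n2 := ndB0q1) (pc := pcB3) (cut := cut_pp_213) (xt := Ext.none) (P1 := 0) (W1 := 536870912) (P2 := 536870912) (W2 := 536870912) (P3 := 858993459) (W3 := 64424510) (N0 := 3) (En := eng) (mo := mog) (C1 := cd0q2) (C2 := cd0q1) (C3 := pd3)
    rfl k0_pp_213

noncomputable def cut_pm_001 : Cut := Cut.of [[⟨3, 0, 0, 1449551462⟩], [⟨4, 0, 0, 2845415833⟩]]

noncomputable def f_pm_001 : ℕ → ℕ → ℕ → ℕ → Bool := onCell 0 536870912 0 536870912 858993459 64424510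
    (rowB 3 eng mog cd0q0 cd0q0 pd1 0 true true false .up 0 0 1 (qsf 0 536870912 0 536870912 1) ndB0q0 ndB0q0 pcB1 cut_pm_001 Ext.none)

def k0_pm_001 : ∃ t, chk3 f_pm_001 t 1 1 1 = true :=
  ⟨(l 3), by decide +kernel⟩

theorem c_pm_001 : CertB 0 536870912 0 536870912 858993459 64424510 3 eng mog cd0q0 cd0q0 pd1 true true false .up 0 0 1
    ndB0q0 ndB0q0 pcB1 cut_pm_001 Ext.none :=
  certB0 (fam := true) (s1 := true) (s2 := false) (a := 0) (b := 0) (c := 1) (cn := .up) (n1 := ndB0q0) (n2 := ndB0q0) (pc := pcB1) (cut := cut_pm_001) (xt := Ext.none) (P1 := 0) (W1 := 536870912) (P2 := 0) (W2 := 536870912) (P3 := 858993459) (W3 := 64424510) (N0 := 3) (En := eng) (mo := mog) (C1 := cd0q0) (C2 := cd0q0) (C3 := pd1)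
    rfl k0_pm_001

noncomputable def cut_pm_011 : Cut := Cut.of [[⟨3, 0, 0, 1449551462⟩], [⟨4, 0, 0, 2845415833⟩], [⟨0, 0, 0, 67108864⟩, ⟨1, 1, 0, 67108864⟩, ⟨2, 1, 0, 67108864⟩]]

noncomputable def f_pm_011 : ℕ → ℕ → ℕ → ℕ → Bool := onCell 0 536870912 536870912 536870912 858993459 64424510
    (rowB 3 eng mog cd0q0 cd0q1 pd1 1 true true false .pnn 0 1 1 (qsf 0 536870912 536870912 536870912 1) ndB0q0 ndB0q1 pcB1 cut_pm_011 Ext.none)

def k0_pm_011 : ∃ t, chk3 f_pm_011 t 1 1 1 = true :=
  ⟨(l 6), by decide +kernel⟩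

theorem c_pm_011 : CertB 0 536870912 536870912 536870912 858993459 64424510 3 eng mog cd0q0 cd0q1 pd1 true true false .pnn 0 1 1
    ndB0q0 ndB0q1 pcB1 cut_pm_011 Ext.none :=
  certB1 (fam := true) (s1 := true) (s2 := false) (a := 0) (b := 1) (c := 1) (cn := .pnn) (n1 := ndB0q0) (n2 := ndB0q1) (pc := pcB1) (cut := cut_pm_011) (xt := Ext.none) (P1 := 0) (W1 := 536870912) (P2 := 536870912) (W2 := 536870912) (P3 := 858993459) (W3 := 64424510) (N0 := 3) (En := eng) (mo := mog) (C1 := cd0q0) (C2 := cd0q1) (C3 := pd1)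
    rfl (fun _ => rfl) k0_pm_011

noncomputable def cut_pm_012 : Cut := Cut.of [[⟨3, 0, 0, 1449551462⟩], [⟨4, 0, 0, 2845415833⟩], [⟨0, 0, 0, 67108864⟩, ⟨1, 1, 0, 67108864⟩, ⟨2, 1, 0, 67108864⟩]]

noncomputable def f_pm_012 : ℕ → ℕ → ℕ → ℕ → Bool := onCell 0 536870912 536870912 536870912 858993459 64424510
    (rowB 3 eng mog cd0q0 cd0q1 pd2 0 true true false .pnp 0 1 2 (qsf 0 536870912 536870912 536870912 2) ndB0q0 ndB0q1 pcB2 cut_pm_012 Ext.none)

def k0_pm_012 : ∃ t, chk3 f_pm_012 t 1 2 1 = true :=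
  ⟨(l 6), by decide +kernel⟩

def k1_pm_012 : ∃ t, chk3 f_pm_012 t 2 3 1 = true :=
  ⟨(b (l 6) (a (l 6) (b (l 6) (a (l 6) (b (l 6) (b (l 6) (a (l 6) (a (b (l 6) (c (c (a (l 16437080) (l 16426712)) (l 16437552)) (c (l 16445280) (l 16455088)))) (c (c (c (l 16421216) (l 16423472)) (b (l 16438472) (l 16417496))) (c (l 16435680) (l 16445664))))))))))), by decide +kernel⟩

def k2_pm_012 : ∃ t, chk3 f_pm_012 t 3 6 1 = true :=
  ⟨(a (l 6) (b (l 6) (b (a (l 6) (a (l 6) (a (b (l 6) (c (l 16480448) (l 16470776))) (c (b (l 16494472) (l 16465256)) (b (l 16483648) (l 16452400)))))) (a (a (l 6) (a (l 6) (b (l 6) (c (l 16473240) (l 16462656))))) (c (a (b (a (l 16485280) (l 16467144)) (a (l 16454264) (l 16436736))) (b (a (l 16450688) (l 16436056)) (a (l 16420880) (l 16406816)))) (a (b (a (l 16476120) (l 16457344)) (a (l 16443592) (l 16425304))) (c (l 16501424) (l 16495048)))))))), by decide +kernel⟩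

def k3_pm_012 : ∃ t, chk3 f_pm_012 t 6 7 1 = true :=
  ⟨(b (a (l 6) (b (l 6) (a (a (l 6) (b (l 6) (c (l 16461856) (l 16456912)))) (c (b (c (l 16468616) (l 16463040)) (c (l 16432088) (l 16428280))) (b (a (l 16466992) (l 16445560)) (l 16414728)))))) (a (b (b (a (l 6) (a (l 6) (a (l 6) (c (l 16461760) (l 16462368))))) (a (a (l 6) (b (l 6) (c (l 16458552) (l 16466184)))) (c (c (a (l 16447296) (l 16426416)) (l 16459368)) (c (l 16441744) (l 16446912))))) (c (a (a (b (c (l 16445712) (l 16449504)) (c (b (l 16412824) (l 16391208)) (l 16407856))) (b (c (l 16424912) (l 16428832)) (c (b (l 16392616) (l 16371408)) (l 16388088)))) (b (c (c (l 16435712) (l 16395168)) (a (l 16408448) (l 16388328))) (c (a (b (l 16372752) (l 16351960)) (b (l 16353240) (l 16332856))) (a (l 16368576) (l 16349304))))) (c (a (b (a (l 16455160) (l 16434856)) (a (l 16416240) (l 16396968))) (b (l 16383880) (a (l 16377864) (l 16358928)))) (a (b (l 16431904) (a (l 16427064) (l 16408552))) (b (l 16413752) (l 16381016))))))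 (b (c (a (b (c (l 16457032) (l 16434856)) (c (c (l 16395776) (l 16395896)) (l 16397120))) (b (c (l 16394992) (l 16393456)) (c (l 16398152) (l 16357200)))) (a (b (c (l 16435240) (l 16437232)) (c (l 16400736) (l 16406616))) (c (b (l 16393968) (l 16360976)) (b (l 16396552) (l 16367552))))) (c (a (b (c (a (l 16364568) (l 16345152)) (l 16358712)) (b (c (l 16345624) (l 16330288)) (c (a (l 16314104) (l 16295720)) (l 16311760)))) (b (c (a (l 16326128) (l 16307672)) (l 16320312)) (c (a (l 16308176) (l 16269600)) (a (l 16293104) (l 16275136))))) (a (b (c (l 16365552) (l 16375376)) (a (l 16283544) (l 16286160))) (c (b (l 16327344) (l 16294296)) (b (l 16337976) (l 16308952)))))))), by decide +kernel⟩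

def k4_pm_012 : ∃ t, chk3 f_pm_012 t 7 14 1 = true :=
  ⟨(b (a (a (a (b (l 6) (c (l 16469112) (l 16457024))) (c (b (l 16502968) (l 16448192)) (b (l 16469512) (l 16436528)))) (c (b (c (l 16517632) (l 16468944)) (a (l 16428000) (l 16408960))) (b (a (l 16449288) (l 16429896)) (a (l 16416872) (l 16398024))))) (a (c (b (a (l 16423096) (l 16406200)) (a (l 16391280) (l 16375032))) (b (a (l 16411336) (l 16393520)) (l 16413208))) (c (b (a (l 16390960) (l 16377488)) (l 16437840)) (b (l 16388600) (l 16337400))))) (b (a (c (a (c (l 16426904) (l 16421128)) (c (l 16388272) (l 16382272))) (a (l 16477808) (l 16397680))) (a (c (l 16413864) (l 16341592)) (c (l 16323240) (l 16308624)))) (a (c (a (c (l 16391816) (l 16387728)) (c (l 16354704) (l 16350200))) (a (l 16364192) (l 16348128))) (c (a (c (l 16322696) (l 16316960)) (l 16314048)) (a (l 16314008) (l 16281896)))))), by decide +kernel⟩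

def k5_pm_012 : ∃ t, chk3 f_pm_012 t 7 15 1 = true :=
  ⟨(a (b (b (c (a (c (l 16356232) (l 16354288)) (c (l 16320688) (l 16318120))) (a (l 16335328) (l 16341392))) (c (a (c (l 16319024) (l 16319464)) (c (l 16285128) (l 16284680))) (a (c (l 16323336) (l 16330664)) (c (l 16288408) (l 16296336))))) (c (a (c (a (b (l 16289912) (l 16252704)) (b (l 16272888) (l 16236568))) (b (l 16284048) (a (l 16257776) (l 16241064)))) (c (b (a (l 16256696) (l 16241768)) (a (l 16221280) (l 16207272))) (b (l 16250696) (a (l 16225040) (l 16210008))))) (a (c (b (l 16291096) (l 16259464)) (b (l 16302480) (l 16274872))) (c (b (l 16257392) (l 16227000)) (b (l 16269272) (l 16242800)))))) (b (c (a (b (c (l 16290296) (l 16286192)) (c (l 16256416) (l 16254088))) (c (b (l 16266976) (l 16234712)) (b (l 16259560) (l 16228688)))) (a (c (l 16292328) (l 16276984)) (b (l 16256000) (l 16229184)))) (b (c (a (c (a (l 16228352) (l 16216488)) (l 16221456)) (c (a (l 16206400) (l 16198128)) (l 16197312))) (a (c (l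 16226624) (l 16237768)) (l 16264648))) (c (a (c (a (l 16194768) (l 16183824)) (a (l 16196120) (l 16183384))) (c (a (l 16174632) (l 16167208)) (l 16166744))) (a (c (l 16197288) (l 16212136)) (c (l 16170232) (l 16181336))))))), by decide +kernel⟩

theorem s6_pm_012 : ∃ t, chk3 f_pm_012 t 7 7 1 = true := ex3_b k4_pm_012 k5_pm_012

theorem s7_pm_012 : ∃ t, chk3 f_pm_012 t 3 7 1 = true := ex3_a k3_pm_012 s6_pm_012

theorem s8_pm_012 : ∃ t, chk3 f_pm_012 t 3 3 1 = true := ex3_b k2_pm_012 s7_pm_012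

theorem s9_pm_012 : ∃ t, chk3 f_pm_012 t 1 3 1 = true := ex3_a k1_pm_012 s8_pm_012

theorem s10_pm_012 : ∃ t, chk3 f_pm_012 t 1 1 1 = true := ex3_b k0_pm_012 s9_pm_012

theorem c_pm_012 : CertB 0 536870912 536870912 536870912 858993459 64424510 3 eng mog cd0q0 cd0q1 pd2 true true false .pnp 0 1 2
    ndB0q0 ndB0q1 pcB2 cut_pm_012 Ext.none :=
  certB0 (fam := true) (s1 := true) (s2 := false) (a := 0) (b := 1) (c := 2) (cn := .pnp) (n1 := ndB0q0) (n2 := ndB0q1) (pc := pcB2) (cut := cut_pm_012) (xt := Ext.none) (P1 := 0) (W1 := 536870912) (P2 := 536870912) (W2 := 536870912) (P3 := 858993459) (W3 := 64424510) (N0 := 3) (En := eng) (mo := mog) (C1 := cd0q0) (C2 := cd0q1) (C3 := pd2)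
    rfl s10_pm_012

noncomputable def cut_pm_022 : Cut := Cut.of [[⟨3, 0, 0, 1449551462⟩], [⟨4, 0, 0, 2845415833⟩], [⟨0, 0, 0, 67108864⟩, ⟨1, 1, 0, 67108864⟩, ⟨2, 1, 0, 67108864⟩]]

noncomputable def f_pm_022 : ℕ → ℕ → ℕ → ℕ → Bool := onCell 1073741824 536870912 0 536870912 858993459 64424510
    (rowB 3 eng mog cd0q0 cd0q2 pd2 2 true true false .pp 0 2 2 (qsf 0 536870912 0 536870912 2) ndB0q0 ndB0q2 pcB2 cut_pm_022 Ext.none)

def k0_pm_022 : ∃ t, chk3 f_pm_022 t 4 2 1 = true :=
  ⟨(b (l 1) (a (l 1) (a (l 1) (a (l 1) (a (l 1) (b (l 1) (b (l 1) (c (c (l 16341256) (l 16294624)) (c (l 16243904) (b (l 16177496) (l 16200544))))))))))), by decide +kernel⟩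

def k1_pm_022 : ∃ t, chk3 f_pm_022 t 4 3 1 = true :=
  ⟨(b (a (l 1) (b (a (l 1) (c (b (a (a (l 1) (c (l 16365584) (l 16317696))) (a (c (l 16372912) (l 16326896)) (c (l 16378760) (l 16335736)))) (a (a (b (l 1) (c (l 16417800) (l 16375552))) (c (b (l 16400592) (l 16425304)) (b (l 16355536) (l 16382328)))) (a (c (l 16417352) (l 16375320)) (c (l 16419928) (l 16381128))))) (a (b (a (l 1) (a (l 1) (a (l 1) (b (l 1) (l 16255080))))) (b (a (l 1) (c (l 16306480) (a (l 16251736) (l 16255168)))) (a (c (l 16329640) (a (l 16278960) (l 16281184))) (c (l 16335488) (a (l 16283488) (l 16286112)))))) (b (a (c (b (l 16264192) (l 16289256)) (b (l 16209016) (l 16236160))) (c (b (l 16276912) (l 16300656)) (b (l 16225104) (l 16251112)))) (a (b (c (l 16315592) (l 16264752)) (c (l 16343160) (l 16294728))) (b (c (l 16325632) (l 16278520)) (l 16287992))))))) (a (b (b (a (l 1) (a (l 1) (a (l 1) (b (l 1) (c (l 16428488) (l 16344624)))))) (l 6)) (l 6)) (b (c (b (a (a (c (l 16444816) (l 16404896))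 (c (l 16450992) (l 16410224))) (a (l 16434032) (l 16435720))) (a (a (c (l 16472840) (l 16435360)) (c (l 16477656) (l 16439200))) (a (l 16449744) (l 16460224)))) (a (a (b (c (l 16361448) (l 16314472)) (c (l 16394504) (l 16350264))) (a (b (l 16299144) (l 16363720)) (b (l 16301168) (l 16343928)))) (c (b (a (l 16371904) (l 16379048)) (l 16404536)) (a (b (l 16326016) (l 16358504)) (b (l 16337200) (l 16368288)))))) (a (b (a (l 6) (a (l 6) (c (l 16488528) (l 16408624)))) (l 6)) (b (c (c (l 16486640) (l 16490992)) (a (l 16391656) (l 16418728))) (a (l 6) (c (l 16517032) (l 16428560))))))))) (l 6)), by decide +kernel⟩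

def k2_pm_022 : ∃ t, chk3 f_pm_022 t 5 2 2 = true :=
  ⟨(b (a (a (a (l 1) (b (b (l 16298280) (b (l 16314144) (l 16290992))) (b (c (l 16312816) (l 16259504)) (a (l 16276208) (l 16298592))))) (b (a (b (l 16243296) (c (l 16265632) (l 16294552))) (c (l 16418704) (l 16282800))) (a (b (c (l 16362232) (l 16310040)) (c (l 16357000) (l 16308224))) (b (c (l 16411504) (l 16360216)) (c (l 16402840) (l 16354528)))))) (a (b (a (c (l 16463824) (l 16414280)) (l 16436336)) (c (b (l 16309016) (l 16427848)) (b (l 16266240) (l 16359304)))) (c (b (l 16252824) (b (b (l 16287336) (l 16272104)) (l 16292928))) (b (l 16467992) (b (l 16466816) (l 16488024)))))) (a (a (b (a (a (l 1) (b (l 16266456) (a (l 16281704) (l 16290120)))) (b (a (l 16286096) (l 16305944)) (a (l 16323808) (l 16320016)))) (a (b (a (c (l 16319968) (l 16272784)) (c (l 16332784) (l 16287768))) (a (c (l 16350664) (l 16306616)) (c (l 16360424) (l 16318832)))) (b (a (l 16324912) (l 16360296)) (a (l 16372288) (l 16383840))))) (b (a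 (b (a (l 16326832) (l 16348016)) (c (l 16369520) (l 16325544))) (c (b (l 16402016) (l 16407472)) (l 16338712))) (a (b (a (l 16355496) (l 16372240)) (a (l 16376520) (l 16390880))) (b (a (l 16388912) (l 16405488)) (a (l 16405192) (l 16419416)))))) (c (b (a (c (l 16332432) (l 16305960)) (a (l 16487456) (l 16397568))) (a (b (l 16403944) (l 16389816)) (a (l 16513704) (l 16499560)))) (b (a (a (l 16398920) (l 16437016)) (l 16385952)) (a (b (l 16339864) (l 16328040)) (a (l 16470344) (l 16495664))))))), by decide +kernel⟩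

def k3_pm_022 : ∃ t, chk3 f_pm_022 t 5 4 3 = true :=
  ⟨(b (a (a (a (l 1) (a (l 1) (a (l 1) (b (l 16153744) (b (l 16167528) (l 16124312)))))) (c (b (a (l 16261344) (l 16312168)) (a (b (l 16256032) (a (l 16240960) (l 16267656))) (l 16306360))) (b (a (a (l 16182352) (l 16209448)) (l 16248816)) (b (a (l 16188720) (l 16242680)) (a (b (a (l 16172904) (l 16200008)) (l 16186408)) (a (l 16226952) (l 16252944))))))) (c (a (a (l 16274040) (l 16404128)) (l 16359920)) (a (a (b (l 16298584) (l 16270784)) (l 16300736)) (a (l 16364480) (l 16382128))))) (a (a (a (l 1) (b (c (l 16200896) (a (l 1) (l 16150168))) (c (l 16207240) (a (l 16135448) (l 16160184))))) (a (b (c (l 16252144) (c (l 16204992) (l 16171784))) (c (l 16254280) (a (l 16183680) (l 16206704)))) (b (a (l 16238144) (l 16284208)) (c (l 16300552) (l 16240944))))) (b (c (a (a (l 16352968) (l 16359048)) (l 16297264)) (a (a (l 16268320) (l 16253392)) (a (l 16255520) (b (l 16422936) (l 16400376))))) (a (a (l 16169800) (l 16234448))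 (a (l 16276248) (l 16315944)))))), by decide +kernel⟩

def k4_pm_022 : ∃ t, chk3 f_pm_022 t 5 5 3 = true :=
  ⟨(a (a (b (a (b (c (l 16176296) (l 16117128)) (c (l 16199904) (a (l 1) (l 16153576)))) (b (c (l 16219888) (a (l 16152024) (l 16175072))) (c (l 16239136) (a (l 16175072) (l 16196288))))) (b (a (c (a (l 16221424) (l 16238696)) (a (l 16165904) (l 16185568))) (c (l 16306568) (a (l 16205136) (l 16224360)))) (a (a (c (l 16258648) (l 16206768)) (c (l 16273472) (l 16224360))) (a (a (l 16261496) (l 16269536)) (l 16323328))))) (a (b (b (c (l 16262504) (l 16206560)) (c (l 16277048) (l 16224048))) (b (c (l 16297520) (l 16248096)) (c (l 16323224) (l 16278224)))) (b (b (c (l 16304208) (l 16247368)) (l 16213952)) (b (l 16283152) (l 16315616))))) (a (a (b (b (l 16253976) (l 16301744)) (b (l 16334032) (l 16350160))) (b (b (l 16293024) (l 16335848)) (b (l 16362736) (l 16373120)))) (b (c (l 16269888) (b (l 16316768) (l 16373936))) (c (a (l 16420256) (l 16444240)) (b (l 16372568)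 (l 16375784)))))), by decide +kernel⟩

def k5_pm_022 : ∃ t, chk3 f_pm_022 t 10 6 1 = true :=
  ⟨(b (a (c (b (a (a (c (l 16385008) (l 16344824)) (c (l 16391640) (l 16354144))) (a (c (l 16398624) (l 16363632)) (c (l 16406112) (l 16373336)))) (a (a (c (l 16422920) (l 16387184)) (l 16389288)) (a (c (l 16430088) (l 16399896)) (c (l 16434416) (l 16406552))))) (b (a (a (c (l 16301040) (l 16253656)) (c (l 16313248) (l 16268968))) (a (c (l 16325456) (l 16284080)) (c (l 16337520) (l 16298680)))) (a (a (c (l 16348200) (l 16305992)) (c (l 16357608) (l 16318784))) (a (c (l 16366968) (l 16331312)) (c (l 16376152) (l 16343224)))))) (c (b (a (a (l 16401136) (l 16413000)) (a (l 16424824) (l 16436536))) (c (a (l 16447728) (l 16467160)) (a (l 16418896) (l 16435776)))) (b (a (c (l 16353312) (l 16313368)) (c (l 16373392) (l 16330368))) (a (c (l 16387240) (l 16352768)) (c (l 16400968) (l 16362760)))))) (a (a (b (c (b (c (l 16453840) (l 16423208)) (c (l 16474568) (l 16446456))) (c (b (l 16389776)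 (l 16415744)) (b (l 16353560) (l 16382464)))) (c (b (a (l 16484368) (l 16483272)) (a (l 16509056) (l 16506480))) (b (a (l 16424688) (l 16430432)) (c (l 16469952) (l 16441984))))) (b (c (a (b (l 16442728) (l 16462144)) (b (l 16445760) (l 16463496))) (c (b (l 16403880) (l 16426624)) (a (l 16382824) (l 16391736)))) (a (c (b (l 16482456) (l 16504000)) (b (l 16435920) (l 16462272))) (a (c (b (l 16481992) (l 16502216)) (l 16452576)) (b (l 16441872) (a (l 16484472) (b (l 16478832) (l 16469312)))))))) (a (b (c (c (l 16453944) (l 16429888)) (a (l 16388216) (l 16390720))) (b (c (l 16465984) (l 16441864)) (c (c (l 16513184) (l 16494728)) (l 16442752)))) (b (c (c (l 16488880) (l 16461600)) (a (l 16393096) (l 16416296))) (c (c (l 16449400) (l 16489112)) (b (l 16440992) (l 16458592))))))), by decide +kernel⟩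

def k6_pm_022 : ∃ t, chk3 f_pm_022 t 11 6 1 = true :=
  ⟨(b (a (c (c (a (b (l 16471784) (l 16485952)) (l 16446768)) (b (l 16340208) (a (l 16452008) (l 16467000)))) (b (a (l 16370152) (l 16386992)) (a (l 16393416) (l 16403552)))) (c (a (b (l 16495960) (l 16500944)) (b (l 16515064) (l 16515288))) (a (b (l 16402608) (l 16413184)) (b (l 16417800) (l 16422792))))) (a (c (b (a (c (l 16501696) (l 16471344)) (c (l 16513632) (l 16480480))) (a (a (l 16421224) (l 16444592)) (c (l 16525424) (l 16495456)))) (b (a (a (l 16418352) (l 16420088)) (b (l 16417464) (l 16427480))) (a (c (l 16441584) (l 16408520)) (b (l 16437776) (l 16448416))))) (a (c (b (l 16507480) (l 16495056)) (b (l 16426088) (b (l 16437152) (l 16445136)))) (c (b (l 16517472) (l 16521400)) (b (l 16430720) (b (l 16438024) (l 16443432))))))), by decide +kernel⟩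

def k7_pm_022 : ∃ t, chk3 f_pm_022 t 10 7 1 = true :=
  ⟨(a (b (a (b (b (c (a (l 16533544) (l 16530632)) (a (l 16483664) (l 16487128))) (l 6)) (l 6)) (a (b (c (b (l 16527792) (l 16551944)) (b (l 16490176) (l 16518256))) (l 6)) (a (b (c (l 16537872) (l 16506224)) (l 6)) (b (a (c (l 16536896) (l 16507032)) (c (b (l 16524720) (l 16548776)) (l 16506704))) (b (c (l 16551712) (l 16547416)) (l 6)))))) (l 6)) (a (b (b (c (b (l 16526144) (l 16549056)) (b (l 16489240) (l 16515352))) (c (b (l 16572184) (l 16595512)) (b (l 16541744) (l 16568600)))) (l 6)) (b (b (c (l 16486504) (b (l 16481704) (l 16506688))) (c (b (l 16570104) (l 16591896)) (b (l 16531688) (l 16557560)))) (b (b (c (l 16572840) (l 16584272)) (l 6)) (l 6))))), by decide +kernel⟩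

def k8_pm_022 : ∃ t, chk3 f_pm_022 t 11 7 1 = true :=
  ⟨(a (a (b (b (c (l 16516856) (l 16401800)) (c (l 16515344) (c (l 16546720) (l 16480256)))) (b (b (c (l 16511616) (l 16573368)) (c (c (l 16524072) (l 16538240)) (l 16542816))) (b (b (c (l 16512352) (l 16519080)) (l 6)) (l 6)))) (b (b (c (l 16495632) (b (l 16465848) (l 16489336))) (c (l 16449272) (b (l 16513368) (l 16538032)))) (b (b (c (l 16450672) (l 16563240)) (c (l 16427208) (l 16527584))) (b (c (c (l 16479896) (l 16492168)) (c (l 16506864) (l 16503040))) (b (c (a (l 16470456) (l 16460352)) (l 16446032)) (a (l 6) (a (l 6) (c (l 16443632) (l 16461944))))))))) (b (a (b (c (l 16474752) (c (l 16489456) (l 16451968))) (c (c (l 16535240) (l 16559952)) (l 16391800))) (b (c (l 16453608) (b (l 16412328) (l 16475976))) (c (l 16404248) (l 16447528)))) (c (b (b (c (l 16413016) (l 16518216)) (c (a (l 16483856) (l 16465048)) (l 16408400))) (b (a (c (l 16459896) (l 16473192)) (c (l 16440608) (l 16454600))) (c (a (b (l 16440864)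 (l 16427616)) (b (l 16421048) (l 16407456))) (a (b (l 16450728) (l 16435048)) (l 16423528))))) (b (b (l 16486392) (a (l 16511960) (l 16517088))) (b (c (a (l 16489248) (l 16471632)) (a (l 16487088) (l 16491720))) (a (a (l 16401976) (l 16434896)) (c (l 16435432) (l 16450008)))))))), by decide +kernel⟩

def k9_pm_022 : ∃ t, chk3 f_pm_022 t 6 2 4 = true :=
  ⟨(b (b (a (a (a (l 16393792) (l 16379976)) (a (l 16389904) (c (l 16350680) (l 16370264)))) (c (a (a (l 16344640) (l 16341016)) (a (l 16339984) (l 16341360))) (a (a (l 16363536) (l 16359144)) (l 16357216)))) (b (a (a (a (l 16316800) (l 16422936)) (a (l 16343616) (l 16331040))) (a (c (a (l 16310864) (l 16303776)) (l 16327360)) (c (a (l 16299456) (l 16297728)) (l 16316792)))) (a (a (a (l 16397408) (l 16371176)) (a (b (l 16339144) (l 16353896)) (b (a (l 16323352) (l 16314704)) (l 16330256)))) (a (a (a (b (l 16307216) (l 16313200)) (b (l 16300896) (a (l 16304904) (l 16299392)))) (b (l 16293888) (b (c (a (l 16278336) (l 16271680))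 (l 16297120)) (l 16290528)))) (a (b (l 16287424) (c (b (l 16265600) (a (l 16265536) (l 16258624))) (l 16286032))) (c (b (l 16274272) (a (l 16258320) (l 16255976))) (l 16285808))))))) (a (b (a (b (a (l 16423400) (l 16398728)) (l 16287456)) (b (a (l 16375112) (l 16352448)) (a (l 16400344) (l 16378832)))) (a (b (a (l 16466872) (l 16444744)) (l 16391896)) (b (a (l 16423352) (l 16402936)) (a (l 16444792) (l 16425328))))) (b (c (a (b (a (l 16320064) (c (l 16294824) (l 16305176))) (a (l 16347672) (l 16328832))) (b (a (b (l 16273136) (l 16289104)) (b (a (l 16259720) (b (l 16247808) (l 16255448))) (l 16271992))) (a (l 16311320) (l 16295024)))) (a (b (l 16331680) (l 16359968)) (b (a (l 16302408) (l 16284296)) (l 16323832)))) (a (a (b (l 16383648) (l 16407160)) (b (l 16365736) (l 16390168))) (b (a (l 16349024) (l 16333328)) (a (l 16374272) (l 16359312))))))), by decide +kernel⟩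

def k10_pm_022 : ∃ t, chk3 f_pm_022 t 14 2 4 = true :=
  ⟨(b (b (c (a (b (l 16363360) (l 16331400)) (b (l 16379864) (l 16344360))) (a (l 16362320) (l 16375072))) (a (b (a (l 16306520) (l 16308656)) (c (a (l 16264056) (l 16264704)) (l 16282104))) (b (a (l 16312800) (l 16318864)) (c (a (l 16267472) (l 16272256)) (l 16285496))))) (b (a (c (b (b (a (b (a (l 16242728) (l 16239888)) (l 16243208)) (b (l 16239160) (a (l 16233480) (l 16230216)))) (a (l 16255944) (l 16240944))) (a (l 16279752) (l 16265520))) (b (b (a (l 16263144) (l 16255672)) (l 16267968)) (l 16292152))) (b (b (c (a (l 16235336) (l 16238624)) (l 16254328)) (a (c (b (a (l 16226400) (l 16222432)) (l 16231328)) (l 16246840)) (c (b (a (l 16221008) (l 16221888)) (a (l 16221584) (l 16216688))) (l 16239544)))) (c (a (l 16252312) (b (l 16231560) (l 16248248))) (l 16264400)))) (a (b (a (l 16318632) (l 16304952)) (a (l 16345328) (l 16332320))) (a (b (l 16292272) (l 16320296)) (b (l 16280584) (l 16309264)))))), by decide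 +kernel⟩

def k11_pm_022 : ∃ t, chk3 f_pm_022 t 15 2 4 = true :=
  ⟨(a (b (a (b (l 16404280) (b (l 16326752) (a (l 16284160) (l 16287720)))) (b (l 16395224) (b (l 16336368) (l 16293920)))) (b (b (a (b (l 16251744) (c (b (l 16225728) (a (b (l 16215168) (l 16212832)) (l 16215064))) (l 16237992))) (c (b (l 16251464) (l 16226112)) (l 16254096))) (a (c (b (a (l 16222872) (l 16217416)) (l 16237296)) (l 16246016)) (b (c (b (c (a (l 16227232) (l 16206208)) (l 16214752)) (l 16214120)) (b (l 16227240) (l 16230648))) (c (l 16227328) (l 16243776))))) (b (c (a (l 16261696) (l 16252392)) (l 16273480)) (a (l 16299232) (l 16290208))))) (a (b (b (l 16408624) (b (l 16347624) (l 16303696))) (b (b (b (l 16267280) (a (l 16239544) (l 16243992))) (b (c (b (l 16214576) (a (l 16207776) (b (l 16206960) (l 16205392)))) (b (l 16230016) (l 16223752))) (c (l 16218328) (l 16234064)))) (b (c (l 16244080) (l 16259448)) (l 16282256)))) (b (b (l 16444352) (b (l 16360392) (l 16315096))) (b (b (b (l 16277696)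 (l 16251504)) (b (c (a (b (l 16221680) (l 16208648)) (l 16220088)) (l 16232584)) (b (a (l 16215048) (b (c (l 16204696) (l 16219560)) (l 16213368))) (l 16222128)))) (b (b (l 16235376) (l 16252144)) (l 16275416)))))), by decide +kernel⟩

def k12_pm_022 : ∃ t, chk3 f_pm_022 t 3 6 4 = true :=
  ⟨(a (a (b (b (a (l 16452072) (a (l 16464496) (l 16445984))) (a (l 16510128) (a (l 16481832) (l 16464328)))) (a (b (l 16523200) (l 16531712)) (b (a (l 16496296) (l 16479544)) (l 16497848)))) (b (a (b (a (l 16428736) (l 16412536)) (a (l 16447760) (l 16432112))) (b (a (l 16397216) (l 16382800)) (l 16389128))) (a (b (a (l 16463544) (l 16448144)) (l 16445488)) (b (a (l 16433400) (l 16419352)) (l 16499776))))) (a (b (a (b (a (l 16369304) (l 16356736)) (l 16404552)) (b (a (l 16345128) (l 16334488)) (l 16381576))) (b (a (l 16420704) (l 16397264)) (a (l 16388552) (l 16384928)))) (b (a (b (a (l 16324856) (l 16316248)) (a (l 16345832) (l 16337344))) (b (a (l 16308760) (l 16302480)) (a (l 16330008)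 (l 16323936)))) (a (b (l 16377648) (l 16363872)) (b (a (l 16344792) (l 16338448)) (l 16347232)))))), by decide +kernel⟩

def k13_pm_022 : ∃ t, chk3 f_pm_022 t 3 7 4 = true :=
  ⟨(a (b (a (a (b (b (l 16530888) (l 16518040)) (b (l 16501664) (l 16440864))) (b (b (l 16500400) (l 16488376)) (b (l 16470784) (l 16450736)))) (b (a (b (l 16470344) (l 16460152)) (b (l 16440216) (l 16369880))) (a (l 16326016) (l 16444352)))) (a (b (a (a (l 16500680) (l 16441224)) (b (l 16428024) (l 16403040))) (a (b (a (l 16421696) (l 16403168)) (a (l 16394696) (l 16375464))) (b (l 16397088) (a (l 16356592) (l 16338064))))) (b (a (b (l 16395952) (l 16369576)) (b (l 16365448) (l 16337640))) (a (b (l 16362208) (a (l 16319896) (l 16302104))) (b (l 16328864) (a (l 16284696) (l 16267832))))))) (b (a (b (a (b (l 16411944) (l 16302032)) (a (l 16328472) (l 16379336))) (a (l 16417648) (l 16351352))) (a (b (b (l 16363312) (l 16381184)) (l 16351064)) (b (l 16427240) (b (l 16325640) (l 16299592))))) (a (b (a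 (b (l 16336792) (l 16307776)) (b (l 16310752) (l 16280520))) (a (b (l 16276728) (a (l 16251664) (l 16236256))) (b (a (l 16255208) (l 16242096)) (a (l 16221648) (l 16208176))))) (b (a (b (l 16288192) (l 16257448)) (b (l 16270472) (l 16239432))) (a (b (a (l 16230168) (l 16219672)) (a (l 16196176) (l 16185664))) (b (a (l 16210736) (l 16203400)) (a (l 16176816) (l 16169776)))))))), by decide +kernel⟩

def k14_pm_022 : ∃ t, chk3 f_pm_022 t 3 2 5 = true :=
  ⟨(a (b (a (b (a (l 16410824) (l 16407296)) (a (b (a (l 16429056) (l 16408616)) (l 16390872)) (b (l 16384048) (b (l 16378456) (l 16390200))))) (b (a (l 16370880) (l 16427240)) (a (b (l 16361000) (a (l 16396144) (l 16338936))) (b (l 16347664) (a (l 16327096) (l 16318504)))))) (a (b (a (c (l 16437232) (l 16483704)) (c (l 16286496) (l 16438040))) (a (b (l 16502488) (l 16521512)) (b (l 16460496) (l 16481344)))) (b (a (b (l 16367784) (l 16395968)) (b (a (l 16337544) (l 16318472)) (l 16358528))) (a (b (l 16421272) (l 16412632))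 (b (l 16385904) (l 16410384)))))) (b (a (b (a (a (l 16386064) (l 16389040)) (a (l 16393856) (l 16400440))) (a (b (l 16343480) (l 16312288)) (b (l 16347464) (l 16312360)))) (b (a (a (l 16408704) (l 16418560)) (a (l 16429920) (l 16442664))) (a (b (l 16358936) (l 16320336)) (b (a (l 16372008) (l 16382704)) (a (l 16331064) (l 16340352)))))) (a (b (b (a (b (a (l 16296312) (l 16287592)) (l 16300888)) (b (l 16283800) (a (l 16278144) (l 16269656)))) (a (l 16325040) (l 16295304))) (a (b (l 16354160) (l 16380048)) (b (l 16326088) (l 16353224)))) (b (a (b (a (l 16298328) (l 16280160)) (a (l 16275280) (b (b (l 16255376) (l 16258976)) (l 16271984)))) (b (a (l 16286248) (l 16294144)) (b (a (b (l 16256600) (l 16250856)) (l 16257904)) (a (l 16261184) (a (l 16253664) (l 16249920)))))) (a (b (l 16301784) (l 16330040)) (b (a (l 16286048) (l 16276888)) (l 16310912))))))), by decide +kernel⟩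

def k15_pm_022 : ∃ t, chk3 f_pm_022 t 3 3 5 = true :=
  ⟨(b (a (a (b (a (a (l 16510184) (l 16525584)) (b (l 16499968) (l 16515536))) (a (b (l 16511952) (l 16509696)) (b (l 16527744) (l 16518440)))) (b (a (b (l 16464368) (l 16481544)) (b (l 16431968) (l 16450080))) (a (b (l 16495024) (l 16503432)) (b (l 16464032) (l 16472600))))) (a (b (a (b (l 16402592) (l 16421200)) (b (l 16376512) (l 16395280))) (a (b (l 16435120) (l 16443168)) (b (l 16408696) (l 16415648)))) (b (a (b (l 16353968) (l 16372728)) (b (l 16335464) (l 16354216))) (a (b (l 16385464) (l 16390888)) (b (l 16366056) (l 16369792)))))) (a (b (a (b (a (l 16477680) (l 16432280)) (a (l 16520248) (l 16489848))) (b (b (a (l 16506208) (l 16475208)) (a (l 16494104) (l 16466440))) (a (l 16460216) (l 16431448)))) (a (b (a (b (l 16484584) (l 16457160)) (b (l 16451896) (l 16422952))) (b (a (l 16427232) (l 16391472)) (a (a (l 16404384) (l 16385480)) (a (l 16366808) (l 16348376))))) (b (a (l 16258304) (b (l 16389168) (l 16357224)))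 (a (b (l 16356624) (a (l 16330176) (l 16312232))) (b (l 16322768) (a (l 16294552) (l 16277280))))))) (b (a (b (a (b (l 16445080) (l 16439272)) (b (l 16416344) (l 16412744))) (a (l 16403664) (l 16377456))) (b (a (l 16389216) (a (l 16370896) (l 16359808))) (a (l 16269608) (b (l 16346696) (l 16317440))))) (a (b (a (b (l 16359416) (l 16326264)) (b (l 16331560) (l 16297256))) (a (b (l 16290504) (a (l 16260584) (l 16244496))) (b (l 16260608) (a (l 16229064) (l 16214496))))) (b (a (b (l 16306304) (l 16271400)) (b (l 16284592) (l 16249264))) (a (b (l 16233992) (a (l 16201016) (l 16188656))) (b (l 16211800) (a (l 16177480) (l 16167584))))))))), by decide +kernel⟩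

def k16_pm_022 : ∃ t, chk3 f_pm_022 t 6 2 3 = true :=
  ⟨(b (c (a (b (a (l 16483280) (l 16456616)) (a (b (l 16475032) (l 16488144)) (b (l 16437824) (a (l 16450136) (l 16406976))))) (a (b (l 16291600) (b (l 16411920) (a (l 16408768) (l 16392496)))) (b (l 16446496) (b (l 16394736) (a (l 16379104) (l 16368408)))))) (a (b (a (a (l 16437632) (l 16489000)) (a (l 16516264) (l 16506440))) (a (b (a (l 16353024) (l 16490520)) (l 16358912)) (b (l 16435664) (a (l 16512648) (l 16469360))))) (b (a (a (l 16495912) (l 16487104)) (a (l 16480040) (l 16411832))) (a (b (l 16469808) (a (l 16491632) (l 16474384))) (b (a (l 16453168) (l 16444456)) (a (b (l 16439880) (l 16434272)) (l 16425552))))))) (a (a (b (b (c (l 16508064) (l 16382384)) (l 16253552)) (b (l 16264040) (c (l 16474136) (l 16413520)))) (b (a (l 16325584) (c (l 16468848) (l 16510712))) (b (l 16374824) (l 16381312)))) (b (b (a (c (l 16401320) (l 16442192)) (c (a (l 16390880) (l 16370568)) (a (l 16451656) (b (l 16422288) (l 16438720)))))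 (a (l 16396232) (c (l 16411248) (l 16471376)))) (a (c (l 16486320) (l 16465232)) (c (l 16324352) (l 16467088)))))), by decide +kernel⟩

def k17_pm_022 : ∃ t, chk3 f_pm_022 t 14 2 3 = true :=
  ⟨(b (c (b (a (a (l 16425664) (l 16426424)) (a (l 16429008) (l 16433336))) (a (b (l 16386080) (l 16358656)) (b (l 16385440) (l 16416952)))) (b (a (a (l 16492224) (l 16469632)) (a (l 16469800) (l 16471680))) (a (b (a (l 16437768) (l 16433064)) (a (l 16415696) (l 16408872))) (b (a (l 16430272) (l 16429336)) (a (l 16404056) (l 16401192)))))) (b (a (a (b (b (b (l 16478464) (l 16396888)) (l 16409656)) (c (l 16384000) (l 16442464))) (b (b (c (l 16336656) (b (l 16393680) (l 16411544))) (l 16412216)) (l 16457584))) (b (b (c (l 16371368) (a (l 16384528) (l 16379904))) (a (a (l 16440728) (b (l 16409592) (l 16352840))) (b (c (l 16315920) (l 16369848)) (a (l 16344496) (c (l 16311200) (l 16365464)))))) (a (l 16482728) (b (l 16395512) (l 16369952))))) (b (a (c (l 16404032) (l 16461360)) (c (l 16373352)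 (l 16449120))) (a (l 16371960) (c (l 16399240) (l 16452808)))))), by decide +kernel⟩

def k18_pm_022 : ∃ t, chk3 f_pm_022 t 15 2 3 = true :=
  ⟨(b (b (a (b (a (l 16472200) (l 16476744)) (c (l 16426064) (a (l 16460208) (l 16464464)))) (c (a (l 16455976) (l 16487416)) (a (b (l 16503264) (l 16470256)) (b (l 16511904) (l 16477472))))) (a (c (b (l 16455136) (a (l 16355688) (l 16359144))) (b (a (l 16430192) (l 16432752)) (a (l 16400216) (l 16401056)))) (c (b (a (l 16401776) (l 16410120)) (a (l 16364368) (l 16371264))) (b (a (l 16436960) (l 16442704)) (a (l 16403656) (l 16449848)))))) (b (a (b (a (c (b (l 16328632) (l 16311440)) (b (l 16377536) (b (l 16365768) (a (l 16360624) (l 16357704))))) (c (l 16321000) (b (l 16377072) (l 16360416)))) (a (b (a (l 16342016) (b (l 16393056) (l 16338944))) (l 16355104)) (b (c (b (l 16362352) (l 16303344)) (b (a (b (l 16351112) (l 16352208)) (l 16369768)) (l 16355264))) (l 16383104)))) (b (a (c (l 16324640) (b (l 16378448) (l 16360976))) (c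 (l 16330080) (b (l 16381568) (l 16363352)))) (b (a (b (c (l 16298440) (l 16347600)) (a (c (l 16294344) (b (l 16343400) (l 16346848))) (c (l 16291536) (b (l 16341176) (l 16340368))))) (c (a (l 16296672) (l 16298600)) (a (b (l 16348584) (l 16381832)) (l 16345104)))) (a (c (l 16303936) (l 16354224)) (b (a (c (l 16290920) (l 16340096)) (b (c (l 16286192) (a (l 16334504) (l 16333792))) (l 16332072))) (c (l 16297008) (l 16345688))))))) (a (b (a (l 16377960) (l 16364520)) (a (l 16403992) (l 16391000))) (c (b (a (l 16328128) (l 16317416)) (l 16350640)) (b (a (l 16377768) (l 16407408)) (l 16398000)))))), by decide +kernel⟩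

def k19_pm_022 : ∃ t, chk3 f_pm_022 t 3 6 3 = true :=
  ⟨(a (a (b (a (c (b (l 16469232) (l 16466448)) (b (l 16410496) (l 16410192))) (a (b (l 16465752) (l 16457984)) (b (l 16483024) (l 16471096)))) (a (b (c (l 16423808) (l 16412584)) (a (l 16357792) (l 16402064))) (b (c (l 16482856) (l 16427216)) (a (l 16384048) (l 16408712))))) (b (a (a (l 16408792) (l 16444840)) (c (l 16489712) (l 16500704))) (a (b (l 16368992) (c (l 16482264) (l 16428976))) (b (l 16470608) (l 16361128))))) (a (b (a (c (l 16458512) (l 16512008)) (c (l 16345976) (l 16480824))) (b (a (l 16502184) (l 16450912)) (a (l 16433496) (l 16413856)))) (b (a (a (l 16223840) (l 16211016)) (b (l 16143144) (l 16242272))) (a (b (l 16401792) (l 16405312)) (b (l 16250736) (l 16357312)))))), by decide +kernel⟩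

def k20_pm_022 : ∃ t, chk3 f_pm_022 t 3 7 3 = true :=
  ⟨(a (b (b (b (a (a (c (l 16429472) (l 16403928)) (c (l 16468528) (l 16418784))) (a (l 16317536) (l 16445776))) (a (a (l 16383880) (l 16437424)) (a (l 16408072) (l 16401504)))) (a (a (a (l 16440568) (l 16454992)) (l 16382352)) (a (l 16432856) (l 16420832)))) (b (a (a (a (l 16392144) (l 16397632)) (a (l 16403112) (l 16387616))) (a (a (l 16372128) (l 16335680)) (a (l 16320240) (l 16262872)))) (b (a (a (c (l 16403568) (l 16467280)) (a (l 16388632) (l 16371816))) (a (c (l 16376816) (l 16380840)) (a (l 16321744) (l 16305312)))) (a (a (a (l 16340560) (l 16343664)) (a (l 16346840) (l 16329136))) (a (a (l 16311536) (l 16294040)) (a (l 16255688) (l 16322464))))))) (b (a (b (a (b (l 16449392) (l 16354448)) (c (l 16453936) (l 16416720))) (a (l 16367112) (l 16348248))) (b (a (c (l 16424960) (l 16417648)) (c (l 16397192) (l 16418336))) (a (l 16259016) (c (l 16361208) (l 16390256))))) (a (b (a (a (l 16247616) (l 16232584)) (a (l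 16217920) (l 16182672))) (a (c (a (l 16339072) (l 16281088)) (a (l 16257760) (l 16241984))) (c (b (l 16280072) (l 16235672)) (a (l 16226648) (l 16211624))))) (b (a (a (l 16168776) (l 16155256)) (c (l 16184016) (l 16320544))) (a (c (b (l 16251768) (l 16206760)) (a (l 16217880) (l 16203376))) (c (b (l 16225840) (l 16180424)) (b (l 16249160) (l 16196960)))))))), by decide +kernel⟩

theorem s21_pm_022 : ∃ t, chk3 f_pm_022 t 3 3 3 = true := ex3_b k19_pm_022 k20_pm_022

theorem s22_pm_022 : ∃ t, chk3 f_pm_022 t 7 2 3 = true := ex3_a k17_pm_022 k18_pm_022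

theorem s23_pm_022 : ∃ t, chk3 f_pm_022 t 3 2 3 = true := ex3_a k16_pm_022 s22_pm_022

theorem s24_pm_022 : ∃ t, chk3 f_pm_022 t 3 1 3 = true := ex3_b s23_pm_022 s21_pm_022

theorem s25_pm_022 : ∃ t, chk3 f_pm_022 t 3 1 5 = true := ex3_b k14_pm_022 k15_pm_022

theorem s26_pm_022 : ∃ t, chk3 f_pm_022 t 3 3 4 = true := ex3_b k12_pm_022 k13_pm_022

theorem s27_pm_022 : ∃ t, chk3 f_pm_022 t 7 2 4 = true := ex3_a k10_pm_022 k11_pm_022

theorem s28_pm_022 : ∃ t, chk3 f_pm_022 t 3 2 4 = true := ex3_a k9_pm_022 s27_pm_022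

theorem s29_pm_022 : ∃ t, chk3 f_pm_022 t 3 1 4 = true := ex3_b s28_pm_022 s26_pm_022

theorem s30_pm_022 : ∃ t, chk3 f_pm_022 t 3 1 2 = true := ex3_c s29_pm_022 s25_pm_022

theorem s31_pm_022 : ∃ t, chk3 f_pm_022 t 3 1 1 = true := ex3_c s30_pm_022 s24_pm_022

theorem s32_pm_022 : ∃ t, chk3 f_pm_022 t 5 7 1 = true := ex3_a k7_pm_022 k8_pm_022

theorem s33_pm_022 : ∃ t, chk3 f_pm_022 t 5 6 1 = true := ex3_a k5_pm_022 k6_pm_022

theorem s34_pm_022 : ∃ t, chk3 f_pm_022 t 5 3 1 = true := ex3_b s33_pm_022 s32_pm_022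

theorem s35_pm_022 : ∃ t, chk3 f_pm_022 t 5 2 3 = true := ex3_b k3_pm_022 k4_pm_022

theorem s36_pm_022 : ∃ t, chk3 f_pm_022 t 5 2 1 = true := ex3_c k2_pm_022 s35_pm_022

theorem s37_pm_022 : ∃ t, chk3 f_pm_022 t 5 1 1 = true := ex3_b s36_pm_022 s34_pm_022

theorem s38_pm_022 : ∃ t, chk3 f_pm_022 t 4 1 1 = true := ex3_b k0_pm_022 k1_pm_022

theorem s39_pm_022 : ∃ t, chk3 f_pm_022 t 2 1 1 = true := ex3_a s38_pm_022 s37_pm_022

theorem s40_pm_022 : ∃ t, chk3 f_pm_022 t 1 1 1 = true := ex3_a s39_pm_022 s31_pm_022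

theorem c_pm_022 : CertB 0 536870912 0 536870912 858993459 64424510 3 eng mog cd0q0 cd0q2 pd2 true true false .pp 0 2 2
    ndB0q0 ndB0q2 pcB2 cut_pm_022 Ext.none :=
  certB2 (fam := true) (s1 := true) (s2 := false) (a := 0) (b := 2) (c := 2) (cn := .pp) (n1 := ndB0q0) (n2 := ndB0q2) (pc := pcB2) (cut := cut_pm_022) (xt := Ext.none) (P1 := 0) (W1 := 536870912) (P2 := 0) (W2 := 536870912) (P3 := 858993459) (W3 := 64424510) (N0 := 3) (En := eng) (mo := mog) (C1 := cd0q0) (C2 := cd0q2) (C3 := pd2)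
    rfl (fun _ => rfl) s40_pm_022

noncomputable def cut_pm_023 : Cut := Cut.of [[⟨3, 0, 0, 1449551462⟩], [⟨4, 0, 0, 2845415833⟩]]

noncomputable def f_pm_023 : ℕ → ℕ → ℕ → ℕ → Bool := onCell 1610612736 536870912 0 536870912 858993459 64424510
    (rowB 3 eng mog cd0q0 cd0q2 pd3 2 true true false .up 0 2 3 (qsf 0 536870912 0 536870912 3) ndB0q0 ndB0q2 pcB3 cut_pm_023 Ext.none)

def k0_pm_023 : ∃ t, chk3 f_pm_023 t 4 4 1 = true :=
  ⟨(a (c (a (b (a (c (l 16453976) (l 16478096)) (c (l 16485984) (l 16508120))) (c (b (a (l 16400088) (l 16434672)) (a (l 16366632) (l 16402720))) (a (l 16457416) (l 16469336)))) (a (b (c (l 16516720) (l 16536624)) (c (l 16494848) (l 16479632))) (b (c (l 16546296) (l 16563696)) (c (l 16506720) (l 16488376))))) (a (a (b (b (l 16617960) (l 16591264)) (c (l 16430920) (a (l 16485456) (l 16499224)))) (b (c (l 16533408) (l 16624480)) (c (l 16460840) (b (l 16528280) (l 16508752))))) (a (b (b (l 16646576) (l 16621920)) (b (l 16599168) (l 16599064))) (b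 (b (l 16605688) (l 16581880)) (c (l 16535768) (b (l 16573408) (l 16554768))))))) (a (c (b (a (c (l 16574504) (l 16589232)) (b (l 14) (l 16593056))) (b (a (l 16539808) (l 16567080)) (a (l 16513704) (l 16541912)))) (b (a (c (l 16626712) (l 16623552)) (a (l 16628832) (l 16637840))) (a (c (l 16559824) (l 16583816)) (c (l 16581928) (l 16601224))))) (a (a (b (c (l 16666536) (l 16646432)) (c (l 16574016) (l 16605200))) (b (l 14) (c (l 16591472) (l 16613704)))) (b (l 14) (c (b (l 16615136) (l 16591496)) (b (l 16635008) (l 16615792))))))), by decide +kernel⟩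

def k1_pm_023 : ∃ t, chk3 f_pm_023 t 4 5 1 = true :=
  ⟨(a (b (a (b (c (c (a (l 16334720) (l 16372080)) (l 16432136)) (c (a (l 16415872) (l 16447056)) (a (l 16463680) (l 16490832)))) (c (b (c (l 16330808) (l 16370408)) (a (c (l 16304160) (l 16345520)) (c (l 16336632) (l 16376120)))) (b (a (l 16487248) (l 16474928)) (a (c (l 16392448) (l 16428704)) (c (l 16420712) (l 16448760)))))) (c (c (a (b (l 16408192) (l 16379768)) (l 16429400)) (b (l 16477040) (l 16473384))) (a (c (l 16444952) (b (l 16515416) (l 16498704))) (c (l 16493120) (b (l 16537456) (l 16520784)))))) (c (a (c (b (a (l 16331528) (l 16354544)) (l 16384432)) (b (a (l 16364552) (l 16387744)) (l 16405032))) (a (b (c (l 16399968) (l 16411624)) (l 16423456)) (b (b (l 16456512) (l 16422120)) (l 16441880)))) (a (a (b (c (l 16402384) (l 16444704)) (l 16432560)) (b (b (l 16548904) (l 16447416)) (l 16452368))) (b (c (a (l 16448432) (l 16449184)) (b (a (l 16489120) (l 16508712)) (l 16516928))) (c (l 16466368) (l 16492296))))))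 (c (b (a (b (a (l 16487952) (l 16516888)) (a (l 16462424) (l 16491648))) (b (a (l 16543304) (l 16567080)) (a (l 16518120) (l 16541728)))) (a (b (b (a (l 16443352) (l 16472528)) (a (l 16442960) (l 16464584))) (c (l 16457912) (l 16476760))) (b (a (b (l 16498896) (l 16486624)) (l 16515232)) (c (a (l 16479904) (l 16492984)) (l 16505264))))) (b (b (a (a (l 16542504) (l 16562648)) (a (l 16580800) (l 16597032))) (a (a (l 16523880) (l 16543960)) (a (l 16561920) (l 16577800)))) (a (b (a (b (l 16509536) (l 16504880)) (b (l 16529584) (l 16521408))) (c (l 16497840) (l 16520248))) (b (a (b (l 16547152) (l 16537016)) (l 16557376)) (b (a (l 16530400) (l 16542440)) (l 16487616))))))), by decide +kernel⟩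

def k2_pm_023 : ∃ t, chk3 f_pm_023 t 4 3 1 = true :=
  ⟨(b (a (b (c (a (b (c (l 16422464) (l 16431400)) (l 16453416)) (c (b (l 16453264) (l 16473272)) (l 16468776))) (a (b (l 16449488) (l 16453912)) (b (l 16478608) (l 16474768)))) (c (a (b (l 16468576) (c (l 16427144) (l 16430768))) (b (l 16468704) (c (l 16416344) (l 16414720)))) (a (b (l 16454112) (l 16443720)) (b (l 16464872) (l 16419032))))) (b (c (a (b (l 16481448) (l 16484040)) (b (l 16498656) (l 16488272))) (a (b (l 16501224) (l 16487976)) (c (l 16586960) (b (l 16515376) (l 16476784))))) (a (b (c (l 16458208) (l 16450048)) (c (c (l 16409960) (l 16403752)) (l 16399584))) (b (c (l 16451056) (l 16436696)) (l 2))))) (a (a (c (b (b (c (l 16445648) (l 16367792)) (b (c (l 16311512) (l 16318144)) (l 16283856))) (b (b (l 16315192) (c (l 16221920) (l 16217104))) (a (b (l 16187016) (a (l 16152264) (l 16148424))) (b (l 16180128) (l 2))))) (a (b (b (l 16396392) (l 16206848)) (b (l 16315656) (b (l 16184000) (l 16134264)))) (b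 (b (l 16382432) (l 16203416)) (b (l 16280416) (l 315779735751))))) (b (b (c (b (l 16411224) (l 16378760)) (c (l 16358920) (l 16370576))) (c (b (c (l 16305216) (l 16304520)) (l 16273368)) (b (l 58618815047) (l 16281784)))) (a (b (c (l 288399420711) (l 16246536)) (l 2)) (l 2)))) (b (b (a (c (a (l 16369312) (l 2)) (l 377520191767)) (l 2)) (l 2)) (l 2)))), by decide +kernel⟩

def k3_pm_023 : ∃ t, chk3 f_pm_023 t 5 1 1 = true :=
  ⟨(b (b (b (l 14) (a (a (a (c (b (l 16635608) (l 16612416)) (b (l 16649672) (l 16630472))) (b (l 14) (c (l 16630880) (l 16643440)))) (l 2)) (l 2))) (a (a (a (b (c (l 16596288) (c (l 16595864) (l 16606584))) (b (c (l 16535344) (l 16570024)) (b (c (l 16515784) (l 16552432)) (l 2)))) (a (b (c (l 16610384) (l 16611032)) (l 2)) (l 2))) (l 2)) (l 2))) (b (l 2) (l 2))), by decide +kernel⟩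

def k4_pm_023 : ∃ t, chk3 f_pm_023 t 3 1 1 = true :=
  ⟨(l 2), by decide +kernel⟩

theorem s5_pm_023 : ∃ t, chk3 f_pm_023 t 4 2 1 = true := ex3_b k0_pm_023 k1_pm_023

theorem s6_pm_023 : ∃ t, chk3 f_pm_023 t 4 1 1 = true := ex3_b s5_pm_023 k2_pm_023

theorem s7_pm_023 : ∃ t, chk3 f_pm_023 t 2 1 1 = true := ex3_a s6_pm_023 k3_pm_023

theorem s8_pm_023 : ∃ t, chk3 f_pm_023 t 1 1 1 = true := ex3_a s7_pm_023 k4_pm_023

theorem c_pm_023 : CertB 0 536870912 0 536870912 858993459 64424510 3 eng mog cd0q0 cd0q2 pd3 true true false .up 0 2 3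
    ndB0q0 ndB0q2 pcB3 cut_pm_023 Ext.none :=
  certB2 (fam := true) (s1 := true) (s2 := false) (a := 0) (b := 2) (c := 3) (cn := .up) (n1 := ndB0q0) (n2 := ndB0q2) (pc := pcB3) (cut := cut_pm_023) (xt := Ext.none) (P1 := 0) (W1 := 536870912) (P2 := 0) (W2 := 536870912) (P3 := 858993459) (W3 := 64424510) (N0 := 3) (En := eng) (mo := mog) (C1 := cd0q0) (C2 := cd0q2) (C3 := pd3)
    rfl (fun _ => rfl) s8_pm_023

noncomputable def cut_pm_101 : Cut := Cut.of [[⟨3, 0, 0, 1449551462⟩], [⟨4, 0, 0, 2845415833⟩], [⟨0, 1, 0, 67108864⟩, ⟨1, 0, 0, 67108864⟩, ⟨2, 1, 0, 67108864⟩]]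

noncomputable def f_pm_101 : ℕ → ℕ → ℕ → ℕ → Bool := onCell 536870912 536870912 536870912 536870912 858993459 64424510
    (rowB 3 eng mog cd0q1 cd0q0 pd1 1 true true false .npn 1 0 1 (qsf 536870912 536870912 0 536870912 1) ndB0q1 ndB0q0 pcB1 cut_pm_101 Ext.none)

def k0_pm_101 : ∃ t, chk3 f_pm_101 t 1 1 1 = true :=
  ⟨(l 6), by decide +kernel⟩

theorem c_pm_101 : CertB 536870912 536870912 0 536870912 858993459 64424510 3 eng mog cd0q1 cd0q0 pd1 true true false .npn 1 0 1
    ndB0q1 ndB0q0 pcB1 cut_pm_101 Ext.none :=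
  certB1 (fam := true) (s1 := true) (s2 := false) (a := 1) (b := 0) (c := 1) (cn := .npn) (n1 := ndB0q1) (n2 := ndB0q0) (pc := pcB1) (cut := cut_pm_101) (xt := Ext.none) (P1 := 536870912) (W1 := 536870912) (P2 := 0) (W2 := 536870912) (P3 := 858993459) (W3 := 64424510) (N0 := 3) (En := eng) (mo := mog) (C1 := cd0q1) (C2 := cd0q0) (C3 := pd1)
    rfl (fun _ => rfl) k0_pm_101

noncomputable def cut_pm_102 : Cut := Cut.of [[⟨3, 0, 0, 1449551462⟩], [⟨4, 0, 0, 2845415833⟩], [⟨0, 1, 0, 67108864⟩, ⟨1, 0, 0, 67108864⟩, ⟨2, 1, 0, 67108864⟩]]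

noncomputable def f_pm_102 : ℕ → ℕ → ℕ → ℕ → Bool := onCell 536870912 536870912 0 536870912 858993459 64424510
    (rowB 3 eng mog cd0q1 cd0q0 pd2 0 true true false .npp 1 0 2 (qsf 536870912 536870912 0 536870912 2) ndB0q1 ndB0q0 pcB2 cut_pm_102 Ext.none)

def k0_pm_102 : ∃ t, chk3 f_pm_102 t 2 1 1 = true :=
  ⟨(l 6), by decide +kernel⟩

def k1_pm_102 : ∃ t, chk3 f_pm_102 t 3 2 1 = true :=
  ⟨(a (l 6) (b (l 6) (a (l 6) (b (l 6) (a (l 6) (a (l 6) (b (l 6) (a (b (l 6) (c (c (l 16433392) (l 16438472)) (l 16449952))) (c (c (b (b (l 16437080) (l 16426712)) (l 16411360)) (b (l 16437552) (l 16417496))) (b (c (l 16445280) (l 16455088)) (l 16410104))))))))))), by decide +kernel⟩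

def k2_pm_102 : ∃ t, chk3 f_pm_102 t 6 3 1 = true :=
  ⟨(b (l 6) (a (l 6) (a (b (l 6) (b (l 6) (a (a (l 6) (b (l 6) (l 16523456))) (c (b (l 16480448) (l 16465256)) (b (l 16470776) (l 16452400)))))) (b (b (l 6) (b (l 6) (a (l 6) (c (l 16473240) (l 16462656))))) (c (b (a (b (l 16485280) (l 16467144)) (b (l 16454264) (l 16436736))) (a (b (l 16450688) (l 16436056)) (b (l 16420880) (l 16406816)))) (b (a (b (l 16476120) (l 16457344)) (b (l 16443592) (l 16425304))) (c (l 16501424) (l 16495048)))))))), by decide +kernel⟩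

def k3_pm_102 : ∃ t, chk3 f_pm_102 t 7 6 1 = true :=
  ⟨(a (b (l 6) (a (l 6) (b (a (l 6) (a (l 6) (c (l 16505360) (l 16459784)))) (c (a (c (l 16468616) (l 16463040)) (c (l 16432088) (l 16428280))) (a (b (l 16466992) (l 16445560)) (c (l 16425880) (l 16424896))))))) (b (a (a (a (l 6) (a (l 6) (b (l 6) (c (l 16504952) (l 16465768))))) (b (a (l 6) (b (l 6) (c (l 16458552) (l 16466184)))) (c (c (b (l 16447296) (l 16426416)) (l 16459368)) (c (l 16441744) (l 16446912))))) (c (b (b (a (c (l 16445712) (l 16449504)) (c (a (l 16412824) (l 16391208)) (l 16407856))) (a (c (l 16424912) (l 16428832)) (c (a (l 16392616) (l 16371408)) (l 16388088)))) (a (c (c (l 16435712) (l 16395168)) (b (l 16408448) (l 16388328))) (c (b (a (l 16372752) (l 16351960)) (a (l 16353240) (l 16332856))) (b (l 16368576) (l 16349304))))) (c (b (a (b (l 16455160) (l 16434856)) (b (l 16416240) (l 16396968))) (a (l 16383880) (b (l 16377864) (l 16358928)))) (b (a (l 16431904) (b (l 16427064) (l 16408552))) (a (l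 16413752) (l 16381016)))))) (a (c (b (a (c (l 16457032) (l 16434856)) (c (c (l 16395776) (l 16395896)) (l 16397120))) (a (c (l 16394992) (l 16393456)) (c (l 16398152) (l 16357200)))) (b (a (c (l 16435240) (l 16437232)) (c (l 16400736) (l 16406616))) (a (c (l 16393968) (l 16396552)) (c (l 16360976) (l 16367552))))) (c (b (a (c (b (l 16364568) (l 16345152)) (l 16358712)) (a (c (l 16345624) (l 16330288)) (c (a (l 16309816) (l 16321016)) (l 16311760)))) (a (c (b (l 16326128) (l 16307672)) (l 16320312)) (c (b (l 16308176) (l 16269600)) (b (l 16293104) (l 16275136))))) (b (a (c (l 16365552) (l 16375376)) (b (l 16283544) (l 16286160))) (c (a (l 16327344) (l 16294296)) (a (l 16337976) (l 16308952)))))))), by decide +kernel⟩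

def k4_pm_102 : ∃ t, chk3 f_pm_102 t 14 7 1 = true :=
  ⟨(a (b (b (b (a (l 6) (c (l 16469112) (l 16457024))) (c (a (l 16502968) (l 16448192)) (a (l 16469512) (l 16436528)))) (c (a (c (l 16517632) (l 16468944)) (b (l 16428000) (l 16408960))) (a (b (l 16449288) (l 16429896)) (b (l 16416872) (l 16398024))))) (b (c (a (b (l 16423096) (l 16406200)) (b (l 16391280) (l 16375032))) (a (b (l 16411336) (l 16393520)) (l 16413208))) (c (a (b (l 16390960) (l 16377488)) (l 16437840)) (a (l 16388600) (l 16337400))))) (a (b (c (b (c (l 16426904) (l 16421128)) (c (l 16388272) (l 16382272))) (b (l 16477808) (l 16418648))) (c (b (l 16413864) (l 16323240)) (b (l 16341592) (l 16308624)))) (b (c (b (c (l 16391816) (l 16387728)) (c (l 16354704) (l 16350200))) (b (l 16364192) (l 16369104))) (c (b (c (l 16322696) (l 16316960)) (l 16335024)) (b (l 16314008) (l 16281896)))))), by decide +kernel⟩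

def k5_pm_102 : ∃ t, chk3 f_pm_102 t 15 7 1 = true :=
  ⟨(b (a (c (b (a (c (l 16356232) (l 16354288)) (c (l 16319024) (l 16319464))) (a (c (l 16320688) (l 16318120)) (c (l 16285128) (l 16284680)))) (b (a (l 16335328) (c (l 16323336) (l 16330664))) (c (a (l 16318824) (l 16288408)) (l 16288808)))) (c (b (a (c (b (l 16289912) (l 16272888)) (l 16284048)) (b (c (l 16252704) (l 16257776)) (c (l 16236568) (l 16241064)))) (a (c (b (l 16256696) (l 16241768)) (l 16250696)) (c (b (l 16221280) (l 16207272)) (b (l 16225040) (l 16210008))))) (b (c (a (l 16291096) (l 16259464)) (a (l 16302480) (l 16274872))) (c (a (l 16257392) (l 16227000)) (a (l 16269272) (l 16242800)))))) (a (c (b (a (c (l 16290296) (l 16286192)) (c (l 16256416) (l 16254088))) (c (a (l 16266976) (l 16234712)) (a (l 16259560) (l 16228688)))) (b (c (l 16313296) (l 16276984)) (c (l 16242056) (l 16244608)))) (a (c (b (c (b (l 16228352) (l 16216488)) (l 16221456)) (c (b (l 16206400) (l 16198128)) (l 16197312))) (b (c (l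 16226624) (l 16237768)) (l 16264648))) (c (b (c (b (l 16194768) (l 16183824)) (b (l 16196120) (l 16183384))) (c (b (l 16174632) (l 16167208)) (l 16166744))) (b (c (l 16197288) (l 16212136)) (c (l 16170232) (l 16181336))))))), by decide +kernel⟩

theorem s6_pm_102 : ∃ t, chk3 f_pm_102 t 7 7 1 = true := ex3_a k4_pm_102 k5_pm_102

theorem s7_pm_102 : ∃ t, chk3 f_pm_102 t 7 3 1 = true := ex3_b k3_pm_102 s6_pm_102

theorem s8_pm_102 : ∃ t, chk3 f_pm_102 t 3 3 1 = true := ex3_a k2_pm_102 s7_pm_102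

theorem s9_pm_102 : ∃ t, chk3 f_pm_102 t 3 1 1 = true := ex3_b k1_pm_102 s8_pm_102

theorem s10_pm_102 : ∃ t, chk3 f_pm_102 t 1 1 1 = true := ex3_a k0_pm_102 s9_pm_102

theorem c_pm_102 : CertB 536870912 536870912 0 536870912 858993459 64424510 3 eng mog cd0q1 cd0q0 pd2 true true false .npp 1 0 2
    ndB0q1 ndB0q0 pcB2 cut_pm_102 Ext.none :=
  certB0 (fam := true) (s1 := true) (s2 := false) (a := 1) (b := 0) (c := 2) (cn := .npp) (n1 := ndB0q1) (n2 := ndB0q0) (pc := pcB2) (cut := cut_pm_102) (xt := Ext.none) (P1 := 536870912) (W1 := 536870912) (P2 := 0) (W2 := 536870912) (P3 := 858993459) (W3 := 64424510) (N0 := 3) (En := eng) (mo := mog) (C1 := cd0q1) (C2 := cd0q0) (C3 := pd2)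
    rfl s10_pm_102

noncomputable def cut_pm_112 : Cut := Cut.of [[⟨3, 0, 0, 1449551462⟩], [⟨4, 0, 0, 2845415833⟩]]

noncomputable def f_pm_112 : ℕ → ℕ → ℕ → ℕ → Bool := onCell 536870912 536870912 536870912 536870912 858993459 64424510
    (rowB 3 eng mog cd0q1 cd0q1 pd2 0 true true false .dn 1 1 2 (qsf 536870912 536870912 536870912 536870912 2) ndB0q1 ndB0q1 pcB2 cut_pm_112 Ext.none)

def k0_pm_112 : ∃ t, chk3 f_pm_112 t 2 2 1 = true :=
  ⟨(b (a (l 6) (a (l 6) (b (l 6) (b (a (l 6) (c (l 16568608) (l 16539912))) (a (c (l 16590320) (l 16549832)) (c (l 16541096) (l 16502880))))))) (a (b (l 6) (a (l 6) (a (b (l 6) (c (l 16568608) (l 16539912))) (b (c (l 16590320) (l 16549832)) (c (l 16541096) (l 16502880)))))) (b (b (a (a (l 6) (c (l 16603088) (l 16553912))) (a (c (l 16562288) (l 16511600)) (c (l 16515704) (l 16467256)))) (a (a (c (l 16603088) (l 16553912)) (c (l 16571168) (l 16513976))) (a (c (l 16533432) (l 16474352)) (l 16483504)))) (b (a (a (c (l 16562288) (l 16511600))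 (c (l 16533432) (l 16474352))) (a (l 16511472) (l 16473456))) (a (a (c (l 16515704) (l 16467256)) (l 16483504)) (a (l 16473456) (l 16398712))))))), by decide +kernel⟩

def k1_pm_112 : ∃ t, chk3 f_pm_112 t 2 6 1 = true :=
  ⟨(b (b (a (a (a (l 6) (c (l 16563400) (l 16565368))) (a (c (l 16514800) (l 16487000)) (c (l 16489432) (l 16452392)))) (a (a (c (l 16466768) (l 16419632)) (l 16480848)) (a (l 16538504) (l 16365144)))) (a (c (a (a (b (l 16529536) (a (l 16508592) (l 16494064))) (l 16486896)) (a (l 16460944) (l 16437672))) (a (a (b (l 16517064) (l 16528664)) (l 16465536)) (a (l 16431296) (l 16399232)))) (a (a (c (l 16417736) (l 16369552)) (c (l 16400056) (l 16342592))) (a (c (l 16382704) (l 16318648)) (l 84388831255))))) (a (a (b (a (c (b (a (l 16480048) (l 16466112)) (l 16465600)) (b (l 16498176) (l 16425680))) (c (b (l 16446024) (l 16418832)) (b (l 16421400) (l 16391800)))) (a (c (b (l 16416248) (l 16387864)) (b (l 16395136) (l 16364696))) (c (b (l 16391624) (l 16364440))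 (b (l 16362208) (l 16332704))))) (a (b (c (b (l 16421312) (l 16395200)) (b (l 16388800) (l 16360232))) (c (b (l 16369280) (l 16343416)) (b (l 16331696) (l 16303224)))) (b (b (l 16380200) (a (l 16380992) (l 16348568))) (c (b (l 16349696) (l 16325344)) (b (l 16304072) (l 16276824)))))) (a (a (b (c (l 16369536) (l 16318456)) (c (b (a (l 16337448) (l 16330840)) (a (l 16314248) (l 16308296))) (b (l 16279968) (l 16296184)))) (b (c (l 16355752) (l 16295544)) (b (l 87073012903) (l 2)))) (a (b (c (l 16344616) (l 16276800)) (l 2)) (l 2))))), by decide +kernel⟩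

def k2_pm_112 : ∃ t, chk3 f_pm_112 t 2 7 1 = true :=
  ⟨(a (b (b (a (c (a (b (l 16359408) (l 16330384)) (b (l 16337216) (l 16309464))) (a (b (l 16334488) (l 16305120)) (b (l 16303400) (l 16274904)))) (c (a (b (l 16317560) (l 16291208)) (b (l 16301064) (l 16276336))) (a (b (l 16274920) (l 16247368)) (b (l 16249704) (l 16223288))))) (a (a (c (b (l 16300904) (l 16272016)) (b (l 16277168) (l 16251240))) (c (b (l 16281288) (l 16253736)) (b (l 16247776) (l 16222616)))) (c (a (b (l 16264472) (l 16238408)) (b (l 16251272) (l 2))) (a (b (l 16221136) (l 16196792)) (l 120358881623))))) (a (a (b (c (c (b (l 16249568) (l 16218840)) (l 16222520)) (b (l 16226080) (l 16199960))) (c (c (b (l 16187936) (a (l 16161072) (l 16155640))) (b (l 16177464) (l 16148080))) (b (l 16173136) (c (l 16145352) (l 16150104))))) (b (c (c (l 16283344) (l 16203656)) (b (l 16198168) (l 16172664))) (b (c (l 140222912599) (l 16146384)) (l 2)))) (a (a (b (b (l 120358795895) (l 2)) (l 2)) (l 2)) (l 2)))) (b (a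 (a (a (b (b (l 77409249255) (l 2)) (l 2)) (l 2)) (l 2)) (l 2)) (l 2))), by decide +kernel⟩

def k3_pm_112 : ∃ t, chk3 f_pm_112 t 6 2 1 = true :=
  ⟨(a (a (b (b (b (l 6) (c (l 16563400) (l 16565368))) (b (c (l 16514800) (l 16487000)) (c (l 16489432) (l 16452392)))) (b (b (c (l 16466768) (l 16419632)) (l 16480848)) (b (l 16538504) (l 16365144)))) (b (c (b (b (a (l 16529536) (b (l 16508592) (l 16494064))) (l 16486896)) (b (l 16460944) (l 16437672))) (b (b (a (l 16517064) (l 16528664)) (l 16465536)) (b (l 16431296) (l 16399232)))) (b (b (c (l 16417736) (l 16369552)) (c (l 16400056) (l 16342592))) (b (c (l 16382704) (l 16318648)) (l 84388831255))))) (b (b (a (b (c (a (b (l 16480048) (l 16466112)) (l 16465600)) (a (l 16498176) (l 16425680))) (c (a (l 16446024) (l 16418832)) (a (l 16421400) (l 16391800)))) (b (c (a (l 16416248) (l 16387864)) (a (l 16395136) (l 16364696))) (c (a (l 16391624) (l 16364440)) (a (l 16362208) (l 16332704))))) (b (a (c (a (l 16421312) (l 16395200))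 (a (l 16388800) (l 16360232))) (c (a (l 16369280) (l 16343416)) (a (l 16331696) (l 16303224)))) (a (a (l 16380200) (b (l 16380992) (l 16348568))) (c (a (l 16349696) (l 16325344)) (a (l 16304072) (l 16276824)))))) (b (b (a (c (l 16369536) (l 16318456)) (c (a (b (l 16337448) (l 16330840)) (b (l 16314248) (l 16308296))) (a (l 16279968) (l 16296184)))) (a (c (l 16355752) (l 16295544)) (a (l 87073012903) (l 2)))) (b (a (c (l 16344616) (l 16276800)) (l 2)) (l 2))))), by decide +kernel⟩

def k4_pm_112 : ∃ t, chk3 f_pm_112 t 7 2 1 = true :=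
  ⟨(b (a (a (b (c (b (a (l 16359408) (l 16330384)) (a (l 16337216) (l 16309464))) (b (a (l 16334488) (l 16305120)) (a (l 16303400) (l 16274904)))) (c (b (a (l 16317560) (l 16291208)) (a (l 16301064) (l 16276336))) (b (a (l 16274920) (l 16247368)) (a (l 16249704) (l 16223288))))) (b (b (c (a (l 16300904) (l 16272016)) (c (l 16269376) (l 16260576))) (c (a (l 16281288) (l 16253736)) (a (l 16247776) (l 16222616)))) (c (b (a (l 16264472) (l 16238408)) (a (l 16251272) (l 2))) (b (a (l 16221136) (l 16196792)) (l 120358881623))))) (b (b (a (c (c (a (l 16249568) (l 16218840)) (l 16222520)) (c (l 16215224) (l 16212240))) (c (c (a (l 16187936) (b (l 16161072) (l 16155640))) (a (l 16177464) (l 16148080))) (c (a (l 16173056) (l 16145352)) (l 16183184)))) (a (a (c (l 16226104) (l 16198168)) (c (l 16218136) (l 16172664))) (a (c (l 140222912599) (l 16146384)) (l 2)))) (a (a (b (c (l 16212296) (l 16173080)) (l 2)) (l 2)) (l 2)))) (a (b (b (a (a (b (l 50565703655) (l 2)) (l 2)) (l 2)) (l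 2)) (l 2)) (l 2))), by decide +kernel⟩

def k5_pm_112 : ∃ t, chk3 f_pm_112 t 3 3 1 = true :=
  ⟨(a (b (a (a (b (b (l 16339328) (l 2)) (l 2)) (l 2)) (l 2)) (l 2)) (l 2)), by decide +kernel⟩

theorem s6_pm_112 : ∃ t, chk3 f_pm_112 t 3 2 1 = true := ex3_a k3_pm_112 k4_pm_112

theorem s7_pm_112 : ∃ t, chk3 f_pm_112 t 3 1 1 = true := ex3_b s6_pm_112 k5_pm_112

theorem s8_pm_112 : ∃ t, chk3 f_pm_112 t 2 3 1 = true := ex3_b k1_pm_112 k2_pm_112

theorem s9_pm_112 : ∃ t, chk3 f_pm_112 t 2 1 1 = true := ex3_b k0_pm_112 s8_pm_112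

theorem s10_pm_112 : ∃ t, chk3 f_pm_112 t 1 1 1 = true := ex3_a s9_pm_112 s7_pm_112

theorem c_pm_112 : CertB 536870912 536870912 536870912 536870912 858993459 64424510 3 eng mog cd0q1 cd0q1 pd2 true true false .dn 1 1 2
    ndB0q1 ndB0q1 pcB2 cut_pm_112 Ext.none :=
  certB0 (fam := true) (s1 := true) (s2 := false) (a := 1) (b := 1) (c := 2) (cn := .dn) (n1 := ndB0q1) (n2 := ndB0q1) (pc := pcB2) (cut := cut_pm_112) (xt := Ext.none) (P1 := 536870912) (W1 := 536870912) (P2 := 536870912) (W2 := 536870912) (P3 := 858993459) (W3 := 64424510) (N0 := 3) (En := eng) (mo := mog) (C1 := cd0q1) (C2 := cd0q1) (C3 := pd2)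
    rfl s10_pm_112

end Pool.Agent.Strip051.G.I8000_8600.Tab.C.BA00

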