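import Pool.Agent.Strip051.G.I8000_8600.Tab

/-! # Certificates B4 (generated) -/

set_option linter.all false
set_option maxRecDepth 100000

namespace Pool.Agent.Strip051.G.I8000_8600.Tab.C.BA01

open Pool.Agent.Strip051.PB Pool.Agent.Strip051.PB.T
open Pool.Agent.Strip051.G.I8000_8600.Tab

noncomputable def f_pm_012 : ℕ → ℕ → ℕ → ℕ → Bool := onCell 1073741824 536870912 536870912 536870912 858993459 64424510
    (rowB 3 eng mog cd0q0 cd1q1 pd2 2 true true false .pnp 0 1 2 (qsf 0 536870912 536870912 536870912 2) ndB0q0 ndB1q1 pcB2 Cut.none Ext.none)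

def k0_pm_012 : ∃ t, chk3 f_pm_012 t 4 1 1 = true :=
  ⟨(b (a (l 3) (b (a (l 3) (b (l 2) (l 3))) (l 3))) (l 3)), by decide +kernel⟩

def k1_pm_012 : ∃ t, chk3 f_pm_012 t 5 4 1 = true :=
  ⟨(b (l 2) (b (l 2) (b (l 2) (a (a (a (a (a (l 3) (l 2)) (l 2)) (l 2)) (l 2)) (l 2))))), by decide +kernel⟩

def k2_pm_012 : ∃ t, chk3 f_pm_012 t 40 5 1 = true :=
  ⟨(a (l 3) (b (c (c (b (c (c (a (l 108078101239) (l 74792099879)) (a (l 16424952) (l 16420432))) (a (l 16492592) (l 16488264))) (a (l 3) (c (b (l 16408824) (l 16418520)) (l 16498960)))) (b (l 16520416) (l 16502360))) (c (b (l 182703083703) (l 280950468743)) (b (c (l 16427000) (l 230484536583)) (c (l 236390348887) (l 232632067207))))) (l 3))), by decide +kernel⟩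

def k3_pm_012 : ∃ t, chk3 f_pm_012 t 41 5 1 = true :=
  ⟨(a (b (c (c (c (b (a (b (l 16391080) (l 16396624)) (c (l 16367056) (l 16411648))) (a (b (l 16403288) (l 16412088)) (c (l 16380504) (l 16422872)))) (b (a (l 16484072) (l 16479704)) (a (l 16493352) (l 16487560)))) (b (l 16528328) (l 16426880))) (b (c (l 16425600) (c (l 16444400) (a (l 16347096) (l 16355552)))) (c (a (l 16545800) (l 16552736)) (c (l 16448992) (a (l 16359664) (l 16366920)))))) (b (c (c (c (a (b (l 16422592) (l 16434464)) (b (l 16415488) (l 16426688))) (a (l 16506992) (l 16500008))) (l 188608753543)) (c (a (l 16544832) (l 16551544)) (c (l 240685431207) (a (l 16377960) (l 16384848))))) (a (l 3) (c (c (c (b (l 16438888) (l 16451944)) (l 16516064)) (l 16615360)) (c (l 16550144) (b (l 16435360) (l 16442784))))))) (b (b (b (l 2) (a (c (c (c (l 16387280) (l 16476744)) (l 16607976)) (l 16265424)) (c (c (l 16426944) (l 16604000)) (c (l 16566336) (l 16421944))))) (a (c (c (c (a (l 16397264) (l 16394920)) (l 16482368)) (l 16609312))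 (c (l 16558640) (c (l 16459800) (l 16375040)))) (c (c (c (l 16390544) (l 16476536)) (l 16604456)) (c (l 16564112) (l 16426968))))) (a (c (b (c (c (a (l 16415464) (l 16411912)) (l 16493072)) (l 16590320)) (c (a (b (l 16532008) (l 16542496)) (b (l 16491424) (l 16538408))) (l 16593600))) (c (b (l 16557216) (l 16555488)) (b (c (l 16467336) (l 16391824)) (b (l 16441720) (l 16448872))))) (c (b (c (c (l 16406672) (l 16486224)) (l 16605432)) (c (c (l 16429192) (l 16500392)) (l 16607792))) (b (c (l 16562176) (l 16438184)) (c (l 16560040) (l 16451992))))))), by decide +kernel⟩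

def k4_pm_012 : ∃ t, chk3 f_pm_012 t 21 5 1 = true :=
  ⟨(b (b (a (c (c (c (l 16410528) (l 16458560)) (l 16593552)) (c (l 16582280) (l 16422408))) (l 2)) (c (c (a (c (b (l 16374568) (l 16379528)) (l 16462784)) (c (l 16356880) (l 16442232))) (a (l 16592344) (l 16573304))) (c (l 16462208) (a (l 16426888) (l 16481736))))) (c (c (b (a (c (b (l 16385968) (l 16394280)) (l 16469744)) (c (l 16366376) (l 16445960))) (a (c (b (l 16404328) (l 16415576)) (l 16481808)) (c (l 16380624) (l 16452800)))) (b (a (l 16590856) (l 16568600)) (c (l 16541120) (l 16613504)))) (b (c (l 16457504) (a (l 16435904) (l 16487616))) (c (l 16411120) (a (l 16448008) (l 16495232)))))), by decide +kernel⟩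

def k5_pm_012 : ∃ t, chk3 f_pm_012 t 11 5 1 = true :=
  ⟨(a (b (b (l 2) (a (c (c (l 16359888) (l 16555056)) (l 16494328)) (l 2))) (c (b (c (c (a (l 16344144) (l 16324776)) (l 16413216)) (l 16536832)) (c (c (a (l 16354144) (l 16331312)) (l 16394048)) (l 16486008))) (b (c (l 16617264) (l 16511720)) (c (l 16607688) (l 16534560))))) (b (l 2) (b (c (c (l 16379264) (l 16498640)) (l 16610856)) (c (c (a (l 16345104) (l 16326024)) (l 16483912)) (l 16511680))))), by decide +kernel⟩

def k6_pm_012 : ∃ t, chk3 f_pm_012 t 20 3 1 = true :=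
  ⟨(a (l 3) (b (b (a (a (l 3) (b (a (l 3) (b (b (c (l 16305984) (l 16504256)) (l 3)) (l 3))) (l 3))) (a (c (c (c (b (a (l 16465088) (l 16460776)) (a (l 16491208) (l 16486712))) (b (l 16440864) (l 78013531111))) (b (l 16591336) (l 16583200))) (c (b (l 16490176) (l 16487264)) (b (b (l 16455808) (l 16462376)) (l 185924364535)))) (c (c (b (c (l 16454464) (l 16516472)) (c (l 16480184) (l 16532800))) (b (l 16610792) (l 16605224))) (b (c (l 16557208) (l 16465328)) (c (l 16553816) (l 16477160)))))) (a (l 3) (a (a (l 3) (b (b (c (l 16386200) (l 16517304)) (l 3)) (l 3))) (b (c (b (l 16379608) (l 16406352)) (c (l 16550176) (l 16487992))) (b (b (l 168744488295) (l 16420976)) (b (l 16439824) (l 16458624))))))) (a (l 3) (b (a (l 3) (b (b (b (l 16477368) (l 16496056)) (b (l 16514672) (l 16533208))) (b (a (l 3) (l 16529624)) (l 16547464)))) (a (b (l 3) (a (b (l 3) (c (c (b (l 3) (c (l 161228471975) (l 16492256))) (l 16486920)) (l 16513624))) (c (b (b (l 16499496) (l 181629509063)) (a (b (l 16483480) (c (l 16488264)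 (l 16504592))) (b (l 16504616) (l 16488320)))) (b (l 16533512) (l 16513768))))) (c (b (b (l 16544712) (l 16510720)) (b (c (l 16513816) (l 16520648)) (b (l 16483952) (c (l 16488752) (l 16504920))))) (b (l 161228456839) (b (l 16534040) (l 16534896))))))))), by decide +kernel⟩

def k7_pm_012 : ∃ t, chk3 f_pm_012 t 21 3 1 = true :=
  ⟨(c (a (b (b (c (b (b (l 16543456) (l 16532528)) (b (l 16542552) (l 16552696))) (b (l 16591944) (l 16593456))) (b (c (c (l 16483720) (l 16526936)) (l 16594648)) (b (l 16368440) (l 16415832)))) (b (b (b (l 16505328) (l 16553144)) (b (l 16566896) (l 16556296))) (b (b (l 16544776) (l 16531936)) (b (l 16449560) (b (l 16442912) (c (l 16489992) (l 16505760))))))) (b (b (b (c (c (l 16401568) (l 16464536)) (l 16562424)) (c (l 16556064) (l 16561248))) (b (c (l 16302472) (l 16560328)) (c (l 16468848) (l 16559544)))) (b (b (a (l 16459224) (l 16524648)) (l 16482248)) (b (b (l 16543712) (l 16531360)) (b (l 16517616) (l 16460464)))))) (b (b (c (b (l 16448320) (l 16463440)) (b (b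 (l 16490040) (l 16494864)) (a (l 16469752) (l 16511664)))) (b (c (l 16457632) (a (l 16499728) (l 16517344))) (b (l 16411624) (l 16453488)))) (b (b (b (l 16495440) (l 16516456)) (c (l 16523440) (l 16445640))) (b (b (l 16536968) (l 16536744)) (b (l 16473312) (a (l 16514304) (l 16517296))))))), by decide +kernel⟩

def k8_pm_012 : ∃ t, chk3 f_pm_012 t 11 3 1 = true :=
  ⟨(a (c (b (b (b (c (a (l 16486688) (l 16374200)) (l 16520456)) (c (c (l 16355496) (l 16430088)) (l 16514776))) (b (c (b (l 16415448) (l 16424144)) (l 16510728)) (c (a (l 16412760) (l 16420576)) (l 16506872)))) (b (b (c (l 16456528) (l 16503904)) (b (l 16486416) (l 16491680))) (b (l 16501000) (b (l 16511656) (l 16500472))))) (b (b (b (c (l 16598384) (l 16537032)) (l 16400472)) (b (l 16457384) (l 16430560))) (b (b (l 16466776) (l 16480840)) (b (l 16502720) (b (l 16472544) (l 16452824)))))) (b (b (c (b (c (a (l 16348496) (l 16326160)) (l 16469880)) (c (b (l 16341648) (l 16347200)) (l 16457720))) (b (l 16519128) (l 16485664))) (c (c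 (b (l 16419424) (l 16371576)) (b (l 16447928) (l 16440392))) (b (l 16516104) (l 16535832)))) (b (b (c (c (l 16387944) (l 16391872)) (l 16512400)) (c (l 16417536) (l 16467728))) (b (b (l 16345056) (l 16421560)) (c (l 16440968) (l 16380640)))))), by decide +kernel⟩

def k9_pm_012 : ∃ t, chk3 f_pm_012 t 3 2 1 = true :=
  ⟨(a (b (l 2) (b (l 2) (b (l 2) (b (l 2) (a (a (c (l 16179776) (l 16642608)) (l 2)) (l 2)))))) (l 2)), by decide +kernel⟩

def k10_pm_012 : ∃ t, chk3 f_pm_012 t 3 3 1 = true :=
  ⟨(b (a (b (b (a (c (a (c (l 16295832) (l 16426104)) (l 52175669207)) (a (l 16562040) (l 16599936))) (l 2)) (b (a (c (a (l 16142168) (l 16333120)) (l 16415392)) (l 2)) (a (c (a (l 16158760) (l 16304872)) (l 16433136)) (c (l 16422264) (l 16473976))))) (a (c (b (a (c (l 16279048) (l 16391544)) (c (l 16252536) (l 16342504))) (a (c (l 16309872) (l 16378448)) (b (l 16289144) (l 16286896)))) (b (a (l 16545968) (l 16496448)) (a (l 16495896) (l 16441040)))) (c (b (a (l 16382096) (l 16224184)) (a (c (l 16209808)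 (l 16275640)) (l 16203440))) (b (a (l 16451032) (l 16409008)) (a (l 16391224) (l 16262280)))))) (b (l 2) (a (b (l 2) (c (l 16327712) (l 16055472))) (l 2)))) (a (b (a (a (c (b (l 16156584) (l 16244824)) (b (l 16445960) (l 16396488))) (c (b (l 16347984) (l 16286440)) (b (l 16385088) (l 16309968)))) (b (c (a (b (l 16233208) (l 16230296)) (l 16187144)) (c (l 16132400) (l 16333872))) (a (c (l 16227992) (l 16271168)) (c (l 16176736) (l 16218080))))) (a (b (a (c (l 16357456) (l 16348728)) (c (l 16291344) (l 16279008))) (c (a (l 16369328) (l 16259400)) (a (l 16198496) (l 16230840)))) (a (b (c (l 16229888) (l 16215032)) (c (l 16237096) (l 16163136))) (b (c (l 16173320) (l 16156864)) (l 16287200))))) (b (b (a (c (a (l 16150864) (l 16122512)) (a (l 16237888) (l 16198320))) (l 2)) (a (c (a (l 16133888) (l 16099520)) (a (l 16170488) (l 16128120))) (c (l 16062008) (l 16073448)))) (b (a (a (b (l 16121792) (l 16105528)) (l 16154008)) (a (l 16054480) (l 16003504))) (a (a (l 16210472) (l 16245504)) (a (l 16014952)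 (l 15959208))))))), by decide +kernel⟩

theorem s11_pm_012 : ∃ t, chk3 f_pm_012 t 3 1 1 = true := ex3_b k9_pm_012 k10_pm_012

theorem s12_pm_012 : ∃ t, chk3 f_pm_012 t 10 3 1 = true := ex3_a k6_pm_012 k7_pm_012

theorem s13_pm_012 : ∃ t, chk3 f_pm_012 t 5 3 1 = true := ex3_a s12_pm_012 k8_pm_012

theorem s14_pm_012 : ∃ t, chk3 f_pm_012 t 20 5 1 = true := ex3_a k2_pm_012 k3_pm_012

theorem s15_pm_012 : ∃ t, chk3 f_pm_012 t 10 5 1 = true := ex3_a s14_pm_012 k4_pm_012

theorem s16_pm_012 : ∃ t, chk3 f_pm_012 t 5 5 1 = true := ex3_a s15_pm_012 k5_pm_012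

theorem s17_pm_012 : ∃ t, chk3 f_pm_012 t 5 2 1 = true := ex3_b k1_pm_012 s16_pm_012

theorem s18_pm_012 : ∃ t, chk3 f_pm_012 t 5 1 1 = true := ex3_b s17_pm_012 s13_pm_012

theorem s19_pm_012 : ∃ t, chk3 f_pm_012 t 2 1 1 = true := ex3_a k0_pm_012 s18_pm_012

theorem s20_pm_012 : ∃ t, chk3 f_pm_012 t 1 1 1 = true := ex3_a s19_pm_012 s11_pm_012

theorem c_pm_012 : CertB 0 536870912 536870912 536870912 858993459 64424510 3 eng mog cd0q0 cd1q1 pd2 true true false .pnp 0 1 2
    ndB0q0 ndB1q1 pcB2 Cut.none Ext.none :=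
  certB2 (fam := true) (s1 := true) (s2 := false) (a := 0) (b := 1) (c := 2) (cn := .pnp) (n1 := ndB0q0) (n2 := ndB1q1) (pc := pcB2) (cut := Cut.none) (xt := Ext.none) (P1 := 0) (W1 := 536870912) (P2 := 536870912) (W2 := 536870912) (P3 := 858993459) (W3 := 64424510) (N0 := 3) (En := eng) (mo := mog) (C1 := cd0q0) (C2 := cd1q1) (C3 := pd2)
    rfl (fun _ => rfl) s20_pm_012

noncomputable def cut_pm_022_a : Cut := Cut.of [[⟨0, 0, 0, 67108864⟩, ⟨1, 1, 0, 67108864⟩, ⟨2, 1, 0, 67108864⟩]]

noncomputable def f_pm_022_a : ℕ → ℕ → ℕ → ℕ → Bool := onCell 1073741824 536870912 0 536870912 858993459 64424510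
    (rowB 3 eng mog cd0q0 cd1q2a pd2 2 true true false .pp 0 2 2 (qsf 0 536870912 0 536870912 2) ndB0q0 ndB1q2a pcB2 cut_pm_022_a Ext.none)

def k0_pm_022_a : ∃ t, chk3 f_pm_022_a t 8 1 1 = true :=
  ⟨(b (l 1) (b (l 1) (a (b (l 1) (l 6)) (a (b (b (l 1) (l 6)) (l 6)) (a (b (b (l 1) (l 6)) (l 6)) (a (b (b (b (l 1) (b (l 1) (l 6))) (l 6)) (l 6)) (a (b (b (b (l 1) (b (b (l 1) (l 6)) (l 6))) (l 6)) (l 6)) (b (b (b (l 1) (c (b (c (b (l 16551552) (l 16558712)) (b (l 16522464) (l 16530464))) (c (l 16569552) (l 16542600))) (b (c (b (l 16490912) (l 16499816)) (b (l 16456904) (l 16466768))) (c (l 16513336) (l 16481768))))) (a (l 6) (b (c (b (l 16561528) (l 16587840)) (b (l 16517800) (l 16536784))) (c (b (l 16603960) (l 16620352)) (b (l 16556768) (l 16577072)))))) (b (b (c (c (l 16653744) (l 16636760)) (b (l 16597728) (l 16618632))) (c (l 16658800) (l 16587624))) (b (c (l 16636152) (l 16651760)) (b (c (l 16641920) (l 16668400)) (c (c (b (l 16662488) (c (l 16656280) (l 16658352))) (l 16654464)) (c (l 16670784)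 (l 16677416)))))))))))))), by decide +kernel⟩

def k1_pm_022_a : ∃ t, chk3 f_pm_022_a t 18 2 1 = true :=
  ⟨(l 1), by decide +kernel⟩

def k2_pm_022_a : ∃ t, chk3 f_pm_022_a t 18 12 1 = true :=
  ⟨(l 1), by decide +kernel⟩

def k3_pm_022_a : ∃ t, chk3 f_pm_022_a t 18 26 1 = true :=
  ⟨(b (b (l 1) (a (l 1) (a (l 1) (a (l 1) (c (c (l 16430912) (l 16392240)) (c (l 16350320) (l 16305160))))))) (a (l 1) (a (a (l 1) (b (l 1) (c (c (l 16453816) (l 16417688)) (c (l 16378568) (l 16336464))))) (c (c (a (b (l 16442040) (l 16455368)) (b (l 16443768) (l 16457008))) (a (b (l 16404656) (l 113849482247)) (b (l 16406032) (l 16420208)))) (c (a (b (l 16364168) (l 16379400)) (b (l 16365096) (l 16380264))) (a (b (l 16320568) (l 16336816)) (b (l 16320968) (l 16337176)))))))), by decide +kernel⟩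

def k4_pm_022_a : ∃ t, chk3 f_pm_022_a t 18 27 1 = true :=
  ⟨(a (a (l 1) (b (a (l 1) (b (l 1) (c (c (l 16479424) (l 16450888)) (c (l 16409088) (l 16369760))))) (c (c (a (b (l 16493304) (a (l 16508448) (l 16508832))) (b (l 42982651943) (l 16509440))) (a (b (c (l 16469032) (l 16452008)) (c (l 16485016) (l 16468440))) (b (c (l 16469832) (l 16452704)) (c (l 16485704) (l 16469032))))) (c (a (b (l 16425224) (a (l 16442240) (l 16442440))) (b (l 49961858711) (l 16442752))) (a (b (l 16387160) (l 59088644807)) (b (l 56404255847) (l 16405336))))))) (c (a (b (c (a (b (l 16466272) (l 62309981303)) (b (l 83784795415) (l 16481832))) (a (b (l 16431344) (c (l 16455336) (l 16437616))) (b (l 89690315671) (l 16447544)))) (c (a (b (l 16495272) (l 16510344)) (b (l 16496400) (l 16511344))) (a (b (l 16462168) (l 16478160)) (b (l 16463056) (l 16478936))))) (b (c (a (b (l 16469080) (l 16483168)) (l 16477616)) (a (b (l 16433568) (l 16448592)) (l 16442256))) (c (b (l 16498248) (l 16513000)) (a (l 16471904) (l 16472840)))))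 (a (a (b (c (b (l 16393544) (l 70899798151)) (b (l 16352864) (l 16370000))) (c (b (l 16426256) (l 16443200)) (b (l 16387536) (l 16405464)))) (b (b (c (l 16394264) (l 16353160)) (c (l 16410352) (l 16370248))) (c (b (l 16426824) (l 16443680)) (l 16396680)))) (b (b (a (a (l 16396112) (l 16374760)) (l 16396144)) (c (l 16411376) (l 16370600))) (c (a (l 16435824) (l 16436384)) (b (l 16387968) (l 16405704))))))), by decide +kernel⟩

def k5_pm_022_a : ∃ t, chk3 f_pm_022_a t 18 56 1 = true :=
  ⟨(a (c (a (a (b (l 1) (c (a (l 16539696) (l 16539808)) (c (l 16517536) (l 16501944)))) (b (c (a (l 16523672) (l 16523928)) (c (l 16500912) (l 16484848))) (c (a (l 16539960) (l 16540136)) (a (l 16504760) (l 16510152))))) (c (a (b (a (l 16524208) (l 16524512)) (l 16540448)) (b (l 16525016) (l 16540968))) (b (a (c (l 16501392) (l 16485264)) (l 16493936)) (a (l 16510400) (l 16510800))))) (b (a (a (l 1) (c (a (l 16459488) (l 16459624)) (a (l 16423536) (l 16423584)))) (c (a (a (l 16459768) (l 16459920)) (l 16460168))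 (a (a (l 16423624) (l 16423664)) (l 16423712)))) (a (a (c (c (l 16485728) (l 16468872)) (a (l 16452896) (l 55330611735))) (c (a (l 16477504) (l 16477592)) (a (l 16442448) (l 16442464)))) (c (a (l 16477744) (l 16477968)) (a (l 16442472) (l 16442472)))))) (c (a (c (a (l 16533712) (l 16534504)) (b (l 16494840) (l 16511512))) (c (l 16535856) (l 16504488))) (a (c (b (l 16460704) (l 16478336)) (b (l 16423784) (l 16442408))) (c (l 16470208) (l 16433016))))), by decide +kernel⟩

def k6_pm_022_a : ∃ t, chk3 f_pm_022_a t 18 57 1 = true :=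
  ⟨(c (a (a (b (a (c (b (l 110091621063) (l 16559000)) (b (a (l 16522680) (l 16522744)) (l 16530680))) (c (l 16555592) (c (l 16534256) (l 16519248)))) (a (c (l 16569776) (l 16537512)) (c (l 16569800) (l 16542776)))) (a (b (c (l 16555864) (l 16527032)) (l 16548848)) (c (l 16563248) (l 16514224)))) (c (a (l 16553432) (l 16565152)) (a (l 16519896) (l 16536400)))) (a (a (a (c (b (b (a (l 16491032) (l 16491072)) (l 16499920)) (l 16509464)) (b (b (a (l 16456896) (l 16456896)) (l 16466728)) (a (l 16481712) (l 16481664)))) (c (b (l 16495560) (l 16513360)) (b (l 16461784) (l 16481568)))) (a (c (b (l 16495656) (l 16513352)) (b (l 16461728) (l 16481416))) (c (l 16504600) (l 16471464)))) (a (b (c (l 16495976) (l 16461416)) (l 16481696)) (c (l 16504872) (l 16470584))))), by decide +kernel⟩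

def k7_pm_022_a : ∃ t, chk3 f_pm_022_a t 18 29 1 = true :=
  ⟨(a (c (b (c (a (b (l 16565952) (l 16599104)) (l 16591624)) (a (a (b (l 16559112) (l 16575776)) (l 16546336)) (l 16556688))) (a (c (a (l 16622128) (l 16621664)) (a (l 16601384) (l 16600936))) (c (l 16621192) (l 16600376)))) (b (a (c (a (b (l 16531632) (l 16550208)) (l 16540752)) (a (b (l 16501928) (l 16522544)) (l 16512008))) (c (l 16519496) (l 16490528))) (c (a (b (l 16568896) (l 16588016)) (l 16577552)) (a (b (l 16543272) (l 16564480)) (l 16552736))))) (c (c (a (b (l 16591960) (l 16620960)) (c (l 16549608) (l 16559456))) (a (b (l 16567216) (l 16599824)) (b (l 16567456) (l 16599448)))) (c (b (a (l 16540104) (l 16539704)) (a (l 16576576) (l 16575512))) (b (a (l 16510624) (l 16509448)) (a (l 16551224) (l 16549336)))))), by decide +kernel⟩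

def k8_pm_022_a : ∃ t, chk3 f_pm_022_a t 18 30 1 = true :=
  ⟨(a (a (c (b (c (l 16611080) (l 16594048)) (c (l 16685088) (l 16650800))) (b (c (l 16617280) (l 16596904)) (c (l 16615104) (l 16598968)))) (b (c (b (l 16582696) (l 16630536)) (a (l 16543128) (l 16542200))) (c (l 16634560) (b (l 16594280) (l 16614976))))) (c (c (b (l 16629584) (l 16599328)) (b (l 16590824) (l 16666632))) (c (b (l 16550144) (l 16619288)) (b (a (l 16592768) (l 16590040)) (c (l 16595800) (l 16586608)))))), by decide +kernel⟩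

def k9_pm_022_a : ∃ t, chk3 f_pm_022_a t 18 31 1 = true :=
  ⟨(c (b (a (a (c (a (l 16637000) (l 16652144)) (l 16644368)) (c (l 16616936) (l 16632736))) (a (c (l 16609816) (l 16620952)) (c (l 16597096) (l 16609088)))) (a (c (b (a (c (l 16660536) (l 16663920)) (c (l 16648376) (l 16651904))) (a (a (b (l 16657632) (c (a (l 16652832) (l 16649872)) (l 16653504))) (b (l 16651680) (c (b (l 16646632) (l 16644096)) (l 16647544)))) (c (b (l 16641168) (a (l 16639240) (l 16633000))) (a (l 16644264) (l 16638128))))) (b (a (l 16648480) (l 16657680)) (b (a (l 16655168) (l 16648584)) (a (c (l 16663384) (l 16655464)) (c (l 16640960) (l 16643696)))))) (a (b (c (l 16632360) (l 16645784)) (c (b (a (l 16633152) (l 16626816)) (c (a (l 16626664) (l 16620240)) (l 16626040))) (a (l 16626024) (l 16609552)))) (b (c (l 16603840) (l 16633840)) (c (a (c (l 16616272) (l 16619368)) (b (l 16613952) (l 16613928))) (c (l 16619696) (l 16623480))))))) (c (a (b (c (l 16636656) (l 16651048)) (b (a (l 16656688) (l 16645304)) (a (a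 (b (l 16669904) (l 16662576)) (l 16660480)) (a (l 16654752) (l 16638600))))) (b (b (l 16676384) (l 16621384)) (b (a (l 16655096) (l 16644144)) (a (b (l 16644368) (l 16630432)) (b (l 16633384) (l 16618128)))))) (a (b (b (l 16630744) (l 16652960)) (a (b (l 16665864) (a (l 16641656) (l 16646496))) (b (l 16654936) (b (l 16663520) (a (l 16657720) (l 16652368)))))) (a (b (l 16656760) (b (l 16644592) (b (l 16653128) (a (l 16647152) (l 16642080))))) (b (l 16651952) (b (l 16634760) (c (l 16636576) (b (l 16645928) (l 16637088))))))))), by decide +kernel⟩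

def k10_pm_022_a : ∃ t, chk3 f_pm_022_a t 38 2 1 = true :=
  ⟨(l 1), by decide +kernel⟩

def k11_pm_022_a : ∃ t, chk3 f_pm_022_a t 76 3 1 = true :=
  ⟨(b (b (b (l 1) (b (l 1) (a (a (l 1) (b (l 1) (c (c (l 16408920) (l 16367880)) (l 16320800)))) (c (c (b (l 16398952) (l 16410520)) (b (l 16356648) (l 16369152))) (c (l 61235959831) (l 16289560)))))) (b (c (b (c (a (b (l 16420416) (l 16432808)) (b (l 16422456) (l 16434768))) (a (b (l 16380408) (l 16393744)) (b (l 16382040) (l 16395304)))) (c (a (l 16452160) (l 16453984)) (c (l 16430240) (l 16405264)))) (b (c (a (b (l 16337024) (l 16351352)) (l 16366272)) (a (l 98280011495) (l 16298464))) (c (a (l 16373640) (l 16374592)) (a (l 16329488) (l 16329872))))) (c (b (c (l 16479952) (a (l 16443456) (l 16444696))) (c (l 16508272) (l 16474320))) (b (c (l 16404952) (l 16362640)) (c (l 16437240) (l 16397024)))))) (b (b (c (c (b (l 16537952) (l 16566720)) (b (l 16505952) (l 16537328))) (b (c (l 16470872) (l 16432728)) (c (l 16505000) (l 16469744)))) (c (b (c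 (l 16593768) (l 16567832)) (l 16571400)) (b (c (l 16539224) (l 16507944)) (l 16477096)))) (b (b (c (l 16620072) (l 16514848)) (c (l 16588456) (l 16563608))) (b (c (c (l 16584144) (l 16597208)) (b (l 16644848) (l 16612696))) (c (b (c (l 16611816) (l 16621904)) (b (c (l 16604192) (l 16612752)) (c (a (l 16602184) (l 16595656)) (l 16588096)))) (b (a (l 16600272) (l 16595352)) (a (c (l 16621632) (l 16638184)) (c (l 16616344) (l 16634152))))))))), by decide +kernel⟩

def k12_pm_022_a : ∃ t, chk3 f_pm_022_a t 77 6 1 = true :=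
  ⟨(b (a (b (l 1) (c (b (c (b (l 16379320) (l 16390072)) (b (l 16334704) (l 16346392))) (c (b (l 16401200) (l 16412696)) (b (l 16358456) (l 16370896)))) (b (b (c (l 16286296) (l 16234080)) (c (l 16298960) (l 16247792))) (c (l 154114631063) (l 16269184))))) (b (a (l 1) (b (l 1) (b (l 1) (c (c (l 16370840) (l 16325488)) (c (l 16276240) (l 16223096)))))) (c (b (c (b (a (l 16381144) (l 16381880)) (l 16392208)) (b (l 75194611495) (l 16348208))) (c (b (l 16403264) (l 16414696)) (l 16371672))) (b (b (c (l 16287768) (l 16235072)) (c (l 16300392) (l 16248752))) (c (l 16320120) (l 16270080)))))) (b (c (b (c (a (l 16430696) (l 16432568)) (a (l 16390328) (l 16391920))) (c (a (l 16455864) (l 16457568)) (a (l 16417432) (l 16418864)))) (c (b (a (l 16346416) (l 16347648)) (a (l 16375560) (l 16376632))) (b (a (l 16298968) (l 16299752)) (a (l 16330248) (l 16330880))))) (c (c (b (l 16483192) (l 16511048)) (b (l 16446584) (l 16476400))) (b (a (l 16384976) (l 16385648)) (c (l 16438424) (l 16397152)))))), by decide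 +kernel⟩

def k13_pm_022_a : ∃ t, chk3 f_pm_022_a t 77 7 1 = true :=
  ⟨(b (b (c (b (c (l 16540216) (l 16507512)) (c (l 16568472) (l 16538336))) (c (b (l 16471544) (l 16505080)) (c (l 16439464) (l 16419792)))) (c (c (b (l 16595024) (l 16622352)) (b (l 16568272) (l 16598984))) (b (c (l 16538648) (l 16506176)) (c (l 16572992) (l 16544392))))) (b (b (c (l 16598648) (a (l 16554624) (l 16532248))) (c (b (l 16622496) (l 16571592)) (c (l 16643304) (l 16580512)))) (c (c (b (a (l 16616272) (l 16609888)) (a (b (l 16601984) (b (l 16594360) (l 16589104))) (b (l 16595584) (c (a (l 16584696) (l 16581752)) (l 16587584))))) (b (l 16585384) (b (l 16610056) (a (l 16600704) (l 16594856))))) (b (a (l 16612608) (l 16581536)) (b (c (l 16581024) (a (l 16639776) (l 16614320))) (c (a (l 16611136) (l 16603304)) (a (b (l 16627296) (l 16618752)) (c (l 16594280) (a (l 16623208) (l 16620720)))))))))), by decide +kernel⟩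

def k14_pm_022_a : ∃ t, chk3 f_pm_022_a t 39 2 1 = true :=
  ⟨(a (l 1) (b (l 1) (b (l 1) (b (l 1) (b (a (l 1) (c (l 16277624) (l 16196984))) (c (c (l 16315736) (l 16277304)) (c (l 16235920) (l 16191584)))))))), by decide +kernel⟩

def k15_pm_022_a : ∃ t, chk3 f_pm_022_a t 39 6 1 = true :=
  ⟨(b (c (b (a (c (b (a (l 16339248) (l 16338392)) (a (b (l 16357600) (l 74120938343)) (b (l 16356312) (l 16368488)))) (b (a (l 16295800) (l 16296936)) (a (b (l 16313872) (l 16325992)) (b (l 16314624) (l 16326672))))) (c (b (a (l 16337688) (l 16337136)) (a (l 16361160) (l 16360056))) (b (l 16298840) (a (l 16321424) (l 16322288))))) (a (b (c (b (a (l 16380888) (l 16379528)) (l 16390840)) (c (l 16359672) (l 16332560))) (c (l 16407544) (l 16367472))) (b (c (l 16382952) (l 16344984)) (c (l 16404840) (l 16368648))))) (b (a (c (b (a (l 16248784) (l 16252120)) (a (b (l 16266456) (l 16278392)) (l 16275400))) (b (l 78415653591) (c (l 16268224) (l 16210888)))) (c (b (l 16257240) (l 16279904)) (b (l 16212584) (l 16234784))))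 (c (b (a (b (l 16291784) (l 16304320)) (l 16303808)) (a (l 16323904) (l 16329344))) (b (a (b (l 16242120) (l 16255696)) (l 16259424)) (a (l 16276840) (l 16286952)))))) (c (b (b (a (c (l 16430976) (l 16392784)) (c (l 16428112) (l 16393704))) (a (c (l 16455800) (l 16419496)) (l 16436784))) (c (b (a (l 16481984) (l 16478656)) (l 16486640)) (a (l 16446648) (l 16462424)))) (b (a (b (c (l 16351192) (l 16306216)) (c (l 16379896) (l 16337008))) (b (l 16336456) (l 16365720))) (b (c (l 16412056) (l 16373408)) (a (l 16401312) (l 16427960)))))), by decide +kernel⟩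

def k16_pm_022_a : ∃ t, chk3 f_pm_022_a t 39 7 1 = true :=
  ⟨(b (c (b (b (a (l 16533768) (l 16520904)) (c (l 16563864) (l 16537264))) (c (b (l 16589832) (l 16616400)) (b (l 16566360) (l 16596080)))) (b (c (a (l 16490408) (l 16493032)) (a (l 16454952) (l 16461440))) (c (b (l 16540296) (l 16573392)) (b (l 16511656) (l 16548360))))) (b (c (c (a (l 16566176) (l 16559248)) (b (l 16626256) (l 16612360))) (b (a (l 16532920) (l 16534144)) (b (l 16560232) (l 16578736)))) (c (b (c (a (l 16603920) (l 16596656)) (c (l 16567104) (l 16573448))) (c (b (a (l 16589544) (l 16582200)) (a (c (b (l 16579976) (l 16574992)) (l 16581232)) (c (b (l 16573096) (l 16568024)) (l 16573240)))) (a (b (l 16599672) (c (l 16585288) (l 16568736))) (b (l 16590104) (a (l 16590712) (b (l 16578552) (l 16572248))))))) (b (a (a (l 16580304) (l 16573464)) (a (l 16566736) (l 16560136))) (c (b (a (l 16611344) (l 16599336)) (a (a (l 16594752) (b (l 16597584) (l 16590248))) (b (l 16567656) (a (l 16584256) (l 16578304))))) (b (a (l 16582632)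 (l 16567952)) (a (c (b (l 16609136) (l 16579992)) (b (l 16615272) (a (l 16610400) (l 16602608)))) (c (a (l 16573584) (l 16577192)) (b (l 16599960) (a (l 16594968) (l 16587464))))))))))), by decide +kernel⟩

def k17_pm_022_a : ∃ t, chk3 f_pm_022_a t 5 2 2 = true :=
  ⟨(a (b (a (a (l 1) (a (b (l 1) (b (l 1) (l 16208248))) (b (b (l 16217864) (l 16212960)) (b (l 16213456) (l 16261344))))) (b (a (b (l 16265304) (a (l 16229216) (l 16246256))) (b (l 16280688) (l 16271936))) (a (b (a (l 16228472) (l 16244360)) (a (l 16233104) (l 16247760))) (b (l 16268344) (l 16269928))))) (a (b (a (a (l 1) (b (l 16212376) (l 16254016))) (b (a (l 16242360) (c (l 16245464) (l 16215960))) (a (l 16261304) (c (l 16261880) (l 16234056))))) (a (b (a (c (l 16272096) (l 16236768)) (c (l 16275560) (l 16243408))) (a (c (b (l 16297136) (l 16316032)) (l 16292744)) (c (l 16308032) (l 16276544)))) (b (a (l 16286160) (c (l 16284224) (l 16257776))) (a (l 16337960) (c (l 16312576) (l 16287136)))))) (b (a (b (a (l 16243240) (l 16256576))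 (a (l 16258968) (l 16270888))) (b (l 16276784) (l 16309936))) (a (b (a (l 16280368) (l 16290736)) (c (l 16324664) (l 16298400))) (b (l 16348424) (c (l 16343504) (l 16314576))))))) (b (a (a (b (l 16301456) (b (l 16300472) (l 16299688))) (b (l 16347008) (l 16310240))) (b (a (l 16360408) (l 16414528)) (a (l 16361560) (l 16390816)))) (a (a (b (b (l 16303960) (l 16313328)) (b (l 16327728) (l 16347064))) (b (b (l 16331112) (l 16337616)) (b (l 16348848) (l 16364560)))) (b (c (l 16285976) (l 16331064)) (c (a (l 16393800) (l 16412424)) (a (l 16356408) (l 16372496))))))), by decide +kernel⟩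

def k18_pm_022_a : ∃ t, chk3 f_pm_022_a t 5 6 2 = true :=
  ⟨(a (a (b (a (b (a (c (b (l 16336560) (l 16358616)) (b (l 16301744) (l 16323720))) (c (l 16367736) (l 16315520))) (b (a (c (l 16380696) (l 16346512)) (c (l 16378792) (l 16348200))) (a (l 16386560) (l 16386200)))) (a (b (c (l 16346504) (l 16318624)) (b (l 16363800) (l 16386032))) (b (c (l 16346928) (l 16322048)) (a (l 16417120) (a (l 16375288) (b (l 16364720) (l 16386904))))))) (a (b (a (b (l 16410504) (l 16435760)) (b (l 16409952) (l 16434960))) (a (b (l 16462264) (l 16489960)) (l 16474968))) (a (b (l 16443080) (l 16473952)) (a (b (l 16421984) (l 16473424)) (b (a (l 16422088) (l 16422936)) (a (l 16473464) (l 16474248))))))) (b (c (b (a (l 16356200) (l 16371400)) (a (l 16393736) (l 16404696))) (b (a (l 16330368) (l 16342600)) (a (l 16369072) (l 16376888)))) (b (a (l 16427128) (l 16433912)) (a (l 16477024) (l 16480512))))) (b (a (a (b (l 16371128) (b (l 16391088) (l 16408416))) (b (l 16384480) (b (l 16401128) (l 16415256)))) (b (a (l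 16396928) (l 16409000)) (c (a (l 16433760) (l 16442480)) (l 16336968)))) (a (b (a (l 16439392) (l 16443976)) (a (l 16483192) (l 16484808))) (b (c (l 16467016) (l 16430896)) (l 16382552))))), by decide +kernel⟩

def k19_pm_022_a : ∃ t, chk3 f_pm_022_a t 10 7 2 = true :=
  ⟨(a (a (b (b (a (b (l 16518776) (l 16546912)) (b (l 16516864) (l 16544504))) (c (l 16593952) (l 16545808))) (b (a (b (l 16628336) (l 16549952)) (b (l 16622080) (l 16562512))) (b (c (a (l 16589216) (l 16560408)) (a (l 16597928) (l 16588304))) (c (a (b (l 16574552) (a (l 16566088) (l 16562032))) (b (l 16566432) (b (l 16558392) (a (l 16555048) (l 16550624))))) (a (b (l 16580480) (b (l 16571256) (a (l 16567344) (l 16562352)))) (b (l 16570648) (b (l 16561192) (a (l 16557272) (l 16552064))))))))) (b (a (b (b (l 16515216) (l 16542328)) (l 16560168)) (a (b (l 16527744) (l 16579152)) (b (a (l 16527544) (l 16486224)) (a (l 16578648) (l 16578968))))) (b (a (a (l 16533648) (l 16529200)) (a (b (l 16606816) (l 16588560)) (a (l 16509808) (b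 (l 16599408) (l 16559720))))) (a (a (b (l 16556992) (b (l 16561320) (b (l 16552416) (c (l 16545976) (l 16546712))))) (b (l 16552184) (b (l 16556272) (b (l 16547240) (a (l 16542368) (l 16539656)))))) (b (a (l 16525976) (a (l 16563360) (c (l 16557168) (l 16562128)))) (b (a (l 16571736) (a (l 16545968) (c (l 16540864) (l 16543280)))) (a (a (b (l 16543144) (l 16536832)) (a (l 16537800) (l 16536240))) (a (a (l 16534568) (a (l 16533208) (l 16532112))) (a (a (a (l 16531016) (c (l 16529792) (l 16530400))) (l 16529072)) (l 16528016)))))))))) (a (b (b (b (l 16516192) (l 16541544)) (l 16577952)) (b (a (l 16499432) (l 16489136)) (b (c (l 16543656) (l 16550312)) (c (b (l 16526928) (a (l 16520992) (l 16509136))) (a (l 16508528) (l 16497912)))))) (b (b (l 16508224) (l 16575200)) (b (a (l 16478880) (l 16468504)) (b (c (l 16520872) (l 16529896)) (c (b (l 16503824) (a (l 16497392) (l 16485904))) (b (l 16510048) (a (l 16501152) (l 16490568))))))))), by decide +kernel⟩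

def k20_pm_022_a : ∃ t, chk3 f_pm_022_a t 11 7 2 = true :=
  ⟨(b (a (b (c (l 16539744) (l 16515112)) (b (l 16559448) (l 16450808))) (b (l 16421416) (c (l 16408936) (l 16540968)))) (b (b (a (c (l 16512320) (l 16547088)) (a (l 16486864) (l 16426344))) (a (a (l 16442800) (l 16443368)) (a (l 16423800) (l 16383840)))) (a (b (a (c (l 16498568) (l 16509520)) (c (l 16477352) (l 16489680))) (a (c (b (l 16481376) (a (l 16474688) (l 16463744))) (b (l 16489296) (a (l 16480112) (l 16469800)))) (c (b (l 16460072) (a (l 16453096) (l 16442664))) (b (l 16469144) (l 16454616))))) (b (a (c (l 16457016) (l 16470296)) (c (l 16437408) (l 16451304))) (c (a (b (l 16439640) (l 16427256)) (l 16434384)) (a (b (l 16449456) (l 16434672)) (l 16422584))))))), by decide +kernel⟩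

def k21_pm_022_a : ∃ t, chk3 f_pm_022_a t 5 2 3 = true :=
  ⟨(a (b (a (a (l 1) (b (c (l 16169328) (l 16104912)) (a (b (l 1) (l 16136624)) (b (l 16141896) (l 16152584))))) (b (a (c (l 16182480) (l 16139528)) (c (l 16216000) (l 16171328))) (a (b (l 16205848) (c (l 16190264) (l 16154096))) (c (l 16215104) (l 16175448))))) (a (b (a (a (l 1) (b (l 16138880) (l 16204360))) (b (a (l 16153680) (l 16168400)) (a (l 16196896) (l 16210288)))) (a (b (a (c (l 16199008) (l 16158792)) (c (l 16209144) (l 16172768))) (a (c (l 16234368) (l 16194424)) (c (l 16242880) (l 16207040)))) (b (a (l 16224296) (l 16236232)) (a (l 16256760) (l 16267088))))) (b (a (b (c (l 16202704) (l 16168800)) (c (l 16220256) (l 16188248))) (b (l 16208488) (l 16223544))) (a (b (c (l 16242864) (l 16212288)) (c (l 16270408) (l 16240688))) (b (l 16264104) (c (l 16283424) (l 16250048))))))) (b (a (b (a (c (l 16249456) (l 16202960)) (l 16237688)) (a (c (l 16243336) (l 16201288)) (l 16291208))) (b (a (l 16289624) (l 16319296)) (c (l 16290344)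 (l 16325104)))) (a (b (a (b (l 16230896) (l 16242448)) (b (l 16252776) (l 16260856))) (a (b (l 16258240) (l 16278000)) (b (l 16272824) (l 16288472)))) (a (b (l 16339408) (b (l 16286776) (l 16298336))) (b (l 16294992) (l 16282952)))))), by decide +kernel⟩

def k22_pm_022_a : ∃ t, chk3 f_pm_022_a t 5 6 3 = true :=
  ⟨(a (a (a (b (b (a (c (b (l 16264264) (l 16286032)) (l 16255912)) (c (l 16281936) (l 16246024))) (b (a (c (l 16309520) (l 16269720)) (l 16318744)) (a (l 16316112) (l 16323480)))) (b (a (b (l 16343584) (l 16372336)) (l 16385664)) (a (l 16417928) (l 16423232)))) (b (a (b (c (l 16288784) (l 16256984)) (b (l 16305368) (l 16330592))) (b (l 16302648) (a (l 16323488) (a (l 16326096) (l 16326944))))) (a (b (l 16370992) (l 16407224)) (a (b (l 16375488) (l 16431696)) (b (a (l 16377680) (l 16378296)) (l 16433520)))))) (b (b (a (c (l 16302688) (l 16273152)) (c (l 16311416) (l 16277856))) (a (b (l 16337328) (l 16340064)) (b (l 16319216) (l 16341128)))) (b (a (l 16378384) (l 16377680)) (a (l 16432312)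 (l 16428592))))) (b (a (b (a (l 16301400) (l 16307440)) (a (b (l 16321712) (l 16341168)) (b (l 16324120) (l 16340224)))) (b (a (l 16312784) (l 16318264)) (a (l 16269440) (l 16312080)))) (a (b (a (l 16375600) (l 16372752)) (a (l 16424184) (l 16418992))) (b (l 16284040) (a (l 16414464) (l 16411000)))))), by decide +kernel⟩

def k23_pm_022_a : ∃ t, chk3 f_pm_022_a t 20 7 3 = true :=
  ⟨(a (b (b (b (a (l 16465288) (l 16469440)) (a (l 16497824) (l 16501120))) (c (b (l 16542768) (l 16574088)) (b (l 16520544) (l 16555072)))) (b (b (b (l 16547704) (l 16585320)) (b (l 16601968) (l 16585640))) (a (b (c (l 16565984) (l 16577272)) (b (c (l 16587536) (a (l 16599232) (l 16592264))) (c (a (c (l 16574584) (l 16577608)) (c (l 16568888) (l 16550408))) (b (a (l 16586880) (l 16579840)) (c (a (l 16576760) (l 16569960)) (a (l 16580024) (l 16572664))))))) (b (a (l 16541000) (l 16555752)) (b (c (l 16575800) (l 16581904)) (b (c (l 16546504) (a (l 16572856) (l 16565904))) (c (a (c (l 16559488) (l 16561232)) (c (l 16553648)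 (l 16554944))) (a (c (l 16563192) (l 16565360)) (c (l 16556432) (l 16558112)))))))))) (b (a (b (c (l 16499536) (l 16477568)) (b (l 16535048) (l 16566424))) (b (a (l 16491088) (a (l 16492208) (l 16492176))) (c (a (l 16559224) (l 16559136)) (a (l 16544048) (l 16544240))))) (a (a (b (l 16572176) (b (l 16549504) (b (l 16569152) (c (c (l 16551432) (l 16552584)) (b (l 16558992) (c (l 16549680) (l 16550920))))))) (b (l 16571744) (b (l 16543248) (b (l 16562728) (a (c (l 16547360) (l 16531112)) (c (l 16544232) (l 16546008))))))) (b (a (l 16571312) (b (l 16597064) (l 16558544))) (a (b (l 16536928) (b (l 16535248) (a (c (l 16541056) (l 16542560)) (a (l 16518248) (l 16537536))))) (a (b (l 16574008) (b (l 16551216) (a (l 16535824) (l 16513104)))) (b (l 16550424) (b (l 16548480) (a (c (l 16531712) (l 16533720)) (l 16531432)))))))))), by decide +kernel⟩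

def k24_pm_022_a : ∃ t, chk3 f_pm_022_a t 21 7 3 = true :=
  ⟨(a (b (b (l 16425768) (b (l 16531888) (l 16560960))) (b (l 16520128) (b (l 16499728) (b (l 16497160) (a (l 16505728) (l 16497080)))))) (b (b (l 16440392) (l 16485048)) (b (l 16505616) (b (b (l 16533336) (l 16538680)) (a (b (l 16526472) (l 16509232)) (b (l 16517800) (l 16500336))))))), by decide +kernel⟩

def k25_pm_022_a : ∃ t, chk3 f_pm_022_a t 11 7 3 = true :=
  ⟨(b (a (b (a (l 16454096) (l 16426416)) (a (l 16485984) (l 16477864))) (b (c (l 16478328) (l 16440456)) (a (l 16491352) (l 16505800)))) (a (a (b (l 16469760) (b (l 16466896) (b (l 16504696) (a (l 16491360) (l 16482296))))) (b (l 16433272) (b (c (l 16504400) (l 16500568)) (b (l 16486856) (a (l 16473120) (l 16463888)))))) (b (a (l 16458872) (l 16442536)) (a (b (c (l 16486272) (l 16504968)) (a (l 16422088) (l 16454920))) (b (l 16435800) (c (l 16434408) (l 16448872))))))), by decide +kernel⟩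

def k26_pm_022_a : ∃ t, chk3 f_pm_022_a t 12 1 1 = true :=
  ⟨(c (b (b (b (a (c (l 16480920) (l 16438152)) (l 16273952)) (a (a (l 16418384) (l 16444376)) (l 16376424))) (a (b (a (l 16406648) (l 16428304)) (a (l 16305256) (l 16426472))) (b (l 16373704) (c (l 16473208) (l 16428024))))) (b (b (a (c (b (l 16448040) (l 16456720)) (b (l 16404480) (l 16413688))) (c (l 16474352) (l 16324608))) (b (a (a (l 16455720) (l 16460152)) (c (l 16485632) (l 16444024))) (a (l 16448128) (l 16491296)))) (b (a (b (l 16397264) (a (l 16437072) (l 16420104))) (b (l 16388720) (c (l 16443928) (l 16473840)))) (b (a (c (a (l 16450416) (l 16432272)) (b (l 16453584) (l 16450216))) (b (l 16301808) (c (l 16395144) (l 16414824)))) (a (c (b (l 16450712) (a (l 16393712) (l 16374376))) (b (l 16423368) (a (l 16403312) (l 16384288)))) (b (c (l 16371832) (l 16386896)) (c (a (l 16355400) (l 16336776)) (a (l 16365496) (l 16346952))))))))) (b (b (a (b (c (l 16388336) (l 16331728)) (c (l 16360696) (l 16305928))) (b (l 16255512) (c (l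 16407272) (l 16348184)))) (a (b (c (l 16347280) (l 16272376)) (a (l 16294224) (l 16305576))) (b (c (l 16385176) (l 16326168)) (c (l 16375416) (l 16294864))))) (b (b (a (b (a (l 16324160) (l 16331840)) (a (l 16314752) (l 16319360))) (b (l 16198736) (a (l 16346440) (l 16353576)))) (a (a (b (l 16365456) (l 16408272)) (b (l 16365496) (l 16406632))) (b (a (l 16366368) (l 16368008)) (l 16320672)))) (b (a (b (c (l 16471784) (l 16430128)) (l 16359856)) (b (l 16381936) (l 16484216))) (a (b (a (l 16467960) (l 16472488)) (a (b (l 16418344) (l 16360280)) (b (l 16421928) (l 16363224)))) (b (l 16322152) (c (b (l 16405968) (l 16370072)) (b (l 16429056) (l 16387552))))))))), by decide +kernel⟩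

def k27_pm_022_a : ∃ t, chk3 f_pm_022_a t 13 1 1 = true :=
  ⟨(a (b (b (b (c (c (l 16281624) (l 16445688)) (l 16380920)) (c (c (l 16445712) (l 16481960)) (l 16340656))) (c (b (c (l 16478024) (l 16477176)) (c (l 16500440) (l 16459888))) (b (a (l 16385512) (l 16405792)) (c (l 16406664) (l 16344904))))) (b (b (c (c (l 16493640) (l 16450080)) (b (l 16326184) (l 16239744))) (b (c (l 16451160) (a (l 16370408) (l 16373400))) (c (l 16490304) (l 16403088)))) (b (b (a (l 16291680) (l 16267608)) (c (a (l 16392136) (l 16376488)) (l 16472232))) (b (c (b (l 16268344) (a (l 16378392) (l 16361464))) (l 16289560)) (c (c (b (l 16336368) (a (l 16318504) (l 16300616))) (b (l 16351400) (a (l 16328648) (l 16310600)))) (b (l 16277832) (a (l 16351640) (l 16334016)))))))) (b (b (a (c (b (l 16253712) (l 16439352)) (l 16314520)) (c (b (l 16426920) (l 16361880)) (l 16299056))) (b (c (c (l 16449040) (l 16483176)) (l 16435816)) (c (l 16384520) (l 16304048)))) (b (b (c (l 16364744) (c (l 16418152) (l 16356696))) (b (c (l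 16478440) (c (l 16408328) (l 16348872))) (c (l 16473024) (l 16402144)))) (c (c (b (b (l 16417552) (l 16381632)) (b (b (l 16351000) (l 16327848)) (b (l 16302472) (a (l 16283120) (l 16266160))))) (b (l 16244560) (b (l 16277064) (b (l 16316944) (a (l 16292816) (l 16275456)))))) (b (b (l 16432576) (l 16460232)) (b (c (l 16388168) (l 16421272)) (b (l 16222952) (a (l 16316520) (l 16299304))))))))), by decide +kernel⟩

def k28_pm_022_a : ∃ t, chk3 f_pm_022_a t 7 1 2 = true :=
  ⟨(b (b (a (b (a (c (l 16347168) (l 16381312)) (c (l 16322768) (l 16354272))) (a (c (l 16389280) (l 16421336)) (c (l 16366496) (l 16395816)))) (a (b (c (l 16301888) (l 16330608)) (c (l 16347112) (l 16373520))) (b (c (l 16284432) (l 16310376)) (c (l 16331096) (l 16354520))))) (a (b (c (a (l 16423800) (l 16401808)) (l 16296024)) (a (l 16441808) (l 16313200))) (b (a (c (l 16383200) (l 16408928)) (c (l 16368048) (l 16390472))) (a (c (l 16405392) (l 16432944)) (c (l 16390120) (l 16413976)))))) (b (a (b (a (l 16388592) (c (l 16430232)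 (l 16465800))) (a (b (l 16471264) (l 16447784)) (b (l 16444096) (l 16423184)))) (b (a (c (l 16409480) (l 16441560)) (c (l 16392544) (l 16420520))) (a (b (l 16419136) (c (l 16385016) (l 16418656))) (b (l 16397624) (c (l 16409088) (l 16396840)))))) (a (b (b (a (l 16281832) (l 16256584)) (c (a (l 16353168) (l 16327160)) (a (l 16381696) (l 16353864)))) (b (a (c (l 16351240) (l 16329552)) (c (b (l 16293920) (l 16269032)) (l 16300064))) (a (c (b (l 16270776) (a (l 16249904) (l 16234408))) (b (l 16284144) (l 16292488))) (c (b (l 16242096) (a (l 16219720) (l 16206168))) (b (l 16253768) (a (l 16226976) (l 16212336))))))) (b (b (c (a (l 16345232) (l 16327744)) (a (l 16376008) (l 16354872))) (a (c (l 16304352) (l 16328472)) (c (l 16285816) (l 16306288)))) (b (a (c (b (l 16270264) (l 16245184)) (l 16273712)) (c (b (l 16251528) (l 16226432)) (l 16251024))) (a (a (c (b (l 16223360) (l 16194096)) (l 16237064)) (c (b (l 16212632) (l 16183504)) (l 16224616))) (c (b (l 16199600) (a (l 16174576) (l 16167464)))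 (b (l 16204176) (l 16191144))))))))), by decide +kernel⟩

def k29_pm_022_a : ∃ t, chk3 f_pm_022_a t 7 1 3 = true :=
  ⟨(b (a (b (a (b (l 16444440) (l 16480920)) (b (a (l 16420808) (l 16406000)) (l 16451224))) (b (a (l 16474656) (l 16485424)) (a (l 16440832) (l 16471160)))) (b (a (b (c (l 16365480) (l 16406648)) (l 16424312)) (b (b (l 16328856) (l 16370696)) (c (l 16383640) (l 16418704)))) (b (a (l 16458864) (l 16435136)) (a (l 16486464) (l 16461840))))) (b (a (b (a (l 16266936) (l 16370976)) (a (b (l 16348560) (l 16401816)) (b (l 16404960) (l 16403624)))) (b (a (l 16455696) (l 16473880)) (a (b (l 16420016) (l 16405792)) (b (l 16433128) (l 16407664))))) (a (b (a (b (l 16427056) (l 16437864)) (b (l 16421232) (l 16408760))) (a (b (l 16183632) (b (l 16190064) (a (l 16282544) (l 16266264)))) (b (c (l 16263216) (l 16359800)) (b (l 16137984) (c (l 16233320) (l 16254032)))))) (b (a (b (l 16414488) (l 16381112)) (b (l 16406016) (l 16355096))) (b (a (c (l 16256080) (l 16330896)) (c (l 16272304) (l 16303056)))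 (b (a (a (l 16262648) (l 16248512)) (l 16039096)) (a (c (l 16204272) (l 16224088)) (c (l 16177840) (l 16194080))))))))), by decide +kernel⟩

theorem s30_pm_022_a : ∃ t, chk3 f_pm_022_a t 7 1 1 = true := ex3_c k28_pm_022_a k29_pm_022_a

theorem s31_pm_022_a : ∃ t, chk3 f_pm_022_a t 6 1 1 = true := ex3_a k26_pm_022_a k27_pm_022_a

theorem s32_pm_022_a : ∃ t, chk3 f_pm_022_a t 3 1 1 = true := ex3_a s31_pm_022_a s30_pm_022_a

theorem s33_pm_022_a : ∃ t, chk3 f_pm_022_a t 10 7 3 = true := ex3_a k23_pm_022_a k24_pm_022_a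

theorem s34_pm_022_a : ∃ t, chk3 f_pm_022_a t 5 7 3 = true := ex3_a s33_pm_022_a k25_pm_022_a

theorem s35_pm_022_a : ∃ t, chk3 f_pm_022_a t 5 3 3 = true := ex3_b k22_pm_022_a s34_pm_022_a

theorem s36_pm_022_a : ∃ t, chk3 f_pm_022_a t 5 1 3 = true := ex3_b k21_pm_022_a s35_pm_022_a

theorem s37_pm_022_a : ∃ t, chk3 f_pm_022_a t 5 7 2 = true := ex3_a k19_pm_022_a k20_pm_022_a

theorem s38_pm_022_a : ∃ t, chk3 f_pm_022_a t 5 3 2 = true := ex3_b k18_pm_022_a s37_pm_022_a

theorem s39_pm_022_a : ∃ t, chk3 f_pm_022_a t 5 1 2 = true := ex3_b k17_pm_022_a s38_pm_022_a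

theorem s40_pm_022_a : ∃ t, chk3 f_pm_022_a t 5 1 1 = true := ex3_c s39_pm_022_a s36_pm_022_a

theorem s41_pm_022_a : ∃ t, chk3 f_pm_022_a t 39 3 1 = true := ex3_b k15_pm_022_a k16_pm_022_a

theorem s42_pm_022_a : ∃ t, chk3 f_pm_022_a t 39 1 1 = true := ex3_b k14_pm_022_a s41_pm_022_a

theorem s43_pm_022_a : ∃ t, chk3 f_pm_022_a t 77 3 1 = true := ex3_b k12_pm_022_a k13_pm_022_a

theorem s44_pm_022_a : ∃ t, chk3 f_pm_022_a t 38 3 1 = true := ex3_a k11_pm_022_a s43_pm_022_a

theorem s45_pm_022_a : ∃ t, chk3 f_pm_022_a t 38 1 1 = true := ex3_b k10_pm_022_a s44_pm_022_a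

theorem s46_pm_022_a : ∃ t, chk3 f_pm_022_a t 19 1 1 = true := ex3_a s45_pm_022_a s42_pm_022_a

theorem s47_pm_022_a : ∃ t, chk3 f_pm_022_a t 18 15 1 = true := ex3_b k8_pm_022_a k9_pm_022_a

theorem s48_pm_022_a : ∃ t, chk3 f_pm_022_a t 18 28 1 = true := ex3_b k5_pm_022_a k6_pm_022_a

theorem s49_pm_022_a : ∃ t, chk3 f_pm_022_a t 18 14 1 = true := ex3_b s48_pm_022_a k7_pm_022_a

theorem s50_pm_022_a : ∃ t, chk3 f_pm_022_a t 18 7 1 = true := ex3_b s49_pm_022_a s47_pm_022_a

theorem s51_pm_022_a : ∃ t, chk3 f_pm_022_a t 18 13 1 = true := ex3_b k3_pm_022_a k4_pm_022_a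

theorem s52_pm_022_a : ∃ t, chk3 f_pm_022_a t 18 6 1 = true := ex3_b k2_pm_022_a s51_pm_022_a

theorem s53_pm_022_a : ∃ t, chk3 f_pm_022_a t 18 3 1 = true := ex3_b s52_pm_022_a s50_pm_022_a

theorem s54_pm_022_a : ∃ t, chk3 f_pm_022_a t 18 1 1 = true := ex3_b k1_pm_022_a s53_pm_022_a

theorem s55_pm_022_a : ∃ t, chk3 f_pm_022_a t 9 1 1 = true := ex3_a s54_pm_022_a s46_pm_022_a

theorem s56_pm_022_a : ∃ t, chk3 f_pm_022_a t 4 1 1 = true := ex3_a k0_pm_022_a s55_pm_022_a

theorem s57_pm_022_a : ∃ t, chk3 f_pm_022_a t 2 1 1 = true := ex3_a s56_pm_022_a s40_pm_022_a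

theorem s58_pm_022_a : ∃ t, chk3 f_pm_022_a t 1 1 1 = true := ex3_a s57_pm_022_a s32_pm_022_a

theorem c_pm_022_a : CertB 0 536870912 0 536870912 858993459 64424510 3 eng mog cd0q0 cd1q2a pd2 true true false .pp 0 2 2
    ndB0q0 ndB1q2a pcB2 cut_pm_022_a Ext.none :=
  certB2 (fam := true) (s1 := true) (s2 := false) (a := 0) (b := 2) (c := 2) (cn := .pp) (n1 := ndB0q0) (n2 := ndB1q2a) (pc := pcB2) (cut := cut_pm_022_a) (xt := Ext.none) (P1 := 0) (W1 := 536870912) (P2 := 0) (W2 := 536870912) (P3 := 858993459) (W3 := 64424510) (N0 := 3) (En := eng) (mo := mog) (C1 := cd0q0) (C2 := cd1q2a) (C3 := pd2)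
    rfl (fun _ => rfl) s58_pm_022_a

noncomputable def cut_pm_022_b : Cut := Cut.of [[⟨0, 0, 0, 67108864⟩, ⟨1, 1, 0, 67108864⟩, ⟨2, 1, 0, 67108864⟩]]

noncomputable def f_pm_022_b : ℕ → ℕ → ℕ → ℕ → Bool := onCell 0 536870912 1073741824 536870912 858993459 64424510
    (rowB 3 eng mog cd0q0 cd1q2b pd2 1 true true false .pp 0 2 2 (qsf 0 536870912 1239849684 370763052 2) ndB0q0 ndB1q2b pcB2 cut_pm_022_b Ext.none)

def k0_pm_022_b : ∃ t, chk3 f_pm_022_b t 1 2 1 = true :=
  ⟨(a (a (b (l 1) (b (a (a (a (b (b (l 1) (b (l 1) (c (l 16309072) (l 189547850871)))) (c (b (c (l 16262832) (l 16222936)) (l 16214968)) (b (c (l 16179624) (l 16132896)) (l 16122248)))) (b (l 1) (c (b (l 156262047335) (l 16259808)) (b (l 187400358679) (c (l 16215784) (l 16167656)))))) (a (b (l 1) (b (l 1) (c (l 16346880) (l 185789845895)))) (l 1))) (l 1)) (b (a (a (c (c (l 16230704) (l 16185592)) (c (b (l 16150584) (l 16121648)) (a (l 16045904) (l 16117120)))) (c (b (c (l 16475400) (l 16329712)) (a (l 16292464) (l 16355256))) (c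 (b (l 16284416) (l 16255224)) (b (l 16245176) (l 16203336))))) (a (c (c (l 178273928567) (l 260414917063)) (b (l 1) (l 269004614647))) (l 1))) (a (c (a (c (l 16185376) (l 16136424)) (b (l 16383712) (l 16214288))) (a (c (l 16060960) (l 16000936)) (c (l 16214904) (l 16159032)))) (a (c (c (l 16430544) (l 245919306711)) (b (l 203506307191) (a (l 16269056) (l 16328120)))) (a (c (l 16432728) (l 273299709415)) (l 1))))))) (l 1)) (l 1)), by decide +kernel⟩

def k1_pm_022_b : ∃ t, chk3 f_pm_022_b t 2 6 1 = true :=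
  ⟨(b (b (a (a (c (a (c (l 16144304) (l 16093072)) (c (l 16226440) (l 16221168))) (a (b (l 16015352) (l 15992968)) (c (l 16167440) (l 16107240)))) (a (c (l 16344232) (c (l 16290400) (l 16232144))) (c (a (l 16448776) (l 16360568)) (c (l 16401448) (l 180420976615))))) (b (l 1) (a (a (c (l 245382605767) (l 225518447239)) (l 1)) (l 1)))) (a (a (c (a (l 15934848) (l 16207056)) (a (b (l 15972416) (l 15953560)) (c (l 16126696) (l 16063800)))) (a (c (l 16325920) (c (l 16248864) (l 16187816))) (c (l 16424584) (c (l 16359208) (l 16298576))))) (a (c (a (b (l 250214408647) (l 16261808)) (b (l 1) (l 243771867543))) (a (c (l 16458200) (l 16292480)) (l 251825038727))) (l 1)))) (b (a (a (c (a (l 16046992) (l 16171784)) (a (c (l 15961120) (l 15893336)) (l 15872104))) (c (a (l 16289928) (l 16360432)) (a (l 16015448) (l 16188200)))) (a (c (a (l 16199080) (c (l 269005080487) (l 16424952))) (a (l 16349704) (l 178810540759))) (a (a (c (l 262562291511) (l 16506000)) (l 1)) (l 1)))) (a (a (c (a (l 16014256) (l 16138496))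 (a (c (l 15931368) (l 15864400)) (l 15863240))) (a (c (l 16248200) (c (l 16182240) (l 16120824))) (c (l 16293304) (l 16261880)))) (a (c (a (l 16328776) (c (l 16335936) (l 16374656))) (a (l 16359704) (l 16444656))) (c (a (c (l 228739945591) (l 16389728)) (c (l 260952177639) (l 246993632311))) (a (l 16355944) (l 310880882311))))))), by decide +kernel⟩

def k2_pm_022_b : ∃ t, chk3 f_pm_022_b t 2 7 1 = true :=
  ⟨(c (a (b (b (a (l 15981400) (l 16198720)) (a (a (l 15941320) (l 16025720)) (a (l 16093112) (l 16152192)))) (a (b (l 15933248) (l 15863208)) (b (a (l 16042464) (l 16100680)) (l 16043640)))) (b (b (a (a (l 16266984) (l 16321552)) (a (c (l 16307392) (l 16343920)) (c (l 242161635223) (l 16358232)))) (a (a (l 16203048) (l 16244096)) (a (l 16275896) (c (l 16282928) (l 16316760))))) (a (b (a (b (l 16155960) (l 16139936)) (l 16169064)) (l 15921208)) (a (b (l 16224568) (l 16202808)) (b (l 16254824) (l 16330424)))))) (a (b (a (b (a (l 15664032) (c (l 16034256) (l 15973648))) (a (b (l 15709280) (l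 15706944)) (c (l 16005504) (l 15802696)))) (a (b (l 16084496) (l 15955736)) (b (l 16234976) (l 16211160)))) (a (a (b (l 15596912) (l 15636952)) (b (l 15924776) (l 15859888))) (b (a (l 16053776) (l 16169928)) (a (l 15989680) (l 16107616))))) (b (a (b (a (l 16332072) (l 16387128)) (a (l 16285392) (l 16325760))) (a (b (l 16410704) (l 16357128)) (b (c (l 16401624) (l 16451720)) (l 16379384)))) (a (b (a (l 16223824) (l 16264792)) (a (l 16189304) (l 16232880))) (b (a (l 16299656) (l 16329904)) (a (l 16267032) (l 16292064))))))), by decide +kernel⟩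

def k3_pm_022_b : ∃ t, chk3 f_pm_022_b t 3 3 1 = true :=
  ⟨(a (b (l 1) (b (b (b (l 1) (a (a (c (l 262025863351) (l 303364915655)) (l 1)) (l 1))) (a (a (c (c (l 252362121255) (l 16330216)) (c (l 16370960) (l 16502248))) (b (l 1) (c (l 271152599703) (l 294238075655)))) (l 1))) (b (a (c (a (c (l 16262000) (l 16292960)) (c (l 261488876631) (l 16305680))) (a (l 16351080) (c (l 16343568) (l 96669516919)))) (a (b (l 1) (c (l 275984389959) (l 286722051735))) (l 1))) (b (a (c (a (l 16247064) (l 16266352)) (a (l 16317104) (l 16335896))) (a (c (a (l 16275096) (l 278668647431)) (l 237329885511)) (l 1))) (a (c (a (l 16236904) (l 16249824)) (a (l 16302576) (l 16316128))) (c (a (c (l 16250840) (l 16278192)) (a (l 309807145783) (l 1))) (a (a (l 16327392) (l 16333184)) (l 296922553111)))))))) (l 1)), by decide +kernel⟩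

theorem s4_pm_022_b : ∃ t, chk3 f_pm_022_b t 2 3 1 = true := ex3_b k1_pm_022_b k2_pm_022_b

theorem s5_pm_022_b : ∃ t, chk3 f_pm_022_b t 1 3 1 = true := ex3_a s4_pm_022_b k3_pm_022_b

theorem s6_pm_022_b : ∃ t, chk3 f_pm_022_b t 1 1 1 = true := ex3_b k0_pm_022_b s5_pm_022_b

theorem c_pm_022_b : CertB 0 536870912 1239849684 370763052 858993459 64424510 3 eng mog cd0q0 cd1q2b pd2 true true false .pp 0 2 2
    ndB0q0 ndB1q2b pcB2 cut_pm_022_b Ext.none :=
  certB1 (fam := true) (s1 := true) (s2 := false) (a := 0) (b := 2) (c := 2) (cn := .pp) (n1 := ndB0q0) (n2 := ndB1q2b) (pc := pcB2) (cut := cut_pm_022_b) (xt := Ext.none) (P1 := 0) (W1 := 536870912) (P2 := 1239849684) (W2 := 370763052) (P3 := 858993459) (W3 := 64424510) (N0 := 3) (En := eng) (mo := mog) (C1 := cd0q0) (C2 := cd1q2b) (C3 := pd2)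
    rfl (fun _ => rfl) s6_pm_022_b

noncomputable def f_pm_023_a : ℕ → ℕ → ℕ → ℕ → Bool := onCell 0 536870912 0 536870912 858993459 64424510
    (rowB 3 eng mog cd0q0 cd1q2a pd3 0 true true false .up 0 2 3 (qsf 0 536870912 0 536870912 3) ndB0q0 ndB1q2a pcB3 Cut.none Ext.none)

def k0_pm_023_a : ∃ t, chk3 f_pm_023_a t 2 1 1 = true :=
  ⟨(l 1), by decide +kernel⟩

def k1_pm_023_a : ∃ t, chk3 f_pm_023_a t 3 2 1 = true :=
  ⟨(a (a (l 1) (a (b (b (l 1) (l 1)) (l 1)) (b (c (b (c (l 16300800) (l 16331200)) (c (l 16337496) (l 16353088))) (b (c (l 16366224) (l 16405552)) (l 16383104))) (c (b (l 16229280) (l 16282784)) (b (l 16382784) (l 16364256)))))) (b (a (c (b (a (c (b (l 16346736) (l 16358320)) (l 16425680)) (c (a (l 16394896) (l 16424152)) (b (l 16437352) (l 16432848)))) (a (c (l 16382176) (l 16398184)) (l 16265184))) (a (b (b (a (l 16424424) (l 16448512)) (l 16432136)) (l 16427800)) (b (b (a (l 16471648) (l 16494512)) (l 16474640)) (l 16466352)))) (c (a (a (b (l 16442784) (l 16463120)) (b (l 16491032)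 (l 16461008))) (b (l 16529016) (b (l 16508944) (l 16507080)))) (a (b (b (l 16525136) (l 16511616)) (c (l 16492496) (l 16505728))) (b (l 16551624) (b (l 16531944) (l 16521296)))))) (a (c (b (a (l 16372776) (l 16450744)) (a (l 16438664) (l 16464704))) (b (a (l 16423144) (l 16457040)) (a (l 16420424) (l 16448704)))) (c (a (b (l 16482352) (l 16484912)) (b (l 16507328) (l 16497440))) (b (a (l 16484472) (l 16506128)) (a (l 16469928) (l 16484472))))))), by decide +kernel⟩

def k2_pm_023_a : ∃ t, chk3 f_pm_023_a t 3 3 1 = true :=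
  ⟨(a (b (l 1) (l 1)) (b (a (b (c (a (l 16457232) (l 16467232)) (a (l 16420128) (l 16441344))) (c (b (a (l 16434264) (l 16416760)) (a (l 1) (c (l 16386176) (l 16383736)))) (a (l 152503852855) (b (l 16434760) (l 16425632))))) (b (c (a (l 16460152) (l 16454040)) (a (l 16454608) (l 16452480))) (c (a (b (l 16404984) (c (l 16354328) (l 16366288))) (b (l 16398272) (c (l 16350224) (l 16355272)))) (c (a (l 16403880) (l 16386656)) (a (l 16425624) (l 16402016)))))) (a (a (l 1) (a (l 1) (b (c (l 354367609655) (l 16359272)) (l 1)))) (b (c (a (b (l 16315432) (l 16277992)) (b (a (l 16306160) (l 16302392)) (l 16262848))) (a (c (l 16323112) (l 16350688)) (b (l 16333912) (l 16284536)))) (b (c (a (l 357588731991) (c (l 16221000) (l 16218936))) (a (l 16093048) (l 16271088))) (a (l 1) (a (c (l 344703612087) (l 16196256)) (c (c (l 16172048) (l 16162136)) (l 16158824))))))))), by decide +kernel⟩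

theorem s3_pm_023_a : ∃ t, chk3 f_pm_023_a t 3 1 1 = true := ex3_b k1_pm_023_a k2_pm_023_a

theorem s4_pm_023_a : ∃ t, chk3 f_pm_023_a t 1 1 1 = true := ex3_a k0_pm_023_a s3_pm_023_a

theorem c_pm_023_a : CertB 0 536870912 0 536870912 858993459 64424510 3 eng mog cd0q0 cd1q2a pd3 true true false .up 0 2 3
    ndB0q0 ndB1q2a pcB3 Cut.none Ext.none :=
  certB0 (fam := true) (s1 := true) (s2 := false) (a := 0) (b := 2) (c := 3) (cn := .up) (n1 := ndB0q0) (n2 := ndB1q2a) (pc := pcB3) (cut := Cut.none) (xt := Ext.none) (P1 := 0) (W1 := 536870912) (P2 := 0) (W2 := 536870912) (P3 := 858993459) (W3 := 64424510) (N0 := 3) (En := eng) (mo := mog) (C1 := cd0q0) (C2 := cd1q2a) (C3 := pd3)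
    rfl s4_pm_023_a

noncomputable def f_pm_023_b : ℕ → ℕ → ℕ → ℕ → Bool := onCell 1610612736 536870912 1239849684 370763052 858993459 64424510
    (rowB 3 eng mog cd0q0 cd1q2b pd3 2 true true false .up 0 2 3 (qsf 0 536870912 1239849684 370763052 3) ndB0q0 ndB1q2b pcB3 Cut.none Ext.none)

def k0_pm_023_b : ∃ t, chk3 f_pm_023_b t 4 2 1 = true :=
  ⟨(b (a (c (a (a (b (b (l 16266008) (l 16217528)) (c (l 16136168) (l 16170880))) (b (b (l 16315736) (l 16253176)) (l 16195584))) (b (a (c (l 16294016) (l 16329568)) (c (l 16334168) (l 16366376))) (c (l 16243704) (l 16273136)))) (b (a (b (a (l 16353440) (l 16402912)) (a (l 16306568) (l 16339048))) (b (a (l 16431648) (l 16439712)) (a (l 16372792) (l 16404048)))) (a (a (b (l 16258592) (l 16210976)) (l 16273104)) (b (l 16431984) (l 16304328))))) (a (b (b (b (c (l 16427504) (l 16485880)) (c (l 16412656) (l 16470920))) (c (a (l 16370408) (l 16406648)) (l 16446432))) (c (c (l 16324800) (l 16348376)) (a (l 16375472) (l 16405488)))) (b (c (b (a (l 16469648) (l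 16499320)) (l 16457368)) (b (l 16521976) (l 16495176))) (c (b (l 16426456) (l 16392200)) (b (l 16463984) (l 16428776)))))) (a (b (c (a (c (l 16078528) (l 16104008)) (c (l 16166920) (l 16189336))) (a (a (l 16133664) (l 16174968)) (l 16358944))) (a (c (c (l 15992808) (l 16007768)) (a (l 16021256) (l 16065512))) (c (a (l 16068712) (l 16112184)) (a (l 16107728) (l 16148976))))) (b (c (a (l 16301552) (l 16336424)) (a (l 16430560) (l 16221728))) (a (c (l 16175480) (l 16206488)) (c (l 16255752) (l 16277320)))))), by decide +kernel⟩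

def k1_pm_023_b : ∃ t, chk3 f_pm_023_b t 5 2 1 = true :=
  ⟨(a (b (b (b (a (c (l 16538072) (l 16557552)) (c (l 16582056) (l 16585232))) (a (c (l 16518072) (l 16535136)) (c (l 16567512) (l 16568040)))) (a (c (a (l 16460600) (l 16492496)) (b (l 16508760) (l 16478504))) (c (l 16536192) (l 16533368)))) (a (b (c (l 16409688) (l 16424840)) (c (l 16332072) (l 16341576))) (b (c (l 16476584) (l 16473760)) (c (l 16403920) (l 16398600))))) (b (b (a (c (b (l 2) (l 16607480)) (l 235249546135)) (l 2)) (a (c (l 16583032) (l 16567472)) (c (l 16601560) (l 16596720)))) (b (a (c (l 16535680) (l 16514616)) (b (l 16579744) (l 16555152))) (a (l 16354496) (b (l 16526368) (l 16493752)))))), by decide +kernel⟩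

def k2_pm_023_b : ∃ t, chk3 f_pm_023_b t 3 2 1 = true :=
  ⟨(a (b (l 2) (a (b (a (c (l 16622464) (l 16580168)) (l 16628304)) (a (c (l 16555736) (l 16525832)) (l 16583552))) (a (b (l 2) (c (l 16631208) (l 16510608))) (l 2)))) (l 2)), by decide +kernel⟩

def k3_pm_023_b : ∃ t, chk3 f_pm_023_b t 1 3 1 = true :=
  ⟨(a (a (b (a (a (b (c (c (l 15897176) (l 15901720)) (a (l 15900536) (l 15946488))) (c (a (l 15763968) (l 15815768)) (a (l 15774680) (l 15822704)))) (b (c (a (l 15971240) (l 16018264)) (a (l 15991400) (l 16035280))) (c (l 15890008) (l 15932728)))) (a (b (c (l 16084960) (l 16097192)) (c (l 15984224) (l 15978384))) (b (c (l 16168376) (l 16175088)) (c (l 16073864) (l 16061936))))) (a (c (a (b (a (l 15642968) (l 15697352)) (a (l 15511344) (l 15568632))) (b (l 15777096) (l 15652352))) (b (a (a (l 15634672) (l 15687360)) (l 15762384)) (a (a (l 15475856) (l 15535088)) (l 15619296)))) (b (a (c (l 15877480) (l 15855344)) (c (l 15968744) (l 15940184))) (a (c (l 15757744) (l 15721184)) (c (l 15857680)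 (l 15813920)))))) (a (b (b (a (l 16349960) (c (l 16323536) (l 16310408))) (a (l 16334920) (l 16221744))) (b (a (l 16185088) (l 16266248)) (a (c (l 15949952) (l 15898424)) (l 16175312)))) (b (a (b (l 16254472) (l 16229288)) (b (l 16438688) (l 16356184))) (a (b (l 16195000) (l 16089952)) (b (l 16265064) (l 16166400)))))) (a (a (b (a (c (l 16563952) (b (l 16461520) (l 16385896))) (b (c (l 16561480) (l 16494888)) (l 16273928))) (a (c (l 16337824) (l 16167976)) (b (l 16302328) (l 4)))) (b (a (b (l 16556496) (l 4)) (l 4)) (l 4))) (l 4))), by decide +kernel⟩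

theorem s4_pm_023_b : ∃ t, chk3 f_pm_023_b t 2 2 1 = true := ex3_a k0_pm_023_b k1_pm_023_b

theorem s5_pm_023_b : ∃ t, chk3 f_pm_023_b t 1 2 1 = true := ex3_a s4_pm_023_b k2_pm_023_b

theorem s6_pm_023_b : ∃ t, chk3 f_pm_023_b t 1 1 1 = true := ex3_b s5_pm_023_b k3_pm_023_b

theorem c_pm_023_b : CertB 0 536870912 1239849684 370763052 858993459 64424510 3 eng mog cd0q0 cd1q2b pd3 true true false .up 0 2 3
    ndB0q0 ndB1q2b pcB3 Cut.none Ext.none :=
  certB2 (fam := true) (s1 := true) (s2 := false) (a := 0) (b := 2) (c := 3) (cn := .up) (n1 := ndB0q0) (n2 := ndB1q2b) (pc := pcB3) (cut := Cut.none) (xt := Ext.none) (P1 := 0) (W1 := 536870912) (P2 := 1239849684) (W2 := 370763052) (P3 := 858993459) (W3 := 64424510) (N0 := 3) (En := eng) (mo := mog) (C1 := cd0q0) (C2 := cd1q2b) (C3 := pd3)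
    rfl (fun _ => rfl) s6_pm_023_b

noncomputable def f_pm_033 : ℕ → ℕ → ℕ → ℕ → Bool := onCell 1610612736 536870912 1610612736 536870912 858993459 64424510
    (rowB 3 eng mog cd0q0 cd1q3 pd3 2 true true false .pnn 0 3 3 (qsf 0 536870912 1610612736 536870912 3) ndB0q0 ndB1q3 pcB3 Cut.none Ext.none)

def k0_pm_033 : ∃ t, chk3 f_pm_033 t 1 1 1 = true :=
  ⟨(a (b (a (b (a (b (a (c (c (l 239475468647) (l 32243163239)) (b (l 15400128) (l 15320688))) (c (b (l 15548552) (l 15452912)) (b (l 15511896) (l 15395064)))) (a (l 1) (c (l 341480936247) (l 331817114855)))) (b (a (c (l 15667768) (l 15726504)) (c (l 15703416) (l 15736248))) (a (c (l 15408032) (l 15405864)) (c (l 15508008) (l 15430248))))) (b (a (l 1) (a (l 1) (c (l 15304280) (l 15182424)))) (l 1))) (b (a (b (a (c (l 15798632) (l 15759520)) (c (l 15889112) (l 15816552))) (a (c (l 15606664) (l 15530544)) (c (l 15700336) (l 15620368)))) (b (a (c (l 15970024) (l 15888272)) (c (l 16050032) (l 15959912))) (a (c (l 15791760) (l 15705032)) (c (l 15880688)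 (l 15784504))))) (a (b (a (c (l 15399800) (l 15290600)) (c (l 15496160) (l 15396488))) (a (l 1) (c (l 15282608) (l 15147888)))) (b (a (c (l 15592560) (l 15497120)) (c (l 15688416) (l 15591232))) (a (c (l 15378216) (l 15258352)) (l 90963866215)))))) (a (l 1) (a (l 1) (b (a (l 1) (l 4)) (l 1))))) (a (b (b (a (a (b (c (l 16128056) (l 16031816)) (c (l 15964648) (l 15861328))) (l 4)) (l 4)) (l 4)) (l 4)) (l 4))), by decide +kernel⟩

theorem c_pm_033 : CertB 0 536870912 1610612736 536870912 858993459 64424510 3 eng mog cd0q0 cd1q3 pd3 true true false .pnn 0 3 3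
    ndB0q0 ndB1q3 pcB3 Cut.none Ext.none :=
  certB2 (fam := true) (s1 := true) (s2 := false) (a := 0) (b := 3) (c := 3) (cn := .pnn) (n1 := ndB0q0) (n2 := ndB1q3) (pc := pcB3) (cut := Cut.none) (xt := Ext.none) (P1 := 0) (W1 := 536870912) (P2 := 1610612736) (W2 := 536870912) (P3 := 858993459) (W3 := 64424510) (N0 := 3) (En := eng) (mo := mog) (C1 := cd0q0) (C2 := cd1q3) (C3 := pd3)
    rfl (fun _ => rfl) k0_pm_033

noncomputable def cut_pm_101 : Cut := Cut.of [[⟨0, 1, 0, 67108864⟩, ⟨1, 0, 0, 67108864⟩, ⟨2, 1, 0, 67108864⟩]]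

noncomputable def f_pm_101 : ℕ → ℕ → ℕ → ℕ → Bool := onCell 536870912 536870912 0 536870912 858993459 64424510
    (rowB 3 eng mog cd0q1 cd1q0 pd1 2 true true false .npn 1 0 1 (qsf 536870912 536870912 0 536870912 1) ndB0q1 ndB1q0 pcB1 cut_pm_101 Ext.none)

def k0_pm_101 : ∃ t, chk3 f_pm_101 t 1 1 1 = true :=
  ⟨(a (l 3) (b (a (l 3) (b (a (l 3) (b (a (l 3) (a (l 3) (b (l 6) (l 3)))) (l 3))) (l 3))) (l 3))), by decide +kernel⟩

theorem c_pm_101 : CertB 536870912 536870912 0 536870912 858993459 64424510 3 eng mog cd0q1 cd1q0 pd1 true true false .npn 1 0 1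
    ndB0q1 ndB1q0 pcB1 cut_pm_101 Ext.none :=
  certB2 (fam := true) (s1 := true) (s2 := false) (a := 1) (b := 0) (c := 1) (cn := .npn) (n1 := ndB0q1) (n2 := ndB1q0) (pc := pcB1) (cut := cut_pm_101) (xt := Ext.none) (P1 := 536870912) (W1 := 536870912) (P2 := 0) (W2 := 536870912) (P3 := 858993459) (W3 := 64424510) (N0 := 3) (En := eng) (mo := mog) (C1 := cd0q1) (C2 := cd1q0) (C3 := pd1)
    rfl (fun _ => rfl) k0_pm_101

noncomputable def cut_pm_102 : Cut := Cut.of [[⟨0, 1, 0, 67108864⟩, ⟨1, 0, 0, 67108864⟩, ⟨2, 1, 0, 67108864⟩]]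

noncomputable def f_pm_102 : ℕ → ℕ → ℕ → ℕ → Bool := onCell 536870912 536870912 1073741824 536870912 858993459 64424510
    (rowB 3 eng mog cd0q1 cd1q0 pd2 1 true true false .npp 1 0 2 (qsf 536870912 536870912 0 536870912 2) ndB0q1 ndB1q0 pcB2 cut_pm_102 Ext.none)

def k0_pm_102 : ∃ t, chk3 f_pm_102 t 2 4 1 = true :=
  ⟨(b (l 3) (a (b (l 3) (a (l 2) (b (l 3) (a (l 2) (b (l 16518600) (l 16536176)))))) (b (a (l 3) (b (l 3) (a (b (l 3) (c (l 318531874583) (l 343227836999))) (b (c (l 294909491207) (l 307257495479)) (c (a (l 16572464) (l 16591080)) (l 83382381079)))))) (a (b (b (a (l 3) (l 298130784711)) (a (c (l 16532560) (l 16499992)) (c (l 16549704) (l 16518072)))) (a (c (b (l 16547696) (l 16566096)) (l 168744959095)) (b (l 16552360) (l 16571872)))) (c (b (a (b (l 16581968) (l 16576248)) (b (l 16595168) (l 16610552))) (a (l 16602888) (l 16656856))) (b (a (b (l 16520008) (l 16542200)) (b (l 16550952) (l 16573576))) (a (l 16573688) (l 16602840)))))))), by decide +kernel⟩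

def k1_pm_102 : ∃ t, chk3 f_pm_102 t 6 8 1 = true :=
  ⟨(b (l 3) (a (l 3) (b (l 3) (b (a (l 3) (a (a (l 3) (b (l 3) (a (c (l 337859640231) (l 352354924647)) (b (l 3) (c (l 282561951687) (l 305110421543)))))) (b (a (b (l 3) (c (a (l 3) (l 343765238119)) (l 355039431959))) (a (b (l 3) (c (b (l 324437884647) (l 219748052279)) (b (l 335712076039) (l 217063669959)))) (b (c (c (l 320679786455) (l 321753529367)) (c (l 326048456567) (l 334101391863))) (c (c (l 198810086343) (l 200420699207)) (c (l 203105052775) (l 16729096)))))) (c (a (b (a (l 314237339655) (b (l 231022342855) (l 16818952))) (c (l 16819584) (l 16804064))) (b (c (l 16818200) (l 16817712)) (l 16817976))) (c (a (b (a (l 327122098535) (l 205252483287)) (l 16748520)) (l 16773768)) (a (b (l 202031118119) (l 16693744)) (l 16718536))))))) (a (a (l 3) (b (c (a (l 3) (l 330343347559)) (l 333564343095)) (c (a (l 291688628375) (b (l 233706658839) (l 16747696))) (a (l 289541012951) (l 195588643239))))) (a (b (c (a (b (l 317995362503) (l 181093351543))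 (c (l 167134706535) (l 166060928023))) (b (a (l 334101377847) (l 166060825127)) (a (l 16715880) (l 16695160)))) (c (a (l 16789048) (l 16786296)) (c (l 16707120) (l 16661304)))) (c (b (a (l 16819016) (l 16818008)) (l 16812640)) (b (a (l 16717504) (l 16739088)) (l 16724608))))))))), by decide +kernel⟩

def k2_pm_102 : ∃ t, chk3 f_pm_102 t 28 16 1 = true :=
  ⟨(l 3), by decide +kernel⟩

def k3_pm_102 : ∃ t, chk3 f_pm_102 t 28 68 1 = true :=
  ⟨(a (l 3) (b (l 3) (a (l 3) (b (a (l 3) (c (l 444160091847) (b (l 3) (l 413558454727)))) (a (c (l 428590835463) (b (l 3) (a (l 3) (c (l 382419940759) (l 367387537047))))) (c (b (l 395841702295) (l 16814800)) (c (b (l 374903747559) (l 16816104)) (b (a (l 386714910743) (l 293299366311)) (a (l 275582625639) (l 16816624)))))))))), by decide +kernel⟩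

def k4_pm_102 : ∃ t, chk3 f_pm_102 t 56 69 1 = true :=
  ⟨(b (a (l 3) (b (l 3) (b (l 3) (a (l 3) (a (l 3) (b (l 3) (c (l 348597070759) (c (l 332490947207) (l 324437829975))))))))) (a (b (l 3) (b (a (l 3) (a (l 3) (c (c (l 308868623927) (l 311016109415)) (c (l 314237337047) (l 322827198775))))) (a (a (l 3) (c (l 337859654967) (l 342691476023))) (c (c (a (l 283635689783) (l 16816016)) (l 237464790935)) (a (c (l 293299363143) (l 300815516695)) (c (l 16817520) (l 16767512))))))) (b (b (a (l 3) (c (a (c (l 327659104439) (l 318532301095)) (c (l 16814400) (l 256255271015))) (a (c (b (l 338933398359) (l 291688753911)) (b (l 342691463223) (l 281488163927))) (c (l 263771464871) (b (l 272361352247) (l 16806664)))))) (a (a (c (c (l 332490943431) (l 333564687255)) (c (l 335175302343) (l 341080810599))) (c (c (l 279340722839) (l 283635692103)) (c (b (l 308868627527) (l 16817512)) (b (l 316921635751) (l 244444083607))))) (c (c (l 16815160) (l 16815856)) (c (l 16816696) (l 241759724439))))) (a (c (b (c (l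 245517852439) (l 245517852295)) (l 16815824)) (b (a (c (l 243907234471) (l 241222865927)) (l 16806896)) (l 16810576))) (c (l 16815248) (l 16805120)))))), by decide +kernel⟩

def k5_pm_102 : ∃ t, chk3 f_pm_102 t 57 69 1 = true :=
  ⟨(b (a (b (a (l 3) (c (b (l 426443352071) (a (l 394767968455) (l 268066425767))) (c (b (l 400136681175) (a (l 371682523063) (l 277193237159))) (b (l 383493675399) (a (b (l 3) (a (l 368461300855) (l 298668063303))) (b (a (l 353428915031) (l 16807816)) (l 16817936))))))) (c (c (a (b (l 375440614775) (l 258402754727)) (l 16804072)) (a (b (l 361481973303) (a (l 277730107527) (l 16815592))) (l 241759752935))) (b (a (a (c (l 374366877959) (l 360945108167)) (c (l 302963041175) (b (l 352355152583) (a (l 303499899591) (l 16818440))))) (c (l 253570915191) (a (b (l 272898246471) (l 16817672)) (l 16816952)))) (a (a (c (b (l 325511625047) (l 16817080)) (b (a (l 336249046519) (l 289541213543)) (l 264308278711))) (c (l 16816584) (l 16817728))) (l 16815824))))) (b (a (c (c (l 255718396071)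 (l 262160847335)) (c (b (l 280414461303) (l 16815800)) (b (a (b (l 369535042055) (l 278803852743)) (l 16817456)) (l 16816672)))) (c (l 16814360) (l 16809712))) (c (l 16814096) (a (l 16814568) (l 16812720))))) (a (c (b (a (b (l 16815088) (l 16814888)) (l 16814424)) (l 16814360)) (b (a (c (l 16815688) (l 16795288)) (l 16814200)) (l 16812960))) (c (l 16813456) (l 16789352)))), by decide +kernel⟩

def k6_pm_102 : ∃ t, chk3 f_pm_102 t 28 35 1 = true :=
  ⟨(b (a (b (c (c (a (b (a (b (l 251960308855) (l 16816848)) (l 16816280)) (l 16816824)) (l 16815704)) (a (b (a (b (l 249812826503) (l 16817216)) (l 16816448)) (l 16816336)) (l 16814752))) (c (a (b (a (b (l 247665333335) (l 16808032)) (l 16816712)) (l 16807736)) (l 16813808)) (a (b (a (b (l 229411613591) (l 16745160)) (l 16759680)) (l 16748224)) (l 16776112)))) (c (a (l 16795496) (l 16814952)) (a (l 16769056) (l 16790992)))) (a (b (b (l 16791488) (l 16811280)) (l 16809512)) (b (l 16809400) (l 16806904)))) (b (a (c (l 16815656) (l 16769912)) (a (l 16807056)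 (l 16805952))) (a (c (l 16815528) (l 16762488)) (l 16806688)))), by decide +kernel⟩

def k7_pm_102 : ∃ t, chk3 f_pm_102 t 29 8 1 = true :=
  ⟨(a (b (l 3) (a (b (b (b (b (l 3) (a (l 3) (c (l 397989193415) (b (l 3) (a (l 403894777751) (l 297057458279)))))) (b (a (c (l 298131182791) (c (l 308868624871) (b (l 388862393703) (a (l 308868627783) (l 16817072))))) (c (l 16814584) (c (l 16815352) (l 268066425911)))) (c (l 16814192) (c (l 16793344) (a (l 16794656) (l 16813280)))))) (b (c (l 16813296) (b (l 16791120) (l 16788832))) (l 16809440))) (b (b (l 16806864) (l 16805904)) (l 16793280))) (b (b (c (b (b (l 326048464359) (l 236927921351)) (l 16812248)) (c (b (b (l 328195949607) (l 282025058103)) (l 16810856)) (b (b (a (l 360408229943) (l 311552960247)) (a (b (l 321753517095) (l 16814872)) (l 16810776))) (b (l 16790120) (l 16808888))))) (b (l 16788256) (l 16806728))) (b (l 16796936) (l 16780216))))) (b (b (l 3) (b (l 3) (b (a (l 3) (b (l 3) (a (c (l 355576366663) (l 365240032391)) (c (l 305647356663)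 (b (l 336785879175) (l 289004357895)))))) (c (a (b (l 348597052391) (l 307794848535)) (b (l 280951291527) (l 16780520))) (a (c (b (l 352892020247) (l 306721111655)) (b (a (l 3) (l 355039501879)) (a (l 335712144951) (l 284172530519)))) (b (a (b (l 328195941143) (l 16802184)) (l 16798376)) (l 16788416))))))) (b (a (b (b (c (b (l 16786080) (l 16807080)) (b (a (l 266992665895) (l 16803776)) (l 16783504))) (c (l 16807328) (l 16802344))) (b (l 16783080) (l 16797296))) (b (b (c (l 16801424) (l 16775648)) (l 16777144)) (l 16750448))) (c (l 16822232) (l 16818712))))), by decide +kernel⟩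

def k8_pm_102 : ∃ t, chk3 f_pm_102 t 15 16 1 = true :=
  ⟨(a (b (a (l 3) (a (l 3) (l 6))) (b (a (b (a (l 3) (b (l 3) (a (l 3) (c (l 348060150855) (l 373829931991))))) (a (b (l 3) (a (l 3) (c (l 331954011063) (b (l 377588057799) (l 345375795175))))) (b (a (c (l 340007091287) (l 360408184103)) (c (l 299204888247) (b (l 341080819639) (l 16789816)))) (a (c (l 287393731847) (b (l 303499858759) (l 16791448))) (c (l 16790976) (l 16788472)))))) (a (b (b (a (l 3) (l 6)) (a (c (l 318532236503) (b (l 345375770535) (l 300278624919))) (c (l 16777344) (b (l 6) (l 16785248))))) (a (b (c (l 16789208) (l 16787088)) (l 16766024)) (b (l 16775048) (l 16784344)))) (b (l 6) (b (l 6) (l 16761568))))) (a (b (a (b (a (c (l 325511575431) (b (l 357186968263) (l 326048446295))) (c (l 16795424) (b (l 285246250999) (l 16793320)))) (c (l 16785920) (a (l 16785424) (l 16792048)))) (c (l 16791552) (b (l 16767424) (l 16786672)))) (a (c (l 16796048) (l 16775784)) (c (l 16791664) (l 16785072)))) (a (b (c (l 16787816) (a (l 16761896)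 (l 16781280))) (l 16785984)) (c (l 16780880) (l 16780944)))))) (b (l 6) (a (b (l 6) (a (c (l 16767760) (l 16773024)) (l 6))) (l 6)))), by decide +kernel⟩

def k9_pm_102 : ∃ t, chk3 f_pm_102 t 15 17 1 = true :=
  ⟨(b (a (c (a (b (b (l 16795104) (l 16787640)) (l 16771968)) (b (l 16767720) (l 16752200))) (a (b (b (a (l 16788952) (l 16784952)) (l 16787592)) (l 16782128)) (b (l 16775800) (l 16760896)))) (b (a (b (c (l 16726792) (l 16753816)) (c (l 16718184) (l 16745976))) (l 6)) (a (c (l 16684288) (c (l 16711344) (l 16716104))) (a (c (l 16705152) (l 16712896)) (l 6))))) (c (a (a (b (l 16753640) (l 16740712)) (b (l 16713944) (l 16717864))) (a (b (l 16688160) (l 16692208)) (b (a (l 16688528) (l 16673984)) (a (l 16671896) (l 16657768))))) (a (a (l 16759808) (l 16707008)) (a (c (l 16667640) (l 16674664)) (b (a (l 16698496) (l 16683536)) (l 16635480)))))), by decide +kernel⟩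

def k10_pm_102 : ∃ t, chk3 f_pm_102 t 6 9 1 = true :=
  ⟨(b (a (a (b (a (l 3) (b (l 3) (c (l 286319646759) (l 295983264871)))) (b (c (a (l 266992345111) (l 116131664263)) (a (l 283098343767) (l 16559472))) (c (l 16622464) (l 16569120)))) (a (b (b (l 3) (c (b (l 282561674071) (l 16642136)) (b (l 292225196887) (l 16570648)))) (b (c (l 16647224) (l 16585160)) (l 16630744))) (b (b (b (l 3) (c (l 277192943559) (l 286319665703))) (c (b (l 155323323447) (l 16668712)) (b (l 16591080) (l 16599456)))) (b (c (l 16672512) (l 16613064)) (l 16655792))))) (b (a (b (c (a (b (b (l 299204719111) (l 207936737431)) (a (l 16689920) (l 16705448))) (b (a (l 189683200823) (l 16742352)) (l 16729104))) (a (b (l 278266664727) (l 16616272)) (b (a (l 16637656) (l 16656448)) (l 16651352)))) (c (a (b (l 16696376) (l 16696416)) (l 16725056)) (a (l 16626672) (l 16659656)))) (b (b (a (c (l 16767616) (l 16685080)) (c (l 16799600) (l 16722856))) (a (l 16744376) (l 16755360))) (a (b (l 16722488) (l 16722912)) (l 16750400)))) (b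 (a (a (l 16670176) (l 16698256)) (a (l 16724696) (l 16748272))) (a (a (l 16681512) (l 16706200)) (l 16740224))))) (a (b (b (a (l 16612880) (l 16658336)) (a (l 16630672) (l 16735624))) (b (a (l 16647584) (l 16686240)) (a (l 16662440) (l 16699192)))) (a (b (b (l 16703928) (l 16714800)) (l 16753344)) (b (b (l 16746488) (l 16754544)) (l 16759752))))), by decide +kernel⟩

def k11_pm_102 : ∃ t, chk3 f_pm_102 t 7 9 1 = true :=
  ⟨(b (a (a (b (a (b (c (l 16813496) (l 16755200)) (l 16772832)) (b (l 16797088) (l 16782424))) (b (l 16814592) (l 16765176))) (a (b (a (l 16833704) (l 16822400)) (l 16747512)) (b (c (l 16744240) (l 16754896)) (l 16684488)))) (b (a (a (c (l 16678744) (l 16733424)) (c (l 16653704) (l 16710728))) (c (a (l 16607000) (b (l 16628712) (l 16635648))) (a (l 16644328) (b (l 16643704) (l 16652568))))) (c (a (a (l 16696576) (l 16669104)) (a (l 16620448) (l 16551256))) (a (a (l 16711304) (l 16665960)) (a (l 16640408) (l 16592952)))))) (b (a (c (a (l 16749664) (a (l 16719128) (l 16696568)))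 (a (l 16757400) (l 16720800))) (a (c (a (l 16630120) (l 16602272)) (a (l 16690552) (l 16666664))) (c (a (l 16509448) (b (l 16592408) (l 16578056))) (a (l 16576728) (l 16528376))))) (a (a (c (l 16727840) (l 16731592)) (c (l 16686392) (l 16695592))) (a (c (l 16553272) (l 16654880)) (c (a (l 16593832) (l 16563232)) (a (l 16616136) (l 16586976))))))), by decide +kernel⟩

def k12_pm_102 : ∃ t, chk3 f_pm_102 t 1 5 1 = true :=
  ⟨(a (a (b (b (b (a (l 2) (b (a (l 2) (l 16555072)) (l 2))) (l 2)) (l 2)) (l 2)) (b (b (b (a (b (a (l 16571208) (l 16590400)) (a (l 16588576) (l 16606960))) (a (b (l 16614888) (l 16629392)) (b (l 16643504) (l 16656144)))) (b (a (a (l 16602984) (l 16619736)) (a (l 16640456) (l 16667416))) (a (a (a (l 2) (l 16614352)) (l 16710576)) (a (b (l 16647288) (l 16650208)) (l 16676024))))) (a (a (l 16636544) (l 16654312)) (a (l 16677304) (l 16705728)))) (a (b (l 16802408) (l 2)) (a (l 16739744) (l 16737384))))) (a (a (b (c (b (b (l 16753504) (b (l 16727216) (l 16858816))) (l 16743664))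 (b (b (l 16729472) (b (l 16707280) (l 16802328))) (l 16743464))) (a (l 16712872) (l 16683600))) (a (b (b (b (l 16753224) (b (l 16751208) (l 16739184))) (l 16691496)) (l 16652552)) (b (b (b (l 16740208) (b (l 16721792) (l 16708592))) (l 16659736)) (b (l 16639768) (l 16600816))))) (b (a (b (b (a (l 16705104) (c (l 16644832) (l 16647448))) (a (b (l 16686712) (l 16720800)) (b (l 16606952) (b (l 16639680) (l 16570152))))) (a (l 16603952) (c (l 16608648) (l 16610640)))) (b (b (a (a (l 16592888) (l 16547336)) (c (a (l 16576680) (l 16546904)) (l 16491752))) (a (b (l 16542816) (b (l 16597008) (l 16485920))) (b (a (l 16566784) (l 16538128)) (b (l 16502448) (c (l 16536832) (l 16541696)))))) (a (c (l 16564216) (l 16573224)) (a (l 16489392) (l 16399720))))) (a (a (c (l 16522128) (l 16545624)) (c (l 16378416) (l 16472544))) (a (c (b (l 16522472) (l 16482896)) (l 16397920)) (c (b (l 16471752) (l 16433072)) (a (l 16451456) (l 16407680)))))))), by decide +kernel⟩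

def k13_pm_102 : ∃ t, chk3 f_pm_102 t 1 3 1 = true :=
  ⟨(a (a (l 2) (b (a (l 2) (b (c (l 16700336) (l 16679520)) (l 2))) (l 2))) (a (b (a (b (a (l 16645368) (l 16612784)) (b (l 16582864) (l 2))) (a (b (l 16579728) (l 16515912)) (b (l 16546208) (l 16480776)))) (a (l 2) (b (b (l 16455264) (l 2)) (l 2)))) (b (a (a (b (c (l 16510520) (l 16515696)) (l 16445712)) (b (c (l 16450160) (l 16487888)) (c (l 16405848) (l 16422896)))) (b (b (a (l 16458912) (c (l 16396424) (l 16440248))) (a (l 16425408) (c (l 16297024) (l 16410600)))) (a (c (l 16362136) (l 16399448)) (c (b (l 16135344) (l 16036344)) (b (l 16378432) (l 16342448)))))) (b (a (a (l 16387360) (c (l 16350824) (l 16361120))) (a (c (a (l 16317984) (l 16102648)) (l 16336224)) (c (b (l 16062056) (l 16213408)) (b (l 16301320) (l 16255656))))) (a (a (l 2) (l 16301128)) (a (c (a (l 16333392) (l 16278816)) (b (l 16288760) (l 16255264))) (c (l 16293976) (l 16192016)))))))), by decide +kernel⟩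

theorem s14_pm_102 : ∃ t, chk3 f_pm_102 t 3 9 1 = true := ex3_a k10_pm_102 k11_pm_102

theorem s15_pm_102 : ∃ t, chk3 f_pm_102 t 15 8 1 = true := ex3_b k8_pm_102 k9_pm_102

theorem s16_pm_102 : ∃ t, chk3 f_pm_102 t 28 69 1 = true := ex3_a k4_pm_102 k5_pm_102

theorem s17_pm_102 : ∃ t, chk3 f_pm_102 t 28 34 1 = true := ex3_b k3_pm_102 s16_pm_102

theorem s18_pm_102 : ∃ t, chk3 f_pm_102 t 28 17 1 = true := ex3_b s17_pm_102 k6_pm_102

theorem s19_pm_102 : ∃ t, chk3 f_pm_102 t 28 8 1 = true := ex3_b k2_pm_102 s18_pm_102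

theorem s20_pm_102 : ∃ t, chk3 f_pm_102 t 14 8 1 = true := ex3_a s19_pm_102 k7_pm_102

theorem s21_pm_102 : ∃ t, chk3 f_pm_102 t 7 8 1 = true := ex3_a s20_pm_102 s15_pm_102

theorem s22_pm_102 : ∃ t, chk3 f_pm_102 t 3 8 1 = true := ex3_a k1_pm_102 s21_pm_102

theorem s23_pm_102 : ∃ t, chk3 f_pm_102 t 3 4 1 = true := ex3_b s22_pm_102 s14_pm_102

theorem s24_pm_102 : ∃ t, chk3 f_pm_102 t 1 4 1 = true := ex3_a k0_pm_102 s23_pm_102

theorem s25_pm_102 : ∃ t, chk3 f_pm_102 t 1 2 1 = true := ex3_b s24_pm_102 k12_pm_102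

theorem s26_pm_102 : ∃ t, chk3 f_pm_102 t 1 1 1 = true := ex3_b s25_pm_102 k13_pm_102

theorem c_pm_102 : CertB 536870912 536870912 0 536870912 858993459 64424510 3 eng mog cd0q1 cd1q0 pd2 true true false .npp 1 0 2
    ndB0q1 ndB1q0 pcB2 cut_pm_102 Ext.none :=
  certB1 (fam := true) (s1 := true) (s2 := false) (a := 1) (b := 0) (c := 2) (cn := .npp) (n1 := ndB0q1) (n2 := ndB1q0) (pc := pcB2) (cut := cut_pm_102) (xt := Ext.none) (P1 := 536870912) (W1 := 536870912) (P2 := 0) (W2 := 536870912) (P3 := 858993459) (W3 := 64424510) (N0 := 3) (En := eng) (mo := mog) (C1 := cd0q1) (C2 := cd1q0) (C3 := pd2)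
    rfl (fun _ => rfl) s26_pm_102

noncomputable def f_pm_112 : ℕ → ℕ → ℕ → ℕ → Bool := onCell 536870912 536870912 1073741824 536870912 858993459 64424510
    (rowB 3 eng mog cd0q1 cd1q1 pd2 1 true true false .dn 1 1 2 (qsf 536870912 536870912 536870912 536870912 2) ndB0q1 ndB1q1 pcB2 Cut.none Ext.none)

def k0_pm_112 : ∃ t, chk3 f_pm_112 t 1 4 1 = true :=
  ⟨(a (b (l 3) (b (a (l 3) (l 1)) (b (a (l 3) (l 1)) (b (a (b (l 3) (a (l 3) (a (l 3) (a (l 3) (c (c (c (c (a (l 127405235943) (l 244845738599)) (l 16368656)) (l 16439864)) (l 16548032)) (c (l 16523872) (l 16350840))))))) (l 1)) (a (a (l 3) (c (c (c (a (c (a (l 126331571959) (b (l 16340552) (l 16339760))) (l 16413544)) (c (a (b (l 144585128343) (l 16330952)) (b (l 10770031223) (l 16321936))) (a (l 16378816) (l 16369376)))) (a (l 133848028263) (c (l 16422248) (l 16469736)))) (a (l 16546520) (l 16497256))) (c (a (l 232632448167) (l 16533368)) (a (a (l 200419602151) (l 214378266663)) (a (l 227263194007) (l 16299496)))))) (b (l 1) (a (a (a (c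 (c (c (l 242161408663) (l 16432280)) (l 16556504)) (l 16325640)) (l 1)) (l 1)) (l 1)))))))) (l 1)), by decide +kernel⟩

def k1_pm_112 : ∃ t, chk3 f_pm_112 t 4 40 1 = true :=
  ⟨(c (a (b (c (c (a (a (l 3) (l 118278632407)) (c (a (l 16362904) (l 16355240)) (l 16406240))) (a (l 16500208) (l 16477320))) (a (l 16569304) (l 16564080))) (a (c (c (c (a (l 16373136) (l 16366552)) (l 16415544)) (l 16484824)) (l 16559696)) (c (c (c (a (l 16359960) (l 16353272)) (l 16403536)) (l 16453736)) (l 16576464)))) (c (c (b (c (a (a (l 16347496) (l 16339648)) (a (l 16331552) (l 16323112))) (a (l 16391352) (l 16375304))) (a (c (b (l 16343072) (l 16342552)) (l 16390552)) (c (a (l 16331976) (l 16324240)) (l 16376032)))) (b (a (l 16463496) (l 16447904)) (a (l 16462920) (l 16448920)))) (a (b (l 16558944) (l 16592408)) (c (l 16479848) (l 16590520))))) (a (c (a (b (l 217063072183) (l 16453328)) (b (l 245517391607) (l 16543400))) (a (b (c (l 16411936) (l 235853152007)) (c (l 16426472) (l 177871151287))) (b (a (l 185387094407)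 (l 16209288)) (c (l 16430104) (l 16327264))))) (a (b (c (l 16536352) (c (l 16423240) (l 195587849543))) (c (l 16553496) (l 16347448))) (b (c (l 16551400) (c (l 16442680) (l 16334360))) (a (l 16287304) (l 16318632)))))), by decide +kernel⟩

def k2_pm_112 : ∃ t, chk3 f_pm_112 t 4 41 1 = true :=
  ⟨(b (c (a (a (c (c (b (c (l 16366472) (l 16411808)) (l 16386336)) (l 16458464)) (l 16568856)) (c (c (b (l 16377640) (l 16375632)) (l 16450112)) (l 16584224))) (c (c (a (b (l 16365360) (l 16364016)) (b (l 16351696) (l 16350944))) (a (l 16460872) (l 16448280))) (a (l 16597472) (l 16566560)))) (a (a (c (l 16510824) (c (l 16444152) (l 16348656))) (c (l 16558600) (l 16356520))) (a (c (l 16568136) (l 16384096)) (c (l 16581712) (l 16398496))))) (b (c (a (c (a (c (c (l 16360896) (l 16405712)) (l 16474192)) (c (l 16373128) (l 16466976))) (c (l 16563288) (l 16613840))) (c (a (c (c (l 16338656) (l 16385784)) (l 16457832)) (c (c (l 16325216) (l 16372768)) (l 16445552))) (a (l 16596768) (l 16586968)))) (a (a (c (l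 16562080) (l 16369688)) (c (l 16568000) (l 16369192))) (a (c (l 16577448) (l 16374824)) (c (l 16590216) (l 16408856))))) (c (a (c (c (a (l 16379760) (b (l 16370952) (c (l 16346264) (l 16392200)))) (a (l 16470240) (b (l 16464512) (l 16462472)))) (a (l 16603640) (l 16537432))) (a (c (a (b (l 16410144) (l 16407552)) (b (l 16404304) (l 16401232))) (l 16551736)) (c (c (b (l 16345536) (l 16363304)) (l 16440728)) (l 16582800)))) (a (a (c (l 16567624) (l 16420672)) (c (l 16573296) (l 16377880))) (a (c (l 16581784) (l 16403848)) (c (l 16593240) (l 16415984))))))), by decide +kernel⟩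

def k3_pm_112 : ∃ t, chk3 f_pm_112 t 4 21 1 = true :=
  ⟨(c (a (c (c (a (c (l 16341960) (l 16385008)) (c (l 16333112) (l 16377944))) (a (l 16451136) (l 16446792))) (a (l 16521624) (l 16501384))) (c (c (a (c (l 16322080) (l 16368224)) (c (l 16308744) (l 16355808))) (a (l 16439128) (l 16428152))) (a (l 16518640) (l 16469144)))) (a (c (a (l 16549200) (l 16555992)) (a (a (l 16463872) (l 16462136)) (l 16356472))) (c (a (l 16606256) (l 16597144)) (a (l 16422016) (l 16429776))))), by decide +kernel⟩

def k4_pm_112 : ∃ t, chk3 f_pm_112 t 5 10 1 = true :=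
  ⟨(a (b (a (b (b (a (c (c (c (c (l 230350234407) (l 16362056)) (l 16434608)) (l 16565616)) (c (l 16565200) (l 16412000))) (l 1)) (c (c (c (a (c (l 16316080) (l 16363848)) (l 275447434503)) (l 44593282615)) (l 16507520)) (c (l 16585712) (l 16410760)))) (b (c (c (a (c (b (l 16340240) (l 16339560)) (l 16436656)) (c (b (l 16331864) (l 16330616)) (l 16427600))) (l 16490080)) (c (l 16598568) (l 16443024))) (b (c (c (c (a (l 16336672) (l 16326976)) (l 16429112)) (l 16572544)) (c (l 16605784) (l 16451688))) (c (c (a (c (b (l 16332600) (l 16329352)) (l 16428168)) (c (b (l 16323016) (l 16319768)) (l 16418584))) (l 16505168)) (c (l 16608272) (l 16457648)))))) (a (b (l 1) (b (l 1) (c (c (b (l 1) (c (b (l 1) (l 204043539143)) (l 16407472))) (l 16450304)) (l 320544572007)))) (l 1))) (c (c (c (a (c (a (l 16296968) (l 16288288)) (l 16340720)) (c (a (l 16278200) (l 156261974567)) (l 125660496823))) (a (l 16497752) (l 125123827703))) (a (c (l 16513520) (l 16606920)) (l 16293672))) (c (c (l 16603752) (l 16626048))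 (a (l 16422976) (l 16443784))))) (a (a (b (l 1) (c (c (c (l 223907734199) (l 16371784)) (l 16400616)) (l 264173253287))) (l 1)) (l 1))), by decide +kernel⟩

def k5_pm_112 : ∃ t, chk3 f_pm_112 t 2 11 1 = true :=
  ⟨(a (c (a (c (a (c (l 16421448) (l 16394616)) (c (b (l 16328104) (l 16298776)) (l 16376072))) (a (b (l 16541824) (l 16491648)) (b (l 16549488) (l 16505208)))) (a (c (c (b (l 16321640) (l 16296152)) (l 16396928)) (b (l 16552992) (l 16515256))) (c (c (b (l 16312568) (l 16290800)) (l 16435280)) (c (l 16488744) (l 16586752))))) (a (c (a (l 16506328) (l 16520464)) (a (l 16333384) (b (l 16533640) (l 16598328)))) (a (b (l 16355552) (l 16531040)) (c (l 16593384) (l 16360808))))) (c (a (b (c (a (c (c (l 16277936) (l 16324504)) (l 16396528)) (c (c (l 16260456) (l 16307840)) (l 16381216))) (a (l 16463120) (l 16409576))) (c (a (c (l 16283064) (l 16375120)) (c (l 16269816) (l 16364680))) (c (l 16343112) (l 16571824)))) (c (c (c (a (b (l 124049698023) (l 16222584)) (b (l 159483082871) (l 109554078919)))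 (a (b (l 16280736) (l 16270128)) (l 126734135959))) (a (b (l 16355600) (l 16343904)) (b (l 160557122583) (l 16313088)))) (c (a (l 79489834327) (l 127808099479)) (a (l 16563264) (l 16429424))))) (a (c (b (l 16498976) (l 16613816)) (a (b (l 16515312) (l 16597896)) (c (l 16607784) (l 16512184)))) (c (a (l 16500344) (l 129418809143)) (c (a (l 16597816) (l 16649616)) (a (l 16510544) (l 16515240))))))), by decide +kernel⟩

def k6_pm_112 : ∃ t, chk3 f_pm_112 t 3 5 1 = true :=
  ⟨(a (a (a (b (l 1) (b (l 1) (c (c (c (l 160019928183) (l 159483274695)) (l 176126027031)) (c (l 16642848) (l 80026835319))))) (l 1)) (l 1)) (l 1)), by decide +kernel⟩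

def k7_pm_112 : ∃ t, chk3 f_pm_112 t 4 3 1 = true :=
  ⟨(b (c (a (b (c (a (l 16384064) (c (l 16252176) (l 16319760))) (a (l 16218488) (l 16197560))) (c (a (l 16199560) (l 16210608)) (a (l 16283536) (l 16312504)))) (a (c (b (c (l 16254808) (l 16328544)) (l 16243432)) (b (l 16195256) (l 16340528))) (c (b (c (l 16254976) (l 16334248)) (l 16254200)) (b (l 16230800) (l 16365960))))) (a (b (c (a (l 16547224) (l 16583992)) (b (l 16636720) (l 16648888))) (c (a (l 16273592) (l 16301168)) (a (l 16483720) (l 16553080)))) (b (c (a (l 16617152) (l 16645464)) (b (l 16587816) (l 16718696))) (c (a (l 16472840) (l 16514296)) (a (l 16618352) (l 16678104)))))) (a (a (b (c (l 16157840) (b (l 16271760) (l 16163392))) (c (l 16039104) (l 16001792))) (b (c (l 16265480) (b (l 16296488) (l 16233768))) (c (l 16063128) (l 15885808)))) (b (c (c (a (l 16150936) (l 16168048)) (a (l 16223808) (l 16258248))) (c (a (l 16307680) (l 16360976)) (b (l 16494512) (l 16300256)))) (c (a (l 16091512) (l 16353160)) (a (b (l 16200712)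 (l 16096648)) (c (l 16194896) (l 16254080))))))), by decide +kernel⟩

def k8_pm_112 : ∃ t, chk3 f_pm_112 t 5 3 1 = true :=
  ⟨(b (c (a (a (c (b (c (l 16252744) (l 16336768)) (l 16304168)) (b (l 16219912) (l 16387280))) (c (b (c (l 16245160) (l 16333456)) (l 16369896)) (b (l 16223232) (l 16402128)))) (c (b (a (c (b (l 16233992) (l 16220160)) (l 16319920)) (c (b (l 16205032) (l 16195304)) (l 16296392))) (c (a (l 16197376) (l 16178792)) (a (l 16278120) (l 16264384)))) (b (a (c (l 16417248) (l 16519248)) (b (l 16416464) (l 16438224))) (c (l 16548128) (l 16282040))))) (b (a (a (b (l 16575128) (l 16616064)) (b (l 16487176) (l 16624688))) (c (c (l 16618480) (l 16718648)) (c (a (l 16656240) (l 16625960)) (b (l 16489680) (l 16456184))))) (a (c (c (l 16373152) (l 16607136)) (a (l 16723504) (l 16701456))) (a (b (l 16567888) (l 16621144)) (c (l 16563152) (l 16469416)))))) (c (a (b (c (a (l 16183696) (l 16194520)) (a (l 16290032) (l 16316008))) (a (c (l 16125240) (l 16185344)) (c (l 16143936) (l 16222088))))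 (c (b (a (l 16196576) (l 16189848)) (a (l 16155192) (l 16158592))) (b (a (l 16332280) (l 16337288)) (a (l 16250440) (l 16268208))))) (a (b (c (a (l 16409416) (l 16449744)) (b (l 16613200) (l 16437528))) (a (c (l 16255392) (l 16335344)) (c (l 16310248) (l 16407616)))) (b (c (a (l 16477840) (l 16490064)) (a (l 16549856) (l 16553160))) (c (a (l 16354920) (l 16384512)) (a (l 16464568) (l 16494896))))))), by decide +kernel⟩

def k9_pm_112 : ∃ t, chk3 f_pm_112 t 6 3 1 = true :=
  ⟨(a (b (c (c (b (c (a (b (l 103648478263) (l 16164936)) (b (l 156798614263) (l 94521590615))) (a (l 102038209143) (l 120828605863))) (c (a (l 16154720) (b (l 16128512) (l 16125304))) (a (l 16243456) (l 16217040)))) (b (a (b (l 16322000) (l 16412520)) (b (l 16198160) (l 16378440))) (c (a (l 16335632) (l 16309952)) (l 16166152)))) (b (c (a (c (l 16580792) (l 16678024)) (l 16361864)) (c (a (l 16603672) (l 16589232)) (a (l 16473152) (l 16458944)))) (c (c (l 16342840) (l 16592296)) (a (l 16416776) (l 16373120))))) (c (c (b (c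 (a (l 16139632) (l 16120704)) (l 16290792)) (a (l 16155792) (l 16147936))) (b (a (l 16331816) (l 16317232)) (a (l 16275184) (l 16271960)))) (b (c (a (l 16486024) (l 16469248)) (a (l 16511648) (l 16467376))) (c (a (l 16396224) (l 16391352)) (a (l 16492032) (l 16465056)))))) (b (b (b (l 1) (a (b (l 1) (c (c (l 150356205927) (l 16335576)) (l 16391864))) (l 1))) (a (c (c (c (b (l 16095864) (l 16096808)) (l 16185776)) (a (l 16333160) (l 16335936))) (c (l 16505096) (l 16296928))) (c (c (c (b (l 146597928055) (l 16065016)) (l 16170440)) (c (l 16238920) (l 16329792))) (b (l 156261916007) (l 92911107911))))) (a (c (b (c (a (l 16143016) (l 16151968)) (l 16294792)) (c (l 16135416) (l 16259544))) (b (c (l 16444304) (l 16408384)) (c (l 16374480) (l 16402992)))) (c (b (c (c (l 16073088) (l 16149016)) (l 16328040)) (c (l 16160032) (l 16238792))) (b (c (l 16413864) (l 16357848)) (c (l 16350328) (l 16335512))))))), by decide +kernel⟩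

def k10_pm_112 : ∃ t, chk3 f_pm_112 t 7 3 1 = true :=
  ⟨(b (b (l 1) (a (a (c (c (c (l 188473905511) (l 145524423063)) (l 214244471463)) (c (l 16164256) (l 16152408))) (l 1)) (l 1))) (b (a (a (c (c (c (l 88615967767) (l 16115840)) (l 16375184)) (c (l 16379040) (l 16253840))) (c (c (c (l 126733743815) (l 16075872)) (l 114386336695)) (c (l 16342192) (l 16139280)))) (b (l 1) (a (a (a (c (l 213707296951) (l 16371776)) (l 1)) (l 1)) (l 1)))) (a (a (c (c (c (l 16066936) (l 16123688)) (l 16210376)) (c (l 16322528) (l 16272920))) (c (c (c (l 16039632) (l 16091976)) (l 16175856)) (c (l 16295248) (l 16219472)))) (c (c (a (b (a (l 16028984) (l 15998744)) (a (l 16043672) (l 16010032))) (b (l 193842685543) (c (l 15937304) (l 15966312)))) (a (b (l 102038193047) (l 16269552)) (b (l 16035984) (l 16030424)))) (a (c (b (l 16270672) (l 16243520)) (b (l 16105248) (l 16171680))) (c (c (l 16193616) (l 16209824)) (l 42981667815))))))), by decide +kernel⟩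

theorem s11_pm_112 : ∃ t, chk3 f_pm_112 t 3 3 1 = true := ex3_a k9_pm_112 k10_pm_112

theorem s12_pm_112 : ∃ t, chk3 f_pm_112 t 2 3 1 = true := ex3_a k7_pm_112 k8_pm_112

theorem s13_pm_112 : ∃ t, chk3 f_pm_112 t 1 3 1 = true := ex3_a s12_pm_112 s11_pm_112

theorem s14_pm_112 : ∃ t, chk3 f_pm_112 t 4 20 1 = true := ex3_b k1_pm_112 k2_pm_112

theorem s15_pm_112 : ∃ t, chk3 f_pm_112 t 4 10 1 = true := ex3_b s14_pm_112 k3_pm_112

theorem s16_pm_112 : ∃ t, chk3 f_pm_112 t 2 10 1 = true := ex3_a s15_pm_112 k4_pm_112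

theorem s17_pm_112 : ∃ t, chk3 f_pm_112 t 2 5 1 = true := ex3_b s16_pm_112 k5_pm_112

theorem s18_pm_112 : ∃ t, chk3 f_pm_112 t 1 5 1 = true := ex3_a s17_pm_112 k6_pm_112

theorem s19_pm_112 : ∃ t, chk3 f_pm_112 t 1 2 1 = true := ex3_b k0_pm_112 s18_pm_112

theorem s20_pm_112 : ∃ t, chk3 f_pm_112 t 1 1 1 = true := ex3_b s19_pm_112 s13_pm_112

theorem c_pm_112 : CertB 536870912 536870912 536870912 536870912 858993459 64424510 3 eng mog cd0q1 cd1q1 pd2 true true false .dn 1 1 2
    ndB0q1 ndB1q1 pcB2 Cut.none Ext.none :=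
  certB1 (fam := true) (s1 := true) (s2 := false) (a := 1) (b := 1) (c := 2) (cn := .dn) (n1 := ndB0q1) (n2 := ndB1q1) (pc := pcB2) (cut := Cut.none) (xt := Ext.none) (P1 := 536870912) (W1 := 536870912) (P2 := 536870912) (W2 := 536870912) (P3 := 858993459) (W3 := 64424510) (N0 := 3) (En := eng) (mo := mog) (C1 := cd0q1) (C2 := cd1q1) (C3 := pd2)
    rfl (fun _ => rfl) s20_pm_112

noncomputable def f_pm_113 : ℕ → ℕ → ℕ → ℕ → Bool := onCell 536870912 536870912 1610612736 536870912 858993459 64424510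
    (rowB 3 eng mog cd0q1 cd1q1 pd3 1 true true false .nn 1 1 3 (qsf 536870912 536870912 536870912 536870912 3) ndB0q1 ndB1q1 pcB3 Cut.none Ext.none)

def k0_pm_113 : ∃ t, chk3 f_pm_113 t 2 1 1 = true :=
  ⟨(b (a (b (b (a (c (a (l 15956912) (l 15978704)) (a (b (l 15846288) (l 15743216)) (l 15894184))) (c (a (l 16006152) (l 16037192)) (a (l 15974208) (b (l 16081280) (l 15982320))))) (a (a (l 2) (b (l 15928392) (l 2))) (c (a (l 15931600) (l 15961728)) (a (l 15753032) (l 15836288))))) (a (l 2) (a (l 2) (b (b (l 15807944) (l 2)) (l 2))))) (b (a (a (b (c (l 16133360) (b (l 16155848) (l 16061320))) (c (l 15996648) (l 15962768))) (b (c (l 16292056) (b (l 16227016) (l 16137488))) (c (l 16034208) (l 16254928)))) (b (c (c (a (l 16108376) (l 16122880)) (l 16364248)) (c (a (l 16218544) (l 16267904)) (a (l 16288344) (l 16355224)))) (c (a (l 16072944) (l 16110176)) (a (l 16127352) (l 16289696))))) (a (a (b (c (l 15937648) (l 15739472)) (l 2)) (b (b (l 15929640) (l 15876584)) (c (l 15945344) (l 15801608))))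 (b (c (a (l 16023312) (l 16076744)) (a (l 16066832) (l 16014800))) (c (a (l 16054536) (l 16058232)) (a (b (l 15802120) (l 15731048)) (b (l 15906616) (l 15838800)))))))) (a (l 2) (b (b (a (l 2) (a (l 2) (b (c (l 16057096) (l 15778096)) (l 2)))) (l 2)) (l 2)))), by decide +kernel⟩

def k1_pm_113 : ∃ t, chk3 f_pm_113 t 6 2 1 = true :=
  ⟨(b (c (c (a (b (a (l 16132408) (l 16136960)) (l 16284768)) (b (a (l 16136328) (l 16130120)) (a (l 16161936) (l 16169680)))) (a (b (l 16408160) (l 16198920)) (b (a (l 16223632) (l 16212232)) (l 16294744)))) (a (b (c (a (l 16301720) (l 16316256)) (a (l 16396232) (l 16404224))) (a (l 16438880) (c (l 16243264) (l 16300560)))) (b (c (a (l 16311816) (l 16292152)) (a (l 16384752) (l 16353056))) (c (a (l 16259152) (l 16251696)) (a (l 16309136) (l 16286496)))))) (a (c (b (a (l 16131208) (l 16180624)) (a (l 16142592) (l 16228088))) (b (a (l 16107328) (l 16184584)) (a (l 15992504) (l 16110792)))) (c (b (c (l 16257096) (l 16234696)) (a (l 16304632) (l 16362880))) (b (a (l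 16275040) (c (l 16242976) (l 16245408))) (a (l 16209048) (l 16266152)))))), by decide +kernel⟩

def k2_pm_113 : ∃ t, chk3 f_pm_113 t 7 2 1 = true :=
  ⟨(b (a (c (c (b (a (l 16117504) (b (l 16087512) (l 16110632))) (a (l 16169304) (b (l 16141824) (l 16182528)))) (b (a (l 16190400) (l 16286832)) (a (l 16196968) (l 16192840)))) (b (c (a (l 16263224) (l 16233032)) (a (l 16315176) (l 16254536))) (c (a (l 16226000) (l 16192792)) (a (l 16249504) (l 16221480))))) (c (b (c (a (b (l 16066072) (l 16092736)) (b (l 16048496) (l 16072296))) (a (b (l 16128424) (l 16128256)) (l 16136344))) (c (a (l 16144360) (l 16118840)) (a (l 16137712) (l 16097968)))) (b (c (c (l 16163888) (l 16210480)) (a (l 16143600) (l 16170144))) (c (a (l 16157224) (l 16118600)) (a (l 16201712) (l 16159472)))))) (a (b (c (a (c (l 16264736) (l 16243616)) (c (l 16371640) (l 16223248))) (c (a (l 16227200) (l 16191992)) (a (l 16212944) (l 16172392)))) (c (a (b (l 16350456) (l 16447792)) (b (l 16349000) (l 16455968))) (a (b (l 16248560) (l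 16298152)) (c (l 16269784) (l 16203072))))) (c (b (c (b (l 16203312) (l 16270720)) (a (l 16185112) (l 16134904))) (c (a (l 16436600) (l 16400152)) (l 16408272))) (b (c (a (l 16146440) (l 16094104)) (a (l 16135416) (l 16096048))) (c (a (l 16213784) (l 16138976)) (a (l 16142304) (l 16070888))))))), by decide +kernel⟩

def k3_pm_113 : ∃ t, chk3 f_pm_113 t 3 3 1 = true :=
  ⟨(a (b (b (a (b (a (l 16042744) (l 16183256)) (a (c (l 16191624) (l 15872376)) (l 16210960))) (b (c (l 16473864) (l 16283416)) (a (l 16392152) (c (l 16681936) (l 16415736))))) (a (b (a (l 2) (c (l 16446600) (l 16058048))) (l 2)) (b (a (l 16398704) (c (l 16691376) (l 16546752))) (a (c (l 16556456) (l 16388176)) (c (l 16629480) (l 16456344)))))) (a (l 2) (b (b (a (l 2) (b (c (l 16640200) (l 16491856)) (l 2))) (l 2)) (l 2)))) (b (b (a (b (a (c (l 16583424) (l 16380736)) (c (l 16606528) (l 16365472))) (a (c (l 16774296) (l 16507464)) (c (l 16819240) (l 16520040)))) (c (b (a (l 16591512) (l 16541040)) (a (l 16822360) (l 16780688)))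 (b (a (l 16299552) (l 16197816)) (a (l 16460688) (l 16339120))))) (a (b (a (c (l 16757840) (l 16696872)) (c (l 16803584) (l 16755680))) (a (c (l 16715280) (l 16652128)) (c (l 16741720) (l 16770168)))) (b (c (a (l 16855768) (l 16934000)) (a (l 16720712) (l 16578472))) (a (c (l 16786272) (l 16891328)) (c (l 16870920) (l 16768960)))))) (a (a (b (b (b (l 16506592) (l 16532104)) (c (l 16515656) (l 16246376))) (l 2)) (b (b (b (l 16602720) (l 16629728)) (b (l 16542424) (l 398458404327))) (b (b (l 389331444711) (l 2)) (l 2)))) (a (b (b (b (l 16774536) (l 16753784)) (l 16729272)) (b (b (l 16706448) (b (l 16694528) (l 16681600))) (a (l 2) (l 4)))) (b (b (l 16653432) (l 16852392)) (b (b (l 16811304) (l 16727832)) (l 4))))))), by decide +kernel⟩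

theorem s4_pm_113 : ∃ t, chk3 f_pm_113 t 3 2 1 = true := ex3_a k1_pm_113 k2_pm_113

theorem s5_pm_113 : ∃ t, chk3 f_pm_113 t 3 1 1 = true := ex3_b s4_pm_113 k3_pm_113

theorem s6_pm_113 : ∃ t, chk3 f_pm_113 t 1 1 1 = true := ex3_a k0_pm_113 s5_pm_113

theorem c_pm_113 : CertB 536870912 536870912 536870912 536870912 858993459 64424510 3 eng mog cd0q1 cd1q1 pd3 true true false .nn 1 1 3
    ndB0q1 ndB1q1 pcB3 Cut.none Ext.none :=
  certB1 (fam := true) (s1 := true) (s2 := false) (a := 1) (b := 1) (c := 3) (cn := .nn) (n1 := ndB0q1) (n2 := ndB1q1) (pc := pcB3) (cut := Cut.none) (xt := Ext.none) (P1 := 536870912) (W1 := 536870912) (P2 := 536870912) (W2 := 536870912) (P3 := 858993459) (W3 := 64424510) (N0 := 3) (En := eng) (mo := mog) (C1 := cd0q1) (C2 := cd1q1) (C3 := pd3)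
    rfl (fun _ => rfl) s6_pm_113

end Pool.Agent.Strip051.G.I8000_8600.Tab.C.BA01

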