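import Pool.Agent.Strip051.G.I8000_8600.Tab
import Pool.Agent.Strip051.PB.ExtD2

/-! # Certificates B5 (generated) -/

set_option linter.all false
set_option maxRecDepth 100000

namespace Pool.Agent.Strip051.G.I8000_8600.Tab.C.BA01

open Pool.Agent.Strip051.PB Pool.Agent.Strip051.PB.T
open Pool.Agent.Strip051.G.I8000_8600.Tab

noncomputable def cut_pm_123_a : Cut := Cut.of [[⟨0, 1, 0, 67108864⟩, ⟨1, 1, 0, 67108864⟩, ⟨2, 2, 0, 16777216⟩], [⟨0, 0, 1, 20971520⟩, ⟨1, 1, 0, 16777216⟩, ⟨2, 1, 1, 20971520⟩]]

noncomputable def xt_pm_123_a : Ext := extD2 3 ⟨4, 1, 1, 5, 3, 1, 9, 10, 43, 100, 1, 8⟩ eng cd0q1 cd1q2a pd3 true true false .npn 1 2 3 rfl ndB0q1 ndB1q2a pcB3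

noncomputable def f_pm_123_a : ℕ → ℕ → ℕ → ℕ → Bool := onCell 1610612736 536870912 0 536870912 858993459 64424510
    (rowB 3 eng mog cd0q1 cd1q2a pd3 2 true true false .npn 1 2 3 (qsf 536870912 536870912 0 536870912 3) ndB0q1 ndB1q2a pcB3 cut_pm_123_a xt_pm_123_a)

def k0_pm_123_a : ∃ t, chk3 f_pm_123_a t 2 2 1 = true :=
  ⟨(a (a (l 1) (a (l 1) (a (l 1) (b (l 1) (b (l 1) (l 16492256)))))) (c (a (b (a (b (l 16532504) (c (l 16490408) (l 16520840))) (b (l 16573616) (l 16548944))) (a (b (l 16517920) (l 16503936)) (b (l 16536592) (l 16506320)))) (b (a (b (l 16607712) (l 16580656)) (b (l 16632872) (l 16603896))) (b (a (l 16554496) (l 16564448)) (a (l 16511272) (l 16525304))))) (a (b (a (b (l 16553808) (b (l 16536200) (l 16527512))) (b (l 16577960) (b (l 16558416) (l 16545736)))) (a (b (l 16514832) (l 16486592)) (b (l 16523504) (l 16486448)))) (b (a (b (l 16591904) (l 16562968)) (b (l 16608720) (l 16578232))) (b (a (l 16530920) (l 16544768)) (a (l 16492432) (l 16505360))))))), by decide +kernel⟩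

def k1_pm_123_a : ∃ t, chk3 f_pm_123_a t 4 3 1 = true :=
  ⟨(b (a (l 1) (b (a (l 1) (c (l 16451848) (l 16446112))) (a (c (b (l 16397800) (l 16455024)) (b (l 16409000) (l 16366520))) (c (b (l 16395152) (l 16349368)) (l 16374024))))) (a (a (b (l 1) (b (a (l 1) (c (l 16214728) (l 16220320))) (b (c (c (l 16202008) (l 16170944)) (l 16188528)) (c (a (c (l 16155448) (l 16141512)) (c (l 16150112) (l 16132712))) (a (l 16131376) (l 16116760)))))) (c (b (b (a (l 1) (l 16302352)) (l 16362840)) (a (b (l 16230048) (b (l 16166272) (l 16156032))) (b (l 16204976) (b (l 16162008) (l 16130800))))) (b (b (l 16334176) (c (l 16266032) (l 16280920))) (b (b (l 16220352) (l 16182232)) (b (l 16141368) (l 16181480)))))) (b (a (b (c (b (l 16310968) (l 16286928)) (l 16314696)) (c (l 16252488) (l 16252648))) (c (b (l 16424728) (l 16252008)) (b (l 16300496) (l 16238640)))) (b (c (a (b (l 16214760) (l 16187416)) (b (l 16214408) (l 16187280))) (a (l 16202280) (l 16167464))) (c (a (b (l 16221160) (a (l 16127992) (l 16126696))) (b (l 16179416) (a (l 16127016) (l 16129080))))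 (a (b (l 16121232) (l 16119464)) (b (l 16107744) (c (l 16079160) (l 16050416))))))))), by decide +kernel⟩

def k2_pm_123_a : ∃ t, chk3 f_pm_123_a t 5 6 1 = true :=
  ⟨(a (b (a (c (l 16450184) (l 16438728)) (c (l 16452368) (l 16437224))) (c (a (b (l 16395824) (l 16352008)) (b (l 16400288) (l 16358536))) (a (l 16365504) (l 16174600)))) (b (a (c (l 16459488) (l 16442392)) (c (l 16473448) (l 16518256))) (a (c (b (l 16409608) (l 16370016)) (l 16431528)) (c (b (l 16425472) (l 16388472)) (b (l 16403592) (l 16361408)))))), by decide +kernel⟩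

def k3_pm_123_a : ∃ t, chk3 f_pm_123_a t 10 7 1 = true :=
  ⟨(a (b (c (b (l 16428864) (l 16256736)) (b (l 16313080) (l 16231048))) (b (c (b (l 16219824) (l 16193352)) (l 16160696)) (c (b (l 16249264) (a (l 16133064) (b (l 16146672) (l 16131736)))) (b (l 16101960) (a (l 16059920) (l 16059832)))))) (b (b (c (b (l 16323336) (l 16300120)) (l 16290384)) (c (l 16267224) (l 16230832))) (b (c (a (l 16215472) (l 16223840)) (a (l 16161040) (l 16164264))) (c (b (a (l 16175864) (l 16186080)) (a (c (l 16169680) (l 16126264)) (c (b (l 16188600) (l 16176864)) (l 16136792)))) (b (l 16126544) (a (l 16062464) (l 16068176))))))), by decide +kernel⟩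

def k4_pm_123_a : ∃ t, chk3 f_pm_123_a t 11 7 1 = true :=
  ⟨(b (c (a (b (a (l 16321808) (l 16330424)) (a (l 16279384) (l 16290232))) (b (a (l 16341368) (l 16355576)) (a (l 16304104) (l 16322056)))) (a (b (l 16380576) (a (l 16236384) (l 16243264))) (b (l 16354952) (a (l 16253040) (l 16266232))))) (a (b (c (a (l 16276792) (b (l 16259600) (l 16238816))) (b (l 16191480) (l 16157176))) (c (b (a (l 16199712) (c (l 16240728) (l 16195256))) (a (c (b (l 16205536) (b (l 16197888) (l 16192840))) (l 16151336)) (c (b (l 16228000) (a (l 16213144) (l 138859349569814543))) (b (l 16176968) (l 16164816))))) (b (a (l 16115976) (l 16127408)) (a (l 16098424) (c (l 16117624) (l 16064176)))))) (a (b (c (b (l 16277048) (l 16259144)) (l 16192056)) (c (b (b (l 16246080) (l 16237616)) (c (b (l 139345127612645391) (a (l 139016030009360399) (c (l 139394811833647119) (l 16245704)))) (b (l 16201624) (a (l 16184208) (l 16199456))))) (b (l 16143216) (c (l 16138528) (l 16080336))))) (b (c (b (l 16299480) (l 16285368)) (l 16209056)) (c (c (b (l 16299544) (b (a (l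 16284504) (l 16305472)) (a (c (l 139601932379750415) (l 139199236179869711)) (c (l 139836609441202191) (l 139428484399267855))))) (b (l 16245376) (b (l 16233496) (a (l 138582822374178831) (l 138804786324045839))))) (b (l 16164352) (c (b (l 16172320) (l 16159904)) (l 16102336)))))))), by decide +kernel⟩

def k5_pm_123_a : ∃ t, chk3 f_pm_123_a t 3 2 1 = true :=
  ⟨(a (a (b (a (c (b (l 16649224) (l 16621608)) (b (l 16630968) (l 16599736))) (c (b (l 16680672) (l 16654968)) (b (l 16658712) (l 16627688)))) (a (b (c (l 16588792) (l 16565624)) (a (l 16535208) (c (l 16556640) (l 16532704)))) (b (a (l 16603864) (l 16620608)) (c (a (l 16574824) (l 16596736)) (a (l 16547576) (l 16564744)))))) (a (b (a (b (l 16694952) (l 16668712)) (b (l 16711552) (l 16687128))) (b (c (l 16666352) (l 16630064)) (c (a (l 16622232) (l 16650224)) (a (l 16584432) (l 16606560))))) (b (b (a (l 16728352) (c (l 16751296) (l 16732304))) (a (l 16706592) (l 16726352))) (b (c (l 16712848) (l 16673368)) (c (l 16693432) (l 16644448)))))) (a (a (b (b (a (a (l 16710328) (l 66806745351))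 (a (l 117809484663) (l 116198863543))) (a (a (l 16740328) (l 16745552)) (c (l 16764096) (l 16738144)))) (a (c (b (l 16744712) (l 16733568)) (b (l 16709176) (l 16686360))) (b (l 16727072) (c (l 16756440) (l 16715104))))) (a (b (b (a (l 126399374647) (l 4)) (a (l 62511759079) (b (l 16735520) (l 16754512)))) (c (b (l 16766192) (l 16773032)) (b (l 16739528) (l 16741632)))) (b (b (l 4) (a (b (l 4) (l 16735704)) (l 4))) (b (a (l 60901135431) (b (l 16737008) (l 16759128))) (b (l 16758808) (l 16762464)))))) (a (b (l 4) (b (a (b (l 4) (a (l 16739088) (l 132304950183))) (l 4)) (a (a (l 16721960) (b (l 16741704) (l 16765424))) (a (b (l 159148495063) (l 16723616)) (b (l 4) (a (l 16744960) (l 4))))))) (l 4)))), by decide +kernel⟩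

def k6_pm_123_a : ∃ t, chk3 f_pm_123_a t 12 6 1 = true :=
  ⟨(a (b (c (a (l 16489800) (l 16505192)) (a (l 16470960) (l 16484608))) (a (c (l 16427872) (l 16400488)) (c (l 16446640) (l 16416424)))) (b (c (a (l 16524816) (l 16549904)) (a (l 16501024) (l 16520536))) (a (c (l 16470720) (l 16435952)) (c (l 16500856) (l 16459424))))), by decide +kernel⟩

def k7_pm_123_a : ∃ t, chk3 f_pm_123_a t 12 14 1 = true :=
  ⟨(a (a (b (c (l 16374224) (l 16333752)) (c (l 16345008) (l 16283456))) (b (c (l 16398264) (l 16352584)) (c (b (l 16378472) (l 16369120)) (l 16347560)))) (b (c (a (l 16427600) (l 16462968)) (a (l 16375960) (l 16404384))) (a (c (b (l 16411088) (l 16404848)) (b (l 16343432) (l 16322408))) (c (b (l 16450304) (l 16446848)) (b (l 16375296) (l 16357000)))))), by decide +kernel⟩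

def k8_pm_123_a : ∃ t, chk3 f_pm_123_a t 24 15 1 = true :=
  ⟨(b (c (a (c (l 16345904) (l 16299880)) (b (l 16362840) (l 16359128))) (a (l 16231272) (b (l 16271064) (l 16248752)))) (b (a (c (b (l 16312576) (b (l 16310320) (l 16372000))) (l 16254904)) (c (b (l 16421408) (a (l 16346040) (l 16436624))) (c (l 16260400) (l 16194824)))) (c (c (a (b (a (l 16328816) (l 140154437089787919)) (b (a (l 139890348088524815) (l 140175052937330703)) (a (c (l 140106608320626703) (l 139685838889975823)) (c (a (l 140329809226285071) (l 140489582041923599)) (l 139979614710349839))))) (a (b (l 140451855044182031) (b (l 141033702862241807) (c (a (l 140658700708167695) (l 141017622571008015)) (l 140488138902159375)))) (a (b (l 140696840027258895) (b (l 140755870069702671) (c (b (l 141011987608797199) (l 141041262111768591)) (l 140579123542114319)))) (b (l 140870631618396175) (b (c (l 141160834025160719) (l 140722815996182543)) (a (c (l 141355378866651151) (l 140723365751816207)) (b (l 141573906775752719) (c (a (l 141450074324385807) (l 141320812998885391))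 (l 140835928276582415))))))))) (a (b (l 16294936) (a (l 139592861328211983) (c (l 139544551624966159) (l 139111343966814223)))) (a (b (l 16310928) (c (l 139856606827429903) (l 139414671791783951))) (b (l 16381200) (a (b (l 139881139685982223) (l 139899006752407567)) (b (l 140056924140208143) (c (l 140313935031140367) (l 139850559511691279)))))))) (a (c (b (l 16206536) (a (l 16186888) (l 16207920))) (b (l 16139208) (l 16124008))) (b (c (b (l 16251808) (l 16248776)) (l 16175896)) (c (a (l 138742251590844431) (b (l 16259528) (a (l 138974867058065423) (l 139146253462880271)))) (a (l 16152928) (l 16175648)))))))), by decide +kernel⟩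

def k9_pm_123_a : ∃ t, chk3 f_pm_123_a t 25 30 2 = true :=
  ⟨(a (b (l 16404288) (l 16407672)) (b (l 16453080) (l 16486608))), by decide +kernel⟩

def k10_pm_123_a : ∃ t, chk3 f_pm_123_a t 25 31 2 = true :=
  ⟨(b (a (b (l 16497480) (a (l 16466584) (l 16541344))) (b (c (l 16517832) (l 16441896)) (a (l 16535776) (l 16555096)))) (a (c (a (a (b (l 141039131810742287) (b (c (l 141348369516216335) (l 140903685695881231)) (b (c (l 141407193399312399) (l 140949177997737999)) (c (a (l 141398122425696271) (l 141819166680793103)) (l 140983056705699855))))) (b (l 141395785931980815) (b (l 141322805867429903) (b (c (l 141618849430011919) (l 141149632751452175)) (c (b (l 141655476917714959) (a (l 141940112983769103) (c (l 14) (l 141616444247146511)))) (b (l 141178769814749199) (l 141378949654036495))))))) (b (b (l 16484768) (l 141550198663053327)) (b (a (l 141532262874415119) (l 141753264755736591)) (c (a (b (l 141842325212987407) (b (a (l 141825145339658255) (l 14)) (l 14))) (l 14)) (a (b (l 141361426221039631) (a (l 141350568540635151) (l 141822602648600591)))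 (b (l 141585176881889295) (b (l 141622835161939983) (a (l 141950077303078927) (c (l 14) (l 141580435236487183)))))))))) (a (b (b (l 16369152) (l 16392232)) (c (b (l 140544145325211663) (a (l 140498309423742991) (l 140689968082632719))) (a (l 140012531350618127) (l 140188384526712847)))) (b (b (l 16402360) (l 140638153591603215)) (b (a (l 140591493056266255) (l 140789061591334927)) (a (c (b (l 140875716865703951) (l 140909870451605519)) (l 140396535862607887)) (c (a (l 141052119797219343) (l 141522642076368911)) (l 140598433725448207))))))) (c (a (a (b (l 141827619246964751) (b (l 141986498706325519) (b (c (l 14) (l 141821571928948751)) (l 14)))) (b (l 142055080760459279) (l 14))) (b (b (l 16571592) (l 14)) (l 14))) (a (b (b (l 16439312) (l 141035283527041039)) (b (a (l 140998106281230351) (l 141219245601374223)) (a (b (l 141233951535218703) (c (a (l 141298135572381711) (l 141596446844370959)) (l 140829812249149455))) (c (b (l 141547793481891855) (b (l 141586688712720399) (c (l 14) (l 141838476854231055)))) (a (l 140980995128393743)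 (l 141277725852057615)))))) (b (b (l 16480400) (l 141479142715703311)) (b (a (l 141453235466158095) (l 141700900509450255)) (c (a (b (l 141798276024303631) (l 14)) (l 14)) (a (b (l 141255735651270671) (a (l 141240686081933327) (l 141546144180797455))) (b (l 141506699229970447) (b (l 141547106289500175) (c (l 14) (l 141611152819273743)))))))))))), by decide +kernel⟩

def k11_pm_123_a : ∃ t, chk3 f_pm_123_a t 25 15 3 = true :=
  ⟨(c (b (a (l 16322624) (l 16368128)) (b (a (l 16308120) (a (l 16350768) (l 16383296))) (a (a (b (l 16289992) (a (b (l 16281008) (l 139307950422556687)) (l 139468341713797135))) (b (l 16319928) (b (l 139717037550305295) (a (l 139642820499619855) (l 139825889222082575))))) (a (b (l 16374376) (b (l 140086061213941775) (a (l 140560637905944591) (c (l 140498790469058575) (l 139953089001734159))))) (b (l 140430414582136847) (b (a (l 140392687580069903) (l 140612933546606607)) (a (c (l 141265356276776975) (l 140165088629358607)) (c (a (l 140903479547543567) (l 141207219659096079)) (l 140390419838009359))))))))) (b (a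 (l 16267192) (l 16307360)) (b (a (l 16235840) (l 16307832)) (a (b (l 16243344) (a (b (l 16203072) (l 16240856)) (l 139070593245642767))) (a (b (l 16264752) (b (l 16261856) (l 139213254943326223))) (b (l 16297392) (b (l 139405119796953103) (a (l 139314478788247567) (l 139517613601488911))))))))), by decide +kernel⟩

def k12_pm_123_a : ∃ t, chk3 f_pm_123_a t 13 6 2 = true :=
  ⟨(a (b (a (l 16580984) (l 16616720)) (a (l 16537408) (l 16581224))) (b (a (b (l 16662240) (l 16649584)) (b (l 16698608) (l 16694960))) (a (l 16632264) (b (l 16691168) (l 16674568))))), by decide +kernel⟩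

def k13_pm_123_a : ∃ t, chk3 f_pm_123_a t 13 14 2 = true :=
  ⟨(a (b (a (l 16506272) (l 16558424)) (a (b (l 16498064) (l 16497720)) (b (l 16556032) (l 16559584)))) (a (b (l 16613632) (a (l 16585080) (l 16596696))) (b (l 16641696) (a (l 16608216) (l 16619888))))), by decide +kernel⟩

def k14_pm_123_a : ∃ t, chk3 f_pm_123_a t 26 30 4 = true :=
  ⟨(a (b (l 16541264) (l 16572168)) (b (l 16575552) (l 16593832))), by decide +kernel⟩

def k15_pm_123_a : ∃ t, chk3 f_pm_123_a t 26 62 4 = true :=
  ⟨(a (a (l 16591000) (l 16600792)) (a (l 16608656) (l 16595256))), by decide +kernel⟩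

def k16_pm_123_a : ∃ t, chk3 f_pm_123_a t 52 63 4 = true :=
  ⟨(a (a (l 14) (c (a (l 14) (b (l 16601656) (b (l 142902598225445007) (b (l 142950495707938959) (b (l 142974822406307983) (c (a (l 14) (b (l 143016741293293711) (a (l 143021826535260303) (c (l 143039968479821903) (l 14))))) (l 14))))))) (l 14))) (b (b (l 16591176) (l 142888785605640207)) (b (a (l 142898268898639951) (l 142904178782093391)) (b (a (c (l 142899712021004367) (l 14)) (c (l 142906102940713039) (l 142863221974843471))) (c (a (a (b (l 142821234380079183) (c (b (l 143036601225248847) (a (c (a (l 143046634270130255) (l 143053231340945487)) (l 14)) (b (l 143049589208318031) (a (l 143028011292704847) (l 143057148351905871))))) (l 14))) (b (l 142847485224435791) (a (b (l 143033646287667279) (c (b (l 143062714630488143) (a (l 143063745422721103) (l 143070273774059599))) (l 14))) (b (l 143046771709837391) (c (b (l 143075840052641871) (c (l 143091508095565903) (l 143068761945522255))) (c (a (l 143040518236520527) (l 143047184026812495)) (l 14))))))) (a (b (l 143053712378314831)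 (b (c (l 143088896755417167) (l 143043885491765327)) (c (a (a (l 143087797243461711) (l 143094325594800207)) (a (l 143100853946122319) (l 143107382297444431))) (a (a (c (l 143053781097644111) (l 14)) (c (l 143060378168459343) (l 143037563298971727))) (b (l 143056736035864655) (c (l 143072335359295567) (a (l 143046290673877071) (l 143052887744692303)))))))) (b (l 143079550905729103) (b (c (l 143114735282815055) (l 143070067616596047)) (c (a (a (l 143113841929306191) (l 143120301561151567)) (b (l 143127791985344591) (l 143132190032478287))) (a (b (l 143069930177511503) (a (l 143070892250251343) (l 143077420601589839))) (b (l 143082986880172111) (c (l 143098517484109903) (l 143075977492561999))))))))) (c (c (a (l 14) (a (l 14) (b (l 143023888121725007) (b (l 143036257629306959) (a (a (l 14) (l 143041274151747663)) (a (l 143047871222579279) (l 143054468293410895))))))) (l 14)) (l 14))))))), by decide +kernel⟩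

def k17_pm_123_a : ∃ t, chk3 f_pm_123_a t 53 126 4 = true :=
  ⟨(a (a (l 142723446552379471) (l 142769900926730319)) (a (l 142815187069845583) (l 142949533654663247))), by decide +kernel⟩

def k18_pm_123_a : ∃ t, chk3 f_pm_123_a t 53 254 4 = true :=
  ⟨(a (a (l 142931666581110863) (l 142980732295675983)) (a (c (l 142956062017159247) (l 142876141254525007)) (c (l 143002516391215311) (l 142924176176791631)))), by decide +kernel⟩

def k19_pm_123_a : ∃ t, chk3 f_pm_123_a t 53 255 8 = true :=
  ⟨(a (a (b (l 142956749203308623) (a (b (l 143105183274680399) (c (a (a (l 143135213690060879) (l 143141604602429519)) (l 143151225330696399)) (b (l 143096043582980175) (a (a (l 143094944070991951) (l 143101403702853711)) (a (l 143107932054175823) (l 143114391686021199)))))) (b (l 143130609485168719) (c (b (l 143165793862189263) (l 143174864828989647)) (b (l 143121882110361679) (a (a (l 143120920037343311) (l 143127379669188687)) (b (l 143134870093398095) (l 143094188163776591)))))))) (b (l 143006433393082447) (b (a (l 143155829537177679) (l 143180843430740175))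 (c (a (b (l 143191013914181839) (l 143200153605832911)) (l 143220700732752079)) (c (a (l 143162838924738767) (l 143188196415701199)) (a (b (l 143136450641985615) (l 143145246736220367)) (l 143166412338528463))))))) (a (b (l 143010281691726031) (a (b (l 143205651165823183) (b (l 143219463782514895) (a (l 143222487439720655) (l 143234994386485455)))) (b (l 143230252742459599) (c (l 143270178763899087) (l 143227641401852111))))) (b (l 143058316613796047) (b (a (l 143254648160616655) (l 143278837420327119)) (a (a (l 143267498704289999) (l 143279799492575439)) (a (l 143292031561384143) (l 143304194910716111))))))), by decide +kernel⟩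

def k20_pm_123_a : ∃ t, chk3 f_pm_123_a t 53 255 9 = true :=
  ⟨(a (a (b (l 142915242627219535) (a (c (b (l 143038868970324047) (b (l 143006295940104271) (a (a (c (l 143061065364226127) (l 14)) (c (l 143067662435041359) (l 143044985004572751))) (b (l 143064089021956175) (c (l 143079619625861199) (a (l 143053643659984975) (l 143060309450276943))))))) (l 14)) (b (l 142862534794133583) (b (a (l 143048489698852943) (l 143061615121023055)) (c (a (b (l 143077214444126287) (a (l 143078176516849743) (l 143084773587664975))) (b (l 143090339866263631) (c (l 143105801750675535) (l 143083330478669903)))) (c (a (a (l 14) (l 143048764576890959)) (a (l 143055430367182927) (l 143062027438014543))) (l 14))))))) (b (l 142966507365220431) (a (b (l 142888510760517711) (b (a (l 143074740543176783) (l 143087728526360655)) (c (a (a (l 143102228337590351) (l 143108756688928847)) (a (l 143115216320774223) (l 143121744672096335))) (a (a (c (l 143068624508829775) (l 14)) (c (l 143075152860168271) (l 143052681588195407))) (a (c (l 143081749930983503) (l 143059278659010639))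 (a (l 143052956469477455) (l 143078726273777743))))))) (b (l 142914280568455247) (c (b (l 143129166376976463) (c (l 143148888869503183) (a (l 143120370282577999) (l 143133289546268751)))) (b (l 143085117186326607) (a (b (l 143084842308239439) (a (l 143085735661486159) (l 143092332732301391))) (b (l 143097899010900047) (a (l 143098861083623503) (l 143105389434961999)))))))))) (a (b (l 142994338761506895) (b (a (l 143120026685915215) (l 143145384176910415)) (c (a (a (l 143152805880643791) (l 143165518985887951)) (a (l 143178232091099343) (l 143190945196327119))) (a (b (l 143111024433217615) (a (b (l 143110955713560655) (c (l 143126280158969935) (l 143104083764953167))) (a (l 143122844184887375) (l 143129303816732751)))) (a (b (l 143130403328753743) (a (l 143135763448578127) (l 143142223080423503))) (l 143147583200559311)))))) (b (c (l 142997018832011471) (l 142955649701347407)) (a (b (l 143170604228935887) (a (c (l 143203589582061775) (l 143160433744756943)) (c (l 143216165248303311) (l 143173146850001103)))) (b (l 143195549403005135)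 (a (c (l 143228672195068111) (l 143185928674705615)) (c (l 143241179141832911) (l 143198573060440271)))))))), by decide +kernel⟩

def k21_pm_123_a : ∃ t, chk3 f_pm_123_a t 26 30 5 = true :=
  ⟨(a (b (l 16481816) (l 16499544)) (b (l 16549040) (l 16580848))), by decide +kernel⟩

def k22_pm_123_a : ∃ t, chk3 f_pm_123_a t 26 62 5 = true :=
  ⟨(a (b (l 16518968) (l 16577792)) (a (l 16599904) (l 16608056))), by decide +kernel⟩

def k23_pm_123_a : ∃ t, chk3 f_pm_123_a t 26 63 5 = true :=
  ⟨(a (a (a (b (l 141792366153826319) (b (l 142143247833153551) (a (b (l 142169498676903951) (l 14)) (l 14)))) (b (l 142047727780118543) (l 14))) (b (b (l 16577120) (l 14)) (l 14))) (a (c (a (l 14) (c (c (b (l 16597704) (b (l 142955787112743055) (b (l 142822471334559823) (a (l 14) (b (l 143039556167024719) (b (l 143051788235554895) (a (a (l 14) (l 143056598599532623)) (a (l 143063195670347855) (l 143069792741163087))))))))) (l 14)) (l 14))) (l 14)) (a (c (b (l 16610336) (b (l 142794846102388815) (b (l 142931804026077263) (b (a (l 142942592985104463) (l 142923695133212751))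 (b (a (a (l 143038044338864207) (l 143051307199987791)) (a (l 143064432622157903) (l 143077558044311631))) (c (a (a (a (c (l 143076389811994703) (l 143053987259547727)) (c (l 143082986882809935) (l 143060653049839695))) (a (c (l 143089583953625167) (l 143067250120671311)) (c (l 143096112304947279) (l 143073847191486543)))) (a (b (l 143092745050390607) (c (l 143108069495750735) (a (l 143082505846882383) (l 143089102917697615)))) (b (l 143105870472527951) (a (l 143106763825758287) (l 143113360896573519))))) (c (a (l 14) (a (a (l 143058110429364303) (l 143064776219672655)) (a (l 143071373290487887) (l 143077970361303119)))) (l 14)))))))) (l 14)) (b (l 142895451406467087) (b (c (l 142844461572882511) (l 142763372579487823)) (b (c (l 142982931325108303) (l 142897856601587791)) (c (b (a (l 142949671099596879) (l 142975509626994767)) (a (a (b (l 143090683466465359) (c (b (l 143118927175188559) (a (l 143119889247895631) (l 143126417599234127))) (a (c (l 143084567432134735) (l 143062371038183503)) (c (l 143091164502949967) (l 143068968108998735)))))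 (b (l 143103740169125967) (c (a (l 143108275658129487) (l 143137275278344271)) (a (c (l 143097761573765199) (l 143075633899307087)) (c (l 143104358644580431) (l 143082230970122319)))))) (a (b (l 143116728152309839) (c (l 143146964726104271) (a (c (l 143110886995902543) (l 143088828040937551)) (c (l 143117415347241039) (l 143095425111752783))))) (b (l 143129647416000591) (c (l 143159883989795023) (b (l 143114185531654223) (a (l 143092607615991887) (l 143121675955683407)))))))) (c (c (a (l 14) (b (l 143056598602367055) (b (l 143068624512368719) (a (b (l 143068006036815951) (a (l 143068693231583311) (l 143075359021891663))) (a (l 143079963227619407) (l 143086629017911375)))))) (l 14)) (l 14))))))))), by decide +kernel⟩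

def k24_pm_123_a : ∃ t, chk3 f_pm_123_a t 54 30 2 = true :=
  ⟨(b (a (l 16584384) (l 16591608)) (a (l 16601824) (l 16608840))), by decide +kernel⟩

def k25_pm_123_a : ∃ t, chk3 f_pm_123_a t 54 62 2 = true :=
  ⟨(a (c (l 16602552) (l 16615864)) (c (b (l 16625640) (l 16635296)) (l 16602440))), by decide +kernel⟩

def k26_pm_123_a : ∃ t, chk3 f_pm_123_a t 54 126 2 = true :=
  ⟨(c (a (b (l 16614352) (a (l 143117690226753615) (l 143160846065713359))) (b (l 143030210341568719) (a (l 143202971112407247) (l 143063951618293967)))) (a (a (l 142941837061455951) (l 142964720655286351)) (b (l 16612976) (a (l 142883425526546511) (l 142927955755335759))))), by decide +kernel⟩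

def k27_pm_123_a : ∃ t, chk3 f_pm_123_a t 54 254 2 = true :=
  ⟨(a (a (c (c (l 143048008692449487) (l 142971249026253007)) (c (l 142893183690047567) (l 142813675244879951))) (c (c (l 143092676359848143) (l 143017497241878735)) (c (l 142941012453900367) (l 142863221995896911)))) (a (c (b (l 143260283163410639) (l 143119270802112719)) (c (l 142988016583885007) (l 142911875393601615))) (c (a (l 143132464944759055) (l 143154042864124175)) (c (l 143034196080050383) (l 142959772876931151))))), by decide +kernel⟩

def k28_pm_123_a : ∃ t, chk3 f_pm_123_a t 54 255 4 = true :=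
  ⟨(a (a (a (b (l 143053506250621135) (c (b (l 143302820521558223) (a (l 143316358260031695) (l 143328452889854223))) (b (l 143220357138104527) (c (l 143259870842470607) (a (l 143211217446174927) (l 143223861831909583)))))) (b (l 143077283193454799) (c (c (l 143356902757679375) (l 143316220821782799)) (a (c (l 143268941815152847) (l 143227229087088847)) (c (l 143281173883961551) (l 143239667314376911)))))) (a (b (l 143100853977825487) (b (l 143134801392271567) (c (b (l 143365355254907151) (l 143375457019248911)) (c (l 143309073995645199) (l 143267636145537231))))) (b (l 143124218603733199) (b (a (l 143327903135514831) (l 143339791606890703)) (c (l 143394148720066831) (a (l 143306806253027535) (l 143319038321836303))))))) (a (a (b (l 143147445790654671) (b (c (l 143396966219825423) (l 143317732652286223)) (c (l 143417719504339215) (a (l 143331270390628623) (l 143343433739944207))))) (b (l 143350580567638287) (b (a (l 143375113423618319) (l 143386795736547599)) (c (l 143441084130148623) (a (l 143355528369766671) (l 143367554280112399))))))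 (a (b (c (l 143410984996618511) (l 143335256122867983)) (c (b (l 143442870837674255) (l 143464311316971791)) (c (l 143395179514085647) (l 143355734529097999)))) (b (c (l 143433181391241487) (l 143358277151342863)) (a (c (l 143470702229782863) (l 143393255368917263)) (c (l 143482040945262927) (l 143405075120800015))))))), by decide +kernel⟩

def k29_pm_123_a : ∃ t, chk3 f_pm_123_a t 108 255 5 = true :=
  ⟨(b (a (a (l 143001485584433231) (l 143018459299332175)) (c (l 142992826946044111) (b (l 142902873139150927) (l 143009182171742287)))) (b (a (a (c (l 143001073276469327) (l 142960253895917647)) (c (l 143026499486941263) (l 142986504740241487))) (a (c (l 143186890749690063) (l 142967538168856655)) (c (l 143211973362729167) (l 142993445415731279)))) (b (a (a (a (c (l 143142566679691343) (l 142965476576641103)) (c (l 143155417223905359) (l 142978739437764687))) (c (l 143174658680455375) (a (c (l 143103740170895439) (l 143060172016959567)) (l 143050138978304079)))) (a (c (l 143200153610387663) (a (l 143063333119934543) (l 143076458542071887)))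 (c (l 143225442381856975) (a (l 143134526501994575) (l 143147583204655183))))) (a (a (c (a (c (l 143172803253469391) (b (l 143127242234314831) (a (l 143128204307021903) (l 143134732658344015)))) (c (l 143185653797650639) (b (l 143140298936975439) (c (l 143155417223839951) (l 143111161877938255))))) (c (a (b (l 143083467921850447) (c (a (l 143095287673307215) (l 143101884744122447)) (a (l 143073159998881871) (l 143079825789190223)))) (a (c (l 143106420230373455) (l 143084498714411087)) (c (l 143113017301188687) (l 143091095785226319)))) (l 14))) (a (c (c (l 143198435622355151) (l 143155417224184015)) (c (a (c (l 143119614371987535) (l 143097761575518287)) (c (l 143126142723326031) (l 143104358646333519))) (c (b (l 143077077010432079) (a (l 143077764205183055) (l 143084429995475023))) (l 14)))) (c (c (l 143211217447059663) (l 143168405207351503)) (c (c (l 143135969610055887) (a (l 143110955717148751) (l 143117552787963983))) (b (l 143079482192805967) (c (a (l 143091095785783375) (l 143097761576075343)) (a (l 14) (l 143075771340669007))))))))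 (a (a (c (c (l 143223930552271055) (l 143181324471025871)) (c (b (l 143136175768879183) (a (l 143137069122093135) (l 143143666192892111))) (b (l 143092745053929551) (c (a (l 143104427366367311) (l 143111024437198927)) (a (l 143082505850454095) (l 143089171640762447)))))) (c (c (l 143236574938005711) (l 143194175015223503)) (c (l 143151362775580879) (a (c (l 143115628642926671) (l 143093844565983311)) (c (l 143122225713741903) (l 143100510356275279)))))) (c (c (l 143255541516566735) (a (l 143207025559404751) (l 143219807384109263))) (a (c (l 143164419478225103) (a (c (l 143128822784557135) (l 143107176146567247)) (c (l 143135419855356111) (l 143113773217398863)))) (c (l 143177407461392591) (c (l 143145315461578959) (a (l 143120439007690831) (l 143127036078506063))))))))))), by decide +kernel⟩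

def k30_pm_123_a : ∃ t, chk3 f_pm_123_a t 109 255 5 = true :=
  ⟨(a (b (c (l 143086766478704847) (c (l 142981763110355151) (l 142986367310020687))) (c (c (a (a (l 143260351881216207) (l 143272721389011151)) (b (l 143281792361742543) (l 143300758939615503))) (b (l 143081131482300623) (a (a (l 143228053722775759) (l 143240766827987151)) (a (l 143253411213705423) (l 143265986879946959))))) (b (a (l 143019215223636047) (l 143179881364340943)) (b (a (a (l 143160571187822671) (l 143173490451513551)) (l 143012755598491855)) (a (a (c (l 143190395444543695) (b (l 143145590339911759) (l 143149782228500687))) (c (l 143203314708218063) (l 143160846066090191))) (a (c (l 143216165252399311) (l 143173971488211151)) (c (l 143229015796580559) (l 143187028190855375)))))))) (b (a (l 143083605383512271) (l 143107932082241743)) (b (a (a (l 143104564826194127) (l 143094531784589519)) (c (l 143310585827655951) (l 143230596346282191))) (a (b (c (l 143300415342887119) (l 143038456686870735)) (c (c (l 143330308319101199) (l 143289557664006351)) (a (c (l 143241866340745423)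 (l 143200084893483215)) (c (l 143254648165433551) (l 143213072876634319))))) (c (c (l 143350030812233999) (l 143309829913035023)) (a (c (l 143262825784639695) (l 143221594093273295)) (c (l 143275470170357967) (l 143234513356931279)))))))), by decide +kernel⟩

def k31_pm_123_a : ∃ t, chk3 f_pm_123_a t 55 30 2 = true :=
  ⟨(b (a (l 16598856) (l 16606224)) (a (l 16594616) (l 16601112))), by decide +kernel⟩

def k32_pm_123_a : ∃ t, chk3 f_pm_123_a t 55 62 2 = true :=
  ⟨(a (b (l 16608296) (a (l 16615816) (l 16619320))) (b (l 16615016) (c (l 16669744) (l 16621112)))), by decide +kernel⟩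

def k33_pm_123_a : ∃ t, chk3 f_pm_123_a t 55 126 2 = true :=
  ⟨(a (a (b (l 142963896048894031) (c (l 143103946360979727) (l 142971455191843023))) (b (l 143001897926803663) (a (l 143113773242663119) (l 143133839333523663)))) (a (b (l 143083674111295695) (a (l 143142429271736527) (l 143164831824756943))) (a (b (l 16653344) (l 143170054508560655)) (b (l 16655056) (l 143189089807171855))))), by decide +kernel⟩

def k34_pm_123_a : ∃ t, chk3 f_pm_123_a t 110 127 2 = true :=
  ⟨(b (b (a (a (l 143084704903676111) (l 143106420262076623)) (c (l 143386383425044751) (l 143069655338401999))) (a (c (a (l 143376212938555663) (l 143397722138394895)) (l 143061683875840207)) (c (a (l 143418956460310799) (l 143440053343240527)) (l 143152874629185743)))) (a (c (a (b (c (l 143455102907941199) (l 143381160740831503)) (c (l 143499083378213199) (a (l 143416894872666383) (l 143428577185595663)))) (b (c (l 143476886985638223) (l 143403769452380431)) (c (l 143521554650693967) (b (l 143435449134825743) (l 143456820894531855))))) (b (a (l 143132121341984975)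 (l 143133564454895823)) (b (a (c (l 143334843806826767) (l 143255747678781647)) (c (l 143358895627534607) (l 143280692852818127))) (c (a (a (l 143348450264531215) (l 143360682333339919)) (a (l 143372914402132239) (l 143385146470908175))) (c (a (a (l 143288114556076239) (l 143300690222301455)) (b (l 143314777717457167) (l 143324398445281551))) (a (a (l 143247363901112527) (l 143260145725800655)) (a (l 143272927550488783) (l 143285709375160527)))))))) (c (b (a (c (l 143498464904888655) (l 143426240724959503)) (l 143484377410814287)) (a (c (l 143543888484204879) (b (l 143458470163235151) (l 143480254239818063))) (c (l 143566084878745935) (b (l 143481353752658255) (l 143503481426624847))))) (b (a (l 143157341397729487) (l 143158509632684303)) (c (c (a (l 143412359387955471) (l 143436067611197711)) (a (b (l 143363705992216847) (l 143383909520638223)) (b (l 143387689093431567) (l 143408304938729743)))) (a (b (l 143305569307345167) (b (l 143319931679588623) (c (l 143349481058222351) (l 143309555037110543)))) (a (c (l 143353260630753551) (l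 143314227962937615)) (c (l 143365561419022607) (l 143326734909686031))))))))), by decide +kernel⟩

def k35_pm_123_a : ∃ t, chk3 f_pm_123_a t 111 127 2 = true :=
  ⟨(b (b (a (c (l 143426515606503759) (l 143113498372129039)) (a (l 143211286201860367) (l 143231558451069199))) (a (c (a (l 143460875348230479) (l 143481491194773839)) (l 143153218234188047)) (c (a (l 143501900882854223) (l 143522104412488015)) (l 143220357170462991)))) (b (a (c (a (l 143506024049541455) (l 143527464529822031)) (a (l 143182011697545487) (l 143205307603960079))) (c (a (l 143548698851656015) (l 143569795734503759)) (a (l 143228466071404815) (l 143251487099863311)))) (a (c (a (c (l 143588075114824015) (b (l 143504099903095119) (l 143526639893938511))) (c (l 143609859192439119) (b (l 143526639895085391) (l 143549592202805583)))) (c (a (b (l 143430295175266575) (a (l 143445550900478223) (l 143457576810807631))) (a (l 143458676323139919) (l 143470496075022671))) (b (a (l 143354772460519695) (l 143379236598120719)) (c (a (l 143394148725358863) (l 143418750301880591))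 (a (b (l 143350374413156623) (l 143360270018871567)) (l 143380404828946703)))))) (b (c (a (l 143584295544455503) (l 143606079622086991)) (a (c (l 143477093146394959) (l 143403494577275151)) (c (l 143500251613757775) (l 143427615117443343)))) (c (a (c (l 143643806618730831) (l 143572407072686415)) (c (l 143665521976836431) (l 143595084503597391))) (c (a (l 143499289534366031) (l 143522929043439951)) (a (a (l 143418131827032335) (l 143430501334778127)) (a (l 143442802123030799) (l 143455102911283535))))))))), by decide +kernel⟩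

def k36_pm_123_a : ∃ t, chk3 f_pm_123_a t 13 6 3 = true :=
  ⟨(a (b (a (l 16543352) (l 16569872)) (a (l 16487728) (l 16521384))) (b (b (l 16623560) (l 16608904)) (a (l 16561000) (l 16606672)))), by decide +kernel⟩

def k37_pm_123_a : ∃ t, chk3 f_pm_123_a t 26 7 3 = true :=
  ⟨(b (b (a (l 16438968) (l 16480824)) (a (b (l 16414400) (l 16399400)) (b (l 16461984) (l 16451232)))) (b (a (b (l 16391720) (l 16389992)) (b (l 16450416) (l 16480976))) (b (a (b (l 16413808) (c (l 16464584) (l 16351224))) (b (l 16557408) (a (l 16525368) (l 16575224)))) (a (a (b (b (l 141386439924006927) (c (l 140894477299990543) (l 16334664))) (b (c (a (l 140846648533172239) (l 141094725893128207)) (l 139995007866109967)) (c (c (a (b (l 141195468662243343) (a (l 141178151349714959) (l 141491443470352399))) (b (l 141462031564996623) (b (l 141504156611706895) (c (l 14) (l 141740139270848527))))) (a (l 140990134758621199) (a (l 140819229457186831) (l 141130597432033295)))) (a (l 140094307492757519) (c (l 140272703356862479) (l 139654777707413519)))))) (b (c (b (l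 16475520) (l 141392487446282255)) (l 140750303714590735)) (b (c (a (l 141358127699312655) (l 141817929773121551)) (a (l 140157323337498639) (l 140404369904762895))) (c (c (a (b (l 141745155864805391) (l 14)) (l 14)) (a (b (l 141130047711920143) (a (l 141110462656167951) (l 141432275993444367))) (b (l 141413790486937615) (b (l 141457839679291407) (a (l 141773330787647503) (l 14)))))) (a (c (l 141067169277100047) (l 139891997387456527)) (c (a (l 140727901259776015) (l 141047653012258831)) (l 140144953830621199))))))) (a (c (b (b (l 16526584) (l 142133420954845199)) (b (a (l 142115072848838671) (l 14)) (l 14))) (b (b (l 16418976) (l 140727076632346639)) (b (a (l 140667428113121295) (l 140947666193924111)) (a (b (l 141088953393840143) (c (a (l 141037276403793935) (l 141548549340086287)) (l 140433781846966287))) (c (b (l 141361769837264911) (b (l 141588269240664079) (a (l 141810164421033999) (l 14)))) (a (l 140628876479856655) (l 141137881672876047))))))) (c (l 14) (a (b (l 141096100295589903) (b (l 141426434846490639) (c (l 14) (b (l 140982713134743567)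 (a (l 140958180275585039) (b (l 141104552789655567) (l 141134583206150159))))))) (b (l 141386783739002895) (c (l 14) (b (l 141215534768848911) (a (c (l 14) (l 141071636155465743)) (b (l 141390013552214031) (l 14))))))))))))), by decide +kernel⟩

def k38_pm_123_a : ∃ t, chk3 f_pm_123_a t 27 14 3 = true :=
  ⟨(a (b (l 16530928) (b (l 16519552) (l 16514624))) (b (l 16590392) (a (l 16570656) (l 16610920)))), by decide +kernel⟩

def k39_pm_123_a : ∃ t, chk3 f_pm_123_a t 27 30 3 = true :=
  ⟨(a (b (a (l 16502456) (l 16541696)) (a (l 16522872) (l 16570512))) (b (a (l 16585040) (l 16604096)) (a (l 16607984) (l 16615512)))), by decide +kernel⟩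

def k40_pm_123_a : ∃ t, chk3 f_pm_123_a t 27 62 3 = true :=
  ⟨(c (a (a (l 16608552) (l 16616616)) (a (l 16624432) (l 16626768))) (a (a (l 16503544) (l 16559640)) (a (l 16618504) (l 16626616)))), by decide +kernel⟩

def k41_pm_123_a : ∃ t, chk3 f_pm_123_a t 108 63 6 = true :=
  ⟨(a (l 14) (c (c (b (l 16603672) (b (l 142803985799233615) (b (l 142848653464961103) (a (a (l 14) (b (l 143044985011880015) (b (l 143056598604906575) (b (l 143062371041689679) (c (a (l 14) (l 143080650424942671)) (l 14)))))) (b (l 143064913663311951) (b (a (l 143069930185523279) (l 143083330485616719)) (a (b (l 143075840061259855) (c (a (l 143087384934711375) (l 143094050725019727)) (l 14))) (b (l 143089240361353295) (c (a (l 143100785234804815) (l 143107451025096783)) (a (l 14) (l 143085666948186191))))))))))) (l 14)) (l 14))), by decide +kernel⟩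

def k42_pm_123_a : ∃ t, chk3 f_pm_123_a t 109 63 6 = true :=
  ⟨(c (b (b (l 16627640) (l 142980319978750031)) (b (a (l 142834497252769871) (l 142884112723296335)) (b (a (b (l 142872155530821711) (l 142977639929544783)) (c (l 142996675234578511) (l 143001348153868367))) (b (a (a (l 142979976391589967) (l 143006433394360399)) (a (l 143010212969775183) (l 143036395094573135))) (c (a (a (b (a (l 143096593346740303) (l 143109856207847503)) (a (b (l 143102640661430351) (c (a (l 143114116815388751) (l 143120782605697103)) (a (l 143092401457971279) (l 143099135967756367)))) (a (b (l 143112604987129935) (c (l 143127448395989071) (l 143105801758048335))) (c (l 143132052601733199) (l 143099273408577615))))) (b (a (l 143123119068971087) (l 143136313210585167)) (a (c (l 143142016927416527) (a (l 143117209193054287) (l 143123874983362639))) (a (c (l 143151912533639375) (l 143130540773654607)) (l 143147858084200655))))) (a (a (c (l 143164213322072271) (l 143143047720550607)) (a (l 143163526127517903) (l 143170123198316751))) (b (l 143182286547796175)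 (a (l 143184210693112015) (l 143197404834709711))))) (a (a (c (b (l 142980938464329807) (a (l 14) (b (l 143083536644882511) (a (l 14) (l 143090820910432335))))) (l 14)) (b (l 142997018824785999) (b (a (l 143086216705228879) (l 143099685724799055)) (a (c (a (l 143097624139694159) (l 143104358649462863)) (l 14)) (c (a (l 143111093159247951) (l 143117827669033039)) (a (l 14) (l 143084979756433487))))))) (b (a (a (l 143107176149172303) (l 143120507729772623)) (a (l 143133839310356559) (l 143147102171463759))) (a (a (b (l 143113154744369231) (c (a (l 143124493459325007) (l 143131227969093711)) (a (l 143102984260386895) (l 143109718770171983)))) (b (l 143126555044429903) (c (l 143141261014286543) (a (l 143116521999433807) (l 143123256509218895))))) (a (b (l 143139955344506959) (c (l 143154661314347215) (a (l 143129991018987599) (l 143136725528772687)))) (a (l 143151981254754511) (l 143158647045046479))))))))))) (c (a (l 14) (b (l 16607440) (b (l 142826525794484303) (b (l 142960597499052111) (b (a (l 143059828424048719) (l 143086629024251983))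 (b (a (l 142981144624545871) (l 143008220102656079)) (c (a (a (l 14) (a (l 14) (a (l 143098105177538639) (l 143101541151916111)))) (a (b (l 143108000783827023) (a (l 143108550539575375) (l 143115353768820815))) (b (l 143121538522857551) (a (l 143122156998082639) (l 143128891507867727))))) (c (a (l 14) (a (l 14) (a (l 14) (l 143110887002751055)))) (l 14))))))))) (l 14))), by decide +kernel⟩

def k43_pm_123_a : ∃ t, chk3 f_pm_123_a t 220 63 6 = true :=
  ⟨(a (b (l 142975097300664399) (b (l 142883081932537935) (b (a (l 143013374065000527) (l 143026293328724047)) (b (c (l 143174933563818191) (l 143002447666905167)) (b (c (l 143052612896702671) (a (l 143018528024739919) (l 143020795769602127))) (c (a (c (l 143210461537337551) (a (l 143165312835322063) (l 143171978625614031))) (c (l 143223586959458511) (b (l 143179881366765775) (l 143184073255321807)))) (b (a (c (l 143124424741683279) (l 14)) (c (l 143137893761237071) (l 143005471324340303))) (a (c (a (c (l 143135626017652815) (b (l 143113360904421455) (l 143115353769476175))) (c (l 143142429246898383)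 (l 143121126206472271))) (l 14)) (c (c (l 143152531011567823) (a (l 143127929435734095) (l 143134732664995919))) (c (c (a (l 143111986515148879) (l 143118789744410703)) (l 14)) (l 14))))))))))) (b (l 142817592264065103) (b (l 142907752228831311) (c (b (l 143175139723411663) (b (l 143200840810660047) (b (l 143078726301974735) (a (c (l 143236643662086351) (b (l 143193144227856591) (l 143197404835889359))) (c (l 143249631645221071) (l 143208537392955599)))))) (b (l 143095837437345871) (b (l 143029179547598927) (c (b (a (l 143145315466149967) (l 143158647046750415)) (a (b (l 143151362780790863) (c (l 143166000031105231) (l 143144903149142223))) (a (l 143163526129991887) (l 143170260639760591)))) (b (l 143025812292010063) (b (a (l 143109237736357967) (l 143122912914358351)) (c (a (a (b (l 143119339500535887) (l 143121332365574223)) (l 143115903527878735)) (a (l 143133976751325263) (l 143140779980587087))) (a (l 14) (c (a (l 143118102550249551) (l 143124974498988111)) (l 14))))))))))))), by decide +kernel⟩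

def k44_pm_123_a : ∃ t, chk3 f_pm_123_a t 221 63 6 = true :=
  ⟨(a (b (l 142840063537021007) (b (l 143022376320139343) (b (a (l 143064776241922127) (l 143077558066659407)) (b (c (l 143226541899038927) (l 143055842708783183)) (b (c (l 143104770987753679) (c (l 143178713137086671) (a (l 143130540777750607) (l 143144078516797519)))) (c (a (c (l 143262688347832527) (l 143221731534553295)) (c (l 143275607611490511) (l 143234925676150991))) (c (a (a (l 143176995149529295) (l 143183660939821263)) (b (l 143191632400449743) (l 143195893005795535))) (c (a (l 143149026319155407) (l 143162564058185935)) (a (a (a (l 143122844195143759) (l 143126280169521231)) (a (l 143129716143882319) (l 143133152118259791))) (b (l 143139680469663823) (a (l 143140230225379407) (l 143147102174118095)))))))))))) (b (l 142862191212560463) (b (l 143046703018983503) (c (b (l 143225304949555407) (b (l 143252174267924687) (a (c (l 143283922669682895) (b (l 143239186284789967) (l 143248051098255567))) (c (l 143296773213847823) (l 143256709753880783))))) (b (l 143147858089623631)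 (b (l 143071098436812879) (b (c (l 143205238859268303) (l 143164350765596879)) (a (b (l 143184416854950095) (c (l 143209293308526799) (c (l 143178232101224655) (l 143157341377741007)))) (c (l 143220494585069775) (a (l 143175964358574287) (l 143182767587819727))))))))))), by decide +kernel⟩

def k45_pm_123_a : ∃ t, chk3 f_pm_123_a t 111 63 6 = true :=
  ⟨(a (c (b (l 142926169055346767) (b (l 143028492368199887) (b (b (l 143073297472012495) (l 143136725551038671)) (b (a (l 143277600478363855) (l 143302957969277135)) (b (a (l 143145178048184527) (l 143317182902468879)) (a (c (b (l 143318419852280079) (l 143323161496682767)) (a (l 143274301942448335) (l 143287358645059791))) (c (l 143346457403031823) (a (l 143300415347671311) (l 143313472050266383))))))))) (b (l 16628952) (b (l 143047046617989199) (b (b (l 142997980916138191) (l 143104839704297679)) (a (b (l 143018665480241359) (b (c (l 143231695861956815) (l 143191288804671695)) (a (c (l 143233826165637327) (a (l 143189502097604815) (l 143196305326850255))) (c (l 143247157746188495) (a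 (l 143203039836618959) (l 143209843065864399)))))) (b (l 143044916324483279) (b (l 143119957994455247) (c (a (l 143260420607262927) (l 143273683468320975)) (a (b (l 143217814526509263) (l 143222075134509263)) (b (l 143231283546030287) (l 143235612873507023))))))))))) (a (b (l 143017222364004431) (b (l 143028492369756367) (b (a (l 143075908813488335) (l 143088347040776399)) (c (b (l 143328178021237007) (a (c (l 143360613617713423) (l 143321718389014799)) (c (l 143373326722875663) (l 143334637652640015)))) (b (l 143071098449248463) (b (l 143142223109046479) (a (c (l 143286946329379023) (l 143246882869559503)) (c (l 143300140470960399) (l 143260351889064143))))))))) (b (l 143038387966771279) (b (l 143142154388259023) (a (b (l 143100853987557583) (c (b (l 143347007160844559) (a (l 143363568556261647) (l 143369959468581135))) (b (l 143270728532230351) (c (l 143308661687632143) (b (l 143264818656231631) (l 143273752189108431)))))) (b (l 143113223495368911) (c (b (l 143359514107576591) (a (l 143376350380917007) (l 143382741293236495))) (b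 (l 143283716515381455) (c (l 143321718390243599) (b (l 143278081517306063) (l 143287152489136335))))))))))), by decide +kernel⟩

def k46_pm_123_a : ∃ t, chk3 f_pm_123_a t 54 63 7 = true :=
  ⟨(a (a (b (l 141696227603120143) (b (b (l 141866514496634895) (l 141942793129295887)) (l 14))) (b (l 142205988745756687) (l 14))) (l 14)), by decide +kernel⟩

def k47_pm_123_a : ∃ t, chk3 f_pm_123_a t 110 63 7 = true :=
  ⟨(c (c (a (l 14) (b (l 16611536) (b (l 142851883288936527) (b (l 143007945225617487) (c (a (c (b (l 143099823168258127) (b (l 143021208088150095) (a (l 14) (b (l 143123943707574351) (a (l 143124424743796815) (l 143131296692551759)))))) (l 14)) (b (l 143121744684974159) (b (a (l 143126623768035407) (l 143140230226559055)) (a (b (l 143132464924196943) (b (l 143135419862007887) (a (l 143133908033208399) (l 143140848701423695)))) (b (l 143146208821674063) (l 143150194551750863)))))) (c (a (l 14) (a (l 14) (b (l 143113154749612111) (b (l 143124699622948943) (b (l 143130540779094095) (a (l 143131021815316559) (l 143137893764055119)))))))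 (l 14))))))) (l 14)) (l 14)), by decide +kernel⟩

def k48_pm_123_a : ∃ t, chk3 f_pm_123_a t 111 63 14 = true :=
  ⟨(a (b (l 16625144) (b (l 142974272683229263) (b (a (l 142915380094468175) (l 142941974536224847)) (b (a (l 143050757466095695) (l 143072266666590287)) (c (b (a (a (l 143143597481803855) (l 143157272659804239)) (l 143177682347573455)) (c (a (a (l 143161945584189647) (l 143175620762190031)) (a (l 143189295940174031) (l 143202971118158031))) (a (c (a (l 143146346261086415) (l 143160090158579919)) (a (b (l 143133976753815631) (a (l 143134389070544975) (l 143141329738776655))) (l 143149713516331215))) (a (l 143168748814155983) (l 143182492711633103))))) (a (a (l 14) (c (c (b (l 143131571572424783) (b (l 143137412728553551) (a (l 143137825045282895) (l 143144765713514703)))) (l 14)) (l 14))) (a (c (b (l 143140230228017231) (a (b (l 143142635409784911) (a (l 143144765713694799) (l 143148270407549007))) (l 143151500223545551))) (l 14)) (b (l 143143734922264655) (b (a (l 143146140103999567) (l 143153080772231247)) (c (l 143163938450653391)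 (a (a (l 143137893765693519) (l 143141398459547727)) (a (l 143144903153401935) (l 143148407847256143))))))))))))) (b (l 16629200) (b (l 143069724044836943) (b (a (l 142968431539011663) (l 142994751102812239)) (a (a (b (l 143165793877622863) (b (c (l 143198092035342543) (l 143157616258695247)) (c (a (l 143203039837978831) (l 143209843067240655)) (c (b (l 143173765337546959) (l 143177819787083983)) (b (l 143153286931054671) (a (b (l 143152737174995023) (l 143154661320540367)) (l 143160708635476175))))))) (b (l 143179262897176655) (b (l 143191563684757711) (c (a (l 143216715015962831) (l 143223518245208271)) (b (l 143177407470747855) (c (l 143191701123514575) (l 143171222717022415))))))) (b (l 143109443911975119) (c (c (a (l 143239461166170319) (l 143252998905168079)) (a (l 143219463796031695) (l 143233138974015695))) (b (l 143056942230618319) (a (b (l 143191288807178447) (c (l 143205582459945167) (l 143185172772946127))) (c (l 143217264772907215) (l 143197061244354767))))))))))), by decide +kernel⟩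

def k49_pm_123_a : ∃ t, chk3 f_pm_123_a t 111 63 15 = true :=
  ⟨(c (a (l 14) (b (l 16615984) (b (l 142880676757897295) (b (b (l 142916410889584719) (l 143021276812607567)) (b (a (l 142932285089595471) (l 142959979043045455)) (c (b (a (l 143043885522157647) (l 143071785634021455)) (a (b (a (l 143132602366115919) (l 143146689861009487)) (a (a (l 14) (a (l 14) (l 143141742057717839))) (c (l 143155760832938191) (a (l 14) (l 143148888884576335))))) (a (a (l 143159196807594191) (l 143166206195302607)) (b (l 143174727411826895) (l 143178713141870799))))) (c (a (l 14) (b (l 143056529908400207) (a (b (l 143145315471835215) (a (l 14) (l 143147102179147855))) (l 143161395831734479)))) (a (l 14) (a (l 14) (a (l 14) (c (l 143153355652235471) (l 14)))))))))))) (l 14)), by decide +kernel⟩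

def k50_pm_123_a : ∃ t, chk3 f_pm_123_a t 7 6 1 = true :=
  ⟨(a (a (b (a (b (l 16701632) (c (l 16739072) (l 16665272))) (c (l 16768952) (l 16704280))) (a (b (c (l 16743624) (l 16660032)) (a (l 16691304) (l 16717928))) (b (c (l 16770376) (l 16708664)) (l 16704856)))) (b (a (b (l 16762176) (l 16772208)) (b (l 16767224) (l 16771696))) (a (b (c (l 16780536) (l 16755512)) (l 16730344)) (b (l 16777280) (a (l 16779888) (l 16800600)))))) (a (b (b (a (l 16766280) (a (l 16768000) (a (l 16766960) (l 16768584)))) (a (l 16770296) (a (l 16769072) (l 16768856)))) (b (a (l 16773512) (a (l 16771984) (l 16770776))) (a (b (l 16777008) (a (l 16778456) (l 16776184))) (a (l 16773552) (l 16772232))))) (a (b (a (b (a (l 205856326807) (l 4)) (a (l 16769264) (b (l 16767928) (l 16769568)))) (a (b (l 4) (b (l 4) (l 16745528))) (l 4))) (b (a (l 16748840) (a (l 16729248) (a (l 16729944) (l 275649540967)))) (a (l 16728912) (a (l 16770008) (b (l 16770400) (l 16769368)))))) (a (b (l 4) (b (l 4) (a (a (b (l 16772216) (l 16769896)) (b (l 16726480) (l 16770920))) (a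 (b (l 4) (l 335242224375)) (l 4))))) (l 4))))), by decide +kernel⟩

def k51_pm_123_a : ∃ t, chk3 f_pm_123_a t 7 14 1 = true :=
  ⟨(a (a (a (b (a (c (l 16664288) (l 16642352)) (l 16689712)) (a (c (b (l 16640920) (l 16625792)) (l 16612408)) (b (l 16670392) (l 16657616)))) (b (c (l 16728912) (l 16728440)) (c (b (l 16716680) (l 16709216)) (b (l 16717240) (l 16709528))))) (a (b (c (l 16746224) (l 16768336)) (b (l 16724224) (a (l 16752544) (l 16777088)))) (b (a (l 16765408) (b (l 16789600) (l 16796768))) (a (b (l 16792944) (l 16797624)) (c (l 16807864) (l 16812328)))))) (b (b (a (a (c (l 16758488) (l 16785792)) (a (l 16774576) (l 16772968))) (a (a (l 16770592) (c (l 16762240) (l 16776312))) (a (a (l 16768128) (a (l 16769240) (c (l 16766904) (l 329336657367)))) (l 4)))) (a (a (c (l 16765912) (l 16794904)) (a (l 16779888) (c (l 16747728) (l 16779496)))) (a (a (c (l 16766600) (l 16778632)) (c (l 16762896) (l 16776128))) (a (a (l 16746776) (a (l 16767360) (c (l 16762096) (l 16775008)))) (a (a (a (l 16728056) (l 449058865271)) (l 4)) (l 4))))))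 (a (c (a (b (l 16796928) (l 16765152)) (a (l 16788624) (l 16780376))) (a (b (l 16803784) (l 16790976)) (a (l 16795320) (l 16787344)))) (a (a (b (c (l 16769464) (l 16778144)) (c (l 16776120) (l 16781768))) (b (a (l 16751072) (l 16769976)) (a (l 16752760) (c (l 16768392) (l 16774472))))) (a (a (b (l 16747976) (c (l 16767776) (l 16774456))) (b (c (l 16762896) (l 16773880)) (l 6))) (a (a (b (c (l 16763672) (l 16774280)) (l 6)) (l 6)) (l 6))))))), by decide +kernel⟩

def k52_pm_123_a : ∃ t, chk3 f_pm_123_a t 56 30 2 = true :=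
  ⟨(a (b (a (l 16590728) (l 16593464)) (b (l 16604552) (l 16613864))) (b (l 16648064) (l 16658312))), by decide +kernel⟩

def k53_pm_123_a : ∃ t, chk3 f_pm_123_a t 56 62 2 = true :=
  ⟨(a (a (c (b (l 16643568) (l 16653648)) (l 16621984)) (b (l 16626440) (c (c (l 16661352) (l 16658256)) (l 16632792)))) (b (l 16670048) (l 16668936))), by decide +kernel⟩

def k54_pm_123_a : ∃ t, chk3 f_pm_123_a t 56 126 2 = true :=
  ⟨(a (a (c (b (l 16661200) (b (l 16664992) (l 143456546026438991))) (b (l 16654032) (l 143135488612663567))) (a (c (b (l 16664160) (l 143290932090978639)) (b (l 16657184) (l 143218295588602127))) (c (l 143337867500667215) (l 143228466079170831)))) (b (c (l 16666056) (l 16659688)) (a (c (l 143548424002306383) (l 143434830692696399)) (c (l 16697464) (l 16690696))))), by decide +kernel⟩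

def k55_pm_123_a : ∃ t, chk3 f_pm_123_a t 112 127 2 = true :=
  ⟨(a (a (b (c (b (l 143494341742149967) (l 143542101783658831)) (l 143209293338034447)) (c (b (l 143590686458888527) (c (l 143674318071955791) (b (l 143593297798234447) (l 143617624495522127)))) (b (l 143274301969858831) (b (a (l 143481766072631631) (l 143493517105004879)) (c (l 143546431108170063) (a (l 143467334980059471) (l 143479567048819023))))))) (b (c (b (l 143513239601643855) (l 143561892996383055)) (l 143230596379492623)) (c (b (l 143611439744303439) (c (l 143695483674181967) (b (l 143615219314835791) (l 143640027048460623)))) (b (l 143296979400884559) (b (a (l 143505199417917775) (l 143516881730814287)) (c (l 143569864453407055) (a (l 143491730398101839) (l 143503893747368271)))))))) (a (a (b (c (l 143551791233253711) (l 143426446890926415)) (b (c (l 143626764190187855) (l 143493998143455567)) (c (c (l 143711220436894031) (l 143644150218441039)) (c (l 143575293293609295) (b (l 143493379667099983) (l 143516057096634703)))))) (b (c (b (l 143554058976985423) (l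 143603537005412687)) (l 143273958375801167)) (c (a (b (l 143640714245931343) (c (l 143725239212065103) (l 143658512591061327))) (b (l 143667033808650575) (l 143718092384993615))) (b (l 143341715786694991) (b (c (l 143591098775683407) (l 143521485936771407)) (c (a (l 143602025173270863) (l 143628207297036623)) (b (l 143538528368640335) (a (l 143536810381246799) (l 143563061224522063))))))))) (b (c (l 143660093141975375) (l 143355665843700047)) (b (c (l 143575980509888847) (c (l 143455446534766927) (l 143388101438964047))) (c (b (a (l 143745167862235471) (a (l 143782619981709647) (l 143802892230426959))) (a (c (a (l 143790385283449167) (l 143813131433296207)) (a (l 143723383784554831) (l 143746336092881231))) (l 143807702594732367))) (a (b (l 143609859194749263) (a (c (l 143654526859788623) (l 143583745789690191)) (c (l 143677547887657295) (a (l 143602025172894031) (l 143612539254440271))))) (b (l 143488638044193103) (c (l 143705791597297999) (l 143635422844174671))))))))), by decide +kernel⟩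

def k56_pm_123_a : ∃ t, chk3 f_pm_123_a t 113 127 2 = true :=
  ⟨(a (a (b (b (l 143504031212945743) (c (l 143608622269104463) (l 143482728171471183))) (c (b (b (l 143638034208670031) (l 143833541122359631)) (c (l 143885767932592463) (l 143820346982007119))) (b (b (l 143508704136757583) (l 143521966997832015)) (b (l 143713213303636303) (c (l 143758843042660687) (b (l 143686481424351567) (l 143691704100192591))))))) (b (b (a (l 143582783743000911) (l 143626970372948303)) (l 143710120940781903)) (c (b (l 143897175368892751) (c (l 143954006384935247) (l 143889341348774223))) (b (l 143768326333514063) (a (c (l 143805434856046927) (l 143736852809662799)) (c (l 143840000758939983) (l 143771762310005071))))))) (a (b (l 143781932815221071) (b (c (l 143965757418733903) (l 143838351492710735)) (c (b (l 143983280888496463) (l 143995169360118095)) (c (l 143891196778135887) (b (l 143818903879336271) (l 143828112290939215)))))) (b (l 143761591851745615) (b (c (l 144032965078843727) (l 143906864823173455)) (c (l 144055230193336655) (c (l 143958129560322383)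 (l 143891059342737743))))))), by decide +kernel⟩

def k57_pm_123_a : ∃ t, chk3 f_pm_123_a t 56 30 3 = true :=
  ⟨(a (b (a (l 16610200) (l 16618488)) (a (l 16621048) (l 16628272))) (b (l 16647144) (l 16653648))), by decide +kernel⟩

def k58_pm_123_a : ∃ t, chk3 f_pm_123_a t 56 62 3 = true :=
  ⟨(c (a (a (l 16616624) (l 16633880)) (l 16645976)) (a (a (l 16632592) (l 16639616)) (l 16662576))), by decide +kernel⟩

def k59_pm_123_a : ∃ t, chk3 f_pm_123_a t 56 126 3 = true :=
  ⟨(a (a (c (b (l 16647080) (l 143014404879089871)) (b (l 16640344) (l 142889953891483727))) (a (c (b (l 16650432) (l 143144971891769551)) (b (l 16643896) (l 143113429637120079))) (c (l 143116109720518863) (l 143180912173269071)))) (c (a (b (l 16667464) (l 16649776)) (l 16669560)) (b (l 16668456) (a (l 16642920) (l 16656512))))), by decide +kernel⟩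

def k60_pm_123_a : ∃ t, chk3 f_pm_123_a t 112 254 3 = true :=
  ⟨(a (a (c (l 143120576476528847) (l 143071854350680143)) (c (l 143143803663614159) (l 143097074402852943))) (a (c (a (l 143115972278468815) (l 143234307221307663)) (a (l 142980732331884623) (c (l 143043679380652239) (l 142975028615315535)))) (c (l 143225992174944527) (l 143271003416215631)))), by decide +kernel⟩

def k61_pm_123_a : ∃ t, chk3 f_pm_123_a t 224 255 3 = true :=
  ⟨(b (c (a (a (l 143125661722656975) (l 143137962510975183)) (l 143212798024122639)) (a (c (l 143201115695644879) (l 142945066916364367)) (c (l 143227160381489359) (l 142972142394507343)))) (c (a (c (b (l 143378274527674639) (b (l 143393530253033743) (a (l 143397378543763727) (l 143410160368402703)))) (b (l 143123050381820111) (b (l 143137137875943695) (a (c (l 143339654176178447) (l 143300552789147919)) (c (l 143352779598250255) (l 143313953089175823)))))) (c (a (c (l 143425759692374351) (l 143388651170316559)) (c (l 143438197919613263) (l 143401295556002063))) (b (l 143329071377121551) (a (c (l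 143360957217521935) (l 143322543025357071)) (c (l 143373945200623887) (l 143335805886398735)))))) (c (a (b (l 143091301974311119) (c (a (a (l 143253205063975119) (l 143260008293220559)) (b (l 143265712010920143) (l 143274645543747791))) (b (l 143084430025556175) (a (a (l 143217608370684111) (l 143224480319422671)) (a (l 143231420987637967) (l 143238361655836879)))))) (b (l 143118102574416079) (b (c (l 143285915540177103) (l 143111849100984527)) (a (c (l 143288183282745551) (a (l 143245233604575439) (l 143252174272774351))) (c (l 143301789741220111) (a (l 143259046221496527) (l 143265918170235087))))))) (c (b (a (l 143077626791526479) (l 143195274539974863)) (a (b (l 143089583981609167) (c (a (b (l 143188746187227343) (l 143192800636747983)) (l 143204757827649743)) (c (a (l 143175483326628047) (l 143189639540998351)) (a (l 143165312842891471) (l 143179469057261775))))) (b (l 143072404116717775) (a (b (l 143206681973768399) (c (l 143220838187532495) (l 143200703378489551))) (b (l 143220700749152463) (c (l 143234856962916559) (l 143214790873383119)))))))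 (a (a (a (l 14) (a (l 14) (b (l 143126280176173135) (c (c (l 143156516749131983) (l 14)) (l 14))))) (c (b (l 143144971876352079) (a (c (l 143161876869120207) (l 14)) (b (l 143159952723902543) (l 143167786744987855)))) (l 14))) (b (l 143065944480202831) (a (c (b (l 143170535524942031) (a (l 143174864852173007) (l 143182011678834895))) (c (a (l 14) (l 143162907662188751)) (l 14))) (b (l 143174658694561871) (a (c (l 143189089786020047) (l 143168817538056399)) (c (l 143196167893205199) (l 143176033084195023))))))))))), by decide +kernel⟩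

def k62_pm_123_a : ∃ t, chk3 f_pm_123_a t 225 255 6 = true :=
  ⟨(a (a (b (l 143174864875929871) (b (l 143227572717519119) (c (b (l 143437579444486479) (l 143448299683873103)) (c (l 143386933183725839) (l 143349068747440399))))) (c (b (l 143418681587564815) (b (l 143450155110941007) (a (b (l 143452972609405263) (c (l 143482178390327631) (l 143445138587779407))) (l 143484652291899727)))) (b (l 143167718049825039) (b (l 143196923830223119) (a (a (a (a (l 143374975993544975) (l 143375800627396879)) (l 143379786357555471)) (l 143389888121880847)) (b (l 143405075128271119) (l 143415039453315343))))))) (b (c (l 143319038356275535) (l 143248257286668559)) (a (b (l 143332301210468623) (c (a (l 143330926825701711) (b (l 143531312822632783) (l 143538184771273039))) (b (l 143309280182665487) (a (b (l 143439297431683343) (a (l 143437579444388111) (l 143449948951838991))) (c (l 143482247110410575) (l 143444382674206991)))))) (b (c (l 143371471323169103) (l 143343639926309135)) (c (b (l 143560724763525455) (l 143565672566800719)) (c (l 143507742040719695)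 (l 143470221201948943))))))), by decide +kernel⟩

def k63_pm_123_a : ∃ t, chk3 f_pm_123_a t 225 255 7 = true :=
  ⟨(c (b (a (a (l 143246676715995343) (l 143095425151631567)) (l 143265918183653583)) (a (a (b (l 143273271156015311) (b (l 143286740174717135) (b (l 143293612123029711) (c (l 143317663942623503) (l 143278493836247247))))) (b (l 143189708276220111) (c (a (a (a (l 143318213698961679) (l 143322611746029839)) (l 143332713510371599)) (l 143352848319578383)) (b (l 143184004558618831) (a (a (a (l 143284060114845903) (l 143288458161930447)) (l 143298491206795471)) (l 143318626016002255)))))) (b (a (l 143355803258224847) (l 143268941846331663)) (b (a (l 143269835194024207) (l 143411122444845327)) (c (a (b (l 143269422880030991) (a (l 143386039830806799) (l 143407067993997583))) (l 143434074753106191)) (a (a (l 143221044362395919) (l 143367141973278991)) (a (l 143385971113230607) (l 143404662814212367)))))))) (b (a (a (l 143172459672404047) (l 143111505500536911)) (l 143191838579212495)) (a (a (b (l 143196442772029647) (b (l 143208606120526031)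 (c (c (l 143246676714848463) (l 143226816783761615)) (a (c (l 143203314719867087) (l 143183179910873295)) (c (l 143210392827052239) (l 143190326737535183)))))) (b (l 143158166027452623) (a (b (c (l 143109375200673999) (l 143115010193227983)) (a (a (c (l 143244683850072271) (c (l 143214859593711823) (l 143194793504194767))) (c (l 143249081897156815) (l 143209224596046031))) (c (l 143259114942038223) (b (l 143217264775938255) (l 143221319225409743))))) (b (l 143251143482261711) (b (l 143257328235708623) (c (l 143281380055236815) (a (l 143234719525077199) (l 143248051105267919)))))))) (b (a (l 143279112313340111) (b (l 143145452937527503) (l 143149988423680207))) (b (a (a (l 143277875362119887) (l 143218776615502031)) (l 143333469427237071)) (b (a (a (l 143193968881549519) (l 143217058629107919)) (l 143335668450984143)) (a (a (a (c (l 143301446144966863) (b (l 143260420612702415) (l 143262413477691599))) (c (a (l 143311204311924943) (l 143316770590376143)) (a (l 143271140852416719) (l 143276775850361039)))) (c (l 143328659061948623) (c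 (l 143298766086160591) (l 143278699996676303)))) (a (c (l 143347556921393359) (c (l 143317732665098447) (l 143297666575630543))) (c (l 143366317341868239) (c (l 143336561805050063) (l 143316564435075279))))))))))), by decide +kernel⟩

def k64_pm_123_a : ∃ t, chk3 f_pm_123_a t 113 127 3 = true :=
  ⟨(a (c (b (b (b (l 16651808) (l 143464105181298959)) (a (l 143440534396616975) (l 143617143465050383))) (b (a (b (l 143462662070714639) (l 143383428515758351)) (l 143632536631034127)) (b (a (l 143392155891024143) (l 143644287663931663)) (c (a (b (l 143615150598717775) (c (l 143637965468107087) (l 143601544140996943))) (a (l 143670813384753487) (l 143705929043575119))) (a (a (c (l 143544300808814927) (l 143506986128507151)) (c (l 143580515979444559) (l 143543338738139407))) (a (a (l 143588899758178639) (l 143606698105815375)) (a (l 143624427733958991) (l 143642088642593103)))))))) (b (a (c (l 143321718407872719) (l 143342677840494799)) (b (l 16653416) (l 143299384588927183))) (b (a (b (l 143353466805616847) (l 143372776979939535)) (l 143309555073941711))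 (c (b (b (l 143497090525233423) (l 143320069153849615)) (a (b (l 143466785230864655) (a (b (l 143450911029018895) (c (l 143471870472028431) (l 143433318835732751))) (c (l 143507398447776015) (l 143469121694810383)))) (a (c (l 143541826911666447) (l 143503893756133647)) (c (l 143577561045893391) (l 143539834048839951))))) (b (l 143332919665606863) (a (b (l 143389681969168591) (a (b (l 143373120572457167) (a (c (l 143384940323356879) (a (l 143340684975030479) (l 143350030825521359))) (c (l 143403494585352399) (l 143363980876398799)))) (a (c (l 143421155493986575) (l 143381847943479503)) (c (l 143439503597519119) (l 143400264771879119))))) (a (a (c (l 143456408591728911) (l 143417444644045007)) (c (l 143474550536814863) (l 143435655308607695))) (c (l 143501557295956239) (l 143462868226228431))))))))) (b (c (l 143539421754835215) (l 143586632020492495)) (b (c (l 143559006809882959) (l 143508291787833551)) (a (b (c (l 143714656420593999) (l 143479154757107919)) (a (c (c (l 143740632385470799) (l 143668339487375695)) (c (b (l 143592748054069519)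 (l 143595496833728783)) (c (l 143537222710722831) (l 143498671079964879)))) (c (c (l 143774923410440527) (l 143702974109794639)) (c (l 143629100663767311) (l 143553234352914703))))) (b (c (l 143783513348522319) (l 143639271150371087)) (c (c (l 143825707112759631) (l 143754238848532815)) (c (l 143680777708716303) (b (l 143604499091620111) (l 143606217078931727))))))))), by decide +kernel⟩

def k65_pm_123_a : ∃ t, chk3 f_pm_123_a t 57 15 1 = true :=
  ⟨(a (b (b (c (l 16684568) (l 16684120)) (c (l 16690488) (l 16686784))) (b (c (b (l 16699232) (l 16684160)) (b (l 16692256) (l 16695800))) (b (c (b (l 16688576) (a (l 143831067254309199) (l 16718360))) (c (b (l 16701088) (l 16682128)) (b (l 16695608) (l 16675960)))) (c (b (a (b (l 143855393954005327) (l 143872436387561807)) (b (l 144168205035798863) (l 144182567409254735))) (b (a (c (l 144131508825899343) (l 144007126557540687)) (c (l 144257815246586191) (l 144135357124018511))) (a (a (c (l 144119895232348495) (b (l 143986373271994703) (l 143994894488666447))) (c (l 144183117162135887) (l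 144054886602506575))) (c (l 144275476155269455) (l 143968506236961103))))) (b (c (a (l 143679815670956367) (l 143994069862170959)) (a (l 143729293679821007) (l 143865152109805839))) (b (c (a (l 143695483715027279) (l 144005614736818511)) (a (l 143556807795392783) (l 143688543055905039))) (c (a (a (c (l 143888654164590927) (l 143818354131681615)) (l 143919028180844879)) (l 143833816003707215)) (b (a (l 143651159605805327) (l 143690673360322831)) (a (c (l 143601131833622863) (b (l 143706066496307471) (l 143527052232868111))) (c (l 143909063861895503) (l 143655076667687183))))))))))) (b (b (c (l 16718688) (l 16718800)) (c (l 16721032) (l 16718432))) (b (c (b (l 16726760) (l 16709648)) (b (l 16720848) (l 16722304))) (b (c (c (l 16716352) (l 16710792)) (c (l 16705280) (b (l 16720664) (l 16699848)))) (c (c (b (l 144238092785287503) (a (l 144205657186615631) (l 144498883214213391))) (b (l 144124224598917455) (a (l 144082580588773711) (l 144376974847754575)))) (b (c (a (l 16701120) (l 16711856)) (a (l 143994069871477007) (l 144116046964834639)))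 (c (a (a (l 143921639553630543) (l 143981013192229199)) (l 144247163698250063)) (b (a (l 143993313957691727) (l 144110961723146575)) (a (c (l 144029460406698319) (b (l 143957167509176655) (l 143956617753362767))) (c (l 144143947075633487) (b (l 144072753689919823) (l 144070760828010831)))))))))))), by decide +kernel⟩

def k66_pm_123_a : ∃ t, chk3 f_pm_123_a t 29 30 1 = true :=
  ⟨(a (a (b (c (l 16749768) (l 16750616)) (c (l 16749944) (l 16748264))) (b (l 16756832) (c (l 16777192) (l 16755192)))) (b (a (l 16780920) (c (l 16820880) (l 16822888))) (a (c (l 16760824) (c (l 16781088) (l 16759840))) (c (l 16786384) (b (l 16806264) (l 16802200)))))), by decide +kernel⟩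

def k67_pm_123_a : ∃ t, chk3 f_pm_123_a t 58 31 1 = true :=
  ⟨(b (b (a (b (l 16749840) (l 16750136)) (a (l 16747544) (l 16780352))) (a (c (l 16754464) (l 16746728)) (c (l 16755584) (l 16769088)))) (b (c (a (c (l 16737968) (l 16732704)) (b (l 16776160) (l 16754848))) (a (c (l 16737896) (b (l 16743472) (l 16721528))) (c (l 16768248) (b (l 16764024) (l 16761760))))) (a (a (c (b (l 16731744) (a (l 144339728913481999) (l 144391543408410895))) (b (a (l 144086703727919439) (l 144142366514299215)) (c (l 144231701846475023) (b (l 144221462618915151) (c (l 144251218198331727) (a (l 144153086772855119) (l 144204901267751247))))))) (c (b (l 16741288) (c (l 16766288) (l 16740944))) (b (c (l 16752696) (l 16735648)) (c (l 144276094636228879) (b (l 144324198255509839) (c (l 144350449140957455) (a (l 144254516739064143) (l 144302070625714511)))))))) (c (a (c (l 16753480) (l 144499501730414863)) (b (l 16779560) (l 144538809250529551))) (c (b (l 16745072) (a (l 144368316191162639) (l 144452222688100623))) (a (b (l 16734200) (b (l 144418481416552719)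 (c (l 144441227586568463) (a (l 144347494208241935) (l 144390856206139663))))) (b (l 16742560) (b (l 16750984) (c (l 144523553535213839) (a (l 144432087899930895) (l 144471258009075983))))))))))), by decide +kernel⟩

def k68_pm_123_a : ∃ t, chk3 f_pm_123_a t 59 31 1 = true :=
  ⟨(a (b (c (l 16777072) (b (l 16794864) (l 16768176))) (c (b (l 16772464) (c (l 16772296) (b (l 16787872) (l 16770056)))) (b (c (l 16785728) (b (l 16782096) (l 16778552))) (b (c (l 16760560) (a (l 16771256) (l 16757368))) (c (a (l 16764824) (l 16760808)) (a (b (l 16758224) (c (l 16758456) (b (l 16755000) (a (l 144503281291411727) (l 16766168))))) (b (l 16767464) (c (l 16775248) (b (l 16771856) (a (l 16769280) (l 16772232))))))))))) (b (c (c (l 16797560) (l 16794640)) (b (l 16794216) (c (l 16808656) (l 16783776)))) (b (c (l 16787384) (c (l 16779696) (a (l 16791672) (l 16798496)))) (b (c (l 16782880) (c (l 16784040) (a (l 16763848) (c (l 16792384) (l 16788960))))) (c (a (l 16777136) (l 16782288)) (c (a (l 16766664) (l 16782360)) (b (a (c (l 16783184) (l 16779456))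 (c (l 16788584) (l 16774368))) (a (c (l 16780944) (b (l 16769760) (c (l 16777400) (a (l 16774024) (l 16776680))))) (c (l 16775544) (c (l 16776528) (a (b (l 16780560) (l 16779184)) (a (l 16781680) (l 16782848))))))))))))), by decide +kernel⟩

def k69_pm_123_a : ∃ t, chk3 f_pm_123_a t 30 30 1 = true :=
  ⟨(b (a (a (c (l 16822808) (l 16824944)) (l 16812392)) (a (l 16801608) (c (l 16769544) (l 16771848)))) (b (a (a (l 16814280) (l 16817512)) (a (l 16784800) (l 16774088))) (a (a (c (l 16830448) (l 16807448)) (c (l 16820136) (l 16818168))) (a (c (l 16809336) (l 16807344)) (l 16776440))))), by decide +kernel⟩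

def k70_pm_123_a : ∃ t, chk3 f_pm_123_a t 30 31 1 = true :=
  ⟨(a (b (a (c (l 16800432) (b (l 16799120) (c (l 16812536) (l 16808632)))) (c (l 16792112) (b (l 16790584) (l 16782016)))) (c (a (b (l 16790128) (a (c (l 16808872) (l 16802672)) (l 16781752))) (b (l 16783288) (c (l 16801304) (b (l 16797000) (l 16772856))))) (b (a (c (l 16782576) (b (l 16800744) (l 16781088))) (c (l 16796992) (a (l 16793264) (l 16790272)))) (b (a (c (l 16796800) (a (l 16781296) (l 16767808))) (c (l 16770088) (c (l 16786368) (l 16772632)))) (a (c (a (l 16772768) (l 16790912)) (c (a (l 16777752) (l 16775016)) (b (a (l 16775352) (l 16783080)) (a (c (l 16773528) (a (b (l 16783432) (l 16781976)) (l 16781352))) (a (l 16771880) (l 16769368)))))) (c (c (l 16767936) (l 16775008)) (a (b (l 16771968) (b (l 16770192) (a (l 16770856) (l 16768504)))) (b (l 16780296) (a (l 16771368) (l 16769792)))))))))) (b (a (b (c (l 16786504) (l 16782296)) (c (l 16802856) (l 16775136))) (b (c (l 16799248) (l 16774400)) (c (l 16796480) (l 16769360)))) (b (a (c (l 16777176) (c (l 16791296)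 (l 16775888))) (c (l 16771960) (a (l 16764544) (l 16773104)))) (c (a (b (l 16773680) (a (l 16772480) (l 16770360))) (b (l 16774536) (a (l 16768416) (l 16777128)))) (c (a (b (l 16765456) (a (l 16784136) (l 16761424))) (b (l 16761816) (a (l 16770408) (l 16769136)))) (a (b (c (l 16782024) (l 16768488)) (a (b (l 16778440) (a (l 16766328) (l 16765560))) (c (l 16767112) (b (l 16775240) (l 16764144))))) (b (b (l 16757240) (l 16766120)) (a (c (l 16765848) (b (l 16774040) (l 16763120))) (b (l 16774600) (a (l 16762800) (l 16762464))))))))))), by decide +kernel⟩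

def k71_pm_123_a : ∃ t, chk3 f_pm_123_a t 31 15 1 = true :=
  ⟨(a (b (a (b (c (l 16760952) (l 16763368)) (c (l 16766656) (l 16765752))) (b (c (l 16753968) (l 16777672)) (c (b (l 16778880) (l 16760600)) (b (l 16779280) (l 16759480))))) (b (a (b (c (b (l 16791352) (l 16771032)) (b (l 16788440) (l 16767264))) (c (l 16769896) (l 16764592))) (b (a (l 16774384) (c (l 16782680) (l 16780368))) (a (b (l 16764328) (l 16763360)) (b (l 16772344) (l 16771896))))) (b (a (c (b (l 16789008) (l 16766784)) (a (l 16768808) (b (l 16781512) (l 16758496)))) (c (a (l 16764416) (l 16772992)) (b (l 16769016) (a (l 16757504) (l 16777728))))) (c (a (c (a (l 16778392) (l 16776544)) (b (l 16773936) (a (l 16783584) (l 16771792)))) (b (a (l 16763016) (l 16771944)) (a (a (l 16772856) (l 16772168)) (c (l 16772696) (b (l 16780320) (l 16774608)))))) (a (c (b (l 16769608) (a (l 16773344) (b (l 16778224) (l 16766824)))) (b (a (l 16775880) (l 16764720)) (b (a (l 16773896) (l 16763032)) (a (a (l 16764832) (l 16764656)) (a (l 16765864) (a (l 16772392) (l 16772400)))))))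 (b (a (a (l 16766448) (l 16766184)) (b (l 16766232) (l 16765560))) (b (a (c (l 16777544) (l 16762936)) (c (l 16777072) (l 16768360))) (a (c (l 16771544) (a (c (l 16773584) (l 16771280)) (c (l 16773608) (b (l 16771712) (l 16771240))))) (c (a (l 16776528) (l 16776416)) (c (a (l 16773704) (l 16773856)) (b (l 16766848) (a (l 16771528) (l 16771880))))))))))))) (a (a (a (a (b (b (l 16773568) (l 16766720)) (b (b (l 16779856) (b (l 16781128) (l 16781264))) (b (b (l 16780608) (l 16769328)) (b (c (l 16781520) (l 16776256)) (c (l 16775656) (c (l 16771384) (b (l 16773856) (b (l 16773360) (l 16773024))))))))) (l 6)) (l 6)) (l 6)) (l 6))), by decide +kernel⟩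

theorem s72_pm_123_a : ∃ t, chk3 f_pm_123_a t 30 15 1 = true := ex3_b k69_pm_123_a k70_pm_123_a

theorem s73_pm_123_a : ∃ t, chk3 f_pm_123_a t 15 15 1 = true := ex3_a s72_pm_123_a k71_pm_123_a

theorem s74_pm_123_a : ∃ t, chk3 f_pm_123_a t 29 31 1 = true := ex3_a k67_pm_123_a k68_pm_123_a

theorem s75_pm_123_a : ∃ t, chk3 f_pm_123_a t 29 15 1 = true := ex3_b k66_pm_123_a s74_pm_123_a

theorem s76_pm_123_a : ∃ t, chk3 f_pm_123_a t 225 255 3 = true := ex3_c k62_pm_123_a k63_pm_123_a

theorem s77_pm_123_a : ∃ t, chk3 f_pm_123_a t 112 255 3 = true := ex3_a k61_pm_123_a s76_pm_123_a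

theorem s78_pm_123_a : ∃ t, chk3 f_pm_123_a t 112 127 3 = true := ex3_b k60_pm_123_a s77_pm_123_a

theorem s79_pm_123_a : ∃ t, chk3 f_pm_123_a t 56 127 3 = true := ex3_a s78_pm_123_a k64_pm_123_a

theorem s80_pm_123_a : ∃ t, chk3 f_pm_123_a t 56 63 3 = true := ex3_b k59_pm_123_a s79_pm_123_a

theorem s81_pm_123_a : ∃ t, chk3 f_pm_123_a t 56 31 3 = true := ex3_b k58_pm_123_a s80_pm_123_a

theorem s82_pm_123_a : ∃ t, chk3 f_pm_123_a t 56 15 3 = true := ex3_b k57_pm_123_a s81_pm_123_a

theorem s83_pm_123_a : ∃ t, chk3 f_pm_123_a t 56 127 2 = true := ex3_a k55_pm_123_a k56_pm_123_a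

theorem s84_pm_123_a : ∃ t, chk3 f_pm_123_a t 56 63 2 = true := ex3_b k54_pm_123_a s83_pm_123_a

theorem s85_pm_123_a : ∃ t, chk3 f_pm_123_a t 56 31 2 = true := ex3_b k53_pm_123_a s84_pm_123_a

theorem s86_pm_123_a : ∃ t, chk3 f_pm_123_a t 56 15 2 = true := ex3_b k52_pm_123_a s85_pm_123_a

theorem s87_pm_123_a : ∃ t, chk3 f_pm_123_a t 56 15 1 = true := ex3_c s86_pm_123_a s82_pm_123_a

theorem s88_pm_123_a : ∃ t, chk3 f_pm_123_a t 28 15 1 = true := ex3_a s87_pm_123_a k65_pm_123_a

theorem s89_pm_123_a : ∃ t, chk3 f_pm_123_a t 14 15 1 = true := ex3_a s88_pm_123_a s75_pm_123_a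

theorem s90_pm_123_a : ∃ t, chk3 f_pm_123_a t 7 15 1 = true := ex3_a s89_pm_123_a s73_pm_123_a

theorem s91_pm_123_a : ∃ t, chk3 f_pm_123_a t 7 7 1 = true := ex3_b k51_pm_123_a s90_pm_123_a

theorem s92_pm_123_a : ∃ t, chk3 f_pm_123_a t 7 3 1 = true := ex3_b k50_pm_123_a s91_pm_123_a

theorem s93_pm_123_a : ∃ t, chk3 f_pm_123_a t 111 63 7 = true := ex3_c k48_pm_123_a k49_pm_123_a

theorem s94_pm_123_a : ∃ t, chk3 f_pm_123_a t 55 63 7 = true := ex3_a k47_pm_123_a s93_pm_123_a

theorem s95_pm_123_a : ∃ t, chk3 f_pm_123_a t 27 63 7 = true := ex3_a k46_pm_123_a s94_pm_123_a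

theorem s96_pm_123_a : ∃ t, chk3 f_pm_123_a t 110 63 6 = true := ex3_a k43_pm_123_a k44_pm_123_a

theorem s97_pm_123_a : ∃ t, chk3 f_pm_123_a t 55 63 6 = true := ex3_a s96_pm_123_a k45_pm_123_a

theorem s98_pm_123_a : ∃ t, chk3 f_pm_123_a t 54 63 6 = true := ex3_a k41_pm_123_a k42_pm_123_a

theorem s99_pm_123_a : ∃ t, chk3 f_pm_123_a t 27 63 6 = true := ex3_a s98_pm_123_a s97_pm_123_a

theorem s100_pm_123_a : ∃ t, chk3 f_pm_123_a t 27 63 3 = true := ex3_c s99_pm_123_a s95_pm_123_a

theorem s101_pm_123_a : ∃ t, chk3 f_pm_123_a t 27 31 3 = true := ex3_b k40_pm_123_a s100_pm_123_a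

theorem s102_pm_123_a : ∃ t, chk3 f_pm_123_a t 27 15 3 = true := ex3_b k39_pm_123_a s101_pm_123_a

theorem s103_pm_123_a : ∃ t, chk3 f_pm_123_a t 27 7 3 = true := ex3_b k38_pm_123_a s102_pm_123_a

theorem s104_pm_123_a : ∃ t, chk3 f_pm_123_a t 13 7 3 = true := ex3_a k37_pm_123_a s103_pm_123_a

theorem s105_pm_123_a : ∃ t, chk3 f_pm_123_a t 13 3 3 = true := ex3_b k36_pm_123_a s104_pm_123_a

theorem s106_pm_123_a : ∃ t, chk3 f_pm_123_a t 55 127 2 = true := ex3_a k34_pm_123_a k35_pm_123_a

theorem s107_pm_123_a : ∃ t, chk3 f_pm_123_a t 55 63 2 = true := ex3_b k33_pm_123_a s106_pm_123_a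

theorem s108_pm_123_a : ∃ t, chk3 f_pm_123_a t 55 31 2 = true := ex3_b k32_pm_123_a s107_pm_123_a

theorem s109_pm_123_a : ∃ t, chk3 f_pm_123_a t 55 15 2 = true := ex3_b k31_pm_123_a s108_pm_123_a

theorem s110_pm_123_a : ∃ t, chk3 f_pm_123_a t 54 255 5 = true := ex3_a k29_pm_123_a k30_pm_123_a

theorem s111_pm_123_a : ∃ t, chk3 f_pm_123_a t 54 255 2 = true := ex3_c k28_pm_123_a s110_pm_123_a

theorem s112_pm_123_a : ∃ t, chk3 f_pm_123_a t 54 127 2 = true := ex3_b k27_pm_123_a s111_pm_123_a

theorem s113_pm_123_a : ∃ t, chk3 f_pm_123_a t 54 63 2 = true := ex3_b k26_pm_123_a s112_pm_123_a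

theorem s114_pm_123_a : ∃ t, chk3 f_pm_123_a t 54 31 2 = true := ex3_b k25_pm_123_a s113_pm_123_a

theorem s115_pm_123_a : ∃ t, chk3 f_pm_123_a t 54 15 2 = true := ex3_b k24_pm_123_a s114_pm_123_a

theorem s116_pm_123_a : ∃ t, chk3 f_pm_123_a t 27 15 2 = true := ex3_a s115_pm_123_a s109_pm_123_a

theorem s117_pm_123_a : ∃ t, chk3 f_pm_123_a t 26 31 5 = true := ex3_b k22_pm_123_a k23_pm_123_a

theorem s118_pm_123_a : ∃ t, chk3 f_pm_123_a t 26 15 5 = true := ex3_b k21_pm_123_a s117_pm_123_a

theorem s119_pm_123_a : ∃ t, chk3 f_pm_123_a t 53 255 4 = true := ex3_c k19_pm_123_a k20_pm_123_a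

theorem s120_pm_123_a : ∃ t, chk3 f_pm_123_a t 53 127 4 = true := ex3_b k18_pm_123_a s119_pm_123_a

theorem s121_pm_123_a : ∃ t, chk3 f_pm_123_a t 53 63 4 = true := ex3_b k17_pm_123_a s120_pm_123_a

theorem s122_pm_123_a : ∃ t, chk3 f_pm_123_a t 26 63 4 = true := ex3_a k16_pm_123_a s121_pm_123_a

theorem s123_pm_123_a : ∃ t, chk3 f_pm_123_a t 26 31 4 = true := ex3_b k15_pm_123_a s122_pm_123_a

theorem s124_pm_123_a : ∃ t, chk3 f_pm_123_a t 26 15 4 = true := ex3_b k14_pm_123_a s123_pm_123_a

theorem s125_pm_123_a : ∃ t, chk3 f_pm_123_a t 26 15 2 = true := ex3_c s124_pm_123_a s118_pm_123_a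

theorem s126_pm_123_a : ∃ t, chk3 f_pm_123_a t 13 15 2 = true := ex3_a s125_pm_123_a s116_pm_123_a

theorem s127_pm_123_a : ∃ t, chk3 f_pm_123_a t 13 7 2 = true := ex3_b k13_pm_123_a s126_pm_123_a

theorem s128_pm_123_a : ∃ t, chk3 f_pm_123_a t 13 3 2 = true := ex3_b k12_pm_123_a s127_pm_123_a

theorem s129_pm_123_a : ∃ t, chk3 f_pm_123_a t 13 3 1 = true := ex3_c s128_pm_123_a s105_pm_123_a

theorem s130_pm_123_a : ∃ t, chk3 f_pm_123_a t 25 15 2 = true := ex3_b k9_pm_123_a k10_pm_123_a

theorem s131_pm_123_a : ∃ t, chk3 f_pm_123_a t 25 15 1 = true := ex3_c s130_pm_123_a k11_pm_123_a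

theorem s132_pm_123_a : ∃ t, chk3 f_pm_123_a t 12 15 1 = true := ex3_a k8_pm_123_a s131_pm_123_a

theorem s133_pm_123_a : ∃ t, chk3 f_pm_123_a t 12 7 1 = true := ex3_b k7_pm_123_a s132_pm_123_a

theorem s134_pm_123_a : ∃ t, chk3 f_pm_123_a t 12 3 1 = true := ex3_b k6_pm_123_a s133_pm_123_a

theorem s135_pm_123_a : ∃ t, chk3 f_pm_123_a t 6 3 1 = true := ex3_a s134_pm_123_a s129_pm_123_a

theorem s136_pm_123_a : ∃ t, chk3 f_pm_123_a t 3 3 1 = true := ex3_a s135_pm_123_a s92_pm_123_a

theorem s137_pm_123_a : ∃ t, chk3 f_pm_123_a t 3 1 1 = true := ex3_b k5_pm_123_a s136_pm_123_a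

theorem s138_pm_123_a : ∃ t, chk3 f_pm_123_a t 5 7 1 = true := ex3_a k3_pm_123_a k4_pm_123_a

theorem s139_pm_123_a : ∃ t, chk3 f_pm_123_a t 5 3 1 = true := ex3_b k2_pm_123_a s138_pm_123_a

theorem s140_pm_123_a : ∃ t, chk3 f_pm_123_a t 2 3 1 = true := ex3_a k1_pm_123_a s139_pm_123_a

theorem s141_pm_123_a : ∃ t, chk3 f_pm_123_a t 2 1 1 = true := ex3_b k0_pm_123_a s140_pm_123_a

theorem s142_pm_123_a : ∃ t, chk3 f_pm_123_a t 1 1 1 = true := ex3_a s141_pm_123_a s137_pm_123_a

theorem c_pm_123_a : CertB 536870912 536870912 0 536870912 858993459 64424510 3 eng mog cd0q1 cd1q2a pd3 true true false .npn 1 2 3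
    ndB0q1 ndB1q2a pcB3 cut_pm_123_a xt_pm_123_a :=
  certB2 (fam := true) (s1 := true) (s2 := false) (a := 1) (b := 2) (c := 3) (cn := .npn) (n1 := ndB0q1) (n2 := ndB1q2a) (pc := pcB3) (cut := cut_pm_123_a) (xt := xt_pm_123_a) (P1 := 536870912) (W1 := 536870912) (P2 := 0) (W2 := 536870912) (P3 := 858993459) (W3 := 64424510) (N0 := 3) (En := eng) (mo := mog) (C1 := cd0q1) (C2 := cd1q2a) (C3 := pd3)
    rfl (fun _ => rfl) s142_pm_123_a

noncomputable def cut_pm_123_b : Cut := Cut.of [[⟨0, 1, 0, 67108864⟩, ⟨1, 1, 0, 67108864⟩, ⟨2, 2, 0, 16777216⟩], [⟨0, 0, 1, 20971520⟩, ⟨1, 1, 0, 16777216⟩, ⟨2, 1, 1, 20971520⟩]]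

noncomputable def f_pm_123_b : ℕ → ℕ → ℕ → ℕ → Bool := onCell 1610612736 536870912 1239849684 370763052 858993459 64424510
    (rowB 3 eng mog cd0q1 cd1q2b pd3 2 true true false .npn 1 2 3 (qsf 536870912 536870912 1239849684 370763052 3) ndB0q1 ndB1q2b pcB3 cut_pm_123_b Ext.none)

def k0_pm_123_b : ∃ t, chk3 f_pm_123_b t 1 1 1 = true :=
  ⟨(a (b (a (l 1) (b (a (b (b (a (c (l 16485472) (l 16536424)) (c (l 16582000) (l 16585184))) (a (l 1) (c (l 16567384) (l 16567912)))) (l 1)) (b (a (c (b (l 16617008) (l 16607440)) (b (l 16604864) (l 16595472))) (c (l 16559544) (b (l 16623200) (l 16618464)))) (a (c (l 16519832) (l 16567184)) (c (l 16559528) (l 16596632))))) (a (l 1) (b (a (l 1) (a (l 1) (l 16576752))) (l 1))))) (l 1)) (a (b (b (a (b (a (b (a (l 16649080) (l 16662280)) (l 16613184)) (a (b (l 16676016) (l 16673168)) (b (l 16647904) (l 16686440)))) (c (a (l 16653016) (l 16679864)) (a (l 16624488) (l 16650272)))) (a (b (c (b (l 16800000) (l 16715904)) (a (l 16647472) (b (l 16710056) (l 16703064)))) (c (l 16698232) (l 16628440))) (a (b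 (b (c (l 16739672) (l 16722368)) (l 16697672)) (a (l 16689032) (l 16688944))) (b (b (a (l 16741504) (l 16722104)) (l 16719568)) (c (l 16698312) (l 16619176)))))) (a (b (a (c (l 16622312) (l 16580008)) (l 16628288)) (a (l 1) (l 16583320))) (a (b (c (l 16665520) (l 16623560)) (c (l 16631152) (l 16573464))) (b (a (l 16609104) (l 4)) (l 4))))) (a (l 1) (b (a (b (a (l 16550272) (l 4)) (l 1)) (l 4)) (l 1)))) (a (b (b (a (a (b (b (a (b (l 16749384) (l 16736672)) (b (l 16750520) (l 4))) (a (l 16720544) (l 4))) (l 4)) (l 4)) (l 4)) (l 4)) (l 4)) (l 4)))), by decide +kernel⟩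

theorem c_pm_123_b : CertB 536870912 536870912 1239849684 370763052 858993459 64424510 3 eng mog cd0q1 cd1q2b pd3 true true false .npn 1 2 3
    ndB0q1 ndB1q2b pcB3 cut_pm_123_b Ext.none :=
  certB2 (fam := true) (s1 := true) (s2 := false) (a := 1) (b := 2) (c := 3) (cn := .npn) (n1 := ndB0q1) (n2 := ndB1q2b) (pc := pcB3) (cut := cut_pm_123_b) (xt := Ext.none) (P1 := 536870912) (W1 := 536870912) (P2 := 1239849684) (W2 := 370763052) (P3 := 858993459) (W3 := 64424510) (N0 := 3) (En := eng) (mo := mog) (C1 := cd0q1) (C2 := cd1q2b) (C3 := pd3)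
    rfl (fun _ => rfl) k0_pm_123_b

noncomputable def f_pm_133 : ℕ → ℕ → ℕ → ℕ → Bool := onCell 536870912 536870912 1610612736 536870912 858993459 64424510
    (rowB 3 eng mog cd0q1 cd1q3 pd3 0 true true false .dn 1 3 3 (qsf 536870912 536870912 1610612736 536870912 3) ndB0q1 ndB1q3 pcB3 Cut.none Ext.none)

def k0_pm_133 : ∃ t, chk3 f_pm_133 t 1 1 1 = true :=
  ⟨(l 4), by decide +kernel⟩

theorem c_pm_133 : CertB 536870912 536870912 1610612736 536870912 858993459 64424510 3 eng mog cd0q1 cd1q3 pd3 true true false .dn 1 3 3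
    ndB0q1 ndB1q3 pcB3 Cut.none Ext.none :=
  certB0 (fam := true) (s1 := true) (s2 := false) (a := 1) (b := 3) (c := 3) (cn := .dn) (n1 := ndB0q1) (n2 := ndB1q3) (pc := pcB3) (cut := Cut.none) (xt := Ext.none) (P1 := 536870912) (W1 := 536870912) (P2 := 1610612736) (W2 := 536870912) (P3 := 858993459) (W3 := 64424510) (N0 := 3) (En := eng) (mo := mog) (C1 := cd0q1) (C2 := cd1q3) (C3 := pd3)
    rfl k0_pm_133

noncomputable def cut_pm_202 : Cut := Cut.of [[⟨0, 1, 0, 67108864⟩, ⟨1, 0, 0, 67108864⟩, ⟨2, 1, 0, 67108864⟩]]

noncomputable def f_pm_202 : ℕ → ℕ → ℕ → ℕ → Bool := onCell 0 536870912 1073741824 536870912 858993459 64424510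
    (rowB 3 eng mog cd0q2 cd1q0 pd2 1 true true false .pp 2 0 2 (qsf 0 536870912 0 536870912 2) ndB0q2 ndB1q0 pcB2 cut_pm_202 Ext.none)

def k0_pm_202 : ∃ t, chk3 f_pm_202 t 4 2 1 = true :=
  ⟨(b (l 1) (b (b (b (l 1) (a (b (l 1) (b (l 1) (c (a (l 16317304) (l 16290928)) (a (l 16153760) (a (c (l 16221776) (l 16153320)) (c (l 16220472) (l 16152656))))))) (a (b (l 1) (c (l 16299328) (c (l 16213712) (l 238402946711)))) (c (b (l 16276112) (l 16298944)) (c (l 280815897815) (b (l 16136296) (l 16159152))))))) (c (a (b (a (l 16242232) (c (l 16285336) (l 16314120))) (l 16296840)) (b (a (c (l 16364832) (l 16311496)) (l 16361360)) (a (c (l 16415696) (l 16362896)) (l 16342632)))) (a (b (a (b (c (l 16247784) (l 16181992)) (l 16241456)) (a (b (l 16209008) (l 16235472)) (b (a (l 16122608) (l 16164808)) (l 16211504)))) (c (l 16307192) (l 16222360))) (b (a (b (l 16165272) (l 16149208)) (c (l 16253680) (l 16192664))) (a (a (l 16123944) (l 16271008)) (l 16271184)))))) (a (b (b (c (l 16432368) (l 16239608)) (a (l 16211752) (l 16211960))) (c (l 16423728)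 (l 16342216))) (b (c (b (a (l 16435728) (l 16434664)) (a (l 16474104) (l 16478616))) (b (a (l 16193904) (l 16320656)) (c (l 16397680) (l 16208712)))) (c (b (c (l 16424584) (l 16472936)) (l 16232352)) (b (l 16242160) (l 16451080))))))), by decide +kernel⟩

def k1_pm_202 : ∃ t, chk3 f_pm_202 t 5 2 1 = true :=
  ⟨(b (b (l 1) (b (l 1) (a (l 1) (a (l 1) (b (l 1) (b (l 1) (c (c (l 16341336) (l 16294824)) (c (l 16244232) (a (l 16178624) (l 16200336)))))))))) (a (b (b (b (b (l 1) (c (a (l 16266472) (a (l 16280312) (l 16291512))) (a (a (l 1) (l 16164712)) (c (l 16209864) (l 16153808))))) (c (a (b (l 16286168) (l 16306648)) (b (l 16303160) (l 16321208))) (c (a (l 286721503335) (l 16238128)) (a (b (l 16151712) (l 16173120)) (b (l 16173432) (l 16193336)))))) (b (c (a (l 16360856) (l 16372296)) (a (l 16149488) (l 16228248))) (c (c (l 16349944) (l 16364944)) (a (l 16276576) (l 16288168))))) (b (b (c (l 16413112) (l 16262664)) (c (l 16479144) (c (l 16399600) (l 16337752)))) (c (a (c (l 16327512) (l 16460832)) (l 16390040)) (b (l 16414016) (l 16460464)))))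 (b (b (b (c (a (b (c (l 16319984) (l 16272944)) (c (l 16333136) (l 16287568))) (b (c (l 16350800) (l 16306208)) (l 16340336))) (a (b (c (l 16221760) (l 150356136759)) (c (l 16237872) (l 16184048))) (b (c (l 16257640) (l 16205088)) (l 16267864)))) (c (a (b (l 16325584) (l 16341152)) (b (l 16352496) (l 16365536))) (a (b (l 16228872) (l 16246656)) (b (l 16262440) (l 16278352))))) (c (b (a (l 16368064) (l 16389168)) (c (l 16393728) (l 16392448))) (b (c (l 16289920) (l 16239024)) (a (l 16306048) (l 16329712))))) (b (c (b (l 16430720) (l 16489464)) (a (l 16192984) (l 16230360))) (c (c (l 16451928) (l 16499256)) (l 16377992)))))), by decide +kernel⟩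

def k2_pm_202 : ∃ t, chk3 f_pm_202 t 2 3 1 = true :=
  ⟨(b (a (b (c (a (b (l 16415480) (l 16402560)) (b (c (l 16371408) (l 16414064)) (l 16201528))) (b (a (l 16491368) (l 16489664)) (a (l 16478440) (l 16457168)))) (c (a (b (l 16402496) (l 16412824)) (b (l 16297192) (l 16362232))) (a (l 16466784) (l 16326848)))) (b (a (c (a (b (c (b (l 16360848) (l 16338216)) (l 16399040)) (l 16338784)) (b (c (l 16353416) (l 16402776)) (b (l 16331208) (l 16310816)))) (b (c (l 16458040) (l 16484552)) (l 16356240))) (c (b (c (a (l 16372824) (l 16390288)) (l 16430112)) (a (l 16475456) (l 16348368))) (b (l 16508872) (l 16449696)))) (a (c (b (c (l 16288376) (l 16329504)) (l 16280616)) (b (l 16404352) (l 16386464))) (c (b (a (b (l 16283120) (l 16263448)) (l 16285712)) (a (l 16270504) (b (l 16241256) (l 16221072)))) (b (a (l 16383968) (l 16394360)) (a (l 16349880) (l 16315568))))))) (a (b (c (a (b (l 16432320) (l 16459696)) (b (l 16374568) (l 16395976))) (a (l 16483344) (l 16432632))) (a (b (l 16502752) (l 16536024)) (b (l 16438168) (l 16467912)))) (b (c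 (a (b (l 16306296) (l 16321136)) (b (a (l 16247240) (l 16209568)) (l 16235000))) (a (l 16378768) (b (l 16238120) (l 16312848)))) (c (a (b (l 16345040) (l 16376768)) (b (l 16253360) (l 16280752))) (a (l 16399528) (l 16196336)))))), by decide +kernel⟩

def k3_pm_202 : ∃ t, chk3 f_pm_202 t 6 8 1 = true :=
  ⟨(l 1), by decide +kernel⟩

def k4_pm_202 : ∃ t, chk3 f_pm_202 t 6 18 1 = true :=
  ⟨(a (l 1) (b (b (l 1) (a (l 1) (b (a (l 1) (a (a (l 1) (c (l 125660802823) (l 135861253495))) (c (c (l 246993674119) (l 236793076503)) (c (l 226055604423) (l 221223721175))))) (a (b (l 1) (a (l 1) (a (l 1) (a (l 1) (c (l 167536711815) (l 16437168)))))) (c (a (c (l 255583597159) (l 248067337847)) (c (l 16529232) (l 16500416))) (a (c (l 236256119927) (l 233034847063)) (c (l 16469112) (l 16435328)))))))) (b (b (a (l 1) (a (c (b (a (l 1) (c (l 16503088) (l 135861286311))) (c (l 109554649383) (l 122439489223))) (a (c (l 16418880) (l 16380496)) (c (l 180421509975) (l 213170594455)))) (c (a (c (l 16517880) (a (l 16483520) (l 16490720))) (l 16516560)) (a (c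 (l 16453568) (l 16417368)) (l 16451792))))) (a (a (l 1) (a (l 1) (b (l 1) (c (l 16445624) (l 16380128))))) (a (c (c (a (l 16488160) (l 16503800)) (a (l 16454432) (l 16471056))) (c (a (l 16417784) (l 16435448)) (l 238940365879))) (c (a (c (l 16519296) (l 16487536)) (l 16517992)) (a (c (l 16452944) (l 16415520)) (l 16451016)))))) (a (c (c (a (l 231961113479) (b (l 47814412407) (l 16468696))) (a (l 213170557287) (b (l 72510407591) (l 16431704)))) (c (a (l 202433039079) (b (l 110628189559) (l 16391456))) (a (l 197064283687) (b (l 153040945543) (l 16347960))))) (b (a (c (c (l 16496928) (l 16462824)) (c (l 16425688) (l 16385536))) (c (a (l 16504304) (l 16519320)) (a (l 16433016) (l 16450112)))) (a (c (l 16460000) (l 16404752)) (c (l 16512448) (l 16440192)))))))), by decide +kernel⟩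

def k5_pm_202 : ∃ t, chk3 f_pm_202 t 6 19 1 = true :=
  ⟨(a (a (b (a (l 1) (a (l 1) (b (l 1) (b (l 1) (c (l 16362536) (l 16261360)))))) (c (b (c (l 16372960) (l 59625289383)) (c (l 16378632) (l 16334984))) (b (c (a (l 16264768) (l 16288712)) (a (l 16209808) (l 16235376))) (c (l 16287448) (a (l 16223568) (l 16248288)))))) (b (a (b (l 1) (c (b (l 16376760) (l 16380440)) (b (l 16216336) (c (l 16307920) (l 16254512))))) (c (b (b (l 16396112) (l 16398968)) (b (l 16402032) (l 16405152))) (b (c (l 16319808) (l 81636923383)) (b (l 16245208) (l 16247080))))) (c (b (a (l 16383864) (l 16407600)) (l 16379088)) (b (b (a (l 16265176) (l 16313896)) (a (l 16291240) (l 16318488))) (c (l 16335784) (l 16288368)))))) (c (a (a (b (b (b (l 16392120) (l 16425872)) (l 16408648)) (l 16412368)) (b (b (b (l 16452120) (l 16453840)) (l 16456720)) (l 16458448))) (a (b (b (l 16482448) (l 16485016)) (l 16484696)) (b (c (b (l 16530024) (l 16532096)) (l 16485408)) (l 16512216)))) (a (b (b (a (c (l 16360416) (l 113312366231)) (b (l 16369784) (l 16369728))) (a (c (l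 16363056) (l 16313928)) (c (l 16393232) (l 16346304)))) (b (a (l 16303072) (l 16375152)) (a (l 16353472) (l 16382544)))) (b (b (a (l 16382448) (l 16417112)) (a (l 16381656) (l 16415008))) (c (l 16445072) (l 16405272)))))), by decide +kernel⟩

def k6_pm_202 : ∃ t, chk3 f_pm_202 t 6 5 1 = true :=
  ⟨(c (b (a (a (b (b (b (c (l 16385360) (l 16343936)) (l 16373840)) (b (l 16383408) (l 16393880))) (b (l 16414144) (l 16443752))) (b (b (b (l 16405224) (l 16411296)) (b (l 16418208) (l 16426040))) (b (l 16443032) (l 16468592)))) (b (a (b (b (l 16449264) (l 16452600)) (b (l 16456776) (l 16462032))) (b (l 16434968) (l 16438224))) (a (b (l 16433888) (l 16496936)) (b (l 16512720) (l 16528800))))) (a (b (b (l 16485632) (l 16515064)) (c (l 16476376) (l 16519200))) (a (b (l 16529448) (l 16506856)) (b (l 16551664) (l 16508040))))) (b (a (b (b (a (b (c (l 16298768) (l 16249856)) (l 16287896)) (b (c (l 16344928) (l 16300416)) (l 16334224))) (a (b (l 16301520) (l 16315480)) (b (l 16345832) (l 16357744)))) (b (a (l 16333528) (l 16371952)) (a (l 16358240)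 (l 16391224)))) (b (a (b (c (l 16399680) (l 16340848)) (b (l 16395152) (l 16404736))) (b (c (l 16454000) (l 16421408)) (l 16388848))) (a (b (l 16414696) (l 16428504)) (b (l 16461088) (l 16469472))))) (a (b (b (l 16335976) (l 16424400)) (l 16440448)) (b (a (l 16399968) (l 16482832)) (a (l 16483544) (l 16501136)))))), by decide +kernel⟩

def k7_pm_202 : ∃ t, chk3 f_pm_202 t 7 8 1 = true :=
  ⟨(b (a (l 1) (l 6)) (b (a (a (l 1) (l 6)) (l 6)) (b (a (a (l 1) (l 6)) (l 6)) (b (a (a (a (l 1) (a (l 1) (l 6))) (l 6)) (l 6)) (a (a (a (l 1) (a (c (c (l 234108846663) (l 223371390343)) (c (l 210486443783) (l 210486404247))) (b (l 6) (c (l 16568648) (l 16520632))))) (b (l 6) (a (c (a (l 16583864) (l 16599472)) (l 16535936)) (c (l 16623832) (l 16582576))))) (a (a (c (l 16636400) (l 16621184)) (l 16614704)) (c (l 16583928) (l 16625800)))))))), by decide +kernel⟩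

def k8_pm_202 : ∃ t, chk3 f_pm_202 t 7 9 2 = true :=
  ⟨(a (b (b (a (a (b (b (a (l 1) (c (l 231424466039) (l 224445102103))) (a (c (l 237866892631) (l 228740041175)) (c (l 16553200) (l 16528016)))) (a (b (c (l 16540968) (l 16514024)) (l 16529072)) (b (l 16542008) (l 16543168)))) (b (a (b (c (l 16565992) (l 16542440)) (l 16555424)) (b (l 16558872) (l 16570184))) (a (l 16551696) (l 16571488)))) (a (b (a (b (l 16584488) (l 16585160)) (l 16600248)) (c (l 16605072) (l 16582128))) (c (l 16571544) (l 16572384)))) (a (a (b (b (l 16537416) (l 16538672)) (l 16540560)) (c (l 16580624) (l 16553224))) (c (l 16533880) (l 16515200)))) (b (a (c (a (l 16496704) (l 16586240)) (b (l 16540776) (l 16541656))) (b (l 16592200) (l 16614376))) (a (a (l 16498552) (l 16568592)) (l 16610536)))) (b (b (b (a (c (l 16640768) (l 16624880)) (b (l 16597816) (l 16591224))) (a (l 16611632) (l 16560128))) (a (b (l 16648008) (l 16656000)) (b (l 16546384) (l 16553336)))) (b (a (c (l 16625240) (l 16647856)) (a (l 16567056) (l 16499696))) (a (l 16615512) (l 16488584))))),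 by decide +kernel⟩

def k9_pm_202 : ∃ t, chk3 f_pm_202 t 7 9 3 = true :=
  ⟨(a (b (b (a (b (a (b (a (l 1) (c (l 215318248695) (l 221223788087))) (a (c (l 222834410359) (l 233571785271)) (c (l 16500704) (l 16471256)))) (b (a (c (l 16516912) (l 16489408)) (l 16520112)) (a (l 16502672) (l 16519336)))) (a (b (a (c (l 16484784) (l 16453240)) (l 16485504)) (a (l 16468560) (l 16484728))) (a (l 16501496) (l 16518104)))) (a (b (b (l 16545856) (l 16545016)) (l 16543680)) (b (l 16581464) (l 16579456)))) (a (a (b (c (l 16492120) (l 16458240)) (l 16473808)) (b (l 16508112) (l 16506248))) (c (l 16488840) (l 16460048)))) (a (b (c (b (l 16506496) (l 16505456)) (b (l 16469112) (l 16465872))) (c (l 16507048) (l 16471512))) (b (b (l 16492216) (l 16468720)) (l 16470920)))) (b (a (b (b (c (l 16586344) (l 16567112)) (l 16553440)) (b (l 16550688) (l 16568560))) (b (b (l 16574912) (l 16584488)) (b (l 16594472) (l 16604848)))) (a (b (b (l 16586072) (l 16582352)) (l 16582680)) (b (b (l 16615464) (l 16584256)) (l 16521448))))), by decide +kernel⟩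

def k10_pm_202 : ∃ t, chk3 f_pm_202 t 7 5 1 = true :=
  ⟨(a (b (b (b (a (c (l 16506880) (l 16434384)) (c (l 16603352) (l 16538520))) (a (c (l 16546776) (l 16484928)) (b (l 16560152) (b (l 16580368) (c (l 16593152) (l 16564584)))))) (a (c (l 16536456) (b (l 16509888) (l 16511712))) (c (l 16484904) (l 16472344)))) (c (b (a (l 16556056) (l 16542976)) (a (l 16503576) (l 16493216))) (b (a (l 16513416) (l 16544248)) (l 16530200)))) (a (b (b (b (c (l 16599056) (l 16626856)) (b (l 16600552) (b (l 16593296) (c (l 16578352) (l 16601008))))) (c (l 16556152) (l 16588552))) (b (b (l 16401584) (l 16363832)) (b (l 16386752) (l 16490544)))) (b (b (b (b (l 16444880) (l 16455528)) (b (c (l 16543864) (l 16559096)) (b (l 16522856) (c (l 16534064) (l 16545048))))) (c (l 16511176) (l 16530952))) (b (l 16299568) (b (l 16317920) (l 16259384)))))), by decide +kernel⟩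

def k11_pm_202 : ∃ t, chk3 f_pm_202 t 3 3 1 = true :=
  ⟨(b (a (b (a (c (b (c (l 16370912) (l 16457160)) (c (l 16351576) (l 16396096))) (b (l 16509032) (l 16476352))) (c (b (c (l 16305968) (l 16470280)) (c (l 16374728) (l 16413696))) (a (l 16303552) (l 16301968)))) (a (c (b (c (l 16292968) (l 16336488)) (l 16236776)) (b (l 16416288) (l 16357000))) (c (a (b (l 16334264) (l 16281320)) (b (l 16341712) (l 16290576))) (b (l 16429432) (l 16374080))))) (b (a (c (b (a (l 16449600) (l 16441544)) (a (l 16395680) (l 16389576))) (b (l 16525128) (l 16475816))) (c (b (a (l 16403176) (l 16268624)) (a (l 16374104) (l 16350224))) (b (a (l 16493488) (l 16452016)) (a (l 16448056) (l 16413912))))) (a (c (b (l 16090392) (l 16272296)) (b (l 16424376) (l 16372416))) (c (b (l 16125416) (l 16267720)) (b (l 16384472) (l 16335536)))))) (a (b (a (c (b (a (l 16218216) (l 16215872)) (a (l 16174976) (l 16170272))) (b (l 16152448) (l 16008064))) (c (a (l 16399120) (l 16327216)) (b (l 16320408) (l 16269728)))) (b (a (c (a (l 16181472) (l 16147760)) (l 16135776))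 (c (l 16160264) (l 16223344))) (a (c (l 16181392) (l 16238608)) (a (c (l 16129952) (l 16183640)) (l 16158408))))) (b (a (c (b (l 16248584) (l 16209264)) (b (l 16321464) (l 16273000))) (c (b (l 16224752) (l 16186640)) (b (l 16286544) (l 16239056)))) (a (c (b (l 16176536) (l 16151568)) (b (l 16228456) (l 16189224))) (c (b (l 16154736) (l 16130376)) (b (l 16194600) (l 16154696))))))), by decide +kernel⟩

theorem s12_pm_202 : ∃ t, chk3 f_pm_202 t 7 9 1 = true := ex3_c k8_pm_202 k9_pm_202

theorem s13_pm_202 : ∃ t, chk3 f_pm_202 t 7 4 1 = true := ex3_b k7_pm_202 s12_pm_202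

theorem s14_pm_202 : ∃ t, chk3 f_pm_202 t 7 2 1 = true := ex3_b s13_pm_202 k10_pm_202

theorem s15_pm_202 : ∃ t, chk3 f_pm_202 t 6 9 1 = true := ex3_b k4_pm_202 k5_pm_202

theorem s16_pm_202 : ∃ t, chk3 f_pm_202 t 6 4 1 = true := ex3_b k3_pm_202 s15_pm_202

theorem s17_pm_202 : ∃ t, chk3 f_pm_202 t 6 2 1 = true := ex3_b s16_pm_202 k6_pm_202

theorem s18_pm_202 : ∃ t, chk3 f_pm_202 t 3 2 1 = true := ex3_a s17_pm_202 s14_pm_202

theorem s19_pm_202 : ∃ t, chk3 f_pm_202 t 3 1 1 = true := ex3_b s18_pm_202 k11_pm_202

theorem s20_pm_202 : ∃ t, chk3 f_pm_202 t 2 2 1 = true := ex3_a k0_pm_202 k1_pm_202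

theorem s21_pm_202 : ∃ t, chk3 f_pm_202 t 2 1 1 = true := ex3_b s20_pm_202 k2_pm_202

theorem s22_pm_202 : ∃ t, chk3 f_pm_202 t 1 1 1 = true := ex3_a s21_pm_202 s19_pm_202

theorem c_pm_202 : CertB 0 536870912 0 536870912 858993459 64424510 3 eng mog cd0q2 cd1q0 pd2 true true false .pp 2 0 2
    ndB0q2 ndB1q0 pcB2 cut_pm_202 Ext.none :=
  certB1 (fam := true) (s1 := true) (s2 := false) (a := 2) (b := 0) (c := 2) (cn := .pp) (n1 := ndB0q2) (n2 := ndB1q0) (pc := pcB2) (cut := cut_pm_202) (xt := Ext.none) (P1 := 0) (W1 := 536870912) (P2 := 0) (W2 := 536870912) (P3 := 858993459) (W3 := 64424510) (N0 := 3) (En := eng) (mo := mog) (C1 := cd0q2) (C2 := cd1q0) (C3 := pd2)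
    rfl (fun _ => rfl) s22_pm_202

noncomputable def f_pm_203 : ℕ → ℕ → ℕ → ℕ → Bool := onCell 0 536870912 1610612736 536870912 858993459 64424510
    (rowB 3 eng mog cd0q2 cd1q0 pd3 1 true true false .up 2 0 3 (qsf 0 536870912 0 536870912 3) ndB0q2 ndB1q0 pcB3 Cut.none Ext.none)

def k0_pm_203 : ∃ t, chk3 f_pm_203 t 1 1 1 = true :=
  ⟨(b (a (b (b (a (b (a (l 16555472) (l 16502984)) (a (l 16586632) (l 16541032))) (b (c (l 16411432) (l 16463176)) (c (l 16457784) (l 16498720)))) (a (b (a (l 16606032) (l 16570896)) (a (l 16618680) (l 16592056))) (b (c (l 16494544) (l 16524592)) (l 16384952)))) (b (a (b (a (l 4) (l 16605904)) (l 4)) (b (l 16462552) (l 2))) (l 2))) (b (a (b (a (c (l 16317688) (l 16430432)) (c (b (l 16302720) (l 16331808)) (b (l 16385072) (l 16403696)))) (a (b (l 16441152) (l 16458704)) (b (l 16283816) (l 16398848)))) (b (a (b (l 16305280) (l 16343000)) (c (l 16260632) (l 16236328))) (a (c (l 16148616) (l 16314544)) (l 2)))) (a (l 2) (l 2)))) (l 2)), by decide +kernel⟩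

theorem c_pm_203 : CertB 0 536870912 0 536870912 858993459 64424510 3 eng mog cd0q2 cd1q0 pd3 true true false .up 2 0 3
    ndB0q2 ndB1q0 pcB3 Cut.none Ext.none :=
  certB1 (fam := true) (s1 := true) (s2 := false) (a := 2) (b := 0) (c := 3) (cn := .up) (n1 := ndB0q2) (n2 := ndB1q0) (pc := pcB3) (cut := Cut.none) (xt := Ext.none) (P1 := 0) (W1 := 536870912) (P2 := 0) (W2 := 536870912) (P3 := 858993459) (W3 := 64424510) (N0 := 3) (En := eng) (mo := mog) (C1 := cd0q2) (C2 := cd1q0) (C3 := pd3)
    rfl (fun _ => rfl) k0_pm_203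

noncomputable def f_pm_213 : ℕ → ℕ → ℕ → ℕ → Bool := onCell 0 536870912 1610612736 536870912 858993459 64424510
    (rowB 3 eng mog cd0q2 cd1q1 pd3 1 true true false .pnn 2 1 3 (qsf 0 536870912 536870912 536870912 3) ndB0q2 ndB1q1 pcB3 Cut.none Ext.none)

def k0_pm_213 : ∃ t, chk3 f_pm_213 t 2 1 1 = true :=
  ⟨(a (b (b (l 1) (b (b (c (c (l 60363194999) (l 16639160)) (c (l 16635816) (l 16270272))) (l 4)) (l 4))) (l 4)) (a (b (b (l 1) (b (c (b (l 16557928) (l 16413112)) (c (l 16580648) (b (l 16364544) (l 16366800)))) (b (c (l 16395584) (l 16265512)) (l 4)))) (l 4)) (b (b (a (l 1) (b (l 1) (c (l 16496560) (l 58014344647)))) (b (c (c (l 16458520) (l 16568008)) (c (l 16528088) (l 16336944))) (c (b (l 16561576) (l 16553712)) (c (l 16545576) (l 16195600))))) (b (b (b (c (l 16585456) (l 16420896)) (l 4)) (l 4)) (l 4))))), by decide +kernel⟩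

def k1_pm_213 : ∃ t, chk3 f_pm_213 t 3 2 1 = true :=
  ⟨(b (a (b (l 1) (a (b (l 1) (c (l 16505360) (l 16393896))) (c (b (l 16442536) (l 16437536)) (b (l 16084744) (l 16238992))))) (c (b (a (c (b (l 1) (l 16323952)) (l 16338848)) (c (a (l 16188384) (l 16118536)) (a (l 16282200) (l 16149056)))) (a (c (b (l 16333832) (l 16345664)) (b (l 16328560) (l 16323768))) (c (a (l 16226120) (l 16145800)) (a (l 16213264) (l 16125736))))) (c (b (a (l 16373544) (c (l 16219144) (l 16260064))) (a (l 16281608) (l 16187656))) (b (a (l 15975976) (l 15944984)) (a (b (l 16207440) (l 16214104)) (l 16064392)))))) (a (b (c (a (b (l 16508448) (l 16517312)) (b (l 16441304) (l 16454272))) (a (c (l 16465064) (l 16305952)) (c (l 16387136) (l 16271240)))) (c (a (c (l 16515608) (l 16543200)) (c (l 16482128) (l 16470392))) (a (c (l 16479416) (l 16339824)) (c (l 16398608) (l 16302752))))) (b (c (a (b (a (l 16371600) (l 16313568)) (l 16363192)) (c (a (l 16288976) (l 16227320)) (a (l 16228336) (l 16150256)))) (a (b (l 16097784) (l 16248376)) (c (a (l 16194688) (l 16113808))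 (a (l 16184560) (l 16119080))))) (b (c (a (l 16397672) (c (l 16353912) (l 16241272))) (a (l 16263280) (c (l 16162672) (l 16120464)))) (c (a (l 16449600) (l 16502440)) (a (l 16272960) (a (l 16187760) (l 16116664)))))))), by decide +kernel⟩

def k2_pm_213 : ∃ t, chk3 f_pm_213 t 3 3 1 = true :=
  ⟨(a (b (a (b (b (c (l 16581584) (l 16443440)) (c (l 16610368) (l 16430000))) (l 4)) (b (c (b (l 16429624) (l 16609336)) (b (l 16381616) (l 16419976))) (b (c (l 16669592) (l 16414928)) (c (l 16675888) (l 16560168))))) (l 4)) (b (b (a (c (b (l 16520984) (l 16613480)) (b (l 16302256) (l 16355664))) (c (b (l 16498128) (l 16668272)) (b (l 16199248) (l 16286928)))) (c (a (b (l 16726976) (l 16768744)) (b (l 16898992) (l 16868272))) (a (b (l 16437952) (l 16554272)) (b (l 16431416) (l 16650216))))) (b (b (c (a (l 16744496) (l 16845904)) (a (l 16668024) (l 16703024))) (a (l 4) (b (l 16747144) (l 16818704)))) (l 4)))), by decide +kernel⟩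

theorem s3_pm_213 : ∃ t, chk3 f_pm_213 t 3 1 1 = true := ex3_b k1_pm_213 k2_pm_213

theorem s4_pm_213 : ∃ t, chk3 f_pm_213 t 1 1 1 = true := ex3_a k0_pm_213 s3_pm_213

theorem c_pm_213 : CertB 0 536870912 536870912 536870912 858993459 64424510 3 eng mog cd0q2 cd1q1 pd3 true true false .pnn 2 1 3
    ndB0q2 ndB1q1 pcB3 Cut.none Ext.none :=
  certB1 (fam := true) (s1 := true) (s2 := false) (a := 2) (b := 1) (c := 3) (cn := .pnn) (n1 := ndB0q2) (n2 := ndB1q1) (pc := pcB3) (cut := Cut.none) (xt := Ext.none) (P1 := 0) (W1 := 536870912) (P2 := 536870912) (W2 := 536870912) (P3 := 858993459) (W3 := 64424510) (N0 := 3) (En := eng) (mo := mog) (C1 := cd0q2) (C2 := cd1q1) (C3 := pd3)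
    rfl (fun _ => rfl) s4_pm_213

noncomputable def f_mm_001 : ℕ → ℕ → ℕ → ℕ → Bool := onCell 0 536870912 0 536870912 858993459 64424510
    (rowB 3 eng mog cd0q0 cd1q0 pd1 0 true false false .up 0 0 1 (qsf 0 536870912 0 536870912 1) ndB0q0 ndB1q0 pcB1 Cut.none Ext.none)

def k0_mm_001 : ∃ t, chk3 f_mm_001 t 1 1 1 = true :=
  ⟨(l 4), by decide +kernel⟩

theorem c_mm_001 : CertB 0 536870912 0 536870912 858993459 64424510 3 eng mog cd0q0 cd1q0 pd1 true false false .up 0 0 1
    ndB0q0 ndB1q0 pcB1 Cut.none Ext.none :=
  certB0 (fam := true) (s1 := false) (s2 := false) (a := 0) (b := 0) (c := 1) (cn := .up) (n1 := ndB0q0) (n2 := ndB1q0) (pc := pcB1) (cut := Cut.none) (xt := Ext.none) (P1 := 0) (W1 := 536870912) (P2 := 0) (W2 := 536870912) (P3 := 858993459) (W3 := 64424510) (N0 := 3) (En := eng) (mo := mog) (C1 := cd0q0) (C2 := cd1q0) (C3 := pd1)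
    rfl k0_mm_001

noncomputable def f_mm_011 : ℕ → ℕ → ℕ → ℕ → Bool := onCell 0 536870912 536870912 536870912 858993459 64424510
    (rowB 3 eng mog cd0q0 cd1q1 pd1 0 true false false .pnn 0 1 1 (qsf 0 536870912 536870912 536870912 1) ndB0q0 ndB1q1 pcB1 Cut.none Ext.none)

def k0_mm_011 : ∃ t, chk3 f_mm_011 t 1 1 1 = true :=
  ⟨(l 4), by decide +kernel⟩

theorem c_mm_011 : CertB 0 536870912 536870912 536870912 858993459 64424510 3 eng mog cd0q0 cd1q1 pd1 true false false .pnn 0 1 1
    ndB0q0 ndB1q1 pcB1 Cut.none Ext.none :=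
  certB0 (fam := true) (s1 := false) (s2 := false) (a := 0) (b := 1) (c := 1) (cn := .pnn) (n1 := ndB0q0) (n2 := ndB1q1) (pc := pcB1) (cut := Cut.none) (xt := Ext.none) (P1 := 0) (W1 := 536870912) (P2 := 536870912) (W2 := 536870912) (P3 := 858993459) (W3 := 64424510) (N0 := 3) (En := eng) (mo := mog) (C1 := cd0q0) (C2 := cd1q1) (C3 := pd1)
    rfl k0_mm_011

noncomputable def f_mm_012 : ℕ → ℕ → ℕ → ℕ → Bool := onCell 0 536870912 536870912 536870912 858993459 64424510
    (rowB 3 eng mog cd0q0 cd1q1 pd2 0 true false false .pnp 0 1 2 (qsf 0 536870912 536870912 536870912 2) ndB0q0 ndB1q1 pcB2 Cut.none Ext.none)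

def k0_mm_012 : ∃ t, chk3 f_mm_012 t 1 1 1 = true :=
  ⟨(l 4), by decide +kernel⟩

theorem c_mm_012 : CertB 0 536870912 536870912 536870912 858993459 64424510 3 eng mog cd0q0 cd1q1 pd2 true false false .pnp 0 1 2
    ndB0q0 ndB1q1 pcB2 Cut.none Ext.none :=
  certB0 (fam := true) (s1 := false) (s2 := false) (a := 0) (b := 1) (c := 2) (cn := .pnp) (n1 := ndB0q0) (n2 := ndB1q1) (pc := pcB2) (cut := Cut.none) (xt := Ext.none) (P1 := 0) (W1 := 536870912) (P2 := 536870912) (W2 := 536870912) (P3 := 858993459) (W3 := 64424510) (N0 := 3) (En := eng) (mo := mog) (C1 := cd0q0) (C2 := cd1q1) (C3 := pd2)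
    rfl k0_mm_012

noncomputable def f_mm_022_a : ℕ → ℕ → ℕ → ℕ → Bool := onCell 0 536870912 0 536870912 858993459 64424510
    (rowB 3 eng mog cd0q0 cd1q2a pd2 0 true false false .pp 0 2 2 (qsf 0 536870912 0 536870912 2) ndB0q0 ndB1q2a pcB2 Cut.none Ext.none)

def k0_mm_022_a : ∃ t, chk3 f_mm_022_a t 1 1 1 = true :=
  ⟨(l 5), by decide +kernel⟩

theorem c_mm_022_a : CertB 0 536870912 0 536870912 858993459 64424510 3 eng mog cd0q0 cd1q2a pd2 true false false .pp 0 2 2
    ndB0q0 ndB1q2a pcB2 Cut.none Ext.none :=
  certB0 (fam := true) (s1 := false) (s2 := false) (a := 0) (b := 2) (c := 2) (cn := .pp) (n1 := ndB0q0) (n2 := ndB1q2a) (pc := pcB2) (cut := Cut.none) (xt := Ext.none) (P1 := 0) (W1 := 536870912) (P2 := 0) (W2 := 536870912) (P3 := 858993459) (W3 := 64424510) (N0 := 3) (En := eng) (mo := mog) (C1 := cd0q0) (C2 := cd1q2a) (C3 := pd2)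
    rfl k0_mm_022_a

noncomputable def f_mm_022_b : ℕ → ℕ → ℕ → ℕ → Bool := onCell 0 536870912 1239849684 370763052 858993459 64424510
    (rowB 3 eng mog cd0q0 cd1q2b pd2 0 true false false .pp 0 2 2 (qsf 0 536870912 1239849684 370763052 2) ndB0q0 ndB1q2b pcB2 Cut.none Ext.none)

def k0_mm_022_b : ∃ t, chk3 f_mm_022_b t 1 1 1 = true :=
  ⟨(l 5), by decide +kernel⟩

theorem c_mm_022_b : CertB 0 536870912 1239849684 370763052 858993459 64424510 3 eng mog cd0q0 cd1q2b pd2 true false false .pp 0 2 2
    ndB0q0 ndB1q2b pcB2 Cut.none Ext.none :=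
  certB0 (fam := true) (s1 := false) (s2 := false) (a := 0) (b := 2) (c := 2) (cn := .pp) (n1 := ndB0q0) (n2 := ndB1q2b) (pc := pcB2) (cut := Cut.none) (xt := Ext.none) (P1 := 0) (W1 := 536870912) (P2 := 1239849684) (W2 := 370763052) (P3 := 858993459) (W3 := 64424510) (N0 := 3) (En := eng) (mo := mog) (C1 := cd0q0) (C2 := cd1q2b) (C3 := pd2)
    rfl k0_mm_022_b

noncomputable def f_mm_023_a : ℕ → ℕ → ℕ → ℕ → Bool := onCell 0 536870912 0 536870912 858993459 64424510
    (rowB 3 eng mog cd0q0 cd1q2a pd3 0 true false false .up 0 2 3 (qsf 0 536870912 0 536870912 3) ndB0q0 ndB1q2a pcB3 Cut.none Ext.none)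

def k0_mm_023_a : ∃ t, chk3 f_mm_023_a t 1 1 1 = true :=
  ⟨(l 5), by decide +kernel⟩

theorem c_mm_023_a : CertB 0 536870912 0 536870912 858993459 64424510 3 eng mog cd0q0 cd1q2a pd3 true false false .up 0 2 3
    ndB0q0 ndB1q2a pcB3 Cut.none Ext.none :=
  certB0 (fam := true) (s1 := false) (s2 := false) (a := 0) (b := 2) (c := 3) (cn := .up) (n1 := ndB0q0) (n2 := ndB1q2a) (pc := pcB3) (cut := Cut.none) (xt := Ext.none) (P1 := 0) (W1 := 536870912) (P2 := 0) (W2 := 536870912) (P3 := 858993459) (W3 := 64424510) (N0 := 3) (En := eng) (mo := mog) (C1 := cd0q0) (C2 := cd1q2a) (C3 := pd3)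
    rfl k0_mm_023_a

noncomputable def f_mm_023_b : ℕ → ℕ → ℕ → ℕ → Bool := onCell 0 536870912 1239849684 370763052 858993459 64424510
    (rowB 3 eng mog cd0q0 cd1q2b pd3 0 true false false .up 0 2 3 (qsf 0 536870912 1239849684 370763052 3) ndB0q0 ndB1q2b pcB3 Cut.none Ext.none)

def k0_mm_023_b : ∃ t, chk3 f_mm_023_b t 1 1 1 = true :=
  ⟨(l 5), by decide +kernel⟩

theorem c_mm_023_b : CertB 0 536870912 1239849684 370763052 858993459 64424510 3 eng mog cd0q0 cd1q2b pd3 true false false .up 0 2 3
    ndB0q0 ndB1q2b pcB3 Cut.none Ext.none :=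
  certB0 (fam := true) (s1 := false) (s2 := false) (a := 0) (b := 2) (c := 3) (cn := .up) (n1 := ndB0q0) (n2 := ndB1q2b) (pc := pcB3) (cut := Cut.none) (xt := Ext.none) (P1 := 0) (W1 := 536870912) (P2 := 1239849684) (W2 := 370763052) (P3 := 858993459) (W3 := 64424510) (N0 := 3) (En := eng) (mo := mog) (C1 := cd0q0) (C2 := cd1q2b) (C3 := pd3)
    rfl k0_mm_023_b

noncomputable def f_mm_033 : ℕ → ℕ → ℕ → ℕ → Bool := onCell 0 536870912 1610612736 536870912 858993459 64424510
    (rowB 3 eng mog cd0q0 cd1q3 pd3 0 true false false .pnn 0 3 3 (qsf 0 536870912 1610612736 536870912 3) ndB0q0 ndB1q3 pcB3 Cut.none Ext.none)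

def k0_mm_033 : ∃ t, chk3 f_mm_033 t 1 1 1 = true :=
  ⟨(l 5), by decide +kernel⟩

theorem c_mm_033 : CertB 0 536870912 1610612736 536870912 858993459 64424510 3 eng mog cd0q0 cd1q3 pd3 true false false .pnn 0 3 3
    ndB0q0 ndB1q3 pcB3 Cut.none Ext.none :=
  certB0 (fam := true) (s1 := false) (s2 := false) (a := 0) (b := 3) (c := 3) (cn := .pnn) (n1 := ndB0q0) (n2 := ndB1q3) (pc := pcB3) (cut := Cut.none) (xt := Ext.none) (P1 := 0) (W1 := 536870912) (P2 := 1610612736) (W2 := 536870912) (P3 := 858993459) (W3 := 64424510) (N0 := 3) (En := eng) (mo := mog) (C1 := cd0q0) (C2 := cd1q3) (C3 := pd3)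
    rfl k0_mm_033

noncomputable def cut_mm_101 : Cut := Cut.of [[⟨0, 1, 0, 67108864⟩, ⟨1, 0, 0, 67108864⟩, ⟨2, 1, 0, 67108864⟩]]

noncomputable def f_mm_101 : ℕ → ℕ → ℕ → ℕ → Bool := onCell 536870912 536870912 0 536870912 858993459 64424510
    (rowB 3 eng mog cd0q1 cd1q0 pd1 0 true false false .npn 1 0 1 (qsf 536870912 536870912 0 536870912 1) ndB0q1 ndB1q0 pcB1 cut_mm_101 Ext.none)

def k0_mm_101 : ∃ t, chk3 f_mm_101 t 1 1 1 = true :=
  ⟨(a (l 4) (b (a (l 4) (b (a (l 4) (b (a (l 4) (b (l 6) (l 4))) (l 4))) (l 4))) (l 4))), by decide +kernel⟩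

theorem c_mm_101 : CertB 536870912 536870912 0 536870912 858993459 64424510 3 eng mog cd0q1 cd1q0 pd1 true false false .npn 1 0 1
    ndB0q1 ndB1q0 pcB1 cut_mm_101 Ext.none :=
  certB0 (fam := true) (s1 := false) (s2 := false) (a := 1) (b := 0) (c := 1) (cn := .npn) (n1 := ndB0q1) (n2 := ndB1q0) (pc := pcB1) (cut := cut_mm_101) (xt := Ext.none) (P1 := 536870912) (W1 := 536870912) (P2 := 0) (W2 := 536870912) (P3 := 858993459) (W3 := 64424510) (N0 := 3) (En := eng) (mo := mog) (C1 := cd0q1) (C2 := cd1q0) (C3 := pd1)
    rfl k0_mm_101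

noncomputable def cut_mm_102 : Cut := Cut.of [[⟨0, 1, 0, 67108864⟩, ⟨1, 0, 0, 67108864⟩, ⟨2, 1, 0, 67108864⟩]]

noncomputable def f_mm_102 : ℕ → ℕ → ℕ → ℕ → Bool := onCell 536870912 536870912 0 536870912 858993459 64424510
    (rowB 3 eng mog cd0q1 cd1q0 pd2 0 true false false .npp 1 0 2 (qsf 536870912 536870912 0 536870912 2) ndB0q1 ndB1q0 pcB2 cut_mm_102 Ext.none)

def k0_mm_102 : ∃ t, chk3 f_mm_102 t 1 1 1 = true :=
  ⟨(a (l 4) (b (a (l 4) (b (a (l 4) (b (a (l 4) (b (l 6) (l 4))) (l 4))) (l 4))) (l 4))), by decide +kernel⟩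

theorem c_mm_102 : CertB 536870912 536870912 0 536870912 858993459 64424510 3 eng mog cd0q1 cd1q0 pd2 true false false .npp 1 0 2
    ndB0q1 ndB1q0 pcB2 cut_mm_102 Ext.none :=
  certB0 (fam := true) (s1 := false) (s2 := false) (a := 1) (b := 0) (c := 2) (cn := .npp) (n1 := ndB0q1) (n2 := ndB1q0) (pc := pcB2) (cut := cut_mm_102) (xt := Ext.none) (P1 := 536870912) (W1 := 536870912) (P2 := 0) (W2 := 536870912) (P3 := 858993459) (W3 := 64424510) (N0 := 3) (En := eng) (mo := mog) (C1 := cd0q1) (C2 := cd1q0) (C3 := pd2)
    rfl k0_mm_102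

noncomputable def f_mm_112 : ℕ → ℕ → ℕ → ℕ → Bool := onCell 536870912 536870912 536870912 536870912 858993459 64424510
    (rowB 3 eng mog cd0q1 cd1q1 pd2 0 true false false .dn 1 1 2 (qsf 536870912 536870912 536870912 536870912 2) ndB0q1 ndB1q1 pcB2 Cut.none Ext.none)

def k0_mm_112 : ∃ t, chk3 f_mm_112 t 1 1 1 = true :=
  ⟨(l 4), by decide +kernel⟩

theorem c_mm_112 : CertB 536870912 536870912 536870912 536870912 858993459 64424510 3 eng mog cd0q1 cd1q1 pd2 true false false .dn 1 1 2
    ndB0q1 ndB1q1 pcB2 Cut.none Ext.none :=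
  certB0 (fam := true) (s1 := false) (s2 := false) (a := 1) (b := 1) (c := 2) (cn := .dn) (n1 := ndB0q1) (n2 := ndB1q1) (pc := pcB2) (cut := Cut.none) (xt := Ext.none) (P1 := 536870912) (W1 := 536870912) (P2 := 536870912) (W2 := 536870912) (P3 := 858993459) (W3 := 64424510) (N0 := 3) (En := eng) (mo := mog) (C1 := cd0q1) (C2 := cd1q1) (C3 := pd2)
    rfl k0_mm_112

noncomputable def f_mm_113 : ℕ → ℕ → ℕ → ℕ → Bool := onCell 536870912 536870912 536870912 536870912 858993459 64424510
    (rowB 3 eng mog cd0q1 cd1q1 pd3 0 true false false .nn 1 1 3 (qsf 536870912 536870912 536870912 536870912 3) ndB0q1 ndB1q1 pcB3 Cut.none Ext.none)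

def k0_mm_113 : ∃ t, chk3 f_mm_113 t 1 1 1 = true :=
  ⟨(l 4), by decide +kernel⟩

theorem c_mm_113 : CertB 536870912 536870912 536870912 536870912 858993459 64424510 3 eng mog cd0q1 cd1q1 pd3 true false false .nn 1 1 3
    ndB0q1 ndB1q1 pcB3 Cut.none Ext.none :=
  certB0 (fam := true) (s1 := false) (s2 := false) (a := 1) (b := 1) (c := 3) (cn := .nn) (n1 := ndB0q1) (n2 := ndB1q1) (pc := pcB3) (cut := Cut.none) (xt := Ext.none) (P1 := 536870912) (W1 := 536870912) (P2 := 536870912) (W2 := 536870912) (P3 := 858993459) (W3 := 64424510) (N0 := 3) (En := eng) (mo := mog) (C1 := cd0q1) (C2 := cd1q1) (C3 := pd3)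
    rfl k0_mm_113

noncomputable def f_mm_123_a : ℕ → ℕ → ℕ → ℕ → Bool := onCell 536870912 536870912 0 536870912 858993459 64424510
    (rowB 3 eng mog cd0q1 cd1q2a pd3 0 true false false .npn 1 2 3 (qsf 536870912 536870912 0 536870912 3) ndB0q1 ndB1q2a pcB3 Cut.none Ext.none)

def k0_mm_123_a : ∃ t, chk3 f_mm_123_a t 1 1 1 = true :=
  ⟨(l 4), by decide +kernel⟩

theorem c_mm_123_a : CertB 536870912 536870912 0 536870912 858993459 64424510 3 eng mog cd0q1 cd1q2a pd3 true false false .npn 1 2 3
    ndB0q1 ndB1q2a pcB3 Cut.none Ext.none :=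
  certB0 (fam := true) (s1 := false) (s2 := false) (a := 1) (b := 2) (c := 3) (cn := .npn) (n1 := ndB0q1) (n2 := ndB1q2a) (pc := pcB3) (cut := Cut.none) (xt := Ext.none) (P1 := 536870912) (W1 := 536870912) (P2 := 0) (W2 := 536870912) (P3 := 858993459) (W3 := 64424510) (N0 := 3) (En := eng) (mo := mog) (C1 := cd0q1) (C2 := cd1q2a) (C3 := pd3)
    rfl k0_mm_123_a

noncomputable def f_mm_123_b : ℕ → ℕ → ℕ → ℕ → Bool := onCell 536870912 536870912 1239849684 370763052 858993459 64424510
    (rowB 3 eng mog cd0q1 cd1q2b pd3 0 true false false .npn 1 2 3 (qsf 536870912 536870912 1239849684 370763052 3) ndB0q1 ndB1q2b pcB3 Cut.none Ext.none)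

def k0_mm_123_b : ∃ t, chk3 f_mm_123_b t 1 1 1 = true :=
  ⟨(l 5), by decide +kernel⟩

theorem c_mm_123_b : CertB 536870912 536870912 1239849684 370763052 858993459 64424510 3 eng mog cd0q1 cd1q2b pd3 true false false .npn 1 2 3
    ndB0q1 ndB1q2b pcB3 Cut.none Ext.none :=
  certB0 (fam := true) (s1 := false) (s2 := false) (a := 1) (b := 2) (c := 3) (cn := .npn) (n1 := ndB0q1) (n2 := ndB1q2b) (pc := pcB3) (cut := Cut.none) (xt := Ext.none) (P1 := 536870912) (W1 := 536870912) (P2 := 1239849684) (W2 := 370763052) (P3 := 858993459) (W3 := 64424510) (N0 := 3) (En := eng) (mo := mog) (C1 := cd0q1) (C2 := cd1q2b) (C3 := pd3)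
    rfl k0_mm_123_b

noncomputable def f_mm_133 : ℕ → ℕ → ℕ → ℕ → Bool := onCell 536870912 536870912 1610612736 536870912 858993459 64424510
    (rowB 3 eng mog cd0q1 cd1q3 pd3 0 true false false .dn 1 3 3 (qsf 536870912 536870912 1610612736 536870912 3) ndB0q1 ndB1q3 pcB3 Cut.none Ext.none)

def k0_mm_133 : ∃ t, chk3 f_mm_133 t 1 1 1 = true :=
  ⟨(l 4), by decide +kernel⟩

theorem c_mm_133 : CertB 536870912 536870912 1610612736 536870912 858993459 64424510 3 eng mog cd0q1 cd1q3 pd3 true false false .dn 1 3 3
    ndB0q1 ndB1q3 pcB3 Cut.none Ext.none :=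
  certB0 (fam := true) (s1 := false) (s2 := false) (a := 1) (b := 3) (c := 3) (cn := .dn) (n1 := ndB0q1) (n2 := ndB1q3) (pc := pcB3) (cut := Cut.none) (xt := Ext.none) (P1 := 536870912) (W1 := 536870912) (P2 := 1610612736) (W2 := 536870912) (P3 := 858993459) (W3 := 64424510) (N0 := 3) (En := eng) (mo := mog) (C1 := cd0q1) (C2 := cd1q3) (C3 := pd3)
    rfl k0_mm_133

noncomputable def cut_mm_202 : Cut := Cut.of [[⟨0, 1, 0, 67108864⟩, ⟨1, 0, 0, 67108864⟩, ⟨2, 1, 0, 67108864⟩]]

noncomputable def f_mm_202 : ℕ → ℕ → ℕ → ℕ → Bool := onCell 0 536870912 0 536870912 858993459 64424510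
    (rowB 3 eng mog cd0q2 cd1q0 pd2 0 true false false .pp 2 0 2 (qsf 0 536870912 0 536870912 2) ndB0q2 ndB1q0 pcB2 cut_mm_202 Ext.none)

def k0_mm_202 : ∃ t, chk3 f_mm_202 t 2 2 2 = true :=
  ⟨(b (b (a (b (a (b (c (l 16378264) (l 16328144)) (l 16269672)) (a (b (l 16242816) (l 16365552)) (b (c (l 16400392) (l 16356840)) (l 16353672)))) (a (c (l 16470752) (l 16429336)) (c (l 16479864) (l 16318208)))) (b (b (b (a (a (l 16337352) (l 16284960)) (a (a (l 16399064) (l 16385352)) (a (l 16393552) (l 16350440)))) (a (a (l 16398232) (l 16387304)) (a (l 16357800) (a (l 16432320) (l 16441480))))) (a (b (a (l 16416328) (l 16425912)) (l 16312464)) (a (c (l 16459512) (l 16432440)) (a (l 16415600) (l 16403544))))) (b (a (a (l 16458008) (l 16466600)) (a (l 16477824) (c (l 16502640) (l 16482488)))) (a (l 16491648) (a (l 16506312) (l 16520824)))))) (a (a (b (l 16461296) (l 16441896)) (b (c (l 16468968) (l 16501424)) (l 16474424))) (a (b (b (l 16518104) (l 16521816)) (l 16520968)) (b (b (l 16539392) (l 16562672)) (b (l 16576224) (l 16581280)))))) (a (b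 (a (b (l 16437776) (l 16445776)) (b (l 16478688) (l 16494040))) (a (b (l 16463192) (l 16488672)) (b (l 16517752) (l 16548272)))) (a (b (b (l 16532648) (l 16554480)) (b (l 16583296) (l 16616440))) (b (b (l 16596536) (l 16708016)) (b (a (l 16633048) (l 16647408)) (a (l 16642104) (l 4))))))), by decide +kernel⟩

def k1_mm_202 : ∃ t, chk3 f_mm_202 t 2 2 3 = true :=
  ⟨(b (b (a (b (a (b (b (c (l 16260288) (a (l 16190336) (l 16206104))) (a (l 16247864) (l 16240432))) (c (l 16318752) (l 16239488))) (b (a (b (c (l 16281312) (l 16223480)) (l 16276584)) (b (a (l 16245208) (l 16254704)) (l 16209928))) (a (l 16184728) (c (l 16351056) (l 16301360))))) (a (b (l 16209192) (c (l 16401360) (l 16350184))) (b (a (l 16332200) (l 16326272)) (c (l 16421144) (l 16377400))))) (b (b (a (a (b (a (l 16264672) (l 16212016)) (c (l 16335896) (l 16289072))) (b (c (l 16332808) (a (l 16284064) (l 16296528))) (c (l 16353632) (l 16312752)))) (a (b (a (c (l 16347560) (l 16309304)) (c (l 16358152) (l 16322448))) (a (l 16329088) (l 16340696))) (b (a (c (l 16369456) (b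 (l 16330624) (l 16341568))) (c (l 16381664) (b (l 16345104) (l 16355936)))) (a (l 16352944) (c (l 16401504) (l 16371904)))))) (c (a (a (l 16366672) (l 16383640)) (a (l 16402464) (l 16361232))) (a (a (l 16322480) (l 16324376)) (a (l 16327664) (b (l 16385688) (l 16405984)))))) (a (b (a (l 16343488) (l 16341360)) (b (l 16339160) (l 16377896))) (a (b (l 16341064) (l 16419024)) (b (c (l 16460120) (l 16435552)) (l 16441544)))))) (a (b (a (l 16289952) (b (l 16435104) (l 16466592))) (a (l 16492720) (l 16508160))) (b (a (b (l 16402592) (l 16495288)) (b (a (l 16493536) (l 16473808)) (l 16491848))) (a (b (l 16522192) (l 16545912)) (b (l 16559824) (l 16582808)))))) (b (a (b (a (l 16503072) (l 16531800)) (a (l 16501520) (l 16538304))) (b (a (l 16566624) (l 16605888)) (a (l 16580072) (b (l 16622568) (l 16631072))))) (a (a (l 16515528) (a (l 16550864) (l 16575208))) (a (b (l 16601432) (l 16620600)) (b (a (l 16631432) (l 16647984)) (a (l 16640472) (l 4))))))), by decide +kernel⟩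

def k2_mm_202 : ∃ t, chk3 f_mm_202 t 12 8 1 = true :=
  ⟨(a (b (b (c (b (a (c (l 16446416) (l 16421744)) (c (l 16457440) (l 16434296))) (a (l 16430872) (l 16442504))) (b (a (c (b (l 16389832) (l 16399840)) (b (l 16360408) (l 16371136))) (c (b (l 16404144) (l 16414064)) (b (c (l 16383696) (l 16369432)) (l 16387256)))) (a (c (l 16414520) (l 16386960)) (a (l 16391160) (l 16398928))))) (c (a (l 16392704) (b (l 16480000) (l 16495736))) (b (a (l 16399776) (l 16414600)) (b (l 16442472) (l 16451840))))) (b (c (a (l 16485944) (l 16497040)) (a (l 16446560) (l 16439928))) (c (l 16539952) (l 16446608)))) (b (b (c (b (a (b (c (l 16465520) (l 16443480)) (l 16442592)) (b (c (l 16479320) (l 16458632)) (c (l 16487792) (l 16467736)))) (a (l 16413512) (c (l 16500080) (l 16481016)))) (b (a (c (b (l 16430072) (l 16429424)) (b (c (l 16400448) (l 16387112)) (l 16404376))) (c (b (a (l 16431920) (l 16440560)) (l 16446000)) (a (b (l 16407416) (l 16417888)) (b (l 16416856) (l 16427280))))) (a (a (l 16406968) (c (l 16447816) (l 16424272))) (b (c (l 16455584)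 (l 16432872)) (l 16433224))))) (c (a (b (l 16492816) (l 16508408)) (b (l 16507024) (l 16522488))) (a (b (l 16430504) (l 16470224)) (b (l 16423656) (l 16487120))))) (b (c (a (l 16488512) (l 16502376)) (a (l 16455360) (l 16451008))) (c (b (l 16536704) (l 16549560)) (a (l 16531568) (l 16526752)))))), by decide +kernel⟩

def k3_mm_202 : ∃ t, chk3 f_mm_202 t 26 16 1 = true :=
  ⟨(b (c (b (a (b (c (l 16494576) (l 16496136)) (c (l 16503016) (l 16484224))) (c (a (l 16511200) (l 16519936)) (b (a (l 16488456) (l 16497800)) (l 16502152)))) (a (a (l 16481424) (l 16489680)) (c (l 16531952) (l 16494320)))) (b (a (b (c (a (l 16449528) (l 16458832)) (a (l 16426592) (l 16436648))) (c (l 16463872) (a (l 16436976) (l 16446992)))) (b (c (a (l 16468488) (l 16478512)) (a (l 16447040) (l 16457800))) (c (l 16504096) (a (l 16457336) (l 16468040))))) (a (c (l 16457112) (l 16436272)) (c (l 16476264) (l 16460760))))) (b (c (a (l 16501720) (c (l 16547376) (l 16532048))) (a (c (l 16496376) (l 16477032)) (a (l 16480504) (l 16490704)))) (c (a (l 16538032) (l 16555120))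 (a (l 16505280) (l 16524800))))), by decide +kernel⟩

def k4_mm_202 : ∃ t, chk3 f_mm_202 t 27 16 1 = true :=
  ⟨(b (c (b (a (c (b (a (l 16524688) (l 16533960)) (l 16537784)) (b (a (l 16507488) (l 16517520)) (l 16521504))) (a (b (c (l 16543504) (l 16527896)) (l 16523616)) (c (b (b (l 16551184) (l 16555496)) (l 16561848)) (b (b (l 16536352) (l 16540912)) (l 16547640))))) (a (c (l 16529016) (l 16513632)) (c (a (l 16564216) (l 16574120)) (b (l 16530048) (l 16559560))))) (b (a (c (b (a (l 16488936) (l 16499792)) (a (l 16498528) (l 16509352))) (b (a (l 16469032) (c (l 16485656) (l 16475840))) (a (l 16479224) (l 16490928)))) (c (b (a (b (l 16508664) (l 16513480)) (c (l 16526872) (l 16518680))) (a (l 16520616) (l 16532328))) (b (a (b (l 16490512) (l 16495600)) (b (l 16503328) (l 16508392))) (a (l 16503160) (l 16515912))))) (a (c (b (l 16513312) (l 16522504)) (b (l 16495064) (l 16504928))) (c (b (l 16514808) (l 16544912)) (a (l 16518016) (l 16509720)))))) (b (c (a (b (l 16533576) (l 16562344)) (c (l 16584600) (l 16551000))) (a (b (l 16502264)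 (l 16511456)) (c (l 16537312) (l 16522568)))) (c (a (l 16552680) (c (l 16599088) (l 16587760))) (a (l 16524968) (c (l 16575456) (l 16562176)))))), by decide +kernel⟩

def k5_mm_202 : ∃ t, chk3 f_mm_202 t 13 17 1 = true :=
  ⟨(a (c (b (a (l 16496752) (b (l 16569568) (l 16583280))) (c (l 16556776) (l 16547824))) (b (a (b (l 16523080) (l 16540312)) (b (l 16542424) (l 16559472))) (a (l 16544256) (l 16542160)))) (a (b (c (b (l 16588008) (l 16601608)) (b (l 16563384) (l 16580248))) (c (l 16620736) (l 16562648))) (b (c (a (l 16567648) (l 16556952)) (b (l 16565240) (l 16602896))) (c (l 16640296) (l 16564016))))), by decide +kernel⟩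

def k6_mm_202 : ∃ t, chk3 f_mm_202 t 6 9 1 = true :=
  ⟨(a (c (a (b (b (l 16565360) (l 16588400)) (l 16617552)) (b (b (l 16589192) (l 16612136)) (l 16641392))) (a (b (b (l 16499504) (l 16570128)) (l 16607896)) (b (b (l 16571088) (l 16599696)) (l 16637704)))) (b (a (c (b (l 16618744) (l 16641264)) (b (l 16584464) (l 16633624))) (b (c (a (l 16644528) (l 16663792)) (a (l 16634648) (l 16656552))) (a (c (l 16666680) (l 16662408)) (c (l 16683264) (l 16680560))))) (a (b (b (l 16655056) (l 16686368)) (b (l 16715744) (l 16742896))) (a (b (l 16743280) (l 4)) (l 4))))), by decide +kernel⟩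

def k7_mm_202 : ∃ t, chk3 f_mm_202 t 28 16 1 = true :=
  ⟨(b (c (b (a (a (c (b (b (l 16561456) (l 16565784)) (l 16572160)) (b (b (l 16547584) (l 16552144)) (l 16558880))) (a (b (c (l 16571664) (l 16558656)) (l 16553080)) (b (c (l 16577184) (l 16564688)) (l 16562792)))) (a (b (b (c (a (l 16580632) (l 16586400)) (a (l 16568560) (l 16574864))) (c (l 16587872) (l 16576280))) (c (l 16594296) (l 16583024))) (b (b (l 6) (c (l 16599672) (l 16589144))) (c (l 16616600) (l 16577544))))) (a (c (c (l 16582256) (l 16576472)) (b (l 16557800) (l 16582064))) (a (c (l 16585712) (l 16575136)) (c (b (l 16614464) (l 16622552)) (l 16603744))))) (a (b (c (b (a (c (l 16538888) (l 16531240)) (c (l 16551496) (l 16544424))) (c (l 16533560) (l 16527752))) (b (a (b (l 16516760) (l 16521800)) (c (l 16537112) (l 16529568))) (a (l 16529288) (l 16543320)))) (a (c (l 16537488) (l 16523008)) (c (l 16550328) (l 16536968)))) (b (b (b (a (a (c (l 16555624) (l 16541816)) (b (l 6) (l 16557248))) (l 6)) (a (c (l 16563840) (l 16550568)) (c (l 16577872) (l 16565856)))) (c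 (a (l 16570920) (l 16563968)) (a (l 16557984) (l 16557512)))) (a (c (l 16574232) (l 16562040)) (b (a (l 16584912) (l 16592352)) (l 16576920)))))) (a (c (b (c (l 16605400) (l 16594464)) (c (l 16619928) (l 16610208))) (b (c (l 16582632) (l 16569920)) (c (l 16599672) (l 16588320)))) (c (a (b (c (l 16622280) (l 16612720)) (l 16632744)) (b (c (l 16634200) (l 16625608)) (l 16624192))) (b (a (c (l 16602408) (l 16591328)) (c (l 16616344) (l 16606400))) (c (l 16626264) (l 16616992)))))), by decide +kernel⟩

def k8_mm_202 : ∃ t, chk3 f_mm_202 t 29 16 1 = true :=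
  ⟨(b (b (b (l 6) (b (l 6) (a (a (a (c (l 16612840) (l 16592864)) (l 6)) (l 6)) (l 6)))) (b (a (a (c (c (l 16626816) (l 16618072)) (a (l 16578952) (l 16586632))) (a (c (l 16611432) (l 16594376)) (l 6))) (l 6)) (a (c (a (l 16625616) (c (l 16647680) (l 16640392))) (a (l 16612992) (l 16629768))) (a (a (c (l 16654200) (l 16640200)) (l 6)) (l 6))))) (c (c (a (b (a (l 16646632) (l 16659432)) (l 16625816)) (b (a (l 16672528) (l 16664984)) (l 16652192))) (a (b (a (l 16639024) (l 16652808)) (l 16640672)) (b (a (l 16666864) (l 16681240)) (l 16647904)))) (b (a (c (a (l 16630816) (l 16645672)) (a (l 16622024) (l 16638024))) (a (c (l 16660776) (l 16654264)) (b (l 6) (l 16677864)))) (a (a (l 16622896) (l 16638232)) (a (l 16632848) (l 16648736)))))), by decide +kernel⟩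

def k9_mm_202 : ∃ t, chk3 f_mm_202 t 14 17 1 = true :=
  ⟨(b (a (c (a (b (l 16587480) (l 16621888)) (c (l 16610584) (l 16594032))) (a (b (l 16569240) (l 16606704)) (b (c (l 16642456) (l 16634584)) (l 16612920)))) (a (c (b (c (l 16660512) (l 16655520)) (l 16692424)) (b (a (l 16660576) (l 16654840)) (l 16684256))) (b (c (c (l 16708000) (l 16704712)) (b (l 16653232) (l 16703256))) (c (a (l 16712448) (l 16723544)) (a (l 16706800) (l 16718976)))))) (a (a (c (l 16661672) (c (l 16633160) (l 16627592))) (b (c (l 16679184) (l 16649592)) (c (l 16690856) (l 16685440)))) (a (b (c (l 16704024) (l 16698536)) (c (l 16711072) (l 16707496))) (a (c (l 16720880) (l 16717080)) (l 4))))), by decide +kernel⟩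

def k10_mm_202 : ∃ t, chk3 f_mm_202 t 15 8 1 = true :=
  ⟨(b (a (b (l 6) (b (l 6) (a (a (c (l 16702848) (l 16664944)) (b (l 6) (a (l 16725824) (l 16733160)))) (l 6)))) (l 6)) (a (b (a (a (b (c (l 16726320) (l 16721552)) (c (l 16731840) (l 16727696))) (b (c (l 16736408) (l 16732440)) (l 4))) (l 4)) (l 4)) (l 4))), by decide +kernel⟩

def k11_mm_202 : ∃ t, chk3 f_mm_202 t 7 9 1 = true :=
  ⟨(a (b (a (b (a (b (l 16676448) (l 16687208)) (c (l 16701496) (l 16698152))) (a (c (l 16697368) (l 16694984)) (l 4))) (l 4)) (l 4)) (l 4)), by decide +kernel⟩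

def k12_mm_202 : ∃ t, chk3 f_mm_202 t 3 5 1 = true :=
  ⟨(a (b (b (a (a (b (l 16635976) (l 16645840)) (b (l 16750176) (c (l 16665376) (l 16670192)))) (b (a (c (l 16682280) (l 16685544)) (l 4)) (l 4))) (a (a (b (l 16652736) (l 16657680)) (l 4)) (l 4))) (l 4)) (l 4)), by decide +kernel⟩

def k13_mm_202 : ∃ t, chk3 f_mm_202 t 1 3 1 = true :=
  ⟨(a (b (a (b (a (b (l 16532224) (l 16564472)) (b (c (l 16583472) (l 16602080)) (c (l 16617520) (l 16616496)))) (b (a (l 16598664) (a (l 16617024) (l 4))) (a (c (l 16614144) (l 16615584)) (l 4)))) (b (a (b (a (l 16623536) (l 4)) (l 4)) (l 4)) (l 4))) (a (l 2) (l 4))) (l 4)), by decide +kernel⟩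

theorem s14_mm_202 : ∃ t, chk3 f_mm_202 t 14 16 1 = true := ex3_a k7_mm_202 k8_mm_202

theorem s15_mm_202 : ∃ t, chk3 f_mm_202 t 14 8 1 = true := ex3_b s14_mm_202 k9_mm_202

theorem s16_mm_202 : ∃ t, chk3 f_mm_202 t 7 8 1 = true := ex3_a s15_mm_202 k10_mm_202

theorem s17_mm_202 : ∃ t, chk3 f_mm_202 t 7 4 1 = true := ex3_b s16_mm_202 k11_mm_202

theorem s18_mm_202 : ∃ t, chk3 f_mm_202 t 13 16 1 = true := ex3_a k3_mm_202 k4_mm_202

theorem s19_mm_202 : ∃ t, chk3 f_mm_202 t 13 8 1 = true := ex3_b s18_mm_202 k5_mm_202

theorem s20_mm_202 : ∃ t, chk3 f_mm_202 t 6 8 1 = true := ex3_a k2_mm_202 s19_mm_202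

theorem s21_mm_202 : ∃ t, chk3 f_mm_202 t 6 4 1 = true := ex3_b s20_mm_202 k6_mm_202

theorem s22_mm_202 : ∃ t, chk3 f_mm_202 t 3 4 1 = true := ex3_a s21_mm_202 s17_mm_202

theorem s23_mm_202 : ∃ t, chk3 f_mm_202 t 3 2 1 = true := ex3_b s22_mm_202 k12_mm_202

theorem s24_mm_202 : ∃ t, chk3 f_mm_202 t 2 2 1 = true := ex3_c k0_mm_202 k1_mm_202

theorem s25_mm_202 : ∃ t, chk3 f_mm_202 t 1 2 1 = true := ex3_a s24_mm_202 s23_mm_202

theorem s26_mm_202 : ∃ t, chk3 f_mm_202 t 1 1 1 = true := ex3_b s25_mm_202 k13_mm_202

theorem c_mm_202 : CertB 0 536870912 0 536870912 858993459 64424510 3 eng mog cd0q2 cd1q0 pd2 true false false .pp 2 0 2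
    ndB0q2 ndB1q0 pcB2 cut_mm_202 Ext.none :=
  certB0 (fam := true) (s1 := false) (s2 := false) (a := 2) (b := 0) (c := 2) (cn := .pp) (n1 := ndB0q2) (n2 := ndB1q0) (pc := pcB2) (cut := cut_mm_202) (xt := Ext.none) (P1 := 0) (W1 := 536870912) (P2 := 0) (W2 := 536870912) (P3 := 858993459) (W3 := 64424510) (N0 := 3) (En := eng) (mo := mog) (C1 := cd0q2) (C2 := cd1q0) (C3 := pd2)
    rfl s26_mm_202

noncomputable def f_mm_203 : ℕ → ℕ → ℕ → ℕ → Bool := onCell 0 536870912 1610612736 536870912 858993459 64424510
    (rowB 3 eng mog cd0q2 cd1q0 pd3 1 true false false .up 2 0 3 (qsf 0 536870912 0 536870912 3) ndB0q2 ndB1q0 pcB3 Cut.none Ext.none)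

def k0_mm_203 : ∃ t, chk3 f_mm_203 t 1 1 1 = true :=
  ⟨(b (a (b (a (a (b (b (c (l 16601904) (l 16606080)) (l 38889044727)) (l 4)) (l 4)) (l 4)) (l 4)) (l 4)) (l 2)), by decide +kernel⟩

theorem c_mm_203 : CertB 0 536870912 0 536870912 858993459 64424510 3 eng mog cd0q2 cd1q0 pd3 true false false .up 2 0 3
    ndB0q2 ndB1q0 pcB3 Cut.none Ext.none :=
  certB1 (fam := true) (s1 := false) (s2 := false) (a := 2) (b := 0) (c := 3) (cn := .up) (n1 := ndB0q2) (n2 := ndB1q0) (pc := pcB3) (cut := Cut.none) (xt := Ext.none) (P1 := 0) (W1 := 536870912) (P2 := 0) (W2 := 536870912) (P3 := 858993459) (W3 := 64424510) (N0 := 3) (En := eng) (mo := mog) (C1 := cd0q2) (C2 := cd1q0) (C3 := pd3)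
    rfl (fun _ => rfl) k0_mm_203

noncomputable def f_mm_213 : ℕ → ℕ → ℕ → ℕ → Bool := onCell 0 536870912 536870912 536870912 858993459 64424510
    (rowB 3 eng mog cd0q2 cd1q1 pd3 0 true false false .pnn 2 1 3 (qsf 0 536870912 536870912 536870912 3) ndB0q2 ndB1q1 pcB3 Cut.none Ext.none)

def k0_mm_213 : ∃ t, chk3 f_mm_213 t 1 1 1 = true :=
  ⟨(l 4), by decide +kernel⟩

theorem c_mm_213 : CertB 0 536870912 536870912 536870912 858993459 64424510 3 eng mog cd0q2 cd1q1 pd3 true false false .pnn 2 1 3
    ndB0q2 ndB1q1 pcB3 Cut.none Ext.none :=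
  certB0 (fam := true) (s1 := false) (s2 := false) (a := 2) (b := 1) (c := 3) (cn := .pnn) (n1 := ndB0q2) (n2 := ndB1q1) (pc := pcB3) (cut := Cut.none) (xt := Ext.none) (P1 := 0) (W1 := 536870912) (P2 := 536870912) (W2 := 536870912) (P3 := 858993459) (W3 := 64424510) (N0 := 3) (En := eng) (mo := mog) (C1 := cd0q2) (C2 := cd1q1) (C3 := pd3)
    rfl k0_mm_213

end Pool.Agent.Strip051.G.I8000_8600.Tab.C.BA01

namespace Pool.Agent.Strip051.G.I8000_8600.Tab.C.BA02

open Pool.Agent.Strip051.PB Pool.Agent.Strip051.PB.T
open Pool.Agent.Strip051.G.I8000_8600.Tab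

noncomputable def f_pp_001 : ℕ → ℕ → ℕ → ℕ → Bool := onCell 0 536870912 0 536870912 858993459 64424510
    (rowB 3 eng mog cd0q0 cd2q0 pd1 0 true true true .up 0 0 1 (qsf 0 536870912 0 536870912 1) ndB0q0 ndB2q0 pcB1 Cut.none Ext.none)

def k0_pp_001 : ∃ t, chk3 f_pp_001 t 1 1 1 = true :=
  ⟨(l 4), by decide +kernel⟩

theorem c_pp_001 : CertB 0 536870912 0 536870912 858993459 64424510 3 eng mog cd0q0 cd2q0 pd1 true true true .up 0 0 1
    ndB0q0 ndB2q0 pcB1 Cut.none Ext.none :=
  certB0 (fam := true) (s1 := true) (s2 := true) (a := 0) (b := 0) (c := 1) (cn := .up) (n1 := ndB0q0) (n2 := ndB2q0) (pc := pcB1) (cut := Cut.none) (xt := Ext.none) (P1 := 0) (W1 := 536870912) (P2 := 0) (W2 := 536870912) (P3 := 858993459) (W3 := 64424510) (N0 := 3) (En := eng) (mo := mog) (C1 := cd0q0) (C2 := cd2q0) (C3 := pd1)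
    rfl k0_pp_001

noncomputable def f_pp_011 : ℕ → ℕ → ℕ → ℕ → Bool := onCell 0 536870912 536870912 536870912 858993459 64424510
    (rowB 3 eng mog cd0q0 cd2q1 pd1 0 true true true .pnn 0 1 1 (qsf 0 536870912 536870912 536870912 1) ndB0q0 ndB2q1 pcB1 Cut.none Ext.none)

def k0_pp_011 : ∃ t, chk3 f_pp_011 t 1 1 1 = true :=
  ⟨(l 4), by decide +kernel⟩

theorem c_pp_011 : CertB 0 536870912 536870912 536870912 858993459 64424510 3 eng mog cd0q0 cd2q1 pd1 true true true .pnn 0 1 1
    ndB0q0 ndB2q1 pcB1 Cut.none Ext.none :=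
  certB0 (fam := true) (s1 := true) (s2 := true) (a := 0) (b := 1) (c := 1) (cn := .pnn) (n1 := ndB0q0) (n2 := ndB2q1) (pc := pcB1) (cut := Cut.none) (xt := Ext.none) (P1 := 0) (W1 := 536870912) (P2 := 536870912) (W2 := 536870912) (P3 := 858993459) (W3 := 64424510) (N0 := 3) (En := eng) (mo := mog) (C1 := cd0q0) (C2 := cd2q1) (C3 := pd1)
    rfl k0_pp_011

noncomputable def f_pp_012 : ℕ → ℕ → ℕ → ℕ → Bool := onCell 0 536870912 536870912 536870912 858993459 64424510
    (rowB 3 eng mog cd0q0 cd2q1 pd2 0 true true true .pnp 0 1 2 (qsf 0 536870912 536870912 536870912 2) ndB0q0 ndB2q1 pcB2 Cut.none Ext.none)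

def k0_pp_012 : ∃ t, chk3 f_pp_012 t 1 1 1 = true :=
  ⟨(l 4), by decide +kernel⟩

theorem c_pp_012 : CertB 0 536870912 536870912 536870912 858993459 64424510 3 eng mog cd0q0 cd2q1 pd2 true true true .pnp 0 1 2
    ndB0q0 ndB2q1 pcB2 Cut.none Ext.none :=
  certB0 (fam := true) (s1 := true) (s2 := true) (a := 0) (b := 1) (c := 2) (cn := .pnp) (n1 := ndB0q0) (n2 := ndB2q1) (pc := pcB2) (cut := Cut.none) (xt := Ext.none) (P1 := 0) (W1 := 536870912) (P2 := 536870912) (W2 := 536870912) (P3 := 858993459) (W3 := 64424510) (N0 := 3) (En := eng) (mo := mog) (C1 := cd0q0) (C2 := cd2q1) (C3 := pd2)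
    rfl k0_pp_012

noncomputable def f_pp_022 : ℕ → ℕ → ℕ → ℕ → Bool := onCell 0 536870912 1073741824 536870912 858993459 64424510
    (rowB 3 eng mog cd0q0 cd2q2 pd2 0 true true true .pp 0 2 2 (qsf 0 536870912 1073741824 536870912 2) ndB0q0 ndB2q2 pcB2 Cut.none Ext.none)

def k0_pp_022 : ∃ t, chk3 f_pp_022 t 1 1 1 = true :=
  ⟨(l 4), by decide +kernel⟩

theorem c_pp_022 : CertB 0 536870912 1073741824 536870912 858993459 64424510 3 eng mog cd0q0 cd2q2 pd2 true true true .pp 0 2 2
    ndB0q0 ndB2q2 pcB2 Cut.none Ext.none :=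
  certB0 (fam := true) (s1 := true) (s2 := true) (a := 0) (b := 2) (c := 2) (cn := .pp) (n1 := ndB0q0) (n2 := ndB2q2) (pc := pcB2) (cut := Cut.none) (xt := Ext.none) (P1 := 0) (W1 := 536870912) (P2 := 1073741824) (W2 := 536870912) (P3 := 858993459) (W3 := 64424510) (N0 := 3) (En := eng) (mo := mog) (C1 := cd0q0) (C2 := cd2q2) (C3 := pd2)
    rfl k0_pp_022

noncomputable def f_pp_023 : ℕ → ℕ → ℕ → ℕ → Bool := onCell 0 536870912 1073741824 536870912 858993459 64424510
    (rowB 3 eng mog cd0q0 cd2q2 pd3 0 true true true .up 0 2 3 (qsf 0 536870912 1073741824 536870912 3) ndB0q0 ndB2q2 pcB3 Cut.none Ext.none)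

def k0_pp_023 : ∃ t, chk3 f_pp_023 t 1 1 1 = true :=
  ⟨(l 4), by decide +kernel⟩

theorem c_pp_023 : CertB 0 536870912 1073741824 536870912 858993459 64424510 3 eng mog cd0q0 cd2q2 pd3 true true true .up 0 2 3
    ndB0q0 ndB2q2 pcB3 Cut.none Ext.none :=
  certB0 (fam := true) (s1 := true) (s2 := true) (a := 0) (b := 2) (c := 3) (cn := .up) (n1 := ndB0q0) (n2 := ndB2q2) (pc := pcB3) (cut := Cut.none) (xt := Ext.none) (P1 := 0) (W1 := 536870912) (P2 := 1073741824) (W2 := 536870912) (P3 := 858993459) (W3 := 64424510) (N0 := 3) (En := eng) (mo := mog) (C1 := cd0q0) (C2 := cd2q2) (C3 := pd3)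
    rfl k0_pp_023

noncomputable def f_pp_033 : ℕ → ℕ → ℕ → ℕ → Bool := onCell 0 536870912 0 1230186008 858993459 64424510
    (rowB 3 eng mog cd0q0 cd2q3 pd3 0 true true true .pnn 0 3 3 (qsf 0 536870912 0 1230186008 3) ndB0q0 ndB2q3 pcB3 Cut.none Ext.none)

def k0_pp_033 : ∃ t, chk3 f_pp_033 t 1 1 1 = true :=
  ⟨(b (l 4) (l 4)), by decide +kernel⟩

theorem c_pp_033 : CertB 0 536870912 0 1230186008 858993459 64424510 3 eng mog cd0q0 cd2q3 pd3 true true true .pnn 0 3 3
    ndB0q0 ndB2q3 pcB3 Cut.none Ext.none :=
  certB0 (fam := true) (s1 := true) (s2 := true) (a := 0) (b := 3) (c := 3) (cn := .pnn) (n1 := ndB0q0) (n2 := ndB2q3) (pc := pcB3) (cut := Cut.none) (xt := Ext.none) (P1 := 0) (W1 := 536870912) (P2 := 0) (W2 := 1230186008) (P3 := 858993459) (W3 := 64424510) (N0 := 3) (En := eng) (mo := mog) (C1 := cd0q0) (C2 := cd2q3) (C3 := pd3)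
    rfl k0_pp_033

noncomputable def f_pp_101 : ℕ → ℕ → ℕ → ℕ → Bool := onCell 536870912 536870912 0 536870912 858993459 64424510
    (rowB 3 eng mog cd0q1 cd2q0 pd1 0 true true true .npn 1 0 1 (qsf 536870912 536870912 0 536870912 1) ndB0q1 ndB2q0 pcB1 Cut.none Ext.none)

def k0_pp_101 : ∃ t, chk3 f_pp_101 t 1 1 1 = true :=
  ⟨(l 5), by decide +kernel⟩

theorem c_pp_101 : CertB 536870912 536870912 0 536870912 858993459 64424510 3 eng mog cd0q1 cd2q0 pd1 true true true .npn 1 0 1
    ndB0q1 ndB2q0 pcB1 Cut.none Ext.none :=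
  certB0 (fam := true) (s1 := true) (s2 := true) (a := 1) (b := 0) (c := 1) (cn := .npn) (n1 := ndB0q1) (n2 := ndB2q0) (pc := pcB1) (cut := Cut.none) (xt := Ext.none) (P1 := 536870912) (W1 := 536870912) (P2 := 0) (W2 := 536870912) (P3 := 858993459) (W3 := 64424510) (N0 := 3) (En := eng) (mo := mog) (C1 := cd0q1) (C2 := cd2q0) (C3 := pd1)
    rfl k0_pp_101

noncomputable def f_pp_102 : ℕ → ℕ → ℕ → ℕ → Bool := onCell 536870912 536870912 0 536870912 858993459 64424510
    (rowB 3 eng mog cd0q1 cd2q0 pd2 0 true true true .npp 1 0 2 (qsf 536870912 536870912 0 536870912 2) ndB0q1 ndB2q0 pcB2 Cut.none Ext.none)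

def k0_pp_102 : ∃ t, chk3 f_pp_102 t 1 1 1 = true :=
  ⟨(l 5), by decide +kernel⟩

theorem c_pp_102 : CertB 536870912 536870912 0 536870912 858993459 64424510 3 eng mog cd0q1 cd2q0 pd2 true true true .npp 1 0 2
    ndB0q1 ndB2q0 pcB2 Cut.none Ext.none :=
  certB0 (fam := true) (s1 := true) (s2 := true) (a := 1) (b := 0) (c := 2) (cn := .npp) (n1 := ndB0q1) (n2 := ndB2q0) (pc := pcB2) (cut := Cut.none) (xt := Ext.none) (P1 := 536870912) (W1 := 536870912) (P2 := 0) (W2 := 536870912) (P3 := 858993459) (W3 := 64424510) (N0 := 3) (En := eng) (mo := mog) (C1 := cd0q1) (C2 := cd2q0) (C3 := pd2)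
    rfl k0_pp_102

noncomputable def f_pp_112 : ℕ → ℕ → ℕ → ℕ → Bool := onCell 536870912 536870912 536870912 536870912 858993459 64424510
    (rowB 3 eng mog cd0q1 cd2q1 pd2 0 true true true .dn 1 1 2 (qsf 536870912 536870912 536870912 536870912 2) ndB0q1 ndB2q1 pcB2 Cut.none Ext.none)

def k0_pp_112 : ∃ t, chk3 f_pp_112 t 1 1 1 = true :=
  ⟨(l 4), by decide +kernel⟩

theorem c_pp_112 : CertB 536870912 536870912 536870912 536870912 858993459 64424510 3 eng mog cd0q1 cd2q1 pd2 true true true .dn 1 1 2
    ndB0q1 ndB2q1 pcB2 Cut.none Ext.none :=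
  certB0 (fam := true) (s1 := true) (s2 := true) (a := 1) (b := 1) (c := 2) (cn := .dn) (n1 := ndB0q1) (n2 := ndB2q1) (pc := pcB2) (cut := Cut.none) (xt := Ext.none) (P1 := 536870912) (W1 := 536870912) (P2 := 536870912) (W2 := 536870912) (P3 := 858993459) (W3 := 64424510) (N0 := 3) (En := eng) (mo := mog) (C1 := cd0q1) (C2 := cd2q1) (C3 := pd2)
    rfl k0_pp_112

noncomputable def f_pp_113 : ℕ → ℕ → ℕ → ℕ → Bool := onCell 536870912 536870912 536870912 536870912 858993459 64424510
    (rowB 3 eng mog cd0q1 cd2q1 pd3 0 true true true .nn 1 1 3 (qsf 536870912 536870912 536870912 536870912 3) ndB0q1 ndB2q1 pcB3 Cut.none Ext.none)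

def k0_pp_113 : ∃ t, chk3 f_pp_113 t 1 1 1 = true :=
  ⟨(l 4), by decide +kernel⟩

theorem c_pp_113 : CertB 536870912 536870912 536870912 536870912 858993459 64424510 3 eng mog cd0q1 cd2q1 pd3 true true true .nn 1 1 3
    ndB0q1 ndB2q1 pcB3 Cut.none Ext.none :=
  certB0 (fam := true) (s1 := true) (s2 := true) (a := 1) (b := 1) (c := 3) (cn := .nn) (n1 := ndB0q1) (n2 := ndB2q1) (pc := pcB3) (cut := Cut.none) (xt := Ext.none) (P1 := 536870912) (W1 := 536870912) (P2 := 536870912) (W2 := 536870912) (P3 := 858993459) (W3 := 64424510) (N0 := 3) (En := eng) (mo := mog) (C1 := cd0q1) (C2 := cd2q1) (C3 := pd3)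
    rfl k0_pp_113

noncomputable def f_pp_123 : ℕ → ℕ → ℕ → ℕ → Bool := onCell 536870912 536870912 1073741824 536870912 858993459 64424510
    (rowB 3 eng mog cd0q1 cd2q2 pd3 0 true true true .npn 1 2 3 (qsf 536870912 536870912 1073741824 536870912 3) ndB0q1 ndB2q2 pcB3 Cut.none Ext.none)

def k0_pp_123 : ∃ t, chk3 f_pp_123 t 1 1 1 = true :=
  ⟨(l 4), by decide +kernel⟩

theorem c_pp_123 : CertB 536870912 536870912 1073741824 536870912 858993459 64424510 3 eng mog cd0q1 cd2q2 pd3 true true true .npn 1 2 3
    ndB0q1 ndB2q2 pcB3 Cut.none Ext.none :=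
  certB0 (fam := true) (s1 := true) (s2 := true) (a := 1) (b := 2) (c := 3) (cn := .npn) (n1 := ndB0q1) (n2 := ndB2q2) (pc := pcB3) (cut := Cut.none) (xt := Ext.none) (P1 := 536870912) (W1 := 536870912) (P2 := 1073741824) (W2 := 536870912) (P3 := 858993459) (W3 := 64424510) (N0 := 3) (En := eng) (mo := mog) (C1 := cd0q1) (C2 := cd2q2) (C3 := pd3)
    rfl k0_pp_123

noncomputable def f_pp_133 : ℕ → ℕ → ℕ → ℕ → Bool := onCell 536870912 536870912 0 1230186008 858993459 64424510
    (rowB 3 eng mog cd0q1 cd2q3 pd3 0 true true true .dn 1 3 3 (qsf 536870912 536870912 0 1230186008 3) ndB0q1 ndB2q3 pcB3 Cut.none Ext.none)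

def k0_pp_133 : ∃ t, chk3 f_pp_133 t 1 1 1 = true :=
  ⟨(b (l 2) (l 4)), by decide +kernel⟩

theorem c_pp_133 : CertB 536870912 536870912 0 1230186008 858993459 64424510 3 eng mog cd0q1 cd2q3 pd3 true true true .dn 1 3 3
    ndB0q1 ndB2q3 pcB3 Cut.none Ext.none :=
  certB0 (fam := true) (s1 := true) (s2 := true) (a := 1) (b := 3) (c := 3) (cn := .dn) (n1 := ndB0q1) (n2 := ndB2q3) (pc := pcB3) (cut := Cut.none) (xt := Ext.none) (P1 := 536870912) (W1 := 536870912) (P2 := 0) (W2 := 1230186008) (P3 := 858993459) (W3 := 64424510) (N0 := 3) (En := eng) (mo := mog) (C1 := cd0q1) (C2 := cd2q3) (C3 := pd3)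
    rfl k0_pp_133

noncomputable def f_pp_202 : ℕ → ℕ → ℕ → ℕ → Bool := onCell 0 536870912 0 536870912 858993459 64424510
    (rowB 3 eng mog cd0q2 cd2q0 pd2 0 true true true .pp 2 0 2 (qsf 0 536870912 0 536870912 2) ndB0q2 ndB2q0 pcB2 Cut.none Ext.none)

def k0_pp_202 : ∃ t, chk3 f_pp_202 t 1 1 1 = true :=
  ⟨(l 5), by decide +kernel⟩

theorem c_pp_202 : CertB 0 536870912 0 536870912 858993459 64424510 3 eng mog cd0q2 cd2q0 pd2 true true true .pp 2 0 2
    ndB0q2 ndB2q0 pcB2 Cut.none Ext.none :=
  certB0 (fam := true) (s1 := true) (s2 := true) (a := 2) (b := 0) (c := 2) (cn := .pp) (n1 := ndB0q2) (n2 := ndB2q0) (pc := pcB2) (cut := Cut.none) (xt := Ext.none) (P1 := 0) (W1 := 536870912) (P2 := 0) (W2 := 536870912) (P3 := 858993459) (W3 := 64424510) (N0 := 3) (En := eng) (mo := mog) (C1 := cd0q2) (C2 := cd2q0) (C3 := pd2)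
    rfl k0_pp_202

noncomputable def f_pp_203 : ℕ → ℕ → ℕ → ℕ → Bool := onCell 0 536870912 0 536870912 858993459 64424510
    (rowB 3 eng mog cd0q2 cd2q0 pd3 0 true true true .up 2 0 3 (qsf 0 536870912 0 536870912 3) ndB0q2 ndB2q0 pcB3 Cut.none Ext.none)

def k0_pp_203 : ∃ t, chk3 f_pp_203 t 1 1 1 = true :=
  ⟨(l 5), by decide +kernel⟩

theorem c_pp_203 : CertB 0 536870912 0 536870912 858993459 64424510 3 eng mog cd0q2 cd2q0 pd3 true true true .up 2 0 3
    ndB0q2 ndB2q0 pcB3 Cut.none Ext.none :=
  certB0 (fam := true) (s1 := true) (s2 := true) (a := 2) (b := 0) (c := 3) (cn := .up) (n1 := ndB0q2) (n2 := ndB2q0) (pc := pcB3) (cut := Cut.none) (xt := Ext.none) (P1 := 0) (W1 := 536870912) (P2 := 0) (W2 := 536870912) (P3 := 858993459) (W3 := 64424510) (N0 := 3) (En := eng) (mo := mog) (C1 := cd0q2) (C2 := cd2q0) (C3 := pd3)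
    rfl k0_pp_203

noncomputable def f_pp_213 : ℕ → ℕ → ℕ → ℕ → Bool := onCell 0 536870912 536870912 536870912 858993459 64424510
    (rowB 3 eng mog cd0q2 cd2q1 pd3 0 true true true .pnn 2 1 3 (qsf 0 536870912 536870912 536870912 3) ndB0q2 ndB2q1 pcB3 Cut.none Ext.none)

def k0_pp_213 : ∃ t, chk3 f_pp_213 t 1 1 1 = true :=
  ⟨(l 4), by decide +kernel⟩

theorem c_pp_213 : CertB 0 536870912 536870912 536870912 858993459 64424510 3 eng mog cd0q2 cd2q1 pd3 true true true .pnn 2 1 3
    ndB0q2 ndB2q1 pcB3 Cut.none Ext.none :=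
  certB0 (fam := true) (s1 := true) (s2 := true) (a := 2) (b := 1) (c := 3) (cn := .pnn) (n1 := ndB0q2) (n2 := ndB2q1) (pc := pcB3) (cut := Cut.none) (xt := Ext.none) (P1 := 0) (W1 := 536870912) (P2 := 536870912) (W2 := 536870912) (P3 := 858993459) (W3 := 64424510) (N0 := 3) (En := eng) (mo := mog) (C1 := cd0q2) (C2 := cd2q1) (C3 := pd3)
    rfl k0_pp_213

noncomputable def f_pm_001 : ℕ → ℕ → ℕ → ℕ → Bool := onCell 0 536870912 536870912 536870912 858993459 64424510
    (rowB 3 eng mog cd0q0 cd2q0 pd1 1 true true false .up 0 0 1 (qsf 0 536870912 0 536870912 1) ndB0q0 ndB2q0 pcB1 Cut.none Ext.none)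

def k0_pm_001 : ∃ t, chk3 f_pm_001 t 1 1 1 = true :=
  ⟨(b (l 3) (b (l 3) (b (l 3) (a (l 2) (b (l 3) (b (a (l 2) (a (l 2) (b (a (l 3) (a (l 3) (l 3))) (a (l 2) (c (a (c (l 16260976) (l 16209464)) (c (l 16246728) (l 16197464))) (c (a (l 158006604135) (l 16133440)) (a (c (l 16086048) (l 167670069303)) (c (l 16077520) (l 16036936))))))))) (a (l 2) (a (l 2) (b (a (l 2) (c (a (l 16242272) (l 16222736)) (c (a (l 16125112) (l 16113240)) (a (l 16045944) (l 16035584))))) (a (l 2) (a (l 2) (c (l 16190832) (a (l 16058568) (l 16052848)))))))))))))), by decide +kernel⟩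

theorem c_pm_001 : CertB 0 536870912 0 536870912 858993459 64424510 3 eng mog cd0q0 cd2q0 pd1 true true false .up 0 0 1
    ndB0q0 ndB2q0 pcB1 Cut.none Ext.none :=
  certB1 (fam := true) (s1 := true) (s2 := false) (a := 0) (b := 0) (c := 1) (cn := .up) (n1 := ndB0q0) (n2 := ndB2q0) (pc := pcB1) (cut := Cut.none) (xt := Ext.none) (P1 := 0) (W1 := 536870912) (P2 := 0) (W2 := 536870912) (P3 := 858993459) (W3 := 64424510) (N0 := 3) (En := eng) (mo := mog) (C1 := cd0q0) (C2 := cd2q0) (C3 := pd1)
    rfl (fun _ => rfl) k0_pm_001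

noncomputable def cut_pm_011 : Cut := Cut.of [[⟨0, 0, 0, 67108864⟩, ⟨1, 1, 0, 67108864⟩, ⟨2, 1, 0, 67108864⟩]]

noncomputable def f_pm_011 : ℕ → ℕ → ℕ → ℕ → Bool := onCell 0 536870912 536870912 536870912 858993459 64424510
    (rowB 3 eng mog cd0q0 cd2q1 pd1 1 true true false .pnn 0 1 1 (qsf 0 536870912 536870912 536870912 1) ndB0q0 ndB2q1 pcB1 cut_pm_011 Ext.none)

def k0_pm_011 : ∃ t, chk3 f_pm_011 t 2 1 1 = true :=
  ⟨(b (l 3) (b (l 3) (b (l 3) (b (l 3) (b (a (l 3) (l 3)) (b (a (l 3) (a (b (l 3) (a (a (l 3) (c (l 1444350072119) (l 16615192))) (a (c (l 259475926855) (l 16621416)) (c (l 16508632) (l 16605704))))) (a (b (l 3) (c (a (l 16510904) (l 16492200)) (l 226189892295))) (c (c (l 16554376) (l 16457552)) (l 248201513479))))) (a (a (a (l 6) (a (l 6) (b (l 3) (a (l 6) (c (c (a (l 257865624615) (l 16678320)) (l 16712584)) (b (l 243906969143) (l 16664176))))))) (a (b (b (l 3) (a (c (l 1823918015271) (l 1790095157079)) (c (a (l 16642144) (l 16632576)) (l 246591249031)))) (a (c (a (b (l 243370071127) (l 16654336)) (b (l 16648000) (l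 16645128))) (a (a (l 16669880) (l 16655008)) (l 251959981735))) (c (a (a (l 16639608) (l 16634944)) (l 16627896)) (a (l 16640176) (l 16653072))))) (a (b (c (c (l 245517463719) (l 16669424)) (l 243369985543)) (c (c (l 16627992) (l 16662360)) (l 16620608))) (c (c (b (l 16613736) (l 16628960)) (l 16651256)) (a (l 244443695207) (l 16596568)))))) (a (a (a (c (c (l 249275460215) (l 16625840)) (c (l 16642096) (l 16629504))) (c (b (l 16538904) (l 16553896)) (l 16561848))) (c (c (a (l 16572912) (l 16554424)) (b (l 16539528) (l 16533016))) (a (l 16588744) (l 16593776)))) (a (c (c (a (l 16535760) (l 16516896)) (l 16478920)) (a (l 16577328) (l 16560360))) (c (c (l 16489088) (l 16484952)) (l 16534568))))))))))), by decide +kernel⟩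

def k1_pm_011 : ∃ t, chk3 f_pm_011 t 3 1 1 = true :=
  ⟨(b (l 3) (b (l 3) (b (l 3) (b (l 3) (a (b (a (l 3) (c (a (c (l 133311178151) (l 990156894167)) (c (l 127405546743) (l 132774241031))) (a (l 903720703623) (l 198809237463)))) (a (c (a (c (b (l 16487448) (l 16453864)) (a (l 16444904) (l 16427840))) (c (b (l 16433296) (l 16420824)) (l 16361000))) (a (c (l 16500120) (l 16494792)) (b (l 16481008) (l 16464512)))) (a (c (c (l 16417024) (l 16413064)) (b (l 16445328) (l 16428776))) (c (c (l 16388304) (l 16382656)) (l 16400944))))) (a (b (b (l 3) (a (c (l 16409664) (l 16390248)) (c (l 16338616) (l 16355152)))) (c (a (c (l 16339872) (l 16352872)) (l 16317416)) (a (l 16365136) (l 16329960)))) (c (a (b (c (l 217599371943) (l 16323368)) (l 16287888)) (b (c (l 212767468711) (l 16290472)) (l 16256216))) (a (b (l 176797369959) (l 16295112)) (b (l 179481643687) (l 16259512)))))))))), by decide +kernel⟩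

theorem s2_pm_011 : ∃ t, chk3 f_pm_011 t 1 1 1 = true := ex3_a k0_pm_011 k1_pm_011

theorem c_pm_011 : CertB 0 536870912 536870912 536870912 858993459 64424510 3 eng mog cd0q0 cd2q1 pd1 true true false .pnn 0 1 1
    ndB0q0 ndB2q1 pcB1 cut_pm_011 Ext.none :=
  certB1 (fam := true) (s1 := true) (s2 := false) (a := 0) (b := 1) (c := 1) (cn := .pnn) (n1 := ndB0q0) (n2 := ndB2q1) (pc := pcB1) (cut := cut_pm_011) (xt := Ext.none) (P1 := 0) (W1 := 536870912) (P2 := 536870912) (W2 := 536870912) (P3 := 858993459) (W3 := 64424510) (N0 := 3) (En := eng) (mo := mog) (C1 := cd0q0) (C2 := cd2q1) (C3 := pd1)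
    rfl (fun _ => rfl) s2_pm_011

end Pool.Agent.Strip051.G.I8000_8600.Tab.C.BA02

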