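import Pool.Agent.Strip051.G.I8000_8600.Tab

/-! # Certificates B6 (generated) -/

set_option linter.all false
set_option maxRecDepth 100000

namespace Pool.Agent.Strip051.G.I8000_8600.Tab.C.BA02

open Pool.Agent.Strip051.PB Pool.Agent.Strip051.PB.T
open Pool.Agent.Strip051.G.I8000_8600.Tab

noncomputable def cut_pm_012 : Cut := Cut.of [[⟨0, 0, 0, 67108864⟩, ⟨1, 1, 0, 67108864⟩, ⟨2, 1, 0, 67108864⟩]]

noncomputable def f_pm_012 : ℕ → ℕ → ℕ → ℕ → Bool := onCell 1073741824 536870912 536870912 536870912 858993459 64424510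
    (rowB 3 eng mog cd0q0 cd2q1 pd2 2 true true false .pnp 0 1 2 (qsf 0 536870912 536870912 536870912 2) ndB0q0 ndB2q1 pcB2 cut_pm_012 Ext.none)

def k0_pm_012 : ∃ t, chk3 f_pm_012 t 4 2 1 = true :=
  ⟨(a (c (b (b (a (b (a (l 16197480) (l 16192496)) (a (l 16233200) (l 16228880))) (b (l 16170424) (l 16305296))) (a (b (a (l 16266416) (l 16264216)) (a (c (l 16292824) (l 16305120)) (l 16296984))) (b (l 16358128) (a (l 16277528) (l 16240720))))) (b (b (a (a (c (l 16323048) (l 16337880)) (l 16328864)) (l 16425488)) (a (a (a (l 16383552) (l 16362392)) (l 16361144)) (a (l 16341776) (l 16296168)))) (a (b (a (c (l 16346024) (l 16405776)) (l 16394544)) (a (b (l 16339312) (l 16357696)) (l 16429720))) (b (a (l 16371392) (l 16321968)) (a (l 16398544) (l 16345432)))))) (b (b (a (b (a (l 16209904) (l 16180768)) (a (l 16248568) (l 16215376))) (b (l 16139080) (l 16168288))) (a (b (a (l 16285576) (l 16248240)) (a (l 16322128) (l 16279648))) (b (l 16194712) (a (l 16238832) (l 16199944))))) (b (a (b (a (l 16358688)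 (l 16310880)) (a (l 16394952) (l 16342152))) (b (a (l 16264896) (l 16220784)) (a (l 16290968) (l 16241456)))) (a (a (b (l 16430600) (l 16423216)) (b (l 16372992) (l 16402768))) (a (b (l 16316712) (l 16341824)) (b (l 16262200) (l 16282504))))))) (b (b (a (a (b (l 2) (l 16147008)) (l 2)) (l 2)) (a (a (b (l 16167760) (l 16187088)) (b (l 16138712) (l 16153584))) (b (c (l 16120856) (l 16046456)) (c (l 16130640) (l 16055264))))) (b (a (a (b (l 16206504) (a (l 16236872) (l 16214464))) (b (l 16167528) (l 16181704))) (c (b (l 16139768) (l 16149256)) (b (l 16060864) (a (l 16105880) (l 16065176))))) (a (c (b (l 16250304) (l 16267656)) (c (b (l 16202760) (l 16216440)) (b (l 16164544) (l 16175920)))) (c (a (b (l 16181288) (l 16193128)) (b (l 16137864) (l 16145096))) (b (a (l 16110720) (l 16065336)) (a (l 16115656) (l 16065432)))))))), by decide +kernel⟩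

def k1_pm_012 : ∃ t, chk3 f_pm_012 t 8 6 1 = true :=
  ⟨(b (a (a (b (c (b (l 16376520) (a (l 16459248) (l 16479072))) (c (l 16500000) (l 16486224))) (a (c (c (b (l 16492368) (l 16512616)) (l 16517904)) (b (l 16537096) (l 16555192))) (c (b (l 16498640) (l 16518568)) (l 16471384)))) (b (c (l 16466696) (l 16410576)) (a (c (l 16422864) (l 16435448)) (c (l 16490536) (l 16441544))))) (c (b (a (l 16422760) (l 16365984)) (a (l 16444224) (l 16383704))) (a (b (l 16281928) (a (l 16406272) (l 16371424))) (b (l 16301760) (l 16320032))))) (a (b (a (a (b (c (l 16497912) (l 16573592)) (c (l 16496720) (l 16589344))) (c (c (l 16540304) (l 16556592)) (c (l 16553832) (l 16532912)))) (c (c (l 16535816) (l 16519640)) (c (l 16477016) (c (l 16417088) (l 16383304))))) (b (a (c (a (a (l 16559056) (l 16579448)) (l 16578408)) (a (l 16603904) (l 16564120))) (c (l 16546184) (c (l 16516104) (l 16451168)))) (a (a (c (b (l 16574344) (l 16563952)) (l 16596392)) (c (l 16598848) (l 16555864))) (c (l 16530720) (c (l 16464368)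 (l 16441864)))))) (b (a (a (c (l 16479472) (l 16345776)) (c (l 16446792) (l 16392480))) (c (b (l 16353216) (l 16297144)) (c (l 16354200) (l 16320360)))) (a (c (c (l 16470528) (b (l 16464800) (l 16473728))) (b (a (l 16446040) (l 16407280)) (a (l 16456264) (l 16416584)))) (c (a (l 16439272) (l 16394848)) (b (l 16349800) (l 16357584))))))), by decide +kernel⟩

def k2_pm_012 : ∃ t, chk3 f_pm_012 t 16 14 1 = true :=
  ⟨(b (a (a (b (c (b (l 16574648) (l 16564496)) (c (l 16638536) (l 16620992))) (a (c (b (l 16617544) (l 16627984)) (l 16632672)) (c (l 16621968) (l 16611096)))) (c (b (l 16619992) (l 16613144)) (c (b (l 16597976) (l 16609056)) (b (l 16578640) (l 16569136))))) (c (b (a (l 16585704) (l 16548416)) (a (l 16595304) (l 16557152))) (b (a (l 16505376) (l 16506344)) (a (c (l 16567544) (l 16546672)) (l 16473528))))) (a (a (a (b (c (b (l 16617256) (l 16627344)) (b (l 16664336) (l 16650880))) (b (c (l 16637304) (l 16658680)) (c (b (l 16644728) (l 16649656)) (l 16645760)))) (b (c (l 16621800)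 (l 16593000)) (c (b (l 16678840) (l 16688752)) (b (l 16614360) (l 16621968))))) (c (b (c (l 16652424) (l 16637416)) (a (l 16646352) (l 16625248))) (c (b (l 16578800) (b (l 16609264) (l 16594936))) (b (l 16560472) (a (l 16628112) (l 16604304)))))) (c (b (a (c (l 16613160) (l 16575352)) (a (l 16575112) (l 16555520))) (a (c (l 16622880) (a (l 16617160) (l 16595904))) (c (l 16582744) (l 16564392)))) (c (b (a (l 16577712) (l 16535152)) (a (l 16599040) (l 16544296))) (b (a (l 16557336) (l 16512688)) (a (l 16568952) (l 16522440))))))), by decide +kernel⟩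

def k3_pm_012 : ∃ t, chk3 f_pm_012 t 17 14 1 = true :=
  ⟨(b (a (a (b (c (l 16511512) (l 16465608)) (c (l 16519392) (l 16473864))) (c (b (l 16474920) (l 16482056)) (b (l 16425032) (l 16432568)))) (c (a (b (l 16438800) (l 16445120)) (b (l 16403208) (l 16408520))) (b (c (l 16379824) (l 16349104)) (a (l 16391544) (l 16350696))))) (a (c (b (a (c (l 16536496) (l 16515936)) (l 16488304)) (a (c (l 16543552) (l 16523216)) (l 16493984))) (a (b (l 16493128) (b (l 16487032) (l 16491064))) (b (l 16418168) (c (l 16458216) (l 16431840))))) (b (c (a (l 16450544) (l 16413216)) (c (l 16370248) (l 16340192))) (c (a (l 16434192) (l 16417040)) (c (l 16387576) (l 16357760)))))), by decide +kernel⟩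

def k4_pm_012 : ∃ t, chk3 f_pm_012 t 16 15 1 = true :=
  ⟨(b (a (a (b (b (c (a (b (l 16654584) (l 16670008)) (l 16677264)) (a (a (l 16681128) (l 16648000)) (b (l 16627832) (l 16631832)))) (a (l 6) (a (l 6) (c (l 16699080) (l 16652784))))) (l 6)) (a (b (c (b (l 16676472) (l 16661592)) (b (c (l 16655392) (l 16639664)) (c (l 16662640) (l 16647816)))) (l 6)) (b (c (c (l 16664544) (l 16629728)) (c (l 16635504) (l 16618944))) (a (l 6) (b (c (l 16660872) (l 16632344)) (l 6)))))) (b (c (a (a (b (l 16612440) (l 16596960)) (c (l 16622568) (l 16606528))) (c (l 16602032) (l 16573864))) (a (b (a (l 16600048) (l 16576488)) (a (l 16606840) (l 16582832))) (c (l 16554576) (l 16533696)))) (b (a (c (c (a (l 16651184) (l 16629888)) (l 16636448)) (c (l 16620576) (l 16603384))) (c (c (l 16598216) (l 16581272)) (c (l 16562856) (l 16542968)))) (a (a (l 6) (a (l 6) (c (l 16622064) (l 16590104)))) (c (c (l 16602592) (l 16586304)) (c (l 16568648) (l 16549624))))))) (a (l 6) (b (b (b (a (l 6) (a (l 6) (c (l 16587064)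 (l 16551688)))) (l 6)) (l 6)) (l 6)))), by decide +kernel⟩

def k5_pm_012 : ∃ t, chk3 f_pm_012 t 17 30 1 = true :=
  ⟨(a (c (b (a (b (l 16539088) (l 16543032)) (b (l 16498384) (l 16501592))) (a (c (b (l 16556512) (l 16560368)) (b (l 16537240) (l 16541600))) (c (b (l 16515496) (l 16518736)) (b (l 16493920) (l 16497568))))) (b (a (c (l 16488352) (l 16465008)) (b (l 16450288) (l 16433128))) (a (c (b (l 16516336) (l 16521304)) (b (l 16493824) (l 16499472))) (b (l 16447728) (c (l 16474696) (l 16450128)))))) (a (c (b (b (l 16458568) (l 16460928)) (c (l 16497504) (l 16473784))) (b (c (l 16421368) (l 16393136)) (b (l 16390960) (c (l 16428832) (l 16401552))))) (c (b (c (l 16433168) (l 16406896)) (b (l 16422896) (l 16445872))) (b (c (l 16378416) (l 16347744)) (c (l 16382568) (l 16352416)))))), by decide +kernel⟩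

def k6_pm_012 : ∃ t, chk3 f_pm_012 t 17 31 1 = true :=
  ⟨(a (b (b (a (c (c (l 16574624) (l 16566992)) (c (l 16510744) (l 16489760))) (c (c (l 16521992) (l 16501320)) (c (l 16479040) (l 16455152)))) (a (a (l 6) (a (l 6) (c (l 16542712) (l 16503232)))) (a (c (a (l 16531728) (l 16520776)) (a (l 16490792) (l 16478400))) (c (l 16514904) (c (l 16471616) (l 16447808)))))) (b (b (a (l 6) (a (l 6) (c (l 16506880) (l 16463616)))) (l 6)) (l 6))) (b (c (a (b (c (l 16480448) (l 16457288)) (c (l 16483104) (l 16460432))) (b (c (l 16439600) (l 16413984)) (c (l 16441648) (l 16416416)))) (a (b (c (l 16432344) (l 16405624)) (c (l 16436064) (l 16410008))) (b (c (l 16386416) (l 16356880)) (c (l 16389304) (l 16360320))))) (a (b (c (c (a (l 16496232) (l 16475112)) (a (l 16474880) (l 16452384))) (c (a (l 16451984) (l 16428008)) (a (l 16427544) (l 16401992)))) (a (l 6) (b (c (l 16486928) (l 16439408)) (l 6)))) (c (c (b (a (l 16454128) (l 16433288)) (a (l 16477192) (l 16456128))) (b (a (l 16430040) (l 16407872))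 (a (l 16432784) (l 16410296)))) (b (c (l 16413376) (l 16385040)) (c (a (l 16407712) (l 16383704)) (a (l 16381016) (l 16355384)))))))), by decide +kernel⟩

def k7_pm_012 : ∃ t, chk3 f_pm_012 t 9 6 1 = true :=
  ⟨(b (a (c (a (b (l 16310072) (l 16323936)) (b (l 16255384) (l 16265432))) (a (b (l 16239376) (l 16252872)) (b (l 16178856) (l 16187584)))) (c (a (b (l 16202408) (l 16208992)) (b (l 16150344) (l 16153048))) (b (a (l 16120336) (l 16065696)) (a (l 16124448) (l 16065592))))) (a (b (c (a (l 16356040) (l 16272608)) (a (l 16265464) (l 16195384))) (c (a (c (l 16358248) (l 16307360)) (b (l 16276168) (l 16277768))) (a (b (l 16274368) (l 16258968)) (b (l 16200576) (l 16203976))))) (b (a (c (l 16191568) (l 16169464)) (c (l 16152696) (l 16064504))) (c (a (a (l 16229008) (l 16197704)) (l 16149496)) (a (c (l 16152136) (l 16106360)) (l 16062528)))))), by decide +kernel⟩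

def k8_pm_012 : ∃ t, chk3 f_pm_012 t 9 14 1 = true :=
  ⟨(a (b (c (a (b (l 16349120) (l 16358696)) (b (l 16279048) (l 16280024))) (a (b (l 16264168) (a (l 16310008) (l 16269552))) (b (l 16206960) (l 16209584)))) (a (c (b (a (l 16375280) (l 16336928)) (a (l 16378200) (l 16338984))) (b (a (l 16314248) (l 16272864)) (a (l 16317408) (l 16275296)))) (c (b (a (l 16299432) (l 16262800)) (a (l 16300576) (l 16262864))) (b (c (l 16230032) (l 16192568)) (a (l 16233568) (l 16192144)))))) (b (a (a (c (l 16228328) (l 16150272)) (c (l 16257976) (a (l 16121640) (l 16102848)))) (c (b (l 16145288) (l 16141712)) (b (l 16060416) (l 16058968)))) (a (c (a (b (l 16226888) (l 16225976)) (b (l 16191920) (l 16189872))) (b (a (l 16151192) (l 16111624)) (a (l 16151152) (l 16110672)))) (c (b (l 16179768) (l 16196552)) (b (l 16057104) (l 16075864)))))), by decide +kernel⟩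

def k9_pm_012 : ∃ t, chk3 f_pm_012 t 18 15 1 = true :=
  ⟨(b (a (c (b (a (b (l 16379872) (l 16380816)) (l 16340168)) (a (b (l 16381872) (l 16403952)) (b (l 16340592) (l 16340968)))) (b (a (c (l 16335800) (l 16303240)) (l 16276768)) (a (c (l 16338408) (l 16306264)) (c (l 16294416) (l 16260712))))) (c (b (a (l 16300824) (l 16262312)) (a (b (l 16300488) (l 16300096)) (l 16302824))) (b (a (l 16234168) (l 16192016)) (a (b (l 16234104) (l 16233944)) (l 16211912))))) (a (c (b (a (b (c (l 16397840) (l 16370312)) (c (l 16399200) (l 16371960))) (b (l 16362368) (c (l 16356224) (l 16327408)))) (a (b (c (l 16421568) (l 16373744)) (a (c (l 16413288) (l 16387328)) (c (l 16390760) (l 16363968)))) (b (c (l 16356880) (l 16328376)) (c (a (l 16368552) (l 16346672)) (a (l 16340896) (l 16318112)))))) (c (b (a (b (l 16340712) (l 16342728)) (l 16337920)) (b (a (l 16344984) (l 16297888)) (a (a (l 16359568) (l 16335352)) (l 16320456)))) (b (a (b (l 16309048) (l 16311504)) (l 16283832)) (b (a (l 16314312) (l 16265432))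 (a (a (l 16330016) (l 16304896)) (l 16267600)))))) (b (c (a (b (l 16320776) (c (l 16314568) (l 16284040))) (c (l 16295776) (l 16242384))) (a (b (l 16234000) (l 16276168)) (c (l 16207672) (l 16170680)))) (c (a (b (c (l 16314464) (l 16284176)) (c (a (l 16325096) (l 16303848)) (l 16305448))) (b (c (l 16273336) (l 16241144)) (c (l 16293544) (l 16240624)))) (a (b (c (l 16251816) (l 16217384)) (c (l 16252528) (l 16218584))) (b (c (l 16206760) (l 16170208)) (c (l 16206568) (l 16170416)))))))), by decide +kernel⟩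

def k10_pm_012 : ∃ t, chk3 f_pm_012 t 19 15 1 = true :=
  ⟨(b (a (c (a (b (l 16224568) (l 16243240)) (b (l 16208416) (c (l 16202256) (l 16165864)))) (a (b (l 16150264) (l 16148328)) (b (l 16108888) (c (l 16126784) (l 16085016))))) (c (b (a (l 16148936) (l 16110168)) (a (l 16165920) (l 16105016))) (b (a (l 16070472) (l 16033776)) (a (l 16067200) (l 16029824))))) (c (a (b (a (b (l 16220008) (l 16239304)) (a (l 16190088) (l 16233744))) (a (b (c (l 16233568) (l 16199360)) (c (l 16231976) (l 16197928))) (a (b (l 16186872) (l 16226736)) (b (l 16188192) (c (l 16182848) (l 16146168)))))) (b (a (c (l 16157848) (l 16121672)) (c (l 16116464) (l 16081480))) (a (b (c (l 16153608) (l 16117552)) (c (l 16150576) (l 16114640))) (c (b (l 16111392) (l 16107800)) (l 16074984))))) (a (b (a (b (l 16146360) (l 16144928)) (c (l 16123048) (l 16081584))) (a (b (l 16185656) (c (l 16161648) (l 16123128))) (c (b (l 16119840) (l 16117880)) (b (l 16078648) (l 16076928))))) (b (a (c (l 16083080) (l 16042080)) (l 16045976))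 (a (c (l 16098768) (l 16037232)) (c (l 16038328) (l 15999664))))))), by decide +kernel⟩

def k11_pm_012 : ∃ t, chk3 f_pm_012 t 5 2 1 = true :=
  ⟨(b (a (b (l 2) (a (a (b (l 2) (l 16062584)) (l 2)) (l 2))) (l 2)) (a (a (a (b (b (l 16105144) (l 16104248)) (b (l 16145456) (l 16228320))) (b (a (b (l 16039840) (l 16035592)) (c (a (l 16061568) (l 16054392)) (l 16150448))) (a (b (l 16031048) (l 16026632)) (c (b (l 16048368) (l 16043976)) (b (l 15971736) (l 15962424)))))) (b (b (l 15989208) (c (l 16016760) (l 15936168))) (b (c (l 16004816) (l 15923448)) (c (l 15993512) (l 15908800))))) (b (a (b (l 2) (l 15920144)) (l 2)) (a (b (l 16046280) (l 16065976)) (b (l 16009272) (l 15937136)))))), by decide +kernel⟩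

def k12_pm_012 : ∃ t, chk3 f_pm_012 t 5 6 1 = true :=
  ⟨(a (a (a (b (b (c (l 16099680) (l 16014352)) (c (l 16098080) (l 16010152))) (b (c (l 16093792) (l 16005408)) (c (l 16086504) (l 15999656)))) (b (a (b (l 16021792) (l 16015912)) (c (b (l 16039296) (l 16032776)) (b (l 15952992) (l 15943752)))) (a (b (l 16008440) (l 15998928)) (c (b (l 16065816) (a (l 16018920) (l 16004888))) (b (l 15934288) (l 15923904)))))) (b (b (c (l 15983024) (l 15892968)) (c (l 15972256) (l 15877568))) (b (c (l 15958896) (l 15861840)) (c (l 15943176) (l 15845904))))) (b (a (b (c (l 15900544) (l 15804656)) (c (l 15880824) (l 15778632))) (b (l 15968208) (c (l 15799136) (l 15690752)))) (a (b (c (l 15860760) (l 15753096)) (c (l 15838088) (l 15727272))) (b (c (l 15770288) (l 15654688)) (c (l 15741024) (l 15619168)))))), by decide +kernel⟩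

def k13_pm_012 : ∃ t, chk3 f_pm_012 t 10 7 1 = true :=
  ⟨(b (a (a (b (c (l 16118472) (l 15993080)) (c (b (l 16067264) (l 16123592)) (b (l 15987664) (l 15983720)))) (a (b (c (l 16028048) (l 15944384)) (c (l 16054456) (l 15934424))) (b (a (l 15963880) (c (l 15989872) (l 15904680))) (a (c (l 15987888) (l 15909000)) (c (a (l 15976064) (l 15968776)) (l 15892200)))))) (b (c (l 15987432) (l 15912904)) (c (b (l 15908624) (l 15897352)) (a (l 15847000) (l 15776024))))) (a (a (b (c (b (a (l 16072216) (l 16035376)) (a (l 16065984) (l 16027936))) (b (l 16021360) (c (l 15993392) (l 15955288)))) (b (c (c (a (l 16076048) (l 16036568)) (l 16098616)) (a (l 15987488) (l 15950256))) (c (a (c (b (l 16070208) (l 16066088)) (l 16034656)) (c (l 16048800) (l 15995160))) (c (a (l 15999376) (l 15961000)) (l 15985816))))) (a (b (c (b (l 15999712) (l 15990896)) (b (l 15926024) (l 15920032))) (c (b (c (l 15998368) (l 15965480)) (c (l 16009680) (l 15956608))) (b (l 15913464) (l 15968976)))) (b (a (c (b (l 15973800)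 (l 15964120)) (l 15896656)) (c (a (l 15998552) (b (l 15954000) (l 15943744))) (c (l 15898040) (l 15859544)))) (c (a (b (l 15954496) (c (l 15960320) (l 15928376))) (b (a (l 15941400) (l 15933472)) (a (l 15973144) (c (l 15939408) (l 15906544))))) (a (b (l 15886184) (l 15878296)) (b (l 15930816) (a (l 15864672) (l 15854992)))))))) (b (c (b (a (l 15917512) (l 15853744)) (a (l 15906192) (l 15840344))) (b (a (l 15835016) (l 15760432)) (a (l 15826712) (l 15750024)))) (c (b (a (l 15957512) (l 15931512)) (a (c (b (l 15903736) (l 15897632)) (l 15865064)) (c (l 15832680) (l 15792208)))) (b (a (l 15818064) (l 15739224)) (a (c (l 15827968) (l 15789432)) (l 15749056))))))), by decide +kernel⟩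

def k14_pm_012 : ∃ t, chk3 f_pm_012 t 11 7 1 = true :=
  ⟨(b (a (b (c (l 15813008) (l 15701296)) (c (b (l 15792104) (l 15777400)) (a (l 15707568) (l 15641624)))) (b (c (l 15709120) (l 15583416)) (c (l 15737704) (l 15610464)))) (b (a (a (c (l 15910488) (l 15682232)) (c (l 15724168) (l 15611704))) (c (a (l 15665776) (l 15609472)) (b (l 15519928) (l 15501384)))) (a (c (b (a (l 15824072) (l 15698112)) (a (c (l 15767576) (l 15722056)) (b (l 15684608) (l 15675424)))) (b (a (l 15662784) (l 15588696)) (a (l 15691456) (l 15594320)))) (c (b (a (l 15637152) (l 15578352)) (a (l 15617368) (l 15556864))) (b (l 15545584) (a (l 15499568) (l 15428504))))))), by decide +kernel⟩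

def k15_pm_012 : ∃ t, chk3 f_pm_012 t 3 2 1 = true :=
  ⟨(a (b (l 2) (a (a (a (a (b (l 2) (l 15834048)) (l 2)) (l 2)) (l 2)) (l 2))) (l 2)), by decide +kernel⟩

def k16_pm_012 : ∃ t, chk3 f_pm_012 t 6 3 1 = true :=
  ⟨(b (a (b (a (b (a (l 15729696) (l 15699696)) (c (l 15728368) (l 15612584))) (b (a (l 15672048) (l 2)) (a (l 15624608) (l 15596352)))) (a (b (c (l 15689848) (l 15567608)) (c (l 15651936) (l 15521664))) (b (a (l 15575328) (l 15689464)) (c (l 15573144) (l 15435736))))) (b (a (b (l 2) (l 15662496)) (l 2)) (a (b (c (l 15564960) (l 15430056)) (a (c (l 15521720) (l 15379672)) (l 15508944))) (b (l 15535840) (c (l 15456760) (l 15310304)))))) (a (b (a (b (c (l 15613544) (l 15476296)) (c (l 15635400) (l 15514648))) (b (c (l 15526232) (l 15380032)) (c (l 15478760) (l 15324968)))) (b (a (c (b (l 15540016) (l 15517480)) (b (l 15396488) (l 15373472))) (c (b (l 15441224) (l 15415584)) (b (l 15283392) (l 15255864)))) (a (c (b (l 15515200) (a (l 15498536) (l 15442376))) (b (l 15350264) (l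 15410792))) (c (b (l 15389304) (l 15509024)) (b (l 15228304) (l 15200504)))))) (b (a (b (a (l 15457672) (c (l 15432800) (l 15278136))) (c (l 15393592) (l 15230264))) (b (a (c (l 15403744) (l 15247504)) (l 15367368)) (a (c (l 15338360) (l 15169512)) (c (l 15308416) (l 15138760))))) (a (b (c (b (l 15351176) (l 15322344)) (b (l 15181424) (l 15149216))) (c (b (l 15292784) (l 15430392)) (b (l 15116904) (l 15105608)))) (b (a (c (l 15274000) (l 15094744)) (c (l 15363208) (l 15054328))) (c (b (l 15205272) (l 15171952)) (b (l 15016872) (l 14979960)))))))), by decide +kernel⟩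

def k17_pm_012 : ∃ t, chk3 f_pm_012 t 7 3 1 = true :=
  ⟨(b (a (b (l 2) (a (b (l 2) (c (l 15411552) (l 15264136))) (l 2))) (l 2)) (a (c (b (a (b (l 15345352) (l 15440816)) (b (l 15303632) (l 15231512))) (a (b (a (l 15207456) (l 15183216)) (a (b (l 15148368) (l 15110672)) (b (l 15121336) (l 15078200)))) (b (a (l 15161592) (l 15142544)) (a (l 15077120) (l 15056304))))) (b (a (b (l 15187720) (l 15103072)) (b (l 15147224) (l 15063080))) (a (b (a (l 15022920) (l 14999784)) (a (b (l 14953328) (l 14909904)) (b (l 14925800) (l 14874896)))) (b (l 15116752) (a (l 14878392) (l 14859552)))))) (b (a (b (l 2) (c (l 15193752) (l 15028872))) (l 2)) (a (b (c (l 15116160) (l 14937480)) (c (a (l 15038096) (l 15022216)) (a (l 14843360) (l 14829280)))) (b (c (l 15082864) (l 14910160)) (c (a (l 15007192) (l 14993080)) (l 14958832))))))), by decide +kernel⟩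

theorem s18_pm_012 : ∃ t, chk3 f_pm_012 t 3 3 1 = true := ex3_a k16_pm_012 k17_pm_012

theorem s19_pm_012 : ∃ t, chk3 f_pm_012 t 3 1 1 = true := ex3_b k15_pm_012 s18_pm_012

theorem s20_pm_012 : ∃ t, chk3 f_pm_012 t 5 7 1 = true := ex3_a k13_pm_012 k14_pm_012

theorem s21_pm_012 : ∃ t, chk3 f_pm_012 t 5 3 1 = true := ex3_b k12_pm_012 s20_pm_012

theorem s22_pm_012 : ∃ t, chk3 f_pm_012 t 5 1 1 = true := ex3_b k11_pm_012 s21_pm_012

theorem s23_pm_012 : ∃ t, chk3 f_pm_012 t 9 15 1 = true := ex3_a k9_pm_012 k10_pm_012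

theorem s24_pm_012 : ∃ t, chk3 f_pm_012 t 9 7 1 = true := ex3_b k8_pm_012 s23_pm_012

theorem s25_pm_012 : ∃ t, chk3 f_pm_012 t 9 3 1 = true := ex3_b k7_pm_012 s24_pm_012

theorem s26_pm_012 : ∃ t, chk3 f_pm_012 t 17 15 1 = true := ex3_b k5_pm_012 k6_pm_012

theorem s27_pm_012 : ∃ t, chk3 f_pm_012 t 8 15 1 = true := ex3_a k4_pm_012 s26_pm_012

theorem s28_pm_012 : ∃ t, chk3 f_pm_012 t 8 14 1 = true := ex3_a k2_pm_012 k3_pm_012

theorem s29_pm_012 : ∃ t, chk3 f_pm_012 t 8 7 1 = true := ex3_b s28_pm_012 s27_pm_012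

theorem s30_pm_012 : ∃ t, chk3 f_pm_012 t 8 3 1 = true := ex3_b k1_pm_012 s29_pm_012

theorem s31_pm_012 : ∃ t, chk3 f_pm_012 t 4 3 1 = true := ex3_a s30_pm_012 s25_pm_012

theorem s32_pm_012 : ∃ t, chk3 f_pm_012 t 4 1 1 = true := ex3_b k0_pm_012 s31_pm_012

theorem s33_pm_012 : ∃ t, chk3 f_pm_012 t 2 1 1 = true := ex3_a s32_pm_012 s22_pm_012

theorem s34_pm_012 : ∃ t, chk3 f_pm_012 t 1 1 1 = true := ex3_a s33_pm_012 s19_pm_012

theorem c_pm_012 : CertB 0 536870912 536870912 536870912 858993459 64424510 3 eng mog cd0q0 cd2q1 pd2 true true false .pnp 0 1 2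
    ndB0q0 ndB2q1 pcB2 cut_pm_012 Ext.none :=
  certB2 (fam := true) (s1 := true) (s2 := false) (a := 0) (b := 1) (c := 2) (cn := .pnp) (n1 := ndB0q0) (n2 := ndB2q1) (pc := pcB2) (cut := cut_pm_012) (xt := Ext.none) (P1 := 0) (W1 := 536870912) (P2 := 536870912) (W2 := 536870912) (P3 := 858993459) (W3 := 64424510) (N0 := 3) (En := eng) (mo := mog) (C1 := cd0q0) (C2 := cd2q1) (C3 := pd2)
    rfl (fun _ => rfl) s34_pm_012

noncomputable def f_pm_022 : ℕ → ℕ → ℕ → ℕ → Bool := onCell 0 536870912 1073741824 536870912 858993459 64424510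
    (rowB 3 eng mog cd0q0 cd2q2 pd2 1 true true false .pp 0 2 2 (qsf 0 536870912 1073741824 536870912 2) ndB0q0 ndB2q2 pcB2 Cut.none Ext.none)

def k0_pm_022 : ∃ t, chk3 f_pm_022 t 2 8 1 = true :=
  ⟨(l 3), by decide +kernel⟩

def k1_pm_022 : ∃ t, chk3 f_pm_022 t 8 36 1 = true :=
  ⟨(a (b (l 3) (b (l 3) (a (a (a (c (c (l 76939832263) (l 111299492487)) (c (l 67812884823) (l 120426199687))) (l 3)) (l 3)) (l 3)))) (l 3)), by decide +kernel⟩

def k2_pm_022 : ∃ t, chk3 f_pm_022 t 8 37 1 = true :=
  ⟨(b (a (a (c (a (c (b (c (l 16521648) (l 16507472)) (a (l 16496296) (l 16505336))) (b (c (l 16492648) (a (l 16468360) (l 16485984))) (c (l 16474368) (l 16457600)))) (c (b (l 16543000) (l 16526616)) (b (l 16518608) (l 16499728)))) (a (c (b (c (l 16461064) (l 16441680)) (a (l 16421224) (l 16441016))) (b (c (l 16426896) (l 16408848)) (a (l 16381936) (l 16404784)))) (c (b (l 16492024) (l 16470432)) (b (l 16463264) (l 16438720))))) (a (c (c (b (l 16571016) (l 16554704)) (b (l 16551720) (l 16532928))) (b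 (c (l 16530632) (l 16507744)) (c (l 16509120) (l 16483296)))) (c (b (c (l 16598640) (l 16584280)) (c (l 16582424) (l 16565592))) (c (b (l 16568504) (l 16547120)) (l 160691563543))))) (c (a (a (c (l 16596808) (l 16585944)) (l 94656688871)) (c (b (l 16563608) (l 16575664)) (c (l 16555048) (l 16555864)))) (a (c (b (l 16581768) (l 16539744)) (b (l 16530784) (l 16527848))) (c (l 177871572583) (l 187535237335))))) (a (a (c (a (c (b (a (l 16484880) (l 16488688)) (a (l 16457536) (l 16471840))) (b (c (l 16456000) (l 16438024)) (a (l 16419672) (l 16436600)))) (c (b (l 16509984) (l 16493144)) (b (l 16480768) (l 16461800)))) (a (c (b (a (l 16399736) (l 16419512)) (a (l 16378480) (l 16398248))) (b (a (l 16357712) (l 16380528)) (a (l 16333984) (l 16356768)))) (c (b (l 16448912) (l 16427624)) (b (l 16414424) (l 16390624))))) (a (c (c (b (l 16538096) (l 16521280)) (l 16509696)) (c (l 16476872) (l 16446960))) (c (b (l 16598424) (l 16559600)) (c (l 16514864) (l 16490624))))) (a (a (c (c (l 16542872) (l 16548280))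 (c (l 16552096) (l 16533352))) (c (l 16564448) (a (l 16530336) (l 16570576)))) (c (c (l 16558256) (l 16586072)) (c (l 16593616) (l 16593520)))))), by decide +kernel⟩

def k3_pm_022 : ∃ t, chk3 f_pm_022 t 9 18 1 = true :=
  ⟨(b (l 3) (a (b (b (a (a (c (l 1949008767687) (l 1234970389095)) (l 3)) (l 3)) (a (a (c (c (l 16590880) (l 16586768)) (l 16559408)) (c (c (a (l 16576928) (l 16567448)) (l 221895052119)) (c (l 16533472) (l 16544912)))) (a (c (a (c (b (l 196125230183) (l 16558584)) (b (l 16544240) (l 16547232))) (b (c (b (l 419329297255) (l 308733869687)) (l 412886795767)) (c (a (l 16551296) (l 381211455735)) (l 299607051495)))) (a (c (l 255180982983) (l 16519600)) (b (c (l 436509098343) (l 445098997271)) (c (l 16520864) (l 16505744))))) (a (a (b (l 1) (c (l 552473278247) (l 613139624263))) (l 1)) (l 1))))) (b (a (c (c (a (l 16593608) (l 16575208)) (l 16518088)) (c (l 16514528) (l 16531904))) (c (c (a (a (l 16561016) (b (l 16550528) (l 16552256))) (a (b (l 404833749143) (l 279742843015))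 (l 526166557335))) (a (a (l 16551872) (l 16539984)) (a (l 404296868935) (l 549251974711)))) (a (c (a (l 16542304) (l 16528016)) (l 16523904)) (a (c (l 412349900407) (l 418792317863)) (b (l 1) (l 624950767319)))))) (a (c (c (l 16545688) (l 16565816)) (c (l 16544168) (l 16543656))) (c (a (c (l 16559752) (l 16552240)) (a (c (l 16545368) (l 16534504)) (c (b (l 412349942823) (l 16536640)) (l 400538759207)))) (c (a (l 16544432) (l 314102525799)) (a (l 16536328) (l 327524268535))))))) (a (a (a (b (l 1) (b (l 1) (c (b (l 1) (l 534756467559)) (l 592738458775)))) (l 1)) (l 1)) (l 1)))), by decide +kernel⟩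

def k4_pm_022 : ∃ t, chk3 f_pm_022 t 16 38 1 = true :=
  ⟨(c (a (b (a (c (b (a (l 16440520) (l 16454824)) (a (l 16423440) (l 16437752))) (b (a (l 16400768) (l 16417688)) (a (l 16381984) (l 16398896)))) (c (b (l 16476144) (l 16459072)) (c (l 16442272) (l 16424424)))) (a (b (c (a (l 16406384) (l 16420688)) (a (l 16363376) (l 16380280))) (c (a (b (l 16393656) (l 16388744)) (l 16403608)) (a (b (l 16349568) (l 16340304)) (l 16361848)))) (c (b (l 16442008) (l 16424928)) (b (l 16405448) (l 16387000))))) (b (a (c (l 16495752) (l 16466632)) (c (l 16523552) (l 16499320))) (c (a (l 16448496) (l 16489424)) (a (l 16408368) (l 16462008))))) (a (b (a (c (a (b (l 16357528) (l 16336888)) (b (l 16377272) (l 16356608))) (b (a (l 16310800) (l 16333560)) (a (l 16288160) (l 16310888)))) (c (b (l 16406624) (l 16385936)) (b (l 16367368) (l 16344656)))) (b (a (c (a (l 16316600) (l 16336296)) (a (l 16266056) (l 16288744))) (c (l 16365600) (l 16322472))) (a (b (c (l 16311480) (l 16261176)) (a (c (l 16291920) (l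 16239648)) (l 16308256))) (c (l 16345672) (l 16300960))))) (c (b (a (l 16434824) (l 16472776)) (a (l 16394112) (l 16432008))) (b (a (l 16400328) (l 16443912)) (a (l 16376904) (l 16399424)))))), by decide +kernel⟩

def k5_pm_022 : ∃ t, chk3 f_pm_022 t 16 39 1 = true :=
  ⟨(c (a (b (c (a (b (a (b (a (l 16370832) (l 16379120)) (l 16365776)) (b (l 16390024) (l 16381992))) (a (l 16373144) (c (l 16379504) (l 16359592)))) (b (l 16428168) (a (l 16385224) (l 16399168)))) (a (a (b (b (l 16341312) (l 16322416)) (l 16310192)) (b (b (l 16347944) (l 16339808)) (l 16328032))) (b (l 16388520) (l 16374312)))) (a (c (c (b (l 16352816) (l 16334984)) (b (l 16333560) (l 16316504))) (c (l 16326328) (l 16284888))) (c (b (a (l 16369584) (l 16385048)) (a (l 16352520) (l 16369760))) (c (l 16340360) (l 16320376))))) (b (c (a (b (l 16435072) (l 16419768)) (l 16433928)) (b (a (l 16401744) (l 16434224)) (l 16423000))) (b (c (l 16419376) (l 16387288)) (a (a (l 16403968) (l 16382240)) (l 16404392))))) (a (b (c (a (b (a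 (b (l 16282960) (l 16275352)) (b (l 16302176) (l 16293944))) (a (l 16264704) (l 16282816))) (b (l 16327128) (l 16311064))) (a (b (a (b (l 16231296) (l 16224584)) (l 16290600)) (a (l 16215704) (l 16234008))) (b (l 16282008) (l 16265368)))) (c (a (c (l 16263632) (l 16241576)) (c (l 16299568) (l 16277928))) (a (c (l 16218720) (l 16195072)) (b (l 16250312) (l 16236840))))) (b (c (c (l 16363976) (l 16346280)) (c (l 16327880) (l 16308768))) (c (a (l 16346856) (l 16363232)) (a (l 16305672) (l 16327680)))))), by decide +kernel⟩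

def k6_pm_022 : ∃ t, chk3 f_pm_022 t 17 19 1 = true :=
  ⟨(a (b (c (b (a (c (l 16550968) (l 16531456)) (a (l 16521472) (l 16577880))) (c (b (l 16538976) (l 16521920)) (b (l 16519256) (l 16500776)))) (b (c (b (l 16538720) (l 16517968)) (l 16423640)) (c (b (l 16497552) (l 16477528)) (b (l 16473856) (l 16452184))))) (c (b (c (a (l 16482000) (l 16508736)) (a (l 16457992) (l 16489248))) (c (l 16466168) (l 16443160))) (b (c (l 16473504) (l 16423968)) (c (l 16417960) (l 16390568))))) (b (b (c (c (l 16617512) (l 16608960)) (c (l 16578360) (l 16546688))) (c (c (l 16562568) (l 16529768)) (a (l 16448936) (l 16548792)))) (c (b (a (b (l 16536384) (l 16518928)) (l 16555592)) (c (l 16518120) (l 16503856))) (b (c (l 16478568) (l 16483600)) (c (l 16488112) (l 16470888)))))), by decide +kernel⟩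

def k7_pm_022 : ∃ t, chk3 f_pm_022 t 9 19 1 = true :=
  ⟨(b (b (a (c (a (c (l 16529760) (l 16532520)) (b (a (l 16561024) (c (l 16544544) (l 16535144))) (c (l 16547632) (l 16553288)))) (a (c (l 16535704) (l 16539328)) (a (l 16493008) (c (l 16508976) (l 16521144))))) (a (a (c (b (a (c (l 389264486647) (l 16517304)) (l 545493872279)) (c (l 279742819351) (l 293701436663))) (c (b (l 428455991207) (l 16506248)) (l 362420807799))) (b (l 1) (c (l 555694482279) (l 577706039431)))) (l 1))) (a (a (c (c (l 16557640) (l 16585512)) (l 16534304)) (c (c (b (l 16562168) (l 16566272)) (l 16499704)) (c (l 16498200) (l 16496832)))) (b (a (c (a (c (l 16534024) (l 16524888)) (a (l 406444346007) (l 551399432007))) (a (l 16510512) (l 462815733031))) (l 1)) (a (c (c (a (l 16538560) (l 283500904263)) (l 238403699847)) (c (l 113849530103) (l 16458400))) (a (c (l 535293347191) (l 587906634535)) (l 1)))))) (a (c (a (b (c (l 16598904) (l 16593568)) (l 16544008)) (b (c (l 16511464) (l 16533080)) (l 16539816))) (a (b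 (l 16500208) (l 16508696)) (b (l 16492456) (l 16566184)))) (a (b (c (c (a (l 16547288) (l 16528688)) (b (l 16526864) (l 16533752))) (c (l 16480352) (l 16492888))) (c (c (l 16504704) (l 16540704)) (c (l 16534384) (l 16527696)))) (b (c (a (b (l 435972262711) (l 311418204759)) (l 567505579735)) (c (a (l 419866052311) (l 577706006855)) (l 416107849383))) (c (c (b (l 228203115431) (l 16512352)) (b (l 248067318167) (l 16498552))) (c (b (l 336114123799) (l 16462880)) (b (l 220149874135) (l 16468224)))))))), by decide +kernel⟩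

def k8_pm_022 : ∃ t, chk3 f_pm_022 t 5 9 1 = true :=
  ⟨(b (l 1) (a (b (l 1) (a (a (a (b (l 1) (b (l 1) (c (l 452078286951) (l 499322809527)))) (l 1)) (l 1)) (l 1))) (l 1))), by decide +kernel⟩

def k9_pm_022 : ∃ t, chk3 f_pm_022 t 3 4 1 = true :=
  ⟨(l 1), by decide +kernel⟩

def k10_pm_022 : ∃ t, chk3 f_pm_022 t 8 40 1 = true :=
  ⟨(a (c (a (c (b (a (c (l 16330088) (l 16291688)) (c (l 16344504) (l 16327224))) (a (c (l 16276208) (l 16259984)) (c (l 16311552) (l 16295480)))) (b (a (c (l 16273568) (l 16254776)) (l 16320896)) (a (c (l 16243176) (l 16225792)) (l 16270184)))) (c (b (a (b (l 16377624) (l 16362376)) (l 16399400)) (a (l 16338568) (l 16371832))) (b (a (l 16334672) (l 16367632)) (a (l 16305352) (l 16339576))))) (a (c (b (a (c (l 16235296) (l 16215136)) (l 16260936)) (a (l 16198640) (l 16234240))) (b (a (l 16183624) (l 16218992)) (a (l 16160408) (l 16195760)))) (c (b (a (l 16296552) (l 16332952)) (a (l 16269360) (l 16304400))) (b (a (l 16255344) (l 16295368)) (a (l 16230600) (l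 16266312)))))) (c (a (c (b (l 16439552) (a (l 16401112) (l 16427648))) (b (l 16414776) (l 16366600))) (c (b (l 16491576) (l 16466544)) (b (l 16475520) (l 16448368)))) (a (c (b (l 16387632) (l 16337184)) (a (l 16310952) (l 16362568))) (c (b (l 16457800) (l 16428312)) (l 16359448))))), by decide +kernel⟩

def k11_pm_022 : ∃ t, chk3 f_pm_022 t 8 41 1 = true :=
  ⟨(a (b (c (a (c (a (b (l 16245152) (l 16230712)) (b (l 16280544) (l 16266088))) (a (b (l 16213168) (l 16199568)) (l 16242056))) (c (a (l 16308392) (l 16342864)) (a (l 16277200) (l 16311840)))) (c (a (a (l 16172896) (l 16208464)) (l 16260912)) (a (c (l 16164176) (l 16145832)) (l 16224696)))) (c (b (a (c (a (c (l 16224824) (l 16209952)) (l 16252816)) (a (l 16186808) (l 16222384))) (c (l 16305048) (l 16274888))) (a (a (b (c (b (l 16209928) (l 16207800)) (l 16178384)) (a (b (b (b (l 16182856) (b (l 16183032) (l 16225296))) (l 16182600)) (l 16179968)) (b (c (l 16236472) (l 16184168)) (l 16197512)))) (b (c (l 16244488) (l 16213960)) (c (a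 (l 16231264) (l 16248856)) (l 16208952)))) (b (c (l 16296736) (l 16266480)) (a (c (l 16275040) (l 16244096)) (l 16336408))))) (c (b (a (l 16172200) (l 16242368)) (a (b (a (l 16145880) (l 16181432)) (a (l 16161088) (l 16175760))) (b (l 16233856) (l 16228184)))) (b (a (l 16137872) (l 16207480)) (a (a (b (l 16111592) (l 16104928)) (l 16143704)) (b (l 16198880) (l 16192480))))))) (a (c (b (c (a (l 16375624) (l 16404480)) (l 16340384)) (b (c (l 16392984) (l 16342720)) (b (a (l 16333216) (l 16366504)) (a (l 16328536) (l 16382992))))) (b (c (l 16330264) (l 16275480)) (b (a (l 16276168) (l 16310472)) (c (b (l 16301832) (l 16296112)) (a (l 16246304) (l 16279432)))))) (b (c (c (l 16443504) (l 16422760)) (c (l 16399840) (l 16374752))) (c (b (l 16416840) (b (l 16410288) (a (l 16371832) (l 16420616)))) (b (l 16365624) (b (l 16355104) (l 16358304))))))), by decide +kernel⟩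

def k12_pm_022 : ∃ t, chk3 f_pm_022 t 8 21 1 = true :=
  ⟨(a (c (a (b (c (a (b (a (l 16202896) (l 16197320)) (l 16165704)) (b (l 16243496) (l 16195080))) (a (b (a (l 16148280) (l 16165312)) (l 16129840)) (b (l 16191480) (l 16163232)))) (c (a (b (l 16142840) (l 16120416)) (l 16160040)) (a (c (l 16101192) (l 16080048)) (l 16123704)))) (b (a (c (b (l 16257312) (l 16227312)) (l 16232856)) (c (l 16276592) (l 16246456))) (c (a (l 16209784) (l 16219288)) (a (l 16156536) (l 16189672))))) (a (b (c (a (b (l 16121896) (l 16091680)) (c (l 16152320) (l 16134952))) (a (b (a (l 16074872) (l 16095472)) (l 16051224)) (b (l 16123416) (l 16093544)))) (c (a (c (l 16058184) (l 16035608)) (l 16084896)) (a (c (l 16012312) (l 15988312)) (l 16043608)))) (c (b (a (l 16179416) (l 16213984)) (a (l 16122120) (l 16158024))) (b (a (l 16144848) (l 16179176)) (a (l 16085544) (l 16124352)))))) (a (c (b (c (l 16316784) (l 16297328)) (c (a (l 16251448) (l 16284648)) (l 16239816))) (b (c (l 16264656) (l 16229256)) (c (l 16209264)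 (l 16176464)))) (b (c (c (a (l 16375952) (l 16405312)) (l 16362032)) (c (l 16330840) (l 16296616))) (c (c (l 16333472) (l 16305360)) (l 16236952))))), by decide +kernel⟩

def k13_pm_022 : ∃ t, chk3 f_pm_022 t 9 10 1 = true :=
  ⟨(b (b (b (a (c (c (l 16502640) (l 16498192)) (c (l 16472080) (l 16466248))) (a (c (l 16484376) (l 16477992)) (c (c (l 16514448) (l 16503056)) (c (l 16490880) (l 16477944))))) (a (c (c (l 16477784) (l 16450216)) (a (l 16446680) (l 16555208))) (c (c (a (l 16549128) (l 16515952)) (l 16424280)) (c (l 16420256) (l 16415976))))) (c (b (a (a (c (l 16493768) (l 16480864)) (l 16538680)) (c (l 16447928) (l 16427040))) (a (b (a (l 16471032) (l 16522320)) (a (b (l 16464544) (l 16398176)) (a (l 16501416) (l 16526264)))) (b (a (l 16547872) (l 16512800)) (c (b (l 16462696) (l 16438328)) (c (l 16424272) (l 16469712)))))) (a (b (a (l 16416696) (l 16525320)) (a (b (l 16436720) (c (l 16433328) (l 16411128))) (b (l 16503464) (l 16468320)))) (b (a (l 16558296) (l 16463120)) (b (l 16412560)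 (b (l 16436200) (l 16417288))))))) (b (a (c (a (c (b (l 16456496) (l 16432472)) (l 16463616)) (l 16442968)) (a (c (l 16396128) (l 16367784)) (a (l 16432888) (l 16444272)))) (c (c (l 16416312) (l 16450272)) (b (l 16424480) (l 16440808)))) (a (c (a (c (l 16456728) (l 16367208)) (c (l 16445376) (l 16423704))) (c (a (l 16337408) (l 16399040)) (a (l 16304440) (l 16371416)))) (c (c (l 16511368) (l 16499448)) (a (l 16448208) (l 16506032)))))), by decide +kernel⟩

def k14_pm_022 : ∃ t, chk3 f_pm_022 t 4 22 1 = true :=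
  ⟨(a (a (c (a (c (b (c (l 16112520) (l 16101360)) (a (l 16045392) (l 16073648))) (b (a (c (l 16052496) (l 16027960)) (l 16073208)) (c (l 16021608) (l 15995016)))) (c (b (l 16158080) (l 16115608)) (b (l 16121848) (l 16073232)))) (a (b (c (a (c (l 16002520) (l 15976184)) (l 16027224)) (a (c (l 15948944) (l 15920792)) (l 15978016))) (c (c (l 15967376) (l 15938696)) (c (l 15908968) (l 15878192)))) (b (c (l 16082952) (l 16041392)) (c (l 16027424) (l 15978208))))) (c (a (b (c (l 16236384) (l 16186000)) (l 16153872)) (b (c (l 16276864) (l 16250072)) (l 16296520))) (a (b (c (l 16154416) (l 16120672)) (l 16121968)) (c (l 16173072) (b (l 16189528) (l 16135584)))))) (a (a (c (b (l 16347488) (l 16262432)) (b (l 16267064) (l 16195472))) (c (b (c (l 16438728) (l 16371368)) (l 16332464)) (b (l 16326896) (l 16274584)))) (c (b (c (l 16340368) (l 16385664)) (a (l 16365832) (l 16433672))) (c (a (l 16268312) (l 16427120)) (a (l 16197416) (l 16382776)))))), by decide +kernel⟩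

def k15_pm_022 : ∃ t, chk3 f_pm_022 t 4 23 1 = true :=
  ⟨(a (a (c (a (c (b (a (l 16004912) (l 16033056)) (a (l 15966176) (l 15994192))) (b (a (l 15945816) (l 15978392)) (a (l 15901656) (l 15934064)))) (c (b (l 16074864) (l 16035848)) (b (l 16026648) (l 15982104)))) (a (c (b (a (l 15881568) (l 15918976)) (a (l 15831184) (l 15868384))) (b (a (l 15812168) (l 15854792)) (a (l 15754784) (l 15797160)))) (b (c (l 15974240) (l 15917640)) (c (l 15923384) (l 15859704))))) (c (a (c (l 16109936) (l 16067000)) (c (l 16163480) (l 16127984))) (a (c (l 16020208) (l 15969560)) (c (l 16089304) (l 16047464))))) (a (c (c (a (l 16237648) (l 16270720)) (a (l 16187120) (l 16244584))) (c (a (l 16154856) (l 16215768)) (a (l 16098928) (l 16184280)))) (a (c (b (l 16337152) (l 16288432)) (c (l 16271816) (l 16240816))) (c (b (l 16387496) (l 16340248)) (b (l 16332792) (l 16284416)))))), by decide +kernel⟩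

def k16_pm_022 : ∃ t, chk3 f_pm_022 t 10 10 1 = true :=
  ⟨(a (a (c (c (b (b (b (l 331819200935) (l 273300321863)) (b (l 16481256) (b (l 16479720) (b (l 16476856) (l 16473832))))) (b (l 16474824) (l 16478120))) (b (b (b (l 401612358535) (l 280816378359)) (b (l 16469008) (b (l 16471040) (l 16407392)))) (l 16377536))) (c (b (b (b (l 474089930935) (l 324839757895)) (b (l 16455976) (b (l 16461896) (l 16464848)))) (l 16384104)) (b (b (b (l 477311048167) (l 211022975687)) (b (l 16442160) (b (l 16452288) (l 16459264)))) (l 16391536)))) (b (b (a (a (b (l 1) (c (l 458520695463) (l 553546734903))) (l 1)) (l 1)) (b (c (b (l 445098927527) (l 315176206119)) (c (l 428455811015) (l 531534896455))) (b (c (a (l 16445552) (l 318934256759)) (a (l 16413784) (l 321618442423))) (c (b (a (l 16444144) (l 16444512)) (c (a (l 16447512) (l 16429144)) (l 16425856))) (c (b (l 16411024) (l 16412744)) (l 16375952)))))) (b (c (c (b (l 16439040) (l 16442248)) (l 16433784)) (c (l 16426816) (l 16419784))) (c (c (l 16446368)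 (l 16448432)) (l 16389904))))) (a (b (a (b (l 1) (b (l 1) (b (l 1) (b (l 1) (c (l 482679861991) (l 536903703799)))))) (l 1)) (b (c (c (a (l 254509676871) (l 344167042919)) (l 313565463863)) (c (l 413960270423) (l 227129017239))) (c (c (l 16411736) (l 16405424)) (c (l 16399232) (l 16393160))))) (b (l 1) (b (a (c (l 445098754935) (l 527776739719)) (l 1)) (c (b (l 371010626215) (l 260415200215)) (c (l 406980874807) (l 235181931079))))))), by decide +kernel⟩

def k17_pm_022 : ∃ t, chk3 f_pm_022 t 10 11 1 = true :=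
  ⟨(c (a (b (c (b (l 16402656) (l 16466784)) (l 16359264)) (c (a (l 16418456) (l 16453576)) (l 16419488))) (a (b (c (l 16431408) (l 16364960)) (l 16355112)) (b (b (c (l 16383344) (l 16377328)) (l 16391960)) (l 16280520)))) (a (a (b (l 16449152) (l 16296792)) (b (l 16366720) (l 16389560))) (b (c (b (l 16272688) (l 16338976)) (c (l 16246664) (l 16249240))) (b (l 16349640) (l 16457536))))), by decide +kernel⟩

def k18_pm_022 : ∃ t, chk3 f_pm_022 t 11 5 1 = true :=
  ⟨(b (b (l 1) (a (b (l 1) (a (c (l 427918868887) (l 524555466743)) (l 1))) (l 1))) (a (a (b (c (b (c (l 328060860743) (l 366715528999)) (c (l 16356088) (l 16350000))) (b (c (l 402148973655) (l 16278704)) (l 16341544))) (c (c (l 16367752) (l 16374808)) (l 16262368))) (b (b (c (l 406980784839) (l 517576045703)) (c (c (l 328060806263) (l 364567988791)) (l 440266816935))) (c (c (l 16334648) (l 16332552)) (b (l 16314360) (l 16346776))))) (b (b (l 1) (a (c (l 402685721431) (l 510596667271)) (l 1))) (c (b (a (l 352756858631) (l 404833151879))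 (a (l 16301024) (l 351146189879))) (b (a (l 430603071607) (l 504691031703)) (c (l 139081792983) (l 138007985479))))))), by decide +kernel⟩

def k19_pm_022 : ∃ t, chk3 f_pm_022 t 3 5 1 = true :=
  ⟨(b (l 1) (a (a (a (b (l 1) (b (l 1) (a (c (l 405369970535) (l 525092176007)) (l 1)))) (l 1)) (l 1)) (l 1))), by decide +kernel⟩

def k20_pm_022 : ∃ t, chk3 f_pm_022 t 8 6 1 = true :=
  ⟨(b (c (a (b (a (c (b (l 15943112) (l 15907744)) (b (a (l 15859544) (l 15891784)) (l 15835536))) (c (l 15980528) (b (l 15939592) (l 15899104)))) (c (a (b (l 15874064) (l 15842056)) (l 15912664)) (a (b (l 15797416) (l 15761328)) (l 15842160)))) (b (a (c (l 16034928) (l 15981456)) (b (l 16085120) (l 16046744))) (c (l 15993216) (a (l 15903912) (l 15964032))))) (a (b (a (c (b (a (l 15783176) (l 15820160)) (a (l 15737544) (l 15774296))) (b (a (l 15700072) (l 15742192)) (a (l 15648048) (l 15689888)))) (c (b (l 15874872) (l 15828688)) (b (l 15804392) (l 15751712)))) (a (c (b (l 15712568) (l 15671544)) (b (l 15619520) (l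 15572712))) (c (l 15763792) (b (l 15701656) (l 15654248))))) (b (a (c (l 15922536) (l 15858192)) (c (l 15991168) (l 15935544))) (a (c (l 15834072) (l 15757168)) (c (l 15902088) (l 15833792)))))) (c (a (c (b (a (b (l 15811712) (l 15783008)) (l 15851440)) (a (l 15742992) (l 15796712))) (b (a (b (l 15727264) (l 15695208)) (l 15773232)) (a (l 15650872) (l 15712240)))) (b (c (l 15931344) (l 15864256)) (c (l 15875920) (l 15802168)))) (a (a (b (c (b (l 15632880) (l 15596576)) (b (l 15528592) (l 15487160))) (c (l 15588496) (b (l 15448424) (l 15412400)))) (b (c (l 15685424) (l 15588080)) (c (l 15616360) (l 15509144)))) (b (a (a (l 15693512) (l 15729856)) (l 15783136)) (c (l 15718120) (l 15623896)))))), by decide +kernel⟩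

def k21_pm_022 : ∃ t, chk3 f_pm_022 t 9 6 1 = true :=
  ⟨(b (a (c (b (a (l 16120768) (l 16173496)) (c (l 16096120) (l 16050216))) (b (a (l 16075488) (l 16099544)) (a (l 15937840) (l 16003544)))) (b (a (c (l 16224008) (l 16160856)) (c (l 16314824) (l 16215864))) (c (a (l 16149664) (l 16196208)) (l 16136904)))) (c (a (b (a (l 15981080) (l 16033360)) (l 15989992)) (b (l 16106496) (l 16046656))) (a (b (a (l 15851592) (l 15916824)) (a (l 15774816) (l 15839392))) (b (l 16007896) (l 15929840))))), by decide +kernel⟩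

def k22_pm_022 : ∃ t, chk3 f_pm_022 t 4 7 1 = true :=
  ⟨(a (c (b (a (b (c (a (l 15695128) (l 15748296)) (a (l 15598664) (l 15659112))) (c (a (l 15653368) (l 15705976)) (a (l 15554264) (l 15613720)))) (b (c (l 15826776) (l 15747824)) (c (l 15783720) (l 15701120)))) (a (b (c (l 15643512) (a (l 15517536) (l 15575944))) (c (l 15612880) (a (l 15488344) (l 15545656)))) (b (c (l 15746528) (l 15661944)) (c (l 15714928) (l 15630160))))) (b (a (b (c (a (l 15488096) (l 15556600)) (a (l 15363456) (l 15440864))) (c (a (l 15439048) (l 15506128)) (a (l 15307776) (l 15383328)))) (b (c (l 15656664) (l 15553464)) (c (l 15604288) (l 15493464)))) (a (b (a (c (l 15399408) (l 15263120)) (c (l 15464928) (l 15336616))) (c (a (l 15369152) (l 15432984)) (a (l 15229600) (l 15300824)))) (b (a (l 15471072) (l 15537440)) (a (l 15435640) (l 15500328)))))) (b (c (a (b (l 15895560) (l 15849856)) (b (l 15993576) (l 15947152))) (a (b (a (l 15707528) (l 15771272)) (l 15681472)) (b (l 15860808) (l 15800832)))) (c (a (b (l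 15810776) (l 15778144)) (b (l 15907232) (l 15873672))) (a (b (l 15632632) (l 15593272)) (b (l 15749936) (l 15708160)))))), by decide +kernel⟩

def k23_pm_022 : ∃ t, chk3 f_pm_022 t 5 3 1 = true :=
  ⟨(b (a (b (c (a (b (a (l 16320184) (l 16364904)) (c (l 16191752) (l 16249192))) (b (b (l 16237400) (l 16403992)) (a (l 16326344) (l 16365616)))) (a (b (a (l 16265512) (l 16312640)) (c (l 16218960) (l 16185008))) (b (c (l 16395112) (l 16371304)) (a (l 16274040) (l 16318152))))) (a (c (b (l 16194544) (l 16134736)) (b (l 16118072) (l 16039880))) (b (c (l 16275768) (l 16154752)) (c (l 16215248) (l 16142216))))) (b (b (c (a (c (l 16259336) (l 16341440)) (c (a (l 16318664) (l 16285272)) (b (l 16294456) (l 16312504)))) (a (l 16186432) (a (l 16231712) (l 16110800)))) (a (c (c (l 16373024) (l 16405584)) (l 16340624)) (c (c (l 16255360) (l 16336312)) (l 16200720)))) (c (a (b (a (l 16330864) (l 16362952)) (l 16286440)) (b (c (l 16330704) (l 16362144)) (b (l 16358736) (l 16331480)))) (a (b (l 16304456)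 (l 16234232)) (b (l 16380480) (l 16311968)))))) (a (c (b (a (b (l 16081512) (l 16034776)) (c (l 16157488) (l 16117304))) (a (l 16039544) (l 16057744))) (b (a (b (l 15970312) (l 15909392)) (b (l 16073008) (l 16012000))) (a (b (l 15857152) (l 15813640)) (l 15914920)))) (b (a (c (l 16210416) (l 15906176)) (b (l 16274736) (l 16224720))) (c (a (l 16130904) (l 16194120)) (a (l 16032152) (l 16119904)))))), by decide +kernel⟩

def k24_pm_022 : ∃ t, chk3 f_pm_022 t 6 3 1 = true :=
  ⟨(b (a (b (a (b (c (b (a (l 349535521447) (l 403759306439)) (a (l 16251272) (l 347387983383))) (b (a (l 424160498727) (l 515965309735)) (a (l 16235464) (l 16172616)))) (c (c (a (l 16271960) (l 16237976)) (l 16150648)) (a (l 16224000) (l 16144440)))) (b (b (l 1) (c (l 406980498439) (l 492879664423))) (c (b (l 364567829911) (l 310343893975)) (c (l 383358123239) (b (l 205653417607) (l 16147352)))))) (c (a (b (c (l 16274728) (l 16291496)) (l 16074808)) (a (b (l 16228912) (l 16257624)) (b (l 16210632) (l 16223168)))) (a (b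 (l 16196136) (l 16374064)) (b (b (l 16171096) (l 16227880)) (l 16193752))))) (b (a (a (b (l 1) (c (l 404832877079) (l 482679018775))) (l 1)) (l 1)) (a (b (c (a (l 340408595319) (l 359735865847)) (c (l 371009960727) (l 179883466823))) (c (c (l 16167752) (l 16165280)) (c (l 16164480) (l 16165352)))) (b (a (c (l 402685296839) (l 473015243079)) (l 1)) (c (a (l 340408500823) (l 355977669655)) (c (l 365104428007) (l 182030835895))))))) (a (a (b (b (a (l 16318968) (l 16091808)) (l 16284992)) (c (l 16247376) (l 16196168))) (b (c (b (c (l 16253784) (l 16282488)) (l 16296784)) (b (l 16333600) (l 16321200))) (b (l 16293296) (l 16261776)))) (b (c (a (b (l 16075544) (c (l 16219472) (l 16246520))) (b (a (l 16145208) (l 16104488)) (l 16206584))) (a (b (l 16193696) (l 16295560)) (b (c (l 16121728) (l 16121840)) (l 16196184)))) (c (a (b (l 16266472) (l 16295224)) (b (c (l 16188432) (l 16213520)) (l 16239656))) (a (l 16095696) (b (l 16260200) (l 16303840))))))), by decide +kernel⟩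

def k25_pm_022 : ∃ t, chk3 f_pm_022 t 7 3 1 = true :=
  ⟨(b (b (l 1) (a (a (b (l 1) (c (b (l 1) (l 401074570791)) (l 469793980983))) (l 1)) (l 1))) (a (c (b (a (b (a (l 340408407383) (l 353293220295)) (a (l 16107632) (l 16066536))) (b (a (l 400537636807) (l 1)) (a (l 342555812567) (l 351682520791)))) (a (b (l 16131400) (l 16172088)) (b (a (l 16073856) (l 16032776)) (l 16102368)))) (b (a (b (l 437045157911) (l 15871872)) (b (l 461203897879) (l 433823850503))) (a (b (l 16159952) (l 16228048)) (b (l 15835592) (l 16043424))))) (b (a (b (l 1) (c (l 397853243719) (l 407516665447))) (l 1)) (a (b (c (l 352756324311) (l 427381327527)) (c (a (l 16045104) (l 16004680)) (l 15844872))) (b (c (l 387652552775) (l 411274688791)) (c (l 352756256119) (l 419328163479))))))), by decide +kernel⟩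

theorem s26_pm_022 : ∃ t, chk3 f_pm_022 t 3 3 1 = true := ex3_a k24_pm_022 k25_pm_022

theorem s27_pm_022 : ∃ t, chk3 f_pm_022 t 4 6 1 = true := ex3_a k20_pm_022 k21_pm_022

theorem s28_pm_022 : ∃ t, chk3 f_pm_022 t 4 3 1 = true := ex3_b s27_pm_022 k22_pm_022

theorem s29_pm_022 : ∃ t, chk3 f_pm_022 t 2 3 1 = true := ex3_a s28_pm_022 k23_pm_022

theorem s30_pm_022 : ∃ t, chk3 f_pm_022 t 1 3 1 = true := ex3_a s29_pm_022 s26_pm_022

theorem s31_pm_022 : ∃ t, chk3 f_pm_022 t 10 5 1 = true := ex3_b k16_pm_022 k17_pm_022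

theorem s32_pm_022 : ∃ t, chk3 f_pm_022 t 5 5 1 = true := ex3_a s31_pm_022 k18_pm_022

theorem s33_pm_022 : ∃ t, chk3 f_pm_022 t 4 11 1 = true := ex3_b k14_pm_022 k15_pm_022

theorem s34_pm_022 : ∃ t, chk3 f_pm_022 t 8 20 1 = true := ex3_b k10_pm_022 k11_pm_022

theorem s35_pm_022 : ∃ t, chk3 f_pm_022 t 8 10 1 = true := ex3_b s34_pm_022 k12_pm_022

theorem s36_pm_022 : ∃ t, chk3 f_pm_022 t 4 10 1 = true := ex3_a s35_pm_022 k13_pm_022

theorem s37_pm_022 : ∃ t, chk3 f_pm_022 t 4 5 1 = true := ex3_b s36_pm_022 s33_pm_022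

theorem s38_pm_022 : ∃ t, chk3 f_pm_022 t 2 5 1 = true := ex3_a s37_pm_022 s32_pm_022

theorem s39_pm_022 : ∃ t, chk3 f_pm_022 t 1 5 1 = true := ex3_a s38_pm_022 k19_pm_022

theorem s40_pm_022 : ∃ t, chk3 f_pm_022 t 16 19 1 = true := ex3_b k4_pm_022 k5_pm_022

theorem s41_pm_022 : ∃ t, chk3 f_pm_022 t 8 19 1 = true := ex3_a s40_pm_022 k6_pm_022

theorem s42_pm_022 : ∃ t, chk3 f_pm_022 t 4 19 1 = true := ex3_a s41_pm_022 k7_pm_022

theorem s43_pm_022 : ∃ t, chk3 f_pm_022 t 8 18 1 = true := ex3_b k1_pm_022 k2_pm_022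

theorem s44_pm_022 : ∃ t, chk3 f_pm_022 t 4 18 1 = true := ex3_a s43_pm_022 k3_pm_022

theorem s45_pm_022 : ∃ t, chk3 f_pm_022 t 4 9 1 = true := ex3_b s44_pm_022 s42_pm_022

theorem s46_pm_022 : ∃ t, chk3 f_pm_022 t 2 9 1 = true := ex3_a s45_pm_022 k8_pm_022

theorem s47_pm_022 : ∃ t, chk3 f_pm_022 t 2 4 1 = true := ex3_b k0_pm_022 s46_pm_022

theorem s48_pm_022 : ∃ t, chk3 f_pm_022 t 1 4 1 = true := ex3_a s47_pm_022 k9_pm_022

theorem s49_pm_022 : ∃ t, chk3 f_pm_022 t 1 2 1 = true := ex3_b s48_pm_022 s39_pm_022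

theorem s50_pm_022 : ∃ t, chk3 f_pm_022 t 1 1 1 = true := ex3_b s49_pm_022 s30_pm_022

theorem c_pm_022 : CertB 0 536870912 1073741824 536870912 858993459 64424510 3 eng mog cd0q0 cd2q2 pd2 true true false .pp 0 2 2
    ndB0q0 ndB2q2 pcB2 Cut.none Ext.none :=
  certB1 (fam := true) (s1 := true) (s2 := false) (a := 0) (b := 2) (c := 2) (cn := .pp) (n1 := ndB0q0) (n2 := ndB2q2) (pc := pcB2) (cut := Cut.none) (xt := Ext.none) (P1 := 0) (W1 := 536870912) (P2 := 1073741824) (W2 := 536870912) (P3 := 858993459) (W3 := 64424510) (N0 := 3) (En := eng) (mo := mog) (C1 := cd0q0) (C2 := cd2q2) (C3 := pd2)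
    rfl (fun _ => rfl) s50_pm_022

noncomputable def f_pm_023 : ℕ → ℕ → ℕ → ℕ → Bool := onCell 0 536870912 1610612736 536870912 858993459 64424510
    (rowB 3 eng mog cd0q0 cd2q2 pd3 1 true true false .up 0 2 3 (qsf 0 536870912 1073741824 536870912 3) ndB0q0 ndB2q2 pcB3 Cut.none Ext.none)

def k0_pm_023 : ∃ t, chk3 f_pm_023 t 2 1 1 = true :=
  ⟨(b (b (a (a (a (b (b (c (a (b (l 15529624) (l 220752131287)) (l 15579000)) (a (b (l 15315136) (l 243837334935)) (l 15378992))) (a (l 2) (b (b (l 229878913015) (l 2)) (l 2)))) (l 2)) (b (b (c (l 15659480) (a (l 15445352) (l 15510112))) (c (b (l 15644000) (l 226121191383)) (c (l 15514688) (l 15409776)))) (b (c (l 206256920823) (l 235784750295)) (l 2)))) (b (c (b (a (l 15763152) (l 15859304)) (a (l 15783824) (l 15837928))) (a (b (l 15603248) (l 15627656)) (b (l 15718528) (l 15698552)))) (c (b (a (b (l 15726792) (l 15715448)) (l 15817784)) (a (l 15702816) (l 15797904))) (b (a (c (l 15620008) (l 15531496)) (l 15685272)) (a (l 15579776) (l 15683200))))))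 (b (a (c (a (l 15935504) (l 16017496)) (a (l 15812896) (l 15914136))) (c (l 16126056) (b (l 16069080) (l 16045216)))) (b (a (a (c (l 15905232) (l 15785824)) (l 15943976)) (a (l 16028680) (l 16106104))) (a (c (a (l 15886704) (l 15969720)) (a (l 15778680) (l 15872432))) (c (l 16080360) (l 16010224)))))) (a (b (b (a (l 2) (c (a (l 2) (l 15786224)) (l 215384127111))) (l 2)) (l 2)) (b (a (c (b (a (l 15870888) (l 15953064)) (l 229880131303)) (a (b (l 15782176) (l 15792560)) (l 15896312))) (c (b (a (l 16030544) (l 16099168)) (l 16137560)) (b (l 16002688) (l 16005880)))) (a (b (c (l 15909080) (l 15851984)) (l 2)) (c (b (l 16050488) (l 16057488)) (b (l 16017784) (l 16035560))))))) (a (l 2) (b (b (a (l 2) (b (a (l 2) (l 16102336)) (l 2))) (l 2)) (l 2)))), by decide +kernel⟩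

def k1_pm_023 : ∃ t, chk3 f_pm_023 t 3 1 1 = true :=
  ⟨(b (a (b (a (b (c (l 16238240) (l 16215000)) (c (l 16206440) (l 16179472))) (b (a (l 16297760) (b (l 16276936) (l 16302104))) (c (l 16282808) (l 16296600)))) (b (a (c (l 16182360) (l 16159272)) (c (l 16274080) (l 16285432))) (c (a (l 16165280) (l 16273672)) (a (b (l 16163288) (l 16178552)) (l 16290624))))) (b (a (b (c (a (b (l 16199992) (l 16241544)) (b (l 16151320) (l 16033424))) (a (l 16258496) (b (l 16115528) (l 16210192)))) (a (l 16303992) (c (l 16248056) (l 16280392)))) (b (a (b (c (l 16060656) (l 16056040)) (c (l 16110144) (l 16131136))) (c (b (l 15985856) (l 16041624)) (b (l 15941928) (l 16029672)))) (c (a (b (l 16041480) (l 16224640)) (c (l 16214192) (l 16153624))) (a (l 16219968) (b (l 16111096) (l 16176888)))))) (a (b (c (l 16306992) (l 16355160)) (c (l 16334224) (l 16375288))) (b (a (l 16302808) (c (l 16249280) (l 16267184))) (c (l 16336448) (l 16390232)))))) (a (a (b (b (b (c (l 16187064) (l 16199456)) (c (l 16207064)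 (l 16224960))) (b (l 16223080) (l 2))) (l 2)) (b (b (b (l 16302968) (l 16323040)) (b (l 16350344) (l 16375616))) (b (b (l 16396816) (l 2)) (l 2)))) (b (b (a (b (l 16381000) (l 16401736)) (b (l 16305488) (l 16397088))) (b (a (l 16429056) (l 16469968)) (a (l 16377216) (c (l 16472840) (l 16532088))))) (b (b (a (l 16481400) (c (l 16445264) (l 16560504))) (a (l 16481256) (l 16541424))) (b (a (b (l 16489704) (l 2)) (b (l 16530664) (l 16575384))) (l 4)))))), by decide +kernel⟩

theorem s2_pm_023 : ∃ t, chk3 f_pm_023 t 1 1 1 = true := ex3_a k0_pm_023 k1_pm_023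

theorem c_pm_023 : CertB 0 536870912 1073741824 536870912 858993459 64424510 3 eng mog cd0q0 cd2q2 pd3 true true false .up 0 2 3
    ndB0q0 ndB2q2 pcB3 Cut.none Ext.none :=
  certB1 (fam := true) (s1 := true) (s2 := false) (a := 0) (b := 2) (c := 3) (cn := .up) (n1 := ndB0q0) (n2 := ndB2q2) (pc := pcB3) (cut := Cut.none) (xt := Ext.none) (P1 := 0) (W1 := 536870912) (P2 := 1073741824) (W2 := 536870912) (P3 := 858993459) (W3 := 64424510) (N0 := 3) (En := eng) (mo := mog) (C1 := cd0q0) (C2 := cd2q2) (C3 := pd3)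
    rfl (fun _ => rfl) s2_pm_023

noncomputable def f_pm_033 : ℕ → ℕ → ℕ → ℕ → Bool := onCell 1610612736 536870912 0 1230186008 858993459 64424510
    (rowB 3 eng mog cd0q0 cd2q3 pd3 2 true true false .pnn 0 3 3 (qsf 0 536870912 0 1230186008 3) ndB0q0 ndB2q3 pcB3 Cut.none Ext.none)

def k0_pm_033 : ∃ t, chk3 f_pm_033 t 2 2 1 = true :=
  ⟨(l 1), by decide +kernel⟩

def k1_pm_033 : ∃ t, chk3 f_pm_033 t 2 6 1 = true :=
  ⟨(b (l 1) (a (l 1) (a (l 1) (b (l 1) (a (l 1) (b (l 1) (l 15397576))))))), by decide +kernel⟩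

def k2_pm_033 : ∃ t, chk3 f_pm_033 t 4 7 1 = true :=
  ⟨(b (l 1) (b (a (l 1) (a (b (l 1) (c (c (a (l 224979886487) (l 15493248)) (l 236790992407)) (c (l 241622651031) (l 246991184823)))) (b (c (a (l 245381012727) (l 178272238775)) (a (l 259876249127) (l 185788156087))) (c (a (l 191694100263) (l 15555136)) (a (l 199210061095) (l 15429624)))))) (b (a (a (l 1) (b (a (l 1) (c (l 232496203591) (l 251286383447))) (c (a (l 228738128615) (l 15511576)) (a (l 249675798775) (l 15344616))))) (a (a (c (b (l 15497576) (l 15554656)) (b (l 15340136) (l 15404240))) (c (l 15591040) (l 15431912))) (c (a (l 15614152) (l 15658104)) (a (l 15490184) (l 15546928))))) (a (a (b (a (l 1) (c (l 221758775735) (l 246991488391))) (c (l 221221966263) (l 247528420583))) (c (b (a (l 227127662295) (l 15571344)) (a (l 15590992) (l 15632480))) (b (a (l 231959220231) (l 15410576)) (a (l 15419904) (l 15476672))))) (a (c (b (l 15633992) (l 15692696)) (b (l 15496888) (l 15559360))) (c (b (l 15716648) (l 15770344)) (b (l 15606216)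 (l 15662312)))))))), by decide +kernel⟩

def k3_pm_033 : ∃ t, chk3 f_pm_033 t 5 7 1 = true :=
  ⟨(b (a (b (a (l 1) (b (l 1) (c (l 278130251207) (l 282961725255)))) (a (b (l 1) (c (a (l 256118473527) (l 15471328)) (a (l 263634340695) (l 15327640)))) (c (b (l 270077284263) (l 15550080)) (b (l 272761280679) (l 15422256))))) (b (a (b (l 449392161319) (c (l 15513392) (l 15351616))) (c (l 15585376) (l 15437784))) (a (b (c (l 15582152) (l 15447728)) (c (l 15655408) (l 15546128))) (b (a (l 15600808) (l 15657688)) (c (l 15756600) (l 15662264)))))) (a (b (a (b (c (a (l 15507472) (l 15557512)) (a (l 15374992) (l 15436976))) (c (a (l 15602368) (l 15649504)) (a (l 15489232) (l 15547400)))) (b (c (l 15632768) (l 15527672)) (c (l 15718208) (l 15629968)))) (a (b (c (l 15722032) (l 15627400)) (c (l 15820456) (l 15732976))) (b (c (l 15806528) (l 15729640)) (c (l 15894984) (l 15826832))))) (b (a (b (c (l 15730696) (l 15641712)) (c (l 15809056) (l 15735216))) (b (c (l 15826264) (l 15749528)) (l 15865728)))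 (a (b (c (l 15887736) (l 15826408)) (c (l 15969248) (l 15920552))) (b (l 15946560) (l 16030512)))))), by decide +kernel⟩

def k4_pm_033 : ∃ t, chk3 f_pm_033 t 3 1 1 = true :=
  ⟨(a (b (l 1) (a (b (b (l 1) (b (a (l 492878755559) (l 15527360)) (a (b (l 15458280) (l 15523960)) (b (l 15600488) (l 15660160))))) (b (b (a (c (l 15694416) (l 15569616)) (l 15941704)) (a (b (l 15740008) (l 15812296)) (b (l 15847888) (l 15911824)))) (b (a (b (l 15883920) (l 15957920)) (b (l 15978872) (l 16049112))) (a (b (l 16034704) (l 16112168)) (b (l 16120480) (l 16193032)))))) (b (b (b (l 4) (a (l 15639928) (l 4))) (b (a (l 15702472) (l 4)) (a (b (l 15759672) (l 15806152)) (b (l 15925944) (l 15964968))))) (b (b (a (l 15879216) (l 16017224)) (a (l 15984816) (l 16096560))) (b (a (l 16273768) (l 16197816)) (a (l 16237208) (l 16314784))))))) (b (l 4) (b (l 4) (a (a (b (b (a (l 16124184) (l 4)) (a (l 16186272) (l 16244432))) (b (l 16288464) (l 16363928))) (b (l 4) (b (a (l 16350552) (l 16390728)) (b (l 16417192) (l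 16456984))))) (a (b (l 4) (b (l 4) (a (l 16471664) (l 4)))) (l 4)))))), by decide +kernel⟩

theorem s5_pm_033 : ∃ t, chk3 f_pm_033 t 2 7 1 = true := ex3_a k2_pm_033 k3_pm_033

theorem s6_pm_033 : ∃ t, chk3 f_pm_033 t 2 3 1 = true := ex3_b k1_pm_033 s5_pm_033

theorem s7_pm_033 : ∃ t, chk3 f_pm_033 t 2 1 1 = true := ex3_b k0_pm_033 s6_pm_033

theorem s8_pm_033 : ∃ t, chk3 f_pm_033 t 1 1 1 = true := ex3_a s7_pm_033 k4_pm_033

theorem c_pm_033 : CertB 0 536870912 0 1230186008 858993459 64424510 3 eng mog cd0q0 cd2q3 pd3 true true false .pnn 0 3 3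
    ndB0q0 ndB2q3 pcB3 Cut.none Ext.none :=
  certB2 (fam := true) (s1 := true) (s2 := false) (a := 0) (b := 3) (c := 3) (cn := .pnn) (n1 := ndB0q0) (n2 := ndB2q3) (pc := pcB3) (cut := Cut.none) (xt := Ext.none) (P1 := 0) (W1 := 536870912) (P2 := 0) (W2 := 1230186008) (P3 := 858993459) (W3 := 64424510) (N0 := 3) (En := eng) (mo := mog) (C1 := cd0q0) (C2 := cd2q3) (C3 := pd3)
    rfl (fun _ => rfl) s8_pm_033

noncomputable def f_pm_101 : ℕ → ℕ → ℕ → ℕ → Bool := onCell 536870912 536870912 0 536870912 858993459 64424510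
    (rowB 3 eng mog cd0q1 cd2q0 pd1 2 true true false .npn 1 0 1 (qsf 536870912 536870912 0 536870912 1) ndB0q1 ndB2q0 pcB1 Cut.none Ext.none)

def k0_pm_101 : ∃ t, chk3 f_pm_101 t 2 1 1 = true :=
  ⟨(l 3), by decide +kernel⟩

def k1_pm_101 : ∃ t, chk3 f_pm_101 t 6 1 1 = true :=
  ⟨(l 3), by decide +kernel⟩

def k2_pm_101 : ∃ t, chk3 f_pm_101 t 14 1 1 = true :=
  ⟨(b (l 3) (l 3)), by decide +kernel⟩

def k3_pm_101 : ∃ t, chk3 f_pm_101 t 30 8 1 = true :=
  ⟨(a (l 3) (b (a (a (l 3) (a (l 3) (a (l 3) (b (a (l 3) (c (b (c (b (l 16780792) (l 16783704)) (b (l 246054646471) (l 16779616))) (c (l 393157300007) (l 16784080))) (b (b (c (l 16773048) (a (l 406579033207) (l 16769552))) (c (l 16775520) (l 397989103591))) (c (l 380809212247) (c (l 16755464) (l 388325401175)))))) (c (b (c (l 398526022407) (l 379198621735)) (l 379735519479)) (b (c (l 385641070135) (l 392620389175)) (c (l 386714832951) (l 393694151783)))))))) (c (b (b (a (a (c (a (l 16783760) (l 16785680)) (c (l 16781920) (l 16780056))) (l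 16765896)) (l 16771760)) (a (a (c (a (l 16790016) (l 16792000)) (l 16765936)) (l 16772112)) (l 16778152))) (a (b (c (a (l 16798128) (l 16802120)) (l 16775016)) (c (l 16787272) (l 16782968))) (b (l 16785328) (l 16793472)))) (c (a (a (b (b (b (l 16776000) (l 16778512)) (l 16761800)) (b (l 16768424) (l 16797168))) (b (l 16763728) (l 16777088))) (b (l 16770840) (l 16805344))) (a (b (a (b (c (l 16753480) (l 16751616)) (l 16762880)) (l 16760192)) (a (b (l 16763976) (l 16771584)) (l 16793888))) (b (l 16789048) (l 16801872)))))) (b (a (l 3) (a (c (a (b (l 16791592) (l 16800464)) (l 16821616)) (b (c (l 16787160) (l 206326221015)) (c (l 16816976) (l 16791320)))) (c (l 16786016) (a (l 16818176) (l 16823208))))) (a (l 3) (c (a (b (l 204178778679) (l 266992692503)) (l 16847512)) (a (c (a (l 194515099991) (l 16833304)) (b (l 113447582583) (a (l 16826672) (l 16832904)))) (a (l 16815728) (l 16842464)))))))), by decide +kernel⟩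

def k4_pm_101 : ∃ t, chk3 f_pm_101 t 30 9 1 = true :=
  ⟨(a (l 3) (a (l 3) (b (b (c (a (a (l 335712172215) (l 16832808)) (l 16840864)) (b (a (c (l 16820896) (l 103247065159)) (l 16831080)) (a (a (l 337859753031) (l 16870720)) (l 16879584)))) (c (a (b (l 307794910503) (l 291688701543)) (l 16775008)) (a (b (a (l 321216726887) (l 16857688)) (a (l 304573638375) (l 16815656))) (c (l 16796928) (l 16797968))))) (b (a (c (a (b (l 278266876167) (l 257328864951)) (b (l 16791912) (l 16748504))) (b (c (l 286319917143) (l 291688630167)) (c (l 272361192663) (l 268066270727)))) (c (b (l 16775864) (l 16732744)) (a (l 16717096) (l 16747248)))) (b (a (a (l 3) (c (l 16703856) (a (l 16683960) (l 16699184)))) (c (l 16688344) (l 16684824))) (a (a (l 3) (b (b (c (l 16675368) (l 16672520)) (c (l 16644448) (l 249812439991))) (c (l 16641080) (l 247128076103)))) (c (b (a (l 16660200) (l 16629064)) (l 16625712)) (b (c (l 16651280) (l 16649576)) (l 16640752))))))))), by decide +kernel⟩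

def k5_pm_101 : ∃ t, chk3 f_pm_101 t 30 5 1 = true :=
  ⟨(a (l 3) (a (l 3) (b (a (a (b (l 3) (l 3)) (b (b (b (c (b (l 16637608) (l 16634160)) (b (l 243369967511) (l 239611859031))) (b (c (l 16630728) (l 235853751719)) (c (l 16648280) (l 232632515911)))) (b (c (c (l 217600194391) (l 222432001111)) (c (l 225116301559) (l 227800563111))) (c (c (l 212231464087) (l 215452616727)) (c (l 218136910455) (l 220284264791))))) (b (b (c (l 207399546711) (c (l 210620611415) (l 16340576))) (c (l 220284431399) (a (l 3) (l 205788690023)))) (l 3)))) (b (b (b (b (c (l 16622200) (l 16635952)) (c (l 16639680) (l 16631208))) (c (c (l 16616864) (l 16632168)) (c (l 16627048) (l 16506632)))) (b (c (a (l 16632992) (l 16622760)) (c (l 16576480) (l 16443768))) (c (a (l 16625880) (l 16615600)) (c (l 16513560) (l 16389432))))) (b (b (b (c (l 16614992) (l 16412488)) (c (l 16611360) (l 16388736))) (b (c (l 16588392) (l 16366560)) (c (l 16561120) (l 16345848)))) (b (c (a (l 16565568) (l 16523160)) (a (l 16401304) (l 16317344)))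 (c (c (l 16526856) (l 16429360)) (c (l 16332120) (l 16235128))))))) (a (l 3) (b (b (c (b (c (l 16484112) (l 16391832)) (c (l 16446096) (l 16358640))) (b (a (l 16296560) (l 16253480)) (l 188608610807))) (c (b (c (l 16412208) (l 16329248)) (c (l 16382016) (l 16303240))) (b (l 185387329783) (l 16249032)))) (b (c (b (c (l 172502628743) (l 16298240)) (l 166596993175)) (b (c (l 16203528) (l 16130816)) (l 16147816))) (c (b (l 161228222471) (l 16300400)) (l 163375462599)))))))), by decide +kernel⟩

def k6_pm_101 : ∃ t, chk3 f_pm_101 t 30 3 1 = true :=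
  ⟨(a (l 3) (a (l 3) (b (b (b (c (b (c (l 149416993639) (l 177871024087)) (c (l 171965497831) (l 176797222583))) (b (l 182165883719) (l 180555239911))) (b (l 3) (l 3))) (l 3)) (l 3)))), by decide +kernel⟩

def k7_pm_101 : ∃ t, chk3 f_pm_101 t 31 4 1 = true :=
  ⟨(b (b (a (c (a (b (a (l 16803536) (l 16810664)) (a (l 16818296) (l 16825936))) (b (l 16820496) (l 16836832))) (a (b (a (l 16779688) (l 16811056)) (a (l 16813760) (l 16824312))) (b (l 16824136) (l 16840504)))) (c (a (l 16795416) (l 16754192)) (a (b (l 16771552) (l 16790600)) (b (l 16719288) (l 16738816))))) (c (a (a (b (a (l 16836512) (l 16844536)) (l 16840272)) (b (l 16855920) (l 16868240))) (a (l 16820760) (l 16779344))) (a (a (b (a (l 16810320) (l 16821096)) (a (l 16830144) (l 16862928))) (b (l 16855976) (l 16865920))) (a (b (l 16805568) (l 16815920)) (b (l 16754944) (l 16766456)))))) (b (a (c (a (b (l 16818000) (l 16742464)) (b (l 16816096) (l 16763448))) (a (b (a (l 16831936) (l 16827800)) (a (l 16772968) (l 16790512))) (b (a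 (l 16823776) (l 16777984)) (l 16732864)))) (b (a (c (l 16795344) (l 16720208)) (a (l 16714024) (l 16692600))) (a (c (l 16722760) (l 16705304)) (c (l 16683712) (l 16657392))))) (b (a (a (c (a (l 16733528) (l 16713128)) (a (l 16729496) (l 16705696))) (c (l 16682960) (l 16670008))) (a (a (l 16644008) (l 16622576)) (l 16569688))) (a (b (a (c (l 16657880) (l 16650144)) (a (l 16621560) (l 16600208))) (c (a (b (l 16624928) (l 16616536)) (a (l 16591688) (l 16551440))) (a (b (l 16616040) (l 16606528)) (c (l 16569496) (l 16561672))))) (b (a (l 16568360) (l 16526312)) (c (a (l 16543952) (l 16486000)) (a (l 16518896) (l 16471776)))))))), by decide +kernel⟩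

def k8_pm_101 : ∃ t, chk3 f_pm_101 t 31 5 1 = true :=
  ⟨(b (b (b (a (c (b (a (b (l 16612992) (l 16609456)) (l 16572600)) (a (l 16604632) (l 16565296))) (b (a (a (l 16611504) (l 16588616)) (l 16553960)) (a (c (l 16593904) (l 16517096)) (l 16544536)))) (c (b (l 16515680) (l 16508152)) (b (l 16483744) (l 16474320)))) (a (c (b (a (l 16597440) (l 16557944)) (a (l 16590168) (l 16550480))) (b (a (a (l 16515376) (l 16518904)) (l 16520736)) (a (l 16518920) (l 16456616)))) (c (b (l 16500520) (l 16492744)) (b (l 16464976) (l 16443928))))) (a (b (c (a (b (l 16582768) (l 16573912)) (a (l 16550048) (l 16530288))) (a (b (l 16465680) (l 16398384)) (a (l 16377992) (l 16375304)))) (c (a (b (l 16520952) (l 16495136)) (l 16489944)) (a (b (l 16337016) (l 16301752)) (l 16312984)))) (b (c (a (l 16501056) (l 16462976)) (b (l 16386760) (l 16337056))) (c (a (l 16478208) (l 16445408)) (a (l 16281648) (l 16266848)))))) (b (a (b (c (a (b (a (l 16434680) (l 16430752)) (a (l 16398304) (l 16393752))) (l 16467264)) (a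 (b (l 16291936) (l 16244040)) (l 16248448))) (c (a (b (a (l 16365968) (l 16360888)) (a (l 16337216) (l 16331648))) (l 16358008)) (a (b (l 16199544) (l 16178992)) (l 16178160)))) (b (c (a (l 16391416) (l 16375248)) (a (l 16215432) (l 16200200))) (c (a (l 16323248) (l 16307232)) (a (l 16164832) (l 16149104))))) (a (b (c (a (b (c (l 16342416) (l 16268256)) (l 16357872)) (c (l 16310944) (l 16239144))) (a (b (c (l 16194936) (l 16122448)) (l 16137440)) (c (l 16168504) (l 16099032)))) (c (a (b (l 16288928) (l 16223840)) (l 16217648)) (c (l 16154304) (l 16076120)))) (b (c (a (l 16259320) (l 16242328)) (a (l 16117848) (l 16100352))) (c (l 16190184) (l 16066304)))))), by decide +kernel⟩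

def k9_pm_101 : ∃ t, chk3 f_pm_101 t 31 6 1 = true :=
  ⟨(b (b (a (c (c (a (b (l 16224984) (l 16193888)) (l 16187960)) (b (l 16199552) (l 16133336))) (b (c (l 16105968) (l 16060320)) (a (l 16083664) (l 16061584)))) (c (a (l 16202824) (l 16119816)) (b (l 16040016) (l 16027312)))) (c (c (a (b (l 16256176) (l 16148256)) (l 16196528)) (a (b (l 16119248) (l 16113784)) (l 16071384))) (a (b (a (l 16084656) (l 16061352)) (c (l 16089800) (l 16076432))) (a (l 16250296) (l 16205384))))) (c (b (a (b (a (l 16159648) (l 16116064)) (a (l 16142848) (l 16224704))) (a (b (l 16094432) (l 16097976)) (l 16242376))) (a (c (a (l 101635462103) (l 16140656)) (a (l 16178680) (l 16133640))) (a (l 16218456) (l 16239600)))) (b (a (b (c (l 16100688) (l 16097144)) (a (l 16131152) (l 16106432))) (b (l 16048504) (l 16068840))) (a (c (b (l 16137176) (l 16143896)) (b (l 16116656) (l 16109088))) (b (l 16074960) (l 16073016)))))), by decide +kernel⟩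

def k10_pm_101 : ∃ t, chk3 f_pm_101 t 31 7 1 = true :=
  ⟨(b (c (b (a (c (a (l 16234600) (l 16169064)) (b (l 16170128) (l 16177992))) (c (l 16137544) (l 16125760))) (a (a (b (l 211156681319) (l 213841009159)) (b (l 16185352) (l 16150968))) (b (l 16150584) (a (l 16169528) (l 16146784))))) (b (a (b (c (l 16144016) (l 16077904)) (a (l 174112656151) (l 16081864))) (c (b (l 16090496) (l 16088104)) (b (l 16041040) (l 16031312)))) (a (b (a (c (l 16151728) (l 174649490375)) (l 16075648)) (a (c (l 164985949831) (l 180018179799)) (c (l 16122784) (l 16057880)))) (b (a (l 16048512) (l 16042088)) (a (c (l 16096824) (l 16030384)) (l 16038112)))))) (b (c (c (a (a (l 138679438311) (l 16221944)) (l 16188528)) (a (a (b (l 16203432) (l 154785550071)) (b (l 16178072) (l 16183456))) (a (l 16219440) (l 16132744)))) (a (a (a (l 3) (b (b (l 184313133607) (l 188071223015)) (c (l 16143112) (l 191829271607)))) (c (b (l 16122232) (l 16123904)) (b (l 16053344) (a (l 16058440) (l 16045264))))) (c (b (l 16104680) (a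 (l 16098608) (l 16073184))) (b (a (l 16026312) (l 15998848)) (a (l 16025280) (l 15998280)))))) (c (a (b (c (a (l 16241304) (l 16237704)) (a (l 299740712871) (l 16190536))) (a (l 1) (c (l 16250072) (l 16200192)))) (b (c (l 16204432) (l 16175984)) (c (l 16216416) (a (l 16176384) (l 16152880))))) (a (a (a (l 3) (b (c (l 16147264) (l 548311565703)) (l 1))) (c (b (l 31707700855) (l 292090108327)) (b (a (l 39760568599) (l 16047264)) (l 316785998535)))) (b (c (a (l 16103248) (l 16078120)) (a (l 16027600) (l 16001040))) (c (a (l 16110840) (l 16085960)) (a (l 16033544) (l 16007432)))))))), by decide +kernel⟩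

theorem s11_pm_101 : ∃ t, chk3 f_pm_101 t 31 3 1 = true := ex3_b k9_pm_101 k10_pm_101

theorem s12_pm_101 : ∃ t, chk3 f_pm_101 t 31 2 1 = true := ex3_b k7_pm_101 k8_pm_101

theorem s13_pm_101 : ∃ t, chk3 f_pm_101 t 31 1 1 = true := ex3_b s12_pm_101 s11_pm_101

theorem s14_pm_101 : ∃ t, chk3 f_pm_101 t 30 4 1 = true := ex3_b k3_pm_101 k4_pm_101

theorem s15_pm_101 : ∃ t, chk3 f_pm_101 t 30 2 1 = true := ex3_b s14_pm_101 k5_pm_101

theorem s16_pm_101 : ∃ t, chk3 f_pm_101 t 30 1 1 = true := ex3_b s15_pm_101 k6_pm_101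

theorem s17_pm_101 : ∃ t, chk3 f_pm_101 t 15 1 1 = true := ex3_a s16_pm_101 s13_pm_101

theorem s18_pm_101 : ∃ t, chk3 f_pm_101 t 7 1 1 = true := ex3_a k2_pm_101 s17_pm_101

theorem s19_pm_101 : ∃ t, chk3 f_pm_101 t 3 1 1 = true := ex3_a k1_pm_101 s18_pm_101

theorem s20_pm_101 : ∃ t, chk3 f_pm_101 t 1 1 1 = true := ex3_a k0_pm_101 s19_pm_101

theorem c_pm_101 : CertB 536870912 536870912 0 536870912 858993459 64424510 3 eng mog cd0q1 cd2q0 pd1 true true false .npn 1 0 1
    ndB0q1 ndB2q0 pcB1 Cut.none Ext.none :=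
  certB2 (fam := true) (s1 := true) (s2 := false) (a := 1) (b := 0) (c := 1) (cn := .npn) (n1 := ndB0q1) (n2 := ndB2q0) (pc := pcB1) (cut := Cut.none) (xt := Ext.none) (P1 := 536870912) (W1 := 536870912) (P2 := 0) (W2 := 536870912) (P3 := 858993459) (W3 := 64424510) (N0 := 3) (En := eng) (mo := mog) (C1 := cd0q1) (C2 := cd2q0) (C3 := pd1)
    rfl (fun _ => rfl) s20_pm_101

noncomputable def f_pm_102 : ℕ → ℕ → ℕ → ℕ → Bool := onCell 1073741824 536870912 0 536870912 858993459 64424510
    (rowB 3 eng mog cd0q1 cd2q0 pd2 2 true true false .npp 1 0 2 (qsf 536870912 536870912 0 536870912 2) ndB0q1 ndB2q0 pcB2 Cut.none Ext.none)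

def k0_pm_102 : ∃ t, chk3 f_pm_102 t 8 4 1 = true :=
  ⟨(b (a (b (a (b (a (c (l 16591400) (l 16580600)) (c (l 16562656) (l 16533648))) (a (l 16573976) (b (l 16568088) (l 16571136)))) (a (b (c (l 16535824) (l 16507032)) (c (l 16551728) (l 16532272))) (b (l 2) (c (l 16527144) (l 16509880))))) (a (b (c (l 16607952) (l 16608752)) (a (l 16628848) (l 16599424))) (b (c (l 16563200) (l 16530024)) (l 16559720)))) (a (b (b (l 2) (a (c (l 16507960) (l 16494528)) (l 2))) (b (a (l 16603056) (b (l 16497400) (l 16508008))) (c (l 16470712) (l 16513208)))) (b (l 2) (b (b (l 2) (l 16460920)) (b (l 16471104) (l 16481488)))))) (b (b (a (a (a (l 16602504) (l 16574720)) (l 16535800)) (a (a (l 16509616) (l 16510208)) (c (l 16482000) (l 16493304)))) (a (a (a (l 16511136) (l 16506032)) (l 16469864)) (a (a (l 16442192) (l 16441464)) (l 16420392)))) (a (b (a (c (l 16436936) (l 16427000)) (l 16376504)) (a (b (a (l 16394184) (l 16370208)) (c (b (l 16368968) (l 16361592)) (l 16329208))) (b (l 16317096) (c (l 16319032)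 (l 16291768))))) (b (a (l 16364584) (l 16361576)) (a (b (l 16307488) (l 16253928)) (b (l 16325152) (c (l 16281288) (l 16292800)))))))), by decide +kernel⟩

def k1_pm_102 : ∃ t, chk3 f_pm_102 t 9 4 1 = true :=
  ⟨(b (a (b (l 2) (a (b (l 2) (a (l 16467824) (l 2))) (l 2))) (l 2)) (b (a (a (b (a (l 16457608) (l 16436176)) (c (l 16398984) (l 16416696))) (b (a (l 16413464) (l 2)) (c (l 16350528) (l 16376768)))) (b (l 2) (a (a (l 16324816) (l 2)) (l 2)))) (a (a (b (a (l 16370896) (l 16354224)) (b (l 16325440) (c (l 16298760) (l 16309800)))) (b (c (l 16313504) (l 16336104)) (b (l 16292312) (c (l 16268520) (l 16286448))))) (b (a (c (l 16261384) (l 16291232)) (c (l 16207736) (l 16234560))) (a (b (c (l 16235480) (l 16262392)) (c (l 16223128) (l 16248168))) (b (c (l 16183616) (l 16207184)) (c (l 16173248) (l 16194840)))))))), by decide +kernel⟩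

def k2_pm_102 : ∃ t, chk3 f_pm_102 t 4 5 1 = true :=
  ⟨(b (a (b (a (b (a (a (b (b (l 16393272) (l 16347848)) (l 16322120)) (b (l 16327320) (l 16320480))) (b (l 16275664) (l 16269040))) (a (c (a (l 16334904) (l 16310960)) (a (l 16311928) (l 16291408))) (c (l 16277984) (l 16264216)))) (b (a (a (l 16249584) (l 16237360)) (c (l 16381672) (l 16230184))) (a (l 16249392) (l 16231568)))) (a (b (a (c (l 16329560) (l 16262648)) (l 16266824)) (a (c (l 16314440) (l 16185312)) (l 16251448))) (b (a (l 16234896) (l 16214600)) (a (l 16219672) (l 16198032))))) (b (a (b (a (c (l 16292584) (l 16303120)) (c (l 16273944) (l 16289536))) (a (c (l 16272432) (l 16286040)) (c (l 16274576) (l 16287888)))) (a (b (c (l 16317880) (l 16298336)) (c (l 16244784) (l 16263960))) (b (c (b (l 16181320) (l 16190504)) (l 16227544)) (c (l 16204232) (l 16220288))))) (a (b (a (c (l 16234840) (l 16257488)) (c (l 16267568) (l 16281832))) (a (l 16200288) (l 16239048))) (b (a (c (l 16249912) (l 16266784)) (c (l 16217784) (l 16231008)))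 (a (a (l 16259960) (l 16251432)) (l 16230160)))))) (a (b (a (b (a (c (l 16278128) (l 16125544)) (l 16212336)) (a (c (l 16217648) (l 16079344)) (l 16167456))) (b (a (l 16203328) (l 16181128)) (a (l 16175200) (l 16163112)))) (a (b (a (c (a (l 16155576) (l 16159760)) (l 16095744)) (a (l 16112552) (l 16121912))) (a (c (l 16098808) (l 15988280)) (l 16063784))) (b (a (l 16130704) (l 16127200)) (a (l 16077000) (l 16075544))))) (a (b (a (b (l 16172256) (l 16151944)) (b (l 16239944) (l 16212400))) (c (b (l 16116424) (l 16069112)) (a (l 16084960) (l 16172336)))) (b (b (a (l 16250760) (l 16233584)) (a (l 16241160) (l 16232112))) (c (b (l 16206984) (l 16168168)) (a (l 16202480) (l 16196160))))))), by decide +kernel⟩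

def k3_pm_102 : ∃ t, chk3 f_pm_102 t 5 2 1 = true :=
  ⟨(b (a (b (l 2) (b (l 2) (a (a (b (l 2) (b (l 2) (c (l 16118544) (l 16131592)))) (l 2)) (l 2)))) (l 2)) (b (a (b (a (b (a (c (b (l 16127800) (l 16138704)) (l 168140319703)) (c (b (l 2) (l 16078464)) (l 133243671015))) (a (c (l 16155640) (l 16163456)) (c (b (l 16090680) (l 16102992)) (l 16099040)))) (a (b (l 2) (c (l 191762385479) (l 16032496))) (l 2))) (a (b (a (c (l 16175032) (l 16180184)) (c (l 16121424) (l 16120544))) (c (a (l 16190824) (l 16142976)) (l 16335208))) (b (c (a (l 16055424) (l 15980832)) (a (l 16056888) (l 15988152))) (c (a (l 16081560) (l 16010432)) (l 16090976))))) (b (l 2) (a (a (a (b (l 2) (l 16080600)) (l 2)) (l 2)) (l 2)))) (a (b (a (c (b (l 16328528) (l 16191608)) (b (l 16179456) (l 16188016))) (c (b (a (l 16104976) (l 16038632)) (l 16094488)) (b (l 16073784) (l 16095056)))) (a (b (c (l 16185600) (l 16175600)) (a (l 16158384) (l 16131440))) (b (a (l 16120128) (l 16069848)) (c (l 16088528) (l 16063536))))) (b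 (a (b (c (a (l 15964984) (l 15885208)) (l 15935400)) (c (l 211626561111) (l 15967664))) (b (l 2) (c (l 342622842375) (l 15806568)))) (a (c (b (l 15976488) (l 15977904)) (b (l 15980232) (l 15965488))) (c (b (l 307726290263) (l 15836720)) (b (l 15828968) (l 15828544)))))))), by decide +kernel⟩

def k4_pm_102 : ∃ t, chk3 f_pm_102 t 8 3 1 = true :=
  ⟨(c (b (b (a (b (a (b (l 16056528) (l 16027616)) (l 16046752)) (a (b (l 16009456) (l 16000232)) (l 16091168))) (b (b (l 16055528) (l 16025872)) (c (l 16008848) (l 15989432)))) (a (b (a (b (l 16082096) (l 16086288)) (l 16145608)) (a (b (l 16011896) (l 16026120)) (l 16096168))) (b (a (l 15992176) (l 15986416)) (a (l 16006040) (l 16005096))))) (b (a (b (a (c (l 16054968) (l 16046552)) (b (l 16034480) (l 16046912))) (c (l 16166400) (b (l 16049688) (l 16055976)))) (b (a (l 16028448) (l 16015688)) (a (l 16041392) (l 16023056)))) (a (b (a (c (l 16120136) (l 16058584)) (b (l 16073560) (l 16082608))) (c (a (l 16147992) (l 16121856)) (a (l 16078872) (l 16070688))))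 (b (a (l 16054264) (l 16031496)) (c (l 16083800) (a (l 16042728) (l 16015984))))))) (b (b (a (b (a (b (l 15960384) (l 15946080)) (l 15980736)) (a (a (l 16149864) (l 15949960)) (l 15962808))) (b (c (l 16015520) (l 16007448)) (a (l 15975160) (l 15999184)))) (a (b (a (a (l 16012680) (l 15974648)) (l 15978408)) (a (b (l 15991432) (l 15992952)) (l 15979280))) (b (b (l 15985216) (l 15977248)) (a (l 15966824) (l 15954944))))) (b (a (b (a (b (l 15991224) (l 15988456)) (b (l 15971080) (l 15965224))) (a (b (l 15965072) (l 15963928)) (b (l 15960312) (l 15957056)))) (b (b (l 15922376) (l 15922632)) (a (b (l 15936256) (l 15930944)) (b (l 15913800) (l 15906496))))) (a (b (a (c (b (l 16019232) (l 16024032)) (b (l 15948936) (l 15950552))) (c (l 15992256) (l 15959184))) (a (c (b (l 16031192) (l 16041048)) (b (l 15955280) (l 15963384))) (c (l 16045520) (b (l 15920760) (l 15927312))))) (b (c (a (l 15964752) (l 15938776)) (a (l 15887088) (l 15858832))) (c (a (l 15972984) (l 15943960)) (a (l 15890168) (l 15858648)))))))),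 by decide +kernel⟩

def k5_pm_102 : ∃ t, chk3 f_pm_102 t 9 3 1 = true :=
  ⟨(b (b (b (a (c (l 16042312) (l 16077224)) (c (a (l 16102280) (l 16120064)) (l 16107816))) (a (c (l 16020488) (l 16024768)) (a (a (l 16042704) (l 16045472)) (l 16066920)))) (a (b (c (l 16007512) (l 15978656)) (a (a (l 15984192) (l 15979784)) (l 15972408))) (b (c (a (l 16011896) (l 16015792)) (a (l 15972048) (l 15959480))) (c (a (l 15989448) (l 15985336)) (a (l 15921528) (l 15904904)))))) (b (a (b (c (a (l 16003760) (l 15991208)) (a (l 15911736) (l 15895640))) (c (b (l 15997112) (l 15997712)) (a (l 15887952) (l 15867768)))) (b (a (c (l 15976928) (l 15880376)) (c (l 15967312) (l 15861248))) (c (a (l 15971680) (l 15958672)) (a (l 15849128) (l 15827536))))) (a (b (c (b (l 15999760) (l 15981488)) (a (l 15875080) (l 15851400))) (c (a (l 16001360) (l 15999792)) (c (l 15903616) (l 15877560)))) (a (b (c (l 15971360) (l 15829288)) (c (l 15977656) (l 15822576))) (b (c (l 15956184) (l 15805224)) (c (l 15960616) (l 15796088))))))),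 by decide +kernel⟩

def k6_pm_102 : ∃ t, chk3 f_pm_102 t 5 3 1 = true :=
  ⟨(b (a (b (a (b (a (l 16104856) (l 16084432)) (a (l 16038216) (l 16022128))) (b (c (l 16188336) (l 16056752)) (c (l 16020904) (l 15946104)))) (a (a (b (l 15981784) (l 15999784)) (b (l 15966464) (l 15942200))) (b (c (l 15979656) (l 15883432)) (c (l 15945024) (l 15828160))))) (b (b (a (c (l 15970088) (l 15933272)) (c (l 16101176) (l 15819592))) (a (c (l 15947552) (l 15880568)) (c (l 15850464) (l 15790936)))) (a (b (c (l 15917088) (l 15824728)) (l 15980064)) (b (c (l 15836648) (l 15749776)) (c (l 15816416) (l 15706688)))))) (a (b (a (a (b (c (l 15961008) (l 15838928)) (c (l 15948624) (l 15803960))) (a (b (l 15892032) (l 15868872)) (b (l 15882432) (l 15859080)))) (b (c (l 15920080) (l 15783128)) (c (l 15905736) (l 15748480)))) (a (a (b (c (l 15944408) (l 15780088)) (c (l 15946176) (l 15768880))) (a (b (l 15854632) (l 15912032)) (c (b (l 16097688) (l 16056504)) (b (l 15750136) (l 15737024))))) (b (c (l 15962800) (a (l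 15734440) (l 15714200))) (c (l 15945728) (l 15857392))))) (b (b (a (c (l 15864480) (l 15733176)) (l 15736528)) (a (c (l 15850536) (l 15700752)) (l 15843096))) (a (b (c (l 15846720) (l 15678336)) (c (l 15852160) (l 15666112))) (b (c (l 15783752) (l 15623096)) (c (l 15791072) (l 15613968))))))), by decide +kernel⟩

def k7_pm_102 : ∃ t, chk3 f_pm_102 t 3 1 1 = true :=
  ⟨(b (a (b (l 2) (b (l 2) (a (a (b (l 2) (b (l 2) (c (l 310947216983) (l 15659200)))) (l 2)) (l 2)))) (l 2)) (a (b (a (b (a (b (c (a (l 15742952) (l 15665296)) (l 15669960)) (c (l 15730800) (l 15673016))) (a (b (b (l 2) (l 335106200183)) (c (l 15629168) (l 15564776))) (b (l 2) (c (l 387182654839) (l 15482744))))) (a (b (c (l 15738136) (l 15654792)) (c (l 15732120) (l 15625128))) (b (c (l 15623472) (l 15536064)) (c (l 15635288) (l 15527408))))) (b (a (a (b (l 2) (c (l 323294926807) (l 15423952))) (l 2)) (l 2)) (a (b (c (a (l 15531640) (l 15495864)) (a (l 15430696) (l 15379960))) (c (a (l 15557968) (l 15504976)) (l 15409024)))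 (b (c (l 15654112) (l 15339464)) (c (a (l 15479528) (l 15478496)) (l 15437136)))))) (b (a (a (b (c (l 15721424) (l 15594864)) (l 15645712)) (b (c (l 15635864) (l 15508936)) (l 15732512))) (a (b (c (l 15543888) (l 15411160)) (c (l 15549536) (l 15403272))) (b (c (a (l 15477064) (l 15461416)) (l 15318704)) (c (l 15465152) (l 15306472))))) (a (a (b (l 15639176) (c (l 15722392) (l 15553000))) (c (l 15639672) (l 15585144))) (a (b (l 15542408) (l 15489544)) (b (c (l 15474616) (l 15310016)) (l 15405464)))))) (b (b (l 2) (a (a (b (l 2) (c (l 15499696) (l 15308712))) (l 2)) (l 2))) (a (b (a (b (c (l 15481120) (l 15289704)) (c (l 15454008) (l 15266368))) (b (c (l 15536920) (l 15306400)) (c (l 15510536) (l 15281288)))) (a (b (a (l 15333920) (l 15326712)) (a (l 15343336) (l 15308440))) (b (l 15358304) (a (l 15306064) (l 15329976))))) (b (a (b (l 2) (c (l 15595400) (l 15330840))) (l 2)) (a (b (l 15451672) (l 15386792)) (b (l 400604370343) (l 15487736)))))))), by decide +kernel⟩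

theorem s8_pm_102 : ∃ t, chk3 f_pm_102 t 4 3 1 = true := ex3_a k4_pm_102 k5_pm_102

theorem s9_pm_102 : ∃ t, chk3 f_pm_102 t 2 3 1 = true := ex3_a s8_pm_102 k6_pm_102

theorem s10_pm_102 : ∃ t, chk3 f_pm_102 t 4 4 1 = true := ex3_a k0_pm_102 k1_pm_102

theorem s11_pm_102 : ∃ t, chk3 f_pm_102 t 4 2 1 = true := ex3_b s10_pm_102 k2_pm_102

theorem s12_pm_102 : ∃ t, chk3 f_pm_102 t 2 2 1 = true := ex3_a s11_pm_102 k3_pm_102

theorem s13_pm_102 : ∃ t, chk3 f_pm_102 t 2 1 1 = true := ex3_b s12_pm_102 s9_pm_102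

theorem s14_pm_102 : ∃ t, chk3 f_pm_102 t 1 1 1 = true := ex3_a s13_pm_102 k7_pm_102

theorem c_pm_102 : CertB 536870912 536870912 0 536870912 858993459 64424510 3 eng mog cd0q1 cd2q0 pd2 true true false .npp 1 0 2
    ndB0q1 ndB2q0 pcB2 Cut.none Ext.none :=
  certB2 (fam := true) (s1 := true) (s2 := false) (a := 1) (b := 0) (c := 2) (cn := .npp) (n1 := ndB0q1) (n2 := ndB2q0) (pc := pcB2) (cut := Cut.none) (xt := Ext.none) (P1 := 536870912) (W1 := 536870912) (P2 := 0) (W2 := 536870912) (P3 := 858993459) (W3 := 64424510) (N0 := 3) (En := eng) (mo := mog) (C1 := cd0q1) (C2 := cd2q0) (C3 := pd2)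
    rfl (fun _ => rfl) s14_pm_102

noncomputable def f_pm_112 : ℕ → ℕ → ℕ → ℕ → Bool := onCell 536870912 536870912 1073741824 536870912 858993459 64424510
    (rowB 3 eng mog cd0q1 cd2q1 pd2 1 true true false .dn 1 1 2 (qsf 536870912 536870912 536870912 536870912 2) ndB0q1 ndB2q1 pcB2 Cut.none Ext.none)

def k0_pm_112 : ∃ t, chk3 f_pm_112 t 1 2 1 = true :=
  ⟨(b (a (a (b (a (b (a (c (b (l 16170312) (l 16183360)) (l 16176200)) (c (l 288868809239) (l 16136384))) (c (a (l 16186136) (l 16154720)) (a (l 16154216) (l 16123880)))) (b (l 1) (c (l 230886987863) (l 182568219415)))) (b (a (c (l 16152032) (l 16110176)) (c (l 16102976) (l 16063904))) (a (a (l 16102424) (l 16092080)) (c (l 16091160) (l 16030456))))) (b (l 1) (a (b (l 1) (a (l 16042224) (l 1))) (l 1)))) (l 1)) (a (a (b (b (b (a (a (l 16063088) (l 16060112)) (l 16049296)) (a (b (l 16083848) (a (l 16193296) (l 16175472))) (b (l 16036312) (c (l 16212072) (l 15982872))))) (a (a (l 15984312) (l 15993544)) (a (l 15999336) (l 16001512)))) (a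 (b (a (l 15910360) (l 15929336)) (a (l 15826992) (l 15855424))) (b (c (l 15992528) (l 15901912)) (a (l 15879368) (l 15897320))))) (b (b (a (b (a (l 16031080) (l 1)) (b (a (l 16023304) (l 1)) (c (b (l 16051728) (l 16050728)) (l 15965192)))) (l 1)) (a (c (l 16099808) (l 15948816)) (a (l 16019408) (l 1)))) (a (c (b (l 16002040) (l 15953392)) (b (l 15912752) (l 15862944))) (c (a (l 15970056) (l 15953200)) (b (l 15899216) (l 15862784)))))) (a (b (l 1) (a (c (l 249140436775) (l 292626836679)) (l 1))) (l 1)))), by decide +kernel⟩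

def k1_pm_112 : ∃ t, chk3 f_pm_112 t 1 3 1 = true :=
  ⟨(b (a (c (a (a (b (b (l 15826640) (l 15714976)) (b (l 15618256) (l 15516920))) (b (b (l 15863656) (l 15785888)) (b (l 15701552) (l 15611640)))) (a (b (a (l 15856376) (l 15866984)) (b (l 15753192) (l 15671976))) (b (a (l 15867712) (l 15859488)) (l 15815776)))) (a (b (a (b (l 15738416) (l 15595936)) (b (l 15762040) (l 15678496))) (a (b (l 15489704) (l 15378808)) (b (l 15588248) (l 15492464)))) (a (b (b (l 15802680) (l 15733480)) (b (l 15656672) (l 15573416))) (b (l 16018688) (l 15677864))))) (a (b (a (c (l 15833760) (l 15810816)) (b (l 1) (l 15721912))) (a (c (l 15717800) (l 15656968)) (b (l 15674376) (l 15620080)))) (a (a (b (l 1) (l 259877209319)) (l 1)) (l 1)))) (a (a (b (b (a (a (l 15307824) (l 15375360)) (c (l 15517040) (l 15392216))) (a (a (l 15255384) (l 15266448)) (c (l 15418608) (l 15288504)))) (b (a (a (a (l 15053976) (l 15096472)) (l 15155576)) (a (l 15225288) (l 15284552))) (a (a (c (l 15042936) (l 14862232)) (l 15043728))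 (a (l 15118088) (l 15181200))))) (a (b (c (a (l 15525776) (l 15551472)) (b (l 15484704) (l 15391488))) (c (a (l 15331736) (l 15361688)) (b (l 15294680) (l 15195208)))) (b (c (l 15655056) (l 15645304)) (c (a (l 15381224) (l 15393296)) (a (l 15305240) (l 15331792)))))) (a (b (a (c (l 15573088) (l 15516128)) (b (l 15559848) (l 15494376))) (a (b (l 15427536) (a (l 15335896) (l 15342624))) (b (a (l 15427104) (l 15430896)) (a (l 15364544) (l 15410448))))) (a (b (a (b (l 15518576) (l 15470808)) (b (l 15481448) (l 15473672))) (a (b (l 15456952) (l 15465520)) (l 15565880))) (b (b (l 1) (l 285646787799)) (c (l 15637536) (l 15456352))))))), by decide +kernel⟩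

theorem s2_pm_112 : ∃ t, chk3 f_pm_112 t 1 1 1 = true := ex3_b k0_pm_112 k1_pm_112

theorem c_pm_112 : CertB 536870912 536870912 536870912 536870912 858993459 64424510 3 eng mog cd0q1 cd2q1 pd2 true true false .dn 1 1 2
    ndB0q1 ndB2q1 pcB2 Cut.none Ext.none :=
  certB1 (fam := true) (s1 := true) (s2 := false) (a := 1) (b := 1) (c := 2) (cn := .dn) (n1 := ndB0q1) (n2 := ndB2q1) (pc := pcB2) (cut := Cut.none) (xt := Ext.none) (P1 := 536870912) (W1 := 536870912) (P2 := 536870912) (W2 := 536870912) (P3 := 858993459) (W3 := 64424510) (N0 := 3) (En := eng) (mo := mog) (C1 := cd0q1) (C2 := cd2q1) (C3 := pd2)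
    rfl (fun _ => rfl) s2_pm_112

noncomputable def f_pm_113 : ℕ → ℕ → ℕ → ℕ → Bool := onCell 536870912 536870912 1610612736 536870912 858993459 64424510
    (rowB 3 eng mog cd0q1 cd2q1 pd3 1 true true false .nn 1 1 3 (qsf 536870912 536870912 536870912 536870912 3) ndB0q1 ndB2q1 pcB3 Cut.none Ext.none)

def k0_pm_113 : ∃ t, chk3 f_pm_113 t 2 1 1 = true :=
  ⟨(b (b (a (b (a (c (a (b (b (l 14853560) (l 217529563687)) (c (l 271216379255) (l 249204482663))) (b (l 14930224) (l 236857002215))) (b (a (l 176727127543) (l 14756808)) (a (l 232561420503) (l 184243275223)))) (c (b (a (l 15043384) (l 15156864)) (a (l 14914120) (l 15036600))) (b (a (l 14863376) (l 14967504)) (a (l 14732232) (l 14843448))))) (b (a (a (l 2) (c (l 291617566951) (l 235782602247))) (c (a (l 255110615175) (l 14912208)) (a (l 14598296) (l 14715896)))) (a (l 2) (c (a (l 306113093255) (l 271216740935)) (a (l 237930059527) (l 14585944)))))) (a (a (b (c (b (l 15270328) (l 15159464)) (l 15011264)) (b (c (l 15044712) (l 14832288))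 (c (l 14926272) (l 14709248)))) (b (c (l 15332432) (l 15113504)) (b (l 15059264) (c (l 15067808) (l 14831664))))) (b (c (a (l 15445384) (l 15551472)) (a (l 15212544) (l 15306248))) (b (a (c (l 15305856) (l 15058104)) (l 15294280)) (a (l 15074976) (l 15196872)))))) (a (b (b (a (l 2) (a (l 2) (c (l 328124885479) (l 248667535063)))) (l 2)) (l 2)) (b (a (b (a (c (l 282491201943) (l 14584424)) (l 14955392)) (c (l 401139712807) (l 343157180231))) (c (a (l 15042048) (l 15188152)) (a (l 14787432) (l 14917800)))) (b (a (c (l 400602563991) (l 346378157591)) (a (l 14747392) (l 14903960))) (a (l 2) (a (l 14640392) (l 14809096))))))) (a (l 2) (b (b (a (l 2) (b (a (l 2) (l 14720656)) (l 2))) (l 2)) (l 2)))), by decide +kernel⟩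

def k1_pm_113 : ∃ t, chk3 f_pm_113 t 3 1 1 = true :=
  ⟨(b (b (a (b (a (c (b (l 15725296) (l 15658472)) (b (l 15472248) (l 15393384))) (b (l 15729560) (l 15675456))) (a (c (l 15548712) (l 15270808)) (b (l 15625720) (l 15580760)))) (a (b (c (l 15915800) (l 15654792)) (c (l 15900472) (l 15613000))) (b (b (l 15820328) (l 15824504)) (b (l 15845552) (l 15886096))))) (a (b (a (b (l 15293368) (l 15218408)) (b (l 15541176) (l 15508136))) (a (b (l 15146608) (l 15079904)) (b (l 15484024) (l 15472376)))) (b (a (c (l 15937800) (l 15614728)) (b (l 15950152) (l 16044328))) (a (b (l 15836480) (l 15907624)) (b (l 16175272) (l 4)))))) (b (a (b (b (a (l 15022344) (l 15480080)) (a (l 389865856903) (l 4))) (b (a (l 399529491751) (l 4)) (l 4))) (a (l 4) (l 4))) (l 4))), by decide +kernel⟩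

theorem s2_pm_113 : ∃ t, chk3 f_pm_113 t 1 1 1 = true := ex3_a k0_pm_113 k1_pm_113

theorem c_pm_113 : CertB 536870912 536870912 536870912 536870912 858993459 64424510 3 eng mog cd0q1 cd2q1 pd3 true true false .nn 1 1 3
    ndB0q1 ndB2q1 pcB3 Cut.none Ext.none :=
  certB1 (fam := true) (s1 := true) (s2 := false) (a := 1) (b := 1) (c := 3) (cn := .nn) (n1 := ndB0q1) (n2 := ndB2q1) (pc := pcB3) (cut := Cut.none) (xt := Ext.none) (P1 := 536870912) (W1 := 536870912) (P2 := 536870912) (W2 := 536870912) (P3 := 858993459) (W3 := 64424510) (N0 := 3) (En := eng) (mo := mog) (C1 := cd0q1) (C2 := cd2q1) (C3 := pd3)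
    rfl (fun _ => rfl) s2_pm_113

noncomputable def f_pm_123 : ℕ → ℕ → ℕ → ℕ → Bool := onCell 1610612736 536870912 1073741824 536870912 858993459 64424510
    (rowB 3 eng mog cd0q1 cd2q2 pd3 2 true true false .npn 1 2 3 (qsf 536870912 536870912 1073741824 536870912 3) ndB0q1 ndB2q2 pcB3 Cut.none Ext.none)

def k0_pm_123 : ∃ t, chk3 f_pm_123 t 2 1 1 = true :=
  ⟨(b (b (a (b (a (b (a (c (b (l 15926008) (l 15966152)) (b (l 15849352) (l 15911560))) (c (l 16034744) (l 15875480))) (a (c (l 20433604359) (l 16000136)) (c (l 16047688) (l 15973728)))) (b (c (a (l 15919976) (l 15917656)) (a (l 15835232) (l 15823936))) (c (a (l 15994584) (l 15990096)) (a (l 15953752) (l 15940984))))) (a (b (a (l 1) (c (l 16075896) (l 16082608))) (l 1)) (b (a (c (l 16063320) (l 16062488)) (l 16303544)) (c (a (l 16129088) (l 16122416)) (l 16211824))))) (b (b (b (a (a (c (l 15906864) (l 15792312)) (c (l 15927952) (l 15803632))) (a (c (l 15968616) (l 15831048)) (c (l 16040144) (l 15880704)))) (a (a (l 15918888) (c (l 15959184)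 (l 15859776))) (a (c (l 15992312) (l 15882360)) (c (l 16050720) (l 15923808))))) (c (a (a (l 15993400) (l 16005848)) (a (l 16031256) (l 16074584))) (a (a (l 15936408) (l 15941520)) (a (l 15958568) (l 15990800))))) (a (b (c (l 16061592) (l 16042480)) (a (l 16189816) (l 16130264))) (b (a (c (l 16084600) (l 16056496)) (c (l 16115664) (l 16080312))) (a (l 16141680) (c (l 16163624) (l 16162640))))))) (a (b (a (l 1) (b (a (l 1) (l 16200144)) (l 1))) (l 1)) (b (a (b (c (l 56941235927) (l 16198864)) (a (l 16255256) (l 16257448))) (b (l 16445264) (l 16271176))) (a (b (a (l 1) (l 16304592)) (l 1)) (b (a (l 16312624) (l 16324960)) (l 16350520)))))) (a (l 1) (b (a (l 1) (b (b (l 16281472) (l 1)) (l 1))) (l 1)))), by decide +kernel⟩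

def k1_pm_123 : ∃ t, chk3 f_pm_123 t 6 2 1 = true :=
  ⟨(b (a (b (b (a (b (c (l 16155880) (l 15962920)) (l 16090456)) (b (c (l 16323928) (l 16087840)) (l 16194400))) (a (c (l 16145832) (l 16043480)) (b (l 16188960) (l 16191752)))) (b (a (l 16288688) (b (l 16201608) (l 16216272))) (a (l 16195512) (l 16244056)))) (b (a (b (b (l 16417976) (l 16373816)) (b (l 16342224) (l 16319112))) (b (b (l 16482456) (l 16498360)) (b (l 16513080) (l 16501376)))) (b (a (l 16305688) (l 16442728)) (a (l 16313896) (l 16410544))))) (a (b (a (b (l 16270360) (l 16300288)) (b (l 16286688) (l 16328808))) (a (l 16359944) (l 16379920))) (b (a (b (l 16337392) (l 16366552)) (b (l 16406816) (l 16413320))) (a (b (l 16390656) (l 16398864)) (b (l 16416456) (l 16402880)))))), by decide +kernel⟩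

def k2_pm_123 : ∃ t, chk3 f_pm_123 t 7 4 1 = true :=
  ⟨(a (a (b (b (b (b (l 16457472) (l 16467080)) (l 16502648)) (b (l 16522088) (l 16538072))) (b (a (l 16528384) (l 16551888)) (a (l 16499048) (l 16534880)))) (b (b (a (b (c (b (l 16491152) (l 16496936)) (l 16442640)) (l 16499184)) (b (c (a (l 16493248) (l 16496328)) (l 16441784)) (l 16496496))) (b (l 16519968) (l 16543048))) (b (l 16464808) (l 16580552)))) (a (b (b (a (b (c (l 16505232) (l 16473408)) (l 16457824)) (b (a (l 16505456) (b (l 16523112) (l 16522928))) (l 16500752))) (a (b (l 16515808) (l 16537840)) (b (l 16528984) (l 16540568)))) (b (a (l 16574088) (b (l 16561024) (l 16586384))) (a (l 16604024) (l 16608248)))) (a (b (b (a (b (l 16550184) (l 16544608)) (b (l 16641592) (l 16571128))) (a (c (l 16530472) (l 16559344)) (b (l 16565088) (l 16571312)))) (b (b (l 16571016) (l 16588360)) (l 16609392))) (b (a (b (a (b (l 16593328) (l 16591000)) (b (l 16603752) (l 16597888))) (b (a (l 16586912) (l 16600256)) (l 16588960))) (a (b (b (c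 (l 16584744) (l 16583184)) (l 16544520)) (a (l 16607944) (b (l 16612832) (l 16612920)))) (a (b (b (l 4) (l 16572536)) (b (l 16607056) (l 16613712))) (b (l 4) (a (l 16541608) (a (l 16597032) (l 4))))))) (a (b (c (l 16580520) (l 16617368)) (l 16619144)) (a (b (l 16612840) (l 16624056)) (b (a (c (l 16604096) (l 16578672)) (a (l 16562448) (a (l 16579272) (c (l 2423669417047) (l 16694928))))) (a (l 16628216) (a (l 16630480) (a (l 16632128) (a (l 16632336) (b (l 16629616) (l 16636344))))))))))))), by decide +kernel⟩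

def k3_pm_123 : ∃ t, chk3 f_pm_123 t 7 5 1 = true :=
  ⟨(a (a (b (b (a (l 16473184) (l 16517992)) (l 16374648)) (a (b (l 16448680) (l 16461080)) (l 16357896))) (b (b (l 16581456) (l 16559552)) (b (l 16578904) (l 16574504)))) (a (b (b (l 16597160) (l 16620728)) (a (l 16797088) (l 16606928))) (a (b (b (l 16619800) (l 16622208)) (b (l 16595176) (l 16624744))) (a (b (b (l 16624552) (l 16513776)) (b (l 16629472) (l 16623712))) (a (b (b (l 16500832) (l 16612976)) (l 16641472)) (b (a (b (l 16608376) (l 16645304)) (a (l 16645608) (a (l 16650664) (a (l 16654432) (l 16743048))))) (a (l 16658064) (l 4)))))))), by decide +kernel⟩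

def k4_pm_123 : ∃ t, chk3 f_pm_123 t 3 3 1 = true :=
  ⟨(a (a (b (b (a (b (l 16385768) (l 16409736)) (b (l 16405744) (l 16435224))) (a (l 1) (b (l 16438328) (l 1)))) (l 1)) (b (b (a (l 16346416) (c (l 16433912) (l 16524680))) (a (l 16304264) (b (l 16508328) (l 16513120)))) (b (a (l 1) (l 339335916455)) (l 1)))) (b (b (a (a (a (l 16525760) (l 16533744)) (a (l 16565080) (l 16587800))) (a (a (l 16537152) (b (l 16610752) (l 16613352))) (a (b (l 16626360) (l 16611448)) (a (l 16635320) (l 4))))) (a (a (c (l 16484824) (l 16596160)) (b (l 16589600) (l 16593872))) (a (a (l 16606208) (l 16599152)) (a (c (l 16588176) (l 16658224)) (l 4))))) (a (a (b (a (l 16540176) (l 16560344)) (l 1)) (b (b (l 16584688) (l 16565392)) (l 16420984))) (a (b (a (l 16575744) (l 16574440)) (a (l 16534704) (l 16549224))) (a (b (l 16622280) (l 4)) (l 4)))))), by decide +kernel⟩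

theorem s5_pm_123 : ∃ t, chk3 f_pm_123 t 7 2 1 = true := ex3_b k2_pm_123 k3_pm_123

theorem s6_pm_123 : ∃ t, chk3 f_pm_123 t 3 2 1 = true := ex3_a k1_pm_123 s5_pm_123

theorem s7_pm_123 : ∃ t, chk3 f_pm_123 t 3 1 1 = true := ex3_b s6_pm_123 k4_pm_123

theorem s8_pm_123 : ∃ t, chk3 f_pm_123 t 1 1 1 = true := ex3_a k0_pm_123 s7_pm_123

theorem c_pm_123 : CertB 536870912 536870912 1073741824 536870912 858993459 64424510 3 eng mog cd0q1 cd2q2 pd3 true true false .npn 1 2 3
    ndB0q1 ndB2q2 pcB3 Cut.none Ext.none :=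
  certB2 (fam := true) (s1 := true) (s2 := false) (a := 1) (b := 2) (c := 3) (cn := .npn) (n1 := ndB0q1) (n2 := ndB2q2) (pc := pcB3) (cut := Cut.none) (xt := Ext.none) (P1 := 536870912) (W1 := 536870912) (P2 := 1073741824) (W2 := 536870912) (P3 := 858993459) (W3 := 64424510) (N0 := 3) (En := eng) (mo := mog) (C1 := cd0q1) (C2 := cd2q2) (C3 := pd3)
    rfl (fun _ => rfl) s8_pm_123

noncomputable def f_pm_133 : ℕ → ℕ → ℕ → ℕ → Bool := onCell 536870912 536870912 0 1230186008 858993459 64424510
    (rowB 3 eng mog cd0q1 cd2q3 pd3 0 true true false .dn 1 3 3 (qsf 536870912 536870912 0 1230186008 3) ndB0q1 ndB2q3 pcB3 Cut.none Ext.none)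

def k0_pm_133 : ∃ t, chk3 f_pm_133 t 1 1 1 = true :=
  ⟨(b (l 2) (b (l 2) (a (l 4) (l 2)))), by decide +kernel⟩

theorem c_pm_133 : CertB 536870912 536870912 0 1230186008 858993459 64424510 3 eng mog cd0q1 cd2q3 pd3 true true false .dn 1 3 3
    ndB0q1 ndB2q3 pcB3 Cut.none Ext.none :=
  certB0 (fam := true) (s1 := true) (s2 := false) (a := 1) (b := 3) (c := 3) (cn := .dn) (n1 := ndB0q1) (n2 := ndB2q3) (pc := pcB3) (cut := Cut.none) (xt := Ext.none) (P1 := 536870912) (W1 := 536870912) (P2 := 0) (W2 := 1230186008) (P3 := 858993459) (W3 := 64424510) (N0 := 3) (En := eng) (mo := mog) (C1 := cd0q1) (C2 := cd2q3) (C3 := pd3)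
    rfl k0_pm_133

noncomputable def f_pm_202 : ℕ → ℕ → ℕ → ℕ → Bool := onCell 0 536870912 0 536870912 858993459 64424510
    (rowB 3 eng mog cd0q2 cd2q0 pd2 0 true true false .pp 2 0 2 (qsf 0 536870912 0 536870912 2) ndB0q2 ndB2q0 pcB2 Cut.none Ext.none)

def k0_pm_202 : ∃ t, chk3 f_pm_202 t 2 2 1 = true :=
  ⟨(a (b (b (a (b (c (l 16458472) (l 16388304)) (l 16213008)) (b (c (l 16306544) (l 16371920)) (c (l 16420680) (l 16459368)))) (b (c (a (l 16359632) (l 16349712)) (l 16403744)) (b (a (l 16320912) (l 16305424)) (a (l 16290192) (b (l 16274672) (l 16258696)))))) (b (b (b (a (l 16283504) (l 16232808)) (a (l 16287032) (l 16251024))) (c (b (l 16385768) (l 16272328)) (b (l 16269672) (l 16273784)))) (b (a (b (l 16320696) (l 16337064)) (l 16190104)) (a (b (l 16346480) (l 4)) (b (l 16287784) (l 16287288)))))) (b (c (a (b (b (b (a (l 16430152) (l 16435024)) (l 16480664)) (l 16408704)) (b (b (l 16367096) (l 16311832)) (b (l 16261944) (l 16429112)))) (b (b (b (a (l 16437856) (l 16448048)) (a (l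 16492040) (l 16493816))) (b (a (l 16466568) (l 16489864)) (a (l 16420056) (l 16435736)))) (b (b (a (l 16365744) (l 16372656)) (l 16299056)) (b (l 16236096) (b (l 16192456) (l 16168536)))))) (a (b (b (b (a (l 16335184) (l 16336088)) (l 16384216)) (l 16458688)) (b (l 16414216) (b (l 16320752) (l 16267200)))) (b (b (b (a (l 16342136) (l 16357480)) (l 16376096)) (b (l 16442832) (l 16486736))) (b (b (l 16472720) (l 16390656)) (b (l 16317624) (l 16252376)))))) (b (b (b (a (c (l 16202664) (l 16240208)) (c (l 16258952) (l 16215560))) (a (l 16208800) (c (l 16139088) (l 16191104)))) (a (b (l 16182160) (l 16201728)) (c (b (l 16128920) (l 16123168)) (l 16166128)))) (b (a (b (l 16204216) (l 16210272)) (b (l 16321256) (l 16151856))) (c (a (l 16221520) (l 16119168)) (a (l 16196912) (l 16118080))))))), by decide +kernel⟩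

def k1_pm_202 : ∃ t, chk3 f_pm_202 t 2 3 1 = true :=
  ⟨(b (b (a (b (a (l 4) (l 16033912)) (l 4)) (a (b (l 16285904) (c (l 16245152) (l 16156632))) (b (l 16305128) (l 16129968)))) (a (l 4) (a (b (b (l 16200264) (l 4)) (l 4)) (b (c (l 16143528) (l 16037632)) (c (l 16161544) (l 16025008)))))) (b (a (l 2) (b (a (l 2) (b (l 16093536) (l 2))) (l 2))) (l 2))), by decide +kernel⟩

def k2_pm_202 : ∃ t, chk3 f_pm_202 t 6 4 1 = true :=
  ⟨(a (b (b (c (b (a (l 16466096) (l 16493088)) (l 16513536)) (b (a (l 16380248) (l 16412360)) (l 16261160))) (b (c (l 16385952) (l 16466152)) (a (l 16324032) (l 16327272)))) (b (c (a (b (l 16295424) (l 16304296)) (b (l 16422248) (l 16328696))) (a (l 16385688) (l 16469848))) (b (c (a (l 16226608) (l 16213336)) (l 16117040)) (a (b (l 16213056) (l 16181568)) (c (b (l 16169960) (l 16134776)) (l 16139720)))))) (b (b (a (c (b (l 16508448) (l 16554272)) (b (l 16394288) (l 16477856))) (a (b (l 16428672) (l 16487408)) (b (l 16459040) (l 16429496)))) (a (b (l 16420656) (c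 (l 16519896) (l 16538648))) (b (c (l 16576088) (l 16545880)) (l 16361000)))) (b (c (a (b (l 16450304) (l 16357224)) (b (l 16471768) (l 16380512))) (a (l 16464552) (l 16432624))) (b (c (a (l 16262744) (l 16286360)) (l 16100800)) (c (b (a (l 16191208) (l 16215056)) (a (l 16146680) (l 16171648))) (b (l 16281752) (l 16025992))))))), by decide +kernel⟩

def k3_pm_202 : ∃ t, chk3 f_pm_202 t 6 5 1 = true :=
  ⟨(c (b (b (a (b (a (l 16123016) (l 16148664)) (a (l 16099968) (l 16077592))) (b (a (b (l 16116920) (l 16092392)) (b (l 16142504) (l 16114432))) (a (c (l 16048512) (l 16080808)) (c (l 16057720) (l 16087440))))) (a (b (l 16151640) (l 16052008)) (b (a (l 16029304) (c (l 16049336) (l 16036120))) (a (l 16004920) (c (l 15969496) (l 15996376)))))) (b (a (b (l 16040752) (l 16033608)) (b (a (l 15985440) (l 15951464)) (a (l 15970512) (l 15930720)))) (a (b (l 16023304) (l 16007856)) (b (a (l 15952256) (l 15906616)) (l 15902072))))) (b (b (a (b (l 16195792) (l 16158592)) (b (a (l 16168120) (l 16202688))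 (a (l 16142784) (l 16145120)))) (a (b (l 16129264) (l 16105224)) (a (l 16064984) (b (l 16092912) (l 16050728))))) (b (a (l 16246952) (b (l 16026344) (l 16001088))) (a (l 16032104) (b (l 15967544) (l 15921840)))))), by decide +kernel⟩

def k4_pm_202 : ∃ t, chk3 f_pm_202 t 7 4 1 = true :=
  ⟨(a (b (b (a (b (c (l 16638272) (l 16593000)) (c (l 16614936) (l 16592096))) (b (c (l 16632432) (l 16662784)) (c (l 16608232) (l 16651896)))) (c (a (b (l 16580624) (l 16544656)) (b (l 16578336) (l 16544304))) (a (l 16481232) (b (l 16633712) (l 16608384))))) (a (b (b (c (l 16483480) (l 16547328)) (c (l 16395576) (l 16453752))) (b (c (l 16303376) (l 16360960)) (c (b (l 16232344) (l 16189328)) (l 16082736)))) (b (a (b (l 16347208) (l 16236184)) (b (l 16302176) (l 16233752))) (b (c (l 16331832) (l 16357776)) (c (b (l 16242056) (l 16199688)) (b (l 16287112) (l 16245688))))))) (a (b (b (b (a (c (l 16613456) (l 16628168)) (b (l 16493264) (l 16595016))) (c (l 16545304) (l 16610936))) (c (b (l 16563104) (l 16533544))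 (b (l 16600312) (l 16582712)))) (b (b (c (l 16347880) (l 16445280)) (c (l 16387688) (l 16397072))) (b (c (l 16301960) (l 16343592)) (b (c (l 16236464) (l 16270992)) (c (l 16322592) (l 16228328)))))) (b (a (b (a (b (b (l 16605688) (l 16575200)) (l 16569608)) (b (b (l 16580256) (l 16566248)) (l 16492472))) (b (l 16445840) (l 16426944))) (b (a (b (b (b (l 16580648) (l 16572504)) (l 16560624)) (c (l 16547744) (l 16540464))) (b (b (c (l 16587832) (l 16557480)) (l 16556344)) (b (l 16540424) (l 16527600)))) (b (a (l 16510992) (l 16622048)) (l 16342104)))) (b (c (b (l 16452816) (a (l 16370968) (l 16358152))) (b (l 16361656) (a (l 16415400) (l 16391144)))) (b (c (a (l 16284592) (l 16269928)) (l 16313400)) (b (c (l 16213552) (l 16242136)) (c (a (l 16182976) (l 16168856)) (l 16198992)))))))), by decide +kernel⟩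

def k5_pm_202 : ∃ t, chk3 f_pm_202 t 7 5 1 = true :=
  ⟨(b (b (a (a (b (c (b (l 16161320) (l 16134416)) (l 16210600)) (c (l 16115816) (l 16157808))) (b (c (b (l 16172968) (l 16147376)) (l 16230656)) (c (l 16214592) (l 16160320)))) (b (c (a (b (l 16172856) (l 16149240)) (b (l 16156424) (l 16137024))) (a (b (l 16203568) (l 16180776)) (b (l 16174000) (l 16150800)))) (a (c (b (l 16125032) (l 16100704)) (l 16147992)) (c (b (l 16116360) (l 16094584)) (b (l 16128496) (l 16106912)))))) (a (b (c (a (l 16040632) (l 16057896)) (a (l 16104696) (l 16110424))) (c (a (l 15985032) (l 16005960)) (a (l 16049520) (l 16059992)))) (b (a (c (l 16064648) (l 16101760)) (c (c (l 16060240) (l 16063056)) (l 16076096))) (a (c (l 16015232) (l 16054744)) (c (l 16014512) (l 16033000)))))) (b (a (a (b (c (c (l 15925480) (l 15949368)) (l 15999760)) (c (l 15899984) (l 15960480))) (c (b (l 15954032) (l 15902288)) (l 16110776))) (c (a (b (l 15965680) (l 15916200)) (b (l 15967624) (l 15920632))) (b (a (l 16007080) (l 15988960))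 (a (l 15958936) (l 15944168))))) (a (c (a (b (l 15864840) (l 15827752)) (b (l 15928832) (l 15790736))) (b (a (l 15913376) (l 15893328)) (l 15948480))) (c (a (b (l 15858096) (l 15789840)) (b (l 15864504) (l 15797856))) (a (l 15874872) (l 16051768)))))), by decide +kernel⟩

def k6_pm_202 : ∃ t, chk3 f_pm_202 t 3 3 1 = true :=
  ⟨(b (a (a (b (b (c (l 15992840) (l 15973408)) (c (l 15987352) (l 15931896))) (b (l 16140344) (l 16126904))) (b (b (c (a (l 15902600) (l 15842840)) (l 15862992)) (c (l 15848760) (l 15802320))) (b (c (l 15844408) (l 15761216)) (c (l 15857872) (l 15738864))))) (a (b (b (c (a (l 15784808) (c (l 15737240) (l 15731288))) (a (l 15783112) (l 15735632))) (c (a (l 15747000) (l 15682192)) (l 15674072))) (c (b (l 15693152) (l 15693536)) (b (l 15614104) (l 15576920)))) (b (b (a (c (c (l 15853192) (l 15697184)) (l 15697456)) (c (l 15703456) (l 15682480))) (a (c (b (l 15636320) (l 15609280)) (l 15583400)) (c (b (l 15615552) (l 15569624)) (l 15535984)))) (b (a (c (l 15586216) (l 15502888))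 (c (a (l 15537224) (l 15515416)) (l 15433376))) (c (a (l 15576352) (l 15505640)) (l 15409360)))))) (a (b (a (b (c (l 16054936) (l 15893456)) (l 2)) (b (c (l 15888256) (l 15734424)) (c (l 15934288) (l 15746608)))) (l 2)) (b (a (b (c (l 15714200) (l 15561904)) (c (l 15753704) (l 15567912))) (b (c (l 15654608) (l 15380920)) (c (l 15582160) (l 15377688)))) (a (b (c (l 15810592) (l 15593856)) (l 2)) (b (c (l 15634728) (l 15398288)) (a (l 15623648) (l 15530776))))))), by decide +kernel⟩

theorem s7_pm_202 : ∃ t, chk3 f_pm_202 t 7 2 1 = true := ex3_b k4_pm_202 k5_pm_202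

theorem s8_pm_202 : ∃ t, chk3 f_pm_202 t 6 2 1 = true := ex3_b k2_pm_202 k3_pm_202

theorem s9_pm_202 : ∃ t, chk3 f_pm_202 t 3 2 1 = true := ex3_a s8_pm_202 s7_pm_202

theorem s10_pm_202 : ∃ t, chk3 f_pm_202 t 3 1 1 = true := ex3_b s9_pm_202 k6_pm_202

theorem s11_pm_202 : ∃ t, chk3 f_pm_202 t 2 1 1 = true := ex3_b k0_pm_202 k1_pm_202

theorem s12_pm_202 : ∃ t, chk3 f_pm_202 t 1 1 1 = true := ex3_a s11_pm_202 s10_pm_202

theorem c_pm_202 : CertB 0 536870912 0 536870912 858993459 64424510 3 eng mog cd0q2 cd2q0 pd2 true true false .pp 2 0 2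
    ndB0q2 ndB2q0 pcB2 Cut.none Ext.none :=
  certB0 (fam := true) (s1 := true) (s2 := false) (a := 2) (b := 0) (c := 2) (cn := .pp) (n1 := ndB0q2) (n2 := ndB2q0) (pc := pcB2) (cut := Cut.none) (xt := Ext.none) (P1 := 0) (W1 := 536870912) (P2 := 0) (W2 := 536870912) (P3 := 858993459) (W3 := 64424510) (N0 := 3) (En := eng) (mo := mog) (C1 := cd0q2) (C2 := cd2q0) (C3 := pd2)
    rfl s12_pm_202

noncomputable def f_pm_203 : ℕ → ℕ → ℕ → ℕ → Bool := onCell 0 536870912 1610612736 536870912 858993459 64424510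
    (rowB 3 eng mog cd0q2 cd2q0 pd3 1 true true false .up 2 0 3 (qsf 0 536870912 0 536870912 3) ndB0q2 ndB2q0 pcB3 Cut.none Ext.none)

def k0_pm_203 : ∃ t, chk3 f_pm_203 t 1 1 1 = true :=
  ⟨(b (a (a (l 4) (a (l 4) (b (b (l 4) (l 4)) (l 4)))) (b (b (a (b (a (l 16264416) (l 15947984)) (a (l 16000424) (l 16118160))) (a (b (l 15876392) (l 15871240)) (b (l 15777496) (l 15798352)))) (a (b (a (l 4) (l 16087592)) (l 4)) (b (a (l 15889736) (l 2)) (l 2)))) (a (l 2) (l 2)))) (l 2)), by decide +kernel⟩

theorem c_pm_203 : CertB 0 536870912 0 536870912 858993459 64424510 3 eng mog cd0q2 cd2q0 pd3 true true false .up 2 0 3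
    ndB0q2 ndB2q0 pcB3 Cut.none Ext.none :=
  certB1 (fam := true) (s1 := true) (s2 := false) (a := 2) (b := 0) (c := 3) (cn := .up) (n1 := ndB0q2) (n2 := ndB2q0) (pc := pcB3) (cut := Cut.none) (xt := Ext.none) (P1 := 0) (W1 := 536870912) (P2 := 0) (W2 := 536870912) (P3 := 858993459) (W3 := 64424510) (N0 := 3) (En := eng) (mo := mog) (C1 := cd0q2) (C2 := cd2q0) (C3 := pd3)
    rfl (fun _ => rfl) k0_pm_203

noncomputable def f_pm_213 : ℕ → ℕ → ℕ → ℕ → Bool := onCell 0 536870912 1610612736 536870912 858993459 64424510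
    (rowB 3 eng mog cd0q2 cd2q1 pd3 1 true true false .pnn 2 1 3 (qsf 0 536870912 536870912 536870912 3) ndB0q2 ndB2q1 pcB3 Cut.none Ext.none)

def k0_pm_213 : ∃ t, chk3 f_pm_213 t 1 1 1 = true :=
  ⟨(b (a (b (b (l 1) (l 4)) (l 4)) (b (b (a (l 1) (a (b (l 1) (l 15980400)) (b (l 15872920) (l 15884760)))) (a (b (a (l 1) (l 16072880)) (l 4)) (b (a (l 15998200) (l 15912320)) (a (l 16033696) (l 15957936))))) (a (l 4) (b (b (a (l 4) (l 16026760)) (l 4)) (l 4))))) (l 4)), by decide +kernel⟩

theorem c_pm_213 : CertB 0 536870912 536870912 536870912 858993459 64424510 3 eng mog cd0q2 cd2q1 pd3 true true false .pnn 2 1 3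
    ndB0q2 ndB2q1 pcB3 Cut.none Ext.none :=
  certB1 (fam := true) (s1 := true) (s2 := false) (a := 2) (b := 1) (c := 3) (cn := .pnn) (n1 := ndB0q2) (n2 := ndB2q1) (pc := pcB3) (cut := Cut.none) (xt := Ext.none) (P1 := 0) (W1 := 536870912) (P2 := 536870912) (W2 := 536870912) (P3 := 858993459) (W3 := 64424510) (N0 := 3) (En := eng) (mo := mog) (C1 := cd0q2) (C2 := cd2q1) (C3 := pd3)
    rfl (fun _ => rfl) k0_pm_213

noncomputable def f_mm_001 : ℕ → ℕ → ℕ → ℕ → Bool := onCell 0 536870912 0 536870912 858993459 64424510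
    (rowB 3 eng mog cd0q0 cd2q0 pd1 0 true false false .up 0 0 1 (qsf 0 536870912 0 536870912 1) ndB0q0 ndB2q0 pcB1 Cut.none Ext.none)

def k0_mm_001 : ∃ t, chk3 f_mm_001 t 1 1 1 = true :=
  ⟨(l 4), by decide +kernel⟩

theorem c_mm_001 : CertB 0 536870912 0 536870912 858993459 64424510 3 eng mog cd0q0 cd2q0 pd1 true false false .up 0 0 1
    ndB0q0 ndB2q0 pcB1 Cut.none Ext.none :=
  certB0 (fam := true) (s1 := false) (s2 := false) (a := 0) (b := 0) (c := 1) (cn := .up) (n1 := ndB0q0) (n2 := ndB2q0) (pc := pcB1) (cut := Cut.none) (xt := Ext.none) (P1 := 0) (W1 := 536870912) (P2 := 0) (W2 := 536870912) (P3 := 858993459) (W3 := 64424510) (N0 := 3) (En := eng) (mo := mog) (C1 := cd0q0) (C2 := cd2q0) (C3 := pd1)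
    rfl k0_mm_001

noncomputable def f_mm_011 : ℕ → ℕ → ℕ → ℕ → Bool := onCell 0 536870912 536870912 536870912 858993459 64424510
    (rowB 3 eng mog cd0q0 cd2q1 pd1 0 true false false .pnn 0 1 1 (qsf 0 536870912 536870912 536870912 1) ndB0q0 ndB2q1 pcB1 Cut.none Ext.none)

def k0_mm_011 : ∃ t, chk3 f_mm_011 t 1 1 1 = true :=
  ⟨(l 4), by decide +kernel⟩

theorem c_mm_011 : CertB 0 536870912 536870912 536870912 858993459 64424510 3 eng mog cd0q0 cd2q1 pd1 true false false .pnn 0 1 1
    ndB0q0 ndB2q1 pcB1 Cut.none Ext.none :=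
  certB0 (fam := true) (s1 := false) (s2 := false) (a := 0) (b := 1) (c := 1) (cn := .pnn) (n1 := ndB0q0) (n2 := ndB2q1) (pc := pcB1) (cut := Cut.none) (xt := Ext.none) (P1 := 0) (W1 := 536870912) (P2 := 536870912) (W2 := 536870912) (P3 := 858993459) (W3 := 64424510) (N0 := 3) (En := eng) (mo := mog) (C1 := cd0q0) (C2 := cd2q1) (C3 := pd1)
    rfl k0_mm_011

noncomputable def f_mm_012 : ℕ → ℕ → ℕ → ℕ → Bool := onCell 0 536870912 536870912 536870912 858993459 64424510
    (rowB 3 eng mog cd0q0 cd2q1 pd2 0 true false false .pnp 0 1 2 (qsf 0 536870912 536870912 536870912 2) ndB0q0 ndB2q1 pcB2 Cut.none Ext.none)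

def k0_mm_012 : ∃ t, chk3 f_mm_012 t 1 1 1 = true :=
  ⟨(l 4), by decide +kernel⟩

theorem c_mm_012 : CertB 0 536870912 536870912 536870912 858993459 64424510 3 eng mog cd0q0 cd2q1 pd2 true false false .pnp 0 1 2
    ndB0q0 ndB2q1 pcB2 Cut.none Ext.none :=
  certB0 (fam := true) (s1 := false) (s2 := false) (a := 0) (b := 1) (c := 2) (cn := .pnp) (n1 := ndB0q0) (n2 := ndB2q1) (pc := pcB2) (cut := Cut.none) (xt := Ext.none) (P1 := 0) (W1 := 536870912) (P2 := 536870912) (W2 := 536870912) (P3 := 858993459) (W3 := 64424510) (N0 := 3) (En := eng) (mo := mog) (C1 := cd0q0) (C2 := cd2q1) (C3 := pd2)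
    rfl k0_mm_012

noncomputable def f_mm_022 : ℕ → ℕ → ℕ → ℕ → Bool := onCell 0 536870912 1073741824 536870912 858993459 64424510
    (rowB 3 eng mog cd0q0 cd2q2 pd2 0 true false false .pp 0 2 2 (qsf 0 536870912 1073741824 536870912 2) ndB0q0 ndB2q2 pcB2 Cut.none Ext.none)

def k0_mm_022 : ∃ t, chk3 f_mm_022 t 1 1 1 = true :=
  ⟨(l 4), by decide +kernel⟩

theorem c_mm_022 : CertB 0 536870912 1073741824 536870912 858993459 64424510 3 eng mog cd0q0 cd2q2 pd2 true false false .pp 0 2 2
    ndB0q0 ndB2q2 pcB2 Cut.none Ext.none :=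
  certB0 (fam := true) (s1 := false) (s2 := false) (a := 0) (b := 2) (c := 2) (cn := .pp) (n1 := ndB0q0) (n2 := ndB2q2) (pc := pcB2) (cut := Cut.none) (xt := Ext.none) (P1 := 0) (W1 := 536870912) (P2 := 1073741824) (W2 := 536870912) (P3 := 858993459) (W3 := 64424510) (N0 := 3) (En := eng) (mo := mog) (C1 := cd0q0) (C2 := cd2q2) (C3 := pd2)
    rfl k0_mm_022

noncomputable def f_mm_023 : ℕ → ℕ → ℕ → ℕ → Bool := onCell 0 536870912 1073741824 536870912 858993459 64424510
    (rowB 3 eng mog cd0q0 cd2q2 pd3 0 true false false .up 0 2 3 (qsf 0 536870912 1073741824 536870912 3) ndB0q0 ndB2q2 pcB3 Cut.none Ext.none)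

def k0_mm_023 : ∃ t, chk3 f_mm_023 t 1 1 1 = true :=
  ⟨(l 4), by decide +kernel⟩

theorem c_mm_023 : CertB 0 536870912 1073741824 536870912 858993459 64424510 3 eng mog cd0q0 cd2q2 pd3 true false false .up 0 2 3
    ndB0q0 ndB2q2 pcB3 Cut.none Ext.none :=
  certB0 (fam := true) (s1 := false) (s2 := false) (a := 0) (b := 2) (c := 3) (cn := .up) (n1 := ndB0q0) (n2 := ndB2q2) (pc := pcB3) (cut := Cut.none) (xt := Ext.none) (P1 := 0) (W1 := 536870912) (P2 := 1073741824) (W2 := 536870912) (P3 := 858993459) (W3 := 64424510) (N0 := 3) (En := eng) (mo := mog) (C1 := cd0q0) (C2 := cd2q2) (C3 := pd3)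
    rfl k0_mm_023

noncomputable def f_mm_033 : ℕ → ℕ → ℕ → ℕ → Bool := onCell 0 536870912 0 1230186008 858993459 64424510
    (rowB 3 eng mog cd0q0 cd2q3 pd3 0 true false false .pnn 0 3 3 (qsf 0 536870912 0 1230186008 3) ndB0q0 ndB2q3 pcB3 Cut.none Ext.none)

def k0_mm_033 : ∃ t, chk3 f_mm_033 t 1 1 1 = true :=
  ⟨(l 5), by decide +kernel⟩

theorem c_mm_033 : CertB 0 536870912 0 1230186008 858993459 64424510 3 eng mog cd0q0 cd2q3 pd3 true false false .pnn 0 3 3
    ndB0q0 ndB2q3 pcB3 Cut.none Ext.none :=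
  certB0 (fam := true) (s1 := false) (s2 := false) (a := 0) (b := 3) (c := 3) (cn := .pnn) (n1 := ndB0q0) (n2 := ndB2q3) (pc := pcB3) (cut := Cut.none) (xt := Ext.none) (P1 := 0) (W1 := 536870912) (P2 := 0) (W2 := 1230186008) (P3 := 858993459) (W3 := 64424510) (N0 := 3) (En := eng) (mo := mog) (C1 := cd0q0) (C2 := cd2q3) (C3 := pd3)
    rfl k0_mm_033

noncomputable def f_mm_101 : ℕ → ℕ → ℕ → ℕ → Bool := onCell 536870912 536870912 0 536870912 858993459 64424510
    (rowB 3 eng mog cd0q1 cd2q0 pd1 0 true false false .npn 1 0 1 (qsf 536870912 536870912 0 536870912 1) ndB0q1 ndB2q0 pcB1 Cut.none Ext.none)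

def k0_mm_101 : ∃ t, chk3 f_mm_101 t 1 1 1 = true :=
  ⟨(a (l 4) (l 4)), by decide +kernel⟩

theorem c_mm_101 : CertB 536870912 536870912 0 536870912 858993459 64424510 3 eng mog cd0q1 cd2q0 pd1 true false false .npn 1 0 1
    ndB0q1 ndB2q0 pcB1 Cut.none Ext.none :=
  certB0 (fam := true) (s1 := false) (s2 := false) (a := 1) (b := 0) (c := 1) (cn := .npn) (n1 := ndB0q1) (n2 := ndB2q0) (pc := pcB1) (cut := Cut.none) (xt := Ext.none) (P1 := 536870912) (W1 := 536870912) (P2 := 0) (W2 := 536870912) (P3 := 858993459) (W3 := 64424510) (N0 := 3) (En := eng) (mo := mog) (C1 := cd0q1) (C2 := cd2q0) (C3 := pd1)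
    rfl k0_mm_101

noncomputable def f_mm_102 : ℕ → ℕ → ℕ → ℕ → Bool := onCell 536870912 536870912 0 536870912 858993459 64424510
    (rowB 3 eng mog cd0q1 cd2q0 pd2 0 true false false .npp 1 0 2 (qsf 536870912 536870912 0 536870912 2) ndB0q1 ndB2q0 pcB2 Cut.none Ext.none)

def k0_mm_102 : ∃ t, chk3 f_mm_102 t 1 1 1 = true :=
  ⟨(a (l 4) (l 4)), by decide +kernel⟩

theorem c_mm_102 : CertB 536870912 536870912 0 536870912 858993459 64424510 3 eng mog cd0q1 cd2q0 pd2 true false false .npp 1 0 2
    ndB0q1 ndB2q0 pcB2 Cut.none Ext.none :=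
  certB0 (fam := true) (s1 := false) (s2 := false) (a := 1) (b := 0) (c := 2) (cn := .npp) (n1 := ndB0q1) (n2 := ndB2q0) (pc := pcB2) (cut := Cut.none) (xt := Ext.none) (P1 := 536870912) (W1 := 536870912) (P2 := 0) (W2 := 536870912) (P3 := 858993459) (W3 := 64424510) (N0 := 3) (En := eng) (mo := mog) (C1 := cd0q1) (C2 := cd2q0) (C3 := pd2)
    rfl k0_mm_102

noncomputable def f_mm_112 : ℕ → ℕ → ℕ → ℕ → Bool := onCell 536870912 536870912 536870912 536870912 858993459 64424510
    (rowB 3 eng mog cd0q1 cd2q1 pd2 0 true false false .dn 1 1 2 (qsf 536870912 536870912 536870912 536870912 2) ndB0q1 ndB2q1 pcB2 Cut.none Ext.none)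

def k0_mm_112 : ∃ t, chk3 f_mm_112 t 1 1 1 = true :=
  ⟨(l 4), by decide +kernel⟩

theorem c_mm_112 : CertB 536870912 536870912 536870912 536870912 858993459 64424510 3 eng mog cd0q1 cd2q1 pd2 true false false .dn 1 1 2
    ndB0q1 ndB2q1 pcB2 Cut.none Ext.none :=
  certB0 (fam := true) (s1 := false) (s2 := false) (a := 1) (b := 1) (c := 2) (cn := .dn) (n1 := ndB0q1) (n2 := ndB2q1) (pc := pcB2) (cut := Cut.none) (xt := Ext.none) (P1 := 536870912) (W1 := 536870912) (P2 := 536870912) (W2 := 536870912) (P3 := 858993459) (W3 := 64424510) (N0 := 3) (En := eng) (mo := mog) (C1 := cd0q1) (C2 := cd2q1) (C3 := pd2)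
    rfl k0_mm_112

noncomputable def f_mm_113 : ℕ → ℕ → ℕ → ℕ → Bool := onCell 536870912 536870912 536870912 536870912 858993459 64424510
    (rowB 3 eng mog cd0q1 cd2q1 pd3 0 true false false .nn 1 1 3 (qsf 536870912 536870912 536870912 536870912 3) ndB0q1 ndB2q1 pcB3 Cut.none Ext.none)

def k0_mm_113 : ∃ t, chk3 f_mm_113 t 1 1 1 = true :=
  ⟨(l 4), by decide +kernel⟩

theorem c_mm_113 : CertB 536870912 536870912 536870912 536870912 858993459 64424510 3 eng mog cd0q1 cd2q1 pd3 true false false .nn 1 1 3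
    ndB0q1 ndB2q1 pcB3 Cut.none Ext.none :=
  certB0 (fam := true) (s1 := false) (s2 := false) (a := 1) (b := 1) (c := 3) (cn := .nn) (n1 := ndB0q1) (n2 := ndB2q1) (pc := pcB3) (cut := Cut.none) (xt := Ext.none) (P1 := 536870912) (W1 := 536870912) (P2 := 536870912) (W2 := 536870912) (P3 := 858993459) (W3 := 64424510) (N0 := 3) (En := eng) (mo := mog) (C1 := cd0q1) (C2 := cd2q1) (C3 := pd3)
    rfl k0_mm_113

noncomputable def f_mm_123 : ℕ → ℕ → ℕ → ℕ → Bool := onCell 536870912 536870912 1073741824 536870912 858993459 64424510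
    (rowB 3 eng mog cd0q1 cd2q2 pd3 0 true false false .npn 1 2 3 (qsf 536870912 536870912 1073741824 536870912 3) ndB0q1 ndB2q2 pcB3 Cut.none Ext.none)

def k0_mm_123 : ∃ t, chk3 f_mm_123 t 1 1 1 = true :=
  ⟨(l 4), by decide +kernel⟩

theorem c_mm_123 : CertB 536870912 536870912 1073741824 536870912 858993459 64424510 3 eng mog cd0q1 cd2q2 pd3 true false false .npn 1 2 3
    ndB0q1 ndB2q2 pcB3 Cut.none Ext.none :=
  certB0 (fam := true) (s1 := false) (s2 := false) (a := 1) (b := 2) (c := 3) (cn := .npn) (n1 := ndB0q1) (n2 := ndB2q2) (pc := pcB3) (cut := Cut.none) (xt := Ext.none) (P1 := 536870912) (W1 := 536870912) (P2 := 1073741824) (W2 := 536870912) (P3 := 858993459) (W3 := 64424510) (N0 := 3) (En := eng) (mo := mog) (C1 := cd0q1) (C2 := cd2q2) (C3 := pd3)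
    rfl k0_mm_123

noncomputable def f_mm_133 : ℕ → ℕ → ℕ → ℕ → Bool := onCell 1610612736 536870912 0 1230186008 858993459 64424510
    (rowB 3 eng mog cd0q1 cd2q3 pd3 2 true false false .dn 1 3 3 (qsf 536870912 536870912 0 1230186008 3) ndB0q1 ndB2q3 pcB3 Cut.none Ext.none)

def k0_mm_133 : ∃ t, chk3 f_mm_133 t 1 1 1 = true :=
  ⟨(l 5), by decide +kernel⟩

theorem c_mm_133 : CertB 536870912 536870912 0 1230186008 858993459 64424510 3 eng mog cd0q1 cd2q3 pd3 true false false .dn 1 3 3
    ndB0q1 ndB2q3 pcB3 Cut.none Ext.none :=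
  certB2 (fam := true) (s1 := false) (s2 := false) (a := 1) (b := 3) (c := 3) (cn := .dn) (n1 := ndB0q1) (n2 := ndB2q3) (pc := pcB3) (cut := Cut.none) (xt := Ext.none) (P1 := 536870912) (W1 := 536870912) (P2 := 0) (W2 := 1230186008) (P3 := 858993459) (W3 := 64424510) (N0 := 3) (En := eng) (mo := mog) (C1 := cd0q1) (C2 := cd2q3) (C3 := pd3)
    rfl (fun _ => rfl) k0_mm_133

end Pool.Agent.Strip051.G.I8000_8600.Tab.C.BA02

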