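import Pool.Agent.Strip051.G.I8000_8600.Tab

/-! # Certificates B7 (generated) -/

set_option linter.all false
set_option maxRecDepth 100000

namespace Pool.Agent.Strip051.G.I8000_8600.Tab.C.BA02

open Pool.Agent.Strip051.PB Pool.Agent.Strip051.PB.T
open Pool.Agent.Strip051.G.I8000_8600.Tab

noncomputable def f_mm_202 : ℕ → ℕ → ℕ → ℕ → Bool := onCell 0 536870912 0 536870912 858993459 64424510
    (rowB 3 eng mog cd0q2 cd2q0 pd2 0 true false false .pp 2 0 2 (qsf 0 536870912 0 536870912 2) ndB0q2 ndB2q0 pcB2 Cut.none Ext.none)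

def k0_mm_202 : ∃ t, chk3 f_mm_202 t 1 1 1 = true :=
  ⟨(b (a (a (a (b (b (b (c (l 16452848) (l 16411832)) (l 16272800)) (b (l 16387416) (b (l 16338088) (l 16312912)))) (b (b (b (l 16311560) (l 16320576)) (c (l 16545424) (l 16330248))) (l 4))) (b (b (b (c (l 16451888) (l 16445400)) (c (l 16426392) (l 16465152))) (b (c (l 16392120) (l 16409800)) (b (l 16356296) (c (l 16385600) (l 16330304))))) (b (b (b (l 16174408) (l 16336568)) (l 4)) (l 4)))) (b (a (b (b (b (l 16489568) (l 16474464)) (c (l 16449176) (l 16469424))) (b (c (l 16423352) (l 16423528)) (b (l 28687759415) (l 4)))) (b (b (b (l 16634048) (l 16490816)) (b (l 16483272) (l 16611120))) (b (b (l 16624848) (l 4)) (l 4)))) (l 4))) (a (b (b (a (b (b (a (l 16513024) (l 16519072)) (a (l 16504072) (l 16521944))) (b (a (l 16509064) (l 4)) (l 4))) (b (b (a (c (l 16492024) (l 16532968)) (c (l 16564632) (l 16563112))) (l 4)) (l 4))) (l 4)) (l 4)) (l 4))) (l 4)), by decide +kernel⟩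

theorem c_mm_202 : CertB 0 536870912 0 536870912 858993459 64424510 3 eng mog cd0q2 cd2q0 pd2 true false false .pp 2 0 2
    ndB0q2 ndB2q0 pcB2 Cut.none Ext.none :=
  certB0 (fam := true) (s1 := false) (s2 := false) (a := 2) (b := 0) (c := 2) (cn := .pp) (n1 := ndB0q2) (n2 := ndB2q0) (pc := pcB2) (cut := Cut.none) (xt := Ext.none) (P1 := 0) (W1 := 536870912) (P2 := 0) (W2 := 536870912) (P3 := 858993459) (W3 := 64424510) (N0 := 3) (En := eng) (mo := mog) (C1 := cd0q2) (C2 := cd2q0) (C3 := pd2)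
    rfl k0_mm_202

noncomputable def f_mm_203 : ℕ → ℕ → ℕ → ℕ → Bool := onCell 0 536870912 1610612736 536870912 858993459 64424510
    (rowB 3 eng mog cd0q2 cd2q0 pd3 1 true false false .up 2 0 3 (qsf 0 536870912 0 536870912 3) ndB0q2 ndB2q0 pcB3 Cut.none Ext.none)

def k0_mm_203 : ∃ t, chk3 f_mm_203 t 1 1 1 = true :=
  ⟨(l 4), by decide +kernel⟩

theorem c_mm_203 : CertB 0 536870912 0 536870912 858993459 64424510 3 eng mog cd0q2 cd2q0 pd3 true false false .up 2 0 3
    ndB0q2 ndB2q0 pcB3 Cut.none Ext.none :=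
  certB1 (fam := true) (s1 := false) (s2 := false) (a := 2) (b := 0) (c := 3) (cn := .up) (n1 := ndB0q2) (n2 := ndB2q0) (pc := pcB3) (cut := Cut.none) (xt := Ext.none) (P1 := 0) (W1 := 536870912) (P2 := 0) (W2 := 536870912) (P3 := 858993459) (W3 := 64424510) (N0 := 3) (En := eng) (mo := mog) (C1 := cd0q2) (C2 := cd2q0) (C3 := pd3)
    rfl (fun _ => rfl) k0_mm_203

noncomputable def f_mm_213 : ℕ → ℕ → ℕ → ℕ → Bool := onCell 0 536870912 536870912 536870912 858993459 64424510
    (rowB 3 eng mog cd0q2 cd2q1 pd3 0 true false false .pnn 2 1 3 (qsf 0 536870912 536870912 536870912 3) ndB0q2 ndB2q1 pcB3 Cut.none Ext.none)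

def k0_mm_213 : ∃ t, chk3 f_mm_213 t 1 1 1 = true :=
  ⟨(l 4), by decide +kernel⟩

theorem c_mm_213 : CertB 0 536870912 536870912 536870912 858993459 64424510 3 eng mog cd0q2 cd2q1 pd3 true false false .pnn 2 1 3
    ndB0q2 ndB2q1 pcB3 Cut.none Ext.none :=
  certB0 (fam := true) (s1 := false) (s2 := false) (a := 2) (b := 1) (c := 3) (cn := .pnn) (n1 := ndB0q2) (n2 := ndB2q1) (pc := pcB3) (cut := Cut.none) (xt := Ext.none) (P1 := 0) (W1 := 536870912) (P2 := 536870912) (W2 := 536870912) (P3 := 858993459) (W3 := 64424510) (N0 := 3) (En := eng) (mo := mog) (C1 := cd0q2) (C2 := cd2q1) (C3 := pd3)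
    rfl k0_mm_213

end Pool.Agent.Strip051.G.I8000_8600.Tab.C.BA02

namespace Pool.Agent.Strip051.G.I8000_8600.Tab.C.BA03

open Pool.Agent.Strip051.PB Pool.Agent.Strip051.PB.T
open Pool.Agent.Strip051.G.I8000_8600.Tab

noncomputable def f_pp_001 : ℕ → ℕ → ℕ → ℕ → Bool := onCell 0 536870912 0 536870912 858993459 64424510
    (rowB 3 eng mog cd0q0 cd3q0 pd1 0 true true true .up 0 0 1 (qsf 0 536870912 0 536870912 1) ndB0q0 ndB3q0 pcB1 Cut.none Ext.none)

def k0_pp_001 : ∃ t, chk3 f_pp_001 t 1 1 1 = true :=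
  ⟨(l 4), by decide +kernel⟩

theorem c_pp_001 : CertB 0 536870912 0 536870912 858993459 64424510 3 eng mog cd0q0 cd3q0 pd1 true true true .up 0 0 1
    ndB0q0 ndB3q0 pcB1 Cut.none Ext.none :=
  certB0 (fam := true) (s1 := true) (s2 := true) (a := 0) (b := 0) (c := 1) (cn := .up) (n1 := ndB0q0) (n2 := ndB3q0) (pc := pcB1) (cut := Cut.none) (xt := Ext.none) (P1 := 0) (W1 := 536870912) (P2 := 0) (W2 := 536870912) (P3 := 858993459) (W3 := 64424510) (N0 := 3) (En := eng) (mo := mog) (C1 := cd0q0) (C2 := cd3q0) (C3 := pd1)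
    rfl k0_pp_001

noncomputable def f_pp_011 : ℕ → ℕ → ℕ → ℕ → Bool := onCell 0 536870912 536870912 536870912 858993459 64424510
    (rowB 3 eng mog cd0q0 cd3q1 pd1 0 true true true .pnn 0 1 1 (qsf 0 536870912 536870912 536870912 1) ndB0q0 ndB3q1 pcB1 Cut.none Ext.none)

def k0_pp_011 : ∃ t, chk3 f_pp_011 t 1 1 1 = true :=
  ⟨(l 4), by decide +kernel⟩

theorem c_pp_011 : CertB 0 536870912 536870912 536870912 858993459 64424510 3 eng mog cd0q0 cd3q1 pd1 true true true .pnn 0 1 1
    ndB0q0 ndB3q1 pcB1 Cut.none Ext.none :=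
  certB0 (fam := true) (s1 := true) (s2 := true) (a := 0) (b := 1) (c := 1) (cn := .pnn) (n1 := ndB0q0) (n2 := ndB3q1) (pc := pcB1) (cut := Cut.none) (xt := Ext.none) (P1 := 0) (W1 := 536870912) (P2 := 536870912) (W2 := 536870912) (P3 := 858993459) (W3 := 64424510) (N0 := 3) (En := eng) (mo := mog) (C1 := cd0q0) (C2 := cd3q1) (C3 := pd1)
    rfl k0_pp_011

noncomputable def f_pp_012 : ℕ → ℕ → ℕ → ℕ → Bool := onCell 0 536870912 536870912 536870912 858993459 64424510
    (rowB 3 eng mog cd0q0 cd3q1 pd2 0 true true true .pnp 0 1 2 (qsf 0 536870912 536870912 536870912 2) ndB0q0 ndB3q1 pcB2 Cut.none Ext.none)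

def k0_pp_012 : ∃ t, chk3 f_pp_012 t 1 1 1 = true :=
  ⟨(l 4), by decide +kernel⟩

theorem c_pp_012 : CertB 0 536870912 536870912 536870912 858993459 64424510 3 eng mog cd0q0 cd3q1 pd2 true true true .pnp 0 1 2
    ndB0q0 ndB3q1 pcB2 Cut.none Ext.none :=
  certB0 (fam := true) (s1 := true) (s2 := true) (a := 0) (b := 1) (c := 2) (cn := .pnp) (n1 := ndB0q0) (n2 := ndB3q1) (pc := pcB2) (cut := Cut.none) (xt := Ext.none) (P1 := 0) (W1 := 536870912) (P2 := 536870912) (W2 := 536870912) (P3 := 858993459) (W3 := 64424510) (N0 := 3) (En := eng) (mo := mog) (C1 := cd0q0) (C2 := cd3q1) (C3 := pd2)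
    rfl k0_pp_012

noncomputable def f_pp_022 : ℕ → ℕ → ℕ → ℕ → Bool := onCell 0 536870912 1073741824 536870912 858993459 64424510
    (rowB 3 eng mog cd0q0 cd3q2 pd2 0 true true true .pp 0 2 2 (qsf 0 536870912 1073741824 536870912 2) ndB0q0 ndB3q2 pcB2 Cut.none Ext.none)

def k0_pp_022 : ∃ t, chk3 f_pp_022 t 1 1 1 = true :=
  ⟨(l 4), by decide +kernel⟩

theorem c_pp_022 : CertB 0 536870912 1073741824 536870912 858993459 64424510 3 eng mog cd0q0 cd3q2 pd2 true true true .pp 0 2 2
    ndB0q0 ndB3q2 pcB2 Cut.none Ext.none :=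
  certB0 (fam := true) (s1 := true) (s2 := true) (a := 0) (b := 2) (c := 2) (cn := .pp) (n1 := ndB0q0) (n2 := ndB3q2) (pc := pcB2) (cut := Cut.none) (xt := Ext.none) (P1 := 0) (W1 := 536870912) (P2 := 1073741824) (W2 := 536870912) (P3 := 858993459) (W3 := 64424510) (N0 := 3) (En := eng) (mo := mog) (C1 := cd0q0) (C2 := cd3q2) (C3 := pd2)
    rfl k0_pp_022

noncomputable def f_pp_023 : ℕ → ℕ → ℕ → ℕ → Bool := onCell 0 536870912 1073741824 536870912 858993459 64424510
    (rowB 3 eng mog cd0q0 cd3q2 pd3 0 true true true .up 0 2 3 (qsf 0 536870912 1073741824 536870912 3) ndB0q0 ndB3q2 pcB3 Cut.none Ext.none)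

def k0_pp_023 : ∃ t, chk3 f_pp_023 t 1 1 1 = true :=
  ⟨(l 4), by decide +kernel⟩

theorem c_pp_023 : CertB 0 536870912 1073741824 536870912 858993459 64424510 3 eng mog cd0q0 cd3q2 pd3 true true true .up 0 2 3
    ndB0q0 ndB3q2 pcB3 Cut.none Ext.none :=
  certB0 (fam := true) (s1 := true) (s2 := true) (a := 0) (b := 2) (c := 3) (cn := .up) (n1 := ndB0q0) (n2 := ndB3q2) (pc := pcB3) (cut := Cut.none) (xt := Ext.none) (P1 := 0) (W1 := 536870912) (P2 := 1073741824) (W2 := 536870912) (P3 := 858993459) (W3 := 64424510) (N0 := 3) (En := eng) (mo := mog) (C1 := cd0q0) (C2 := cd3q2) (C3 := pd3)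
    rfl k0_pp_023

noncomputable def f_pp_033 : ℕ → ℕ → ℕ → ℕ → Bool := onCell 0 536870912 0 1230186008 858993459 64424510
    (rowB 3 eng mog cd0q0 cd3q3 pd3 0 true true true .pnn 0 3 3 (qsf 0 536870912 0 1230186008 3) ndB0q0 ndB3q3 pcB3 Cut.none Ext.none)

def k0_pp_033 : ∃ t, chk3 f_pp_033 t 1 1 1 = true :=
  ⟨(b (l 4) (l 4)), by decide +kernel⟩

theorem c_pp_033 : CertB 0 536870912 0 1230186008 858993459 64424510 3 eng mog cd0q0 cd3q3 pd3 true true true .pnn 0 3 3
    ndB0q0 ndB3q3 pcB3 Cut.none Ext.none :=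
  certB0 (fam := true) (s1 := true) (s2 := true) (a := 0) (b := 3) (c := 3) (cn := .pnn) (n1 := ndB0q0) (n2 := ndB3q3) (pc := pcB3) (cut := Cut.none) (xt := Ext.none) (P1 := 0) (W1 := 536870912) (P2 := 0) (W2 := 1230186008) (P3 := 858993459) (W3 := 64424510) (N0 := 3) (En := eng) (mo := mog) (C1 := cd0q0) (C2 := cd3q3) (C3 := pd3)
    rfl k0_pp_033

noncomputable def f_pp_101 : ℕ → ℕ → ℕ → ℕ → Bool := onCell 536870912 536870912 0 536870912 858993459 64424510
    (rowB 3 eng mog cd0q1 cd3q0 pd1 0 true true true .npn 1 0 1 (qsf 536870912 536870912 0 536870912 1) ndB0q1 ndB3q0 pcB1 Cut.none Ext.none)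

def k0_pp_101 : ∃ t, chk3 f_pp_101 t 1 1 1 = true :=
  ⟨(l 4), by decide +kernel⟩

theorem c_pp_101 : CertB 536870912 536870912 0 536870912 858993459 64424510 3 eng mog cd0q1 cd3q0 pd1 true true true .npn 1 0 1
    ndB0q1 ndB3q0 pcB1 Cut.none Ext.none :=
  certB0 (fam := true) (s1 := true) (s2 := true) (a := 1) (b := 0) (c := 1) (cn := .npn) (n1 := ndB0q1) (n2 := ndB3q0) (pc := pcB1) (cut := Cut.none) (xt := Ext.none) (P1 := 536870912) (W1 := 536870912) (P2 := 0) (W2 := 536870912) (P3 := 858993459) (W3 := 64424510) (N0 := 3) (En := eng) (mo := mog) (C1 := cd0q1) (C2 := cd3q0) (C3 := pd1)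
    rfl k0_pp_101

noncomputable def f_pp_102 : ℕ → ℕ → ℕ → ℕ → Bool := onCell 536870912 536870912 0 536870912 858993459 64424510
    (rowB 3 eng mog cd0q1 cd3q0 pd2 0 true true true .npp 1 0 2 (qsf 536870912 536870912 0 536870912 2) ndB0q1 ndB3q0 pcB2 Cut.none Ext.none)

def k0_pp_102 : ∃ t, chk3 f_pp_102 t 1 1 1 = true :=
  ⟨(l 4), by decide +kernel⟩

theorem c_pp_102 : CertB 536870912 536870912 0 536870912 858993459 64424510 3 eng mog cd0q1 cd3q0 pd2 true true true .npp 1 0 2
    ndB0q1 ndB3q0 pcB2 Cut.none Ext.none :=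
  certB0 (fam := true) (s1 := true) (s2 := true) (a := 1) (b := 0) (c := 2) (cn := .npp) (n1 := ndB0q1) (n2 := ndB3q0) (pc := pcB2) (cut := Cut.none) (xt := Ext.none) (P1 := 536870912) (W1 := 536870912) (P2 := 0) (W2 := 536870912) (P3 := 858993459) (W3 := 64424510) (N0 := 3) (En := eng) (mo := mog) (C1 := cd0q1) (C2 := cd3q0) (C3 := pd2)
    rfl k0_pp_102

noncomputable def f_pp_112 : ℕ → ℕ → ℕ → ℕ → Bool := onCell 536870912 536870912 536870912 536870912 858993459 64424510
    (rowB 3 eng mog cd0q1 cd3q1 pd2 0 true true true .dn 1 1 2 (qsf 536870912 536870912 536870912 536870912 2) ndB0q1 ndB3q1 pcB2 Cut.none Ext.none)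

def k0_pp_112 : ∃ t, chk3 f_pp_112 t 1 1 1 = true :=
  ⟨(l 4), by decide +kernel⟩

theorem c_pp_112 : CertB 536870912 536870912 536870912 536870912 858993459 64424510 3 eng mog cd0q1 cd3q1 pd2 true true true .dn 1 1 2
    ndB0q1 ndB3q1 pcB2 Cut.none Ext.none :=
  certB0 (fam := true) (s1 := true) (s2 := true) (a := 1) (b := 1) (c := 2) (cn := .dn) (n1 := ndB0q1) (n2 := ndB3q1) (pc := pcB2) (cut := Cut.none) (xt := Ext.none) (P1 := 536870912) (W1 := 536870912) (P2 := 536870912) (W2 := 536870912) (P3 := 858993459) (W3 := 64424510) (N0 := 3) (En := eng) (mo := mog) (C1 := cd0q1) (C2 := cd3q1) (C3 := pd2)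
    rfl k0_pp_112

noncomputable def f_pp_113 : ℕ → ℕ → ℕ → ℕ → Bool := onCell 536870912 536870912 536870912 536870912 858993459 64424510
    (rowB 3 eng mog cd0q1 cd3q1 pd3 0 true true true .nn 1 1 3 (qsf 536870912 536870912 536870912 536870912 3) ndB0q1 ndB3q1 pcB3 Cut.none Ext.none)

def k0_pp_113 : ∃ t, chk3 f_pp_113 t 1 1 1 = true :=
  ⟨(l 4), by decide +kernel⟩

theorem c_pp_113 : CertB 536870912 536870912 536870912 536870912 858993459 64424510 3 eng mog cd0q1 cd3q1 pd3 true true true .nn 1 1 3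
    ndB0q1 ndB3q1 pcB3 Cut.none Ext.none :=
  certB0 (fam := true) (s1 := true) (s2 := true) (a := 1) (b := 1) (c := 3) (cn := .nn) (n1 := ndB0q1) (n2 := ndB3q1) (pc := pcB3) (cut := Cut.none) (xt := Ext.none) (P1 := 536870912) (W1 := 536870912) (P2 := 536870912) (W2 := 536870912) (P3 := 858993459) (W3 := 64424510) (N0 := 3) (En := eng) (mo := mog) (C1 := cd0q1) (C2 := cd3q1) (C3 := pd3)
    rfl k0_pp_113

noncomputable def f_pp_123 : ℕ → ℕ → ℕ → ℕ → Bool := onCell 536870912 536870912 1073741824 536870912 858993459 64424510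
    (rowB 3 eng mog cd0q1 cd3q2 pd3 0 true true true .npn 1 2 3 (qsf 536870912 536870912 1073741824 536870912 3) ndB0q1 ndB3q2 pcB3 Cut.none Ext.none)

def k0_pp_123 : ∃ t, chk3 f_pp_123 t 1 1 1 = true :=
  ⟨(l 4), by decide +kernel⟩

theorem c_pp_123 : CertB 536870912 536870912 1073741824 536870912 858993459 64424510 3 eng mog cd0q1 cd3q2 pd3 true true true .npn 1 2 3
    ndB0q1 ndB3q2 pcB3 Cut.none Ext.none :=
  certB0 (fam := true) (s1 := true) (s2 := true) (a := 1) (b := 2) (c := 3) (cn := .npn) (n1 := ndB0q1) (n2 := ndB3q2) (pc := pcB3) (cut := Cut.none) (xt := Ext.none) (P1 := 536870912) (W1 := 536870912) (P2 := 1073741824) (W2 := 536870912) (P3 := 858993459) (W3 := 64424510) (N0 := 3) (En := eng) (mo := mog) (C1 := cd0q1) (C2 := cd3q2) (C3 := pd3)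
    rfl k0_pp_123

noncomputable def f_pp_133 : ℕ → ℕ → ℕ → ℕ → Bool := onCell 536870912 536870912 0 1230186008 858993459 64424510
    (rowB 3 eng mog cd0q1 cd3q3 pd3 0 true true true .dn 1 3 3 (qsf 536870912 536870912 0 1230186008 3) ndB0q1 ndB3q3 pcB3 Cut.none Ext.none)

def k0_pp_133 : ∃ t, chk3 f_pp_133 t 1 1 1 = true :=
  ⟨(l 4), by decide +kernel⟩

theorem c_pp_133 : CertB 536870912 536870912 0 1230186008 858993459 64424510 3 eng mog cd0q1 cd3q3 pd3 true true true .dn 1 3 3
    ndB0q1 ndB3q3 pcB3 Cut.none Ext.none :=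
  certB0 (fam := true) (s1 := true) (s2 := true) (a := 1) (b := 3) (c := 3) (cn := .dn) (n1 := ndB0q1) (n2 := ndB3q3) (pc := pcB3) (cut := Cut.none) (xt := Ext.none) (P1 := 536870912) (W1 := 536870912) (P2 := 0) (W2 := 1230186008) (P3 := 858993459) (W3 := 64424510) (N0 := 3) (En := eng) (mo := mog) (C1 := cd0q1) (C2 := cd3q3) (C3 := pd3)
    rfl k0_pp_133

noncomputable def f_pp_202 : ℕ → ℕ → ℕ → ℕ → Bool := onCell 0 536870912 0 536870912 858993459 64424510
    (rowB 3 eng mog cd0q2 cd3q0 pd2 0 true true true .pp 2 0 2 (qsf 0 536870912 0 536870912 2) ndB0q2 ndB3q0 pcB2 Cut.none Ext.none)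

def k0_pp_202 : ∃ t, chk3 f_pp_202 t 1 1 1 = true :=
  ⟨(l 5), by decide +kernel⟩

theorem c_pp_202 : CertB 0 536870912 0 536870912 858993459 64424510 3 eng mog cd0q2 cd3q0 pd2 true true true .pp 2 0 2
    ndB0q2 ndB3q0 pcB2 Cut.none Ext.none :=
  certB0 (fam := true) (s1 := true) (s2 := true) (a := 2) (b := 0) (c := 2) (cn := .pp) (n1 := ndB0q2) (n2 := ndB3q0) (pc := pcB2) (cut := Cut.none) (xt := Ext.none) (P1 := 0) (W1 := 536870912) (P2 := 0) (W2 := 536870912) (P3 := 858993459) (W3 := 64424510) (N0 := 3) (En := eng) (mo := mog) (C1 := cd0q2) (C2 := cd3q0) (C3 := pd2)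
    rfl k0_pp_202

noncomputable def f_pp_203 : ℕ → ℕ → ℕ → ℕ → Bool := onCell 0 536870912 0 536870912 858993459 64424510
    (rowB 3 eng mog cd0q2 cd3q0 pd3 0 true true true .up 2 0 3 (qsf 0 536870912 0 536870912 3) ndB0q2 ndB3q0 pcB3 Cut.none Ext.none)

def k0_pp_203 : ∃ t, chk3 f_pp_203 t 1 1 1 = true :=
  ⟨(l 5), by decide +kernel⟩

theorem c_pp_203 : CertB 0 536870912 0 536870912 858993459 64424510 3 eng mog cd0q2 cd3q0 pd3 true true true .up 2 0 3
    ndB0q2 ndB3q0 pcB3 Cut.none Ext.none :=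
  certB0 (fam := true) (s1 := true) (s2 := true) (a := 2) (b := 0) (c := 3) (cn := .up) (n1 := ndB0q2) (n2 := ndB3q0) (pc := pcB3) (cut := Cut.none) (xt := Ext.none) (P1 := 0) (W1 := 536870912) (P2 := 0) (W2 := 536870912) (P3 := 858993459) (W3 := 64424510) (N0 := 3) (En := eng) (mo := mog) (C1 := cd0q2) (C2 := cd3q0) (C3 := pd3)
    rfl k0_pp_203

noncomputable def f_pp_213 : ℕ → ℕ → ℕ → ℕ → Bool := onCell 0 536870912 536870912 536870912 858993459 64424510
    (rowB 3 eng mog cd0q2 cd3q1 pd3 0 true true true .pnn 2 1 3 (qsf 0 536870912 536870912 536870912 3) ndB0q2 ndB3q1 pcB3 Cut.none Ext.none)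

def k0_pp_213 : ∃ t, chk3 f_pp_213 t 1 1 1 = true :=
  ⟨(l 4), by decide +kernel⟩

theorem c_pp_213 : CertB 0 536870912 536870912 536870912 858993459 64424510 3 eng mog cd0q2 cd3q1 pd3 true true true .pnn 2 1 3
    ndB0q2 ndB3q1 pcB3 Cut.none Ext.none :=
  certB0 (fam := true) (s1 := true) (s2 := true) (a := 2) (b := 1) (c := 3) (cn := .pnn) (n1 := ndB0q2) (n2 := ndB3q1) (pc := pcB3) (cut := Cut.none) (xt := Ext.none) (P1 := 0) (W1 := 536870912) (P2 := 536870912) (W2 := 536870912) (P3 := 858993459) (W3 := 64424510) (N0 := 3) (En := eng) (mo := mog) (C1 := cd0q2) (C2 := cd3q1) (C3 := pd3)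
    rfl k0_pp_213

noncomputable def f_pm_001 : ℕ → ℕ → ℕ → ℕ → Bool := onCell 0 536870912 536870912 536870912 858993459 64424510
    (rowB 3 eng mog cd0q0 cd3q0 pd1 1 true true false .up 0 0 1 (qsf 0 536870912 0 536870912 1) ndB0q0 ndB3q0 pcB1 Cut.none Ext.none)

def k0_pm_001 : ∃ t, chk3 f_pm_001 t 1 2 1 = true :=
  ⟨(l 3), by decide +kernel⟩

def k1_pm_001 : ∃ t, chk3 f_pm_001 t 1 6 1 = true :=
  ⟨(l 3), by decide +kernel⟩

def k2_pm_001 : ∃ t, chk3 f_pm_001 t 2 14 1 = true :=
  ⟨(l 2), by decide +kernel⟩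

def k3_pm_001 : ∃ t, chk3 f_pm_001 t 3 28 1 = true :=
  ⟨(b (l 3) (a (l 2) (b (l 3) (a (l 3) (a (l 3) (a (b (l 3) (c (c (l 170355123591) (l 183776863735)) (c (l 192366728327) (a (l 3) (l 222968235783))))) (c (c (l 161765143175) (l 207399067831)) (c (b (l 219210250999) (l 188071723991)) (b (a (l 3) (l 258938564727)) (a (l 200419638887) (l 16275952))))))))))), by decide +kernel⟩

def k4_pm_001 : ∃ t, chk3 f_pm_001 t 3 29 1 = true :=
  ⟨(a (l 2) (b (b (a (b (l 3) (a (l 2) (a (l 3) (a (l 3) (a (l 3) (c (l 280413565623) (l 228337061959))))))) (a (a (b (l 3) (c (c (l 16423728) (l 16425760)) (c (c (l 16382064) (l 16363640)) (c (l 213841567527) (l 217062744183))))) (c (c (l 163375816839) (l 210083499319)) (c (c (l 193440534871) (l 199346072391)) (b (a (l 212767740327) (l 210620233527)) (a (l 16313280) (l 16301736)))))) (c (c (a (l 16381200) (l 16361008)) (a (l 16346272) (l 16342656))) (a (c (b (l 168207524071) (l 16326616)) (b (a (l 16297504) (l 16287208)) (l 16285312)))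 (c (b (l 16314768) (l 16306944)) (b (l 16272640) (l 16265000))))))) (a (a (l 2) (c (c (a (c (l 142974796951) (l 115594407303)) (l 80697808391)) (a (l 191830022023) (c (l 16427912) (l 16415880)))) (c (a (c (l 16432504) (l 239611441831)) (b (l 16384296) (l 16389432))) (a (b (l 241758857527) (l 16363472)) (b (c (l 16365000) (l 115057319975)) (l 16349192)))))) (a (a (c (c (l 16412944) (l 16405416)) (c (b (l 16367064) (l 16361224)) (c (l 16334456) (l 16312016)))) (c (c (l 16388448) (l 16369824)) (b (c (l 16342048) (l 16301240)) (l 16295536)))) (c (c (l 16376424) (a (l 16347160) (l 16326976))) (a (c (l 16316000) (l 16275104)) (c (l 16295488) (l 16253792))))))) (b (a (a (l 2) (a (a (l 2) (a (l 2) (c (l 16332016) (l 16382872)))) (c (b (l 16423176) (l 16417120)) (a (l 16378808) (l 16355632))))) (c (a (c (l 16386672) (l 16369216)) (c (l 16340640) (l 16322312))) (a (a (b (l 16336656) (l 16331320)) (l 16286456)) (a (l 16283224) (l 16261112))))) (a (a (l 2) (a (l 2) (c (l 16406168)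 (l 16374936)))) (c (a (c (l 16373616) (l 16356920)) (l 16319224)) (a (c (l 16327768) (l 16267824)) (l 16260992))))))), by decide +kernel⟩

def k5_pm_001 : ∃ t, chk3 f_pm_001 t 1 15 1 = true :=
  ⟨(a (l 2) (a (l 2) (a (a (l 2) (a (l 2) (b (b (c (l 16463592) (l 16277888)) (l 2)) (l 2)))) (a (b (c (c (l 16455104) (b (l 16339312) (l 16317144))) (b (c (b (l 16316712) (l 16305952)) (l 16252552)) (l 16273440))) (a (l 2) (c (l 16273576) (l 16228512)))) (b (c (c (l 16335656) (l 16317040)) (b (b (l 16245200) (l 16232288)) (l 16213512))) (c (l 16282400) (b (l 16189808) (l 16168032)))))))), by decide +kernel⟩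

theorem s6_pm_001 : ∃ t, chk3 f_pm_001 t 3 14 1 = true := ex3_b k3_pm_001 k4_pm_001

theorem s7_pm_001 : ∃ t, chk3 f_pm_001 t 1 14 1 = true := ex3_a k2_pm_001 s6_pm_001

theorem s8_pm_001 : ∃ t, chk3 f_pm_001 t 1 7 1 = true := ex3_b s7_pm_001 k5_pm_001

theorem s9_pm_001 : ∃ t, chk3 f_pm_001 t 1 3 1 = true := ex3_b k1_pm_001 s8_pm_001

theorem s10_pm_001 : ∃ t, chk3 f_pm_001 t 1 1 1 = true := ex3_b k0_pm_001 s9_pm_001

theorem c_pm_001 : CertB 0 536870912 0 536870912 858993459 64424510 3 eng mog cd0q0 cd3q0 pd1 true true false .up 0 0 1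
    ndB0q0 ndB3q0 pcB1 Cut.none Ext.none :=
  certB1 (fam := true) (s1 := true) (s2 := false) (a := 0) (b := 0) (c := 1) (cn := .up) (n1 := ndB0q0) (n2 := ndB3q0) (pc := pcB1) (cut := Cut.none) (xt := Ext.none) (P1 := 0) (W1 := 536870912) (P2 := 0) (W2 := 536870912) (P3 := 858993459) (W3 := 64424510) (N0 := 3) (En := eng) (mo := mog) (C1 := cd0q0) (C2 := cd3q0) (C3 := pd1)
    rfl (fun _ => rfl) s10_pm_001

noncomputable def cut_pm_011 : Cut := Cut.of [[⟨0, 0, 0, 67108864⟩, ⟨1, 1, 0, 67108864⟩, ⟨2, 1, 0, 67108864⟩]]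

noncomputable def f_pm_011 : ℕ → ℕ → ℕ → ℕ → Bool := onCell 0 536870912 536870912 536870912 858993459 64424510
    (rowB 3 eng mog cd0q0 cd3q1 pd1 1 true true false .pnn 0 1 1 (qsf 0 536870912 536870912 536870912 1) ndB0q0 ndB3q1 pcB1 cut_pm_011 Ext.none)

def k0_pm_011 : ∃ t, chk3 f_pm_011 t 1 2 1 = true :=
  ⟨(l 3), by decide +kernel⟩

def k1_pm_011 : ∃ t, chk3 f_pm_011 t 1 6 1 = true :=
  ⟨(l 3), by decide +kernel⟩

def k2_pm_011 : ∃ t, chk3 f_pm_011 t 1 14 1 = true :=
  ⟨(a (l 3) (b (a (l 3) (a (l 3) (l 1))) (a (a (l 3) (b (l 3) (b (a (l 3) (c (a (l 97340954039) (l 16524928)) (a (l 135458774631) (l 16522072)))) (a (a (c (l 124184523623) (l 142438134887)) (c (l 16547576) (l 16525768))) (c (a (l 16507688) (l 16488880)) (a (l 16506680) (l 16487752))))))) (b (a (b (a (l 3) (a (l 3) (l 1))) (a (a (l 3) (c (l 104857068887) (l 16502200))) (a (c (l 115057572215) (l 16455984)) (b (l 1) (l 177737232647))))) (l 1)) (a (b (c (a (a (l 16484160) (l 16462208)) (l 16471208))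 (a (a (l 16481536) (l 16462096)) (l 16433016))) (c (a (l 16457608) (l 16413944)) (a (l 16459080) (l 16420240)))) (a (c (l 168073473959) (l 16429424)) (l 1))))))), by decide +kernel⟩

def k3_pm_011 : ∃ t, chk3 f_pm_011 t 2 30 1 = true :=
  ⟨(a (l 3) (a (a (l 3) (b (l 3) (b (l 3) (b (a (l 3) (a (a (l 3) (b (l 3) (l 175187447431))) (c (l 164986889415) (l 153175725335)))) (c (a (a (l 161765702151) (l 16661096)) (b (l 16650072) (l 16645864))) (a (c (l 159618195783) (a (l 149954548055) (l 16660648))) (a (l 16652704) (l 16644424)))))))) (a (b (l 3) (a (b (a (l 3) (b (l 3) (c (l 117742240663) (l 116131621911)))) (b (a (c (l 16643224) (l 16649624)) (c (l 16634208) (l 16635840))) (c (l 16630520) (l 16631728)))) (b (b (a (l 3) (c (l 16641768) (l 78013786839))) (c (c (l 16637816) (l 16638800)) (c (l 16639832) (l 16640904)))) (c (b (l 16620152) (l 16612792)) (b (l 16622264) (l 16614272)))))) (b (b (l 3) (a (l 3) (b (l 3) (c (l 16605424) (l 16607688))))) (b (a (c (c (l 16633144)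 (l 16634280)) (b (l 16629376) (l 16611304))) (c (l 16593728) (l 16596496))) (c (a (l 16597688) (l 16578992)) (a (l 16600136) (l 16581680)))))))), by decide +kernel⟩

def k4_pm_011 : ∃ t, chk3 f_pm_011 t 3 30 1 = true :=
  ⟨(a (a (b (b (a (a (l 3) (a (l 3) (b (l 3) (l 16589464)))) (a (c (l 119889599959) (l 133311374471)) (b (l 133848188839) (l 16545784)))) (a (a (c (b (l 16594288) (l 16586216)) (l 117742142167)) (c (l 16571264) (l 16573656))) (c (l 16564256) (l 16566600)))) (b (a (c (l 16586624) (l 16589624)) (c (l 16528632) (l 16531392))) (a (c (l 16551056) (l 16553792)) (c (l 16514240) (l 16516456))))) (b (b (c (a (l 16541944) (l 16483976)) (a (l 16542784) (l 16484304))) (a (c (l 16506440) (l 16508272)) (c (l 16469080) (l 16470656)))) (a (c (l 16484864) (l 16486480)) (c (l 16445224) (l 16448712))))) (a (a (b (c (l 16455248) (l 16439256)) (a (l 16469520) (l 16438592))) (c (b (l 16391040) (l 16360392)) (b (l 16400104) (l 16370616)))) (c (a (b (l 16348648) (l 16318672))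 (l 145524749895)) (a (b (l 16360344) (l 16330408)) (l 16347640))))), by decide +kernel⟩

def k5_pm_011 : ∃ t, chk3 f_pm_011 t 8 31 1 = true :=
  ⟨(b (l 3) (a (l 6) (b (b (b (l 3) (a (l 3) (a (l 3) (a (l 3) (b (l 3) (c (l 510195025831) (l 480130238567))))))) (a (l 6) (a (a (b (b (l 3) (l 6)) (l 6)) (c (b (c (l 278803691559) (l 305647222391)) (a (l 16731968) (l 16734856))) (b (b (l 502678830743) (c (l 16731744) (l 16726072))) (c (l 16728752) (l 16723320))))) (c (b (c (a (l 16738064) (l 16733392)) (b (l 294372918599) (l 16719416))) (c (l 16731160) (l 16716152))) (b (c (a (l 158007721575) (l 16723384)) (a (l 254107606327) (l 16717648))) (c (l 16721656) (l 16716216))))))) (a (l 6) (a (a (l 6) (b (b (c (l 16731512) (l 16711712)) (l 6)) (l 6))) (c (b (b (l 16724432) (l 16719864)) (l 16718168)) (b (c (l 16705056) (l 16710632)) (c (l 16707352) (l 16703224))))))))), by decide +kernel⟩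

def k6_pm_011 : ∃ t, chk3 f_pm_011 t 9 62 1 = true :=
  ⟨(b (a (l 3) (a (l 3) (a (l 3) (b (l 3) (b (l 3) (c (l 16692568) (l 400136390903))))))) (b (a (l 3) (c (a (a (l 510194963975) (c (l 16714800) (l 293299106375))) (c (l 16691712) (a (l 16671744) (l 16663952)))) (a (c (a (l 464560934887) (l 298130937223)) (a (l 433959284503) (l 302425897287))) (c (b (l 287393497655) (l 16662520)) (a (l 292225336647) (l 16678640)))))) (a (a (l 3) (a (b (l 3) (c (l 403357673351) (a (l 465097821927) (l 298667831463)))) (c (b (l 504826266743) (l 16693752)) (b (l 453286642231) (a (l 16680936) (l 16697872)))))) (c (a (a (c (l 16704688) (l 16684992)) (l 16694120)) (l 16681648)) (a (a (c (l 284172293975) (l 287393514343)) (b (l 16667424) (l 16684368))) (c (l 16656312) (l 16653024))))))), by decide +kernel⟩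

def k7_pm_011 : ∃ t, chk3 f_pm_011 t 9 63 1 = true :=
  ⟨(b (a (c (a (b (a (b (a (l 3) (l 436643705719)) (c (c (l 16731864) (l 16729552)) (l 293299161175))) (c (b (l 16730920) (l 16721312)) (b (l 295983506023) (l 16695696)))) (a (c (l 16723960) (a (l 16711280) (l 16696120))) (c (l 16714448) (l 16689176)))) (a (b (c (l 16714152) (b (l 16711872) (l 16707552))) (l 16703072)) (b (l 16702888) (l 16693952)))) (a (a (b (b (a (l 3) (l 489257029591)) (a (c (l 233706515383) (l 263771270199)) (c (l 16718248) (l 16712408)))) (c (b (l 16716472) (l 16712384)) (b (l 16710856) (l 16707088)))) (c (b (b (l 298667853143) (l 16711528)) (l 16705400)) (b (b (l 253033841383) (l 16705912)) (l 16700216)))) (b (a (b (c (l 16706856) (l 16701352)) (l 16679224)) (a (l 16674968) (l 16670912))) (c (l 16671368) (l 16666776))))) (c (a (c (l 16697224) (l 16694032)) (c (l 16669448) (l 16667280))) (b (a (a (l 16664992) (l 16657384)) (l 16667624)) (c (l 16683432) (l 16681152))))) (a (c (a (a (b (a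 (l 16715048) (l 16710320)) (l 16703456)) (b (l 16703280) (l 16673072))) (b (l 16699912) (b (l 16661544) (l 16656880)))) (a (b (a (c (l 16706256) (l 16701480)) (l 16674024)) (c (l 16672520) (l 16668632))) (b (b (l 16663184) (l 16659240)) (l 16653320)))) (a (a (c (l 16671376) (l 16645136)) (b (l 16675424) (a (l 16637352) (l 16633328)))) (c (l 16671216) (l 16647648))))), by decide +kernel⟩

def k8_pm_011 : ∃ t, chk3 f_pm_011 t 5 31 1 = true :=
  ⟨(a (b (b (a (a (a (b (l 3) (c (l 120426687623) (c (l 289004107511) (l 294372811863)))) (c (b (l 138143425431) (l 16678464)) (b (c (l 389398971543) (l 376514065239)) (c (l 16654632) (l 16652408))))) (c (b (c (l 16674792) (l 145122716919)) (l 16665928)) (b (c (l 144048960695) (a (l 295983414951) (l 16667528))) (c (l 16664288) (l 16662992))))) (c (a (b (l 16657160) (l 16648616)) (b (l 16639504) (l 16630968))) (a (b (a (l 16660512) (l 16652520)) (l 16648248)) (b (l 16640224) (l 16631920))))) (a (a (c (b (l 16674024) (l 16665312))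 (b (c (l 16671016) (l 16647744)) (l 16661752))) (c (l 16652968) (b (l 16655432) (l 16647272)))) (c (a (l 16635672) (l 16618048)) (a (l 16635928) (l 16619584))))) (b (a (c (a (l 16652056) (l 16635360)) (a (l 16649656) (l 16635136))) (c (c (l 16608984) (l 16609920)) (a (l 16619664) (l 16603288)))) (a (c (a (l 16633944) (l 16617304)) (a (l 16633608) (l 16619032))) (c (c (l 16590720) (l 16592352)) (l 16595496))))) (b (b (a (c (a (l 16617808) (l 16600584)) (a (l 16619208) (l 16601768))) (c (l 16573952) (l 16575160))) (a (c (a (l 16600648) (l 16583488)) (l 16615064)) (c (l 16557568) (l 16558664)))) (a (b (c (l 16595704) (l 16577752)) (c (l 16557008) (l 16561488))) (c (c (l 16531312) (l 16532192)) (l 16534144))))), by decide +kernel⟩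

def k9_pm_011 : ∃ t, chk3 f_pm_011 t 3 31 1 = true :=
  ⟨(a (a (b (a (c (l 16551024) (l 16530288)) (c (l 16492976) (l 16492872))) (a (c (l 16496424) (l 16497688)) (c (l 16459776) (l 16460232)))) (b (a (c (l 16454032) (l 16455240)) (c (l 16413472) (l 16417336))) (a (c (l 16421568) (l 16422528)) (l 16445736)))) (a (a (c (l 16437784) (l 16362016)) (c (l 16357008) (l 16322056))) (c (a (l 16295616) (l 16236544)) (a (l 16281296) (l 16240664))))), by decide +kernel⟩

theorem s10_pm_011 : ∃ t, chk3 f_pm_011 t 9 31 1 = true := ex3_b k6_pm_011 k7_pm_011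

theorem s11_pm_011 : ∃ t, chk3 f_pm_011 t 4 31 1 = true := ex3_a k5_pm_011 s10_pm_011

theorem s12_pm_011 : ∃ t, chk3 f_pm_011 t 2 31 1 = true := ex3_a s11_pm_011 k8_pm_011

theorem s13_pm_011 : ∃ t, chk3 f_pm_011 t 1 31 1 = true := ex3_a s12_pm_011 k9_pm_011

theorem s14_pm_011 : ∃ t, chk3 f_pm_011 t 1 30 1 = true := ex3_a k3_pm_011 k4_pm_011

theorem s15_pm_011 : ∃ t, chk3 f_pm_011 t 1 15 1 = true := ex3_b s14_pm_011 s13_pm_011

theorem s16_pm_011 : ∃ t, chk3 f_pm_011 t 1 7 1 = true := ex3_b k2_pm_011 s15_pm_011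

theorem s17_pm_011 : ∃ t, chk3 f_pm_011 t 1 3 1 = true := ex3_b k1_pm_011 s16_pm_011

theorem s18_pm_011 : ∃ t, chk3 f_pm_011 t 1 1 1 = true := ex3_b k0_pm_011 s17_pm_011

theorem c_pm_011 : CertB 0 536870912 536870912 536870912 858993459 64424510 3 eng mog cd0q0 cd3q1 pd1 true true false .pnn 0 1 1
    ndB0q0 ndB3q1 pcB1 cut_pm_011 Ext.none :=
  certB1 (fam := true) (s1 := true) (s2 := false) (a := 0) (b := 1) (c := 1) (cn := .pnn) (n1 := ndB0q0) (n2 := ndB3q1) (pc := pcB1) (cut := cut_pm_011) (xt := Ext.none) (P1 := 0) (W1 := 536870912) (P2 := 536870912) (W2 := 536870912) (P3 := 858993459) (W3 := 64424510) (N0 := 3) (En := eng) (mo := mog) (C1 := cd0q0) (C2 := cd3q1) (C3 := pd1)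
    rfl (fun _ => rfl) s18_pm_011

noncomputable def cut_pm_012 : Cut := Cut.of [[⟨0, 0, 0, 67108864⟩, ⟨1, 1, 0, 67108864⟩, ⟨2, 1, 0, 67108864⟩]]

noncomputable def f_pm_012 : ℕ → ℕ → ℕ → ℕ → Bool := onCell 0 536870912 1073741824 536870912 858993459 64424510
    (rowB 3 eng mog cd0q0 cd3q1 pd2 1 true true false .pnp 0 1 2 (qsf 0 536870912 536870912 536870912 2) ndB0q0 ndB3q1 pcB2 cut_pm_012 Ext.none)

def k0_pm_012 : ∃ t, chk3 f_pm_012 t 4 16 1 = true :=
  ⟨(a (a (l 6) (a (l 6) (a (l 6) (a (l 6) (a (l 6) (b (c (b (l 16679504) (b (l 16673000) (l 16654512))) (b (l 16670296) (b (l 16659824) (l 16638632)))) (b (c (l 16626552) (l 16606504)) (c (l 16588848) (l 16563064))))))))) (b (a (c (a (b (b (a (l 16698368) (l 16688824)) (l 16661728)) (b (b (l 16648224) (l 16639184)) (a (l 16650072) (l 16642936)))) (b (b (l 16674144) (l 16667296)) (c (l 16643912) (l 16596224)))) (c (a (b (l 16664280) (b (l 16655352) (l 16635208))) (b (l 16670608) (l 16610928))) (b (a (l 16659480)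 (l 16666592)) (a (b (l 16648472) (l 16626896)) (l 16625112))))) (c (a (b (l 16619288) (l 16626952)) (b (l 16634376) (l 16613432))) (a (b (l 16655280) (l 16611256)) (b (l 16637296) (l 16605472))))) (b (a (b (a (c (a (l 16631640) (l 16624792)) (l 16610096)) (c (l 16614600) (l 16598016))) (a (c (a (l 16613088) (l 16606528)) (l 16588888)) (c (l 16596768) (l 16577416)))) (c (a (c (l 16596288) (l 16589008)) (l 16559448)) (a (l 16576928) (l 16567192)))) (a (a (c (a (b (l 16594408) (l 16575616)) (l 16578896)) (c (l 16561432) (l 16544632))) (c (a (l 16572784) (l 16566760)) (a (l 16548728) (l 16543680)))) (c (a (l 16557960) (l 16546824)) (a (l 16536616) (l 16528152))))))), by decide +kernel⟩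

def k1_pm_012 : ∃ t, chk3 f_pm_012 t 8 17 1 = true :=
  ⟨(a (b (l 6) (l 2)) (a (b (l 6) (b (l 6) (l 2))) (a (b (l 6) (b (l 6) (b (l 6) (l 2)))) (a (b (l 6) (b (l 6) (b (l 6) (b (l 6) (l 2))))) (b (c (b (c (l 16558632) (l 16543824)) (b (l 16522376) (l 16502912))) (b (c (l 16527944) (l 16510992)) (c (l 16484712) (l 16464504)))) (c (b (b (l 16483344) (l 16463664)) (b (l 16464848) (b (l 16428960) (l 16418992)))) (b (b (l 16440720) (l 16417824)) (b (l 16415752) (c (l 16385312) (l 16357424)))))))))), by decide +kernel⟩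

def k2_pm_012 : ∃ t, chk3 f_pm_012 t 9 17 1 = true :=
  ⟨(a (b (a (c (b (a (c (l 16554384) (l 16539752)) (l 16531136)) (a (c (l 16517512) (l 16500000)) (c (l 16512312) (l 16495152)))) (b (a (c (l 16524032) (l 16507248)) (l 16500384)) (a (c (l 16481232) (l 16461208)) (c (l 16476736) (l 16457072))))) (c (b (a (l 16536080) (l 16530616)) (a (l 16477928) (l 16493992))) (b (a (l 16506184) (l 16501744)) (a (l 16442008) (l 16459136))))) (a (c (b (a (b (l 16500872) (c (l 16470848) (l 16449624))) (b (l 16475288) (l 16456080))) (a (b (c (l 16452016) (l 16429264)) (c (l 16433080) (l 16408784))) (b (l 16436760) (l 16438312)))) (b (a (b (l 16458632) (c (l 16426904) (l 16402696))) (c (l 16433928) (l 16410944))) (a (b (c (l 16404920) (l 16378992)) (c (l 16382800) (l 16355128))) (c (l 16390536) (l 16364144))))) (c (b (a (b (l 16470712) (l 16451776)) (l 16456904)) (a (b (l 16432728) (l 16413576)) (b (l 16428776) (l 16409896)))) (c (a (b (l 16430192) (l 16387376)) (l 16384656)) (a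 (b (l 16407696) (l 16361488)) (l 16361064)))))) (b (a (c (b (l 16512192) (l 16465920)) (b (l 16474624) (l 16432928))) (c (c (l 16501608) (l 16489008)) (c (l 16475408) (l 16460824)))) (c (a (b (a (l 16452664) (l 16448592)) (a (l 16415664) (l 16412136))) (c (l 16413088) (l 16394896))) (a (c (b (l 16421824) (l 16380472)) (b (l 16400920) (l 16356232))) (c (l 16375312) (l 16375304)))))), by decide +kernel⟩

def k3_pm_012 : ∃ t, chk3 f_pm_012 t 5 8 1 = true :=
  ⟨(c (a (b (a (b (b (a (l 16612088) (l 16589928)) (l 16593072)) (a (b (l 16568192) (l 16535792)) (l 16524000))) (a (b (l 16551776) (l 16526448)) (b (l 16551056) (l 16512472)))) (b (a (a (c (l 16491624) (l 16480440)) (l 16476160)) (a (l 16465280) (l 16453728))) (a (a (b (l 16435288) (l 16400768)) (l 16389424)) (c (l 16382856) (l 16369656))))) (b (b (a (b (l 16512712) (l 16522160)) (l 16471920)) (a (l 16491352) (l 16461856))) (a (b (a (l 16442080) (l 16430336)) (a (l 16383320) (l 16373968))) (b (l 16369944) (l 16359184)))))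 (a (b (b (a (a (l 16561712) (l 16574624)) (c (l 16497576) (l 16486112))) (a (b (l 16552736) (a (l 16519960) (l 16510936))) (a (l 16518296) (l 16506120)))) (a (b (b (l 16477808) (l 16428752)) (a (b (l 16402352) (l 16361784)) (l 16356624))) (b (a (l 16446576) (l 16437104)) (c (l 16355312) (l 16360800))))) (b (a (b (b (l 16463952) (l 16522272)) (l 16486280)) (b (l 16468688) (l 16457224))) (a (b (l 16358496) (l 16353336)) (b (l 16398056) (l 16335488)))))), by decide +kernel⟩

def k4_pm_012 : ∃ t, chk3 f_pm_012 t 8 9 1 = true :=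
  ⟨(b (a (l 2) (b (a (l 2) (b (b (a (l 2) (a (l 2) (c (l 16424136) (l 16369056)))) (l 2)) (l 2))) (l 2))) (l 2)), by decide +kernel⟩

def k5_pm_012 : ∃ t, chk3 f_pm_012 t 18 18 1 = true :=
  ⟨(b (b (a (a (c (b (a (c (l 16414032) (l 16388376)) (l 16420640)) (a (l 16400880) (c (l 16391352) (l 16364832)))) (b (c (l 16381192) (l 16331144)) (a (l 16322976) (l 16342688)))) (c (b (c (l 16409416) (l 16384240)) (c (l 16388824) (l 16362608))) (c (b (l 16357320) (l 16334608)) (l 16316760)))) (c (a (b (l 16393584) (l 16372808)) (b (l 16390200) (l 16369760))) (a (c (l 16343416) (l 16314696)) (c (l 16341064) (l 16312944))))) (b (a (a (a (l 2) (c (l 16356928) (l 16298096))) (c (c (l 16389192) (l 16340920)) (a (l 16318016) (l 16296056)))) (c (a (l 16372960) (l 16349264)) (a (l 16294688) (l 16293080)))) (a (a (l 2) (c (a (l 16334256) (c (l 16346928) (l 16318592))) (a (l 16273440) (l 16272600)))) (c (a (c (l 16344896) (l 16316920)) (l 16328736)) (a (l 16271456) (l 16270152))))))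 (a (b (a (l 2) (a (l 2) (b (c (l 16311872) (l 16249016)) (l 2)))) (l 2)) (c (c (a (b (b (l 16324592) (l 16325248)) (l 16294776)) (b (l 16312240) (b (l 16282216) (l 16262192)))) (a (b (b (l 16295432) (l 16273888)) (l 16241488)) (b (l 16283000) (b (l 16251080) (l 16229728))))) (b (a (b (l 16300520) (a (l 16224816) (l 16224392))) (c (l 16251824) (l 16218712))) (a (b (l 16200976) (l 2)) (c (l 16206560) (l 16170640))))))), by decide +kernel⟩

def k6_pm_012 : ∃ t, chk3 f_pm_012 t 19 18 1 = true :=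
  ⟨(c (b (a (b (a (l 16397872) (l 16373976)) (a (c (l 16349456) (l 16323216)) (l 16334288))) (b (a (l 16371272) (l 16368704)) (a (l 16332224) (l 16330304)))) (a (b (a (c (l 16310128) (l 16281496)) (l 16315368)) (a (c (l 16270712) (l 16239512)) (c (l 16269336) (l 16238808)))) (b (a (l 16292960) (l 16291672)) (a (l 16253504) (l 16252816))))) (b (a (b (a (l 16325440) (l 16323960)) (a (l 16280464) (l 16279592))) (b (l 16343304) (c (l 16292632) (l 16264696)))) (c (a (b (l 16250608) (a (l 16206272) (l 16206240))) (b (l 16249928) (l 16206760))) (a (b (l 16218480) (l 16171288)) (b (l 16219336) (l 16173328)))))), by decide +kernel⟩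

def k7_pm_012 : ∃ t, chk3 f_pm_012 t 9 19 1 = true :=
  ⟨(b (a (a (l 2) (a (l 2) (b (b (c (l 16267464) (l 16153528)) (l 2)) (l 2)))) (c (a (b (a (c (b (l 16241104) (l 16221360)) (l 16218288)) (c (l 16230456) (l 16197200))) (a (b (l 16204832) (l 2)) (b (l 16225776) (c (l 16181600) (l 16144808))))) (b (a (c (l 16229864) (l 16197328)) (l 16213768)) (b (a (l 16184032) (l 16184368)) (a (c (l 16181712) (l 16145656)) (l 16164600))))) (a (b (a (c (l 16161184) (l 16122848)) (l 16185144)) (a (b (l 16107024) (l 2)) (b (l 16108368) (l 16106104)))) (b (c (l 16163160) (l 16126688)) (c (a (l 16118336) (l 16120000)) (l 16079528)))))) (a (l 2) (b (a (a (l 2) (b (c (l 16162592) (l 16063496)) (l 2))) (c (a (c (l 16190992) (l 16113184)) (c (l 16149776) (l 16114640))) (a (c (l 16075104) (l 16034808)) (l 16057824)))) (a (l 2) (c (a (c (l 16104560) (l 16069408)) (c (l 16105928) (l 16071448))) (a (l 16013040) (l 16037080))))))), by decide +kernel⟩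

def k8_pm_012 : ∃ t, chk3 f_pm_012 t 5 9 1 = true :=
  ⟨(a (b (a (c (b (a (b (l 16364712) (l 16327280)) (b (l 16358784) (l 16322640))) (a (b (l 16289584) (l 16251640)) (b (l 16286192) (l 16249464)))) (b (a (b (l 16320368) (l 16278152)) (b (l 16317680) (l 16276712))) (a (b (l 16235360) (l 16192000)) (b (l 16235160) (l 16193016))))) (c (b (a (l 16355584) (l 16327848)) (a (l 16285208) (l 16259984))) (b (a (l 16294088) (l 16289808)) (a (l 16213488) (l 16211752))))) (a (c (b (b (a (l 16255424) (l 16212480)) (a (b (l 16184720) (l 16186352)) (c (l 16190832) (l 16159040)))) (a (b (c (l 16150696) (l 16116704)) (c (l 16107832) (l 16074392))) (b (l 16135352) (c (l 16109784) (l 16077720))))) (b (b (a (l 16148088) (l 16150320)) (a (c (l 16122408) (l 16084448)) (l 16107136))) (a (c (b (l 16080544) (l 16039048)) (l 16022088)) (c (l 16064088) (l 16027824))))) (c (b (b (a (l 16210632) (l 16208168)) (a (l 16174512) (l 16173200))) (a (b (l 16135888) (l 16095784)) (c (l 16131120)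 (l 16101368)))) (b (b (a (l 16151472) (l 16151600)) (a (l 16109496) (l 16110840))) (a (c (l 16067320) (l 16032472)) (l 16053072)))))) (b (c (a (b (a (l 16321024) (l 16314160)) (a (l 16255680) (l 16251336))) (c (l 16282376) (l 16265008))) (a (b (l 16261112) (a (l 16209328) (l 16206176))) (c (l 16245832) (l 16224856)))) (a (c (b (b (l 16204504) (l 16244680)) (a (l 16117032) (l 16117568))) (b (b (l 16150584) (l 16111688)) (c (l 16072368) (l 16039808)))) (c (b (b (l 16198632) (l 16167744)) (l 16117736)) (b (l 16213112) (l 16058880)))))), by decide +kernel⟩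

def k9_pm_012 : ∃ t, chk3 f_pm_012 t 3 4 1 = true :=
  ⟨(a (b (a (b (c (a (b (l 16426392) (l 16429624)) (b (l 16381232) (l 16394296))) (a (b (l 16422648) (l 16426128)) (l 16267784))) (c (a (b (l 16384848) (l 16337128)) (l 16333896)) (a (l 16302952) (l 16320680)))) (b (c (a (b (l 16336568) (l 16355632)) (l 16302536)) (a (l 16347072) (l 16300040))) (c (a (l 16303192) (l 16269200)) (a (l 16294392) (l 16265968))))) (b (a (c (a (b (l 16286168) (l 16232256)) (l 16242328)) (a (l 16224384) (l 16211648))) (c (a (l 16221984) (l 16198400)) (a (l 16197184) (l 16180920)))) (a (c (a (b (l 16176248) (l 16115832)) (b (l 16166496) (l 16111280))) (a (b (l 16126024) (l 16060328)) (l 16070408))) (c (a (b (l 16153664) (l 16103752)) (l 16199640)) (a (l 16129744) (l 16082712)))))) (b (a (b (c (a (l 16258168) (l 16212768)) (a (l 16251816) (l 16202144))) (c (a (l 16232496) (l 16193680)) (l 16304664))) (b (a (c (l 16165016) (l 16151328)) (c (l 16113800) (l 16100456))) (c (a (l 16154048)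 (l 16114808)) (l 16153800)))) (c (a (b (a (l 16172112) (l 16143712)) (a (l 16120744) (l 16081728))) (b (a (l 16114608) (l 16065376)) (a (l 16063088) (l 16045672)))) (a (b (a (l 16163488) (l 16145112)) (a (l 16076776) (l 16070224))) (b (l 16114472) (a (l 16062576) (l 16052456))))))), by decide +kernel⟩

def k10_pm_012 : ∃ t, chk3 f_pm_012 t 4 5 1 = true :=
  ⟨(a (l 2) (b (b (b (b (b (a (l 2) (a (l 2) (c (a (l 2) (l 16056168)) (l 15982864)))) (l 2)) (l 2)) (l 2)) (l 2)) (l 2))), by decide +kernel⟩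

def k11_pm_012 : ∃ t, chk3 f_pm_012 t 10 10 1 = true :=
  ⟨(b (b (a (a (c (b (a (c (l 16063936) (l 16030632)) (l 16091528)) (a (l 16046352) (c (l 16023064) (l 15990704)))) (b (a (l 15977560) (l 15980960)) (a (l 15935616) (l 15939488)))) (c (b (c (l 16068080) (l 16036352)) (c (l 16026336) (l 15994840))) (c (l 15982584) (l 15947952)))) (c (a (b (l 16055432) (l 16014928)) (b (l 16057864) (l 16018536))) (a (c (l 15987888) (l 15954448)) (l 15976272)))) (b (a (a (c (a (l 2) (l 16027680)) (l 15916592)) (c (c (l 16026776) (l 15953376)) (l 15924904))) (c (a (c (l 15989592) (l 15959136)) (l 15979216)) (a (l 15911264) (l 15917640)))) (a (a (l 2) (b (c (a (l 15936856) (l 15940056)) (l 15872992)) (a (l 2) (b (c (l 15925448) (l 15859768)) (c (l 15937472) (l 15848904)))))) (c (b (a (l 15944488) (l 15949944)) (a (b (l 15930088) (c (l 15937040) (l 15905168))) (b (l 15935840) (l 15927136)))) (b (a (l 15881024) (l 15888104)) (a (b (l 15865952) (l 15855264)) (l 15868136))))))) (b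 (a (a (l 2) (c (a (l 2) (l 15892504)) (l 15857016))) (a (c (a (b (l 15895344) (l 15855144)) (l 3857001031)) (c (l 15822744) (l 15784792))) (c (c (l 15901184) (l 15866864)) (l 15812896)))) (a (l 2) (a (c (a (l 2) (l 15798744)) (l 15732024)) (c (c (l 15825416) (l 15785432)) (l 15722248)))))), by decide +kernel⟩

def k12_pm_012 : ∃ t, chk3 f_pm_012 t 11 10 1 = true :=
  ⟨(b (b (a (c (a (l 16041328) (l 16044360)) (a (l 15980584) (l 15984256))) (c (l 16048320) (l 15989208))) (b (a (c (a (l 15983936) (l 15988696)) (l 15926144)) (c (l 15995304) (l 15935800))) (a (b (c (l 15958304) (l 15897680)) (c (b (l 15944672) (a (l 15933088) (l 15939120))) (c (l 15894312) (l 15862256)))) (b (c (l 15968776) (l 15908800)) (c (b (l 15955808) (l 15947696)) (l 15890504)))))) (b (a (c (a (l 15891312) (l 15898512)) (a (l 15821304) (l 15829112))) (c (l 15908872) (l 15840376))) (a (c (a (c (l 15834320) (l 15795088)) (l 15824280)) (a (l 15732960) (l 15743112))) (c (l 15837896) (l 15757928))))),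 by decide +kernel⟩

def k13_pm_012 : ∃ t, chk3 f_pm_012 t 5 11 1 = true :=
  ⟨(a (a (l 2) (b (a (l 2) (a (l 2) (b (c (l 15728296) (l 15633080)) (l 2)))) (l 2))) (a (a (b (c (b (c (l 15759056) (l 15714144)) (l 15678248)) (b (l 15642760) (l 15550848))) (l 2)) (b (c (b (l 15769344) (l 33384631575)) (b (l 15655200) (l 15565456))) (a (l 2) (c (l 15639808) (l 15432152))))) (b (c (a (b (l 15759640) (l 15684224)) (b (l 15770464) (l 15697176))) (a (b (l 15667360) (l 15579880)) (l 15637088))) (c (a (b (l 15607232) (l 15528784)) (b (l 15622280) (l 15545856))) (a (b (l 15490624) (l 15399720)) (b (l 15507192) (l 15418424))))))), by decide +kernel⟩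

def k14_pm_012 : ∃ t, chk3 f_pm_012 t 3 5 1 = true :=
  ⟨(a (b (b (b (a (a (c (l 16051576) (l 15994856)) (c (l 16052312) (l 15999384))) (a (l 16048312) (l 16025640))) (b (a (a (l 15974096) (l 15980200)) (a (l 15984288) (l 15986224))) (a (c (b (l 15981032) (a (l 15961176) (l 15968408))) (a (l 15910440) (l 15920160))) (b (a (l 15962368) (l 15966056)) (a (l 15947704) (l 15952504)))))) (a (a (c (l 15887880) (l 15816120)) (c (l 15899928) (l 15831920))) (a (c (l 15909472) (l 15846712)) (l 15952104)))) (a (b (a (c (a (l 15745488) (l 15756400)) (b (l 15697280) (l 15615576))) (c (l 15771832) (l 15682192))) (a (c (a (b (l 15636880) (l 15562528)) (l 15615080)) (a (l 15480664) (l 15498152))) (c (l 15636872) (l 15524272)))) (a (b (c (l 15790120) (l 15706848)) (c (l 15663704) (l 15558408))) (c (b (l 15805816) (l 15688024)) (b (l 15730656) (l 15591904)))))) (b (a (b (b (a (l 16022288) (l 16017680)) (b (a (l 15986600) (l 15985824)) (b (l 16115872) (a (l 15955848) (l 15958160)))))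 (a (l 15898048) (l 15905984))) (a (b (b (l 16012448) (b (l 15984528) (b (l 15969992) (l 15960104)))) (c (l 15927312) (l 15899616))) (b (b (l 16006864) (b (l 15982896) (l 15966016))) (l 15983872)))) (a (b (a (l 15787960) (l 15805648)) (a (l 15690440) (c (l 15731200) (l 15659400)))) (c (a (b (l 15843704) (l 15752592)) (l 15816704)) (b (a (l 15801792) (l 15823504)) (l 15879392)))))), by decide +kernel⟩

def k15_pm_012 : ∃ t, chk3 f_pm_012 t 2 3 1 = true :=
  ⟨(a (l 2) (b (a (l 2) (b (a (l 2) (a (l 2) (b (c (l 15512536) (l 15282384)) (l 2)))) (l 2))) (l 2))), by decide +kernel⟩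

def k16_pm_012 : ∃ t, chk3 f_pm_012 t 6 3 1 = true :=
  ⟨(b (a (b (b (b (a (c (a (l 15486688) (l 15504944)) (l 15359368)) (c (l 15531416) (l 15400816))) (a (c (l 23720468359) (l 15270576)) (c (l 15459264) (l 15316352)))) (b (a (c (l 15363192) (l 15180320)) (c (l 91366075543) (l 15230224))) (a (l 2) (c (l 15310776) (l 15142544))))) (a (l 2) (a (l 2) (b (c (l 15209080) (l 15023376)) (l 2))))) (b (a (b (c (l 15530784) (l 15402120)) (c (a (l 15381128) (l 15402224)) (a (l 15225552) (l 15251496)))) (c (b (l 15563536) (l 15432888)) (b (l 15444952) (l 15290480)))) (a (b (c (a (l 15234688) (l 15259800)) (l 85996880535)) (c (l 38752312391) (l 14976960))) (c (b (a (l 15284352) (l 15308424)) (a (l 15140856) (l 15168912))) (b (l 15129144) (l 110155778695)))))) (a (l 2) (a (l 2) (b (b (c (l 50026342007) (l 54320892039)) (l 2)) (l 2))))), by decide +kernel⟩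

def k17_pm_012 : ∃ t, chk3 f_pm_012 t 7 3 1 = true :=
  ⟨(b (a (b (a (c (b (l 15594336) (l 15472032)) (b (l 15488016) (l 15342736))) (c (b (l 15624104) (l 15511024)) (b (l 15532200) (l 15397600)))) (a (b (c (l 15343912) (l 15190264)) (c (a (l 15196632) (l 15224672)) (a (l 15013560) (l 15049640)))) (b (c (a (l 15379640) (l 15406192)) (l 15257120)) (c (a (l 15255336) (l 15287704)) (l 15112648))))) (b (c (a (b (l 15655176) (l 15552296)) (l 15639584)) (a (b (l 15579168) (l 15457136)) (l 15568592))) (b (a (c (l 15444784) (l 15329424)) (l 15446664)) (a (c (l 15333440) (l 15197064)) (l 15397872))))) (a (b (a (a (b (c (l 15056336) (l 14846512)) (l 2)) (b (c (b (l 15123768) (l 15056144)) (l 127335582695)) (c (l 165453511415) (l 14770832)))) (b (c (a (l 15128768) (l 15166144)) (a (l 14940072) (l 14989864))) (c (a (l 14999816) (l 15042296)) (l 185317486983)))) (a (l 2) (b (c (l 194981328391) (l 191222790295)) (l 2)))) (b (c (a (b (l 15219016) (l 15102288)) (b (l 15284064)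 (l 15175728))) (a (b (l 15061048) (l 14922384)) (b (l 15148000) (l 15019728)))) (a (b (c (l 15046968) (l 193907355351)) (c (l 216992944663) (l 213771318487))) (b (c (l 15065768) (l 14889632)) (c (l 14955000) (l 14758728))))))), by decide +kernel⟩

theorem s18_pm_012 : ∃ t, chk3 f_pm_012 t 3 3 1 = true := ex3_a k16_pm_012 k17_pm_012

theorem s19_pm_012 : ∃ t, chk3 f_pm_012 t 1 3 1 = true := ex3_a k15_pm_012 s18_pm_012

theorem s20_pm_012 : ∃ t, chk3 f_pm_012 t 5 10 1 = true := ex3_a k11_pm_012 k12_pm_012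

theorem s21_pm_012 : ∃ t, chk3 f_pm_012 t 5 5 1 = true := ex3_b s20_pm_012 k13_pm_012

theorem s22_pm_012 : ∃ t, chk3 f_pm_012 t 2 5 1 = true := ex3_a k10_pm_012 s21_pm_012

theorem s23_pm_012 : ∃ t, chk3 f_pm_012 t 1 5 1 = true := ex3_a s22_pm_012 k14_pm_012

theorem s24_pm_012 : ∃ t, chk3 f_pm_012 t 9 18 1 = true := ex3_a k5_pm_012 k6_pm_012

theorem s25_pm_012 : ∃ t, chk3 f_pm_012 t 9 9 1 = true := ex3_b s24_pm_012 k7_pm_012

theorem s26_pm_012 : ∃ t, chk3 f_pm_012 t 4 9 1 = true := ex3_a k4_pm_012 s25_pm_012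

theorem s27_pm_012 : ∃ t, chk3 f_pm_012 t 2 9 1 = true := ex3_a s26_pm_012 k8_pm_012

theorem s28_pm_012 : ∃ t, chk3 f_pm_012 t 4 17 1 = true := ex3_a k1_pm_012 k2_pm_012

theorem s29_pm_012 : ∃ t, chk3 f_pm_012 t 4 8 1 = true := ex3_b k0_pm_012 s28_pm_012

theorem s30_pm_012 : ∃ t, chk3 f_pm_012 t 2 8 1 = true := ex3_a s29_pm_012 k3_pm_012

theorem s31_pm_012 : ∃ t, chk3 f_pm_012 t 2 4 1 = true := ex3_b s30_pm_012 s27_pm_012

theorem s32_pm_012 : ∃ t, chk3 f_pm_012 t 1 4 1 = true := ex3_a s31_pm_012 k9_pm_012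

theorem s33_pm_012 : ∃ t, chk3 f_pm_012 t 1 2 1 = true := ex3_b s32_pm_012 s23_pm_012

theorem s34_pm_012 : ∃ t, chk3 f_pm_012 t 1 1 1 = true := ex3_b s33_pm_012 s19_pm_012

theorem c_pm_012 : CertB 0 536870912 536870912 536870912 858993459 64424510 3 eng mog cd0q0 cd3q1 pd2 true true false .pnp 0 1 2
    ndB0q0 ndB3q1 pcB2 cut_pm_012 Ext.none :=
  certB1 (fam := true) (s1 := true) (s2 := false) (a := 0) (b := 1) (c := 2) (cn := .pnp) (n1 := ndB0q0) (n2 := ndB3q1) (pc := pcB2) (cut := cut_pm_012) (xt := Ext.none) (P1 := 0) (W1 := 536870912) (P2 := 536870912) (W2 := 536870912) (P3 := 858993459) (W3 := 64424510) (N0 := 3) (En := eng) (mo := mog) (C1 := cd0q0) (C2 := cd3q1) (C3 := pd2)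
    rfl (fun _ => rfl) s34_pm_012

noncomputable def f_pm_022 : ℕ → ℕ → ℕ → ℕ → Bool := onCell 0 536870912 1073741824 536870912 858993459 64424510
    (rowB 3 eng mog cd0q0 cd3q2 pd2 1 true true false .pp 0 2 2 (qsf 0 536870912 1073741824 536870912 2) ndB0q0 ndB3q2 pcB2 Cut.none Ext.none)

def k0_pm_022 : ∃ t, chk3 f_pm_022 t 1 4 1 = true :=
  ⟨(l 3), by decide +kernel⟩

def k1_pm_022 : ∃ t, chk3 f_pm_022 t 2 10 1 = true :=
  ⟨(b (b (l 3) (b (l 3) (b (l 3) (a (a (c (a (l 16332048) (l 16356968)) (a (a (c (l 16231600) (l 16166856)) (l 16233496)) (l 16260240))) (a (c (a (l 16388032) (l 16404240)) (l 16317096)) (c (a (l 16419168) (l 16432536)) (a (l 16374704) (l 16396048))))) (a (b (l 3) (a (a (c (l 16444456) (l 16414984)) (c (a (l 16453656) (l 16459768)) (a (l 16429392) (l 210486291351)))) (a (a (c (l 340409105095) (l 384969359335)) (l 1)) (l 1)))) (l 1)))))) (a (a (c (a (c (b (l 16343496) (l 16330048)) (l 16265224)) (c (b (l 16373296) (l 16361184)) (l 16308816)))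 (c (a (a (l 16214448) (l 16244440)) (l 16287416)) (a (a (c (l 16164824) (l 16129792)) (l 16185960)) (l 16219392)))) (a (c (c (b (l 16403032) (l 16392160)) (l 16349400)) (c (l 16318328) (l 16283672))) (c (a (b (l 16413544) (l 16403056)) (b (l 16448232) (l 16417312))) (a (l 16338840) (b (l 16388216) (l 16374800)))))) (a (a (c (b (a (c (l 16446896) (l 16432624)) (a (l 16470360) (b (l 16457552) (l 16453624)))) (a (l 16430544) (l 16422616))) (a (b (c (l 16416720) (l 16399184)) (l 16395160)) (b (b (c (l 16457840) (l 16460592)) (l 16445448)) (l 16414936)))) (b (a (a (c (b (l 317323666679) (l 16459960)) (c (l 326987317719) (l 336114105751))) (b (c (l 332892936775) (l 384432481783)) (c (l 16487304) (l 329671675527)))) (b (l 1) (c (l 320544944087) (l 382821906935)))) (c (a (l 16444200) (l 324302937735)) (a (b (l 16416712) (l 16431304)) (l 347388365527))))) (a (b (l 1) (a (b (l 1) (l 365641953783)) (l 1))) (l 1))))), by decide +kernel⟩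

def k2_pm_022 : ∃ t, chk3 f_pm_022 t 2 11 1 = true :=
  ⟨(b (a (a (c (c (l 16280608) (a (l 16254400) (l 16300456))) (a (c (l 16174672) (a (l 16110232) (l 16149664))) (c (l 16255800) (l 16205472)))) (c (a (l 16358352) (l 16391536)) (a (c (l 16309744) (l 16271528)) (l 16215624)))) (a (c (a (l 16440824) (a (l 16440536) (l 16475016))) (a (a (l 16373664) (l 16394048)) (a (l 16351304) (b (l 16440952) (l 16426984))))) (a (a (c (l 229276745735) (a (l 362957535383) (l 367252638535))) (c (l 252899189559) (l 319471178695))) (b (l 1) (c (l 125660839207) (l 391948615623)))))) (c (a (a (a (l 16180528) (l 16285376)) (a (l 16325344) (l 16360600))) (a (a (l 16390808) (l 16431608)) (a (c (l 16409624) (l 16427488)) (l 115460269047)))) (a (a (a (c (l 16157008) (l 16089792)) (l 16068232)) (a (l 16213920) (l 16307896))) (a (a (l 16351960) (l 16393744)) (a (a (l 16423960) (l 16443120)) (l 204580884455)))))), by decide +kernel⟩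

def k3_pm_022 : ∃ t, chk3 f_pm_022 t 3 5 1 = true :=
  ⟨(b (l 1) (a (a (b (l 1) (a (c (a (l 187400927543) (l 1)) (l 340409137623)) (l 1))) (l 1)) (l 1))), by decide +kernel⟩

def k4_pm_022 : ∃ t, chk3 f_pm_022 t 2 3 1 = true :=
  ⟨(a (b (a (a (b (c (b (l 16199480) (l 16149848)) (c (l 15943840) (b (l 16046272) (l 15999776)))) (c (l 16044976) (c (l 15884032) (b (l 15950632) (l 15899200))))) (b (c (l 16220736) (c (l 16156280) (l 16040568))) (c (l 16096776) (c (l 16058672) (l 15987976))))) (c (b (c (l 16384696) (l 16270456)) (c (l 16091024) (l 16143200))) (b (a (c (l 16215296) (l 16174024)) (l 16250232)) (a (l 16103288) (l 16161336))))) (a (a (c (b (l 15731704) (b (l 15845776) (l 15783264))) (b (c (l 15875656) (b (l 15845912) (l 15790744))) (c (l 15589144) (b (l 15732600) (l 15672872))))) (b (c (l 15967360) (c (l 15949024) (l 15905880))) (c (l 15846224) (c (l 15832744) (l 15669592))))) (b (c (c (l 15965992) (l 16017544)) (a (l 16000368) (l 16061440))) (c (a (l 15870600)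 (l 15889208)) (a (l 15890520) (l 15954432)))))) (b (a (c (a (b (l 16423320) (l 16131224)) (b (a (l 16282792) (l 16286480)) (l 16139472))) (b (c (l 16433664) (l 16307664)) (a (l 16210904) (l 16239872)))) (c (b (a (b (l 16332232) (l 16253008)) (b (l 16360008) (l 16196544))) (c (a (l 16127480) (l 16137248)) (l 16168328))) (b (a (b (l 16388528) (l 16323688)) (b (l 16371744) (l 16309488))) (a (l 16234376) (l 16224192))))) (a (c (b (c (l 15883688) (l 16038944)) (l 15908648)) (b (l 16126312) (l 16022968))) (c (b (c (l 15860192) (l 16008848)) (l 15927240)) (b (l 16127016) (l 16037008)))))), by decide +kernel⟩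

def k5_pm_022 : ∃ t, chk3 f_pm_022 t 3 3 1 = true :=
  ⟨(a (b (a (c (b (a (b (a (l 311417623831) (l 16387256)) (b (l 16283800) (l 16245608))) (b (l 316249431815) (l 194916917895))) (a (b (l 16191472) (l 16124760)) (b (l 16194824) (l 16128280)))) (b (a (b (l 354904166087) (l 16228232)) (b (l 327523908007) (l 348998419335))) (a (l 16063024) (b (l 16216048) (l 16167496))))) (a (b (b (l 1) (b (l 1) (l 266320632375))) (b (c (l 215317858535) (l 328597600471)) (c (l 16129960) (l 16146528)))) (b (l 1) (b (a (l 273299849639) (l 1)) (c (l 227665756135) (l 333429294967)))))) (a (b (a (b (l 15888728) (l 15881048)) (c (l 16061064) (l 16102296))) (c (c (l 15920144) (l 15960792)) (l 16032144))) (c (b (a (b (l 16070056) (l 16016048)) (b (l 16070304) (l 16017176))) (a (l 15945720) (l 15948304))) (b (a (l 16085488) (b (l 16082800) (l 16047696))) (a (l 16016952) (l 16002240)))))) (a (b (b (l 1) (a (b (l 1) (a (l 283500341911) (l 1))) (l 1))) (b (c (a (b (l 242698017783) (l 16016752))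 (b (l 247529868503) (l 256119696567))) (b (a (l 342019092727) (l 344703417175)) (a (l 16025624) (l 352219529399)))) (c (a (b (l 15970472) (l 15929664)) (b (l 15991184) (l 15930744))) (a (l 15984352) (b (l 15975392) (l 15953112)))))) (b (l 1) (b (a (b (l 1) (a (l 307122480055) (l 1))) (l 1)) (a (b (c (l 268467648359) (l 361883100167)) (c (a (l 15931528) (l 15932568)) (l 15932048))) (b (a (l 318396677047) (l 1)) (c (l 273836290823) (l 374767907655)))))))), by decide +kernel⟩

theorem s6_pm_022 : ∃ t, chk3 f_pm_022 t 1 3 1 = true := ex3_a k4_pm_022 k5_pm_022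

theorem s7_pm_022 : ∃ t, chk3 f_pm_022 t 2 5 1 = true := ex3_b k1_pm_022 k2_pm_022

theorem s8_pm_022 : ∃ t, chk3 f_pm_022 t 1 5 1 = true := ex3_a s7_pm_022 k3_pm_022

theorem s9_pm_022 : ∃ t, chk3 f_pm_022 t 1 2 1 = true := ex3_b k0_pm_022 s8_pm_022

theorem s10_pm_022 : ∃ t, chk3 f_pm_022 t 1 1 1 = true := ex3_b s9_pm_022 s6_pm_022

theorem c_pm_022 : CertB 0 536870912 1073741824 536870912 858993459 64424510 3 eng mog cd0q0 cd3q2 pd2 true true false .pp 0 2 2
    ndB0q0 ndB3q2 pcB2 Cut.none Ext.none :=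
  certB1 (fam := true) (s1 := true) (s2 := false) (a := 0) (b := 2) (c := 2) (cn := .pp) (n1 := ndB0q0) (n2 := ndB3q2) (pc := pcB2) (cut := Cut.none) (xt := Ext.none) (P1 := 0) (W1 := 536870912) (P2 := 1073741824) (W2 := 536870912) (P3 := 858993459) (W3 := 64424510) (N0 := 3) (En := eng) (mo := mog) (C1 := cd0q0) (C2 := cd3q2) (C3 := pd2)
    rfl (fun _ => rfl) s10_pm_022

noncomputable def f_pm_023 : ℕ → ℕ → ℕ → ℕ → Bool := onCell 0 536870912 1610612736 536870912 858993459 64424510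
    (rowB 3 eng mog cd0q0 cd3q2 pd3 1 true true false .up 0 2 3 (qsf 0 536870912 1073741824 536870912 3) ndB0q0 ndB3q2 pcB3 Cut.none Ext.none)

def k0_pm_023 : ∃ t, chk3 f_pm_023 t 2 1 1 = true :=
  ⟨(b (a (b (a (a (b (c (l 15502216) (c (l 15669896) (l 15421592))) (l 2)) (b (c (l 15705368) (c (l 15748824) (l 15728352))) (c (l 15595112) (l 224510343447)))) (b (c (a (l 15736568) (l 15762920)) (a (l 15818264) (l 15852704))) (c (a (l 15633696) (l 15665488)) (a (l 15700232) (l 15756072))))) (b (a (l 2) (c (l 161159206999) (l 214309922439))) (l 2))) (b (a (c (b (l 15792984) (l 15704576)) (b (a (l 15876352) (l 15898008)) (a (l 15785976) (l 15810616)))) (c (b (l 15657392) (l 15597344)) (b (l 15926136) (l 15845592)))) (a (b (c (l 15631480) (l 15723168)) (c (l 15569128) (l 15638296))) (b (c (l 15681536) (l 15784232)) (c (l 15635032) (l 15733104)))))) (a (l 2) (b (b (a (l 2) (b (l 15637664) (l 2))) (l 2)) (l 2)))), by decide +kernel⟩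

def k1_pm_023 : ∃ t, chk3 f_pm_023 t 3 1 1 = true :=
  ⟨(b (a (b (a (c (b (l 15786680) (l 15777200)) (l 16103016)) (c (b (l 16037392) (l 15806056)) (b (l 15953240) (l 15902872)))) (c (a (b (l 15719288) (l 15682736)) (b (l 15756864) (l 15724288))) (a (b (l 15827768) (l 15794040)) (b (l 15861720) (l 15834928))))) (b (a (c (b (a (l 15881344) (l 15887992)) (l 15935816)) (b (a (l 15946760) (l 15938552)) (l 15908400))) (c (b (a (b (l 15908328) (l 15880456)) (b (a (l 15912656) (l 15916272)) (l 15887944))) (a (l 15846344) (l 15855864))) (b (a (l 15927512) (b (l 15918984) (l 15908040))) (a (l 15903104) (l 15895920))))) (a (c (b (l 15791856) (l 15767880)) (b (l 15882576) (l 15866672))) (c (b (a (l 15813968) (l 15826352)) (l 15804600)) (b (l 15888136) (l 15885528)))))) (a (b (b (a (b (l 15715128) (l 15694800)) (c (l 15713696) (l 15827424))) (b (a (l 15642184) (l 15753800)) (a (l 2) (l 15733112)))) (a (l 2) (b (b (b (l 15787672) (l 2)) (l 2)) (l 2)))) (b (b (a (c (l 15763080)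 (l 15866328)) (c (l 15805680) (l 15894048))) (a (b (l 15820208) (l 15818032)) (b (l 15861312) (l 15877952)))) (a (b (b (b (l 15829488) (l 15857000)) (b (l 15882728) (l 15907136))) (b (b (l 15937120) (l 2)) (l 2))) (b (b (l 15893944) (a (l 15928712) (l 15947048))) (b (b (l 15968736) (a (l 15983032) (l 15993896))) (b (l 15887696) (b (l 16030408) (b (l 16038616) (l 4)))))))))), by decide +kernel⟩

theorem s2_pm_023 : ∃ t, chk3 f_pm_023 t 1 1 1 = true := ex3_a k0_pm_023 k1_pm_023

theorem c_pm_023 : CertB 0 536870912 1073741824 536870912 858993459 64424510 3 eng mog cd0q0 cd3q2 pd3 true true false .up 0 2 3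
    ndB0q0 ndB3q2 pcB3 Cut.none Ext.none :=
  certB1 (fam := true) (s1 := true) (s2 := false) (a := 0) (b := 2) (c := 3) (cn := .up) (n1 := ndB0q0) (n2 := ndB3q2) (pc := pcB3) (cut := Cut.none) (xt := Ext.none) (P1 := 0) (W1 := 536870912) (P2 := 1073741824) (W2 := 536870912) (P3 := 858993459) (W3 := 64424510) (N0 := 3) (En := eng) (mo := mog) (C1 := cd0q0) (C2 := cd3q2) (C3 := pd3)
    rfl (fun _ => rfl) s2_pm_023

noncomputable def f_pm_033 : ℕ → ℕ → ℕ → ℕ → Bool := onCell 1610612736 536870912 0 1230186008 858993459 64424510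
    (rowB 3 eng mog cd0q0 cd3q3 pd3 2 true true false .pnn 0 3 3 (qsf 0 536870912 0 1230186008 3) ndB0q0 ndB3q3 pcB3 Cut.none Ext.none)

def k0_pm_033 : ∃ t, chk3 f_pm_033 t 2 1 1 = true :=
  ⟨(b (l 1) (b (a (l 1) (b (l 1) (b (l 1) (a (l 1) (a (l 1) (c (l 376377682935) (l 352218296967))))))) (b (a (l 1) (a (b (a (l 1) (b (l 1) (c (l 351144706039) (l 322690193511)))) (a (b (l 1) (c (l 366177082599) (l 329132651159))) (b (c (l 352755355287) (l 321616494631)) (c (l 15565696) (l 15424832))))) (b (a (b (c (l 379062076151) (l 343628196583)) (c (l 255045048455) (l 231959249351))) (c (b (l 15575376) (l 15647320)) (b (l 15390368) (l 15477984)))) (a (b (c (l 15599400) (l 15444528)) (l 15610888)) (b (c (l 15724872) (l 15566544)) (c (l 15804632) (l 15653808))))))) (a (b (a (l 1) (b (a (l 1) (c (l 379598822071) (l 344165103495))) (c (a (a (l 394631119367) (l 324301108023)) (l 310879323191)) (a (b (l 342554343111) (l 345775690647)) (b (l 15390872) (l 15453696)))))) (a (b (a (l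 1) (b (c (l 403221029943) (l 350607425671)) (c (l 401610508679) (l 354365657863)))) (a (c (b (l 400536563591) (a (l 353292020951) (l 15461304))) (b (a (l 1) (l 353828693543)) (a (l 357586810423) (l 15407072)))) (c (b (l 15490800) (l 15550552)) (b (l 301752453175) (l 15493608))))) (b (a (c (b (l 15494216) (l 15550928)) (b (l 15402600) (l 15469464))) (c (l 15640112) (l 15548784))) (a (c (l 15638680) (l 15570224)) (c (l 15751760) (l 15673016)))))) (b (a (b (a (c (l 15543744) (l 15418176)) (c (l 15661944) (l 15533528))) (a (c (l 15647368) (l 15536120)) (c (l 15760472) (l 15641552)))) (b (a (l 15705048) (l 15812144)) (a (l 15801584) (l 15900384)))) (a (b (a (c (l 15752976) (l 15652736)) (l 15801704)) (a (c (l 15860048) (l 15768088)) (l 15906728))) (b (a (l 15898928) (l 15993760)) (a (l 16000840) (l 16092616))))))))), by decide +kernel⟩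

def k1_pm_033 : ∃ t, chk3 f_pm_033 t 3 2 1 = true :=
  ⟨(a (l 1) (b (l 4) (l 4))), by decide +kernel⟩

def k2_pm_033 : ∃ t, chk3 f_pm_033 t 3 3 1 = true :=
  ⟨(b (b (a (a (l 1) (a (b (l 1) (l 15533288)) (b (l 15562048) (l 15657848)))) (a (a (b (l 15685952) (l 15789040)) (l 4)) (l 4))) (a (a (a (b (c (l 380672469095) (l 393020412295)) (c (l 15606224) (l 15504784))) (b (c (l 15603768) (l 15391032)) (b (l 15589320) (l 15661056)))) (a (b (l 15634472) (b (l 15721256) (l 15783784))) (b (l 15765104) (l 15879928)))) (a (a (b (l 15890872) (l 15991448)) (b (a (l 15979872) (l 16022648)) (l 16104480))) (a (b (l 4) (a (l 16170680) (l 4))) (l 4))))) (b (a (a (b (a (c (l 15739656) (b (l 15519952) (l 15602072))) (b (l 15733264) (l 15804232))) (a (b (a (l 15732088) (l 15789648)) (a (l 15809832) (l 15863840))) (b (l 15874400) (l 15943792)))) (b (a (b (l 15849792) (l 15918056)) (b (l 15964552) (l 16023824))) (a (b (l 15983952) (l 16050168)) (b (l 16090160) (l 16155320))))) (b (a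 (a (a (l 16069440) (l 16125616)) (l 16210104)) (a (a (l 16285824) (l 16288176)) (l 4))) (a (a (a (l 16199576) (l 16247616)) (a (l 16292800) (l 16344000))) (a (a (l 16393392) (l 16418328)) (a (l 16376936) (l 4)))))) (a (a (b (a (b (l 15914112) (l 15997280)) (b (l 16015144) (l 16092144))) (a (b (l 16086760) (l 16180040)) (l 16218680))) (b (a (b (l 16116424) (l 16183304)) (b (l 16216504) (l 16274120))) (a (l 16298688) (b (l 16336120) (l 16411408))))) (b (a (a (a (l 16319464) (l 16367488)) (b (l 16408040) (l 16463160))) (a (a (l 16492512) (l 16537144)) (a (l 16574880) (a (l 16581584) (l 4))))) (a (a (a (l 16432992) (l 16486856)) (b (l 16522720) (l 16587160))) (a (a (l 16607008) (l 16623592)) (a (b (l 16604456) (l 16655808)) (a (l 16650928) (a (l 16676424) (l 4)))))))))), by decide +kernel⟩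

theorem s3_pm_033 : ∃ t, chk3 f_pm_033 t 3 1 1 = true := ex3_b k1_pm_033 k2_pm_033

theorem s4_pm_033 : ∃ t, chk3 f_pm_033 t 1 1 1 = true := ex3_a k0_pm_033 s3_pm_033

theorem c_pm_033 : CertB 0 536870912 0 1230186008 858993459 64424510 3 eng mog cd0q0 cd3q3 pd3 true true false .pnn 0 3 3
    ndB0q0 ndB3q3 pcB3 Cut.none Ext.none :=
  certB2 (fam := true) (s1 := true) (s2 := false) (a := 0) (b := 3) (c := 3) (cn := .pnn) (n1 := ndB0q0) (n2 := ndB3q3) (pc := pcB3) (cut := Cut.none) (xt := Ext.none) (P1 := 0) (W1 := 536870912) (P2 := 0) (W2 := 1230186008) (P3 := 858993459) (W3 := 64424510) (N0 := 3) (En := eng) (mo := mog) (C1 := cd0q0) (C2 := cd3q3) (C3 := pd3)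
    rfl (fun _ => rfl) s4_pm_033

noncomputable def f_pm_101 : ℕ → ℕ → ℕ → ℕ → Bool := onCell 536870912 536870912 536870912 536870912 858993459 64424510
    (rowB 3 eng mog cd0q1 cd3q0 pd1 1 true true false .npn 1 0 1 (qsf 536870912 536870912 0 536870912 1) ndB0q1 ndB3q0 pcB1 Cut.none Ext.none)

def k0_pm_101 : ∃ t, chk3 f_pm_101 t 2 2 1 = true :=
  ⟨(a (l 3) (b (a (b (l 1) (l 3)) (l 1)) (l 3))), by decide +kernel⟩

def k1_pm_101 : ∃ t, chk3 f_pm_101 t 2 6 1 = true :=
  ⟨(b (l 3) (a (l 3) (b (l 3) (b (b (l 3) (a (l 3) (a (l 3) (c (c (a (l 183240284567) (l 193440938503)) (l 192366954311)) (c (l 195588027015) (l 199345981287)))))) (a (b (a (l 3) (a (l 3) (a (l 3) (c (l 186461310807) (l 16250216))))) (a (a (l 3) (c (c (l 183239969687) (l 16291760)) (c (l 16253840) (l 16223624)))) (c (c (a (l 158007054807) (l 16360592)) (l 166596896775)) (c (l 16248728) (l 16208288))))) (c (a (c (b (a (l 167670865351) (l 175723976935)) (a (l 16381736) (l 16411768))) (b (l 177334417511)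 (l 16325304))) (c (b (a (l 16479664) (l 16536392)) (l 16479744)) (b (l 169281465239) (l 16390912)))) (a (c (b (l 182702997047) (l 16262688)) (l 192903386167)) (c (b (l 16333432) (l 16310216)) (l 16248864))))))))), by decide +kernel⟩

def k2_pm_101 : ∃ t, chk3 f_pm_101 t 8 7 1 = true :=
  ⟨(a (b (b (b (l 3) (a (b (l 3) (c (c (l 153175201927) (l 202030327495)) (c (b (l 180555514999) (l 16306200)) (b (a (l 191292814103) (l 16268088)) (l 16263312))))) (c (c (b (l 129016036087) (l 16338936)) (b (l 309941402007) (l 16305200))) (b (b (l 3) (c (l 278266012119) (l 300277614775))) (c (b (l 16300288) (l 16291216)) (b (l 16257408) (l 16248272))))))) (c (b (c (b (l 16353200) (l 16316136)) (a (b (l 16325160) (l 16308720)) (l 16279048))) (c (l 16293360) (l 16282624))) (b (a (b (c (l 16293512) (l 16250744)) (c (l 16277072) (l 16234416))) (b (c (l 16277800) (l 16234768)) (l 16240072))) (a (l 16212384) (l 16193728))))) (b (c (c (l 16251024) (l 16230888)) (b (l 16192352) (l 16161936)))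 (c (l 16191816) (b (l 16132936) (l 16105888))))) (b (a (b (b (l 3) (c (c (b (l 16392104) (l 16317504)) (b (l 148880116055) (l 16310304))) (b (c (l 151027611895) (b (l 328194897703) (l 16254624))) (c (l 16282208) (l 16239976))))) (c (b (c (l 16294072) (l 16283712)) (l 16259448)) (b (b (l 16285504) (l 16224952)) (l 16176928)))) (b (b (a (l 3) (b (l 3) (b (l 3) (c (l 115594271127) (l 16283912))))) (c (b (c (l 16356888) (l 16311384)) (l 16339264)) (b (b (l 170354811479) (l 16286824)) (l 16229840)))) (c (b (l 16336024) (l 16241304)) (b (b (l 16230928) (l 16211368)) (l 16161808))))) (b (c (c (l 16211432) (l 16192392)) (b (l 16132928) (l 16118400))) (c (l 16148784) (b (l 16084136) (l 16051784)))))), by decide +kernel⟩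

def k3_pm_101 : ∃ t, chk3 f_pm_101 t 9 7 1 = true :=
  ⟨(a (b (b (b (b (l 3) (c (c (a (l 110762428359) (l 168744313447)) (l 109151758711)) (a (c (l 16285728) (l 122036516679)) (c (l 16280712) (l 16252944))))) (a (b (c (a (l 16380584) (l 16392072)) (a (l 16242008) (l 16236760))) (c (l 16295504) (l 16218888))) (c (c (l 16376408) (l 16260512)) (b (l 16249584) (l 16229120))))) (c (b (c (l 16242440) (l 16241272)) (l 16212576)) (a (b (l 16198704) (l 16169104)) (b (l 16197976) (l 16156600))))) (b (c (b (l 16182856) (l 16152696)) (b (l 16101360) (l 16082160))) (c (l 16110208) (b (l 16042904) (l 16005416))))) (b (b (c (b (c (b (a (l 142437714279) (l 146195811367)) (a (l 16291856) (l 16284200))) (c (a (l 113446727495) (l 16273872)) (l 176797339095))) (c (a (l 16342040) (l 16248072)) (l 16295328))) (b (c (b (l 16358488) (l 16247032)) (a (l 97340394695) (l 16239024))) (c (l 16227752) (l 16206824)))) (c (b (l 16327520) (l 16167768)) (b (l 16181080) (l 16139112)))) (b (c (l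 16255240) (b (l 16095968) (l 16052000))) (c (l 16074592) (a (l 15995608) (l 15978720)))))), by decide +kernel⟩

def k4_pm_101 : ∃ t, chk3 f_pm_101 t 5 7 1 = true :=
  ⟨(b (a (b (c (a (b (c (a (b (l 151027652743) (l 16280736)) (b (l 16309864) (l 16282320))) (a (b (l 16270160) (l 16246528)) (l 16253784))) (c (a (l 16241984) (l 16240808)) (l 16204920))) (b (a (c (l 16361512) (l 16254280)) (b (l 16302136) (l 16272520))) (c (l 16248768) (l 16200032)))) (a (c (b (b (l 89287269783) (l 16214360)) (l 16183944)) (b (l 114520381319) (l 16179216))) (b (c (b (l 16224240) (l 16199264)) (l 16176520)) (l 16256848)))) (c (a (c (b (l 16190456) (l 16145880)) (l 16227632)) (b (l 16312248) (l 16113344))) (a (b (l 16152336) (l 16114840)) (b (l 16103896) (l 16079768))))) (b (c (a (b (c (a (l 16336552) (l 16364968)) (l 16281224)) (c (l 16279984) (l 16215560))) (b (c (l 16430344) (l 16343552)) (l 16307128))) (a (b (c (l 16221992) (l 16172480)) (c (l 16162008) (l 16120032))) (b (c (l 16266352)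 (l 16199256)) (l 16164440)))) (c (a (b (l 16176176) (l 16109904)) (b (l 16220320) (l 16134264))) (a (b (l 16083272) (l 16032480)) (b (l 16091896) (l 16022008)))))) (a (b (c (a (l 16250688) (l 16153248)) (a (b (l 16071984) (l 16026048)) (l 16023960))) (c (a (l 16039568) (l 16000536)) (a (l 15955864) (l 15929056)))) (b (c (a (l 16108640) (l 16019144)) (a (l 15989416) (l 15932064))) (c (a (l 15952616) (l 15910648)) (a (l 15904096) (l 15876096)))))), by decide +kernel⟩

def k5_pm_101 : ∃ t, chk3 f_pm_101 t 3 2 1 = true :=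
  ⟨(a (b (l 1) (a (b (l 1) (l 3)) (l 1))) (l 1)), by decide +kernel⟩

def k6_pm_101 : ∃ t, chk3 f_pm_101 t 6 6 1 = true :=
  ⟨(b (l 3) (a (b (l 3) (a (b (a (c (c (l 207399702231) (l 208473305495)) (c (l 211157466295) (l 214915381207))) (c (b (l 222969060727) (c (l 16729176) (l 16601856))) (c (l 234779908535) (l 226726632887)))) (c (b (a (l 16557064) (l 16649976)) (l 16575576)) (c (l 16422360) (l 16321896)))) (c (b (b (a (l 248202054567) (c (l 244444103719) (l 246591504823))) (c (l 16717816) (l 16721688))) (c (l 16675808) (l 16674848))) (b (c (b (l 257865575799) (l 16625584)) (b (l 257328390375) (l 16478216))) (c (l 16610576) (l 16468488)))))) (b (b (l 3) (b (l 3) (a (b (l 3) (a (l 3) (a (l 3) (a (l 3) (b (l 3) (c (l 254108015751) (c (l 254644831367) (l 254107894599)))))))) (a (a (b (l 1) (b (l 1) (c (l 712461570311) (c (l 643742065751) (l 667364344599))))) (l 1)) (l 1))))) (c (b (a (b (b (a (l 258402805095) (a (l 232096195575) (c (l 16920024) (l 16889856)))) (a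 (l 16877840) (l 16844296))) (c (l 16798160) (l 16765752))) (a (a (b (b (b (l 547642168359) (l 127272212519)) (l 16886616)) (l 16818032)) (b (l 736620641255) (l 521335298071))) (a (l 519187807175) (l 1)))) (a (b (l 16742360) (l 16725984)) (b (a (l 16826648) (l 518113987159)) (l 121903083655)))) (b (b (a (a (c (l 16775192) (l 16647712)) (c (b (a (l 16881888) (l 16858264)) (l 16859776)) (b (a (l 16768344) (l 16825280)) (l 16826488)))) (a (b (a (c (l 540662762503) (l 539052090343)) (l 1)) (c (l 146599451943) (l 158947426199))) (l 1))) (a (c (l 16732048) (l 16723728)) (a (c (l 16807312) (l 16780288)) (l 733399233527)))) (a (c (l 16642152) (l 16670520)) (b (c (l 147136074183) (l 160020923991)) (l 146599042375)))))))), by decide +kernel⟩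

def k7_pm_101 : ∃ t, chk3 f_pm_101 t 6 7 1 = true :=
  ⟨(b (a (b (c (b (a (c (l 16554712) (l 16468432)) (l 16501104)) (a (l 16420488) (l 16478736))) (b (a (c (l 16364928) (l 16271960)) (l 16486872)) (a (l 16239160) (l 16378592)))) (c (b (a (l 16315704) (l 16375424)) (a (l 16209072) (l 16273488))) (b (a (l 16146656) (l 16263424)) (l 16234640)))) (b (c (b (a (l 16579376) (b (l 16724536) (l 16669832))) (a (l 16535952) (l 16590528))) (b (a (l 16549824) (b (l 16674072) (l 16615352))) (a (l 16455592) (l 16528304)))) (c (b (a (l 16433768) (l 16489248)) (l 16362800)) (b (a (l 16340840) (l 16413512)) (l 16261496))))) (a (b (c (a (l 16048120) (l 16116864)) (a (l 15919984) (l 15954960))) (c (l 16075728) (a (l 15837720) (l 15771320)))) (b (c (a (l 16183992) (l 16247288)) (b (l 16141984) (l 16015032))) (c (l 16154568) (a (l 15763192) (l 15851584)))))), by decide +kernel⟩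

def k8_pm_101 : ∃ t, chk3 f_pm_101 t 7 3 1 = true :=
  ⟨(b (a (b (l 1) (b (l 1) (a (a (b (l 1) (c (l 703871216215) (l 714071700967))) (l 1)) (l 1)))) (l 1)) (b (a (b (b (a (c (a (l 480532730759) (l 660384529495)) (a (l 485364482743) (l 674343104759))) (l 1)) (a (c (a (l 16628696) (l 16651792)) (l 176126623111)) (c (l 648036314759) (l 668974196055)))) (a (c (b (l 16539664) (l 16444128)) (b (l 16480768) (l 16366704))) (b (c (l 254510032663) (a (l 16529144) (l 16561280))) (c (l 16468872) (l 16431920))))) (b (l 1) (b (l 1) (a (c (l 171832091559) (l 318397482743)) (l 1))))) (c (a (b (a (l 16304680) (c (l 16356328) (l 16331504))) (a (l 16114936) (l 16176160))) (b (a (b (l 16485368) (l 16356008)) (b (l 1) (l 16391072))) (a (l 16205336) (b (l 16309144) (l 16228112))))) (a (b (a (l 16191536) (b (l 16317440) (l 16200728))) (a (l 15936024) (l 16015320))) (b (a (b (l 16360848) (l 16286128)) (b (l 1) (l 16438680))) (a (a (l 16068976) (l 16098464)) (b (l 16196448) (l 16076896)))))))),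 by decide +kernel⟩

theorem s9_pm_101 : ∃ t, chk3 f_pm_101 t 6 3 1 = true := ex3_b k6_pm_101 k7_pm_101

theorem s10_pm_101 : ∃ t, chk3 f_pm_101 t 3 3 1 = true := ex3_a s9_pm_101 k8_pm_101

theorem s11_pm_101 : ∃ t, chk3 f_pm_101 t 3 1 1 = true := ex3_b k5_pm_101 s10_pm_101

theorem s12_pm_101 : ∃ t, chk3 f_pm_101 t 4 7 1 = true := ex3_a k2_pm_101 k3_pm_101

theorem s13_pm_101 : ∃ t, chk3 f_pm_101 t 2 7 1 = true := ex3_a s12_pm_101 k4_pm_101

theorem s14_pm_101 : ∃ t, chk3 f_pm_101 t 2 3 1 = true := ex3_b k1_pm_101 s13_pm_101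

theorem s15_pm_101 : ∃ t, chk3 f_pm_101 t 2 1 1 = true := ex3_b k0_pm_101 s14_pm_101

theorem s16_pm_101 : ∃ t, chk3 f_pm_101 t 1 1 1 = true := ex3_a s15_pm_101 s11_pm_101

theorem c_pm_101 : CertB 536870912 536870912 0 536870912 858993459 64424510 3 eng mog cd0q1 cd3q0 pd1 true true false .npn 1 0 1
    ndB0q1 ndB3q0 pcB1 Cut.none Ext.none :=
  certB1 (fam := true) (s1 := true) (s2 := false) (a := 1) (b := 0) (c := 1) (cn := .npn) (n1 := ndB0q1) (n2 := ndB3q0) (pc := pcB1) (cut := Cut.none) (xt := Ext.none) (P1 := 536870912) (W1 := 536870912) (P2 := 0) (W2 := 536870912) (P3 := 858993459) (W3 := 64424510) (N0 := 3) (En := eng) (mo := mog) (C1 := cd0q1) (C2 := cd3q0) (C3 := pd1)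
    rfl (fun _ => rfl) s16_pm_101

noncomputable def f_pm_102 : ℕ → ℕ → ℕ → ℕ → Bool := onCell 536870912 536870912 1073741824 536870912 858993459 64424510
    (rowB 3 eng mog cd0q1 cd3q0 pd2 1 true true false .npp 1 0 2 (qsf 536870912 536870912 0 536870912 2) ndB0q1 ndB3q0 pcB2 Cut.none Ext.none)

def k0_pm_102 : ∃ t, chk3 f_pm_102 t 2 1 1 = true :=
  ⟨(b (a (b (b (a (b (c (a (b (l 16049248) (l 16066760)) (l 16166040)) (a (l 16036040) (l 15968688))) (c (a (l 16091704) (l 16042688)) (a (l 16055400) (l 15987456)))) (a (c (b (l 15973352) (l 15992856)) (b (l 15913024) (l 15928624))) (c (b (l 15929832) (l 15948808)) (b (l 15865528) (l 15857264))))) (a (a (l 2) (a (l 2) (b (l 16023280) (l 2)))) (b (c (l 15981608) (l 15912744)) (a (l 15992528) (l 15936736))))) (b (a (l 2) (c (l 16060064) (b (l 15925824) (l 2)))) (l 2))) (b (b (a (c (b (a (l 15890160) (l 15852840)) (a (l 15910464) (l 15876816))) (b (a (l 15825776) (l 15793264)) (a (l 15857040) (l 15801936)))) (c (b (a (l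 15817392) (l 15784600)) (l 15917768)) (b (c (l 15775184) (l 15690216)) (l 15743384)))) (a (c (b (l 15898848) (l 15900008)) (b (a (l 15839872) (l 15801328)) (l 15795728))) (c (b (l 15835336) (l 15825976)) (b (a (l 15770584) (l 15746240)) (a (l 15758680) (l 15727792)))))) (a (b (c (b (l 15907664) (l 15908584)) (b (l 15786744) (l 15807008))) (c (l 15908080) (l 159012034103))) (b (c (c (l 15810960) (l 16022680)) (b (l 15844152) (l 15702088))) (c (l 15782008) (a (l 15720944) (l 15661128))))))) (a (l 2) (a (l 2) (b (b (b (l 15734048) (l 2)) (l 2)) (l 2))))), by decide +kernel⟩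

def k1_pm_102 : ∃ t, chk3 f_pm_102 t 6 2 1 = true :=
  ⟨(c (b (b (a (b (a (l 15754296) (l 15725024)) (l 15778104)) (b (a (l 15694104) (l 15773400)) (a (l 15798776) (l 15816096)))) (a (b (l 15795664) (l 15794216)) (b (a (l 15790400) (l 15800456)) (l 15753496)))) (b (a (b (l 15750712) (l 15719400)) (b (l 15709944) (l 15658472))) (a (b (l 15685080) (l 15654016)) (b (l 15605192) (l 15555736))))) (b (b (a (b (a (l 15728872) (l 15715960)) (a (l 15741296) (l 15734216))) (b (b (l 15667600) (l 15853248)) (a (l 15736128) (l 15748832)))) (a (b (a (l 15727640) (l 15715680)) (l 15754040)) (b (a (l 15711752) (l 15716392)) (l 15686368)))) (a (b (b (l 15651080) (l 15617352)) (b (l 15589872) (l 15566184))) (b (b (l 15606728) (l 15553168)) (b (l 15504992) (l 15460568)))))), by decide +kernel⟩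

def k2_pm_102 : ∃ t, chk3 f_pm_102 t 14 4 1 = true :=
  ⟨(b (a (b (c (b (l 15882040) (l 15830248)) (b (l 15712184) (l 15758232))) (b (l 15899752) (l 15811184))) (b (b (c (a (l 15938752) (l 15974896)) (a (l 15786200) (l 15834720))) (c (a (l 15886312) (l 15922656)) (l 15894880))) (c (b (l 15904904) (l 15893240)) (b (l 15822808) (l 15801344))))) (a (b (c (l 15820616) (l 15729392)) (c (l 15760416) (l 15664336))) (b (c (l 15846256) (l 15751168)) (c (l 15769048) (l 15671560))))), by decide +kernel⟩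

def k3_pm_102 : ∃ t, chk3 f_pm_102 t 15 4 1 = true :=
  ⟨(b (b (c (a (b (a (l 16009136) (b (l 16054728) (l 16026600))) (a (l 15958048) (l 16004248))) (b (a (b (b (l 16090872) (l 16076192)) (l 16057368)) (b (a (b (l 16111648) (l 16098440)) (b (a (b (l 16125672) (l 16119032)) (b (l 16113728) (l 16128096))) (a (l 16114960) (b (l 16122496) (l 16115984))))) (a (l 16090592) (a (l 16097728) (b (l 16105992) (l 16092496)))))) (a (b (l 16050936) (l 16033192)) (a (b (l 16068384) (l 16042808)) (b (l 16092768) (l 16044320)))))) (a (a (b (l 15985792) (l 15872608)) (b (b (l 15935232) (l 15911512)) (l 15915192))) (a (b (b (b (l 15979264) (l 15966712)) (l 16062224)) (b (l 15954672) (l 15936800))) (a (b (b (b (a (l 16000968) (l 16009472)) (l 15994264)) (l 15991264)) (a (l 15957512) (l 15960152))) (b (b (a (b (b (l 16021016) (l 16015488)) (l 16013872)) (b (b (c (l 16058296) (l 16005096)) (c (l 16052256) (l 15999488))) (a (l 16017480) (l 16018608)))) (b (c (l 16030808) (l 15979240))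 (l 15993368))) (b (l 16037896) (l 15949808))))))) (a (b (a (l 16141800) (c (l 15982632) (l 15887728))) (c (l 15954400) (l 15839024))) (a (b (c (l 15998328) (l 15903736)) (c (l 15947392) (l 15855368))) (b (c (a (l 16002648) (l 16023344)) (a (l 15909608) (l 15910832))) (c (a (l 15947680) (l 15945640)) (l 15857520)))))) (a (b (c (a (l 15862792) (l 15868432)) (a (l 15768560) (l 15776384))) (c (a (l 15772392) (l 15769936)) (l 15677928))) (b (c (a (b (l 15894688) (l 15841448)) (b (l 15890344) (l 15833832))) (a (l 15778808) (b (l 15803136) (l 15747736)))) (c (a (l 15762528) (b (l 15777688) (l 15722968))) (a (l 15672912) (l 15663288)))))), by decide +kernel⟩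

def k4_pm_102 : ∃ t, chk3 f_pm_102 t 7 5 1 = true :=
  ⟨(a (b (a (c (l 15873040) (l 15722128)) (c (b (l 15691392) (l 15611120)) (b (l 15584736) (l 15502944)))) (a (c (l 15528704) (l 15423584)) (b (l 15647856) (c (l 15461568) (l 15353568))))) (b (a (b (c (l 15679576) (l 15579056)) (c (l 15588056) (l 15485632))) (b (b (c (l 15677872) (l 15585464)) (c (l 15709352) (l 15530768))) (c (a (l 15560728) (l 15627664)) (l 15537904)))) (c (a (b (l 15502760) (l 15440832)) (b (l 15727136) (l 15421784))) (a (b (l 15397368) (l 15327416)) (b (l 15365560) (l 15295488)))))), by decide +kernel⟩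

def k5_pm_102 : ∃ t, chk3 f_pm_102 t 3 3 1 = true :=
  ⟨(a (b (a (b (c (l 15658448) (l 15624776)) (c (l 15585712) (l 15529752))) (b (c (l 15596976) (l 15425504)) (b (a (l 15444520) (l 15373432)) (a (l 15428768) (l 15372128))))) (a (l 2) (b (c (l 15604496) (l 170823349735)) (l 2)))) (b (a (b (a (b (l 15390672) (l 15349880)) (b (c (l 15411992) (l 15299040)) (l 15326256))) (a (b (l 15335744) (l 15346048)) (c (l 15397144) (l 15253712)))) (b (c (b (a (l 15402744) (l 15391944)) (l 15386296)) (a (l 15258232) (l 15232592))) (c (b (l 15393808) (l 15419456)) (a (l 15236832) (l 15217488))))) (a (b (a (l 15396544) (l 15386448)) (c (l 15603464) (l 15420928))) (b (c (l 15488856) (l 15279504)) (b (l 15475336) (l 15552176)))))), by decide +kernel⟩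

theorem s6_pm_102 : ∃ t, chk3 f_pm_102 t 7 4 1 = true := ex3_a k2_pm_102 k3_pm_102

theorem s7_pm_102 : ∃ t, chk3 f_pm_102 t 7 2 1 = true := ex3_b s6_pm_102 k4_pm_102

theorem s8_pm_102 : ∃ t, chk3 f_pm_102 t 3 2 1 = true := ex3_a k1_pm_102 s7_pm_102

theorem s9_pm_102 : ∃ t, chk3 f_pm_102 t 3 1 1 = true := ex3_b s8_pm_102 k5_pm_102

theorem s10_pm_102 : ∃ t, chk3 f_pm_102 t 1 1 1 = true := ex3_a k0_pm_102 s9_pm_102

theorem c_pm_102 : CertB 536870912 536870912 0 536870912 858993459 64424510 3 eng mog cd0q1 cd3q0 pd2 true true false .npp 1 0 2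
    ndB0q1 ndB3q0 pcB2 Cut.none Ext.none :=
  certB1 (fam := true) (s1 := true) (s2 := false) (a := 1) (b := 0) (c := 2) (cn := .npp) (n1 := ndB0q1) (n2 := ndB3q0) (pc := pcB2) (cut := Cut.none) (xt := Ext.none) (P1 := 536870912) (W1 := 536870912) (P2 := 0) (W2 := 536870912) (P3 := 858993459) (W3 := 64424510) (N0 := 3) (En := eng) (mo := mog) (C1 := cd0q1) (C2 := cd3q0) (C3 := pd2)
    rfl (fun _ => rfl) s10_pm_102

noncomputable def f_pm_112 : ℕ → ℕ → ℕ → ℕ → Bool := onCell 536870912 536870912 1073741824 536870912 858993459 64424510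
    (rowB 3 eng mog cd0q1 cd3q1 pd2 1 true true false .dn 1 1 2 (qsf 536870912 536870912 536870912 536870912 2) ndB0q1 ndB3q1 pcB2 Cut.none Ext.none)

def k0_pm_112 : ∃ t, chk3 f_pm_112 t 2 1 1 = true :=
  ⟨(b (a (a (b (b (b (a (c (l 16061240) (l 16051248)) (l 445098295575)) (c (a (l 16076088) (l 16038720)) (l 16076880))) (b (c (l 16045768) (l 16064104)) (c (a (l 16029024) (l 16009744)) (l 16010112)))) (b (c (b (l 16048712) (l 15935168)) (b (l 15978704) (l 15917376))) (c (b (l 15872520) (l 15802104)) (b (l 15846600) (l 15765936))))) (c (b (b (b (l 1) (l 15981640)) (c (l 15976000) (l 15987512))) (b (b (l 15957576) (l 15922088)) (l 15929232))) (b (b (l 382821230567) (b (l 16004552) (l 16011216))) (b (b (l 15954008) (l 15909936)) (l 15932176))))) (b (b (l 1) (a (c (l 232497057495) (l 233033936503)) (l 1))) (a (b (c (b (l 15912360) (l 15887688)) (b (l 15912200) (l 15881976))) (c (l 15972336) (l 15884032))) (b (c (l 231423586743) (l 269004560487)) (c (l 15900576) (l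 15829400)))))) (a (b (b (a (c (a (l 15671104) (l 15695360)) (b (l 15676848) (l 15580600))) (c (l 15716496) (l 15684240))) (a (c (b (l 15554352) (l 15462448)) (b (l 15478320) (l 15371016))) (c (l 15564656) (l 15513080)))) (b (b (a (a (l 15287368) (l 15344640)) (l 15451920)) (a (a (l 15177920) (l 15242536)) (a (l 15295264) (l 15335784)))) (b (a (a (l 15150432) (l 15138280)) (a (l 15197168) (l 15242880))) (a (a (c (l 15033896) (l 14863240)) (l 15032736)) (a (l 15097496) (l 15148120)))))) (b (a (c (b (l 15714784) (l 15579280)) (b (l 15705952) (l 15561112))) (c (b (l 15675824) (l 15551264)) (b (l 15693160) (l 15568096)))) (a (c (b (l 15487984) (a (l 15252688) (l 15259240))) (b (l 15394368) (a (l 15193952) (l 15227664)))) (b (a (l 15422584) (l 15413000)) (a (c (l 15253112) (l 15248240)) (b (l 15294776) (l 15212592)))))))), by decide +kernel⟩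

def k1_pm_112 : ∃ t, chk3 f_pm_112 t 3 1 1 = true :=
  ⟨(b (a (b (l 1) (b (l 1) (a (c (l 15698504) (l 15720496)) (l 1)))) (l 1)) (a (c (b (a (b (l 15608704) (l 15494008)) (b (l 15522784) (l 2715747895))) (b (a (l 15614752) (l 15383528)) (a (a (l 15241752) (l 15279968)) (l 15374160)))) (b (a (b (l 15641344) (l 15531664)) (b (l 15550536) (l 15693952))) (b (a (a (l 15407520) (l 15389920)) (l 15395680)) (a (a (l 15266432) (l 15293104)) (l 15347776))))) (b (a (b (l 1) (c (l 295847231895) (l 15536264))) (l 1)) (a (b (c (l 15459728) (l 15408288)) (c (l 15516856) (l 15422688))) (b (c (l 15512056) (l 15396976)) (c (l 15625040) (l 15467712))))))), by decide +kernel⟩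

theorem s2_pm_112 : ∃ t, chk3 f_pm_112 t 1 1 1 = true := ex3_a k0_pm_112 k1_pm_112

theorem c_pm_112 : CertB 536870912 536870912 536870912 536870912 858993459 64424510 3 eng mog cd0q1 cd3q1 pd2 true true false .dn 1 1 2
    ndB0q1 ndB3q1 pcB2 Cut.none Ext.none :=
  certB1 (fam := true) (s1 := true) (s2 := false) (a := 1) (b := 1) (c := 2) (cn := .dn) (n1 := ndB0q1) (n2 := ndB3q1) (pc := pcB2) (cut := Cut.none) (xt := Ext.none) (P1 := 536870912) (W1 := 536870912) (P2 := 536870912) (W2 := 536870912) (P3 := 858993459) (W3 := 64424510) (N0 := 3) (En := eng) (mo := mog) (C1 := cd0q1) (C2 := cd3q1) (C3 := pd2)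
    rfl (fun _ => rfl) s2_pm_112

noncomputable def f_pm_113 : ℕ → ℕ → ℕ → ℕ → Bool := onCell 536870912 536870912 1610612736 536870912 858993459 64424510
    (rowB 3 eng mog cd0q1 cd3q1 pd3 1 true true false .nn 1 1 3 (qsf 536870912 536870912 536870912 536870912 3) ndB0q1 ndB3q1 pcB3 Cut.none Ext.none)

def k0_pm_113 : ∃ t, chk3 f_pm_113 t 2 1 1 = true :=
  ⟨(b (b (a (b (a (c (a (b (c (l 216992720215) (l 14775424)) (l 262626617255)) (b (l 14916144) (l 240078235527))) (a (b (l 193906995399) (l 248130693175)) (b (l 14752072) (l 203033754503)))) (c (a (b (l 15017536) (l 14900472)) (b (l 15121416) (l 15011576))) (a (b (l 14854584) (l 14727488)) (l 14895584)))) (b (a (a (l 2) (c (l 281417057479) (l 252425614135))) (c (a (l 259405587687) (l 14899000)) (a (l 14598288) (l 14711128)))) (a (l 2) (c (a (l 297523185143) (l 272827358903)) (a (l 256183680919) (l 14585936)))))) (c (a (b (a (l 15176784) (l 15287112)) (a (b (l 15020488) (l 14913456)) (b (l 15143112) (l 15042640))))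 (b (a (l 15393504) (l 15491128)) (a (l 15213840) (l 15323544)))) (b (a (a (l 14997496) (l 15097176)) (a (l 15193584) (l 15284464))) (a (a (b (l 14823408) (l 14704536)) (b (l 14934112) (l 14822720))) (a (l 14990568) (l 15095736)))))) (b (b (a (a (l 2) (a (l 2) (c (l 318461232231) (l 264773662855)))) (a (a (c (l 283564954183) (l 14584472)) (l 14820224)) (a (l 14947680) (l 15071920)))) (a (l 2) (a (c (l 431204498391) (l 389864871015)) (a (l 14846944) (l 14982456))))) (a (l 2) (b (a (a (l 2) (l 415098039863)) (a (l 14747384) (l 14894168))) (a (l 2) (a (l 14651000) (l 14809080))))))) (a (l 2) (b (b (a (l 2) (b (l 409192536151) (l 2))) (l 2)) (l 2)))), by decide +kernel⟩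

def k1_pm_113 : ∃ t, chk3 f_pm_113 t 3 1 1 = true :=
  ⟨(b (b (a (b (a (b (l 15541448) (l 15467696)) (l 15776880)) (a (b (l 15395056) (l 15323776)) (l 15627344))) (b (a (a (l 15698592) (l 15731128)) (l 16005568)) (a (b (l 15702296) (l 15705216)) (b (l 15798712) (l 15851256))))) (a (b (a (b (l 15254168) (l 15186904)) (b (l 15491296) (l 15464800))) (a (b (l 15123416) (l 15065608)) (b (l 15447672) (l 15444312)))) (b (a (b (l 15720048) (l 15750472)) (b (l 15926472) (l 16028704))) (a (b (l 15802320) (l 15879432)) (l 4))))) (b (a (b (b (a (l 15017488) (l 15460016)) (a (l 426373088727) (l 4))) (b (a (l 424762456183) (l 4)) (l 4))) (l 4)) (l 4))), by decide +kernel⟩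

theorem s2_pm_113 : ∃ t, chk3 f_pm_113 t 1 1 1 = true := ex3_a k0_pm_113 k1_pm_113

theorem c_pm_113 : CertB 536870912 536870912 536870912 536870912 858993459 64424510 3 eng mog cd0q1 cd3q1 pd3 true true false .nn 1 1 3
    ndB0q1 ndB3q1 pcB3 Cut.none Ext.none :=
  certB1 (fam := true) (s1 := true) (s2 := false) (a := 1) (b := 1) (c := 3) (cn := .nn) (n1 := ndB0q1) (n2 := ndB3q1) (pc := pcB3) (cut := Cut.none) (xt := Ext.none) (P1 := 536870912) (W1 := 536870912) (P2 := 536870912) (W2 := 536870912) (P3 := 858993459) (W3 := 64424510) (N0 := 3) (En := eng) (mo := mog) (C1 := cd0q1) (C2 := cd3q1) (C3 := pd3)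
    rfl (fun _ => rfl) s2_pm_113

noncomputable def f_pm_123 : ℕ → ℕ → ℕ → ℕ → Bool := onCell 1610612736 536870912 1073741824 536870912 858993459 64424510
    (rowB 3 eng mog cd0q1 cd3q2 pd3 2 true true false .npn 1 2 3 (qsf 536870912 536870912 1073741824 536870912 3) ndB0q1 ndB3q2 pcB3 Cut.none Ext.none)

def k0_pm_123 : ∃ t, chk3 f_pm_123 t 2 4 1 = true :=
  ⟨(a (b (a (b (a (c (b (a (l 15925408) (l 15915600)) (l 15916264)) (b (l 15904416) (l 15914368))) (c (b (l 15903640) (l 15898888)) (b (l 15876912) (l 15887152)))) (a (c (b (l 15912880) (l 1)) (l 15927376)) (c (b (l 15894184) (l 15889872)) (l 15900496)))) (b (a (c (b (l 15914024) (l 15887632)) (b (l 15855064) (l 15865624))) (c (b (c (l 15904648) (l 15874024)) (l 15882616)) (b (a (l 15841896) (l 15833640)) (l 15849584)))) (c (a (l 15879808) (l 15873680)) (a (l 15879216) (l 15863944))))) (b (a (a (l 1) (c (l 15884128) (l 15914648))) (a (c (l 15869928) (l 15893552)) (c (l 15862320) (l 15878344)))) (a (l 1) (c (a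 (l 15860872) (l 15851768)) (l 16000616))))) (b (a (b (c (a (b (a (l 15890056) (l 15893816)) (l 15884088)) (b (a (l 15900688) (l 15911552)) (l 15915752))) (a (b (a (l 15826784) (l 15822752)) (l 15837408)) (b (l 15823088) (l 15833608)))) (a (c (b (l 15877128) (l 15870504)) (l 15853728)) (c (b (l 15885176) (l 15876944)) (b (l 15843984) (l 15854040))))) (b (a (c (b (a (l 15928024) (l 15951744)) (l 15921056)) (b (l 15881080) (l 15844984))) (c (b (b (l 16014400) (l 15997272)) (l 16016800)) (b (l 15985424) (l 15877984)))) (a (c (b (l 15906264) (l 15893672)) (l 15855184)) (c (b (l 15949424) (l 15928520)) (l 15878848))))) (a (b (c (a (l 15860864) (l 15865624)) (a (l 15869416) (l 15866128))) (c (l 15891408) (l 15877488))) (b (a (c (b (l 15882552) (l 15873376)) (l 15869288)) (c (l 15903680) (l 15884312))) (a (c (l 15860952) (l 15880464)) (c (l 15877464) (l 15891432))))))), by decide +kernel⟩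

def k1_pm_123 : ∃ t, chk3 f_pm_123 t 2 5 1 = true :=
  ⟨(a (b (a (l 1) (a (l 1) (b (l 15990880) (l 1)))) (l 1)) (b (b (a (a (l 16004912) (l 15857248)) (c (l 15894088) (l 15890464))) (a (c (l 15846352) (l 15887120)) (c (l 15837616) (l 15892544)))) (a (a (l 1) (b (l 15846280) (l 1))) (c (b (l 15824944) (l 15810384)) (b (l 15891232) (l 15887728)))))), by decide +kernel⟩

def k2_pm_123 : ∃ t, chk3 f_pm_123 t 2 3 1 = true :=
  ⟨(a (l 1) (b (b (a (l 1) (a (l 1) (b (l 15840072) (l 1)))) (l 1)) (l 1))), by decide +kernel⟩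

def k3_pm_123 : ∃ t, chk3 f_pm_123 t 6 2 1 = true :=
  ⟨(b (a (b (a (b (c (b (b (l 16160712) (l 16110096)) (l 16071776)) (b (b (l 16071640) (l 15955704)) (l 15943136))) (c (b (l 16029528) (l 15994672)) (l 16137448))) (b (a (b (b (l 16200920) (l 16146368)) (l 16125536)) (b (a (l 16244336) (l 16308552)) (l 16195240))) (c (b (l 16166800) (l 16109296)) (l 16035944)))) (a (b (c (l 15952720) (l 15918512)) (c (l 15911648) (l 15915824))) (b (c (l 16041472) (l 15980608)) (c (l 15973232) (l 15961496))))) (b (a (c (a (b (b (l 16553424) (l 16426864)) (l 16280160)) (b (l 16546240) (l 16401616))) (a (b (b (l 16273304) (l 16197696)) (l 16117776)) (b (b (l 16405128) (l 16310936)) (l 16208008)))) (b (a (b (l 16558584) (l 16519776)) (b (l 16554008) (l 16517792))) (a (c (l 16463848) (l 16311944)) (b (l 16482192) (l 16447344))))) (a (b (c (l 16188304) (l 16084832)) (c (l 16081368) (l 16038760))) (b (a (c (l 16345072) (l 16199752)) (c (l 16386320) (l 16291968))) (a (l 16161424) (l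 16207760)))))) (a (c (b (b (a (l 15880840) (l 15924344)) (a (l 15861216) (l 15887400))) (b (l 15854952) (l 15840368))) (b (b (l 16182160) (l 16115480)) (l 15899104))) (b (a (b (c (l 16001576) (l 16008840)) (l 15962816)) (b (c (l 16133736) (l 16103864)) (c (l 16040160) (l 16062216)))) (a (b (l 16140648) (l 15911856)) (b (l 15996272) (l 15953128)))))), by decide +kernel⟩

def k4_pm_123 : ∃ t, chk3 f_pm_123 t 7 2 1 = true :=
  ⟨(b (a (a (b (a (b (b (a (l 16545352) (l 16545184)) (l 16507104)) (c (l 16446912) (l 16464800))) (b (b (l 16570288) (l 16519032)) (b (l 16473464) (l 16428448)))) (a (b (c (l 16374944) (l 16386048)) (c (l 16301296) (l 16280656))) (b (l 16369488) (l 16295688)))) (b (b (a (l 16569024) (l 16548256)) (a (b (l 16507320) (l 16456056)) (l 16529288))) (a (b (l 16389112) (l 16298024)) (b (l 16425336) (l 16335400))))) (a (b (a (b (a (l 16663280) (l 16672400)) (l 16490768)) (b (l 4) (a (l 16595432) (l 4)))) (a (b (l 16475352) (l 16379360)) (b (a (l 16508552)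 (l 16519344)) (l 16386192)))) (a (b (l 4) (b (l 4) (a (l 16448144) (l 4)))) (l 4)))) (a (a (b (a (b (c (l 16208568) (l 16202608)) (l 16142784)) (b (l 16225984) (l 16154152))) (b (c (l 16032376) (l 16116672)) (l 16017960))) (b (a (b (l 16220040) (l 16150792)) (b (l 16243448) (l 16164408))) (b (a (l 16094064) (l 16099224)) (c (l 15997736) (l 16102680))))) (a (b (a (b (l 16294768) (l 16215208)) (b (l 16344712) (a (l 16255280) (l 16278680)))) (a (b (l 16140584) (l 16082824)) (b (l 16154128) (l 16135584)))) (a (b (c (a (l 16292248) (l 16292008)) (l 16180648)) (a (b (l 16232048) (l 16173368)) (b (l 16255128) (l 16190384)))) (a (b (l 207465640679) (c (l 16183312) (l 16280096))) (b (l 4) (a (l 16202320) (l 4)))))))), by decide +kernel⟩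

def k5_pm_123 : ∃ t, chk3 f_pm_123 t 3 3 1 = true :=
  ⟨(a (b (a (b (c (a (l 15809944) (l 15831776)) (l 15904920)) (b (l 15835528) (l 1))) (b (a (l 15894456) (b (l 15929592) (l 15918840))) (b (l 15891840) (l 15876960)))) (a (l 1) (b (a (l 1) (l 15865024)) (l 1)))) (b (b (a (a (b (l 15975336) (l 15955272)) (b (l 16020288) (l 15997104))) (a (c (b (l 15913248) (l 15994176)) (l 15913160)) (b (a (a (l 16120544) (l 16143016)) (a (l 16135232) (a (l 16165376) (l 4)))) (a (l 16088752) (a (l 16123488) (a (l 16129320) (a (l 16131264) (l 4)))))))) (a (a (l 15942488) (b (l 15987624) (l 15981736))) (a (b (l 16027488) (l 16021608)) (a (b (l 16067064) (l 16050688)) (a (l 16077008) (a (l 15837608) (a (l 16092448) (b (l 15892088) (c (l 16025456) (l 16151200)))))))))) (b (a (a (l 15865176) (l 15755088)) (a (l 16009360) (a (l 16037168) (a (l 16051920) (a (l 16059032) (a (l 16063064) (c (l 15823776) (l 16128512)))))))) (a (a (l 1) (l 220148420727)) (a (a (l 15972208) (l 15995720))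 (a (b (l 16022488) (l 16016520)) (a (l 16036848) (a (l 16045672) (a (l 16049072) (l 16052152)))))))))), by decide +kernel⟩

theorem s6_pm_123 : ∃ t, chk3 f_pm_123 t 3 2 1 = true := ex3_a k3_pm_123 k4_pm_123

theorem s7_pm_123 : ∃ t, chk3 f_pm_123 t 3 1 1 = true := ex3_b s6_pm_123 k5_pm_123

theorem s8_pm_123 : ∃ t, chk3 f_pm_123 t 2 2 1 = true := ex3_b k0_pm_123 k1_pm_123

theorem s9_pm_123 : ∃ t, chk3 f_pm_123 t 2 1 1 = true := ex3_b s8_pm_123 k2_pm_123

theorem s10_pm_123 : ∃ t, chk3 f_pm_123 t 1 1 1 = true := ex3_a s9_pm_123 s7_pm_123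

theorem c_pm_123 : CertB 536870912 536870912 1073741824 536870912 858993459 64424510 3 eng mog cd0q1 cd3q2 pd3 true true false .npn 1 2 3
    ndB0q1 ndB3q2 pcB3 Cut.none Ext.none :=
  certB2 (fam := true) (s1 := true) (s2 := false) (a := 1) (b := 2) (c := 3) (cn := .npn) (n1 := ndB0q1) (n2 := ndB3q2) (pc := pcB3) (cut := Cut.none) (xt := Ext.none) (P1 := 536870912) (W1 := 536870912) (P2 := 1073741824) (W2 := 536870912) (P3 := 858993459) (W3 := 64424510) (N0 := 3) (En := eng) (mo := mog) (C1 := cd0q1) (C2 := cd3q2) (C3 := pd3)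
    rfl (fun _ => rfl) s10_pm_123

noncomputable def f_pm_133 : ℕ → ℕ → ℕ → ℕ → Bool := onCell 536870912 536870912 0 1230186008 858993459 64424510
    (rowB 3 eng mog cd0q1 cd3q3 pd3 0 true true false .dn 1 3 3 (qsf 536870912 536870912 0 1230186008 3) ndB0q1 ndB3q3 pcB3 Cut.none Ext.none)

def k0_pm_133 : ∃ t, chk3 f_pm_133 t 1 1 1 = true :=
  ⟨(b (l 2) (b (l 2) (a (b (l 2) (a (b (l 2) (l 4)) (l 2))) (l 2)))), by decide +kernel⟩

theorem c_pm_133 : CertB 536870912 536870912 0 1230186008 858993459 64424510 3 eng mog cd0q1 cd3q3 pd3 true true false .dn 1 3 3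
    ndB0q1 ndB3q3 pcB3 Cut.none Ext.none :=
  certB0 (fam := true) (s1 := true) (s2 := false) (a := 1) (b := 3) (c := 3) (cn := .dn) (n1 := ndB0q1) (n2 := ndB3q3) (pc := pcB3) (cut := Cut.none) (xt := Ext.none) (P1 := 536870912) (W1 := 536870912) (P2 := 0) (W2 := 1230186008) (P3 := 858993459) (W3 := 64424510) (N0 := 3) (En := eng) (mo := mog) (C1 := cd0q1) (C2 := cd3q3) (C3 := pd3)
    rfl k0_pm_133

noncomputable def f_pm_202 : ℕ → ℕ → ℕ → ℕ → Bool := onCell 0 536870912 1073741824 536870912 858993459 64424510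
    (rowB 3 eng mog cd0q2 cd3q0 pd2 1 true true false .pp 2 0 2 (qsf 0 536870912 0 536870912 2) ndB0q2 ndB3q0 pcB2 Cut.none Ext.none)

def k0_pm_202 : ∃ t, chk3 f_pm_202 t 2 1 1 = true :=
  ⟨(b (b (a (l 1) (b (l 1) (b (l 1) (a (l 1) (b (l 1) (a (l 1) (l 16100880))))))) (b (b (b (a (l 1) (a (c (l 16091552) (l 16061816)) (c (l 16072488) (l 16051240)))) (a (a (l 16025096) (l 16042984)) (a (l 16127416) (c (l 16036112) (l 16007448))))) (a (a (l 16234512) (b (l 16021088) (l 16002936))) (a (c (l 16027624) (l 15976344)) (c (l 15990592) (l 15949896))))) (a (b (a (b (l 15992232) (l 15993248)) (l 16046720)) (a (b (l 16000104) (l 16011400)) (l 16015712))) (b (a (l 16192280) (c (l 15946360) (l 15888136))) (a (l 15938880) (l 15966232)))))) (b (b (a (a (l 4) (b (l 16088336) (l 16004832))) (b (a (l 15932272) (l 15864512)) (a (l 15940168) (l 15861368)))) (a (l 4) (c (b (l 15979680) (l 16006016)) (b (l 15850384) (l 15868552))))) (b (a (l 4) (b (a (l 4) (l 15921088)) (l 4))) (l 4)))),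 by decide +kernel⟩

def k1_pm_202 : ∃ t, chk3 f_pm_202 t 6 4 1 = true :=
  ⟨(b (l 1) (a (b (l 1) (b (a (c (l 16145432) (l 16136984)) (c (l 16127616) (l 16116040))) (a (c (l 16092920) (l 16078656)) (l 16082952)))) (b (a (b (l 1) (c (b (l 16186136) (l 16151600)) (l 16156320))) (b (b (l 1) (a (l 16194960) (l 16176920))) (c (a (l 16147128) (l 16129264)) (l 16119512)))) (a (b (c (l 16102664) (l 16085912)) (c (l 16042664) (l 16020960))) (c (b (l 16068640) (l 16005472)) (b (l 16045880) (l 15978064))))))), by decide +kernel⟩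

def k2_pm_202 : ∃ t, chk3 f_pm_202 t 7 16 1 = true :=
  ⟨(a (l 1) (a (b (l 1) (a (b (l 1) (b (l 1) (a (l 1) (l 16171648)))) (b (b (l 1) (a (l 1) (c (l 16181816) (l 16113352)))) (c (a (l 16183968) (l 16159984)) (a (l 16122312) (l 16093336)))))) (a (b (b (l 1) (a (b (l 1) (b (l 1) (l 16144264))) (b (b (l 1) (a (l 1) (l 16121848))) (c (l 16159632) (l 16119384))))) (b (a (b (c (l 16171248) (l 16096136)) (l 16120408)) (c (l 16138352) (l 16058168))) (c (l 16122344) (l 16047496)))) (b (a (b (b (l 1) (a (b (l 1) (c (l 16164072) (l 16074864))) (a (b (l 1) (l 78952237431)) (b (b (l 1) (l 16106280)) (l 16101400))))) (b (b (c (l 16150456) (l 16081416)) (c (l 16143528) (l 16054240))) (c (l 16133048) (l 16044808)))) (b (a (b (a (b (l 1) (a (l 1) (b (l 1) (l 16103168)))) (b (l 1) (b (b (l 1) (l 16099792)) (a (l 16099328) (l 16095472))))) (a (b (b (l 16101872) (l 16098648)) (l 16093752)) (c (l 16136848) (l 16040192)))) (c (b (a (c (l 16167256) (l 61235505095)) (b (l 16139832)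 (l 16133144))) (l 16126496)) (b (a (c (b (l 16072216) (l 16066128)) (b (l 16041328) (l 16014712))) (b (c (l 16064112) (l 16011400)) (l 16032080))) (b (l 16030384) (l 16024376))))) (c (b (l 16119720) (l 16105984)) (b (a (l 16032192) (l 16015272)) (l 16011360))))) (b (c (a (l 16111936) (l 16085184)) (a (l 16025680) (l 15992512))) (c (l 16112168) (l 15983168))))))), by decide +kernel⟩

def k3_pm_202 : ∃ t, chk3 f_pm_202 t 7 17 1 = true :=
  ⟨(a (a (b (l 1) (b (l 1) (a (l 1) (c (l 16210336) (l 16184216))))) (a (b (l 1) (b (a (l 16200264) (l 16180480)) (l 16180152))) (b (b (b (l 1) (l 16201224)) (c (l 16200464) (l 16157688))) (c (l 16153616) (l 16113256))))) (a (b (a (b (c (l 16230416) (l 16135776)) (c (l 16158112) (l 16107352))) (c (b (l 16142328) (l 16112200)) (b (l 16080416) (l 16052232)))) (c (a (l 16111632) (l 16066408)) (a (l 16063328) (l 16008880)))) (b (a (c (b (l 16093064) (l 16063456)) (b (l 16020392) (l 15992704))) (c (b (l 16041608) (l 16012704)) (b (l 15956672)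 (l 15929616)))) (c (a (l 16018560) (l 15968952)) (a (l 15950192) (l 15888136)))))), by decide +kernel⟩

def k4_pm_202 : ∃ t, chk3 f_pm_202 t 7 9 1 = true :=
  ⟨(a (b (a (b (a (b (c (l 16206432) (l 16186744)) (l 16156248)) (c (b (l 16177768) (l 16142880)) (l 16134192))) (c (a (l 16108856) (l 16087168)) (l 16073680))) (b (c (a (l 16127248) (l 16089736)) (l 16074152)) (c (a (l 16058840) (l 16023784)) (a (l 16028360) (l 15987040))))) (a (c (b (l 16025040) (l 15959016)) (l 16086704)) (c (b (a (l 15986576) (l 15957048)) (l 15903464)) (b (l 15937168) (l 15864040))))) (b (a (c (b (a (l 16048656) (l 16004552)) (l 15963632)) (b (l 15976272) (l 15914656))) (c (b (a (l 15958088) (l 15910144)) (a (l 15897304) (l 15851216))) (b (l 15903640) (l 15803056)))) (a (c (b (a (l 15919616) (l 15879712)) (a (l 15855296) (l 15816544))) (b (l 15850136) (l 15785344))) (c (b (l 15814400) (l 15755656)) (b (l 15743624) (l 15683448)))))), by decide +kernel⟩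

def k5_pm_202 : ∃ t, chk3 f_pm_202 t 3 5 1 = true :=
  ⟨(a (b (a (b (c (b (l 16033440) (l 15990040)) (b (l 16011864) (l 15961824))) (c (l 15976608) (l 15895512))) (b (c (a (l 15964008) (l 15922296)) (a (l 15933784) (l 15886816))) (c (a (l 15878320) (l 15831120)) (a (l 15834704) (l 15782800))))) (a (b (c (l 15877992) (l 15822664)) (c (l 15840584) (l 15768056))) (b (c (a (l 15813280) (l 15761272)) (l 15726160)) (c (l 15740000) (l 15662776))))) (b (a (b (c (a (l 15892808) (b (l 15841584) (l 15785984))) (a (l 15831328) (l 15766200))) (c (a (l 15776000) (l 15713848)) (l 15941168))) (b (a (c (b (l 15773576) (l 15716472)) (l 15689432)) (c (b (a (l 15716896) (l 15677288)) (l 15642208)) (b (l 15622032) (l 15564288)))) (c (a (l 15643224) (l 15568496)) (a (l 15573816) (l 15481096))))) (a (b (c (a (l 15702328) (l 15637696)) (l 15600112)) (c (l 15617056) (l 15531144))) (c (b (a (l 15566432) (l 15493400)) (l 15581176)) (b (l 15436408) (l 15367200)))))), by decide +kernel⟩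

def k6_pm_202 : ∃ t, chk3 f_pm_202 t 3 3 1 = true :=
  ⟨(b (a (b (a (b (l 15775968) (l 15763920)) (b (c (l 15711952) (l 15618144)) (l 15834768))) (a (b (l 15766800) (l 15783688)) (b (l 15643904) (l 15657432)))) (b (a (b (c (l 15584568) (l 15482192)) (c (l 15571008) (l 15452416))) (c (b (l 15445856) (l 15435824)) (b (l 15319240) (l 15291648)))) (a (c (l 15583720) (l 15441384)) (c (b (l 15444848) (l 15471672)) (l 15286064))))) (a (b (a (b (l 15813232) (l 15850176)) (c (l 15785384) (l 15622152))) (a (b (l 15888888) (l 4)) (b (l 15780496) (l 15836464)))) (b (a (b (l 15551336) (l 15596128)) (b (l 15417472) (l 15468072))) (a (b (l 15654752) (l 15725584)) (b (l 15532400) (l 15608696)))))), by decide +kernel⟩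

theorem s7_pm_202 : ∃ t, chk3 f_pm_202 t 7 8 1 = true := ex3_b k2_pm_202 k3_pm_202

theorem s8_pm_202 : ∃ t, chk3 f_pm_202 t 7 4 1 = true := ex3_b s7_pm_202 k4_pm_202

theorem s9_pm_202 : ∃ t, chk3 f_pm_202 t 3 4 1 = true := ex3_a k1_pm_202 s8_pm_202

theorem s10_pm_202 : ∃ t, chk3 f_pm_202 t 3 2 1 = true := ex3_b s9_pm_202 k5_pm_202

theorem s11_pm_202 : ∃ t, chk3 f_pm_202 t 3 1 1 = true := ex3_b s10_pm_202 k6_pm_202

theorem s12_pm_202 : ∃ t, chk3 f_pm_202 t 1 1 1 = true := ex3_a k0_pm_202 s11_pm_202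

theorem c_pm_202 : CertB 0 536870912 0 536870912 858993459 64424510 3 eng mog cd0q2 cd3q0 pd2 true true false .pp 2 0 2
    ndB0q2 ndB3q0 pcB2 Cut.none Ext.none :=
  certB1 (fam := true) (s1 := true) (s2 := false) (a := 2) (b := 0) (c := 2) (cn := .pp) (n1 := ndB0q2) (n2 := ndB3q0) (pc := pcB2) (cut := Cut.none) (xt := Ext.none) (P1 := 0) (W1 := 536870912) (P2 := 0) (W2 := 536870912) (P3 := 858993459) (W3 := 64424510) (N0 := 3) (En := eng) (mo := mog) (C1 := cd0q2) (C2 := cd3q0) (C3 := pd2)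
    rfl (fun _ => rfl) s12_pm_202

noncomputable def f_pm_203 : ℕ → ℕ → ℕ → ℕ → Bool := onCell 0 536870912 1610612736 536870912 858993459 64424510
    (rowB 3 eng mog cd0q2 cd3q0 pd3 1 true true false .up 2 0 3 (qsf 0 536870912 0 536870912 3) ndB0q2 ndB3q0 pcB3 Cut.none Ext.none)

def k0_pm_203 : ∃ t, chk3 f_pm_203 t 1 1 1 = true :=
  ⟨(b (a (l 4) (b (a (l 4) (b (b (a (l 15819984) (l 15760576)) (a (l 15877560) (l 15813120))) (a (l 4) (l 2)))) (l 4))) (l 2)), by decide +kernel⟩

theorem c_pm_203 : CertB 0 536870912 0 536870912 858993459 64424510 3 eng mog cd0q2 cd3q0 pd3 true true false .up 2 0 3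
    ndB0q2 ndB3q0 pcB3 Cut.none Ext.none :=
  certB1 (fam := true) (s1 := true) (s2 := false) (a := 2) (b := 0) (c := 3) (cn := .up) (n1 := ndB0q2) (n2 := ndB3q0) (pc := pcB3) (cut := Cut.none) (xt := Ext.none) (P1 := 0) (W1 := 536870912) (P2 := 0) (W2 := 536870912) (P3 := 858993459) (W3 := 64424510) (N0 := 3) (En := eng) (mo := mog) (C1 := cd0q2) (C2 := cd3q0) (C3 := pd3)
    rfl (fun _ => rfl) k0_pm_203

noncomputable def f_pm_213 : ℕ → ℕ → ℕ → ℕ → Bool := onCell 0 536870912 1610612736 536870912 858993459 64424510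
    (rowB 3 eng mog cd0q2 cd3q1 pd3 1 true true false .pnn 2 1 3 (qsf 0 536870912 536870912 536870912 3) ndB0q2 ndB3q1 pcB3 Cut.none Ext.none)

def k0_pm_213 : ∃ t, chk3 f_pm_213 t 1 1 1 = true :=
  ⟨(b (a (l 4) (b (a (l 4) (b (b (a (l 1) (l 15785472)) (a (l 15908440) (l 15817720))) (a (l 4) (b (l 15867408) (l 15932656))))) (l 4))) (l 4)), by decide +kernel⟩

theorem c_pm_213 : CertB 0 536870912 536870912 536870912 858993459 64424510 3 eng mog cd0q2 cd3q1 pd3 true true false .pnn 2 1 3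
    ndB0q2 ndB3q1 pcB3 Cut.none Ext.none :=
  certB1 (fam := true) (s1 := true) (s2 := false) (a := 2) (b := 1) (c := 3) (cn := .pnn) (n1 := ndB0q2) (n2 := ndB3q1) (pc := pcB3) (cut := Cut.none) (xt := Ext.none) (P1 := 0) (W1 := 536870912) (P2 := 536870912) (W2 := 536870912) (P3 := 858993459) (W3 := 64424510) (N0 := 3) (En := eng) (mo := mog) (C1 := cd0q2) (C2 := cd3q1) (C3 := pd3)
    rfl (fun _ => rfl) k0_pm_213

noncomputable def f_mm_001 : ℕ → ℕ → ℕ → ℕ → Bool := onCell 0 536870912 0 536870912 858993459 64424510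
    (rowB 3 eng mog cd0q0 cd3q0 pd1 0 true false false .up 0 0 1 (qsf 0 536870912 0 536870912 1) ndB0q0 ndB3q0 pcB1 Cut.none Ext.none)

def k0_mm_001 : ∃ t, chk3 f_mm_001 t 1 1 1 = true :=
  ⟨(l 4), by decide +kernel⟩

theorem c_mm_001 : CertB 0 536870912 0 536870912 858993459 64424510 3 eng mog cd0q0 cd3q0 pd1 true false false .up 0 0 1
    ndB0q0 ndB3q0 pcB1 Cut.none Ext.none :=
  certB0 (fam := true) (s1 := false) (s2 := false) (a := 0) (b := 0) (c := 1) (cn := .up) (n1 := ndB0q0) (n2 := ndB3q0) (pc := pcB1) (cut := Cut.none) (xt := Ext.none) (P1 := 0) (W1 := 536870912) (P2 := 0) (W2 := 536870912) (P3 := 858993459) (W3 := 64424510) (N0 := 3) (En := eng) (mo := mog) (C1 := cd0q0) (C2 := cd3q0) (C3 := pd1)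
    rfl k0_mm_001

noncomputable def f_mm_011 : ℕ → ℕ → ℕ → ℕ → Bool := onCell 0 536870912 536870912 536870912 858993459 64424510
    (rowB 3 eng mog cd0q0 cd3q1 pd1 0 true false false .pnn 0 1 1 (qsf 0 536870912 536870912 536870912 1) ndB0q0 ndB3q1 pcB1 Cut.none Ext.none)

def k0_mm_011 : ∃ t, chk3 f_mm_011 t 1 1 1 = true :=
  ⟨(l 4), by decide +kernel⟩

theorem c_mm_011 : CertB 0 536870912 536870912 536870912 858993459 64424510 3 eng mog cd0q0 cd3q1 pd1 true false false .pnn 0 1 1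
    ndB0q0 ndB3q1 pcB1 Cut.none Ext.none :=
  certB0 (fam := true) (s1 := false) (s2 := false) (a := 0) (b := 1) (c := 1) (cn := .pnn) (n1 := ndB0q0) (n2 := ndB3q1) (pc := pcB1) (cut := Cut.none) (xt := Ext.none) (P1 := 0) (W1 := 536870912) (P2 := 536870912) (W2 := 536870912) (P3 := 858993459) (W3 := 64424510) (N0 := 3) (En := eng) (mo := mog) (C1 := cd0q0) (C2 := cd3q1) (C3 := pd1)
    rfl k0_mm_011

noncomputable def f_mm_012 : ℕ → ℕ → ℕ → ℕ → Bool := onCell 0 536870912 536870912 536870912 858993459 64424510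
    (rowB 3 eng mog cd0q0 cd3q1 pd2 0 true false false .pnp 0 1 2 (qsf 0 536870912 536870912 536870912 2) ndB0q0 ndB3q1 pcB2 Cut.none Ext.none)

def k0_mm_012 : ∃ t, chk3 f_mm_012 t 1 1 1 = true :=
  ⟨(l 4), by decide +kernel⟩

theorem c_mm_012 : CertB 0 536870912 536870912 536870912 858993459 64424510 3 eng mog cd0q0 cd3q1 pd2 true false false .pnp 0 1 2
    ndB0q0 ndB3q1 pcB2 Cut.none Ext.none :=
  certB0 (fam := true) (s1 := false) (s2 := false) (a := 0) (b := 1) (c := 2) (cn := .pnp) (n1 := ndB0q0) (n2 := ndB3q1) (pc := pcB2) (cut := Cut.none) (xt := Ext.none) (P1 := 0) (W1 := 536870912) (P2 := 536870912) (W2 := 536870912) (P3 := 858993459) (W3 := 64424510) (N0 := 3) (En := eng) (mo := mog) (C1 := cd0q0) (C2 := cd3q1) (C3 := pd2)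
    rfl k0_mm_012

noncomputable def f_mm_022 : ℕ → ℕ → ℕ → ℕ → Bool := onCell 0 536870912 1073741824 536870912 858993459 64424510
    (rowB 3 eng mog cd0q0 cd3q2 pd2 0 true false false .pp 0 2 2 (qsf 0 536870912 1073741824 536870912 2) ndB0q0 ndB3q2 pcB2 Cut.none Ext.none)

def k0_mm_022 : ∃ t, chk3 f_mm_022 t 1 1 1 = true :=
  ⟨(l 4), by decide +kernel⟩

theorem c_mm_022 : CertB 0 536870912 1073741824 536870912 858993459 64424510 3 eng mog cd0q0 cd3q2 pd2 true false false .pp 0 2 2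
    ndB0q0 ndB3q2 pcB2 Cut.none Ext.none :=
  certB0 (fam := true) (s1 := false) (s2 := false) (a := 0) (b := 2) (c := 2) (cn := .pp) (n1 := ndB0q0) (n2 := ndB3q2) (pc := pcB2) (cut := Cut.none) (xt := Ext.none) (P1 := 0) (W1 := 536870912) (P2 := 1073741824) (W2 := 536870912) (P3 := 858993459) (W3 := 64424510) (N0 := 3) (En := eng) (mo := mog) (C1 := cd0q0) (C2 := cd3q2) (C3 := pd2)
    rfl k0_mm_022

noncomputable def f_mm_023 : ℕ → ℕ → ℕ → ℕ → Bool := onCell 0 536870912 1073741824 536870912 858993459 64424510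
    (rowB 3 eng mog cd0q0 cd3q2 pd3 0 true false false .up 0 2 3 (qsf 0 536870912 1073741824 536870912 3) ndB0q0 ndB3q2 pcB3 Cut.none Ext.none)

def k0_mm_023 : ∃ t, chk3 f_mm_023 t 1 1 1 = true :=
  ⟨(l 4), by decide +kernel⟩

theorem c_mm_023 : CertB 0 536870912 1073741824 536870912 858993459 64424510 3 eng mog cd0q0 cd3q2 pd3 true false false .up 0 2 3
    ndB0q0 ndB3q2 pcB3 Cut.none Ext.none :=
  certB0 (fam := true) (s1 := false) (s2 := false) (a := 0) (b := 2) (c := 3) (cn := .up) (n1 := ndB0q0) (n2 := ndB3q2) (pc := pcB3) (cut := Cut.none) (xt := Ext.none) (P1 := 0) (W1 := 536870912) (P2 := 1073741824) (W2 := 536870912) (P3 := 858993459) (W3 := 64424510) (N0 := 3) (En := eng) (mo := mog) (C1 := cd0q0) (C2 := cd3q2) (C3 := pd3)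
    rfl k0_mm_023

noncomputable def f_mm_033 : ℕ → ℕ → ℕ → ℕ → Bool := onCell 0 536870912 0 1230186008 858993459 64424510
    (rowB 3 eng mog cd0q0 cd3q3 pd3 0 true false false .pnn 0 3 3 (qsf 0 536870912 0 1230186008 3) ndB0q0 ndB3q3 pcB3 Cut.none Ext.none)

def k0_mm_033 : ∃ t, chk3 f_mm_033 t 1 1 1 = true :=
  ⟨(l 5), by decide +kernel⟩

theorem c_mm_033 : CertB 0 536870912 0 1230186008 858993459 64424510 3 eng mog cd0q0 cd3q3 pd3 true false false .pnn 0 3 3
    ndB0q0 ndB3q3 pcB3 Cut.none Ext.none :=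
  certB0 (fam := true) (s1 := false) (s2 := false) (a := 0) (b := 3) (c := 3) (cn := .pnn) (n1 := ndB0q0) (n2 := ndB3q3) (pc := pcB3) (cut := Cut.none) (xt := Ext.none) (P1 := 0) (W1 := 536870912) (P2 := 0) (W2 := 1230186008) (P3 := 858993459) (W3 := 64424510) (N0 := 3) (En := eng) (mo := mog) (C1 := cd0q0) (C2 := cd3q3) (C3 := pd3)
    rfl k0_mm_033

noncomputable def f_mm_101 : ℕ → ℕ → ℕ → ℕ → Bool := onCell 536870912 536870912 0 536870912 858993459 64424510
    (rowB 3 eng mog cd0q1 cd3q0 pd1 0 true false false .npn 1 0 1 (qsf 536870912 536870912 0 536870912 1) ndB0q1 ndB3q0 pcB1 Cut.none Ext.none)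

def k0_mm_101 : ∃ t, chk3 f_mm_101 t 1 1 1 = true :=
  ⟨(l 4), by decide +kernel⟩

theorem c_mm_101 : CertB 536870912 536870912 0 536870912 858993459 64424510 3 eng mog cd0q1 cd3q0 pd1 true false false .npn 1 0 1
    ndB0q1 ndB3q0 pcB1 Cut.none Ext.none :=
  certB0 (fam := true) (s1 := false) (s2 := false) (a := 1) (b := 0) (c := 1) (cn := .npn) (n1 := ndB0q1) (n2 := ndB3q0) (pc := pcB1) (cut := Cut.none) (xt := Ext.none) (P1 := 536870912) (W1 := 536870912) (P2 := 0) (W2 := 536870912) (P3 := 858993459) (W3 := 64424510) (N0 := 3) (En := eng) (mo := mog) (C1 := cd0q1) (C2 := cd3q0) (C3 := pd1)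
    rfl k0_mm_101

noncomputable def f_mm_102 : ℕ → ℕ → ℕ → ℕ → Bool := onCell 536870912 536870912 0 536870912 858993459 64424510
    (rowB 3 eng mog cd0q1 cd3q0 pd2 0 true false false .npp 1 0 2 (qsf 536870912 536870912 0 536870912 2) ndB0q1 ndB3q0 pcB2 Cut.none Ext.none)

def k0_mm_102 : ∃ t, chk3 f_mm_102 t 1 1 1 = true :=
  ⟨(l 4), by decide +kernel⟩

theorem c_mm_102 : CertB 536870912 536870912 0 536870912 858993459 64424510 3 eng mog cd0q1 cd3q0 pd2 true false false .npp 1 0 2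
    ndB0q1 ndB3q0 pcB2 Cut.none Ext.none :=
  certB0 (fam := true) (s1 := false) (s2 := false) (a := 1) (b := 0) (c := 2) (cn := .npp) (n1 := ndB0q1) (n2 := ndB3q0) (pc := pcB2) (cut := Cut.none) (xt := Ext.none) (P1 := 536870912) (W1 := 536870912) (P2 := 0) (W2 := 536870912) (P3 := 858993459) (W3 := 64424510) (N0 := 3) (En := eng) (mo := mog) (C1 := cd0q1) (C2 := cd3q0) (C3 := pd2)
    rfl k0_mm_102

noncomputable def f_mm_112 : ℕ → ℕ → ℕ → ℕ → Bool := onCell 536870912 536870912 536870912 536870912 858993459 64424510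
    (rowB 3 eng mog cd0q1 cd3q1 pd2 0 true false false .dn 1 1 2 (qsf 536870912 536870912 536870912 536870912 2) ndB0q1 ndB3q1 pcB2 Cut.none Ext.none)

def k0_mm_112 : ∃ t, chk3 f_mm_112 t 1 1 1 = true :=
  ⟨(l 4), by decide +kernel⟩

theorem c_mm_112 : CertB 536870912 536870912 536870912 536870912 858993459 64424510 3 eng mog cd0q1 cd3q1 pd2 true false false .dn 1 1 2
    ndB0q1 ndB3q1 pcB2 Cut.none Ext.none :=
  certB0 (fam := true) (s1 := false) (s2 := false) (a := 1) (b := 1) (c := 2) (cn := .dn) (n1 := ndB0q1) (n2 := ndB3q1) (pc := pcB2) (cut := Cut.none) (xt := Ext.none) (P1 := 536870912) (W1 := 536870912) (P2 := 536870912) (W2 := 536870912) (P3 := 858993459) (W3 := 64424510) (N0 := 3) (En := eng) (mo := mog) (C1 := cd0q1) (C2 := cd3q1) (C3 := pd2)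
    rfl k0_mm_112

noncomputable def f_mm_113 : ℕ → ℕ → ℕ → ℕ → Bool := onCell 536870912 536870912 536870912 536870912 858993459 64424510
    (rowB 3 eng mog cd0q1 cd3q1 pd3 0 true false false .nn 1 1 3 (qsf 536870912 536870912 536870912 536870912 3) ndB0q1 ndB3q1 pcB3 Cut.none Ext.none)

def k0_mm_113 : ∃ t, chk3 f_mm_113 t 1 1 1 = true :=
  ⟨(l 4), by decide +kernel⟩

theorem c_mm_113 : CertB 536870912 536870912 536870912 536870912 858993459 64424510 3 eng mog cd0q1 cd3q1 pd3 true false false .nn 1 1 3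
    ndB0q1 ndB3q1 pcB3 Cut.none Ext.none :=
  certB0 (fam := true) (s1 := false) (s2 := false) (a := 1) (b := 1) (c := 3) (cn := .nn) (n1 := ndB0q1) (n2 := ndB3q1) (pc := pcB3) (cut := Cut.none) (xt := Ext.none) (P1 := 536870912) (W1 := 536870912) (P2 := 536870912) (W2 := 536870912) (P3 := 858993459) (W3 := 64424510) (N0 := 3) (En := eng) (mo := mog) (C1 := cd0q1) (C2 := cd3q1) (C3 := pd3)
    rfl k0_mm_113

noncomputable def f_mm_123 : ℕ → ℕ → ℕ → ℕ → Bool := onCell 536870912 536870912 1073741824 536870912 858993459 64424510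
    (rowB 3 eng mog cd0q1 cd3q2 pd3 0 true false false .npn 1 2 3 (qsf 536870912 536870912 1073741824 536870912 3) ndB0q1 ndB3q2 pcB3 Cut.none Ext.none)

def k0_mm_123 : ∃ t, chk3 f_mm_123 t 1 1 1 = true :=
  ⟨(l 4), by decide +kernel⟩

theorem c_mm_123 : CertB 536870912 536870912 1073741824 536870912 858993459 64424510 3 eng mog cd0q1 cd3q2 pd3 true false false .npn 1 2 3
    ndB0q1 ndB3q2 pcB3 Cut.none Ext.none :=
  certB0 (fam := true) (s1 := false) (s2 := false) (a := 1) (b := 2) (c := 3) (cn := .npn) (n1 := ndB0q1) (n2 := ndB3q2) (pc := pcB3) (cut := Cut.none) (xt := Ext.none) (P1 := 536870912) (W1 := 536870912) (P2 := 1073741824) (W2 := 536870912) (P3 := 858993459) (W3 := 64424510) (N0 := 3) (En := eng) (mo := mog) (C1 := cd0q1) (C2 := cd3q2) (C3 := pd3)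
    rfl k0_mm_123

noncomputable def f_mm_133 : ℕ → ℕ → ℕ → ℕ → Bool := onCell 536870912 536870912 0 1230186008 858993459 64424510
    (rowB 3 eng mog cd0q1 cd3q3 pd3 0 true false false .dn 1 3 3 (qsf 536870912 536870912 0 1230186008 3) ndB0q1 ndB3q3 pcB3 Cut.none Ext.none)

def k0_mm_133 : ∃ t, chk3 f_mm_133 t 1 1 1 = true :=
  ⟨(l 4), by decide +kernel⟩

theorem c_mm_133 : CertB 536870912 536870912 0 1230186008 858993459 64424510 3 eng mog cd0q1 cd3q3 pd3 true false false .dn 1 3 3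
    ndB0q1 ndB3q3 pcB3 Cut.none Ext.none :=
  certB0 (fam := true) (s1 := false) (s2 := false) (a := 1) (b := 3) (c := 3) (cn := .dn) (n1 := ndB0q1) (n2 := ndB3q3) (pc := pcB3) (cut := Cut.none) (xt := Ext.none) (P1 := 536870912) (W1 := 536870912) (P2 := 0) (W2 := 1230186008) (P3 := 858993459) (W3 := 64424510) (N0 := 3) (En := eng) (mo := mog) (C1 := cd0q1) (C2 := cd3q3) (C3 := pd3)
    rfl k0_mm_133

noncomputable def f_mm_202 : ℕ → ℕ → ℕ → ℕ → Bool := onCell 0 536870912 0 536870912 858993459 64424510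
    (rowB 3 eng mog cd0q2 cd3q0 pd2 0 true false false .pp 2 0 2 (qsf 0 536870912 0 536870912 2) ndB0q2 ndB3q0 pcB2 Cut.none Ext.none)

def k0_mm_202 : ∃ t, chk3 f_mm_202 t 1 1 1 = true :=
  ⟨(b (a (b (b (a (a (b (b (l 16020384) (l 16003448)) (b (l 16013096) (l 4))) (l 4)) (l 4)) (l 4)) (l 4)) (l 4)) (l 4)), by decide +kernel⟩

theorem c_mm_202 : CertB 0 536870912 0 536870912 858993459 64424510 3 eng mog cd0q2 cd3q0 pd2 true false false .pp 2 0 2
    ndB0q2 ndB3q0 pcB2 Cut.none Ext.none :=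
  certB0 (fam := true) (s1 := false) (s2 := false) (a := 2) (b := 0) (c := 2) (cn := .pp) (n1 := ndB0q2) (n2 := ndB3q0) (pc := pcB2) (cut := Cut.none) (xt := Ext.none) (P1 := 0) (W1 := 536870912) (P2 := 0) (W2 := 536870912) (P3 := 858993459) (W3 := 64424510) (N0 := 3) (En := eng) (mo := mog) (C1 := cd0q2) (C2 := cd3q0) (C3 := pd2)
    rfl k0_mm_202

noncomputable def f_mm_203 : ℕ → ℕ → ℕ → ℕ → Bool := onCell 0 536870912 1610612736 536870912 858993459 64424510
    (rowB 3 eng mog cd0q2 cd3q0 pd3 1 true false false .up 2 0 3 (qsf 0 536870912 0 536870912 3) ndB0q2 ndB3q0 pcB3 Cut.none Ext.none)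

def k0_mm_203 : ∃ t, chk3 f_mm_203 t 1 1 1 = true :=
  ⟨(l 4), by decide +kernel⟩

theorem c_mm_203 : CertB 0 536870912 0 536870912 858993459 64424510 3 eng mog cd0q2 cd3q0 pd3 true false false .up 2 0 3
    ndB0q2 ndB3q0 pcB3 Cut.none Ext.none :=
  certB1 (fam := true) (s1 := false) (s2 := false) (a := 2) (b := 0) (c := 3) (cn := .up) (n1 := ndB0q2) (n2 := ndB3q0) (pc := pcB3) (cut := Cut.none) (xt := Ext.none) (P1 := 0) (W1 := 536870912) (P2 := 0) (W2 := 536870912) (P3 := 858993459) (W3 := 64424510) (N0 := 3) (En := eng) (mo := mog) (C1 := cd0q2) (C2 := cd3q0) (C3 := pd3)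
    rfl (fun _ => rfl) k0_mm_203

noncomputable def f_mm_213 : ℕ → ℕ → ℕ → ℕ → Bool := onCell 0 536870912 536870912 536870912 858993459 64424510
    (rowB 3 eng mog cd0q2 cd3q1 pd3 0 true false false .pnn 2 1 3 (qsf 0 536870912 536870912 536870912 3) ndB0q2 ndB3q1 pcB3 Cut.none Ext.none)

def k0_mm_213 : ∃ t, chk3 f_mm_213 t 1 1 1 = true :=
  ⟨(l 4), by decide +kernel⟩

theorem c_mm_213 : CertB 0 536870912 536870912 536870912 858993459 64424510 3 eng mog cd0q2 cd3q1 pd3 true false false .pnn 2 1 3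
    ndB0q2 ndB3q1 pcB3 Cut.none Ext.none :=
  certB0 (fam := true) (s1 := false) (s2 := false) (a := 2) (b := 1) (c := 3) (cn := .pnn) (n1 := ndB0q2) (n2 := ndB3q1) (pc := pcB3) (cut := Cut.none) (xt := Ext.none) (P1 := 0) (W1 := 536870912) (P2 := 536870912) (W2 := 536870912) (P3 := 858993459) (W3 := 64424510) (N0 := 3) (En := eng) (mo := mog) (C1 := cd0q2) (C2 := cd3q1) (C3 := pd3)
    rfl k0_mm_213

end Pool.Agent.Strip051.G.I8000_8600.Tab.C.BA03

namespace Pool.Agent.Strip051.G.I8000_8600.Tab.C.BA04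

open Pool.Agent.Strip051.PB Pool.Agent.Strip051.PB.T
open Pool.Agent.Strip051.G.I8000_8600.Tab

noncomputable def cut_pp_001 : Cut := Cut.of [[⟨3, 0, 0, 1449551462⟩]]

noncomputable def f_pp_001 : ℕ → ℕ → ℕ → ℕ → Bool := onCell 0 536870912 0 536870912 858993459 64424510
    (rowB 3 eng mog cd0q0 cd4q0 pd1 0 true true true .up 0 0 1 (qsf 0 536870912 0 536870912 1) ndB0q0 ndB4q0 pcB1 cut_pp_001 Ext.none)

def k0_pp_001 : ∃ t, chk3 f_pp_001 t 1 1 1 = true :=
  ⟨(l 4), by decide +kernel⟩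

theorem c_pp_001 : CertB 0 536870912 0 536870912 858993459 64424510 3 eng mog cd0q0 cd4q0 pd1 true true true .up 0 0 1
    ndB0q0 ndB4q0 pcB1 cut_pp_001 Ext.none :=
  certB0 (fam := true) (s1 := true) (s2 := true) (a := 0) (b := 0) (c := 1) (cn := .up) (n1 := ndB0q0) (n2 := ndB4q0) (pc := pcB1) (cut := cut_pp_001) (xt := Ext.none) (P1 := 0) (W1 := 536870912) (P2 := 0) (W2 := 536870912) (P3 := 858993459) (W3 := 64424510) (N0 := 3) (En := eng) (mo := mog) (C1 := cd0q0) (C2 := cd4q0) (C3 := pd1)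
    rfl k0_pp_001

noncomputable def cut_pp_011 : Cut := Cut.of [[⟨3, 0, 0, 1449551462⟩]]

noncomputable def f_pp_011 : ℕ → ℕ → ℕ → ℕ → Bool := onCell 0 536870912 536870912 536870912 858993459 64424510
    (rowB 3 eng mog cd0q0 cd4q1 pd1 0 true true true .pnn 0 1 1 (qsf 0 536870912 536870912 536870912 1) ndB0q0 ndB4q1 pcB1 cut_pp_011 Ext.none)

def k0_pp_011 : ∃ t, chk3 f_pp_011 t 1 1 1 = true :=
  ⟨(l 4), by decide +kernel⟩

theorem c_pp_011 : CertB 0 536870912 536870912 536870912 858993459 64424510 3 eng mog cd0q0 cd4q1 pd1 true true true .pnn 0 1 1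
    ndB0q0 ndB4q1 pcB1 cut_pp_011 Ext.none :=
  certB0 (fam := true) (s1 := true) (s2 := true) (a := 0) (b := 1) (c := 1) (cn := .pnn) (n1 := ndB0q0) (n2 := ndB4q1) (pc := pcB1) (cut := cut_pp_011) (xt := Ext.none) (P1 := 0) (W1 := 536870912) (P2 := 536870912) (W2 := 536870912) (P3 := 858993459) (W3 := 64424510) (N0 := 3) (En := eng) (mo := mog) (C1 := cd0q0) (C2 := cd4q1) (C3 := pd1)
    rfl k0_pp_011

noncomputable def cut_pp_012 : Cut := Cut.of [[⟨3, 0, 0, 1449551462⟩]]

noncomputable def f_pp_012 : ℕ → ℕ → ℕ → ℕ → Bool := onCell 0 536870912 536870912 536870912 858993459 64424510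
    (rowB 3 eng mog cd0q0 cd4q1 pd2 0 true true true .pnp 0 1 2 (qsf 0 536870912 536870912 536870912 2) ndB0q0 ndB4q1 pcB2 cut_pp_012 Ext.none)

def k0_pp_012 : ∃ t, chk3 f_pp_012 t 1 1 1 = true :=
  ⟨(l 4), by decide +kernel⟩

theorem c_pp_012 : CertB 0 536870912 536870912 536870912 858993459 64424510 3 eng mog cd0q0 cd4q1 pd2 true true true .pnp 0 1 2
    ndB0q0 ndB4q1 pcB2 cut_pp_012 Ext.none :=
  certB0 (fam := true) (s1 := true) (s2 := true) (a := 0) (b := 1) (c := 2) (cn := .pnp) (n1 := ndB0q0) (n2 := ndB4q1) (pc := pcB2) (cut := cut_pp_012) (xt := Ext.none) (P1 := 0) (W1 := 536870912) (P2 := 536870912) (W2 := 536870912) (P3 := 858993459) (W3 := 64424510) (N0 := 3) (En := eng) (mo := mog) (C1 := cd0q0) (C2 := cd4q1) (C3 := pd2)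
    rfl k0_pp_012

noncomputable def cut_pp_022 : Cut := Cut.of [[⟨3, 0, 0, 1449551462⟩]]

noncomputable def f_pp_022 : ℕ → ℕ → ℕ → ℕ → Bool := onCell 0 536870912 1073741824 536870912 858993459 64424510
    (rowB 3 eng mog cd0q0 cd4q2 pd2 0 true true true .pp 0 2 2 (qsf 0 536870912 1073741824 536870912 2) ndB0q0 ndB4q2 pcB2 cut_pp_022 Ext.none)

def k0_pp_022 : ∃ t, chk3 f_pp_022 t 1 1 1 = true :=
  ⟨(l 4), by decide +kernel⟩

theorem c_pp_022 : CertB 0 536870912 1073741824 536870912 858993459 64424510 3 eng mog cd0q0 cd4q2 pd2 true true true .pp 0 2 2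
    ndB0q0 ndB4q2 pcB2 cut_pp_022 Ext.none :=
  certB0 (fam := true) (s1 := true) (s2 := true) (a := 0) (b := 2) (c := 2) (cn := .pp) (n1 := ndB0q0) (n2 := ndB4q2) (pc := pcB2) (cut := cut_pp_022) (xt := Ext.none) (P1 := 0) (W1 := 536870912) (P2 := 1073741824) (W2 := 536870912) (P3 := 858993459) (W3 := 64424510) (N0 := 3) (En := eng) (mo := mog) (C1 := cd0q0) (C2 := cd4q2) (C3 := pd2)
    rfl k0_pp_022

noncomputable def cut_pp_023 : Cut := Cut.of [[⟨3, 0, 0, 1449551462⟩]]

noncomputable def f_pp_023 : ℕ → ℕ → ℕ → ℕ → Bool := onCell 0 536870912 1073741824 536870912 858993459 64424510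
    (rowB 3 eng mog cd0q0 cd4q2 pd3 0 true true true .up 0 2 3 (qsf 0 536870912 1073741824 536870912 3) ndB0q0 ndB4q2 pcB3 cut_pp_023 Ext.none)

def k0_pp_023 : ∃ t, chk3 f_pp_023 t 1 1 1 = true :=
  ⟨(l 4), by decide +kernel⟩

theorem c_pp_023 : CertB 0 536870912 1073741824 536870912 858993459 64424510 3 eng mog cd0q0 cd4q2 pd3 true true true .up 0 2 3
    ndB0q0 ndB4q2 pcB3 cut_pp_023 Ext.none :=
  certB0 (fam := true) (s1 := true) (s2 := true) (a := 0) (b := 2) (c := 3) (cn := .up) (n1 := ndB0q0) (n2 := ndB4q2) (pc := pcB3) (cut := cut_pp_023) (xt := Ext.none) (P1 := 0) (W1 := 536870912) (P2 := 1073741824) (W2 := 536870912) (P3 := 858993459) (W3 := 64424510) (N0 := 3) (En := eng) (mo := mog) (C1 := cd0q0) (C2 := cd4q2) (C3 := pd3)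
    rfl k0_pp_023

noncomputable def cut_pp_033 : Cut := Cut.of [[⟨3, 0, 0, 1449551462⟩]]

noncomputable def f_pp_033 : ℕ → ℕ → ℕ → ℕ → Bool := onCell 0 536870912 0 1230186008 858993459 64424510
    (rowB 3 eng mog cd0q0 cd4q3 pd3 0 true true true .pnn 0 3 3 (qsf 0 536870912 0 1230186008 3) ndB0q0 ndB4q3 pcB3 cut_pp_033 Ext.none)

def k0_pp_033 : ∃ t, chk3 f_pp_033 t 1 1 1 = true :=
  ⟨(l 4), by decide +kernel⟩

theorem c_pp_033 : CertB 0 536870912 0 1230186008 858993459 64424510 3 eng mog cd0q0 cd4q3 pd3 true true true .pnn 0 3 3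
    ndB0q0 ndB4q3 pcB3 cut_pp_033 Ext.none :=
  certB0 (fam := true) (s1 := true) (s2 := true) (a := 0) (b := 3) (c := 3) (cn := .pnn) (n1 := ndB0q0) (n2 := ndB4q3) (pc := pcB3) (cut := cut_pp_033) (xt := Ext.none) (P1 := 0) (W1 := 536870912) (P2 := 0) (W2 := 1230186008) (P3 := 858993459) (W3 := 64424510) (N0 := 3) (En := eng) (mo := mog) (C1 := cd0q0) (C2 := cd4q3) (C3 := pd3)
    rfl k0_pp_033

noncomputable def cut_pp_101 : Cut := Cut.of [[⟨3, 0, 0, 1449551462⟩]]

noncomputable def f_pp_101 : ℕ → ℕ → ℕ → ℕ → Bool := onCell 536870912 536870912 0 536870912 858993459 64424510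
    (rowB 3 eng mog cd0q1 cd4q0 pd1 0 true true true .npn 1 0 1 (qsf 536870912 536870912 0 536870912 1) ndB0q1 ndB4q0 pcB1 cut_pp_101 Ext.none)

def k0_pp_101 : ∃ t, chk3 f_pp_101 t 1 1 1 = true :=
  ⟨(l 4), by decide +kernel⟩

theorem c_pp_101 : CertB 536870912 536870912 0 536870912 858993459 64424510 3 eng mog cd0q1 cd4q0 pd1 true true true .npn 1 0 1
    ndB0q1 ndB4q0 pcB1 cut_pp_101 Ext.none :=
  certB0 (fam := true) (s1 := true) (s2 := true) (a := 1) (b := 0) (c := 1) (cn := .npn) (n1 := ndB0q1) (n2 := ndB4q0) (pc := pcB1) (cut := cut_pp_101) (xt := Ext.none) (P1 := 536870912) (W1 := 536870912) (P2 := 0) (W2 := 536870912) (P3 := 858993459) (W3 := 64424510) (N0 := 3) (En := eng) (mo := mog) (C1 := cd0q1) (C2 := cd4q0) (C3 := pd1)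
    rfl k0_pp_101

noncomputable def cut_pp_102 : Cut := Cut.of [[⟨3, 0, 0, 1449551462⟩]]

noncomputable def f_pp_102 : ℕ → ℕ → ℕ → ℕ → Bool := onCell 536870912 536870912 0 536870912 858993459 64424510
    (rowB 3 eng mog cd0q1 cd4q0 pd2 0 true true true .npp 1 0 2 (qsf 536870912 536870912 0 536870912 2) ndB0q1 ndB4q0 pcB2 cut_pp_102 Ext.none)

def k0_pp_102 : ∃ t, chk3 f_pp_102 t 1 1 1 = true :=
  ⟨(l 4), by decide +kernel⟩

theorem c_pp_102 : CertB 536870912 536870912 0 536870912 858993459 64424510 3 eng mog cd0q1 cd4q0 pd2 true true true .npp 1 0 2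
    ndB0q1 ndB4q0 pcB2 cut_pp_102 Ext.none :=
  certB0 (fam := true) (s1 := true) (s2 := true) (a := 1) (b := 0) (c := 2) (cn := .npp) (n1 := ndB0q1) (n2 := ndB4q0) (pc := pcB2) (cut := cut_pp_102) (xt := Ext.none) (P1 := 536870912) (W1 := 536870912) (P2 := 0) (W2 := 536870912) (P3 := 858993459) (W3 := 64424510) (N0 := 3) (En := eng) (mo := mog) (C1 := cd0q1) (C2 := cd4q0) (C3 := pd2)
    rfl k0_pp_102

noncomputable def cut_pp_112 : Cut := Cut.of [[⟨3, 0, 0, 1449551462⟩]]

noncomputable def f_pp_112 : ℕ → ℕ → ℕ → ℕ → Bool := onCell 536870912 536870912 536870912 536870912 858993459 64424510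
    (rowB 3 eng mog cd0q1 cd4q1 pd2 0 true true true .dn 1 1 2 (qsf 536870912 536870912 536870912 536870912 2) ndB0q1 ndB4q1 pcB2 cut_pp_112 Ext.none)

def k0_pp_112 : ∃ t, chk3 f_pp_112 t 1 1 1 = true :=
  ⟨(l 4), by decide +kernel⟩

theorem c_pp_112 : CertB 536870912 536870912 536870912 536870912 858993459 64424510 3 eng mog cd0q1 cd4q1 pd2 true true true .dn 1 1 2
    ndB0q1 ndB4q1 pcB2 cut_pp_112 Ext.none :=
  certB0 (fam := true) (s1 := true) (s2 := true) (a := 1) (b := 1) (c := 2) (cn := .dn) (n1 := ndB0q1) (n2 := ndB4q1) (pc := pcB2) (cut := cut_pp_112) (xt := Ext.none) (P1 := 536870912) (W1 := 536870912) (P2 := 536870912) (W2 := 536870912) (P3 := 858993459) (W3 := 64424510) (N0 := 3) (En := eng) (mo := mog) (C1 := cd0q1) (C2 := cd4q1) (C3 := pd2)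
    rfl k0_pp_112

noncomputable def cut_pp_113 : Cut := Cut.of [[⟨3, 0, 0, 1449551462⟩]]

noncomputable def f_pp_113 : ℕ → ℕ → ℕ → ℕ → Bool := onCell 536870912 536870912 536870912 536870912 858993459 64424510
    (rowB 3 eng mog cd0q1 cd4q1 pd3 0 true true true .nn 1 1 3 (qsf 536870912 536870912 536870912 536870912 3) ndB0q1 ndB4q1 pcB3 cut_pp_113 Ext.none)

def k0_pp_113 : ∃ t, chk3 f_pp_113 t 1 1 1 = true :=
  ⟨(l 4), by decide +kernel⟩

theorem c_pp_113 : CertB 536870912 536870912 536870912 536870912 858993459 64424510 3 eng mog cd0q1 cd4q1 pd3 true true true .nn 1 1 3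
    ndB0q1 ndB4q1 pcB3 cut_pp_113 Ext.none :=
  certB0 (fam := true) (s1 := true) (s2 := true) (a := 1) (b := 1) (c := 3) (cn := .nn) (n1 := ndB0q1) (n2 := ndB4q1) (pc := pcB3) (cut := cut_pp_113) (xt := Ext.none) (P1 := 536870912) (W1 := 536870912) (P2 := 536870912) (W2 := 536870912) (P3 := 858993459) (W3 := 64424510) (N0 := 3) (En := eng) (mo := mog) (C1 := cd0q1) (C2 := cd4q1) (C3 := pd3)
    rfl k0_pp_113

noncomputable def cut_pp_123 : Cut := Cut.of [[⟨3, 0, 0, 1449551462⟩]]

noncomputable def f_pp_123 : ℕ → ℕ → ℕ → ℕ → Bool := onCell 536870912 536870912 1073741824 536870912 858993459 64424510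
    (rowB 3 eng mog cd0q1 cd4q2 pd3 0 true true true .npn 1 2 3 (qsf 536870912 536870912 1073741824 536870912 3) ndB0q1 ndB4q2 pcB3 cut_pp_123 Ext.none)

def k0_pp_123 : ∃ t, chk3 f_pp_123 t 1 1 1 = true :=
  ⟨(l 4), by decide +kernel⟩

theorem c_pp_123 : CertB 536870912 536870912 1073741824 536870912 858993459 64424510 3 eng mog cd0q1 cd4q2 pd3 true true true .npn 1 2 3
    ndB0q1 ndB4q2 pcB3 cut_pp_123 Ext.none :=
  certB0 (fam := true) (s1 := true) (s2 := true) (a := 1) (b := 2) (c := 3) (cn := .npn) (n1 := ndB0q1) (n2 := ndB4q2) (pc := pcB3) (cut := cut_pp_123) (xt := Ext.none) (P1 := 536870912) (W1 := 536870912) (P2 := 1073741824) (W2 := 536870912) (P3 := 858993459) (W3 := 64424510) (N0 := 3) (En := eng) (mo := mog) (C1 := cd0q1) (C2 := cd4q2) (C3 := pd3)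
    rfl k0_pp_123

noncomputable def cut_pp_133 : Cut := Cut.of [[⟨3, 0, 0, 1449551462⟩]]

noncomputable def f_pp_133 : ℕ → ℕ → ℕ → ℕ → Bool := onCell 536870912 536870912 0 1230186008 858993459 64424510
    (rowB 3 eng mog cd0q1 cd4q3 pd3 0 true true true .dn 1 3 3 (qsf 536870912 536870912 0 1230186008 3) ndB0q1 ndB4q3 pcB3 cut_pp_133 Ext.none)

def k0_pp_133 : ∃ t, chk3 f_pp_133 t 1 1 1 = true :=
  ⟨(l 4), by decide +kernel⟩

theorem c_pp_133 : CertB 536870912 536870912 0 1230186008 858993459 64424510 3 eng mog cd0q1 cd4q3 pd3 true true true .dn 1 3 3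
    ndB0q1 ndB4q3 pcB3 cut_pp_133 Ext.none :=
  certB0 (fam := true) (s1 := true) (s2 := true) (a := 1) (b := 3) (c := 3) (cn := .dn) (n1 := ndB0q1) (n2 := ndB4q3) (pc := pcB3) (cut := cut_pp_133) (xt := Ext.none) (P1 := 536870912) (W1 := 536870912) (P2 := 0) (W2 := 1230186008) (P3 := 858993459) (W3 := 64424510) (N0 := 3) (En := eng) (mo := mog) (C1 := cd0q1) (C2 := cd4q3) (C3 := pd3)
    rfl k0_pp_133

noncomputable def cut_pp_202 : Cut := Cut.of [[⟨3, 0, 0, 1449551462⟩]]

noncomputable def f_pp_202 : ℕ → ℕ → ℕ → ℕ → Bool := onCell 0 536870912 0 536870912 858993459 64424510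
    (rowB 3 eng mog cd0q2 cd4q0 pd2 0 true true true .pp 2 0 2 (qsf 0 536870912 0 536870912 2) ndB0q2 ndB4q0 pcB2 cut_pp_202 Ext.none)

def k0_pp_202 : ∃ t, chk3 f_pp_202 t 1 1 1 = true :=
  ⟨(l 4), by decide +kernel⟩

theorem c_pp_202 : CertB 0 536870912 0 536870912 858993459 64424510 3 eng mog cd0q2 cd4q0 pd2 true true true .pp 2 0 2
    ndB0q2 ndB4q0 pcB2 cut_pp_202 Ext.none :=
  certB0 (fam := true) (s1 := true) (s2 := true) (a := 2) (b := 0) (c := 2) (cn := .pp) (n1 := ndB0q2) (n2 := ndB4q0) (pc := pcB2) (cut := cut_pp_202) (xt := Ext.none) (P1 := 0) (W1 := 536870912) (P2 := 0) (W2 := 536870912) (P3 := 858993459) (W3 := 64424510) (N0 := 3) (En := eng) (mo := mog) (C1 := cd0q2) (C2 := cd4q0) (C3 := pd2)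
    rfl k0_pp_202

noncomputable def cut_pp_203 : Cut := Cut.of [[⟨3, 0, 0, 1449551462⟩]]

noncomputable def f_pp_203 : ℕ → ℕ → ℕ → ℕ → Bool := onCell 0 536870912 0 536870912 858993459 64424510
    (rowB 3 eng mog cd0q2 cd4q0 pd3 0 true true true .up 2 0 3 (qsf 0 536870912 0 536870912 3) ndB0q2 ndB4q0 pcB3 cut_pp_203 Ext.none)

def k0_pp_203 : ∃ t, chk3 f_pp_203 t 1 1 1 = true :=
  ⟨(l 4), by decide +kernel⟩

theorem c_pp_203 : CertB 0 536870912 0 536870912 858993459 64424510 3 eng mog cd0q2 cd4q0 pd3 true true true .up 2 0 3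
    ndB0q2 ndB4q0 pcB3 cut_pp_203 Ext.none :=
  certB0 (fam := true) (s1 := true) (s2 := true) (a := 2) (b := 0) (c := 3) (cn := .up) (n1 := ndB0q2) (n2 := ndB4q0) (pc := pcB3) (cut := cut_pp_203) (xt := Ext.none) (P1 := 0) (W1 := 536870912) (P2 := 0) (W2 := 536870912) (P3 := 858993459) (W3 := 64424510) (N0 := 3) (En := eng) (mo := mog) (C1 := cd0q2) (C2 := cd4q0) (C3 := pd3)
    rfl k0_pp_203

noncomputable def cut_pp_213 : Cut := Cut.of [[⟨3, 0, 0, 1449551462⟩]]

noncomputable def f_pp_213 : ℕ → ℕ → ℕ → ℕ → Bool := onCell 0 536870912 536870912 536870912 858993459 64424510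
    (rowB 3 eng mog cd0q2 cd4q1 pd3 0 true true true .pnn 2 1 3 (qsf 0 536870912 536870912 536870912 3) ndB0q2 ndB4q1 pcB3 cut_pp_213 Ext.none)

def k0_pp_213 : ∃ t, chk3 f_pp_213 t 1 1 1 = true :=
  ⟨(l 4), by decide +kernel⟩

theorem c_pp_213 : CertB 0 536870912 536870912 536870912 858993459 64424510 3 eng mog cd0q2 cd4q1 pd3 true true true .pnn 2 1 3
    ndB0q2 ndB4q1 pcB3 cut_pp_213 Ext.none :=
  certB0 (fam := true) (s1 := true) (s2 := true) (a := 2) (b := 1) (c := 3) (cn := .pnn) (n1 := ndB0q2) (n2 := ndB4q1) (pc := pcB3) (cut := cut_pp_213) (xt := Ext.none) (P1 := 0) (W1 := 536870912) (P2 := 536870912) (W2 := 536870912) (P3 := 858993459) (W3 := 64424510) (N0 := 3) (En := eng) (mo := mog) (C1 := cd0q2) (C2 := cd4q1) (C3 := pd3)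
    rfl k0_pp_213

noncomputable def cut_pm_001 : Cut := Cut.of [[⟨3, 0, 0, 1449551462⟩]]

noncomputable def f_pm_001 : ℕ → ℕ → ℕ → ℕ → Bool := onCell 0 536870912 536870912 536870912 858993459 64424510
    (rowB 3 eng mog cd0q0 cd4q0 pd1 1 true true false .up 0 0 1 (qsf 0 536870912 0 536870912 1) ndB0q0 ndB4q0 pcB1 cut_pm_001 Ext.none)

def k0_pm_001 : ∃ t, chk3 f_pm_001 t 1 1 1 = true :=
  ⟨(a (l 6) (b (l 6) (b (l 6) (a (l 6) (b (l 6) (a (l 6) (b (l 6) (a (l 6) (l 16170080))))))))), by decide +kernel⟩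

theorem c_pm_001 : CertB 0 536870912 0 536870912 858993459 64424510 3 eng mog cd0q0 cd4q0 pd1 true true false .up 0 0 1
    ndB0q0 ndB4q0 pcB1 cut_pm_001 Ext.none :=
  certB1 (fam := true) (s1 := true) (s2 := false) (a := 0) (b := 0) (c := 1) (cn := .up) (n1 := ndB0q0) (n2 := ndB4q0) (pc := pcB1) (cut := cut_pm_001) (xt := Ext.none) (P1 := 0) (W1 := 536870912) (P2 := 0) (W2 := 536870912) (P3 := 858993459) (W3 := 64424510) (N0 := 3) (En := eng) (mo := mog) (C1 := cd0q0) (C2 := cd4q0) (C3 := pd1)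
    rfl (fun _ => rfl) k0_pm_001

noncomputable def cut_pm_011 : Cut := Cut.of [[⟨3, 0, 0, 1449551462⟩], [⟨0, 0, 0, 67108864⟩, ⟨1, 1, 0, 67108864⟩, ⟨2, 1, 0, 67108864⟩]]

noncomputable def f_pm_011 : ℕ → ℕ → ℕ → ℕ → Bool := onCell 0 536870912 536870912 536870912 858993459 64424510
    (rowB 3 eng mog cd0q0 cd4q1 pd1 1 true true false .pnn 0 1 1 (qsf 0 536870912 536870912 536870912 1) ndB0q0 ndB4q1 pcB1 cut_pm_011 Ext.none)

def k0_pm_011 : ∃ t, chk3 f_pm_011 t 1 1 1 = true :=
  ⟨(b (l 6) (a (l 6) (b (l 6) (a (l 6) (b (l 6) (a (l 6) (b (l 6) (a (l 6) (l 16171200))))))))), by decide +kernel⟩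

theorem c_pm_011 : CertB 0 536870912 536870912 536870912 858993459 64424510 3 eng mog cd0q0 cd4q1 pd1 true true false .pnn 0 1 1
    ndB0q0 ndB4q1 pcB1 cut_pm_011 Ext.none :=
  certB1 (fam := true) (s1 := true) (s2 := false) (a := 0) (b := 1) (c := 1) (cn := .pnn) (n1 := ndB0q0) (n2 := ndB4q1) (pc := pcB1) (cut := cut_pm_011) (xt := Ext.none) (P1 := 0) (W1 := 536870912) (P2 := 536870912) (W2 := 536870912) (P3 := 858993459) (W3 := 64424510) (N0 := 3) (En := eng) (mo := mog) (C1 := cd0q0) (C2 := cd4q1) (C3 := pd1)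
    rfl (fun _ => rfl) k0_pm_011

noncomputable def cut_pm_012 : Cut := Cut.of [[⟨3, 0, 0, 1449551462⟩], [⟨0, 0, 0, 67108864⟩, ⟨1, 1, 0, 67108864⟩, ⟨2, 1, 0, 67108864⟩]]

noncomputable def f_pm_012 : ℕ → ℕ → ℕ → ℕ → Bool := onCell 0 536870912 1073741824 536870912 858993459 64424510
    (rowB 3 eng mog cd0q0 cd4q1 pd2 1 true true false .pnp 0 1 2 (qsf 0 536870912 536870912 536870912 2) ndB0q0 ndB4q1 pcB2 cut_pm_012 Ext.none)

def k0_pm_012 : ∃ t, chk3 f_pm_012 t 1 4 1 = true :=
  ⟨(a (l 6) (a (b (l 6) (a (l 6) (b (l 6) (c (a (b (l 6) (l 16093328)) (l 16093280)) (a (l 16076080) (l 16058840)))))) (a (b (b (l 6) (a (l 6) (l 16145464))) (b (c (l 16113000) (l 16107304)) (a (c (l 16066816) (l 16041528)) (l 15906968)))) (a (b (b (l 16135904) (l 16104440)) (c (l 16033640) (l 16037624))) (b (b (l 16089856) (l 16064824)) (c (l 16001136) (l 16013120))))))), by decide +kernel⟩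

def k1_pm_012 : ∃ t, chk3 f_pm_012 t 2 5 1 = true :=
  ⟨(a (b (l 6) (l 2)) (b (a (l 6) (b (l 6) (b (l 6) (a (l 6) (c (a (l 15834896) (l 15844032)) (a (l 15762664) (l 15774480))))))) (a (b (b (l 6) (l 2)) (l 2)) (a (a (b (b (a (l 6) (c (l 68818137143) (l 15646712))) (c (c (l 15683032) (l 15630792)) (l 15568408))) (l 2)) (b (b (c (c (l 15769784) (l 15726864)) (l 15658528)) (c (c (l 76871057223) (l 15645384)) (l 89755784791))) (b (c (l 3856646039) (l 15470880)) (l 2)))) (b (c (b (a (l 15760264) (l 15771504)) (a (c (l 15707976) (l 15659944)) (l 15697496))) (b (a (l 15673800) (l 15688448)) (c (l 15617448) (l 15565192)))) (c (a (b (l 95661452967) (l 15529064)) (b (l 15622192) (l 103177532151))) (a (b (l 15490528) (l 15396792)) (b (l 15510072) (l 15418328))))))))), by decide +kernel⟩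

def k2_pm_012 : ∃ t, chk3 f_pm_012 t 3 5 1 = true :=
  ⟨(a (b (b (a (a (l 6) (b (c (l 16052664) (l 16005544)) (b (l 15985088) (b (l 15961896) (c (l 15969416) (l 15921904)))))) (a (b (c (l 16042816) (l 15997848)) (b (l 15980696) (b (l 15959824) (c (l 15967944) (l 15921864))))) (b (l 16008736) (b (l 15972288) (b (l 15953528) (l 16087544)))))) (a (a (c (b (l 15923824) (l 15856496)) (b (l 15868840) (l 15790184))) (c (l 15901048) (l 15843240))) (a (c (l 15906256) (l 15850656)) (c (l 15907016) (l 15855056))))) (a (a (b (c (b (l 15787264) (l 15716416)) (b (l 15708808) (l 15624848))) (c (a (b (l 15636912) (l 15562296)) (l 15614904)) (b (l 15538616) (a (l 15439784) (l 15460896))))) (b (c (b (l 15805648) (l 15739392)) (b (l 15732152) (l 15654504))) (c (a (l 15629576) (l 15643576)) (c (l 15560216) (l 15505032))))) (a (c (b (l 15789280) (l 15663040)) (b (l 15715472) (l 15567752))) (b (c (l 15822216) (l 15732760)) (c (a (l 15680248) (l 15691264)) (a (l 15590896) (l 15606080)))))))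 (a (a (b (b (c (l 15990192) (l 15954624)) (c (l 15903688) (l 15857616))) (c (b (l 15810472) (l 15707648)) (b (l 15750016) (l 15630736)))) (b (c (b (l 15972728) (l 15896976)) (l 15798904)) (c (b (l 15813360) (l 15723304)) (b (l 15763048) (l 15658824))))) (b (a (b (l 16176896) (l 16000152)) (c (l 15989352) (l 15871384))) (a (b (l 15941472) (l 15791616)) (b (l 15796768) (l 15719216)))))), by decide +kernel⟩

def k3_pm_012 : ∃ t, chk3 f_pm_012 t 2 3 1 = true :=
  ⟨(a (l 2) (b (a (l 2) (b (a (l 2) (b (a (l 2) (a (l 2) (c (l 9761847687) (l 15284512)))) (l 2))) (l 2))) (l 2))), by decide +kernel⟩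

def k4_pm_012 : ∃ t, chk3 f_pm_012 t 6 3 1 = true :=
  ⟨(b (a (a (b (a (b (c (b (l 15486600) (l 15410056)) (b (l 15348760) (l 15256528))) (l 2)) (b (c (b (l 15504568) (l 15429624)) (b (l 15372128) (l 15281816))) (c (b (l 15353864) (l 2)) (l 36067929335)))) (l 2)) (a (b (b (c (b (l 15522144) (l 15448984)) (l 15351280)) (c (b (l 15374808) (l 15299864)) (l 107471806103))) (l 2)) (b (b (c (l 15503664) (l 15375072)) (c (b (l 15395520) (l 15322144)) (l 152032132407))) (b (c (l 62374747479) (l 67206215927)) (l 2))))) (b (a (b (c (a (l 15521096) (l 15537832)) (a (l 15398264) (l 15420664))) (b (c (l 15425744) (l 15284928)) (c (l 15375992) (l 15199432)))) (b (c (a (l 15553808) (l 15569416)) (a (l 15442088) (l 15463248))) (c (l 15430680) (l 15296688)))) (a (a (b (c (l 123578069527) (l 131630777063)) (l 2)) (b (c (l 159548455127) (l 169748663319)) (c (l 90828729015) (l 97270778167)))) (c (b (a (l 15282920) (l 15306368)) (a (l 149347701623) (l 174580672423))) (b (a (l 15116264)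 (l 15148096)) (a (l 159547864567) (l 14979248))))))) (a (l 2) (b (a (l 2) (a (l 2) (b (c (l 120893338567) (l 128945975255)) (l 2)))) (l 2)))), by decide +kernel⟩

def k5_pm_012 : ∃ t, chk3 f_pm_012 t 7 3 1 = true :=
  ⟨(b (a (b (c (a (b (l 15595304) (a (l 15461576) (l 15485608))) (b (l 15624616) (l 15517440))) (a (b (l 15499744) (a (l 15338968) (l 15372560))) (b (l 15544064) (l 15418816)))) (a (b (c (a (l 15330728) (l 15359672)) (a (l 15181472) (l 15221792))) (c (a (b (l 15229480) (l 15160904)) (l 15227496)) (a (b (l 15057984) (l 14973856)) (l 15060720)))) (c (b (l 15401816) (l 15279536)) (b (l 15281568) (l 15134112))))) (b (c (a (b (l 15645696) (l 15551432)) (l 15620024)) (a (b (l 15579864) (l 15470096)) (l 15580488))) (b (a (c (l 15449592) (l 15350888)) (l 15491480)) (a (c (l 15340208) (l 15220744)) (c (l 15391168) (l 15292736)))))) (a (b (a (a (b (c (l 171896118967) (l 184780611527)) (l 2)) (a (b (c (l 197129157543) (l 208403062519)) (l 2)) (b (c (l 15101424)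 (l 14906640)) (c (l 244910437127) (l 249741838695))))) (c (b (a (l 15132384) (l 15171424)) (a (l 233099337991) (l 15043344))) (b (a (l 14949936) (l 15005048)) (a (l 267458659015) (l 14846016))))) (a (l 2) (b (c (l 291081296087) (l 294838975191)) (l 2)))) (b (a (b (c (l 15225080) (l 15081456)) (c (l 15126800) (l 14976328))) (b (c (l 15287896) (l 15169824)) (c (l 15179696) (l 15038752)))) (c (a (b (l 279270280807) (l 310408509991)) (b (l 15068200) (l 281954374103))) (a (b (l 298597245335) (l 319534951687)) (b (l 14900872) (l 302355274071))))))), by decide +kernel⟩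

theorem s6_pm_012 : ∃ t, chk3 f_pm_012 t 3 3 1 = true := ex3_a k4_pm_012 k5_pm_012

theorem s7_pm_012 : ∃ t, chk3 f_pm_012 t 1 3 1 = true := ex3_a k3_pm_012 s6_pm_012

theorem s8_pm_012 : ∃ t, chk3 f_pm_012 t 1 5 1 = true := ex3_a k1_pm_012 k2_pm_012

theorem s9_pm_012 : ∃ t, chk3 f_pm_012 t 1 2 1 = true := ex3_b k0_pm_012 s8_pm_012

theorem s10_pm_012 : ∃ t, chk3 f_pm_012 t 1 1 1 = true := ex3_b s9_pm_012 s7_pm_012

theorem c_pm_012 : CertB 0 536870912 536870912 536870912 858993459 64424510 3 eng mog cd0q0 cd4q1 pd2 true true false .pnp 0 1 2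
    ndB0q0 ndB4q1 pcB2 cut_pm_012 Ext.none :=
  certB1 (fam := true) (s1 := true) (s2 := false) (a := 0) (b := 1) (c := 2) (cn := .pnp) (n1 := ndB0q0) (n2 := ndB4q1) (pc := pcB2) (cut := cut_pm_012) (xt := Ext.none) (P1 := 0) (W1 := 536870912) (P2 := 536870912) (W2 := 536870912) (P3 := 858993459) (W3 := 64424510) (N0 := 3) (En := eng) (mo := mog) (C1 := cd0q0) (C2 := cd4q1) (C3 := pd2)
    rfl (fun _ => rfl) s10_pm_012

noncomputable def cut_pm_022 : Cut := Cut.of [[⟨3, 0, 0, 1449551462⟩], [⟨0, 0, 0, 67108864⟩, ⟨1, 1, 0, 67108864⟩, ⟨2, 1, 0, 67108864⟩]]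

noncomputable def f_pm_022 : ℕ → ℕ → ℕ → ℕ → Bool := onCell 0 536870912 1073741824 536870912 858993459 64424510
    (rowB 3 eng mog cd0q0 cd4q2 pd2 0 true true false .pp 0 2 2 (qsf 0 536870912 1073741824 536870912 2) ndB0q0 ndB4q2 pcB2 cut_pm_022 Ext.none)

def k0_pm_022 : ∃ t, chk3 f_pm_022 t 4 2 1 = true :=
  ⟨(b (b (l 6) (b (l 6) (a (l 6) (a (l 6) (c (b (l 6) (l 16102024)) (l 16065088)))))) (a (b (l 6) (a (b (l 6) (c (l 16196872) (l 16203056))) (c (l 16388432) (b (l 16243512) (l 16206032))))) (b (a (b (l 6) (c (l 16185336) (l 16109384))) (b (c (l 16092728) (l 16045896)) (c (l 16077664) (l 16029864)))) (a (b (l 16141488) (l 16115120)) (b (c (l 16060648) (l 16013640)) (l 16023128)))))), by decide +kernel⟩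

def k1_pm_022 : ∃ t, chk3 f_pm_022 t 5 2 1 = true :=
  ⟨(b (b (a (a (l 6) (a (b (l 6) (c (b (l 15884544) (l 15888200)) (b (l 15812640) (l 15816880)))) (b (b (l 6) (c (l 15813632) (l 15731520))) (c (l 15906416) (l 15783824))))) (b (a (c (b (a (c (l 15762648) (l 15718088)) (c (l 15700336) (l 15650736))) (a (l 15748704) (l 15686448))) (b (c (l 15697568) (l 15582704)) (c (l 15645184) (l 15593920)))) (c (b (a (l 15655456) (l 15553368)) (l 15681400)) (b (c (l 15493848) (l 15429952)) (l 15500080)))) (a (c (b (l 15769000) (l 15737080)) (b (l 15652184) (l 15642784))) (c (b (l 15612184) (l 15627120)) (b (l 15496280) (l 15513616)))))) (a (b (a (c (b (l 15985712) (l 15985792)) (b (l 15927144) (l 15926976))) (c (b (l 15861944) (l 15867168)) (b (l 15786864) (l 15792464)))) (a (c (l 15985616) (l 15946984)) (c (l 15874688) (l 15800056)))) (a (b (c (l 15752296) (l 15701888)) (c (l 15772576) (l 15681800))) (b (c (l 15649664) (l 15539320)) (c (l 15679640) (l 15572368)))))) (a (b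 (c (a (b (l 15984032) (l 15979248)) (b (l 15883312) (l 15888664))) (a (b (l 15923400) (l 15918472)) (b (l 15808632) (l 15814664)))) (c (a (l 15864072) (l 15872504)) (a (l 15848176) (l 15823344)))) (a (b (b (l 15978768) (l 15806240)) (b (l 15778992) (l 15794688))) (b (b (l 15720536) (l 15683936)) (b (l 15708584) (l 15734120)))))), by decide +kernel⟩

def k2_pm_022 : ∃ t, chk3 f_pm_022 t 2 3 1 = true :=
  ⟨(b (b (c (a (a (b (a (l 16123512) (l 16135744)) (l 16060728)) (l 16258960)) (a (l 15924224) (l 15660056))) (a (a (b (l 15911904) (l 16066152)) (b (l 16031192) (l 16014664))) (a (l 15874480) (l 15629936)))) (a (a (a (c (l 15781976) (l 15786144)) (l 16138000)) (c (l 15987520) (l 15986936))) (a (c (l 15908120) (l 15881304)) (l 15828704)))) (a (a (c (b (l 15834432) (l 15720408)) (b (l 15828648) (l 15675784))) (b (l 16131144) (b (l 15803328) (l 2)))) (a (b (l 15877656) (l 2)) (l 2)))), by decide +kernel⟩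

def k3_pm_022 : ∃ t, chk3 f_pm_022 t 3 1 1 = true :=
  ⟨(b (a (b (b (a (b (c (a (b (a (l 15495440) (l 15439688)) (l 15486544)) (b (c (l 15396632) (l 15322288)) (l 15384224))) (a (b (l 15472888) (l 15348608)) (b (l 15200312) (l 15228456)))) (c (a (l 15557800) (l 15420776)) (a (l 15445744) (l 15271000)))) (b (c (a (b (l 15303496) (l 15290472)) (b (l 15171632) (l 15205416))) (a (b (l 15085104) (l 15118752)) (b (l 14980696) (l 15019736)))) (c (a (l 15334240) (l 15256400)) (a (l 15169432) (l 15078384))))) (a (b (c (a (l 15555640) (l 15470104)) (a (l 15428472) (l 15327520))) (a (l 15746048) (l 15537504))) (c (b (a (l 15393072) (l 15324712)) (l 15420832)) (b (a (l 15236600) (l 15155968)) (l 15286096))))) (b (a (b (a (l 15575936) (l 15503072)) (c (l 15637024) (l 15515928))) (c (b (l 15481528) (l 15538312)) (b (l 15332056) (l 15395176)))) (a (b (l 15744424) (l 15679368)) (b (l 15612360) (l 2))))) (b (a (b (a (b (c (a (l 15128848) (b (l 15075584) (l 15114536))) (a (l 14931336)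 (b (l 14871128) (l 14915456)))) (c (a (l 15204056) (l 15173840)) (a (l 15017448) (l 14982808)))) (b (c (b (l 15189344) (l 15084808)) (b (l 14860184) (l 14887232))) (c (l 15190352) (l 14980160)))) (a (b (c (l 15266520) (l 15087464)) (c (l 15342872) (l 15171848))) (b (c (l 15233160) (l 15053920)) (c (l 15317048) (l 15146080))))) (b (a (b (c (a (l 15038328) (l 15024144)) (b (l 14809096) (l 14863016))) (c (l 15125496) (l 14943544))) (b (c (l 15027016) (l 14922832)) (c (l 15107712) (l 14935400)))) (a (b (c (l 15219152) (l 15049080)) (l 2)) (l 2)))) (a (b (a (b (l 15339408) (l 2)) (l 2)) (l 2)) (l 2)))) (a (b (b (a (b (l 15698344) (l 2)) (l 2)) (l 2)) (l 2)) (l 2))), by decide +kernel⟩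

theorem s4_pm_022 : ∃ t, chk3 f_pm_022 t 2 2 1 = true := ex3_a k0_pm_022 k1_pm_022

theorem s5_pm_022 : ∃ t, chk3 f_pm_022 t 2 1 1 = true := ex3_b s4_pm_022 k2_pm_022

theorem s6_pm_022 : ∃ t, chk3 f_pm_022 t 1 1 1 = true := ex3_a s5_pm_022 k3_pm_022

theorem c_pm_022 : CertB 0 536870912 1073741824 536870912 858993459 64424510 3 eng mog cd0q0 cd4q2 pd2 true true false .pp 0 2 2
    ndB0q0 ndB4q2 pcB2 cut_pm_022 Ext.none :=
  certB0 (fam := true) (s1 := true) (s2 := false) (a := 0) (b := 2) (c := 2) (cn := .pp) (n1 := ndB0q0) (n2 := ndB4q2) (pc := pcB2) (cut := cut_pm_022) (xt := Ext.none) (P1 := 0) (W1 := 536870912) (P2 := 1073741824) (W2 := 536870912) (P3 := 858993459) (W3 := 64424510) (N0 := 3) (En := eng) (mo := mog) (C1 := cd0q0) (C2 := cd4q2) (C3 := pd2)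
    rfl s6_pm_022

noncomputable def cut_pm_023 : Cut := Cut.of [[⟨3, 0, 0, 1449551462⟩]]

noncomputable def f_pm_023 : ℕ → ℕ → ℕ → ℕ → Bool := onCell 0 536870912 1610612736 536870912 858993459 64424510
    (rowB 3 eng mog cd0q0 cd4q2 pd3 1 true true false .up 0 2 3 (qsf 0 536870912 1073741824 536870912 3) ndB0q0 ndB4q2 pcB3 cut_pm_023 Ext.none)

def k0_pm_023 : ∃ t, chk3 f_pm_023 t 2 1 1 = true :=
  ⟨(b (a (b (a (b (b (a (l 15589296) (l 15755552)) (a (l 15541696) (l 15642976))) (a (l 2) (l 15797280))) (b (a (b (l 15785056) (l 15734256)) (l 15835200)) (a (l 15676048) (l 15750840)))) (a (l 2) (b (a (l 2) (l 15704464)) (l 2)))) (b (a (b (a (l 15894152) (l 15904880)) (a (l 15812520) (l 15861040))) (b (a (l 15868920) (l 15815968)) (a (l 15879000) (l 15855480)))) (a (b (a (l 15763488) (l 15813512)) (a (l 2) (l 15801632))) (b (l 15902600) (a (l 15839808) (l 15860544)))))) (a (l 2) (b (b (a (l 2) (b (l 15869536) (l 2))) (l 2)) (l 2)))), by decide +kernel⟩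

def k1_pm_023 : ∃ t, chk3 f_pm_023 t 3 1 1 = true :=
  ⟨(b (a (b (a (b (c (a (l 15777328) (l 15707024)) (a (l 15715200) (l 15624768))) (b (l 15769272) (l 15802824))) (b (a (b (l 15548832) (l 15606056)) (b (l 15442264) (l 15510280))) (a (b (l 15660336) (l 15711472)) (b (l 15573504) (l 15634144))))) (a (b (l 15842216) (l 15874832)) (b (a (l 15779128) (l 15718696)) (l 15838968)))) (b (a (b (a (b (c (l 15390008) (l 15251424)) (l 15403704)) (b (c (l 15260480) (l 15114472)) (c (l 15348928) (l 15214000)))) (a (b (l 15477552) (l 15546912)) (b (c (l 15431120) (l 15304904)) (l 15450696)))) (b (c (a (b (l 15115400) (l 15215768)) (b (a (l 15004280) (l 14929600)) (l 15076736))) (a (b (l 14969136) (l 15081792)) (b (a (l 14853336) (l 14772744)) (l 14938000)))) (a (b (c (l 15311640) (l 15187352)) (l 15343856)) (b (c (l 15183944) (l 15056760)) (c (l 15287232) (l 15168608)))))) (a (b (a (l 15729352) (b (l 15526984) (l 15601464))) (a (l 15769472) (l 15855592))) (b (a (b (l 15431976)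 (l 15516320)) (b (l 15328224) (l 15424000))) (a (b (l 15599304) (l 15681008)) (b (l 15516360) (l 15607664))))))) (a (b (b (a (l 15880536) (l 15915936)) (a (b (l 15930904) (l 2)) (b (l 15969104) (l 16004776)))) (a (l 2) (b (b (l 16069120) (l 2)) (l 2)))) (b (b (a (b (l 15835192) (l 15895848)) (b (l 15834024) (l 15811408))) (a (b (l 15956432) (l 16019376)) (b (l 15892472) (l 15973392)))) (a (b (b (b (l 16069008) (l 16096232)) (l 16155752)) (b (a (l 2) (l 16225928)) (l 2))) (b (b (l 16053008) (l 16133872)) (b (b (l 16194136) (l 16233960)) (b (l 16271504) (b (l 16293024) (l 4))))))))), by decide +kernel⟩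

theorem s2_pm_023 : ∃ t, chk3 f_pm_023 t 1 1 1 = true := ex3_a k0_pm_023 k1_pm_023

theorem c_pm_023 : CertB 0 536870912 1073741824 536870912 858993459 64424510 3 eng mog cd0q0 cd4q2 pd3 true true false .up 0 2 3
    ndB0q0 ndB4q2 pcB3 cut_pm_023 Ext.none :=
  certB1 (fam := true) (s1 := true) (s2 := false) (a := 0) (b := 2) (c := 3) (cn := .up) (n1 := ndB0q0) (n2 := ndB4q2) (pc := pcB3) (cut := cut_pm_023) (xt := Ext.none) (P1 := 0) (W1 := 536870912) (P2 := 1073741824) (W2 := 536870912) (P3 := 858993459) (W3 := 64424510) (N0 := 3) (En := eng) (mo := mog) (C1 := cd0q0) (C2 := cd4q2) (C3 := pd3)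
    rfl (fun _ => rfl) s2_pm_023

noncomputable def cut_pm_033 : Cut := Cut.of [[⟨3, 0, 0, 1449551462⟩]]

noncomputable def f_pm_033 : ℕ → ℕ → ℕ → ℕ → Bool := onCell 1610612736 536870912 0 1230186008 858993459 64424510
    (rowB 3 eng mog cd0q0 cd4q3 pd3 2 true true false .pnn 0 3 3 (qsf 0 536870912 0 1230186008 3) ndB0q0 ndB4q3 pcB3 cut_pm_033 Ext.none)

def k0_pm_033 : ∃ t, chk3 f_pm_033 t 2 1 1 = true :=
  ⟨(b (l 1) (b (a (l 1) (b (l 1) (b (l 1) (a (l 1) (c (l 462813890343) (l 452076164967)))))) (b (a (l 1) (b (a (b (l 1) (l 552471141815)) (a (l 15471808) (l 15447800))) (a (b (l 15329344) (l 15427840)) (b (l 15523088) (l 15601872))))) (a (a (b (l 1) (b (l 542270935671) (a (l 15513064) (l 15585752)))) (b (b (l 547639514903) (l 15499880)) (b (l 15570152) (l 15667344)))) (b (a (b (l 15524472) (l 15611192)) (b (l 15676400) (l 15741504))) (a (b (l 15523872) (l 15761552)) (b (l 15793792) (l 15836592)))))))), by decide +kernel⟩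

def k1_pm_033 : ∃ t, chk3 f_pm_033 t 3 2 1 = true :=
  ⟨(a (l 1) (b (l 4) (a (b (a (l 1) (l 4)) (a (a (l 15603752) (l 15690520)) (a (l 15708256) (l 15730272)))) (a (b (l 4) (a (l 15770096) (l 4))) (l 4))))), by decide +kernel⟩

def k2_pm_033 : ∃ t, chk3 f_pm_033 t 3 3 1 = true :=
  ⟨(b (b (a (a (l 1) (a (b (l 1) (l 15631336)) (b (l 15605512) (l 15700136)))) (a (a (b (l 15700264) (a (l 15742552) (l 15780352))) (b (l 15833696) (a (l 15833616) (l 15894480)))) (a (a (b (l 15924272) (l 15958320)) (b (l 15927552) (l 15993552))) (a (l 15779200) (l 4))))) (a (a (b (a (l 15388608) (l 15495760)) (a (l 15427768) (l 15552624))) (b (a (l 15663088) (l 15795936)) (a (l 15685752) (l 15820272)))) (b (a (a (a (l 15848416) (l 15855176)) (b (l 15899656) (l 15909536))) (a (a (l 15980080) (l 16036216)) (a (l 16087032) (a (l 16099664) (l 4))))) (a (a (a (l 15895456) (l 15915048)) (l 15774568)) (a (a (l 16006712) (l 16083856)) (a (l 16136416) (a (l 16159000) (a (l 16170960) (l 16161416)))))))))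 (b (a (a (b (a (l 15545784) (l 15637816)) (b (l 15689392) (l 15754096))) (b (a (l 15727552) (l 15825312)) (l 15858712))) (b (a (a (l 15924008) (l 16004824)) (a (l 16100888) (a (l 16170392) (a (l 16207584) (a (l 16225816) (l 16224816)))))) (a (a (l 15996160) (l 16082664)) (a (l 16167048) (a (l 16225608) (a (l 16252768) (a (l 16265984) (b (l 16261240) (l 16283864))))))))) (a (a (b (b (l 15808688) (l 15855784)) (b (l 15888224) (l 15892752))) (b (a (l 15925672) (l 15981688)) (a (l 15915192) (l 15982912)))) (b (a (a (l 16063552) (l 16149288)) (a (l 16215688) (a (l 16263040) (a (l 16288496) (a (l 16300280) (l 16269424)))))) (a (a (a (l 16048496) (l 16094056)) (l 16011256)) (a (b (l 16228584) (l 16225352)) (a (l 16274880) (a (l 16298024) (a (l 16305872) (l 4)))))))))), by decide +kernel⟩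

theorem s3_pm_033 : ∃ t, chk3 f_pm_033 t 3 1 1 = true := ex3_b k1_pm_033 k2_pm_033

theorem s4_pm_033 : ∃ t, chk3 f_pm_033 t 1 1 1 = true := ex3_a k0_pm_033 s3_pm_033

theorem c_pm_033 : CertB 0 536870912 0 1230186008 858993459 64424510 3 eng mog cd0q0 cd4q3 pd3 true true false .pnn 0 3 3
    ndB0q0 ndB4q3 pcB3 cut_pm_033 Ext.none :=
  certB2 (fam := true) (s1 := true) (s2 := false) (a := 0) (b := 3) (c := 3) (cn := .pnn) (n1 := ndB0q0) (n2 := ndB4q3) (pc := pcB3) (cut := cut_pm_033) (xt := Ext.none) (P1 := 0) (W1 := 536870912) (P2 := 0) (W2 := 1230186008) (P3 := 858993459) (W3 := 64424510) (N0 := 3) (En := eng) (mo := mog) (C1 := cd0q0) (C2 := cd4q3) (C3 := pd3)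
    rfl (fun _ => rfl) s4_pm_033

noncomputable def cut_pm_101 : Cut := Cut.of [[⟨3, 0, 0, 1449551462⟩]]

noncomputable def f_pm_101 : ℕ → ℕ → ℕ → ℕ → Bool := onCell 536870912 536870912 536870912 536870912 858993459 64424510
    (rowB 3 eng mog cd0q1 cd4q0 pd1 1 true true false .npn 1 0 1 (qsf 536870912 536870912 0 536870912 1) ndB0q1 ndB4q0 pcB1 cut_pm_101 Ext.none)

def k0_pm_101 : ∃ t, chk3 f_pm_101 t 1 2 1 = true :=
  ⟨(a (b (l 6) (a (l 6) (b (l 6) (b (l 6) (a (l 6) (a (l 6) (a (l 6) (c (l 16184944) (l 16363768))))))))) (b (l 1) (b (l 1) (b (l 1) (a (a (a (a (c (l 16156328) (l 16349512)) (l 1)) (l 1)) (l 1)) (l 1)))))), by decide +kernel⟩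

def k1_pm_101 : ∃ t, chk3 f_pm_101 t 1 6 1 = true :=
  ⟨(a (a (l 6) (b (b (a (l 6) (c (a (l 16214912) (l 16111744)) (a (l 16326552) (l 16290080)))) (a (a (l 6) (c (l 16161512) (l 16285384))) (c (a (l 16116280) (l 16061664)) (a (l 16232312) (l 16196480))))) (b (a (a (l 6) (c (l 16067888) (l 16210544))) (c (a (l 16029320) (l 15981632)) (a (l 16155184) (l 16094720)))) (a (c (a (l 16063824) (l 15997552)) (l 16265928)) (c (a (l 15930536) (l 15890208)) (l 16192272)))))) (b (a (b (a (c (a (c (l 16030480) (l 16110528)) (l 16139232)) (a (l 16250960) (l 16218080))) (l 1)) (a (c (a (l 16000032) (l 15959064)) (a (l 16155440) (l 16112072))) (a (c (l 134249992375) (l 16119800)) (l 1)))) (l 1)) (a (a (c (b (a (l 15927856) (l 15865672)) (a (l 15843704) (l 15784608))) (a (b (l 16048672) (l 15943936)) (b (l 15997320) (l 15861904)))) (b (c (a (l 15792568) (l 15720824)) (a (l 15912880) (l 15815992))) (c (a (l 15704488) (l 15622216)) (a (l 15764616) (l 15660568))))) (a (a (b (l 1)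 (c (l 15547464) (l 15562192))) (l 1)) (l 1))))), by decide +kernel⟩

def k2_pm_101 : ∃ t, chk3 f_pm_101 t 1 7 1 = true :=
  ⟨(a (a (b (a (l 6) (b (c (l 16232416) (l 16193984)) (c (l 16091016) (l 16123008)))) (a (b (a (l 6) (l 16133208)) (a (l 16124704) (l 16077232))) (b (a (l 16081792) (l 16028192)) (a (l 16027456) (l 15975696))))) (b (a (b (c (l 16106520) (l 16084984)) (a (l 16025368) (l 15966848))) (b (c (l 15956368) (l 15965608)) (a (l 15905432) (l 15835632)))) (a (b (a (l 15972896) (l 15915824)) (a (l 15922368) (l 15866432))) (a (b (l 15854264) (l 15795600)) (b (l 15773880) (l 15703136)))))) (a (c (b (a (b (l 15770680) (l 15669648)) (b (l 15709848) (l 15444848))) (a (b (l 15630728) (l 15590448)) (b (l 15462000) (l 15513568)))) (b (a (a (l 15863776) (l 15678856)) (b (l 15553528) (l 15416928))) (a (b (l 15590368) (l 15288416)) (b (l 15455152) (l 15416792))))) (a (b (b (a (c (l 15438752) (l 15400560)) (a (l 15348264) (l 1))) (a (l 15386768) (a (l 15207408) (l 15160160))))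 (a (b (l 15176824) (l 15152856)) (b (c (l 15114688) (l 14963472)) (c (l 15043368) (l 14883136))))) (b (a (a (a (b (l 1) (l 15125224)) (l 1)) (l 1)) (l 1)) (a (b (c (l 150354460327) (a (l 14887096) (l 14870360))) (c (l 14952184) (l 14756528))) (b (c (l 316247413959) (c (l 15050720) (l 14976560))) (c (l 14911960) (l 237326397671)))))))), by decide +kernel⟩

theorem s3_pm_101 : ∃ t, chk3 f_pm_101 t 1 3 1 = true := ex3_b k1_pm_101 k2_pm_101

theorem s4_pm_101 : ∃ t, chk3 f_pm_101 t 1 1 1 = true := ex3_b k0_pm_101 s3_pm_101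

theorem c_pm_101 : CertB 536870912 536870912 0 536870912 858993459 64424510 3 eng mog cd0q1 cd4q0 pd1 true true false .npn 1 0 1
    ndB0q1 ndB4q0 pcB1 cut_pm_101 Ext.none :=
  certB1 (fam := true) (s1 := true) (s2 := false) (a := 1) (b := 0) (c := 1) (cn := .npn) (n1 := ndB0q1) (n2 := ndB4q0) (pc := pcB1) (cut := cut_pm_101) (xt := Ext.none) (P1 := 536870912) (W1 := 536870912) (P2 := 0) (W2 := 536870912) (P3 := 858993459) (W3 := 64424510) (N0 := 3) (En := eng) (mo := mog) (C1 := cd0q1) (C2 := cd4q0) (C3 := pd1)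
    rfl (fun _ => rfl) s4_pm_101

end Pool.Agent.Strip051.G.I8000_8600.Tab.C.BA04

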