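import Pool.Agent.Strip051.G.I8000_8600.Tab

/-! # Certificates B9 (generated) -/

set_option linter.all false
set_option maxRecDepth 100000

namespace Pool.Agent.Strip051.G.I8000_8600.Tab.C.BA12

open Pool.Agent.Strip051.PB Pool.Agent.Strip051.PB.T
open Pool.Agent.Strip051.G.I8000_8600.Tab

noncomputable def f_pm_022 : ℕ → ℕ → ℕ → ℕ → Bool := onCell 0 536870912 1073741824 536870912 858993459 64424510
    (rowB 3 eng mog cd1q0 cd2q2 pd2 1 true true false .pp 0 2 2 (qsf 0 536870912 1073741824 536870912 2) ndB1q0 ndB2q2 pcB2 Cut.none Ext.none)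

def k0_pm_022 : ∃ t, chk3 f_pm_022 t 2 8 1 = true :=
  ⟨(a (a (l 3) (a (a (l 3) (l 1)) (l 1))) (l 1)), by decide +kernel⟩

def k1_pm_022 : ∃ t, chk3 f_pm_022 t 8 18 1 = true :=
  ⟨(b (a (b (l 3) (a (b (l 3) (b (a (l 3) (c (l 16572256) (l 16502064))) (a (c (a (c (l 16519296) (l 16489888)) (l 16520224)) (a (c (l 16457944) (l 16423456)) (l 16461320))) (c (l 16542872) (l 16491184))))) (c (a (c (l 16531032) (l 16513336)) (b (l 16623768) (l 16606552))) (a (b (l 16557480) (l 16536128)) (b (l 16576384) (l 16574928)))))) (b (a (c (l 231558777399) (l 16592080)) (b (l 3) (a (l 16614792) (l 16589248)))) (a (c (l 16587272) (l 16538784)) (c (l 16549072) (l 16548368))))) (a (a (c (b (a (c (b (c (l 16521448) (l 16507064)) (a (l 16501336) (l 16504736))) (b (c (l 16492024) (l 16476328)) (c (l 16473672) (l 16456688)))) (c (a (l 16526896) (l 16540696)) (l 16512192))) (a (c (b (a (l 16474160) (l 16487976)) (a (l 16457264) (l 16471032))) (b (c (l 16455256) (l 16437080)) (a (l 16419224)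 (l 16435280)))) (c (b (l 16508608) (l 16491568)) (l 16479240)))) (c (b (a (a (b (l 16447488) (l 16420592)) (b (l 16460832) (l 16439152))) (l 16477664)) (a (a (b (l 16399096) (l 16377848)) (l 16417440)) (l 16434608))) (b (a (a (b (l 16405632) (l 16381056)) (b (l 16426776) (l 16402200))) (l 16445968)) (a (a (b (l 16356848) (l 16333136)) (l 16387032)) (l 16397624))))) (a (b (c (a (l 16563896) (l 16557664)) (c (l 16514296) (l 16487664))) (c (c (l 16527304) (l 16500488)) (l 16476544))) (c (b (c (l 16588416) (l 16570360)) (l 16585272)) (b (l 16477032) (l 16494272))))) (c (b (b (l 16531728) (l 16514368)) (b (l 16487464) (l 16458616))) (b (b (l 16488928) (l 16455328)) (c (l 16449072) (l 16434960)))))), by decide +kernel⟩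

def k2_pm_022 : ∃ t, chk3 f_pm_022 t 9 18 1 = true :=
  ⟨(b (a (b (a (b (c (l 334503682151) (l 380674545079)) (c (l 16556248) (l 122439471143))) (l 1)) (a (c (c (l 16575088) (l 16565696)) (c (l 16555904) (l 16545704))) (c (l 586296055031) (l 634077537015)))) (l 1)) (b (a (a (c (l 16579776) (l 16571728)) (c (l 16515432) (l 136398041063))) (l 1)) (a (c (a (l 16589384) (l 16547144)) (c (l 16479312) (l 16454816))) (a (c (l 537440744407) (l 613139517303)) (l 1))))), by decide +kernel⟩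

def k3_pm_022 : ∃ t, chk3 f_pm_022 t 5 18 1 = true :=
  ⟨(l 1), by decide +kernel⟩

def k4_pm_022 : ∃ t, chk3 f_pm_022 t 16 38 1 = true :=
  ⟨(a (c (b (a (c (a (b (l 16440224) (l 16423120)) (l 16445344)) (a (b (l 16400304) (l 16381512)) (l 16406880))) (c (l 16465784) (l 16430768))) (a (a (b (c (l 16406040) (l 16362888)) (b (c (l 16393304) (l 16349088)) (c (l 16389688) (l 16339816)))) (b (l 16410200) (c (l 16402600) (l 16360440)))) (b (l 16421776) (c (l 16423400) (l 16384672))))) (b (a (c (a (b (l 16356888) (l 16336248)) (l 16365000)) (a (b (l 16309968) (l 16287344)) (l 16319712))) (c (l 16392600) (l 16351280))) (b (a (a (c (l 16315960) (l 16265248)) (l 16310856)) (l 16340392)) (a (b (c (l 16310232) (l 16259616)) (a (c (l 16291288) (l 16238864)) (l 16327192))) (c (l 16342472) (l 16296808)))))) (c (b (a (l 16498920) (l 16506936)) (c (a (l 16448768) (l 16486776)) (a (l 16425728) (l 16457720)))) (b (a (l 16411424) (l 16450120)) (c (a (l 16389120) (l 16425904))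 (a (l 16349432) (l 16391352)))))), by decide +kernel⟩

def k5_pm_022 : ∃ t, chk3 f_pm_022 t 16 39 1 = true :=
  ⟨(a (c (b (a (a (c (b (b (a (l 16370840) (l 16379128)) (l 16366016)) (l 16373368)) (b (b (a (l 16326352) (l 16335016)) (l 16322440)) (l 16310200))) (c (b (l 16386400) (l 16370320)) (b (l 16343712) (l 16328064)))) (c (a (l 16414552) (l 16407968)) (b (l 16368624) (l 16353472)))) (a (a (c (c (l 16335184) (l 16316184)) (b (l 16294112) (l 16278312))) (c (l 16364992) (l 16304128))) (c (a (l 16382856) (l 16378464)) (l 16351376)))) (b (c (a (b (a (b (l 16282624) (l 16275136)) (l 16297288)) (a (l 16264472) (l 16282152))) (a (l 16308312) (l 16327144))) (a (b (a (b (l 16230752) (l 16224104)) (l 16247112)) (a (l 16215216) (l 16232576))) (a (l 16260256) (l 16281520)))) (a (c (c (l 16263248) (l 16240952)) (c (l 16217840) (l 16193928))) (c (l 16287472) (l 16241088))))) (c (b (c (l 16443432) (l 16410208)) (c (a (l 16400752) (l 16428808)) (l 16369720))) (c (b (l 16373904)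 (l 16321424)) (b (l 16334512) (l 16280416))))), by decide +kernel⟩

def k6_pm_022 : ∃ t, chk3 f_pm_022 t 17 19 1 = true :=
  ⟨(a (b (c (b (a (l 16535592) (l 16563904)) (b (l 16482400) (l 16467792))) (b (l 16423472) (c (l 16480720) (l 16453632)))) (c (c (l 16379776) (l 16501216)) (c (l 16431400) (l 16401008)))) (c (b (b (l 16606352) (l 16575384)) (c (l 16538656) (l 16521664))) (b (b (l 16582440) (l 16543760)) (b (l 16467208) (l 16476248))))), by decide +kernel⟩

def k7_pm_022 : ∃ t, chk3 f_pm_022 t 9 19 1 = true :=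
  ⟨(a (b (c (b (l 16449544) (l 16473600)) (c (l 16414152) (l 16418304))) (c (b (l 16581960) (l 16585360)) (l 16433368))) (b (b (a (c (l 16507928) (l 16482176)) (l 1)) (c (c (l 294775129031) (l 135324174727)) (c (l 122976092935) (l 111701752279)))) (c (a (l 16521176) (l 131029234999)) (c (l 16383120) (l 16375600))))), by decide +kernel⟩

def k8_pm_022 : ∃ t, chk3 f_pm_022 t 5 19 1 = true :=
  ⟨(a (a (b (l 1) (a (c (l 546567595655) (l 456909689223)) (l 1))) (l 1)) (l 1)), by decide +kernel⟩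

def k9_pm_022 : ∃ t, chk3 f_pm_022 t 8 20 1 = true :=
  ⟨(b (a (c (b (a (c (a (c (l 16330440) (l 16291848)) (l 16336752)) (a (b (l 16271736) (l 16256504)) (l 16299576))) (c (a (l 16371080) (l 16401384)) (l 16350688))) (a (a (c (c (l 16276448) (l 16260040)) (c (l 16243040) (l 16225456))) (c (l 16304056) (l 16269552))) (a (l 16364232) (l 16335232)))) (a (c (a (b (c (l 16234824) (l 16214432)) (l 16197968)) (b (l 16259312) (l 16232376))) (a (b (l 16182544) (l 16159264)) (b (l 16215968) (l 16192544)))) (c (b (l 16312264) (l 16283840)) (b (l 16270632) (l 16243128))))) (c (a (b (l 16429064) (a (l 16387296) (l 16416416))) (a (l 16375008) (l 16424328))) (a (c (l 16369320) (l 16334952)) (l 16323224)))) (b (a (c (a (a (c (b (l 16245208) (l 16230704)) (b (l 16212856) (l 16199200))) (c (l 16273528) (l 16241096))) (c (l 16325976) (l 16292992))) (a (c (a (l 16172144) (l 16206352)) (a (l 16136160) (l 16169296))) (c (l 16257232) (l 16218704)))) (a (c (c (l 16390480) (l 16359496))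 (l 16307320)) (c (l 16433512) (l 16381280)))) (b (a (c (a (a (c (a (l 16208496) (l 16226192)) (l 16186376)) (l 16237144)) (l 16310056)) (a (c (l 16170640) (l 16135480)) (l 16220080))) (a (a (l 16295848) (l 16339528)) (l 16493400))) (a (a (c (a (a (b (c (l 16200136) (l 16169184)) (b (b (b (l 16182672) (c (l 16198680) (l 16166872))) (l 16182416)) (l 16179776))) (b (l 16202408) (c (l 16213264) (l 16181512)))) (b (l 16228576) (c (l 16239496) (l 16207456)))) (a (b (c (l 16145016) (l 16110328)) (c (l 16139232) (l 16103640))) (b (l 16161416) (l 16155320)))) (c (b (l 16280352) (a (l 16258272) (l 16292432))) (b (l 16211352) (l 16205176)))) (c (c (b (l 16308768) (l 16241848)) (b (l 16363016) (l 16357920))) (c (l 16243232) (l 16228024))))))), by decide +kernel⟩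

def k10_pm_022 : ∃ t, chk3 f_pm_022 t 9 20 1 = true :=
  ⟨(b (c (a (l 16368376) (l 16383616)) (a (l 16389248) (l 16380568))) (c (a (b (l 16516936) (b (l 16498752) (l 16467880))) (b (l 16513992) (b (l 16514400) (l 16512520)))) (a (b (l 16488816) (a (l 16360688) (l 16492856))) (b (l 16521392) (l 16530152))))), by decide +kernel⟩

def k11_pm_022 : ∃ t, chk3 f_pm_022 t 4 21 1 = true :=
  ⟨(a (a (c (a (b (a (b (c (a (a (l 16178168) (l 16185352)) (l 16196952)) (a (l 16147984) (l 16164448))) (c (l 16165416) (l 16129208))) (c (b (l 16221824) (l 16194248)) (l 16175704))) (a (c (a (l 16124248) (l 16138184)) (a (l 16082048) (l 16097920))) (c (l 16159016) (l 16121656)))) (b (a (c (l 16241056) (l 16209200)) (l 16259320)) (a (l 16233448) (l 16201568)))) (a (b (a (b (c (l 16120960) (a (l 16074192) (l 16093472))) (c (l 16090672) (l 16049792))) (c (l 16140920) (l 16103992))) (a (c (a (l 16036872) (l 16054832)) (c (l 16010864) (l 15986624))) (c (l 16081696) (l 16039144)))) (c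 (b (l 16191760) (l 16134128)) (b (l 16154960) (l 16096304))))) (a (c (b (l 16309544) (l 16229240)) (c (l 16229104) (l 16171016))) (c (b (l 16435968) (l 16315040)) (b (l 16305136) (l 16246888))))) (c (a (a (c (l 16416272) (l 16326296)) (l 16458592)) (l 16515480)) (a (a (b (l 16374040) (l 16310448)) (l 16304496)) (l 16465632)))), by decide +kernel⟩

def k12_pm_022 : ∃ t, chk3 f_pm_022 t 5 10 1 = true :=
  ⟨(b (a (b (a (c (b (l 455836247175) (l 16429712)) (c (l 420402402727) (l 413423012711))) (l 1)) (b (a (c (l 16434872) (l 16405992)) (l 1)) (b (a (l 16321608) (l 1)) (a (c (l 16436952) (l 16421136)) (c (l 545493516695) (l 599717427527)))))) (l 1)) (a (c (a (l 16320056) (b (l 16341408) (l 16375952))) (b (c (l 54256236407) (l 16127696)) (l 25265243319))) (a (b (l 1) (c (l 572337164567) (l 601864791911))) (l 1)))), by decide +kernel⟩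

def k13_pm_022 : ∃ t, chk3 f_pm_022 t 2 11 1 = true :=
  ⟨(b (a (a (a (a (c (c (a (b (a (l 16080264) (l 16094056)) (l 16044864)) (l 16114168)) (a (b (a (l 16031656) (l 16047352)) (l 16012088)) (l 16088152))) (b (c (a (a (l 15979328) (l 15997072)) (l 16023616)) (c (l 15966720) (l 15939464))) (a (c (l 15959160) (l 15891320)) (c (l 15967920) (l 15909632))))) (c (c (l 16134016) (l 16092608)) (b (c (l 16076344) (l 16032312)) (l 16015552)))) (c (a (b (l 16196008) (l 16148008)) (c (l 16246872) (l 16215856))) (a (b (l 16126520) (l 16067344)) (l 16174608)))) (a (a (c (l 16460680) (l 16226936)) (c (l 16353064) (l 16224136))) (c (a (l 16408440) (l 16458728)) (a (l 16348200) (l 16409512))))) (a (c (b (l 16235232) (l 16389872)) (a (l 16491648) (l 16389624))) (a (c (l 305512188327) (l 16150600)) (c (l 571800240375) (l 449929667047))))) (a (a (a (a (a (c (b (c (l 16004312) (l 15944784)) (b (l 15922960) (l 15923688))) (b (c (l 15880056) (l 15810128)) (c (l 15829560) (l 15752592))))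 (c (c (l 16011520) (l 15952840)) (b (l 15924304) (l 15827960)))) (c (c (l 16051576) (l 15998256)) (c (l 15940056) (l 15876992)))) (c (a (l 16081792) (l 16137136)) (a (l 16043624) (l 16051136)))) (a (c (a (l 16192712) (l 16249512)) (a (l 16118512) (l 16181056))) (a (c (l 16264496) (l 16239368)) (c (l 16360992) (l 16295080))))) (a (c (a (l 16427376) (l 16410288)) (a (l 16372912) (l 16467928))) (a (c (l 16343304) (l 16367352)) (c (l 16246088) (l 16191112)))))), by decide +kernel⟩

def k14_pm_022 : ∃ t, chk3 f_pm_022 t 2 6 1 = true :=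
  ⟨(a (a (b (a (b (a (c (c (b (l 15941624) (l 15906104)) (b (a (l 15858312) (l 15888208)) (l 15832968))) (a (c (b (l 15781432) (l 15735688)) (b (l 15697752) (l 15645592))) (c (l 15791704) (l 15708768)))) (c (c (l 15976024) (l 15912120)) (c (l 15841680) (l 15764752)))) (a (c (c (a (l 15843112) (l 15868816)) (b (l 15794672) (l 15758424))) (c (b (l 15708744) (l 15667528)) (b (l 15614488) (l 15567448)))) (c (c (l 15907280) (l 15834144)) (c (l 15752768) (l 15663200))))) (c (b (a (l 16000072) (l 16054464)) (a (l 15925816) (l 15979224))) (b (a (l 15873968) (l 15942960)) (a (l 15777240) (l 15844728))))) (a (c (a (b (c (a (l 15782416) (l 15807552)) (a (l 15693688) (l 15721936))) (c (l 15740568) (l 15647432))) (b (l 15806000) (l 15747544))) (a (b (c (b (l 15628680) (l 15592208)) (b (l 15523112) (l 15481480))) (c (l 15541936) (b (l 15442560) (l 15406368)))) (b (c (l 15673304) (l 15572384)) (c (l 15603272) (l 15492328))))) (c (b (l 15969192) (l 15825184)) (b (a (l 15690536)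 (l 15756440)) (c (l 15695064) (l 15594552)))))) (a (b (c (b (l 16135240) (l 16058784)) (b (l 16042896) (l 15942800))) (c (b (l 15989616) (l 15927656)) (b (l 15852504) (l 15772024)))) (b (b (c (l 16177904) (l 16166352)) (c (l 16160872) (l 16067464))) (c (l 16120912) (l 15995552))))) (b (b (a (c (a (l 16336160) (l 16415528)) (a (l 16268696) (l 16360720))) (c (l 16100064) (l 16210592))) (a (a (l 16173616) (c (l 16333032) (l 16264712))) (a (c (l 16376632) (l 16347384)) (l 16119896)))) (a (c (a (l 16082680) (l 16223536)) (a (l 16040512) (l 15946768))) (c (b (l 16106656) (l 16293424)) (b (l 16298456) (l 16218528)))))), by decide +kernel⟩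

def k15_pm_022 : ∃ t, chk3 f_pm_022 t 2 7 1 = true :=
  ⟨(a (a (c (b (a (b (a (c (l 15692448) (l 15594960)) (l 15696240)) (a (c (l 15650432) (l 15550328)) (l 15651936))) (b (l 15772200) (l 15726208))) (a (c (b (l 15637416) (l 15606360)) (a (b (l 15513392) (l 15484024)) (l 15547712))) (b (l 15687040) (l 15654504)))) (b (a (a (b (c (l 15483200) (l 15357192)) (c (l 15433920) (l 15301256))) (b (l 15484600) (l 15430104))) (b (l 15578696) (l 15521264))) (a (b (a (c (l 15394080) (l 15256400)) (l 15385808)) (a (c (l 15363672) (l 15222744)) (l 15351776))) (b (l 15473920) (l 15436696))))) (b (c (a (l 15973848) (l 15945376)) (a (b (l 15701368) (l 15640576)) (l 15786448))) (c (a (l 15765760) (l 15860016)) (b (l 15667096) (l 15603488))))) (b (a (c (l 16070216) (a (l 15890976) (l 15985576))) (c (l 16208816) (a (l 16072944) (l 16150624)))) (a (c (l 16044704) (l 15825424)) (c (l 16119784) (l 15997144))))), by decide +kernel⟩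

def k16_pm_022 : ∃ t, chk3 f_pm_022 t 3 1 1 = true :=
  ⟨(b (b (l 1) (b (l 1) (a (a (b (l 1) (a (c (l 562673343703) (l 435434065703)) (l 1))) (l 1)) (l 1)))) (b (a (b (a (c (b (a (l 16219784) (l 554083289191)) (a (l 16251008) (l 16175176))) (b (a (l 16212528) (l 419327855207)) (l 297458559815))) (b (l 1) (c (l 567505048615) (l 435433750663)))) (a (c (b (l 16243720) (l 16267744)) (b (l 16301208) (l 16344792))) (c (b (l 373157784375) (l 15965216)) (b (l 335575963943) (l 15967672))))) (b (l 1) (a (b (l 1) (c (l 554619977879) (l 409663816967))) (l 1)))) (c (a (b (a (b (l 16290744) (l 16283992)) (b (l 16167560) (l 16197264))) (a (l 16225472) (b (l 16226632) (l 16248808)))) (b (a (b (l 16081112) (l 16063008)) (l 558914869783)) (a (b (l 16102840) (l 16138368)) (b (l 15955248) (l 16005000))))) (a (b (a (b (l 16277024) (l 16215880)) (b (l 16229840) (l 16291032))) (a (l 16136896) (l 16231480))) (b (a (b (l 15749432) (l 16086912)) (b (l 1) (l 387651969495))) (a (b (l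 16163472) (l 16227888)) (l 388725996215))))))), by decide +kernel⟩

theorem s17_pm_022 : ∃ t, chk3 f_pm_022 t 2 3 1 = true := ex3_b k14_pm_022 k15_pm_022

theorem s18_pm_022 : ∃ t, chk3 f_pm_022 t 4 20 1 = true := ex3_a k9_pm_022 k10_pm_022

theorem s19_pm_022 : ∃ t, chk3 f_pm_022 t 4 10 1 = true := ex3_b s18_pm_022 k11_pm_022

theorem s20_pm_022 : ∃ t, chk3 f_pm_022 t 2 10 1 = true := ex3_a s19_pm_022 k12_pm_022

theorem s21_pm_022 : ∃ t, chk3 f_pm_022 t 2 5 1 = true := ex3_b s20_pm_022 k13_pm_022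

theorem s22_pm_022 : ∃ t, chk3 f_pm_022 t 16 19 1 = true := ex3_b k4_pm_022 k5_pm_022

theorem s23_pm_022 : ∃ t, chk3 f_pm_022 t 8 19 1 = true := ex3_a s22_pm_022 k6_pm_022

theorem s24_pm_022 : ∃ t, chk3 f_pm_022 t 4 19 1 = true := ex3_a s23_pm_022 k7_pm_022

theorem s25_pm_022 : ∃ t, chk3 f_pm_022 t 2 19 1 = true := ex3_a s24_pm_022 k8_pm_022

theorem s26_pm_022 : ∃ t, chk3 f_pm_022 t 4 18 1 = true := ex3_a k1_pm_022 k2_pm_022

theorem s27_pm_022 : ∃ t, chk3 f_pm_022 t 2 18 1 = true := ex3_a s26_pm_022 k3_pm_022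

theorem s28_pm_022 : ∃ t, chk3 f_pm_022 t 2 9 1 = true := ex3_b s27_pm_022 s25_pm_022

theorem s29_pm_022 : ∃ t, chk3 f_pm_022 t 2 4 1 = true := ex3_b k0_pm_022 s28_pm_022

theorem s30_pm_022 : ∃ t, chk3 f_pm_022 t 2 2 1 = true := ex3_b s29_pm_022 s21_pm_022

theorem s31_pm_022 : ∃ t, chk3 f_pm_022 t 2 1 1 = true := ex3_b s30_pm_022 s17_pm_022

theorem s32_pm_022 : ∃ t, chk3 f_pm_022 t 1 1 1 = true := ex3_a s31_pm_022 k16_pm_022

theorem c_pm_022 : CertB 0 536870912 1073741824 536870912 858993459 64424510 3 eng mog cd1q0 cd2q2 pd2 true true false .pp 0 2 2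
    ndB1q0 ndB2q2 pcB2 Cut.none Ext.none :=
  certB1 (fam := true) (s1 := true) (s2 := false) (a := 0) (b := 2) (c := 2) (cn := .pp) (n1 := ndB1q0) (n2 := ndB2q2) (pc := pcB2) (cut := Cut.none) (xt := Ext.none) (P1 := 0) (W1 := 536870912) (P2 := 1073741824) (W2 := 536870912) (P3 := 858993459) (W3 := 64424510) (N0 := 3) (En := eng) (mo := mog) (C1 := cd1q0) (C2 := cd2q2) (C3 := pd2)
    rfl (fun _ => rfl) s32_pm_022

noncomputable def f_pm_023 : ℕ → ℕ → ℕ → ℕ → Bool := onCell 1610612736 536870912 1073741824 536870912 858993459 64424510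
    (rowB 3 eng mog cd1q0 cd2q2 pd3 2 true true false .up 0 2 3 (qsf 0 536870912 1073741824 536870912 3) ndB1q0 ndB2q2 pcB3 Cut.none Ext.none)

def k0_pm_023 : ∃ t, chk3 f_pm_023 t 1 1 1 = true :=
  ⟨(a (b (a (b (a (b (c (l 15995496) (l 15915680)) (c (l 16120264) (l 16193392))) (b (c (l 15985608) (l 15949432)) (c (l 16088552) (l 16142328)))) (a (b (l 15999432) (c (l 16215752) (l 16163280))) (b (a (l 16234352) (l 16219304)) (l 16226888)))) (b (a (b (l 2) (l 310948040567)) (l 2)) (a (b (l 16200704) (l 16245304)) (b (l 16182096) (l 16258960))))) (a (b (a (c (b (l 16124472) (l 15998776)) (b (l 16040968) (a (l 15852640) (l 15915568)))) (c (l 16119424) (b (l 16134712) (l 16011376)))) (a (b (a (c (l 15839960) (l 15660248)) (c (l 15871824) (l 15743144))) (a (c (b (l 15683728) (a (l 15572584) (l 15607728))) (b (l 15500904) (a (l 15448992) (l 15413312)))) (c (b (l 15745456) (l 15654584)) (b (l 15595880) (l 15489488))))) (b (a (l 15853264) (l 15932480)) (a (b (l 15752160)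 (l 15765872)) (c (l 15819968) (l 15732072)))))) (b (a (b (l 16213392) (l 16133264)) (b (l 16269512) (l 16223696))) (a (b (c (l 16028192) (l 16009304)) (a (l 15851888) (l 15922824))) (b (l 16141768) (a (l 15994792) (l 16068368))))))) (b (a (a (b (l 2) (b (l 2) (l 16262104))) (l 2)) (l 2)) (a (a (b (a (l 16307208) (l 16340400)) (a (l 16190064) (l 16252536))) (b (c (l 16339392) (l 16419048)) (a (l 16307592) (l 16352928)))) (a (b (a (l 16367672) (l 2)) (a (l 16238312) (l 4))) (l 4))))), by decide +kernel⟩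

theorem c_pm_023 : CertB 0 536870912 1073741824 536870912 858993459 64424510 3 eng mog cd1q0 cd2q2 pd3 true true false .up 0 2 3
    ndB1q0 ndB2q2 pcB3 Cut.none Ext.none :=
  certB2 (fam := true) (s1 := true) (s2 := false) (a := 0) (b := 2) (c := 3) (cn := .up) (n1 := ndB1q0) (n2 := ndB2q2) (pc := pcB3) (cut := Cut.none) (xt := Ext.none) (P1 := 0) (W1 := 536870912) (P2 := 1073741824) (W2 := 536870912) (P3 := 858993459) (W3 := 64424510) (N0 := 3) (En := eng) (mo := mog) (C1 := cd1q0) (C2 := cd2q2) (C3 := pd3)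
    rfl (fun _ => rfl) k0_pm_023

noncomputable def f_pm_033 : ℕ → ℕ → ℕ → ℕ → Bool := onCell 1610612736 536870912 0 1230186008 858993459 64424510
    (rowB 3 eng mog cd1q0 cd2q3 pd3 2 true true false .pnn 0 3 3 (qsf 0 536870912 0 1230186008 3) ndB1q0 ndB2q3 pcB3 Cut.none Ext.none)

def k0_pm_033 : ∃ t, chk3 f_pm_033 t 2 1 1 = true :=
  ⟨(b (l 1) (a (b (l 1) (b (l 1) (c (a (b (l 1) (a (b (l 1) (a (l 470866766503) (b (l 468719401207) (l 454223996775)))) (b (a (b (l 1) (l 482678079223)) (b (l 489657379751) (l 15504336))) (a (b (l 15521000) (l 15570792)) (l 15577280))))) (b (a (b (l 1) (a (l 492878409527) (l 452076387287))) (b (a (l 506836976599) (l 440265229191)) (a (l 438117810279) (l 15536384)))) (a (b (a (l 450465900103) (l 15549024)) (l 15626632)) (b (l 15603408) (l 15695600))))) (a (b (l 1) (a (b (l 1) (a (b (l 1) (l 491804612231)) (b (l 491804635575) (l 15351504)))) (b (a (b (l 1) (l 502005148631)) (b (l 507373828855) (l 15337216))) (a (b (l 15343032) (l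 15399760)) (l 15421048))))) (b (a (b (l 1) (a (l 504689178519) (l 457981729943))) (b (a (l 515426604599) (l 444559929959)) (a (l 442949412167) (l 15409112)))) (a (b (a (l 454760619511) (l 15410720)) (l 15495616)) (b (l 15486968) (l 15594112)))))))) (b (b (l 1) (a (l 1) (b (l 1) (a (l 1) (b (l 1) (l 831644364375)))))) (b (a (b (a (l 1) (b (l 1) (a (l 1) (l 577704318327)))) (a (b (l 1) (c (l 530459616103) (l 535828020215))) (a (c (l 419864309399) (l 426306421751)) (b (l 424696194247) (l 15494184))))) (b (a (a (b (l 1) (l 413421913303)) (b (l 825738707431) (l 15451696))) (a (l 364566794503) (l 15521632))) (a (b (a (l 15470136) (l 15520096)) (l 15568824)) (l 15633288)))) (a (c (b (a (b (a (l 15498192) (l 15539864)) (l 15596128)) (l 15643088)) (a (l 15721544) (l 15795352))) (b (a (b (l 427380246663) (l 15487128)) (l 15544424)) (a (l 15637616) (l 15732800)))) (b (a (b (l 15647032) (l 15726912)) (l 15779200)) (a (l 15844480) (l 15923880)))))))), by decide +kernel⟩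

def k1_pm_033 : ∃ t, chk3 f_pm_033 t 3 1 1 = true :=
  ⟨(a (b (l 1) (b (b (a (l 1) (a (b (l 1) (l 694742299031)) (l 4))) (a (b (a (l 868151585239) (l 331280783991)) (a (b (l 15462720) (l 15513000)) (l 15672928))) (a (b (l 15688600) (l 15752656)) (l 4)))) (b (a (a (b (l 15602112) (l 15732920)) (b (l 15715760) (l 15831480))) (a (b (l 15839696) (l 15932384)) (l 260616096599))) (a (b (a (l 15865936) (l 15949880)) (l 16041136)) (a (l 16094168) (l 16170536)))))) (b (b (l 4) (l 4)) (b (l 4) (a (a (a (b (l 4) (l 16225832)) (l 4)) (l 4)) (l 4))))), by decide +kernel⟩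

theorem s2_pm_033 : ∃ t, chk3 f_pm_033 t 1 1 1 = true := ex3_a k0_pm_033 k1_pm_033

theorem c_pm_033 : CertB 0 536870912 0 1230186008 858993459 64424510 3 eng mog cd1q0 cd2q3 pd3 true true false .pnn 0 3 3
    ndB1q0 ndB2q3 pcB3 Cut.none Ext.none :=
  certB2 (fam := true) (s1 := true) (s2 := false) (a := 0) (b := 3) (c := 3) (cn := .pnn) (n1 := ndB1q0) (n2 := ndB2q3) (pc := pcB3) (cut := Cut.none) (xt := Ext.none) (P1 := 0) (W1 := 536870912) (P2 := 0) (W2 := 1230186008) (P3 := 858993459) (W3 := 64424510) (N0 := 3) (En := eng) (mo := mog) (C1 := cd1q0) (C2 := cd2q3) (C3 := pd3)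
    rfl (fun _ => rfl) s2_pm_033

noncomputable def f_pm_101 : ℕ → ℕ → ℕ → ℕ → Bool := onCell 536870912 536870912 0 536870912 858993459 64424510
    (rowB 3 eng mog cd1q1 cd2q0 pd1 2 true true false .npn 1 0 1 (qsf 536870912 536870912 0 536870912 1) ndB1q1 ndB2q0 pcB1 Cut.none Ext.none)

def k0_pm_101 : ∃ t, chk3 f_pm_101 t 1 1 1 = true :=
  ⟨(b (l 3) (l 3)), by decide +kernel⟩

theorem c_pm_101 : CertB 536870912 536870912 0 536870912 858993459 64424510 3 eng mog cd1q1 cd2q0 pd1 true true false .npn 1 0 1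
    ndB1q1 ndB2q0 pcB1 Cut.none Ext.none :=
  certB2 (fam := true) (s1 := true) (s2 := false) (a := 1) (b := 0) (c := 1) (cn := .npn) (n1 := ndB1q1) (n2 := ndB2q0) (pc := pcB1) (cut := Cut.none) (xt := Ext.none) (P1 := 536870912) (W1 := 536870912) (P2 := 0) (W2 := 536870912) (P3 := 858993459) (W3 := 64424510) (N0 := 3) (En := eng) (mo := mog) (C1 := cd1q1) (C2 := cd2q0) (C3 := pd1)
    rfl (fun _ => rfl) k0_pm_101

noncomputable def f_pm_102 : ℕ → ℕ → ℕ → ℕ → Bool := onCell 1073741824 536870912 0 536870912 858993459 64424510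
    (rowB 3 eng mog cd1q1 cd2q0 pd2 2 true true false .npp 1 0 2 (qsf 536870912 536870912 0 536870912 2) ndB1q1 ndB2q0 pcB2 Cut.none Ext.none)

def k0_pm_102 : ∃ t, chk3 f_pm_102 t 2 2 1 = true :=
  ⟨(a (a (l 3) (a (a (b (l 3) (l 3)) (b (b (l 2) (l 3)) (b (l 3) (b (c (l 16209584) (l 16350064)) (c (l 908015073863) (l 16307528)))))) (b (b (l 2) (b (a (a (l 276655311047) (l 2)) (l 2)) (b (a (a (l 16451224) (l 16435504)) (c (l 16468824) (l 16350992))) (a (b (l 16401704) (l 16380080)) (b (l 16369696) (l 16347872)))))) (b (b (a (b (a (l 16386832) (l 16370768)) (l 16273384)) (b (l 16199632) (l 16450368))) (a (c (l 186460668487) (l 16224960)) (c (l 16587624) (l 16322112)))) (b (a (c (l 16329456) (l 16420184)) (b (l 16328464) (l 16351248))) (c (a (l 16300744) (l 16266680)) (a (l 16405928) (l 16362104)))))))) (b (a (b (l 2) (b (l 2) (a (b (l 2) (a (c (l 16357680) (l 16247448)) (l 2))) (l 2)))) (l 2)) (a (b (a (b (a (b (l 16071280) (l 16301352)) (b (a (l 16263240) (l 2))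 (a (l 16262864) (l 16234960)))) (a (b (l 16302416) (l 16304520)) (a (l 16016688) (a (l 16227624) (l 16087432))))) (b (b (l 2) (l 16114848)) (b (l 16179336) (l 16182680)))) (b (a (a (c (l 16309296) (l 16312712)) (c (a (l 16283464) (l 16262688)) (l 16227664))) (b (l 16187144) (l 16192208))) (a (a (c (l 16264416) (l 16306088)) (c (a (l 16240848) (l 16221720)) (l 16245400))) (b (l 16183856) (l 16157616))))) (a (b (b (l 2) (b (l 2) (l 16099992))) (b (b (l 16103880) (l 16109080)) (l 16342104))) (b (l 2) (b (b (l 2) (l 16031136)) (c (l 16069648) (l 15953768)))))))), by decide +kernel⟩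

def k1_pm_102 : ∃ t, chk3 f_pm_102 t 2 3 1 = true :=
  ⟨(a (a (l 3) (b (a (a (l 3) (a (l 3) (b (c (l 142973772503) (l 16334448)) (c (b (l 16097976) (l 16042200)) (l 16224168))))) (b (c (a (b (l 16224472) (l 16153504)) (b (l 16213728) (l 16143816))) (a (b (l 16343600) (l 16283744)) (l 16109224))) (c (a (c (l 16028184) (l 16094480)) (b (l 16079616) (l 16022808))) (a (b (l 16229664) (l 16183520)) (l 16173664))))) (a (a (l 3) (b (c (c (l 15940024) (l 16022944)) (b (l 16172984) (l 16145360))) (c (c (l 15902888) (l 15972360)) (c (l 16070688) (l 16170704))))) (c (b (a (c (l 15929216) (l 16005192)) (c (l 15921344) (l 15987952))) (a (c (l 15868904) (l 15953416)) (c (l 15857392) (l 15934080)))) (b (a (b (l 16146264) (l 16118208)) (l 16099296)) (a (l 15883792) (l 16061368))))))) (a (b (c (a (b (a (l 16389424) (a (l 16138944) (l 16185504))) (a (c (l 16011304) (l 16055176)) (a (l 16015608) (l 16043600)))) (b (l 16089616) (l 15974080))) (b (a (a (l 16228368) (a (l 16188920)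 (l 16140736))) (l 16100104)) (a (a (l 16110504) (l 15855112)) (l 16022104)))) (c (a (a (b (c (l 15908176) (l 15964680)) (c (l 15842592) (l 15910752))) (b (c (l 15889608) (l 15937056)) (c (l 15824504) (l 15884632)))) (b (l 15881728) (l 15823656))) (b (a (a (l 16059864) (l 16018344)) (l 15961088)) (a (a (l 16023936) (l 15985184)) (l 15931456))))) (b (b (c (b (l 16043216) (l 15990800)) (b (l 15969968) (l 15939416))) (c (b (l 15939840) (l 15891744)) (b (l 15910520) (l 15883552)))) (b (c (c (l 15826688) (l 15833120)) (a (l 15887232) (l 15813448))) (c (c (l 15761248) (l 15784624)) (c (l 15812744) (l 15844616))))))), by decide +kernel⟩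

def k2_pm_102 : ∃ t, chk3 f_pm_102 t 3 1 1 = true :=
  ⟨(b (a (b (l 2) (b (l 2) (a (b (l 2) (c (l 15994760) (a (l 15862376) (l 2)))) (l 2)))) (l 2)) (a (b (b (a (c (b (l 15945248) (l 15902200)) (b (l 15786680) (l 15760704))) (b (l 2) (c (l 15828144) (l 15617800)))) (a (c (l 15842096) (b (l 15740952) (l 15724528))) (c (l 15780648) (b (l 15594584) (l 15582200))))) (c (b (a (l 15768008) (l 15721336)) (a (l 15714360) (l 15673528))) (b (a (b (l 15710832) (l 15700696)) (l 15574264)) (a (c (l 15699304) (l 15692952)) (l 15575904))))) (b (a (b (l 2) (a (b (l 2) (l 15616792)) (l 2))) (l 2)) (a (b (c (l 15945960) (b (l 15465288) (l 15469800))) (c (l 15657848) (l 15479320))) (b (a (b (l 2) (l 15535728)) (l 2)) (a (b (l 15545384) (l 15547904)) (b (l 15504016) (l 15529496)))))))), by decide +kernel⟩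

theorem s3_pm_102 : ∃ t, chk3 f_pm_102 t 2 1 1 = true := ex3_b k0_pm_102 k1_pm_102

theorem s4_pm_102 : ∃ t, chk3 f_pm_102 t 1 1 1 = true := ex3_a s3_pm_102 k2_pm_102

theorem c_pm_102 : CertB 536870912 536870912 0 536870912 858993459 64424510 3 eng mog cd1q1 cd2q0 pd2 true true false .npp 1 0 2
    ndB1q1 ndB2q0 pcB2 Cut.none Ext.none :=
  certB2 (fam := true) (s1 := true) (s2 := false) (a := 1) (b := 0) (c := 2) (cn := .npp) (n1 := ndB1q1) (n2 := ndB2q0) (pc := pcB2) (cut := Cut.none) (xt := Ext.none) (P1 := 536870912) (W1 := 536870912) (P2 := 0) (W2 := 536870912) (P3 := 858993459) (W3 := 64424510) (N0 := 3) (En := eng) (mo := mog) (C1 := cd1q1) (C2 := cd2q0) (C3 := pd2)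
    rfl (fun _ => rfl) s4_pm_102

noncomputable def f_pm_112 : ℕ → ℕ → ℕ → ℕ → Bool := onCell 536870912 536870912 1073741824 536870912 858993459 64424510
    (rowB 3 eng mog cd1q1 cd2q1 pd2 1 true true false .dn 1 1 2 (qsf 536870912 536870912 536870912 536870912 2) ndB1q1 ndB2q1 pcB2 Cut.none Ext.none)

def k0_pm_112 : ∃ t, chk3 f_pm_112 t 2 1 1 = true :=
  ⟨(b (b (b (l 3) (b (a (a (c (c (b (l 15987224) (l 15962344)) (b (l 16136992) (l 16109968))) (c (l 16276800) (l 16316920))) (b (l 3) (c (c (l 15983256) (l 16120048)) (l 16318536)))) (l 1)) (b (a (c (a (c (l 15937232) (l 16083560)) (l 16032816)) (a (l 16308008) (l 16305208))) (l 1)) (a (c (a (c (l 15909528) (l 16053568)) (l 15991392)) (a (l 16276920) (l 16282688))) (a (c (l 16146896) (l 16261120)) (l 1)))))) (a (b (c (b (a (b (l 15948608) (c (l 15847192) (l 15985480))) (b (l 15987432) (c (l 15896288) (l 16024608)))) (a (l 15862560) (l 15916160))) (b (c (a (l 16150248) (l 16173672)) (l 16228456)) (a (l 16145352)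 (l 16174392)))) (c (a (c (l 15689360) (l 15812576)) (l 15823616)) (a (l 16016568) (l 16069720)))) (a (b (c (b (b (l 16002624) (c (l 15924824) (l 16036704))) (l 15945432)) (c (l 258266756023) (l 16206240))) (c (l 15872952) (l 16090296))) (b (a (b (l 1) (l 397316068327)) (l 1)) (c (l 15896728) (l 16075544)))))) (a (b (b (c (a (c (l 15529496) (l 15633512)) (l 15682272)) (a (l 15815424) (l 15901776))) (c (a (l 15537832) (l 15522936)) (a (l 15583088) (l 15703416)))) (c (a (b (l 15186096) (l 14967440)) (b (l 15348208) (l 15160768))) (a (b (l 15552176) (l 15032656)) (b (l 15476144) (l 15221576))))) (b (c (a (b (l 15759680) (l 15629984)) (b (l 15810632) (l 15710264))) (a (b (l 15954848) (l 15791504)) (b (l 15972336) (l 15845192)))) (c (a (b (l 15486712) (l 15332904)) (l 15645928)) (a (b (l 15601144) (l 15384984)) (b (l 15694592) (l 15521680))))))), by decide +kernel⟩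

def k1_pm_112 : ∃ t, chk3 f_pm_112 t 3 1 1 = true :=
  ⟨(b (b (l 1) (a (a (a (b (l 1) (l 428991281543)) (l 1)) (l 1)) (l 1))) (b (a (c (a (b (l 15834032) (l 15761664)) (l 16059768)) (a (b (l 15946568) (l 15856136)) (l 258266100039))) (a (b (l 1) (l 15814816)) (l 1))) (a (c (a (l 15640752) (l 15706736)) (a (l 15770800) (l 15709384))) (b (a (l 15720056) (l 15671824)) (a (l 15688696) (l 201895325303)))))), by decide +kernel⟩

theorem s2_pm_112 : ∃ t, chk3 f_pm_112 t 1 1 1 = true := ex3_a k0_pm_112 k1_pm_112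

theorem c_pm_112 : CertB 536870912 536870912 536870912 536870912 858993459 64424510 3 eng mog cd1q1 cd2q1 pd2 true true false .dn 1 1 2
    ndB1q1 ndB2q1 pcB2 Cut.none Ext.none :=
  certB1 (fam := true) (s1 := true) (s2 := false) (a := 1) (b := 1) (c := 2) (cn := .dn) (n1 := ndB1q1) (n2 := ndB2q1) (pc := pcB2) (cut := Cut.none) (xt := Ext.none) (P1 := 536870912) (W1 := 536870912) (P2 := 536870912) (W2 := 536870912) (P3 := 858993459) (W3 := 64424510) (N0 := 3) (En := eng) (mo := mog) (C1 := cd1q1) (C2 := cd2q1) (C3 := pd2)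
    rfl (fun _ => rfl) s2_pm_112

noncomputable def f_pm_113 : ℕ → ℕ → ℕ → ℕ → Bool := onCell 536870912 536870912 1610612736 536870912 858993459 64424510
    (rowB 3 eng mog cd1q1 cd2q1 pd3 1 true true false .nn 1 1 3 (qsf 536870912 536870912 536870912 536870912 3) ndB1q1 ndB2q1 pcB3 Cut.none Ext.none)

def k0_pm_113 : ∃ t, chk3 f_pm_113 t 1 1 1 = true :=
  ⟨(a (b (b (a (c (a (b (l 14744808) (l 14715952)) (b (l 14966520) (l 14761168))) (a (b (l 14752552) (l 286785078871)) (b (l 14955368) (l 14666488)))) (b (c (a (l 15169568) (l 15353824)) (a (l 15141304) (l 15312280))) (a (c (l 15003920) (l 14884392)) (c (l 15234120) (l 15100040))))) (a (a (l 2) (b (c (l 14553504) (l 14365480)) (l 2))) (b (c (a (l 14839640) (l 15126160)) (a (l 14612616) (l 14872448))) (c (a (l 14694096) (l 15042600)) (a (l 14335672) (l 14635712)))))) (a (l 2) (a (l 2) (b (b (b (l 14684560) (l 2)) (l 2)) (l 2))))) (b (b (a (c (b (l 15813512) (a (l 15447096) (l 15630632))) (b (a (l 15459928) (l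 15561480)) (a (l 15305144) (l 15474496)))) (b (a (l 15887360) (c (l 15769824) (l 15555800))) (a (l 15669192) (l 15715112)))) (a (c (b (l 15545224) (l 15590768)) (b (l 15276192) (l 15160544))) (b (a (l 15735288) (l 15843760)) (a (l 15888552) (l 16121520))))) (a (a (b (b (c (l 15438872) (l 14811936)) (b (l 15050000) (l 2))) (l 2)) (b (b (b (l 15595864) (l 15648224)) (l 15597728)) (b (b (l 15497816) (l 2)) (l 2)))) (b (b (a (l 16025984) (l 16304680)) (a (l 15877816) (l 16119040))) (b (b (a (l 15783368) (l 16017552)) (c (l 15845480) (l 15701312))) (l 4)))))), by decide +kernel⟩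

theorem c_pm_113 : CertB 536870912 536870912 536870912 536870912 858993459 64424510 3 eng mog cd1q1 cd2q1 pd3 true true false .nn 1 1 3
    ndB1q1 ndB2q1 pcB3 Cut.none Ext.none :=
  certB1 (fam := true) (s1 := true) (s2 := false) (a := 1) (b := 1) (c := 3) (cn := .nn) (n1 := ndB1q1) (n2 := ndB2q1) (pc := pcB3) (cut := Cut.none) (xt := Ext.none) (P1 := 536870912) (W1 := 536870912) (P2 := 536870912) (W2 := 536870912) (P3 := 858993459) (W3 := 64424510) (N0 := 3) (En := eng) (mo := mog) (C1 := cd1q1) (C2 := cd2q1) (C3 := pd3)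
    rfl (fun _ => rfl) k0_pm_113

noncomputable def f_pm_123 : ℕ → ℕ → ℕ → ℕ → Bool := onCell 1610612736 536870912 1073741824 536870912 858993459 64424510
    (rowB 3 eng mog cd1q1 cd2q2 pd3 2 true true false .npn 1 2 3 (qsf 536870912 536870912 1073741824 536870912 3) ndB1q1 ndB2q2 pcB3 Cut.none Ext.none)

def k0_pm_123 : ∃ t, chk3 f_pm_123 t 2 1 1 = true :=
  ⟨(b (a (a (b (c (b (c (b (l 15838032) (l 15907032)) (b (l 15867088) (l 15957416))) (c (l 16198888) (l 234107377207))) (b (c (b (l 15940344) (l 16036696)) (l 16054648)) (c (l 16161488) (l 16100304)))) (l 1)) (b (c (b (c (a (l 15914728) (l 15953640)) (b (l 15875576) (l 15965512))) (c (a (l 16044408) (l 16077400)) (b (l 16049768) (l 16130032)))) (b (c (b (l 15895184) (l 15996344)) (l 15781456)) (c (l 16125464) (l 16044952)))) (a (l 1) (b (c (l 16251776) (l 16175416)) (l 1))))) (b (c (a (b (c (a (l 16002488) (l 16061944)) (b (l 15914664) (l 15997456))) (c (l 16140040) (l 16117888))) (b (c (l 16178544) (l 16039168))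 (c (l 16241064) (l 16169112)))) (b (a (c (b (l 15868120) (l 15968704)) (b (l 15871784) (l 15968720))) (c (l 15935888) (l 15872000))) (a (c (l 16096816) (l 16027520)) (c (l 16095056) (l 16025728))))) (c (a (b (c (l 16294320) (l 16273232)) (l 215317915287)) (c (l 16465880) (l 16365024))) (b (a (c (l 16216576) (l 16045600)) (l 15930840)) (a (l 16094536) (l 16173360)))))) (a (l 1) (a (l 1) (a (l 1) (b (c (l 16598160) (l 159482656807)) (l 1)))))), by decide +kernel⟩

def k1_pm_123 : ∃ t, chk3 f_pm_123 t 3 1 1 = true :=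
  ⟨(b (a (a (b (c (b (a (l 16250936) (l 16398448)) (a (l 16291808) (l 16371536))) (b (a (b (l 15906176) (l 15980912)) (l 16021840)) (a (l 16076552) (l 16117216)))) (c (b (a (l 16401512) (l 16449632)) (l 16509872)) (b (a (l 16135784) (l 16153616)) (a (l 16210320) (l 16228928))))) (b (b (a (c (l 16609936) (l 16158272)) (c (l 16720792) (l 16386032))) (a (c (l 16476160) (l 16190248)) (c (l 16610216) (l 16303448)))) (c (b (a (l 16507704) (l 16578504)) (a (l 16564920) (l 16613240))) (b (a (l 16199192) (l 16262776)) (a (l 16252744) (l 16287928)))))) (b (a (a (b (b (a (l 16619104) (l 16633576)) (c (l 16739576) (l 16473464))) (c (l 16738760) (l 16226208))) (b (c (l 16698448) (l 16436312)) (c (l 16691936) (l 16464032)))) (a (a (b (l 16609584) (l 16579936)) (b (b (l 16608288) (l 16576816)) (c (l 16654128) (l 16532864)))) (a (b (c (l 16661832) (l 16637664)) (l 4)) (l 4)))) (a (c (a (b (l 16660752) (l 16677192)) (b (l 16713488) (l 16715208))) (a (b (l 16334872) (l 16341352))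 (b (l 16352264) (l 16393832)))) (a (a (b (l 16469568) (l 16587416)) (l 4)) (l 4))))) (a (a (b (c (b (l 16587216) (l 16651240)) (b (l 16022288) (l 16171184))) (l 1)) (b (c (b (l 16644800) (l 16698520)) (b (l 16153424) (l 16306144))) (c (l 269543172807) (b (l 16313784) (l 1))))) (a (a (b (c (l 16729440) (b (l 16344528) (l 16329952))) (c (l 16699336) (l 16325472))) (b (c (l 16720952) (b (l 16373272) (l 16353512))) (l 4))) (l 4)))), by decide +kernel⟩

theorem s2_pm_123 : ∃ t, chk3 f_pm_123 t 1 1 1 = true := ex3_a k0_pm_123 k1_pm_123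

theorem c_pm_123 : CertB 536870912 536870912 1073741824 536870912 858993459 64424510 3 eng mog cd1q1 cd2q2 pd3 true true false .npn 1 2 3
    ndB1q1 ndB2q2 pcB3 Cut.none Ext.none :=
  certB2 (fam := true) (s1 := true) (s2 := false) (a := 1) (b := 2) (c := 3) (cn := .npn) (n1 := ndB1q1) (n2 := ndB2q2) (pc := pcB3) (cut := Cut.none) (xt := Ext.none) (P1 := 536870912) (W1 := 536870912) (P2 := 1073741824) (W2 := 536870912) (P3 := 858993459) (W3 := 64424510) (N0 := 3) (En := eng) (mo := mog) (C1 := cd1q1) (C2 := cd2q2) (C3 := pd3)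
    rfl (fun _ => rfl) s2_pm_123

noncomputable def f_pm_133 : ℕ → ℕ → ℕ → ℕ → Bool := onCell 536870912 536870912 0 1230186008 858993459 64424510
    (rowB 3 eng mog cd1q1 cd2q3 pd3 0 true true false .dn 1 3 3 (qsf 536870912 536870912 0 1230186008 3) ndB1q1 ndB2q3 pcB3 Cut.none Ext.none)

def k0_pm_133 : ∃ t, chk3 f_pm_133 t 1 1 1 = true :=
  ⟨(b (l 2) (b (l 2) (l 4))), by decide +kernel⟩

theorem c_pm_133 : CertB 536870912 536870912 0 1230186008 858993459 64424510 3 eng mog cd1q1 cd2q3 pd3 true true false .dn 1 3 3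
    ndB1q1 ndB2q3 pcB3 Cut.none Ext.none :=
  certB0 (fam := true) (s1 := true) (s2 := false) (a := 1) (b := 3) (c := 3) (cn := .dn) (n1 := ndB1q1) (n2 := ndB2q3) (pc := pcB3) (cut := Cut.none) (xt := Ext.none) (P1 := 536870912) (W1 := 536870912) (P2 := 0) (W2 := 1230186008) (P3 := 858993459) (W3 := 64424510) (N0 := 3) (En := eng) (mo := mog) (C1 := cd1q1) (C2 := cd2q3) (C3 := pd3)
    rfl k0_pm_133

noncomputable def f_pm_202_a : ℕ → ℕ → ℕ → ℕ → Bool := onCell 0 536870912 0 536870912 858993459 64424510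
    (rowB 3 eng mog cd1q2a cd2q0 pd2 0 true true false .pp 2 0 2 (qsf 0 536870912 0 536870912 2) ndB1q2a ndB2q0 pcB2 Cut.none Ext.none)

def k0_pm_202_a : ∃ t, chk3 f_pm_202_a t 2 1 1 = true :=
  ⟨(b (b (b (a (a (b (b (l 16338312) (l 16350704)) (c (l 16415256) (l 16413224))) (b (c (b (l 16364400) (l 16415952)) (l 16186544)) (c (l 16265304) (l 16410072)))) (b (a (c (b (l 16367560) (l 16411840)) (b (l 16301616) (l 16338392))) (c (b (l 16374776) (l 16429424)) (b (l 16328552) (l 16360104)))) (a (c (l 16477320) (l 16400328)) (c (l 16408344) (l 16411808))))) (b (a (c (a (l 16318224) (b (l 16350816) (l 16286512))) (a (l 16394248) (l 16405784))) (a (c (b (l 16381888) (l 16298328)) (l 16424784)) (c (l 16256744) (l 16469080)))) (a (b (c (l 16237216) (l 16301664)) (b (l 16143304) (l 16016728))) (b (c (a (l 16227384) (l 16252376)) (a (l 16308928) (l 16338768))) (a (b (l 16213120) (l 16185456)) (c (b (l 16185336) (l 16148584)) (l 16189496))))))) (b (b (b (a (c (l 16172712)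 (l 16216208)) (a (l 15914168) (c (b (l 16127016) (l 16109480)) (l 16200976)))) (a (c (l 16163480) (l 16197400)) (a (l 16144056) (c (l 16089992) (l 16163424))))) (a (b (l 16064256) (l 16143560)) (a (b (l 16127480) (l 16115632)) (b (l 15950120) (l 16183184))))) (c (b (a (l 16165616) (a (l 16097288) (l 16041000))) (a (l 16173624) (a (l 16091720) (l 16022608)))) (b (a (l 16169576) (l 16102256)) (a (l 16153912) (l 16065760)))))) (b (b (b (a (l 16217600) (c (l 16044720) (l 16019944))) (a (l 16159080) (a (l 16061480) (l 15977408)))) (a (b (a (l 16199576) (l 16144160)) (c (l 16244024) (l 16101496))) (b (a (l 16067288) (l 15974400)) (a (l 16083592) (l 15984712))))) (b (a (l 2) (b (a (l 2) (l 16006608)) (l 2))) (l 2)))), by decide +kernel⟩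

def k1_pm_202_a : ∃ t, chk3 f_pm_202_a t 6 1 1 = true :=
  ⟨(b (c (b (a (b (b (b (a (l 16438720) (l 16478608)) (l 16479544)) (b (l 16507288) (l 16527520))) (b (b (l 16461168) (l 16311688)) (b (l 16286744) (b (l 16220104) (l 16179176))))) (b (b (b (a (l 16525928) (l 16583536)) (l 16566416)) (b (l 16582032) (l 16547360))) (b (b (l 16486104) (l 16273912)) (b (l 16310600) (b (l 16243016) (l 16201912)))))) (b (b (b (a (l 16200824) (l 16330208)) (a (a (l 16075768) (l 16090128)) (l 16109272))) (a (b (a (l 16039248) (l 16035352)) (l 16008312)) (b (l 16056096) (l 16000560)))) (b (a (b (l 15984920) (l 15971440)) (b (a (l 15952296) (l 15955312)) (l 16044120))) (a (l 16007336) (b (l 15885248) (l 15850088)))))) (b (a (b (b (b (a (l 16362968) (l 16398680)) (l 16362432)) (b (l 16432480) (l 16462432))) (b (l 16462160) (b (l 16374520) (l 16225776)))) (b (b (b (a (l 16449440) (l 16515880)) (l 16384408)) (b (l 16505552) (l 16528384))) (b (b (l 16560928) (l 16474776)) (b (l 16387952)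 (l 16155616))))) (b (b (a (b (l 16226416) (l 16169256)) (b (l 16242904) (l 16190784))) (a (b (l 16124464) (l 16088544)) (b (l 16138344) (l 16082648)))) (b (a (l 16047160) (b (l 16034432) (l 15996504))) (a (l 15987712) (l 15866112)))))) (b (b (a (b (c (l 15911520) (l 15918376)) (l 16006384)) (b (c (l 15814232) (l 15833768)) (c (l 15784520) (l 15765832)))) (a (b (l 15866248) (l 15868376)) (b (c (l 15774696) (l 15718504)) (l 15799192)))) (b (a (b (l 15885584) (l 2)) (b (l 15746536) (l 15774256))) (l 2)))), by decide +kernel⟩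

def k2_pm_202_a : ∃ t, chk3 f_pm_202_a t 7 4 1 = true :=
  ⟨(a (b (a (b (b (a (l 16586144) (l 16648352)) (l 16458416)) (c (l 16558440) (l 16596680))) (b (b (c (l 16614368) (l 16651696)) (c (l 16593640) (l 16644784))) (b (l 16387280) (c (l 16536216) (l 16608568))))) (b (c (b (a (l 16485792) (l 16479904)) (a (l 16402848) (l 16398456))) (b (l 16324632) (a (l 16468208) (l 16458200)))) (b (c (a (l 16314856) (l 16313648)) (l 16184936)) (b (a (l 16276960) (l 16269584)) (c (a (l 16205328) (l 16206200)) (l 16265760)))))) (a (b (b (b (a (c (l 16599432) (l 16617552)) (b (l 16598328) (l 16587072))) (c (l 16576120) (l 16602488))) (c (b (l 16554088) (l 16526536)) (b (l 16594272) (l 16578976)))) (b (b (c (l 16468640) (l 16527584)) (a (l 16184384) (l 16215336))) (b (c (l 16301280) (l 16345208)) (b (c (l 16237464) (l 16273592)) (c (l 16198800) (l 16231632)))))) (b (b (a (b (b (b (l 16592008) (l 16584120)) (l 16552008)) (c (l 16556416) (l 16561136))) (b (a (b (b (l 16584080)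 (l 16575816)) (l 16563752)) (b (c (l 16588848) (l 16558920)) (l 16557488))) (c (b (l 16552320) (l 16536824)) (l 16513952)))) (c (b (l 16391672) (l 16486048)) (b (l 16392792) (l 16533000)))) (b (b (c (l 16450832) (l 16381264)) (c (a (l 16369048) (l 16357480)) (l 16214296))) (b (c (a (l 16283744) (l 16269584)) (l 16313400)) (b (c (l 16213464) (l 16242512)) (c (l 16218520) (l 16199592)))))))), by decide +kernel⟩

def k3_pm_202_a : ∃ t, chk3 f_pm_202_a t 7 5 1 = true :=
  ⟨(b (b (a (b (c (a (l 16167536) (l 16169768)) (l 16042152)) (c (a (l 16116424) (l 16120336)) (l 16162056))) (b (c (a (b (l 16175784) (l 16152960)) (b (l 16157072) (l 16138016))) (a (l 16387088) (b (l 16174808) (l 16151824)))) (a (c (l 16118584) (l 16154176)) (c (b (l 16117656) (l 16096144)) (b (l 16129760) (l 16108432)))))) (a (b (c (a (l 16065192) (l 16070656)) (l 16134552)) (c (l 16185840) (l 16085488))) (b (c (a (l 16070752) (l 16146848)) (a (l 16109576) (l 16078032))) (c (a (l 16022560) (l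 16016824)) (a (l 16064096) (l 16035472)))))) (c (b (a (b (l 15967360) (l 15916752)) (b (a (l 15974144) (l 15970320)) (a (l 15925704) (l 15923656)))) (a (a (a (l 15994184) (l 15988576)) (l 15954712)) (b (a (l 15868592) (l 15867832)) (l 15844000)))) (b (a (b (l 16035936) (l 15986048)) (b (l 16152728) (l 15960296))) (a (b (l 15918640) (l 15843136)) (b (l 15898528) (l 15816912)))))), by decide +kernel⟩

def k4_pm_202_a : ∃ t, chk3 f_pm_202_a t 7 3 1 = true :=
  ⟨(b (a (b (b (c (a (l 15743216) (l 15900968)) (a (l 15768480) (l 15730344))) (c (l 15671616) (l 15653760))) (c (b (l 15647280) (l 15644896)) (b (l 15589584) (l 15548776)))) (b (b (c (a (l 15702848) (l 15707384)) (a (l 15704576) (l 15687184))) (c (a (l 15735912) (b (l 15620944) (l 15568472))) (a (l 15576912) (l 15537272)))) (b (c (a (l 15564344) (l 15586080)) (a (l 15490024) (l 15429696))) (c (l 15524448) (l 15399600))))) (b (a (b (c (l 15663464) (l 15530720)) (c (l 15701568) (l 15534328))) (b (c (l 15533864)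 (l 15369944)) (c (l 15565640) (l 15365688)))) (a (b (l 15911032) (l 2)) (b (c (l 15617840) (l 15385496)) (c (l 15688392) (l 15427992)))))), by decide +kernel⟩

theorem s5_pm_202_a : ∃ t, chk3 f_pm_202_a t 7 2 1 = true := ex3_b k2_pm_202_a k3_pm_202_a

theorem s6_pm_202_a : ∃ t, chk3 f_pm_202_a t 7 1 1 = true := ex3_b s5_pm_202_a k4_pm_202_a

theorem s7_pm_202_a : ∃ t, chk3 f_pm_202_a t 3 1 1 = true := ex3_a k1_pm_202_a s6_pm_202_a

theorem s8_pm_202_a : ∃ t, chk3 f_pm_202_a t 1 1 1 = true := ex3_a k0_pm_202_a s7_pm_202_a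

theorem c_pm_202_a : CertB 0 536870912 0 536870912 858993459 64424510 3 eng mog cd1q2a cd2q0 pd2 true true false .pp 2 0 2
    ndB1q2a ndB2q0 pcB2 Cut.none Ext.none :=
  certB0 (fam := true) (s1 := true) (s2 := false) (a := 2) (b := 0) (c := 2) (cn := .pp) (n1 := ndB1q2a) (n2 := ndB2q0) (pc := pcB2) (cut := Cut.none) (xt := Ext.none) (P1 := 0) (W1 := 536870912) (P2 := 0) (W2 := 536870912) (P3 := 858993459) (W3 := 64424510) (N0 := 3) (En := eng) (mo := mog) (C1 := cd1q2a) (C2 := cd2q0) (C3 := pd2)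
    rfl s8_pm_202_a

noncomputable def f_pm_202_b : ℕ → ℕ → ℕ → ℕ → Bool := onCell 1073741824 536870912 0 536870912 858993459 64424510
    (rowB 3 eng mog cd1q2b cd2q0 pd2 2 true true false .pp 2 0 2 (qsf 1239849684 370763052 0 536870912 2) ndB1q2b ndB2q0 pcB2 Cut.none Ext.none)

def k0_pm_202_b : ∃ t, chk3 f_pm_202_b t 1 1 1 = true :=
  ⟨(a (b (a (l 1) (b (a (b (b (a (c (l 257730519239) (l 244845817815)) (c (b (l 16375840) (l 16454848)) (l 16323104))) (a (l 1) (c (l 300143272983) (l 16467008)))) (l 1)) (b (b (c (a (l 16372000) (l 16323208)) (a (l 16275120) (l 16224952))) (a (c (l 16403272) (l 16417952)) (l 16383536))) (b (c (a (l 265246585719) (l 16317936)) (l 348998421655)) (b (a (l 1) (l 315712169079)) (l 1))))) (l 1))) (l 1)) (b (a (b (a (b (c (a (l 16273144) (l 16216456)) (l 16038408)) (b (c (l 16265784) (l 16332304)) (b (a (l 16164544) (l 16254144)) (a (c (l 16334584) (l 16257128)) (l 16101792))))) (b (c (l 16140336) (l 16073592)) (b (l 16067608) (b (l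 16238288) (a (l 16228312) (l 16232408)))))) (b (b (a (b (a (l 314638261911) (l 16211144)) (a (l 1) (l 16175384))) (c (b (l 16215080) (l 16213864)) (l 16238264))) (a (a (l 1) (a (l 1) (l 16029632))) (a (b (l 16201240) (l 16187112)) (l 16224136)))) (a (l 1) (b (c (l 393558129543) (l 16058872)) (a (l 1) (l 378525784615)))))) (b (a (b (c (l 15995072) (l 15929792)) (b (l 16182592) (b (l 16225464) (l 16242536)))) (b (a (l 15850360) (l 15775104)) (b (l 16028464) (b (l 16196088) (l 16253136))))) (b (b (a (b (l 16254384) (l 16263248)) (l 16293976)) (a (c (l 16274304) (l 16269464)) (l 16333800))) (a (b (c (l 16276408) (l 16260752)) (a (l 16185440) (l 16267520))) (b (l 16358192) (l 16361344)))))) (a (l 1) (b (a (b (a (c (l 16111992) (l 16048280)) (c (l 16199488) (l 16130416))) (l 1)) (b (a (l 16045272) (l 16344632)) (a (c (l 16137312) (l 16002216)) (c (l 16236464) (l 16105568))))) (l 1))))), by decide +kernel⟩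

theorem c_pm_202_b : CertB 1239849684 370763052 0 536870912 858993459 64424510 3 eng mog cd1q2b cd2q0 pd2 true true false .pp 2 0 2
    ndB1q2b ndB2q0 pcB2 Cut.none Ext.none :=
  certB2 (fam := true) (s1 := true) (s2 := false) (a := 2) (b := 0) (c := 2) (cn := .pp) (n1 := ndB1q2b) (n2 := ndB2q0) (pc := pcB2) (cut := Cut.none) (xt := Ext.none) (P1 := 1239849684) (W1 := 370763052) (P2 := 0) (W2 := 536870912) (P3 := 858993459) (W3 := 64424510) (N0 := 3) (En := eng) (mo := mog) (C1 := cd1q2b) (C2 := cd2q0) (C3 := pd2)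
    rfl (fun _ => rfl) k0_pm_202_b

noncomputable def f_pm_203_a : ℕ → ℕ → ℕ → ℕ → Bool := onCell 0 536870912 1610612736 536870912 858993459 64424510
    (rowB 3 eng mog cd1q2a cd2q0 pd3 1 true true false .up 2 0 3 (qsf 0 536870912 0 536870912 3) ndB1q2a ndB2q0 pcB3 Cut.none Ext.none)

def k0_pm_203_a : ∃ t, chk3 f_pm_203_a t 1 1 1 = true :=
  ⟨(b (b (a (b (a (b (l 16184800) (l 4)) (b (l 16125680) (l 16087160))) (b (a (l 4) (l 16067640)) (l 4))) (b (a (b (a (l 16054648) (l 15978512)) (l 15980728)) (c (a (l 16000624) (l 15923144)) (a (l 15737672) (l 15621304)))) (a (b (c (l 16083304) (l 15843296)) (a (l 4) (l 15959080))) (b (a (l 15888416) (l 2)) (l 2))))) (a (l 4) (a (l 2) (l 2)))) (l 2)), by decide +kernel⟩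

theorem c_pm_203_a : CertB 0 536870912 0 536870912 858993459 64424510 3 eng mog cd1q2a cd2q0 pd3 true true false .up 2 0 3
    ndB1q2a ndB2q0 pcB3 Cut.none Ext.none :=
  certB1 (fam := true) (s1 := true) (s2 := false) (a := 2) (b := 0) (c := 3) (cn := .up) (n1 := ndB1q2a) (n2 := ndB2q0) (pc := pcB3) (cut := Cut.none) (xt := Ext.none) (P1 := 0) (W1 := 536870912) (P2 := 0) (W2 := 536870912) (P3 := 858993459) (W3 := 64424510) (N0 := 3) (En := eng) (mo := mog) (C1 := cd1q2a) (C2 := cd2q0) (C3 := pd3)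
    rfl (fun _ => rfl) k0_pm_203_a

noncomputable def f_pm_203_b : ℕ → ℕ → ℕ → ℕ → Bool := onCell 1610612736 536870912 0 536870912 858993459 64424510
    (rowB 3 eng mog cd1q2b cd2q0 pd3 2 true true false .up 2 0 3 (qsf 1239849684 370763052 0 536870912 3) ndB1q2b ndB2q0 pcB3 Cut.none Ext.none)

def k0_pm_203_b : ∃ t, chk3 f_pm_203_b t 1 1 1 = true :=
  ⟨(a (b (a (b (a (b (a (l 15612984) (l 15556032)) (b (l 15803872) (b (l 15988136) (l 16105224)))) (b (a (l 15540192) (l 2)) (b (l 15839904) (a (l 15997896) (l 4))))) (b (a (b (l 16207744) (l 16329016)) (b (a (l 16156128) (l 4)) (l 4))) (a (b (l 16430504) (l 16342672)) (l 4)))) (b (b (l 2) (l 4)) (l 4))) (a (b (a (b (a (l 16424712) (l 4)) (l 4)) (l 4)) (l 4)) (l 4))) (l 4)), by decide +kernel⟩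

theorem c_pm_203_b : CertB 1239849684 370763052 0 536870912 858993459 64424510 3 eng mog cd1q2b cd2q0 pd3 true true false .up 2 0 3
    ndB1q2b ndB2q0 pcB3 Cut.none Ext.none :=
  certB2 (fam := true) (s1 := true) (s2 := false) (a := 2) (b := 0) (c := 3) (cn := .up) (n1 := ndB1q2b) (n2 := ndB2q0) (pc := pcB3) (cut := Cut.none) (xt := Ext.none) (P1 := 1239849684) (W1 := 370763052) (P2 := 0) (W2 := 536870912) (P3 := 858993459) (W3 := 64424510) (N0 := 3) (En := eng) (mo := mog) (C1 := cd1q2b) (C2 := cd2q0) (C3 := pd3)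
    rfl (fun _ => rfl) k0_pm_203_b

noncomputable def f_pm_213_a : ℕ → ℕ → ℕ → ℕ → Bool := onCell 0 536870912 1610612736 536870912 858993459 64424510
    (rowB 3 eng mog cd1q2a cd2q1 pd3 1 true true false .pnn 2 1 3 (qsf 0 536870912 536870912 536870912 3) ndB1q2a ndB2q1 pcB3 Cut.none Ext.none)

def k0_pm_213_a : ∃ t, chk3 f_pm_213_a t 1 1 1 = true :=
  ⟨(b (b (a (b (l 1) (b (l 1) (l 4))) (b (a (l 1) (b (l 15925632) (l 15930896))) (a (b (l 16092968) (l 16117200)) (b (l 15949424) (l 15983000))))) (a (l 4) (b (a (l 4) (b (l 16057072) (l 4))) (l 4)))) (l 4)), by decide +kernel⟩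

theorem c_pm_213_a : CertB 0 536870912 536870912 536870912 858993459 64424510 3 eng mog cd1q2a cd2q1 pd3 true true false .pnn 2 1 3
    ndB1q2a ndB2q1 pcB3 Cut.none Ext.none :=
  certB1 (fam := true) (s1 := true) (s2 := false) (a := 2) (b := 1) (c := 3) (cn := .pnn) (n1 := ndB1q2a) (n2 := ndB2q1) (pc := pcB3) (cut := Cut.none) (xt := Ext.none) (P1 := 0) (W1 := 536870912) (P2 := 536870912) (W2 := 536870912) (P3 := 858993459) (W3 := 64424510) (N0 := 3) (En := eng) (mo := mog) (C1 := cd1q2a) (C2 := cd2q1) (C3 := pd3)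
    rfl (fun _ => rfl) k0_pm_213_a

noncomputable def f_pm_213_b : ℕ → ℕ → ℕ → ℕ → Bool := onCell 1239849684 370763052 536870912 536870912 858993459 64424510
    (rowB 3 eng mog cd1q2b cd2q1 pd3 0 true true false .pnn 2 1 3 (qsf 1239849684 370763052 536870912 536870912 3) ndB1q2b ndB2q1 pcB3 Cut.none Ext.none)

def k0_pm_213_b : ∃ t, chk3 f_pm_213_b t 1 1 1 = true :=
  ⟨(l 4), by decide +kernel⟩

theorem c_pm_213_b : CertB 1239849684 370763052 536870912 536870912 858993459 64424510 3 eng mog cd1q2b cd2q1 pd3 true true false .pnn 2 1 3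
    ndB1q2b ndB2q1 pcB3 Cut.none Ext.none :=
  certB0 (fam := true) (s1 := true) (s2 := false) (a := 2) (b := 1) (c := 3) (cn := .pnn) (n1 := ndB1q2b) (n2 := ndB2q1) (pc := pcB3) (cut := Cut.none) (xt := Ext.none) (P1 := 1239849684) (W1 := 370763052) (P2 := 536870912) (W2 := 536870912) (P3 := 858993459) (W3 := 64424510) (N0 := 3) (En := eng) (mo := mog) (C1 := cd1q2b) (C2 := cd2q1) (C3 := pd3)
    rfl k0_pm_213_b

noncomputable def f_pm_303 : ℕ → ℕ → ℕ → ℕ → Bool := onCell 1610612736 536870912 0 536870912 858993459 64424510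
    (rowB 3 eng mog cd1q3 cd2q0 pd3 2 true true false .npn 3 0 3 (qsf 1610612736 536870912 0 536870912 3) ndB1q3 ndB2q0 pcB3 Cut.none Ext.none)

def k0_pm_303 : ∃ t, chk3 f_pm_303 t 1 1 1 = true :=
  ⟨(a (b (a (b (a (b (c (a (l 15607088) (l 15597416)) (l 324300658119)) (b (l 15814016) (l 1))) (b (a (l 15576984) (c (l 15567184) (l 15508680))) (b (c (l 15787688) (l 15740552)) (a (l 15999776) (l 4))))) (a (l 1) (a (l 1) (l 4)))) (b (a (b (a (l 15677832) (l 4)) (l 4)) (l 4)) (l 4))) (a (l 1) (l 4))) (l 4)), by decide +kernel⟩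

theorem c_pm_303 : CertB 1610612736 536870912 0 536870912 858993459 64424510 3 eng mog cd1q3 cd2q0 pd3 true true false .npn 3 0 3
    ndB1q3 ndB2q0 pcB3 Cut.none Ext.none :=
  certB2 (fam := true) (s1 := true) (s2 := false) (a := 3) (b := 0) (c := 3) (cn := .npn) (n1 := ndB1q3) (n2 := ndB2q0) (pc := pcB3) (cut := Cut.none) (xt := Ext.none) (P1 := 1610612736) (W1 := 536870912) (P2 := 0) (W2 := 536870912) (P3 := 858993459) (W3 := 64424510) (N0 := 3) (En := eng) (mo := mog) (C1 := cd1q3) (C2 := cd2q0) (C3 := pd3)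
    rfl (fun _ => rfl) k0_pm_303

noncomputable def f_pm_313 : ℕ → ℕ → ℕ → ℕ → Bool := onCell 1610612736 536870912 536870912 536870912 858993459 64424510
    (rowB 3 eng mog cd1q3 cd2q1 pd3 0 true true false .dn 3 1 3 (qsf 1610612736 536870912 536870912 536870912 3) ndB1q3 ndB2q1 pcB3 Cut.none Ext.none)

def k0_pm_313 : ∃ t, chk3 f_pm_313 t 1 1 1 = true :=
  ⟨(l 4), by decide +kernel⟩

theorem c_pm_313 : CertB 1610612736 536870912 536870912 536870912 858993459 64424510 3 eng mog cd1q3 cd2q1 pd3 true true false .dn 3 1 3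
    ndB1q3 ndB2q1 pcB3 Cut.none Ext.none :=
  certB0 (fam := true) (s1 := true) (s2 := false) (a := 3) (b := 1) (c := 3) (cn := .dn) (n1 := ndB1q3) (n2 := ndB2q1) (pc := pcB3) (cut := Cut.none) (xt := Ext.none) (P1 := 1610612736) (W1 := 536870912) (P2 := 536870912) (W2 := 536870912) (P3 := 858993459) (W3 := 64424510) (N0 := 3) (En := eng) (mo := mog) (C1 := cd1q3) (C2 := cd2q1) (C3 := pd3)
    rfl k0_pm_313

noncomputable def f_mm_001 : ℕ → ℕ → ℕ → ℕ → Bool := onCell 0 536870912 0 536870912 858993459 64424510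
    (rowB 3 eng mog cd1q0 cd2q0 pd1 0 true false false .up 0 0 1 (qsf 0 536870912 0 536870912 1) ndB1q0 ndB2q0 pcB1 Cut.none Ext.none)

def k0_mm_001 : ∃ t, chk3 f_mm_001 t 1 1 1 = true :=
  ⟨(l 4), by decide +kernel⟩

theorem c_mm_001 : CertB 0 536870912 0 536870912 858993459 64424510 3 eng mog cd1q0 cd2q0 pd1 true false false .up 0 0 1
    ndB1q0 ndB2q0 pcB1 Cut.none Ext.none :=
  certB0 (fam := true) (s1 := false) (s2 := false) (a := 0) (b := 0) (c := 1) (cn := .up) (n1 := ndB1q0) (n2 := ndB2q0) (pc := pcB1) (cut := Cut.none) (xt := Ext.none) (P1 := 0) (W1 := 536870912) (P2 := 0) (W2 := 536870912) (P3 := 858993459) (W3 := 64424510) (N0 := 3) (En := eng) (mo := mog) (C1 := cd1q0) (C2 := cd2q0) (C3 := pd1)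
    rfl k0_mm_001

noncomputable def f_mm_011 : ℕ → ℕ → ℕ → ℕ → Bool := onCell 0 536870912 536870912 536870912 858993459 64424510
    (rowB 3 eng mog cd1q0 cd2q1 pd1 0 true false false .pnn 0 1 1 (qsf 0 536870912 536870912 536870912 1) ndB1q0 ndB2q1 pcB1 Cut.none Ext.none)

def k0_mm_011 : ∃ t, chk3 f_mm_011 t 1 1 1 = true :=
  ⟨(l 4), by decide +kernel⟩

theorem c_mm_011 : CertB 0 536870912 536870912 536870912 858993459 64424510 3 eng mog cd1q0 cd2q1 pd1 true false false .pnn 0 1 1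
    ndB1q0 ndB2q1 pcB1 Cut.none Ext.none :=
  certB0 (fam := true) (s1 := false) (s2 := false) (a := 0) (b := 1) (c := 1) (cn := .pnn) (n1 := ndB1q0) (n2 := ndB2q1) (pc := pcB1) (cut := Cut.none) (xt := Ext.none) (P1 := 0) (W1 := 536870912) (P2 := 536870912) (W2 := 536870912) (P3 := 858993459) (W3 := 64424510) (N0 := 3) (En := eng) (mo := mog) (C1 := cd1q0) (C2 := cd2q1) (C3 := pd1)
    rfl k0_mm_011

noncomputable def f_mm_012 : ℕ → ℕ → ℕ → ℕ → Bool := onCell 0 536870912 536870912 536870912 858993459 64424510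
    (rowB 3 eng mog cd1q0 cd2q1 pd2 0 true false false .pnp 0 1 2 (qsf 0 536870912 536870912 536870912 2) ndB1q0 ndB2q1 pcB2 Cut.none Ext.none)

def k0_mm_012 : ∃ t, chk3 f_mm_012 t 1 1 1 = true :=
  ⟨(l 4), by decide +kernel⟩

theorem c_mm_012 : CertB 0 536870912 536870912 536870912 858993459 64424510 3 eng mog cd1q0 cd2q1 pd2 true false false .pnp 0 1 2
    ndB1q0 ndB2q1 pcB2 Cut.none Ext.none :=
  certB0 (fam := true) (s1 := false) (s2 := false) (a := 0) (b := 1) (c := 2) (cn := .pnp) (n1 := ndB1q0) (n2 := ndB2q1) (pc := pcB2) (cut := Cut.none) (xt := Ext.none) (P1 := 0) (W1 := 536870912) (P2 := 536870912) (W2 := 536870912) (P3 := 858993459) (W3 := 64424510) (N0 := 3) (En := eng) (mo := mog) (C1 := cd1q0) (C2 := cd2q1) (C3 := pd2)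
    rfl k0_mm_012

noncomputable def f_mm_022 : ℕ → ℕ → ℕ → ℕ → Bool := onCell 0 536870912 1073741824 536870912 858993459 64424510
    (rowB 3 eng mog cd1q0 cd2q2 pd2 0 true false false .pp 0 2 2 (qsf 0 536870912 1073741824 536870912 2) ndB1q0 ndB2q2 pcB2 Cut.none Ext.none)

def k0_mm_022 : ∃ t, chk3 f_mm_022 t 1 1 1 = true :=
  ⟨(l 4), by decide +kernel⟩

theorem c_mm_022 : CertB 0 536870912 1073741824 536870912 858993459 64424510 3 eng mog cd1q0 cd2q2 pd2 true false false .pp 0 2 2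
    ndB1q0 ndB2q2 pcB2 Cut.none Ext.none :=
  certB0 (fam := true) (s1 := false) (s2 := false) (a := 0) (b := 2) (c := 2) (cn := .pp) (n1 := ndB1q0) (n2 := ndB2q2) (pc := pcB2) (cut := Cut.none) (xt := Ext.none) (P1 := 0) (W1 := 536870912) (P2 := 1073741824) (W2 := 536870912) (P3 := 858993459) (W3 := 64424510) (N0 := 3) (En := eng) (mo := mog) (C1 := cd1q0) (C2 := cd2q2) (C3 := pd2)
    rfl k0_mm_022

noncomputable def f_mm_023 : ℕ → ℕ → ℕ → ℕ → Bool := onCell 0 536870912 1073741824 536870912 858993459 64424510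
    (rowB 3 eng mog cd1q0 cd2q2 pd3 0 true false false .up 0 2 3 (qsf 0 536870912 1073741824 536870912 3) ndB1q0 ndB2q2 pcB3 Cut.none Ext.none)

def k0_mm_023 : ∃ t, chk3 f_mm_023 t 1 1 1 = true :=
  ⟨(l 4), by decide +kernel⟩

theorem c_mm_023 : CertB 0 536870912 1073741824 536870912 858993459 64424510 3 eng mog cd1q0 cd2q2 pd3 true false false .up 0 2 3
    ndB1q0 ndB2q2 pcB3 Cut.none Ext.none :=
  certB0 (fam := true) (s1 := false) (s2 := false) (a := 0) (b := 2) (c := 3) (cn := .up) (n1 := ndB1q0) (n2 := ndB2q2) (pc := pcB3) (cut := Cut.none) (xt := Ext.none) (P1 := 0) (W1 := 536870912) (P2 := 1073741824) (W2 := 536870912) (P3 := 858993459) (W3 := 64424510) (N0 := 3) (En := eng) (mo := mog) (C1 := cd1q0) (C2 := cd2q2) (C3 := pd3)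
    rfl k0_mm_023

noncomputable def f_mm_033 : ℕ → ℕ → ℕ → ℕ → Bool := onCell 0 536870912 0 1230186008 858993459 64424510
    (rowB 3 eng mog cd1q0 cd2q3 pd3 0 true false false .pnn 0 3 3 (qsf 0 536870912 0 1230186008 3) ndB1q0 ndB2q3 pcB3 Cut.none Ext.none)

def k0_mm_033 : ∃ t, chk3 f_mm_033 t 1 1 1 = true :=
  ⟨(l 5), by decide +kernel⟩

theorem c_mm_033 : CertB 0 536870912 0 1230186008 858993459 64424510 3 eng mog cd1q0 cd2q3 pd3 true false false .pnn 0 3 3
    ndB1q0 ndB2q3 pcB3 Cut.none Ext.none :=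
  certB0 (fam := true) (s1 := false) (s2 := false) (a := 0) (b := 3) (c := 3) (cn := .pnn) (n1 := ndB1q0) (n2 := ndB2q3) (pc := pcB3) (cut := Cut.none) (xt := Ext.none) (P1 := 0) (W1 := 536870912) (P2 := 0) (W2 := 1230186008) (P3 := 858993459) (W3 := 64424510) (N0 := 3) (En := eng) (mo := mog) (C1 := cd1q0) (C2 := cd2q3) (C3 := pd3)
    rfl k0_mm_033

noncomputable def f_mm_101 : ℕ → ℕ → ℕ → ℕ → Bool := onCell 536870912 536870912 0 536870912 858993459 64424510
    (rowB 3 eng mog cd1q1 cd2q0 pd1 0 true false false .npn 1 0 1 (qsf 536870912 536870912 0 536870912 1) ndB1q1 ndB2q0 pcB1 Cut.none Ext.none)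

def k0_mm_101 : ∃ t, chk3 f_mm_101 t 1 1 1 = true :=
  ⟨(l 4), by decide +kernel⟩

theorem c_mm_101 : CertB 536870912 536870912 0 536870912 858993459 64424510 3 eng mog cd1q1 cd2q0 pd1 true false false .npn 1 0 1
    ndB1q1 ndB2q0 pcB1 Cut.none Ext.none :=
  certB0 (fam := true) (s1 := false) (s2 := false) (a := 1) (b := 0) (c := 1) (cn := .npn) (n1 := ndB1q1) (n2 := ndB2q0) (pc := pcB1) (cut := Cut.none) (xt := Ext.none) (P1 := 536870912) (W1 := 536870912) (P2 := 0) (W2 := 536870912) (P3 := 858993459) (W3 := 64424510) (N0 := 3) (En := eng) (mo := mog) (C1 := cd1q1) (C2 := cd2q0) (C3 := pd1)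
    rfl k0_mm_101

noncomputable def f_mm_102 : ℕ → ℕ → ℕ → ℕ → Bool := onCell 536870912 536870912 0 536870912 858993459 64424510
    (rowB 3 eng mog cd1q1 cd2q0 pd2 0 true false false .npp 1 0 2 (qsf 536870912 536870912 0 536870912 2) ndB1q1 ndB2q0 pcB2 Cut.none Ext.none)

def k0_mm_102 : ∃ t, chk3 f_mm_102 t 1 1 1 = true :=
  ⟨(l 4), by decide +kernel⟩

theorem c_mm_102 : CertB 536870912 536870912 0 536870912 858993459 64424510 3 eng mog cd1q1 cd2q0 pd2 true false false .npp 1 0 2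
    ndB1q1 ndB2q0 pcB2 Cut.none Ext.none :=
  certB0 (fam := true) (s1 := false) (s2 := false) (a := 1) (b := 0) (c := 2) (cn := .npp) (n1 := ndB1q1) (n2 := ndB2q0) (pc := pcB2) (cut := Cut.none) (xt := Ext.none) (P1 := 536870912) (W1 := 536870912) (P2 := 0) (W2 := 536870912) (P3 := 858993459) (W3 := 64424510) (N0 := 3) (En := eng) (mo := mog) (C1 := cd1q1) (C2 := cd2q0) (C3 := pd2)
    rfl k0_mm_102

noncomputable def f_mm_112 : ℕ → ℕ → ℕ → ℕ → Bool := onCell 536870912 536870912 536870912 536870912 858993459 64424510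
    (rowB 3 eng mog cd1q1 cd2q1 pd2 0 true false false .dn 1 1 2 (qsf 536870912 536870912 536870912 536870912 2) ndB1q1 ndB2q1 pcB2 Cut.none Ext.none)

def k0_mm_112 : ∃ t, chk3 f_mm_112 t 1 1 1 = true :=
  ⟨(l 4), by decide +kernel⟩

theorem c_mm_112 : CertB 536870912 536870912 536870912 536870912 858993459 64424510 3 eng mog cd1q1 cd2q1 pd2 true false false .dn 1 1 2
    ndB1q1 ndB2q1 pcB2 Cut.none Ext.none :=
  certB0 (fam := true) (s1 := false) (s2 := false) (a := 1) (b := 1) (c := 2) (cn := .dn) (n1 := ndB1q1) (n2 := ndB2q1) (pc := pcB2) (cut := Cut.none) (xt := Ext.none) (P1 := 536870912) (W1 := 536870912) (P2 := 536870912) (W2 := 536870912) (P3 := 858993459) (W3 := 64424510) (N0 := 3) (En := eng) (mo := mog) (C1 := cd1q1) (C2 := cd2q1) (C3 := pd2)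
    rfl k0_mm_112

noncomputable def f_mm_113 : ℕ → ℕ → ℕ → ℕ → Bool := onCell 536870912 536870912 536870912 536870912 858993459 64424510
    (rowB 3 eng mog cd1q1 cd2q1 pd3 0 true false false .nn 1 1 3 (qsf 536870912 536870912 536870912 536870912 3) ndB1q1 ndB2q1 pcB3 Cut.none Ext.none)

def k0_mm_113 : ∃ t, chk3 f_mm_113 t 1 1 1 = true :=
  ⟨(l 4), by decide +kernel⟩

theorem c_mm_113 : CertB 536870912 536870912 536870912 536870912 858993459 64424510 3 eng mog cd1q1 cd2q1 pd3 true false false .nn 1 1 3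
    ndB1q1 ndB2q1 pcB3 Cut.none Ext.none :=
  certB0 (fam := true) (s1 := false) (s2 := false) (a := 1) (b := 1) (c := 3) (cn := .nn) (n1 := ndB1q1) (n2 := ndB2q1) (pc := pcB3) (cut := Cut.none) (xt := Ext.none) (P1 := 536870912) (W1 := 536870912) (P2 := 536870912) (W2 := 536870912) (P3 := 858993459) (W3 := 64424510) (N0 := 3) (En := eng) (mo := mog) (C1 := cd1q1) (C2 := cd2q1) (C3 := pd3)
    rfl k0_mm_113

noncomputable def f_mm_123 : ℕ → ℕ → ℕ → ℕ → Bool := onCell 536870912 536870912 1073741824 536870912 858993459 64424510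
    (rowB 3 eng mog cd1q1 cd2q2 pd3 0 true false false .npn 1 2 3 (qsf 536870912 536870912 1073741824 536870912 3) ndB1q1 ndB2q2 pcB3 Cut.none Ext.none)

def k0_mm_123 : ∃ t, chk3 f_mm_123 t 1 1 1 = true :=
  ⟨(l 4), by decide +kernel⟩

theorem c_mm_123 : CertB 536870912 536870912 1073741824 536870912 858993459 64424510 3 eng mog cd1q1 cd2q2 pd3 true false false .npn 1 2 3
    ndB1q1 ndB2q2 pcB3 Cut.none Ext.none :=
  certB0 (fam := true) (s1 := false) (s2 := false) (a := 1) (b := 2) (c := 3) (cn := .npn) (n1 := ndB1q1) (n2 := ndB2q2) (pc := pcB3) (cut := Cut.none) (xt := Ext.none) (P1 := 536870912) (W1 := 536870912) (P2 := 1073741824) (W2 := 536870912) (P3 := 858993459) (W3 := 64424510) (N0 := 3) (En := eng) (mo := mog) (C1 := cd1q1) (C2 := cd2q2) (C3 := pd3)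
    rfl k0_mm_123

noncomputable def f_mm_133 : ℕ → ℕ → ℕ → ℕ → Bool := onCell 536870912 536870912 0 1230186008 858993459 64424510
    (rowB 3 eng mog cd1q1 cd2q3 pd3 0 true false false .dn 1 3 3 (qsf 536870912 536870912 0 1230186008 3) ndB1q1 ndB2q3 pcB3 Cut.none Ext.none)

def k0_mm_133 : ∃ t, chk3 f_mm_133 t 1 1 1 = true :=
  ⟨(l 4), by decide +kernel⟩

theorem c_mm_133 : CertB 536870912 536870912 0 1230186008 858993459 64424510 3 eng mog cd1q1 cd2q3 pd3 true false false .dn 1 3 3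
    ndB1q1 ndB2q3 pcB3 Cut.none Ext.none :=
  certB0 (fam := true) (s1 := false) (s2 := false) (a := 1) (b := 3) (c := 3) (cn := .dn) (n1 := ndB1q1) (n2 := ndB2q3) (pc := pcB3) (cut := Cut.none) (xt := Ext.none) (P1 := 536870912) (W1 := 536870912) (P2 := 0) (W2 := 1230186008) (P3 := 858993459) (W3 := 64424510) (N0 := 3) (En := eng) (mo := mog) (C1 := cd1q1) (C2 := cd2q3) (C3 := pd3)
    rfl k0_mm_133

noncomputable def f_mm_202_a : ℕ → ℕ → ℕ → ℕ → Bool := onCell 0 536870912 0 536870912 858993459 64424510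
    (rowB 3 eng mog cd1q2a cd2q0 pd2 0 true false false .pp 2 0 2 (qsf 0 536870912 0 536870912 2) ndB1q2a ndB2q0 pcB2 Cut.none Ext.none)

def k0_mm_202_a : ∃ t, chk3 f_mm_202_a t 1 1 1 = true :=
  ⟨(b (b (a (b (a (b (b (a (l 16441840) (l 16438088)) (a (l 16434328) (l 16436352))) (c (a (l 16427576) (l 16447704)) (b (l 16454088) (l 16465600)))) (b (a (b (c (l 16435152) (l 16456440)) (l 16563760)) (a (b (l 16463088) (l 4)) (l 4))) (l 4))) (a (l 4) (l 4))) (l 4)) (l 4)) (l 4)), by decide +kernel⟩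

theorem c_mm_202_a : CertB 0 536870912 0 536870912 858993459 64424510 3 eng mog cd1q2a cd2q0 pd2 true false false .pp 2 0 2
    ndB1q2a ndB2q0 pcB2 Cut.none Ext.none :=
  certB0 (fam := true) (s1 := false) (s2 := false) (a := 2) (b := 0) (c := 2) (cn := .pp) (n1 := ndB1q2a) (n2 := ndB2q0) (pc := pcB2) (cut := Cut.none) (xt := Ext.none) (P1 := 0) (W1 := 536870912) (P2 := 0) (W2 := 536870912) (P3 := 858993459) (W3 := 64424510) (N0 := 3) (En := eng) (mo := mog) (C1 := cd1q2a) (C2 := cd2q0) (C3 := pd2)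
    rfl k0_mm_202_a

noncomputable def f_mm_202_b : ℕ → ℕ → ℕ → ℕ → Bool := onCell 1239849684 370763052 0 536870912 858993459 64424510
    (rowB 3 eng mog cd1q2b cd2q0 pd2 0 true false false .pp 2 0 2 (qsf 1239849684 370763052 0 536870912 2) ndB1q2b ndB2q0 pcB2 Cut.none Ext.none)

def k0_mm_202_b : ∃ t, chk3 f_mm_202_b t 1 1 1 = true :=
  ⟨(b (b (a (a (b (b (c (a (b (l 16388776) (l 16387608)) (l 16407904)) (a (b (l 16404672) (l 16421136)) (l 16390976))) (a (b (c (l 16391904) (l 16417048)) (c (l 16403232) (l 16422968))) (b (c (l 16342808) (l 16328344)) (l 4)))) (l 4)) (b (b (b (a (l 16301448) (a (l 16105416) (l 16044296))) (a (c (l 16215104) (l 16190168)) (l 4))) (l 4)) (l 4))) (a (b (a (b (a (l 16133928) (l 4)) (l 4)) (l 4)) (l 4)) (l 4))) (l 4)) (l 4)), by decide +kernel⟩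

theorem c_mm_202_b : CertB 1239849684 370763052 0 536870912 858993459 64424510 3 eng mog cd1q2b cd2q0 pd2 true false false .pp 2 0 2
    ndB1q2b ndB2q0 pcB2 Cut.none Ext.none :=
  certB0 (fam := true) (s1 := false) (s2 := false) (a := 2) (b := 0) (c := 2) (cn := .pp) (n1 := ndB1q2b) (n2 := ndB2q0) (pc := pcB2) (cut := Cut.none) (xt := Ext.none) (P1 := 1239849684) (W1 := 370763052) (P2 := 0) (W2 := 536870912) (P3 := 858993459) (W3 := 64424510) (N0 := 3) (En := eng) (mo := mog) (C1 := cd1q2b) (C2 := cd2q0) (C3 := pd2)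
    rfl k0_mm_202_b

noncomputable def f_mm_203_a : ℕ → ℕ → ℕ → ℕ → Bool := onCell 0 536870912 1610612736 536870912 858993459 64424510
    (rowB 3 eng mog cd1q2a cd2q0 pd3 1 true false false .up 2 0 3 (qsf 0 536870912 0 536870912 3) ndB1q2a ndB2q0 pcB3 Cut.none Ext.none)

def k0_mm_203_a : ∃ t, chk3 f_mm_203_a t 1 1 1 = true :=
  ⟨(l 4), by decide +kernel⟩

theorem c_mm_203_a : CertB 0 536870912 0 536870912 858993459 64424510 3 eng mog cd1q2a cd2q0 pd3 true false false .up 2 0 3
    ndB1q2a ndB2q0 pcB3 Cut.none Ext.none :=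
  certB1 (fam := true) (s1 := false) (s2 := false) (a := 2) (b := 0) (c := 3) (cn := .up) (n1 := ndB1q2a) (n2 := ndB2q0) (pc := pcB3) (cut := Cut.none) (xt := Ext.none) (P1 := 0) (W1 := 536870912) (P2 := 0) (W2 := 536870912) (P3 := 858993459) (W3 := 64424510) (N0 := 3) (En := eng) (mo := mog) (C1 := cd1q2a) (C2 := cd2q0) (C3 := pd3)
    rfl (fun _ => rfl) k0_mm_203_a

noncomputable def f_mm_203_b : ℕ → ℕ → ℕ → ℕ → Bool := onCell 1239849684 370763052 1610612736 536870912 858993459 64424510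
    (rowB 3 eng mog cd1q2b cd2q0 pd3 1 true false false .up 2 0 3 (qsf 1239849684 370763052 0 536870912 3) ndB1q2b ndB2q0 pcB3 Cut.none Ext.none)

def k0_mm_203_b : ∃ t, chk3 f_mm_203_b t 1 1 1 = true :=
  ⟨(l 4), by decide +kernel⟩

theorem c_mm_203_b : CertB 1239849684 370763052 0 536870912 858993459 64424510 3 eng mog cd1q2b cd2q0 pd3 true false false .up 2 0 3
    ndB1q2b ndB2q0 pcB3 Cut.none Ext.none :=
  certB1 (fam := true) (s1 := false) (s2 := false) (a := 2) (b := 0) (c := 3) (cn := .up) (n1 := ndB1q2b) (n2 := ndB2q0) (pc := pcB3) (cut := Cut.none) (xt := Ext.none) (P1 := 1239849684) (W1 := 370763052) (P2 := 0) (W2 := 536870912) (P3 := 858993459) (W3 := 64424510) (N0 := 3) (En := eng) (mo := mog) (C1 := cd1q2b) (C2 := cd2q0) (C3 := pd3)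
    rfl (fun _ => rfl) k0_mm_203_b

noncomputable def f_mm_213_a : ℕ → ℕ → ℕ → ℕ → Bool := onCell 0 536870912 536870912 536870912 858993459 64424510
    (rowB 3 eng mog cd1q2a cd2q1 pd3 0 true false false .pnn 2 1 3 (qsf 0 536870912 536870912 536870912 3) ndB1q2a ndB2q1 pcB3 Cut.none Ext.none)

def k0_mm_213_a : ∃ t, chk3 f_mm_213_a t 1 1 1 = true :=
  ⟨(l 4), by decide +kernel⟩

theorem c_mm_213_a : CertB 0 536870912 536870912 536870912 858993459 64424510 3 eng mog cd1q2a cd2q1 pd3 true false false .pnn 2 1 3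
    ndB1q2a ndB2q1 pcB3 Cut.none Ext.none :=
  certB0 (fam := true) (s1 := false) (s2 := false) (a := 2) (b := 1) (c := 3) (cn := .pnn) (n1 := ndB1q2a) (n2 := ndB2q1) (pc := pcB3) (cut := Cut.none) (xt := Ext.none) (P1 := 0) (W1 := 536870912) (P2 := 536870912) (W2 := 536870912) (P3 := 858993459) (W3 := 64424510) (N0 := 3) (En := eng) (mo := mog) (C1 := cd1q2a) (C2 := cd2q1) (C3 := pd3)
    rfl k0_mm_213_a

noncomputable def f_mm_213_b : ℕ → ℕ → ℕ → ℕ → Bool := onCell 1239849684 370763052 536870912 536870912 858993459 64424510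
    (rowB 3 eng mog cd1q2b cd2q1 pd3 0 true false false .pnn 2 1 3 (qsf 1239849684 370763052 536870912 536870912 3) ndB1q2b ndB2q1 pcB3 Cut.none Ext.none)

def k0_mm_213_b : ∃ t, chk3 f_mm_213_b t 1 1 1 = true :=
  ⟨(l 4), by decide +kernel⟩

theorem c_mm_213_b : CertB 1239849684 370763052 536870912 536870912 858993459 64424510 3 eng mog cd1q2b cd2q1 pd3 true false false .pnn 2 1 3
    ndB1q2b ndB2q1 pcB3 Cut.none Ext.none :=
  certB0 (fam := true) (s1 := false) (s2 := false) (a := 2) (b := 1) (c := 3) (cn := .pnn) (n1 := ndB1q2b) (n2 := ndB2q1) (pc := pcB3) (cut := Cut.none) (xt := Ext.none) (P1 := 1239849684) (W1 := 370763052) (P2 := 536870912) (W2 := 536870912) (P3 := 858993459) (W3 := 64424510) (N0 := 3) (En := eng) (mo := mog) (C1 := cd1q2b) (C2 := cd2q1) (C3 := pd3)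
    rfl k0_mm_213_b

noncomputable def f_mm_303 : ℕ → ℕ → ℕ → ℕ → Bool := onCell 1610612736 536870912 0 536870912 858993459 64424510
    (rowB 3 eng mog cd1q3 cd2q0 pd3 0 true false false .npn 3 0 3 (qsf 1610612736 536870912 0 536870912 3) ndB1q3 ndB2q0 pcB3 Cut.none Ext.none)

def k0_mm_303 : ∃ t, chk3 f_mm_303 t 1 1 1 = true :=
  ⟨(a (l 4) (l 4)), by decide +kernel⟩

theorem c_mm_303 : CertB 1610612736 536870912 0 536870912 858993459 64424510 3 eng mog cd1q3 cd2q0 pd3 true false false .npn 3 0 3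
    ndB1q3 ndB2q0 pcB3 Cut.none Ext.none :=
  certB0 (fam := true) (s1 := false) (s2 := false) (a := 3) (b := 0) (c := 3) (cn := .npn) (n1 := ndB1q3) (n2 := ndB2q0) (pc := pcB3) (cut := Cut.none) (xt := Ext.none) (P1 := 1610612736) (W1 := 536870912) (P2 := 0) (W2 := 536870912) (P3 := 858993459) (W3 := 64424510) (N0 := 3) (En := eng) (mo := mog) (C1 := cd1q3) (C2 := cd2q0) (C3 := pd3)
    rfl k0_mm_303

noncomputable def f_mm_313 : ℕ → ℕ → ℕ → ℕ → Bool := onCell 1610612736 536870912 536870912 536870912 858993459 64424510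
    (rowB 3 eng mog cd1q3 cd2q1 pd3 0 true false false .dn 3 1 3 (qsf 1610612736 536870912 536870912 536870912 3) ndB1q3 ndB2q1 pcB3 Cut.none Ext.none)

def k0_mm_313 : ∃ t, chk3 f_mm_313 t 1 1 1 = true :=
  ⟨(l 4), by decide +kernel⟩

theorem c_mm_313 : CertB 1610612736 536870912 536870912 536870912 858993459 64424510 3 eng mog cd1q3 cd2q1 pd3 true false false .dn 3 1 3
    ndB1q3 ndB2q1 pcB3 Cut.none Ext.none :=
  certB0 (fam := true) (s1 := false) (s2 := false) (a := 3) (b := 1) (c := 3) (cn := .dn) (n1 := ndB1q3) (n2 := ndB2q1) (pc := pcB3) (cut := Cut.none) (xt := Ext.none) (P1 := 1610612736) (W1 := 536870912) (P2 := 536870912) (W2 := 536870912) (P3 := 858993459) (W3 := 64424510) (N0 := 3) (En := eng) (mo := mog) (C1 := cd1q3) (C2 := cd2q1) (C3 := pd3)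
    rfl k0_mm_313

end Pool.Agent.Strip051.G.I8000_8600.Tab.C.BA12

namespace Pool.Agent.Strip051.G.I8000_8600.Tab.C.BA13

open Pool.Agent.Strip051.PB Pool.Agent.Strip051.PB.T
open Pool.Agent.Strip051.G.I8000_8600.Tab

noncomputable def f_pp_001 : ℕ → ℕ → ℕ → ℕ → Bool := onCell 0 536870912 0 536870912 858993459 64424510
    (rowB 3 eng mog cd1q0 cd3q0 pd1 0 true true true .up 0 0 1 (qsf 0 536870912 0 536870912 1) ndB1q0 ndB3q0 pcB1 Cut.none Ext.none)

def k0_pp_001 : ∃ t, chk3 f_pp_001 t 1 1 1 = true :=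
  ⟨(l 4), by decide +kernel⟩

theorem c_pp_001 : CertB 0 536870912 0 536870912 858993459 64424510 3 eng mog cd1q0 cd3q0 pd1 true true true .up 0 0 1
    ndB1q0 ndB3q0 pcB1 Cut.none Ext.none :=
  certB0 (fam := true) (s1 := true) (s2 := true) (a := 0) (b := 0) (c := 1) (cn := .up) (n1 := ndB1q0) (n2 := ndB3q0) (pc := pcB1) (cut := Cut.none) (xt := Ext.none) (P1 := 0) (W1 := 536870912) (P2 := 0) (W2 := 536870912) (P3 := 858993459) (W3 := 64424510) (N0 := 3) (En := eng) (mo := mog) (C1 := cd1q0) (C2 := cd3q0) (C3 := pd1)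
    rfl k0_pp_001

noncomputable def f_pp_011 : ℕ → ℕ → ℕ → ℕ → Bool := onCell 0 536870912 536870912 536870912 858993459 64424510
    (rowB 3 eng mog cd1q0 cd3q1 pd1 0 true true true .pnn 0 1 1 (qsf 0 536870912 536870912 536870912 1) ndB1q0 ndB3q1 pcB1 Cut.none Ext.none)

def k0_pp_011 : ∃ t, chk3 f_pp_011 t 1 1 1 = true :=
  ⟨(l 4), by decide +kernel⟩

theorem c_pp_011 : CertB 0 536870912 536870912 536870912 858993459 64424510 3 eng mog cd1q0 cd3q1 pd1 true true true .pnn 0 1 1
    ndB1q0 ndB3q1 pcB1 Cut.none Ext.none :=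
  certB0 (fam := true) (s1 := true) (s2 := true) (a := 0) (b := 1) (c := 1) (cn := .pnn) (n1 := ndB1q0) (n2 := ndB3q1) (pc := pcB1) (cut := Cut.none) (xt := Ext.none) (P1 := 0) (W1 := 536870912) (P2 := 536870912) (W2 := 536870912) (P3 := 858993459) (W3 := 64424510) (N0 := 3) (En := eng) (mo := mog) (C1 := cd1q0) (C2 := cd3q1) (C3 := pd1)
    rfl k0_pp_011

noncomputable def f_pp_012 : ℕ → ℕ → ℕ → ℕ → Bool := onCell 0 536870912 536870912 536870912 858993459 64424510
    (rowB 3 eng mog cd1q0 cd3q1 pd2 0 true true true .pnp 0 1 2 (qsf 0 536870912 536870912 536870912 2) ndB1q0 ndB3q1 pcB2 Cut.none Ext.none)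

def k0_pp_012 : ∃ t, chk3 f_pp_012 t 1 1 1 = true :=
  ⟨(l 4), by decide +kernel⟩

theorem c_pp_012 : CertB 0 536870912 536870912 536870912 858993459 64424510 3 eng mog cd1q0 cd3q1 pd2 true true true .pnp 0 1 2
    ndB1q0 ndB3q1 pcB2 Cut.none Ext.none :=
  certB0 (fam := true) (s1 := true) (s2 := true) (a := 0) (b := 1) (c := 2) (cn := .pnp) (n1 := ndB1q0) (n2 := ndB3q1) (pc := pcB2) (cut := Cut.none) (xt := Ext.none) (P1 := 0) (W1 := 536870912) (P2 := 536870912) (W2 := 536870912) (P3 := 858993459) (W3 := 64424510) (N0 := 3) (En := eng) (mo := mog) (C1 := cd1q0) (C2 := cd3q1) (C3 := pd2)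
    rfl k0_pp_012

noncomputable def f_pp_022 : ℕ → ℕ → ℕ → ℕ → Bool := onCell 0 536870912 1073741824 536870912 858993459 64424510
    (rowB 3 eng mog cd1q0 cd3q2 pd2 0 true true true .pp 0 2 2 (qsf 0 536870912 1073741824 536870912 2) ndB1q0 ndB3q2 pcB2 Cut.none Ext.none)

def k0_pp_022 : ∃ t, chk3 f_pp_022 t 1 1 1 = true :=
  ⟨(l 4), by decide +kernel⟩

theorem c_pp_022 : CertB 0 536870912 1073741824 536870912 858993459 64424510 3 eng mog cd1q0 cd3q2 pd2 true true true .pp 0 2 2
    ndB1q0 ndB3q2 pcB2 Cut.none Ext.none :=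
  certB0 (fam := true) (s1 := true) (s2 := true) (a := 0) (b := 2) (c := 2) (cn := .pp) (n1 := ndB1q0) (n2 := ndB3q2) (pc := pcB2) (cut := Cut.none) (xt := Ext.none) (P1 := 0) (W1 := 536870912) (P2 := 1073741824) (W2 := 536870912) (P3 := 858993459) (W3 := 64424510) (N0 := 3) (En := eng) (mo := mog) (C1 := cd1q0) (C2 := cd3q2) (C3 := pd2)
    rfl k0_pp_022

noncomputable def f_pp_023 : ℕ → ℕ → ℕ → ℕ → Bool := onCell 0 536870912 1073741824 536870912 858993459 64424510
    (rowB 3 eng mog cd1q0 cd3q2 pd3 0 true true true .up 0 2 3 (qsf 0 536870912 1073741824 536870912 3) ndB1q0 ndB3q2 pcB3 Cut.none Ext.none)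

def k0_pp_023 : ∃ t, chk3 f_pp_023 t 1 1 1 = true :=
  ⟨(l 4), by decide +kernel⟩

theorem c_pp_023 : CertB 0 536870912 1073741824 536870912 858993459 64424510 3 eng mog cd1q0 cd3q2 pd3 true true true .up 0 2 3
    ndB1q0 ndB3q2 pcB3 Cut.none Ext.none :=
  certB0 (fam := true) (s1 := true) (s2 := true) (a := 0) (b := 2) (c := 3) (cn := .up) (n1 := ndB1q0) (n2 := ndB3q2) (pc := pcB3) (cut := Cut.none) (xt := Ext.none) (P1 := 0) (W1 := 536870912) (P2 := 1073741824) (W2 := 536870912) (P3 := 858993459) (W3 := 64424510) (N0 := 3) (En := eng) (mo := mog) (C1 := cd1q0) (C2 := cd3q2) (C3 := pd3)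
    rfl k0_pp_023

noncomputable def f_pp_033 : ℕ → ℕ → ℕ → ℕ → Bool := onCell 0 536870912 0 1230186008 858993459 64424510
    (rowB 3 eng mog cd1q0 cd3q3 pd3 0 true true true .pnn 0 3 3 (qsf 0 536870912 0 1230186008 3) ndB1q0 ndB3q3 pcB3 Cut.none Ext.none)

def k0_pp_033 : ∃ t, chk3 f_pp_033 t 1 1 1 = true :=
  ⟨(b (l 4) (l 4)), by decide +kernel⟩

theorem c_pp_033 : CertB 0 536870912 0 1230186008 858993459 64424510 3 eng mog cd1q0 cd3q3 pd3 true true true .pnn 0 3 3
    ndB1q0 ndB3q3 pcB3 Cut.none Ext.none :=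
  certB0 (fam := true) (s1 := true) (s2 := true) (a := 0) (b := 3) (c := 3) (cn := .pnn) (n1 := ndB1q0) (n2 := ndB3q3) (pc := pcB3) (cut := Cut.none) (xt := Ext.none) (P1 := 0) (W1 := 536870912) (P2 := 0) (W2 := 1230186008) (P3 := 858993459) (W3 := 64424510) (N0 := 3) (En := eng) (mo := mog) (C1 := cd1q0) (C2 := cd3q3) (C3 := pd3)
    rfl k0_pp_033

noncomputable def f_pp_101 : ℕ → ℕ → ℕ → ℕ → Bool := onCell 536870912 536870912 0 536870912 858993459 64424510
    (rowB 3 eng mog cd1q1 cd3q0 pd1 0 true true true .npn 1 0 1 (qsf 536870912 536870912 0 536870912 1) ndB1q1 ndB3q0 pcB1 Cut.none Ext.none)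

def k0_pp_101 : ∃ t, chk3 f_pp_101 t 1 1 1 = true :=
  ⟨(l 4), by decide +kernel⟩

theorem c_pp_101 : CertB 536870912 536870912 0 536870912 858993459 64424510 3 eng mog cd1q1 cd3q0 pd1 true true true .npn 1 0 1
    ndB1q1 ndB3q0 pcB1 Cut.none Ext.none :=
  certB0 (fam := true) (s1 := true) (s2 := true) (a := 1) (b := 0) (c := 1) (cn := .npn) (n1 := ndB1q1) (n2 := ndB3q0) (pc := pcB1) (cut := Cut.none) (xt := Ext.none) (P1 := 536870912) (W1 := 536870912) (P2 := 0) (W2 := 536870912) (P3 := 858993459) (W3 := 64424510) (N0 := 3) (En := eng) (mo := mog) (C1 := cd1q1) (C2 := cd3q0) (C3 := pd1)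
    rfl k0_pp_101

noncomputable def f_pp_102 : ℕ → ℕ → ℕ → ℕ → Bool := onCell 536870912 536870912 0 536870912 858993459 64424510
    (rowB 3 eng mog cd1q1 cd3q0 pd2 0 true true true .npp 1 0 2 (qsf 536870912 536870912 0 536870912 2) ndB1q1 ndB3q0 pcB2 Cut.none Ext.none)

def k0_pp_102 : ∃ t, chk3 f_pp_102 t 1 1 1 = true :=
  ⟨(l 4), by decide +kernel⟩

theorem c_pp_102 : CertB 536870912 536870912 0 536870912 858993459 64424510 3 eng mog cd1q1 cd3q0 pd2 true true true .npp 1 0 2
    ndB1q1 ndB3q0 pcB2 Cut.none Ext.none :=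
  certB0 (fam := true) (s1 := true) (s2 := true) (a := 1) (b := 0) (c := 2) (cn := .npp) (n1 := ndB1q1) (n2 := ndB3q0) (pc := pcB2) (cut := Cut.none) (xt := Ext.none) (P1 := 536870912) (W1 := 536870912) (P2 := 0) (W2 := 536870912) (P3 := 858993459) (W3 := 64424510) (N0 := 3) (En := eng) (mo := mog) (C1 := cd1q1) (C2 := cd3q0) (C3 := pd2)
    rfl k0_pp_102

noncomputable def f_pp_112 : ℕ → ℕ → ℕ → ℕ → Bool := onCell 536870912 536870912 536870912 536870912 858993459 64424510
    (rowB 3 eng mog cd1q1 cd3q1 pd2 0 true true true .dn 1 1 2 (qsf 536870912 536870912 536870912 536870912 2) ndB1q1 ndB3q1 pcB2 Cut.none Ext.none)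

def k0_pp_112 : ∃ t, chk3 f_pp_112 t 1 1 1 = true :=
  ⟨(l 4), by decide +kernel⟩

theorem c_pp_112 : CertB 536870912 536870912 536870912 536870912 858993459 64424510 3 eng mog cd1q1 cd3q1 pd2 true true true .dn 1 1 2
    ndB1q1 ndB3q1 pcB2 Cut.none Ext.none :=
  certB0 (fam := true) (s1 := true) (s2 := true) (a := 1) (b := 1) (c := 2) (cn := .dn) (n1 := ndB1q1) (n2 := ndB3q1) (pc := pcB2) (cut := Cut.none) (xt := Ext.none) (P1 := 536870912) (W1 := 536870912) (P2 := 536870912) (W2 := 536870912) (P3 := 858993459) (W3 := 64424510) (N0 := 3) (En := eng) (mo := mog) (C1 := cd1q1) (C2 := cd3q1) (C3 := pd2)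
    rfl k0_pp_112

noncomputable def f_pp_113 : ℕ → ℕ → ℕ → ℕ → Bool := onCell 536870912 536870912 536870912 536870912 858993459 64424510
    (rowB 3 eng mog cd1q1 cd3q1 pd3 0 true true true .nn 1 1 3 (qsf 536870912 536870912 536870912 536870912 3) ndB1q1 ndB3q1 pcB3 Cut.none Ext.none)

def k0_pp_113 : ∃ t, chk3 f_pp_113 t 1 1 1 = true :=
  ⟨(l 4), by decide +kernel⟩

theorem c_pp_113 : CertB 536870912 536870912 536870912 536870912 858993459 64424510 3 eng mog cd1q1 cd3q1 pd3 true true true .nn 1 1 3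
    ndB1q1 ndB3q1 pcB3 Cut.none Ext.none :=
  certB0 (fam := true) (s1 := true) (s2 := true) (a := 1) (b := 1) (c := 3) (cn := .nn) (n1 := ndB1q1) (n2 := ndB3q1) (pc := pcB3) (cut := Cut.none) (xt := Ext.none) (P1 := 536870912) (W1 := 536870912) (P2 := 536870912) (W2 := 536870912) (P3 := 858993459) (W3 := 64424510) (N0 := 3) (En := eng) (mo := mog) (C1 := cd1q1) (C2 := cd3q1) (C3 := pd3)
    rfl k0_pp_113

noncomputable def f_pp_123 : ℕ → ℕ → ℕ → ℕ → Bool := onCell 536870912 536870912 1073741824 536870912 858993459 64424510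
    (rowB 3 eng mog cd1q1 cd3q2 pd3 0 true true true .npn 1 2 3 (qsf 536870912 536870912 1073741824 536870912 3) ndB1q1 ndB3q2 pcB3 Cut.none Ext.none)

def k0_pp_123 : ∃ t, chk3 f_pp_123 t 1 1 1 = true :=
  ⟨(l 4), by decide +kernel⟩

theorem c_pp_123 : CertB 536870912 536870912 1073741824 536870912 858993459 64424510 3 eng mog cd1q1 cd3q2 pd3 true true true .npn 1 2 3
    ndB1q1 ndB3q2 pcB3 Cut.none Ext.none :=
  certB0 (fam := true) (s1 := true) (s2 := true) (a := 1) (b := 2) (c := 3) (cn := .npn) (n1 := ndB1q1) (n2 := ndB3q2) (pc := pcB3) (cut := Cut.none) (xt := Ext.none) (P1 := 536870912) (W1 := 536870912) (P2 := 1073741824) (W2 := 536870912) (P3 := 858993459) (W3 := 64424510) (N0 := 3) (En := eng) (mo := mog) (C1 := cd1q1) (C2 := cd3q2) (C3 := pd3)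
    rfl k0_pp_123

noncomputable def f_pp_133 : ℕ → ℕ → ℕ → ℕ → Bool := onCell 536870912 536870912 0 1230186008 858993459 64424510
    (rowB 3 eng mog cd1q1 cd3q3 pd3 0 true true true .dn 1 3 3 (qsf 536870912 536870912 0 1230186008 3) ndB1q1 ndB3q3 pcB3 Cut.none Ext.none)

def k0_pp_133 : ∃ t, chk3 f_pp_133 t 1 1 1 = true :=
  ⟨(l 4), by decide +kernel⟩

theorem c_pp_133 : CertB 536870912 536870912 0 1230186008 858993459 64424510 3 eng mog cd1q1 cd3q3 pd3 true true true .dn 1 3 3
    ndB1q1 ndB3q3 pcB3 Cut.none Ext.none :=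
  certB0 (fam := true) (s1 := true) (s2 := true) (a := 1) (b := 3) (c := 3) (cn := .dn) (n1 := ndB1q1) (n2 := ndB3q3) (pc := pcB3) (cut := Cut.none) (xt := Ext.none) (P1 := 536870912) (W1 := 536870912) (P2 := 0) (W2 := 1230186008) (P3 := 858993459) (W3 := 64424510) (N0 := 3) (En := eng) (mo := mog) (C1 := cd1q1) (C2 := cd3q3) (C3 := pd3)
    rfl k0_pp_133

noncomputable def f_pp_202_a : ℕ → ℕ → ℕ → ℕ → Bool := onCell 0 536870912 0 536870912 858993459 64424510
    (rowB 3 eng mog cd1q2a cd3q0 pd2 0 true true true .pp 2 0 2 (qsf 0 536870912 0 536870912 2) ndB1q2a ndB3q0 pcB2 Cut.none Ext.none)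

def k0_pp_202_a : ∃ t, chk3 f_pp_202_a t 1 1 1 = true :=
  ⟨(l 4), by decide +kernel⟩

theorem c_pp_202_a : CertB 0 536870912 0 536870912 858993459 64424510 3 eng mog cd1q2a cd3q0 pd2 true true true .pp 2 0 2
    ndB1q2a ndB3q0 pcB2 Cut.none Ext.none :=
  certB0 (fam := true) (s1 := true) (s2 := true) (a := 2) (b := 0) (c := 2) (cn := .pp) (n1 := ndB1q2a) (n2 := ndB3q0) (pc := pcB2) (cut := Cut.none) (xt := Ext.none) (P1 := 0) (W1 := 536870912) (P2 := 0) (W2 := 536870912) (P3 := 858993459) (W3 := 64424510) (N0 := 3) (En := eng) (mo := mog) (C1 := cd1q2a) (C2 := cd3q0) (C3 := pd2)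
    rfl k0_pp_202_a

noncomputable def f_pp_202_b : ℕ → ℕ → ℕ → ℕ → Bool := onCell 1239849684 370763052 0 536870912 858993459 64424510
    (rowB 3 eng mog cd1q2b cd3q0 pd2 0 true true true .pp 2 0 2 (qsf 1239849684 370763052 0 536870912 2) ndB1q2b ndB3q0 pcB2 Cut.none Ext.none)

def k0_pp_202_b : ∃ t, chk3 f_pp_202_b t 1 1 1 = true :=
  ⟨(l 4), by decide +kernel⟩

theorem c_pp_202_b : CertB 1239849684 370763052 0 536870912 858993459 64424510 3 eng mog cd1q2b cd3q0 pd2 true true true .pp 2 0 2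
    ndB1q2b ndB3q0 pcB2 Cut.none Ext.none :=
  certB0 (fam := true) (s1 := true) (s2 := true) (a := 2) (b := 0) (c := 2) (cn := .pp) (n1 := ndB1q2b) (n2 := ndB3q0) (pc := pcB2) (cut := Cut.none) (xt := Ext.none) (P1 := 1239849684) (W1 := 370763052) (P2 := 0) (W2 := 536870912) (P3 := 858993459) (W3 := 64424510) (N0 := 3) (En := eng) (mo := mog) (C1 := cd1q2b) (C2 := cd3q0) (C3 := pd2)
    rfl k0_pp_202_b

noncomputable def f_pp_203_a : ℕ → ℕ → ℕ → ℕ → Bool := onCell 0 536870912 0 536870912 858993459 64424510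
    (rowB 3 eng mog cd1q2a cd3q0 pd3 0 true true true .up 2 0 3 (qsf 0 536870912 0 536870912 3) ndB1q2a ndB3q0 pcB3 Cut.none Ext.none)

def k0_pp_203_a : ∃ t, chk3 f_pp_203_a t 1 1 1 = true :=
  ⟨(l 4), by decide +kernel⟩

theorem c_pp_203_a : CertB 0 536870912 0 536870912 858993459 64424510 3 eng mog cd1q2a cd3q0 pd3 true true true .up 2 0 3
    ndB1q2a ndB3q0 pcB3 Cut.none Ext.none :=
  certB0 (fam := true) (s1 := true) (s2 := true) (a := 2) (b := 0) (c := 3) (cn := .up) (n1 := ndB1q2a) (n2 := ndB3q0) (pc := pcB3) (cut := Cut.none) (xt := Ext.none) (P1 := 0) (W1 := 536870912) (P2 := 0) (W2 := 536870912) (P3 := 858993459) (W3 := 64424510) (N0 := 3) (En := eng) (mo := mog) (C1 := cd1q2a) (C2 := cd3q0) (C3 := pd3)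
    rfl k0_pp_203_a

noncomputable def f_pp_203_b : ℕ → ℕ → ℕ → ℕ → Bool := onCell 1239849684 370763052 0 536870912 858993459 64424510
    (rowB 3 eng mog cd1q2b cd3q0 pd3 0 true true true .up 2 0 3 (qsf 1239849684 370763052 0 536870912 3) ndB1q2b ndB3q0 pcB3 Cut.none Ext.none)

def k0_pp_203_b : ∃ t, chk3 f_pp_203_b t 1 1 1 = true :=
  ⟨(l 4), by decide +kernel⟩

theorem c_pp_203_b : CertB 1239849684 370763052 0 536870912 858993459 64424510 3 eng mog cd1q2b cd3q0 pd3 true true true .up 2 0 3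
    ndB1q2b ndB3q0 pcB3 Cut.none Ext.none :=
  certB0 (fam := true) (s1 := true) (s2 := true) (a := 2) (b := 0) (c := 3) (cn := .up) (n1 := ndB1q2b) (n2 := ndB3q0) (pc := pcB3) (cut := Cut.none) (xt := Ext.none) (P1 := 1239849684) (W1 := 370763052) (P2 := 0) (W2 := 536870912) (P3 := 858993459) (W3 := 64424510) (N0 := 3) (En := eng) (mo := mog) (C1 := cd1q2b) (C2 := cd3q0) (C3 := pd3)
    rfl k0_pp_203_b

noncomputable def f_pp_213_a : ℕ → ℕ → ℕ → ℕ → Bool := onCell 0 536870912 536870912 536870912 858993459 64424510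
    (rowB 3 eng mog cd1q2a cd3q1 pd3 0 true true true .pnn 2 1 3 (qsf 0 536870912 536870912 536870912 3) ndB1q2a ndB3q1 pcB3 Cut.none Ext.none)

def k0_pp_213_a : ∃ t, chk3 f_pp_213_a t 1 1 1 = true :=
  ⟨(l 4), by decide +kernel⟩

theorem c_pp_213_a : CertB 0 536870912 536870912 536870912 858993459 64424510 3 eng mog cd1q2a cd3q1 pd3 true true true .pnn 2 1 3
    ndB1q2a ndB3q1 pcB3 Cut.none Ext.none :=
  certB0 (fam := true) (s1 := true) (s2 := true) (a := 2) (b := 1) (c := 3) (cn := .pnn) (n1 := ndB1q2a) (n2 := ndB3q1) (pc := pcB3) (cut := Cut.none) (xt := Ext.none) (P1 := 0) (W1 := 536870912) (P2 := 536870912) (W2 := 536870912) (P3 := 858993459) (W3 := 64424510) (N0 := 3) (En := eng) (mo := mog) (C1 := cd1q2a) (C2 := cd3q1) (C3 := pd3)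
    rfl k0_pp_213_a

noncomputable def f_pp_213_b : ℕ → ℕ → ℕ → ℕ → Bool := onCell 1239849684 370763052 536870912 536870912 858993459 64424510
    (rowB 3 eng mog cd1q2b cd3q1 pd3 0 true true true .pnn 2 1 3 (qsf 1239849684 370763052 536870912 536870912 3) ndB1q2b ndB3q1 pcB3 Cut.none Ext.none)

def k0_pp_213_b : ∃ t, chk3 f_pp_213_b t 1 1 1 = true :=
  ⟨(l 4), by decide +kernel⟩

theorem c_pp_213_b : CertB 1239849684 370763052 536870912 536870912 858993459 64424510 3 eng mog cd1q2b cd3q1 pd3 true true true .pnn 2 1 3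
    ndB1q2b ndB3q1 pcB3 Cut.none Ext.none :=
  certB0 (fam := true) (s1 := true) (s2 := true) (a := 2) (b := 1) (c := 3) (cn := .pnn) (n1 := ndB1q2b) (n2 := ndB3q1) (pc := pcB3) (cut := Cut.none) (xt := Ext.none) (P1 := 1239849684) (W1 := 370763052) (P2 := 536870912) (W2 := 536870912) (P3 := 858993459) (W3 := 64424510) (N0 := 3) (En := eng) (mo := mog) (C1 := cd1q2b) (C2 := cd3q1) (C3 := pd3)
    rfl k0_pp_213_b

noncomputable def f_pp_303 : ℕ → ℕ → ℕ → ℕ → Bool := onCell 1610612736 536870912 0 536870912 858993459 64424510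
    (rowB 3 eng mog cd1q3 cd3q0 pd3 0 true true true .npn 3 0 3 (qsf 1610612736 536870912 0 536870912 3) ndB1q3 ndB3q0 pcB3 Cut.none Ext.none)

def k0_pp_303 : ∃ t, chk3 f_pp_303 t 1 1 1 = true :=
  ⟨(l 4), by decide +kernel⟩

theorem c_pp_303 : CertB 1610612736 536870912 0 536870912 858993459 64424510 3 eng mog cd1q3 cd3q0 pd3 true true true .npn 3 0 3
    ndB1q3 ndB3q0 pcB3 Cut.none Ext.none :=
  certB0 (fam := true) (s1 := true) (s2 := true) (a := 3) (b := 0) (c := 3) (cn := .npn) (n1 := ndB1q3) (n2 := ndB3q0) (pc := pcB3) (cut := Cut.none) (xt := Ext.none) (P1 := 1610612736) (W1 := 536870912) (P2 := 0) (W2 := 536870912) (P3 := 858993459) (W3 := 64424510) (N0 := 3) (En := eng) (mo := mog) (C1 := cd1q3) (C2 := cd3q0) (C3 := pd3)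
    rfl k0_pp_303

noncomputable def f_pp_313 : ℕ → ℕ → ℕ → ℕ → Bool := onCell 1610612736 536870912 536870912 536870912 858993459 64424510
    (rowB 3 eng mog cd1q3 cd3q1 pd3 0 true true true .dn 3 1 3 (qsf 1610612736 536870912 536870912 536870912 3) ndB1q3 ndB3q1 pcB3 Cut.none Ext.none)

def k0_pp_313 : ∃ t, chk3 f_pp_313 t 1 1 1 = true :=
  ⟨(l 4), by decide +kernel⟩

theorem c_pp_313 : CertB 1610612736 536870912 536870912 536870912 858993459 64424510 3 eng mog cd1q3 cd3q1 pd3 true true true .dn 3 1 3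
    ndB1q3 ndB3q1 pcB3 Cut.none Ext.none :=
  certB0 (fam := true) (s1 := true) (s2 := true) (a := 3) (b := 1) (c := 3) (cn := .dn) (n1 := ndB1q3) (n2 := ndB3q1) (pc := pcB3) (cut := Cut.none) (xt := Ext.none) (P1 := 1610612736) (W1 := 536870912) (P2 := 536870912) (W2 := 536870912) (P3 := 858993459) (W3 := 64424510) (N0 := 3) (En := eng) (mo := mog) (C1 := cd1q3) (C2 := cd3q1) (C3 := pd3)
    rfl k0_pp_313

noncomputable def f_pm_001 : ℕ → ℕ → ℕ → ℕ → Bool := onCell 0 536870912 0 536870912 858993459 64424510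
    (rowB 3 eng mog cd1q0 cd3q0 pd1 0 true true false .up 0 0 1 (qsf 0 536870912 0 536870912 1) ndB1q0 ndB3q0 pcB1 Cut.none Ext.none)

def k0_pm_001 : ∃ t, chk3 f_pm_001 t 1 1 1 = true :=
  ⟨(a (l 3) (b (l 3) (l 3))), by decide +kernel⟩

theorem c_pm_001 : CertB 0 536870912 0 536870912 858993459 64424510 3 eng mog cd1q0 cd3q0 pd1 true true false .up 0 0 1
    ndB1q0 ndB3q0 pcB1 Cut.none Ext.none :=
  certB0 (fam := true) (s1 := true) (s2 := false) (a := 0) (b := 0) (c := 1) (cn := .up) (n1 := ndB1q0) (n2 := ndB3q0) (pc := pcB1) (cut := Cut.none) (xt := Ext.none) (P1 := 0) (W1 := 536870912) (P2 := 0) (W2 := 536870912) (P3 := 858993459) (W3 := 64424510) (N0 := 3) (En := eng) (mo := mog) (C1 := cd1q0) (C2 := cd3q0) (C3 := pd1)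
    rfl k0_pm_001

noncomputable def cut_pm_011 : Cut := Cut.of [[⟨0, 0, 0, 67108864⟩, ⟨1, 1, 0, 67108864⟩, ⟨2, 1, 0, 67108864⟩]]

noncomputable def f_pm_011 : ℕ → ℕ → ℕ → ℕ → Bool := onCell 0 536870912 536870912 536870912 858993459 64424510
    (rowB 3 eng mog cd1q0 cd3q1 pd1 1 true true false .pnn 0 1 1 (qsf 0 536870912 536870912 536870912 1) ndB1q0 ndB3q1 pcB1 cut_pm_011 Ext.none)

def k0_pm_011 : ∃ t, chk3 f_pm_011 t 1 1 1 = true :=
  ⟨(b (l 3) (b (l 3) (a (b (l 3) (a (b (l 3) (a (a (b (l 3) (l 6)) (l 3)) (l 3))) (l 3))) (l 3)))), by decide +kernel⟩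

theorem c_pm_011 : CertB 0 536870912 536870912 536870912 858993459 64424510 3 eng mog cd1q0 cd3q1 pd1 true true false .pnn 0 1 1
    ndB1q0 ndB3q1 pcB1 cut_pm_011 Ext.none :=
  certB1 (fam := true) (s1 := true) (s2 := false) (a := 0) (b := 1) (c := 1) (cn := .pnn) (n1 := ndB1q0) (n2 := ndB3q1) (pc := pcB1) (cut := cut_pm_011) (xt := Ext.none) (P1 := 0) (W1 := 536870912) (P2 := 536870912) (W2 := 536870912) (P3 := 858993459) (W3 := 64424510) (N0 := 3) (En := eng) (mo := mog) (C1 := cd1q0) (C2 := cd3q1) (C3 := pd1)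
    rfl (fun _ => rfl) k0_pm_011

noncomputable def cut_pm_012 : Cut := Cut.of [[⟨0, 0, 0, 67108864⟩, ⟨1, 1, 0, 67108864⟩, ⟨2, 1, 0, 67108864⟩]]

noncomputable def f_pm_012 : ℕ → ℕ → ℕ → ℕ → Bool := onCell 1073741824 536870912 536870912 536870912 858993459 64424510
    (rowB 3 eng mog cd1q0 cd3q1 pd2 2 true true false .pnp 0 1 2 (qsf 0 536870912 536870912 536870912 2) ndB1q0 ndB3q1 pcB2 cut_pm_012 Ext.none)

def k0_pm_012 : ∃ t, chk3 f_pm_012 t 8 1 1 = true :=
  ⟨(b (a (b (l 3) (l 3)) (b (a (l 16301952) (l 16273216)) (a (l 16425008) (l 16356608)))) (b (a (a (l 3) (a (l 3) (b (l 16450192) (l 16399368)))) (a (b (l 16277640) (a (l 16447592) (l 16390016))) (b (l 16341760) (b (l 16354424) (l 16362704))))) (a (b (a (a (l 3) (l 3)) (b (a (l 16484616) (l 16508056)) (a (a (l 16542456) (l 16562800)) (b (l 16521592) (l 16534144))))) (a (b (a (l 3) (a (b (l 3) (l 6)) (b (l 483888058087) (a (l 6) (l 16640904))))) (l 6)) (b (a (b (a (l 16607856) (l 16583280)) (a (l 16621864)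 (l 16596704))) (b (l 16546904) (c (l 16572408) (l 16547328)))) (b (a (l 6) (c (l 16591472) (l 16566944))) (l 6))))) (b (a (b (a (l 16467184) (l 16427464)) (a (l 16488048) (l 16419128))) (b (l 16370936) (b (l 16377104) (l 16381832)))) (a (b (a (c (l 16520984) (l 16491576)) (b (l 16455248) (l 16466920))) (b (a (c (l 16519920) (l 16489624)) (c (l 16496056) (l 16460384))) (a (l 6) (a (l 6) (b (l 16475752) (l 6)))))) (b (a (b (l 16410960) (l 16421400)) (b (l 16367512) (l 16376544))) (b (a (c (l 16451736) (l 16411040)) (l 16364952)) (a (c (l 16504784) (l 16479776)) (c (l 16418248) (l 16371256)))))))))), by decide +kernel⟩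

def k1_pm_012 : ∃ t, chk3 f_pm_012 t 9 1 1 = true :=
  ⟨(b (a (b (l 16231912) (b (l 16222864) (l 16249312))) (b (l 16181200) (c (l 16155072) (l 16148840)))) (b (a (b (c (l 16267928) (l 16238456)) (a (l 16269744) (l 16245336))) (b (a (l 16170464) (l 16118096)) (c (a (l 16182024) (l 16122360)) (l 16086584)))) (a (b (a (b (l 16296456) (l 16281816)) (b (l 16223256) (l 16222392))) (b (a (c (b (l 16326056) (l 16332008)) (l 16407840)) (c (l 16247160) (l 16195072))) (a (a (b (l 16339384) (a (l 16401768) (l 16335544))) (b (l 16292600) (l 16341536))) (b (c (l 16251264) (l 16196128)) (c (l 16257112) (l 16200136)))))) (b (a (b (l 16237080) (a (l 16166208) (l 16129792))) (b (l 16086216) (l 16076720))) (a (b (a (l 16161864) (l 16123272)) (a (b (l 16159288) (l 16161304)) (b (l 16118280) (l 16222208)))) (b (c (l 16095624) (l 16037200)) (c (b (l 16089744) (l 16086400)) (l 16088440)))))))), by decide +kernel⟩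

def k2_pm_012 : ∃ t, chk3 f_pm_012 t 5 1 1 = true :=
  ⟨(b (a (b (a (a (l 16146400) (l 2)) (l 2)) (a (a (l 16104856) (a (l 16077408) (l 16122504))) (l 16017240))) (b (l 2) (b (l 15960520) (l 15895864)))) (a (b (a (a (b (l 16068168) (l 16042336)) (a (b (l 16032344) (l 16000872)) (b (l 16009576) (l 15974792)))) (b (l 15952872) (l 15908368))) (a (a (b (b (l 16022376) (l 16008864)) (b (l 16079040) (c (l 16010248) (l 15951192)))) (b (a (l 15968552) (a (l 15946000) (l 15931816))) (a (b (l 15943688) (l 15926840)) (b (a (l 15919152) (l 15903808)) (a (l 15900968) (l 15989712)))))) (b (l 16030704) (b (l 15828208) (c (l 15839880) (l 15768576)))))) (b (b (l 15829064) (l 15907536)) (b (a (l 15746152) (l 15638816)) (b (a (l 15699304) (l 15580152)) (a (l 15667816) (l 15540800))))))), by decide +kernel⟩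

def k3_pm_012 : ∃ t, chk3 f_pm_012 t 3 1 1 = true :=
  ⟨(b (a (b (l 2) (a (l 16069480) (l 2))) (l 2)) (a (b (a (b (l 15694304) (l 15595520)) (b (l 15594184) (l 15466264))) (a (b (l 15726064) (b (l 15419504) (l 15620368))) (b (l 15336720) (a (l 15249584) (l 15165096))))) (b (a (b (l 2) (l 15372888)) (l 2)) (a (b (l 15215072) (l 15056144)) (b (l 15130288) (l 14943960)))))), by decide +kernel⟩

theorem s4_pm_012 : ∃ t, chk3 f_pm_012 t 4 1 1 = true := ex3_a k0_pm_012 k1_pm_012

theorem s5_pm_012 : ∃ t, chk3 f_pm_012 t 2 1 1 = true := ex3_a s4_pm_012 k2_pm_012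

theorem s6_pm_012 : ∃ t, chk3 f_pm_012 t 1 1 1 = true := ex3_a s5_pm_012 k3_pm_012

theorem c_pm_012 : CertB 0 536870912 536870912 536870912 858993459 64424510 3 eng mog cd1q0 cd3q1 pd2 true true false .pnp 0 1 2
    ndB1q0 ndB3q1 pcB2 cut_pm_012 Ext.none :=
  certB2 (fam := true) (s1 := true) (s2 := false) (a := 0) (b := 1) (c := 2) (cn := .pnp) (n1 := ndB1q0) (n2 := ndB3q1) (pc := pcB2) (cut := cut_pm_012) (xt := Ext.none) (P1 := 0) (W1 := 536870912) (P2 := 536870912) (W2 := 536870912) (P3 := 858993459) (W3 := 64424510) (N0 := 3) (En := eng) (mo := mog) (C1 := cd1q0) (C2 := cd3q1) (C3 := pd2)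
    rfl (fun _ => rfl) s6_pm_012

noncomputable def f_pm_022 : ℕ → ℕ → ℕ → ℕ → Bool := onCell 0 536870912 1073741824 536870912 858993459 64424510
    (rowB 3 eng mog cd1q0 cd3q2 pd2 1 true true false .pp 0 2 2 (qsf 0 536870912 1073741824 536870912 2) ndB1q0 ndB3q2 pcB2 Cut.none Ext.none)

def k0_pm_022 : ∃ t, chk3 f_pm_022 t 1 2 1 = true :=
  ⟨(b (l 3) (a (b (b (b (l 3) (b (l 3) (a (b (a (l 3) (a (l 3) (c (l 219747224423) (l 16368496)))) (a (a (c (l 16323320) (a (c (l 16229400) (l 16164400)) (l 16227304))) (c (l 16353040) (l 16272080))) (a (c (l 16385336) (l 16330072)) (c (l 16419192) (l 16385488))))) (a (b (a (c (b (l 3) (l 16448568)) (l 16414704)) (l 1)) (a (c (l 16446520) (l 16431696)) (l 388727479031))) (l 1))))) (a (a (c (a (c (l 16333064) (l 16281904)) (c (l 16356520) (l 16318824))) (a (a (c (l 16211936) (b (l 16153632) (l 16135648))) (l 16187840)) (l 16253608))) (c (a (b (l 16377544) (l 16363736)) (b (l 16411536) (l 16397968))) (a (l 16311640) (l 16367080))))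 (a (a (c (l 16411560) (l 16413304)) (b (l 400538459399) (l 16447672))) (c (l 417718617831) (l 452078263799))))) (a (a (a (c (c (l 16282720) (l 16104496)) (b (a (c (l 16177016) (l 16106976)) (l 16172648)) (a (l 15955736) (l 16132456)))) (c (b (l 16306760) (l 16268864)) (b (l 16217576) (l 16177632)))) (a (c (l 16322048) (l 16109592)) (b (l 16354584) (l 16317120)))) (a (c (b (l 16415088) (l 16379312)) (b (l 16398296) (l 16359312))) (b (c (l 16464816) (l 399464797207)) (l 16537992))))) (a (a (b (l 1) (b (l 1) (l 430603014599))) (l 1)) (l 1)))), by decide +kernel⟩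

def k1_pm_022 : ∃ t, chk3 f_pm_022 t 1 3 1 = true :=
  ⟨(a (b (a (c (a (b (b (l 15999240) (l 16117216)) (b (l 16104456) (l 16045496))) (b (l 16044240) (l 16118184))) (a (b (a (b (c (l 16106440) (l 16038440)) (l 15837208)) (c (l 16136248) (l 16083600))) (a (b (l 15786568) (l 15754240)) (l 16011048))) (b (l 16114448) (l 16100408)))) (c (a (b (l 16292072) (l 16145256)) (b (l 16320784) (l 16172184))) (a (b (l 16294784) (l 16198896)) (b (l 16361752) (l 16241904))))) (a (c (b (a (a (l 15806672) (l 15962960)) (l 15988760)) (a (a (l 15744504) (l 15832760)) (l 15865048))) (a (a (b (b (l 15740688) (l 15620400)) (b (l 15582048) (l 15501232))) (b (l 15754912) (l 15785360))) (b (l 15993344) (l 15879528)))) (c (b (a (l 16018016) (l 16044016)) (a (l 15900280) (l 15930048))) (b (l 16131536) (l 16026936))))) (b (a (b (a (c (l 16348264) (l 16340040)) (c (l 16542384) (l 497174616087))) (c (l 16253056) (l 183105796807))) (b (l 1) (c (l 229813648807) (l 497711132279)))) (a (b (c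 (l 16081520) (l 16125744)) (c (l 15969912) (l 16043368))) (c (b (l 379599489447) (l 15933072)) (a (l 15866488) (l 430602017591)))))), by decide +kernel⟩

theorem s2_pm_022 : ∃ t, chk3 f_pm_022 t 1 1 1 = true := ex3_b k0_pm_022 k1_pm_022

theorem c_pm_022 : CertB 0 536870912 1073741824 536870912 858993459 64424510 3 eng mog cd1q0 cd3q2 pd2 true true false .pp 0 2 2
    ndB1q0 ndB3q2 pcB2 Cut.none Ext.none :=
  certB1 (fam := true) (s1 := true) (s2 := false) (a := 0) (b := 2) (c := 2) (cn := .pp) (n1 := ndB1q0) (n2 := ndB3q2) (pc := pcB2) (cut := Cut.none) (xt := Ext.none) (P1 := 0) (W1 := 536870912) (P2 := 1073741824) (W2 := 536870912) (P3 := 858993459) (W3 := 64424510) (N0 := 3) (En := eng) (mo := mog) (C1 := cd1q0) (C2 := cd3q2) (C3 := pd2)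
    rfl (fun _ => rfl) s2_pm_022

noncomputable def f_pm_023 : ℕ → ℕ → ℕ → ℕ → Bool := onCell 1610612736 536870912 1073741824 536870912 858993459 64424510
    (rowB 3 eng mog cd1q0 cd3q2 pd3 2 true true false .up 0 2 3 (qsf 0 536870912 1073741824 536870912 3) ndB1q0 ndB3q2 pcB3 Cut.none Ext.none)

def k0_pm_023 : ∃ t, chk3 f_pm_023 t 1 1 1 = true :=
  ⟨(a (b (a (b (b (l 15911488) (a (l 15908320) (l 15854584))) (c (b (l 15841944) (l 15813800)) (a (l 15922584) (l 15867576)))) (b (b (l 2) (l 226121917399)) (a (l 15802752) (l 15796944)))) (a (b (c (a (l 15799968) (l 15740800)) (a (l 15903120) (l 15852056))) (a (b (c (l 15746208) (l 15851048)) (c (b (l 15714744) (l 15690160)) (a (b (l 15771136) (l 15704816)) (l 15744752)))) (b (l 15743184) (a (l 15705480) (l 15687064))))) (b (c (l 15699504) (l 15815952)) (c (a (l 15635424) (l 15619688)) (a (l 15751904) (l 15737328)))))) (b (a (a (b (l 2) (l 15812640)) (l 2)) (l 2)) (a (a (b (l 15753952) (a (l 15666736) (l 15654168)))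 (b (a (l 15745216) (l 15741560)) (a (l 15628496) (l 15683640)))) (b (a (a (a (l 15780968) (l 2)) (l 2)) (l 2)) (a (a (a (l 15740416) (l 15775632)) (b (l 15829672) (l 15811688))) (a (a (l 15862688) (l 15887496)) (a (l 15910776) (l 4)))))))), by decide +kernel⟩

theorem c_pm_023 : CertB 0 536870912 1073741824 536870912 858993459 64424510 3 eng mog cd1q0 cd3q2 pd3 true true false .up 0 2 3
    ndB1q0 ndB3q2 pcB3 Cut.none Ext.none :=
  certB2 (fam := true) (s1 := true) (s2 := false) (a := 0) (b := 2) (c := 3) (cn := .up) (n1 := ndB1q0) (n2 := ndB3q2) (pc := pcB3) (cut := Cut.none) (xt := Ext.none) (P1 := 0) (W1 := 536870912) (P2 := 1073741824) (W2 := 536870912) (P3 := 858993459) (W3 := 64424510) (N0 := 3) (En := eng) (mo := mog) (C1 := cd1q0) (C2 := cd3q2) (C3 := pd3)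
    rfl (fun _ => rfl) k0_pm_023

noncomputable def f_pm_033 : ℕ → ℕ → ℕ → ℕ → Bool := onCell 1610612736 536870912 0 1230186008 858993459 64424510
    (rowB 3 eng mog cd1q0 cd3q3 pd3 2 true true false .pnn 0 3 3 (qsf 0 536870912 0 1230186008 3) ndB1q0 ndB3q3 pcB3 Cut.none Ext.none)

def k0_pm_033 : ∃ t, chk3 f_pm_033 t 2 1 1 = true :=
  ⟨(a (b (l 1) (b (l 1) (b (l 1) (c (b (a (l 1) (a (b (l 1) (l 633538607031)) (b (l 621190517431) (l 543881242135)))) (a (a (b (l 1) (b (l 659845123335) (a (l 613137392215) (l 15453848)))) (b (b (l 651792072999) (l 648034263175)) (b (l 566429746263) (l 15531592)))) (b (a (b (l 15485064) (l 15533128)) (l 15611896)) (l 15662792)))) (b (a (l 1) (a (b (l 1) (a (l 595420420599) (l 528848682567))) (b (l 580924940663) (l 519185206887)))) (a (a (b (l 1) (c (l 569650769687) (b (l 588978007783) (l 527237965639)))) (b (b (l 599715405543) (l 599178800887)) (b (l 533143785527) (l 15466072)))) (b (a (b (l 15389384) (l 15444376)) (l 15511056))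 (a (l 15530616) (l 15622256))))))))) (b (l 1) (b (b (l 1) (a (l 1) (a (l 1) (b (l 1) (b (l 1) (l 663603738983)))))) (b (a (b (a (l 1) (b (l 1) (a (l 1) (l 616895848855)))) (a (b (l 1) (c (l 619043284791) (l 584146342087))) (b (c (l 603474070135) (l 575556436423)) (c (l 15552008) (l 15406376))))) (a (b (a (c (l 505226459783) (l 494489031191)) (b (l 661993124983) (l 489120774311))) (b (a (l 15495112) (l 15527992)) (l 15579752))) (b (c (l 465498347943) (l 457445225399)) (b (l 15610056) (l 15686632))))) (a (a (b (b (c (l 15530840) (l 15400552)) (l 15554976)) (b (l 15655328) (l 15757736))) (b (b (l 15561968) (l 15654864)) (l 15797808))) (b (a (b (l 15664168) (l 15751728)) (l 15804128)) (b (l 15880024) (l 15966152)))))))), by decide +kernel⟩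

def k1_pm_033 : ∃ t, chk3 f_pm_033 t 3 1 1 = true :=
  ⟨(a (b (l 1) (b (a (b (l 1) (a (b (a (l 1) (l 665751004007)) (a (l 445634028247) (l 15520984))) (b (a (l 445634031127) (l 15524960)) (a (l 15575144) (l 15630496))))) (b (a (b (l 1) (l 15540664)) (b (l 15569816) (l 15650792))) (a (b (l 15622144) (l 15723552)) (l 15803064)))) (a (b (a (b (c (l 15714664) (l 15529768)) (c (l 15843776) (l 15676840))) (b (l 15727288) (l 15859560))) (a (b (l 15897608) (l 16044040)) (b (l 15989904) (l 16125488)))) (b (a (b (l 15837192) (l 15957336)) (b (l 15954272) (l 16056912))) (a (b (l 16082488) (l 16208952)) (b (l 16173936) (l 16294680))))))) (b (b (l 4) (b (l 4) (l 4))) (b (a (b (a (a (l 15698112) (l 4)) (l 4)) (a (b (l 15867784) (l 15972512)) (l 15966824))) (l 4)) (a (a (b (l 16132024) (b (l 16265144) (l 16374992))) (b (l 16012120) (b (l 16351528) (l 16434928)))) (b (a (a (l 16245688) (l 4)) (l 4)) (a (a (l 16449984) (l 16491384)) (l 4))))))), by decide +kernel⟩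

theorem s2_pm_033 : ∃ t, chk3 f_pm_033 t 1 1 1 = true := ex3_a k0_pm_033 k1_pm_033

theorem c_pm_033 : CertB 0 536870912 0 1230186008 858993459 64424510 3 eng mog cd1q0 cd3q3 pd3 true true false .pnn 0 3 3
    ndB1q0 ndB3q3 pcB3 Cut.none Ext.none :=
  certB2 (fam := true) (s1 := true) (s2 := false) (a := 0) (b := 3) (c := 3) (cn := .pnn) (n1 := ndB1q0) (n2 := ndB3q3) (pc := pcB3) (cut := Cut.none) (xt := Ext.none) (P1 := 0) (W1 := 536870912) (P2 := 0) (W2 := 1230186008) (P3 := 858993459) (W3 := 64424510) (N0 := 3) (En := eng) (mo := mog) (C1 := cd1q0) (C2 := cd3q3) (C3 := pd3)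
    rfl (fun _ => rfl) s2_pm_033

noncomputable def f_pm_101 : ℕ → ℕ → ℕ → ℕ → Bool := onCell 536870912 536870912 0 536870912 858993459 64424510
    (rowB 3 eng mog cd1q1 cd3q0 pd1 2 true true false .npn 1 0 1 (qsf 536870912 536870912 0 536870912 1) ndB1q1 ndB3q0 pcB1 Cut.none Ext.none)

def k0_pm_101 : ∃ t, chk3 f_pm_101 t 1 1 1 = true :=
  ⟨(a (l 3) (a (l 3) (b (l 3) (l 3)))), by decide +kernel⟩

theorem c_pm_101 : CertB 536870912 536870912 0 536870912 858993459 64424510 3 eng mog cd1q1 cd3q0 pd1 true true false .npn 1 0 1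
    ndB1q1 ndB3q0 pcB1 Cut.none Ext.none :=
  certB2 (fam := true) (s1 := true) (s2 := false) (a := 1) (b := 0) (c := 1) (cn := .npn) (n1 := ndB1q1) (n2 := ndB3q0) (pc := pcB1) (cut := Cut.none) (xt := Ext.none) (P1 := 536870912) (W1 := 536870912) (P2 := 0) (W2 := 536870912) (P3 := 858993459) (W3 := 64424510) (N0 := 3) (En := eng) (mo := mog) (C1 := cd1q1) (C2 := cd3q0) (C3 := pd1)
    rfl (fun _ => rfl) k0_pm_101

noncomputable def f_pm_102 : ℕ → ℕ → ℕ → ℕ → Bool := onCell 536870912 536870912 1073741824 536870912 858993459 64424510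
    (rowB 3 eng mog cd1q1 cd3q0 pd2 1 true true false .npp 1 0 2 (qsf 536870912 536870912 0 536870912 2) ndB1q1 ndB3q0 pcB2 Cut.none Ext.none)

def k0_pm_102 : ∃ t, chk3 f_pm_102 t 1 8 1 = true :=
  ⟨(b (b (a (l 3) (a (l 3) (a (l 3) (a (l 3) (c (l 660517936391) (a (l 3) (l 16041800))))))) (a (a (l 3) (a (l 3) (a (l 3) (c (l 15924880) (l 16064960))))) (a (a (c (c (l 15913664) (l 15958592)) (l 16032456)) (c (c (l 15965264) (l 15977984)) (l 15982864))) (a (c (a (l 16017816) (l 16058784)) (a (l 15997264) (l 15996800))) (a (c (l 16105968) (l 111299016327)) (c (a (l 16139104) (l 16154736)) (a (l 15995408) (l 15989120)))))))) (a (a (c (a (c (b (l 15955360) (l 15952992)) (b (l 16087176) (l 16084576))) (b (c (l 15902544) (l 16020424)) (c (l 15895232) (l 16013168)))) (a (c (l 16220144) (l 16245304)) (c (l 16138904) (l 16229992)))) (c (a (b (c (l 15874736) (l 15972968)) (c (l 15862608) (l 15961264))) (b (c (l 15872208) (l 15946440)) (c (l 15855240) (l 15929560)))) (a (c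 (l 16070936) (l 16164056)) (b (l 16044672) (l 16051320))))) (a (c (a (b (c (l 15895008) (l 15940208)) (l 16000232)) (b (a (l 15939392) (l 15962672)) (l 15923960))) (a (b (l 16017400) (l 15998576)) (b (l 15963200) (l 15980056)))) (a (c (b (a (l 15992568) (l 16028120)) (l 15976408)) (b (a (l 15968864) (l 15961696)) (l 15973008))) (a (c (l 16045408) (l 15933496)) (c (b (l 16099200) (l 16051056)) (a (l 15922864) (l 15913792)))))))), by decide +kernel⟩

def k1_pm_102 : ∃ t, chk3 f_pm_102 t 1 9 1 = true :=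
  ⟨(a (a (a (a (l 2) (b (c (l 15996800) (l 16252384)) (l 2))) (c (b (c (l 15887872) (l 16004416)) (c (l 15882496) (l 15996904))) (b (l 16183408) (l 16173296)))) (c (b (a (c (l 15848096) (l 15945264)) (c (l 15833824) (l 15906544))) (a (c (l 15832960) (l 15927800)) (c (l 15809016) (l 15879256)))) (a (b (l 16100096) (l 16080296)) (b (l 16027728) (l 15997880))))) (a (c (b (a (c (l 15845360) (l 15889128)) (a (l 15879752) (l 15896008))) (a (c (l 15810776) (l 15851848)) (l 16092368))) (a (b (l 15967240) (l 15926640)) (b (a (l 15929632) (l 15908056)) (a (l 15880264) (l 15852472))))) (a (b (c (a (l 15917248) (l 15941880)) (a (l 15888560) (l 15870112))) (c (l 16058992) (l 16065976))) (b (c (a (l 15967008) (l 15988568)) (a (l 15851216) (l 15830048))) (a (c (l 15897712) (l 15777120)) (c (l 15913848) (l 15751568))))))), by decide +kernel⟩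

def k2_pm_102 : ∃ t, chk3 f_pm_102 t 1 5 1 = true :=
  ⟨(a (b (b (a (a (l 2) (b (c (l 15938336) (l 16165128)) (l 2))) (c (b (a (l 15871904) (l 15828736)) (a (c (l 15823616) (l 15912632)) (l 16007688))) (a (b (l 16063936) (l 16054224)) (b (l 15973088) (l 15957664))))) (a (l 2) (c (a (l 15862848) (l 15806824)) (a (l 16048656) (l 15944496))))) (a (l 2) (c (a (l 15867464) (l 15795952)) (a (l 16051712) (l 15933296))))) (a (b (c (b (b (a (l 15809104) (l 15812208)) (a (l 15878392) (l 15792920))) (a (l 15774648) (l 15765424))) (b (a (b (l 15893056) (l 15871760)) (b (l 15823472) (l 15796168))) (a (l 15850784) (l 15767320)))) (a (c (l 15748360) (l 15825136)) (c (l 15723912) (l 15727472)))) (b (b (c (a (b (l 15834080) (l 15810296)) (b (l 15863608) (b (l 15843856) (l 15830040)))) (a (b (l 15762184) (l 15728952)) (b (l 15704504) (l 15729040)))) (a (c (l 15775440) (l 15692656)) (a (l 15716384) (l 15705664)))) (a (c (l 15719408) (l 15639848)) (c (l 15727176) (l 15561272)))))),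 by decide +kernel⟩

def k3_pm_102 : ∃ t, chk3 f_pm_102 t 1 3 1 = true :=
  ⟨(a (a (l 2) (a (l 2) (a (l 2) (b (b (l 15843400) (l 2)) (l 2))))) (b (a (a (c (b (l 15738112) (l 15757752)) (b (l 15814432) (l 15831640))) (b (c (l 15694400) (l 15699400)) (c (l 15695928) (l 15700512)))) (b (a (c (l 15672168) (l 15596328)) (a (l 15596600) (l 15760984))) (a (c (l 15655072) (l 15580616)) (c (l 15619608) (l 15457696))))) (a (a (l 2) (b (c (l 15727184) (l 15728008)) (l 2))) (a (b (c (l 15661816) (l 15580536)) (l 15639184)) (b (c (l 15592352) (l 15415288)) (l 15505256)))))), by decide +kernel⟩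

theorem s4_pm_102 : ∃ t, chk3 f_pm_102 t 1 4 1 = true := ex3_b k0_pm_102 k1_pm_102

theorem s5_pm_102 : ∃ t, chk3 f_pm_102 t 1 2 1 = true := ex3_b s4_pm_102 k2_pm_102

theorem s6_pm_102 : ∃ t, chk3 f_pm_102 t 1 1 1 = true := ex3_b s5_pm_102 k3_pm_102

theorem c_pm_102 : CertB 536870912 536870912 0 536870912 858993459 64424510 3 eng mog cd1q1 cd3q0 pd2 true true false .npp 1 0 2
    ndB1q1 ndB3q0 pcB2 Cut.none Ext.none :=
  certB1 (fam := true) (s1 := true) (s2 := false) (a := 1) (b := 0) (c := 2) (cn := .npp) (n1 := ndB1q1) (n2 := ndB3q0) (pc := pcB2) (cut := Cut.none) (xt := Ext.none) (P1 := 536870912) (W1 := 536870912) (P2 := 0) (W2 := 536870912) (P3 := 858993459) (W3 := 64424510) (N0 := 3) (En := eng) (mo := mog) (C1 := cd1q1) (C2 := cd3q0) (C3 := pd2)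
    rfl (fun _ => rfl) s6_pm_102

noncomputable def f_pm_112 : ℕ → ℕ → ℕ → ℕ → Bool := onCell 536870912 536870912 1073741824 536870912 858993459 64424510
    (rowB 3 eng mog cd1q1 cd3q1 pd2 1 true true false .dn 1 1 2 (qsf 536870912 536870912 536870912 536870912 2) ndB1q1 ndB3q1 pcB2 Cut.none Ext.none)

def k0_pm_112 : ∃ t, chk3 f_pm_112 t 2 1 1 = true :=
  ⟨(b (b (b (a (b (l 3) (a (c (c (b (l 15917320) (l 15897328)) (l 16085560)) (c (l 16259904) (l 16202648))) (a (b (l 1) (c (l 15978368) (l 16256328))) (l 1)))) (l 1)) (b (a (c (c (a (l 15864992) (l 15869680)) (a (l 16041208) (l 16034344))) (a (l 16297920) (l 16262616))) (l 1)) (a (c (c (a (l 15815808) (l 15834200)) (l 15765448)) (c (l 16169416) (l 16239864))) (a (c (l 374767734855) (l 16196496)) (l 1))))) (c (b (a (a (b (b (l 15857768) (c (l 15745832) (l 15911008))) (l 15777488)) (b (b (l 15882552) (l 15837312)) (l 15819232))) (a (b (b (l 15883824) (c (l 15798344) (l 15937416))) (l 15837552)) (b (l 1) (l 15832408))))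 (a (a (c (l 15598280) (l 15746648)) (l 15733080)) (a (l 15772320) (l 15787800)))) (b (a (b (c (a (l 16103120) (l 16113272)) (l 16231400)) (a (l 16117176) (l 16135360))) (b (a (l 16036024) (l 1)) (l 15917240))) (a (a (l 15993472) (l 16039776)) (a (l 16053536) (l 16033360)))))) (a (b (c (a (c (l 15601312) (l 15461528)) (b (l 15600408) (l 15451048))) (a (c (l 15843728) (l 15760440)) (b (l 15877936) (l 15682440)))) (c (a (b (l 15143280) (l 14943656)) (b (l 15288632) (l 15116768))) (a (b (l 15453328) (l 15023232)) (b (l 15457400) (l 15206208))))) (b (c (a (b (l 15667776) (l 15546968)) (l 15856408)) (a (l 15747624) (l 15886216))) (c (a (l 15596360) (l 15463976)) (a (b (l 15580552) (l 15366560)) (l 15633608)))))), by decide +kernel⟩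

def k1_pm_112 : ∃ t, chk3 f_pm_112 t 3 1 1 = true :=
  ⟨(b (b (l 1) (b (l 1) (a (c (l 367251739511) (l 391947108119)) (l 1)))) (b (a (c (a (l 15700680) (l 15707792)) (a (l 15878208) (l 15821616))) (a (b (l 1) (l 356514273975)) (l 1))) (a (c (b (l 15791464) (a (l 15520200) (l 15595864))) (b (a (l 15728352) (l 15729760)) (a (l 15602536) (l 15640848)))) (a (b (c (l 15655392) (l 15665160)) (l 15601728)) (b (l 15564560) (l 15533376)))))), by decide +kernel⟩

theorem s2_pm_112 : ∃ t, chk3 f_pm_112 t 1 1 1 = true := ex3_a k0_pm_112 k1_pm_112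

theorem c_pm_112 : CertB 536870912 536870912 536870912 536870912 858993459 64424510 3 eng mog cd1q1 cd3q1 pd2 true true false .dn 1 1 2
    ndB1q1 ndB3q1 pcB2 Cut.none Ext.none :=
  certB1 (fam := true) (s1 := true) (s2 := false) (a := 1) (b := 1) (c := 2) (cn := .dn) (n1 := ndB1q1) (n2 := ndB3q1) (pc := pcB2) (cut := Cut.none) (xt := Ext.none) (P1 := 536870912) (W1 := 536870912) (P2 := 536870912) (W2 := 536870912) (P3 := 858993459) (W3 := 64424510) (N0 := 3) (En := eng) (mo := mog) (C1 := cd1q1) (C2 := cd3q1) (C3 := pd2)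
    rfl (fun _ => rfl) s2_pm_112

noncomputable def f_pm_113 : ℕ → ℕ → ℕ → ℕ → Bool := onCell 536870912 536870912 1610612736 536870912 858993459 64424510
    (rowB 3 eng mog cd1q1 cd3q1 pd3 1 true true false .nn 1 1 3 (qsf 536870912 536870912 536870912 536870912 3) ndB1q1 ndB3q1 pcB3 Cut.none Ext.none)

def k0_pm_113 : ∃ t, chk3 f_pm_113 t 1 1 1 = true :=
  ⟨(a (b (b (a (c (a (b (l 14744784) (l 14535992)) (b (l 14941992) (l 14761136))) (a (b (l 14752512) (l 14455256)) (b (l 14945752) (l 14666448)))) (b (a (c (l 15125072) (l 15126488)) (c (l 15294976) (l 15295792))) (a (c (l 14979384) (l 14875248)) (c (l 15191848) (l 15085568))))) (a (a (l 2) (b (b (l 310944888183) (l 2)) (l 2))) (c (b (a (l 14839712) (l 15104632)) (a (l 14722824) (l 15042568))) (b (a (l 14612576) (l 14863376)) (a (l 14347952) (l 14635672)))))) (a (l 2) (a (l 2) (b (b (b (l 14700528) (l 2)) (l 2)) (l 2))))) (b (b (a (b (a (a (l 15402104) (l 15471336)) (l 15558488)) (c (l 15496760) (l 15377984)))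 (b (a (l 15629864) (l 15651024)) (a (l 15641928) (l 15700624)))) (a (b (a (l 15385216) (l 15498496)) (c (l 15561936) (l 15147304))) (b (a (l 15709744) (l 15833096)) (a (l 15866096) (l 16120200))))) (a (a (b (b (c (l 15438032) (l 14811824)) (b (l 15065576) (l 2))) (l 2)) (b (b (c (l 15926592) (l 15315840)) (l 15597704)) (b (b (l 15508192) (l 2)) (l 2)))) (b (b (a (l 16037384) (l 16247400)) (a (l 15863288) (l 16091016))) (b (b (a (l 15779392) (l 15997440)) (l 357117301063)) (l 4)))))), by decide +kernel⟩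

theorem c_pm_113 : CertB 536870912 536870912 536870912 536870912 858993459 64424510 3 eng mog cd1q1 cd3q1 pd3 true true false .nn 1 1 3
    ndB1q1 ndB3q1 pcB3 Cut.none Ext.none :=
  certB1 (fam := true) (s1 := true) (s2 := false) (a := 1) (b := 1) (c := 3) (cn := .nn) (n1 := ndB1q1) (n2 := ndB3q1) (pc := pcB3) (cut := Cut.none) (xt := Ext.none) (P1 := 536870912) (W1 := 536870912) (P2 := 536870912) (W2 := 536870912) (P3 := 858993459) (W3 := 64424510) (N0 := 3) (En := eng) (mo := mog) (C1 := cd1q1) (C2 := cd3q1) (C3 := pd3)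
    rfl (fun _ => rfl) k0_pm_113

noncomputable def f_pm_123 : ℕ → ℕ → ℕ → ℕ → Bool := onCell 536870912 536870912 1610612736 536870912 858993459 64424510
    (rowB 3 eng mog cd1q1 cd3q2 pd3 1 true true false .npn 1 2 3 (qsf 536870912 536870912 1073741824 536870912 3) ndB1q1 ndB3q2 pcB3 Cut.none Ext.none)

def k0_pm_123 : ∃ t, chk3 f_pm_123 t 2 1 1 = true :=
  ⟨(b (a (b (c (a (b (l 15926208) (l 15839352)) (b (l 430602800903) (l 15874136))) (a (b (l 15930560) (l 15877168)) (c (l 409126841751) (l 15894656)))) (c (a (b (l 15868184) (l 15919440)) (b (l 15887000) (l 15939840))) (a (b (l 15820456) (l 15781112)) (b (l 15831904) (l 15803176))))) (b (a (c (l 433287412167) (c (l 452614383735) (l 453687846407))) (l 1)) (c (a (b (l 15962360) (l 15993088)) (l 456373078487)) (a (b (l 15824784) (l 15829200)) (c (l 15900168) (l 15800392)))))) (a (b (b (c (a (l 15996576) (l 16017424)) (a (l 15743864) (l 15784824))) (a (b (l 15898976) (l 15836144)) (c (l 16111528) (l 15734832))))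 (a (b (b (b (l 15907240) (l 15939240)) (b (l 15962792) (l 15978776))) (b (b (l 15996272) (l 16018008)) (b (l 16041712) (l 4)))) (b (b (c (l 16161392) (l 15755720)) (l 15924840)) (b (c (l 16194832) (l 15842848)) (b (l 16048792) (l 4)))))) (b (b (a (c (l 16072688) (l 15843160)) (c (l 16191928) (l 15909944))) (a (c (l 16174376) (l 15848760)) (c (l 16292256) (l 15980096)))) (a (b (b (c (l 16250968) (l 15856792)) (l 15899728)) (b (b (l 16085528) (l 16080392)) (b (l 15861400) (b (l 16102440) (l 4))))) (b (b (l 16003328) (l 16057216)) (b (c (l 16325168) (l 16046504)) (b (l 15927920) (b (l 16164104) (b (l 16177104) (l 4)))))))))), by decide +kernel⟩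

def k1_pm_123 : ∃ t, chk3 f_pm_123 t 3 1 1 = true :=
  ⟨(b (a (b (l 1) (a (a (a (l 512206899063) (l 1)) (l 1)) (l 1))) (l 1)) (a (b (a (b (c (l 16504160) (l 16027392)) (c (l 16540024) (l 16144136))) (c (l 365643373719) (l 568042031527))) (a (b (b (l 16387080) (l 16348752)) (b (l 16306224) (b (l 16167088) (b (l 16261608) (b (l 16270360) (l 16284304)))))) (b (b (l 16574768) (l 16514456)) (b (c (l 16538056) (l 16384144)) (b (l 16420848) (b (l 16402136) (b (l 16395264) (l 16401832)))))))) (b (b (l 1) (a (c (l 16992488) (l 466037990759)) (l 1))) (a (b (b (l 395707858839) (l 16678360)) (b (l 16613104) (b (l 16569304) (b (l 16555800) (b (l 16550368) (b (l 16549288) (l 16548408))))))) (b (b (l 1) (l 16879696)) (b (l 416109065175) (b (l 16760232) (b (l 16749536) (b (l 16744560) (b (l 16729648) (l 16705496))))))))))), by decide +kernel⟩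

theorem s2_pm_123 : ∃ t, chk3 f_pm_123 t 1 1 1 = true := ex3_a k0_pm_123 k1_pm_123

theorem c_pm_123 : CertB 536870912 536870912 1073741824 536870912 858993459 64424510 3 eng mog cd1q1 cd3q2 pd3 true true false .npn 1 2 3
    ndB1q1 ndB3q2 pcB3 Cut.none Ext.none :=
  certB1 (fam := true) (s1 := true) (s2 := false) (a := 1) (b := 2) (c := 3) (cn := .npn) (n1 := ndB1q1) (n2 := ndB3q2) (pc := pcB3) (cut := Cut.none) (xt := Ext.none) (P1 := 536870912) (W1 := 536870912) (P2 := 1073741824) (W2 := 536870912) (P3 := 858993459) (W3 := 64424510) (N0 := 3) (En := eng) (mo := mog) (C1 := cd1q1) (C2 := cd3q2) (C3 := pd3)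
    rfl (fun _ => rfl) s2_pm_123

noncomputable def f_pm_133 : ℕ → ℕ → ℕ → ℕ → Bool := onCell 536870912 536870912 0 1230186008 858993459 64424510
    (rowB 3 eng mog cd1q1 cd3q3 pd3 0 true true false .dn 1 3 3 (qsf 536870912 536870912 0 1230186008 3) ndB1q1 ndB3q3 pcB3 Cut.none Ext.none)

def k0_pm_133 : ∃ t, chk3 f_pm_133 t 1 1 1 = true :=
  ⟨(b (l 2) (b (l 2) (a (l 4) (l 2)))), by decide +kernel⟩

theorem c_pm_133 : CertB 536870912 536870912 0 1230186008 858993459 64424510 3 eng mog cd1q1 cd3q3 pd3 true true false .dn 1 3 3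
    ndB1q1 ndB3q3 pcB3 Cut.none Ext.none :=
  certB0 (fam := true) (s1 := true) (s2 := false) (a := 1) (b := 3) (c := 3) (cn := .dn) (n1 := ndB1q1) (n2 := ndB3q3) (pc := pcB3) (cut := Cut.none) (xt := Ext.none) (P1 := 536870912) (W1 := 536870912) (P2 := 0) (W2 := 1230186008) (P3 := 858993459) (W3 := 64424510) (N0 := 3) (En := eng) (mo := mog) (C1 := cd1q1) (C2 := cd3q3) (C3 := pd3)
    rfl k0_pm_133

noncomputable def f_pm_202_a : ℕ → ℕ → ℕ → ℕ → Bool := onCell 0 536870912 1073741824 536870912 858993459 64424510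
    (rowB 3 eng mog cd1q2a cd3q0 pd2 1 true true false .pp 2 0 2 (qsf 0 536870912 0 536870912 2) ndB1q2a ndB3q0 pcB2 Cut.none Ext.none)

def k0_pm_202_a : ∃ t, chk3 f_pm_202_a t 2 1 1 = true :=
  ⟨(b (a (b (l 1) (b (b (b (l 1) (a (l 16101912) (l 16106480))) (a (l 16197536) (c (l 16067544) (l 16031488)))) (b (c (l 16021528) (l 15965296)) (c (l 15992888) (l 15918352))))) (a (b (l 1) (b (b (b (l 16228728) (l 16096544)) (c (l 16049008) (l 16018560))) (b (l 15986800) (l 15917384)))) (b (b (l 1) (b (l 1) (b (l 1) (c (l 16179080) (l 16178064))))) (b (b (c (b (l 16124072) (l 16074672)) (l 16130936)) (c (l 16010728) (l 15987592))) (b (l 16133264) (l 15868072)))))) (b (b (a (b (l 15935496) (l 15930032)) (b (c (l 15896936) (l 15820528)) (l 15987360))) (a (b (l 15938104) (l 15958200)) (c (l 15939840) (l 15782496)))) (b (a (c (l 16323776) (l 16069048)) (b (l 15871712) (l 15906088))) (a (l 4) (c (l 16041776) (l 15878408)))))), by decide +kernel⟩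

def k1_pm_202_a : ∃ t, chk3 f_pm_202_a t 6 4 1 = true :=
  ⟨(b (l 1) (a (b (l 1) (b (a (l 16213192) (c (l 16179992) (l 16190592))) (c (l 16276328) (l 16135000)))) (c (b (b (a (l 1) (l 16221392)) (a (l 16209952) (l 16159552))) (b (a (l 16144320) (l 16094352)) (l 16051784))) (b (b (l 16249904) (l 16167608)) (b (a (l 16151120) (l 16095336)) (l 16052376)))))), by decide +kernel⟩

def k2_pm_202_a : ∃ t, chk3 f_pm_202_a t 7 16 1 = true :=
  ⟨(a (l 1) (a (b (l 1) (a (b (l 1) (b (l 1) (l 16168032))) (b (b (l 1) (a (l 1) (l 16136968))) (c (a (l 16170464) (l 16149176)) (a (l 16110656) (l 16083744)))))) (b (b (a (l 1) (a (b (l 1) (a (b (l 1) (c (l 16159320) (l 16070256))) (b (b (l 1) (l 16106696)) (c (l 16147264) (l 16055040))))) (a (b (b (l 1) (b (a (l 1) (b (l 1) (l 16098112))) (a (l 16102704) (c (l 16143696) (l 16046104))))) (b (a (a (l 16094432) (l 16096184)) (l 16090904)) (l 16098448))) (c (b (a (c (l 16166248) (l 16118072)) (b (l 16139488) (l 16132816))) (l 16125848))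 (b (a (c (a (l 16070016) (l 16066320)) (b (l 16019352) (l 16013728))) (b (c (l 16063776) (l 16011064)) (l 16031752))) (b (l 16029744) (l 16023744))))))) (a (a (b (l 1) (b (l 1) (l 16135240))) (b (b (l 1) (a (l 1) (l 16115976))) (c (l 16153120) (l 16071248)))) (a (b (a (c (l 16149128) (l 16061176)) (c (l 16137000) (l 16045888))) (c (l 16129280) (l 16041176))) (a (c (l 16117816) (l 16066136)) (c (l 16105496) (l 16029528)))))) (a (b (a (b (c (l 16162208) (l 16087736)) (l 16112024)) (c (l 16132216) (l 16052392))) (c (l 16115448) (l 16041160))) (b (c (a (l 16108384) (l 16084056)) (a (l 16022304) (l 15991424))) (c (l 16068104) (l 15981168))))))), by decide +kernel⟩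

def k3_pm_202_a : ∃ t, chk3 f_pm_202_a t 7 17 1 = true :=
  ⟨(b (a (a (l 1) (a (l 1) (a (b (l 1) (l 16172552)) (b (l 16179848) (l 16152024))))) (a (a (b (c (l 16172240) (l 16122832)) (l 16119368)) (c (b (l 16131136) (l 16101952)) (l 16057360))) (a (c (b (l 16086744) (l 16057704)) (l 16043192)) (c (b (l 16039688) (l 16010976)) (b (l 15954888) (l 15928048)))))) (a (a (b (l 1) (a (l 1) (l 16180736))) (a (b (l 16173320) (l 16144232)) (c (l 16136776) (l 16102384)))) (a (c (a (l 16098648) (l 16057552)) (a (l 16054064) (l 16001952))) (c (a (l 16013648) (l 15967496)) (a (l 15946096) (l 15886880)))))), by decide +kernel⟩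

def k4_pm_202_a : ∃ t, chk3 f_pm_202_a t 7 9 1 = true :=
  ⟨(a (a (b (b (c (a (l 16175824) (l 16143592)) (l 16149488)) (c (l 16097656) (l 16089368))) (c (b (l 16033616) (l 15969440)) (b (l 16026368) (l 15961240)))) (b (c (b (l 16093752) (l 16031888)) (b (l 16066976) (l 16007032))) (c (b (l 15969336) (l 15905488)) (l 15932744)))) (b (a (c (b (l 16017896) (l 15956920)) (b (l 15970528) (l 15911272))) (c (b (a (l 15954248) (l 15909040)) (l 15872352)) (b (l 15859848) (l 15801976)))) (c (a (b (l 15895672) (l 15834848)) (b (l 15813328) (l 15755320))) (a (l 15820088) (b (l 15743296) (l 15683696)))))), by decide +kernel⟩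

def k5_pm_202_a : ∃ t, chk3 f_pm_202_a t 3 5 1 = true :=
  ⟨(a (a (b (b (c (b (l 16070160) (l 16016672)) (l 16040528)) (c (l 15947032) (l 15932368))) (b (c (l 15872576) (l 15843600)) (l 15899968))) (b (b (c (b (l 15988568) (l 15931688)) (l 15952912)) (c (l 15857288) (l 15838992))) (b (c (l 15777184) (l 15745120)) (l 15923984)))) (b (a (b (c (a (l 15874576) (l 15940456)) (a (l 15859896) (l 15785616))) (c (a (l 15769224) (l 15706712)) (l 15704888))) (b (c (a (b (l 15773496) (l 15715992)) (b (l 15697864) (l 15641680))) (a (l 15695984) (l 15593648))) (c (a (l 15638976) (l 15567464)) (l 15656520)))) (a (b (c (l 15655616) (l 15608688)) (c (l 15595568) (l 15533224))) (c (b (a (l 15558472) (l 15491120)) (l 15468920)) (b (l 15437352) (l 15365936)))))), by decide +kernel⟩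

def k6_pm_202_a : ∃ t, chk3 f_pm_202_a t 3 3 1 = true :=
  ⟨(b (a (b (c (a (l 15772184) (l 15666936)) (a (l 15703336) (l 15595496))) (c (a (l 15768200) (l 15660432)) (a (l 15667920) (l 15557040)))) (b (a (b (c (l 15556832) (l 15478080)) (l 15488944)) (c (b (l 15436368) (l 15424504)) (b (l 15315872) (l 15286312)))) (a (c (l 15543544) (l 15423632)) (c (l 15442520) (l 15278120))))) (a (b (c (a (l 15824000) (l 15718328)) (l 15825240)) (b (l 15771728) (a (l 15880192) (l 15784064)))) (b (a (b (l 15515400) (l 15556760)) (b (l 15404488) (l 15454040))) (b (a (l 15612512) (l 15517552)) (l 15864824))))), by decide +kernel⟩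

theorem s7_pm_202_a : ∃ t, chk3 f_pm_202_a t 7 8 1 = true := ex3_b k2_pm_202_a k3_pm_202_a

theorem s8_pm_202_a : ∃ t, chk3 f_pm_202_a t 7 4 1 = true := ex3_b s7_pm_202_a k4_pm_202_a

theorem s9_pm_202_a : ∃ t, chk3 f_pm_202_a t 3 4 1 = true := ex3_a k1_pm_202_a s8_pm_202_a

theorem s10_pm_202_a : ∃ t, chk3 f_pm_202_a t 3 2 1 = true := ex3_b s9_pm_202_a k5_pm_202_a

theorem s11_pm_202_a : ∃ t, chk3 f_pm_202_a t 3 1 1 = true := ex3_b s10_pm_202_a k6_pm_202_a

theorem s12_pm_202_a : ∃ t, chk3 f_pm_202_a t 1 1 1 = true := ex3_a k0_pm_202_a s11_pm_202_a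

theorem c_pm_202_a : CertB 0 536870912 0 536870912 858993459 64424510 3 eng mog cd1q2a cd3q0 pd2 true true false .pp 2 0 2
    ndB1q2a ndB3q0 pcB2 Cut.none Ext.none :=
  certB1 (fam := true) (s1 := true) (s2 := false) (a := 2) (b := 0) (c := 2) (cn := .pp) (n1 := ndB1q2a) (n2 := ndB3q0) (pc := pcB2) (cut := Cut.none) (xt := Ext.none) (P1 := 0) (W1 := 536870912) (P2 := 0) (W2 := 536870912) (P3 := 858993459) (W3 := 64424510) (N0 := 3) (En := eng) (mo := mog) (C1 := cd1q2a) (C2 := cd3q0) (C3 := pd2)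
    rfl (fun _ => rfl) s12_pm_202_a

noncomputable def f_pm_202_b : ℕ → ℕ → ℕ → ℕ → Bool := onCell 1073741824 536870912 0 536870912 858993459 64424510
    (rowB 3 eng mog cd1q2b cd3q0 pd2 2 true true false .pp 2 0 2 (qsf 1239849684 370763052 0 536870912 2) ndB1q2b ndB3q0 pcB2 Cut.none Ext.none)

def k0_pm_202_b : ∃ t, chk3 f_pm_202_b t 1 1 1 = true :=
  ⟨(a (b (a (l 1) (b (a (b (a (b (c (l 357051784151) (l 16066192)) (l 1)) (b (c (l 16070960) (l 16030416)) (c (l 16004152) (l 15949752)))) (l 1)) (b (a (b (l 16059928) (l 16169792)) (b (l 16073064) (l 16030320))) (c (a (l 453151406743) (l 15977480)) (a (l 438655730007) (l 15894592))))) (l 1))) (l 1)) (a (b (b (a (b (a (l 16099176) (l 16105344)) (a (b (l 16018264) (l 15958504)) (l 16046208))) (b (l 16149256) (a (l 16104360) (l 16164408)))) (a (b (a (l 488047950471) (l 343629732631)) (l 1)) (b (a (l 15986240) (l 16093400)) (a (l 579852797815) (l 239475842807))))) (l 1)) (b (a (b (b (l 16207320) (l 16251216)) (b (a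 (l 16177776) (l 4)) (l 4))) (b (b (l 16231352) (l 4)) (l 4))) (l 4)))), by decide +kernel⟩

theorem c_pm_202_b : CertB 1239849684 370763052 0 536870912 858993459 64424510 3 eng mog cd1q2b cd3q0 pd2 true true false .pp 2 0 2
    ndB1q2b ndB3q0 pcB2 Cut.none Ext.none :=
  certB2 (fam := true) (s1 := true) (s2 := false) (a := 2) (b := 0) (c := 2) (cn := .pp) (n1 := ndB1q2b) (n2 := ndB3q0) (pc := pcB2) (cut := Cut.none) (xt := Ext.none) (P1 := 1239849684) (W1 := 370763052) (P2 := 0) (W2 := 536870912) (P3 := 858993459) (W3 := 64424510) (N0 := 3) (En := eng) (mo := mog) (C1 := cd1q2b) (C2 := cd3q0) (C3 := pd2)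
    rfl (fun _ => rfl) k0_pm_202_b

noncomputable def f_pm_203_a : ℕ → ℕ → ℕ → ℕ → Bool := onCell 0 536870912 1610612736 536870912 858993459 64424510
    (rowB 3 eng mog cd1q2a cd3q0 pd3 1 true true false .up 2 0 3 (qsf 0 536870912 0 536870912 3) ndB1q2a ndB3q0 pcB3 Cut.none Ext.none)

def k0_pm_203_a : ∃ t, chk3 f_pm_203_a t 1 1 1 = true :=
  ⟨(b (a (l 4) (b (b (a (b (l 16051824) (l 15950272)) (b (l 15788728) (l 15961280))) (a (l 4) (b (l 16089536) (l 2)))) (l 4))) (l 2)), by decide +kernel⟩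

theorem c_pm_203_a : CertB 0 536870912 0 536870912 858993459 64424510 3 eng mog cd1q2a cd3q0 pd3 true true false .up 2 0 3
    ndB1q2a ndB3q0 pcB3 Cut.none Ext.none :=
  certB1 (fam := true) (s1 := true) (s2 := false) (a := 2) (b := 0) (c := 3) (cn := .up) (n1 := ndB1q2a) (n2 := ndB3q0) (pc := pcB3) (cut := Cut.none) (xt := Ext.none) (P1 := 0) (W1 := 536870912) (P2 := 0) (W2 := 536870912) (P3 := 858993459) (W3 := 64424510) (N0 := 3) (En := eng) (mo := mog) (C1 := cd1q2a) (C2 := cd3q0) (C3 := pd3)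
    rfl (fun _ => rfl) k0_pm_203_a

noncomputable def f_pm_203_b : ℕ → ℕ → ℕ → ℕ → Bool := onCell 1239849684 370763052 1610612736 536870912 858993459 64424510
    (rowB 3 eng mog cd1q2b cd3q0 pd3 1 true true false .up 2 0 3 (qsf 1239849684 370763052 0 536870912 3) ndB1q2b ndB3q0 pcB3 Cut.none Ext.none)

def k0_pm_203_b : ∃ t, chk3 f_pm_203_b t 1 1 1 = true :=
  ⟨(l 4), by decide +kernel⟩

theorem c_pm_203_b : CertB 1239849684 370763052 0 536870912 858993459 64424510 3 eng mog cd1q2b cd3q0 pd3 true true false .up 2 0 3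
    ndB1q2b ndB3q0 pcB3 Cut.none Ext.none :=
  certB1 (fam := true) (s1 := true) (s2 := false) (a := 2) (b := 0) (c := 3) (cn := .up) (n1 := ndB1q2b) (n2 := ndB3q0) (pc := pcB3) (cut := Cut.none) (xt := Ext.none) (P1 := 1239849684) (W1 := 370763052) (P2 := 0) (W2 := 536870912) (P3 := 858993459) (W3 := 64424510) (N0 := 3) (En := eng) (mo := mog) (C1 := cd1q2b) (C2 := cd3q0) (C3 := pd3)
    rfl (fun _ => rfl) k0_pm_203_b

noncomputable def f_pm_213_a : ℕ → ℕ → ℕ → ℕ → Bool := onCell 0 536870912 1610612736 536870912 858993459 64424510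
    (rowB 3 eng mog cd1q2a cd3q1 pd3 1 true true false .pnn 2 1 3 (qsf 0 536870912 536870912 536870912 3) ndB1q2a ndB3q1 pcB3 Cut.none Ext.none)

def k0_pm_213_a : ∃ t, chk3 f_pm_213_a t 1 1 1 = true :=
  ⟨(b (a (l 4) (b (b (a (l 1) (b (l 15824456) (l 15852352))) (a (l 4) (b (l 15895504) (l 15950672)))) (l 4))) (l 4)), by decide +kernel⟩

theorem c_pm_213_a : CertB 0 536870912 536870912 536870912 858993459 64424510 3 eng mog cd1q2a cd3q1 pd3 true true false .pnn 2 1 3
    ndB1q2a ndB3q1 pcB3 Cut.none Ext.none :=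
  certB1 (fam := true) (s1 := true) (s2 := false) (a := 2) (b := 1) (c := 3) (cn := .pnn) (n1 := ndB1q2a) (n2 := ndB3q1) (pc := pcB3) (cut := Cut.none) (xt := Ext.none) (P1 := 0) (W1 := 536870912) (P2 := 536870912) (W2 := 536870912) (P3 := 858993459) (W3 := 64424510) (N0 := 3) (En := eng) (mo := mog) (C1 := cd1q2a) (C2 := cd3q1) (C3 := pd3)
    rfl (fun _ => rfl) k0_pm_213_a

noncomputable def f_pm_213_b : ℕ → ℕ → ℕ → ℕ → Bool := onCell 1239849684 370763052 536870912 536870912 858993459 64424510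
    (rowB 3 eng mog cd1q2b cd3q1 pd3 0 true true false .pnn 2 1 3 (qsf 1239849684 370763052 536870912 536870912 3) ndB1q2b ndB3q1 pcB3 Cut.none Ext.none)

def k0_pm_213_b : ∃ t, chk3 f_pm_213_b t 1 1 1 = true :=
  ⟨(l 4), by decide +kernel⟩

theorem c_pm_213_b : CertB 1239849684 370763052 536870912 536870912 858993459 64424510 3 eng mog cd1q2b cd3q1 pd3 true true false .pnn 2 1 3
    ndB1q2b ndB3q1 pcB3 Cut.none Ext.none :=
  certB0 (fam := true) (s1 := true) (s2 := false) (a := 2) (b := 1) (c := 3) (cn := .pnn) (n1 := ndB1q2b) (n2 := ndB3q1) (pc := pcB3) (cut := Cut.none) (xt := Ext.none) (P1 := 1239849684) (W1 := 370763052) (P2 := 536870912) (W2 := 536870912) (P3 := 858993459) (W3 := 64424510) (N0 := 3) (En := eng) (mo := mog) (C1 := cd1q2b) (C2 := cd3q1) (C3 := pd3)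
    rfl k0_pm_213_b

noncomputable def f_pm_303 : ℕ → ℕ → ℕ → ℕ → Bool := onCell 1610612736 536870912 0 536870912 858993459 64424510
    (rowB 3 eng mog cd1q3 cd3q0 pd3 2 true true false .npn 3 0 3 (qsf 1610612736 536870912 0 536870912 3) ndB1q3 ndB3q0 pcB3 Cut.none Ext.none)

def k0_pm_303 : ∃ t, chk3 f_pm_303 t 1 1 1 = true :=
  ⟨(l 4), by decide +kernel⟩

theorem c_pm_303 : CertB 1610612736 536870912 0 536870912 858993459 64424510 3 eng mog cd1q3 cd3q0 pd3 true true false .npn 3 0 3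
    ndB1q3 ndB3q0 pcB3 Cut.none Ext.none :=
  certB2 (fam := true) (s1 := true) (s2 := false) (a := 3) (b := 0) (c := 3) (cn := .npn) (n1 := ndB1q3) (n2 := ndB3q0) (pc := pcB3) (cut := Cut.none) (xt := Ext.none) (P1 := 1610612736) (W1 := 536870912) (P2 := 0) (W2 := 536870912) (P3 := 858993459) (W3 := 64424510) (N0 := 3) (En := eng) (mo := mog) (C1 := cd1q3) (C2 := cd3q0) (C3 := pd3)
    rfl (fun _ => rfl) k0_pm_303

noncomputable def f_pm_313 : ℕ → ℕ → ℕ → ℕ → Bool := onCell 1610612736 536870912 536870912 536870912 858993459 64424510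
    (rowB 3 eng mog cd1q3 cd3q1 pd3 0 true true false .dn 3 1 3 (qsf 1610612736 536870912 536870912 536870912 3) ndB1q3 ndB3q1 pcB3 Cut.none Ext.none)

def k0_pm_313 : ∃ t, chk3 f_pm_313 t 1 1 1 = true :=
  ⟨(l 4), by decide +kernel⟩

theorem c_pm_313 : CertB 1610612736 536870912 536870912 536870912 858993459 64424510 3 eng mog cd1q3 cd3q1 pd3 true true false .dn 3 1 3
    ndB1q3 ndB3q1 pcB3 Cut.none Ext.none :=
  certB0 (fam := true) (s1 := true) (s2 := false) (a := 3) (b := 1) (c := 3) (cn := .dn) (n1 := ndB1q3) (n2 := ndB3q1) (pc := pcB3) (cut := Cut.none) (xt := Ext.none) (P1 := 1610612736) (W1 := 536870912) (P2 := 536870912) (W2 := 536870912) (P3 := 858993459) (W3 := 64424510) (N0 := 3) (En := eng) (mo := mog) (C1 := cd1q3) (C2 := cd3q1) (C3 := pd3)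
    rfl k0_pm_313

noncomputable def f_mm_001 : ℕ → ℕ → ℕ → ℕ → Bool := onCell 0 536870912 0 536870912 858993459 64424510
    (rowB 3 eng mog cd1q0 cd3q0 pd1 0 true false false .up 0 0 1 (qsf 0 536870912 0 536870912 1) ndB1q0 ndB3q0 pcB1 Cut.none Ext.none)

def k0_mm_001 : ∃ t, chk3 f_mm_001 t 1 1 1 = true :=
  ⟨(l 4), by decide +kernel⟩

theorem c_mm_001 : CertB 0 536870912 0 536870912 858993459 64424510 3 eng mog cd1q0 cd3q0 pd1 true false false .up 0 0 1
    ndB1q0 ndB3q0 pcB1 Cut.none Ext.none :=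
  certB0 (fam := true) (s1 := false) (s2 := false) (a := 0) (b := 0) (c := 1) (cn := .up) (n1 := ndB1q0) (n2 := ndB3q0) (pc := pcB1) (cut := Cut.none) (xt := Ext.none) (P1 := 0) (W1 := 536870912) (P2 := 0) (W2 := 536870912) (P3 := 858993459) (W3 := 64424510) (N0 := 3) (En := eng) (mo := mog) (C1 := cd1q0) (C2 := cd3q0) (C3 := pd1)
    rfl k0_mm_001

noncomputable def f_mm_011 : ℕ → ℕ → ℕ → ℕ → Bool := onCell 0 536870912 536870912 536870912 858993459 64424510
    (rowB 3 eng mog cd1q0 cd3q1 pd1 0 true false false .pnn 0 1 1 (qsf 0 536870912 536870912 536870912 1) ndB1q0 ndB3q1 pcB1 Cut.none Ext.none)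

def k0_mm_011 : ∃ t, chk3 f_mm_011 t 1 1 1 = true :=
  ⟨(l 4), by decide +kernel⟩

theorem c_mm_011 : CertB 0 536870912 536870912 536870912 858993459 64424510 3 eng mog cd1q0 cd3q1 pd1 true false false .pnn 0 1 1
    ndB1q0 ndB3q1 pcB1 Cut.none Ext.none :=
  certB0 (fam := true) (s1 := false) (s2 := false) (a := 0) (b := 1) (c := 1) (cn := .pnn) (n1 := ndB1q0) (n2 := ndB3q1) (pc := pcB1) (cut := Cut.none) (xt := Ext.none) (P1 := 0) (W1 := 536870912) (P2 := 536870912) (W2 := 536870912) (P3 := 858993459) (W3 := 64424510) (N0 := 3) (En := eng) (mo := mog) (C1 := cd1q0) (C2 := cd3q1) (C3 := pd1)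
    rfl k0_mm_011

noncomputable def f_mm_012 : ℕ → ℕ → ℕ → ℕ → Bool := onCell 0 536870912 536870912 536870912 858993459 64424510
    (rowB 3 eng mog cd1q0 cd3q1 pd2 0 true false false .pnp 0 1 2 (qsf 0 536870912 536870912 536870912 2) ndB1q0 ndB3q1 pcB2 Cut.none Ext.none)

def k0_mm_012 : ∃ t, chk3 f_mm_012 t 1 1 1 = true :=
  ⟨(l 4), by decide +kernel⟩

theorem c_mm_012 : CertB 0 536870912 536870912 536870912 858993459 64424510 3 eng mog cd1q0 cd3q1 pd2 true false false .pnp 0 1 2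
    ndB1q0 ndB3q1 pcB2 Cut.none Ext.none :=
  certB0 (fam := true) (s1 := false) (s2 := false) (a := 0) (b := 1) (c := 2) (cn := .pnp) (n1 := ndB1q0) (n2 := ndB3q1) (pc := pcB2) (cut := Cut.none) (xt := Ext.none) (P1 := 0) (W1 := 536870912) (P2 := 536870912) (W2 := 536870912) (P3 := 858993459) (W3 := 64424510) (N0 := 3) (En := eng) (mo := mog) (C1 := cd1q0) (C2 := cd3q1) (C3 := pd2)
    rfl k0_mm_012

noncomputable def f_mm_022 : ℕ → ℕ → ℕ → ℕ → Bool := onCell 0 536870912 1073741824 536870912 858993459 64424510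
    (rowB 3 eng mog cd1q0 cd3q2 pd2 0 true false false .pp 0 2 2 (qsf 0 536870912 1073741824 536870912 2) ndB1q0 ndB3q2 pcB2 Cut.none Ext.none)

def k0_mm_022 : ∃ t, chk3 f_mm_022 t 1 1 1 = true :=
  ⟨(l 4), by decide +kernel⟩

theorem c_mm_022 : CertB 0 536870912 1073741824 536870912 858993459 64424510 3 eng mog cd1q0 cd3q2 pd2 true false false .pp 0 2 2
    ndB1q0 ndB3q2 pcB2 Cut.none Ext.none :=
  certB0 (fam := true) (s1 := false) (s2 := false) (a := 0) (b := 2) (c := 2) (cn := .pp) (n1 := ndB1q0) (n2 := ndB3q2) (pc := pcB2) (cut := Cut.none) (xt := Ext.none) (P1 := 0) (W1 := 536870912) (P2 := 1073741824) (W2 := 536870912) (P3 := 858993459) (W3 := 64424510) (N0 := 3) (En := eng) (mo := mog) (C1 := cd1q0) (C2 := cd3q2) (C3 := pd2)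
    rfl k0_mm_022

noncomputable def f_mm_023 : ℕ → ℕ → ℕ → ℕ → Bool := onCell 0 536870912 1073741824 536870912 858993459 64424510
    (rowB 3 eng mog cd1q0 cd3q2 pd3 0 true false false .up 0 2 3 (qsf 0 536870912 1073741824 536870912 3) ndB1q0 ndB3q2 pcB3 Cut.none Ext.none)

def k0_mm_023 : ∃ t, chk3 f_mm_023 t 1 1 1 = true :=
  ⟨(l 4), by decide +kernel⟩

theorem c_mm_023 : CertB 0 536870912 1073741824 536870912 858993459 64424510 3 eng mog cd1q0 cd3q2 pd3 true false false .up 0 2 3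
    ndB1q0 ndB3q2 pcB3 Cut.none Ext.none :=
  certB0 (fam := true) (s1 := false) (s2 := false) (a := 0) (b := 2) (c := 3) (cn := .up) (n1 := ndB1q0) (n2 := ndB3q2) (pc := pcB3) (cut := Cut.none) (xt := Ext.none) (P1 := 0) (W1 := 536870912) (P2 := 1073741824) (W2 := 536870912) (P3 := 858993459) (W3 := 64424510) (N0 := 3) (En := eng) (mo := mog) (C1 := cd1q0) (C2 := cd3q2) (C3 := pd3)
    rfl k0_mm_023

noncomputable def f_mm_033 : ℕ → ℕ → ℕ → ℕ → Bool := onCell 0 536870912 0 1230186008 858993459 64424510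
    (rowB 3 eng mog cd1q0 cd3q3 pd3 0 true false false .pnn 0 3 3 (qsf 0 536870912 0 1230186008 3) ndB1q0 ndB3q3 pcB3 Cut.none Ext.none)

def k0_mm_033 : ∃ t, chk3 f_mm_033 t 1 1 1 = true :=
  ⟨(l 5), by decide +kernel⟩

theorem c_mm_033 : CertB 0 536870912 0 1230186008 858993459 64424510 3 eng mog cd1q0 cd3q3 pd3 true false false .pnn 0 3 3
    ndB1q0 ndB3q3 pcB3 Cut.none Ext.none :=
  certB0 (fam := true) (s1 := false) (s2 := false) (a := 0) (b := 3) (c := 3) (cn := .pnn) (n1 := ndB1q0) (n2 := ndB3q3) (pc := pcB3) (cut := Cut.none) (xt := Ext.none) (P1 := 0) (W1 := 536870912) (P2 := 0) (W2 := 1230186008) (P3 := 858993459) (W3 := 64424510) (N0 := 3) (En := eng) (mo := mog) (C1 := cd1q0) (C2 := cd3q3) (C3 := pd3)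
    rfl k0_mm_033

noncomputable def f_mm_101 : ℕ → ℕ → ℕ → ℕ → Bool := onCell 536870912 536870912 0 536870912 858993459 64424510
    (rowB 3 eng mog cd1q1 cd3q0 pd1 0 true false false .npn 1 0 1 (qsf 536870912 536870912 0 536870912 1) ndB1q1 ndB3q0 pcB1 Cut.none Ext.none)

def k0_mm_101 : ∃ t, chk3 f_mm_101 t 1 1 1 = true :=
  ⟨(l 4), by decide +kernel⟩

theorem c_mm_101 : CertB 536870912 536870912 0 536870912 858993459 64424510 3 eng mog cd1q1 cd3q0 pd1 true false false .npn 1 0 1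
    ndB1q1 ndB3q0 pcB1 Cut.none Ext.none :=
  certB0 (fam := true) (s1 := false) (s2 := false) (a := 1) (b := 0) (c := 1) (cn := .npn) (n1 := ndB1q1) (n2 := ndB3q0) (pc := pcB1) (cut := Cut.none) (xt := Ext.none) (P1 := 536870912) (W1 := 536870912) (P2 := 0) (W2 := 536870912) (P3 := 858993459) (W3 := 64424510) (N0 := 3) (En := eng) (mo := mog) (C1 := cd1q1) (C2 := cd3q0) (C3 := pd1)
    rfl k0_mm_101

noncomputable def f_mm_102 : ℕ → ℕ → ℕ → ℕ → Bool := onCell 536870912 536870912 0 536870912 858993459 64424510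
    (rowB 3 eng mog cd1q1 cd3q0 pd2 0 true false false .npp 1 0 2 (qsf 536870912 536870912 0 536870912 2) ndB1q1 ndB3q0 pcB2 Cut.none Ext.none)

def k0_mm_102 : ∃ t, chk3 f_mm_102 t 1 1 1 = true :=
  ⟨(l 4), by decide +kernel⟩

theorem c_mm_102 : CertB 536870912 536870912 0 536870912 858993459 64424510 3 eng mog cd1q1 cd3q0 pd2 true false false .npp 1 0 2
    ndB1q1 ndB3q0 pcB2 Cut.none Ext.none :=
  certB0 (fam := true) (s1 := false) (s2 := false) (a := 1) (b := 0) (c := 2) (cn := .npp) (n1 := ndB1q1) (n2 := ndB3q0) (pc := pcB2) (cut := Cut.none) (xt := Ext.none) (P1 := 536870912) (W1 := 536870912) (P2 := 0) (W2 := 536870912) (P3 := 858993459) (W3 := 64424510) (N0 := 3) (En := eng) (mo := mog) (C1 := cd1q1) (C2 := cd3q0) (C3 := pd2)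
    rfl k0_mm_102

noncomputable def f_mm_112 : ℕ → ℕ → ℕ → ℕ → Bool := onCell 536870912 536870912 536870912 536870912 858993459 64424510
    (rowB 3 eng mog cd1q1 cd3q1 pd2 0 true false false .dn 1 1 2 (qsf 536870912 536870912 536870912 536870912 2) ndB1q1 ndB3q1 pcB2 Cut.none Ext.none)

def k0_mm_112 : ∃ t, chk3 f_mm_112 t 1 1 1 = true :=
  ⟨(l 4), by decide +kernel⟩

theorem c_mm_112 : CertB 536870912 536870912 536870912 536870912 858993459 64424510 3 eng mog cd1q1 cd3q1 pd2 true false false .dn 1 1 2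
    ndB1q1 ndB3q1 pcB2 Cut.none Ext.none :=
  certB0 (fam := true) (s1 := false) (s2 := false) (a := 1) (b := 1) (c := 2) (cn := .dn) (n1 := ndB1q1) (n2 := ndB3q1) (pc := pcB2) (cut := Cut.none) (xt := Ext.none) (P1 := 536870912) (W1 := 536870912) (P2 := 536870912) (W2 := 536870912) (P3 := 858993459) (W3 := 64424510) (N0 := 3) (En := eng) (mo := mog) (C1 := cd1q1) (C2 := cd3q1) (C3 := pd2)
    rfl k0_mm_112

noncomputable def f_mm_113 : ℕ → ℕ → ℕ → ℕ → Bool := onCell 536870912 536870912 536870912 536870912 858993459 64424510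
    (rowB 3 eng mog cd1q1 cd3q1 pd3 0 true false false .nn 1 1 3 (qsf 536870912 536870912 536870912 536870912 3) ndB1q1 ndB3q1 pcB3 Cut.none Ext.none)

def k0_mm_113 : ∃ t, chk3 f_mm_113 t 1 1 1 = true :=
  ⟨(l 4), by decide +kernel⟩

theorem c_mm_113 : CertB 536870912 536870912 536870912 536870912 858993459 64424510 3 eng mog cd1q1 cd3q1 pd3 true false false .nn 1 1 3
    ndB1q1 ndB3q1 pcB3 Cut.none Ext.none :=
  certB0 (fam := true) (s1 := false) (s2 := false) (a := 1) (b := 1) (c := 3) (cn := .nn) (n1 := ndB1q1) (n2 := ndB3q1) (pc := pcB3) (cut := Cut.none) (xt := Ext.none) (P1 := 536870912) (W1 := 536870912) (P2 := 536870912) (W2 := 536870912) (P3 := 858993459) (W3 := 64424510) (N0 := 3) (En := eng) (mo := mog) (C1 := cd1q1) (C2 := cd3q1) (C3 := pd3)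
    rfl k0_mm_113

noncomputable def f_mm_123 : ℕ → ℕ → ℕ → ℕ → Bool := onCell 536870912 536870912 1073741824 536870912 858993459 64424510
    (rowB 3 eng mog cd1q1 cd3q2 pd3 0 true false false .npn 1 2 3 (qsf 536870912 536870912 1073741824 536870912 3) ndB1q1 ndB3q2 pcB3 Cut.none Ext.none)

def k0_mm_123 : ∃ t, chk3 f_mm_123 t 1 1 1 = true :=
  ⟨(l 4), by decide +kernel⟩

theorem c_mm_123 : CertB 536870912 536870912 1073741824 536870912 858993459 64424510 3 eng mog cd1q1 cd3q2 pd3 true false false .npn 1 2 3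
    ndB1q1 ndB3q2 pcB3 Cut.none Ext.none :=
  certB0 (fam := true) (s1 := false) (s2 := false) (a := 1) (b := 2) (c := 3) (cn := .npn) (n1 := ndB1q1) (n2 := ndB3q2) (pc := pcB3) (cut := Cut.none) (xt := Ext.none) (P1 := 536870912) (W1 := 536870912) (P2 := 1073741824) (W2 := 536870912) (P3 := 858993459) (W3 := 64424510) (N0 := 3) (En := eng) (mo := mog) (C1 := cd1q1) (C2 := cd3q2) (C3 := pd3)
    rfl k0_mm_123

noncomputable def f_mm_133 : ℕ → ℕ → ℕ → ℕ → Bool := onCell 536870912 536870912 0 1230186008 858993459 64424510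
    (rowB 3 eng mog cd1q1 cd3q3 pd3 0 true false false .dn 1 3 3 (qsf 536870912 536870912 0 1230186008 3) ndB1q1 ndB3q3 pcB3 Cut.none Ext.none)

def k0_mm_133 : ∃ t, chk3 f_mm_133 t 1 1 1 = true :=
  ⟨(l 4), by decide +kernel⟩

theorem c_mm_133 : CertB 536870912 536870912 0 1230186008 858993459 64424510 3 eng mog cd1q1 cd3q3 pd3 true false false .dn 1 3 3
    ndB1q1 ndB3q3 pcB3 Cut.none Ext.none :=
  certB0 (fam := true) (s1 := false) (s2 := false) (a := 1) (b := 3) (c := 3) (cn := .dn) (n1 := ndB1q1) (n2 := ndB3q3) (pc := pcB3) (cut := Cut.none) (xt := Ext.none) (P1 := 536870912) (W1 := 536870912) (P2 := 0) (W2 := 1230186008) (P3 := 858993459) (W3 := 64424510) (N0 := 3) (En := eng) (mo := mog) (C1 := cd1q1) (C2 := cd3q3) (C3 := pd3)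
    rfl k0_mm_133

noncomputable def f_mm_202_a : ℕ → ℕ → ℕ → ℕ → Bool := onCell 0 536870912 0 536870912 858993459 64424510
    (rowB 3 eng mog cd1q2a cd3q0 pd2 0 true false false .pp 2 0 2 (qsf 0 536870912 0 536870912 2) ndB1q2a ndB3q0 pcB2 Cut.none Ext.none)

def k0_mm_202_a : ∃ t, chk3 f_mm_202_a t 1 1 1 = true :=
  ⟨(l 4), by decide +kernel⟩

theorem c_mm_202_a : CertB 0 536870912 0 536870912 858993459 64424510 3 eng mog cd1q2a cd3q0 pd2 true false false .pp 2 0 2
    ndB1q2a ndB3q0 pcB2 Cut.none Ext.none :=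
  certB0 (fam := true) (s1 := false) (s2 := false) (a := 2) (b := 0) (c := 2) (cn := .pp) (n1 := ndB1q2a) (n2 := ndB3q0) (pc := pcB2) (cut := Cut.none) (xt := Ext.none) (P1 := 0) (W1 := 536870912) (P2 := 0) (W2 := 536870912) (P3 := 858993459) (W3 := 64424510) (N0 := 3) (En := eng) (mo := mog) (C1 := cd1q2a) (C2 := cd3q0) (C3 := pd2)
    rfl k0_mm_202_a

noncomputable def f_mm_202_b : ℕ → ℕ → ℕ → ℕ → Bool := onCell 1239849684 370763052 0 536870912 858993459 64424510
    (rowB 3 eng mog cd1q2b cd3q0 pd2 0 true false false .pp 2 0 2 (qsf 1239849684 370763052 0 536870912 2) ndB1q2b ndB3q0 pcB2 Cut.none Ext.none)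

def k0_mm_202_b : ∃ t, chk3 f_mm_202_b t 1 1 1 = true :=
  ⟨(l 4), by decide +kernel⟩

theorem c_mm_202_b : CertB 1239849684 370763052 0 536870912 858993459 64424510 3 eng mog cd1q2b cd3q0 pd2 true false false .pp 2 0 2
    ndB1q2b ndB3q0 pcB2 Cut.none Ext.none :=
  certB0 (fam := true) (s1 := false) (s2 := false) (a := 2) (b := 0) (c := 2) (cn := .pp) (n1 := ndB1q2b) (n2 := ndB3q0) (pc := pcB2) (cut := Cut.none) (xt := Ext.none) (P1 := 1239849684) (W1 := 370763052) (P2 := 0) (W2 := 536870912) (P3 := 858993459) (W3 := 64424510) (N0 := 3) (En := eng) (mo := mog) (C1 := cd1q2b) (C2 := cd3q0) (C3 := pd2)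
    rfl k0_mm_202_b

noncomputable def f_mm_203_a : ℕ → ℕ → ℕ → ℕ → Bool := onCell 0 536870912 0 536870912 858993459 64424510
    (rowB 3 eng mog cd1q2a cd3q0 pd3 0 true false false .up 2 0 3 (qsf 0 536870912 0 536870912 3) ndB1q2a ndB3q0 pcB3 Cut.none Ext.none)

def k0_mm_203_a : ∃ t, chk3 f_mm_203_a t 1 1 1 = true :=
  ⟨(l 4), by decide +kernel⟩

theorem c_mm_203_a : CertB 0 536870912 0 536870912 858993459 64424510 3 eng mog cd1q2a cd3q0 pd3 true false false .up 2 0 3
    ndB1q2a ndB3q0 pcB3 Cut.none Ext.none :=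
  certB0 (fam := true) (s1 := false) (s2 := false) (a := 2) (b := 0) (c := 3) (cn := .up) (n1 := ndB1q2a) (n2 := ndB3q0) (pc := pcB3) (cut := Cut.none) (xt := Ext.none) (P1 := 0) (W1 := 536870912) (P2 := 0) (W2 := 536870912) (P3 := 858993459) (W3 := 64424510) (N0 := 3) (En := eng) (mo := mog) (C1 := cd1q2a) (C2 := cd3q0) (C3 := pd3)
    rfl k0_mm_203_a

noncomputable def f_mm_203_b : ℕ → ℕ → ℕ → ℕ → Bool := onCell 1239849684 370763052 0 536870912 858993459 64424510
    (rowB 3 eng mog cd1q2b cd3q0 pd3 0 true false false .up 2 0 3 (qsf 1239849684 370763052 0 536870912 3) ndB1q2b ndB3q0 pcB3 Cut.none Ext.none)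

def k0_mm_203_b : ∃ t, chk3 f_mm_203_b t 1 1 1 = true :=
  ⟨(l 4), by decide +kernel⟩

theorem c_mm_203_b : CertB 1239849684 370763052 0 536870912 858993459 64424510 3 eng mog cd1q2b cd3q0 pd3 true false false .up 2 0 3
    ndB1q2b ndB3q0 pcB3 Cut.none Ext.none :=
  certB0 (fam := true) (s1 := false) (s2 := false) (a := 2) (b := 0) (c := 3) (cn := .up) (n1 := ndB1q2b) (n2 := ndB3q0) (pc := pcB3) (cut := Cut.none) (xt := Ext.none) (P1 := 1239849684) (W1 := 370763052) (P2 := 0) (W2 := 536870912) (P3 := 858993459) (W3 := 64424510) (N0 := 3) (En := eng) (mo := mog) (C1 := cd1q2b) (C2 := cd3q0) (C3 := pd3)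
    rfl k0_mm_203_b

noncomputable def f_mm_213_a : ℕ → ℕ → ℕ → ℕ → Bool := onCell 0 536870912 536870912 536870912 858993459 64424510
    (rowB 3 eng mog cd1q2a cd3q1 pd3 0 true false false .pnn 2 1 3 (qsf 0 536870912 536870912 536870912 3) ndB1q2a ndB3q1 pcB3 Cut.none Ext.none)

def k0_mm_213_a : ∃ t, chk3 f_mm_213_a t 1 1 1 = true :=
  ⟨(l 4), by decide +kernel⟩

theorem c_mm_213_a : CertB 0 536870912 536870912 536870912 858993459 64424510 3 eng mog cd1q2a cd3q1 pd3 true false false .pnn 2 1 3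
    ndB1q2a ndB3q1 pcB3 Cut.none Ext.none :=
  certB0 (fam := true) (s1 := false) (s2 := false) (a := 2) (b := 1) (c := 3) (cn := .pnn) (n1 := ndB1q2a) (n2 := ndB3q1) (pc := pcB3) (cut := Cut.none) (xt := Ext.none) (P1 := 0) (W1 := 536870912) (P2 := 536870912) (W2 := 536870912) (P3 := 858993459) (W3 := 64424510) (N0 := 3) (En := eng) (mo := mog) (C1 := cd1q2a) (C2 := cd3q1) (C3 := pd3)
    rfl k0_mm_213_a

noncomputable def f_mm_213_b : ℕ → ℕ → ℕ → ℕ → Bool := onCell 1239849684 370763052 536870912 536870912 858993459 64424510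
    (rowB 3 eng mog cd1q2b cd3q1 pd3 0 true false false .pnn 2 1 3 (qsf 1239849684 370763052 536870912 536870912 3) ndB1q2b ndB3q1 pcB3 Cut.none Ext.none)

def k0_mm_213_b : ∃ t, chk3 f_mm_213_b t 1 1 1 = true :=
  ⟨(l 4), by decide +kernel⟩

theorem c_mm_213_b : CertB 1239849684 370763052 536870912 536870912 858993459 64424510 3 eng mog cd1q2b cd3q1 pd3 true false false .pnn 2 1 3
    ndB1q2b ndB3q1 pcB3 Cut.none Ext.none :=
  certB0 (fam := true) (s1 := false) (s2 := false) (a := 2) (b := 1) (c := 3) (cn := .pnn) (n1 := ndB1q2b) (n2 := ndB3q1) (pc := pcB3) (cut := Cut.none) (xt := Ext.none) (P1 := 1239849684) (W1 := 370763052) (P2 := 536870912) (W2 := 536870912) (P3 := 858993459) (W3 := 64424510) (N0 := 3) (En := eng) (mo := mog) (C1 := cd1q2b) (C2 := cd3q1) (C3 := pd3)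
    rfl k0_mm_213_b

noncomputable def f_mm_303 : ℕ → ℕ → ℕ → ℕ → Bool := onCell 1610612736 536870912 0 536870912 858993459 64424510
    (rowB 3 eng mog cd1q3 cd3q0 pd3 0 true false false .npn 3 0 3 (qsf 1610612736 536870912 0 536870912 3) ndB1q3 ndB3q0 pcB3 Cut.none Ext.none)

def k0_mm_303 : ∃ t, chk3 f_mm_303 t 1 1 1 = true :=
  ⟨(l 4), by decide +kernel⟩

theorem c_mm_303 : CertB 1610612736 536870912 0 536870912 858993459 64424510 3 eng mog cd1q3 cd3q0 pd3 true false false .npn 3 0 3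
    ndB1q3 ndB3q0 pcB3 Cut.none Ext.none :=
  certB0 (fam := true) (s1 := false) (s2 := false) (a := 3) (b := 0) (c := 3) (cn := .npn) (n1 := ndB1q3) (n2 := ndB3q0) (pc := pcB3) (cut := Cut.none) (xt := Ext.none) (P1 := 1610612736) (W1 := 536870912) (P2 := 0) (W2 := 536870912) (P3 := 858993459) (W3 := 64424510) (N0 := 3) (En := eng) (mo := mog) (C1 := cd1q3) (C2 := cd3q0) (C3 := pd3)
    rfl k0_mm_303

noncomputable def f_mm_313 : ℕ → ℕ → ℕ → ℕ → Bool := onCell 1610612736 536870912 536870912 536870912 858993459 64424510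
    (rowB 3 eng mog cd1q3 cd3q1 pd3 0 true false false .dn 3 1 3 (qsf 1610612736 536870912 536870912 536870912 3) ndB1q3 ndB3q1 pcB3 Cut.none Ext.none)

def k0_mm_313 : ∃ t, chk3 f_mm_313 t 1 1 1 = true :=
  ⟨(l 4), by decide +kernel⟩

theorem c_mm_313 : CertB 1610612736 536870912 536870912 536870912 858993459 64424510 3 eng mog cd1q3 cd3q1 pd3 true false false .dn 3 1 3
    ndB1q3 ndB3q1 pcB3 Cut.none Ext.none :=
  certB0 (fam := true) (s1 := false) (s2 := false) (a := 3) (b := 1) (c := 3) (cn := .dn) (n1 := ndB1q3) (n2 := ndB3q1) (pc := pcB3) (cut := Cut.none) (xt := Ext.none) (P1 := 1610612736) (W1 := 536870912) (P2 := 536870912) (W2 := 536870912) (P3 := 858993459) (W3 := 64424510) (N0 := 3) (En := eng) (mo := mog) (C1 := cd1q3) (C2 := cd3q1) (C3 := pd3)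
    rfl k0_mm_313

end Pool.Agent.Strip051.G.I8000_8600.Tab.C.BA13

namespace Pool.Agent.Strip051.G.I8000_8600.Tab.C.BA14

open Pool.Agent.Strip051.PB Pool.Agent.Strip051.PB.T
open Pool.Agent.Strip051.G.I8000_8600.Tab

noncomputable def f_pp_001 : ℕ → ℕ → ℕ → ℕ → Bool := onCell 0 536870912 0 536870912 858993459 64424510
    (rowB 3 eng mog cd1q0 cd4q0 pd1 0 true true true .up 0 0 1 (qsf 0 536870912 0 536870912 1) ndB1q0 ndB4q0 pcB1 Cut.none Ext.none)

def k0_pp_001 : ∃ t, chk3 f_pp_001 t 1 1 1 = true :=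
  ⟨(l 4), by decide +kernel⟩

theorem c_pp_001 : CertB 0 536870912 0 536870912 858993459 64424510 3 eng mog cd1q0 cd4q0 pd1 true true true .up 0 0 1
    ndB1q0 ndB4q0 pcB1 Cut.none Ext.none :=
  certB0 (fam := true) (s1 := true) (s2 := true) (a := 0) (b := 0) (c := 1) (cn := .up) (n1 := ndB1q0) (n2 := ndB4q0) (pc := pcB1) (cut := Cut.none) (xt := Ext.none) (P1 := 0) (W1 := 536870912) (P2 := 0) (W2 := 536870912) (P3 := 858993459) (W3 := 64424510) (N0 := 3) (En := eng) (mo := mog) (C1 := cd1q0) (C2 := cd4q0) (C3 := pd1)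
    rfl k0_pp_001

noncomputable def f_pp_011 : ℕ → ℕ → ℕ → ℕ → Bool := onCell 0 536870912 536870912 536870912 858993459 64424510
    (rowB 3 eng mog cd1q0 cd4q1 pd1 0 true true true .pnn 0 1 1 (qsf 0 536870912 536870912 536870912 1) ndB1q0 ndB4q1 pcB1 Cut.none Ext.none)

def k0_pp_011 : ∃ t, chk3 f_pp_011 t 1 1 1 = true :=
  ⟨(l 4), by decide +kernel⟩

theorem c_pp_011 : CertB 0 536870912 536870912 536870912 858993459 64424510 3 eng mog cd1q0 cd4q1 pd1 true true true .pnn 0 1 1
    ndB1q0 ndB4q1 pcB1 Cut.none Ext.none :=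
  certB0 (fam := true) (s1 := true) (s2 := true) (a := 0) (b := 1) (c := 1) (cn := .pnn) (n1 := ndB1q0) (n2 := ndB4q1) (pc := pcB1) (cut := Cut.none) (xt := Ext.none) (P1 := 0) (W1 := 536870912) (P2 := 536870912) (W2 := 536870912) (P3 := 858993459) (W3 := 64424510) (N0 := 3) (En := eng) (mo := mog) (C1 := cd1q0) (C2 := cd4q1) (C3 := pd1)
    rfl k0_pp_011

noncomputable def f_pp_012 : ℕ → ℕ → ℕ → ℕ → Bool := onCell 0 536870912 536870912 536870912 858993459 64424510
    (rowB 3 eng mog cd1q0 cd4q1 pd2 0 true true true .pnp 0 1 2 (qsf 0 536870912 536870912 536870912 2) ndB1q0 ndB4q1 pcB2 Cut.none Ext.none)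

def k0_pp_012 : ∃ t, chk3 f_pp_012 t 1 1 1 = true :=
  ⟨(l 4), by decide +kernel⟩

theorem c_pp_012 : CertB 0 536870912 536870912 536870912 858993459 64424510 3 eng mog cd1q0 cd4q1 pd2 true true true .pnp 0 1 2
    ndB1q0 ndB4q1 pcB2 Cut.none Ext.none :=
  certB0 (fam := true) (s1 := true) (s2 := true) (a := 0) (b := 1) (c := 2) (cn := .pnp) (n1 := ndB1q0) (n2 := ndB4q1) (pc := pcB2) (cut := Cut.none) (xt := Ext.none) (P1 := 0) (W1 := 536870912) (P2 := 536870912) (W2 := 536870912) (P3 := 858993459) (W3 := 64424510) (N0 := 3) (En := eng) (mo := mog) (C1 := cd1q0) (C2 := cd4q1) (C3 := pd2)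
    rfl k0_pp_012

noncomputable def f_pp_022 : ℕ → ℕ → ℕ → ℕ → Bool := onCell 0 536870912 1073741824 536870912 858993459 64424510
    (rowB 3 eng mog cd1q0 cd4q2 pd2 0 true true true .pp 0 2 2 (qsf 0 536870912 1073741824 536870912 2) ndB1q0 ndB4q2 pcB2 Cut.none Ext.none)

def k0_pp_022 : ∃ t, chk3 f_pp_022 t 1 1 1 = true :=
  ⟨(l 4), by decide +kernel⟩

theorem c_pp_022 : CertB 0 536870912 1073741824 536870912 858993459 64424510 3 eng mog cd1q0 cd4q2 pd2 true true true .pp 0 2 2
    ndB1q0 ndB4q2 pcB2 Cut.none Ext.none :=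
  certB0 (fam := true) (s1 := true) (s2 := true) (a := 0) (b := 2) (c := 2) (cn := .pp) (n1 := ndB1q0) (n2 := ndB4q2) (pc := pcB2) (cut := Cut.none) (xt := Ext.none) (P1 := 0) (W1 := 536870912) (P2 := 1073741824) (W2 := 536870912) (P3 := 858993459) (W3 := 64424510) (N0 := 3) (En := eng) (mo := mog) (C1 := cd1q0) (C2 := cd4q2) (C3 := pd2)
    rfl k0_pp_022

noncomputable def f_pp_023 : ℕ → ℕ → ℕ → ℕ → Bool := onCell 0 536870912 1073741824 536870912 858993459 64424510
    (rowB 3 eng mog cd1q0 cd4q2 pd3 0 true true true .up 0 2 3 (qsf 0 536870912 1073741824 536870912 3) ndB1q0 ndB4q2 pcB3 Cut.none Ext.none)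

def k0_pp_023 : ∃ t, chk3 f_pp_023 t 1 1 1 = true :=
  ⟨(l 4), by decide +kernel⟩

theorem c_pp_023 : CertB 0 536870912 1073741824 536870912 858993459 64424510 3 eng mog cd1q0 cd4q2 pd3 true true true .up 0 2 3
    ndB1q0 ndB4q2 pcB3 Cut.none Ext.none :=
  certB0 (fam := true) (s1 := true) (s2 := true) (a := 0) (b := 2) (c := 3) (cn := .up) (n1 := ndB1q0) (n2 := ndB4q2) (pc := pcB3) (cut := Cut.none) (xt := Ext.none) (P1 := 0) (W1 := 536870912) (P2 := 1073741824) (W2 := 536870912) (P3 := 858993459) (W3 := 64424510) (N0 := 3) (En := eng) (mo := mog) (C1 := cd1q0) (C2 := cd4q2) (C3 := pd3)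
    rfl k0_pp_023

noncomputable def f_pp_033 : ℕ → ℕ → ℕ → ℕ → Bool := onCell 0 536870912 0 1230186008 858993459 64424510
    (rowB 3 eng mog cd1q0 cd4q3 pd3 0 true true true .pnn 0 3 3 (qsf 0 536870912 0 1230186008 3) ndB1q0 ndB4q3 pcB3 Cut.none Ext.none)

def k0_pp_033 : ∃ t, chk3 f_pp_033 t 1 1 1 = true :=
  ⟨(l 4), by decide +kernel⟩

theorem c_pp_033 : CertB 0 536870912 0 1230186008 858993459 64424510 3 eng mog cd1q0 cd4q3 pd3 true true true .pnn 0 3 3
    ndB1q0 ndB4q3 pcB3 Cut.none Ext.none :=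
  certB0 (fam := true) (s1 := true) (s2 := true) (a := 0) (b := 3) (c := 3) (cn := .pnn) (n1 := ndB1q0) (n2 := ndB4q3) (pc := pcB3) (cut := Cut.none) (xt := Ext.none) (P1 := 0) (W1 := 536870912) (P2 := 0) (W2 := 1230186008) (P3 := 858993459) (W3 := 64424510) (N0 := 3) (En := eng) (mo := mog) (C1 := cd1q0) (C2 := cd4q3) (C3 := pd3)
    rfl k0_pp_033

noncomputable def f_pp_101 : ℕ → ℕ → ℕ → ℕ → Bool := onCell 536870912 536870912 0 536870912 858993459 64424510
    (rowB 3 eng mog cd1q1 cd4q0 pd1 0 true true true .npn 1 0 1 (qsf 536870912 536870912 0 536870912 1) ndB1q1 ndB4q0 pcB1 Cut.none Ext.none)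

def k0_pp_101 : ∃ t, chk3 f_pp_101 t 1 1 1 = true :=
  ⟨(l 4), by decide +kernel⟩

theorem c_pp_101 : CertB 536870912 536870912 0 536870912 858993459 64424510 3 eng mog cd1q1 cd4q0 pd1 true true true .npn 1 0 1
    ndB1q1 ndB4q0 pcB1 Cut.none Ext.none :=
  certB0 (fam := true) (s1 := true) (s2 := true) (a := 1) (b := 0) (c := 1) (cn := .npn) (n1 := ndB1q1) (n2 := ndB4q0) (pc := pcB1) (cut := Cut.none) (xt := Ext.none) (P1 := 536870912) (W1 := 536870912) (P2 := 0) (W2 := 536870912) (P3 := 858993459) (W3 := 64424510) (N0 := 3) (En := eng) (mo := mog) (C1 := cd1q1) (C2 := cd4q0) (C3 := pd1)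
    rfl k0_pp_101

noncomputable def f_pp_102 : ℕ → ℕ → ℕ → ℕ → Bool := onCell 536870912 536870912 0 536870912 858993459 64424510
    (rowB 3 eng mog cd1q1 cd4q0 pd2 0 true true true .npp 1 0 2 (qsf 536870912 536870912 0 536870912 2) ndB1q1 ndB4q0 pcB2 Cut.none Ext.none)

def k0_pp_102 : ∃ t, chk3 f_pp_102 t 1 1 1 = true :=
  ⟨(l 4), by decide +kernel⟩

theorem c_pp_102 : CertB 536870912 536870912 0 536870912 858993459 64424510 3 eng mog cd1q1 cd4q0 pd2 true true true .npp 1 0 2
    ndB1q1 ndB4q0 pcB2 Cut.none Ext.none :=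
  certB0 (fam := true) (s1 := true) (s2 := true) (a := 1) (b := 0) (c := 2) (cn := .npp) (n1 := ndB1q1) (n2 := ndB4q0) (pc := pcB2) (cut := Cut.none) (xt := Ext.none) (P1 := 536870912) (W1 := 536870912) (P2 := 0) (W2 := 536870912) (P3 := 858993459) (W3 := 64424510) (N0 := 3) (En := eng) (mo := mog) (C1 := cd1q1) (C2 := cd4q0) (C3 := pd2)
    rfl k0_pp_102

noncomputable def f_pp_112 : ℕ → ℕ → ℕ → ℕ → Bool := onCell 536870912 536870912 536870912 536870912 858993459 64424510
    (rowB 3 eng mog cd1q1 cd4q1 pd2 0 true true true .dn 1 1 2 (qsf 536870912 536870912 536870912 536870912 2) ndB1q1 ndB4q1 pcB2 Cut.none Ext.none)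

def k0_pp_112 : ∃ t, chk3 f_pp_112 t 1 1 1 = true :=
  ⟨(l 4), by decide +kernel⟩

theorem c_pp_112 : CertB 536870912 536870912 536870912 536870912 858993459 64424510 3 eng mog cd1q1 cd4q1 pd2 true true true .dn 1 1 2
    ndB1q1 ndB4q1 pcB2 Cut.none Ext.none :=
  certB0 (fam := true) (s1 := true) (s2 := true) (a := 1) (b := 1) (c := 2) (cn := .dn) (n1 := ndB1q1) (n2 := ndB4q1) (pc := pcB2) (cut := Cut.none) (xt := Ext.none) (P1 := 536870912) (W1 := 536870912) (P2 := 536870912) (W2 := 536870912) (P3 := 858993459) (W3 := 64424510) (N0 := 3) (En := eng) (mo := mog) (C1 := cd1q1) (C2 := cd4q1) (C3 := pd2)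
    rfl k0_pp_112

noncomputable def f_pp_113 : ℕ → ℕ → ℕ → ℕ → Bool := onCell 536870912 536870912 536870912 536870912 858993459 64424510
    (rowB 3 eng mog cd1q1 cd4q1 pd3 0 true true true .nn 1 1 3 (qsf 536870912 536870912 536870912 536870912 3) ndB1q1 ndB4q1 pcB3 Cut.none Ext.none)

def k0_pp_113 : ∃ t, chk3 f_pp_113 t 1 1 1 = true :=
  ⟨(l 4), by decide +kernel⟩

theorem c_pp_113 : CertB 536870912 536870912 536870912 536870912 858993459 64424510 3 eng mog cd1q1 cd4q1 pd3 true true true .nn 1 1 3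
    ndB1q1 ndB4q1 pcB3 Cut.none Ext.none :=
  certB0 (fam := true) (s1 := true) (s2 := true) (a := 1) (b := 1) (c := 3) (cn := .nn) (n1 := ndB1q1) (n2 := ndB4q1) (pc := pcB3) (cut := Cut.none) (xt := Ext.none) (P1 := 536870912) (W1 := 536870912) (P2 := 536870912) (W2 := 536870912) (P3 := 858993459) (W3 := 64424510) (N0 := 3) (En := eng) (mo := mog) (C1 := cd1q1) (C2 := cd4q1) (C3 := pd3)
    rfl k0_pp_113

noncomputable def f_pp_123 : ℕ → ℕ → ℕ → ℕ → Bool := onCell 536870912 536870912 1073741824 536870912 858993459 64424510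
    (rowB 3 eng mog cd1q1 cd4q2 pd3 0 true true true .npn 1 2 3 (qsf 536870912 536870912 1073741824 536870912 3) ndB1q1 ndB4q2 pcB3 Cut.none Ext.none)

def k0_pp_123 : ∃ t, chk3 f_pp_123 t 1 1 1 = true :=
  ⟨(l 4), by decide +kernel⟩

theorem c_pp_123 : CertB 536870912 536870912 1073741824 536870912 858993459 64424510 3 eng mog cd1q1 cd4q2 pd3 true true true .npn 1 2 3
    ndB1q1 ndB4q2 pcB3 Cut.none Ext.none :=
  certB0 (fam := true) (s1 := true) (s2 := true) (a := 1) (b := 2) (c := 3) (cn := .npn) (n1 := ndB1q1) (n2 := ndB4q2) (pc := pcB3) (cut := Cut.none) (xt := Ext.none) (P1 := 536870912) (W1 := 536870912) (P2 := 1073741824) (W2 := 536870912) (P3 := 858993459) (W3 := 64424510) (N0 := 3) (En := eng) (mo := mog) (C1 := cd1q1) (C2 := cd4q2) (C3 := pd3)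
    rfl k0_pp_123

noncomputable def f_pp_133 : ℕ → ℕ → ℕ → ℕ → Bool := onCell 536870912 536870912 0 1230186008 858993459 64424510
    (rowB 3 eng mog cd1q1 cd4q3 pd3 0 true true true .dn 1 3 3 (qsf 536870912 536870912 0 1230186008 3) ndB1q1 ndB4q3 pcB3 Cut.none Ext.none)

def k0_pp_133 : ∃ t, chk3 f_pp_133 t 1 1 1 = true :=
  ⟨(l 4), by decide +kernel⟩

theorem c_pp_133 : CertB 536870912 536870912 0 1230186008 858993459 64424510 3 eng mog cd1q1 cd4q3 pd3 true true true .dn 1 3 3
    ndB1q1 ndB4q3 pcB3 Cut.none Ext.none :=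
  certB0 (fam := true) (s1 := true) (s2 := true) (a := 1) (b := 3) (c := 3) (cn := .dn) (n1 := ndB1q1) (n2 := ndB4q3) (pc := pcB3) (cut := Cut.none) (xt := Ext.none) (P1 := 536870912) (W1 := 536870912) (P2 := 0) (W2 := 1230186008) (P3 := 858993459) (W3 := 64424510) (N0 := 3) (En := eng) (mo := mog) (C1 := cd1q1) (C2 := cd4q3) (C3 := pd3)
    rfl k0_pp_133

noncomputable def f_pp_202_a : ℕ → ℕ → ℕ → ℕ → Bool := onCell 0 536870912 0 536870912 858993459 64424510
    (rowB 3 eng mog cd1q2a cd4q0 pd2 0 true true true .pp 2 0 2 (qsf 0 536870912 0 536870912 2) ndB1q2a ndB4q0 pcB2 Cut.none Ext.none)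

def k0_pp_202_a : ∃ t, chk3 f_pp_202_a t 1 1 1 = true :=
  ⟨(l 4), by decide +kernel⟩

theorem c_pp_202_a : CertB 0 536870912 0 536870912 858993459 64424510 3 eng mog cd1q2a cd4q0 pd2 true true true .pp 2 0 2
    ndB1q2a ndB4q0 pcB2 Cut.none Ext.none :=
  certB0 (fam := true) (s1 := true) (s2 := true) (a := 2) (b := 0) (c := 2) (cn := .pp) (n1 := ndB1q2a) (n2 := ndB4q0) (pc := pcB2) (cut := Cut.none) (xt := Ext.none) (P1 := 0) (W1 := 536870912) (P2 := 0) (W2 := 536870912) (P3 := 858993459) (W3 := 64424510) (N0 := 3) (En := eng) (mo := mog) (C1 := cd1q2a) (C2 := cd4q0) (C3 := pd2)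
    rfl k0_pp_202_a

noncomputable def f_pp_202_b : ℕ → ℕ → ℕ → ℕ → Bool := onCell 1239849684 370763052 0 536870912 858993459 64424510
    (rowB 3 eng mog cd1q2b cd4q0 pd2 0 true true true .pp 2 0 2 (qsf 1239849684 370763052 0 536870912 2) ndB1q2b ndB4q0 pcB2 Cut.none Ext.none)

def k0_pp_202_b : ∃ t, chk3 f_pp_202_b t 1 1 1 = true :=
  ⟨(l 4), by decide +kernel⟩

theorem c_pp_202_b : CertB 1239849684 370763052 0 536870912 858993459 64424510 3 eng mog cd1q2b cd4q0 pd2 true true true .pp 2 0 2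
    ndB1q2b ndB4q0 pcB2 Cut.none Ext.none :=
  certB0 (fam := true) (s1 := true) (s2 := true) (a := 2) (b := 0) (c := 2) (cn := .pp) (n1 := ndB1q2b) (n2 := ndB4q0) (pc := pcB2) (cut := Cut.none) (xt := Ext.none) (P1 := 1239849684) (W1 := 370763052) (P2 := 0) (W2 := 536870912) (P3 := 858993459) (W3 := 64424510) (N0 := 3) (En := eng) (mo := mog) (C1 := cd1q2b) (C2 := cd4q0) (C3 := pd2)
    rfl k0_pp_202_b

noncomputable def f_pp_203_a : ℕ → ℕ → ℕ → ℕ → Bool := onCell 0 536870912 0 536870912 858993459 64424510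
    (rowB 3 eng mog cd1q2a cd4q0 pd3 0 true true true .up 2 0 3 (qsf 0 536870912 0 536870912 3) ndB1q2a ndB4q0 pcB3 Cut.none Ext.none)

def k0_pp_203_a : ∃ t, chk3 f_pp_203_a t 1 1 1 = true :=
  ⟨(l 4), by decide +kernel⟩

theorem c_pp_203_a : CertB 0 536870912 0 536870912 858993459 64424510 3 eng mog cd1q2a cd4q0 pd3 true true true .up 2 0 3
    ndB1q2a ndB4q0 pcB3 Cut.none Ext.none :=
  certB0 (fam := true) (s1 := true) (s2 := true) (a := 2) (b := 0) (c := 3) (cn := .up) (n1 := ndB1q2a) (n2 := ndB4q0) (pc := pcB3) (cut := Cut.none) (xt := Ext.none) (P1 := 0) (W1 := 536870912) (P2 := 0) (W2 := 536870912) (P3 := 858993459) (W3 := 64424510) (N0 := 3) (En := eng) (mo := mog) (C1 := cd1q2a) (C2 := cd4q0) (C3 := pd3)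
    rfl k0_pp_203_a

noncomputable def f_pp_203_b : ℕ → ℕ → ℕ → ℕ → Bool := onCell 1239849684 370763052 0 536870912 858993459 64424510
    (rowB 3 eng mog cd1q2b cd4q0 pd3 0 true true true .up 2 0 3 (qsf 1239849684 370763052 0 536870912 3) ndB1q2b ndB4q0 pcB3 Cut.none Ext.none)

def k0_pp_203_b : ∃ t, chk3 f_pp_203_b t 1 1 1 = true :=
  ⟨(l 4), by decide +kernel⟩

theorem c_pp_203_b : CertB 1239849684 370763052 0 536870912 858993459 64424510 3 eng mog cd1q2b cd4q0 pd3 true true true .up 2 0 3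
    ndB1q2b ndB4q0 pcB3 Cut.none Ext.none :=
  certB0 (fam := true) (s1 := true) (s2 := true) (a := 2) (b := 0) (c := 3) (cn := .up) (n1 := ndB1q2b) (n2 := ndB4q0) (pc := pcB3) (cut := Cut.none) (xt := Ext.none) (P1 := 1239849684) (W1 := 370763052) (P2 := 0) (W2 := 536870912) (P3 := 858993459) (W3 := 64424510) (N0 := 3) (En := eng) (mo := mog) (C1 := cd1q2b) (C2 := cd4q0) (C3 := pd3)
    rfl k0_pp_203_b

noncomputable def f_pp_213_a : ℕ → ℕ → ℕ → ℕ → Bool := onCell 0 536870912 536870912 536870912 858993459 64424510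
    (rowB 3 eng mog cd1q2a cd4q1 pd3 0 true true true .pnn 2 1 3 (qsf 0 536870912 536870912 536870912 3) ndB1q2a ndB4q1 pcB3 Cut.none Ext.none)

def k0_pp_213_a : ∃ t, chk3 f_pp_213_a t 1 1 1 = true :=
  ⟨(l 4), by decide +kernel⟩

theorem c_pp_213_a : CertB 0 536870912 536870912 536870912 858993459 64424510 3 eng mog cd1q2a cd4q1 pd3 true true true .pnn 2 1 3
    ndB1q2a ndB4q1 pcB3 Cut.none Ext.none :=
  certB0 (fam := true) (s1 := true) (s2 := true) (a := 2) (b := 1) (c := 3) (cn := .pnn) (n1 := ndB1q2a) (n2 := ndB4q1) (pc := pcB3) (cut := Cut.none) (xt := Ext.none) (P1 := 0) (W1 := 536870912) (P2 := 536870912) (W2 := 536870912) (P3 := 858993459) (W3 := 64424510) (N0 := 3) (En := eng) (mo := mog) (C1 := cd1q2a) (C2 := cd4q1) (C3 := pd3)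
    rfl k0_pp_213_a

noncomputable def f_pp_213_b : ℕ → ℕ → ℕ → ℕ → Bool := onCell 1239849684 370763052 536870912 536870912 858993459 64424510
    (rowB 3 eng mog cd1q2b cd4q1 pd3 0 true true true .pnn 2 1 3 (qsf 1239849684 370763052 536870912 536870912 3) ndB1q2b ndB4q1 pcB3 Cut.none Ext.none)

def k0_pp_213_b : ∃ t, chk3 f_pp_213_b t 1 1 1 = true :=
  ⟨(l 4), by decide +kernel⟩

theorem c_pp_213_b : CertB 1239849684 370763052 536870912 536870912 858993459 64424510 3 eng mog cd1q2b cd4q1 pd3 true true true .pnn 2 1 3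
    ndB1q2b ndB4q1 pcB3 Cut.none Ext.none :=
  certB0 (fam := true) (s1 := true) (s2 := true) (a := 2) (b := 1) (c := 3) (cn := .pnn) (n1 := ndB1q2b) (n2 := ndB4q1) (pc := pcB3) (cut := Cut.none) (xt := Ext.none) (P1 := 1239849684) (W1 := 370763052) (P2 := 536870912) (W2 := 536870912) (P3 := 858993459) (W3 := 64424510) (N0 := 3) (En := eng) (mo := mog) (C1 := cd1q2b) (C2 := cd4q1) (C3 := pd3)
    rfl k0_pp_213_b

noncomputable def f_pp_303 : ℕ → ℕ → ℕ → ℕ → Bool := onCell 1610612736 536870912 0 536870912 858993459 64424510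
    (rowB 3 eng mog cd1q3 cd4q0 pd3 0 true true true .npn 3 0 3 (qsf 1610612736 536870912 0 536870912 3) ndB1q3 ndB4q0 pcB3 Cut.none Ext.none)

def k0_pp_303 : ∃ t, chk3 f_pp_303 t 1 1 1 = true :=
  ⟨(l 4), by decide +kernel⟩

theorem c_pp_303 : CertB 1610612736 536870912 0 536870912 858993459 64424510 3 eng mog cd1q3 cd4q0 pd3 true true true .npn 3 0 3
    ndB1q3 ndB4q0 pcB3 Cut.none Ext.none :=
  certB0 (fam := true) (s1 := true) (s2 := true) (a := 3) (b := 0) (c := 3) (cn := .npn) (n1 := ndB1q3) (n2 := ndB4q0) (pc := pcB3) (cut := Cut.none) (xt := Ext.none) (P1 := 1610612736) (W1 := 536870912) (P2 := 0) (W2 := 536870912) (P3 := 858993459) (W3 := 64424510) (N0 := 3) (En := eng) (mo := mog) (C1 := cd1q3) (C2 := cd4q0) (C3 := pd3)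
    rfl k0_pp_303

noncomputable def f_pp_313 : ℕ → ℕ → ℕ → ℕ → Bool := onCell 1610612736 536870912 536870912 536870912 858993459 64424510
    (rowB 3 eng mog cd1q3 cd4q1 pd3 0 true true true .dn 3 1 3 (qsf 1610612736 536870912 536870912 536870912 3) ndB1q3 ndB4q1 pcB3 Cut.none Ext.none)

def k0_pp_313 : ∃ t, chk3 f_pp_313 t 1 1 1 = true :=
  ⟨(l 4), by decide +kernel⟩

theorem c_pp_313 : CertB 1610612736 536870912 536870912 536870912 858993459 64424510 3 eng mog cd1q3 cd4q1 pd3 true true true .dn 3 1 3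
    ndB1q3 ndB4q1 pcB3 Cut.none Ext.none :=
  certB0 (fam := true) (s1 := true) (s2 := true) (a := 3) (b := 1) (c := 3) (cn := .dn) (n1 := ndB1q3) (n2 := ndB4q1) (pc := pcB3) (cut := Cut.none) (xt := Ext.none) (P1 := 1610612736) (W1 := 536870912) (P2 := 536870912) (W2 := 536870912) (P3 := 858993459) (W3 := 64424510) (N0 := 3) (En := eng) (mo := mog) (C1 := cd1q3) (C2 := cd4q1) (C3 := pd3)
    rfl k0_pp_313

noncomputable def f_pm_001 : ℕ → ℕ → ℕ → ℕ → Bool := onCell 0 536870912 536870912 536870912 858993459 64424510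
    (rowB 3 eng mog cd1q0 cd4q0 pd1 1 true true false .up 0 0 1 (qsf 0 536870912 0 536870912 1) ndB1q0 ndB4q0 pcB1 Cut.none Ext.none)

def k0_pm_001 : ∃ t, chk3 f_pm_001 t 1 1 1 = true :=
  ⟨(b (l 3) (b (l 3) (a (l 2) (a (b (l 3) (l 2)) (b (a (l 3) (b (l 3) (l 181629807975))) (a (b (b (l 16443240) (l 2)) (l 2)) (b (l 16455360) (l 16306304)))))))), by decide +kernel⟩

theorem c_pm_001 : CertB 0 536870912 0 536870912 858993459 64424510 3 eng mog cd1q0 cd4q0 pd1 true true false .up 0 0 1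
    ndB1q0 ndB4q0 pcB1 Cut.none Ext.none :=
  certB1 (fam := true) (s1 := true) (s2 := false) (a := 0) (b := 0) (c := 1) (cn := .up) (n1 := ndB1q0) (n2 := ndB4q0) (pc := pcB1) (cut := Cut.none) (xt := Ext.none) (P1 := 0) (W1 := 536870912) (P2 := 0) (W2 := 536870912) (P3 := 858993459) (W3 := 64424510) (N0 := 3) (En := eng) (mo := mog) (C1 := cd1q0) (C2 := cd4q0) (C3 := pd1)
    rfl (fun _ => rfl) k0_pm_001

noncomputable def cut_pm_011 : Cut := Cut.of [[⟨0, 0, 0, 67108864⟩, ⟨1, 1, 0, 67108864⟩, ⟨2, 1, 0, 67108864⟩]]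

noncomputable def f_pm_011 : ℕ → ℕ → ℕ → ℕ → Bool := onCell 0 536870912 536870912 536870912 858993459 64424510
    (rowB 3 eng mog cd1q0 cd4q1 pd1 1 true true false .pnn 0 1 1 (qsf 0 536870912 536870912 536870912 1) ndB1q0 ndB4q1 pcB1 cut_pm_011 Ext.none)

def k0_pm_011 : ∃ t, chk3 f_pm_011 t 1 1 1 = true :=
  ⟨(b (l 3) (b (l 3) (b (a (l 3) (a (l 3) (b (l 3) (a (l 3) (l 16415408))))) (b (a (l 3) (a (a (l 3) (b (l 3) (l 16480328))) (a (l 16466280) (l 16348520)))) (b (a (a (l 3) (l 3)) (a (a (c (l 16513296) (l 16518448)) (l 16444416)) (l 16483368))) (a (b (a (l 3) (a (l 3) (l 16578536))) (a (a (a (l 6) (l 3)) (a (l 3) (l 16703648))) (a (b (l 16695904) (l 16686736)) (l 16539976)))) (a (a (a (l 16497392) (l 16462976)) (l 16411344)) (l 16409264)))))))), by decide +kernel⟩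

theorem c_pm_011 : CertB 0 536870912 536870912 536870912 858993459 64424510 3 eng mog cd1q0 cd4q1 pd1 true true false .pnn 0 1 1
    ndB1q0 ndB4q1 pcB1 cut_pm_011 Ext.none :=
  certB1 (fam := true) (s1 := true) (s2 := false) (a := 0) (b := 1) (c := 1) (cn := .pnn) (n1 := ndB1q0) (n2 := ndB4q1) (pc := pcB1) (cut := cut_pm_011) (xt := Ext.none) (P1 := 0) (W1 := 536870912) (P2 := 536870912) (W2 := 536870912) (P3 := 858993459) (W3 := 64424510) (N0 := 3) (En := eng) (mo := mog) (C1 := cd1q0) (C2 := cd4q1) (C3 := pd1)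
    rfl (fun _ => rfl) k0_pm_011

noncomputable def cut_pm_012 : Cut := Cut.of [[⟨0, 0, 0, 67108864⟩, ⟨1, 1, 0, 67108864⟩, ⟨2, 1, 0, 67108864⟩]]

noncomputable def f_pm_012 : ℕ → ℕ → ℕ → ℕ → Bool := onCell 1073741824 536870912 536870912 536870912 858993459 64424510
    (rowB 3 eng mog cd1q0 cd4q1 pd2 2 true true false .pnp 0 1 2 (qsf 0 536870912 536870912 536870912 2) ndB1q0 ndB4q1 pcB2 cut_pm_012 Ext.none)

def k0_pm_012 : ∃ t, chk3 f_pm_012 t 4 2 1 = true :=
  ⟨(a (a (b (b (l 16181248) (l 16273512)) (b (l 16402800) (a (l 16442776) (l 16407640)))) (b (l 16334976) (b (l 16276616) (l 16325224)))) (b (a (l 16131144) (l 16079952)) (a (b (l 16190952) (l 16221152)) (b (l 16091368) (l 16040920))))), by decide +kernel⟩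

def k1_pm_012 : ∃ t, chk3 f_pm_012 t 8 3 1 = true :=
  ⟨(b (a (a (b (l 16563552) (b (l 16577504) (l 16667632))) (b (l 16464440) (b (l 16504896) (l 16527688)))) (b (c (l 16376768) (l 16359744)) (b (l 16399528) (a (l 16452672) (l 16379824))))) (a (b (c (a (b (l 16628824) (a (l 16680256) (l 16614816))) (b (l 16528120) (a (l 16592176) (l 16549336)))) (a (b (l 16631344) (a (l 16683656) (l 16634640))) (b (l 16522464) (a (l 16586544) (l 16539200))))) (a (b (a (b (b (l 16700216) (l 16749224)) (l 6)) (b (l 16649984) (c (a (l 6) (l 16659128)) (l 16623200)))) (l 6)) (b (b (c (a (l 16612056) (l 16567472)) (l 16494568)) (c (a (l 16624768) (l 16579384)) (a (l 16613504) (l 16562760)))) (a (l 6) (b (c (l 16593256) (l 16571664)) (l 6)))))) (a (b (b (l 16382800) (c (l 16487576) (l 16470792))) (b (a (c (l 16529000) (l 16509144)) (c (l 16464280) (l 16439656))) (b (c (a (l 16524112) (l 16500040)) (a (l 16499256) (l 16469680))) (a (l 6) (a (l 6) (b (l 16479072) (l 6))))))) (b (b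 (l 16389760) (b (l 16394688) (l 16397512))) (b (c (b (l 16416912) (l 16425120)) (b (l 16386848) (l 16391440))) (b (c (a (l 16455504) (l 16411576)) (l 16398136)) (c (b (l 16429232) (a (l 16466176) (l 16421400))) (b (l 16398344) (a (l 16425736) (l 16375008)))))))))), by decide +kernel⟩

def k2_pm_012 : ∃ t, chk3 f_pm_012 t 9 3 1 = true :=
  ⟨(b (a (b (c (l 16260296) (l 16232000)) (c (b (l 16278392) (l 16286648)) (l 16064912))) (b (a (l 16139696) (l 16106256)) (a (c (l 16187672) (l 16150224)) (l 16337760)))) (b (a (b (c (l 16291016) (l 16260336)) (a (c (l 16331184) (l 16299184)) (l 16299680))) (c (b (l 16236704) (a (l 16182432) (l 16110592))) (b (l 16091592) (l 16081352)))) (a (b (a (b (l 16294664) (a (l 16340568) (l 16294976))) (b (l 16232992) (l 16314184))) (a (b (c (l 16343536) (l 16298472)) (c (a (l 16373368) (l 16326376)) (a (l 16324496) (l 16275240)))) (b (c (l 16254416) (l 16203872)) (c (l 16258152) (l 16202808))))) (b (a (a (l 16171296) (l 16216224)) (c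 (l 16100416) (l 16049680))) (a (a (b (l 16164368) (l 16163032)) (c (l 16235208) (l 16152632))) (b (c (l 16092224) (l 16034984)) (c (l 16087208) (l 16024984)))))))), by decide +kernel⟩

def k3_pm_012 : ∃ t, chk3 f_pm_012 t 5 1 1 = true :=
  ⟨(b (b (a (a (a (l 16192304) (l 2)) (l 2)) (l 2)) (a (a (a (b (l 16058168) (l 16058056)) (c (b (l 16039696) (l 16035896)) (l 15811752))) (b (l 15977112) (l 15957032))) (b (l 15897288) (l 15852904)))) (b (a (a (a (b (l 16054272) (l 16110264)) (b (a (l 16016888) (l 15992968)) (a (l 16004432) (c (l 15997640) (l 15956456))))) (b (l 15934104) (l 15908816))) (b (l 15806104) (b (l 15770936) (l 15744048)))) (a (a (a (b (b (l 16033824) (l 16019776)) (b (c (l 16026496) (l 15978672)) (c (l 16011504) (l 15955536)))) (b (a (b (l 15986888) (l 15970232)) (c (l 16158312) (l 15927248))) (a (b (l 15950776) (l 16055184)) (b (a (l 15925888) (l 15910272)) (a (l 15903352) (c (l 15915816) (l 15857840))))))) (b (b (l 15881968) (l 15859280)) (b (l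 15875880) (c (l 15840336) (l 15772280))))) (b (b (l 15734192) (a (l 15736784) (l 15623968))) (b (a (l 15703936) (l 15583776)) (a (c (l 15709992) (l 15627464)) (l 15542056))))))), by decide +kernel⟩

def k4_pm_012 : ∃ t, chk3 f_pm_012 t 3 1 1 = true :=
  ⟨(b (a (b (l 2) (a (b (l 2) (l 15744464)) (l 2))) (l 2)) (b (a (b (a (l 15666936) (l 15563792)) (a (l 15650904) (l 15455600))) (a (b (l 2) (l 15360152)) (l 2))) (a (b (a (b (l 15521496) (l 15472760)) (l 15524888)) (a (b (l 15484696) (a (l 15424552) (l 15316840))) (b (l 15239536) (l 15173464)))) (b (a (l 15212680) (l 15126752)) (a (b (l 15095480) (l 15015968)) (l 14942856)))))), by decide +kernel⟩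

theorem s5_pm_012 : ∃ t, chk3 f_pm_012 t 4 3 1 = true := ex3_a k1_pm_012 k2_pm_012

theorem s6_pm_012 : ∃ t, chk3 f_pm_012 t 4 1 1 = true := ex3_b k0_pm_012 s5_pm_012

theorem s7_pm_012 : ∃ t, chk3 f_pm_012 t 2 1 1 = true := ex3_a s6_pm_012 k3_pm_012

theorem s8_pm_012 : ∃ t, chk3 f_pm_012 t 1 1 1 = true := ex3_a s7_pm_012 k4_pm_012

theorem c_pm_012 : CertB 0 536870912 536870912 536870912 858993459 64424510 3 eng mog cd1q0 cd4q1 pd2 true true false .pnp 0 1 2
    ndB1q0 ndB4q1 pcB2 cut_pm_012 Ext.none :=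
  certB2 (fam := true) (s1 := true) (s2 := false) (a := 0) (b := 1) (c := 2) (cn := .pnp) (n1 := ndB1q0) (n2 := ndB4q1) (pc := pcB2) (cut := cut_pm_012) (xt := Ext.none) (P1 := 0) (W1 := 536870912) (P2 := 536870912) (W2 := 536870912) (P3 := 858993459) (W3 := 64424510) (N0 := 3) (En := eng) (mo := mog) (C1 := cd1q0) (C2 := cd4q1) (C3 := pd2)
    rfl (fun _ => rfl) s8_pm_012

noncomputable def cut_pm_022 : Cut := Cut.of [[⟨0, 0, 0, 67108864⟩, ⟨1, 1, 0, 67108864⟩, ⟨2, 1, 0, 67108864⟩]]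

noncomputable def f_pm_022 : ℕ → ℕ → ℕ → ℕ → Bool := onCell 1073741824 536870912 1073741824 536870912 858993459 64424510
    (rowB 3 eng mog cd1q0 cd4q2 pd2 2 true true false .pp 0 2 2 (qsf 0 536870912 1073741824 536870912 2) ndB1q0 ndB4q2 pcB2 cut_pm_022 Ext.none)

def k0_pm_022 : ∃ t, chk3 f_pm_022 t 8 4 1 = true :=
  ⟨(b (a (b (l 6) (b (l 6) (l 1))) (b (a (l 6) (a (l 6) (a (l 6) (a (l 6) (a (l 6) (b (l 16419976) (l 16498768))))))) (a (b (l 6) (b (l 6) (l 1))) (b (a (l 6) (a (l 6) (b (l 16522688) (l 16601600)))) (a (b (l 6) (b (l 6) (l 1))) (b (a (l 6) (l 16637712)) (c (a (l 671658675623) (l 16579568)) (l 640520145911)))))))) (a (l 1) (b (a (l 1) (a (l 1) (a (l 1) (b (c (l 943315370551) (l 965327076855)) (l 1))))) (l 1)))), by decide +kernel⟩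

def k1_pm_022 : ∃ t, chk3 f_pm_022 t 9 4 1 = true :=
  ⟨(c (b (a (b (a (b (a (l 16414496) (l 16367240)) (a (l 16487624) (l 16440768))) (b (l 16298320) (l 16393456))) (a (b (b (a (l 16540632) (l 16493904)) (l 16530656)) (a (l 16562360) (l 16578800))) (b (l 16527312) (l 16479816)))) (b (a (a (l 16290376) (l 16226624)) (b (l 16123232) (l 16198008))) (a (c (a (l 16419776) (l 16378600)) (b (l 16347376) (l 16418256))) (b (l 16270256) (l 16339464))))) (a (b (a (b (a (b (l 646962545687) (l 940094127767)) (a (l 485364362247) (l 16532672))) (a (l 1) (l 939020328055))) (b (a (l 16597304) (l 16554184)) (a (l 1014719133671) (l 466036919767)))) (a (l 1) (b (l 934188443159) (l 1)))) (b (a (a (l 16479680) (l 16458992)) (b (l 16342336) (l 16467696))) (a (b (a (l 988412382071) (l 462278726231)) (a (l 1) (l 922377176487))) (b (l 16522216) (a (l 684006341815) (l 16440432))))))) (b (a (b (a (b (a (l 16368840) (l 16318824)) (a (l 16453792) (l 16403712))) (b (l 16245616) (l 16330352)))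 (a (a (b (l 16430432) (l 16591984)) (b (l 16485464) (l 16563408))) (b (l 16496080) (c (l 16433088) (l 16421992))))) (a (b (a (l 16216840) (l 16170336)) (c (b (l 16327720) (l 16403704)) (b (l 16306904) (l 16388208)))) (b (c (l 16120624) (l 16092296)) (b (l 16230840) (l 16309432))))) (a (b (b (a (a (b (l 658773716263) (l 939020386487)) (l 483216867239)) (l 16543872)) (a (a (l 1) (l 941704676199)) (a (l 1030288391559) (l 481069312711)))) (a (l 1) (b (l 940630913943) (l 1)))) (b (a (a (l 16487808) (l 16420848)) (b (l 16384624) (l 16455856))) (b (a (a (l 1032972669655) (l 16440000)) (l 16522616)) (a (a (l 1) (l 927209010215)) (l 633003581815))))))), by decide +kernel⟩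

def k2_pm_022 : ∃ t, chk3 f_pm_022 t 4 5 1 = true :=
  ⟨(a (l 1) (b (a (l 1) (b (a (l 1) (b (a (l 1) (l 894459828679)) (l 1))) (l 1))) (l 1))), by decide +kernel⟩

def k3_pm_022 : ∃ t, chk3 f_pm_022 t 5 2 1 = true :=
  ⟨(b (a (a (b (a (b (c (b (l 16040440) (l 16113552)) (l 16027096)) (c (l 16263064) (l 16190128))) (a (b (c (l 16019592) (l 15970104)) (l 16146936)) (b (a (l 15968248) (c (l 15977824) (l 15925208))) (a (l 16118936) (c (l 16118376) (l 16084656)))))) (a (b (c (a (l 16374144) (l 16334200)) (l 16193824)) (c (b (l 16445048) (l 16485424)) (b (l 16443360) (l 16481792)))) (b (a (c (l 16296016) (l 16282496)) (a (l 16261568) (c (l 16253088) (l 16235728)))) (a (c (l 16416176) (l 16417752)) (c (a (l 16389672) (l 16374232)) (l 16380656)))))) (c (b (b (l 15900656) (l 16039520)) (b (l 16193512) (l 16294776))) (b (b (l 15837864) (l 15995616)) (b (l 16207864) (l 16280920))))) (b (a (b (c (l 15766888) (l 15689792)) (l 15855336)) (b (l 15598232) (l 15746104))) (b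 (a (c (l 16034400) (l 15993032)) (l 15883360)) (a (c (l 16156544) (l 16128528)) (l 16009576))))) (a (b (a (a (b (b (c (l 597033145831) (l 590590687831)) (a (l 1) (l 918082047239))) (l 1)) (b (a (c (l 462815327799) (l 488585106727)) (a (b (l 16440552) (l 16354376)) (a (l 254509406951) (l 16291216)))) (a (l 1) (b (a (l 1) (c (l 797285855191) (l 828961229735))) (l 1))))) (b (c (l 16339032) (l 16337536)) (a (b (l 571263173975) (l 738230123207)) (c (l 16237376) (l 16232520))))) (a (l 1) (b (c (l 932577289559) (l 952978338823)) (l 1)))) (b (b (a (b (l 16125960) (l 16284376)) (c (l 16138816) (l 16110256))) (a (a (l 16219456) (l 16322664)) (l 16225360))) (c (b (a (a (l 590053388183) (l 16225384)) (l 16269264)) (a (l 914323526487) (l 551398451879))) (b (a (l 562672891415) (l 16279608)) (a (l 928819002759) (l 553545926775))))))), by decide +kernel⟩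

def k4_pm_022 : ∃ t, chk3 f_pm_022 t 2 3 1 = true :=
  ⟨(a (l 1) (b (a (l 1) (b (b (a (l 1) (a (l 1) (l 718365479671))) (l 1)) (l 1))) (l 1))), by decide +kernel⟩

def k5_pm_022 : ∃ t, chk3 f_pm_022 t 3 1 1 = true :=
  ⟨(b (b (a (b (a (b (a (l 15477288) (l 15366072)) (a (l 15625512) (l 15514416))) (c (l 15350312) (l 15230616))) (a (b (a (l 15763464) (l 15652848)) (a (l 15889520) (l 15779728))) (c (l 15608632) (l 15527336)))) (b (a (b (l 15052280) (l 15199128)) (l 14997656)) (a (b (l 15337352) (l 15465296)) (l 15270624)))) (a (b (a (b (a (l 16003112) (l 15893488)) (a (l 16104144) (l 15993496))) (b (l 15746880) (l 15847936))) (a (b (a (l 16191496) (l 16081920)) (c (l 16049264) (l 16142752))) (b (l 15726896) (l 16015584)))) (b (a (c (l 15667896) (l 15597576)) (l 15501960)) (a (b (l 15774672) (l 15855432)) (l 15687256))))) (a (b (b (a (b (a (c (l 544955861879) (l 547103331607)) (l 16061432)) (c (l 839161418935) (l 854193725559))) (b (l 16081800) (a (l 16050216)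 (l 16058608)))) (a (a (l 1) (b (l 870836506375) (l 1))) (a (b (l 534754974775) (l 856878053223)) (b (l 15977496) (l 15972448))))) (a (l 1) (b (a (l 1) (b (l 848824836535) (l 1))) (l 1)))) (b (b (a (b (l 15925304) (l 15981528)) (l 15831824)) (a (a (l 200821096519) (l 15959616)) (l 15923288))) (b (a (b (a (l 15816984) (l 15838192)) (a (l 841308510007) (l 15747808))) (b (l 15864680) (l 15785384))) (a (a (l 1) (b (l 834865930071) (l 1))) (b (l 664140861767) (l 734471119223))))))), by decide +kernel⟩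

theorem s6_pm_022 : ∃ t, chk3 f_pm_022 t 4 4 1 = true := ex3_a k0_pm_022 k1_pm_022

theorem s7_pm_022 : ∃ t, chk3 f_pm_022 t 4 2 1 = true := ex3_b s6_pm_022 k2_pm_022

theorem s8_pm_022 : ∃ t, chk3 f_pm_022 t 2 2 1 = true := ex3_a s7_pm_022 k3_pm_022

theorem s9_pm_022 : ∃ t, chk3 f_pm_022 t 2 1 1 = true := ex3_b s8_pm_022 k4_pm_022

theorem s10_pm_022 : ∃ t, chk3 f_pm_022 t 1 1 1 = true := ex3_a s9_pm_022 k5_pm_022

theorem c_pm_022 : CertB 0 536870912 1073741824 536870912 858993459 64424510 3 eng mog cd1q0 cd4q2 pd2 true true false .pp 0 2 2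
    ndB1q0 ndB4q2 pcB2 cut_pm_022 Ext.none :=
  certB2 (fam := true) (s1 := true) (s2 := false) (a := 0) (b := 2) (c := 2) (cn := .pp) (n1 := ndB1q0) (n2 := ndB4q2) (pc := pcB2) (cut := cut_pm_022) (xt := Ext.none) (P1 := 0) (W1 := 536870912) (P2 := 1073741824) (W2 := 536870912) (P3 := 858993459) (W3 := 64424510) (N0 := 3) (En := eng) (mo := mog) (C1 := cd1q0) (C2 := cd4q2) (C3 := pd2)
    rfl (fun _ => rfl) s10_pm_022

noncomputable def f_pm_023 : ℕ → ℕ → ℕ → ℕ → Bool := onCell 1610612736 536870912 1073741824 536870912 858993459 64424510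
    (rowB 3 eng mog cd1q0 cd4q2 pd3 2 true true false .up 0 2 3 (qsf 0 536870912 1073741824 536870912 3) ndB1q0 ndB4q2 pcB3 Cut.none Ext.none)

def k0_pm_023 : ∃ t, chk3 f_pm_023 t 1 1 1 = true :=
  ⟨(a (b (a (b (b (a (l 14929392) (l 14868216)) (a (l 15202776) (l 15135984))) (b (a (l 15436296) (l 15366912)) (a (l 15625064) (l 15555872)))) (b (a (b (l 2) (l 15094776)) (l 2)) (a (b (l 15320008) (l 15507048)) (b (l 15301256) (l 15482216))))) (b (a (b (l 15822160) (l 16068128)) (b (l 15644064) (l 15751928))) (a (b (a (l 15816920) (l 15820288)) (a (b (l 15721640) (l 15684776)) (l 15734824))) (b (l 15796320) (l 15789888))))) (b (a (a (b (l 2) (a (l 15402840) (l 2))) (l 2)) (l 2)) (a (a (b (l 15692536) (l 15789736)) (b (b (a (l 15666600) (l 2)) (l 15783192)) (l 15828208))) (b (a (a (b (l 2) (l 15846064)) (l 2)) (l 2)) (a (a (l 15931680) (l 15993088)) (a (l 16048752) (a (l 16088552) (a (l 16104840) (a (l 16113752) (l 15988384)))))))))), by decide +kernel⟩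

theorem c_pm_023 : CertB 0 536870912 1073741824 536870912 858993459 64424510 3 eng mog cd1q0 cd4q2 pd3 true true false .up 0 2 3
    ndB1q0 ndB4q2 pcB3 Cut.none Ext.none :=
  certB2 (fam := true) (s1 := true) (s2 := false) (a := 0) (b := 2) (c := 3) (cn := .up) (n1 := ndB1q0) (n2 := ndB4q2) (pc := pcB3) (cut := Cut.none) (xt := Ext.none) (P1 := 0) (W1 := 536870912) (P2 := 1073741824) (W2 := 536870912) (P3 := 858993459) (W3 := 64424510) (N0 := 3) (En := eng) (mo := mog) (C1 := cd1q0) (C2 := cd4q2) (C3 := pd3)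
    rfl (fun _ => rfl) k0_pm_023

noncomputable def f_pm_033 : ℕ → ℕ → ℕ → ℕ → Bool := onCell 1610612736 536870912 0 1230186008 858993459 64424510
    (rowB 3 eng mog cd1q0 cd4q3 pd3 2 true true false .pnn 0 3 3 (qsf 0 536870912 0 1230186008 3) ndB1q0 ndB4q3 pcB3 Cut.none Ext.none)

def k0_pm_033 : ∃ t, chk3 f_pm_033 t 1 1 1 = true :=
  ⟨(a (b (l 1) (b (b (l 1) (a (l 1) (a (l 1) (b (l 1) (l 841844793047))))) (b (a (l 1) (b (a (l 815000540775) (l 676488730231)) (a (l 787084030007) (l 15554320)))) (a (b (a (l 1) (b (l 802653235863) (l 15455288))) (a (b (l 791915945543) (l 685078870679)) (b (l 15550016) (l 15636776)))) (b (a (b (l 15503520) (l 15580720)) (l 15660472)) (a (l 15682864) (l 15758616))))))) (a (b (l 1) (b (a (b (l 1) (b (a (l 811243181271) (l 15498376)) (l 607232471719))) (b (a (b (l 1) (l 745208153703)) (b (l 795673873783) (l 15682944))) (a (b (l 15656080) (l 15677256)) (b (l 15765728) (l 15819176))))) (b (a (b (l 15566424) (l 15666048)) (b (l 15774280)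 (l 15796072))) (b (a (l 15759256) (l 15828208)) (l 15841440))))) (a (b (b (l 1) (b (a (l 1) (l 4)) (a (a (l 988947998311) (l 15699160)) (l 379598980407)))) (b (a (b (b (l 15694328) (a (l 15709936) (l 15754432))) (b (a (l 15793968) (l 15813560)) (a (l 15877888) (l 15879928)))) (b (a (l 15804320) (l 15867304)) (b (l 15886808) (l 15938616)))) (a (b (b (l 15916120) (l 15935744)) (b (l 15958640) (l 15982576))) (b (b (l 15951080) (l 16006064)) (b (l 16038296) (l 16055760)))))) (b (b (l 4) (b (l 4) (l 4))) (a (b (b (a (l 15887992) (l 15919136)) (b (l 15992288) (l 16013536))) (b (b (l 16065344) (l 16082704)) (b (l 16115480) (l 16121272)))) (b (b (l 4) (a (l 16058224) (l 4))) (a (b (l 16084272) (l 15940992)) (b (a (l 16167432) (b (l 4) (l 16169528))) (a (b (l 16199792) (l 16185512)) (b (l 16023272) (a (l 16195440) (l 16201936)))))))))))), by decide +kernel⟩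

theorem c_pm_033 : CertB 0 536870912 0 1230186008 858993459 64424510 3 eng mog cd1q0 cd4q3 pd3 true true false .pnn 0 3 3
    ndB1q0 ndB4q3 pcB3 Cut.none Ext.none :=
  certB2 (fam := true) (s1 := true) (s2 := false) (a := 0) (b := 3) (c := 3) (cn := .pnn) (n1 := ndB1q0) (n2 := ndB4q3) (pc := pcB3) (cut := Cut.none) (xt := Ext.none) (P1 := 0) (W1 := 536870912) (P2 := 0) (W2 := 1230186008) (P3 := 858993459) (W3 := 64424510) (N0 := 3) (En := eng) (mo := mog) (C1 := cd1q0) (C2 := cd4q3) (C3 := pd3)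
    rfl (fun _ => rfl) k0_pm_033

noncomputable def f_pm_101 : ℕ → ℕ → ℕ → ℕ → Bool := onCell 536870912 536870912 536870912 536870912 858993459 64424510
    (rowB 3 eng mog cd1q1 cd4q0 pd1 1 true true false .npn 1 0 1 (qsf 536870912 536870912 0 536870912 1) ndB1q1 ndB4q0 pcB1 Cut.none Ext.none)

def k0_pm_101 : ∃ t, chk3 f_pm_101 t 1 2 1 = true :=
  ⟨(a (l 3) (a (l 3) (l 1))), by decide +kernel⟩

def k1_pm_101 : ∃ t, chk3 f_pm_101 t 2 3 1 = true :=
  ⟨(b (a (l 3) (b (l 3) (a (a (l 3) (b (l 3) (c (l 150490371303) (l 16292080)))) (b (a (l 3) (c (l 15954256) (l 16208848))) (c (c (l 79086517591) (l 16000112)) (c (l 16127928) (l 16238536))))))) (a (a (b (b (l 3) (c (c (a (c (l 15969232) (l 16059800)) (l 16120072)) (a (l 16199752) (l 16171976))) (c (l 16337904) (l 16303296)))) (c (b (c (a (c (l 15915176) (l 16003688)) (l 15940520)) (a (l 16139992) (l 16113656))) (c (a (l 16053448) (l 15889632)) (a (l 16080648) (l 16055392)))) (b (c (l 16275488) (l 16204768)) (c (l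 16210072) (l 16092768))))) (b (b (b (l 3) (c (a (l 356648316759) (l 16058304)) (l 16250616))) (c (c (a (l 15969376) (l 15939272)) (l 16116760)) (c (l 16253232) (l 16274824)))) (c (b (c (a (l 15917472) (l 15889984)) (l 16061344)) (c (a (l 15868536) (l 15843512)) (l 16005080))) (b (c (l 16193672) (l 16174512)) (c (l 16128792) (l 16059496)))))) (b (c (a (b (c (a (l 15952952) (l 15908712)) (l 16074960)) (c (a (l 15904008) (l 15863304)) (l 16023752))) (b (c (l 16061296) (l 15951656)) (c (l 15958040) (l 15906248)))) (a (b (c (l 16207176) (l 16320200)) (c (l 16150816) (l 16231808))) (b (c (l 16075024) (l 16168864)) (c (l 16023184) (l 16104784))))) (c (a (b (c (a (l 15857728) (l 15820832)) (l 15973104)) (c (l 16027592) (l 15922232))) (b (c (l 15775624) (l 15862328)) (c (l 15743376) (l 15797376)))) (a (b (c (l 16092608) (l 16136888)) (c (l 16029272) (l 16028792))) (b (l 15801808) (l 15796688))))))), by decide +kernel⟩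

def k2_pm_101 : ∃ t, chk3 f_pm_101 t 3 3 1 = true :=
  ⟨(b (b (a (a (a (l 3) (b (l 3) (c (l 16127960) (l 16119208)))) (a (b (l 1) (c (l 259340988263) (l 16062360))) (l 1))) (l 1)) (b (a (a (c (a (l 15873760) (l 66738420407)) (a (l 16129904) (l 16044336))) (c (a (l 15940624) (l 15792528)) (a (l 15958680) (l 15885432)))) (l 1)) (a (a (a (c (l 15899392) (l 16056376)) (c (l 15763760) (l 15961952))) (c (a (l 15724272) (l 15688240)) (a (l 15876384) (l 15790384)))) (a (a (c (l 15668776) (l 15718424)) (l 1)) (l 1))))) (a (b (a (c (b (c (l 15838104) (l 15804480)) (a (l 15860560) (l 15687200))) (b (a (l 16006960) (l 15907656)) (a (l 15955056) (l 15858152)))) (c (b (a (l 15645768) (l 15595960)) (a (l 15614160) (l 15536528))) (b (a (l 15795384) (l 15693520)) (l 15686752)))) (a (c (b (c (l 15651456) (l 15727240)) (a (l 15690976) (l 15630528))) (b (l 15852104) (l 15790720))) (b (c (a (l 15587376) (l 15513560)) (l 15636656)) (c (a (l 15565288) (l 15495384)) (l 15581168)))))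 (b (b (a (a (c (l 15563968) (l 15608040)) (a (l 305511144279) (l 1))) (l 1)) (a (a (c (l 15468680) (l 15497040)) (b (l 15660536) (c (l 15413984) (l 15379584)))) (a (a (a (l 15393800) (l 1)) (l 1)) (l 1)))) (a (c (b (a (l 15435472) (l 15353232)) (a (l 15421440) (l 15343184))) (b (a (l 15446112) (l 15305176)) (a (l 15395064) (l 15255696)))) (c (b (a (l 15347024) (l 479456724039)) (a (l 15237184) (l 15207552))) (b (a (l 15221664) (l 465497715847)) (a (l 15086416) (l 14978536)))))))), by decide +kernel⟩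

theorem s3_pm_101 : ∃ t, chk3 f_pm_101 t 1 3 1 = true := ex3_a k1_pm_101 k2_pm_101

theorem s4_pm_101 : ∃ t, chk3 f_pm_101 t 1 1 1 = true := ex3_b k0_pm_101 s3_pm_101

theorem c_pm_101 : CertB 536870912 536870912 0 536870912 858993459 64424510 3 eng mog cd1q1 cd4q0 pd1 true true false .npn 1 0 1
    ndB1q1 ndB4q0 pcB1 Cut.none Ext.none :=
  certB1 (fam := true) (s1 := true) (s2 := false) (a := 1) (b := 0) (c := 1) (cn := .npn) (n1 := ndB1q1) (n2 := ndB4q0) (pc := pcB1) (cut := Cut.none) (xt := Ext.none) (P1 := 536870912) (W1 := 536870912) (P2 := 0) (W2 := 536870912) (P3 := 858993459) (W3 := 64424510) (N0 := 3) (En := eng) (mo := mog) (C1 := cd1q1) (C2 := cd4q0) (C3 := pd1)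
    rfl (fun _ => rfl) s4_pm_101

noncomputable def f_pm_102 : ℕ → ℕ → ℕ → ℕ → Bool := onCell 536870912 536870912 1073741824 536870912 858993459 64424510
    (rowB 3 eng mog cd1q1 cd4q0 pd2 1 true true false .npp 1 0 2 (qsf 536870912 536870912 0 536870912 2) ndB1q1 ndB4q0 pcB2 Cut.none Ext.none)

def k0_pm_102 : ∃ t, chk3 f_pm_102 t 2 1 1 = true :=
  ⟨(b (b (a (b (a (c (b (c (a (l 15842032) (l 15818728)) (l 15991552)) (c (a (l 15813416) (l 15798008)) (l 15971304))) (b (c (l 16115528) (l 15977512)) (a (l 16137792) (l 16097880)))) (c (b (c (a (l 15790144) (l 15756216)) (l 15913592)) (c (l 15868088) (l 15913440))) (b (a (l 15994080) (l 15958224)) (l 16046080)))) (b (a (c (a (l 2) (l 15851936)) (l 15961496)) (c (a (l 15835768) (l 15813600)) (l 16102976))) (a (l 2) (c (a (l 15809040) (l 15795352)) (l 16109440))))) (b (a (c (b (a (l 15779128) (l 15728056)) (a (l 15787472) (l 15745352))) (b (l 15899056) (l 15973448))) (c (c (a (l 15635112) (l 15594552)) (l 15708248))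 (a (l 15859640) (l 15804760)))) (a (c (b (a (l 15785712) (l 15752048)) (a (l 15775840) (l 15750720))) (b (l 16021296) (l 16038136))) (c (b (l 15692328) (l 15869360)) (b (l 15914824) (l 15943000)))))) (a (b (a (l 2) (a (l 2) (b (b (l 152032939175) (l 2)) (l 2)))) (l 2)) (a (b (c (b (b (l 15757680) (b (l 15753704) (l 15750008))) (l 15731032)) (b (b (l 16030784) (l 16020336)) (l 16003896))) (c (a (l 2) (l 15681504)) (l 15949968))) (b (a (b (b (l 15848552) (c (l 15769880) (l 15966880))) (l 15836800)) (c (l 15696824) (l 15917544))) (c (a (l 15680400) (l 15669264)) (l 15912136)))))) (a (l 2) (b (a (l 2) (b (c (a (l 2) (l 15615656)) (l 15841384)) (l 2))) (l 2)))), by decide +kernel⟩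

def k1_pm_102 : ∃ t, chk3 f_pm_102 t 3 1 1 = true :=
  ⟨(b (a (b (b (a (c (b (a (l 15573040) (l 15518208)) (l 15768536)) (b (l 15670696) (l 15732696))) (c (b (l 15551760) (l 15466048)) (b (l 15488808) (l 15549504)))) (a (c (b (l 15605304) (l 15624360)) (b (l 15781056) (l 15813352))) (c (b (l 15498648) (l 15524792)) (b (l 15598992) (l 15635544))))) (b (a (c (b (l 15644856) (l 15649048)) (l 15822096)) (c (b (l 15552008) (l 15564760)) (l 15656400))) (a (c (l 15758168) (l 15819424)) (c (l 15561272) (l 15673288))))) (b (b (a (c (b (l 15292424) (l 15333984)) (b (l 15258840) (l 15320016))) (c (b (l 15148504) (l 15187520)) (a (l 15094792) (l 14956960)))) (a (c (b (l 15368984) (l 15399128)) (b (l 15371264) (l 15411240))) (b (c (l 15220704) (l 15107664)) (c (l 15250752) (l 15148376))))) (b (a (c (l 15523056) (l 15671400)) (c (l 15290800) (l 15203856))) (a (c (l 15456928) (l 15473232)) (c (l 15319280) (l 15222208)))))) (a (b (a (b (c (l 15594376) (l 15778360)) (c (l 15540080)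 (l 15661024))) (b (c (l 15541592) (l 15657720)) (c (l 15508968) (l 15612480)))) (a (l 2) (b (a (l 2) (l 15489464)) (l 2)))) (b (a (b (c (l 15454392) (l 15477480)) (c (l 15441104) (l 15457944))) (b (c (l 15330688) (l 15239592)) (c (l 15338616) (l 15238816)))) (a (b (c (l 15428128) (l 15422720)) (a (l 2) (l 15384000))) (b (l 15456312) (l 15539152)))))), by decide +kernel⟩

theorem s2_pm_102 : ∃ t, chk3 f_pm_102 t 1 1 1 = true := ex3_a k0_pm_102 k1_pm_102

theorem c_pm_102 : CertB 536870912 536870912 0 536870912 858993459 64424510 3 eng mog cd1q1 cd4q0 pd2 true true false .npp 1 0 2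
    ndB1q1 ndB4q0 pcB2 Cut.none Ext.none :=
  certB1 (fam := true) (s1 := true) (s2 := false) (a := 1) (b := 0) (c := 2) (cn := .npp) (n1 := ndB1q1) (n2 := ndB4q0) (pc := pcB2) (cut := Cut.none) (xt := Ext.none) (P1 := 536870912) (W1 := 536870912) (P2 := 0) (W2 := 536870912) (P3 := 858993459) (W3 := 64424510) (N0 := 3) (En := eng) (mo := mog) (C1 := cd1q1) (C2 := cd4q0) (C3 := pd2)
    rfl (fun _ => rfl) s2_pm_102

noncomputable def f_pm_112 : ℕ → ℕ → ℕ → ℕ → Bool := onCell 536870912 536870912 1073741824 536870912 858993459 64424510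
    (rowB 3 eng mog cd1q1 cd4q1 pd2 1 true true false .dn 1 1 2 (qsf 536870912 536870912 536870912 536870912 2) ndB1q1 ndB4q1 pcB2 Cut.none Ext.none)

def k0_pm_112 : ∃ t, chk3 f_pm_112 t 1 2 1 = true :=
  ⟨(b (a (b (a (c (a (c (b (l 15853456) (l 15808016)) (l 15839616)) (c (l 293163565111) (l 15918096))) (a (c (l 16137264) (b (l 15975440) (l 16046952))) (l 367251224919))) (l 1)) (a (c (a (b (c (l 15776536) (l 15945104)) (a (l 15820616) (l 15818920))) (b (c (l 15750288) (l 15905304)) (l 15804664))) (a (b (l 16169976) (l 16160272)) (b (l 16102704) (l 16112808)))) (a (a (c (l 260414066903) (l 16056960)) (l 1)) (l 1)))) (l 1)) (b (a (a (c (b (b (a (l 15787144) (l 15785424)) (a (c (l 15684064) (l 15843264)) (b (l 15773840) (l 15765064)))) (a (l 15720032) (l 15738872))) (b (c (b (l 16033712) (l 16009592)) (a (l 16159272) (l 16119352))) (a (l 16048384) (l 16043872)))) (a (c (b (b (l 15760384) (b (l 15755968) (l 15752328))) (l 15735520)) (c (l 15958448) (l 16075280)))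 (a (b (l 1) (l 15838576)) (l 1)))) (l 1)) (a (a (c (a (c (l 15553712) (l 15696672)) (c (l 15599960) (l 15737720))) (a (l 15873776) (l 15964480))) (c (a (l 15685096) (l 15679952)) (a (l 15960408) (l 15920480)))) (a (a (c (l 15639112) (l 15826800)) (l 1)) (l 1))))), by decide +kernel⟩

def k1_pm_112 : ∃ t, chk3 f_pm_112 t 1 3 1 = true :=
  ⟨(a (a (b (a (c (b (c (l 15418256) (l 15540256)) (c (l 15268264) (l 15363776))) (b (l 15755592) (c (l 15480016) (l 15616304)))) (c (b (l 15653904) (l 15414384)) (b (l 15819456) (l 15640896)))) (a (c (b (c (l 15103336) (l 15164000)) (c (l 14934032) (l 14947176))) (b (a (l 15264160) (l 15340064)) (a (l 14974992) (l 15072632)))) (c (b (l 15266048) (l 15102208)) (b (l 15352992) (a (l 15161888) (l 15241160)))))) (b (a (c (b (l 15599568) (l 15493384)) (b (l 15854464) (l 15710904))) (b (c (l 15621400) (l 15852432)) (c (l 15546376) (l 15745824)))) (a (b (c (l 15375168) (l 15539432)) (c (l 15248152) (l 15346360))) (b (c (l 15456216)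 (l 15609056)) (c (l 15359832) (l 15450296)))))) (a (b (a (c (b (l 15602168) (l 15550000)) (b (l 15786968) (l 15714032))) (b (c (l 15548192) (l 15665040)) (c (l 15516456) (l 15620840)))) (a (b (c (l 15489288) (l 15613288)) (c (l 15421920) (l 15492168))) (b (l 15510312) (l 15704640)))) (b (a (b (l 1) (l 15576616)) (l 1)) (a (b (l 15427000) (l 15407024)) (b (l 15293808) (l 15313984)))))), by decide +kernel⟩

theorem s2_pm_112 : ∃ t, chk3 f_pm_112 t 1 1 1 = true := ex3_b k0_pm_112 k1_pm_112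

theorem c_pm_112 : CertB 536870912 536870912 536870912 536870912 858993459 64424510 3 eng mog cd1q1 cd4q1 pd2 true true false .dn 1 1 2
    ndB1q1 ndB4q1 pcB2 Cut.none Ext.none :=
  certB1 (fam := true) (s1 := true) (s2 := false) (a := 1) (b := 1) (c := 2) (cn := .dn) (n1 := ndB1q1) (n2 := ndB4q1) (pc := pcB2) (cut := Cut.none) (xt := Ext.none) (P1 := 536870912) (W1 := 536870912) (P2 := 536870912) (W2 := 536870912) (P3 := 858993459) (W3 := 64424510) (N0 := 3) (En := eng) (mo := mog) (C1 := cd1q1) (C2 := cd4q1) (C3 := pd2)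
    rfl (fun _ => rfl) s2_pm_112

noncomputable def f_pm_113 : ℕ → ℕ → ℕ → ℕ → Bool := onCell 536870912 536870912 1610612736 536870912 858993459 64424510
    (rowB 3 eng mog cd1q1 cd4q1 pd3 1 true true false .nn 1 1 3 (qsf 536870912 536870912 536870912 536870912 3) ndB1q1 ndB4q1 pcB3 Cut.none Ext.none)

def k0_pm_113 : ∃ t, chk3 f_pm_113 t 1 1 1 = true :=
  ⟨(a (b (b (a (a (c (b (l 379127962663) (l 368390157495)) (b (l 401676556135) (l 378590514599))) (b (c (l 14934056) (l 15051472)) (c (l 14759656) (l 14685792)))) (c (a (b (l 15109640) (l 14971416)) (b (l 15276792) (l 15181488))) (a (b (a (l 15081960) (l 15163944)) (l 14876864)) (b (l 15276088) (l 15080368))))) (a (b (a (l 2) (c (l 14596752) (l 361410490695))) (l 2)) (b (a (c (l 14838224) (l 14610952)) (c (l 15098976) (l 14864776))) (a (c (l 14734864) (l 382348392183)) (c (l 15041096) (l 14634048)))))) (a (l 2) (b (b (a (l 2) (c (l 15091304) (l 410802634471))) (l 2)) (l 2)))) (b (b (a (a (b (c (l 15432064)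 (l 15402072)) (c (l 15387984) (l 15264992))) (b (c (l 15568792) (l 15493984)) (l 15594456))) (b (a (l 15604288) (l 15633072)) (a (l 15680120) (l 15680376)))) (a (b (a (c (l 15365584) (l 15120424)) (l 15483848)) (a (c (l 15379656) (l 14967040)) (c (l 15727296) (l 15323032)))) (b (a (l 15688616) (l 15819744)) (a (l 15852048) (l 16119728))))) (a (b (b (a (c (l 15442024) (l 14810696)) (c (l 15919168) (l 15316768))) (a (b (l 15070320) (l 2)) (c (l 15789048) (l 15379144)))) (a (l 2) (b (b (l 15504640) (l 2)) (l 2)))) (b (b (a (l 16018544) (l 16220208)) (a (l 15864416) (b (l 16118528) (l 16059688)))) (b (b (a (l 15778864) (l 15995776)) (a (l 15716640) (l 4))) (l 4)))))), by decide +kernel⟩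

theorem c_pm_113 : CertB 536870912 536870912 536870912 536870912 858993459 64424510 3 eng mog cd1q1 cd4q1 pd3 true true false .nn 1 1 3
    ndB1q1 ndB4q1 pcB3 Cut.none Ext.none :=
  certB1 (fam := true) (s1 := true) (s2 := false) (a := 1) (b := 1) (c := 3) (cn := .nn) (n1 := ndB1q1) (n2 := ndB4q1) (pc := pcB3) (cut := Cut.none) (xt := Ext.none) (P1 := 536870912) (W1 := 536870912) (P2 := 536870912) (W2 := 536870912) (P3 := 858993459) (W3 := 64424510) (N0 := 3) (En := eng) (mo := mog) (C1 := cd1q1) (C2 := cd4q1) (C3 := pd3)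
    rfl (fun _ => rfl) k0_pm_113

noncomputable def f_pm_123 : ℕ → ℕ → ℕ → ℕ → Bool := onCell 536870912 536870912 1610612736 536870912 858993459 64424510
    (rowB 3 eng mog cd1q1 cd4q2 pd3 1 true true false .npn 1 2 3 (qsf 536870912 536870912 1073741824 536870912 3) ndB1q1 ndB4q2 pcB3 Cut.none Ext.none)

def k0_pm_123 : ∃ t, chk3 f_pm_123 t 2 1 1 = true :=
  ⟨(b (a (b (a (b (c (a (l 14825568) (l 14686064)) (a (l 15007904) (l 14772440))) (c (a (l 15115104) (l 14977032)) (a (l 15026720) (l 14889496)))) (b (c (l 619578528439) (l 490192474759)) (c (l 567502614231) (a (l 14735704) (l 14565160))))) (b (a (c (l 15331488) (l 15141832)) (c (l 15088352) (l 14895392))) (a (c (l 15600880) (l 15301152)) (c (l 15400968) (l 15107400))))) (b (b (l 1) (a (a (a (l 555690908615) (l 1)) (l 1)) (l 1))) (a (b (c (l 600251904279) (l 526700068759)) (c (l 15204304) (l 14886400))) (b (c (l 653401850343) (l 549248050087)) (c (l 15064584) (l 14635632)))))) (a (b (b (a (c (l 15846184)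 (l 15441808)) (c (l 15696616) (l 15300752))) (a (c (l 16078272) (l 15587744)) (b (l 15685744) (l 15641856)))) (a (b (b (c (l 16252264) (l 15700352)) (l 16075224)) (b (c (l 16424176) (l 15883968)) (b (l 16231448) (b (l 16263784) (a (l 16170216) (l 16262200)))))) (b (b (c (l 16174464) (l 15633336)) (l 15855448)) (b (c (l 16370864) (l 15835000)) (b (l 16172488) (b (l 16204072) (c (l 16451720) (l 15906896)))))))) (b (b (a (b (l 15271416) (l 15425864)) (c (l 15572560) (l 14978296))) (a (b (l 15577200) (l 15725992)) (b (l 15479720) (l 15657384)))) (a (b (b (c (l 16117048) (l 15572432)) (c (l 16202248) (l 15672696))) (b (c (l 16289456) (l 15787488)) (b (l 16119192) (b (l 16138880) (l 4))))) (b (b (c (l 16041496) (l 15536144)) (l 15896952)) (b (c (l 16222168) (l 15771912)) (b (l 15947608) (l 4)))))))), by decide +kernel⟩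

def k1_pm_123 : ∃ t, chk3 f_pm_123 t 3 1 1 = true :=
  ⟨(b (b (l 1) (b (l 1) (a (a (c (l 705479034759) (l 591124242823)) (l 1)) (l 1)))) (b (b (a (a (c (l 15458704) (l 14950488)) (a (l 738765239527) (l 1))) (l 1)) (a (a (b (l 15434080) (l 15653696)) (b (l 15563656) (l 15630304))) (a (b (l 1) (l 15620784)) (l 1)))) (a (b (b (a (l 15749304) (l 15722344)) (a (l 15864520) (l 15827736))) (b (a (b (l 15946896) (l 15955944)) (b (l 15893696) (l 4))) (l 4))) (b (b (a (c (l 15822392) (l 15591584)) (l 1)) (a (a (l 15795296) (l 4)) (l 4))) (l 4))))), by decide +kernel⟩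

theorem s2_pm_123 : ∃ t, chk3 f_pm_123 t 1 1 1 = true := ex3_a k0_pm_123 k1_pm_123

theorem c_pm_123 : CertB 536870912 536870912 1073741824 536870912 858993459 64424510 3 eng mog cd1q1 cd4q2 pd3 true true false .npn 1 2 3
    ndB1q1 ndB4q2 pcB3 Cut.none Ext.none :=
  certB1 (fam := true) (s1 := true) (s2 := false) (a := 1) (b := 2) (c := 3) (cn := .npn) (n1 := ndB1q1) (n2 := ndB4q2) (pc := pcB3) (cut := Cut.none) (xt := Ext.none) (P1 := 536870912) (W1 := 536870912) (P2 := 1073741824) (W2 := 536870912) (P3 := 858993459) (W3 := 64424510) (N0 := 3) (En := eng) (mo := mog) (C1 := cd1q1) (C2 := cd4q2) (C3 := pd3)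
    rfl (fun _ => rfl) s2_pm_123

noncomputable def f_pm_133 : ℕ → ℕ → ℕ → ℕ → Bool := onCell 536870912 536870912 0 1230186008 858993459 64424510
    (rowB 3 eng mog cd1q1 cd4q3 pd3 0 true true false .dn 1 3 3 (qsf 536870912 536870912 0 1230186008 3) ndB1q1 ndB4q3 pcB3 Cut.none Ext.none)

def k0_pm_133 : ∃ t, chk3 f_pm_133 t 1 1 1 = true :=
  ⟨(b (l 2) (b (l 2) (a (b (l 2) (a (b (l 2) (a (b (l 2) (c (l 16649328) (l 16019600))) (l 2))) (l 2))) (l 2)))), by decide +kernel⟩

theorem c_pm_133 : CertB 536870912 536870912 0 1230186008 858993459 64424510 3 eng mog cd1q1 cd4q3 pd3 true true false .dn 1 3 3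
    ndB1q1 ndB4q3 pcB3 Cut.none Ext.none :=
  certB0 (fam := true) (s1 := true) (s2 := false) (a := 1) (b := 3) (c := 3) (cn := .dn) (n1 := ndB1q1) (n2 := ndB4q3) (pc := pcB3) (cut := Cut.none) (xt := Ext.none) (P1 := 536870912) (W1 := 536870912) (P2 := 0) (W2 := 1230186008) (P3 := 858993459) (W3 := 64424510) (N0 := 3) (En := eng) (mo := mog) (C1 := cd1q1) (C2 := cd4q3) (C3 := pd3)
    rfl k0_pm_133

end Pool.Agent.Strip051.G.I8000_8600.Tab.C.BA14

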