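import Pool.Agent.Strip051.G.I8000_8600.Tab
import Pool.Agent.Strip051.PB.StripB

/-! # Strips, near vertex: certificates 12 (generated) -/

set_option linter.all false
set_option maxRecDepth 100000

namespace Pool.Agent.Strip051.G.I8000_8600.Tab.CS.BB04

open Pool.Agent.Strip051.PB Pool.Agent.Strip051.PB.T
open Pool.Agent.Strip051.G.I8000_8600.Tab

noncomputable def cut_pp_022_s : Cut := Cut.of [[⟨4, 0, 0, 1449551462⟩], [⟨0, 0, 0, 67108864⟩, ⟨1, 1, 0, 67108864⟩, ⟨2, 1, 0, 67108864⟩]]

noncomputable def f_pp_022_s : ℕ → ℕ → ℕ → ℕ → Bool := onCell 0 536870912 1073741824 536870912 858993459 64424510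
    (rowNE 3 eng mog cd0q0 cd4q2 pd2 1 false true true .pp 0 2 2 (qsf 0 536870912 1073741824 536870912 2) ndB0q0 ndB4q2 pcB2 cut_pp_022_s Ext.none)

def k0_pp_022_s : ∃ t, chk3 f_pp_022_s t 16 16 1 = true :=
  ⟨(b (l 14) (a (l 14) (b (l 14) (b (l 14) (b (l 14) (a (l 14) (a (l 14) (c (l 16727504) (l 16741016))))))))), by decide +kernel⟩

def k1_pp_022_s : ∃ t, chk3 f_pp_022_s t 17 32 1 = true :=
  ⟨(a (a (l 14) (l 3)) (l 3)), by decide +kernel⟩

def k2_pp_022_s : ∃ t, chk3 f_pp_022_s t 34 132 1 = true :=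
  ⟨(a (l 14) (a (a (l 14) (l 3)) (l 3))), by decide +kernel⟩

def k3_pp_022_s : ∃ t, chk3 f_pp_022_s t 68 133 1 = true :=
  ⟨(b (l 14) (b (l 14) (a (l 14) (a (l 14) (b (l 14) (c (l 16762504) (l 16766640))))))), by decide +kernel⟩

def k4_pp_022_s : ∃ t, chk3 f_pp_022_s t 138 266 2 = true :=
  ⟨(a (b (l 14) (a (l 14) (a (l 14) (b (l 14) (b (l 14) (l 16772016)))))) (b (a (a (l 14) (a (l 14) (b (l 3) (b (l 14) (b (l 14) (c (l 16776800) (l 16776816))))))) (a (b (l 3) (b (l 3) (c (b (a (a (a (l 14) (a (l 14) (a (l 14) (l 672867025079)))) (l 3)) (l 3)) (c (a (a (l 16777008) (b (b (l 346449510583) (l 16777192)) (l 16777072))) (a (b (l 3) (b (l 320679706791) (l 16777176))) (l 676088250615))) (l 16777208))) (l 16777288)))) (l 3))) (c (c (c (a (b (a (b (l 14) (l 16775016)) (l 16776056)) (b (l 16773712) (l 16774080))) (b (b (b (a (b (a (l 16776520) (a (l 16777064) (a (l 16777176) (l 279340646551)))) (l 16776840)) (a (a (b (l 578377744615) (a (l 16777160) (l 238001586327))) (l 638507286759)) (l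 3))) (a (l 16776616) (a (a (l 16776968) (a (l 16777080) (b (l 211694911623) (l 16777072)))) (a (b (l 526838137047) (a (l 16777144) (l 186461978743))) (a (l 595020742823) (l 3)))))) (b (a (l 16775816) (a (l 16776408) (a (l 16776952) (a (l 16777056) (b (l 16777264) (l 16777048)))))) (l 16776416))) (a (b (l 16774888) (l 16774936)) (l 16776136)))) (b (a (l 16775616) (b (a (l 16776768) (a (b (l 358260670887) (l 16777040)) (l 526838137127))) (l 16776448))) (l 16774976))) (b (a (l 16775632) (a (l 16776472) (a (l 16777552) (b (l 395841635079) (l 16776872))))) (l 16775000))) (c (b (a (l 16775664) (l 16776776)) (l 16775040)) (l 16776320))))), by decide +kernel⟩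

def k5_pp_022_s : ∃ t, chk3 f_pp_022_s t 138 267 2 = true :=
  ⟨(a (c (b (c (b (a (l 14) (l 16772040)) (l 16767632)) (l 16768336)) (a (l 16765296) (l 16766424))) (l 16770600)) (c (c (a (b (b (l 16771872) (l 16771960)) (l 16767504)) (b (b (a (l 16772720) (a (l 16773152) (l 16773432))) (l 16771784)) (b (l 16771880) (l 16770656)))) (b (l 16773200) (l 16768176))) (c (l 16772088) (l 16772176)))), by decide +kernel⟩

def k6_pp_022_s : ∃ t, chk3 f_pp_022_s t 139 266 2 = true :=
  ⟨(b (l 3) (a (a (b (a (b (l 3) (c (b (c (a (a (b (a (l 376514281671) (l 3)) (l 16777280)) (a (b (l 3) (l 348060123319)) (l 3))) (l 3)) (l 373829927655)) (c (b (c (a (l 16777160) (a (a (l 317458481319) (l 575156519127)) (l 3))) (l 185925108119)) (a (l 16776928) (a (l 16777136) (a (l 296520515735) (l 552071069895))))) (l 16777152))) (l 16777240))) (l 3)) (c (c (a (c (a (l 16776400) (b (b (l 16777064) (l 16776352)) (l 16775568))) (l 16776392)) (b (a (b (a (b (a (l 254107713687) (l 484425335015)) (l 16777120)) (a (b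 (l 3) (l 227801038983)) (l 613274353847))) (l 16776960)) (b (l 3) (a (b (a (l 201494364279) (l 423758921927)) (l 16777096)) (b (l 3) (a (l 131701145751) (l 382956732615)))))) (c (c (l 16776728) (l 16776648)) (l 16776648)))) (a (l 16776400) (b (l 186461979463) (l 16776656)))) (l 16777360))) (b (l 3) (b (l 3) (c (c (b (a (a (b (a (a (l 16777280) (l 354502574263)) (l 3)) (b (a (l 16777120) (l 338933317799)) (l 16777192))) (c (l 679846347079) (l 683067572551))) (l 3)) (a (a (l 16776920) (b (a (a (l 16777176) (l 284709355687)) (l 590725775591)) (b (a (l 16777096) (l 267529486487)) (l 16777096)))) (a (b (l 3) (l 637970415847)) (l 3)))) (a (l 161765917463) (l 677698863719))) (l 268603229751))))) (l 3))), by decide +kernel⟩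

def k7_pp_022_s : ∃ t, chk3 f_pp_022_s t 278 267 4 = true :=
  ⟨(b (b (a (a (b (a (l 16774688) (l 16774968)) (l 16773568)) (b (l 16776216) (c (l 16774776) (l 16775456)))) (a (b (c (c (l 16776688) (l 16776608)) (l 16776616)) (l 16776176)) (b (c (a (b (b (c (a (a (l 16777152) (l 224042942599)) (l 535428071639)) (l 16777240)) (b (a (l 16777080) (l 195051913351)) (l 16777072))) (l 16776880)) (b (a (a (l 597705097383) (l 3)) (l 3)) (b (c (a (l 16777256) (l 480130367687)) (l 16777224)) (a (l 16777016) (l 16777240))))) (l 16777584)) (c (c (l 16776648) (l 16776568)) (l 16776576))))) (c (b (c (a (l 16773216) (a (l 16775384) (c (l 16775296) (l 16775960)))) (l 16775112)) (a (l 16772616) (a (l 16774784) (l 16774696)))) (l 16774840))) (c (b (a (l 16771704) (a (l 16772560) (l 16773448))) (a (l 16771792) (l 16771616))) (l 16773040))), by decide +kernel⟩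

def k8_pp_022_s : ∃ t, chk3 f_pp_022_s t 558 267 4 = true :=
  ⟨(c (a (b (a (b (b (a (a (b (l 3) (b (l 3) (l 353965703351))) (l 3)) (l 3)) (b (b (a (l 16777152) (a (l 326585286823) (l 581062099159))) (l 16777152)) (l 16776840))) (l 16776288)) (b (b (l 3) (a (b (a (b (l 3) (l 282561872039)) (l 661592735943)) (l 16777056)) (b (l 3) (b (a (l 254644584599) (l 525764395191)) (l 16777120))))) (b (l 16776664) (l 16775400)))) (b (b (l 16774656) (l 16774696)) (l 16772472))) (b (a (b (a (b (l 3) (b (l 3) (a (b (l 3) (l 226727297159)) (l 611126870199)))) (l 3)) (c (b (b (a (l 16777032) (b (a (l 191830687863) (l 420537696455)) (l 16777096))) (l 16776800)) (l 16775848)) (l 16776648))) (b (l 3) (b (a (b (b (l 3) (a (l 16777288) (l 377588023495))) (l 16777008)) (b (l 3) (a (l 16777240) (b (l 346449510583) (l 16777112))))) (l 16776624)))) (b (c (b (l 16775216) (l 16775256)) (l 16774264)) (l 16773040)))) (b (a (b (b (l 649244705351) (l 16777800)) (l 16776240)) (b (l 646560351063) (l 16777456))) (l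 16774712))), by decide +kernel⟩

def k9_pp_022_s : ∃ t, chk3 f_pp_022_s t 559 267 4 = true :=
  ⟨(b (b (l 3) (b (c (a (c (b (l 3) (b (l 3) (a (a (a (l 16777184) (l 313700384935)) (l 603073806583)) (l 3)))) (l 589115163111)) (l 3)) (l 613274354455)) (a (c (a (a (l 16776840) (b (a (l 16777096) (b (l 289541193879) (l 16777088))) (l 16776496))) (b (a (b (l 542407393559) (a (l 16777160) (l 244444037271))) (l 634212319463)) (a (l 16776968) (a (l 16777072) (b (l 215453008007) (l 16777072)))))) (l 16777056)) (c (c (b (l 3) (a (b (l 617569321175) (a (l 16777280) (l 460266143991))) (l 3))) (l 563345359287)) (l 558513521079))))) (b (c (a (c (b (l 16776440) (l 16775168)) (l 16776144)) (b (c (a (b (b (l 16777216) (l 16776944)) (l 16776384)) (b (c (a (b (l 436106952935) (l 16777152)) (b (l 3) (l 441475662007))) (b (l 493015269719) (l 16777216))) (l 16777080))) (b (l 141901693335) (l 16776856))) (l 16776560))) (l 16776760)) (a (b (l 16774416) (l 16773320)) (b (b (l 16775296) (l 16774992)) (l 16774536))))),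 by decide +kernel⟩

def k10_pp_022_s : ∃ t, chk3 f_pp_022_s t 139 267 5 = true :=
  ⟨(b (a (c (b (l 16776064) (l 16774880)) (l 16775504)) (b (a (c (l 465634853383) (l 317458483127)) (l 3)) (a (l 16776536) (a (l 205789332951) (l 615421838071))))) (a (l 16773144) (c (l 16775312) (l 16775344)))), by decide +kernel⟩

def k11_pp_022_s : ∃ t, chk3 f_pp_022_s t 69 133 3 = true :=
  ⟨(a (b (b (a (l 14) (b (a (l 14) (l 3)) (b (a (l 14) (l 3)) (a (c (l 16776576) (l 16776608)) (a (c (l 16777280) (a (l 16777192) (l 418927084439))) (l 3)))))) (b (a (l 14) (c (c (l 16776264) (l 16776280)) (a (l 16775800) (a (l 16776552) (b (a (l 16777168) (l 375977411479)) (l 16776784)))))) (c (l 16773760) (a (l 16773216) (l 16775232))))) (c (c (l 16771216) (l 16771016)) (b (a (l 16771608) (l 16773624)) (a (l 16769448) (l 16771472))))) (a (b (b (l 3) (b (b (l 3) (a (c (l 292762420903) (c (l 316384740823) (a (l 197199397783) (l 3)))) (l 3))) (a (c (l 16776728) (a (l 16776480) (a (l 16776864) (b (l 294373032839) (l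 16776840))))) (b (l 3) (c (l 255181457015) (a (l 145659789575) (l 706153022023))))))) (c (b (c (l 16775544) (l 16775576)) (l 16773304)) (b (a (l 16775128) (a (l 16775880) (b (b (l 94657053703) (l 16776648)) (l 16775840)))) (l 16773480)))) (b (l 3) (b (b (a (a (c (l 224042944119) (b (l 676088250919) (l 16777776))) (c (l 523080042423) (l 670182671159))) (l 3)) (a (c (l 16776568) (c (l 16776592) (b (l 16776864) (l 16776336)))) (a (c (l 16777248) (b (l 446307501303) (l 16777064))) (c (l 487109691223) (l 633675449047))))) (c (l 16775728) (c (l 16775464) (b (a (l 16775544) (l 16776536)) (l 16774976)))))))), by decide +kernel⟩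

def k12_pp_022_s : ∃ t, chk3 f_pp_022_s t 34 67 1 = true :=
  ⟨(a (b (b (a (l 14) (a (b (l 14) (c (l 16754088) (l 16760672))) (c (c (c (l 16758512) (l 16757424)) (l 16757784)) (l 16763872)))) (c (a (c (l 16746680) (l 16742256)) (c (a (l 16755352) (l 16752392)) (l 16746696))) (a (l 16754184) (c (l 16757960) (l 16758824))))) (c (b (c (a (l 16746960) (l 16746304)) (a (l 16747960) (l 16741920))) (a (l 16732048) (a (l 16735448) (l 16737712)))) (c (a (l 16746808) (l 16751096)) (a (l 16748192) (l 16752304))))) (a (c (b (a (b (c (b (l 16763424) (l 16763600)) (l 16759992)) (c (l 16754672) (l 16750008))) (c (b (b (a (l 16765128) (l 16766256)) (l 16763248)) (a (l 16756384) (l 16757520))) (b (l 16767432) (l 16752208)))) (b (c (a (l 16754976) (l 16752016)) (l 16746352)) (c (l 16740664) (l 16741560)))) (b (c (b (l 16766760) (l 16762216)) (b (a (l 16766216) (l 16768240)) (l 16762904))) (c (l 16755368) (l 16756392)))) (c (c (a (b (b (b (c (a (l 16767336) (c (l 16768448) (l 16771112))) (l 16768008))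 (c (l 16765448) (l 16768208))) (b (l 16763064) (l 16763232))) (b (l 16754296) (l 16754576))) (b (c (b (a (b (b (l 16771528) (l 16771616)) (l 16767152)) (b (b (a (l 16773696) (l 16772952)) (l 16771440)) (c (l 16768264) (l 16770936)))) (b (l 16765256) (l 16765408))) (b (b (l 16772864) (l 16767832)) (l 16762880))) (b (a (l 16756000) (l 16757128)) (l 16751608)))) (b (b (c (a (l 16769552) (l 16771760)) (l 16770776)) (l 16767304)) (b (l 16754688) (l 16745984)))) (b (b (c (c (l 16770904) (l 16771040)) (b (a (l 16771328) (l 16773336)) (l 16770184))) (c (l 16766440) (c (l 16766816) (l 16767080)))) (c (l 16760112) (b (l 16762624) (l 16758288))))))), by decide +kernel⟩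

def k13_pp_022_s : ∃ t, chk3 f_pp_022_s t 35 66 1 = true :=
  ⟨(b (l 3) (a (b (l 3) (b (l 3) (a (a (b (a (a (c (c (c (b (b (l 3) (a (a (b (a (l 303499837607) (l 580525228231)) (l 16777136)) (a (b (l 3) (l 273971937431)) (l 646023479495))) (l 3))) (c (b (a (l 16776976) (a (b (a (l 238001586311) (l 495162753207)) (l 16777112)) (a (b (l 3) (l 190756946055)) (l 606295031975)))) (l 16776808)) (l 16777376))) (b (l 411947762663) (l 16776976))) (l 163913401799)) (c (l 16777200) (b (l 380272379111) (l 16777000)))) (b (l 3) (a (b (l 3) (c (c (a (b (a (l 150491627671) (l 371682443495)) (l 16777088)) (b (l 3) (a (l 16777280) (l 366850605239)))) (l 16777216)) (l 16777208))) (l 3)))) (l 3)) (c (a (c (c (b (a (l 16776352) (a (l 16776864) (b (b (a (a (l 16777184) (l 328732770471)) (l 609516257527)) (b (a (l 16777104) (l 293299290279)) (l 16777104))) (l 16776912)))) (c (l 16776184) (l 16776032))) (l 16776352)) (l 16776376)) (a (c (b (c (a (a (b (l 667498316007) (a (l 16777088) (b (l 251423359127) (l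 16777080)))) (b (l 3) (b (l 550460457191) (a (l 16777152) (l 220821717127))))) (a (c (b (l 3) (l 624548643031)) (l 655150285175)) (l 3))) (l 350207607735)) (c (a (l 16776736) (b (c (b (a (l 16777264) (l 461876756727)) (l 16777216)) (l 16777176)) (l 16776864))) (l 16776888))) (l 16777816)) (c (c (b (l 3) (b (c (a (c (b (l 3) (l 589115162807)) (l 613274353927)) (l 3)) (l 630454223271)) (b (a (a (l 16777152) (a (l 332490866871) (l 3))) (l 3)) (a (l 16777152) (a (a (l 301352353959) (l 577304002759)) (l 3)))))) (l 527911879223)) (l 375977412343)))) (c (a (l 16776408) (l 210084300903)) (a (l 16776448) (b (l 554218553895) (a (l 16776928) (l 283635614887))))))) (l 3)) (l 3)))) (l 3))), by decide +kernel⟩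

def k14_pp_022_s : ∃ t, chk3 f_pp_022_s t 70 1072 2 = true :=
  ⟨(a (a (c (c (b (a (a (l 16773824) (l 16775048)) (a (l 16776264) (a (l 16776688) (b (a (l 16777056) (b (a (l 270213841047) (l 496773365991)) (l 16777120))) (l 16776824))))) (c (a (l 16773816) (l 16776264)) (l 16775384))) (l 16776032)) (l 16775744)) (a (c (c (b (a (c (b (a (a (a (b (l 3) (l 232096006279)) (l 620253675703)) (l 3)) (l 3)) (b (a (a (l 16777112) (a (l 16777256) (l 427517018311))) (l 3)) (a (l 16777024) (a (a (l 16777208) (l 425369534615)) (l 3))))) (b (l 592873259383) (l 207399944711))) (l 3)) (a (c (c (b (a (l 16776800) (a (l 16777008) (a (l 16777120) (b (l 392083538055) (l 16777112))))) (l 16776632)) (l 16776792)) (l 16776792)) (a (a (b (b (l 3) (a (l 16777184) (l 315310997671))) (l 16776992)) (b (l 675014508791) (a (l 16777096) (b (l 283635613847) (l 16777088))))) (c (b (l 3) (a (b (l 573545906407) (l 145659789447)) (l 639581028567))) (l 540796780855))))) (b (l 506973913575) (a (l 16776792) (l 256792068967))))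 (c (l 211158042247) (l 16777256))) (l 3))) (l 3)), by decide +kernel⟩

def k15_pp_022_s : ∃ t, chk3 f_pp_022_s t 70 1073 2 = true :=
  ⟨(a (c (c (a (c (a (c (l 16772560) (l 16773880)) (a (l 16773744) (b (l 16774952) (l 16774992)))) (l 16774464)) (a (b (a (b (l 16775840) (l 16775368)) (a (l 16776600) (a (l 16776816) (b (b (l 57612959847) (l 16777032)) (l 16776144))))) (l 16776096)) (b (a (b (c (a (a (b (l 510732009687) (l 16777176)) (l 597705097415)) (l 3)) (l 403357827751)) (a (a (l 16776944) (l 16777208)) (c (a (b (l 434496340183) (l 16777152)) (b (l 3) (l 396378505431))) (l 16777256)))) (l 3)) (b (a (a (l 16776384) (l 16777072)) (c (a (c (a (b (l 368998088903) (l 16777128)) (b (l 3) (l 343765156023))) (l 271824453975)) (l 3)) (l 365239992951))) (a (l 16776544) (a (l 16776968) (a (b (a (l 209547427975) (l 433959469271)) (l 16777104)) (b (l 3) (a (l 16777208) (l 396915376327)))))))))) (a (l 16774496) (a (l 16776168) (c (b (l 471540433287) (l 16777608)) (b (l 343228286215) (l 16776992))))))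 (a (l 16774568) (c (a (l 16776192) (l 177335174759)) (l 16776776)))) (l 3)), by decide +kernel⟩

def k16_pp_022_s : ∃ t, chk3 f_pp_022_s t 70 1074 2 = true :=
  ⟨(a (c (c (a (a (l 16771352) (a (l 16773512) (l 16772768))) (a (a (a (l 16773192) (l 16773480)) (b (l 16774864) (l 16774904))) (a (l 16776024) (c (b (l 16776728) (c (l 16775376) (l 16776032))) (l 16776344))))) (a (l 16770672) (l 16775520))) (a (l 16773392) (l 16775568))) (a (a (a (c (c (c (b (b (a (a (a (l 16777120) (b (l 360945025207) (l 16777112))) (b (l 3) (a (l 16777184) (l 323900932263)))) (l 676625121607)) (a (l 16776920) (c (a (b (l 175187689623) (l 16777056)) (b (l 581062099175) (l 149417885831))) (l 168208367927)))) (l 16776600)) (a (l 16777096) (b (l 298667999879) (l 16776744)))) (l 16777576)) (l 16776936)) (c (b (c (c (b (l 3) (a (l 650855317799) (l 3))) (l 670719541863)) (l 672330154599)) (c (b (c (a (b (a (l 16777272) (l 516637589719)) (l 16777184)) (a (l 600389451975) (l 3))) (l 271287583319)) (a (l 16776872) (a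 (l 16777208) (b (a (l 362018767031) (l 3)) (l 16777152))))) (l 16777168))) (l 251960231527))) (c (c (b (l 3) (a (c (b (l 3) (a (c (b (l 3) (l 560661004455)) (l 486572818919)) (l 3))) (l 632601707063)) (l 3))) (l 664277091495)) (l 670182671495))) (l 3))), by decide +kernel⟩

def k17_pp_022_s : ∃ t, chk3 f_pp_022_s t 70 1075 2 = true :=
  ⟨(a (c (c (a (a (l 16771432) (l 16771256)) (a (c (l 16772376) (l 16773720)) (b (a (l 16774856) (l 16774768)) (l 16773216)))) (l 16773528)) (l 16773312)) (a (c (c (a (c (a (b (c (l 16775328) (l 16775992)) (l 16775368)) (b (l 16776552) (l 16775280))) (l 16775968)) (b (b (a (b (a (a (l 16777136) (a (l 293836161175) (l 545091748039))) (l 3)) (a (l 16777056) (a (a (l 242833424535) (l 510195138743)) (l 3)))) (l 3)) (b (a (a (l 16776904) (a (l 16777112) (a (l 16777296) (l 431811985623)))) (l 3)) (a (l 16776888) (a (a (a (l 16777208) (l 393694150855)) (l 3)) (l 3))))) (a (l 16776592) (a (a (l 16776864) (b (a (l 16777120) (b (l 356650057911) (l 16777112))) (l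 16776192))) (c (a (b (b (l 3) (l 199883751591)) (l 16776992)) (b (l 676088250615) (b (l 173040205975) (l 16777056)))) (l 183240753639)))))) (a (l 16775984) (a (l 16776824) (a (l 181093270471) (l 335712093287))))) (c (a (l 16776008) (l 16778416)) (l 16776584))) (c (a (c (b (l 3) (b (l 3) (a (a (a (b (l 537038684439) (l 153712853127)) (l 634749190359)) (l 3)) (l 3)))) (l 620253676599)) (l 3)) (l 655150286455)))), by decide +kernel⟩

def k18_pp_022_s : ∃ t, chk3 f_pp_022_s t 140 269 2 = true :=
  ⟨(c (b (c (b (a (l 16768152) (c (a (l 16772456) (l 16772280)) (l 16770432))) (a (l 16769536) (a (l 16771240) (l 16772376)))) (l 16772040)) (a (c (l 16765064) (l 16767840)) (a (l 16766832) (a (l 16767680) (l 16768240))))) (c (l 16770304) (l 16770432))), by decide +kernel⟩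

def k19_pp_022_s : ∃ t, chk3 f_pp_022_s t 141 269 2 = true :=
  ⟨(c (c (a (b (a (a (b (l 16773144) (l 16773224)) (b (b (l 16774016) (l 16774712)) (l 16773792))) (c (b (a (b (l 16775232) (l 16775272)) (b (l 16776456) (l 16775184))) (b (l 16773960) (l 16774320))) (l 16775264))) (a (a (l 16768760) (l 16769976)) (b (l 16771936) (l 16772176)))) (b (b (a (b (c (b (a (a (a (l 16776968) (l 16777232)) (a (b (l 520395686087) (l 16777168)) (l 593410130119))) (l 3)) (a (a (l 16776072) (l 16777096)) (a (b (l 577304002727) (a (l 16777144) (l 398525989063))) (l 3)))) (a (l 16777440) (l 543481135511))) (a (l 16776408) (b (a (l 16776984) (c (a (b (l 357723799751) (l 16777120)) (b (l 3) (l 306184192215))) (l 16777240))) (l 16776904)))) (b (l 3) (a (c (b (l 3) (a (a (b (l 276119421127) (l 16777096)) (b (l 3) (l 248202133687))) (l 3))) (l 515563848023)) (l 3)))) (a (c (a (b (l 16775136) (l 16775176)) (l 16776216)) (l 16775776)) (b (c (b (a (a (l 16776936) (a (b (l 209010557111) (l 16777072)) (b (l 3)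 (l 179482656935)))) (a (l 673403896119) (l 3))) (a (l 16776768) (a (b (a (l 151028498583) (l 550997328103)) (l 16777240)) (l 640117899543)))) (a (l 16776928) (l 483888464167))) (a (l 16776312) (b (a (l 16776888) (b (a (l 16777176) (l 438254436631)) (l 16777256))) (l 16776720)))))) (a (b (c (b (l 16773528) (l 16774224)) (l 16771928)) (l 16772000)) (c (c (b (l 16775952) (b (l 16773424) (l 16774112))) (l 16775376)) (l 16775064))))) (a (b (l 16774736) (l 16769688)) (b (b (a (a (l 16776728) (a (l 136532984663) (l 276119422039))) (l 590725776327)) (a (l 16775792) (a (l 16776632) (a (l 16777056) (l 219747976247))))) (l 16774536)))) (a (c (l 16773592) (l 16773656)) (b (a (c (l 16777736) (l 16776448)) (b (l 608442516407) (l 16776928))) (l 16774608)))), by decide +kernel⟩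

def k20_pp_022_s : ∃ t, chk3 f_pp_022_s t 70 134 3 = true :=
  ⟨(b (a (c (a (b (l 16775240) (l 16772984)) (b (a (b (l 184314497015) (l 16776240)) (b (l 3) (l 157470951303))) (l 16775072))) (b (a (c (l 16775312) (b (l 16775888) (l 16774824))) (b (a (a (b (l 258402681959) (l 16776840)) (b (l 3) (l 230485394487))) (l 3)) (a (l 16776288) (b (a (l 204715590647) (l 3)) (c (l 16777000) (l 16777648)))))) (a (l 16773184) (c (l 16775144) (l 16775200))))) (b (l 3) (b (a (a (c (l 16777800) (b (a (l 16777176) (l 699173700167)) (l 16777584))) (c (l 552071072231) (l 690046895207))) (l 3)) (c (a (c (l 16776608) (l 16776624)) (l 666424575575)) (a (a (l 16776120) (a (l 16776872) (b (l 483351594263) (l 16777080)))) (a (l 658371511287) (l 3))))))) (c (a (c (l 16770568) (l 16770720)) (a (l 16773776) (b (a (l 16777784) (b (l 484962208103) (l 16776944))) (l 16774720)))) (b (a (a (l 16771032) (l 16773024)) (a (c (l 16774984) (l 16775040)) (b (a (a (l 16776792) (b (l 386714830071) (l 16777008))) (c (l 628843611031)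 (l 613274354567))) (a (l 16775960) (a (l 16776704) (a (l 16777048) (l 182167012743))))))) (a (l 16769880) (a (l 16772864) (l 16774840)))))), by decide +kernel⟩

def k21_pp_022_s : ∃ t, chk3 f_pp_022_s t 71 268 1 = true :=
  ⟨(l 3), by decide +kernel⟩

def k22_pp_022_s : ∃ t, chk3 f_pp_022_s t 284 269 1 = true :=
  ⟨(b (a (a (b (l 3) (c (c (c (b (l 3) (a (c (b (a (l 583746453687) (l 3)) (a (l 16777072) (b (l 397989118167) (l 16777136)))) (l 253570843191)) (a (b (l 3) (b (l 3) (l 348596994279))) (l 3)))) (l 526301266471)) (l 373293057783)) (c (l 16778136) (l 533280588295)))) (l 3)) (l 3)) (b (a (c (c (b (a (c (a (l 16776680) (a (l 16776976) (b (b (a (l 16777280) (l 471540433111)) (l 16777112)) (l 16776880)))) (l 16776832)) (c (a (c (a (b (b (l 3) (l 277730033879)) (l 16777024)) (b (l 3) (b (l 246591520967) (l 16777088)))) (l 211158041095)) (a (b (l 3) (b (l 3) (l 221895458999))) (l 3))) (l 279340647303))) (a (l 16776384) (a (l 16776720) (a (l 16776928) (c (b (b (l 192904429735) (l 16777064))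 (l 16776176)) (l 16776992)))))) (l 16776832)) (c (l 16776856) (c (l 16776856) (c (l 16776840) (l 16777488))))) (a (b (l 3) (c (c (c (a (a (b (b (l 604684419303) (l 163376529559)) (l 16776968)) (b (l 639581028583) (a (l 16777080) (l 16777312)))) (b (l 3) (a (b (l 501605204215) (l 16777176)) (l 600389451975)))) (l 16777600)) (l 16777264)) (c (l 16777256) (l 16777248)))) (l 3))) (c (c (a (c (c (l 16775928) (l 16775576)) (l 16775592)) (a (b (c (c (c (b (l 16777040) (l 16775912)) (l 16776720)) (l 16776720)) (l 16776728)) (l 16776280)) (c (a (b (b (b (l 574082777271) (a (l 16777152) (l 375977410807))) (l 16776992)) (l 16776528)) (b (b (l 3) (a (b (l 346449510631) (l 16777128)) (b (l 3) (l 316921610455)))) (l 16776896))) (l 16777648)))) (l 16776840)) (c (l 16776232) (a (l 16775784) (c (l 16776776) (l 16776760))))))), by decide +kernel⟩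

def k23_pp_022_s : ∃ t, chk3 f_pp_022_s t 285 269 1 = true :=
  ⟨(a (b (l 3) (b (l 3) (b (l 3) (c (c (b (c (a (a (a (b (l 287393710279) (l 16777096)) (b (l 3) (l 245517779143))) (l 3)) (l 3)) (l 422148310199)) (c (a (a (l 16776936) (a (b (l 215453008055) (l 16777072)) (b (l 3) (l 185388236967)))) (a (l 669108928823) (l 3))) (l 258939552695))) (l 16778008)) (c (l 16777344) (c (l 16777336) (l 273435067927))))))) (l 3)), by decide +kernel⟩

def k24_pp_022_s : ∃ t, chk3 f_pp_022_s t 143 269 1 = true :=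
  ⟨(l 3), by decide +kernel⟩

def k25_pp_022_s : ∃ t, chk3 f_pp_022_s t 70 135 1 = true :=
  ⟨(a (c (c (b (a (b (l 16760064) (l 16762840)) (c (b (l 16764864) (l 16765000)) (l 16761184))) (c (a (l 16758984) (l 16756024)) (l 16755160))) (b (l 16765632) (l 16755624))) (c (b (l 16766104) (l 16761552)) (b (l 16766648) (l 16762320)))) (b (c (c (c (a (b (a (l 16769192) (l 16767704)) (l 16764656)) (a (b (c (l 16769472) (l 16771480)) (l 16768976)) (b (b (l 16771896) (l 16771968)) (l 16767488)))) (c (l 16771064) (l 16769816))) (c (l 16769912) (l 16770056))) (c (c (l 16770208) (l 16770376)) (c (l 16770544) (b (l 16771784) (l 16769664))))) (c (c (b (a (l 16759648) (a (l 16766584) (l 16762464))) (a (l 16762416) (l 16759432))) (l 16765240)) (c (l 16765752) (l 16766328))))), by decide +kernel⟩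

def k26_pp_022_s : ∃ t, chk3 f_pp_022_s t 284 135 1 = true :=
  ⟨(b (c (b (c (c (c (b (c (a (b (l 16774632) (l 16774008)) (b (a (l 16775480) (l 16775392)) (l 16774160))) (l 16774896)) (a (l 16773088) (a (l 16773936) (l 16773192)))) (l 16774624)) (l 16774336)) (l 16774416)) (c (a (b (l 16769288) (l 16770680)) (b (a (l 16772744) (l 16772000)) (l 16769176))) (l 16772048))) (c (l 16773408) (b (l 16774664) (l 16772520)))) (c (c (a (b (l 16766208) (l 16766360)) (b (a (l 16767048) (l 16767616)) (l 16767488))) (l 16768496)) (c (l 16768872) (l 16769296)))), by decide +kernel⟩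

def k27_pp_022_s : ∃ t, chk3 f_pp_022_s t 285 135 1 = true :=
  ⟨(c (c (b (b (a (b (c (a (c (b (l 16776616) (l 16775344)) (l 16776312)) (b (a (b (b (a (l 167134625927) (l 521469427975)) (l 16777280)) (l 16776888)) (c (b (l 635822932247) (a (l 16777096) (b (l 483888464071) (l 16777160)))) (l 270213841495))) (l 16776648))) (l 16777264)) (a (b (l 16774576) (l 16773472)) (b (b (l 16775456) (l 16775152)) (l 16774360)))) (c (b (b (b (l 3) (a (a (a (l 571935293623) (l 3)) (l 3)) (l 3))) (b (a (b (a (a (l 16777144) (l 363629379831)) (l 3)) (a (l 16777064) (a (l 331953996007) (l 3)))) (l 3)) (b (a (a (l 16776912) (a (l 16777120) (l 301352354007))) (l 3)) (a (l 16776896) (a (a (l 270213841095) (l 3)) (l 3)))))) (b (a (l 16776512) (a (a (l 16776864) (b (b (l 239612199095) (l 16777080)) (l 16776192))) (a (b (b (l 3) (l 208473686183)) (l 16776992)) (b (l 672330154231) (b (l 176798302359) (l 16777056)))))) (c (l 16776336) (l 16776176)))) (b (b (l 661592736599) (c (l 260550164983) (l 16777632)))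 (l 16776496)))) (c (c (c (a (b (l 16772792) (l 16772856)) (b (b (a (l 16775264) (l 16775176)) (l 16773616)) (l 16772680))) (l 16774720)) (l 16774080)) (l 16774120))) (b (c (b (a (l 16771648) (l 16771464)) (l 16769000)) (l 16769064)) (c (c (l 16766448) (l 16769136)) (l 16769240)))) (b (b (a (l 16776032) (b (l 314774128727) (l 16776520))) (l 16774208)) (l 16770656))) (b (b (a (c (l 16776088) (c (l 16776128) (l 16776488))) (b (c (l 298131130583) (c (l 310479161383) (l 477982884279))) (c (l 16776552) (l 16776592)))) (c (l 16774336) (l 16774488))) (c (l 16770944) (l 16771272)))), by decide +kernel⟩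

def k28_pp_022_s : ∃ t, chk3 f_pp_022_s t 143 540 1 = true :=
  ⟨(b (l 3) (a (a (c (c (c (c (b (a (b (l 3) (a (a (b (l 567103455463) (l 16777192)) (l 629380481239)) (l 3))) (l 3)) (b (a (a (l 16777192) (a (b (l 503752687815) (l 16777168)) (l 587504550071))) (l 3)) (a (l 16777024) (a (a (b (l 400136601815) (l 16777136)) (b (l 3) (l 367924347079))) (l 3))))) (b (l 606295032551) (a (l 16777024) (l 538649297287)))) (b (l 600389452519) (c (l 215453008919) (l 16777240)))) (l 270750713975)) (a (b (l 443623146871) (l 16777048)) (c (l 16777552) (l 614884967063)))) (l 3)) (l 3))), by decide +kernel⟩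

def k29_pp_022_s : ∃ t, chk3 f_pp_022_s t 143 541 1 = true :=
  ⟨(b (a (c (a (c (c (c (b (a (l 16776400) (a (l 16776824) (b (a (b (l 312626643159) (l 16777112)) (b (l 3) (l 278266904775))) (l 16776952)))) (l 16776064)) (b (l 16776688) (l 16776072))) (l 16776392)) (l 16776416)) (c (b (c (a (c (b (l 3) (a (a (b (l 245517779127) (l 16777080)) (b (l 3) (l 213305524391))) (l 3))) (l 505900171591)) (l 3)) (l 555829166695)) (c (b (a (a (l 16776920) (b (a (l 188072591511) (l 540259909911)) (l 16777288))) (a (l 639581028647) (l 3))) (a (l 16776752) (c (a (a (l 16777104) (b (l 511805751495) (l 16777168))) (l 610053128455)) (l 266455745111)))) (l 159081563191))) (l 239075330039))) (a (c (l 16776448) (l 16776488)) (c (l 16777320) (a (l 133848630775) (l 381882992519))))) (l 3)) (a (c (c (c (b (c (b (a (l 16774776) (a (l 16775784) (b (a (l 16776944) (a (l 16777152) (l 406042181847))) (l 16776928)))) (a (l 16773976) (l 16776416))) (l 16776344)) (a (c (l 16773504) (l 16774840)) (l 16776200))) (l 16775728))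 (l 16775768)) (c (l 16775832) (l 16775904))) (a (c (c (b (c (a (a (a (b (b (l 3) (l 352891961575)) (l 16777048)) (b (l 3) (b (l 320142835927) (l 16777112)))) (a (b (l 3) (b (l 3) (l 287393710279))) (l 3))) (l 3)) (l 508584526327)) (c (b (b (a (a (l 16776888) (a (l 16777096) (l 254107713719))) (l 3)) (a (l 16776872) (a (a (l 221358588071) (l 3)) (l 3)))) (a (l 16776640) (a (a (l 16776992) (b (l 188072591511) (l 16777056))) (a (b (l 551534199047) (l 16777200)) (l 630454223063))))) (l 16777744))) (l 206863075191)) (c (l 16777248) (a (l 16777736) (l 335712093975)))) (l 3)))), by decide +kernel⟩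

def k30_pp_022_s : ∃ t, chk3 f_pp_022_s t 143 271 1 = true :=
  ⟨(b (a (c (c (c (c (b (a (l 16772576) (a (l 16773424) (a (l 16773848) (l 16774784)))) (a (l 16772640) (l 16772464))) (l 16773856)) (l 16773904)) (l 16774000)) (c (l 16774136) (l 16774304))) (c (c (c (b (a (a (l 16776192) (c (b (c (a (l 16775936) (l 16777064)) (l 16776736)) (l 16775464)) (l 16776432))) (a (a (b (b (a (b (l 472077304055) (l 16777168)) (l 585357066423)) (l 16777008)) (l 16776544)) (b (b (l 3) (a (b (l 380272378103) (l 16777136)) (b (l 3) (l 346986381543)))) (l 16776984))) (b (l 3) (b (a (a (b (l 313163514071) (l 16777112)) (b (l 3) (l 279340646599))) (l 3)) (a (l 16776944) (a (b (l 245517779127) (l 16777080)) (b (l 3) (l 211158040743)))))))) (c (c (a (b (l 16774224) (l 16774584)) (a (b (l 16775400) (l 16775432)) (l 16776472))) (l 16775800)) (l 16775480))) (a (l 16775560) (b (a (l 16777000) (l 313700386167)) (l 16776056)))) (c (b (l 16778056) (l 16775536)) (l 16776176))) (a (c (l 16775680) (l 16775760)) (b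 (c (l 16777184) (a (l 16777000) (l 274508810023))) (l 16776168))))) (c (c (c (b (c (a (a (l 16771392) (l 16772528)) (a (l 16772344) (b (l 16774112) (l 16774472)))) (l 16773784)) (a (l 16768120) (c (a (l 16772408) (l 16772224)) (l 16770384)))) (l 16773224)) (l 16772704)) (c (l 16772912) (a (l 16772160) (l 16774112))))), by decide +kernel⟩

def k31_pp_022_s : ∃ t, chk3 f_pp_022_s t 16 17 1 = true :=
  ⟨(b (a (a (l 14) (b (l 14) (b (l 14) (c (l 16653816) (l 16657968))))) (b (a (a (l 14) (b (l 14) (c (l 16688376) (l 16692112)))) (c (b (a (b (l 14) (l 16722616)) (c (l 16719144) (l 16710232))) (c (a (l 16713824) (l 16719048)) (l 16697248))) (b (c (l 16730344) (l 16732296)) (c (l 16699280) (l 16722528))))) (b (a (c (c (l 16695216) (l 16696992)) (l 16679208)) (c (a (l 16683032) (l 16688296)) (l 16711208))) (c (a (c (l 16684464) (l 16686456)) (c (l 16694904) (l 16697120))) (a (l 16669080) (l 16701088)))))) (b (b (a (a (l 14) (c (l 16664144) (l 16668840))) (c (a (l 16653776) (c (l 16684080) (l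 16686560))) (a (l 16658976) (l 16670016)))) (a (a (c (l 16642840) (l 16647640)) (c (l 16653472) (l 16658768))) (c (a (l 16664048) (l 16653584)) (c (l 16652784) (l 16656256))))) (a (c (a (b (l 16632176) (l 16621488)) (b (l 16642776) (l 16632064))) (a (l 16611624) (l 16622736))) (a (c (b (l 16653328) (l 16642592)) (l 16612880)) (c (b (l 16663824) (l 16653072)) (l 16665912)))))), by decide +kernel⟩

def k32_pp_022_s : ∃ t, chk3 f_pp_022_s t 34 34 1 = true :=
  ⟨(a (b (a (b (c (c (l 16723928) (l 16714928)) (l 16738504)) (c (b (l 16706632) (l 16722440)) (l 16729232))) (c (b (b (l 16731664) (l 16726712)) (a (l 16707616) (l 16709896))) (b (l 16742720) (l 16733752)))) (c (c (b (a (l 16713464) (l 16718488)) (l 16705240)) (b (l 16697136) (l 16707680))) (b (c (l 16699568) (l 16723280)) (l 16712000)))) (b (a (c (b (c (c (l 16732880) (l 16733432)) (l 16734344)) (c (l 16723016) (l 16735120))) (b (l 16746920) (l 16737968))) (c (b (c (b (l 16740240) (l 16745704)) (c (l 16738504) (l 16728576))) (c (l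 16727624) (l 16718608))) (b (a (l 16750056) (l 16752136)) (l 16742168)))) (c (b (c (a (l 16723240) (l 16727880)) (l 16706632)) (c (a (l 16712792) (l 16717544)) (l 16696680))) (b (c (l 16729920) (l 16732520)) (c (l 16720504) (l 16723712)))))), by decide +kernel⟩

def k33_pp_022_s : ∃ t, chk3 f_pp_022_s t 35 34 1 = true :=
  ⟨(b (c (a (a (b (c (b (c (l 16749864) (l 16755472)) (l 16739784)) (c (l 16742960) (l 16743440))) (c (b (l 16745224) (l 16740144)) (l 16733528))) (b (c (a (b (l 16753448) (l 16753680)) (b (a (l 16760384) (l 16756272)) (l 16755952))) (b (l 16749976) (l 16745176))) (c (b (l 16739296) (l 16744712)) (l 16737936)))) (c (a (b (a (b (b (l 16759208) (l 16761960)) (l 16752968)) (b (b (a (l 16766136) (l 16767256)) (l 16758968)) (c (l 16760320) (l 16760624)))) (b (c (l 16754112) (l 16754536)) (l 16738776))) (b (b (c (b (a (c (l 16766208) (l 16768904)) (c (b (l 16769760) (l 16770472)) (l 16768528))) (a (l 16766368) (c (l 16768584) (l 16768664)))) (l 16770208)) (a (c (l 16757352)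 (l 16762856)) (b (l 16763592) (l 16763712)))) (a (b (l 16752464) (l 16752648)) (b (l 16754712) (l 16754912))))) (c (a (b (l 16762280) (l 16742056)) (b (b (l 16769064) (l 16753744)) (l 16746464))) (b (a (l 16762592) (l 16768192)) (l 16755256))))) (a (b (c (a (l 16754696) (l 16758912)) (a (l 16755840) (b (l 16762008) (l 16757704)))) (c (l 16747656) (a (l 16747208) (l 16751256)))) (b (c (a (b (l 16765368) (l 16760816)) (b (l 16769512) (l 16764976))) (a (b (l 16765992) (l 16761696)) (b (c (l 16769816) (l 16770040)) (l 16765648)))) (c (a (l 16753968) (l 16758144)) (a (l 16755272) (l 16759248)))))) (c (a (b (a (a (l 16721720) (l 16723984)) (b (l 16729864) (l 16714368))) (c (a (l 16722168) (l 16726760)) (l 16705744))) (b (b (c (a (l 16744168) (l 16748704)) (l 16737248)) (c (a (l 16739056) (l 16743608)) (l 16721904))) (c (a (l 16731344) (l 16725432)) (l 16719840)))) (a (b (c (l 16738464) (l 16740680)) (l 16731656)) (b (c (l 16746928) (l 16748744)) (c (l 16737776) (l 16740264)))))), by decide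 +kernel⟩

def k34_pp_022_s : ∃ t, chk3 f_pp_022_s t 17 35 1 = true :=
  ⟨(a (c (b (b (a (c (l 16694392) (l 16697104)) (a (l 16682464) (l 16687472))) (a (l 16664000) (c (l 16693720) (l 16696968)))) (a (c (l 16646224) (l 16649712)) (b (l 16663576) (l 16652840)))) (b (a (c (l 16674152) (l 16698832)) (b (l 16712528) (l 16702736))) (c (a (l 16653744) (l 16664496)) (l 16684896)))) (b (c (a (c (b (l 16693128) (l 16703584)) (b (l 16695936) (l 16706920))) (c (b (a (l 16721008) (l 16725608)) (l 16712952)) (b (l 16704816) (l 16716008)))) (a (b (l 16721888) (l 16712824)) (b (l 16730184) (l 16721424)))) (c (c (a (b (l 16692936) (l 16682096)) (b (l 16702568) (l 16692096))) (a (l 16670488) (a (l 16677936) (l 16682632)))) (a (c (l 16695968) (l 16701064)) (b (l 16712760) (l 16703712)))))), by decide +kernel⟩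

def k35_pp_022_s : ∃ t, chk3 f_pp_022_s t 18 32 1 = true :=
  ⟨(l 3), by decide +kernel⟩

def k36_pp_022_s : ∃ t, chk3 f_pp_022_s t 18 66 1 = true :=
  ⟨(l 3), by decide +kernel⟩

def k37_pp_022_s : ∃ t, chk3 f_pp_022_s t 36 134 1 = true :=
  ⟨(l 3), by decide +kernel⟩

def k38_pp_022_s : ∃ t, chk3 f_pp_022_s t 36 270 1 = true :=
  ⟨(l 3), by decide +kernel⟩

def k39_pp_022_s : ∃ t, chk3 f_pp_022_s t 288 271 1 = true :=
  ⟨(c (c (b (b (b (l 3) (a (a (a (b (l 3) (l 674477637943)) (l 3)) (l 3)) (l 3))) (b (a (c (b (a (a (b (a (l 16777288) (l 539723038983)) (l 16777288)) (l 637970415895)) (l 3)) (a (a (l 16776888) (a (l 16777104) (b (l 438791307543) (l 16777160)))) (c (a (l 606831902967) (l 3)) (l 628306739591)))) (l 279877518615)) (l 3)) (b (a (a (l 16776728) (a (a (l 16777072) (b (l 351281348887) (l 16777136))) (a (b (l 3) (l 317458481415)) (l 3)))) (l 3)) (a (a (l 16776416) (a (l 16776832) (a (l 16777040) (b (l 283635613943) (l 16777104))))) (a (a (a (b (l 3) (l 249275875559)) (l 3))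 (l 3)) (l 3)))))) (a (c (c (a (b (b (l 16775288) (l 16775320)) (l 16774384)) (b (l 16776352) (l 16773960))) (l 16775304)) (l 16775328)) (c (b (b (c (b (a (b (c (a (l 37211865223) (l 3)) (l 286319968679)) (a (l 16777000) (a (l 16777216) (l 589115162855)))) (l 3)) (a (a (l 16776112) (l 16777216)) (a (a (b (l 553681682647) (l 16777184)) (l 617569321159)) (l 3)))) (a (l 16777072) (l 566029713847))) (a (l 16776448) (b (a (l 16777184) (a (b (l 422685180167) (l 16777152)) (b (l 3) (l 385641087223)))) (l 16777016)))) (c (c (l 16776112) (l 16775792)) (l 16775800))) (a (l 16776160) (b (l 212768654535) (l 16776096)))))) (a (b (b (l 687899411639) (l 16777144)) (l 16775384)) (b (l 663740221111) (l 16777776)))) (b (c (c (l 323364065351) (l 478519755783)) (a (b (l 708837377159) (a (l 16776920) (l 228337911463))) (l 681993832055))) (c (l 16776000) (c (l 16776048) (b (a (l 16776112) (l 73719087447)) (l 16775536)))))), by decide +kernel⟩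

def k40_pp_022_s : ∃ t, chk3 f_pp_022_s t 289 271 1 = true :=
  ⟨(a (b (l 3) (b (a (a (b (l 3) (b (l 3) (c (c (a (b (l 327659028759) (l 16777128)) (b (l 3) (l 291151806727))) (l 16777240)) (l 16777232)))) (l 3)) (l 3)) (c (c (b (c (b (a (a (l 16776960) (a (b (l 278266904775) (l 16777096)) (b (l 3) (l 242296553655)))) (l 3)) (a (l 16776792) (a (b (a (l 16777296) (l 610053128423)) (l 16777296)) (l 650318446887)))) (l 174113948775)) (a (l 16776496) (a (l 16776832) (b (b (a (l 16777192) (l 465097982247)) (l 16777272)) (l 16776872))))) (l 16776944)) (c (l 16776960) (c (l 16776944) (l 16776928)))))) (a (b (l 3) (b (l 3) (b (l 3) (c (c (a (c (b (l 613274353927) (a (l 16777080) (b (l 389936054535) (l 16777144)))) (l 16777256)) (a (b (l 3) (b (l 3) (l 337322705175))) (l 3))) (l 16777320)) (l 266455745943))))) (l 3))), by decide +kernel⟩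

def k41_pp_022_s : ∃ t, chk3 f_pp_022_s t 145 271 1 = true :=
  ⟨(l 3), by decide +kernel⟩

def k42_pp_022_s : ∃ t, chk3 f_pp_022_s t 73 271 1 = true :=
  ⟨(l 3), by decide +kernel⟩

def k43_pp_022_s : ∃ t, chk3 f_pp_022_s t 37 67 1 = true :=
  ⟨(l 3), by decide +kernel⟩

def k44_pp_022_s : ∃ t, chk3 f_pp_022_s t 19 16 1 = true :=
  ⟨(l 3), by decide +kernel⟩

def k45_pp_022_s : ∃ t, chk3 f_pp_022_s t 144 68 4 = true :=
  ⟨(a (b (c (b (a (b (b (l 16772120) (l 16772184)) (l 16767688)) (b (b (a (l 16772960) (a (l 16773384) (l 16773664))) (l 16772000)) (c (l 16768792) (l 16771464)))) (b (l 16765744) (l 16765848))) (b (l 16772216) (l 16762056))) (b (c (l 16756816) (l 16762344)) (l 16751928))) (b (c (b (b (b (a (a (b (l 16775048) (l 16775088)) (l 16776280)) (b (b (a (b (a (l 16776920) (a (l 16777128) (l 324437803223))) (l 16776904)) (a (a (b (l 3) (l 287393710279)) (l 3)) (l 3))) (a (l 16776672) (a (a (l 16777016) (b (l 250886488247) (l 16777080))) (a (b (l 3) (l 16777296)) (l 679309476071)))))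 (b (a (l 16775704) (a (l 16776776) (a (l 16776992) (l 16777296)))) (l 16776496)))) (c (b (a (l 16773424) (a (l 16775576) (l 16775480))) (a (l 16774104) (c (l 16774568) (l 16775232)))) (l 16775000))) (a (b (l 16771872) (l 16771936)) (b (a (l 16772712) (l 16773272)) (l 16771744)))) (b (c (b (l 16768600) (l 16769960)) (l 16768024)) (l 16765488))) (b (b (b (a (l 16775704) (l 16777464)) (l 16775032)) (l 16773200)) (c (l 16764232) (l 16764304)))) (b (b (l 16760456) (l 16763192)) (l 16754176)))), by decide +kernel⟩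

def k46_pp_022_s : ∃ t, chk3 f_pp_022_s t 290 68 4 = true :=
  ⟨(c (b (a (b (b (a (a (b (b (l 3) (b (a (b (l 536501813511) (l 16777192)) (l 625085513927)) (l 16777192))) (l 16776416)) (b (b (l 3) (c (b (l 3) (b (l 507510784343) (a (l 16777160) (l 421074567383)))) (l 404431569559))) (b (l 16777008) (l 16775560)))) (b (l 3) (b (a (b (a (b (l 353428832503) (l 16777128)) (b (l 3) (l 324974674135))) (l 16776968)) (c (b (l 3) (b (a (l 282561872071) (l 3)) (l 49559896215))) (l 354502574679))) (l 16776640)))) (c (b (b (a (l 16775448) (l 16775360)) (l 16774120)) (c (l 16772848) (l 16774176))) (l 16774816))) (b (b (l 16771616) (l 16771680)) (l 16769800))) (b (b (b (l 3) (b (l 3) (b (a (a (b (a (l 16777296) (l 611126870247)) (l 16777296)) (l 657834639655)) (l 3)) (a (a (l 16776904) (a (l 16777112) (b (l 494625882359) (l 16777176)))) (a (l 612200612103) (l 3)))))) (a (c (b (l 16776424) (l 16774024)) (l 16775648)) (b (b (c (a (a (l 16776920) (b (a (l 16777264) (l 265918873847)) (l 16776248))) (b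 (l 576767131879) (a (l 16777048) (a (l 16777152) (l 203641848023))))) (l 16777136)) (l 16776512)) (b (l 16775232) (l 16775264))))) (b (c (b (l 16772728) (l 16772784)) (l 16770824)) (l 16768304)))) (b (b (l 16765224) (l 16765320)) (l 16761520))) (b (b (b (a (b (l 523080041159) (l 16776688)) (b (l 3) (l 484962206279))) (c (l 16776048) (l 16775408))) (l 16771720)) (b (l 16761544) (l 16761824)))), by decide +kernel⟩

def k47_pp_022_s : ∃ t, chk3 f_pp_022_s t 291 68 4 = true :=
  ⟨(b (b (b (l 3) (a (b (c (c (b (a (b (l 3) (a (a (a (l 360408154359) (l 486035947847)) (l 3)) (l 3))) (l 3)) (b (a (a (a (l 16777016) (l 26474447015)) (a (a (l 279340646647) (l 425369534759)) (l 673403896039))) (l 3)) (a (c (l 16777080) (l 16776912)) (a (a (a (l 218137362647) (l 374366798071)) (l 616495579335)) (l 3))))) (b (l 628306739991) (a (l 16777072) (l 568714068391)))) (l 447381242295)) (c (b (a (l 16776448) (b (a (l 16777024) (b (l 478519755127) (a (l 16777152) (l 379198636279)))) (l 16776848))) (c (l 16776096)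 (l 16776112))) (l 16776432))) (b (l 3) (a (b (a (b (l 3) (a (b (l 318532223255) (l 16777120)) (b (l 3) (l 287930581239)))) (l 3)) (b (a (l 16776960) (a (b (l 249275875559) (l 16777088)) (b (l 3) (l 210621169879)))) (l 16776792))) (c (b (l 3) (b (l 3) (a (a (l 16777296) (b (l 550460457223) (l 16777192))) (l 639044157719)))) (l 548312973911)))))) (c (a (c (b (b (a (l 16773568) (a (l 16773992) (l 16774928))) (l 16772592)) (b (l 16772648) (l 16771392))) (l 16773968)) (b (a (b (l 16776256) (l 16773776)) (c (a (b (l 16776424) (l 16773856)) (b (b (a (l 16776944) (b (a (l 179482656951) (l 306721063175)) (l 16776928))) (l 16775736)) (l 16774792))) (l 16775944))) (c (b (l 16772464) (l 16772512)) (l 16770560)))) (b (l 16775144) (l 16770072)))) (b (c (b (a (l 16769536) (l 16768032)) (l 16764952)) (l 16765064)) (b (l 16759920) (l 16762656)))), by decide +kernel⟩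

def k48_pp_022_s : ∃ t, chk3 f_pp_022_s t 72 68 5 = true :=
  ⟨(b (b (b (a (a (l 16773552) (c (l 16775680) (l 16775712))) (a (b (l 558513521895) (c (l 159618434087) (l 16777160))) (l 3))) (a (l 16772248) (a (l 16775456) (a (c (l 121500600503) (l 16777040)) (l 486035948439))))) (a (l 16769992) (c (l 16773568) (l 16773008)))) (a (b (l 16756032) (l 16748608)) (b (l 16768192) (l 16758160)))), by decide +kernel⟩

def k49_pp_022_s : ∃ t, chk3 f_pp_022_s t 73 272 2 = true :=
  ⟨(l 3), by decide +kernel⟩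

def k50_pp_022_s : ∃ t, chk3 f_pp_022_s t 292 273 2 = true :=
  ⟨(b (b (a (c (a (c (c (a (b (b (l 602536935671) (a (l 16777064) (a (l 16777176) (l 242296553703)))) (l 16776664)) (b (b (l 3) (l 561197875415)) (b (b (l 146196660407) (l 16777024)) (l 16776136)))) (b (l 333027738391) (l 16776808))) (l 16777128)) (c (b (l 3) (c (a (b (a (a (l 334101479655) (l 459729273143)) (l 3)) (l 16777232)) (a (b (l 3) (a (l 250349617383) (l 406042181895))) (l 662129607031))) (l 291688678103))) (l 372756186535))) (l 16777280)) (l 3)) (c (a (c (c (a (b (l 16775528) (l 16775552)) (b (c (l 16776944) (l 16776744)) (l 16775456))) (l 16776160)) (l 16776176)) (a (c (b (a (b (b (l 503752688007) (a (l 16777168) (l 416779600135))) (l 16777008)) (b (l 3) (a (a (l 16777344) (l 254644584695)) (a (l 387788570935) (l 540259909975))))) (l 16776840)) (l 16777000)) (b (l 3) (a (b (a (b (l 279340646647) (l 16777104)) (b (l 3) (l 239612199143))) (l 16776936)) (c (b (l 3) (a (l 16777312) (a (l 260013293815) (l 392620409143))))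 (l 16777288)))))) (l 16778064))) (c (c (c (a (b (b (l 16774224) (l 16774584)) (l 16772328)) (a (b (b (l 16775392) (l 16775424)) (l 16774480)) (b (l 16776456) (l 16773728)))) (l 16774848)) (l 16774880)) (l 16774960))), by decide +kernel⟩

def k51_pp_022_s : ∃ t, chk3 f_pp_022_s t 293 273 2 = true :=
  ⟨(c (b (b (l 3) (a (a (a (b (l 3) (b (l 3) (l 654076543271))) (l 3)) (l 3)) (l 3))) (b (c (a (a (b (a (a (l 16777160) (b (a (l 180556398839) (l 328195899671)) (l 16776936))) (b (l 608442515719) (a (l 16777080) (a (l 16777344) (l 249812746519))))) (l 16776544)) (c (a (b (b (l 3) (l 576230260951)) (a (l 16776888) (b (l 153712853175) (l 16776872)))) (b (l 3) (c (b (l 534891200695) (l 16777240)) (l 222969201063)))) (b (l 624548643335) (l 16777096)))) (b (l 3) (a (a (a (b (l 3) (a (l 251960230167) (l 398525989175))) (l 668572057975)) (l 3)) (l 3)))) (a (c (l 152102241511) (l 16777144)) (l 638507287575))) (a (c (c (c (l 16776200) (l 16775880)) (l 16775888)) (l 16775904)) (c (b (b (a (a (l 16777048)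 (a (a (l 185388237047) (l 333027737879)) (l 474224787895))) (l 3)) (c (a (l 16776872) (a (b (l 456508047719) (l 198273138887)) (l 3))) (l 155860337335))) (b (c (a (l 16775904) (a (l 16776976) (a (l 155860336823) (l 383493603639)))) (l 16776840)) (l 16776688))) (l 108615697607))))) (b (l 684141316391) (a (l 16776560) (c (l 247665265223) (l 16777368))))), by decide +kernel⟩

def k52_pp_022_s : ∃ t, chk3 f_pp_022_s t 147 273 2 = true :=
  ⟨(b (l 3) (a (c (b (l 3) (c (a (a (b (l 3) (b (l 3) (a (a (l 16777312) (a (l 253033971991) (l 399062860087))) (l 661055865127)))) (l 3)) (l 3)) (l 608442516903))) (l 641191643143)) (l 3))), by decide +kernel⟩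

def k53_pp_022_s : ∃ t, chk3 f_pp_022_s t 146 137 2 = true :=
  ⟨(c (c (a (b (b (a (a (l 16768872) (l 16770744)) (b (l 16772208) (l 16772264))) (a (l 16769264) (l 16767760))) (b (l 16767304) (l 16764768))) (b (c (b (b (a (a (l 16774344) (l 16773592)) (l 16776064)) (a (l 16773360) (a (l 16774200) (l 16773448)))) (a (l 16768848) (a (l 16772312) (l 16771560)))) (b (l 16774576) (l 16769456))) (b (c (l 16766888) (l 16769576)) (l 16767016)))) (b (a (l 16771200) (l 16774040)) (b (l 16763352) (l 16760880)))) (b (c (l 16772400) (l 16772512)) (l 16767688))), by decide +kernel⟩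

def k54_pp_022_s : ∃ t, chk3 f_pp_022_s t 147 548 4 = true :=
  ⟨(a (c (b (a (a (a (l 16776600) (b (a (l 16777120) (b (a (l 184851366135) (l 332490866967)) (l 16776936))) (l 16775744))) (a (b (b (l 610053128455) (a (l 16777080) (a (l 16777184) (l 251423359255)))) (l 16776680)) (b (b (l 3) (l 571935293655)) (b (b (l 164987142343) (l 16777032)) (l 16776800))))) (b (l 3) (c (a (a (b (l 531133104311) (l 16777240)) (b (l 3) (b (l 674477637863) (l 311016030471)))) (l 3)) (l 496236495287)))) (b (b (a (a (l 16775792) (l 16775696)) (c (a (l 16776904) (a (a (a (l 188609462487) (l 349670736103)) (l 483351593351)) (l 3))) (l 167671497463))) (c (a (l 16775096) (a (l 16775936) (a (l 16777008) (b (l 448454984039) (l 173040206055))))) (l 16776320))) (c (a (l 16774296) (l 16776560)) (l 16775856)))) (b (a (l 16776864) (l 538112426727)) (l 16776184))) (a (b (l 3) (b (l 3) (c (c (b (a (a (a (l 145122918583) (l 371682443575)) (l 3)) (l 3)) (a (a (l 16776936) (b (l 331953996055) (l 16777136))) (l 660518994343)))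 (l 436643823911)) (l 305647322359)))) (l 3))), by decide +kernel⟩

def k55_pp_022_s : ∃ t, chk3 f_pp_022_s t 147 549 4 = true :=
  ⟨(c (a (c (c (b (a (l 16773024) (b (a (l 16775488) (l 16775392)) (l 16773824))) (a (l 16773072) (l 16772880))) (l 16774272)) (l 16774296)) (a (b (c (a (l 16776288) (b (a (b (b (l 270213841143) (l 16777096)) (l 16776864)) (b (l 606831902967) (a (l 16777072) (l 184314495207)))) (l 16776528))) (l 16777232)) (b (a (l 16775352) (l 16775256)) (l 16774024))) (a (b (b (a (b (l 3) (l 556366037207)) (l 3)) (c (b (a (l 16777304) (b (l 3) (l 348596994343))) (l 16777088)) (l 16777088))) (l 16776312)) (b (b (l 3) (c (a (b (l 3) (b (l 659982123223) (l 274508808487))) (l 3)) (l 473687917463))) (c (b (a (l 16776872) (b (b (l 490867786103) (l 210621169927)) (l 16776992))) (l 16775728)) (l 16776704)))))) (a (l 16774336) (a (l 16775968) (b (l 321216579367) (l 16776440))))), by decide +kernel⟩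

def k56_pp_022_s : ∃ t, chk3 f_pp_022_s t 147 274 5 = true :=
  ⟨(b (a (a (l 16776288) (a (l 16777072) (l 248739007047))) (l 597705098967)) (a (l 16774432) (c (l 16778512) (l 16776568)))), by decide +kernel⟩

def k57_pp_022_s : ∃ t, chk3 f_pp_022_s t 147 275 2 = true :=
  ⟨(a (c (b (c (b (a (l 16771840) (l 16772952)) (l 16768520)) (l 16766632)) (b (l 16767336) (l 16766088))) (l 16770864)) (c (c (c (b (b (a (l 16772744) (c (b (l 16774816) (l 16774840)) (l 16773856))) (a (l 16772792) (l 16772592))) (b (l 16770120) (l 16770824))) (l 16773744)) (l 16772824)) (l 16772976))), by decide +kernel⟩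

def k58_pp_022_s : ∃ t, chk3 f_pp_022_s t 36 68 3 = true :=
  ⟨(b (a (b (a (c (c (l 16773576) (a (l 16772656) (l 16774680))) (b (a (l 16773912) (c (l 16775832) (b (l 16776384) (l 16775336)))) (l 16772416))) (b (a (a (c (l 144049179671) (b (l 527911879303) (l 16776752))) (c (l 424295796423) (b (l 3) (c (l 330880256103) (l 329806514343))))) (l 3)) (a (c (l 16775544) (c (l 16775616) (l 16775664))) (a (c (l 16778328) (c (l 94657055255) (b (l 283635615847) (l 16776552)))) (c (l 328732773959) (b (l 3) (c (l 16777320) (l 243907168215)))))))) (c (a (l 16769088) (c (l 16773112) (l 16773224))) (a (c (l 16769432) (l 16769672)) (c (l 16773344) (b (l 16774512) (l 16772416)))))) (b (l 3) (a (b (a (a (c (l 16776840) (c (l 16776808) (b (l 197736269703) (l 16776328)))) (c (l 269676973511) (b (l 3) (l 140291081063)))) (c (l 694341863671) (l 702394927303))) (a (c (l 16775072) (l 16775192)) (b (c (l 229948525799) (a (l 16778232) (l 656224027607))) (c (l 16776528) (c (l 16776568) (l 16776536)))))) (b (l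 3) (a (c (l 649781577687) (b (l 3) (l 640654771543))) (l 3)))))) (a (c (a (l 16762288) (b (l 16768640) (l 16764112))) (a (b (l 16765288) (l 16761032)) (b (l 16769152) (l 16764896)))) (c (a (b (l 16772696) (l 16768168)) (b (a (b (c (l 16776832) (l 16776808)) (l 16774576)) (b (l 605221291687) (l 16776608))) (l 16772192))) (b (a (c (l 16772896) (b (l 16774072) (l 16771992))) (b (b (a (a (l 16776888) (l 381882993079)) (l 3)) (a (l 16776336) (l 549923587111))) (b (a (l 16775264) (a (l 16776680) (l 277193165159))) (l 16775312)))) (a (l 16768720) (c (l 16772424) (l 16772584))))))), by decide +kernel⟩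

def k59_pp_022_s : ∃ t, chk3 f_pp_022_s t 37 136 1 = true :=
  ⟨(l 3), by decide +kernel⟩

def k60_pp_022_s : ∃ t, chk3 f_pp_022_s t 296 137 1 = true :=
  ⟨(b (a (b (l 3) (b (l 3) (c (c (a (c (b (a (b (l 3) (a (l 183240753367) (l 391009796471))) (l 3)) (a (l 16776800) (b (b (l 351281348951) (l 16777152)) (l 16776920)))) (l 16777216)) (c (c (b (l 3) (a (b (l 679846347047) (a (l 16777128) (l 273435066663))) (l 648170963367))) (l 549923586647)) (l 422148310567))) (l 16777344)) (b (l 398525991015) (l 120963729239))))) (l 3)) (a (c (c (c (b (a (b (l 16776000) (l 16773440)) (c (b (b (a (l 16776728) (a (l 16776936) (b (l 211694911751) (l 16776256)))) (l 16775576)) (l 16774312)) (l 16775936))) (b (l 16772456) (l 16772512))) (l 16774456)) (l 16774544)) (c (l 16774688) (l 16774840))) (c (c (c (b (b (c (b (a (a (b (l 584283324647) (a (l 16777048) (l 162839658695))) (b (l 3) (l 542944264375))) (l 3)) (b (a (l 16777192) (a (a (l 314774126919) (l 666424574167)) (l 3))) (a (l 16775976) (a (l 16777048)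 (a (l 251960230183) (l 489257173383)))))) (b (l 513416364519) (l 127943049335))) (a (b (l 16775512) (l 16774224)) (b (l 16776880) (l 16775432)))) (b (a (l 16773288) (a (l 16773704) (l 16773976))) (l 16772312))) (b (b (l 226190427719) (l 16776152)) (l 16769064))) (c (l 16776896) (l 16775624))) (c (l 16775696) (b (c (l 16776792) (l 16778400)) (l 16774712)))))), by decide +kernel⟩

def k61_pp_022_s : ∃ t, chk3 f_pp_022_s t 297 137 1 = true :=
  ⟨(b (l 3) (b (b (l 3) (c (c (a (c (a (b (a (b (a (l 198810009847) (l 414632116615)) (l 16776968)) (b (l 3) (a (l 137069854935) (l 357723799895)))) (l 16776640)) (b (l 3) (b (a (b (l 309405417799) (l 16777128)) (l 641191641367)) (b (a (l 16776976) (l 249812746519)) (l 16776952))))) (l 181630141863)) (a (a (b (l 3) (b (l 3) (l 589115162855))) (l 3)) (l 3))) (l 269140102231)) (a (a (l 16776984) (l 233169750151)) (l 521469429431)))) (c (c (b (a (b (c (l 16776456) (l 16776304)) (l 16776008)) (c (a (b (c (b (a (a (l 16777064) (l 170355851495)) (l 553144811719))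 (l 16777200)) (l 16777112)) (l 16776488)) (b (a (a (b (l 3) (l 327659028823)) (l 673403896199)) (l 3)) (a (l 16777064) (b (a (l 270750712103) (l 506973913479)) (l 16777016))))) (l 16777744))) (c (a (a (l 16773136) (l 16774016)) (c (l 16776144) (l 16775832))) (l 16775312))) (l 16775976)) (c (l 16776048) (c (l 16776112) (l 16776096)))))), by decide +kernel⟩

def k62_pp_022_s : ∃ t, chk3 f_pp_022_s t 149 137 1 = true :=
  ⟨(a (b (l 3) (b (l 3) (a (c (c (c (a (a (b (b (l 3) (b (l 3) (a (l 206863073543) (l 428590760327)))) (l 16776712)) (b (l 3) (b (b (a (l 166060884151) (l 364166250855)) (l 16776936)) (l 16775816)))) (b (l 3) (a (b (b (l 3) (a (l 16777144) (l 306184192311))) (l 16776744)) (b (l 664277090743) (a (l 16776952) (b (l 241759682839) (l 16776928))))))) (b (l 602000065463) (l 16776936))) (l 219747978199)) (c (l 16777304) (b (l 488183433703) (l 16776936)))) (a (b (l 3) (c (c (c (c (b (l 3) (b (l 629380481399) (a (a (l 16777064) (l 177335173351)) (l 557439779015)))) (l 525764395543))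 (l 397989119463)) (l 16777464)) (l 373829929191))) (l 3))))) (l 3)), by decide +kernel⟩

def k63_pp_022_s : ∃ t, chk3 f_pp_022_s t 75 137 1 = true :=
  ⟨(l 3), by decide +kernel⟩

def k64_pp_022_s : ∃ t, chk3 f_pp_022_s t 36 69 1 = true :=
  ⟨(b (c (c (b (b (a (a (l 16754504) (l 16753776)) (a (a (l 16762376) (l 16759368)) (a (l 16762896) (a (l 16765864) (l 16766968))))) (a (a (l 16751968) (l 16756488)) (a (c (l 16760824) (l 16761152)) (a (l 16764320) (l 16763920))))) (a (a (l 16748160) (l 16747448)) (a (c (l 16751752) (l 16757408)) (a (l 16755304) (a (l 16756976) (l 16758088)))))) (a (a (l 16741368) (c (l 16745456) (l 16745968))) (a (l 16763120) (b (l 16767152) (l 16751872))))) (a (c (a (l 16753176) (l 16757296)) (a (l 16754664) (l 16758544))) (c (a (l 16761376) (l 16765424)) (b (a (l 16764488) (l 16768272)) (l 16762168))))) (c (b (a (c (a (l 16743048) (l 16747608)) (l 16736280)) (a (c (l 16741640) (l 16753256)) (c (c (l 16751160) (l 16756840)) (l 16747064)))) (a (a (l 16728296) (l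 16732776)) (c (a (l 16747040) (l 16741064)) (l 16740104)))) (a (c (l 16746136) (l 16748152)) (c (l 16754344) (a (l 16753928) (l 16757736)))))), by decide +kernel⟩

def k65_pp_022_s : ∃ t, chk3 f_pp_022_s t 74 276 2 = true :=
  ⟨(c (b (a (c (b (a (c (l 16769168) (l 16771840)) (a (l 16772160) (a (l 16772984) (l 16773536)))) (a (l 16770552) (a (l 16772208) (l 16772000)))) (l 16772392)) (a (c (b (a (a (a (l 16773944) (l 16774552)) (b (l 16775600) (l 16774320))) (b (c (b (a (l 16777208) (a (a (l 350207607079) (l 675014508775)) (l 3))) (a (l 16775992) (a (l 16777056) (a (l 271287583015) (l 506437042567))))) (l 130090533671)) (a (l 16775520) (l 16776888)))) (a (a (l 16774136) (l 16773376)) (b (a (l 16775552) (l 16775440)) (l 16774216)))) (l 16776936)) (c (b (b (l 3) (a (a (a (b (a (l 207936815367) (l 428590760327)) (l 16776976)) (b (l 3) (a (l 16777344) (l 362018767207)))) (l 3)) (l 3))) (b (b (a (a (l 16776800) (a (a (l 16777144) (l 301889225015)) (l 643875995927))) (l 3)) (a (b (a (l 16775912)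 (a (l 16776976) (l 253570842903))) (l 16776888)) (c (a (l 625085514103) (l 3)) (l 642802254471)))) (a (l 16776456) (c (b (a (a (l 14663287031) (a (l 407115923783) (l 3))) (l 3)) (a (l 16777120) (a (a (l 328195899719) (l 560124133799)) (l 3)))) (l 276656292167))))) (a (b (l 506437042807) (l 16776624)) (l 530596234295))))) (c (a (a (l 16766040) (b (l 16769536) (l 16770248))) (c (b (a (a (l 16773136) (l 16772936)) (a (c (b (l 16774672) (l 16775024)) (l 16774040)) (a (l 16776168) (a (l 16776864) (b (b (a (l 260013293863) (l 494089011591)) (l 16777008)) (l 16775880)))))) (a (a (l 16771872) (l 16772984)) (a (l 16772776) (a (l 16773600) (l 16774472))))) (a (l 16770480) (b (l 16775904) (l 16772040))))) (a (l 16764680) (a (l 16767920) (l 16775312))))) (a (l 16771360) (b (a (l 16775680) (a (l 152102243111) (l 383493606839))) (l 16774344)))), by decide +kernel⟩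

def k66_pp_022_s : ∃ t, chk3 f_pp_022_s t 74 277 2 = true :=
  ⟨(a (c (a (b (l 16761000) (l 16763728)) (b (a (l 16767888) (l 16766368)) (l 16760696))) (l 16766592)) (c (c (b (a (a (l 16770008) (l 16768496)) (a (a (l 16769320) (l 16771176)) (b (l 16772624) (l 16772680)))) (a (l 16765416) (a (l 16769696) (l 16768168)))) (l 16770544)) (l 16770776))), by decide +kernel⟩

def k67_pp_022_s : ∃ t, chk3 f_pp_022_s t 74 139 2 = true :=
  ⟨(c (c (b (a (b (l 16762168) (l 16759624)) (a (a (l 16763688) (l 16764792)) (b (l 16767720) (l 16765184)))) (a (l 16755792) (b (l 16761544) (l 16758992)))) (a (b (l 16750752) (l 16756248)) (b (l 16760352) (l 16760624)))) (c (b (l 16763744) (l 16748400)) (l 16761736))), by decide +kernel⟩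

def k68_pp_022_s : ∃ t, chk3 f_pp_022_s t 75 276 2 = true :=
  ⟨(b (l 3) (a (a (a (c (b (c (c (b (a (a (a (b (l 3) (l 196125655287)) (l 596631355687)) (l 3)) (l 3)) (a (a (l 16776816) (a (l 16777184) (b (l 362018767159) (l 16777000)))) (a (b (l 3) (a (l 16777136) (l 301352354055))) (l 656760897959)))) (b (l 582135841399) (l 198273139591))) (l 280951260823)) (c (a (l 16776008) (a (l 16776424) (b (a (l 16776936) (b (l 222432329991) (l 16776920))) (l 16775728)))) (l 16776304))) (l 16776952)) (b (l 3) (c (c (a (c (b (b (l 617032450407) (a (l 16777288) (l 439865049511))) (l 16776952)) (l 144049177431)) (c (b (l 3) (b (b (l 675014508903) (l 518248202439)) (a (l 16777040) (a (l 239075328279) (l 472077304183))))) (l 488183431591))) (l 231559136759)) (l 16777264)))) (l 3)) (l 3))), by decide +kernel⟩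

def k69_pp_022_s : ∃ t, chk3 f_pp_022_s t 150 277 4 = true :=
  ⟨(c (c (b (a (c (b (a (b (l 16774024) (l 16774696)) (l 16776440)) (a (l 16773752) (a (l 16774576) (l 16773816)))) (l 16775600)) (b (a (b (a (a (b (a (l 16777200) (l 408189665607)) (l 16776952)) (b (l 3) (a (l 16777160) (l 336785834279)))) (l 673940767303)) (a (l 16776616) (a (a (l 16776960) (b (l 273971937527) (l 16776936))) (b (l 616495579383) (l 16777328))))) (a (a (b (l 3) (l 605221290343)) (l 3)) (l 3))) (a (l 16776280) (b (b (a (a (l 16777104) (l 415168987543)) (l 3)) (a (l 16776920) (a (a (l 275045679399) (l 507510784391)) (l 3)))) (a (l 16775800) (a (l 16776864) (b (a (l 203641848071) (l 442012533079)) (l 16776976)))))))) (b (a (a (l 16772496) (l 16773592)) (b (l 16775960) (a (l 16774376) (l 16774152)))) (a (l 16769160) (a (l 16773424) (l 16773208))))) (b (a (l 16774960) (b (a (b (l 334101480535) (l 16776896)) (l 657834640423)) (a (l 16775960) (a (l 16776768) (l 238538458071))))) (l 16774208))) (a (l 16773768) (b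 (b (a (l 16777848) (l 657297769511)) (l 16777832)) (l 16774672)))), by decide +kernel⟩

def k70_pp_022_s : ∃ t, chk3 f_pp_022_s t 151 277 4 = true :=
  ⟨(b (a (c (b (l 3) (a (c (b (l 3) (a (a (a (b (l 3) (l 16777176)) (l 559587262727)) (l 3)) (l 3))) (l 596094485367)) (l 3))) (l 644412868583)) (l 3)) (b (a (a (c (a (a (l 16776464) (b (a (l 16776984) (b (l 286319968567) (l 16776960))) (l 16775768))) (c (b (a (b (l 639044157703) (l 130627404039)) (l 619179934071)) (c (l 16777152) (l 16776824))) (l 168208368455))) (l 16776880)) (c (c (b (l 3) (a (b (l 579988357431) (a (l 16777072) (l 384567345527))) (l 3))) (l 542407394007)) (l 420537698199))) (l 3)) (b (a (a (l 16776272) (c (a (l 16776744) (c (c (a (b (l 324974674263) (l 16776992)) (b (l 3) (l 273971937575))) (l 256255197751)) (l 16777248))) (l 16777024))) (l 3)) (c (a (a (l 16773992) (l 16776552)) (a (c (b (a (a (l 225653555447) (l 651929059607)) (l 3)) (a (a (l 16776904) (l 155323465975)) (l 626696126823))) (l 310479160359)) (l 3)))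 (a (l 16775872) (l 511805752055)))))), by decide +kernel⟩

def k71_pp_022_s : ∃ t, chk3 f_pp_022_s t 75 277 5 = true :=
  ⟨(a (a (l 16773888) (a (l 16776752) (b (l 242833427527) (l 16775272)))) (b (l 656224029639) (a (c (l 16776824) (l 16776848)) (l 591262647911)))), by decide +kernel⟩

def k72_pp_022_s : ∃ t, chk3 f_pp_022_s t 75 139 2 = true :=
  ⟨(c (c (a (b (b (a (c (l 16767264) (l 16769952)) (a (l 16769592) (b (l 16773280) (l 16772024)))) (a (l 16767392) (c (l 16766928) (l 16769624)))) (b (a (l 16764864) (l 16767064)) (l 16758184))) (a (b (c (a (b (b (l 16773040) (l 16773088)) (l 16771192)) (b (b (c (b (l 16775096) (l 16775120)) (l 16772824)) (l 16772864)) (l 16770320))) (l 16773048)) (b (l 16766624) (l 16766720))) (b (b (b (a (a (l 16776256) (b (b (a (l 16777296) (l 447918113207)) (l 16777280)) (l 16776480))) (b (a (b (l 3) (b (l 3) (l 518785073351))) (l 3)) (c (a (a (l 16776888) (b (l 341617672535) (l 16777000))) (a (b (l 3) (l 283635614007)) (l 3))) (l 238001587063)))) (a (a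 (l 16773696) (c (l 16774552) (l 16775552))) (a (l 16776080) (c (a (l 16776480) (b (b (l 231022264583) (l 16776912)) (l 16775128))) (l 16776624))))) (a (b (l 16772712) (l 16772768)) (b (b (l 16774432) (l 16773472)) (l 16772536)))) (b (a (l 16768256) (a (l 16771688) (l 16769608))) (l 16766280))))) (b (a (l 16769912) (a (l 16773112) (a (l 16774704) (b (a (l 16776728) (l 193441302279)) (l 16774528))))) (c (l 16769688) (l 16767176)))) (b (a (l 16770168) (c (b (l 16775456) (l 16773040)) (l 16774336))) (a (l 16765400) (l 16769536)))), by decide +kernel⟩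

def k73_pp_022_s : ∃ t, chk3 f_pp_022_s t 37 69 3 = true :=
  ⟨(b (a (c (a (b (l 16771672) (l 16767160)) (b (a (l 16774640) (b (l 218674237735) (l 16775480))) (l 16771128))) (b (a (c (l 16771928) (l 16772104)) (b (a (l 16775864) (a (a (l 16776936) (l 196125658007)) (l 526838137815))) (l 16774672))) (a (l 16767808) (l 16771520)))) (b (a (b (l 3) (a (c (l 169282113543) (b (c (l 331953998967) (l 331953999031)) (l 16778144))) (l 3))) (l 3)) (a (a (c (l 16774064) (l 16774272)) (b (a (c (l 16776672) (l 16776648)) (b (l 513953237911) (l 62981671367))) (l 16774968))) (b (a (c (l 518785078215) (l 656760899447)) (l 3)) (a (c (l 16776824) (b (l 169818980951) (l 16776336))) (c (l 457044923223) (l 600389453335))))))) (a (c (a (l 16760392) (l 16764376)) (b (a (l 16763600) (l 16767320)) (l 16761280))) (c (b (a (l 16770560) (c (l 16774416) (l 16774512))) (l 16768024)) (b (a (l 16771000) (b (a (l 16774768) (c (l 16776528) (l 16776488))) (l 16773584))) (a (l 16766816) (l 16770456)))))), by decide +kernel⟩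

def k74_pp_022_s : ∃ t, chk3 f_pp_022_s t 19 68 1 = true :=
  ⟨(l 3), by decide +kernel⟩

def k75_pp_022_s : ∃ t, chk3 f_pp_022_s t 38 138 1 = true :=
  ⟨(l 3), by decide +kernel⟩

def k76_pp_022_s : ∃ t, chk3 f_pp_022_s t 152 278 1 = true :=
  ⟨(a (b (a (b (l 3) (c (c (c (a (c (a (b (b (l 668035186967) (l 159618433287)) (l 16776712)) (b (l 632064835975) (l 16777304))) (l 171429593975)) (c (b (l 3) (b (l 591799517511) (a (l 16777088) (l 400136601991)))) (l 508584526295))) (l 249275876903)) (l 16777288)) (l 182703884983))) (l 3)) (c (c (c (c (b (a (c (l 16776576) (l 16776176)) (b (a (a (b (l 346986381655) (l 16777000)) (b (l 3) (l 287393710391))) (l 3)) (a (l 16776664) (a (b (l 233706619143) (l 16776912)) (b (l 669108928791) (l 161229046023)))))) (a (a (l 16774640) (l 16773872)) (l 16775992))) (b (a (l 16776184) (b (l 351281349767) (l 16776936))) (l 16775472))) (c (l 16777744) (l 16776120))) (l 16776160)) (c (l 16776232) (l 16776248)))) (b (l 3) (a (c (c (a (c (b (c (b (l 3) (l 643339125255))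 (l 663203349303)) (b (b (a (l 16777464) (l 454360564151)) (l 16776960)) (l 16776488))) (l 235854104503)) (c (b (l 3) (c (a (b (l 560661004583) (l 16776888)) (b (l 3) (b (l 343228285271) (l 16777000)))) (l 259476423591))) (l 484425335495))) (l 248739007591)) (b (l 517174463399) (l 16777048))) (a (a (b (l 3) (c (c (b (l 3) (b (l 3) (a (l 16777368) (l 396378505575)))) (l 16777456)) (l 16777448))) (l 3)) (l 3))))), by decide +kernel⟩

def k77_pp_022_s : ∃ t, chk3 f_pp_022_s t 152 279 1 = true :=
  ⟨(c (c (c (a (b (a (b (l 16772360) (l 16772416)) (b (a (l 16774480) (l 16773704)) (l 16770872))) (a (l 16770528) (l 16768984))) (b (b (a (l 16776144) (c (a (a (l 16776480) (b (b (l 227264168199) (l 16776904)) (l 16775128))) (b (a (b (l 661055865111) (l 16777336)) (l 629917352311)) (l 16777168))) (l 33990640439))) (c (a (l 16773240) (c (b (l 16774960) (l 16775312)) (l 16773008))) (l 16775112))) (c (b (a (l 16773296) (l 16773056)) (l 16771264)) (l 16770624)))) (b (a (l 16773656) (l 16775760)) (l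 16772256))) (c (l 16773576) (l 16773672))) (c (l 16773824) (b (l 16775096) (l 16773008)))), by decide +kernel⟩

def k78_pp_022_s : ∃ t, chk3 f_pp_022_s t 153 139 1 = true :=
  ⟨(b (l 3) (a (b (c (c (c (b (b (l 3) (a (a (b (l 581598970167) (a (l 16777088) (l 377588023719))) (l 3)) (l 3))) (b (a (a (l 16776752) (c (a (b (l 330343383383) (l 16776992)) (b (l 3) (l 273971937575))) (l 16777248))) (l 3)) (a (l 16776392) (c (a (b (a (l 217600491767) (l 644412866823)) (l 16777360)) (l 634749190631)) (l 308331676695))))) (b (l 576767132855) (c (l 199883753207) (l 16777192)))) (c (l 268066360823) (l 16777464))) (c (l 231022268775) (a (l 152102243527) (l 414632120119)))) (c (c (c (c (a (b (a (l 16773864) (l 16774728)) (l 16772872)) (a (l 16776112) (b (a (l 16777016) (b (b (l 434496340375) (l 16777072)) (l 16775288))) (l 16774216)))) (l 16775368)) (l 16775400)) (l 16775464)) (c (l 16775568) (l 16775680)))) (b (l 3) (c (c (c (b (a (a (c (b (a (l 542944264471) (l 3)) (a (l 16776864) (b (l 314237256007)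 (l 16776976)))) (l 250349618071)) (a (b (l 3) (b (l 3) (l 232632877415))) (l 3))) (l 3)) (a (a (l 16776064) (a (l 16776464) (b (b (l 182167011623) (l 16776880)) (l 16775104)))) (a (b (a (b (l 618643063031) (l 16777152)) (l 602000064855)) (l 16777144)) (b (l 3) (b (l 555829166359) (a (l 16777056) (l 339470188935))))))) (b (l 497847108423) (l 107005085431))) (l 202031238807)) (c (l 16777224) (a (l 16776912) (l 295446777495))))))), by decide +kernel⟩

def k79_pp_022_s : ∃ t, chk3 f_pp_022_s t 77 139 1 = true :=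
  ⟨(l 3), by decide +kernel⟩

def k80_pp_022_s : ∃ t, chk3 f_pp_022_s t 39 69 1 = true :=
  ⟨(l 3), by decide +kernel⟩

def k81_pp_022_s : ∃ t, chk3 f_pp_022_s t 18 35 1 = true :=
  ⟨(b (b (a (c (a (c (a (l 16730216) (l 16724320)) (l 16713640)) (c (a (l 16728888) (b (l 16746456) (l 16741352))) (a (l 16720184) (l 16724512)))) (a (c (l 16737016) (l 16739728)) (c (l 16745264) (l 16747448)))) (c (b (a (c (a (l 16740464) (c (l 16755168) (l 16755640))) (l 16743824)) (c (a (b (l 16755816) (l 16753296)) (c (a (l 16757680) (b (l 16766376) (l 16763848))) (l 16759064))) (l 16762712))) (a (c (a (l 16745864) (l 16750336)) (l 16739008)) (c (a (l 16746896) (a (l 16758048) (l 16754984))) (l 16757928)))) (a (c (l 16753360) (l 16754680)) (c (c (l 16761048) (l 16761568)) (b (l 16764480) (l 16760320)))))) (a (c (a (c (l 16706480) (l 16703896)) (c (b (l 16723480) (l 16728840)) (l 16712664))) (a (l 16729592) (c (l 16736192) (l 16739096)))) (c (c (a (a (l 16727728) (b (l 16745256) (l 16740168))) (a (b (l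 16749704) (l 16744640)) (b (l 16743624) (l 16749064)))) (a (a (l 16719144) (l 16723424)) (l 16750752))) (a (c (l 16744336) (l 16746680)) (c (l 16752320) (l 16754104)))))) (b (a (c (c (a (l 16711904) (l 16700192)) (a (l 16715144) (l 16702992))) (a (l 16720928) (l 16728968))) (c (a (c (b (l 16732840) (l 16727768)) (l 16711680)) (c (b (l 16731328) (l 16715816)) (l 16720232))) (a (l 16736864) (c (l 16743400) (l 16745912))))) (a (c (c (a (l 16701624) (l 16710960)) (c (l 16688024) (l 16689984))) (a (l 16712360) (l 16720440))) (c (a (c (l 16699216) (l 16702144)) (c (c (l 16728720) (l 16729856)) (l 16710776))) (a (l 16728392) (l 16725712)))))), by decide +kernel⟩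

def k82_pp_022_s : ∃ t, chk3 f_pp_022_s t 76 70 1 = true :=
  ⟨(c (b (c (c (b (b (a (a (l 16765928) (a (l 16770168) (l 16768624))) (c (a (a (l 16769672) (b (l 16774000) (l 16772744))) (a (b (a (l 16774800) (l 16774024)) (l 16773816)) (b (l 16776464) (l 16773568)))) (l 16774600))) (a (a (l 16766024) (l 16768192)) (a (c (l 16767688) (l 16770384)) (a (l 16769984) (b (l 16771016) (l 16772392)))))) (a (c (b (l 16764528) (l 16761984)) (l 16758160)) (a (b (l 16767832) (l 16765312)) (b (c (l 16767320) (l 16770016)) (l 16767464))))) (b (a (c (l 16763272) (l 16758128)) (l 16774080)) (l 16768704))) (a (b (l 16768880) (l 16753640)) (b (l 16772928) (l 16768200)))) (c (c (b (a (l 16753016) (b (l 16758624) (l 16761344))) (a (l 16753176) (l 16757552))) (b (a (l 16758672) (l 16752440)) (l 16745376))) (c (l 16758808) (l 16759304)))) (b (c (b (a (l 16769352) (l 16773176)) (l 16766816)) (b (a (l 16769896) (l 16773456)) (a (l 16765752) (l 16769320)))) (c (l 16760128) (b (l 16763416) (l 16759296))))), by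 decide +kernel⟩

def k83_pp_022_s : ∃ t, chk3 f_pp_022_s t 154 70 2 = true :=
  ⟨(c (b (b (c (b (a (a (b (a (b (a (b (l 265918873991) (l 16776960)) (b (l 3) (l 207399944535))) (l 16776624)) (b (l 672867025431) (b (a (l 16777336) (l 500531462615)) (l 16776992)))) (l 16776280)) (a (a (b (b (l 3) (l 582135841095)) (l 16776976)) (b (l 3) (b (b (l 371682443671) (l 16777032)) (l 16775256)))) (b (l 3) (c (b (b (l 3) (l 497310236887)) (a (l 16776824) (b (l 261087035671) (l 16776936)))) (l 234243490663))))) (b (l 3) (b (l 3) (b (l 3) (a (a (a (l 183777624359) (l 528448750055)) (l 3)) (l 3)))))) (c (a (b (l 16775712) (a (l 16773432) (l 16773184))) (b (b (a (a (l 16777184) (a (b (l 466708595127) (l 16777096)) (l 564419100967))) (l 3)) (a (l 16776496) (a (b (l 513416364263) (a (l 16777000) (l 284172484903))) (l 3)))) (b (a (l 16774560) (a (l 16776664) (b (a (l 222969200887) (l 648707834103)) (l 16777032)))) (l 16776104)))) (a (l 16774624) (a (l 16777504) (b (l 517174461031) (l 16776624)))))) (b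 (a (c (b (l 302962968807) (l 16776496)) (l 165524015559)) (l 635822933847)) (a (l 16774664) (b (l 209547428727) (l 16776120))))) (c (b (b (c (a (l 16770088) (a (l 16772992) (a (l 16775096) (l 16774312)))) (l 16773808)) (a (l 16768856) (a (l 16773064) (l 16772808)))) (a (l 16766976) (b (l 16770384) (l 16771096)))) (l 16772032))) (b (a (b (l 16761952) (l 16764712)) (b (a (l 16768776) (l 16767200)) (l 16761576))) (b (c (l 16763128) (l 16763440)) (l 16755552)))) (b (b (a (c (l 16778888) (l 16775976)) (b (l 634749191991) (l 16776768))) (l 16772224)) (l 16765144))), by decide +kernel⟩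

def k84_pp_022_s : ∃ t, chk3 f_pp_022_s t 155 70 2 = true :=
  ⟨(b (b (a (c (b (l 3) (c (b (l 3) (a (a (b (l 626696126935) (a (l 16776960) (b (l 414632116663) (l 16777064)))) (a (b (l 3) (l 530059362567)) (l 3))) (l 3))) (l 553144813015))) (l 609516259895)) (l 3)) (b (a (c (a (b (b (a (l 16776480) (c (a (l 16776864) (b (l 276119421319) (l 16776968))) (l 16777000))) (l 16776448)) (l 16775848)) (c (c (b (b (a (a (b (l 3) (l 237464715527)) (l 673940767127)) (l 3)) (a (l 16777216) (a (b (l 498383978967) (l 16777128)) (l 585893937463)))) (l 16776664)) (b (l 280414388951) (l 16776224))) (l 16778168))) (l 16776384)) (b (l 3) (c (c (a (a (b (b (l 528985620727) (a (l 16777024) (l 286319968663))) (l 16776688)) (b (l 3) (b (a (l 222969200999) (l 668035186967)) (l 16777384)))) (a (b (l 3) (l 647097221607)) (l 3))) (l 304573581831)) (l 16777448)))) (c (a (a (b (a (l 16771080) (l 16772912)) (l 16770104)) (b (l 16775000) (l 16771800))) (c (b (a (l 16776344) (c (a (a (l 16776992) (b (b (l 445770629543)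 (l 16777088)) (l 16775304))) (b (l 576767132039) (a (l 16776880) (a (l 16777072) (l 188609462663))))) (l 144586048583))) (c (l 16775944) (l 16775304))) (l 16775952))) (l 16775016)))) (a (c (c (b (b (a (l 16770800) (l 16769232)) (l 16768832)) (l 16761144)) (l 16767792)) (l 16768144)) (c (c (b (b (a (a (l 16770024) (l 16771856)) (b (l 16773264) (l 16773328))) (c (l 16768280) (l 16770968))) (b (l 16768440) (l 16765944))) (l 16771816)) (l 16770128)))), by decide +kernel⟩

def k85_pp_022_s : ∃ t, chk3 f_pp_022_s t 77 70 3 = true :=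
  ⟨(b (c (b (a (a (l 16776048) (a (l 153712858503) (l 330880260039))) (l 628306742695)) (a (l 16772512) (c (l 16776296) (c (l 16776240) (l 16780136))))) (b (b (a (a (c (l 16776992) (l 111836925463)) (l 642802255591)) (l 3)) (a (a (l 16775048) (l 16779320)) (l 622401161063))) (a (l 16772808) (b (a (l 16776408) (l 324974678791)) (l 16775232))))) (c (b (l 16769960) (l 16765528)) (b (a (l 16768656) (l 16772128)) (l 16766216)))), by decide +kernel⟩

def k86_pp_022_s : ∃ t, chk3 f_pp_022_s t 39 140 1 = true :=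
  ⟨(b (l 3) (b (l 3) (a (a (a (c (c (c (b (b (l 3) (b (l 3) (a (a (a (l 229411651943) (l 3)) (l 3)) (l 3)))) (b (c (a (a (l 16777232) (a (a (l 219211104647) (l 342691414535)) (l 589652033863))) (l 3)) (l 433959469495)) (a (l 16776872) (a (a (b (l 370071830951) (l 16777040)) (l 499457720551)) (l 3))))) (b (l 626159256855) (l 213305526471))) (l 275045683351)) (c (l 16777496) (l 253033976487))) (l 3)) (l 3)) (l 3)))), by decide +kernel⟩

def k87_pp_022_s : ∃ t, chk3 f_pp_022_s t 78 282 1 = true :=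
  ⟨(a (b (a (c (c (a (c (b (b (l 16774944) (l 16773992)) (l 16773056)) (l 16775040)) (b (b (a (l 16776704) (c (b (a (l 229948522855) (l 3)) (l 16777392)) (l 16777208))) (l 16776672)) (l 16776080))) (l 16775608)) (l 16775760)) (c (c (a (c (c (b (b (l 660518994647) (a (a (l 16776984) (a (l 168208367959) (l 293836161479))) (l 574082777479))) (a (l 16775192) (a (l 16776568) (b (l 147270402391) (l 16776512))))) (b (l 345375770167) (l 16776448))) (l 149954758631)) (c (b (l 3) (a (b (a (a (l 309405417991) (l 430201373319)) (l 671793283479)) (l 16777232)) (b (l 3) (a (a (l 209547428263) (l 328195899943)) (l 578377744695))))) (l 479056626455))) (l 208473689991)) (c (l 16777264) (l 183777628647)))) (c (c (c (c (c (a (b (l 16771656) (l 16772368)) (a (b (l 16773872) (l 16773936)) (l 16776256))) (a (l 16770392) (l 16775096))) (l 16774080)) (l 16774136)) (l 16774248)) (c (l 16774424) (l 16774560)))) (b (l 3) (a (c (c (a (c (b (a (b (b (l 523616911607) (l 158544691575)) (l 16776696)) (b (l 3) (a (l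 16777408) (a (l 249275875799) (l 371682443847))))) (l 16776024)) (l 16776656)) (c (c (a (b (l 655150285559) (a (l 16776656) (b (l 220284846503) (l 16775296)))) (b (l 3) (b (l 560124133751) (l 14126416247)))) (b (l 661592736743) (l 16777048))) (l 272898197975))) (l 16777120)) (b (l 238001590423) (l 16776632))) (a (c (c (c (b (l 3) (c (b (l 3) (a (l 490867786007) (l 3))) (l 575693390615))) (l 622938031431)) (l 496236498631)) (l 475298533863)) (l 3))))), by decide +kernel⟩

def k88_pp_022_s : ∃ t, chk3 f_pp_022_s t 78 283 1 = true :=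
  ⟨(b (a (c (c (c (a (c (l 16767880) (l 16770568)) (a (l 16769472) (a (l 16770248) (l 16770768)))) (l 16766456)) (l 16771904)) (l 16772392)) (c (c (b (c (a (c (l 16775288) (l 16775304)) (a (b (a (l 16776888) (b (l 597168226615) (l 213842395655))) (l 16776520)) (a (b (l 3) (a (l 145659789783) (l 356650058407))) (l 3)))) (a (l 16775336) (l 204178720935))) (a (l 16775072) (a (l 16776272) (a (l 16776368) (c (a (l 16777072) (b (l 266455745095) (l 16776688))) (l 16776880)))))) (l 16778432)) (c (l 16775904) (c (l 16775896) (l 16775816))))) (c (c (a (a (l 16762896) (a (l 16764448) (l 16768096))) (a (b (a (l 16772360) (l 16770752)) (l 16769024)) (a (l 16775096) (a (l 16774544) (l 16775696))))) (l 16771520)) (c (l 16771856) (l 16772096)))), by decide +kernel⟩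

def k89_pp_022_s : ∃ t, chk3 f_pp_022_s t 79 141 1 = true :=
  ⟨(a (b (l 3) (a (b (a (c (c (c (b (l 3) (b (l 636359803559) (a (a (l 16776944) (l 182167011783)) (l 532743717207)))) (l 508047655847)) (l 16777664)) (l 383493607655)) (l 3)) (c (c (c (a (c (b (c (l 16777048) (l 16776400)) (l 16773848)) (l 16775792)) (b (a (b (l 464561111271) (l 16776848)) (a (b (l 3) (l 202568106503)) (l 595557614103))) (l 16776176))) (l 16776312)) (l 16776352)) (l 16778712))) (b (l 3) (b (l 3) (c (c (c (b (a (a (a (l 16777120) (l 334101479991)) (l 659445252599)) (l 3)) (a (a (l 16776632) (a (l 16777008) (l 228337910295))) (l 597705097847))) (l 283098745159)) (l 16777400)) (l 221895462743)))))) (l 3)), by decide +kernel⟩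

def k90_pp_022_s : ∃ t, chk3 f_pp_022_s t 38 71 1 = true :=
  ⟨(c (c (a (a (b (b (l 16748424) (l 16743432)) (l 16715008)) (b (b (l 16742296) (l 16747808)) (l 16729912))) (a (b (b (c (l 16756856) (l 16757312)) (l 16752136)) (c (l 16744392) (l 16745160))) (b (b (a (l 16755016) (l 16757128)) (l 16748544)) (b (l 16751520) (l 16746648))))) (a (b (l 16749576) (l 16719240)) (b (a (l 16745248) (l 16759776)) (l 16748512)))) (c (b (a (l 16751272) (l 16758952)) (a (l 16742544) (l 16750328))) (b (a (l 16752960) (b (l 16762000) (l 16757704))) (a (l 16744336) (l 16751120))))), by decide +kernel⟩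

def k91_pp_022_s : ∃ t, chk3 f_pp_022_s t 78 71 1 = true :=
  ⟨(c (c (b (a (c (b (a (l 16759080) (c (l 16761128) (l 16766480))) (l 16755192)) (b (l 16755160) (l 16760816))) (c (a (b (b (l 16767112) (l 16767272)) (l 16763576)) (b (b (a (l 16771280) (l 16769680)) (l 16769328)) (l 16760392))) (l 16769920))) (a (b (l 16745264) (l 16750904)) (b (a (l 16758864) (l 16750416)) (l 16744552)))) (b (b (l 16770656) (l 16763408)) (l 16761744))) (b (c (b (l 16768584) (l 16764256)) (b (l 16768896) (l 16764584))) (c (l 16757808) (l 16758008)))), by decide +kernel⟩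

def k92_pp_022_s : ∃ t, chk3 f_pp_022_s t 79 71 1 = true :=
  ⟨(b (b (a (c (c (c (a (b (b (a (l 16773936) (l 16773640)) (l 16770584)) (l 16768744)) (b (b (a (l 16775960) (b (a (l 16777352) (l 499457720615)) (l 16776656))) (l 16775232)) (a (l 16770256) (c (l 16772560) (l 16773904))))) (l 16775656)) (l 16773824)) (c (l 16774024) (l 16774088))) (b (a (a (c (c (a (b (a (b (l 3) (l 240149070471)) (l 618643063367)) (l 16776496)) (b (l 3) (b (a (l 144049177159) (l 349670736647)) (l 16776688)))) (l 16777224)) (l 16778456)) (b (l 3) (c (c (a (b (l 3) (a (l 16777064) (l 260550165143))) (l 636359803591)) (l 16777440)) (l 16777080)))) (l 3)) (c (c (a (b (a (l 16775528) (a (l 16776272) (a (l 16776648) (b (l 172503335463) (l 16776592))))) (l 16775464)) (c (a (b (b (l 567640326711) (a (l 16776960) (l 351818220327))) (l 16776288)) (b (l 3) (a (b (l 280414388919) (l 16776728)) (b (l 3) (l 205252461143))))) (l 204178721623))) (l 16779104)) (a (l 16775664) (a (l 16776888) (l 261087039511)))))) (c (c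 (a (a (b (l 16763752) (l 16766560)) (b (a (l 16765248) (l 16768872)) (l 16763320))) (c (c (a (b (a (l 16772416) (l 16770800)) (l 16770448)) (b (l 16775592) (l 16769840))) (l 16772744)) (l 16772816))) (l 16771752)) (c (l 16771464) (l 16771544)))) (c (c (c (a (b (c (l 16758464) (l 16763848)) (l 16758864)) (a (b (l 16761560) (l 16761896)) (b (b (l 16770032) (l 16767576)) (l 16763904)))) (b (l 16766056) (l 16750776))) (c (l 16764008) (l 16764376))) (c (l 16764992) (b (l 16767192) (l 16762792))))), by decide +kernel⟩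

def k93_pp_022_s : ∃ t, chk3 f_pp_022_s t 10 16 1 = true :=
  ⟨(l 3), by decide +kernel⟩

def k94_pp_022_s : ∃ t, chk3 f_pp_022_s t 10 34 1 = true :=
  ⟨(l 3), by decide +kernel⟩

def k95_pp_022_s : ∃ t, chk3 f_pp_022_s t 20 70 1 = true :=
  ⟨(l 3), by decide +kernel⟩

def k96_pp_022_s : ∃ t, chk3 f_pp_022_s t 80 71 1 = true :=
  ⟨(b (a (c (c (c (a (b (b (l 3) (b (l 3) (a (l 659445253079) (l 3)))) (b (b (b (a (a (l 16777440) (l 549923586423)) (l 3)) (a (l 16776752) (l 530059362791))) (a (l 16775824) (a (l 16776576) (b (l 298667999959) (l 16776768))))) (l 16775136))) (b (l 3) (b (a (a (b (l 3) (b (l 3) (l 224579813991))) (l 662666478903)) (l 3)) (b (a (c (l 16777400) (l 16776592)) (a (b (l 586430808455) (l 16777024)) (l 568177197607))) (l 16776512))))) (b (l 668035190631) (b (a (l 128479922647) (l 593410131447)) (l 16778144)))) (b (l 670182674215) (c (b (l 241759687335) (l 16775568)) (l 16776728)))) (b (l 792589234455) (a (c (l 16775920) (l 16775816)) (b (l 448991860199) (l 16776536)))))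 (a (b (l 3) (c (c (b (l 3) (c (a (b (l 3) (b (l 485499076999) (a (l 16776784) (l 235317232247)))) (l 3)) (l 483888464967))) (l 571935295575)) (l 676088247463))) (l 3))) (a (c (c (b (b (b (a (l 16770072) (l 16774656)) (l 16773936)) (l 16772528)) (c (b (l 16764192) (l 16765672)) (l 16756640))) (l 16769816)) (c (l 16770264) (l 16770256))) (c (a (c (b (b (b (a (l 16776128) (b (a (l 16777488) (l 593410130311)) (l 16776800))) (l 16775400)) (l 16774888)) (b (l 16767880) (l 16763488))) (l 16775224)) (b (c (c (b (a (b (l 593410130711) (a (l 16776608) (a (l 16776976) (l 189683204935)))) (a (b (l 3) (l 448991854935)) (l 3))) (b (a (l 16773008) (l 16777272)) (l 16772928))) (b (l 290614938887) (l 16775544))) (l 93046445175)) (c (b (l 16773104) (l 16768056)) (l 16772144)))) (b (a (l 265381988695) (b (l 237464720503) (l 16775760))) (l 16771784))))), by decide +kernel⟩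

def k97_pp_022_s : ∃ t, chk3 f_pp_022_s t 81 71 1 = true :=
  ⟨(b (l 3) (b (a (a (b (l 3) (c (c (c (a (b (a (a (l 189146334023) (l 306721063975)) (l 571935294007)) (l 16776368)) (b (l 3) (a (l 133311759255) (l 445770629463)))) (l 209547430791)) (l 16777256)) (l 156397212647))) (l 3)) (l 3)) (c (c (b (a (c (a (l 16775024) (a (b (b (l 273971938279) (l 16776792)) (l 16775872)) (c (b (l 591799517959) (l 67276636983)) (l 232632879063)))) (l 16778656)) (a (a (b (l 3) (c (l 483888464407) (l 16777480))) (l 3)) (l 3))) (b (a (c (l 16774160) (l 16774224)) (a (a (l 16777256) (b (l 603610677831) (l 199883752439))) (l 3))) (a (l 16774296) (a (l 16775872) (a (b (l 351281349943) (l 16777000)) (l 649781576615)))))) (a (l 16774928) (a (l 185388243095) (l 616495578951)))) (a (c (l 16775072) (l 16774968)) (c (l 233706628135) (b (l 735144044151) (l 141901699543))))))), by decide +kernel⟩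

def k98_pp_022_s : ∃ t, chk3 f_pp_022_s t 41 71 1 = true :=
  ⟨(l 3), by decide +kernel⟩

def k99_pp_022_s : ∃ t, chk3 f_pp_022_s t 21 35 1 = true :=
  ⟨(l 3), by decide +kernel⟩

def k100_pp_022_s : ∃ t, chk3 f_pp_022_s t 11 8 1 = true :=
  ⟨(l 3), by decide +kernel⟩

def k101_pp_022_s : ∃ t, chk3 f_pp_022_s t 8 18 1 = true :=
  ⟨(a (a (b (b (c (a (l 16586424) (l 16596952)) (a (l 16612912) (l 16603072))) (c (a (l 16589464) (l 16599944)) (a (l 16593616) (l 16604784)))) (c (b (a (l 16570984) (l 16581432)) (a (l 16551992) (l 16562440))) (a (b (l 16574352) (l 16555136)) (l 16523632)))) (b (a (c (b (l 16596968) (l 16610400)) (b (l 16614232) (l 16616016))) (c (b (c (l 16637344) (l 16640544)) (l 16620848)) (c (l 16592992) (l 16596960)))) (c (b (a (l 16591888) (l 16602360)) (l 16536288)) (b (l 16560648) (l 16562616))))) (b (a (c (c (b (a (l 16647600) (l 16657824)) (l 16614024)) (b (a (l 16651120) (l 16661624)) (l 16617232))) (b (c (l 16618728) (l 16665496)) (c (l 16620984) (l 16625280))))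 (c (b (c (a (l 16668048) (l 16657240)) (b (l 16660744) (l 16651800))) (a (l 16610152) (l 16625760))) (b (c (l 16681952) (l 16687272)) (c (l 16642504) (l 16668312))))) (b (c (a (a (l 16612848) (l 16623352)) (a (l 16612872) (l 16623360))) (a (l 16583176) (l 16647120))) (c (a (a (l 16594040) (l 16604648)) (b (l 16604280) (l 16594944))) (a (l 16564344) (l 16628528)))))), by decide +kernel⟩

def k102_pp_022_s : ∃ t, chk3 f_pp_022_s t 9 36 1 = true :=
  ⟨(a (a (c (b (a (c (b (l 16692344) (l 16684000)) (l 16671264)) (b (l 16682512) (l 16674336))) (c (a (l 16670976) (l 16659992)) (l 16679672))) (b (a (c (l 16696936) (l 16702264)) (b (l 16712152) (l 16704112))) (a (l 16681528) (l 16691312)))) (b (c (b (c (a (l 16710880) (l 16698984)) (l 16718552)) (a (l 16683216) (l 16712968))) (b (a (l 16720144) (l 16728000)) (a (l 16712128) (l 16720040)))) (c (c (a (l 16669424) (l 16678304)) (a (l 16693928) (l 16702504))) (b (l 16687256) (l 16679480))))) (c (a (b (a (c (b (c (l 16728344) (l 16729456)) (l 16720360))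 (l 16727184)) (b (c (a (l 16735464) (l 16729280)) (l 16739624)) (a (l 16727976) (l 16732120)))) (a (c (l 16687000) (l 16710888)) (b (l 16721752) (l 16713544)))) (b (a (b (c (c (b (l 16737472) (l 16743440)) (l 16735920)) (l 16747592)) (a (l 16736152) (l 16740064))) (c (a (b (b (l 16743856) (l 16749800)) (l 16722160)) (b (b (l 16753072) (l 16753728)) (l 16736512))) (b (l 16755184) (l 16746536)))) (a (c (l 16734912) (l 16726656)) (c (b (l 16715368) (l 16706792)) (l 16733920))))) (b (b (a (a (l 16735704) (c (l 16741952) (l 16742240))) (a (c (l 16749424) (l 16749072)) (c (l 16756512) (l 16756112)))) (a (a (l 16727816) (l 16735216)) (a (l 16741744) (l 16748480)))) (a (a (l 16715456) (c (l 16722016) (l 16719584))) (c (a (l 16729256) (l 16736104)) (a (l 16726384) (l 16733400))))))), by decide +kernel⟩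

def k103_pp_022_s : ∃ t, chk3 f_pp_022_s t 9 37 1 = true :=
  ⟨(a (a (c (b (c (l 16616376) (l 16640904)) (c (l 16619256) (l 16622760))) (b (l 16668272) (l 16650072))) (c (b (c (l 16678328) (l 16681728)) (c (l 16660912) (l 16664272))) (b (c (l 16685664) (l 16687184)) (l 16670312)))) (a (c (b (c (l 16695968) (l 16698968)) (c (l 16679424) (l 16682520))) (b (c (l 16702448) (l 16698384)) (c (l 16686048) (l 16681568)))) (c (b (c (l 16721936) (l 16713864)) (c (l 16694744) (l 16697360))) (b (c (l 16715784) (l 16711784)) (c (l 16698408) (l 16694312)))))), by decide +kernel⟩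

def k104_pp_022_s : ∃ t, chk3 f_pp_022_s t 4 19 1 = true :=
  ⟨(a (a (b (a (b (c (l 16537800) (l 16541696)) (c (l 16475992) (l 16501608))) (b (c (l 16537936) (l 16543664)) (c (l 16497304) (l 16503752)))) (c (a (b (l 16499824) (l 16482296)) (b (l 16521192) (l 16503680))) (a (b (l 16501088) (l 16478504)) (b (l 16524624) (l 16502576))))) (b (a (c (b (l 16559304) (b (l 16565712) (l 16556008))) (b (l 16566576) (l 16568864))) (c (b (l 16559864) (c (l 16581040) (l 16584816))) (b (l 16610056) (l 16591768)))) (c (a (b (l 16542976) (l 16525656)) (c (l 16513640) (l 16515520))) (a (b (l 16527272) (l 16526880)) (c (l 16538824) (l 16520616)))))) (b (b (a (c (a (l 16623384) (l 16644256)) (a (l 16631840) (l 16652280))) (c (a (l 16679024) (c (l 16677912) (l 16680576))) (a (l 16669040) (l 16679824)))) (a (a (c (l 16625576) (l 16613632)) (c (l 16625480) (l 16633952))) (a (c (l 16665504) (l 16651976)) (c (c (l 16659992) (l 16662576)) (c (l 16665584) (l 16663672)))))) (a (a (c (c (l 16535272) (l 16537424))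 (l 16604360)) (c (c (l 16555776) (l 16599768)) (b (l 16613928) (l 16593016)))) (a (b (c (l 16626344) (l 16631800)) (c (l 16608200) (l 16610792))) (b (c (l 16642920) (l 16647008)) (c (l 16624504) (l 16625880))))))), by decide +kernel⟩

def k105_pp_022_s : ∃ t, chk3 f_pp_022_s t 40 36 1 = true :=
  ⟨(a (b (c (c (c (a (b (b (l 16756840) (l 16757416)) (l 16750568)) (b (b (a (l 16765040) (l 16761752)) (l 16761312)) (l 16743920))) (b (l 16767280) (l 16742504))) (b (l 16767840) (l 16753808))) (b (c (l 16763448) (l 16763160)) (c (l 16755080) (l 16754176)))) (b (c (a (l 16742680) (l 16746320)) (l 16746392)) (c (l 16735920) (l 16737472)))) (c (b (b (b (a (c (b (l 16773152) (c (l 16763480) (l 16768896))) (l 16770328)) (c (c (a (l 16774136) (a (l 16775576) (b (c (b (l 131701146615) (l 16773200)) (l 16776440)) (l 16771392)))) (l 16773856)) (l 16773976))) (c (b (c (a (l 16766352) (l 16766256)) (l 16768456)) (a (l 16753640) (l 16762664))) (l 16767640))) (c (a (b (l 16750184) (l 16756120)) (c (b (l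 16759064) (l 16759688)) (l 16762272))) (l 16760984))) (c (b (l 16751256) (l 16742416)) (b (l 16752280) (l 16743696)))) (b (b (c (b (l 16772456) (l 16768168)) (b (l 16772360) (l 16767944))) (c (l 16761832) (l 16761200))) (b (l 16753152) (l 16744264))))), by decide +kernel⟩

def k106_pp_022_s : ∃ t, chk3 f_pp_022_s t 82 36 1 = true :=
  ⟨(b (b (c (c (b (a (c (a (b (b (l 600389452903) (a (l 16776792) (l 459729273303))) (l 16775448)) (b (l 3) (c (b (a (l 271824455031) (l 3)) (a (l 16776264) (l 184851367047))) (l 198810012151)))) (b (l 474761659255) (l 75329703191))) (a (b (l 3) (l 666424575143)) (l 3))) (b (b (a (l 16775272) (a (a (l 98952021095) (l 555829166423)) (l 3))) (a (l 16773432) (a (l 16777544) (b (l 687362539991) (l 460266143975))))) (a (l 16771656) (a (l 16774448) (a (l 16775840) (b (l 209010558631) (l 16776168))))))) (a (b (c (l 179482663511) (l 16777120)) (l 16773024)) (b (l 766282561111) (l 84456512199)))) (b (a (c (l 147807281655) (a (l 16776520) (l 257328946871))) (l 750176426647))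 (a (l 16773360) (a (l 16775760) (a (l 86603995703) (l 256792069991)))))) (c (c (a (c (l 16770320) (l 16765936)) (c (b (l 16773104) (l 16761864)) (l 16769584))) (l 16768064)) (c (l 16768520) (l 16768168)))) (c (c (b (c (l 16763632) (l 16758704)) (l 16749576)) (b (l 16759232) (l 16750536))) (b (c (l 16760072) (l 16759104)) (l 16751016)))), by decide +kernel⟩

def k107_pp_022_s : ∃ t, chk3 f_pp_022_s t 83 36 1 = true :=
  ⟨(b (b (a (b (l 3) (c (c (a (b (l 3) (a (b (l 3) (l 121500599767)) (l 656224026903))) (l 3)) (l 668035183943)) (l 693804982775))) (l 3)) (c (c (b (b (a (c (a (l 16775760) (a (b (l 346986383079) (l 16776552)) (l 521469427975))) (l 16779336)) (l 3)) (a (c (l 16774312) (l 16774360)) (a (b (a (l 16778008) (l 678235733927)) (l 16776472)) (l 656224026295)))) (a (l 16773448) (c (a (l 16773512) (b (b (l 147270403799) (l 16775912)) (l 16774144))) (l 16774464)))) (b (a (l 16775600) (l 291688686199)) (l 16772816))) (b (a (c (l 16775672) (l 16775480)) (c (l 341617681575) (l 573545900007)))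 (c (l 16773024) (l 16772816))))) (c (b (c (a (l 16769176) (c (l 16770048) (l 16767576))) (l 16766120)) (c (l 16761888) (l 16757304))) (b (c (l 16766608) (l 16766040)) (l 16757720)))), by decide +kernel⟩

def k108_pp_022_s : ∃ t, chk3 f_pp_022_s t 21 36 1 = true :=
  ⟨(b (b (l 3) (b (l 3) (a (a (a (c (c (a (c (b (l 504826429351) (l 16775952)) (l 142975439415)) (c (b (l 3) (c (l 390472925143) (l 258402683767))) (l 568714066759))) (l 195588792407)) (b (l 405505318903) (l 16779344))) (l 3)) (l 3)) (l 3)))) (b (a (a (b (a (c (c (c (l 16773328) (l 16773384)) (l 16773480)) (l 16773648)) (c (c (a (b (b (l 280414391015) (l 16776592)) (l 16774840)) (c (b (l 702931795175) (l 62444800167)) (l 207936820359))) (l 16776808)) (c (l 16776712) (l 16780536)))) (c (c (a (l 16768736) (l 16772240)) (l 16770704)) (l 16768304))) (a (b (c (c (b (l 3) (l 633138573047)) (l 697563081191)) (l 690046884007)) (c (c (b (a (l 16776024) (a (l 171429595879) (l 615421836375))) (l 16774576)) (l 16775808)) (c (l 16775784)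 (l 16775632)))) (b (l 3) (b (l 3) (c (c (c (a (l 153712855639) (l 705616149015)) (l 242833429335)) (l 16776432)) (l 207399951111)))))) (l 3)) (a (c (a (c (a (l 16761872) (l 16770584)) (l 16764016)) (c (b (a (l 16771104) (c (b (l 16778336) (l 16773384)) (l 16774584))) (l 16770864)) (l 16770744))) (a (c (l 16764512) (l 16763856)) (a (l 16769288) (l 213305498743)))) (b (a (a (c (a (b (l 589115160871) (l 16775992)) (c (l 573009033175) (l 16775488))) (c (l 16776160) (l 185388245447))) (l 3)) (l 3)) (c (c (a (a (l 16773376) (b (a (l 16778360) (l 679846344519)) (l 16775608))) (a (l 664813956727) (l 3))) (a (l 16775160) (l 680383206775))) (a (c (l 16775104) (l 16774904)) (l 678235717751))))))), by decide +kernel⟩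

def k109_pp_022_s : ∃ t, chk3 f_pp_022_s t 10 37 1 = true :=
  ⟨(a (c (a (b (c (a (l 16722248) (l 16729328)) (l 16727592)) (c (l 16708632) (l 16710664))) (b (c (a (l 16746792) (b (l 16747648) (l 16738704))) (a (l 16737592) (l 16744168))) (c (b (l 16726480) (l 16717704)) (l 16723552)))) (a (b (c (l 16729072) (l 16725816)) (c (l 16711816) (l 16708216))) (b (c (a (l 16739032) (l 16745376)) (a (l 16736384) (l 16743384))) (c (l 16725200) (l 16722208))))) (c (b (a (a (c (b (l 16754520) (l 16745520)) (l 16750752)) (c (b (l 16766648) (l 16752368)) (l 16762616))) (c (b (b (a (l 16770496) (a (a (l 16774680) (a (l 16775928) (l 93046443783))) (c (l 477982881463) (l 282561879223)))) (a (l 16765952) (c (l 16772600) (l 16772632)))) (a (l 16759176) (l 16768456))) (b (a (l 16768416) (b (l 125258704855) (l 16772696))) (l 16762808)))) (a (c (b (l 16745264) (l 16731168)) (b (l 16740840) (l 16732072))) (c (b (a (l 16750208) (l 16756864)) (l 16744704)) (b (l 16753952) (l 16745136))))) (a (b (a (c (l 16751648)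 (l 16750288)) (b (l 16762168) (l 16753416))) (c (l 16737592) (l 16737168))) (b (b (a (l 16765968) (a (l 266455718679) (b (l 255181464775) (l 16774328)))) (a (l 16759816) (l 16766152))) (b (c (l 16754456) (l 16753440)) (l 16745488)))))), by decide +kernel⟩

def k110_pp_022_s : ∃ t, chk3 f_pp_022_s t 11 18 1 = true :=
  ⟨(b (l 3) (a (a (b (b (a (b (l 3) (a (c (b (l 539186164695) (a (l 16775568) (l 16778416))) (l 272898152887)) (c (l 682530693271) (l 359871218231)))) (l 3)) (a (c (c (a (l 16770720) (b (a (l 16775384) (l 137606730471)) (l 16771680))) (l 16772416)) (b (l 242833388871) (l 16770224))) (b (c (c (a (l 599315705607) (l 3)) (l 638507276231)) (l 643339110503)) (c (c (a (l 16774856) (a (l 169282114519) (l 578914611991))) (l 16776304)) (l 403357809847))))) (c (b (c (a (l 16763368) (c (l 16772352) (l 16769744))) (l 16766688)) (c (a (l 16754504) (l 16760864)) (l 16757832))) (b (a (l 16763600) (l 16769784)) (c (l 16758008) (l 16757408))))) (a (b (l 3) (c (b (a (b (b (a (l 16776920)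 (l 402820960935)) (l 16775480)) (l 16772144)) (c (b (l 600389446215) (l 16775200)) (l 170355863239))) (c (l 16767040) (l 16767032))) (b (b (l 487109675383) (l 16773632)) (l 16767080)))) (b (l 3) (b (a (b (l 3) (c (c (l 420000823079) (l 16775784)) (l 298667955991))) (l 3)) (c (b (a (l 16773760) (b (l 246054655703) (l 16775640))) (l 16770816)) (b (l 16759384) (l 16770848))))))) (b (l 3) (b (l 3) (a (a (a (c (b (l 632601699575) (l 16775272)) (l 285783039495)) (c (c (l 602000056471) (l 380272391895)) (l 489793989911))) (l 3)) (l 3)))))), by decide +kernel⟩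

def k111_pp_022_s : ∃ t, chk3 f_pp_022_s t 10 19 1 = true :=
  ⟨(b (a (b (c (a (l 16702984) (c (l 16704704) (l 16706232))) (a (l 16693336) (l 16706928))) (a (c (b (l 16679648) (l 16670936)) (b (l 16681288) (l 16673744))) (c (c (l 16687416) (l 16688824)) (l 16690912)))) (a (c (b (c (l 16718072) (l 16719016)) (c (l 16700792) (l 16701600))) (b (l 16717472) (l 16703256))) (a (c (b (l 16728472) (l 16711096)) (b (l 16729608) (l 16712200))) (c (b (l 16735008) (l 16717632)) (b (l 16735832) (l 16718112)))))) (a (a (b (c (c (l 16657256) (l 16658360)) (l 16660304)) (c (l 16639400) (l 16639248))) (c (b (l 16671344) (l 16653872)) (b (l 16672552) (l 16652160)))) (a (c (b (l 16684384) (c (l 16668184) (l 16667104))) (b (l 16684504) (l 16664744))) (c (b (l 16697488) (l 16680744)) (b (l 16696512) (l 16677120)))))), by decide +kernel⟩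

def k112_pp_022_s : ∃ t, chk3 f_pp_022_s t 11 19 1 = true :=
  ⟨(b (b (a (a (c (c (b (l 16748960) (l 16740240)) (l 16744656)) (c (l 16744792) (l 16744384))) (c (a (c (l 16764336) (l 16753784)) (b (l 16764168) (l 16755328))) (a (l 16753800) (b (l 16764184) (l 16755256))))) (a (b (a (c (c (l 16770080) (l 16770056)) (l 16770072)) (c (b (a (l 105931348743) (l 606295025143)) (l 16773648)) (l 261623848535))) (c (a (l 16761192) (l 16766968)) (l 16764056))) (a (c (b (c (l 593946990599) (l 599315696135)) (c (c (l 16777936) (l 16772680)) (l 16772664))) (b (l 608442498183) (l 16772640))) (b (l 3) (c (c (b (l 588578282807) (l 16781232)) (l 227264183623)) (l 314237186487)))))) (b (a (c (a (l 16731496) (l 16743608)) (a (l 16731472) (l 16743336))) (c (a (l 16755232) (c (l 16766584) (l 16766528))) (a (l 16755072) (l 16766488)))) (a (c (a (l 16722816) (l 16734824)) (a (l 16722424) (l 16734312))) (c (a (l 16746368) (c (l 16757664) (l 16757560))) (a (l 16746040) (l 16757432)))))) (b (a (c (a (l 16710040)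 (l 16742816)) (a (l 16708424) (l 16720440))) (c (a (c (l 16733352) (l 16732992)) (c (l 16754816) (l 16744136))) (a (l 16732264) (l 16754200)))) (a (c (a (l 16692872) (l 16704192)) (a (l 16689296) (l 16701552))) (c (a (l 16715320) (l 16747144)) (a (l 16713568) (l 16725160)))))), by decide +kernel⟩

def k113_pp_022_s : ∃ t, chk3 f_pp_022_s t 4 10 1 = true :=
  ⟨(b (a (b (a (c (a (b (l 16464152) (l 16445280)) (b (l 16485616) (l 16466976))) (a (b (l 16456120) (l 16433920)) (l 16407232))) (c (a (b (l 16507688) (l 16489048)) (b (l 16529808) (l 16511024))) (a (l 16432104) (l 16456296)))) (a (b (c (a (l 16425344) (l 16447184)) (a (l 16411824) (l 16437664))) (c (b (l 16420312) (a (l 16396648) (l 16397704))) (b (l 16408472) (l 16355552)))) (b (c (a (l 16469368) (l 16491112)) (l 16412800)) (c (b (l 16464384) (a (l 16419896) (l 16462544))) (b (l 16459568) (l 16406752)))))) (b (a (c (c (l 16572928) (l 16593872)) (c (l 16572928) (l 16573032))) (c (a (l 16600640) (b (l 16605576) (l 16565072))) (a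 (l 16579016) (l 16615064)))) (a (b (c (a (l 16512064) (l 16531640)) (a (l 16509632) (l 16529432))) (c (b (l 16484848) (a (l 16483432) (l 16503040))) (a (l 16445936) (l 16465648)))) (b (c (l 16599992) (l 16554824)) (b (c (l 16499864) (l 16538400)) (c (a (l 16521216) (l 16537952)) (l 16506488))))))) (a (a (b (c (a (l 16370696) (l 16393024)) (a (l 16361816) (l 16388184))) (c (l 16260544) (l 16319024))) (c (b (a (l 16415168) (l 16436824)) (l 16325328)) (a (l 16332880) (l 16356128)))) (a (a (c (b (l 16457640) (l 16419752)) (l 16356520)) (b (a (l 16430920) (l 16482208)) (l 16397848))) (c (b (a (l 16495944) (l 16513128)) (a (l 16458792) (l 16476312))) (a (l 16434552) (l 16428632)))))), by decide +kernel⟩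

def k114_pp_022_s : ∃ t, chk3 f_pp_022_s t 5 10 1 = true :=
  ⟨(b (b (a (a (c (a (b (l 16620480) (l 16601120)) (b (l 16635192) (l 16616016))) (a (l 16607512) (b (l 16631168) (l 16589048)))) (a (c (b (c (l 16650752) (l 16648664)) (l 16630792)) (b (l 16644208) (l 16623264))) (c (b (l 16632072) (l 16645048)) (b (l 16657144) (l 16636648))))) (c (a (b (a (l 16674240) (l 16685320)) (a (l 16657920) (l 16667960))) (b (a (l 16696352) (l 16707112)) (a (l 16678144) (l 16688656)))) (a (b (a (l 16669752) (l 16682360)) (a (l 16649848) (l 16662848))) (b (a (l 16694616) (l 16706408)) (l 16681616))))) (a (b (a (c (a (l 16560144) (l 16596248)) (l 16582312)) (c (a (l 16611256) (l 16625672)) (a (l 16602264) (l 16615960)))) (a (c (b (l 16573216) (c (l 16500168) (l 16539320))) (b (l 16566248) (l 16513496))) (c (b (l 16603480) (l 16624040)) (b (l 16572504) (a (l 16575872) (l 16589968)))))) (b (b (a (c (l 16649904) (l 16641424)) (c (l 16671272) (l 16667168))) (a (c (l 16640312) (l 16631320)) (c (l 16662648)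 (l 16657496)))) (b (a (c (l 16630528) (l 16600224)) (c (l 16653432) (l 16647744))) (a (c (b (l 16622880) (l 16617624)) (a (l 16603944) (l 16617832))) (c (b (l 16646392) (l 16641656)) (l 16637952))))))) (b (a (a (c (a (l 16529312) (l 16545280)) (a (l 16524232) (l 16537760))) (c (a (l 16561024) (l 16576264)) (a (l 16551688) (l 16565928)))) (a (c (l 16597120) (a (l 16580080) (l 16594176))) (c (l 16621464) (l 16572744)))) (a (a (c (a (l 16492816) (l 16508904)) (l 16492736)) (c (l 16469728) (l 16499936))) (a (c (l 16519264) (l 16528896)) (c (l 16585816) (l 16556960)))))), by decide +kernel⟩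

def k115_pp_022_s : ∃ t, chk3 f_pp_022_s t 2 11 1 = true :=
  ⟨(a (a (a (b (c (b (l 16306784) (l 16268920)) (b (l 16303920) (l 16266816))) (c (a (l 16201472) (l 16223816)) (b (l 16229048) (l 16190712)))) (a (b (c (l 16299816) (l 16321520)) (c (l 16246152) (l 16244440))) (b (b (l 16277624) (l 16323544)) (c (l 16268608) (l 16266312))))) (a (a (b (c (l 16363872) (l 16364008)) (c (l 16290816) (l 16286648))) (b (c (l 16384552) (l 16382768)) (c (l 16312288) (l 16305336)))) (b (c (b (l 16389272) (l 16395136)) (b (l 16426464) (l 16387856))) (c (l 16257856) (l 16288712))))) (a (a (b (c (b (l 16464880) (l 16429056)) (b (l 16454496) (l 16416472))) (c (l 16292320) (l 16339296))) (b (c (b (l 16475816) (l 16461296)) (b (l 16483192) (l 16445824))) (c (l 16304152) (l 16327936)))) (b (a (c (l 16508224) (b (l 16512824) (l 16476272))) (c (l 16533280) (b (l 16541712) (l 16506112)))) (a (c (l 16354912) (l 16380832)) (c (l 16464744) (l 16391328)))))), by decide +kernel⟩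

def k116_pp_022_s : ∃ t, chk3 f_pp_022_s t 2 3 1 = true :=
  ⟨(b (b (b (c (a (a (a (b (l 16156872) (l 16120408)) (l 16080424)) (a (l 16230784) (l 16271512))) (a (a (l 16306872) (l 16340632)) (a (l 16308504) (l 16399752)))) (a (a (a (l 16111144) (l 16135936)) (a (l 16219272) (l 16255000))) (a (a (l 16286448) (l 16319200)) (a (l 16353568) (l 16388272))))) (a (a (a (c (l 16066872) (l 16053464)) (c (l 16114824) (l 16099968))) (a (c (l 16161192) (l 16143264)) (c (l 16203000) (l 16181088)))) (a (a (c (l 16239608) (l 16214912)) (c (l 16274280) (l 16250472))) (a (c (l 16307504) (l 16288392)) (l 50565326743))))) (b (a (a (l 6) (b (a (l 16099016) (l 16140632)) (l 6))) (a (a (c (l 16174080) (l 16146576)) (c (l 16211248) (l 16185968))) (a (l 16301400) (l 2)))) (a (l 6) (l 6)))) (l 6)), by decide +kernel⟩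

def k117_pp_022_s : ∃ t, chk3 f_pp_022_s t 3 4 1 = true :=
  ⟨(b (l 3) (a (b (l 3) (a (b (a (b (a (a (b (l 3) (c (l 620790526839) (l 629917326119))) (l 3)) (l 3)) (b (a (a (c (a (l 16773464) (a (l 16775488) (l 151565379719))) (l 16774656)) (c (l 493015260471) (l 314774050871))) (l 3)) (a (c (a (l 16765832) (l 16773856)) (l 67813478023)) (a (c (b (l 299741696407) (l 16774296)) (l 287930523943)) (c (l 542944250487) (l 315847784375)))))) (l 3)) (b (b (a (a (c (l 16759528) (l 16759368)) (c (a (l 16767480) (l 16772704)) (l 16770096))) (a (a (c (a (l 126869322887) (l 243907184423)) (l 16744808)) (c (l 554755407207) (l 453823637607))) (l 3))) (c (a (a (l 16750496) (l 16760968)) (a (a (l 16768656) (l 16773680)) (a (c (l 215989898023) (l 16775064)) (l 552071050743)))) (a (a (l 16750168) (l 16760896)) (a (l 16771248) (c (l 292225461751) (l 293836073719)))))) (c (b (a (a (l 16741432) (l 16751792)) (a (l 16761920) (c (l 16781432) (l 16771864)))) (a (a (l 16732064) (l 16742408)) (a (l 16752488)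 (l 16762328)))) (a (a (l 16736336) (l 16747096)) (a (b (l 16762024) (l 16752800)) (b (l 16771944) (l 16762712))))))) (b (l 3) (a (b (l 3) (a (c (a (b (l 217600515127) (l 16769568)) (b (l 540259890247) (l 16774192))) (b (l 284172396359) (l 16772176))) (b (l 3) (c (a (l 211694936119) (l 325511573655)) (l 280414305783))))) (l 3))))) (l 3))), by decide +kernel⟩

def k118_pp_022_s : ∃ t, chk3 f_pp_022_s t 12 10 1 = true :=
  ⟨(b (b (c (b (a (a (l 16717624) (l 16748840)) (a (c (l 16736248) (l 16738776)) (b (l 16752608) (l 16742824)))) (a (a (l 16698920) (l 16708920)) (a (l 16718672) (l 16749152)))) (a (b (a (l 16717736) (l 16728600)) (a (l 16699024) (l 16710072))) (b (a (l 16739000) (l 16769896)) (a (l 16720616) (l 16730656))))) (b (b (a (c (l 16690816) (l 16690672)) (c (l 16709872) (l 16712096))) (a (c (l 16682424) (l 16681344)) (c (l 16700896) (l 16703040)))) (b (a (c (l 16699752) (l 16672024)) (c (a (l 16687328) (l 16696296)) (l 16694024))) (a (c (b (l 16667152) (l 16662992)) (b (l 16664976)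 (l 16660296))) (c (b (l 16685576) (l 16681864)) (b (l 16687280) (l 16682808))))))) (b (a (c (l 16643152) (l 16639928)) (c (l 16662392) (l 16662872))) (a (c (l 16607800) (l 16583008)) (c (l 16627504) (l 16627912))))), by decide +kernel⟩

def k119_pp_022_s : ∃ t, chk3 f_pp_022_s t 13 10 1 = true :=
  ⟨(a (b (b (a (b (c (b (l 16762168) (l 16752296)) (b (l 16762952) (l 16753784))) (c (b (l 16742488) (l 16732832)) (l 16740184))) (b (c (b (l 190756899943) (l 16761552)) (b (l 16771928) (l 16762736))) (c (b (l 16751624) (l 16741800)) (b (l 16753672) (l 16744712))))) (b (c (b (a (l 16723440) (l 16732064)) (a (l 16714056) (l 16722600))) (b (l 16731400) (l 16722608))) (b (c (a (l 16705048) (l 16713624)) (l 16713880)) (c (b (l 16702888) (a (l 16694600) (l 16703016))) (b (l 16707360) (l 16703048)))))) (c (b (a (l 16675512) (l 16684288)) (l 16646600)) (b (l 16683848) (l 16650176)))) (a (b (b (b (b (c (a (l 196662551175) (l 296520547431)) (l 273434986759)) (c (l 158007778743) (l 16771240))) (c (b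 (l 16760504) (l 16750472)) (b (l 16762192) (l 16753304)))) (b (c (b (l 16740552) (l 16731008)) (b (l 16744584) (l 16736016))) (b (c (l 16722096) (l 16727560)) (c (l 16713664) (l 16719160))))) (c (l 16729560) (l 16682168))) (b (b (b (b (l 3) (c (c (l 275045608903) (l 16774440)) (l 273971868391))) (c (b (l 16769080) (l 16758888)) (b (l 16770152) (l 16761344)))) (b (b (c (l 16748816) (l 16752744)) (l 2)) (l 2))) (l 2)))), by decide +kernel⟩

def k120_pp_022_s : ∃ t, chk3 f_pp_022_s t 6 11 1 = true :=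
  ⟨(b (a (a (c (l 16618720) (l 16551520)) (c (l 16598368) (l 16577528))) (a (c (l 16619584) (l 16602152)) (l 2))) (a (a (c (l 16489568) (l 16442680)) (c (l 16430160) (l 16492872))) (l 2))), by decide +kernel⟩

def k121_pp_022_s : ∃ t, chk3 f_pp_022_s t 7 5 1 = true :=
  ⟨(b (b (b (b (b (l 3) (l 2)) (l 2)) (l 2)) (l 2)) (l 2)), by decide +kernel⟩

def k122_pp_022_s : ∃ t, chk3 f_pp_022_s t 3 3 1 = true :=
  ⟨(a (b (b (a (b (a (c (l 16427744) (l 16422144)) (l 2)) (l 2)) (l 2)) (l 2)) (l 2)) (l 2)), by decide +kernel⟩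

theorem s123_pp_022_s : ∃ t, chk3 f_pp_022_s t 6 10 1 = true := ex3_a k118_pp_022_s k119_pp_022_s

theorem s124_pp_022_s : ∃ t, chk3 f_pp_022_s t 6 5 1 = true := ex3_b s123_pp_022_s k120_pp_022_s

theorem s125_pp_022_s : ∃ t, chk3 f_pp_022_s t 3 5 1 = true := ex3_a s124_pp_022_s k121_pp_022_s

theorem s126_pp_022_s : ∃ t, chk3 f_pp_022_s t 3 2 1 = true := ex3_b k117_pp_022_s s125_pp_022_s

theorem s127_pp_022_s : ∃ t, chk3 f_pp_022_s t 3 1 1 = true := ex3_b s126_pp_022_s k122_pp_022_s

theorem s128_pp_022_s : ∃ t, chk3 f_pp_022_s t 2 10 1 = true := ex3_a k113_pp_022_s k114_pp_022_s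

theorem s129_pp_022_s : ∃ t, chk3 f_pp_022_s t 2 5 1 = true := ex3_b s128_pp_022_s k115_pp_022_s

theorem s130_pp_022_s : ∃ t, chk3 f_pp_022_s t 5 19 1 = true := ex3_a k111_pp_022_s k112_pp_022_s

theorem s131_pp_022_s : ∃ t, chk3 f_pp_022_s t 41 36 1 = true := ex3_a k106_pp_022_s k107_pp_022_s

theorem s132_pp_022_s : ∃ t, chk3 f_pp_022_s t 20 36 1 = true := ex3_a k105_pp_022_s s131_pp_022_s

theorem s133_pp_022_s : ∃ t, chk3 f_pp_022_s t 10 36 1 = true := ex3_a s132_pp_022_s k108_pp_022_s

theorem s134_pp_022_s : ∃ t, chk3 f_pp_022_s t 10 18 1 = true := ex3_b s133_pp_022_s k109_pp_022_s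

theorem s135_pp_022_s : ∃ t, chk3 f_pp_022_s t 5 18 1 = true := ex3_a s134_pp_022_s k110_pp_022_s

theorem s136_pp_022_s : ∃ t, chk3 f_pp_022_s t 5 9 1 = true := ex3_b s135_pp_022_s s130_pp_022_s

theorem s137_pp_022_s : ∃ t, chk3 f_pp_022_s t 9 18 1 = true := ex3_b k102_pp_022_s k103_pp_022_s

theorem s138_pp_022_s : ∃ t, chk3 f_pp_022_s t 4 18 1 = true := ex3_a k101_pp_022_s s137_pp_022_s

theorem s139_pp_022_s : ∃ t, chk3 f_pp_022_s t 4 9 1 = true := ex3_b s138_pp_022_s k104_pp_022_s

theorem s140_pp_022_s : ∃ t, chk3 f_pp_022_s t 2 9 1 = true := ex3_a s139_pp_022_s s136_pp_022_s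

theorem s141_pp_022_s : ∃ t, chk3 f_pp_022_s t 40 71 1 = true := ex3_a k96_pp_022_s k97_pp_022_s

theorem s142_pp_022_s : ∃ t, chk3 f_pp_022_s t 20 71 1 = true := ex3_a s141_pp_022_s k98_pp_022_s

theorem s143_pp_022_s : ∃ t, chk3 f_pp_022_s t 20 35 1 = true := ex3_b k95_pp_022_s s142_pp_022_s

theorem s144_pp_022_s : ∃ t, chk3 f_pp_022_s t 10 35 1 = true := ex3_a s143_pp_022_s k99_pp_022_s

theorem s145_pp_022_s : ∃ t, chk3 f_pp_022_s t 10 17 1 = true := ex3_b k94_pp_022_s s144_pp_022_s

theorem s146_pp_022_s : ∃ t, chk3 f_pp_022_s t 10 8 1 = true := ex3_b k93_pp_022_s s145_pp_022_s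

theorem s147_pp_022_s : ∃ t, chk3 f_pp_022_s t 5 8 1 = true := ex3_a s146_pp_022_s k100_pp_022_s

theorem s148_pp_022_s : ∃ t, chk3 f_pp_022_s t 39 71 1 = true := ex3_a k91_pp_022_s k92_pp_022_s

theorem s149_pp_022_s : ∃ t, chk3 f_pp_022_s t 19 71 1 = true := ex3_a k90_pp_022_s s148_pp_022_s

theorem s150_pp_022_s : ∃ t, chk3 f_pp_022_s t 78 141 1 = true := ex3_b k87_pp_022_s k88_pp_022_s

theorem s151_pp_022_s : ∃ t, chk3 f_pp_022_s t 39 141 1 = true := ex3_a s150_pp_022_s k89_pp_022_s

theorem s152_pp_022_s : ∃ t, chk3 f_pp_022_s t 39 70 1 = true := ex3_b k86_pp_022_s s151_pp_022_s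

theorem s153_pp_022_s : ∃ t, chk3 f_pp_022_s t 77 70 2 = true := ex3_a k83_pp_022_s k84_pp_022_s

theorem s154_pp_022_s : ∃ t, chk3 f_pp_022_s t 77 70 1 = true := ex3_c s153_pp_022_s k85_pp_022_s

theorem s155_pp_022_s : ∃ t, chk3 f_pp_022_s t 38 70 1 = true := ex3_a k82_pp_022_s s154_pp_022_s

theorem s156_pp_022_s : ∃ t, chk3 f_pp_022_s t 19 70 1 = true := ex3_a s155_pp_022_s s152_pp_022_s

theorem s157_pp_022_s : ∃ t, chk3 f_pp_022_s t 19 35 1 = true := ex3_b s156_pp_022_s s149_pp_022_s

theorem s158_pp_022_s : ∃ t, chk3 f_pp_022_s t 9 35 1 = true := ex3_a k81_pp_022_s s157_pp_022_s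

theorem s159_pp_022_s : ∃ t, chk3 f_pp_022_s t 152 139 1 = true := ex3_b k76_pp_022_s k77_pp_022_s

theorem s160_pp_022_s : ∃ t, chk3 f_pp_022_s t 76 139 1 = true := ex3_a s159_pp_022_s k78_pp_022_s

theorem s161_pp_022_s : ∃ t, chk3 f_pp_022_s t 38 139 1 = true := ex3_a s160_pp_022_s k79_pp_022_s

theorem s162_pp_022_s : ∃ t, chk3 f_pp_022_s t 38 69 1 = true := ex3_b k75_pp_022_s s161_pp_022_s

theorem s163_pp_022_s : ∃ t, chk3 f_pp_022_s t 19 69 1 = true := ex3_a s162_pp_022_s k80_pp_022_s

theorem s164_pp_022_s : ∃ t, chk3 f_pp_022_s t 19 34 1 = true := ex3_b k74_pp_022_s s163_pp_022_s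

theorem s165_pp_022_s : ∃ t, chk3 f_pp_022_s t 75 277 4 = true := ex3_a k69_pp_022_s k70_pp_022_s

theorem s166_pp_022_s : ∃ t, chk3 f_pp_022_s t 75 277 2 = true := ex3_c s165_pp_022_s k71_pp_022_s

theorem s167_pp_022_s : ∃ t, chk3 f_pp_022_s t 75 138 2 = true := ex3_b k68_pp_022_s s166_pp_022_s

theorem s168_pp_022_s : ∃ t, chk3 f_pp_022_s t 75 69 2 = true := ex3_b s167_pp_022_s k72_pp_022_s

theorem s169_pp_022_s : ∃ t, chk3 f_pp_022_s t 74 138 2 = true := ex3_b k65_pp_022_s k66_pp_022_s

theorem s170_pp_022_s : ∃ t, chk3 f_pp_022_s t 74 69 2 = true := ex3_b s169_pp_022_s k67_pp_022_s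

theorem s171_pp_022_s : ∃ t, chk3 f_pp_022_s t 37 69 2 = true := ex3_a s170_pp_022_s s168_pp_022_s

theorem s172_pp_022_s : ∃ t, chk3 f_pp_022_s t 37 69 1 = true := ex3_c s171_pp_022_s k73_pp_022_s

theorem s173_pp_022_s : ∃ t, chk3 f_pp_022_s t 18 69 1 = true := ex3_a k64_pp_022_s s172_pp_022_s

theorem s174_pp_022_s : ∃ t, chk3 f_pp_022_s t 148 137 1 = true := ex3_a k60_pp_022_s k61_pp_022_s

theorem s175_pp_022_s : ∃ t, chk3 f_pp_022_s t 74 137 1 = true := ex3_a s174_pp_022_s k62_pp_022_s

theorem s176_pp_022_s : ∃ t, chk3 f_pp_022_s t 37 137 1 = true := ex3_a s175_pp_022_s k63_pp_022_s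

theorem s177_pp_022_s : ∃ t, chk3 f_pp_022_s t 37 68 1 = true := ex3_b k59_pp_022_s s176_pp_022_s

theorem s178_pp_022_s : ∃ t, chk3 f_pp_022_s t 147 274 4 = true := ex3_b k54_pp_022_s k55_pp_022_s

theorem s179_pp_022_s : ∃ t, chk3 f_pp_022_s t 147 274 2 = true := ex3_c s178_pp_022_s k56_pp_022_s

theorem s180_pp_022_s : ∃ t, chk3 f_pp_022_s t 147 137 2 = true := ex3_b s179_pp_022_s k57_pp_022_s

theorem s181_pp_022_s : ∃ t, chk3 f_pp_022_s t 73 137 2 = true := ex3_a k53_pp_022_s s180_pp_022_s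

theorem s182_pp_022_s : ∃ t, chk3 f_pp_022_s t 146 273 2 = true := ex3_a k50_pp_022_s k51_pp_022_s

theorem s183_pp_022_s : ∃ t, chk3 f_pp_022_s t 73 273 2 = true := ex3_a s182_pp_022_s k52_pp_022_s

theorem s184_pp_022_s : ∃ t, chk3 f_pp_022_s t 73 136 2 = true := ex3_b k49_pp_022_s s183_pp_022_s

theorem s185_pp_022_s : ∃ t, chk3 f_pp_022_s t 73 68 2 = true := ex3_b s184_pp_022_s s181_pp_022_s

theorem s186_pp_022_s : ∃ t, chk3 f_pp_022_s t 145 68 4 = true := ex3_a k46_pp_022_s k47_pp_022_s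

theorem s187_pp_022_s : ∃ t, chk3 f_pp_022_s t 72 68 4 = true := ex3_a k45_pp_022_s s186_pp_022_s

theorem s188_pp_022_s : ∃ t, chk3 f_pp_022_s t 72 68 2 = true := ex3_c s187_pp_022_s k48_pp_022_s

theorem s189_pp_022_s : ∃ t, chk3 f_pp_022_s t 36 68 2 = true := ex3_a s188_pp_022_s s185_pp_022_s

theorem s190_pp_022_s : ∃ t, chk3 f_pp_022_s t 36 68 1 = true := ex3_c s189_pp_022_s k58_pp_022_s

theorem s191_pp_022_s : ∃ t, chk3 f_pp_022_s t 18 68 1 = true := ex3_a s190_pp_022_s s177_pp_022_s

theorem s192_pp_022_s : ∃ t, chk3 f_pp_022_s t 18 34 1 = true := ex3_b s191_pp_022_s s173_pp_022_s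

theorem s193_pp_022_s : ∃ t, chk3 f_pp_022_s t 9 34 1 = true := ex3_a s192_pp_022_s s164_pp_022_s

theorem s194_pp_022_s : ∃ t, chk3 f_pp_022_s t 9 17 1 = true := ex3_b s193_pp_022_s s158_pp_022_s

theorem s195_pp_022_s : ∃ t, chk3 f_pp_022_s t 144 271 1 = true := ex3_a k39_pp_022_s k40_pp_022_s

theorem s196_pp_022_s : ∃ t, chk3 f_pp_022_s t 72 271 1 = true := ex3_a s195_pp_022_s k41_pp_022_s

theorem s197_pp_022_s : ∃ t, chk3 f_pp_022_s t 36 271 1 = true := ex3_a s196_pp_022_s k42_pp_022_s

theorem s198_pp_022_s : ∃ t, chk3 f_pp_022_s t 36 135 1 = true := ex3_b k38_pp_022_s s197_pp_022_s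

theorem s199_pp_022_s : ∃ t, chk3 f_pp_022_s t 36 67 1 = true := ex3_b k37_pp_022_s s198_pp_022_s

theorem s200_pp_022_s : ∃ t, chk3 f_pp_022_s t 18 67 1 = true := ex3_a s199_pp_022_s k43_pp_022_s

theorem s201_pp_022_s : ∃ t, chk3 f_pp_022_s t 18 33 1 = true := ex3_b k36_pp_022_s s200_pp_022_s

theorem s202_pp_022_s : ∃ t, chk3 f_pp_022_s t 18 16 1 = true := ex3_b k35_pp_022_s s201_pp_022_s

theorem s203_pp_022_s : ∃ t, chk3 f_pp_022_s t 9 16 1 = true := ex3_a s202_pp_022_s k44_pp_022_s

theorem s204_pp_022_s : ∃ t, chk3 f_pp_022_s t 9 8 1 = true := ex3_b s203_pp_022_s s194_pp_022_s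

theorem s205_pp_022_s : ∃ t, chk3 f_pp_022_s t 17 34 1 = true := ex3_a k32_pp_022_s k33_pp_022_s

theorem s206_pp_022_s : ∃ t, chk3 f_pp_022_s t 17 17 1 = true := ex3_b s205_pp_022_s k34_pp_022_s

theorem s207_pp_022_s : ∃ t, chk3 f_pp_022_s t 8 17 1 = true := ex3_a k31_pp_022_s s206_pp_022_s

theorem s208_pp_022_s : ∃ t, chk3 f_pp_022_s t 143 270 1 = true := ex3_b k28_pp_022_s k29_pp_022_s

theorem s209_pp_022_s : ∃ t, chk3 f_pp_022_s t 143 135 1 = true := ex3_b s208_pp_022_s k30_pp_022_s

theorem s210_pp_022_s : ∃ t, chk3 f_pp_022_s t 142 135 1 = true := ex3_a k26_pp_022_s k27_pp_022_s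

theorem s211_pp_022_s : ∃ t, chk3 f_pp_022_s t 71 135 1 = true := ex3_a s210_pp_022_s s209_pp_022_s

theorem s212_pp_022_s : ∃ t, chk3 f_pp_022_s t 35 135 1 = true := ex3_a k25_pp_022_s s211_pp_022_s

theorem s213_pp_022_s : ∃ t, chk3 f_pp_022_s t 142 269 1 = true := ex3_a k22_pp_022_s k23_pp_022_s

theorem s214_pp_022_s : ∃ t, chk3 f_pp_022_s t 71 269 1 = true := ex3_a s213_pp_022_s k24_pp_022_s

theorem s215_pp_022_s : ∃ t, chk3 f_pp_022_s t 71 134 1 = true := ex3_b k21_pp_022_s s214_pp_022_s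

theorem s216_pp_022_s : ∃ t, chk3 f_pp_022_s t 70 269 2 = true := ex3_a k18_pp_022_s k19_pp_022_s

theorem s217_pp_022_s : ∃ t, chk3 f_pp_022_s t 70 537 2 = true := ex3_b k16_pp_022_s k17_pp_022_s

theorem s218_pp_022_s : ∃ t, chk3 f_pp_022_s t 70 536 2 = true := ex3_b k14_pp_022_s k15_pp_022_s

theorem s219_pp_022_s : ∃ t, chk3 f_pp_022_s t 70 268 2 = true := ex3_b s218_pp_022_s s217_pp_022_s

theorem s220_pp_022_s : ∃ t, chk3 f_pp_022_s t 70 134 2 = true := ex3_b s219_pp_022_s s216_pp_022_s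

theorem s221_pp_022_s : ∃ t, chk3 f_pp_022_s t 70 134 1 = true := ex3_c s220_pp_022_s k20_pp_022_s

theorem s222_pp_022_s : ∃ t, chk3 f_pp_022_s t 35 134 1 = true := ex3_a s221_pp_022_s s215_pp_022_s

theorem s223_pp_022_s : ∃ t, chk3 f_pp_022_s t 35 67 1 = true := ex3_b s222_pp_022_s s212_pp_022_s

theorem s224_pp_022_s : ∃ t, chk3 f_pp_022_s t 35 33 1 = true := ex3_b k13_pp_022_s s223_pp_022_s

theorem s225_pp_022_s : ∃ t, chk3 f_pp_022_s t 279 267 4 = true := ex3_a k8_pp_022_s k9_pp_022_s

theorem s226_pp_022_s : ∃ t, chk3 f_pp_022_s t 139 267 4 = true := ex3_a k7_pp_022_s s225_pp_022_s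

theorem s227_pp_022_s : ∃ t, chk3 f_pp_022_s t 139 267 2 = true := ex3_c s226_pp_022_s k10_pp_022_s

theorem s228_pp_022_s : ∃ t, chk3 f_pp_022_s t 139 133 2 = true := ex3_b k6_pp_022_s s227_pp_022_s

theorem s229_pp_022_s : ∃ t, chk3 f_pp_022_s t 138 133 2 = true := ex3_b k4_pp_022_s k5_pp_022_s

theorem s230_pp_022_s : ∃ t, chk3 f_pp_022_s t 69 133 2 = true := ex3_a s229_pp_022_s s228_pp_022_s

theorem s231_pp_022_s : ∃ t, chk3 f_pp_022_s t 69 133 1 = true := ex3_c s230_pp_022_s k11_pp_022_s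

theorem s232_pp_022_s : ∃ t, chk3 f_pp_022_s t 34 133 1 = true := ex3_a k3_pp_022_s s231_pp_022_s

theorem s233_pp_022_s : ∃ t, chk3 f_pp_022_s t 34 66 1 = true := ex3_b k2_pp_022_s s232_pp_022_s

theorem s234_pp_022_s : ∃ t, chk3 f_pp_022_s t 34 33 1 = true := ex3_b s233_pp_022_s k12_pp_022_s

theorem s235_pp_022_s : ∃ t, chk3 f_pp_022_s t 17 33 1 = true := ex3_a s234_pp_022_s s224_pp_022_s

theorem s236_pp_022_s : ∃ t, chk3 f_pp_022_s t 17 16 1 = true := ex3_b k1_pp_022_s s235_pp_022_s

theorem s237_pp_022_s : ∃ t, chk3 f_pp_022_s t 8 16 1 = true := ex3_a k0_pp_022_s s236_pp_022_s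

theorem s238_pp_022_s : ∃ t, chk3 f_pp_022_s t 8 8 1 = true := ex3_b s237_pp_022_s s207_pp_022_s

theorem s239_pp_022_s : ∃ t, chk3 f_pp_022_s t 4 8 1 = true := ex3_a s238_pp_022_s s204_pp_022_s

theorem s240_pp_022_s : ∃ t, chk3 f_pp_022_s t 2 8 1 = true := ex3_a s239_pp_022_s s147_pp_022_s

theorem s241_pp_022_s : ∃ t, chk3 f_pp_022_s t 2 4 1 = true := ex3_b s240_pp_022_s s140_pp_022_s

theorem s242_pp_022_s : ∃ t, chk3 f_pp_022_s t 2 2 1 = true := ex3_b s241_pp_022_s s129_pp_022_s

theorem s243_pp_022_s : ∃ t, chk3 f_pp_022_s t 2 1 1 = true := ex3_b s242_pp_022_s k116_pp_022_s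

theorem s244_pp_022_s : ∃ t, chk3 f_pp_022_s t 1 1 1 = true := ex3_a s243_pp_022_s s127_pp_022_s

theorem c_pp_022_s : CertNE 0 536870912 1073741824 536870912 858993459 64424510 3 eng mog cd0q0 cd4q2 pd2 false true true .pp 0 2 2
    ndB0q0 ndB4q2 pcB2 cut_pp_022_s Ext.none :=
  certNE1 (fam := false) (s1 := true) (s2 := true) (a := 0) (b := 2) (c := 2) (cn := .pp) (n1 := ndB0q0) (n2 := ndB4q2) (pc := pcB2) (cut := cut_pp_022_s) (xt := Ext.none) (P1 := 0) (W1 := 536870912) (P2 := 1073741824) (W2 := 536870912) (P3 := 858993459) (W3 := 64424510) (N0 := 3) (En := eng) (mo := mog) (C1 := cd0q0) (C2 := cd4q2) (C3 := pd2)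
    rfl (fun _ => rfl) s244_pp_022_s

noncomputable def cut_pp_023_s : Cut := Cut.of [[⟨4, 0, 0, 1449551462⟩]]

noncomputable def f_pp_023_s : ℕ → ℕ → ℕ → ℕ → Bool := onCell 1073741824 536870912 0 1230186008 858993459 64424510
    (rowNE 3 eng mog cd0q0 cd4q3 pd2 2 false true true .up 0 2 3 (qsf 0 536870912 0 1230186008 2) ndB0q0 ndB4q3 pcB2 cut_pp_023_s Ext.none)

def k0_pp_023_s : ∃ t, chk3 f_pp_023_s t 2 2 1 = true :=
  ⟨(l 2), by decide +kernel⟩

def k1_pp_023_s : ∃ t, chk3 f_pp_023_s t 4 3 1 = true :=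
  ⟨(b (l 2) (b (l 2) (l 3))), by decide +kernel⟩

def k2_pp_023_s : ∃ t, chk3 f_pp_023_s t 5 6 1 = true :=
  ⟨(a (l 2) (b (l 2) (b (l 2) (a (l 2) (b (l 2) (l 405437711783)))))), by decide +kernel⟩

def k3_pp_023_s : ∃ t, chk3 f_pp_023_s t 10 14 1 = true :=
  ⟨(a (a (l 3) (a (l 3) (b (l 2) (b (l 2) (a (c (a (l 289541239015) (c (l 16797344) (l 16776312))) (c (l 249275929431) (l 246054704823))) (c (l 16797568) (l 16770392))))))) (b (a (l 2) (c (l 267462414999) (l 207869731031))) (b (b (a (l 2) (l 16732512)) (c (l 237934506231) (l 16760976))) (a (c (b (l 16756240) (l 16752440)) (l 16771960)) (c (l 16704896) (l 16719960)))))), by decide +kernel⟩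

def k4_pp_023_s : ∃ t, chk3 f_pp_023_s t 10 30 1 = true :=
  ⟨(a (a (l 3) (a (b (a (l 3) (b (c (l 319069126935) (l 16770856)) (c (l 229948562759) (l 16774808)))) (b (a (l 3) (c (c (l 16774376) (l 16774784)) (l 16775216))) (a (c (l 222432371511) (l 16773960)) (c (l 16768688) (l 16770584))))) (b (a (a (c (c (l 16796232) (l 16774248)) (l 153712892263)) (c (c (l 16769880) (l 16770176)) (l 16791528))) (c (l 16795640) (l 16764440))) (a (b (c (a (l 16766992) (l 16762544)) (l 16766744)) (c (l 16758544) (l 16761720))) (c (b (l 16756072) (l 16749408)) (l 16755624)))))) (b (c (a (b (l 16747256) (l 16741176)) (b (l 16715192) (l 16706920))) (a (l 16785872) (l 16710536))) (b (c (l 16779008) (l 16739832)) (c (a (l 16726320) (l 16688632)) (l 16732688))))), by decide +kernel⟩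

def k5_pp_023_s : ∃ t, chk3 f_pp_023_s t 10 31 1 = true :=
  ⟨(a (a (a (a (l 3) (a (l 3) (b (l 3) (b (l 3) (c (l 287393746807) (l 336248909703)))))) (a (b (l 3) (b (a (l 3) (c (l 215453040711) (l 16775000))) (c (c (l 203641790359) (l 16773016)) (l 16752496)))) (b (b (c (c (l 269676875095) (l 367387413127)) (l 269676887655)) (c (c (l 257328865655) (l 16776224)) (l 254644519815))) (c (b (c (l 16768992) (l 16770024)) (l 16760520)) (b (l 16770952) (l 16762840)))))) (a (a (c (b (b (b (l 16775216) (l 16771616)) (l 16765784)) (b (l 16757392) (l 16748392))) (b (b (l 16774328) (l 16768080)) (b (l 16760768) (l 16752328)))) (c (b (b (l 16761768) (l 16754040)) (b (l 16745728) (l 16736752))) (b (b (l 16765008) (l 16758408)) (b (l 16750712) (l 16741888))))) (a (c (b (b (a (l 16753784) (l 16748912)) (l 16743416)) (b (l 16734960) (l 16725792))) (b (b (l 16755776) (l 16748784)) (b (l 16740688) (l 16731408)))) (b (c (b (l 16741752) (l 16733536)) (l 16742848)) (c (b (l 16724792) (l 16715344)) (l 16725776))))))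 (c (b (a (b (l 16717896) (l 16708896)) (l 16673520)) (b (l 16731280) (l 16720760))) (b (b (l 16724512) (l 16736040)) (b (l 16704856) (l 16672568))))), by decide +kernel⟩

def k6_pp_023_s : ∃ t, chk3 f_pp_023_s t 11 7 1 = true :=
  ⟨(a (c (b (b (b (l 16713064) (l 16680008)) (b (a (l 16709384) (l 16682448)) (a (l 16695608) (l 16663816)))) (b (b (l 16721448) (a (l 16592664) (l 16616800))) (b (a (l 16591488) (l 16592712)) (l 16589448)))) (b (b (b (l 353361540071) (l 16688936)) (b (l 16682072) (l 16672336))) (b (b (l 16659096) (l 16703584)) (b (a (l 16617488) (l 16596864)) (b (l 16598144) (l 16584120)))))) (b (b (b (l 16550672) (c (l 16656936) (l 16632424))) (b (c (l 16595400) (l 16621160)) (c (l 16612952) (l 16606392)))) (b (b (c (l 16544064) (l 16586552)) (c (l 16557904) (l 16540608))) (b (c (l 16489024) (l 16511936)) (a (l 16461712) (l 16479944)))))), by decide +kernel⟩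

def k7_pp_023_s : ∃ t, chk3 f_pp_023_s t 3 1 1 = true :=
  ⟨(a (b (l 2) (b (b (a (l 2) (b (l 221828234439) (c (l 16589464) (l 16323208)))) (a (b (a (l 16490280) (l 16600648)) (a (b (l 16627352) (l 16617688)) (b (l 16584128) (l 16568928)))) (a (a (b (l 16529792) (l 16538808)) (b (l 16551656) (l 16512336))) (l 6)))) (a (a (b (b (b (l 16604848) (l 16524176)) (b (l 16565152) (l 16517664))) (b (b (l 16425160) (c (l 16478112) (l 16478712))) (b (l 16361512) (c (l 16415296) (l 16407048))))) (b (b (b (l 16548936) (l 16524784)) (b (l 16496032) (l 16464152))) (b (b (l 16429728) (l 16393560)) (b (l 16356536) (c (l 16325456) (l 16309488)))))) (a (b (b (l 16305144) (b (l 16423840) (l 16386520))) (b (b (l 16347200) (l 16306568)) (b (l 16264688) (b (l 16232456) (l 16209872))))) (b (l 6) (l 6)))))) (b (l 6) (l 6))), by decide +kernel⟩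

theorem s8_pp_023_s : ∃ t, chk3 f_pp_023_s t 10 15 1 = true := ex3_b k4_pp_023_s k5_pp_023_s

theorem s9_pp_023_s : ∃ t, chk3 f_pp_023_s t 10 7 1 = true := ex3_b k3_pp_023_s s8_pp_023_s

theorem s10_pp_023_s : ∃ t, chk3 f_pp_023_s t 5 7 1 = true := ex3_a s9_pp_023_s k6_pp_023_s

theorem s11_pp_023_s : ∃ t, chk3 f_pp_023_s t 5 3 1 = true := ex3_b k2_pp_023_s s10_pp_023_s

theorem s12_pp_023_s : ∃ t, chk3 f_pp_023_s t 2 3 1 = true := ex3_a k1_pp_023_s s11_pp_023_s

theorem s13_pp_023_s : ∃ t, chk3 f_pp_023_s t 2 1 1 = true := ex3_b k0_pp_023_s s12_pp_023_s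

theorem s14_pp_023_s : ∃ t, chk3 f_pp_023_s t 1 1 1 = true := ex3_a s13_pp_023_s k7_pp_023_s

theorem c_pp_023_s : CertNE 0 536870912 0 1230186008 858993459 64424510 3 eng mog cd0q0 cd4q3 pd2 false true true .up 0 2 3
    ndB0q0 ndB4q3 pcB2 cut_pp_023_s Ext.none :=
  certNE2 (fam := false) (s1 := true) (s2 := true) (a := 0) (b := 2) (c := 3) (cn := .up) (n1 := ndB0q0) (n2 := ndB4q3) (pc := pcB2) (cut := cut_pp_023_s) (xt := Ext.none) (P1 := 0) (W1 := 536870912) (P2 := 0) (W2 := 1230186008) (P3 := 858993459) (W3 := 64424510) (N0 := 3) (En := eng) (mo := mog) (C1 := cd0q0) (C2 := cd4q3) (C3 := pd2)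
    rfl (fun _ => rfl) s14_pp_023_s

noncomputable def cut_pp_033_s : Cut := Cut.of [[⟨4, 0, 0, 1449551462⟩]]

noncomputable def f_pp_033_s : ℕ → ℕ → ℕ → ℕ → Bool := onCell 1610612736 536870912 0 1230186008 858993459 64424510
    (rowNE 3 eng mog cd0q0 cd4q3 pd3 2 false true true .pnn 0 3 3 (qsf 0 536870912 0 1230186008 3) ndB0q0 ndB4q3 pcB3 cut_pp_033_s Ext.none)

def k0_pp_033_s : ∃ t, chk3 f_pp_033_s t 1 1 1 = true :=
  ⟨(b (l 6) (l 6)), by decide +kernel⟩

theorem c_pp_033_s : CertNE 0 536870912 0 1230186008 858993459 64424510 3 eng mog cd0q0 cd4q3 pd3 false true true .pnn 0 3 3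
    ndB0q0 ndB4q3 pcB3 cut_pp_033_s Ext.none :=
  certNE2 (fam := false) (s1 := true) (s2 := true) (a := 0) (b := 3) (c := 3) (cn := .pnn) (n1 := ndB0q0) (n2 := ndB4q3) (pc := pcB3) (cut := cut_pp_033_s) (xt := Ext.none) (P1 := 0) (W1 := 536870912) (P2 := 0) (W2 := 1230186008) (P3 := 858993459) (W3 := 64424510) (N0 := 3) (En := eng) (mo := mog) (C1 := cd0q0) (C2 := cd4q3) (C3 := pd3)
    rfl (fun _ => rfl) k0_pp_033_s

noncomputable def cut_pp_101_s : Cut := Cut.of [[⟨4, 0, 0, 1449551462⟩]]

noncomputable def f_pp_101_s : ℕ → ℕ → ℕ → ℕ → Bool := onCell 536870912 536870912 536870912 536870912 858993459 64424510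
    (rowNE 3 eng mog cd0q1 cd4q1 pd0 0 false true true .npn 1 0 1 (qsf 536870912 536870912 536870912 536870912 0) ndB0q1 ndB4q1 pcB0 cut_pp_101_s Ext.none)

def k0_pp_101_s : ∃ t, chk3 f_pp_101_s t 1 1 1 = true :=
  ⟨(a (l 3) (l 5)), by decide +kernel⟩

theorem c_pp_101_s : CertNE 536870912 536870912 536870912 536870912 858993459 64424510 3 eng mog cd0q1 cd4q1 pd0 false true true .npn 1 0 1
    ndB0q1 ndB4q1 pcB0 cut_pp_101_s Ext.none :=
  certNE0 (fam := false) (s1 := true) (s2 := true) (a := 1) (b := 0) (c := 1) (cn := .npn) (n1 := ndB0q1) (n2 := ndB4q1) (pc := pcB0) (cut := cut_pp_101_s) (xt := Ext.none) (P1 := 536870912) (W1 := 536870912) (P2 := 536870912) (W2 := 536870912) (P3 := 858993459) (W3 := 64424510) (N0 := 3) (En := eng) (mo := mog) (C1 := cd0q1) (C2 := cd4q1) (C3 := pd0)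
    rfl k0_pp_101_s

noncomputable def cut_pp_102_s : Cut := Cut.of [[⟨4, 0, 0, 1449551462⟩]]

noncomputable def f_pp_102_s : ℕ → ℕ → ℕ → ℕ → Bool := onCell 536870912 536870912 1073741824 536870912 858993459 64424510
    (rowNE 3 eng mog cd0q1 cd4q2 pd0 0 false true true .npp 1 0 2 (qsf 536870912 536870912 1073741824 536870912 0) ndB0q1 ndB4q2 pcB0 cut_pp_102_s Ext.none)

def k0_pp_102_s : ∃ t, chk3 f_pp_102_s t 1 1 1 = true :=
  ⟨(a (l 3) (b (l 5) (l 3))), by decide +kernel⟩

theorem c_pp_102_s : CertNE 536870912 536870912 1073741824 536870912 858993459 64424510 3 eng mog cd0q1 cd4q2 pd0 false true true .npp 1 0 2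
    ndB0q1 ndB4q2 pcB0 cut_pp_102_s Ext.none :=
  certNE0 (fam := false) (s1 := true) (s2 := true) (a := 1) (b := 0) (c := 2) (cn := .npp) (n1 := ndB0q1) (n2 := ndB4q2) (pc := pcB0) (cut := cut_pp_102_s) (xt := Ext.none) (P1 := 536870912) (W1 := 536870912) (P2 := 1073741824) (W2 := 536870912) (P3 := 858993459) (W3 := 64424510) (N0 := 3) (En := eng) (mo := mog) (C1 := cd0q1) (C2 := cd4q2) (C3 := pd0)
    rfl k0_pp_102_s

noncomputable def cut_pp_112_s : Cut := Cut.of [[⟨4, 0, 0, 1449551462⟩]]

noncomputable def f_pp_112_s : ℕ → ℕ → ℕ → ℕ → Bool := onCell 536870912 536870912 1073741824 536870912 858993459 64424510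
    (rowNE 3 eng mog cd0q1 cd4q2 pd1 0 false true true .dn 1 1 2 (qsf 536870912 536870912 1073741824 536870912 1) ndB0q1 ndB4q2 pcB1 cut_pp_112_s Ext.none)

def k0_pp_112_s : ∃ t, chk3 f_pp_112_s t 1 1 1 = true :=
  ⟨(a (l 3) (b (l 5) (l 3))), by decide +kernel⟩

theorem c_pp_112_s : CertNE 536870912 536870912 1073741824 536870912 858993459 64424510 3 eng mog cd0q1 cd4q2 pd1 false true true .dn 1 1 2
    ndB0q1 ndB4q2 pcB1 cut_pp_112_s Ext.none :=
  certNE0 (fam := false) (s1 := true) (s2 := true) (a := 1) (b := 1) (c := 2) (cn := .dn) (n1 := ndB0q1) (n2 := ndB4q2) (pc := pcB1) (cut := cut_pp_112_s) (xt := Ext.none) (P1 := 536870912) (W1 := 536870912) (P2 := 1073741824) (W2 := 536870912) (P3 := 858993459) (W3 := 64424510) (N0 := 3) (En := eng) (mo := mog) (C1 := cd0q1) (C2 := cd4q2) (C3 := pd1)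
    rfl k0_pp_112_s

noncomputable def cut_pp_113_s : Cut := Cut.of [[⟨4, 0, 0, 1449551462⟩], [⟨0, 1, 0, 67108864⟩, ⟨1, 1, 0, 67108864⟩, ⟨2, 2, 0, 16777216⟩]]

noncomputable def f_pp_113_s : ℕ → ℕ → ℕ → ℕ → Bool := onCell 536870912 536870912 0 1230186008 858993459 64424510
    (rowNE 3 eng mog cd0q1 cd4q3 pd1 2 false true true .nn 1 1 3 (qsf 536870912 536870912 0 1230186008 1) ndB0q1 ndB4q3 pcB1 cut_pp_113_s Ext.none)

def k0_pp_113_s : ∃ t, chk3 f_pp_113_s t 1 1 1 = true :=
  ⟨(a (b (l 2) (a (b (l 2) (b (l 2) (l 3))) (b (b (l 2) (a (l 2) (l 3))) (l 3)))) (a (b (l 2) (b (l 3) (l 3))) (b (b (a (l 2) (a (l 2) (b (l 14) (l 3)))) (l 3)) (l 3)))), by decide +kernel⟩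

theorem c_pp_113_s : CertNE 536870912 536870912 0 1230186008 858993459 64424510 3 eng mog cd0q1 cd4q3 pd1 false true true .nn 1 1 3
    ndB0q1 ndB4q3 pcB1 cut_pp_113_s Ext.none :=
  certNE2 (fam := false) (s1 := true) (s2 := true) (a := 1) (b := 1) (c := 3) (cn := .nn) (n1 := ndB0q1) (n2 := ndB4q3) (pc := pcB1) (cut := cut_pp_113_s) (xt := Ext.none) (P1 := 536870912) (W1 := 536870912) (P2 := 0) (W2 := 1230186008) (P3 := 858993459) (W3 := 64424510) (N0 := 3) (En := eng) (mo := mog) (C1 := cd0q1) (C2 := cd4q3) (C3 := pd1)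
    rfl (fun _ => rfl) k0_pp_113_s

noncomputable def cut_pp_123_s : Cut := Cut.of [[⟨4, 0, 0, 1449551462⟩], [⟨0, 1, 0, 67108864⟩, ⟨1, 1, 0, 67108864⟩, ⟨2, 2, 0, 16777216⟩]]

noncomputable def f_pp_123_s : ℕ → ℕ → ℕ → ℕ → Bool := onCell 1073741824 536870912 0 1230186008 858993459 64424510
    (rowNE 3 eng mog cd0q1 cd4q3 pd2 2 false true true .npn 1 2 3 (qsf 536870912 536870912 0 1230186008 2) ndB0q1 ndB4q3 pcB2 cut_pp_123_s Ext.none)

def k0_pp_123_s : ∃ t, chk3 f_pp_123_s t 8 8 1 = true :=
  ⟨(a (l 14) (a (l 14) (a (l 14) (b (l 16760952) (b (l 16668032) (b (l 16684560) (a (l 16719464) (l 16755208)))))))), by decide +kernel⟩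

def k1_pp_123_s : ∃ t, chk3 f_pp_123_s t 8 9 1 = true :=
  ⟨(b (a (l 3) (a (l 14) (a (b (a (l 14) (a (b (l 14) (b (l 14) (a (l 3) (b (a (l 14) (c (l 317995346711) (l 317458474823))) (l 3))))) (b (c (l 16768264) (l 16774992)) (b (c (c (l 16772504) (l 16773856)) (l 16776192)) (b (c (a (c (l 238001582103) (l 16776416)) (l 16774952)) (a (l 16777000) (l 16776648))) (c (a (b (l 335712091479) (l 416242726343)) (c (l 246054644759) (l 16774760))) (a (l 352355088487) (l 278266897623)))))))) (a (l 3) (b (a (l 3) (a (l 3) (b (c (l 395841629863) (l 389399178711)) (l 3)))) (l 3)))) (b (c (b (a (b (l 16762856) (l 16766272)) (l 16758808)) (a (b (l 16769456) (a (c (l 16773312) (l 16774464)) (l 16771400))) (c (l 16764272) (l 16768280)))) (b (a (b (l 16773880) (l 16774824)) (l 16771568)) (a (b (l 16775488) (a (l 16776432) (l 16775960))) (l 16775144)))) (a (b (b (a (b (c (a (b (l 16775192) (l 315847861895)) (l 16775624)) (a (l 312626635255) (l 16776840))) (c (a (l 413021500295) (b (l 288467446567) (l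 347523251191))) (a (l 411947758343) (l 315847860071)))) (c (c (b (l 16773160) (l 16774992)) (l 16775016)) (b (l 16776456) (l 16776800)))) (a (l 3) (b (c (a (l 333027730167) (l 269676963975)) (a (l 318532214215) (l 16777040))) (c (a (l 3) (l 351281347063)) (l 363092505255))))) (l 3)) (b (c (a (b (l 16772056) (b (l 16774368) (a (l 280951252263) (l 16775288)))) (b (l 16769616) (l 16772664))) (b (l 16775976) (a (b (l 16776624) (l 279340655511)) (l 16776336)))) (a (b (a (c (l 388862308311) (l 382419857175)) (b (c (l 293299282551) (l 310479152103)) (l 379198631799))) (l 3)) (b (c (c (a (l 251423351367) (l 16774712)) (l 266455734663)) (b (l 16776768) (l 303499847559))) (a (l 3) (b (c (l 321216577047) (l 314774117911)) (l 3))))))))))) (l 3)), by decide +kernel⟩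

def k2_pp_123_s : ∃ t, chk3 f_pp_123_s t 8 5 1 = true :=
  ⟨(l 3), by decide +kernel⟩

def k3_pp_123_s : ∃ t, chk3 f_pp_123_s t 36 4 1 = true :=
  ⟨(b (b (c (l 16675192) (l 16677152)) (c (b (l 16708272) (l 16729704)) (b (l 16726688) (l 16745840)))) (b (a (b (b (c (l 16750592) (l 16764920)) (a (c (l 16762128) (l 16774232)) (l 16743424))) (b (a (a (c (l 16768992) (l 16775744)) (l 16745032)) (c (l 16765360) (l 16774744))) (c (b (a (c (l 16771488) (l 16773272)) (l 16768976)) (a (a (c (a (l 294909891623) (l 16775432)) (l 291688663591)) (l 16774088)) (l 16771376))) (a (a (b (l 16776496) (b (l 16776912) (l 311016038727))) (l 16776408)) (l 16775736))))) (a (b (l 16754776) (b (l 16746744) (l 16750400))) (b (l 16749616) (b (l 16763640) (l 16769848))))) (a (b (b (c (c (a (b (a (l 406042176631) (b (l 257865803735) (l 323900931319))) (l 417316461607)) (b (l 16773152) (a (l 311016019479) (l 16774856)))) (a (b (a (l 404431563767) (l 304573558055)) (l 415705848727)) (b (l 16774424) (a (l 315847867655)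 (l 16775592))))) (a (b (a (l 371145567063) (a (l 313700372967) (l 16779528))) (l 411947752183)) (b (l 16784312) (a (b (l 300278619767) (l 316921598199)) (l 16776728))))) (a (l 3) (a (l 3) (b (c (b (l 300815472199) (l 357186925863)) (l 323900930055)) (l 3))))) (l 3)) (b (a (c (b (a (l 16772384) (l 16770928)) (b (a (a (l 16773480) (l 16775200)) (l 16773960)) (a (b (l 309405406247) (l 398525985303)) (l 272361313991)))) (b (l 16775608) (b (l 273435080503) (a (l 331417122231) (l 16776728))))) (b (l 16751208) (c (a (l 16773400) (l 16771976)) (l 16775656)))) (a (b (a (l 3) (b (c (l 342154540215) (l 339470185239)) (l 3))) (l 3)) (c (b (b (a (l 271287572487) (l 16774704)) (a (l 353965699687) (l 271824443159))) (a (l 3) (l 403894690951))) (b (b (l 269676980951) (a (l 350744473927) (l 16776688))) (l 403894687751)))))))), by decide +kernel⟩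

def k4_pp_123_s : ∃ t, chk3 f_pp_123_s t 37 4 1 = true :=
  ⟨(b (b (l 16673048) (c (l 16698568) (l 16721552))) (b (a (b (l 16741904) (c (l 16753992) (l 16765448))) (b (l 16731760) (l 16748992))) (b (a (b (a (l 16770792) (l 16768440)) (a (l 16772688) (l 16771168))) (b (l 16761416) (l 16725640))) (a (b (a (c (b (l 16772608) (l 16774296)) (l 16775776)) (l 16773072)) (c (a (b (a (l 293836150487) (l 16775248)) (a (l 397989113479) (l 298131117687))) (l 16774024)) (a (b (l 264845142231) (l 322827187319)) (l 16775880)))) (b (l 16770824) (a (l 16773344) (l 16771712))))))), by decide +kernel⟩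

def k5_pp_123_s : ∃ t, chk3 f_pp_123_s t 19 4 1 = true :=
  ⟨(b (b (c (l 16737976) (l 16678912)) (a (a (l 16696600) (l 16688696)) (l 16677744))) (b (a (c (a (l 16721560) (l 16710424)) (a (l 16739456) (l 16730968))) (c (l 16698272) (l 16714792))) (a (b (a (l 16754384) (l 16743184)) (a (b (l 16764952) (l 16769136)) (a (l 16760696) (l 16755264)))) (c (l 16731792) (l 16736184))))), by decide +kernel⟩

def k6_pp_123_s : ∃ t, chk3 f_pp_123_s t 9 5 1 = true :=
  ⟨(a (b (a (l 3) (b (a (b (a (b (a (l 3) (l 399599722871)) (l 3)) (b (a (b (l 302962978311) (l 395841629111)) (b (l 16776136) (l 305647332247))) (a (l 3) (l 397452238839)))) (l 3)) (b (a (a (b (l 16784224) (b (l 304573565415) (l 3))) (b (l 16774800) (b (l 16776264) (l 306184178887)))) (b (l 16773504) (b (l 16774904) (l 16781096)))) (a (l 3) (b (c (a (l 331417121335) (l 265918861127)) (l 306184171655)) (l 3))))) (l 3))) (l 3)) (b (a (b (a (b (b (l 16770976) (l 16772712)) (a (b (l 16783264) (a (l 319069090359) (l 280951271207))) (b (l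 16773536) (l 16775360)))) (b (b (l 16787392) (l 16769000)) (c (l 16792048) (l 16793080)))) (a (b (a (l 3) (b (a (l 292225530695) (l 269140109559)) (l 387251690503))) (l 3)) (b (a (b (l 16775240) (l 275045693351)) (b (l 16773200) (l 16785520))) (a (b (l 375977402455) (l 3)) (b (a (l 277730020503) (l 16776448)) (a (l 3) (l 320679686759))))))) (b (b (a (c (l 16760136) (l 16758720)) (l 16748240)) (a (b (l 16766216) (l 16768208)) (b (l 16757496) (l 16762040)))) (a (b (a (l 16771944) (l 16769672)) (a (b (l 16774744) (l 253033991735)) (l 16789112))) (b (a (l 16767216) (l 16764528)) (a (l 16770960) (l 16768344)))))) (a (l 3) (b (a (b (a (b (l 335175236791) (l 3)) (b (l 242296575815) (l 316921629991))) (l 3)) (b (a (b (l 16773848) (l 232096030247)) (b (l 16771272) (l 16773208))) (a (b (l 299741763751) (l 3)) (b (l 16785648) (l 285783123127))))) (a (l 3) (b (a (l 3) (b (l 321753469015) (l 3))) (l 3))))))), by decide +kernel⟩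

def k7_pp_123_s : ∃ t, chk3 f_pp_123_s t 5 2 1 = true :=
  ⟨(b (a (b (a (a (b (l 16639904) (l 16664592)) (a (l 16644336) (b (l 6) (l 16587624)))) (b (l 6) (l 16639120))) (a (a (b (l 16688224) (c (l 16713104) (l 16711392))) (a (b (l 16675712) (l 16696336)) (b (l 16625064) (l 16684896)))) (b (l 16652336) (l 16644616)))) (b (l 6) (a (b (l 16634280) (l 16641296)) (b (l 6) (l 16621608))))) (b (a (a (a (b (c (l 16740768) (l 16730640)) (a (b (c (l 16763896) (l 16751256)) (c (l 16768936) (l 16758288))) (c (b (l 16753392) (l 16762432)) (l 16742216)))) (b (a (l 16717344) (a (l 16707624) (l 16679280))) (a (c (l 16744960) (l 16728808)) (a (l 16726312) (l 16717848))))) (b (l 16701000) (l 16755016))) (b (a (l 16587584) (l 16584000)) (a (l 16534648) (l 16632544)))) (b (a (a (a (a (b (a (l 16769440) (l 16766376)) (a (b (l 16772432) (l 16784880)) (c (l 16772752) (l 16767600)))) (b (c (l 16766896) (l 16753536)) (c (l 16769704) (l 16760056)))) (a (b (c (l 16758488) (l 16741240)) (a (l 16759208) (l 16754232)))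 (a (b (l 16739536) (l 16747592)) (c (l 16740704) (l 16727184))))) (a (l 16719104) (l 16635776))) (a (l 16713760) (l 16515464))) (a (a (b (a (c (a (a (l 242296578295) (l 16775312)) (a (l 16773200) (l 16770896))) (a (a (l 245517811351) (l 16773272)) (a (l 16768624) (l 16763408)))) (a (c (l 16808680) (l 16754848)) (a (l 16732736) (a (l 16748336) (l 16743392))))) (a (a (a (l 3) (b (l 284709386359) (l 309942315111))) (a (b (l 16792552) (l 226190458935)) (c (l 16773536) (l 16769432)))) (a (a (c (l 16770904) (l 16763992)) (l 16742472)) (a (l 16737472) (a (l 16754192) (l 16750608)))))) (a (b (l 16730040) (l 16737312)) (l 16712560))) (a (c (l 16686632) (l 16619656)) (l 16653376)))))), by decide +kernel⟩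

def k8_pp_123_s : ∃ t, chk3 f_pp_123_s t 3 2 1 = true :=
  ⟨(a (b (l 6) (a (a (b (b (l 6) (l 16589680)) (b (l 16575712) (l 16501192))) (b (l 6) (b (l 16555856) (l 16604040)))) (l 6))) (l 6)), by decide +kernel⟩

def k9_pp_123_s : ∃ t, chk3 f_pp_123_s t 4 6 1 = true :=
  ⟨(l 3), by decide +kernel⟩

def k10_pp_123_s : ∃ t, chk3 f_pp_123_s t 10 6 1 = true :=
  ⟨(a (a (b (b (a (l 3) (a (b (b (l 289541224887) (l 3)) (l 3)) (b (c (l 16791864) (l 219748012583)) (b (l 287393746615) (l 3))))) (l 3)) (l 3)) (b (a (a (b (b (c (l 16773520) (l 16769864)) (c (l 16794648) (l 235317272007))) (b (b (l 279877555287) (l 3)) (l 3))) (c (b (b (l 16770304) (l 16773064)) (b (l 213305571047) (l 285246270199))) (b (b (l 16764128) (l 16769680)) (b (l 202031280599) (l 291688724023))))) (b (a (b (c (l 16766096) (l 16758200)) (c (l 16768928) (l 16763832))) (b (a (l 16758560) (l 16755792)) (l 16761280))) (a (b (c (a (l 16773032) (l 16770664)) (a (l 16770384) (l 16767512))) (a (c (l 16775736) (l 16774920)) (c (l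 16773440) (l 16772032)))) (b (c (l 16766872) (l 16763248)) (l 16789760))))) (a (l 3) (b (a (a (b (c (l 16776072) (l 16775760)) (l 3)) (b (c (l 16776112) (l 16775768)) (b (l 16792128) (l 3)))) (c (b (l 16772624) (l 16774928)) (b (l 16771344) (l 16774240)))) (a (l 3) (c (b (l 16776552) (l 16776904)) (b (l 16776360) (l 16776824)))))))) (b (a (b (b (c (l 16747880) (l 16738776)) (c (l 16751112) (l 16744664))) (b (c (l 16754488) (l 16749600)) (c (l 16758368) (l 16753680)))) (b (b (l 16723032) (l 16728392)) (b (l 16732840) (l 16736680)))) (b (b (a (c (l 16761432) (l 16756856)) (l 16739560)) (a (c (l 16763536) (l 16759272)) (l 16740848))) (b (a (c (l 16764616) (l 16760864)) (l 16741216)) (a (c (l 16764936) (l 16761488)) (l 16740600)))))), by decide +kernel⟩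

def k11_pp_123_s : ∃ t, chk3 f_pp_123_s t 11 6 1 = true :=
  ⟨(b (a (b (a (l 16770176) (l 16690152)) (b (l 16706600) (l 16709888))) (b (a (l 16674168) (l 16659168)) (b (l 16632552) (l 16675864)))) (b (a (b (l 16711296) (l 16711056)) (b (l 16675040) (l 16672368))) (a (b (l 16709712) (l 16707176)) (b (l 16668352) (a (l 16673920) (l 16651896)))))), by decide +kernel⟩

def k12_pp_123_s : ∃ t, chk3 f_pp_123_s t 3 6 1 = true :=
  ⟨(a (b (a (b (a (l 16595600) (l 16609640)) (c (l 16647736) (l 16604848))) (a (b (l 16582432) (l 16579000)) (l 6))) (a (b (a (l 16658040) (l 16600512)) (c (a (l 16621520) (l 16493968)) (b (l 16456512) (l 16445392)))) (b (a (l 16561072) (l 1)) (l 1)))) (l 6)), by decide +kernel⟩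

def k13_pp_123_s : ∃ t, chk3 f_pp_123_s t 1 7 1 = true :=
  ⟨(a (a (b (l 3) (l 3)) (a (b (a (a (l 3) (a (l 3) (b (a (l 3) (b (c (l 16776712) (l 16776576)) (b (l 16787664) (l 241759708519)))) (b (a (a (l 3) (c (l 16795672) (l 16794880))) (c (l 16774936) (l 16774440))) (b (a (c (c (l 250349653607) (l 16774936)) (l 247128433415)) (c (l 16772576) (l 16771640))) (l 1)))))) (b (b (a (c (l 16764368) (l 16761008)) (l 16738832)) (a (c (l 16762712) (l 16759248)) (l 16777656))) (b (a (c (b (l 16760688) (l 16758968)) (b (l 16757016) (l 16754960))) (c (l 16735320) (l 16726320))) (a (a (b (l 16782504) (l 1)) (l 1)) (l 1))))) (a (a (b (l 3) (l 1)) (l 1)) (l 1))) (b (b (a (b (a (l 16715080) (l 16649744)) (c (l 16706112) (l 16678336))) (b (a (l 16667640) (l 16643144)) (l 1))) (l 1)) (l 1)))) (l 1)), by decide +kernel⟩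

theorem s14_pp_123_s : ∃ t, chk3 f_pp_123_s t 5 6 1 = true := ex3_a k10_pp_123_s k11_pp_123_s

theorem s15_pp_123_s : ∃ t, chk3 f_pp_123_s t 2 6 1 = true := ex3_a k9_pp_123_s s14_pp_123_s

theorem s16_pp_123_s : ∃ t, chk3 f_pp_123_s t 1 6 1 = true := ex3_a s15_pp_123_s k12_pp_123_s

theorem s17_pp_123_s : ∃ t, chk3 f_pp_123_s t 1 3 1 = true := ex3_b s16_pp_123_s k13_pp_123_s

theorem s18_pp_123_s : ∃ t, chk3 f_pp_123_s t 18 4 1 = true := ex3_a k3_pp_123_s k4_pp_123_s

theorem s19_pp_123_s : ∃ t, chk3 f_pp_123_s t 9 4 1 = true := ex3_a s18_pp_123_s k5_pp_123_s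

theorem s20_pp_123_s : ∃ t, chk3 f_pp_123_s t 9 2 1 = true := ex3_b s19_pp_123_s k6_pp_123_s

theorem s21_pp_123_s : ∃ t, chk3 f_pp_123_s t 8 4 1 = true := ex3_b k0_pp_123_s k1_pp_123_s

theorem s22_pp_123_s : ∃ t, chk3 f_pp_123_s t 8 2 1 = true := ex3_b s21_pp_123_s k2_pp_123_s

theorem s23_pp_123_s : ∃ t, chk3 f_pp_123_s t 4 2 1 = true := ex3_a s22_pp_123_s s20_pp_123_s

theorem s24_pp_123_s : ∃ t, chk3 f_pp_123_s t 2 2 1 = true := ex3_a s23_pp_123_s k7_pp_123_s

theorem s25_pp_123_s : ∃ t, chk3 f_pp_123_s t 1 2 1 = true := ex3_a s24_pp_123_s k8_pp_123_s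

theorem s26_pp_123_s : ∃ t, chk3 f_pp_123_s t 1 1 1 = true := ex3_b s25_pp_123_s s17_pp_123_s

theorem c_pp_123_s : CertNE 536870912 536870912 0 1230186008 858993459 64424510 3 eng mog cd0q1 cd4q3 pd2 false true true .npn 1 2 3
    ndB0q1 ndB4q3 pcB2 cut_pp_123_s Ext.none :=
  certNE2 (fam := false) (s1 := true) (s2 := true) (a := 1) (b := 2) (c := 3) (cn := .npn) (n1 := ndB0q1) (n2 := ndB4q3) (pc := pcB2) (cut := cut_pp_123_s) (xt := Ext.none) (P1 := 536870912) (W1 := 536870912) (P2 := 0) (W2 := 1230186008) (P3 := 858993459) (W3 := 64424510) (N0 := 3) (En := eng) (mo := mog) (C1 := cd0q1) (C2 := cd4q3) (C3 := pd2)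
    rfl (fun _ => rfl) s26_pp_123_s

noncomputable def cut_pp_133_s : Cut := Cut.of [[⟨4, 0, 0, 1449551462⟩]]

noncomputable def f_pp_133_s : ℕ → ℕ → ℕ → ℕ → Bool := onCell 1610612736 536870912 0 1230186008 858993459 64424510
    (rowNE 3 eng mog cd0q1 cd4q3 pd3 2 false true true .dn 1 3 3 (qsf 536870912 536870912 0 1230186008 3) ndB0q1 ndB4q3 pcB3 cut_pp_133_s Ext.none)

def k0_pp_133_s : ∃ t, chk3 f_pp_133_s t 1 1 1 = true :=
  ⟨(b (l 6) (l 1)), by decide +kernel⟩

theorem c_pp_133_s : CertNE 536870912 536870912 0 1230186008 858993459 64424510 3 eng mog cd0q1 cd4q3 pd3 false true true .dn 1 3 3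
    ndB0q1 ndB4q3 pcB3 cut_pp_133_s Ext.none :=
  certNE2 (fam := false) (s1 := true) (s2 := true) (a := 1) (b := 3) (c := 3) (cn := .dn) (n1 := ndB0q1) (n2 := ndB4q3) (pc := pcB3) (cut := cut_pp_133_s) (xt := Ext.none) (P1 := 536870912) (W1 := 536870912) (P2 := 0) (W2 := 1230186008) (P3 := 858993459) (W3 := 64424510) (N0 := 3) (En := eng) (mo := mog) (C1 := cd0q1) (C2 := cd4q3) (C3 := pd3)
    rfl (fun _ => rfl) k0_pp_133_s

noncomputable def cut_pp_202_s : Cut := Cut.of [[⟨4, 0, 0, 1449551462⟩]]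

noncomputable def f_pp_202_s : ℕ → ℕ → ℕ → ℕ → Bool := onCell 0 536870912 1073741824 536870912 858993459 64424510
    (rowNE 3 eng mog cd0q2 cd4q2 pd0 0 false true true .pp 2 0 2 (qsf 0 536870912 1073741824 536870912 0) ndB0q2 ndB4q2 pcB0 cut_pp_202_s Ext.none)

def k0_pp_202_s : ∃ t, chk3 f_pp_202_s t 1 1 1 = true :=
  ⟨(l 5), by decide +kernel⟩

theorem c_pp_202_s : CertNE 0 536870912 1073741824 536870912 858993459 64424510 3 eng mog cd0q2 cd4q2 pd0 false true true .pp 2 0 2
    ndB0q2 ndB4q2 pcB0 cut_pp_202_s Ext.none :=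
  certNE0 (fam := false) (s1 := true) (s2 := true) (a := 2) (b := 0) (c := 2) (cn := .pp) (n1 := ndB0q2) (n2 := ndB4q2) (pc := pcB0) (cut := cut_pp_202_s) (xt := Ext.none) (P1 := 0) (W1 := 536870912) (P2 := 1073741824) (W2 := 536870912) (P3 := 858993459) (W3 := 64424510) (N0 := 3) (En := eng) (mo := mog) (C1 := cd0q2) (C2 := cd4q2) (C3 := pd0)
    rfl k0_pp_202_s

noncomputable def cut_pp_203_s : Cut := Cut.of [[⟨4, 0, 0, 1449551462⟩]]

noncomputable def f_pp_203_s : ℕ → ℕ → ℕ → ℕ → Bool := onCell 0 536870912 0 1230186008 858993459 64424510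
    (rowNE 3 eng mog cd0q2 cd4q3 pd0 0 false true true .up 2 0 3 (qsf 0 536870912 0 1230186008 0) ndB0q2 ndB4q3 pcB0 cut_pp_203_s Ext.none)

def k0_pp_203_s : ∃ t, chk3 f_pp_203_s t 1 1 1 = true :=
  ⟨(b (l 2) (b (l 2) (a (l 5) (l 3)))), by decide +kernel⟩

theorem c_pp_203_s : CertNE 0 536870912 0 1230186008 858993459 64424510 3 eng mog cd0q2 cd4q3 pd0 false true true .up 2 0 3
    ndB0q2 ndB4q3 pcB0 cut_pp_203_s Ext.none :=
  certNE0 (fam := false) (s1 := true) (s2 := true) (a := 2) (b := 0) (c := 3) (cn := .up) (n1 := ndB0q2) (n2 := ndB4q3) (pc := pcB0) (cut := cut_pp_203_s) (xt := Ext.none) (P1 := 0) (W1 := 536870912) (P2 := 0) (W2 := 1230186008) (P3 := 858993459) (W3 := 64424510) (N0 := 3) (En := eng) (mo := mog) (C1 := cd0q2) (C2 := cd4q3) (C3 := pd0)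
    rfl k0_pp_203_s

noncomputable def cut_pp_213_s : Cut := Cut.of [[⟨4, 0, 0, 1449551462⟩], [⟨0, 1, 0, 67108864⟩, ⟨1, 1, 0, 67108864⟩, ⟨2, 2, 0, 16777216⟩]]

noncomputable def f_pp_213_s : ℕ → ℕ → ℕ → ℕ → Bool := onCell 0 536870912 0 1230186008 858993459 64424510
    (rowNE 3 eng mog cd0q2 cd4q3 pd1 0 false true true .pnn 2 1 3 (qsf 0 536870912 0 1230186008 1) ndB0q2 ndB4q3 pcB1 cut_pp_213_s Ext.none)

def k0_pp_213_s : ∃ t, chk3 f_pp_213_s t 1 1 1 = true :=
  ⟨(a (b (l 3) (l 5)) (b (b (a (l 3) (a (l 3) (b (l 14) (l 3)))) (l 3)) (b (l 3) (l 3)))), by decide +kernel⟩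

theorem c_pp_213_s : CertNE 0 536870912 0 1230186008 858993459 64424510 3 eng mog cd0q2 cd4q3 pd1 false true true .pnn 2 1 3
    ndB0q2 ndB4q3 pcB1 cut_pp_213_s Ext.none :=
  certNE0 (fam := false) (s1 := true) (s2 := true) (a := 2) (b := 1) (c := 3) (cn := .pnn) (n1 := ndB0q2) (n2 := ndB4q3) (pc := pcB1) (cut := cut_pp_213_s) (xt := Ext.none) (P1 := 0) (W1 := 536870912) (P2 := 0) (W2 := 1230186008) (P3 := 858993459) (W3 := 64424510) (N0 := 3) (En := eng) (mo := mog) (C1 := cd0q2) (C2 := cd4q3) (C3 := pd1)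
    rfl k0_pp_213_s

noncomputable def cut_pm_001_s : Cut := Cut.of [[⟨4, 0, 0, 1449551462⟩]]

noncomputable def f_pm_001_s : ℕ → ℕ → ℕ → ℕ → Bool := onCell 0 536870912 536870912 536870912 858993459 64424510
    (rowNE 3 eng mog cd0q0 cd4q1 pd0 0 false true false .up 0 0 1 (qsf 0 536870912 536870912 536870912 0) ndB0q0 ndB4q1 pcB0 cut_pm_001_s Ext.none)

def k0_pm_001_s : ∃ t, chk3 f_pm_001_s t 1 1 1 = true :=
  ⟨(l 4), by decide +kernel⟩

theorem c_pm_001_s : CertNE 0 536870912 536870912 536870912 858993459 64424510 3 eng mog cd0q0 cd4q1 pd0 false true false .up 0 0 1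
    ndB0q0 ndB4q1 pcB0 cut_pm_001_s Ext.none :=
  certNE0 (fam := false) (s1 := true) (s2 := false) (a := 0) (b := 0) (c := 1) (cn := .up) (n1 := ndB0q0) (n2 := ndB4q1) (pc := pcB0) (cut := cut_pm_001_s) (xt := Ext.none) (P1 := 0) (W1 := 536870912) (P2 := 536870912) (W2 := 536870912) (P3 := 858993459) (W3 := 64424510) (N0 := 3) (En := eng) (mo := mog) (C1 := cd0q0) (C2 := cd4q1) (C3 := pd0)
    rfl k0_pm_001_s

noncomputable def cut_pm_011_s : Cut := Cut.of [[⟨4, 0, 0, 1449551462⟩]]

noncomputable def f_pm_011_s : ℕ → ℕ → ℕ → ℕ → Bool := onCell 0 536870912 536870912 536870912 858993459 64424510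
    (rowNE 3 eng mog cd0q0 cd4q1 pd1 0 false true false .pnn 0 1 1 (qsf 0 536870912 536870912 536870912 1) ndB0q0 ndB4q1 pcB1 cut_pm_011_s Ext.none)

def k0_pm_011_s : ∃ t, chk3 f_pm_011_s t 1 1 1 = true :=
  ⟨(l 4), by decide +kernel⟩

theorem c_pm_011_s : CertNE 0 536870912 536870912 536870912 858993459 64424510 3 eng mog cd0q0 cd4q1 pd1 false true false .pnn 0 1 1
    ndB0q0 ndB4q1 pcB1 cut_pm_011_s Ext.none :=
  certNE0 (fam := false) (s1 := true) (s2 := false) (a := 0) (b := 1) (c := 1) (cn := .pnn) (n1 := ndB0q0) (n2 := ndB4q1) (pc := pcB1) (cut := cut_pm_011_s) (xt := Ext.none) (P1 := 0) (W1 := 536870912) (P2 := 536870912) (W2 := 536870912) (P3 := 858993459) (W3 := 64424510) (N0 := 3) (En := eng) (mo := mog) (C1 := cd0q0) (C2 := cd4q1) (C3 := pd1)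
    rfl k0_pm_011_s

noncomputable def cut_pm_012_s : Cut := Cut.of [[⟨4, 0, 0, 1449551462⟩]]

noncomputable def f_pm_012_s : ℕ → ℕ → ℕ → ℕ → Bool := onCell 0 536870912 1073741824 536870912 858993459 64424510
    (rowNE 3 eng mog cd0q0 cd4q2 pd1 0 false true false .pnp 0 1 2 (qsf 0 536870912 1073741824 536870912 1) ndB0q0 ndB4q2 pcB1 cut_pm_012_s Ext.none)

def k0_pm_012_s : ∃ t, chk3 f_pm_012_s t 1 1 1 = true :=
  ⟨(l 4), by decide +kernel⟩

theorem c_pm_012_s : CertNE 0 536870912 1073741824 536870912 858993459 64424510 3 eng mog cd0q0 cd4q2 pd1 false true false .pnp 0 1 2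
    ndB0q0 ndB4q2 pcB1 cut_pm_012_s Ext.none :=
  certNE0 (fam := false) (s1 := true) (s2 := false) (a := 0) (b := 1) (c := 2) (cn := .pnp) (n1 := ndB0q0) (n2 := ndB4q2) (pc := pcB1) (cut := cut_pm_012_s) (xt := Ext.none) (P1 := 0) (W1 := 536870912) (P2 := 1073741824) (W2 := 536870912) (P3 := 858993459) (W3 := 64424510) (N0 := 3) (En := eng) (mo := mog) (C1 := cd0q0) (C2 := cd4q2) (C3 := pd1)
    rfl k0_pm_012_s

noncomputable def cut_pm_022_s : Cut := Cut.of [[⟨4, 0, 0, 1449551462⟩]]

noncomputable def f_pm_022_s : ℕ → ℕ → ℕ → ℕ → Bool := onCell 0 536870912 1073741824 536870912 858993459 64424510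
    (rowNE 3 eng mog cd0q0 cd4q2 pd2 0 false true false .pp 0 2 2 (qsf 0 536870912 1073741824 536870912 2) ndB0q0 ndB4q2 pcB2 cut_pm_022_s Ext.none)

def k0_pm_022_s : ∃ t, chk3 f_pm_022_s t 1 1 1 = true :=
  ⟨(l 4), by decide +kernel⟩

theorem c_pm_022_s : CertNE 0 536870912 1073741824 536870912 858993459 64424510 3 eng mog cd0q0 cd4q2 pd2 false true false .pp 0 2 2
    ndB0q0 ndB4q2 pcB2 cut_pm_022_s Ext.none :=
  certNE0 (fam := false) (s1 := true) (s2 := false) (a := 0) (b := 2) (c := 2) (cn := .pp) (n1 := ndB0q0) (n2 := ndB4q2) (pc := pcB2) (cut := cut_pm_022_s) (xt := Ext.none) (P1 := 0) (W1 := 536870912) (P2 := 1073741824) (W2 := 536870912) (P3 := 858993459) (W3 := 64424510) (N0 := 3) (En := eng) (mo := mog) (C1 := cd0q0) (C2 := cd4q2) (C3 := pd2)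
    rfl k0_pm_022_s

noncomputable def cut_pm_023_s : Cut := Cut.of [[⟨4, 0, 0, 1449551462⟩]]

noncomputable def f_pm_023_s : ℕ → ℕ → ℕ → ℕ → Bool := onCell 0 536870912 0 1230186008 858993459 64424510
    (rowNE 3 eng mog cd0q0 cd4q3 pd2 0 false true false .up 0 2 3 (qsf 0 536870912 0 1230186008 2) ndB0q0 ndB4q3 pcB2 cut_pm_023_s Ext.none)

def k0_pm_023_s : ∃ t, chk3 f_pm_023_s t 1 1 1 = true :=
  ⟨(l 6), by decide +kernel⟩

theorem c_pm_023_s : CertNE 0 536870912 0 1230186008 858993459 64424510 3 eng mog cd0q0 cd4q3 pd2 false true false .up 0 2 3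
    ndB0q0 ndB4q3 pcB2 cut_pm_023_s Ext.none :=
  certNE0 (fam := false) (s1 := true) (s2 := false) (a := 0) (b := 2) (c := 3) (cn := .up) (n1 := ndB0q0) (n2 := ndB4q3) (pc := pcB2) (cut := cut_pm_023_s) (xt := Ext.none) (P1 := 0) (W1 := 536870912) (P2 := 0) (W2 := 1230186008) (P3 := 858993459) (W3 := 64424510) (N0 := 3) (En := eng) (mo := mog) (C1 := cd0q0) (C2 := cd4q3) (C3 := pd2)
    rfl k0_pm_023_s

noncomputable def cut_pm_033_s : Cut := Cut.of [[⟨4, 0, 0, 1449551462⟩]]

noncomputable def f_pm_033_s : ℕ → ℕ → ℕ → ℕ → Bool := onCell 0 536870912 0 1230186008 858993459 64424510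
    (rowNE 3 eng mog cd0q0 cd4q3 pd3 0 false true false .pnn 0 3 3 (qsf 0 536870912 0 1230186008 3) ndB0q0 ndB4q3 pcB3 cut_pm_033_s Ext.none)

def k0_pm_033_s : ∃ t, chk3 f_pm_033_s t 1 1 1 = true :=
  ⟨(l 6), by decide +kernel⟩

theorem c_pm_033_s : CertNE 0 536870912 0 1230186008 858993459 64424510 3 eng mog cd0q0 cd4q3 pd3 false true false .pnn 0 3 3
    ndB0q0 ndB4q3 pcB3 cut_pm_033_s Ext.none :=
  certNE0 (fam := false) (s1 := true) (s2 := false) (a := 0) (b := 3) (c := 3) (cn := .pnn) (n1 := ndB0q0) (n2 := ndB4q3) (pc := pcB3) (cut := cut_pm_033_s) (xt := Ext.none) (P1 := 0) (W1 := 536870912) (P2 := 0) (W2 := 1230186008) (P3 := 858993459) (W3 := 64424510) (N0 := 3) (En := eng) (mo := mog) (C1 := cd0q0) (C2 := cd4q3) (C3 := pd3)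
    rfl k0_pm_033_s

noncomputable def cut_pm_101_s : Cut := Cut.of [[⟨4, 0, 0, 1449551462⟩]]

noncomputable def f_pm_101_s : ℕ → ℕ → ℕ → ℕ → Bool := onCell 536870912 536870912 536870912 536870912 858993459 64424510
    (rowNE 3 eng mog cd0q1 cd4q1 pd0 0 false true false .npn 1 0 1 (qsf 536870912 536870912 536870912 536870912 0) ndB0q1 ndB4q1 pcB0 cut_pm_101_s Ext.none)

def k0_pm_101_s : ∃ t, chk3 f_pm_101_s t 1 1 1 = true :=
  ⟨(l 4), by decide +kernel⟩

theorem c_pm_101_s : CertNE 536870912 536870912 536870912 536870912 858993459 64424510 3 eng mog cd0q1 cd4q1 pd0 false true false .npn 1 0 1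
    ndB0q1 ndB4q1 pcB0 cut_pm_101_s Ext.none :=
  certNE0 (fam := false) (s1 := true) (s2 := false) (a := 1) (b := 0) (c := 1) (cn := .npn) (n1 := ndB0q1) (n2 := ndB4q1) (pc := pcB0) (cut := cut_pm_101_s) (xt := Ext.none) (P1 := 536870912) (W1 := 536870912) (P2 := 536870912) (W2 := 536870912) (P3 := 858993459) (W3 := 64424510) (N0 := 3) (En := eng) (mo := mog) (C1 := cd0q1) (C2 := cd4q1) (C3 := pd0)
    rfl k0_pm_101_s

noncomputable def cut_pm_102_s : Cut := Cut.of [[⟨4, 0, 0, 1449551462⟩]]

noncomputable def f_pm_102_s : ℕ → ℕ → ℕ → ℕ → Bool := onCell 536870912 536870912 1073741824 536870912 858993459 64424510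
    (rowNE 3 eng mog cd0q1 cd4q2 pd0 0 false true false .npp 1 0 2 (qsf 536870912 536870912 1073741824 536870912 0) ndB0q1 ndB4q2 pcB0 cut_pm_102_s Ext.none)

def k0_pm_102_s : ∃ t, chk3 f_pm_102_s t 1 1 1 = true :=
  ⟨(l 6), by decide +kernel⟩

theorem c_pm_102_s : CertNE 536870912 536870912 1073741824 536870912 858993459 64424510 3 eng mog cd0q1 cd4q2 pd0 false true false .npp 1 0 2
    ndB0q1 ndB4q2 pcB0 cut_pm_102_s Ext.none :=
  certNE0 (fam := false) (s1 := true) (s2 := false) (a := 1) (b := 0) (c := 2) (cn := .npp) (n1 := ndB0q1) (n2 := ndB4q2) (pc := pcB0) (cut := cut_pm_102_s) (xt := Ext.none) (P1 := 536870912) (W1 := 536870912) (P2 := 1073741824) (W2 := 536870912) (P3 := 858993459) (W3 := 64424510) (N0 := 3) (En := eng) (mo := mog) (C1 := cd0q1) (C2 := cd4q2) (C3 := pd0)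
    rfl k0_pm_102_s

noncomputable def cut_pm_112_s : Cut := Cut.of [[⟨4, 0, 0, 1449551462⟩]]

noncomputable def f_pm_112_s : ℕ → ℕ → ℕ → ℕ → Bool := onCell 536870912 536870912 1073741824 536870912 858993459 64424510
    (rowNE 3 eng mog cd0q1 cd4q2 pd1 0 false true false .dn 1 1 2 (qsf 536870912 536870912 1073741824 536870912 1) ndB0q1 ndB4q2 pcB1 cut_pm_112_s Ext.none)

def k0_pm_112_s : ∃ t, chk3 f_pm_112_s t 1 1 1 = true :=
  ⟨(l 6), by decide +kernel⟩

theorem c_pm_112_s : CertNE 536870912 536870912 1073741824 536870912 858993459 64424510 3 eng mog cd0q1 cd4q2 pd1 false true false .dn 1 1 2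
    ndB0q1 ndB4q2 pcB1 cut_pm_112_s Ext.none :=
  certNE0 (fam := false) (s1 := true) (s2 := false) (a := 1) (b := 1) (c := 2) (cn := .dn) (n1 := ndB0q1) (n2 := ndB4q2) (pc := pcB1) (cut := cut_pm_112_s) (xt := Ext.none) (P1 := 536870912) (W1 := 536870912) (P2 := 1073741824) (W2 := 536870912) (P3 := 858993459) (W3 := 64424510) (N0 := 3) (En := eng) (mo := mog) (C1 := cd0q1) (C2 := cd4q2) (C3 := pd1)
    rfl k0_pm_112_s

noncomputable def cut_pm_113_s : Cut := Cut.of [[⟨4, 0, 0, 1449551462⟩], [⟨0, 1, 0, 67108864⟩, ⟨1, 1, 0, 67108864⟩, ⟨2, 2, 0, 16777216⟩]]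

noncomputable def f_pm_113_s : ℕ → ℕ → ℕ → ℕ → Bool := onCell 536870912 536870912 0 1230186008 858993459 64424510
    (rowNE 3 eng mog cd0q1 cd4q3 pd1 0 false true false .nn 1 1 3 (qsf 536870912 536870912 0 1230186008 1) ndB0q1 ndB4q3 pcB1 cut_pm_113_s Ext.none)

def k0_pm_113_s : ∃ t, chk3 f_pm_113_s t 1 1 1 = true :=
  ⟨(a (b (l 2) (l 6)) (b (a (l 2) (b (a (l 2) (a (l 2) (b (l 14) (b (l 14) (a (l 16749104) (l 16796288)))))) (a (l 6) (a (l 6) (a (l 6) (b (b (l 16803584) (l 6)) (l 6))))))) (l 6))), by decide +kernel⟩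

theorem c_pm_113_s : CertNE 536870912 536870912 0 1230186008 858993459 64424510 3 eng mog cd0q1 cd4q3 pd1 false true false .nn 1 1 3
    ndB0q1 ndB4q3 pcB1 cut_pm_113_s Ext.none :=
  certNE0 (fam := false) (s1 := true) (s2 := false) (a := 1) (b := 1) (c := 3) (cn := .nn) (n1 := ndB0q1) (n2 := ndB4q3) (pc := pcB1) (cut := cut_pm_113_s) (xt := Ext.none) (P1 := 536870912) (W1 := 536870912) (P2 := 0) (W2 := 1230186008) (P3 := 858993459) (W3 := 64424510) (N0 := 3) (En := eng) (mo := mog) (C1 := cd0q1) (C2 := cd4q3) (C3 := pd1)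
    rfl k0_pm_113_s

noncomputable def cut_pm_123_s : Cut := Cut.of [[⟨4, 0, 0, 1449551462⟩], [⟨0, 1, 0, 67108864⟩, ⟨1, 1, 0, 67108864⟩, ⟨2, 2, 0, 16777216⟩]]

noncomputable def f_pm_123_s : ℕ → ℕ → ℕ → ℕ → Bool := onCell 1073741824 536870912 0 1230186008 858993459 64424510
    (rowNE 3 eng mog cd0q1 cd4q3 pd2 2 false true false .npn 1 2 3 (qsf 536870912 536870912 0 1230186008 2) ndB0q1 ndB4q3 pcB2 cut_pm_123_s Ext.none)

def k0_pm_123_s : ∃ t, chk3 f_pm_123_s t 1 1 1 = true :=
  ⟨(b (a (b (b (a (a (a (l 14) (a (l 14) (a (l 14) (b (l 16648016) (l 16624840))))) (b (a (a (l 16735872) (l 16633832)) (c (l 16533672) (l 16651032))) (a (c (l 16599760) (l 16641544)) (l 6)))) (l 6)) (a (a (a (b (l 14) (a (l 16663952) (l 16652576))) (c (l 16739224) (b (l 16639792) (l 6)))) (l 6)) (l 6))) (b (l 6) (l 6))) (l 6)) (l 6)), by decide +kernel⟩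

theorem c_pm_123_s : CertNE 536870912 536870912 0 1230186008 858993459 64424510 3 eng mog cd0q1 cd4q3 pd2 false true false .npn 1 2 3
    ndB0q1 ndB4q3 pcB2 cut_pm_123_s Ext.none :=
  certNE2 (fam := false) (s1 := true) (s2 := false) (a := 1) (b := 2) (c := 3) (cn := .npn) (n1 := ndB0q1) (n2 := ndB4q3) (pc := pcB2) (cut := cut_pm_123_s) (xt := Ext.none) (P1 := 536870912) (W1 := 536870912) (P2 := 0) (W2 := 1230186008) (P3 := 858993459) (W3 := 64424510) (N0 := 3) (En := eng) (mo := mog) (C1 := cd0q1) (C2 := cd4q3) (C3 := pd2)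
    rfl (fun _ => rfl) k0_pm_123_s

noncomputable def cut_pm_133_s : Cut := Cut.of [[⟨4, 0, 0, 1449551462⟩]]

noncomputable def f_pm_133_s : ℕ → ℕ → ℕ → ℕ → Bool := onCell 1610612736 536870912 0 1230186008 858993459 64424510
    (rowNE 3 eng mog cd0q1 cd4q3 pd3 2 false true false .dn 1 3 3 (qsf 536870912 536870912 0 1230186008 3) ndB0q1 ndB4q3 pcB3 cut_pm_133_s Ext.none)

def k0_pm_133_s : ∃ t, chk3 f_pm_133_s t 1 1 1 = true :=
  ⟨(l 6), by decide +kernel⟩

theorem c_pm_133_s : CertNE 536870912 536870912 0 1230186008 858993459 64424510 3 eng mog cd0q1 cd4q3 pd3 false true false .dn 1 3 3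
    ndB0q1 ndB4q3 pcB3 cut_pm_133_s Ext.none :=
  certNE2 (fam := false) (s1 := true) (s2 := false) (a := 1) (b := 3) (c := 3) (cn := .dn) (n1 := ndB0q1) (n2 := ndB4q3) (pc := pcB3) (cut := cut_pm_133_s) (xt := Ext.none) (P1 := 536870912) (W1 := 536870912) (P2 := 0) (W2 := 1230186008) (P3 := 858993459) (W3 := 64424510) (N0 := 3) (En := eng) (mo := mog) (C1 := cd0q1) (C2 := cd4q3) (C3 := pd3)
    rfl (fun _ => rfl) k0_pm_133_s

noncomputable def cut_pm_202_s : Cut := Cut.of [[⟨4, 0, 0, 1449551462⟩]]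

noncomputable def f_pm_202_s : ℕ → ℕ → ℕ → ℕ → Bool := onCell 0 536870912 1073741824 536870912 858993459 64424510
    (rowNE 3 eng mog cd0q2 cd4q2 pd0 0 false true false .pp 2 0 2 (qsf 0 536870912 1073741824 536870912 0) ndB0q2 ndB4q2 pcB0 cut_pm_202_s Ext.none)

def k0_pm_202_s : ∃ t, chk3 f_pm_202_s t 1 1 1 = true :=
  ⟨(a (b (l 6) (a (l 6) (l 6))) (l 6)), by decide +kernel⟩

theorem c_pm_202_s : CertNE 0 536870912 1073741824 536870912 858993459 64424510 3 eng mog cd0q2 cd4q2 pd0 false true false .pp 2 0 2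
    ndB0q2 ndB4q2 pcB0 cut_pm_202_s Ext.none :=
  certNE0 (fam := false) (s1 := true) (s2 := false) (a := 2) (b := 0) (c := 2) (cn := .pp) (n1 := ndB0q2) (n2 := ndB4q2) (pc := pcB0) (cut := cut_pm_202_s) (xt := Ext.none) (P1 := 0) (W1 := 536870912) (P2 := 1073741824) (W2 := 536870912) (P3 := 858993459) (W3 := 64424510) (N0 := 3) (En := eng) (mo := mog) (C1 := cd0q2) (C2 := cd4q2) (C3 := pd0)
    rfl k0_pm_202_s

noncomputable def cut_pm_203_s : Cut := Cut.of [[⟨4, 0, 0, 1449551462⟩]]

noncomputable def f_pm_203_s : ℕ → ℕ → ℕ → ℕ → Bool := onCell 0 536870912 0 1230186008 858993459 64424510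
    (rowNE 3 eng mog cd0q2 cd4q3 pd0 0 false true false .up 2 0 3 (qsf 0 536870912 0 1230186008 0) ndB0q2 ndB4q3 pcB0 cut_pm_203_s Ext.none)

def k0_pm_203_s : ∃ t, chk3 f_pm_203_s t 1 1 1 = true :=
  ⟨(b (l 2) (b (l 2) (a (b (b (l 2) (b (a (l 2) (l 2)) (a (a (l 16670632) (a (l 16630760) (l 16614672))) (l 6)))) (a (b (a (b (l 16646008) (a (l 16634424) (l 16583304))) (b (a (l 16621704) (l 6)) (l 6))) (a (b (b (l 16541496) (l 16613984)) (l 16582880)) (l 6))) (l 6))) (l 6)))), by decide +kernel⟩

theorem c_pm_203_s : CertNE 0 536870912 0 1230186008 858993459 64424510 3 eng mog cd0q2 cd4q3 pd0 false true false .up 2 0 3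
    ndB0q2 ndB4q3 pcB0 cut_pm_203_s Ext.none :=
  certNE0 (fam := false) (s1 := true) (s2 := false) (a := 2) (b := 0) (c := 3) (cn := .up) (n1 := ndB0q2) (n2 := ndB4q3) (pc := pcB0) (cut := cut_pm_203_s) (xt := Ext.none) (P1 := 0) (W1 := 536870912) (P2 := 0) (W2 := 1230186008) (P3 := 858993459) (W3 := 64424510) (N0 := 3) (En := eng) (mo := mog) (C1 := cd0q2) (C2 := cd4q3) (C3 := pd0)
    rfl k0_pm_203_s

noncomputable def cut_pm_213_s : Cut := Cut.of [[⟨4, 0, 0, 1449551462⟩], [⟨0, 1, 0, 67108864⟩, ⟨1, 1, 0, 67108864⟩, ⟨2, 2, 0, 16777216⟩]]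

noncomputable def f_pm_213_s : ℕ → ℕ → ℕ → ℕ → Bool := onCell 0 536870912 0 1230186008 858993459 64424510
    (rowNE 3 eng mog cd0q2 cd4q3 pd1 0 false true false .pnn 2 1 3 (qsf 0 536870912 0 1230186008 1) ndB0q2 ndB4q3 pcB1 cut_pm_213_s Ext.none)

def k0_pm_213_s : ∃ t, chk3 f_pm_213_s t 2 2 1 = true :=
  ⟨(b (l 3) (b (l 3) (b (a (l 3) (a (l 3) (a (l 3) (b (a (l 3) (a (l 3) (b (l 3) (c (l 316384735687) (l 322827182439))))) (a (a (l 3) (b (l 3) (b (l 317458518855) (c (l 287393735335) (l 277193194823))))) (c (b (a (l 311016048343) (b (l 286856862615) (l 261087050087))) (a (b (l 277193190391) (l 16776064)) (l 16775424))) (b (a (l 315311034183) (b (l 278266934743) (l 16773120))) (a (b (l 270213804039) (l 16770712)) (l 16766544))))))))) (a (l 3) (a (a (l 3) (b (l 3) (a (l 3) (b (l 3) (a (l 3) (b (l 3) (l 307257981911))))))) (a (b (a (l 3) (c (b (l 323364101335) (a (l 301889242215) (b (l 286856866871) (l 16775808)))) (b (a (l 3) (l 328195890455)) (c (l 288467450775) (a (l 324437796759)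 (l 266992570119)))))) (c (c (a (b (l 301889220375) (a (l 282025029239) (l 16771776))) (b (a (l 263771354551) (l 16769328)) (l 16764448))) (a (b (l 302962961335) (l 274508850391)) (b (l 250349576071) (l 16770968)))) (c (a (b (l 306184185831) (l 268603175223)) (b (l 243907120391) (l 16764416))) (a (b (l 308868539287) (a (l 282561820471) (l 16765184))) (b (l 220821663287) (l 16748672)))))) (a (c (c (b (b (a (l 284709353319) (l 16773208)) (l 16769288)) (l 16759088)) (b (b (l 281488171079) (l 16774368)) (l 16768952))) (c (b (b (l 269676921975) (l 16769376)) (l 16759048)) (b (b (a (l 284172438375) (l 16767552)) (l 16758568)) (l 16735440)))) (b (c (b (c (l 16767424) (l 16774992)) (l 16771560)) (b (c (l 16767360) (l 16753480)) (l 16750192))) (c (l 16744072) (b (l 16739128) (l 16727056))))))))))), by decide +kernel⟩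

def k1_pm_213_s : ∃ t, chk3 f_pm_213_s t 3 8 1 = true :=
  ⟨(a (l 3) (a (a (l 3) (l 14)) (l 14))), by decide +kernel⟩

def k2_pm_213_s : ∃ t, chk3 f_pm_213_s t 6 9 1 = true :=
  ⟨(a (l 3) (a (l 3) (a (b (l 3) (b (l 3) (b (l 3) (c (c (a (l 323900937751) (b (l 300815481575) (l 268603216839))) (a (l 321216573671) (b (l 299741739735) (l 264845120887)))) (a (b (l 3) (l 305110448711)) (b (a (l 319605963559) (l 275045690903)) (a (l 270750724823) (l 16775240)))))))) (b (l 3) (b (a (l 3) (b (l 3) (c (b (a (l 3) (l 322827198375)) (a (l 305110461479) (b (l 275582549671) (l 263234529575)))) (b (l 323364074503) (a (l 303499836167) (l 270750723815)))))) (c (b (a (b (a (l 3) (l 301889233927)) (a (l 299204879879) (l 276656305991))) (b (a (b (l 279340655943) (l 16777656)) (l 16777960)) (l 16778464))) (a (b (a (l 261623921239) (l 16778416)) (l 16778776)) (l 16779728))) (b (a (b (a (l 3) (l 300815481831)) (a (l 298131127367) (l 256255183687))) (b (a (l 266455757447) (l 16775176)) (l 16774128))) (a (c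 (l 16769984) (l 16772856)) (l 16771504))))))))), by decide +kernel⟩

def k3_pm_213_s : ∃ t, chk3 f_pm_213_s t 7 18 1 = true :=
  ⟨(a (a (b (l 3) (b (a (l 3) (b (a (l 3) (a (l 3) (c (b (a (l 3) (l 316384738263)) (a (l 313163513047) (l 275045684055))) (a (l 312626641431) (l 307257938183))))) (a (a (l 3) (a (l 3) (c (l 330343385959) (l 329806510135)))) (c (c (a (b (l 314774125351) (l 271824453479)) (l 275045685399)) (a (l 308331682599) (l 269140104087))) (a (b (l 309942287223) (l 269676977127)) (b (l 263771397335) (l 16776128))))))) (a (a (l 3) (a (l 3) (b (l 3) (c (c (l 313163511975) (l 311016028439)) (l 307257942743))))) (a (a (c (c (b (l 318532220503) (b (l 273435066023) (l 16777528))) (b (l 328195897079) (l 269676969495))) (b (l 325511542823) (b (l 268066356391) (l 16776504)))) (c (b (b (a (l 314237254519) (l 271824453367)) (a (l 276656297303) (l 16777296))) (l 16777416)) (b (b (l 306184191127) (l 266992623223)) (l 16775872)))) (b (a (b (c (l 16780552) (l 16776432)) (l 16784496)) (l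 16786848)) (a (l 16776296) (l 16775944))))))) (a (a (b (b (l 3) (b (a (l 3) (a (l 3) (l 14))) (a (b (l 3) (a (c (l 320142834375) (l 328732769079)) (c (b (l 313700384295) (l 273971941015)) (l 270750716135)))) (b (a (c (b (l 316921609543) (l 273435070407)) (l 308868545943)) (l 14)) (a (c (l 16777160) (l 16776776)) (l 16776744)))))) (c (b (b (a (b (a (l 269676974983) (l 16777176)) (l 16777184)) (l 16777080)) (l 16777160)) (l 16777392)) (b (a (b (a (l 266455751063) (l 16776424)) (l 16775608)) (l 16775352)) (l 16773736)))) (b (l 14) (b (c (l 16776744) (l 16774320)) (l 16774800)))) (l 14))) (a (a (l 14) (l 14)) (a (l 14) (l 14)))), by decide +kernel⟩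

def k4_pm_213_s : ∃ t, chk3 f_pm_213_s t 7 19 1 = true :=
  ⟨(a (a (c (b (a (a (b (b (l 3) (a (l 3) (b (l 307794803415) (l 273435074007)))) (b (a (b (l 304036718039) (l 277730043671)) (b (l 16782720) (l 16777728))) (a (l 16777768) (l 16778152)))) (c (b (b (a (l 308868545239) (l 271287583239)) (a (l 276119428055) (l 16778040))) (l 16778512)) (b (b (a (l 306721061607) (l 273971943223)) (l 257865819271)) (l 16777216)))) (a (b (c (l 16778600) (l 16777016)) (l 16778856)) (l 16778528))) (a (b (a (l 16778976) (l 16779760)) (l 16781200)) (l 16781544))) (b (a (b (a (b (l 3) (a (l 3) (l 301889234103))) (b (a (l 304573588487) (b (l 269140106599) (l 16776232))) (c (l 242296543255) (l 233706607991)))) (a (c (c (l 262697646263) (l 258402677927)) (b (l 260550161799) (l 16774224))) (l 16768416))) (b (a (b (l 16775104) (l 16773856)) (l 16772912)) (l 16771280))) (a (b (a (l 16772664) (l 16770816)) (l 16768592)) (l 16767496)))) (b (a (c (l 16778400) (l 16749144)) (c (l 16776888) (l 16768544))) (a (c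 (l 16781912) (l 16766216)) (l 16773160)))) (a (a (b (l 16770832) (l 16771472)) (l 16768888)) (a (l 16767056) (l 16765376)))), by decide +kernel⟩

def k5_pm_213_s : ∃ t, chk3 f_pm_213_s t 6 10 2 = true :=
  ⟨(a (b (a (l 3) (b (l 3) (a (l 3) (b (l 3) (a (l 3) (b (l 3) (l 294373029735))))))) (a (b (l 3) (a (l 3) (b (a (l 3) (l 308331692951)) (a (l 305110479303) (b (l 282025022439) (l 264845147175)))))) (b (a (b (l 3) (a (l 3) (b (l 302426093271) (l 280951258775)))) (b (a (b (l 3) (l 293299289239)) (b (l 284709376407) (a (l 16777240) (l 16777304)))) (a (b (l 270213864039) (l 16777120)) (l 16777248)))) (c (a (b (a (l 290614934359) (l 252497078327)) (l 16762320)) (b (l 16772152) (l 16768928))) (a (b (a (l 291151806455) (l 16778584)) (l 16779944)) (l 16781672)))))) (b (b (a (a (l 3) (b (a (l 3) (b (l 3) (a (l 3) (l 299204869575)))) (a (b (l 308868564295) (a (l 306184190503) (l 279340660119))) (b (a (l 278803775463) (l 16777576)) (a (l 16777600) (l 16777968)))))) (c (a (b (a (b (l 278266904615)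 (l 253570830599)) (l 16776992)) (l 16776344)) (l 16777680)) (a (b (a (b (l 276656291223) (l 16777552)) (l 16777816)) (l 16778512)) (l 16778760)))) (a (a (c (b (a (l 323900926471) (b (l 305110447975) (l 276119420295))) (a (b (l 295446773127) (l 257328924135)) (l 16775792))) (b (a (l 321753444391) (l 299204869271)) (a (l 280414388071) (l 16778288)))) (b (a (b (a (l 276119435671) (l 16777624)) (l 16777744)) (l 16778288)) (a (l 16778112) (l 16778840)))) (a (b (l 16779824) (l 16780520)) (l 16783608)))) (a (b (a (b (c (l 16763912) (l 16779320)) (l 16777648)) (l 16737000)) (a (l 16777384) (l 16778768))) (b (a (l 16781256) (l 16785056)) (l 16783184))))), by decide +kernel⟩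

def k6_pm_213_s : ∃ t, chk3 f_pm_213_s t 6 11 2 = true :=
  ⟨(a (b (b (b (a (a (c (l 307794822487) (l 307794801175)) (a (b (l 274508833079) (l 16776600)) (l 16776344))) (a (l 16775808) (l 16775704))) (a (a (c (a (l 284172483031) (l 16763696)) (l 275045713959)) (c (l 16769880) (l 16780656))) (l 16753504))) (a (a (b (c (l 16771176) (l 16777904)) (l 16773960)) (b (l 16774184) (l 16772464))) (c (l 16755096) (l 16787816)))) (a (b (a (l 16694816) (l 16769128)) (c (l 16738664) (l 16762896))) (b (l 16767624) (l 16760960)))) (b (a (b (l 16755384) (l 16773448)) (l 16634528)) (a (b (l 16768600) (l 16761480)) (l 16771632)))), by decide +kernel⟩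

def k7_pm_213_s : ∃ t, chk3 f_pm_213_s t 6 10 3 = true :=
  ⟨(a (b (a (l 3) (a (l 3) (b (l 3) (b (l 3) (c (l 319069088599) (l 324437795207)))))) (b (a (l 3) (b (a (l 3) (a (b (l 3) (l 290614934759)) (c (l 269140075031) (l 260013264407)))) (a (a (l 3) (b (l 302962963255) (l 279340671719))) (a (c (l 248738981223) (l 233169720951)) (l 16769432))))) (a (a (l 3) (b (a (l 3) (l 311016024135)) (a (b (l 3) (l 301889222903)) (b (l 272898222119) (l 16763160))))) (c (a (b (a (l 286856837591) (l 16774264)) (l 16771800)) (l 16768456)) (a (b (a (l 280951256087) (l 16770064)) (l 16763936)) (l 16755544)))))) (b (a (b (a (l 3) (b (a (l 3) (b (l 3) (l 302426115479))) (a (b (l 309942285879) (a (l 307257932775) (l 264308243639))) (b (b (l 271824470887) (l 258402698855)) (l 16773944))))) (a (b (a (l 323900927271) (b (l 304573577751) (a (l 299204884711) (l 16775456)))) (a (c (l 275582547991) (l 268603198039)) (b (l 16773912) (l 16771288)))) (a (b (c (l 251960210295) (l 236390951527)) (l 16768896)) (b (l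 16770408) (l 16765472))))) (b (a (b (a (b (a (l 301352352951) (l 260550149111)) (a (l 254644569175) (l 16774240))) (b (l 16774016) (l 16772008))) (a (l 16771792) (l 16768888))) (b (l 16769064) (l 16765200))) (a (b (l 16765880) (l 16761112)) (l 16758816)))) (a (b (a (b (c (l 16772520) (l 16765760)) (l 16763360)) (b (l 16761880) (l 16756208))) (a (l 16753824) (l 16746816))) (b (a (l 16753232) (l 16749112)) (l 16739240))))), by decide +kernel⟩

def k8_pm_213_s : ∃ t, chk3 f_pm_213_s t 6 11 3 = true :=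
  ⟨(a (b (a (b (a (c (b (l 309405412663) (a (l 284172483463) (l 16773840))) (b (l 312089744855) (a (l 282024960279) (l 16769096)))) (b (a (b (l 262697615415) (l 16771712)) (l 16768208)) (a (l 16765856) (l 16760448)))) (a (b (c (l 16770792) (l 16761640)) (l 16757328)) (b (l 16754808) (l 16745776)))) (b (a (b (l 16760624) (l 16752816)) (l 16747472)) (c (l 16753608) (l 16716744)))) (b (a (c (l 16754040) (l 16719504)) (l 16715096)) (a (c (l 16739272) (l 16686672)) (l 16691104)))) (b (a (b (a (l 16739344) (l 16732472)) (l 16718760)) (b (l 16725272) (l 16708480))) (a (b (l 16698424) (l 16673912)) (l 16613136)))), by decide +kernel⟩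

def k9_pm_213_s : ∃ t, chk3 f_pm_213_s t 7 5 1 = true :=
  ⟨(b (a (b (b (a (a (c (l 16784680) (l 16763552)) (c (l 16786368) (l 16761848))) (c (l 16786928) (l 16761704))) (a (c (l 16789856) (l 16755568)) (c (l 16794392) (l 16756504)))) (c (a (b (l 16792216) (l 16793256)) (l 16806672)) (a (b (l 16746736) (l 16736112)) (l 16745280)))) (b (a (b (l 16772552) (l 16775296)) (l 16771848)) (a (c (l 16806800) (l 16751440)) (l 16781136)))) (a (a (b (c (l 16792368) (l 16715168)) (c (l 16783064) (l 16675104))) (b (c (l 16807528) (l 16721704)) (l 6))) (b (l 6) (l 6)))), by decide +kernel⟩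

def k10_pm_213_s : ∃ t, chk3 f_pm_213_s t 8 6 1 = true :=
  ⟨(b (l 3) (b (b (l 3) (a (l 3) (a (l 3) (b (l 3) (c (a (l 307257928935) (b (l 287930613383) (l 253033988407))) (b (l 314237247319) (a (l 294373064327) (l 251423299143)))))))) (a (b (b (l 3) (a (l 3) (b (l 3) (c (l 311016023815) (l 329269627591))))) (a (b (l 3) (c (a (l 307794798631) (b (l 287393742023) (l 249275897335))) (c (l 297594254455) (a (l 334638336439) (l 275582467415))))) (c (b (b (l 285783142727) (a (l 278803803719) (l 16770616))) (b (c (l 16763408) (l 16771376)) (l 16721808))) (c (b (l 287393630167) (l 16764192)) (b (b (l 288467369495) (l 229948460919)) (b (l 16757632) (l 16745856))))))) (c (c (b (a (b (l 303499832295) (a (l 268066390775) (l 16765208))) (b (b (l 252497049383) (l 16761384)) (l 16749376))) (b (a (l 16754312) (l 16732640)) (l 16726096))) (b (a (b (l 307257926807) (l 260550199447)) (b (l 265918814567) (l 16765624))) (b (l 16731568) (l 16755536)))) (c (b (a (b (l 314774117431) (l 263771314711)) (b (l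 258402612359) (l 16756688))) (b (a (l 16760376) (l 16744928)) (l 16740904))) (b (a (b (l 319605932279) (b (l 253570765191) (l 16761856))) (b (b (l 16744440) (l 16755048)) (l 16738280))) (b (a (l 16744944) (l 16715192)) (l 16706368)))))))), by decide +kernel⟩

def k11_pm_213_s : ∃ t, chk3 f_pm_213_s t 9 12 1 = true :=
  ⟨(a (l 3) (b (l 3) (b (b (l 3) (a (l 3) (b (l 3) (c (l 305647316327) (l 312089765271))))) (a (c (b (l 329269632183) (a (l 304573596023) (b (l 284172518471) (l 16773368)))) (b (l 342691395847) (b (l 306184187015) (a (l 287393738903) (l 16770040))))) (c (b (c (a (l 280951295207) (l 254107666599)) (l 267529525767)) (c (l 16761328) (l 16769728))) (b (c (l 271824388103) (b (l 285246161175) (l 16746304))) (c (l 16764304) (l 16753768)))))))), by decide +kernel⟩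

def k12_pm_213_s : ∃ t, chk3 f_pm_213_s t 9 13 1 = true :=
  ⟨(c (c (b (a (b (a (b (l 3) (l 311552896215)) (b (l 300815478423) (a (l 266455773255) (l 16765208)))) (a (b (a (l 283635651463) (l 258939498007)) (b (l 16763984) (l 16756312))) (b (l 16755208) (l 16739704)))) (b (b (a (a (l 258402630167) (l 16760856)) (l 16747664)) (a (l 16751016) (l 16732992))) (b (l 16726472) (l 16710120)))) (b (a (b (l 16744312) (l 16717080)) (l 16684320)) (a (c (l 16674984) (l 16706824)) (l 16646696)))) (b (a (b (a (l 326585336423) (b (l 303499831927) (l 263234549895))) (a (b (l 283098783047) (l 16770256)) (b (l 16768192) (l 16761688)))) (b (b (a (l 257328883959) (l 16763488)) (l 16761480)) (b (l 16754840) (l 16747736)))) (b (a (b (l 16759232) (l 16752016)) (l 16736256)) (a (l 16740272) (l 16719304))))) (c (b (a (b (b (l 324437785879) (a (l 326585273623) (l 267529417943))) (b (a (l 286856766199) (l 16760888)) (a (l 16764560) (l 16749536)))) (b (b (a (l 16747000) (l 16753568)) (l 16749888)) (b (l 16738536)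 (l 16726936)))) (b (a (b (l 16745536) (l 16733832)) (l 16709200)) (a (l 16716240) (l 16685808)))) (b (b (a (a (b (l 3) (l 339470170439)) (b (l 312089764039) (a (l 275045607303) (l 16760496)))) (b (a (a (l 16745648) (l 16753824)) (l 16734432)) (a (l 16740448) (l 16714200)))) (a (b (a (b (l 289541119943) (l 237464650087)) (l 16746816)) (a (l 184851302183) (l 16725520))) (b (l 16706384) (l 16684512)))) (b (a (b (l 16754256) (l 16694752)) (l 16650104)) (c (l 16651456) (l 16734448)))))), by decide +kernel⟩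

def k13_pm_213_s : ∃ t, chk3 f_pm_213_s t 5 12 2 = true :=
  ⟨(b (b (a (a (l 3) (a (b (l 3) (b (l 312626636807) (l 297057430375))) (a (b (l 302426112967) (b (l 261087050359) (l 16772784))) (b (b (l 283635644471) (l 16774512)) (l 16770576))))) (a (a (b (c (l 16766688) (l 16771680)) (l 16765408)) (b (l 16765120) (l 16759056))) (c (l 16737400) (l 16755880)))) (a (a (a (l 3) (b (a (l 3) (l 309405412535)) (a (l 299741790167) (b (l 260550183671) (l 16772864))))) (c (a (b (a (l 273971970503) (l 16769624)) (l 16763208)) (b (l 16760512) (l 16750600))) (a (b (l 265918907927) (l 16769360)) (l 16764936)))) (a (c (l 16737944) (l 16754288)) (l 16591920)))) (a (c (a (b (a (b (l 298131165287) (a (l 248202158983) (l 16765976))) (b (a (l 16769648) (l 16762736)) (l 16754912))) (b (a (l 16757872) (l 16742640)) (l 16736928))) (b (b (l 16745888) (l 16734000)) (l 16714304))) (a (b (a (b (l 300278607719) (l 263771339015)) (b (l 16771296) (l 16765328))) (b (l 16763176) (l 16756592))) (b (b (l 16759424) (l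 16752656)) (l 16741600)))) (b (a (c (l 16714656) (l 16739440)) (l 16698288)) (a (l 16547432) (l 16696880))))), by decide +kernel⟩

def k14_pm_213_s : ∃ t, chk3 f_pm_213_s t 5 12 3 = true :=
  ⟨(b (a (a (b (l 3) (a (l 3) (b (a (l 3) (l 315847860775)) (c (l 288467389575) (a (l 293836100215) (l 16753248)))))) (b (a (b (l 3) (c (l 305647315687) (l 306721057239))) (b (a (l 305110497815) (b (l 284709310247) (l 16770440))) (c (l 241759633591) (l 214379210263)))) (c (a (b (l 264845074535) (l 16763600)) (l 16755680)) (a (b (a (l 276656236583) (l 16761560)) (l 16750048)) (b (l 16742632) (l 16723536)))))) (b (a (a (b (c (l 16766640) (l 16754520)) (l 16748240)) (b (l 16744616) (l 16731360))) (c (l 16735232) (l 16688880))) (a (b (c (l 16742176) (l 16705232)) (l 16631456)) (c (l 16711968) (l 16645912))))) (a (c (a (b (a (b (l 301352350359) (l 262160717367)) (b (l 16767040) (l 16757064))) (b (l 16732664) (l 16742800))) (b (b (l 16747024) (l 16736184)) (l 16718936))) (a (b (a (b (l 299741696583) (a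 (l 250886430199) (l 16759000))) (b (l 16736984) (l 16740280))) (b (a (l 16747200) (l 16722096)) (l 16715840))) (b (b (l 16719832) (l 16702360)) (l 16674728)))) (b (a (c (l 16713784) (l 16657960)) (l 16647248)) (a (l 16482480) (l 16609968))))), by decide +kernel⟩

def k15_pm_213_s : ∃ t, chk3 f_pm_213_s t 5 13 1 = true :=
  ⟨(b (a (c (b (a (b (c (l 16722768) (l 16749672)) (l 16607040)) (c (l 16684728) (l 16725712))) (a (c (l 16682960) (l 16731032)) (l 16525472))) (b (c (a (l 16725664) (l 16694720)) (c (l 16736504) (l 16771096))) (a (c (l 16701936) (l 16642752)) (c (l 16669800) (l 16590856))))) (c (b (c (l 16642176) (l 16693048)) (c (l 16606104) (l 16672128))) (c (b (l 16646448) (l 16619312)) (b (l 16558168) (l 16451416))))) (a (c (a (b (c (l 16646496) (l 16714168)) (l 16521256)) (b (l 16667968) (l 16639656))) (c (b (l 16661760) (l 16638216)) (c (b (l 16597544) (l 16555416)) (b (l 16539824) (l 16480912))))) (a (c (c (l 16558120) (l 16652112)) (b (l 16516992) (l 16463896))) (b (c (l 16615112)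 (l 16514928)) (l 6))))), by decide +kernel⟩

def k16_pm_213_s : ∃ t, chk3 f_pm_213_s t 3 6 1 = true :=
  ⟨(b (a (a (b (c (a (b (l 16748712) (l 16729912)) (b (l 16751032) (l 16728384))) (b (a (l 16685800) (l 16660624)) (c (l 16677872) (l 16539368)))) (c (b (c (l 16661392) (l 16702792)) (l 16424224)) (c (l 16629368) (b (l 16529416) (l 16482864))))) (a (b (b (l 16475560) (l 16464000)) (b (l 16429352) (l 6))) (b (c (l 16751552) (l 16601624)) (l 6)))) (l 6)) (a (a (a (b (b (a (l 16395840) (l 16424552)) (l 6)) (l 6)) (l 6)) (l 6)) (l 6))), by decide +kernel⟩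

def k17_pm_213_s : ∃ t, chk3 f_pm_213_s t 1 7 1 = true :=
  ⟨(a (a (b (b (c (c (a (b (a (b (a (b (l 247665208375) (l 16759960)) (l 16742032)) (a (l 16746744) (l 16723728))) (b (l 16707784) (l 16688320))) (a (b (l 16716104) (l 16695648)) (l 16719528))) (b (a (l 16650928) (l 16604544)) (c (l 16505792) (l 16617032)))) (a (b (a (b (a (l 262160714487) (l 16762104)) (l 16758984)) (l 16722296)) (a (b (l 16750472) (l 16741248)) (l 16724648))) (b (l 16690464) (l 16690408)))) (a (b (b (a (a (c (l 251423285479) (b (l 209547363719) (l 16752712))) (c (l 16752520) (l 16727792))) (c (l 16729512) (l 16681928))) (a (c (a (l 16756184) (l 16740952)) (a (l 16734328) (l 16703120))) (c (l 16718360) (l 16656872)))) (c (a (b (l 16737040) (l 16725704)) (l 16701952)) (c (a (l 16694888) (l 16641896)) (a (l 16666176) (l 16531136))))) (b (c (l 16615944) (c (l 16566824) (a (l 16562536) (l 16515840)))) (c (l 16658568) (c (l 16565192) (l 16342160)))))) (b (c (a (a (b (c (l 16673584) (l 16731184)) (l 16528656)) (c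 (l 16608312) (l 16702648))) (c (c (l 16486016) (l 16571792)) (l 16665672))) (a (c (a (l 16709320) (l 16681472)) (a (c (l 16651520) (l 16606264)) (l 16524864))) (c (l 16640608) (a (l 16505584) (l 16445960))))) (b (a (c (a (l 16511112) (l 16641584)) (c (l 16681304) (a (l 16591248) (l 16529400)))) (a (c (l 16603168) (l 16501280)) (a (b (l 16442384) (l 16416104)) (l 6)))) (l 1)))) (l 1)) (b (a (b (c (b (c (l 16540608) (l 16660600)) (c (a (l 16509808) (l 16469832)) (l 16634552))) (b (c (l 16616576) (l 16361352)) (c (l 16602856) (a (l 16440328) (l 16403296))))) (b (a (b (c (l 16551696) (l 16349200)) (l 6)) (l 6)) (l 6))) (l 6)) (l 6))) (l 6)), by decide +kernel⟩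

theorem s18_pm_213_s : ∃ t, chk3 f_pm_213_s t 5 12 1 = true := ex3_c k13_pm_213_s k14_pm_213_s

theorem s19_pm_213_s : ∃ t, chk3 f_pm_213_s t 5 6 1 = true := ex3_b s18_pm_213_s k15_pm_213_s

theorem s20_pm_213_s : ∃ t, chk3 f_pm_213_s t 9 6 1 = true := ex3_b k11_pm_213_s k12_pm_213_s

theorem s21_pm_213_s : ∃ t, chk3 f_pm_213_s t 4 6 1 = true := ex3_a k10_pm_213_s s20_pm_213_s

theorem s22_pm_213_s : ∃ t, chk3 f_pm_213_s t 2 6 1 = true := ex3_a s21_pm_213_s s19_pm_213_s

theorem s23_pm_213_s : ∃ t, chk3 f_pm_213_s t 1 6 1 = true := ex3_a s22_pm_213_s k16_pm_213_s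

theorem s24_pm_213_s : ∃ t, chk3 f_pm_213_s t 1 3 1 = true := ex3_b s23_pm_213_s k17_pm_213_s

theorem s25_pm_213_s : ∃ t, chk3 f_pm_213_s t 6 5 3 = true := ex3_b k7_pm_213_s k8_pm_213_s

theorem s26_pm_213_s : ∃ t, chk3 f_pm_213_s t 6 5 2 = true := ex3_b k5_pm_213_s k6_pm_213_s

theorem s27_pm_213_s : ∃ t, chk3 f_pm_213_s t 6 5 1 = true := ex3_c s26_pm_213_s s25_pm_213_s

theorem s28_pm_213_s : ∃ t, chk3 f_pm_213_s t 3 5 1 = true := ex3_a s27_pm_213_s k9_pm_213_s

theorem s29_pm_213_s : ∃ t, chk3 f_pm_213_s t 7 9 1 = true := ex3_b k3_pm_213_s k4_pm_213_s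

theorem s30_pm_213_s : ∃ t, chk3 f_pm_213_s t 3 9 1 = true := ex3_a k2_pm_213_s s29_pm_213_s

theorem s31_pm_213_s : ∃ t, chk3 f_pm_213_s t 3 4 1 = true := ex3_b k1_pm_213_s s30_pm_213_s

theorem s32_pm_213_s : ∃ t, chk3 f_pm_213_s t 3 2 1 = true := ex3_b s31_pm_213_s s28_pm_213_s

theorem s33_pm_213_s : ∃ t, chk3 f_pm_213_s t 1 2 1 = true := ex3_a k0_pm_213_s s32_pm_213_s

theorem s34_pm_213_s : ∃ t, chk3 f_pm_213_s t 1 1 1 = true := ex3_b s33_pm_213_s s24_pm_213_s

theorem c_pm_213_s : CertNE 0 536870912 0 1230186008 858993459 64424510 3 eng mog cd0q2 cd4q3 pd1 false true false .pnn 2 1 3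
    ndB0q2 ndB4q3 pcB1 cut_pm_213_s Ext.none :=
  certNE0 (fam := false) (s1 := true) (s2 := false) (a := 2) (b := 1) (c := 3) (cn := .pnn) (n1 := ndB0q2) (n2 := ndB4q3) (pc := pcB1) (cut := cut_pm_213_s) (xt := Ext.none) (P1 := 0) (W1 := 536870912) (P2 := 0) (W2 := 1230186008) (P3 := 858993459) (W3 := 64424510) (N0 := 3) (En := eng) (mo := mog) (C1 := cd0q2) (C2 := cd4q3) (C3 := pd1)
    rfl s34_pm_213_s

noncomputable def cut_mm_001_s : Cut := Cut.of [[⟨4, 0, 0, 1449551462⟩]]

noncomputable def f_mm_001_s : ℕ → ℕ → ℕ → ℕ → Bool := onCell 0 536870912 0 536870912 858993459 64424510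
    (rowNE 3 eng mog cd0q0 cd4q1 pd0 1 false false false .up 0 0 1 (qsf 0 536870912 536870912 536870912 0) ndB0q0 ndB4q1 pcB0 cut_mm_001_s Ext.none)

def k0_mm_001_s : ∃ t, chk3 f_mm_001_s t 1 1 1 = true :=
  ⟨(l 3), by decide +kernel⟩

theorem c_mm_001_s : CertNE 0 536870912 536870912 536870912 858993459 64424510 3 eng mog cd0q0 cd4q1 pd0 false false false .up 0 0 1
    ndB0q0 ndB4q1 pcB0 cut_mm_001_s Ext.none :=
  certNE1 (fam := false) (s1 := false) (s2 := false) (a := 0) (b := 0) (c := 1) (cn := .up) (n1 := ndB0q0) (n2 := ndB4q1) (pc := pcB0) (cut := cut_mm_001_s) (xt := Ext.none) (P1 := 0) (W1 := 536870912) (P2 := 536870912) (W2 := 536870912) (P3 := 858993459) (W3 := 64424510) (N0 := 3) (En := eng) (mo := mog) (C1 := cd0q0) (C2 := cd4q1) (C3 := pd0)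
    rfl (fun _ => rfl) k0_mm_001_s

noncomputable def cut_mm_011_s : Cut := Cut.of [[⟨4, 0, 0, 1449551462⟩]]

noncomputable def f_mm_011_s : ℕ → ℕ → ℕ → ℕ → Bool := onCell 0 536870912 536870912 536870912 858993459 64424510
    (rowNE 3 eng mog cd0q0 cd4q1 pd1 1 false false false .pnn 0 1 1 (qsf 0 536870912 536870912 536870912 1) ndB0q0 ndB4q1 pcB1 cut_mm_011_s Ext.none)

def k0_mm_011_s : ∃ t, chk3 f_mm_011_s t 1 1 1 = true :=
  ⟨(l 5), by decide +kernel⟩

theorem c_mm_011_s : CertNE 0 536870912 536870912 536870912 858993459 64424510 3 eng mog cd0q0 cd4q1 pd1 false false false .pnn 0 1 1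
    ndB0q0 ndB4q1 pcB1 cut_mm_011_s Ext.none :=
  certNE1 (fam := false) (s1 := false) (s2 := false) (a := 0) (b := 1) (c := 1) (cn := .pnn) (n1 := ndB0q0) (n2 := ndB4q1) (pc := pcB1) (cut := cut_mm_011_s) (xt := Ext.none) (P1 := 0) (W1 := 536870912) (P2 := 536870912) (W2 := 536870912) (P3 := 858993459) (W3 := 64424510) (N0 := 3) (En := eng) (mo := mog) (C1 := cd0q0) (C2 := cd4q1) (C3 := pd1)
    rfl (fun _ => rfl) k0_mm_011_s

noncomputable def cut_mm_012_s : Cut := Cut.of [[⟨4, 0, 0, 1449551462⟩]]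

noncomputable def f_mm_012_s : ℕ → ℕ → ℕ → ℕ → Bool := onCell 0 536870912 1073741824 536870912 858993459 64424510
    (rowNE 3 eng mog cd0q0 cd4q2 pd1 0 false false false .pnp 0 1 2 (qsf 0 536870912 1073741824 536870912 1) ndB0q0 ndB4q2 pcB1 cut_mm_012_s Ext.none)

def k0_mm_012_s : ∃ t, chk3 f_mm_012_s t 1 1 1 = true :=
  ⟨(l 5), by decide +kernel⟩

theorem c_mm_012_s : CertNE 0 536870912 1073741824 536870912 858993459 64424510 3 eng mog cd0q0 cd4q2 pd1 false false false .pnp 0 1 2
    ndB0q0 ndB4q2 pcB1 cut_mm_012_s Ext.none :=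
  certNE0 (fam := false) (s1 := false) (s2 := false) (a := 0) (b := 1) (c := 2) (cn := .pnp) (n1 := ndB0q0) (n2 := ndB4q2) (pc := pcB1) (cut := cut_mm_012_s) (xt := Ext.none) (P1 := 0) (W1 := 536870912) (P2 := 1073741824) (W2 := 536870912) (P3 := 858993459) (W3 := 64424510) (N0 := 3) (En := eng) (mo := mog) (C1 := cd0q0) (C2 := cd4q2) (C3 := pd1)
    rfl k0_mm_012_s

noncomputable def cut_mm_022_s : Cut := Cut.of [[⟨4, 0, 0, 1449551462⟩]]

noncomputable def f_mm_022_s : ℕ → ℕ → ℕ → ℕ → Bool := onCell 0 536870912 1073741824 536870912 858993459 64424510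
    (rowNE 3 eng mog cd0q0 cd4q2 pd2 0 false false false .pp 0 2 2 (qsf 0 536870912 1073741824 536870912 2) ndB0q0 ndB4q2 pcB2 cut_mm_022_s Ext.none)

def k0_mm_022_s : ∃ t, chk3 f_mm_022_s t 1 1 1 = true :=
  ⟨(l 5), by decide +kernel⟩

theorem c_mm_022_s : CertNE 0 536870912 1073741824 536870912 858993459 64424510 3 eng mog cd0q0 cd4q2 pd2 false false false .pp 0 2 2
    ndB0q0 ndB4q2 pcB2 cut_mm_022_s Ext.none :=
  certNE0 (fam := false) (s1 := false) (s2 := false) (a := 0) (b := 2) (c := 2) (cn := .pp) (n1 := ndB0q0) (n2 := ndB4q2) (pc := pcB2) (cut := cut_mm_022_s) (xt := Ext.none) (P1 := 0) (W1 := 536870912) (P2 := 1073741824) (W2 := 536870912) (P3 := 858993459) (W3 := 64424510) (N0 := 3) (En := eng) (mo := mog) (C1 := cd0q0) (C2 := cd4q2) (C3 := pd2)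
    rfl k0_mm_022_s

noncomputable def cut_mm_023_s : Cut := Cut.of [[⟨4, 0, 0, 1449551462⟩]]

noncomputable def f_mm_023_s : ℕ → ℕ → ℕ → ℕ → Bool := onCell 0 536870912 0 1230186008 858993459 64424510
    (rowNE 3 eng mog cd0q0 cd4q3 pd2 0 false false false .up 0 2 3 (qsf 0 536870912 0 1230186008 2) ndB0q0 ndB4q3 pcB2 cut_mm_023_s Ext.none)

def k0_mm_023_s : ∃ t, chk3 f_mm_023_s t 1 1 1 = true :=
  ⟨(l 5), by decide +kernel⟩

theorem c_mm_023_s : CertNE 0 536870912 0 1230186008 858993459 64424510 3 eng mog cd0q0 cd4q3 pd2 false false false .up 0 2 3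
    ndB0q0 ndB4q3 pcB2 cut_mm_023_s Ext.none :=
  certNE0 (fam := false) (s1 := false) (s2 := false) (a := 0) (b := 2) (c := 3) (cn := .up) (n1 := ndB0q0) (n2 := ndB4q3) (pc := pcB2) (cut := cut_mm_023_s) (xt := Ext.none) (P1 := 0) (W1 := 536870912) (P2 := 0) (W2 := 1230186008) (P3 := 858993459) (W3 := 64424510) (N0 := 3) (En := eng) (mo := mog) (C1 := cd0q0) (C2 := cd4q3) (C3 := pd2)
    rfl k0_mm_023_s

noncomputable def cut_mm_033_s : Cut := Cut.of [[⟨4, 0, 0, 1449551462⟩]]

noncomputable def f_mm_033_s : ℕ → ℕ → ℕ → ℕ → Bool := onCell 0 536870912 0 1230186008 858993459 64424510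
    (rowNE 3 eng mog cd0q0 cd4q3 pd3 0 false false false .pnn 0 3 3 (qsf 0 536870912 0 1230186008 3) ndB0q0 ndB4q3 pcB3 cut_mm_033_s Ext.none)

def k0_mm_033_s : ∃ t, chk3 f_mm_033_s t 1 1 1 = true :=
  ⟨(l 5), by decide +kernel⟩

theorem c_mm_033_s : CertNE 0 536870912 0 1230186008 858993459 64424510 3 eng mog cd0q0 cd4q3 pd3 false false false .pnn 0 3 3
    ndB0q0 ndB4q3 pcB3 cut_mm_033_s Ext.none :=
  certNE0 (fam := false) (s1 := false) (s2 := false) (a := 0) (b := 3) (c := 3) (cn := .pnn) (n1 := ndB0q0) (n2 := ndB4q3) (pc := pcB3) (cut := cut_mm_033_s) (xt := Ext.none) (P1 := 0) (W1 := 536870912) (P2 := 0) (W2 := 1230186008) (P3 := 858993459) (W3 := 64424510) (N0 := 3) (En := eng) (mo := mog) (C1 := cd0q0) (C2 := cd4q3) (C3 := pd3)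
    rfl k0_mm_033_s

noncomputable def cut_mm_101_s : Cut := Cut.of [[⟨4, 0, 0, 1449551462⟩], [⟨0, 1, 0, 67108864⟩, ⟨1, 0, 0, 67108864⟩, ⟨2, 1, 0, 67108864⟩]]

noncomputable def f_mm_101_s : ℕ → ℕ → ℕ → ℕ → Bool := onCell 536870912 536870912 0 536870912 858993459 64424510
    (rowNE 3 eng mog cd0q1 cd4q1 pd0 1 false false false .npn 1 0 1 (qsf 536870912 536870912 536870912 536870912 0) ndB0q1 ndB4q1 pcB0 cut_mm_101_s Ext.none)

def k0_mm_101_s : ∃ t, chk3 f_mm_101_s t 1 1 1 = true :=
  ⟨(a (l 3) (b (a (l 3) (b (a (l 3) (b (b (a (l 3) (l 14)) (l 3)) (l 3))) (l 3))) (l 3))), by decide +kernel⟩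

theorem c_mm_101_s : CertNE 536870912 536870912 536870912 536870912 858993459 64424510 3 eng mog cd0q1 cd4q1 pd0 false false false .npn 1 0 1
    ndB0q1 ndB4q1 pcB0 cut_mm_101_s Ext.none :=
  certNE1 (fam := false) (s1 := false) (s2 := false) (a := 1) (b := 0) (c := 1) (cn := .npn) (n1 := ndB0q1) (n2 := ndB4q1) (pc := pcB0) (cut := cut_mm_101_s) (xt := Ext.none) (P1 := 536870912) (W1 := 536870912) (P2 := 536870912) (W2 := 536870912) (P3 := 858993459) (W3 := 64424510) (N0 := 3) (En := eng) (mo := mog) (C1 := cd0q1) (C2 := cd4q1) (C3 := pd0)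
    rfl (fun _ => rfl) k0_mm_101_s

noncomputable def cut_mm_102_s : Cut := Cut.of [[⟨4, 0, 0, 1449551462⟩], [⟨0, 1, 0, 67108864⟩, ⟨1, 0, 0, 67108864⟩, ⟨2, 1, 0, 67108864⟩]]

noncomputable def f_mm_102_s : ℕ → ℕ → ℕ → ℕ → Bool := onCell 536870912 536870912 0 536870912 858993459 64424510
    (rowNE 3 eng mog cd0q1 cd4q2 pd0 1 false false false .npp 1 0 2 (qsf 536870912 536870912 1073741824 536870912 0) ndB0q1 ndB4q2 pcB0 cut_mm_102_s Ext.none)

def k0_mm_102_s : ∃ t, chk3 f_mm_102_s t 1 1 1 = true :=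
  ⟨(a (l 3) (b (a (l 3) (b (a (l 3) (b (a (l 3) (b (l 14) (l 3))) (l 3))) (l 3))) (l 3))), by decide +kernel⟩

theorem c_mm_102_s : CertNE 536870912 536870912 1073741824 536870912 858993459 64424510 3 eng mog cd0q1 cd4q2 pd0 false false false .npp 1 0 2
    ndB0q1 ndB4q2 pcB0 cut_mm_102_s Ext.none :=
  certNE1 (fam := false) (s1 := false) (s2 := false) (a := 1) (b := 0) (c := 2) (cn := .npp) (n1 := ndB0q1) (n2 := ndB4q2) (pc := pcB0) (cut := cut_mm_102_s) (xt := Ext.none) (P1 := 536870912) (W1 := 536870912) (P2 := 1073741824) (W2 := 536870912) (P3 := 858993459) (W3 := 64424510) (N0 := 3) (En := eng) (mo := mog) (C1 := cd0q1) (C2 := cd4q2) (C3 := pd0)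
    rfl (fun _ => rfl) k0_mm_102_s

noncomputable def cut_mm_112_s : Cut := Cut.of [[⟨4, 0, 0, 1449551462⟩]]

noncomputable def f_mm_112_s : ℕ → ℕ → ℕ → ℕ → Bool := onCell 536870912 536870912 1073741824 536870912 858993459 64424510
    (rowNE 3 eng mog cd0q1 cd4q2 pd1 2 false false false .dn 1 1 2 (qsf 536870912 536870912 1073741824 536870912 1) ndB0q1 ndB4q2 pcB1 cut_mm_112_s Ext.none)

def k0_mm_112_s : ∃ t, chk3 f_mm_112_s t 1 1 1 = true :=
  ⟨(a (l 3) (l 5)), by decide +kernel⟩

theorem c_mm_112_s : CertNE 536870912 536870912 1073741824 536870912 858993459 64424510 3 eng mog cd0q1 cd4q2 pd1 false false false .dn 1 1 2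
    ndB0q1 ndB4q2 pcB1 cut_mm_112_s Ext.none :=
  certNE2 (fam := false) (s1 := false) (s2 := false) (a := 1) (b := 1) (c := 2) (cn := .dn) (n1 := ndB0q1) (n2 := ndB4q2) (pc := pcB1) (cut := cut_mm_112_s) (xt := Ext.none) (P1 := 536870912) (W1 := 536870912) (P2 := 1073741824) (W2 := 536870912) (P3 := 858993459) (W3 := 64424510) (N0 := 3) (En := eng) (mo := mog) (C1 := cd0q1) (C2 := cd4q2) (C3 := pd1)
    rfl (fun _ => rfl) k0_mm_112_s

noncomputable def cut_mm_113_s : Cut := Cut.of [[⟨4, 0, 0, 1449551462⟩]]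

noncomputable def f_mm_113_s : ℕ → ℕ → ℕ → ℕ → Bool := onCell 536870912 536870912 0 1230186008 858993459 64424510
    (rowNE 3 eng mog cd0q1 cd4q3 pd1 0 false false false .nn 1 1 3 (qsf 536870912 536870912 0 1230186008 1) ndB0q1 ndB4q3 pcB1 cut_mm_113_s Ext.none)

def k0_mm_113_s : ∃ t, chk3 f_mm_113_s t 1 1 1 = true :=
  ⟨(a (l 5) (b (l 5) (a (b (l 5) (l 3)) (l 3)))), by decide +kernel⟩

theorem c_mm_113_s : CertNE 536870912 536870912 0 1230186008 858993459 64424510 3 eng mog cd0q1 cd4q3 pd1 false false false .nn 1 1 3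
    ndB0q1 ndB4q3 pcB1 cut_mm_113_s Ext.none :=
  certNE0 (fam := false) (s1 := false) (s2 := false) (a := 1) (b := 1) (c := 3) (cn := .nn) (n1 := ndB0q1) (n2 := ndB4q3) (pc := pcB1) (cut := cut_mm_113_s) (xt := Ext.none) (P1 := 536870912) (W1 := 536870912) (P2 := 0) (W2 := 1230186008) (P3 := 858993459) (W3 := 64424510) (N0 := 3) (En := eng) (mo := mog) (C1 := cd0q1) (C2 := cd4q3) (C3 := pd1)
    rfl k0_mm_113_s

noncomputable def cut_mm_123_s : Cut := Cut.of [[⟨4, 0, 0, 1449551462⟩]]

noncomputable def f_mm_123_s : ℕ → ℕ → ℕ → ℕ → Bool := onCell 1073741824 536870912 0 1230186008 858993459 64424510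
    (rowNE 3 eng mog cd0q1 cd4q3 pd2 2 false false false .npn 1 2 3 (qsf 536870912 536870912 0 1230186008 2) ndB0q1 ndB4q3 pcB2 cut_mm_123_s Ext.none)

def k0_mm_123_s : ∃ t, chk3 f_mm_123_s t 1 1 1 = true :=
  ⟨(b (l 5) (l 5)), by decide +kernel⟩

theorem c_mm_123_s : CertNE 536870912 536870912 0 1230186008 858993459 64424510 3 eng mog cd0q1 cd4q3 pd2 false false false .npn 1 2 3
    ndB0q1 ndB4q3 pcB2 cut_mm_123_s Ext.none :=
  certNE2 (fam := false) (s1 := false) (s2 := false) (a := 1) (b := 2) (c := 3) (cn := .npn) (n1 := ndB0q1) (n2 := ndB4q3) (pc := pcB2) (cut := cut_mm_123_s) (xt := Ext.none) (P1 := 536870912) (W1 := 536870912) (P2 := 0) (W2 := 1230186008) (P3 := 858993459) (W3 := 64424510) (N0 := 3) (En := eng) (mo := mog) (C1 := cd0q1) (C2 := cd4q3) (C3 := pd2)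
    rfl (fun _ => rfl) k0_mm_123_s

noncomputable def cut_mm_133_s : Cut := Cut.of [[⟨4, 0, 0, 1449551462⟩]]

noncomputable def f_mm_133_s : ℕ → ℕ → ℕ → ℕ → Bool := onCell 1610612736 536870912 0 1230186008 858993459 64424510
    (rowNE 3 eng mog cd0q1 cd4q3 pd3 2 false false false .dn 1 3 3 (qsf 536870912 536870912 0 1230186008 3) ndB0q1 ndB4q3 pcB3 cut_mm_133_s Ext.none)

def k0_mm_133_s : ∃ t, chk3 f_mm_133_s t 1 1 1 = true :=
  ⟨(l 5), by decide +kernel⟩

theorem c_mm_133_s : CertNE 536870912 536870912 0 1230186008 858993459 64424510 3 eng mog cd0q1 cd4q3 pd3 false false false .dn 1 3 3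
    ndB0q1 ndB4q3 pcB3 cut_mm_133_s Ext.none :=
  certNE2 (fam := false) (s1 := false) (s2 := false) (a := 1) (b := 3) (c := 3) (cn := .dn) (n1 := ndB0q1) (n2 := ndB4q3) (pc := pcB3) (cut := cut_mm_133_s) (xt := Ext.none) (P1 := 536870912) (W1 := 536870912) (P2 := 0) (W2 := 1230186008) (P3 := 858993459) (W3 := 64424510) (N0 := 3) (En := eng) (mo := mog) (C1 := cd0q1) (C2 := cd4q3) (C3 := pd3)
    rfl (fun _ => rfl) k0_mm_133_s

end Pool.Agent.Strip051.G.I8000_8600.Tab.CS.BB04

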