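import Pool.Agent.Strip051.G.I8000_8600.Tab
import Pool.Agent.Strip051.PB.StripB

/-! # Strips, near vertex: certificates 13 (generated) -/

set_option linter.all false
set_option maxRecDepth 100000

namespace Pool.Agent.Strip051.G.I8000_8600.Tab.CS.BB04

open Pool.Agent.Strip051.PB Pool.Agent.Strip051.PB.T
open Pool.Agent.Strip051.G.I8000_8600.Tab

noncomputable def cut_mm_202_s : Cut := Cut.of [[⟨4, 0, 0, 1449551462⟩], [⟨0, 1, 0, 67108864⟩, ⟨1, 0, 0, 67108864⟩, ⟨2, 1, 0, 67108864⟩]]

noncomputable def f_mm_202_s : ℕ → ℕ → ℕ → ℕ → Bool := onCell 0 536870912 0 536870912 858993459 64424510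
    (rowNE 3 eng mog cd0q2 cd4q2 pd0 1 false false false .pp 2 0 2 (qsf 0 536870912 1073741824 536870912 0) ndB0q2 ndB4q2 pcB0 cut_mm_202_s Ext.none)

def k0_mm_202_s : ∃ t, chk3 f_mm_202_s t 4 1 1 = true :=
  ⟨(b (a (l 6) (b (l 6) (b (l 6) (b (l 16487728) (l 16538480))))) (b (b (a (b (l 6) (l 16557392)) (b (b (l 16573192) (l 16596528)) (a (l 16610808) (b (l 16627968) (l 16632144))))) (b (a (b (l 16592424) (l 16611936)) (a (l 16631448) (l 16650000))) (b (a (l 16626272) (l 16656784)) (l 2)))) (l 2))), by decide +kernel⟩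

def k1_mm_202_s : ∃ t, chk3 f_mm_202_s t 5 1 1 = true :=
  ⟨(b (b (a (a (l 6) (b (l 6) (l 6))) (b (a (l 6) (b (l 6) (b (l 16384128) (l 16484936)))) (b (b (a (l 6) (l 16497680)) (l 16475960)) (b (l 16482704) (b (l 16492928) (l 16503432)))))) (b (b (a (b (l 16432912) (l 16465432)) (b (l 16528544) (l 16560856))) (a (b (l 16496840) (l 16526880)) (b (l 16591672) (a (l 16596376) (l 16643512))))) (a (b (l 16568952) (b (l 16732112) (a (l 16608912) (l 16638816)))) (b (a (b (l 16623504) (l 16643600)) (b (l 16654048) (l 16665728))) (a (b (l 16651904) (l 16662872)) (c (l 16687832) (l 16687656))))))) (a (b (b (a (b (b (l 16628928) (l 16635096)) (l 16651528)) (b (l 16653560) (l 16681704))) (b (a (l 16679200) (c (l 16730720) (l 16711112))) (a (b (l 16700568) (l 16715280)) (b (c (l 16731856) (l 16733472)) (c (l 16778624) (l 16748632)))))) (l 2)) (a (b (b (b (l 16705536) (c (l 16755640) (l 16713848))) (c (b (b (l 16735824) (a (l 16742224) (l 16759640))) (b (a (l 16757640) (b (l 277729982487) (l 304573573687))) (a (b (l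 16758896) (l 280951258375)) (l 393157240615)))) (b (b (l 16736312) (a (l 16742952) (l 16759976))) (b (a (l 16758248) (b (l 260013243831) (l 271824372039))) (a (b (l 16759200) (l 270750642967)) (l 387788527367)))))) (l 2)) (b (b (b (c (b (l 16710040) (l 16724992)) (l 16717296)) (b (c (l 16771512) (l 16739960)) (b (c (l 16772400) (l 16751448)) (a (l 16763384) (c (l 156397218967) (l 16767872)))))) (b (b (c (a (b (l 16757896) (l 16765640)) (a (b (l 16771160) (l 316384734071)) (l 372756164343))) (a (l 16767152) (b (l 265381929767) (l 379198614023)))) (a (b (c (l 278266844711) (l 263771330823)) (c (l 349133853047) (l 346449496839))) (l 3))) (a (b (c (l 401210297095) (l 396378452967)) (l 3)) (l 3)))) (l 3))))), by decide +kernel⟩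

def k2_mm_202_s : ∃ t, chk3 f_mm_202_s t 6 4 1 = true :=
  ⟨(a (b (b (b (a (l 16392312) (l 16375712)) (a (l 16392896) (l 16508888))) (b (a (l 16498304) (l 16543344)) (l 16547424))) (b (b (l 16557912) (l 16564464)) (b (l 16579632) (a (l 16575440) (l 16630384))))) (b (b (b (a (b (l 16402224) (l 16486160)) (a (l 16553232) (l 16576640))) (a (l 16555872) (l 16597984))) (a (b (l 16583584) (l 16608088)) (b (l 16626200) (l 16651408)))) (b (a (b (l 16623496) (l 16638472)) (b (l 16691768) (a (l 16679944) (b (l 16686360) (l 16692528))))) (a (a (b (l 16646616) (l 16693920)) (b (l 16675704) (b (l 16686776) (l 16693448)))) (b (c (a (l 16711592) (l 16705752)) (a (l 16691560) (l 16705968))) (c (a (l 16705792) (l 16745224)) (l 16737632))))))), by decide +kernel⟩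

def k3_mm_202_s : ∃ t, chk3 f_mm_202_s t 12 10 1 = true :=
  ⟨(b (a (b (l 16606768) (l 16638552)) (b (a (l 16648232) (l 16672528)) (a (l 16669176) (l 16683200)))) (a (b (a (l 16654112) (l 16664536)) (l 16711488)) (b (l 16730704) (c (l 16702232) (l 16704840))))), by decide +kernel⟩

def k4_mm_202_s : ∃ t, chk3 f_mm_202_s t 13 20 1 = true :=
  ⟨(a (a (b (l 16687104) (l 16700568)) (b (l 16704216) (a (l 16713896) (l 16743952)))) (a (c (b (l 16721136) (b (l 16732304) (l 16739888))) (c (l 16771880) (l 16774256))) (b (c (b (l 16736040) (l 16764664)) (l 16741088)) (b (c (a (l 16746576) (l 16756232)) (l 16752352)) (c (c (l 16776848) (a (l 16754560) (l 16764256))) (a (l 16755208) (l 16764608))))))), by decide +kernel⟩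

def k5_mm_202_s : ∃ t, chk3 f_mm_202_s t 13 21 1 = true :=
  ⟨(a (c (b (a (l 16713592) (l 16753296)) (a (l 16729312) (c (l 16769008) (l 16769440)))) (a (l 16765792) (b (l 16734280) (l 16770248)))) (b (b (a (c (l 16768600) (l 16748792)) (a (c (c (l 16762136) (l 16762376)) (l 16762800)) (b (c (c (l 16777960) (l 16770208)) (l 16775640)) (a (c (l 16776928) (l 16771872)) (c (c (a (b (l 16774392) (b (l 16775928) (l 206326205143))) (b (a (l 16776288) (l 332490866455)) (l 469929818647))) (l 201494371975)) (c (l 183240761111) (l 185388244887))))))) (a (c (a (l 16750624) (l 16770888)) (l 16756360)) (a (a (c (l 16775664) (l 16768120)) (c (b (l 16770744) (a (l 16773560) (a (l 119353117127) (b (l 16775664) (l 357723798679))))) (b (l 16770968) (l 278803762039)))) (a (c (b (c (a (l 16777088) (b (l 152639113591) (l 366313733255))) (l 16781032)) (c (a (b (l 323364060791) (l 3)) (l 3)) (l 452749945175))) (b (c (l 16778440) (l 148881021575)) (l 443086264999))) (b (a (b (c (l 430201368135) (l 299204876631)) (l 3)) (l 3))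 (l 3)))))) (b (a (c (a (l 16758672) (c (c (l 100025764855) (l 16768472)) (l 16768568))) (c (l 16774448) (l 16764224))) (a (b (c (c (a (c (l 121500600759) (l 16773888)) (a (b (l 183777626983) (l 454360561543)) (l 477446008695))) (l 269676968439)) (a (l 16774008) (l 392083531623))) (a (b (c (a (l 16775704) (l 394231019559)) (l 266455743399)) (c (l 436106948951) (l 432885720391))) (l 3))) (l 3))) (a (a (c (c (l 16766712) (l 16766840)) (l 16767080)) (c (a (c (b (l 16772080) (a (l 16774920) (l 305110449815))) (l 135996120279)) (b (c (a (l 169818983783) (l 368461215847)) (l 211158048279)) (l 464561101943))) (a (b (l 16772256) (l 322290306455)) (c (l 358797534727) (l 373829918695))))) (l 3))))), by decide +kernel⟩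

def k6_mm_202_s : ∃ t, chk3 f_mm_202_s t 12 11 1 = true :=
  ⟨(b (a (b (l 16683936) (l 16719744)) (c (b (a (l 16708920) (l 16726872)) (c (l 16765200) (l 16765280))) (b (l 16719168) (a (l 16724936) (l 16742928))))) (c (b (a (l 16713856) (a (l 16740184) (c (l 16779456) (l 16779432)))) (a (l 16750144) (a (b (l 16751856) (l 16759672)) (a (b (l 16765584) (c (a (l 16771136) (l 200420632215)) (l 16773440))) (b (a (l 16772552) (b (l 16779192) (l 407115917175))) (l 416242711335)))))) (a (b (l 16713856) (l 16728960)) (a (b (l 16740176) (l 16776664)) (b (b (l 16754528) (l 16762360)) (b (c (l 260550102375) (l 254644522023)) (a (l 257865765815) (l 410873996679)))))))), by decide +kernel⟩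

def k7_mm_202_s : ∃ t, chk3 f_mm_202_s t 13 11 1 = true :=
  ⟨(b (b (a (a (c (c (l 16745240) (l 16745488)) (l 16746008)) (c (a (b (l 16755456) (l 16774016)) (b (l 16775592) (a (c (l 16770728) (l 16770768)) (c (b (l 16773576) (a (l 193978175831) (l 414095241495))) (l 188609472231))))) (a (b (l 16756016) (l 16763752)) (b (l 16765408) (c (b (l 16771248) (l 270213792087)) (l 262697594151)))))) (a (b (b (a (c (a (l 16770384) (a (l 16774064) (b (l 16775512) (l 240685945111)))) (l 263234486311)) (c (a (l 446844363591) (l 3)) (l 450065574359))) (a (c (a (c (l 152639114775) (l 16774448)) (l 408726530775)) (a (l 16774504) (l 422685171239))) (l 3))) (b (a (a (b (c (l 308868545911) (l 272898159671)) (c (l 439328172167) (l 295983592743))) (l 3)) (l 3)) (l 3))) (l 3))) (a (a (c (a (b (l 16752592) (l 16760528)) (b (l 16762016) (c (a (l 16767600) (l 132774891815)) (l 16769992)))) (b (l 16757496) (c (l 16765328) (l 16765376)))) (a (c (c (b (a (l 16769136) (a (l 16772744) (b (l 16773144) (l 299204870055)))) (a (b (l 173040210375)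 (l 401747209255)) (l 438254424023))) (b (l 144586055879) (l 364703113815))) (b (c (l 262697611191) (l 261086997735)) (b (a (l 264308236791) (l 425906393831)) (l 428053870759)))) (b (c (a (b (a (l 169282113047) (l 351281346455)) (l 441475651671)) (l 457044910759)) (c (l 415705842679) (l 404968421639))) (l 3)))) (l 3))) (a (a (a (b (c (c (b (l 16768472) (a (l 163376536487) (b (l 219211111399) (l 432885717303)))) (b (l 16768464) (l 216526765127))) (b (l 16768480) (c (l 270750644023) (l 268603159095)))) (b (c (l 432885726023) (l 428590730199)) (l 3))) (b (c (b (a (b (l 16773568) (l 308868545559)) (b (l 356113183447) (l 3))) (l 451139332551)) (b (c (l 355576295991) (l 298667995879)) (l 447918076231))) (l 3))) (l 3)) (l 3))), by decide +kernel⟩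

def k8_mm_202_s : ∃ t, chk3 f_mm_202_s t 14 8 1 = true :=
  ⟨(b (b (a (c (l 16567352) (l 16568184)) (b (a (l 16634736) (l 14)) (c (l 16621544) (l 16622592)))) (a (c (l 16639840) (l 16644288)) (a (l 16717696) (b (l 16692208) (l 16707496))))) (b (a (a (l 16659416) (l 16681832)) (a (c (l 16702336) (l 16704712)) (b (l 16719320) (c (b (l 16721872) (l 16745456)) (l 16740496))))) (b (a (l 16690304) (a (a (l 16705320) (l 16733536)) (c (a (l 16724520) (l 16714400)) (l 16727560)))) (a (a (l 16686160) (l 16697360)) (a (a (l 16709600) (l 16720256)) (c (a (l 16711944) (l 16744512)) (l 16737208))))))), by decide +kernel⟩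

def k9_mm_202_s : ∃ t, chk3 f_mm_202_s t 28 18 1 = true :=
  ⟨(a (b (b (l 16689376) (l 16693240)) (b (l 16721944) (l 16710104))) (b (c (b (l 16704432) (l 16691416)) (l 16749240)) (c (b (l 16700920) (l 16731440)) (l 16725792)))), by decide +kernel⟩

def k10_mm_202_s : ∃ t, chk3 f_mm_202_s t 29 36 1 = true :=
  ⟨(a (c (b (l 16725064) (l 16755584)) (a (l 16722480) (l 16734344))) (c (a (b (l 16742248) (l 16764696)) (b (b (l 16751424) (l 16756072)) (c (b (l 16760768) (l 16775792)) (b (l 16760600) (l 16775680))))) (b (a (l 16720240) (l 16753144)) (a (l 16750984) (a (l 16759744) (b (l 16763240) (l 16767920))))))), by decide +kernel⟩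

def k11_mm_202_s : ∃ t, chk3 f_mm_202_s t 58 37 1 = true :=
  ⟨(b (c (a (l 16717392) (l 16749544)) (l 16743336)) (a (c (l 16747640) (l 16747264)) (c (b (l 16756384) (l 16771368)) (l 16768936)))), by decide +kernel⟩

def k12_mm_202_s : ∃ t, chk3 f_mm_202_s t 118 74 1 = true :=
  ⟨(c (c (l 16771296) (l 16771176)) (a (l 16757592) (l 16773808))), by decide +kernel⟩

def k13_mm_202_s : ∃ t, chk3 f_mm_202_s t 238 74 1 = true :=
  ⟨(b (c (l 16772160) (l 16766752)) (c (c (c (l 16776656) (l 16771400)) (l 16771376)) (c (l 16771336) (l 16771304)))), by decide +kernel⟩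

def k14_mm_202_s : ∃ t, chk3 f_mm_202_s t 478 74 1 = true :=
  ⟨(c (b (c (l 16771176) (l 16771136)) (b (c (c (l 16777128) (l 16774504)) (l 16774488)) (a (c (a (l 16777296) (c (b (l 16775808) (c (b (l 16776632) (a (a (l 16776920) (b (l 16776952) (l 246591521111))) (b (a (l 153175982327) (l 314774126951)) (l 439865049463)))) (l 160692175735))) (l 16776360))) (l 16776008)) (c (b (b (a (l 16776232) (a (l 16776760) (b (l 16776976) (a (l 195588784439) (l 385104216231))))) (c (a (a (l 16776608) (a (l 16776872) (b (l 16776912) (l 212768653623)))) (c (a (b (a (l 16777088) (a (l 243907166455) (l 323900932423))) (l 419463954743)) (l 454360564311)) (l 373829927255))) (l 218137363751))) (c (a (b (a (b (l 16777352) (a (l 234243490103) (l 416242729191))) (b (b (l 361481896055) (l 448454983975)) (l 3))) (l 3)) (l 3)) (l 393694151607))) (l 235854105815))))) (b (l 16771064) (a (c (l 16774888) (l 16777496)) (b (l 16775176) (c (l 220821720263) (l 305647321255)))))), by decide +kernel⟩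

def k15_mm_202_s : ∃ t, chk3 f_mm_202_s t 479 74 1 = true :=
  ⟨(b (c (c (a (l 16775920) (c (b (l 16773608) (c (b (l 16775272) (b (l 16776096) (a (l 16776296) (a (l 16776824) (b (l 133848629479) (a (a (l 218137362631) (l 285246226759)) (l 435033211127))))))) (l 109152568119))) (l 16777984))) (l 16776608)) (c (l 16776584) (l 16777872))) (b (c (c (a (c (b (b (l 16775792) (l 94657052983)) (a (c (b (l 16776544) (a (l 125795565799) (a (b (l 16777040) (l 375977410695)) (b (l 237464715591) (l 3))))) (l 153175982775)) (b (c (a (a (l 123648082151) (b (l 16777016) (a (l 268066357543) (l 408726536359)))) (a (b (l 224042942759) (l 3)) (l 428590760327))) (l 248202134343)) (a (a (l 435570082215) (l 3)) (l 3))))) (b (l 16776064) (l 222432330919))) (b (c (a (b (b (l 16776712) (b (l 116131889383) (a (l 16776880) (a (l 16777144) (l 339470188887))))) (c (a (c (b (l 156397207799) (b (l 356650057831) (l 440938791191))) (l 237464715911)) (b (l 414632116519) (l 3))) (l 352355090663))) (b (a (b (a (l 169282109687) (l 381346119831))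 (l 453823693191)) (l 3)) (l 3))) (l 337859576103)) (l 3))) (a (l 155323468007) (l 366313735143))) (a (c (l 138143598823) (l 132774889687)) (c (l 278803779415) (l 363092509623)))) (a (b (c (c (c (a (a (b (a (b (a (l 228337909975) (l 294909903191)) (l 3)) (l 446307500471)) (l 3)) (l 3)) (l 3)) (l 437717566807)) (l 439328179511)) (l 438254437655)) (l 3)) (l 3)))), by decide +kernel⟩

def k16_mm_202_s : ∃ t, chk3 f_mm_202_s t 118 75 1 = true :=
  ⟨(c (a (c (l 16777416) (l 16777376)) (b (c (l 16775496) (l 16770224)) (a (c (c (l 16777184) (l 16773248)) (l 16773240)) (c (b (c (c (a (l 16774224) (a (l 16775264) (b (l 16775408) (b (l 16776224) (l 120963727623))))) (l 16774920)) (l 16774912)) (a (c (b (l 16775856) (b (a (l 16776320) (a (l 16776840) (b (l 16777336) (a (l 252497101143) (l 431275114759))))) (b (a (l 16776728) (a (a (l 173577076999) (l 386177958039)) (l 3))) (a (a (l 16776824) (a (l 16777088) (l 268066357623))) (l 452749951607))))) (l 145122920151)) (b (c (a (c (b (l 16776616) (b (a (l 16776856) (a (l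 16777112) (l 280951259559))) (a (l 170355851575) (l 428590760279)))) (l 156934079383)) (b (c (a (a (l 146733531463) (b (l 16777088) (l 401747214535))) (b (l 373293056167) (l 3))) (l 264845132695)) (l 3))) (l 231559137159)) (c (a (a (b (b (l 394231021799) (l 3)) (l 3)) (l 3)) (l 3)) (l 444696888743))))) (b (l 16774912) (c (l 217063624247) (l 211158044215))))))) (a (c (l 16766848) (l 16766792)) (a (c (l 16776264) (l 16776232)) (b (l 16771568) (a (c (l 16777936) (l 78550927895)) (b (l 16775592) (c (l 254644588135) (l 337859576455)))))))), by decide +kernel⟩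

def k17_mm_202_s : ∃ t, chk3 f_mm_202_s t 476 75 1 = true :=
  ⟨(b (b (c (l 16775928) (l 16773264)) (c (c (c (a (l 16774816) (b (l 16775656) (a (l 16777056) (a (b (l 16776648) (b (l 139754209543) (a (l 254107713895) (l 438791307527)))) (b (a (l 16776904) (b (l 16776944) (l 233169748327))) (b (l 396915376375) (l 3))))))) (l 119889987047)) (l 16775504)) (c (l 16775496) (l 16775496)))) (b (c (c (a (c (b (c (a (l 16776104) (a (l 16777360) (b (l 16776696) (b (l 162839658775) (l 384567345367))))) (l 129016791815)) (a (a (b (l 16776744) (b (a (l 16777064) (l 254107713879)) (l 404968440087))) (b (a (l 131701145879) (b (l 16777040) (l 299204870599))) (l 448454984231))) (b (a (a (b (l 235317231943) (l 3)) (l 432885727639)) (l 3)) (l 3)))) (b (l 16776448) (l 344302027127))) (b (c (a (a (a (b (l 16776952) (l 423222051191)) (b (b (l 16776992) (l 269140099463)) (l 3))) (b (b (a (l 201494364439) (l 388862312615)) (l 454360564119)) (l 3))) (l 3)) (l 379198636823)) (l 3))) (l 327659028983)) (a (c (l 183777626759) (l 183240755863))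 (c (l 314237259911) (l 394231022983)))) (l 3))), by decide +kernel⟩

def k18_mm_202_s : ∃ t, chk3 f_mm_202_s t 477 75 1 = true :=
  ⟨(b (c (b (c (a (c (l 16777376) (l 16775400)) (a (c (b (l 16775904) (b (l 110763180295) (a (a (l 133311758631) (b (l 16777048) (l 379198636167))) (a (b (l 244444037447) (l 3)) (l 437717565863))))) (l 16777768)) (c (b (a (l 16776432) (a (l 103783858487) (b (l 16776592) (b (l 16777000) (a (l 257865810183) (l 323364061575)))))) (b (c (a (b (a (l 16777024) (l 228874780967)) (l 389936054503)) (b (l 426443276615) (l 3))) (l 358797541639)) (l 3))) (l 300815482727)))) (l 141901695655)) (c (a (b (c (b (a (l 16776424) (a (b (l 16776808) (l 148881015095)) (b (a (l 16777072) (l 258939552103)) (l 409263407399)))) (a (a (l 16776792) (b (l 16777008) (a (l 218137362759) (l 408726536391)))) (a (a (b (l 273435066759) (l 3)) (l 3)) (l 3)))) (l 209547429495)) (c (a (a (b (b (a (l 16777280) (l 288467452327)) (l 432885727575)) (l 3)) (l 3)) (l 3)) (l 414095246519))) (b (a (a (a (b (l 448454984135)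 (l 3)) (l 3)) (l 3)) (l 3)) (l 3))) (l 363092510007))) (b (c (l 130627406487) (c (l 16776112) (l 117742504263))) (a (c (l 238538460519) (l 321753448839)) (b (l 461339887095) (l 3))))) (l 3)), by decide +kernel⟩

def k19_mm_202_s : ∃ t, chk3 f_mm_202_s t 239 75 1 = true :=
  ⟨(a (a (b (b (b (c (c (c (a (c (b (a (l 16776856) (b (l 142438564119) (a (l 260550164855) (l 452213080343)))) (a (a (b (l 214379266311) (l 3)) (l 421611438439)) (l 3))) (l 325511544903)) (a (b (b (l 403894698247) (l 3)) (l 3)) (l 3))) (l 358260670999)) (l 275582552519)) (c (l 263234521527) (l 266455746983))) (l 3)) (l 3)) (l 3)) (l 3)) (l 3)), by decide +kernel⟩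

def k20_mm_202_s : ∃ t, chk3 f_mm_202_s t 28 19 1 = true :=
  ⟨(c (a (b (l 16754008) (a (l 16759320) (b (l 16743736) (l 16752144)))) (b (b (l 16756520) (c (l 16749912) (l 16770936))) (b (a (l 16753608) (c (l 16774144) (l 16774224))) (c (a (l 16761896) (b (a (l 16767368) (a (l 16771152) (b (l 16772672) (l 16777328)))) (a (l 16776648) (a (b (l 16774192) (c (a (l 16775576) (b (l 130627404327) (a (b (l 16776784) (l 323364061271)) (b (l 352891961623) (l 3))))) (l 161765918983))) (a (b (a (l 16775776) (b (l 16775904) (a (l 16777496) (b (l 16776824) (l 341080801431))))) (c (b (c (a (b (l 195051913879) (l 384030474711)) (l 428590760967)) (l 351281349143)) (l 3)) (l 374366799063))) (b (a (b (l 16777200) (b (a (l 210621170263) (l 382419861847)) (l 3))) (b (b (l 154249724487) (b (l 331953995879) (l 415168987623))) (l 3))) (l 3))))))) (a (l 16762040) (a (l 16777336) (b (l 16772472) (a (l 16775240) (l 316921610759))))))))) (a (b (l 16725168) (a (l 16739088) (l 16748544))) (b (a (l 16740216) (l 16771520)) (b (c (a (l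 16753832) (l 16763824)) (l 16774720)) (a (l 16772768) (b (c (l 16770040) (l 16770120)) (a (l 16771560) (a (c (l 16775264) (l 16775288)) (b (c (l 16776744) (l 16776744)) (l 457044916967)))))))))), by decide +kernel⟩

def k21_mm_202_s : ∃ t, chk3 f_mm_202_s t 58 76 1 = true :=
  ⟨(a (c (c (l 16756720) (l 16756680)) (l 16756616)) (b (c (a (l 16762584) (l 16773272)) (l 16773128)) (c (a (l 16766976) (a (l 16776256) (b (l 16772640) (b (l 16774248) (c (l 16777280) (l 16775320)))))) (c (l 16777552) (l 16774928))))), by decide +kernel⟩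

def k22_mm_202_s : ∃ t, chk3 f_mm_202_s t 118 152 1 = true :=
  ⟨(b (a (c (c (l 16777640) (l 16772392)) (l 16772376)) (a (c (c (a (c (c (b (l 16775272) (a (l 16776008) (a (l 16776520) (b (l 16776592) (b (l 16777000) (l 336785834055)))))) (l 16777128)) (l 16775816)) (c (b (c (a (l 16776304) (b (l 16777376) (a (a (l 16777328) (b (l 16777040) (l 295983645127))) (b (l 348596994151) (l 3))))) (l 144586048663)) (a (a (b (l 133848629527) (b (l 370071830695) (l 3))) (b (b (a (l 16777064) (l 251960230231)) (l 402284085527)) (l 3))) (a (b (l 446307500583) (l 3)) (l 3)))) (b (l 16776656) (l 366313734791)))) (l 177872047255)) (c (l 156397210775) (c (l 16778656) (l 157470952263)))) (a (a (b (c (c (c (b (a (b (l 165524013319) (l 381882990791)) (a (l 419463954807) (l 3))) (l 3)) (l 380809249367)) (l 16777504)) (l 284709357799)) (l 3)) (l 3)) (l 3)))) (a (c (c (a (l 16773192) (a (l 16776544) (c (b (l 16777376) (a (a (l 16777360) (b (l 16776696) (b (l 167671496967) (l 382419861703)))) (a (c (b (a (l 16776952) (b (l 16776992)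 (l 268066357623))) (l 428053889511)) (l 251423360215)) (b (a (b (l 175187689735) (l 449528725799)) (l 409263407447)) (l 3))))) (l 161229047687)))) (l 117742504791)) (c (l 91972701015) (l 87677733719))) (a (a (c (c (b (c (b (a (a (l 16776648) (b (l 16776856) (l 173040206135))) (a (b (a (l 16777112) (l 283635614103)) (l 425369534807)) (l 3))) (a (a (b (l 16777376) (l 358797541511)) (b (l 393157279975) (l 3))) (l 3))) (l 332490866919)) (l 3)) (l 360945025959)) (c (l 271824457575) (l 355039445879))) (l 3)) (l 3)))), by decide +kernel⟩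

def k23_mm_202_s : ∃ t, chk3 f_mm_202_s t 118 153 1 = true :=
  ⟨(a (a (c (c (a (b (l 16774672) (b (b (l 16776008) (b (l 16776408) (b (l 110226309463) (a (l 16776400) (a (l 16776912) (l 250349617591)))))) (c (b (a (l 16777392) (a (b (l 167671496999) (l 384567345367)) (l 426980147703))) (a (a (a (l 16777344) (b (l 16777048) (l 302962966999))) (b (l 351281348727) (l 3))) (l 3))) (l 245517781015)))) (b (c (c (b (l 16775488) (a (l 16776216) (b (l 16776632) (c (a (l 149954756919) (a (b (l 16777120) (l 420537696487)) (l 394231021847))) (l 233706619607))))) (l 124721824823)) (l 16776032)) (b (c (b (b (a (l 16777376) (a (l 393694150903) (l 3))) (a (a (l 16776984) (l 359871283351)) (l 3))) (a (a (a (b (l 177872044311) (l 451139338535)) (l 412484632919)) (l 3)) (l 3))) (l 355039445511)) (l 3)))) (b (l 16775352) (l 315847868647))) (c (c (b (l 16775352) (l 224042946695)) (l 151028503191)) (b (l 16775352) (l 304036708551)))) (b (c (c (a (c (b (a (b (l 16776240) (l 118816244071)) (c (b (a (l 16776752) (a (l 16777336)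 (b (l 16777040) (l 298131128775)))) (a (b (l 206326202743) (l 405505310999)) (l 445233758759))) (l 228874781991))) (a (b (a (a (l 151028498775) (b (l 16777088) (l 401210343623))) (b (l 372219314343) (l 3))) (l 3)) (l 3))) (b (l 16777512) (l 388862313367))) (b (c (a (a (b (b (l 348060123239) (l 3)) (l 3)) (l 3)) (l 3)) (l 431275115815)) (l 3))) (l 349133866007)) (a (c (l 219211107479) (l 219747978391)) (b (l 351281352151) (l 3)))) (l 3))) (l 3)), by decide +kernel⟩

def k24_mm_202_s : ∃ t, chk3 f_mm_202_s t 119 76 1 = true :=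
  ⟨(l 3), by decide +kernel⟩

def k25_mm_202_s : ∃ t, chk3 f_mm_202_s t 29 154 1 = true :=
  ⟨(a (a (c (c (l 16763304) (l 16763320)) (l 16763344)) (a (c (c (l 16776536) (l 16771304)) (c (l 16771312) (l 16771320))) (a (c (c (b (l 16776848) (b (a (l 16775152) (a (l 16776152) (b (l 16776560) (a (l 130627404087) (b (l 164987142551) (l 387251699943)))))) (b (c (a (l 16775944) (b (a (l 16776816) (a (l 357723799687) (l 3))) (a (a (l 16776912) (a (l 16777328) (l 313163514343))) (l 3)))) (l 180019529303)) (c (a (c (l 118279373127) (l 16776472)) (a (a (b (l 218137362855) (l 413558374711)) (l 448454984263)) (l 3))) (l 224042944903))))) (l 136532987559)) (b (l 16774240) (c (l 16779008) (l 135996115831)))) (b (c (c (a (c (b (l 16775712) (c (a (l 16776432) (a (b (l 16776672) (b (l 16777400) (l 366850605223))) (b (c (l 154249724231) (l 16777008)) (l 416779600311)))) (l 159081563383))) (l 16777560)) (c (b (b (a (l 16776448) (a (l 138680467767) (b (l 212231782791) (l 407115923751)))) (b (a (l 16776848) (a (l 375977410743)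 (l 3))) (a (a (l 16776944) (a (l 223506071895) (l 406579052759))) (l 3)))) (a (a (b (a (b (l 16777128) (l 424295792887)) (l 394767892775)) (l 3)) (l 3)) (l 3))) (l 337322704007))) (l 205789335127)) (c (l 185925111383) (c (l 182703885751) (l 184314498487)))) (a (b (c (c (c (a (a (b (a (l 16776976) (b (l 16777008) (l 281488130455))) (l 430738244103)) (b (a (b (l 212231782711) (l 3)) (l 416779600231)) (l 3))) (l 3)) (l 378661765927)) (l 298668001991)) (l 283635616759)) (l 3)) (l 3)))))) (b (b (a (a (a (c (c (a (a (a (b (l 446307500599) (l 3)) (l 3)) (l 3)) (l 3)) (l 454897437079)) (l 456508049735)) (l 3)) (l 3)) (l 3)) (l 3)) (l 3))), by decide +kernel⟩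

def k26_mm_202_s : ∃ t, chk3 f_mm_202_s t 29 155 1 = true :=
  ⟨(a (a (c (c (l 16775488) (l 16767648)) (c (l 16767680) (l 16767712))) (b (a (c (c (a (l 16773144) (c (a (l 16775128) (b (l 16775936) (a (a (l 16776488) (b (l 16776552) (b (l 16776952) (l 233169748455)))) (c (b (a (l 16776888) (b (l 16777256) (l 375440539831))) (a (a (l 357723799703) (l 423222051207)) (l 3))) (l 250886489559))))) (l 136532985751))) (l 16774488)) (c (l 16774504) (l 16774512))) (a (a (c (c (c (b (a (c (b (l 16776664) (a (c (l 157470949751) (l 16777032)) (a (l 337859575879) (l 402820956471)))) (l 167134626727)) (b (a (b (l 16777032) (l 350207606887)) (a (l 389936054551) (l 3))) (l 3))) (a (a (b (l 417853342167) (l 3)) (l 3)) (l 3))) (l 352891962071)) (l 269676973799)) (c (l 255718330071) (l 257328942807))) (l 3)) (l 3))) (a (c (a (c (c (c (a (l 16774592) (b (l 16775384) (a (l 16776104) (a (l 16776600) (b (l 16776664) (b (l 16777056) (l 360408154247))))))) (l 16777872)) (l 16775256)) (l 16775264)) (c (a (c (b (c (a (l 16776376)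 (b (l 16777432) (a (b (l 16777008) (l 258939552295)) (c (l 393157280087) (l 392083538263))))) (l 156934079607)) (a (a (b (l 148881015175) (l 406579052967)) (b (b (l 227264168391) (l 421074567511)) (l 3))) (l 3))) (l 308331675559)) (b (a (b (a (b (l 196662526391) (l 393694150919)) (l 438791307799)) (l 3)) (l 3)) (l 3))) (l 338396447527))) (a (l 16778224) (c (l 248739009463) (l 336785834343)))) (l 3)))) (l 3)), by decide +kernel⟩

def k27_mm_202_s : ∃ t, chk3 f_mm_202_s t 58 156 1 = true :=
  ⟨(a (c (a (l 16775488) (c (a (l 16777080) (b (l 16777336) (c (a (c (a (l 16775816) (b (l 16775944) (b (l 16776728) (a (l 171966464487) (l 371682443527))))) (l 136532985047)) (b (b (a (l 16776344) (a (l 16776832) (b (l 16777032) (l 271287583303)))) (a (l 141364822471) (a (b (l 240149070311) (l 437717565815)) (l 3)))) (a (b (a (a (l 185388237223) (l 342691414119)) (l 414095245767)) (l 3)) (l 3)))) (a (l 16776152) (l 323900932327))))) (b (l 16773432) (l 155323469911)))) (a (l 16769344) (a (l 16773200) (b (l 16774752) (c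 (l 174650822343) (l 175187693255)))))) (a (a (c (c (b (c (a (b (l 16777392) (c (a (a (l 125258695047) (b (l 16776776) (b (l 213842395543) (l 409263407399)))) (b (a (b (l 16776976) (l 245517779447)) (l 381882990887)) (l 445233759015))) (l 307794804663))) (b (a (c (a (b (l 16776720) (a (l 215453008343) (l 354502574231))) (b (l 165524013479) (l 425369534967))) (l 223506072807)) (a (b (a (l 343228285031) (l 408189665623)) (l 3)) (l 3))) (l 3))) (a (l 169282111543) (l 368461218823))) (a (c (a (a (b (b (l 396915376503) (l 3)) (l 3)) (l 3)) (l 3)) (l 440401922119)) (l 3))) (b (l 226190430711) (l 445233761175))) (b (c (l 214379270295) (l 215453012103)) (l 455971173271))) (l 3)) (l 3))), by decide +kernel⟩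

def k28_mm_202_s : ∃ t, chk3 f_mm_202_s t 58 157 1 = true :=
  ⟨(a (a (c (a (l 16776736) (c (c (b (l 16773664) (a (l 16775088) (b (l 16775864) (a (l 124184953351) (a (b (l 16776792) (l 336785834103)) (b (l 204715590183) (l 442549404231))))))) (l 117742504103)) (l 16774736))) (c (l 16773488) (l 16773520))) (a (c (c (b (c (a (l 16777248) (a (b (l 16776064) (b (l 139754209687) (a (a (l 175724560807) (l 259476423303)) (l 404968440231)))) (a (b (l 16776552) (c (b (l 345375768727) (l 3)) (l 381346120183))) (b (a (l 133848629655) (b (l 16776704) (l 238001586743))) (l 3))))) (a (l 16775616) (l 202568108503))) (a (c (a (b (a (l 16776672) (b (l 16776736) (a (l 219747975655) (l 353965703319)))) (a (b (l 379198636343) (l 3)) (l 3))) (b (b (a (l 164987142663) (l 361481896167)) (l 434496340695)) (l 3))) (l 340543930919)) (l 3))) (b (l 16776296) (l 360945026455))) (b (c (l 16776304) (l 16776312)) (c (l 276119426567) (l 395841633463)))) (a (b (b (c (c (c (a (a (b (l 16776952) (l 387251700055)) (b (a (l 228337910279) (l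 363629379767)) (l 3))) (b (l 441475662583) (l 3))) (l 359871283831)) (l 16777520)) (l 262160780311)) (l 3)) (l 3)) (l 3)))) (l 3)), by decide +kernel⟩

def k29_mm_202_s : ∃ t, chk3 f_mm_202_s t 58 79 1 = true :=
  ⟨(a (a (a (c (b (c (b (c (a (l 16774576) (a (l 16775536) (b (l 16775664) (b (l 16776432) (l 153712853607))))) (l 16775224)) (c (a (b (l 16776104) (a (a (l 16776640) (b (l 16776704) (l 230485394135))) (b (a (l 16777360) (l 349133865127)) (l 424832664231)))) (b (c (a (b (l 16776808) (a (l 219747975799) (l 388862312823))) (b (a (l 331953995863) (l 439328178743)) (l 3))) (l 326048415911)) (l 3))) (a (l 167134628247) (l 355039445895)))) (b (l 16775240) (l 219211109047))) (c (b (a (a (a (b (b (l 363092508935) (l 3)) (l 3)) (l 3)) (l 3)) (l 3)) (l 3)) (l 441475666055))) (b (b (l 16775264) (c (l 204715594247) (l 204715594391))) (l 509658265575))) (b (b (c (c (b (a (a (l 16776304) (b (l 16776696) (a (l 162839658983) (l 351818219719)))) (a (b (a (a (l 169282109863) (l 251423359591)) (l 394231021959)) (l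 3)) (l 3))) (a (a (a (b (l 16776912) (l 370071830807)) (b (a (l 203104977431) (l 273971937975)) (l 3))) (b (l 429127631543) (l 3))) (l 3))) (l 253570847543)) (c (l 241759687367) (l 342691413447))) (l 3)) (l 3))) (l 3)) (l 3)), by decide +kernel⟩

def k30_mm_202_s : ∃ t, chk3 f_mm_202_s t 59 39 1 = true :=
  ⟨(l 3), by decide +kernel⟩

def k31_mm_202_s : ∃ t, chk3 f_mm_202_s t 15 16 1 = true :=
  ⟨(a (b (l 14) (a (b (l 14) (b (l 16729584) (a (l 16728328) (l 16744976)))) (l 14))) (l 14)), by decide +kernel⟩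

def k32_mm_202_s : ∃ t, chk3 f_mm_202_s t 60 34 1 = true :=
  ⟨(a (b (b (l 16728264) (l 16740800)) (c (l 16738072) (l 16735096))) (b (c (b (l 16738888) (l 16721696)) (l 16738232)) (c (b (l 16747232) (l 16751808)) (l 16747648)))), by decide +kernel⟩

def k33_mm_202_s : ∃ t, chk3 f_mm_202_s t 122 34 1 = true :=
  ⟨(b (c (b (l 16749816) (l 16764888)) (b (l 16726648) (l 16731768))) (b (c (a (l 16735048) (l 16761944)) (l 16757808)) (c (c (l 16772952) (a (l 16739416) (l 16766416))) (c (l 16773512) (l 16773096))))), by decide +kernel⟩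

def k34_mm_202_s : ∃ t, chk3 f_mm_202_s t 246 34 1 = true :=
  ⟨(b (b (l 14) (c (l 16770504) (l 16762352))) (b (c (c (l 16773280) (l 16773024)) (b (l 16755616) (l 16768592))) (b (c (c (l 16776696) (l 16776544)) (c (l 16771144) (l 16770976))) (b (c (c (c (l 16777112) (l 16775760)) (l 16775680)) (c (l 16772960) (l 16775464))) (a (c (l 16772760) (l 16772544)) (a (c (l 16776328) (l 16774904)) (c (c (a (l 16777304) (c (b (c (l 78014054567) (l 16776616)) (b (a (l 16776856) (c (a (a (l 16777256) (b (l 16777112) (l 306721063079))) (a (b (l 219747975319) (l 3)) (l 436106952903))) (l 234243490295))) (a (a (l 103246987431) (a (b (l 16777120) (a (l 279340646551) (l 351818219735))) (b (l 235317231767) (l 3)))) (a (a (l 442012532935) (l 3)) (l 3))))) (b (l 16776608) (c (l 228874781431) (l 226727297783))))) (l 120426857767)) (a (c (l 16776104) (l 16776080)) (b (l 32380027415) (c (l 16777184) (l 203104977831))))))))))), by decide +kernel⟩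

def k35_mm_202_s : ∃ t, chk3 f_mm_202_s t 247 68 1 = true :=
  ⟨(l 14), by decide +kernel⟩

def k36_mm_202_s : ∃ t, chk3 f_mm_202_s t 247 138 1 = true :=
  ⟨(a (b (c (l 16773880) (l 16770896)) (c (c (l 16776240) (l 16773520)) (c (l 16773424) (l 16773312)))) (b (l 14) (a (b (c (c (l 16775280) (l 16775232)) (l 16777112)) (c (c (a (l 16777360) (b (l 16777168) (b (c (c (a (l 16776760) (a (l 16777280) (a (b (l 16777104) (a (l 255181455495) (l 329806512327))) (b (l 214916137095) (l 3))))) (l 132774887719)) (l 16776944)) (c (b (a (l 16776976) (a (a (a (l 16777264) (l 264845131911)) (l 359871283431)) (l 3))) (a (a (l 16777024) (a (l 124184952983) (a (l 263234519191) (l 343765156039)))) (l 3))) (l 231559135959))))) (l 110226310295)) (a (c (l 16775992) (l 16775960)) (b (l 16777120) (c (l 16777088) (a (l 16776872) (l 231022265127))))))) (b (a (a (c (c (l 16776872) (l 16776192)) (l 16777456)) (l 14)) (l 14)) (a (c (c (b (b (c (a (l 16777264) (a (a (b (l 16777096) (a (l 239612199031) (l 311552901303))) (b (l 159081562263)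 (l 461339885719))) (b (l 14) (l 3)))) (l 199883751991)) (c (a (c (a (a (l 16777240) (b (l 16777096) (a (l 240685940871) (l 322290319543)))) (b (c (a (l 201494364295) (l 342154543319)) (l 261087035623)) (l 3))) (l 227801039335)) (l 3)) (l 364166250727))) (c (a (b (c (a (b (l 423758921895) (l 3)) (l 3)) (l 447381242215)) (l 3)) (l 3)) (l 461339886343))) (l 357186929031)) (b (c (l 221895459831) (a (l 16777064) (l 381882990871))) (c (l 469929820903) (l 475298530007)))) (l 3)))))), by decide +kernel⟩

def k37_mm_202_s : ∃ t, chk3 f_mm_202_s t 988 139 1 = true :=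
  ⟨(b (c (c (c (c (l 16777144) (l 16775168)) (l 16775144)) (l 16775104)) (c (l 16775056) (l 16774992))) (b (c (b (c (c (a (l 16776224) (a (l 16777272) (c (b (a (l 16776912) (a (l 16777056) (b (l 16777072) (l 233706619047)))) (a (b (l 126332436599) (a (l 245517779111) (l 384567345399))) (b (c (l 404968439927) (l 340007059751)) (l 3)))) (b (l 16777008) (l 272361325047))))) (l 112910664391)) (l 16776576)) (c (a (b (l 16777296) (a (l 16776744) (a (l 16777272) (b (b (l 16777104) (l 173577076903)) (a (a (l 218674233511) (l 298667999447)) (l 457581789335)))))) (c (a (b (c (a (a (l 16777064) (a (l 133848629383) (b (l 16777112) (l 300815483047)))) (b (a (l 152102240391) (l 324974674119)) (l 454360563911))) (l 221358588375)) (c (a (b (l 416242729095) (l 3)) (l 3)) (l 440401920343))) (l 3)) (l 382419861895))) (l 209547429367))) (c (c (l 161765918119) (l 156934079911)) (a (l 16776448) (b (l 118279373495) (l 379735507319))))) (b (a (c (c (c (b (b (a (l 16776960) (a (a (l 193978171559) (l 343228285143)) (l 3))) (a (a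 (l 16777008) (a (l 16777152) (a (l 243370295431) (l 323900932279)))) (l 3))) (a (c (a (c (b (l 149954756743) (a (l 293299290279) (l 3))) (l 237464715591)) (b (l 428590760087) (l 3))) (l 284172485143)) (l 3))) (l 341080801447)) (l 258939552887)) (c (l 246591521911) (c (l 256255198167) (l 258939552727)))) (l 3)) (l 3)))), by decide +kernel⟩

def k38_mm_202_s : ∃ t, chk3 f_mm_202_s t 989 139 1 = true :=
  ⟨(b (b (c (c (c (c (a (l 16775720) (a (l 16776272) (a (l 16777208) (b (l 16776448) (b (l 16776880) (b (l 16777088) (a (l 167671496823) (l 336248963271)))))))) (l 81772151223)) (l 16776072)) (l 16776048)) (c (l 16776016) (l 16777296))) (a (c (c (c (b (l 16777224) (b (c (a (l 16776808) (a (a (l 16777040) (b (l 16777064) (l 217063620759))) (b (a (l 16777152) (a (l 253033971847) (l 327659028679))) (l 430738243751)))) (l 141901693319)) (a (a (l 16777000) (b (l 16777280) (a (a (l 16777272) (l 268603228311)) (l 370071830759)))) (a (a (a (b (l 261623906455) (l 3)) (l 433959469223)) (l 3)) (l 3))))) (b (l 16776560)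 (c (l 206326203207) (l 215453008551)))) (l 16777832)) (c (l 125258695703) (c (l 16776832) (b (l 16776504) (l 193441301223))))) (b (c (c (c (b (a (a (l 16776888) (a (l 16777024) (b (l 16777048) (l 192904429735)))) (c (a (b (a (l 16777144) (a (l 233169748087) (l 306721063095))) (l 418927083671)) (l 464561111335)) (l 375440539815))) (a (c (a (b (l 16777104) (a (l 213305524359) (l 352355090647))) (b (c (a (l 287393710231) (l 468319207575)) (l 306721063207)) (l 3))) (l 260550164951)) (l 3))) (l 330880254039)) (l 246591521847)) (c (l 233706619959) (a (l 16777120) (l 400673472839)))) (l 3)))) (a (a (a (b (b (b (c (c (b (a (l 137069854871) (a (l 258402681031) (l 352355090647))) (l 438791307447)) (l 16777256)) (l 264845132263)) (l 3)) (l 3)) (l 3)) (l 3)) (l 3)) (l 3))), by decide +kernel⟩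

def k39_mm_202_s : ∃ t, chk3 f_mm_202_s t 495 139 1 = true :=
  ⟨(a (b (b (a (c (c (b (c (a (l 16777384) (c (b (l 90898956439) (a (a (l 112910663831) (b (l 16777120) (a (l 279340646567) (l 379198636215)))) (a (b (a (l 177872044119) (l 280951259287)) (l 3)) (l 445770629335)))) (b (l 16776952) (l 249275875767)))) (l 16777488)) (c (a (a (b (b (l 16776992) (l 131701145735)) (a (b (a (l 207936815255) (l 302962966695)) (l 3)) (l 453823693031))) (b (a (b (l 16777128) (a (l 295983644839) (l 371145572583))) (b (a (l 199883751559) (l 289004322983)) (l 3))) (l 3))) (a (a (b (l 451676209367) (l 3)) (l 3)) (l 3))) (l 370608701767))) (c (l 219211105591) (l 16777840))) (c (c (l 205789332759) (l 202568107287)) (b (l 16777544) (l 366850605367)))) (b (c (c (c (a (b (b (a (a (l 16777120) (a (l 16777272) (l 269676970135))) (l 439328178343)) (a (a (a (l 294909902967) (l 350207606999)) (l 3)) (l 3))) (l 3)) (l 3)) (l 412484633127)) (l 409263407639)) (c (l 354502575431) (l 415705858567))) (l 3))) (l 3)) (l 3)) (l 3)), by decide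 +kernel⟩

def k40_mm_202_s : ∃ t, chk3 f_mm_202_s t 60 35 1 = true :=
  ⟨(c (b (a (l 16760112) (b (l 16766880) (a (l 16737056) (l 16769152)))) (a (c (l 16766808) (l 16766456)) (a (c (l 16774840) (b (l 16741512) (l 16767128))) (b (c (l 16768568) (l 16768424)) (a (c (l 16776880) (l 16771568)) (b (c (l 16776056) (l 16773384)) (c (a (l 16777352) (b (c (l 16777192) (l 16775872)) (c (a (c (b (l 16776368) (a (l 16776752) (b (l 16777304) (a (a (l 16777288) (b (l 16777144) (l 338933317847))) (a (l 380272377975) (l 458655531239)))))) (l 122037469863)) (b (c (a (a (l 16776824) (b (l 16776864) (b (l 16777080) (l 235854102775)))) (b (a (l 16777048) (b (l 162839658647) (l 320679706951))) (a (c (b (l 283635613959) (l 3)) (l 327122157959)) (l 3)))) (a (l 16776920) (l 257328939703))) (a (b (a (b (l 200957493431) (l 407652794503)) (l 450602467607)) (l 3)) (l 3)))) (a (l 16776648) (l 333564608695))))) (c (a (l 16774960) (l 143512307591)) (l 16778320))))))))) (a (b (l 16745304) (l 16771120)) (b (c (l 16768488) (l 16767984))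 (b (c (l 16773120) (l 16775504)) (a (l 16772152) (b (c (l 16771824) (l 16771744)) (a (l 16772640) (c (c (l 107541956599) (l 16778304)) (a (l 16774896) (c (l 119889987431) (b (l 16775824) (a (l 16776632) (l 240685942311))))))))))))), by decide +kernel⟩

def k41_mm_202_s : ∃ t, chk3 f_mm_202_s t 122 140 1 = true :=
  ⟨(a (c (c (l 16765352) (l 16765080)) (l 16764616)) (b (c (c (l 16770088) (l 16769928)) (l 16774904)) (c (c (c (l 16776976) (l 16777584)) (l 16777512)) (c (l 16777400) (l 16777280))))), by decide +kernel⟩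

def k42_mm_202_s : ∃ t, chk3 f_mm_202_s t 244 141 1 = true :=
  ⟨(c (c (l 16776448) (l 16776304)) (c (l 16774840) (l 16774672))), by decide +kernel⟩

def k43_mm_202_s : ∃ t, chk3 f_mm_202_s t 245 282 1 = true :=
  ⟨(a (c (c (l 16773168) (l 16773088)) (c (l 16773000) (l 16772912))) (c (a (c (a (l 16776320) (b (l 16775184) (b (l 16776040) (c (l 81772150983) (l 16776608))))) (l 16775352)) (c (a (b (l 16775920) (b (a (l 16776592) (a (l 79624667367) (b (l 16776920) (b (l 130090533031) (a (l 255181455543) (l 375440539943)))))) (c (b (b (a (l 16776952) (a (a (l 186461978775) (l 315310997751)) (l 3))) (a (a (l 16777000) (a (l 16777144) (l 263771390135))) (l 461339885895))) (a (a (b (l 155323465847) (a (l 270213841095) (l 3))) (a (l 421611438263) (l 3))) (l 3))) (l 270750712775)))) (b (c (a (l 16777344) (b (l 16776568) (a (b (l 16776904) (b (l 16777120) (a (l 230485393575) (l 366313734391)))) (b (b (l 16777016) (l 165524013191)) (b (l 387788570743) (l 3)))))) (l 16777648)) (b (c (a (a (b (a (l 16777056) (b (l 16777080)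 (l 243907166375))) (b (l 401747214471) (l 3))) (b (b (a (l 16777256) (l 295446773991)) (l 444696887479)) (l 3))) (l 3)) (l 379198636407)) (l 3)))) (b (l 16776280) (l 327659028711)))) (a (c (l 16775312) (l 16775272)) (b (c (l 16776264) (l 72645346279)) (a (c (l 175724561751) (b (l 16776760) (l 247128392823))) (c (l 319605966903) (l 403894698679))))))), by decide +kernel⟩

def k44_mm_202_s : ∃ t, chk3 f_mm_202_s t 245 283 1 = true :=
  ⟨(a (c (c (a (l 16777328) (b (l 16776928) (c (a (a (l 16776200) (a (l 16777136) (b (l 16776384) (b (l 16776808) (b (l 16777024) (l 165524013207)))))) (a (b (l 16776656) (a (b (l 16776992) (b (a (l 16777160) (l 280414388439)) (l 433959469223))) (b (a (l 137606725831) (b (l 16777152) (l 339470188807))) (l 3)))) (b (b (l 16776888) (c (a (l 129016791175) (b (a (l 16777144) (l 258939551943)) (l 420000825495))) (l 16777504))) (b (a (a (b (l 273971937479) (l 3)) (l 3)) (l 3)) (l 3))))) (a (l 16776384) (b (l 16776840) (l 352891961575)))))) (c (a (l 16774672) (l 123648083463)) (l 16778032)))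 (c (c (l 88751474327) (l 16778000)) (a (l 16774568) (a (l 16775736) (b (l 16775912) (a (l 16777584) (l 232632877719))))))) (a (a (c (c (b (c (b (l 16776440) (c (a (l 98415149191) (b (a (l 16776960) (a (l 16777264) (b (l 16777120) (l 316384739511)))) (a (b (l 192904429751) (l 404968439943)) (l 451139338519)))) (a (l 16776824) (l 225116684903)))) (l 126869308231)) (b (c (a (a (b (a (l 126869307575) (b (l 16777136) (l 317995352311))) (l 462413627687)) (b (a (b (l 253033971895) (l 3)) (l 451676209383)) (l 3))) (l 3)) (l 392620409287)) (l 3))) (b (l 16776720) (l 409263407895))) (b (c (l 16776712) (l 16777360)) (c (l 330343385207) (l 414095246087)))) (b (c (c (c (a (a (b (l 92509569223) (b (a (b (l 232632877223) (l 3)) (l 438791307479)) (l 3))) (b (b (l 16776944) (b (l 161765916823) (a (l 290078064855) (l 3)))) (l 3))) (b (c (b (a (a (l 16777088) (b (l 16777104) (l 296520515751))) (a (b (l 216526749831) (l 3)) (l 432348856503))) (a (l 440401920263) (l 3))) (l 358797541559)) (l 3))) (b (l 217600492439) (l 434496340631)))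 (l 264845133543)) (c (l 253033973479) (b (l 202031235991) (l 449528726135)))) (l 3))) (l 3))), by decide +kernel⟩

def k45_mm_202_s : ∃ t, chk3 f_mm_202_s t 492 280 1 = true :=
  ⟨(c (a (l 16776368) (b (l 16774664) (b (l 16775536) (c (l 16777272) (l 16776104))))) (c (l 16774400) (l 16776960))), by decide +kernel⟩

def k46_mm_202_s : ∃ t, chk3 f_mm_202_s t 493 560 1 = true :=
  ⟨(c (b (a (l 16777272) (c (a (c (a (c (c (b (l 16776688) (l 109689438295)) (l 16776832)) (l 16776832)) (c (b (a (l 16776968) (a (l 124184952951) (b (l 16777128) (l 316384739527)))) (a (b (a (l 16777136) (l 243370295479)) (l 409800278151)) (l 455971176727))) (b (l 16777056) (l 297057387063)))) (l 173577077495)) (c (a (b (a (a (b (l 240149069991) (l 3)) (l 445233758423)) (l 3)) (l 3)) (l 3)) (l 436106953383))) (l 251423360631))) (a (a (l 16776080) (c (b (l 16777352) (c (c (a (l 16776800) (b (a (l 16777008) (a (l 16777144) (l 261623906503))) (a (l 153712853111) (l 422685180055)))) (l 141364822391)) (l 16776984))) (l 16776832))) (c (a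 (c (a (c (b (a (a (l 132774887559) (b (l 16777136) (l 333564608727))) (a (b (l 254644584631) (l 3)) (l 457581789415))) (a (l 465634853159) (l 3))) (l 368998088935)) (l 3)) (l 394767892935)) (l 3)) (l 428590760839)))) (a (c (l 16776136) (l 16777424)) (c (c (l 274508810439) (l 350207607303)) (a (b (l 155323466455) (l 393694151095)) (l 460803015639))))), by decide +kernel⟩

def k47_mm_202_s : ∃ t, chk3 f_mm_202_s t 493 561 1 = true :=
  ⟨(a (a (c (c (c (a (b (l 16776488) (b (l 16776912) (a (a (l 16777056) (b (l 16777080) (l 246591520935))) (b (a (l 16777272) (l 319605964983)) (l 447381242039))))) (b (a (l 16776760) (a (l 16776904) (b (l 16776856) (b (l 16777064) (l 228874780823))))) (b (c (a (b (l 16777280) (a (l 231022264487) (l 368998088951))) (b (l 392620408951) (l 3))) (l 269676970471)) (l 3)))) (b (l 16776664) (l 232096007127))) (l 160155305063)) (c (l 152639112455) (b (l 16776632) (l 217600492519)))) (b (c (c (c (b (a (a (l 16776992) (b (l 16777104) (a (l 215989878935) (l 340543930631)))) (a (a (a (b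 (l 249812746375) (l 3)) (l 421074567335)) (l 3)) (l 3))) (a (c (a (b (a (l 16777160) (l 300278612135)) (l 436106952871)) (l 3)) (l 380809248967)) (l 3))) (l 353965703399)) (l 271287583927)) (c (l 260550165687) (l 345912639719))) (l 3))) (l 3)), by decide +kernel⟩

def k48_mm_202_s : ∃ t, chk3 f_mm_202_s t 246 562 1 = true :=
  ⟨(a (a (c (c (l 16776808) (l 16775456)) (l 16777368)) (b (c (c (c (a (l 16776328) (b (a (l 16776744) (a (l 16777016) (b (l 133311758471) (a (l 252497100983) (l 388862312711))))) (b (a (l 16776952) (a (a (l 160155304087) (l 317458481399)) (l 3))) (a (a (l 16777000) (a (l 16777144) (l 264845131959))) (l 462950498631))))) (l 131701146375)) (l 16776688)) (c (l 16776680) (l 103783859047))) (c (c (a (a (l 16777368) (b (l 90362085559) (c (a (a (l 16777248) (b (l 16777104) (l 276656292055))) (a (b (l 219747975303) (l 3)) (l 431275114679))) (l 16777216)))) (c (a (b (a (b (l 154786594935) (a (l 270750712007) (l 3))) (b (l 417853341847) (l 3))) (l 3)) (l 3)) (l 407652794887))) (l 226727298679))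 (c (l 218674234855) (a (l 16776880) (l 407652794871)))))) (a (a (b (b (c (c (a (a (b (c (l 404431569031) (l 16777280)) (l 3)) (l 3)) (l 3)) (l 385641088183)) (l 458118660631)) (l 3)) (l 3)) (l 3)) (l 3))), by decide +kernel⟩

def k49_mm_202_s : ∃ t, chk3 f_mm_202_s t 246 563 1 = true :=
  ⟨(a (a (c (c (a (c (l 16777256) (l 16776264)) (a (c (b (l 16776544) (b (l 101636374695) (a (a (l 126869307559) (b (l 16777136) (l 315310997751))) (a (b (l 249812746423) (l 3)) (l 450602467559))))) (l 16777480)) (c (b (a (l 16776816) (b (l 16776864) (a (l 121500598407) (b (l 16777120) (l 295983644903))))) (b (c (a (b (a (l 16777128) (l 241222811815)) (l 403357827207)) (l 450602467607)) (l 293836161591)) (l 3))) (b (l 16776912) (l 394231021895))))) (l 132238017975)) (a (a (l 16776024) (l 16777560)) (c (l 163913401639) (b (l 16776696) (l 232632878119))))) (a (b (c (c (c (a (c (a (b (l 16777208) (a (b (l 228337909927) (l 3)) (l 439865049303))) (b (b (l 156934078615) (l 389936054391)) (l 3))) (l 331417124935)) (a (a (b (l 435033211079)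 (l 3)) (l 3)) (l 3))) (l 365776863543)) (l 283635614983)) (c (l 275045680375) (l 360408154407))) (l 3)) (l 3))) (l 3)), by decide +kernel⟩

def k50_mm_202_s : ∃ t, chk3 f_mm_202_s t 246 141 1 = true :=
  ⟨(a (a (b (b (c (c (a (c (b (b (c (a (l 16776800) (a (l 125795565703) (b (a (l 16777144) (l 260013293751)) (l 417316470935)))) (l 135459242423)) (b (a (l 16777008) (a (a (l 269140099271) (l 3)) (l 3))) (a (a (l 16777056) (a (l 218137362567) (l 335175221511))) (l 3)))) (a (a (b (b (a (l 16777160) (l 275582550231)) (l 430201372839)) (l 3)) (l 3)) (l 3))) (b (l 204715590455) (l 420000825943))) (b (a (a (a (b (l 459729273063) (l 3)) (l 3)) (l 3)) (l 3)) (l 3))) (l 368461218471)) (c (a (l 243370296983) (l 475835401319)) (a (b (l 189683204903) (l 433422598711)) (l 480667239511)))) (l 3)) (l 3)) (l 3)) (l 3)), by decide +kernel⟩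

def k51_mm_202_s : ∃ t, chk3 f_mm_202_s t 247 70 1 = true :=
  ⟨(l 3), by decide +kernel⟩

def k52_mm_202_s : ∃ t, chk3 f_mm_202_s t 244 142 2 = true :=
  ⟨(a (c (c (b (l 16771848) (l 16776736)) (l 16778192)) (l 16778144)) (b (c (c (a (l 16774040) (c (b (l 16774952) (a (l 16775720) (a (l 16776264) (a (l 16776544) (b (l 16776440) (a (l 16777296) (b (l 16776912) (b (l 16777128) (l 321753448647))))))))) (l 16777480))) (l 16777384)) (l 16774736)) (c (a (b (l 16777048) (c (a (a (l 16776328) (b (l 16776416) (a (l 16777216) (b (l 16776936) (b (l 157470949495) (a (l 270750712007) (l 3))))))) (b (c (a (l 16776784) (a (b (l 16776920) (a (l 161765916855) (b (l 16777176) (l 404431569111)))) (b (c (l 136532983991) (l 16777104)) (c (l 422148309207) (l 421611438295))))) (l 157470949879)) (a (c (b (a (b (l 16777048) (l 205252460743)) (a (b (l 16777184) (l 396378505479)) (l 417316470951))) (a (l 429127631095) (l 3))) (l 352891961511)) (l 3)))) (a (l 16776512) (b (l 16776968) (l 381882990983))))) (a (b (c (b (l 16777224)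 (a (a (l 16776856) (b (l 16776904) (a (l 150491627703) (b (l 16777160) (l 349133865239))))) (c (b (a (l 133311758487) (a (b (l 16777152) (l 351281348839)) (l 388862312583))) (a (a (l 398525988999) (l 3)) (l 3))) (l 343765155959)))) (l 148344144791)) (c (b (a (a (b (a (b (l 16777168) (l 374903668983)) (l 401747214487)) (l 3)) (l 3)) (l 3)) (l 3)) (l 432885728199))) (b (b (c (a (c (b (l 108078825623) (a (a (l 138143596695) (b (l 16777144) (l 343765156055))) (a (l 384567345271) (l 461876756711)))) (l 199346881031)) (b (a (b (l 205252460727) (l 413021503623)) (l 455434305815)) (l 3))) (l 251423359975)) (l 3)) (l 3)))) (a (b (l 16775720) (l 179482658423)) (b (l 219211106343) (l 450602468727)))))), by decide +kernel⟩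

def k53_mm_202_s : ∃ t, chk3 f_mm_202_s t 244 142 3 = true :=
  ⟨(a (c (l 16778072) (l 16777992)) (b (c (l 16774688) (l 16777920)) (a (b (l 16776992) (c (l 161229047399) (c (l 159618434487) (a (l 16776480) (l 216526751063))))) (c (c (l 340543931015) (l 340007060103)) (b (a (l 123648082967) (l 361481896359)) (l 457581790535)))))), by decide +kernel⟩

def k54_mm_202_s : ∃ t, chk3 f_mm_202_s t 245 142 1 = true :=
  ⟨(b (a (a (c (c (b (c (a (l 16776048) (b (l 16776504) (a (a (l 16776792) (a (l 16777264) (b (l 16776880) (b (l 16777096) (l 265918873799))))) (a (b (l 16777024) (a (b (l 190756946087) (l 400136601879)) (l 418390212791))) (b (b (l 16777280) (a (l 258939551927) (l 408726536423))) (l 3)))))) (l 117742502839)) (a (a (c (b (l 16776720) (c (b (a (l 16777216) (b (l 191830687895) (l 398525988983))) (a (a (b (l 242296553639) (l 3)) (l 447381242071)) (l 3))) (l 258939552439))) (l 160155304807)) (c (b (b (l 16777272) (a (a (l 16777088) (b (l 16777112) (l 287393710295))) (a (b (l 223506071703) (l 3)) (l 431811985607))))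 (a (b (l 444160016647) (l 3)) (l 3))) (l 337859575991))) (b (c (a (c (b (a (b (l 159618433143) (a (l 277730033863) (l 3))) (l 435033211127)) (l 3)) (l 388862312743)) (l 3)) (l 406579053079)) (l 3)))) (b (l 16776408) (l 341080801671))) (b (c (l 16776392) (l 88751473751)) (c (c (l 255718328455) (l 254107715719)) (a (c (l 202568107271) (l 204715590919)) (l 425369535303))))) (a (b (c (c (b (c (b (c (a (l 16776912) (a (b (l 16777120) (a (l 234780360871) (l 371145572599))) (a (l 402284085399) (l 3)))) (l 197736268295)) (a (b (a (l 16777032) (a (l 16777176) (l 301352354023))) (c (a (l 196662526135) (l 445233758407)) (l 269140099463))) (l 3))) (l 232632878039)) (a (a (b (b (l 404431569031) (l 3)) (l 3)) (l 3)) (l 3))) (l 274508810039)) (c (l 264308262695) (b (l 218137363431) (l 465097982663)))) (l 3)) (l 3))) (l 3)) (l 3)), by decide +kernel⟩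

def k55_mm_202_s : ∃ t, chk3 f_mm_202_s t 244 286 1 = true :=
  ⟨(a (c (b (c (a (l 16775072) (a (l 16777160) (c (b (l 87140860135) (a (a (l 100025762039) (b (l 16776968) (b (l 200420622519) (l 407652794503)))) (c (b (a (a (l 16777104) (b (l 16777128) (l 314237255879))) (a (b (l 234243489959) (l 3)) (l 442012532951))) (l 458655531399)) (l 364703121607)))) (l 174113948711)))) (l 16778416)) (a (b (l 16777232) (a (l 16776120) (a (l 16777328) (b (l 16777312) (c (a (b (l 16777024) (l 188609462471)) (b (a (l 16777168) (l 296520515799)) (l 433422598327))) (l 16777192)))))) (c (a (c (a (b (b (l 16776704) (l 111300051159)) (b (a (a (l 148881014967) (b (l 16777160) (l 344302027031))) (a (l 393157279879) (l 3))) (l 3))) (b (a (b (l 16776984) (b (l 212231782615) (l 424295792791))) (b (a (l 133311758519) (b (l 16777144) (l 324437803255))) (l 462950498599))) (l 3))) (l 323364061271)) (c (b (a (a (b (a (b (l 260550164663) (l 3)) (l 454897434855)) (l 3)) (l 3)) (l 3)) (l 3)) (l 450602468375))) (l 356113187367)))) (a (c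 (l 16775600) (l 16776888)) (b (c (l 16776536) (l 102173246759)) (b (c (l 240685942407) (l 322827190471)) (c (l 356650060023) (l 432885728119)))))) (b (a (a (c (c (c (b (b (a (a (l 16776952) (a (l 16777088) (b (l 16777104) (l 278803775703)))) (a (a (b (l 221358588039) (l 3)) (l 425369534663)) (l 3))) (a (a (b (l 166060884119) (a (l 293836161239) (l 3))) (l 439328178439)) (l 3))) (l 3)) (l 377588023831)) (l 294909904855)) (c (l 286856841159) (l 372756185591))) (l 3)) (l 3)) (l 3))), by decide +kernel⟩

def k56_mm_202_s : ∃ t, chk3 f_mm_202_s t 244 287 1 = true :=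
  ⟨(a (a (c (c (b (c (a (a (c (b (l 16776512) (b (l 16776944) (a (b (l 16777064) (l 218674233575)) (a (b (l 16777280) (l 3)) (l 430738243767))))) (l 129016791607)) (b (a (l 16776792) (b (l 16776832) (b (l 16777048) (l 205789331655)))) (b (a (b (l 16777272) (a (l 269140099271) (l 400136601879))) (l 429664501991)) (l 3)))) (b (b (c (a (a (l 16777016) (a (l 165524013223) (b (l 16777176) (l 377051152647)))) (a (l 418927083735) (l 3))) (l 257865810663)) (a (a (a (b (l 16777184) (l 394767892743)) (l 413558374567)) (l 3)) (l 3))) (l 3))) (a (l 191293817863) (l 388325442151))) (a (c (a (a (b (b (l 438254436615) (l 3)) (l 3)) (l 3)) (l 3)) (l 461339886695)) (l 3))) (b (l 234780362951) (l 465097983511))) (c (c (l 351281349431) (l 351281349415)) (b (a (l 161765917927) (l 384567345735)) (l 473687918055)))) (l 3)) (l 3)), by decide +kernel⟩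

def k57_mm_202_s : ∃ t, chk3 f_mm_202_s t 245 143 1 = true :=
  ⟨(l 3), by decide +kernel⟩

def k58_mm_202_s : ∃ t, chk3 f_mm_202_s t 123 71 1 = true :=
  ⟨(l 3), by decide +kernel⟩

def k59_mm_202_s : ∃ t, chk3 f_mm_202_s t 31 17 1 = true :=
  ⟨(b (a (b (l 14) (b (b (l 14) (b (l 14) (l 3))) (l 3))) (l 3)) (l 3)), by decide +kernel⟩

def k60_mm_202_s : ∃ t, chk3 f_mm_202_s t 120 72 1 = true :=
  ⟨(b (c (c (l 16763112) (l 16773440)) (a (l 16738696) (l 16765664))) (a (c (l 16764720) (l 16764432)) (c (c (l 16777104) (l 16775728)) (c (l 16770416) (l 16770336))))), by decide +kernel⟩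

def k61_mm_202_s : ∃ t, chk3 f_mm_202_s t 121 288 1 = true :=
  ⟨(a (c (c (l 16770664) (l 16770600)) (l 16775728)) (b (c (a (c (l 16777104) (l 16774456)) (c (a (a (b (l 16776032) (l 16777256)) (c (a (b (l 16776584) (c (b (l 125795565735) (a (b (l 16777128) (l 292225548567)) (l 421074567383))) (l 210621170215))) (b (c (a (l 16776856) (b (l 16776896) (b (l 16777112) (l 273971937543)))) (l 16776952)) (a (b (b (l 227264168183) (l 438791307447)) (l 3)) (l 3)))) (l 200957494423))) (a (c (b (a (c (a (b (l 134922371223) (l 408189665479)) (b (b (l 212768653527) (l 422148309159)) (l 3))) (l 270213841623)) (l 3)) (l 3)) (l 398525989575)) (l 3))) (a (l 16776688) (l 423222051975)))) (a (l 16777032) (a (c (l 16776680) (c (l 16776680) (l 135459243207))) (c (l 424832664679) (l 426980148311))))) (a (c (a (l 16774872) (a (l 16777288) (c (c (b (l 16776432) (a (l 16777312) (a (b (l 16776952) (b (l 192367558807) (l 324974674247))) (b (b (l 16777064) (l 222432329959)) (l 441475662087))))) (l 16776720)) (l 16776720)))) (c (l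 16775592) (l 16775576))) (a (a (c (c (c (a (b (a (l 16776896) (b (l 16776936) (b (l 16777312) (l 312089772327)))) (a (b (a (b (l 217600491671) (l 3)) (l 428053889223)) (l 3)) (l 3))) (b (c (b (c (a (l 152102240439) (b (l 268603228343) (l 461339885767))) (l 226727297495)) (a (l 430201372919) (l 3))) (l 283635614439)) (l 3))) (l 344838897943)) (l 259476424407)) (c (l 247665264327) (l 255718327927))) (l 3)) (l 3))))), by decide +kernel⟩

def k62_mm_202_s : ∃ t, chk3 f_mm_202_s t 121 289 1 = true :=
  ⟨(a (c (c (c (a (l 16771496) (l 16777352)) (l 16778176)) (l 16778144)) (c (l 16772856) (l 16772808))) (a (b (c (c (a (c (c (c (a (l 16775664) (b (l 16776112) (l 101099503767))) (l 16777336)) (l 16776024)) (l 16776024)) (c (a (b (a (l 16776656) (a (l 110763180199) (b (l 16776968) (b (l 200420622535) (l 408189665431))))) (c (a (b (a (l 16776992) (b (l 16777104) (l 256255197463))) (a (b (l 215989879015) (l 428590760103)) (l 3))) (b (a (l 399599730871) (l 3)) (l 3))) (l 353428832487))) (b (a (c (b (a (b (l 16777080)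 (l 238001586439)) (b (l 300815483111) (l 3))) (l 458118660503)) (l 364703121623)) (l 3)) (l 3))) (a (l 211694912711) (l 409800278823)))) (a (l 16776016) (l 255181457623))) (c (c (l 169818982583) (l 164987144375)) (a (l 16775984) (a (l 189683205415) (l 409800278775))))) (a (c (c (c (a (b (l 16776512) (c (a (b (l 16776752) (b (l 16776968) (l 149417885895))) (b (a (l 16777024) (b (l 16777136) (l 312626643191))) (a (b (l 272898195655) (l 3)) (l 3)))) (l 197199397591))) (b (c (a (b (l 16776920) (a (l 141901693127) (b (l 234780360951) (l 448454983863)))) (b (a (b (l 16777120) (l 282025001223)) (l 413021503687)) (l 3))) (l 315847868423)) (a (a (b (l 421074567399) (l 3)) (l 3)) (l 3)))) (a (l 16777456) (l 356113187191))) (l 210621171671)) (c (l 199883753271) (a (l 16776784) (l 268066358999)))) (l 3))) (l 3))), by decide +kernel⟩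

def k63_mm_202_s : ∃ t, chk3 f_mm_202_s t 121 290 1 = true :=
  ⟨(a (c (a (c (l 16776376) (l 16773728)) (c (a (c (b (l 16775376) (a (l 16776144) (b (l 16776584) (a (a (l 16776880) (b (l 16776920) (b (l 16777128) (l 283098743095)))) (a (b (l 141901693111) (l 416242729175)) (b (b (l 227264168167) (l 434496340151)) (l 3))))))) (l 112373793991)) (b (b (c (b (l 16777224) (a (l 16776328) (a (l 16776872) (a (b (l 16777072) (l 228874780919)) (b (l 269140099367) (l 3)))))) (l 16776544)) (c (b (a (l 16776608) (a (a (l 16777064) (b (l 198273138855) (l 330880254295))) (l 452749951367))) (a (b (l 16776816) (a (l 16776776) (a (l 16777048) (l 247665262855)))) (a (c (a (l 394231021735) (l 3)) (l 341617672887)) (l 3)))) (l 212231783687))) (a (c (b (b (a (l 117742502055) (a (b (l 208473686231) (l 419463954583)) (l 459729273127))) (a (a (b (l 16777112) (l 264308261159)) (l 402820956359)) (l 3))) (l 3)) (l 367924347351)) (l 3)))) (a (l 16775928) (b (l 16776840) (l 388325442455))))) (a (l 16776944) (a (c (l 16775920) (l 16777872))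 (b (c (l 16776832) (l 153712854519)) (c (l 309942291079) (l 390472926055)))))) (b (b (b (a (a (a (c (c (c (a (a (b (l 16777280) (l 316384739639)) (l 434496340215)) (l 3)) (l 319605965815)) (l 16777392)) (l 319069095047)) (l 3)) (l 3)) (l 3)) (l 3)) (l 3)) (l 3))), by decide +kernel⟩

def k64_mm_202_s : ∃ t, chk3 f_mm_202_s t 121 291 1 = true :=
  ⟨(a (a (c (c (a (c (l 16777264) (l 16775288)) (a (c (b (l 16775816) (b (l 94657052919) (a (a (l 115595018455) (b (l 16776992) (b (l 220284846311) (l 431275114663)))) (b (a (b (l 16777104) (l 260013293847)) (l 400136601783)) (l 3))))) (l 131701146727)) (b (a (l 16777016) (b (l 16776440) (a (l 102173245671) (b (l 16776952) (b (l 182167011527) (l 318532223335)))))) (c (b (c (a (b (a (l 16776976) (a (l 16777112) (l 226727297255))) (a (a (l 238001586407) (l 321216577847)) (l 453286822183))) (b (a (l 391009796247) (l 3)) (l 3))) (l 350207606983)) (l 3)) (l 379735507511))))) (c (a (l 16775280) (l 181630142631)) (l 16778640))) (c (c (l 126869309751) (l 16778632)) (a (l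 16775240) (a (l 16777672) (b (l 16776520) (l 373829927447)))))) (a (b (c (c (c (a (b (c (a (l 16776808) (b (l 131164274887) (a (b (l 16777152) (l 310479159591)) (l 428053889271)))) (l 161765917207)) (c (a (b (c (a (l 160155304151) (l 377588023431)) (l 244444037543)) (l 448454984055)) (l 3)) (l 387251700135))) (b (a (a (b (b (l 243907166471) (l 457581789383)) (l 3)) (l 3)) (l 3)) (l 3))) (a (l 235854103959) (l 433959470039))) (l 349670736359)) (c (l 260550166935) (l 345912639959))) (l 3)) (l 3))) (l 3)), by decide +kernel⟩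

def k65_mm_202_s : ∃ t, chk3 f_mm_202_s t 240 73 1 = true :=
  ⟨(c (b (c (l 16769320) (l 16769248)) (a (c (l 16776320) (l 16772344)) (b (c (l 16776744) (l 16774096)) (a (c (c (c (b (l 16775088) (b (l 16775920) (b (l 16776336) (b (l 103246987399) (a (l 16776328) (a (l 16776856) (a (l 16777128) (l 323364061511)))))))) (l 16776952)) (l 16775640)) (l 16775624)) (c (b (b (l 16777216) (c (a (l 16776432) (c (a (a (l 16776880) (a (l 130090533031) (b (l 16776960) (l 257865810199)))) (b (a (l 16777256) (a (l 250349617415) (l 322827190647))) (l 424832663879))) (l 213305525079))) (l 16776792))) (c (a (a (b (l 16776808) (b (a (l 154786595079) (l 372219314311)) (l 446844371319))) (b (b (l 132774887623) (a (a (l 176261431495) (l 279340646695)) (l 424832663783))) (l 3))) (b (c (a (b (b (l 367387476103) (l 454897434935)) (l 3)) (l 3)) (l 422685180535)) (l 3))) (l 354502574567))) (l 207399947015)))))) (a (c (l 16777880) (l 16777816)) (b (l 16770592) (b (l 16776680) (b (c (l 16775776) (l 16775768)) (a (l 16777488) (c (l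 259476425095) (l 342691414487)))))))), by decide +kernel⟩

def k66_mm_202_s : ∃ t, chk3 f_mm_202_s t 482 73 1 = true :=
  ⟨(b (c (c (c (b (l 16772504) (c (a (l 16774032) (b (l 16774904) (c (l 90898956455) (l 16776024)))) (l 16777368))) (l 16776240)) (l 16776216)) (c (l 16773560) (l 16776144))) (b (c (b (c (a (l 16777016) (c (a (c (b (l 16776504) (a (l 119889985703) (b (a (l 16777016) (a (l 16777312) (l 259476422919))) (c (a (l 359334412391) (l 3)) (l 387788570839))))) (l 144586048199)) (a (a (b (l 114521276631) (b (l 410337149127) (l 3))) (b (b (l 16776992) (a (l 249275875591) (l 321753448823))) (l 3))) (b (b (a (a (l 16777128) (l 242296553719)) (l 395304763575)) (l 3)) (l 3)))) (l 298667999079))) (l 156397209767)) (c (a (c (a (c (a (l 16776288) (a (l 16776560) (b (l 16776456) (b (l 16776872) (l 167134626039))))) (l 16776464)) (a (b (l 16776728) (a (b (l 16777056) (l 384567345303)) (b (a (l 222432329927) (l 290078064967)) (l 3)))) (b (b (l 16776944) (a (l 154249724151) (l 372756185207))) (b (l 442012533111)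 (l 3))))) (l 181093270887)) (c (a (a (b (b (a (a (l 173040206023) (l 275582550311)) (l 422148309223)) (l 3)) (l 3)) (l 3)) (l 3)) (l 436106954039))) (l 324974674263))) (a (c (l 16776264) (l 109689439895)) (b (c (l 197736269591) (l 195588786039)) (c (l 366313737223) (l 442012533991))))) (a (a (b (b (c (c (a (b (l 16777312) (a (b (l 16777104) (l 258939552023)) (b (l 295983644999) (l 3)))) (b (b (a (l 209010557111) (l 445770629319)) (l 422148309255)) (l 3))) (l 16777256)) (l 226190427351)) (l 3)) (l 3)) (l 3)) (l 3)))), by decide +kernel⟩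

def k67_mm_202_s : ∃ t, chk3 f_mm_202_s t 483 73 1 = true :=
  ⟨(b (b (c (c (b (l 16777432) (a (l 16775216) (c (a (l 16776960) (b (a (l 16776560) (a (l 16776832) (a (l 16777296) (b (l 16776920) (l 228874780887))))) (a (b (l 16777312) (a (a (l 16777128) (l 242833424631)) (l 396378505399))) (b (a (b (l 204715589815) (l 341080801623)) (l 451139338519)) (l 3))))) (l 143512306871)))) (l 16777992)) (c (l 16777968) (c (l 16775336) (l 16777952)))) (b (c (c (a (c (c (a (l 16775984) (b (l 16776424) (a (l 16776800) (b (l 127406178503) (a (a (l 168745238727) (l 272898195751)) (l 424295792871)))))) (l 115595018967)) (l 16776344)) (c (a (a (a (b (l 16776872) (b (b (l 237464715511) (l 445770629319)) (l 3))) (b (b (l 16776912) (b (l 16777120) (l 273435066679))) (l 3))) (b (a (b (l 16777296) (l 411410890951)) (b (b (l 217063620839) (l 426443276455)) (l 3))) (l 3))) (l 3)) (l 373293056695))) (a (l 16776336) (l 366850605751))) (a (c (l 16776328) (l 16776320)) (c (l 280414390871) (l 365239992983)))) (a (c (c (c (a (a (c (b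 (l 16776640) (a (b (l 16776968) (a (l 233169748199) (l 315310997815))) (b (l 166060884215) (l 451139338519)))) (l 152102240919)) (a (b (l 16776912) (b (l 383493603479) (l 3))) (b (b (l 16776952) (b (l 16777160) (l 323364061495))) (l 3)))) (b (a (b (a (l 153175982327) (b (l 255181455639) (l 3))) (l 442012533111)) (l 3)) (l 3))) (a (l 210084299943) (l 404431569671))) (l 252497103031)) (c (l 235854104839) (l 321753448711))) (l 3)))) (l 3)), by decide +kernel⟩

def k68_mm_202_s : ∃ t, chk3 f_mm_202_s t 121 73 1 = true :=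
  ⟨(a (a (b (b (c (c (a (b (c (a (c (a (l 16776440) (b (l 16776520) (b (l 16776944) (a (l 153175982327) (l 372219314311))))) (l 16777280)) (a (b (b (l 16776744) (l 131701145799)) (b (a (b (l 16777144) (l 304573579559)) (l 425369534695)) (l 3))) (b (a (b (l 16777016) (b (l 240149070071) (l 449528725703))) (b (b (l 16777128) (l 276656292151)) (l 3))) (l 3)))) (a (l 16776624) (l 250886489543))) (a (c (b (c (a (a (b (l 16777056) (l 386714828951)) (b (b (l 16777328) (l 320142836039)) (l 3))) (b (l 445233758583) (l 3))) (l 366850605367)) (l 3)) (l 392620409495)) (l 3))) (b (a (c (a (a (b (b (l 410874020055) (l 3)) (l 3)) (l 3)) (l 3)) (l 453823693879)) (l 3)) (l 3))) (a (b (l 16777984) (l 418927084631)) (l 461339887783))) (c (c (l 356113188055) (l 355576317143)) (a (b (l 175187691159) (l 421611439143)) (l 468856080455)))) (l 3)) (l 3)) (l 3)) (l 3)), by decide +kernel⟩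

def k69_mm_202_s : ∃ t, chk3 f_mm_202_s t 61 36 1 = true :=
  ⟨(l 3), by decide +kernel⟩

def k70_mm_202_s : ∃ t, chk3 f_mm_202_s t 480 148 1 = true :=
  ⟨(c (b (c (a (l 16776328) (b (l 16777192) (c (b (a (l 16776360) (a (l 125795565751) (b (a (l 16777024) (a (l 16777320) (l 265918873879))) (b (l 370608701575) (l 457581789495))))) (b (a (l 16776776) (a (a (a (l 214379266231) (l 281488130359)) (l 425906405623)) (l 3))) (a (a (l 16776880) (a (l 157470949655) (l 377588023431))) (l 3)))) (l 203641849367)))) (l 123111213319)) (c (a (b (c (a (l 16776984) (b (a (l 16776584) (a (l 16776848) (b (l 16776888) (l 199346880791)))) (c (a (b (l 16777000) (a (l 218137362711) (l 404968440007))) (a (b (a (l 244444037367) (l 325511545159)) (l 3)) (l 457044918743))) (l 264308261783)))) (l 145659790567)) (c (a (a (a (b (l 16776888) (b (l 368461217911) (l 3))) (b (a (l 129553662199) (b (l 16776976) (l 270750712103))) (l 3))) (b (b (a (l 16777272) (a (l 262160777495) (l 333564608903))) (l 428590760279)) (l 3))) (l 3)) (l 373293056727)))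 (b (c (a (b (a (a (b (l 16777064) (l 390472925351)) (b (a (l 229948522711) (l 297057386839)) (l 3))) (a (l 446307500487) (l 3))) (l 3)) (l 3)) (l 409800279159)) (l 3))) (a (l 221358590951) (l 432348858135)))) (c (b (l 104857602295) (a (c (l 209547430567) (l 16778488)) (l 432885729015))) (b (c (l 16775712) (l 96804538215)) (a (b (l 16776680) (l 364166251175)) (l 435570083527))))), by decide +kernel⟩

def k71_mm_202_s : ∃ t, chk3 f_mm_202_s t 481 148 1 = true :=
  ⟨(a (b (c (c (b (c (a (b (l 16777328) (c (a (a (l 16777288) (b (l 16777000) (a (l 256255197447) (l 337322705239)))) (b (a (l 214379266311) (l 402284085431)) (l 3))) (l 244444037927))) (b (a (a (b (l 16776976) (a (l 242296553703) (l 309942288743))) (b (l 165524013351) (l 452749951271))) (a (b (l 387788570775) (l 3)) (l 3))) (l 3))) (l 318532223031)) (c (a (a (b (b (l 426443276615) (l 3)) (l 3)) (l 3)) (l 3)) (l 455434307079))) (l 352891962119)) (b (c (l 216526751799) (l 218137364535)) (l 458655531159))) (l 3)) (l 3)), by decide +kernel⟩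

def k72_mm_202_s : ∃ t, chk3 f_mm_202_s t 241 148 1 = true :=
  ⟨(l 3), by decide +kernel⟩

def k73_mm_202_s : ∃ t, chk3 f_mm_202_s t 120 149 1 = true :=
  ⟨(l 3), by decide +kernel⟩

def k74_mm_202_s : ∃ t, chk3 f_mm_202_s t 120 75 1 = true :=
  ⟨(l 3), by decide +kernel⟩

def k75_mm_202_s : ∃ t, chk3 f_mm_202_s t 121 37 1 = true :=
  ⟨(l 3), by decide +kernel⟩

def k76_mm_202_s : ∃ t, chk3 f_mm_202_s t 61 37 1 = true :=
  ⟨(l 3), by decide +kernel⟩

def k77_mm_202_s : ∃ t, chk3 f_mm_202_s t 31 18 1 = true :=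
  ⟨(l 3), by decide +kernel⟩

def k78_mm_202_s : ∃ t, chk3 f_mm_202_s t 15 19 1 = true :=
  ⟨(l 3), by decide +kernel⟩

def k79_mm_202_s : ∃ t, chk3 f_mm_202_s t 56 20 1 = true :=
  ⟨(b (b (c (c (l 16765536) (l 16765808)) (a (l 16751000) (l 16760464))) (c (a (l 16768592) (a (l 16773992) (b (l 16768440) (b (l 16771440) (l 16777392))))) (a (l 16758680) (c (l 16768168) (l 16768312))))) (b (a (c (c (l 16776448) (l 16766128)) (c (l 16766304) (l 16766504))) (b (c (a (l 16777368) (a (b (l 16774216) (a (l 16775608) (b (l 16776360) (a (l 185925109143) (l 394231021575))))) (c (a (c (b (l 139217339495) (b (l 349133865431) (l 3))) (l 218674235383)) (b (b (a (l 16776536) (l 220821718375)) (l 382956733015)) (l 3))) (l 236927851319)))) (a (l 16771648) (c (c (l 178945792951) (l 174650825639)) (a (l 16775320) (l 226727303847))))) (a (c (c (b (a (l 16773208) (a (l 16775104) (b (l 16775856) (l 178945787335)))) (a (l 16775248) (a (b (l 155860337783) (l 361481896071)) (l 417853342119)))) (l 167671502743)) (c (l 148344149815)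 (l 139754215463))) (a (c (a (b (b (c (l 289004322631) (l 16777120)) (l 461876756327)) (l 3)) (l 3)) (l 436643817911)) (l 3))))) (b (a (c (c (a (l 16769488) (a (l 16773256) (b (l 16774752) (a (l 145659790663) (b (l 195051914775) (l 426443276247)))))) (l 118279378471)) (c (l 16777432) (l 16772288))) (a (a (c (c (b (a (b (l 16776144) (l 223506073399)) (b (l 324437803063) (l 3))) (l 479056625703)) (l 360945023783)) (c (l 246054657607) (l 386714824903))) (l 3)) (l 3))) (a (c (a (c (c (a (l 16772272) (b (l 16773776) (l 147270403863))) (l 16773568)) (l 16773608)) (c (a (c (b (b (l 16775792) (l 273971935863)) (a (l 352355090423) (l 3))) (l 299204870103)) (b (l 443086271671) (l 3))) (l 357186926695))) (a (l 232632860039) (a (c (l 205252466951) (l 207936821527)) (l 472077295527)))) (l 3))))), by decide +kernel⟩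

def k80_mm_202_s : ∃ t, chk3 f_mm_202_s t 56 21 1 = true :=
  ⟨(b (a (a (b (c (b (c (a (b (l 16775344) (a (l 180556400983) (l 390472924679))) (b (c (a (l 299204870119) (l 458118659847)) (l 352891960855)) (l 3))) (l 307257933143)) (c (l 497310233239) (l 494089002935))) (b (c (l 211158049943) (l 306721061271)) (l 484962190295))) (l 3)) (l 3)) (l 3)) (l 3)), by decide +kernel⟩

def k81_mm_202_s : ∃ t, chk3 f_mm_202_s t 57 80 1 = true :=
  ⟨(b (a (c (c (l 16778376) (l 16767992)) (l 16773400)) (a (c (c (a (c (b (l 16773152) (c (l 113984406023) (l 16775184))) (l 16774184)) (a (b (l 16775064) (a (b (l 16776264) (b (l 183240753943) (l 373829927367))) (b (a (l 16776744) (b (l 16776808) (l 260550165351))) (l 422685180247)))) (b (a (l 16777328) (b (l 16776144) (b (l 16777560) (l 347523252487)))) (a (b (b (l 318532223047) (l 3)) (l 3)) (l 3))))) (a (l 16774208) (l 197736273319))) (a (l 16774264) (c (l 178408920567) (b (l 16775760) (l 237464720071))))) (a (b (c (c (c (a (b (a (c (l 158544691815) (l 16776784)) (b (a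 (l 16777008) (l 266455745351)) (l 417316471431))) (a (a (l 386714829399) (l 3)) (l 3))) (l 3)) (l 360408155495)) (l 354502575431)) (l 385104214951)) (l 3)) (l 3)))) (a (a (c (l 16769424) (l 16769624)) (c (c (a (l 16773160) (b (l 16774672) (b (a (l 16775560) (a (l 16776512) (b (l 16776896) (l 344302026999)))) (c (a (c (l 152639112039) (l 16776584)) (a (a (l 334101479623) (l 394767893159)) (l 3))) (l 225653558151))))) (l 136532988183)) (c (l 16779432) (l 109689442743)))) (a (c (a (c (b (c (a (b (l 16776072) (a (l 151565370103) (a (l 310479159303) (l 371145572839)))) (b (a (b (l 16776768) (l 318532223047)) (a (l 359871283591) (l 431275115351))) (l 437180696151))) (l 300278611847)) (a (c (b (a (l 393157280551) (l 3)) (l 3)) (l 424295794599)) (l 3))) (l 338396447591)) (l 3)) (c (l 416242727223) (l 430738238151))) (l 3)))), by decide +kernel⟩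

def k82_mm_202_s : ∃ t, chk3 f_mm_202_s t 57 81 1 = true :=
  ⟨(a (a (c (b (c (c (a (l 16772136) (b (l 16773656) (a (l 16775056) (a (l 16776008) (a (l 148344144711) (b (l 16776288) (l 320679706743))))))) (l 16773432)) (l 16773472)) (c (a (b (l 104857601031) (a (a (l 126869308311) (b (l 16776400) (l 331417125111))) (b (a (l 188072592503) (l 372219314743)) (l 3)))) (b (a (b (l 151565370391) (a (l 311016030263) (l 421611439063))) (a (b (l 349133865399) (l 3)) (l 3))) (l 3))) (a (l 171429597831) (l 377588023159)))) (c (b (l 16773520) (c (l 211158048983) (l 207936823479))) (b (l 16773576) (a (l 148344148647) (l 424295788119))))) (b (c (c (a (b (c (a (l 16775560) (b (l 16776320) (c (a (l 186998850567) (l 372756185719)) (l 247665264519)))) (l 16778840)) (c (a (b (a (l 16777432) (l 332490866935)) (l 412484633847)) (b (l 435570083415) (l 3))) (l 356113188199))) (b (a (b (a (b (l 182703883015) (l 371682443703)) (l 421074568151)) (l 3)) (l 3)) (l 3))) (a (l 217063626807) (l 445233759127))) (a (c (l 201494370327)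 (l 204178724871)) (l 485499071719))) (l 3))) (l 3)), by decide +kernel⟩

def k83_mm_202_s : ∃ t, chk3 f_mm_202_s t 57 41 1 = true :=
  ⟨(a (b (b (a (c (a (a (b (b (l 444696887591) (l 3)) (l 3)) (l 3)) (l 3)) (l 498383967751)) (l 3)) (l 3)) (l 3)) (l 3)), by decide +kernel⟩

def k84_mm_202_s : ∃ t, chk3 f_mm_202_s t 57 21 1 = true :=
  ⟨(l 3), by decide +kernel⟩

def k85_mm_202_s : ∃ t, chk3 f_mm_202_s t 29 10 1 = true :=
  ⟨(l 3), by decide +kernel⟩

def k86_mm_202_s : ∃ t, chk3 f_mm_202_s t 15 10 1 = true :=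
  ⟨(l 3), by decide +kernel⟩

def k87_mm_202_s : ∃ t, chk3 f_mm_202_s t 7 11 1 = true :=
  ⟨(l 3), by decide +kernel⟩

def k88_mm_202_s : ∃ t, chk3 f_mm_202_s t 3 3 1 = true :=
  ⟨(b (a (b (a (b (a (b (c (a (l 16735576) (l 16774248)) (l 16775768)) (a (c (l 16750896) (l 16750728)) (c (a (l 16774736) (b (l 16769392) (l 286856838983))) (b (l 16764808) (a (l 16768064) (l 274508747703)))))) (a (b (c (a (b (l 16762880) (l 16770704)) (b (l 274508775671) (l 358797532823))) (a (b (l 16762784) (l 16770656)) (b (l 254644551447) (l 365239981447)))) (a (b (c (l 322290294231) (l 277729962935)) (l 3)) (l 3))) (b (a (b (c (l 400136588535) (l 394767875623)) (l 3)) (l 3)) (l 3)))) (a (a (c (b (b (l 16762440) (l 273971888791)) (a (b (l 277729998919) (l 385104203495)) (l 397452218407))) (b (b (l 16762368) (l 257865761383)) (a (b (l 16762944) (l 379198621159)) (l 392620374679)))) (b (c (a (b (l 273435015831) (l 399062839207)) (l 409263369943)) (a (b (l 259476371431) (l 394230996663)) (l 404968394455))) (l 3))) (l 3))) (l 3))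 (l 3)) (l 3)) (l 3)), by decide +kernel⟩

theorem s89_mm_202_s : ∃ t, chk3 f_mm_202_s t 57 40 1 = true := ex3_b k81_mm_202_s k82_mm_202_s

theorem s90_mm_202_s : ∃ t, chk3 f_mm_202_s t 57 20 1 = true := ex3_b s89_mm_202_s k83_mm_202_s

theorem s91_mm_202_s : ∃ t, chk3 f_mm_202_s t 57 10 1 = true := ex3_b s90_mm_202_s k84_mm_202_s

theorem s92_mm_202_s : ∃ t, chk3 f_mm_202_s t 56 10 1 = true := ex3_b k79_mm_202_s k80_mm_202_s

theorem s93_mm_202_s : ∃ t, chk3 f_mm_202_s t 28 10 1 = true := ex3_a s92_mm_202_s s91_mm_202_s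

theorem s94_mm_202_s : ∃ t, chk3 f_mm_202_s t 14 10 1 = true := ex3_a s93_mm_202_s k85_mm_202_s

theorem s95_mm_202_s : ∃ t, chk3 f_mm_202_s t 7 10 1 = true := ex3_a s94_mm_202_s k86_mm_202_s

theorem s96_mm_202_s : ∃ t, chk3 f_mm_202_s t 7 5 1 = true := ex3_b s95_mm_202_s k87_mm_202_s

theorem s97_mm_202_s : ∃ t, chk3 f_mm_202_s t 240 148 1 = true := ex3_a k70_mm_202_s k71_mm_202_s

theorem s98_mm_202_s : ∃ t, chk3 f_mm_202_s t 120 148 1 = true := ex3_a s97_mm_202_s k72_mm_202_s

theorem s99_mm_202_s : ∃ t, chk3 f_mm_202_s t 120 74 1 = true := ex3_b s98_mm_202_s k73_mm_202_s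

theorem s100_mm_202_s : ∃ t, chk3 f_mm_202_s t 120 37 1 = true := ex3_b s99_mm_202_s k74_mm_202_s

theorem s101_mm_202_s : ∃ t, chk3 f_mm_202_s t 60 37 1 = true := ex3_a s100_mm_202_s k75_mm_202_s

theorem s102_mm_202_s : ∃ t, chk3 f_mm_202_s t 30 37 1 = true := ex3_a s101_mm_202_s k76_mm_202_s

theorem s103_mm_202_s : ∃ t, chk3 f_mm_202_s t 241 73 1 = true := ex3_a k66_mm_202_s k67_mm_202_s

theorem s104_mm_202_s : ∃ t, chk3 f_mm_202_s t 120 73 1 = true := ex3_a k65_mm_202_s s103_mm_202_s

theorem s105_mm_202_s : ∃ t, chk3 f_mm_202_s t 60 73 1 = true := ex3_a s104_mm_202_s k68_mm_202_s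

theorem s106_mm_202_s : ∃ t, chk3 f_mm_202_s t 121 145 1 = true := ex3_b k63_mm_202_s k64_mm_202_s

theorem s107_mm_202_s : ∃ t, chk3 f_mm_202_s t 121 144 1 = true := ex3_b k61_mm_202_s k62_mm_202_s

theorem s108_mm_202_s : ∃ t, chk3 f_mm_202_s t 121 72 1 = true := ex3_b s107_mm_202_s s106_mm_202_s

theorem s109_mm_202_s : ∃ t, chk3 f_mm_202_s t 60 72 1 = true := ex3_a k60_mm_202_s s108_mm_202_s

theorem s110_mm_202_s : ∃ t, chk3 f_mm_202_s t 60 36 1 = true := ex3_b s109_mm_202_s s105_mm_202_s

theorem s111_mm_202_s : ∃ t, chk3 f_mm_202_s t 30 36 1 = true := ex3_a s110_mm_202_s k69_mm_202_s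

theorem s112_mm_202_s : ∃ t, chk3 f_mm_202_s t 30 18 1 = true := ex3_b s111_mm_202_s s102_mm_202_s

theorem s113_mm_202_s : ∃ t, chk3 f_mm_202_s t 15 18 1 = true := ex3_a s112_mm_202_s k77_mm_202_s

theorem s114_mm_202_s : ∃ t, chk3 f_mm_202_s t 15 9 1 = true := ex3_b s113_mm_202_s k78_mm_202_s

theorem s115_mm_202_s : ∃ t, chk3 f_mm_202_s t 244 143 1 = true := ex3_b k55_mm_202_s k56_mm_202_s

theorem s116_mm_202_s : ∃ t, chk3 f_mm_202_s t 122 143 1 = true := ex3_a s115_mm_202_s k57_mm_202_s

theorem s117_mm_202_s : ∃ t, chk3 f_mm_202_s t 244 142 1 = true := ex3_c k52_mm_202_s k53_mm_202_s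

theorem s118_mm_202_s : ∃ t, chk3 f_mm_202_s t 122 142 1 = true := ex3_a s117_mm_202_s k54_mm_202_s

theorem s119_mm_202_s : ∃ t, chk3 f_mm_202_s t 122 71 1 = true := ex3_b s118_mm_202_s s116_mm_202_s

theorem s120_mm_202_s : ∃ t, chk3 f_mm_202_s t 61 71 1 = true := ex3_a s119_mm_202_s k58_mm_202_s

theorem s121_mm_202_s : ∃ t, chk3 f_mm_202_s t 246 281 1 = true := ex3_b k48_mm_202_s k49_mm_202_s

theorem s122_mm_202_s : ∃ t, chk3 f_mm_202_s t 493 280 1 = true := ex3_b k46_mm_202_s k47_mm_202_s

theorem s123_mm_202_s : ∃ t, chk3 f_mm_202_s t 246 280 1 = true := ex3_a k45_mm_202_s s122_mm_202_s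

theorem s124_mm_202_s : ∃ t, chk3 f_mm_202_s t 246 140 1 = true := ex3_b s123_mm_202_s s121_mm_202_s

theorem s125_mm_202_s : ∃ t, chk3 f_mm_202_s t 246 70 1 = true := ex3_b s124_mm_202_s k50_mm_202_s

theorem s126_mm_202_s : ∃ t, chk3 f_mm_202_s t 123 70 1 = true := ex3_a s125_mm_202_s k51_mm_202_s

theorem s127_mm_202_s : ∃ t, chk3 f_mm_202_s t 245 141 1 = true := ex3_b k43_mm_202_s k44_mm_202_s

theorem s128_mm_202_s : ∃ t, chk3 f_mm_202_s t 122 141 1 = true := ex3_a k42_mm_202_s s127_mm_202_s

theorem s129_mm_202_s : ∃ t, chk3 f_mm_202_s t 122 70 1 = true := ex3_b k41_mm_202_s s128_mm_202_s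

theorem s130_mm_202_s : ∃ t, chk3 f_mm_202_s t 61 70 1 = true := ex3_a s129_mm_202_s s126_mm_202_s

theorem s131_mm_202_s : ∃ t, chk3 f_mm_202_s t 61 35 1 = true := ex3_b s130_mm_202_s s120_mm_202_s

theorem s132_mm_202_s : ∃ t, chk3 f_mm_202_s t 30 35 1 = true := ex3_a k40_mm_202_s s131_mm_202_s

theorem s133_mm_202_s : ∃ t, chk3 f_mm_202_s t 494 139 1 = true := ex3_a k37_mm_202_s k38_mm_202_s

theorem s134_mm_202_s : ∃ t, chk3 f_mm_202_s t 247 139 1 = true := ex3_a s133_mm_202_s k39_mm_202_s

theorem s135_mm_202_s : ∃ t, chk3 f_mm_202_s t 247 69 1 = true := ex3_b k36_mm_202_s s134_mm_202_s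

theorem s136_mm_202_s : ∃ t, chk3 f_mm_202_s t 247 34 1 = true := ex3_b k35_mm_202_s s135_mm_202_s

theorem s137_mm_202_s : ∃ t, chk3 f_mm_202_s t 123 34 1 = true := ex3_a k34_mm_202_s s136_mm_202_s

theorem s138_mm_202_s : ∃ t, chk3 f_mm_202_s t 61 34 1 = true := ex3_a k33_mm_202_s s137_mm_202_s

theorem s139_mm_202_s : ∃ t, chk3 f_mm_202_s t 30 34 1 = true := ex3_a k32_mm_202_s s138_mm_202_s

theorem s140_mm_202_s : ∃ t, chk3 f_mm_202_s t 30 17 1 = true := ex3_b s139_mm_202_s s132_mm_202_s

theorem s141_mm_202_s : ∃ t, chk3 f_mm_202_s t 15 17 1 = true := ex3_a s140_mm_202_s k59_mm_202_s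

theorem s142_mm_202_s : ∃ t, chk3 f_mm_202_s t 15 8 1 = true := ex3_b k31_mm_202_s s141_mm_202_s

theorem s143_mm_202_s : ∃ t, chk3 f_mm_202_s t 15 4 1 = true := ex3_b s142_mm_202_s s114_mm_202_s

theorem s144_mm_202_s : ∃ t, chk3 f_mm_202_s t 58 78 1 = true := ex3_b k27_mm_202_s k28_mm_202_s

theorem s145_mm_202_s : ∃ t, chk3 f_mm_202_s t 58 39 1 = true := ex3_b s144_mm_202_s k29_mm_202_s

theorem s146_mm_202_s : ∃ t, chk3 f_mm_202_s t 29 39 1 = true := ex3_a s145_mm_202_s k30_mm_202_s

theorem s147_mm_202_s : ∃ t, chk3 f_mm_202_s t 29 77 1 = true := ex3_b k25_mm_202_s k26_mm_202_s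

theorem s148_mm_202_s : ∃ t, chk3 f_mm_202_s t 118 76 1 = true := ex3_b k22_mm_202_s k23_mm_202_s

theorem s149_mm_202_s : ∃ t, chk3 f_mm_202_s t 59 76 1 = true := ex3_a s148_mm_202_s k24_mm_202_s

theorem s150_mm_202_s : ∃ t, chk3 f_mm_202_s t 29 76 1 = true := ex3_a k21_mm_202_s s149_mm_202_s

theorem s151_mm_202_s : ∃ t, chk3 f_mm_202_s t 29 38 1 = true := ex3_b s150_mm_202_s s147_mm_202_s

theorem s152_mm_202_s : ∃ t, chk3 f_mm_202_s t 29 19 1 = true := ex3_b s151_mm_202_s s146_mm_202_s

theorem s153_mm_202_s : ∃ t, chk3 f_mm_202_s t 14 19 1 = true := ex3_a k20_mm_202_s s152_mm_202_s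

theorem s154_mm_202_s : ∃ t, chk3 f_mm_202_s t 238 75 1 = true := ex3_a k17_mm_202_s k18_mm_202_s

theorem s155_mm_202_s : ∃ t, chk3 f_mm_202_s t 119 75 1 = true := ex3_a s154_mm_202_s k19_mm_202_s

theorem s156_mm_202_s : ∃ t, chk3 f_mm_202_s t 59 75 1 = true := ex3_a k16_mm_202_s s155_mm_202_s

theorem s157_mm_202_s : ∃ t, chk3 f_mm_202_s t 239 74 1 = true := ex3_a k14_mm_202_s k15_mm_202_s

theorem s158_mm_202_s : ∃ t, chk3 f_mm_202_s t 119 74 1 = true := ex3_a k13_mm_202_s s157_mm_202_s

theorem s159_mm_202_s : ∃ t, chk3 f_mm_202_s t 59 74 1 = true := ex3_a k12_mm_202_s s158_mm_202_s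

theorem s160_mm_202_s : ∃ t, chk3 f_mm_202_s t 59 37 1 = true := ex3_b s159_mm_202_s s156_mm_202_s

theorem s161_mm_202_s : ∃ t, chk3 f_mm_202_s t 29 37 1 = true := ex3_a k11_mm_202_s s160_mm_202_s

theorem s162_mm_202_s : ∃ t, chk3 f_mm_202_s t 29 18 1 = true := ex3_b k10_mm_202_s s161_mm_202_s

theorem s163_mm_202_s : ∃ t, chk3 f_mm_202_s t 14 18 1 = true := ex3_a k9_mm_202_s s162_mm_202_s

theorem s164_mm_202_s : ∃ t, chk3 f_mm_202_s t 14 9 1 = true := ex3_b s163_mm_202_s s153_mm_202_s

theorem s165_mm_202_s : ∃ t, chk3 f_mm_202_s t 14 4 1 = true := ex3_b k8_mm_202_s s164_mm_202_s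

theorem s166_mm_202_s : ∃ t, chk3 f_mm_202_s t 7 4 1 = true := ex3_a s165_mm_202_s s143_mm_202_s

theorem s167_mm_202_s : ∃ t, chk3 f_mm_202_s t 7 2 1 = true := ex3_b s166_mm_202_s s96_mm_202_s

theorem s168_mm_202_s : ∃ t, chk3 f_mm_202_s t 6 11 1 = true := ex3_a k6_mm_202_s k7_mm_202_s

theorem s169_mm_202_s : ∃ t, chk3 f_mm_202_s t 13 10 1 = true := ex3_b k4_mm_202_s k5_mm_202_s

theorem s170_mm_202_s : ∃ t, chk3 f_mm_202_s t 6 10 1 = true := ex3_a k3_mm_202_s s169_mm_202_s

theorem s171_mm_202_s : ∃ t, chk3 f_mm_202_s t 6 5 1 = true := ex3_b s170_mm_202_s s168_mm_202_s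

theorem s172_mm_202_s : ∃ t, chk3 f_mm_202_s t 6 2 1 = true := ex3_b k2_mm_202_s s171_mm_202_s

theorem s173_mm_202_s : ∃ t, chk3 f_mm_202_s t 3 2 1 = true := ex3_a s172_mm_202_s s167_mm_202_s

theorem s174_mm_202_s : ∃ t, chk3 f_mm_202_s t 3 1 1 = true := ex3_b s173_mm_202_s k88_mm_202_s

theorem s175_mm_202_s : ∃ t, chk3 f_mm_202_s t 2 1 1 = true := ex3_a k0_mm_202_s k1_mm_202_s

theorem s176_mm_202_s : ∃ t, chk3 f_mm_202_s t 1 1 1 = true := ex3_a s175_mm_202_s s174_mm_202_s

theorem c_mm_202_s : CertNE 0 536870912 1073741824 536870912 858993459 64424510 3 eng mog cd0q2 cd4q2 pd0 false false false .pp 2 0 2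
    ndB0q2 ndB4q2 pcB0 cut_mm_202_s Ext.none :=
  certNE1 (fam := false) (s1 := false) (s2 := false) (a := 2) (b := 0) (c := 2) (cn := .pp) (n1 := ndB0q2) (n2 := ndB4q2) (pc := pcB0) (cut := cut_mm_202_s) (xt := Ext.none) (P1 := 0) (W1 := 536870912) (P2 := 1073741824) (W2 := 536870912) (P3 := 858993459) (W3 := 64424510) (N0 := 3) (En := eng) (mo := mog) (C1 := cd0q2) (C2 := cd4q2) (C3 := pd0)
    rfl (fun _ => rfl) s176_mm_202_s

noncomputable def cut_mm_203_s : Cut := Cut.of [[⟨4, 0, 0, 1449551462⟩]]

noncomputable def f_mm_203_s : ℕ → ℕ → ℕ → ℕ → Bool := onCell 0 536870912 0 1230186008 858993459 64424510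
    (rowNE 3 eng mog cd0q2 cd4q3 pd0 0 false false false .up 2 0 3 (qsf 0 536870912 0 1230186008 0) ndB0q2 ndB4q3 pcB0 cut_mm_203_s Ext.none)

def k0_mm_203_s : ∃ t, chk3 f_mm_203_s t 1 2 1 = true :=
  ⟨(l 2), by decide +kernel⟩

def k1_mm_203_s : ∃ t, chk3 f_mm_203_s t 1 6 1 = true :=
  ⟨(l 2), by decide +kernel⟩

def k2_mm_203_s : ∃ t, chk3 f_mm_203_s t 2 14 1 = true :=
  ⟨(a (b (l 2) (b (l 2) (a (b (c (l 254577462167) (l 16754240)) (c (l 16722072) (l 16720840))) (a (c (a (b (l 262160721527) (l 16759856)) (b (l 349133843751) (l 273971932439))) (b (a (l 254107657271) (l 356113160711)) (a (l 16759440) (l 275045619959)))) (l 3))))) (l 3)), by decide +kernel⟩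

def k3_mm_203_s : ∃ t, chk3 f_mm_203_s t 2 15 1 = true :=
  ⟨(a (b (b (c (a (l 16742872) (a (b (a (l 16745960) (l 16762088)) (l 16739288)) (b (a (l 289004320359) (l 3)) (a (l 227264128887) (a (l 285246225271) (l 364703099975)))))) (a (l 16701904) (a (b (l 16754336) (l 16740856)) (b (a (l 285783031319) (l 3)) (a (l 214379229415) (a (l 277193101415) (l 359871260375))))))) (a (b (l 16680328) (l 16665968)) (a (c (l 16737088) (l 16719840)) (b (b (a (l 16753848) (c (l 258939505863) (l 248202091063))) (c (l 16754184) (l 16756104))) (c (l 16763104) (l 16745072)))))) (a (b (b (l 16651424) (l 16639664)) (a (b (l 16623352) (l 16617760)) (b (l 16635216) (l 16625848)))) (b (c (a (l 16684736) (b (l 16725792) (l 16709432))) (a (l 16690024) (l 16743064))) (a (l 16656040) (b (l 16695648) (l 16679336)))))) (b (a (a (b (l 3) (c (b (b (l 382956681495) (l 371145538583)) (a (a (l 16765368) (l 268603162119)) (l 371682413399))) (b (c (l 370071786807) (l 365239947863)) (a (b (l 272898139143) (l 16767144)) (l 365239961287)))))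 (l 3)) (l 3)) (b (a (a (b (a (c (l 16753528) (l 16755656)) (b (c (l 284709354343) (l 275582482279)) (c (l 251960184631) (l 238538415319)))) (c (a (l 16736616) (l 16756160)) (a (l 16739832) (l 16757880)))) (a (c (b (l 382419820839) (b (l 315310988567) (l 280414326311))) (b (l 374366755703) (b (l 308331666263) (l 255718268151)))) (l 3))) (l 3)) (b (a (c (a (l 16729296) (a (b (l 16763376) (l 16754512)) (b (l 359334394135) (l 269676944407)))) (a (l 16732456) (a (l 170355820999) (b (l 354502554775) (l 269676900119))))) (l 3)) (a (b (a (l 16718208) (a (l 16746520) (c (l 16766224) (l 16766816)))) (a (l 16709688) (c (l 16767944) (l 16748424)))) (a (a (c (a (b (l 353965690007) (l 16762376)) (l 383493573303)) (a (b (l 277193092135) (l 16752088)) (l 375977377847))) (l 3)) (l 3))))))), by decide +kernel⟩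

def k4_mm_203_s : ∃ t, chk3 f_mm_203_s t 3 7 1 = true :=
  ⟨(l 3), by decide +kernel⟩

theorem s5_mm_203_s : ∃ t, chk3 f_mm_203_s t 2 7 1 = true := ex3_b k2_mm_203_s k3_mm_203_s

theorem s6_mm_203_s : ∃ t, chk3 f_mm_203_s t 1 7 1 = true := ex3_a s5_mm_203_s k4_mm_203_s

theorem s7_mm_203_s : ∃ t, chk3 f_mm_203_s t 1 3 1 = true := ex3_b k1_mm_203_s s6_mm_203_s

theorem s8_mm_203_s : ∃ t, chk3 f_mm_203_s t 1 1 1 = true := ex3_b k0_mm_203_s s7_mm_203_s

theorem c_mm_203_s : CertNE 0 536870912 0 1230186008 858993459 64424510 3 eng mog cd0q2 cd4q3 pd0 false false false .up 2 0 3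
    ndB0q2 ndB4q3 pcB0 cut_mm_203_s Ext.none :=
  certNE0 (fam := false) (s1 := false) (s2 := false) (a := 2) (b := 0) (c := 3) (cn := .up) (n1 := ndB0q2) (n2 := ndB4q3) (pc := pcB0) (cut := cut_mm_203_s) (xt := Ext.none) (P1 := 0) (W1 := 536870912) (P2 := 0) (W2 := 1230186008) (P3 := 858993459) (W3 := 64424510) (N0 := 3) (En := eng) (mo := mog) (C1 := cd0q2) (C2 := cd4q3) (C3 := pd0)
    rfl s8_mm_203_s

noncomputable def cut_mm_213_s : Cut := Cut.of [[⟨4, 0, 0, 1449551462⟩]]

noncomputable def f_mm_213_s : ℕ → ℕ → ℕ → ℕ → Bool := onCell 0 536870912 0 1230186008 858993459 64424510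
    (rowNE 3 eng mog cd0q2 cd4q3 pd1 0 false false false .pnn 2 1 3 (qsf 0 536870912 0 1230186008 1) ndB0q2 ndB4q3 pcB1 cut_mm_213_s Ext.none)

def k0_mm_213_s : ∃ t, chk3 f_mm_213_s t 2 2 1 = true :=
  ⟨(l 3), by decide +kernel⟩

def k1_mm_213_s : ∃ t, chk3 f_mm_213_s t 2 6 1 = true :=
  ⟨(b (l 3) (a (l 3) (l 3))), by decide +kernel⟩

def k2_mm_213_s : ∃ t, chk3 f_mm_213_s t 4 28 1 = true :=
  ⟨(a (b (a (a (c (c (b (l 301352347335) (b (l 279340589223) (l 16764712))) (b (l 307794796535) (l 256792107735))) (c (b (l 315310987351) (b (l 263771329607) (l 16768600))) (b (a (l 289541104039) (l 3)) (b (l 239075269703) (l 16759520))))) (b (l 3) (a (b (l 3) (c (l 292225583799) (l 290078097703))) (l 3)))) (l 3)) (a (b (a (c (c (l 16751456) (l 16765784)) (c (l 16759704) (l 16740976))) (c (c (b (l 273971976007) (l 253033913031)) (l 280414436807)) (a (c (l 254644523175) (l 211157966423)) (c (l 292762351975) (l 285783002823))))) (c (a (c (l 16732448) (l 16757176)) (c (b (l 16760792) (l 16751448)) (l 16767672))) (c (a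 (l 16747936) (l 16742136)) (c (l 16738296) (l 16724816))))) (a (c (b (l 324437788567) (b (l 298131163943) (c (l 280414328135) (l 279340682567)))) (c (b (l 350207581783) (a (l 263234449735) (l 294909829223))) (b (l 367387442583) (b (l 289541101527) (l 268603139015))))) (l 3)))) (l 3)), by decide +kernel⟩

def k3_mm_213_s : ∃ t, chk3 f_mm_213_s t 4 29 1 = true :=
  ⟨(b (a (a (c (c (b (a (l 16711968) (l 16736776)) (l 16702736)) (b (l 16753248) (l 16743192))) (c (b (l 16743848) (l 16732512)) (c (l 16726392) (l 16763896)))) (a (c (c (b (b (l 238001528775) (l 16756088)) (l 16741096)) (b (b (l 16771800) (l 16767384)) (l 16760296))) (b (c (b (l 16769432) (l 16763448)) (b (l 16739680) (l 16748024))) (c (l 16754512) (l 16728488)))) (c (b (b (l 309405407879) (c (l 283098736391) (l 288467493191))) (b (a (l 16748168) (l 272361362919)) (c (l 16760720) (l 16769328)))) (c (b (l 305110399591) (b (l 258939487095) (l 16766688))) (b (b (l 344302006855) (l 281488031287)) (b (l 220284776167) (l 16754696))))))) (a (a (a (b (l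 3) (c (b (l 3) (l 279340687351)) (c (l 288467498199) (l 311552850695)))) (l 3)) (l 3)) (l 3))) (b (a (a (c (b (l 16592816) (l 1)) (c (l 16721712) (l 16612384))) (c (c (c (l 16745616) (l 16741528)) (a (l 16750008) (l 16761920))) (c (a (l 16742984) (l 16757704)) (a (l 16702440) (l 16734992))))) (a (b (a (c (a (c (l 16768992) (l 16773272)) (l 286856881047)) (c (l 281488059127) (l 269140002551))) (l 3)) (b (a (a (c (l 16767200) (l 16762408)) (c (l 261087062679) (l 249812696599))) (l 3)) (l 1))) (l 3))) (l 1))), by decide +kernel⟩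

def k4_mm_213_s : ∃ t, chk3 f_mm_213_s t 4 15 1 = true :=
  ⟨(l 1), by decide +kernel⟩

def k5_mm_213_s : ∃ t, chk3 f_mm_213_s t 5 7 1 = true :=
  ⟨(b (l 3) (b (a (l 1) (l 3)) (l 1))), by decide +kernel⟩

def k6_mm_213_s : ∃ t, chk3 f_mm_213_s t 3 1 1 = true :=
  ⟨(b (b (l 5) (l 3)) (b (l 3) (l 3))), by decide +kernel⟩

theorem s7_mm_213_s : ∃ t, chk3 f_mm_213_s t 4 14 1 = true := ex3_b k2_mm_213_s k3_mm_213_s

theorem s8_mm_213_s : ∃ t, chk3 f_mm_213_s t 4 7 1 = true := ex3_b s7_mm_213_s k4_mm_213_s

theorem s9_mm_213_s : ∃ t, chk3 f_mm_213_s t 2 7 1 = true := ex3_a s8_mm_213_s k5_mm_213_s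

theorem s10_mm_213_s : ∃ t, chk3 f_mm_213_s t 2 3 1 = true := ex3_b k1_mm_213_s s9_mm_213_s

theorem s11_mm_213_s : ∃ t, chk3 f_mm_213_s t 2 1 1 = true := ex3_b k0_mm_213_s s10_mm_213_s

theorem s12_mm_213_s : ∃ t, chk3 f_mm_213_s t 1 1 1 = true := ex3_a s11_mm_213_s k6_mm_213_s

theorem c_mm_213_s : CertNE 0 536870912 0 1230186008 858993459 64424510 3 eng mog cd0q2 cd4q3 pd1 false false false .pnn 2 1 3
    ndB0q2 ndB4q3 pcB1 cut_mm_213_s Ext.none :=
  certNE0 (fam := false) (s1 := false) (s2 := false) (a := 2) (b := 1) (c := 3) (cn := .pnn) (n1 := ndB0q2) (n2 := ndB4q3) (pc := pcB1) (cut := cut_mm_213_s) (xt := Ext.none) (P1 := 0) (W1 := 536870912) (P2 := 0) (W2 := 1230186008) (P3 := 858993459) (W3 := 64424510) (N0 := 3) (En := eng) (mo := mog) (C1 := cd0q2) (C2 := cd4q3) (C3 := pd1)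
    rfl s12_mm_213_s

end Pool.Agent.Strip051.G.I8000_8600.Tab.CS.BB04

namespace Pool.Agent.Strip051.G.I8000_8600.Tab.CS.BB40

open Pool.Agent.Strip051.PB Pool.Agent.Strip051.PB.T
open Pool.Agent.Strip051.G.I8000_8600.Tab

noncomputable def cut_pp_001_s : Cut := Cut.of [[⟨4, 0, 0, 1449551462⟩]]

noncomputable def f_pp_001_s : ℕ → ℕ → ℕ → ℕ → Bool := onCell 0 536870912 536870912 536870912 858993459 64424510
    (rowNE 3 eng mog cd4q0 cd0q1 pd0 2 false true true .up 0 0 1 (qsf 0 536870912 536870912 536870912 0) ndB4q0 ndB0q1 pcB0 cut_pp_001_s Ext.none)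

def k0_pp_001_s : ∃ t, chk3 f_pp_001_s t 2 1 1 = true :=
  ⟨(b (l 3) (b (b (l 3) (l 2)) (l 2))), by decide +kernel⟩

def k1_pp_001_s : ∃ t, chk3 f_pp_001_s t 3 2 1 = true :=
  ⟨(a (l 3) (b (l 3) (a (a (b (l 3) (b (l 3) (a (a (l 3) (b (l 3) (c (l 479056596711) (l 464561081431)))) (a (b (l 3) (c (a (l 370071800855) (l 283098676647)) (l 303499756647))) (b (c (l 496236455303) (l 477445973479)) (c (l 231022215575) (l 229948476647))))))) (b (l 3) (b (b (l 3) (a (l 3) (c (b (a (l 3) (l 312089709719)) (a (l 311015971895) (l 16769656))) (b (l 453823669239) (l 306184129383))))) (c (b (a (b (a (l 508584497351) (l 308868492775)) (a (l 306721013927) (l 16765312))) (b (l 16762328) (l 16749672))) (a (l 16772264) (l 16730544))) (b (a (b (l 399599694311) (l 264845079191)) (l 137069827079)) (a (l 16753448) (l 16734152))))))) (b (b (a (l 3) (b (l 3) (a (l 3) (b (l 3) (a (l 3) (c (l 311015986407) (l 309942238647))))))) (a (b (l 3) (a (l 3) (c (b (l 490867752887) (a (l 483888443799) (l 307794764295))) (b (l 485499041271) (l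 368461187047))))) (b (a (b (l 3) (a (l 3) (c (l 309942247431) (l 16754240)))) (c (b (a (l 310479116951) (l 16771216)) (l 16765536)) (b (l 304036652839) (l 16763208)))) (a (c (b (a (l 307794764775) (l 16768448)) (l 16762248)) (b (l 258402634279) (l 16761240))) (a (l 16773936) (l 16722696)))))) (b (b (c (a (a (b (l 486572788999) (a (l 453286807191) (l 16760320))) (b (a (l 280951220215) (l 16765168)) (l 16758424))) (c (l 16779408) (l 16756928))) (a (a (b (l 468319177543) (l 307794735847)) (b (l 230485350983) (l 16758856))) (l 16776304))) (a (a (c (c (l 170892686263) (l 168208333063)) (b (l 16767056) (l 16755664))) (c (b (l 16746696) (l 16734720)) (l 16741992))) (a (c (l 16722288) (l 16722408)) (l 16703712)))) (b (a (c (a (l 16735648) (l 16716232)) (l 16770752)) (a (l 16698784) (l 16680408))) (a (a (l 16712704) (l 16693528)) (a (l 16674800) (l 16656552))))))))), by decide +kernel⟩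

def k2_pp_001_s : ∃ t, chk3 f_pp_001_s t 6 6 1 = true :=
  ⟨(a (b (b (l 3) (a (l 3) (b (l 3) (a (l 3) (b (l 3) (c (a (l 504289524503) (l 333564583575)) (a (l 498383939543) (l 295446703719)))))))) (b (a (l 2) (a (l 2) (a (l 2) (b (c (l 16758656) (l 16758752)) (l 2))))) (l 2))) (a (b (b (l 3) (a (b (b (l 3) (c (l 495162735575) (l 490330871895))) (c (b (a (l 428590745895) (l 16756240)) (l 159081536199)) (b (a (l 438254420551) (l 16772064)) (l 16763944)))) (b (b (a (b (l 3) (l 498920835783)) (c (l 299741677143) (l 299204807559))) (c (a (l 297594204583) (l 16765088)) (l 287393650583))) (c (l 16771472) (l 16771968))))) (a (b (b (c (l 16765056) (l 16765288)) (l 16749368)) (l 2)) (b (c (l 16766712) (b (l 16724912) (l 16698640))) (l 16722672)))) (a (b (b (b (l 3) (c (b (l 491404622615) (a (l 409800266279) (l 16771088))) (b (l 484962169127) (a (l 302426021287) (l 16771320))))) (b (c (b (l 16763040) (l 16749920)) (b (l 16763520) (l 16750664))) (c (l 16730456) (l 16731424)))) (b (b (l 16705152) (l 16679376)) (l 16640848)))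 (b (b (b (b (l 3) (a (b (l 3) (l 485499058055)) (c (l 303499783559) (l 300815431623)))) (b (c (l 260550111991) (l 253033921687)) (c (l 16755656) (l 16756552)))) (b (c (l 16736096) (l 16737480)) (l 16711144))) (b (l 16730680) (l 16621936)))))), by decide +kernel⟩

def k3_pp_001_s : ∃ t, chk3 f_pp_001_s t 7 6 1 = true :=
  ⟨(b (b (b (a (a (c (a (b (l 303499767671) (l 16761072)) (l 16746640)) (a (b (l 300278543863) (l 16762008)) (l 16748648))) (a (c (l 16725728) (l 16729288)) (l 16707648))) (a (a (l 16688192) (l 16669152)) (l 16641392))) (a (a (a (c (l 16741544) (l 16743280)) (l 16759720)) (a (l 16702440) (l 16682768))) (a (l 16706392) (l 16616952)))) (a (c (a (b (l 16747544) (l 16680304)) (l 16673552)) (a (b (l 16750416) (l 16683128)) (l 16720640))) (a (a (l 16626224) (l 16607448)) (l 16580016)))) (b (a (a (a (l 16674552) (l 16634232)) (a (l 16614992) (l 16595912))) (a (l 16567936) (l 16531432))) (a (a (l 16656880) (l 16556264)) (a (l 16519184) (l 16483056))))), by decide +kernel⟩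

def k4_pp_001_s : ∃ t, chk3 f_pp_001_s t 3 7 1 = true :=
  ⟨(a (b (a (l 2) (b (a (l 2) (l 16663896)) (l 2))) (l 2)) (b (a (b (a (l 16543136) (l 16506400)) (a (l 16492560) (l 16456776))) (b (a (l 16470008) (l 16434384)) (a (l 16421264) (l 16386456)))) (a (b (a (l 2) (l 140760435703)) (l 2)) (b (a (l 16498072) (l 6)) (l 6))))), by decide +kernel⟩

theorem s5_pp_001_s : ∃ t, chk3 f_pp_001_s t 3 6 1 = true := ex3_a k2_pp_001_s k3_pp_001_s

theorem s6_pp_001_s : ∃ t, chk3 f_pp_001_s t 3 3 1 = true := ex3_b s5_pp_001_s k4_pp_001_s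

theorem s7_pp_001_s : ∃ t, chk3 f_pp_001_s t 3 1 1 = true := ex3_b k1_pp_001_s s6_pp_001_s

theorem s8_pp_001_s : ∃ t, chk3 f_pp_001_s t 1 1 1 = true := ex3_a k0_pp_001_s s7_pp_001_s

theorem c_pp_001_s : CertNE 0 536870912 536870912 536870912 858993459 64424510 3 eng mog cd4q0 cd0q1 pd0 false true true .up 0 0 1
    ndB4q0 ndB0q1 pcB0 cut_pp_001_s Ext.none :=
  certNE2 (fam := false) (s1 := true) (s2 := true) (a := 0) (b := 0) (c := 1) (cn := .up) (n1 := ndB4q0) (n2 := ndB0q1) (pc := pcB0) (cut := cut_pp_001_s) (xt := Ext.none) (P1 := 0) (W1 := 536870912) (P2 := 536870912) (W2 := 536870912) (P3 := 858993459) (W3 := 64424510) (N0 := 3) (En := eng) (mo := mog) (C1 := cd4q0) (C2 := cd0q1) (C3 := pd0)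
    rfl (fun _ => rfl) s8_pp_001_s

noncomputable def cut_pp_011_s : Cut := Cut.of [[⟨4, 0, 0, 1449551462⟩]]

noncomputable def f_pp_011_s : ℕ → ℕ → ℕ → ℕ → Bool := onCell 536870912 536870912 536870912 536870912 858993459 64424510
    (rowNE 3 eng mog cd4q0 cd0q1 pd1 2 false true true .pnn 0 1 1 (qsf 0 536870912 536870912 536870912 1) ndB4q0 ndB0q1 pcB1 cut_pp_011_s Ext.none)

def k0_pp_011_s : ∃ t, chk3 f_pp_011_s t 8 4 1 = true :=
  ⟨(b (l 3) (a (b (l 3) (a (l 3) (b (l 3) (a (l 3) (a (l 3) (c (c (l 464024222471) (l 469929801543)) (l 441475631287))))))) (b (a (l 3) (b (l 3) (a (l 3) (b (l 3) (a (l 3) (c (l 323900880007) (l 322290268903))))))) (b (a (a (l 3) (a (l 3) (c (c (l 487646540951) (l 493552120023)) (l 471003540279)))) (c (a (b (a (l 3) (l 322290267079)) (c (a (l 291688636567) (l 16769568)) (l 251423314359))) (b (c (a (l 295446732391) (l 16770024)) (l 251960184999)) (c (l 16758656) (l 16761872)))) (a (b (l 439328151015) (a (l 302962922439) (l 16752360))) (b (c (l 273435024439) (l 293836119031))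 (c (l 16765472) (l 16769504)))))) (c (c (a (a (b (l 441475648503) (a (l 277193122903) (l 16768136))) (b (a (l 285246186087) (l 16768944)) (l 16756968))) (a (b (l 16757912) (l 16721256)) (b (l 16722336) (l 16727736)))) (a (a (b (l 447918098695) (l 227264125047)) (b (l 231559091287) (l 16760528))) (a (l 16775784) (l 16742760)))) (a (a (b (a (l 3) (l 310479109735)) (c (l 16758352) (l 16754736))) (b (c (l 252497060151) (l 16756400)) (c (l 16764552) (l 16769112)))) (c (a (l 16760152) (l 16750920)) (a (l 16766160) (l 16760064))))))))), by decide +kernel⟩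

def k1_pp_011_s : ∃ t, chk3 f_pp_011_s t 8 20 1 = true :=
  ⟨(b (a (a (a (l 3) (c (a (l 488720275975) (c (l 430201336455) (l 437180678295))) (c (l 450602444807) (l 447381218151)))) (c (c (a (b (l 415168976071) (a (l 16762728) (l 16765920))) (b (a (l 262697609943) (l 16767136)) (l 16754368))) (a (b (l 312089710359) (l 213305484151)) (b (l 221358546103) (l 16758408)))) (a (b (a (l 3) (l 309405368519)) (a (l 274508766663) (l 16771472))) (b (c (l 16752488) (l 16754296)) (c (l 16763016) (l 16768368)))))) (a (c (c (c (a (l 16746344) (l 16709936)) (l 16762600)) (c (l 16765864) (l 16748368))) (c (a (l 16758720) (l 16749440)) (a (l 16765552) (l 16759608)))) (c (c (a (b (l 16726280) (l 16710032)) (l 16703840)) (l 16743512)) (c (l 16735648) (l 16750512))))) (c (c (a (a (a (b (l 311552834919) (a (l 16770888) (l 16763312))) (b (b (l 16759328) (l 16764320)) (l 16751560))) (c (a (l 16743240) (l 16727040)) (l 16759456))) (a (a (b (l 16722416) (l 16705176)) (l 16699376)) (a (l 16685104) (l 16671072)))) (a (a (a (b (l 311015969303)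 (l 16768888)) (b (l 16759456) (l 16755912))) (b (l 16771624) (l 16757368))) (a (a (l 16725088) (l 16713088)) (l 16674440)))) (a (a (a (b (a (l 315310943607) (l 308331627367)) (a (l 16758560) (l 16770128))) (b (a (l 271824413319) (l 16770792)) (c (l 16760760) (l 16767168)))) (c (a (l 16756552) (l 16747104)) (a (l 16764488) (l 16758568)))) (c (a (l 16733216) (l 16715160)) (a (l 16749720) (l 16737856)))))), by decide +kernel⟩

def k2_pp_011_s : ∃ t, chk3 f_pp_011_s t 8 21 1 = true :=
  ⟨(c (b (a (a (c (c (a (l 16739456) (l 16723368)) (l 16756192)) (a (l 16747464) (l 16713632))) (c (c (l 16720456) (l 16705752)) (a (l 16721760) (l 16708872)))) (c (a (c (l 16667832) (l 16676400)) (l 16642888)) (a (l 16689656) (l 16666584)))) (a (a (c (a (l 16703960) (l 16688784)) (a (l 16717704) (l 16705080))) (c (l 16729096) (l 16686216))) (a (c (l 16636184) (l 16660824)) (c (l 16606192) (l 16635064))))) (c (a (a (b (a (l 16753352) (l 16743600)) (l 16725336)) (b (l 16708472) (l 16705448))) (a (l 16762464) (l 16640144))) (a (a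 (b (a (l 16763032) (l 16757032)) (l 16746496)) (b (l 16748256) (l 16734976))) (a (l 16751112) (l 16718504))))), by decide +kernel⟩

def k3_pp_011_s : ∃ t, chk3 f_pp_011_s t 8 11 1 = true :=
  ⟨(c (a (b (c (a (b (l 16699136) (l 16616600)) (b (l 16627504) (l 16587448))) (a (b (l 16680648) (l 16649048)) (b (l 16655832) (l 16624648)))) (a (c (a (l 16560928) (l 16546848)) (l 16600464)) (c (l 16567624) (l 16576808)))) (b (c (a (b (l 16597936) (l 16558328)) (b (l 16568376) (l 16529144))) (a (b (l 16630824) (l 16600000)) (l 16590408))) (c (a (l 16497384) (l 16468864)) (a (l 16552768) (l 16528256))))) (c (b (a (a (a (l 16675416) (l 16686464)) (l 16649792)) (a (l 16649216) (l 16632128))) (a (a (l 16645384) (l 16625904)) (l 16572400))) (b (a (a (l 16725584) (l 16714480)) (c (l 16686608) (l 16707328))) (a (a (l 16692680) (l 16682288)) (l 16667056))))), by decide +kernel⟩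

def k4_pp_011_s : ∃ t, chk3 f_pp_011_s t 9 4 1 = true :=
  ⟨(a (a (b (l 3) (b (b (a (l 3) (b (l 3) (a (l 3) (c (l 324974621767) (l 323900881239))))) (c (a (b (a (l 3) (l 324974621879)) (c (a (l 297594215911) (l 16770336)) (l 250886442839))) (b (c (a (l 295983603127) (l 16770496)) (l 247128346535)) (c (l 16759560) (l 16762536)))) (a (b (l 464024212167) (c (l 271824411431) (l 292225505879))) (b (c (l 268603185799) (l 289541151111)) (c (l 16765864) (l 16769552)))))) (c (c (b (a (b (l 16759208) (l 16723168)) (b (l 16702800) (l 16729776))) (a (b (l 16728896) (l 16713432)) (l 16706952))) (b (c (l 16769488) (l 16772448)) (c (l 16680064) (l 16706800)))) (c (b (a (l 16760936) (l 16751616)) (l 16737040)) (b (a (l 16766384) (l 16760048)) (l 16750640)))))) (b (l 1) (b (a (b (a (b (l 1) (c (c (l 267395227255) (l 16758656)) (l 274911416887))) (l 1)) (c (c (b (l 16759800) (l 16703176)) (b (l 16762672) (l 16729488))) (c (l 16761128) (l 16766216)))) (b (l 1) (c (c (c (l 271690051799) (l 270079452855)) (l 16744688)) (c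 (l 16751760) (l 16759600))))) (c (c (b (a (b (l 16730392) (l 16715528)) (l 16708712)) (l 16769704)) (a (b (l 16690096) (l 16707144)) (b (l 16720048) (l 16695320)))) (c (b (l 16758432) (l 16697456)) (b (l 16750160) (l 16737576))))))) (b (l 1) (a (b (b (l 1) (a (a (c (l 278132468711) (l 16707688)) (l 1)) (l 1))) (c (c (b (l 16771944) (l 16657912)) (b (a (l 16708152) (l 16696584)) (l 16677424))) (b (c (l 16676496) (l 16736256)) (a (l 16715440) (l 16685928))))) (b (l 1) (c (c (b (l 16662776) (l 16631112)) (b (l 16680224) (l 16654040))) (c (l 284037880887) (l 16714816))))))), by decide +kernel⟩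

def k5_pp_011_s : ∃ t, chk3 f_pp_011_s t 9 5 1 = true :=
  ⟨(a (b (c (c (b (a (b (a (l 16689728) (l 16675776)) (l 16650360)) (b (l 16655032) (l 16623280))) (a (b (l 16615888) (l 16577424)) (l 16607696))) (b (a (b (l 16657088) (l 16672344)) (b (l 16675744) (l 16649496))) (a (b (l 16644048) (l 16612928)) (l 16606608)))) (b (c (c (a (l 16659768) (l 16682168)) (l 16767216)) (c (l 16780520) (b (l 16737712) (l 16706136)))) (c (a (l 16664672) (l 16646984)) (c (l 16666712) (l 16710952))))) (b (c (a (b (l 16496056) (l 16524432)) (c (l 16489664) (l 16539128))) (c (l 16502080) (l 16674400))) (c (c (a (l 16440096) (l 16410992)) (a (l 16503136) (l 16477312))) (c (l 16549000) (l 16644928))))) (b (c (b (c (a (b (l 16627664) (l 16596520)) (b (l 16600336) (l 16569832))) (b (a (l 16652368) (l 16628616)) (a (l 16626568) (l 16603272)))) (a (b (l 16475960) (l 16547360)) (c (l 16519736) (l 16561992)))) (c (a (b (l 16628216) (l 16628720)) (b (l 16650504) (l 16609592))) (b (c (l 16623968) (l 16705848)) (l 16670512)))) (c (b (c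 (a (l 16463096) (l 16439504)) (a (l 16518464) (l 16497424))) (c (l 16408560) (l 16437272))) (c (b (l 16571896) (l 16516104)) (b (l 16624120) (l 16617072)))))), by decide +kernel⟩

def k6_pp_011_s : ∃ t, chk3 f_pp_011_s t 5 2 1 = true :=
  ⟨(b (a (b (l 1) (b (l 1) (b (l 1) (a (a (a (a (l 303901907863) (l 1)) (l 1)) (l 1)) (l 1))))) (l 1)) (b (b (a (a (c (c (a (b (l 16574312) (l 16542952)) (l 16598552)) (a (l 16592656) (l 16570456))) (a (a (l 16550376) (l 16540752)) (l 270078953223))) (a (a (c (l 230350705687) (l 16553520)) (l 1)) (l 1))) (l 1)) (a (c (a (a (c (l 16494000) (l 16538880)) (c (l 16467976) (l 16514936))) (c (a (l 16442640) (l 16419344)) (a (l 16490800) (l 16467624)))) (a (c (l 16494536) (l 16572808)) (c (l 16533816) (l 16594016)))) (a (a (c (l 242161650007) (l 16529264)) (l 1)) (l 1)))) (b (a (c (a (c (a (l 16415776) (l 16391768)) (l 16464456)) (c (l 16479264) (l 16416480))) (c (a (l 16532800) (l 16487392)) (a (l 16609448) (l 16566304)))) (c (a (c (l 16345768) (l 16366208)) (c (l 16266472) (l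 16322544))) (a (c (l 16436680) (l 16515240)) (l 359735851255)))) (a (a (c (c (l 16311560) (l 16390008)) (c (l 16478848) (l 16579728))) (c (c (l 16266712) (l 16345960)) (l 16295192))) (c (a (c (l 16216016) (l 16294744)) (c (l 16169160) (l 16242712))) (a (l 16242800) (l 16161616))))))), by decide +kernel⟩

def k7_pp_011_s : ∃ t, chk3 f_pp_011_s t 4 3 1 = true :=
  ⟨(b (a (a (b (c (b (a (c (b (l 16491240) (l 16449376)) (l 16535520)) (b (l 16496472) (l 16460144))) (c (a (l 16427968) (l 16382464)) (l 16460320))) (b (c (l 16588424) (l 16646544)) (c (l 16540584) (l 16596072)))) (c (b (c (c (l 16263864) (l 16316192)) (l 16396896)) (c (c (l 16173008) (l 16235960)) (l 16333016))) (b (l 16355480) (l 16361288)))) (b (b (c (c (a (l 16248736) (l 16431224)) (l 16478048)) (c (l 16548488) (l 16627288))) (c (c (a (l 16336560) (l 16311040)) (l 16416704)) (l 16402104))) (b (c (c (l 16370152) (l 16356336)) (l 16413768)) (c (c (c (l 16131168) (l 16196120)) (l 16295800)) (l 16399504))))) (b (c (a (b (c (l 16368224) (l 16429200))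 (c (l 16355168) (l 16369736))) (b (c (l 16289856) (l 16376976)) (c (l 16237176) (l 16318848)))) (c (b (a (l 16501504) (l 16455984)) (a (l 16456872) (l 16409904))) (a (b (l 16607048) (l 16560048)) (l 16434600)))) (c (c (a (b (l 16238048) (l 16119712)) (b (l 16144576) (l 16072448))) (a (b (l 16311824) (l 16254224)) (l 16406832))) (c (a (l 16389920) (l 16344200)) (a (l 16473520) (l 16456200)))))) (b (b (a (a (c (c (c (l 16078160) (l 16152712)) (l 16267672)) (l 16320128)) (c (c (c (l 16041544) (l 16117512)) (l 16234088)) (l 16379976))) (l 6)) (b (a (a (c (c (l 16046016) (l 16217992)) (l 16354744)) (l 6)) (l 6)) (l 6))) (l 6))), by decide +kernel⟩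

def k8_pp_011_s : ∃ t, chk3 f_pp_011_s t 5 3 1 = true :=
  ⟨(b (a (a (b (c (b (c (l 16230336) (l 16320752)) (c (l 16158528) (l 16263664))) (c (l 16207016) (l 16440128))) (b (c (c (l 16089552) (l 16209120)) (l 16385064)) (l 6))) (b (c (b (c (l 16167864) (l 16264272)) (c (l 16097320) (l 16203072))) (b (l 16349496) (l 16373640))) (l 6))) (b (a (c (c (b (l 16124840) (l 16032032)) (l 16195448)) (b (l 16318912) (l 16322664))) (b (b (c (l 16140448) (l 16333296)) (l 6)) (l 6))) (l 6))) (l 6)), by decide +kernel⟩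

def k9_pp_011_s : ∃ t, chk3 f_pp_011_s t 3 1 1 = true :=
  ⟨(b (a (b (l 1) (b (l 1) (b (l 1) (b (l 1) (b (l 1) (l 6)))))) (l 1)) (a (b (a (l 6) (l 6)) (l 6)) (l 6))), by decide +kernel⟩

theorem s10_pp_011_s : ∃ t, chk3 f_pp_011_s t 2 3 1 = true := ex3_a k7_pp_011_s k8_pp_011_s

theorem s11_pp_011_s : ∃ t, chk3 f_pp_011_s t 9 2 1 = true := ex3_b k4_pp_011_s k5_pp_011_s

theorem s12_pp_011_s : ∃ t, chk3 f_pp_011_s t 8 10 1 = true := ex3_b k1_pp_011_s k2_pp_011_s

theorem s13_pp_011_s : ∃ t, chk3 f_pp_011_s t 8 5 1 = true := ex3_b s12_pp_011_s k3_pp_011_s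

theorem s14_pp_011_s : ∃ t, chk3 f_pp_011_s t 8 2 1 = true := ex3_b k0_pp_011_s s13_pp_011_s

theorem s15_pp_011_s : ∃ t, chk3 f_pp_011_s t 4 2 1 = true := ex3_a s14_pp_011_s s11_pp_011_s

theorem s16_pp_011_s : ∃ t, chk3 f_pp_011_s t 2 2 1 = true := ex3_a s15_pp_011_s k6_pp_011_s

theorem s17_pp_011_s : ∃ t, chk3 f_pp_011_s t 2 1 1 = true := ex3_b s16_pp_011_s s10_pp_011_s

theorem s18_pp_011_s : ∃ t, chk3 f_pp_011_s t 1 1 1 = true := ex3_a s17_pp_011_s k9_pp_011_s

theorem c_pp_011_s : CertNE 0 536870912 536870912 536870912 858993459 64424510 3 eng mog cd4q0 cd0q1 pd1 false true true .pnn 0 1 1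
    ndB4q0 ndB0q1 pcB1 cut_pp_011_s Ext.none :=
  certNE2 (fam := false) (s1 := true) (s2 := true) (a := 0) (b := 1) (c := 1) (cn := .pnn) (n1 := ndB4q0) (n2 := ndB0q1) (pc := pcB1) (cut := cut_pp_011_s) (xt := Ext.none) (P1 := 0) (W1 := 536870912) (P2 := 536870912) (W2 := 536870912) (P3 := 858993459) (W3 := 64424510) (N0 := 3) (En := eng) (mo := mog) (C1 := cd4q0) (C2 := cd0q1) (C3 := pd1)
    rfl (fun _ => rfl) s18_pp_011_s

noncomputable def cut_pp_012_s : Cut := Cut.of [[⟨4, 0, 0, 1449551462⟩]]

noncomputable def f_pp_012_s : ℕ → ℕ → ℕ → ℕ → Bool := onCell 0 536870912 0 536870912 858993459 64424510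
    (rowNE 3 eng mog cd4q0 cd0q2 pd1 0 false true true .pnp 0 1 2 (qsf 0 536870912 0 536870912 1) ndB4q0 ndB0q2 pcB1 cut_pp_012_s Ext.none)

def k0_pp_012_s : ∃ t, chk3 f_pp_012_s t 1 1 1 = true :=
  ⟨(a (l 6) (l 6)), by decide +kernel⟩

theorem c_pp_012_s : CertNE 0 536870912 0 536870912 858993459 64424510 3 eng mog cd4q0 cd0q2 pd1 false true true .pnp 0 1 2
    ndB4q0 ndB0q2 pcB1 cut_pp_012_s Ext.none :=
  certNE0 (fam := false) (s1 := true) (s2 := true) (a := 0) (b := 1) (c := 2) (cn := .pnp) (n1 := ndB4q0) (n2 := ndB0q2) (pc := pcB1) (cut := cut_pp_012_s) (xt := Ext.none) (P1 := 0) (W1 := 536870912) (P2 := 0) (W2 := 536870912) (P3 := 858993459) (W3 := 64424510) (N0 := 3) (En := eng) (mo := mog) (C1 := cd4q0) (C2 := cd0q2) (C3 := pd1)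
    rfl k0_pp_012_s

noncomputable def cut_pp_022_s : Cut := Cut.of [[⟨4, 0, 0, 1449551462⟩]]

noncomputable def f_pp_022_s : ℕ → ℕ → ℕ → ℕ → Bool := onCell 1073741824 536870912 0 536870912 858993459 64424510
    (rowNE 3 eng mog cd4q0 cd0q2 pd2 2 false true true .pp 0 2 2 (qsf 0 536870912 0 536870912 2) ndB4q0 ndB0q2 pcB2 cut_pp_022_s Ext.none)

def k0_pp_022_s : ∃ t, chk3 f_pp_022_s t 1 1 1 = true :=
  ⟨(l 6), by decide +kernel⟩

theorem c_pp_022_s : CertNE 0 536870912 0 536870912 858993459 64424510 3 eng mog cd4q0 cd0q2 pd2 false true true .pp 0 2 2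
    ndB4q0 ndB0q2 pcB2 cut_pp_022_s Ext.none :=
  certNE2 (fam := false) (s1 := true) (s2 := true) (a := 0) (b := 2) (c := 2) (cn := .pp) (n1 := ndB4q0) (n2 := ndB0q2) (pc := pcB2) (cut := cut_pp_022_s) (xt := Ext.none) (P1 := 0) (W1 := 536870912) (P2 := 0) (W2 := 536870912) (P3 := 858993459) (W3 := 64424510) (N0 := 3) (En := eng) (mo := mog) (C1 := cd4q0) (C2 := cd0q2) (C3 := pd2)
    rfl (fun _ => rfl) k0_pp_022_s

end Pool.Agent.Strip051.G.I8000_8600.Tab.CS.BB40

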