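import Pool.Agent.Strip051.G.I8000_8600.Tab
import Pool.Agent.Strip051.PB.StripB

/-! # Strips, near vertex: certificates 14 (generated) -/

set_option linter.all false
set_option maxRecDepth 100000

namespace Pool.Agent.Strip051.G.I8000_8600.Tab.CS.BB40

open Pool.Agent.Strip051.PB Pool.Agent.Strip051.PB.T
open Pool.Agent.Strip051.G.I8000_8600.Tab

noncomputable def cut_pp_101_s : Cut := Cut.of [[⟨4, 0, 0, 1449551462⟩], [⟨0, 1, 0, 67108864⟩, ⟨1, 0, 0, 67108864⟩, ⟨2, 1, 0, 67108864⟩]]

noncomputable def f_pp_101_s : ℕ → ℕ → ℕ → ℕ → Bool := onCell 0 536870912 536870912 536870912 858993459 64424510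
    (rowNE 3 eng mog cd4q1 cd0q1 pd0 2 false true true .npn 1 0 1 (qsf 536870912 536870912 536870912 536870912 0) ndB4q1 ndB0q1 pcB0 cut_pp_101_s Ext.none)

def k0_pp_101_s : ∃ t, chk3 f_pp_101_s t 2 2 1 = true :=
  ⟨(l 3), by decide +kernel⟩

def k1_pp_101_s : ∃ t, chk3 f_pp_101_s t 4 6 1 = true :=
  ⟨(l 3), by decide +kernel⟩

def k2_pp_101_s : ∃ t, chk3 f_pp_101_s t 8 14 1 = true :=
  ⟨(l 3), by decide +kernel⟩

def k3_pp_101_s : ∃ t, chk3 f_pp_101_s t 16 30 1 = true :=
  ⟨(l 3), by decide +kernel⟩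

def k4_pp_101_s : ∃ t, chk3 f_pp_101_s t 17 60 1 = true :=
  ⟨(l 3), by decide +kernel⟩

def k5_pp_101_s : ∃ t, chk3 f_pp_101_s t 34 61 1 = true :=
  ⟨(l 3), by decide +kernel⟩

def k6_pp_101_s : ∃ t, chk3 f_pp_101_s t 35 122 1 = true :=
  ⟨(l 3), by decide +kernel⟩

def k7_pp_101_s : ∃ t, chk3 f_pp_101_s t 70 123 1 = true :=
  ⟨(l 3), by decide +kernel⟩

def k8_pp_101_s : ∃ t, chk3 f_pp_101_s t 71 246 1 = true :=
  ⟨(l 3), by decide +kernel⟩

def k9_pp_101_s : ∃ t, chk3 f_pp_101_s t 142 247 1 = true :=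
  ⟨(l 3), by decide +kernel⟩

def k10_pp_101_s : ∃ t, chk3 f_pp_101_s t 143 494 1 = true :=
  ⟨(l 3), by decide +kernel⟩

def k11_pp_101_s : ∃ t, chk3 f_pp_101_s t 143 990 1 = true :=
  ⟨(a (l 3) (a (l 3) (c (c (b (a (l 3) (a (l 3) (a (l 3) (b (l 3) (b (l 3) (l 480130367767)))))) (b (a (l 3) (c (a (c (b (l 3) (a (b (l 3) (l 299204870359)) (b (l 284172484807) (l 16777112)))) (l 387251699927)) (c (b (a (b (l 3) (l 269140099255)) (b (l 254644584615) (l 16777088))) (l 16776960)) (l 179482657191))) (l 241222812471))) (a (c (a (b (l 3) (a (l 443623145687) (b (l 339470188823) (l 16777288)))) (b (a (a (l 481204109543) (l 410874019975)) (b (l 309942288631) (l 16777136))) (l 16777256))) (c (l 250349618055) (l 249812747143))) (c (l 16777352) (l 16776696))))) (b (l 491941528999) (a (l 386714829223) (l 177335174119)))) (c (l 374366798535) (l 374366798519))))), by decide +kernel⟩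

def k12_pp_101_s : ∃ t, chk3 f_pp_101_s t 143 991 1 = true :=
  ⟨(a (a (l 3) (b (l 3) (c (b (c (a (l 3) (c (b (a (l 3) (a (l 3) (a (l 3) (l 413021503623)))) (a (a (l 3) (l 444696887511)) (a (b (l 341617672471) (l 16777288)) (l 16777248)))) (l 384030474519))) (l 416779600535)) (c (a (c (a (l 3) (c (b (a (l 3) (l 464561111287)) (a (b (l 466171723959) (l 224042942663)) (a (l 189146333351) (l 16777096)))) (l 368998088855))) (l 397989118295)) (a (b (c (a (b (l 369534959927) (l 189146333383)) (l 119353114823)) (l 16777184)) (l 16776912)) (l 16776752))) (l 221358589319))) (c (l 262160779303) (l 258939553831))))) (a (c (c (b (b (a (l 3) (c (a (a (l 3) (b (l 3) (b (l 465097982135) (l 218137362663)))) (a (b (l 463487369463) (a (l 197199397015) (l 16777096))) (b (b (l 368461218103) (l 188072591559)) (l 16776984)))) (l 354502574231))) (b (b (a (l 3) (a (a (a (l 298131128551) (l 16777184)) (l 16777072)) (l 16776856))) (a (a (l 3) (a (l 3) (a (l 318532223223) (l 209547427975)))) (l 16777192))) (a (a (a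 (l 3) (a (l 459192402119) (b (l 3) (l 240149070007)))) (a (a (b (l 338396446983) (l 16777152)) (l 138143596727)) (l 16777032))) (l 16776664)))) (c (c (a (a (a (b (b (b (l 309942288631) (l 16777136)) (l 16776936)) (l 16776528)) (l 16777312)) (l 16776432)) (l 16775992)) (l 80698409399)) (l 16776280))) (b (a (l 406042182199) (l 191830688951)) (l 16776272))) (c (l 175187691735) (c (l 173577078663) (l 169818982279)))) (c (c (c (c (a (a (b (b (l 90362085559) (l 16776360)) (l 16775552)) (l 16775800)) (l 16775352)) (l 16776960)) (l 16775640)) (l 16775632)) (c (l 16775616) (l 16775600))))), by decide +kernel⟩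

def k13_pp_101_s : ∃ t, chk3 f_pp_101_s t 16 31 1 = true :=
  ⟨(b (b (l 3) (l 14)) (l 14)), by decide +kernel⟩

def k14_pp_101_s : ∃ t, chk3 f_pp_101_s t 68 124 1 = true :=
  ⟨(l 3), by decide +kernel⟩

def k15_pp_101_s : ∃ t, chk3 f_pp_101_s t 69 248 1 = true :=
  ⟨(l 3), by decide +kernel⟩

def k16_pp_101_s : ∃ t, chk3 f_pp_101_s t 138 249 1 = true :=
  ⟨(l 3), by decide +kernel⟩

def k17_pp_101_s : ∃ t, chk3 f_pp_101_s t 278 249 1 = true :=
  ⟨(l 3), by decide +kernel⟩

def k18_pp_101_s : ∃ t, chk3 f_pp_101_s t 279 249 1 = true :=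
  ⟨(b (l 3) (b (l 3) (b (a (l 3) (c (a (b (l 3) (b (l 3) (c (c (a (l 3) (c (a (l 467782336759) (b (l 446844371095) (a (l 266992615559) (l 16777152)))) (l 386714828951))) (l 418927083863)) (l 338396447703)))) (b (b (l 3) (c (c (a (l 3) (b (a (l 3) (a (l 3) (l 309942288551))) (a (a (l 3) (l 322290319543)) (l 139217338487)))) (l 406579052823)) (l 318532223959))) (c (a (c (b (b (a (l 3) (l 426980147319)) (a (l 436643823751) (a (l 217063620759) (l 16777136)))) (a (a (b (l 231559135399) (l 16777080)) (l 16777072)) (l 16776968))) (l 214916137511)) (a (a (b (b (l 210621169799) (l 16777064)) (l 16776856)) (l 16776920)) (l 16776808))) (l 16777688)))) (c (l 373293056455) (l 373293056455)))) (c (b (a (b (l 3) (b (l 3) (c (a (l 3) (c (a (l 3) (a (l 3) (a (l 329269641399) (l 198273138807)))) (l 425369534759))) (l 459729273495)))) (c (a (a (a (c (b (l 481204109591) (a (b (a (l 366313734311) (l 276119421079)) (l 16777120)) (l 110226309255))) (l 266455745095)) (b (b (l 471003562151) (a (a (l 333564608695)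 (l 265918873735)) (l 138143596663))) (l 16777000))) (a (c (a (b (b (l 282561872023) (l 16777096)) (l 16776896)) (l 16777288)) (l 16776992)) (l 16776848))) (l 16776480)) (l 121500599191))) (a (c (b (a (l 3) (b (c (a (l 3) (a (a (l 341617672391) (l 210621169799)) (l 16777088))) (l 282561872487)) (c (a (a (l 3) (a (l 353428832471) (l 222969200791))) (l 16777024)) (l 209547428343)))) (a (a (l 3) (a (l 3) (b (l 3) (a (l 382956732663) (a (l 298667999399) (l 230485393527)))))) (a (a (b (a (l 370608701671) (a (l 304573579383) (l 215453007975))) (l 16777280)) (l 16777208)) (l 16776824)))) (a (l 467782337111) (l 195051913991))) (c (l 16777208) (l 16776200)))) (a (c (l 385104216615) (l 385641087527)) (c (l 16776472) (l 16776456))))))), by decide +kernel⟩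

def k19_pp_101_s : ∃ t, chk3 f_pp_101_s t 68 125 1 = true :=
  ⟨(b (b (l 3) (l 14)) (l 14)), by decide +kernel⟩

def k20_pp_101_s : ∃ t, chk3 f_pp_101_s t 276 125 1 = true :=
  ⟨(b (b (l 3) (b (b (b (l 3) (l 14)) (l 14)) (l 14))) (l 14)), by decide +kernel⟩

def k21_pp_101_s : ∃ t, chk3 f_pp_101_s t 554 125 1 = true :=
  ⟨(b (b (a (l 3) (b (l 3) (b (l 3) (b (l 3) (c (c (b (a (l 3) (b (l 3) (a (l 3) (a (a (l 414095245511) (l 326048415927)) (a (l 279340646503) (l 144049176695)))))) (b (a (l 3) (a (a (a (l 3) (l 340007059655)) (a (l 271824453783) (l 155860336775))) (l 16777104))) (c (a (a (l 3) (a (l 374366798055) (a (l 282561872039) (l 244444037191)))) (l 16777208)) (l 215989879303)))) (l 371145572567)) (c (l 287930582023) (l 285783098375))))))) (c (b (c (b (a (a (a (b (l 3) (l 14)) (a (b (l 3) (l 14)) (b (b (l 3) (b (l 3) (a (l 355576316103) (l 309405417591)))) (l 16777240)))) (b (a (b (l 3) (c (c (b (a (l 3) (a (l 359334412439) (l 261087035543))) (l 127943049335)) (l 247665262839)) (l 16777208)))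 (c (a (b (l 479056625879) (l 108078825591)) (b (b (l 3) (a (l 348596994183) (l 247665262727))) (l 16777032))) (l 230485393879))) (l 16777056))) (b (c (a (a (b (b (a (l 386177958135) (a (l 324974674055) (l 257328939095))) (l 121500598359)) (l 16776928)) (l 72108474519)) (l 16776696)) (l 16777336)) (l 16776288))) (l 16777064)) (a (b (b (l 381346119943) (l 16776872)) (l 16776016)) (l 16777296))) (l 16774056)) (b (b (c (c (l 144586048743) (l 162302788823)) (c (l 138680468679) (l 156934079671))) (l 16777304)) (l 16776520)))) (l 14)), by decide +kernel⟩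

def k22_pp_101_s : ∃ t, chk3 f_pp_101_s t 555 125 1 = true :=
  ⟨(b (b (b (l 3) (b (b (l 3) (a (l 3) (c (c (a (b (l 3) (c (a (a (l 3) (l 465097982151)) (b (l 447918112919) (a (a (l 290614935719) (l 220821717111)) (l 16777152)))) (l 308868547079))) (b (c (b (c (a (l 3) (l 431811985527)) (l 449528725719)) (a (l 439328178311) (a (a (l 262160777351) (l 16777256)) (l 16777136)))) (l 292225548823)) (a (a (b (a (l 300815482999) (l 194515042439)) (l 16777080)) (l 16777240)) (l 16776968)))) (l 271824454567)) (c (l 16777600) (l 16777272))))) (b (c (b (c (a (c (a (l 3) (c (a (l 480130367767) (b (l 472077303975) (a (a (l 345912639639) (l 255718326407)) (l 16777256)))) (l 399062859943))) (l 426980147559)) (b (a (a (b (a (l 385641087127) (l 16777280)) (l 120426856599)) (l 16777056)) (l 16776832)) (l 16777168))) (a (l 426980147559) (l 16776904))) (a (c (b (a (l 3) (a (a (a (l 344302026951) (l 307257933927)) (l 144586047623)) (l 16777072))) (c (a (a (l 3) (a (a (l 385104216231) (l 286856839335)) (l 162302787703)))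 (l 16777008)) (l 203104977351))) (l 229948523223)) (l 16777280))) (c (l 195051914407) (l 190220076183))) (a (c (a (b (a (b (c (a (a (l 381346119895) (l 313163514023)) (a (l 245517779063) (l 16777264))) (l 16777224)) (l 16777256)) (l 16777264)) (l 16776808)) (l 16777312)) (l 16777440)) (c (l 16776208) (l 16776160)))))) (c (c (c (l 16776992) (l 16776632)) (l 16776576)) (c (l 16773880) (l 16776416)))) (c (l 16767280) (l 16773304))), by decide +kernel⟩

def k23_pp_101_s : ∃ t, chk3 f_pp_101_s t 556 500 1 = true :=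
  ⟨(a (b (l 3) (b (c (b (c (b (c (a (l 3) (a (a (l 482277851367) (a (l 446307500183) (b (l 3) (l 264845131911)))) (b (a (l 398525989111) (a (l 341080801415) (l 273435066455))) (l 124184952935)))) (l 400136601863)) (c (a (b (b (l 3) (a (l 3) (a (l 3) (l 271287582807)))) (a (a (l 3) (a (l 392620408999) (l 293299290279))) (a (l 199346880631) (l 16777120)))) (a (a (l 110763180167) (l 16777040)) (l 16776928))) (a (l 282025001463) (l 16777000)))) (l 251960230871)) (a (a (c (a (b (a (b (l 242833424519) (l 16777080)) (l 98415149191)) (l 16776856)) (l 16777248)) (l 16776952)) (l 16777136)) (l 16776584))) (c (l 16777664) (l 173040206887))) (c (l 16777208) (l 16775832)))) (b (b (l 3) (b (l 3) (c (c (b (c (a (l 3) (c (a (b (l 3) (a (l 352891961559) (l 223506071703))) (b (a (l 341617672391) (l 205252460695)) (l 16777104))) (a (l 324974674295) (l 192904429815)))) (l 386714829015)) (a (c (b (a (l 3) (a (l 366850605287) (a (l 280414388375) (l 245517778999)))) (a (a (l 379735507191) (a (l 295446773927) (l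 226190426231))) (l 16777120))) (l 261623906759)) (l 74792829095))) (l 235854103543)) (c (l 16777232) (l 16777232))))) (c (c (c (c (b (c (b (l 67813507207) (l 16776160)) (l 16777088)) (l 16775336)) (l 16777192)) (l 16777176)) (l 16775848)) (c (l 16775816) (l 16775784))))), by decide +kernel⟩

def k24_pp_101_s : ∃ t, chk3 f_pp_101_s t 557 500 1 = true :=
  ⟨(c (b (c (b (b (a (l 3) (c (a (l 3) (a (l 3) (b (l 3) (b (l 3) (c (l 418390212727) (l 348060123415)))))) (l 473151046295))) (b (a (l 3) (c (b (a (l 3) (a (a (l 3) (l 344302026951)) (a (l 206326202519) (l 16777128)))) (a (a (l 3) (l 443086274695)) (a (a (l 226190426263) (l 16777136)) (l 16777032)))) (l 358797541495))) (a (a (l 3) (a (l 3) (b (l 3) (l 459729272999)))) (c (a (b (a (l 451676209303) (a (a (l 281488130199) (l 235317231687)) (l 16777144))) (a (a (a (l 296520515751) (l 261087035463)) (l 16777160)) (l 16777048))) (l 16776896)) (l 140827951511))))) (a (c (b (b (a (a (l 3) (l 482814722327)) (b (a (l 469929820343) (a (a (l 343228285063)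 (l 275045679191)) (l 16777168))) (a (a (a (l 357723799703) (l 257865810071)) (l 152102240343)) (l 16777064)))) (a (b (a (l 3) (a (a (l 352355090631) (l 281488130199)) (l 161229045863))) (a (a (a (l 385104216247) (l 296520515751)) (l 192904429703)) (l 16777080))) (l 16776936))) (l 16777320)) (b (a (l 377588023479) (l 142438564295)) (l 16776664))) (c (l 16777016) (l 16776352)))) (b (a (l 493552141319) (a (l 411947762151) (l 340543930471))) (a (b (l 224579814343) (l 16776656)) (l 16776336)))) (c (l 16776304) (l 16774944))) (b (c (b (l 396378505863) (l 16777936)) (b (l 398525989495) (l 112910664775))) (c (l 16774896) (l 16774840)))), by decide +kernel⟩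

def k25_pp_101_s : ∃ t, chk3 f_pp_101_s t 279 500 1 = true :=
  ⟨(a (b (b (c (c (a (b (b (a (a (l 3) (a (l 480667238631) (b (l 3) (a (l 359334412439) (l 270750711943))))) (a (b (a (l 403357827319) (a (l 313700384951) (l 245517779079))) (l 122037469319)) (l 86067118263))) (a (c (c (a (b (a (l 3) (l 308868546743)) (l 133848629383)) (l 98952020119)) (l 186461978999)) (l 16777152)) (l 16776856))) (l 16777248)) (l 16777264)) (c (a (l 134385500951) (l 16776264)) (l 16777872))) (c (l 16776552) (l 16777848))) (c (l 16776768) (l 16775376))) (c (l 16773784) (l 16773632))) (c (c (l 16777024) (l 16773680)) (b (l 16777016) (l 16767160)))), by decide +kernel⟩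

def k26_pp_101_s : ∃ t, chk3 f_pp_101_s t 139 501 1 = true :=
  ⟨(c (c (c (l 16776376) (l 16776312)) (l 16776216)) (c (l 16776064) (a (l 16774536) (l 16758936)))), by decide +kernel⟩

def k27_pp_101_s : ∃ t, chk3 f_pp_101_s t 139 251 1 = true :=
  ⟨(b (c (l 16766576) (l 16771288)) (a (l 16768168) (l 16760536))), by decide +kernel⟩

def k28_pp_101_s : ∃ t, chk3 f_pp_101_s t 140 248 1 = true :=
  ⟨(l 3), by decide +kernel⟩

def k29_pp_101_s : ∃ t, chk3 f_pp_101_s t 141 496 1 = true :=
  ⟨(l 3), by decide +kernel⟩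

def k30_pp_101_s : ∃ t, chk3 f_pp_101_s t 141 994 1 = true :=
  ⟨(b (l 3) (b (l 3) (a (l 3) (a (l 3) (a (l 3) (c (c (c (b (a (l 3) (a (l 3) (a (l 3) (l 431275114663)))) (a (a (l 3) (l 461339885799)) (c (a (b (l 364703121703) (l 183240753335)) (l 114521276599)) (l 206863073623)))) (l 388862312759)) (l 308868547687)) (l 289004324263))))))), by decide +kernel⟩

def k31_pp_101_s : ∃ t, chk3 f_pp_101_s t 141 995 1 = true :=
  ⟨(b (a (l 3) (a (b (l 3) (a (l 3) (b (l 3) (c (c (a (l 3) (a (a (l 466171723991) (b (l 3) (l 260550164663))) (b (a (l 374903668967) (l 244444037287)) (l 16777120)))) (l 306721063847)) (l 301889225767))))) (c (b (a (a (l 3) (c (a (b (l 3) (b (l 3) (a (l 302426095847) (l 180019527831)))) (b (l 480667238663) (a (b (l 285246226647) (l 16777112)) (l 16777272)))) (l 285783098167))) (a (b (c (a (b (l 458655531175) (a (l 269140099271) (l 16777168))) (a (b (l 252497100983) (l 16777096)) (l 16777088))) (l 16777200)) (l 16777248)) (l 16777256))) (a (c (a (b (a (a (l 446307500215) (b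 (l 3) (l 228337909911))) (b (a (l 320142835959) (l 212231782535)) (l 16777096))) (l 16777296)) (l 16777136)) (l 16776960)) (l 16777016))) (c (l 173040207399) (l 167134627367))))) (a (a (l 3) (b (l 3) (b (l 3) (a (l 3) (a (l 3) (c (c (a (l 481740980503) (b (l 468856078503) (a (l 282025001159) (l 16777176)))) (l 16777296)) (l 16777296))))))) (c (c (a (b (a (b (l 3) (c (a (l 3) (a (a (l 3) (l 441475661991)) (b (a (l 3) (l 329269641399)) (l 146733531287)))) (l 409800278327))) (c (a (c (b (a (a (l 3) (l 422685180039)) (b (a (l 401210343687) (l 285783097511)) (l 16777144))) (l 109152567383)) (b (l 271287583223) (l 16777016))) (l 16777304)) (l 142975435319))) (a (b (c (a (a (l 464561111287) (b (l 439865049239) (a (l 239612199095) (l 16777152)))) (a (a (a (l 151565369495) (l 16777288)) (l 16777072)) (l 16776960))) (l 216526750295)) (b (a (a (a (l 266455744695) (l 16777160)) (l 16777048)) (l 16776832)) (l 16777168))) (l 16776456))) (l 16777160)) (a (a (l 338396446823) (l 16776728)) (l 16775824))) (a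 (c (l 190756947527) (l 185388238391)) (l 16777104))))), by decide +kernel⟩

def k32_pp_101_s : ∃ t, chk3 f_pp_101_s t 280 498 1 = true :=
  ⟨(l 3), by decide +kernel⟩

def k33_pp_101_s : ∃ t, chk3 f_pp_101_s t 281 996 1 = true :=
  ⟨(l 3), by decide +kernel⟩

def k34_pp_101_s : ∃ t, chk3 f_pp_101_s t 281 1994 1 = true :=
  ⟨(a (l 3) (c (a (b (l 3) (c (b (c (a (l 3) (a (a (l 3) (a (l 455434305703) (l 416242729079))) (b (a (l 407652794631) (l 279877517511)) (l 131701145719)))) (l 403357827351)) (c (b (a (a (l 3) (a (l 3) (l 325511545031))) (c (l 107541954711) (l 16777080))) (a (a (l 430738243719) (l 148881014935)) (l 16776944))) (l 206326202967))) (l 254644585447))) (c (c (b (b (a (l 3) (a (a (l 454360563895) (b (l 3) (l 227264168103))) (b (a (l 342154543319) (l 211158040727)) (l 16777104)))) (a (a (a (l 472614174935) (b (l 3) (l 259476422855))) (b (a (l 380272378087) (l 243370295479)) (l 16777128))) (l 16777304))) (c (l 72645345431) (l 16776712))) (b (a (l 392620409079) (l 183777624567)) (l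 16776712))) (c (l 153712853943) (l 16776984)))) (c (l 234780362551) (c (l 230485395095) (l 228337911447))))), by decide +kernel⟩

def k35_pp_101_s : ∃ t, chk3 f_pp_101_s t 281 1995 1 = true :=
  ⟨(c (c (b (a (a (l 3) (b (c (a (l 3) (c (a (l 465097982199) (b (l 442012532887) (a (l 261087035527) (l 16777152)))) (l 384567345303))) (l 420000825671)) (c (a (a (l 480667238679) (b (l 469392949415) (a (l 276656292039) (l 16777168)))) (a (a (b (l 260550164663) (l 16777096)) (l 16777096)) (l 16776984))) (l 224579814007)))) (b (a (b (a (a (a (l 229411651751) (l 16777144)) (l 16777032)) (l 16776808)) (l 16777144)) (l 16776304)) (l 16776976))) (a (c (b (b (a (l 3) (a (a (a (l 306721063095) (l 16777264)) (l 16777072)) (l 16776848))) (a (a (l 3) (a (l 3) (a (l 329806512311) (l 197736267895)))) (l 16776864))) (a (b (a (l 3) (a (a (l 343228285127) (l 204715589783)) (l 16777088))) (a (a (l 3) (a (l 357186928855) (l 220284846247))) (l 16777032))) (l 16776656))) (a (a (l 441475662231) (l 243907166791)) (l 16776792)))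 (l 16775912))) (a (a (l 405505311271) (a (l 223506072679) (l 16776920))) (l 16776168))) (a (c (a (l 320142837479) (l 16777072)) (c (l 244444038903) (l 246591522471))) (c (l 16776144) (l 16776128)))), by decide +kernel⟩

def k36_pp_101_s : ∃ t, chk3 f_pp_101_s t 280 998 1 = true :=
  ⟨(b (a (l 3) (c (c (a (b (l 3) (b (b (l 3) (a (l 3) (a (l 3) (c (l 427517018231) (l 16777272))))) (c (b (a (l 3) (a (l 437717565575) (a (l 218137362583) (l 16777136)))) (a (a (l 3) (l 447918112919)) (a (a (l 233169748135) (l 16777144)) (l 16777032)))) (l 359871283335)))) (c (b (b (a (l 3) (a (l 3) (a (l 466171723991) (b (l 3) (l 255718326455))))) (b (a (l 3) (a (a (l 400673472775) (l 270750712007)) (l 16777296))) (a (a (l 3) (a (l 3) (l 308868546727))) (l 107541954679)))) (a (b (a (b (a (l 3) (l 322290319543)) (l 140291080343)) (l 105931341975)) (l 16776880)) (l 16776728))) (b (a (l 458118660551) (l 260550165111)) (l 16777528)))) (a (l 422148309639) (b (l 298131129399) (l 16776864)))) (a (c (l 422685180551) (l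 342691415799)) (c (l 16777808) (l 16777808))))) (c (c (a (b (a (l 3) (a (l 3) (c (b (a (l 3) (l 475835400455)) (b (a (l 484962205879) (a (l 299204870311) (l 16777256))) (a (a (l 312626643127) (l 162302787687)) (l 16777072)))) (l 373829927079)))) (a (b (l 3) (c (a (l 3) (a (a (l 459729273031) (b (l 3) (l 243370295463))) (b (a (l 360945025239) (l 224042942631)) (l 16777112)))) (l 391009796327))) (a (b (c (b (a (l 3) (a (l 326048415943) (l 194515042439))) (a (a (l 348060123335) (l 209010557079)) (l 16777096))) (l 246054650279)) (l 16777288)) (l 16777128)))) (a (a (c (b (b (c (b (a (l 458655531175) (a (l 270213841031) (l 16777152))) (a (a (l 283098742935) (l 16777168)) (l 16777056))) (l 219211104631)) (l 16776920)) (l 16776512)) (l 108078825927)) (l 16777144)) (l 16776048))) (a (a (l 437717566199) (a (l 356650057911) (l 193978172279))) (l 16777640))) (a (c (l 360945025383) (a (l 443623146199) (l 220821718295))) (c (l 16776312) (l 16776296))))), by decide +kernel⟩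

def k37_pp_101_s : ∃ t, chk3 f_pp_101_s t 281 998 1 = true :=
  ⟨(a (c (c (a (a (c (b (b (a (b (b (a (l 371145572583) (l 240149069991)) (l 16777120)) (l 16776920)) (l 16777232)) (l 16776432)) (l 16775616)) (l 16777464)) (l 16777176)) (l 16776736)) (l 16777000)) (c (l 16775664) (l 16775632))) (c (l 16777144) (l 16777040))), by decide +kernel⟩

def k38_pp_101_s : ∃ t, chk3 f_pp_101_s t 140 999 1 = true :=
  ⟨(c (a (a (b (a (b (c (a (c (c (b (b (a (l 3) (a (l 386714829047) (l 271824453783))) (a (a (l 425906405591) (l 284709355687)) (l 16777296))) (l 102173245511)) (b (a (l 346986381735) (l 223506071815)) (l 16777000))) (l 197199397383)) (c (l 16777296) (l 16776840))) (l 16776992)) (l 16777088)) (l 16777264)) (l 16776616)) (l 16777296)) (l 16775520)) (a (c (l 16777832) (c (l 16775176) (l 16777776))) (l 16775352))), by decide +kernel⟩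

def k39_pp_101_s : ∃ t, chk3 f_pp_101_s t 282 996 1 = true :=
  ⟨(b (a (a (l 3) (a (l 3) (a (l 3) (a (l 3) (c (b (l 3) (b (l 3) (b (l 3) (a (l 340007059703) (l 268603228359))))) (l 392083539383)))))) (c (c (b (b (a (l 3) (a (a (l 3) (b (l 3) (a (l 313163514087) (l 199883751559)))) (a (a (b (l 297594257623) (l 16777120)) (l 110226309287)) (l 16777000)))) (b (a (l 3) (a (a (a (l 329806512375) (l 215453008023)) (l 16777096)) (l 16776872))) (a (a (l 3) (a (l 3) (a (l 368998088919) (l 231022264487)))) (l 67276636407)))) (a (a (a (b (l 3) (b (a (l 413558374663) (l 277730033879)) (l 141901693047))) (b (a (l 472077304023) (b (l 3) (l 261623906503))) (l 109152567415))) (b (a (b (a (l 384567345383) (l 246591520951)) (l 16777288)) (l 16777208)) (l 16776848))) (l 16777200))) (a (l 356113187031) (l 16777472))) (c (l 201494365943) (l 199883753111)))) (c (a (c (b (b (a (l 3) (c (a (a (l 3) (a (l 3) (l 445770629287))) (a (b (a (l 3) (l 327659028679)) (l 145122918567)) (l 109152567463))) (l 271287583447)))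 (b (a (l 3) (a (a (l 443086274711) (a (l 232632877223) (l 16777144))) (l 16776960))) (a (a (l 3) (a (l 3) (l 454360563879))) (a (a (a (l 247665262775) (l 16777152)) (l 16777040)) (l 16776824))))) (a (b (c (b (a (l 3) (a (l 466708594871) (a (l 260550164679) (l 16777160)))) (a (l 483351593239) (a (a (l 298131128487) (l 16777176)) (l 16777064)))) (l 371682443431)) (a (a (b (l 3) (a (l 315847868647) (l 202568106119))) (a (b (l 300815483095) (l 16777120)) (l 120963727495))) (l 16776928))) (l 16777280))) (a (l 372756185415) (l 137606726647))) (c (c (l 16777336) (l 16776016)) (l 16776000))) (a (c (l 221895460551) (l 215989880535)) (l 16777280)))), by decide +kernel⟩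

def k40_pp_101_s : ∃ t, chk3 f_pp_101_s t 282 997 1 = true :=
  ⟨(c (c (c (a (c (b (l 16777256) (l 16775024)) (l 16776872)) (l 16774392)) (l 16777584)) (l 16777552)) (c (l 16774888) (l 16774848))), by decide +kernel⟩

def k41_pp_101_s : ∃ t, chk3 f_pp_101_s t 283 498 1 = true :=
  ⟨(c (c (c (b (c (l 16777104) (l 16777424)) (l 16772632)) (l 16777632)) (l 16776280)) (c (l 16773600) (l 16777464))), by decide +kernel⟩

def k42_pp_101_s : ∃ t, chk3 f_pp_101_s t 141 499 1 = true :=
  ⟨(c (c (l 16775760) (l 16770400)) (c (l 16770280) (l 16775392))), by decide +kernel⟩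

def k43_pp_101_s : ∃ t, chk3 f_pp_101_s t 142 992 1 = true :=
  ⟨(b (l 3) (a (l 3) (a (l 3) (c (b (b (l 3) (c (a (l 3) (a (l 3) (a (l 480667238679) (b (l 465634853031) (a (l 279877517511) (l 16777168)))))) (l 457044919015))) (c (b (a (l 3) (a (a (l 3) (a (l 430201372839) (b (l 3) (l 201494364295)))) (a (a (b (l 298131128535) (l 16777120)) (l 16777280)) (l 16777008)))) (b (a (l 3) (a (a (a (l 334101479671) (l 219747975319)) (l 16777096)) (l 16776872))) (a (a (l 3) (a (l 3) (a (l 368998088935) (l 238001586343)))) (l 16777296)))) (l 349670736071))) (c (l 291151808807) (l 290078066967)))))), by decide +kernel⟩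

def k44_pp_101_s : ∃ t, chk3 f_pp_101_s t 142 993 1 = true :=
  ⟨(b (a (l 3) (c (c (b (a (a (l 3) (a (l 3) (a (l 3) (a (l 3) (b (l 3) (l 431275114647)))))) (a (c (b (a (a (l 3) (a (l 475835400423) (l 410337149047))) (a (b (a (l 382419861751) (l 250886488247)) (l 16777128)) (l 16777056))) (a (a (b (a (l 3) (l 303499837623)) (l 16777280)) (l 16777240)) (l 16776856))) (l 211694912167)) (l 16776544))) (a (b (a (l 3) (c (a (a (l 3) (l 459192402151)) (a (b (l 363092508967) (l 181093269687)) (l 115058147511))) (l 270213841671))) (a (a (l 3) (a (l 3) (l 479593496839))) (a (c (a (b (l 457581789351) (l 233169748119)) (b (l 195051913415) (l 16777056))) (l 16777192)) (l 16776904)))) (l 16777368))) (a (a (l 493015270439) (l 365239992615)) (l 111836923031))) (a (c (l 395304764055) (l 304573581719)) (c (l 16776560) (l 16776552))))) (a (b (l 3) (a (l 3) (a (l 3) (c (c (b (a (l 3) (a (a (l 469392949463) (b (l 3) (l 265382002871))) (b (a (l 379198636263) (l 248202133671)) (l 16777120)))) (c (a (a (a (l 3)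 (l 421074567319)) (b (a (l 405505310983) (l 278266904775)) (l 16777312))) (l 16777320)) (l 197736268343))) (l 241222812695)) (l 233169749175))))) (c (a (c (a (a (b (b (l 3) (a (a (l 447918112951) (b (l 3) (l 222432329895))) (a (b (l 321216577783) (l 16777136)) (l 129553662119)))) (l 16777328)) (b (b (a (b (l 3) (a (l 302426095847) (l 16777272))) (a (b (l 284172484823) (l 16777112)) (l 16777272))) (l 16776944)) (l 16776544))) (l 16777352)) (l 126869308583)) (l 16776784)) (c (l 16776048) (l 87677732471))))), by decide +kernel⟩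

def k45_pp_101_s : ∃ t, chk3 f_pp_101_s t 142 497 1 = true :=
  ⟨(c (a (b (b (b (a (l 3) (c (a (c (a (b (l 3) (a (l 471003562231) (b (l 448991854743) (a (l 249812746423) (l 16777160))))) (b (b (b (l 3) (l 436643823783)) (a (l 368461218087) (l 147270402215))) (a (a (l 144586047655) (l 16777080)) (l 16776968)))) (l 350744477815)) (a (a (c (l 89825214647) (l 16776952)) (l 16776808)) (l 16776584))) (l 184314496263))) (a (c (a (l 3) (a (a (l 3) (b (l 3) (a (l 439328178343) (b (l 3) (l 208473686167))))) (a (b (l 3) (a (b (l 306184192231) (l 16777128)) (l 123111211159))) (b (b (l 476372271287) (a (l 288467452119) (l 16777176))) (l 16777008))))) (l 403357827639)) (c (b (a (b (a (a (a (l 271824453831) (l 16777168)) (l 16777056)) (l 16776832)) (l 16777176)) (l 16776328)) (l 16777008)) (l 16776472)))) (b (a (b (c (a (a (l 3) (a (l 3) (a (l 460266143943) (b (l 3) (l 242296553655))))) (a (a (b (a (l 364166250711) (l 225116684455)) (l 16777112)) (l 16777032)) (l 16776816))) (l 232632878391)) (c (a (a (a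 (l 3) (a (l 482277851367) (b (l 3) (l 283635613895)))) (a (b (a (l 397452247287) (l 258939551943)) (l 16777296)) (l 16777224))) (l 16776688)) (l 167134626807))) (l 16777240)) (a (a (a (b (c (a (b (a (l 3) (l 300278612183)) (l 152102240391)) (l 111300051095)) (l 16777152)) (l 16777208)) (l 16777376)) (l 16776272)) (l 16775384)))) (c (c (l 16777256) (l 16774616)) (l 16774592))) (c (c (l 16776976) (l 16775968)) (l 16775936))) (a (b (a (c (b (l 424832664439) (l 16776848)) (b (l 427517018983) (l 16778152))) (c (l 16776192) (l 94657054199))) (c (l 16774552) (l 16774512))) (c (l 16773264) (l 16775824)))), by decide +kernel⟩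

def k46_pp_101_s : ∃ t, chk3 f_pp_101_s t 143 248 1 = true :=
  ⟨(c (c (b (a (b (a (a (b (a (l 3) (c (b (l 3) (b (l 3) (c (a (l 443086274775) (b (l 335175221527) (l 16777240))) (l 280951259655)))) (l 437717566071))) (c (b (b (b (a (l 453823693031) (l 120426856631)) (a (a (l 453823692951) (l 189146333367)) (l 16776960))) (b (a (a (l 199883751639) (l 16777048)) (l 16776832)) (l 16776840))) (l 16776504)) (l 126332437079))) (b (c (a (b (l 3) (b (a (a (l 481204109543) (l 410874019975)) (b (a (l 392083538167) (l 259476422839)) (l 16777136))) (l 16777296))) (b (c (b (l 3) (b (a (l 3) (l 286856839367)) (c (a (l 292225548519) (l 16777112)) (l 203641848087)))) (l 388325441751)) (l 16777176))) (b (l 412484632983) (l 142438564391))) (l 16776840))) (b (a (a (b (c (c (b (a (b (l 3) (l 272898195639)) (b (l 258939551911) (l 16777088))) (l 16776960)) (l 181093269927)) (l 16777096)) (l 16776552)) (l 16777184)) (l 16776088)) (l 16775296))) (l 16776888)) (l 16776928)) (l 16775080)) (b (a (b (a (b (a (l 445770629943)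 (l 233706620311)) (l 16777784)) (l 16777136)) (l 16774232)) (l 16772952)) (l 16769752))) (b (a (a (b (c (b (l 276656294055) (l 16776464)) (b (l 274508810407) (l 16776456))) (l 16777408)) (c (l 16774704) (l 16777296))) (c (l 16772904) (l 16772856))) (c (l 16769664) (l 16769568)))), by decide +kernel⟩

def k47_pp_101_s : ∃ t, chk3 f_pp_101_s t 71 249 1 = true :=
  ⟨(a (c (c (b (l 16775432) (l 16765840)) (l 16773120)) (c (l 16775592) (b (l 16775112) (l 16744296)))) (c (l 16773728) (c (l 16762944) (l 16762728)))), by decide +kernel⟩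

def k48_pp_101_s : ∃ t, chk3 f_pp_101_s t 35 125 1 = true :=
  ⟨(a (a (b (b (c (c (l 16776064) (l 16775936)) (c (l 16775808) (b (l 16776832) (l 16758760)))) (c (l 16766320) (l 16771080))) (c (l 16759656) (l 16758800))) (c (b (l 16774320) (l 16754984)) (b (a (l 16769752) (l 16751600)) (l 16733000)))) (a (b (c (l 16759152) (l 16758472)) (l 16760264)) (c (l 16760560) (l 16759560)))), by decide +kernel⟩

def k49_pp_101_s : ∃ t, chk3 f_pp_101_s t 17 63 1 = true :=
  ⟨(b (b (a (a (l 14) (a (l 14) (a (l 14) (l 16753624)))) (a (a (l 16760552) (l 16745360)) (l 16754088))) (a (l 14) (a (l 16754248) (l 16729256)))) (a (l 14) (c (l 16742648) (l 16744640)))), by decide +kernel⟩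

def k50_pp_101_s : ∃ t, chk3 f_pp_101_s t 18 14 1 = true :=
  ⟨(l 3), by decide +kernel⟩

def k51_pp_101_s : ∃ t, chk3 f_pp_101_s t 36 60 1 = true :=
  ⟨(l 3), by decide +kernel⟩

def k52_pp_101_s : ∃ t, chk3 f_pp_101_s t 37 120 1 = true :=
  ⟨(l 3), by decide +kernel⟩

def k53_pp_101_s : ∃ t, chk3 f_pp_101_s t 74 121 1 = true :=
  ⟨(l 3), by decide +kernel⟩

def k54_pp_101_s : ∃ t, chk3 f_pp_101_s t 75 242 1 = true :=
  ⟨(l 3), by decide +kernel⟩

def k55_pp_101_s : ∃ t, chk3 f_pp_101_s t 150 243 1 = true :=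
  ⟨(b (l 3) (a (l 3) (b (a (l 3) (c (c (b (l 3) (c (a (l 3) (b (l 3) (a (l 3) (a (l 449528725863) (b (l 3) (l 214916137271)))))) (l 450602468535))) (l 472077305687)) (l 478519756567))) (c (c (a (b (a (l 3) (a (l 3) (b (l 3) (b (l 3) (l 435033211159))))) (c (a (a (b (l 3) (b (l 3) (a (l 328195899847) (l 203641848087)))) (b (l 477982884391) (a (b (l 301352354199) (l 16777040)) (l 112373793015)))) (b (a (b (l 456508047687) (a (l 265918873991) (l 16777120))) (a (b (l 237464715607) (l 16776976)) (l 16776960))) (l 16776664))) (a (l 377051152759) (l 16776928)))) (b (a (c (b (c (a (l 3) (b (l 3) (l 395841634487))) (l 440401920551)) (c (a (b (l 416242729191) (l 141364822327)) (l 107541954791)) (l 200420622951))) (l 259476424055)) (a (b (b (a (l 454897434855) (a (l 293836161351) (l 225653555415))) (l 16777384)) (l 16776672)) (l 16777296))) (l 16777368))) (a (l 369534960263) (l 133848631079))) (c (l 209010560583) (l 205252464119)))))), by decide +kernel⟩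

def k56_pp_101_s : ∃ t, chk3 f_pp_101_s t 302 243 1 = true :=
  ⟨(b (a (l 3) (b (l 3) (c (c (b (l 3) (c (a (l 3) (b (l 3) (a (a (l 455434305911) (b (l 3) (l 224579813703))) (a (b (l 334101479831) (l 16777072)) (l 126869307655))))) (l 409263407911))) (l 432348857815)) (l 429127632295)))) (c (b (c (b (a (c (a (l 3) (b (l 3) (c (a (l 458118660567) (b (l 425369534711) (l 161229046023))) (l 377588023559)))) (l 429664502775)) (c (a (b (a (b (l 3) (l 403357827271)) (b (a (l 466708594935) (l 253570842999)) (l 16777232))) (a (l 113447534855) (l 16776688))) (l 16777168)) (l 138143597687))) (a (a (c (a (b (l 3) (a (b (l 324974674311) (l 16777056)) (l 125258694887))) (b (b (l 466708595031) (a (l 287930581367) (l 16777136))) (l 16776824))) (l 225653556487)) (a (a (b (b (l 255181455719) (l 16776992)) (l 16776608)) (l 16777376)) (l 16776504))) (l 16775784))) (a (l 341617672439) (l 16776296))) (c (l 16777296) (l 16774832))) (c (l 130090536391) (b (l 180019530967) (l 16774824))))), by decide +kernel⟩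

def k57_pp_101_s : ∃ t, chk3 f_pp_101_s t 303 243 1 = true :=
  ⟨(b (b (a (l 3) (b (l 3) (c (c (c (a (b (l 3) (a (l 3) (a (l 457581789575) (b (l 3) (l 232632877383))))) (a (b (l 3) (a (b (l 327659028935) (l 16777080)) (l 128479920407))) (b (b (l 475835400567) (a (l 298667999639) (l 16777152))) (l 16776848)))) (l 366850605463)) (l 274508810391)) (l 262160779735)))) (c (c (a (b (c (a (b (l 3) (c (a (l 3) (l 461876756967)) (l 472077304487))) (b (a (l 3) (b (l 3) (l 407652794583))) (c (a (b (l 429664502023) (l 164987142423)) (l 112373793047)) (l 198273139431)))) (l 387788571239)) (c (a (b (a (b (l 474761658727) (a (l 295983645063) (l 16777144))) (a (b (l 258402681207) (l 16777000)) (l 16776984))) (l 16776696)) (l 16776368)) (l 16777320))) (a (c (a (b (b (b (l 386177958055) (l 16777240)) (l 16776696)) (l 16775944)) (l 16777304)) (l 16776304)) (l 16777040))) (c (a (l 218137364871) (l 16776016)) (l 173040208375))) (c (l 16779232) (l 16777920)))) (c (c (l 16777152) (l 16773544)) (l 16777472))), by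 decide +kernel⟩

def k58_pp_101_s : ∃ t, chk3 f_pp_101_s t 72 122 1 = true :=
  ⟨(l 3), by decide +kernel⟩

def k59_pp_101_s : ∃ t, chk3 f_pp_101_s t 73 244 1 = true :=
  ⟨(l 3), by decide +kernel⟩

def k60_pp_101_s : ∃ t, chk3 f_pp_101_s t 146 245 1 = true :=
  ⟨(b (l 3) (b (l 3) (b (l 3) (a (l 3) (a (l 3) (c (c (a (l 3) (c (b (l 3) (a (l 3) (b (l 3) (a (l 399599730839) (a (l 229411651815) (l 16777136)))))) (l 434496340727))) (l 447918113895)) (l 462413628487))))))), by decide +kernel⟩

def k61_pp_101_s : ∃ t, chk3 f_pp_101_s t 147 490 1 = true :=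
  ⟨(b (l 3) (b (l 3) (a (l 3) (a (l 3) (c (c (a (c (b (l 3) (a (l 3) (a (l 3) (b (l 3) (a (l 343765156183) (l 260013293847)))))) (l 455971177351)) (c (a (b (l 3) (b (a (l 462413627639) (a (l 299204870487) (l 226727297271))) (l 123648082103))) (b (b (l 3) (a (l 439865049287) (a (l 271824453927) (l 204715589815)))) (l 16777232))) (l 338396446807))) (l 374903669223)) (c (l 279877519591) (l 16777448))))))), by decide +kernel⟩

def k62_pp_101_s : ∃ t, chk3 f_pp_101_s t 147 982 1 = true :=
  ⟨(a (a (l 3) (a (l 3) (b (l 3) (b (l 3) (c (c (a (b (l 3) (a (l 446307500247) (b (l 317458481511) (l 16777168)))) (b (a (l 420000825527) (b (l 282561872183) (l 16777136))) (l 16777336))) (l 16777248)) (l 16777248)))))) (c (b (c (a (b (a (l 3) (a (l 3) (a (l 3) (b (l 3) (l 418927083687))))) (c (b (a (l 3) (a (l 453286822199) (a (a (l 275045679415) (l 208473686215)) (l 16777080)))) (a (a (l 3) (l 469929820519)) (a (a (a (l 304036708711) (l 235854102775)) (l 16777112)) (l 16776888)))) (l 365776863543))) (a (c (b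 (b (b (a (l 3) (l 151028498695)) (a (l 398525988999) (l 16777024))) (a (a (a (l 248202133767) (l 16777320)) (l 16777048)) (l 16776832))) (l 16776584)) (l 16777504)) (l 16776264))) (a (l 393694151303) (l 16776552))) (c (a (a (c (b (a (b (l 3) (a (l 399062859911) (l 191293817079))) (a (b (a (l 345912639847) (l 262697648423)) (l 16777024)) (l 105394471159))) (l 16776704)) (l 149954757511)) (l 16777040)) (l 16775512)) (l 16777400))) (c (l 166060887047) (c (l 164987144727) (l 160692177431))))), by decide +kernel⟩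

def k63_pp_101_s : ∃ t, chk3 f_pp_101_s t 147 983 1 = true :=
  ⟨(c (a (c (a (b (a (l 3) (c (b (l 3) (c (a (b (l 3) (l 440401920279)) (a (b (l 3) (a (l 251423359255) (l 162839658647))) (b (l 403357827207) (l 16777056)))) (l 375977410807))) (l 410337149527))) (b (a (c (b (a (l 3) (l 455971176775)) (a (l 477446013287) (a (a (l 311552901479) (l 239075328263)) (l 16777280)))) (l 393157280071)) (a (a (b (b (l 321216577895) (l 16777168)) (l 16776968)) (l 16777280)) (l 16776736))) (a (a (b (a (b (l 3) (l 233706619143)) (a (l 207936815287) (l 16777112))) (l 16776952)) (l 16776792)) (l 16776352)))) (b (b (c (a (a (a (l 3) (b (l 3) (a (l 350744478055) (l 268066357543)))) (b (a (l 469392949511) (a (l 308868546919) (l 241759682807))) (l 124721823959))) (l 80698409207)) (a (l 269676970967) (l 16776760))) (b (b (a (a (a (l 249812746519) (l 16777088)) (l 16776872)) (l 16776432)) (l 16777336)) (l 16777056))) (l 16775744))) (a (b (l 429127631831) (l 178945787239)) (l 110763181495))) (c (l 16777144) (l 16774504)))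 (a (c (a (l 241222814583) (l 16776264)) (c (l 184314497895) (l 180019530599))) (l 16777104))), by decide +kernel⟩

def k64_pp_101_s : ∃ t, chk3 f_pp_101_s t 144 246 1 = true :=
  ⟨(l 3), by decide +kernel⟩

def k65_pp_101_s : ∃ t, chk3 f_pp_101_s t 290 246 1 = true :=
  ⟨(b (l 3) (b (l 3) (a (b (l 3) (b (l 3) (a (l 3) (c (c (c (a (b (l 3) (a (l 417853341863) (b (l 299204870375) (l 16777128)))) (b (a (b (l 3) (l 282561872087)) (b (l 244444037383) (l 16777104))) (l 16776976))) (l 241759683415)) (l 16777232)) (l 16777720))))) (c (c (a (b (a (l 3) (a (l 3) (b (l 3) (b (l 3) (l 448991854807))))) (b (c (b (a (l 474224787815) (a (b (l 378661765431) (l 194515042519)) (l 129016791207))) (a (a (b (l 482277851319) (l 227801039095)) (a (l 197736267959) (l 16777104))) (l 16776920))) (l 226190426887)) (l 16777320))) (b (c (b (a (l 3) (c (b (l 3) (a (l 3) (l 404431569047))) (l 444696887719))) (b (a (a (l 3) (l 426980147383)) (a (b (l 312089772279) (l 16777136)) (l 16777056))) (a (a (b (l 345375768855) (l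 16777168)) (l 16777088)) (l 16776864)))) (b (l 454897435239) (l 211158041271))) (l 16777000))) (b (l 390472925799) (l 16777952))) (c (l 213305526807) (l 207399946791)))))), by decide +kernel⟩

def k66_pp_101_s : ∃ t, chk3 f_pp_101_s t 291 246 1 = true :=
  ⟨(b (l 3) (c (b (a (b (l 3) (c (a (c (b (l 3) (a (l 3) (b (l 3) (a (l 477446013207) (b (l 389399183687) (l 234243489943)))))) (l 453823693687)) (a (c (b (l 3) (b (a (l 457044918503) (b (l 355576316199) (l 16777296))) (l 121500598439))) (l 375440539943)) (c (b (b (l 3) (a (l 433959469255) (b (l 328195899639) (l 16777152)))) (l 16777296)) (l 215989879655)))) (l 373829927383))) (c (a (a (b (l 3) (b (b (a (c (l 410337149095) (l 16777296)) (b (l 269140099367) (l 16777120))) (l 16777320)) (l 16776592))) (b (b (l 3) (b (l 3) (a (b (l 3) (l 251960230167)) (b (l 234780360967) (l 16777096))))) (l 16777224))) (b (a (c (b (b (l 3) (l 467782336855)) (b (a (b (l 466171723959) (l 248739004567)) (l 134922371287)) (l 16776936))) (l 348060123287)) (b (a (b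 (l 3) (b (l 353965703511) (l 192904429751))) (b (l 437180694743) (l 117205631175))) (l 16776776))) (l 16776128))) (b (l 357186928967) (l 16776416)))) (c (b (a (a (c (b (b (b (a (l 3) (a (l 251423359143) (l 16777072))) (a (a (l 3) (l 268066357431)) (l 16777008))) (b (a (a (l 285246226631) (l 16777096)) (l 16776880)) (l 16776888))) (l 16776560)) (l 128479920839)) (l 16776240)) (l 16775360)) (l 16776192)) (l 16778024))) (b (a (c (l 409800279159) (l 411410891879)) (c (l 190220077303) (l 183777626359))) (c (l 16775392) (l 16775376))))), by decide +kernel⟩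

def k67_pp_101_s : ∃ t, chk3 f_pp_101_s t 144 988 1 = true :=
  ⟨(a (l 3) (a (a (l 3) (b (l 3) (b (l 3) (c (c (b (a (l 3) (a (l 3) (l 448991854807))) (c (a (l 471540433255) (a (b (l 378124894519) (l 193978171607)) (l 129553662119))) (l 282561872599))) (l 301889225927)) (l 298668000535))))) (b (b (l 3) (a (l 3) (c (c (c (b (a (l 3) (a (l 480130367767) (b (l 466171723943) (l 212231782631)))) (b (a (l 3) (a (l 228874780919) (l 16777072))) (a (a (l 3) (l 244980908295)) (l 16777016)))) (l 272898196455)) (l 277730034663)) (l 266455745671)))) (c (c (c (a (a (b (a (l 3) (b (l 3) (l 428590760119))) (a (b (b (l 346449510679) (l 16777328)) (l 16776968)) (l 16777280))) (b (a (b (l 3) (b (l 314774126839) (l 16777144))) (c (b (l 407115923607) (l 16777064)) (l 217600491975))) (l 16776736))) (a (a (b (b (b (l 282561872087) (l 16777112)) (l 16776912)) (l 16776512)) (l 16776632)) (l 16776416))) (a (b (l 377588023543) (l 16776880)) (l 16776560))) (l 165524014471)) (c (l 16776856) (l 16776848)))))), by decide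 +kernel⟩

def k68_pp_101_s : ∃ t, chk3 f_pp_101_s t 144 989 1 = true :=
  ⟨(a (a (a (l 3) (a (l 3) (c (c (b (l 3) (c (b (l 3) (a (l 3) (b (l 3) (b (l 3) (l 292225548503))))) (l 460266144503))) (l 473687917975)) (l 473687917943)))) (c (c (b (a (l 3) (c (b (l 3) (a (l 3) (b (l 3) (a (l 435570081991) (b (l 325511545095) (l 16777152)))))) (l 442549404471))) (b (a (a (l 3) (b (l 3) (a (l 480667238663) (b (l 455434305703) (l 206326202599))))) (c (a (a (b (l 457044918503) (l 134385500343)) (b (b (l 356113187111) (l 178945786023)) (l 16776976))) (l 90362085543)) (l 169818980983))) (c (a (b (b (a (l 3) (a (l 246054650023) (l 16777064))) (a (a (l 3) (l 261623906487)) (l 16777008))) (a (a (b (l 276656292039) (l 16777104)) (l 16777024)) (l 16776808))) (l 16776496)) (l 127406179031)))) (b (l 463487370391) (a (l 254644585911) (l 16776768)))) (c (l 353428832695) (b (l 474761659511) (l 16777072))))) (c (c (a (b (b (b (a (l 3) (c (a (a (b (l 481740980407) (l 253570842791)) (a (l 201494364327) (l 16777104)))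 (l 16776920)) (l 16777064))) (a (c (a (l 3) (a (b (l 3) (l 285246226631)) (b (l 269676970167) (l 16777096)))) (l 302962967319)) (l 16776800))) (a (a (c (b (a (b (l 3) (l 309942288631)) (b (l 300815483095) (l 16777128))) (l 16777000)) (l 16777136)) (l 16777160)) (l 16776392))) (l 16777192)) (l 16776560)) (c (a (b (l 196125656183) (l 16775880)) (l 16775232)) (l 110226310599))) (c (l 16778440) (a (l 16777720) (l 16775192))))), by decide +kernel⟩

def k69_pp_101_s : ∃ t, chk3 f_pp_101_s t 144 495 1 = true :=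
  ⟨(b (c (a (c (a (b (a (c (b (a (l 3) (a (l 3) (b (l 3) (l 438791307479)))) (a (c (a (b (l 3) (b (l 467245465767) (l 239612199063))) (b (l 460266143991) (l 141901693095))) (l 366313734295)) (a (b (b (l 367387476263) (l 185388236983)) (l 16776984)) (l 98415149223)))) (b (l 473687917207) (l 226190426871))) (b (c (b (a (c (a (l 3) (l 418390212791)) (l 436106952983)) (a (b (l 307257934055) (l 16777128)) (l 16777048))) (a (a (b (l 337859576071) (l 16777160)) (l 16777080)) (l 16776856))) (l 209010557607)) (l 16776600))) (c (l 16777232) (l 16776080))) (c (l 16776760) (l 16775440))) (a (a (b (l 365776863527) (l 16776376)) (l 16777632)) (l 16775432))) (l 16776296)) (a (a (c (l 138143598647) (l 131701147687)) (l 16776720)) (l 16776232))) (c (c (c (l 16775344) (l 16772704)) (l 16772672)) (c (l 16772624) (l 16772584)))), by decide +kernel⟩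

def k70_pp_101_s : ∃ t, chk3 f_pp_101_s t 145 247 1 = true :=
  ⟨(b (a (b (c (a (c (b (c (a (b (a (b (l 3) (a (l 458118660343) (b (l 364166250791) (l 182703882423)))) (b (a (l 440401920199) (b (l 331953996039) (l 16777152))) (l 99488891079))) (a (a (b (l 134922371271) (l 16776864)) (l 16776848)) (l 16776624))) (c (l 16777272) (l 16776456))) (a (b (l 258402681751) (l 16776776)) (l 16776448))) (l 16775680)) (l 107541955991)) (l 16777160)) (c (l 16775600) (l 16778208))) (c (l 16776096) (l 16773408))) (c (l 16776128) (l 16776376))) (c (l 16774320) (c (l 16768960) (l 16768872)))), by decide +kernel⟩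

def k71_pp_101_s : ∃ t, chk3 f_pp_101_s t 292 492 1 = true :=
  ⟨(b (a (l 3) (a (l 3) (c (c (b (l 3) (a (l 3) (a (l 3) (b (l 3) (b (l 3) (l 468319207687)))))) (l 491941529303)) (l 500531463847)))) (c (b (a (l 3) (c (c (a (b (l 3) (a (b (l 3) (a (l 444696887511) (b (l 323900932407) (l 16777160)))) (b (a (l 420000825527) (b (l 307794804967) (l 16777136))) (l 16777008)))) (b (b (a (l 3) (a (b (l 476372271303) (l 231022264567)) (l 140827951335))) (a (a (l 400136601735) (a (l 224579813607) (l 16777136))) (l 16776952))) (l 16777360))) (a (l 385641087415) (l 150491628423))) (c (l 235854104183) (l 229411653319)))) (c (a (a (c (b (l 3) (a (a (l 3) (b (l 3) (l 418390212775))) (a (b (l 3) (b (l 299204870375) (l 16777128))) (b (l 394231021703) (l 16777048))))) (l 409263407687)) (b (c (a (a (l 3) (b (l 3) (b (l 479593496759) (l 253033971879)))) (a (b (l 469392949495) (l 139754209495)) (b (b (l 372219314487) (l 192367558855)) (l 16776992)))) (l 267529487319)) (b (b (a (a (l 243907166471) (l 16777088))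 (l 16776864)) (l 16776880)) (l 16776680)))) (c (c (c (a (l 72645345479) (l 16775912)) (l 16777512)) (l 16776200)) (l 16776200))) (a (l 341080801447) (l 16776192)))) (a (c (l 385641087831) (l 386177958727)) (c (l 16778048) (l 16778040))))), by decide +kernel⟩

def k72_pp_101_s : ∃ t, chk3 f_pp_101_s t 293 492 1 = true :=
  ⟨(a (c (b (c (b (a (l 3) (c (b (l 3) (a (l 3) (a (l 3) (b (l 3) (b (l 3) (l 257865810103)))))) (l 458118661015))) (b (a (a (l 3) (a (l 3) (b (l 3) (l 422685180087)))) (a (a (b (l 3) (b (l 287393710391) (l 16777136))) (b (b (l 3) (l 269140099367)) (l 16777056))) (a (b (b (l 251423359255) (l 16777104)) (l 16776912)) (l 16776896)))) (c (a (a (b (l 454360564039) (a (b (l 378661765431) (l 195051913431)) (l 16777280))) (a (b (b (l 328732770615) (l 16777168)) (l 16776968)) (l 16776952))) (l 16776584)) (l 140827951927)))) (b (l 474761659655) (l 209547429655))) (c (c (l 16777200) (l 16775560)) (l 16775552))) (b (c (l 266992618631) (l 265382005847)) (l 16775528))) (c (b (c (b (a (c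 (a (b (l 3) (a (b (l 472077304071) (l 142438564071)) (b (b (l 374903669063) (l 197736267991)) (l 16777000)))) (b (b (l 3) (a (l 446307500263) (b (l 344838897943) (l 16777168)))) (l 90898956503))) (l 339470188663)) (b (a (b (a (l 424295792823) (b (l 285783097671) (l 16777136))) (l 16777344)) (l 16777176)) (l 16776472))) (l 16777288)) (c (l 131164276231) (l 16776504))) (l 16774384)) (c (l 16775432) (l 71034734599)))), by decide +kernel⟩

def k73_pp_101_s : ∃ t, chk3 f_pp_101_s t 147 492 1 = true :=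
  ⟨(c (c (c (a (c (l 16776984) (l 16776320)) (l 16771384)) (l 16777768)) (l 16777752)) (c (l 16772472) (l 16777680))), by decide +kernel⟩

def k74_pp_101_s : ∃ t, chk3 f_pp_101_s t 73 493 1 = true :=
  ⟨(c (a (b (a (a (a (c (c (c (b (b (a (a (b (b (l 331953996039) (l 16777160)) (l 16776960)) (l 16776944)) (l 16776728)) (l 16776344)) (l 16775544)) (l 16777384)) (l 16776072)) (l 16776064)) (l 16777120)) (l 16777224)) (l 16772848)) (l 16776152)) (l 16768296)) (a (c (l 16778152) (a (l 16774064) (l 16771680))) (l 16773400))), by decide +kernel⟩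

def k75_pp_101_s : ∃ t, chk3 f_pp_101_s t 73 247 1 = true :=
  ⟨(c (c (l 16774776) (l 16774664)) (c (l 16774544) (a (l 16766304) (l 16761560)))), by decide +kernel⟩

def k76_pp_101_s : ∃ t, chk3 f_pp_101_s t 148 244 1 = true :=
  ⟨(b (l 3) (b (l 3) (a (l 3) (c (a (c (b (l 3) (a (l 3) (a (l 3) (a (l 3) (b (l 3) (b (l 3) (l 435570082007))))))) (l 489794045991)) (c (b (b (l 3) (b (l 3) (a (l 3) (a (l 3) (a (l 453286822119) (a (l 293299290439) (l 226190426327))))))) (b (c (a (a (l 3) (a (l 3) (a (l 459192402263) (b (l 3) (l 281488130359))))) (a (b (a (l 478519755031) (a (l 319605965175) (l 251960230151))) (l 130090533095)) (l 16777336))) (l 346986381479)) (c (a (c (a (b (l 432348856583) (a (a (l 271287583015) (l 203641847991)) (l 16777072))) (a (b (l 203104977175) (l 16776928)) (l 16776912))) (l 206326203031)) (l 16776552)) (l 16777496)))) (b (l 466708595911) (l 202031236823)))) (c (l 389936055527) (l 389936055495)))))), by decide +kernel⟩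

def k77_pp_101_s : ∃ t, chk3 f_pp_101_s t 149 488 1 = true :=
  ⟨(b (l 3) (a (l 3) (c (b (a (l 3) (c (c (a (b (l 3) (a (l 3) (c (b (l 3) (l 412484632791)) (l 435570082183)))) (a (b (l 3) (b (a (l 476372271383) (a (l 314774126967) (l 246591521031))) (l 127943049447))) (b (a (l 462413627799) (b (l 3) (l 240149070167))) (l 16777248)))) (a (l 459729273767) (l 250349618503))) (l 377051152903))) (a (a (l 3) (c (c (b (a (l 3) (a (l 3) (l 455434305927))) (c (a (b (l 469929820519) (a (l 301889225047) (l 16777304))) (a (b (l 262160777559) (l 16776992)) (l 16776976))) (l 223506072327))) (l 367387476279)) (l 272361326199))) (a (c (c (b (a (b (l 431275114759) (a (l 229411651911) (l 16777072))) (a (b (l 203104977175) (l 16776928)) (l 16776912))) (l 16776616)) (l 16776880)) (l 16776880)) (l 16776952)))) (c (l 349670736407) (a (l 333027741479) (l 16777096)))))), by decide +kernel⟩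

def k78_pp_101_s : ∃ t, chk3 f_pp_101_s t 149 489 1 = true :=
  ⟨(c (a (b (c (a (b (l 3) (a (l 3) (c (b (l 3) (c (a (l 475835400727) (b (l 453286822199) (a (a (l 303499837799) (l 233706619127)) (l 16777112)))) (l 391009796423))) (l 420537696935)))) (a (b (l 3) (c (b (c (a (b (l 3) (l 434496340231)) (b (l 416242729175) (a (l 205252460823) (l 16777048)))) (l 372219314407)) (c (a (a (b (l 239612199207) (l 16776968)) (l 16776952)) (l 16776728)) (l 16776880))) (l 207399945351))) (b (c (b (l 3) (c (a (a (l 479593497031) (b (l 3) (l 289004323143))) (b (a (l 456508047591) (l 254107713847)) (l 16777216))) (l 353965703303))) (l 394767892967)) (c (c (c (b (l 89288343815) (l 16776296)) (l 16776552)) (l 16776552)) (l 16776552))))) (a (l 452213081815) (b (l 417316471655) (l 16776848)))) (c (a (b (a (b (c (a (l 3) (b (l 3) (a (a (l 455434305735) (l 295983645015)) (l 196662526199)))) (l 410874020247)) (a (b (a (l 428590760119) (a (l 263234519319) (l 169282109607))) (l 16777024)) (l 16776856))) (a (b (a (b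 (a (l 342154543495) (l 270213841191)) (l 16777032)) (l 109152567559)) (l 16776568)) (l 16776536))) (l 16777248)) (l 16776608)) (c (l 108078827063) (l 16775872)))) (b (a (b (c (c (a (b (a (b (l 3) (a (l 429664501943) (l 217600491831))) (b (a (l 329269641607) (l 195588784375)) (l 16776992))) (l 16777400)) (l 16776424)) (l 131164275671)) (l 16776720)) (l 16776992)) (l 16776352)) (l 16773552))) (c (a (b (l 369534960519) (l 16775872)) (l 16774576)) (a (b (l 368998089591) (l 16775864)) (l 16774560)))), by decide +kernel⟩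

def k79_pp_101_s : ∃ t, chk3 f_pp_101_s t 148 490 1 = true :=
  ⟨(c (a (b (b (l 3) (a (l 3) (c (c (a (b (l 3) (c (a (b (l 3) (l 427517018359)) (a (b (l 3) (l 196125655303)) (b (a (l 357186928999) (l 269140099383)) (l 16777032)))) (l 368998088919))) (b (a (a (l 477446013367) (b (l 3) (a (l 313163514215) (l 241222811911)))) (b (a (l 446307500263) (a (l 284709355831) (l 212231782615))) (l 16777208))) (c (c (l 96267665575) (l 16776800)) (l 16776800)))) (a (l 405505311287) (l 194515043319))) (l 247128393623)))) (b (c (b (a (a (l 3) (c (b (a (l 3) (l 444160016679)) (a (l 461339885911) (a (a (l 293299290439) (l 220821717223)) (l 16777096)))) (l 297594258535))) (a (a (a (a (b (l 263771390247) (l 16776984)) (l 116668760295)) (l 16776936)) (l 16776720)) (l 16776280))) (a (a (a (l 3) (b (l 481204109687) (a (a (l 353428832679) (l 286856839479)) (l 151565369607)))) (a (a (b (a (l 325511545207) (l 253570842903)) (l 16777008)) (l 100562632967)) (l 16776776))) (l 16776048))) (a (l 356650058039) (l 16776304)))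 (a (a (b (a (b (c (a (l 410874020007) (a (l 242833424647) (l 16777312))) (l 16777240)) (l 16777344)) (l 16777328)) (l 16776464)) (l 16777448)) (l 16775264)))) (b (c (a (b (c (a (b (l 3) (a (b (l 3) (a (l 422148309175) (a (l 250349617431) (l 16777328)))) (b (a (a (l 452749951159) (l 293836161351)) (l 190220075255)) (l 16776984)))) (b (a (b (l 473151045975) (a (a (l 348596994391) (l 259476422951)) (l 137069854935))) (a (b (a (l 302426095959) (l 229948522743)) (l 16776992)) (l 16777304))) (l 16776672))) (a (l 380272378247) (l 144586048343))) (c (c (l 16777176) (l 16776192)) (l 16776184))) (l 16777344)) (c (a (l 148344145671) (l 16775536)) (l 16778096))) (l 16776664))) (c (a (b (l 409800279607) (l 135996115479)) (l 16778352)) (a (b (l 410874021399) (l 141901695511)) (b (l 16778744) (l 16774000))))), by decide +kernel⟩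

def k80_pp_101_s : ∃ t, chk3 f_pp_101_s t 148 491 1 = true :=
  ⟨(c (c (c (l 16776680) (l 16777320)) (l 16772056)) (c (l 16772024) (l 16771992))), by decide +kernel⟩

def k81_pp_101_s : ∃ t, chk3 f_pp_101_s t 149 245 1 = true :=
  ⟨(c (c (c (l 16776760) (l 16774776)) (l 16774744)) (c (l 16769464) (l 16774664))), by decide +kernel⟩

def k82_pp_101_s : ∃ t, chk3 f_pp_101_s t 75 122 1 = true :=
  ⟨(b (b (a (c (a (a (b (c (b (l 3) (c (a (b (l 3) (a (l 3) (b (l 3) (a (l 312089772455) (l 162302787815))))) (a (c (b (l 472077304327) (a (b (l 283635614071) (l 16777024)) (l 16777336))) (l 350207606919)) (b (b (l 445770629415) (a (l 250349617511) (l 16777096))) (l 16776792)))) (a (l 431811986167) (l 220284847287)))) (l 397989118967)) (b (a (b (a (c (b (a (l 421611438263) (l 218674233639)) (l 16777016)) (l 16777144)) (l 16777184)) (l 16776488)) (l 16777472)) (l 16775424))) (b (a (c (b (c (b (l 3) (c (a (b (l 3) (l 426980147447)) (b (l 407115923655) (l 132774887703))) (l 368461218007))) (l 404431569463))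 (a (c (a (b (b (l 222969200951) (l 16776952)) (l 16776568)) (l 16776680)) (l 16776752)) (l 16776464))) (l 207936817207)) (c (c (b (b (a (a (l 473151046071) (b (l 3) (l 258402681207))) (b (a (l 439865049303) (l 231022264647)) (l 16777040))) (l 83919634759)) (l 16776032)) (l 119889986663)) (l 16776544))) (l 16777400))) (c (c (c (b (a (l 16777320) (l 16774528)) (l 16773056)) (l 16776704)) (l 16776696)) (l 16774072))) (b (a (c (l 233169751895) (l 232096009911)) (l 16777712)) (c (l 16774192) (l 16774184)))) (c (l 16775864) (l 16776248))) (c (c (a (l 16776376) (l 16766536)) (l 16774048)) (c (l 16768784) (l 16776616)))) (c (l 16773768) (a (l 16770048) (l 16760200)))), by decide +kernel⟩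

def k83_pp_101_s : ∃ t, chk3 f_pp_101_s t 37 123 1 = true :=
  ⟨(a (b (c (c (l 16773992) (l 16763416)) (c (l 16773808) (l 16773704))) (c (l 16755024) (l 16754624))) (c (l 16767160) (b (l 16754024) (l 16745432)))), by decide +kernel⟩

def k84_pp_101_s : ∃ t, chk3 f_pp_101_s t 18 31 1 = true :=
  ⟨(b (b (b (a (c (a (a (a (l 16776312) (l 16766112)) (l 16762624)) (l 16755696)) (a (a (c (l 16767112) (l 16774848)) (l 16772752)) (l 16765648))) (c (l 16760720) (l 16760256))) (a (c (a (l 16766768) (l 16747136)) (a (a (l 16758048) (l 16732296)) (l 16725224))) (c (l 16733608) (l 16732360)))) (a (c (a (b (l 16747600) (l 16738888)) (l 16734248)) (a (l 16757672) (l 16711552))) (c (l 16720968) (l 16718800)))) (a (b (c (l 16742416) (l 16718688)) (l 16733624)) (b (l 16702400) (l 16684872)))), by decide +kernel⟩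

def k85_pp_101_s : ∃ t, chk3 f_pp_101_s t 19 28 1 = true :=
  ⟨(l 3), by decide +kernel⟩

def k86_pp_101_s : ∃ t, chk3 f_pp_101_s t 19 58 1 = true :=
  ⟨(l 3), by decide +kernel⟩

def k87_pp_101_s : ∃ t, chk3 f_pp_101_s t 38 59 1 = true :=
  ⟨(l 3), by decide +kernel⟩

def k88_pp_101_s : ∃ t, chk3 f_pp_101_s t 39 118 1 = true :=
  ⟨(l 3), by decide +kernel⟩

def k89_pp_101_s : ∃ t, chk3 f_pp_101_s t 39 238 1 = true :=
  ⟨(a (l 3) (a (l 3) (c (b (a (l 3) (b (l 3) (a (l 3) (a (l 3) (b (l 3) (l 503752688295)))))) (b (a (l 3) (c (b (a (l 3) (a (b (l 3) (l 346986381447)) (a (b (l 284709356439) (l 16776896)) (l 16777504)))) (a (a (b (l 3) (l 401210343831)) (b (l 374903668999) (l 16777264))) (l 16776328))) (l 226727301127))) (c (b (a (a (l 3) (c (a (l 469929821191) (c (b (l 429127631399) (l 198273139303)) (l 248202134967))) (l 379735507527))) (c (c (a (l 102710116983) (l 16775376)) (l 16775944)) (l 16775944))) (a (c (a (a (l 3) (b (l 3) (l 338933317703))) (a (a (b (l 273435067191) (l 16776864))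 (l 16776816)) (l 16776400))) (l 320142835639)) (l 16775000))) (a (l 363629379831) (l 16775488))))) (b (l 581062090839) (c (l 331953995367) (a (l 490867782039) (l 16776440))))))), by decide +kernel⟩

def k90_pp_101_s : ∃ t, chk3 f_pp_101_s t 78 239 1 = true :=
  ⟨(a (l 3) (b (l 3) (c (a (b (l 3) (c (a (l 3) (b (l 3) (a (l 3) (a (l 3) (b (l 3) (l 387788570855)))))) (l 474761661031))) (c (a (b (l 3) (a (b (l 3) (c (b (b (l 459729273335) (l 360408154247)) (a (l 149954757127) (l 16776816))) (l 16777184))) (b (b (l 3) (a (l 434496340375) (a (l 260013294231) (l 167671497143)))) (l 92509569591)))) (a (b (l 3) (b (b (a (l 399599730967) (a (l 217600492055) (l 16777064))) (l 16776792)) (l 16776080))) (b (b (l 3) (b (l 461876757143) (a (l 365239992471) (l 16777376)))) (l 16777304)))) (b (l 448454985847) (l 186998853047)))) (a (l 581062096359) (c (l 244980914583) (l 240149076391)))))), by decide +kernel⟩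

def k91_pp_101_s : ∃ t, chk3 f_pp_101_s t 79 239 1 = true :=
  ⟨(c (b (b (a (a (l 3) (c (a (b (l 3) (c (a (l 3) (b (l 3) (l 442012533351))) (l 469929821527))) (c (b (a (l 3) (b (l 3) (l 391546667351))) (a (b (l 417316471271) (a (l 219747975799) (l 16776928))) (l 113984406039))) (l 347523252567))) (l 390472925863))) (a (a (c (a (b (b (a (l 439865049527) (l 227801039543)) (l 16776896)) (l 16776184)) (l 16777408)) (l 16776392)) (l 16775272)) (l 16773592))) (a (a (c (a (l 3) (b (l 3) (a (a (l 473687917383) (b (l 3) (a (l 295983645351) (l 212231782935)))) (b (a (l 420537696631) (l 209547428471)) (l 16776848))))) (l 417316472103)) (a (c (c (b (a (b (l 473687917287) (a (l 387788570855) (l 153175982551))) (a (b (l 256792068855) (l 16776816)) (l 16776776))) (l 16776248)) (l 149417887687)) (l 16776736)) (l 16776920))) (l 16776760))) (a (c (a (b (c (a (a (b (b (l 3) (l 429664502295)) (a (a (b (l 280951259767) (l 16776840)) (l 131164275127)) (l 16776728))) (b (c (b (l 404431569303) (c (l 146733531655)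 (l 16777024))) (l 229948523831)) (l 16776304))) (c (c (l 82309022183) (l 16775944)) (l 16775944))) (a (b (l 367387476407) (l 16776592)) (l 16775944))) (l 16774600)) (l 16775944)) (a (l 118279376151) (l 16773352))) (l 16770000))) (a (b (a (l 545091744871) (c (l 205252466423) (l 200420628199))) (c (l 16774480) (l 88751477559))) (c (l 16771960) (l 16772008)))), by decide +kernel⟩

def k92_pp_101_s : ∃ t, chk3 f_pp_101_s t 76 120 1 = true :=
  ⟨(l 3), by decide +kernel⟩

def k93_pp_101_s : ∃ t, chk3 f_pp_101_s t 77 240 1 = true :=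
  ⟨(a (l 3) (a (l 3) (b (l 3) (b (l 3) (c (c (a (a (l 3) (a (l 3) (b (l 3) (b (l 3) (l 465634853367))))) (b (a (l 3) (a (l 3) (b (l 3) (a (l 446307500407) (l 376514281623))))) (c (a (a (b (l 3) (b (l 429664502023) (l 184314495351))) (b (l 429664502135) (l 16777320))) (a (b (a (b (l 464561111287) (l 16777144)) (l 149954757015)) (l 16776712)) (l 16776672))) (l 207399945751)))) (l 388325442807)) (c (l 287930586215) (l 286319973399))))))), by decide +kernel⟩

def k94_pp_101_s : ∃ t, chk3 f_pp_101_s t 154 241 1 = true :=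
  ⟨(a (b (l 3) (c (b (c (a (l 3) (a (l 3) (a (l 3) (b (l 3) (b (l 3) (a (l 429664502071) (b (l 3) (l 16777168)))))))) (l 474224790071)) (b (c (b (a (l 3) (c (a (a (l 3) (a (l 470466691495) (l 397989118167))) (a (a (b (l 344838898151) (l 16777104)) (l 136532984119)) (l 16776872))) (l 242296554935))) (a (a (l 3) (a (l 3) (a (l 3) (l 435033211207)))) (a (a (b (l 402284085447) (l 144049176855)) (l 16777272)) (l 16776520)))) (l 358260670967)) (c (a (a (c (c (b (l 476909142759) (a (a (l 441475662167) (l 368998088839)) (c (b (l 235317232023) (l 16776976)) (l 16777104)))) (l 376514281847)) (l 283635615335)) (b (c (a (b (l 449528725815) (l 218674233687)) (l 123111211367)) (l 16777160)) (l 16776672))) (l 16777376)) (l 159618435255)))) (c (l 361481897047) (l 377051152471)))) (b (a (l 3) (a (l 3) (c (b (l 3) (c (b (l 3) (b (a (l 3) (l 454897435095)) (c (a (b (l 471003562343) (l 233706619287)) (a (l 148881015191) (l 16776984))) (l 16777184)))) (l 410337149911))) (l 465634853911)))) (c (c (b (b (a (c (a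 (l 3) (b (l 3) (a (a (l 3) (l 424832663847)) (b (l 389936054439) (l 16777088))))) (l 421074568103)) (a (c (c (b (a (a (l 458655531399) (l 386177958071)) (b (l 256792068551) (l 16777008))) (l 16776784)) (l 154786595815)) (l 16777032)) (l 16776456))) (c (a (a (b (a (l 466171724295) (b (l 436643823895) (l 190756946311))) (a (b (l 227801039223) (l 16776952)) (l 16776792))) (c (l 84456505703) (l 16776616))) (l 16775760)) (l 115058148855))) (l 16777472)) (a (b (l 241222814599) (l 16775424)) (l 16775280))) (c (l 16778488) (l 122574343639))))), by decide +kernel⟩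

def k95_pp_101_s : ∃ t, chk3 f_pp_101_s t 155 241 1 = true :=
  ⟨(a (b (b (a (l 3) (b (l 3) (c (c (c (a (b (l 3) (a (l 475298529831) (b (l 450602467639) (l 217600491879)))) (a (b (l 442012533175) (l 125258695015)) (b (b (l 401747214535) (l 16777112)) (l 16776744)))) (l 349670736103)) (l 250886490263)) (l 239075330519)))) (c (c (a (b (c (b (a (l 3) (a (l 3) (a (l 442012533095) (l 372219314311)))) (c (a (a (l 3) (l 424295792999)) (a (b (l 285246226967) (l 16777056)) (l 16776896))) (l 342154543223))) (l 373293056471)) (b (a (a (b (l 417853341943) (l 155323466071)) (l 107541954903)) (l 16776552)) (l 16776344))) (a (a (b (a (b (b (l 299204870583) (l 16777048)) (l 16776688)) (l 16777360)) (l 16775880)) (l 16777400)) (l 16775664))) (c (l 144049179223) (l 16776528))) (c (l 16776536) (l 16776536)))) (c (c (l 16776840) (l 16773576)) (l 16776216))) (c (b (c (b (a (c (b (a (b (l 3) (c (a (l 411410891063) (b (l 266992615911) (l 16777032))) (l 247128392679))) (b (a (b (l 477446013303) (l 232632877559))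 (a (l 169818980711) (l 16777000))) (l 16776728))) (l 16777424)) (b (l 231559137031) (l 16776280))) (l 16776944)) (l 16774248)) (l 104320731863)) (l 16771312)) (c (l 16773304) (l 16778888)))), by decide +kernel⟩

def k96_pp_101_s : ∃ t, chk3 f_pp_101_s t 152 242 1 = true :=
  ⟨(b (l 3) (c (a (a (l 3) (b (l 3) (c (b (a (l 3) (a (l 3) (a (l 3) (b (l 3) (l 457581789575))))) (c (b (a (l 3) (a (a (l 422148309287) (b (l 477982884103) (l 16777152))) (a (b (l 262160777607) (l 16777008)) (l 16776992)))) (a (a (a (l 459729273223) (b (l 3) (l 235317231943))) (a (b (l 330343383495) (l 16777080)) (l 129553662231))) (l 16776704))) (l 324437802983))) (l 373293056679)))) (b (c (a (b (l 3) (c (a (l 3) (b (l 3) (a (l 3) (a (l 458118660487) (a (l 415705858279) (l 373829927047)))))) (l 453286823127))) (b (c (a (l 3) (b (l 3) (a (l 461339886055) (b (l 428053889287) (l 152639111527))))) (l 430738244615)) (c (a (b (a (l 3) (a (l 419463954727) (b (l 470466691335) (l 16777152)))) (a (a (b (l 327122158023) (l 16777080))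 (l 127943049495)) (l 16776848))) (a (a (b (b (l 260550164855) (l 16777008)) (l 16776632)) (l 16776736)) (l 16776520))) (l 188072592663)))) (a (l 473687918455) (l 342691414279))) (c (a (b (b (c (a (a (l 3) (a (l 3) (l 421074567463))) (a (b (l 387251699879) (l 16777240)) (l 16776920))) (l 250886489607)) (c (c (a (a (b (l 433422598407) (l 165524013351)) (l 111836922151)) (l 16776560)) (l 131164275431)) (l 16776848))) (l 16777408)) (l 16776760)) (l 112910665911)))) (c (a (l 426443279095) (b (l 376514282519) (l 16776032))) (a (l 428053891767) (b (l 278266909367) (l 16776032)))))), by decide +kernel⟩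

def k97_pp_101_s : ∃ t, chk3 f_pp_101_s t 152 243 1 = true :=
  ⟨(b (c (a (b (a (c (a (b (c (b (l 3) (c (a (l 462413627895) (b (l 433959469319) (l 196125655335))) (l 382419861783))) (l 413558375031)) (a (a (b (b (l 264308261255) (l 16777008)) (l 16776632)) (l 16777392)) (l 16776520))) (c (b (b (a (b (l 3) (l 410874020055)) (b (l 388862312615) (l 16777248))) (a (l 115595018535) (l 16776704))) (l 16776088)) (l 123111212247))) (l 186461980855)) (c (c (c (l 63518540103) (l 16775736)) (l 16775736)) (l 16775736))) (l 16776912)) (l 16776944)) (c (l 90898959687) (a (l 16777928) (l 16773008)))) (c (l 16775352) (l 16775344))), by decide +kernel⟩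

def k98_pp_101_s : ∃ t, chk3 f_pp_101_s t 153 121 1 = true :=
  ⟨(b (b (b (a (l 3) (c (c (a (b (l 3) (c (a (b (l 3) (a (l 3) (a (l 450065596775) (b (l 3) (l 215453008183))))) (c (b (a (l 3) (b (l 459729273175) (l 224042942839))) (a (a (b (l 325511545207) (l 16777064)) (l 16777368)) (l 16776824))) (l 321216577511))) (l 363629379959))) (b (c (a (b (l 3) (a (l 451676209607) (b (l 413558374631) (l 141364822343)))) (b (a (a (l 476909142471) (l 406579052791)) (a (b (l 448454983895) (l 16777120)) (l 141364822375))) (l 87140860263))) (l 341080801431)) (a (c (a (b (b (l 190756946311) (l 16776912)) (l 16776544)) (l 16776504)) (l 16776648)) (l 16776080)))) (a (l 400136602663) (l 158007822567))) (c (l 231559139335) (l 226190430215)))) (c (a (c (a (b (l 3) (c (a (l 3) (b (l 3) (a (a (l 455971176823) (a (l 409800278247) (l 371145572471))) (a (b (l 323364061623) (l 16777072)) (l 125795565831))))) (l 408726536999))) (c (a (b (a (l 3) (b (l 3) (l 458118660567))) (c (b (b (a (l 467782336871) (l 207936815447))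 (a (a (l 289541194119) (l 16777144)) (l 16776928))) (l 16776696)) (l 140827951975))) (b (a (b (l 3) (b (l 422685180151) (l 148344144215))) (b (a (l 3) (l 415168987399)) (l 111836922119))) (l 16776376))) (b (l 386177958487) (l 16776664)))) (a (l 431275115991) (l 213305526935))) (a (a (b (b (a (c (b (a (l 455971176695) (l 252497101159)) (l 16777064)) (l 16777184)) (l 16777392)) (l 16776552)) (l 16775800)) (l 16777040)) (l 16774872))) (a (c (l 254644588999) (l 250886492567)) (l 16778072)))) (c (a (b (a (c (c (b (a (b (a (a (l 3) (l 420000825623)) (b (l 385104216215) (l 16777072))) (c (l 94120182087) (l 16776840))) (l 16777176)) (l 16775808)) (l 109689439527)) (l 16776312)) (l 16776472)) (l 16776360)) (l 16775080)) (c (l 16773608) (l 16773608)))) (c (l 16775440) (c (l 16767576) (l 16767576)))), by decide +kernel⟩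

def k99_pp_101_s : ∃ t, chk3 f_pp_101_s t 77 121 1 = true :=
  ⟨(b (a (c (a (c (c (b (c (b (l 63518539911) (l 16773160)) (l 16776776)) (l 16770176)) (l 16777416)) (l 16772176)) (l 16776456)) (c (l 16771056) (l 16776312))) (c (l 16771760) (l 16774448))) (c (l 16771272) (c (l 16760816) (l 16760840)))), by decide +kernel⟩

def k100_pp_101_s : ∃ t, chk3 f_pp_101_s t 78 480 1 = true :=
  ⟨(a (a (l 3) (b (l 3) (c (c (a (b (l 3) (b (a (l 3) (a (l 3) (b (l 3) (l 262160777783)))) (a (a (l 3) (l 428053889399)) (a (b (l 286319968887) (l 16777080)) (l 16776912))))) (a (b (b (l 3) (a (l 477446013479) (b (l 456508047687) (l 211158041031)))) (a (b (b (l 238538457591) (l 16776992)) (l 16776632)) (l 16776592))) (c (b (b (a (l 443086274999) (b (l 316384739943) (l 16777112))) (l 109689438631)) (l 16776168)) (l 16776656)))) (l 338933317911)) (c (l 235317235959) (l 16778968))))) (c (c (c (a (b (a (b (a (l 3) (b (l 3) (l 468319208119))) (b (a (l 3) (a (l 375440539831) (l 139217338823))) (a (a (l 409263407415)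 (a (l 235854103015) (l 16777080))) (l 16776728)))) (b (a (c (b (l 438791307831) (a (a (l 292762419863) (l 220284846535)) (l 16776984))) (l 351281348791)) (a (a (b (l 253570843159) (l 16776776)) (l 121500598583)) (l 16776664))) (l 16776128))) (c (l 62981669351) (l 16775248))) (l 16776576)) (a (b (a (b (l 479056627111) (l 231559137015)) (l 138143598295)) (l 16775248)) (l 16773968))) (a (a (b (l 371145573031) (l 16775816)) (l 16775664)) (l 16773984))) (c (l 119353119799) (a (l 16779368) (l 16774032))))), by decide +kernel⟩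

def k101_pp_101_s : ∃ t, chk3 f_pp_101_s t 78 481 1 = true :=
  ⟨(c (a (b (a (c (a (a (l 3) (b (l 3) (b (l 3) (a (l 445233758647) (b (l 403357827287) (l 16777280)))))) (a (b (l 3) (c (b (a (l 411947761991) (b (l 258939552327) (l 16777040))) (l 16776816)) (l 16777064))) (c (b (b (l 471003562695) (c (a (l 379735507143) (l 142438564263)) (l 222969201527))) (l 16776488)) (l 163913402151)))) (l 363629380359)) (a (b (a (c (a (b (b (l 429127631111) (l 189683204487)) (l 16776792)) (l 93583311287)) (l 16776904)) (l 16776336)) (l 16775648)) (l 16776320))) (a (a (c (c (b (b (a (a (l 3) (b (l 455434305863) (l 223506071927))) (l 109152567719)) (a (a (b (l 233706619399) (l 16776992)) (l 16776832)) (l 16776408))) (l 16775960)) (l 123111212519)) (l 16776456)) (l 16777288)) (l 16773640))) (l 16776976)) (a (c (a (l 191293822135) (l 16774632)) (a (l 185388242023) (l 16774648))) (l 16776560))), by decide +kernel⟩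

def k102_pp_101_s : ∃ t, chk3 f_pp_101_s t 78 241 1 = true :=
  ⟨(c (c (c (a (l 16776424) (l 16765376)) (l 16776808)) (l 16778160)) (c (l 16778208) (a (l 16769984) (l 16765584)))), by decide +kernel⟩

def k103_pp_101_s : ∃ t, chk3 f_pp_101_s t 78 121 1 = true :=
  ⟨(c (c (l 16766264) (l 16755848)) (b (l 16770416) (l 16751976))), by decide +kernel⟩

def k104_pp_101_s : ∃ t, chk3 f_pp_101_s t 79 60 1 = true :=
  ⟨(b (c (a (c (a (l 16776432) (l 16774208)) (l 16775400)) (l 16770912)) (b (c (l 16766624) (l 16777200)) (l 16769504))) (c (l 16746936) (l 16757736))), by decide +kernel⟩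

def k105_pp_101_s : ∃ t, chk3 f_pp_101_s t 19 61 1 = true :=
  ⟨(a (b (a (c (c (l 16773384) (l 16768104)) (c (l 16773296) (l 16773248))) (c (l 16769608) (l 16759072))) (c (a (l 16741112) (l 16732224)) (a (l 16740696) (l 16731856)))) (a (b (c (l 16739752) (l 16739816)) (l 16744312)) (c (l 16748976) (l 16743888)))), by decide +kernel⟩

def k106_pp_101_s : ∃ t, chk3 f_pp_101_s t 19 31 1 = true :=
  ⟨(b (a (b (a (l 16744912) (l 16715216)) (l 16723456)) (b (l 16728552) (l 16685592))) (a (b (l 16685352) (l 16668296)) (c (l 16725896) (l 16721368)))), by decide +kernel⟩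

def k107_pp_101_s : ∃ t, chk3 f_pp_101_s t 5 6 1 = true :=
  ⟨(a (l 3) (b (l 3) (b (l 3) (b (a (l 3) (a (l 3) (a (b (l 3) (b (l 3) (c (l 469929809047) (l 469929806231)))) (c (b (l 512342585863) (b (a (l 481204098887) (l 293836130407)) (l 16771176))) (b (l 506436997399) (c (l 293299223223) (l 289541126151))))))) (a (a (l 3) (b (l 3) (a (l 3) (a (l 3) (b (l 3) (c (c (l 394231012199) (l 400136596775)) (l 301889168695))))))) (a (b (a (l 3) (b (c (l 499994571911) (l 495162728487)) (c (a (l 384030469991) (l 16773824)) (l 295983588823)))) (a (c (a (b (l 476372259047) (l 289004302167)) (b (b (l 372219311671) (l 16774504)) (l 16769272))) (c (l 286319890247) (l 282024921303))) (c (l 16776248) (l 16765608)))) (c (a (b (b (l 298667961239) (l 16766808)) (l 16756448)) (l 16774976)) (a (b (l 278803730583) (l 16756152)) (l 16774632))))))))), by decide +kernel⟩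

def k108_pp_101_s : ∃ t, chk3 f_pp_101_s t 10 28 1 = true :=
  ⟨(a (l 3) (b (l 3) (a (b (l 3) (a (l 3) (b (l 3) (a (c (b (l 3) (a (l 3) (c (l 464024237447) (l 481204105527)))) (l 532743699495)) (c (b (a (l 553144804791) (b (l 525764391671) (l 168208370711))) (a (a (b (l 442549402343) (l 16775912)) (l 16775680)) (l 16773944))) (c (l 189146344007) (l 181630151351))))))) (b (a (b (l 3) (a (l 3) (c (l 544554873399) (l 540259888455)))) (a (b (l 3) (c (b (l 510732003079) (a (a (l 371145571319) (l 157470952407)) (l 16774688))) (c (l 218137374151) (l 210621181591)))) (b (c (a (l 538112413767) (l 464561105511)) (l 477982870951)) (c (c (b (l 120426859895) (l 16771192)) (l 16773040)) (l 16773080))))) (a (c (b (a (b (l 3) (a (l 497847103031) (b (l 376514280519) (l 16775744)))) (b (a (l 410874017735) (l 130627406791)) (l 16773184))) (c (a (c (l 71034735143) (l 16772296)) (l 16767632)) (l 16770016))) (b (a (l 473151035671) (c (l 16775056) (l 16775080))) (c (l 16770080) (l 16770160)))) (c (c (l 16774816)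 (l 16764424)) (c (l 16764528) (l 16764656)))))))), by decide +kernel⟩

def k109_pp_101_s : ∃ t, chk3 f_pp_101_s t 20 58 1 = true :=
  ⟨(a (l 3) (b (a (l 3) (b (l 3) (b (l 3) (a (l 3) (c (a (l 555829163959) (b (l 524153779847) (a (a (l 390472924647) (l 168745240551)) (l 16776088)))) (c (l 454897429735) (l 263771400375))))))) (a (b (a (l 3) (b (l 3) (c (a (l 3) (c (b (l 3) (a (l 3) (l 422685179399))) (l 517711327319))) (l 542944253095)))) (c (a (b (a (l 3) (l 569787807767)) (c (a (a (l 527911877943) (b (l 3) (b (l 415168986983) (l 127406179383)))) (b (a (a (l 523080039991) (l 399062859575)) (a (b (l 415705857895) (l 16776568)) (l 16776464))) (l 16776760))) (a (l 466171721575) (l 158007824583)))) (b (a (c (b (l 534891199383) (a (b (l 519858814503) (l 189683205671)) (l 118816245079))) (l 381346118551)) (a (b (b (l 402820955735) (l 16776608)) (l 16775208)) (l 16777624))) (c (l 16778208) (l 16773008)))) (a (c (l 445770623207) (l 465097973687)) (c (l 136532991671) (b (l 180019534951) (l 16773104))))))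 (c (b (b (a (a (l 3) (c (a (l 526301263895) (b (l 3) (b (l 249275877559) (l 16776480)))) (l 455434302903))) (a (b (a (b (l 554755422695) (l 216526751767)) (l 135459243959)) (l 16775240)) (l 16773880))) (a (c (a (a (b (l 555829164823) (a (l 168208369367) (l 16776368))) (b (b (l 487646559623) (l 157470950823)) (l 16775504))) (l 72108475943)) (a (l 204178724007) (l 16774752))) (l 16771320))) (a (l 16777512) (l 16765768))) (b (a (b (l 520932548295) (c (l 16775920) (l 16775944))) (c (l 16773240) (l 16773296))) (c (l 16768192) (l 16768312))))))), by decide +kernel⟩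

def k110_pp_101_s : ∃ t, chk3 f_pp_101_s t 80 118 1 = true :=
  ⟨(b (l 3) (b (b (l 3) (a (l 3) (c (a (l 3) (c (a (a (l 3) (b (l 3) (l 416242729239))) (a (b (l 3) (a (l 208473687079) (l 16776896))) (b (l 367924346999) (l 16776472)))) (l 387788570247))) (l 517174456055)))) (a (c (a (l 3) (b (l 3) (c (a (l 3) (b (l 3) (a (l 445770629783) (a (l 355039445143) (l 165524013927))))) (l 488720301767)))) (l 557976641943)) (c (a (a (c (b (l 3) (b (a (a (l 469392949799) (l 385104216311)) (b (l 234243490823) (l 16776792))) (l 16776368))) (l 372756184855)) (c (b (b (l 482814722791) (a (b (l 482277851527) (l 206326203255)) (l 133311759079))) (l 16775712)) (l 166060887479))) (a (b (a (b (b (l 416779599911) (l 16777648)) (l 16776288)) (l 16777504)) (l 16774600)) (l 16777032))) (c (l 166597760919) (l 160155309959)))))), by decide +kernel⟩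

def k111_pp_101_s : ∃ t, chk3 f_pp_101_s t 81 118 1 = true :=
  ⟨(a (b (a (l 3) (b (l 3) (c (c (a (b (l 3) (b (l 508047655159) (a (l 370608701495) (l 16777496)))) (b (b (l 3) (l 458118660215)) (a (a (b (l 260550165735) (l 16776416)) (l 122574341015)) (l 16776176)))) (l 385641086183)) (c (l 254107720023) (l 248739010983))))) (c (b (c (a (b (c (a (b (l 3) (b (l 451676209607) (l 328195899431))) (b (a (l 416242729255) (l 164987143143)) (l 16776376))) (l 335712092167)) (c (c (l 86603989879) (l 16775528)) (l 16775536))) (l 16776832)) (a (b (l 232096010231) (l 16775544)) (l 16774240))) (l 16776848)) (c (l 16780104) (a (l 16779928) (l 16772480))))) (b (c (c (b (a (a (l 3) (a (l 535428071335) (b (l 3) (b (l 3) (l 215453009207))))) (b (a (l 570324680487) (a (l 441475661703) (b (l 489794043783) (l 16776808)))) (a (a (b (l 427517018087) (l 16776632)) (l 122037470279)) (l 16775680)))) (a (b (c (a (b (l 412484632759) (l 136532984823)) (l 16776072)) (l 176798304855)) (l 16774760)) (l 16773432))) (b (b (l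 524690650503) (l 327659028247)) (l 108615700007))) (b (c (l 406042178903) (l 249275884775)) (c (l 16774632) (l 16774664)))) (c (l 16774216) (l 16774400)))), by decide +kernel⟩

def k112_pp_101_s : ∃ t, chk3 f_pp_101_s t 40 119 1 = true :=
  ⟨(a (c (b (a (a (b (c (b (a (l 3) (a (l 3) (b (l 3) (b (l 3) (l 355039445159))))) (a (c (a (b (l 3) (b (l 438791307847) (l 209547428503))) (b (l 430738244391) (l 123111211687))) (l 355576316311)) (a (b (b (l 382419861815) (l 16776960)) (l 16776248)) (l 16777472)))) (b (l 524690653159) (l 198810013159))) (c (l 16777448) (l 16774200))) (b (c (b (c (a (b (a (l 474224788567) (b (l 451139338871) (l 214379266759))) (a (b (l 243370296135) (l 16776776)) (l 16776448))) (c (l 94657053431) (l 16776080))) (a (l 217063623239) (l 16776080))) (l 16774760)) (l 125795568823)) (l 16771952))) (c (l 16777320) (l 16770496))) (c (l 16775624) (l 16765248))) (a (b (b (c (a (l 254107720007) (l 16775744)) (a (l 248202140087) (l 16775760))) (l 16778384)) (l 16772848)) (c (l 16766888)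 (l 16777488)))) (c (c (l 16770424) (l 16760104)) (b (l 16774520) (l 16756704)))), by decide +kernel⟩

def k113_pp_101_s : ∃ t, chk3 f_pp_101_s t 41 59 1 = true :=
  ⟨(c (b (a (a (b (c (c (b (a (a (b (b (l 153175983399) (l 16775944)) (l 16774536)) (l 16774336)) (l 16772632)) (l 16770016)) (l 16777160)) (l 16771960)) (l 16764472)) (l 16774168)) (l 16767408)) (a (l 16751064) (l 16742112))) (b (a (b (c (l 16769800) (l 16775136)) (l 16773064)) (l 16772832)) (a (l 16751688) (l 16743032)))), by decide +kernel⟩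

def k114_pp_101_s : ∃ t, chk3 f_pp_101_s t 21 29 1 = true :=
  ⟨(b (b (a (b (a (a (l 3) (c (a (b (l 3) (a (l 503752684487) (b (l 545628616071) (l 145122920551)))) (b (l 539186162679) (a (b (a (l 266455747543) (l 178945788007)) (l 16775456)) (l 16775224)))) (c (l 415168981639) (l 424295785831)))) (a (c (b (c (a (b (l 454360562007) (l 137069857255)) (l 16774872)) (l 159618439399)) (l 16772344)) (c (l 16774248) (l 16774288))) (c (l 16769568) (l 16769728)))) (a (a (c (b (c (a (l 499457717607) (b (a (l 512879491559) (l 188609464743)) (l 16775776))) (l 365776861671)) (c (c (a (b (l 133848631351) (l 16774352)) (l 16772976)) (l 16774144)) (l 16774168))) (c (l 164987152087) (b (l 226727306247) (l 16774240)))) (c (c (l 16777936) (l 16771440)) (l 16776784))) (c (l 16775000) (l 16775296)))) (c (c (l 16775552) (l 16775440)) (c (l 16775704) (l 16776008)))) (a (a (c (c (l 16775664) (l 16762712)) (c (l 16762896) (l 16763088))) (c (l 16753528) (l 16754144))) (c (l 16739704) (l 16761720)))) (a (c (c (l 16767368)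 (l 16767912)) (c (b (l 16744104) (l 16729776)) (l 16769192))) (c (l 16749464) (l 16751424)))), by decide +kernel⟩

def k115_pp_101_s : ∃ t, chk3 f_pp_101_s t 11 14 1 = true :=
  ⟨(a (c (b (b (a (b (l 3) (a (b (l 3) (a (l 537575538295) (a (l 475298522871) (b (l 482814717191) (l 16775232))))) (b (a (l 484425329335) (c (b (l 365239990615) (l 16774264)) (l 168208376743))) (a (c (b (l 133848633687) (l 16771744)) (l 16773536)) (l 16768888))))) (b (b (a (a (l 3) (l 478519742983)) (a (b (l 376514278967) (l 16774488)) (l 16771592))) (a (a (a (l 472077296135) (b (l 478519748807) (l 16775560))) (c (b (l 139217343367) (l 16772096)) (l 16773832))) (l 16766888))) (a (c (l 16776008) (l 16765488)) (l 16756248)))) (a (b (b (a (a (b (a (l 479593492503) (l 155860340503)) (l 16773824)) (l 16770984)) (l 16764008)) (l 16777136)) (l 16771408)) (c (l 16760152) (l 16739280)))) (a (b (l 16749416) (l 16699584)) (b (l 16709904) (l 16681040)))) (a (b (b (b (l 3) (a (c (l 505363273223) (l 503752656231)) (b (a (l 480667223559)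 (l 290614892919)) (a (l 16768304) (l 16768904))))) (b (a (a (b (l 293836119255) (l 16768480)) (l 16777928)) (l 16771016)) (c (l 16750760) (l 16751040)))) (b (b (l 16736712) (l 16722752)) (l 16702336))) (b (b (b (a (b (l 506973908295) (c (l 184314509607) (l 298667936215))) (c (l 286319919111) (l 280414338359))) (c (l 16781784) (a (l 16765472) (l 16756120)))) (c (l 16760432) (l 16760688))) (b (l 16711696) (l 16684528))))) (b (b (c (a (b (l 16777464) (l 16742432)) (l 16731024)) (a (c (l 16770160) (a (l 16774720) (l 16744312))) (l 16730312))) (c (a (l 16720840) (l 16702664)) (a (l 16721056) (l 16702384)))) (b (c (l 16728496) (l 16705248)) (c (l 16653896) (l 16657544))))), by decide +kernel⟩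

def k116_pp_101_s : ∃ t, chk3 f_pp_101_s t 5 15 1 = true :=
  ⟨(a (b (c (b (a (a (b (c (l 16770056) (l 16770288)) (l 16754488)) (c (l 16744416) (l 16744968))) (a (l 16727016) (l 16688280))) (a (a (b (l 16717312) (l 16700816)) (l 16691216)) (l 16707080))) (b (a (b (a (c (l 16770544) (l 16770824)) (l 16732608)) (a (l 16755128) (l 16717112))) (a (l 16708072) (l 16691248))) (a (a (l 16730560) (l 16692392)) (l 16667776)))) (a (b (a (l 16717568) (l 16657704)) (b (l 16640992) (l 16624840))) (b (l 16695008) (l 16664656)))) (b (a (b (a (l 16692952) (l 16654112)) (l 16652872)) (c (l 16693392) (l 16636864))) (b (a (l 16598784) (l 16564512)) (a (l 16568944) (l 16624024))))), by decide +kernel⟩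

def k117_pp_101_s : ∃ t, chk3 f_pp_101_s t 3 2 1 = true :=
  ⟨(a (l 3) (l 1)), by decide +kernel⟩

def k118_pp_101_s : ∃ t, chk3 f_pp_101_s t 3 6 1 = true :=
  ⟨(a (b (a (b (l 3) (a (l 3) (a (l 3) (b (l 3) (a (c (l 509121342439) (l 503215754727)) (b (l 3) (c (l 336248959095) (l 295446704343)))))))) (b (l 1) (a (b (l 1) (a (b (l 1) (c (l 16763664) (l 16763792))) (l 1))) (l 1)))) (b (b (a (a (l 3) (c (a (b (l 490330891799) (a (l 423758909575) (l 291151765911))) (b (a (l 292762363255) (l 16765176)) (l 16756808))) (a (b (l 485499031639) (a (l 429127616615) (l 16771344))) (b (l 290614871527) (l 16756808))))) (a (a (c (l 16743888) (l 16744024)) (l 16745448)) (l 1))) (a (b (a (a (l 3) (a (c (l 492478367431) (l 487109652375)) (c (b (l 461339874663) (l 16763408)) (l 287930508599)))) (a (c (l 16773320) (l 16762768)) (l 16764496))) (a (a (a (l 3) (c (l 471540414423) (l 467245443303))) (a (c (l 287393656471) (l 285783043015)) (c (l 16763808) (l 16763696)))) (c (l 16760920) (l 16771144)))) (a (c (l 16708080)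 (l 16707960)) (l 16669552)))) (a (a (b (a (b (a (b (c (l 481204092935) (l 476909122023)) (c (l 291688632471) (l 289004277127))) (c (b (l 16762240) (l 16765944)) (l 16769240))) (c (l 16781448) (l 16781224))) (c (l 16769344) (l 16768992))) (a (c (l 16740024) (l 16760416)) (l 16749792))) (c (a (l 16758008) (l 16697304)) (b (l 16761352) (l 16692168)))) (a (b (l 16723744) (l 16655432)) (c (l 16631352) (l 16630184)))))) (a (b (l 1) (a (b (l 1) (l 16593168)) (l 1))) (l 1))), by decide +kernel⟩

def k119_pp_101_s : ∃ t, chk3 f_pp_101_s t 3 7 1 = true :=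
  ⟨(a (b (a (b (b (a (c (l 16703480) (l 16723120)) (l 16686768)) (a (c (l 16675536) (l 16674464)) (l 16638440))) (a (b (l 16694232) (l 16640664)) (b (l 16610984) (l 16584112)))) (b (a (l 16678328) (l 16578792)) (a (l 16562504) (l 16526936)))) (a (a (b (l 16671360) (b (l 16531320) (l 16510176))) (b (l 16563080) (b (l 16499816) (l 16464656)))) (a (b (l 16507456) (a (l 16481208) (l 16437600))) (b (l 16537448) (l 16506640))))) (b (a (b (a (l 16542152) (l 16505608)) (l 16536568)) (b (l 1) (a (l 16420480) (l 1)))) (a (a (b (l 16525864) (l 16353112)) (b (l 16494104) (l 6))) (a (b (l 16394224) (l 6)) (l 6))))), by decide +kernel⟩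

theorem s120_pp_101_s : ∃ t, chk3 f_pp_101_s t 3 3 1 = true := ex3_b k118_pp_101_s k119_pp_101_s

theorem s121_pp_101_s : ∃ t, chk3 f_pp_101_s t 3 1 1 = true := ex3_b k117_pp_101_s s120_pp_101_s

theorem s122_pp_101_s : ∃ t, chk3 f_pp_101_s t 40 118 1 = true := ex3_a k110_pp_101_s k111_pp_101_s

theorem s123_pp_101_s : ∃ t, chk3 f_pp_101_s t 40 59 1 = true := ex3_b s122_pp_101_s k112_pp_101_s

theorem s124_pp_101_s : ∃ t, chk3 f_pp_101_s t 20 59 1 = true := ex3_a s123_pp_101_s k113_pp_101_s

theorem s125_pp_101_s : ∃ t, chk3 f_pp_101_s t 20 29 1 = true := ex3_b k109_pp_101_s s124_pp_101_s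

theorem s126_pp_101_s : ∃ t, chk3 f_pp_101_s t 10 29 1 = true := ex3_a s125_pp_101_s k114_pp_101_s

theorem s127_pp_101_s : ∃ t, chk3 f_pp_101_s t 10 14 1 = true := ex3_b k108_pp_101_s s126_pp_101_s

theorem s128_pp_101_s : ∃ t, chk3 f_pp_101_s t 5 14 1 = true := ex3_a s127_pp_101_s k115_pp_101_s

theorem s129_pp_101_s : ∃ t, chk3 f_pp_101_s t 5 7 1 = true := ex3_b s128_pp_101_s k116_pp_101_s

theorem s130_pp_101_s : ∃ t, chk3 f_pp_101_s t 5 3 1 = true := ex3_b k107_pp_101_s s129_pp_101_s

theorem s131_pp_101_s : ∃ t, chk3 f_pp_101_s t 78 240 1 = true := ex3_b k100_pp_101_s k101_pp_101_s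

theorem s132_pp_101_s : ∃ t, chk3 f_pp_101_s t 78 120 1 = true := ex3_b s131_pp_101_s k102_pp_101_s

theorem s133_pp_101_s : ∃ t, chk3 f_pp_101_s t 78 60 1 = true := ex3_b s132_pp_101_s k103_pp_101_s

theorem s134_pp_101_s : ∃ t, chk3 f_pp_101_s t 39 60 1 = true := ex3_a s133_pp_101_s k104_pp_101_s

theorem s135_pp_101_s : ∃ t, chk3 f_pp_101_s t 152 121 1 = true := ex3_b k96_pp_101_s k97_pp_101_s

theorem s136_pp_101_s : ∃ t, chk3 f_pp_101_s t 76 121 1 = true := ex3_a s135_pp_101_s k98_pp_101_s

theorem s137_pp_101_s : ∃ t, chk3 f_pp_101_s t 38 121 1 = true := ex3_a s136_pp_101_s k99_pp_101_s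

theorem s138_pp_101_s : ∃ t, chk3 f_pp_101_s t 77 241 1 = true := ex3_a k94_pp_101_s k95_pp_101_s

theorem s139_pp_101_s : ∃ t, chk3 f_pp_101_s t 77 120 1 = true := ex3_b k93_pp_101_s s138_pp_101_s

theorem s140_pp_101_s : ∃ t, chk3 f_pp_101_s t 38 120 1 = true := ex3_a k92_pp_101_s s139_pp_101_s

theorem s141_pp_101_s : ∃ t, chk3 f_pp_101_s t 38 60 1 = true := ex3_b s140_pp_101_s s137_pp_101_s

theorem s142_pp_101_s : ∃ t, chk3 f_pp_101_s t 19 60 1 = true := ex3_a s141_pp_101_s s134_pp_101_s

theorem s143_pp_101_s : ∃ t, chk3 f_pp_101_s t 19 30 1 = true := ex3_b s142_pp_101_s k105_pp_101_s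

theorem s144_pp_101_s : ∃ t, chk3 f_pp_101_s t 19 15 1 = true := ex3_b s143_pp_101_s k106_pp_101_s

theorem s145_pp_101_s : ∃ t, chk3 f_pp_101_s t 39 239 1 = true := ex3_a k90_pp_101_s k91_pp_101_s

theorem s146_pp_101_s : ∃ t, chk3 f_pp_101_s t 39 119 1 = true := ex3_b k89_pp_101_s s145_pp_101_s

theorem s147_pp_101_s : ∃ t, chk3 f_pp_101_s t 39 59 1 = true := ex3_b k88_pp_101_s s146_pp_101_s

theorem s148_pp_101_s : ∃ t, chk3 f_pp_101_s t 19 59 1 = true := ex3_a k87_pp_101_s s147_pp_101_s

theorem s149_pp_101_s : ∃ t, chk3 f_pp_101_s t 19 29 1 = true := ex3_b k86_pp_101_s s148_pp_101_s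

theorem s150_pp_101_s : ∃ t, chk3 f_pp_101_s t 19 14 1 = true := ex3_b k85_pp_101_s s149_pp_101_s

theorem s151_pp_101_s : ∃ t, chk3 f_pp_101_s t 19 7 1 = true := ex3_b s150_pp_101_s s144_pp_101_s

theorem s152_pp_101_s : ∃ t, chk3 f_pp_101_s t 148 245 1 = true := ex3_b k79_pp_101_s k80_pp_101_s

theorem s153_pp_101_s : ∃ t, chk3 f_pp_101_s t 74 245 1 = true := ex3_a s152_pp_101_s k81_pp_101_s

theorem s154_pp_101_s : ∃ t, chk3 f_pp_101_s t 149 244 1 = true := ex3_b k77_pp_101_s k78_pp_101_s

theorem s155_pp_101_s : ∃ t, chk3 f_pp_101_s t 74 244 1 = true := ex3_a k76_pp_101_s s154_pp_101_s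

theorem s156_pp_101_s : ∃ t, chk3 f_pp_101_s t 74 122 1 = true := ex3_b s155_pp_101_s s153_pp_101_s

theorem s157_pp_101_s : ∃ t, chk3 f_pp_101_s t 37 122 1 = true := ex3_a s156_pp_101_s k82_pp_101_s

theorem s158_pp_101_s : ∃ t, chk3 f_pp_101_s t 37 61 1 = true := ex3_b s157_pp_101_s k83_pp_101_s

theorem s159_pp_101_s : ∃ t, chk3 f_pp_101_s t 146 492 1 = true := ex3_a k71_pp_101_s k72_pp_101_s

theorem s160_pp_101_s : ∃ t, chk3 f_pp_101_s t 73 492 1 = true := ex3_a s159_pp_101_s k73_pp_101_s

theorem s161_pp_101_s : ∃ t, chk3 f_pp_101_s t 73 246 1 = true := ex3_b s160_pp_101_s k74_pp_101_s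

theorem s162_pp_101_s : ∃ t, chk3 f_pp_101_s t 73 123 1 = true := ex3_b s161_pp_101_s k75_pp_101_s

theorem s163_pp_101_s : ∃ t, chk3 f_pp_101_s t 144 494 1 = true := ex3_b k67_pp_101_s k68_pp_101_s

theorem s164_pp_101_s : ∃ t, chk3 f_pp_101_s t 144 247 1 = true := ex3_b s163_pp_101_s k69_pp_101_s

theorem s165_pp_101_s : ∃ t, chk3 f_pp_101_s t 72 247 1 = true := ex3_a s164_pp_101_s k70_pp_101_s

theorem s166_pp_101_s : ∃ t, chk3 f_pp_101_s t 145 246 1 = true := ex3_a k65_pp_101_s k66_pp_101_s

theorem s167_pp_101_s : ∃ t, chk3 f_pp_101_s t 72 246 1 = true := ex3_a k64_pp_101_s s166_pp_101_s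

theorem s168_pp_101_s : ∃ t, chk3 f_pp_101_s t 72 123 1 = true := ex3_b s167_pp_101_s s165_pp_101_s

theorem s169_pp_101_s : ∃ t, chk3 f_pp_101_s t 36 123 1 = true := ex3_a s168_pp_101_s s162_pp_101_s

theorem s170_pp_101_s : ∃ t, chk3 f_pp_101_s t 147 491 1 = true := ex3_b k62_pp_101_s k63_pp_101_s

theorem s171_pp_101_s : ∃ t, chk3 f_pp_101_s t 147 245 1 = true := ex3_b k61_pp_101_s s170_pp_101_s

theorem s172_pp_101_s : ∃ t, chk3 f_pp_101_s t 73 245 1 = true := ex3_a k60_pp_101_s s171_pp_101_s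

theorem s173_pp_101_s : ∃ t, chk3 f_pp_101_s t 73 122 1 = true := ex3_b k59_pp_101_s s172_pp_101_s

theorem s174_pp_101_s : ∃ t, chk3 f_pp_101_s t 36 122 1 = true := ex3_a k58_pp_101_s s173_pp_101_s

theorem s175_pp_101_s : ∃ t, chk3 f_pp_101_s t 36 61 1 = true := ex3_b s174_pp_101_s s169_pp_101_s

theorem s176_pp_101_s : ∃ t, chk3 f_pp_101_s t 18 61 1 = true := ex3_a s175_pp_101_s s158_pp_101_s

theorem s177_pp_101_s : ∃ t, chk3 f_pp_101_s t 151 243 1 = true := ex3_a k56_pp_101_s k57_pp_101_s

theorem s178_pp_101_s : ∃ t, chk3 f_pp_101_s t 75 243 1 = true := ex3_a k55_pp_101_s s177_pp_101_s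

theorem s179_pp_101_s : ∃ t, chk3 f_pp_101_s t 75 121 1 = true := ex3_b k54_pp_101_s s178_pp_101_s

theorem s180_pp_101_s : ∃ t, chk3 f_pp_101_s t 37 121 1 = true := ex3_a k53_pp_101_s s179_pp_101_s

theorem s181_pp_101_s : ∃ t, chk3 f_pp_101_s t 37 60 1 = true := ex3_b k52_pp_101_s s180_pp_101_s

theorem s182_pp_101_s : ∃ t, chk3 f_pp_101_s t 18 60 1 = true := ex3_a k51_pp_101_s s181_pp_101_s

theorem s183_pp_101_s : ∃ t, chk3 f_pp_101_s t 18 30 1 = true := ex3_b s182_pp_101_s s176_pp_101_s

theorem s184_pp_101_s : ∃ t, chk3 f_pp_101_s t 18 15 1 = true := ex3_b s183_pp_101_s k84_pp_101_s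

theorem s185_pp_101_s : ∃ t, chk3 f_pp_101_s t 18 7 1 = true := ex3_b k50_pp_101_s s184_pp_101_s

theorem s186_pp_101_s : ∃ t, chk3 f_pp_101_s t 9 7 1 = true := ex3_a s185_pp_101_s s151_pp_101_s

theorem s187_pp_101_s : ∃ t, chk3 f_pp_101_s t 142 496 1 = true := ex3_b k43_pp_101_s k44_pp_101_s

theorem s188_pp_101_s : ∃ t, chk3 f_pp_101_s t 142 248 1 = true := ex3_b s187_pp_101_s k45_pp_101_s

theorem s189_pp_101_s : ∃ t, chk3 f_pp_101_s t 71 248 1 = true := ex3_a s188_pp_101_s k46_pp_101_s

theorem s190_pp_101_s : ∃ t, chk3 f_pp_101_s t 71 124 1 = true := ex3_b s189_pp_101_s k47_pp_101_s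

theorem s191_pp_101_s : ∃ t, chk3 f_pp_101_s t 282 498 1 = true := ex3_b k39_pp_101_s k40_pp_101_s

theorem s192_pp_101_s : ∃ t, chk3 f_pp_101_s t 141 498 1 = true := ex3_a s191_pp_101_s k41_pp_101_s

theorem s193_pp_101_s : ∃ t, chk3 f_pp_101_s t 141 249 1 = true := ex3_b s192_pp_101_s k42_pp_101_s

theorem s194_pp_101_s : ∃ t, chk3 f_pp_101_s t 140 998 1 = true := ex3_a k36_pp_101_s k37_pp_101_s

theorem s195_pp_101_s : ∃ t, chk3 f_pp_101_s t 140 499 1 = true := ex3_b s194_pp_101_s k38_pp_101_s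

theorem s196_pp_101_s : ∃ t, chk3 f_pp_101_s t 281 997 1 = true := ex3_b k34_pp_101_s k35_pp_101_s

theorem s197_pp_101_s : ∃ t, chk3 f_pp_101_s t 281 498 1 = true := ex3_b k33_pp_101_s s196_pp_101_s

theorem s198_pp_101_s : ∃ t, chk3 f_pp_101_s t 140 498 1 = true := ex3_a k32_pp_101_s s197_pp_101_s

theorem s199_pp_101_s : ∃ t, chk3 f_pp_101_s t 140 249 1 = true := ex3_b s198_pp_101_s s195_pp_101_s

theorem s200_pp_101_s : ∃ t, chk3 f_pp_101_s t 70 249 1 = true := ex3_a s199_pp_101_s s193_pp_101_s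

theorem s201_pp_101_s : ∃ t, chk3 f_pp_101_s t 141 497 1 = true := ex3_b k30_pp_101_s k31_pp_101_s

theorem s202_pp_101_s : ∃ t, chk3 f_pp_101_s t 141 248 1 = true := ex3_b k29_pp_101_s s201_pp_101_s

theorem s203_pp_101_s : ∃ t, chk3 f_pp_101_s t 70 248 1 = true := ex3_a k28_pp_101_s s202_pp_101_s

theorem s204_pp_101_s : ∃ t, chk3 f_pp_101_s t 70 124 1 = true := ex3_b s203_pp_101_s s200_pp_101_s

theorem s205_pp_101_s : ∃ t, chk3 f_pp_101_s t 35 124 1 = true := ex3_a s204_pp_101_s s190_pp_101_s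

theorem s206_pp_101_s : ∃ t, chk3 f_pp_101_s t 35 62 1 = true := ex3_b s205_pp_101_s k48_pp_101_s

theorem s207_pp_101_s : ∃ t, chk3 f_pp_101_s t 278 500 1 = true := ex3_a k23_pp_101_s k24_pp_101_s

theorem s208_pp_101_s : ∃ t, chk3 f_pp_101_s t 139 500 1 = true := ex3_a s207_pp_101_s k25_pp_101_s

theorem s209_pp_101_s : ∃ t, chk3 f_pp_101_s t 139 250 1 = true := ex3_b s208_pp_101_s k26_pp_101_s

theorem s210_pp_101_s : ∃ t, chk3 f_pp_101_s t 139 125 1 = true := ex3_b s209_pp_101_s k27_pp_101_s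

theorem s211_pp_101_s : ∃ t, chk3 f_pp_101_s t 277 125 1 = true := ex3_a k21_pp_101_s k22_pp_101_s

theorem s212_pp_101_s : ∃ t, chk3 f_pp_101_s t 138 125 1 = true := ex3_a k20_pp_101_s s211_pp_101_s

theorem s213_pp_101_s : ∃ t, chk3 f_pp_101_s t 69 125 1 = true := ex3_a s212_pp_101_s s210_pp_101_s

theorem s214_pp_101_s : ∃ t, chk3 f_pp_101_s t 34 125 1 = true := ex3_a k19_pp_101_s s213_pp_101_s

theorem s215_pp_101_s : ∃ t, chk3 f_pp_101_s t 139 249 1 = true := ex3_a k17_pp_101_s k18_pp_101_s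

theorem s216_pp_101_s : ∃ t, chk3 f_pp_101_s t 69 249 1 = true := ex3_a k16_pp_101_s s215_pp_101_s

theorem s217_pp_101_s : ∃ t, chk3 f_pp_101_s t 69 124 1 = true := ex3_b k15_pp_101_s s216_pp_101_s

theorem s218_pp_101_s : ∃ t, chk3 f_pp_101_s t 34 124 1 = true := ex3_a k14_pp_101_s s217_pp_101_s

theorem s219_pp_101_s : ∃ t, chk3 f_pp_101_s t 34 62 1 = true := ex3_b s218_pp_101_s s214_pp_101_s

theorem s220_pp_101_s : ∃ t, chk3 f_pp_101_s t 17 62 1 = true := ex3_a s219_pp_101_s s206_pp_101_s

theorem s221_pp_101_s : ∃ t, chk3 f_pp_101_s t 17 31 1 = true := ex3_b s220_pp_101_s k49_pp_101_s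

theorem s222_pp_101_s : ∃ t, chk3 f_pp_101_s t 8 31 1 = true := ex3_a k13_pp_101_s s221_pp_101_s

theorem s223_pp_101_s : ∃ t, chk3 f_pp_101_s t 143 495 1 = true := ex3_b k11_pp_101_s k12_pp_101_s

theorem s224_pp_101_s : ∃ t, chk3 f_pp_101_s t 143 247 1 = true := ex3_b k10_pp_101_s s223_pp_101_s

theorem s225_pp_101_s : ∃ t, chk3 f_pp_101_s t 71 247 1 = true := ex3_a k9_pp_101_s s224_pp_101_s

theorem s226_pp_101_s : ∃ t, chk3 f_pp_101_s t 71 123 1 = true := ex3_b k8_pp_101_s s225_pp_101_s

theorem s227_pp_101_s : ∃ t, chk3 f_pp_101_s t 35 123 1 = true := ex3_a k7_pp_101_s s226_pp_101_s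

theorem s228_pp_101_s : ∃ t, chk3 f_pp_101_s t 35 61 1 = true := ex3_b k6_pp_101_s s227_pp_101_s

theorem s229_pp_101_s : ∃ t, chk3 f_pp_101_s t 17 61 1 = true := ex3_a k5_pp_101_s s228_pp_101_s

theorem s230_pp_101_s : ∃ t, chk3 f_pp_101_s t 17 30 1 = true := ex3_b k4_pp_101_s s229_pp_101_s

theorem s231_pp_101_s : ∃ t, chk3 f_pp_101_s t 8 30 1 = true := ex3_a k3_pp_101_s s230_pp_101_s

theorem s232_pp_101_s : ∃ t, chk3 f_pp_101_s t 8 15 1 = true := ex3_b s231_pp_101_s s222_pp_101_s

theorem s233_pp_101_s : ∃ t, chk3 f_pp_101_s t 8 7 1 = true := ex3_b k2_pp_101_s s232_pp_101_s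

theorem s234_pp_101_s : ∃ t, chk3 f_pp_101_s t 4 7 1 = true := ex3_a s233_pp_101_s s186_pp_101_s

theorem s235_pp_101_s : ∃ t, chk3 f_pp_101_s t 4 3 1 = true := ex3_b k1_pp_101_s s234_pp_101_s

theorem s236_pp_101_s : ∃ t, chk3 f_pp_101_s t 2 3 1 = true := ex3_a s235_pp_101_s s130_pp_101_s

theorem s237_pp_101_s : ∃ t, chk3 f_pp_101_s t 2 1 1 = true := ex3_b k0_pp_101_s s236_pp_101_s

theorem s238_pp_101_s : ∃ t, chk3 f_pp_101_s t 1 1 1 = true := ex3_a s237_pp_101_s s121_pp_101_s

theorem c_pp_101_s : CertNE 536870912 536870912 536870912 536870912 858993459 64424510 3 eng mog cd4q1 cd0q1 pd0 false true true .npn 1 0 1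
    ndB4q1 ndB0q1 pcB0 cut_pp_101_s Ext.none :=
  certNE2 (fam := false) (s1 := true) (s2 := true) (a := 1) (b := 0) (c := 1) (cn := .npn) (n1 := ndB4q1) (n2 := ndB0q1) (pc := pcB0) (cut := cut_pp_101_s) (xt := Ext.none) (P1 := 536870912) (W1 := 536870912) (P2 := 536870912) (W2 := 536870912) (P3 := 858993459) (W3 := 64424510) (N0 := 3) (En := eng) (mo := mog) (C1 := cd4q1) (C2 := cd0q1) (C3 := pd0)
    rfl (fun _ => rfl) s238_pp_101_s

noncomputable def cut_pp_102_s : Cut := Cut.of [[⟨4, 0, 0, 1449551462⟩], [⟨0, 1, 0, 67108864⟩, ⟨1, 0, 0, 67108864⟩, ⟨2, 1, 0, 67108864⟩]]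

noncomputable def f_pp_102_s : ℕ → ℕ → ℕ → ℕ → Bool := onCell 0 536870912 0 536870912 858993459 64424510
    (rowNE 3 eng mog cd4q1 cd0q2 pd0 2 false true true .npp 1 0 2 (qsf 536870912 536870912 0 536870912 0) ndB4q1 ndB0q2 pcB0 cut_pp_102_s Ext.none)

def k0_pp_102_s : ∃ t, chk3 f_pp_102_s t 1 1 1 = true :=
  ⟨(a (b (a (l 6) (l 6)) (a (b (a (l 2) (b (l 6) (b (a (a (l 2) (l 16016552)) (l 6)) (a (a (b (l 16138712) (l 16193888)) (l 16151032)) (a (l 16096160) (a (l 16072000) (l 16059920))))))) (a (a (b (l 2) (l 14)) (b (b (b (l 2) (a (l 2) (l 16324096))) (a (l 14) (b (l 16444824) (l 16504712)))) (a (l 14) (a (l 14) (b (b (l 16502096) (l 16565352)) (b (l 16629872) (b (l 16678696) (l 16710760)))))))) (a (a (b (b (b (l 16250304) (l 16307640)) (c (l 16388536) (l 16383400))) (b (b (l 16468048) (l 16553024)) (b (a (l 16622584) (l 16613744)) (b (l 16667328) (l 16699288))))) (b (b (l 16269360) (b (l 16339376) (l 16402288))) (b (b (l 16467008) (l 16533112)) (b (l 16579168) (b (l 16650624) (l 16682952))))))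 (b (a (b (l 16219232) (l 16325248)) (b (a (l 16198104) (l 16187144)) (a (l 16327840) (l 16317800)))) (b (a (b (l 16445048) (l 16512816)) (b (l 16423912) (l 16492704))) (b (a (l 16581304) (l 16562016)) (b (l 16623616) (l 16720232)))))))) (a (b (a (b (l 6) (a (b (l 6) (l 16061240)) (l 6))) (l 6)) (b (a (b (a (l 16186256) (l 16184504)) (a (l 16293480) (l 16309312))) (b (l 16412344) (l 16310544))) (b (a (a (l 16447328) (l 16438224)) (a (l 16428072) (l 16416800))) (a (b (l 16542824) (l 16608728)) (a (l 16553824) (l 16537424)))))) (b (l 6) (b (b (l 6) (a (l 16283800) (l 16253936))) (b (a (l 16397760) (l 16237088)) (a (l 16511368) (l 16471624)))))))) (b (l 6) (a (b (l 6) (b (l 6) (a (a (b (l 16299688) (l 16428064)) (b (l 6) (l 16383568))) (b (l 6) (a (l 16337840) (l 6)))))) (l 6)))), by decide +kernel⟩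

theorem c_pp_102_s : CertNE 536870912 536870912 0 536870912 858993459 64424510 3 eng mog cd4q1 cd0q2 pd0 false true true .npp 1 0 2
    ndB4q1 ndB0q2 pcB0 cut_pp_102_s Ext.none :=
  certNE2 (fam := false) (s1 := true) (s2 := true) (a := 1) (b := 0) (c := 2) (cn := .npp) (n1 := ndB4q1) (n2 := ndB0q2) (pc := pcB0) (cut := cut_pp_102_s) (xt := Ext.none) (P1 := 536870912) (W1 := 536870912) (P2 := 0) (W2 := 536870912) (P3 := 858993459) (W3 := 64424510) (N0 := 3) (En := eng) (mo := mog) (C1 := cd4q1) (C2 := cd0q2) (C3 := pd0)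
    rfl (fun _ => rfl) k0_pp_102_s

noncomputable def cut_pp_112_s : Cut := Cut.of [[⟨4, 0, 0, 1449551462⟩]]

noncomputable def f_pp_112_s : ℕ → ℕ → ℕ → ℕ → Bool := onCell 536870912 536870912 0 536870912 858993459 64424510
    (rowNE 3 eng mog cd4q1 cd0q2 pd1 2 false true true .dn 1 1 2 (qsf 536870912 536870912 0 536870912 1) ndB4q1 ndB0q2 pcB1 cut_pp_112_s Ext.none)

def k0_pp_112_s : ∃ t, chk3 f_pp_112_s t 1 1 1 = true :=
  ⟨(a (l 6) (l 1)), by decide +kernel⟩

theorem c_pp_112_s : CertNE 536870912 536870912 0 536870912 858993459 64424510 3 eng mog cd4q1 cd0q2 pd1 false true true .dn 1 1 2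
    ndB4q1 ndB0q2 pcB1 cut_pp_112_s Ext.none :=
  certNE2 (fam := false) (s1 := true) (s2 := true) (a := 1) (b := 1) (c := 2) (cn := .dn) (n1 := ndB4q1) (n2 := ndB0q2) (pc := pcB1) (cut := cut_pp_112_s) (xt := Ext.none) (P1 := 536870912) (W1 := 536870912) (P2 := 0) (W2 := 536870912) (P3 := 858993459) (W3 := 64424510) (N0 := 3) (En := eng) (mo := mog) (C1 := cd4q1) (C2 := cd0q2) (C3 := pd1)
    rfl (fun _ => rfl) k0_pp_112_s

noncomputable def cut_pp_202_s : Cut := Cut.of [[⟨4, 0, 0, 1449551462⟩], [⟨0, 1, 0, 67108864⟩, ⟨1, 0, 0, 67108864⟩, ⟨2, 1, 0, 67108864⟩]]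

noncomputable def f_pp_202_s : ℕ → ℕ → ℕ → ℕ → Bool := onCell 0 536870912 0 536870912 858993459 64424510
    (rowNE 3 eng mog cd4q2 cd0q2 pd0 2 false true true .pp 2 0 2 (qsf 1073741824 536870912 0 536870912 0) ndB4q2 ndB0q2 pcB0 cut_pp_202_s Ext.none)

def k0_pp_202_s : ∃ t, chk3 f_pp_202_s t 1 1 1 = true :=
  ⟨(a (a (b (l 6) (b (b (a (b (a (l 16307072) (l 6)) (a (l 16204400) (a (l 16291648) (l 6)))) (l 6)) (b (a (a (a (b (l 16448968) (l 16482112)) (b (l 16398200) (l 16420776))) (a (l 16320736) (l 16272208))) (a (a (l 16171408) (l 16043736)) (l 6))) (a (a (a (l 16452520) (l 16450912)) (c (l 16353392) (l 16331200))) (a (a (l 16246928) (l 16145592)) (l 1))))) (a (b (b (a (a (l 16454184) (l 16489816)) (a (l 16394912) (l 199748901143))) (a (l 14) (a (l 14) (b (l 16363560) (l 16424192))))) (a (l 14) (a (l 14) (l 1)))) (a (b (b (a (l 365641880423) (l 1)) (l 1)) (l 1)) (l 1))))) (b (l 6) (b (l 1) (l 1)))) (l 1)), by decide +kernel⟩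

theorem c_pp_202_s : CertNE 1073741824 536870912 0 536870912 858993459 64424510 3 eng mog cd4q2 cd0q2 pd0 false true true .pp 2 0 2
    ndB4q2 ndB0q2 pcB0 cut_pp_202_s Ext.none :=
  certNE2 (fam := false) (s1 := true) (s2 := true) (a := 2) (b := 0) (c := 2) (cn := .pp) (n1 := ndB4q2) (n2 := ndB0q2) (pc := pcB0) (cut := cut_pp_202_s) (xt := Ext.none) (P1 := 1073741824) (W1 := 536870912) (P2 := 0) (W2 := 536870912) (P3 := 858993459) (W3 := 64424510) (N0 := 3) (En := eng) (mo := mog) (C1 := cd4q2) (C2 := cd0q2) (C3 := pd0)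
    rfl (fun _ => rfl) k0_pp_202_s

noncomputable def cut_pm_001_s : Cut := Cut.of [[⟨4, 0, 0, 1449551462⟩]]

noncomputable def f_pm_001_s : ℕ → ℕ → ℕ → ℕ → Bool := onCell 0 536870912 536870912 536870912 858993459 64424510
    (rowNE 3 eng mog cd4q0 cd0q1 pd0 0 false true false .up 0 0 1 (qsf 0 536870912 536870912 536870912 0) ndB4q0 ndB0q1 pcB0 cut_pm_001_s Ext.none)

def k0_pm_001_s : ∃ t, chk3 f_pm_001_s t 1 1 1 = true :=
  ⟨(l 4), by decide +kernel⟩

theorem c_pm_001_s : CertNE 0 536870912 536870912 536870912 858993459 64424510 3 eng mog cd4q0 cd0q1 pd0 false true false .up 0 0 1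
    ndB4q0 ndB0q1 pcB0 cut_pm_001_s Ext.none :=
  certNE0 (fam := false) (s1 := true) (s2 := false) (a := 0) (b := 0) (c := 1) (cn := .up) (n1 := ndB4q0) (n2 := ndB0q1) (pc := pcB0) (cut := cut_pm_001_s) (xt := Ext.none) (P1 := 0) (W1 := 536870912) (P2 := 536870912) (W2 := 536870912) (P3 := 858993459) (W3 := 64424510) (N0 := 3) (En := eng) (mo := mog) (C1 := cd4q0) (C2 := cd0q1) (C3 := pd0)
    rfl k0_pm_001_s

noncomputable def cut_pm_011_s : Cut := Cut.of [[⟨4, 0, 0, 1449551462⟩]]

noncomputable def f_pm_011_s : ℕ → ℕ → ℕ → ℕ → Bool := onCell 0 536870912 536870912 536870912 858993459 64424510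
    (rowNE 3 eng mog cd4q0 cd0q1 pd1 0 false true false .pnn 0 1 1 (qsf 0 536870912 536870912 536870912 1) ndB4q0 ndB0q1 pcB1 cut_pm_011_s Ext.none)

def k0_pm_011_s : ∃ t, chk3 f_pm_011_s t 1 1 1 = true :=
  ⟨(l 4), by decide +kernel⟩

theorem c_pm_011_s : CertNE 0 536870912 536870912 536870912 858993459 64424510 3 eng mog cd4q0 cd0q1 pd1 false true false .pnn 0 1 1
    ndB4q0 ndB0q1 pcB1 cut_pm_011_s Ext.none :=
  certNE0 (fam := false) (s1 := true) (s2 := false) (a := 0) (b := 1) (c := 1) (cn := .pnn) (n1 := ndB4q0) (n2 := ndB0q1) (pc := pcB1) (cut := cut_pm_011_s) (xt := Ext.none) (P1 := 0) (W1 := 536870912) (P2 := 536870912) (W2 := 536870912) (P3 := 858993459) (W3 := 64424510) (N0 := 3) (En := eng) (mo := mog) (C1 := cd4q0) (C2 := cd0q1) (C3 := pd1)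
    rfl k0_pm_011_s

noncomputable def cut_pm_012_s : Cut := Cut.of [[⟨4, 0, 0, 1449551462⟩]]

noncomputable def f_pm_012_s : ℕ → ℕ → ℕ → ℕ → Bool := onCell 0 536870912 0 536870912 858993459 64424510
    (rowNE 3 eng mog cd4q0 cd0q2 pd1 0 false true false .pnp 0 1 2 (qsf 0 536870912 0 536870912 1) ndB4q0 ndB0q2 pcB1 cut_pm_012_s Ext.none)

def k0_pm_012_s : ∃ t, chk3 f_pm_012_s t 1 1 1 = true :=
  ⟨(l 6), by decide +kernel⟩

theorem c_pm_012_s : CertNE 0 536870912 0 536870912 858993459 64424510 3 eng mog cd4q0 cd0q2 pd1 false true false .pnp 0 1 2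
    ndB4q0 ndB0q2 pcB1 cut_pm_012_s Ext.none :=
  certNE0 (fam := false) (s1 := true) (s2 := false) (a := 0) (b := 1) (c := 2) (cn := .pnp) (n1 := ndB4q0) (n2 := ndB0q2) (pc := pcB1) (cut := cut_pm_012_s) (xt := Ext.none) (P1 := 0) (W1 := 536870912) (P2 := 0) (W2 := 536870912) (P3 := 858993459) (W3 := 64424510) (N0 := 3) (En := eng) (mo := mog) (C1 := cd4q0) (C2 := cd0q2) (C3 := pd1)
    rfl k0_pm_012_s

noncomputable def cut_pm_022_s : Cut := Cut.of [[⟨4, 0, 0, 1449551462⟩]]

noncomputable def f_pm_022_s : ℕ → ℕ → ℕ → ℕ → Bool := onCell 0 536870912 0 536870912 858993459 64424510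
    (rowNE 3 eng mog cd4q0 cd0q2 pd2 0 false true false .pp 0 2 2 (qsf 0 536870912 0 536870912 2) ndB4q0 ndB0q2 pcB2 cut_pm_022_s Ext.none)

def k0_pm_022_s : ∃ t, chk3 f_pm_022_s t 1 1 1 = true :=
  ⟨(l 6), by decide +kernel⟩

theorem c_pm_022_s : CertNE 0 536870912 0 536870912 858993459 64424510 3 eng mog cd4q0 cd0q2 pd2 false true false .pp 0 2 2
    ndB4q0 ndB0q2 pcB2 cut_pm_022_s Ext.none :=
  certNE0 (fam := false) (s1 := true) (s2 := false) (a := 0) (b := 2) (c := 2) (cn := .pp) (n1 := ndB4q0) (n2 := ndB0q2) (pc := pcB2) (cut := cut_pm_022_s) (xt := Ext.none) (P1 := 0) (W1 := 536870912) (P2 := 0) (W2 := 536870912) (P3 := 858993459) (W3 := 64424510) (N0 := 3) (En := eng) (mo := mog) (C1 := cd4q0) (C2 := cd0q2) (C3 := pd2)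
    rfl k0_pm_022_s

noncomputable def cut_pm_101_s : Cut := Cut.of [[⟨4, 0, 0, 1449551462⟩]]

noncomputable def f_pm_101_s : ℕ → ℕ → ℕ → ℕ → Bool := onCell 536870912 536870912 536870912 536870912 858993459 64424510
    (rowNE 3 eng mog cd4q1 cd0q1 pd0 0 false true false .npn 1 0 1 (qsf 536870912 536870912 536870912 536870912 0) ndB4q1 ndB0q1 pcB0 cut_pm_101_s Ext.none)

def k0_pm_101_s : ∃ t, chk3 f_pm_101_s t 1 1 1 = true :=
  ⟨(l 4), by decide +kernel⟩

theorem c_pm_101_s : CertNE 536870912 536870912 536870912 536870912 858993459 64424510 3 eng mog cd4q1 cd0q1 pd0 false true false .npn 1 0 1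
    ndB4q1 ndB0q1 pcB0 cut_pm_101_s Ext.none :=
  certNE0 (fam := false) (s1 := true) (s2 := false) (a := 1) (b := 0) (c := 1) (cn := .npn) (n1 := ndB4q1) (n2 := ndB0q1) (pc := pcB0) (cut := cut_pm_101_s) (xt := Ext.none) (P1 := 536870912) (W1 := 536870912) (P2 := 536870912) (W2 := 536870912) (P3 := 858993459) (W3 := 64424510) (N0 := 3) (En := eng) (mo := mog) (C1 := cd4q1) (C2 := cd0q1) (C3 := pd0)
    rfl k0_pm_101_s

noncomputable def cut_pm_102_s : Cut := Cut.of [[⟨4, 0, 0, 1449551462⟩]]

noncomputable def f_pm_102_s : ℕ → ℕ → ℕ → ℕ → Bool := onCell 536870912 536870912 0 536870912 858993459 64424510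
    (rowNE 3 eng mog cd4q1 cd0q2 pd0 0 false true false .npp 1 0 2 (qsf 536870912 536870912 0 536870912 0) ndB4q1 ndB0q2 pcB0 cut_pm_102_s Ext.none)

def k0_pm_102_s : ∃ t, chk3 f_pm_102_s t 1 1 1 = true :=
  ⟨(l 6), by decide +kernel⟩

theorem c_pm_102_s : CertNE 536870912 536870912 0 536870912 858993459 64424510 3 eng mog cd4q1 cd0q2 pd0 false true false .npp 1 0 2
    ndB4q1 ndB0q2 pcB0 cut_pm_102_s Ext.none :=
  certNE0 (fam := false) (s1 := true) (s2 := false) (a := 1) (b := 0) (c := 2) (cn := .npp) (n1 := ndB4q1) (n2 := ndB0q2) (pc := pcB0) (cut := cut_pm_102_s) (xt := Ext.none) (P1 := 536870912) (W1 := 536870912) (P2 := 0) (W2 := 536870912) (P3 := 858993459) (W3 := 64424510) (N0 := 3) (En := eng) (mo := mog) (C1 := cd4q1) (C2 := cd0q2) (C3 := pd0)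
    rfl k0_pm_102_s

noncomputable def cut_pm_112_s : Cut := Cut.of [[⟨4, 0, 0, 1449551462⟩]]

noncomputable def f_pm_112_s : ℕ → ℕ → ℕ → ℕ → Bool := onCell 536870912 536870912 0 536870912 858993459 64424510
    (rowNE 3 eng mog cd4q1 cd0q2 pd1 0 false true false .dn 1 1 2 (qsf 536870912 536870912 0 536870912 1) ndB4q1 ndB0q2 pcB1 cut_pm_112_s Ext.none)

def k0_pm_112_s : ∃ t, chk3 f_pm_112_s t 1 1 1 = true :=
  ⟨(l 6), by decide +kernel⟩

theorem c_pm_112_s : CertNE 536870912 536870912 0 536870912 858993459 64424510 3 eng mog cd4q1 cd0q2 pd1 false true false .dn 1 1 2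
    ndB4q1 ndB0q2 pcB1 cut_pm_112_s Ext.none :=
  certNE0 (fam := false) (s1 := true) (s2 := false) (a := 1) (b := 1) (c := 2) (cn := .dn) (n1 := ndB4q1) (n2 := ndB0q2) (pc := pcB1) (cut := cut_pm_112_s) (xt := Ext.none) (P1 := 536870912) (W1 := 536870912) (P2 := 0) (W2 := 536870912) (P3 := 858993459) (W3 := 64424510) (N0 := 3) (En := eng) (mo := mog) (C1 := cd4q1) (C2 := cd0q2) (C3 := pd1)
    rfl k0_pm_112_s

noncomputable def cut_pm_202_s : Cut := Cut.of [[⟨4, 0, 0, 1449551462⟩]]

noncomputable def f_pm_202_s : ℕ → ℕ → ℕ → ℕ → Bool := onCell 0 536870912 0 536870912 858993459 64424510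
    (rowNE 3 eng mog cd4q2 cd0q2 pd0 2 false true false .pp 2 0 2 (qsf 1073741824 536870912 0 536870912 0) ndB4q2 ndB0q2 pcB0 cut_pm_202_s Ext.none)

def k0_pm_202_s : ∃ t, chk3 f_pm_202_s t 1 1 1 = true :=
  ⟨(l 6), by decide +kernel⟩

theorem c_pm_202_s : CertNE 1073741824 536870912 0 536870912 858993459 64424510 3 eng mog cd4q2 cd0q2 pd0 false true false .pp 2 0 2
    ndB4q2 ndB0q2 pcB0 cut_pm_202_s Ext.none :=
  certNE2 (fam := false) (s1 := true) (s2 := false) (a := 2) (b := 0) (c := 2) (cn := .pp) (n1 := ndB4q2) (n2 := ndB0q2) (pc := pcB0) (cut := cut_pm_202_s) (xt := Ext.none) (P1 := 1073741824) (W1 := 536870912) (P2 := 0) (W2 := 536870912) (P3 := 858993459) (W3 := 64424510) (N0 := 3) (En := eng) (mo := mog) (C1 := cd4q2) (C2 := cd0q2) (C3 := pd0)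
    rfl (fun _ => rfl) k0_pm_202_s

noncomputable def cut_mm_001_s : Cut := Cut.of [[⟨4, 0, 0, 1449551462⟩]]

noncomputable def f_mm_001_s : ℕ → ℕ → ℕ → ℕ → Bool := onCell 0 536870912 536870912 536870912 858993459 64424510
    (rowNE 3 eng mog cd4q0 cd0q1 pd0 0 false false false .up 0 0 1 (qsf 0 536870912 536870912 536870912 0) ndB4q0 ndB0q1 pcB0 cut_mm_001_s Ext.none)

def k0_mm_001_s : ∃ t, chk3 f_mm_001_s t 1 1 1 = true :=
  ⟨(l 5), by decide +kernel⟩

theorem c_mm_001_s : CertNE 0 536870912 536870912 536870912 858993459 64424510 3 eng mog cd4q0 cd0q1 pd0 false false false .up 0 0 1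
    ndB4q0 ndB0q1 pcB0 cut_mm_001_s Ext.none :=
  certNE0 (fam := false) (s1 := false) (s2 := false) (a := 0) (b := 0) (c := 1) (cn := .up) (n1 := ndB4q0) (n2 := ndB0q1) (pc := pcB0) (cut := cut_mm_001_s) (xt := Ext.none) (P1 := 0) (W1 := 536870912) (P2 := 536870912) (W2 := 536870912) (P3 := 858993459) (W3 := 64424510) (N0 := 3) (En := eng) (mo := mog) (C1 := cd4q0) (C2 := cd0q1) (C3 := pd0)
    rfl k0_mm_001_s

noncomputable def cut_mm_011_s : Cut := Cut.of [[⟨4, 0, 0, 1449551462⟩]]

noncomputable def f_mm_011_s : ℕ → ℕ → ℕ → ℕ → Bool := onCell 0 536870912 536870912 536870912 858993459 64424510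
    (rowNE 3 eng mog cd4q0 cd0q1 pd1 0 false false false .pnn 0 1 1 (qsf 0 536870912 536870912 536870912 1) ndB4q0 ndB0q1 pcB1 cut_mm_011_s Ext.none)

def k0_mm_011_s : ∃ t, chk3 f_mm_011_s t 1 1 1 = true :=
  ⟨(l 5), by decide +kernel⟩

theorem c_mm_011_s : CertNE 0 536870912 536870912 536870912 858993459 64424510 3 eng mog cd4q0 cd0q1 pd1 false false false .pnn 0 1 1
    ndB4q0 ndB0q1 pcB1 cut_mm_011_s Ext.none :=
  certNE0 (fam := false) (s1 := false) (s2 := false) (a := 0) (b := 1) (c := 1) (cn := .pnn) (n1 := ndB4q0) (n2 := ndB0q1) (pc := pcB1) (cut := cut_mm_011_s) (xt := Ext.none) (P1 := 0) (W1 := 536870912) (P2 := 536870912) (W2 := 536870912) (P3 := 858993459) (W3 := 64424510) (N0 := 3) (En := eng) (mo := mog) (C1 := cd4q0) (C2 := cd0q1) (C3 := pd1)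
    rfl k0_mm_011_s

noncomputable def cut_mm_012_s : Cut := Cut.of [[⟨4, 0, 0, 1449551462⟩]]

noncomputable def f_mm_012_s : ℕ → ℕ → ℕ → ℕ → Bool := onCell 0 536870912 0 536870912 858993459 64424510
    (rowNE 3 eng mog cd4q0 cd0q2 pd1 0 false false false .pnp 0 1 2 (qsf 0 536870912 0 536870912 1) ndB4q0 ndB0q2 pcB1 cut_mm_012_s Ext.none)

def k0_mm_012_s : ∃ t, chk3 f_mm_012_s t 1 1 1 = true :=
  ⟨(l 5), by decide +kernel⟩

theorem c_mm_012_s : CertNE 0 536870912 0 536870912 858993459 64424510 3 eng mog cd4q0 cd0q2 pd1 false false false .pnp 0 1 2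
    ndB4q0 ndB0q2 pcB1 cut_mm_012_s Ext.none :=
  certNE0 (fam := false) (s1 := false) (s2 := false) (a := 0) (b := 1) (c := 2) (cn := .pnp) (n1 := ndB4q0) (n2 := ndB0q2) (pc := pcB1) (cut := cut_mm_012_s) (xt := Ext.none) (P1 := 0) (W1 := 536870912) (P2 := 0) (W2 := 536870912) (P3 := 858993459) (W3 := 64424510) (N0 := 3) (En := eng) (mo := mog) (C1 := cd4q0) (C2 := cd0q2) (C3 := pd1)
    rfl k0_mm_012_s

noncomputable def cut_mm_022_s : Cut := Cut.of [[⟨4, 0, 0, 1449551462⟩]]

noncomputable def f_mm_022_s : ℕ → ℕ → ℕ → ℕ → Bool := onCell 0 536870912 0 536870912 858993459 64424510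
    (rowNE 3 eng mog cd4q0 cd0q2 pd2 0 false false false .pp 0 2 2 (qsf 0 536870912 0 536870912 2) ndB4q0 ndB0q2 pcB2 cut_mm_022_s Ext.none)

def k0_mm_022_s : ∃ t, chk3 f_mm_022_s t 1 1 1 = true :=
  ⟨(l 5), by decide +kernel⟩

theorem c_mm_022_s : CertNE 0 536870912 0 536870912 858993459 64424510 3 eng mog cd4q0 cd0q2 pd2 false false false .pp 0 2 2
    ndB4q0 ndB0q2 pcB2 cut_mm_022_s Ext.none :=
  certNE0 (fam := false) (s1 := false) (s2 := false) (a := 0) (b := 2) (c := 2) (cn := .pp) (n1 := ndB4q0) (n2 := ndB0q2) (pc := pcB2) (cut := cut_mm_022_s) (xt := Ext.none) (P1 := 0) (W1 := 536870912) (P2 := 0) (W2 := 536870912) (P3 := 858993459) (W3 := 64424510) (N0 := 3) (En := eng) (mo := mog) (C1 := cd4q0) (C2 := cd0q2) (C3 := pd2)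
    rfl k0_mm_022_s

noncomputable def cut_mm_101_s : Cut := Cut.of [[⟨4, 0, 0, 1449551462⟩]]

noncomputable def f_mm_101_s : ℕ → ℕ → ℕ → ℕ → Bool := onCell 0 536870912 536870912 536870912 858993459 64424510
    (rowNE 3 eng mog cd4q1 cd0q1 pd0 2 false false false .npn 1 0 1 (qsf 536870912 536870912 536870912 536870912 0) ndB4q1 ndB0q1 pcB0 cut_mm_101_s Ext.none)

def k0_mm_101_s : ∃ t, chk3 f_mm_101_s t 1 1 1 = true :=
  ⟨(l 5), by decide +kernel⟩

theorem c_mm_101_s : CertNE 536870912 536870912 536870912 536870912 858993459 64424510 3 eng mog cd4q1 cd0q1 pd0 false false false .npn 1 0 1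
    ndB4q1 ndB0q1 pcB0 cut_mm_101_s Ext.none :=
  certNE2 (fam := false) (s1 := false) (s2 := false) (a := 1) (b := 0) (c := 1) (cn := .npn) (n1 := ndB4q1) (n2 := ndB0q1) (pc := pcB0) (cut := cut_mm_101_s) (xt := Ext.none) (P1 := 536870912) (W1 := 536870912) (P2 := 536870912) (W2 := 536870912) (P3 := 858993459) (W3 := 64424510) (N0 := 3) (En := eng) (mo := mog) (C1 := cd4q1) (C2 := cd0q1) (C3 := pd0)
    rfl (fun _ => rfl) k0_mm_101_s

noncomputable def cut_mm_102_s : Cut := Cut.of [[⟨4, 0, 0, 1449551462⟩]]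

noncomputable def f_mm_102_s : ℕ → ℕ → ℕ → ℕ → Bool := onCell 536870912 536870912 0 536870912 858993459 64424510
    (rowNE 3 eng mog cd4q1 cd0q2 pd0 0 false false false .npp 1 0 2 (qsf 536870912 536870912 0 536870912 0) ndB4q1 ndB0q2 pcB0 cut_mm_102_s Ext.none)

def k0_mm_102_s : ∃ t, chk3 f_mm_102_s t 1 1 1 = true :=
  ⟨(l 5), by decide +kernel⟩

theorem c_mm_102_s : CertNE 536870912 536870912 0 536870912 858993459 64424510 3 eng mog cd4q1 cd0q2 pd0 false false false .npp 1 0 2
    ndB4q1 ndB0q2 pcB0 cut_mm_102_s Ext.none :=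
  certNE0 (fam := false) (s1 := false) (s2 := false) (a := 1) (b := 0) (c := 2) (cn := .npp) (n1 := ndB4q1) (n2 := ndB0q2) (pc := pcB0) (cut := cut_mm_102_s) (xt := Ext.none) (P1 := 536870912) (W1 := 536870912) (P2 := 0) (W2 := 536870912) (P3 := 858993459) (W3 := 64424510) (N0 := 3) (En := eng) (mo := mog) (C1 := cd4q1) (C2 := cd0q2) (C3 := pd0)
    rfl k0_mm_102_s

noncomputable def cut_mm_112_s : Cut := Cut.of [[⟨4, 0, 0, 1449551462⟩]]

noncomputable def f_mm_112_s : ℕ → ℕ → ℕ → ℕ → Bool := onCell 536870912 536870912 0 536870912 858993459 64424510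
    (rowNE 3 eng mog cd4q1 cd0q2 pd1 0 false false false .dn 1 1 2 (qsf 536870912 536870912 0 536870912 1) ndB4q1 ndB0q2 pcB1 cut_mm_112_s Ext.none)

def k0_mm_112_s : ∃ t, chk3 f_mm_112_s t 1 1 1 = true :=
  ⟨(l 5), by decide +kernel⟩

theorem c_mm_112_s : CertNE 536870912 536870912 0 536870912 858993459 64424510 3 eng mog cd4q1 cd0q2 pd1 false false false .dn 1 1 2
    ndB4q1 ndB0q2 pcB1 cut_mm_112_s Ext.none :=
  certNE0 (fam := false) (s1 := false) (s2 := false) (a := 1) (b := 1) (c := 2) (cn := .dn) (n1 := ndB4q1) (n2 := ndB0q2) (pc := pcB1) (cut := cut_mm_112_s) (xt := Ext.none) (P1 := 536870912) (W1 := 536870912) (P2 := 0) (W2 := 536870912) (P3 := 858993459) (W3 := 64424510) (N0 := 3) (En := eng) (mo := mog) (C1 := cd4q1) (C2 := cd0q2) (C3 := pd1)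
    rfl k0_mm_112_s

noncomputable def cut_mm_202_s : Cut := Cut.of [[⟨4, 0, 0, 1449551462⟩]]

noncomputable def f_mm_202_s : ℕ → ℕ → ℕ → ℕ → Bool := onCell 1073741824 536870912 0 536870912 858993459 64424510
    (rowNE 3 eng mog cd4q2 cd0q2 pd0 0 false false false .pp 2 0 2 (qsf 1073741824 536870912 0 536870912 0) ndB4q2 ndB0q2 pcB0 cut_mm_202_s Ext.none)

def k0_mm_202_s : ∃ t, chk3 f_mm_202_s t 1 1 1 = true :=
  ⟨(l 5), by decide +kernel⟩

theorem c_mm_202_s : CertNE 1073741824 536870912 0 536870912 858993459 64424510 3 eng mog cd4q2 cd0q2 pd0 false false false .pp 2 0 2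
    ndB4q2 ndB0q2 pcB0 cut_mm_202_s Ext.none :=
  certNE0 (fam := false) (s1 := false) (s2 := false) (a := 2) (b := 0) (c := 2) (cn := .pp) (n1 := ndB4q2) (n2 := ndB0q2) (pc := pcB0) (cut := cut_mm_202_s) (xt := Ext.none) (P1 := 1073741824) (W1 := 536870912) (P2 := 0) (W2 := 536870912) (P3 := 858993459) (W3 := 64424510) (N0 := 3) (En := eng) (mo := mog) (C1 := cd4q2) (C2 := cd0q2) (C3 := pd0)
    rfl k0_mm_202_s

end Pool.Agent.Strip051.G.I8000_8600.Tab.CS.BB40

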