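import Pool.Agent.Strip051.G.I8000_8600.Tab

/-! # Certificates B11 (generated) -/

set_option linter.all false
set_option maxRecDepth 100000

namespace Pool.Agent.Strip051.G.I8000_8600.Tab.C.BB00

open Pool.Agent.Strip051.PB Pool.Agent.Strip051.PB.T
open Pool.Agent.Strip051.G.I8000_8600.Tab

noncomputable def cut_pp_012 : Cut := Cut.of [[⟨3, 0, 0, 1449551462⟩], [⟨4, 0, 0, 2845415833⟩], [⟨0, 0, 0, 67108864⟩, ⟨1, 1, 0, 67108864⟩, ⟨2, 1, 0, 67108864⟩]]

noncomputable def f_pp_012 : ℕ → ℕ → ℕ → ℕ → Bool := onCell 536870912 536870912 0 536870912 858993459 64424510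
    (rowB 3 eng mog cd0q0 cd0q2 pd1 2 false true true .pnp 0 1 2 (qsf 0 536870912 0 536870912 1) ndB0q0 ndB0q2 pcB1 cut_pp_012 Ext.none)

def k0_pp_012 : ∃ t, chk3 f_pp_012 t 2 1 1 = true :=
  ⟨(l 6), by decide +kernel⟩

def k1_pp_012 : ∃ t, chk3 f_pp_012 t 6 1 1 = true :=
  ⟨(b (a (b (b (b (a (a (l 6) (a (l 6) (a (l 6) (b (c (l 16465760) (l 16580656)) (l 6))))) (c (c (c (a (l 16558424) (l 16554872)) (l 16529672)) (l 16543384)) (c (a (l 16623216) (l 16611688)) (a (l 16574992) (l 16564976))))) (l 6)) (l 6)) (l 6)) (b (b (c (c (a (c (a (b (l 16553136) (l 16577544)) (l 16501408)) (a (l 16597184) (l 16594328))) (a (c (l 16522920) (l 16592760)) (l 16579736))) (a (a (l 16638400) (l 16626936)) (l 16567496))) (a (c (c (l 16549744) (l 16553624)) (a (l 16569336) (l 16560256))) (c (a (l 16588336) (l 16578096)) (a (l 16552128) (l 16544984))))) (b (a (l 6) (a (b (c (l 16584360) (l 16597656)) (l 6)) (c (l 16522328) (l 16592384)))) (l 6))) (l 6))) (l 6)), by decide +kernel⟩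

def k2_pp_012 : ∃ t, chk3 f_pp_012 t 14 2 1 = true :=
  ⟨(b (a (b (c (a (c (l 16582496) (l 16591512)) (c (l 16586216) (l 16579560))) (a (c (l 16568264) (l 16538832)) (b (l 16496512) (l 16555912)))) (b (c (a (l 16616840) (l 16603352)) (a (l 16561728) (l 16573640))) (c (a (l 16629752) (l 16616112)) (c (l 16541176) (l 16545112))))) (b (b (c (a (l 16528280) (l 16559128)) (a (l 16534960) (l 16534936))) (a (c (l 16578560) (l 16548472)) (c (l 16563488) (l 16541728)))) (c (a (b (l 16589104) (l 16601768)) (b (l 16573864) (l 16586440))) (a (l 16573032) (l 16501656))))) (b (b (a (l 6) (c (a (l 16618152) (l 16602776)) (a (l 16598448) (l 16588344)))) (l 6)) (l 6))), by decide +kernel⟩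

def k3_pp_012 : ∃ t, chk3 f_pp_012 t 15 2 1 = true :=
  ⟨(a (b (c (b (a (b (l 16550552) (l 16548776)) (b (l 16542912) (b (l 16515048) (l 16492128)))) (a (b (l 16557544) (l 16570040)) (b (l 16518784) (l 16552200)))) (b (a (b (l 16538992) (l 16537544)) (b (l 16544592) (l 16536952))) (a (l 16535776) (l 16507920)))) (b (a (c (a (l 16599736) (l 16570152)) (l 16545088)) (c (a (l 16561144) (l 16530656)) (b (l 16571032) (l 16586568)))) (l 6))) (b (b (b (a (c (l 16535256) (l 16539544)) (c (l 16506720) (l 16503616))) (a (c (c (l 16521344) (l 16527976)) (l 16540840)) (c (a (l 16475664) (l 16450288)) (l 16525128)))) (c (c (b (a (b (a (l 16520656) (l 16531832)) (l 16498296)) (b (a (l 16502592) (l 16495848)) (a (a (l 16504008) (l 16498144)) (b (c (l 16487200) (l 16494520)) (a (l 16492512) (c (l 16483032) (l 16490880))))))) (a (l 16507944) (a (l 16489520) (b (c (l 16490328) (l 16497712)) (l 16501432))))) (a (b (l 16472824) (l 16536328)) (b (a (l 16493712) (l 16467448)) (l 16497320)))) (a (b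 (a (l 16539560) (l 16538184)) (l 16550528)) (b (b (l 16497184) (l 16453888)) (l 16481896))))) (b (b (a (c (l 16485592) (l 16563976)) (c (c (b (l 16495456) (l 16504736)) (l 16533840)) (l 16557848))) (a (c (l 16504304) (l 16579096)) (c (c (l 16519744) (l 16551856)) (l 16572656)))) (b (a (c (l 16524296) (l 16596232)) (c (c (l 16561680) (l 16571432)) (l 16589592))) (a (l 6) (a (l 6) (c (l 16560864) (l 16606816)))))))), by decide +kernel⟩

def k4_pp_012 : ∃ t, chk3 f_pp_012 t 7 3 1 = true :=
  ⟨(l 6), by decide +kernel⟩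

theorem s5_pp_012 : ∃ t, chk3 f_pp_012 t 7 2 1 = true := ex3_a k2_pp_012 k3_pp_012

theorem s6_pp_012 : ∃ t, chk3 f_pp_012 t 7 1 1 = true := ex3_b s5_pp_012 k4_pp_012

theorem s7_pp_012 : ∃ t, chk3 f_pp_012 t 3 1 1 = true := ex3_a k1_pp_012 s6_pp_012

theorem s8_pp_012 : ∃ t, chk3 f_pp_012 t 1 1 1 = true := ex3_a k0_pp_012 s7_pp_012

theorem c_pp_012 : CertB 0 536870912 0 536870912 858993459 64424510 3 eng mog cd0q0 cd0q2 pd1 false true true .pnp 0 1 2
    ndB0q0 ndB0q2 pcB1 cut_pp_012 Ext.none :=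
  certB2 (fam := false) (s1 := true) (s2 := true) (a := 0) (b := 1) (c := 2) (cn := .pnp) (n1 := ndB0q0) (n2 := ndB0q2) (pc := pcB1) (cut := cut_pp_012) (xt := Ext.none) (P1 := 0) (W1 := 536870912) (P2 := 0) (W2 := 536870912) (P3 := 858993459) (W3 := 64424510) (N0 := 3) (En := eng) (mo := mog) (C1 := cd0q0) (C2 := cd0q2) (C3 := pd1)
    rfl (fun _ => rfl) s8_pp_012

noncomputable def cut_pp_022 : Cut := Cut.of [[⟨3, 0, 0, 1449551462⟩], [⟨4, 0, 0, 2845415833⟩], [⟨0, 0, 0, 67108864⟩, ⟨1, 1, 0, 67108864⟩, ⟨2, 1, 0, 67108864⟩]]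

noncomputable def f_pp_022 : ℕ → ℕ → ℕ → ℕ → Bool := onCell 1073741824 536870912 0 536870912 858993459 64424510
    (rowB 3 eng mog cd0q0 cd0q2 pd2 2 false true true .pp 0 2 2 (qsf 0 536870912 0 536870912 2) ndB0q0 ndB0q2 pcB2 cut_pp_022 Ext.none)

def k0_pp_022 : ∃ t, chk3 f_pp_022 t 4 4 2 = true :=
  ⟨(a (a (b (a (b (a (c (l 16475856) (l 16468224)) (l 16463592)) (a (l 16510824) (l 16480192))) (b (a (l 16455256) (l 16447552)) (l 16444920))) (a (b (a (l 16486736) (l 16496888)) (a (l 16506856) (l 16494848))) (b (a (l 16486112) (l 16475368)) (b (l 16472200) (l 16481712))))) (b (b (a (a (l 16461048) (l 16474600)) (b (l 16483000) (l 16421168))) (a (l 16426168) (l 16427936))) (a (b (l 16438216) (l 16452248)) (b (l 16436872) (l 16426664))))) (a (b (b (a (b (l 16406784) (l 16404368)) (b (l 16393176) (l 16366488))) (a (l 16408032) (l 16387880))) (a (b (l 16413648) (l 16420952)) (b (l 16390024) (l 16393728)))) (b (a (b (b (l 16378032) (l 16370864)) (l 16368040)) (b (l 16358560) (l 16339216)))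 (a (b (l 16366560) (l 16387512)) (b (l 16343000) (l 16359528)))))), by decide +kernel⟩

def k1_pp_022 : ∃ t, chk3 f_pp_022 t 4 5 2 = true :=
  ⟨(a (a (b (c (a (b (l 16545344) (l 16571952)) (b (l 16520840) (l 16544664))) (a (b (l 16545464) (l 16551376)) (b (l 16516464) (l 16540304)))) (a (a (b (l 16533312) (a (l 16542224) (l 16570352))) (b (l 16587200) (l 16580864))) (b (a (l 16576488) (l 16559536)) (l 16531472)))) (b (a (b (l 16501536) (a (l 16519384) (l 16503312))) (b (l 16461856) (c (l 16485768) (l 16470712)))) (a (b (a (l 16541992) (l 16523952)) (a (l 16565168) (l 16545008))) (c (b (l 16503608) (l 16521560)) (b (l 16488056) (l 16505864)))))) (a (b (a (b (l 16410528) (l 16444248)) (b (l 16379584) (l 16398896))) (b (a (a (l 16467496) (l 16448144)) (c (l 16433224) (l 16403768))) (a (a (l 16482152) (l 16460680)) (c (l 16443192) (l 16412376))))) (b (a (b (l 16348536) (c (l 16391544) (l 16356240))) (b (c (l 16356040) (l 16316944)) (c (l 16357136) (l 16316008)))) (a (a (b (l 16389480)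 (l 16395472)) (b (l 16369816) (a (l 16379096) (l 16368072)))) (b (c (l 16358504) (l 16315320)) (a (c (l 16371232) (l 16327024)) (c (l 16347088) (l 16301216)))))))), by decide +kernel⟩

def k2_pp_022 : ∃ t, chk3 f_pp_022 t 8 2 3 = true :=
  ⟨(b (a (b (b (a (a (b (l 16460144) (l 16461960)) (l 16464120)) (a (l 16430632) (l 16418776))) (a (a (l 16459256) (l 16466256)) (l 16434896))) (a (b (a (l 16504584) (l 16489280)) (a (b (l 16523032) (l 16535472)) (l 16512488))) (c (b (l 16470096) (l 16490112)) (b (l 16462232) (l 16484400))))) (a (b (b (a (l 16407112) (l 16416368)) (l 16417560)) (b (l 16414208) (l 16452640))) (b (b (b (l 16396088) (l 16377920)) (l 16388656)) (c (l 16397048) (l 16378832))))) (a (b (a (b (a (l 16554816) (l 16536664)) (a (l 16561816) (l 16563048))) (b (a (l 16518288) (l 16499656)) (c (l 16493448) (l 16488000)))) (a (a (b (c (l 16552160) (l 16529648)) (c (l 16520040) (l 16516664))) (b (l 16571224) (l 16540704))) (b (a (l 16570096) (l 16526344)) (a (l 16599416) (l 16574080)))))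 (b (a (b (l 16470728) (a (l 16501152) (l 16479192))) (b (l 16430056) (l 16445040))) (a (b (a (l 16523696) (l 16499336)) (a (l 16547912) (l 16520944))) (b (a (l 16474288) (l 16448600)) (a (l 16493264) (l 16464856))))))), by decide +kernel⟩

def k3_pp_022 : ∃ t, chk3 f_pp_022 t 9 2 3 = true :=
  ⟨(b (b (a (b (a (b (l 16352952) (l 16351176)) (b (l 16329896) (l 16323536))) (a (l 16358240) (l 16326608))) (b (a (l 16277904) (l 16271208)) (a (l 16293976) (c (l 16285640) (l 16237520))))) (a (a (b (l 16368352) (l 16377856)) (b (l 16332640) (l 16337808))) (a (b (l 16295696) (l 16317312)) (c (l 16279184) (l 16233152))))) (b (a (a (b (l 16366296) (l 16397528)) (b (l 16321616) (l 16333520))) (a (b (a (l 16308048) (l 16284624)) (c (l 16317384) (l 16275000))) (b (c (l 16273984) (l 16227184)) (c (l 16270920) (l 16221896))))) (b (a (a (a (l 16422288) (l 16395392)) (b (l 16331480) (l 16334680))) (a (a (l 16311680) (c (l 16306184) (l 16258960))) (c (l 16268104) (l 16237840)))) (a (a (c (l 16434464)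 (l 16385936)) (a (l 16375816) (c (l 16364328) (l 16325008)))) (a (a (c (l 16335640) (l 16291304)) (c (l 16306736) (l 16257264))) (c (a (l 16278768) (l 16251296)) (a (l 16226464) (l 16197312)))))))), by decide +kernel⟩

def k4_pp_022 : ∃ t, chk3 f_pp_022 t 4 3 1 = true :=
  ⟨(b (a (b (a (a (l 6) (a (l 6) (a (l 6) (b (l 16600392) (l 6))))) (b (c (a (a (l 16588600) (l 16566176)) (a (l 16543320) (l 16520096))) (a (a (l 16573216) (l 16543432)) (a (l 16512840) (l 16481496)))) (a (l 6) (a (l 6) (c (l 16536816) (l 16498344)))))) (l 6)) (a (b (c (a (b (c (l 16496176) (l 16472704)) (c (l 16509592) (l 16485568))) (b (a (l 16448944) (l 16403920)) (a (b (l 16456128) (l 16460824)) (c (l 16449424) (l 16413680))))) (a (b (a (l 16428456) (l 16395768)) (a (l 16463104) (l 16387928))) (b (a (c (l 16400928) (l 16365344)) (c (l 16369760) (l 16328976))) (c (a (l 16408824) (l 16374712)) (a (l 16372176) (b (l 16331744) (l 16333392))))))) (a (l 6) (b (b (a (b (c (l 16464352) (l 16395392)) (l 6)) (c (c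 (l 16455128) (l 16418288)) (c (l 16372984) (l 142303494327)))) (l 6)) (l 6)))) (a (a (b (c (b (c (l 16419760) (l 16380824)) (b (l 16404288) (c (l 16426568) (l 16385480)))) (b (c (l 16338280) (b (l 16292056) (l 16292336))) (c (b (l 16339904) (l 16340776)) (b (l 16292464) (l 16292448))))) (b (b (a (c (l 310344135383) (a (l 16332264) (l 16322336))) (l 1)) (l 1)) (l 1))) (b (c (b (c (l 16397808) (l 16354184)) (c (b (l 16400248) (l 16401680)) (b (l 16355144) (l 16355552)))) (b (c (b (l 16306760) (l 16306496)) (b (l 16255728) (a (l 16263864) (l 16244984)))) (c (b (l 16306040) (l 16305424)) (b (a (l 16262776) (l 16243112)) (a (l 16261520) (l 1)))))) (l 1))) (b (b (c (a (c (l 16372320) (l 16326224)) (c (l 16345008) (l 16297592))) (c (a (l 95595547607) (l 16246152)) (a (b (l 16223144) (l 16220632)) (l 95595428631)))) (l 1)) (l 1))))) (l 6)), by decide +kernel⟩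

def k5_pp_022 : ∃ t, chk3 f_pp_022 t 5 1 1 = true :=
  ⟨(b (a (a (a (b (b (c (b (l 16342056) (b (l 16333512) (l 16328192))) (b (l 16220104) (b (c (l 16257688) (l 16200768)) (l 16226264)))) (c (b (l 16320064) (l 16352560)) (c (b (l 16248072) (l 16240272)) (b (l 16194328) (l 16188008))))) (b (c (b (c (l 16325576) (l 16281144)) (c (l 16321080) (l 16275184))) (b (c (l 16232504) (l 16179664)) (c (l 16225088) (l 154651138055)))) (b (c (c (l 69825873767) (l 44592827191)) (c (a (l 16230368) (l 16205208)) (a (l 16175848) (l 16148328)))) (a (a (c (l 16306000) (l 166462378855)) (l 1)) (l 1))))) (b (c (b (b (l 16324744) (c (l 16319344) (l 194379971815))) (b (c (l 16323928) (l 16272192)) (c (l 16308568) (l 16258328)))) (b (b (c (l 16240120) (a (l 16185840) (l 16167432))) (b (c (l 16229296) (a (l 16172920) (l 16154808))) (c (l 16224136) (a (l 16168576) (l 16149456))))) (b (c (l 16215224) (a (l 16163392) (l 16142688))) (c (l 16203256) (a (l 16154584) (l 198674464151)))))) (a (b (b (c (l 16279824)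 (c (l 16201528) (l 16143696))) (b (l 1) (l 1))) (l 1)) (l 1)))) (b (b (l 1) (l 1)) (l 1))) (l 1)) (b (l 1) (l 1))), by decide +kernel⟩

def k6_pp_022 : ∃ t, chk3 f_pp_022 t 3 1 1 = true :=
  ⟨(l 1), by decide +kernel⟩

theorem s7_pp_022 : ∃ t, chk3 f_pp_022 t 4 2 3 = true := ex3_a k2_pp_022 k3_pp_022

theorem s8_pp_022 : ∃ t, chk3 f_pp_022 t 4 2 2 = true := ex3_b k0_pp_022 k1_pp_022

theorem s9_pp_022 : ∃ t, chk3 f_pp_022 t 4 2 1 = true := ex3_c s8_pp_022 s7_pp_022

theorem s10_pp_022 : ∃ t, chk3 f_pp_022 t 4 1 1 = true := ex3_b s9_pp_022 k4_pp_022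

theorem s11_pp_022 : ∃ t, chk3 f_pp_022 t 2 1 1 = true := ex3_a s10_pp_022 k5_pp_022

theorem s12_pp_022 : ∃ t, chk3 f_pp_022 t 1 1 1 = true := ex3_a s11_pp_022 k6_pp_022

theorem c_pp_022 : CertB 0 536870912 0 536870912 858993459 64424510 3 eng mog cd0q0 cd0q2 pd2 false true true .pp 0 2 2
    ndB0q0 ndB0q2 pcB2 cut_pp_022 Ext.none :=
  certB2 (fam := false) (s1 := true) (s2 := true) (a := 0) (b := 2) (c := 2) (cn := .pp) (n1 := ndB0q0) (n2 := ndB0q2) (pc := pcB2) (cut := cut_pp_022) (xt := Ext.none) (P1 := 0) (W1 := 536870912) (P2 := 0) (W2 := 536870912) (P3 := 858993459) (W3 := 64424510) (N0 := 3) (En := eng) (mo := mog) (C1 := cd0q0) (C2 := cd0q2) (C3 := pd2)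
    rfl (fun _ => rfl) s12_pp_022

noncomputable def cut_pp_101 : Cut := Cut.of [[⟨3, 0, 0, 1449551462⟩], [⟨4, 0, 0, 2845415833⟩]]

noncomputable def f_pp_101 : ℕ → ℕ → ℕ → ℕ → Bool := onCell 536870912 536870912 536870912 536870912 858993459 64424510
    (rowB 3 eng mog cd0q1 cd0q1 pd0 0 false true true .npn 1 0 1 (qsf 536870912 536870912 536870912 536870912 0) ndB0q1 ndB0q1 pcB0 cut_pp_101 Ext.none)

def k0_pp_101 : ∃ t, chk3 f_pp_101 t 1 1 1 = true :=
  ⟨(l 3), by decide +kernel⟩

theorem c_pp_101 : CertB 536870912 536870912 536870912 536870912 858993459 64424510 3 eng mog cd0q1 cd0q1 pd0 false true true .npn 1 0 1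
    ndB0q1 ndB0q1 pcB0 cut_pp_101 Ext.none :=
  certB0 (fam := false) (s1 := true) (s2 := true) (a := 1) (b := 0) (c := 1) (cn := .npn) (n1 := ndB0q1) (n2 := ndB0q1) (pc := pcB0) (cut := cut_pp_101) (xt := Ext.none) (P1 := 536870912) (W1 := 536870912) (P2 := 536870912) (W2 := 536870912) (P3 := 858993459) (W3 := 64424510) (N0 := 3) (En := eng) (mo := mog) (C1 := cd0q1) (C2 := cd0q1) (C3 := pd0)
    rfl k0_pp_101

noncomputable def cut_pp_102 : Cut := Cut.of [[⟨3, 0, 0, 1449551462⟩], [⟨4, 0, 0, 2845415833⟩]]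

noncomputable def f_pp_102 : ℕ → ℕ → ℕ → ℕ → Bool := onCell 536870912 536870912 0 536870912 858993459 64424510
    (rowB 3 eng mog cd0q1 cd0q2 pd0 0 false true true .npp 1 0 2 (qsf 536870912 536870912 0 536870912 0) ndB0q1 ndB0q2 pcB0 cut_pp_102 Ext.none)

def k0_pp_102 : ∃ t, chk3 f_pp_102 t 1 1 1 = true :=
  ⟨(a (l 6) (l 3)), by decide +kernel⟩

theorem c_pp_102 : CertB 536870912 536870912 0 536870912 858993459 64424510 3 eng mog cd0q1 cd0q2 pd0 false true true .npp 1 0 2
    ndB0q1 ndB0q2 pcB0 cut_pp_102 Ext.none :=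
  certB0 (fam := false) (s1 := true) (s2 := true) (a := 1) (b := 0) (c := 2) (cn := .npp) (n1 := ndB0q1) (n2 := ndB0q2) (pc := pcB0) (cut := cut_pp_102) (xt := Ext.none) (P1 := 536870912) (W1 := 536870912) (P2 := 0) (W2 := 536870912) (P3 := 858993459) (W3 := 64424510) (N0 := 3) (En := eng) (mo := mog) (C1 := cd0q1) (C2 := cd0q2) (C3 := pd0)
    rfl k0_pp_102

noncomputable def cut_pp_112 : Cut := Cut.of [[⟨3, 0, 0, 1449551462⟩], [⟨4, 0, 0, 2845415833⟩]]

noncomputable def f_pp_112 : ℕ → ℕ → ℕ → ℕ → Bool := onCell 536870912 536870912 0 536870912 858993459 64424510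
    (rowB 3 eng mog cd0q1 cd0q2 pd1 0 false true true .dn 1 1 2 (qsf 536870912 536870912 0 536870912 1) ndB0q1 ndB0q2 pcB1 cut_pp_112 Ext.none)

def k0_pp_112 : ∃ t, chk3 f_pp_112 t 1 1 1 = true :=
  ⟨(a (l 6) (l 1)), by decide +kernel⟩

theorem c_pp_112 : CertB 536870912 536870912 0 536870912 858993459 64424510 3 eng mog cd0q1 cd0q2 pd1 false true true .dn 1 1 2
    ndB0q1 ndB0q2 pcB1 cut_pp_112 Ext.none :=
  certB0 (fam := false) (s1 := true) (s2 := true) (a := 1) (b := 1) (c := 2) (cn := .dn) (n1 := ndB0q1) (n2 := ndB0q2) (pc := pcB1) (cut := cut_pp_112) (xt := Ext.none) (P1 := 536870912) (W1 := 536870912) (P2 := 0) (W2 := 536870912) (P3 := 858993459) (W3 := 64424510) (N0 := 3) (En := eng) (mo := mog) (C1 := cd0q1) (C2 := cd0q2) (C3 := pd1)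
    rfl k0_pp_112

noncomputable def cut_pp_202 : Cut := Cut.of [[⟨3, 0, 0, 1449551462⟩], [⟨4, 0, 0, 2845415833⟩]]

noncomputable def f_pp_202 : ℕ → ℕ → ℕ → ℕ → Bool := onCell 0 536870912 0 536870912 858993459 64424510
    (rowB 3 eng mog cd0q2 cd0q2 pd0 0 false true true .pp 2 0 2 (qsf 0 536870912 0 536870912 0) ndB0q2 ndB0q2 pcB0 cut_pp_202 Ext.none)

def k0_pp_202 : ∃ t, chk3 f_pp_202 t 1 1 1 = true :=
  ⟨(l 3), by decide +kernel⟩

theorem c_pp_202 : CertB 0 536870912 0 536870912 858993459 64424510 3 eng mog cd0q2 cd0q2 pd0 false true true .pp 2 0 2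
    ndB0q2 ndB0q2 pcB0 cut_pp_202 Ext.none :=
  certB0 (fam := false) (s1 := true) (s2 := true) (a := 2) (b := 0) (c := 2) (cn := .pp) (n1 := ndB0q2) (n2 := ndB0q2) (pc := pcB0) (cut := cut_pp_202) (xt := Ext.none) (P1 := 0) (W1 := 536870912) (P2 := 0) (W2 := 536870912) (P3 := 858993459) (W3 := 64424510) (N0 := 3) (En := eng) (mo := mog) (C1 := cd0q2) (C2 := cd0q2) (C3 := pd0)
    rfl k0_pp_202

noncomputable def cut_pm_001 : Cut := Cut.of [[⟨3, 0, 0, 1449551462⟩], [⟨4, 0, 0, 2845415833⟩]]

noncomputable def f_pm_001 : ℕ → ℕ → ℕ → ℕ → Bool := onCell 0 536870912 536870912 536870912 858993459 64424510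
    (rowB 3 eng mog cd0q0 cd0q1 pd0 0 false true false .up 0 0 1 (qsf 0 536870912 536870912 536870912 0) ndB0q0 ndB0q1 pcB0 cut_pm_001 Ext.none)

def k0_pm_001 : ∃ t, chk3 f_pm_001 t 1 2 1 = true :=
  ⟨(l 14), by decide +kernel⟩

def k1_pm_001 : ∃ t, chk3 f_pm_001 t 2 6 1 = true :=
  ⟨(l 14), by decide +kernel⟩

def k2_pm_001 : ∃ t, chk3 f_pm_001 t 6 6 1 = true :=
  ⟨(l 14), by decide +kernel⟩

def k3_pm_001 : ∃ t, chk3 f_pm_001 t 7 12 1 = true :=
  ⟨(l 14), by decide +kernel⟩

def k4_pm_001 : ∃ t, chk3 f_pm_001 t 14 13 1 = true :=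
  ⟨(b (l 14) (b (l 14) (b (l 14) (a (l 14) (a (l 14) (a (c (c (l 16507328) (l 16495976)) (c (l 16476632) (c (l 16457880) (l 16443624)))) (c (c (l 16496176) (l 16484776)) (c (l 16465272) (c (l 16446328) (l 16431920)))))))))), by decide +kernel⟩

def k5_pm_001 : ∃ t, chk3 f_pm_001 t 15 26 1 = true :=
  ⟨(b (b (l 14) (a (l 14) (a (l 14) (c (c (c (l 16491400) (l 16491816)) (l 16495456)) (a (l 16493344) (l 16485152)))))) (a (l 14) (c (c (a (b (a (l 14) (l 16492944)) (a (l 16492000) (l 16481560))) (c (a (l 16476888) (l 16468224)) (l 16494120))) (a (b (l 16500936) (l 16487112)) (b (l 16482736) (l 16469624)))) (a (b (a (l 14) (l 16484376)) (a (l 16475112) (l 16466776))) (c (a (l 16494968) (l 16486984)) (b (l 16464456) (l 16445552))))))), by decide +kernel⟩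

def k6_pm_001 : ∃ t, chk3 f_pm_001 t 15 27 1 = true :=
  ⟨(b (b (a (a (l 14) (c (c (l 16504552) (a (l 16495784) (l 16486480))) (a (c (l 16483408) (l 16464960)) (c (l 16474432) (l 16455936))))) (c (a (c (l 16496248) (a (l 16477520) (l 16468840))) (c (l 16475880) (l 16456176))) (a (c (l 16461576) (l 16463792)) (c (l 16445552) (l 16426216))))) (a (a (a (l 14) (c (c (l 16498616) (l 16491312)) (a (l 14) (l 16443184)))) (c (c (l 16491160) (a (l 16481616) (l 16472312))) (a (c (l 16466888) (l 16445824)) (c (l 16457808) (l 16436624))))) (c (a (c (l 16463656) (a (l 16463392) (l 16454816))) (c (l 16465152) (l 16421504))) (a (a (c (l 16449096) (l 16427680)) (l 16412384)) (a (l 16422608) (l 16414800)))))) (a (c (a (c (c (b (l 16492624) (l 16481192)) (b (l 16490288) (l 16478080))) (b (a (l 16487544) (l 16477344)) (a (l 16473992) (l 16463616)))) (c (c (b (l 16471784) (l 16460416)) (b (l 16470128) (l 16457824))) (b (a (l 16467552) (l 16458192)) (a (l 16453672) (l 16444192))))) (a (c (b (a (l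 16470224) (l 16460088)) (a (l 16454384) (l 16443976))) (b (a (l 16446680) (l 16436416)) (a (l 16428168) (l 16417560)))) (c (b (a (l 16450408) (l 16441160)) (a (l 16434048) (l 16424584))) (b (a (l 16426624) (l 16417192)) (a (l 16407448) (l 16397720)))))) (c (a (c (c (l 16456752) (l 16453040)) (b (l 16452800) (l 16441328))) (c (c (l 16437320) (l 16427536)) (b (a (l 16432544) (l 16424648)) (a (l 16418480) (l 16410688))))) (a (b (a (c (l 16432320) (l 16408040)) (c (l 16423888) (l 16399200))) (c (a (l 16415552) (l 16406960)) (a (l 16388304) (l 16379224)))) (c (b (l 16411952) (a (l 16398800) (l 16391064))) (b (a (l 16390664) (l 16382440)) (a (l 16370488) (l 16362088)))))))), by decide +kernel⟩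

def k7_pm_001 : ∃ t, chk3 f_pm_001 t 2 7 1 = true :=
  ⟨(l 2), by decide +kernel⟩

def k8_pm_001 : ∃ t, chk3 f_pm_001 t 6 7 1 = true :=
  ⟨(b (b (l 14) (l 2)) (l 2)), by decide +kernel⟩

def k9_pm_001 : ∃ t, chk3 f_pm_001 t 14 56 1 = true :=
  ⟨(b (a (l 14) (a (a (l 14) (c (c (l 16507704) (l 16495184)) (b (l 14) (c (l 16470576) (l 16442008))))) (a (c (c (l 16496136) (l 16483320)) (c (l 16461864) (c (l 16441200) (l 16425544)))) (c (c (l 16484856) (l 16471848)) (c (l 16450120) (c (l 16429208) (l 16413360))))))) (a (a (l 14) (a (l 14) (a (l 14) (a (l 14) (b (l 14) (c (l 16488152) (l 16454000))))))) (c (a (a (c (l 16508168) (a (l 16499200) (l 16492824))) (c (l 16497072) (l 16483416))) (c (c (l 16481360) (l 16477040)) (a (l 16471216) (l 16459416)))) (a (c (a (l 16457704) (l 16439360)) (a (c (l 16451568) (l 16434968)) (c (l 16438088) (l 16421240)))) (c (a (l 16447672) (l 16435488)) (a (c (l 16425080) (l 16407992)) (c (l 16412576) (l 16395264)))))))), by decide +kernel⟩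

def k10_pm_001 : ∃ t, chk3 f_pm_001 t 14 57 1 = true :=
  ⟨(a (b (a (l 14) (c (c (c (a (l 16506968) (l 16499528)) (l 16509440)) (a (l 16511944) (l 16477552))) (c (a (l 16490760) (l 16464584)) (a (b (l 14) (l 16455440)) (c (l 16451976) (l 16434360)))))) (a (l 2) (c (c (c (a (l 16490432) (l 16483864)) (l 16493992)) (c (l 16500216) (l 16490896))) (a (c (l 16500248) (l 16430600)) (c (l 16443304) (l 16409360)))))) (c (c (b (a (c (l 16487560) (l 16490512)) (c (l 16470112) (l 16466344))) (a (c (l 16473128) (l 16479856)) (l 16453736))) (c (a (b (l 16483392) (l 16473520)) (b (l 16458536) (l 16468872))) (a (b (l 16475768) (l 16484032)) (b (l 16447992) (l 16436616))))) (c (a (b (a (l 16440056) (l 16426416)) (c (l 16428936) (l 16413432))) (b (a (l 16434200) (l 16421512)) (a (l 16421584) (l 16408304)))) (a (b (a (c (l 16437400) (l 16419440)) (c (l 16423296) (l 16405048))) (a (c (l 16424264) (l 16404944)) (c (l 16409464) (l 16389800)))) (b (a (c (l 16409688) (l 16391160)) (c (l 16396608) (l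 16377808))) (a (c (l 16395168) (l 16375176)) (c (l 16381424) (l 16361120)))))))), by decide +kernel⟩

def k11_pm_001 : ∃ t, chk3 f_pm_001 t 14 29 1 = true :=
  ⟨(a (b (a (l 2) (a (l 2) (b (c (c (l 100494923543) (l 16480544)) (c (l 16454696) (l 16397608))) (l 2)))) (l 2)) (a (a (b (b (c (c (c (l 16461008) (l 16468472)) (l 16466440)) (c (l 16439352) (c (l 16412336) (l 16391656)))) (a (l 2) (a (l 2) (b (c (l 16438032) (l 16408256)) (l 2))))) (l 2)) (b (c (c (b (l 16457888) (b (l 16446512) (l 16439984))) (b (l 16452576) (b (l 16446072) (l 16440584)))) (b (c (l 16424416) (c (l 16396736) (l 16375656))) (b (c (l 16416752) (b (l 16378728) (l 16375440))) (c (l 16410328) (a (l 16373680) (l 16364576)))))) (a (l 2) (b (b (c (l 16440632) (l 16377040)) (l 2)) (l 2))))) (b (c (b (a (c (l 16450664) (l 16439080)) (c (l 16442896) (l 16446952))) (b (a (c (l 16440200) (l 16431928)) (c (l 16433360) (l 16418072))) (c (l 16431328) (l 16397352)))) (b (b (c (l 16384848) (a (l 16374632) (l 16360160)))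 (c (l 16389544) (a (l 16367816) (l 16352808)))) (b (c (a (l 16380552) (l 16386728)) (a (b (l 16362672) (l 16359120)) (b (l 16347408) (l 16342800)))) (c (l 16365144) (a (l 16351696) (l 16335584)))))) (c (c (c (l 16437920) (l 16418368)) (c (b (l 16414240) (l 16399936)) (b (l 16400160) (l 16384144)))) (b (c (a (l 16380880) (l 16365656)) (a (b (l 16341464) (l 16330664)) (b (l 16325520) (l 16314904)))) (c (a (l 16362056) (l 16347048)) (a (b (l 16319288) (l 2)) (b (l 16303712) (l 16291920))))))))), by decide +kernel⟩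

def k12_pm_001 : ∃ t, chk3 f_pm_001 t 30 28 1 = true :=
  ⟨(c (b (c (a (c (b (l 16470056) (l 16459208)) (b (l 16466208) (l 16465184))) (b (c (l 16449264) (l 16445752)) (c (l 16438288) (l 16433928)))) (a (b (a (l 16460808) (l 16450192)) (a (l 16448064) (l 16437160))) (b (a (l 16440040) (l 16430392)) (a (l 16426736) (l 16416848))))) (b (b (a (c (l 16449160) (l 16433192)) (c (l 16428104) (l 16411896))) (a (c (l 16443808) (l 16427128)) (c (l 16422560) (l 16405472)))) (c (a (l 16425456) (c (l 16416712) (l 16411080))) (a (a (l 16424208) (l 16412544)) (a (l 16401400) (l 16390832)))))) (c (b (a (b (a (l 16438872) (l 16428128)) (a (l 16423808) (l 16412664))) (b (a (l 16417888) (l 16408144)) (a (l 16402056) (l 16391952)))) (a (b (a (l 16409336) (l 16397720)) (a (l 16395576) (l 16383408))) (b (a (l 16386664) (l 16376144)) (a (l 16371832) (l 16360824))))) (b (a (b (a (c (l 16417728) (l 16401712)) (c (l 16406792) (l 16390608))) (a (c (l 16400616) (l 16383088)) (c (l 16389208) (l 16371488))))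 (b (a (c (l 16396376) (l 16380032)) (l 16378304)) (a (c (l 16378352) (l 16360432)) (l 16359080)))) (a (b (a (c (l 16384080) (l 16365032)) (c (l 16372136) (l 16352856))) (a (c (l 16368256) (l 16347664)) (c (l 16355704) (l 16334840)))) (b (a (c (l 16360776) (l 16341264)) (l 16340216)) (a (c (l 16343752) (l 16322616)) (l 16332304))))))), by decide +kernel⟩

def k13_pm_001 : ∃ t, chk3 f_pm_001 t 31 28 1 = true :=
  ⟨(a (c (b (c (c (l 16429504) (b (l 16427000) (l 16415000))) (b (a (l 16421240) (l 16412592)) (l 16418744))) (c (b (c (l 16407840) (l 16403104)) (c (l 16396952) (l 16391432))) (b (a (l 16394008) (l 16384952)) (a (l 16380872) (l 16371512))))) (b (b (c (a (l 16398856) (l 16390048)) (a (l 16368552) (l 16359176))) (c (a (l 16382352) (l 16373264)) (a (l 16348936) (l 16339184)))) (b (c (a (l 16366160) (l 16356712)) (a (l 16329600) (l 16319416))) (c (a (l 16350376) (b (l 16344528) (l 16336528))) (a (l 16310664) (b (l 16304800) (b (l 16297568) (l 16292944)))))))) (c (b (b (c (l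 16411008) (a (l 16404400) (l 16396640))) (c (l 16399744) (l 16402160))) (c (b (l 16388344) (a (l 16381232) (l 16372752))) (b (l 16354752) (a (l 16362856) (l 16354880))))) (b (b (c (a (l 16381712) (l 16373840)) (a (l 16350168) (l 16341536))) (c (a (l 16364680) (l 16356600)) (a (l 16329840) (l 16320912)))) (b (c (a (l 16347816) (l 16339464)) (a (l 16309672) (l 16300376))) (c (b (a (l 16335344) (l 16326720)) (a (l 16327520) (l 16319392))) (b (a (l 16294712) (l 16285032)) (a (b (l 16287344) (l 16283408)) (l 16276728)))))))), by decide +kernel⟩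

def k14_pm_001 : ∃ t, chk3 f_pm_001 t 30 29 1 = true :=
  ⟨(b (b (b (c (a (c (l 16428352) (l 16409920)) (c (l 16406384) (a (l 16392440) (l 16381560)))) (a (c (l 16379416) (a (l 16346296) (l 16333072))) (a (c (l 16361032) (b (l 16322600) (l 16318224))) (c (l 16349728) (b (l 16310496) (l 16306504)))))) (c (a (c (l 16423304) (a (l 16410624) (l 16398256))) (c (l 16400872) (l 16401720))) (a (a (c (l 16379344) (b (l 16340552) (l 16336648))) (c (l 16366448) (b (l 16326912) (l 16322912)))) (a (c (l 16354128) (a (l 16315416) (l 16309120))) (c (l 16342608) (l 16300344)))))) (c (a (c (l 16414976) (a (l 16401152) (l 16388400))) (c (l 16392336) (a (l 16376496) (l 16365488)))) (a (c (a (l 16368288) (l 16354968)) (a (b (l 16330080) (l 16320696)) (b (l 16316248) (l 16307040)))) (c (a (l 16342680) (l 16331408)) (a (b (l 16303584) (l 16294560)) (b (l 16291960) (l 16283128))))))) (c (c (a (a (l 16403448) (l 16391536)) (b (l 16380720) (l 16368744))) (a (b (a (l 16387080) (l 16374424)) (a (l 16372032)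 (l 16359496))) (b (l 16346632) (l 16321448)))) (c (a (b (a (l 16351496) (l 16338400)) (a (l 16333120) (l 16320288))) (b (a (l 16326360) (l 16315344)) (a (l 16308536) (l 16297832)))) (a (b (a (b (l 16310808) (l 16300384)) (b (l 16297336) (l 16287112))) (a (b (l 16289392) (l 16277816)) (l 16291696))) (b (a (b (l 16285056) (l 16275032)) (l 16268976)) (a (l 16258984) (l 16248312))))))), by decide +kernel⟩

def k15_pm_001 : ∃ t, chk3 f_pm_001 t 31 29 1 = true :=
  ⟨(b (c (c (a (b (a (l 16388296) (l 16378856)) (l 16372256)) (b (l 16365848) (l 16354752))) (a (b (a (l 16368248) (l 16358792)) (l 16329696)) (b (l 16325456) (l 16333936)))) (a (b (c (b (a (l 16339232) (l 16329432)) (l 16327240)) (b (a (b (l 16299344) (l 16295368)) (l 16287136)) (a (l 16289488) (l 16279560)))) (c (a (l 16321096) (l 16311752)) (a (l 16277016) (l 16267384)))) (b (c (a (l 16317392) (l 16309616)) (a (l 16274320) (l 16266112))) (c (a (l 16303336) (l 16295832)) (a (l 16258664) (l 16250840)))))) (b (c (a (c (l 16360792)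 (l 16337200)) (c (l 16343568) (l 16320872))) (a (c (a (l 16305320) (l 16296264)) (a (l 16258816) (l 16249608))) (c (a (l 16288152) (l 16280960)) (a (l 16241328) (l 16233952))))) (c (a (c (l 16349024) (l 16322904)) (c (l 16332144) (l 16307056))) (a (c (a (l 16288120) (l 16279408)) (a (l 16238616) (l 16229888))) (c (l 16289112) (a (l 16222096) (l 16215232))))))), by decide +kernel⟩

def k16_pm_001 : ∃ t, chk3 f_pm_001 t 7 30 1 = true :=
  ⟨(b (a (b (b (a (l 2) (a (l 2) (a (l 2) (a (l 2) (c (l 16385592) (l 16303336)))))) (l 2)) (l 2)) (a (b (c (c (a (l 16378592) (l 16356128)) (a (l 16349432) (l 16326544))) (a (c (a (l 16312896) (l 16300368)) (a (l 16259240) (l 16246752))) (c (a (l 16288944) (l 16278576)) (a (l 16235496) (l 16225320))))) (c (c (a (l 16364896) (l 16342568)) (a (l 16331664) (l 16309184))) (a (c (a (l 16290544) (l 16278352)) (a (l 16232056) (l 16220080))) (c (a (l 16267288) (l 16257296)) (a (l 16209352) (l 16199720)))))) (c (c (a (b (l 16336664) (l 16323400)) (l 16313888))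 (a (b (l 16307488) (l 16290648)) (b (l 16292200) (l 16275984)))) (a (b (c (l 16285928) (a (l 16216144) (l 16207936))) (c (l 16286224) (a (l 16191096) (l 16183464)))) (b (c (l 16271208) (a (l 16200696) (l 16194384))) (c (l 16251408) (a (l 16176808) (l 16171096)))))))) (a (l 2) (a (a (a (l 2) (a (l 2) (b (b (c (l 16307896) (l 16227800)) (l 2)) (l 2)))) (c (c (c (l 16327576) (l 16323568)) (b (l 16290216) (l 16269544))) (b (c (a (l 16243408) (l 16233840)) (a (l 16180368) (l 16171328))) (c (c (l 16227904) (l 16196352)) (c (a (l 16166544) (l 16157952)) (a (l 16129608) (l 16121384))))))) (c (c (a (c (l 16308704) (l 16293376)) (l 16307352)) (a (b (l 16272264) (l 16252264)) (b (l 16258296) (l 16239056)))) (c (a (b (c (l 16235304) (l 16206992)) (c (l 16211544) (l 16180640))) (b (a (l 16211424) (l 16205960)) (c (l 16199376) (l 16169080)))) (a (b (a (l 16163304) (l 16156288)) (a (b (l 16140560) (l 16124448)) (l 16126240))) (b (a (l 16150256) (l 16145192)) (a (l 16120896) (l 16116520))))))))),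 by decide +kernel⟩

def k17_pm_001 : ∃ t, chk3 f_pm_001 t 7 31 1 = true :=
  ⟨(a (l 2) (a (a (l 2) (a (l 2) (b (b (b (c (l 16189760) (c (l 16187128) (l 16114392))) (l 2)) (l 2)) (l 2)))) (b (c (c (b (a (l 16277584) (l 16263280)) (a (l 16268040) (l 16255080))) (b (a (l 16230520) (l 16218176)) (a (b (l 16217600) (l 16220896)) (l 16230032)))) (b (a (c (c (l 16185552) (l 16151720)) (c (a (l 16118144) (l 16112312)) (a (l 16078784) (l 16073352)))) (c (c (l 16174448) (l 16141376)) (a (b (l 16096912) (l 16079944)) (b (l 16093096) (l 16076504))))) (a (c (b (b (l 16152272) (l 16153456)) (l 16158312)) (b (b (a (l 16077336) (l 16073208)) (l 16077232)) (l 16083808))) (c (a (l 16149456) (l 16146680)) (b (a (l 16071944) (l 16070432)) (l 16078672)))))) (a (a (l 2) (b (c (l 16247832) (l 18353005399)) (l 2))) (c (c (l 16258016) (l 16198720)) (b (c (l 16159536) (l 16090888)) (l 16120448))))))), by decide +kernel⟩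

theorem s18_pm_001 : ∃ t, chk3 f_pm_001 t 7 15 1 = true := ex3_b k16_pm_001 k17_pm_001

theorem s19_pm_001 : ∃ t, chk3 f_pm_001 t 15 29 1 = true := ex3_a k14_pm_001 k15_pm_001

theorem s20_pm_001 : ∃ t, chk3 f_pm_001 t 15 28 1 = true := ex3_a k12_pm_001 k13_pm_001

theorem s21_pm_001 : ∃ t, chk3 f_pm_001 t 15 14 1 = true := ex3_b s20_pm_001 s19_pm_001

theorem s22_pm_001 : ∃ t, chk3 f_pm_001 t 14 28 1 = true := ex3_b k9_pm_001 k10_pm_001

theorem s23_pm_001 : ∃ t, chk3 f_pm_001 t 14 14 1 = true := ex3_b s22_pm_001 k11_pm_001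

theorem s24_pm_001 : ∃ t, chk3 f_pm_001 t 7 14 1 = true := ex3_a s23_pm_001 s21_pm_001

theorem s25_pm_001 : ∃ t, chk3 f_pm_001 t 7 7 1 = true := ex3_b s24_pm_001 s18_pm_001

theorem s26_pm_001 : ∃ t, chk3 f_pm_001 t 3 7 1 = true := ex3_a k8_pm_001 s25_pm_001

theorem s27_pm_001 : ∃ t, chk3 f_pm_001 t 1 7 1 = true := ex3_a k7_pm_001 s26_pm_001

theorem s28_pm_001 : ∃ t, chk3 f_pm_001 t 15 13 1 = true := ex3_b k5_pm_001 k6_pm_001

theorem s29_pm_001 : ∃ t, chk3 f_pm_001 t 7 13 1 = true := ex3_a k4_pm_001 s28_pm_001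

theorem s30_pm_001 : ∃ t, chk3 f_pm_001 t 7 6 1 = true := ex3_b k3_pm_001 s29_pm_001

theorem s31_pm_001 : ∃ t, chk3 f_pm_001 t 3 6 1 = true := ex3_a k2_pm_001 s30_pm_001

theorem s32_pm_001 : ∃ t, chk3 f_pm_001 t 1 6 1 = true := ex3_a k1_pm_001 s31_pm_001

theorem s33_pm_001 : ∃ t, chk3 f_pm_001 t 1 3 1 = true := ex3_b s32_pm_001 s27_pm_001

theorem s34_pm_001 : ∃ t, chk3 f_pm_001 t 1 1 1 = true := ex3_b k0_pm_001 s33_pm_001

theorem c_pm_001 : CertB 0 536870912 536870912 536870912 858993459 64424510 3 eng mog cd0q0 cd0q1 pd0 false true false .up 0 0 1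
    ndB0q0 ndB0q1 pcB0 cut_pm_001 Ext.none :=
  certB0 (fam := false) (s1 := true) (s2 := false) (a := 0) (b := 0) (c := 1) (cn := .up) (n1 := ndB0q0) (n2 := ndB0q1) (pc := pcB0) (cut := cut_pm_001) (xt := Ext.none) (P1 := 0) (W1 := 536870912) (P2 := 536870912) (W2 := 536870912) (P3 := 858993459) (W3 := 64424510) (N0 := 3) (En := eng) (mo := mog) (C1 := cd0q0) (C2 := cd0q1) (C3 := pd0)
    rfl s34_pm_001

noncomputable def cut_pm_011 : Cut := Cut.of [[⟨3, 0, 0, 1449551462⟩], [⟨4, 0, 0, 2845415833⟩], [⟨0, 0, 0, 67108864⟩, ⟨1, 1, 0, 67108864⟩, ⟨2, 1, 0, 67108864⟩]]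

noncomputable def f_pm_011 : ℕ → ℕ → ℕ → ℕ → Bool := onCell 0 536870912 536870912 536870912 858993459 64424510
    (rowB 3 eng mog cd0q0 cd0q1 pd1 0 false true false .pnn 0 1 1 (qsf 0 536870912 536870912 536870912 1) ndB0q0 ndB0q1 pcB1 cut_pm_011 Ext.none)

def k0_pm_011 : ∃ t, chk3 f_pm_011 t 1 2 1 = true :=
  ⟨(l 14), by decide +kernel⟩

def k1_pm_011 : ∃ t, chk3 f_pm_011 t 2 3 1 = true :=
  ⟨(b (l 14) (a (l 14) (b (l 14) (a (l 14) (b (l 14) (b (l 14) (a (l 14) (a (b (l 14) (c (l 16456568) (l 16530416))) (b (c (b (l 16443544) (l 16474976)) (l 16479696)) (c (l 16480416) (l 16512400))))))))))), by decide +kernel⟩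

def k2_pm_011 : ∃ t, chk3 f_pm_011 t 3 6 1 = true :=
  ⟨(a (l 14) (a (a (l 14) (l 1)) (l 1))), by decide +kernel⟩

def k3_pm_011 : ∃ t, chk3 f_pm_011 t 6 14 1 = true :=
  ⟨(b (l 14) (a (l 14) (a (a (l 14) (b (l 14) (b (l 14) (c (b (l 16529088) (l 16522312)) (l 16525616))))) (b (c (a (l 16539728) (l 16521296)) (a (l 16536608) (l 16517752))) (c (a (b (l 16520624) (b (l 16511048) (l 16503448))) (b (b (l 16505816) (l 16499456)) (l 16488664))) (a (b (l 16518496) (l 16507904)) (b (l 16500120) (l 16490248)))))))), by decide +kernel⟩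

def k4_pm_011 : ∃ t, chk3 f_pm_011 t 6 15 1 = true :=
  ⟨(b (a (b (a (l 14) (a (l 14) (b (l 14) (c (l 16530240) (l 16539848))))) (b (a (l 14) (a (c (l 16530288) (l 16545936)) (c (l 16511496) (l 16528856)))) (a (a (l 14) (c (l 16529152) (l 16550944))) (a (c (l 16510336) (l 16533336)) (c (l 16492088) (l 16515592)))))) (a (b (b (c (a (l 16550048) (l 16510080)) (a (l 16532984) (l 16515576))) (c (a (l 16511456) (l 16493160)) (a (l 16522632) (l 16505520)))) (c (a (b (l 16493240) (l 16474384)) (a (l 16512624) (l 16483048))) (c (l 16491336) (l 16489928)))) (b (c (a (c (l 16481720) (l 16485648)) (l 16486704)) (a (a (l 16497728) (l 16489168)) (l 16476256))) (c (c (l 16478600) (l 16445928)) (c (l 16457688) (l 16453440)))))) (c (a (b (a (a (c (b (l 16521224) (l 16497440)) (l 16523216)) (c (b (l 16502040) (l 16478896)) (l 16505056))) (b (a (l 16489864) (l 16472176)) (c (l 16473312) (l 16427336)))) (b (a (c (b (l 16512376) (l 16461040)) (b (l 16467896) (l 16478016))) (c (l 16453712) (l 16386744)))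 (a (a (l 16462856) (l 16445848)) (a (l 16429416) (l 16413568))))) (a (b (c (b (l 16461144) (l 16461088)) (b (l 16453992) (l 16435944))) (c (b (l 16401856) (l 16386608)) (l 16427760))) (b (c (b (l 16408248) (l 16430840)) (b (l 16421592) (l 16404528))) (b (l 16413288) (l 16278616))))) (a (b (b (a (a (l 16553768) (l 16536392)) (l 16489176)) (a (a (l 16539360) (l 16522056)) (l 16495944))) (a (b (c (l 16504776) (l 16508960)) (l 16485448)) (b (c (l 16470336) (l 16476784)) (l 16449872)))) (a (b (b (l 16474632) (l 16377272)) (b (a (l 16455920) (l 16438104)) (l 16414752))) (b (b (l 16438720) (a (l 16434640) (l 16417248))) (c (l 16388472) (l 16404096))))))), by decide +kernel⟩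

def k5_pm_011 : ∃ t, chk3 f_pm_011 t 14 7 1 = true :=
  ⟨(b (b (b (a (a (l 14) (a (l 14) (l 1))) (l 1)) (a (c (a (b (l 14) (l 16520296)) (b (l 16511488) (l 16499504))) (a (l 16523448) (l 16504144))) (a (c (l 48888280679) (l 16484864)) (l 1)))) (a (c (b (a (l 16502320) (a (l 16487024) (l 16508336))) (b (a (c (l 16483864) (l 16483888)) (l 16465592)) (l 16481976))) (b (a (l 16498864) (b (l 16485832) (l 16474104))) (b (a (l 16482000) (l 16463968)) (l 16463800)))) (a (b (c (b (l 16466944) (l 41908920695)) (b (l 16466840) (l 16455576))) (c (l 16440248) (l 16441672))) (b (b (l 1) (b (l 1) (l 93448428983))) (b (l 40835117351) (l 16417376)))))) (b (a (b (c (a (l 16448120) (l 16430664)) (a (l 16458952) (l 16441016))) (c (c (l 16404136) (l 16412848)) (c (l 16424160) (l 16417856)))) (b (c (a (l 16413312) (l 16395856)) (a (l 16422816) (l 16404704))) (c (a (l 16384000) (l 16367784)) (c (l 16390416) (l 16383424))))) (b (b (c (a (l 16383576) (l 16353248)) (a (l 16403176) (l 16368344))) (a (c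 (c (l 16381544) (l 16374184)) (b (l 16393080) (l 16389568))) (a (c (l 16345384) (l 16366664)) (c (l 16330952) (l 16350320))))) (a (c (c (l 16298512) (l 16283760)) (c (l 16355488) (l 16366888))) (c (c (l 16273208) (l 16317904)) (c (l 16322504) (l 16328968))))))), by decide +kernel⟩

def k6_pm_011 : ∃ t, chk3 f_pm_011 t 15 7 1 = true :=
  ⟨(a (b (b (l 1) (b (l 1) (c (l 54793730311) (l 48888139271)))) (b (b (c (l 52109352199) (l 16435360)) (c (a (l 16351360) (l 16334720)) (c (l 16355808) (l 16349344)))) (b (c (c (l 16332408) (l 16372376)) (b (l 16333968) (a (l 16334184) (l 16318168)))) (c (l 16309592) (c (l 16289472) (l 16291328)))))) (b (l 1) (b (b (l 1) (c (l 53719852615) (l 16317304))) (b (c (c (l 45129785319) (l 54256669367)) (b (l 16299088) (b (l 16292904) (l 16290888)))) (c (l 16301128) (b (l 16270344) (l 16179344))))))), by decide +kernel⟩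

theorem s7_pm_011 : ∃ t, chk3 f_pm_011 t 7 7 1 = true := ex3_a k5_pm_011 k6_pm_011

theorem s8_pm_011 : ∃ t, chk3 f_pm_011 t 6 7 1 = true := ex3_b k3_pm_011 k4_pm_011

theorem s9_pm_011 : ∃ t, chk3 f_pm_011 t 3 7 1 = true := ex3_a s8_pm_011 s7_pm_011

theorem s10_pm_011 : ∃ t, chk3 f_pm_011 t 3 3 1 = true := ex3_b k2_pm_011 s9_pm_011

theorem s11_pm_011 : ∃ t, chk3 f_pm_011 t 1 3 1 = true := ex3_a k1_pm_011 s10_pm_011

theorem s12_pm_011 : ∃ t, chk3 f_pm_011 t 1 1 1 = true := ex3_b k0_pm_011 s11_pm_011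

theorem c_pm_011 : CertB 0 536870912 536870912 536870912 858993459 64424510 3 eng mog cd0q0 cd0q1 pd1 false true false .pnn 0 1 1
    ndB0q0 ndB0q1 pcB1 cut_pm_011 Ext.none :=
  certB0 (fam := false) (s1 := true) (s2 := false) (a := 0) (b := 1) (c := 1) (cn := .pnn) (n1 := ndB0q0) (n2 := ndB0q1) (pc := pcB1) (cut := cut_pm_011) (xt := Ext.none) (P1 := 0) (W1 := 536870912) (P2 := 536870912) (W2 := 536870912) (P3 := 858993459) (W3 := 64424510) (N0 := 3) (En := eng) (mo := mog) (C1 := cd0q0) (C2 := cd0q1) (C3 := pd1)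
    rfl s12_pm_011

noncomputable def cut_pm_012 : Cut := Cut.of [[⟨3, 0, 0, 1449551462⟩], [⟨4, 0, 0, 2845415833⟩], [⟨0, 0, 0, 67108864⟩, ⟨1, 1, 0, 67108864⟩, ⟨2, 1, 0, 67108864⟩]]

noncomputable def f_pm_012 : ℕ → ℕ → ℕ → ℕ → Bool := onCell 536870912 536870912 0 536870912 858993459 64424510
    (rowB 3 eng mog cd0q0 cd0q2 pd1 2 false true false .pnp 0 1 2 (qsf 0 536870912 0 536870912 1) ndB0q0 ndB0q2 pcB1 cut_pm_012 Ext.none)

def k0_pm_012 : ∃ t, chk3 f_pm_012 t 4 2 1 = true :=
  ⟨(a (l 2) (a (l 2) (a (l 2) (b (l 2) (b (l 2) (b (l 2) (c (c (c (l 16375984) (l 16452784)) (l 16551464)) (c (l 16502208) (l 228806948023))))))))), by decide +kernel⟩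

def k1_pm_012 : ∃ t, chk3 f_pm_012 t 5 8 1 = true :=
  ⟨(a (l 6) (b (b (l 6) (a (l 6) (a (l 6) (a (l 6) (c (c (l 16558792) (l 16652904)) (l 16533528)))))) (a (a (l 6) (b (l 6) (c (c (c (l 16518800) (l 16573072)) (l 16654632)) (c (l 16625120) (l 16542328))))) (c (c (c (a (l 16561256) (l 16512968)) (a (l 16571816) (l 16565248))) (c (l 16621624) (l 16650848))) (c (a (l 16621000) (l 16610208)) (a (l 16542776) (l 16533504))))))), by decide +kernel⟩

def k2_pm_012 : ∃ t, chk3 f_pm_012 t 5 9 1 = true :=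
  ⟨(a (b (b (l 6) (a (l 6) (a (l 6) (c (c (c (l 16500456) (l 16562288)) (l 16653936)) (c (l 16617320) (l 16517544)))))) (a (a (l 2) (c (c (c (c (l 16499184) (l 16510624)) (l 16581064)) (l 16613736)) (c (a (l 16616944) (l 16611464)) (c (l 16536896) (l 16469864))))) (c (c (c (a (c (l 16463800) (l 16497376)) (c (l 16452336) (l 16486664))) (a (l 16548656) (l 16539104))) (c (l 16612760) (l 16644152))) (c (c (l 16617824) (l 16574888)) (c (l 16497008) (a (l 16455624) (l 16443976))))))) (c (a (c (c (b (a (c (l 16484896) (l 16514704)) (c (l 16476280) (l 16506352))) (a (c (l 16444120) (l 16478752)) (c (l 16438952) (l 16473488)))) (b (a (l 16560296) (l 16552320)) (a (l 16531648) (l 16526224)))) (c (b (l 16617544) (l 16599304)) (l 16639176))) (c (c (b (a (c (l 16470384) (l 16500352)) (l 16481992)) (a (b (l 16461128) (c (l 16428280) (l 16463160))) (b (l 16459920) (l 16448744)))) (b (a (l 16546176) (l 16541968)) (b (l 16443640) (l 16411088)))) (b (c (l 16605128) (l 16631896)) (c (l 16588072)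 (l 16611752))))) (a (c (c (b (l 16626128) (l 16598624)) (a (l 16577168) (l 16567224))) (b (a (c (l 16546256) (l 16488552)) (l 16487904)) (a (l 16449088) (l 16441152)))) (c (a (b (l 16593800) (l 16481016)) (b (l 16583648) (l 16410888))) (b (a (l 16479312) (l 16492624)) (a (a (l 16436256) (l 16434544)) (b (l 16460648) (a (l 16445856) (l 16449400))))))))), by decide +kernel⟩

def k3_pm_012 : ∃ t, chk3 f_pm_012 t 10 5 2 = true :=
  ⟨(b (a (a (a (l 2) (c (c (b (l 16457264) (b (l 16421232) (c (l 16379160) (l 16423072)))) (b (l 16532952) (l 16434040))) (b (l 16637784) (l 16608864)))) (c (c (b (c (l 16428664) (l 16466928)) (b (c (a (l 16394568) (l 16389720)) (l 16434440)) (c (l 16378896) (l 16421568)))) (b (l 16525232) (l 16346248))) (b (l 16633816) (l 16521768)))) (c (c (b (a (c (l 16417512) (l 16456624)) (b (l 16439136) (a (l 16420576) (l 16440392)))) (a (b (c (b (l 16390352) (l 16384888)) (l 16430256)) (l 16400088)) (c (l 16387120) (l 16425808)))) (b (a (l 16516240) (l 16403560)) (a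 (l 16425960) (l 16484712)))) (a (b (l 16628496) (l 16517600)) (b (l 16560024) (l 16597536))))) (c (a (c (b (a (c (l 16368016) (l 16409400)) (l 16389160)) (a (l 16376808) (l 16378232))) (b (l 16365384) (l 16448808))) (c (b (a (l 16391000) (l 16394128)) (a (l 16381144) (l 16385016))) (b (l 16464304) (l 16445520)))) (a (b (l 16410776) (l 16508096)) (a (l 16410640) (l 16445568))))), by decide +kernel⟩

def k4_pm_012 : ∃ t, chk3 f_pm_012 t 10 5 3 = true :=
  ⟨(b (b (a (c (c (l 16604120) (l 16535736)) (c (l 25332985591) (a (l 16421048) (l 16406344)))) (a (c (l 16567216) (c (l 16473928) (l 16394144))) (c (b (l 16566928) (l 16549568)) (b (l 16439840) (c (l 16454504) (b (l 16377648) (l 16367672))))))) (a (c (b (a (l 16557112) (l 16547552)) (a (l 16516616) (l 16512152))) (a (a (l 2) (b (l 16411024) (b (l 16387824) (l 16384176)))) (b (c (l 16445616) (a (l 16358456) (l 16354848))) (a (b (l 16387432) (l 16390968)) (l 16395176))))) (c (b (a (l 16520064) (l 16538744)) (l 16490560)) (a (b (c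 (l 16442272) (b (l 16357608) (l 16354968))) (l 16404968)) (c (l 16449400) (l 16376328)))))) (a (c (b (a (l 16521912) (l 16520952)) (l 16332800)) (b (a (c (l 16430544) (l 16350712)) (c (l 16436768) (l 16363976))) (a (l 16396704) (l 16402992)))) (c (b (l 16352472) (l 16438224)) (b (a (l 16411360) (l 16421000)) (a (l 16410320) (l 16418312)))))), by decide +kernel⟩

def k5_pm_012 : ∃ t, chk3 f_pm_012 t 11 5 1 = true :=
  ⟨(c (b (a (c (c (b (a (b (c (l 16414248) (l 16452448)) (c (l 16401640) (l 16440368))) (b (c (l 16414336) (l 16451368)) (l 16423448))) (a (l 16409480) (l 16413400))) (b (a (l 16420872) (l 16461072)) (l 16481136))) (b (b (l 16452040) (l 16409000)) (l 16522104))) (c (c (b (a (c (l 16415376) (l 16449136)) (l 16435560)) (a (l 16417656) (l 16421760))) (b (l 16373920) (l 16477968))) (b (c (l 16565888) (l 16592656)) (l 16566808)))) (a (c (c (b (a (l 16398040) (l 16402416)) (l 16455104)) (b (l 16461808) (l 16445344))) (b (l 16554256) (l 16526296))) (c (c (b (l 16471808) (l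 16401704)) (b (l 16460000) (l 16445776))) (b (l 16538744) (l 16514264))))) (c (b (a (b (a (b (l 16557824) (l 16544680)) (b (l 16551048) (l 16543864))) (l 16388584)) (b (a (l 16482592) (l 16545248)) (l 16493288))) (a (b (l 16478648) (l 16503896)) (b (l 16522440) (l 16508640)))) (b (a (b (a (b (c (l 16468504) (l 16393560)) (b (a (l 16416168) (l 16419520)) (l 16419560))) (b (a (l 16429960) (l 16431528)) (l 16431880))) (a (l 16427000) (l 16438304))) (b (a (c (l 16471256) (a (l 16405808) (l 16414288))) (l 16453632)) (a (l 16448688) (l 16458344)))) (a (b (a (l 16430504) (l 16439728)) (l 16410152)) (b (l 16453136) (l 16449024)))))), by decide +kernel⟩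

def k6_pm_012 : ∃ t, chk3 f_pm_012 t 4 3 1 = true :=
  ⟨(b (a (l 2) (a (b (l 2) (b (a (l 2) (c (b (l 16174080) (l 16183920)) (c (l 16417392) (l 16345976)))) (c (c (c (l 16382216) (l 16379128)) (l 16423552)) (c (l 16385288) (a (l 16320216) (l 16324888)))))) (b (c (c (b (c (a (l 16364704) (l 16365856)) (l 16390792)) (a (l 16238304) (l 16281232))) (a (l 175656561303) (l 16359928))) (c (c (l 43586642935) (b (l 16458040) (l 16432664))) (b (a (l 16382336) (l 16385400)) (a (l 16368312) (l 16371792))))) (c (c (b (c (l 16457320) (l 16398584)) (c (l 16329984) (l 16386824))) (b (l 16463224) (l 16436520))) (b (c (l 16421656) (a (l 16349600) (l 16355000))) (c (l 16396240) (l 16293424))))))) (c (b (a (a (l 2) (b (a (l 2) (c (l 16342600) (l 16382400))) (c (l 16330328) (l 16347632)))) (c (a (b (l 16310216) (l 16348784)) (b (l 16366848) (l 16370160))) (b (a (l 16394536) (l 16411272)) (a (l 16367960) (l 16387952))))) (a (a (b (c (l 16236056) (l 16293080)) (b (l 16273808) (l 16256040))) (b (c (l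 16323672) (l 16316560)) (b (l 16300600) (l 16283936)))) (a (b (c (l 16349784) (l 16340480)) (b (l 16325784) (l 16309808))) (b (c (l 16377624) (l 16363424)) (b (l 16349328) (l 16251088)))))) (b (a (a (l 2) (b (c (l 16345448) (l 47881433927)) (c (l 16317488) (l 16210656)))) (a (b (c (l 16358368) (l 16283664)) (c (l 16336936) (l 16252336))) (b (c (l 16375000) (l 16324264)) (c (l 16358768) (l 16257392))))) (a (b (a (b (l 16261488) (l 16249104)) (c (l 16292648) (l 16134768))) (a (a (l 16227256) (l 16241336)) (b (l 16266688) (l 16157064)))) (b (a (c (l 16317864) (l 16183848)) (c (l 16344456) (l 16320768))) (a (b (l 16297368) (l 16232288)) (b (l 16287752) (l 16287152)))))))), by decide +kernel⟩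

def k7_pm_012 : ∃ t, chk3 f_pm_012 t 5 6 1 = true :=
  ⟨(a (c (c (b (a (c (b (a (l 16367392) (l 16370392)) (l 16426600)) (b (l 16430000) (l 16414736))) (a (b (l 16318072) (l 16394352)) (b (l 16404832) (l 16398736)))) (a (b (c (l 16404448) (l 16403736)) (c (l 16344600) (l 16397296))) (b (c (l 16376568) (l 16411968)) (l 16396496)))) (b (a (b (l 16518784) (l 16490024)) (b (l 16510152) (l 16486128))) (a (b (l 16465400) (l 16445576)) (b (l 16466416) (l 16452144))))) (b (a (c (b (l 16372568) (l 16453632)) (b (a (l 16389696) (l 16395608)) (a (l 16376928) (l 16383880)))) (b (c (l 16480960) (l 16301632)) (c (l 16461184) (l 16375696)))) (a (b (c (l 16430872) (l 16303600)) (c (l 16410304) (l 16312784))) (b (c (l 16442800) (l 16386368)) (c (l 16426672) (l 16378728)))))) (b (c (c (a (b (a (l 16408184) (l 16411656)) (a (l 16403256) (l 16407856))) (b (l 16311720) (l 16330312))) (a (b (l 16502080) (l 16482192)) (b (l 16493736) (l 16478008)))) (a (c (b (l 16487064) (l 16471152)) (a (l 16310168)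 (l 16361888))) (c (b (l 16495336) (l 16483136)) (b (l 16443440) (l 16437840))))) (c (a (b (a (l 16266848) (l 16290736)) (c (l 16411512) (l 16458280))) (b (c (l 16353800) (l 16467512)) (c (l 16425088) (l 16463280)))) (a (b (c (l 16456824) (l 16409136)) (c (l 16444832) (l 16404888))) (b (c (l 16472832) (l 16433688)) (l 16428496)))))), by decide +kernel⟩

def k8_pm_012 : ∃ t, chk3 f_pm_012 t 5 7 1 = true :=
  ⟨(a (a (b (c (b (c (l 16385088) (l 16427384)) (c (l 16394128) (l 16407352))) (b (c (l 16393968) (l 16349296)) (c (l 16382256) (l 16350240)))) (b (c (b (l 16398936) (l 16385808)) (b (l 16364424) (l 16363072))) (c (b (l 16372888) (l 16297304)) (b (l 16341488) (l 16321088))))) (c (b (b (c (l 16404128) (l 16443752)) (l 16430384)) (b (l 16414008) (c (l 16420576) (l 16329824)))) (b (b (c (l 16414632) (l 16377000)) (l 16394880)) (b (l 16394496) (b (l 16374408) (l 16397136)))))) (a (c (b (b (c (l 16423016) (l 16455848)) (l 16450680)) (b (l 16437352) (b (l 16382096) (a (l 16408424) (l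 16423432))))) (b (b (l 16422288) (l 16423656)) (b (l 16426352) (b (l 16407952) (l 16431648))))) (c (b (b (a (l 16449288) (l 16455680)) (l 16469224)) (b (l 16462632) (b (l 16410936) (a (l 16439024) (l 16455200))))) (b (b (l 16449320) (l 16453744)) (b (l 16459072) (b (l 16463360) (l 16466864))))))), by decide +kernel⟩

def k9_pm_012 : ∃ t, chk3 f_pm_012 t 6 8 1 = true :=
  ⟨(a (c (c (a (c (a (b (l 16539208) (l 16508992)) (b (l 16534352) (l 16506808))) (a (b (l 16583600) (l 16560416)) (l 16504664))) (a (c (b (l 16531352) (l 16506416)) (l 16522456)) (b (l 16445600) (l 16425824)))) (a (a (l 16540240) (l 16618336)) (c (l 16609048) (l 16618096)))) (a (c (c (l 16618960) (a (l 16596952) (l 16586400))) (a (c (l 16562712) (l 16522416)) (c (l 16553208) (l 16514512)))) (c (c (l 16555312) (l 16570976)) (a (l 16526256) (l 16518504))))) (a (c (c (c (b (l 16468848) (a (l 16509904) (l 16513536))) (b (l 16569368) (l 16552344))) (a (l 16611112) (l 16580304))) (c (b (l 16554096) (a (l 16559880) (l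 16553184))) (b (l 16502232) (a (l 16476872) (l 16475760))))) (c (b (c (a (l 16553368) (l 16534784)) (l 16591016)) (a (b (b (l 16432992) (l 16427256)) (l 16414712)) (c (l 16531184) (l 16581040)))) (b (c (a (l 16560648) (l 16553104)) (a (l 16514072) (l 16490376))) (a (c (l 16549224) (l 16478664)) (l 16466200)))))), by decide +kernel⟩

def k10_pm_012 : ∃ t, chk3 f_pm_012 t 6 9 1 = true :=
  ⟨(a (a (c (c (c (b (a (l 16480888) (b (l 16487504) (l 16474992))) (a (b (l 16461704) (l 16451776)) (l 16460416))) (b (a (l 16539376) (l 16537024)) (b (l 16460768) (l 16511512)))) (b (c (l 16595736) (l 16613008)) (b (l 16526856) (l 16600120)))) (c (b (a (l 16573640) (l 16564712)) (a (b (l 16554992) (l 16549680)) (l 16529024))) (b (a (l 16485672) (l 16459736)) (a (b (a (l 16458144) (l 16458928)) (l 16458152)) (l 16445608))))) (c (c (a (b (b (l 16410088) (l 16358304)) (l 16382488)) (b (c (l 16465744) (l 16514256)) (l 16423440))) (b (a (l 16609608) (l 16601488)) (l 16584952))) (b (a (c (l 16494456)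 (b (l 16483064) (a (l 16470616) (l 16473272)))) (b (c (l 16553544) (l 16523312)) (l 16413128))) (a (c (l 16549632) (l 16476488)) (l 16351888))))) (c (a (c (c (b (a (l 16488520) (l 16488888)) (l 16465496)) (a (l 16413704) (l 16471192))) (b (l 16508344) (l 16560024))) (c (b (c (l 16488504) (l 16517984)) (l 16372424)) (b (l 16564968) (l 16533136)))) (a (a (b (c (l 16550096) (l 16466504)) (l 16439760)) (c (l 16550520) (l 16499792))) (c (l 16468456) (a (l 16487480) (l 16517288)))))), by decide +kernel⟩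

def k11_pm_012 : ∃ t, chk3 f_pm_012 t 6 5 1 = true :=
  ⟨(a (c (b (a (c (b (a (l 16341392) (l 16404376)) (a (l 16450040) (l 16450320))) (c (l 16536288) (l 16577144))) (c (c (a (l 16437464) (l 16438976)) (l 16394576)) (c (l 16520192) (l 16563248)))) (a (c (b (a (l 16436272) (l 16436992)) (l 16322176)) (b (l 16522832) (l 16501360))) (c (a (l 16306912) (l 16369656)) (b (l 16505472) (l 16487080))))) (a (b (a (c (l 16540480) (l 16445040)) (b (l 16323240) (l 16404024))) (c (l 16436704) (b (l 16470760) (l 16467672)))) (b (c (l 16437416) (b (l 16486304) (l 16467904))) (c (l 16486448) (b (l 16489032) (l 16487776)))))) (c (b (a (c (b (l 16358128) (l 16383848)) (b (l 16531280) (l 16506688))) (c (b (l 16414688) (l 16419912)) (b (l 16505800) (l 16483224)))) (a (c (b (l 16413816) (l 16406216)) (b (l 16486448) (l 16470872))) (a (b (l 16387536) (l 16419472)) (b (l 16422520) (l 16434496))))) (a (a (b (l 16398640) (l 16458128)) (b (l 16467288) (l 16424568))) (b (b (l 16454896) (l 16436184)) (a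 (l 16400640) (l 16378256)))))), by decide +kernel⟩

def k12_pm_012 : ∃ t, chk3 f_pm_012 t 14 2 1 = true :=
  ⟨(b (a (c (b (b (a (c (l 16557992) (l 16576136)) (c (l 16557600) (l 16568848))) (a (l 16426456) (l 16542688))) (b (c (l 16410856) (l 16535552)) (c (l 16426280) (l 16504472)))) (a (b (b (c (l 16547824) (l 16491168)) (l 16533712)) (l 16457968)) (b (b (l 16469224) (l 16538680)) (l 16484976)))) (b (a (c (c (l 16536296) (l 16566344)) (l 16519504)) (c (l 16498664) (l 16546000))) (a (c (b (l 16499208) (l 16428496)) (l 16496752)) (c (c (l 16383288) (l 16481712)) (l 16486328))))) (b (a (c (c (b (l 16426568) (l 16411344)) (a (l 16433056) (l 16461528))) (b (l 16406408) (l 16355976))) (c (a (b (l 16447752) (l 16430920)) (b (l 16437248) (l 16421120))) (c (a (l 16445128) (l 16443392)) (a (l 16486776) (l 16433760))))) (a (c (a (b (l 16436008) (l 16428048)) (b (l 16428032) (l 16421120))) (b (l 16353304) (a (l 16472216) (l 16451240)))) (c (a (b (l 16419520) (l 16413720)) (b (l 16410736)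 (l 16406096))) (a (b (l 16443480) (l 16430432)) (b (l 16419848) (l 16409632))))))), by decide +kernel⟩

def k13_pm_012 : ∃ t, chk3 f_pm_012 t 15 2 1 = true :=
  ⟨(b (b (a (c (a (l 16529752) (l 16518624)) (a (l 16548880) (l 16514712))) (c (a (l 16507456) (b (l 16515160) (l 16476704))) (a (l 16480608) (b (l 16464336) (l 16407688))))) (a (c (a (b (l 16477032) (l 16448312)) (b (l 16465488) (l 16436880))) (a (l 16434224) (l 16382240))) (a (c (b (l 16454008) (l 16425480)) (b (l 16428776) (l 16399856))) (c (b (l 16400184) (l 16413688)) (b (l 16397008) (l 16369800)))))) (a (b (a (c (b (l 16426456) (l 16411080)) (l 16379712)) (c (b (l 16415536) (l 16401160)) (b (l 16404256) (l 16384992)))) (c (a (b (l 16401784) (l 16419600)) (b (l 16413872) (a (l 16392776) (l 16388832)))) (a (b (l 16396248) (l 16388784)) (b (l 16372600) (l 16367584))))) (c (b (a (b (l 16404624) (l 16411856)) (b (l 16372184) (a (l 16382808) (l 16377112)))) (a (b (a (l 16386000) (l 16381136)) (a (l 16384632) (l 16380216)))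 (b (a (l 16376048) (l 16370752)) (a (l 16396568) (b (l 16369928) (l 16371592)))))) (b (a (c (l 16354320) (l 16359336)) (b (l 16347776) (l 16311424))) (a (b (l 16390672) (a (l 16351496) (l 16340616))) (b (a (l 16330512) (l 16318312)) (a (l 16329672) (l 16339704)))))))), by decide +kernel⟩

def k14_pm_012 : ∃ t, chk3 f_pm_012 t 6 6 1 = true :=
  ⟨(a (b (b (c (a (c (l 16358616) (l 16484336)) (c (l 16403328) (l 16473376))) (a (l 16350088) (l 16503840))) (a (c (c (l 16378880) (l 16472360)) (l 16417648)) (c (c (l 16425256) (l 16465040)) (l 16501384)))) (b (a (c (c (l 16383656) (l 16466184)) (l 16476352)) (c (c (l 16411024) (l 16462848)) (l 16500632))) (a (c (c (l 16394656) (l 16466576)) (l 16474872)) (c (c (l 16424600) (l 16467768)) (l 16502352))))) (b (a (c (c (b (l 16403432) (l 16406072)) (b (l 16439432) (l 16455696))) (c (l 16389416) (l 16470744))) (c (b (a (l 16435632) (l 16430872)) (c (l 16405360) (l 16444576))) (b (l 16381928) (l 16371696)))) (a (c (b (c (l 16414888) (l 16457552))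 (a (l 16458648) (l 16438648))) (b (l 16453488) (l 16493472))) (c (b (a (l 16444432) (l 16442608)) (c (l 16414112) (l 16464608))) (b (a (l 16479296) (l 16468536)) (a (l 16483216) (l 16476432))))))), by decide +kernel⟩

def k15_pm_012 : ∃ t, chk3 f_pm_012 t 6 7 1 = true :=
  ⟨(a (b (b (a (c (l 16464232) (l 16477944)) (c (l 16473536) (l 16504736))) (a (c (l 16485472) (l 16485344)) (c (l 16499456) (l 16512152)))) (c (b (a (l 16490352) (c (l 16518760) (l 16521960))) (a (b (l 16484040) (a (l 16471944) (l 16489232))) (a (b (l 16508944) (l 16444184)) (b (l 16526144) (l 16483336))))) (a (b (l 16492952) (b (l 16498480) (l 16502560))) (b (l 16527608) (b (l 16533984) (c (l 16532280) (l 16545280))))))) (b (a (b (c (c (l 16434752) (l 16485000)) (l 16499808)) (c (c (l 16510224) (l 16512272)) (l 16536960))) (b (c (c (l 16421336) (l 16466832)) (a (l 16495768) (l 16492880))) (c (a (l 16519072) (l 16524352)) (a (l 16497128) (l 16477544))))) (b (c (a (a (l 16544256) (l 16557704)) (b (l 16556672)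 (c (l 16582016) (l 16580648)))) (a (b (l 16535904) (l 16554008)) (b (l 16545584) (l 16568184)))) (a (b (a (c (l 16543576) (l 16561344)) (c (l 16561152) (l 16579912))) (l 14)) (l 14))))), by decide +kernel⟩

def k16_pm_012 : ∃ t, chk3 f_pm_012 t 14 6 1 = true :=
  ⟨(b (a (a (c (b (l 16425624) (l 16429432)) (b (l 16459896) (l 16454792))) (c (b (l 16419856) (l 16425136)) (b (l 16442152) (l 16440408)))) (a (c (b (l 16413840) (l 16420720)) (b (l 16424360) (l 16425880))) (c (b (l 16407712) (a (l 16417416) (l 16415264))) (b (l 16406480) (l 16390176))))) (a (a (b (c (l 16419352) (l 16457808)) (c (l 16438952) (l 16469408))) (b (c (l 16416968) (l 16446832)) (c (b (l 16452896) (l 16466432)) (l 16462336)))) (b (c (a (b (l 16430696) (l 16440264)) (b (l 16427752) (l 16438096))) (a (l 16414872) (l 16403248))) (c (a (b (l 16452128) (l 16466624)) (b (l 16450912) (l 16466264))) (a (l 16433552) (b (l 16439544) (l 16452688))))))), by decide +kernel⟩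

def k17_pm_012 : ∃ t, chk3 f_pm_012 t 15 12 1 = true :=
  ⟨(a (a (b (c (a (l 16403168) (l 16400064)) (l 16409408)) (c (a (l 16412984) (l 16410560)) (a (l 16399784) (l 16392120)))) (c (b (a (l 16396848) (l 16393376)) (a (l 16428856) (b (l 16401120) (l 16408864)))) (b (a (l 16374640) (l 16365264)) (a (l 16384248) (l 16376264))))) (a (c (b (a (l 16389696) (b (l 16383520) (l 16388072))) (a (b (l 16397896) (l 16405984)) (b (l 16394504) (l 16423904)))) (b (a (l 16355768) (l 16346216)) (a (l 16389184) (b (l 16355552) (l 16364744))))) (c (b (a (b (l 16379320) (l 16384128)) (b (l 16374944) (l 16401160))) (a (b (l 16411936) (c (l 16409736) (l 16389760))) (b (c (l 16398600) (l 16375920)) (c (l 16407752) (l 16385856))))) (b (a (b (l 16333872) (l 16339352)) (b (l 16323952) (l 16330304))) (a (b (l 16347136) (l 16357304)) (b (l 16359944) (c (l 16362464) (l 16337592)))))))), by decide +kernel⟩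

def k18_pm_012 : ∃ t, chk3 f_pm_012 t 15 13 1 = true :=
  ⟨(a (b (c (a (b (l 16424248) (l 16456312)) (b (a (l 16421040) (l 16418688)) (a (l 16432696) (l 16430688)))) (a (b (l 16406912) (l 16417192)) (b (l 16393424) (a (l 16408288) (l 16402256))))) (a (c (b (l 16469824) (a (l 16465424) (l 16464672))) (a (l 16418552) (l 16413984))) (c (b (a (l 16446840) (l 16445344)) (a (l 16463792) (l 16484008))) (b (a (l 16422136) (l 16417088)) (a (l 16438360) (l 16434536)))))) (b (a (c (b (a (l 16416152) (l 16434592)) (a (l 16428696) (c (l 16435048) (l 16418152)))) (b (a (l 16383112) (l 16376432)) (a (l 16396408) (l 16390792)))) (c (b (a (c (l 16420648) (l 16401360)) (a (l 16409456) (l 16429352))) (a (c (l 16434072) (l 16415608)) (b (l 16450920) (l 16448352)))) (b (a (l 16370048) (c (l 16375872) (l 16352072))) (a (l 16406616) (c (l 16392056) (l 16369488)))))) (a (c (b (a (l 16443928) (c (l 16450760) (l 16434424))) (a (c (l 16469592) (l 16454856)) (b (l 16456704) (l 16467088)))) (b (a (l 16412304)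 (l 16407960)) (a (l 16430984) (c (l 16436816) (l 16418792))))) (c (b (a (c (l 16450376) (l 16432720)) (a (l 16461968) (b (l 16435800) (l 16445360)))) (a (b (l 16477184) (l 16498432)) (b (a (l 16455912) (l 16455736)) (a (l 16466936) (l 16487904))))) (a (b (l 16446000) (b (l 16419608) (l 16430960))) (b (c (l 16411096) (l 16389736)) (b (l 16458992) (c (l 16438952) (l 16418808))))))))), by decide +kernel⟩

def k19_pm_012 : ∃ t, chk3 f_pm_012 t 7 7 1 = true :=
  ⟨(a (b (a (b (c (a (a (l 16488616) (l 16489896)) (b (l 16482360) (l 16500720))) (a (l 16468960) (l 16465176))) (b (c (c (l 16501048) (l 16517592)) (a (l 16510832) (l 16509904))) (a (c (l 16540800) (l 16529096)) (c (l 16545928) (l 16529976))))) (b (c (a (a (l 16471992) (l 16472664)) (b (l 16484152) (l 16483456))) (a (b (l 16473912) (l 16489728)) (a (l 16457160) (l 16454544)))) (b (a (c (l 16503968) (l 16508144)) (c (a (l 16526840) (l 16527952)) (l 16484872))) (a (c (a (l 16549192) (l 16551088)) (l 16529864)) (c (c (l 16559456)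 (l 16548416)) (l 16535352)))))) (a (b (b (c (a (l 16567344) (l 16573600)) (a (l 16551112) (l 16553872))) (l 14)) (l 14)) (l 14))) (b (a (b (a (c (b (a (l 16484024) (l 16483776)) (a (l 16505080) (l 16505608))) (b (l 16440704) (l 16465592))) (c (b (a (l 16483648) (l 16483584)) (a (l 16506208) (l 16486088))) (b (a (l 16457216) (l 16454592)) (a (l 16478704) (l 16477520))))) (b (a (c (b (l 16502360) (l 16515416)) (a (l 16504400) (l 16503752))) (a (c (l 16532032) (l 16503592)) (l 14))) (l 14))) (b (b (a (c (a (c (l 16490992) (l 16476312)) (c (l 16491792) (l 16476160))) (a (l 16473424) (c (l 16459464) (l 16441704)))) (c (a (c (b (l 16486616) (l 16498640)) (l 16497144)) (b (a (l 16478680) (l 16499816)) (a (l 16491104) (l 14)))) (a (a (l 16470632) (l 16491024)) (a (c (l 16458104) (l 16438792)) (b (l 16441424) (l 14)))))) (b (a (a (c (l 16501608) (l 16470272)) (c (l 16502520) (l 16469528))) (l 14)) (l 14))) (l 14))) (l 14))), by decide +kernel⟩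

theorem s20_pm_012 : ∃ t, chk3 f_pm_012 t 15 6 1 = true := ex3_b k17_pm_012 k18_pm_012

theorem s21_pm_012 : ∃ t, chk3 f_pm_012 t 7 6 1 = true := ex3_a k16_pm_012 s20_pm_012

theorem s22_pm_012 : ∃ t, chk3 f_pm_012 t 7 3 1 = true := ex3_b s21_pm_012 k19_pm_012

theorem s23_pm_012 : ∃ t, chk3 f_pm_012 t 6 3 1 = true := ex3_b k14_pm_012 k15_pm_012

theorem s24_pm_012 : ∃ t, chk3 f_pm_012 t 3 3 1 = true := ex3_a s23_pm_012 s22_pm_012

theorem s25_pm_012 : ∃ t, chk3 f_pm_012 t 7 2 1 = true := ex3_a k12_pm_012 k13_pm_012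

theorem s26_pm_012 : ∃ t, chk3 f_pm_012 t 6 4 1 = true := ex3_b k9_pm_012 k10_pm_012

theorem s27_pm_012 : ∃ t, chk3 f_pm_012 t 6 2 1 = true := ex3_b s26_pm_012 k11_pm_012

theorem s28_pm_012 : ∃ t, chk3 f_pm_012 t 3 2 1 = true := ex3_a s27_pm_012 s25_pm_012

theorem s29_pm_012 : ∃ t, chk3 f_pm_012 t 3 1 1 = true := ex3_b s28_pm_012 s24_pm_012

theorem s30_pm_012 : ∃ t, chk3 f_pm_012 t 5 3 1 = true := ex3_b k7_pm_012 k8_pm_012

theorem s31_pm_012 : ∃ t, chk3 f_pm_012 t 2 3 1 = true := ex3_a k6_pm_012 s30_pm_012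

theorem s32_pm_012 : ∃ t, chk3 f_pm_012 t 10 5 1 = true := ex3_c k3_pm_012 k4_pm_012

theorem s33_pm_012 : ∃ t, chk3 f_pm_012 t 5 5 1 = true := ex3_a s32_pm_012 k5_pm_012

theorem s34_pm_012 : ∃ t, chk3 f_pm_012 t 5 4 1 = true := ex3_b k1_pm_012 k2_pm_012

theorem s35_pm_012 : ∃ t, chk3 f_pm_012 t 5 2 1 = true := ex3_b s34_pm_012 s33_pm_012

theorem s36_pm_012 : ∃ t, chk3 f_pm_012 t 2 2 1 = true := ex3_a k0_pm_012 s35_pm_012

theorem s37_pm_012 : ∃ t, chk3 f_pm_012 t 2 1 1 = true := ex3_b s36_pm_012 s31_pm_012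

theorem s38_pm_012 : ∃ t, chk3 f_pm_012 t 1 1 1 = true := ex3_a s37_pm_012 s29_pm_012

theorem c_pm_012 : CertB 0 536870912 0 536870912 858993459 64424510 3 eng mog cd0q0 cd0q2 pd1 false true false .pnp 0 1 2
    ndB0q0 ndB0q2 pcB1 cut_pm_012 Ext.none :=
  certB2 (fam := false) (s1 := true) (s2 := false) (a := 0) (b := 1) (c := 2) (cn := .pnp) (n1 := ndB0q0) (n2 := ndB0q2) (pc := pcB1) (cut := cut_pm_012) (xt := Ext.none) (P1 := 0) (W1 := 536870912) (P2 := 0) (W2 := 536870912) (P3 := 858993459) (W3 := 64424510) (N0 := 3) (En := eng) (mo := mog) (C1 := cd0q0) (C2 := cd0q2) (C3 := pd1)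
    rfl (fun _ => rfl) s38_pm_012

noncomputable def cut_pm_022 : Cut := Cut.of [[⟨3, 0, 0, 1449551462⟩], [⟨4, 0, 0, 2845415833⟩], [⟨0, 0, 0, 67108864⟩, ⟨1, 1, 0, 67108864⟩, ⟨2, 1, 0, 67108864⟩]]

noncomputable def f_pm_022 : ℕ → ℕ → ℕ → ℕ → Bool := onCell 1073741824 536870912 0 536870912 858993459 64424510
    (rowB 3 eng mog cd0q0 cd0q2 pd2 2 false true false .pp 0 2 2 (qsf 0 536870912 0 536870912 2) ndB0q0 ndB0q2 pcB2 cut_pm_022 Ext.none)

def k0_pm_022 : ∃ t, chk3 f_pm_022 t 8 2 1 = true :=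
  ⟨(a (a (b (b (b (b (a (a (b (c (l 16462944) (l 16443392)) (c (l 16462272) (b (l 16440800) (l 16443152)))) (b (c (l 16459280) (l 16437768)) (l 16449504))) (b (c (b (l 16454304) (l 16453688)) (b (l 16430144) (l 16429048))) (c (l 16456752) (l 16432320)))) (a (c (l 16467960) (l 16447312)) (l 16431104))) (c (l 16479032) (a (l 16461704) (l 16454024)))) (b (a (l 16469376) (l 16484376)) (l 16484072))) (b (c (l 16482680) (l 16496720)) (c (l 16415432) (l 16458448)))) (b (b (b (a (b (c (l 16491968) (l 16485016)) (l 16446032)) (a (l 16431432) (l 16433648))) (c (l 16469824) (l 16442192))) (c (l 16442856) (l 16429112))) (b (c (l 16491696) (l 16508920)) (c (l 16476856) (l 16487088))))) (a (b (b (c (b (l 16421784) (l 16459976)) (a (l 16420328) (l 16411664))) (c (l 16484584) (l 16453584))) (b (c (l 16502224) (l 16490024)) (c (l 16497560) (l 16516600)))) (b (b (c (c (l 16449368) (l 16430336)) (l 16397344)) (c (l 16471912) (l 16433544))) (b (c (l 16495672) (l 16467656)) (c (l 16514688) (l 16497040)))))),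 by decide +kernel⟩

def k1_pm_022 : ∃ t, chk3 f_pm_022 t 9 2 1 = true :=
  ⟨(b (b (a (c (a (b (l 16419056) (l 16434768)) (c (l 16424792) (l 16397944))) (a (l 16375792) (l 16351496))) (a (c (l 16458088) (l 16324472)) (c (l 16419296) (l 16252904)))) (a (c (b (l 16442040) (l 16455008)) (a (l 16347400) (l 16342136))) (c (c (l 16425720) (l 16268112)) (a (l 16250016) (b (l 16316288) (l 16329280)))))) (a (a (c (b (l 16478152) (l 16452200)) (b (l 16441936) (b (l 16441000) (l 16473392)))) (b (c (l 16458336) (l 16308016)) (c (b (l 16467952) (l 16453520)) (b (l 16430208) (l 16397496))))) (b (c (a (c (l 16448520) (l 16423600)) (b (l 16410856) (l 16351592))) (a (b (l 16375088) (l 16386304)) (b (l 16278080) (a (l 16359736) (l 16320280))))) (a (c (b (l 16401640) (a (l 16455016) (l 16420368))) (b (a (l 16404320) (l 16386176)) (a (l 16391000) (l 16329896)))) (c (b (a (l 16423984) (l 16389368)) (a (l 16364248) (b (l 16411984) (l 320007910663)))) (c (b (l 16352664) (a (l 16387440) (b (l 16367776)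 (l 331818951479)))) (b (a (l 16351592) (l 16330680)) (a (b (l 16356704) (l 16359440)) (b (l 16335096) (l 338261332247)))))))))), by decide +kernel⟩

def k2_pm_022 : ∃ t, chk3 f_pm_022 t 5 2 1 = true :=
  ⟨(a (b (b (a (c (c (a (l 16379312) (l 16362632)) (a (l 16336392) (l 16313312))) (a (b (l 16235176) (l 16249024)) (b (c (l 16252880) (l 243771746711)) (c (l 16264568) (l 264709773783))))) (l 1)) (a (c (a (b (l 16374032) (l 16340104)) (b (l 16267824) (l 134787047559))) (c (a (l 16228728) (b (l 16275208) (l 281352959335))) (b (a (l 16256952) (a (l 16227800) (l 16207832))) (a (l 16269656) (a (l 16239592) (l 403759357991)))))) (l 1))) (a (a (b (c (b (l 16323496) (a (l 16394992) (l 16318584))) (b (a (l 16292904) (c (l 16317912) (l 16271408))) (a (c (l 16341688) (l 16301928)) (c (l 16323768) (l 317323275703))))) (a (b (c (l 169683823799) (c (l 309807219927) (b (l 16307800) (l 325913246759)))) (a (c (l 563210406247) (b (l 510596884519) (l 1))) (l 1))) (b (c (l 562136422391) (c (l 532608605911)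 (l 502006877383))) (l 1)))) (a (b (b (c (l 16367176) (c (l 16300400) (l 318933821255))) (b (l 1) (l 1))) (l 1)) (l 1))) (l 1))) (l 1)), by decide +kernel⟩

def k3_pm_022 : ∃ t, chk3 f_pm_022 t 8 6 1 = true :=
  ⟨(c (b (a (a (b (l 16455416) (l 16464408)) (b (l 16482744) (l 16476472))) (a (b (l 16511480) (l 16531200)) (b (l 16531056) (l 16543504)))) (a (b (a (b (l 16476984) (l 16488720)) (c (l 16500128) (l 16500304))) (b (a (l 16503352) (l 16503592)) (a (a (l 16510000) (l 16532312)) (a (l 16554664) (l 16576992))))) (a (b (a (l 16550160) (l 16569512)) (c (l 16554768) (l 16544728))) (b (a (l 16563744) (l 16550576)) (b (a (l 16575040) (l 16560936)) (l 14)))))) (a (b (a (b (l 16450264) (l 16456744)) (b (l 16486680) (l 16477912))) (b (a (l 16432104) (l 16521856)) (a (a (l 16489456) (l 16516056)) (a (l 16500872) (l 16569632))))) (b (b (a (l 16524312) (l 16516856)) (a (l 16541912) (l 16529416))) (b (a (l 16528288) (a (l 16550448) (l 16490072))) (a (c (l 16540944) (l 16526224)) (b (a (l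 16559920) (l 16540296)) (l 14))))))), by decide +kernel⟩

def k4_pm_022 : ∃ t, chk3 f_pm_022 t 9 12 1 = true :=
  ⟨(b (a (c (a (l 16507720) (a (l 16488536) (l 16474960))) (a (a (l 16492536) (l 16475176)) (a (l 16456992) (l 16417072)))) (a (c (a (l 16418848) (b (l 16444848) (l 180421404519))) (a (b (l 16416976) (l 16398968)) (b (c (l 16409720) (l 16383792)) (c (l 16412120) (a (l 16391776) (l 310881002919)))))) (b (c (a (l 201896206023) (l 558915465319)) (a (c (l 314639127815) (a (l 16367312) (l 472479095527))) (c (l 533682428583) (l 516502495719)))) (a (a (c (l 496101590327) (c (l 483753471527) (l 454762382631))) (l 1)) (l 1))))) (b (a (a (c (l 16515432) (l 16449496)) (c (a (l 16495024) (l 16480624)) (a (l 16463016) (l 16422176)))) (a (c (a (l 16413184) (c (l 324839831799) (l 334503456887))) (c (a (l 16434024) (a (l 320544761671) (l 474089820599))) (a (a (l 16416376) (l 16405232)) (a (b (l 16393456) (l 336113957703)) (l 445098751095))))) (l 1))) (a (a (c (l 16457952) (a (l 16505568)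 (l 16486528))) (a (c (l 16499600) (l 16445744)) (c (l 16442680) (a (l 16451400) (c (l 16451520) (l 16430064)))))) (a (a (c (c (l 320008034583) (a (l 16462952) (l 444562017943))) (c (a (l 16441672) (l 419865906407)) (a (b (l 16418216) (l 16419320)) (b (l 322692211175) (l 401612257799))))) (a (a (b (c (l 16458224) (l 449393742839)) (l 1)) (l 1)) (l 1))) (l 1))))), by decide +kernel⟩

def k5_pm_022 : ∃ t, chk3 f_pm_022 t 9 13 1 = true :=
  ⟨(b (b (a (a (c (a (l 16533600) (l 16519320)) (a (l 16510448) (l 16469720))) (a (c (l 16472920) (a (l 16475392) (l 16464968))) (c (c (l 316249980775) (a (l 16483712) (l 324839849495))) (a (c (l 16464528) (l 16443880)) (c (l 331282254871) (b (l 16431872) (l 329671587479))))))) (a (a (a (c (b (l 340945972455) (l 479995550663)) (c (l 389264299959) (a (l 360273229399) (l 400538536119)))) (l 1)) (l 1)) (l 1))) (a (a (a (c (l 16539816) (l 16515136)) (c (c (l 16531744) (l 16517800)) (a (l 16499856) (l 16489432)))) (b (a (c (c (l 16516112) (l 16499760))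 (a (l 16478016) (l 16467344))) (a (a (c (l 16498144) (l 16459240)) (l 14)) (l 14))) (l 14))) (l 1))) (l 14)), by decide +kernel⟩

def k6_pm_022 : ∃ t, chk3 f_pm_022 t 4 7 1 = true :=
  ⟨(a (b (a (a (b (b (c (a (l 16530168) (l 16553736)) (a (l 16516944) (l 16545704))) (l 14)) (l 14)) (l 14)) (l 14)) (l 14)) (l 14)), by decide +kernel⟩

def k7_pm_022 : ∃ t, chk3 f_pm_022 t 5 3 1 = true :=
  ⟨(b (l 1) (l 1)), by decide +kernel⟩

def k8_pm_022 : ∃ t, chk3 f_pm_022 t 3 1 1 = true :=
  ⟨(l 1), by decide +kernel⟩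

theorem s9_pm_022 : ∃ t, chk3 f_pm_022 t 9 6 1 = true := ex3_b k4_pm_022 k5_pm_022

theorem s10_pm_022 : ∃ t, chk3 f_pm_022 t 4 6 1 = true := ex3_a k3_pm_022 s9_pm_022

theorem s11_pm_022 : ∃ t, chk3 f_pm_022 t 4 3 1 = true := ex3_b s10_pm_022 k6_pm_022

theorem s12_pm_022 : ∃ t, chk3 f_pm_022 t 2 3 1 = true := ex3_a s11_pm_022 k7_pm_022

theorem s13_pm_022 : ∃ t, chk3 f_pm_022 t 4 2 1 = true := ex3_a k0_pm_022 k1_pm_022

theorem s14_pm_022 : ∃ t, chk3 f_pm_022 t 2 2 1 = true := ex3_a s13_pm_022 k2_pm_022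

theorem s15_pm_022 : ∃ t, chk3 f_pm_022 t 2 1 1 = true := ex3_b s14_pm_022 s12_pm_022

theorem s16_pm_022 : ∃ t, chk3 f_pm_022 t 1 1 1 = true := ex3_a s15_pm_022 k8_pm_022

theorem c_pm_022 : CertB 0 536870912 0 536870912 858993459 64424510 3 eng mog cd0q0 cd0q2 pd2 false true false .pp 0 2 2
    ndB0q0 ndB0q2 pcB2 cut_pm_022 Ext.none :=
  certB2 (fam := false) (s1 := true) (s2 := false) (a := 0) (b := 2) (c := 2) (cn := .pp) (n1 := ndB0q0) (n2 := ndB0q2) (pc := pcB2) (cut := cut_pm_022) (xt := Ext.none) (P1 := 0) (W1 := 536870912) (P2 := 0) (W2 := 536870912) (P3 := 858993459) (W3 := 64424510) (N0 := 3) (En := eng) (mo := mog) (C1 := cd0q0) (C2 := cd0q2) (C3 := pd2)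
    rfl (fun _ => rfl) s16_pm_022

end Pool.Agent.Strip051.G.I8000_8600.Tab.C.BB00

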