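import Pool.Agent.Strip051.G.I8000_8600.Tab

/-! # Certificates B14 (generated) -/

set_option linter.all false
set_option maxRecDepth 100000

namespace Pool.Agent.Strip051.G.I8000_8600.Tab.C.BB01

open Pool.Agent.Strip051.PB Pool.Agent.Strip051.PB.T
open Pool.Agent.Strip051.G.I8000_8600.Tab

noncomputable def cut_pp_012_a : Cut := Cut.of [[⟨0, 0, 0, 67108864⟩, ⟨1, 1, 0, 67108864⟩, ⟨2, 1, 0, 67108864⟩]]

noncomputable def f_pp_012_a : ℕ → ℕ → ℕ → ℕ → Bool := onCell 536870912 536870912 0 536870912 858993459 64424510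
    (rowB 3 eng mog cd0q0 cd1q2a pd1 2 false true true .pnp 0 1 2 (qsf 0 536870912 0 536870912 1) ndB0q0 ndB1q2a pcB1 cut_pp_012_a Ext.none)

def k0_pp_012_a : ∃ t, chk3 f_pp_012_a t 2 1 1 = true :=
  ⟨(a (l 3) (l 3)), by decide +kernel⟩

def k1_pp_012_a : ∃ t, chk3 f_pp_012_a t 24 2 1 = true :=
  ⟨(a (l 3) (b (b (b (b (a (a (b (b (a (l 3) (a (l 3) (c (l 106468127143) (l 121500527591)))) (l 3)) (l 3)) (b (c (a (c (a (l 114521187175) (l 74255884567)) (l 107005000791)) (c (l 55465401527) (l 96804450311))) (a (c (l 112373723911) (l 116668661271)) (c (l 97341336231) (l 109152470007)))) (a (l 3) (a (l 3) (a (l 3) (c (l 115058056151) (l 124721746247))))))) (c (c (a (b (l 16736512) (a (b (l 71571527927) (l 102173170567)) (b (l 16727752) (l 73719011063)))) (c (l 16735680) (b (l 16729864) (l 16743800)))) (a (b (c (l 16735032) (l 16735544)) (a (l 102173174663) (l 98951931975))) (b (l 16721488) (c (l 16733832) (l 16734120))))) (c (a (b (c (l 16735856) (l 16735960)) (a (l 113447462519) (l 105931267671))) (c (l 16723512)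 (l 16723952))) (a (a (b (l 16735632) (l 119353010087)) (c (l 106468115143) (l 111299955127))) (c (l 16724224) (l 16724312)))))) (a (l 3) (a (l 3) (b (c (a (c (b (l 76403365127) (l 3)) (l 104320655463)) (c (c (l 61370979207) (l 79624591799)) (c (l 89825138423) (l 97341329959)))) (c (c (l 107541880583) (l 113984329511)) (a (l 120426746695) (b (l 16731432) (l 123111128775))))) (l 3))))) (l 3)) (l 3)) (l 3))), by decide +kernel⟩

def k2_pp_012_a : ∃ t, chk3 f_pp_012_a t 100 4 1 = true :=
  ⟨(b (a (b (b (c (c (a (a (l 16717592) (l 16716424)) (l 16712064)) (b (l 16728672) (l 16720184))) (c (l 16722088) (l 16714032))) (a (b (c (c (l 16733296) (l 88751378391)) (c (l 16738072) (l 16723136))) (b (c (c (l 80161455223) (l 102710037815)) (c (l 113447453351) (l 123111126055))) (l 3))) (c (b (c (l 16730920) (l 16731936)) (c (c (l 64055333367) (l 82308943751)) (b (l 16733568) (l 104320649015)))) (c (c (l 100562552503) (l 107541872423)) (b (l 16731160) (b (l 16729296) (l 123647993511))))))) (l 3)) (b (c (c (a (b (l 16701904)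 (a (l 42580491863) (l 16729968))) (b (l 16720616) (l 16728224))) (b (l 16726416) (b (l 16718976) (c (l 64592201959) (l 16736776))))) (a (b (l 16712232) (b (l 16723464) (c (l 89825131367) (b (l 16729440) (l 16733520))))) (b (l 16711768) (c (l 16723824) (l 16719696))))) (b (b (c (a (c (c (l 87677651127) (l 96267587575)) (l 108615611015)) (c (c (l 73182132903) (l 81772067847)) (b (l 79624583399) (l 101636291415)))) (c (a (l 114521193543) (b (l 16735768) (l 109689353015))) (a (l 122037370119) (b (l 103783769159) (l 118279278471))))) (l 3)) (l 3)))) (l 3)), by decide +kernel⟩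

def k3_pp_012_a : ∃ t, chk3 f_pp_012_a t 101 4 1 = true :=
  ⟨(b (a (b (c (b (c (l 16696320) (l 16723216)) (c (l 16730032) (a (l 16717608) (l 16726472)))) (c (c (l 16717712) (l 16719552)) (c (l 16710824) (l 16712480)))) (b (c (a (b (c (c (l 16731632) (l 60297230663)) (b (l 16730832) (l 80161453127))) (c (c (l 98415061719) (l 93583231383)) (l 105931254455))) (b (c (l 16729472) (l 16729760)) (c (c (l 82308931847) (b (l 16732296) (l 93583227591))) (b (l 80698323063) (l 102173159399))))) (c (b (c (l 83919549511) (l 91435739959)) (a (l 112910570247) (b (l 92509480743) (l 109152480183)))) (b (a (b (l 16727376) (l 103246898007)) (l 16726936)) (a (l 118816141303) (b (l 102710025623) (l 117205532199)))))) (l 3))) (b (b (c (b (l 16694144) (l 16696912)) (l 16730888)) (c (c (a (l 16710944) (l 16698264)) (l 16713576)) (c (l 16706368) (l 16709192)))) (b (c (c (b (l 16726064) (a (c (l 16732352) (l 61907841127)) (l 16728864))) (c (c (l 55465393607) (l 63518456055)) (a (l 91435720631) (l 16727680)))) (b (c (l 16717136)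 (l 16716512)) (c (c (l 83382676391) (l 90361995655)) (a (b (l 16725464) (l 102710021767)) (l 16725040))))) (b (c (c (a (a (l 3) (l 101636281703)) (b (c (l 16731816) (l 16731608)) (l 109689338599))) (a (l 105931252647) (b (l 83382674807) (l 102173158135)))) (c (a (l 111836826039) (b (l 92509478199) (l 108615606599))) (a (l 117742396391) (b (l 102173147399) (l 116131786663))))) (l 3))))) (l 3)), by decide +kernel⟩

def k4_pp_012_a : ∃ t, chk3 f_pp_012_a t 51 8 1 = true :=
  ⟨(c (b (c (a (b (l 16685768) (a (l 16700264) (l 16690824))) (a (l 16680704) (l 16679440))) (a (b (l 16694472) (b (l 16697320) (l 16704616))) (b (l 16688504) (l 16692240)))) (a (b (a (c (a (l 16724680) (l 16722480)) (c (l 16735392) (l 16725528))) (c (l 16719232) (b (l 16720936) (l 16723176)))) (b (a (a (c (c (l 74255861031) (b (l 16729552) (l 16731288))) (c (l 16735168) (l 16729072))) (c (l 16728328) (l 16733176))) (a (c (l 16726112) (l 16726320)) (l 16724448))) (c (a (a (l 111836821975) (c (l 105931240183) (l 107541849799))) (a (c (l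 87140756471) (b (l 16728984) (l 76940222055))) (c (l 16727832) (l 16727824)))) (c (a (a (l 103783768679) (l 86603903527)) (a (l 72108386551) (l 16727464))) (a (l 100025668071) (l 74255870007)))))) (b (a (b (l 16694560) (l 16718528)) (l 16716048)) (a (c (a (l 16723568) (l 16721584)) (c (l 16733912) (l 16723616))) (a (a (l 16720896) (l 16719976)) (l 16718592)))))) (c (b (a (b (l 16724448) (l 16703632)) (l 16720736)) (a (b (a (b (l 16725864) (l 16718352)) (l 16713768)) (a (b (a (b (l 16726968) (l 91972606759)) (l 16726232)) (a (l 110763082023) (b (l 91972606279) (l 107541862295)))) (c (c (l 78550833607) (l 82308928599)) (c (l 86067023111) (l 88751375815))))) (a (b (l 16722408) (a (l 16717008) (l 16722984))) (b (l 16720504) (l 16711096))))) (b (a (b (l 16733760) (l 16729696)) (l 16730424)) (a (b (a (b (l 16726920) (l 16714568)) (l 16704824)) (a (b (a (b (l 16723688) (l 102173144503)) (l 16723280)) (a (l 116131780823) (c (l 108615595383) (l 112373686279)))) (b (l 16715384) (a (c (l 96804435063) (l 101099400295))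 (l 16726904))))) (b (l 16704176) (a (a (l 16714512) (l 16722248)) (l 16700992))))))), by decide +kernel⟩

def k5_pp_012_a : ∃ t, chk3 f_pp_012_a t 51 9 1 = true :=
  ⟨(b (a (a (l 3) (b (b (c (c (a (l 115594914263) (c (l 111299944935) (l 71571516743))) (a (l 104320636871) (b (l 86603896503) (l 99488801751)))) (c (a (l 109152467335) (b (l 94656959879) (l 106468118231))) (a (l 114521165511) (c (l 106468109207) (l 110226199079))))) (l 3)) (l 3))) (a (b (b (c (c (c (c (a (l 61907824775) (l 16726896)) (l 25400620327)) (a (l 56539127927) (l 16722120))) (c (a (l 72108384631) (l 16726848)) (l 74255867783))) (c (a (b (l 16724688) (l 94120087671)) (l 16729240)) (a (c (l 101099398247) (l 105931232679)) (c (l 16721256) (l 16719016))))) (b (c (a (c (l 118816136503) (l 98951930215)) (c (a (l 109152458695) (l 95193813895)) (l 85530153879))) (a (c (l 105931245767) (l 112373681783)) (c (l 94656957655) (a (l 107004969911) (l 102173131767))))) (l 3))) (l 3)) (a (b (c (c (b (l 16725320) (c (a (l 101099392887) (l 96267554103))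 (l 53317902919))) (b (l 16724856) (c (l 73182125015) (l 82308926903)))) (b (c (l 16723096) (l 16720080)) (c (b (l 16723696) (l 93583214935)) (c (l 99488783255) (l 103783744919))))) (l 3)) (b (c (c (b (l 16723176) (c (l 16721640) (l 16726968))) (c (l 16730080) (l 16724184))) (c (c (l 16723216) (l 16721912)) (c (l 16720304) (l 16708552)))) (b (b (c (c (a (l 110763067639) (l 99488777095)) (l 83382669559)) (c (l 92509472263) (a (l 105394354519) (l 100562516119)))) (l 3)) (l 3)))))) (l 3)), by decide +kernel⟩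

def k6_pp_012_a : ∃ t, chk3 f_pp_012_a t 25 5 1 = true :=
  ⟨(l 3), by decide +kernel⟩

def k7_pp_012_a : ∃ t, chk3 f_pp_012_a t 104 4 2 = true :=
  ⟨(a (b (b (c (l 16675664) (l 16685992)) (c (a (l 16711648) (l 16709640)) (b (l 16712816) (l 16717288)))) (b (b (c (c (b (l 16719632) (l 16723864)) (l 16722144)) (b (l 16710400) (c (l 16723680) (l 16723096)))) (b (c (c (a (b (l 16721520) (l 106468099495)) (b (l 16725192) (l 16719624))) (c (l 36674905047) (l 95193810807))) (a (c (l 72108381543) (l 80698312903)) (c (l 16725808) (l 16724616)))) (a (l 3) (b (c (c (l 105931227447) (l 54928515911)) (l 81772055959)) (l 3))))) (l 3))) (b (b (l 16698448) (b (l 16685456) (l 16712296))) (b (c (c (b (l 16717384) (b (l 16723336) (a (b (l 16719056) (l 105931226023)) (b (l 16724048) (l 90361967319))))) (b (l 16707728) (a (a (l 51170415623) (l 46338575895)) (l 16724496)))) (b (b (l 16717760) (l 16720264)) (c (b (l 16723200) (a (l 71034638039) (l 16725384))) (c (l 62981576055) (l 68887153831))))) (b (b (a (l 3) (b (c (a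 (l 110226191271) (b (l 91972579287) (l 107541836391))) (l 80161442487)) (l 3))) (l 3)) (l 3))))), by decide +kernel⟩

def k8_pp_012_a : ∃ t, chk3 f_pp_012_a t 105 4 2 = true :=
  ⟨(b (b (c (l 16666704) (l 16699768)) (c (l 16716688) (l 16707536))) (a (b (c (b (l 16713784) (c (a (l 16715440) (l 16720392)) (l 16721536))) (b (l 16694936) (b (l 16709216) (a (l 16723160) (l 16721576))))) (b (b (a (c (c (b (l 89825094695) (a (l 109689322135) (l 97341289495))) (l 64055312615)) (c (l 69424023735) (l 75866473543))) (c (c (a (l 89288222487) (l 16717864)) (l 16726104)) (c (l 16725016) (l 16723528)))) (a (l 3) (b (c (c (a (l 109152450247) (l 96804417591)) (l 83919533031)) (l 78550829127)) (l 3)))) (l 3))) (b (b (l 16706168) (a (c (l 16718480) (l 16718688)) (a (l 16709504) (l 16716472)))) (a (b (b (c (a (l 16714440) (l 16713408)) (l 16722728)) (c (c (c (b (l 16716976) (l 89288234535)) (l 94656938183)) (l 78550819303)) (b (l 16727448) (l 77477087127)))) (l 3)) (b (c (c (b (l 16720376) (a (b (l 16722368) (l 88751351367))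 (l 16714264))) (l 20031905319)) (b (l 16721136) (c (l 16724704) (l 16723088)))) (b (b (c (c (a (l 90361969783) (l 95193802375)) (l 98951912439)) (l 76403344999)) (l 3)) (l 3))))))), by decide +kernel⟩

def k9_pp_012_a : ∃ t, chk3 f_pp_012_a t 53 4 2 = true :=
  ⟨(a (b (b (l 16687488) (c (l 16693704) (l 16701664))) (b (c (c (l 16717520) (l 16719144)) (b (l 16687312) (l 16713248))) (a (b (c (b (l 16708816) (a (a (l 16712512) (l 16712696)) (l 16711504))) (c (b (l 16719016) (l 16722120)) (l 16724928))) (b (c (c (c (a (b (l 16720000) (l 88214489991)) (b (l 16719768) (l 16718264))) (a (l 93046323175) (l 16722952))) (a (l 87140748935) (l 16725784))) (c (b (l 84993255751) (l 96804418343)) (a (l 69960892231) (l 16722712)))) (a (l 3) (b (c (c (a (l 88214484487) (l 93583187991)) (l 101636264391)) (a (l 16728848) (l 16728048))) (l 3))))) (c (c (b (l 16715976) (c (b (l 16712768) (a (a (l 83919520407) (l 81235163911)) (b (l 16718952) (l 16725360)))) (b (l 16720584) (a (l 90898837911) (l 16722144))))) (b (l 16717344)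 (c (b (l 16723064) (l 28621837191)) (l 22716259719)))) (b (l 16717032) (c (b (l 16711392) (b (l 83382642263) (l 95730675799))) (c (l 53317897031) (l 60297216391)))))))) (c (b (l 16709760) (b (l 16716200) (c (b (l 16711120) (a (b (l 16716160) (a (l 16711408) (l 16717712))) (l 16714192))) (b (l 16711792) (c (l 16729648) (l 16718920)))))) (b (l 16692472) (b (l 16704800) (b (l 16712392) (a (c (b (l 16718488) (l 16711192)) (l 16724152)) (l 16716408))))))), by decide +kernel⟩

def k10_pp_012_a : ∃ t, chk3 f_pp_012_a t 27 4 2 = true :=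
  ⟨(a (b (b (l 16715296) (c (l 16677392) (l 16687592))) (a (b (c (l 16693496) (l 16698936)) (c (c (b (l 16703432) (l 16709472)) (l 16718752)) (b (l 16706320) (l 16717016)))) (b (c (l 16686944) (l 16693208)) (c (l 16721088) (l 16703096))))) (a (b (l 16712032) (b (l 16684216) (c (l 16694064) (l 16697240)))) (b (l 16665152) (c (l 16713040) (l 16708000))))), by decide +kernel⟩

def k11_pp_012_a : ∃ t, chk3 f_pp_012_a t 26 8 3 = true :=
  ⟨(a (c (b (l 16735600) (a (a (l 16706040) (l 16696176)) (l 16714048))) (b (l 16706144) (a (b (l 16723688) (l 16700104)) (l 16720496)))) (a (b (l 16712752) (a (l 16714736) (l 16712912))) (b (l 16705008) (l 16689048)))), by decide +kernel⟩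

def k12_pp_012_a : ∃ t, chk3 f_pp_012_a t 26 18 3 = true :=
  ⟨(a (b (a (c (a (c (l 16721544) (l 16720776)) (l 16708776)) (a (c (l 16719736) (l 16718416)) (l 16708096))) (a (a (l 16707536) (l 16696336)) (l 16700448))) (a (a (b (c (a (a (l 90361987719) (l 86603889767)) (c (l 16723040) (l 16721104))) (a (b (l 16723144) (a (l 104320611431) (l 99488773175))) (b (l 16717744) (l 89825099575)))) (a (l 3) (c (a (l 96804437095) (l 91972599431)) (c (l 101099387527) (l 103783735287))))) (a (b (c (l 16721168) (l 16717344)) (c (c (l 83919535863) (l 89825109799)) (b (l 89288227527) (a (l 102173125527) (l 97341287431))))) (c (c (l 16726808) (l 79087691079)) (b (l 16717104) (c (l 16717744) (l 16714928)))))) (c (a (c (l 16730336) (l 16718672)) (l 16713680)) (a (c (l 16706712) (l 16704936)) (l 16705160))))) (c (a (a (a (l 16704248) (l 16692704)) (l 16691088)) (l 16708744)) (a (c (l 16704000) (l 16694224)) (l 16712304)))), by decide +kernel⟩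

def k13_pp_012_a : ∃ t, chk3 f_pp_012_a t 26 19 3 = true :=
  ⟨(b (a (a (a (l 3) (b (a (l 3) (c (a (l 94120081383) (l 89288243671)) (c (l 98415031239) (l 101636249655)))) (l 3))) (a (b (c (a (c (l 81235180359) (l 87140753687)) (c (l 16721656) (l 16719408))) (a (c (l 91972585079) (a (l 97341284439) (l 94656929079))) (c (l 16716784) (l 16713800)))) (a (l 3) (b (c (l 95730673271) (a (l 98415026327) (l 93583188295))) (l 3)))) (a (b (c (l 16719584) (l 16715048)) (c (b (l 75866467479) (l 94656931367)) (c (l 89288229223) (a (l 94656928343) (l 91972572199))))) (c (c (l 16725464) (l 75866463751)) (b (l 16714728) (c (l 16715928) (l 16712808))))))) (a (c (a (c (l 16728952) (l 16727416)) (c (l 16716096) (l 16715128))) (a (c (l 16705248) (l 16703416)) (l 16705304))) (a (c (l 16713504) (l 16712128)) (l 16711216)))) (a (a (l 3) (a (l 3) (b (a (l 3) (b (c (l 94120060343) (c (l 90898838759) (l 93583185159))) (l 3))) (l 3)))) (a (a (b (c (a (c (l 75329598583) (l 82308913415)) (c (l 16720576) (l 16718064))) (a (c (l 86603873575)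 (a (l 91435701255) (l 88751345303))) (c (l 16715176) (l 16711928)))) (a (l 3) (b (c (l 91972576743) (c (l 89288224967) (l 91435700423))) (l 3)))) (a (b (c (l 16718336) (l 16713224)) (c (c (l 72108372615) (l 78013945271)) (c (l 82845775975) (a (l 87677603655) (l 85530118567))))) (c (c (l 16724440) (l 72645236503)) (b (l 16712808) (c (l 16714536) (l 16711176)))))) (c (a (c (l 16727880) (l 16726040)) (c (l 16714976) (l 16713656))) (a (c (l 16703560) (l 16701088)) (l 16704600)))))), by decide +kernel⟩

def k14_pp_012_a : ∃ t, chk3 f_pp_012_a t 27 4 3 = true :=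
  ⟨(a (b (b (l 16693616) (c (l 16698184) (l 16709048))) (a (a (b (l 16707696) (b (l 16709392) (c (l 16712128) (l 16709952)))) (b (l 16705664) (b (l 16707480) (l 16709336)))) (b (l 16681472) (c (l 16704824) (l 16705952))))) (a (b (l 16688616) (b (l 16697856) (c (l 16699968) (l 16702240)))) (b (l 16681280) (b (l 16692944) (l 16706992))))), by decide +kernel⟩

def k15_pp_012_a : ∃ t, chk3 f_pp_012_a t 26 5 1 = true :=
  ⟨(b (a (l 3) (b (a (b (b (b (a (l 3) (a (l 3) (c (c (c (a (l 104857477351) (l 91435702887)) (l 100025649479)) (a (l 103783737767) (l 89825092103))) (c (l 89825093303) (c (l 87140740295) (l 89825086519)))))) (l 3)) (l 3)) (l 3)) (a (a (b (b (c (c (c (c (b (l 16719776) (l 68887143127)) (l 88751352663)) (l 88751356663)) (c (l 87677612903) (l 16728888))) (c (c (l 80698287047) (l 74792719287)) (c (l 79624549495) (a (l 83919506295) (l 81772021015))))) (l 3)) (l 3)) (b (b (c (c (c (c (l 74255838663) (l 16716192)) (l 16725432)) (c (l 16724088) (l 16722144))) (c (c (l 16719808) (l 16717088)) (c (l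 16714000) (l 16710560)))) (b (c (c (c (a (l 102709992439) (l 88751347079)) (l 16720208)) (l 97341282247)) (c (l 86603868199) (c (l 84456384919) (l 86603860103)))) (l 3))) (l 3))) (a (b (c (c (c (b (l 16708088) (c (b (l 16719160) (l 67276528951)) (l 86603867783))) (c (l 32379929511) (l 16725264))) (c (l 35601156583) (l 54391634647))) (b (c (l 16717424) (l 16711864)) (c (c (l 78013932935) (l 71034622231)) (c (l 75866452647) (l 79624540487))))) (l 3)) (b (c (c (b (l 16706440) (c (c (l 16716624) (l 16720816)) (l 16724768))) (c (l 16722344) (l 16720584))) (b (c (l 16716344) (l 16711360)) (c (l 60834061895) (c (l 16713576) (l 16710064))))) (b (b (c (c (c (a (l 99488766247) (l 85530120567)) (l 16718952)) (l 94656927319)) (c (l 83382643079) (c (l 80698288263) (l 82845763367)))) (l 3)) (l 3)))))) (l 3))) (l 3)), by decide +kernel⟩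

def k16_pp_012_a : ∃ t, chk3 f_pp_012_a t 54 10 2 = true :=
  ⟨(a (b (a (b (c (c (b (l 16714656) (a (l 16707488) (l 16716408))) (l 16720912)) (a (a (l 16720328) (l 16719536)) (l 16718352))) (b (c (c (a (c (l 73718968135) (l 83919512199)) (a (l 78013923031) (l 16708168))) (a (l 83919515815) (l 16724192))) (c (l 30232448503) (l 51707279607))) (a (l 3) (b (c (c (l 93046312039) (l 16721064)) (l 91435701719)) (l 3))))) (c (c (b (l 16712776) (b (a (l 16706992) (l 16705424)) (a (b (l 76403311223) (l 91435699159)) (b (l 16717968) (l 16714128))))) (b (l 16717208) (c (l 25937476183) (l 16724344)))) (b (l 16716008) (c (c (l 16723520) (l 78550799063)) (b (l 16719592) (l 48486053655)))))) (b (a (l 3) (b (a (l 3) (b (c (a (l 94120051239) (l 80161405863)) (l 88751347207)) (l 3))) (l 3))) (l 3))) (b (c (c (b (l 16708024) (a (c (b (l 16712368) (l 16715128)) (l 16716136)) (l 16711776))) (c (b (l 16711536) (l 16727424)) (l 16729816))) (b (l 16721856) (c (l 16727216) (a (l 16707608) (l 16715152))))) (b (a (b (c (c (c (a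 (l 46338563255) (l 16717224)) (l 76940184583)) (a (l 16717112) (l 16723312))) (a (l 66202771479) (l 16722848))) (a (l 3) (c (c (l 89825085335) (l 89825096727)) (l 79087676407)))) (c (c (b (b (l 16704832) (l 16706312)) (a (b (l 16719088) (l 85530119287)) (l 16707800))) (c (l 16726376) (l 16723576))) (c (l 16728352) (b (l 16719472) (l 73182090039))))) (a (l 3) (b (c (a (l 96804406023) (a (l 83382631991) (l 76940179383))) (c (l 24326867559) (l 87140739959))) (l 3)))))), by decide +kernel⟩

def k17_pp_012_a : ∃ t, chk3 f_pp_012_a t 55 10 2 = true :=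
  ⟨(a (c (c (b (b (l 16701616) (l 16706992)) (b (a (b (l 16702408) (l 16705440)) (l 16711224)) (b (a (a (l 72645213575) (l 16718288)) (l 16705432)) (a (a (l 44191087943) (l 74255829991)) (b (l 16707896) (l 68887116919)))))) (b (l 16719024) (b (c (l 16716200) (l 16718520)) (b (c (l 16726112) (l 16723184)) (a (a (l 90898841703) (l 16726128)) (l 16723616)))))) (b (b (l 16705320) (l 16721664)) (c (b (l 16728584) (a (b (l 16724880) (l 17884427815)) (l 16723256))) (b (l 16721776) (a (b (l 16714688) (l 83919514087)) (b (l 16719544) (l 16712184))))))) (c (b (c (l 16697808) (l 16701872)) (a (b (l 16710144) (c (l 16719632) (l 16718632))) (c (b (l 16704776) (l 16711176)) (l 16722568)))) (b (l 16712800) (b (l 16721648) (c (l 16718264) (l 16716640)))))), by decide +kernel⟩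

def k18_pp_012_a : ∃ t, chk3 f_pp_012_a t 54 10 3 = true :=
  ⟨(b (b (a (c (c (a (l 16727112) (l 16714152)) (a (l 16714544) (l 16712552))) (a (c (l 16701664) (l 16698952)) (l 16703080))) (a (c (l 16711096) (l 16708272)) (a (l 16708368) (l 16707376)))) (a (a (b (c (a (c (l 16725872) (l 67276525687)) (l 57075984711)) (a (c (l 72108355687) (l 75866443447)) (c (l 16713264) (l 16709704)))) (a (l 3) (b (c (l 67813404343) (c (l 77477062551) (l 79624537447))) (l 3)))) (c (c (a (l 54928501847) (l 16718032)) (c (l 58149724679) (l 61370947255))) (a (b (l 16710984) (c (l 68350259271) (l 71571476407))) (c (l 16712472) (l 70497733463))))) (c (a (c (l 16705672) (l 16713904)) (b (l 16711696) (l 16713800))) (a (c (l 16711352) (l 16698000)) (l 16703360))))) (a (b (a (l 3) (a (l 3) (b (a (c (l 80161421991) (l 77477061863)) (c (l 57612858279) (l 68350235799))) (l 3)))) (l 3)) (a (b (b (c (c (l 50096664631) (l 54928499447)) (a (b (l 16711520) (l 72108331191)) (c (l 16712976) (l 16709392)))) (a (l 3) (b (c (l 59760341495)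 (l 69960847767)) (l 3)))) (l 3)) (b (b (c (c (l 16717240) (l 16714688)) (c (l 16711824) (l 16708656))) (c (c (l 16726376) (l 50633532503)) (a (b (l 16711544) (l 68350235415)) (l 16716512)))) (b (c (c (l 56002251687) (l 59760344135)) (a (l 82845758343) (b (l 61370934807) (l 71034611879)))) (l 3)))))), by decide +kernel⟩

def k19_pp_012_a : ∃ t, chk3 f_pp_012_a t 55 10 3 = true :=
  ⟨(b (c (a (a (l 16712368) (l 16706008)) (l 16702296)) (a (a (b (l 16705112) (l 16707088)) (l 16693944)) (l 16701576))) (a (c (c (b (a (l 16715968) (l 16713400)) (a (a (l 42043606391) (l 40432990055)) (b (l 16717288) (l 16714808)))) (b (a (l 16713640) (l 16711464)) (a (b (l 45801694503) (l 54928507015)) (b (l 16714744) (l 16727608))))) (b (a (a (l 16704704) (l 16698744)) (l 16702840)) (a (c (a (l 65665891063) (l 63518404439)) (b (a (l 59223446215) (l 16709656)) (l 75329555879))) (b (l 16705136) (a (l 60297176439) (l 16711744)))))) (c (b (c (l 16688512) (l 16708072)) (c (a (l 16716072) (l 16713448)) (a (l 16713736) (l 16711488))))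 (a (b (l 16706432) (b (l 16708840) (l 16705384))) (b (l 16704640) (l 16702856)))))), by decide +kernel⟩

def k20_pp_012_a : ∃ t, chk3 f_pp_012_a t 27 11 1 = true :=
  ⟨(a (l 3) (a (a (l 3) (b (b (b (c (c (a (l 87677602215) (l 71034600279)) (c (l 16733808) (l 80698288935))) (a (c (l 50633544215) (l 61370944983)) (c (l 35601155079) (l 58686569031)))) (l 3)) (l 3)) (l 3))) (b (b (c (c (c (a (b (a (l 16709824) (l 16718712)) (l 80698281415)) (b (l 16705840) (l 62444664423))) (a (b (l 16723664) (l 18421273815)) (l 16722072))) (a (c (b (l 16725088) (l 16728696)) (l 67276507959)) (c (l 16723488) (l 62444665063)))) (c (c (a (b (l 16720256) (l 43654221063)) (l 61370920551)) (a (b (l 16717408) (l 44727962055)) (l 47412290327))) (a (b (c (l 16724768) (l 16703664)) (a (l 56002238343) (l 53317862407))) (b (l 16700528) (a (l 16708336) (l 16712760)))))) (b (a (l 3) (c (a (c (l 80698283495) (l 16720688)) (c (l 63518410999) (l 16726800))) (a (c (l 40969868471) (l 62981544263)) (c (l 57075967303) (l 48486026951))))) (l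 3))) (l 3)))), by decide +kernel⟩

def k21_pp_012_a : ∃ t, chk3 f_pp_012_a t 6 3 1 = true :=
  ⟨(l 3), by decide +kernel⟩

def k22_pp_012_a : ∃ t, chk3 f_pp_012_a t 28 4 1 = true :=
  ⟨(b (a (c (c (l 16652368) (l 16664328)) (c (l 16668936) (l 16671976))) (c (l 16649096) (l 16656648))) (b (a (c (c (l 16667232) (l 16674288)) (c (l 16681400) (l 16688568))) (c (l 16660344) (l 16672936))) (a (a (c (l 16683968) (l 16691520)) (c (l 16678480) (l 16686264))) (c (a (l 16672856) (l 16665736)) (a (l 16680832) (l 16675216)))))), by decide +kernel⟩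

def k23_pp_012_a : ∃ t, chk3 f_pp_012_a t 28 10 2 = true :=
  ⟨(b (a (a (c (l 16693168) (l 16696480)) (c (l 16686352) (l 16690752))) (a (c (l 16679480) (l 16685112)) (c (l 16672536) (l 16679568)))) (c (c (a (a (b (l 16699848) (l 16706288)) (l 16696432)) (a (l 16689760) (l 16683000))) (a (a (l 16717456) (l 16700088)) (a (l 16693168) (l 16686184)))) (a (a (b (l 16705112) (l 16724408)) (b (l 16699184) (l 16705224))) (a (l 16696328) (l 16690488))))), by decide +kernel⟩

def k24_pp_012_a : ∃ t, chk3 f_pp_012_a t 28 11 2 = true :=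
  ⟨(b (b (c (a (a (c (a (l 16703128) (l 16701184)) (l 16722232)) (c (l 16706760) (l 16710144))) (a (l 16699096) (l 16689680))) (a (a (c (l 16718512) (l 16716920)) (l 16716768)) (a (l 16705368) (l 16699296)))) (a (c (a (c (a (b (l 16710056) (l 74792704887)) (l 16719304)) (a (l 16729968) (l 16722656))) (c (l 16719688) (l 16717544))) (a (a (c (l 16727192) (l 16730272)) (c (l 16723760) (l 16721864))) (c (l 16718760) (l 16717320)))) (a (c (a (l 16710984) (l 16707640)) (a (l 16713328) (l 16710192))) (c (a (l 16704272) (l 16700888)) (a (l 16707080) (l 16703984)))))) (b (a (a (a (l 3) (b (a (l 70497734775) (b (l 16717728) (l 16714328))) (l 3))) (c (c (a (l 16724400) (l 16721192)) (a (l 16727200) (l 16723832))) (a (c (l 16727440) (l 16725584)) (l 16723192)))) (a (c (a (c (l 16717984) (l 16720440)) (c (l 16714760) (l 16717032))) (a (l 16719960) (l 16716744))) (a (c (b (l 16710408) (l 16714712)) (l 16713552)) (c (b (l 16707040) (l 16711368)) (l 16710376))))) (a (a (l 3) (a (b (a (l 3) (l 66202780199)) (l 3)) (c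 (c (l 16730280) (l 16732368)) (c (l 16731224) (l 16729624))))) (a (c (a (b (l 16725776) (l 16730376)) (b (l 16722496) (l 16726984))) (a (b (l 16725032) (l 16728592)) (b (l 16721752) (l 16725160)))) (c (a (b (l 16719192) (l 16723016)) (b (l 16715824) (l 16713864))) (a (b (l 16718496) (l 16721856)) (b (l 16715264) (l 16718584)))))))), by decide +kernel⟩

def k25_pp_012_a : ∃ t, chk3 f_pp_012_a t 28 10 3 = true :=
  ⟨(b (a (c (a (l 16697184) (l 16691936)) (a (l 16697312) (l 16692616))) (a (l 16687184) (l 16681840))) (a (c (a (a (l 16715856) (l 16705040)) (l 16711648)) (a (b (l 16680704) (a (l 16685336) (l 16704384))) (c (l 16678928) (l 16677888)))) (a (c (l 16695920) (l 16694960)) (c (l 16690592) (l 16690224))))), by decide +kernel⟩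

def k26_pp_012_a : ∃ t, chk3 f_pp_012_a t 28 11 3 = true :=
  ⟨(a (b (b (a (a (c (b (l 16713952) (l 16706240)) (b (l 16709336) (l 16701056))) (c (l 16702360) (l 16698184))) (c (l 16714272) (a (l 16706776) (l 16704832)))) (a (c (c (a (l 59760312423) (l 16709264)) (a (b (l 16718264) (l 54391622231)) (l 16717416))) (c (a (b (l 16715416) (l 57612838167)) (l 16709624)) (a (b (l 16712336) (l 59223441223)) (l 16706856)))) (a (c (b (l 16714584) (l 16696600)) (b (l 16710432) (l 16702568))) (c (l 16703080) (l 16699472))))) (a (a (l 3) (b (b (c (l 63518408039) (a (l 52244132055) (l 16712024))) (l 3)) (l 3))) (c (b (a (b (l 16710160) (l 56002217527)) (b (l 16697168) (l 16710832))) (a (l 68887127671) (b (l 38285480055) (l 54928488023)))) (b (a (b (c (l 16717104) (l 16714504)) (a (l 16719752) (l 16708000))) (c (l 16716728) (l 16704024))) (a (b (l 61907806791) (l 3)) (b (c (l 16721736) (l 16708992)) (l 53854740183))))))) (a (b (c (b (l 16703872) (c (l 16710288) (l 16688152))) (b (l 16686056) (c (l 16686856) (l 16706384))))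 (a (c (b (l 16717224) (b (l 16711600) (b (l 16714168) (l 16716096)))) (b (b (l 16712376) (l 16715424)) (b (l 16708136) (b (l 16710704) (l 26474323799))))) (c (b (l 16714672) (c (l 16711376) (l 16710168))) (b (c (l 16712808) (l 16711408)) (b (l 16716944) (l 16715112)))))) (b (c (b (l 16698616) (l 16701904)) (b (l 16697464) (l 16703080))) (c (b (a (l 16712104) (l 16709504)) (a (c (l 16708640) (l 16707824)) (c (l 16708512) (l 16705440)))) (b (a (l 16699760) (l 16697800)) (a (b (l 16715176) (l 16708184)) (b (l 16702848) (l 16706416)))))))), by decide +kernel⟩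

def k27_pp_012_a : ∃ t, chk3 f_pp_012_a t 58 2 1 = true :=
  ⟨(b (c (b (l 16634664) (a (l 16675000) (l 16646600))) (b (l 16643152) (a (l 16667224) (l 16659992)))) (a (b (b (c (l 16689752) (l 16676328)) (c (b (l 16677456) (a (l 16685624) (l 16681976))) (c (l 16685216) (l 16685192)))) (c (b (b (c (l 16687992) (l 16693336)) (c (a (l 16697464) (l 16693968)) (a (l 16700936) (l 16697984)))) (c (b (a (b (l 16703640) (l 16707984)) (b (l 16700168) (l 16704528))) (a (b (l 16712104) (a (l 16716232) (l 16714352))) (b (l 16708528) (l 16709000)))) (b (a (l 16700696) (l 16698968)) (a (b (l 16712072) (l 16715344)) (b (l 16708976) (l 16712208)))))) (b (b (a (l 16694368) (l 16691864)) (c (a (l 16700568) (l 16697960)) (l 16698752))) (c (a (b (l 16706888) (c (l 16713624) (l 16705640))) (b (l 16704312) (b (l 16709280) (l 16712720)))) (b (a (l 16695768) (l 16704184)) (a (l 16715864) (b (l 16709448) (l 16713168)))))))) (b (b (c (l 16661352) (l 16670752)) (c (b (l 16670032) (a (l 16678264) (l 16674488))) (c (l 16679928) (l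 16679960)))) (c (b (b (c (l 16680800) (l 16685704)) (c (a (l 16690392) (l 16686736)) (a (l 16694528) (l 16690648)))) (c (b (a (c (l 16698064) (l 16699552)) (l 16695160)) (a (b (l 16705136) (l 16708144)) (b (l 16701904) (l 16704864)))) (b (a (l 16701296) (l 16697968)) (a (b (l 16705992) (l 16709192)) (b (l 16703128) (l 16706288)))))) (b (b (a (l 16689368) (l 16686856)) (c (a (l 16695400) (l 16692864)) (l 16694248))) (c (b (a (l 16701776) (l 16699272)) (a (b (l 16706768) (l 16710224)) (b (l 16704280) (l 16707744)))) (b (a (l 16702088) (l 16699920)) (a (b (l 16707456) (l 16711232)) (l 16707320))))))))), by decide +kernel⟩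

def k28_pp_012_a : ∃ t, chk3 f_pp_012_a t 59 2 1 = true :=
  ⟨(b (b (c (l 16619384) (l 16629968)) (a (c (l 16638936) (l 16652752)) (c (l 16631032) (l 16645624)))) (b (b (a (c (l 16653672) (l 16665104)) (c (l 16645760) (l 16659288))) (c (a (c (l 16673248) (l 16668400)) (c (l 16654824) (l 16660424))) (a (c (l 16674432) (l 16674520)) (c (l 16666464) (l 16668640))))) (a (a (c (b (b (l 16677488) (a (l 16685792) (l 16683848))) (b (c (l 16691416) (l 16694000)) (c (l 16699072) (l 16701752)))) (c (b (l 16697864) (b (l 16696704) (l 16703000))) (b (l 16687552) (b (l 16697664) (l 16704232))))) (c (b (c (l 16685704) (l 16689768)) (b (c (l 16687544) (l 16689976)) (c (l 16696584) (l 16697688)))) (c (b (l 16683608) (b (l 16692512) (l 16698752))) (b (l 16684984) (b (l 16695152) (l 16699784)))))) (b (c (c (b (l 16665360) (l 16673120)) (c (l 16672176) (l 16674232))) (b (c (l 16674624) (l 16677488)) (c (l 16680328) (l 16684168)))) (c (b (c (l 16691968) (l 16689056)) (b (a (l 16690912) (l 16686752)) (a (l 16695240) (l 16691064))))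 (c (b (l 16686248) (a (l 16694528) (l 16690320))) (b (l 16688792) (a (l 16695448) (l 16691224))))))))), by decide +kernel⟩

def k29_pp_012_a : ∃ t, chk3 f_pp_012_a t 15 2 2 = true :=
  ⟨(b (a (b (a (l 16603304) (l 16586296)) (a (b (l 16614424) (l 16623296)) (b (l 16597424) (l 16606240)))) (a (b (l 16567704) (c (l 16535112) (l 16589800))) (b (c (l 16538840) (l 16556200)) (c (l 16512656) (l 16571944))))) (a (b (a (b (a (l 16637616) (l 16629312)) (a (c (l 16625568) (l 16652336)) (l 16661944))) (b (c (l 16570120) (l 16620880)) (c (l 16645064) (l 16652736)))) (a (a (c (b (l 16671336) (b (l 16673048) (l 16682016))) (b (l 16675456) (b (l 16675480) (l 16683072)))) (a (b (l 16656528) (c (l 16670968) (l 16652024))) (b (l 16652240) (l 16670232)))) (a (b (c (l 16611568) (l 16648408)) (c (l 16659648) (l 16662552))) (b (l 16657672) (c (l 16650232) (l 16654208)))))) (a (a (b (a (l 16642056) (l 16626816)) (b (l 16627440) (l 16664056))) (b (c (l 16550688) (l 16604936)) (b (l 16617928) (l 16633728)))) (b (c (b (l 16569632)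 (l 16540096)) (b (l 16586000) (l 16597104))) (b (c (a (l 16602320) (l 16590872)) (l 16609808)) (c (a (l 16619512) (l 16608160)) (l 16645360))))))), by decide +kernel⟩

def k30_pp_012_a : ∃ t, chk3 f_pp_012_a t 15 2 3 = true :=
  ⟨(b (a (a (b (l 16617480) (b (l 16630928) (l 16639912))) (b (l 16606280) (b (l 16618952) (l 16625744)))) (b (a (l 16596416) (l 16578368)) (a (a (l 16609576) (l 16600232)) (c (l 16591936) (l 16570544))))) (b (c (b (a (a (l 16644896) (l 16630808)) (a (l 16617496) (l 16604808))) (a (a (a (l 16658656) (l 16651176)) (l 16661368)) (a (l 16627048) (l 16614392)))) (a (a (b (l 16647696) (a (l 16662024) (l 16654272))) (a (l 16661160) (l 16661808))) (a (b (l 16607736) (l 16619264)) (b (l 16583072) (l 16594728))))) (a (a (c (b (a (l 16679936) (l 16661800)) (b (a (l 16678088) (l 16670304)) (a (l 16684136) (l 16676240)))) (b (a (l 16679520) (l 16667256)) (a (b (l 16680848) (l 16685208)) (b (l 16673696) (l 16677896))))) (b (a (c (l 16654424) (l 16658800)) (c (l 16647408) (l 16649256))) (a (c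 (l 16665784) (l 16674600)) (c (l 16658712) (l 16663744))))) (a (b (a (c (l 16640648) (l 16638736)) (l 16582088)) (a (c (l 16652064) (l 16654576)) (c (l 16645704) (l 16643160)))) (b (a (l 16582616) (l 16572440)) (a (c (l 16639512) (l 16631032)) (b (l 16624592) (l 16632024)))))))), by decide +kernel⟩

def k31_pp_012_a : ∃ t, chk3 f_pp_012_a t 28 6 1 = true :=
  ⟨(b (a (l 3) (b (b (b (a (c (a (c (l 16734712) (l 16732472)) (c (l 16725240) (c (l 16729176) (l 16717712)))) (c (a (l 52781007463) (b (l 16715080) (l 16719648))) (a (l 51170389047) (b (l 16712568) (l 15200038487))))) (c (a (c (c (l 16726624) (l 16726120)) (c (l 16715072) (l 16714448))) (c (c (l 16722464) (l 16722280)) (l 16721280))) (a (c (b (l 16712520) (l 16714288)) (c (l 16722728) (l 16721872))) (c (c (l 16711024) (l 16721176)) (c (l 16720808) (l 16720400)))))) (a (a (l 3) (a (l 3) (a (c (l 16732808) (l 49559784567)) (c (l 16731760) (l 48486040759))))) (c (a (c (c (l 16729992) (l 16724288)) (a (l 16724392) (l 16722600))) (c (c (l 16719800) (l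 16720320)) (c (l 16720160) (l 16719984)))) (a (c (c (l 16722664) (l 16722040)) (c (l 16721376) (l 7683849879))) (c (a (l 16720328) (l 16719048)) (b (l 16718240) (l 16720200))))))) (a (l 3) (b (a (a (l 3) (c (c (l 16726896) (l 39896116903)) (c (l 39896115687) (l 40432984295)))) (a (c (c (c (l 16730008) (l 16729872)) (c (l 16729728) (l 16729584))) (c (l 36138016743) (l 36138015783))) (c (c (c (l 16722568) (l 16727832)) (c (l 16727864) (l 16727896))) (c (l 16722720) (l 16722832))))) (a (l 3) (a (l 3) (c (c (b (l 16725008) (l 16726728)) (c (l 16731432) (l 16731680))) (c (l 29158698407) (c (l 16722104) (l 16732960))))))))) (l 3))) (l 3)), by decide +kernel⟩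

def k32_pp_012_a : ∃ t, chk3 f_pp_012_a t 116 24 1 = true :=
  ⟨(c (c (b (a (a (c (l 16722304) (l 16721072)) (c (l 16720288) (l 16719200))) (a (c (l 16717008) (l 16717376)) (c (l 16715104) (l 16715600)))) (a (a (b (c (l 16720424) (l 16725864)) (c (l 16726152) (l 16723848))) (c (b (l 16723568) (l 16726616)) (b (l 16723936) (l 16727096)))) (a (c (b (l 16721536) (l 16724544)) (b (l 16722064) (l 16725192))) (c (b (l 16719568) (l 16722528)) (b (l 16720232) (l 16723336)))))) (b (a (a (a (l 16721568) (l 16720752)) (a (l 16719936) (l 16719128))) (b (l 16715480) (c (l 16713280) (l 16713800)))) (a (b (c (a (l 16726080) (l 16724328)) (b (l 16724656) (l 16726384))) (c (b (l 16722440) (l 24326856743)) (b (l 16722880) (l 16724688)))) (c (b (b (l 16715712) (l 16717344)) (a (l 16725896) (l 16724208))) (b (l 16717208) (b (l 16719784) (l 16721520))))))) (a (b (b (a (l 16721984) (l 16719584)) (c (c (l 16717040) (l 16717232)) (c (l 16712184) (l 16712384)))) (c (b (c (l 16720632) (l 16721000)) (c (b (l 16723360) (l 16725280))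 (l 16730168))) (b (a (l 16722008) (l 16726416)) (c (l 16730800) (l 16726224))))) (b (c (c (l 16717840) (l 16718312)) (c (l 16718792) (l 16719280))) (c (c (b (l 16723168) (l 16726816)) (c (l 16720416) (l 16720864))) (c (c (l 16721320) (l 16721792)) (a (l 16717656) (l 16715936))))))), by decide +kernel⟩

def k33_pp_012_a : ∃ t, chk3 f_pp_012_a t 117 24 1 = true :=
  ⟨(c (c (c (b (a (a (l 16713240) (l 16711440)) (l 16710168)) (a (a (b (l 16717656) (l 16720576)) (b (l 16715800) (l 16718680))) (b (l 16707872) (l 16709384)))) (b (a (b (l 16711464) (l 16709280)) (l 16709736)) (a (b (a (l 16718456) (l 16716728)) (a (l 16721528) (l 16719760))) (b (l 16708976) (l 16711960))))) (b (a (b (l 16712424) (c (l 16715296) (l 16716096))) (b (l 16709496) (l 16712728))) (a (c (b (l 16713264) (l 16715184)) (b (l 16719488) (l 16722912))) (c (b (l 16715384) (l 16708080)) (b (l 16716616) (l 16720016)))))) (c (b (a (c (l 16715200) (l 16715976)) (b (l 16711280) (l 16714904))) (a (c (c (l 16716832) (l 16717416)) (a (l 16718912)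 (l 16712512))) (b (l 16713352) (l 16715816)))) (b (a (b (l 16715152) (l 16713944)) (b (l 16712384) (l 16714792))) (b (a (l 16719360) (l 16714584)) (a (c (l 16725096) (l 16723776)) (c (l 16720392) (l 16718840))))))), by decide +kernel⟩

def k34_pp_012_a : ∃ t, chk3 f_pp_012_a t 59 24 1 = true :=
  ⟨(a (b (c (c (a (b (l 16704672) (l 16707528)) (l 16700528)) (a (b (l 16706672) (l 16709872)) (l 16700312))) (c (a (b (l 16707896) (l 16711248)) (l 16702640)) (a (b (l 16707784) (l 16710144)) (c (l 16704656) (l 16704192))))) (c (c (a (c (a (l 16701480) (l 16699832)) (l 16712512)) (c (l 16707936) (l 16709472))) (a (a (l 16710224) (l 16703560)) (c (l 16711096) (l 16712816)))) (c (a (c (l 16706544) (l 16705280)) (a (l 16702656) (l 16710960))) (a (c (l 16714416) (l 16712968)) (c (l 16709864) (l 16697800)))))) (c (c (b (a (l 16700368) (l 16697776)) (a (l 16705768) (l 16703024))) (b (a (l 16701728) (l 16697512)) (a (l 16698744) (l 16706168)))) (c (b (a (l 16700976) (l 16696712)) (a (c (l 16708424) (l 16706960)) (l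 16703384))) (b (a (l 16700008) (l 16695704)) (c (a (l 16694912) (l 16680056)) (a (l 16693248) (l 16699328))))))), by decide +kernel⟩

def k35_pp_012_a : ∃ t, chk3 f_pp_012_a t 29 100 1 = true :=
  ⟨(a (a (c (a (a (c (b (c (l 16731408) (l 16731832)) (l 3)) (l 68350275895)) (c (b (c (l 16729128) (l 16729672)) (c (l 16731272) (l 16731808))) (c (l 64055308183) (l 65665921591)))) (c (b (a (c (l 16726992) (l 16727696)) (c (l 16724952) (l 16725816))) (a (c (l 16729032) (l 16729688)) (c (l 16726952) (l 16727760)))) (c (b (a (l 16728472) (l 16726760)) (a (l 16730408) (l 16728648))) (b (l 16723296) (a (l 16731200) (l 16729616)))))) (c (a (c (b (l 25937475191) (l 68887152999)) (b (l 16733296) (l 69960896439))) (c (a (l 30232440311) (l 16729776)) (b (l 16730624) (l 16732392)))) (a (a (l 31306189159) (a (l 30769326631) (l 30769324727))) (c (b (l 16731776) (l 16733488)) (b (l 16730880) (l 16730312)))))) (c (c (c (a (c (c (l 16727856) (l 16728104)) (l 16728488)) (a (l 16720152) (l 16718336))) (a (b (l 16728328) (l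 16730256)) (a (l 16721424) (l 16719728)))) (a (a (b (l 16720432) (l 16722280)) (b (l 16713632) (l 16715480))) (c (b (l 16721064) (l 16722920)) (l 16723536)))) (c (a (c (l 16727784) (l 16729208)) (c (l 16725176) (l 16725552))) (c (a (l 16726544) (l 16723768)) (a (c (l 16722032) (l 16721184)) (b (l 16710368) (l 16712416))))))) (a (c (c (a (c (l 16720952) (l 16712016)) (b (l 16701824) (l 16703688))) (a (c (l 16708440) (l 16720704)) (l 16716944))) (c (a (c (l 16722592) (l 16721048)) (c (l 16718552) (l 16716576))) (a (c (l 16711224) (b (l 16715992) (l 16718016))) (c (l 16703992) (l 16704384))))) (c (a (c (l 16710216) (l 16714184)) (c (l 16707368) (l 16711504))) (a (c (l 16713192) (a (l 16699448) (l 16697184))) (c (l 16708824) (b (l 16692872) (l 16694832))))))), by decide +kernel⟩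

def k36_pp_012_a : ∃ t, chk3 f_pp_012_a t 29 101 1 = true :=
  ⟨(a (a (a (l 3) (a (a (l 3) (b (c (c (l 16733536) (l 16732392)) (l 64055312743)) (l 3))) (c (a (b (c (l 16732472) (l 16731448)) (l 3)) (c (c (l 6073264807) (l 16735536)) (a (l 57075987095) (l 57075986199)))) (c (c (l 59223474375) (l 16734632)) (b (l 16729272) (l 60297221719)))))) (c (a (c (a (c (c (l 16732992) (l 16733416)) (a (l 16734560) (l 16728384))) (c (l 16731224) (l 16732272))) (c (a (l 16734088) (l 16728160)) (a (b (l 16729944) (l 16731816)) (l 16724136)))) (c (a (c (l 16724080) (l 16725256)) (c (l 16722224) (l 16723536))) (c (a (l 16726536) (l 16724952)) (l 16727184)))) (c (a (a (c (l 39359248215) (l 16733256)) (b (l 16730496) (l 16732264))) (c (l 16728736) (l 16729768))) (a (a (a (l 32379927495) (l 16725976)) (b (l 16724368) (l 16725192))) (a (b (l 16716680) (l 16724048)) (c (l 16716280) (l 16719552))))))) (a (c (c (a (a (l 16726376) (l 16719440)) (b (l 16705568) (l 16707456))) (a (c (l 16717384) (l 16724328)) (l 16720584))) (c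 (a (c (l 16726144) (l 16725232)) (c (l 16722752) (l 16720728))) (a (a (b (l 16711848) (l 16713952)) (b (l 16709464) (l 16711552))) (a (l 16710768) (l 16705800))))) (c (a (c (l 16703424) (l 16717784)) (c (l 16711008) (l 16715080))) (c (a (l 16717336) (l 16712928)) (a (a (l 16703488) (l 16701208)) (a (l 16709432) (l 16707208))))))), by decide +kernel⟩

def k37_pp_012_a : ∃ t, chk3 f_pp_012_a t 58 51 1 = true :=
  ⟨(a (l 3) (a (b (a (b (c (c (c (l 6610134935) (l 16734552)) (a (l 16736464) (l 47949186839))) (a (l 53854768855) (c (l 16735112) (l 16730400)))) (l 3)) (c (b (a (c (l 16732552) (l 16726728)) (c (l 16728976) (l 16731176))) (a (c (l 16734688) (l 40969870487)) (c (l 16733632) (l 44191089623)))) (a (b (c (l 16734368) (l 16729272)) (c (l 16736464) (l 16731200))) (c (l 43117349191) (b (l 16728048) (l 51170414759)))))) (l 3)) (c (c (a (b (c (l 16731976) (l 16734376)) (b (c (l 16731120) (l 16732168)) (l 3))) (b (c (l 16726160) (l 16727384)) (c (l 16732136) (l 16731336)))) (c (b (a (l 16732944) (l 16728712))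 (a (b (l 16733312) (l 3)) (b (l 16731560) (l 16733576)))) (b (a (b (l 16730672) (l 16732536)) (l 16724904)) (a (l 53854768551) (l 39896121655))))) (b (a (c (b (l 16732808) (l 16730016)) (c (l 16733464) (b (l 16725248) (l 16728080)))) (c (b (l 16731584) (l 16733376)) (c (l 16731064) (a (l 16724448) (l 16723192))))) (a (b (c (l 42043612231) (a (l 47412320055) (l 46338575511))) (l 3)) (c (a (l 29158710839) (l 16730552)) (b (a (l 16728744) (l 16727512)) (a (l 43654222711) (b (l 16729184) (l 16730256)))))))))), by decide +kernel⟩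

def k38_pp_012_a : ∃ t, chk3 f_pp_012_a t 59 51 1 = true :=
  ⟨(a (c (c (a (b (a (c (l 16724328) (l 16725680)) (l 16723280)) (a (c (l 16728264) (l 16729536)) (l 16732384))) (a (b (l 16721608) (l 16725448)) (b (l 16719984) (l 16723792)))) (a (c (a (b (l 16727144) (l 16730928)) (b (l 16725600) (l 16729368))) (b (l 16728000) (l 16731696))) (c (l 16726544) (l 16726400)))) (c (a (c (b (l 16729736) (l 16733360)) (b (l 16728232) (a (l 16735120) (l 16732824)))) (c (b (l 16727064) (l 16730784)) (b (l 16725000) (l 16729384)))) (b (a (a (c (l 16723440) (b (l 16725504) (l 16727656))) (a (l 16718624) (l 16716768))) (a (b (l 16711288) (l 16716048)) (b (l 16708928) (l 16711056)))) (a (a (c (b (l 16726728) (l 16728960)) (b (l 16724592) (b (l 16731496) (l 16727368)))) (c (l 16725448) (b (l 16727352) (l 16724312)))) (a (c (l 16723080) (b (l 16724904) (l 16727088))) (c (l 16715480) (b (l 16722480) (l 16724648)))))))) (c (c (a (a (a (l 16710240) (l 16709448)) (l 16708296)) (l 16716528)) (a (c (l 16722312) (l 16724312))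 (c (l 16719472) (l 16721600)))) (c (a (c (l 16722232) (b (l 16709992) (l 16724840))) (c (l 16720456) (b (l 16705536) (l 16709872)))) (a (c (b (l 16710304) (c (l 16712592) (l 16716616))) (b (a (l 16716912) (l 16714576)) (a (b (l 16720088) (l 16722248)) (l 16718800)))) (b (a (l 16703056) (l 16700816)) (a (b (l 16706224) (l 16708384)) (c (l 16716808) (l 16714224)))))))), by decide +kernel⟩

def k39_pp_012_a : ∃ t, chk3 f_pp_012_a t 58 13 1 = true :=
  ⟨(a (l 3) (a (l 3) (a (l 3) (a (l 3) (b (b (a (l 3) (b (b (c (l 16739608) (l 44727963847)) (l 3)) (l 3))) (l 3)) (l 3)))))), by decide +kernel⟩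

def k40_pp_012_a : ∃ t, chk3 f_pp_012_a t 118 13 1 = true :=
  ⟨(b (a (b (b (a (c (c (c (l 16732408) (l 16733648)) (b (l 38285507863) (l 52781026903))) (c (b (l 16733744) (l 16734656)) (b (c (l 16731128) (a (l 42580481815) (l 16728408))) (c (l 16733096) (l 40432999479))))) (c (a (c (l 16731520) (l 39359248599)) (c (l 16730600) (l 16728304))) (c (a (l 16732384) (l 16731704)) (b (c (l 16728816) (b (l 16731224) (l 16727112))) (c (l 16731032) (a (l 40969868343) (l 16733416))))))) (a (l 3) (a (l 3) (c (c (l 16734864) (l 51170414551)) (c (l 16735928) (b (l 39359255847) (l 3))))))) (l 3)) (a (b (b (c (c (l 16734560) (l 16732440)) (c (a (l 16725840) (l 16725080)) (b (a (l 16725864) (l 16724656)) (c (l 16728696) (a (l 16732176) (l 16730936)))))) (c (c (c (l 16732664) (l 16734072)) (a (l 35601155943) (l 16728064))) (c (b (l 16733560) (l 16735704)) (b (c (l 16730960) (a (l 39359255079) (l 16733216))) (c (l 16733696) (a (l 3) (l 36674902567))))))) (l 3)) (b (b (c (c (l 16727632) (l 16730968)) (c (c (l 16733792)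 (l 16732752)) (c (b (l 16729296) (l 16721072)) (c (l 16728592) (l 16728640))))) (c (c (l 16736728) (l 16734728)) (c (b (l 16726880) (l 16734112)) (c (b (l 16728616) (l 16730936)) (b (c (l 16732000) (l 16730720)) (a (l 37748642055) (l 16733072))))))) (b (c (c (l 16740928) (l 49559800983)) (c (l 41506747367) (c (l 38822389543) (b (a (l 33990550519) (l 35601160471)) (l 3))))) (l 3))))) (l 3)), by decide +kernel⟩

def k41_pp_012_a : ∃ t, chk3 f_pp_012_a t 119 26 1 = true :=
  ⟨(a (b (c (c (a (c (l 16727104) (l 16720288)) (b (l 16724376) (l 16728112))) (c (l 16729704) (b (l 16729776) (l 16733440)))) (b (a (c (l 16721128) (c (l 16722832) (b (l 16724440) (l 16726664)))) (c (l 16718888) (c (l 16715272) (b (l 16722064) (l 16724288))))) (a (c (a (l 16726376) (l 16725248)) (c (a (l 16728016) (l 16726840)) (c (l 16732056) (a (l 16730032) (l 16728816))))) (c (l 16728824) (c (l 16725104) (c (l 16728376) (l 16728328))))))) (a (b (c (c (l 16733664) (l 16737048)) (c (b (l 16729384) (l 16736664)) (c (b (l 16730976) (l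 16733200)) (b (a (l 36674900103) (l 16733000)) (a (l 33990550231) (l 33990547591)))))) (l 3)) (c (c (b (l 16731824) (l 16735840)) (c (l 37211764375) (l 16735816))) (b (c (a (l 16728992) (l 16727880)) (c (b (l 16723416) (l 16731080)) (b (c (l 16731896) (l 16730512)) (c (l 16734288) (l 16732888))))) (c (l 42580489063) (c (l 38285518679) (b (a (l 33990550087) (l 32379935015)) (l 3)))))))) (a (c (b (c (a (l 16714576) (l 16713776)) (l 16728480)) (c (b (l 16730136) (l 16733840)) (c (l 40432987319) (l 16736752)))) (b (b (c (l 16727160) (c (l 16723472) (l 16722816))) (c (l 16721368) (c (l 16722824) (b (l 16724224) (l 16726520))))) (b (c (l 16726224) (c (l 16726264) (c (l 16730752) (l 16730808)))) (c (l 36138033175) (c (b (l 16726008) (l 16733632)) (b (c (l 16734392) (l 16732944)) (a (l 34527420999) (l 16735520)))))))) (c (b (c (l 16712600) (l 16727024)) (c (b (l 16728480) (l 16732056)) (l 16734160))) (b (b (c (l 16724968) (a (l 16712616) (l 16708880))) (c (l 16729656) (c (l 16725816) (b (l 16721936) (l 16724232)))))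 (b (c (l 16724032) (c (l 16725320) (b (l 16726568) (l 16730248)))) (c (l 16729064) (c (l 16727616) (c (l 16733320) (a (l 16732416) (l 16731264)))))))))), by decide +kernel⟩

def k42_pp_012_a : ∃ t, chk3 f_pp_012_a t 119 27 1 = true :=
  ⟨(b (b (a (l 3) (a (a (l 3) (a (l 3) (c (l 43654213719) (c (l 16734816) (l 35064291239))))) (c (c (l 16735864) (l 16739720)) (c (l 30232459399) (c (l 29695584023) (b (b (l 31306193127) (l 36138033479)) (l 33453681095))))))) (l 3)) (l 3)), by decide +kernel⟩

def k43_pp_012_a : ∃ t, chk3 f_pp_012_a t 14 7 1 = true :=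
  ⟨(l 3), by decide +kernel⟩

def k44_pp_012_a : ∃ t, chk3 f_pp_012_a t 240 6 1 = true :=
  ⟨(b (c (b (b (c (l 16693840) (l 16693272)) (c (l 16700432) (l 16701888))) (b (c (l 16706464) (l 16710576)) (c (l 16713616) (l 16717736)))) (b (c (b (l 16692512) (l 16699120)) (b (l 16681072) (l 16685472))) (b (b (c (l 16704512) (l 16689544)) (a (a (l 16686984) (l 16685912)) (l 16689568))) (a (c (l 16716064) (b (l 16709112) (l 16702856))) (c (l 16713944) (b (l 16707000) (l 16700736))))))) (b (c (b (c (l 16720736) (c (l 16723744) (l 16725912))) (c (b (l 16715520) (a (l 16730360) (l 16728656))) (c (l 16730768) (l 16732928)))) (c (c (b (l 16725280) (b (l 16732568) (l 16736944))) (b (b (l 16710032) (l 16714688)) (b (l 16719512) (l 16734984)))) (c (b (b (l 16707488) (a (l 16723624) (l 16721488))) (b (a (l 16717872) (l 16726224)) (a (l 16728024) (l 16720632)))) (b (b (a (l 16716368) (l 16714240)) (a (l 16722168) (l 16718720))) (b (a (b (l 16724336) (l 16726704)) (l 16725328)) (a (c (l 16731080) (l 16729576)) (b (l 16726944)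 (l 16729384)))))))) (b (c (c (b (a (l 16733888) (l 16732088)) (c (l 16730632) (l 16737784))) (c (b (l 16725488) (l 16729360)) (b (l 16738144) (l 16731560)))) (c (b (a (l 16731920) (l 16730000)) (a (l 16736080) (l 16734064))) (b (a (c (l 33453676455) (c (l 31306192263) (a (l 16735696) (l 16733976)))) (c (l 16725696) (b (l 16731864) (l 16734384)))) (a (c (l 16737728) (a (l 3) (l 33990552199))) (c (l 16733352) (b (l 28621838919) (l 16734000))))))) (l 3)))), by decide +kernel⟩

def k45_pp_012_a : ∃ t, chk3 f_pp_012_a t 241 6 1 = true :=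
  ⟨(b (c (b (b (l 16689296) (c (l 16697904) (l 16697624))) (b (c (l 16703736) (l 16706344)) (c (l 16710688) (l 16714832)))) (c (b (b (l 16667448) (l 16694968)) (b (l 16706328) (c (l 16711968) (l 16699216)))) (b (b (l 16666656) (l 16681456)) (b (b (l 16685496) (l 16689416)) (a (b (l 16704968) (l 16709184)) (a (l 16695088) (l 16694120))))))) (b (c (c (b (l 16717592) (l 16724424)) (b (l 16721752) (c (l 16727528) (l 16729760)))) (b (c (b (l 16717600) (l 16711816)) (b (a (l 16703056) (l 16701072)) (a (c (l 16719432) (l 16716656)) (l 16705584)))) (c (c (l 16720480) (a (l 16718864) (l 16716848))) (c (b (l 16715272) (b (l 16716296) (l 16718776))) (b (a (l 16721280) (l 16719280)) (a (b (l 16724856) (l 16727280)) (l 16724048))))))) (c (b (b (c (l 16718960) (l 16733696)) (c (a (l 16733680) (l 16731856)) (l 16737056))) (c (b (c (l 16732752) (l 16737416)) (l 130627304983)) (b (a (l 16731288) (l 16729144)) (l 52244159607)))) (b (c (b (b (l 16725600) (l 16728248)) (a (l 16732264) (l 16730632))) (b (a (c (l 16723600)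 (b (l 16729752) (l 16732264))) (a (b (l 16719288) (l 16721816)) (l 16719544))) (a (c (l 16728808) (b (l 16734816) (l 16732152))) (c (l 16726776) (b (l 16732768) (l 16735344)))))) (c (b (a (l 16736232) (l 16734160)) (l 16742296)) (b (a (c (l 16733728) (l 32916810679)) (c (l 16732024) (a (l 16734408) (l 16728264)))) (c (l 16737496) (l 40433008647)))))))), by decide +kernel⟩

def k46_pp_012_a : ∃ t, chk3 f_pp_012_a t 121 12 1 = true :=
  ⟨(b (c (b (c (l 16682888) (l 16682728)) (c (l 16693360) (l 16691352))) (c (b (l 16682480) (l 16689032)) (b (l 16682128) (c (l 16666112) (l 16675208))))) (c (b (c (l 16699728) (l 16702720)) (c (l 16706336) (a (l 16711000) (l 16706944)))) (c (a (b (l 16698384) (l 16706880)) (b (l 16694544) (l 16703064))) (b (a (b (l 16692184) (l 16696112)) (a (l 16670496) (l 16668800))) (a (b (l 16689680) (l 16693880)) (b (l 16696632) (l 16679848))))))), by decide +kernel⟩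

def k47_pp_012_a : ∃ t, chk3 f_pp_012_a t 121 13 1 = true :=
  ⟨(b (c (c (b (l 16718160) (a (l 16721088) (l 16717784))) (b (a (l 16718600) (l 16715376)) (a (l 16725320) (l 16721944)))) (c (b (a (c (l 16717152) (l 16704280)) (l 16712168)) (a (b (l 16723208) (l 16717752)) (c (l 16723144) (l 16720632)))) (b (a (b (b (l 16697128) (l 16699336)) (a (l 16703656) (l 16712288))) (b (l 16694664) (b (l 16698000) (l 16700272)))) (a (b (a (l 16708304) (l 16706440)) (a (b (l 16711896) (l 16714336)) (l 16711232))) (b (a (l 16704632) (l 16713376)) (c (l 16709928) (l 16707080))))))) (a (c (b (c (c (l 16716088) (l 16718128)) (c (l 16720320) (l 16733144))) (c (b (c (l 16731272) (l 16733376)) (a (l 56539135639) (l 16724032))) (b (l 16736816) (a (l 16730848) (l 16728688))))) (b (c (c (l 16725136) (a (l 16725168) (l 16733712))) (b (c (l 16718632) (a (l 16727008) (l 16725112))) (c (l 16726440) (a (l 16726824) (l 16730152))))) (c (b (c (l 16740600) (l 16742832)) (c (l 16744216) (l 16736536))) (c (b (l 16730472) (l 23790006039))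 (b (a (l 16732040) (l 16724856)) (a (l 16734416) (l 16730136))))))) (c (b (c (b (l 16722472) (l 16725568)) (l 16728432)) (c (b (l 16728624) (a (l 16732560) (l 16730680))) (a (l 16735712) (l 16733864)))) (c (b (a (l 16722752) (l 16720872)) (b (l 16727888) (l 16736440))) (b (b (a (l 16714336) (l 16712560)) (a (l 16719424) (l 16717624))) (b (a (b (l 16723336) (l 16726000)) (l 16722840)) (a (b (l 16728696) (l 16731432)) (l 16728216)))))))), by decide +kernel⟩

def k48_pp_012_a : ∃ t, chk3 f_pp_012_a t 61 12 1 = true :=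
  ⟨(a (c (b (c (l 16679120) (b (l 16653440) (l 16683112))) (b (c (l 16694560) (l 16691984)) (c (l 16700744) (l 16700952)))) (b (b (c (l 16674992) (l 16675608)) (c (l 16681568) (l 16679840))) (b (c (l 16689056) (c (l 16665664) (l 16669184))) (c (a (l 16699384) (l 16674864)) (a (l 16684928) (l 16671384)))))) (c (b (c (l 16669960) (l 16670576)) (b (c (l 16685600) (l 16683968)) (c (l 16695080) (l 16693024)))) (b (c (l 16671280) (b (l 16670000) (l 16674232))) (b (c (l 16682152) (l 16680152)) (c (l 16690720) (l 16693408)))))), by decide +kernel⟩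

def k49_pp_012_a : ∃ t, chk3 f_pp_012_a t 61 13 1 = true :=
  ⟨(c (b (a (c (b (l 16706888) (l 16712960)) (b (l 16710440) (a (l 16718520) (l 16715072)))) (b (c (l 16701280) (l 16702688)) (c (l 16706856) (l 16709832)))) (b (a (c (a (l 16704872) (l 16696264)) (a (l 16724864) (l 16721272))) (c (c (l 16701144) (l 16713248)) (a (l 16717672) (l 16714152)))) (a (a (c (b (l 16725000) (l 16717400)) (c (l 16719376) (l 16732320))) (c (c (l 16711408) (l 16723976)) (c (l 16715720) (l 16728584)))) (a (c (b (l 16718128) (l 16720888)) (l 16723768)) (c (l 16705880) (l 16720200)))))) (c (b (a (b (a (l 16708504) (l 16704960)) (a (l 16712992) (l 16714688))) (b (l 16699848) (a (l 16711248) (l 16707920)))) (a (b (a (a (l 16719032) (l 16727712)) (l 16719800)) (a (a (l 16726760) (l 16724856)) (c (l 16731112) (l 16723304)))) (b (a (l 16711104) (l 16717792)) (a (c (l 16727288) (l 16729808)) (l 16724536))))) (b (a (b (a (b (l 16680856) (l 16695792)) (b (l 16698736) (l 16682192))) (a (b (l 16700384) (a (l 16695464) (l 16714792)))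 (b (l 16686760) (l 16701952)))) (b (a (l 16677088) (l 16674408)) (a (c (l 16687232) (l 16685064)) (l 16704424)))) (a (b (b (a (a (l 16710840) (l 16698696)) (l 16706800)) (a (c (l 16716536) (l 16713504)) (l 16710480))) (c (a (b (l 16732296) (l 16737720)) (l 16726328)) (a (b (l 16718592) (l 16723832)) (b (l 16715368) (l 16720480))))) (b (a (c (l 16718008) (l 16704984)) (c (l 16714992) (l 16691776))) (a (b (l 16713752) (l 16718864)) (a (l 16713976) (l 16722928)))))))), by decide +kernel⟩

def k50_pp_012_a : ∃ t, chk3 f_pp_012_a t 62 6 1 = true :=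
  ⟨(a (b (b (c (c (l 16660432) (l 16662408)) (c (l 16664712) (l 16667336))) (c (c (l 16680992) (l 16690928)) (b (c (l 16675624) (l 16675344)) (c (l 16684200) (l 16683296))))) (b (c (c (b (l 16696120) (l 16701568)) (b (l 16694808) (l 16703176))) (c (b (l 16693352) (l 16702968)) (b (l 16691776) (a (l 16701848) (l 16699416))))) (c (c (b (l 16706816) (a (l 16692504) (l 16689904))) (b (l 16709088) (a (l 16716808) (l 16713576)))) (c (b (a (l 16713704) (l 16709648)) (a (l 16720584) (l 16716640))) (b (a (l 16711160) (l 16708504)) (a (c (l 16721872) (l 16719472)) (l 16707296))))))) (b (b (c (l 16654800) (c (l 16658416) (l 16661176))) (c (b (l 16666984) (l 16676440)) (b (l 16680744) (c (l 16677928) (l 16679152))))) (b (c (b (l 16686424) (l 16700888)) (c (b (l 16686928) (l 16696344)) (b (l 16687384) (l 16695928)))) (c (c (b (l 16702400) (l 16707520)) (b (l 16702960) (l 16709032))) (b (c (l 16703640) (a (l 16705920) (l 16701856))) (c (a (l 16712728) (l 16708864)) (a (l 16714952) (l 16710296)))))))), by decide +kernel⟩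

def k51_pp_012_a : ∃ t, chk3 f_pp_012_a t 63 6 1 = true :=
  ⟨(a (b (c (b (c (l 16639872) (l 16645664)) (b (l 16657440) (l 16666792))) (b (c (l 16652352) (l 16649120)) (c (l 16667328) (b (l 16662616) (l 16669984))))) (c (b (c (l 16680928) (l 16682736)) (b (c (l 16697504) (l 16697608)) (c (l 16704088) (l 16703640)))) (b (c (b (l 16680344) (l 16688792)) (b (l 16677616) (l 16685648))) (b (c (l 16695888) (l 16694032)) (a (l 16705176) (l 16700824)))))) (c (b (b (c (l 16586560) (l 16636656)) (c (l 16649160) (l 16654544))) (b (c (l 16669112) (l 16673080)) (b (c (l 16685496) (l 16688112)) (a (l 16700856) (l 16695048))))) (b (b (c (l 16646040) (l 16636904)) (b (l 16614008) (l 16642064))) (b (a (b (l 16672744) (l 16680384)) (b (l 16668144) (l 16675912))) (b (c (l 16688560) (l 16683600)) (c (l 16696032) (l 16695360))))))), by decide +kernel⟩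

def k52_pp_012_a : ∃ t, chk3 f_pp_012_a t 60 14 1 = true :=
  ⟨(a (l 3) (a (a (l 3) (a (l 3) (b (b (b (b (c (l 82845787015) (l 16733672)) (l 3)) (l 3)) (l 3)) (l 3)))) (b (b (a (b (c (c (c (l 16745152) (l 16736936)) (l 16730160)) (c (l 16746192) (l 20568781815))) (l 3)) (c (c (b (l 46875449383) (c (l 78013985543) (l 16738288))) (b (l 16738504) (l 16731720))) (b (c (l 16744072) (l 16733720)) (c (l 16748032) (l 16738784))))) (l 3)) (l 3)))), by decide +kernel⟩

def k53_pp_012_a : ∃ t, chk3 f_pp_012_a t 122 14 1 = true :=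
  ⟨(b (b (c (a (c (c (b (l 16729632) (a (b (l 16732680) (l 16734312)) (l 16731496))) (b (l 16731928) (l 16732000))) (b (a (l 16736600) (l 16734720)) (b (l 16727488) (l 33453669735)))) (c (b (c (l 16726008) (l 16728256)) (c (l 16720904) (l 16731152))) (b (l 16721456) (a (l 16735968) (l 16734144))))) (c (a (a (a (l 16739232) (l 16732944)) (l 16734128)) (c (l 16737696) (l 16730192))) (a (b (a (l 16731896) (l 16730096)) (a (l 16737296) (l 16735560))) (b (a (l 16728320) (l 16716088)) (a (l 16723224) (l 16721408)))))) (a (a (l 3) (b (c (c (c (b (l 35601177655) (l 80161467831)) (b (l 16736576) (l 16739624))) (l 61907832839)) (c (l 16734816) (l 16740712))) (l 3))) (a (b (c (c (c (b (l 16732104) (l 16734880)) (l 16735920)) (b (l 16738552) (l 16741080))) (c (l 16735200) (l 16739128))) (a (l 3) (b (c (c (l 60297229335) (l 16743328)) (l 16741312)) (l 3)))) (c (c (b (c (l 16742120) (l 16734032)) (c (b (l 16735752) (l 13589478967)) (l 16750064))) (b (l 16737936) (b (l 16741672) (l 16744568)))) (b (c (l 16743752) (l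 16737304)) (c (l 60297233671) (l 16742568))))))) (l 3)), by decide +kernel⟩

def k54_pp_012_a : ∃ t, chk3 f_pp_012_a t 123 28 1 = true :=
  ⟨(b (b (c (c (a (l 16713184) (l 16720448)) (a (l 16717832) (l 16703832))) (a (c (l 16733592) (l 16724016)) (c (l 16729736) (l 16720688)))) (c (c (a (c (l 16725320) (l 16727640)) (l 16712704)) (a (l 16720952) (l 16717440))) (a (c (l 16737088) (l 16726592)) (c (l 16733296) (l 16725744))))) (c (c (c (b (a (a (l 16729888) (l 16728200)) (l 16720528)) (a (a (c (l 16745288) (l 16735856)) (l 16733592)) (a (l 16731944) (l 16730360)))) (b (a (l 16731392) (l 16728040)) (a (b (l 16735280) (l 16748448)) (l 16733248)))) (c (b (a (l 16733920) (l 16730464)) (a (l 16738968) (l 16735504))) (a (b (l 16736616) (l 16744080)) (b (l 16733056) (l 16737904))))) (c (a (c (b (l 16728992) (l 16733616)) (b (l 16742512) (l 16746896))) (b (l 16730688) (c (l 16729976) (l 16743160)))) (a (b (a (l 16735440) (l 16723112)) (a (l 16740888) (l 16739000))) (b (b (l 16740072) (l 16721728)) (b (l 16734864)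 (l 16737520))))))), by decide +kernel⟩

def k55_pp_012_a : ∃ t, chk3 f_pp_012_a t 123 29 1 = true :=
  ⟨(a (b (b (a (b (c (c (c (l 14126352071) (l 16741872)) (l 16745208)) (c (l 16739688) (l 16734240))) (l 3)) (c (c (c (b (l 16737744) (c (l 16740368) (l 16741304))) (b (l 16739776) (l 16742768))) (b (l 16743080) (l 16745920))) (c (l 62981591207) (l 16744240)))) (l 3)) (l 3)) (a (b (b (c (c (c (c (l 16737008) (l 16737952)) (l 16739432)) (b (l 16741328) (l 16743896))) (c (l 16736872) (l 16742160))) (c (c (c (b (c (l 16746720) (l 16742352)) (c (l 16744928) (l 16745760))) (c (l 16750232) (l 16745912))) (b (l 23790018807) (l 16739408))) (c (l 56002275911) (l 16746960)))) (l 3)) (b (c (c (b (c (l 16735872) (l 16737784)) (c (b (l 16740080) (c (l 22179419639) (l 16743488))) (b (l 16741864) (l 16744776)))) (b (b (l 16739616) (l 16742184)) (b (l 16744784) (l 27548115255)))) (b (c (l 16735064) (l 16740240)) (c (b (l 16738624) (l 16741176)) (l 16744648)))) (a (l 3) (b (b (c (c (c (l 16751072) (l 16747432)) (l 16750048))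 (l 16745560)) (l 3)) (l 3)))))), by decide +kernel⟩

def k56_pp_012_a : ∃ t, chk3 f_pp_012_a t 30 15 1 = true :=
  ⟨(l 3), by decide +kernel⟩

def k57_pp_012_a : ∃ t, chk3 f_pp_012_a t 62 28 1 = true :=
  ⟨(c (a (b (a (c (a (l 16698608) (l 16697184)) (l 16723000)) (c (l 16703040) (l 16719760))) (a (c (b (c (l 16722784) (l 16724896)) (c (l 16728120) (l 16730088))) (b (c (l 16727168) (l 16729576)) (c (l 16732208) (l 16734456)))) (c (b (a (l 16721704) (l 16720376)) (c (l 16725384) (l 16727168))) (b (l 16714616) (c (l 16729072) (l 16731104)))))) (b (c (a (l 16692744) (l 16690600)) (a (l 16716672) (l 16713760))) (a (c (b (l 16718504) (l 16723696)) (b (l 16701032) (l 16716496))) (c (b (l 16716256) (l 16721400)) (b (l 16719064) (l 16703064)))))) (a (b (c (a (l 16727696) (l 16723864)) (a (a (l 16710256) (l 16708648)) (l 16720704))) (a (b (c (l 16733488) (l 16727416)) (c (c (l 16736848) (l 16739384)) (l 16732560))) (b (c (l 16729720) (l 16734536)) (c (l 16734400) (l 16728744))))) (a (b (c (l 16720040) (l 16713336))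 (b (c (l 16725976) (l 16730424)) (c (l 16730704) (l 16734872)))) (b (c (l 16716264) (l 16719096)) (b (c (l 16722264) (l 16725856)) (c (l 16727040) (l 16730408))))))), by decide +kernel⟩

def k58_pp_012_a : ∃ t, chk3 f_pp_012_a t 248 29 1 = true :=
  ⟨(a (b (c (c (b (c (l 16734336) (l 16736200)) (c (c (l 16739544) (l 16740368)) (l 16741648))) (b (l 16728744) (b (l 16743104) (l 16745728)))) (b (c (l 16733248) (l 16748760)) (c (b (l 16736832) (l 16739256)) (l 16742640)))) (b (b (c (c (c (c (l 27548130983) (l 16744704)) (l 16745896)) (a (l 16748912) (l 16747960))) (a (l 16744352) (l 16743320))) (a (l 3) (c (c (c (c (l 16746680) (l 16747400)) (l 16748520)) (l 16750936)) (l 16745976)))) (l 3))) (b (c (c (b (l 16732440) (c (l 16748952) (l 16740104))) (b (l 16737576) (b (l 16741456) (l 16744080)))) (b (c (l 16731424) (l 16746744)) (c (l 16736256) (l 16740680)))) (b (c (c (c (b (l 16742720) (a (l 29158746583) (l 16745224))) (c (l 16750544) (l 16751312))) (b (l 16746728) (a (l 16749872) (l 16748992)))) (c (b (l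 16739928) (l 16747696)) (l 30232482503))) (b (c (c (c (c (a (l 16749120) (l 16753240)) (l 16754496)) (a (l 16750824) (l 16749680))) (c (l 16746504) (l 16753304))) (c (l 16747944) (l 16749008))) (l 3))))), by decide +kernel⟩

def k59_pp_012_a : ∃ t, chk3 f_pp_012_a t 249 29 1 = true :=
  ⟨(c (b (c (b (a (l 16721832) (l 16730952)) (a (c (l 16737040) (l 16738608)) (l 16746904))) (b (b (l 16723384) (l 16725960)) (a (b (l 16739840) (l 16742464)) (l 16729088)))) (c (b (a (c (c (l 16752856) (l 16743056)) (l 16749376)) (c (l 16751816) (l 16753160))) (b (a (c (c (l 16751968) (l 16747352)) (l 16753592)) (c (l 16745608) (l 16746856))) (a (c (c (a (l 16750424) (l 16752008)) (a (l 16751032) (l 16749984))) (a (l 16751976) (l 16750912))) (c (c (l 16748216) (l 16748784)) (l 16754920))))) (b (a (b (l 16745112) (l 16742536)) (a (l 16737392) (l 16733984))) (a (b (a (l 16750896) (l 16750072)) (a (l 16748776) (l 65129093079))) (b (a (l 16749280) (l 16748488)) (c (l 16750936) (l 16752272))))))) (c (b (c (b (l 16727640) (l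 16732592)) (b (l 16729760) (l 16734544))) (b (c (c (l 16742456) (l 16743320)) (a (l 16740328) (l 16738496))) (a (b (l 16745792) (a (l 16746552) (l 16745376))) (b (l 16741400) (l 16749192))))) (b (b (l 16735784) (b (l 16736520) (l 16738792))) (b (a (l 16743240) (l 16741248)) (a (b (l 16757192) (l 16749336)) (b (l 16755240) (l 16757608))))))), by decide +kernel⟩

def k60_pp_012_a : ∃ t, chk3 f_pp_012_a t 125 29 1 = true :=
  ⟨(b (a (c (a (c (b (l 16729640) (l 16735088)) (b (l 16732832) (l 16727536))) (b (b (l 16707520) (l 16720632)) (c (l 16733816) (l 16736504)))) (b (c (l 16735528) (l 16728912)) (a (b (l 16731464) (l 16733856)) (c (l 16729064) (l 16742952))))) (c (c (b (l 16716184) (a (l 16732616) (l 16731480))) (b (l 16718640) (b (l 16722504) (l 16725112)))) (b (c (l 16731912) (l 16735032)) (c (l 16736872) (l 16734504))))) (a (a (b (c (c (c (l 16740016) (l 16741264)) (b (l 16741968) (l 16744632))) (c (l 16738472) (l 16749712))) (c (c (c (c (l 16750672) (l 16751216)) (b (l 16745424) (l 16748224))) (b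 (l 16742080) (c (l 16749408) (l 16750664)))) (c (b (l 16739640) (l 16747448)) (b (l 16753256) (l 16755656))))) (b (c (c (c (l 16738768) (l 16739912)) (b (l 16740448) (l 16743104))) (c (l 16734080) (l 16747664))) (b (c (c (l 16738256) (l 16745784)) (a (l 16739760) (l 16738816))) (l 6)))) (b (a (c (c (l 16745952) (l 16729808)) (c (l 16732312) (l 16745592))) (b (c (l 16726008) (l 16740976)) (l 6))) (l 6)))), by decide +kernel⟩

def k61_pp_012_a : ∃ t, chk3 f_pp_012_a t 63 14 1 = true :=
  ⟨(b (a (c (b (c (l 16708888) (l 16709728)) (a (b (l 16715256) (l 16725536)) (a (l 16721424) (l 16715176)))) (b (a (c (l 16712552) (l 16714304)) (c (l 16708928) (l 16709480))) (a (c (l 16721048) (b (l 16721216) (l 16725864))) (c (l 16717488) (l 16718928))))) (c (b (a (l 16706520) (l 16705000)) (a (c (l 16713728) (l 16713840)) (c (l 16712576) (l 16711656)))) (b (a (l 16705024) (c (l 16702000) (l 16699832))) (a (c (l 16714032) (l 16714296)) (c (l 16710696) (l 16709696)))))) (b (a (c (c (a (b (l 16724592) (a (l 16730400) (l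 16729392))) (b (l 16701808) (l 16717496))) (a (b (l 16715856) (l 16721016)) (l 16731568))) (b (a (c (l 16728344) (l 16730592)) (c (l 16724840) (l 16726120))) (a (c (l 16733344) (l 16735416)) (c (l 16729880) (l 16731048))))) (a (b (c (l 16721256) (l 16721528)) (l 6)) (l 6))) (b (b (a (a (a (c (l 16724744) (l 16739048)) (l 6)) (l 6)) (l 6)) (l 6)) (l 6)))), by decide +kernel⟩

def k62_pp_012_a : ∃ t, chk3 f_pp_012_a t 31 15 1 = true :=
  ⟨(a (b (a (a (l 3) (a (l 3) (b (b (b (b (c (c (c (a (l 16756384) (l 16750312)) (l 16754496)) (a (l 16754152) (l 16753240))) (a (l 16750544) (l 16746896))) (a (a (l 3) (l 6)) (l 6))) (l 6)) (l 3)) (l 3)))) (l 6)) (l 3)) (l 6)), by decide +kernel⟩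

theorem s63_pp_012_a : ∃ t, chk3 f_pp_012_a t 124 29 1 = true := ex3_a k58_pp_012_a k59_pp_012_a

theorem s64_pp_012_a : ∃ t, chk3 f_pp_012_a t 62 29 1 = true := ex3_a s63_pp_012_a k60_pp_012_a

theorem s65_pp_012_a : ∃ t, chk3 f_pp_012_a t 62 14 1 = true := ex3_b k57_pp_012_a s64_pp_012_a

theorem s66_pp_012_a : ∃ t, chk3 f_pp_012_a t 31 14 1 = true := ex3_a s65_pp_012_a k61_pp_012_a

theorem s67_pp_012_a : ∃ t, chk3 f_pp_012_a t 31 7 1 = true := ex3_b s66_pp_012_a k62_pp_012_a

theorem s68_pp_012_a : ∃ t, chk3 f_pp_012_a t 123 14 1 = true := ex3_b k54_pp_012_a k55_pp_012_a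

theorem s69_pp_012_a : ∃ t, chk3 f_pp_012_a t 61 14 1 = true := ex3_a k53_pp_012_a s68_pp_012_a

theorem s70_pp_012_a : ∃ t, chk3 f_pp_012_a t 30 14 1 = true := ex3_a k52_pp_012_a s69_pp_012_a

theorem s71_pp_012_a : ∃ t, chk3 f_pp_012_a t 30 7 1 = true := ex3_b s70_pp_012_a k56_pp_012_a

theorem s72_pp_012_a : ∃ t, chk3 f_pp_012_a t 15 7 1 = true := ex3_a s71_pp_012_a s67_pp_012_a

theorem s73_pp_012_a : ∃ t, chk3 f_pp_012_a t 31 6 1 = true := ex3_a k50_pp_012_a k51_pp_012_a

theorem s74_pp_012_a : ∃ t, chk3 f_pp_012_a t 61 6 1 = true := ex3_b k48_pp_012_a k49_pp_012_a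

theorem s75_pp_012_a : ∃ t, chk3 f_pp_012_a t 121 6 1 = true := ex3_b k46_pp_012_a k47_pp_012_a

theorem s76_pp_012_a : ∃ t, chk3 f_pp_012_a t 120 6 1 = true := ex3_a k44_pp_012_a k45_pp_012_a

theorem s77_pp_012_a : ∃ t, chk3 f_pp_012_a t 60 6 1 = true := ex3_a s76_pp_012_a s75_pp_012_a

theorem s78_pp_012_a : ∃ t, chk3 f_pp_012_a t 30 6 1 = true := ex3_a s77_pp_012_a s74_pp_012_a

theorem s79_pp_012_a : ∃ t, chk3 f_pp_012_a t 15 6 1 = true := ex3_a s78_pp_012_a s73_pp_012_a

theorem s80_pp_012_a : ∃ t, chk3 f_pp_012_a t 15 3 1 = true := ex3_b s79_pp_012_a s72_pp_012_a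

theorem s81_pp_012_a : ∃ t, chk3 f_pp_012_a t 119 13 1 = true := ex3_b k41_pp_012_a k42_pp_012_a

theorem s82_pp_012_a : ∃ t, chk3 f_pp_012_a t 59 13 1 = true := ex3_a k40_pp_012_a s81_pp_012_a

theorem s83_pp_012_a : ∃ t, chk3 f_pp_012_a t 29 13 1 = true := ex3_a k39_pp_012_a s82_pp_012_a

theorem s84_pp_012_a : ∃ t, chk3 f_pp_012_a t 29 51 1 = true := ex3_a k37_pp_012_a k38_pp_012_a

theorem s85_pp_012_a : ∃ t, chk3 f_pp_012_a t 29 50 1 = true := ex3_b k35_pp_012_a k36_pp_012_a

theorem s86_pp_012_a : ∃ t, chk3 f_pp_012_a t 29 25 1 = true := ex3_b s85_pp_012_a s84_pp_012_a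

theorem s87_pp_012_a : ∃ t, chk3 f_pp_012_a t 58 24 1 = true := ex3_a k32_pp_012_a k33_pp_012_a

theorem s88_pp_012_a : ∃ t, chk3 f_pp_012_a t 29 24 1 = true := ex3_a s87_pp_012_a k34_pp_012_a

theorem s89_pp_012_a : ∃ t, chk3 f_pp_012_a t 29 12 1 = true := ex3_b s88_pp_012_a s86_pp_012_a

theorem s90_pp_012_a : ∃ t, chk3 f_pp_012_a t 29 6 1 = true := ex3_b s89_pp_012_a s83_pp_012_a

theorem s91_pp_012_a : ∃ t, chk3 f_pp_012_a t 14 6 1 = true := ex3_a k31_pp_012_a s90_pp_012_a

theorem s92_pp_012_a : ∃ t, chk3 f_pp_012_a t 14 3 1 = true := ex3_b s91_pp_012_a k43_pp_012_a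

theorem s93_pp_012_a : ∃ t, chk3 f_pp_012_a t 7 3 1 = true := ex3_a s92_pp_012_a s80_pp_012_a

theorem s94_pp_012_a : ∃ t, chk3 f_pp_012_a t 15 2 1 = true := ex3_c k29_pp_012_a k30_pp_012_a

theorem s95_pp_012_a : ∃ t, chk3 f_pp_012_a t 29 2 1 = true := ex3_a k27_pp_012_a k28_pp_012_a

theorem s96_pp_012_a : ∃ t, chk3 f_pp_012_a t 28 5 3 = true := ex3_b k25_pp_012_a k26_pp_012_a

theorem s97_pp_012_a : ∃ t, chk3 f_pp_012_a t 28 5 2 = true := ex3_b k23_pp_012_a k24_pp_012_a

theorem s98_pp_012_a : ∃ t, chk3 f_pp_012_a t 28 5 1 = true := ex3_c s97_pp_012_a s96_pp_012_a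

theorem s99_pp_012_a : ∃ t, chk3 f_pp_012_a t 28 2 1 = true := ex3_b k22_pp_012_a s98_pp_012_a

theorem s100_pp_012_a : ∃ t, chk3 f_pp_012_a t 14 2 1 = true := ex3_a s99_pp_012_a s95_pp_012_a

theorem s101_pp_012_a : ∃ t, chk3 f_pp_012_a t 7 2 1 = true := ex3_a s100_pp_012_a s94_pp_012_a

theorem s102_pp_012_a : ∃ t, chk3 f_pp_012_a t 7 1 1 = true := ex3_b s101_pp_012_a s93_pp_012_a

theorem s103_pp_012_a : ∃ t, chk3 f_pp_012_a t 27 10 3 = true := ex3_a k18_pp_012_a k19_pp_012_a

theorem s104_pp_012_a : ∃ t, chk3 f_pp_012_a t 27 10 2 = true := ex3_a k16_pp_012_a k17_pp_012_a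

theorem s105_pp_012_a : ∃ t, chk3 f_pp_012_a t 27 10 1 = true := ex3_c s104_pp_012_a s103_pp_012_a

theorem s106_pp_012_a : ∃ t, chk3 f_pp_012_a t 27 5 1 = true := ex3_b s105_pp_012_a k20_pp_012_a

theorem s107_pp_012_a : ∃ t, chk3 f_pp_012_a t 13 5 1 = true := ex3_a k15_pp_012_a s106_pp_012_a

theorem s108_pp_012_a : ∃ t, chk3 f_pp_012_a t 26 9 3 = true := ex3_b k12_pp_012_a k13_pp_012_a

theorem s109_pp_012_a : ∃ t, chk3 f_pp_012_a t 26 4 3 = true := ex3_b k11_pp_012_a s108_pp_012_a

theorem s110_pp_012_a : ∃ t, chk3 f_pp_012_a t 13 4 3 = true := ex3_a s109_pp_012_a k14_pp_012_a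

theorem s111_pp_012_a : ∃ t, chk3 f_pp_012_a t 52 4 2 = true := ex3_a k7_pp_012_a k8_pp_012_a

theorem s112_pp_012_a : ∃ t, chk3 f_pp_012_a t 26 4 2 = true := ex3_a s111_pp_012_a k9_pp_012_a

theorem s113_pp_012_a : ∃ t, chk3 f_pp_012_a t 13 4 2 = true := ex3_a s112_pp_012_a k10_pp_012_a

theorem s114_pp_012_a : ∃ t, chk3 f_pp_012_a t 13 4 1 = true := ex3_c s113_pp_012_a s110_pp_012_a

theorem s115_pp_012_a : ∃ t, chk3 f_pp_012_a t 13 2 1 = true := ex3_b s114_pp_012_a s107_pp_012_a

theorem s116_pp_012_a : ∃ t, chk3 f_pp_012_a t 51 4 1 = true := ex3_b k4_pp_012_a k5_pp_012_a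

theorem s117_pp_012_a : ∃ t, chk3 f_pp_012_a t 50 4 1 = true := ex3_a k2_pp_012_a k3_pp_012_a

theorem s118_pp_012_a : ∃ t, chk3 f_pp_012_a t 25 4 1 = true := ex3_a s117_pp_012_a s116_pp_012_a

theorem s119_pp_012_a : ∃ t, chk3 f_pp_012_a t 25 2 1 = true := ex3_b s118_pp_012_a k6_pp_012_a

theorem s120_pp_012_a : ∃ t, chk3 f_pp_012_a t 12 2 1 = true := ex3_a k1_pp_012_a s119_pp_012_a

theorem s121_pp_012_a : ∃ t, chk3 f_pp_012_a t 6 2 1 = true := ex3_a s120_pp_012_a s115_pp_012_a

theorem s122_pp_012_a : ∃ t, chk3 f_pp_012_a t 6 1 1 = true := ex3_b s121_pp_012_a k21_pp_012_a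

theorem s123_pp_012_a : ∃ t, chk3 f_pp_012_a t 3 1 1 = true := ex3_a s122_pp_012_a s102_pp_012_a

theorem s124_pp_012_a : ∃ t, chk3 f_pp_012_a t 1 1 1 = true := ex3_a k0_pp_012_a s123_pp_012_a

theorem c_pp_012_a : CertB 0 536870912 0 536870912 858993459 64424510 3 eng mog cd0q0 cd1q2a pd1 false true true .pnp 0 1 2
    ndB0q0 ndB1q2a pcB1 cut_pp_012_a Ext.none :=
  certB2 (fam := false) (s1 := true) (s2 := true) (a := 0) (b := 1) (c := 2) (cn := .pnp) (n1 := ndB0q0) (n2 := ndB1q2a) (pc := pcB1) (cut := cut_pp_012_a) (xt := Ext.none) (P1 := 0) (W1 := 536870912) (P2 := 0) (W2 := 536870912) (P3 := 858993459) (W3 := 64424510) (N0 := 3) (En := eng) (mo := mog) (C1 := cd0q0) (C2 := cd1q2a) (C3 := pd1)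
    rfl (fun _ => rfl) s124_pp_012_a

noncomputable def cut_pp_012_b : Cut := Cut.of [[⟨0, 0, 0, 67108864⟩, ⟨1, 1, 0, 67108864⟩, ⟨2, 1, 0, 67108864⟩]]

noncomputable def f_pp_012_b : ℕ → ℕ → ℕ → ℕ → Bool := onCell 536870912 536870912 1239849684 370763052 858993459 64424510
    (rowB 3 eng mog cd0q0 cd1q2b pd1 2 false true true .pnp 0 1 2 (qsf 0 536870912 1239849684 370763052 1) ndB0q0 ndB1q2b pcB1 cut_pp_012_b Ext.none)

def k0_pp_012_b : ∃ t, chk3 f_pp_012_b t 2 1 1 = true :=
  ⟨(b (a (l 2) (l 3)) (l 2)), by decide +kernel⟩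

def k1_pp_012_b : ∃ t, chk3 f_pp_012_b t 24 4 1 = true :=
  ⟨(a (l 3) (a (b (b (b (b (a (a (l 3) (c (c (l 93583228551) (l 97341340295)) (c (l 108078757287) (l 117205560007)))) (a (c (c (l 16734312) (l 16744888)) (c (l 16733504) (l 16731680))) (c (l 16732384) (a (l 16732520) (l 16732400))))) (a (l 3) (c (c (a (l 16726624) (l 16724328)) (l 16735792)) (c (l 16745264) (l 16732928))))) (a (l 3) (c (c (l 75329613591) (l 16733928)) (c (l 16732392) (l 16730088))))) (l 3)) (l 3)) (a (b (b (c (b (c (l 16729608) (a (l 16747864) (l 16746160))) (c (l 16730216) (l 16709656))) (c (b (b (l 16731576) (l 16722624)) (l 16709408)) (b (c (l 16727472) (l 16727536)) (l 16708544)))) (c (c (b (l 16694000) (l 16678728)) (l 16727464)) (b (c (l 16692376) (l 16690664)) (l 16675152)))) (l 3)) (b (b (c (c (b (b (l 16707608) (l 16715640)) (l 16704192)) (b (b (l 16726816) (l 16718488)) (l 16706144))) (c (b (b (l 16729920) (l 16720936)) (l 16707648)) (b (l 16727808) (l 16708720)))) (c (c (l 16723624) (l 16703000)) (b (l 16669360) (l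 16673112)))) (b (c (b (l 16659344) (l 3)) (l 16638792)) (l 3)))))), by decide +kernel⟩

def k2_pp_012_b : ∃ t, chk3 f_pp_012_b t 25 4 1 = true :=
  ⟨(a (b (c (c (b (a (a (b (b (l 16718640) (l 16710848)) (l 16699264)) (b (l 16689168) (l 16694480))) (b (b (l 16686520) (l 16699464)) (l 16687552))) (a (c (l 16694328) (l 16695632)) (l 16685248))) (b (b (a (a (l 16698336) (l 16716008)) (l 16679712)) (a (a (l 16702664) (l 16699232)) (l 16694184))) (a (b (l 16684576) (l 16668600)) (l 16690368)))) (c (b (a (b (b (l 16706344) (l 16718264)) (l 16704872)) (l 16730992)) (a (l 16720776) (l 16674600))) (b (a (b (b (l 16711728) (l 16722984)) (l 16708640)) (l 16717552)) (a (b (l 16690000) (l 16671960)) (l 16679888))))) (c (b (a (c (l 16687160) (l 16635264)) (c (l 16634584) (l 16637840))) (a (c (l 16639104) (l 16617224)) (c (l 16607552) (l 16608760)))) (b (a (b (l 16633272) (l 16617088)) (c (l 16641160) (l 16644544))) (a (c (l 16616160) (l 16614960)) (c (l 16610024) (l 16611328)))))) (a (b (c (c (b (b (l 16674104) (l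 16678792)) (l 16655016)) (b (l 16696264) (l 16662416))) (b (b (l 16720568) (l 16659712)) (b (l 16662192) (l 16665176)))) (c (b (a (l 16629496) (l 16625176)) (c (l 16596360) (l 16600224))) (b (a (l 16640184) (l 16638280)) (l 16585624)))) (b (c (a (b (l 16707144) (l 16610848)) (b (l 16682672) (l 16628016))) (b (c (l 16701936) (l 16714416)) (l 16607704))) (c (b (c (l 16615080) (l 16622768)) (c (l 16586024) (l 16592072))) (b (l 16614248) (l 16602056)))))), by decide +kernel⟩

def k3_pp_012_b : ∃ t, chk3 f_pp_012_b t 12 5 1 = true :=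
  ⟨(a (l 3) (b (a (a (l 3) (c (b (c (l 16583352) (l 16582512)) (l 16560848)) (b (c (l 16581672) (l 16580832)) (l 16554288)))) (c (b (a (c (l 16571440) (l 16573136)) (l 16582712)) (c (l 16606624) (l 16565008))) (b (a (l 16576152) (l 16571208)) (a (l 16547696) (l 16542192))))) (a (l 3) (a (b (c (l 16530584) (l 16521312)) (l 2)) (c (b (l 16518272) (l 16501224)) (b (l 16514672) (l 16488968))))))), by decide +kernel⟩

def k4_pp_012_b : ∃ t, chk3 f_pp_012_b t 13 2 1 = true :=
  ⟨(a (a (b (b (c (b (c (a (l 16618904) (l 16622296)) (l 16702112)) (a (b (l 16651816) (l 16635120)) (l 16573520))) (c (b (l 16695416) (l 16616336)) (b (l 16710552) (l 16671432)))) (b (c (a (l 16631848) (l 16603160)) (a (l 16630768) (l 16625936))) (c (a (l 16559096) (l 16571640)) (a (l 16597080) (l 16591680))))) (c (b (b (a (l 16551840) (l 16542400)) (c (l 16518944) (l 16524152))) (b (a (l 16505544) (l 16493576)) (a (l 16488144) (l 16474944)))) (b (b (a (l 16565664) (l 16559736)) (a (l 16536440) (l 16530080))) (b (l 16547544) (l 38218079287)))))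 (b (b (b (c (c (l 16654368) (l 16669696)) (a (l 16696864) (l 16692512))) (c (c (l 16577784) (l 16591392)) (l 16655496))) (b (c (a (l 16595792) (l 16588752)) (l 16555096)) (c (a (l 16563560) (l 16555976)) (l 16519920)))) (b (c (b (a (l 16533536) (l 16525032)) (a (l 16506144) (l 16496672))) (b (l 16508064) (l 16477728))) (c (b (l 16539744) (l 16477264)) (b (l 16491256) (l 16464584)))))) (b (b (a (b (c (l 16692704) (l 16685272)) (c (l 16614152) (l 16644912))) (c (b (l 16640664) (l 16603096)) (b (l 16673720) (l 16633016)))) (b (c (a (c (l 16572552) (l 16585384)) (l 16524744)) (a (l 16564344) (l 16551232))) (c (a (l 16482160) (l 16531744)) (c (l 16472520) (l 16506552))))) (b (c (a (a (b (l 16516968) (l 16487616)) (l 16577856)) (b (l 16498424) (l 16467016))) (a (b (l 16535640) (l 16503968)) (b (l 16519800) (l 16486816)))) (c (a (b (l 16456376) (l 16433008)) (b (l 16438240) (l 16412184))) (a (b (l 16474760) (l 16447488)) (b (l 16456280) (l 16428224))))))), by decide +kernel⟩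

def k5_pp_012_b : ∃ t, chk3 f_pp_012_b t 6 3 1 = true :=
  ⟨(a (l 2) (b (b (b (a (c (a (l 16507960) (l 16459896)) (a (l 16516816) (l 16439112))) (a (c (l 16413488) (l 16421872)) (c (l 16389992) (l 16401952)))) (a (l 2) (c (a (l 16397016) (l 16371504)) (a (l 16397512) (l 16377440))))) (a (l 2) (a (l 2) (a (l 2) (b (l 16348840) (l 2)))))) (l 2))), by decide +kernel⟩

def k6_pp_012_b : ∃ t, chk3 f_pp_012_b t 7 2 1 = true :=
  ⟨(a (b (a (a (b (a (c (l 16614632) (l 16644264)) (c (l 16610144) (l 16637648))) (c (c (l 16469624) (l 16479808)) (l 16559024))) (c (b (l 16645776) (b (l 16545584) (l 16508384))) (b (l 16627416) (l 16542808)))) (a (b (c (l 16596432) (l 16613096)) (c (l 16517440) (l 16463240))) (b (c (l 16590840) (l 16598280)) (c (l 16509640) (l 16445776))))) (a (c (b (a (b (l 16485000) (l 16452288)) (b (l 16472672) (l 16438568))) (b (a (l 16421552) (l 16406296)) (a (l 16393480) (l 16376432)))) (b (a (l 16380392) (l 16424640)) (a (l 16316600) (l 16399744)))) (c (b (a (l 16380832) (l 16391816)) (a (l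 16355424) (l 16364256))) (a (b (l 16426096) (l 16377264)) (b (l 16427024) (l 16354496)))))) (b (a (b (a (b (c (l 16593344) (l 16606616)) (l 16562240)) (c (l 16594016) (b (l 16589520) (l 16539928)))) (c (a (l 16503360) (l 16498304)) (a (l 16427080) (l 16469488)))) (c (b (a (b (l 16558424) (l 16552056)) (b (l 16454552) (l 16533352))) (a (l 16495224) (l 16494576))) (b (a (b (l 16570944) (l 16520360)) (b (l 16551904) (l 16500096))) (b (a (l 16450312) (l 16449880)) (l 16266112))))) (a (b (c (l 16421616) (a (l 16405824) (l 16382568))) (c (a (l 16353184) (l 16343480)) (a (l 16330136) (l 16304016)))) (b (a (c (l 16412704) (l 16357928)) (a (l 16376496) (l 16286272))) (c (l 16332864) (a (l 16276464) (l 16248528))))))), by decide +kernel⟩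

def k7_pp_012_b : ∃ t, chk3 f_pp_012_b t 7 3 1 = true :=
  ⟨(a (b (a (a (b (c (b (l 16368688) (l 16347936)) (l 16304304)) (c (l 16448232) (l 16320128))) (b (c (l 16400000) (l 16343280)) (c (l 16297264) (l 16294976)))) (b (c (a (l 16381592) (l 16302440)) (a (l 16318088) (l 16291920))) (c (a (l 16273992) (l 16252424)) (a (l 16267832) (l 16239880))))) (a (l 2) (b (c (b (l 16236736) (l 16222728)) (a (l 16225312) (l 16195864))) (l 2)))) (b (a (a (b (c (l 16288240) (l 16264512)) (c (l 16233752) (l 16209808))) (b (l 16403016) (b (l 16211288) (l 16184824)))) (a (b (l 16341224) (l 16237024)) (b (a (l 16221864) (l 16296696)) (l 16277536)))) (a (b (c (l 16350592) (l 16251624)) (a (l 2) (l 16283040))) (b (c (l 16228032) (l 16115296)) (c (l 16126672) (l 16030480)))))), by decide +kernel⟩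

theorem s8_pp_012_b : ∃ t, chk3 f_pp_012_b t 7 1 1 = true := ex3_b k6_pp_012_b k7_pp_012_b

theorem s9_pp_012_b : ∃ t, chk3 f_pp_012_b t 12 4 1 = true := ex3_a k1_pp_012_b k2_pp_012_b

theorem s10_pp_012_b : ∃ t, chk3 f_pp_012_b t 12 2 1 = true := ex3_b s9_pp_012_b k3_pp_012_b

theorem s11_pp_012_b : ∃ t, chk3 f_pp_012_b t 6 2 1 = true := ex3_a s10_pp_012_b k4_pp_012_b

theorem s12_pp_012_b : ∃ t, chk3 f_pp_012_b t 6 1 1 = true := ex3_b s11_pp_012_b k5_pp_012_b

theorem s13_pp_012_b : ∃ t, chk3 f_pp_012_b t 3 1 1 = true := ex3_a s12_pp_012_b s8_pp_012_b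

theorem s14_pp_012_b : ∃ t, chk3 f_pp_012_b t 1 1 1 = true := ex3_a k0_pp_012_b s13_pp_012_b

theorem c_pp_012_b : CertB 0 536870912 1239849684 370763052 858993459 64424510 3 eng mog cd0q0 cd1q2b pd1 false true true .pnp 0 1 2
    ndB0q0 ndB1q2b pcB1 cut_pp_012_b Ext.none :=
  certB2 (fam := false) (s1 := true) (s2 := true) (a := 0) (b := 1) (c := 2) (cn := .pnp) (n1 := ndB0q0) (n2 := ndB1q2b) (pc := pcB1) (cut := cut_pp_012_b) (xt := Ext.none) (P1 := 0) (W1 := 536870912) (P2 := 1239849684) (W2 := 370763052) (P3 := 858993459) (W3 := 64424510) (N0 := 3) (En := eng) (mo := mog) (C1 := cd0q0) (C2 := cd1q2b) (C3 := pd1)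
    rfl (fun _ => rfl) s14_pp_012_b

noncomputable def cut_pp_022_a : Cut := Cut.of [[⟨0, 0, 0, 67108864⟩, ⟨1, 1, 0, 67108864⟩, ⟨2, 1, 0, 67108864⟩]]

noncomputable def f_pp_022_a : ℕ → ℕ → ℕ → ℕ → Bool := onCell 1073741824 536870912 0 536870912 858993459 64424510
    (rowB 3 eng mog cd0q0 cd1q2a pd2 2 false true true .pp 0 2 2 (qsf 0 536870912 0 536870912 2) ndB0q0 ndB1q2a pcB2 cut_pp_022_a Ext.none)

def k0_pp_022_a : ∃ t, chk3 f_pp_022_a t 8 2 1 = true :=
  ⟨(c (b (a (b (a (b (l 16480792) (a (l 16487208) (l 16543008))) (l 16546408)) (a (a (b (l 16480904) (l 16476200)) (l 16473416)) (l 16484696))) (a (b (l 16513680) (l 16531408)) (b (l 16479120) (l 16429760)))) (a (b (a (c (b (l 16488360) (l 16486536)) (b (l 16453424) (l 16451368))) (b (l 16556464) (l 16535888))) (b (a (a (l 16502376) (l 16529808)) (l 16495120)) (a (a (b (l 16508824) (a (l 16503224) (l 16513624))) (a (l 16503104) (l 16534304))) (a (l 16528528) (l 16569264))))) (a (b (c (l 16552624) (l 16556032)) (b (l 16575592) (l 16592464))) (b (b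 (l 16505304) (l 16494416)) (a (l 16588400) (b (l 16514496) (l 16527160))))))) (b (a (b (a (a (b (l 16472168) (a (l 16496016) (l 16507328))) (l 16466616)) (l 16496848)) (a (a (b (a (l 16485976) (l 16497936)) (a (l 16457416) (l 16490984))) (b (l 16494416) (l 16509392))) (a (l 16514640) (l 16557560)))) (b (a (l 16516584) (l 16470376)) (a (l 16538616) (l 16445592)))) (a (b (a (b (a (c (l 16489032) (l 16449064)) (l 16505640)) (a (a (l 16448888) (l 16483696)) (l 16503992))) (c (l 16504888) (l 16476192))) (b (a (a (a (l 16468616) (l 16483072)) (l 16504304)) (l 16461736)) (a (a (a (c (l 16478208) (l 16460136)) (l 16463320)) (a (l 16478184) (l 16513880))) (a (l 16535792) (l 16564464))))) (b (a (l 16519656) (a (l 16518880) (l 16489256))) (a (b (l 16579472) (l 16591696)) (c (l 16460976) (l 16453640))))))), by decide +kernel⟩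

def k1_pp_022_a : ∃ t, chk3 f_pp_022_a t 8 6 2 = true :=
  ⟨(a (a (b (b (c (a (l 16530064) (l 16547320)) (a (l 16518736) (l 16540008))) (b (c (a (l 16548808) (l 16565944)) (l 16551080)) (a (l 16559696) (l 16578560)))) (b (a (b (a (l 16570088) (l 16579520)) (a (l 16585368) (l 16594696))) (b (l 16593496) (l 16608496))) (b (a (c (l 16588848) (l 16603448)) (l 16623528)) (a (a (c (l 16617616) (l 16614416)) (l 16625104)) (c (l 16637912) (l 16639152)))))) (b (b (a (c (l 16564424) (l 16561160)) (l 16581608)) (b (l 16528720) (l 16543184))) (b (c (b (l 16619104) (l 16612200)) (l 16567096)) (a (b (l 16641168) (l 16634808)) (b (l 16658184) (l 16664160)))))) (a (b (b (a (l 16599944) (l 16593440)) (b (l 16589800) (l 16591384))) (b (c (l 16556840) (l 16547464)) (a (b (l 16632776) (l 16614736)) (c (l 16570528) (l 16556176))))) (a (b (b (l 16577120) (b (l 16570104) (l 16571000))) (b (c (l 16580256) (l 16564992)) (b (l 16585720) (c (l 16586784) (l 16567360))))) (b (b (b (l 16537688) (l 16540968)) (c (l 16550624) (l 16533824)))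 (b (b (l 16543424) (l 16544432)) (b (c (l 16556472) (l 16534528)) (c (a (l 16566040) (l 16552112)) (a (l 16543344) (l 16527168))))))))), by decide +kernel⟩

def k2_pp_022_a : ∃ t, chk3 f_pp_022_a t 8 6 3 = true :=
  ⟨(a (b (b (a (a (b (l 16491272) (l 16509568)) (l 16528344)) (b (l 16477432) (l 16536352))) (a (a (b (l 16516944) (l 16523592)) (b (l 16554752) (l 16571528))) (b (l 16532320) (l 16569504)))) (b (a (a (b (c (l 16565288) (l 16558696)) (a (l 16573168) (l 16586344))) (b (l 16588616) (l 16606008))) (b (l 16565048) (l 16581880))) (b (a (a (c (l 16578728) (l 16595968)) (l 16602712)) (l 16588544)) (a (a (a (c (l 16611296) (l 16608240)) (l 16601584)) (l 16599720)) (b (l 16602240) (l 16602400)))))) (a (b (b (a (l 16610680) (l 16581160)) (c (l 16579048) (l 16570240))) (c (b (l 16537056) (a (l 16596400) (l 16561408))) (b (l 16525616) (a (l 16583824) (l 16565256))))) (b (b (a (l 16483360) (b (l 16511464) (l 16509448))) (c (b (l 16533304) (l 16532200)) (l 16431112))) (a (b (b (l 16540136) (l 16538472))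 (b (l 16536720) (a (l 16544624) (l 16504208)))) (b (b (l 16502376) (l 16500176)) (b (c (l 16510608) (l 16484720)) (c (a (l 16518632) (l 16500048)) (a (l 16491920) (l 16470752))))))))), by decide +kernel⟩

def k3_pp_022_a : ∃ t, chk3 f_pp_022_a t 16 7 1 = true :=
  ⟨(b (b (b (a (a (a (c (c (a (l 16630032) (l 16634112)) (l 16630480)) (c (l 16629088) (l 16627896))) (c (c (l 16640152) (l 16640296)) (l 16646992))) (c (b (l 16628616) (l 16614992)) (c (l 16637120) (l 16640912)))) (c (c (l 16617928) (l 16636424)) (c (l 16607096) (l 16576904)))) (b (b (a (a (c (a (c (l 16641352) (l 16640720)) (l 16649816)) (c (l 16625200) (l 16647080))) (c (l 16620800) (l 16629544))) (c (a (l 16658408) (l 16670216)) (c (l 16628768) (l 16597328)))) (l 6)) (l 6))) (l 6)) (l 6)), by decide +kernel⟩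

def k4_pp_022_a : ∃ t, chk3 f_pp_022_a t 17 7 1 = true :=
  ⟨(a (b (b (b (c (a (b (l 16596216) (l 16587496)) (c (l 16618008) (l 16600832))) (a (c (l 16617880) (l 16602176)) (c (l 16582064) (l 16561704)))) (b (a (c (a (l 16648248) (l 16633488)) (c (l 16617832) (l 16600768))) (c (a (l 16618624) (l 16603656)) (a (l 16580664) (l 16550704)))) (l 6))) (l 6)) (l 6)) (b (a (b (b (c (c (a (l 16597232) (l 16583280)) (a (l 16576880) (l 16560752))) (c (b (l 16545656) (l 16524376)) (b (l 16521016) (l 16498528)))) (b (b (c (a (l 16588784) (l 16565792)) (c (l 16526656) (l 16497400))) (l 6)) (l 6))) (l 6)) (b (b (c (a (c (b (l 16568392) (l 16570144)) (b (l 16544184) (l 16544864))) (c (b (l 16554344) (a (l 16559560) (l 16552480))) (b (l 16527872) (a (l 16532576) (l 16524352))))) (a (b (c (l 16517856) (l 16489416)) (c (l 16517384) (l 16487728))) (c (b (l 16499120) (a (l 16503280) (l 16493824))) (b (l 16468080) (a (l 16471664) (l 16460888)))))) (b (b (c (c (a (l 16571152) (a (l 16560520) (l 16553416))) (a (l 16545160)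 (a (l 16532824) (l 16524568)))) (a (c (l 16516928) (l 16486464)) (c (a (l 16502768) (l 16488032)) (a (l 16470344) (l 16464776))))) (a (l 6) (a (l 6) (a (l 6) (l 1))))) (a (l 6) (a (l 6) (l 1))))) (a (l 6) (l 1)))) (l 1))), by decide +kernel⟩

def k5_pp_022_a : ∃ t, chk3 f_pp_022_a t 18 2 1 = true :=
  ⟨(b (c (b (a (l 16421536) (l 16383376)) (a (l 16451616) (l 16387872))) (b (a (l 16421184) (l 16348424)) (a (l 16433104) (c (l 16384600) (l 16366656))))) (c (b (a (c (l 16468496) (l 16459064)) (b (l 16413720) (l 16397088))) (a (b (c (l 16482008) (l 16469944)) (c (l 16493688) (l 16478584))) (b (c (l 16433408) (l 16413288)) (c (a (l 16455136) (l 16429128)) (l 16397448))))) (a (b (c (l 16448736) (l 16437504)) (b (l 16449680) (c (l 16462024) (l 16444008)))) (b (b (l 16357816) (l 16358728)) (c (b (l 16391360) (l 16371576)) (b (l 16367616) (l 16343568))))))), by decide +kernel⟩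

def k6_pp_022_a : ∃ t, chk3 f_pp_022_a t 19 2 1 = true :=
  ⟨(b (c (b (a (a (l 16375088) (l 16355376)) (a (l 16333936) (l 16311584))) (a (c (l 16375928) (l 16353488)) (c (l 16330120) (l 16303008)))) (a (b (l 16294328) (a (l 16331136) (l 16300664))) (b (l 16346496) (c (l 16273632) (l 16241992))))) (b (c (a (a (l 16399976) (a (l 16360424) (l 16347864))) (c (b (l 16327120) (l 16326288)) (b (l 16298648) (l 16295808)))) (a (b (a (l 16330368) (l 16297384)) (a (l 16328448) (l 16293608))) (c (b (l 16267904) (l 16262928)) (b (l 16234872) (l 16227656))))) (c (a (b (c (a (l 16396464) (l 16371544)) (l 16397056)) (a (c (l 16402944) (l 16372312)) (c (b (l 16375056) (l 16378048)) (b (l 16340896) (l 16341472))))) (b (a (c (l 16342400) (l 16309272)) (c (l 16310960) (l 16277184))) (a (c (b (l 16344472) (l 16346464)) (b (l 16308376) (l 16307984))) (c (b (l 16311424) (l 117607382487)) (b (l 16274832) (l 16273440)))))) (c (b (a (l 16344680) (a (l 16273448) (l 16240864))) (a (a (l 16338984) (l 16323696)) (a (b (l 16269328)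 (l 16266352)) (b (l 16235472) (l 16231616))))) (a (b (a (l 16309488) (l 16270008)) (a (l 16302960) (l 16282216))) (b (a (l 16234912) (l 16202000)) (a (b (l 16227320) (l 16221552)) (l 145524455591)))))))), by decide +kernel⟩

def k7_pp_022_a : ∃ t, chk3 f_pp_022_a t 18 12 1 = true :=
  ⟨(a (c (b (c (b (l 16504016) (l 16508568)) (b (l 16485896) (l 16487936))) (c (b (l 16510048) (l 16510424)) (b (l 16487440) (l 16476104)))) (b (c (b (l 16466000) (l 16465288)) (b (l 16444336) (l 16440648))) (c (b (l 16462688) (l 16439592)) (b (l 16435792) (l 16432344))))) (c (c (b (b (l 16431864) (a (l 16468288) (l 16440960))) (b (a (l 16469136) (l 16441512)) (a (l 16468800) (a (l 16447792) (l 16433728))))) (b (b (l 16402056) (a (l 16440800) (l 16408664))) (b (a (l 16439688) (l 16407240)) (a (l 16438136) (a (l 16413536) (l 16397016)))))) (b (a (b (l 16397328) (c (l 16410760) (l 16378184))) (b (l 16399656) (c (l 16373440) (l 16335304)))) (b (c (a (l 16407560) (l 16369928)) (a (l 16372752) (l 16329568))) (a (c (l 16404752)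 (l 16368656)) (c (a (l 16376296) (l 16357136)) (l 16346064))))))), by decide +kernel⟩

def k8_pp_022_a : ∃ t, chk3 f_pp_022_a t 19 12 1 = true :=
  ⟨(a (c (b (a (b (c (l 16409240) (l 16374840)) (c (b (l 16412776) (l 16413920)) (b (l 16376216) (l 16375944)))) (b (c (a (l 16388624) (l 16374600)) (a (l 16350496) (l 16334104))) (c (a (b (l 16391824) (l 16393056)) (b (l 16377520) (a (l 16382576) (l 16375080)))) (a (b (l 16351456) (l 16351224)) (b (l 16334728) (a (l 16338784) (l 16330280))))))) (a (b (c (b (l 16413960) (l 16413344)) (c (l 16384512) (l 16364024))) (c (a (l 181495218631) (l 138545513751)) (c (a (l 16390520) (l 143914166823)) (l 154114681767)))) (b (b (a (c (l 16392984) (l 16350144)) (c (a (l 16382440) (l 16374912)) (l 135324145927))) (a (c (l 16392240) (l 16348840)) (l 1))) (a (c (l 83247777735) (l 88079535911)) (l 1))))) (b (a (b (c (l 16337392) (l 16296896)) (c (b (l 16336408) (l 16334608)) (b (l 16293352) (l 16289904)))) (b (a (l 16329000) (c (l 16290096) (l 16242592))) (c (a (b (l 16307544)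 (l 16305728)) (b (l 16288224) (l 199211733239))) (a (l 16258304) (b (l 16238008) (l 16255384)))))) (a (b (c (b (l 16332576) (l 16330808)) (b (l 16286744) (l 16284384))) (c (a (l 212633599607) (l 156798988375)) (a (l 16291920) (l 165388824951)))) (b (b (a (c (l 16303584) (l 16253304)) (c (l 146598376007) (l 155725083015))) (a (c (l 16301704) (l 16250840)) (l 1))) (a (c (l 112775534503) (l 115459788071)) (l 1)))))) (b (b (c (a (c (a (l 16357808) (l 328060830039)) (a (l 16316688) (l 16298936))) (c (l 273836821271) (l 275984238615))) (a (c (a (l 16272112) (l 16254352)) (l 149282595159)) (c (l 288869055367) (l 299069506743)))) (a (a (c (c (b (l 16360312) (l 158946527623)) (b (l 16316928) (l 185789989607))) (c (b (l 16269880) (l 218539047319)) (l 319470685623))) (l 1)) (l 1))) (l 1))), by decide +kernel⟩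

def k9_pp_022_a : ∃ t, chk3 f_pp_022_a t 9 26 1 = true :=
  ⟨(b (a (a (c (a (l 16503400) (c (l 16497040) (l 16469624))) (a (l 16442648) (c (l 16439776) (l 16407512)))) (c (a (c (a (l 16475848) (l 16461664)) (a (l 16445000) (l 16428464))) (c (a (l 16447432) (b (l 16433280) (l 16433080))) (a (b (l 16412248) (l 16411440)) (b (l 16395584) (l 141766725223))))) (a (c (a (l 16411472) (l 16392408)) (l 16364400)) (a (c (l 16373200) (l 16331536)) (c (l 180421374807) (l 187937479431)))))) (a (a (a (c (c (b (l 16419032) (l 16418744)) (b (l 131566146215) (l 16383104))) (c (l 129955469175) (l 134250346391))) (l 1)) (l 1)) (l 1))) (a (a (c (a (c (l 16526432) (l 16501864)) (c (a (l 16504984) (l 16490640)) (a (l 16477168) (l 16460576)))) (a (c (l 16475112) (l 16446176)) (c (a (l 16446920) (l 16427936)) (l 16424472)))) (c (a (c (a (l 16476256) (b (l 16461768) (l 16461952))) (a (l 16453080) (b (l 16427464) (l 167536591735)))) (a (c (b (l 16447384) (l 81100402535)) (b (l 155188529383) (l 89690273207))) (a (c (l 67678608247)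 (l 74120992359)) (l 1)))) (a (c (a (l 16408808) (b (l 16390264) (l 16388848))) (a (l 16370952) (b (l 16350152) (l 16347888)))) (c (a (b (l 16370920) (l 102038241607)) (l 86468949607)) (a (l 152504034071) (l 96132546327)))))) (l 1))), by decide +kernel⟩

def k10_pp_022_a : ∃ t, chk3 f_pp_022_a t 9 27 1 = true :=
  ⟨(a (b (a (c (a (c (a (l 16535408) (l 16520856)) (a (l 16510192) (l 16493520))) (c (a (l 16506280) (b (l 16491376) (l 16492008))) (a (l 16482016) (b (l 16460088) (l 183642779799))))) (a (c (a (l 16482752) (l 16463832)) (a (l 16453112) (l 16431776))) (c (a (l 16444760) (b (l 16426144) (l 16424984))) (a (l 16410224) (b (l 16389560) (l 16387424)))))) (b (a (c (c (a (l 16476824) (l 90227235015)) (a (l 176663427783) (l 99890851175))) (a (c (l 16406864) (l 16367664)) (c (l 111165078119) (l 123513035687)))) (l 1)) (a (a (c (c (l 97743454759) (l 108480816247)) (c (l 120291914183) (l 133713621415))) (l 1)) (l 1)))) (a (c (a (c (a (l 16537712) (b (l 16522320) (l 16523456))) (a (b (l 16510472) (l 16510760))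 (b (l 16493608) (a (l 16498024) (l 16489512))))) (b (c (a (l 16507544) (l 104185932951)) (a (a (l 16480920) (l 16472432)) (c (l 16468208) (l 16450984)))) (a (a (c (l 16512280) (l 16480984)) (c (l 16504824) (l 16471792))) (l 1)))) (b (a (a (l 16476720) (a (l 16451040) (l 16440856))) (a (c (l 16443216) (l 16407152)) (c (l 127271266631) (l 141766723751)))) (a (c (a (l 16480792) (a (l 16466392) (l 16456744))) (a (l 16448464) (a (l 16432288) (l 16421440)))) (a (c (a (l 16447072) (l 16437376)) (l 131566214727)) (l 1))))) (l 1))) (l 1)), by decide +kernel⟩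

def k11_pp_022_a : ∃ t, chk3 f_pp_022_a t 9 7 1 = true :=
  ⟨(a (a (a (b (b (a (a (b (c (b (c (l 16543544) (l 16515416)) (c (l 16545136) (l 122439589271))) (b (c (l 16484888) (l 16451960)) (c (l 127808238343) (l 157872969591)))) (a (b (c (c (l 16547720) (l 16512720)) (c (l 32245214039) (l 16458832))) (l 1)) (l 1))) (b (c (b (c (l 16536016) (l 16506872)) (c (l 16537544) (l 95596026663))) (b (c (l 16475248) (l 16441160)) (c (l 107943995543) (l 124050082583)))) (l 1))) (b (a (c (b (c (l 16528496) (l 127808268519)) (c (l 16529952) (l 16498696))) (b (c (l 135324400503) (l 167536617127)) (c (l 16462208) (l 16440144)))) (b (c (c (l 16520976) (l 93448512759)) (c (l 105796481111) (l 121902569303))) (l 1))) (l 1))) (l 1)) (l 1)) (b (a (a (b (b (b (c (c (l 16513456) (l 16481152)) (c (l 16446160) (l 16408488))) (l 1)) (l 1)) (l 1)) (l 1)) (l 1)) (l 1))) (l 1)) (l 1)), by decide +kernel⟩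

def k12_pp_022_a : ∃ t, chk3 f_pp_022_a t 5 1 1 = true :=
  ⟨(b (a (b (b (a (c (a (a (l 16289232) (l 16266944)) (a (l 16286704) (b (l 16227936) (l 16217768)))) (a (c (l 16228672) (l 16192568)) (a (l 16171624) (l 16187088)))) (l 1)) (a (c (a (a (l 16341520) (b (l 16256560) (l 16249672))) (a (b (l 16231936) (l 16223336)) (b (l 16207544) (l 221760203031)))) (c (a (l 16218584) (b (l 16167368) (l 16158568))) (a (l 16184360) (a (l 16140352) (l 16110552))))) (l 1))) (a (a (a (b (c (b (l 16271064) (l 16266480)) (b (l 16206600) (l 16198392))) (b (c (b (l 16263424) (l 132102814439)) (c (l 16208064) (l 16168776))) (c (c (l 297995948407) (l 297995898903)) (c (l 302290782135) (l 303364434167))))) (b (c (b (l 16242928) (l 16257456)) (b (l 16176216) (l 142840121015))) (a (b (c (l 323765681239) (l 317323159207)) (l 1)) (l 1)))) (a (b (c (b (l 16256760) (l 107406658647)) (b (l 16145664) (l 121902093575))) (l 1)) (l 1))) (l 1))) (l 1)) (b (l 1) (l 1))), by decide +kernel⟩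

def k13_pp_022_a : ∃ t, chk3 f_pp_022_a t 3 1 1 = true :=
  ⟨(l 1), by decide +kernel⟩

theorem s14_pp_022_a : ∃ t, chk3 f_pp_022_a t 9 13 1 = true := ex3_b k9_pp_022_a k10_pp_022_a

theorem s15_pp_022_a : ∃ t, chk3 f_pp_022_a t 9 12 1 = true := ex3_a k7_pp_022_a k8_pp_022_a

theorem s16_pp_022_a : ∃ t, chk3 f_pp_022_a t 9 6 1 = true := ex3_b s15_pp_022_a s14_pp_022_a

theorem s17_pp_022_a : ∃ t, chk3 f_pp_022_a t 9 3 1 = true := ex3_b s16_pp_022_a k11_pp_022_a

theorem s18_pp_022_a : ∃ t, chk3 f_pp_022_a t 9 2 1 = true := ex3_a k5_pp_022_a k6_pp_022_a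

theorem s19_pp_022_a : ∃ t, chk3 f_pp_022_a t 9 1 1 = true := ex3_b s18_pp_022_a s17_pp_022_a

theorem s20_pp_022_a : ∃ t, chk3 f_pp_022_a t 8 7 1 = true := ex3_a k3_pp_022_a k4_pp_022_a

theorem s21_pp_022_a : ∃ t, chk3 f_pp_022_a t 8 6 1 = true := ex3_c k1_pp_022_a k2_pp_022_a

theorem s22_pp_022_a : ∃ t, chk3 f_pp_022_a t 8 3 1 = true := ex3_b s21_pp_022_a s20_pp_022_a

theorem s23_pp_022_a : ∃ t, chk3 f_pp_022_a t 8 1 1 = true := ex3_b k0_pp_022_a s22_pp_022_a

theorem s24_pp_022_a : ∃ t, chk3 f_pp_022_a t 4 1 1 = true := ex3_a s23_pp_022_a s19_pp_022_a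

theorem s25_pp_022_a : ∃ t, chk3 f_pp_022_a t 2 1 1 = true := ex3_a s24_pp_022_a k12_pp_022_a

theorem s26_pp_022_a : ∃ t, chk3 f_pp_022_a t 1 1 1 = true := ex3_a s25_pp_022_a k13_pp_022_a

theorem c_pp_022_a : CertB 0 536870912 0 536870912 858993459 64424510 3 eng mog cd0q0 cd1q2a pd2 false true true .pp 0 2 2
    ndB0q0 ndB1q2a pcB2 cut_pp_022_a Ext.none :=
  certB2 (fam := false) (s1 := true) (s2 := true) (a := 0) (b := 2) (c := 2) (cn := .pp) (n1 := ndB0q0) (n2 := ndB1q2a) (pc := pcB2) (cut := cut_pp_022_a) (xt := Ext.none) (P1 := 0) (W1 := 536870912) (P2 := 0) (W2 := 536870912) (P3 := 858993459) (W3 := 64424510) (N0 := 3) (En := eng) (mo := mog) (C1 := cd0q0) (C2 := cd1q2a) (C3 := pd2)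
    rfl (fun _ => rfl) s26_pp_022_a

noncomputable def cut_pp_022_b : Cut := Cut.of [[⟨0, 0, 0, 67108864⟩, ⟨1, 1, 0, 67108864⟩, ⟨2, 1, 0, 67108864⟩]]

noncomputable def f_pp_022_b : ℕ → ℕ → ℕ → ℕ → Bool := onCell 0 536870912 1073741824 536870912 858993459 64424510
    (rowB 3 eng mog cd0q0 cd1q2b pd2 1 false true true .pp 0 2 2 (qsf 0 536870912 1239849684 370763052 2) ndB0q0 ndB1q2b pcB2 cut_pp_022_b Ext.none)

def k0_pp_022_b : ∃ t, chk3 f_pp_022_b t 8 2 1 = true :=
  ⟨(b (b (l 1) (b (b (l 1) (a (l 1) (a (l 1) (c (l 16486952) (l 168073263207))))) (b (a (l 1) (c (a (l 137471835207) (l 87542860455)) (a (l 205654323703) (l 110628206071)))) (a (a (l 1) (c (l 147672292503) (l 416644443383))) (c (a (l 16368904) (l 16330992)) (a (l 16327352) (l 16278520))))))) (b (a (b (c (b (a (c (l 16301176) (l 16261936)) (l 63920400711)) (a (c (l 16262312) (l 16225616)) (l 16250296))) (b (a (l 417718066135) (l 124049746535)) (a (c (l 16185896) (l 16143152)) (l 16182776)))) (c (b (a (l 16213160) (l 16220208)) (l 16189312))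 (c (a (l 16136048) (l 16151744)) (a (l 16089528) (l 16111216))))) (b (c (b (l 16314232) (l 16259848)) (b (l 16280600) (l 16206880))) (c (l 16279864) (l 16136688)))) (c (a (b (c (l 16171208) (l 16129648)) (l 16209216)) (b (l 16165912) (l 16119360))) (b (a (c (l 16083720) (a (l 16021688) (l 16044992))) (l 16075904)) (a (c (l 16031016) (l 15975424)) (l 16043608)))))), by decide +kernel⟩

def k1_pp_022_b : ∃ t, chk3 f_pp_022_b t 9 2 1 = true :=
  ⟨(a (b (b (a (l 1) (a (l 1) (b (l 1) (c (l 223907981271) (l 233034743991))))) (b (c (b (a (l 16424816) (l 16418352)) (a (l 16382480) (l 16404648))) (b (a (l 16385640) (l 16393872)) (a (l 16344816) (l 16374104)))) (c (b (l 16349728) (l 16336704)) (b (l 16309720) (l 16295512))))) (b (b (c (b (l 16302840) (l 16270808)) (l 16248152)) (c (l 16229040) (l 16185944))) (c (b (l 16178640) (l 16131920)) (b (l 16127744) (l 16076272))))) (b (b (b (a (l 1) (b (l 1) (c (l 16544968) (l 16548120)))) (c (a (b (l 222297472823) (l 16473736)) (c (l 173442147815) (l 129418718887))) (a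 (c (l 249140917431) (l 258267695479)) (b (l 16484240) (l 16463072))))) (b (c (b (l 16416544) (l 16404384)) (b (l 16421248) (l 16381792))) (c (b (l 16372440) (l 16339848)) (l 16264280)))) (b (c (b (l 16291992) (l 16236096)) (b (l 16265072) (l 16205544))) (c (l 16162424) (l 16061400))))), by decide +kernel⟩

def k2_pp_022_b : ∃ t, chk3 f_pp_022_b t 5 2 1 = true :=
  ⟨(c (b (b (b (a (a (b (a (l 16534352) (b (l 16515240) (l 16541288))) (a (l 16537176) (l 16530664))) (b (a (l 16497840) (l 16430760)) (l 16479264))) (a (b (a (l 16438240) (l 16404960)) (l 16391608)) (b (l 16356696) (l 16350032)))) (a (a (l 16533600) (l 16459600)) (a (l 16396264) (l 16316112)))) (a (a (b (l 16415200) (l 16352880)) (b (l 16407656) (l 16347904))) (b (l 16361848) (l 16310216)))) (a (b (b (l 16291016) (l 16237496)) (l 16163840)) (b (l 16359408) (l 16151088)))) (b (b (a (a (a (b (b (l 208338918215) (l 16546776)) (l 16483232)) (b (b (a (l 258804748631) (b (l 16496488) (l 16518432))) (l 16528424)) (l 16481928))) (b (b (b (a (l 16446408)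 (l 16449864)) (a (l 16489896) (l 16452048))) (l 16472856)) (l 16472856))) (b (a (b (b (l 16435152) (l 16396376)) (l 16400168)) (b (l 16322592) (l 16330592))) (a (l 16404016) (l 16317488)))) (a (a (b (l 16404624) (l 16334552)) (b (l 16406512) (l 16340576))) (b (l 16370512) (l 16346504)))) (a (b (a (l 16099176) (l 16256040)) (l 16189328)) (b (l 16268224) (l 16173040))))), by decide +kernel⟩

def k3_pp_022_b : ∃ t, chk3 f_pp_022_b t 3 2 1 = true :=
  ⟨(a (b (b (a (b (a (c (l 16292912) (l 16301992)) (c (l 16235152) (l 16197352))) (c (a (l 16281120) (l 16228376)) (l 16080416))) (b (c (a (l 16180376) (l 16128864)) (a (l 16138904) (l 16084904))) (a (c (l 16178992) (l 16167392)) (l 16168688)))) (a (b (a (l 16273416) (l 16160936)) (l 16362016)) (c (l 16187424) (l 16212480)))) (b (a (c (l 16178152) (l 16225888)) (c (l 16116328) (l 16159040))) (a (c (l 16087464) (l 16166600)) (l 16249016)))) (b (a (b (c (b (l 16227312) (l 16073336)) (b (l 16160752) (l 16057432))) (c (b (l 16079960) (l 16080992)) (b (l 16091048)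 (l 16112048)))) (a (b (c (l 16015592) (l 16003760)) (b (l 16045784) (l 2))) (b (b (l 16011480) (l 15992216)) (l 2)))) (a (b (c (l 15971720) (l 16071256)) (l 2)) (l 2)))), by decide +kernel⟩

def k4_pp_022_b : ∃ t, chk3 f_pp_022_b t 1 3 1 = true :=
  ⟨(a (b (a (a (b (a (c (b (l 16062328) (l 16023992)) (b (c (l 15985240) (l 15925920)) (c (l 15945608) (l 15884200)))) (c (b (l 16076488) (l 16036248)) (b (l 15997192) (l 15956720)))) (c (b (l 15783224) (l 15956120)) (c (b (l 15927568) (l 15853440)) (a (b (l 15849248) (l 15819816)) (l 15923024))))) (b (c (a (l 16066696) (l 16071096)) (a (l 15821296) (l 16034240))) (c (a (l 15981032) (l 15976952)) (a (l 15935288) (l 15955744))))) (a (b (c (l 16066720) (l 16058344)) (c (l 15928848) (l 15972784))) (b (c (l 16020296) (l 16083744)) (c (l 15873088) (l 15982824))))) (a (c (b (a (b (l 15918032) (l 15866408)) (b (l 15870120) (l 15808328))) (a (a (l 15765216) (l 15761128)) (l 15745128))) (b (a (b (a (l 15698488) (l 15857704)) (a (c (l 15812976) (l 15760480)) (l 15814944)))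 (b (l 15889648) (l 15840328))) (a (a (b (l 15666064) (l 15666288)) (l 15727656)) (b (l 15786368) (l 2))))) (b (a (c (l 15785304) (l 15980008)) (l 2)) (l 2)))) (b (a (a (b (l 16020072) (l 2)) (l 2)) (l 2)) (l 2))), by decide +kernel⟩

theorem s5_pp_022_b : ∃ t, chk3 f_pp_022_b t 4 2 1 = true := ex3_a k0_pp_022_b k1_pp_022_b

theorem s6_pp_022_b : ∃ t, chk3 f_pp_022_b t 2 2 1 = true := ex3_a s5_pp_022_b k2_pp_022_b

theorem s7_pp_022_b : ∃ t, chk3 f_pp_022_b t 1 2 1 = true := ex3_a s6_pp_022_b k3_pp_022_b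

theorem s8_pp_022_b : ∃ t, chk3 f_pp_022_b t 1 1 1 = true := ex3_b s7_pp_022_b k4_pp_022_b

theorem c_pp_022_b : CertB 0 536870912 1239849684 370763052 858993459 64424510 3 eng mog cd0q0 cd1q2b pd2 false true true .pp 0 2 2
    ndB0q0 ndB1q2b pcB2 cut_pp_022_b Ext.none :=
  certB1 (fam := false) (s1 := true) (s2 := true) (a := 0) (b := 2) (c := 2) (cn := .pp) (n1 := ndB0q0) (n2 := ndB1q2b) (pc := pcB2) (cut := cut_pp_022_b) (xt := Ext.none) (P1 := 0) (W1 := 536870912) (P2 := 1239849684) (W2 := 370763052) (P3 := 858993459) (W3 := 64424510) (N0 := 3) (En := eng) (mo := mog) (C1 := cd0q0) (C2 := cd1q2b) (C3 := pd2)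
    rfl (fun _ => rfl) s8_pp_022_b

noncomputable def f_pp_023 : ℕ → ℕ → ℕ → ℕ → Bool := onCell 0 536870912 1073741824 536870912 858993459 64424510
    (rowB 3 eng mog cd0q0 cd1q3 pd2 1 false true true .up 0 2 3 (qsf 0 536870912 1610612736 536870912 2) ndB0q0 ndB1q3 pcB2 Cut.none Ext.none)

def k0_pp_023 : ∃ t, chk3 f_pp_023 t 1 1 1 = true :=
  ⟨(b (a (a (l 1) (b (l 1) (a (l 1) (b (l 1) (c (l 16140264) (l 16196864)))))) (a (b (b (l 1) (a (l 1) (c (l 311954435319) (l 369398946711)))) (b (a (c (l 16166808) (l 16187488)) (c (l 15863584) (l 16026976))) (a (c (l 16066152) (l 16120888)) (c (l 15956064) (l 16072256))))) (b (a (a (b (l 1) (b (l 16071232) (l 16074552))) (b (c (l 16160080) (l 418254813223)) (c (l 16045464) (l 16040136)))) (b (a (c (l 16059896) (l 421475941367)) (c (l 15990208) (l 15970432))) (c (b (l 16009536) (l 16022104)) (l 16239304)))) (a (b (c (l 16050472) (l 16063128)) (c (l 16002632) (l 16051784))) (b (c (l 16038040) (l 16044880)) (c (l 16017232) (l 16059440))))))) (a (b (a (a (l 1) (b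 (l 1) (c (l 298532605239) (l 224980376775)))) (a (b (b (l 1) (l 277057894231)) (c (l 15907632) (l 15995344))) (b (c (l 15999432) (l 16078720)) (c (l 15846424) (l 15939176))))) (a (b (a (b (l 1) (c (l 15857320) (l 250749894471))) (c (b (l 15850368) (l 15785080)) (b (l 15932112) (l 15865248)))) (a (c (a (l 15782264) (l 15758112)) (b (l 245917946007) (l 15725584))) (c (l 15724360) (l 15959232)))) (b (a (c (l 15820952) (l 15991992)) (b (l 15778960) (l 15746448))) (a (c (l 15695808) (l 15766120)) (c (l 15690696) (l 15766728)))))) (b (a (b (a (c (l 15945712) (l 16027816)) (l 15981592)) (a (l 15983144) (l 15852832))) (a (c (b (l 15928880) (l 15834408)) (b (l 16007672) (l 15930776))) (b (l 15999936) (l 15934096)))) (a (b (a (c (l 15707928) (l 15809856)) (c (l 15727120) (l 15830856))) (a (l 15749208) (l 15801400))) (b (a (b (l 15816312) (l 15831160)) (b (l 15887032) (l 15917104))) (a (l 15885160) (b (l 15973920) (l 16042672)))))))), by decide +kernel⟩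

theorem c_pp_023 : CertB 0 536870912 1610612736 536870912 858993459 64424510 3 eng mog cd0q0 cd1q3 pd2 false true true .up 0 2 3
    ndB0q0 ndB1q3 pcB2 Cut.none Ext.none :=
  certB1 (fam := false) (s1 := true) (s2 := true) (a := 0) (b := 2) (c := 3) (cn := .up) (n1 := ndB0q0) (n2 := ndB1q3) (pc := pcB2) (cut := Cut.none) (xt := Ext.none) (P1 := 0) (W1 := 536870912) (P2 := 1610612736) (W2 := 536870912) (P3 := 858993459) (W3 := 64424510) (N0 := 3) (En := eng) (mo := mog) (C1 := cd0q0) (C2 := cd1q3) (C3 := pd2)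
    rfl (fun _ => rfl) k0_pp_023

end Pool.Agent.Strip051.G.I8000_8600.Tab.C.BB01

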