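import Pool.Agent.Strip051.G.I8000_8600.Tab
import Pool.Agent.Strip051.PB.ExtD2

/-! # Certificates B15 (generated) -/

set_option linter.all false
set_option maxRecDepth 100000

namespace Pool.Agent.Strip051.G.I8000_8600.Tab.C.BB01

open Pool.Agent.Strip051.PB Pool.Agent.Strip051.PB.T
open Pool.Agent.Strip051.G.I8000_8600.Tab

noncomputable def f_pp_033 : ℕ → ℕ → ℕ → ℕ → Bool := onCell 0 536870912 1610612736 536870912 858993459 64424510
    (rowB 3 eng mog cd0q0 cd1q3 pd3 1 false true true .pnn 0 3 3 (qsf 0 536870912 1610612736 536870912 3) ndB0q0 ndB1q3 pcB3 Cut.none Ext.none)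

def k0_pp_033 : ∃ t, chk3 f_pp_033 t 1 1 1 = true :=
  ⟨(a (b (b (a (b (a (c (b (a (l 15496952) (l 15606016)) (l 15559328)) (b (a (l 15458064) (l 15564696)) (l 15566960))) (c (b (l 15760680) (l 15759344)) (b (l 15706512) (l 15692120)))) (a (b (c (l 15560768) (l 15491584)) (c (l 15556848) (l 15475968))) (c (b (l 15751968) (l 15739472)) (l 15665048)))) (b (a (c (l 15938528) (l 15853048)) (l 16038024)) (a (b (l 15863552) (l 15840992)) (l 15977400)))) (b (a (a (b (c (l 15548288) (l 15458696)) (l 15569616)) (c (l 15712384) (l 15628936))) (a (b (l 15817808) (l 15797248)) (b (l 15946552) (l 15969448)))) (a (b (a (l 15537840) (l 15652128)) (a (l 4) (l 4))) (b (a (l 15810976) (l 16009472)) (l 4))))) (a (l 4) (b (l 4) (a (b (l 4) (l 2)) (l 2))))) (b (a (b (b (a (l 16156200) (l 16272272)) (a (l 16107240) (l 16101616))) (b (b (a (l 16126352) (l 16283976)) (a (l 16148224) (l 16311912))) (a (l 4) (l 4)))) (b (b (a (l 16415808) (l 16526936)) (a (b (l 16406368) (l 16410952)) (l 16521776))) (a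 (b (b (l 16426568) (l 2)) (l 2)) (l 2)))) (a (b (a (b (l 4) (l 2)) (l 2)) (l 2)) (l 2)))), by decide +kernel⟩

theorem c_pp_033 : CertB 0 536870912 1610612736 536870912 858993459 64424510 3 eng mog cd0q0 cd1q3 pd3 false true true .pnn 0 3 3
    ndB0q0 ndB1q3 pcB3 Cut.none Ext.none :=
  certB1 (fam := false) (s1 := true) (s2 := true) (a := 0) (b := 3) (c := 3) (cn := .pnn) (n1 := ndB0q0) (n2 := ndB1q3) (pc := pcB3) (cut := Cut.none) (xt := Ext.none) (P1 := 0) (W1 := 536870912) (P2 := 1610612736) (W2 := 536870912) (P3 := 858993459) (W3 := 64424510) (N0 := 3) (En := eng) (mo := mog) (C1 := cd0q0) (C2 := cd1q3) (C3 := pd3)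
    rfl (fun _ => rfl) k0_pp_033

noncomputable def f_pp_101 : ℕ → ℕ → ℕ → ℕ → Bool := onCell 536870912 536870912 536870912 536870912 858993459 64424510
    (rowB 3 eng mog cd0q1 cd1q1 pd0 0 false true true .npn 1 0 1 (qsf 536870912 536870912 536870912 536870912 0) ndB0q1 ndB1q1 pcB0 Cut.none Ext.none)

def k0_pp_101 : ∃ t, chk3 f_pp_101 t 1 1 1 = true :=
  ⟨(l 3), by decide +kernel⟩

theorem c_pp_101 : CertB 536870912 536870912 536870912 536870912 858993459 64424510 3 eng mog cd0q1 cd1q1 pd0 false true true .npn 1 0 1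
    ndB0q1 ndB1q1 pcB0 Cut.none Ext.none :=
  certB0 (fam := false) (s1 := true) (s2 := true) (a := 1) (b := 0) (c := 1) (cn := .npn) (n1 := ndB0q1) (n2 := ndB1q1) (pc := pcB0) (cut := Cut.none) (xt := Ext.none) (P1 := 536870912) (W1 := 536870912) (P2 := 536870912) (W2 := 536870912) (P3 := 858993459) (W3 := 64424510) (N0 := 3) (En := eng) (mo := mog) (C1 := cd0q1) (C2 := cd1q1) (C3 := pd0)
    rfl k0_pp_101

noncomputable def f_pp_102_a : ℕ → ℕ → ℕ → ℕ → Bool := onCell 536870912 536870912 0 536870912 858993459 64424510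
    (rowB 3 eng mog cd0q1 cd1q2a pd0 0 false true true .npp 1 0 2 (qsf 536870912 536870912 0 536870912 0) ndB0q1 ndB1q2a pcB0 Cut.none Ext.none)

def k0_pp_102_a : ∃ t, chk3 f_pp_102_a t 1 1 1 = true :=
  ⟨(a (l 3) (l 3)), by decide +kernel⟩

theorem c_pp_102_a : CertB 536870912 536870912 0 536870912 858993459 64424510 3 eng mog cd0q1 cd1q2a pd0 false true true .npp 1 0 2
    ndB0q1 ndB1q2a pcB0 Cut.none Ext.none :=
  certB0 (fam := false) (s1 := true) (s2 := true) (a := 1) (b := 0) (c := 2) (cn := .npp) (n1 := ndB0q1) (n2 := ndB1q2a) (pc := pcB0) (cut := Cut.none) (xt := Ext.none) (P1 := 536870912) (W1 := 536870912) (P2 := 0) (W2 := 536870912) (P3 := 858993459) (W3 := 64424510) (N0 := 3) (En := eng) (mo := mog) (C1 := cd0q1) (C2 := cd1q2a) (C3 := pd0)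
    rfl k0_pp_102_a

noncomputable def f_pp_102_b : ℕ → ℕ → ℕ → ℕ → Bool := onCell 536870912 536870912 0 536870912 858993459 64424510
    (rowB 3 eng mog cd0q1 cd1q2b pd0 1 false true true .npp 1 0 2 (qsf 536870912 536870912 1239849684 370763052 0) ndB0q1 ndB1q2b pcB0 Cut.none Ext.none)

def k0_pp_102_b : ∃ t, chk3 f_pp_102_b t 1 1 1 = true :=
  ⟨(l 3), by decide +kernel⟩

theorem c_pp_102_b : CertB 536870912 536870912 1239849684 370763052 858993459 64424510 3 eng mog cd0q1 cd1q2b pd0 false true true .npp 1 0 2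
    ndB0q1 ndB1q2b pcB0 Cut.none Ext.none :=
  certB1 (fam := false) (s1 := true) (s2 := true) (a := 1) (b := 0) (c := 2) (cn := .npp) (n1 := ndB0q1) (n2 := ndB1q2b) (pc := pcB0) (cut := Cut.none) (xt := Ext.none) (P1 := 536870912) (W1 := 536870912) (P2 := 1239849684) (W2 := 370763052) (P3 := 858993459) (W3 := 64424510) (N0 := 3) (En := eng) (mo := mog) (C1 := cd0q1) (C2 := cd1q2b) (C3 := pd0)
    rfl (fun _ => rfl) k0_pp_102_b

noncomputable def f_pp_112_a : ℕ → ℕ → ℕ → ℕ → Bool := onCell 536870912 536870912 0 536870912 858993459 64424510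
    (rowB 3 eng mog cd0q1 cd1q2a pd1 0 false true true .dn 1 1 2 (qsf 536870912 536870912 0 536870912 1) ndB0q1 ndB1q2a pcB1 Cut.none Ext.none)

def k0_pp_112_a : ∃ t, chk3 f_pp_112_a t 1 1 1 = true :=
  ⟨(a (l 3) (l 1)), by decide +kernel⟩

theorem c_pp_112_a : CertB 536870912 536870912 0 536870912 858993459 64424510 3 eng mog cd0q1 cd1q2a pd1 false true true .dn 1 1 2
    ndB0q1 ndB1q2a pcB1 Cut.none Ext.none :=
  certB0 (fam := false) (s1 := true) (s2 := true) (a := 1) (b := 1) (c := 2) (cn := .dn) (n1 := ndB0q1) (n2 := ndB1q2a) (pc := pcB1) (cut := Cut.none) (xt := Ext.none) (P1 := 536870912) (W1 := 536870912) (P2 := 0) (W2 := 536870912) (P3 := 858993459) (W3 := 64424510) (N0 := 3) (En := eng) (mo := mog) (C1 := cd0q1) (C2 := cd1q2a) (C3 := pd1)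
    rfl k0_pp_112_a

noncomputable def f_pp_112_b : ℕ → ℕ → ℕ → ℕ → Bool := onCell 536870912 536870912 536870912 536870912 858993459 64424510
    (rowB 3 eng mog cd0q1 cd1q2b pd1 1 false true true .dn 1 1 2 (qsf 536870912 536870912 1239849684 370763052 1) ndB0q1 ndB1q2b pcB1 Cut.none Ext.none)

def k0_pp_112_b : ∃ t, chk3 f_pp_112_b t 1 1 1 = true :=
  ⟨(b (a (l 3) (l 3)) (a (b (a (a (b (a (b (l 3) (b (l 3) (b (l 3) (c (l 16495784) (l 16480408))))) (l 3)) (b (c (b (a (c (l 16470040) (l 16464888)) (l 73181732791)) (a (l 16429568) (l 16409888))) (a (b (l 97877827751) (l 16423912)) (b (l 96267143143) (l 16390504)))) (c (a (b (l 16392056) (l 16354992)) (b (l 16372600) (l 16335792))) (a (b (l 16389392) (l 16352616)) (b (l 16357304) (l 16321816)))))) (b (l 3) (a (b (c (b (l 16470968) (l 16393328)) (b (l 126868707335) (l 16360768))) (c (b (l 16356688) (l 16320320)) (b (l 16328344) (l 16294408)))) (b (b (l 3) (c (l 140827332183) (l 161765222487))) (c (b (l 16344648) (l 16309040)) (b (l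 16303048) (l 16270704))))))) (b (l 3) (b (l 3) (a (a (c (b (l 174113295511) (l 96736706823)) (b (l 193440548215) (l 16335144))) (b (l 3) (l 2))) (l 2))))) (a (b (b (a (c (a (l 16299808) (l 16281016)) (a (l 16293360) (l 16264392))) (c (a (l 16266224) (l 16339936)) (a (l 16239240) (l 16239320)))) (a (c (l 16407168) (l 16363040)) (c (a (l 16195976) (l 16187368)) (a (l 16160288) (l 16143128))))) (a (b (c (l 16148688) (l 16103288)) (c (l 16081976) (l 16000032))) (b (c (l 16123304) (l 16064632)) (l 2)))) (b (a (a (a (b (b (l 16247776) (l 2)) (l 2)) (l 2)) (l 2)) (l 2)) (l 2)))) (b (a (l 3) (l 2)) (l 2)))), by decide +kernel⟩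

theorem c_pp_112_b : CertB 536870912 536870912 1239849684 370763052 858993459 64424510 3 eng mog cd0q1 cd1q2b pd1 false true true .dn 1 1 2
    ndB0q1 ndB1q2b pcB1 Cut.none Ext.none :=
  certB1 (fam := false) (s1 := true) (s2 := true) (a := 1) (b := 1) (c := 2) (cn := .dn) (n1 := ndB0q1) (n2 := ndB1q2b) (pc := pcB1) (cut := Cut.none) (xt := Ext.none) (P1 := 536870912) (W1 := 536870912) (P2 := 1239849684) (W2 := 370763052) (P3 := 858993459) (W3 := 64424510) (N0 := 3) (En := eng) (mo := mog) (C1 := cd0q1) (C2 := cd1q2b) (C3 := pd1)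
    rfl (fun _ => rfl) k0_pp_112_b

noncomputable def cut_pp_113 : Cut := Cut.of [[⟨0, 1, 0, 67108864⟩, ⟨1, 1, 0, 67108864⟩, ⟨2, 2, 0, 16777216⟩]]

noncomputable def xt_pp_113 : Ext := extD2 3 ⟨4, 1, 1, 5, 3, 1, 9, 10, 43, 100, 1, 8⟩ eng cd0q1 cd1q3 pd1 false true true .nn 1 1 3 rfl ndB0q1 ndB1q3 pcB1

noncomputable def f_pp_113 : ℕ → ℕ → ℕ → ℕ → Bool := onCell 536870912 536870912 536870912 536870912 858993459 64424510
    (rowB 3 eng mog cd0q1 cd1q3 pd1 1 false true true .nn 1 1 3 (qsf 536870912 536870912 1610612736 536870912 1) ndB0q1 ndB1q3 pcB1 cut_pp_113 xt_pp_113)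

def k0_pp_113 : ∃ t, chk3 f_pp_113 t 1 2 1 = true :=
  ⟨(a (l 3) (l 3)), by decide +kernel⟩

def k1_pp_113 : ∃ t, chk3 f_pp_113 t 4 3 1 = true :=
  ⟨(a (b (l 1) (b (a (l 1) (b (l 1) (c (l 16204696) (l 16162000)))) (b (c (l 16181400) (l 16138248)) (c (l 16067328) (l 15984544))))) (b (a (l 1) (a (l 1) (b (l 1) (b (l 1) (b (l 1) (l 176126495671)))))) (b (b (b (a (l 1) (a (l 16254912) (l 16312280))) (c (l 16325648) (l 16257760))) (c (a (l 16192112) (l 16186640)) (a (l 16141128) (l 16127008)))) (b (c (l 16160368) (l 16125648)) (c (l 16050800) (l 15937800)))))), by decide +kernel⟩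

def k2_pp_113 : ∃ t, chk3 f_pp_113 t 5 3 1 = true :=
  ⟨(b (b (l 3) (b (l 3) (b (a (a (c (a (l 16340920) (l 184313784935)) (a (l 16279712) (l 195051102471))) (l 3)) (l 3)) (a (a (c (a (l 16306480) (l 16306352)) (a (l 16247088) (l 16239816))) (c (a (l 16349712) (l 117204883463)) (a (l 16297424) (l 130626527015)))) (a (a (c (l 222968468887) (l 212767777303)) (l 3)) (l 3)))))) (b (a (b (c (a (b (l 16272624) (l 16238896)) (b (a (l 16275824) (l 16280064)) (l 16246696))) (a (b (l 16210272) (l 16175352)) (b (c (l 16223320) (l 16180008)) (l 16171280)))) (c (a (l 16252376) (b (l 16216008) (l 16186632))) (a (l 16120360) (l 16227184)))) (a (b (c (b (a (b (l 16293176) (l 16279152)) (b (l 221894664791) (l 16288088))) (a (l 16258152) (l 16269160))) (b (c (l 146195752263) (l 153174991143)) (a (l 16173760) (l 16178120)))) (c (b (l 16237232) (l 16212736)) (b (l 16148088) (l 16119440)))) (b (b (b (l 3) (a (c (l 231021485431) (l 229947563479)) (l 3))) (c (a (b (l 16288864) (l 16278112)) (c (l 189145574103)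 (l 191292962535))) (b (a (l 16190320) (l 184850411879)) (a (l 16179288) (l 16189568))))) (c (b (b (l 16277696) (l 16268736)) (l 16256392)) (b (c (l 16195944) (l 16140144)) (l 16147104)))))) (b (a (c (a (l 16125152) (l 16143528)) (a (l 16038088) (l 16048360))) (c (a (l 16177432) (l 16359392)) (a (l 16071440) (l 16215496)))) (a (c (a (l 16063832) (l 16089160)) (l 16139304)) (c (a (l 16134520) (l 16209192)) (a (l 15995920) (l 16051280))))))), by decide +kernel⟩

def k3_pp_113 : ∃ t, chk3 f_pp_113 t 3 6 1 = true :=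
  ⟨(a (l 3) (l 3)), by decide +kernel⟩

def k4_pp_113 : ∃ t, chk3 f_pp_113 t 6 14 1 = true :=
  ⟨(a (a (b (b (l 3) (b (a (c (l 253033071895) (l 247664337911)) (l 3)) (a (c (c (l 193977435991) (l 196661679591)) (l 200419689591)) (c (b (l 3) (l 238537799527)) (l 253033086087))))) (c (b (a (b (l 16315112) (l 16310152)) (b (b (l 199346222631) (l 16346264)) (l 16345160))) (b (l 16324304) (l 16322456))) (a (b (b (l 16196072) (l 16189104)) (l 16178584)) (b (c (l 203640953863) (l 209009532007)) (l 16205952))))) (b (l 3) (b (b (a (c (c (l 255180740631) (l 266454889271)) (b (l 277192092759) (l 262696800775))) (l 3)) (a (c (c (l 201493802231) (l 16413536)) (b (l 215452158903) (l 16239736))) (c (c (b (l 257865204007) (l 234243049815)) (l 4625350185987829162943397903)) (c (l 284708431991) (l 285782165031))))) (c (a (b (l 16390400) (l 16394912)) (b (c (l 207936395303) (l 16403312)) (l 16454720))) (b (a (l 16239496) (c (l 16319872) (l 16235744))) (l 16343656)))))) (b (l 3) (b (a (a (l 3) (l 3))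 (l 3)) (b (a (a (c (a (c (l 218137000295) (l 221894928135)) (c (l 223505664439) (l 226189851607))) (c (b (l 291687859527) (l 229947883111)) (l 233705792983))) (a (a (b (l 3) (c (l 261623533687) (l 5089577700719102671541714959))) (l 3)) (l 3))) (l 3)) (a (c (c (a (l 16572936) (b (a (l 227263834855) (l 243906968167)) (l 230485165527))) (a (l 16477520) (b (a (l 234780008919) (l 270750298519)) (l 236927547175)))) (c (a (l 16381952) (b (a (l 238001028007) (l 294909274663)) (l 240685488535))) (a (l 16286232) (b (l 313162639639) (l 243369623607))))) (a (b (l 3) (a (c (c (l 248202071943) (l 263771096471)) (c (l 291151281847) (l 316383984375))) (l 3))) (l 3))))))), by decide +kernel⟩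

def k5_pp_113 : ∃ t, chk3 f_pp_113 t 6 15 1 = true :=
  ⟨(a (b (c (b (a (l 16320584) (l 16435976)) (a (l 16319640) (l 16455592))) (a (c (l 16209472) (l 16133560)) (b (l 16262456) (l 16264744)))) (c (a (l 16324184) (l 16494784)) (a (l 16136672) (l 16266104)))) (b (b (a (c (b (b (a (l 16538744) (l 16628184)) (l 16593248)) (l 16611376)) (a (l 16412632) (b (b (l 16430536) (l 16418608)) (l 16432456)))) (b (a (c (c (b (a (l 16765104) (l 258402778007)) (l 16816024)) (b (a (l 16646312) (l 256255043863)) (l 16690960))) (c (b (a (l 16528032) (l 255717944663)) (l 16587544)) (b (a (l 16410264) (l 255717675639)) (l 16463832)))) (c (c (b (l 268066586087) (a (l 213842592007) (l 271824709367))) (b (a (l 269140064375) (l 3)) (a (l 239612209719) (l 281488277863)))) (c (a (b (l 289004025607) (b (l 278803506727) (l 261623645399))) (c (l 277729944183) (l 293835931751))) (a (b (l 319068535527) (b (l 310478624215) (l 266455414551))) (c (l 309941940695) (l 326047908103)))))) (a (c (l 16784320) (l 16651840))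 (c (b (a (l 16876208) (c (l 16871464) (l 233169856839))) (l 16874792)) (c (b (a (l 16668176) (b (l 264845030455) (l 16738816))) (l 16722784)) (b (a (l 16530672) (b (l 300815092919) (l 16592504))) (l 16577568))))))) (a (c (l 16650808) (l 16414008)) (c (b (b (l 16853968) (l 16842800)) (l 16826264)) (b (b (l 16670008) (l 16625824)) (l 16654952))))) (b (a (a (l 16519016) (l 16643136)) (c (l 16794336) (l 16717120))) (a (a (l 16560864) (l 16708816)) (c (l 16754712) (l 16715760)))))), by decide +kernel⟩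

def k6_pp_113 : ∃ t, chk3 f_pp_113 t 7 14 1 = true :=
  ⟨(l 3), by decide +kernel⟩

def k7_pp_113 : ∃ t, chk3 f_pp_113 t 28 30 1 = true :=
  ⟨(a (b (a (b (l 3) (c (c (l 266992832327) (b (l 281488355543) (l 226727486567))) (c (b (b (l 3) (l 287930627751)) (b (l 255181463319) (l 16840880))) (b (b (l 3) (l 294909655895)) (b (l 279340411095) (l 16681544)))))) (b (l 3) (b (l 3) (c (b (l 282562119447) (l 270750917031)) (c (b (l 295983864103) (l 258939777303)) (b (l 5737561940033790206057644239) (a (l 284172269527) (l 302962965943)))))))) (b (c (b (a (l 16876288) (l 262697824647)) (l 16868416)) (b (a (l 16782560) (c (l 258939726599) (c (l 272361386535) (l 286856728247)))) (l 16834784))) (c (l 16850608) (l 16839304)))) (a (b (l 3) (b (b (c (b (l 307795022135) (l 315311191895)) (c (l 297057566471) (c (l 299205045063) (b (l 318532295543) (l 305647429447))))) (c (l 16858912) (c (l 16873968) (c (l 16870888) (l 16859264))))) (c (l 16861416) (l 16829848)))) (b (l 3) (b (b (a (a (l 3) (l 3))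 (l 3)) (c (b (l 344302221047) (l 296520697079)) (c (b (l 320143030887) (l 305110627255)) (b (a (b (l 314774334007) (l 311016216455)) (l 319606155719)) (a (l 16871584) (b (l 314774326151) (l 311553079271))))))) (c (b (l 16853616) (l 16862128)) (b (c (l 16867432) (l 16841400)) (l 16850664))))))), by decide +kernel⟩

def k8_pp_113 : ∃ t, chk3 f_pp_113 t 29 30 1 = true :=
  ⟨(b (l 3) (a (a (b (a (b (l 3) (a (b (l 3) (c (l 342691613271) (c (l 322827400919) (l 320143016183)))) (l 3))) (l 3)) (b (c (b (l 337322883863) (l 299741907991)) (c (b (l 318532403287) (l 307794965703)) (c (b (l 317995524903) (l 312089930183)) (b (a (l 309405602439) (l 323364232183)) (a (l 16862160) (l 317995511879)))))) (c (l 16847456) (c (l 16859984) (l 16832992))))) (b (l 3) (b (a (b (l 3) (c (l 327659209383) (c (l 312089947271) (c (l 316384927431) (l 321216739047))))) (l 3)) (b (c (a (l 16854856) (l 323901105207)) (c (a (l 16867880) (l 311553067847)) (c (l 299205025655) (a (l 301889375303) (l 326048589943)))))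 (c (l 16849416) (c (l 16862360) (a (l 16854992) (l 16858144)))))))) (b (l 3) (a (b (l 3) (b (a (l 3) (l 3)) (c (a (l 324974838023) (l 392083715687)) (a (c (l 311016208967) (l 321216724855)) (c (l 255181619591) (l 325511699271)))))) (l 3))))), by decide +kernel⟩

def k9_pp_113 : ∃ t, chk3 f_pp_113 t 14 31 1 = true :=
  ⟨(a (b (a (c (l 16795336) (l 16754904)) (c (b (l 16840720) (l 16817288)) (b (l 16825784) (l 16797088)))) (c (l 16715912) (b (l 16761712) (l 16733384)))) (b (a (b (a (c (l 16828456) (l 16814616)) (b (c (l 16839592) (l 16827888)) (l 16820344))) (c (l 16826904) (l 16810008))) (a (b (b (b (c (l 309405564343) (c (l 312626782935) (a (l 16853808) (l 309942426439)))) (c (l 16861272) (a (l 16849400) (l 16830952)))) (c (l 16830504) (l 16818840))) (c (l 16832352) (l 16817920))) (b (b (b (a (c (l 392620576311) (c (l 258939705975) (b (l 3) (l 328196060663)))) (l 3)) (c (a (l 311553045751) (l 392083673783)) (c (l 326048549463) (a (l 322290447143) (b (l 3) (l 326585437623))))))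 (b (c (a (l 16857192) (l 312089906071)) (a (l 16826032) (c (l 317995479847) (l 322827307815)))) (c (l 16851328) (l 16819784)))) (b (c (l 16820584) (l 16808720)) (l 16780112))))) (c (a (l 16770584) (b (l 16787992) (l 16785416))) (a (l 16724728) (b (l 16769584) (l 16761088)))))), by decide +kernel⟩

def k10_pp_113 : ∃ t, chk3 f_pp_113 t 15 30 1 = true :=
  ⟨(l 3), by decide +kernel⟩

def k11_pp_113 : ∃ t, chk3 f_pp_113 t 30 62 1 = true :=
  ⟨(a (b (a (b (l 3) (b (a (c (l 341617808679) (c (l 349133995975) (b (l 329806640135) (l 321753588855)))) (l 3)) (a (c (l 16837704) (c (l 16825512) (l 323364168215))) (c (l 342154668791) (c (l 349670855911) (l 354502684743)))))) (l 3)) (b (a (c (c (l 16846520) (l 16852216)) (b (c (l 16819264) (a (l 16833800) (l 16825736))) (l 16809216))) (c (a (b (l 343228399511) (l 16842880)) (b (l 522006431639) (l 329806616199))) (c (b (l 367387580535) (a (l 16835984) (l 337322803319))) (b (a (l 354502673879) (l 322290429143)) (a (l 16830984) (l 342154632039))))))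 (a (b (l 16807760) (l 16800816)) (c (b (l 16815968) (l 16830384)) (b (a (l 16825976) (l 16812536)) (l 16819536)))))) (b (l 3) (a (b (b (l 3) (a (c (l 522006399927) (a (b (l 3) (l 364703217927)) (l 3))) (l 3))) (b (a (c (l 330343476199) (c (l 337859663351) (l 342691492359))) (a (b (l 3) (c (l 355576413207) (l 363629465287))) (l 3))) (a (c (l 16832216) (l 16801984)) (c (b (l 333564698935) (l 16810768)) (b (a (l 16816152) (l 362555718039)) (l 16810272)))))) (b (l 3) (b (l 3) (a (b (c (l 576767229895) (l 456508122679)) (c (l 346986455831) (a (l 348597069031) (l 359871361559)))) (l 3))))))), by decide +kernel⟩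

def k12_pp_113 : ∃ t, chk3 f_pp_113 t 30 63 1 = true :=
  ⟨(b (a (c (c (l 16816648) (l 16809728)) (c (l 16781368) (l 16752528))) (b (a (c (a (l 16822376) (l 16802496)) (c (l 16815312) (l 16788808))) (a (b (c (a (l 16806600) (l 332490942647)) (b (a (l 16800296) (l 347523321879)) (l 16797000))) (c (l 16821200) (l 16791176))) (b (b (a (c (l 368461288583) (l 377051225287)) (l 3)) (c (l 346986445175) (a (l 346449574679) (l 376514348903)))) (c (c (l 16813368) (l 16809824)) (b (a (l 16794840) (l 345912698391)) (l 16791504)))))) (c (c (l 16813640) (l 16808248)) (a (l 16797208) (b (l 16784520) (l 16797696)))))) (a (c (l 16767816) (l 16747352)) (b (c (l 16798264) (a (l 16781848) (l 16786008))) (c (l 16764880) (l 16747536))))), by decide +kernel⟩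

def k13_pp_113 : ∃ t, chk3 f_pp_113 t 31 62 1 = true :=
  ⟨(l 3), by decide +kernel⟩

def k14_pp_113 : ∃ t, chk3 f_pp_113 t 31 126 1 = true :=
  ⟨(a (a (b (b (l 3) (a (b (a (c (l 366850665559) (l 375440601399)) (l 3)) (c (a (l 16809640) (l 366313789623)) (c (l 353965763655) (l 359334465287)))) (l 3))) (c (c (a (l 16805512) (b (a (l 357186979719) (b (l 453286881511) (l 351281397223))) (l 16790672))) (b (a (l 16814472) (a (l 362018823031) (l 436643873911))) (l 16797544))) (b (a (a (l 16787312) (b (l 344302075431) (l 16786464))) (b (c (l 497310294679) (l 390472973831)) (c (l 349670785959) (l 359871325335)))) (a (l 16780000) (a (l 16781632) (b (l 16795192) (l 16801704))))))) (b (l 3) (b (b (l 3) (a (a (b (l 3) (c (l 590725812183) (l 483351637783))) (l 3)) (l 3))) (b (a (a (c (l 352892002743) (c (l 359334460567) (l 295983692167))) (a (b (l 3) (c (l 373293097399) (l 381883036407))) (l 3))) (l 3)) (a (c (c (l 344838936023) (l 349133907159)) (a (l 16792280) (c (l 358797584199) (l 291151848663))))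 (a (c (c (l 448991883751) (a (l 489257223831) (l 629917397863))) (b (l 566029755703) (l 377051191623))) (l 3))))))) (l 3)), by decide +kernel⟩

def k15_pp_113 : ∃ t, chk3 f_pp_113 t 31 127 1 = true :=
  ⟨(b (a (b (a (c (l 16803304) (l 16773192)) (b (a (c (l 16784424) (l 16788816)) (b (a (c (l 353428866439) (l 362555672647)) (a (c (l 605221322551) (l 395841672039)) (l 3))) (a (c (l 16792288) (l 16789336)) (c (c (l 438791337911) (l 368998121351)) (a (l 364703156359) (l 392083572903)))))) (c (a (l 16802088) (c (l 16791608) (l 16793136))) (a (l 16795304) (c (l 353965730359) (a (l 16795344) (l 276656318311))))))) (a (a (l 16770160) (l 16771336)) (c (a (l 16797152) (l 16786656)) (c (l 16792128) (l 16797600))))) (a (a (b (b (l 3) (a (b (a (c (l 381883016647) (l 392083570823)) (l 3)) (c (a (l 16791952) (l 379735530903)) (a (l 16792248) (l 388325471783)))) (l 3))) (c (a (c (l 16789176) (l 16791568)) (b (b (a (l 377588045175) (a (l 471540452471) (l 3))) (c (l 359871304455) (l 364166274183)))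 (l 16787000))) (c (b (a (l 16795744) (c (l 412484657479) (l 356113207975))) (l 16786952)) (a (c (l 16792064) (l 16790840)) (b (b (a (l 388325470471) (l 586430843207)) (l 373293079543)) (l 16790504)))))) (b (l 3) (a (a (b (b (l 3) (b (l 3) (c (l 466171740455) (l 401210365959)))) (c (c (l 358797559927) (l 362555658695)) (c (l 339470212311) (b (l 377051175351) (l 16790288))))) (b (l 3) (b (b (l 3) (l 6)) (l 6)))) (b (l 3) (l 6))))) (l 3))) (a (c (c (l 16789912) (l 16784824)) (a (l 16753472) (b (l 16761328) (l 16774304)))) (a (b (a (c (l 16779808) (b (l 16787024) (l 16782976))) (a (a (b (b (l 16783008) (l 6)) (l 6)) (l 6)) (l 6))) (a (c (l 16783728) (l 16755928)) (l 6))) (l 6)))), by decide +kernel⟩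

theorem s16_pp_113 : ∃ t, chk3 f_pp_113 t 31 63 1 = true := ex3_b k14_pp_113 k15_pp_113

theorem s17_pp_113 : ∃ t, chk3 f_pp_113 t 31 31 1 = true := ex3_b k13_pp_113 s16_pp_113

theorem s18_pp_113 : ∃ t, chk3 f_pp_113 t 30 31 1 = true := ex3_b k11_pp_113 k12_pp_113

theorem s19_pp_113 : ∃ t, chk3 f_pp_113 t 15 31 1 = true := ex3_a s18_pp_113 s17_pp_113

theorem s20_pp_113 : ∃ t, chk3 f_pp_113 t 15 15 1 = true := ex3_b k10_pp_113 s19_pp_113

theorem s21_pp_113 : ∃ t, chk3 f_pp_113 t 14 30 1 = true := ex3_a k7_pp_113 k8_pp_113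

theorem s22_pp_113 : ∃ t, chk3 f_pp_113 t 14 15 1 = true := ex3_b s21_pp_113 k9_pp_113

theorem s23_pp_113 : ∃ t, chk3 f_pp_113 t 7 15 1 = true := ex3_a s22_pp_113 s20_pp_113

theorem s24_pp_113 : ∃ t, chk3 f_pp_113 t 7 7 1 = true := ex3_b k6_pp_113 s23_pp_113

theorem s25_pp_113 : ∃ t, chk3 f_pp_113 t 6 7 1 = true := ex3_b k4_pp_113 k5_pp_113

theorem s26_pp_113 : ∃ t, chk3 f_pp_113 t 3 7 1 = true := ex3_a s25_pp_113 s24_pp_113

theorem s27_pp_113 : ∃ t, chk3 f_pp_113 t 3 3 1 = true := ex3_b k3_pp_113 s26_pp_113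

theorem s28_pp_113 : ∃ t, chk3 f_pp_113 t 2 3 1 = true := ex3_a k1_pp_113 k2_pp_113

theorem s29_pp_113 : ∃ t, chk3 f_pp_113 t 1 3 1 = true := ex3_a s28_pp_113 s27_pp_113

theorem s30_pp_113 : ∃ t, chk3 f_pp_113 t 1 1 1 = true := ex3_b k0_pp_113 s29_pp_113

theorem c_pp_113 : CertB 536870912 536870912 1610612736 536870912 858993459 64424510 3 eng mog cd0q1 cd1q3 pd1 false true true .nn 1 1 3
    ndB0q1 ndB1q3 pcB1 cut_pp_113 xt_pp_113 :=
  certB1 (fam := false) (s1 := true) (s2 := true) (a := 1) (b := 1) (c := 3) (cn := .nn) (n1 := ndB0q1) (n2 := ndB1q3) (pc := pcB1) (cut := cut_pp_113) (xt := xt_pp_113) (P1 := 536870912) (W1 := 536870912) (P2 := 1610612736) (W2 := 536870912) (P3 := 858993459) (W3 := 64424510) (N0 := 3) (En := eng) (mo := mog) (C1 := cd0q1) (C2 := cd1q3) (C3 := pd1)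
    rfl (fun _ => rfl) s30_pp_113

noncomputable def cut_pp_123 : Cut := Cut.of [[⟨0, 1, 0, 67108864⟩, ⟨1, 1, 0, 67108864⟩, ⟨2, 2, 0, 16777216⟩]]

noncomputable def f_pp_123 : ℕ → ℕ → ℕ → ℕ → Bool := onCell 536870912 536870912 1073741824 536870912 858993459 64424510
    (rowB 3 eng mog cd0q1 cd1q3 pd2 1 false true true .npn 1 2 3 (qsf 536870912 536870912 1610612736 536870912 2) ndB0q1 ndB1q3 pcB2 cut_pp_123 Ext.none)

def k0_pp_123 : ∃ t, chk3 f_pp_123 t 2 1 1 = true :=
  ⟨(a (b (c (b (b (a (b (l 15923984) (l 15961448)) (b (l 15910152) (l 15963792))) (a (l 16111552) (l 16074280))) (b (a (l 16055992) (l 16111504)) (a (l 16059896) (l 16142096)))) (b (b (a (b (l 15901344) (l 15907432)) (b (l 15812456) (l 15899928))) (a (l 16118584) (l 16095224))) (b (a (l 16057536) (l 16107080)) (a (l 16098712) (l 16177152))))) (b (b (a (l 16063560) (l 16085216)) (a (l 16018360) (b (l 16135456) (l 16090952)))) (b (a (b (l 15981888) (l 16018040)) (b (l 16062176) (l 16099024))) (a (l 15858368) (b (l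 16162024) (l 2)))))) (b (b (b (a (c (b (a (l 15926824) (l 15956232)) (l 16011640)) (b (a (l 15818520) (l 15838664)) (l 15934920))) (c (b (a (l 16008440) (l 16093648)) (l 16140552)) (b (a (l 15875888) (l 15936432)) (l 16033848)))) (a (c (b (l 16076128) (l 16134952)) (l 16326592)) (c (b (l 16224952) (l 16302088)) (b (l 16151608) (l 16252784))))) (b (a (c (l 16218432) (l 16204192)) (c (l 16410000) (l 16366592))) (a (c (l 16278720) (l 16305616)) (a (l 16217560) (a (l 16417656) (l 16334560)))))) (b (b (a (c (l 16217832) (l 16323872)) (c (a (l 16273072) (l 16309792)) (l 16185224))) (a (c (l 16116656) (l 16242360)) (b (a (l 16254680) (l 2)) (l 2)))) (a (b (b (a (l 16112072) (l 2)) (l 2)) (l 2)) (l 2))))), by decide +kernel⟩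

def k1_pp_123 : ∃ t, chk3 f_pp_123 t 3 2 1 = true :=
  ⟨(a (b (c (b (a (b (a (l 16267024) (l 16428680)) (l 16420056)) (b (a (l 16566952) (l 16614640)) (l 16559376))) (a (b (l 16502920) (l 16505728)) (b (l 16571520) (l 16547568)))) (b (a (b (a (l 16137240) (l 16190128)) (l 16247840)) (b (a (l 16430528) (l 16578912)) (l 16527920))) (a (b (l 16379960) (l 16491496)) (b (l 16593144) (l 16614688))))) (b (a (b (c (l 16512056) (l 16538176)) (l 16433224)) (b (c (l 16573344) (l 16585744)) (a (l 16570976) (l 16535712)))) (a (b (l 16310120) (a (l 16458392) (l 16493088))) (b (a (l 16554368) (l 2)) (l 2))))) (b (b (a (b (a (b (c (l 16660240) (l 16628224)) (l 16638128)) (a (c (l 16679456) (l 16660120)) (b (b (l 16695360) (l 16689552)) (l 16681040)))) (a (l 16566928) (b (l 16663360) (l 16571712)))) (b (a (a (b (c (l 16696920) (l 16699336)) (l 16695368)) (b (b (c (l 16738176) (l 16721608)) (l 16685416)) (b (l 16714256) (l 16706784)))) (b (a (b (a (c (l 16749456) (l 16737160)) (b (c (l 16759256)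 (l 16749600)) (l 16749800))) (b (c (l 16744856) (l 16737096)) (l 16715560))) (b (b (a (a (c (l 16764192) (l 16757472)) (l 6)) (l 6)) (l 6)) (a (l 6) (c (l 16766176) (l 174583667863))))) (b (a (a (l 16725896) (l 6)) (a (l 16718216) (l 2))) (a (l 16698464) (l 2))))) (a (b (a (l 16683216) (l 16651392)) (a (l 16673424) (l 16654632))) (a (b (l 16751312) (l 2)) (l 2))))) (a (b (a (b (l 16625080) (l 16624368)) (c (l 16619768) (l 16656312))) (a (c (l 16599856) (l 16652944)) (c (l 16499904) (l 16644720)))) (b (a (b (l 111769750183) (l 2)) (l 2)) (l 2)))) (a (a (b (b (l 16622920) (l 2)) (l 2)) (l 2)) (l 2)))), by decide +kernel⟩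

def k2_pp_123 : ∃ t, chk3 f_pp_123 t 3 3 1 = true :=
  ⟨(a (b (a (b (a (c (l 16340808) (l 16446912)) (l 2)) (l 2)) (l 2)) (l 2)) (l 2)), by decide +kernel⟩

theorem s3_pp_123 : ∃ t, chk3 f_pp_123 t 3 1 1 = true := ex3_b k1_pp_123 k2_pp_123

theorem s4_pp_123 : ∃ t, chk3 f_pp_123 t 1 1 1 = true := ex3_a k0_pp_123 s3_pp_123

theorem c_pp_123 : CertB 536870912 536870912 1610612736 536870912 858993459 64424510 3 eng mog cd0q1 cd1q3 pd2 false true true .npn 1 2 3
    ndB0q1 ndB1q3 pcB2 cut_pp_123 Ext.none :=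
  certB1 (fam := false) (s1 := true) (s2 := true) (a := 1) (b := 2) (c := 3) (cn := .npn) (n1 := ndB0q1) (n2 := ndB1q3) (pc := pcB2) (cut := cut_pp_123) (xt := Ext.none) (P1 := 536870912) (W1 := 536870912) (P2 := 1610612736) (W2 := 536870912) (P3 := 858993459) (W3 := 64424510) (N0 := 3) (En := eng) (mo := mog) (C1 := cd0q1) (C2 := cd1q3) (C3 := pd2)
    rfl (fun _ => rfl) s4_pp_123

noncomputable def f_pp_133 : ℕ → ℕ → ℕ → ℕ → Bool := onCell 536870912 536870912 1610612736 536870912 858993459 64424510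
    (rowB 3 eng mog cd0q1 cd1q3 pd3 1 false true true .dn 1 3 3 (qsf 536870912 536870912 1610612736 536870912 3) ndB0q1 ndB1q3 pcB3 Cut.none Ext.none)

def k0_pp_133 : ∃ t, chk3 f_pp_133 t 1 1 1 = true :=
  ⟨(a (b (a (b (a (b (l 16591368) (l 2)) (l 2)) (l 2)) (l 2)) (l 2)) (l 2)), by decide +kernel⟩

theorem c_pp_133 : CertB 536870912 536870912 1610612736 536870912 858993459 64424510 3 eng mog cd0q1 cd1q3 pd3 false true true .dn 1 3 3
    ndB0q1 ndB1q3 pcB3 Cut.none Ext.none :=
  certB1 (fam := false) (s1 := true) (s2 := true) (a := 1) (b := 3) (c := 3) (cn := .dn) (n1 := ndB0q1) (n2 := ndB1q3) (pc := pcB3) (cut := Cut.none) (xt := Ext.none) (P1 := 536870912) (W1 := 536870912) (P2 := 1610612736) (W2 := 536870912) (P3 := 858993459) (W3 := 64424510) (N0 := 3) (En := eng) (mo := mog) (C1 := cd0q1) (C2 := cd1q3) (C3 := pd3)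
    rfl (fun _ => rfl) k0_pp_133

noncomputable def f_pp_202_a : ℕ → ℕ → ℕ → ℕ → Bool := onCell 0 536870912 0 536870912 858993459 64424510
    (rowB 3 eng mog cd0q2 cd1q2a pd0 0 false true true .pp 2 0 2 (qsf 0 536870912 0 536870912 0) ndB0q2 ndB1q2a pcB0 Cut.none Ext.none)

def k0_pp_202_a : ∃ t, chk3 f_pp_202_a t 1 1 1 = true :=
  ⟨(l 3), by decide +kernel⟩

theorem c_pp_202_a : CertB 0 536870912 0 536870912 858993459 64424510 3 eng mog cd0q2 cd1q2a pd0 false true true .pp 2 0 2
    ndB0q2 ndB1q2a pcB0 Cut.none Ext.none :=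
  certB0 (fam := false) (s1 := true) (s2 := true) (a := 2) (b := 0) (c := 2) (cn := .pp) (n1 := ndB0q2) (n2 := ndB1q2a) (pc := pcB0) (cut := Cut.none) (xt := Ext.none) (P1 := 0) (W1 := 536870912) (P2 := 0) (W2 := 536870912) (P3 := 858993459) (W3 := 64424510) (N0 := 3) (En := eng) (mo := mog) (C1 := cd0q2) (C2 := cd1q2a) (C3 := pd0)
    rfl k0_pp_202_a

noncomputable def f_pp_202_b : ℕ → ℕ → ℕ → ℕ → Bool := onCell 0 536870912 1239849684 370763052 858993459 64424510
    (rowB 3 eng mog cd0q2 cd1q2b pd0 0 false true true .pp 2 0 2 (qsf 0 536870912 1239849684 370763052 0) ndB0q2 ndB1q2b pcB0 Cut.none Ext.none)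

def k0_pp_202_b : ∃ t, chk3 f_pp_202_b t 1 1 1 = true :=
  ⟨(l 3), by decide +kernel⟩

theorem c_pp_202_b : CertB 0 536870912 1239849684 370763052 858993459 64424510 3 eng mog cd0q2 cd1q2b pd0 false true true .pp 2 0 2
    ndB0q2 ndB1q2b pcB0 Cut.none Ext.none :=
  certB0 (fam := false) (s1 := true) (s2 := true) (a := 2) (b := 0) (c := 2) (cn := .pp) (n1 := ndB0q2) (n2 := ndB1q2b) (pc := pcB0) (cut := Cut.none) (xt := Ext.none) (P1 := 0) (W1 := 536870912) (P2 := 1239849684) (W2 := 370763052) (P3 := 858993459) (W3 := 64424510) (N0 := 3) (En := eng) (mo := mog) (C1 := cd0q2) (C2 := cd1q2b) (C3 := pd0)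
    rfl k0_pp_202_b

noncomputable def f_pp_203 : ℕ → ℕ → ℕ → ℕ → Bool := onCell 0 536870912 0 536870912 858993459 64424510
    (rowB 3 eng mog cd0q2 cd1q3 pd0 1 false true true .up 2 0 3 (qsf 0 536870912 1610612736 536870912 0) ndB0q2 ndB1q3 pcB0 Cut.none Ext.none)

def k0_pp_203 : ∃ t, chk3 f_pp_203 t 1 1 1 = true :=
  ⟨(l 3), by decide +kernel⟩

theorem c_pp_203 : CertB 0 536870912 1610612736 536870912 858993459 64424510 3 eng mog cd0q2 cd1q3 pd0 false true true .up 2 0 3
    ndB0q2 ndB1q3 pcB0 Cut.none Ext.none :=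
  certB1 (fam := false) (s1 := true) (s2 := true) (a := 2) (b := 0) (c := 3) (cn := .up) (n1 := ndB0q2) (n2 := ndB1q3) (pc := pcB0) (cut := Cut.none) (xt := Ext.none) (P1 := 0) (W1 := 536870912) (P2 := 1610612736) (W2 := 536870912) (P3 := 858993459) (W3 := 64424510) (N0 := 3) (En := eng) (mo := mog) (C1 := cd0q2) (C2 := cd1q3) (C3 := pd0)
    rfl (fun _ => rfl) k0_pp_203

noncomputable def cut_pp_213 : Cut := Cut.of [[⟨0, 1, 0, 67108864⟩, ⟨1, 1, 0, 67108864⟩, ⟨2, 2, 0, 16777216⟩]]

noncomputable def f_pp_213 : ℕ → ℕ → ℕ → ℕ → Bool := onCell 0 536870912 1610612736 536870912 858993459 64424510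
    (rowB 3 eng mog cd0q2 cd1q3 pd1 0 false true true .pnn 2 1 3 (qsf 0 536870912 1610612736 536870912 1) ndB0q2 ndB1q3 pcB1 cut_pp_213 Ext.none)

def k0_pp_213 : ∃ t, chk3 f_pp_213 t 1 1 1 = true :=
  ⟨(b (l 3) (a (l 3) (b (l 3) (a (l 3) (b (l 3) (a (l 3) (b (l 3) (b (l 3) (b (l 3) (l 6)))))))))), by decide +kernel⟩

theorem c_pp_213 : CertB 0 536870912 1610612736 536870912 858993459 64424510 3 eng mog cd0q2 cd1q3 pd1 false true true .pnn 2 1 3
    ndB0q2 ndB1q3 pcB1 cut_pp_213 Ext.none :=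
  certB0 (fam := false) (s1 := true) (s2 := true) (a := 2) (b := 1) (c := 3) (cn := .pnn) (n1 := ndB0q2) (n2 := ndB1q3) (pc := pcB1) (cut := cut_pp_213) (xt := Ext.none) (P1 := 0) (W1 := 536870912) (P2 := 1610612736) (W2 := 536870912) (P3 := 858993459) (W3 := 64424510) (N0 := 3) (En := eng) (mo := mog) (C1 := cd0q2) (C2 := cd1q3) (C3 := pd1)
    rfl k0_pp_213

noncomputable def f_pm_001 : ℕ → ℕ → ℕ → ℕ → Bool := onCell 0 536870912 536870912 536870912 858993459 64424510
    (rowB 3 eng mog cd0q0 cd1q1 pd0 0 false true false .up 0 0 1 (qsf 0 536870912 536870912 536870912 0) ndB0q0 ndB1q1 pcB0 Cut.none Ext.none)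

def k0_pm_001 : ∃ t, chk3 f_pm_001 t 1 1 1 = true :=
  ⟨(l 4), by decide +kernel⟩

theorem c_pm_001 : CertB 0 536870912 536870912 536870912 858993459 64424510 3 eng mog cd0q0 cd1q1 pd0 false true false .up 0 0 1
    ndB0q0 ndB1q1 pcB0 Cut.none Ext.none :=
  certB0 (fam := false) (s1 := true) (s2 := false) (a := 0) (b := 0) (c := 1) (cn := .up) (n1 := ndB0q0) (n2 := ndB1q1) (pc := pcB0) (cut := Cut.none) (xt := Ext.none) (P1 := 0) (W1 := 536870912) (P2 := 536870912) (W2 := 536870912) (P3 := 858993459) (W3 := 64424510) (N0 := 3) (En := eng) (mo := mog) (C1 := cd0q0) (C2 := cd1q1) (C3 := pd0)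
    rfl k0_pm_001

noncomputable def f_pm_011 : ℕ → ℕ → ℕ → ℕ → Bool := onCell 0 536870912 536870912 536870912 858993459 64424510
    (rowB 3 eng mog cd0q0 cd1q1 pd1 0 false true false .pnn 0 1 1 (qsf 0 536870912 536870912 536870912 1) ndB0q0 ndB1q1 pcB1 Cut.none Ext.none)

def k0_pm_011 : ∃ t, chk3 f_pm_011 t 1 1 1 = true :=
  ⟨(l 4), by decide +kernel⟩

theorem c_pm_011 : CertB 0 536870912 536870912 536870912 858993459 64424510 3 eng mog cd0q0 cd1q1 pd1 false true false .pnn 0 1 1
    ndB0q0 ndB1q1 pcB1 Cut.none Ext.none :=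
  certB0 (fam := false) (s1 := true) (s2 := false) (a := 0) (b := 1) (c := 1) (cn := .pnn) (n1 := ndB0q0) (n2 := ndB1q1) (pc := pcB1) (cut := Cut.none) (xt := Ext.none) (P1 := 0) (W1 := 536870912) (P2 := 536870912) (W2 := 536870912) (P3 := 858993459) (W3 := 64424510) (N0 := 3) (En := eng) (mo := mog) (C1 := cd0q0) (C2 := cd1q1) (C3 := pd1)
    rfl k0_pm_011

noncomputable def cut_pm_012_a : Cut := Cut.of [[⟨0, 0, 0, 67108864⟩, ⟨1, 1, 0, 67108864⟩, ⟨2, 1, 0, 67108864⟩]]

noncomputable def f_pm_012_a : ℕ → ℕ → ℕ → ℕ → Bool := onCell 0 536870912 0 536870912 858993459 64424510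
    (rowB 3 eng mog cd0q0 cd1q2a pd1 0 false true false .pnp 0 1 2 (qsf 0 536870912 0 536870912 1) ndB0q0 ndB1q2a pcB1 cut_pm_012_a Ext.none)

def k0_pm_012_a : ∃ t, chk3 f_pm_012_a t 4 2 1 = true :=
  ⟨(a (l 2) (b (l 2) (a (l 2) (b (l 2) (a (l 2) (a (l 2) (b (l 2) (c (b (l 16220056) (l 16233952)) (l 16182576))))))))), by decide +kernel⟩

def k1_pm_012_a : ∃ t, chk3 f_pm_012_a t 5 2 1 = true :=
  ⟨(a (a (b (a (l 2) (b (a (l 2) (c (l 16240888) (l 16200200))) (c (b (l 16213168) (l 16226864)) (b (l 16174264) (l 16169776))))) (b (a (a (l 2) (b (c (l 16194536) (l 16154600)) (c (l 16201656) (l 16163544)))) (c (b (a (l 16201792) (l 16208824)) (c (l 16219864) (l 16203664))) (b (l 16171464) (l 16179304)))) (a (b (c (a (l 16230824) (l 16216232)) (a (l 16169032) (l 16178768))) (c (b (l 16228984) (l 16242256)) (a (l 16191392) (l 16200216)))) (c (b (c (l 16233416) (l 16217432)) (c (l 16254680) (l 16238344))) (b (l 16193288) (l 16213336)))))) (b (b (c (a (b (l 16261432) (l 16241648)) (l 16265928))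 (a (l 16240736) (l 16245664))) (a (c (b (l 16227800) (l 16220128)) (b (l 16198904) (l 16193232))) (c (l 16279920) (l 16220176)))) (b (a (c (b (l 16218912) (l 16224432)) (b (l 16193584) (l 16199920))) (c (b (l 16231840) (l 16236456)) (l 16260048))) (c (a (b (l 16236904) (l 16256528)) (b (l 16247752) (l 16265904))) (a (b (l 16212200) (l 16230352)) (b (l 16230672) (l 16246888))))))) (b (a (b (c (a (l 16279896) (l 16293832)) (a (l 16271656) (l 16297664))) (c (a (l 16251648) (l 16265280)) (a (l 16243952) (l 16267696)))) (c (b (a (l 16307416) (l 16320480)) (a (l 16278576) (l 16291344))) (b (a (l 16323920) (l 16350552)) (a (l 16291648) (l 16315936))))) (a (a (b (c (l 16309696) (l 16239056)) (c (b (l 16258552) (l 16275240)) (b (l 16249056) (l 16263296)))) (b (c (l 16280136) (l 16259912)) (c (b (l 16269352) (l 16284600)) (l 16336720)))) (b (c (c (l 16295784) (l 16279888)) (a (l 16280912) (l 16302208))) (b (c (l 16305904) (l 16294928)) (c (l 16318992) (l 16304064))))))), by decide +kernel⟩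

def k2_pm_012_a : ∃ t, chk3 f_pm_012_a t 4 6 1 = true :=
  ⟨(b (a (l 2) (a (l 2) (a (a (b (l 2) (b (l 2) (c (l 16296832) (l 16243504)))) (b (c (b (l 2) (l 16258648)) (l 16260080)) (b (c (l 16278872) (l 16225896)) (c (l 16300136) (l 16248896))))) (b (c (a (b (l 16244704) (l 16263216)) (l 112305743111)) (a (l 16267416) (l 16212208))) (c (b (l 16326944) (l 16305456)) (b (l 16235784) (l 16257808))))))) (a (l 2) (a (b (a (l 2) (a (b (l 2) (c (l 16342728) (l 16289512))) (c (b (l 16318088) (l 16344568)) (b (l 16264688) (l 16292680))))) (a (a (l 2) (b (c (l 16370856) (l 16318040)) (c (l 16423864) (b (l 16342664) (l 16359728))))) (a (b (c (l 16371952) (l 16320080)) (c (l 16403280) (l 16352480))) (c (b (l 16373128) (l 16403744)) (b (l 16322496) (l 16354096)))))) (b (a (a (c (b (l 16320664) (l 16346528)) (b (l 16268976) (l 16296248))) (c (l 16357072) (l 16287096))) (c (b (l 16327856) (l 16352184)) (a (l 16291888) (l 16297024)))) (c (a (b (l 16396104) (l 16404696)) (b (l 16378432) (l 16406592)))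 (a (b (l 16347840) (l 16378224)) (b (l 16334144) (l 16362904)))))))), by decide +kernel⟩

def k3_pm_012_a : ∃ t, chk3 f_pm_012_a t 8 7 1 = true :=
  ⟨(b (a (l 2) (b (a (l 2) (b (l 2) (a (l 2) (c (b (l 16465024) (l 16482080)) (b (a (l 2) (l 16414736)) (a (l 6) (l 16433952))))))) (a (l 6) (a (l 6) (a (l 6) (b (c (l 16508144) (l 16463688)) (c (l 16544808) (l 16504704)))))))) (a (l 6) (a (l 6) (a (l 6) (a (l 6) (a (l 6) (c (b (b (l 16582880) (l 16623040)) (b (l 16643960) (l 16658008))) (b (b (l 16546864) (l 16590992)) (b (b (l 16624960) (l 16648120)) (b (l 16671616) (l 16695432))))))))))), by decide +kernel⟩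

def k4_pm_012_a : ∃ t, chk3 f_pm_012_a t 9 14 1 = true :=
  ⟨(a (b (a (b (a (c (b (l 16428440) (l 16446448)) (b (l 16376976) (l 16395376))) (c (l 16437072) (l 16386272))) (c (a (b (l 16464088) (l 16480784)) (l 16471312)) (a (b (l 16414072) (l 16432952)) (l 16422736)))) (c (b (a (l 16436704) (l 16436416)) (a (l 16470200) (l 16469168))) (a (b (l 16386672) (l 16422256)) (b (l 16387440) (l 16422136))))) (a (c (b (a (l 16506752) (l 16504888)) (a (l 16521888) (l 16540232))) (b (a (l 16441200) (l 16460440)) (a (l 16491984) (l 16499768)))) (c (b (l 16491696) (l 16536400)) (b (a (l 16459040) (l 16457992)) (a (l 16497400) (l 16495384)))))) (b (c (a (b (l 16436232) (l 16467872)) (b (l 16436640) (l 16466800))) (a (b (l 16389320) (l 16401704)) (b (l 16393248) (l 16424792)))) (a (c (b (l 16498952) (l 16531664)) (b (l 16457144) (l 16472088))) (c (b (l 16496456) (l 16527664)) (b (l 16457384) (l 16491328)))))), by decide +kernel⟩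

def k5_pm_012_a : ∃ t, chk3 f_pm_012_a t 9 15 1 = true :=
  ⟨(a (b (a (c (b (a (l 16580744) (l 16577328)) (a (b (l 16610224) (l 16630472)) (b (l 16606176) (l 16625992)))) (b (a (l 16544384) (l 16540672)) (a (c (l 16596480) (l 16578864)) (c (l 16591848) (l 16573920))))) (c (b (a (l 16573944) (l 16570656)) (a (l 16569960) (l 16565824))) (b (a (l 16537280) (l 16534232)) (c (l 16585376) (l 16567256))))) (b (b (c (a (a (l 16630168) (l 16646216)) (l 16638928)) (a (a (l 16621288) (l 16615664)) (l 16607840))) (a (c (l 16648568) (b (l 16614304) (l 16604664))) (c (l 16658856) (l 16587240)))) (b (c (a (l 16646864) (l 16651288)) (a (a (l 16625272) (l 16639440)) (l 16629840))) (a (c (a (l 16649368) (l 16639632)) (a (l 16669680) (l 16683240))) (c (a (l 16629864) (l 16640984)) (l 16651736)))))) (b (b (c (a (c (l 16573920) (l 16557640)) (l 16539400)) (a (l 16530360) (l 16526544))) (c (a (l 16580848) (l 16594520)) (a (c (l 16577736) (l 16559808)) (l 16562936)))) (c (b (a (l 16639120) (l 16630008))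 (a (a (l 16591896) (l 16581832)) (a (l 16571552) (l 16582112)))) (b (a (c (l 16616904) (l 16600200)) (l 16600392)) (a (b (l 16639176) (l 16659832)) (l 16596824)))))), by decide +kernel⟩

def k6_pm_012_a : ∃ t, chk3 f_pm_012_a t 5 3 2 = true :=
  ⟨(b (a (b (a (b (a (b (l 16257520) (l 16274776)) (l 16296224)) (a (b (l 16293184) (l 16312592)) (b (l 16300712) (l 16319064)))) (b (a (l 16283432) (l 16291016)) (a (l 16316104) (l 16321664)))) (a (b (a (l 16387424) (l 16350216)) (a (b (l 16381896) (l 16408664)) (l 16397512))) (b (a (l 16354112) (l 16357440)) (a (l 16398824) (l 16399568))))) (b (b (a (a (l 16298584) (l 16306176)) (l 16316976)) (a (a (l 16327232) (l 16332824)) (l 16361616))) (a (b (l 16404472) (l 16379808)) (b (l 16368640) (l 16401736))))) (a (b (a (b (a (b (l 16437224) (l 16465912)) (l 16450888)) (a (b (l 16494144) (l 16523840)) (l 16421528))) (b (a (l 16449280) (l 16447112)) (a (l 16458944) (l 16495776)))) (a (b (b (l 16531088) (l 16562664)) (a (c (a (l 16550368) (l 16540440))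 (l 16557912)) (b (l 16600280) (l 16525696)))) (b (a (l 16556616) (l 16548256)) (a (b (l 16581632) (l 16506560)) (a (l 16478104) (l 16468968)))))) (b (b (a (l 16381032) (l 16418056)) (a (l 16488192) (l 16477328))) (b (a (b (l 16523288) (l 16547904)) (l 16518224)) (b (a (l 16536480) (l 16501208)) (a (c (l 16444592) (l 16528696)) (b (l 16448712) (l 16441072)))))))), by decide +kernel⟩

def k7_pm_012_a : ∃ t, chk3 f_pm_012_a t 5 3 3 = true :=
  ⟨(b (a (b (a (b (a (c (l 16234800) (l 16212816)) (l 16239368)) (a (b (l 16249656) (l 16270368)) (l 16294136))) (b (a (l 16254264) (l 16268640)) (a (l 16285592) (l 16297448)))) (a (b (a (l 16304848) (l 16315040)) (a (l 16334992) (l 16362992))) (b (a (l 16324592) (l 16333528)) (a (l 16369320) (l 16375008))))) (b (a (a (b (l 16282848) (l 16309104)) (l 16288176)) (b (l 16317952) (l 16316704))) (a (b (l 16325480) (l 16362000)) (b (l 16363232) (l 16393000))))) (a (b (a (b (a (l 16412992) (l 16416488)) (a (b (l 16458384) (l 16490328)) (l 16474176)))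 (b (a (l 16419256) (l 16421328)) (a (l 16473040) (l 16471168)))) (a (a (b (b (l 16523432) (l 16557600)) (b (l 16592704) (l 16628608))) (b (l 16515128) (b (l 16584576) (l 16615296)))) (b (a (l 16530640) (l 16524408)) (a (b (l 16575592) (l 16595312)) (l 16517320))))) (b (a (b (l 16423800) (l 16404728)) (b (l 16426360) (l 16462088))) (b (a (l 16503800) (l 16499800)) (a (a (l 16501032) (l 16503784)) (b (l 16525176) (l 16512080))))))), by decide +kernel⟩

def k8_pm_012_a : ∃ t, chk3 f_pm_012_a t 3 2 2 = true :=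
  ⟨(a (a (b (a (b (c (l 16328440) (l 16350672)) (c (l 16300856) (l 16319040))) (b (c (l 16344144) (l 16380872)) (c (l 16316896) (l 16347672)))) (b (a (c (l 16292216) (l 16306808)) (c (l 16306696) (l 16332136))) (a (a (l 16367912) (l 16355144)) (a (l 16299872) (l 16306912))))) (b (c (b (a (l 16356696) (l 16345088)) (a (l 16329784) (l 16339488))) (a (b (l 16409304) (l 16374512)) (b (l 16373008) (l 16399512)))) (b (a (c (l 16318088) (l 16355648)) (c (l 16326352) (l 16377288))) (a (b (l 16313840) (l 16339432)) (c (l 16327416) (l 16369344)))))) (a (b (b (c (a (c (l 16351888) (l 16394224)) (c (l 16351656) (l 16404056))) (a (l 16461336) (l 16486096))) (c (a (l 16346592) (l 16498600)) (a (l 16381336) (l 16446376)))) (c (b (a (l 16332104) (l 16378008)) (a (l 16329784) (l 16372464))) (a (b (l 16397688) (l 16384392)) (b (l 16375448) (l 16398728))))) (b (b (c (a (c (l 16351448) (l 16414232)) (c (a (l 16353216) (l 16356064)) (l 16427336))) (a (l 16511296) (l 16516936))) (c (a (c (l 16330224)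 (l 16384840)) (c (l 16334680) (l 16397864))) (a (l 16469928) (l 16494976)))) (c (a (b (c (l 16317200) (l 16364104)) (l 16457616)) (b (c (l 16321192) (l 16375440)) (l 16231592))) (b (a (l 16437552) (l 16459208)) (a (l 16413504) (l 16429720))))))), by decide +kernel⟩

def k9_pm_012_a : ∃ t, chk3 f_pm_012_a t 3 3 2 = true :=
  ⟨(a (b (a (b (a (a (l 16316216) (l 16321000)) (c (l 16404432) (l 16334288))) (a (b (l 16372848) (l 16400768)) (b (l 16374872) (l 16397608)))) (b (c (a (l 16322216) (l 16321040)) (a (l 16365904) (l 16374632))) (c (b (l 16300360) (l 16296440)) (a (l 16391616) (l 16390400))))) (b (a (b (a (l 16411192) (l 16423072)) (a (l 16464464) (l 16449344))) (b (a (l 16411624) (l 16397904)) (a (l 16431856) (l 16412136)))) (a (b (a (l 16487512) (l 16458048)) (a (b (l 16468000) (l 16368824)) (b (l 16437072) (l 16357912)))) (b (a (l 16430952) (l 16406064)) (a (b (l 16408512) (l 16349360)) (b (l 16382168) (l 16322056))))))) (b (a (b (c (a (l 16317680) (l 16312920)) (a (l 16382072)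 (l 16388792))) (a (c (l 16335128) (l 16387880)) (c (l 16343880) (l 16384624)))) (b (a (c (l 16308856) (l 16395888)) (c (l 16245288) (l 16404312))) (a (c (l 16332520) (l 16381680)) (c (l 16324512) (l 16379880))))) (a (b (a (b (l 16382632) (l 16390944)) (b (l 16366552) (l 16369016))) (b (a (l 16382616) (l 16359808)) (a (l 16368816) (l 16323104)))) (a (b (b (l 16351176) (l 16347800)) (b (l 16336248) (c (l 16301192) (l 16293536)))) (b (c (l 16316872) (l 16351424)) (b (l 16310768) (c (l 16274176) (l 16265480)))))))), by decide +kernel⟩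

def k10_pm_012_a : ∃ t, chk3 f_pm_012_a t 3 2 3 = true :=
  ⟨(a (a (b (a (b (c (l 16376624) (l 16406336)) (l 16206056)) (b (c (l 16422680) (l 16469584)) (c (l 16383136) (l 16423336)))) (a (b (l 16208720) (l 16188480)) (b (c (l 16361768) (l 16374648)) (l 16245280)))) (b (a (b (l 16353040) (l 16305704)) (b (l 16382296) (l 16354856))) (b (a (c (l 16398464) (l 16446544)) (l 16339192)) (a (l 16312520) (l 16358288))))) (a (b (a (b (l 16376072) (l 16391200)) (b (c (l 16547368) (l 16482128)) (l 16363968))) (a (b (l 16381536) (l 16392992)) (b (l 16372632) (l 16377728)))) (a (b (c (b (l 16550456) (l 16535448)) (b (l 16470744) (l 16469752))) (b (l 16324008) (l 16345880))) (b (c (b (l 16555608) (l 16538752)) (b (l 16439112) (l 16441904))) (b (c (l 16515416) (l 16453552)) (c (l 16486496) (l 16436456))))))), by decide +kernel⟩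

def k11_pm_012_a : ∃ t, chk3 f_pm_012_a t 3 3 3 = true :=
  ⟨(a (b (a (b (a (b (l 16346600) (l 16360936)) (b (l 16375504) (l 16384336))) (a (b (l 16380280) (l 16403152)) (l 16405752))) (b (a (b (l 16404240) (l 16407464)) (l 16389592)) (a (l 16418816) (l 16431096)))) (b (a (b (a (l 16428904) (l 16431176)) (a (l 16456368) (l 16450264))) (a (b (l 16432832) (l 16443480)) (b (l 16433608) (l 16430056)))) (a (b (a (l 16485048) (l 16469832)) (a (b (l 16489560) (l 16476256)) (b (l 16454456) (l 16440856)))) (a (b (l 16439104) (b (l 16420032) (l 16406024))) (b (l 16406408) (l 16379128)))))) (b (a (b (a (l 16372416) (l 16336048)) (a (l 16442752) (l 16323056))) (b (a (l 16320160) (c (l 16450744) (l 16412424))) (a (c (l 16419280) (l 16390808)) (c (l 16402520) (l 16371488))))) (a (b (c (b (l 16414504) (l 16389920)) (a (l 16405672) (l 16373872))) (b (a (l 16374176) (l 16342352)) (a (l 16345320) (l 16311536)))) (b (a (b (l 16369280) (l 16341776)) (b (l 16346984) (l 16316384))) (b (a (l 16311528)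 (l 16283096)) (a (l 16320264) (a (l 16212576) (l 16176640)))))))), by decide +kernel⟩

theorem s12_pm_012_a : ∃ t, chk3 f_pm_012_a t 3 1 3 = true := ex3_b k10_pm_012_a k11_pm_012_a

theorem s13_pm_012_a : ∃ t, chk3 f_pm_012_a t 3 1 2 = true := ex3_b k8_pm_012_a k9_pm_012_a

theorem s14_pm_012_a : ∃ t, chk3 f_pm_012_a t 3 1 1 = true := ex3_c s13_pm_012_a s12_pm_012_a

theorem s15_pm_012_a : ∃ t, chk3 f_pm_012_a t 5 3 1 = true := ex3_c k6_pm_012_a k7_pm_012_a

theorem s16_pm_012_a : ∃ t, chk3 f_pm_012_a t 9 7 1 = true := ex3_b k4_pm_012_a k5_pm_012_a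

theorem s17_pm_012_a : ∃ t, chk3 f_pm_012_a t 4 7 1 = true := ex3_a k3_pm_012_a s16_pm_012_a

theorem s18_pm_012_a : ∃ t, chk3 f_pm_012_a t 4 3 1 = true := ex3_b k2_pm_012_a s17_pm_012_a

theorem s19_pm_012_a : ∃ t, chk3 f_pm_012_a t 2 3 1 = true := ex3_a s18_pm_012_a s15_pm_012_a

theorem s20_pm_012_a : ∃ t, chk3 f_pm_012_a t 2 2 1 = true := ex3_a k0_pm_012_a k1_pm_012_a

theorem s21_pm_012_a : ∃ t, chk3 f_pm_012_a t 2 1 1 = true := ex3_b s20_pm_012_a s19_pm_012_a

theorem s22_pm_012_a : ∃ t, chk3 f_pm_012_a t 1 1 1 = true := ex3_a s21_pm_012_a s14_pm_012_a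

theorem c_pm_012_a : CertB 0 536870912 0 536870912 858993459 64424510 3 eng mog cd0q0 cd1q2a pd1 false true false .pnp 0 1 2
    ndB0q0 ndB1q2a pcB1 cut_pm_012_a Ext.none :=
  certB0 (fam := false) (s1 := true) (s2 := false) (a := 0) (b := 1) (c := 2) (cn := .pnp) (n1 := ndB0q0) (n2 := ndB1q2a) (pc := pcB1) (cut := cut_pm_012_a) (xt := Ext.none) (P1 := 0) (W1 := 536870912) (P2 := 0) (W2 := 536870912) (P3 := 858993459) (W3 := 64424510) (N0 := 3) (En := eng) (mo := mog) (C1 := cd0q0) (C2 := cd1q2a) (C3 := pd1)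
    rfl s22_pm_012_a

noncomputable def cut_pm_012_b : Cut := Cut.of [[⟨0, 0, 0, 67108864⟩, ⟨1, 1, 0, 67108864⟩, ⟨2, 1, 0, 67108864⟩]]

noncomputable def f_pm_012_b : ℕ → ℕ → ℕ → ℕ → Bool := onCell 536870912 536870912 1239849684 370763052 858993459 64424510
    (rowB 3 eng mog cd0q0 cd1q2b pd1 2 false true false .pnp 0 1 2 (qsf 0 536870912 1239849684 370763052 1) ndB0q0 ndB1q2b pcB1 cut_pm_012_b Ext.none)

def k0_pm_012_b : ∃ t, chk3 f_pm_012_b t 2 1 1 = true :=
  ⟨(b (a (l 2) (b (a (b (a (a (l 2) (a (l 2) (b (c (c (l 16401584) (l 16571544)) (l 16341896)) (l 2)))) (b (c (c (c (a (l 16356856) (l 16353240)) (l 16433184)) (l 16489680)) (c (l 16574584) (l 16367384))) (a (l 2) (c (c (l 16370632) (l 16530272)) (l 16481232))))) (l 2)) (c (b (b (a (c (a (l 16385176) (l 16380560)) (l 16522040)) (c (a (l 16376704) (l 16373640)) (l 16493000))) (a (c (c (l 16323728) (l 16393480)) (l 16502552)) (c (a (l 16346368) (l 16339712)) (l 16465768)))) (b (c (a (c (l 16303520) (l 16374816)) (l 16338808))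 (a (l 16487224) (l 16444216))) (a (l 2) (c (l 16297456) (l 16427136))))) (c (b (a (l 16388336) (l 16441584)) (a (l 16576192) (l 16570496))) (b (a (b (l 16483992) (l 16517776)) (b (l 16473040) (l 16520568))) (a (l 16571552) (l 16563016)))))) (b (a (l 2) (a (l 2) (a (l 2) (b (c (l 16210408) (l 16606248)) (l 2))))) (l 2)))) (l 2)), by decide +kernel⟩

def k1_pm_012_b : ∃ t, chk3 f_pm_012_b t 6 1 1 = true :=
  ⟨(b (b (a (c (b (a (c (b (a (l 16370264) (l 16366528)) (l 16330888)) (c (l 16275368) (l 16473104))) (c (b (l 16339648) (l 16317944)) (c (l 16227840) (l 16436040)))) (a (c (b (l 16297720) (l 16270920)) (b (l 16401584) (l 16377920))) (b (c (l 16280088) (l 16360736)) (c (l 16246992) (l 16330424))))) (b (a (c (l 16488768) (l 16387384)) (b (l 16430608) (l 16464016))) (a (c (l 16503976) (l 16550528)) (c (l 16436392) (l 16534712))))) (b (c (a (c (b (l 16349648) (l 16303440)) (b (l 16406152) (l 16360936))) (b (a (l 16360376) (l 16348472)) (a (l 16311128) (l 16297040)))) (a (b (l 16356248)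 (l 16460168)) (b (l 16307176) (l 16330312)))) (c (a (b (l 16100824) (l 16126280)) (b (l 16257936) (l 16215952))) (a (c (l 16368872) (l 16443912)) (c (l 16260608) (l 16354024)))))) (b (a (c (a (c (l 16389728) (l 16248200)) (b (l 16030144) (l 16346016))) (a (c (l 16474200) (l 16588256)) (l 16213544))) (c (a (b (l 16219720) (l 16192408)) (b (l 16177968) (l 16145288))) (a (b (l 16361464) (l 16339040)) (l 16047320)))) (a (a (l 2) (a (c (l 16423800) (l 16447600)) (c (l 16206960) (l 16394400)))) (a (c (b (l 16171480) (l 16156928)) (c (l 16273280) (l 16357512))) (c (b (l 16118024) (l 16096200)) (l 15977352)))))) (b (a (l 2) (a (b (b (c (l 16147616) (l 16235808)) (l 2)) (l 2)) (b (c (b (l 16081720) (l 16072272)) (l 15968080)) (c (b (l 16067776) (l 2)) (l 15914568))))) (l 2))), by decide +kernel⟩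

def k2_pm_012_b : ∃ t, chk3 f_pm_012_b t 7 1 1 = true :=
  ⟨(b (b (a (a (b (c (b (a (l 16335952) (l 16322816)) (l 16274664)) (a (c (l 16353656) (l 16388936)) (l 16192592))) (c (b (l 16223880) (l 16177176)) (b (l 16274888) (l 16227464)))) (b (b (c (a (l 16309104) (l 16294824)) (a (l 16339328) (l 16310168))) (c (l 16284328) (l 16261608))) (c (b (l 16186944) (l 16135824)) (b (l 16203120) (l 16149416))))) (a (b (b (c (a (l 16279880) (l 16264680)) (a (l 16281520) (l 16253032))) (c (l 16270528) (l 16197776))) (c (a (l 16129768) (l 16108032)) (a (l 16120840) (l 16084744)))) (b (b (a (c (l 16249248) (l 16224744)) (c (l 16296512) (l 16238904))) (a (c (l 16179848) (l 16151128)) (c (l 16160968) (l 16120536)))) (b (a (l 16098472) (l 16155008)) (a (l 16036384) (l 16006248)))))) (a (b (a (c (l 16199856) (l 16040704)) (c (l 16130512) (l 15973480))) (a (c (l 16112984) (l 16019128)) (c (l 16033912) (l 16001256)))) (b (a (c (l 16016488) (l 15992824)) (a (l 15952512) (l 16002176))) (a (c (l 15931912)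 (l 15902416)) (a (l 15898744) (l 15817432)))))) (b (a (c (b (a (b (l 16014624) (l 15999760)) (l 16188856)) (a (l 16072480) (l 15907032))) (a (b (l 15956304) (l 16038496)) (b (l 15861992) (l 15911456)))) (a (b (c (l 15866616) (l 15833264)) (a (l 15933496) (l 16029256))) (b (c (l 15793984) (l 15724848)) (c (l 15740208) (l 15664584))))) (a (b (a (l 2) (b (l 16105824) (l 15896096))) (l 2)) (a (b (c (l 15807072) (l 15760328)) (a (l 2) (l 15750360))) (b (c (l 15710296) (l 15626968)) (c (l 15707120) (l 15609888))))))), by decide +kernel⟩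

theorem s3_pm_012_b : ∃ t, chk3 f_pm_012_b t 3 1 1 = true := ex3_a k1_pm_012_b k2_pm_012_b

theorem s4_pm_012_b : ∃ t, chk3 f_pm_012_b t 1 1 1 = true := ex3_a k0_pm_012_b s3_pm_012_b

theorem c_pm_012_b : CertB 0 536870912 1239849684 370763052 858993459 64424510 3 eng mog cd0q0 cd1q2b pd1 false true false .pnp 0 1 2
    ndB0q0 ndB1q2b pcB1 cut_pm_012_b Ext.none :=
  certB2 (fam := false) (s1 := true) (s2 := false) (a := 0) (b := 1) (c := 2) (cn := .pnp) (n1 := ndB0q0) (n2 := ndB1q2b) (pc := pcB1) (cut := cut_pm_012_b) (xt := Ext.none) (P1 := 0) (W1 := 536870912) (P2 := 1239849684) (W2 := 370763052) (P3 := 858993459) (W3 := 64424510) (N0 := 3) (En := eng) (mo := mog) (C1 := cd0q0) (C2 := cd1q2b) (C3 := pd1)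
    rfl (fun _ => rfl) s4_pm_012_b

noncomputable def cut_pm_022_a : Cut := Cut.of [[⟨0, 0, 0, 67108864⟩, ⟨1, 1, 0, 67108864⟩, ⟨2, 1, 0, 67108864⟩]]

noncomputable def f_pm_022_a : ℕ → ℕ → ℕ → ℕ → Bool := onCell 1073741824 536870912 0 536870912 858993459 64424510
    (rowB 3 eng mog cd0q0 cd1q2a pd2 2 false true false .pp 0 2 2 (qsf 0 536870912 0 536870912 2) ndB0q0 ndB1q2a pcB2 cut_pm_022_a Ext.none)

def k0_pm_022_a : ∃ t, chk3 f_pm_022_a t 4 2 1 = true :=
  ⟨(a (b (a (c (b (a (l 16332784) (l 16350432)) (a (l 16293352) (l 16316560))) (b (a (l 16351104) (l 16377784)) (a (l 16307304) (l 16339216)))) (c (b (a (l 16368856) (l 16388656)) (a (l 16340904) (l 16366488))) (a (b (l 16404512) (l 16371632)) (l 16272592)))) (a (c (b (a (l 16360232) (l 16368432)) (a (b (l 16279920) (l 16292944)) (b (l 16314040) (l 16330440)))) (b (a (l 16261800) (l 16320344)) (a (b (l 16277904) (l 16283448)) (b (l 16320304) (l 16329208))))) (c (b (a (l 16314960) (l 16367744)) (a (c (l 16336600) (l 16361688))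 (b (l 16385968) (l 16409048)))) (b (a (l 16358672) (l 16377072)) (a (l 16265168) (b (l 16407736) (l 16423624))))))) (b (a (b (a (l 16266112) (l 16291544)) (a (c (l 16372344) (l 16438840)) (c (l 16420760) (l 16473104)))) (c (b (l 16338504) (a (l 16448232) (l 16463720))) (b (b (l 16276816) (l 16265000)) (a (l 16442312) (a (l 16415248) (l 16375240)))))) (a (c (b (a (l 16316504) (l 16412256)) (a (c (l 16346656) (l 16378976)) (b (l 16459784) (l 16488296)))) (a (b (l 16437872) (b (l 16452160) (l 16471144))) (b (l 16477712) (b (l 16496264) (l 16516840))))) (c (b (a (l 16465776) (l 16367632)) (a (b (l 16496024) (l 16467944)) (b (l 16371096) (c (l 16422536) (l 16403184))))) (a (b (l 16395896) (b (l 16449056) (l 16392704))) (b (b (l 16353752) (l 16360064)) (b (a (l 16439200) (l 16417744)) (c (l 16381824) (l 215317932967))))))))), by decide +kernel⟩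

def k1_pm_022_a : ∃ t, chk3 f_pm_022_a t 8 6 1 = true :=
  ⟨(a (b (c (b (a (a (l 16305072) (l 16325256)) (l 16398288)) (a (a (l 16334752) (l 16356944)) (c (l 16394952) (l 16386616)))) (a (b (l 16338528) (c (l 16326824) (l 16313632))) (b (l 16346016) (c (l 16378072) (l 16369304))))) (c (a (b (a (l 16373600) (l 16397672)) (a (b (l 16410240) (l 16439016)) (b (l 16435672) (l 16465288)))) (a (b (l 16421944) (l 16486864)) (b (l 16446296) (l 16523248)))) (a (b (a (l 16342816) (l 16371328)) (a (b (l 16377240) (l 16404608)) (l 16421440))) (b (a (l 16400024) (l 16428872)) (a (l 16452128) (l 16482864)))))) (b (a (c (b (l 16398680) (c (l 16438512) (l 16434264))) (b (l 16396504) (a (l 16414328) (l 16441480)))) (b (c (l 16378488) (l 16426416)) (c (b (l 16471056) (l 16492968)) (b (l 16471640) (l 16492656))))) (a (b (c (a (l 16470656) (l 16494992)) (a (l 16457808) (l 16486704))) (a (c (b (l 16512160) (l 16543976)) (l 16450680)) (c (l 16553744) (l 16481288)))) (c (b (a (l 16519192) (l 16543240))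 (a (l 16579240) (l 16604496))) (b (a (l 16515528) (l 16544160)) (a (l 16574592) (l 16604664))))))), by decide +kernel⟩

def k2_pm_022_a : ∃ t, chk3 f_pm_022_a t 9 6 1 = true :=
  ⟨(b (a (c (a (b (l 16483968) (a (l 16515984) (l 16538384))) (b (l 16525888) (a (l 16552264) (l 16514608)))) (a (b (l 16498056) (l 16535928)) (b (l 16524736) (b (l 16529112) (l 16467096))))) (a (c (b (a (l 16518200) (l 16438104)) (a (b (l 16517904) (l 16518352)) (b (l 16458056) (l 571263627335)))) (b (c (l 16447728) (l 16432744)) (a (b (l 16496328) (l 16496360)) (b (l 16473608) (l 544420024631))))) (b (c (a (b (l 16483848) (l 444561972631)) (l 480532246231)) (a (l 390337934391) (l 456373062599))) (l 1)))) (a (a (b (c (b (l 16564592) (l 16517296)) (a (l 16572504) (l 16563568))) (c (a (b (l 16589528) (l 16548232)) (b (l 16551528) (c (l 300143928407) (l 288332755159)))) (a (b (l 16586232) (l 16565272)) (b (l 16542960) (c (l 286185259911) (l 16539840)))))) (b (c (a (b (l 16554056) (l 16533664)) (c (l 477311221223)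 (l 465500048407))) (a (l 16478576) (b (l 16518984) (l 520797822599)))) (a (b (c (l 499859925191) (l 484290558551)) (l 1)) (l 1)))) (a (b (a (b (c (l 556768162295) (l 530998310823)) (l 1)) (l 1)) (l 1)) (l 1)))), by decide +kernel⟩

def k3_pm_022_a : ∃ t, chk3 f_pm_022_a t 4 7 1 = true :=
  ⟨(a (b (b (b (a (a (c (a (l 16450280) (l 16498328)) (c (l 16460312) (l 16442656))) (a (a (l 16547568) (l 16562320)) (a (l 16556080) (l 16602240)))) (a (c (a (l 16537160) (l 16605728)) (a (l 16563912) (l 16595688))) (a (a (l 16622592) (l 16601512)) (c (l 16565672) (l 16566488))))) (a (b (a (c (c (l 16518160) (l 16502704)) (c (l 16486128) (l 16468432))) (c (a (l 16551952) (l 16579400)) (a (l 16526688) (l 16559464)))) (l 6)) (a (c (a (l 16615560) (l 16642776)) (a (l 16591432) (l 16634424))) (c (a (c (l 16584240) (l 16606880)) (a (b (l 16612976) (l 6)) (l 558378928071))) (a (l 16583688) (a (l 249678140743) (l 538514674039))))))) (a (l 6) (a (l 6) (a (l 6) (a (l 6) (l 1)))))) (a (l 6) (a (l 6) (l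 1)))) (b (a (b (a (a (b (c (c (l 294775248295) (l 283500951463)) (a (l 16570344) (l 534756573591))) (a (c (l 622266579719) (l 629245889591)) (l 1))) (b (c (l 631930186503) (l 608307846023)) (l 1))) (l 1)) (l 1)) (l 1)) (l 1))), by decide +kernel⟩

def k4_pm_022_a : ∃ t, chk3 f_pm_022_a t 5 1 1 = true :=
  ⟨(b (a (b (b (a (a (c (l 16423592) (l 16246880)) (c (c (l 16411888) (l 16374936)) (c (l 16333776) (l 190084685655)))) (l 1)) (a (a (c (l 16329048) (b (l 16321216) (l 16285808))) (c (c (l 348461988391) (l 16321144)) (c (l 198137863095) (b (l 16278608) (l 231960680535))))) (l 1))) (a (a (b (c (c (l 16369800) (l 16341816)) (b (c (l 16392616) (l 16357432)) (a (l 16391248) (l 234645198775)))) (a (c (b (l 16387256) (l 469794786087)) (b (l 243235212247) (l 445098691383))) (b (c (l 473015970903) (l 446172354695)) (l 1)))) (a (b (c (c (l 16366752) (l 451541084007)) (b (l 246456276551) (l 484290108343))) (l 1)) (l 1))) (l 1))) (l 1)) (b (l 1) (l 1))), by decide +kernel⟩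

def k5_pm_022_a : ∃ t, chk3 f_pm_022_a t 3 1 1 = true :=
  ⟨(l 1), by decide +kernel⟩

theorem s6_pm_022_a : ∃ t, chk3 f_pm_022_a t 4 6 1 = true := ex3_a k1_pm_022_a k2_pm_022_a

theorem s7_pm_022_a : ∃ t, chk3 f_pm_022_a t 4 3 1 = true := ex3_b s6_pm_022_a k3_pm_022_a

theorem s8_pm_022_a : ∃ t, chk3 f_pm_022_a t 4 1 1 = true := ex3_b k0_pm_022_a s7_pm_022_a

theorem s9_pm_022_a : ∃ t, chk3 f_pm_022_a t 2 1 1 = true := ex3_a s8_pm_022_a k4_pm_022_a

theorem s10_pm_022_a : ∃ t, chk3 f_pm_022_a t 1 1 1 = true := ex3_a s9_pm_022_a k5_pm_022_a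

theorem c_pm_022_a : CertB 0 536870912 0 536870912 858993459 64424510 3 eng mog cd0q0 cd1q2a pd2 false true false .pp 0 2 2
    ndB0q0 ndB1q2a pcB2 cut_pm_022_a Ext.none :=
  certB2 (fam := false) (s1 := true) (s2 := false) (a := 0) (b := 2) (c := 2) (cn := .pp) (n1 := ndB0q0) (n2 := ndB1q2a) (pc := pcB2) (cut := cut_pm_022_a) (xt := Ext.none) (P1 := 0) (W1 := 536870912) (P2 := 0) (W2 := 536870912) (P3 := 858993459) (W3 := 64424510) (N0 := 3) (En := eng) (mo := mog) (C1 := cd0q0) (C2 := cd1q2a) (C3 := pd2)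
    rfl (fun _ => rfl) s10_pm_022_a

noncomputable def cut_pm_022_b : Cut := Cut.of [[⟨0, 0, 0, 67108864⟩, ⟨1, 1, 0, 67108864⟩, ⟨2, 1, 0, 67108864⟩]]

noncomputable def f_pm_022_b : ℕ → ℕ → ℕ → ℕ → Bool := onCell 0 536870912 1073741824 536870912 858993459 64424510
    (rowB 3 eng mog cd0q0 cd1q2b pd2 1 false true false .pp 0 2 2 (qsf 0 536870912 1239849684 370763052 2) ndB0q0 ndB1q2b pcB2 cut_pm_022_b Ext.none)

def k0_pm_022_b : ∃ t, chk3 f_pm_022_b t 4 2 1 = true :=
  ⟨(b (b (a (l 1) (b (a (l 1) (b (l 1) (c (a (l 1) (l 16344752)) (l 200285876311)))) (a (b (l 1) (a (l 1) (l 384969064087))) (c (a (c (l 16414592) (l 16431768)) (b (l 16342176) (l 16343640))) (c (l 16421792) (l 16443600)))))) (a (b (a (l 1) (a (l 1) (b (l 1) (l 350609412599)))) (b (a (l 1) (c (l 274910588183) (l 346314290823))) (c (a (l 322155105143) (l 16341360)) (a (l 326986818343) (l 236792564279))))) (c (a (c (b (b (l 16439992) (l 16396344)) (l 16337664)) (b (l 16442320) (l 16366576))) (b (c (l 16198376) (l 16263920))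 (b (l 16262240) (l 16229672)))) (a (b (l 206191079127) (l 16415016)) (b (l 16368312) (l 16307928)))))) (c (b (b (a (a (b (l 350609216807) (a (l 16262928) (l 16395104))) (c (l 16373920) (l 16399240))) (a (l 16282296) (l 16058168))) (a (a (b (l 16242512) (l 16301000)) (l 16318864)) (a (l 16219080) (l 16107440)))) (b (a (a (a (l 16278488) (l 16304072)) (l 16253776)) (c (l 15916160) (l 16135896))) (a (a (l 16241432) (l 16195544)) (l 16073496)))) (a (a (b (b (c (b (l 356514774567) (l 245382440343)) (b (l 361883430359) (a (l 16261640) (l 16299416)))) (b (a (l 16155112) (l 16295832)) (l 16116168))) (b (c (l 16223288) (l 16115696)) (c (l 16185440) (l 16141528)))) (b (b (a (l 16241208) (l 16356632)) (l 16238440)) (b (l 16247728) (l 16189768)))) (a (b (b (l 16352680) (l 16291976)) (l 16208632)) (b (b (l 16251424) (l 16198192)) (l 16126032)))))), by decide +kernel⟩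

def k1_pm_022_b : ∃ t, chk3 f_pm_022_b t 5 2 1 = true :=
  ⟨(b (a (b (a (c (b (c (b (l 274373497735) (l 16355736)) (b (l 278668508087) (l 16346704))) (b (l 16300760) (l 16263664))) (b (c (l 265783553303) (l 265246723607)) (l 16195872))) (c (b (a (l 16341096) (l 16226256)) (c (l 16173472) (l 16188952))) (b (b (l 16289296) (l 16259744)) (l 16113168)))) (a (b (c (b (l 16228728) (l 16195872)) (l 16179856)) (c (l 16192192) (l 16147320))) (c (b (l 16149544) (l 16063328)) (b (l 16166936) (l 16120240))))) (c (b (b (a (c (l 16151232) (l 16157504)) (l 16130264)) (a (c (l 16083832) (l 16096640)) (l 16009664))) (a (b (l 16033904) (l 15985776)) (b (l 15960080) (l 15918120)))) (b (b (a (l 16255280) (l 16077976)) (a (l 16122096) (l 16035464))) (b (a (l 16077872) (l 15997920)) (a (l 16037968) (l 15964632)))))) (b (a (b (c (a (l 16095664) (l 16015624)) (l 16097360)) (c (a (l 16047104) (l 15973880)) (l 16075248))) (c (b (a (l 15944592) (l 15882984)) (l 15859640)) (b (l 15862912) (l 15938096))))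 (b (a (c (a (l 16004720) (l 15938272)) (l 16036064)) (c (l 15854376) (l 15912272))) (a (c (l 15996200) (l 16002136)) (c (l 15834944) (l 15891632)))))), by decide +kernel⟩

def k2_pm_022_b : ∃ t, chk3 f_pm_022_b t 3 2 1 = true :=
  ⟨(a (b (b (a (b (c (a (l 15990856) (l 15924520)) (a (l 15995152) (l 15923088))) (c (a (l 15939416) (l 15879064)) (a (l 15959120) (l 15893216)))) (c (b (a (l 15910352) (c (l 15827640) (l 15818720))) (a (l 15828688) (l 15788520))) (b (a (l 15861928) (l 15811888)) (a (l 15837888) (l 15793344))))) (a (b (c (a (l 15895856) (l 15841256)) (l 15897288)) (c (l 15834448) (l 15873264))) (c (b (a (l 15796368) (l 15761448)) (l 15755328)) (b (l 15798096) (l 15785368))))) (b (a (c (b (l 15807712) (l 15786696)) (b (l 15852912) (l 15835776))) (c (b (l 15738912) (l 15728072)) (l 15835672))) (a (c (l 15892432) (l 15817600)) (c (l 15722952) (l 15768816))))) (a (b (b (c (b (a (c (l 15794472) (l 15783160)) (c (l 15773296) (l 15759592))) (a (l 15759256) (l 15741520))) (b (a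 (l 15773768) (l 15747920)) (a (l 15760224) (l 15738824)))) (c (b (a (l 15737096) (l 15723816)) (l 15716112)) (b (l 15741736) (l 15738600)))) (b (c (b (l 15708800) (l 2)) (l 15740368)) (l 2))) (b (a (b (c (b (c (l 15765584) (l 15748960)) (l 15736232)) (b (l 15734144) (l 15728920))) (c (b (l 15722248) (l 2)) (l 15728696))) (b (c (b (c (l 15772472) (l 15751880)) (l 15743936)) (b (l 15731576) (l 15729848))) (l 2))) (l 2)))), by decide +kernel⟩

def k3_pm_022_b : ∃ t, chk3 f_pm_022_b t 1 3 1 = true :=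
  ⟨(a (b (b (a (b (a (a (b (l 15926768) (l 15956512)) (l 15906544)) (c (l 16033176) (l 16100696))) (a (c (l 16111496) (a (l 16034136) (l 16063096))) (c (l 15997136) (l 16061952)))) (a (c (b (l 15912544) (l 15891088)) (l 15960336)) (c (b (l 15821648) (l 15813048)) (l 15869792)))) (c (a (a (b (l 16040752) (l 15968576)) (l 16138184)) (a (l 15866168) (l 15808008))) (a (a (b (l 15981456) (l 15912288)) (l 15992872)) (a (l 15917128) (l 15853824))))) (a (b (a (c (b (l 15896336) (l 15825568)) (a (l 15534864) (l 15829312))) (c (l 15891728) (l 15873376))) (a (b (l 15735224) (l 15784408)) (b (l 15805136) (l 2)))) (b (a (c (l 15842232) (l 15879624)) (l 2)) (l 2)))) (b (a (b (a (c (l 15761216) (l 15810584)) (l 2)) (l 2)) (l 2)) (l 2))), by decide +kernel⟩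

theorem s4_pm_022_b : ∃ t, chk3 f_pm_022_b t 2 2 1 = true := ex3_a k0_pm_022_b k1_pm_022_b

theorem s5_pm_022_b : ∃ t, chk3 f_pm_022_b t 1 2 1 = true := ex3_a s4_pm_022_b k2_pm_022_b

theorem s6_pm_022_b : ∃ t, chk3 f_pm_022_b t 1 1 1 = true := ex3_b s5_pm_022_b k3_pm_022_b

theorem c_pm_022_b : CertB 0 536870912 1239849684 370763052 858993459 64424510 3 eng mog cd0q0 cd1q2b pd2 false true false .pp 0 2 2
    ndB0q0 ndB1q2b pcB2 cut_pm_022_b Ext.none :=
  certB1 (fam := false) (s1 := true) (s2 := false) (a := 0) (b := 2) (c := 2) (cn := .pp) (n1 := ndB0q0) (n2 := ndB1q2b) (pc := pcB2) (cut := cut_pm_022_b) (xt := Ext.none) (P1 := 0) (W1 := 536870912) (P2 := 1239849684) (W2 := 370763052) (P3 := 858993459) (W3 := 64424510) (N0 := 3) (En := eng) (mo := mog) (C1 := cd0q0) (C2 := cd1q2b) (C3 := pd2)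
    rfl (fun _ => rfl) s6_pm_022_b

noncomputable def f_pm_023 : ℕ → ℕ → ℕ → ℕ → Bool := onCell 0 536870912 1073741824 536870912 858993459 64424510
    (rowB 3 eng mog cd0q0 cd1q3 pd2 1 false true false .up 0 2 3 (qsf 0 536870912 1610612736 536870912 2) ndB0q0 ndB1q3 pcB2 Cut.none Ext.none)

def k0_pm_023 : ∃ t, chk3 f_pm_023 t 1 1 1 = true :=
  ⟨(b (a (a (l 1) (b (l 1) (b (l 1) (a (l 1) (c (l 292088987495) (l 16005408)))))) (a (a (b (l 1) (b (c (l 241087162039) (l 290478430327)) (c (l 105795660327) (l 15869600)))) (b (b (l 1) (c (b (l 1) (l 15792808)) (l 298531386903))) (b (c (b (l 15762184) (l 15756608)) (l 15635456)) (c (l 15777224) (l 15781272))))) (b (a (a (b (l 1) (c (l 237865776183) (l 15795752))) (b (c (l 235718326471) (l 301216568343)) (c (b (l 15747032) (l 15739984)) (l 15782832)))) (b (a (c (b (l 240013126615) (l 15757672)) (l 307658981511)) (c (b (c (l 15787080) (l 15776288)) (l 15766744)) (b (l 15775248) (l 15776120)))) (b (c (a (l 15747648) (l 15757792)) (l 15777552))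 (c (l 15831416) (l 15782024))))) (a (b (c (b (l 15738664) (l 15738896)) (l 15709144)) (c (l 15746864) (l 15804120))) (b (c (a (l 15743112) (l 15755192)) (l 15813096)) (c (l 15763144) (l 15812064))))))) (a (b (a (b (l 1) (a (l 1) (c (l 280279041479) (l 15955760)))) (b (a (c (l 291016130023) (l 15999792)) (c (l 15906224) (l 15920008))) (a (c (l 15890208) (l 15953960)) (c (l 15838624) (l 15901448))))) (a (b (a (c (l 463888671303) (l 581463139143)) (c (l 15874968) (l 15829232))) (a (b (l 457445717623) (c (l 15677176) (l 15602424))) (b (l 15774888) (l 15731112)))) (b (a (c (l 15863360) (l 15855696)) (c (l 15833760) (l 15868728))) (a (c (l 15808912) (l 15785336)) (l 15827984))))) (b (a (b (a (c (l 15668856) (l 15863856)) (c (l 15769960) (l 15832184))) (a (c (l 15805408) (l 15863472)) (l 15817520))) (a (b (c (l 15770648) (l 15825080)) (l 15825392)) (b (c (l 15791288) (l 15841528)) (l 15849712)))) (a (b (a (l 15836456) (l 15838720)) (a (l 15827544) (l 15848448))) (a (b (l 15858688) (l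 15928920)) (b (l 15901264) (l 16037584))))))), by decide +kernel⟩

theorem c_pm_023 : CertB 0 536870912 1610612736 536870912 858993459 64424510 3 eng mog cd0q0 cd1q3 pd2 false true false .up 0 2 3
    ndB0q0 ndB1q3 pcB2 Cut.none Ext.none :=
  certB1 (fam := false) (s1 := true) (s2 := false) (a := 0) (b := 2) (c := 3) (cn := .up) (n1 := ndB0q0) (n2 := ndB1q3) (pc := pcB2) (cut := Cut.none) (xt := Ext.none) (P1 := 0) (W1 := 536870912) (P2 := 1610612736) (W2 := 536870912) (P3 := 858993459) (W3 := 64424510) (N0 := 3) (En := eng) (mo := mog) (C1 := cd0q0) (C2 := cd1q3) (C3 := pd2)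
    rfl (fun _ => rfl) k0_pm_023

noncomputable def f_pm_033 : ℕ → ℕ → ℕ → ℕ → Bool := onCell 1610612736 536870912 1610612736 536870912 858993459 64424510
    (rowB 3 eng mog cd0q0 cd1q3 pd3 2 false true false .pnn 0 3 3 (qsf 0 536870912 1610612736 536870912 3) ndB0q0 ndB1q3 pcB3 Cut.none Ext.none)

def k0_pm_033 : ∃ t, chk3 f_pm_033 t 1 1 1 = true :=
  ⟨(a (b (a (a (b (a (b (l 4) (l 697091412519)) (l 4)) (b (a (l 15768608) (l 15701616)) (a (l 15862712) (l 15805040)))) (l 4)) (l 4)) (a (b (a (b (a (l 15977416) (l 15918384)) (l 16041160)) (b (a (l 15869616) (l 4)) (a (l 15999712) (l 15962368)))) (a (b (l 16263624) (a (l 16474528) (l 16412928))) (b (a (l 16175880) (l 16124472)) (l 16323288)))) (b (l 4) (a (b (a (l 16086968) (l 4)) (a (l 16241920) (l 16199816))) (l 4))))) (l 4)), by decide +kernel⟩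

theorem c_pm_033 : CertB 0 536870912 1610612736 536870912 858993459 64424510 3 eng mog cd0q0 cd1q3 pd3 false true false .pnn 0 3 3
    ndB0q0 ndB1q3 pcB3 Cut.none Ext.none :=
  certB2 (fam := false) (s1 := true) (s2 := false) (a := 0) (b := 3) (c := 3) (cn := .pnn) (n1 := ndB0q0) (n2 := ndB1q3) (pc := pcB3) (cut := Cut.none) (xt := Ext.none) (P1 := 0) (W1 := 536870912) (P2 := 1610612736) (W2 := 536870912) (P3 := 858993459) (W3 := 64424510) (N0 := 3) (En := eng) (mo := mog) (C1 := cd0q0) (C2 := cd1q3) (C3 := pd3)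
    rfl (fun _ => rfl) k0_pm_033

noncomputable def f_pm_101 : ℕ → ℕ → ℕ → ℕ → Bool := onCell 0 536870912 536870912 536870912 858993459 64424510
    (rowB 3 eng mog cd0q1 cd1q1 pd0 2 false true false .npn 1 0 1 (qsf 536870912 536870912 536870912 536870912 0) ndB0q1 ndB1q1 pcB0 Cut.none Ext.none)

def k0_pm_101 : ∃ t, chk3 f_pm_101 t 1 1 1 = true :=
  ⟨(b (l 4) (a (a (b (a (b (b (l 4) (a (c (b (l 4) (l 15918120)) (l 15882208)) (l 4))) (a (b (c (b (l 15875592) (l 15849136)) (l 15813440)) (c (l 15838024) (l 15919224))) (b (c (b (l 4) (l 15865472)) (l 15945920)) (c (b (l 15833000) (l 15818536)) (l 15908920))))) (b (l 4) (b (l 4) (a (c (l 15809760) (l 15915104)) (c (l 15850384) (l 15973608)))))) (a (b (a (b (c (l 15867416) (l 15867456)) (b (c (l 15866728) (l 15842928)) (a (l 15877864) (l 15845944)))) (b (c (l 15812712) (l 15834256)) (c (l 15825696) (l 15782208)))) (b (a (b (c (l 15918360) (l 15835896)) (a (l 15917632) (l 15875464))) (b (l 15928496) (a (l 15832936) (l 15789576)))) (a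 (b (c (l 15992624) (l 15978864)) (c (l 16033560) (l 15863552))) (b (c (l 15900792) (l 15747232)) (c (l 15931704) (l 15748152)))))) (b (a (b (c (l 15782968) (l 15805608)) (c (l 15774376) (l 15730552))) (b (c (l 15743816) (l 15833480)) (l 15704928))) (b (a (c (l 15787784) (l 15673760)) (c (l 15717680) (l 15601432))) (a (b (l 15852744) (l 15711336)) (a (l 15633448) (l 15629504))))))) (b (l 4) (a (b (a (b (c (l 15786816) (l 15896192)) (a (l 15714152) (l 15746136))) (b (l 4) (c (l 15785704) (l 15826512)))) (b (a (l 15661536) (l 15733672)) (a (l 15659792) (l 15689344)))) (b (a (b (l 4) (b (l 4) (l 15839448))) (l 4)) (b (a (c (l 15789664) (l 15764800)) (c (l 15833800) (l 15813376))) (a (l 15719880) (l 15755048))))))) (b (l 4) (b (l 4) (a (a (a (b (b (l 4) (l 15851960)) (c (l 15833288) (l 15753944))) (b (l 4) (c (l 15871728) (l 15802048)))) (b (l 4) (a (b (l 4) (l 15862040)) (l 4)))) (l 4)))))), by decide +kernel⟩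

theorem c_pm_101 : CertB 536870912 536870912 536870912 536870912 858993459 64424510 3 eng mog cd0q1 cd1q1 pd0 false true false .npn 1 0 1
    ndB0q1 ndB1q1 pcB0 Cut.none Ext.none :=
  certB2 (fam := false) (s1 := true) (s2 := false) (a := 1) (b := 0) (c := 1) (cn := .npn) (n1 := ndB0q1) (n2 := ndB1q1) (pc := pcB0) (cut := Cut.none) (xt := Ext.none) (P1 := 536870912) (W1 := 536870912) (P2 := 536870912) (W2 := 536870912) (P3 := 858993459) (W3 := 64424510) (N0 := 3) (En := eng) (mo := mog) (C1 := cd0q1) (C2 := cd1q1) (C3 := pd0)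
    rfl (fun _ => rfl) k0_pm_101

end Pool.Agent.Strip051.G.I8000_8600.Tab.C.BB01

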