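import Pool.Agent.Strip051.G.I8000_8600.Tab
import Pool.Agent.Strip051.PB.ExtD2

/-! # Certificates B17 (generated) -/

set_option linter.all false
set_option maxRecDepth 100000

namespace Pool.Agent.Strip051.G.I8000_8600.Tab.C.BB01

open Pool.Agent.Strip051.PB Pool.Agent.Strip051.PB.T
open Pool.Agent.Strip051.G.I8000_8600.Tab

noncomputable def cut_pm_102_b : Cut := Cut.of [[⟨0, 1, 0, 67108864⟩, ⟨1, 0, 0, 67108864⟩, ⟨2, 1, 0, 67108864⟩], [⟨0, 0, 1, 20971520⟩, ⟨1, 1, 2, 20971520⟩, ⟨2, 1, 0, 16777216⟩]]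

noncomputable def f_pm_102_b : ℕ → ℕ → ℕ → ℕ → Bool := onCell 536870912 536870912 1239849684 370763052 858993459 64424510
    (rowB 3 eng mog cd0q1 cd1q2b pd0 0 false true false .npp 1 0 2 (qsf 536870912 536870912 1239849684 370763052 0) ndB0q1 ndB1q2b pcB0 cut_pm_102_b Ext.none)

def k0_pm_102_b : ∃ t, chk3 f_pm_102_b t 2 1 1 = true :=
  ⟨(b (a (l 2) (b (a (b (a (a (l 2) (l 16711552)) (b (a (l 16715008) (l 16732184)) (l 16726672))) (l 2)) (a (a (b (b (l 16750000) (l 16757848)) (l 16724096)) (b (b (l 16703304) (l 16745968)) (l 16709656))) (b (a (b (b (l 16745856) (l 16752472)) (l 16731696)) (b (b (a (l 16757240) (l 16750568)) (l 16738568)) (c (l 16717776) (l 16694040)))) (a (b (l 16705920) (l 16681880)) (b (l 16626672) (l 16664736)))))) (a (l 2) (a (l 2) (b (a (l 2) (b (l 16641568) (l 2))) (l 2)))))) (l 2)), by decide +kernel⟩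

def k1_pm_102_b : ∃ t, chk3 f_pm_102_b t 3 1 1 = true :=
  ⟨(a (b (b (a (b (a (b (b (a (b (a (l 16726920) (c (l 16744632) (a (l 16741152) (l 16737808)))) (a (l 16739880) (c (l 16733952) (l 16731408)))) (a (c (b (a (c (l 16739824) (l 16736896)) (c (l 101099425063) (l 233706542983))) (a (l 16729040) (l 90361981383))) (b (a (a (l 16735280) (l 16744088)) (l 254644506807)) (a (l 16726248) (l 93583218695)))) (l 3))) (a (a (l 16728096) (b (l 16704136) (l 16717184))) (c (a (b (l 101099383255) (l 16711176)) (l 202568005783)) (a (b (l 16726968) (l 16708496)) (l 307794660391))))) (a (c (b (l 16688904) (l 16695056)) (b (l 16707872) (l 16693192))) (a (b (c (l 16699248) (l 16696848)) (l 16662048)) (c (b (l 91435645095) (l 16676864)) (b (l 89288152679) (l 16674256)))))) (l 3)) (a (a (c (b (l 16632144) (l 16648720)) (b (l 16672176) (l 16645384))) (b (c (b (l 111836671511) (l 16629768)) (b (l 16642248) (l 16649104))) (c (b (l 16637192) (l 16624400)) (l 16586760)))) (a (b (a (b (l 158007632903)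 (l 135459028391)) (l 3)) (c (a (l 133311545111) (l 151028249223)) (a (l 116668400247) (l 173039949783)))) (l 3)))) (l 3)) (a (b (a (a (b (l 16602464) (l 16601272)) (c (b (l 16607104) (l 16585944)) (b (l 16602696) (l 16577688)))) (a (b (c (a (l 16592576) (l 134922081815)) (a (l 16589360) (l 16601904))) (c (l 131700850951) (l 16559688))) (b (l 3) (c (l 164986813975) (l 161765578263))))) (a (l 2) (a (b (c (l 16545848) (l 16535392)) (l 2)) (b (c (l 138680101479) (l 131163882791)) (c (l 130627017783) (l 16535408)))))) (a (b (l 3) (l 3)) (l 3)))) (a (l 2) (b (a (b (a (b (l 149417418551) (l 2)) (l 3)) (l 2)) (l 3)) (l 2)))) (l 3)), by decide +kernel⟩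

theorem s2_pm_102_b : ∃ t, chk3 f_pm_102_b t 1 1 1 = true := ex3_a k0_pm_102_b k1_pm_102_b

theorem c_pm_102_b : CertB 536870912 536870912 1239849684 370763052 858993459 64424510 3 eng mog cd0q1 cd1q2b pd0 false true false .npp 1 0 2
    ndB0q1 ndB1q2b pcB0 cut_pm_102_b Ext.none :=
  certB0 (fam := false) (s1 := true) (s2 := false) (a := 1) (b := 0) (c := 2) (cn := .npp) (n1 := ndB0q1) (n2 := ndB1q2b) (pc := pcB0) (cut := cut_pm_102_b) (xt := Ext.none) (P1 := 536870912) (W1 := 536870912) (P2 := 1239849684) (W2 := 370763052) (P3 := 858993459) (W3 := 64424510) (N0 := 3) (En := eng) (mo := mog) (C1 := cd0q1) (C2 := cd1q2b) (C3 := pd0)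
    rfl s2_pm_102_b

noncomputable def f_pm_112_a : ℕ → ℕ → ℕ → ℕ → Bool := onCell 536870912 536870912 0 536870912 858993459 64424510
    (rowB 3 eng mog cd0q1 cd1q2a pd1 2 false true false .dn 1 1 2 (qsf 536870912 536870912 0 536870912 1) ndB0q1 ndB1q2a pcB1 Cut.none Ext.none)

def k0_pm_112_a : ∃ t, chk3 f_pm_112_a t 8 4 1 = true :=
  ⟨(c (c (c (b (a (a (b (c (l 16461176) (l 16492952)) (l 16477192)) (c (l 16481000) (l 16454992))) (a (c (l 16398712) (l 16438216)) (c (l 16380848) (l 16422704)))) (a (a (b (l 16392640) (b (l 16360160) (c (a (l 16319608) (l 16317056)) (l 16365568)))) (b (l 16375808) (b (a (l 16349104) (l 16346400)) (l 16340520)))) (c (b (a (b (l 16347720) (l 16330800)) (b (l 16335632) (l 16328080))) (l 16344304)) (b (a (l 16384664) (l 16379224)) (l 16367208))))) (a (b (a (c (l 16507968) (l 16543256)) (l 16574552)) (b (a (l 16476448) (l 16464944)) (a (b (l 16451464) (l 16436616)) (l 16439368)))) (b (a (l 16498784) (l 16486816)) (b (a (l 16454520) (l 16449296)) (l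 16434256))))) (c (a (b (a (l 16596360) (l 16587872)) (b (l 16558088) (l 16534952))) (b (l 16576184) (b (l 16545272) (l 16523464)))) (b (a (l 16654784) (l 16639392)) (a (l 16554976) (l 16603120))))) (a (b (c (a (l 16578672) (l 16603520)) (c (l 16575520) (a (l 16507416) (l 16476384)))) (c (b (l 16561280) (a (l 16609856) (l 16594872))) (b (a (l 16497304) (l 16468600)) (a (l 16379144) (l 16345632))))) (b (c (c (l 16636568) (l 16596728)) (a (l 16432752) (l 16471168))) (c (b (a (l 16599704) (l 16586672)) (l 16578448)) (b (a (l 16427080) (l 16397200)) (l 16306120)))))), by decide +kernel⟩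

def k1_pm_112_a : ∃ t, chk3 f_pm_112_a t 8 5 1 = true :=
  ⟨(c (c (c (b (a (a (b (l 16332696) (l 16326112)) (l 16332168)) (b (l 16337776) (l 16330984))) (a (b (l 16320816) (l 16313576)) (l 16320944))) (b (a (b (l 16422992) (l 16407688)) (l 16411776)) (a (l 16405416) (l 16382392)))) (b (a (a (l 16311064) (l 16535232)) (l 16420072)) (a (l 16397344) (l 16472160)))) (a (b (c (a (l 16577344) (l 16565504)) (a (l 16304728) (l 16406728))) (c (l 16515264) (b (l 16467744) (l 16452168)))) (b (c (l 16550072) (a (l 16466096) (l 16462448))) (c (l 16499784) (a (l 16448896) (l 16442984)))))), by decide +kernel⟩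

def k2_pm_112_a : ∃ t, chk3 f_pm_112_a t 9 2 1 = true :=
  ⟨(b (c (c (c (a (b (b (a (l 16403896) (l 16388624)) (a (b (l 16377432) (l 16383936)) (b (l 16366864) (l 16359112)))) (a (b (l 16353392) (l 16345424)) (l 16348840))) (b (b (a (b (l 16383184) (l 16370504)) (l 16371384)) (l 16359944)) (l 16367448))) (a (b (a (b (l 16489080) (l 16462256)) (b (l 16477672) (l 16456248))) (l 16350536)) (b (b (l 16339128) (l 16446528)) (l 16423408)))) (a (b (b (l 16443752) (l 16363336)) (c (l 16519488) (l 16587528))) (b (b (l 16450192) (l 16574880)) (l 16538416)))) (a (a (b (b (l 16338744) (c (l 16589824) (l 16417472))) (c (l 16571424) (l 16387744))) (b (b (c (l 16592632) (l 16424168)) (b (l 16307800) (l 16349480))) (c (l 16563720) (l 16454200)))) (b (b (a (c (l 16580792) (l 16412144)) (c (l 16572088) (l 16389376))) (c (l 16569144) (l 16380168))) (c (l 16553696) (a (l 16456424) (l 16457992)))))) (c (a (c (b (c (l 16334368) (l 16404848)) (b (l 16353960) (l 16344312))) (b (l 16509296) (l 16460896)))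 (b (c (c (l 16330976) (l 16394864)) (l 16491120)) (c (b (l 16348176) (l 16339256)) (l 16446608)))) (b (a (c (l 16533848) (a (l 16459048) (l 16456136))) (a (l 16349304) (l 16408712))) (a (a (l 16386992) (l 16425080)) (c (l 16485616) (l 16433240)))))), by decide +kernel⟩

def k3_pm_112_a : ∃ t, chk3 f_pm_112_a t 4 3 1 = true :=
  ⟨(b (a (c (c (b (a (a (l 16179000) (l 16223336)) (b (l 16335256) (l 16325608))) (a (c (l 16352248) (l 16322288)) (l 16314336))) (b (a (l 16423648) (l 16421000)) (a (l 16369680) (l 16375544)))) (b (a (b (l 16370480) (l 16421408)) (c (l 16442936) (l 16301936))) (a (c (l 16377120) (l 16162248)) (c (l 16382640) (l 16353224))))) (a (b (c (c (l 16163760) (l 16416096)) (c (l 16442400) (l 16404312))) (c (b (c (l 16322072) (l 16386936)) (l 16134992)) (c (l 16392824) (l 16361592)))) (b (c (c (a (l 16309392) (l 16308544)) (l 16408504)) (c (l 16447000) (l 16408184))) (a (c (l 83247234727) (l 16389552)) (l 1))))) (a (b (a (c (b (c (l 16290448) (l 16333080)) (c (l 16286024)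 (l 16307040))) (b (l 16315800) (l 16285720))) (c (b (c (l 16304384) (l 16346552)) (c (l 16304968) (l 16329192))) (b (l 16328816) (l 16304992)))) (a (b (c (b (l 16292024) (l 16280232)) (c (l 16268568) (l 16185624))) (c (b (l 16267600) (l 16254264)) (a (l 16125216) (l 16160672)))) (b (c (c (l 16309192) (l 16307360)) (l 189548027815)) (l 1)))) (a (b (b (c (l 83784328663) (l 16346536)) (l 1)) (l 1)) (l 1)))), by decide +kernel⟩

def k4_pm_112_a : ∃ t, chk3 f_pm_112_a t 5 1 1 = true :=
  ⟨(b (a (b (b (a (c (c (c (c (l 16340880) (l 16380616)) (l 16441448)) (l 16499784)) (c (l 16562320) (a (l 16446520) (l 16452896)))) (l 1)) (a (c (c (a (l 16356608) (l 16350904)) (l 16514744)) (c (l 16543752) (l 16438880))) (l 1))) (a (b (c (c (a (l 16355448) (l 16350368)) (l 16470136)) (c (l 16516616) (l 16452112))) (a (c (c (l 16338488) (l 16434776)) (l 16464080)) (l 1))) (l 1))) (l 1)) (b (l 1) (l 1))), by decide +kernel⟩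

def k5_pm_112_a : ∃ t, chk3 f_pm_112_a t 3 1 1 = true :=
  ⟨(l 1), by decide +kernel⟩

theorem s6_pm_112_a : ∃ t, chk3 f_pm_112_a t 8 2 1 = true := ex3_b k0_pm_112_a k1_pm_112_a

theorem s7_pm_112_a : ∃ t, chk3 f_pm_112_a t 4 2 1 = true := ex3_a s6_pm_112_a k2_pm_112_a

theorem s8_pm_112_a : ∃ t, chk3 f_pm_112_a t 4 1 1 = true := ex3_b s7_pm_112_a k3_pm_112_a

theorem s9_pm_112_a : ∃ t, chk3 f_pm_112_a t 2 1 1 = true := ex3_a s8_pm_112_a k4_pm_112_a

theorem s10_pm_112_a : ∃ t, chk3 f_pm_112_a t 1 1 1 = true := ex3_a s9_pm_112_a k5_pm_112_a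

theorem c_pm_112_a : CertB 536870912 536870912 0 536870912 858993459 64424510 3 eng mog cd0q1 cd1q2a pd1 false true false .dn 1 1 2
    ndB0q1 ndB1q2a pcB1 Cut.none Ext.none :=
  certB2 (fam := false) (s1 := true) (s2 := false) (a := 1) (b := 1) (c := 2) (cn := .dn) (n1 := ndB0q1) (n2 := ndB1q2a) (pc := pcB1) (cut := Cut.none) (xt := Ext.none) (P1 := 536870912) (W1 := 536870912) (P2 := 0) (W2 := 536870912) (P3 := 858993459) (W3 := 64424510) (N0 := 3) (En := eng) (mo := mog) (C1 := cd0q1) (C2 := cd1q2a) (C3 := pd1)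
    rfl (fun _ => rfl) s10_pm_112_a

noncomputable def f_pm_112_b : ℕ → ℕ → ℕ → ℕ → Bool := onCell 536870912 536870912 536870912 536870912 858993459 64424510
    (rowB 3 eng mog cd0q1 cd1q2b pd1 1 false true false .dn 1 1 2 (qsf 536870912 536870912 1239849684 370763052 1) ndB0q1 ndB1q2b pcB1 Cut.none Ext.none)

def k0_pm_112_b : ∃ t, chk3 f_pm_112_b t 4 4 1 = true :=
  ⟨(b (b (b (l 1) (b (l 1) (a (l 1) (a (l 1) (a (l 1) (a (l 1) (a (l 1) (c (l 118144243431) (l 16519432))))))))) (a (l 1) (a (a (l 1) (a (l 1) (b (l 1) (b (l 1) (c (l 170220554551) (l 16452192)))))) (c (c (c (a (b (l 213170691463) (l 16438336)) (b (l 16456688) (l 16441976))) (b (l 106870352055) (l 16514072))) (b (l 153577929367) (l 16542408))) (a (c (l 157872877431) (l 189011286599)) (c (l 16554992) (l 143914216215))))))) (a (a (b (l 1) (b (l 1) (a (l 1) (b (l 1) (c (c (l 106333360423) (l 16604696)) (l 182031714455)))))) (b (a (l 1) (a (l 1) (b (l 1) (c (c (l 98280337047) (l 16617720)) (l 211559802567))))) (c (c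 (c (a (b (l 16393640) (l 16398120)) (l 151967350983)) (a (l 16487152) (l 16470400))) (c (l 16563272) (l 16623280))) (c (a (l 16337448) (l 16516944)) (a (b (l 16399160) (l 16430680)) (l 279205647015)))))) (c (c (b (a (c (c (a (l 124050048135) (l 16393792)) (l 123513311703)) (b (l 16482336) (l 16488208))) (c (a (l 16415184) (l 16418136)) (l 16490768))) (a (c (c (l 16360584) (l 16400688)) (l 16462544)) (c (l 16383048) (l 16456088)))) (b (a (l 136934815079) (l 16480928)) (a (l 16505928) (l 16572288)))) (b (a (c (l 136934803079) (b (l 194916803175) (l 190621854615))) (c (l 16678688) (l 16445288))) (a (c (l 16585552) (l 16429024)) (l 16475040)))))), by decide +kernel⟩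

def k1_pm_112_b : ∃ t, chk3 f_pm_112_b t 5 4 1 = true :=
  ⟨(b (b (a (c (c (a (c (b (a (l 222834448935) (c (l 16483544) (l 16512856))) (a (l 68215605879) (l 16483816))) (b (a (l 16532656) (l 16557952)) (l 70363137287))) (b (a (c (l 16506632) (l 16561120)) (l 16537680)) (c (l 16494656) (l 16546848)))) (a (a (l 165926022247) (b (l 16627976) (l 16639440))) (b (l 16528968) (l 16630424)))) (a (c (a (l 163778543095) (l 165926332487)) (b (a (l 194380141047) (l 16545672)) (a (l 16538544) (l 16606632)))) (c (l 16594984) (b (l 16569136) (l 16632360))))) (c (a (c (c (a (l 16510216) (l 16513176)) (l 16572920)) (c (l 16594040) (l 16638312))) (b (c (a (l 16538232) (l 16534688)) (l 16592568)) (c (l 16539472) (l 16575232)))) (c (a (l 16624328) (a (l 16661784) (l 16566264))) (a (l 16697520) (a (l 16721048) (l 16685360)))))) (a (c (c (a (c (a (l 16454408) (l 16460600)) (l 16506280)) (b (l 16567280) (l 16487920))) (a (c (l 16588824) (l 16657208)) (c (l 16578304) (l 16636768)))) (a (c (l 16626888)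 (l 16446256)) (c (l 16730000) (l 16672456)))) (c (a (c (c (l 16477640) (l 16517824)) (l 16456520)) (c (c (l 16478296) (l 16505512)) (b (l 16558008) (l 16540840)))) (c (a (l 16674888) (l 16591680)) (a (l 16715888) (l 16655688)))))) (b (a (a (c (c (c (l 16425672) (l 16489504)) (l 16570672)) (l 16471144)) (c (c (c (l 16436816) (l 16488992)) (l 16530944)) (c (l 16694816) (l 16710136)))) (c (c (a (l 16546784) (l 16561768)) (a (l 16547392) (l 16515064))) (c (a (l 16639424) (l 16516192)) (a (l 16711800) (l 16644856))))) (a (c (c (a (c (l 16391632) (l 16454208)) (l 16427536)) (a (l 16554768) (l 16535552))) (c (a (l 16701040) (l 16654640)) (l 16594488))) (c (c (a (l 16428096) (l 16423032)) (a (l 16510984) (l 16480544))) (a (c (l 16601584) (l 16689184)) (c (l 16544352) (l 16610944))))))), by decide +kernel⟩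

def k2_pm_112_b : ∃ t, chk3 f_pm_112_b t 4 5 1 = true :=
  ⟨(b (a (c (c (b (a (c (a (l 126734420935) (l 117070703655)) (l 113849592023)) (c (a (l 16352376) (l 16347032)) (l 16436168))) (a (c (l 16335240) (l 16415232)) (c (l 16314264) (l 16395712)))) (a (b (l 173978844407) (l 16539400)) (b (c (l 16525744) (l 16613176)) (l 16524216)))) (a (b (c (l 173978811511) (b (l 158409256103) (l 16332216))) (c (l 16603264) (l 16386392))) (b (c (l 16516720) (a (l 16463016) (l 16525720))) (c (l 16645216) (l 16530248))))) (c (c (a (b (c (l 16344992) (l 16424680)) (l 16344696)) (b (l 16403360) (l 16343080))) (b (a (l 16550784) (l 16531368)) (c (l 16455312) (l 16534672)))) (c (b (l 16547496) (l 16658936)) (b (l 16385968) (l 16626736))))) (b (a (c (c (a (l 16331624) (l 16313480)) (a (l 16481592) (l 16468352))) (a (l 16457280) (l 16482544))) (c (c (a (l 16302024) (l 16301216)) (a (l 16451704) (l 16433912))) (c (l 16598056) (l 16702440)))) (a (c (c (a (l 16284024) (l 16268336)) (l 16409216)) (c (l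 16554328) (l 16628272))) (c (a (c (l 16259312) (l 16393696)) (l 16442400)) (c (l 16526608) (l 16682136)))))), by decide +kernel⟩

def k3_pm_112_b : ∃ t, chk3 f_pm_112_b t 5 5 1 = true :=
  ⟨(b (c (a (c (b (a (l 16385952) (l 16391520)) (a (l 16347176) (l 16353704))) (b (a (l 16513656) (l 16495504)) (l 16229584))) (c (b (a (l 16393264) (l 16390224)) (a (l 16357264) (l 16357120))) (a (b (l 16473120) (l 16432992)) (b (l 16445744) (l 16409712))))) (a (c (a (l 16630240) (l 16586480)) (b (l 16722640) (l 16712096))) (c (a (b (l 16561016) (l 16517160)) (b (l 16508032) (l 16469568))) (a (l 16628640) (b (l 16574288) (l 16534584)))))) (a (c (c (a (l 16494008) (l 16460024)) (b (l 16286024) (l 16360112))) (c (a (l 16367184) (l 16374360)) (a (l 16647808) (l 16586928)))) (c (b (a (l 16583760) (c (l 16322144) (l 16371312))) (a (l 16310472) (l 16349960))) (c (b (l 16217848) (l 16421072)) (b (a (l 16555328) (l 16491536)) (l 16302320)))))), by decide +kernel⟩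

def k4_pm_112_b : ∃ t, chk3 f_pm_112_b t 6 8 1 = true :=
  ⟨(a (c (a (b (b (c (a (l 16529856) (l 16523560)) (l 16470864)) (c (l 16570824) (l 16537104))) (c (b (l 16489592) (l 16471872)) (b (l 16519888) (l 16503032)))) (b (c (a (b (l 16515760) (l 16496520)) (b (l 16547640) (l 16487216))) (b (a (l 16524336) (l 16503072)) (a (l 16506600) (l 16485696)))) (c (a (l 16511128) (b (l 16468816) (l 16451312))) (a (l 16481152) (l 16502376))))) (a (b (c (b (l 16523744) (l 16549640)) (a (l 16639312) (l 16528304))) (c (b (l 16554768) (l 16539040)) (a (l 16610144) (l 16542320)))) (b (a (b (c (l 16535240) (l 16548472)) (l 16422048)) (b (b (l 135458857063) (l 16558720)) (c (l 16485000) (l 16485136)))) (c (b (l 16528800) (l 16472032)) (b (l 16413136) (l 16484264)))))) (a (a (b (b (l 3) (c (l 131163829143) (l 139753735527))) (c (b (c (l 16455728) (l 16446544)) (c (l 16440120) (l 16431248))) (b (c (l 16436552) (l 16425776)) (c (l 16421960) (l 16412272))))) (b (l 3) (b (l 3) (c (l 142437957047) (l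 150490972023))))) (l 3))), by decide +kernel⟩

def k5_pm_112_b : ∃ t, chk3 f_pm_112_b t 6 9 1 = true :=
  ⟨(a (c (c (a (b (c (l 16439136) (l 16453768)) (l 16434944)) (b (b (l 16439352) (l 16423400)) (b (l 16408248) (l 16393888)))) (a (b (l 16541200) (l 16446144)) (b (b (l 16446800) (l 16431488)) (l 16472352)))) (b (a (c (l 16431632) (l 16557328)) (c (b (l 16457520) (l 16443256)) (b (l 16471528) (l 16458728)))) (a (c (l 16484008) (l 16526880)) (c (l 16485120) (l 16292448))))) (a (b (c (a (b (l 16462144) (l 16405112)) (b (l 116131316679) (c (l 16395608) (l 16380424)))) (c (a (l 16401544) (l 128479313095)) (a (l 16436824) (b (l 16357952) (l 16344944))))) (c (b (c (l 49559282615) (l 16377640)) (c (l 16376048) (l 16364928))) (a (c (l 16376040) (l 16372880)) (c (l 16408344) (b (l 16333560) (l 16323656)))))) (a (b (l 3) (c (b (l 126868602791) (l 115594343239)) (b (l 138142821143) (l 135995369159)))) (l 3)))), by decide +kernel⟩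

def k6_pm_112_b : ∃ t, chk3 f_pm_112_b t 7 4 1 = true :=
  ⟨(l 3), by decide +kernel⟩

def k7_pm_112_b : ∃ t, chk3 f_pm_112_b t 3 5 1 = true :=
  ⟨(b (b (a (a (c (a (c (l 16383928) (l 16414936)) (c (b (l 16380344) (l 16367712)) (l 16382008))) (a (c (l 16452096) (l 16452784)) (c (l 16394816) (l 16328656)))) (a (c (c (b (l 16364168) (l 16353592)) (b (l 16352968) (l 16341920))) (c (b (l 16343272) (l 16332352)) (a (l 16350736) (l 16309496)))) (a (c (b (c (l 16346136) (l 16324656)) (c (l 16337720) (l 16315512))) (b (c (l 16300536) (l 16273872)) (c (l 16291288) (l 16265136)))) (b (l 3) (c (l 127405408375) (l 139216475879)))))) (l 3)) (a (b (a (c (a (l 16376016) (l 16463224)) (a (l 16405968) (l 16424656))) (a (c (c (l 16344056) (l 16331632)) (a (l 16334256) (l 16302208))) (a (c (l 16339744) (l 16291552)) (l 2)))) (a (c (a (l 16360672) (l 16366832)) (a (l 16430872) (l 16369136))) (a (c (l 148276430279) (l 222364597127)) (l 2)))) (l 2))) (a (b (b (a (c (a (l 16344952) (l 16333384)) (a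 (l 16413464) (l 16355600))) (a (c (l 193910450599) (l 281420388919)) (l 2))) (a (a (c (l 16329184) (l 16395464)) (c (l 16321296) (l 16341920))) (l 2))) (a (c (a (c (l 16295448) (l 16318440)) (l 143981520679)) (a (l 16450992) (l 232028404199))) (l 2))) (l 2))), by decide +kernel⟩

def k8_pm_112_b : ∃ t, chk3 f_pm_112_b t 1 3 1 = true :=
  ⟨(a (b (a (b (b (a (c (a (l 16453776) (l 16358656)) (c (l 16462136) (l 16595360))) (c (a (l 16396448) (l 16307464)) (c (l 16446496) (l 16583504)))) (a (c (c (l 16171104) (l 16260224)) (l 16247712)) (c (a (l 16210384) (l 16212688)) (c (l 16357680) (l 16470720))))) (a (c (a (l 16297008) (l 16190056)) (b (l 16294216) (l 16061536))) (c (b (l 16340288) (l 16085792)) (b (a (l 16296472) (l 16305800)) (l 16178352))))) (a (a (b (c (c (l 16199432) (l 16281568)) (c (l 16375400) (l 16396912))) (c (l 16327184) (b (l 16294888) (l 16195640)))) (b (c (c (l 16210528) (l 16276320)) (b (l 16430832) (l 16355344))) (c (l 16151272) (l 16294552)))) (a (b (c (b (l 16267928)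 (l 16226488)) (b (l 16396080) (l 16329712))) (c (l 16335168) (l 16325664))) (b (c (b (l 16271392) (l 16237048)) (b (l 16361672) (l 16306128))) (l 2))))) (a (c (a (b (a (l 15944632) (l 15951520)) (l 15770416)) (b (l 16126944) (l 15826120))) (b (a (b (l 16033184) (l 15895576)) (b (l 16050072) (l 15918192))) (a (b (l 15754488) (l 15610856)) (l 15841192)))) (a (a (b (b (l 16195400) (l 2)) (l 2)) (l 2)) (l 2)))) (b (a (b (b (a (a (c (l 16277400) (l 16326816)) (l 2)) (l 2)) (l 2)) (l 2)) (l 2)) (l 2))), by decide +kernel⟩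

theorem s9_pm_112_b : ∃ t, chk3 f_pm_112_b t 6 4 1 = true := ex3_b k4_pm_112_b k5_pm_112_b

theorem s10_pm_112_b : ∃ t, chk3 f_pm_112_b t 3 4 1 = true := ex3_a s9_pm_112_b k6_pm_112_b

theorem s11_pm_112_b : ∃ t, chk3 f_pm_112_b t 3 2 1 = true := ex3_b s10_pm_112_b k7_pm_112_b

theorem s12_pm_112_b : ∃ t, chk3 f_pm_112_b t 2 5 1 = true := ex3_a k2_pm_112_b k3_pm_112_b

theorem s13_pm_112_b : ∃ t, chk3 f_pm_112_b t 2 4 1 = true := ex3_a k0_pm_112_b k1_pm_112_b

theorem s14_pm_112_b : ∃ t, chk3 f_pm_112_b t 2 2 1 = true := ex3_b s13_pm_112_b s12_pm_112_b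

theorem s15_pm_112_b : ∃ t, chk3 f_pm_112_b t 1 2 1 = true := ex3_a s14_pm_112_b s11_pm_112_b

theorem s16_pm_112_b : ∃ t, chk3 f_pm_112_b t 1 1 1 = true := ex3_b s15_pm_112_b k8_pm_112_b

theorem c_pm_112_b : CertB 536870912 536870912 1239849684 370763052 858993459 64424510 3 eng mog cd0q1 cd1q2b pd1 false true false .dn 1 1 2
    ndB0q1 ndB1q2b pcB1 Cut.none Ext.none :=
  certB1 (fam := false) (s1 := true) (s2 := false) (a := 1) (b := 1) (c := 2) (cn := .dn) (n1 := ndB0q1) (n2 := ndB1q2b) (pc := pcB1) (cut := Cut.none) (xt := Ext.none) (P1 := 536870912) (W1 := 536870912) (P2 := 1239849684) (W2 := 370763052) (P3 := 858993459) (W3 := 64424510) (N0 := 3) (En := eng) (mo := mog) (C1 := cd0q1) (C2 := cd1q2b) (C3 := pd1)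
    rfl (fun _ => rfl) s16_pm_112_b

noncomputable def cut_pm_113 : Cut := Cut.of [[⟨0, 1, 0, 67108864⟩, ⟨1, 1, 0, 67108864⟩, ⟨2, 2, 0, 16777216⟩]]

noncomputable def f_pm_113 : ℕ → ℕ → ℕ → ℕ → Bool := onCell 536870912 536870912 536870912 536870912 858993459 64424510
    (rowB 3 eng mog cd0q1 cd1q3 pd1 1 false true false .nn 1 1 3 (qsf 536870912 536870912 1610612736 536870912 1) ndB0q1 ndB1q3 pcB1 cut_pm_113 Ext.none)

def k0_pm_113 : ∃ t, chk3 f_pm_113 t 2 2 1 = true :=
  ⟨(b (l 1) (a (l 1) (b (l 1) (a (l 1) (a (l 1) (b (l 1) (c (l 16451488) (l 16245432)))))))), by decide +kernel⟩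

def k1_pm_113 : ∃ t, chk3 f_pm_113 t 3 4 1 = true :=
  ⟨(a (a (l 1) (a (l 1) (a (l 1) (l 3)))) (l 3)), by decide +kernel⟩

def k2_pm_113 : ∃ t, chk3 f_pm_113 t 6 5 1 = true :=
  ⟨(b (b (a (l 1) (b (a (l 1) (a (a (l 1) (c (l 16354952) (l 138679657959))) (l 3))) (a (a (l 1) (c (l 16343088) (l 16307008))) (c (a (c (l 16342208) (l 16317232)) (l 130626641415)) (a (c (l 16288200) (l 16255368)) (l 144048322823)))))) (a (a (l 1) (b (l 1) (c (l 42982689751) (l 16389832)))) (c (c (a (b (l 16346600) (l 16338112)) (a (b (l 16335704) (l 16330104)) (b (l 111836140839) (l 16363472)))) (a (a (l 16335288) (l 16321144)) (a (b (l 16309920) (l 16303384)) (b (l 16292936) (l 16288792))))) (c (a (a (l 16328936) (l 16303352)) (a (l 16340888) (b (l 16255840) (l 16251208)))) (a (a (l 16325496) (l 16286208)) (a (b (l 16249760) (l 16245136)) (b (l 140290099671) (l 16209064)))))))) (a (c (b (a (c (l 16322904) (l 16349720)) (c (l 16325448) (l 16330136))) (a (c (l 16292120) (l 16315744)) (c (l 16303024) (l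 16305080)))) (b (a (c (l 16384816) (l 16428080)) (c (l 16341256) (l 16358816))) (c (a (l 16348224) (l 16314480)) (a (l 16389480) (l 16331192))))) (b (c (a (c (b (l 16330088) (l 16322976)) (b (l 16314816) (l 16306624))) (b (a (c (l 16325608) (l 16297752)) (c (l 16319912) (l 16285592))) (a (l 16391744) (c (l 16319960) (l 16283816))))) (a (c (l 16361304) (a (l 16307128) (l 16272984))) (a (b (l 16297432) (l 16251328)) (b (c (l 16247960) (l 16207200)) (c (l 16246048) (l 16206768)))))) (c (a (c (b (l 16317096) (l 16312808)) (l 16295968)) (a (c (l 16363776) (l 16289472)) (b (c (l 16322456) (l 16283960)) (c (l 16327792) (l 16286416))))) (a (c (l 16282400) (l 16274000)) (b (c (l 16253224) (l 16220440)) (c (l 16252400) (l 16219376)))))))), by decide +kernel⟩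

def k3_pm_113 : ∃ t, chk3 f_pm_113 t 7 5 1 = true :=
  ⟨(a (a (b (l 3) (a (b (c (b (c (l 123110390071) (l 129552764823)) (c (a (l 16316112) (l 116667922151)) (a (l 16276144) (l 16291216)))) (b (c (l 135458262279) (l 141900632087)) (c (l 127405211543) (l 136531938551)))) (c (b (c (a (l 16321512) (l 31305477479)) (c (l 16288072) (l 16265440))) (c (c (l 16342280) (l 16318880)) (l 16325168))) (b (c (a (l 16233888) (l 16226544)) (a (l 16186960) (l 16174752))) (c (l 16234696) (l 16185080))))) (a (b (l 3) (b (b (l 3) (c (l 111836099399) (l 124183949479))) (c (c (a (l 16330616) (l 95193115591)) (l 98951131287)) (b (l 117204650567) (l 110225342791))))) (l 3)))) (l 3)) (l 3)), by decide +kernel⟩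

def k4_pm_113 : ∃ t, chk3 f_pm_113 t 2 3 1 = true :=
  ⟨(b (a (a (l 1) (b (l 1) (b (l 1) (c (l 16086472) (l 15996408))))) (b (b (a (l 1) (c (a (l 16263848) (l 16266104)) (a (l 16395368) (l 16360856)))) (a (a (l 1) (c (l 16215464) (l 16354752))) (c (a (l 16220424) (l 16229256)) (a (l 16328016) (l 16303584))))) (c (a (a (l 50498661735) (l 16271144)) (a (b (l 16178296) (l 16137704)) (b (l 16194600) (l 16162320)))) (c (a (l 16417896) (l 16449520)) (a (b (l 16320616) (l 16215856)) (a (l 16238216) (l 16222872))))))) (a (b (b (a (l 1) (c (l 16018128) (l 16061072))) (a (c (l 15910656) (l 15915304)) (c (l 15946552) (l 15934192)))) (a (c (a (l 15774536) (l 15791360)) (b (l 15782064) (l 15647184))) (c (l 15832856) (b (l 15805320) (l 15675328))))) (b (c (a (b (l 16085776) (l 16011792)) (b (l 16344768) (l 16082056))) (a (b (l 16174824) (l 15983240)) (b (l 16163720) (l 16022608)))) (a (b (a (l 15886544) (l 15933704)) (a (l 15790720) (l 15845848))) (b (a (l 15975760) (l 16021152)) (a (l 15910816)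 (l 15976008))))))), by decide +kernel⟩

def k5_pm_113 : ∃ t, chk3 f_pm_113 t 6 6 1 = true :=
  ⟨(b (a (a (c (b (l 16397976) (l 16244496)) (b (l 16326288) (l 16281288))) (c (b (c (l 16285248) (l 16282352)) (c (l 16273816) (l 16263208))) (b (l 16481568) (l 16262448)))) (b (c (a (c (l 16352120) (l 16286376)) (b (a (l 16307920) (c (l 16336480) (l 16291608))) (c (l 16362232) (l 16296512)))) (a (c (l 16268776) (l 16257392)) (c (a (l 16257520) (l 16251304)) (a (l 16228128) (l 16210320))))) (c (a (c (l 16314896) (l 16283488)) (c (a (l 16349952) (l 16416512)) (a (l 16303280) (l 16318360)))) (a (c (l 16258800) (l 16240864)) (c (a (l 16262008) (l 16266456)) (a (l 16226184) (l 16218880))))))) (a (c (b (a (l 16220448) (l 16258000)) (a (l 16200232) (l 16254744))) (b (a (l 16233320) (l 16231512)) (a (l 16182608) (l 16200320)))) (c (b (a (c (l 16330128) (l 16288568)) (c (b (l 16392216) (l 16417664)) (a (l 16327136) (l 16356944)))) (a (l 16475792) (b (l 16431896) (l 16442616)))) (b (a (l 16406680)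 (c (l 16284280) (l 16232296))) (a (l 16232912) (c (l 16317624) (l 16251792))))))), by decide +kernel⟩

def k6_pm_113 : ∃ t, chk3 f_pm_113 t 14 12 1 = true :=
  ⟨(a (b (c (a (b (c (c (l 16357448) (l 16331584)) (l 16292952)) (c (l 16383768) (l 16306440))) (b (c (a (a (l 16348048) (l 16349016)) (b (l 99488098887) (l 87676970359))) (c (l 86066245799) (l 91434895543))) (c (a (l 16371784) (b (l 16369416) (l 16384288))) (b (l 43653485527) (l 16318448))))) (a (b (c (l 16241760) (l 16190928)) (c (l 16251664) (l 16198456))) (b (c (c (l 96803548231) (l 102172205175)) (a (l 16179024) (l 115057063959))) (c (a (l 16250816) (l 16313720)) (a (l 16190312) (l 16186096)))))) (c (b (a (c (l 16385896) (l 16324128)) (b (c (l 16396896) (l 16330664)) (c (l 16413928) (l 16344312)))) (c (a (l 16414288) (a (l 16435696) (l 16449488))) (a (l 16346512) (l 16409608)))) (c (a (b (l 16264896) (l 16282008)) (b (l 16333016) (l 16294448))) (a (b (l 16208208) (l 16220784)) (b (l 16203616) (l 16223000)))))) (a (b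 (a (b (l 3) (c (b (c (l 112373055367) (l 120426002551)) (c (l 100561941047) (l 105930523991))) (c (l 113446591975) (l 118278308599)))) (l 3)) (c (b (a (c (b (l 89287694631) (l 16428328)) (b (l 16360008) (l 16355688))) (b (l 3) (c (l 111299456455) (l 113983668327)))) (c (a (b (l 16450792) (l 16475360)) (b (c (l 99488341655) (l 101635748935)) (a (l 16486152) (l 71571118135)))) (a (a (l 16381264) (l 16386800)) (b (l 103783167671) (l 59222932919))))) (b (c (c (l 107541081527) (l 109688477559)) (a (l 58148809495) (l 120962699047))) (c (a (l 16305648) (c (l 55464635655) (l 53853947847))) (a (l 16227664) (b (l 16225080) (l 16240568))))))) (a (a (b (l 3) (b (l 3) (b (l 3) (b (l 3) (c (l 115057710663) (l 118278600679)))))) (l 3)) (l 3)))), by decide +kernel⟩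

def k7_pm_113 : ∃ t, chk3 f_pm_113 t 14 26 1 = true :=
  ⟨(b (a (c (c (a (l 16448448) (l 16487328)) (a (l 16374080) (l 16404640))) (a (l 16311584) (b (l 16320112) (l 16293048)))) (a (c (c (a (l 16516400) (b (l 16519656) (l 16552280))) (a (l 16428800) (b (l 16432104) (l 16459680)))) (c (a (l 16342672) (b (l 16344840) (l 16367936))) (b (l 16253704) (l 16271656)))) (a (c (b (a (c (l 101099098503) (l 104857022135)) (l 3)) (c (b (l 101099133399) (l 95730429927)) (c (l 101099001607) (l 102709521655)))) (c (b (l 112373063255) (b (l 105930659207) (l 101098851479))) (b (l 114520373543) (l 107004230375)))) (l 3)))) (a (c (a (l 16573480) (b (l 16481280) (l 16507640))) (a (l 16292768) (a (l 16311456) (l 16388464)))) (a (c (b (c (l 16575328) (l 16478976)) (a (l 16547080) (l 16595344))) (c (a (l 16387648) (l 16407040)) (a (l 16295008) (l 16309632)))) (c (c (a (b (b (l 75329340967) (l 16623136)) (l 16655736)) (c (b (l 113984178663) (l 104320541543)) (b (l 115057817975) (l 105394175607))))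 (b (a (a (l 16506696) (l 73718663943)) (a (l 110762819383) (l 3))) (a (l 16549352) (c (l 105394144343) (l 105930940231))))) (b (c (a (a (l 16407632) (l 60296695879)) (a (l 112373193399) (l 3))) (a (l 16313208) (l 117204858615))) (c (a (l 16444008) (c (l 107004576711) (l 108615083591))) (a (l 16339696) (a (l 54927872599) (l 116131173639))))))))), by decide +kernel⟩

def k8_pm_113 : ∃ t, chk3 f_pm_113 t 14 27 1 = true :=
  ⟨(a (c (b (a (l 16491184) (a (l 16535904) (l 16567320))) (a (l 16542144) (l 16618632))) (b (a (l 16321000) (a (l 16348296) (l 16368568))) (c (l 16428096) (l 16332032)))) (c (a (b (c (l 16672040) (a (l 16546608) (l 16578280))) (b (l 16680488) (l 16727496))) (a (b (b (b (l 16634720) (l 16657456)) (a (l 16683864) (l 16703152))) (b (l 16745224) (l 16801664))) (b (b (c (c (l 93583226439) (l 95730596311)) (c (l 84456193415) (l 84456187527))) (b (c (l 16779664) (l 16658592)) (c (l 16809288) (l 16684504)))) (b (c (l 16856200) (l 16725680)) (b (l 16837800) (l 16870984))))))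 (a (b (c (l 16497000) (l 16350392)) (b (l 16512200) (l 16484416))) (b (c (b (a (l 16478640) (a (l 16499696) (b (l 104857173975) (l 79087415367)))) (a (l 16516736) (b (l 16559568) (l 16561016)))) (a (a (l 16378624) (l 16390920)) (b (c (l 58149184135) (l 50096009223)) (a (l 16421928) (l 16478424))))) (c (a (l 16581104) (b (l 16596776) (l 16648720))) (a (l 16456152) (b (l 16469472) (l 16514160)))))))), by decide +kernel⟩

def k9_pm_113 : ∃ t, chk3 f_pm_113 t 15 6 1 = true :=
  ⟨(b (l 3) (a (b (l 3) (a (b (a (a (b (b (l 3) (b (l 3) (c (l 116668465783) (c (l 112910333543) (l 115594448583))))) (c (c (b (l 105931283911) (l 97878281079)) (b (l 109152272327) (l 102172997639))) (c (b (l 106467912535) (l 100562342103)) (c (l 108078282423) (l 109688775543))))) (l 3)) (l 3)) (b (a (c (c (c (l 94120376023) (l 95194035031)) (c (l 97878258983) (a (l 16726192) (l 106468058487)))) (c (b (a (l 16613680) (l 110226036167)) (c (l 98951791879) (l 98951739399))) (b (a (l 16484232) (l 110762766471))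 (c (l 100025400439) (l 102709620983))))) (l 3)) (a (c (c (l 86604200519) (c (l 16873328) (l 90362060615))) (c (a (l 16683696) (c (l 96804369783) (l 86066845927))) (a (l 16544600) (c (l 82845586711) (l 69960547127))))) (a (c (c (l 144049363591) (b (l 146196824711) (l 101099594247))) (b (c (l 114521153703) (l 114520931175)) (b (c (l 108615494167) (l 106467958951)) (c (l 104857431031) (l 104320474535))))) (l 3))))) (l 3))) (l 3))), by decide +kernel⟩

def k10_pm_113 : ∃ t, chk3 f_pm_113 t 6 7 1 = true :=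
  ⟨(b (a (a (b (c (l 16184000) (l 16129552)) (l 16310192)) (b (c (l 16258088) (l 16169296)) (a (l 16178776) (l 16290432)))) (b (c (a (l 16360848) (b (l 16479576) (l 16522120))) (a (l 16231968) (c (l 16366752) (l 16283368)))) (c (a (l 16405616) (c (l 16653800) (l 16543368))) (a (l 16238304) (a (l 16341736) (l 16428984)))))) (a (b (a (l 16091544) (l 16261424)) (a (l 16064512) (l 16200400))) (b (a (a (l 16311584) (l 16428912)) (c (l 16626384) (l 16463560))) (a (a (l 16346976) (l 16390824)) (c (l 16574576) (l 16463424)))))), by decide +kernel⟩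

def k11_pm_113 : ∃ t, chk3 f_pm_113 t 14 14 1 = true :=
  ⟨(a (b (c (b (a (l 16601392) (l 16697120)) (c (l 16789224) (l 16665720))) (b (a (l 16395720) (l 16463680)) (c (l 16545360) (l 16428184)))) (c (b (l 16677144) (l 16686368)) (b (c (l 16620216) (l 16490976)) (l 16636888)))) (b (c (b (a (c (l 16872992) (l 16739048)) (c (a (l 16908176) (l 16925896)) (a (l 16824232) (l 16885640)))) (a (l 16803048) (b (l 16877008) (l 16824888)))) (b (a (a (l 16522408) (l 16565712)) (c (c (l 16745320) (l 16673320)) (c (l 16601936) (l 16531176)))) (a (l 16636680) (c (l 16840384) (a (l 16650104) (l 16712656)))))) (c (b (a (l 16786136) (c (l 16813512) (l 16819520))) (a (l 16772520) (c (l 16798920) (l 16803992)))) (b (a (l 16748848) (b (l 16797888) (l 16799432))) (a (l 16763168) (b (l 16801448) (l 16803760))))))), by decide +kernel⟩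

def k12_pm_113 : ∃ t, chk3 f_pm_113 t 15 28 1 = true :=
  ⟨(a (a (c (c (b (b (a (l 16904376) (l 102173420791)) (c (l 16880336) (l 16878216))) (b (l 16877040) (l 16875912))) (a (b (b (l 16869288) (l 16910152)) (l 16882784)) (c (b (b (l 98415330199) (l 16882720)) (l 16876120)) (b (b (l 104857787607) (l 90899155895)) (l 16873592))))) (b (b (a (c (b (l 16743560) (l 16777568)) (b (l 16596592) (l 16626160))) (b (a (c (c (l 16823136) (l 99488752999)) (c (l 101636119495) (l 101099216087))) (l 3)) (a (c (l 94120119847) (a (l 16658928) (l 87140609799))) (c (l 122037461943) (b (l 108078639031) (l 107541718999)))))) (c (a (l 16832008) (c (l 88751669943) (b (l 92509638215) (l 16878488)))) (a (l 16673600) (b (a (l 16699928) (c (l 100562536039) (l 103246750695))) (c (l 89288326471) (a (l 16694696) (l 73718898983))))))) (c (b (c (l 16880384) (a (l 16869240) (l 16885400))) (a (l 16898752) (l 16872056))) (b (a (l 16743168) (a (l 16794408) (b (a (l 16800272) (l 16776008)) (l 16852320)))) (c (l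 16863928) (a (l 16776448) (l 16853968))))))) (a (b (a (b (l 3) (b (l 3) (c (l 110763356407) (c (l 126332642919) (c (l 116668894599) (l 103783818535)))))) (l 3)) (c (c (b (l 109689593383) (l 106468385943)) (b (a (l 100562817639) (l 173577231735)) (b (l 102173419719) (l 100562815687)))) (b (b (a (c (l 97341592679) (c (l 96267796199) (a (l 76940231735) (l 100025824455)))) (l 3)) (a (c (l 94120376295) (c (l 90362279543) (b (l 94657091255) (l 91972780167)))) (b (l 3) (c (l 173577246759) (l 106468359303))))) (c (a (b (l 16872104) (l 16875736)) (b (l 101099674743) (l 98952199175))) (a (b (c (l 16889664) (l 16866336)) (l 16870528)) (b (a (c (l 95194110999) (l 93583478967)) (l 3)) (c (l 95194101959) (a (l 16859496) (l 95194098823))))))))) (l 3))) (l 3)), by decide +kernel⟩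

def k13_pm_113 : ∃ t, chk3 f_pm_113 t 30 29 1 = true :=
  ⟨(a (b (c (b (c (l 16875720) (l 16880656)) (c (l 16834744) (l 16860872))) (c (b (l 16865200) (l 16866664)) (b (a (l 16885168) (l 16878408)) (l 16862616)))) (c (b (c (l 16836912) (l 16821040)) (c (l 16819416) (l 16824008))) (b (c (l 16826832) (l 16854280)) (b (l 16794960) (l 16806504))))) (a (b (c (b (c (l 16869680) (b (l 16856424) (l 16878968))) (c (l 16880152) (l 16863792))) (b (c (c (l 16864800) (a (l 16879488) (l 16870832))) (b (c (l 90899140551) (a (l 16872008) (c (l 16859488) (l 16868624)))) (c (l 16871120) (l 16868040)))) (c (c (l 16867552) (l 16870208)) (b (l 16869624) (l 16869744))))) (b (c (b (l 16867752) (l 16858424)) (c (l 16870608) (l 16871024))) (c (b (l 16828416) (l 16840552)) (c (l 16830704) (l 16856784))))) (b (a (c (b (c (l 113447698103) (b (l 109152729959) (l 107542125447))) (c (l 107005264039) (b (l 16862696) (l 16865832)))) (b (c (b (l 120427012951) (c (l 104320898983) (l 101636539863))) (b (a (c (l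 98952190407) (l 104857762775)) (l 3)) (c (l 99489050855) (a (l 95194096407) (l 108078979031))))) (c (b (c (l 16858680) (l 16866376)) (l 16860272)) (b (c (l 95730961527) (b (l 94657216087) (l 16861232))) (c (l 16855864) (l 16852800)))))) (b (l 3) (b (b (l 3) (c (l 134922517543) (c (l 124721996823) (a (l 115595168887) (l 3))))) (c (c (l 110226471335) (l 104857753911)) (c (a (l 97878440391) (l 112373938471)) (c (l 111837071223) (a (l 90899110663) (l 123648239015)))))))) (b (c (c (a (l 16873520) (l 109152730407)) (b (l 104320886407) (l 16856120))) (c (a (l 16861312) (b (l 100025913207) (l 16851432))) (b (a (l 16857176) (c (l 95730943815) (l 93046584359))) (c (l 16854448) (l 91435977127))))) (c (c (l 16859368) (l 16857848)) (c (b (l 16850936) (l 16862480)) (b (l 16850296) (l 16845912)))))))), by decide +kernel⟩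

def k14_pm_113 : ∃ t, chk3 f_pm_113 t 31 29 1 = true :=
  ⟨(a (b (l 3) (b (b (l 3) (a (a (a (c (c (l 16849536) (l 16855520)) (c (l 116668903127) (c (l 114521417751) (l 112910799751)))) (l 3)) (l 3)) (l 3))) (a (b (a (c (c (l 16850752) (l 110763320247)) (c (l 105394602343) (b (l 99489015543) (l 100562760871)))) (l 3)) (a (c (c (l 16846008) (l 16846144)) (c (l 108078963639) (c (l 16837880) (l 16843208)))) (b (l 3) (c (l 123111325687) (c (l 137069974007) (l 127406277191)))))) (l 3)))) (l 3)), by decide +kernel⟩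

def k15_pm_113 : ∃ t, chk3 f_pm_113 t 14 15 1 = true :=
  ⟨(b (a (c (b (l 16697696) (l 16668360)) (b (l 16676856) (l 16658488))) (c (a (b (l 16740336) (l 16709672)) (b (a (l 16761216) (l 16774952)) (l 16736744))) (a (b (l 16746216) (l 16706912)) (b (a (l 16768472) (l 16740496)) (l 16662016))))) (a (c (b (l 16641128) (l 16617072)) (b (l 16618280) (l 16577576))) (c (b (c (l 16698048) (l 16690672)) (a (l 16656928) (l 16682024))) (b (a (l 16666008) (l 16694224)) (a (l 16624792) (l 16653424)))))), by decide +kernel⟩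

def k16_pm_113 : ∃ t, chk3 f_pm_113 t 30 15 1 = true :=
  ⟨(b (b (a (c (c (l 16732096) (l 16734936)) (b (a (l 16806048) (l 16820160)) (l 16772336))) (c (a (c (l 16775608) (l 16778288)) (b (b (l 16847640) (l 16817728)) (b (l 16808832) (l 16820976)))) (b (a (l 16792968) (c (l 16848344) (l 16852296))) (c (l 16821560) (b (l 16829576) (l 16798376)))))) (c (a (c (l 16764288) (l 16763536)) (b (a (l 16793296) (l 16765976)) (a (l 16776808) (l 16790944)))) (a (c (l 16763120) (l 16742080)) (b (c (l 16760376) (l 16761848)) (b (l 16745968) (l 16756824)))))) (c (b (a (a (l 16726976) (l 16740032)) (b (a (l 16760992) (l 16774672)) (l 16710776))) (a (l 16706408) (b (l 16738424) (l 16725112)))) (b (a (a (l 16714976) (l 16729456)) (b (a (l 16754768) (l 16770416)) (a (l 16734480) (l 16750192)))) (a (a (l 16674512) (l 16689200)) (b (a (l 16714408) (l 16730200)) (a (l 16694760) (l 16710656))))))), by decide +kernel⟩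

def k17_pm_113 : ∃ t, chk3 f_pm_113 t 62 30 1 = true :=
  ⟨(b (a (c (c (b (b (l 117742624343) (l 42580705847)) (a (l 16814448) (l 16842752))) (b (b (a (l 16861224) (l 115058265063)) (l 101099625399)) (a (l 16838064) (l 16840480)))) (b (a (c (b (l 16843792) (l 16855448)) (b (l 16839016) (l 16838304))) (b (c (l 109689547223) (c (l 133848745479) (a (l 16837088) (l 125795689671)))) (c (l 113447650215) (b (l 107542064263) (l 16832448))))) (b (c (l 16839376) (c (l 16831576) (l 16833472))) (c (l 16840208) (l 16822472))))) (a (b (a (a (b (l 3) (c (l 124721937303) (c (l 118816352903) (l 114521376055)))) (l 3)) (l 3)) (c (b (b (l 127406273239) (l 121500696439)) (c (l 108615807399) (l 123111311975))) (b (a (c (l 114521382359) (b (l 107542054439) (l 16828744))) (l 3)) (c (l 118279465959) (b (l 111837009159) (l 114521367735)))))) (l 3))) (c (b (c (a (l 16821560) (a (b (l 16836384) (l 16827488)) (b (l 134922451367) (l 113447621911)))) (a (l 16823464) (a (b (l 16818312) (l 16829960)) (b (a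 (l 133311850295) (l 3)) (l 126869385047))))) (a (c (l 16783712) (l 16784392)) (b (a (l 16819752) (c (a (l 16802728) (l 16827040)) (b (l 16819912) (l 16825688)))) (a (l 16790008) (b (l 16819928) (l 16815528)))))) (b (a (c (l 16815168) (b (l 16833264) (l 16822968))) (a (b (c (l 16826752) (b (l 16818424) (l 16819808))) (c (l 16832712) (l 16814776))) (a (b (c (l 127943132535) (b (l 118816321207) (l 113984486983))) (c (l 16821792) (l 120963809959))) (b (l 3) (c (l 127943121127) (b (l 147270469559) (l 115058217511))))))) (a (c (l 16785280) (l 16775896)) (a (b (l 16818920) (l 16814104)) (b (c (b (l 16816992) (l 16807528)) (b (l 122574413191) (l 16809496))) (c (l 16821184) (l 16813312)))))))), by decide +kernel⟩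

def k18_pm_113 : ∃ t, chk3 f_pm_113 t 63 30 1 = true :=
  ⟨(b (l 3) (a (b (l 3) (a (a (b (b (l 3) (c (l 137606797239) (c (l 130090600055) (l 157471009511)))) (c (b (l 109689515159) (l 103783925159)) (c (l 129016858359) (b (l 122037532151) (l 16810600))))) (b (l 3) (b (l 3) (c (l 135996172471) (c (l 283635691271) (l 160692223735)))))) (l 3))) (l 3))), by decide +kernel⟩

def k19_pm_113 : ∃ t, chk3 f_pm_113 t 62 31 1 = true :=
  ⟨(b (a (c (b (a (l 16784856) (l 16770608)) (l 16740936)) (b (b (l 16791640) (l 16781528)) (a (l 16762280) (l 16770504)))) (c (c (b (b (a (l 16802128) (l 16808328)) (l 16797264)) (b (l 16789552) (l 16782136))) (b (b (l 16806304) (l 16776536)) (a (l 16781224) (l 16767080)))) (b (c (b (l 16807528) (l 16776912)) (b (l 16808944) (l 16772176))) (b (a (l 16783840) (l 16771248)) (a (l 16773816) (l 16782200)))))) (c (b (a (l 16757520) (b (l 16773672) (l 16766296))) (a (l 16743688) (b (l 16759208) (l 16752408)))) (b (a (a (l 16742336) (l 16750592)) (b (a (l 16763872)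 (l 16772272)) (a (l 16754040) (l 16762456)))) (a (l 16706056) (b (l 16748584) (l 16739072)))))), by decide +kernel⟩

def k20_pm_113 : ∃ t, chk3 f_pm_113 t 63 62 1 = true :=
  ⟨(a (b (a (c (b (c (a (l 16802408) (b (l 16813152) (l 16813896))) (b (l 107005149719) (l 16811952))) (a (b (l 16807496) (l 16803288)) (c (l 16807632) (l 16809536)))) (c (b (b (l 131701202679) (l 80698471511)) (a (l 16786736) (l 16806408))) (b (a (l 16809512) (b (l 122574391639) (l 130090589031))) (b (l 16803888) (l 16809112))))) (a (b (a (b (l 3) (b (l 3) (c (l 16806360) (l 124721872519)))) (l 3)) (c (b (c (l 85530309511) (l 131164328615)) (b (l 121500647863) (l 119353161671))) (b (a (c (l 16805976) (l 135459293239)) (l 3)) (c (l 135459293303) (l 130627448343))))) (l 3))) (c (b (b (c (a (l 16800208) (a (l 16796624) (l 101099552167))) (a (l 16801264) (a (l 16806328) (l 138680508103)))) (a (l 16786136) (a (c (l 16800536) (l 16791488)) (b (a (l 148344182839) (l 109689483351)) (a (l 16802488) (l 117742541959))))))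 (a (c (l 16790640) (l 16790576)) (a (b (c (l 16796680) (l 16797680)) (l 16793152)) (c (b (c (l 155860365991) (l 16799840)) (a (l 16794920) (l 16796264))) (b (a (l 16789672) (l 16799256)) (l 16788864)))))) (b (a (c (l 16800088) (l 16795968)) (b (a (b (l 131701195255) (l 16797720)) (a (c (l 137606771687) (l 132238056119)) (l 3))) (c (a (l 16803576) (l 135459280599)) (a (l 16805352) (a (l 16799384) (l 130090566583)))))) (b (a (l 16782640) (a (l 16796824) (c (a (l 16801752) (l 16798528)) (b (l 139217377175) (l 16792848))))) (a (l 16788136) (a (l 16783984) (c (l 16798000) (l 16799416)))))))) (a (a (b (l 3) (b (l 3) (b (a (a (b (l 3) (c (l 145659823559) (l 137069890999))) (l 3)) (l 3)) (a (c (b (c (l 16797400) (l 16800392)) (c (l 16796680) (l 16798144))) (c (l 73719125575) (l 137069886951))) (b (l 3) (b (l 3) (c (l 119353145735) (l 130627430423)))))))) (l 3)) (l 3))), by decide +kernel⟩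

def k21_pm_113 : ∃ t, chk3 f_pm_113 t 126 63 1 = true :=
  ⟨(b (c (b (c (a (l 16783328) (b (l 16801024) (l 16786896))) (a (l 16782280) (a (l 16787200) (c (l 16779856) (l 16780096))))) (a (l 16775288) (c (l 16792080) (a (l 16779096) (l 16782320))))) (b (a (a (l 16778592) (l 16767088)) (b (c (a (l 16789416) (l 16782824)) (l 16791920)) (c (l 16776240) (l 16773608)))) (c (a (l 16772040) (a (l 16777888) (l 16771288))) (a (l 16769776) (b (l 16781528) (l 16776376)))))) (b (c (a (l 16768064) (c (l 16774808) (l 16772864))) (a (l 16740296) (a (l 16751912) (b (l 16774288) (l 16769528))))) (c (c (l 16786840) (l 16783104)) (a (l 16751808) (a (l 16758208) (l 6)))))), by decide +kernel⟩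

def k22_pm_113 : ∃ t, chk3 f_pm_113 t 127 63 1 = true :=
  ⟨(a (a (b (c (b (c (b (a (l 16788600) (b (l 62981702487) (l 155323489863))) (b (l 16791728) (l 16789904))) (b (a (l 16789728) (b (l 67276674167) (l 16795600))) (b (l 16792664) (l 16790600)))) (c (b (l 16787208) (l 16783688)) (b (a (l 16786744) (l 16788344)) (l 16783528)))) (b (b (c (a (l 16796232) (b (l 135459274535) (l 16791816))) (c (l 117742531287) (l 138680494215))) (c (a (l 16791576) (l 16790896)) (a (l 16792432) (l 16792104)))) (b (c (a (l 16786976) (l 16783672)) (l 16788416)) (c (l 16783392) (l 16772792))))) (b (a (b (b (l 16768912) (l 6)) (l 6)) (l 6)) (l 6))) (b (a (c (b (b (b (l 3) (l 120426882487)) (c (c (b (l 57076118839) (l 153176003111)) (b (l 58686733111) (l 152102261895))) (b (l 85530277927) (a (l 16787360) (l 16792248))))) (c (b (b (l 163913417751) (l 16788224)) (l 16785576)) (b (b (l 16790960) (l 16788920)) (b (l 16786904) (l 6))))) (b (b (b (l 3) (c (l 360408190231) (l 343228317095))) (b (c (l 140827977031)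 (l 135996135031)) (c (l 95193952391) (l 140827975447)))) (b (c (b (l 16792000) (l 16784464)) (b (l 16787912) (l 16790576))) (a (c (l 16785808) (l 16786160)) (l 6))))) (b (l 3) (b (b (a (b (c (l 140827972071) (l 132238038215)) (c (l 144586066567) (l 136533006711))) (l 3)) (a (b (c (l 156397224871) (l 123111234727)) (l 6)) (l 6))) (l 6)))) (l 6))) (b (b (l 3) (b (l 3) (l 6))) (l 6))), by decide +kernel⟩

theorem s23_pm_113 : ∃ t, chk3 f_pm_113 t 63 63 1 = true := ex3_a k21_pm_113 k22_pm_113

theorem s24_pm_113 : ∃ t, chk3 f_pm_113 t 63 31 1 = true := ex3_b k20_pm_113 s23_pm_113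

theorem s25_pm_113 : ∃ t, chk3 f_pm_113 t 31 31 1 = true := ex3_a k19_pm_113 s24_pm_113

theorem s26_pm_113 : ∃ t, chk3 f_pm_113 t 31 30 1 = true := ex3_a k17_pm_113 k18_pm_113

theorem s27_pm_113 : ∃ t, chk3 f_pm_113 t 31 15 1 = true := ex3_b s26_pm_113 s25_pm_113

theorem s28_pm_113 : ∃ t, chk3 f_pm_113 t 15 15 1 = true := ex3_a k16_pm_113 s27_pm_113

theorem s29_pm_113 : ∃ t, chk3 f_pm_113 t 7 15 1 = true := ex3_a k15_pm_113 s28_pm_113

theorem s30_pm_113 : ∃ t, chk3 f_pm_113 t 15 29 1 = true := ex3_a k13_pm_113 k14_pm_113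

theorem s31_pm_113 : ∃ t, chk3 f_pm_113 t 15 14 1 = true := ex3_b k12_pm_113 s30_pm_113

theorem s32_pm_113 : ∃ t, chk3 f_pm_113 t 7 14 1 = true := ex3_a k11_pm_113 s31_pm_113

theorem s33_pm_113 : ∃ t, chk3 f_pm_113 t 7 7 1 = true := ex3_b s32_pm_113 s29_pm_113

theorem s34_pm_113 : ∃ t, chk3 f_pm_113 t 3 7 1 = true := ex3_a k10_pm_113 s33_pm_113

theorem s35_pm_113 : ∃ t, chk3 f_pm_113 t 14 13 1 = true := ex3_b k7_pm_113 k8_pm_113

theorem s36_pm_113 : ∃ t, chk3 f_pm_113 t 14 6 1 = true := ex3_b k6_pm_113 s35_pm_113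

theorem s37_pm_113 : ∃ t, chk3 f_pm_113 t 7 6 1 = true := ex3_a s36_pm_113 k9_pm_113

theorem s38_pm_113 : ∃ t, chk3 f_pm_113 t 3 6 1 = true := ex3_a k5_pm_113 s37_pm_113

theorem s39_pm_113 : ∃ t, chk3 f_pm_113 t 3 3 1 = true := ex3_b s38_pm_113 s34_pm_113

theorem s40_pm_113 : ∃ t, chk3 f_pm_113 t 1 3 1 = true := ex3_a k4_pm_113 s39_pm_113

theorem s41_pm_113 : ∃ t, chk3 f_pm_113 t 3 5 1 = true := ex3_a k2_pm_113 k3_pm_113

theorem s42_pm_113 : ∃ t, chk3 f_pm_113 t 3 2 1 = true := ex3_b k1_pm_113 s41_pm_113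

theorem s43_pm_113 : ∃ t, chk3 f_pm_113 t 1 2 1 = true := ex3_a k0_pm_113 s42_pm_113

theorem s44_pm_113 : ∃ t, chk3 f_pm_113 t 1 1 1 = true := ex3_b s43_pm_113 s40_pm_113

theorem c_pm_113 : CertB 536870912 536870912 1610612736 536870912 858993459 64424510 3 eng mog cd0q1 cd1q3 pd1 false true false .nn 1 1 3
    ndB0q1 ndB1q3 pcB1 cut_pm_113 Ext.none :=
  certB1 (fam := false) (s1 := true) (s2 := false) (a := 1) (b := 1) (c := 3) (cn := .nn) (n1 := ndB0q1) (n2 := ndB1q3) (pc := pcB1) (cut := cut_pm_113) (xt := Ext.none) (P1 := 536870912) (W1 := 536870912) (P2 := 1610612736) (W2 := 536870912) (P3 := 858993459) (W3 := 64424510) (N0 := 3) (En := eng) (mo := mog) (C1 := cd0q1) (C2 := cd1q3) (C3 := pd1)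
    rfl (fun _ => rfl) s44_pm_113

noncomputable def cut_pm_123 : Cut := Cut.of [[⟨0, 1, 0, 67108864⟩, ⟨1, 1, 0, 67108864⟩, ⟨2, 2, 0, 16777216⟩]]

noncomputable def f_pm_123 : ℕ → ℕ → ℕ → ℕ → Bool := onCell 536870912 536870912 1073741824 536870912 858993459 64424510
    (rowB 3 eng mog cd0q1 cd1q3 pd2 1 false true false .npn 1 2 3 (qsf 536870912 536870912 1610612736 536870912 2) ndB0q1 ndB1q3 pcB2 cut_pm_123 Ext.none)

def k0_pm_123 : ∃ t, chk3 f_pm_123 t 2 2 1 = true :=
  ⟨(a (b (a (b (c (b (a (c (l 15807784) (l 15792040)) (c (l 15836912) (l 15816552))) (a (l 15785312) (l 15812112))) (b (a (l 15782720) (l 15799056)) (l 15898776))) (a (c (l 15899560) (l 15793616)) (c (l 15841880) (l 15814544)))) (b (b (a (c (c (l 15874616) (l 15850216)) (l 15825096)) (c (b (l 15888600) (l 15884048)) (l 15837536))) (c (a (l 15847592) (l 15878520)) (a (l 15831552) (l 15853632)))) (c (a (l 15834536) (b (l 15873808) (l 15871808))) (a (l 15845680) (l 15879680))))) (a (b (c (b (l 15783744) (l 15786648))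 (l 15823472)) (c (l 15797424) (l 15851400))) (b (c (a (l 15830432) (l 15873856)) (l 15938072)) (c (l 15862360) (l 15936376))))) (b (a (b (b (c (a (c (l 15913984) (l 15878536)) (b (l 15911728) (l 15919752))) (a (l 15832272) (l 15837440))) (c (a (l 15900240) (l 15933128)) (a (l 15863960) (l 15885664)))) (c (a (b (l 15907192) (l 15916552)) (l 15964216)) (b (l 15914072) (l 15955152)))) (a (b (b (c (b (l 15945688) (l 15961288)) (b (l 15841168) (l 15874088))) (c (l 15986064) (l 15924008))) (b (l 16046976) (l 16057352))) (b (b (c (b (l 16027536) (l 16030592)) (b (l 15877640) (l 15920608))) (b (l 16008632) (l 16043008))) (b (l 16095320) (l 16165936))))) (a (b (c (a (l 15935648) (l 16015416)) (l 16057272)) (c (a (l 15961712) (l 16058176)) (l 16100760))) (b (c (a (l 16117040) (l 16215360)) (b (l 16175952) (l 16243968))) (a (c (l 16163816) (l 16253448)) (c (l 16278320) (l 16358632))))))), by decide +kernel⟩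

def k1_pm_123 : ∃ t, chk3 f_pm_123 t 2 3 1 = true :=
  ⟨(a (b (a (b (c (l 15821136) (l 15888232)) (l 15893184)) (b (c (l 15889864) (l 15982272)) (a (l 15972408) (l 16025256)))) (a (b (l 15958448) (l 16106680)) (b (a (l 16057712) (l 16100400)) (a (l 16139560) (l 2))))) (b (a (b (a (l 16057056) (l 16084360)) (c (l 16049456) (l 16237944))) (a (b (c (l 16236304) (l 16347272)) (c (l 16322744) (l 16451056))) (b (c (l 16364800) (l 16470200)) (l 2)))) (a (b (a (l 16083880) (l 2)) (l 2)) (l 2)))), by decide +kernel⟩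

def k2_pm_123 : ∃ t, chk3 f_pm_123 t 6 2 1 = true :=
  ⟨(b (b (a (b (c (a (b (l 16189696) (l 16138336)) (b (l 16260328) (l 16300064))) (a (b (l 16008432) (l 15999376)) (b (l 16166112) (l 16125928)))) (c (b (l 16249128) (l 16287080)) (b (l 16115288) (l 16174456)))) (b (a (b (c (l 16382120) (b (l 16232864) (l 16269688))) (c (l 16381056) (l 16324352))) (b (c (a (l 16413576) (l 16432888)) (b (l 16388344) (l 16398008))) (b (l 16416840) (l 16423464)))) (c (b (l 16411248) (l 16419288)) (c (l 16417432) (l 16400232))))) (b (a (c (l 16296672) (l 16262464)) (a (l 16373264) (b (l 16472648) (l 16496488)))) (a (c (l 16312336) (l 16356968)) (a (l 16455608) (b (l 16524040) (l 16555744)))))) (b (a (b (a (l 16318896) (l 16412640)) (a (l 16357640) (l 16463736))) (b (a (b (l 16494088) (l 16524512)) (c (l 16592216) (l 16626968))) (a (l 16573760) (l 16680184)))) (a (c (a (l 16399200) (l 16520208)) (a (l 16472904) (l 16590344))) (a (b (l 16638856) (l 2)) (l 2))))), by decide +kernel⟩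

def k3_pm_123 : ∃ t, chk3 f_pm_123 t 7 2 1 = true :=
  ⟨(b (b (a (a (b (a (b (c (l 16451368) (l 16403200)) (l 16432432)) (b (c (l 16469408) (l 16441424)) (l 16453208))) (b (l 16484920) (l 16509112))) (b (a (b (c (b (l 16485648) (l 16494160)) (l 16439768)) (l 16502112)) (b (l 16500560) (l 16551640))) (a (b (l 16532496) (l 16566232)) (b (l 16583856) (l 16618928))))) (a (a (b (b (b (l 16548624) (l 16583712)) (l 16606056)) (b (l 16617168) (b (l 16665448) (l 16684256)))) (b (b (b (a (l 16612960) (l 16621928)) (l 16641840)) (c (l 16667160) (l 16618832))) (b (c (l 16691296) (l 16697632)) (l 674410125655)))) (b (a (b (b (a (b (l 16649144) (l 16676808)) (c (l 16710312) (l 16709112))) (a (l 16687224) (c (l 16721568) (l 16715104)))) (c (b (l 16718896) (l 16731256)) (b (l 16715856) (l 16733920)))) (b (a (a (a (b (b (l 16699816) (l 6)) (l 6)) (l 6)) (l 6)) (a (l 6) (b (l 6) (l 2)))) (a (b (l 747424822295) (l 2)) (l 2)))) (a (b (c (l 707159394743) (l 725949835815)) (l 2)) (l 2))))) (a (b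 (a (b (l 16538208) (a (l 16551120) (l 16593000))) (a (l 16435656) (b (l 16658416) (l 16697368)))) (a (a (c (l 16581352) (l 16633696)) (l 16401600)) (a (l 16555384) (l 2)))) (a (b (a (c (l 16707312) (l 16743752)) (l 2)) (l 2)) (l 2)))) (a (b (b (a (b (l 16685704) (l 2)) (l 2)) (l 2)) (l 2)) (l 2))), by decide +kernel⟩

def k4_pm_123 : ∃ t, chk3 f_pm_123 t 3 3 1 = true :=
  ⟨(a (b (a (b (a (c (l 16497792) (l 16599800)) (l 2)) (l 2)) (l 2)) (l 2)) (l 2)), by decide +kernel⟩

theorem s5_pm_123 : ∃ t, chk3 f_pm_123 t 3 2 1 = true := ex3_a k2_pm_123 k3_pm_123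

theorem s6_pm_123 : ∃ t, chk3 f_pm_123 t 3 1 1 = true := ex3_b s5_pm_123 k4_pm_123

theorem s7_pm_123 : ∃ t, chk3 f_pm_123 t 2 1 1 = true := ex3_b k0_pm_123 k1_pm_123

theorem s8_pm_123 : ∃ t, chk3 f_pm_123 t 1 1 1 = true := ex3_a s7_pm_123 s6_pm_123

theorem c_pm_123 : CertB 536870912 536870912 1610612736 536870912 858993459 64424510 3 eng mog cd0q1 cd1q3 pd2 false true false .npn 1 2 3
    ndB0q1 ndB1q3 pcB2 cut_pm_123 Ext.none :=
  certB1 (fam := false) (s1 := true) (s2 := false) (a := 1) (b := 2) (c := 3) (cn := .npn) (n1 := ndB0q1) (n2 := ndB1q3) (pc := pcB2) (cut := cut_pm_123) (xt := Ext.none) (P1 := 536870912) (W1 := 536870912) (P2 := 1610612736) (W2 := 536870912) (P3 := 858993459) (W3 := 64424510) (N0 := 3) (En := eng) (mo := mog) (C1 := cd0q1) (C2 := cd1q3) (C3 := pd2)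
    rfl (fun _ => rfl) s8_pm_123

noncomputable def f_pm_133 : ℕ → ℕ → ℕ → ℕ → Bool := onCell 536870912 536870912 1610612736 536870912 858993459 64424510
    (rowB 3 eng mog cd0q1 cd1q3 pd3 1 false true false .dn 1 3 3 (qsf 536870912 536870912 1610612736 536870912 3) ndB0q1 ndB1q3 pcB3 Cut.none Ext.none)

def k0_pm_133 : ∃ t, chk3 f_pm_133 t 1 1 1 = true :=
  ⟨(a (b (a (b (a (b (l 16678408) (l 2)) (l 2)) (l 2)) (l 2)) (l 2)) (l 2)), by decide +kernel⟩

theorem c_pm_133 : CertB 536870912 536870912 1610612736 536870912 858993459 64424510 3 eng mog cd0q1 cd1q3 pd3 false true false .dn 1 3 3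
    ndB0q1 ndB1q3 pcB3 Cut.none Ext.none :=
  certB1 (fam := false) (s1 := true) (s2 := false) (a := 1) (b := 3) (c := 3) (cn := .dn) (n1 := ndB0q1) (n2 := ndB1q3) (pc := pcB3) (cut := Cut.none) (xt := Ext.none) (P1 := 536870912) (W1 := 536870912) (P2 := 1610612736) (W2 := 536870912) (P3 := 858993459) (W3 := 64424510) (N0 := 3) (En := eng) (mo := mog) (C1 := cd0q1) (C2 := cd1q3) (C3 := pd3)
    rfl (fun _ => rfl) k0_pm_133

noncomputable def cut_pm_202_a : Cut := Cut.of [[⟨0, 1, 0, 67108864⟩, ⟨1, 0, 0, 67108864⟩, ⟨2, 1, 0, 67108864⟩]]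

noncomputable def f_pm_202_a : ℕ → ℕ → ℕ → ℕ → Bool := onCell 0 536870912 0 536870912 858993459 64424510
    (rowB 3 eng mog cd0q2 cd1q2a pd0 0 false true false .pp 2 0 2 (qsf 0 536870912 0 536870912 0) ndB0q2 ndB1q2a pcB0 cut_pm_202_a Ext.none)

def k0_pm_202_a : ∃ t, chk3 f_pm_202_a t 1 1 1 = true :=
  ⟨(a (l 3) (b (l 3) (a (l 3) (b (l 3) (a (l 3) (b (l 3) (l 6))))))), by decide +kernel⟩

theorem c_pm_202_a : CertB 0 536870912 0 536870912 858993459 64424510 3 eng mog cd0q2 cd1q2a pd0 false true false .pp 2 0 2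
    ndB0q2 ndB1q2a pcB0 cut_pm_202_a Ext.none :=
  certB0 (fam := false) (s1 := true) (s2 := false) (a := 2) (b := 0) (c := 2) (cn := .pp) (n1 := ndB0q2) (n2 := ndB1q2a) (pc := pcB0) (cut := cut_pm_202_a) (xt := Ext.none) (P1 := 0) (W1 := 536870912) (P2 := 0) (W2 := 536870912) (P3 := 858993459) (W3 := 64424510) (N0 := 3) (En := eng) (mo := mog) (C1 := cd0q2) (C2 := cd1q2a) (C3 := pd0)
    rfl k0_pm_202_a

noncomputable def cut_pm_202_b : Cut := Cut.of [[⟨0, 1, 0, 67108864⟩, ⟨1, 0, 0, 67108864⟩, ⟨2, 1, 0, 67108864⟩]]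

noncomputable def f_pm_202_b : ℕ → ℕ → ℕ → ℕ → Bool := onCell 0 536870912 1239849684 370763052 858993459 64424510
    (rowB 3 eng mog cd0q2 cd1q2b pd0 0 false true false .pp 2 0 2 (qsf 0 536870912 1239849684 370763052 0) ndB0q2 ndB1q2b pcB0 cut_pm_202_b Ext.none)

def k0_pm_202_b : ∃ t, chk3 f_pm_202_b t 1 1 1 = true :=
  ⟨(l 3), by decide +kernel⟩

theorem c_pm_202_b : CertB 0 536870912 1239849684 370763052 858993459 64424510 3 eng mog cd0q2 cd1q2b pd0 false true false .pp 2 0 2
    ndB0q2 ndB1q2b pcB0 cut_pm_202_b Ext.none :=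
  certB0 (fam := false) (s1 := true) (s2 := false) (a := 2) (b := 0) (c := 2) (cn := .pp) (n1 := ndB0q2) (n2 := ndB1q2b) (pc := pcB0) (cut := cut_pm_202_b) (xt := Ext.none) (P1 := 0) (W1 := 536870912) (P2 := 1239849684) (W2 := 370763052) (P3 := 858993459) (W3 := 64424510) (N0 := 3) (En := eng) (mo := mog) (C1 := cd0q2) (C2 := cd1q2b) (C3 := pd0)
    rfl k0_pm_202_b

noncomputable def f_pm_203 : ℕ → ℕ → ℕ → ℕ → Bool := onCell 0 536870912 0 536870912 858993459 64424510
    (rowB 3 eng mog cd0q2 cd1q3 pd0 1 false true false .up 2 0 3 (qsf 0 536870912 1610612736 536870912 0) ndB0q2 ndB1q3 pcB0 Cut.none Ext.none)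

def k0_pm_203 : ∃ t, chk3 f_pm_203 t 1 1 1 = true :=
  ⟨(l 3), by decide +kernel⟩

theorem c_pm_203 : CertB 0 536870912 1610612736 536870912 858993459 64424510 3 eng mog cd0q2 cd1q3 pd0 false true false .up 2 0 3
    ndB0q2 ndB1q3 pcB0 Cut.none Ext.none :=
  certB1 (fam := false) (s1 := true) (s2 := false) (a := 2) (b := 0) (c := 3) (cn := .up) (n1 := ndB0q2) (n2 := ndB1q3) (pc := pcB0) (cut := Cut.none) (xt := Ext.none) (P1 := 0) (W1 := 536870912) (P2 := 1610612736) (W2 := 536870912) (P3 := 858993459) (W3 := 64424510) (N0 := 3) (En := eng) (mo := mog) (C1 := cd0q2) (C2 := cd1q3) (C3 := pd0)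
    rfl (fun _ => rfl) k0_pm_203

noncomputable def cut_pm_213 : Cut := Cut.of [[⟨0, 1, 0, 67108864⟩, ⟨1, 1, 0, 67108864⟩, ⟨2, 2, 0, 16777216⟩]]

noncomputable def f_pm_213 : ℕ → ℕ → ℕ → ℕ → Bool := onCell 0 536870912 1610612736 536870912 858993459 64424510
    (rowB 3 eng mog cd0q2 cd1q3 pd1 0 false true false .pnn 2 1 3 (qsf 0 536870912 1610612736 536870912 1) ndB0q2 ndB1q3 pcB1 cut_pm_213 Ext.none)

def k0_pm_213 : ∃ t, chk3 f_pm_213 t 1 1 1 = true :=
  ⟨(b (l 3) (a (l 3) (b (l 3) (a (l 3) (b (l 3) (b (l 3) (a (l 3) (b (l 3) (b (l 3) (l 6)))))))))), by decide +kernel⟩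

theorem c_pm_213 : CertB 0 536870912 1610612736 536870912 858993459 64424510 3 eng mog cd0q2 cd1q3 pd1 false true false .pnn 2 1 3
    ndB0q2 ndB1q3 pcB1 cut_pm_213 Ext.none :=
  certB0 (fam := false) (s1 := true) (s2 := false) (a := 2) (b := 1) (c := 3) (cn := .pnn) (n1 := ndB0q2) (n2 := ndB1q3) (pc := pcB1) (cut := cut_pm_213) (xt := Ext.none) (P1 := 0) (W1 := 536870912) (P2 := 1610612736) (W2 := 536870912) (P3 := 858993459) (W3 := 64424510) (N0 := 3) (En := eng) (mo := mog) (C1 := cd0q2) (C2 := cd1q3) (C3 := pd1)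
    rfl k0_pm_213

noncomputable def f_mm_001 : ℕ → ℕ → ℕ → ℕ → Bool := onCell 0 536870912 536870912 536870912 858993459 64424510
    (rowB 3 eng mog cd0q0 cd1q1 pd0 0 false false false .up 0 0 1 (qsf 0 536870912 536870912 536870912 0) ndB0q0 ndB1q1 pcB0 Cut.none Ext.none)

def k0_mm_001 : ∃ t, chk3 f_mm_001 t 1 1 1 = true :=
  ⟨(l 3), by decide +kernel⟩

theorem c_mm_001 : CertB 0 536870912 536870912 536870912 858993459 64424510 3 eng mog cd0q0 cd1q1 pd0 false false false .up 0 0 1
    ndB0q0 ndB1q1 pcB0 Cut.none Ext.none :=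
  certB0 (fam := false) (s1 := false) (s2 := false) (a := 0) (b := 0) (c := 1) (cn := .up) (n1 := ndB0q0) (n2 := ndB1q1) (pc := pcB0) (cut := Cut.none) (xt := Ext.none) (P1 := 0) (W1 := 536870912) (P2 := 536870912) (W2 := 536870912) (P3 := 858993459) (W3 := 64424510) (N0 := 3) (En := eng) (mo := mog) (C1 := cd0q0) (C2 := cd1q1) (C3 := pd0)
    rfl k0_mm_001

noncomputable def f_mm_011 : ℕ → ℕ → ℕ → ℕ → Bool := onCell 0 536870912 536870912 536870912 858993459 64424510
    (rowB 3 eng mog cd0q0 cd1q1 pd1 0 false false false .pnn 0 1 1 (qsf 0 536870912 536870912 536870912 1) ndB0q0 ndB1q1 pcB1 Cut.none Ext.none)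

def k0_mm_011 : ∃ t, chk3 f_mm_011 t 1 1 1 = true :=
  ⟨(l 3), by decide +kernel⟩

theorem c_mm_011 : CertB 0 536870912 536870912 536870912 858993459 64424510 3 eng mog cd0q0 cd1q1 pd1 false false false .pnn 0 1 1
    ndB0q0 ndB1q1 pcB1 Cut.none Ext.none :=
  certB0 (fam := false) (s1 := false) (s2 := false) (a := 0) (b := 1) (c := 1) (cn := .pnn) (n1 := ndB0q0) (n2 := ndB1q1) (pc := pcB1) (cut := Cut.none) (xt := Ext.none) (P1 := 0) (W1 := 536870912) (P2 := 536870912) (W2 := 536870912) (P3 := 858993459) (W3 := 64424510) (N0 := 3) (En := eng) (mo := mog) (C1 := cd0q0) (C2 := cd1q1) (C3 := pd1)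
    rfl k0_mm_011

noncomputable def f_mm_012_a : ℕ → ℕ → ℕ → ℕ → Bool := onCell 0 536870912 0 536870912 858993459 64424510
    (rowB 3 eng mog cd0q0 cd1q2a pd1 0 false false false .pnp 0 1 2 (qsf 0 536870912 0 536870912 1) ndB0q0 ndB1q2a pcB1 Cut.none Ext.none)

def k0_mm_012_a : ∃ t, chk3 f_mm_012_a t 1 1 1 = true :=
  ⟨(l 5), by decide +kernel⟩

theorem c_mm_012_a : CertB 0 536870912 0 536870912 858993459 64424510 3 eng mog cd0q0 cd1q2a pd1 false false false .pnp 0 1 2
    ndB0q0 ndB1q2a pcB1 Cut.none Ext.none :=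
  certB0 (fam := false) (s1 := false) (s2 := false) (a := 0) (b := 1) (c := 2) (cn := .pnp) (n1 := ndB0q0) (n2 := ndB1q2a) (pc := pcB1) (cut := Cut.none) (xt := Ext.none) (P1 := 0) (W1 := 536870912) (P2 := 0) (W2 := 536870912) (P3 := 858993459) (W3 := 64424510) (N0 := 3) (En := eng) (mo := mog) (C1 := cd0q0) (C2 := cd1q2a) (C3 := pd1)
    rfl k0_mm_012_a

noncomputable def f_mm_012_b : ℕ → ℕ → ℕ → ℕ → Bool := onCell 0 536870912 1239849684 370763052 858993459 64424510
    (rowB 3 eng mog cd0q0 cd1q2b pd1 0 false false false .pnp 0 1 2 (qsf 0 536870912 1239849684 370763052 1) ndB0q0 ndB1q2b pcB1 Cut.none Ext.none)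

def k0_mm_012_b : ∃ t, chk3 f_mm_012_b t 1 1 1 = true :=
  ⟨(l 5), by decide +kernel⟩

theorem c_mm_012_b : CertB 0 536870912 1239849684 370763052 858993459 64424510 3 eng mog cd0q0 cd1q2b pd1 false false false .pnp 0 1 2
    ndB0q0 ndB1q2b pcB1 Cut.none Ext.none :=
  certB0 (fam := false) (s1 := false) (s2 := false) (a := 0) (b := 1) (c := 2) (cn := .pnp) (n1 := ndB0q0) (n2 := ndB1q2b) (pc := pcB1) (cut := Cut.none) (xt := Ext.none) (P1 := 0) (W1 := 536870912) (P2 := 1239849684) (W2 := 370763052) (P3 := 858993459) (W3 := 64424510) (N0 := 3) (En := eng) (mo := mog) (C1 := cd0q0) (C2 := cd1q2b) (C3 := pd1)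
    rfl k0_mm_012_b

noncomputable def f_mm_022_a : ℕ → ℕ → ℕ → ℕ → Bool := onCell 0 536870912 0 536870912 858993459 64424510
    (rowB 3 eng mog cd0q0 cd1q2a pd2 0 false false false .pp 0 2 2 (qsf 0 536870912 0 536870912 2) ndB0q0 ndB1q2a pcB2 Cut.none Ext.none)

def k0_mm_022_a : ∃ t, chk3 f_mm_022_a t 1 1 1 = true :=
  ⟨(l 5), by decide +kernel⟩

theorem c_mm_022_a : CertB 0 536870912 0 536870912 858993459 64424510 3 eng mog cd0q0 cd1q2a pd2 false false false .pp 0 2 2
    ndB0q0 ndB1q2a pcB2 Cut.none Ext.none :=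
  certB0 (fam := false) (s1 := false) (s2 := false) (a := 0) (b := 2) (c := 2) (cn := .pp) (n1 := ndB0q0) (n2 := ndB1q2a) (pc := pcB2) (cut := Cut.none) (xt := Ext.none) (P1 := 0) (W1 := 536870912) (P2 := 0) (W2 := 536870912) (P3 := 858993459) (W3 := 64424510) (N0 := 3) (En := eng) (mo := mog) (C1 := cd0q0) (C2 := cd1q2a) (C3 := pd2)
    rfl k0_mm_022_a

noncomputable def f_mm_022_b : ℕ → ℕ → ℕ → ℕ → Bool := onCell 0 536870912 1239849684 370763052 858993459 64424510
    (rowB 3 eng mog cd0q0 cd1q2b pd2 0 false false false .pp 0 2 2 (qsf 0 536870912 1239849684 370763052 2) ndB0q0 ndB1q2b pcB2 Cut.none Ext.none)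

def k0_mm_022_b : ∃ t, chk3 f_mm_022_b t 1 1 1 = true :=
  ⟨(l 5), by decide +kernel⟩

theorem c_mm_022_b : CertB 0 536870912 1239849684 370763052 858993459 64424510 3 eng mog cd0q0 cd1q2b pd2 false false false .pp 0 2 2
    ndB0q0 ndB1q2b pcB2 Cut.none Ext.none :=
  certB0 (fam := false) (s1 := false) (s2 := false) (a := 0) (b := 2) (c := 2) (cn := .pp) (n1 := ndB0q0) (n2 := ndB1q2b) (pc := pcB2) (cut := Cut.none) (xt := Ext.none) (P1 := 0) (W1 := 536870912) (P2 := 1239849684) (W2 := 370763052) (P3 := 858993459) (W3 := 64424510) (N0 := 3) (En := eng) (mo := mog) (C1 := cd0q0) (C2 := cd1q2b) (C3 := pd2)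
    rfl k0_mm_022_b

noncomputable def f_mm_023 : ℕ → ℕ → ℕ → ℕ → Bool := onCell 0 536870912 1610612736 536870912 858993459 64424510
    (rowB 3 eng mog cd0q0 cd1q3 pd2 0 false false false .up 0 2 3 (qsf 0 536870912 1610612736 536870912 2) ndB0q0 ndB1q3 pcB2 Cut.none Ext.none)

def k0_mm_023 : ∃ t, chk3 f_mm_023 t 1 1 1 = true :=
  ⟨(l 5), by decide +kernel⟩

theorem c_mm_023 : CertB 0 536870912 1610612736 536870912 858993459 64424510 3 eng mog cd0q0 cd1q3 pd2 false false false .up 0 2 3
    ndB0q0 ndB1q3 pcB2 Cut.none Ext.none :=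
  certB0 (fam := false) (s1 := false) (s2 := false) (a := 0) (b := 2) (c := 3) (cn := .up) (n1 := ndB0q0) (n2 := ndB1q3) (pc := pcB2) (cut := Cut.none) (xt := Ext.none) (P1 := 0) (W1 := 536870912) (P2 := 1610612736) (W2 := 536870912) (P3 := 858993459) (W3 := 64424510) (N0 := 3) (En := eng) (mo := mog) (C1 := cd0q0) (C2 := cd1q3) (C3 := pd2)
    rfl k0_mm_023

noncomputable def f_mm_033 : ℕ → ℕ → ℕ → ℕ → Bool := onCell 0 536870912 1610612736 536870912 858993459 64424510
    (rowB 3 eng mog cd0q0 cd1q3 pd3 0 false false false .pnn 0 3 3 (qsf 0 536870912 1610612736 536870912 3) ndB0q0 ndB1q3 pcB3 Cut.none Ext.none)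

def k0_mm_033 : ∃ t, chk3 f_mm_033 t 1 1 1 = true :=
  ⟨(l 5), by decide +kernel⟩

theorem c_mm_033 : CertB 0 536870912 1610612736 536870912 858993459 64424510 3 eng mog cd0q0 cd1q3 pd3 false false false .pnn 0 3 3
    ndB0q0 ndB1q3 pcB3 Cut.none Ext.none :=
  certB0 (fam := false) (s1 := false) (s2 := false) (a := 0) (b := 3) (c := 3) (cn := .pnn) (n1 := ndB0q0) (n2 := ndB1q3) (pc := pcB3) (cut := Cut.none) (xt := Ext.none) (P1 := 0) (W1 := 536870912) (P2 := 1610612736) (W2 := 536870912) (P3 := 858993459) (W3 := 64424510) (N0 := 3) (En := eng) (mo := mog) (C1 := cd0q0) (C2 := cd1q3) (C3 := pd3)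
    rfl k0_mm_033

noncomputable def f_mm_101 : ℕ → ℕ → ℕ → ℕ → Bool := onCell 536870912 536870912 536870912 536870912 858993459 64424510
    (rowB 3 eng mog cd0q1 cd1q1 pd0 0 false false false .npn 1 0 1 (qsf 536870912 536870912 536870912 536870912 0) ndB0q1 ndB1q1 pcB0 Cut.none Ext.none)

def k0_mm_101 : ∃ t, chk3 f_mm_101 t 1 1 1 = true :=
  ⟨(l 3), by decide +kernel⟩

theorem c_mm_101 : CertB 536870912 536870912 536870912 536870912 858993459 64424510 3 eng mog cd0q1 cd1q1 pd0 false false false .npn 1 0 1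
    ndB0q1 ndB1q1 pcB0 Cut.none Ext.none :=
  certB0 (fam := false) (s1 := false) (s2 := false) (a := 1) (b := 0) (c := 1) (cn := .npn) (n1 := ndB0q1) (n2 := ndB1q1) (pc := pcB0) (cut := Cut.none) (xt := Ext.none) (P1 := 536870912) (W1 := 536870912) (P2 := 536870912) (W2 := 536870912) (P3 := 858993459) (W3 := 64424510) (N0 := 3) (En := eng) (mo := mog) (C1 := cd0q1) (C2 := cd1q1) (C3 := pd0)
    rfl k0_mm_101

noncomputable def f_mm_102_a : ℕ → ℕ → ℕ → ℕ → Bool := onCell 536870912 536870912 0 536870912 858993459 64424510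
    (rowB 3 eng mog cd0q1 cd1q2a pd0 0 false false false .npp 1 0 2 (qsf 536870912 536870912 0 536870912 0) ndB0q1 ndB1q2a pcB0 Cut.none Ext.none)

def k0_mm_102_a : ∃ t, chk3 f_mm_102_a t 1 1 1 = true :=
  ⟨(a (l 3) (l 3)), by decide +kernel⟩

theorem c_mm_102_a : CertB 536870912 536870912 0 536870912 858993459 64424510 3 eng mog cd0q1 cd1q2a pd0 false false false .npp 1 0 2
    ndB0q1 ndB1q2a pcB0 Cut.none Ext.none :=
  certB0 (fam := false) (s1 := false) (s2 := false) (a := 1) (b := 0) (c := 2) (cn := .npp) (n1 := ndB0q1) (n2 := ndB1q2a) (pc := pcB0) (cut := Cut.none) (xt := Ext.none) (P1 := 536870912) (W1 := 536870912) (P2 := 0) (W2 := 536870912) (P3 := 858993459) (W3 := 64424510) (N0 := 3) (En := eng) (mo := mog) (C1 := cd0q1) (C2 := cd1q2a) (C3 := pd0)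
    rfl k0_mm_102_a

noncomputable def f_mm_102_b : ℕ → ℕ → ℕ → ℕ → Bool := onCell 536870912 536870912 1239849684 370763052 858993459 64424510
    (rowB 3 eng mog cd0q1 cd1q2b pd0 0 false false false .npp 1 0 2 (qsf 536870912 536870912 1239849684 370763052 0) ndB0q1 ndB1q2b pcB0 Cut.none Ext.none)

def k0_mm_102_b : ∃ t, chk3 f_mm_102_b t 1 1 1 = true :=
  ⟨(l 5), by decide +kernel⟩

theorem c_mm_102_b : CertB 536870912 536870912 1239849684 370763052 858993459 64424510 3 eng mog cd0q1 cd1q2b pd0 false false false .npp 1 0 2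
    ndB0q1 ndB1q2b pcB0 Cut.none Ext.none :=
  certB0 (fam := false) (s1 := false) (s2 := false) (a := 1) (b := 0) (c := 2) (cn := .npp) (n1 := ndB0q1) (n2 := ndB1q2b) (pc := pcB0) (cut := Cut.none) (xt := Ext.none) (P1 := 536870912) (W1 := 536870912) (P2 := 1239849684) (W2 := 370763052) (P3 := 858993459) (W3 := 64424510) (N0 := 3) (En := eng) (mo := mog) (C1 := cd0q1) (C2 := cd1q2b) (C3 := pd0)
    rfl k0_mm_102_b

noncomputable def f_mm_112_a : ℕ → ℕ → ℕ → ℕ → Bool := onCell 536870912 536870912 0 536870912 858993459 64424510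
    (rowB 3 eng mog cd0q1 cd1q2a pd1 2 false false false .dn 1 1 2 (qsf 536870912 536870912 0 536870912 1) ndB0q1 ndB1q2a pcB1 Cut.none Ext.none)

def k0_mm_112_a : ∃ t, chk3 f_mm_112_a t 1 1 1 = true :=
  ⟨(l 5), by decide +kernel⟩

theorem c_mm_112_a : CertB 536870912 536870912 0 536870912 858993459 64424510 3 eng mog cd0q1 cd1q2a pd1 false false false .dn 1 1 2
    ndB0q1 ndB1q2a pcB1 Cut.none Ext.none :=
  certB2 (fam := false) (s1 := false) (s2 := false) (a := 1) (b := 1) (c := 2) (cn := .dn) (n1 := ndB0q1) (n2 := ndB1q2a) (pc := pcB1) (cut := Cut.none) (xt := Ext.none) (P1 := 536870912) (W1 := 536870912) (P2 := 0) (W2 := 536870912) (P3 := 858993459) (W3 := 64424510) (N0 := 3) (En := eng) (mo := mog) (C1 := cd0q1) (C2 := cd1q2a) (C3 := pd1)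
    rfl (fun _ => rfl) k0_mm_112_a

noncomputable def f_mm_112_b : ℕ → ℕ → ℕ → ℕ → Bool := onCell 536870912 536870912 1239849684 370763052 858993459 64424510
    (rowB 3 eng mog cd0q1 cd1q2b pd1 0 false false false .dn 1 1 2 (qsf 536870912 536870912 1239849684 370763052 1) ndB0q1 ndB1q2b pcB1 Cut.none Ext.none)

def k0_mm_112_b : ∃ t, chk3 f_mm_112_b t 1 1 1 = true :=
  ⟨(l 5), by decide +kernel⟩

theorem c_mm_112_b : CertB 536870912 536870912 1239849684 370763052 858993459 64424510 3 eng mog cd0q1 cd1q2b pd1 false false false .dn 1 1 2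
    ndB0q1 ndB1q2b pcB1 Cut.none Ext.none :=
  certB0 (fam := false) (s1 := false) (s2 := false) (a := 1) (b := 1) (c := 2) (cn := .dn) (n1 := ndB0q1) (n2 := ndB1q2b) (pc := pcB1) (cut := Cut.none) (xt := Ext.none) (P1 := 536870912) (W1 := 536870912) (P2 := 1239849684) (W2 := 370763052) (P3 := 858993459) (W3 := 64424510) (N0 := 3) (En := eng) (mo := mog) (C1 := cd0q1) (C2 := cd1q2b) (C3 := pd1)
    rfl k0_mm_112_b

noncomputable def f_mm_113 : ℕ → ℕ → ℕ → ℕ → Bool := onCell 536870912 536870912 1610612736 536870912 858993459 64424510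
    (rowB 3 eng mog cd0q1 cd1q3 pd1 0 false false false .nn 1 1 3 (qsf 536870912 536870912 1610612736 536870912 1) ndB0q1 ndB1q3 pcB1 Cut.none Ext.none)

def k0_mm_113 : ∃ t, chk3 f_mm_113 t 1 1 1 = true :=
  ⟨(l 5), by decide +kernel⟩

theorem c_mm_113 : CertB 536870912 536870912 1610612736 536870912 858993459 64424510 3 eng mog cd0q1 cd1q3 pd1 false false false .nn 1 1 3
    ndB0q1 ndB1q3 pcB1 Cut.none Ext.none :=
  certB0 (fam := false) (s1 := false) (s2 := false) (a := 1) (b := 1) (c := 3) (cn := .nn) (n1 := ndB0q1) (n2 := ndB1q3) (pc := pcB1) (cut := Cut.none) (xt := Ext.none) (P1 := 536870912) (W1 := 536870912) (P2 := 1610612736) (W2 := 536870912) (P3 := 858993459) (W3 := 64424510) (N0 := 3) (En := eng) (mo := mog) (C1 := cd0q1) (C2 := cd1q3) (C3 := pd1)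
    rfl k0_mm_113

noncomputable def f_mm_123 : ℕ → ℕ → ℕ → ℕ → Bool := onCell 536870912 536870912 1610612736 536870912 858993459 64424510
    (rowB 3 eng mog cd0q1 cd1q3 pd2 0 false false false .npn 1 2 3 (qsf 536870912 536870912 1610612736 536870912 2) ndB0q1 ndB1q3 pcB2 Cut.none Ext.none)

def k0_mm_123 : ∃ t, chk3 f_mm_123 t 1 1 1 = true :=
  ⟨(l 5), by decide +kernel⟩

theorem c_mm_123 : CertB 536870912 536870912 1610612736 536870912 858993459 64424510 3 eng mog cd0q1 cd1q3 pd2 false false false .npn 1 2 3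
    ndB0q1 ndB1q3 pcB2 Cut.none Ext.none :=
  certB0 (fam := false) (s1 := false) (s2 := false) (a := 1) (b := 2) (c := 3) (cn := .npn) (n1 := ndB0q1) (n2 := ndB1q3) (pc := pcB2) (cut := Cut.none) (xt := Ext.none) (P1 := 536870912) (W1 := 536870912) (P2 := 1610612736) (W2 := 536870912) (P3 := 858993459) (W3 := 64424510) (N0 := 3) (En := eng) (mo := mog) (C1 := cd0q1) (C2 := cd1q3) (C3 := pd2)
    rfl k0_mm_123

noncomputable def f_mm_133 : ℕ → ℕ → ℕ → ℕ → Bool := onCell 536870912 536870912 1610612736 536870912 858993459 64424510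
    (rowB 3 eng mog cd0q1 cd1q3 pd3 0 false false false .dn 1 3 3 (qsf 536870912 536870912 1610612736 536870912 3) ndB0q1 ndB1q3 pcB3 Cut.none Ext.none)

def k0_mm_133 : ∃ t, chk3 f_mm_133 t 1 1 1 = true :=
  ⟨(l 5), by decide +kernel⟩

theorem c_mm_133 : CertB 536870912 536870912 1610612736 536870912 858993459 64424510 3 eng mog cd0q1 cd1q3 pd3 false false false .dn 1 3 3
    ndB0q1 ndB1q3 pcB3 Cut.none Ext.none :=
  certB0 (fam := false) (s1 := false) (s2 := false) (a := 1) (b := 3) (c := 3) (cn := .dn) (n1 := ndB0q1) (n2 := ndB1q3) (pc := pcB3) (cut := Cut.none) (xt := Ext.none) (P1 := 536870912) (W1 := 536870912) (P2 := 1610612736) (W2 := 536870912) (P3 := 858993459) (W3 := 64424510) (N0 := 3) (En := eng) (mo := mog) (C1 := cd0q1) (C2 := cd1q3) (C3 := pd3)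
    rfl k0_mm_133

noncomputable def f_mm_202_a : ℕ → ℕ → ℕ → ℕ → Bool := onCell 0 536870912 0 536870912 858993459 64424510
    (rowB 3 eng mog cd0q2 cd1q2a pd0 0 false false false .pp 2 0 2 (qsf 0 536870912 0 536870912 0) ndB0q2 ndB1q2a pcB0 Cut.none Ext.none)

def k0_mm_202_a : ∃ t, chk3 f_mm_202_a t 1 1 1 = true :=
  ⟨(l 3), by decide +kernel⟩

theorem c_mm_202_a : CertB 0 536870912 0 536870912 858993459 64424510 3 eng mog cd0q2 cd1q2a pd0 false false false .pp 2 0 2
    ndB0q2 ndB1q2a pcB0 Cut.none Ext.none :=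
  certB0 (fam := false) (s1 := false) (s2 := false) (a := 2) (b := 0) (c := 2) (cn := .pp) (n1 := ndB0q2) (n2 := ndB1q2a) (pc := pcB0) (cut := Cut.none) (xt := Ext.none) (P1 := 0) (W1 := 536870912) (P2 := 0) (W2 := 536870912) (P3 := 858993459) (W3 := 64424510) (N0 := 3) (En := eng) (mo := mog) (C1 := cd0q2) (C2 := cd1q2a) (C3 := pd0)
    rfl k0_mm_202_a

noncomputable def f_mm_202_b : ℕ → ℕ → ℕ → ℕ → Bool := onCell 0 536870912 1239849684 370763052 858993459 64424510
    (rowB 3 eng mog cd0q2 cd1q2b pd0 0 false false false .pp 2 0 2 (qsf 0 536870912 1239849684 370763052 0) ndB0q2 ndB1q2b pcB0 Cut.none Ext.none)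

def k0_mm_202_b : ∃ t, chk3 f_mm_202_b t 1 1 1 = true :=
  ⟨(l 3), by decide +kernel⟩

theorem c_mm_202_b : CertB 0 536870912 1239849684 370763052 858993459 64424510 3 eng mog cd0q2 cd1q2b pd0 false false false .pp 2 0 2
    ndB0q2 ndB1q2b pcB0 Cut.none Ext.none :=
  certB0 (fam := false) (s1 := false) (s2 := false) (a := 2) (b := 0) (c := 2) (cn := .pp) (n1 := ndB0q2) (n2 := ndB1q2b) (pc := pcB0) (cut := Cut.none) (xt := Ext.none) (P1 := 0) (W1 := 536870912) (P2 := 1239849684) (W2 := 370763052) (P3 := 858993459) (W3 := 64424510) (N0 := 3) (En := eng) (mo := mog) (C1 := cd0q2) (C2 := cd1q2b) (C3 := pd0)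
    rfl k0_mm_202_b

noncomputable def f_mm_203 : ℕ → ℕ → ℕ → ℕ → Bool := onCell 0 536870912 0 536870912 858993459 64424510
    (rowB 3 eng mog cd0q2 cd1q3 pd0 1 false false false .up 2 0 3 (qsf 0 536870912 1610612736 536870912 0) ndB0q2 ndB1q3 pcB0 Cut.none Ext.none)

def k0_mm_203 : ∃ t, chk3 f_mm_203 t 1 1 1 = true :=
  ⟨(l 3), by decide +kernel⟩

theorem c_mm_203 : CertB 0 536870912 1610612736 536870912 858993459 64424510 3 eng mog cd0q2 cd1q3 pd0 false false false .up 2 0 3
    ndB0q2 ndB1q3 pcB0 Cut.none Ext.none :=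
  certB1 (fam := false) (s1 := false) (s2 := false) (a := 2) (b := 0) (c := 3) (cn := .up) (n1 := ndB0q2) (n2 := ndB1q3) (pc := pcB0) (cut := Cut.none) (xt := Ext.none) (P1 := 0) (W1 := 536870912) (P2 := 1610612736) (W2 := 536870912) (P3 := 858993459) (W3 := 64424510) (N0 := 3) (En := eng) (mo := mog) (C1 := cd0q2) (C2 := cd1q3) (C3 := pd0)
    rfl (fun _ => rfl) k0_mm_203

noncomputable def f_mm_213 : ℕ → ℕ → ℕ → ℕ → Bool := onCell 0 536870912 1610612736 536870912 858993459 64424510
    (rowB 3 eng mog cd0q2 cd1q3 pd1 0 false false false .pnn 2 1 3 (qsf 0 536870912 1610612736 536870912 1) ndB0q2 ndB1q3 pcB1 Cut.none Ext.none)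

def k0_mm_213 : ∃ t, chk3 f_mm_213 t 1 1 1 = true :=
  ⟨(a (l 3) (l 5)), by decide +kernel⟩

theorem c_mm_213 : CertB 0 536870912 1610612736 536870912 858993459 64424510 3 eng mog cd0q2 cd1q3 pd1 false false false .pnn 2 1 3
    ndB0q2 ndB1q3 pcB1 Cut.none Ext.none :=
  certB0 (fam := false) (s1 := false) (s2 := false) (a := 2) (b := 1) (c := 3) (cn := .pnn) (n1 := ndB0q2) (n2 := ndB1q3) (pc := pcB1) (cut := Cut.none) (xt := Ext.none) (P1 := 0) (W1 := 536870912) (P2 := 1610612736) (W2 := 536870912) (P3 := 858993459) (W3 := 64424510) (N0 := 3) (En := eng) (mo := mog) (C1 := cd0q2) (C2 := cd1q3) (C3 := pd1)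
    rfl k0_mm_213

end Pool.Agent.Strip051.G.I8000_8600.Tab.C.BB01

namespace Pool.Agent.Strip051.G.I8000_8600.Tab.C.BB02

open Pool.Agent.Strip051.PB Pool.Agent.Strip051.PB.T
open Pool.Agent.Strip051.G.I8000_8600.Tab

noncomputable def f_pp_001 : ℕ → ℕ → ℕ → ℕ → Bool := onCell 0 536870912 0 536870912 858993459 64424510
    (rowB 3 eng mog cd0q0 cd2q1 pd0 1 false true true .up 0 0 1 (qsf 0 536870912 536870912 536870912 0) ndB0q0 ndB2q1 pcB0 Cut.none Ext.none)

def k0_pp_001 : ∃ t, chk3 f_pp_001 t 1 1 1 = true :=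
  ⟨(l 3), by decide +kernel⟩

theorem c_pp_001 : CertB 0 536870912 536870912 536870912 858993459 64424510 3 eng mog cd0q0 cd2q1 pd0 false true true .up 0 0 1
    ndB0q0 ndB2q1 pcB0 Cut.none Ext.none :=
  certB1 (fam := false) (s1 := true) (s2 := true) (a := 0) (b := 0) (c := 1) (cn := .up) (n1 := ndB0q0) (n2 := ndB2q1) (pc := pcB0) (cut := Cut.none) (xt := Ext.none) (P1 := 0) (W1 := 536870912) (P2 := 536870912) (W2 := 536870912) (P3 := 858993459) (W3 := 64424510) (N0 := 3) (En := eng) (mo := mog) (C1 := cd0q0) (C2 := cd2q1) (C3 := pd0)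
    rfl (fun _ => rfl) k0_pp_001

noncomputable def cut_pp_011 : Cut := Cut.of [[⟨0, 0, 0, 67108864⟩, ⟨1, 1, 0, 67108864⟩, ⟨2, 1, 0, 67108864⟩]]

noncomputable def f_pp_011 : ℕ → ℕ → ℕ → ℕ → Bool := onCell 0 536870912 536870912 536870912 858993459 64424510
    (rowB 3 eng mog cd0q0 cd2q1 pd1 1 false true true .pnn 0 1 1 (qsf 0 536870912 536870912 536870912 1) ndB0q0 ndB2q1 pcB1 cut_pp_011 Ext.none)

def k0_pp_011 : ∃ t, chk3 f_pp_011 t 1 1 1 = true :=
  ⟨(b (l 3) (a (b (l 3) (a (b (l 3) (a (b (l 3) (a (l 6) (l 3))) (l 3))) (l 3))) (l 3))), by decide +kernel⟩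

theorem c_pp_011 : CertB 0 536870912 536870912 536870912 858993459 64424510 3 eng mog cd0q0 cd2q1 pd1 false true true .pnn 0 1 1
    ndB0q0 ndB2q1 pcB1 cut_pp_011 Ext.none :=
  certB1 (fam := false) (s1 := true) (s2 := true) (a := 0) (b := 1) (c := 1) (cn := .pnn) (n1 := ndB0q0) (n2 := ndB2q1) (pc := pcB1) (cut := cut_pp_011) (xt := Ext.none) (P1 := 0) (W1 := 536870912) (P2 := 536870912) (W2 := 536870912) (P3 := 858993459) (W3 := 64424510) (N0 := 3) (En := eng) (mo := mog) (C1 := cd0q0) (C2 := cd2q1) (C3 := pd1)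
    rfl (fun _ => rfl) k0_pp_011

noncomputable def f_pp_012 : ℕ → ℕ → ℕ → ℕ → Bool := onCell 0 536870912 536870912 536870912 858993459 64424510
    (rowB 3 eng mog cd0q0 cd2q2 pd1 1 false true true .pnp 0 1 2 (qsf 0 536870912 1073741824 536870912 1) ndB0q0 ndB2q2 pcB1 Cut.none Ext.none)

def k0_pp_012 : ∃ t, chk3 f_pp_012 t 1 1 1 = true :=
  ⟨(b (l 3) (l 3)), by decide +kernel⟩

theorem c_pp_012 : CertB 0 536870912 1073741824 536870912 858993459 64424510 3 eng mog cd0q0 cd2q2 pd1 false true true .pnp 0 1 2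
    ndB0q0 ndB2q2 pcB1 Cut.none Ext.none :=
  certB1 (fam := false) (s1 := true) (s2 := true) (a := 0) (b := 1) (c := 2) (cn := .pnp) (n1 := ndB0q0) (n2 := ndB2q2) (pc := pcB1) (cut := Cut.none) (xt := Ext.none) (P1 := 0) (W1 := 536870912) (P2 := 1073741824) (W2 := 536870912) (P3 := 858993459) (W3 := 64424510) (N0 := 3) (En := eng) (mo := mog) (C1 := cd0q0) (C2 := cd2q2) (C3 := pd1)
    rfl (fun _ => rfl) k0_pp_012

noncomputable def f_pp_022 : ℕ → ℕ → ℕ → ℕ → Bool := onCell 0 536870912 1073741824 536870912 858993459 64424510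
    (rowB 3 eng mog cd0q0 cd2q2 pd2 1 false true true .pp 0 2 2 (qsf 0 536870912 1073741824 536870912 2) ndB0q0 ndB2q2 pcB2 Cut.none Ext.none)

def k0_pp_022 : ∃ t, chk3 f_pp_022 t 2 8 1 = true :=
  ⟨(a (l 3) (l 3)), by decide +kernel⟩

def k1_pp_022 : ∃ t, chk3 f_pp_022 t 4 36 1 = true :=
  ⟨(b (l 3) (a (b (l 3) (a (b (l 3) (c (a (a (c (l 68886745527) (a (l 16481880) (l 16482504))) (c (l 16515960) (l 16483464))) (a (c (l 16518608) (l 16484816)) (c (l 16521224) (l 16486184)))) (a (a (c (l 103246335191) (l 16432512)) (c (l 16448016) (l 16409632))) (a (l 16428192) (a (l 16427464) (l 16427064)))))) (c (a (c (l 16511072) (l 16489712)) (l 16500024)) (a (a (l 16418048) (l 16438432)) (l 16445080))))) (a (c (c (a (l 16512248) (l 16509856)) (l 49022433991)) (a (b (l 16468144) (l 16452600)) (c (l 16472088) (l 16450672)))) (c (c (l 16515728) (l 16471344)) (a (l 16456048) (l 16448888)))))), by decide +kernel⟩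

def k2_pp_022 : ∃ t, chk3 f_pp_022 t 8 37 1 = true :=
  ⟨(a (c (a (b (c (a (b (a (l 16500968) (l 16502232)) (a (l 16484560) (l 16485944))) (b (l 16504200) (l 16488072))) (a (b (a (l 16469952) (l 16468936)) (a (l 16449456) (l 16450224))) (b (l 16469928) (l 16451440)))) (a (c (b (a (l 16467960) (l 16469464)) (a (l 16451160) (l 16452784))) (b (a (l 16430568) (l 16431488)) (a (l 16411688) (l 16412768)))) (b (c (l 16471776) (l 16432936)) (c (a (l 16454448) (l 16456016)) (a (l 16413880) (l 16414984)))))) (b (c (a (b (l 16506920) (l 16490944)) (b (l 16508520) (l 16490416))) (a (b (l 16471360) (l 16453144)) (l 16462960))) (a (c (b (l 16473744) (l 16455064)) (b (l 16434552) (l 16415512))) (c (l 16461016) (l 16424888))))) (a (b (a (c (b (a (l 16432832) (l 16432688)) (a (l 16411280) (l 16411328))) (b (a (l 16394504) (l 16393496)) (a (l 16370040) (l 16369256)))) (c (b (l 16432544) (l 16411464)) (b (l 16392048) (l 16368152)))) (a (c (b (a (l 16389896) (l 16390128)) (a (l 16368752) (l 16369176)))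 (b (a (l 16345944) (l 16345384)) (a (l 16322344) (l 16322008)))) (c (b (l 16390552) (l 16369904)) (b (l 16344616) (a (l 16321712) (l 16321592)))))) (b (a (c (b (l 16432456) (l 16411792)) (b (l 16390224) (l 16366872))) (c (l 16423280) (b (l 16389888) (l 16369784)))) (a (c (b (l 16391680) (l 16372296)) (b (l 16345136) (l 16325416))) (c (l 16385416) (l 16342592)))))) (c (b (a (c (l 16482880) (l 16461904)) (c (l 16484872) (l 16460168))) (a (c (l 16454976) (l 16424408)) (a (l 16437168) (l 16435536)))) (b (a (c (l 16427432) (l 16389984)) (l 16397904)) (a (c (l 16391072) (l 16354984)) (c (l 16398128) (l 16370128)))))), by decide +kernel⟩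

def k3_pp_022 : ∃ t, chk3 f_pp_022 t 9 37 1 = true :=
  ⟨(a (a (c (b (l 16448504) (l 16458200)) (b (l 16404824) (l 16431416))) (c (b (l 16471984) (l 16442856)) (b (l 16424744) (l 16387800)))) (c (b (a (l 16475904) (l 16478504)) (a (l 16447920) (l 16451680))) (b (a (l 16420088) (l 16414344)) (a (l 16384744) (l 16380576))))), by decide +kernel⟩

def k4_pp_022 : ∃ t, chk3 f_pp_022 t 8 38 1 = true :=
  ⟨(a (c (a (b (a (c (b (a (l 16434208) (l 16435960)) (a (l 16417192) (l 16418960))) (b (a (l 16392872) (l 16394104)) (a (l 16374168) (l 16375520)))) (c (b (a (l 16437632) (l 16437752)) (a (l 16419192) (l 16417624))) (c (l 16407120) (l 16374856)))) (a (c (b (a (a (l 16399704) (l 16400544)) (l 16400416)) (a (b (l 16386568) (l 16376464)) (l 16380032))) (b (a (a (l 16355264) (l 16355976)) (l 16356560)) (a (c (l 16348216) (l 16324888)) (l 16337152)))) (c (b (l 16398048) (a (l 16378360) (l 16376776))) (b (l 16357032) (l 16337744))))) (b (c (a (l 16424912) (l 16421272)) (a (l 16386408) (l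 16386648))) (c (b (l 16393080) (a (l 16374648) (l 16372168))) (b (l 16358000) (l 16370888))))) (a (b (a (c (b (a (l 16347896) (l 16348504)) (a (l 16327360) (l 16328208))) (b (a (l 16299288) (l 16299168)) (a (l 16276768) (l 16277008)))) (c (a (l 16360440) (l 16341160)) (b (l 16331960) (l 16302368)))) (a (c (b (a (l 16328192) (l 16308840)) (a (c (l 16300600) (l 16275328)) (l 16290568))) (b (a (l 16286384) (l 16257240)) (a (b (l 16239784) (l 16231192)) (l 16240288)))) (b (c (l 16312424) (l 16264232)) (c (l 16294552) (l 16247984))))) (b (a (c (l 16344456) (l 16299064)) (l 16349992)) (c (b (l 16319952) (l 16323656)) (b (l 16278936) (l 16305120)))))) (c (b (a (c (l 16416400) (l 16387240)) (l 16422176)) (a (b (l 16374016) (a (l 16356080) (l 16356120))) (c (l 16402016) (l 16356152)))) (b (a (a (l 16335680) (l 16342128)) (l 16370728)) (a (b (l 16314048) (a (l 16294664) (l 16301912))) (c (l 16329392) (l 16300760)))))), by decide +kernel⟩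

def k5_pp_022 : ∃ t, chk3 f_pp_022 t 8 39 1 = true :=
  ⟨(a (a (c (b (c (a (a (b (b (l 16365592) (l 16356176)) (l 16363592)) (b (l 16359584) (l 16341544))) (b (l 16357840) (l 16340096))) (c (a (b (l 16350144) (l 16312352)) (l 16321496)) (a (b (l 16307352) (l 16291528)) (l 16302248)))) (c (a (c (b (l 16333512) (l 16315872)) (l 16343360)) (c (l 16322304) (l 16306088))) (a (c (l 16287920) (l 16268472)) (l 16280600)))) (b (c (a (b (c (l 16284656) (l 16261088)) (l 16279744)) (b (l 16278920) (l 16264992))) (a (b (c (l 16236640) (l 16211312)) (l 16212256)) (c (l 16240040) (l 16217824)))) (c (a (c (l 16248304) (l 16227416)) (l 16244472)) (a (c (l 16205816) (l 16183496)) (l 16205888))))) (c (b (c (a (l 16347120) (l 16345616)) (a (l 16313872) (l 16315968))) (c (a (l 16313120) (l 16312424)) (a (l 16283096) (l 16285784)))) (b (c (a (l 16278064) (l 16284160)) (l 16265928)) (c (a (l 16251016) (l 16257464)) (a (l 16216880) (l 16227472)))))) (c (a (c (b (l 16366808) (l 16317584)) (b (l 16319992)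 (l 16292008))) (c (l 16342392) (l 16315216))) (a (c (b (l 16292384) (l 16264808)) (b (l 16263016) (l 16236000))) (c (l 16286032) (l 16254848))))), by decide +kernel⟩

def k6_pp_022 : ∃ t, chk3 f_pp_022 t 9 19 1 = true :=
  ⟨(b (c (a (b (a (l 16406560) (l 16413784)) (a (l 16419752) (l 16386712))) (b (l 16422520) (c (l 16415336) (l 16379792)))) (a (b (a (l 16352736) (l 16352176)) (c (l 16335672) (l 16364176))) (b (l 16328344) (c (l 16340376) (l 16297152))))) (a (c (c (a (l 16355032) (l 16367064)) (a (l 16324840) (l 16333744))) (c (a (l 16292096) (l 16297296)) (a (l 16256832) (l 16257752)))) (c (a (l 16339280) (l 16347304)) (c (l 16302872) (l 16256920))))), by decide +kernel⟩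

def k7_pp_022 : ∃ t, chk3 f_pp_022 t 5 9 1 = true :=
  ⟨(b (a (b (a (c (b (l 16461784) (c (l 16520816) (l 16490592))) (b (l 712594649655) (a (l 16441392) (l 16434672)))) (c (b (l 16487992) (l 16486992)) (b (c (l 16475592) (l 16433192)) (a (l 16429152) (l 16424808))))) (c (a (c (l 16485528) (l 16450568)) (c (l 16492784) (l 16453456))) (a (b (l 16342624) (l 16374120)) (b (l 16355624) (l 16369240))))) (b (b (a (c (l 16528280) (l 169818060263)) (c (l 16516664) (c (l 16462696) (l 16412176)))) (a (c (l 16508296) (l 16335856)) (c (l 16506232) (l 16373168)))) (a (c (b (l 16487992) (l 16467816)) (b (l 16393672) (l 16368400))) (c (l 16479632) (b (l 16392144) (l 16370040)))))) (a (b (b (a (c (l 16431576) (l 16323160)) (c (l 16440920) (l 16321736))) (c (a (l 16409976) (l 16421672)) (a (l 16296376) (l 16297800)))) (c (a (c (l 16399848) (l 16356608)) (c (l 16415752) (l 16368976))) (a (c (l 16307992) (l 16254136)) (l 16202320)))) (b (c (a (c (l 16461768) (l 16416792)) (l 16446688)) (a (b (l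 16345248) (l 16323848)) (l 16214504))) (c (a (l 16405856) (l 16415784)) (a (l 16294320) (l 16304336)))))), by decide +kernel⟩

def k8_pp_022 : ∃ t, chk3 f_pp_022 t 3 4 1 = true :=
  ⟨(b (b (l 3) (b (l 3) (a (b (l 3) (a (a (l 3) (a (l 675550410375) (l 154248705015))) (a (c (l 16324528) (l 16436696)) (c (l 207398990055) (l 16429656))))) (a (a (c (c (l 16363480) (l 16394176)) (b (l 3) (l 16421664))) (c (c (l 16342488) (l 16264264)) (b (l 16418816) (l 16411992)))) (a (c (c (l 16325696) (l 16367912)) (b (l 16390048) (l 16397584))) (l 2)))))) (a (b (a (b (c (a (a (l 202567220599) (l 16315256)) (c (l 16444312) (l 16482272))) (a (c (l 16447648) (l 16330872)) (c (l 16444032) (l 16389320)))) (c (a (l 16480216) (l 16473696)) (a (b (l 16391824) (l 16372912)) (l 16321632)))) (b (c (a (c (l 16418312) (l 16455024)) (c (l 16393992) (l 16428600))) (a (c (l 16440728) (l 16386080)) (l 16307520))) (a (c (l 16447304) (l 16387416)) (c (l 16422024) (l 16390408))))) (b (a (c (a (l 16451512) (l 16454488))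 (a (l 16284056) (l 16354176))) (c (c (l 16416896) (l 16438664)) (a (l 16361728) (l 16369216)))) (a (c (l 16427504) (a (l 16315048) (l 16326272))) (c (l 16434456) (l 16259568))))) (b (a (b (c (a (c (l 16372768) (l 16404296)) (c (l 16353432) (l 16381144))) (a (l 16367192) (l 16404160))) (c (a (l 16398512) (l 16377664)) (a (l 16392208) (l 16391856)))) (a (b (c (c (l 16338096) (l 16360608)) (l 16396928)) (l 2)) (l 2))) (a (c (c (b (l 16376272) (l 16380760)) (l 16407528)) (c (l 16395088) (l 16340128))) (l 2))))), by decide +kernel⟩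

def k9_pp_022 : ∃ t, chk3 f_pp_022 t 16 20 1 = true :=
  ⟨(b (c (a (b (c (a (c (l 16311240) (l 16273648)) (l 16302152)) (a (c (l 16256432) (l 16238616)) (l 16250432))) (c (a (c (l 16257688) (l 16242256)) (b (l 16257376) (l 16242304))) (a (c (l 16226320) (l 16209888)) (l 16221536)))) (b (c (a (l 16280792) (l 16283320)) (l 16255672)) (a (c (l 16252704) (l 16226000)) (l 16245568)))) (a (c (b (c (l 16223104) (l 16205168)) (a (l 16184312) (l 16191560))) (b (a (l 16171520) (l 16182944)) (a (l 16148456) (l 16160000)))) (c (b (l 16227336) (l 16200312)) (b (l 16218416) (l 16170216))))) (b (a (c (c (a (b (l 16227240) (a (l 16212896) (l 16213288))) (b (l 16228816) (l 16217136))) (a (b (l 16196968) (l 16183552)) (l 16195096))) (c (c (l 16169752) (l 16153856)) (a (l 16125392) (l 16134128)))) (c (c (l 16233560) (l 16204328)) (c (l 16173384) (l 16140720)))) (c (b (a (a (c (a (l 16199976) (l 16202048)) (l 16171328)) (c (l 16207472) (l 16177400))) (c (l 16218800) (l 16187304))) (a (b (a (c (a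 (l 16192712) (l 16196192)) (l 16163504)) (l 16228080)) (a (b (b (b (l 16177576) (c (l 16194008) (l 16161560))) (l 16177584)) (l 16175216)) (c (l 16199048) (l 16165664)))) (b (c (l 16213136) (l 16180032)) (a (l 16210728) (l 16196968))))) (a (b (a (c (l 16139848) (l 16106776)) (l 16129136)) (b (a (c (l 16130824) (l 16096424)) (l 16118816)) (c (a (l 16124584) (l 16130168)) (l 16090336)))) (b (l 16199256) (b (l 16168216) (c (l 16138688) (l 16099248)))))))), by decide +kernel⟩

def k10_pp_022 : ∃ t, chk3 f_pp_022 t 17 20 1 = true :=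
  ⟨(b (c (c (a (b (l 16292792) (l 16269880)) (l 16295672)) (a (l 16253384) (l 16265064))) (a (c (l 16223528) (l 16191872)) (c (l 16232168) (l 16196992)))) (b (c (a (c (l 16248608) (l 16217224)) (l 16247248)) (a (l 16208072) (l 16174560))) (c (b (a (l 16217728) (l 16232184)) (a (b (l 16211376) (l 16207872)) (b (l 16225936) (l 16222448)))) (b (a (l 16145928) (l 16155088)) (a (b (l 16136208) (l 16129448)) (b (l 16145712) (l 16139192))))))), by decide +kernel⟩

def k11_pp_022 : ∃ t, chk3 f_pp_022 t 8 21 1 = true :=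
  ⟨(a (c (a (b (c (a (b (l 16178376) (l 16155280)) (l 16174552)) (a (b (l 16143248) (l 16116768)) (l 16137016))) (c (a (c (l 16131832) (l 16110896)) (l 16129960)) (a (c (l 16089176) (l 16066672)) (l 16085992)))) (c (b (l 16186400) (l 16142896)) (b (l 16147792) (l 16098120)))) (a (b (c (a (c (l 16100752) (l 16080536)) (l 16096896)) (b (l 16068720) (l 16034680))) (c (a (c (l 16043384) (l 16019304)) (l 16038704)) (b (l 16022280) (l 15989584)))) (b (c (l 16106312) (l 16061960)) (c (l 16049736) (l 15997752))))) (c (a (c (b (l 16202480) (l 16160408)) (b (l 16162344) (l 16114464))) (c (l 16198176) (l 16153552))) (a (b (c (l 16118928) (l 16072232)) (c (l 16064504) (l 16010544))) (c (l 16104824) (l 16072984))))), by decide +kernel⟩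

def k12_pp_022 : ∃ t, chk3 f_pp_022 t 9 10 1 = true :=
  ⟨(b (b (c (a (c (a (l 16309832) (l 16323392)) (l 16323688)) (c (l 16341360) (l 16300664))) (a (c (l 16285736) (l 16244728)) (c (l 16255680) (l 16206480)))) (c (a (b (a (l 16261104) (l 16274320)) (b (l 16274256) (c (b (l 16267000) (l 16264088)) (l 16224248)))) (b (l 16291840) (b (l 16278240) (c (l 16292864) (l 16246912))))) (b (a (a (l 16182168) (l 16188800)) (l 16196488)) (a (b (l 16188192) (a (l 16151200) (l 16159016))) (b (l 16179536) (a (l 16165760) (l 16171248))))))) (a (c (a (c (l 16215056) (l 16168608)) (c (l 16231368) (l 16182960))) (a (c (l 16117552) (l 16061928)) (c (l 16129392) (l 16070744)))) (c (c (l 16253504) (l 16202216)) (c (l 16144888) (l 16081664))))), by decide +kernel⟩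

def k13_pp_022 : ∃ t, chk3 f_pp_022 t 4 11 1 = true :=
  ⟨(a (c (a (b (a (c (b (a (c (l 16089728) (l 16065840)) (l 16087112)) (a (l 16036096) (l 16045992))) (b (a (b (l 16040440) (l 16016032)) (l 16037032)) (c (l 15999624) (l 15970544)))) (c (b (l 16101104) (l 16061024)) (b (l 16050488) (l 16004896)))) (a (c (b (a (l 15996024) (l 16006600)) (a (l 15957680) (l 15968928))) (b (a (l 15934680) (l 15945272)) (a (l 15891024) (l 15902464)))) (c (b (l 16022656) (l 15985976)) (b (l 15961328) (l 15919792))))) (b (a (c (l 16100480) (b (l 16068600) (l 16024744))) (c (l 16120224) (l 16065344))) (c (a (l 16026432) (l 16048864)) (a (l 15962728) (l 15985048))))) (a (b (a (b (c (c (l 16013504) (l 15985560)) (b (l 15957544) (l 15926184))) (c (a (l 15941000) (l 15929416)) (a (l 15875984) (l 15863872)))) (c (b (l 15995512) (l 15943632)) (b (l 15936184) (l 15877272)))) (a (c (b (a (l 15867896) (l 15878320)) (a (l 15818136) (l 15829592))) (b (a (l 15795672) (l 15805760)) (a (l 15739024) (l 15750328))))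 (c (b (l 15894104) (l 15846920)) (b (l 15821000) (l 15767384))))) (b (a (c (b (l 16012408) (l 15962632)) (b (l 15951472) (l 15895032))) (c (l 16004872) (l 15938856))) (c (a (l 15892328) (l 15914096)) (a (l 15857224) (l 15836080)))))) (c (a (b (c (l 16170408) (a (l 16083912) (l 16101760))) (c (l 16082088) (l 16017680))) (b (c (l 16185264) (l 16126208)) (c (l 16123184) (l 16057712)))) (a (b (c (a (l 16021832) (l 16037880)) (a (l 15953728) (l 15967480))) (c (l 15966336) (a (l 15855808) (l 15874392)))) (b (c (l 16059648) (l 15985760)) (c (l 15983184) (l 15899880)))))), by decide +kernel⟩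

def k14_pp_022 : ∃ t, chk3 f_pp_022 t 5 5 1 = true :=
  ⟨(b (a (a (b (b (c (c (l 16361600) (l 16315856)) (c (l 16264560) (l 16207856))) (b (c (l 16311864) (l 16204672)) (c (b (l 16299120) (l 16270744)) (b (l 16189128) (l 16178992))))) (c (c (l 16279352) (l 16224864)) (c (l 16163112) (l 16094344)))) (b (b (c (c (l 16380672) (l 16331640)) (l 16224304)) (c (b (l 16331632) (b (l 16319776) (l 16312696))) (b (l 16215944) (c (l 16229768) (l 16162976))))) (c (l 16319176) (l 16127224)))) (b (b (c (a (l 16372984) (l 16386264)) (a (l 16257256) (l 16271072))) (c (b (l 16252856) (a (l 16209776) (l 16352136))) (b (a (l 16230760) (l 16247368)) (a (l 16213880) (l 16232280))))) (c (a (l 16299824) (l 16319792)) (a (l 16170280) (l 16194072))))) (a (c (a (b (l 16166288) (l 16128056)) (b (l 16217544) (l 16164144))) (a (b (c (l 16086128) (l 16008152)) (l 16017880)) (b (l 16096632) (l 16012096)))) (c (a (b (l 16246144) (l 16198456)) (l 16250272)) (a (b (l 16106544) (l 16051552)) (b (l 16139048) (l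 16092520)))))), by decide +kernel⟩

def k15_pp_022 : ∃ t, chk3 f_pp_022 t 3 5 1 = true :=
  ⟨(a (b (b (c (b (a (l 16403160) (l 16418984)) (a (b (l 16385640) (l 16332152)) (b (l 16406456) (l 16397280)))) (a (b (l 16124976) (b (l 16273144) (l 16113864))) (b (l 16322912) (c (l 16333928) (l 16270776))))) (a (c (l 16346888) (a (l 16218352) (l 16242888))) (c (l 16377136) (l 16279560)))) (a (c (b (l 16307952) (l 16274104)) (b (l 16062456) (l 16154248))) (c (l 16232960) (b (l 16254136) (l 2))))) (a (b (b (b (c (l 16396496) (l 16349216)) (l 2)) (l 2)) (l 2)) (l 2))), by decide +kernel⟩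

def k16_pp_022 : ∃ t, chk3 f_pp_022 t 8 6 1 = true :=
  ⟨(c (b (a (b (c (a (b (l 15926984) (l 15892384)) (l 15934120)) (a (b (a (l 15849424) (l 15861696)) (l 15816392)) (b (l 15880272) (l 15842768)))) (c (a (b (l 15859464) (l 15828208)) (l 15870752)) (a (b (l 15779280) (l 15744200)) (l 15790272)))) (b (c (a (l 15959016) (l 15984016)) (a (l 15887000) (l 15912624))) (c (l 15911800) (a (l 15819200) (l 15848000))))) (a (c (b (a (b (l 15798600) (l 15770616)) (l 15813872)) (a (l 15731648) (l 15763320))) (b (a (b (l 15711128) (l 15680056)) (l 15727232)) (a (l 15637200) (l 15672064)))) (b (c (l 15858400) (l 15775176)) (c (l 15811112) (l 15724448))))) (b (a (b (c (a (b (a (l 15770752) (l 15783224)) (a (l 15725744) (l 15739224))) (b (l 15802072) (l 15759576))) (a (b (a (l 15685056) (l 15697560)) (a (l 15633776) (l 15647472))) (b (l 15716424) (l 15668112)))) (c (a (b (l 15690328) (l 15650552)) (l 15721192)) (a (b (l 15592600) (l 15547296)) (b (l 15622472) (l 15579496))))) (b (c (a (l 15806688)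 (l 15832488)) (a (l 15718144) (l 15743720))) (c (a (l 15730312) (l 15760032)) (a (l 15631552) (l 15661800))))) (a (c (b (a (b (l 15613144) (l 15578104)) (l 15629256)) (a (b (l 15545424) (l 15515104)) (l 15567648))) (b (a (b (l 15504680) (l 15464776)) (l 15520040)) (a (b (l 15427576) (l 15393104)) (l 15450176)))) (b (c (l 15680000) (a (l 15555544) (l 15590376))) (c (l 15623976) (l 15509936)))))), by decide +kernel⟩

def k17_pp_022 : ∃ t, chk3 f_pp_022 t 9 6 1 = true :=
  ⟨(a (c (b (b (c (l 16021056) (l 15950160)) (c (l 15966192) (l 15890272))) (b (c (l 15917352) (l 15837928)) (l 15835568))) (b (b (c (l 15869760) (l 15780048)) (c (l 15803152) (l 15705104))) (b (c (l 15745528) (l 15640520)) (c (l 15696888) (l 15586344))))) (b (c (b (l 16096176) (l 15981576)) (b (c (l 15915504) (l 15824056)) (c (l 15856592) (l 15758336)))) (c (b (l 15936416) (l 15897632)) (b (l 15756272) (l 15713136))))), by decide +kernel⟩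

def k18_pp_022 : ∃ t, chk3 f_pp_022 t 5 6 1 = true :=
  ⟨(a (c (b (a (b (l 16075344) (l 16029008)) (b (l 16116952) (l 16075856))) (a (b (l 15988928) (l 15954936)) (l 16109200))) (b (a (b (l 15912920) (l 15859144)) (b (l 15957528) (l 15911992))) (a (b (l 15814632) (l 15779440)) (b (l 15875520) (l 15848152))))) (a (b (c (b (l 16156672) (l 16120672)) (b (l 16005336) (l 15967936))) (c (l 16077184) (l 15928496))) (b (c (l 16177208) (l 16101744)) (l 2)))), by decide +kernel⟩

def k19_pp_022 : ∃ t, chk3 f_pp_022 t 2 7 1 = true :=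
  ⟨(a (a (a (b (c (b (c (a (l 15685136) (l 15718872)) (a (l 15586936) (l 15624664))) (c (a (l 15644640) (l 15680304)) (a (l 15544440) (l 15584920)))) (b (c (a (l 15474040) (l 15515368)) (a (l 15346504) (l 15391120))) (c (a (l 15427544) (l 15472416)) (a (l 15294000) (l 15342960))))) (c (b (c (l 15628576) (a (l 15509592) (l 15552696))) (c (l 15600112) (a (l 15482224) (l 15527832)))) (b (c (a (l 15390456) (l 15438776)) (a (l 15252576) (l 15305808))) (c (a (l 15362768) (l 15414440)) (a (l 15222352) (l 15279760)))))) (a (b (c (b (l 15709592) (l 15673000)) (b (l 15498000) (l 15456616))) (c (b (l 15642848) (l 15618904)) (b (l 15425312) (l 15404136)))) (b (c (b (l 15745424) (l 15711120)) (b (l 15540328) (l 15502848))) (b (c (l 15683112) (l 15475352)) (l 2))))) (a (b (c (b (l 15798336) (l 15767392)) (b (l 15622904) (l 15570272))) (b (c (l 15742536) (l 15548440)) (l 2))) (b (c (b (l 15865048) (l 15838472)) (b (l 15679536) (l 15655520))) (l 2)))) (b (b (a (a (a (l 15832560) (l 2)) (l 2))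 (l 2)) (l 2)) (l 2))), by decide +kernel⟩

def k20_pp_022 : ∃ t, chk3 f_pp_022 t 3 3 1 = true :=
  ⟨(b (a (a (a (b (b (l 16027152) (l 2)) (l 2)) (l 2)) (l 2)) (l 2)) (l 2)), by decide +kernel⟩

theorem s21_pp_022 : ∃ t, chk3 f_pp_022 t 4 6 1 = true := ex3_a k16_pp_022 k17_pp_022

theorem s22_pp_022 : ∃ t, chk3 f_pp_022 t 2 6 1 = true := ex3_a s21_pp_022 k18_pp_022

theorem s23_pp_022 : ∃ t, chk3 f_pp_022 t 2 3 1 = true := ex3_b s22_pp_022 k19_pp_022

theorem s24_pp_022 : ∃ t, chk3 f_pp_022 t 1 3 1 = true := ex3_a s23_pp_022 k20_pp_022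

theorem s25_pp_022 : ∃ t, chk3 f_pp_022 t 8 20 1 = true := ex3_a k9_pp_022 k10_pp_022

theorem s26_pp_022 : ∃ t, chk3 f_pp_022 t 8 10 1 = true := ex3_b s25_pp_022 k11_pp_022

theorem s27_pp_022 : ∃ t, chk3 f_pp_022 t 4 10 1 = true := ex3_a s26_pp_022 k12_pp_022

theorem s28_pp_022 : ∃ t, chk3 f_pp_022 t 4 5 1 = true := ex3_b s27_pp_022 k13_pp_022

theorem s29_pp_022 : ∃ t, chk3 f_pp_022 t 2 5 1 = true := ex3_a s28_pp_022 k14_pp_022

theorem s30_pp_022 : ∃ t, chk3 f_pp_022 t 1 5 1 = true := ex3_a s29_pp_022 k15_pp_022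

theorem s31_pp_022 : ∃ t, chk3 f_pp_022 t 8 19 1 = true := ex3_b k4_pp_022 k5_pp_022

theorem s32_pp_022 : ∃ t, chk3 f_pp_022 t 4 19 1 = true := ex3_a s31_pp_022 k6_pp_022

theorem s33_pp_022 : ∃ t, chk3 f_pp_022 t 4 37 1 = true := ex3_a k2_pp_022 k3_pp_022

theorem s34_pp_022 : ∃ t, chk3 f_pp_022 t 4 18 1 = true := ex3_b k1_pp_022 s33_pp_022

theorem s35_pp_022 : ∃ t, chk3 f_pp_022 t 4 9 1 = true := ex3_b s34_pp_022 s32_pp_022

theorem s36_pp_022 : ∃ t, chk3 f_pp_022 t 2 9 1 = true := ex3_a s35_pp_022 k7_pp_022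

theorem s37_pp_022 : ∃ t, chk3 f_pp_022 t 2 4 1 = true := ex3_b k0_pp_022 s36_pp_022

theorem s38_pp_022 : ∃ t, chk3 f_pp_022 t 1 4 1 = true := ex3_a s37_pp_022 k8_pp_022

theorem s39_pp_022 : ∃ t, chk3 f_pp_022 t 1 2 1 = true := ex3_b s38_pp_022 s30_pp_022

theorem s40_pp_022 : ∃ t, chk3 f_pp_022 t 1 1 1 = true := ex3_b s39_pp_022 s24_pp_022

theorem c_pp_022 : CertB 0 536870912 1073741824 536870912 858993459 64424510 3 eng mog cd0q0 cd2q2 pd2 false true true .pp 0 2 2
    ndB0q0 ndB2q2 pcB2 Cut.none Ext.none :=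
  certB1 (fam := false) (s1 := true) (s2 := true) (a := 0) (b := 2) (c := 2) (cn := .pp) (n1 := ndB0q0) (n2 := ndB2q2) (pc := pcB2) (cut := Cut.none) (xt := Ext.none) (P1 := 0) (W1 := 536870912) (P2 := 1073741824) (W2 := 536870912) (P3 := 858993459) (W3 := 64424510) (N0 := 3) (En := eng) (mo := mog) (C1 := cd0q0) (C2 := cd2q2) (C3 := pd2)
    rfl (fun _ => rfl) s40_pp_022

noncomputable def f_pp_023 : ℕ → ℕ → ℕ → ℕ → Bool := onCell 1073741824 536870912 0 1230186008 858993459 64424510
    (rowB 3 eng mog cd0q0 cd2q3 pd2 2 false true true .up 0 2 3 (qsf 0 536870912 0 1230186008 2) ndB0q0 ndB2q3 pcB2 Cut.none Ext.none)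

def k0_pp_023 : ∃ t, chk3 f_pp_023 t 2 1 1 = true :=
  ⟨(b (l 2) (b (b (l 2) (a (l 2) (a (l 2) (b (l 2) (a (l 2) (l 182635733655)))))) (b (a (l 2) (a (b (a (l 2) (l 16372176)) (b (a (l 2) (l 16374272)) (a (a (l 16358496) (a (l 16365256) (l 16367824))) (l 16378504)))) (b (a (l 16365384) (l 16394000)) (a (b (l 16386920) (l 16388024)) (b (l 16386120) (l 16373840)))))) (a (a (b (l 2) (a (l 3) (a (l 3) (c (b (a (l 16300192) (l 16308992)) (a (l 16336592) (l 16324664))) (b (a (l 16314432) (l 16331104)) (a (l 16346816) (l 16361912))))))) (a (b (b (l 2) (a (c (l 417248726919) (l 16331552)) (c (l 16332160) (l 16354280)))) (a (b (c (a (l 16320304) (l 16331872)) (l 16356776)) (c (b (l 16337784) (l 16390448)) (l 16388712))) (c (b (l 16344104) (l 16363304)) (b (l 16380256) (l 16413432))))) (b (c (b (a (l 16336648) (l 16349712)) (a (l 16344320) (l 16357536))) (b (l 16361960) (l 16381104))) (b (c (a (l 16356800) (l 16369976)) (l 16406232)) (c (a (l 16376336) (l 16389168)) (l 16408424))))))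 (a (b (a (a (c (l 16366008) (l 16386176)) (c (a (l 16373200) (l 16374448)) (a (l 16391072) (l 16388456)))) (b (l 16385344) (l 16392560))) (b (a (a (l 16397832) (c (l 16386816) (l 16381040))) (l 16383232)) (a (a (l 16349448) (c (l 16403640) (l 16360456))) (l 16362232)))) (b (b (a (l 16382232) (l 16354800)) (a (l 16368048) (l 16327872))) (b (a (l 16344208) (l 16293800)) (c (l 16316312) (l 16195896))))))))), by decide +kernel⟩

def k1_pp_023 : ∃ t, chk3 f_pp_023 t 3 2 1 = true :=
  ⟨(a (l 2) (b (a (l 2) (a (l 2) (l 16085184))) (a (b (a (l 2) (l 16107192)) (a (l 15972224) (l 16121504))) (b (a (l 15972192) (l 16005592)) (b (a (l 16052784) (l 15963232)) (l 15843776)))))), by decide +kernel⟩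

def k2_pp_023 : ∃ t, chk3 f_pp_023 t 3 6 1 = true :=
  ⟨(b (a (a (l 2) (b (c (l 16150240) (l 16342680)) (a (l 16375000) (l 16322192)))) (b (a (a (l 16228840) (l 16147784)) (c (l 15973248) (l 16079336))) (a (a (l 16256504) (l 16176808)) (a (l 16085240) (l 15982640))))) (a (a (b (a (l 16424920) (l 16381160)) (b (l 146665284407) (l 16407088))) (b (a (l 16389400) (l 16336400)) (a (b (l 16391056) (l 16377904)) (l 16331848)))) (b (a (a (l 16270400) (l 16192544)) (a (l 16104592) (l 16008816))) (a (c (l 16187144) (l 16252504)) (a (l 16103968) (l 16014000)))))), by decide +kernel⟩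

def k3_pp_023 : ∃ t, chk3 f_pp_023 t 3 7 1 = true :=
  ⟨(b (a (a (b (a (l 16391664) (l 16372384)) (a (l 16355328) (l 16316376))) (b (a (l 16338856) (l 16290832)) (b (l 16262680) (l 16218872)))) (a (c (b (l 16172560) (a (l 16157928) (l 16068608))) (b (l 16000448) (a (l 16122312) (l 15792384)))) (b (a (l 16070080) (l 15983992)) (a (c (l 16007424) (l 16105616)) (b (l 15931424) (c (l 15904288) (l 15837344))))))) (b (b (a (a (l 16288448) (l 16170088)) (a (a (l 16064360) (a (l 16006400) (l 15965392))) (a (a (l 15923392) (l 15880304)) (c (l 15855824) (l 15756552))))) (c (a (a (l 16270760) (l 16149416)) (a (a (l 16041264) (l 15962568)) (a (l 15879048) (a (l 15812904) (l 15766784))))) (a (a (l 16214184) (l 16067088)) (a (a (l 15939856) (l 15848320)) (a (l 15754592) (a (l 15682080) (l 15633920))))))) (a (a (b (a (l 16233880) (l 16166624)) (a (l 16182680) (c (l 16156448) (l 16045832)))) (b (a (l 16061008) (c (l 16060808) (l 15947640))) (c (a (l 16080024) (l 15998272)) (a (l 15956008) (l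 15861624))))) (a (b (a (c (l 15980680) (l 15854680)) (c (l 15895632) (l 15758592))) (a (c (l 15911376) (l 15763752)) (c (l 15817472) (l 15721296)))) (b (b (a (l 15761728) (a (l 15686432) (l 15718296))) (a (l 15778664) (c (l 15683856) (l 15513904)))) (a (c (b (l 15740848) (l 15694032)) (b (l 15573600) (l 15513072))) (c (b (l 15636472) (a (l 15613784) (l 15559504))) (b (l 15451120) (a (l 15417728) (l 15351848)))))))))), by decide +kernel⟩

theorem s4_pp_023 : ∃ t, chk3 f_pp_023 t 3 3 1 = true := ex3_b k2_pp_023 k3_pp_023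

theorem s5_pp_023 : ∃ t, chk3 f_pp_023 t 3 1 1 = true := ex3_b k1_pp_023 s4_pp_023

theorem s6_pp_023 : ∃ t, chk3 f_pp_023 t 1 1 1 = true := ex3_a k0_pp_023 s5_pp_023

theorem c_pp_023 : CertB 0 536870912 0 1230186008 858993459 64424510 3 eng mog cd0q0 cd2q3 pd2 false true true .up 0 2 3
    ndB0q0 ndB2q3 pcB2 Cut.none Ext.none :=
  certB2 (fam := false) (s1 := true) (s2 := true) (a := 0) (b := 2) (c := 3) (cn := .up) (n1 := ndB0q0) (n2 := ndB2q3) (pc := pcB2) (cut := Cut.none) (xt := Ext.none) (P1 := 0) (W1 := 536870912) (P2 := 0) (W2 := 1230186008) (P3 := 858993459) (W3 := 64424510) (N0 := 3) (En := eng) (mo := mog) (C1 := cd0q0) (C2 := cd2q3) (C3 := pd2)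
    rfl (fun _ => rfl) s6_pp_023

noncomputable def f_pp_033 : ℕ → ℕ → ℕ → ℕ → Bool := onCell 1610612736 536870912 0 1230186008 858993459 64424510
    (rowB 3 eng mog cd0q0 cd2q3 pd3 2 false true true .pnn 0 3 3 (qsf 0 536870912 0 1230186008 3) ndB0q0 ndB2q3 pcB3 Cut.none Ext.none)

def k0_pp_033 : ∃ t, chk3 f_pp_033 t 1 2 1 = true :=
  ⟨(b (a (a (a (a (l 16577632) (l 16508696)) (l 16410144)) (a (a (l 16316976) (l 16261088)) (a (l 16213688) (l 4)))) (l 4)) (a (a (a (b (a (l 16583696) (l 16498640)) (a (b (l 16571384) (l 16521240)) (l 16473768))) (b (l 16377640) (a (l 16357704) (l 16289808)))) (a (b (l 16039464) (a (l 16205776) (l 16125848))) (b (a (l 16126184) (l 16068664)) (a (l 16050576) (l 15980144))))) (a (a (b (l 4) (a (l 15921984) (l 4))) (l 4)) (l 4)))), by decide +kernel⟩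

def k1_pp_033 : ∃ t, chk3 f_pp_033 t 1 6 1 = true :=
  ⟨(a (b (a (b (a (c (l 16446408) (l 16329744)) (a (l 16308360) (l 16237264))) (a (c (l 16360568) (l 16313944)) (a (b (l 16247440) (l 16198232)) (l 16236376)))) (a (b (a (l 16169240) (l 16103440)) (a (l 16073424) (l 15998472))) (b (a (l 16041800) (l 15978296)) (a (l 15928456) (l 15861464))))) (a (a (b (c (l 16256704) (l 16155208)) (b (a (l 16153992) (l 16086792)) (a (l 16092416) (l 16020784)))) (b (a (b (l 16142944) (l 16081888)) (b (l 16073688) (l 16010760))) (b (a (l 16015760) (l 15942056)) (a (l 15945424) (l 15868760))))) (a (b (a (b (l 15991592) (l 15931416)) (b (l 15910480) (l 15844888))) (a (b (l 15863320) (l 15786848)) (b (l 15773816) (l 15696008)))) (b (a (l 15835904) (l 15710808)) (a (b (l 15679952) (l 15594968)) (b (l 15584152) (l 15494040))))))) (a (b (a (b (a (l 15912664) (l 15853808)) (a (l 15801456) (l 15752744))) (b (l 4) (a (l 15701568) (l 4)))) (a (b (a (l 15629744) (l 15559608)) (a (b (l 15492056) (l 15399360))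 (b (l 15412224) (l 1)))) (b (a (l 559450854935) (l 1)) (l 1)))) (l 4))), by decide +kernel⟩

def k2_pp_033 : ∃ t, chk3 f_pp_033 t 4 7 1 = true :=
  ⟨(b (a (b (a (b (l 16026944) (l 15956904)) (b (l 15950304) (l 15876552))) (a (b (l 15883544) (c (l 15855496) (l 15750360))) (b (l 15967184) (c (l 15768944) (l 15656952))))) (b (a (b (l 15871544) (l 15793824)) (b (l 15790032) (c (l 15768392) (l 15643008)))) (a (b (c (l 15766056) (l 15651184)) (c (l 15675912) (l 15556352))) (b (c (l 15675528) (l 15550832)) (c (a (l 15602320) (l 15552136)) (a (l 15474832) (l 15418416))))))) (b (a (a (b (c (l 15776840) (l 15660600)) (c (a (l 15718096) (l 15667744)) (a (l 15586056) (l 15532280)))) (b (c (l 15681808) (l 15559304)) (c (a (l 15616040) (l 15563208)) (a (l 15476400) (l 15418864))))) (b (a (c (a (l 15606312) (l 15554672)) (a (l 15477168) (l 15420232))) (c (a (l 226053819191) (l 299605040775)) (a (l 15362032) (l 289941104567)))) (a (c (a (b (l 15534304) (l 15485688)) (l 273298450359)) (c (l 214242333831)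 (l 207799712951))) (a (c (l 279203902839) (l 277056127447)) (l 1))))) (b (a (a (c (b (a (l 15653288) (l 15600376)) (a (l 15608320) (l 15554624))) (b (l 15578656) (a (l 15441968) (l 15382528)))) (c (a (b (l 15546552) (l 229275085271)) (b (l 15491880) (l 242696740103))) (a (b (l 15386240) (l 228737905143)) (b (l 15326488) (l 256118199687))))) (a (a (b (c (l 255044742743) (l 262560635687)) (l 1)) (l 1)) (l 1))) (a (b (a (c (a (l 15561136) (l 220148224023)) (a (l 15378904) (l 235717248967))) (a (c (l 225516815703) (l 251286400487)) (l 1))) (a (c (l 210484427799) (l 239475265751)) (l 1))) (l 1))))), by decide +kernel⟩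

def k3_pp_033 : ∃ t, chk3 f_pp_033 t 5 7 1 = true :=
  ⟨(b (a (b (a (b (l 15702696) (c (l 15680288) (l 15542920))) (b (c (l 15686592) (l 15532368)) (c (l 15586624) (l 15434400)))) (a (b (c (l 15579696) (l 15441920)) (c (a (l 15501920) (l 326985472759)) (a (l 15360872) (l 15345440)))) (b (c (l 233033202023) (l 208873675943)) (c (l 337185990359) (l 311952721335))))) (b (a (b (l 15565368) (c (l 438117963143) (l 417716493127))) (b (l 515427379479) (l 1))) (l 1))) (a (a (a (b (b (c (l 303899924711) (l 291014741799)) (l 1)) (l 1)) (l 1)) (l 1)) (l 1))), by decide +kernel⟩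

def k4_pp_033 : ∃ t, chk3 f_pp_033 t 3 7 1 = true :=
  ⟨(l 1), by decide +kernel⟩

theorem s5_pp_033 : ∃ t, chk3 f_pp_033 t 2 7 1 = true := ex3_a k2_pp_033 k3_pp_033

theorem s6_pp_033 : ∃ t, chk3 f_pp_033 t 1 7 1 = true := ex3_a s5_pp_033 k4_pp_033

theorem s7_pp_033 : ∃ t, chk3 f_pp_033 t 1 3 1 = true := ex3_b k1_pp_033 s6_pp_033

theorem s8_pp_033 : ∃ t, chk3 f_pp_033 t 1 1 1 = true := ex3_b k0_pp_033 s7_pp_033

theorem c_pp_033 : CertB 0 536870912 0 1230186008 858993459 64424510 3 eng mog cd0q0 cd2q3 pd3 false true true .pnn 0 3 3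
    ndB0q0 ndB2q3 pcB3 Cut.none Ext.none :=
  certB2 (fam := false) (s1 := true) (s2 := true) (a := 0) (b := 3) (c := 3) (cn := .pnn) (n1 := ndB0q0) (n2 := ndB2q3) (pc := pcB3) (cut := Cut.none) (xt := Ext.none) (P1 := 0) (W1 := 536870912) (P2 := 0) (W2 := 1230186008) (P3 := 858993459) (W3 := 64424510) (N0 := 3) (En := eng) (mo := mog) (C1 := cd0q0) (C2 := cd2q3) (C3 := pd3)
    rfl (fun _ => rfl) s8_pp_033

noncomputable def f_pp_101 : ℕ → ℕ → ℕ → ℕ → Bool := onCell 536870912 536870912 536870912 536870912 858993459 64424510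
    (rowB 3 eng mog cd0q1 cd2q1 pd0 0 false true true .npn 1 0 1 (qsf 536870912 536870912 536870912 536870912 0) ndB0q1 ndB2q1 pcB0 Cut.none Ext.none)

def k0_pp_101 : ∃ t, chk3 f_pp_101 t 1 1 1 = true :=
  ⟨(a (l 3) (l 5)), by decide +kernel⟩

theorem c_pp_101 : CertB 536870912 536870912 536870912 536870912 858993459 64424510 3 eng mog cd0q1 cd2q1 pd0 false true true .npn 1 0 1
    ndB0q1 ndB2q1 pcB0 Cut.none Ext.none :=
  certB0 (fam := false) (s1 := true) (s2 := true) (a := 1) (b := 0) (c := 1) (cn := .npn) (n1 := ndB0q1) (n2 := ndB2q1) (pc := pcB0) (cut := Cut.none) (xt := Ext.none) (P1 := 536870912) (W1 := 536870912) (P2 := 536870912) (W2 := 536870912) (P3 := 858993459) (W3 := 64424510) (N0 := 3) (En := eng) (mo := mog) (C1 := cd0q1) (C2 := cd2q1) (C3 := pd0)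
    rfl k0_pp_101

noncomputable def f_pp_102 : ℕ → ℕ → ℕ → ℕ → Bool := onCell 536870912 536870912 0 536870912 858993459 64424510
    (rowB 3 eng mog cd0q1 cd2q2 pd0 1 false true true .npp 1 0 2 (qsf 536870912 536870912 1073741824 536870912 0) ndB0q1 ndB2q2 pcB0 Cut.none Ext.none)

def k0_pp_102 : ∃ t, chk3 f_pp_102 t 1 1 1 = true :=
  ⟨(l 3), by decide +kernel⟩

theorem c_pp_102 : CertB 536870912 536870912 1073741824 536870912 858993459 64424510 3 eng mog cd0q1 cd2q2 pd0 false true true .npp 1 0 2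
    ndB0q1 ndB2q2 pcB0 Cut.none Ext.none :=
  certB1 (fam := false) (s1 := true) (s2 := true) (a := 1) (b := 0) (c := 2) (cn := .npp) (n1 := ndB0q1) (n2 := ndB2q2) (pc := pcB0) (cut := Cut.none) (xt := Ext.none) (P1 := 536870912) (W1 := 536870912) (P2 := 1073741824) (W2 := 536870912) (P3 := 858993459) (W3 := 64424510) (N0 := 3) (En := eng) (mo := mog) (C1 := cd0q1) (C2 := cd2q2) (C3 := pd0)
    rfl (fun _ => rfl) k0_pp_102

noncomputable def f_pp_112 : ℕ → ℕ → ℕ → ℕ → Bool := onCell 536870912 536870912 1073741824 536870912 858993459 64424510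
    (rowB 3 eng mog cd0q1 cd2q2 pd1 0 false true true .dn 1 1 2 (qsf 536870912 536870912 1073741824 536870912 1) ndB0q1 ndB2q2 pcB1 Cut.none Ext.none)

def k0_pp_112 : ∃ t, chk3 f_pp_112 t 1 1 1 = true :=
  ⟨(a (l 3) (l 3)), by decide +kernel⟩

theorem c_pp_112 : CertB 536870912 536870912 1073741824 536870912 858993459 64424510 3 eng mog cd0q1 cd2q2 pd1 false true true .dn 1 1 2
    ndB0q1 ndB2q2 pcB1 Cut.none Ext.none :=
  certB0 (fam := false) (s1 := true) (s2 := true) (a := 1) (b := 1) (c := 2) (cn := .dn) (n1 := ndB0q1) (n2 := ndB2q2) (pc := pcB1) (cut := Cut.none) (xt := Ext.none) (P1 := 536870912) (W1 := 536870912) (P2 := 1073741824) (W2 := 536870912) (P3 := 858993459) (W3 := 64424510) (N0 := 3) (En := eng) (mo := mog) (C1 := cd0q1) (C2 := cd2q2) (C3 := pd1)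
    rfl k0_pp_112

noncomputable def cut_pp_113 : Cut := Cut.of [[⟨0, 1, 0, 67108864⟩, ⟨1, 1, 0, 67108864⟩, ⟨2, 2, 0, 16777216⟩]]

noncomputable def f_pp_113 : ℕ → ℕ → ℕ → ℕ → Bool := onCell 536870912 536870912 0 1230186008 858993459 64424510
    (rowB 3 eng mog cd0q1 cd2q3 pd1 2 false true true .nn 1 1 3 (qsf 536870912 536870912 0 1230186008 1) ndB0q1 ndB2q3 pcB1 cut_pp_113 Ext.none)

def k0_pp_113 : ∃ t, chk3 f_pp_113 t 1 1 1 = true :=
  ⟨(b (a (l 2) (a (l 2) (a (l 3) (a (l 3) (b (b (l 6) (l 3)) (l 3)))))) (b (a (l 3) (a (l 3) (l 3))) (a (b (l 3) (l 3)) (l 3)))), by decide +kernel⟩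

theorem c_pp_113 : CertB 536870912 536870912 0 1230186008 858993459 64424510 3 eng mog cd0q1 cd2q3 pd1 false true true .nn 1 1 3
    ndB0q1 ndB2q3 pcB1 cut_pp_113 Ext.none :=
  certB2 (fam := false) (s1 := true) (s2 := true) (a := 1) (b := 1) (c := 3) (cn := .nn) (n1 := ndB0q1) (n2 := ndB2q3) (pc := pcB1) (cut := cut_pp_113) (xt := Ext.none) (P1 := 536870912) (W1 := 536870912) (P2 := 0) (W2 := 1230186008) (P3 := 858993459) (W3 := 64424510) (N0 := 3) (En := eng) (mo := mog) (C1 := cd0q1) (C2 := cd2q3) (C3 := pd1)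
    rfl (fun _ => rfl) k0_pp_113

noncomputable def cut_pp_123 : Cut := Cut.of [[⟨0, 1, 0, 67108864⟩, ⟨1, 1, 0, 67108864⟩, ⟨2, 2, 0, 16777216⟩]]

noncomputable def xt_pp_123 : Ext := extD2 3 ⟨4, 1, 1, 5, 3, 1, 9, 10, 43, 100, 1, 8⟩ eng cd0q1 cd2q3 pd2 false true true .npn 1 2 3 rfl ndB0q1 ndB2q3 pcB2

noncomputable def f_pp_123 : ℕ → ℕ → ℕ → ℕ → Bool := onCell 1073741824 536870912 0 1230186008 858993459 64424510
    (rowB 3 eng mog cd0q1 cd2q3 pd2 2 false true true .npn 1 2 3 (qsf 536870912 536870912 0 1230186008 2) ndB0q1 ndB2q3 pcB2 cut_pp_123 xt_pp_123)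

def k0_pp_123 : ∃ t, chk3 f_pp_123 t 8 4 1 = true :=
  ⟨(b (a (l 6) (a (l 6) (c (l 16675400) (l 16690456)))) (b (a (l 6) (a (l 6) (l 16632096))) (a (b (a (a (l 3) (a (a (l 3) (c (b (a (c (l 184851375303) (l 249812751415)) (l 16786008)) (a (l 369534965815) (b (l 16788280) (l 247665273143)))) (b (a (c (b (l 316921615239) (l 352355104407)) (b (a (l 351818215415) (l 16780040)) (a (l 3) (l 343228290087)))) (c (l 16782704) (l 16775064))) (a (c (l 378124913223) (b (l 382419872887) (l 3))) (c (l 314774131015) (b (a (l 310479165447) (l 16781592)) (a (l 369534971543) (l 16780024)))))))) (a (c (b (l 16773784) (a (l 16788080) (l 16787112))) (b (a (l 16781208) (l 16780136)) (a (b (l 16782728) (l 16783880)) (l 16782992)))) (b (l 16778808) (c (l 16784552) (l 16780944)))))) (a (a (a (l 16755392) (l 16771944)) (l 16765464)) (l 16732072))) (a (a (l 3) (b (a (a (l 3) (a (l 3) (b (c (l 320142849495) (c (l 362555658679) (l 368998103383))) (l 3)))) (a (c (a (l 204715599575) (l 16790488)) (a (c (l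 306721071799) (b (l 16778416) (l 333564618631))) (l 16785504))) (a (l 16776936) (l 16786192)))) (a (l 3) (a (c (a (l 317458497783) (l 16773320)) (a (c (l 356650085575) (b (l 354502582727) (l 379735530119))) (c (l 16790048) (b (l 16786192) (l 295446793527))))) (c (l 16792816) (a (l 16788224) (l 16787960))))))) (a (a (a (c (l 16766192) (l 16762552)) (l 16781256)) (l 16753896)) (l 16720696)))) (a (c (l 16670384) (l 16696336)) (a (l 16715928) (l 16704584)))))), by decide +kernel⟩

def k1_pp_123 : ∃ t, chk3 f_pp_123 t 32 10 1 = true :=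
  ⟨(b (a (l 3) (a (l 3) (b (b (a (a (l 3) (c (l 312089794423) (c (l 355576336039) (b (l 345912656295) (l 365776892471))))) (c (l 16776096) (a (c (l 16793272) (l 299204886727)) (l 16791504)))) (a (l 3) (c (l 257865834535) (c (l 324437826615) (a (b (l 328195923111) (l 350207643511)) (l 16794072)))))) (a (l 3) (c (b (l 317995386519) (l 353965757895)) (c (b (l 341617702615) (l 364703164455)) (b (a (b (l 375977452791) (l 3)) (b (l 309942321207) (l 338933353479))) (a (l 3) (b (l 360945076919) (l 390472983847)))))))))) (l 3)), by decide +kernel⟩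

def k2_pp_123 : ∃ t, chk3 f_pp_123 t 33 10 1 = true :=
  ⟨(a (b (a (c (b (a (l 16797224) (l 16793856)) (a (b (l 16805312) (l 16811384)) (l 16806192))) (b (a (b (l 16769800) (l 16784864)) (l 16769440)) (a (b (a (l 16789728) (l 16800040)) (a (c (l 16807368) (b (l 16802640) (l 320142882647))) (l 16795104))) (b (l 16799472) (l 16784480))))) (b (l 16765216) (a (c (l 16782080) (l 16779184)) (l 16776952)))) (b (a (a (c (b (l 315311061111) (l 351281419015)) (b (c (l 330880307735) (a (b (a (l 383493667063) (l 321753502199)) (l 384567395063)) (b (l 16808728) (l 300815543047)))) (a (l 3) (c (l 340007129607) (c (l 337322766647) (b (l 330343450487) (l 354502646855))))))) (c (l 16820056) (b (c (l 16813032) (l 16810608)) (c (l 16799288) (a (b (l 16815712) (l 16819360)) (l 16817688)))))) (a (c (l 16818056) (b (l 16790432) (l 16797832))) (c (l 16815080) (l 16813024)))) (b (a (a (a (l 3) (b (c (l 16827624) (c (l 439865137367) (l 401747297399))) (l 3))) (c (l 16829760) (a (c (l 324974759207) (c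 (l 322827267095) (b (l 310479242167) (a (l 420000913735) (l 308331766727))))) (c (l 16827912) (b (l 16823312) (l 16806264)))))) (a (c (l 16830216) (l 16826488)) (l 16827120))) (a (a (l 3) (c (l 332490952423) (b (c (l 328196000199) (c (l 314774226503) (a (a (l 3) (b (l 338933422247) (l 437180793223))) (a (l 292762518567) (l 16830624))))) (c (l 365776976903) (a (l 3) (c (l 316384848775) (a (a (b (l 417316578519) (l 3)) (b (l 16828384) (b (l 315847981191) (l 345375883303)))) (b (l 16833728) (l 16833208))))))))) (c (l 16833880) (a (a (b (l 16832648) (b (l 16835808) (l 16832272))) (l 16824152)) (l 16834440))))))) (b (c (l 16776216) (b (l 16774184) (l 16767296))) (b (a (l 16808640) (l 16780152)) (a (c (l 16827376) (b (l 16821960) (l 16831456))) (l 16819416))))), by decide +kernel⟩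

def k3_pp_123 : ∃ t, chk3 f_pp_123 t 17 10 1 = true :=
  ⟨(c (a (b (l 16777952) (b (l 16780536) (l 16798688))) (b (l 16726272) (l 16757840))) (a (b (l 16756720) (a (l 16800544) (l 16787944))) (b (l 16740696) (l 16770504)))), by decide +kernel⟩

def k4_pp_123 : ∃ t, chk3 f_pp_123 t 32 11 1 = true :=
  ⟨(l 3), by decide +kernel⟩

def k5_pp_123 : ∃ t, chk3 f_pp_123 t 33 22 1 = true :=
  ⟨(a (b (b (a (a (l 3) (c (l 362018855559) (a (l 3) (c (l 352892050311) (b (c (l 344839002039) (a (b (b (l 6840102287523706265773703439) (l 3)) (l 3)) (c (l 191293920679) (b (b (l 16833096) (l 308331786295)) (a (l 359334521703) (l 16829152)))))) (c (l 366313838407) (a (l 3) (c (l 362555739095) (b (l 359334515319) (l 3)))))))))) (c (l 16814984) (a (c (l 16812672) (a (c (l 16821440) (b (l 16823400) (a (c (l 16827480) (b (l 16828480) (l 316921700135))) (l 16827160)))) (l 16810328))) (l 16811128)))) (a (l 3) (b (c (l 295983709703) (a (c (l 16812392) (a (c (l 328195973767) (a (b (l 342154632375) (l 368461299895))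 (l 148881088151))) (l 16820400))) (l 16821080))) (c (l 306184239879) (a (c (l 325511601415) (c (l 321753520631) (a (a (l 3) (c (l 341617730599) (l 338396515687))) (l 16811784)))) (l 16812952)))))) (a (l 3) (a (a (b (b (l 3) (l 3)) (l 3)) (c (b (l 16804608) (l 371145548823)) (c (b (l 162839676455) (l 371145549175)) (b (b (b (l 299204918967) (l 315847911319)) (c (l 340543952519) (l 336785867783))) (b (l 363092503447) (l 3)))))) (c (c (l 16773264) (l 115058108359)) (c (b (l 16800376) (l 152102210759)) (a (b (l 16777904) (b (l 16773624) (l 319605939847))) (b (l 16798720) (l 16778584)))))))) (c (b (a (l 16787112) (l 16816176)) (a (a (l 16770008) (l 16788512)) (l 16783120))) (b (a (a (a (l 16803512) (l 16782096)) (l 16801160)) (l 16817072)) (a (a (b (l 16798808) (l 16778640)) (b (l 16797904) (l 16777672))) (l 16742016))))), by decide +kernel⟩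

def k6_pp_123 : ∃ t, chk3 f_pp_123 t 33 23 1 = true :=
  ⟨(b (a (a (l 3) (a (l 3) (c (b (l 280414306855) (l 598241882295)) (c (b (l 320679628215) (l 458118572631)) (b (c (l 317458440487) (b (l 312089741143) (l 324974619383))) (a (l 3) (b (l 321216475191) (l 391009689271)))))))) (b (a (c (l 16757488) (a (c (l 16756416) (l 16755216)) (l 16754656))) (c (l 16751792) (l 16751968))) (a (c (a (l 16712976) (l 16731456)) (a (c (l 16730976) (b (l 16736080) (l 16722416))) (l 16728864))) (a (l 16728024) (l 16725592))))) (a (l 3) (a (b (a (c (c (l 285246062759) (l 292225359175)) (a (c (l 314237061303) (b (l 302962803383) (l 331416930231))) (c (l 16702272) (l 16700312)))) (c (l 16682952) (l 16679272))) (b (a (c (l 308331463719) (c (l 313163309943) (l 316384540311))) (c (l 16681344) (l 16676904))) (a (a (l 3) (c (l 305110201127) (c (l 309942046231) (l 315310732167)))) (c (l 16644368) (l 16660432))))) (b (c (l 16699912) (l 16677288)) (c (l 16669344) (l 16666584)))))), by decide +kernel⟩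

def k7_pp_123 : ∃ t, chk3 f_pp_123 t 17 11 1 = true :=
  ⟨(b (a (a (b (l 16762840) (c (l 16770528) (l 16772904))) (c (l 16729696) (l 16734864))) (b (l 16736784) (l 16712696))) (a (b (a (c (l 16727608) (l 16729064)) (l 16711824)) (a (a (c (l 16678024) (l 16656680)) (l 16669328)) (l 16656944))) (c (l 16576008) (l 16624664)))), by decide +kernel⟩

def k8_pp_123 : ∃ t, chk3 f_pp_123 t 9 2 1 = true :=
  ⟨(b (a (b (a (b (l 16665400) (l 16670120)) (l 16611440)) (a (b (l 16676720) (l 16668872)) (b (l 16661560) (l 16672328)))) (b (c (l 16488264) (l 16664288)) (c (a (l 16629344) (l 16617632)) (l 16668536)))) (b (a (a (b (l 16710488) (l 16739552)) (b (l 16690808) (l 16718808))) (c (l 16764592) (l 16738504))) (a (b (c (l 16698248) (l 16725984)) (a (l 16510576) (l 16613632))) (b (a (l 16684320) (l 16664712)) (a (l 16508152) (l 16572528)))))), by decide +kernel⟩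

def k9_pp_123 : ∃ t, chk3 f_pp_123 t 5 2 1 = true :=
  ⟨(b (a (a (a (b (l 16623552) (l 16627776)) (b (l 16611320) (a (l 16620640) (l 16511064)))) (b (l 16585768) (l 16591816))) (a (c (l 16306032) (l 16572960)) (c (l 16238640) (l 16527464)))) (a (b (a (a (l 16632056) (a (l 16642792) (b (l 16629784) (l 16647576)))) (l 16746208)) (a (a (b (l 16646432) (l 16554856)) (a (l 16549904) (a (l 16585856) (l 16540072)))) (b (l 16610920) (l 16522392)))) (b (a (l 16625832) (c (l 16496672) (l 16574856))) (a (b (l 16583168) (l 16486760)) (b (l 16541768) (l 16466192)))))), by decide +kernel⟩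

def k10_pp_123 : ∃ t, chk3 f_pp_123 t 3 2 1 = true :=
  ⟨(a (b (a (c (b (l 16319144) (l 16123288)) (b (l 16427400) (l 16460176))) (c (b (l 16150800) (l 16198776)) (b (l 16276264) (l 16320256)))) (a (b (c (a (l 16429848) (l 16362640)) (l 16501736)) (c (b (l 16420288) (l 16346984)) (b (l 16518472) (l 16458768)))) (b (a (l 16135528) (l 16271808)) (c (l 16161584) (l 16237552))))) (b (a (b (a (l 16093672) (l 16073560)) (a (l 16133520) (l 16068464))) (a (b (l 16084224) (l 16051008)) (l 16085296))) (a (b (a (l 16191784) (l 16107176)) (a (b (l 16224784) (l 16221936)) (l 15953416))) (a (b (l 15867200) (l 15822928)) (b (l 16005248) (l 1)))))), by decide +kernel⟩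

def k11_pp_123 : ∃ t, chk3 f_pp_123 t 32 12 1 = true :=
  ⟨(l 3), by decide +kernel⟩

def k12_pp_123 : ∃ t, chk3 f_pp_123 t 66 12 1 = true :=
  ⟨(l 3), by decide +kernel⟩

def k13_pp_123 : ∃ t, chk3 f_pp_123 t 134 12 1 = true :=
  ⟨(b (b (b (b (a (a (l 3) (a (l 3) (c (l 509657982967) (l 329269360503)))) (c (a (c (l 16650944) (l 16647632)) (l 16647872)) (a (l 248201849527) (l 16642824)))) (a (l 3) (c (a (c (b (l 273434788823) (a (c (l 704542115175) (l 627769566615)) (l 16628632))) (l 291688356103)) (c (l 16631992) (l 16628712))) (c (l 280414070439) (l 284709029495))))) (a (l 3) (c (b (b (c (a (a (l 3) (c (b (l 263771088807) (l 279877213959)) (l 277729728711))) (a (l 16622320) (l 16621560))) (a (c (l 308868240807) (l 316384381511)) (l 16618472))) (a (c (a (l 3) (c (l 302425790695) (l 305110141351))) (l 326048098039)) (c (l 16625728) (l 16616864)))) (b (a (c (a (l 3) (l 331416821479)) (l 341080480615)) (c (a (l 160691867111) (l 16618640)) (l 16615256))) (a (l 3) (c (a (l 287393399607)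 (l 16617168)) (l 16592680))))) (b (a (c (a (l 357723459191) (l 217063279175)) (l 326048083159)) (c (l 16593736) (l 16612296))) (c (a (l 346449181431) (l 16590192)) (l 313700043879)))))) (b (a (l 3) (a (l 3) (c (b (c (a (b (l 314773813399) (l 3)) (c (l 160154987447) (l 16613832))) (l 301888860679)) (c (b (l 317458153063) (l 333027406567)) (l 328195533911))) (b (b (l 298130791847) (l 313700045031)) (c (l 330343032215) (l 334101122871)))))) (l 3))) (l 3)), by decide +kernel⟩

def k14_pp_123 : ∃ t, chk3 f_pp_123 t 135 12 1 = true :=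
  ⟨(b (b (b (c (c (l 16616024) (l 16634552)) (a (l 16632776) (l 16631248))) (b (a (c (b (l 16597064) (l 16595528)) (l 16612264)) (c (l 16614408) (l 16610696))) (c (a (a (c (l 16616728) (l 16613152)) (l 16613440)) (l 16611264)) (a (l 16608504) (l 16606912))))) (a (b (c (c (b (a (l 16613736) (l 16612160)) (b (l 16610680) (l 140290757783))) (b (l 16609208) (l 16584848))) (c (b (l 16606056) (l 16602336)) (l 136532619255))) (b (c (c (c (a (l 273434737367) (l 16607088)) (l 260012961351)) (l 266992246439)) (b (l 266992258359) (l 275045318391))) (c (c (a (l 307794418375) (l 16602696)) (l 282024630247)) (c (l 285782729847) (l 16531608))))) (c (b (b (l 16608096) (l 16604848)) (c (l 16580832) (l 16576856))) (b (l 16601056) (c (l 16594472) (l 16537864)))))) (b (b (b (c (a (c (l 293835774199) (l 296520143383)) (l 16573616)) (c (l 275582169015) (l 281487670375))) (a (c (b (l 307257560343) (l 315310622855)) (l 316921224823)) (c (l 16570008) (l 16522184)))) (b (a (c (l 323363667479) (l 330342991527))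 (c (l 16587280) (l 16501144))) (a (l 3) (c (l 254107334311) (l 16481064))))) (a (l 3) (c (b (c (l 276119024487) (l 280950844919)) (c (l 303499422023) (l 308331193703))) (b (a (l 315310471879) (l 16451824)) (l 314236659447)))))), by decide +kernel⟩

def k15_pp_123 : ∃ t, chk3 f_pp_123 t 17 12 1 = true :=
  ⟨(b (a (b (a (b (a (c (l 16629464) (l 16628368)) (l 16620744)) (a (c (a (l 16588984) (l 16585808)) (a (l 16607304) (l 16605552))) (c (l 16600472) (l 16600240)))) (b (l 16608168) (a (l 16591392) (l 16583088)))) (c (a (a (b (l 16580904) (l 16574184)) (b (l 16594536) (l 16588256))) (l 16577696)) (a (a (b (l 16598656) (l 16569632)) (c (l 16589512) (l 16541928))) (l 16557728)))) (b (c (a (l 16580104) (l 16563440)) (l 16514632)) (c (l 16551456) (l 16524936)))) (c (a (b (a (a (b (l 16588072) (a (l 16582168) (l 16578936))) (b (l 16581408) (l 16573960))) (a (l 16569144) (l 16559864))) (a (a (b (a (l 16574264) (l 16570968)) (a (l 16562104) (l 16535592))) (c (l 16563616) (l 16517016)))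 (b (l 16545912) (l 16511832)))) (b (l 16537312) (l 16495168))) (a (b (a (a (b (l 16526136) (l 16486072)) (c (l 16531136) (l 16465664))) (l 16506992)) (a (a (b (l 16449296) (l 16478616)) (c (l 16458920) (l 16399928))) (a (l 16427008) (l 16422712)))) (b (l 16464704) (l 16413096))))), by decide +kernel⟩

def k16_pp_123 : ∃ t, chk3 f_pp_123 t 9 12 1 = true :=
  ⟨(b (a (b (a (c (l 16543112) (l 16553584)) (l 16525072)) (a (c (l 16521736) (l 16496696)) (l 16503088))) (b (a (l 16483704) (l 16486496)) (a (l 16482208) (l 16463976)))) (b (a (a (c (l 16506656) (l 16447920)) (l 16461712)) (a (l 16447072) (l 16435832))) (a (a (c (l 16463776) (l 16405648)) (l 16423688)) (a (l 16415856) (l 16410312))))), by decide +kernel⟩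

def k17_pp_123 : ∃ t, chk3 f_pp_123 t 5 12 1 = true :=
  ⟨(a (b (a (a (b (l 16471000) (l 16448408)) (a (l 16366168) (b (l 16454776) (l 16432408)))) (b (l 16446608) (l 16424856))) (a (a (b (l 16426584) (l 16406040)) (a (l 16410624) (l 16386408))) (l 16363232))) (b (a (b (l 16443152) (l 16423312)) (b (l 16442312) (l 16427656))) (a (l 16399328) (l 16410832)))), by decide +kernel⟩

def k18_pp_123 : ∃ t, chk3 f_pp_123 t 2 13 1 = true :=
  ⟨(a (a (b (b (a (l 3) (a (a (a (c (b (b (l 16510632) (l 241222366071)) (a (l 286319457319) (l 16466552))) (b (c (l 16414688) (l 16355640)) (l 266991960407))) (c (b (l 16493072) (l 16461568)) (c (l 16398272) (l 16345144)))) (c (b (l 16480520) (l 16451888)) (a (l 16373376) (l 16373208)))) (c (l 16442520) (l 16369952)))) (a (l 3) (a (a (a (c (b (l 272360770919) (l 287393144663)) (b (l 281487417271) (l 295982879959))) (c (b (l 16433088) (l 16407472)) (c (l 16348776) (l 16300960)))) (c (b (l 16425912) (l 16402440)) (a (l 16328832) (l 16332608)))) (a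 (c (l 16403960) (l 16334392)) (c (l 16394144) (l 16336088)))))) (a (l 3) (a (b (b (a (a (c (l 304036034791) (l 308867741303)) (c (l 16383928) (l 16296224))) (c (l 16380720) (l 16304240))) (a (a (l 3) (c (l 16362192) (l 16279784))) (a (l 16344320) (l 16325992)))) (a (a (l 3) (c (l 256254492375) (l 16260296))) (c (b (l 16343280) (l 16328480)) (l 16270104)))) (b (a (c (l 16366112) (l 16305040)) (c (l 16360264) (l 16310016))) (a (c (l 16335936) (l 16283216)) (l 16396176)))))) (b (a (b (a (c (l 16420864) (l 16370256)) (l 16391616)) (a (c (l 16385760) (l 16341560)) (l 16365472))) (c (b (a (l 16393312) (l 16387120)) (l 16455472)) (a (l 16436552) (l 16380072)))) (a (a (b (c (l 16357168) (l 16319008)) (c (l 16335768) (l 16302752))) (b (l 16407592) (l 16329440))) (b (a (c (l 16355840) (l 16348232)) (l 16359024)) (a (l 16381608) (l 16349336)))))) (a (b (a (a (b (l 16389336) (l 16376384)) (a (l 16384008) (l 16363408))) (b (l 16393632) (l 16387352))) (a (a (b (l 16365696) (l 16357864)) (a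 (l 16366384) (b (l 16372080) (l 16365536)))) (b (l 16380960) (l 16375664)))) (b (a (l 16396936) (l 16395464)) (b (l 16394872) (a (l 16388536) (l 16394216)))))), by decide +kernel⟩

def k19_pp_123 : ∃ t, chk3 f_pp_123 t 3 6 1 = true :=
  ⟨(b (a (a (b (c (l 16233496) (l 16333744)) (a (l 16432000) (l 16414112))) (b (c (l 16066296) (l 16300672)) (a (l 16374920) (l 16321944)))) (b (a (c (l 16143336) (l 16253728)) (l 1)) (l 1))) (a (a (a (b (l 16424912) (l 16411480)) (b (l 16339096) (l 161093628631))) (b (a (l 16389064) (l 1)) (l 1))) (l 1))), by decide +kernel⟩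

def k20_pp_123 : ∃ t, chk3 f_pp_123 t 4 7 1 = true :=
  ⟨(a (a (b (l 3) (l 3)) (a (a (b (a (l 3) (b (b (c (l 289003558023) (l 16242768)) (l 3)) (l 3))) (l 3)) (b (b (b (c (b (l 16316152) (l 16306128)) (l 16252672)) (c (b (l 16298304) (l 16292184)) (l 16243248))) (b (c (l 16285576) (l 16241216)) (c (l 16280616) (l 16246232)))) (b (b (c (l 16279960) (l 16258112)) (l 3)) (l 3)))) (b (b (c (a (b (l 16314776) (l 16301200)) (b (l 16316688) (l 16305696))) (a (b (l 16268624) (l 16260184)) (b (l 16279640) (l 16274088)))) (a (b (c (l 16292616) (l 16257736)) (c (l 16288136) (l 16261928))) (c (b (l 16299112) (l 16295880)) (b (l 16274416) (l 16280128))))) (b (c (b (a (l 16287672) (l 16296064)) (a (l 16291512) (l 16300176))) (b (a (l 16272472) (l 16290744)) (a (l 16289824) (l 16307584)))) (b (a (c (l 16300200) (l 16314448)) (c (l 16309000) (l 16331120))) (l 1)))))) (b (a (b (b (a (c (l 16321920) (l 16293000)) (l 16361656)) (c (l 16424208) (l 16299392))) (a (b (c (l 16308880) (l 16291448))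 (c (l 16307440) (l 16299232))) (c (l 16321096) (l 16315864)))) (b (c (a (l 16334616) (l 16344952)) (a (l 16329008) (l 16342328))) (c (a (l 16352376) (l 16343736)) (a (l 16336144) (l 16350272))))) (a (b (a (b (c (l 16309728) (l 16312464)) (c (a (l 16310744) (l 16320752)) (l 16331552))) (b (c (l 16324992) (l 16334552)) (c (l 16332160) (l 16354288)))) (a (b (c (a (l 16320312) (l 1)) (l 16356808)) (l 1)) (l 1))) (b (c (b (a (l 16336640) (l 16349704)) (a (l 16344320) (l 1))) (b (l 16361952) (l 16381112))) (l 1))))), by decide +kernel⟩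

def k21_pp_123 : ∃ t, chk3 f_pp_123 t 5 7 1 = true :=
  ⟨(b (a (b (a (a (l 16351936) (a (l 16358280) (l 16360936))) (l 16372168)) (a (a (b (l 16353272) (l 16358488)) (c (a (l 16364928) (l 16367160)) (l 16366072))) (b (l 16374224) (l 16378408)))) (b (a (b (l 16386928) (l 16386136)) (l 16393728)) (l 1))) (a (b (a (a (b (l 16367184) (l 1)) (l 1)) (l 1)) (l 1)) (l 1))), by decide +kernel⟩

def k22_pp_123 : ∃ t, chk3 f_pp_123 t 3 7 1 = true :=
  ⟨(l 1), by decide +kernel⟩

theorem s23_pp_123 : ∃ t, chk3 f_pp_123 t 2 7 1 = true := ex3_a k20_pp_123 k21_pp_123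

theorem s24_pp_123 : ∃ t, chk3 f_pp_123 t 1 7 1 = true := ex3_a s23_pp_123 k22_pp_123

theorem s25_pp_123 : ∃ t, chk3 f_pp_123 t 67 12 1 = true := ex3_a k13_pp_123 k14_pp_123

theorem s26_pp_123 : ∃ t, chk3 f_pp_123 t 33 12 1 = true := ex3_a k12_pp_123 s25_pp_123

theorem s27_pp_123 : ∃ t, chk3 f_pp_123 t 16 12 1 = true := ex3_a k11_pp_123 s26_pp_123

theorem s28_pp_123 : ∃ t, chk3 f_pp_123 t 8 12 1 = true := ex3_a s27_pp_123 k15_pp_123

theorem s29_pp_123 : ∃ t, chk3 f_pp_123 t 4 12 1 = true := ex3_a s28_pp_123 k16_pp_123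

theorem s30_pp_123 : ∃ t, chk3 f_pp_123 t 2 12 1 = true := ex3_a s29_pp_123 k17_pp_123

theorem s31_pp_123 : ∃ t, chk3 f_pp_123 t 2 6 1 = true := ex3_b s30_pp_123 k18_pp_123

theorem s32_pp_123 : ∃ t, chk3 f_pp_123 t 1 6 1 = true := ex3_a s31_pp_123 k19_pp_123

theorem s33_pp_123 : ∃ t, chk3 f_pp_123 t 1 3 1 = true := ex3_b s32_pp_123 s24_pp_123

theorem s34_pp_123 : ∃ t, chk3 f_pp_123 t 33 11 1 = true := ex3_b k5_pp_123 k6_pp_123

theorem s35_pp_123 : ∃ t, chk3 f_pp_123 t 16 11 1 = true := ex3_a k4_pp_123 s34_pp_123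

theorem s36_pp_123 : ∃ t, chk3 f_pp_123 t 8 11 1 = true := ex3_a s35_pp_123 k7_pp_123

theorem s37_pp_123 : ∃ t, chk3 f_pp_123 t 16 10 1 = true := ex3_a k1_pp_123 k2_pp_123

theorem s38_pp_123 : ∃ t, chk3 f_pp_123 t 8 10 1 = true := ex3_a s37_pp_123 k3_pp_123

theorem s39_pp_123 : ∃ t, chk3 f_pp_123 t 8 5 1 = true := ex3_b s38_pp_123 s36_pp_123

theorem s40_pp_123 : ∃ t, chk3 f_pp_123 t 8 2 1 = true := ex3_b k0_pp_123 s39_pp_123

theorem s41_pp_123 : ∃ t, chk3 f_pp_123 t 4 2 1 = true := ex3_a s40_pp_123 k8_pp_123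

theorem s42_pp_123 : ∃ t, chk3 f_pp_123 t 2 2 1 = true := ex3_a s41_pp_123 k9_pp_123

theorem s43_pp_123 : ∃ t, chk3 f_pp_123 t 1 2 1 = true := ex3_a s42_pp_123 k10_pp_123

theorem s44_pp_123 : ∃ t, chk3 f_pp_123 t 1 1 1 = true := ex3_b s43_pp_123 s33_pp_123

theorem c_pp_123 : CertB 536870912 536870912 0 1230186008 858993459 64424510 3 eng mog cd0q1 cd2q3 pd2 false true true .npn 1 2 3
    ndB0q1 ndB2q3 pcB2 cut_pp_123 xt_pp_123 :=
  certB2 (fam := false) (s1 := true) (s2 := true) (a := 1) (b := 2) (c := 3) (cn := .npn) (n1 := ndB0q1) (n2 := ndB2q3) (pc := pcB2) (cut := cut_pp_123) (xt := xt_pp_123) (P1 := 536870912) (W1 := 536870912) (P2 := 0) (W2 := 1230186008) (P3 := 858993459) (W3 := 64424510) (N0 := 3) (En := eng) (mo := mog) (C1 := cd0q1) (C2 := cd2q3) (C3 := pd2)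
    rfl (fun _ => rfl) s44_pp_123

noncomputable def f_pp_133 : ℕ → ℕ → ℕ → ℕ → Bool := onCell 536870912 536870912 0 1230186008 858993459 64424510
    (rowB 3 eng mog cd0q1 cd2q3 pd3 0 false true true .dn 1 3 3 (qsf 536870912 536870912 0 1230186008 3) ndB0q1 ndB2q3 pcB3 Cut.none Ext.none)

def k0_pp_133 : ∃ t, chk3 f_pp_133 t 1 1 1 = true :=
  ⟨(b (b (a (a (a (b (l 16683008) (l 1)) (l 1)) (l 1)) (l 1)) (l 1)) (l 1)), by decide +kernel⟩

theorem c_pp_133 : CertB 536870912 536870912 0 1230186008 858993459 64424510 3 eng mog cd0q1 cd2q3 pd3 false true true .dn 1 3 3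
    ndB0q1 ndB2q3 pcB3 Cut.none Ext.none :=
  certB0 (fam := false) (s1 := true) (s2 := true) (a := 1) (b := 3) (c := 3) (cn := .dn) (n1 := ndB0q1) (n2 := ndB2q3) (pc := pcB3) (cut := Cut.none) (xt := Ext.none) (P1 := 536870912) (W1 := 536870912) (P2 := 0) (W2 := 1230186008) (P3 := 858993459) (W3 := 64424510) (N0 := 3) (En := eng) (mo := mog) (C1 := cd0q1) (C2 := cd2q3) (C3 := pd3)
    rfl k0_pp_133

noncomputable def f_pp_202 : ℕ → ℕ → ℕ → ℕ → Bool := onCell 0 536870912 1073741824 536870912 858993459 64424510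
    (rowB 3 eng mog cd0q2 cd2q2 pd0 0 false true true .pp 2 0 2 (qsf 0 536870912 1073741824 536870912 0) ndB0q2 ndB2q2 pcB0 Cut.none Ext.none)

def k0_pp_202 : ∃ t, chk3 f_pp_202 t 1 1 1 = true :=
  ⟨(l 3), by decide +kernel⟩

theorem c_pp_202 : CertB 0 536870912 1073741824 536870912 858993459 64424510 3 eng mog cd0q2 cd2q2 pd0 false true true .pp 2 0 2
    ndB0q2 ndB2q2 pcB0 Cut.none Ext.none :=
  certB0 (fam := false) (s1 := true) (s2 := true) (a := 2) (b := 0) (c := 2) (cn := .pp) (n1 := ndB0q2) (n2 := ndB2q2) (pc := pcB0) (cut := Cut.none) (xt := Ext.none) (P1 := 0) (W1 := 536870912) (P2 := 1073741824) (W2 := 536870912) (P3 := 858993459) (W3 := 64424510) (N0 := 3) (En := eng) (mo := mog) (C1 := cd0q2) (C2 := cd2q2) (C3 := pd0)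
    rfl k0_pp_202

noncomputable def f_pp_203 : ℕ → ℕ → ℕ → ℕ → Bool := onCell 0 536870912 0 1230186008 858993459 64424510
    (rowB 3 eng mog cd0q2 cd2q3 pd0 0 false true true .up 2 0 3 (qsf 0 536870912 0 1230186008 0) ndB0q2 ndB2q3 pcB0 Cut.none Ext.none)

def k0_pp_203 : ∃ t, chk3 f_pp_203 t 1 1 1 = true :=
  ⟨(b (l 2) (l 3)), by decide +kernel⟩

theorem c_pp_203 : CertB 0 536870912 0 1230186008 858993459 64424510 3 eng mog cd0q2 cd2q3 pd0 false true true .up 2 0 3
    ndB0q2 ndB2q3 pcB0 Cut.none Ext.none :=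
  certB0 (fam := false) (s1 := true) (s2 := true) (a := 2) (b := 0) (c := 3) (cn := .up) (n1 := ndB0q2) (n2 := ndB2q3) (pc := pcB0) (cut := Cut.none) (xt := Ext.none) (P1 := 0) (W1 := 536870912) (P2 := 0) (W2 := 1230186008) (P3 := 858993459) (W3 := 64424510) (N0 := 3) (En := eng) (mo := mog) (C1 := cd0q2) (C2 := cd2q3) (C3 := pd0)
    rfl k0_pp_203

noncomputable def cut_pp_213 : Cut := Cut.of [[⟨0, 1, 0, 67108864⟩, ⟨1, 1, 0, 67108864⟩, ⟨2, 2, 0, 16777216⟩]]

noncomputable def f_pp_213 : ℕ → ℕ → ℕ → ℕ → Bool := onCell 0 536870912 0 1230186008 858993459 64424510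
    (rowB 3 eng mog cd0q2 cd2q3 pd1 0 false true true .pnn 2 1 3 (qsf 0 536870912 0 1230186008 1) ndB0q2 ndB2q3 pcB1 cut_pp_213 Ext.none)

def k0_pp_213 : ∃ t, chk3 f_pp_213 t 1 1 1 = true :=
  ⟨(b (a (l 3) (b (a (l 3) (a (l 3) (b (l 6) (l 3)))) (l 3))) (l 3)), by decide +kernel⟩

theorem c_pp_213 : CertB 0 536870912 0 1230186008 858993459 64424510 3 eng mog cd0q2 cd2q3 pd1 false true true .pnn 2 1 3
    ndB0q2 ndB2q3 pcB1 cut_pp_213 Ext.none :=
  certB0 (fam := false) (s1 := true) (s2 := true) (a := 2) (b := 1) (c := 3) (cn := .pnn) (n1 := ndB0q2) (n2 := ndB2q3) (pc := pcB1) (cut := cut_pp_213) (xt := Ext.none) (P1 := 0) (W1 := 536870912) (P2 := 0) (W2 := 1230186008) (P3 := 858993459) (W3 := 64424510) (N0 := 3) (En := eng) (mo := mog) (C1 := cd0q2) (C2 := cd2q3) (C3 := pd1)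
    rfl k0_pp_213

noncomputable def f_pm_001 : ℕ → ℕ → ℕ → ℕ → Bool := onCell 0 536870912 536870912 536870912 858993459 64424510
    (rowB 3 eng mog cd0q0 cd2q1 pd0 0 false true false .up 0 0 1 (qsf 0 536870912 536870912 536870912 0) ndB0q0 ndB2q1 pcB0 Cut.none Ext.none)

def k0_pm_001 : ∃ t, chk3 f_pm_001 t 1 1 1 = true :=
  ⟨(l 4), by decide +kernel⟩

theorem c_pm_001 : CertB 0 536870912 536870912 536870912 858993459 64424510 3 eng mog cd0q0 cd2q1 pd0 false true false .up 0 0 1
    ndB0q0 ndB2q1 pcB0 Cut.none Ext.none :=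
  certB0 (fam := false) (s1 := true) (s2 := false) (a := 0) (b := 0) (c := 1) (cn := .up) (n1 := ndB0q0) (n2 := ndB2q1) (pc := pcB0) (cut := Cut.none) (xt := Ext.none) (P1 := 0) (W1 := 536870912) (P2 := 536870912) (W2 := 536870912) (P3 := 858993459) (W3 := 64424510) (N0 := 3) (En := eng) (mo := mog) (C1 := cd0q0) (C2 := cd2q1) (C3 := pd0)
    rfl k0_pm_001

noncomputable def f_pm_011 : ℕ → ℕ → ℕ → ℕ → Bool := onCell 0 536870912 536870912 536870912 858993459 64424510
    (rowB 3 eng mog cd0q0 cd2q1 pd1 0 false true false .pnn 0 1 1 (qsf 0 536870912 536870912 536870912 1) ndB0q0 ndB2q1 pcB1 Cut.none Ext.none)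

def k0_pm_011 : ∃ t, chk3 f_pm_011 t 1 1 1 = true :=
  ⟨(l 4), by decide +kernel⟩

theorem c_pm_011 : CertB 0 536870912 536870912 536870912 858993459 64424510 3 eng mog cd0q0 cd2q1 pd1 false true false .pnn 0 1 1
    ndB0q0 ndB2q1 pcB1 Cut.none Ext.none :=
  certB0 (fam := false) (s1 := true) (s2 := false) (a := 0) (b := 1) (c := 1) (cn := .pnn) (n1 := ndB0q0) (n2 := ndB2q1) (pc := pcB1) (cut := Cut.none) (xt := Ext.none) (P1 := 0) (W1 := 536870912) (P2 := 536870912) (W2 := 536870912) (P3 := 858993459) (W3 := 64424510) (N0 := 3) (En := eng) (mo := mog) (C1 := cd0q0) (C2 := cd2q1) (C3 := pd1)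
    rfl k0_pm_011

end Pool.Agent.Strip051.G.I8000_8600.Tab.C.BB02

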