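import Pool.Agent.Strip051.G.I8000_8600.Tab

/-! # Certificates B19 (generated) -/

set_option linter.all false
set_option maxRecDepth 100000

namespace Pool.Agent.Strip051.G.I8000_8600.Tab.C.BB03

open Pool.Agent.Strip051.PB Pool.Agent.Strip051.PB.T
open Pool.Agent.Strip051.G.I8000_8600.Tab

noncomputable def cut_pp_123 : Cut := Cut.of [[⟨0, 1, 0, 67108864⟩, ⟨1, 1, 0, 67108864⟩, ⟨2, 2, 0, 16777216⟩]]

noncomputable def f_pp_123 : ℕ → ℕ → ℕ → ℕ → Bool := onCell 1073741824 536870912 0 1230186008 858993459 64424510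
    (rowB 3 eng mog cd0q1 cd3q3 pd2 2 false true true .npn 1 2 3 (qsf 536870912 536870912 0 1230186008 2) ndB0q1 ndB3q3 pcB2 cut_pp_123 Ext.none)

def k0_pp_123 : ∃ t, chk3 f_pp_123 t 16 2 1 = true :=
  ⟨(b (b (l 6) (b (l 6) (l 3))) (l 3)), by decide +kernel⟩

def k1_pp_123 : ∃ t, chk3 f_pp_123 t 17 8 1 = true :=
  ⟨(a (l 6) (b (l 16753080) (c (l 16663280) (l 16676728)))), by decide +kernel⟩

def k2_pp_123 : ∃ t, chk3 f_pp_123 t 34 18 1 = true :=
  ⟨(l 6), by decide +kernel⟩

def k3_pp_123 : ∃ t, chk3 f_pp_123 t 136 38 1 = true :=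
  ⟨(b (a (a (l 3) (b (b (c (c (a (l 386714838631) (b (c (l 311552909287) (l 314237262375)) (c (l 360408163575) (l 363092516599)))) (a (l 392083544599) (b (l 306721072231) (l 367924352423)))) (a (l 401747215911) (c (b (l 328195897479) (l 373829929095)) (l 344838890727)))) (l 3)) (l 3))) (a (b (b (c (a (a (c (l 275045690551) (l 16781816)) (l 16779608)) (l 16779120)) (c (l 295983642439) (l 16774328))) (c (a (b (c (c (l 335712101207) (l 339470196071)) (l 344302037143)) (c (l 380809258375) (l 386177964263))) (b (l 16785120) (c (l 293836173687) (l 301352363527)))) (c (a (l 365239989495) (l 299741748199)) (a (l 371145560727) (l 315310992167))))) (b (c (a (l 3) (b (c (l 357186935191) (l 363092514615)) (l 3))) (c (l 385641091047) (l 391009796503))) (l 3))) (b (c (c (l 16784408) (l 16778120)) (b (l 16776280) (l 16771432))) (b (c (c (a (c (l 309942299943) (l 312626650375)) (l 16780544)) (a (b (l 16779496) (l 339470194119)) (l 16779168))) (c (a (l 309942296759) (l 16777728)) (l 315310993767))) (c (c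 (a (l 380809259575) (b (l 287393723271) (l 351281358327))) (a (l 386177965367) (b (l 295446783975) (l 357723805959)))) (a (l 394767894567) (b (l 314237254599) (l 367924347271)))))))) (l 3)), by decide +kernel⟩

def k4_pp_123 : ∃ t, chk3 f_pp_123 t 137 38 1 = true :=
  ⟨(b (c (a (b (l 16776672) (a (a (a (c (l 257328952599) (l 16779208)) (l 16778912)) (l 16789560)) (l 16778088))) (l 16775024)) (a (b (l 16775888) (a (c (l 16776224) (l 16770984)) (l 16776504))) (l 16775544))) (a (a (b (b (c (c (a (b (l 326048427719) (l 370608712119)) (l 271824467943)) (a (l 351281352695) (l 282025012055))) (c (a (l 357723792263) (l 16780904)) (a (l 363629379063) (l 16776584)))) (a (l 3) (b (c (c (l 345375778887) (l 351818226439)) (l 362018767671)) (c (l 392083553127) (l 401210346039))))) (l 3)) (b (b (c (l 16784928) (l 16777144)) (c (a (b (l 16786056) (c (l 297594272295) (l 305110461975))) (l 16780432)) (c (l 305647321239) (l 308331672327)))) (b (c (c (a (l 372756197079) (b (l 16784672) (l 338396457687))) (a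 (l 378124902727) (l 317995353815))) (c (a (l 383493608151) (l 326585287687)) (l 362018762087))) (c (c (l 389936068199) (l 393694161047)) (l 402284089943))))) (c (a (b (l 16773664) (b (c (l 16781224) (l 16779848)) (c (a (b (l 289541209303) (l 357186940631)) (l 16782096)) (a (l 330343385703) (l 16780528))))) (c (l 16786928) (l 16778272))) (b (l 16776816) (a (b (l 16775040) (c (l 321216579783) (l 324437801303))) (l 16767056)))))), by decide +kernel⟩

def k5_pp_123 : ∃ t, chk3 f_pp_123 t 68 39 1 = true :=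
  ⟨(a (l 3) (b (a (l 3) (a (b (b (c (a (l 3) (c (b (l 330880265639) (l 376514294535)) (l 355039453847))) (c (l 373829922407) (l 379198638039))) (l 3)) (l 3)) (b (b (c (c (a (l 270750728823) (l 16781848)) (l 292225552967)) (c (l 16777784) (l 16772176))) (c (c (a (l 362555651239) (l 283098760855)) (a (l 367924356759) (l 291688692391))) (c (l 349670736167) (l 355576307111)))) (b (c (c (l 382956747911) (l 387251711527)) (c (l 391546674935) (l 395841638119))) (l 3))))) (l 3))), by decide +kernel⟩

def k6_pp_123 : ∃ t, chk3 f_pp_123 t 69 19 1 = true :=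
  ⟨(b (b (a (a (l 16752536) (l 16771656)) (l 16746064)) (a (a (a (b (l 16776248) (l 16777840)) (l 16765696)) (l 16764456)) (c (l 16748768) (l 16775064)))) (a (b (a (b (c (a (c (l 16778728) (l 16780112)) (l 16779432)) (a (l 16775544) (l 16777864))) (c (a (b (c (a (l 312626661159) (l 16782920)) (l 307794811991)) (c (a (l 390472940983) (l 325511564199)) (l 360945033719))) (c (b (l 16781784) (l 16788352)) (l 16779752))) (a (b (c (l 312089775463) (l 315310997271)) (c (l 366313731127) (l 371682446663))) (c (l 16774368) (l 16778112))))) (c (b (l 16777456) (l 16779800)) (b (l 16777440) (l 16757456)))) (a (a (l 3) (b (b (c (c (a (l 350207622087) (l 267529506263)) (l 334101485159)) (c (l 342154549351) (l 348596996039))) (c (c (l 374366815191) (l 378661778695)) (l 386714836247))) (l 3))) (b (c (a (b (l 16792712) (c (a (l 280414409303) (l 16783864)) (l 297594266167))) (l 16781488)) (a (c (l 295446778935) (l 16777472)) (l 16779288))) (c (a (b (c (a (l 377051170071) (l 292225570695)) (l 351281351255))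 (c (l 393157299511) (l 395841650151))) (b (c (l 16784040) (l 16782504)) (c (a (l 322827207463) (l 16785000)) (l 313163525319)))) (a (c (l 371682453767) (l 376514287751)) (c (l 305647328647) (l 309405421367))))))) (c (b (l 16753624) (a (b (l 16779472) (a (l 16782528) (l 16781160))) (l 16777896))) (b (l 16777144) (a (b (l 16778848) (l 16779840)) (l 16778744)))))), by decide +kernel⟩

def k7_pp_123 : ∃ t, chk3 f_pp_123 t 35 9 1 = true :=
  ⟨(b (a (c (l 16692944) (l 16745096)) (c (l 16720072) (l 16734384))) (a (b (a (c (l 16759056) (l 16767208)) (l 16755640)) (a (b (c (l 16768704) (l 16775608)) (c (l 16773712) (l 16777952))) (c (l 16743160) (l 16772816)))) (b (l 16744936) (c (l 16751920) (l 16764200))))), by decide +kernel⟩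

def k8_pp_123 : ∃ t, chk3 f_pp_123 t 34 10 1 = true :=
  ⟨(b (a (l 3) (b (a (b (a (l 3) (a (l 3) (b (b (c (c (l 363629398807) (l 368461233095)) (l 377051161367)) (l 3)) (l 3)))) (l 3)) (b (a (b (c (a (b (c (l 16789096) (l 16783472)) (c (l 333564624583) (l 340543945207))) (b (l 16782960) (l 16794640))) (a (c (l 314237266215) (l 318532229479)) (l 16770192))) (c (c (a (l 390472948231) (b (l 268603254839) (l 352355111415))) (a (l 392620427767) (b (l 300815495703) (l 357186945543)))) (a (l 396915388439) (b (l 304573588999) (l 360408167447))))) (b (c (l 16781472) (l 16780184)) (c (a (c (l 16785336) (l 16783784)) (l 16783152)) (a (l 16781336) (l 16780976))))) (a (b (c (a (l 3) (l 406042197031)) (l 406579047687)) (l 3)) (a (b (c (c (a (l 350207629463) (l 311016051143)) (l 350207624519)) (b (l 320679718743) (l 379735519031))) (l 3)) (b (c (c (l 267529504983) (l 16789936)) (l 290078075703)) (c (c (l 359871307223) (l 362555657463)) (b (l 348060137479) (l 393694164439)))))))) (l 3))) (l 3)), by decide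 +kernel⟩

def k9_pp_123 : ∃ t, chk3 f_pp_123 t 35 20 1 = true :=
  ⟨(b (a (a (c (b (a (l 16779816) (l 16776944)) (a (b (l 16783400) (a (c (l 277193184007) (l 289004339671)) (l 16785048))) (l 16781640))) (b (l 16769208) (a (a (c (l 287930594423) (l 301889227319)) (l 16781640)) (l 16781072)))) (c (b (l 16772632) (l 16777184)) (b (l 16778680) (l 16780008)))) (a (c (l 16747368) (l 16776976)) (l 16724104))) (b (a (a (a (a (b (c (c (l 373293082151) (l 374903690327)) (l 377051166647)) (l 3)) (b (c (c (l 287393733719) (l 298668018327)) (c (l 308331690151) (l 316384749255))) (b (c (l 378661789543) (l 379198650375)) (l 3)))) (b (c (c (l 16785880) (l 16784496)) (l 16782344)) (c (a (b (l 272361347047) (l 337859602231)) (l 16786784)) (c (l 302962983783) (l 319605968279))))) (a (c (l 16783304) (l 16781864)) (l 16770032))) (a (l 16756608) (l 16731728))) (a (a (a (l 3) (b (c (a (l 398526016535) (b (l 286319993095) (l 359871308471))) (c (l 362555655991) (l 364166263287))) (l 3))) (a (b (c (a (l 16787568)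 (l 16785984)) (a (l 16783216) (l 16782704))) (c (a (b (l 319069120951) (l 375440566503)) (l 260550190071)) (a (l 359334418423) (l 16783400)))) (c (b (l 16783616) (l 16785880)) (l 16782272)))) (a (c (l 16780080) (l 16780920)) (l 16755488))))), by decide +kernel⟩

def k10_pp_123 : ∃ t, chk3 f_pp_123 t 35 21 1 = true :=
  ⟨(a (b (a (l 3) (b (a (a (l 3) (b (c (l 358797568471) (l 362555652823)) (l 3))) (b (c (a (l 269140126551) (l 16787368)) (a (l 303499853447) (l 16782920))) (c (a (l 369534988247) (l 276656321447)) (a (l 370608717015) (l 312089789143))))) (a (l 3) (b (c (l 386177990103) (l 384030492375)) (l 3))))) (l 3)) (b (c (a (b (a (b (l 16785000) (l 16787304)) (l 16783016)) (a (b (a (l 296520547543) (l 16788848)) (a (l 390472957047) (l 308868578327))) (b (l 16786496) (l 16788856)))) (b (l 16778432) (l 16772576))) (a (b (a (l 16782408) (l 16781440)) (a (b (a (l 319069112311) (l 16782952)) (a (l 400136617975) (l 321753467975))) (b (l 16782160) (l 16782624)))) (b (l 16780152) (l 16780920))))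 (a (b (c (a (l 419463971927) (b (a (l 353965734839) (l 16790472)) (c (l 395304801303) (l 400136630759)))) (a (l 423222050983) (b (a (l 366850624951) (l 16782784)) (c (l 403894717911) (l 406579062759))))) (l 3)) (b (a (b (c (l 16788152) (l 16781968)) (c (c (l 16793840) (l 251423384695)) (c (l 266992632087) (l 281488137671)))) (c (l 16786312) (l 16781080))) (a (a (b (c (c (l 406579090951) (l 410337177559)) (c (l 413558392711) (l 414632123671))) (l 3)) (b (c (c (l 244980945703) (l 260550191959)) (c (l 274508825463) (l 287930587959))) (b (c (c (l 311016069575) (l 318532251735)) (c (l 325511562391) (l 333027743367))) (c (c (l 464024282615) (l 462413658759)) (l 459192423287))))) (b (c (a (l 16790752) (l 16789232)) (a (l 16781792) (l 16781248))) (c (a (b (c (l 16795112) (l 16790072)) (c (a (b (l 270750750087) (l 423758962199)) (l 16796168)) (a (b (l 282025028215) (l 427517046887)) (l 243370321671)))) (c (l 16794112) (l 16789256))) (a (b (c (l 16784752) (l 16779168)) (c (a (b (l 292225564599) (l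 428590777031)) (l 16784320)) (a (l 408726540503) (l 16778928)))) (c (l 16784144) (l 16778784)))))))))), by decide +kernel⟩

def k11_pp_123 : ∃ t, chk3 f_pp_123 t 17 11 1 = true :=
  ⟨(a (l 3) (b (a (l 3) (a (l 3) (b (a (l 3) (b (a (a (l 3) (b (b (c (b (c (l 283635653143) (l 292762447479)) (c (l 334638392071) (l 338933347799))) (c (b (l 301889241559) (l 344838914919)) (l 327659032295))) (l 3)) (l 3))) (b (c (b (a (c (l 205789370791) (l 227801066871)) (l 16793200)) (c (a (l 312626685175) (l 218137402039)) (a (l 317995382919) (l 235317260871)))) (b (c (a (l 248739020471) (l 16784576)) (l 263234523655)) (c (a (l 326585303655) (l 255181472119)) (a (l 333564611847) (l 273435070695))))) (b (a (l 3) (c (c (l 321216621015) (l 327122188247)) (c (l 333564625639) (l 339470191383)))) (l 3)))) (l 3))) (l 3)))) (l 3))), by decide +kernel⟩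

def k12_pp_123 : ∃ t, chk3 f_pp_123 t 18 4 1 = true :=
  ⟨(b (a (b (l 16631888) (l 16693896)) (c (l 16631656) (l 16665856))) (b (a (c (l 16682000) (l 16721736)) (l 16694808)) (a (c (l 16725408) (l 16741056)) (c (l 16702256) (l 16701200))))), by decide +kernel⟩

def k13_pp_123 : ∃ t, chk3 f_pp_123 t 18 10 1 = true :=
  ⟨(a (a (b (b (l 16714280) (c (a (l 16765848) (l 16760408)) (l 16772280))) (b (a (c (l 16775672) (l 16779040)) (b (l 16773064) (l 16776344))) (a (b (c (l 16782472) (l 16779768)) (c (a (c (l 16790216) (l 16786488)) (l 16785960)) (a (b (l 16780504) (l 16780720)) (l 16779720)))) (b (l 16778488) (c (l 16782960) (l 16778600)))))) (b (c (l 16744144) (l 16755232)) (b (a (l 16769912) (l 16763864)) (a (b (l 16776504) (l 16778520)) (l 16774016))))) (b (c (l 16704144) (l 16716952)) (a (b (l 16753864) (l 16744112)) (l 16725000)))), by decide +kernel⟩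

def k14_pp_123 : ∃ t, chk3 f_pp_123 t 72 44 1 = true :=
  ⟨(a (b (a (c (b (a (c (l 16795392) (l 16789936)) (l 16791312)) (a (b (a (c (l 229948562375) (l 243907196215)) (l 16794176)) (c (a (l 330343427783) (l 241759722551)) (a (l 335175252631) (l 254107743399)))) (c (l 16796696) (l 16790624)))) (b (a (c (l 16784184) (l 16778136)) (l 16780680)) (a (b (a (c (l 262697665591) (l 279877521767)) (l 16781232)) (c (a (l 340007076711) (l 269676987991)) (a (l 345375770935) (l 286319972679)))) (c (l 16784208) (l 16777472))))) (c (b (l 16789400) (l 16791704)) (b (l 16779976) (l 16780144)))) (a (c (c (b (a (l 348060171623) (b (l 234243529863) (l 305110496519))) (l 354502605943)) (b (a (l 351281383031) (b (l 247665292471) (l 312089803991))) (l 356650074567))) (c (b (a (l 354502593639) (b (l 262697667047) (l 319605981543))) (l 359334434199)) (b (a (l 357723803415) (b (l 280414392951) (l 327122158295))) (l 362018771991)))) (a (b (c (c (l 16797976) (l 16791280)) (c (l 16784216) (l 16776792))) (c (b (c (l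 249812785831) (l 275582579399)) (c (l 315311046295) (l 321753481735))) (b (c (l 276656310007) (l 296520520551)) (c (l 328195916295) (l 334638349975))))) (b (c (l 16793344) (l 16780056)) (c (c (l 16799224) (l 16791920)) (c (l 16785520) (l 16778720))))))) (b (c (l 16787208) (l 16778816)) (c (a (b (l 16791520) (l 16793704)) (l 16790376)) (a (b (l 16779376) (l 16779488)) (l 16778592))))), by decide +kernel⟩

def k15_pp_123 : ∃ t, chk3 f_pp_123 t 72 45 1 = true :=
  ⟨(a (b (a (l 3) (a (l 3) (b (c (b (c (l 283098780631) (l 289541221767)) (l 327122179607)) (b (c (l 297057401927) (l 303499841991)) (c (l 335712109207) (l 341617670743)))) (l 3)))) (l 3)) (b (a (b (c (a (c (l 16800440) (l 233706647895)) (l 16795264)) (a (c (l 249812763799) (l 268066360359)) (l 16779352))) (c (a (c (l 302426147719) (l 309942302167)) (c (l 16795072) (l 242833451959))) (a (b (c (l 304573594727) (l 311016033047)) (c (l 343228302087) (l 348060120583))) (c (l 257328955031) (l 272898182919))))) (c (b (l 16793504) (l 16795576))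 (c (l 16782824) (l 16774528)))) (a (a (l 3) (b (c (b (l 304573602407) (l 342691460599)) (c (l 322827206711) (l 329806508007))) (l 3))) (a (b (c (c (l 237464750487) (l 250886513479)) (c (l 264308275223) (l 278266889015))) (b (c (l 312626662695) (c (l 318532238423) (l 326585280631))) (l 3))) (b (c (l 16797032) (l 16778576)) (c (b (l 16777584) (l 275582568663)) (c (l 270750715623) (l 283635595751)))))))), by decide +kernel⟩

def k16_pp_123 : ∃ t, chk3 f_pp_123 t 73 22 1 = true :=
  ⟨(b (a (c (l 16785584) (l 16777432)) (l 16779384)) (a (b (c (l 16791416) (l 16777560)) (c (a (b (l 16795336) (l 16786800)) (l 16794216)) (a (c (l 16782712) (l 16773072)) (l 16777160)))) (c (l 16789680) (l 16776056)))), by decide +kernel⟩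

def k17_pp_123 : ∃ t, chk3 f_pp_123 t 36 23 1 = true :=
  ⟨(a (a (l 3) (b (b (a (l 3) (a (l 3) (b (c (l 320142863319) (c (l 330880270295) (l 337322698311))) (l 3)))) (l 3)) (l 3))) (b (a (b (a (b (c (c (l 239075363047) (l 252497121303)) (a (c (l 276656294167) (l 288467431559)) (l 16777720))) (c (a (l 324437832135) (b (l 16789584) (l 289004343143))) (a (b (l 333027720135) (l 3)) (c (l 282025001751) (l 293299267847))))) (c (b (l 16796992) (l 16777832)) (c (l 16782480) (l 16762496)))) (a (b (c (l 330343394519) (a (l 3) (l 340007042087))) (l 3)) (b (c (c (l 248739042375) (l 260550181127)) (a (c (l 287393723031) (l 297594232935)) (l 16773912))) (c (c (l 289541256551) (l 299204888391)) (a (l 345375744983) (c (l 292762431799) (l 293836070935))))))) (b (c (l 16794856) (l 16775912)) (c (a (b (l 16798376) (l 16789552)) (l 16797104)) (a (b (l 16769504) (a (l 253033950407) (l 16756696))) (l 16758408))))) (a (b (l 3) (l 3)) (b (a (b (c (a (l 282561890231) (l 16780104)) (a (c (l 297057387607) (l 309942170983))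 (b (l 16748120) (l 16763368)))) (a (l 3) (c (l 285246244999) (b (l 291151781879) (l 323364036999))))) (c (c (l 16795600) (l 235854118919)) (a (c (l 251423353911) (l 259476327607)) (l 16735024)))) (a (l 3) (b (c (a (l 287930584487) (l 235854099511)) (a (b (l 294373005975) (l 328195871799)) (b (l 16721208) (l 267529459607)))) (c (c (l 301889292487) (l 312089806567)) (c (l 315310916695) (l 326048224055))))))))), by decide +kernel⟩

def k18_pp_123 : ∃ t, chk3 f_pp_123 t 37 11 1 = true :=
  ⟨(a (b (b (a (l 16776992) (l 16772320)) (a (l 16780680) (l 16778576))) (b (a (c (l 16792760) (l 16761472)) (l 16781144)) (a (b (c (l 16776064) (l 16750880)) (a (c (b (l 16800056) (a (l 239075307623) (l 16800752))) (a (c (l 256792031895) (l 258939405463)) (l 16709416))) (c (l 16798520) (l 16707024)))) (c (l 16773416) (l 16712520))))) (b (b (l 16762344) (l 16750544)) (b (a (l 16778728) (l 16775880)) (a (l 16753952) (l 16745992))))), by decide +kernel⟩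

def k19_pp_123 : ∃ t, chk3 f_pp_123 t 19 2 1 = true :=
  ⟨(a (b (b (a (l 16659104) (l 16653000)) (b (l 16679360) (a (l 16696920) (l 16688184)))) (b (c (b (l 16700192) (l 16681464)) (b (l 16717888) (l 16709640))) (b (a (l 16731928) (l 16717520)) (a (b (l 16766800) (l 16735520)) (b (l 16751152) (l 16722336)))))) (b (b (l 16645248) (c (l 16635248) (l 16685496))) (b (b (l 16646328) (l 16660528)) (c (b (l 16720912) (l 16740280)) (b (l 16714736) (l 16685480)))))), by decide +kernel⟩

def k20_pp_123 : ∃ t, chk3 f_pp_123 t 5 2 1 = true :=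
  ⟨(b (a (a (a (b (l 16573000) (l 16573464)) (b (a (l 16628944) (l 16624392)) (a (l 16648944) (l 16539176)))) (b (l 16606704) (l 16633624))) (a (b (l 16564392) (l 16616376)) (b (l 16509096) (l 16630312)))) (a (a (b (a (b (l 16670448) (l 16680384)) (a (l 16660608) (a (l 16653808) (l 16648936)))) (b (a (l 16670192) (a (l 16672376) (l 16659160))) (a (a (l 16700040) (l 16689720)) (a (l 16679400) (a (l 16668320) (l 16660168)))))) (b (b (l 16637192) (l 16637288)) (b (l 16637632) (l 16638528)))) (b (a (l 16620304) (c (l 16538760) (l 16640648))) (a (b (l 16614576) (l 16611096)) (b (l 16600992) (l 16595240)))))), by decide +kernel⟩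

def k21_pp_123 : ∃ t, chk3 f_pp_123 t 3 2 1 = true :=
  ⟨(a (b (a (a (b (l 16443272) (l 16539864)) (b (l 16349720) (l 16482696))) (a (b (l 16294544) (l 16420424)) (b (l 16215080) (l 16352608)))) (a (b (a (b (l 16597960) (l 16603912)) (c (l 16529024) (l 16623688))) (c (b (l 16560680) (l 16494136)) (b (l 16637984) (l 16617880)))) (b (a (c (l 16484920) (l 16589288)) (l 16479840)) (a (b (l 16590408) (l 16582256)) (b (l 16565000) (l 16574952)))))) (b (a (b (a (l 16136688) (l 16091288)) (c (l 16187536) (l 16300576))) (b (a (l 16077600) (l 16092496)) (a (l 16119808) (l 15988728)))) (a (b (c (l 16182192) (l 16437136)) (a (b (l 16507848) (l 16551096)) (b (l 16438768) (l 16497352)))) (a (b (l 16137440) (l 209949804135)) (b (l 16178512) (l 1)))))), by decide +kernel⟩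

def k22_pp_123 : ∃ t, chk3 f_pp_123 t 8 6 1 = true :=
  ⟨(l 3), by decide +kernel⟩

def k23_pp_123 : ∃ t, chk3 f_pp_123 t 36 12 1 = true :=
  ⟨(b (l 3) (l 3)), by decide +kernel⟩

def k24_pp_123 : ∃ t, chk3 f_pp_123 t 37 24 1 = true :=
  ⟨(a (b (a (b (a (b (c (a (l 295983604215) (l 243370268775)) (c (a (l 310479049463) (l 262160712183)) (l 302962769143))) (a (l 3) (c (l 300278565319) (b (l 308868476151) (l 342691220919))))) (b (c (l 16798688) (l 16691368)) (c (a (l 246591487383) (l 16786016)) (c (l 256255107095) (l 258402485895))))) (a (l 3) (a (b (b (c (l 295983592519) (l 323363963383)) (l 3)) (l 3)) (b (c (b (l 16777336) (l 265381941511)) (c (l 271824336535) (l 285782879175))) (b (c (l 301352273255) (l 323363936151)) (l 3)))))) (b (c (l 16784216) (a (l 16683768) (l 16681616))) (a (b (c (l 16770080) (a (l 16669008) (l 16668112))) (c (c (l 217063579495) (l 242833356007)) (c (l 261623763703) (l 277729793943)))) (c (l 16758888) (b (l 16666856) (l 16656880)))))) (a (l 3) (b (a (b (c (c (l 276656279351)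 (l 289541083239)) (c (l 301352143495) (l 312089468327))) (a (l 3) (c (l 316384591687) (l 330880068919)))) (c (b (l 16740960) (a (l 226727160391) (l 16728064))) (b (l 16667992) (c (l 255718134807) (l 275045398119))))) (a (l 3) (b (c (a (l 319605785399) (l 220821548487)) (c (l 305647066663) (l 315847527591))) (c (l 324974458135) (l 340006744183))))))) (b (a (b (l 16724888) (c (l 16751992) (l 16659816))) (b (l 16718504) (l 16699472))) (a (b (c (a (l 16730960) (l 16727216)) (a (l 16641344) (l 16640688))) (c (a (c (l 188072442711) (l 217600324599)) (l 16704816)) (a (b (l 16627408) (a (l 271824221383) (l 16618320))) (l 16622712)))) (b (l 16721952) (c (l 16700568) (l 16622704)))))), by decide +kernel⟩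

def k25_pp_123 : ∃ t, chk3 f_pp_123 t 37 25 1 = true :=
  ⟨(a (l 3) (b (a (b (a (c (b (l 297057147479) (l 330343114423)) (c (l 319605661783) (l 328732388919))) (c (b (l 16688296) (l 178408653943)) (b (l 16609728) (l 244443765543)))) (c (c (l 314237064983) (l 323363797303)) (c (l 332490529847) (l 340543520807)))) (b (c (l 16679384) (l 16606208)) (c (a (l 154249420567) (l 16657896)) (c (l 197735960647) (l 221895085143))))) (a (l 3) (b (a (c (l 328732435287) (l 342154155751)) (c (l 16638176) (l 200420255831))) (a (l 3) (c (l 318531858391) (l 330879779799))))))), by decide +kernel⟩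

def k26_pp_123 : ∃ t, chk3 f_pp_123 t 19 12 1 = true :=
  ⟨(a (b (a (b (b (l 16710496) (l 16692976)) (c (l 16703320) (l 16630792))) (b (a (l 16695480) (l 16690920)) (a (l 16663096) (l 16661432)))) (a (a (b (b (l 16640976) (l 16645024)) (b (c (l 16636576) (l 16578576)) (c (l 16618168) (l 169818536679)))) (b (l 16652744) (c (l 16625968) (l 16575040)))) (b (a (l 16631512) (l 16631440)) (a (l 16602320) (l 16603672))))) (b (c (b (l 16711032) (l 16682520)) (b (l 16648304) (l 16624712))) (b (a (l 16672984) (l 16627176)) (a (l 16605832) (l 16606504))))), by decide +kernel⟩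

def k27_pp_123 : ∃ t, chk3 f_pp_123 t 9 13 1 = true :=
  ⟨(a (l 3) (b (b (a (a (a (c (b (l 276655906631) (l 308331265447)) (b (l 289540713431) (l 319605469399))) (c (l 70497471927) (b (l 16557800) (l 16547632)))) (c (a (l 16593120) (l 16594064)) (a (l 16556768) (l 16560856)))) (a (c (l 16597072) (l 16565352)) (c (l 16601936) (l 16568768)))) (a (a (a (l 3) (c (b (l 16571144) (l 16559360)) (b (l 268065859111) (l 299741231719)))) (c (a (l 16565760) (l 16567856)) (a (b (l 16543432) (l 16535864)) (l 16544424)))) (a (c (l 16572264) (l 16550480)) (c (l 16579360) (l 16555872))))) (a (a (l 3) (b (c (b (l 223505637671) (l 233706151223)) (a (b (l 16529792) (l 278803255271)) (b (l 16534664) (l 16529368)))) (a (l 3) (c (l 240148618791) (c (l 16530944) (l 244443537831)))))) (b (a (c (l 16595456) (a (l 16536864) (l 16541056))) (c (l 16561992) (l 16545960))) (a (c (l 16540392) (c (l 16537536) (l 16523032))) (c (l 16549024) (l 16539472))))))), by decide +kernel⟩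

def k28_pp_123 : ∃ t, chk3 f_pp_123 t 5 6 1 = true :=
  ⟨(a (a (a (b (b (c (l 16676072) (l 16623648)) (c (b (l 16639632) (l 16617488)) (l 16608144))) (a (b (b (l 16587624) (c (l 16584944) (l 16558072))) (b (c (l 16569768) (l 16549616)) (c (l 16557168) (l 16544392)))) (b (b (l 16583376) (l 16573256)) (b (l 16566024) (c (l 16561792) (l 16545952)))))) (b (b (a (l 16637488) (a (l 16631088) (l 16625888))) (a (l 16599000) (a (l 16593512) (b (l 16597248) (l 16581200))))) (b (a (b (l 16578128) (l 16568288)) (a (l 16546840) (b (l 16568440) (l 16558744)))) (a (b (l 16561544) (l 16557312)) (c (a (l 16553640) (l 16545744)) (a (l 16542736) (l 16540560))))))) (b (b (a (l 16639760) (l 16610168)) (a (l 16562800) (l 16578792))) (b (b (a (l 16564376) (l 16560840)) (l 16553248)) (b (l 16503352) (c (l 16544320) (l 16538768)))))) (b (b (a (l 16515472) (l 16562224)) (a (a (l 16573576) (l 16567648)) (l 16554624))) (b (a (l 16525864) (l 16535408)) (a (b (l 16534200) (l 16537464)) (b (l 16534800) (l 16525376)))))),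 by decide +kernel⟩

def k29_pp_123 : ∃ t, chk3 f_pp_123 t 3 6 1 = true :=
  ⟨(a (b (a (b (l 16671312) (a (l 16539776) (l 16547224))) (b (a (l 16561272) (l 16555584)) (a (l 16539640) (l 16522416)))) (a (b (a (l 16537416) (l 16525536)) (a (b (l 16521032) (l 16503192)) (l 136397804295))) (b (a (l 16504096) (l 1)) (l 1)))) (a (a (b (l 415571625831) (l 1)) (l 1)) (l 1))), by decide +kernel⟩

def k30_pp_123 : ∃ t, chk3 f_pp_123 t 1 7 1 = true :=
  ⟨(a (a (a (l 3) (a (l 3) (a (b (b (l 3) (l 3)) (l 3)) (a (b (b (b (c (l 209547066215) (c (l 16533752) (l 208473223159))) (c (l 186461375783) (c (l 16534752) (l 220284395351)))) (b (l 3) (l 3))) (l 3)) (b (b (b (c (l 16539352) (c (l 16542112) (l 16528152))) (c (l 16542800) (c (l 16541968) (l 16529208)))) (b (c (l 16537032) (b (l 16540264) (l 16501688))) (c (l 16521880) (a (l 179482014951) (l 42043048023))))) (b (b (c (l 417852721815) (c (l 16535088) (l 156933468119))) (l 1)) (l 1))))))) (a (a (a (b (b (a (b (c (l 16550216) (l 16542176)) (c (l 16552344)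 (l 16543312))) (b (c (l 16563112) (l 16544328)) (c (l 16558824) (l 16545880)))) (b (a (c (l 16541136) (c (l 16551640) (l 16539744))) (c (l 16543744) (l 16550280))) (a (c (l 16521896) (c (l 16546672) (l 16548584))) (c (l 16522000) (c (l 16544144) (l 16549848)))))) (b (a (b (b (c (l 16503376) (l 16545216)) (l 1)) (l 1)) (l 1)) (l 1))) (b (a (b (b (c (l 16566160) (l 16543392)) (c (l 16560000) (l 16545152))) (b (c (l 16543248) (l 16549288)) (c (l 16519504) (l 16501552)))) (b (b (c (l 16555776) (l 16539112)) (a (l 16553216) (c (l 16547264) (l 16539632)))) (a (b (l 16461664) (c (l 16515272) (l 16537672))) (b (c (l 16531864) (l 16541672)) (c (l 16487872) (l 16532712)))))) (l 1))) (b (b (b (c (l 16544872) (l 16536192)) (c (l 16534408) (l 16535960))) (b (c (l 16516232) (a (l 16535264) (l 16523560))) (c (l 96132929991) (a (l 16522552) (l 1))))) (l 1))) (b (b (a (b (c (l 16531248) (l 16529576)) (c (l 16512992) (l 16518744))) (b (l 16509192) (l 1))) (l 1)) (l 1)))) (l 1)), by decide +kernel⟩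

theorem s31_pp_123 : ∃ t, chk3 f_pp_123 t 37 12 1 = true := ex3_b k24_pp_123 k25_pp_123

theorem s32_pp_123 : ∃ t, chk3 f_pp_123 t 18 12 1 = true := ex3_a k23_pp_123 s31_pp_123

theorem s33_pp_123 : ∃ t, chk3 f_pp_123 t 9 12 1 = true := ex3_a s32_pp_123 k26_pp_123

theorem s34_pp_123 : ∃ t, chk3 f_pp_123 t 9 6 1 = true := ex3_b s33_pp_123 k27_pp_123

theorem s35_pp_123 : ∃ t, chk3 f_pp_123 t 4 6 1 = true := ex3_a k22_pp_123 s34_pp_123

theorem s36_pp_123 : ∃ t, chk3 f_pp_123 t 2 6 1 = true := ex3_a s35_pp_123 k28_pp_123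

theorem s37_pp_123 : ∃ t, chk3 f_pp_123 t 1 6 1 = true := ex3_a s36_pp_123 k29_pp_123

theorem s38_pp_123 : ∃ t, chk3 f_pp_123 t 1 3 1 = true := ex3_b s37_pp_123 k30_pp_123

theorem s39_pp_123 : ∃ t, chk3 f_pp_123 t 72 22 1 = true := ex3_b k14_pp_123 k15_pp_123

theorem s40_pp_123 : ∃ t, chk3 f_pp_123 t 36 22 1 = true := ex3_a s39_pp_123 k16_pp_123

theorem s41_pp_123 : ∃ t, chk3 f_pp_123 t 36 11 1 = true := ex3_b s40_pp_123 k17_pp_123

theorem s42_pp_123 : ∃ t, chk3 f_pp_123 t 18 11 1 = true := ex3_a s41_pp_123 k18_pp_123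

theorem s43_pp_123 : ∃ t, chk3 f_pp_123 t 18 5 1 = true := ex3_b k13_pp_123 s42_pp_123

theorem s44_pp_123 : ∃ t, chk3 f_pp_123 t 18 2 1 = true := ex3_b k12_pp_123 s43_pp_123

theorem s45_pp_123 : ∃ t, chk3 f_pp_123 t 9 2 1 = true := ex3_a s44_pp_123 k19_pp_123

theorem s46_pp_123 : ∃ t, chk3 f_pp_123 t 35 10 1 = true := ex3_b k9_pp_123 k10_pp_123

theorem s47_pp_123 : ∃ t, chk3 f_pp_123 t 17 10 1 = true := ex3_a k8_pp_123 s46_pp_123

theorem s48_pp_123 : ∃ t, chk3 f_pp_123 t 17 5 1 = true := ex3_b s47_pp_123 k11_pp_123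

theorem s49_pp_123 : ∃ t, chk3 f_pp_123 t 68 38 1 = true := ex3_a k3_pp_123 k4_pp_123

theorem s50_pp_123 : ∃ t, chk3 f_pp_123 t 68 19 1 = true := ex3_b s49_pp_123 k5_pp_123

theorem s51_pp_123 : ∃ t, chk3 f_pp_123 t 34 19 1 = true := ex3_a s50_pp_123 k6_pp_123

theorem s52_pp_123 : ∃ t, chk3 f_pp_123 t 34 9 1 = true := ex3_b k2_pp_123 s51_pp_123

theorem s53_pp_123 : ∃ t, chk3 f_pp_123 t 17 9 1 = true := ex3_a s52_pp_123 k7_pp_123

theorem s54_pp_123 : ∃ t, chk3 f_pp_123 t 17 4 1 = true := ex3_b k1_pp_123 s53_pp_123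

theorem s55_pp_123 : ∃ t, chk3 f_pp_123 t 17 2 1 = true := ex3_b s54_pp_123 s48_pp_123

theorem s56_pp_123 : ∃ t, chk3 f_pp_123 t 8 2 1 = true := ex3_a k0_pp_123 s55_pp_123

theorem s57_pp_123 : ∃ t, chk3 f_pp_123 t 4 2 1 = true := ex3_a s56_pp_123 s45_pp_123

theorem s58_pp_123 : ∃ t, chk3 f_pp_123 t 2 2 1 = true := ex3_a s57_pp_123 k20_pp_123

theorem s59_pp_123 : ∃ t, chk3 f_pp_123 t 1 2 1 = true := ex3_a s58_pp_123 k21_pp_123

theorem s60_pp_123 : ∃ t, chk3 f_pp_123 t 1 1 1 = true := ex3_b s59_pp_123 s38_pp_123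

theorem c_pp_123 : CertB 536870912 536870912 0 1230186008 858993459 64424510 3 eng mog cd0q1 cd3q3 pd2 false true true .npn 1 2 3
    ndB0q1 ndB3q3 pcB2 cut_pp_123 Ext.none :=
  certB2 (fam := false) (s1 := true) (s2 := true) (a := 1) (b := 2) (c := 3) (cn := .npn) (n1 := ndB0q1) (n2 := ndB3q3) (pc := pcB2) (cut := cut_pp_123) (xt := Ext.none) (P1 := 536870912) (W1 := 536870912) (P2 := 0) (W2 := 1230186008) (P3 := 858993459) (W3 := 64424510) (N0 := 3) (En := eng) (mo := mog) (C1 := cd0q1) (C2 := cd3q3) (C3 := pd2)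
    rfl (fun _ => rfl) s60_pp_123

noncomputable def f_pp_133 : ℕ → ℕ → ℕ → ℕ → Bool := onCell 1610612736 536870912 0 1230186008 858993459 64424510
    (rowB 3 eng mog cd0q1 cd3q3 pd3 2 false true true .dn 1 3 3 (qsf 536870912 536870912 0 1230186008 3) ndB0q1 ndB3q3 pcB3 Cut.none Ext.none)

def k0_pp_133 : ∃ t, chk3 f_pp_133 t 1 1 1 = true :=
  ⟨(b (b (a (a (a (b (l 16563616) (l 1)) (l 1)) (l 1)) (l 1)) (l 1)) (l 1)), by decide +kernel⟩

theorem c_pp_133 : CertB 536870912 536870912 0 1230186008 858993459 64424510 3 eng mog cd0q1 cd3q3 pd3 false true true .dn 1 3 3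
    ndB0q1 ndB3q3 pcB3 Cut.none Ext.none :=
  certB2 (fam := false) (s1 := true) (s2 := true) (a := 1) (b := 3) (c := 3) (cn := .dn) (n1 := ndB0q1) (n2 := ndB3q3) (pc := pcB3) (cut := Cut.none) (xt := Ext.none) (P1 := 536870912) (W1 := 536870912) (P2 := 0) (W2 := 1230186008) (P3 := 858993459) (W3 := 64424510) (N0 := 3) (En := eng) (mo := mog) (C1 := cd0q1) (C2 := cd3q3) (C3 := pd3)
    rfl (fun _ => rfl) k0_pp_133

noncomputable def f_pp_202 : ℕ → ℕ → ℕ → ℕ → Bool := onCell 0 536870912 1073741824 536870912 858993459 64424510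
    (rowB 3 eng mog cd0q2 cd3q2 pd0 0 false true true .pp 2 0 2 (qsf 0 536870912 1073741824 536870912 0) ndB0q2 ndB3q2 pcB0 Cut.none Ext.none)

def k0_pp_202 : ∃ t, chk3 f_pp_202 t 1 1 1 = true :=
  ⟨(a (l 5) (l 3)), by decide +kernel⟩

theorem c_pp_202 : CertB 0 536870912 1073741824 536870912 858993459 64424510 3 eng mog cd0q2 cd3q2 pd0 false true true .pp 2 0 2
    ndB0q2 ndB3q2 pcB0 Cut.none Ext.none :=
  certB0 (fam := false) (s1 := true) (s2 := true) (a := 2) (b := 0) (c := 2) (cn := .pp) (n1 := ndB0q2) (n2 := ndB3q2) (pc := pcB0) (cut := Cut.none) (xt := Ext.none) (P1 := 0) (W1 := 536870912) (P2 := 1073741824) (W2 := 536870912) (P3 := 858993459) (W3 := 64424510) (N0 := 3) (En := eng) (mo := mog) (C1 := cd0q2) (C2 := cd3q2) (C3 := pd0)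
    rfl k0_pp_202

noncomputable def f_pp_203 : ℕ → ℕ → ℕ → ℕ → Bool := onCell 0 536870912 0 1230186008 858993459 64424510
    (rowB 3 eng mog cd0q2 cd3q3 pd0 0 false true true .up 2 0 3 (qsf 0 536870912 0 1230186008 0) ndB0q2 ndB3q3 pcB0 Cut.none Ext.none)

def k0_pp_203 : ∃ t, chk3 f_pp_203 t 1 1 1 = true :=
  ⟨(b (l 2) (l 3)), by decide +kernel⟩

theorem c_pp_203 : CertB 0 536870912 0 1230186008 858993459 64424510 3 eng mog cd0q2 cd3q3 pd0 false true true .up 2 0 3
    ndB0q2 ndB3q3 pcB0 Cut.none Ext.none :=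
  certB0 (fam := false) (s1 := true) (s2 := true) (a := 2) (b := 0) (c := 3) (cn := .up) (n1 := ndB0q2) (n2 := ndB3q3) (pc := pcB0) (cut := Cut.none) (xt := Ext.none) (P1 := 0) (W1 := 536870912) (P2 := 0) (W2 := 1230186008) (P3 := 858993459) (W3 := 64424510) (N0 := 3) (En := eng) (mo := mog) (C1 := cd0q2) (C2 := cd3q3) (C3 := pd0)
    rfl k0_pp_203

noncomputable def cut_pp_213 : Cut := Cut.of [[⟨0, 1, 0, 67108864⟩, ⟨1, 1, 0, 67108864⟩, ⟨2, 2, 0, 16777216⟩]]

noncomputable def f_pp_213 : ℕ → ℕ → ℕ → ℕ → Bool := onCell 0 536870912 0 1230186008 858993459 64424510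
    (rowB 3 eng mog cd0q2 cd3q3 pd1 0 false true true .pnn 2 1 3 (qsf 0 536870912 0 1230186008 1) ndB0q2 ndB3q3 pcB1 cut_pp_213 Ext.none)

def k0_pp_213 : ∃ t, chk3 f_pp_213 t 1 1 1 = true :=
  ⟨(b (a (l 3) (b (a (l 3) (a (l 3) (b (l 6) (l 3)))) (l 3))) (l 3)), by decide +kernel⟩

theorem c_pp_213 : CertB 0 536870912 0 1230186008 858993459 64424510 3 eng mog cd0q2 cd3q3 pd1 false true true .pnn 2 1 3
    ndB0q2 ndB3q3 pcB1 cut_pp_213 Ext.none :=
  certB0 (fam := false) (s1 := true) (s2 := true) (a := 2) (b := 1) (c := 3) (cn := .pnn) (n1 := ndB0q2) (n2 := ndB3q3) (pc := pcB1) (cut := cut_pp_213) (xt := Ext.none) (P1 := 0) (W1 := 536870912) (P2 := 0) (W2 := 1230186008) (P3 := 858993459) (W3 := 64424510) (N0 := 3) (En := eng) (mo := mog) (C1 := cd0q2) (C2 := cd3q3) (C3 := pd1)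
    rfl k0_pp_213

noncomputable def f_pm_001 : ℕ → ℕ → ℕ → ℕ → Bool := onCell 0 536870912 536870912 536870912 858993459 64424510
    (rowB 3 eng mog cd0q0 cd3q1 pd0 0 false true false .up 0 0 1 (qsf 0 536870912 536870912 536870912 0) ndB0q0 ndB3q1 pcB0 Cut.none Ext.none)

def k0_pm_001 : ∃ t, chk3 f_pm_001 t 1 1 1 = true :=
  ⟨(l 4), by decide +kernel⟩

theorem c_pm_001 : CertB 0 536870912 536870912 536870912 858993459 64424510 3 eng mog cd0q0 cd3q1 pd0 false true false .up 0 0 1
    ndB0q0 ndB3q1 pcB0 Cut.none Ext.none :=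
  certB0 (fam := false) (s1 := true) (s2 := false) (a := 0) (b := 0) (c := 1) (cn := .up) (n1 := ndB0q0) (n2 := ndB3q1) (pc := pcB0) (cut := Cut.none) (xt := Ext.none) (P1 := 0) (W1 := 536870912) (P2 := 536870912) (W2 := 536870912) (P3 := 858993459) (W3 := 64424510) (N0 := 3) (En := eng) (mo := mog) (C1 := cd0q0) (C2 := cd3q1) (C3 := pd0)
    rfl k0_pm_001

noncomputable def f_pm_011 : ℕ → ℕ → ℕ → ℕ → Bool := onCell 0 536870912 536870912 536870912 858993459 64424510
    (rowB 3 eng mog cd0q0 cd3q1 pd1 0 false true false .pnn 0 1 1 (qsf 0 536870912 536870912 536870912 1) ndB0q0 ndB3q1 pcB1 Cut.none Ext.none)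

def k0_pm_011 : ∃ t, chk3 f_pm_011 t 1 1 1 = true :=
  ⟨(l 4), by decide +kernel⟩

theorem c_pm_011 : CertB 0 536870912 536870912 536870912 858993459 64424510 3 eng mog cd0q0 cd3q1 pd1 false true false .pnn 0 1 1
    ndB0q0 ndB3q1 pcB1 Cut.none Ext.none :=
  certB0 (fam := false) (s1 := true) (s2 := false) (a := 0) (b := 1) (c := 1) (cn := .pnn) (n1 := ndB0q0) (n2 := ndB3q1) (pc := pcB1) (cut := Cut.none) (xt := Ext.none) (P1 := 0) (W1 := 536870912) (P2 := 536870912) (W2 := 536870912) (P3 := 858993459) (W3 := 64424510) (N0 := 3) (En := eng) (mo := mog) (C1 := cd0q0) (C2 := cd3q1) (C3 := pd1)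
    rfl k0_pm_011

noncomputable def f_pm_012 : ℕ → ℕ → ℕ → ℕ → Bool := onCell 0 536870912 1073741824 536870912 858993459 64424510
    (rowB 3 eng mog cd0q0 cd3q2 pd1 0 false true false .pnp 0 1 2 (qsf 0 536870912 1073741824 536870912 1) ndB0q0 ndB3q2 pcB1 Cut.none Ext.none)

def k0_pm_012 : ∃ t, chk3 f_pm_012 t 1 1 1 = true :=
  ⟨(l 4), by decide +kernel⟩

theorem c_pm_012 : CertB 0 536870912 1073741824 536870912 858993459 64424510 3 eng mog cd0q0 cd3q2 pd1 false true false .pnp 0 1 2
    ndB0q0 ndB3q2 pcB1 Cut.none Ext.none :=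
  certB0 (fam := false) (s1 := true) (s2 := false) (a := 0) (b := 1) (c := 2) (cn := .pnp) (n1 := ndB0q0) (n2 := ndB3q2) (pc := pcB1) (cut := Cut.none) (xt := Ext.none) (P1 := 0) (W1 := 536870912) (P2 := 1073741824) (W2 := 536870912) (P3 := 858993459) (W3 := 64424510) (N0 := 3) (En := eng) (mo := mog) (C1 := cd0q0) (C2 := cd3q2) (C3 := pd1)
    rfl k0_pm_012

noncomputable def f_pm_022 : ℕ → ℕ → ℕ → ℕ → Bool := onCell 0 536870912 1073741824 536870912 858993459 64424510
    (rowB 3 eng mog cd0q0 cd3q2 pd2 0 false true false .pp 0 2 2 (qsf 0 536870912 1073741824 536870912 2) ndB0q0 ndB3q2 pcB2 Cut.none Ext.none)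

def k0_pm_022 : ∃ t, chk3 f_pm_022 t 1 1 1 = true :=
  ⟨(l 4), by decide +kernel⟩

theorem c_pm_022 : CertB 0 536870912 1073741824 536870912 858993459 64424510 3 eng mog cd0q0 cd3q2 pd2 false true false .pp 0 2 2
    ndB0q0 ndB3q2 pcB2 Cut.none Ext.none :=
  certB0 (fam := false) (s1 := true) (s2 := false) (a := 0) (b := 2) (c := 2) (cn := .pp) (n1 := ndB0q0) (n2 := ndB3q2) (pc := pcB2) (cut := Cut.none) (xt := Ext.none) (P1 := 0) (W1 := 536870912) (P2 := 1073741824) (W2 := 536870912) (P3 := 858993459) (W3 := 64424510) (N0 := 3) (En := eng) (mo := mog) (C1 := cd0q0) (C2 := cd3q2) (C3 := pd2)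
    rfl k0_pm_022

noncomputable def f_pm_023 : ℕ → ℕ → ℕ → ℕ → Bool := onCell 0 536870912 0 1230186008 858993459 64424510
    (rowB 3 eng mog cd0q0 cd3q3 pd2 0 false true false .up 0 2 3 (qsf 0 536870912 0 1230186008 2) ndB0q0 ndB3q3 pcB2 Cut.none Ext.none)

def k0_pm_023 : ∃ t, chk3 f_pm_023 t 1 1 1 = true :=
  ⟨(a (b (l 2) (l 4)) (b (a (l 2) (b (a (l 2) (b (l 16142640) (a (l 2) (l 16193872)))) (a (b (a (l 2) (l 16083416)) (l 4)) (b (a (l 16213120) (l 16180296)) (a (b (l 16156920) (l 4)) (b (l 16130872) (l 16067648))))))) (b (a (l 4) (b (l 4) (l 4))) (l 4)))), by decide +kernel⟩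

theorem c_pm_023 : CertB 0 536870912 0 1230186008 858993459 64424510 3 eng mog cd0q0 cd3q3 pd2 false true false .up 0 2 3
    ndB0q0 ndB3q3 pcB2 Cut.none Ext.none :=
  certB0 (fam := false) (s1 := true) (s2 := false) (a := 0) (b := 2) (c := 3) (cn := .up) (n1 := ndB0q0) (n2 := ndB3q3) (pc := pcB2) (cut := Cut.none) (xt := Ext.none) (P1 := 0) (W1 := 536870912) (P2 := 0) (W2 := 1230186008) (P3 := 858993459) (W3 := 64424510) (N0 := 3) (En := eng) (mo := mog) (C1 := cd0q0) (C2 := cd3q3) (C3 := pd2)
    rfl k0_pm_023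

noncomputable def f_pm_033 : ℕ → ℕ → ℕ → ℕ → Bool := onCell 1610612736 536870912 0 1230186008 858993459 64424510
    (rowB 3 eng mog cd0q0 cd3q3 pd3 2 false true false .pnn 0 3 3 (qsf 0 536870912 0 1230186008 3) ndB0q0 ndB3q3 pcB3 Cut.none Ext.none)

def k0_pm_033 : ∃ t, chk3 f_pm_033 t 1 1 1 = true :=
  ⟨(b (a (a (b (a (a (l 16450064) (l 16395448)) (b (l 16367624) (l 63585308823))) (a (b (a (l 16251312) (l 16234936)) (l 4)) (l 4))) (b (a (a (l 16037608) (l 16166376)) (l 4)) (l 4))) (l 4)) (l 4)), by decide +kernel⟩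

theorem c_pm_033 : CertB 0 536870912 0 1230186008 858993459 64424510 3 eng mog cd0q0 cd3q3 pd3 false true false .pnn 0 3 3
    ndB0q0 ndB3q3 pcB3 Cut.none Ext.none :=
  certB2 (fam := false) (s1 := true) (s2 := false) (a := 0) (b := 3) (c := 3) (cn := .pnn) (n1 := ndB0q0) (n2 := ndB3q3) (pc := pcB3) (cut := Cut.none) (xt := Ext.none) (P1 := 0) (W1 := 536870912) (P2 := 0) (W2 := 1230186008) (P3 := 858993459) (W3 := 64424510) (N0 := 3) (En := eng) (mo := mog) (C1 := cd0q0) (C2 := cd3q3) (C3 := pd3)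
    rfl (fun _ => rfl) k0_pm_033

noncomputable def f_pm_101 : ℕ → ℕ → ℕ → ℕ → Bool := onCell 536870912 536870912 536870912 536870912 858993459 64424510
    (rowB 3 eng mog cd0q1 cd3q1 pd0 0 false true false .npn 1 0 1 (qsf 536870912 536870912 536870912 536870912 0) ndB0q1 ndB3q1 pcB0 Cut.none Ext.none)

def k0_pm_101 : ∃ t, chk3 f_pm_101 t 1 1 1 = true :=
  ⟨(l 4), by decide +kernel⟩

theorem c_pm_101 : CertB 536870912 536870912 536870912 536870912 858993459 64424510 3 eng mog cd0q1 cd3q1 pd0 false true false .npn 1 0 1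
    ndB0q1 ndB3q1 pcB0 Cut.none Ext.none :=
  certB0 (fam := false) (s1 := true) (s2 := false) (a := 1) (b := 0) (c := 1) (cn := .npn) (n1 := ndB0q1) (n2 := ndB3q1) (pc := pcB0) (cut := Cut.none) (xt := Ext.none) (P1 := 536870912) (W1 := 536870912) (P2 := 536870912) (W2 := 536870912) (P3 := 858993459) (W3 := 64424510) (N0 := 3) (En := eng) (mo := mog) (C1 := cd0q1) (C2 := cd3q1) (C3 := pd0)
    rfl k0_pm_101

noncomputable def f_pm_102 : ℕ → ℕ → ℕ → ℕ → Bool := onCell 536870912 536870912 1073741824 536870912 858993459 64424510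
    (rowB 3 eng mog cd0q1 cd3q2 pd0 0 false true false .npp 1 0 2 (qsf 536870912 536870912 1073741824 536870912 0) ndB0q1 ndB3q2 pcB0 Cut.none Ext.none)

def k0_pm_102 : ∃ t, chk3 f_pm_102 t 2 1 1 = true :=
  ⟨(a (l 4) (b (b (l 4) (a (l 4) (b (l 4) (a (l 4) (b (l 4) (l 15476048)))))) (b (a (l 2) (b (a (l 2) (b (l 15438088) (l 2))) (l 2))) (l 2)))), by decide +kernel⟩

def k1_pm_102 : ∃ t, chk3 f_pm_102 t 6 2 1 = true :=
  ⟨(b (a (b (a (l 4) (b (a (l 15853864) (l 15622872)) (c (l 15624088) (l 15600784)))) (a (c (b (l 15624816) (l 15589168)) (l 445298051399)) (b (c (l 15594168) (l 15585960)) (l 15755128)))) (b (a (b (c (l 15625080) (l 15572160)) (c (l 15601496) (l 15562120))) (b (c (l 15611904) (l 15547464)) (c (l 15592344) (l 15537816)))) (a (b (c (l 15574960) (l 15546912)) (l 15663536)) (b (c (l 15567952) (l 15521032)) (c (l 15539808) (l 15498568)))))) (a (b (a (c (b (l 15552976) (l 15516680)) (b (l 15588624) (l 15561448))) (c (l 15533936) (l 15529624))) (a (b (c (l 15480864) (l 15531184))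 (l 15476104)) (c (l 15449320) (l 15472016)))) (b (a (c (l 15498304) (l 15488024)) (c (l 15555552) (l 15455752))) (a (c (l 15438616) (l 15429736)) (c (l 15433504) (l 15392600)))))), by decide +kernel⟩

def k2_pm_102 : ∃ t, chk3 f_pm_102 t 7 4 1 = true :=
  ⟨(a (b (a (b (c (a (l 15612760) (l 15618800)) (a (l 15540432) (l 15541888))) (c (l 15599832) (l 15531256))) (b (c (a (l 15630200) (l 15753376)) (a (l 15549696) (l 15564960))) (c (a (l 15618160) (l 15637128)) (a (l 15541552) (l 15556488))))) (a (b (c (l 15576016) (l 15512048)) (c (l 15547264) (l 15485880))) (c (b (l 15706232) (l 15569368)) (b (l 15525424) (l 15494136))))) (b (a (b (b (a (b (l 15621776) (l 15629664)) (c (l 15743112) (l 15611376))) (a (b (l 15631744) (l 15630480)) (b (l 15660800) (l 15658240)))) (c (a (l 15660912) (l 15812800)) (a (l 15576888) (l 15600128)))) (c (b (a (b (b (l 15798976) (l 15743024)) (l 15737856)) (b (a (b (l 15782168) (l 15772984)) (b (l 15797288) (l 15788120))) (a (l 15761824) (l 15796504)))) (a (b (l 15722864)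 (l 15704504)) (b (a (l 15743168) (l 15755408)) (l 15728344)))) (b (a (b (b (l 15725648) (l 15647224)) (l 15643832)) (b (a (b (l 15679144) (l 15673224)) (b (l 15693176) (l 15687288))) (b (l 15759400) (l 15668824)))) (a (b (l 15632216) (l 15616728)) (b (l 15657048) (l 15639488)))))) (a (b (c (a (l 15630576) (l 15652112)) (a (l 15549288) (l 15568536))) (c (a (l 15594336) (l 15612304)) (l 15520696))) (b (c (a (l 15820496) (b (l 15706312) (l 15683520))) (a (l 15588592) (l 15776664))) (c (a (l 15630256) (b (l 15660168) (l 15636464))) (a (l 15545432) (l 15562776))))))), by decide +kernel⟩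

def k3_pm_102 : ∃ t, chk3 f_pm_102 t 7 5 1 = true :=
  ⟨(a (b (a (b (c (l 15515488) (l 15454712)) (l 15682856)) (c (b (l 15534400) (l 15498456)) (b (l 15457456) (l 15417312)))) (a (c (l 15435912) (l 15365368)) (b (c (l 15463744) (l 15375528)) (c (l 15436992) (l 15339608))))) (b (a (c (b (l 15604688) (l 15522248)) (b (l 15477504) (l 15430976))) (b (a (c (l 15585480) (l 15497216)) (b (c (l 15612592) (l 15524872)) (c (l 15591184) (l 15501216)))) (a (b (l 15504440) (c (l 15533288) (l 15437736))) (b (c (a (l 15563456) (l 15569392)) (l 15475568)) (c (l 15548280) (l 15458960)))))) (a (b (a (l 15617272) (b (l 15450936) (l 15495848))) (a (c (l 15450760) (l 15346536)) (c (l 15473832) (l 15375264)))) (b (a (b (c (l 15515528) (l 15420456)) (l 15461520)) (b (c (l 15539232) (l 15455496)) (c (l 15531416) (l 15452600)))) (a (c (l 15497072) (l 15408480)) (b (c (l 15523808) (l 15447560)) (l 15474568))))))), by decide +kernel⟩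

def k4_pm_102 : ∃ t, chk3 f_pm_102 t 3 3 1 = true :=
  ⟨(a (b (a (b (a (b (l 15445392) (l 15419912)) (c (l 15401528) (l 15417320))) (b (a (l 2) (l 15398944)) (l 2))) (b (a (c (l 15397200) (l 15377216)) (c (l 15393080) (l 15336136))) (a (b (l 15380192) (a (l 2) (l 15385992))) (b (c (l 15388704) (l 15311632)) (a (l 15366160) (l 15344024)))))) (b (a (l 2) (a (l 2) (b (c (l 15395944) (l 15283480)) (l 2)))) (l 2))) (b (a (b (a (b (l 15570680) (c (l 15389904) (l 15292968))) (b (c (l 15415448) (l 15310320)) (c (l 15407392) (l 15293544)))) (a (b (c (l 15388456) (l 15281728)) (c (l 15383248) (l 15256864))) (b (c (l 15402552) (l 15275936)) (c (l 15396712) (l 15249536))))) (b (a (b (c (l 15452264) (l 15348832)) (c (l 15444072) (l 15332064))) (b (c (a (l 15484232) (l 15504368)) (l 15408048)) (c (l 15693008) (l 15385128)))) (a (b (c (l 15436832) (l 15308520)) (c (l 15433512) (l 15281448))) (b (c (a (l 15465424) (l 15486216)) (a (l 15343976) (l 15373496))) (c (a (l 15467672) (l 15494112)) (a (l 15323552)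 (l 15360664))))))) (a (b (a (b (c (l 15377272) (l 15226120)) (c (l 15376520) (a (l 2) (l 15191688)))) (b (c (l 15394168) (b (l 15223296) (l 15214112))) (c (l 15425904) (l 15235816)))) (a (l 2) (c (l 15545608) (l 15456672)))) (b (b (a (c (l 15450816) (l 15279584)) (c (l 15519496) (l 15367016))) (a (l 15564040) (c (l 15573472) (l 15411048)))) (b (a (l 15488288) (c (l 15640232) (l 15469992))) (a (l 15571824) (c (l 15717336) (l 15540816)))))))), by decide +kernel⟩

theorem s5_pm_102 : ∃ t, chk3 f_pm_102 t 7 2 1 = true := ex3_b k2_pm_102 k3_pm_102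

theorem s6_pm_102 : ∃ t, chk3 f_pm_102 t 3 2 1 = true := ex3_a k1_pm_102 s5_pm_102

theorem s7_pm_102 : ∃ t, chk3 f_pm_102 t 3 1 1 = true := ex3_b s6_pm_102 k4_pm_102

theorem s8_pm_102 : ∃ t, chk3 f_pm_102 t 1 1 1 = true := ex3_a k0_pm_102 s7_pm_102

theorem c_pm_102 : CertB 536870912 536870912 1073741824 536870912 858993459 64424510 3 eng mog cd0q1 cd3q2 pd0 false true false .npp 1 0 2
    ndB0q1 ndB3q2 pcB0 Cut.none Ext.none :=
  certB0 (fam := false) (s1 := true) (s2 := false) (a := 1) (b := 0) (c := 2) (cn := .npp) (n1 := ndB0q1) (n2 := ndB3q2) (pc := pcB0) (cut := Cut.none) (xt := Ext.none) (P1 := 536870912) (W1 := 536870912) (P2 := 1073741824) (W2 := 536870912) (P3 := 858993459) (W3 := 64424510) (N0 := 3) (En := eng) (mo := mog) (C1 := cd0q1) (C2 := cd3q2) (C3 := pd0)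
    rfl s8_pm_102

noncomputable def f_pm_112 : ℕ → ℕ → ℕ → ℕ → Bool := onCell 536870912 536870912 1073741824 536870912 858993459 64424510
    (rowB 3 eng mog cd0q1 cd3q2 pd1 0 false true false .dn 1 1 2 (qsf 536870912 536870912 1073741824 536870912 1) ndB0q1 ndB3q2 pcB1 Cut.none Ext.none)

def k0_pm_112 : ∃ t, chk3 f_pm_112 t 1 1 1 = true :=
  ⟨(a (a (l 4) (b (b (l 4) (a (l 4) (b (l 4) (c (l 15490808) (l 15348024))))) (b (a (l 4) (c (b (l 15409368) (a (l 15330672) (l 15327696))) (b (l 15290000) (a (l 15387808) (l 15391344))))) (a (b (l 4) (b (l 4) (c (l 15127872) (l 34591812759)))) (a (b (b (l 15295128) (l 15246200)) (b (l 15196904) (l 15146704))) (b (b (l 15305792) (l 15265760)) (b (l 15224128) (a (l 15171448) (l 15191880))))))))) (b (a (b (l 1) (a (b (l 1) (c (l 15651856) (l 15519680))) (l 1))) (l 1)) (a (b (a (b (c (l 15402952) (l 15466912)) (c (l 15347736) (l 15409008))) (b (c (l 15416488) (l 15456264)) (a (c (l 15382416) (l 15425856)) (c (l 15407800) (l 15429176))))) (b (a (a (c (l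 15279976) (l 15331256)) (b (l 15354080) (l 15329536))) (a (b (l 15382216) (l 15368592)) (c (l 15418008) (l 15399560)))) (b (a (a (l 15261904) (l 15305560)) (a (l 15358888) (c (l 15439272) (l 15386240)))) (a (a (a (l 15214816) (l 15242848)) (l 15289056)) (a (l 15440240) (l 15602056)))))) (b (a (b (l 1) (a (c (l 15433176) (l 15422600)) (l 1))) (l 1)) (a (b (a (b (l 15436592) (c (l 15482696) (l 15415248))) (c (l 15636288) (b (l 15418328) (l 15449680)))) (a (b (c (l 15506200) (l 15441984)) (l 15519352)) (c (l 15586944) (l 15547928)))) (b (a (b (l 1) (c (l 15556280) (l 15500280))) (l 1)) (c (a (l 15632096) (c (l 15669560) (l 15637064))) (a (b (l 15570904) (l 15639488)) (b (l 15595272) (l 15663760)))))))))), by decide +kernel⟩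

theorem c_pm_112 : CertB 536870912 536870912 1073741824 536870912 858993459 64424510 3 eng mog cd0q1 cd3q2 pd1 false true false .dn 1 1 2
    ndB0q1 ndB3q2 pcB1 Cut.none Ext.none :=
  certB0 (fam := false) (s1 := true) (s2 := false) (a := 1) (b := 1) (c := 2) (cn := .dn) (n1 := ndB0q1) (n2 := ndB3q2) (pc := pcB1) (cut := Cut.none) (xt := Ext.none) (P1 := 536870912) (W1 := 536870912) (P2 := 1073741824) (W2 := 536870912) (P3 := 858993459) (W3 := 64424510) (N0 := 3) (En := eng) (mo := mog) (C1 := cd0q1) (C2 := cd3q2) (C3 := pd1)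
    rfl k0_pm_112

noncomputable def cut_pm_113 : Cut := Cut.of [[⟨0, 1, 0, 67108864⟩, ⟨1, 1, 0, 67108864⟩, ⟨2, 2, 0, 16777216⟩]]

noncomputable def f_pm_113 : ℕ → ℕ → ℕ → ℕ → Bool := onCell 536870912 536870912 0 1230186008 858993459 64424510
    (rowB 3 eng mog cd0q1 cd3q3 pd1 0 false true false .nn 1 1 3 (qsf 536870912 536870912 0 1230186008 1) ndB0q1 ndB3q3 pcB1 cut_pm_113 Ext.none)

def k0_pm_113 : ∃ t, chk3 f_pm_113 t 2 1 1 = true :=
  ⟨(b (l 2) (b (a (l 2) (b (l 2) (a (l 2) (b (l 2) (a (l 2) (c (l 15281544) (l 14967032))))))) (a (b (l 2) (l 4)) (b (b (a (a (l 2) (c (l 301818798935) (l 234172531799))) (a (c (l 15092336) (l 14818520)) (c (l 15303368) (l 15023040)))) (a (a (b (l 2) (c (a (l 280880480295) (l 14854712)) (l 216992482743))) (c (l 147737015895) (l 103713095895))) (a (c (l 15162080) (l 14910856)) (c (l 15351720) (l 15095200))))) (a (a (b (b (c (a (l 14855696) (l 14930040)) (l 54991898375)) (c (l 14994768) (l 14799144))) (l 4)) (b (c (b (l 15054024) (b (l 15116048) (l 15152224)))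 (b (l 14825408) (l 14913208))) (c (b (l 15220272) (l 15324576)) (b (l 15023888) (l 15137704))))) (a (b (b (l 15106464) (c (b (l 15270000) (l 15299640)) (l 15046760))) (c (b (l 15347896) (l 15440016)) (b (l 15129576) (l 15230744)))) (c (b (l 15478464) (b (l 15491656) (l 15539608))) (b (l 15172352) (b (l 15248432) (l 15323656)))))))))), by decide +kernel⟩

def k1_pm_113 : ∃ t, chk3 f_pm_113 t 6 1 1 = true :=
  ⟨(b (l 2) (b (b (a (l 2) (b (a (l 2) (l 16088232)) (a (l 15956808) (l 16236944)))) (a (b (a (c (l 15551984) (l 15190400)) (c (l 15841528) (l 15471744))) (a (c (l 15524784) (l 15203288)) (c (l 15773328) (l 15453160)))) (b (a (l 15953288) (l 16250080)) (a (l 15861368) (l 16099512))))) (c (b (a (b (a (l 15518288) (l 15729280)) (a (l 15536072) (l 15711184))) (b (l 16021424) (l 15964656))) (a (b (a (l 15578608) (l 15721192)) (b (l 15681856) (l 15721064))) (b (a (l 15847848) (l 15953496)) (b (l 15898440) (l 15906624))))) (b (a (b (a (l 15236064) (l 15454312)) (a (l 15282016) (l 15469160)))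 (b (a (l 15671576) (l 15875192)) (a (l 15651272) (l 15818048)))) (b (a (a (l 15334672) (l 15492616)) (a (l 15643792) (l 15780752))) (a (b (a (l 15376880) (l 15511752)) (a (l 15427480) (l 15531808))) (a (l 15642240) (l 15754520)))))))), by decide +kernel⟩

def k2_pm_113 : ∃ t, chk3 f_pm_113 t 7 2 1 = true :=
  ⟨(b (a (l 2) (a (l 2) (b (l 6) (b (l 6) (a (c (l 16758784) (l 16718648)) (c (l 16795472) (l 16770136))))))) (a (b (a (l 2) (b (l 2) (c (l 16653240) (l 16347304)))) (a (c (l 16383624) (l 16199232)) (b (c (l 16646320) (l 16434384)) (a (l 16564280) (l 16652408))))) (b (a (b (a (l 2) (l 16599320)) (c (l 16724552) (l 16670792))) (a (b (l 16656208) (l 16786744)) (b (c (l 16804960) (l 16808048)) (c (l 16821072) (l 16806112))))) (a (b (c (l 16735304) (l 16710688)) (a (l 16721616) (l 16783944))) (b (c (l 16688240) (a (l 16825576) (l 16802104))) (c (l 16683872) (a (l 16873296) (l 16791048)))))))), by decide +kernel⟩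

def k3_pm_113 : ∃ t, chk3 f_pm_113 t 7 3 1 = true :=
  ⟨(b (b (a (a (b (l 16366952) (l 16431640)) (b (a (l 16556944) (l 16616864)) (c (l 16613592) (l 16651672)))) (a (b (c (l 16752800) (l 16763216)) (c (l 16784672) (l 16660576))) (c (b (l 16666872) (a (l 16899736) (l 16914800))) (b (a (l 16842440) (l 16758536)) (a (l 16746088) (l 16645720)))))) (a (a (b (l 16363424) (c (l 16435808) (l 16171408))) (b (c (l 16638712) (l 16527320)) (c (l 16559472) (l 16303040)))) (a (b (c (l 16816816) (l 16535768)) (c (l 16590784) (l 16313320))) (b (c (c (l 16936472) (l 16699584)) (a (l 16421488) (l 16332648))) (c (a (l 16548456) (l 16495424)) (a (l 16237152) (b (l 16193760) (l 16138656)))))))) (b (a (c (b (a (l 16247488) (l 16335520)) (a (l 16114288) (l 16179000))) (b (a (l 16042872) (l 16147672)) (a (l 15953880) (l 16043936)))) (c (b (a (l 16358360) (l 16317464)) (a (l 16198784) (l 16177976))) (b (a (l 16168544) (c (l 16149592) (l 16078232))) (a (l 16077904) (c (l 16079856) (l 16046288)))))) (a (b (c (a (l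 16032808) (l 16082280)) (a (l 15893576) (l 15975456))) (c (a (l 15999496) (l 16038592)) (a (l 15849712) (l 15967688)))) (b (c (a (l 16101576) (l 16179168)) (a (l 16104952) (b (l 16037848) (l 16026216)))) (a (b (l 16150216) (l 16137032)) (c (l 16207480) (b (l 16014608) (l 16000928)))))))), by decide +kernel⟩

theorem s4_pm_113 : ∃ t, chk3 f_pm_113 t 7 1 1 = true := ex3_b k2_pm_113 k3_pm_113

theorem s5_pm_113 : ∃ t, chk3 f_pm_113 t 3 1 1 = true := ex3_a k1_pm_113 s4_pm_113

theorem s6_pm_113 : ∃ t, chk3 f_pm_113 t 1 1 1 = true := ex3_a k0_pm_113 s5_pm_113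

theorem c_pm_113 : CertB 536870912 536870912 0 1230186008 858993459 64424510 3 eng mog cd0q1 cd3q3 pd1 false true false .nn 1 1 3
    ndB0q1 ndB3q3 pcB1 cut_pm_113 Ext.none :=
  certB0 (fam := false) (s1 := true) (s2 := false) (a := 1) (b := 1) (c := 3) (cn := .nn) (n1 := ndB0q1) (n2 := ndB3q3) (pc := pcB1) (cut := cut_pm_113) (xt := Ext.none) (P1 := 536870912) (W1 := 536870912) (P2 := 0) (W2 := 1230186008) (P3 := 858993459) (W3 := 64424510) (N0 := 3) (En := eng) (mo := mog) (C1 := cd0q1) (C2 := cd3q3) (C3 := pd1)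
    rfl s6_pm_113

noncomputable def cut_pm_123 : Cut := Cut.of [[⟨0, 1, 0, 67108864⟩, ⟨1, 1, 0, 67108864⟩, ⟨2, 2, 0, 16777216⟩]]

noncomputable def f_pm_123 : ℕ → ℕ → ℕ → ℕ → Bool := onCell 1073741824 536870912 0 1230186008 858993459 64424510
    (rowB 3 eng mog cd0q1 cd3q3 pd2 2 false true false .npn 1 2 3 (qsf 536870912 536870912 0 1230186008 2) ndB0q1 ndB3q3 pcB2 cut_pm_123 Ext.none)

def k0_pm_123 : ∃ t, chk3 f_pm_123 t 2 2 1 = true :=
  ⟨(a (b (a (a (b (l 6) (b (l 6) (a (a (l 16573384) (l 16597096)) (l 16598928)))) (b (a (l 6) (b (l 16641848) (l 16543392))) (a (b (l 6) (l 16597832)) (b (l 16606680) (l 16591792))))) (a (b (a (b (l 16648120) (l 16621232)) (b (l 16638272) (l 16617424))) (c (a (l 16575464) (l 16556848)) (l 16610496))) (b (c (a (l 16593704) (l 16583832)) (l 16645000)) (b (c (l 16544488) (l 16603224)) (l 16381488))))) (a (b (a (b (a (l 16578968) (l 16594272)) (a (l 16597280) (l 16581080))) (b (a (l 16583896) (l 16568464)) (a (l 16560504) (l 16533352)))) (a (b (a (a (l 16591352)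 (l 16579424)) (l 16557808)) (b (a (l 16568320) (l 16529576)) (a (l 16544088) (l 16443176)))) (a (b (l 16523960) (b (l 16480328) (l 16412280))) (b (l 16484704) (a (l 16399584) (l 16365576)))))) (b (a (b (a (l 16546848) (l 16519936)) (a (l 16500880) (l 16464552))) (b (l 16451552) (a (l 16424480) (l 16379544)))) (a (b (a (l 16436520) (l 16386544)) (a (l 16313192) (l 16248696))) (b (c (l 16284272) (l 16336248)) (c (l 16152464) (l 16184128))))))) (b (a (b (a (c (l 16567160) (l 16607728)) (l 16540536)) (a (c (l 16471688) (l 16525104)) (c (l 16398072) (l 16462000)))) (b (c (a (l 16448552) (l 16367824)) (l 16487880)) (a (c (l 16308496) (l 16390560)) (b (l 16301896) (l 16171264))))) (a (b (a (b (l 16396080) (c (l 16277504) (l 16343832))) (b (c (l 16269296) (l 16345472)) (c (l 16186528) (l 16260024)))) (a (b (l 16203056) (l 16077448)) (c (l 16047624) (l 16092912)))) (b (a (b (l 16051608) (l 16142272)) (c (l 16083856) (l 16167800))) (a (b (l 16061016) (l 15966600)) (c (l 15968336) (l 16007304))))))),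 by decide +kernel⟩

def k1_pm_123 : ∃ t, chk3 f_pm_123 t 3 2 1 = true :=
  ⟨(a (b (a (b (a (l 16264368) (l 16010144)) (a (b (l 16208152) (l 16146456)) (c (l 16075336) (l 16187240)))) (b (a (b (l 16193816) (l 16127800)) (l 15985568)) (a (l 15991056) (l 16091080)))) (a (b (a (l 15934656) (l 16063984)) (a (c (l 15962712) (l 15990864)) (b (l 16004792) (l 15952016)))) (b (a (l 16061768) (l 16073280)) (a (l 15996248) (l 16022088))))) (b (a (b (a (l 16090160) (l 16094504)) (l 16002568)) (a (l 16128120) (l 16031992))) (a (b (l 15855408) (a (b (l 16070208) (l 16038464)) (l 16067152))) (a (b (l 16157720) (l 16115064)) (b (l 16192728) (l 1)))))), by decide +kernel⟩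

def k2_pm_123 : ∃ t, chk3 f_pm_123 t 1 6 1 = true :=
  ⟨(a (a (b (a (b (a (a (b (l 16473040) (l 16369448)) (a (l 16359152) (l 16320000))) (c (l 16232848) (l 16231528))) (a (a (l 16190800) (l 16123320)) (c (l 16067464) (l 15869184)))) (b (a (c (l 16108464) (l 16087424)) (c (l 16010920) (l 15972160))) (a (c (l 15937152) (l 15770800)) (l 15837936)))) (a (b (a (c (a (l 15915608) (l 15829472)) (a (l 15619728) (l 15571640))) (c (l 15734864) (l 15523864))) (a (c (c (l 15574440) (l 15443024)) (b (l 15319488) (l 15158512))) (c (b (l 15502448) (l 15363208)) (b (l 15300496) (l 15167560))))) (b (a (c (l 15654472) (l 15490080)) (c (l 15613184) (l 15480608))) (a (c (l 15411936) (l 15248584)) (c (l 15419800) (l 15278984)))))) (b (a (b (a (l 15940320) (l 15881832)) (a (l 15772840) (l 15711696))) (a (b (l 15850280) (l 15712608)) (b (l 15841960) (l 15731600)))) (a (b (a (c (l 15604000) (l 15487744)) (c (l 15614792) (l 15507376))) (a (b (l 15419904) (l 15346672)) (c (l 15501384) (l 15380168)))) (b (a (l 15589984)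 (l 15638368)) (a (b (l 15519448) (l 4)) (l 4)))))) (a (a (b (a (b (l 15852552) (l 15764616)) (b (l 15876256) (l 15810264))) (b (a (l 15699024) (l 4)) (l 4))) (b (b (a (l 15911024) (l 15952864)) (a (l 15861528) (l 4))) (l 4))) (b (a (a (b (l 15991632) (l 1)) (l 1)) (l 1)) (l 1)))), by decide +kernel⟩

def k3_pm_123 : ∃ t, chk3 f_pm_123 t 1 7 1 = true :=
  ⟨(a (a (b (a (b (a (b (c (l 15246328) (l 15013648)) (c (l 15105664) (l 14882776))) (c (b (l 15237344) (l 15122096)) (b (l 15046208) (l 14935824)))) (a (b (c (l 14978080) (l 14764544)) (a (c (l 14860400) (l 14649264)) (c (l 14902080) (l 14710960)))) (b (a (c (l 15008688) (l 14821584)) (l 14954224)) (c (l 14982952) (l 14820416))))) (b (c (a (b (l 15254704) (l 15167088)) (l 15273352)) (a (b (l 15092304) (l 15007640)) (l 15154368))) (a (b (a (l 15007512) (l 4)) (l 4)) (l 4)))) (a (l 4) (l 4))) (b (a (b (a (b (l 15298800) (l 4)) (l 4)) (l 4)) (l 4)) (l 4))) (l 1)), by decide +kernel⟩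

theorem s4_pm_123 : ∃ t, chk3 f_pm_123 t 1 3 1 = true := ex3_b k2_pm_123 k3_pm_123

theorem s5_pm_123 : ∃ t, chk3 f_pm_123 t 1 2 1 = true := ex3_a k0_pm_123 k1_pm_123

theorem s6_pm_123 : ∃ t, chk3 f_pm_123 t 1 1 1 = true := ex3_b s5_pm_123 s4_pm_123

theorem c_pm_123 : CertB 536870912 536870912 0 1230186008 858993459 64424510 3 eng mog cd0q1 cd3q3 pd2 false true false .npn 1 2 3
    ndB0q1 ndB3q3 pcB2 cut_pm_123 Ext.none :=
  certB2 (fam := false) (s1 := true) (s2 := false) (a := 1) (b := 2) (c := 3) (cn := .npn) (n1 := ndB0q1) (n2 := ndB3q3) (pc := pcB2) (cut := cut_pm_123) (xt := Ext.none) (P1 := 536870912) (W1 := 536870912) (P2 := 0) (W2 := 1230186008) (P3 := 858993459) (W3 := 64424510) (N0 := 3) (En := eng) (mo := mog) (C1 := cd0q1) (C2 := cd3q3) (C3 := pd2)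
    rfl (fun _ => rfl) s6_pm_123

noncomputable def f_pm_133 : ℕ → ℕ → ℕ → ℕ → Bool := onCell 536870912 536870912 0 1230186008 858993459 64424510
    (rowB 3 eng mog cd0q1 cd3q3 pd3 0 false true false .dn 1 3 3 (qsf 536870912 536870912 0 1230186008 3) ndB0q1 ndB3q3 pcB3 Cut.none Ext.none)

def k0_pm_133 : ∃ t, chk3 f_pm_133 t 1 1 1 = true :=
  ⟨(b (b (a (a (a (b (l 16614296) (l 1)) (l 1)) (l 1)) (l 1)) (l 1)) (l 1)), by decide +kernel⟩

theorem c_pm_133 : CertB 536870912 536870912 0 1230186008 858993459 64424510 3 eng mog cd0q1 cd3q3 pd3 false true false .dn 1 3 3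
    ndB0q1 ndB3q3 pcB3 Cut.none Ext.none :=
  certB0 (fam := false) (s1 := true) (s2 := false) (a := 1) (b := 3) (c := 3) (cn := .dn) (n1 := ndB0q1) (n2 := ndB3q3) (pc := pcB3) (cut := Cut.none) (xt := Ext.none) (P1 := 536870912) (W1 := 536870912) (P2 := 0) (W2 := 1230186008) (P3 := 858993459) (W3 := 64424510) (N0 := 3) (En := eng) (mo := mog) (C1 := cd0q1) (C2 := cd3q3) (C3 := pd3)
    rfl k0_pm_133

noncomputable def f_pm_202 : ℕ → ℕ → ℕ → ℕ → Bool := onCell 0 536870912 0 536870912 858993459 64424510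
    (rowB 3 eng mog cd0q2 cd3q2 pd0 1 false true false .pp 2 0 2 (qsf 0 536870912 1073741824 536870912 0) ndB0q2 ndB3q2 pcB0 Cut.none Ext.none)

def k0_pm_202 : ∃ t, chk3 f_pm_202 t 4 4 1 = true :=
  ⟨(a (a (l 3) (b (b (b (a (l 3) (b (c (l 16325672) (a (c (l 16232808) (a (l 16163448) (l 16163784))) (l 16204288))) (c (l 16412424) (c (l 16258912) (a (l 16190248) (l 16188848)))))) (c (c (l 116131064423) (l 138142542807)) (c (l 165522976407) (b (l 160154190951) (l 161764858919))))) (b (c (c (l 132774111175) (l 152638293527)) (c (l 176260352743) (l 164986164903))) (l 3))) (l 3))) (b (a (b (c (b (l 16413760) (a (c (l 16409824) (l 16355808)) (l 16391848))) (b (a (l 16224680) (l 16240808)) (a (b (l 16208416) (l 16147208)) (l 16273520)))) (a (b (c (b (l 16396952) (l 16440360)) (b (l 16214032) (l 16322272))) (c (l 16454584) (l 202566924567))) (b (c (l 16385448) (b (l 16298384) (l 16319312))) (b (a (l 16215992) (l 16235488)) (l 16217368))))) (b (c (b (l 16376664) (l 16410464)) (l 16218120)) (a (b (l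 16215368) (c (l 16386336) (l 16250384))) (c (l 16467008) (l 16352288))))) (b (b (c (a (b (l 136532050103) (l 124720879527)) (a (l 16455920) (l 16452408))) (a (c (l 16394496) (l 175186636855)) (a (l 16377216) (l 16402672)))) (a (c (a (l 139753188807) (l 16303968)) (l 217062617527)) (a (l 16252056) (c (l 16342904) (l 16439800))))) (a (a (l 3) (c (c (b (l 16381560) (l 142437781399)) (l 16315864)) (b (l 16377008) (l 213304704263)))) (b (c (l 16298824) (l 16477384)) (c (c (l 16378296) (l 16406752)) (l 16472888))))))), by decide +kernel⟩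

def k1_pm_202 : ∃ t, chk3 f_pm_202 t 5 4 1 = true :=
  ⟨(a (b (b (b (a (c (l 16411520) (l 16306672)) (a (c (l 16442312) (l 16341520)) (l 16430112))) (a (l 16366600) (c (l 16481104) (l 16375016)))) (c (l 16306184) (l 16390632))) (b (b (a (l 16257536) (l 16263792)) (c (a (a (l 16419264) (l 16406144)) (l 16386280)) (l 16253408))) (b (a (a (b (l 16226528) (l 16194256)) (l 16207568)) (c (l 16360072) (l 16473392))) (a (a (b (l 16204032) (l 16193048)) (c (l 16158352) (l 16481816))) (c (l 16340680) (l 16454016)))))) (b (a (b (b (l 16424520) (c (l 16482736) (l 16439824))) (b (c (l 16357232) (l 16444744)) (l 16450640))) (b (c (l 16356000) (l 16523272)) (b (l 16242240) (c (c (l 16288632) (l 16440888)) (l 16520464))))) (c (b (b (a (l 16400752) (b (l 16392800) (l 16367656))) (c (l 16321680) (l 16370272))) (b (c (l 16284168) (l 16332176)) (b (l 16284040) (l 16272368)))) (b (a (l 16491200) (l 16378688)) (b (l 16417504) (l 16388280)))))), by decide +kernel⟩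

def k2_pm_202 : ∃ t, chk3 f_pm_202 t 2 10 1 = true :=
  ⟨(a (a (l 3) (a (b (b (c (c (l 294909032871) (l 16392264)) (l 324973950967)) (l 3)) (l 3)) (c (b (c (b (a (l 131163414951) (l 16336152)) (a (c (l 144048246471) (l 16333976)) (l 16318608))) (b (l 16387144) (l 16369400))) (c (c (a (b (l 148343181751) (l 257864820151)) (b (l 16291808) (a (l 148343139927) (l 16276512)))) (b (l 137068962359) (a (l 16304352) (l 16299792)))) (b (l 16353192) (l 136532145255)))) (b (c (l 188608686359) (l 218673490359)) (c (l 209546709287) (l 207936244055)))))) (b (a (a (b (c (a (l 16355832) (l 16351056)) (l 16466560)) (c (l 16335336) (l 16448000))) (c (b (l 16329496) (a (l 16326232) (l 16311136))) (b (l 16443136) (l 16431800)))) (c (b (c (l 16242192) (l 16289696)) (l 16276024)) (b (l 16374984) (l 16366560)))) (c (a (a (c (b (l 16295144) (a (l 16283112) (l 16277240))) (l 16335728)) (a (l 16282424) (b (l 16301192) (l 16288120)))) (b (l 16249072) (a (l 16265120) (l 16219056)))) (a (a (c (l 16391416) (l 16454664))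 (b (l 16418448) (l 16403456))) (a (l 16380240) (l 16330672)))))), by decide +kernel⟩

def k3_pm_202 : ∃ t, chk3 f_pm_202 t 2 11 1 = true :=
  ⟨(a (a (l 3) (a (l 3) (b (a (l 3) (c (c (c (b (a (l 146195633159) (l 106467181399)) (l 146195618087)) (b (l 16287440) (l 16277104))) (l 135995264135)) (b (l 16470312) (l 208473112071)))) (b (b (c (c (l 156933050455) (l 193977235255)) (l 365239216087)) (l 3)) (l 3))))) (a (c (b (c (a (b (a (c (l 16259952) (l 16281520)) (l 16264080)) (a (c (a (l 16251312) (l 16247928)) (l 16270672)) (l 16252936))) (l 16247808)) (b (l 16308264) (l 16316696))) (c (a (a (c (b (a (l 149953684951) (l 16239376)) (l 146732454599)) (l 140290081063)) (b (l 16243672) (c (l 16226440) (l 16246312)))) (a (l 16231464) (l 16223120))) (a (b (l 16292264) (l 158006865079)) (l 16272112)))) (b (c (l 16345880) (a (l 16460856) (l 16412600))) (a (b (l 211157456279) (l 210620559127)) (l 16354016)))) (c (b (a (b (a (l 16265872) (l 16249736)) (l 16373688)) (l 16275376)) (a (a (l 16236440) (b (a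 (l 16235856) (l 16231880)) (l 16223296))) (a (b (l 16219480) (l 16213152)) (l 16279912)))) (b (a (c (l 16330920) (l 16394144)) (l 16320120)) (a (b (l 16197240) (l 16332504)) (b (l 16313816) (l 16307432))))))), by decide +kernel⟩

def k4_pm_202 : ∃ t, chk3 f_pm_202 t 2 6 1 = true :=
  ⟨(a (l 3) (b (a (c (a (c (b (c (a (b (l 159617337559) (l 3)) (b (l 148879912951) (l 149953650823))) (a (l 167670476519) (l 141363788503))) (a (l 3) (c (b (l 147806147671) (l 160154176903)) (l 191829648647)))) (b (a (l 293835215639) (l 184850408615)) (b (l 192903410567) (l 272360301047)))) (c (b (b (l 16216800) (a (l 16216560) (l 16206952))) (c (a (b (l 16204688) (l 153711724615)) (l 16193760)) (b (l 16217752) (l 16215576)))) (b (l 16256144) (b (l 16248328) (l 16245048))))) (b (a (c (l 210620427783) (b (l 215989091959) (l 216525946615))) (b (l 16338304) (l 16329752))) (a (a (l 3) (c (l 303498898759) (b (l 213841569863) (l 276118584855)))) (b (l 16364640) (b (l 16318360) (l 196124913367)))))) (c (b (a (l 16215448)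 (a (l 16201552) (b (l 16192568) (l 16187624)))) (c (a (l 16186952) (l 16166568)) (l 16215560))) (b (a (l 16316176) (l 16062736)) (a (l 16299784) (l 16278416))))) (a (a (l 3) (b (c (c (a (c (b (l 151564246119) (l 149416741271)) (b (l 16220048) (l 190755858279))) (c (b (l 16192952) (l 16194160)) (l 16209584))) (a (b (l 184313453863) (l 187534682871)) (b (l 16237840) (l 16237248)))) (c (b (l 197735410279) (l 199882893575)) (a (b (l 204714827687) (l 210620299303)) (b (l 16335024) (l 16331256))))) (b (c (a (c (b (l 190755820551) (l 191292694855)) (l 256254142199)) (c (c (l 157469815783) (l 16211776)) (l 177870988583))) (a (c (l 287929609415) (l 266454892055)) (b (l 16345504) (a (l 198809202199) (l 16300280))))) (b (a (l 3) (c (c (a (l 190218938983) (l 16203696)) (l 182702813095)) (b (l 197198584999) (l 2058999799191)))) (l 2))))) (c (a (c (b (a (l 16190528) (l 16179592)) (b (l 16187472) (a (l 16196504) (l 16185264)))) (b (l 16220776) (b (l 16220768) (l 16222632)))) (b (l 16179400) (l 89757118327)))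 (b (a (l 16373368) (l 16265688)) (a (b (l 16285600) (l 199278995511)) (l 16259240))))))), by decide +kernel⟩

def k5_pm_202 : ∃ t, chk3 f_pm_202 t 2 7 1 = true :=
  ⟨(b (a (l 2) (a (l 2) (b (a (l 2) (c (l 1062030348663) (l 16259176))) (l 2)))) (l 2)), by decide +kernel⟩

def k6_pm_202 : ∃ t, chk3 f_pm_202 t 6 4 1 = true :=
  ⟨(a (b (b (c (b (l 16187840) (l 16234256)) (b (l 16326016) (l 16381344))) (c (b (l 16242248) (l 16211688)) (l 16167424))) (b (a (b (c (b (l 16353688) (l 16335784)) (l 16446280)) (c (a (l 16306912) (l 16289344)) (l 16398920))) (c (b (l 16284168) (l 16245160)) (l 16348208))) (b (a (c (l 16226672) (l 16350264)) (a (b (l 16065024) (l 15997864)) (l 16301584))) (b (a (l 16264784) (c (a (l 16180488) (l 16156216)) (l 16260616))) (c (a (l 16200832) (c (l 16128216) (l 16167848))) (l 16270440)))))) (b (b (a (c (b (l 16298376) (l 16275624)) (l 16314352)) (b (c (a (l 16255480) (l 16224976)) (l 16242072)) (c (l 16212616) (l 16221528)))) (b (c (a (l 16256880) (l 16189152)) (l 16000952))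 (c (a (l 16242056) (l 16169960)) (l 16097568)))) (b (a (c (b (l 16218304) (l 16180744)) (l 16260544)) (c (b (l 16144984) (l 16109200)) (l 16163368))) (b (c (a (l 16140400) (l 16070776)) (l 16164176)) (a (b (l 16168376) (b (l 16126760) (c (l 16087024) (l 16165000)))) (c (b (l 16040144) (l 16021976)) (l 16188192))))))), by decide +kernel⟩

def k7_pm_202 : ∃ t, chk3 f_pm_202 t 6 5 1 = true :=
  ⟨(b (c (b (a (b (b (l 16169176) (l 16163976)) (c (l 16137536) (l 16179136))) (b (a (b (l 16084672) (a (l 16093504) (l 16062688))) (b (l 16014528) (l 16008864))) (a (b (l 16198672) (l 16067968)) (c (l 15991744) (l 16017168))))) (a (b (l 16232936) (l 16142136)) (a (b (l 16063224) (l 16055296)) (b (c (l 16130720) (l 16011728)) (a (l 16007376) (l 15971568)))))) (b (a (b (l 16265168) (l 16255824)) (b (a (l 16163816) (l 16070280)) (a (l 16153600) (l 16068152)))) (a (b (l 16247752) (l 16241104)) (a (l 16145712) (b (l 16067160) (l 16060848)))))) (b (a (c (b (l 16136592) (l 16132440)) (l 16128952)) (b (c (a (l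 16048792) (l 15983192)) (l 16096904)) (a (l 16061584) (l 16115992)))) (a (c (b (l 16127848) (l 16123432)) (l 16011600)) (c (a (l 16241400) (b (l 15967592) (l 15954264))) (b (l 16080440) (l 16062648)))))), by decide +kernel⟩

def k8_pm_202 : ∃ t, chk3 f_pm_202 t 14 4 1 = true :=
  ⟨(b (b (a (b (a (b (c (l 16198912) (l 16181880)) (l 16177048)) (b (c (l 16161440) (l 16134920)) (a (c (l 16158144) (l 16135880)) (l 16122648)))) (b (a (l 16162552) (c (l 16130872) (l 16108488))) (c (l 16133920) (l 16120560)))) (b (c (a (l 16107568) (l 16057680)) (a (l 16072928) (l 16013424))) (a (b (l 16072168) (c (l 16077888) (l 16047776))) (c (l 16033040) (l 15992672))))) (a (c (b (l 16114400) (l 16090144)) (b (l 16106504) (l 16089784))) (b (a (c (a (l 16062576) (l 16147600)) (b (l 16032256) (l 16017872))) (c (l 16009224) (l 15971904))) (a (c (l 16025632) (l 16004840)) (c (b (l 15987640) (l 15970408)) (l 15965472)))))) (b (a (c (b (l 16063776) (l 16030168)) (b (l 16070768) (l 16043728))) (c (b (a (l 15998152) (l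 15949840)) (l 15944048)) (b (l 15951688) (l 15929232)))) (b (c (a (l 15994144) (l 15910992)) (a (l 16014032) (l 15902472))) (c (a (b (l 15965440) (l 15947960)) (b (l 15884696) (l 15868136))) (b (l 15936768) (l 15943696)))))), by decide +kernel⟩

def k9_pm_202 : ∃ t, chk3 f_pm_202 t 15 4 1 = true :=
  ⟨(b (b (c (a (b (a (b (l 16010472) (l 15998872)) (b (l 15954528) (l 15943304))) (a (l 15980752) (l 15925840))) (a (b (b (a (l 15910992) (l 15881264)) (l 15885440)) (b (l 15874448) (l 15863216))) (b (a (b (b (l 15853616) (l 15848512)) (l 15840800)) (b (c (a (l 15852528) (l 15838336)) (l 15795584)) (l 15810880))) (a (l 15825064) (l 15795960))))) (a (b (a (l 15949872) (b (l 15886512) (l 15878048))) (a (l 15930368) (l 15864152))) (a (b (b (a (l 15832984) (l 15796096)) (l 15806904)) (l 15794208)) (b (a (b (b (l 15760080) (l 15756664)) (l 15751312)) (b (c (l 15745296) (l 15694592)) (l 15713600))) (a (l 15739744) (l 15702976)))))) (a (c (b (a (l 15955512) (l 15901600)) (a (l 15929096) (l 15876264)))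 (b (l 15876424) (l 15852856))) (c (a (b (l 15845824) (l 15821792)) (b (c (l 15810592) (l 15767832)) (l 15766680))) (a (b (l 15775376) (l 15754336)) (b (l 15704600) (l 15685520)))))) (b (a (b (a (c (a (l 15913496) (l 15890824)) (l 15860648)) (c (l 15849992) (l 15796008))) (c (a (b (l 15878080) (l 15865744)) (a (l 15836952) (l 15810056))) (a (l 15830920) (l 15773120)))) (c (b (a (l 15796840) (l 15743264)) (c (l 15763824) (l 15726768))) (b (l 15697952) (l 15673936)))) (b (a (c (a (l 15842776) (a (l 15805232) (l 15781992))) (a (l 15809832) (l 15741816))) (c (a (l 15746728) (l 15694320)) (l 15650744))) (a (c (b (l 15795720) (l 15780368)) (l 15752088)) (a (c (b (l 15726040) (l 15709760)) (l 15653664)) (c (l 15669176) (l 15590456))))))), by decide +kernel⟩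

def k10_pm_202 : ∃ t, chk3 f_pm_202 t 7 5 1 = true :=
  ⟨(b (b (a (b (c (a (l 15977944) (l 15853480)) (a (l 15968248) (l 15857128))) (c (a (l 15923360) (l 15837464)) (a (l 15962088) (l 15847352)))) (a (b (c (l 15762856) (l 15732472)) (c (l 15743272) (l 15718696))) (c (b (a (l 15689376) (l 15646000)) (a (l 15669088) (l 15617960))) (b (a (l 15628016) (l 15566472)) (a (l 15613240) (l 15538912)))))) (a (b (c (a (l 15914704) (l 15825656)) (l 16070552)) (c (a (l 15910448) (l 15817824)) (l 15883888))) (c (b (a (l 15728088) (l 15625664)) (a (l 15717152) (l 15611520))) (b (a (l 15709552) (l 15563264)) (a (l 15705040) (l 15554552)))))) (a (b (a (b (c (c (l 15897712) (l 15920088)) (l 15968176)) (c (l 16132472) (l 15965592))) (c (b (l 15813696) (l 15812968)) (l 16080160))) (a (b (c (l 15891752) (l 15953064)) (l 15896808)) (c (b (a (l 15829848) (l 15781600)) (l 15828544)) (b (l 15891936) (l 15821064))))) (b (c (b (a (l 15710256) (l 15601720)) (a (l 15707096) (l 15596016))) (a (l 15791496) (l 15571840)))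 (c (b (a (l 15701016) (l 15589784)) (a (l 15687704) (l 15579296))) (b (l 15838960) (l 15614952)))))), by decide +kernel⟩

def k11_pm_202 : ∃ t, chk3 f_pm_202 t 3 3 1 = true :=
  ⟨(b (a (b (a (b (c (a (b (l 16152896) (l 16156032)) (l 16090520)) (a (l 16249856) (l 16175256))) (c (a (b (l 16346064) (l 16240872)) (l 16098072)) (a (b (l 16249440) (l 16246192)) (l 16178456)))) (c (b (a (l 16020552) (l 15943080)) (a (l 16024328) (l 15942240))) (b (l 16046288) (l 16040336)))) (a (c (b (a (b (l 16156344) (l 16156080)) (a (l 16193296) (l 16097384))) (a (l 16156488) (a (l 16136752) (l 16117816)))) (b (a (l 16280624) (a (l 16210184) (l 16170592))) (a (l 16231888) (a (l 16208944) (l 16186368))))) (c (b (a (l 16039936) (l 15955232)) (a (l 16065072) (l 15979688))) (b (l 16049320) (a (l 16121664) (l 16015800)))))) (b (b (a (c (a (l 15858312) (l 15994768)) (a (l 15898312) (l 15784264))) (a (c (b (l 15678592) (l 15662584)) (b (l 15677408) (l 15652352))) (c (l 15564944) (l 15516752)))) (a (c (a (l 15852168)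 (l 15755496)) (l 15821744)) (c (a (b (l 15650280) (l 15650024)) (b (l 15554560) (l 15547672))) (a (l 15621920) (b (l 15496744) (l 15480480)))))) (a (c (b (l 15917584) (l 15835104)) (b (l 15819480) (l 15834224))) (b (a (c (l 15653840) (l 15614312)) (c (a (l 15570640) (l 15516584)) (l 15457552))) (c (l 15722472) (l 15543672)))))) (a (b (a (b (c (a (l 16163000) (l 16136296)) (l 141297088103)) (l 2)) (c (a (b (a (l 16110168) (l 16078392)) (l 16346544)) (b (l 16013296) (l 16054296))) (a (b (a (l 16165720) (l 16126520)) (l 618038348855)) (b (l 16045064) (l 16081680))))) (l 2)) (b (a (c (b (l 15869456) (l 15913432)) (b (l 15862600) (l 15901456))) (c (b (l 15652624) (l 15700688)) (b (l 15568000) (l 15607616)))) (a (b (c (l 15964664) (l 15947712)) (l 2)) (c (b (l 15759296) (l 15825976)) (b (l 15659288) (l 15719960))))))), by decide +kernel⟩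

theorem s12_pm_202 : ∃ t, chk3 f_pm_202 t 7 4 1 = true := ex3_a k8_pm_202 k9_pm_202

theorem s13_pm_202 : ∃ t, chk3 f_pm_202 t 7 2 1 = true := ex3_b s12_pm_202 k10_pm_202

theorem s14_pm_202 : ∃ t, chk3 f_pm_202 t 6 2 1 = true := ex3_b k6_pm_202 k7_pm_202

theorem s15_pm_202 : ∃ t, chk3 f_pm_202 t 3 2 1 = true := ex3_a s14_pm_202 s13_pm_202

theorem s16_pm_202 : ∃ t, chk3 f_pm_202 t 3 1 1 = true := ex3_b s15_pm_202 k11_pm_202

theorem s17_pm_202 : ∃ t, chk3 f_pm_202 t 2 3 1 = true := ex3_b k4_pm_202 k5_pm_202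

theorem s18_pm_202 : ∃ t, chk3 f_pm_202 t 2 5 1 = true := ex3_b k2_pm_202 k3_pm_202

theorem s19_pm_202 : ∃ t, chk3 f_pm_202 t 2 4 1 = true := ex3_a k0_pm_202 k1_pm_202

theorem s20_pm_202 : ∃ t, chk3 f_pm_202 t 2 2 1 = true := ex3_b s19_pm_202 s18_pm_202

theorem s21_pm_202 : ∃ t, chk3 f_pm_202 t 2 1 1 = true := ex3_b s20_pm_202 s17_pm_202

theorem s22_pm_202 : ∃ t, chk3 f_pm_202 t 1 1 1 = true := ex3_a s21_pm_202 s16_pm_202

theorem c_pm_202 : CertB 0 536870912 1073741824 536870912 858993459 64424510 3 eng mog cd0q2 cd3q2 pd0 false true false .pp 2 0 2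
    ndB0q2 ndB3q2 pcB0 Cut.none Ext.none :=
  certB1 (fam := false) (s1 := true) (s2 := false) (a := 2) (b := 0) (c := 2) (cn := .pp) (n1 := ndB0q2) (n2 := ndB3q2) (pc := pcB0) (cut := Cut.none) (xt := Ext.none) (P1 := 0) (W1 := 536870912) (P2 := 1073741824) (W2 := 536870912) (P3 := 858993459) (W3 := 64424510) (N0 := 3) (En := eng) (mo := mog) (C1 := cd0q2) (C2 := cd3q2) (C3 := pd0)
    rfl (fun _ => rfl) s22_pm_202

noncomputable def f_pm_203 : ℕ → ℕ → ℕ → ℕ → Bool := onCell 0 536870912 0 1230186008 858993459 64424510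
    (rowB 3 eng mog cd0q2 cd3q3 pd0 0 false true false .up 2 0 3 (qsf 0 536870912 0 1230186008 0) ndB0q2 ndB3q3 pcB0 Cut.none Ext.none)

def k0_pm_203 : ∃ t, chk3 f_pm_203 t 1 1 1 = true :=
  ⟨(b (l 2) (b (l 2) (a (a (l 3) (a (a (l 3) (b (l 3) (b (l 3) (b (l 3) (a (l 3) (b (c (l 210083557271) (l 221358127223)) (c (a (l 207935984407) (l 16319200)) (l 211157534279)))))))) (a (b (l 3) (b (b (b (l 3) (c (l 235853538215) (l 237464252615))) (b (c (l 205788906935) (l 229948046887)) (c (l 199346410855) (l 219747453095)))) (b (c (b (c (l 16401504) (l 16476648)) (c (l 16367728) (l 16404392))) (b (a (l 224042367687) (l 16488000)) (a (l 204178286295) (l 16464200)))) (c (c (b (l 16331480) (l 16293584)) (b (l 16371368) (l 16336120))) (b (l 107004632983) (l 16431320)))))) (b (l 2) (c (b (b (c (l 16558952) (l 177334622055)) (c (l 16429256) (l 16457360))) (b (c (l 16370472) (l 16405480)) (c (l 16303336) (l 16344392)))) (b (b (b (l 206325562311) (l 16526400)) (b (l 16511768) (l 16494960))) (b (l 16465080)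 (l 16415664)))))))) (b (l 2) (a (b (a (a (b (c (l 16459856) (l 16504904)) (c (l 16421384) (l 16482296))) (b (l 16286328) (l 16428384))) (b (l 2) (c (l 16360616) (l 16417144)))) (a (b (c (a (l 16372336) (l 16355792)) (l 16441584)) (c (l 16287912) (l 16401344))) (b (a (l 16375128) (c (l 16327496) (l 16403160))) (a (c (l 16235560) (l 16392376)) (c (l 16321560) (l 16416384)))))) (a (b (b (l 2) (a (c (l 16330520) (l 16346520)) (l 2))) (b (a (c (l 16345824) (l 16361016)) (l 16317360)) (c (l 16390592) (l 16320192)))) (b (l 2) (c (b (l 16216184) (l 16223056)) (b (l 16090936) (l 101030564823)))))))))), by decide +kernel⟩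

theorem c_pm_203 : CertB 0 536870912 0 1230186008 858993459 64424510 3 eng mog cd0q2 cd3q3 pd0 false true false .up 2 0 3
    ndB0q2 ndB3q3 pcB0 Cut.none Ext.none :=
  certB0 (fam := false) (s1 := true) (s2 := false) (a := 2) (b := 0) (c := 3) (cn := .up) (n1 := ndB0q2) (n2 := ndB3q3) (pc := pcB0) (cut := Cut.none) (xt := Ext.none) (P1 := 0) (W1 := 536870912) (P2 := 0) (W2 := 1230186008) (P3 := 858993459) (W3 := 64424510) (N0 := 3) (En := eng) (mo := mog) (C1 := cd0q2) (C2 := cd3q3) (C3 := pd0)
    rfl k0_pm_203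

noncomputable def cut_pm_213 : Cut := Cut.of [[⟨0, 1, 0, 67108864⟩, ⟨1, 1, 0, 67108864⟩, ⟨2, 2, 0, 16777216⟩]]

noncomputable def f_pm_213 : ℕ → ℕ → ℕ → ℕ → Bool := onCell 0 536870912 0 1230186008 858993459 64424510
    (rowB 3 eng mog cd0q2 cd3q3 pd1 0 false true false .pnn 2 1 3 (qsf 0 536870912 0 1230186008 1) ndB0q2 ndB3q3 pcB1 cut_pm_213 Ext.none)

def k0_pm_213 : ∃ t, chk3 f_pm_213 t 2 2 1 = true :=
  ⟨(l 3), by decide +kernel⟩

def k1_pm_213 : ∃ t, chk3 f_pm_213 t 6 4 1 = true :=
  ⟨(l 3), by decide +kernel⟩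

def k2_pm_213 : ∃ t, chk3 f_pm_213 t 14 4 1 = true :=
  ⟨(b (l 3) (a (l 3) (b (l 3) (a (l 3) (b (l 3) (a (l 3) (b (b (b (l 3) (a (l 3) (a (l 3) (a (l 3) (c (c (b (l 196662538055) (l 189683212919)) (l 193978176775)) (c (l 193978172871) (l 193441298183))))))) (a (l 3) (c (c (c (a (a (l 196125668535) (l 197199405703)) (b (l 190220084807) (l 16784672))) (a (l 196662535271) (l 189146342103))) (a (b (l 195588782247) (l 185388241415)) (b (l 186461985287) (l 16776888)))) (c (c (a (l 195588779895) (l 184314497751)) (l 182167010151)) (a (l 195051903879) (l 180556398151)))))) (b (a (a (l 3) (c (c (c (a (l 195588799351) (l 196125665591)) (l 195588792487)) (b (l 195051912935) (l 184314495895))) (c (a (l 195051898871) (l 193978176999)) (l 194515034279)))) (c (c (a (c (l 189146346023) (l 188072601863)) (l 16784720)) (a (b (l 185925115831) (l 16782856)) (l 16782448))) (c (c (l 183240758135) (l 181630143367)) (a (l 179482657447) (l 16777480))))) (c (c (a (a (c (l 195051927767) (l 195051917991)) (b (l 187535734375)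 (l 16785832))) (l 16785576)) (a (c (a (l 194515045111) (l 185388246775)) (l 183240753863)) (l 16783072))) (c (a (a (l 193978174247) (l 181093276087)) (l 16780416)) (a (a (l 192367556631) (l 177872047351)) (l 16777608)))))))))))), by decide +kernel⟩

def k3_pm_213 : ∃ t, chk3 f_pm_213 t 15 8 1 = true :=
  ⟨(l 6), by decide +kernel⟩

def k4_pm_213 : ∃ t, chk3 f_pm_213 t 30 18 1 = true :=
  ⟨(a (l 6) (l 6)), by decide +kernel⟩

def k5_pm_213 : ∃ t, chk3 f_pm_213 t 120 38 1 = true :=
  ⟨(b (a (l 3) (b (a (l 3) (a (l 3) (b (l 3) (a (l 3) (b (l 3) (b (l 3) (c (l 202031247191) (l 198273144567)))))))) (a (a (l 3) (b (l 3) (a (l 3) (b (l 3) (c (c (l 193441305671) (l 192904431159)) (l 193441299095)))))) (c (c (c (b (a (l 196662534695) (l 195588788151)) (a (l 195588788663) (l 16782104))) (b (a (l 196125662183) (l 193978179047)) (l 194515045959))) (b (c (l 190756946359) (l 189146331927)) (a (l 190220077287) (l 16779928)))) (c (b (a (l 193978172599) (l 186998847863)) (a (l 186998847895) (l 16778072)))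 (c (l 184314483127) (l 182703868439))))))) (a (b (b (l 3) (b (l 3) (a (l 3) (a (l 3) (c (c (l 197736272535) (l 193441303255)) (c (l 192904428663) (l 192904424935))))))) (b (a (l 3) (c (c (c (a (l 197736278903) (l 193978177927)) (l 191293821095)) (a (l 196125656567) (l 190220078375))) (c (l 184851366295) (l 182167008087)))) (a (a (l 3) (c (c (a (l 196125660631) (l 194515049799)) (l 196125657175)) (b (l 193441300983) (l 182703882823)))) (c (a (c (c (l 193978178391) (l 192367563783)) (l 189683207991)) (l 16780496)) (c (l 186461979383) (l 16774176)))))) (a (b (c (c (c (b (a (l 197199406743) (l 194515048023)) (l 195588790375)) (b (a (l 196662534199) (l 192904433367)) (l 193978175879))) (b (a (l 196125655479) (l 190220077415)) (a (l 190220077879) (l 16780344)))) (c (c (l 186998847463) (l 185388227575)) (b (l 182703870055) (l 183777620599)))) (c (c (b (l 16782416) (l 16782632)) (l 16775304)) (c (l 16773216) (l 16765768)))) (c (b (b (c (l 16779256) (l 16774808)) (l 16781096)) (l 16781312)) (b (c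 (l 16775472) (l 16770744)) (l 16776848)))))), by decide +kernel⟩

def k6_pm_213 : ∃ t, chk3 f_pm_213 t 121 38 1 = true :=
  ⟨(b (b (a (b (a (a (l 3) (c (c (c (l 199883755799) (l 199346882039)) (a (l 196662525031) (l 197199397911))) (c (l 196125650759) (l 193441294919)))) (c (a (c (b (l 199883755447) (l 16781064)) (l 193978172199)) (l 16774864)) (c (a (l 16776048) (l 16777488)) (l 187535715527)))) (a (c (c (c (c (l 197736271703) (l 196662529079)) (a (l 199346882471) (l 16780840))) (c (l 193441300759) (l 191293815415))) (a (c (l 195051911223) (l 193978165735)) (c (l 16775184) (l 16775928)))) (c (a (l 16775048) (l 16780152)) (l 16776536)))) (c (a (l 16774664) (l 16779608)) (a (l 16776160) (l 16775744)))) (c (a (a (b (a (c (l 16779488) (l 16779744)) (l 16775240)) (l 16780624)) (l 16780312)) (l 16779888)) (a (a (a (c (l 16776584) (l 16770680)) (l 16776680)) (l 16776336)) (l 16775680)))) (c (a (c (l 16771344) (l 16779680)) (l 16780224)) (a (c (l 16777400) (l 16774976)) (l 16775296)))), by decide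 +kernel⟩

def k7_pm_213 : ∃ t, chk3 f_pm_213 t 60 39 1 = true :=
  ⟨(b (a (c (c (a (b (a (b (c (l 191830695063) (l 190220075303)) (a (l 192904438471) (l 16783408))) (l 16777920)) (a (l 16773408) (l 16783760))) (l 16783208)) (a (b (a (c (l 188609467815) (l 186998853111)) (l 16770608)) (l 16781576)) (l 16780784))) (c (a (b (a (b (l 184314496407) (l 16774152)) (l 16768416)) (l 16779176)) (l 16778200)) (a (b (c (l 182167009751) (l 180556395383)) (l 16776640)) (l 16775464)))) (c (l 16781256) (l 16759624))) (c (a (c (a (l 16784944) (l 16784656)) (l 16771440)) (l 16761408)) (a (c (l 16768344) (l 16765072)) (l 16775048)))), by decide +kernel⟩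

def k8_pm_213 : ∃ t, chk3 f_pm_213 t 61 19 1 = true :=
  ⟨(b (a (c (b (l 16778888) (l 16758360)) (c (l 16765056) (l 16762560))) (c (l 16777664) (l 16772968))) (c (a (l 16780600) (l 16779336)) (c (l 16753656) (l 16749776)))), by decide +kernel⟩

def k9_pm_213 : ∃ t, chk3 f_pm_213 t 31 9 1 = true :=
  ⟨(b (a (l 6) (l 6)) (a (b (c (l 16775280) (l 16771632)) (c (l 16777240) (l 16770672))) (b (l 16771112) (l 16772032)))), by decide +kernel⟩

def k10_pm_213 : ∃ t, chk3 f_pm_213 t 6 10 1 = true :=
  ⟨(l 3), by decide +kernel⟩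

def k11_pm_213 : ∃ t, chk3 f_pm_213 t 12 11 1 = true :=
  ⟨(l 3), by decide +kernel⟩

def k12_pm_213 : ∃ t, chk3 f_pm_213 t 13 22 1 = true :=
  ⟨(l 3), by decide +kernel⟩

def k13_pm_213 : ∃ t, chk3 f_pm_213 t 26 23 1 = true :=
  ⟨(l 3), by decide +kernel⟩

def k14_pm_213 : ∃ t, chk3 f_pm_213 t 27 46 1 = true :=
  ⟨(a (l 3) (b (b (b (b (l 3) (a (l 3) (a (l 3) (a (l 3) (c (l 212768677287) (c (l 206326215591) (l 203641838487))))))) (a (l 3) (a (l 3) (a (l 3) (c (c (l 198810048471) (l 201494399591)) (c (l 196662539063) (a (l 201494343799) (l 185925085031)))))))) (a (l 3) (a (l 3) (c (c (b (l 199883788279) (l 191830725063)) (c (l 193978213543) (l 191830697223))) (c (a (b (l 203104989735) (l 190756945735)) (b (l 184314495159) (l 16783096))) (a (c (l 193978165911) (l 196125590999)) (c (l 179482638903) (l 177872011319)))))))) (b (a (l 3) (c (c (a (b (l 210621206247) (l 202568144679)) (a (l 186998887959) (l 16810240))) (a (c (l 202568147735) (l 200420652407)) (c (l 16789216) (l 16787768)))) (c (c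 (a (l 198273135799) (l 179482662167)) (a (a (l 211158046583) (l 192367564439)) (l 177335162455))) (a (a (b (l 3) (l 207399872375)) (b (l 198809953863) (l 183240723671))) (c (l 175187664759) (l 173040164247)))))) (a (b (l 3) (b (l 3) (a (l 3) (a (l 3) (c (l 205789348791) (c (l 199883762903) (l 203104874695))))))) (a (c (c (b (l 193978210151) (l 188609502023)) (c (l 189683234039) (l 188072610135))) (c (c (l 186461984583) (a (l 189683193047) (l 16778864))) (a (b (l 191830659511) (l 179482624295)) (b (l 16736776) (l 16730304))))) (c (c (l 16812352) (l 16797376)) (c (l 16781584) (l 16735704)))))))), by decide +kernel⟩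

def k15_pm_213 : ∃ t, chk3 f_pm_213 t 27 47 1 = true :=
  ⟨(b (a (l 3) (b (a (a (l 3) (c (c (c (l 203105045383) (l 200420678551)) (c (l 198273182295) (l 196125685703))) (a (b (l 3) (c (l 197736258807) (l 200957367383))) (c (b (l 191830672903) (l 179482633671)) (b (l 186461938039) (l 175187636455)))))) (c (a (c (l 16790760) (a (l 16775776) (l 16797400))) (l 16786056)) (c (c (l 16764328) (l 16768624)) (c (l 16736768) (l 16705520))))) (c (a (c (a (b (l 217063681015) (l 207936856327)) (b (l 190756986295) (l 16790640))) (a (c (l 205789374167) (l 203641877671)) (c (l 184851396663) (l 182703900679)))) (c (l 16795768) (l 16777776))) (a (c (a (c (l 201494359591) (l 202031172791)) (c (l 181630129191) (l 180019495943))) (a (c (l 203641728887) (l 205252286087)) (c (a (l 180019458183) (l 16720576)) (l 174650693863)))) (c (l 16771752) (l 16707704)))))) (b (a (l 3) (c (c (a (a (c (l 200957544615) (l 197736305607)) (l 16792920)) (l 16819984)) (a (a (c (l 195051937159) (l 192367568343)) (l 16776592)) (l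 16799760))) (c (a (a (a (b (l 202031182071) (l 189683175399)) (c (l 181630105047) (l 179482616919))) (l 16752344)) (l 16758560)) (a (a (a (b (l 205789166407) (l 184851257175)) (c (l 176261334695) (l 174113795783))) (l 16692704)) (l 16694192))))) (a (a (l 3) (c (a (l 3) (c (c (l 205789401815) (l 203105013015)) (c (l 200957515767) (l 197736264919)))) (a (l 3) (a (b (l 3) (c (l 206862978951) (l 210084097095))) (b (c (l 198809929831) (l 202031045607)) (c (l 184851329783) (l 179482522999))))))) (c (a (a (c (b (l 182703924823) (l 16813464)) (c (l 16790456) (l 177335163335))) (l 16786912)) (l 16791240)) (a (a (c (c (l 177335124711) (l 174650752983)) (c (l 16714640) (l 16665792))) (b (l 16712696) (l 16706296))) (l 16712552)))))), by decide +kernel⟩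

def k16_pm_213 : ∃ t, chk3 f_pm_213 t 28 10 1 = true :=
  ⟨(b (l 3) (a (l 3) (b (a (l 3) (b (l 3) (a (l 3) (c (c (b (l 185925136087) (l 179482674871)) (b (l 185925129479) (l 180556410903))) (c (b (l 186461993463) (l 181093275127)) (b (l 187535728023) (l 181630137239))))))) (a (b (l 3) (b (a (l 3) (a (l 3) (c (c (b (l 198273174487) (l 193978207575)) (b (l 196662552071) (l 191830715623))) (c (b (l 195051929127) (l 189146350503)) (b (l 193441305655) (l 186461986855)))))) (b (a (l 3) (a (a (l 3) (c (c (l 196125692311) (l 193978199591)) (c (l 191830704615) (l 189683210919)))) (c (c (l 16791936) (l 16791368)) (c (l 16785224) (l 16778744))))) (a (b (l 3) (a (l 3) (a (l 3) (c (c (l 201494400759) (l 200420647575)) (c (l 198810025463) (l 197199400087)))))) (c (c (a (c (l 130090573863) (l 130090568167)) (l 16798256)) (a (c (l 129553691063) (l 129553684695)) (l 16791824))) (a (c (c (l 130090549399) (l 130627414599)) (c (l 131701150535) (l 131701146615))) (c (l 16785008) (l 16777816)))))))) (c (c (b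 (a (b (l 192367590455) (a (l 190220099111) (l 143512330695))) (b (l 155323486727) (l 16796792))) (a (b (a (l 131164300887) (l 16797456)) (l 16799144)) (l 16799888))) (b (a (b (l 191830711495) (a (l 189683220839) (l 144049194887))) (b (l 154786609079) (l 16791080))) (a (b (a (l 132238035351) (l 16791416)) (l 16792152)) (l 16792416)))) (c (b (a (b (l 190756961207) (a (l 189146341975) (l 144049194983))) (b (l 153712859255) (l 16785024))) (a (b (a (l 132774906295) (l 16785016)) (l 16784736)) (l 16784480))) (b (a (b (l 190220081399) (a (l 188609460967) (l 145659785783))) (b (l 153712846279) (l 16778632))) (a (b (a (l 135996107239) (l 16778264)) (l 16776904)) (l 16776080))))))))), by decide +kernel⟩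

def k17_pm_213 : ∃ t, chk3 f_pm_213 t 58 20 1 = true :=
  ⟨(b (a (l 3) (b (l 3) (b (l 3) (b (l 3) (a (l 3) (a (l 3) (c (c (l 193978193751) (l 192367576551)) (l 188609464839)))))))) (a (b (l 3) (a (l 3) (b (l 3) (a (l 3) (c (c (l 186461996599) (l 185388250327)) (b (l 185388240519) (l 176798305735))))))) (b (a (a (l 3) (b (l 3) (c (c (l 193441324999) (l 191293836471)) (b (l 188072595079) (l 178408918391))))) (c (c (b (c (l 178945810679) (l 178408916439)) (a (l 174113965015) (l 16790592))) (b (a (l 192367577127) (l 176261443431)) (b (l 175187703191) (l 16777208)))) (c (c (l 176798307079) (l 176798305175)) (b (l 179482655591) (l 176261428855))))) (c (c (b (a (a (l 192904455447) (l 173040224615)) (l 16791608)) (c (l 168745257895) (l 169282126839))) (a (b (a (l 186461991447) (l 174113962311)) (l 171966476279)) (l 16777968))) (c (a (b (l 176261436503) (l 173040212071)) (l 16784448)) (a (b (l 177872042951) (l 16781304)) (l 16780208))))))), by decide +kernel⟩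

def k18_pm_213 : ∃ t, chk3 f_pm_213 t 59 20 1 = true :=
  ⟨(a (b (b (a (a (l 3) (b (l 3) (b (l 3) (c (c (l 193978180039) (l 193978186455)) (l 193441309031))))) (a (b (l 3) (c (c (b (l 193978185143) (l 183240771479)) (b (l 193441294375) (l 181093283079))) (c (l 189683208951) (l 190756945847)))) (b (c (c (b (l 193978186087) (l 184851382567)) (b (l 193978174263) (l 182167023447))) (c (l 190756948823) (l 191830686743))) (c (c (b (l 16781816) (l 16787536)) (l 16779672)) (c (l 16771904) (l 16779728)))))) (a (c (c (c (b (a (l 195051934151) (l 182703894055)) (l 177872061191)) (b (l 181630149383) (l 177872059719))) (b (a (l 193978187175) (l 178945795351)) (a (l 177872054887) (l 16775808)))) (c (b (a (l 193441311895) (l 178945791591)) (a (l 177872051031) (l 16783472))) (b (l 179482653031) (l 177872041143)))) (c (a (b (c (l 16782888) (l 16775128)) (l 16787720)) (b (l 16786904) (l 16787752))) (b (c (l 16782728) (l 16779744)) (l 16770592))))) (c (b (a (b (c (l 16789944) (l 16786928)) (l 16778888)) (l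 16773392)) (a (l 16769888) (l 16770224))) (b (a (b (c (l 16783736) (l 16780360)) (l 16781792)) (l 16759784)) (a (l 16760296) (l 16780168))))) (b (c (c (b (a (b (a (b (l 186461994215) (l 16786680)) (l 16786488)) (l 16787424)) (l 16786944)) (l 16768112)) (b (a (b (c (l 16782072) (l 16778216)) (l 16784632)) (l 16783880)) (l 16785360))) (c (b (a (b (a (l 16779168) (l 16781296)) (l 16781672)) (l 16780616)) (l 16781400)) (b (a (b (l 178945780327) (l 16778544)) (l 16777168)) (l 16777208)))) (c (b (l 16789224) (l 16791472)) (b (l 16758040) (l 16778528))))), by decide +kernel⟩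

def k19_pm_213 : ∃ t, chk3 f_pm_213 t 29 21 1 = true :=
  ⟨(a (b (a (c (c (b (a (b (l 196662551463) (l 193441329271)) (b (l 171429609463) (l 16793240))) (a (b (l 170892740423) (l 16794848)) (l 16795552))) (b (a (b (l 193441320455) (l 188609484647)) (b (l 173040217399) (l 16789320))) (a (b (l 171966476839) (l 16790152)) (l 16790360)))) (b (c (a (b (l 190220089175) (l 183777639671)) (b (l 174650824967) (l 16785176))) (a (b (l 187535728535) (l 181093268679)) (b (l 176261429479) (l 16780800)))) (b (a (c (l 173577083255) (l 170892718343)) (l 16782344)) (c (l 16774480) (l 16768664))))) (a (b (c (c (l 16783360) (l 16789448)) (c (l 16784776) (l 16779840))) (c (l 16772976) (l 16781008))) (b (c (l 16771456) (l 16760368)) (c (l 16794784) (l 16780056))))) (c (b (a (c (l 16777392) (l 16770704)) (l 16797128)) (c (l 16783192) (l 16773232))) (b (a (c (l 16784560) (l 16756064)) (l 16758024)) (c (l 16762624) (l 16751368))))) (c (b (a (b (l 16793304) (l 16795848)) (l 16795296)) (a (l 16800296) (l 16801584)))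 (a (b (b (l 16758856) (l 16778664)) (l 16776304)) (b (l 16777272) (l 16753672))))), by decide +kernel⟩

def k20_pm_213 : ∃ t, chk3 f_pm_213 t 15 10 1 = true :=
  ⟨(a (b (a (b (c (a (b (l 16784896) (l 16786768)) (l 16784824)) (a (c (l 16758272) (l 16753608)) (l 16774752))) (c (a (l 16790104) (l 16789504)) (c (l 16758328) (l 16750672)))) (c (b (l 16783288) (l 16788064)) (b (l 16772184) (l 16771640)))) (b (a (c (l 16795696) (l 16774520)) (c (l 16794504) (l 16770824))) (a (c (l 16802696) (l 16772304)) (l 16692368)))) (a (b (c (l 16782840) (l 16769336)) (c (l 16796872) (l 16767808))) (b (c (l 16780064) (l 16769000)) (c (l 16794864) (l 16767368))))), by decide +kernel⟩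

def k21_pm_213 : ∃ t, chk3 f_pm_213 t 112 22 1 = true :=
  ⟨(b (l 3) (a (b (l 3) (c (b (b (l 3) (c (l 215989909159) (l 210621181623))) (c (c (l 200957552775) (l 198810059351)) (c (l 196662565639) (l 195051932087)))) (c (c (b (l 208473704199) (a (l 204178737399) (l 188072602615))) (b (l 206863081719) (a (l 202568114119) (l 186461979223)))) (c (b (l 205252458967) (a (l 200957490583) (l 184851353063))) (b (l 204178706903) (a (l 199346866775) (l 183240726967))))))) (b (b (l 3) (c (c (c (l 213842428519) (l 210621194503)) (c (l 207936841655) (a (l 211694938999) (l 201494392711)))) (c (a (b (l 3) (l 207936829159)) (c (l 198810028695) (l 196125664423))) (b (c (l 202568105943) (l 201494354439)) (c (l 191830686871) (l 190756924279)))))) (b (c (c (c (l 191293860071) (l 190220110135)) (c (l 190756964791) (a (l 191830716967) (l 16792168)))) (c (a (c (l 190220094071) (l 188609470903)) (b (l 16784056) (l 16783688))) (b (c (l 185925097063) (l 184314471431)) (c (l 179482643431) (l 177872016887))))) (c (c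 (l 16794136) (a (l 16774368) (l 16795880))) (c (a (l 16773064) (l 16783096)) (a (l 16760640) (l 16769632)))))))), by decide +kernel⟩

def k22_pm_213 : ∃ t, chk3 f_pm_213 t 226 22 1 = true :=
  ⟨(b (a (l 3) (b (l 3) (b (l 3) (c (c (b (l 218137407767) (l 198273175703)) (c (l 209547462823) (l 206863100343))) (c (b (l 208473702103) (a (l 205252475495) (l 187535736247))) (b (l 204715593111) (a (l 200420626695) (l 183777627847)))))))) (b (b (c (c (a (b (l 215453055495) (l 193441334583)) (b (l 188609496679) (l 16803368))) (a (b (l 210084330343) (l 191830712935)) (b (l 186998875079) (l 16794088)))) (c (c (a (l 201494383207) (l 183777640807)) (c (l 188609474295) (l 188072598615))) (c (a (b (l 202568107319) (l 187535724343)) (l 179482659799)) (a (b (l 200957485431) (l 186998834487)) (l 179482636983))))) (c (c (c (l 16796592) (l 16791712)) (c (l 183240780295) (l 181630159831))) (c (a (b (l 181630152359) (l 16783992)) (l 16783760)) (a (c (l 16776160) (l 16770648)) (l 16772072))))) (c (b (a (l 16781424)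 (l 16781072)) (l 16782552)) (b (c (l 16783248) (l 16770192)) (l 16754104))))), by decide +kernel⟩

def k23_pm_213 : ∃ t, chk3 f_pm_213 t 227 22 1 = true :=
  ⟨(b (a (b (l 3) (b (b (l 3) (c (c (a (l 222432374375) (l 207936853847)) (a (l 213305554487) (l 204178747335))) (c (b (l 205789346631) (l 192904444823)) (b (l 202031234295) (l 190220080167))))) (c (c (c (l 189146373287) (l 188609498007)) (c (l 188072621847) (l 186998874183))) (c (b (a (l 189683220711) (l 16784720)) (l 16784512)) (b (b (l 184314499943) (l 178408918599)) (l 16774968)))))) (b (a (l 3) (b (l 3) (b (l 3) (c (c (l 214916175015) (a (l 211694941143) (l 206326231687))) (c (b (l 207936830631) (l 191830705191)) (b (l 203641848599) (l 189146337655))))))) (b (c (c (c (l 190756986215) (a (l 205252497463) (l 16793448))) (b (a (l 206326231255) (l 186462007559)) (a (l 16792928) (l 16793144)))) (b (c (c (l 189683222055) (l 188609472407)) (c (l 186998854519) (l 185388235351))) (c (a (l 16784824) (l 16784648)) (a (l 16776280) (l 16775696)))))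 (c (c (l 16802704) (l 16793768)) (c (l 16784304) (l 16774320)))))) (b (c (b (c (l 16783672) (l 16773584)) (l 16780560)) (b (c (l 16783872) (l 16772600)) (c (l 16783216) (l 16770144)))) (c (l 16773016) (c (l 16782128) (l 16766184))))), by decide +kernel⟩

def k24_pm_213 : ∃ t, chk3 f_pm_213 t 114 22 1 = true :=
  ⟨(c (b (b (c (a (c (b (b (c (l 201494402567) (l 200957528839)) (a (l 221895491815) (l 191293859175))) (a (b (l 197736303111) (l 189146376263)) (l 16801968))) (b (b (c (l 200420655079) (l 199883781271)) (a (l 218137389495) (l 190756982935))) (a (b (l 196125684007) (l 188609499719)) (l 16798336)))) (b (a (b (c (l 16794680) (l 16791544)) (l 16799488)) (l 16799936)) (l 16801768))) (a (c (b (b (c (l 199346907415) (l 198810033527)) (a (l 214916157911) (l 189146364023))) (a (b (l 194515064695) (l 187535752055)) (l 16794592))) (b (b (c (l 198273159591) (l 197736285623)) (a (l 212231797063) (l 187535744279))) (a (b (l 192904445191) (l 185925132615)) (l 16780248)))) (b (a (a (c (l 16792416)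 (l 16787696)) (l 16792232)) (l 16792520)) (l 16793304)))) (b (a (a (c (l 16790936) (b (l 16792984) (l 16793472))) (l 16782448)) (l 16778368)) (c (l 16784696) (l 16773960)))) (b (c (l 16788744) (l 16775592)) (l 16765400))) (b (b (c (a (c (b (b (c (l 208473700759) (l 197199408471)) (a (l 209547436039) (l 186461995575))) (a (b (l 191830696423) (l 184314512311)) (l 16776288))) (b (b (c (l 196662534359) (l 196125654999)) (a (l 207399935255) (l 184851376775))) (a (b (l 190756947463) (l 182703893095)) (l 16782696)))) (b (b (c (l 16785440) (l 16783064)) (l 16784688)) (l 16784320))) (a (c (b (a (b (l 3) (l 205252444807)) (b (l 191293817447) (l 183240758743))) (a (b (l 189683208791) (l 180556403591)) (l 16778520))) (b (a (l 204715588087) (b (l 190756944967) (l 181630140215))) (a (b (l 188609459463) (l 16776192)) (l 16774224)))) (b (a (c (l 16779288) (l 16775392)) (l 16776368)) (l 16774840)))) (b (b (a (c (l 16784520) (l 16775360)) (l 16778664)) (c (l 16773472) (l 16762712))) (c (l 16783544) (l 16771504))))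 (b (c (l 16782616) (l 16767888)) (l 16730080)))), by decide +kernel⟩

def k25_pm_213 : ∃ t, chk3 f_pm_213 t 115 22 1 = true :=
  ⟨(b (a (c (b (b (l 16781608) (l 16778080)) (l 16780824)) (b (c (l 16784056) (l 16773952)) (l 16755456))) (b (c (l 16778584) (l 16757048)) (c (l 16803304) (l 16775352)))) (c (b (l 16785640) (l 16811008)) (b (l 16751928) (l 16769512)))), by decide +kernel⟩

def k26_pm_213 : ∃ t, chk3 f_pm_213 t 29 22 1 = true :=
  ⟨(a (a (b (c (b (l 16780600) (l 16805488)) (b (l 16755664) (l 16773968))) (c (l 16791096) (l 16748272))) (b (c (l 16784928) (l 16731696)) (c (l 16815000) (l 16746584)))) (b (c (l 16787848) (c (l 16781080) (l 16761120))) (c (l 16818480) (l 16765360)))), by decide +kernel⟩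

def k27_pm_213 : ∃ t, chk3 f_pm_213 t 14 23 1 = true :=
  ⟨(a (c (b (a (a (c (b (a (b (b (l 189683240375) (l 16786712)) (l 16788848)) (l 16790544)) (l 16795040)) (b (a (b (c (l 186462007367) (l 184851384455)) (l 16796552)) (l 16776216)) (l 16777792))) (b (c (l 16795144) (l 16798968)) (l 16770176))) (b (l 16750952) (l 16776896))) (a (b (c (l 16784256) (l 16781480)) (a (l 16774664) (l 16822000))) (l 16743072))) (b (b (c (a (a (a (b (a (b (l 187535722231) (l 16783480)) (l 16783192)) (l 16782544)) (l 16761064)) (l 16780832)) (l 16779152)) (a (a (a (b (a (c (l 182166995975) (l 180556369303)) (l 16769904)) (l 16766408)) (l 16745112)) (l 16761728)) (l 16754408))) (a (a (a (c (l 16781040) (l 16745848)) (l 16749088)) (l 16746256)) (l 16741656))) (a (c (b (l 16756464) (l 16766672)) (b (l 16722128) (l 16691688))) (c (l 16773688) (l 16720816))))) (c (b (a (l 16803104) (l 16830088)) (a (l 16836120) (l 16843448))) (b (c (l 16755768) (l 16719576)) (a (l 16729456) (l 16747016))))), by decide +kernel⟩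

def k28_pm_213 : ∃ t, chk3 f_pm_213 t 15 11 1 = true :=
  ⟨(b (c (a (b (a (l 16811272) (l 16812320)) (l 16781208)) (b (l 16811592) (l 16825016))) (a (a (a (l 16729512) (l 16765152)) (l 16763912)) (b (l 16764336) (l 16760840)))) (a (c (b (l 16835888) (l 16850904)) (a (l 16645208) (l 16748616))) (c (l 16743576) (b (l 16754168) (l 16744448))))), by decide +kernel⟩

def k29_pm_213 : ∃ t, chk3 f_pm_213 t 2 6 1 = true :=
  ⟨(l 3), by decide +kernel⟩

def k30_pm_213 : ∃ t, chk3 f_pm_213 t 12 12 1 = true :=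
  ⟨(l 3), by decide +kernel⟩

def k31_pm_213 : ∃ t, chk3 f_pm_213 t 26 24 1 = true :=
  ⟨(b (l 3) (a (l 3) (a (l 3) (a (c (b (l 3) (b (l 3) (c (b (l 221358488663) (l 189146221719)) (b (l 215989692871) (l 184851168631))))) (b (l 3) (b (l 3) (c (b (l 210084028535) (l 181093047319)) (b (l 198272845527) (l 177871743095)))))) (b (a (l 3) (b (l 3) (b (l 3) (c (c (l 214379176567) (l 205789183815)) (c (l 195051732119) (l 188609193191)))))) (b (c (c (c (l 188072541095) (l 185388139591)) (c (l 183240609719) (l 181093080551))) (c (c (l 178945552103) (l 177334939191)) (c (l 175724284423) (l 174113630727)))) (b (c (c (l 174650692999) (l 169818772743)) (c (l 164986931223) (l 161228750743))) (c (c (l 16725192) (l 16679608)) (c (l 16635360) (l 16592472)))))))))), by decide +kernel⟩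

def k32_pm_213 : ∃ t, chk3 f_pm_213 t 26 50 1 = true :=
  ⟨(b (a (l 3) (a (a (l 3) (c (c (b (l 228337774967) (a (l 227800863207) (l 174113774311))) (b (l 222432114679) (a (l 220821465175) (l 169818728983)))) (c (b (l 216526456039) (a (l 207936557751) (l 166060618055))) (b (l 209010186327) (a (l 199883427111) (l 162839333559)))))) (a (c (b (c (b (l 181093118519) (l 173040041767)) (b (l 176261199175) (l 168208122999))) (c (l 16701000) (l 16659048))) (b (c (b (l 172503102375) (l 163913152487)) (c (l 167134313031) (l 165523662423))) (c (l 16618048) (l 16578008)))) (b (c (c (l 16716312) (l 16671000)) (b (l 16650176) (l 16602744))) (c (l 16681944) (l 16594536)))))) (a (a (l 3) (a (l 3) (b (l 3) (b (l 3) (c (l 241222521239) (l 217600165223)))))) (c (c (a (a (b (l 229948336487) (l 166060667447)) (b (l 166060689111) (l 16675552))) (b (l 16691320) (l 16680016))) (a (a (b (l 222968942471) (l 162302502567)) (b (l 161228777383) (l 16637360))) (b (l 16648200) (l 16637208)))) (c (a (a (b (l 212231491239)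 (l 159618097031)) (c (l 156396902583) (l 154786265847))) (a (l 16602064) (l 16599456))) (a (a (b (l 202030901575) (l 156933730311)) (c (l 152638773687) (l 151564997399))) (b (l 16565208) (l 16554784))))))), by decide +kernel⟩

def k33_pm_213 : ∃ t, chk3 f_pm_213 t 26 51 1 = true :=
  ⟨(a (a (a (l 3) (b (l 3) (b (l 3) (c (c (l 243369999095) (l 233169402567)) (c (l 222431932055) (l 210620718999)))))) (c (c (b (b (l 182703647303) (l 173576825847)) (b (l 163913128519) (l 16628696))) (b (b (l 189682907127) (l 169818672775)) (b (l 160154978519) (l 16599792)))) (b (b (a (l 3) (c (l 170355487383) (l 167671136343))) (c (c (l 168208019191) (l 167134249447)) (a (l 212231388871) (l 16554040)))) (c (c (l 155323109991) (l 154249342199)) (b (a (l 164986698087) (l 16545000)) (l 16539080)))))) (a (c (b (c (b (l 16663472) (l 16653016)) (b (l 16627168) (l 16617032))) (c (l 16637696) (l 16602136))) (b (b (c (l 16591112) (l 16576256)) (a (l 16565736) (l 16561152))) (c (l 16566760) (l 16531576)))) (c (b (c (l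 16663360) (l 16620992)) (l 16620880)) (b (c (l 16579648) (l 16539392)) (l 16539248))))), by decide +kernel⟩

def k34_pm_213 : ∃ t, chk3 f_pm_213 t 108 24 1 = true :=
  ⟨(a (b (a (l 3) (a (l 3) (b (l 3) (b (l 3) (b (l 3) (b (l 3) (c (l 216526656407) (l 198809873607)))))))) (c (c (c (b (b (l 196125665479) (l 183240728087)) (l 16751008)) (b (b (a (l 213305481671) (l 188609414983)) (l 180556324759)) (l 16726216))) (c (b (b (a (l 211157948615) (l 197736170583)) (l 177871922119)) (l 16701808)) (b (b (l 197736128199) (l 175724409559)) (l 16677800)))) (c (c (b (b (l 196125467239) (l 173576908839)) (l 16654200)) (b (b (l 193977936279) (l 171429379991)) (l 16631008))) (c (b (b (l 192367277159) (l 169281851511)) (l 16608240)) (b (b (l 185387956391) (l 167671195671)) (l 16585904)))))) (b (c (b (l 3) (a (b (l 3) (b (c (l 206863097655) (l 203104896135)) (c (l 188609432071) (l 184314400503)))) (c (b (b (l 206863129383) (l 194515041287)) (b (l 183777610311) (l 16785920))) (b (b (l 205252407751) (l 189683137943))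 (b (l 178408830199) (l 16732264)))))) (b (l 3) (c (c (b (l 199883633815) (a (l 193978008439) (l 16696352))) (b (l 198272949527) (a (l 188072421863) (l 16671008)))) (c (b (l 196125416391) (l 176798087559)) (b (l 194514755287) (l 175187428151)))))) (c (b (b (c (c (l 16788360) (l 16761568)) (c (l 16735240) (l 16709392))) (c (l 16762256) (l 16709960))) (b (l 16723432) (l 16711024))) (b (b (c (c (l 16684024) (l 16659152)) (b (l 16625736) (l 16619872))) (b (l 16679960) (l 16632088))) (b (l 16644168) (l 16611384)))))), by decide +kernel⟩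

def k35_pm_213 : ∃ t, chk3 f_pm_213 t 109 24 1 = true :=
  ⟨(b (a (b (a (b (l 3) (b (l 3) (c (c (l 202031278279) (l 196662488791)) (c (l 194514962183) (l 196662342839))))) (b (a (l 3) (b (l 3) (b (l 3) (c (l 199346839703) (c (l 192904368247) (l 16663472)))))) (c (c (b (l 195051956535) (l 16790328)) (b (l 189683159255) (l 16760744))) (c (c (l 182703815207) (l 180019407927)) (c (l 177335001303) (l 175187467095)))))) (b (c (c (b (a (l 189146349367) (l 16811344)) (l 16782656)) (b (a (l 184314440087) (l 16754744)) (l 16747408))) (c (c (a (l 177871952439) (l 16710216)) (l 173040063927)) (c (l 170892529879) (l 168208125623)))) (c (c (l 16793864) (l 16737912)) (c (l 16684072) (l 16632464))))) (b (b (c (c (c (l 187535774951) (l 185925149847)) (c (a (l 189146346391) (l 16794608)) (l 185925066695))) (c (a (b (l 190756905975) (l 179482606135)) (b (l 16725536) (l 16719552))) (c (a (l 182166863543) (l 16681024)) (l 175724362439)))) (c (c (a (l 16792032) (l 16815432)) (a (l 16765848) (l 16768232))) (c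 (a (l 16709600) (l 16710512)) (a (l 16655712) (l 16655224))))) (c (b (c (l 16814000) (l 16754704)) (l 16770824)) (b (b (l 16673248) (l 16666912)) (l 16657376))))) (c (b (c (b (l 16783952) (l 16770720)) (b (l 16726824) (l 16713920))) (c (l 16750912) (l 16694576))) (b (c (a (l 16665432) (l 16665560)) (b (l 16619112) (l 16606752))) (b (l 16620224) (l 16607824))))), by decide +kernel⟩

def k36_pm_213 : ∃ t, chk3 f_pm_213 t 54 25 1 = true :=
  ⟨(c (b (b (a (c (l 16716296) (l 16666656)) (l 16696744)) (c (l 16695744) (l 16643624))) (c (l 16659896) (l 16608568))) (b (b (a (c (l 16618656) (l 16572416)) (l 16589392)) (c (l 16593360) (l 16545144))) (c (b (l 16570416) (l 16548336)) (b (l 16522840) (l 16501440))))), by decide +kernel⟩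

def k37_pm_213 : ∃ t, chk3 f_pm_213 t 55 12 1 = true :=
  ⟨(b (c (b (b (a (c (b (l 16797120) (l 16800416)) (c (l 16796432) (l 16765160))) (l 16773696)) (a (c (l 16797552) (l 16754688)) (l 16778848))) (c (b (l 16797496) (l 16768424)) (b (l 16730944) (l 16702472)))) (b (b (a (c (c (l 16734480) (l 16704424)) (c (l 16675016) (l 16646280))) (b (l 16698968) (l 16685320))) (a (c (l 16693248) (l 16634448)) (l 16664000))) (c (b (l 16666864) (l 16639000)) (b (l 16605616) (l 16578440))))) (c (b (c (l 16725576) (l 16660536)) (c (l 16671464) (l 16607672))) (b (c (l 16598072) (l 16538704)) (c (l 16546696) (l 16489176))))), by decide +kernel⟩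

def k38_pm_213 : ∃ t, chk3 f_pm_213 t 7 12 1 = true :=
  ⟨(a (c (b (a (b (a (b (l 16761664) (l 16782384)) (l 16773312)) (c (l 16771616) (l 16745504))) (b (l 16725968) (l 16762616))) (a (b (a (l 16708752) (l 16731472)) (a (l 16647696) (l 16661008))) (b (l 16783432) (l 16693760)))) (b (a (b (a (b (l 16698328) (l 16666912)) (l 16672888)) (a (c (l 16656208) (l 16582480)) (l 16620152))) (b (c (l 16764376) (l 16668112)) (l 16612544))) (a (b (a (l 16557592) (l 16550312)) (a (l 16501056) (l 16486752))) (b (l 16546784) (l 16469640))))) (a (b (c (b (l 16865720) (l 16864392)) (c (l 16753520) (l 16644544))) (c (l 16624696) (b (l 16562400) (l 16458016)))) (b (c (l 16749320) (c (l 16757312) (l 16672032))) (c (l 16830880) (l 16503224))))), by decide +kernel⟩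

def k39_pm_213 : ∃ t, chk3 f_pm_213 t 6 26 1 = true :=
  ⟨(a (a (l 3) (b (b (l 3) (a (l 3) (a (l 3) (c (c (l 253570522679) (l 240685592839)) (b (c (l 234243080439) (l 220284393399)) (c (l 178408496391) (l 176797843351))))))) (a (b (l 3) (l 3)) (c (b (a (b (l 3) (l 269676598519)) (c (l 169818628263) (l 164449898775))) (c (a (l 181092876183) (l 16563968)) (a (l 175724177735) (l 16549040)))) (c (b (c (l 177334789047) (l 176797907351)) (a (l 174113536359) (l 16530072))) (b (a (b (l 3) (l 231558669751)) (b (l 166597284231) (l 16517560))) (a (b (l 180555928231) (l 169818499303)) (l 16507256)))))))) (c (a (b (a (a (b (c (b (l 178408608695) (l 16607064)) (b (l 174650470263) (l 16585320))) (c (l 16594464) (l 16573024))) (b (c (l 16614768) (l 16586208)) (l 16583312))) (c (b (l 16619872) (l 16601152)) (b (l 16581560) (l 16563096)))) (a (b (c (l 16580520) (l 16555440)) (c (l 16566632) (l 16541096))) (b (l 16564808) (l 16549032)))) (b (a (c (l 16615768) (l 16565360)) (l 16590224)) (a (l 16572832) (l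 16546960)))) (a (b (a (b (c (a (b (l 173039810183) (l 162839249191)) (l 16556672)) (a (b (l 171966020983) (l 162302331607)) (l 16526152))) (b (a (c (l 16553064) (l 16526656)) (l 16528912)) (c (l 16540456) (l 16512264)))) (c (b (l 16543912) (l 16525800)) (b (l 16506984) (l 16489320)))) (a (c (b (l 16528840) (l 16514280)) (b (a (l 16507608) (l 16493832)) (l 16486200))) (c (l 16500688) (l 16506688)))) (b (a (c (l 16517080) (l 16471272)) (c (l 16500064) (l 16444736))) (c (l 16469488) (a (l 16435552) (l 16406360))))))), by decide +kernel⟩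

def k40_pm_213 : ∃ t, chk3 f_pm_213 t 7 26 1 = true :=
  ⟨(a (c (a (b (l 16594288) (l 16541624)) (b (l 16613576) (l 16543240))) (a (b (c (l 16476752) (l 16406200)) (c (l 16429352) (l 16363320))) (b (l 16403136) (l 16347856)))) (c (a (b (l 16660016) (l 16562568)) (l 16684008)) (a (b (l 16370760) (l 16300312)) (b (l 16352760) (l 16257320))))), by decide +kernel⟩

def k41_pm_213 : ∃ t, chk3 f_pm_213 t 3 27 1 = true :=
  ⟨(a (a (a (a (l 3) (a (l 3) (b (l 3) (b (c (l 320679254935) (c (l 275045254295) (l 255717870503))) (c (c (l 16530408) (l 16536432)) (c (l 182703458535) (l 184850920647))))))) (c (b (c (a (b (l 295983254023) (l 187535343575)) (b (l 16552384) (l 16544040))) (a (b (l 277192792135) (l 179482262951)) (b (l 16539904) (l 16529600)))) (a (b (c (l 178408541479) (l 167134220103)) (c (l 16531960) (l 16526656))) (b (l 16529544) (l 16523056)))) (b (a (b (a (l 3) (c (l 253033556807) (b (l 242832949367) (l 181092791559)))) (a (c (l 263770971943) (l 244443591271)) (c (l 16527936) (b (l 16512880)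 (l 16507336))))) (c (b (a (l 16528200) (l 16517328)) (l 16511240)) (b (a (l 16529144) (l 16494200)) (l 16489120)))) (c (a (b (a (l 173576651191) (l 16517928)) (l 16514600)) (l 16558856)) (c (a (b (l 165523571719) (l 16501424)) (l 16478744)) (a (b (l 166597301831) (l 16490792)) (l 16466496))))))) (c (a (b (a (b (l 16541440) (l 16530528)) (c (l 16547920) (l 16509016))) (c (l 16530104) (l 16536376))) (b (c (l 16542720) (l 16487944)) (c (l 16515136) (l 16460848)))) (a (b (c (a (l 16494480) (l 16471672)) (a (b (l 16472608) (l 16459992)) (l 16436088))) (c (a (l 16472368) (l 16448176)) (a (l 16443160) (l 16412696)))) (b (c (l 16436736) (l 16411024)) (c (l 16410720) (l 16428944)))))) (a (c (a (b (l 16496592) (l 16459600)) (b (l 16483192) (l 16433096))) (a (b (c (l 16390216) (l 16329216)) (l 16330624)) (b (l 16304176) (l 16272176)))) (c (a (b (l 16479912) (l 16411184)) (b (l 16500632) (l 16405104))) (a (c (l 16270248) (l 16185344)) (b (l 16185992) (l 16138536)))))), by decide +kernel⟩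

def k42_pm_213 : ∃ t, chk3 f_pm_213 t 2 7 1 = true :=
  ⟨(a (l 3) (b (b (l 3) (a (l 3) (a (l 3) (a (b (l 3) (b (l 3) (c (l 242296013911) (c (l 215989484887) (l 252496581671))))) (b (c (c (l 258939102855) (l 227800681591)) (b (c (l 265381628775) (l 255717680407)) (c (l 181629804439) (a (l 290614467287) (l 191830199735))))) (c (b (c (l 16502496) (l 16534464)) (l 16544824)) (b (c (l 16542496) (a (l 201493865607) (l 16528232))) (c (l 16534136) (l 16532616))))))))) (b (b (b (a (l 1) (a (l 3) (c (c (a (l 251422941175) (l 16518424)) (l 234779881927)) (a (c (l 16535416) (l 214378681719)) (c (l 16523128) (l 16525208)))))) (l 1)) (l 1)) (l 1)))), by decide +kernel⟩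

def k43_pm_213 : ∃ t, chk3 f_pm_213 t 6 14 1 = true :=
  ⟨(b (a (c (a (b (a (b (l 3) (l 279877194007)) (c (b (l 184314050359) (l 16524872)) (b (l 176260989847) (l 16528848)))) (a (c (b (l 228337494583) (l 16535912)) (b (l 192904035399) (l 16534376))) (c (l 16525576) (l 16523872)))) (b (c (a (l 16528360) (l 16526776)) (a (l 16518104) (l 16503544))) (c (l 16525352) (l 16502896)))) (b (b (a (a (l 3) (c (l 177871628647) (a (l 246591076199) (l 16529016)))) (c (l 16536920) (a (l 16487432) (l 16458888)))) (a (a (c (l 278803351719) (l 264844639255)) (c (l 16595888) (a (l 176260982295) (l 16500352)))) (a (c (l 16499744) (l 16479712)) (l 16463832)))) (a (c (a (b (l 193440803639) (l 178945318999)) (b (l 16516744) (l 16512056))) (a (b (a (l 3) (l 184850925543)) (a (l 245517338247) (l 16514352))) (b (l 16500392) (l 16494904)))) (c (l 16480000) (b (l 16522192) (l 16433480)))))) (c (a (b (c (l 16516952) (l 16478696)) (c (l 16507920) (l 16468016))) (b (c (l 16493664) (l 16440272)) (l 16451120))) (a (b (c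 (l 16463984) (a (l 16425520) (l 16395384))) (c (l 16431640) (l 16399696))) (b (c (l 16391624) (l 16349488)) (c (l 16379784) (l 16341296)))))) (a (c (b (a (c (a (l 234779957479) (l 16533296)) (a (l 184314146759) (l 16521136))) (c (l 16526224) (l 16499392))) (a (a (b (l 16533512) (l 16531688)) (l 16531696)) (c (l 16530640) (l 16500744)))) (b (a (c (b (l 152638686471) (l 16516872)) (a (b (c (l 16520488) (l 16510968)) (l 16512696)) (l 16489144))) (c (l 16474024) (b (l 16451216) (l 16449680)))) (a (c (b (l 16515544) (l 16510280)) (b (l 16498744) (l 16496088))) (c (l 16474000) (l 16444440))))) (c (a (b (l 16482192) (l 16481208)) (b (l 16440760) (l 16435168))) (b (a (c (l 16426672) (l 16396616)) (c (l 16375456) (l 16342232))) (a (c (l 16428520) (l 16386208)) (c (l 16378872) (l 16328448))))))), by decide +kernel⟩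

def k44_pm_213 : ∃ t, chk3 f_pm_213 t 7 14 1 = true :=
  ⟨(a (b (b (c (a (l 16430248) (l 16392536)) (a (l 16311864) (l 16251784))) (c (a (l 16407640) (l 16360504)) (a (l 16302568) (l 16243008)))) (c (a (b (l 16391080) (l 16379896)) (b (l 16335888) (c (l 16341968) (l 16296936)))) (a (b (l 16303056) (l 16250568)) (b (l 16245792) (c (l 16267408) (l 16231016)))))) (b (c (a (b (l 16355048) (l 16373416)) (b (l 16326416) (l 16263352))) (a (b (l 16184096) (c (l 16199272) (l 16159800))) (b (l 16111648) (l 16100184)))) (c (a (b (l 16400608) (l 16247848)) (l 16296696)) (a (b (c (l 16193664) (l 16174360)) (l 16191376)) (c (l 16107696) (l 16090960)))))), by decide +kernel⟩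

def k45_pm_213 : ∃ t, chk3 f_pm_213 t 3 15 1 = true :=
  ⟨(a (b (b (a (c (a (c (l 16544152) (l 16520696)) (c (l 16538368) (l 16507128))) (a (c (l 16497376) (b (l 16482584) (l 16465552))) (c (l 16468000) (l 16416120)))) (c (a (l 16484312) (l 16433824)) (a (c (l 16434056) (l 16357728)) (c (l 16390056) (l 16300112))))) (a (a (l 1) (a (l 1) (b (l 867615792759) (l 1)))) (c (a (l 16448920) (l 16435784)) (a (c (l 16427008) (l 16323088)) (c (l 16396216) (l 16266528)))))) (l 1)) (a (b (c (b (a (c (l 16388760) (l 16359368)) (l 16305640)) (a (c (l 16379192) (l 16364096)) (l 16298712))) (b (a (c (l 16338800) (l 16248368)) (a (l 16290656) (l 16264488))) (a (c (l 16358368) (l 16240800)) (l 16299480)))) (b (c (a (l 16372400) (l 16297296)) (a (c (l 16377888) (l 16274240)) (l 16312016))) (l 1))) (b (c (c (l 16281512) (l 16163224)) (a (c (l 16201880) (l 16215984)) (b (l 16094992) (l 16094384)))) (c (c (l 16277928) (a (l 16206592) (l 16102064))) (c (l 16254968) (a (l 16223192) (l 16089776))))))), by decide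 +kernel⟩

theorem s46_pm_213 : ∃ t, chk3 f_pm_213 t 3 14 1 = true := ex3_a k43_pm_213 k44_pm_213

theorem s47_pm_213 : ∃ t, chk3 f_pm_213 t 3 7 1 = true := ex3_b s46_pm_213 k45_pm_213

theorem s48_pm_213 : ∃ t, chk3 f_pm_213 t 1 7 1 = true := ex3_a k42_pm_213 s47_pm_213

theorem s49_pm_213 : ∃ t, chk3 f_pm_213 t 3 26 1 = true := ex3_a k39_pm_213 k40_pm_213

theorem s50_pm_213 : ∃ t, chk3 f_pm_213 t 3 13 1 = true := ex3_b s49_pm_213 k41_pm_213

theorem s51_pm_213 : ∃ t, chk3 f_pm_213 t 54 24 1 = true := ex3_a k34_pm_213 k35_pm_213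

theorem s52_pm_213 : ∃ t, chk3 f_pm_213 t 54 12 1 = true := ex3_b s51_pm_213 k36_pm_213

theorem s53_pm_213 : ∃ t, chk3 f_pm_213 t 27 12 1 = true := ex3_a s52_pm_213 k37_pm_213

theorem s54_pm_213 : ∃ t, chk3 f_pm_213 t 26 25 1 = true := ex3_b k32_pm_213 k33_pm_213

theorem s55_pm_213 : ∃ t, chk3 f_pm_213 t 26 12 1 = true := ex3_b k31_pm_213 s54_pm_213

theorem s56_pm_213 : ∃ t, chk3 f_pm_213 t 13 12 1 = true := ex3_a s55_pm_213 s53_pm_213

theorem s57_pm_213 : ∃ t, chk3 f_pm_213 t 6 12 1 = true := ex3_a k30_pm_213 s56_pm_213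

theorem s58_pm_213 : ∃ t, chk3 f_pm_213 t 3 12 1 = true := ex3_a s57_pm_213 k38_pm_213

theorem s59_pm_213 : ∃ t, chk3 f_pm_213 t 3 6 1 = true := ex3_b s58_pm_213 s50_pm_213

theorem s60_pm_213 : ∃ t, chk3 f_pm_213 t 1 6 1 = true := ex3_a k29_pm_213 s59_pm_213

theorem s61_pm_213 : ∃ t, chk3 f_pm_213 t 1 3 1 = true := ex3_b s60_pm_213 s48_pm_213

theorem s62_pm_213 : ∃ t, chk3 f_pm_213 t 57 22 1 = true := ex3_a k24_pm_213 k25_pm_213

theorem s63_pm_213 : ∃ t, chk3 f_pm_213 t 113 22 1 = true := ex3_a k22_pm_213 k23_pm_213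

theorem s64_pm_213 : ∃ t, chk3 f_pm_213 t 56 22 1 = true := ex3_a k21_pm_213 s63_pm_213

theorem s65_pm_213 : ∃ t, chk3 f_pm_213 t 28 22 1 = true := ex3_a s64_pm_213 s62_pm_213

theorem s66_pm_213 : ∃ t, chk3 f_pm_213 t 14 22 1 = true := ex3_a s65_pm_213 k26_pm_213

theorem s67_pm_213 : ∃ t, chk3 f_pm_213 t 14 11 1 = true := ex3_b s66_pm_213 k27_pm_213

theorem s68_pm_213 : ∃ t, chk3 f_pm_213 t 7 11 1 = true := ex3_a s67_pm_213 k28_pm_213

theorem s69_pm_213 : ∃ t, chk3 f_pm_213 t 29 20 1 = true := ex3_a k17_pm_213 k18_pm_213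

theorem s70_pm_213 : ∃ t, chk3 f_pm_213 t 29 10 1 = true := ex3_b s69_pm_213 k19_pm_213

theorem s71_pm_213 : ∃ t, chk3 f_pm_213 t 14 10 1 = true := ex3_a k16_pm_213 s70_pm_213

theorem s72_pm_213 : ∃ t, chk3 f_pm_213 t 7 10 1 = true := ex3_a s71_pm_213 k20_pm_213

theorem s73_pm_213 : ∃ t, chk3 f_pm_213 t 7 5 1 = true := ex3_b s72_pm_213 s68_pm_213

theorem s74_pm_213 : ∃ t, chk3 f_pm_213 t 27 23 1 = true := ex3_b k14_pm_213 k15_pm_213

theorem s75_pm_213 : ∃ t, chk3 f_pm_213 t 13 23 1 = true := ex3_a k13_pm_213 s74_pm_213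

theorem s76_pm_213 : ∃ t, chk3 f_pm_213 t 13 11 1 = true := ex3_b k12_pm_213 s75_pm_213

theorem s77_pm_213 : ∃ t, chk3 f_pm_213 t 6 11 1 = true := ex3_a k11_pm_213 s76_pm_213

theorem s78_pm_213 : ∃ t, chk3 f_pm_213 t 6 5 1 = true := ex3_b k10_pm_213 s77_pm_213

theorem s79_pm_213 : ∃ t, chk3 f_pm_213 t 3 5 1 = true := ex3_a s78_pm_213 s73_pm_213

theorem s80_pm_213 : ∃ t, chk3 f_pm_213 t 60 38 1 = true := ex3_a k5_pm_213 k6_pm_213

theorem s81_pm_213 : ∃ t, chk3 f_pm_213 t 60 19 1 = true := ex3_b s80_pm_213 k7_pm_213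

theorem s82_pm_213 : ∃ t, chk3 f_pm_213 t 30 19 1 = true := ex3_a s81_pm_213 k8_pm_213

theorem s83_pm_213 : ∃ t, chk3 f_pm_213 t 30 9 1 = true := ex3_b k4_pm_213 s82_pm_213

theorem s84_pm_213 : ∃ t, chk3 f_pm_213 t 15 9 1 = true := ex3_a s83_pm_213 k9_pm_213

theorem s85_pm_213 : ∃ t, chk3 f_pm_213 t 15 4 1 = true := ex3_b k3_pm_213 s84_pm_213

theorem s86_pm_213 : ∃ t, chk3 f_pm_213 t 7 4 1 = true := ex3_a k2_pm_213 s85_pm_213

theorem s87_pm_213 : ∃ t, chk3 f_pm_213 t 3 4 1 = true := ex3_a k1_pm_213 s86_pm_213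

theorem s88_pm_213 : ∃ t, chk3 f_pm_213 t 3 2 1 = true := ex3_b s87_pm_213 s79_pm_213

theorem s89_pm_213 : ∃ t, chk3 f_pm_213 t 1 2 1 = true := ex3_a k0_pm_213 s88_pm_213

theorem s90_pm_213 : ∃ t, chk3 f_pm_213 t 1 1 1 = true := ex3_b s89_pm_213 s61_pm_213

theorem c_pm_213 : CertB 0 536870912 0 1230186008 858993459 64424510 3 eng mog cd0q2 cd3q3 pd1 false true false .pnn 2 1 3
    ndB0q2 ndB3q3 pcB1 cut_pm_213 Ext.none :=
  certB0 (fam := false) (s1 := true) (s2 := false) (a := 2) (b := 1) (c := 3) (cn := .pnn) (n1 := ndB0q2) (n2 := ndB3q3) (pc := pcB1) (cut := cut_pm_213) (xt := Ext.none) (P1 := 0) (W1 := 536870912) (P2 := 0) (W2 := 1230186008) (P3 := 858993459) (W3 := 64424510) (N0 := 3) (En := eng) (mo := mog) (C1 := cd0q2) (C2 := cd3q3) (C3 := pd1)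
    rfl s90_pm_213

noncomputable def f_mm_001 : ℕ → ℕ → ℕ → ℕ → Bool := onCell 0 536870912 0 536870912 858993459 64424510
    (rowB 3 eng mog cd0q0 cd3q1 pd0 1 false false false .up 0 0 1 (qsf 0 536870912 536870912 536870912 0) ndB0q0 ndB3q1 pcB0 Cut.none Ext.none)

def k0_mm_001 : ∃ t, chk3 f_mm_001 t 1 1 1 = true :=
  ⟨(l 3), by decide +kernel⟩

theorem c_mm_001 : CertB 0 536870912 536870912 536870912 858993459 64424510 3 eng mog cd0q0 cd3q1 pd0 false false false .up 0 0 1
    ndB0q0 ndB3q1 pcB0 Cut.none Ext.none :=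
  certB1 (fam := false) (s1 := false) (s2 := false) (a := 0) (b := 0) (c := 1) (cn := .up) (n1 := ndB0q0) (n2 := ndB3q1) (pc := pcB0) (cut := Cut.none) (xt := Ext.none) (P1 := 0) (W1 := 536870912) (P2 := 536870912) (W2 := 536870912) (P3 := 858993459) (W3 := 64424510) (N0 := 3) (En := eng) (mo := mog) (C1 := cd0q0) (C2 := cd3q1) (C3 := pd0)
    rfl (fun _ => rfl) k0_mm_001

noncomputable def f_mm_011 : ℕ → ℕ → ℕ → ℕ → Bool := onCell 0 536870912 536870912 536870912 858993459 64424510
    (rowB 3 eng mog cd0q0 cd3q1 pd1 1 false false false .pnn 0 1 1 (qsf 0 536870912 536870912 536870912 1) ndB0q0 ndB3q1 pcB1 Cut.none Ext.none)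

def k0_mm_011 : ∃ t, chk3 f_mm_011 t 1 1 1 = true :=
  ⟨(l 5), by decide +kernel⟩

theorem c_mm_011 : CertB 0 536870912 536870912 536870912 858993459 64424510 3 eng mog cd0q0 cd3q1 pd1 false false false .pnn 0 1 1
    ndB0q0 ndB3q1 pcB1 Cut.none Ext.none :=
  certB1 (fam := false) (s1 := false) (s2 := false) (a := 0) (b := 1) (c := 1) (cn := .pnn) (n1 := ndB0q0) (n2 := ndB3q1) (pc := pcB1) (cut := Cut.none) (xt := Ext.none) (P1 := 0) (W1 := 536870912) (P2 := 536870912) (W2 := 536870912) (P3 := 858993459) (W3 := 64424510) (N0 := 3) (En := eng) (mo := mog) (C1 := cd0q0) (C2 := cd3q1) (C3 := pd1)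
    rfl (fun _ => rfl) k0_mm_011

noncomputable def f_mm_012 : ℕ → ℕ → ℕ → ℕ → Bool := onCell 0 536870912 1073741824 536870912 858993459 64424510
    (rowB 3 eng mog cd0q0 cd3q2 pd1 0 false false false .pnp 0 1 2 (qsf 0 536870912 1073741824 536870912 1) ndB0q0 ndB3q2 pcB1 Cut.none Ext.none)

def k0_mm_012 : ∃ t, chk3 f_mm_012 t 1 1 1 = true :=
  ⟨(l 5), by decide +kernel⟩

theorem c_mm_012 : CertB 0 536870912 1073741824 536870912 858993459 64424510 3 eng mog cd0q0 cd3q2 pd1 false false false .pnp 0 1 2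
    ndB0q0 ndB3q2 pcB1 Cut.none Ext.none :=
  certB0 (fam := false) (s1 := false) (s2 := false) (a := 0) (b := 1) (c := 2) (cn := .pnp) (n1 := ndB0q0) (n2 := ndB3q2) (pc := pcB1) (cut := Cut.none) (xt := Ext.none) (P1 := 0) (W1 := 536870912) (P2 := 1073741824) (W2 := 536870912) (P3 := 858993459) (W3 := 64424510) (N0 := 3) (En := eng) (mo := mog) (C1 := cd0q0) (C2 := cd3q2) (C3 := pd1)
    rfl k0_mm_012

noncomputable def f_mm_022 : ℕ → ℕ → ℕ → ℕ → Bool := onCell 0 536870912 1073741824 536870912 858993459 64424510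
    (rowB 3 eng mog cd0q0 cd3q2 pd2 0 false false false .pp 0 2 2 (qsf 0 536870912 1073741824 536870912 2) ndB0q0 ndB3q2 pcB2 Cut.none Ext.none)

def k0_mm_022 : ∃ t, chk3 f_mm_022 t 1 1 1 = true :=
  ⟨(l 5), by decide +kernel⟩

theorem c_mm_022 : CertB 0 536870912 1073741824 536870912 858993459 64424510 3 eng mog cd0q0 cd3q2 pd2 false false false .pp 0 2 2
    ndB0q0 ndB3q2 pcB2 Cut.none Ext.none :=
  certB0 (fam := false) (s1 := false) (s2 := false) (a := 0) (b := 2) (c := 2) (cn := .pp) (n1 := ndB0q0) (n2 := ndB3q2) (pc := pcB2) (cut := Cut.none) (xt := Ext.none) (P1 := 0) (W1 := 536870912) (P2 := 1073741824) (W2 := 536870912) (P3 := 858993459) (W3 := 64424510) (N0 := 3) (En := eng) (mo := mog) (C1 := cd0q0) (C2 := cd3q2) (C3 := pd2)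
    rfl k0_mm_022

noncomputable def f_mm_023 : ℕ → ℕ → ℕ → ℕ → Bool := onCell 0 536870912 0 1230186008 858993459 64424510
    (rowB 3 eng mog cd0q0 cd3q3 pd2 0 false false false .up 0 2 3 (qsf 0 536870912 0 1230186008 2) ndB0q0 ndB3q3 pcB2 Cut.none Ext.none)

def k0_mm_023 : ∃ t, chk3 f_mm_023 t 1 1 1 = true :=
  ⟨(l 5), by decide +kernel⟩

theorem c_mm_023 : CertB 0 536870912 0 1230186008 858993459 64424510 3 eng mog cd0q0 cd3q3 pd2 false false false .up 0 2 3
    ndB0q0 ndB3q3 pcB2 Cut.none Ext.none :=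
  certB0 (fam := false) (s1 := false) (s2 := false) (a := 0) (b := 2) (c := 3) (cn := .up) (n1 := ndB0q0) (n2 := ndB3q3) (pc := pcB2) (cut := Cut.none) (xt := Ext.none) (P1 := 0) (W1 := 536870912) (P2 := 0) (W2 := 1230186008) (P3 := 858993459) (W3 := 64424510) (N0 := 3) (En := eng) (mo := mog) (C1 := cd0q0) (C2 := cd3q3) (C3 := pd2)
    rfl k0_mm_023

noncomputable def f_mm_033 : ℕ → ℕ → ℕ → ℕ → Bool := onCell 0 536870912 0 1230186008 858993459 64424510
    (rowB 3 eng mog cd0q0 cd3q3 pd3 0 false false false .pnn 0 3 3 (qsf 0 536870912 0 1230186008 3) ndB0q0 ndB3q3 pcB3 Cut.none Ext.none)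

def k0_mm_033 : ∃ t, chk3 f_mm_033 t 1 1 1 = true :=
  ⟨(l 5), by decide +kernel⟩

theorem c_mm_033 : CertB 0 536870912 0 1230186008 858993459 64424510 3 eng mog cd0q0 cd3q3 pd3 false false false .pnn 0 3 3
    ndB0q0 ndB3q3 pcB3 Cut.none Ext.none :=
  certB0 (fam := false) (s1 := false) (s2 := false) (a := 0) (b := 3) (c := 3) (cn := .pnn) (n1 := ndB0q0) (n2 := ndB3q3) (pc := pcB3) (cut := Cut.none) (xt := Ext.none) (P1 := 0) (W1 := 536870912) (P2 := 0) (W2 := 1230186008) (P3 := 858993459) (W3 := 64424510) (N0 := 3) (En := eng) (mo := mog) (C1 := cd0q0) (C2 := cd3q3) (C3 := pd3)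
    rfl k0_mm_033

noncomputable def cut_mm_101 : Cut := Cut.of [[⟨0, 1, 0, 67108864⟩, ⟨1, 0, 0, 67108864⟩, ⟨2, 1, 0, 67108864⟩]]

noncomputable def f_mm_101 : ℕ → ℕ → ℕ → ℕ → Bool := onCell 536870912 536870912 0 536870912 858993459 64424510
    (rowB 3 eng mog cd0q1 cd3q1 pd0 1 false false false .npn 1 0 1 (qsf 536870912 536870912 536870912 536870912 0) ndB0q1 ndB3q1 pcB0 cut_mm_101 Ext.none)

def k0_mm_101 : ∃ t, chk3 f_mm_101 t 1 1 1 = true :=
  ⟨(a (l 3) (b (a (l 3) (b (b (a (l 3) (b (a (l 3) (l 6)) (l 3))) (l 3)) (l 3))) (l 3))), by decide +kernel⟩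

theorem c_mm_101 : CertB 536870912 536870912 536870912 536870912 858993459 64424510 3 eng mog cd0q1 cd3q1 pd0 false false false .npn 1 0 1
    ndB0q1 ndB3q1 pcB0 cut_mm_101 Ext.none :=
  certB1 (fam := false) (s1 := false) (s2 := false) (a := 1) (b := 0) (c := 1) (cn := .npn) (n1 := ndB0q1) (n2 := ndB3q1) (pc := pcB0) (cut := cut_mm_101) (xt := Ext.none) (P1 := 536870912) (W1 := 536870912) (P2 := 536870912) (W2 := 536870912) (P3 := 858993459) (W3 := 64424510) (N0 := 3) (En := eng) (mo := mog) (C1 := cd0q1) (C2 := cd3q1) (C3 := pd0)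
    rfl (fun _ => rfl) k0_mm_101

noncomputable def f_mm_102 : ℕ → ℕ → ℕ → ℕ → Bool := onCell 536870912 536870912 1073741824 536870912 858993459 64424510
    (rowB 3 eng mog cd0q1 cd3q2 pd0 0 false false false .npp 1 0 2 (qsf 536870912 536870912 1073741824 536870912 0) ndB0q1 ndB3q2 pcB0 Cut.none Ext.none)

def k0_mm_102 : ∃ t, chk3 f_mm_102 t 1 1 1 = true :=
  ⟨(l 3), by decide +kernel⟩

theorem c_mm_102 : CertB 536870912 536870912 1073741824 536870912 858993459 64424510 3 eng mog cd0q1 cd3q2 pd0 false false false .npp 1 0 2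
    ndB0q1 ndB3q2 pcB0 Cut.none Ext.none :=
  certB0 (fam := false) (s1 := false) (s2 := false) (a := 1) (b := 0) (c := 2) (cn := .npp) (n1 := ndB0q1) (n2 := ndB3q2) (pc := pcB0) (cut := Cut.none) (xt := Ext.none) (P1 := 536870912) (W1 := 536870912) (P2 := 1073741824) (W2 := 536870912) (P3 := 858993459) (W3 := 64424510) (N0 := 3) (En := eng) (mo := mog) (C1 := cd0q1) (C2 := cd3q2) (C3 := pd0)
    rfl k0_mm_102

noncomputable def f_mm_112 : ℕ → ℕ → ℕ → ℕ → Bool := onCell 536870912 536870912 1073741824 536870912 858993459 64424510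
    (rowB 3 eng mog cd0q1 cd3q2 pd1 0 false false false .dn 1 1 2 (qsf 536870912 536870912 1073741824 536870912 1) ndB0q1 ndB3q2 pcB1 Cut.none Ext.none)

def k0_mm_112 : ∃ t, chk3 f_mm_112 t 1 1 1 = true :=
  ⟨(l 3), by decide +kernel⟩

theorem c_mm_112 : CertB 536870912 536870912 1073741824 536870912 858993459 64424510 3 eng mog cd0q1 cd3q2 pd1 false false false .dn 1 1 2
    ndB0q1 ndB3q2 pcB1 Cut.none Ext.none :=
  certB0 (fam := false) (s1 := false) (s2 := false) (a := 1) (b := 1) (c := 2) (cn := .dn) (n1 := ndB0q1) (n2 := ndB3q2) (pc := pcB1) (cut := Cut.none) (xt := Ext.none) (P1 := 536870912) (W1 := 536870912) (P2 := 1073741824) (W2 := 536870912) (P3 := 858993459) (W3 := 64424510) (N0 := 3) (En := eng) (mo := mog) (C1 := cd0q1) (C2 := cd3q2) (C3 := pd1)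
    rfl k0_mm_112

noncomputable def f_mm_113 : ℕ → ℕ → ℕ → ℕ → Bool := onCell 536870912 536870912 0 1230186008 858993459 64424510
    (rowB 3 eng mog cd0q1 cd3q3 pd1 0 false false false .nn 1 1 3 (qsf 536870912 536870912 0 1230186008 1) ndB0q1 ndB3q3 pcB1 Cut.none Ext.none)

def k0_mm_113 : ∃ t, chk3 f_mm_113 t 1 1 1 = true :=
  ⟨(b (l 5) (b (l 5) (a (l 5) (l 3)))), by decide +kernel⟩

theorem c_mm_113 : CertB 536870912 536870912 0 1230186008 858993459 64424510 3 eng mog cd0q1 cd3q3 pd1 false false false .nn 1 1 3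
    ndB0q1 ndB3q3 pcB1 Cut.none Ext.none :=
  certB0 (fam := false) (s1 := false) (s2 := false) (a := 1) (b := 1) (c := 3) (cn := .nn) (n1 := ndB0q1) (n2 := ndB3q3) (pc := pcB1) (cut := Cut.none) (xt := Ext.none) (P1 := 536870912) (W1 := 536870912) (P2 := 0) (W2 := 1230186008) (P3 := 858993459) (W3 := 64424510) (N0 := 3) (En := eng) (mo := mog) (C1 := cd0q1) (C2 := cd3q3) (C3 := pd1)
    rfl k0_mm_113

noncomputable def f_mm_123 : ℕ → ℕ → ℕ → ℕ → Bool := onCell 1073741824 536870912 0 1230186008 858993459 64424510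
    (rowB 3 eng mog cd0q1 cd3q3 pd2 2 false false false .npn 1 2 3 (qsf 536870912 536870912 0 1230186008 2) ndB0q1 ndB3q3 pcB2 Cut.none Ext.none)

def k0_mm_123 : ∃ t, chk3 f_mm_123 t 1 1 1 = true :=
  ⟨(b (l 5) (l 5)), by decide +kernel⟩

theorem c_mm_123 : CertB 536870912 536870912 0 1230186008 858993459 64424510 3 eng mog cd0q1 cd3q3 pd2 false false false .npn 1 2 3
    ndB0q1 ndB3q3 pcB2 Cut.none Ext.none :=
  certB2 (fam := false) (s1 := false) (s2 := false) (a := 1) (b := 2) (c := 3) (cn := .npn) (n1 := ndB0q1) (n2 := ndB3q3) (pc := pcB2) (cut := Cut.none) (xt := Ext.none) (P1 := 536870912) (W1 := 536870912) (P2 := 0) (W2 := 1230186008) (P3 := 858993459) (W3 := 64424510) (N0 := 3) (En := eng) (mo := mog) (C1 := cd0q1) (C2 := cd3q3) (C3 := pd2)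
    rfl (fun _ => rfl) k0_mm_123

noncomputable def f_mm_133 : ℕ → ℕ → ℕ → ℕ → Bool := onCell 1610612736 536870912 0 1230186008 858993459 64424510
    (rowB 3 eng mog cd0q1 cd3q3 pd3 2 false false false .dn 1 3 3 (qsf 536870912 536870912 0 1230186008 3) ndB0q1 ndB3q3 pcB3 Cut.none Ext.none)

def k0_mm_133 : ∃ t, chk3 f_mm_133 t 1 1 1 = true :=
  ⟨(l 5), by decide +kernel⟩

theorem c_mm_133 : CertB 536870912 536870912 0 1230186008 858993459 64424510 3 eng mog cd0q1 cd3q3 pd3 false false false .dn 1 3 3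
    ndB0q1 ndB3q3 pcB3 Cut.none Ext.none :=
  certB2 (fam := false) (s1 := false) (s2 := false) (a := 1) (b := 3) (c := 3) (cn := .dn) (n1 := ndB0q1) (n2 := ndB3q3) (pc := pcB3) (cut := Cut.none) (xt := Ext.none) (P1 := 536870912) (W1 := 536870912) (P2 := 0) (W2 := 1230186008) (P3 := 858993459) (W3 := 64424510) (N0 := 3) (En := eng) (mo := mog) (C1 := cd0q1) (C2 := cd3q3) (C3 := pd3)
    rfl (fun _ => rfl) k0_mm_133

noncomputable def f_mm_202 : ℕ → ℕ → ℕ → ℕ → Bool := onCell 0 536870912 0 536870912 858993459 64424510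
    (rowB 3 eng mog cd0q2 cd3q2 pd0 1 false false false .pp 2 0 2 (qsf 0 536870912 1073741824 536870912 0) ndB0q2 ndB3q2 pcB0 Cut.none Ext.none)

def k0_mm_202 : ∃ t, chk3 f_mm_202 t 1 1 1 = true :=
  ⟨(b (l 3) (l 3)), by decide +kernel⟩

theorem c_mm_202 : CertB 0 536870912 1073741824 536870912 858993459 64424510 3 eng mog cd0q2 cd3q2 pd0 false false false .pp 2 0 2
    ndB0q2 ndB3q2 pcB0 Cut.none Ext.none :=
  certB1 (fam := false) (s1 := false) (s2 := false) (a := 2) (b := 0) (c := 2) (cn := .pp) (n1 := ndB0q2) (n2 := ndB3q2) (pc := pcB0) (cut := Cut.none) (xt := Ext.none) (P1 := 0) (W1 := 536870912) (P2 := 1073741824) (W2 := 536870912) (P3 := 858993459) (W3 := 64424510) (N0 := 3) (En := eng) (mo := mog) (C1 := cd0q2) (C2 := cd3q2) (C3 := pd0)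
    rfl (fun _ => rfl) k0_mm_202

noncomputable def f_mm_203 : ℕ → ℕ → ℕ → ℕ → Bool := onCell 0 536870912 0 1230186008 858993459 64424510
    (rowB 3 eng mog cd0q2 cd3q3 pd0 0 false false false .up 2 0 3 (qsf 0 536870912 0 1230186008 0) ndB0q2 ndB3q3 pcB0 Cut.none Ext.none)

def k0_mm_203 : ∃ t, chk3 f_mm_203 t 1 1 1 = true :=
  ⟨(b (l 2) (l 3)), by decide +kernel⟩

theorem c_mm_203 : CertB 0 536870912 0 1230186008 858993459 64424510 3 eng mog cd0q2 cd3q3 pd0 false false false .up 2 0 3
    ndB0q2 ndB3q3 pcB0 Cut.none Ext.none :=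
  certB0 (fam := false) (s1 := false) (s2 := false) (a := 2) (b := 0) (c := 3) (cn := .up) (n1 := ndB0q2) (n2 := ndB3q3) (pc := pcB0) (cut := Cut.none) (xt := Ext.none) (P1 := 0) (W1 := 536870912) (P2 := 0) (W2 := 1230186008) (P3 := 858993459) (W3 := 64424510) (N0 := 3) (En := eng) (mo := mog) (C1 := cd0q2) (C2 := cd3q3) (C3 := pd0)
    rfl k0_mm_203

noncomputable def f_mm_213 : ℕ → ℕ → ℕ → ℕ → Bool := onCell 0 536870912 0 1230186008 858993459 64424510
    (rowB 3 eng mog cd0q2 cd3q3 pd1 0 false false false .pnn 2 1 3 (qsf 0 536870912 0 1230186008 1) ndB0q2 ndB3q3 pcB1 Cut.none Ext.none)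

def k0_mm_213 : ∃ t, chk3 f_mm_213 t 1 1 1 = true :=
  ⟨(b (a (l 3) (l 5)) (l 3)), by decide +kernel⟩

theorem c_mm_213 : CertB 0 536870912 0 1230186008 858993459 64424510 3 eng mog cd0q2 cd3q3 pd1 false false false .pnn 2 1 3
    ndB0q2 ndB3q3 pcB1 Cut.none Ext.none :=
  certB0 (fam := false) (s1 := false) (s2 := false) (a := 2) (b := 1) (c := 3) (cn := .pnn) (n1 := ndB0q2) (n2 := ndB3q3) (pc := pcB1) (cut := Cut.none) (xt := Ext.none) (P1 := 0) (W1 := 536870912) (P2 := 0) (W2 := 1230186008) (P3 := 858993459) (W3 := 64424510) (N0 := 3) (En := eng) (mo := mog) (C1 := cd0q2) (C2 := cd3q3) (C3 := pd1)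
    rfl k0_mm_213

end Pool.Agent.Strip051.G.I8000_8600.Tab.C.BB03

namespace Pool.Agent.Strip051.G.I8000_8600.Tab.C.BB04

open Pool.Agent.Strip051.PB Pool.Agent.Strip051.PB.T
open Pool.Agent.Strip051.G.I8000_8600.Tab

noncomputable def cut_pp_001 : Cut := Cut.of [[⟨3, 0, 0, 1449551462⟩]]

noncomputable def f_pp_001 : ℕ → ℕ → ℕ → ℕ → Bool := onCell 0 536870912 536870912 536870912 858993459 64424510
    (rowB 3 eng mog cd0q0 cd4q1 pd0 0 false true true .up 0 0 1 (qsf 0 536870912 536870912 536870912 0) ndB0q0 ndB4q1 pcB0 cut_pp_001 Ext.none)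

def k0_pp_001 : ∃ t, chk3 f_pp_001 t 1 1 1 = true :=
  ⟨(l 6), by decide +kernel⟩

theorem c_pp_001 : CertB 0 536870912 536870912 536870912 858993459 64424510 3 eng mog cd0q0 cd4q1 pd0 false true true .up 0 0 1
    ndB0q0 ndB4q1 pcB0 cut_pp_001 Ext.none :=
  certB0 (fam := false) (s1 := true) (s2 := true) (a := 0) (b := 0) (c := 1) (cn := .up) (n1 := ndB0q0) (n2 := ndB4q1) (pc := pcB0) (cut := cut_pp_001) (xt := Ext.none) (P1 := 0) (W1 := 536870912) (P2 := 536870912) (W2 := 536870912) (P3 := 858993459) (W3 := 64424510) (N0 := 3) (En := eng) (mo := mog) (C1 := cd0q0) (C2 := cd4q1) (C3 := pd0)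
    rfl k0_pp_001

noncomputable def cut_pp_011 : Cut := Cut.of [[⟨3, 0, 0, 1449551462⟩], [⟨0, 0, 0, 67108864⟩, ⟨1, 1, 0, 67108864⟩, ⟨2, 1, 0, 67108864⟩]]

noncomputable def f_pp_011 : ℕ → ℕ → ℕ → ℕ → Bool := onCell 0 536870912 536870912 536870912 858993459 64424510
    (rowB 3 eng mog cd0q0 cd4q1 pd1 0 false true true .pnn 0 1 1 (qsf 0 536870912 536870912 536870912 1) ndB0q0 ndB4q1 pcB1 cut_pp_011 Ext.none)

def k0_pp_011 : ∃ t, chk3 f_pp_011 t 1 1 1 = true :=
  ⟨(l 6), by decide +kernel⟩

theorem c_pp_011 : CertB 0 536870912 536870912 536870912 858993459 64424510 3 eng mog cd0q0 cd4q1 pd1 false true true .pnn 0 1 1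
    ndB0q0 ndB4q1 pcB1 cut_pp_011 Ext.none :=
  certB0 (fam := false) (s1 := true) (s2 := true) (a := 0) (b := 1) (c := 1) (cn := .pnn) (n1 := ndB0q0) (n2 := ndB4q1) (pc := pcB1) (cut := cut_pp_011) (xt := Ext.none) (P1 := 0) (W1 := 536870912) (P2 := 536870912) (W2 := 536870912) (P3 := 858993459) (W3 := 64424510) (N0 := 3) (En := eng) (mo := mog) (C1 := cd0q0) (C2 := cd4q1) (C3 := pd1)
    rfl k0_pp_011

noncomputable def cut_pp_012 : Cut := Cut.of [[⟨3, 0, 0, 1449551462⟩], [⟨0, 0, 0, 67108864⟩, ⟨1, 1, 0, 67108864⟩, ⟨2, 1, 0, 67108864⟩]]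

noncomputable def f_pp_012 : ℕ → ℕ → ℕ → ℕ → Bool := onCell 0 536870912 536870912 536870912 858993459 64424510
    (rowB 3 eng mog cd0q0 cd4q2 pd1 1 false true true .pnp 0 1 2 (qsf 0 536870912 1073741824 536870912 1) ndB0q0 ndB4q2 pcB1 cut_pp_012 Ext.none)

def k0_pp_012 : ∃ t, chk3 f_pp_012 t 1 1 1 = true :=
  ⟨(l 6), by decide +kernel⟩

theorem c_pp_012 : CertB 0 536870912 1073741824 536870912 858993459 64424510 3 eng mog cd0q0 cd4q2 pd1 false true true .pnp 0 1 2
    ndB0q0 ndB4q2 pcB1 cut_pp_012 Ext.none :=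
  certB1 (fam := false) (s1 := true) (s2 := true) (a := 0) (b := 1) (c := 2) (cn := .pnp) (n1 := ndB0q0) (n2 := ndB4q2) (pc := pcB1) (cut := cut_pp_012) (xt := Ext.none) (P1 := 0) (W1 := 536870912) (P2 := 1073741824) (W2 := 536870912) (P3 := 858993459) (W3 := 64424510) (N0 := 3) (En := eng) (mo := mog) (C1 := cd0q0) (C2 := cd4q2) (C3 := pd1)
    rfl (fun _ => rfl) k0_pp_012

noncomputable def cut_pp_022 : Cut := Cut.of [[⟨3, 0, 0, 1449551462⟩], [⟨0, 0, 0, 67108864⟩, ⟨1, 1, 0, 67108864⟩, ⟨2, 1, 0, 67108864⟩]]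

noncomputable def f_pp_022 : ℕ → ℕ → ℕ → ℕ → Bool := onCell 0 536870912 1073741824 536870912 858993459 64424510
    (rowB 3 eng mog cd0q0 cd4q2 pd2 0 false true true .pp 0 2 2 (qsf 0 536870912 1073741824 536870912 2) ndB0q0 ndB4q2 pcB2 cut_pp_022 Ext.none)

def k0_pp_022 : ∃ t, chk3 f_pp_022 t 1 1 1 = true :=
  ⟨(a (b (l 6) (a (b (a (b (b (l 6) (a (c (l 16102200) (l 16092296)) (l 6))) (b (a (c (l 16031296) (l 16013496)) (c (l 16149512) (l 16138256))) (a (l 16011872) (a (l 16040416) (l 16100416))))) (a (b (l 6) (b (l 6) (c (l 16195376) (l 16180640)))) (l 6))) (b (a (b (c (l 16057880) (l 15734096)) (a (l 15808152) (l 15929592))) (a (c (b (l 16126688) (l 16060032)) (b (l 16105488) (l 16032512))) (b (l 6) (c (l 16169168) (l 16144616))))) (a (b (a (l 15741920) (l 15863120)) (c (l 15763592) (l 15712520))) (a (b (l 15980104) (l 15915880)) (b (a (l 16063648) (l 16116768)) (l 16025576)))))) (b (l 6) (a (b (l 6) (a (b (c (l 16206424) (l 16179952)) (l 16128872)) (b (l 6) (c (l 16241984) (l 16217232)))))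 (l 6))))) (l 6)), by decide +kernel⟩

theorem c_pp_022 : CertB 0 536870912 1073741824 536870912 858993459 64424510 3 eng mog cd0q0 cd4q2 pd2 false true true .pp 0 2 2
    ndB0q0 ndB4q2 pcB2 cut_pp_022 Ext.none :=
  certB0 (fam := false) (s1 := true) (s2 := true) (a := 0) (b := 2) (c := 2) (cn := .pp) (n1 := ndB0q0) (n2 := ndB4q2) (pc := pcB2) (cut := cut_pp_022) (xt := Ext.none) (P1 := 0) (W1 := 536870912) (P2 := 1073741824) (W2 := 536870912) (P3 := 858993459) (W3 := 64424510) (N0 := 3) (En := eng) (mo := mog) (C1 := cd0q0) (C2 := cd4q2) (C3 := pd2)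
    rfl k0_pp_022

end Pool.Agent.Strip051.G.I8000_8600.Tab.C.BB04

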