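import Pool.Agent.Strip051.G.I8000_8600.Tab

/-! # Certificates B20 (generated) -/

set_option linter.all false
set_option maxRecDepth 100000

namespace Pool.Agent.Strip051.G.I8000_8600.Tab.C.BB04

open Pool.Agent.Strip051.PB Pool.Agent.Strip051.PB.T
open Pool.Agent.Strip051.G.I8000_8600.Tab

noncomputable def cut_pp_023 : Cut := Cut.of [[⟨3, 0, 0, 1449551462⟩]]

noncomputable def f_pp_023 : ℕ → ℕ → ℕ → ℕ → Bool := onCell 1073741824 536870912 0 1230186008 858993459 64424510
    (rowB 3 eng mog cd0q0 cd4q3 pd2 2 false true true .up 0 2 3 (qsf 0 536870912 0 1230186008 2) ndB0q0 ndB4q3 pcB2 cut_pp_023 Ext.none)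

def k0_pp_023 : ∃ t, chk3 f_pp_023 t 1 1 1 = true :=
  ⟨(a (b (l 2) (l 6)) (b (a (l 2) (b (a (l 2) (a (l 2) (b (l 197667189527) (a (l 16230840) (l 16251736))))) (b (b (a (l 2) (a (l 16506616) (l 16460576))) (a (l 16551680) (a (l 16528864) (l 16505776)))) (a (a (l 16563800) (l 16522536)) (b (l 16502440) (l 16475840)))))) (a (a (b (b (l 2) (l 6)) (l 6)) (b (b (b (l 221828234439) (c (l 16589464) (l 16323208))) (b (a (b (l 16568496) (l 16554920)) (l 16266272)) (b (a (l 16536976) (l 16484312)) (l 16380792)))) (b (b (a (l 16305144) (l 16405016)) (b (l 16197528) (l 16409336))) (b (b (l 16367624) (a (l 16306568) (l 16216464))) (b (a (l 16264688) (l 16168976)) (a (b (l 16232456) (l 16209872)) (l 16121368))))))) (b (b (a (b (a (l 16527144) (l 16496080)) (a (l 16507120) (l 16464560))) (b (l 16273552) (a (l 16418200) (l 16368048)))) (a (b (c (l 16285432) (l 16409560)) (a (l 16409528) (l 16345976))) (b (c (l 16359896) (l 16295960)) (l 16474552)))) (b (b (a (a (l 16334128) (l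 16259776)) (a (l 16182664) (l 16102224))) (a (b (l 16229032) (a (l 16222808) (l 16136128))) (b (l 16120752) (l 16019408)))) (b (a (b (a (l 16173664) (l 16081224)) (a (l 16122384) (l 16025904))) (b (l 16149936) (l 16002184))) (a (b (a (l 16071032) (l 15971248)) (a (l 16020264) (l 15914184))) (b (a (l 15866672) (l 15756088)) (a (l 15802296) (l 15683976)))))))))), by decide +kernel⟩

theorem c_pp_023 : CertB 0 536870912 0 1230186008 858993459 64424510 3 eng mog cd0q0 cd4q3 pd2 false true true .up 0 2 3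
    ndB0q0 ndB4q3 pcB2 cut_pp_023 Ext.none :=
  certB2 (fam := false) (s1 := true) (s2 := true) (a := 0) (b := 2) (c := 3) (cn := .up) (n1 := ndB0q0) (n2 := ndB4q3) (pc := pcB2) (cut := cut_pp_023) (xt := Ext.none) (P1 := 0) (W1 := 536870912) (P2 := 0) (W2 := 1230186008) (P3 := 858993459) (W3 := 64424510) (N0 := 3) (En := eng) (mo := mog) (C1 := cd0q0) (C2 := cd4q3) (C3 := pd2)
    rfl (fun _ => rfl) k0_pp_023

noncomputable def cut_pp_033 : Cut := Cut.of [[⟨3, 0, 0, 1449551462⟩]]

noncomputable def f_pp_033 : ℕ → ℕ → ℕ → ℕ → Bool := onCell 1610612736 536870912 0 1230186008 858993459 64424510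
    (rowB 3 eng mog cd0q0 cd4q3 pd3 2 false true true .pnn 0 3 3 (qsf 0 536870912 0 1230186008 3) ndB0q0 ndB4q3 pcB3 cut_pp_033 Ext.none)

def k0_pp_033 : ∃ t, chk3 f_pp_033 t 1 2 1 = true :=
  ⟨(b (a (a (a (b (a (l 16647888) (l 16571296)) (b (l 16580544) (l 16579800))) (b (l 16466672) (c (l 16722080) (l 16509064)))) (a (b (a (l 16368784) (l 16308336)) (a (l 16398560) (l 16380752))) (b (a (l 16256176) (l 16208520)) (a (l 16307560) (l 16240448))))) (a (a (a (b (l 16160912) (l 16180248)) (b (l 4) (l 16124160))) (a (b (l 4) (l 16069320)) (l 4))) (l 4))) (a (a (b (a (a (b (l 16539368) (l 16492784)) (l 16501144)) (c (l 16527032) (l 16268432))) (a (b (a (l 16450552) (l 16424808)) (l 16408664)) (c (b (l 16421376) (l 16344208)) (b (l 16361728) (l 16292976))))) (a (b (b (a (l 16489528) (l 16413904)) (l 16423624)) (b (l 16356760) (a (l 16273200) (l 16246520)))) (b (a (l 16323400) (l 16243232)) (a (l 16241240) (b (l 16197472) (l 16135696)))))) (b (a (a (a (l 16162320) (l 16090880))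 (a (l 16029992) (l 15974072))) (a (a (b (l 4) (l 15876392)) (l 4)) (l 4))) (b (a (a (a (l 16113920) (l 16030168)) (a (l 15951208) (l 15884400))) (a (a (l 15832640) (l 15928416)) (l 4))) (a (a (a (l 16057072) (l 15968416)) (a (l 15874768) (l 15787176))) (a (a (l 15729496) (l 15665360)) (l 1))))))), by decide +kernel⟩

def k1_pp_033 : ∃ t, chk3 f_pp_033 t 1 3 1 = true :=
  ⟨(b (a (a (b (a (b (l 16327176) (l 16295360)) (b (l 16232056) (l 16362920))) (a (b (l 16185576) (a (l 16106200) (l 16024504))) (b (a (l 16056808) (l 15981992)) (b (l 15928480) (l 16121472))))) (b (a (b (a (l 16165184) (l 16124200)) (l 16073472)) (b (a (l 16084680) (l 16048368)) (a (l 15926656) (l 15873024)))) (a (b (a (l 15907232) (l 15833080)) (b (l 15761240) (l 15684872))) (b (a (l 15756944) (l 15678856)) (a (l 15581296) (l 15481472)))))) (b (a (a (a (b (l 15976744) (l 15820640)) (b (l 15891184) (l 15769112))) (a (b (l 15789936) (l 15693368)) (b (l 15679032) (l 15582752)))) (b (a (a (l 403758053751)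 (l 1)) (l 1)) (l 1))) (a (a (b (a (l 15599184) (l 15528080)) (a (l 15380808) (l 15285832))) (b (a (l 15470800) (l 1)) (l 1))) (l 1)))) (a (b (a (b (a (b (l 15986936) (l 15930912)) (b (l 15807616) (l 15742976))) (a (b (l 15872856) (l 15806064)) (b (l 15670768) (l 15592008)))) (b (a (b (l 15610336) (l 15533448)) (b (l 15392816) (l 15305128))) (a (b (l 15449184) (l 15358120)) (l 1)))) (a (b (a (b (l 15753952) (l 15653680)) (b (l 15503536) (l 15410000))) (a (b (l 15650248) (l 15644392)) (b (l 15462704) (l 1)))) (b (a (b (l 15263488) (l 1)) (l 1)) (l 1)))) (l 1))), by decide +kernel⟩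

theorem s2_pp_033 : ∃ t, chk3 f_pp_033 t 1 1 1 = true := ex3_b k0_pp_033 k1_pp_033

theorem c_pp_033 : CertB 0 536870912 0 1230186008 858993459 64424510 3 eng mog cd0q0 cd4q3 pd3 false true true .pnn 0 3 3
    ndB0q0 ndB4q3 pcB3 cut_pp_033 Ext.none :=
  certB2 (fam := false) (s1 := true) (s2 := true) (a := 0) (b := 3) (c := 3) (cn := .pnn) (n1 := ndB0q0) (n2 := ndB4q3) (pc := pcB3) (cut := cut_pp_033) (xt := Ext.none) (P1 := 0) (W1 := 536870912) (P2 := 0) (W2 := 1230186008) (P3 := 858993459) (W3 := 64424510) (N0 := 3) (En := eng) (mo := mog) (C1 := cd0q0) (C2 := cd4q3) (C3 := pd3)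
    rfl (fun _ => rfl) s2_pp_033

noncomputable def cut_pp_101 : Cut := Cut.of [[⟨3, 0, 0, 1449551462⟩]]

noncomputable def f_pp_101 : ℕ → ℕ → ℕ → ℕ → Bool := onCell 536870912 536870912 0 536870912 858993459 64424510
    (rowB 3 eng mog cd0q1 cd4q1 pd0 1 false true true .npn 1 0 1 (qsf 536870912 536870912 536870912 536870912 0) ndB0q1 ndB4q1 pcB0 cut_pp_101 Ext.none)

def k0_pp_101 : ∃ t, chk3 f_pp_101 t 1 1 1 = true :=
  ⟨(l 6), by decide +kernel⟩

theorem c_pp_101 : CertB 536870912 536870912 536870912 536870912 858993459 64424510 3 eng mog cd0q1 cd4q1 pd0 false true true .npn 1 0 1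
    ndB0q1 ndB4q1 pcB0 cut_pp_101 Ext.none :=
  certB1 (fam := false) (s1 := true) (s2 := true) (a := 1) (b := 0) (c := 1) (cn := .npn) (n1 := ndB0q1) (n2 := ndB4q1) (pc := pcB0) (cut := cut_pp_101) (xt := Ext.none) (P1 := 536870912) (W1 := 536870912) (P2 := 536870912) (W2 := 536870912) (P3 := 858993459) (W3 := 64424510) (N0 := 3) (En := eng) (mo := mog) (C1 := cd0q1) (C2 := cd4q1) (C3 := pd0)
    rfl (fun _ => rfl) k0_pp_101

noncomputable def cut_pp_102 : Cut := Cut.of [[⟨3, 0, 0, 1449551462⟩]]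

noncomputable def f_pp_102 : ℕ → ℕ → ℕ → ℕ → Bool := onCell 536870912 536870912 1073741824 536870912 858993459 64424510
    (rowB 3 eng mog cd0q1 cd4q2 pd0 0 false true true .npp 1 0 2 (qsf 536870912 536870912 1073741824 536870912 0) ndB0q1 ndB4q2 pcB0 cut_pp_102 Ext.none)

def k0_pp_102 : ∃ t, chk3 f_pp_102 t 1 1 1 = true :=
  ⟨(l 6), by decide +kernel⟩

theorem c_pp_102 : CertB 536870912 536870912 1073741824 536870912 858993459 64424510 3 eng mog cd0q1 cd4q2 pd0 false true true .npp 1 0 2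
    ndB0q1 ndB4q2 pcB0 cut_pp_102 Ext.none :=
  certB0 (fam := false) (s1 := true) (s2 := true) (a := 1) (b := 0) (c := 2) (cn := .npp) (n1 := ndB0q1) (n2 := ndB4q2) (pc := pcB0) (cut := cut_pp_102) (xt := Ext.none) (P1 := 536870912) (W1 := 536870912) (P2 := 1073741824) (W2 := 536870912) (P3 := 858993459) (W3 := 64424510) (N0 := 3) (En := eng) (mo := mog) (C1 := cd0q1) (C2 := cd4q2) (C3 := pd0)
    rfl k0_pp_102

noncomputable def cut_pp_112 : Cut := Cut.of [[⟨3, 0, 0, 1449551462⟩]]

noncomputable def f_pp_112 : ℕ → ℕ → ℕ → ℕ → Bool := onCell 536870912 536870912 1073741824 536870912 858993459 64424510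
    (rowB 3 eng mog cd0q1 cd4q2 pd1 0 false true true .dn 1 1 2 (qsf 536870912 536870912 1073741824 536870912 1) ndB0q1 ndB4q2 pcB1 cut_pp_112 Ext.none)

def k0_pp_112 : ∃ t, chk3 f_pp_112 t 1 1 1 = true :=
  ⟨(l 6), by decide +kernel⟩

theorem c_pp_112 : CertB 536870912 536870912 1073741824 536870912 858993459 64424510 3 eng mog cd0q1 cd4q2 pd1 false true true .dn 1 1 2
    ndB0q1 ndB4q2 pcB1 cut_pp_112 Ext.none :=
  certB0 (fam := false) (s1 := true) (s2 := true) (a := 1) (b := 1) (c := 2) (cn := .dn) (n1 := ndB0q1) (n2 := ndB4q2) (pc := pcB1) (cut := cut_pp_112) (xt := Ext.none) (P1 := 536870912) (W1 := 536870912) (P2 := 1073741824) (W2 := 536870912) (P3 := 858993459) (W3 := 64424510) (N0 := 3) (En := eng) (mo := mog) (C1 := cd0q1) (C2 := cd4q2) (C3 := pd1)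
    rfl k0_pp_112

noncomputable def cut_pp_113 : Cut := Cut.of [[⟨3, 0, 0, 1449551462⟩], [⟨0, 1, 0, 67108864⟩, ⟨1, 1, 0, 67108864⟩, ⟨2, 2, 0, 16777216⟩]]

noncomputable def f_pp_113 : ℕ → ℕ → ℕ → ℕ → Bool := onCell 536870912 536870912 0 1230186008 858993459 64424510
    (rowB 3 eng mog cd0q1 cd4q3 pd1 0 false true true .nn 1 1 3 (qsf 536870912 536870912 0 1230186008 1) ndB0q1 ndB4q3 pcB1 cut_pp_113 Ext.none)

def k0_pp_113 : ∃ t, chk3 f_pp_113 t 1 1 1 = true :=
  ⟨(b (a (l 2) (a (l 2) (b (a (l 2) (l 6)) (l 6)))) (b (a (a (l 2) (l 6)) (l 6)) (l 6))), by decide +kernel⟩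

theorem c_pp_113 : CertB 536870912 536870912 0 1230186008 858993459 64424510 3 eng mog cd0q1 cd4q3 pd1 false true true .nn 1 1 3
    ndB0q1 ndB4q3 pcB1 cut_pp_113 Ext.none :=
  certB0 (fam := false) (s1 := true) (s2 := true) (a := 1) (b := 1) (c := 3) (cn := .nn) (n1 := ndB0q1) (n2 := ndB4q3) (pc := pcB1) (cut := cut_pp_113) (xt := Ext.none) (P1 := 536870912) (W1 := 536870912) (P2 := 0) (W2 := 1230186008) (P3 := 858993459) (W3 := 64424510) (N0 := 3) (En := eng) (mo := mog) (C1 := cd0q1) (C2 := cd4q3) (C3 := pd1)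
    rfl k0_pp_113

noncomputable def cut_pp_123 : Cut := Cut.of [[⟨3, 0, 0, 1449551462⟩], [⟨0, 1, 0, 67108864⟩, ⟨1, 1, 0, 67108864⟩, ⟨2, 2, 0, 16777216⟩]]

noncomputable def f_pp_123 : ℕ → ℕ → ℕ → ℕ → Bool := onCell 536870912 536870912 0 1230186008 858993459 64424510
    (rowB 3 eng mog cd0q1 cd4q3 pd2 0 false true true .npn 1 2 3 (qsf 536870912 536870912 0 1230186008 2) ndB0q1 ndB4q3 pcB2 cut_pp_123 Ext.none)

def k0_pp_123 : ∃ t, chk3 f_pp_123 t 1 1 1 = true :=
  ⟨(b (a (a (b (b (a (b (a (l 16095184) (l 16079920)) (a (l 16088632) (l 16133696))) (c (b (l 16071488) (l 16198808)) (b (l 16182200) (l 16317024)))) (a (c (b (l 16216472) (l 16395912)) (b (l 16322184) (l 16461368))) (b (c (l 16363824) (l 16470560)) (c (l 16504440) (l 16560232))))) (b (b (a (a (l 16510416) (l 16542120)) (a (l 16562720) (l 16577648))) (a (l 16545360) (l 16571792))) (a (b (l 16440128) (a (l 16541856) (l 16563480))) (b (l 16578480) (l 16638384))))) (b (b (a (c (a (l 16233000) (l 16307608)) (l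 16395640)) (c (a (l 16383536) (l 16458264)) (l 16525952))) (a (b (c (l 16494496) (l 16566216)) (c (l 16550272) (l 16613544))) (b (a (l 16582520) (l 16605248)) (a (l 16603304) (l 16616280))))) (b (a (c (b (l 16570688) (l 16522968)) (b (l 16615064) (l 16590816))) (a (b (l 16608976) (l 16624560)) (b (l 16628448) (l 6)))) (a (a (b (l 16583696) (l 16505072)) (b (l 16541232) (l 6))) (l 6))))) (a (b (a (b (a (c (l 16527272) (l 16596856)) (b (l 16568520) (l 16623240))) (a (b (l 16623648) (l 16613384)) (b (l 16640008) (l 16594208)))) (b (b (a (l 16610808) (a (a (l 16628632) (l 16633136)) (l 16640152))) (a (c (l 16635024) (l 16650176)) (b (a (l 16650408) (l 6)) (l 6)))) (a (b (a (l 16654032) (l 6)) (l 6)) (l 6)))) (a (b (b (l 6) (l 6)) (l 6)) (l 6))) (b (a (a (a (b (b (l 16534288) (l 6)) (l 6)) (l 6)) (l 6)) (l 6)) (l 6)))) (a (b (a (b (a (b (a (l 16557752) (l 16584776)) (c (l 16623392) (a (l 16555584) (l 16591784)))) (a (b (l 16611912) (l 6)) (l 6))) (b (l 6) (l 6))) (l 6))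 (l 6)) (l 6))), by decide +kernel⟩

theorem c_pp_123 : CertB 536870912 536870912 0 1230186008 858993459 64424510 3 eng mog cd0q1 cd4q3 pd2 false true true .npn 1 2 3
    ndB0q1 ndB4q3 pcB2 cut_pp_123 Ext.none :=
  certB0 (fam := false) (s1 := true) (s2 := true) (a := 1) (b := 2) (c := 3) (cn := .npn) (n1 := ndB0q1) (n2 := ndB4q3) (pc := pcB2) (cut := cut_pp_123) (xt := Ext.none) (P1 := 536870912) (W1 := 536870912) (P2 := 0) (W2 := 1230186008) (P3 := 858993459) (W3 := 64424510) (N0 := 3) (En := eng) (mo := mog) (C1 := cd0q1) (C2 := cd4q3) (C3 := pd2)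
    rfl k0_pp_123

noncomputable def cut_pp_133 : Cut := Cut.of [[⟨3, 0, 0, 1449551462⟩]]

noncomputable def f_pp_133 : ℕ → ℕ → ℕ → ℕ → Bool := onCell 536870912 536870912 0 1230186008 858993459 64424510
    (rowB 3 eng mog cd0q1 cd4q3 pd3 0 false true true .dn 1 3 3 (qsf 536870912 536870912 0 1230186008 3) ndB0q1 ndB4q3 pcB3 cut_pp_133 Ext.none)

def k0_pp_133 : ∃ t, chk3 f_pp_133 t 1 1 1 = true :=
  ⟨(b (b (a (a (b (a (c (l 16742112) (l 16660456)) (l 1)) (l 1)) (l 1)) (l 1)) (l 1)) (l 1)), by decide +kernel⟩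

theorem c_pp_133 : CertB 536870912 536870912 0 1230186008 858993459 64424510 3 eng mog cd0q1 cd4q3 pd3 false true true .dn 1 3 3
    ndB0q1 ndB4q3 pcB3 cut_pp_133 Ext.none :=
  certB0 (fam := false) (s1 := true) (s2 := true) (a := 1) (b := 3) (c := 3) (cn := .dn) (n1 := ndB0q1) (n2 := ndB4q3) (pc := pcB3) (cut := cut_pp_133) (xt := Ext.none) (P1 := 536870912) (W1 := 536870912) (P2 := 0) (W2 := 1230186008) (P3 := 858993459) (W3 := 64424510) (N0 := 3) (En := eng) (mo := mog) (C1 := cd0q1) (C2 := cd4q3) (C3 := pd3)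
    rfl k0_pp_133

noncomputable def cut_pp_202 : Cut := Cut.of [[⟨3, 0, 0, 1449551462⟩]]

noncomputable def f_pp_202 : ℕ → ℕ → ℕ → ℕ → Bool := onCell 0 536870912 1073741824 536870912 858993459 64424510
    (rowB 3 eng mog cd0q2 cd4q2 pd0 0 false true true .pp 2 0 2 (qsf 0 536870912 1073741824 536870912 0) ndB0q2 ndB4q2 pcB0 cut_pp_202 Ext.none)

def k0_pp_202 : ∃ t, chk3 f_pp_202 t 1 1 1 = true :=
  ⟨(l 5), by decide +kernel⟩

theorem c_pp_202 : CertB 0 536870912 1073741824 536870912 858993459 64424510 3 eng mog cd0q2 cd4q2 pd0 false true true .pp 2 0 2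
    ndB0q2 ndB4q2 pcB0 cut_pp_202 Ext.none :=
  certB0 (fam := false) (s1 := true) (s2 := true) (a := 2) (b := 0) (c := 2) (cn := .pp) (n1 := ndB0q2) (n2 := ndB4q2) (pc := pcB0) (cut := cut_pp_202) (xt := Ext.none) (P1 := 0) (W1 := 536870912) (P2 := 1073741824) (W2 := 536870912) (P3 := 858993459) (W3 := 64424510) (N0 := 3) (En := eng) (mo := mog) (C1 := cd0q2) (C2 := cd4q2) (C3 := pd0)
    rfl k0_pp_202

noncomputable def cut_pp_203 : Cut := Cut.of [[⟨3, 0, 0, 1449551462⟩]]

noncomputable def f_pp_203 : ℕ → ℕ → ℕ → ℕ → Bool := onCell 0 536870912 0 1230186008 858993459 64424510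
    (rowB 3 eng mog cd0q2 cd4q3 pd0 0 false true true .up 2 0 3 (qsf 0 536870912 0 1230186008 0) ndB0q2 ndB4q3 pcB0 cut_pp_203 Ext.none)

def k0_pp_203 : ∃ t, chk3 f_pp_203 t 1 1 1 = true :=
  ⟨(b (l 2) (a (l 5) (l 6))), by decide +kernel⟩

theorem c_pp_203 : CertB 0 536870912 0 1230186008 858993459 64424510 3 eng mog cd0q2 cd4q3 pd0 false true true .up 2 0 3
    ndB0q2 ndB4q3 pcB0 cut_pp_203 Ext.none :=
  certB0 (fam := false) (s1 := true) (s2 := true) (a := 2) (b := 0) (c := 3) (cn := .up) (n1 := ndB0q2) (n2 := ndB4q3) (pc := pcB0) (cut := cut_pp_203) (xt := Ext.none) (P1 := 0) (W1 := 536870912) (P2 := 0) (W2 := 1230186008) (P3 := 858993459) (W3 := 64424510) (N0 := 3) (En := eng) (mo := mog) (C1 := cd0q2) (C2 := cd4q3) (C3 := pd0)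
    rfl k0_pp_203

noncomputable def cut_pp_213 : Cut := Cut.of [[⟨3, 0, 0, 1449551462⟩], [⟨0, 1, 0, 67108864⟩, ⟨1, 1, 0, 67108864⟩, ⟨2, 2, 0, 16777216⟩]]

noncomputable def f_pp_213 : ℕ → ℕ → ℕ → ℕ → Bool := onCell 0 536870912 0 1230186008 858993459 64424510
    (rowB 3 eng mog cd0q2 cd4q3 pd1 0 false true true .pnn 2 1 3 (qsf 0 536870912 0 1230186008 1) ndB0q2 ndB4q3 pcB1 cut_pp_213 Ext.none)

def k0_pp_213 : ∃ t, chk3 f_pp_213 t 1 1 1 = true :=
  ⟨(b (l 6) (a (l 5) (l 6))), by decide +kernel⟩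

theorem c_pp_213 : CertB 0 536870912 0 1230186008 858993459 64424510 3 eng mog cd0q2 cd4q3 pd1 false true true .pnn 2 1 3
    ndB0q2 ndB4q3 pcB1 cut_pp_213 Ext.none :=
  certB0 (fam := false) (s1 := true) (s2 := true) (a := 2) (b := 1) (c := 3) (cn := .pnn) (n1 := ndB0q2) (n2 := ndB4q3) (pc := pcB1) (cut := cut_pp_213) (xt := Ext.none) (P1 := 0) (W1 := 536870912) (P2 := 0) (W2 := 1230186008) (P3 := 858993459) (W3 := 64424510) (N0 := 3) (En := eng) (mo := mog) (C1 := cd0q2) (C2 := cd4q3) (C3 := pd1)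
    rfl k0_pp_213

noncomputable def cut_pm_001 : Cut := Cut.of [[⟨3, 0, 0, 1449551462⟩]]

noncomputable def f_pm_001 : ℕ → ℕ → ℕ → ℕ → Bool := onCell 0 536870912 536870912 536870912 858993459 64424510
    (rowB 3 eng mog cd0q0 cd4q1 pd0 0 false true false .up 0 0 1 (qsf 0 536870912 536870912 536870912 0) ndB0q0 ndB4q1 pcB0 cut_pm_001 Ext.none)

def k0_pm_001 : ∃ t, chk3 f_pm_001 t 1 1 1 = true :=
  ⟨(l 4), by decide +kernel⟩

theorem c_pm_001 : CertB 0 536870912 536870912 536870912 858993459 64424510 3 eng mog cd0q0 cd4q1 pd0 false true false .up 0 0 1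
    ndB0q0 ndB4q1 pcB0 cut_pm_001 Ext.none :=
  certB0 (fam := false) (s1 := true) (s2 := false) (a := 0) (b := 0) (c := 1) (cn := .up) (n1 := ndB0q0) (n2 := ndB4q1) (pc := pcB0) (cut := cut_pm_001) (xt := Ext.none) (P1 := 0) (W1 := 536870912) (P2 := 536870912) (W2 := 536870912) (P3 := 858993459) (W3 := 64424510) (N0 := 3) (En := eng) (mo := mog) (C1 := cd0q0) (C2 := cd4q1) (C3 := pd0)
    rfl k0_pm_001

noncomputable def cut_pm_011 : Cut := Cut.of [[⟨3, 0, 0, 1449551462⟩]]

noncomputable def f_pm_011 : ℕ → ℕ → ℕ → ℕ → Bool := onCell 0 536870912 536870912 536870912 858993459 64424510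
    (rowB 3 eng mog cd0q0 cd4q1 pd1 0 false true false .pnn 0 1 1 (qsf 0 536870912 536870912 536870912 1) ndB0q0 ndB4q1 pcB1 cut_pm_011 Ext.none)

def k0_pm_011 : ∃ t, chk3 f_pm_011 t 1 1 1 = true :=
  ⟨(l 4), by decide +kernel⟩

theorem c_pm_011 : CertB 0 536870912 536870912 536870912 858993459 64424510 3 eng mog cd0q0 cd4q1 pd1 false true false .pnn 0 1 1
    ndB0q0 ndB4q1 pcB1 cut_pm_011 Ext.none :=
  certB0 (fam := false) (s1 := true) (s2 := false) (a := 0) (b := 1) (c := 1) (cn := .pnn) (n1 := ndB0q0) (n2 := ndB4q1) (pc := pcB1) (cut := cut_pm_011) (xt := Ext.none) (P1 := 0) (W1 := 536870912) (P2 := 536870912) (W2 := 536870912) (P3 := 858993459) (W3 := 64424510) (N0 := 3) (En := eng) (mo := mog) (C1 := cd0q0) (C2 := cd4q1) (C3 := pd1)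
    rfl k0_pm_011

noncomputable def cut_pm_012 : Cut := Cut.of [[⟨3, 0, 0, 1449551462⟩]]

noncomputable def f_pm_012 : ℕ → ℕ → ℕ → ℕ → Bool := onCell 0 536870912 1073741824 536870912 858993459 64424510
    (rowB 3 eng mog cd0q0 cd4q2 pd1 0 false true false .pnp 0 1 2 (qsf 0 536870912 1073741824 536870912 1) ndB0q0 ndB4q2 pcB1 cut_pm_012 Ext.none)

def k0_pm_012 : ∃ t, chk3 f_pm_012 t 1 1 1 = true :=
  ⟨(l 4), by decide +kernel⟩

theorem c_pm_012 : CertB 0 536870912 1073741824 536870912 858993459 64424510 3 eng mog cd0q0 cd4q2 pd1 false true false .pnp 0 1 2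
    ndB0q0 ndB4q2 pcB1 cut_pm_012 Ext.none :=
  certB0 (fam := false) (s1 := true) (s2 := false) (a := 0) (b := 1) (c := 2) (cn := .pnp) (n1 := ndB0q0) (n2 := ndB4q2) (pc := pcB1) (cut := cut_pm_012) (xt := Ext.none) (P1 := 0) (W1 := 536870912) (P2 := 1073741824) (W2 := 536870912) (P3 := 858993459) (W3 := 64424510) (N0 := 3) (En := eng) (mo := mog) (C1 := cd0q0) (C2 := cd4q2) (C3 := pd1)
    rfl k0_pm_012

noncomputable def cut_pm_022 : Cut := Cut.of [[⟨3, 0, 0, 1449551462⟩]]

noncomputable def f_pm_022 : ℕ → ℕ → ℕ → ℕ → Bool := onCell 0 536870912 1073741824 536870912 858993459 64424510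
    (rowB 3 eng mog cd0q0 cd4q2 pd2 0 false true false .pp 0 2 2 (qsf 0 536870912 1073741824 536870912 2) ndB0q0 ndB4q2 pcB2 cut_pm_022 Ext.none)

def k0_pm_022 : ∃ t, chk3 f_pm_022 t 1 1 1 = true :=
  ⟨(l 4), by decide +kernel⟩

theorem c_pm_022 : CertB 0 536870912 1073741824 536870912 858993459 64424510 3 eng mog cd0q0 cd4q2 pd2 false true false .pp 0 2 2
    ndB0q0 ndB4q2 pcB2 cut_pm_022 Ext.none :=
  certB0 (fam := false) (s1 := true) (s2 := false) (a := 0) (b := 2) (c := 2) (cn := .pp) (n1 := ndB0q0) (n2 := ndB4q2) (pc := pcB2) (cut := cut_pm_022) (xt := Ext.none) (P1 := 0) (W1 := 536870912) (P2 := 1073741824) (W2 := 536870912) (P3 := 858993459) (W3 := 64424510) (N0 := 3) (En := eng) (mo := mog) (C1 := cd0q0) (C2 := cd4q2) (C3 := pd2)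
    rfl k0_pm_022

noncomputable def cut_pm_023 : Cut := Cut.of [[⟨3, 0, 0, 1449551462⟩]]

noncomputable def f_pm_023 : ℕ → ℕ → ℕ → ℕ → Bool := onCell 0 536870912 0 1230186008 858993459 64424510
    (rowB 3 eng mog cd0q0 cd4q3 pd2 0 false true false .up 0 2 3 (qsf 0 536870912 0 1230186008 2) ndB0q0 ndB4q3 pcB2 cut_pm_023 Ext.none)

def k0_pm_023 : ∃ t, chk3 f_pm_023 t 1 1 1 = true :=
  ⟨(b (a (l 2) (a (l 2) (b (a (l 2) (a (l 2) (b (l 16193432) (l 16093520)))) (b (l 4) (l 4))))) (l 4)), by decide +kernel⟩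

theorem c_pm_023 : CertB 0 536870912 0 1230186008 858993459 64424510 3 eng mog cd0q0 cd4q3 pd2 false true false .up 0 2 3
    ndB0q0 ndB4q3 pcB2 cut_pm_023 Ext.none :=
  certB0 (fam := false) (s1 := true) (s2 := false) (a := 0) (b := 2) (c := 3) (cn := .up) (n1 := ndB0q0) (n2 := ndB4q3) (pc := pcB2) (cut := cut_pm_023) (xt := Ext.none) (P1 := 0) (W1 := 536870912) (P2 := 0) (W2 := 1230186008) (P3 := 858993459) (W3 := 64424510) (N0 := 3) (En := eng) (mo := mog) (C1 := cd0q0) (C2 := cd4q3) (C3 := pd2)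
    rfl k0_pm_023

noncomputable def cut_pm_033 : Cut := Cut.of [[⟨3, 0, 0, 1449551462⟩]]

noncomputable def f_pm_033 : ℕ → ℕ → ℕ → ℕ → Bool := onCell 1610612736 536870912 0 1230186008 858993459 64424510
    (rowB 3 eng mog cd0q0 cd4q3 pd3 2 false true false .pnn 0 3 3 (qsf 0 536870912 0 1230186008 3) ndB0q0 ndB4q3 pcB3 cut_pm_033 Ext.none)

def k0_pm_033 : ∃ t, chk3 f_pm_033 t 1 1 1 = true :=
  ⟨(b (b (a (a (a (b (l 16446040) (a (l 16091552) (l 16136616))) (b (a (l 16368496) (l 16325328)) (a (l 16288472) (l 4)))) (a (b (a (l 16285880) (l 16247448)) (l 4)) (l 4))) (l 4)) (l 4)) (l 4)), by decide +kernel⟩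

theorem c_pm_033 : CertB 0 536870912 0 1230186008 858993459 64424510 3 eng mog cd0q0 cd4q3 pd3 false true false .pnn 0 3 3
    ndB0q0 ndB4q3 pcB3 cut_pm_033 Ext.none :=
  certB2 (fam := false) (s1 := true) (s2 := false) (a := 0) (b := 3) (c := 3) (cn := .pnn) (n1 := ndB0q0) (n2 := ndB4q3) (pc := pcB3) (cut := cut_pm_033) (xt := Ext.none) (P1 := 0) (W1 := 536870912) (P2 := 0) (W2 := 1230186008) (P3 := 858993459) (W3 := 64424510) (N0 := 3) (En := eng) (mo := mog) (C1 := cd0q0) (C2 := cd4q3) (C3 := pd3)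
    rfl (fun _ => rfl) k0_pm_033

noncomputable def cut_pm_101 : Cut := Cut.of [[⟨3, 0, 0, 1449551462⟩]]

noncomputable def f_pm_101 : ℕ → ℕ → ℕ → ℕ → Bool := onCell 536870912 536870912 536870912 536870912 858993459 64424510
    (rowB 3 eng mog cd0q1 cd4q1 pd0 0 false true false .npn 1 0 1 (qsf 536870912 536870912 536870912 536870912 0) ndB0q1 ndB4q1 pcB0 cut_pm_101 Ext.none)

def k0_pm_101 : ∃ t, chk3 f_pm_101 t 1 1 1 = true :=
  ⟨(l 4), by decide +kernel⟩

theorem c_pm_101 : CertB 536870912 536870912 536870912 536870912 858993459 64424510 3 eng mog cd0q1 cd4q1 pd0 false true false .npn 1 0 1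
    ndB0q1 ndB4q1 pcB0 cut_pm_101 Ext.none :=
  certB0 (fam := false) (s1 := true) (s2 := false) (a := 1) (b := 0) (c := 1) (cn := .npn) (n1 := ndB0q1) (n2 := ndB4q1) (pc := pcB0) (cut := cut_pm_101) (xt := Ext.none) (P1 := 536870912) (W1 := 536870912) (P2 := 536870912) (W2 := 536870912) (P3 := 858993459) (W3 := 64424510) (N0 := 3) (En := eng) (mo := mog) (C1 := cd0q1) (C2 := cd4q1) (C3 := pd0)
    rfl k0_pm_101

noncomputable def cut_pm_102 : Cut := Cut.of [[⟨3, 0, 0, 1449551462⟩]]

noncomputable def f_pm_102 : ℕ → ℕ → ℕ → ℕ → Bool := onCell 536870912 536870912 1073741824 536870912 858993459 64424510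
    (rowB 3 eng mog cd0q1 cd4q2 pd0 0 false true false .npp 1 0 2 (qsf 536870912 536870912 1073741824 536870912 0) ndB0q1 ndB4q2 pcB0 cut_pm_102 Ext.none)

def k0_pm_102 : ∃ t, chk3 f_pm_102 t 1 1 1 = true :=
  ⟨(a (l 4) (b (l 4) (a (l 4) (b (l 4) (a (l 4) (b (l 4) (a (l 4) (b (l 15535248) (l 15591584))))))))), by decide +kernel⟩

theorem c_pm_102 : CertB 536870912 536870912 1073741824 536870912 858993459 64424510 3 eng mog cd0q1 cd4q2 pd0 false true false .npp 1 0 2
    ndB0q1 ndB4q2 pcB0 cut_pm_102 Ext.none :=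
  certB0 (fam := false) (s1 := true) (s2 := false) (a := 1) (b := 0) (c := 2) (cn := .npp) (n1 := ndB0q1) (n2 := ndB4q2) (pc := pcB0) (cut := cut_pm_102) (xt := Ext.none) (P1 := 536870912) (W1 := 536870912) (P2 := 1073741824) (W2 := 536870912) (P3 := 858993459) (W3 := 64424510) (N0 := 3) (En := eng) (mo := mog) (C1 := cd0q1) (C2 := cd4q2) (C3 := pd0)
    rfl k0_pm_102

noncomputable def cut_pm_112 : Cut := Cut.of [[⟨3, 0, 0, 1449551462⟩]]

noncomputable def f_pm_112 : ℕ → ℕ → ℕ → ℕ → Bool := onCell 536870912 536870912 1073741824 536870912 858993459 64424510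
    (rowB 3 eng mog cd0q1 cd4q2 pd1 0 false true false .dn 1 1 2 (qsf 536870912 536870912 1073741824 536870912 1) ndB0q1 ndB4q2 pcB1 cut_pm_112 Ext.none)

def k0_pm_112 : ∃ t, chk3 f_pm_112 t 1 1 1 = true :=
  ⟨(a (l 4) (b (l 4) (a (l 4) (b (l 4) (a (l 4) (b (l 4) (l 15580112))))))), by decide +kernel⟩

theorem c_pm_112 : CertB 536870912 536870912 1073741824 536870912 858993459 64424510 3 eng mog cd0q1 cd4q2 pd1 false true false .dn 1 1 2
    ndB0q1 ndB4q2 pcB1 cut_pm_112 Ext.none :=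
  certB0 (fam := false) (s1 := true) (s2 := false) (a := 1) (b := 1) (c := 2) (cn := .dn) (n1 := ndB0q1) (n2 := ndB4q2) (pc := pcB1) (cut := cut_pm_112) (xt := Ext.none) (P1 := 536870912) (W1 := 536870912) (P2 := 1073741824) (W2 := 536870912) (P3 := 858993459) (W3 := 64424510) (N0 := 3) (En := eng) (mo := mog) (C1 := cd0q1) (C2 := cd4q2) (C3 := pd1)
    rfl k0_pm_112

noncomputable def cut_pm_113 : Cut := Cut.of [[⟨3, 0, 0, 1449551462⟩], [⟨0, 1, 0, 67108864⟩, ⟨1, 1, 0, 67108864⟩, ⟨2, 2, 0, 16777216⟩]]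

noncomputable def f_pm_113 : ℕ → ℕ → ℕ → ℕ → Bool := onCell 536870912 536870912 0 1230186008 858993459 64424510
    (rowB 3 eng mog cd0q1 cd4q3 pd1 0 false true false .nn 1 1 3 (qsf 536870912 536870912 0 1230186008 1) ndB0q1 ndB4q3 pcB1 cut_pm_113 Ext.none)

def k0_pm_113 : ∃ t, chk3 f_pm_113 t 1 1 1 = true :=
  ⟨(a (b (l 2) (b (b (l 2) (l 4)) (l 4))) (a (b (l 2) (a (b (b (l 2) (b (c (l 322220386631) (l 290007602279)) (a (l 4) (l 15121968)))) (l 4)) (b (b (b (l 273365605175) (l 15734848)) (b (l 15642608) (a (l 15356400) (l 15621920)))) (b (b (a (l 15340040) (l 15525520)) (b (l 15428192) (l 4))) (l 4))))) (b (b (a (l 2) (a (l 2) (b (l 6) (b (l 14) (a (l 16749104) (l 16796288)))))) (a (b (a (l 2) (b (l 2) (l 16254976))) (a (b (l 2) (l 16137248)) (b (l 16381920) (l 16319584)))) (b (b (a (c (l 16718200) (l 16616328)) (a (l 16768760) (l 16803584))) (a (l 16465384) (a (l 16770800) (l 16818784)))) (a (b (l 16570120) (l 16508880)) (b (l 16718368) (l 16719640)))))) (b (b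 (a (b (a (l 16074488) (l 16258024)) (a (l 16015144) (l 16198744))) (a (b (l 16447624) (l 16387440)) (b (l 16657416) (l 16595176)))) (a (b (a (l 15961184) (l 16143168)) (a (l 15902040) (l 16086264))) (b (a (l 16329464) (l 16533736)) (a (l 16268456) (l 16467392))))) (b (b (a (a (b (l 15766888) (l 15702200)) (b (l 16007192) (l 15902280))) (a (l 16154368) (l 16291232))) (a (a (l 15639600) (b (l 15820072) (l 15754560))) (c (a (l 16090880) (b (l 16260544) (l 16141224))) (b (a (l 15814016) (l 15941072)) (l 15793672))))) (b (a (a (l 4) (l 15688992)) (a (l 15775160) (b (l 15895448) (l 15812208)))) (a (l 4) (b (l 15716368) (l 15658120))))))))), by decide +kernel⟩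

theorem c_pm_113 : CertB 536870912 536870912 0 1230186008 858993459 64424510 3 eng mog cd0q1 cd4q3 pd1 false true false .nn 1 1 3
    ndB0q1 ndB4q3 pcB1 cut_pm_113 Ext.none :=
  certB0 (fam := false) (s1 := true) (s2 := false) (a := 1) (b := 1) (c := 3) (cn := .nn) (n1 := ndB0q1) (n2 := ndB4q3) (pc := pcB1) (cut := cut_pm_113) (xt := Ext.none) (P1 := 536870912) (W1 := 536870912) (P2 := 0) (W2 := 1230186008) (P3 := 858993459) (W3 := 64424510) (N0 := 3) (En := eng) (mo := mog) (C1 := cd0q1) (C2 := cd4q3) (C3 := pd1)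
    rfl k0_pm_113

noncomputable def cut_pm_123 : Cut := Cut.of [[⟨3, 0, 0, 1449551462⟩], [⟨0, 1, 0, 67108864⟩, ⟨1, 1, 0, 67108864⟩, ⟨2, 2, 0, 16777216⟩]]

noncomputable def f_pm_123 : ℕ → ℕ → ℕ → ℕ → Bool := onCell 1073741824 536870912 0 1230186008 858993459 64424510
    (rowB 3 eng mog cd0q1 cd4q3 pd2 2 false true false .npn 1 2 3 (qsf 536870912 536870912 0 1230186008 2) ndB0q1 ndB4q3 pcB2 cut_pm_123 Ext.none)

def k0_pm_123 : ∃ t, chk3 f_pm_123 t 2 2 1 = true :=
  ⟨(a (b (a (b (a (l 6) (b (l 6) (a (l 6) (l 16624728)))) (a (b (l 14) (a (l 16663952) (l 16652576))) (b (a (l 14) (l 16624200)) (b (l 16607408) (l 16603616))))) (b (b (a (a (l 6) (l 16633832)) (c (l 16533672) (l 16651032))) (a (c (l 16599760) (l 16641544)) (l 16590600))) (a (b (l 16705912) (b (l 16581192) (l 16564328))) (b (c (l 16520640) (l 16582640)) (a (l 16517712) (l 16474904)))))) (b (a (a (b (a (l 16682792) (l 16659432)) (b (l 16671688) (l 16679344))) (b (b (l 16617672) (l 16564520)) (a (l 16379792)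 (l 16417240)))) (b (a (a (l 16483776) (l 16434032)) (b (l 16443560) (l 16386480))) (a (l 16272064) (l 16286728)))) (a (a (b (b (l 16520944) (l 16431872)) (a (l 16287760) (l 16219808))) (b (c (l 16349736) (l 16343176)) (l 16133272))) (a (b (l 16229000) (l 16041328)) (b (l 16139736) (l 15973928)))))) (b (a (b (a (c (l 16441552) (l 16591992)) (c (l 16425288) (l 16542088))) (b (a (l 16312928) (l 16397520)) (a (c (l 16371480) (l 16439360)) (c (l 16280832) (l 16355152))))) (b (c (a (l 16410736) (l 16322800)) (a (l 16483816) (l 16413520))) (a (b (c (l 16262904) (l 16349488)) (l 16233096)) (b (l 16037088) (l 16174128))))) (a (b (a (b (l 16311888) (l 16200288)) (b (l 16228840) (l 16134680))) (a (b (l 16073032) (l 15928184)) (b (l 16025696) (l 15900560)))) (b (a (b (l 16166392) (l 16088400)) (b (l 16123704) (l 16062712))) (a (b (l 15997616) (l 15892768)) (b (l 15989808) (l 15911744))))))), by decide +kernel⟩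

def k1_pm_123 : ∃ t, chk3 f_pm_123 t 3 2 1 = true :=
  ⟨(a (b (a (b (a (b (l 16336400) (l 16032616)) (b (l 16250088) (l 16156040))) (a (b (l 16165296) (l 16136520)) (c (l 16089496) (l 16165896)))) (b (c (a (l 16094552) (l 16066752)) (a (l 16211552) (l 16174976))) (a (c (l 16088704) (l 16152864)) (l 16126032)))) (a (b (a (b (l 16101112) (l 16056640)) (b (l 16097632) (l 16068504))) (a (b (l 16002032) (l 15927960)) (b (l 16030320) (l 4)))) (b (a (b (l 16109656) (l 16093792)) (l 16131472)) (a (b (l 16068280) (l 4)) (l 16049232))))) (b (a (b (a (l 15978080) (l 16111992)) (a (l 16145016) (l 16172992))) (b (a (l 16133552) (l 16162776)) (a (l 16208032) (l 16265288)))) (b (a (a (b (l 16167176) (l 16163608)) (b (l 16204024) (l 4))) (a (b (l 16236952) (l 4)) (l 4))) (l 4)))), by decide +kernel⟩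

def k2_pm_123 : ∃ t, chk3 f_pm_123 t 1 3 1 = true :=
  ⟨(b (a (a (b (a (a (b (l 15994848) (l 15709680)) (b (l 15899608) (l 15576576))) (b (a (l 15831352) (l 15787120)) (a (l 15507384) (l 15498896)))) (b (a (a (b (l 15297752) (l 15093600)) (l 15245096)) (a (l 4) (l 4))) (l 4))) (b (a (b (a (l 15747440) (l 15731896)) (a (l 15528856) (l 4))) (a (b (l 15747352) (l 4)) (l 4))) (l 4))) (l 4)) (l 4)), by decide +kernel⟩

theorem s3_pm_123 : ∃ t, chk3 f_pm_123 t 1 2 1 = true := ex3_a k0_pm_123 k1_pm_123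

theorem s4_pm_123 : ∃ t, chk3 f_pm_123 t 1 1 1 = true := ex3_b s3_pm_123 k2_pm_123

theorem c_pm_123 : CertB 536870912 536870912 0 1230186008 858993459 64424510 3 eng mog cd0q1 cd4q3 pd2 false true false .npn 1 2 3
    ndB0q1 ndB4q3 pcB2 cut_pm_123 Ext.none :=
  certB2 (fam := false) (s1 := true) (s2 := false) (a := 1) (b := 2) (c := 3) (cn := .npn) (n1 := ndB0q1) (n2 := ndB4q3) (pc := pcB2) (cut := cut_pm_123) (xt := Ext.none) (P1 := 536870912) (W1 := 536870912) (P2 := 0) (W2 := 1230186008) (P3 := 858993459) (W3 := 64424510) (N0 := 3) (En := eng) (mo := mog) (C1 := cd0q1) (C2 := cd4q3) (C3 := pd2)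
    rfl (fun _ => rfl) s4_pm_123

noncomputable def cut_pm_133 : Cut := Cut.of [[⟨3, 0, 0, 1449551462⟩]]

noncomputable def f_pm_133 : ℕ → ℕ → ℕ → ℕ → Bool := onCell 536870912 536870912 0 1230186008 858993459 64424510
    (rowB 3 eng mog cd0q1 cd4q3 pd3 0 false true false .dn 1 3 3 (qsf 536870912 536870912 0 1230186008 3) ndB0q1 ndB4q3 pcB3 cut_pm_133 Ext.none)

def k0_pm_133 : ∃ t, chk3 f_pm_133 t 1 1 1 = true :=
  ⟨(b (b (a (a (a (b (l 16572344) (l 1)) (l 1)) (l 1)) (l 1)) (l 1)) (l 1)), by decide +kernel⟩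

theorem c_pm_133 : CertB 536870912 536870912 0 1230186008 858993459 64424510 3 eng mog cd0q1 cd4q3 pd3 false true false .dn 1 3 3
    ndB0q1 ndB4q3 pcB3 cut_pm_133 Ext.none :=
  certB0 (fam := false) (s1 := true) (s2 := false) (a := 1) (b := 3) (c := 3) (cn := .dn) (n1 := ndB0q1) (n2 := ndB4q3) (pc := pcB3) (cut := cut_pm_133) (xt := Ext.none) (P1 := 536870912) (W1 := 536870912) (P2 := 0) (W2 := 1230186008) (P3 := 858993459) (W3 := 64424510) (N0 := 3) (En := eng) (mo := mog) (C1 := cd0q1) (C2 := cd4q3) (C3 := pd3)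
    rfl k0_pm_133

noncomputable def cut_pm_202 : Cut := Cut.of [[⟨3, 0, 0, 1449551462⟩]]

noncomputable def f_pm_202 : ℕ → ℕ → ℕ → ℕ → Bool := onCell 0 536870912 1073741824 536870912 858993459 64424510
    (rowB 3 eng mog cd0q2 cd4q2 pd0 0 false true false .pp 2 0 2 (qsf 0 536870912 1073741824 536870912 0) ndB0q2 ndB4q2 pcB0 cut_pm_202 Ext.none)

def k0_pm_202 : ∃ t, chk3 f_pm_202 t 2 1 1 = true :=
  ⟨(b (a (b (l 1) (b (b (a (l 15777064) (l 15753112)) (a (l 15867376) (l 15726264))) (a (b (a (l 16114248) (l 15925648)) (a (l 16065992) (l 16084064))) (b (l 15824552) (a (l 15944496) (l 15876696)))))) (b (b (l 1) (a (l 1) (b (l 1) (b (l 1) (l 15152072))))) (b (b (a (l 15591704) (l 15497352)) (a (l 15571136) (l 15398136))) (a (b (l 15677720) (l 15770944)) (b (l 15513088) (l 15615232)))))) (a (b (b (b (a (b (l 16084768) (l 16302952)) (b (l 15967328) (a (l 16028312) (l 15968512)))) (a (b (l 16149608) (l 16187832)) (b (a (l 16063528) (l 15998072)) (l 16069280)))) (b (a (b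 (l 16227472) (l 16395408)) (b (l 16107688) (l 16147760))) (a (b (a (l 16333984) (l 16281056)) (a (l 16366576) (l 16320392))) (b (l 16189320) (l 16230184))))) (b (b (a (a (l 16400712) (l 16353296)) (c (l 16434832) (l 16221680))) (a (l 16421704) (b (l 16301824) (l 16328312)))) (a (b (l 16473256) (l 16528328)) (b (l 16366232) (l 16424400))))) (a (b (b (b (l 15851096) (a (l 15995440) (l 15884904))) (b (a (l 16022640) (l 15946960)) (b (l 16043448) (l 16082464)))) (b (b (l 16130912) (a (l 16223128) (l 16146816))) (b (a (l 16265944) (l 16190856)) (l 16287048)))) (b (b (b (l 15704536) (l 15779976)) (b (l 16015656) (a (l 16040088) (l 15864608)))) (b (b (a (l 16007568) (l 15918520)) (l 16027488)) (b (a (l 16117584) (l 16039152)) (a (l 16159600) (l 16081336)))))))), by decide +kernel⟩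

def k1_pm_202 : ∃ t, chk3 f_pm_202 t 3 1 1 = true :=
  ⟨(b (b (a (b (l 1) (a (b (l 1) (a (l 15005256) (b (l 14843904) (l 14917352)))) (l 4))) (l 4)) (a (b (a (b (a (l 15122656) (l 15025184)) (l 15210984)) (a (b (l 14953112) (l 15076448)) (l 4))) (a (b (l 15335488) (l 15447656)) (b (a (l 15199208) (l 15126384)) (a (l 15318952) (l 15238104))))) (b (l 4) (a (l 4) (l 4))))) (a (b (b (a (b (l 15547120) (l 15632584)) (b (l 15385712) (l 15482008))) (a (b (l 15704608) (l 15764368)) (b (l 15564424) (l 15634240)))) (b (a (b (l 15820976) (l 16079536)) (b (l 15693400) (l 15744520))) (a (b (l 15926744) (l 16167080)) (b (l 15796272) (l 15932160))))) (b (b (a (b (a (l 15279664) (l 4)) (a (l 15376488) (l 15319464))) (l 4)) (a (b (l 15434336) (l 15511040)) (b (l 4) (l 15649552)))) (a (b (b (l 15578280) (l 15637752)) (b (l 15693080) (l 15748080))) (b (a (l 15526312) (l 15574728)) (b (l 15589440) (l 15650152))))))), by decide +kernel⟩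

theorem s2_pm_202 : ∃ t, chk3 f_pm_202 t 1 1 1 = true := ex3_a k0_pm_202 k1_pm_202

theorem c_pm_202 : CertB 0 536870912 1073741824 536870912 858993459 64424510 3 eng mog cd0q2 cd4q2 pd0 false true false .pp 2 0 2
    ndB0q2 ndB4q2 pcB0 cut_pm_202 Ext.none :=
  certB0 (fam := false) (s1 := true) (s2 := false) (a := 2) (b := 0) (c := 2) (cn := .pp) (n1 := ndB0q2) (n2 := ndB4q2) (pc := pcB0) (cut := cut_pm_202) (xt := Ext.none) (P1 := 0) (W1 := 536870912) (P2 := 1073741824) (W2 := 536870912) (P3 := 858993459) (W3 := 64424510) (N0 := 3) (En := eng) (mo := mog) (C1 := cd0q2) (C2 := cd4q2) (C3 := pd0)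
    rfl s2_pm_202

noncomputable def cut_pm_203 : Cut := Cut.of [[⟨3, 0, 0, 1449551462⟩]]

noncomputable def f_pm_203 : ℕ → ℕ → ℕ → ℕ → Bool := onCell 0 536870912 0 1230186008 858993459 64424510
    (rowB 3 eng mog cd0q2 cd4q3 pd0 0 false true false .up 2 0 3 (qsf 0 536870912 0 1230186008 0) ndB0q2 ndB4q3 pcB0 cut_pm_203 Ext.none)

def k0_pm_203 : ∃ t, chk3 f_pm_203 t 1 1 1 = true :=
  ⟨(b (l 2) (b (l 2) (a (b (b (l 2) (b (a (l 2) (l 2)) (a (a (l 6) (a (l 16630760) (l 16614672))) (a (l 16448216) (l 16509456))))) (a (b (a (b (l 16646008) (a (l 16634424) (l 16583304))) (b (a (l 16621704) (l 16611840)) (l 16413784))) (a (b (b (l 16541496) (l 16613984)) (l 16582880)) (b (l 16556248) (l 16490944)))) (b (a (b (l 16565648) (l 16510400)) (b (l 16446744) (l 16368640))) (b (a (l 16438608) (l 16281368)) (a (l 16359224) (l 16191992)))))) (b (l 2) (a (b (a (b (l 16295696) (l 16200952)) (b (l 2) (a (l 16069800) (l 15985984)))) (a (b (a (l 16147312) (l 16054104)) (b (l 16029648)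 (l 16004592))) (b (a (l 15968368) (l 15909424)) (a (l 15918528) (l 15871096))))) (a (a (b (b (l 2) (l 15925080)) (b (l 15876224) (l 15829008))) (b (l 2) (b (l 15852584) (l 15790464)))) (b (l 2) (b (a (l 15825520) (l 2)) (l 15721432))))))))), by decide +kernel⟩

theorem c_pm_203 : CertB 0 536870912 0 1230186008 858993459 64424510 3 eng mog cd0q2 cd4q3 pd0 false true false .up 2 0 3
    ndB0q2 ndB4q3 pcB0 cut_pm_203 Ext.none :=
  certB0 (fam := false) (s1 := true) (s2 := false) (a := 2) (b := 0) (c := 3) (cn := .up) (n1 := ndB0q2) (n2 := ndB4q3) (pc := pcB0) (cut := cut_pm_203) (xt := Ext.none) (P1 := 0) (W1 := 536870912) (P2 := 0) (W2 := 1230186008) (P3 := 858993459) (W3 := 64424510) (N0 := 3) (En := eng) (mo := mog) (C1 := cd0q2) (C2 := cd4q3) (C3 := pd0)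
    rfl k0_pm_203

noncomputable def cut_pm_213 : Cut := Cut.of [[⟨3, 0, 0, 1449551462⟩], [⟨0, 1, 0, 67108864⟩, ⟨1, 1, 0, 67108864⟩, ⟨2, 2, 0, 16777216⟩]]

noncomputable def f_pm_213 : ℕ → ℕ → ℕ → ℕ → Bool := onCell 0 536870912 0 1230186008 858993459 64424510
    (rowB 3 eng mog cd0q2 cd4q3 pd1 0 false true false .pnn 2 1 3 (qsf 0 536870912 0 1230186008 1) ndB0q2 ndB4q3 pcB1 cut_pm_213 Ext.none)

def k0_pm_213 : ∃ t, chk3 f_pm_213 t 1 2 1 = true :=
  ⟨(a (l 6) (b (a (l 6) (l 6)) (a (b (l 6) (a (l 6) (a (l 6) (b (l 6) (b (l 16586512) (l 16587312)))))) (b (a (a (l 6) (a (l 6) (b (l 6) (l 16779464)))) (a (b (l 6) (a (l 16780232) (l 16780376))) (b (l 16771848) (l 16781136)))) (a (b (a (c (l 16792368) (l 16715168)) (c (l 16807528) (l 16721704))) (c (a (l 16783064) (l 16795328)) (a (l 16675104) (l 16685624)))) (a (b (l 16600608) (c (l 16808584) (l 16729400))) (b (c (l 16847040) (l 16762664)) (c (l 16801632) (l 16818192))))))))), by decide +kernel⟩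

def k1_pm_213 : ∃ t, chk3 f_pm_213 t 1 6 1 = true :=
  ⟨(a (b (l 6) (a (l 6) (b (a (l 6) (a (l 6) (c (b (l 16672248) (l 16645264)) (c (l 16615520) (l 16364280))))) (b (a (l 6) (c (c (l 16564760) (l 16649688)) (c (l 16593128) (l 16465824)))) (a (a (l 6) (c (l 16639656) (l 16421296))) (a (c (l 16610648) (l 16463896)) (c (l 16581056) (a (l 16498232) (l 16488224))))))))) (b (a (a (a (a (l 6) (b (l 6) (b (l 6) (l 16493408)))) (b (l 6) (c (l 16456280) (c (l 16615568) (l 16481104))))) (b (a (b (l 16475560) (l 16464000)) (c (l 16751552) (l 16601624))) (b (a (l 16429352) (c (l 16724800) (l 16525208))) (c (a (l 16670400) (l 16682672)) (a (l 16502280) (l 16495064)))))) (a (b (c (a (l 16755736) (l 16758368)) (a (l 16503392) (l 16663640))) (c (a (l 16704048) (l 16682416)) (a (l 16508576) (l 16568672)))) (c (b (l 16732432) (l 16657856)) (b (l 16844144) (l 16727456))))) (a (b (b (a (c (c (l 16596064) (l 16650352)) (c (l 16581984) (l 16415944))) (c (l 16380168) (a (l 16477496) (l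 16486792)))) (a (a (b (l 16411720) (l 16398816)) (c (l 16604392) (l 16473168))) (c (l 16585632) (l 16478136)))) (a (c (b (c (l 16527352) (l 16592208)) (l 16540048)) (b (c (l 16541232) (l 16299344)) (a (l 16466952) (l 16487760)))) (c (l 16514320) (a (l 16470144) (l 16436080))))) (a (b (c (l 16623472) (l 16469680)) (c (l 16512264) (l 16374528))) (b (c (l 16596056) (l 16524544)) (c (l 16544984) (l 16338120))))))), by decide +kernel⟩

def k2_pm_213 : ∃ t, chk3 f_pm_213 t 1 7 1 = true :=
  ⟨(a (b (b (a (l 6) (c (a (b (c (l 16540608) (l 16660600)) (c (a (l 16509808) (l 16469832)) (l 16634552))) (b (c (l 16422368) (l 16597360)) (c (l 16455424) (l 16564360)))) (a (b (c (l 16616576) (l 16361352)) (c (l 16602856) (a (l 16440328) (l 16403296)))) (a (c (l 16489136) (b (l 16403624) (l 16425840))) (b (l 16355096) (l 16522432)))))) (a (a (l 6) (a (b (l 6) (b (l 6) (l 1))) (b (c (l 16388984) (c (l 16626520) (l 16445960))) (c (c (l 16418360) (l 16619592)) (c (l 16616496) (l 16379368))))))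 (a (c (b (c (l 16198336) (l 16604936)) (c (l 16421560) (l 16566536))) (b (c (l 16596000) (a (l 16408376) (l 16434736))) (c (l 16587120) (a (l 16450664) (l 16519376))))) (c (c (l 16415544) (l 16501160)) (b (l 16447880) (l 16510432)))))) (b (b (a (l 1) (a (l 1) (a (l 16406888) (l 16415112)))) (l 1)) (l 1))) (b (a (b (a (c (l 16478904) (b (l 16494040) (l 16478008))) (c (l 16417176) (l 16387048))) (a (c (l 16164312) (l 16421120)) (c (l 16318120) (l 16275848)))) (b (a (c (l 16376736) (l 16259152)) (c (l 16411448) (l 16158056))) (a (c (l 16247192) (l 16115696)) (b (l 16139336) (a (l 16066504) (l 16032848)))))) (a (b (a (c (l 16339248) (l 16283648)) (b (l 16345672) (a (l 16156072) (l 16086400)))) (l 1)) (b (a (c (l 16303632) (b (l 15985792) (l 15906384))) (b (l 16067648) (l 15924464))) (a (b (l 16134920) (l 1)) (b (l 15937288) (l 15736096))))))), by decide +kernel⟩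

theorem s3_pm_213 : ∃ t, chk3 f_pm_213 t 1 3 1 = true := ex3_b k1_pm_213 k2_pm_213

theorem s4_pm_213 : ∃ t, chk3 f_pm_213 t 1 1 1 = true := ex3_b k0_pm_213 s3_pm_213

theorem c_pm_213 : CertB 0 536870912 0 1230186008 858993459 64424510 3 eng mog cd0q2 cd4q3 pd1 false true false .pnn 2 1 3
    ndB0q2 ndB4q3 pcB1 cut_pm_213 Ext.none :=
  certB0 (fam := false) (s1 := true) (s2 := false) (a := 2) (b := 1) (c := 3) (cn := .pnn) (n1 := ndB0q2) (n2 := ndB4q3) (pc := pcB1) (cut := cut_pm_213) (xt := Ext.none) (P1 := 0) (W1 := 536870912) (P2 := 0) (W2 := 1230186008) (P3 := 858993459) (W3 := 64424510) (N0 := 3) (En := eng) (mo := mog) (C1 := cd0q2) (C2 := cd4q3) (C3 := pd1)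
    rfl s4_pm_213

noncomputable def cut_mm_001 : Cut := Cut.of [[⟨3, 0, 0, 1449551462⟩]]

noncomputable def f_mm_001 : ℕ → ℕ → ℕ → ℕ → Bool := onCell 0 536870912 536870912 536870912 858993459 64424510
    (rowB 3 eng mog cd0q0 cd4q1 pd0 0 false false false .up 0 0 1 (qsf 0 536870912 536870912 536870912 0) ndB0q0 ndB4q1 pcB0 cut_mm_001 Ext.none)

def k0_mm_001 : ∃ t, chk3 f_mm_001 t 1 1 1 = true :=
  ⟨(l 6), by decide +kernel⟩

theorem c_mm_001 : CertB 0 536870912 536870912 536870912 858993459 64424510 3 eng mog cd0q0 cd4q1 pd0 false false false .up 0 0 1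
    ndB0q0 ndB4q1 pcB0 cut_mm_001 Ext.none :=
  certB0 (fam := false) (s1 := false) (s2 := false) (a := 0) (b := 0) (c := 1) (cn := .up) (n1 := ndB0q0) (n2 := ndB4q1) (pc := pcB0) (cut := cut_mm_001) (xt := Ext.none) (P1 := 0) (W1 := 536870912) (P2 := 536870912) (W2 := 536870912) (P3 := 858993459) (W3 := 64424510) (N0 := 3) (En := eng) (mo := mog) (C1 := cd0q0) (C2 := cd4q1) (C3 := pd0)
    rfl k0_mm_001

noncomputable def cut_mm_011 : Cut := Cut.of [[⟨3, 0, 0, 1449551462⟩]]

noncomputable def f_mm_011 : ℕ → ℕ → ℕ → ℕ → Bool := onCell 0 536870912 536870912 536870912 858993459 64424510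
    (rowB 3 eng mog cd0q0 cd4q1 pd1 0 false false false .pnn 0 1 1 (qsf 0 536870912 536870912 536870912 1) ndB0q0 ndB4q1 pcB1 cut_mm_011 Ext.none)

def k0_mm_011 : ∃ t, chk3 f_mm_011 t 1 1 1 = true :=
  ⟨(l 6), by decide +kernel⟩

theorem c_mm_011 : CertB 0 536870912 536870912 536870912 858993459 64424510 3 eng mog cd0q0 cd4q1 pd1 false false false .pnn 0 1 1
    ndB0q0 ndB4q1 pcB1 cut_mm_011 Ext.none :=
  certB0 (fam := false) (s1 := false) (s2 := false) (a := 0) (b := 1) (c := 1) (cn := .pnn) (n1 := ndB0q0) (n2 := ndB4q1) (pc := pcB1) (cut := cut_mm_011) (xt := Ext.none) (P1 := 0) (W1 := 536870912) (P2 := 536870912) (W2 := 536870912) (P3 := 858993459) (W3 := 64424510) (N0 := 3) (En := eng) (mo := mog) (C1 := cd0q0) (C2 := cd4q1) (C3 := pd1)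
    rfl k0_mm_011

noncomputable def cut_mm_012 : Cut := Cut.of [[⟨3, 0, 0, 1449551462⟩]]

noncomputable def f_mm_012 : ℕ → ℕ → ℕ → ℕ → Bool := onCell 0 536870912 1073741824 536870912 858993459 64424510
    (rowB 3 eng mog cd0q0 cd4q2 pd1 0 false false false .pnp 0 1 2 (qsf 0 536870912 1073741824 536870912 1) ndB0q0 ndB4q2 pcB1 cut_mm_012 Ext.none)

def k0_mm_012 : ∃ t, chk3 f_mm_012 t 1 1 1 = true :=
  ⟨(l 5), by decide +kernel⟩

theorem c_mm_012 : CertB 0 536870912 1073741824 536870912 858993459 64424510 3 eng mog cd0q0 cd4q2 pd1 false false false .pnp 0 1 2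
    ndB0q0 ndB4q2 pcB1 cut_mm_012 Ext.none :=
  certB0 (fam := false) (s1 := false) (s2 := false) (a := 0) (b := 1) (c := 2) (cn := .pnp) (n1 := ndB0q0) (n2 := ndB4q2) (pc := pcB1) (cut := cut_mm_012) (xt := Ext.none) (P1 := 0) (W1 := 536870912) (P2 := 1073741824) (W2 := 536870912) (P3 := 858993459) (W3 := 64424510) (N0 := 3) (En := eng) (mo := mog) (C1 := cd0q0) (C2 := cd4q2) (C3 := pd1)
    rfl k0_mm_012

noncomputable def cut_mm_022 : Cut := Cut.of [[⟨3, 0, 0, 1449551462⟩]]

noncomputable def f_mm_022 : ℕ → ℕ → ℕ → ℕ → Bool := onCell 0 536870912 1073741824 536870912 858993459 64424510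
    (rowB 3 eng mog cd0q0 cd4q2 pd2 0 false false false .pp 0 2 2 (qsf 0 536870912 1073741824 536870912 2) ndB0q0 ndB4q2 pcB2 cut_mm_022 Ext.none)

def k0_mm_022 : ∃ t, chk3 f_mm_022 t 1 1 1 = true :=
  ⟨(l 5), by decide +kernel⟩

theorem c_mm_022 : CertB 0 536870912 1073741824 536870912 858993459 64424510 3 eng mog cd0q0 cd4q2 pd2 false false false .pp 0 2 2
    ndB0q0 ndB4q2 pcB2 cut_mm_022 Ext.none :=
  certB0 (fam := false) (s1 := false) (s2 := false) (a := 0) (b := 2) (c := 2) (cn := .pp) (n1 := ndB0q0) (n2 := ndB4q2) (pc := pcB2) (cut := cut_mm_022) (xt := Ext.none) (P1 := 0) (W1 := 536870912) (P2 := 1073741824) (W2 := 536870912) (P3 := 858993459) (W3 := 64424510) (N0 := 3) (En := eng) (mo := mog) (C1 := cd0q0) (C2 := cd4q2) (C3 := pd2)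
    rfl k0_mm_022

noncomputable def cut_mm_023 : Cut := Cut.of [[⟨3, 0, 0, 1449551462⟩]]

noncomputable def f_mm_023 : ℕ → ℕ → ℕ → ℕ → Bool := onCell 0 536870912 0 1230186008 858993459 64424510
    (rowB 3 eng mog cd0q0 cd4q3 pd2 0 false false false .up 0 2 3 (qsf 0 536870912 0 1230186008 2) ndB0q0 ndB4q3 pcB2 cut_mm_023 Ext.none)

def k0_mm_023 : ∃ t, chk3 f_mm_023 t 1 1 1 = true :=
  ⟨(l 5), by decide +kernel⟩

theorem c_mm_023 : CertB 0 536870912 0 1230186008 858993459 64424510 3 eng mog cd0q0 cd4q3 pd2 false false false .up 0 2 3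
    ndB0q0 ndB4q3 pcB2 cut_mm_023 Ext.none :=
  certB0 (fam := false) (s1 := false) (s2 := false) (a := 0) (b := 2) (c := 3) (cn := .up) (n1 := ndB0q0) (n2 := ndB4q3) (pc := pcB2) (cut := cut_mm_023) (xt := Ext.none) (P1 := 0) (W1 := 536870912) (P2 := 0) (W2 := 1230186008) (P3 := 858993459) (W3 := 64424510) (N0 := 3) (En := eng) (mo := mog) (C1 := cd0q0) (C2 := cd4q3) (C3 := pd2)
    rfl k0_mm_023

noncomputable def cut_mm_033 : Cut := Cut.of [[⟨3, 0, 0, 1449551462⟩]]

noncomputable def f_mm_033 : ℕ → ℕ → ℕ → ℕ → Bool := onCell 0 536870912 0 1230186008 858993459 64424510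
    (rowB 3 eng mog cd0q0 cd4q3 pd3 0 false false false .pnn 0 3 3 (qsf 0 536870912 0 1230186008 3) ndB0q0 ndB4q3 pcB3 cut_mm_033 Ext.none)

def k0_mm_033 : ∃ t, chk3 f_mm_033 t 1 1 1 = true :=
  ⟨(l 5), by decide +kernel⟩

theorem c_mm_033 : CertB 0 536870912 0 1230186008 858993459 64424510 3 eng mog cd0q0 cd4q3 pd3 false false false .pnn 0 3 3
    ndB0q0 ndB4q3 pcB3 cut_mm_033 Ext.none :=
  certB0 (fam := false) (s1 := false) (s2 := false) (a := 0) (b := 3) (c := 3) (cn := .pnn) (n1 := ndB0q0) (n2 := ndB4q3) (pc := pcB3) (cut := cut_mm_033) (xt := Ext.none) (P1 := 0) (W1 := 536870912) (P2 := 0) (W2 := 1230186008) (P3 := 858993459) (W3 := 64424510) (N0 := 3) (En := eng) (mo := mog) (C1 := cd0q0) (C2 := cd4q3) (C3 := pd3)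
    rfl k0_mm_033

noncomputable def cut_mm_101 : Cut := Cut.of [[⟨3, 0, 0, 1449551462⟩], [⟨0, 1, 0, 67108864⟩, ⟨1, 0, 0, 67108864⟩, ⟨2, 1, 0, 67108864⟩]]

noncomputable def f_mm_101 : ℕ → ℕ → ℕ → ℕ → Bool := onCell 536870912 536870912 0 536870912 858993459 64424510
    (rowB 3 eng mog cd0q1 cd4q1 pd0 1 false false false .npn 1 0 1 (qsf 536870912 536870912 536870912 536870912 0) ndB0q1 ndB4q1 pcB0 cut_mm_101 Ext.none)

def k0_mm_101 : ∃ t, chk3 f_mm_101 t 1 1 1 = true :=
  ⟨(l 6), by decide +kernel⟩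

theorem c_mm_101 : CertB 536870912 536870912 536870912 536870912 858993459 64424510 3 eng mog cd0q1 cd4q1 pd0 false false false .npn 1 0 1
    ndB0q1 ndB4q1 pcB0 cut_mm_101 Ext.none :=
  certB1 (fam := false) (s1 := false) (s2 := false) (a := 1) (b := 0) (c := 1) (cn := .npn) (n1 := ndB0q1) (n2 := ndB4q1) (pc := pcB0) (cut := cut_mm_101) (xt := Ext.none) (P1 := 536870912) (W1 := 536870912) (P2 := 536870912) (W2 := 536870912) (P3 := 858993459) (W3 := 64424510) (N0 := 3) (En := eng) (mo := mog) (C1 := cd0q1) (C2 := cd4q1) (C3 := pd0)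
    rfl (fun _ => rfl) k0_mm_101

noncomputable def cut_mm_102 : Cut := Cut.of [[⟨3, 0, 0, 1449551462⟩], [⟨0, 1, 0, 67108864⟩, ⟨1, 0, 0, 67108864⟩, ⟨2, 1, 0, 67108864⟩]]

noncomputable def f_mm_102 : ℕ → ℕ → ℕ → ℕ → Bool := onCell 536870912 536870912 1073741824 536870912 858993459 64424510
    (rowB 3 eng mog cd0q1 cd4q2 pd0 0 false false false .npp 1 0 2 (qsf 536870912 536870912 1073741824 536870912 0) ndB0q1 ndB4q2 pcB0 cut_mm_102 Ext.none)

def k0_mm_102 : ∃ t, chk3 f_mm_102 t 1 1 1 = true :=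
  ⟨(l 6), by decide +kernel⟩

theorem c_mm_102 : CertB 536870912 536870912 1073741824 536870912 858993459 64424510 3 eng mog cd0q1 cd4q2 pd0 false false false .npp 1 0 2
    ndB0q1 ndB4q2 pcB0 cut_mm_102 Ext.none :=
  certB0 (fam := false) (s1 := false) (s2 := false) (a := 1) (b := 0) (c := 2) (cn := .npp) (n1 := ndB0q1) (n2 := ndB4q2) (pc := pcB0) (cut := cut_mm_102) (xt := Ext.none) (P1 := 536870912) (W1 := 536870912) (P2 := 1073741824) (W2 := 536870912) (P3 := 858993459) (W3 := 64424510) (N0 := 3) (En := eng) (mo := mog) (C1 := cd0q1) (C2 := cd4q2) (C3 := pd0)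
    rfl k0_mm_102

noncomputable def cut_mm_112 : Cut := Cut.of [[⟨3, 0, 0, 1449551462⟩]]

noncomputable def f_mm_112 : ℕ → ℕ → ℕ → ℕ → Bool := onCell 536870912 536870912 1073741824 536870912 858993459 64424510
    (rowB 3 eng mog cd0q1 cd4q2 pd1 0 false false false .dn 1 1 2 (qsf 536870912 536870912 1073741824 536870912 1) ndB0q1 ndB4q2 pcB1 cut_mm_112 Ext.none)

def k0_mm_112 : ∃ t, chk3 f_mm_112 t 1 1 1 = true :=
  ⟨(l 6), by decide +kernel⟩

theorem c_mm_112 : CertB 536870912 536870912 1073741824 536870912 858993459 64424510 3 eng mog cd0q1 cd4q2 pd1 false false false .dn 1 1 2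
    ndB0q1 ndB4q2 pcB1 cut_mm_112 Ext.none :=
  certB0 (fam := false) (s1 := false) (s2 := false) (a := 1) (b := 1) (c := 2) (cn := .dn) (n1 := ndB0q1) (n2 := ndB4q2) (pc := pcB1) (cut := cut_mm_112) (xt := Ext.none) (P1 := 536870912) (W1 := 536870912) (P2 := 1073741824) (W2 := 536870912) (P3 := 858993459) (W3 := 64424510) (N0 := 3) (En := eng) (mo := mog) (C1 := cd0q1) (C2 := cd4q2) (C3 := pd1)
    rfl k0_mm_112

noncomputable def cut_mm_113 : Cut := Cut.of [[⟨3, 0, 0, 1449551462⟩]]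

noncomputable def f_mm_113 : ℕ → ℕ → ℕ → ℕ → Bool := onCell 536870912 536870912 0 1230186008 858993459 64424510
    (rowB 3 eng mog cd0q1 cd4q3 pd1 0 false false false .nn 1 1 3 (qsf 536870912 536870912 0 1230186008 1) ndB0q1 ndB4q3 pcB1 cut_mm_113 Ext.none)

def k0_mm_113 : ∃ t, chk3 f_mm_113 t 1 1 1 = true :=
  ⟨(a (l 5) (b (l 5) (l 6))), by decide +kernel⟩

theorem c_mm_113 : CertB 536870912 536870912 0 1230186008 858993459 64424510 3 eng mog cd0q1 cd4q3 pd1 false false false .nn 1 1 3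
    ndB0q1 ndB4q3 pcB1 cut_mm_113 Ext.none :=
  certB0 (fam := false) (s1 := false) (s2 := false) (a := 1) (b := 1) (c := 3) (cn := .nn) (n1 := ndB0q1) (n2 := ndB4q3) (pc := pcB1) (cut := cut_mm_113) (xt := Ext.none) (P1 := 536870912) (W1 := 536870912) (P2 := 0) (W2 := 1230186008) (P3 := 858993459) (W3 := 64424510) (N0 := 3) (En := eng) (mo := mog) (C1 := cd0q1) (C2 := cd4q3) (C3 := pd1)
    rfl k0_mm_113

noncomputable def cut_mm_123 : Cut := Cut.of [[⟨3, 0, 0, 1449551462⟩]]

noncomputable def f_mm_123 : ℕ → ℕ → ℕ → ℕ → Bool := onCell 1073741824 536870912 0 1230186008 858993459 64424510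
    (rowB 3 eng mog cd0q1 cd4q3 pd2 2 false false false .npn 1 2 3 (qsf 536870912 536870912 0 1230186008 2) ndB0q1 ndB4q3 pcB2 cut_mm_123 Ext.none)

def k0_mm_123 : ∃ t, chk3 f_mm_123 t 1 1 1 = true :=
  ⟨(b (l 5) (l 5)), by decide +kernel⟩

theorem c_mm_123 : CertB 536870912 536870912 0 1230186008 858993459 64424510 3 eng mog cd0q1 cd4q3 pd2 false false false .npn 1 2 3
    ndB0q1 ndB4q3 pcB2 cut_mm_123 Ext.none :=
  certB2 (fam := false) (s1 := false) (s2 := false) (a := 1) (b := 2) (c := 3) (cn := .npn) (n1 := ndB0q1) (n2 := ndB4q3) (pc := pcB2) (cut := cut_mm_123) (xt := Ext.none) (P1 := 536870912) (W1 := 536870912) (P2 := 0) (W2 := 1230186008) (P3 := 858993459) (W3 := 64424510) (N0 := 3) (En := eng) (mo := mog) (C1 := cd0q1) (C2 := cd4q3) (C3 := pd2)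
    rfl (fun _ => rfl) k0_mm_123

noncomputable def cut_mm_133 : Cut := Cut.of [[⟨3, 0, 0, 1449551462⟩]]

noncomputable def f_mm_133 : ℕ → ℕ → ℕ → ℕ → Bool := onCell 1610612736 536870912 0 1230186008 858993459 64424510
    (rowB 3 eng mog cd0q1 cd4q3 pd3 2 false false false .dn 1 3 3 (qsf 536870912 536870912 0 1230186008 3) ndB0q1 ndB4q3 pcB3 cut_mm_133 Ext.none)

def k0_mm_133 : ∃ t, chk3 f_mm_133 t 1 1 1 = true :=
  ⟨(l 5), by decide +kernel⟩

theorem c_mm_133 : CertB 536870912 536870912 0 1230186008 858993459 64424510 3 eng mog cd0q1 cd4q3 pd3 false false false .dn 1 3 3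
    ndB0q1 ndB4q3 pcB3 cut_mm_133 Ext.none :=
  certB2 (fam := false) (s1 := false) (s2 := false) (a := 1) (b := 3) (c := 3) (cn := .dn) (n1 := ndB0q1) (n2 := ndB4q3) (pc := pcB3) (cut := cut_mm_133) (xt := Ext.none) (P1 := 536870912) (W1 := 536870912) (P2 := 0) (W2 := 1230186008) (P3 := 858993459) (W3 := 64424510) (N0 := 3) (En := eng) (mo := mog) (C1 := cd0q1) (C2 := cd4q3) (C3 := pd3)
    rfl (fun _ => rfl) k0_mm_133

noncomputable def cut_mm_202 : Cut := Cut.of [[⟨3, 0, 0, 1449551462⟩], [⟨0, 1, 0, 67108864⟩, ⟨1, 0, 0, 67108864⟩, ⟨2, 1, 0, 67108864⟩]]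

noncomputable def f_mm_202 : ℕ → ℕ → ℕ → ℕ → Bool := onCell 0 536870912 0 536870912 858993459 64424510
    (rowB 3 eng mog cd0q2 cd4q2 pd0 1 false false false .pp 2 0 2 (qsf 0 536870912 1073741824 536870912 0) ndB0q2 ndB4q2 pcB0 cut_mm_202 Ext.none)

def k0_mm_202 : ∃ t, chk3 f_mm_202 t 1 1 1 = true :=
  ⟨(a (a (b (b (a (b (b (b (a (l 15943872) (l 16000104)) (l 16114320)) (b (l 16050944) (l 16097896))) (b (l 16152800) (b (l 16194320) (l 16259312)))) (b (b (l 16290464) (l 16191232)) (b (l 16265992) (b (l 16278968) (b (l 16439400) (a (l 16296080) (l 16341200))))))) (b (b (b (a (l 16251672) (c (l 16335080) (l 16332720))) (a (l 16460576) (l 16378328))) (a (b (l 16537880) (l 16381896)) (b (l 16412248) (l 16443336)))) (b (a (l 16410928) (l 16487728)) (a (l 16461704) (l 16538480))))) (b (b (a (b (l 16507680) (l 16557392)) (b (b (l 16573192) (l 16596528)) (a (l 16610808) (l 6)))) (a (b (b (l 16592424) (l 16611936)) (a (l 16621744) (l 6))) (l 6))) (l 2))) (b (b (a (b (b (c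 (l 16230240) (l 16189400)) (b (l 16284560) (l 16335056))) (b (b (a (l 16341528) (l 16405504)) (a (l 16363896) (l 16411272))) (b (a (l 16414112) (l 16416672)) (l 16299552)))) (b (b (a (l 16297728) (l 16190832)) (b (a (l 16378288) (l 16384128)) (a (l 16413216) (l 16484936)))) (b (b (a (l 16412592) (l 16497680)) (l 16475960)) (b (l 16482704) (b (l 16492928) (l 16503432)))))) (b (b (a (b (l 16432912) (l 16465432)) (b (l 16528544) (l 6))) (a (b (l 16496840) (l 16526880)) (l 6))) (a (b (l 16568952) (l 6)) (l 6)))) (l 6))) (b (a (b (b (a (a (b (b (l 16392312) (l 16392896)) (b (l 16498304) (l 6))) (l 6)) (l 6)) (l 6)) (l 6)) (l 6)) (l 6))), by decide +kernel⟩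

theorem c_mm_202 : CertB 0 536870912 1073741824 536870912 858993459 64424510 3 eng mog cd0q2 cd4q2 pd0 false false false .pp 2 0 2
    ndB0q2 ndB4q2 pcB0 cut_mm_202 Ext.none :=
  certB1 (fam := false) (s1 := false) (s2 := false) (a := 2) (b := 0) (c := 2) (cn := .pp) (n1 := ndB0q2) (n2 := ndB4q2) (pc := pcB0) (cut := cut_mm_202) (xt := Ext.none) (P1 := 0) (W1 := 536870912) (P2 := 1073741824) (W2 := 536870912) (P3 := 858993459) (W3 := 64424510) (N0 := 3) (En := eng) (mo := mog) (C1 := cd0q2) (C2 := cd4q2) (C3 := pd0)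
    rfl (fun _ => rfl) k0_mm_202

noncomputable def cut_mm_203 : Cut := Cut.of [[⟨3, 0, 0, 1449551462⟩]]

noncomputable def f_mm_203 : ℕ → ℕ → ℕ → ℕ → Bool := onCell 0 536870912 0 1230186008 858993459 64424510
    (rowB 3 eng mog cd0q2 cd4q3 pd0 0 false false false .up 2 0 3 (qsf 0 536870912 0 1230186008 0) ndB0q2 ndB4q3 pcB0 cut_mm_203 Ext.none)

def k0_mm_203 : ∃ t, chk3 f_mm_203 t 1 1 1 = true :=
  ⟨(b (l 2) (b (l 2) (a (b (l 6) (b (l 6) (a (a (b (l 6) (a (b (l 16623352) (l 16617760)) (l 6))) (l 6)) (l 6)))) (l 3)))), by decide +kernel⟩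

theorem c_mm_203 : CertB 0 536870912 0 1230186008 858993459 64424510 3 eng mog cd0q2 cd4q3 pd0 false false false .up 2 0 3
    ndB0q2 ndB4q3 pcB0 cut_mm_203 Ext.none :=
  certB0 (fam := false) (s1 := false) (s2 := false) (a := 2) (b := 0) (c := 3) (cn := .up) (n1 := ndB0q2) (n2 := ndB4q3) (pc := pcB0) (cut := cut_mm_203) (xt := Ext.none) (P1 := 0) (W1 := 536870912) (P2 := 0) (W2 := 1230186008) (P3 := 858993459) (W3 := 64424510) (N0 := 3) (En := eng) (mo := mog) (C1 := cd0q2) (C2 := cd4q3) (C3 := pd0)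
    rfl k0_mm_203

noncomputable def cut_mm_213 : Cut := Cut.of [[⟨3, 0, 0, 1449551462⟩]]

noncomputable def f_mm_213 : ℕ → ℕ → ℕ → ℕ → Bool := onCell 0 536870912 0 1230186008 858993459 64424510
    (rowB 3 eng mog cd0q2 cd4q3 pd1 0 false false false .pnn 2 1 3 (qsf 0 536870912 0 1230186008 1) ndB0q2 ndB4q3 pcB1 cut_mm_213 Ext.none)

def k0_mm_213 : ∃ t, chk3 f_mm_213 t 1 1 1 = true :=
  ⟨(b (l 6) (b (l 6) (a (b (l 6) (b (l 6) (l 1))) (l 3)))), by decide +kernel⟩

theorem c_mm_213 : CertB 0 536870912 0 1230186008 858993459 64424510 3 eng mog cd0q2 cd4q3 pd1 false false false .pnn 2 1 3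
    ndB0q2 ndB4q3 pcB1 cut_mm_213 Ext.none :=
  certB0 (fam := false) (s1 := false) (s2 := false) (a := 2) (b := 1) (c := 3) (cn := .pnn) (n1 := ndB0q2) (n2 := ndB4q3) (pc := pcB1) (cut := cut_mm_213) (xt := Ext.none) (P1 := 0) (W1 := 536870912) (P2 := 0) (W2 := 1230186008) (P3 := 858993459) (W3 := 64424510) (N0 := 3) (En := eng) (mo := mog) (C1 := cd0q2) (C2 := cd4q3) (C3 := pd1)
    rfl k0_mm_213

end Pool.Agent.Strip051.G.I8000_8600.Tab.C.BB04

namespace Pool.Agent.Strip051.G.I8000_8600.Tab.C.BB10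

open Pool.Agent.Strip051.PB Pool.Agent.Strip051.PB.T
open Pool.Agent.Strip051.G.I8000_8600.Tab

noncomputable def f_pp_001 : ℕ → ℕ → ℕ → ℕ → Bool := onCell 0 536870912 0 536870912 858993459 64424510
    (rowB 3 eng mog cd1q0 cd0q1 pd0 1 false true true .up 0 0 1 (qsf 0 536870912 536870912 536870912 0) ndB1q0 ndB0q1 pcB0 Cut.none Ext.none)

def k0_pp_001 : ∃ t, chk3 f_pp_001 t 1 1 1 = true :=
  ⟨(l 3), by decide +kernel⟩

theorem c_pp_001 : CertB 0 536870912 536870912 536870912 858993459 64424510 3 eng mog cd1q0 cd0q1 pd0 false true true .up 0 0 1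
    ndB1q0 ndB0q1 pcB0 Cut.none Ext.none :=
  certB1 (fam := false) (s1 := true) (s2 := true) (a := 0) (b := 0) (c := 1) (cn := .up) (n1 := ndB1q0) (n2 := ndB0q1) (pc := pcB0) (cut := Cut.none) (xt := Ext.none) (P1 := 0) (W1 := 536870912) (P2 := 536870912) (W2 := 536870912) (P3 := 858993459) (W3 := 64424510) (N0 := 3) (En := eng) (mo := mog) (C1 := cd1q0) (C2 := cd0q1) (C3 := pd0)
    rfl (fun _ => rfl) k0_pp_001

noncomputable def cut_pp_011 : Cut := Cut.of [[⟨0, 0, 0, 67108864⟩, ⟨1, 1, 0, 67108864⟩, ⟨2, 1, 0, 67108864⟩]]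

noncomputable def f_pp_011 : ℕ → ℕ → ℕ → ℕ → Bool := onCell 0 536870912 536870912 536870912 858993459 64424510
    (rowB 3 eng mog cd1q0 cd0q1 pd1 0 false true true .pnn 0 1 1 (qsf 0 536870912 536870912 536870912 1) ndB1q0 ndB0q1 pcB1 cut_pp_011 Ext.none)

def k0_pp_011 : ∃ t, chk3 f_pp_011 t 1 1 1 = true :=
  ⟨(a (b (l 3) (b (l 3) (a (b (l 3) (a (b (l 3) (a (b (l 3) (l 6)) (l 3))) (l 3))) (l 3)))) (l 3)), by decide +kernel⟩

theorem c_pp_011 : CertB 0 536870912 536870912 536870912 858993459 64424510 3 eng mog cd1q0 cd0q1 pd1 false true true .pnn 0 1 1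
    ndB1q0 ndB0q1 pcB1 cut_pp_011 Ext.none :=
  certB0 (fam := false) (s1 := true) (s2 := true) (a := 0) (b := 1) (c := 1) (cn := .pnn) (n1 := ndB1q0) (n2 := ndB0q1) (pc := pcB1) (cut := cut_pp_011) (xt := Ext.none) (P1 := 0) (W1 := 536870912) (P2 := 536870912) (W2 := 536870912) (P3 := 858993459) (W3 := 64424510) (N0 := 3) (En := eng) (mo := mog) (C1 := cd1q0) (C2 := cd0q1) (C3 := pd1)
    rfl k0_pp_011

noncomputable def cut_pp_012 : Cut := Cut.of [[⟨0, 0, 0, 67108864⟩, ⟨1, 1, 0, 67108864⟩, ⟨2, 1, 0, 67108864⟩]]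

noncomputable def f_pp_012 : ℕ → ℕ → ℕ → ℕ → Bool := onCell 536870912 536870912 0 536870912 858993459 64424510
    (rowB 3 eng mog cd1q0 cd0q2 pd1 2 false true true .pnp 0 1 2 (qsf 0 536870912 0 536870912 1) ndB1q0 ndB0q2 pcB1 cut_pp_012 Ext.none)

def k0_pp_012 : ∃ t, chk3 f_pp_012 t 2 2 1 = true :=
  ⟨(a (b (l 2) (b (l 2) (b (l 2) (a (l 2) (a (l 2) (a (l 2) (c (l 197132152679) (l 130023130759)))))))) (c (b (a (c (a (b (l 16446880) (l 16643968)) (b (l 16542408) (l 16625888))) (b (l 16630080) (l 16730632))) (b (a (c (l 16535192) (l 16667288)) (l 16383768)) (a (l 16420144) (l 16508712)))) (a (a (a (b (l 16685528) (b (l 16600600) (l 16688136))) (b (l 16722904) (b (l 16681776) (l 16686288)))) (b (c (l 16718648) (l 16741584)) (b (l 16709904) (c (l 16563912) (l 16551224))))) (a (b (c (l 16695776) (l 16742440)) (c (b (l 16754912) (l 16710904)) (l 16657856))) (b (l 16591688) (c (l 16753104) (l 16739112)))))) (b (a (b (a (c (l 16613144) (l 16324400)) (c (l 16616184) (l 16382768)))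 (c (a (l 16608992) (l 16635248)) (a (l 16460800) (l 16462720)))) (b (a (c (l 16611088) (l 16443456)) (l 16392792)) (c (l 16632088) (l 16365584)))) (b (a (c (a (l 16601736) (l 16642376)) (a (l 16515288) (l 16532080))) (c (a (l 16651032) (l 16666872)) (a (l 16540320) (l 16565024)))) (a (a (b (c (l 16594080) (l 16530576)) (a (l 16581896) (l 16551448))) (b (c (l 16623088) (l 16551024)) (c (l 16594000) (l 16546688)))) (a (c (l 16495400) (b (l 16573192) (l 16571888))) (c (l 16651808) (l 16556488)))))))), by decide +kernel⟩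

def k1_pp_012 : ∃ t, chk3 f_pp_012 t 2 3 1 = true :=
  ⟨(b (a (a (l 2) (b (a (l 2) (b (a (c (l 220284478407) (l 203104550503)) (c (l 222968961767) (l 194514749719))) (l 3))) (l 3))) (a (b (a (a (b (c (b (l 16559312) (l 218673924423)) (c (l 16519832) (l 158007434215))) (l 3)) (b (c (b (l 16578928) (l 172503105527)) (b (l 16532208) (l 138680164663))) (c (l 211694381175) (l 207399508951)))) (a (b (c (b (l 16599152) (l 16569712)) (c (l 16549144) (l 16524360))) (b (c (l 218673956855) (l 189146000599)) (l 3))) (b (c (l 16668888) (l 16571664)) (b (c (l 178408693463) (l 16544816)) (c (l 219747651447) (l 198272751319)))))) (l 3)) (a (a (b (b (c (l 16649640) (l 16566048)) (c (c (l 224042734423) (l 203104687287)) (b (l 16539296) (l 183240435975)))) (l 3)) (b (c (b (l 16673000) (b (l 16611104) (l 16667720))) (b (l 16583160) (c (l 16559448) (l 16533032)))) (b (b (c (a (l 233169404663) (l 240685644615)) (l 222968849431)) (l 3)) (l 3)))) (b (c (b (c (l 16700464) (l 16672040)) (a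 (b (l 16636168) (l 16609872)) (l 16648600))) (b (a (l 16602008) (l 16622200)) (a (l 16586864) (l 16587520)))) (b (c (a (c (a (l 246054253767) (l 254644330151)) (l 244443728151)) (b (l 16632248) (a (l 245517515863) (l 250886259495)))) (a (c (l 233706245783) (l 220284445815)) (b (l 16554808) (c (l 224042552951) (l 217063187223))))) (l 3)))))) (l 3)), by decide +kernel⟩

def k2_pp_012 : ∃ t, chk3 f_pp_012 t 6 2 1 = true :=
  ⟨(b (a (c (c (b (l 16520192) (a (l 16586600) (l 16581656))) (b (l 16622480) (l 16652408))) (a (b (l 16561384) (l 16468968)) (b (l 16560984) (l 16565896)))) (c (b (l 16499736) (a (l 16621016) (l 16613800))) (b (l 16476248) (a (l 16558016) (l 16552208))))) (a (a (b (c (l 16676664) (l 16538072)) (c (c (l 16729480) (l 16748336)) (c (l 16691048) (l 16586464)))) (b (c (l 16681320) (l 16611080)) (c (l 16651672) (c (l 16688800) (l 16635080))))) (c (b (a (l 16668872) (l 16645216)) (a (l 16715280) (l 16689304))) (b (a (l 16597264) (l 16583584)) (a (l 16629160)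 (l 16633624)))))), by decide +kernel⟩

def k3_pp_012 : ∃ t, chk3 f_pp_012 t 6 6 1 = true :=
  ⟨(b (b (a (a (c (l 16692304) (a (l 16643032) (l 16662904))) (c (l 16773968) (l 16652552))) (a (c (l 16749928) (l 16692248)) (c (l 16723392) (l 16675912)))) (a (a (c (a (l 16674040) (l 16740968)) (a (l 16611008) (l 16635872))) (c (a (l 16723176) (l 16745872)) (c (l 16692272) (l 16653056)))) (a (a (c (l 16765792) (l 16700576)) (l 16615592)) (c (l 16746144) (l 16705368))))) (a (a (a (b (c (b (l 16638616) (a (l 194514836279) (l 16623032))) (c (l 159618160311) (l 147270077943))) (b (a (c (l 235853722663) (l 231021855415)) (c (l 245517557815) (l 233169390023))) (l 3))) (a (b (c (l 16710904) (l 16587448)) (b (c (b (l 16622000) (l 244980687095)) (l 234780041335)) (l 3))) (c (b (l 16661824) (b (b (l 16637024) (l 200420436135)) (l 244443754695))) (b (l 16601408) (b (l 174113656439) (l 234243012583)))))) (b (c (a (b (l 16692144) (l 16672848)) (l 16729552)) (a (l 16685976) (l 16652640)))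 (b (a (c (c (l 16670928) (l 16639000)) (a (l 16580808) (l 16596592))) (c (l 16684976) (l 16620952))) (a (c (b (a (l 250886317943) (l 213305381687)) (a (l 3) (l 250349435559))) (c (l 226190172583) (l 220821335543))) (c (a (c (l 217063494199) (l 198272930727)) (c (l 16698088) (l 16662512))) (c (b (l 16622352) (l 193977899207)) (l 187535405591))))))) (a (c (b (a (l 16733072) (l 16754416)) (a (b (l 16713520) (a (l 16696448) (l 16712072))) (b (l 16739576) (l 16734368)))) (b (a (l 16682056) (l 16709112)) (a (b (l 16654176) (c (l 16652400) (l 16615632))) (b (l 16687168) (l 16670480))))) (a (c (b (l 16767784) (b (l 16761176) (l 16760616))) (b (l 16700176) (b (l 16717888) (l 16705592)))) (c (b (l 16761600) (l 16776368)) (b (l 16727608) (l 16739816))))))), by decide +kernel⟩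

def k4_pp_012 : ∃ t, chk3 f_pp_012 t 12 14 1 = true :=
  ⟨(a (l 3) (b (a (l 3) (b (b (a (c (l 251423117095) (l 242833013591)) (c (a (l 255181240087) (l 258939460983)) (l 249275620279))) (l 3)) (l 3))) (l 3))), by decide +kernel⟩

def k5_pp_012 : ∃ t, chk3 f_pp_012 t 26 14 1 = true :=
  ⟨(b (a (b (c (c (b (a (l 229948443255) (l 16728376)) (a (l 260013164583) (l 264845038903))) (a (l 241759466407) (l 245517662567))) (a (b (l 212768436535) (l 250349283239)) (c (l 240685736439) (l 234243200087)))) (l 3)) (c (c (b (a (b (l 16744304) (l 16748256)) (l 16761960)) (b (a (l 264845085911) (b (l 16770768) (l 246591567655))) (a (l 3) (l 268066369847)))) (a (b (l 16706080) (l 265918732231)) (b (l 16723976) (a (l 268603118615) (l 271287494151))))) (b (a (c (l 16665320) (l 16623768)) (l 16664712)) (c (a (l 263234275527) (a (l 267529276151) (l 260549976503))) (a (l 259476077895) (l 254107414871)))))) (l 3)), by decide +kernel⟩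

def k6_pp_012 : ∃ t, chk3 f_pp_012 t 27 14 1 = true :=
  ⟨(b (a (b (c (a (l 16759200) (l 16774032)) (a (l 16684600) (l 16704024))) (c (c (a (b (l 16790776) (b (l 247665333975) (l 262697708839))) (c (l 232632933639) (l 228874832103))) (b (a (l 16745720) (l 16764600)) (a (l 267529456183) (l 226190476103)))) (c (b (l 16710728) (a (l 268066202375) (l 210621115911))) (a (b (l 16654320) (l 268066154263)) (l 193978029239))))) (c (b (l 16792880) (a (c (l 16789736) (l 16787104)) (l 16803328))) (b (l 16731392) (a (b (l 16720064) (l 16720368)) (l 16740976))))) (b (a (a (l 3) (b (b (c (a (b (l 263771466151) (l 3)) (c (l 269140174439) (l 268603302263))) (c (l 270750670343) (l 270213678375))) (l 3)) (l 3))) (b (a (c (c (b (a (l 16817680) (l 16815360)) (a (l 268066443175) (l 244444108087))) (a (l 271287630535) (l 237464777191))) (c (a (l 273435001127) (l 228337935415)) (a (l 272898080983) (l 212231692295)))) (a (c (c (l 16814160) (l 16813048)) (a (l 16759160) (l 16744272))) (c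 (l 16810888) (l 16753264)))) (b (a (a (l 3) (a (l 3) (b (c (l 268603312439) (l 270213877543)) (l 3)))) (c (c (a (b (l 249275947015) (l 271287665687)) (b (l 16814896) (l 254644653975))) (a (l 271824514951) (l 247665327591))) (c (a (l 275582590727) (l 242296616775)) (a (l 276119298487) (l 228337874807))))) (b (a (l 3) (a (l 3) (c (c (a (l 271824535719) (l 278266978999)) (l 273435137943)) (c (l 275582621863) (l 277193134423))))) (l 3))))) (l 3))), by decide +kernel⟩

def k7_pp_012 : ∃ t, chk3 f_pp_012 t 6 15 1 = true :=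
  ⟨(l 3), by decide +kernel⟩

def k8_pp_012 : ∃ t, chk3 f_pp_012 t 7 2 1 = true :=
  ⟨(a (b (b (a (l 16371128) (l 16526240)) (a (c (l 16592000) (l 16549800)) (c (l 16570624) (l 16551576)))) (b (a (c (l 16617936) (l 16571328)) (c (l 16588360) (l 16561600))) (a (c (l 16661208) (l 16617976)) (c (l 16630720) (l 16603760))))) (b (b (a (l 16492656) (l 16459312)) (a (c (l 16550312) (l 16557288)) (c (l 16530384) (l 16527896)))) (a (b (c (l 16557032) (l 16555648)) (c (l 16597584) (l 16591936))) (b (c (a (l 16532096) (l 16516056)) (a (l 16552912) (l 16552968))) (a (l 16577184) (c (l 16509480) (l 16581072))))))), by decide +kernel⟩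

def k9_pp_012 : ∃ t, chk3 f_pp_012 t 7 6 1 = true :=
  ⟨(a (b (a (c (a (l 16713576) (l 16698944)) (a (l 16676464) (l 16667248))) (c (a (l 16683880) (l 16668056)) (a (l 16658296) (l 16649616)))) (b (a (a (c (l 16747752) (l 16721312)) (l 16702104)) (a (l 16710272) (l 16697144))) (a (c (a (l 16764592) (l 16757480)) (a (l 16739984) (l 16741488))) (a (c (l 16743336) (l 16730728)) (c (l 16728248) (l 16719312)))))) (b (a (a (l 16646920) (l 16655832)) (a (c (l 16617192) (l 16629328)) (b (l 16535104) (c (l 16586856) (l 16632952))))) (a (a (b (l 16684192) (c (l 16712672) (l 16708768))) (b (l 16671864) (c (l 16695392) (l 16698168)))) (a (c (b (l 16652088) (l 16695872)) (b (l 16664256) (l 16686312))) (b (a (l 16582144) (l 16531296)) (c (a (l 16637152) (l 16604528)) (b (l 16669352) (l 16679896)))))))), by decide +kernel⟩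

def k10_pp_012 : ∃ t, chk3 f_pp_012 t 14 28 1 = true :=
  ⟨(c (a (a (b (l 16782176) (l 16794616)) (l 16818224)) (a (l 16764928) (l 16754696))) (a (a (a (l 16735792) (l 16750288)) (l 16815880)) (a (l 16754328) (l 16748184)))), by decide +kernel⟩

def k11_pp_012 : ∃ t, chk3 f_pp_012 t 28 58 1 = true :=
  ⟨(c (c (a (b (l 16784112) (a (a (b (l 16813072) (a (l 277193241319) (l 258939620599))) (a (l 16812544) (l 16811240))) (l 16787032))) (l 16797128)) (a (b (l 16781768) (a (b (l 16811112) (a (a (l 275582629655) (l 253570910903)) (l 16802920))) (l 16786096))) (l 16794600))) (c (a (b (l 16779312) (a (b (l 16807472) (a (a (l 276656350791) (l 248202201319)) (l 16792584))) (l 16785160))) (l 16770960)) (a (b (l 16756544) (a (b (l 16749424) (a (a (l 278803706999) (l 238538472023)) (l 16760336))) (l 16777432))) (l 16768152)))), by decide +kernel⟩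

def k12_pp_012 : ∃ t, chk3 f_pp_012 t 28 118 1 = true :=
  ⟨(a (b (a (a (a (l 3) (c (c (l 271824535623) (l 271824537559)) (c (l 271287668919) (l 276656247303)))) (a (b (c (c (l 276119498871) (l 275582629591)) (c (l 275045760631) (l 279877505239))) (l 3)) (c (c (b (l 266992685767) (l 273435144823)) (a (l 275045758359) (l 276119498807))) (c (b (l 255181519591) (l 273971999063)) (c (l 279340664391) (l 280414339271)))))) (c (c (a (b (l 16813040) (a (l 275582620647) (l 16813952))) (l 16811304)) (a (b (l 16813376) (a (l 269140168583) (l 16814616))) (l 16811432))) (c (a (a (a (l 279340714727) (l 265382069527)) (l 16814192)) (l 16811640)) (a (a (c (l 256792118583) (l 249812747991)) (l 16783800)) (l 16794344))))) (a (l 3) (a (b (c (c (a (l 271824532663) (l 274508884775)) (a (l 273972018567) (l 275045747303))) (c (a (l 272898258375) (b (l 271287655271) (l 274508879927))) (a (b (l 277193212567) (l 3)) (a (l 279340667431) (l 280951308551))))) (l 3)) (c (b (a (c (l 280414455815)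 (l 280951327015)) (l 16802888)) (c (a (l 289541271031) (l 278803843703)) (a (l 282025080599) (l 276119487447)))) (c (c (a (l 275582629479) (l 276656368279)) (a (l 276119480663) (l 276656348359))) (a (a (b (l 268066393927) (l 277730078855)) (c (l 276656352167) (l 282025013527))) (b (l 16804376) (c (l 277730115095) (l 272898223591))))))))) (c (a (a (b (l 16808656) (a (c (l 16812656) (l 16802792)) (l 16811624))) (l 16786808)) (l 16782792)) (a (a (b (l 16808168) (a (b (l 16813088) (a (c (l 16815704) (l 16814888)) (l 16794384))) (l 16791640))) (b (l 16804608) (l 16788920))) (a (l 16803688) (l 16800216))))), by decide +kernel⟩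

def k13_pp_012 : ∃ t, chk3 f_pp_012 t 28 119 1 = true :=
  ⟨(b (a (b (b (a (l 3) (a (l 3) (a (l 3) (a (l 3) (c (l 296520582999) (c (l 284709437479) (l 277730109607))))))) (l 3)) (l 3)) (c (a (c (a (a (l 272898272807) (l 273435141415)) (a (l 278266968135) (l 16812408))) (c (a (l 278803842887) (l 278803837975)) (a (b (l 275582616839) (l 302963047591)) (l 279877580087)))) (a (a (l 16811424) (l 16810112)) (l 16808144))) (a (c (a (c (a (l 275582631911) (l 276119500039)) (a (l 284172547031) (l 276656351319))) (a (a (l 276656348391) (l 281488196151)) (l 280951321415))) (c (a (b (a (l 277193224775) (l 282025073351)) (a (l 3) (l 293299374503))) (a (l 277193230759) (l 16814616))) (a (a (c (l 284172562279) (l 282025040679)) (b (l 284172515751) (l 290078144903))) (a (c (l 277730092135) (l 282561943415)) (l 16809880))))) (a (c (l 16811384) (l 16790936)) (l 16808032))))) (a (l 3) (a (a (l 3) (a (l 3) (c (a (l 332490924551) (l 272898262679)) (b (c (l 317458540695) (c (l 309405500231)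 (l 302963029911))) (l 3))))) (c (c (a (l 271287635479) (l 16811808)) (a (b (l 279340708743) (l 335175298983)) (l 16801880))) (c (a (a (a (l 276656372183) (l 276119499815)) (l 281488195463)) (a (l 16813872) (l 16812192))) (c (a (b (l 283098810151) (l 314237317191)) (l 16803120)) (a (a (a (l 279340709511) (l 278803836887)) (l 277730092247)) (l 283635673543)))))))), by decide +kernel⟩

def k14_pp_012 : ∃ t, chk3 f_pp_012 t 29 29 1 = true :=
  ⟨(a (a (b (l 16784128) (c (c (l 16781648) (l 16780680)) (a (c (l 16781336) (l 16780504)) (l 16777408)))) (b (l 16777904) (c (l 16796144) (l 16792904)))) (a (c (l 16823072) (l 16817736)) (c (l 16803760) (l 16805136)))), by decide +kernel⟩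

def k15_pp_012 : ∃ t, chk3 f_pp_012 t 14 15 1 = true :=
  ⟨(b (a (a (l 3) (b (a (l 3) (b (a (l 3) (c (c (l 345375826935) (l 333564669303)) (c (a (l 322827255175) (l 276119488455)) (b (c (l 314774188455) (b (l 309942360055) (l 311552987831))) (l 3))))) (l 3))) (l 3))) (a (b (b (a (c (c (b (l 274508857239) (l 320679762071)) (a (l 270750767735) (l 267529536999))) (c (b (a (l 282025060743) (l 16811280)) (a (l 324437865415) (l 273435123143))) (c (a (a (l 276119482343) (l 274508866391)) (l 271287635623)) (b (a (l 275582614151) (l 16811800)) (a (l 312089838007) (l 276119480295)))))) (a (c (b (l 16807848) (l 284709404119)) (c (l 284709399207) (a (l 286856888903) (l 16787856)))) (c (l 16784352) (l 16794176)))) (a (l 3) (c (c (l 287393760823) (a (l 290614992103) (l 287393757703))) (c (a (l 291151864951) (l 288467500599)) (a (a (l 293836224327) (l 292762477335)) (b (b (l 16789144) (l 288467500855)) (l 295983698231))))))) (l 3)) (a (b (b (c (l 16798040) (l 16775152)) (c (b (a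 (l 16784368) (l 16800488)) (a (l 294373074903) (l 288467486087))) (c (a (l 285246264919) (l 291151835303)) (a (c (l 287393748775) (l 288467490775)) (a (l 294909937959) (l 16799832)))))) (b (a (l 3) (b (c (l 292225586119) (c (l 294909962247) (l 301352392775))) (l 3))) (l 3))) (a (b (b (l 16768232) (c (l 16776320) (l 16782688))) (b (c (b (l 292225579351) (l 296520549767)) (c (l 292762450551) (a (l 298131162423) (l 295983673543)))) (l 3))) (b (c (l 16768008) (l 16765264)) (b (c (a (l 286856864183) (l 289541218151)) (c (l 287393731543) (b (l 16796160) (l 297057416535)))) (l 3))))))) (l 3)), by decide +kernel⟩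

def k16_pp_012 : ∃ t, chk3 f_pp_012 t 15 14 1 = true :=
  ⟨(a (a (b (a (l 16740736) (l 16732672)) (a (b (l 16758456) (l 16766384)) (b (l 16749336) (l 16760560)))) (b (a (l 16724016) (l 16746816)) (a (c (l 16705416) (l 16724656)) (c (l 16695912) (l 16696176))))) (a (b (a (c (l 16682864) (l 16710296)) (c (l 16672376) (l 16704064))) (a (c (b (l 16721696) (l 16713656)) (c (l 16709368) (l 16711128))) (c (b (l 16711592) (l 16704024)) (b (l 16719144) (l 16709200))))) (b (a (c (l 16640560) (l 16698128)) (c (b (l 16664968) (l 16656640)) (b (l 16687328) (l 16697136)))) (b (a (c (l 16680304) (l 16712960)) (c (c (l 16687456) (l 16694432)) (l 16706680))) (a (c (c (l 16713544) (l 16717168)) (l 16723616)) (l 6)))))), by decide +kernel⟩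

def k17_pp_012 : ∃ t, chk3 f_pp_012 t 15 15 1 = true :=
  ⟨(a (b (a (a (b (b (l 16776496) (a (l 16770488) (l 16760368))) (b (a (c (a (l 286319988055) (l 16793304)) (b (l 16790976) (c (l 293836182935) (l 298668019095)))) (c (l 16768864) (b (l 16785840) (l 16768992)))) (b (a (a (c (l 297594302951) (l 309942333207)) (c (l 292762460855) (l 303499856871))) (a (c (l 296520541767) (l 294373057351)) (c (l 291151828663) (l 298131147111)))) (l 3)))) (c (b (l 16751400) (b (a (l 16785304) (l 16780880)) (a (a (l 286319979367) (l 288467463607)) (a (l 225116691895) (l 16787112))))) (b (l 16748184) (b (a (l 16783048) (l 16778496)) (a (b (a (l 16790448) (l 16788056)) (a (l 307257967351) (l 295983674135))) (a (b (l 16785744) (l 298668012695)) (l 229411650615))))))) (a (b (c (l 16742696) (l 16740264)) (b (c (l 16753416) (l 16751232)) (c (a (b (l 16782080) (l 16785792)) (l 16779800)) (a (b (l 16780264) (l 16773920)) (l 16757168))))) (b (c (l 16736768) (l 16735656)) (a (b (l 16746264)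 (a (l 16765448) (l 6))) (b (l 16742504) (l 6)))))) (b (a (a (l 3) (b (a (l 3) (a (l 3) (b (c (l 293836169463) (l 310479187143)) (l 3)))) (l 3))) (a (b (b (a (a (c (l 300815496727) (l 302962969751)) (c (l 278266914999) (l 298668006791))) (a (b (l 16779688) (l 6)) (l 6))) (a (l 3) (l 6))) (l 3)) (l 6))) (l 3))) (b (a (a (b (c (l 16727880) (l 16728368)) (l 6)) (l 6)) (l 6)) (l 6))), by decide +kernel⟩

theorem s18_pp_012 : ∃ t, chk3 f_pp_012 t 15 7 1 = true := ex3_b k16_pp_012 k17_pp_012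

theorem s19_pp_012 : ∃ t, chk3 f_pp_012 t 28 59 1 = true := ex3_b k12_pp_012 k13_pp_012

theorem s20_pp_012 : ∃ t, chk3 f_pp_012 t 28 29 1 = true := ex3_b k11_pp_012 s19_pp_012

theorem s21_pp_012 : ∃ t, chk3 f_pp_012 t 14 29 1 = true := ex3_a s20_pp_012 k14_pp_012

theorem s22_pp_012 : ∃ t, chk3 f_pp_012 t 14 14 1 = true := ex3_b k10_pp_012 s21_pp_012

theorem s23_pp_012 : ∃ t, chk3 f_pp_012 t 14 7 1 = true := ex3_b s22_pp_012 k15_pp_012

theorem s24_pp_012 : ∃ t, chk3 f_pp_012 t 7 7 1 = true := ex3_a s23_pp_012 s18_pp_012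

theorem s25_pp_012 : ∃ t, chk3 f_pp_012 t 7 3 1 = true := ex3_b k9_pp_012 s24_pp_012

theorem s26_pp_012 : ∃ t, chk3 f_pp_012 t 7 1 1 = true := ex3_b k8_pp_012 s25_pp_012

theorem s27_pp_012 : ∃ t, chk3 f_pp_012 t 13 14 1 = true := ex3_a k5_pp_012 k6_pp_012

theorem s28_pp_012 : ∃ t, chk3 f_pp_012 t 6 14 1 = true := ex3_a k4_pp_012 s27_pp_012

theorem s29_pp_012 : ∃ t, chk3 f_pp_012 t 6 7 1 = true := ex3_b s28_pp_012 k7_pp_012

theorem s30_pp_012 : ∃ t, chk3 f_pp_012 t 6 3 1 = true := ex3_b k3_pp_012 s29_pp_012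

theorem s31_pp_012 : ∃ t, chk3 f_pp_012 t 6 1 1 = true := ex3_b k2_pp_012 s30_pp_012

theorem s32_pp_012 : ∃ t, chk3 f_pp_012 t 3 1 1 = true := ex3_a s31_pp_012 s26_pp_012

theorem s33_pp_012 : ∃ t, chk3 f_pp_012 t 2 1 1 = true := ex3_b k0_pp_012 k1_pp_012

theorem s34_pp_012 : ∃ t, chk3 f_pp_012 t 1 1 1 = true := ex3_a s33_pp_012 s32_pp_012

theorem c_pp_012 : CertB 0 536870912 0 536870912 858993459 64424510 3 eng mog cd1q0 cd0q2 pd1 false true true .pnp 0 1 2
    ndB1q0 ndB0q2 pcB1 cut_pp_012 Ext.none :=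
  certB2 (fam := false) (s1 := true) (s2 := true) (a := 0) (b := 1) (c := 2) (cn := .pnp) (n1 := ndB1q0) (n2 := ndB0q2) (pc := pcB1) (cut := cut_pp_012) (xt := Ext.none) (P1 := 0) (W1 := 536870912) (P2 := 0) (W2 := 536870912) (P3 := 858993459) (W3 := 64424510) (N0 := 3) (En := eng) (mo := mog) (C1 := cd1q0) (C2 := cd0q2) (C3 := pd1)
    rfl (fun _ => rfl) s34_pp_012

noncomputable def cut_pp_022 : Cut := Cut.of [[⟨0, 0, 0, 67108864⟩, ⟨1, 1, 0, 67108864⟩, ⟨2, 1, 0, 67108864⟩]]

noncomputable def f_pp_022 : ℕ → ℕ → ℕ → ℕ → Bool := onCell 1073741824 536870912 0 536870912 858993459 64424510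
    (rowB 3 eng mog cd1q0 cd0q2 pd2 2 false true true .pp 0 2 2 (qsf 0 536870912 0 536870912 2) ndB1q0 ndB0q2 pcB2 cut_pp_022 Ext.none)

def k0_pp_022 : ∃ t, chk3 f_pp_022 t 4 4 1 = true :=
  ⟨(a (b (a (b (l 16467752) (c (l 16455960) (l 16440752))) (b (c (l 16443664) (l 16411808)) (c (l 16425728) (l 16391384)))) (a (a (b (l 16433152) (l 16454944)) (b (l 16416456) (l 16435408))) (c (b (l 16401168) (l 16413320)) (b (l 16388992) (l 16403984))))) (b (b (a (c (l 16405752) (l 16352736)) (c (l 16368416) (l 16289968))) (a (c (b (l 16393656) (l 16364400)) (l 16332888)) (c (b (l 16358136) (l 16351880)) (b (l 16276752) (l 16247872))))) (a (c (b (l 16364224) (l 16370280)) (c (l 16327352) (l 16297384))) (c (c (b (l 16366328) (l 16364608)) (b (l 16329616) (l 16328168))) (b (l 16246176) (a (l 16284424) (l 16248048))))))), by decide +kernel⟩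

def k1_pp_022 : ∃ t, chk3 f_pp_022 t 4 5 1 = true :=
  ⟨(a (a (b (a (c (l 16433808) (l 16429536)) (c (b (l 16485152) (l 16509592)) (l 16398600))) (a (b (l 16560968) (l 16572296)) (b (l 16507496) (l 16534936)))) (b (c (a (l 16472696) (l 16446784)) (a (l 16447040) (l 16409368))) (a (c (b (l 16505472) (l 16528640)) (b (l 16478776) (l 16502576))) (c (b (l 16474216) (l 16493528)) (b (l 16434840) (l 16453968)))))) (a (a (b (c (l 16419984) (l 16370208)) (c (b (l 16441912) (l 16457400)) (b (l 16388720) (l 16402520)))) (b (c (b (l 16387840) (l 16397904)) (b (l 16326120) (l 16332464))) (c (b (l 16408952) (l 16420088)) (b (l 16339960) (l 16327440))))) (a (b (c (b (l 16362192) (l 16347152)) (c (l 16306968) (l 16305656))) (c (b (a (l 16383400) (l 16365912)) (c (l 16400928) (l 16360312))) (b (a (l 16302000) (l 16276144)) (a (l 16306352) (c (l 16302544) (l 16251840)))))) (b (c (b (l 16334120) (c (l 16355680) (l 16313248))) (b (l 16244792) (c (l 16266728) (l 16216120)))) (b (c (a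 (l 16346464) (l 16325696)) (c (l 16265352) (l 16212984))) (c (a (c (l 16370552) (l 16325712)) (c (l 16347088) (l 16301112))) (a (c (l 16276752) (l 16223672)) (c (l 16230096) (l 157335562935))))))))), by decide +kernel⟩

def k2_pp_022 : ∃ t, chk3 f_pp_022 t 5 2 1 = true :=
  ⟨(a (a (a (b (b (c (b (l 16341600) (l 16329696)) (b (l 16241288) (b (l 16229192) (l 16222896)))) (c (b (l 16319360) (l 16310128)) (c (l 16241264) (b (l 16189584) (l 16184112))))) (b (c (b (a (l 16311376) (l 16295776)) (a (l 16307864) (l 205654153847))) (b (c (l 16230856) (l 16176952)) (c (l 171831132711) (l 407517421431)))) (b (c (c (l 234645246679) (l 256120011335)) (a (c (l 16230120) (l 16175424)) (c (l 367788960151) (l 403759191159)))) (a (a (c (l 248066945511) (l 313028103367)) (l 1)) (l 1))))) (b (c (b (b (l 16324392) (b (l 16316976) (l 16290424))) (b (c (l 16324232) (l 16272232)) (c (l 16308536) (l 16258376)))) (b (b (a (l 16216944) (l 409664729191)) (b (c (l 16229472) (l 486974201495)) (c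 (l 16223920) (a (l 16167168) (l 16149360))))) (c (b (l 441877178391) (l 433287224775)) (b (a (l 16161768) (l 467109940775)) (a (l 16153816) (l 449393185255)))))) (a (b (b (c (l 16279792) (c (l 16201728) (l 431139590183))) (b (l 1) (l 1))) (l 1)) (l 1)))) (b (b (l 1) (l 1)) (l 1))) (l 1)), by decide +kernel⟩

def k3_pp_022 : ∃ t, chk3 f_pp_022 t 8 6 1 = true :=
  ⟨(b (a (a (b (l 16530728) (c (l 16600256) (l 16595864))) (b (l 16542952) (l 16552792))) (a (c (b (l 16552528) (l 16577568)) (b (l 16528112) (l 16544832))) (c (b (l 16513472) (l 16492352)) (b (l 16474152) (l 16453472))))) (a (a (b (a (c (l 16590168) (l 16575384)) (l 16602752)) (c (a (l 16586864) (l 16604328)) (a (l 16566368) (l 16593120)))) (b (c (l 16628064) (l 16635368)) (c (b (l 16629216) (l 16629496)) (b (l 16633096) (l 16632120))))) (b (c (a (l 16604336) (b (l 16529632) (l 16478016))) (a (l 16534552) (b (l 16512248) (l 16461128)))) (c (b (a (l 16626064) (a (l 16587080) (l 16581216))) (a (c (l 16603136)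 (l 16552720)) (a (b (l 16576112) (l 16558248)) (b (a (l 16575992) (l 16561400)) (l 16569336))))) (b (a (l 16607208) (a (l 16554192) (l 16517808))) (a (c (l 16543304) (l 16532944)) (a (b (l 16564064) (l 16566544)) (b (a (l 16535680) (l 16516160)) (l 16525832))))))))), by decide +kernel⟩

def k4_pp_022 : ∃ t, chk3 f_pp_022 t 8 7 1 = true :=
  ⟨(b (a (b (b (a (a (c (l 16582688) (a (l 16557056) (l 16572768))) (c (l 16608960) (l 16575744))) (a (c (l 16629600) (l 16606872)) (c (l 16649800) (l 16658248)))) (b (a (c (l 16615096) (l 16600072)) (c (l 16657704) (l 16663256))) (l 6))) (l 6)) (b (b (a (c (b (l 16624448) (l 16560192)) (c (l 16566704) (l 16555376))) (a (c (c (l 16606096) (l 16589928)) (a (l 16573176) (l 16552656))) (c (a (b (l 16575512) (l 16573608)) (b (l 16559728) (c (l 16568520) (l 16546448)))) (a (b (l 16533496) (l 16530544)) (b (l 16512840) (c (l 16522504) (l 16496704))))))) (b (a (a (l 16581232) (c (l 16605888) (l 16599280))) (a (b (c (l 16595848) (l 16559088))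 (l 6)) (a (b (c (l 16572024) (l 16528128)) (l 6)) (c (c (l 295312135415) (l 321618773671)) (c (l 337187982343) (l 348999101079)))))) (a (l 6) (a (l 6) (a (l 6) (a (l 6) (l 1))))))) (a (l 6) (a (l 6) (a (l 6) (l 1)))))) (a (l 6) (a (l 6) (l 1)))), by decide +kernel⟩

def k5_pp_022 : ∃ t, chk3 f_pp_022 t 9 12 1 = true :=
  ⟨(a (a (c (b (l 16473128) (c (l 16501744) (l 16475840))) (b (l 16396048) (c (l 16447480) (l 16416664)))) (c (b (a (l 16441664) (l 16420104)) (a (l 16453712) (b (l 16427112) (l 16431728)))) (b (a (l 16372416) (c (l 16362728) (l 16320272))) (a (l 16362240) (b (l 16347656) (l 16309624)))))) (a (b (c (a (l 16398056) (c (l 16397008) (l 16352872))) (a (c (l 16334000) (l 16286680)) (c (b (l 16304224) (l 16305208)) (b (l 16252392) (a (l 16261432) (l 16243928)))))) (a (c (b (l 16402984) (c (l 16426320) (l 16385080))) (c (b (l 16337744) (l 197064277271)) (b (l 16289664) (l 161093848967)))) (b (c (a (l 16384520) (l 318934024583)) (c (l 177736848023) (a (l 16262144)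 (l 16243808)))) (a (c (l 515965675991) (c (l 16304768) (l 197064167303))) (l 1))))) (b (a (c (c (l 253435808359) (l 213707255271)) (c (l 235181984247) (b (l 16222432) (l 229276270983)))) (a (a (c (l 289942915591) (l 221760092087)) (l 1)) (l 1))) (l 1)))), by decide +kernel⟩

def k6_pp_022 : ∃ t, chk3 f_pp_022 t 9 26 1 = true :=
  ⟨(b (a (a (c (a (l 16513888) (l 16488664)) (a (l 16461720) (l 16427096))) (a (c (l 16441848) (a (l 16400624) (l 16382744))) (c (c (l 379063764375) (l 386043001159)) (c (l 375305510007) (l 275984346279))))) (a (a (a (c (l 565894690167) (b (l 212096668407) (l 484827101959))) (l 1)) (l 1)) (l 1))) (a (a (a (c (l 16523064) (l 16471040)) (c (a (l 16503096) (l 16489592)) (a (l 16443872) (l 16425512)))) (b (a (c (a (l 16474248) (l 16460600)) (a (l 16405352) (l 16386816))) (c (c (l 331282247639) (l 337187742615)) (a (l 410202129975) (l 496638309591)))) (a (c (c (l 375305727607) (l 390874916951)) (c (l 415570925111) (l 450467494695))) (a (a (c (l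 523482020455) (l 485364077143)) (l 1)) (l 1))))) (l 1))), by decide +kernel⟩

def k7_pp_022 : ∃ t, chk3 f_pp_022 t 9 27 1 = true :=
  ⟨(a (b (a (a (c (a (l 16539648) (l 16546680)) (a (l 16489944) (l 16471112))) (c (a (c (l 16524968) (l 16497616)) (a (c (l 16515120) (l 16486048)) (b (l 16491752) (c (l 16510464) (l 412349827879))))) (a (b (l 16450024) (l 16475088)) (b (l 16431000) (a (l 16439544) (c (l 16447176) (l 16411600))))))) (a (a (b (c (c (l 16496640) (l 16464760)) (c (l 16430120) (l 16392720))) (a (c (c (l 473016299671) (l 473553091847)) (c (l 468721191783) (l 464963057959))) (b (c (l 479458678631) (l 448320056327)) (l 1)))) (b (a (c (l 520260841415) (l 486974736487)) (c (l 471405571271) (l 435971981447))) (l 1))) (l 1))) (a (a (c (b (a (b (l 16546224) (l 16546936)) (b (l 16531384) (l 16531168))) (a (l 16545672) (c (l 16542256) (l 16516600)))) (b (a (l 16475272) (c (l 16490616) (l 16460808))) (a (l 16494800) (c (l 16488752) (l 16458704))))) (a (c (b (c (b (l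 16529560) (l 16528800)) (b (l 16501952) (l 16501088))) (c (l 301754507607) (l 322692423783))) (b (b (a (l 16461232) (l 16450968)) (l 400001765783)) (c (l 338261622679) (l 357588928007)))) (b (c (c (l 280816516343) (l 320544909159)) (c (l 338261588679) (l 361883861975))) (l 1)))) (l 1))) (l 1)), by decide +kernel⟩

def k8_pp_022 : ∃ t, chk3 f_pp_022 t 9 7 1 = true :=
  ⟨(a (b (b (a (a (a (a (b (b (c (l 16547784) (l 16497280)) (c (l 343093608359) (l 374232034647))) (b (c (c (l 244309373751) (l 253436137543)) (l 268468456727)) (l 1))) (b (c (c (l 325913746391) (l 339335477831)) (b (l 16486872) (l 316249954791))) (l 1))) (b (c (a (c (l 295848958535) (l 307660073607)) (c (l 265247299559) (l 275984666151))) (b (c (l 337724785751) (l 338261610711)) (a (l 273837132583) (l 1)))) (l 1))) (a (a (a (b (b (c (l 238403719143) (l 277058329287)) (l 1)) (l 1)) (l 1)) (l 1)) (l 1))) (l 1)) (l 1)) (l 1)) (l 1)), by decide +kernel⟩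

def k9_pp_022 : ∃ t, chk3 f_pp_022 t 5 3 1 = true :=
  ⟨(b (l 1) (l 1)), by decide +kernel⟩

def k10_pp_022 : ∃ t, chk3 f_pp_022 t 3 1 1 = true :=
  ⟨(l 1), by decide +kernel⟩

theorem s11_pp_022 : ∃ t, chk3 f_pp_022 t 9 13 1 = true := ex3_b k6_pp_022 k7_pp_022

theorem s12_pp_022 : ∃ t, chk3 f_pp_022 t 9 6 1 = true := ex3_b k5_pp_022 s11_pp_022

theorem s13_pp_022 : ∃ t, chk3 f_pp_022 t 9 3 1 = true := ex3_b s12_pp_022 k8_pp_022

theorem s14_pp_022 : ∃ t, chk3 f_pp_022 t 8 3 1 = true := ex3_b k3_pp_022 k4_pp_022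

theorem s15_pp_022 : ∃ t, chk3 f_pp_022 t 4 3 1 = true := ex3_a s14_pp_022 s13_pp_022

theorem s16_pp_022 : ∃ t, chk3 f_pp_022 t 2 3 1 = true := ex3_a s15_pp_022 k9_pp_022

theorem s17_pp_022 : ∃ t, chk3 f_pp_022 t 4 2 1 = true := ex3_b k0_pp_022 k1_pp_022

theorem s18_pp_022 : ∃ t, chk3 f_pp_022 t 2 2 1 = true := ex3_a s17_pp_022 k2_pp_022

theorem s19_pp_022 : ∃ t, chk3 f_pp_022 t 2 1 1 = true := ex3_b s18_pp_022 s16_pp_022

theorem s20_pp_022 : ∃ t, chk3 f_pp_022 t 1 1 1 = true := ex3_a s19_pp_022 k10_pp_022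

theorem c_pp_022 : CertB 0 536870912 0 536870912 858993459 64424510 3 eng mog cd1q0 cd0q2 pd2 false true true .pp 0 2 2
    ndB1q0 ndB0q2 pcB2 cut_pp_022 Ext.none :=
  certB2 (fam := false) (s1 := true) (s2 := true) (a := 0) (b := 2) (c := 2) (cn := .pp) (n1 := ndB1q0) (n2 := ndB0q2) (pc := pcB2) (cut := cut_pp_022) (xt := Ext.none) (P1 := 0) (W1 := 536870912) (P2 := 0) (W2 := 536870912) (P3 := 858993459) (W3 := 64424510) (N0 := 3) (En := eng) (mo := mog) (C1 := cd1q0) (C2 := cd0q2) (C3 := pd2)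
    rfl (fun _ => rfl) s20_pp_022

noncomputable def f_pp_101 : ℕ → ℕ → ℕ → ℕ → Bool := onCell 536870912 536870912 536870912 536870912 858993459 64424510
    (rowB 3 eng mog cd1q1 cd0q1 pd0 0 false true true .npn 1 0 1 (qsf 536870912 536870912 536870912 536870912 0) ndB1q1 ndB0q1 pcB0 Cut.none Ext.none)

def k0_pp_101 : ∃ t, chk3 f_pp_101 t 1 1 1 = true :=
  ⟨(l 3), by decide +kernel⟩

theorem c_pp_101 : CertB 536870912 536870912 536870912 536870912 858993459 64424510 3 eng mog cd1q1 cd0q1 pd0 false true true .npn 1 0 1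
    ndB1q1 ndB0q1 pcB0 Cut.none Ext.none :=
  certB0 (fam := false) (s1 := true) (s2 := true) (a := 1) (b := 0) (c := 1) (cn := .npn) (n1 := ndB1q1) (n2 := ndB0q1) (pc := pcB0) (cut := Cut.none) (xt := Ext.none) (P1 := 536870912) (W1 := 536870912) (P2 := 536870912) (W2 := 536870912) (P3 := 858993459) (W3 := 64424510) (N0 := 3) (En := eng) (mo := mog) (C1 := cd1q1) (C2 := cd0q1) (C3 := pd0)
    rfl k0_pp_101

noncomputable def f_pp_102 : ℕ → ℕ → ℕ → ℕ → Bool := onCell 0 536870912 0 536870912 858993459 64424510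
    (rowB 3 eng mog cd1q1 cd0q2 pd0 2 false true true .npp 1 0 2 (qsf 536870912 536870912 0 536870912 0) ndB1q1 ndB0q2 pcB0 Cut.none Ext.none)

def k0_pp_102 : ∃ t, chk3 f_pp_102 t 2 1 1 = true :=
  ⟨(b (a (l 3) (a (l 3) (l 3))) (l 3)), by decide +kernel⟩

def k1_pp_102 : ∃ t, chk3 f_pp_102 t 6 2 1 = true :=
  ⟨(b (a (b (a (b (c (a (l 182703329383) (l 145659175575)) (a (l 167134102871) (l 152101701495))) (l 3)) (b (c (a (l 137606073223) (l 16437944)) (c (l 138143002279) (l 16480712))) (c (a (l 191830216615) (l 161765207383)) (c (l 173039587431) (l 162302189351))))) (l 3)) (b (a (b (a (c (l 16478000) (l 16528600)) (c (l 16518608) (l 16529928))) (c (c (c (l 134921960503) (l 142974933543)) (l 16534016)) (c (l 138679834311) (l 144048480519)))) (c (b (l 16349912) (a (b (l 16469328) (l 16381840)) (l 16361616))) (c (l 16563368) (l 16466000)))) (b (a (a (l 3) (c (l 185387404839) (l 173039368647))) (c (a (b (l 151027639175) (l 183776741783)) (c (l 147806434839) (l 16609160)))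 (c (l 141364138263) (a (l 166597179271) (l 16468976))))) (l 3)))) (l 3)), by decide +kernel⟩

def k2_pp_102 : ∃ t, chk3 f_pp_102 t 7 2 1 = true :=
  ⟨(a (a (b (c (b (a (b (l 16580944) (l 16361128)) (l 16324904)) (c (b (a (l 16375368) (l 16432880)) (c (b (l 133311235047) (l 162302154567)) (l 174113211047))) (b (l 16618784) (l 174113343895)))) (b (c (l 16572560) (l 16480312)) (c (b (l 16559888) (l 159617704455)) (b (a (l 16465888) (l 16461936)) (a (l 178945140151) (l 159080910727)))))) (l 3)) (b (c (b (a (l 16346920) (l 16432544)) (c (c (b (l 16453352) (a (l 130626788375) (l 16439728))) (b (l 16525312) (l 139753436183))) (b (l 16630408) (l 16516448)))) (c (b (l 16581648) (b (l 16568176) (l 129552936599))) (b (l 16470352) (b (l 16454936) (a (l 16442776) (l 16438248)))))) (b (b (c (c (c (a (l 166597088791) (l 159617746183)) (l 165523400391)) (l 180555751863)) (c (l 181092501031) (a (l 193977458983) (l 172502591559)))) (l 3)) (l 3)))) (b (c (b (c (a (l 16441008) (l 16504560))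 (l 16554144)) (a (c (b (l 16357800) (a (c (l 16434200) (l 16513200)) (l 16555008))) (l 16531016)) (c (a (l 16266872) (l 16351528)) (l 16623512)))) (b (a (l 16425216) (l 16397688)) (a (c (l 16465376) (a (l 16440016) (l 16433792))) (c (l 16577712) (l 16423392))))) (b (c (c (a (a (c (b (l 153175314375) (l 3)) (l 159080912407)) (c (b (l 141364126951) (l 163375803607)) (l 152638296455))) (c (b (a (l 16415608) (l 16414448)) (c (a (l 155322683431) (l 147806497223)) (l 152101633719))) (b (l 16502808) (l 151564520167)))) (a (b (l 144048508775) (l 189145665015)) (b (l 16602408) (l 149954067815)))) (c (a (b (a (l 16545032) (l 16549448)) (l 195051401543)) (b (l 16555288) (a (l 181629636807) (l 16514544)))) (a (b (a (l 160691413143) (l 130089748999)) (a (l 3) (l 191829904215))) (b (a (l 16407016) (l 16403016)) (a (l 153711794647) (l 142437504375)))))) (l 3)))), by decide +kernel⟩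

def k3_pp_102 : ∃ t, chk3 f_pp_102 t 3 3 1 = true :=
  ⟨(l 3), by decide +kernel⟩

theorem s4_pp_102 : ∃ t, chk3 f_pp_102 t 3 2 1 = true := ex3_a k1_pp_102 k2_pp_102

theorem s5_pp_102 : ∃ t, chk3 f_pp_102 t 3 1 1 = true := ex3_b s4_pp_102 k3_pp_102

theorem s6_pp_102 : ∃ t, chk3 f_pp_102 t 1 1 1 = true := ex3_a k0_pp_102 s5_pp_102

theorem c_pp_102 : CertB 536870912 536870912 0 536870912 858993459 64424510 3 eng mog cd1q1 cd0q2 pd0 false true true .npp 1 0 2
    ndB1q1 ndB0q2 pcB0 Cut.none Ext.none :=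
  certB2 (fam := false) (s1 := true) (s2 := true) (a := 1) (b := 0) (c := 2) (cn := .npp) (n1 := ndB1q1) (n2 := ndB0q2) (pc := pcB0) (cut := Cut.none) (xt := Ext.none) (P1 := 536870912) (W1 := 536870912) (P2 := 0) (W2 := 536870912) (P3 := 858993459) (W3 := 64424510) (N0 := 3) (En := eng) (mo := mog) (C1 := cd1q1) (C2 := cd0q2) (C3 := pd0)
    rfl (fun _ => rfl) s6_pp_102

noncomputable def f_pp_112 : ℕ → ℕ → ℕ → ℕ → Bool := onCell 536870912 536870912 0 536870912 858993459 64424510
    (rowB 3 eng mog cd1q1 cd0q2 pd1 2 false true true .dn 1 1 2 (qsf 536870912 536870912 0 536870912 1) ndB1q1 ndB0q2 pcB1 Cut.none Ext.none)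

def k0_pp_112 : ∃ t, chk3 f_pp_112 t 4 4 1 = true :=
  ⟨(a (c (c (c (b (a (c (a (l 16069328) (l 16055808)) (l 16143536)) (c (a (l 16043032) (l 16030880)) (l 16122392))) (a (c (b (l 16242800) (a (l 16231648) (l 16212696))) (b (l 16229344) (l 16285648))) (c (b (l 16126984) (l 16291008)) (b (l 16202336) (l 16254912))))) (b (a (c (l 16226800) (l 16312288)) (l 16276056)) (a (c (l 16431432) (l 16396960)) (c (l 16302904) (l 16378784))))) (c (b (a (l 16444552) (l 16440304)) (a (c (l 16468800) (l 16541656)) (c (l 16456392) (l 16535424)))) (b (l 16547408) (a (l 16648976) (l 16653584))))) (c (a (b (l 16461224) (c (l 16641760) (l 16526632))) (c (l 16613936) (l 16346520))) (b (a (c (l 16321744) (l 16110976)) (c (l 16280360) (l 16050656))) (a (b (l 16089192) (a (l 16320752) (l 16302232))) (c (l 16349728) (b (l 16134808) (l 16163024))))))) (c (c (c (b (c (a (b (a (l 15990136) (l 15979600)) (l 16041744)) (b (b (l 15958960) (l 15978312)) (l 16018224))) (a (b (l 16076208) (l 16127144))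 (b (l 16061088) (l 16105688)))) (a (c (b (l 16097936) (l 16153368)) (b (l 16177000) (l 16226176))) (c (b (l 16070888) (l 16122792)) (l 16217560)))) (b (a (b (l 16218648) (l 16259752)) (b (l 16204664) (l 16241536))) (a (c (l 16279864) (l 16359960)) (c (l 16256408) (l 16339384))))) (c (b (a (l 16430408) (l 16416464)) (a (l 16420848) (l 16467880))) (b (a (l 16632376) (l 16621744)) (c (l 16606776) (l 16693344))))) (c (b (c (l 16650192) (a (l 16480216) (l 16484536))) (c (l 16646600) (l 16351816))) (b (a (b (l 15980504) (l 16142952)) (b (l 15929128) (l 16133160))) (a (c (l 16323464) (l 16111944)) (c (l 16295856) (l 16066040))))))), by decide +kernel⟩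

def k1_pp_112 : ∃ t, chk3 f_pp_112 t 4 10 1 = true :=
  ⟨(a (a (c (c (c (b (c (a (l 16293920) (l 16273000)) (a (l 16349080) (l 16331184))) (a (c (b (l 16338240) (a (l 74255210775) (l 16360008))) (b (l 16388168) (l 16410800))) (c (c (l 16317288) (l 16342696)) (l 16381296)))) (b (a (l 16433976) (l 16420856)) (a (c (l 16448536) (l 16497920)) (l 16480800)))) (a (b (l 16458568) (l 124720993671)) (b (l 16477320) (l 16443856)))) (c (c (b (l 16604608) (l 16469888)) (b (l 16519392) (a (l 16506248) (l 16508528)))) (b (a (c (l 16410264) (l 16281800)) (l 16290224)) (a (c (l 110762517895) (b (l 16307064) (l 103246086983))) (c (l 16412176) (l 16274320)))))) (c (c (c (b (c (a (l 16253136) (l 16234168)) (l 16305800)) (c (a (l 16308464) (l 16308816)) (a (l 16362712) (l 16344744)))) (c (b (l 16369496) (l 16410392)) (b (l 16434528) (l 16467864)))) (c (b (l 16533696) (l 16553880)) (l 16541528))) (c (c (b (l 16621264) (l 16591992)) (b (l 16521696) (l 16512872))) (b (a (l 16295936) (l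 16302488)) (a (c (l 16405280) (l 16276968)) (c (l 16399392) (l 16259752))))))) (c (c (c (a (b (c (a (l 16215952) (l 16198376)) (l 16273728)) (c (a (l 16267968) (l 16248720)) (a (l 16327248) (l 16310096)))) (b (a (l 16215656) (l 16199672)) (c (a (l 16229984) (l 16211664)) (l 16284768)))) (a (c (b (l 16342032) (l 16380376)) (l 16407264)) (c (l 16416824) (l 16403232)))) (c (a (b (l 16519168) (l 16538400)) (c (l 16474952) (l 16547608))) (a (l 16592688) (l 16631936)))) (c (a (c (l 16564720) (l 16525960)) (c (l 16653336) (l 16539728))) (a (b (c (l 16349848) (l 16190344)) (a (l 16217088) (l 16229296))) (c (l 16354080) (b (l 16155872) (l 16210600))))))), by decide +kernel⟩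

def k2_pp_112 : ∃ t, chk3 f_pp_112 t 4 22 1 = true :=
  ⟨(a (c (c (b (a (c (c (a (l 138142796359) (a (l 98414381671) (l 75865800263))) (a (l 145659115287) (l 16432072))) (a (l 149954295479) (l 102172814487))) (c (c (a (l 25399934407) (l 16325408)) (a (l 16395792) (l 16377272))) (c (l 16437632) (l 16489016)))) (a (l 3) (c (c (a (b (l 94656279223) (l 3)) (a (l 79087001015) (l 16343096))) (a (l 110225633175) (l 16395672))) (a (l 120963276663) (l 16532128))))) (a (a (l 178945055431) (l 155859595895)) (a (l 133847836967) (l 111836098823)))) (c (a (c (l 192904043655) (l 188609043623)) (c (l 123110474631) (a (l 165523524711) (l 16499544)))) (b (a (a (c (l 182703126983) (l 178944830615)) (c (l 16412928) (a (l 16314832) (l 16310696)))) (a (c (l 16411104) (l 16301016)) (l 16265672))) (a (l 3) (a (c (l 172502588935) (l 160154328199)) (a (l 134384362935) (l 16209480))))))) (c (c (c (a (c (a (c (l 16303200) (l 16329304)) (c (l 16282056) (l 16309288))) (a (l 16368928) (l 16350656)))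 (c (a (b (l 16264424) (l 16286240)) (b (l 16244992) (l 16266168))) (a (l 16332552) (l 16314520)))) (a (c (l 16435520) (l 16469744)) (c (l 16382664) (l 16442680)))) (c (a (l 16508888) (l 16532696)) (a (l 16607568) (l 16622728)))) (c (a (c (l 16579456) (a (l 16506112) (l 16513784))) (c (l 16604392) (l 16528672))) (a (c (a (l 16406760) (l 16406520)) (c (a (l 16315192) (l 16307360)) (a (l 16247320) (l 16233976)))) (a (c (l 16408208) (c (l 16301520) (l 16222680))) (l 16148896)))))), by decide +kernel⟩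

def k3_pp_112 : ∃ t, chk3 f_pp_112 t 4 23 1 = true :=
  ⟨(a (a (l 3) (a (l 3) (a (l 3) (a (l 3) (c (c (c (l 129015993047) (l 147269867495)) (l 16455936)) (c (l 194514524023) (l 184313634935))))))) (a (a (b (c (c (c (c (a (l 102709297079) (a (l 87676892903) (l 76939466759))) (l 96803838615)) (l 110225839367)) (l 16510344)) (c (l 175724145175) (c (l 16406224) (a (l 160154278151) (l 16299928))))) (l 3)) (c (c (c (c (a (b (l 18420535255) (l 125257825655)) (b (l 16322456) (b (l 90361217015) (l 3)))) (b (l 16377400) (l 114520546695))) (c (l 99488303367) (l 16479352))) (l 132774051191)) (c (c (l 16547520) (l 166060386279)) (b (c (l 16411016) (l 100024730311)) (c (l 171965703511) (l 164449263383)))))) (c (a (c (c (c (b (c (l 16293952) (l 16319816)) (b (c (l 16309048) (l 16333672)) (a (l 107541067607) (c (l 16312672) (l 16336744))))) (b (l 16359016) (b (l 16370912) (l 16376288)))) (c (l 16417280) (l 16468176))) (c (l 16540192) (l 16578912))) (c (c (c (c (b (l 16272920) (a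 (l 16297880) (l 16287232))) (l 16308944)) (l 16348368)) (c (l 16401512) (l 16454808))) (l 16385080))) (c (c (l 132237567415) (a (l 16503592) (l 16516104))) (c (a (b (l 16414904) (l 16414384)) (l 16422192)) (a (b (l 16291432) (a (l 16304712) (l 16305696))) (c (l 16331256) (l 16262240)))))))), by decide +kernel⟩

def k4_pp_112 : ∃ t, chk3 f_pp_112 t 5 2 1 = true :=
  ⟨(a (b (a (c (c (b (b (c (c (b (l 15949112) (l 15960960)) (l 16047848)) (l 16189376)) (c (c (l 15996000) (l 16084200)) (l 16221200))) (c (c (b (l 16045368) (l 16093920)) (l 19896773575)) (c (l 16231944) (l 16316408)))) (c (b (l 16397872) (l 16447336)) (b (l 16601816) (l 16629672)))) (c (b (c (l 16721952) (l 16517488)) (l 16458208)) (b (b (l 16019664) (l 16168936)) (c (l 16312600) (l 16107480))))) (b (l 1) (l 1))) (a (b (c (c (a (c (c (b (l 16148392) (l 16193672)) (l 16240160)) (l 16409568)) (c (b (l 16189216) (l 344703618295)) (l 16394824))) (c (c (l 16450736) (l 16526744)) (l 16620360))) (c (c (l 16684528)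 (l 16559616)) (b (l 16113480) (c (l 16392056) (l 16189960))))) (a (c (c (c (c (b (b (l 16225848) (l 16246352)) (c (l 315175803623) (l 16288752))) (b (l 16296472) (l 16329464))) (b (l 16389344) (l 471942344359))) (b (l 16410248) (l 16339000))) (c (b (l 16552776) (l 16375760)) (b (l 16233880) (c (l 16431352) (l 561599644007))))) (l 1))) (l 1))) (l 1)), by decide +kernel⟩

def k5_pp_112 : ∃ t, chk3 f_pp_112 t 2 3 1 = true :=
  ⟨(b (a (b (b (b (b (a (l 3) (a (l 3) (a (a (l 3) (c (c (c (c (l 123110299847) (l 16375840)) (l 16446592)) (l 16549440)) (c (l 16516960) (l 169817992615)))) (c (c (c (c (a (c (b (l 16308992) (l 109151639047)) (l 16333656)) (c (l 16300816) (l 16324992))) (l 16365264)) (l 16437864)) (l 16530992)) (c (l 16527872) (c (l 16421288) (l 16314784))))))) (a (l 3) (a (l 3) (a (l 3) (a (l 3) (l 1)))))) (l 3)) (l 3)) (l 3)) (l 1)) (l 3)), by decide +kernel⟩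

def k6_pp_112 : ∃ t, chk3 f_pp_112 t 3 1 1 = true :=
  ⟨(l 1), by decide +kernel⟩

theorem s7_pp_112 : ∃ t, chk3 f_pp_112 t 4 11 1 = true := ex3_b k2_pp_112 k3_pp_112

theorem s8_pp_112 : ∃ t, chk3 f_pp_112 t 4 5 1 = true := ex3_b k1_pp_112 s7_pp_112

theorem s9_pp_112 : ∃ t, chk3 f_pp_112 t 4 2 1 = true := ex3_b k0_pp_112 s8_pp_112

theorem s10_pp_112 : ∃ t, chk3 f_pp_112 t 2 2 1 = true := ex3_a s9_pp_112 k4_pp_112

theorem s11_pp_112 : ∃ t, chk3 f_pp_112 t 2 1 1 = true := ex3_b s10_pp_112 k5_pp_112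

theorem s12_pp_112 : ∃ t, chk3 f_pp_112 t 1 1 1 = true := ex3_a s11_pp_112 k6_pp_112

theorem c_pp_112 : CertB 536870912 536870912 0 536870912 858993459 64424510 3 eng mog cd1q1 cd0q2 pd1 false true true .dn 1 1 2
    ndB1q1 ndB0q2 pcB1 Cut.none Ext.none :=
  certB2 (fam := false) (s1 := true) (s2 := true) (a := 1) (b := 1) (c := 2) (cn := .dn) (n1 := ndB1q1) (n2 := ndB0q2) (pc := pcB1) (cut := Cut.none) (xt := Ext.none) (P1 := 536870912) (W1 := 536870912) (P2 := 0) (W2 := 536870912) (P3 := 858993459) (W3 := 64424510) (N0 := 3) (En := eng) (mo := mog) (C1 := cd1q1) (C2 := cd0q2) (C3 := pd1)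
    rfl (fun _ => rfl) s12_pp_112

noncomputable def f_pp_202_a : ℕ → ℕ → ℕ → ℕ → Bool := onCell 0 536870912 0 536870912 858993459 64424510
    (rowB 3 eng mog cd1q2a cd0q2 pd0 0 false true true .pp 2 0 2 (qsf 0 536870912 0 536870912 0) ndB1q2a ndB0q2 pcB0 Cut.none Ext.none)

def k0_pp_202_a : ∃ t, chk3 f_pp_202_a t 1 1 1 = true :=
  ⟨(l 3), by decide +kernel⟩

theorem c_pp_202_a : CertB 0 536870912 0 536870912 858993459 64424510 3 eng mog cd1q2a cd0q2 pd0 false true true .pp 2 0 2
    ndB1q2a ndB0q2 pcB0 Cut.none Ext.none :=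
  certB0 (fam := false) (s1 := true) (s2 := true) (a := 2) (b := 0) (c := 2) (cn := .pp) (n1 := ndB1q2a) (n2 := ndB0q2) (pc := pcB0) (cut := Cut.none) (xt := Ext.none) (P1 := 0) (W1 := 536870912) (P2 := 0) (W2 := 536870912) (P3 := 858993459) (W3 := 64424510) (N0 := 3) (En := eng) (mo := mog) (C1 := cd1q2a) (C2 := cd0q2) (C3 := pd0)
    rfl k0_pp_202_a

noncomputable def f_pp_202_b : ℕ → ℕ → ℕ → ℕ → Bool := onCell 1239849684 370763052 0 536870912 858993459 64424510
    (rowB 3 eng mog cd1q2b cd0q2 pd0 0 false true true .pp 2 0 2 (qsf 1239849684 370763052 0 536870912 0) ndB1q2b ndB0q2 pcB0 Cut.none Ext.none)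

def k0_pp_202_b : ∃ t, chk3 f_pp_202_b t 1 1 1 = true :=
  ⟨(l 3), by decide +kernel⟩

theorem c_pp_202_b : CertB 1239849684 370763052 0 536870912 858993459 64424510 3 eng mog cd1q2b cd0q2 pd0 false true true .pp 2 0 2
    ndB1q2b ndB0q2 pcB0 Cut.none Ext.none :=
  certB0 (fam := false) (s1 := true) (s2 := true) (a := 2) (b := 0) (c := 2) (cn := .pp) (n1 := ndB1q2b) (n2 := ndB0q2) (pc := pcB0) (cut := Cut.none) (xt := Ext.none) (P1 := 1239849684) (W1 := 370763052) (P2 := 0) (W2 := 536870912) (P3 := 858993459) (W3 := 64424510) (N0 := 3) (En := eng) (mo := mog) (C1 := cd1q2b) (C2 := cd0q2) (C3 := pd0)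
    rfl k0_pp_202_b

noncomputable def f_pm_001 : ℕ → ℕ → ℕ → ℕ → Bool := onCell 0 536870912 0 536870912 858993459 64424510
    (rowB 3 eng mog cd1q0 cd0q1 pd0 1 false true false .up 0 0 1 (qsf 0 536870912 536870912 536870912 0) ndB1q0 ndB0q1 pcB0 Cut.none Ext.none)

def k0_pm_001 : ∃ t, chk3 f_pm_001 t 1 1 1 = true :=
  ⟨(a (l 4) (b (l 4) (b (l 4) (a (l 4) (a (l 4) (b (b (l 4) (a (l 4) (b (l 4) (l 16398288)))) (b (a (l 4) (c (l 16361088) (l 16363544))) (a (c (l 16394312) (l 16395376)) (c (l 16308392) (l 16319472)))))))))), by decide +kernel⟩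

theorem c_pm_001 : CertB 0 536870912 536870912 536870912 858993459 64424510 3 eng mog cd1q0 cd0q1 pd0 false true false .up 0 0 1
    ndB1q0 ndB0q1 pcB0 Cut.none Ext.none :=
  certB1 (fam := false) (s1 := true) (s2 := false) (a := 0) (b := 0) (c := 1) (cn := .up) (n1 := ndB1q0) (n2 := ndB0q1) (pc := pcB0) (cut := Cut.none) (xt := Ext.none) (P1 := 0) (W1 := 536870912) (P2 := 536870912) (W2 := 536870912) (P3 := 858993459) (W3 := 64424510) (N0 := 3) (En := eng) (mo := mog) (C1 := cd1q0) (C2 := cd0q1) (C3 := pd0)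
    rfl (fun _ => rfl) k0_pm_001

noncomputable def cut_pm_011 : Cut := Cut.of [[⟨0, 0, 0, 67108864⟩, ⟨1, 1, 0, 67108864⟩, ⟨2, 1, 0, 67108864⟩]]

noncomputable def f_pm_011 : ℕ → ℕ → ℕ → ℕ → Bool := onCell 0 536870912 536870912 536870912 858993459 64424510
    (rowB 3 eng mog cd1q0 cd0q1 pd1 0 false true false .pnn 0 1 1 (qsf 0 536870912 536870912 536870912 1) ndB1q0 ndB0q1 pcB1 cut_pm_011 Ext.none)

def k0_pm_011 : ∃ t, chk3 f_pm_011 t 1 1 1 = true :=
  ⟨(b (l 4) (b (l 4) (b (a (l 4) (a (l 4) (a (l 4) (b (l 1) (l 53921488407))))) (b (a (l 4) (a (a (l 4) (b (l 4) (l 16534992))) (a (b (l 16432048) (l 16406176)) (l 16351648)))) (a (b (a (l 4) (l 4)) (a (a (a (l 6) (l 4)) (a (l 4) (b (l 4) (a (l 4) (l 16649160))))) (a (b (l 4) (a (c (l 16624528) (l 16619648)) (l 16588144))) (a (c (l 16562944) (l 16563056)) (l 16530800))))) (a (a (b (a (l 16526160) (l 16493928)) (a (l 16497840) (l 16464216))) (a (b (l 16461256) (l 16430856)) (l 16412560))) (a (l 16362720) (l 16296664)))))))),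 by decide +kernel⟩

theorem c_pm_011 : CertB 0 536870912 536870912 536870912 858993459 64424510 3 eng mog cd1q0 cd0q1 pd1 false true false .pnn 0 1 1
    ndB1q0 ndB0q1 pcB1 cut_pm_011 Ext.none :=
  certB0 (fam := false) (s1 := true) (s2 := false) (a := 0) (b := 1) (c := 1) (cn := .pnn) (n1 := ndB1q0) (n2 := ndB0q1) (pc := pcB1) (cut := cut_pm_011) (xt := Ext.none) (P1 := 0) (W1 := 536870912) (P2 := 536870912) (W2 := 536870912) (P3 := 858993459) (W3 := 64424510) (N0 := 3) (En := eng) (mo := mog) (C1 := cd1q0) (C2 := cd0q1) (C3 := pd1)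
    rfl k0_pm_011

noncomputable def cut_pm_012 : Cut := Cut.of [[⟨0, 0, 0, 67108864⟩, ⟨1, 1, 0, 67108864⟩, ⟨2, 1, 0, 67108864⟩]]

noncomputable def f_pm_012 : ℕ → ℕ → ℕ → ℕ → Bool := onCell 536870912 536870912 0 536870912 858993459 64424510
    (rowB 3 eng mog cd1q0 cd0q2 pd1 2 false true false .pnp 0 1 2 (qsf 0 536870912 0 536870912 1) ndB1q0 ndB0q2 pcB1 cut_pm_012 Ext.none)

def k0_pm_012 : ∃ t, chk3 f_pm_012 t 2 1 1 = true :=
  ⟨(b (a (a (l 2) (a (l 2) (b (l 2) (b (l 2) (l 16338560))))) (b (c (a (b (c (l 16448352) (l 16633496)) (l 16332520)) (c (b (l 16472984) (l 16424496)) (l 16550176))) (a (b (c (l 16623624) (l 16475264)) (l 16583992)) (c (l 16597648) (l 16420320)))) (c (a (b (l 16444544) (l 16397664)) (b (l 16415392) (l 16334336))) (a (b (l 16560640) (l 16491848)) (b (l 16545752) (l 16451936)))))) (a (a (b (l 2) (b (l 16374296) (b (l 16290640) (l 16287344)))) (b (b (c (l 16374704) (l 16406416)) (b (l 16337008) (c (l 16337080) (l 16278584)))) (b (b (l 16306072)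 (l 16314920)) (b (l 16331032) (l 16350176))))) (b (b (a (c (l 16363992) (l 16391968)) (c (l 16353512) (l 16374464))) (a (b (l 16338808) (l 16320080)) (b (l 16318840) (l 16270312)))) (b (a (b (l 16322536) (l 16340112)) (b (a (l 16333616) (l 16341960)) (l 16364936))) (b (a (l 16370208) (b (l 16394512) (l 16420752))) (a (l 16410520) (l 16591760))))))), by decide +kernel⟩

def k1_pm_012 : ∃ t, chk3 f_pm_012 t 3 2 1 = true :=
  ⟨(a (b (a (c (b (l 16497616) (l 16435168)) (b (l 16526544) (l 16566976))) (c (b (l 16466568) (l 16403640)) (b (l 16567832) (l 16489680)))) (a (c (b (l 16302944) (l 16355456)) (b (l 16482328) (l 16407208))) (b (c (l 16316984) (l 16413528)) (c (l 16314296) (l 16275048))))) (b (a (c (b (l 16436560) (l 16246968)) (b (l 16480360) (l 16296744))) (b (a (l 16346352) (l 16377528)) (a (l 16279544) (c (l 16334616) (l 16291232))))) (a (a (b (l 16264272) (l 16320152)) (b (l 16281928) (l 16428536))) (b (a (l 16278560) (c (l 16297592) (l 16251576))) (a (a (l 16289456)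 (l 16280608)) (a (l 16271712) (l 16325712))))))), by decide +kernel⟩

def k2_pm_012 : ∃ t, chk3 f_pm_012 t 3 6 1 = true :=
  ⟨(a (b (a (c (l 16322496) (l 16332952)) (a (l 16314800) (l 16369336))) (a (b (l 16318880) (l 16281632)) (b (l 16254840) (a (l 16352080) (l 16356760))))) (a (b (a (l 16381640) (l 16435576)) (a (c (l 16342384) (l 16313344)) (b (l 16335104) (l 16385728)))) (b (a (a (l 16302720) (l 16297976)) (a (l 16335352) (b (l 16278488) (l 16302232)))) (a (b (l 16416920) (a (l 16367176) (l 16370568))) (b (a (l 16333464) (l 16337248)) (a (l 16355768) (b (l 16370496) (l 16396696)))))))), by decide +kernel⟩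

def k3_pm_012 : ∃ t, chk3 f_pm_012 t 6 7 1 = true :=
  ⟨(b (b (a (b (l 16353272) (a (l 16356168) (l 16367928))) (a (l 16374296) (l 16384944))) (b (a (a (l 16372744) (l 16322136)) (a (l 16355304) (l 16412344))) (a (l 16401104) (a (c (l 16442808) (l 16399440)) (b (l 16429024) (l 16318072)))))) (a (b (b (a (l 16418904) (l 16435024)) (l 16461280)) (a (l 16507056) (l 16534584))) (a (b (b (l 16346400) (l 16490320)) (l 16624680)) (b (b (c (l 16483160) (l 16451824)) (b (l 16495808) (l 16519592))) (b (l 16559152) (l 16614456)))))), by decide +kernel⟩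

def k4_pm_012 : ∃ t, chk3 f_pm_012 t 7 7 1 = true :=
  ⟨(b (a (a (b (l 16395088) (b (l 16427096) (a (l 16448064) (l 16457280)))) (b (l 16404656) (b (l 16441672) (l 16471880)))) (a (b (c (l 16413840) (l 16378920)) (a (l 16473632) (l 16518200))) (b (a (l 16431968) (c (l 16448000) (l 16413856))) (a (b (l 16480808) (l 16518704)) (b (a (l 16489936) (l 16475032)) (a (l 16529040) (l 6))))))) (a (b (b (b (a (a (l 16471768) (l 16480064)) (a (l 16490216) (l 16504264))) (a (a (l 16489584) (l 16498312)) (a (c (l 16528000) (l 16488056)) (a (l 16519672) (l 16527960))))) (b (a (a (l 16508568) (l 16517992)) (a (l 16529912) (a (l 16541440) (l 16549120)))) (a (a (l 16531952) (l 16540448)) (a (c (l 16563224) (l 16542136)) (c (l 16581448) (l 16555056)))))) (b (a (a (l 16573960) (l 16563632)) (b (a (l 16581560) (c (l 16603552) (l 16586672))) (a (l 16614104) (l 16627744)))) (a (b (l 16625360) (l 16718584)) (b (a (l 16647680) (l 16662344)) (a (l 16679192) (l 16737576)))))) (a (b (b (a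 (l 16529848) (l 16566536)) (b (a (a (l 16557312) (l 16566072)) (l 16578904)) (a (a (a (l 16578864) (l 16583032)) (a (l 16587088) (l 16591240))) (a (b (l 16592072) (l 16603904)) (l 16607056))))) (a (a (b (b (c (l 16615704) (l 16596192)) (l 16637592)) (b (l 16672872) (l 16708504))) (b (b (c (l 16625600) (l 16602776)) (b (l 16635704) (l 16652720))) (b (l 16679632) (l 6)))) (a (b (b (b (a (l 16614480) (l 16618728)) (l 16629776)) (l 6)) (l 6)) (l 6)))) (b (b (a (c (l 16575104) (l 16546320)) (l 6)) (l 6)) (l 6))))), by decide +kernel⟩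

theorem s5_pm_012 : ∃ t, chk3 f_pm_012 t 3 7 1 = true := ex3_a k3_pm_012 k4_pm_012

theorem s6_pm_012 : ∃ t, chk3 f_pm_012 t 3 3 1 = true := ex3_b k2_pm_012 s5_pm_012

theorem s7_pm_012 : ∃ t, chk3 f_pm_012 t 3 1 1 = true := ex3_b k1_pm_012 s6_pm_012

theorem s8_pm_012 : ∃ t, chk3 f_pm_012 t 1 1 1 = true := ex3_a k0_pm_012 s7_pm_012

theorem c_pm_012 : CertB 0 536870912 0 536870912 858993459 64424510 3 eng mog cd1q0 cd0q2 pd1 false true false .pnp 0 1 2
    ndB1q0 ndB0q2 pcB1 cut_pm_012 Ext.none :=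
  certB2 (fam := false) (s1 := true) (s2 := false) (a := 0) (b := 1) (c := 2) (cn := .pnp) (n1 := ndB1q0) (n2 := ndB0q2) (pc := pcB1) (cut := cut_pm_012) (xt := Ext.none) (P1 := 0) (W1 := 536870912) (P2 := 0) (W2 := 536870912) (P3 := 858993459) (W3 := 64424510) (N0 := 3) (En := eng) (mo := mog) (C1 := cd1q0) (C2 := cd0q2) (C3 := pd1)
    rfl (fun _ => rfl) s8_pm_012

noncomputable def cut_pm_022 : Cut := Cut.of [[⟨0, 0, 0, 67108864⟩, ⟨1, 1, 0, 67108864⟩, ⟨2, 1, 0, 67108864⟩]]

noncomputable def f_pm_022 : ℕ → ℕ → ℕ → ℕ → Bool := onCell 0 536870912 0 536870912 858993459 64424510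
    (rowB 3 eng mog cd1q0 cd0q2 pd2 0 false true false .pp 0 2 2 (qsf 0 536870912 0 536870912 2) ndB1q0 ndB0q2 pcB2 cut_pm_022 Ext.none)

def k0_pm_022 : ∃ t, chk3 f_pm_022 t 4 2 1 = true :=
  ⟨(c (b (a (b (a (a (c (l 16364792) (l 16316552)) (l 16361096)) (a (l 16381144) (l 16401224))) (a (a (b (l 16316920) (l 16308200)) (b (l 16381096) (l 16394976))) (b (l 16414448) (l 16430424)))) (a (b (l 16432032) (l 16467328)) (b (l 16471848) (l 16467712)))) (b (a (a (a (b (l 16277432) (a (l 16345144) (l 16400704))) (a (l 16324000) (l 16358024))) (a (l 16440280) (l 16465288))) (a (l 16480280) (l 16423480))) (a (b (a (a (c (l 16400960) (l 16372080)) (l 16394576)) (l 16477992)) (a (a (a (b (l 16412896) (l 16401544)) (l 16432968)) (l 16392696)) (l 16498984))) (a (l 16424392) (b (l 16397712) (l 16381528)))))) (b (a (a (b (a (b (a (l 16176288) (l 16234976)) (b (l 16133088) (l 16120160))) (l 16226496)) (c (a (b (l 16285744) (l 16302848)) (l 16327288)) (a (b (a (l 16220944) (l 16240712))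 (a (l 16241472) (l 16261768))) (l 16281592)))) (b (l 16193472) (a (l 16299008) (l 16376320)))) (a (b (l 16384096) (l 16426560)) (b (l 16444272) (l 16488368)))) (a (b (a (a (b (a (b (l 16262728) (l 16273304)) (l 16287176)) (a (b (l 16284208) (l 16295472)) (l 16330600))) (b (l 16336704) (l 16339080))) (a (l 16281760) (l 16423800))) (a (a (a (c (b (l 16372832) (b (l 16368912) (l 16381416))) (b (b (l 16309016) (l 16322448)) (b (l 16336400) (a (l 16345360) (l 16356808))))) (b (l 16291664) (b (l 16373896) (l 16387816)))) (b (l 16322024) (a (l 16401760) (l 16422448)))) (a (b (l 16424648) (l 16453008)) (l 16477960)))) (b (a (l 16476168) (l 16440136)) (a (l 16399712) (b (l 16398480) (l 16372592))))))), by decide +kernel⟩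

def k1_pm_022 : ∃ t, chk3 f_pm_022 t 8 12 1 = true :=
  ⟨(a (a (c (c (a (b (l 16434928) (b (l 16469000) (l 16483032))) (b (l 16465480) (l 16491584))) (b (b (l 16408776) (a (l 16433880) (l 16451568))) (a (b (l 16447960) (a (l 16458672) (l 16467976))) (l 16473888)))) (b (a (b (c (l 16394904) (a (l 16360808) (l 16372424))) (c (a (l 16404280) (l 16414592)) (a (c (l 16384128) (l 16370072)) (l 16388952)))) (b (l 16402656) (l 16397512))) (a (a (b (c (l 16419864) (c (l 16401024) (l 16387888))) (c (c (l 16442312) (l 16430880)) (c (l 16419032) (l 16406760)))) (b (l 16397672) (l 16415456))) (b (l 16414416) (l 16453464))))) (c (b (a (l 16471312) (l 16486896)) (a (l 16436616) (l 16515744))) (b (a (l 16432136) (l 16453448)) (b (l 16426520) (l 16424144))))) (c (a (b (l 16509608) (l 16539312)) (l 16520944)) (a (b (l 16484872) (l 16520944)) (l 16410832)))), by decide +kernel⟩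

def k2_pm_022 : ∃ t, chk3 f_pm_022 t 8 13 1 = true :=
  ⟨(b (a (a (c (a (b (c (l 16477512) (a (l 16475328) (l 16484824))) (b (c (l 16511000) (l 16493552)) (a (l 16486056) (l 16516080)))) (b (l 16506960) (c (l 16531920) (l 16517472)))) (a (b (c (a (c (l 16460024) (l 16449336)) (l 16465624)) (a (b (l 16427520) (l 16437648)) (l 16444944))) (c (a (b (l 16469144) (l 16479232)) (l 16485272)) (a (b (l 16448120) (l 16458960)) (l 16466096)))) (b (c (l 16481848) (l 16463400)) (a (l 16466632) (l 16499280))))) (b (c (l 16493160) (l 16423024)) (a (c (l 16542264) (l 16516632)) (l 16507824)))) (c (a (l 16570208) (l 16520304)) (a (l 16540816) (l 16525040)))) (a (a (c (a (b (b (c (l 16528912) (l 16491816)) (c (l 16517288) (l 16504552))) (a (c (b (l 16543536) (l 16553416)) (b (l 16528344) (l 16539136))) (c (l 16557152) (l 16543776)))) (b (c (l 16550440) (l 16537392)) (c (l 16569992) (l 16558672)))) (a (a (b (b (c (l 16489720) (l 16470264)) (c (l 16500640) (l 16482104))) (a (b (c (l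 16509112) (l 16491208)) (c (l 16520880) (l 16504056))) (b (l 16506416) (l 16497800)))) (b (c (l 16506464) (l 16488944)) (c (l 16508376) (l 16492888)))) (b (c (l 16523248) (l 16507992)) (c (l 16546408) (l 16533192))))) (a (c (b (l 16561776) (l 16582464)) (b (l 16539272) (l 16521832))) (c (l 16589384) (l 16532648)))) (a (a (b (l 16590616) (l 16594136)) (c (l 16561240) (l 16566960))) (c (l 16519408) (l 16479328))))), by decide +kernel⟩

def k3_pm_022 : ∃ t, chk3 f_pm_022 t 8 7 1 = true :=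
  ⟨(b (b (b (a (b (a (a (a (a (c (c (l 16561496) (l 16547848)) (c (l 16533192) (l 16517528))) (c (l 16559568) (l 16514008))) (c (l 16545712) (l 16530496))) (c (l 16538760) (l 16517424))) (c (l 16586888) (l 16532440))) (c (a (a (a (a (c (l 16572288) (l 16559664)) (l 16555832)) (l 16567592)) (l 16550264)) (l 16577616)) (a (a (a (b (c (l 16545768) (l 16531376)) (c (l 16552384) (l 16538608))) (l 16544136)) (l 16531200)) (l 16546448)))) (a (c (l 16577824) (l 16579224)) (c (l 16518144) (l 16507152)))) (a (b (a (b (a (a (c (c (l 16582952) (l 16571472)) (c (l 16569640) (l 16556488))) (c (l 16586944) (l 16565232))) (c (l 16601160) (l 16583848))) (l 6)) (c (l 16589824) (l 16561048))) (l 6)) (a (c (l 16579104) (l 16575136)) (c (l 16516544) (l 16457984))))) (a (l 6) (a (l 6) (a (l 6) (a (l 6) (l 1)))))) (a (l 6) (a (l 6) (l 1)))), by decide +kernel⟩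

def k4_pm_022 : ∃ t, chk3 f_pm_022 t 9 3 1 = true :=
  ⟨(a (a (b (c (b (l 16476448) (b (l 16467824) (b (l 16462888) (l 16459576)))) (b (l 16481384) (b (l 16461272) (b (l 16450224) (l 16442064))))) (b (b (c (b (l 16455888) (l 16430440)) (b (l 16432968) (l 16422696))) (l 1)) (l 1))) (b (b (b (l 16391352) (l 16335456)) (b (c (l 16412968) (l 16395544)) (c (l 16401000) (l 16395816)))) (l 1))) (b (a (b (c (l 16255280) (l 16259576)) (b (c (l 16356456) (l 16327632)) (l 1))) (b (b (l 16329400) (l 1)) (l 1))) (l 1))), by decide +kernel⟩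

def k5_pm_022 : ∃ t, chk3 f_pm_022 t 5 1 1 = true :=
  ⟨(b (a (a (a (b (b (l 16489472) (l 16447968)) (b (b (l 16396000) (l 16365456)) (b (l 16336552) (l 16308192)))) (b (b (l 16506184) (l 16424984)) (b (l 16201672) (l 1)))) (b (b (l 1) (l 1)) (l 1))) (l 1)) (b (l 1) (l 1))), by decide +kernel⟩

def k6_pm_022 : ∃ t, chk3 f_pm_022 t 3 1 1 = true :=
  ⟨(l 1), by decide +kernel⟩

theorem s7_pm_022 : ∃ t, chk3 f_pm_022 t 8 6 1 = true := ex3_b k1_pm_022 k2_pm_022

theorem s8_pm_022 : ∃ t, chk3 f_pm_022 t 8 3 1 = true := ex3_b s7_pm_022 k3_pm_022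

theorem s9_pm_022 : ∃ t, chk3 f_pm_022 t 4 3 1 = true := ex3_a s8_pm_022 k4_pm_022

theorem s10_pm_022 : ∃ t, chk3 f_pm_022 t 4 1 1 = true := ex3_b k0_pm_022 s9_pm_022

theorem s11_pm_022 : ∃ t, chk3 f_pm_022 t 2 1 1 = true := ex3_a s10_pm_022 k5_pm_022

theorem s12_pm_022 : ∃ t, chk3 f_pm_022 t 1 1 1 = true := ex3_a s11_pm_022 k6_pm_022

theorem c_pm_022 : CertB 0 536870912 0 536870912 858993459 64424510 3 eng mog cd1q0 cd0q2 pd2 false true false .pp 0 2 2
    ndB1q0 ndB0q2 pcB2 cut_pm_022 Ext.none :=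
  certB0 (fam := false) (s1 := true) (s2 := false) (a := 0) (b := 2) (c := 2) (cn := .pp) (n1 := ndB1q0) (n2 := ndB0q2) (pc := pcB2) (cut := cut_pm_022) (xt := Ext.none) (P1 := 0) (W1 := 536870912) (P2 := 0) (W2 := 536870912) (P3 := 858993459) (W3 := 64424510) (N0 := 3) (En := eng) (mo := mog) (C1 := cd1q0) (C2 := cd0q2) (C3 := pd2)
    rfl s12_pm_022

noncomputable def f_pm_101 : ℕ → ℕ → ℕ → ℕ → Bool := onCell 0 536870912 536870912 536870912 858993459 64424510
    (rowB 3 eng mog cd1q1 cd0q1 pd0 2 false true false .npn 1 0 1 (qsf 536870912 536870912 536870912 536870912 0) ndB1q1 ndB0q1 pcB0 Cut.none Ext.none)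

def k0_pm_101 : ∃ t, chk3 f_pm_101 t 1 2 1 = true :=
  ⟨(l 4), by decide +kernel⟩

def k1_pm_101 : ∃ t, chk3 f_pm_101 t 4 3 1 = true :=
  ⟨(b (a (a (b (a (b (l 4) (c (l 15929440) (l 16131016))) (l 4)) (b (c (c (l 15832448) (l 15902496)) (l 15839192)) (c (l 15867304) (l 15953688)))) (b (l 4) (c (b (c (l 15842672) (l 15935240)) (l 15886472)) (b (l 15909976) (l 16004088))))) (b (l 4) (b (b (l 4) (a (c (l 15890248) (l 16131424)) (c (l 15949336) (l 16198600)))) (c (a (c (l 15797168) (l 15889024)) (l 15894064)) (a (l 16052824) (l 16102920)))))) (b (a (c (b (a (l 15855048) (l 15835240)) (a (l 15909408) (l 15911896))) (b (a (l 15904232) (l 15938264)) (a (l 16068568) (l 15893952)))) (b (c (a (l 15813848) (l 15816560)) (a (l 15971528) (l 16004984))) (c (a (l 15912128) (l 16008608)) (a (l 15907912) (l 15922688))))) (a (a (b (b (c (l 15927032) (l 15875112)) (c (l 15960472) (l 15878872))) (b (a (b (l 15947696) (l 15962624)) (l 15929448)) (c (l 16083408) (a (l 15908496) (l 15882120)))))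 (b (c (l 16009976) (b (l 15872488) (l 15862976))) (b (c (l 15921216) (l 15855712)) (c (l 15951384) (l 15849232))))) (b (c (a (l 16029464) (c (l 15788040) (l 15805952))) (a (l 15859016) (l 15850584))) (c (a (b (l 15837984) (l 15871160)) (c (l 15848920) (l 15848712))) (a (b (l 15824928) (l 15836704)) (l 15850184))))))), by decide +kernel⟩

def k2_pm_101 : ∃ t, chk3 f_pm_101 t 5 3 1 = true :=
  ⟨(b (b (l 4) (b (l 4) (a (a (c (c (l 15886856) (l 16007856)) (l 16171576)) (c (b (l 4) (l 15976344)) (l 16176208))) (a (a (c (l 16031936) (l 16307120)) (l 4)) (l 4))))) (b (a (c (b (a (l 15891056) (l 15934480)) (a (l 15832528) (l 15891664))) (b (a (l 16048032) (l 16121248)) (a (l 15953416) (l 16030648)))) (c (b (a (c (l 15911752) (l 16039016)) (c (l 15943960) (l 16085360))) (a (l 15925400) (c (l 15898472) (l 16017152)))) (b (a (l 16198904) (l 16245800)) (a (l 16090416) (l 16158384))))) (a (c (b (a (c (l 15817864) (l 15859200)) (c (l 15833920) (l 15894800))) (a (c (l 15845176)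 (l 15862632)) (c (l 15839344) (l 15874488)))) (b (a (l 15905712) (l 15969592)) (a (l 15889136) (l 15925080)))) (c (b (a (l 15865920) (c (l 15862408) (l 15957536))) (a (c (l 15836368) (l 15888672)) (c (l 15837256) (l 15906056)))) (b (a (l 16022960) (l 16070592)) (a (l 15961368) (l 15998536))))))), by decide +kernel⟩

def k3_pm_101 : ∃ t, chk3 f_pm_101 t 3 3 1 = true :=
  ⟨(b (l 4) (b (b (a (a (c (a (c (l 15975096) (l 16129216)) (c (l 16046008) (l 16169584))) (c (l 16218312) (l 16355440))) (a (c (c (l 16113488) (l 16205328)) (l 16266432)) (l 4))) (l 4)) (a (c (a (c (a (l 15922232) (l 15945424)) (l 16073816)) (c (a (l 15967536) (l 16197808)) (a (l 16127272) (l 16158960)))) (a (c (l 16194928) (l 16259864)) (c (l 16281288) (l 16287640)))) (a (a (c (c (c (l 15962488) (l 16050680)) (l 16186448)) (l 16117680)) (c (c (b (l 4) (l 16005440)) (l 16208488)) (l 29761341079))) (a (a (c (c (l 163778043575) (l 16221160)) (l 16329064)) (l 1)) (l 1))))) (a (c (a (b (c (a (l 15878216)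 (l 15895248)) (l 16004144)) (c (a (l 15842088) (l 15850616)) (a (l 15926600) (l 15949912)))) (c (b (a (l 15912936) (l 15930864)) (a (l 15862296) (l 15876704))) (b (l 16066032) (l 15988400)))) (a (b (c (l 16110848) (l 16164208)) (c (l 16024896) (l 16067448))) (b (c (l 16194280) (l 16204248)) (c (l 16099296) (l 16116488))))) (c (a (a (c (b (l 15948376) (l 15893280)) (b (l 16109864) (l 16030392))) (c (b (c (l 15922960) (l 16006504)) (l 15974136)) (c (l 16035872) (l 16136568)))) (c (b (a (c (l 15934592) (l 16021664)) (b (l 1) (l 15976864))) (a (c (l 15891968) (l 15968016)) (c (l 15908424) (l 15987712)))) (b (a (l 16072712) (l 15962592)) (a (l 16085392) (l 16110496))))) (a (b (c (l 16272008) (l 16225688)) (c (l 16175336) (l 16142152))) (b (a (l 118143685655) (c (l 16350960) (l 16266184))) (c (l 16248208) (l 82173690455)))))))), by decide +kernel⟩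

theorem s4_pm_101 : ∃ t, chk3 f_pm_101 t 2 3 1 = true := ex3_a k1_pm_101 k2_pm_101

theorem s5_pm_101 : ∃ t, chk3 f_pm_101 t 1 3 1 = true := ex3_a s4_pm_101 k3_pm_101

theorem s6_pm_101 : ∃ t, chk3 f_pm_101 t 1 1 1 = true := ex3_b k0_pm_101 s5_pm_101

theorem c_pm_101 : CertB 536870912 536870912 536870912 536870912 858993459 64424510 3 eng mog cd1q1 cd0q1 pd0 false true false .npn 1 0 1
    ndB1q1 ndB0q1 pcB0 Cut.none Ext.none :=
  certB2 (fam := false) (s1 := true) (s2 := false) (a := 1) (b := 0) (c := 1) (cn := .npn) (n1 := ndB1q1) (n2 := ndB0q1) (pc := pcB0) (cut := Cut.none) (xt := Ext.none) (P1 := 536870912) (W1 := 536870912) (P2 := 536870912) (W2 := 536870912) (P3 := 858993459) (W3 := 64424510) (N0 := 3) (En := eng) (mo := mog) (C1 := cd1q1) (C2 := cd0q1) (C3 := pd0)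
    rfl (fun _ => rfl) s6_pm_101

noncomputable def f_pm_102 : ℕ → ℕ → ℕ → ℕ → Bool := onCell 0 536870912 0 536870912 858993459 64424510
    (rowB 3 eng mog cd1q1 cd0q2 pd0 2 false true false .npp 1 0 2 (qsf 536870912 536870912 0 536870912 0) ndB1q1 ndB0q2 pcB0 Cut.none Ext.none)

def k0_pm_102 : ∃ t, chk3 f_pm_102 t 4 2 1 = true :=
  ⟨(b (l 2) (a (l 2) (a (l 2) (b (l 2) (a (l 2) (b (l 2) (l 16410168))))))), by decide +kernel⟩

def k1_pm_102 : ∃ t, chk3 f_pm_102 t 10 2 1 = true :=
  ⟨(a (a (b (l 2) (a (b (l 2) (l 178877940375)) (b (b (l 1881295507335) (b (l 16380048) (l 16562768))) (l 16528600)))) (b (b (l 3) (b (c (b (l 3) (a (l 2) (c (a (l 155859771591) (l 166597178039)) (l 162302204727)))) (c (l 145659184311) (l 160154724151))) (c (b (a (b (l 2) (l 16467064)) (c (l 435502413335) (l 16504744))) (a (l 16469608) (l 16498952))) (c (l 198205428615) (l 16550744))))) (c (b (b (a (l 16497848) (l 16506456)) (l 16420160)) (l 16566480)) (b (b (l 16479408) (l 16580856)) (l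 16524056))))) (b (b (a (l 3) (a (l 3) (c (l 221894936295) (l 178408428519)))) (b (c (b (a (a (l 3) (l 215989323735)) (a (l 148343593863) (l 16524408))) (c (a (a (l 170892186935) (l 16505216)) (l 16518816)) (a (l 151564768055) (l 16524520)))) (a (a (l 153712245799) (l 153175391559)) (c (l 16510040) (l 16539376)))) (a (c (b (a (l 16482936) (l 16511864)) (l 16511128)) (l 16474936)) (c (l 16503896) (l 16538440))))) (b (b (a (b (l 16464400) (l 16410000)) (b (l 16515008) (l 16552640))) (a (l 16585648) (l 16608352))) (a (l 16542496) (l 16540768))))), by decide +kernel⟩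

def k2_pm_102 : ∃ t, chk3 f_pm_102 t 11 2 1 = true :=
  ⟨(b (b (a (b (a (l 3) (c (l 183777163399) (l 169281602519))) (a (c (b (l 189682667191) (l 146196111559)) (l 152101693687)) (c (b (l 146732993943) (l 16525984)) (c (l 16557704) (l 16528752))))) (c (b (a (l 149417421671) (l 144048691975)) (a (l 16558592) (l 16569976))) (b (a (l 155859840999) (l 152638625847)) (a (l 16512368) (l 16533920))))) (b (a (a (c (b (l 16513768) (l 16535632)) (l 16514464)) (c (l 16527232) (l 16536104))) (c (l 16566832) (l 16537184))) (a (a (l 16518120) (l 16546928)) (b (l 16556928) (a (l 16557040) (l 16570176)))))) (b (b (a (a (b (l 16546816) (l 16573184)) (l 16578056)) (c (l 16611328) (l 16590248))) (a (l 16462104) (c (l 16562864) (l 16640840)))) (a (c (l 16520840) (l 16565416)) (c (l 16468088) (l 16576640))))), by decide +kernel⟩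

def k3_pm_102 : ∃ t, chk3 f_pm_102 t 4 3 1 = true :=
  ⟨(b (a (l 2) (a (b (l 2) (b (a (l 2) (c (l 16519088) (l 16419176))) (c (a (l 16482720) (l 16429088)) (a (l 16358912) (l 16326736))))) (b (a (b (l 16520112) (l 16476136)) (a (l 16359368) (a (l 16447904) (l 16444536)))) (a (b (b (l 16438368) (l 16396968)) (l 16337976)) (b (a (l 16381704) (b (l 16378616) (l 16342888))) (a (l 16307192) (l 16291024))))))) (a (a (b (l 2) (b (a (l 2) (c (l 16252376) (b (l 16101240) (l 16055864)))) (b (c (a (l 16198112) (l 16174328)) (a (l 16012648) (l 16009928))) (c (l 16122688) (l 15958768))))) (a (b (b (l 2) (b (l 2) (l 16229584))) (b (c (l 16231072) (l 16078872)) (b (c (l 16147288) (l 16005312)) (l 15998008)))) (b (b (c (l 16415120) (l 16270800)) (c (l 16314344) (l 16175888))) (b (c (l 16208128) (l 16077456)) (c (l 16073760) (l 16030504)))))) (a (b (b (c (l 16279712) (l 16252512)) (a (l 16230560) (c (l 16250136) (l 16154696)))) (b (c (a (l 16178240) (l 16141720)) (a (l 16069664)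 (l 16055104))) (c (b (l 16062064) (l 15973768)) (b (l 15980712) (l 15911960))))) (b (a (b (l 16321864) (l 16322512)) (b (a (l 16233632) (l 16219784)) (c (l 16175136) (l 16123352)))) (b (a (c (l 16106680) (l 16041648)) (b (l 16080800) (l 16257920))) (c (l 16094240) (l 15936568))))))), by decide +kernel⟩

def k4_pm_102 : ∃ t, chk3 f_pm_102 t 5 3 1 = true :=
  ⟨(a (b (a (b (a (b (l 16470232) (l 16418848)) (b (l 16468280) (l 16418960))) (a (b (c (l 16378632) (l 16344856)) (c (l 16307800) (l 16271264))) (b (c (l 16368296) (l 16358064)) (c (l 16294592) (l 16281192))))) (a (b (l 16256296) (b (c (l 16358680) (l 16372928)) (l 16264568))) (b (l 16258344) (b (c (l 16349248) (l 16388744)) (l 16284088))))) (b (a (a (b (c (l 16233056) (l 16198096)) (c (l 16149984) (l 16119600))) (b (c (l 16215952) (l 16203296)) (c (l 16128848) (l 16119248)))) (c (b (a (l 16199168) (l 16182848)) (a (l 16108808) (l 16090072))) (a (l 16061048) (l 16084552)))) (a (b (c (a (l 16048832) (l 16026200))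 (b (l 16051160) (l 16084136))) (c (l 15932568) (l 15936720))) (b (c (b (l 16025072) (l 15975032)) (b (l 16045272) (l 15997824))) (c (l 15907928) (l 15946008)))))) (b (b (a (a (l 16240072) (a (l 16409656) (l 16348232))) (c (a (l 16397560) (l 16367472)) (l 16446040))) (a (c (b (a (l 16339664) (l 16329704)) (l 16460720)) (b (a (l 16404880) (l 16420784)) (l 16320536))) (b (c (a (l 16309208) (l 16275048)) (a (l 16418720) (l 16392640))) (c (l 16061056) (l 16310104))))) (b (a (c (b (l 16349288) (l 16295984)) (b (l 16222656) (l 16121768))) (c (b (a (l 16132744) (l 16107496)) (a (l 16039984) (l 16021256))) (b (l 16213072) (l 16117120)))) (a (b (c (b (l 15990600) (l 15946184)) (b (l 16044264) (l 16002456))) (c (l 15892272) (l 15962560))) (b (c (b (l 15961888) (l 15925408)) (b (l 16045840) (l 16013328))) (c (l 15884216) (l 15984896))))))), by decide +kernel⟩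

def k5_pm_102 : ∃ t, chk3 f_pm_102 t 3 2 2 = true :=
  ⟨(a (b (a (b (a (b (a (l 16515800) (l 16588632)) (l 16544312)) (a (l 16495008) (l 16556464))) (a (b (l 16590112) (a (l 16599696) (l 16616920))) (b (l 16613256) (l 16499312)))) (b (a (l 16387728) (l 16514424)) (a (b (l 16442800) (l 16580712)) (b (c (l 16550880) (l 16650592)) (l 16557560))))) (a (b (a (l 16493104) (l 16525488)) (a (c (l 16419720) (l 16474184)) (l 16151832))) (b (a (l 16369160) (c (l 16414584) (l 16517256))) (a (c (l 16322568) (l 16403584)) (c (l 16278272) (l 16370096)))))) (c (b (a (b (a (l 16537304) (b (l 16528264) (l 16537056))) (a (l 16503200) (l 16473488))) (b (b (a (l 16527248) (l 16526608)) (a (l 16526360) (l 16509800))) (a (l 16446352) (l 16421656)))) (a (b (a (l 16378704) (l 16345776)) (a (l 16238648) (l 16204696))) (b (a (l 16316832) (l 16292688)) (a (l 16177136) (l 16156472))))) (b (a (b (a (l 16642408) (l 16661040)) (a (l 16629704) (l 16615592))) (b (a (l 16615824) (l 16687600)) (l 16594016)))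 (a (b (a (l 16494272) (l 16472120)) (l 16075112)) (b (l 16212744) (l 16097392)))))), by decide +kernel⟩

def k6_pm_102 : ∃ t, chk3 f_pm_102 t 3 3 2 = true :=
  ⟨(b (a (b (a (a (l 16134712) (l 16036656)) (a (b (l 16253208) (l 16178536)) (c (l 16132240) (l 16213760)))) (a (b (a (l 16119352) (l 16370648)) (a (l 16149032) (l 16097192))) (b (a (b (l 16121712) (l 16090920)) (c (l 16020720) (l 16096440))) (a (l 16052312) (l 16014464))))) (b (a (a (c (l 16091736) (l 16180352)) (c (l 16059392) (l 16154640))) (c (a (l 16035504) (l 16020232)) (a (l 16136872) (l 16127168)))) (a (b (a (c (l 15980192) (l 16061600)) (c (l 15950088) (l 16037016))) (a (l 15983552) (l 16001336))) (b (a (l 16101712) (l 15989208)) (a (c (l 15897824) (l 15991856)) (c (l 15886760) (l 15984336))))))) (c (a (b (a (b (l 16130224) (l 16123840)) (a (l 15943832) (l 15922480))) (a (b (a (l 15899920) (l 15884200)) (l 16016568)) (b (a (l 15875936) (l 15874736)) (a (l 15850712) (l 15858520))))) (a (b (a (l 15908896)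 (l 15902880)) (b (a (l 15880232) (l 15892064)) (a (l 15870944) (l 15887360)))) (a (b (l 15967128) (b (l 15909872) (l 15907168))) (b (b (l 15902232) (l 15922664)) (b (l 15933304) (l 15929784)))))) (a (b (a (a (l 16104864) (l 16036800)) (a (l 16018320) (l 16007112))) (a (b (a (l 15954136) (l 15952664)) (l 15921120)) (b (a (l 15957840) (l 15969088)) (l 15996016)))) (b (a (a (l 16002792) (l 16005032)) (a (l 16034472) (l 16006888))) (a (b (a (l 15985912) (l 16007840)) (l 16001760)) (b (a (l 16034392) (l 16065144)) (l 15870072))))))), by decide +kernel⟩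

def k7_pm_102 : ∃ t, chk3 f_pm_102 t 3 1 3 = true :=
  ⟨(b (a (b (a (b (a (c (b (l 16525600) (l 16550344)) (l 16512520)) (a (l 16534384) (l 16535688))) (a (b (l 16539160) (a (l 16552856) (l 16561840))) (b (l 16544552) (l 16583776)))) (b (a (l 16496136) (l 16541536)) (b (a (l 16513528) (b (l 16555432) (l 16590056))) (a (l 16623872) (l 16666152))))) (a (b (a (l 16546304) (l 16617632)) (a (l 16568032) (l 16556592))) (b (a (l 16687880) (l 16691624)) (a (l 16541040) (l 16458992))))) (b (a (b (a (c (l 16589288) (l 16497616)) (b (l 16541640) (l 16452464))) (a (b (l 16581008) (l 16708832)) (l 16522480))) (b (a (b (l 16536504) (l 16375048)) (b (l 16420136) (l 16413256))) (c (l 16761784) (l 16431704)))) (a (b (c (l 16615112) (l 16678064)) (c (l 16333920) (l 16507432))) (b (c (l 16585752) (l 16569000)) (c (l 16409568) (l 16475216)))))) (b (a (b (a (a (l 16345960) (l 16350064)) (a (l 16356136) (l 16325120))) (a (b (a (l 16351784) (l 16300216)) (a (l 16268336) (l 16232192)))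 (b (a (l 16255504) (l 16219640)) (a (l 16202480) (l 16179192))))) (b (a (a (l 16300744) (l 16283808)) (c (l 16241120) (l 16339328))) (a (b (a (l 16193560) (l 16177736)) (a (l 16161840) (l 16149768))) (b (a (l 16172320) (l 16175048)) (a (l 16144336) (l 15996608)))))) (a (b (a (a (b (l 16187096) (l 16108968)) (b (l 16168440) (l 16108416))) (a (l 15884552) (l 16014232))) (a (b (a (l 16041608) (l 16060240)) (c (l 15994368) (l 16048416))) (b (a (l 16083920) (l 16111896)) (c (l 16052816) (l 16103648))))) (b (a (a (l 15898064) (c (l 16112608) (l 16209656))) (c (a (l 16128488) (l 16149024)) (a (l 16232424) (l 16259048)))) (a (b (c (l 16109672) (l 16188480)) (c (l 16121480) (l 16133680))) (b (c (l 16178464) (l 16210264)) (c (l 16195296) (l 16152600)))))))), by decide +kernel⟩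

theorem s8_pm_102 : ∃ t, chk3 f_pm_102 t 3 1 2 = true := ex3_b k5_pm_102 k6_pm_102

theorem s9_pm_102 : ∃ t, chk3 f_pm_102 t 3 1 1 = true := ex3_c s8_pm_102 k7_pm_102

theorem s10_pm_102 : ∃ t, chk3 f_pm_102 t 2 3 1 = true := ex3_a k3_pm_102 k4_pm_102

theorem s11_pm_102 : ∃ t, chk3 f_pm_102 t 5 2 1 = true := ex3_a k1_pm_102 k2_pm_102

theorem s12_pm_102 : ∃ t, chk3 f_pm_102 t 2 2 1 = true := ex3_a k0_pm_102 s11_pm_102

theorem s13_pm_102 : ∃ t, chk3 f_pm_102 t 2 1 1 = true := ex3_b s12_pm_102 s10_pm_102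

theorem s14_pm_102 : ∃ t, chk3 f_pm_102 t 1 1 1 = true := ex3_a s13_pm_102 s9_pm_102

theorem c_pm_102 : CertB 536870912 536870912 0 536870912 858993459 64424510 3 eng mog cd1q1 cd0q2 pd0 false true false .npp 1 0 2
    ndB1q1 ndB0q2 pcB0 Cut.none Ext.none :=
  certB2 (fam := false) (s1 := true) (s2 := false) (a := 1) (b := 0) (c := 2) (cn := .npp) (n1 := ndB1q1) (n2 := ndB0q2) (pc := pcB0) (cut := Cut.none) (xt := Ext.none) (P1 := 536870912) (W1 := 536870912) (P2 := 0) (W2 := 536870912) (P3 := 858993459) (W3 := 64424510) (N0 := 3) (En := eng) (mo := mog) (C1 := cd1q1) (C2 := cd0q2) (C3 := pd0)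
    rfl (fun _ => rfl) s14_pm_102

noncomputable def f_pm_112 : ℕ → ℕ → ℕ → ℕ → Bool := onCell 536870912 536870912 0 536870912 858993459 64424510
    (rowB 3 eng mog cd1q1 cd0q2 pd1 2 false true false .dn 1 1 2 (qsf 536870912 536870912 0 536870912 1) ndB1q1 ndB0q2 pcB1 Cut.none Ext.none)

def k0_pm_112 : ∃ t, chk3 f_pm_112 t 2 2 1 = true :=
  ⟨(a (b (c (a (c (b (b (c (a (b (c (l 15980480) (l 16070528)) (c (a (l 15958872) (l 15956240)) (l 16050328))) (b (a (l 16012560) (l 16007600)) (l 15999632))) (a (b (l 16210368) (l 16192616)) (l 16197496))) (c (c (l 15950528) (l 16038824)) (l 16175992))) (c (c (l 15943416) (l 16023512)) (l 16147936))) (b (a (c (l 16301376) (l 16588736)) (c (l 16384136) (l 16590256))) (c (l 16321672) (l 16482800)))) (c (b (a (c (b (c (l 15954568) (l 16046880)) (l 15987696)) (l 16179768)) (c (l 15985800) (l 16166800))) (c (c (l 15928176) (l 16007224)) (l 16129888))) (c (b (l 16179232) (l 16300728)) (b (l 16570224) (l 16457400))))) (a (b (b (c (c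 (l 16722688) (l 16397432)) (a (c (l 16278416) (l 16039904)) (l 15861520))) (c (l 16472912) (a (l 16192144) (l 16198384)))) (c (l 16561304) (a (l 16255288) (l 16286632)))) (c (b (a (l 16453824) (l 16641416)) (l 16637136)) (b (a (b (l 16042424) (l 16230560)) (l 16159336)) (a (l 16320592) (l 16318936)))))) (b (c (c (a (c (l 15968960) (l 16111160)) (c (l 15947704) (l 16089328))) (a (c (l 16260560) (l 16415688)) (c (l 16237688) (l 16390792)))) (a (c (l 16619520) (c (l 16479600) (l 16325568))) (c (l 16503864) (a (l 16365064) (l 16352384))))) (c (c (a (c (l 15956480) (l 16075960)) (c (l 15931472) (l 16052224))) (a (l 16076112) (l 16012072))) (a (c (l 16488552) (l 16352288)) (c (l 16470888) (l 16352968)))))) (a (a (c (b (c (b (c (l 15974872) (l 16150256)) (c (l 15946040) (l 16102568))) (c (l 16301272) (l 16482800))) (c (b (c (l 15921680) (l 16059096)) (l 15960752)) (b (l 16276808) (l 16207640)))) (b (c (l 16486048) (b (l 16256528) (l 16325504))) (c (l 16281424) (b (l 16351768)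 (l 16353752))))) (b (b (l 1) (l 1)) (l 1))) (l 1))), by decide +kernel⟩

def k1_pm_112 : ∃ t, chk3 f_pm_112 t 2 3 1 = true :=
  ⟨(a (a (b (c (b (c (c (l 15948040) (l 16044800)) (l 16175880)) (c (b (l 15984504) (l 16037624)) (b (l 16150280) (l 16168152)))) (b (c (l 16395808) (l 16348448)) (b (l 16189720) (c (l 16279168) (l 16293248))))) (c (b (c (b (l 15952856) (l 16015744)) (l 15920584)) (c (b (a (l 15922528) (l 15921640)) (c (l 15883712) (l 15971888))) (b (l 16103800) (l 16045720)))) (b (c (l 16275456) (l 16241800)) (c (l 16218728) (b (l 16181080) (l 16140592)))))) (b (c (b (c (c (l 15920376) (l 16020560)) (l 16031440)) (b (c (l 15958384) (l 16135376)) (c (l 109554029367) (l 16089552)))) (b (c (l 16388728) (l 16333008)) (b (l 34392010007) (c (l 16276520) (l 16321608))))) (a (b (c (c (l 229276109415) (l 16101544)) (l 170757156407)) (l 1)) (l 1)))) (b (l 1) (l 1))), by decide +kernel⟩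

def k2_pm_112 : ∃ t, chk3 f_pm_112 t 3 1 1 = true :=
  ⟨(l 1), by decide +kernel⟩

theorem s3_pm_112 : ∃ t, chk3 f_pm_112 t 2 1 1 = true := ex3_b k0_pm_112 k1_pm_112

theorem s4_pm_112 : ∃ t, chk3 f_pm_112 t 1 1 1 = true := ex3_a s3_pm_112 k2_pm_112

theorem c_pm_112 : CertB 536870912 536870912 0 536870912 858993459 64424510 3 eng mog cd1q1 cd0q2 pd1 false true false .dn 1 1 2
    ndB1q1 ndB0q2 pcB1 Cut.none Ext.none :=
  certB2 (fam := false) (s1 := true) (s2 := false) (a := 1) (b := 1) (c := 2) (cn := .dn) (n1 := ndB1q1) (n2 := ndB0q2) (pc := pcB1) (cut := Cut.none) (xt := Ext.none) (P1 := 536870912) (W1 := 536870912) (P2 := 0) (W2 := 536870912) (P3 := 858993459) (W3 := 64424510) (N0 := 3) (En := eng) (mo := mog) (C1 := cd1q1) (C2 := cd0q2) (C3 := pd1)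
    rfl (fun _ => rfl) s4_pm_112

noncomputable def cut_pm_202_a : Cut := Cut.of [[⟨0, 1, 0, 67108864⟩, ⟨1, 0, 0, 67108864⟩, ⟨2, 1, 0, 67108864⟩]]

noncomputable def f_pm_202_a : ℕ → ℕ → ℕ → ℕ → Bool := onCell 0 536870912 0 536870912 858993459 64424510
    (rowB 3 eng mog cd1q2a cd0q2 pd0 0 false true false .pp 2 0 2 (qsf 0 536870912 0 536870912 0) ndB1q2a ndB0q2 pcB0 cut_pm_202_a Ext.none)

def k0_pm_202_a : ∃ t, chk3 f_pm_202_a t 1 1 1 = true :=
  ⟨(a (l 3) (b (l 3) (a (l 3) (b (l 3) (b (l 3) (a (l 3) (l 6))))))), by decide +kernel⟩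

theorem c_pm_202_a : CertB 0 536870912 0 536870912 858993459 64424510 3 eng mog cd1q2a cd0q2 pd0 false true false .pp 2 0 2
    ndB1q2a ndB0q2 pcB0 cut_pm_202_a Ext.none :=
  certB0 (fam := false) (s1 := true) (s2 := false) (a := 2) (b := 0) (c := 2) (cn := .pp) (n1 := ndB1q2a) (n2 := ndB0q2) (pc := pcB0) (cut := cut_pm_202_a) (xt := Ext.none) (P1 := 0) (W1 := 536870912) (P2 := 0) (W2 := 536870912) (P3 := 858993459) (W3 := 64424510) (N0 := 3) (En := eng) (mo := mog) (C1 := cd1q2a) (C2 := cd0q2) (C3 := pd0)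
    rfl k0_pm_202_a

noncomputable def cut_pm_202_b : Cut := Cut.of [[⟨0, 1, 0, 67108864⟩, ⟨1, 0, 0, 67108864⟩, ⟨2, 1, 0, 67108864⟩]]

noncomputable def f_pm_202_b : ℕ → ℕ → ℕ → ℕ → Bool := onCell 1239849684 370763052 0 536870912 858993459 64424510
    (rowB 3 eng mog cd1q2b cd0q2 pd0 0 false true false .pp 2 0 2 (qsf 1239849684 370763052 0 536870912 0) ndB1q2b ndB0q2 pcB0 cut_pm_202_b Ext.none)

def k0_pm_202_b : ∃ t, chk3 f_pm_202_b t 1 1 1 = true :=
  ⟨(l 3), by decide +kernel⟩

theorem c_pm_202_b : CertB 1239849684 370763052 0 536870912 858993459 64424510 3 eng mog cd1q2b cd0q2 pd0 false true false .pp 2 0 2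
    ndB1q2b ndB0q2 pcB0 cut_pm_202_b Ext.none :=
  certB0 (fam := false) (s1 := true) (s2 := false) (a := 2) (b := 0) (c := 2) (cn := .pp) (n1 := ndB1q2b) (n2 := ndB0q2) (pc := pcB0) (cut := cut_pm_202_b) (xt := Ext.none) (P1 := 1239849684) (W1 := 370763052) (P2 := 0) (W2 := 536870912) (P3 := 858993459) (W3 := 64424510) (N0 := 3) (En := eng) (mo := mog) (C1 := cd1q2b) (C2 := cd0q2) (C3 := pd0)
    rfl k0_pm_202_b

noncomputable def f_mm_001 : ℕ → ℕ → ℕ → ℕ → Bool := onCell 0 536870912 536870912 536870912 858993459 64424510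
    (rowB 3 eng mog cd1q0 cd0q1 pd0 0 false false false .up 0 0 1 (qsf 0 536870912 536870912 536870912 0) ndB1q0 ndB0q1 pcB0 Cut.none Ext.none)

def k0_mm_001 : ∃ t, chk3 f_mm_001 t 1 1 1 = true :=
  ⟨(l 5), by decide +kernel⟩

theorem c_mm_001 : CertB 0 536870912 536870912 536870912 858993459 64424510 3 eng mog cd1q0 cd0q1 pd0 false false false .up 0 0 1
    ndB1q0 ndB0q1 pcB0 Cut.none Ext.none :=
  certB0 (fam := false) (s1 := false) (s2 := false) (a := 0) (b := 0) (c := 1) (cn := .up) (n1 := ndB1q0) (n2 := ndB0q1) (pc := pcB0) (cut := Cut.none) (xt := Ext.none) (P1 := 0) (W1 := 536870912) (P2 := 536870912) (W2 := 536870912) (P3 := 858993459) (W3 := 64424510) (N0 := 3) (En := eng) (mo := mog) (C1 := cd1q0) (C2 := cd0q1) (C3 := pd0)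
    rfl k0_mm_001

noncomputable def f_mm_011 : ℕ → ℕ → ℕ → ℕ → Bool := onCell 0 536870912 536870912 536870912 858993459 64424510
    (rowB 3 eng mog cd1q0 cd0q1 pd1 0 false false false .pnn 0 1 1 (qsf 0 536870912 536870912 536870912 1) ndB1q0 ndB0q1 pcB1 Cut.none Ext.none)

def k0_mm_011 : ∃ t, chk3 f_mm_011 t 1 1 1 = true :=
  ⟨(l 5), by decide +kernel⟩

theorem c_mm_011 : CertB 0 536870912 536870912 536870912 858993459 64424510 3 eng mog cd1q0 cd0q1 pd1 false false false .pnn 0 1 1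
    ndB1q0 ndB0q1 pcB1 Cut.none Ext.none :=
  certB0 (fam := false) (s1 := false) (s2 := false) (a := 0) (b := 1) (c := 1) (cn := .pnn) (n1 := ndB1q0) (n2 := ndB0q1) (pc := pcB1) (cut := Cut.none) (xt := Ext.none) (P1 := 0) (W1 := 536870912) (P2 := 536870912) (W2 := 536870912) (P3 := 858993459) (W3 := 64424510) (N0 := 3) (En := eng) (mo := mog) (C1 := cd1q0) (C2 := cd0q1) (C3 := pd1)
    rfl k0_mm_011

noncomputable def f_mm_012 : ℕ → ℕ → ℕ → ℕ → Bool := onCell 0 536870912 0 536870912 858993459 64424510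
    (rowB 3 eng mog cd1q0 cd0q2 pd1 0 false false false .pnp 0 1 2 (qsf 0 536870912 0 536870912 1) ndB1q0 ndB0q2 pcB1 Cut.none Ext.none)

def k0_mm_012 : ∃ t, chk3 f_mm_012 t 1 1 1 = true :=
  ⟨(l 5), by decide +kernel⟩

theorem c_mm_012 : CertB 0 536870912 0 536870912 858993459 64424510 3 eng mog cd1q0 cd0q2 pd1 false false false .pnp 0 1 2
    ndB1q0 ndB0q2 pcB1 Cut.none Ext.none :=
  certB0 (fam := false) (s1 := false) (s2 := false) (a := 0) (b := 1) (c := 2) (cn := .pnp) (n1 := ndB1q0) (n2 := ndB0q2) (pc := pcB1) (cut := Cut.none) (xt := Ext.none) (P1 := 0) (W1 := 536870912) (P2 := 0) (W2 := 536870912) (P3 := 858993459) (W3 := 64424510) (N0 := 3) (En := eng) (mo := mog) (C1 := cd1q0) (C2 := cd0q2) (C3 := pd1)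
    rfl k0_mm_012

noncomputable def f_mm_022 : ℕ → ℕ → ℕ → ℕ → Bool := onCell 0 536870912 0 536870912 858993459 64424510
    (rowB 3 eng mog cd1q0 cd0q2 pd2 0 false false false .pp 0 2 2 (qsf 0 536870912 0 536870912 2) ndB1q0 ndB0q2 pcB2 Cut.none Ext.none)

def k0_mm_022 : ∃ t, chk3 f_mm_022 t 1 1 1 = true :=
  ⟨(l 5), by decide +kernel⟩

theorem c_mm_022 : CertB 0 536870912 0 536870912 858993459 64424510 3 eng mog cd1q0 cd0q2 pd2 false false false .pp 0 2 2
    ndB1q0 ndB0q2 pcB2 Cut.none Ext.none :=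
  certB0 (fam := false) (s1 := false) (s2 := false) (a := 0) (b := 2) (c := 2) (cn := .pp) (n1 := ndB1q0) (n2 := ndB0q2) (pc := pcB2) (cut := Cut.none) (xt := Ext.none) (P1 := 0) (W1 := 536870912) (P2 := 0) (W2 := 536870912) (P3 := 858993459) (W3 := 64424510) (N0 := 3) (En := eng) (mo := mog) (C1 := cd1q0) (C2 := cd0q2) (C3 := pd2)
    rfl k0_mm_022

noncomputable def f_mm_101 : ℕ → ℕ → ℕ → ℕ → Bool := onCell 536870912 536870912 536870912 536870912 858993459 64424510
    (rowB 3 eng mog cd1q1 cd0q1 pd0 0 false false false .npn 1 0 1 (qsf 536870912 536870912 536870912 536870912 0) ndB1q1 ndB0q1 pcB0 Cut.none Ext.none)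

def k0_mm_101 : ∃ t, chk3 f_mm_101 t 1 1 1 = true :=
  ⟨(l 3), by decide +kernel⟩

theorem c_mm_101 : CertB 536870912 536870912 536870912 536870912 858993459 64424510 3 eng mog cd1q1 cd0q1 pd0 false false false .npn 1 0 1
    ndB1q1 ndB0q1 pcB0 Cut.none Ext.none :=
  certB0 (fam := false) (s1 := false) (s2 := false) (a := 1) (b := 0) (c := 1) (cn := .npn) (n1 := ndB1q1) (n2 := ndB0q1) (pc := pcB0) (cut := Cut.none) (xt := Ext.none) (P1 := 536870912) (W1 := 536870912) (P2 := 536870912) (W2 := 536870912) (P3 := 858993459) (W3 := 64424510) (N0 := 3) (En := eng) (mo := mog) (C1 := cd1q1) (C2 := cd0q1) (C3 := pd0)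
    rfl k0_mm_101

noncomputable def f_mm_102 : ℕ → ℕ → ℕ → ℕ → Bool := onCell 536870912 536870912 0 536870912 858993459 64424510
    (rowB 3 eng mog cd1q1 cd0q2 pd0 0 false false false .npp 1 0 2 (qsf 536870912 536870912 0 536870912 0) ndB1q1 ndB0q2 pcB0 Cut.none Ext.none)

def k0_mm_102 : ∃ t, chk3 f_mm_102 t 1 1 1 = true :=
  ⟨(l 5), by decide +kernel⟩

theorem c_mm_102 : CertB 536870912 536870912 0 536870912 858993459 64424510 3 eng mog cd1q1 cd0q2 pd0 false false false .npp 1 0 2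
    ndB1q1 ndB0q2 pcB0 Cut.none Ext.none :=
  certB0 (fam := false) (s1 := false) (s2 := false) (a := 1) (b := 0) (c := 2) (cn := .npp) (n1 := ndB1q1) (n2 := ndB0q2) (pc := pcB0) (cut := Cut.none) (xt := Ext.none) (P1 := 536870912) (W1 := 536870912) (P2 := 0) (W2 := 536870912) (P3 := 858993459) (W3 := 64424510) (N0 := 3) (En := eng) (mo := mog) (C1 := cd1q1) (C2 := cd0q2) (C3 := pd0)
    rfl k0_mm_102

noncomputable def f_mm_112 : ℕ → ℕ → ℕ → ℕ → Bool := onCell 536870912 536870912 0 536870912 858993459 64424510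
    (rowB 3 eng mog cd1q1 cd0q2 pd1 0 false false false .dn 1 1 2 (qsf 536870912 536870912 0 536870912 1) ndB1q1 ndB0q2 pcB1 Cut.none Ext.none)

def k0_mm_112 : ∃ t, chk3 f_mm_112 t 1 1 1 = true :=
  ⟨(l 5), by decide +kernel⟩

theorem c_mm_112 : CertB 536870912 536870912 0 536870912 858993459 64424510 3 eng mog cd1q1 cd0q2 pd1 false false false .dn 1 1 2
    ndB1q1 ndB0q2 pcB1 Cut.none Ext.none :=
  certB0 (fam := false) (s1 := false) (s2 := false) (a := 1) (b := 1) (c := 2) (cn := .dn) (n1 := ndB1q1) (n2 := ndB0q2) (pc := pcB1) (cut := Cut.none) (xt := Ext.none) (P1 := 536870912) (W1 := 536870912) (P2 := 0) (W2 := 536870912) (P3 := 858993459) (W3 := 64424510) (N0 := 3) (En := eng) (mo := mog) (C1 := cd1q1) (C2 := cd0q2) (C3 := pd1)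
    rfl k0_mm_112

noncomputable def f_mm_202_a : ℕ → ℕ → ℕ → ℕ → Bool := onCell 0 536870912 0 536870912 858993459 64424510
    (rowB 3 eng mog cd1q2a cd0q2 pd0 0 false false false .pp 2 0 2 (qsf 0 536870912 0 536870912 0) ndB1q2a ndB0q2 pcB0 Cut.none Ext.none)

def k0_mm_202_a : ∃ t, chk3 f_mm_202_a t 1 1 1 = true :=
  ⟨(l 3), by decide +kernel⟩

theorem c_mm_202_a : CertB 0 536870912 0 536870912 858993459 64424510 3 eng mog cd1q2a cd0q2 pd0 false false false .pp 2 0 2
    ndB1q2a ndB0q2 pcB0 Cut.none Ext.none :=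
  certB0 (fam := false) (s1 := false) (s2 := false) (a := 2) (b := 0) (c := 2) (cn := .pp) (n1 := ndB1q2a) (n2 := ndB0q2) (pc := pcB0) (cut := Cut.none) (xt := Ext.none) (P1 := 0) (W1 := 536870912) (P2 := 0) (W2 := 536870912) (P3 := 858993459) (W3 := 64424510) (N0 := 3) (En := eng) (mo := mog) (C1 := cd1q2a) (C2 := cd0q2) (C3 := pd0)
    rfl k0_mm_202_a

noncomputable def f_mm_202_b : ℕ → ℕ → ℕ → ℕ → Bool := onCell 1239849684 370763052 0 536870912 858993459 64424510
    (rowB 3 eng mog cd1q2b cd0q2 pd0 0 false false false .pp 2 0 2 (qsf 1239849684 370763052 0 536870912 0) ndB1q2b ndB0q2 pcB0 Cut.none Ext.none)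

def k0_mm_202_b : ∃ t, chk3 f_mm_202_b t 1 1 1 = true :=
  ⟨(l 3), by decide +kernel⟩

theorem c_mm_202_b : CertB 1239849684 370763052 0 536870912 858993459 64424510 3 eng mog cd1q2b cd0q2 pd0 false false false .pp 2 0 2
    ndB1q2b ndB0q2 pcB0 Cut.none Ext.none :=
  certB0 (fam := false) (s1 := false) (s2 := false) (a := 2) (b := 0) (c := 2) (cn := .pp) (n1 := ndB1q2b) (n2 := ndB0q2) (pc := pcB0) (cut := Cut.none) (xt := Ext.none) (P1 := 1239849684) (W1 := 370763052) (P2 := 0) (W2 := 536870912) (P3 := 858993459) (W3 := 64424510) (N0 := 3) (En := eng) (mo := mog) (C1 := cd1q2b) (C2 := cd0q2) (C3 := pd0)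
    rfl k0_mm_202_b

end Pool.Agent.Strip051.G.I8000_8600.Tab.C.BB10

namespace Pool.Agent.Strip051.G.I8000_8600.Tab.C.BB11

open Pool.Agent.Strip051.PB Pool.Agent.Strip051.PB.T
open Pool.Agent.Strip051.G.I8000_8600.Tab

noncomputable def f_pp_001 : ℕ → ℕ → ℕ → ℕ → Bool := onCell 0 536870912 536870912 536870912 858993459 64424510
    (rowB 3 eng mog cd1q0 cd1q1 pd0 0 false true true .up 0 0 1 (qsf 0 536870912 536870912 536870912 0) ndB1q0 ndB1q1 pcB0 Cut.none Ext.none)

def k0_pp_001 : ∃ t, chk3 f_pp_001 t 1 1 1 = true :=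
  ⟨(l 3), by decide +kernel⟩

theorem c_pp_001 : CertB 0 536870912 536870912 536870912 858993459 64424510 3 eng mog cd1q0 cd1q1 pd0 false true true .up 0 0 1
    ndB1q0 ndB1q1 pcB0 Cut.none Ext.none :=
  certB0 (fam := false) (s1 := true) (s2 := true) (a := 0) (b := 0) (c := 1) (cn := .up) (n1 := ndB1q0) (n2 := ndB1q1) (pc := pcB0) (cut := Cut.none) (xt := Ext.none) (P1 := 0) (W1 := 536870912) (P2 := 536870912) (W2 := 536870912) (P3 := 858993459) (W3 := 64424510) (N0 := 3) (En := eng) (mo := mog) (C1 := cd1q0) (C2 := cd1q1) (C3 := pd0)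
    rfl k0_pp_001

noncomputable def f_pp_011 : ℕ → ℕ → ℕ → ℕ → Bool := onCell 0 536870912 536870912 536870912 858993459 64424510
    (rowB 3 eng mog cd1q0 cd1q1 pd1 0 false true true .pnn 0 1 1 (qsf 0 536870912 536870912 536870912 1) ndB1q0 ndB1q1 pcB1 Cut.none Ext.none)

def k0_pp_011 : ∃ t, chk3 f_pp_011 t 1 1 1 = true :=
  ⟨(l 3), by decide +kernel⟩

theorem c_pp_011 : CertB 0 536870912 536870912 536870912 858993459 64424510 3 eng mog cd1q0 cd1q1 pd1 false true true .pnn 0 1 1
    ndB1q0 ndB1q1 pcB1 Cut.none Ext.none :=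
  certB0 (fam := false) (s1 := true) (s2 := true) (a := 0) (b := 1) (c := 1) (cn := .pnn) (n1 := ndB1q0) (n2 := ndB1q1) (pc := pcB1) (cut := Cut.none) (xt := Ext.none) (P1 := 0) (W1 := 536870912) (P2 := 536870912) (W2 := 536870912) (P3 := 858993459) (W3 := 64424510) (N0 := 3) (En := eng) (mo := mog) (C1 := cd1q0) (C2 := cd1q1) (C3 := pd1)
    rfl k0_pp_011

noncomputable def cut_pp_012_a : Cut := Cut.of [[⟨0, 0, 0, 67108864⟩, ⟨1, 1, 0, 67108864⟩, ⟨2, 1, 0, 67108864⟩]]

noncomputable def f_pp_012_a : ℕ → ℕ → ℕ → ℕ → Bool := onCell 536870912 536870912 0 536870912 858993459 64424510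
    (rowB 3 eng mog cd1q0 cd1q2a pd1 2 false true true .pnp 0 1 2 (qsf 0 536870912 0 536870912 1) ndB1q0 ndB1q2a pcB1 cut_pp_012_a Ext.none)

def k0_pp_012_a : ∃ t, chk3 f_pp_012_a t 2 1 1 = true :=
  ⟨(a (b (b (l 2) (l 3)) (l 3)) (b (a (a (a (b (l 2) (l 3)) (b (c (b (l 16717072) (l 16660728)) (b (l 16609408) (l 16580528))) (b (c (l 208473601799) (l 16655864)) (l 3)))) (b (b (c (l 16747120) (l 16629448)) (c (c (l 16707648) (l 16676272)) (c (l 16640712) (l 16600976)))) (b (c (a (l 207936724407) (b (l 16657464) (l 16626304))) (a (l 166060761735) (l 16687424))) (l 3)))) (b (c (a (b (l 16765840) (l 16737832)) (b (l 16741272) (l 16763616))) (a (c (l 16685152) (l 16499048)) (b (l 16667952) (l 16685672)))) (a (b (c (a (l 16665088) (l 16689808)) (a (l 16661816) (l 16637104))) (b (c (l 229411659319) (l 191830625847)) (l 3))) (b (c (l 16848304) (c (l 16683168) (l 16647736))) (c (a (l 235317289879) (l 281488012487)) (a (l 188609385367) (b (l 16648248) (l 16622296)))))))) (b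 (l 3) (l 3)))), by decide +kernel⟩

def k1_pp_012_a : ∃ t, chk3 f_pp_012_a t 6 1 1 = true :=
  ⟨(b (a (a (b (c (b (l 16714424) (l 16741400)) (b (l 16684288) (l 16708112))) (b (c (l 16763688) (l 16706904)) (c (b (l 16731312) (l 232632845031)) (c (l 16682920) (l 16542944))))) (c (b (l 16705928) (b (l 16742008) (l 16844176))) (b (l 16682520) (b (l 16725200) (l 16845424))))) (b (c (a (l 16684320) (l 16658576)) (a (l 16661272) (l 16640144))) (c (a (b (l 16716744) (l 16747152)) (b (l 16689992) (l 16720200))) (a (b (l 16704160) (l 16733240)) (b (l 16679904) (l 16708552)))))) (b (a (b (a (b (a (l 285246161303) (b (l 16709960) (l 293299245383))) (l 3)) (a (b (c (l 16703736) (l 16669376)) (c (l 275045651143) (l 16675864))) (b (l 16756400) (b (l 16774320) (l 195052072983))))) (l 3)) (c (b (a (b (l 16763064) (b (l 16744752) (l 16753520))) (b (l 16748456) (l 16767520))) (b (a (a (l 299204847943) (l 16729928)) (b (l 16765560) (l 16855984))) (a (l 348596865111) (a (l 306721090455)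 (l 108078979271))))) (a (b (b (l 16734088) (c (l 16717152) (l 16701288))) (b (a (l 287930523847) (l 16691696)) (l 335175027767))) (a (b (l 16743376) (b (l 16723200) (l 323363999975))) (b (l 16733992) (b (l 16748848) (l 247128304151))))))) (a (l 3) (b (a (l 3) (a (l 3) (b (c (l 328195955335) (l 380272262823)) (l 3)))) (l 3))))), by decide +kernel⟩

def k2_pp_012_a : ∃ t, chk3 f_pp_012_a t 7 2 1 = true :=
  ⟨(a (b (a (c (l 16630920) (l 16620656)) (c (l 16601024) (l 16602896))) (a (c (b (l 16661616) (l 16691584)) (b (l 16657112) (l 16683800))) (c (b (l 16631336) (l 16661264)) (b (l 16635816) (l 16660296))))) (b (a (c (l 16568560) (l 16587576)) (c (b (l 16524360) (l 16541248)) (l 16533312))) (b (a (c (l 16598976) (l 16617168)) (a (l 16588360) (l 16407664))) (c (a (l 16629192) (a (l 16603784) (l 16585688))) (a (l 16639632) (a (l 16627328) (l 16620352))))))), by decide +kernel⟩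

def k3_pp_012_a : ∃ t, chk3 f_pp_012_a t 14 3 1 = true :=
  ⟨(b (b (a (c (a (l 16737280) (l 16722816)) (a (l 16721008) (l 16708056))) (a (c (l 16708080) (l 16695336)) (c (l 16692608) (l 16682800)))) (a (a (b (l 16801928) (a (l 16831520) (l 16774864))) (c (l 16829208) (l 16771736))) (c (a (l 16752216) (l 16737296)) (a (l 16737200) (l 16723368))))) (a (b (b (a (b (c (l 253033968119) (l 211694934871)) (c (l 216526820935) (l 321753488167))) (a (c (l 199883895111) (l 310479179047)) (c (l 16799464) (l 16781912)))) (a (l 3) (a (l 3) (a (l 3) (l 302962978071))))) (l 3)) (b (c (a (b (l 16838160) (a (l 268066442167) (l 204178787015))) (b (l 16770896) (a (a (l 181630220423) (l 16813024)) (l 16829368)))) (a (b (l 16823672) (b (l 219748015127) (l 349133900007))) (b (l 16761112) (b (l 16778440) (b (l 80698515815) (l 260013283431)))))) (b (a (l 3) (a (l 3) (c (l 342691472855) (l 369534986535)))) (l 3))))), by decide +kernel⟩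

def k4_pp_012_a : ∃ t, chk3 f_pp_012_a t 15 3 1 = true :=
  ⟨(b (b (b (a (a (l 16664744) (l 16651608)) (a (l 16638936) (c (l 16614880) (l 16637184)))) (a (a (l 16683512) (l 16670392)) (a (l 16699448) (c (l 16634904) (l 16649872))))) (a (a (c (l 16721992) (l 16710544)) (a (l 16769080) (b (l 16688328) (l 16709960)))) (b (a (l 16718784) (c (l 16654488) (l 16665056))) (a (a (l 16701248) (l 16692472)) (c (l 16676832) (l 16682120)))))) (a (b (b (a (c (l 16757096) (l 16745520)) (c (l 16742104) (l 16729440))) (a (a (c (l 16782064) (l 16769800)) (a (l 16750256) (l 16766784))) (a (c (l 16765312) (l 16754288)) (c (l 16756080) (l 16746152))))) (b (a (a (b (c (l 174650900871) (l 300278599687)) (l 3)) (a (b (l 299741725447) (l 3)) (b (l 16759328) (l 382419864855)))) (a (b (c (l 16778024) (l 16769016)) (b (c (l 16784984) (l 16778376)) (c (l 326585337223) (l 344838919703)))) (a (b (l 16768616) (c (l 16791808) (l 295446733239))) (b (l 16764800) (c (l 16777552) (l 166597706487))))))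 (a (l 3) (a (l 3) (l 6))))) (b (a (a (b (l 16701952) (c (l 16746704) (l 16738640))) (c (b (l 16717272) (l 16737160)) (b (l 16711120) (l 16731568)))) (a (b (c (l 16706808) (l 16704528)) (c (l 16748416) (b (l 16719576) (l 16729968)))) (a (b (l 16699088) (a (l 16741768) (l 6))) (b (l 16715632) (l 6))))) (b (b (a (a (c (l 16761576) (l 16755464)) (l 6)) (l 6)) (l 6)) (l 6))))), by decide +kernel⟩

theorem s5_pp_012_a : ∃ t, chk3 f_pp_012_a t 7 3 1 = true := ex3_a k3_pp_012_a k4_pp_012_a

theorem s6_pp_012_a : ∃ t, chk3 f_pp_012_a t 7 1 1 = true := ex3_b k2_pp_012_a s5_pp_012_a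

theorem s7_pp_012_a : ∃ t, chk3 f_pp_012_a t 3 1 1 = true := ex3_a k1_pp_012_a s6_pp_012_a

theorem s8_pp_012_a : ∃ t, chk3 f_pp_012_a t 1 1 1 = true := ex3_a k0_pp_012_a s7_pp_012_a

theorem c_pp_012_a : CertB 0 536870912 0 536870912 858993459 64424510 3 eng mog cd1q0 cd1q2a pd1 false true true .pnp 0 1 2
    ndB1q0 ndB1q2a pcB1 cut_pp_012_a Ext.none :=
  certB2 (fam := false) (s1 := true) (s2 := true) (a := 0) (b := 1) (c := 2) (cn := .pnp) (n1 := ndB1q0) (n2 := ndB1q2a) (pc := pcB1) (cut := cut_pp_012_a) (xt := Ext.none) (P1 := 0) (W1 := 536870912) (P2 := 0) (W2 := 536870912) (P3 := 858993459) (W3 := 64424510) (N0 := 3) (En := eng) (mo := mog) (C1 := cd1q0) (C2 := cd1q2a) (C3 := pd1)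
    rfl (fun _ => rfl) s8_pp_012_a

noncomputable def cut_pp_012_b : Cut := Cut.of [[⟨0, 0, 0, 67108864⟩, ⟨1, 1, 0, 67108864⟩, ⟨2, 1, 0, 67108864⟩]]

noncomputable def f_pp_012_b : ℕ → ℕ → ℕ → ℕ → Bool := onCell 536870912 536870912 1239849684 370763052 858993459 64424510
    (rowB 3 eng mog cd1q0 cd1q2b pd1 2 false true true .pnp 0 1 2 (qsf 0 536870912 1239849684 370763052 1) ndB1q0 ndB1q2b pcB1 cut_pp_012_b Ext.none)

def k0_pp_012_b : ∃ t, chk3 f_pp_012_b t 1 1 1 = true :=
  ⟨(a (a (l 2) (b (a (b (b (a (a (l 2) (l 16605760)) (a (l 16664592) (l 16677512))) (l 2)) (l 2)) (a (b (c (l 16633880) (l 16545256)) (l 2)) (b (c (l 16663752) (l 16625544)) (c (l 16559872) (l 16705560))))) (l 2))) (a (b (a (b (a (c (l 16633720) (l 16686864)) (c (l 16607752) (l 16661616))) (c (a (l 16519360) (l 16483312)) (a (l 16666744) (l 16623048)))) (a (b (c (l 16586128) (l 16636592)) (c (l 16451928) (l 16575200))) (b (c (l 16568896) (l 16613016)) (c (l 16425224) (l 16523608))))) (a (l 2)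 (b (c (l 16097400) (l 16439440)) (l 2)))) (b (a (b (a (c (l 16556160) (l 16591488)) (c (l 16548440) (l 16572120))) (a (l 16518816) (l 16399264))) (a (b (b (l 16552400) (l 16495008)) (l 16366112)) (b (b (c (l 16507832) (l 16537168)) (l 16472824)) (b (l 16379536) (l 16288488))))) (a (b (c (l 16054464) (l 16307000)) (a (l 2) (l 16155368))) (b (a (l 16090968) (l 16160800)) (l 16244984)))))), by decide +kernel⟩

theorem c_pp_012_b : CertB 0 536870912 1239849684 370763052 858993459 64424510 3 eng mog cd1q0 cd1q2b pd1 false true true .pnp 0 1 2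
    ndB1q0 ndB1q2b pcB1 cut_pp_012_b Ext.none :=
  certB2 (fam := false) (s1 := true) (s2 := true) (a := 0) (b := 1) (c := 2) (cn := .pnp) (n1 := ndB1q0) (n2 := ndB1q2b) (pc := pcB1) (cut := cut_pp_012_b) (xt := Ext.none) (P1 := 0) (W1 := 536870912) (P2 := 1239849684) (W2 := 370763052) (P3 := 858993459) (W3 := 64424510) (N0 := 3) (En := eng) (mo := mog) (C1 := cd1q0) (C2 := cd1q2b) (C3 := pd1)
    rfl (fun _ => rfl) k0_pp_012_b

end Pool.Agent.Strip051.G.I8000_8600.Tab.C.BB11

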