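import Pool.Agent.Strip051.G.I8000_8600.Tab

/-! # Certificates B21 (generated) -/

set_option linter.all false
set_option maxRecDepth 100000

namespace Pool.Agent.Strip051.G.I8000_8600.Tab.C.BB11

open Pool.Agent.Strip051.PB Pool.Agent.Strip051.PB.T
open Pool.Agent.Strip051.G.I8000_8600.Tab

noncomputable def cut_pp_022_a : Cut := Cut.of [[⟨0, 0, 0, 67108864⟩, ⟨1, 1, 0, 67108864⟩, ⟨2, 1, 0, 67108864⟩]]

noncomputable def f_pp_022_a : ℕ → ℕ → ℕ → ℕ → Bool := onCell 0 536870912 0 536870912 858993459 64424510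
    (rowB 3 eng mog cd1q0 cd1q2a pd2 0 false true true .pp 0 2 2 (qsf 0 536870912 0 536870912 2) ndB1q0 ndB1q2a pcB2 cut_pp_022_a Ext.none)

def k0_pp_022_a : ∃ t, chk3 f_pp_022_a t 8 2 1 = true :=
  ⟨(b (a (c (b (a (a (b (l 16232840) (l 16226296)) (l 16251640)) (a (l 16273064) (l 16293984))) (a (b (a (l 16223736) (l 16248112)) (a (l 16246912) (l 16251960))) (c (l 16301512) (l 16271352)))) (b (a (c (l 16185040) (l 16144472)) (l 16255856)) (a (b (c (l 16184320) (l 16146928)) (c (l 16188776) (l 16152520))) (c (l 16238792) (l 16203824))))) (a (c (b (l 16324424) (b (l 16328704) (l 16337376))) (b (l 16261360) (c (l 16289560) (l 16257632)))) (c (b (l 16361048) (l 16373624)) (b (l 16310056) (l 16307320))))) (a (c (b (c (a (b (l 16263416) (a (l 16264760) (l 16293872))) (b (l 16316648) (l 16335696))) (a (b (l 16231664) (l 16246864)) (b (l 16286368) (l 16304424)))) (a (b (a (c (l 16309528) (l 16253960)) (c (l 16319440) (l 16285008))) (a (c (b (l 16312768) (a (l 16324224)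 (l 16340992))) (b (l 16275888) (l 16314696))) (c (b (l 16344920) (l 16364568)) (b (l 16308080) (l 16326288))))) (b (c (l 16382560) (l 16329352)) (a (b (l 16356424) (l 16374456)) (l 16371056))))) (b (a (c (b (l 16197744) (l 16212016)) (b (l 16161664) (l 16174880))) (b (c (l 16253672) (l 16218560)) (c (l 16270584) (l 16234176)))) (a (b (c (a (l 16216880) (l 16247904)) (a (l 16177320) (l 16208112))) (a (c (b (l 16236200) (l 16251696)) (b (l 16193696) (l 16206544))) (c (l 16297472) (b (l 16225272) (l 16239912))))) (b (c (l 16294368) (a (l 16239144) (l 16273072))) (c (l 16305480) (l 16267040)))))) (a (b (c (c (l 16352352) (l 16326336)) (b (l 16272472) (l 16293264))) (b (c (l 16396592) (l 16342192)) (c (c (l 16442504) (l 16418344)) (l 16273112)))) (b (c (b (l 16394208) (l 16415544)) (c (l 16375384) (l 16353696))) (c (b (l 16443800) (l 16459152)) (b (l 16407224) (l 16445480))))))), by decide +kernel⟩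

def k1_pp_022_a : ∃ t, chk3 f_pp_022_a t 9 2 1 = true :=
  ⟨(a (b (c (b (l 16390616) (a (l 16411736) (l 16448744))) (b (l 16339832) (a (l 16381552) (l 16432000)))) (a (b (c (l 16405248) (l 16380864)) (c (a (l 16412840) (l 16519688)) (b (l 16468800) (l 16509312)))) (b (c (l 16446200) (l 16435736)) (c (l 16490080) (l 16464088))))) (b (c (b (l 16432832) (l 16480048)) (b (l 16469760) (l 16461408))) (b (c (a (l 16527064) (l 16563656)) (a (l 16529920) (l 16573528))) (b (c (l 16579744) (l 16487592)) (c (a (l 16580488) (l 16549184)) (a (l 16575256) (l 16500056))))))), by decide +kernel⟩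

def k2_pp_022_a : ∃ t, chk3 f_pp_022_a t 5 2 1 = true :=
  ⟨(a (b (a (b (c (l 16526136) (l 16542792)) (c (l 16516456) (a (l 16565000) (l 16512528)))) (b (l 1) (l 1))) (a (a (b (c (l 16560304) (l 16451960)) (b (c (l 16539760) (l 16463696)) (c (l 16436272) (l 183642569543)))) (b (c (l 177737095831) (l 180958209703)) (l 1))) (l 1))) (l 1)), by decide +kernel⟩

def k3_pp_022_a : ∃ t, chk3 f_pp_022_a t 16 12 1 = true :=
  ⟨(a (c (b (a (b (c (a (b (l 16340936) (l 16353152)) (l 16384824)) (a (b (l 16300272) (l 16311136)) (l 16322608))) (a (c (b (a (l 16361824) (l 16370488)) (a (b (l 16371920) (l 16377752)) (l 16382640))) (b (a (l 16318368) (l 16327040)) (c (l 16356160) (l 16322568)))) (c (b (l 16381768) (l 16393240)) (b (l 16339376) (l 16350856))))) (b (c (l 16406536) (l 16346536)) (c (a (l 16401248) (l 16414656)) (l 16389992)))) (a (b (c (a (b (a (l 16384984) (l 16392272)) (l 16397712)) (l 16407744)) (a (b (a (l 16340528) (l 16348912)) (l 16355056)) (l 16366656))) (c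 (a (b (l 16407232) (l 16417216)) (l 16426928)) (a (c (l 16381968) (l 16360712)) (l 16388288)))) (b (b (a (l 16410752) (l 16413600)) (l 16436840)) (c (l 16448824) (l 16413416))))) (c (b (a (b (a (l 16260936) (l 16277856)) (a (b (l 16296536) (a (l 16281472) (l 16290680))) (b (l 16293288) (l 16304744)))) (b (l 16304096) (l 16326600))) (a (b (a (c (l 16325472) (l 16290536)) (l 16321968)) (a (c (l 16338576) (l 16315568)) (l 16346304))) (b (a (l 16340960) (l 16359832)) (l 16374880)))) (b (a (b (a (l 16212784) (l 16229584)) (a (b (l 16224720) (a (l 16229048) (l 16238936))) (b (l 16243512) (l 16254912)))) (b (l 16258248) (l 16280712))) (b (a (a (b (l 16266448) (l 16258696)) (l 16273696)) (l 16326808)) (a (a (l 16300392) (l 16300984)) (l 16333224)))))) (a (c (b (c (l 16401992) (l 16409400)) (b (c (l 16457464) (l 16424120)) (l 16462520))) (b (b (l 16319272) (l 16321544)) (b (c (l 16387728) (l 16348296)) (l 16394696)))) (c (b (b (l 16422168) (l 16445696)) (b (c (l 16484728)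 (l 16455864)) (l 16493128))) (b (c (l 16385632) (l 16350048)) (b (l 16407472) (l 16434632)))))), by decide +kernel⟩

def k4_pp_022_a : ∃ t, chk3 f_pp_022_a t 17 12 1 = true :=
  ⟨(a (a (c (b (l 16487152) (b (l 16499096) (l 16523176))) (b (l 16404752) (b (l 16445488) (l 16474024)))) (b (c (l 16487376) (l 16440520)) (c (c (l 16485640) (l 16487600)) (b (l 16482088) (l 16512680))))) (c (b (l 16483872) (b (l 16565880) (l 16594096))) (b (l 16408760) (b (l 16535488) (l 16568464))))), by decide +kernel⟩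

def k5_pp_022_a : ∃ t, chk3 f_pp_022_a t 16 13 1 = true :=
  ⟨(a (c (b (a (b (c (a (b (l 16427680) (l 16438640)) (l 16448008)) (a (c (l 16404744) (l 16384776)) (l 16411800))) (c (a (b (l 16450128) (l 16462168)) (l 16471184)) (a (c (l 16440008) (l 16421320)) (l 16437336)))) (b (c (l 16470152) (l 16437080)) (c (l 16493608) (l 16462792)))) (a (b (c (a (b (l 16474792) (a (l 16484184) (l 16491856))) (l 16496656)) (a (c (b (l 16449464) (l 16463528)) (a (l 16434576) (l 16443448))) (l 16465048))) (a (c (b (a (l 16498024) (l 16505760)) (a (l 16512544) (l 16520344))) (c (b (l 16478200) (l 16493512)) (b (l 16461568) (l 16477416)))) (c (b (l 16517336) (l 16532024)) (b (l 16487296) (l 16502960))))) (b (c (l 16519400) (l 16490720)) (c (l 16552016) (a (l 16512336) (l 16529304)))))) (b (a (a (b (c (b (l 16346536) (l 16360072)) (c (l 16320032) (l 16296824))) (c (b (l 16374104) (l 16388632)) (c (l 16350232) (l 16328520)))) (b (c (l 16372488) (l 16330064)) (c (l 16400600) (l 16360976))))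 (c (b (l 16401120) (l 16429304)) (b (l 16362264) (l 16393128)))) (a (b (c (a (b (l 16414160) (a (l 16414416) (l 16424080))) (l 16430752)) (a (b (l 16363824) (l 16401688)) (l 16393768))) (c (a (b (a (l 16430520) (l 16440200)) (a (l 16447192) (l 16456888))) (l 16473544)) (a (a (b (l 16392712) (l 16410576)) (l 16433376)) (l 16449448)))) (b (c (l 16459544) (l 16425864)) (c (l 16481344) (l 16439560)))))) (a (b (c (b (l 16485256) (l 16520608)) (c (l 16453216) (l 16420448))) (c (b (c (l 16549112) (l 16524440)) (c (l 16576864) (l 16554304))) (b (l 16483256) (c (l 16529688) (l 16503024))))) (b (c (b (l 16516128) (l 16541096)) (b (l 16462248) (l 16491720))) (c (c (l 16528880) (l 16509464)) (b (l 16523072) (l 16556352)))))), by decide +kernel⟩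

def k6_pp_022_a : ∃ t, chk3 f_pp_022_a t 17 13 1 = true :=
  ⟨(a (b (c (a (l 16454056) (l 16588672)) (a (l 16453640) (l 16513656))) (b (c (l 16592256) (a (l 16562472) (l 16601432))) (c (l 16621208) (l 16531328)))) (c (b (l 16632424) (l 16574688)) (b (l 16592272) (l 16588176)))), by decide +kernel⟩

def k7_pp_022_a : ∃ t, chk3 f_pp_022_a t 9 6 1 = true :=
  ⟨(b (b (a (c (a (l 16575272) (l 16594880)) (a (l 16558632) (l 16602072))) (c (c (l 109554496215) (l 105796365591)) (a (l 16550880) (l 230350367735)))) (a (a (c (l 16567056) (l 16578800)) (c (l 16511096) (l 16488688))) (a (a (b (l 16546712) (l 16530552)) (b (l 133176867159) (l 532072094951))) (l 1)))) (a (b (b (c (a (l 16597640) (l 16555688)) (c (l 16450448) (l 16449648))) (a (l 16513368) (c (l 16550672) (l 16512440)))) (a (c (b (l 16595752) (l 16594304)) (b (l 16592808) (l 16544696))) (b (c (l 16528488) (l 488585419031)) (l 1)))) (b (a (b (c (l 516502834967) (l 322692177431)) (l 1)) (l 1)) (l 1)))), by decide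 +kernel⟩

def k8_pp_022_a : ∃ t, chk3 f_pp_022_a t 4 7 1 = true :=
  ⟨(b (a (a (b (b (a (b (a (c (a (c (a (l 16527776) (l 16535648)) (c (l 16509496) (l 16493888))) (c (l 16547248) (l 16519152))) (a (c (c (l 16477656) (l 16460784)) (c (l 16443280) (l 16425152))) (c (l 16488640) (l 16455712)))) (c (a (l 16549488) (l 16565192)) (a (l 16492696) (l 16512808)))) (a (c (a (c (a (c (l 16550688) (l 16536576)) (l 16551448)) (a (c (l 16521832) (l 16506472)) (l 16522904))) (c (l 16562720) (l 16535672))) (c (a (a (c (l 16490488) (l 16473872)) (l 16491928)) (l 16506288)) (a (a (c (l 16456640) (l 16438784)) (l 16458504)) (l 16474568)))) (c (a (l 16565312) (l 16581064)) (a (l 16531872) (l 16531000))))) (a (c (b (l 16609584) (l 16541624)) (c (l 16563808) (l 16539600))) (c (l 16596096) (l 16528720)))) (b (b (b (b (a (a (c (a (c (l 16556600) (l 16528144)) (l 16558592)) (a (a (c (l 16492472) (l 16458592)) (l 16485984)) (l 16501160))) (c (l 16582336) (l 16531392))) (c (a (l 16613720)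 (l 16644768)) (a (l 16571424) (l 16611088)))) (l 6)) (l 6)) (l 6)) (l 6))) (l 6)) (b (b (a (c (l 16610368) (l 16566512)) (c (l 16572440) (l 16578848))) (c (a (l 16611856) (a (l 16645176) (l 16603376))) (a (l 16582352) (c (l 16572040) (l 16572520))))) (a (l 6) (a (l 6) (a (l 6) (l 1)))))) (a (b (a (a (b (c (l 16603296) (l 16595648)) (c (l 554620940583) (l 557305098519))) (b (l 579853702663) (l 1))) (l 1)) (l 1)) (l 1))) (a (a (l 6) (a (l 6) (l 1))) (l 1))), by decide +kernel⟩

def k9_pp_022_a : ∃ t, chk3 f_pp_022_a t 5 3 1 = true :=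
  ⟨(b (l 1) (l 1)), by decide +kernel⟩

def k10_pp_022_a : ∃ t, chk3 f_pp_022_a t 3 1 1 = true :=
  ⟨(l 1), by decide +kernel⟩

theorem s11_pp_022_a : ∃ t, chk3 f_pp_022_a t 8 13 1 = true := ex3_a k5_pp_022_a k6_pp_022_a

theorem s12_pp_022_a : ∃ t, chk3 f_pp_022_a t 8 12 1 = true := ex3_a k3_pp_022_a k4_pp_022_a

theorem s13_pp_022_a : ∃ t, chk3 f_pp_022_a t 8 6 1 = true := ex3_b s12_pp_022_a s11_pp_022_a

theorem s14_pp_022_a : ∃ t, chk3 f_pp_022_a t 4 6 1 = true := ex3_a s13_pp_022_a k7_pp_022_a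

theorem s15_pp_022_a : ∃ t, chk3 f_pp_022_a t 4 3 1 = true := ex3_b s14_pp_022_a k8_pp_022_a

theorem s16_pp_022_a : ∃ t, chk3 f_pp_022_a t 2 3 1 = true := ex3_a s15_pp_022_a k9_pp_022_a

theorem s17_pp_022_a : ∃ t, chk3 f_pp_022_a t 4 2 1 = true := ex3_a k0_pp_022_a k1_pp_022_a

theorem s18_pp_022_a : ∃ t, chk3 f_pp_022_a t 2 2 1 = true := ex3_a s17_pp_022_a k2_pp_022_a

theorem s19_pp_022_a : ∃ t, chk3 f_pp_022_a t 2 1 1 = true := ex3_b s18_pp_022_a s16_pp_022_a

theorem s20_pp_022_a : ∃ t, chk3 f_pp_022_a t 1 1 1 = true := ex3_a s19_pp_022_a k10_pp_022_a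

theorem c_pp_022_a : CertB 0 536870912 0 536870912 858993459 64424510 3 eng mog cd1q0 cd1q2a pd2 false true true .pp 0 2 2
    ndB1q0 ndB1q2a pcB2 cut_pp_022_a Ext.none :=
  certB0 (fam := false) (s1 := true) (s2 := true) (a := 0) (b := 2) (c := 2) (cn := .pp) (n1 := ndB1q0) (n2 := ndB1q2a) (pc := pcB2) (cut := cut_pp_022_a) (xt := Ext.none) (P1 := 0) (W1 := 536870912) (P2 := 0) (W2 := 536870912) (P3 := 858993459) (W3 := 64424510) (N0 := 3) (En := eng) (mo := mog) (C1 := cd1q0) (C2 := cd1q2a) (C3 := pd2)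
    rfl s20_pp_022_a

noncomputable def cut_pp_022_b : Cut := Cut.of [[⟨0, 0, 0, 67108864⟩, ⟨1, 1, 0, 67108864⟩, ⟨2, 1, 0, 67108864⟩]]

noncomputable def f_pp_022_b : ℕ → ℕ → ℕ → ℕ → Bool := onCell 0 536870912 1239849684 370763052 858993459 64424510
    (rowB 3 eng mog cd1q0 cd1q2b pd2 0 false true true .pp 0 2 2 (qsf 0 536870912 1239849684 370763052 2) ndB1q0 ndB1q2b pcB2 cut_pp_022_b Ext.none)

def k0_pp_022_b : ∃ t, chk3 f_pp_022_b t 2 2 1 = true :=
  ⟨(a (b (a (c (a (b (b (a (c (l 16265848) (l 16206648)) (c (l 16280256) (l 16246936))) (a (l 16187408) (l 16222424))) (b (a (l 16152096) (l 16185992)) (l 16031080))) (b (b (c (l 16332336) (l 16284232)) (a (l 16257384) (l 16292256))) (b (l 16235256) (l 16199440)))) (a (a (b (b (c (l 16165160) (a (l 16107320) (l 16133984))) (c (l 16120768) (l 16071544))) (c (l 16123496) (b (l 16025736) (l 15984264)))) (b (b (c (l 16210640) (l 16171376)) (l 16146392)) (b (l 16102296) (l 16061712)))) (b (b (c (l 16275360) (l 16242824))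 (a (l 16193120) (l 16236968))) (b (l 16172376) (l 16130888))))) (c (a (b (b (a (l 16369464) (l 16400464)) (l 16342456)) (b (l 16258704) (l 16261080))) (b (b (l 16360616) (l 16402528)) (l 16341176))) (b (a (b (a (l 16325728) (l 16369168)) (l 16299824)) (b (l 16347328) (l 16381080))) (a (b (l 16256424) (l 16215776)) (l 16229080))))) (a (c (a (b (b (l 16104920) (l 16075944)) (c (l 16058624) (l 16011184))) (b (l 16066464) (l 16090328))) (b (a (a (b (l 15978336) (l 15946416)) (l 15986768)) (l 15948216)) (a (b (l 15813840) (l 15829368)) (l 15967008)))) (c (b (a (l 16124208) (l 16264320)) (l 16169264)) (b (a (l 16156904) (l 16232528)) (a (l 16086600) (l 16159032)))))) (b (a (b (b (a (c (l 16492728) (l 16500688)) (c (l 16533616) (l 476774226823))) (a (l 16450424) (b (l 16511192) (l 16488520)))) (a (c (l 16389456) (l 16379128)) (c (l 16429680) (l 16437464)))) (a (b (b (l 1) (l 470331566679)) (c (l 16459104) (l 16449624))) (b (l 1) (b (l 463352192151) (l 16413984))))) (b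 (a (c (l 16331584) (l 16323376)) (c (l 16381224) (l 16392120))) (a (c (l 16257176) (l 16246040)) (c (l 16302376) (l 16341648)))))), by decide +kernel⟩

def k1_pp_022_b : ∃ t, chk3 f_pp_022_b t 2 3 1 = true :=
  ⟨(a (b (a (c (b (a (l 15986144) (l 16034216)) (a (l 15937656) (l 15978472))) (b (a (b (l 15784608) (l 15763032)) (l 15933096)) (a (a (l 15674800) (l 15855696)) (l 15906232)))) (c (b (l 16105360) (l 16040864)) (b (l 16059328) (l 16001648)))) (a (b (a (c (l 15866328) (b (l 15635152) (l 15761896))) (c (l 15906248) (l 15847072))) (c (a (l 15767720) (l 15812992)) (a (b (l 15718760) (l 15675216)) (l 15766840)))) (b (a (c (l 15928744) (l 15910296)) (l 15982952)) (c (l 15861176) (l 15864584))))) (a (b (b (c (l 16185032) (l 16175232)) (l 16113216)) (b (c (l 15974280) (l 16041736)) (l 15937504))) (b (c (l 16356864) (l 16231768)) (b (l 16055728) (l 15965592))))), by decide +kernel⟩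

def k2_pp_022_b : ∃ t, chk3 f_pp_022_b t 3 1 1 = true :=
  ⟨(b (a (b (l 1) (b (a (c (l 16358744) (l 481068721559)) (l 1)) (a (l 125123835543) (c (l 16269792) (l 15987144))))) (l 1)) (a (b (a (b (l 16357024) (l 16162392)) (b (l 16196752) (l 16148280))) (a (b (l 16082328) (l 15992024)) (b (l 16088784) (l 16017976)))) (b (a (c (l 317323333719) (l 453151186231)) (l 1)) (a (c (l 15838928) (l 16051160)) (l 388726949335))))), by decide +kernel⟩

theorem s3_pp_022_b : ∃ t, chk3 f_pp_022_b t 2 1 1 = true := ex3_b k0_pp_022_b k1_pp_022_b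

theorem s4_pp_022_b : ∃ t, chk3 f_pp_022_b t 1 1 1 = true := ex3_a s3_pp_022_b k2_pp_022_b

theorem c_pp_022_b : CertB 0 536870912 1239849684 370763052 858993459 64424510 3 eng mog cd1q0 cd1q2b pd2 false true true .pp 0 2 2
    ndB1q0 ndB1q2b pcB2 cut_pp_022_b Ext.none :=
  certB0 (fam := false) (s1 := true) (s2 := true) (a := 0) (b := 2) (c := 2) (cn := .pp) (n1 := ndB1q0) (n2 := ndB1q2b) (pc := pcB2) (cut := cut_pp_022_b) (xt := Ext.none) (P1 := 0) (W1 := 536870912) (P2 := 1239849684) (W2 := 370763052) (P3 := 858993459) (W3 := 64424510) (N0 := 3) (En := eng) (mo := mog) (C1 := cd1q0) (C2 := cd1q2b) (C3 := pd2)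
    rfl s4_pp_022_b

noncomputable def f_pp_023 : ℕ → ℕ → ℕ → ℕ → Bool := onCell 1073741824 536870912 1610612736 536870912 858993459 64424510
    (rowB 3 eng mog cd1q0 cd1q3 pd2 2 false true true .up 0 2 3 (qsf 0 536870912 1610612736 536870912 2) ndB1q0 ndB1q3 pcB2 Cut.none Ext.none)

def k0_pp_023 : ∃ t, chk3 f_pp_023 t 1 1 1 = true :=
  ⟨(a (b (a (b (a (b (l 15923216) (l 15874800)) (b (l 15923216) (l 15860728))) (a (l 2) (l 15846976))) (b (a (b (l 15898848) (l 15831768)) (c (l 15636256) (l 15869080))) (a (b (l 15790680) (l 15774264)) (l 15494240)))) (a (l 2) (b (a (l 2) (l 15769272)) (l 2)))) (b (a (b (a (c (l 15779016) (l 15853944)) (b (l 15832488) (l 15773464))) (a (c (l 15700992) (l 15767144)) (l 15728888))) (b (a (b (c (l 15774456) (l 15845952)) (l 15759688)) (b (a (l 15777560) (b (l 15718528) (l 15717784))) (c (l 15700776) (l 15757856)))) (a (l 15726240) (b (l 15711880) (l 15716848))))) (a (b (a (l 15753976) (l 15757296)) (a (l 2) (l 15895776))) (b (a (l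 15768696) (l 15774720)) (a (l 15942936) (l 15997432)))))), by decide +kernel⟩

theorem c_pp_023 : CertB 0 536870912 1610612736 536870912 858993459 64424510 3 eng mog cd1q0 cd1q3 pd2 false true true .up 0 2 3
    ndB1q0 ndB1q3 pcB2 Cut.none Ext.none :=
  certB2 (fam := false) (s1 := true) (s2 := true) (a := 0) (b := 2) (c := 3) (cn := .up) (n1 := ndB1q0) (n2 := ndB1q3) (pc := pcB2) (cut := Cut.none) (xt := Ext.none) (P1 := 0) (W1 := 536870912) (P2 := 1610612736) (W2 := 536870912) (P3 := 858993459) (W3 := 64424510) (N0 := 3) (En := eng) (mo := mog) (C1 := cd1q0) (C2 := cd1q3) (C3 := pd2)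
    rfl (fun _ => rfl) k0_pp_023

noncomputable def f_pp_033 : ℕ → ℕ → ℕ → ℕ → Bool := onCell 0 536870912 1610612736 536870912 858993459 64424510
    (rowB 3 eng mog cd1q0 cd1q3 pd3 1 false true true .pnn 0 3 3 (qsf 0 536870912 1610612736 536870912 3) ndB1q0 ndB1q3 pcB3 Cut.none Ext.none)

def k0_pp_033 : ∃ t, chk3 f_pp_033 t 1 1 1 = true :=
  ⟨(a (b (b (b (b (a (a (a (c (l 15491840) (l 15451032)) (l 15663848)) (c (l 15720320) (l 15667688))) (l 15871360)) (a (a (c (a (l 15500176) (l 15589160)) (l 15656104)) (l 15675896)) (l 15842712))) (a (a (b (c (l 15545144) (l 15474088)) (c (l 15539368) (l 15456992))) (c (l 15691800) (l 15616240))) (b (l 15812944) (l 15784984)))) (b (a (b (a (a (l 15440264) (l 15516736)) (l 15621392)) (a (l 15570336) (l 15607232))) (b (l 15771144) (l 15794544))) (a (b (a (c (l 15506112) (l 15409208)) (l 15608536)) (a (l 15500096) (l 4))) (l 4)))) (a (l 4) (b (l 4) (a (b (l 4) (l 2)) (l 2))))) (b (a (b (b (b (l 15949088) (l 15951240)) (b (l 15985632)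 (l 16035000))) (b (l 4) (l 4))) (b (b (b (l 16171344) (l 16207192)) (b (l 16199944) (l 4))) (a (b (l 4) (l 2)) (l 2)))) (a (b (a (b (l 4) (l 2)) (l 2)) (l 2)) (l 2)))), by decide +kernel⟩

theorem c_pp_033 : CertB 0 536870912 1610612736 536870912 858993459 64424510 3 eng mog cd1q0 cd1q3 pd3 false true true .pnn 0 3 3
    ndB1q0 ndB1q3 pcB3 Cut.none Ext.none :=
  certB1 (fam := false) (s1 := true) (s2 := true) (a := 0) (b := 3) (c := 3) (cn := .pnn) (n1 := ndB1q0) (n2 := ndB1q3) (pc := pcB3) (cut := Cut.none) (xt := Ext.none) (P1 := 0) (W1 := 536870912) (P2 := 1610612736) (W2 := 536870912) (P3 := 858993459) (W3 := 64424510) (N0 := 3) (En := eng) (mo := mog) (C1 := cd1q0) (C2 := cd1q3) (C3 := pd3)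
    rfl (fun _ => rfl) k0_pp_033

noncomputable def f_pp_101 : ℕ → ℕ → ℕ → ℕ → Bool := onCell 536870912 536870912 536870912 536870912 858993459 64424510
    (rowB 3 eng mog cd1q1 cd1q1 pd0 0 false true true .npn 1 0 1 (qsf 536870912 536870912 536870912 536870912 0) ndB1q1 ndB1q1 pcB0 Cut.none Ext.none)

def k0_pp_101 : ∃ t, chk3 f_pp_101 t 1 1 1 = true :=
  ⟨(l 3), by decide +kernel⟩

theorem c_pp_101 : CertB 536870912 536870912 536870912 536870912 858993459 64424510 3 eng mog cd1q1 cd1q1 pd0 false true true .npn 1 0 1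
    ndB1q1 ndB1q1 pcB0 Cut.none Ext.none :=
  certB0 (fam := false) (s1 := true) (s2 := true) (a := 1) (b := 0) (c := 1) (cn := .npn) (n1 := ndB1q1) (n2 := ndB1q1) (pc := pcB0) (cut := Cut.none) (xt := Ext.none) (P1 := 536870912) (W1 := 536870912) (P2 := 536870912) (W2 := 536870912) (P3 := 858993459) (W3 := 64424510) (N0 := 3) (En := eng) (mo := mog) (C1 := cd1q1) (C2 := cd1q1) (C3 := pd0)
    rfl k0_pp_101

noncomputable def f_pp_102_a : ℕ → ℕ → ℕ → ℕ → Bool := onCell 0 536870912 0 536870912 858993459 64424510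
    (rowB 3 eng mog cd1q1 cd1q2a pd0 2 false true true .npp 1 0 2 (qsf 536870912 536870912 0 536870912 0) ndB1q1 ndB1q2a pcB0 Cut.none Ext.none)

def k0_pp_102_a : ∃ t, chk3 f_pp_102_a t 1 1 1 = true :=
  ⟨(b (a (l 3) (l 3)) (l 3)), by decide +kernel⟩

theorem c_pp_102_a : CertB 536870912 536870912 0 536870912 858993459 64424510 3 eng mog cd1q1 cd1q2a pd0 false true true .npp 1 0 2
    ndB1q1 ndB1q2a pcB0 Cut.none Ext.none :=
  certB2 (fam := false) (s1 := true) (s2 := true) (a := 1) (b := 0) (c := 2) (cn := .npp) (n1 := ndB1q1) (n2 := ndB1q2a) (pc := pcB0) (cut := Cut.none) (xt := Ext.none) (P1 := 536870912) (W1 := 536870912) (P2 := 0) (W2 := 536870912) (P3 := 858993459) (W3 := 64424510) (N0 := 3) (En := eng) (mo := mog) (C1 := cd1q1) (C2 := cd1q2a) (C3 := pd0)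
    rfl (fun _ => rfl) k0_pp_102_a

noncomputable def f_pp_102_b : ℕ → ℕ → ℕ → ℕ → Bool := onCell 536870912 536870912 0 536870912 858993459 64424510
    (rowB 3 eng mog cd1q1 cd1q2b pd0 1 false true true .npp 1 0 2 (qsf 536870912 536870912 1239849684 370763052 0) ndB1q1 ndB1q2b pcB0 Cut.none Ext.none)

def k0_pp_102_b : ∃ t, chk3 f_pp_102_b t 1 1 1 = true :=
  ⟨(a (a (l 1) (a (l 3) (l 3))) (l 3)), by decide +kernel⟩

theorem c_pp_102_b : CertB 536870912 536870912 1239849684 370763052 858993459 64424510 3 eng mog cd1q1 cd1q2b pd0 false true true .npp 1 0 2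
    ndB1q1 ndB1q2b pcB0 Cut.none Ext.none :=
  certB1 (fam := false) (s1 := true) (s2 := true) (a := 1) (b := 0) (c := 2) (cn := .npp) (n1 := ndB1q1) (n2 := ndB1q2b) (pc := pcB0) (cut := Cut.none) (xt := Ext.none) (P1 := 536870912) (W1 := 536870912) (P2 := 1239849684) (W2 := 370763052) (P3 := 858993459) (W3 := 64424510) (N0 := 3) (En := eng) (mo := mog) (C1 := cd1q1) (C2 := cd1q2b) (C3 := pd0)
    rfl (fun _ => rfl) k0_pp_102_b

noncomputable def f_pp_112_a : ℕ → ℕ → ℕ → ℕ → Bool := onCell 536870912 536870912 0 536870912 858993459 64424510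
    (rowB 3 eng mog cd1q1 cd1q2a pd1 2 false true true .dn 1 1 2 (qsf 536870912 536870912 0 536870912 1) ndB1q1 ndB1q2a pcB1 Cut.none Ext.none)

def k0_pp_112_a : ∃ t, chk3 f_pp_112_a t 4 1 1 = true :=
  ⟨(b (b (b (a (a (l 3) (c (c (c (b (a (l 87140167639) (c (l 16334848) (l 16382544))) (c (l 126868534375) (l 129016106727))) (a (l 118278754199) (l 93045822631))) (a (l 161228225703) (l 16409008))) (c (c (l 16505072) (l 171966128823)) (a (l 144585060087) (b (l 16371056) (l 16374328)))))) (c (c (c (c (a (b (l 16306560) (a (l 16358616) (l 16323096))) (a (l 16291096) (l 16271848))) (a (b (l 16357992) (l 54391112727)) (l 16335376))) (a (c (b (l 16410488) (l 16426272)) (l 16448456)) (c (l 16390560) (l 16446800)))) (a (b (l 16427784) (l 112372925191)) (c (l 16532184) (l 16636440)))) (c (a (c (l 16610392) (l 16594176)) (c (l 16635104) (l 16569488))) (a (a (b (l 16384128) (l 16375800)) (l 95192866391)) (a (l 16378784) (l 16394304)))))) (a (l 3) (a (a (l 3) (a (l 3) (c (c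 (c (l 111836121159) (l 16454080)) (l 16545128)) (l 143511301223)))) (c (c (c (b (c (a (l 16346520) (l 16309992)) (l 36674342727)) (a (l 3) (l 102709316647))) (a (l 104320068071) (b (l 16435512) (l 16443344)))) (a (l 123647196791) (l 16332528))) (c (a (l 16431240) (l 16445000)) (a (l 134384548839) (l 119888967847))))))) (l 3)) (l 3)), by decide +kernel⟩

def k1_pp_112_a : ∃ t, chk3 f_pp_112_a t 5 1 1 = true :=
  ⟨(b (a (a (b (c (c (c (c (b (a (l 16252872) (l 16234208)) (a (b (l 16290816) (l 73181363319)) (b (l 16271344) (l 16294520)))) (b (l 16364096) (a (l 16392696) (l 16334432)))) (b (a (l 16396968) (l 16381928)) (c (a (l 16401632) (l 16386864)) (l 16488712)))) (b (c (l 16512168) (l 16633000)) (a (l 16391472) (l 16427120)))) (c (b (l 16552784) (c (l 16631600) (l 16562344))) (b (c (l 16465312) (l 16306488)) (a (l 107540923671) (l 16348944))))) (a (l 3) (a (b (a (l 3) (c (c (c (l 117204745143) (l 16428544)) (l 16520176)) (l 144048218439))) (l 1)) (l 1)))) (b (b (l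 1) (l 1)) (l 1))) (l 1)) (b (l 1) (l 1))), by decide +kernel⟩

def k2_pp_112_a : ∃ t, chk3 f_pp_112_a t 3 1 1 = true :=
  ⟨(l 1), by decide +kernel⟩

theorem s3_pp_112_a : ∃ t, chk3 f_pp_112_a t 2 1 1 = true := ex3_a k0_pp_112_a k1_pp_112_a

theorem s4_pp_112_a : ∃ t, chk3 f_pp_112_a t 1 1 1 = true := ex3_a s3_pp_112_a k2_pp_112_a

theorem c_pp_112_a : CertB 536870912 536870912 0 536870912 858993459 64424510 3 eng mog cd1q1 cd1q2a pd1 false true true .dn 1 1 2
    ndB1q1 ndB1q2a pcB1 Cut.none Ext.none :=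
  certB2 (fam := false) (s1 := true) (s2 := true) (a := 1) (b := 1) (c := 2) (cn := .dn) (n1 := ndB1q1) (n2 := ndB1q2a) (pc := pcB1) (cut := Cut.none) (xt := Ext.none) (P1 := 536870912) (W1 := 536870912) (P2 := 0) (W2 := 536870912) (P3 := 858993459) (W3 := 64424510) (N0 := 3) (En := eng) (mo := mog) (C1 := cd1q1) (C2 := cd1q2a) (C3 := pd1)
    rfl (fun _ => rfl) s4_pp_112_a

noncomputable def f_pp_112_b : ℕ → ℕ → ℕ → ℕ → Bool := onCell 536870912 536870912 1239849684 370763052 858993459 64424510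
    (rowB 3 eng mog cd1q1 cd1q2b pd1 2 false true true .dn 1 1 2 (qsf 536870912 536870912 1239849684 370763052 1) ndB1q1 ndB1q2b pcB1 Cut.none Ext.none)

def k0_pp_112_b : ∃ t, chk3 f_pp_112_b t 4 2 1 = true :=
  ⟨(a (a (b (b (l 3) (l 3)) (l 3)) (b (c (c (c (b (a (b (l 16379832) (l 16342936)) (c (l 16311072) (l 16358312))) (a (l 16315408) (l 16306280))) (b (a (l 16420528) (l 16431088)) (l 16372936))) (b (c (l 16448520) (l 16623568)) (c (l 16439504) (l 16570960)))) (b (b (c (l 16403432) (a (l 16442408) (l 16431440))) (a (l 135995166871) (l 16337304))) (c (l 16561320) (l 16354752)))) (b (a (l 3) (c (c (l 16308392) (l 16401328)) (l 16455384))) (l 3)))) (c (b (c (c (a (b (c (b (l 16287008) (l 16275768)) (l 16333168)) (l 16302968)) (b (c (b (l 16249152) (l 16238624)) (l 16300296)) (l 16248704))) (b (a (c (l 16385816) (l 16439560)) (l 16512944)) (a (l 16377352) (l 16355344)))) (c (a (b (l 16521624) (l 16477312)) (b (l 16465336) (l 16467616))) (a (b (l 16627888) (l 16580264))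 (l 16398976)))) (a (c (b (c (l 16255224) (l 16338048)) (c (l 16224728) (l 16293488))) (c (b (l 16425448) (l 16366416)) (l 16481376))) (c (c (b (l 16224632) (l 16200352)) (l 16344064)) (c (l 16396080) (l 16495224))))) (b (c (a (b (c (l 16645368) (l 16569568)) (l 16668616)) (b (l 16498896) (l 16694728))) (b (a (a (l 16299760) (l 16308872)) (c (l 16487544) (l 16343096))) (a (l 16421384) (l 16413504)))) (c (a (b (l 16657320) (l 16565904)) (b (l 16691080) (l 16607288))) (a (b (l 16644056) (l 16697064)) (b (l 16623320) (l 16710240))))))), by decide +kernel⟩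

def k1_pp_112_b : ∃ t, chk3 f_pp_112_b t 4 3 1 = true :=
  ⟨(a (l 3) (a (b (a (l 3) (c (c (l 16384512) (l 124183388743)) (b (l 16344544) (l 16244352)))) (l 3)) (b (c (c (b (l 16208544) (l 16174088)) (b (l 16349368) (l 16279504))) (c (b (l 16507880) (l 16378640)) (b (l 16682272) (l 16534312)))) (c (c (b (l 16136224) (l 16095976)) (l 180555681799)) (b (c (l 16285488) (l 16251216)) (c (l 16167688) (l 16215088))))))), by decide +kernel⟩

def k2_pp_112_b : ∃ t, chk3 f_pp_112_b t 5 2 1 = true :=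
  ⟨(c (a (b (c (c (b (a (a (l 16246128) (l 16229144)) (c (l 165925551463) (l 16233848))) (a (l 16237528) (l 16182864))) (a (b (l 16423336) (l 16332056)) (b (l 16329968) (l 16304896)))) (c (a (b (l 16488952) (l 16454048)) (b (l 16464200) (l 16434008))) (a (l 16457096) (l 16463424)))) (c (a (b (c (l 16194544) (l 16300352)) (l 16302736)) (b (c (l 16162704) (l 16276608)) (l 16193912))) (c (a (l 16390256) (l 16377744)) (a (l 16397488) (l 16499928))))) (b (b (a (a (b (l 1) (c (l 170220642871) (l 16504624))) (l 1)) (l 1)) (c (a (c (l 16144800) (l 16271224)) (c (l 16104712) (l 16232768))) (a (l 16243976) (l 16228864)))) (c (c (a (b (l 16126336) (l 16108648)) (b (l 16087896) (l 16071816))) (a (l 16233432) (l 16199488))) (c (a (l 16355864) (l 16325712)) (a (l 16485112) (l 16458352)))))) (b (a (a (c (b (l 16547448) (l 16725720)) (b (c (l 16478456) (l 16314144)) (l 16408584))) (c (b (l 16602832) (l 16762240)) (b (l 16200104) (l 16418320)))) (a (c (l 189548381111) (b (l 16267904)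 (l 16471528))) (c (l 187400933367) (c (l 16501920) (l 16238832))))) (a (c (a (b (l 16718632) (l 16640696)) (l 16569472)) (a (b (l 16588472) (l 16687536)) (b (l 16549392) (l 16627040)))) (c (c (l 16608792) (l 16696664)) (a (c (l 16606400) (l 16367680)) (b (l 16445680) (l 16522056))))))), by decide +kernel⟩

def k3_pp_112_b : ∃ t, chk3 f_pp_112_b t 5 3 1 = true :=
  ⟨(a (c (b (c (a (c (l 16143080) (l 16213800)) (c (l 16117928) (l 16200344))) (a (b (l 16359656) (l 16297408)) (b (l 16361904) (l 16306912)))) (c (a (b (l 16135496) (l 16107240)) (l 16220304)) (a (b (l 16232088) (l 16164224)) (l 16262784)))) (b (c (a (b (l 16550336) (l 16450992)) (l 16535984)) (a (l 16515864) (l 16708712))) (a (c (b (l 16344472) (l 16233024)) (b (l 16472632) (l 16250720))) (c (b (l 16395104) (l 16293616)) (b (l 16561200) (l 16413904)))))) (c (b (c (a (c (l 16087024) (l 16179048)) (c (l 16052944) (l 16151576))) (a (b (l 16352808) (l 16304864)) (b (l 16332680) (l 16290960)))) (c (a (l 16099728)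 (l 16077088)) (a (l 16231248) (l 16228824)))) (b (c (a (l 16551616) (l 16545304)) (a (l 16676576) (l 16601104))) (a (b (l 16525464) (l 16416544)) (b (l 16546384) (l 16456928)))))), by decide +kernel⟩

def k4_pp_112_b : ∃ t, chk3 f_pp_112_b t 3 1 1 = true :=
  ⟨(a (a (b (b (l 1) (c (c (c (a (l 170757329223) (l 184715898311)) (a (l 16163504) (l 16126944))) (a (c (l 16289808) (l 16421968)) (l 218538479607))) (c (c (l 16533544) (l 16629040)) (c (l 16466000) (l 205653850759))))) (c (c (b (c (l 16172000) (l 16105680)) (a (l 16050992) (l 16023704))) (b (a (l 16034240) (l 16357120)) (a (l 16214424) (l 16189736)))) (b (c (c (l 16443976) (l 16554624)) (a (l 16491448) (l 16474208))) (c (a (l 16402128) (l 16376464)) (b (l 16558864) (l 16542208)))))) (b (a (b (l 1) (b (l 1) (c (c (l 16027208) (l 16254224)) (l 16351536)))) (l 1)) (c (c (b (c (l 15948592) (l 16041432)) (c (l 15948432) (l 16019688))) (b (c (l 16140240) (l 16243912)) (l 16347504))) (b (c (c (l 16350344) (l 16454976))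 (a (l 16424024) (l 16383144))) (c (l 16309184) (l 16287248)))))) (b (l 1) (b (b (l 1) (a (c (a (l 16235528) (l 16114704)) (c (l 16253352) (l 16317936))) (l 1))) (a (c (c (l 16100272) (l 16217600)) (c (l 16188392) (l 16273240))) (c (a (c (l 15898072) (l 15974168)) (l 221759934679)) (c (l 200822278791) (l 15898504))))))), by decide +kernel⟩

theorem s5_pp_112_b : ∃ t, chk3 f_pp_112_b t 5 1 1 = true := ex3_b k2_pp_112_b k3_pp_112_b

theorem s6_pp_112_b : ∃ t, chk3 f_pp_112_b t 4 1 1 = true := ex3_b k0_pp_112_b k1_pp_112_b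

theorem s7_pp_112_b : ∃ t, chk3 f_pp_112_b t 2 1 1 = true := ex3_a s6_pp_112_b s5_pp_112_b

theorem s8_pp_112_b : ∃ t, chk3 f_pp_112_b t 1 1 1 = true := ex3_a s7_pp_112_b k4_pp_112_b

theorem c_pp_112_b : CertB 536870912 536870912 1239849684 370763052 858993459 64424510 3 eng mog cd1q1 cd1q2b pd1 false true true .dn 1 1 2
    ndB1q1 ndB1q2b pcB1 Cut.none Ext.none :=
  certB2 (fam := false) (s1 := true) (s2 := true) (a := 1) (b := 1) (c := 2) (cn := .dn) (n1 := ndB1q1) (n2 := ndB1q2b) (pc := pcB1) (cut := Cut.none) (xt := Ext.none) (P1 := 536870912) (W1 := 536870912) (P2 := 1239849684) (W2 := 370763052) (P3 := 858993459) (W3 := 64424510) (N0 := 3) (En := eng) (mo := mog) (C1 := cd1q1) (C2 := cd1q2b) (C3 := pd1)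
    rfl (fun _ => rfl) s8_pp_112_b

noncomputable def f_pp_113 : ℕ → ℕ → ℕ → ℕ → Bool := onCell 536870912 536870912 536870912 536870912 858993459 64424510
    (rowB 3 eng mog cd1q1 cd1q3 pd1 1 false true true .nn 1 1 3 (qsf 536870912 536870912 1610612736 536870912 1) ndB1q1 ndB1q3 pcB1 Cut.none Ext.none)

def k0_pp_113 : ∃ t, chk3 f_pp_113 t 2 1 1 = true :=
  ⟨(b (b (l 1) (b (l 1) (b (l 1) (a (l 1) (a (l 1) (c (l 223907971239) (l 16512824))))))) (a (b (a (l 1) (a (l 1) (b (l 1) (c (l 228202748375) (l 16277512))))) (b (c (c (l 214780763703) (l 172368198615)) (c (l 124586843783) (l 179347007495))) (c (a (c (l 15866440) (l 15895096)) (l 16053280)) (a (c (l 257729443863) (l 16046472)) (b (l 16005072) (l 15834984)))))) (b (c (c (b (a (l 16224808) (l 16036496)) (a (l 15984864) (l 16021544))) (b (a (l 16298432) (l 16172288)) (l 127271166039))) (b (c (a (l 16418712) (l 16147840)) (a (l 16615576) (l 16525856))) (c (a (l 16266992) (l 16219768)) (a (l 16428920) (l 16354016)))))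 (b (c (a (l 171831302567) (l 16056416)) (a (c (l 16091816) (l 16185448)) (l 16107168))) (c (a (l 15943744) (l 16086008)) (a (l 15869704) (l 15878968))))))), by decide +kernel⟩

def k1_pp_113 : ∃ t, chk3 f_pp_113 t 3 1 1 = true :=
  ⟨(b (b (a (a (l 1) (a (l 1) (a (l 1) (l 3)))) (l 3)) (a (a (b (a (l 1) (b (l 1) (c (l 16151152) (l 16377160)))) (c (b (c (l 16088472) (l 16195376)) (l 16263632)) (c (l 120291096743) (l 16461328)))) (b (c (b (c (l 16100520) (l 16152920)) (c (l 16083984) (l 16134688))) (b (c (l 16217728) (l 16168976)) (c (l 16200088) (l 16279936)))) (c (b (l 16263640) (l 16094208)) (c (l 16305224) (l 16259752))))) (a (b (c (b (l 204714682999) (c (l 16052224) (l 16045344))) (b (a (l 16108984) (l 3)) (c (l 16046688) (l 16056288)))) (c (b (l 16054680) (l 16079504)) (b (c (l 16044728) (l 16052472)) (l 16052160)))) (b (b (l 3) (c (l 205251342551) (l 275581242167))) (b (c (l 148343076855) (a (l 15918888) (l 15839560))) (c (l 16068264) (l 15902144))))))) (b (a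 (b (c (a (c (l 16060760) (l 16143168)) (b (l 16106656) (l 16137224))) (a (c (l 16253096) (l 16390544)) (b (l 16287440) (l 16201840)))) (c (a (l 16136688) (l 16227248)) (a (c (l 16196800) (l 16285360)) (l 16216720)))) (b (c (a (b (l 16128832) (l 16210232)) (b (l 16164984) (l 16318256))) (a (b (l 16070560) (l 16110392)) (b (l 15949496) (l 16037568)))) (c (a (l 16417256) (l 16657488)) (a (l 16233968) (l 16307520))))) (b (a (c (a (l 16199560) (l 16469152)) (a (l 16140600) (l 16280904))) (c (a (l 16861688) (l 16752440)) (a (l 16603544) (l 16641888)))) (a (c (a (l 16374936) (l 16946008)) (a (l 16011176) (l 16400864))) (a (b (l 16939984) (l 16817800)) (b (l 16783368) (l 16835312))))))), by decide +kernel⟩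

theorem s2_pp_113 : ∃ t, chk3 f_pp_113 t 1 1 1 = true := ex3_a k0_pp_113 k1_pp_113

theorem c_pp_113 : CertB 536870912 536870912 1610612736 536870912 858993459 64424510 3 eng mog cd1q1 cd1q3 pd1 false true true .nn 1 1 3
    ndB1q1 ndB1q3 pcB1 Cut.none Ext.none :=
  certB1 (fam := false) (s1 := true) (s2 := true) (a := 1) (b := 1) (c := 3) (cn := .nn) (n1 := ndB1q1) (n2 := ndB1q3) (pc := pcB1) (cut := Cut.none) (xt := Ext.none) (P1 := 536870912) (W1 := 536870912) (P2 := 1610612736) (W2 := 536870912) (P3 := 858993459) (W3 := 64424510) (N0 := 3) (En := eng) (mo := mog) (C1 := cd1q1) (C2 := cd1q3) (C3 := pd1)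
    rfl (fun _ => rfl) s2_pp_113

noncomputable def f_pp_123 : ℕ → ℕ → ℕ → ℕ → Bool := onCell 536870912 536870912 1073741824 536870912 858993459 64424510
    (rowB 3 eng mog cd1q1 cd1q3 pd2 1 false true true .npn 1 2 3 (qsf 536870912 536870912 1610612736 536870912 2) ndB1q1 ndB1q3 pcB2 Cut.none Ext.none)

def k0_pp_123 : ∃ t, chk3 f_pp_123 t 1 1 1 = true :=
  ⟨(a (b (b (a (c (b (a (l 15841096) (l 15876552)) (a (l 15854600) (l 15909424))) (b (a (l 15911216) (l 15853848)) (a (l 15846808) (l 15812536)))) (c (b (a (l 15971328) (l 16165736)) (l 16117128)) (b (a (l 15831872) (l 15886992)) (a (l 15830408) (l 15943272))))) (a (c (b (a (l 15864168) (l 15941504)) (l 15956552)) (b (a (l 15763880) (l 15750624)) (l 15701480))) (c (b (l 16150776) (a (l 16198440) (l 16301392))) (b (l 15873416) (a (l 15816120) (l 15965728)))))) (a (b (c (b (l 15921896) (a (l 16152792) (l 16268576))) (b (l 15692200) (a (l 15699096) (l 15814304)))) (b (c (a (l 16321192) (l 16371320)) (a (l 15827976)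 (l 15946352))) (a (c (l 16472120) (l 15998984)) (b (l 16297920) (l 2))))) (b (b (a (c (l 16259520) (l 15857800)) (c (l 16280848) (l 15989752))) (a (c (l 16305600) (l 15941520)) (c (l 16352200) (l 16067720)))) (a (b (c (l 16442112) (l 16080064)) (l 2)) (l 2))))) (b (a (b (b (a (l 16296632) (l 16658552)) (a (l 16402640) (l 16491104))) (b (a (l 16277304) (c (l 16336664) (l 16222576))) (a (c (l 16303528) (l 16096904)) (a (l 16250832) (l 2))))) (b (b (a (l 16743592) (l 16696856)) (a (l 16502792) (c (l 16414896) (l 16501168)))) (a (b (b (l 16316352) (l 2)) (l 2)) (l 2)))) (a (b (a (b (b (l 16204448) (l 2)) (l 2)) (l 2)) (l 2)) (l 2)))), by decide +kernel⟩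

theorem c_pp_123 : CertB 536870912 536870912 1610612736 536870912 858993459 64424510 3 eng mog cd1q1 cd1q3 pd2 false true true .npn 1 2 3
    ndB1q1 ndB1q3 pcB2 Cut.none Ext.none :=
  certB1 (fam := false) (s1 := true) (s2 := true) (a := 1) (b := 2) (c := 3) (cn := .npn) (n1 := ndB1q1) (n2 := ndB1q3) (pc := pcB2) (cut := Cut.none) (xt := Ext.none) (P1 := 536870912) (W1 := 536870912) (P2 := 1610612736) (W2 := 536870912) (P3 := 858993459) (W3 := 64424510) (N0 := 3) (En := eng) (mo := mog) (C1 := cd1q1) (C2 := cd1q3) (C3 := pd2)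
    rfl (fun _ => rfl) k0_pp_123

noncomputable def f_pp_133 : ℕ → ℕ → ℕ → ℕ → Bool := onCell 536870912 536870912 1610612736 536870912 858993459 64424510
    (rowB 3 eng mog cd1q1 cd1q3 pd3 0 false true true .dn 1 3 3 (qsf 536870912 536870912 1610612736 536870912 3) ndB1q1 ndB1q3 pcB3 Cut.none Ext.none)

def k0_pp_133 : ∃ t, chk3 f_pp_133 t 1 1 1 = true :=
  ⟨(a (b (l 1) (a (b (l 1) (b (l 1) (a (c (l 16675496) (l 529924291591)) (l 1)))) (l 1))) (l 1)), by decide +kernel⟩

theorem c_pp_133 : CertB 536870912 536870912 1610612736 536870912 858993459 64424510 3 eng mog cd1q1 cd1q3 pd3 false true true .dn 1 3 3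
    ndB1q1 ndB1q3 pcB3 Cut.none Ext.none :=
  certB0 (fam := false) (s1 := true) (s2 := true) (a := 1) (b := 3) (c := 3) (cn := .dn) (n1 := ndB1q1) (n2 := ndB1q3) (pc := pcB3) (cut := Cut.none) (xt := Ext.none) (P1 := 536870912) (W1 := 536870912) (P2 := 1610612736) (W2 := 536870912) (P3 := 858993459) (W3 := 64424510) (N0 := 3) (En := eng) (mo := mog) (C1 := cd1q1) (C2 := cd1q3) (C3 := pd3)
    rfl k0_pp_133

noncomputable def f_pp_202_aa : ℕ → ℕ → ℕ → ℕ → Bool := onCell 0 536870912 0 536870912 858993459 64424510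
    (rowB 3 eng mog cd1q2a cd1q2a pd0 0 false true true .pp 2 0 2 (qsf 0 536870912 0 536870912 0) ndB1q2a ndB1q2a pcB0 Cut.none Ext.none)

def k0_pp_202_aa : ∃ t, chk3 f_pp_202_aa t 1 1 1 = true :=
  ⟨(l 3), by decide +kernel⟩

theorem c_pp_202_aa : CertB 0 536870912 0 536870912 858993459 64424510 3 eng mog cd1q2a cd1q2a pd0 false true true .pp 2 0 2
    ndB1q2a ndB1q2a pcB0 Cut.none Ext.none :=
  certB0 (fam := false) (s1 := true) (s2 := true) (a := 2) (b := 0) (c := 2) (cn := .pp) (n1 := ndB1q2a) (n2 := ndB1q2a) (pc := pcB0) (cut := Cut.none) (xt := Ext.none) (P1 := 0) (W1 := 536870912) (P2 := 0) (W2 := 536870912) (P3 := 858993459) (W3 := 64424510) (N0 := 3) (En := eng) (mo := mog) (C1 := cd1q2a) (C2 := cd1q2a) (C3 := pd0)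
    rfl k0_pp_202_aa

noncomputable def f_pp_202_ab : ℕ → ℕ → ℕ → ℕ → Bool := onCell 0 536870912 1239849684 370763052 858993459 64424510
    (rowB 3 eng mog cd1q2a cd1q2b pd0 0 false true true .pp 2 0 2 (qsf 0 536870912 1239849684 370763052 0) ndB1q2a ndB1q2b pcB0 Cut.none Ext.none)

def k0_pp_202_ab : ∃ t, chk3 f_pp_202_ab t 1 1 1 = true :=
  ⟨(l 3), by decide +kernel⟩

theorem c_pp_202_ab : CertB 0 536870912 1239849684 370763052 858993459 64424510 3 eng mog cd1q2a cd1q2b pd0 false true true .pp 2 0 2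
    ndB1q2a ndB1q2b pcB0 Cut.none Ext.none :=
  certB0 (fam := false) (s1 := true) (s2 := true) (a := 2) (b := 0) (c := 2) (cn := .pp) (n1 := ndB1q2a) (n2 := ndB1q2b) (pc := pcB0) (cut := Cut.none) (xt := Ext.none) (P1 := 0) (W1 := 536870912) (P2 := 1239849684) (W2 := 370763052) (P3 := 858993459) (W3 := 64424510) (N0 := 3) (En := eng) (mo := mog) (C1 := cd1q2a) (C2 := cd1q2b) (C3 := pd0)
    rfl k0_pp_202_ab

noncomputable def f_pp_202_ba : ℕ → ℕ → ℕ → ℕ → Bool := onCell 1239849684 370763052 0 536870912 858993459 64424510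
    (rowB 3 eng mog cd1q2b cd1q2a pd0 0 false true true .pp 2 0 2 (qsf 1239849684 370763052 0 536870912 0) ndB1q2b ndB1q2a pcB0 Cut.none Ext.none)

def k0_pp_202_ba : ∃ t, chk3 f_pp_202_ba t 1 1 1 = true :=
  ⟨(l 3), by decide +kernel⟩

theorem c_pp_202_ba : CertB 1239849684 370763052 0 536870912 858993459 64424510 3 eng mog cd1q2b cd1q2a pd0 false true true .pp 2 0 2
    ndB1q2b ndB1q2a pcB0 Cut.none Ext.none :=
  certB0 (fam := false) (s1 := true) (s2 := true) (a := 2) (b := 0) (c := 2) (cn := .pp) (n1 := ndB1q2b) (n2 := ndB1q2a) (pc := pcB0) (cut := Cut.none) (xt := Ext.none) (P1 := 1239849684) (W1 := 370763052) (P2 := 0) (W2 := 536870912) (P3 := 858993459) (W3 := 64424510) (N0 := 3) (En := eng) (mo := mog) (C1 := cd1q2b) (C2 := cd1q2a) (C3 := pd0)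
    rfl k0_pp_202_ba

noncomputable def f_pp_202_bb : ℕ → ℕ → ℕ → ℕ → Bool := onCell 1239849684 370763052 1239849684 370763052 858993459 64424510
    (rowB 3 eng mog cd1q2b cd1q2b pd0 0 false true true .pp 2 0 2 (qsf 1239849684 370763052 1239849684 370763052 0) ndB1q2b ndB1q2b pcB0 Cut.none Ext.none)

def k0_pp_202_bb : ∃ t, chk3 f_pp_202_bb t 1 1 1 = true :=
  ⟨(l 3), by decide +kernel⟩

theorem c_pp_202_bb : CertB 1239849684 370763052 1239849684 370763052 858993459 64424510 3 eng mog cd1q2b cd1q2b pd0 false true true .pp 2 0 2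
    ndB1q2b ndB1q2b pcB0 Cut.none Ext.none :=
  certB0 (fam := false) (s1 := true) (s2 := true) (a := 2) (b := 0) (c := 2) (cn := .pp) (n1 := ndB1q2b) (n2 := ndB1q2b) (pc := pcB0) (cut := Cut.none) (xt := Ext.none) (P1 := 1239849684) (W1 := 370763052) (P2 := 1239849684) (W2 := 370763052) (P3 := 858993459) (W3 := 64424510) (N0 := 3) (En := eng) (mo := mog) (C1 := cd1q2b) (C2 := cd1q2b) (C3 := pd0)
    rfl k0_pp_202_bb

noncomputable def f_pp_203_a : ℕ → ℕ → ℕ → ℕ → Bool := onCell 0 536870912 0 536870912 858993459 64424510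
    (rowB 3 eng mog cd1q2a cd1q3 pd0 1 false true true .up 2 0 3 (qsf 0 536870912 1610612736 536870912 0) ndB1q2a ndB1q3 pcB0 Cut.none Ext.none)

def k0_pp_203_a : ∃ t, chk3 f_pp_203_a t 1 1 1 = true :=
  ⟨(l 3), by decide +kernel⟩

theorem c_pp_203_a : CertB 0 536870912 1610612736 536870912 858993459 64424510 3 eng mog cd1q2a cd1q3 pd0 false true true .up 2 0 3
    ndB1q2a ndB1q3 pcB0 Cut.none Ext.none :=
  certB1 (fam := false) (s1 := true) (s2 := true) (a := 2) (b := 0) (c := 3) (cn := .up) (n1 := ndB1q2a) (n2 := ndB1q3) (pc := pcB0) (cut := Cut.none) (xt := Ext.none) (P1 := 0) (W1 := 536870912) (P2 := 1610612736) (W2 := 536870912) (P3 := 858993459) (W3 := 64424510) (N0 := 3) (En := eng) (mo := mog) (C1 := cd1q2a) (C2 := cd1q3) (C3 := pd0)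
    rfl (fun _ => rfl) k0_pp_203_a

noncomputable def f_pp_203_b : ℕ → ℕ → ℕ → ℕ → Bool := onCell 1239849684 370763052 1610612736 536870912 858993459 64424510
    (rowB 3 eng mog cd1q2b cd1q3 pd0 0 false true true .up 2 0 3 (qsf 1239849684 370763052 1610612736 536870912 0) ndB1q2b ndB1q3 pcB0 Cut.none Ext.none)

def k0_pp_203_b : ∃ t, chk3 f_pp_203_b t 1 1 1 = true :=
  ⟨(l 3), by decide +kernel⟩

theorem c_pp_203_b : CertB 1239849684 370763052 1610612736 536870912 858993459 64424510 3 eng mog cd1q2b cd1q3 pd0 false true true .up 2 0 3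
    ndB1q2b ndB1q3 pcB0 Cut.none Ext.none :=
  certB0 (fam := false) (s1 := true) (s2 := true) (a := 2) (b := 0) (c := 3) (cn := .up) (n1 := ndB1q2b) (n2 := ndB1q3) (pc := pcB0) (cut := Cut.none) (xt := Ext.none) (P1 := 1239849684) (W1 := 370763052) (P2 := 1610612736) (W2 := 536870912) (P3 := 858993459) (W3 := 64424510) (N0 := 3) (En := eng) (mo := mog) (C1 := cd1q2b) (C2 := cd1q3) (C3 := pd0)
    rfl k0_pp_203_b

noncomputable def cut_pp_213_a : Cut := Cut.of [[⟨0, 1, 0, 67108864⟩, ⟨1, 1, 0, 67108864⟩, ⟨2, 2, 0, 16777216⟩]]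

noncomputable def f_pp_213_a : ℕ → ℕ → ℕ → ℕ → Bool := onCell 0 536870912 1610612736 536870912 858993459 64424510
    (rowB 3 eng mog cd1q2a cd1q3 pd1 0 false true true .pnn 2 1 3 (qsf 0 536870912 1610612736 536870912 1) ndB1q2a ndB1q3 pcB1 cut_pp_213_a Ext.none)

def k0_pp_213_a : ∃ t, chk3 f_pp_213_a t 1 1 1 = true :=
  ⟨(b (l 3) (b (l 3) (a (l 3) (a (l 3) (b (l 3) (a (l 3) (b (l 3) (b (l 3) (b (l 3) (l 6)))))))))), by decide +kernel⟩

theorem c_pp_213_a : CertB 0 536870912 1610612736 536870912 858993459 64424510 3 eng mog cd1q2a cd1q3 pd1 false true true .pnn 2 1 3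
    ndB1q2a ndB1q3 pcB1 cut_pp_213_a Ext.none :=
  certB0 (fam := false) (s1 := true) (s2 := true) (a := 2) (b := 1) (c := 3) (cn := .pnn) (n1 := ndB1q2a) (n2 := ndB1q3) (pc := pcB1) (cut := cut_pp_213_a) (xt := Ext.none) (P1 := 0) (W1 := 536870912) (P2 := 1610612736) (W2 := 536870912) (P3 := 858993459) (W3 := 64424510) (N0 := 3) (En := eng) (mo := mog) (C1 := cd1q2a) (C2 := cd1q3) (C3 := pd1)
    rfl k0_pp_213_a

noncomputable def cut_pp_213_b : Cut := Cut.of [[⟨0, 1, 0, 67108864⟩, ⟨1, 1, 0, 67108864⟩, ⟨2, 2, 0, 16777216⟩]]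

noncomputable def f_pp_213_b : ℕ → ℕ → ℕ → ℕ → Bool := onCell 1239849684 370763052 1610612736 536870912 858993459 64424510
    (rowB 3 eng mog cd1q2b cd1q3 pd1 0 false true true .pnn 2 1 3 (qsf 1239849684 370763052 1610612736 536870912 1) ndB1q2b ndB1q3 pcB1 cut_pp_213_b Ext.none)

def k0_pp_213_b : ∃ t, chk3 f_pp_213_b t 1 1 1 = true :=
  ⟨(l 3), by decide +kernel⟩

theorem c_pp_213_b : CertB 1239849684 370763052 1610612736 536870912 858993459 64424510 3 eng mog cd1q2b cd1q3 pd1 false true true .pnn 2 1 3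
    ndB1q2b ndB1q3 pcB1 cut_pp_213_b Ext.none :=
  certB0 (fam := false) (s1 := true) (s2 := true) (a := 2) (b := 1) (c := 3) (cn := .pnn) (n1 := ndB1q2b) (n2 := ndB1q3) (pc := pcB1) (cut := cut_pp_213_b) (xt := Ext.none) (P1 := 1239849684) (W1 := 370763052) (P2 := 1610612736) (W2 := 536870912) (P3 := 858993459) (W3 := 64424510) (N0 := 3) (En := eng) (mo := mog) (C1 := cd1q2b) (C2 := cd1q3) (C3 := pd1)
    rfl k0_pp_213_b

noncomputable def f_pp_303 : ℕ → ℕ → ℕ → ℕ → Bool := onCell 1610612736 536870912 1610612736 536870912 858993459 64424510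
    (rowB 3 eng mog cd1q3 cd1q3 pd0 0 false true true .npn 3 0 3 (qsf 1610612736 536870912 1610612736 536870912 0) ndB1q3 ndB1q3 pcB0 Cut.none Ext.none)

def k0_pp_303 : ∃ t, chk3 f_pp_303 t 1 1 1 = true :=
  ⟨(l 3), by decide +kernel⟩

theorem c_pp_303 : CertB 1610612736 536870912 1610612736 536870912 858993459 64424510 3 eng mog cd1q3 cd1q3 pd0 false true true .npn 3 0 3
    ndB1q3 ndB1q3 pcB0 Cut.none Ext.none :=
  certB0 (fam := false) (s1 := true) (s2 := true) (a := 3) (b := 0) (c := 3) (cn := .npn) (n1 := ndB1q3) (n2 := ndB1q3) (pc := pcB0) (cut := Cut.none) (xt := Ext.none) (P1 := 1610612736) (W1 := 536870912) (P2 := 1610612736) (W2 := 536870912) (P3 := 858993459) (W3 := 64424510) (N0 := 3) (En := eng) (mo := mog) (C1 := cd1q3) (C2 := cd1q3) (C3 := pd0)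
    rfl k0_pp_303

noncomputable def f_pp_313 : ℕ → ℕ → ℕ → ℕ → Bool := onCell 1610612736 536870912 1610612736 536870912 858993459 64424510
    (rowB 3 eng mog cd1q3 cd1q3 pd1 0 false true true .dn 3 1 3 (qsf 1610612736 536870912 1610612736 536870912 1) ndB1q3 ndB1q3 pcB1 Cut.none Ext.none)

def k0_pp_313 : ∃ t, chk3 f_pp_313 t 1 1 1 = true :=
  ⟨(l 3), by decide +kernel⟩

theorem c_pp_313 : CertB 1610612736 536870912 1610612736 536870912 858993459 64424510 3 eng mog cd1q3 cd1q3 pd1 false true true .dn 3 1 3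
    ndB1q3 ndB1q3 pcB1 Cut.none Ext.none :=
  certB0 (fam := false) (s1 := true) (s2 := true) (a := 3) (b := 1) (c := 3) (cn := .dn) (n1 := ndB1q3) (n2 := ndB1q3) (pc := pcB1) (cut := Cut.none) (xt := Ext.none) (P1 := 1610612736) (W1 := 536870912) (P2 := 1610612736) (W2 := 536870912) (P3 := 858993459) (W3 := 64424510) (N0 := 3) (En := eng) (mo := mog) (C1 := cd1q3) (C2 := cd1q3) (C3 := pd1)
    rfl k0_pp_313

noncomputable def f_pm_001 : ℕ → ℕ → ℕ → ℕ → Bool := onCell 0 536870912 536870912 536870912 858993459 64424510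
    (rowB 3 eng mog cd1q0 cd1q1 pd0 0 false true false .up 0 0 1 (qsf 0 536870912 536870912 536870912 0) ndB1q0 ndB1q1 pcB0 Cut.none Ext.none)

def k0_pm_001 : ∃ t, chk3 f_pm_001 t 1 1 1 = true :=
  ⟨(l 4), by decide +kernel⟩

theorem c_pm_001 : CertB 0 536870912 536870912 536870912 858993459 64424510 3 eng mog cd1q0 cd1q1 pd0 false true false .up 0 0 1
    ndB1q0 ndB1q1 pcB0 Cut.none Ext.none :=
  certB0 (fam := false) (s1 := true) (s2 := false) (a := 0) (b := 0) (c := 1) (cn := .up) (n1 := ndB1q0) (n2 := ndB1q1) (pc := pcB0) (cut := Cut.none) (xt := Ext.none) (P1 := 0) (W1 := 536870912) (P2 := 536870912) (W2 := 536870912) (P3 := 858993459) (W3 := 64424510) (N0 := 3) (En := eng) (mo := mog) (C1 := cd1q0) (C2 := cd1q1) (C3 := pd0)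
    rfl k0_pm_001

noncomputable def f_pm_011 : ℕ → ℕ → ℕ → ℕ → Bool := onCell 0 536870912 536870912 536870912 858993459 64424510
    (rowB 3 eng mog cd1q0 cd1q1 pd1 0 false true false .pnn 0 1 1 (qsf 0 536870912 536870912 536870912 1) ndB1q0 ndB1q1 pcB1 Cut.none Ext.none)

def k0_pm_011 : ∃ t, chk3 f_pm_011 t 1 1 1 = true :=
  ⟨(l 4), by decide +kernel⟩

theorem c_pm_011 : CertB 0 536870912 536870912 536870912 858993459 64424510 3 eng mog cd1q0 cd1q1 pd1 false true false .pnn 0 1 1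
    ndB1q0 ndB1q1 pcB1 Cut.none Ext.none :=
  certB0 (fam := false) (s1 := true) (s2 := false) (a := 0) (b := 1) (c := 1) (cn := .pnn) (n1 := ndB1q0) (n2 := ndB1q1) (pc := pcB1) (cut := Cut.none) (xt := Ext.none) (P1 := 0) (W1 := 536870912) (P2 := 536870912) (W2 := 536870912) (P3 := 858993459) (W3 := 64424510) (N0 := 3) (En := eng) (mo := mog) (C1 := cd1q0) (C2 := cd1q1) (C3 := pd1)
    rfl k0_pm_011

noncomputable def cut_pm_012_a : Cut := Cut.of [[⟨0, 0, 0, 67108864⟩, ⟨1, 1, 0, 67108864⟩, ⟨2, 1, 0, 67108864⟩]]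

noncomputable def f_pm_012_a : ℕ → ℕ → ℕ → ℕ → Bool := onCell 536870912 536870912 0 536870912 858993459 64424510
    (rowB 3 eng mog cd1q0 cd1q2a pd1 2 false true false .pnp 0 1 2 (qsf 0 536870912 0 536870912 1) ndB1q0 ndB1q2a pcB1 cut_pm_012_a Ext.none)

def k0_pm_012_a : ∃ t, chk3 f_pm_012_a t 2 1 1 = true :=
  ⟨(b (a (b (l 2) (a (l 2) (c (l 16320720) (l 16309512)))) (b (a (c (l 16260408) (l 16419024)) (c (l 16284736) (l 16364232))) (a (c (l 16270160) (l 16280312)) (c (l 16324144) (l 16186320))))) (a (a (b (l 2) (b (l 16262416) (l 16284712))) (b (b (c (l 16288392) (l 16177344)) (l 16258112)) (b (l 16284056) (l 16334848)))) (b (a (b (b (l 16245608) (l 16135208)) (l 16257352)) (b (a (l 16233248) (l 16229040)) (b (l 16098568) (l 16269552)))) (b (a (b (l 16288216) (l 16320352)) (b (l 16218208) (l 16346368))) (a (b (l 16360304) (l 16407592)) (b (l 16400456) (l 16505664))))))), by decide +kernel⟩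

def k1_pm_012_a : ∃ t, chk3 f_pm_012_a t 3 2 1 = true :=
  ⟨(a (b (a (c (l 16267096) (l 16306288)) (c (l 16228544) (l 16120176))) (a (c (l 16357072) (l 16174256)) (c (b (l 16197696) (l 16203664)) (l 16076272)))) (a (b (c (a (l 16199544) (l 16180256)) (l 15953408)) (b (a (l 16162280) (l 16142488)) (a (l 16167448) (l 16153224)))) (b (a (b (l 16163136) (l 16131888)) (b (l 16136664) (l 16128760))) (a (b (l 16122448) (l 16201584)) (b (c (l 16120488) (l 16083872)) (a (l 16127416) (l 16140824))))))), by decide +kernel⟩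

def k2_pm_012_a : ∃ t, chk3 f_pm_012_a t 6 3 1 = true :=
  ⟨(b (a (b (b (l 16216560) (l 16204640)) (b (a (l 16242008) (l 16241624)) (a (l 16272336) (l 16275136)))) (b (a (l 16212416) (l 16227296)) (b (l 16223008) (a (a (l 16277016) (l 16278432)) (b (l 16270888) (l 16292656)))))) (a (b (b (a (l 16312600) (l 16319880)) (a (l 16365224) (l 16377592))) (b (l 16440088) (a (l 16505632) (l 16533952)))) (a (b (b (l 16326920) (c (l 16401584) (l 16376248))) (b (l 16448656) (l 16562216))) (b (b (c (l 16359776) (l 16307296)) (c (l 16372648) (l 16385096))) (b (l 16424448) (b (l 16561584) (l 16615192))))))), by decide +kernel⟩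

def k3_pm_012_a : ∃ t, chk3 f_pm_012_a t 7 6 1 = true :=
  ⟨(a (b (a (l 16283768) (b (l 16178816) (l 16206968))) (a (l 16276472) (b (l 16244480) (l 16292432)))) (b (a (b (l 16169456) (l 16222688)) (a (b (l 16162056) (l 16197704)) (b (l 16157952) (l 16197792)))) (a (b (l 16243936) (a (l 16295864) (l 16299912))) (b (a (l 16245400) (l 16249840)) (a (l 16306712) (l 16356224)))))), by decide +kernel⟩

def k4_pm_012_a : ∃ t, chk3 f_pm_012_a t 7 7 1 = true :=
  ⟨(b (a (a (a (b (b (l 16324392) (l 16355280)) (b (l 16388600) (l 16427376))) (b (b (l 16328168) (l 16360016)) (b (l 16394096) (l 16432760)))) (b (b (l 16335544) (a (l 16364568) (l 16370440))) (a (b (l 16399704) (l 16443880)) (a (b (l 16404216) (l 16444912)) (b (l 16408224) (l 16450864)))))) (a (b (a (l 16361040) (l 16370632)) (a (a (b (l 16413904) (l 16478376)) (b (l 16420552) (a (l 16462184) (l 16465392)))) (b (l 16430224) (a (b (l 16459248) (l 16481968)) (l 16477840))))) (b (a (l 16394304) (c (l 16404864) (l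 16345624))) (a (c (l 16497320) (l 16464472)) (b (a (l 16452592) (l 16458944)) (a (l 16499344) (l 6))))))) (a (b (b (a (l 16477016) (a (l 16486624) (c (l 16510096) (l 16482608)))) (a (l 16507280) (a (l 16542336) (l 16554240)))) (a (b (l 16583400) (b (l 16627208) (l 16675592))) (a (b (l 16602528) (l 16666456)) (b (l 16574208) (b (l 16664888) (l 16694464)))))) (a (b (a (b (b (l 16495896) (a (l 16518336) (l 16524584))) (b (l 16550320) (l 16581080))) (a (b (b (l 16506408) (l 16531736)) (b (l 16559016) (l 16589544))) (b (c (b (l 16510160) (l 16556112)) (l 16507456)) (b (a (l 16563976) (l 16567848)) (c (l 16605808) (l 16584216)))))) (b (a (c (l 16592024) (l 16602928)) (a (b (l 16621792) (l 6)) (l 6))) (a (b (l 16678984) (l 4)) (l 6)))) (b (a (b (b (l 16525224) (a (a (l 16544776) (l 6)) (l 6))) (l 6)) (l 6)) (l 6))))), by decide +kernel⟩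

theorem s5_pm_012_a : ∃ t, chk3 f_pm_012_a t 7 3 1 = true := ex3_b k3_pm_012_a k4_pm_012_a

theorem s6_pm_012_a : ∃ t, chk3 f_pm_012_a t 3 3 1 = true := ex3_a k2_pm_012_a s5_pm_012_a

theorem s7_pm_012_a : ∃ t, chk3 f_pm_012_a t 3 1 1 = true := ex3_b k1_pm_012_a s6_pm_012_a

theorem s8_pm_012_a : ∃ t, chk3 f_pm_012_a t 1 1 1 = true := ex3_a k0_pm_012_a s7_pm_012_a

theorem c_pm_012_a : CertB 0 536870912 0 536870912 858993459 64424510 3 eng mog cd1q0 cd1q2a pd1 false true false .pnp 0 1 2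
    ndB1q0 ndB1q2a pcB1 cut_pm_012_a Ext.none :=
  certB2 (fam := false) (s1 := true) (s2 := false) (a := 0) (b := 1) (c := 2) (cn := .pnp) (n1 := ndB1q0) (n2 := ndB1q2a) (pc := pcB1) (cut := cut_pm_012_a) (xt := Ext.none) (P1 := 0) (W1 := 536870912) (P2 := 0) (W2 := 536870912) (P3 := 858993459) (W3 := 64424510) (N0 := 3) (En := eng) (mo := mog) (C1 := cd1q0) (C2 := cd1q2a) (C3 := pd1)
    rfl (fun _ => rfl) s8_pm_012_a

noncomputable def cut_pm_012_b : Cut := Cut.of [[⟨0, 0, 0, 67108864⟩, ⟨1, 1, 0, 67108864⟩, ⟨2, 1, 0, 67108864⟩]]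

noncomputable def f_pm_012_b : ℕ → ℕ → ℕ → ℕ → Bool := onCell 536870912 536870912 1239849684 370763052 858993459 64424510
    (rowB 3 eng mog cd1q0 cd1q2b pd1 2 false true false .pnp 0 1 2 (qsf 0 536870912 1239849684 370763052 1) ndB1q0 ndB1q2b pcB1 cut_pm_012_b Ext.none)

def k0_pm_012_b : ∃ t, chk3 f_pm_012_b t 1 1 1 = true :=
  ⟨(a (a (l 2) (b (b (a (c (l 16327808) (l 16451912)) (c (l 16038136) (l 16362656))) (a (l 2) (c (l 16169400) (l 16266224)))) (l 2))) (a (b (a (b (c (b (l 16253520) (l 16167000)) (l 16270448)) (c (l 16070136) (l 16123688))) (b (b (a (l 16233968) (l 16201360)) (l 15854224)) (a (l 16002616) (l 15941864)))) (a (l 2) (b (c (l 15860224) (l 15862600)) (l 2)))) (b (b (a (b (a (l 16168672) (l 16135952)) (a (l 16039616) (l 15995664))) (b (a (l 16082256) (a (l 16078560) (l 16062232))) (a (l 15951792) (l 15908048)))) (a (a (l 15881072) (l 15820320)) (a (l 15759688) (l 15887992)))) (a (b (a (l 15734416) (l 15651664)) (l 15613936)) (b (a (l 15568952)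 (l 15486384)) (l 15405976)))))), by decide +kernel⟩

theorem c_pm_012_b : CertB 0 536870912 1239849684 370763052 858993459 64424510 3 eng mog cd1q0 cd1q2b pd1 false true false .pnp 0 1 2
    ndB1q0 ndB1q2b pcB1 cut_pm_012_b Ext.none :=
  certB2 (fam := false) (s1 := true) (s2 := false) (a := 0) (b := 1) (c := 2) (cn := .pnp) (n1 := ndB1q0) (n2 := ndB1q2b) (pc := pcB1) (cut := cut_pm_012_b) (xt := Ext.none) (P1 := 0) (W1 := 536870912) (P2 := 1239849684) (W2 := 370763052) (P3 := 858993459) (W3 := 64424510) (N0 := 3) (En := eng) (mo := mog) (C1 := cd1q0) (C2 := cd1q2b) (C3 := pd1)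
    rfl (fun _ => rfl) k0_pm_012_b

noncomputable def cut_pm_022_a : Cut := Cut.of [[⟨0, 0, 0, 67108864⟩, ⟨1, 1, 0, 67108864⟩, ⟨2, 1, 0, 67108864⟩]]

noncomputable def f_pm_022_a : ℕ → ℕ → ℕ → ℕ → Bool := onCell 1073741824 536870912 0 536870912 858993459 64424510
    (rowB 3 eng mog cd1q0 cd1q2a pd2 2 false true false .pp 0 2 2 (qsf 0 536870912 0 536870912 2) ndB1q0 ndB1q2a pcB2 cut_pm_022_a Ext.none)

def k0_pm_022_a : ∃ t, chk3 f_pm_022_a t 4 2 1 = true :=
  ⟨(c (a (b (a (b (l 16240968) (l 16207400)) (b (l 16313448) (l 16291776))) (a (b (l 16221032) (a (l 16196752) (l 16251832))) (b (l 16296704) (a (l 16306440) (l 16359216))))) (a (b (b (l 16385696) (l 16374272)) (b (l 16388768) (a (l 16346712) (l 16457416)))) (b (b (l 16450056) (l 16406120)) (b (a (l 16451648) (l 16452552)) (a (b (l 16485536) (l 16512368)) (b (l 16413904) (c (l 16402032) (l 434898214631)))))))) (a (b (a (l 16063312) (b (l 16342016) (l 16316056))) (a (b (l 16197560) (b (l 16204040) (l 16219368)))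 (b (l 16314408) (a (l 16309168) (l 16371296))))) (b (a (b (l 16432832) (l 16416680)) (b (l 16348392) (l 16260472))) (a (b (l 16424512) (a (l 16430992) (l 16487928))) (b (a (l 16463616) (l 16316560)) (a (b (l 16473816) (l 16458536)) (b (l 16345776) (c (l 451541178103) (l 466573520887))))))))), by decide +kernel⟩

def k1_pm_022_a : ∃ t, chk3 f_pm_022_a t 4 6 1 = true :=
  ⟨(b (b (c (a (a (l 16267000) (a (l 16354984) (l 16410880))) (a (a (l 16464080) (l 16514736)) (a (a (l 16520496) (l 16460088)) (a (l 647499136839) (l 774737654119))))) (a (a (l 16243776) (l 16254072)) (a (a (l 16475488) (l 16530160)) (a (a (l 16495752) (l 16451408)) (a (l 644277877767) (l 726419172503)))))) (a (a (c (a (l 16277016) (l 16339352)) (a (l 16243360) (l 16315992))) (a (c (l 16399640) (l 16386328)) (b (l 16380328) (l 16405192)))) (a (a (c (l 16512328) (l 16519472)) (c (b (l 16547200) (l 16526568)) (b (l 16533192) (l 16512072)))) (a (a (c (b (l 16519200) (l 16497784)) (b (l 16497680) (l 16496768)))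 (b (c (l 480532361079) (l 519187031319)) (a (l 799433749303) (l 1)))) (l 1))))) (a (a (a (b (c (l 16326832) (l 16291824)) (c (l 16389256) (l 16353000))) (c (b (l 16391352) (l 16539368)) (b (l 16366736) (a (l 16411184) (l 16449424))))) (a (b (c (l 16453344) (l 16439544)) (c (b (l 16500984) (l 16474200)) (b (l 16487280) (l 16481624)))) (b (a (l 16453336) (l 16526872)) (c (a (l 16565168) (l 16595064)) (l 16566848))))) (a (a (c (b (l 16517104) (b (a (l 16593952) (l 16553480)) (a (l 16550720) (b (l 477848183207) (l 557841956503))))) (b (l 16513544) (a (l 16532064) (b (l 16544904) (l 521871563111))))) (b (a (c (l 406444274039) (l 16480720)) (b (c (l 16516480) (l 16519864)) (a (l 762389769911) (l 831109215575)))) (a (b (c (l 780643423751) (l 729640560871)) (l 1)) (l 1)))) (a (a (b (c (l 823056141527) (l 814466161207)) (l 1)) (l 1)) (l 1))))), by decide +kernel⟩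

def k2_pm_022_a : ∃ t, chk3 f_pm_022_a t 4 7 1 = true :=
  ⟨(a (b (b (a (a (c (a (l 16446936) (l 16502384)) (a (l 16408072) (l 16448592))) (a (c (l 16557192) (l 16488528)) (c (b (l 16528264) (l 16568752)) (l 16443824)))) (a (c (a (l 16581192) (l 16613216)) (a (l 16566096) (l 16603648))) (c (b (c (l 16557496) (l 16558416)) (a (b (l 16629776) (l 6)) (a (b (l 16614680) (l 6)) (l 801581460231)))) (b (a (l 16618448) (l 16569424)) (a (l 16581752) (a (l 482680112535) (l 820908827703))))))) (a (l 6) (a (l 6) (a (l 6) (a (l 6) (l 1)))))) (a (l 6) (a (l 6) (l 1)))) (b (a (b (a (a (c (b (a (l 481069473671) (l 805339538375)) (b (l 877280226855) (l 1))) (b (b (l 16544592) (l 556231361175)) (l 897144457431))) (b (c (l 883185768375) (l 873522092727)) (l 1))) (l 1)) (l 1)) (l 1)) (l 1))), by decide +kernel⟩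

def k3_pm_022_a : ∃ t, chk3 f_pm_022_a t 5 1 1 = true :=
  ⟨(b (a (b (b (a (a (c (l 16423168) (l 16310008)) (c (a (l 16401032) (l 16323240)) (b (l 426307878567) (l 438119069095)))) (l 1)) (a (a (c (l 16391792) (a (l 16376984) (l 16356080))) (c (c (l 593275124311) (l 434898023415)) (c (l 457446518903) (b (l 475700067207) (l 498785526567))))) (l 1))) (a (b (a (c (c (l 16369880) (l 417718242951)) (b (l 16270800) (a (l 16391568) (l 494490722215)))) (a (b (c (l 16351152) (l 507375539223)) (b (l 1) (l 1))) (l 1))) (a (a (b (c (l 16366360) (l 500396380599)) (c (l 754336528839) (l 712460497975))) (b (c (l 718365981607) (l 710849833383)) (l 1))) (l 1))) (l 1))) (l 1)) (b (l 1) (l 1))), by decide +kernel⟩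

def k4_pm_022_a : ∃ t, chk3 f_pm_022_a t 3 1 1 = true :=
  ⟨(l 1), by decide +kernel⟩

theorem s5_pm_022_a : ∃ t, chk3 f_pm_022_a t 4 3 1 = true := ex3_b k1_pm_022_a k2_pm_022_a

theorem s6_pm_022_a : ∃ t, chk3 f_pm_022_a t 4 1 1 = true := ex3_b k0_pm_022_a s5_pm_022_a

theorem s7_pm_022_a : ∃ t, chk3 f_pm_022_a t 2 1 1 = true := ex3_a s6_pm_022_a k3_pm_022_a

theorem s8_pm_022_a : ∃ t, chk3 f_pm_022_a t 1 1 1 = true := ex3_a s7_pm_022_a k4_pm_022_a

theorem c_pm_022_a : CertB 0 536870912 0 536870912 858993459 64424510 3 eng mog cd1q0 cd1q2a pd2 false true false .pp 0 2 2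
    ndB1q0 ndB1q2a pcB2 cut_pm_022_a Ext.none :=
  certB2 (fam := false) (s1 := true) (s2 := false) (a := 0) (b := 2) (c := 2) (cn := .pp) (n1 := ndB1q0) (n2 := ndB1q2a) (pc := pcB2) (cut := cut_pm_022_a) (xt := Ext.none) (P1 := 0) (W1 := 536870912) (P2 := 0) (W2 := 536870912) (P3 := 858993459) (W3 := 64424510) (N0 := 3) (En := eng) (mo := mog) (C1 := cd1q0) (C2 := cd1q2a) (C3 := pd2)
    rfl (fun _ => rfl) s8_pm_022_a

noncomputable def cut_pm_022_b : Cut := Cut.of [[⟨0, 0, 0, 67108864⟩, ⟨1, 1, 0, 67108864⟩, ⟨2, 1, 0, 67108864⟩]]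

noncomputable def f_pm_022_b : ℕ → ℕ → ℕ → ℕ → Bool := onCell 0 536870912 1073741824 536870912 858993459 64424510
    (rowB 3 eng mog cd1q0 cd1q2b pd2 1 false true false .pp 0 2 2 (qsf 0 536870912 1239849684 370763052 2) ndB1q0 ndB1q2b pcB2 cut_pm_022_b Ext.none)

def k0_pm_022_b : ∃ t, chk3 f_pm_022_b t 2 2 1 = true :=
  ⟨(b (a (a (b (l 1) (a (a (l 1) (b (l 1) (b (l 1) (l 559988795831)))) (b (c (l 382822048791) (l 653404690007)) (b (l 479458235319) (b (l 442414117335) (l 278131562087)))))) (b (b (a (l 1) (a (l 1) (l 470868107927))) (a (a (l 1) (b (l 1) (l 16431840))) (c (l 338797736823) (l 16353944)))) (b (a (c (l 16414400) (l 16439848)) (c (l 16237824) (l 16300224))) (c (a (l 16322408) (l 16200200)) (l 16313864))))) (b (b (a (a (c (l 337187033143) (l 16119584)) (l 16382352)) (c (l 15955640) (l 15949184))) (a (c (l 16260448) (l 15945360)) (c (l 15915216) (l 15922688)))) (a (c (b (l 16146296) (l 16039216)) (b (l 16030968) (l 16077816))) (b (c (l 15882040) (l 15900016))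 (l 16054632))))) (a (b (b (c (a (a (a (b (l 571263210903) (l 245919392087)) (l 262562381943)) (l 16377888)) (l 16203168)) (a (a (b (l 605622756951) (a (b (l 618507682535) (l 16173320)) (l 16319496))) (l 16329640)) (l 16260504))) (a (a (a (b (c (l 16322656) (l 16146464)) (c (l 16338896) (l 16254216))) (b (l 16164832) (l 16200944))) (c (l 16309808) (l 16295568))) (c (l 16150592) (l 16209440)))) (a (c (a (b (a (l 16276352) (l 16297440)) (l 16235640)) (c (l 16203624) (l 16234736))) (b (a (b (l 16128184) (l 16141416)) (l 16237584)) (a (a (l 16090968) (l 16163536)) (l 16175568)))) (c (b (l 16103312) (l 16062192)) (b (l 16161520) (l 16118392))))) (b (a (c (b (l 16000928) (l 15967128)) (l 16026120)) (b (l 15657464) (l 15829248))) (a (b (l 15957224) (l 15932960)) (c (l 15799656) (l 15825968)))))), by decide +kernel⟩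

def k1_pm_022_b : ∃ t, chk3 f_pm_022_b t 3 2 1 = true :=
  ⟨(b (a (b (a (b (l 15829744) (l 15728848)) (b (l 15581376) (l 15579576))) (a (b (l 15717016) (l 15709520)) (b (l 15582544) (l 15589424)))) (b (a (l 15611440) (l 15392176)) (c (l 15484192) (l 15456880)))) (b (a (b (a (l 15705392) (l 15599288)) (l 15885000)) (c (l 15533072) (l 15516096))) (a (b (l 15767128) (l 15674840)) (l 2)))), by decide +kernel⟩

def k2_pm_022_b : ∃ t, chk3 f_pm_022_b t 1 3 1 = true :=
  ⟨(b (a (c (a (b (a (a (b (l 16168472) (l 16097960)) (l 16116640)) (l 16134896)) (a (b (l 16023464) (l 15949976)) (l 15947584))) (b (b (l 15716568) (l 15834672)) (l 15826752))) (a (b (a (a (b (l 16094344) (l 15984200)) (l 16076320)) (l 16061528)) (a (b (l 15964648) (l 15893616)) (l 15955296))) (b (l 15866856) (l 15850312)))) (b (a (b (l 15691544) (l 2)) (l 2)) (l 2))) (a (b (b (a (a (a (l 15845176) (l 15857808)) (l 15874080)) (l 15827984)) (a (a (l 15802392) (l 15815928)) (l 2))) (a (c (a (b (l 15738272)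 (l 15679224)) (l 15754216)) (a (b (l 15686256) (l 15625280)) (l 15724568))) (l 2))) (l 2))), by decide +kernel⟩

theorem s3_pm_022_b : ∃ t, chk3 f_pm_022_b t 1 2 1 = true := ex3_a k0_pm_022_b k1_pm_022_b

theorem s4_pm_022_b : ∃ t, chk3 f_pm_022_b t 1 1 1 = true := ex3_b s3_pm_022_b k2_pm_022_b

theorem c_pm_022_b : CertB 0 536870912 1239849684 370763052 858993459 64424510 3 eng mog cd1q0 cd1q2b pd2 false true false .pp 0 2 2
    ndB1q0 ndB1q2b pcB2 cut_pm_022_b Ext.none :=
  certB1 (fam := false) (s1 := true) (s2 := false) (a := 0) (b := 2) (c := 2) (cn := .pp) (n1 := ndB1q0) (n2 := ndB1q2b) (pc := pcB2) (cut := cut_pm_022_b) (xt := Ext.none) (P1 := 0) (W1 := 536870912) (P2 := 1239849684) (W2 := 370763052) (P3 := 858993459) (W3 := 64424510) (N0 := 3) (En := eng) (mo := mog) (C1 := cd1q0) (C2 := cd1q2b) (C3 := pd2)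
    rfl (fun _ => rfl) s4_pm_022_b

noncomputable def f_pm_023 : ℕ → ℕ → ℕ → ℕ → Bool := onCell 1073741824 536870912 1610612736 536870912 858993459 64424510
    (rowB 3 eng mog cd1q0 cd1q3 pd2 2 false true false .up 0 2 3 (qsf 0 536870912 1610612736 536870912 2) ndB1q0 ndB1q3 pcB2 Cut.none Ext.none)

def k0_pm_023 : ∃ t, chk3 f_pm_023 t 1 1 1 = true :=
  ⟨(a (a (b (b (a (b (l 15404328) (l 15388984)) (c (l 15493272) (l 15482160))) (a (l 2) (l 15471536))) (l 2)) (b (a (b (c (l 15579320) (l 15590512)) (l 15534312)) (b (a (l 15443640) (l 15700888)) (l 15607008))) (b (a (l 2) (l 15619600)) (l 2)))) (a (b (a (b (c (l 15756352) (l 15785832)) (l 15685496)) (b (c (l 15823984) (l 15859248)) (l 15754656))) (a (b (l 15674936) (l 2)) (b (l 15732840) (l 15876600)))) (b (a (b (b (a (l 15845424) (l 15788888)) (l 15818440)) (l 15791576)) (b (b (a (l 15721160) (l 649846533191)) (a (l 4) (l 4))) (l 5095675234119))) (a (b (l 15773336) (l 15950552)) (b (l 15823112) (l 15944624)))))),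 by decide +kernel⟩

theorem c_pm_023 : CertB 0 536870912 1610612736 536870912 858993459 64424510 3 eng mog cd1q0 cd1q3 pd2 false true false .up 0 2 3
    ndB1q0 ndB1q3 pcB2 Cut.none Ext.none :=
  certB2 (fam := false) (s1 := true) (s2 := false) (a := 0) (b := 2) (c := 3) (cn := .up) (n1 := ndB1q0) (n2 := ndB1q3) (pc := pcB2) (cut := Cut.none) (xt := Ext.none) (P1 := 0) (W1 := 536870912) (P2 := 1610612736) (W2 := 536870912) (P3 := 858993459) (W3 := 64424510) (N0 := 3) (En := eng) (mo := mog) (C1 := cd1q0) (C2 := cd1q3) (C3 := pd2)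
    rfl (fun _ => rfl) k0_pm_023

noncomputable def f_pm_033 : ℕ → ℕ → ℕ → ℕ → Bool := onCell 0 536870912 1610612736 536870912 858993459 64424510
    (rowB 3 eng mog cd1q0 cd1q3 pd3 1 false true false .pnn 0 3 3 (qsf 0 536870912 1610612736 536870912 3) ndB1q0 ndB1q3 pcB3 Cut.none Ext.none)

def k0_pm_033 : ∃ t, chk3 f_pm_033 t 1 1 1 = true :=
  ⟨(a (b (b (l 4) (l 4)) (a (l 4) (b (l 4) (a (b (l 4) (l 2)) (l 2))))) (b (a (b (l 4) (l 4)) (b (b (b (l 16133912) (l 16200752)) (a (l 4) (l 16340792))) (a (b (l 4) (l 2)) (l 2)))) (a (b (a (b (l 4) (l 2)) (l 2)) (l 2)) (l 2)))), by decide +kernel⟩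

theorem c_pm_033 : CertB 0 536870912 1610612736 536870912 858993459 64424510 3 eng mog cd1q0 cd1q3 pd3 false true false .pnn 0 3 3
    ndB1q0 ndB1q3 pcB3 Cut.none Ext.none :=
  certB1 (fam := false) (s1 := true) (s2 := false) (a := 0) (b := 3) (c := 3) (cn := .pnn) (n1 := ndB1q0) (n2 := ndB1q3) (pc := pcB3) (cut := Cut.none) (xt := Ext.none) (P1 := 0) (W1 := 536870912) (P2 := 1610612736) (W2 := 536870912) (P3 := 858993459) (W3 := 64424510) (N0 := 3) (En := eng) (mo := mog) (C1 := cd1q0) (C2 := cd1q3) (C3 := pd3)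
    rfl (fun _ => rfl) k0_pm_033

noncomputable def f_pm_101 : ℕ → ℕ → ℕ → ℕ → Bool := onCell 536870912 536870912 536870912 536870912 858993459 64424510
    (rowB 3 eng mog cd1q1 cd1q1 pd0 0 false true false .npn 1 0 1 (qsf 536870912 536870912 536870912 536870912 0) ndB1q1 ndB1q1 pcB0 Cut.none Ext.none)

def k0_pm_101 : ∃ t, chk3 f_pm_101 t 1 1 1 = true :=
  ⟨(l 4), by decide +kernel⟩

theorem c_pm_101 : CertB 536870912 536870912 536870912 536870912 858993459 64424510 3 eng mog cd1q1 cd1q1 pd0 false true false .npn 1 0 1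
    ndB1q1 ndB1q1 pcB0 Cut.none Ext.none :=
  certB0 (fam := false) (s1 := true) (s2 := false) (a := 1) (b := 0) (c := 1) (cn := .npn) (n1 := ndB1q1) (n2 := ndB1q1) (pc := pcB0) (cut := Cut.none) (xt := Ext.none) (P1 := 536870912) (W1 := 536870912) (P2 := 536870912) (W2 := 536870912) (P3 := 858993459) (W3 := 64424510) (N0 := 3) (En := eng) (mo := mog) (C1 := cd1q1) (C2 := cd1q1) (C3 := pd0)
    rfl k0_pm_101

noncomputable def f_pm_102_a : ℕ → ℕ → ℕ → ℕ → Bool := onCell 0 536870912 0 536870912 858993459 64424510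
    (rowB 3 eng mog cd1q1 cd1q2a pd0 2 false true false .npp 1 0 2 (qsf 536870912 536870912 0 536870912 0) ndB1q1 ndB1q2a pcB0 Cut.none Ext.none)

def k0_pm_102_a : ∃ t, chk3 f_pm_102_a t 2 2 1 = true :=
  ⟨(a (b (l 2) (a (l 2) (a (l 2) (a (l 2) (b (l 2) (a (l 2) (b (l 2) (l 16332816)))))))) (a (b (a (a (l 2) (b (l 16532104) (l 16465896))) (a (a (l 16430288) (l 16490216)) (l 16487176))) (a (b (a (l 16231232) (l 16403464)) (a (b (l 16362008) (l 16162192)) (b (l 16358608) (l 16306976)))) (b (a (l 16400200) (l 16399024)) (b (l 16192648) (a (l 16328040) (l 16329480)))))) (b (a (b (l 16512808) (l 16349880)) (c (l 16456816) (l 16485856))) (a (b (a (l 16399384) (l 16400800)) (b (l 16362800) (a (l 16331744) (l 16334384)))) (b (c (l 16365936) (l 16401000)) (b (l 16108928) (a (l 16323088) (l 16293272)))))))), by decide +kernel⟩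

def k1_pm_102_a : ∃ t, chk3 f_pm_102_a t 4 3 1 = true :=
  ⟨(b (a (l 2) (a (b (l 2) (c (a (l 16262824) (l 16320136)) (a (l 16221464) (l 16193808)))) (a (b (c (l 16382968) (l 16262504)) (b (l 16248136) (l 16197112))) (a (b (l 16120688) (l 16407328)) (b (b (l 16290728) (l 16248184)) (c (l 16223472) (l 16142976))))))) (a (b (a (l 2) (a (b (l 2) (a (l 16165048) (l 16159808))) (b (l 16216200) (c (l 16222776) (l 16077848))))) (a (b (a (l 2) (b (l 16088624) (a (l 16102016) (l 16093888)))) (c (b (a (l 16174000) (l 16145648)) (l 16112488)) (b (a (l 15988064) (l 15980784)) (l 15948608)))) (b (a (c (l 16173296) (b (l 16034840) (l 16004024))) (b (l 16103344) (l 16066792))) (c (a (l 16087872) (l 16050608)) (a (l 15954712) (l 15943824)))))) (a (b (b (a (l 16176936) (l 16170880)) (c (l 16264648) (l 16192512))) (b (c (b (l 16127200) (l 16086760)) (b (l 16020400) (l 15989464))) (c (l 16003008) (l 15931584)))) (b (a (b (l 16144400) (l 16090248)) (b (l 16266296) (l 16236352))) (b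 (a (c (l 16060152) (l 15991208)) (c (l 16033048) (l 15985648))) (c (l 15953648) (l 15922952))))))), by decide +kernel⟩

def k2_pm_102_a : ∃ t, chk3 f_pm_102_a t 5 3 1 = true :=
  ⟨(a (b (a (b (a (a (l 16266712) (l 16244176)) (c (l 16292352) (l 16236368))) (a (c (l 16211632) (l 16147264)) (c (l 16195408) (l 16152896)))) (b (a (c (l 16279968) (l 16247264)) (c (l 16268024) (l 16259384))) (c (a (l 16179328) (l 16163368)) (a (l 16159136) (l 16165640))))) (b (a (a (b (l 16105968) (l 16074056)) (b (l 16095784) (l 16081680))) (c (b (l 16081912) (l 16019248)) (b (l 16085560) (l 16028352)))) (a (b (c (b (l 16012352) (l 15977808)) (a (l 15982080) (l 15980032))) (c (l 15919312) (l 15925184))) (c (b (b (l 15971640) (l 15941808)) (l 15896168)) (b (l 16001560) (l 15936288)))))) (b (a (b (c (l 16042040) (l 16049848)) (c (a (l 16147616) (l 16132200)) (l 16050920))) (b (c (a (l 16223584) (l 16191760)) (a (l 16284176) (l 16263584))) (c (a (l 16111952) (l 16085912)) (l 15960432))))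 (b (a (c (b (l 16045200) (l 15980488)) (b (l 16088288) (l 16046304))) (c (b (l 16008096) (c (l 15932264) (l 15965440))) (b (l 16084024) (l 16004136)))) (a (c (b (l 15929704) (l 15882000)) (b (l 15985928) (l 15954456))) (c (c (l 15870344) (l 15915712)) (l 15989632)))))), by decide +kernel⟩

def k3_pm_102_a : ∃ t, chk3 f_pm_102_a t 3 1 2 = true :=
  ⟨(b (a (b (a (a (l 16412456) (b (l 16405176) (l 16331840))) (a (b (l 16366288) (l 16286664)) (b (l 16328832) (l 16244304)))) (a (b (a (l 16309144) (l 16254456)) (a (l 16207992) (l 16229568))) (b (a (l 16202920) (l 16156176)) (a (l 16152008) (l 16081896))))) (b (a (a (b (l 16293968) (l 16206168)) (c (l 16174104) (l 16265120))) (c (a (l 16143400) (l 16119520)) (a (l 16243128) (l 16227032)))) (a (b (a (l 16115624) (l 16082264)) (a (l 16020440) (l 15989080))) (b (a (l 16056760) (l 16039520)) (c (l 15918688) (l 15999296)))))) (a (b (a (a (b (l 16146200) (l 16155424)) (b (l 16089680) (l 16072792))) (b (a (l 16039608) (l 15996720))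 (c (l 16162160) (l 16146512)))) (a (a (b (b (l 15972840) (l 15966376)) (c (l 15856888) (l 15918032))) (b (b (l 15946664) (l 15931312)) (c (l 15850448) (l 15926576)))) (b (b (a (l 15929232) (l 15920280)) (a (l 15904680) (l 15906608))) (c (a (l 15850264) (l 15855744)) (a (l 15940456) (l 15958928)))))) (b (a (b (a (l 16109504) (c (l 15898784) (l 15975128))) (c (l 16078368) (l 16081432))) (b (a (c (l 15876544) (l 15958640)) (c (l 15862560) (l 15949672))) (c (a (l 15879696) (l 15883176)) (l 16234520)))) (a (a (b (b (l 15919504) (l 15915488)) (c (l 15866312) (l 15981256))) (b (c (l 15876344) (l 15983608)) (c (l 15902280) (l 16006712)))) (b (c (b (l 15894688) (l 15924336)) (b (l 16010528) (l 16027400))) (b (c (l 16096112) (l 16041312)) (c (a (l 15903080) (l 15925104)) (l 15930240)))))))), by decide +kernel⟩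

def k4_pm_102_a : ∃ t, chk3 f_pm_102_a t 3 1 3 = true :=
  ⟨(b (a (b (a (a (l 16477440) (l 16467776)) (a (l 16455776) (l 16399320))) (a (b (a (l 16372128) (l 16342600)) (a (l 16302984) (l 16259104))) (b (a (l 16312952) (l 16285136)) (a (l 16218816) (l 16184688))))) (a (b (a (l 16257624) (l 16263384)) (b (l 16000216) (a (l 16158560) (l 16141064)))) (b (c (l 16300672) (l 16369624)) (b (l 15998856) (a (l 16131176) (l 16130272)))))) (a (b (a (b (a (l 16233584) (l 16195640)) (a (l 16145704) (l 16127576))) (b (a (l 16162296) (l 16134800)) (a (l 16116296) (l 16111992)))) (a (b (b (l 16012072) (a (l 16031128) (l 16045184))) (c (l 15993296) (l 16054784))) (b (a (l 15842832) (l 16010200)) (c (l 16046856) (l 16117024))))) (b (a (b (a (l 16115240) (l 16101600)) (a (l 16114432) (l 16123232))) (b (a (l 16073104) (b (l 16077840) (l 16104512))) (c (l 16092400) (l 16198664)))) (b (a (a (l 16036064) (l 15982568)) (a (c (l 16127384) (l 16231240)) (b (l 16208344) (l 16233576)))) (a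 (c (l 16112592) (l 16150696)) (c (l 16101016) (b (l 16190536) (l 16145832)))))))), by decide +kernel⟩

theorem s5_pm_102_a : ∃ t, chk3 f_pm_102_a t 3 1 1 = true := ex3_c k3_pm_102_a k4_pm_102_a

theorem s6_pm_102_a : ∃ t, chk3 f_pm_102_a t 2 3 1 = true := ex3_a k1_pm_102_a k2_pm_102_a

theorem s7_pm_102_a : ∃ t, chk3 f_pm_102_a t 2 1 1 = true := ex3_b k0_pm_102_a s6_pm_102_a

theorem s8_pm_102_a : ∃ t, chk3 f_pm_102_a t 1 1 1 = true := ex3_a s7_pm_102_a s5_pm_102_a

theorem c_pm_102_a : CertB 536870912 536870912 0 536870912 858993459 64424510 3 eng mog cd1q1 cd1q2a pd0 false true false .npp 1 0 2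
    ndB1q1 ndB1q2a pcB0 Cut.none Ext.none :=
  certB2 (fam := false) (s1 := true) (s2 := false) (a := 1) (b := 0) (c := 2) (cn := .npp) (n1 := ndB1q1) (n2 := ndB1q2a) (pc := pcB0) (cut := Cut.none) (xt := Ext.none) (P1 := 536870912) (W1 := 536870912) (P2 := 0) (W2 := 536870912) (P3 := 858993459) (W3 := 64424510) (N0 := 3) (En := eng) (mo := mog) (C1 := cd1q1) (C2 := cd1q2a) (C3 := pd0)
    rfl (fun _ => rfl) s8_pm_102_a

noncomputable def f_pm_102_b : ℕ → ℕ → ℕ → ℕ → Bool := onCell 536870912 536870912 1239849684 370763052 858993459 64424510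
    (rowB 3 eng mog cd1q1 cd1q2b pd0 0 false true false .npp 1 0 2 (qsf 536870912 536870912 1239849684 370763052 0) ndB1q1 ndB1q2b pcB0 Cut.none Ext.none)

def k0_pm_102_b : ∃ t, chk3 f_pm_102_b t 1 1 1 = true :=
  ⟨(a (b (a (l 2) (b (b (a (c (a (l 16226912) (l 16239168)) (c (l 16418984) (l 16491112))) (c (a (l 16257192) (l 16280256)) (c (l 16434248) (l 16534504)))) (a (l 2) (c (a (l 16214984) (l 16232008)) (l 16246864)))) (a (l 2) (a (l 2) (c (l 16156472) (l 16370352)))))) (l 2)) (b (a (b (a (c (b (a (l 16307424) (l 16337640)) (a (l 16253296) (l 16277824))) (b (c (l 16456544) (l 16491064)) (l 16186472))) (c (b (a (l 16369824) (l 16403184)) (a (l 16304648) (l 16333144))) (b (a (l 16445392) (l 16506384)) (l 16471808)))) (a (c (b (l 16008072) (l 16159088)) (a (l 16363072) (l 16298704))) (c (a (l 16034984) (b (l 16272464) (l 16220344))) (a (l 16195040) (l 16139152))))) (b (a (b (a (c (l 16353704) (l 16502752)) (c (l 16475808) (l 16501400))) (a (c (l 16363336) (l 16418224))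 (l 16549760))) (b (a (a (l 16498944) (l 16505640)) (a (b (l 16531704) (l 16493264)) (b (l 16539088) (l 16501080)))) (a (c (l 16432576) (l 16403648)) (c (l 16474432) (l 16398128))))) (b (a (c (l 16312520) (l 16382752)) (a (l 16365656) (c (l 16400384) (l 16319128)))) (a (a (l 16010576) (c (l 16265680) (l 16269736))) (a (l 16278344) (c (l 16325928) (l 16241272))))))) (a (a (l 2) (b (c (a (l 16148712) (l 16157144)) (a (l 16259096) (l 16233976))) (l 2))) (a (a (b (c (l 16168744) (l 16208656)) (l 2)) (b (c (l 16038000) (l 16101880)) (c (l 16100528) (l 16100000)))) (b (a (b (l 16218160) (l 16163064)) (a (c (l 16219184) (l 15955296)) (l 16170096))) (a (a (l 15902968) (l 16082664)) (l 16052632))))))), by decide +kernel⟩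

theorem c_pm_102_b : CertB 536870912 536870912 1239849684 370763052 858993459 64424510 3 eng mog cd1q1 cd1q2b pd0 false true false .npp 1 0 2
    ndB1q1 ndB1q2b pcB0 Cut.none Ext.none :=
  certB0 (fam := false) (s1 := true) (s2 := false) (a := 1) (b := 0) (c := 2) (cn := .npp) (n1 := ndB1q1) (n2 := ndB1q2b) (pc := pcB0) (cut := Cut.none) (xt := Ext.none) (P1 := 536870912) (W1 := 536870912) (P2 := 1239849684) (W2 := 370763052) (P3 := 858993459) (W3 := 64424510) (N0 := 3) (En := eng) (mo := mog) (C1 := cd1q1) (C2 := cd1q2b) (C3 := pd0)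
    rfl k0_pm_102_b

noncomputable def f_pm_112_a : ℕ → ℕ → ℕ → ℕ → Bool := onCell 536870912 536870912 0 536870912 858993459 64424510
    (rowB 3 eng mog cd1q1 cd1q2a pd1 0 false true false .dn 1 1 2 (qsf 536870912 536870912 0 536870912 1) ndB1q1 ndB1q2a pcB1 Cut.none Ext.none)

def k0_pm_112_a : ∃ t, chk3 f_pm_112_a t 1 1 1 = true :=
  ⟨(a (b (a (c (c (b (a (c (l 15885224) (l 15998616)) (c (l 15924568) (l 16036984))) (a (b (l 15922272) (l 15920760)) (b (l 15961584) (l 15956288)))) (b (a (c (l 16117072) (l 16239088)) (l 16026176)) (a (l 15918920) (l 16134568)))) (b (a (c (l 16418880) (l 16361832)) (c (l 16410944) (l 16400720))) (a (c (l 16299016) (l 16341856)) (c (l 16313320) (l 16358392))))) (a (c (b (c (c (l 15947560) (l 16053912)) (l 16013552)) (c (b (l 15981720) (l 15972656)) (l 16071224))) (b (c (l 16288800) (l 16416464)) (c (l 16212872) (l 16246264)))) (l 1))) (b (a (c (b (a (c (a (l 15912392) (l 15930296)) (l 16053568)) (a (l 15930272) (l 15997616))) (a (c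 (l 15909160) (l 16072328)) (c (l 15921624) (l 16074432)))) (b (a (c (l 16233952) (l 16324952)) (c (l 16235728) (l 16319280))) (a (l 16168832) (l 16273056)))) (l 1)) (a (a (c (b (c (b (l 15898320) (l 15901520)) (l 15908808)) (c (a (l 15913840) (l 15906640)) (l 16085144))) (b (c (l 16251144) (l 16215184)) (c (l 16245232) (l 16125832)))) (a (b (b (c (l 15983936) (l 16278312)) (l 1)) (l 1)) (l 1))) (l 1)))) (l 1)), by decide +kernel⟩

theorem c_pm_112_a : CertB 536870912 536870912 0 536870912 858993459 64424510 3 eng mog cd1q1 cd1q2a pd1 false true false .dn 1 1 2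
    ndB1q1 ndB1q2a pcB1 Cut.none Ext.none :=
  certB0 (fam := false) (s1 := true) (s2 := false) (a := 1) (b := 1) (c := 2) (cn := .dn) (n1 := ndB1q1) (n2 := ndB1q2a) (pc := pcB1) (cut := Cut.none) (xt := Ext.none) (P1 := 536870912) (W1 := 536870912) (P2 := 0) (W2 := 536870912) (P3 := 858993459) (W3 := 64424510) (N0 := 3) (En := eng) (mo := mog) (C1 := cd1q1) (C2 := cd1q2a) (C3 := pd1)
    rfl k0_pm_112_a

noncomputable def f_pm_112_b : ℕ → ℕ → ℕ → ℕ → Bool := onCell 536870912 536870912 1239849684 370763052 858993459 64424510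
    (rowB 3 eng mog cd1q1 cd1q2b pd1 0 false true false .dn 1 1 2 (qsf 536870912 536870912 1239849684 370763052 1) ndB1q1 ndB1q2b pcB1 Cut.none Ext.none)

def k0_pm_112_b : ∃ t, chk3 f_pm_112_b t 2 1 1 = true :=
  ⟨(b (a (c (b (c (a (c (l 16019736) (l 15949208)) (b (l 16179312) (l 15910512))) (a (b (l 16181248) (l 16090880)) (b (l 16229920) (l 16159800)))) (a (c (c (l 15683032) (l 15780392)) (c (l 15883080) (l 15990216))) (c (l 15960600) (l 16203960)))) (b (a (c (b (l 16443304) (l 16341024)) (b (l 16375032) (l 16375960))) (c (c (l 16396016) (l 16515776)) (b (l 16420480) (l 16430632)))) (a (c (l 16092752) (l 16328656)) (c (l 16272368) (l 16402248))))) (c (b (c (a (b (l 16099088) (l 15949184)) (b (l 281889732951) (l 15968240))) (a (b (l 16248832) (l 16198408)) (b (l 16237216) (l 16205256)))) (c (a (l 15916504) (l 16039312)) (a (l 16105328) (l 15993856)))) (b (a (c (c (l 16426768) (l 16555832)) (b (l 16511120) (l 16529600))) (c (c (l 16416504) (l 16510320)) (l 359199446407)))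 (a (c (l 16272112) (l 16518280)) (c (l 16395144) (l 16652992)))))) (a (c (b (a (c (l 15557072) (l 15699536)) (c (l 15675504) (l 15843000))) (a (c (l 15372432) (l 15431816)) (c (l 15533256) (l 15621720)))) (b (a (c (l 15861544) (l 16037784)) (c (l 16026008) (l 16206800))) (a (b (l 15592688) (l 15460232)) (c (l 15521784) (l 15859752))))) (c (c (b (a (l 15768896) (l 15836416)) (a (l 15665984) (l 15767752))) (b (a (l 15955952) (l 16032568)) (a (l 15783736) (l 15908960)))) (a (b (c (l 16161368) (l 16357496)) (c (l 15877200) (l 16061648))) (b (c (l 16255112) (l 16491720)) (c (l 16073216) (l 16250360))))))), by decide +kernel⟩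

def k1_pm_112_b : ∃ t, chk3 f_pm_112_b t 3 1 1 = true :=
  ⟨(a (b (b (l 1) (c (c (a (l 169146704375) (l 183642220295)) (a (l 213706402631) (l 215316955543))) (a (c (l 16378368) (l 16640864)) (c (l 191695325975) (l 244309070775))))) (c (a (b (c (l 15878856) (l 16068424)) (c (l 15837320) (l 15986256))) (b (c (l 16067072) (l 167536359815)) (c (l 15877144) (l 16011664)))) (a (b (c (l 16287064) (l 16534376)) (c (l 15996968) (l 16372376))) (b (c (l 16256808) (l 16360280)) (c (l 16172672) (l 16356008)))))) (b (l 1) (a (c (c (b (l 206727610647) (l 15935952)) (b (l 252361944679) (l 16227208))) (b (c (l 249140690471) (l 245382228487)) (c (l 16122024) (l 163240788343)))) (b (l 1) (a (c (a (l 16163448) (b (l 15932992) (l 15925688))) (b (l 300142647159) (l 16107096))) (b (l 1) (c (l 224444393399) (l 16031112)))))))), by decide +kernel⟩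

theorem s2_pm_112_b : ∃ t, chk3 f_pm_112_b t 1 1 1 = true := ex3_a k0_pm_112_b k1_pm_112_b

theorem c_pm_112_b : CertB 536870912 536870912 1239849684 370763052 858993459 64424510 3 eng mog cd1q1 cd1q2b pd1 false true false .dn 1 1 2
    ndB1q1 ndB1q2b pcB1 Cut.none Ext.none :=
  certB0 (fam := false) (s1 := true) (s2 := false) (a := 1) (b := 1) (c := 2) (cn := .dn) (n1 := ndB1q1) (n2 := ndB1q2b) (pc := pcB1) (cut := Cut.none) (xt := Ext.none) (P1 := 536870912) (W1 := 536870912) (P2 := 1239849684) (W2 := 370763052) (P3 := 858993459) (W3 := 64424510) (N0 := 3) (En := eng) (mo := mog) (C1 := cd1q1) (C2 := cd1q2b) (C3 := pd1)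
    rfl s2_pm_112_b

noncomputable def f_pm_113 : ℕ → ℕ → ℕ → ℕ → Bool := onCell 536870912 536870912 536870912 536870912 858993459 64424510
    (rowB 3 eng mog cd1q1 cd1q3 pd1 1 false true false .nn 1 1 3 (qsf 536870912 536870912 1610612736 536870912 1) ndB1q1 ndB1q3 pcB1 Cut.none Ext.none)

def k0_pm_113 : ∃ t, chk3 f_pm_113 t 1 1 1 = true :=
  ⟨(a (b (a (l 1) (a (l 1) (b (l 1) (b (l 1) (c (l 15918776) (l 16201696)))))) (b (b (a (l 1) (c (a (l 15796688) (l 15788432)) (a (l 16048752) (l 16021192)))) (a (a (l 1) (c (l 15725224) (l 15873680))) (c (a (l 15654000) (l 15728320)) (a (l 15828248) (l 15821280))))) (a (c (a (b (l 320006482903) (l 15293480)) (b (l 15486568) (l 15347224))) (b (a (l 15682352) (l 15625040)) (a (l 15412568) (l 15361632)))) (c (a (b (l 15552656) (l 15451208)) (b (l 15677832) (l 15638536))) (b (a (l 15589968) (l 15606120)) (a (l 15338536) (l 15380576))))))) (b (b (b (a (l 1) (a (a (l 1) (c (l 15932168) (l 16160200))) (c (a (l 180957832871) (l 15987240))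 (a (l 141228695127) (l 15950592))))) (a (a (l 1) (c (l 226055047799) (l 192231843495))) (a (c (l 183105364359) (c (l 16074432) (l 16198888))) (c (a (l 15920768) (l 15916016)) (a (l 16003064) (l 15883416)))))) (a (c (a (b (l 16086992) (l 15880720)) (b (l 15925856) (l 15932976))) (a (c (l 206727074679) (l 16330744)) (c (l 16304024) (l 102574305655)))) (a (c (b (l 15946456) (l 16012648)) (b (l 16077312) (l 16052048))) (b (c (a (l 15966448) (l 15979432)) (a (l 15950432) (l 15842480))) (c (l 16214232) (a (l 15948976) (l 15862184))))))) (b (a (c (a (b (l 15859840) (l 15863472)) (b (l 15980848) (l 16088864))) (a (b (l 16028896) (l 15877632)) (b (l 16064168) (l 16017624)))) (a (c (l 16384808) (b (l 16088128) (l 16230296))) (b (c (l 16392440) (a (l 16055112) (l 16013416))) (c (l 16966704) (l 16429024))))) (a (c (b (l 16068048) (l 16242416)) (b (a (l 15718840) (l 15999560)) (a (l 15557840) (l 16023232)))) (b (a (l 16736440) (c (l 16887960) (l 16849088))) (a (l 16557472) (l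 16804080))))))), by decide +kernel⟩

theorem c_pm_113 : CertB 536870912 536870912 1610612736 536870912 858993459 64424510 3 eng mog cd1q1 cd1q3 pd1 false true false .nn 1 1 3
    ndB1q1 ndB1q3 pcB1 Cut.none Ext.none :=
  certB1 (fam := false) (s1 := true) (s2 := false) (a := 1) (b := 1) (c := 3) (cn := .nn) (n1 := ndB1q1) (n2 := ndB1q3) (pc := pcB1) (cut := Cut.none) (xt := Ext.none) (P1 := 536870912) (W1 := 536870912) (P2 := 1610612736) (W2 := 536870912) (P3 := 858993459) (W3 := 64424510) (N0 := 3) (En := eng) (mo := mog) (C1 := cd1q1) (C2 := cd1q3) (C3 := pd1)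
    rfl (fun _ => rfl) k0_pm_113

noncomputable def f_pm_123 : ℕ → ℕ → ℕ → ℕ → Bool := onCell 536870912 536870912 1073741824 536870912 858993459 64424510
    (rowB 3 eng mog cd1q1 cd1q3 pd2 1 false true false .npn 1 2 3 (qsf 536870912 536870912 1610612736 536870912 2) ndB1q1 ndB1q3 pcB2 Cut.none Ext.none)

def k0_pm_123 : ∃ t, chk3 f_pm_123 t 1 1 1 = true :=
  ⟨(a (b (b (a (c (b (a (l 15347968) (l 15428368)) (a (l 15501624) (l 15594088))) (b (a (l 15407952) (l 15377736)) (a (l 15451928) (l 15435472)))) (c (b (a (l 15568712) (l 15807536)) (a (l 15748048) (l 15998608))) (b (a (l 15389344) (l 15487592)) (a (l 15477056) (l 15626792))))) (b (a (c (a (l 15665432) (l 15768152)) (a (l 15491488) (l 15488680))) (a (l 15498576) (c (l 16189320) (l 15759768)))) (a (c (l 15883824) (l 15525168)) (a (l 15663112) (c (l 16221112) (l 15874832)))))) (a (b (c (b (l 15829016) (l 16221856)) (b (l 15564704) (a (l 15637248) (l 15784064)))) (c (b (l 16345944) (l 16709312)) (a (b (l 15824432)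 (l 15996968)) (b (l 15946856) (l 16099848))))) (b (a (b (c (l 16212480) (l 15798280)) (c (l 16306528) (l 15944840))) (b (c (l 16284944) (l 15996184)) (l 16232072))) (a (b (l 16491528) (l 2)) (l 2))))) (b (a (b (a (b (c (l 16219888) (l 15756576)) (c (l 16309384) (l 15953952))) (b (l 16381144) (a (l 16283440) (l 16384144)))) (a (b (c (l 16288504) (l 16020848)) (a (l 16174520) (l 16255296))) (b (l 16294368) (a (l 16330896) (l 2))))) (b (a (b (a (l 16547136) (l 16637392)) (l 16512736)) (b (l 16705296) (c (l 16630872) (l 16665048)))) (a (b (a (l 16421184) (l 2)) (l 2)) (l 2)))) (a (b (a (b (l 16273000) (l 2)) (l 2)) (l 2)) (l 2)))), by decide +kernel⟩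

theorem c_pm_123 : CertB 536870912 536870912 1610612736 536870912 858993459 64424510 3 eng mog cd1q1 cd1q3 pd2 false true false .npn 1 2 3
    ndB1q1 ndB1q3 pcB2 Cut.none Ext.none :=
  certB1 (fam := false) (s1 := true) (s2 := false) (a := 1) (b := 2) (c := 3) (cn := .npn) (n1 := ndB1q1) (n2 := ndB1q3) (pc := pcB2) (cut := Cut.none) (xt := Ext.none) (P1 := 536870912) (W1 := 536870912) (P2 := 1610612736) (W2 := 536870912) (P3 := 858993459) (W3 := 64424510) (N0 := 3) (En := eng) (mo := mog) (C1 := cd1q1) (C2 := cd1q3) (C3 := pd2)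
    rfl (fun _ => rfl) k0_pm_123

noncomputable def f_pm_133 : ℕ → ℕ → ℕ → ℕ → Bool := onCell 536870912 536870912 1610612736 536870912 858993459 64424510
    (rowB 3 eng mog cd1q1 cd1q3 pd3 0 false true false .dn 1 3 3 (qsf 536870912 536870912 1610612736 536870912 3) ndB1q1 ndB1q3 pcB3 Cut.none Ext.none)

def k0_pm_133 : ∃ t, chk3 f_pm_133 t 1 1 1 = true :=
  ⟨(a (b (l 1) (a (b (l 1) (a (b (l 1) (c (l 16602736) (l 673267819127))) (l 1))) (l 1))) (l 1)), by decide +kernel⟩

theorem c_pm_133 : CertB 536870912 536870912 1610612736 536870912 858993459 64424510 3 eng mog cd1q1 cd1q3 pd3 false true false .dn 1 3 3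
    ndB1q1 ndB1q3 pcB3 Cut.none Ext.none :=
  certB0 (fam := false) (s1 := true) (s2 := false) (a := 1) (b := 3) (c := 3) (cn := .dn) (n1 := ndB1q1) (n2 := ndB1q3) (pc := pcB3) (cut := Cut.none) (xt := Ext.none) (P1 := 536870912) (W1 := 536870912) (P2 := 1610612736) (W2 := 536870912) (P3 := 858993459) (W3 := 64424510) (N0 := 3) (En := eng) (mo := mog) (C1 := cd1q1) (C2 := cd1q3) (C3 := pd3)
    rfl k0_pm_133

noncomputable def cut_pm_202_aa : Cut := Cut.of [[⟨0, 1, 0, 67108864⟩, ⟨1, 0, 0, 67108864⟩, ⟨2, 1, 0, 67108864⟩]]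

noncomputable def f_pm_202_aa : ℕ → ℕ → ℕ → ℕ → Bool := onCell 0 536870912 0 536870912 858993459 64424510
    (rowB 3 eng mog cd1q2a cd1q2a pd0 0 false true false .pp 2 0 2 (qsf 0 536870912 0 536870912 0) ndB1q2a ndB1q2a pcB0 cut_pm_202_aa Ext.none)

def k0_pm_202_aa : ∃ t, chk3 f_pm_202_aa t 1 1 1 = true :=
  ⟨(a (l 3) (b (l 3) (a (l 3) (b (l 3) (b (l 3) (a (l 3) (l 6))))))), by decide +kernel⟩

theorem c_pm_202_aa : CertB 0 536870912 0 536870912 858993459 64424510 3 eng mog cd1q2a cd1q2a pd0 false true false .pp 2 0 2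
    ndB1q2a ndB1q2a pcB0 cut_pm_202_aa Ext.none :=
  certB0 (fam := false) (s1 := true) (s2 := false) (a := 2) (b := 0) (c := 2) (cn := .pp) (n1 := ndB1q2a) (n2 := ndB1q2a) (pc := pcB0) (cut := cut_pm_202_aa) (xt := Ext.none) (P1 := 0) (W1 := 536870912) (P2 := 0) (W2 := 536870912) (P3 := 858993459) (W3 := 64424510) (N0 := 3) (En := eng) (mo := mog) (C1 := cd1q2a) (C2 := cd1q2a) (C3 := pd0)
    rfl k0_pm_202_aa

noncomputable def cut_pm_202_ab : Cut := Cut.of [[⟨0, 1, 0, 67108864⟩, ⟨1, 0, 0, 67108864⟩, ⟨2, 1, 0, 67108864⟩]]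

noncomputable def f_pm_202_ab : ℕ → ℕ → ℕ → ℕ → Bool := onCell 0 536870912 1239849684 370763052 858993459 64424510
    (rowB 3 eng mog cd1q2a cd1q2b pd0 0 false true false .pp 2 0 2 (qsf 0 536870912 1239849684 370763052 0) ndB1q2a ndB1q2b pcB0 cut_pm_202_ab Ext.none)

def k0_pm_202_ab : ∃ t, chk3 f_pm_202_ab t 1 1 1 = true :=
  ⟨(l 3), by decide +kernel⟩

theorem c_pm_202_ab : CertB 0 536870912 1239849684 370763052 858993459 64424510 3 eng mog cd1q2a cd1q2b pd0 false true false .pp 2 0 2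
    ndB1q2a ndB1q2b pcB0 cut_pm_202_ab Ext.none :=
  certB0 (fam := false) (s1 := true) (s2 := false) (a := 2) (b := 0) (c := 2) (cn := .pp) (n1 := ndB1q2a) (n2 := ndB1q2b) (pc := pcB0) (cut := cut_pm_202_ab) (xt := Ext.none) (P1 := 0) (W1 := 536870912) (P2 := 1239849684) (W2 := 370763052) (P3 := 858993459) (W3 := 64424510) (N0 := 3) (En := eng) (mo := mog) (C1 := cd1q2a) (C2 := cd1q2b) (C3 := pd0)
    rfl k0_pm_202_ab

noncomputable def cut_pm_202_ba : Cut := Cut.of [[⟨0, 1, 0, 67108864⟩, ⟨1, 0, 0, 67108864⟩, ⟨2, 1, 0, 67108864⟩]]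

noncomputable def f_pm_202_ba : ℕ → ℕ → ℕ → ℕ → Bool := onCell 1239849684 370763052 0 536870912 858993459 64424510
    (rowB 3 eng mog cd1q2b cd1q2a pd0 0 false true false .pp 2 0 2 (qsf 1239849684 370763052 0 536870912 0) ndB1q2b ndB1q2a pcB0 cut_pm_202_ba Ext.none)

def k0_pm_202_ba : ∃ t, chk3 f_pm_202_ba t 1 1 1 = true :=
  ⟨(l 3), by decide +kernel⟩

theorem c_pm_202_ba : CertB 1239849684 370763052 0 536870912 858993459 64424510 3 eng mog cd1q2b cd1q2a pd0 false true false .pp 2 0 2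
    ndB1q2b ndB1q2a pcB0 cut_pm_202_ba Ext.none :=
  certB0 (fam := false) (s1 := true) (s2 := false) (a := 2) (b := 0) (c := 2) (cn := .pp) (n1 := ndB1q2b) (n2 := ndB1q2a) (pc := pcB0) (cut := cut_pm_202_ba) (xt := Ext.none) (P1 := 1239849684) (W1 := 370763052) (P2 := 0) (W2 := 536870912) (P3 := 858993459) (W3 := 64424510) (N0 := 3) (En := eng) (mo := mog) (C1 := cd1q2b) (C2 := cd1q2a) (C3 := pd0)
    rfl k0_pm_202_ba

noncomputable def cut_pm_202_bb : Cut := Cut.of [[⟨0, 1, 0, 67108864⟩, ⟨1, 0, 0, 67108864⟩, ⟨2, 1, 0, 67108864⟩]]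

noncomputable def f_pm_202_bb : ℕ → ℕ → ℕ → ℕ → Bool := onCell 1239849684 370763052 1239849684 370763052 858993459 64424510
    (rowB 3 eng mog cd1q2b cd1q2b pd0 0 false true false .pp 2 0 2 (qsf 1239849684 370763052 1239849684 370763052 0) ndB1q2b ndB1q2b pcB0 cut_pm_202_bb Ext.none)

def k0_pm_202_bb : ∃ t, chk3 f_pm_202_bb t 1 1 1 = true :=
  ⟨(l 3), by decide +kernel⟩

theorem c_pm_202_bb : CertB 1239849684 370763052 1239849684 370763052 858993459 64424510 3 eng mog cd1q2b cd1q2b pd0 false true false .pp 2 0 2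
    ndB1q2b ndB1q2b pcB0 cut_pm_202_bb Ext.none :=
  certB0 (fam := false) (s1 := true) (s2 := false) (a := 2) (b := 0) (c := 2) (cn := .pp) (n1 := ndB1q2b) (n2 := ndB1q2b) (pc := pcB0) (cut := cut_pm_202_bb) (xt := Ext.none) (P1 := 1239849684) (W1 := 370763052) (P2 := 1239849684) (W2 := 370763052) (P3 := 858993459) (W3 := 64424510) (N0 := 3) (En := eng) (mo := mog) (C1 := cd1q2b) (C2 := cd1q2b) (C3 := pd0)
    rfl k0_pm_202_bb

noncomputable def f_pm_203_a : ℕ → ℕ → ℕ → ℕ → Bool := onCell 0 536870912 0 536870912 858993459 64424510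
    (rowB 3 eng mog cd1q2a cd1q3 pd0 1 false true false .up 2 0 3 (qsf 0 536870912 1610612736 536870912 0) ndB1q2a ndB1q3 pcB0 Cut.none Ext.none)

def k0_pm_203_a : ∃ t, chk3 f_pm_203_a t 1 1 1 = true :=
  ⟨(l 3), by decide +kernel⟩

theorem c_pm_203_a : CertB 0 536870912 1610612736 536870912 858993459 64424510 3 eng mog cd1q2a cd1q3 pd0 false true false .up 2 0 3
    ndB1q2a ndB1q3 pcB0 Cut.none Ext.none :=
  certB1 (fam := false) (s1 := true) (s2 := false) (a := 2) (b := 0) (c := 3) (cn := .up) (n1 := ndB1q2a) (n2 := ndB1q3) (pc := pcB0) (cut := Cut.none) (xt := Ext.none) (P1 := 0) (W1 := 536870912) (P2 := 1610612736) (W2 := 536870912) (P3 := 858993459) (W3 := 64424510) (N0 := 3) (En := eng) (mo := mog) (C1 := cd1q2a) (C2 := cd1q3) (C3 := pd0)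
    rfl (fun _ => rfl) k0_pm_203_a

noncomputable def f_pm_203_b : ℕ → ℕ → ℕ → ℕ → Bool := onCell 1239849684 370763052 1610612736 536870912 858993459 64424510
    (rowB 3 eng mog cd1q2b cd1q3 pd0 0 false true false .up 2 0 3 (qsf 1239849684 370763052 1610612736 536870912 0) ndB1q2b ndB1q3 pcB0 Cut.none Ext.none)

def k0_pm_203_b : ∃ t, chk3 f_pm_203_b t 1 1 1 = true :=
  ⟨(l 3), by decide +kernel⟩

theorem c_pm_203_b : CertB 1239849684 370763052 1610612736 536870912 858993459 64424510 3 eng mog cd1q2b cd1q3 pd0 false true false .up 2 0 3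
    ndB1q2b ndB1q3 pcB0 Cut.none Ext.none :=
  certB0 (fam := false) (s1 := true) (s2 := false) (a := 2) (b := 0) (c := 3) (cn := .up) (n1 := ndB1q2b) (n2 := ndB1q3) (pc := pcB0) (cut := Cut.none) (xt := Ext.none) (P1 := 1239849684) (W1 := 370763052) (P2 := 1610612736) (W2 := 536870912) (P3 := 858993459) (W3 := 64424510) (N0 := 3) (En := eng) (mo := mog) (C1 := cd1q2b) (C2 := cd1q3) (C3 := pd0)
    rfl k0_pm_203_b

noncomputable def cut_pm_213_a : Cut := Cut.of [[⟨0, 1, 0, 67108864⟩, ⟨1, 1, 0, 67108864⟩, ⟨2, 2, 0, 16777216⟩]]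

noncomputable def f_pm_213_a : ℕ → ℕ → ℕ → ℕ → Bool := onCell 0 536870912 1610612736 536870912 858993459 64424510
    (rowB 3 eng mog cd1q2a cd1q3 pd1 0 false true false .pnn 2 1 3 (qsf 0 536870912 1610612736 536870912 1) ndB1q2a ndB1q3 pcB1 cut_pm_213_a Ext.none)

def k0_pm_213_a : ∃ t, chk3 f_pm_213_a t 1 1 1 = true :=
  ⟨(b (l 3) (b (l 3) (a (l 3) (a (l 3) (b (l 3) (a (l 3) (b (l 3) (b (l 3) (b (l 3) (l 6)))))))))), by decide +kernel⟩

theorem c_pm_213_a : CertB 0 536870912 1610612736 536870912 858993459 64424510 3 eng mog cd1q2a cd1q3 pd1 false true false .pnn 2 1 3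
    ndB1q2a ndB1q3 pcB1 cut_pm_213_a Ext.none :=
  certB0 (fam := false) (s1 := true) (s2 := false) (a := 2) (b := 1) (c := 3) (cn := .pnn) (n1 := ndB1q2a) (n2 := ndB1q3) (pc := pcB1) (cut := cut_pm_213_a) (xt := Ext.none) (P1 := 0) (W1 := 536870912) (P2 := 1610612736) (W2 := 536870912) (P3 := 858993459) (W3 := 64424510) (N0 := 3) (En := eng) (mo := mog) (C1 := cd1q2a) (C2 := cd1q3) (C3 := pd1)
    rfl k0_pm_213_a

noncomputable def cut_pm_213_b : Cut := Cut.of [[⟨0, 1, 0, 67108864⟩, ⟨1, 1, 0, 67108864⟩, ⟨2, 2, 0, 16777216⟩]]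

noncomputable def f_pm_213_b : ℕ → ℕ → ℕ → ℕ → Bool := onCell 1239849684 370763052 1610612736 536870912 858993459 64424510
    (rowB 3 eng mog cd1q2b cd1q3 pd1 0 false true false .pnn 2 1 3 (qsf 1239849684 370763052 1610612736 536870912 1) ndB1q2b ndB1q3 pcB1 cut_pm_213_b Ext.none)

def k0_pm_213_b : ∃ t, chk3 f_pm_213_b t 1 1 1 = true :=
  ⟨(l 3), by decide +kernel⟩

theorem c_pm_213_b : CertB 1239849684 370763052 1610612736 536870912 858993459 64424510 3 eng mog cd1q2b cd1q3 pd1 false true false .pnn 2 1 3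
    ndB1q2b ndB1q3 pcB1 cut_pm_213_b Ext.none :=
  certB0 (fam := false) (s1 := true) (s2 := false) (a := 2) (b := 1) (c := 3) (cn := .pnn) (n1 := ndB1q2b) (n2 := ndB1q3) (pc := pcB1) (cut := cut_pm_213_b) (xt := Ext.none) (P1 := 1239849684) (W1 := 370763052) (P2 := 1610612736) (W2 := 536870912) (P3 := 858993459) (W3 := 64424510) (N0 := 3) (En := eng) (mo := mog) (C1 := cd1q2b) (C2 := cd1q3) (C3 := pd1)
    rfl k0_pm_213_b

noncomputable def f_pm_303 : ℕ → ℕ → ℕ → ℕ → Bool := onCell 1610612736 536870912 1610612736 536870912 858993459 64424510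
    (rowB 3 eng mog cd1q3 cd1q3 pd0 0 false true false .npn 3 0 3 (qsf 1610612736 536870912 1610612736 536870912 0) ndB1q3 ndB1q3 pcB0 Cut.none Ext.none)

def k0_pm_303 : ∃ t, chk3 f_pm_303 t 1 1 1 = true :=
  ⟨(l 3), by decide +kernel⟩

theorem c_pm_303 : CertB 1610612736 536870912 1610612736 536870912 858993459 64424510 3 eng mog cd1q3 cd1q3 pd0 false true false .npn 3 0 3
    ndB1q3 ndB1q3 pcB0 Cut.none Ext.none :=
  certB0 (fam := false) (s1 := true) (s2 := false) (a := 3) (b := 0) (c := 3) (cn := .npn) (n1 := ndB1q3) (n2 := ndB1q3) (pc := pcB0) (cut := Cut.none) (xt := Ext.none) (P1 := 1610612736) (W1 := 536870912) (P2 := 1610612736) (W2 := 536870912) (P3 := 858993459) (W3 := 64424510) (N0 := 3) (En := eng) (mo := mog) (C1 := cd1q3) (C2 := cd1q3) (C3 := pd0)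
    rfl k0_pm_303

noncomputable def f_pm_313 : ℕ → ℕ → ℕ → ℕ → Bool := onCell 1610612736 536870912 1610612736 536870912 858993459 64424510
    (rowB 3 eng mog cd1q3 cd1q3 pd1 0 false true false .dn 3 1 3 (qsf 1610612736 536870912 1610612736 536870912 1) ndB1q3 ndB1q3 pcB1 Cut.none Ext.none)

def k0_pm_313 : ∃ t, chk3 f_pm_313 t 1 1 1 = true :=
  ⟨(l 3), by decide +kernel⟩

theorem c_pm_313 : CertB 1610612736 536870912 1610612736 536870912 858993459 64424510 3 eng mog cd1q3 cd1q3 pd1 false true false .dn 3 1 3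
    ndB1q3 ndB1q3 pcB1 Cut.none Ext.none :=
  certB0 (fam := false) (s1 := true) (s2 := false) (a := 3) (b := 1) (c := 3) (cn := .dn) (n1 := ndB1q3) (n2 := ndB1q3) (pc := pcB1) (cut := Cut.none) (xt := Ext.none) (P1 := 1610612736) (W1 := 536870912) (P2 := 1610612736) (W2 := 536870912) (P3 := 858993459) (W3 := 64424510) (N0 := 3) (En := eng) (mo := mog) (C1 := cd1q3) (C2 := cd1q3) (C3 := pd1)
    rfl k0_pm_313

noncomputable def f_mm_001 : ℕ → ℕ → ℕ → ℕ → Bool := onCell 0 536870912 536870912 536870912 858993459 64424510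
    (rowB 3 eng mog cd1q0 cd1q1 pd0 0 false false false .up 0 0 1 (qsf 0 536870912 536870912 536870912 0) ndB1q0 ndB1q1 pcB0 Cut.none Ext.none)

def k0_mm_001 : ∃ t, chk3 f_mm_001 t 1 1 1 = true :=
  ⟨(l 3), by decide +kernel⟩

theorem c_mm_001 : CertB 0 536870912 536870912 536870912 858993459 64424510 3 eng mog cd1q0 cd1q1 pd0 false false false .up 0 0 1
    ndB1q0 ndB1q1 pcB0 Cut.none Ext.none :=
  certB0 (fam := false) (s1 := false) (s2 := false) (a := 0) (b := 0) (c := 1) (cn := .up) (n1 := ndB1q0) (n2 := ndB1q1) (pc := pcB0) (cut := Cut.none) (xt := Ext.none) (P1 := 0) (W1 := 536870912) (P2 := 536870912) (W2 := 536870912) (P3 := 858993459) (W3 := 64424510) (N0 := 3) (En := eng) (mo := mog) (C1 := cd1q0) (C2 := cd1q1) (C3 := pd0)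
    rfl k0_mm_001

noncomputable def f_mm_011 : ℕ → ℕ → ℕ → ℕ → Bool := onCell 0 536870912 536870912 536870912 858993459 64424510
    (rowB 3 eng mog cd1q0 cd1q1 pd1 0 false false false .pnn 0 1 1 (qsf 0 536870912 536870912 536870912 1) ndB1q0 ndB1q1 pcB1 Cut.none Ext.none)

def k0_mm_011 : ∃ t, chk3 f_mm_011 t 1 1 1 = true :=
  ⟨(l 3), by decide +kernel⟩

theorem c_mm_011 : CertB 0 536870912 536870912 536870912 858993459 64424510 3 eng mog cd1q0 cd1q1 pd1 false false false .pnn 0 1 1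
    ndB1q0 ndB1q1 pcB1 Cut.none Ext.none :=
  certB0 (fam := false) (s1 := false) (s2 := false) (a := 0) (b := 1) (c := 1) (cn := .pnn) (n1 := ndB1q0) (n2 := ndB1q1) (pc := pcB1) (cut := Cut.none) (xt := Ext.none) (P1 := 0) (W1 := 536870912) (P2 := 536870912) (W2 := 536870912) (P3 := 858993459) (W3 := 64424510) (N0 := 3) (En := eng) (mo := mog) (C1 := cd1q0) (C2 := cd1q1) (C3 := pd1)
    rfl k0_mm_011

noncomputable def f_mm_012_a : ℕ → ℕ → ℕ → ℕ → Bool := onCell 0 536870912 0 536870912 858993459 64424510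
    (rowB 3 eng mog cd1q0 cd1q2a pd1 0 false false false .pnp 0 1 2 (qsf 0 536870912 0 536870912 1) ndB1q0 ndB1q2a pcB1 Cut.none Ext.none)

def k0_mm_012_a : ∃ t, chk3 f_mm_012_a t 1 1 1 = true :=
  ⟨(l 5), by decide +kernel⟩

theorem c_mm_012_a : CertB 0 536870912 0 536870912 858993459 64424510 3 eng mog cd1q0 cd1q2a pd1 false false false .pnp 0 1 2
    ndB1q0 ndB1q2a pcB1 Cut.none Ext.none :=
  certB0 (fam := false) (s1 := false) (s2 := false) (a := 0) (b := 1) (c := 2) (cn := .pnp) (n1 := ndB1q0) (n2 := ndB1q2a) (pc := pcB1) (cut := Cut.none) (xt := Ext.none) (P1 := 0) (W1 := 536870912) (P2 := 0) (W2 := 536870912) (P3 := 858993459) (W3 := 64424510) (N0 := 3) (En := eng) (mo := mog) (C1 := cd1q0) (C2 := cd1q2a) (C3 := pd1)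
    rfl k0_mm_012_a

noncomputable def f_mm_012_b : ℕ → ℕ → ℕ → ℕ → Bool := onCell 0 536870912 1239849684 370763052 858993459 64424510
    (rowB 3 eng mog cd1q0 cd1q2b pd1 0 false false false .pnp 0 1 2 (qsf 0 536870912 1239849684 370763052 1) ndB1q0 ndB1q2b pcB1 Cut.none Ext.none)

def k0_mm_012_b : ∃ t, chk3 f_mm_012_b t 1 1 1 = true :=
  ⟨(l 5), by decide +kernel⟩

theorem c_mm_012_b : CertB 0 536870912 1239849684 370763052 858993459 64424510 3 eng mog cd1q0 cd1q2b pd1 false false false .pnp 0 1 2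
    ndB1q0 ndB1q2b pcB1 Cut.none Ext.none :=
  certB0 (fam := false) (s1 := false) (s2 := false) (a := 0) (b := 1) (c := 2) (cn := .pnp) (n1 := ndB1q0) (n2 := ndB1q2b) (pc := pcB1) (cut := Cut.none) (xt := Ext.none) (P1 := 0) (W1 := 536870912) (P2 := 1239849684) (W2 := 370763052) (P3 := 858993459) (W3 := 64424510) (N0 := 3) (En := eng) (mo := mog) (C1 := cd1q0) (C2 := cd1q2b) (C3 := pd1)
    rfl k0_mm_012_b

noncomputable def f_mm_022_a : ℕ → ℕ → ℕ → ℕ → Bool := onCell 0 536870912 0 536870912 858993459 64424510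
    (rowB 3 eng mog cd1q0 cd1q2a pd2 0 false false false .pp 0 2 2 (qsf 0 536870912 0 536870912 2) ndB1q0 ndB1q2a pcB2 Cut.none Ext.none)

def k0_mm_022_a : ∃ t, chk3 f_mm_022_a t 1 1 1 = true :=
  ⟨(l 5), by decide +kernel⟩

theorem c_mm_022_a : CertB 0 536870912 0 536870912 858993459 64424510 3 eng mog cd1q0 cd1q2a pd2 false false false .pp 0 2 2
    ndB1q0 ndB1q2a pcB2 Cut.none Ext.none :=
  certB0 (fam := false) (s1 := false) (s2 := false) (a := 0) (b := 2) (c := 2) (cn := .pp) (n1 := ndB1q0) (n2 := ndB1q2a) (pc := pcB2) (cut := Cut.none) (xt := Ext.none) (P1 := 0) (W1 := 536870912) (P2 := 0) (W2 := 536870912) (P3 := 858993459) (W3 := 64424510) (N0 := 3) (En := eng) (mo := mog) (C1 := cd1q0) (C2 := cd1q2a) (C3 := pd2)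
    rfl k0_mm_022_a

noncomputable def f_mm_022_b : ℕ → ℕ → ℕ → ℕ → Bool := onCell 0 536870912 1239849684 370763052 858993459 64424510
    (rowB 3 eng mog cd1q0 cd1q2b pd2 0 false false false .pp 0 2 2 (qsf 0 536870912 1239849684 370763052 2) ndB1q0 ndB1q2b pcB2 Cut.none Ext.none)

def k0_mm_022_b : ∃ t, chk3 f_mm_022_b t 1 1 1 = true :=
  ⟨(l 5), by decide +kernel⟩

theorem c_mm_022_b : CertB 0 536870912 1239849684 370763052 858993459 64424510 3 eng mog cd1q0 cd1q2b pd2 false false false .pp 0 2 2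
    ndB1q0 ndB1q2b pcB2 Cut.none Ext.none :=
  certB0 (fam := false) (s1 := false) (s2 := false) (a := 0) (b := 2) (c := 2) (cn := .pp) (n1 := ndB1q0) (n2 := ndB1q2b) (pc := pcB2) (cut := Cut.none) (xt := Ext.none) (P1 := 0) (W1 := 536870912) (P2 := 1239849684) (W2 := 370763052) (P3 := 858993459) (W3 := 64424510) (N0 := 3) (En := eng) (mo := mog) (C1 := cd1q0) (C2 := cd1q2b) (C3 := pd2)
    rfl k0_mm_022_b

noncomputable def f_mm_023 : ℕ → ℕ → ℕ → ℕ → Bool := onCell 0 536870912 1610612736 536870912 858993459 64424510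
    (rowB 3 eng mog cd1q0 cd1q3 pd2 0 false false false .up 0 2 3 (qsf 0 536870912 1610612736 536870912 2) ndB1q0 ndB1q3 pcB2 Cut.none Ext.none)

def k0_mm_023 : ∃ t, chk3 f_mm_023 t 1 1 1 = true :=
  ⟨(l 5), by decide +kernel⟩

theorem c_mm_023 : CertB 0 536870912 1610612736 536870912 858993459 64424510 3 eng mog cd1q0 cd1q3 pd2 false false false .up 0 2 3
    ndB1q0 ndB1q3 pcB2 Cut.none Ext.none :=
  certB0 (fam := false) (s1 := false) (s2 := false) (a := 0) (b := 2) (c := 3) (cn := .up) (n1 := ndB1q0) (n2 := ndB1q3) (pc := pcB2) (cut := Cut.none) (xt := Ext.none) (P1 := 0) (W1 := 536870912) (P2 := 1610612736) (W2 := 536870912) (P3 := 858993459) (W3 := 64424510) (N0 := 3) (En := eng) (mo := mog) (C1 := cd1q0) (C2 := cd1q3) (C3 := pd2)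
    rfl k0_mm_023

noncomputable def f_mm_033 : ℕ → ℕ → ℕ → ℕ → Bool := onCell 0 536870912 1610612736 536870912 858993459 64424510
    (rowB 3 eng mog cd1q0 cd1q3 pd3 0 false false false .pnn 0 3 3 (qsf 0 536870912 1610612736 536870912 3) ndB1q0 ndB1q3 pcB3 Cut.none Ext.none)

def k0_mm_033 : ∃ t, chk3 f_mm_033 t 1 1 1 = true :=
  ⟨(l 5), by decide +kernel⟩

theorem c_mm_033 : CertB 0 536870912 1610612736 536870912 858993459 64424510 3 eng mog cd1q0 cd1q3 pd3 false false false .pnn 0 3 3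
    ndB1q0 ndB1q3 pcB3 Cut.none Ext.none :=
  certB0 (fam := false) (s1 := false) (s2 := false) (a := 0) (b := 3) (c := 3) (cn := .pnn) (n1 := ndB1q0) (n2 := ndB1q3) (pc := pcB3) (cut := Cut.none) (xt := Ext.none) (P1 := 0) (W1 := 536870912) (P2 := 1610612736) (W2 := 536870912) (P3 := 858993459) (W3 := 64424510) (N0 := 3) (En := eng) (mo := mog) (C1 := cd1q0) (C2 := cd1q3) (C3 := pd3)
    rfl k0_mm_033

noncomputable def f_mm_101 : ℕ → ℕ → ℕ → ℕ → Bool := onCell 536870912 536870912 536870912 536870912 858993459 64424510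
    (rowB 3 eng mog cd1q1 cd1q1 pd0 0 false false false .npn 1 0 1 (qsf 536870912 536870912 536870912 536870912 0) ndB1q1 ndB1q1 pcB0 Cut.none Ext.none)

def k0_mm_101 : ∃ t, chk3 f_mm_101 t 1 1 1 = true :=
  ⟨(l 3), by decide +kernel⟩

theorem c_mm_101 : CertB 536870912 536870912 536870912 536870912 858993459 64424510 3 eng mog cd1q1 cd1q1 pd0 false false false .npn 1 0 1
    ndB1q1 ndB1q1 pcB0 Cut.none Ext.none :=
  certB0 (fam := false) (s1 := false) (s2 := false) (a := 1) (b := 0) (c := 1) (cn := .npn) (n1 := ndB1q1) (n2 := ndB1q1) (pc := pcB0) (cut := Cut.none) (xt := Ext.none) (P1 := 536870912) (W1 := 536870912) (P2 := 536870912) (W2 := 536870912) (P3 := 858993459) (W3 := 64424510) (N0 := 3) (En := eng) (mo := mog) (C1 := cd1q1) (C2 := cd1q1) (C3 := pd0)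
    rfl k0_mm_101

noncomputable def f_mm_102_a : ℕ → ℕ → ℕ → ℕ → Bool := onCell 536870912 536870912 0 536870912 858993459 64424510
    (rowB 3 eng mog cd1q1 cd1q2a pd0 0 false false false .npp 1 0 2 (qsf 536870912 536870912 0 536870912 0) ndB1q1 ndB1q2a pcB0 Cut.none Ext.none)

def k0_mm_102_a : ∃ t, chk3 f_mm_102_a t 1 1 1 = true :=
  ⟨(l 5), by decide +kernel⟩

theorem c_mm_102_a : CertB 536870912 536870912 0 536870912 858993459 64424510 3 eng mog cd1q1 cd1q2a pd0 false false false .npp 1 0 2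
    ndB1q1 ndB1q2a pcB0 Cut.none Ext.none :=
  certB0 (fam := false) (s1 := false) (s2 := false) (a := 1) (b := 0) (c := 2) (cn := .npp) (n1 := ndB1q1) (n2 := ndB1q2a) (pc := pcB0) (cut := Cut.none) (xt := Ext.none) (P1 := 536870912) (W1 := 536870912) (P2 := 0) (W2 := 536870912) (P3 := 858993459) (W3 := 64424510) (N0 := 3) (En := eng) (mo := mog) (C1 := cd1q1) (C2 := cd1q2a) (C3 := pd0)
    rfl k0_mm_102_a

noncomputable def f_mm_102_b : ℕ → ℕ → ℕ → ℕ → Bool := onCell 536870912 536870912 1239849684 370763052 858993459 64424510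
    (rowB 3 eng mog cd1q1 cd1q2b pd0 0 false false false .npp 1 0 2 (qsf 536870912 536870912 1239849684 370763052 0) ndB1q1 ndB1q2b pcB0 Cut.none Ext.none)

def k0_mm_102_b : ∃ t, chk3 f_mm_102_b t 1 1 1 = true :=
  ⟨(l 5), by decide +kernel⟩

theorem c_mm_102_b : CertB 536870912 536870912 1239849684 370763052 858993459 64424510 3 eng mog cd1q1 cd1q2b pd0 false false false .npp 1 0 2
    ndB1q1 ndB1q2b pcB0 Cut.none Ext.none :=
  certB0 (fam := false) (s1 := false) (s2 := false) (a := 1) (b := 0) (c := 2) (cn := .npp) (n1 := ndB1q1) (n2 := ndB1q2b) (pc := pcB0) (cut := Cut.none) (xt := Ext.none) (P1 := 536870912) (W1 := 536870912) (P2 := 1239849684) (W2 := 370763052) (P3 := 858993459) (W3 := 64424510) (N0 := 3) (En := eng) (mo := mog) (C1 := cd1q1) (C2 := cd1q2b) (C3 := pd0)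
    rfl k0_mm_102_b

noncomputable def f_mm_112_a : ℕ → ℕ → ℕ → ℕ → Bool := onCell 536870912 536870912 0 536870912 858993459 64424510
    (rowB 3 eng mog cd1q1 cd1q2a pd1 0 false false false .dn 1 1 2 (qsf 536870912 536870912 0 536870912 1) ndB1q1 ndB1q2a pcB1 Cut.none Ext.none)

def k0_mm_112_a : ∃ t, chk3 f_mm_112_a t 1 1 1 = true :=
  ⟨(l 5), by decide +kernel⟩

theorem c_mm_112_a : CertB 536870912 536870912 0 536870912 858993459 64424510 3 eng mog cd1q1 cd1q2a pd1 false false false .dn 1 1 2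
    ndB1q1 ndB1q2a pcB1 Cut.none Ext.none :=
  certB0 (fam := false) (s1 := false) (s2 := false) (a := 1) (b := 1) (c := 2) (cn := .dn) (n1 := ndB1q1) (n2 := ndB1q2a) (pc := pcB1) (cut := Cut.none) (xt := Ext.none) (P1 := 536870912) (W1 := 536870912) (P2 := 0) (W2 := 536870912) (P3 := 858993459) (W3 := 64424510) (N0 := 3) (En := eng) (mo := mog) (C1 := cd1q1) (C2 := cd1q2a) (C3 := pd1)
    rfl k0_mm_112_a

noncomputable def f_mm_112_b : ℕ → ℕ → ℕ → ℕ → Bool := onCell 536870912 536870912 1239849684 370763052 858993459 64424510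
    (rowB 3 eng mog cd1q1 cd1q2b pd1 0 false false false .dn 1 1 2 (qsf 536870912 536870912 1239849684 370763052 1) ndB1q1 ndB1q2b pcB1 Cut.none Ext.none)

def k0_mm_112_b : ∃ t, chk3 f_mm_112_b t 1 1 1 = true :=
  ⟨(l 5), by decide +kernel⟩

theorem c_mm_112_b : CertB 536870912 536870912 1239849684 370763052 858993459 64424510 3 eng mog cd1q1 cd1q2b pd1 false false false .dn 1 1 2
    ndB1q1 ndB1q2b pcB1 Cut.none Ext.none :=
  certB0 (fam := false) (s1 := false) (s2 := false) (a := 1) (b := 1) (c := 2) (cn := .dn) (n1 := ndB1q1) (n2 := ndB1q2b) (pc := pcB1) (cut := Cut.none) (xt := Ext.none) (P1 := 536870912) (W1 := 536870912) (P2 := 1239849684) (W2 := 370763052) (P3 := 858993459) (W3 := 64424510) (N0 := 3) (En := eng) (mo := mog) (C1 := cd1q1) (C2 := cd1q2b) (C3 := pd1)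
    rfl k0_mm_112_b

noncomputable def f_mm_113 : ℕ → ℕ → ℕ → ℕ → Bool := onCell 536870912 536870912 1610612736 536870912 858993459 64424510
    (rowB 3 eng mog cd1q1 cd1q3 pd1 0 false false false .nn 1 1 3 (qsf 536870912 536870912 1610612736 536870912 1) ndB1q1 ndB1q3 pcB1 Cut.none Ext.none)

def k0_mm_113 : ∃ t, chk3 f_mm_113 t 1 1 1 = true :=
  ⟨(l 5), by decide +kernel⟩

theorem c_mm_113 : CertB 536870912 536870912 1610612736 536870912 858993459 64424510 3 eng mog cd1q1 cd1q3 pd1 false false false .nn 1 1 3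
    ndB1q1 ndB1q3 pcB1 Cut.none Ext.none :=
  certB0 (fam := false) (s1 := false) (s2 := false) (a := 1) (b := 1) (c := 3) (cn := .nn) (n1 := ndB1q1) (n2 := ndB1q3) (pc := pcB1) (cut := Cut.none) (xt := Ext.none) (P1 := 536870912) (W1 := 536870912) (P2 := 1610612736) (W2 := 536870912) (P3 := 858993459) (W3 := 64424510) (N0 := 3) (En := eng) (mo := mog) (C1 := cd1q1) (C2 := cd1q3) (C3 := pd1)
    rfl k0_mm_113

noncomputable def f_mm_123 : ℕ → ℕ → ℕ → ℕ → Bool := onCell 536870912 536870912 1610612736 536870912 858993459 64424510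
    (rowB 3 eng mog cd1q1 cd1q3 pd2 0 false false false .npn 1 2 3 (qsf 536870912 536870912 1610612736 536870912 2) ndB1q1 ndB1q3 pcB2 Cut.none Ext.none)

def k0_mm_123 : ∃ t, chk3 f_mm_123 t 1 1 1 = true :=
  ⟨(l 5), by decide +kernel⟩

theorem c_mm_123 : CertB 536870912 536870912 1610612736 536870912 858993459 64424510 3 eng mog cd1q1 cd1q3 pd2 false false false .npn 1 2 3
    ndB1q1 ndB1q3 pcB2 Cut.none Ext.none :=
  certB0 (fam := false) (s1 := false) (s2 := false) (a := 1) (b := 2) (c := 3) (cn := .npn) (n1 := ndB1q1) (n2 := ndB1q3) (pc := pcB2) (cut := Cut.none) (xt := Ext.none) (P1 := 536870912) (W1 := 536870912) (P2 := 1610612736) (W2 := 536870912) (P3 := 858993459) (W3 := 64424510) (N0 := 3) (En := eng) (mo := mog) (C1 := cd1q1) (C2 := cd1q3) (C3 := pd2)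
    rfl k0_mm_123

noncomputable def f_mm_133 : ℕ → ℕ → ℕ → ℕ → Bool := onCell 536870912 536870912 1610612736 536870912 858993459 64424510
    (rowB 3 eng mog cd1q1 cd1q3 pd3 0 false false false .dn 1 3 3 (qsf 536870912 536870912 1610612736 536870912 3) ndB1q1 ndB1q3 pcB3 Cut.none Ext.none)

def k0_mm_133 : ∃ t, chk3 f_mm_133 t 1 1 1 = true :=
  ⟨(l 5), by decide +kernel⟩

theorem c_mm_133 : CertB 536870912 536870912 1610612736 536870912 858993459 64424510 3 eng mog cd1q1 cd1q3 pd3 false false false .dn 1 3 3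
    ndB1q1 ndB1q3 pcB3 Cut.none Ext.none :=
  certB0 (fam := false) (s1 := false) (s2 := false) (a := 1) (b := 3) (c := 3) (cn := .dn) (n1 := ndB1q1) (n2 := ndB1q3) (pc := pcB3) (cut := Cut.none) (xt := Ext.none) (P1 := 536870912) (W1 := 536870912) (P2 := 1610612736) (W2 := 536870912) (P3 := 858993459) (W3 := 64424510) (N0 := 3) (En := eng) (mo := mog) (C1 := cd1q1) (C2 := cd1q3) (C3 := pd3)
    rfl k0_mm_133

noncomputable def f_mm_202_aa : ℕ → ℕ → ℕ → ℕ → Bool := onCell 0 536870912 0 536870912 858993459 64424510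
    (rowB 3 eng mog cd1q2a cd1q2a pd0 0 false false false .pp 2 0 2 (qsf 0 536870912 0 536870912 0) ndB1q2a ndB1q2a pcB0 Cut.none Ext.none)

def k0_mm_202_aa : ∃ t, chk3 f_mm_202_aa t 1 1 1 = true :=
  ⟨(l 3), by decide +kernel⟩

theorem c_mm_202_aa : CertB 0 536870912 0 536870912 858993459 64424510 3 eng mog cd1q2a cd1q2a pd0 false false false .pp 2 0 2
    ndB1q2a ndB1q2a pcB0 Cut.none Ext.none :=
  certB0 (fam := false) (s1 := false) (s2 := false) (a := 2) (b := 0) (c := 2) (cn := .pp) (n1 := ndB1q2a) (n2 := ndB1q2a) (pc := pcB0) (cut := Cut.none) (xt := Ext.none) (P1 := 0) (W1 := 536870912) (P2 := 0) (W2 := 536870912) (P3 := 858993459) (W3 := 64424510) (N0 := 3) (En := eng) (mo := mog) (C1 := cd1q2a) (C2 := cd1q2a) (C3 := pd0)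
    rfl k0_mm_202_aa

noncomputable def f_mm_202_ab : ℕ → ℕ → ℕ → ℕ → Bool := onCell 0 536870912 1239849684 370763052 858993459 64424510
    (rowB 3 eng mog cd1q2a cd1q2b pd0 0 false false false .pp 2 0 2 (qsf 0 536870912 1239849684 370763052 0) ndB1q2a ndB1q2b pcB0 Cut.none Ext.none)

def k0_mm_202_ab : ∃ t, chk3 f_mm_202_ab t 1 1 1 = true :=
  ⟨(l 3), by decide +kernel⟩

theorem c_mm_202_ab : CertB 0 536870912 1239849684 370763052 858993459 64424510 3 eng mog cd1q2a cd1q2b pd0 false false false .pp 2 0 2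
    ndB1q2a ndB1q2b pcB0 Cut.none Ext.none :=
  certB0 (fam := false) (s1 := false) (s2 := false) (a := 2) (b := 0) (c := 2) (cn := .pp) (n1 := ndB1q2a) (n2 := ndB1q2b) (pc := pcB0) (cut := Cut.none) (xt := Ext.none) (P1 := 0) (W1 := 536870912) (P2 := 1239849684) (W2 := 370763052) (P3 := 858993459) (W3 := 64424510) (N0 := 3) (En := eng) (mo := mog) (C1 := cd1q2a) (C2 := cd1q2b) (C3 := pd0)
    rfl k0_mm_202_ab

noncomputable def f_mm_202_ba : ℕ → ℕ → ℕ → ℕ → Bool := onCell 1239849684 370763052 0 536870912 858993459 64424510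
    (rowB 3 eng mog cd1q2b cd1q2a pd0 0 false false false .pp 2 0 2 (qsf 1239849684 370763052 0 536870912 0) ndB1q2b ndB1q2a pcB0 Cut.none Ext.none)

def k0_mm_202_ba : ∃ t, chk3 f_mm_202_ba t 1 1 1 = true :=
  ⟨(l 3), by decide +kernel⟩

theorem c_mm_202_ba : CertB 1239849684 370763052 0 536870912 858993459 64424510 3 eng mog cd1q2b cd1q2a pd0 false false false .pp 2 0 2
    ndB1q2b ndB1q2a pcB0 Cut.none Ext.none :=
  certB0 (fam := false) (s1 := false) (s2 := false) (a := 2) (b := 0) (c := 2) (cn := .pp) (n1 := ndB1q2b) (n2 := ndB1q2a) (pc := pcB0) (cut := Cut.none) (xt := Ext.none) (P1 := 1239849684) (W1 := 370763052) (P2 := 0) (W2 := 536870912) (P3 := 858993459) (W3 := 64424510) (N0 := 3) (En := eng) (mo := mog) (C1 := cd1q2b) (C2 := cd1q2a) (C3 := pd0)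
    rfl k0_mm_202_ba

noncomputable def f_mm_202_bb : ℕ → ℕ → ℕ → ℕ → Bool := onCell 1239849684 370763052 1239849684 370763052 858993459 64424510
    (rowB 3 eng mog cd1q2b cd1q2b pd0 0 false false false .pp 2 0 2 (qsf 1239849684 370763052 1239849684 370763052 0) ndB1q2b ndB1q2b pcB0 Cut.none Ext.none)

def k0_mm_202_bb : ∃ t, chk3 f_mm_202_bb t 1 1 1 = true :=
  ⟨(l 3), by decide +kernel⟩

theorem c_mm_202_bb : CertB 1239849684 370763052 1239849684 370763052 858993459 64424510 3 eng mog cd1q2b cd1q2b pd0 false false false .pp 2 0 2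
    ndB1q2b ndB1q2b pcB0 Cut.none Ext.none :=
  certB0 (fam := false) (s1 := false) (s2 := false) (a := 2) (b := 0) (c := 2) (cn := .pp) (n1 := ndB1q2b) (n2 := ndB1q2b) (pc := pcB0) (cut := Cut.none) (xt := Ext.none) (P1 := 1239849684) (W1 := 370763052) (P2 := 1239849684) (W2 := 370763052) (P3 := 858993459) (W3 := 64424510) (N0 := 3) (En := eng) (mo := mog) (C1 := cd1q2b) (C2 := cd1q2b) (C3 := pd0)
    rfl k0_mm_202_bb

noncomputable def f_mm_203_a : ℕ → ℕ → ℕ → ℕ → Bool := onCell 0 536870912 0 536870912 858993459 64424510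
    (rowB 3 eng mog cd1q2a cd1q3 pd0 1 false false false .up 2 0 3 (qsf 0 536870912 1610612736 536870912 0) ndB1q2a ndB1q3 pcB0 Cut.none Ext.none)

def k0_mm_203_a : ∃ t, chk3 f_mm_203_a t 1 1 1 = true :=
  ⟨(l 3), by decide +kernel⟩

theorem c_mm_203_a : CertB 0 536870912 1610612736 536870912 858993459 64424510 3 eng mog cd1q2a cd1q3 pd0 false false false .up 2 0 3
    ndB1q2a ndB1q3 pcB0 Cut.none Ext.none :=
  certB1 (fam := false) (s1 := false) (s2 := false) (a := 2) (b := 0) (c := 3) (cn := .up) (n1 := ndB1q2a) (n2 := ndB1q3) (pc := pcB0) (cut := Cut.none) (xt := Ext.none) (P1 := 0) (W1 := 536870912) (P2 := 1610612736) (W2 := 536870912) (P3 := 858993459) (W3 := 64424510) (N0 := 3) (En := eng) (mo := mog) (C1 := cd1q2a) (C2 := cd1q3) (C3 := pd0)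
    rfl (fun _ => rfl) k0_mm_203_a

noncomputable def f_mm_203_b : ℕ → ℕ → ℕ → ℕ → Bool := onCell 1239849684 370763052 1610612736 536870912 858993459 64424510
    (rowB 3 eng mog cd1q2b cd1q3 pd0 0 false false false .up 2 0 3 (qsf 1239849684 370763052 1610612736 536870912 0) ndB1q2b ndB1q3 pcB0 Cut.none Ext.none)

def k0_mm_203_b : ∃ t, chk3 f_mm_203_b t 1 1 1 = true :=
  ⟨(l 3), by decide +kernel⟩

theorem c_mm_203_b : CertB 1239849684 370763052 1610612736 536870912 858993459 64424510 3 eng mog cd1q2b cd1q3 pd0 false false false .up 2 0 3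
    ndB1q2b ndB1q3 pcB0 Cut.none Ext.none :=
  certB0 (fam := false) (s1 := false) (s2 := false) (a := 2) (b := 0) (c := 3) (cn := .up) (n1 := ndB1q2b) (n2 := ndB1q3) (pc := pcB0) (cut := Cut.none) (xt := Ext.none) (P1 := 1239849684) (W1 := 370763052) (P2 := 1610612736) (W2 := 536870912) (P3 := 858993459) (W3 := 64424510) (N0 := 3) (En := eng) (mo := mog) (C1 := cd1q2b) (C2 := cd1q3) (C3 := pd0)
    rfl k0_mm_203_b

noncomputable def f_mm_213_a : ℕ → ℕ → ℕ → ℕ → Bool := onCell 0 536870912 1610612736 536870912 858993459 64424510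
    (rowB 3 eng mog cd1q2a cd1q3 pd1 0 false false false .pnn 2 1 3 (qsf 0 536870912 1610612736 536870912 1) ndB1q2a ndB1q3 pcB1 Cut.none Ext.none)

def k0_mm_213_a : ∃ t, chk3 f_mm_213_a t 1 1 1 = true :=
  ⟨(b (l 3) (l 5)), by decide +kernel⟩

theorem c_mm_213_a : CertB 0 536870912 1610612736 536870912 858993459 64424510 3 eng mog cd1q2a cd1q3 pd1 false false false .pnn 2 1 3
    ndB1q2a ndB1q3 pcB1 Cut.none Ext.none :=
  certB0 (fam := false) (s1 := false) (s2 := false) (a := 2) (b := 1) (c := 3) (cn := .pnn) (n1 := ndB1q2a) (n2 := ndB1q3) (pc := pcB1) (cut := Cut.none) (xt := Ext.none) (P1 := 0) (W1 := 536870912) (P2 := 1610612736) (W2 := 536870912) (P3 := 858993459) (W3 := 64424510) (N0 := 3) (En := eng) (mo := mog) (C1 := cd1q2a) (C2 := cd1q3) (C3 := pd1)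
    rfl k0_mm_213_a

noncomputable def f_mm_213_b : ℕ → ℕ → ℕ → ℕ → Bool := onCell 1239849684 370763052 1610612736 536870912 858993459 64424510
    (rowB 3 eng mog cd1q2b cd1q3 pd1 0 false false false .pnn 2 1 3 (qsf 1239849684 370763052 1610612736 536870912 1) ndB1q2b ndB1q3 pcB1 Cut.none Ext.none)

def k0_mm_213_b : ∃ t, chk3 f_mm_213_b t 1 1 1 = true :=
  ⟨(l 3), by decide +kernel⟩

theorem c_mm_213_b : CertB 1239849684 370763052 1610612736 536870912 858993459 64424510 3 eng mog cd1q2b cd1q3 pd1 false false false .pnn 2 1 3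
    ndB1q2b ndB1q3 pcB1 Cut.none Ext.none :=
  certB0 (fam := false) (s1 := false) (s2 := false) (a := 2) (b := 1) (c := 3) (cn := .pnn) (n1 := ndB1q2b) (n2 := ndB1q3) (pc := pcB1) (cut := Cut.none) (xt := Ext.none) (P1 := 1239849684) (W1 := 370763052) (P2 := 1610612736) (W2 := 536870912) (P3 := 858993459) (W3 := 64424510) (N0 := 3) (En := eng) (mo := mog) (C1 := cd1q2b) (C2 := cd1q3) (C3 := pd1)
    rfl k0_mm_213_b

noncomputable def f_mm_303 : ℕ → ℕ → ℕ → ℕ → Bool := onCell 1610612736 536870912 1610612736 536870912 858993459 64424510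
    (rowB 3 eng mog cd1q3 cd1q3 pd0 0 false false false .npn 3 0 3 (qsf 1610612736 536870912 1610612736 536870912 0) ndB1q3 ndB1q3 pcB0 Cut.none Ext.none)

def k0_mm_303 : ∃ t, chk3 f_mm_303 t 1 1 1 = true :=
  ⟨(l 3), by decide +kernel⟩

theorem c_mm_303 : CertB 1610612736 536870912 1610612736 536870912 858993459 64424510 3 eng mog cd1q3 cd1q3 pd0 false false false .npn 3 0 3
    ndB1q3 ndB1q3 pcB0 Cut.none Ext.none :=
  certB0 (fam := false) (s1 := false) (s2 := false) (a := 3) (b := 0) (c := 3) (cn := .npn) (n1 := ndB1q3) (n2 := ndB1q3) (pc := pcB0) (cut := Cut.none) (xt := Ext.none) (P1 := 1610612736) (W1 := 536870912) (P2 := 1610612736) (W2 := 536870912) (P3 := 858993459) (W3 := 64424510) (N0 := 3) (En := eng) (mo := mog) (C1 := cd1q3) (C2 := cd1q3) (C3 := pd0)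
    rfl k0_mm_303

noncomputable def f_mm_313 : ℕ → ℕ → ℕ → ℕ → Bool := onCell 1610612736 536870912 1610612736 536870912 858993459 64424510
    (rowB 3 eng mog cd1q3 cd1q3 pd1 0 false false false .dn 3 1 3 (qsf 1610612736 536870912 1610612736 536870912 1) ndB1q3 ndB1q3 pcB1 Cut.none Ext.none)

def k0_mm_313 : ∃ t, chk3 f_mm_313 t 1 1 1 = true :=
  ⟨(l 3), by decide +kernel⟩

theorem c_mm_313 : CertB 1610612736 536870912 1610612736 536870912 858993459 64424510 3 eng mog cd1q3 cd1q3 pd1 false false false .dn 3 1 3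
    ndB1q3 ndB1q3 pcB1 Cut.none Ext.none :=
  certB0 (fam := false) (s1 := false) (s2 := false) (a := 3) (b := 1) (c := 3) (cn := .dn) (n1 := ndB1q3) (n2 := ndB1q3) (pc := pcB1) (cut := Cut.none) (xt := Ext.none) (P1 := 1610612736) (W1 := 536870912) (P2 := 1610612736) (W2 := 536870912) (P3 := 858993459) (W3 := 64424510) (N0 := 3) (En := eng) (mo := mog) (C1 := cd1q3) (C2 := cd1q3) (C3 := pd1)
    rfl k0_mm_313

end Pool.Agent.Strip051.G.I8000_8600.Tab.C.BB11

namespace Pool.Agent.Strip051.G.I8000_8600.Tab.C.BB12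

open Pool.Agent.Strip051.PB Pool.Agent.Strip051.PB.T
open Pool.Agent.Strip051.G.I8000_8600.Tab

noncomputable def f_pp_001 : ℕ → ℕ → ℕ → ℕ → Bool := onCell 0 536870912 0 536870912 858993459 64424510
    (rowB 3 eng mog cd1q0 cd2q1 pd0 1 false true true .up 0 0 1 (qsf 0 536870912 536870912 536870912 0) ndB1q0 ndB2q1 pcB0 Cut.none Ext.none)

def k0_pp_001 : ∃ t, chk3 f_pp_001 t 1 1 1 = true :=
  ⟨(l 3), by decide +kernel⟩

theorem c_pp_001 : CertB 0 536870912 536870912 536870912 858993459 64424510 3 eng mog cd1q0 cd2q1 pd0 false true true .up 0 0 1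
    ndB1q0 ndB2q1 pcB0 Cut.none Ext.none :=
  certB1 (fam := false) (s1 := true) (s2 := true) (a := 0) (b := 0) (c := 1) (cn := .up) (n1 := ndB1q0) (n2 := ndB2q1) (pc := pcB0) (cut := Cut.none) (xt := Ext.none) (P1 := 0) (W1 := 536870912) (P2 := 536870912) (W2 := 536870912) (P3 := 858993459) (W3 := 64424510) (N0 := 3) (En := eng) (mo := mog) (C1 := cd1q0) (C2 := cd2q1) (C3 := pd0)
    rfl (fun _ => rfl) k0_pp_001

noncomputable def cut_pp_011 : Cut := Cut.of [[⟨0, 0, 0, 67108864⟩, ⟨1, 1, 0, 67108864⟩, ⟨2, 1, 0, 67108864⟩]]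

noncomputable def f_pp_011 : ℕ → ℕ → ℕ → ℕ → Bool := onCell 0 536870912 536870912 536870912 858993459 64424510
    (rowB 3 eng mog cd1q0 cd2q1 pd1 1 false true true .pnn 0 1 1 (qsf 0 536870912 536870912 536870912 1) ndB1q0 ndB2q1 pcB1 cut_pp_011 Ext.none)

def k0_pp_011 : ∃ t, chk3 f_pp_011 t 1 1 1 = true :=
  ⟨(b (l 3) (b (l 3) (a (b (l 3) (a (a (b (l 3) (a (l 6) (l 3))) (l 3)) (l 2))) (l 2)))), by decide +kernel⟩

theorem c_pp_011 : CertB 0 536870912 536870912 536870912 858993459 64424510 3 eng mog cd1q0 cd2q1 pd1 false true true .pnn 0 1 1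
    ndB1q0 ndB2q1 pcB1 cut_pp_011 Ext.none :=
  certB1 (fam := false) (s1 := true) (s2 := true) (a := 0) (b := 1) (c := 1) (cn := .pnn) (n1 := ndB1q0) (n2 := ndB2q1) (pc := pcB1) (cut := cut_pp_011) (xt := Ext.none) (P1 := 0) (W1 := 536870912) (P2 := 536870912) (W2 := 536870912) (P3 := 858993459) (W3 := 64424510) (N0 := 3) (En := eng) (mo := mog) (C1 := cd1q0) (C2 := cd2q1) (C3 := pd1)
    rfl (fun _ => rfl) k0_pp_011

noncomputable def f_pp_012 : ℕ → ℕ → ℕ → ℕ → Bool := onCell 536870912 536870912 1073741824 536870912 858993459 64424510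
    (rowB 3 eng mog cd1q0 cd2q2 pd1 2 false true true .pnp 0 1 2 (qsf 0 536870912 1073741824 536870912 1) ndB1q0 ndB2q2 pcB1 Cut.none Ext.none)

def k0_pp_012 : ∃ t, chk3 f_pp_012 t 1 1 1 = true :=
  ⟨(a (l 3) (a (l 3) (b (l 3) (a (b (l 3) (l 3)) (b (a (l 3) (c (b (l 561196597047) (a (l 16332288) (l 16301848))) (b (l 425905720807) (l 16374184)))) (c (b (a (l 16107568) (l 16084504)) (a (l 16175344) (l 16195248))) (a (b (l 16354432) (l 16279504)) (b (l 16300592) (l 16225856))))))))), by decide +kernel⟩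

theorem c_pp_012 : CertB 0 536870912 1073741824 536870912 858993459 64424510 3 eng mog cd1q0 cd2q2 pd1 false true true .pnp 0 1 2
    ndB1q0 ndB2q2 pcB1 Cut.none Ext.none :=
  certB2 (fam := false) (s1 := true) (s2 := true) (a := 0) (b := 1) (c := 2) (cn := .pnp) (n1 := ndB1q0) (n2 := ndB2q2) (pc := pcB1) (cut := Cut.none) (xt := Ext.none) (P1 := 0) (W1 := 536870912) (P2 := 1073741824) (W2 := 536870912) (P3 := 858993459) (W3 := 64424510) (N0 := 3) (En := eng) (mo := mog) (C1 := cd1q0) (C2 := cd2q2) (C3 := pd1)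
    rfl (fun _ => rfl) k0_pp_012

noncomputable def f_pp_022 : ℕ → ℕ → ℕ → ℕ → Bool := onCell 0 536870912 1073741824 536870912 858993459 64424510
    (rowB 3 eng mog cd1q0 cd2q2 pd2 1 false true true .pp 0 2 2 (qsf 0 536870912 1073741824 536870912 2) ndB1q0 ndB2q2 pcB2 Cut.none Ext.none)

def k0_pp_022 : ∃ t, chk3 f_pp_022 t 1 8 1 = true :=
  ⟨(a (a (b (l 3) (b (b (l 3) (a (l 3) (a (l 3) (b (l 355038897415) (l 16585312))))) (b (a (l 3) (a (a (l 3) (l 16483984)) (a (l 16564224) (l 16559568)))) (a (a (l 3) (a (l 3) (c (l 16552008) (l 345375012023)))) (a (c (l 16539120) (a (l 16510648) (l 16513488))) (c (l 16551304) (l 16422632))))))) (a (a (b (l 3) (b (b (l 476371579751) (l 132774199975)) (b (l 16461872) (l 16454512)))) (b (b (l 3) (a (l 476908348551) (l 16345936))) (b (b (l 16386240) (l 16365368)) (b (l 16527512) (l 16502264))))) (b (c (b (l 503214767143) (l 126868913751)) (b (l 500530539127) (l 174649903351))) (b (c (l 16522984) (a (l 16511608) (l 16484496))) (c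 (l 16460360) (l 16446712)))))) (a (b (a (c (b (l 16192192) (l 16365088)) (b (l 16420936) (l 16439056))) (c (l 16268896) (l 16337496))) (a (c (l 16368144) (l 16422520)) (c (l 16277152) (l 16367616)))) (c (a (b (l 16052184) (l 16189672)) (b (l 16092224) (l 16107544))) (b (a (l 16237568) (l 16133616)) (a (l 16271568) (l 16170792)))))), by decide +kernel⟩

def k1_pp_022 : ∃ t, chk3 f_pp_022 t 8 36 1 = true :=
  ⟨(a (a (b (l 3) (a (b (l 3) (b (c (l 768429510103) (l 735680266439)) (c (a (c (l 16512752) (l 16481672)) (l 16498136)) (a (c (l 16447912) (l 16411448)) (l 16428320))))) (b (c (l 763060865847) (l 746417646183)) (c (c (l 16519112) (l 16486008)) (c (l 16449896) (l 16410776)))))) (b (b (l 3) (c (l 747491629847) (l 737827772839))) (c (c (a (l 16528680) (l 16530408)) (a (l 16494616) (l 16494472))) (a (b (l 16448480) (l 16426800)) (b (l 16444976) (l 16423048)))))) (b (c (a (c (l 16498184) (l 16527744)) (l 16475568)) (a (c (l 16470016) (l 16429864)) (l 16473368))) (c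 (a (c (l 16526576) (l 16491856)) (l 16501120)) (a (a (l 16432336) (l 16433816)) (l 16437720))))), by decide +kernel⟩

def k2_pp_022 : ∃ t, chk3 f_pp_022 t 8 37 1 = true :=
  ⟨(a (a (c (b (a (c (b (a (l 16500800) (l 16501696)) (a (l 16484352) (l 16485288))) (b (c (l 16476472) (l 16459032)) (c (l 16458256) (l 16439560)))) (c (l 16473912) (b (l 16467552) (l 16448928)))) (a (c (b (a (l 16467712) (l 16468696)) (a (l 16450880) (l 16451920))) (b (c (l 16439984) (l 16420112)) (a (l 16411232) (l 16411392)))) (b (c (l 16470176) (l 16430296)) (c (l 16453416) (l 16411672))))) (a (a (b (c (b (l 16432200) (l 16410640)) (b (l 16393608) (l 16369160))) (b (c (l 16389256) (l 16345080)) (c (l 16368104) (l 16321488)))) (c (b (b (l 16430800) (l 16409416)) (l 16398648)) (b (b (l 16390832) (l 16366640)) (l 16352040)))) (b (c (l 16418224) (l 16374872)) (b (l 16384600) (a (l 16342472) (l 16341296)))))) (c (b (c (a (l 16496640) (l 16495744)) (a (l 16458128) (l 16457192))) (a (c (l 16461112)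 (l 16420384)) (l 16438072))) (b (a (b (l 16404552) (l 16403560)) (l 16371424)) (a (c (l 16375848) (l 16327528)) (l 16354792))))) (a (c (b (l 16471320) (l 16432272)) (b (l 16396016) (l 16360488))) (b (c (l 16463176) (l 16402448)) (c (l 16426752) (l 16369448))))), by decide +kernel⟩

def k3_pp_022 : ∃ t, chk3 f_pp_022 t 9 18 1 = true :=
  ⟨(b (c (a (b (l 16526472) (l 16408368)) (b (l 16523520) (l 16495816))) (a (b (a (l 16477072) (l 16478600)) (a (l 16442352) (l 16442136))) (b (l 16470872) (l 16437088)))) (a (b (c (l 16418368) (l 16407600)) (c (l 16431536) (l 16353680))) (c (l 16457192) (l 16389376)))), by decide +kernel⟩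

def k4_pp_022 : ∃ t, chk3 f_pp_022 t 4 19 2 = true :=
  ⟨(a (a (c (b (a (b (a (a (b (l 16433904) (l 16416864)) (b (l 16435016) (l 16417952))) (a (l 16426488) (l 16425224))) (a (b (a (a (l 16399536) (l 16400024)) (l 16399352)) (a (b (l 16386208) (a (l 16376712) (l 16375544))) (b (l 16384208) (l 16374224)))) (b (l 16395936) (l 16377048)))) (b (l 16440064) (a (l 16383552) (l 16381296)))) (a (b (a (a (b (b (l 16365752) (l 16356408)) (l 16363800)) (c (l 16360736) (l 16341288))) (l 16349984)) (a (a (b (l 16325056) (l 16307680)) (l 16315816)) (l 16315040))) (a (l 16373184) (l 16330184)))) (b (a (b (a (a (b (l 16392400) (l 16373688)) (b (l 16392688) (l 16374072))) (l 16383000)) (a (b (a (a (l 16355024) (l 16355240)) (l 16355088)) (a (b (l 16341080) (a (l 16331560) (l 16331272))) (l 16335968))) (b (l 16354128) (l 16336304)))) (b (l 16381032) (a (l 16345664) (l 16346616)))) (a (b (a (a (b (b (l 16322152) (l 16313784)) (l 16301592)) (l 16310544)) (l 16311792)) (a (b (l 16307032)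 (l 16270376)) (l 16280224))) (b (l 16314336) (l 16283360))))) (b (b (a (l 16396096) (l 16395192)) (a (c (l 16378544) (l 16348568)) (l 16367392))) (a (c (l 16333048) (l 16304224)) (l 16327272)))) (a (b (c (l 16407944) (l 16377536)) (l 16342568)) (b (l 16408856) (l 16361192)))), by decide +kernel⟩

def k5_pp_022 : ∃ t, chk3 f_pp_022 t 4 19 3 = true :=
  ⟨(a (b (a (a (a (a (b (c (b (l 16347248) (l 16326720)) (b (l 16298448) (l 16275944))) (b (c (l 16327552) (l 16275096)) (a (c (l 16287160) (l 16276032)) (b (l 16266192) (l 16299648))))) (b (b (l 16343080) (c (l 16326280) (l 16274568))) (b (c (l 16306920) (l 16254840)) (b (l 16267976) (l 16301880))))) (b (c (l 16336624) (a (l 16285352) (l 16286760))) (b (a (l 16283368) (l 16285744)) (c (l 16292080) (l 16244376))))) (a (b (l 16336248) (b (l 16290064) (l 16275248))) (b (l 16319808) (l 16331096)))) (b (a (l 16328248) (l 16338592)) (a (c (l 16316168) (l 16281344)) (l 16307480)))) (a (a (a (b (c (b (c (l 16284320) (l 16260512))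 (l 16300240)) (b (a (l 16241856) (l 16225256)) (l 16211264))) (c (c (l 16247888) (l 16226760)) (c (l 16204904) (l 16182320)))) (c (b (l 16270496) (l 16242808)) (b (l 16226096) (l 16202800)))) (c (b (l 16278208) (l 16250888)) (b (l 16239456) (l 16216288)))) (a (c (l 16273272) (l 16240200)) (l 16262296)))) (a (b (a (l 16304856) (l 16326720)) (l 16245720)) (b (l 16328288) (l 16272416)))), by decide +kernel⟩

def k6_pp_022 : ∃ t, chk3 f_pp_022 t 5 9 1 = true :=
  ⟨(b (a (b (a (c (l 16508272) (l 16397408)) (l 16401408)) (c (l 16458392) (l 16269128))) (c (l 16461944) (l 16247208))) (a (b (c (l 16414800) (l 16130512)) (c (l 16371824) (l 16269240))) (c (l 16388496) (b (l 16303720) (l 16261904))))), by decide +kernel⟩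

def k7_pp_022 : ∃ t, chk3 f_pp_022 t 3 9 1 = true :=
  ⟨(a (b (c (a (l 16371952) (l 16283824)) (a (l 16342984) (l 16308872))) (c (a (l 16368280) (l 16286776)) (a (l 16271416) (l 16257136)))) (b (c (a (l 16199480) (l 16120736)) (a (l 16266504) (l 16203624))) (a (c (l 16206712) (l 16235408)) (l 2)))), by decide +kernel⟩

def k8_pp_022 : ∃ t, chk3 f_pp_022 t 8 10 2 = true :=
  ⟨(b (b (b (a (a (a (c (c (l 16311552) (l 16273776)) (a (l 16288784) (l 16248008))) (c (l 16281640) (l 16249776))) (a (l 16308904) (l 16269808))) (l 16325264)) (a (a (a (c (c (l 16257888) (l 16242272)) (c (l 16226152) (l 16209520))) (c (l 16250040) (l 16220600))) (a (l 16238656) (l 16244056))) (l 16279704))) (a (b (a (a (c (b (l 16227256) (a (l 16212880) (l 16213192))) (b (l 16196624) (l 16183144))) (c (l 16223112) (l 16193848))) (l 16238344)) (a (b (a (c (a (l 16199920) (l 16201840)) (l 16170864)) (l 16191648)) (b (a (a (c (l 16192624) (l 16161656)) (l 16180312)) (l 16184960)) (a (b (a (c (c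 (l 16198960) (l 16183272)) (l 16158872)) (l 16199280)) (l 16174816)) (l 16181320)))) (b (l 16200984) (b (l 16194200) (l 16190456))))) (b (l 16277448) (b (l 16219288) (a (l 16225208) (l 16216120)))))) (a (a (b (a (c (a (l 16185680) (l 16168240)) (a (l 16127888) (l 16130736))) (c (l 16173504) (l 16135040))) (a (c (a (l 16119176) (l 16122976)) (a (l 16075680) (l 16078872))) (c (l 16128656) (l 16083688)))) (c (l 16203664) (b (l 16143696) (l 16093392)))) (a (c (l 16175896) (l 16130592)) (l 16166856)))), by decide +kernel⟩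

def k9_pp_022 : ∃ t, chk3 f_pp_022 t 8 10 3 = true :=
  ⟨(b (a (b (a (c (b (c (l 16243072) (l 16203720)) (a (l 16183616) (l 16189432))) (a (b (l 16170416) (l 16147288)) (b (l 16179672) (l 16156544)))) (c (b (l 16223552) (l 16196080)) (b (l 16191208) (l 16163624)))) (b (a (c (c (l 16168408) (l 16152096)) (a (l 16124160) (l 16130488))) (l 16151480)) (a (b (a (c (l 16139000) (l 16105504)) (l 16125984)) (b (a (c (l 16129936) (l 16095128)) (l 16115576)) (a (c (l 16123664) (l 16086864)) (l 16108312)))) (b (l 16130248) (b (l 16120008) (l 16112864)))))) (b (a (l 16262768) (l 16204784)) (b (l 16223088) (b (l 16139776) (a (l 16122904) (l 16129960)))))) (a (a (b (c (a (b (l 16104944) (l 16074640)) (l 16093872)) (b (l 16066032) (l 16031824))) (c (a (c (l 16042344) (l 16018056)) (l 16035272)) (b (l 15998280) (l 15986384)))) (b (c (l 16100384) (l 16054008)) (c (l 16043032) (l 15988840)))) (a (b (l 16085192) (l 16025880)) (l 16064376)))), by decide +kernel⟩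

def k10_pp_022 : ∃ t, chk3 f_pp_022 t 9 10 1 = true :=
  ⟨(b (b (c (a (l 16272688) (l 16314920)) (a (l 16211704) (l 16220920))) (b (a (c (l 16259440) (l 16172008)) (l 16235608)) (a (b (l 16179248) (a (l 16289400) (l 16194328))) (b (l 16219088) (l 16208768))))) (c (a (l 16166256) (l 16213568)) (a (a (l 16073416) (l 16082304)) (l 16096248)))), by decide +kernel⟩

def k11_pp_022 : ∃ t, chk3 f_pp_022 t 4 11 1 = true :=
  ⟨(b (a (a (a (c (c (a (b (a (l 16075392) (l 16079464)) (l 16056512)) (b (l 16085552) (l 16044192))) (b (a (a (l 16025552) (l 16029080)) (l 16034408)) (c (l 15997928) (l 15968432)))) (b (c (c (l 16011192) (l 15982816)) (b (l 15954192) (l 15922664))) (a (c (l 15960568) (l 15874072)) (c (l 15925216) (l 15858256))))) (c (c (l 16077168) (l 16042784)) (b (c (l 15988056) (l 15926368)) (l 15954120)))) (c (c (l 16101744) (l 16065600)) (a (c (l 15974792) (l 15907152)) (l 15954616)))) (c (a (l 16106064) (l 16137904)) (a (l 16036936) (l 16000576)))) (a (a (a (a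 (c (c (b (l 15995384) (l 15956960)) (b (l 15933616) (l 15889864))) (c (b (l 15866360) (l 15816480)) (b (l 15793616) (l 15736816)))) (c (c (l 15985400) (l 15920248)) (c (l 15890872) (l 15834360)))) (c (c (l 15999496) (l 15933552)) (c (l 15861024) (l 15802912)))) (c (a (l 16006640) (l 16003912)) (c (l 15886416) (l 15825896)))) (c (a (l 16032168) (l 16069320)) (a (l 15880216) (l 15914848))))), by decide +kernel⟩

def k12_pp_022 : ∃ t, chk3 f_pp_022 t 5 5 1 = true :=
  ⟨(b (b (b (a (c (l 16330056) (l 16223184)) (c (l 16335824) (l 16223360))) (a (c (b (l 16300424) (l 16282216)) (b (l 16190072) (l 16147832))) (c (l 16303112) (l 16186952)))) (a (c (l 16132752) (l 16112896)) (c (l 16257448) (l 16133120)))) (a (c (a (l 16191640) (l 16149288)) (a (l 15981168) (l 16003280))) (c (l 16176400) (a (l 16026720) (l 16051040))))), by decide +kernel⟩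

def k13_pp_022 : ∃ t, chk3 f_pp_022 t 3 5 1 = true :=
  ⟨(b (a (b (b (a (l 16282768) (l 16270752)) (c (a (l 16302136) (l 16284120)) (a (l 16195336) (l 16201024)))) (a (l 16217408) (l 16225248))) (b (b (a (l 16242896) (l 2)) (l 2)) (l 2))) (a (a (c (l 16202384) (l 16088272)) (c (l 16205824) (l 16133176))) (l 2))), by decide +kernel⟩

def k14_pp_022 : ∃ t, chk3 f_pp_022 t 2 6 1 = true :=
  ⟨(a (a (c (b (a (a (b (c (b (l 15925376) (l 15890624)) (a (b (l 15848168) (l 15808528)) (l 15838160))) (c (a (l 15835944) (l 15847328)) (b (l 15776456) (l 15741208)))) (b (c (l 15928608) (l 15853472)) (c (l 15864392) (l 15781496)))) (b (a (l 15912776) (l 15933464)) (c (l 15898280) (l 15816640)))) (a (a (b (c (a (l 15775984) (l 15788264)) (a (l 15685816) (l 15698408))) (c (l 15729120) (a (l 15626760) (l 15640576)))) (b (c (l 15806704) (l 15717576)) (l 15710200))) (b (c (l 15843384) (l 15756624)) (l 15751416)))) (b (a (a (c (b (a (b (l 15768984) (l 15723872)) (l 15755536)) (b (l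 15686440) (l 15646480))) (b (a (b (l 15682712) (l 15631304)) (l 15665128)) (b (l 15587528) (l 15541992)))) (b (c (l 15770096) (l 15678520)) (c (l 15688656) (l 15585912)))) (b (a (l 15807824) (l 15765408)) (a (l 15661744) (l 15685976)))) (a (a (b (c (b (l 15608896) (l 15573680)) (b (l 15499176) (l 15459080))) (c (a (l 15518232) (l 15532392)) (b (l 15421704) (l 15387064)))) (b (c (l 15616696) (l 15504152)) (c (l 15554216) (l 15433304)))) (b (a (l 15588744) (l 15616704)) (c (l 15599600) (l 15480344)))))) (b (a (c (b (l 15965464) (l 15905856)) (b (l 15796472) (l 15722816))) (c (b (l 16007720) (l 15953008)) (b (l 15839096) (l 15773344)))) (c (a (b (l 15853216) (l 15807408)) (l 15883584)) (a (b (l 15659256) (l 15605832)) (l 15756464))))) (b (a (c (a (l 16015856) (l 16046864)) (b (l 15893520) (l 15840000))) (c (b (l 16109240) (l 16071656)) (a (l 15925600) (l 15947000)))) (b (a (c (l 15968152) (l 15796528)) (c (l 16037976) (l 15905168))) (a (a (l 15831896) (c (l 15954632)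 (l 15795552))) (l 2))))), by decide +kernel⟩

def k15_pp_022 : ∃ t, chk3 f_pp_022 t 2 7 1 = true :=
  ⟨(a (a (b (c (a (b (a (c (l 15682344) (l 15583168)) (l 15663800)) (a (c (l 15641608) (l 15540448)) (l 15624240))) (b (l 15708096) (l 15671464))) (a (b (a (c (l 15469120) (l 15361216)) (l 15439240)) (a (c (l 15422392) (l 15287496)) (l 15393304))) (b (l 15491016) (l 15450528)))) (a (b (c (a (c (l 15606648) (l 15505400)) (l 15591320)) (a (c (l 15385120) (l 15245896)) (l 15357680))) (c (a (c (l 15577160) (l 15477864)) (b (l 15570840) (l 15560200))) (a (c (l 15357296) (l 15215544)) (b (l 15337768) (l 15329496))))) (a (b (c (l 15624528) (l 15399024)) (a (b (l 15494696) (l 2)) (l 2))) (b (c (l 15658744) (l 15443080)) (l 2))))) (b (c (b (a (l 15768272) (l 15829120)) (a (l 15736336) (l 15802864))) (b (a (l 15562576) (l 15636824)) (a (l 15530752) (l 15618704)))) (a (a (b (b (l 15605904) (l 2)) (l 2)) (l 2)) (l 2)))) (b (a (b (c (l 15905304) (a (l 15710600) (l 2))) (l 2))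 (l 2)) (l 2))), by decide +kernel⟩

def k16_pp_022 : ∃ t, chk3 f_pp_022 t 3 3 1 = true :=
  ⟨(b (a (b (a (c (l 16128512) (l 15966872)) (l 2)) (l 2)) (l 2)) (l 2)), by decide +kernel⟩

theorem s17_pp_022 : ∃ t, chk3 f_pp_022 t 2 3 1 = true := ex3_b k14_pp_022 k15_pp_022

theorem s18_pp_022 : ∃ t, chk3 f_pp_022 t 1 3 1 = true := ex3_a s17_pp_022 k16_pp_022

theorem s19_pp_022 : ∃ t, chk3 f_pp_022 t 8 10 1 = true := ex3_c k8_pp_022 k9_pp_022

theorem s20_pp_022 : ∃ t, chk3 f_pp_022 t 4 10 1 = true := ex3_a s19_pp_022 k10_pp_022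

theorem s21_pp_022 : ∃ t, chk3 f_pp_022 t 4 5 1 = true := ex3_b s20_pp_022 k11_pp_022

theorem s22_pp_022 : ∃ t, chk3 f_pp_022 t 2 5 1 = true := ex3_a s21_pp_022 k12_pp_022

theorem s23_pp_022 : ∃ t, chk3 f_pp_022 t 1 5 1 = true := ex3_a s22_pp_022 k13_pp_022

theorem s24_pp_022 : ∃ t, chk3 f_pp_022 t 4 19 1 = true := ex3_c k4_pp_022 k5_pp_022

theorem s25_pp_022 : ∃ t, chk3 f_pp_022 t 8 18 1 = true := ex3_b k1_pp_022 k2_pp_022

theorem s26_pp_022 : ∃ t, chk3 f_pp_022 t 4 18 1 = true := ex3_a s25_pp_022 k3_pp_022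

theorem s27_pp_022 : ∃ t, chk3 f_pp_022 t 4 9 1 = true := ex3_b s26_pp_022 s24_pp_022

theorem s28_pp_022 : ∃ t, chk3 f_pp_022 t 2 9 1 = true := ex3_a s27_pp_022 k6_pp_022

theorem s29_pp_022 : ∃ t, chk3 f_pp_022 t 1 9 1 = true := ex3_a s28_pp_022 k7_pp_022

theorem s30_pp_022 : ∃ t, chk3 f_pp_022 t 1 4 1 = true := ex3_b k0_pp_022 s29_pp_022

theorem s31_pp_022 : ∃ t, chk3 f_pp_022 t 1 2 1 = true := ex3_b s30_pp_022 s23_pp_022

theorem s32_pp_022 : ∃ t, chk3 f_pp_022 t 1 1 1 = true := ex3_b s31_pp_022 s18_pp_022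

theorem c_pp_022 : CertB 0 536870912 1073741824 536870912 858993459 64424510 3 eng mog cd1q0 cd2q2 pd2 false true true .pp 0 2 2
    ndB1q0 ndB2q2 pcB2 Cut.none Ext.none :=
  certB1 (fam := false) (s1 := true) (s2 := true) (a := 0) (b := 2) (c := 2) (cn := .pp) (n1 := ndB1q0) (n2 := ndB2q2) (pc := pcB2) (cut := Cut.none) (xt := Ext.none) (P1 := 0) (W1 := 536870912) (P2 := 1073741824) (W2 := 536870912) (P3 := 858993459) (W3 := 64424510) (N0 := 3) (En := eng) (mo := mog) (C1 := cd1q0) (C2 := cd2q2) (C3 := pd2)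
    rfl (fun _ => rfl) s32_pp_022

noncomputable def f_pp_023 : ℕ → ℕ → ℕ → ℕ → Bool := onCell 1073741824 536870912 0 1230186008 858993459 64424510
    (rowB 3 eng mog cd1q0 cd2q3 pd2 2 false true true .up 0 2 3 (qsf 0 536870912 0 1230186008 2) ndB1q0 ndB2q3 pcB2 Cut.none Ext.none)

def k0_pp_023 : ∃ t, chk3 f_pp_023 t 1 1 1 = true :=
  ⟨(b (a (l 2) (a (l 2) (b (a (l 2) (l 16077336)) (a (b (l 15944392) (l 15852568)) (b (l 15988680) (l 15871760)))))) (b (a (b (l 2) (a (l 2) (b (l 2) (a (l 2) (l 16037512))))) (b (a (a (l 2) (b (l 15761152) (l 15733072))) (b (a (l 15740208) (l 15752496)) (a (l 15666256) (l 15639896)))) (a (b (a (l 15914728) (l 15826008)) (a (l 15991544) (l 15912384))) (b (a (l 15716288) (l 15621544)) (a (l 15817016) (l 15699064)))))) (b (a (a (l 2) (a (b (l 16086216) (l 16138960)) (b (l 16098904) (l 16163584)))) (a (a (c (l 16053680) (l 16139704)) (b (l 16003568) (l 16050096))) (a (b (l 15908384) (l 15945152)) (b (l 15794016) (c (l 15808768) (l 15817352))))))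 (a (a (a (b (l 2) (a (l 16141576) (l 16087992))) (b (a (l 16074808) (l 16135200)) (a (l 16154896) (l 16213376)))) (a (a (a (b (l 16172520) (l 16249632)) (c (b (l 16173400) (l 16239936)) (l 16175288))) (b (l 16216904) (l 16249040))) (b (l 16208096) (c (l 16221232) (l 16164384))))) (a (b (a (l 16141768) (c (l 16049704) (l 16010376))) (a (b (l 16113336) (l 16073488)) (b (a (l 16019440) (l 15949664)) (a (l 15965824) (l 15887192))))) (b (a (b (l 15928552) (l 15893752)) (b (a (l 15829040) (l 15759152)) (c (l 15785880) (l 15681704)))) (a (b (a (l 15875496) (l 15796552)) (c (a (l 15869720) (l 15782552)) (a (l 15718224) (l 15616216)))) (a (b (c (l 15771120) (l 15629184)) (b (c (l 15710688) (l 15536696)) (l 15625048))) (b (c (l 15684368) (l 15528384)) (a (b (l 15557392) (l 15526920)) (b (c (l 15594912) (l 15399512)) (c (l 15551248) (l 15339312))))))))))))), by decide +kernel⟩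

theorem c_pp_023 : CertB 0 536870912 0 1230186008 858993459 64424510 3 eng mog cd1q0 cd2q3 pd2 false true true .up 0 2 3
    ndB1q0 ndB2q3 pcB2 Cut.none Ext.none :=
  certB2 (fam := false) (s1 := true) (s2 := true) (a := 0) (b := 2) (c := 3) (cn := .up) (n1 := ndB1q0) (n2 := ndB2q3) (pc := pcB2) (cut := Cut.none) (xt := Ext.none) (P1 := 0) (W1 := 536870912) (P2 := 0) (W2 := 1230186008) (P3 := 858993459) (W3 := 64424510) (N0 := 3) (En := eng) (mo := mog) (C1 := cd1q0) (C2 := cd2q3) (C3 := pd2)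
    rfl (fun _ => rfl) k0_pp_023

noncomputable def f_pp_033 : ℕ → ℕ → ℕ → ℕ → Bool := onCell 1610612736 536870912 0 1230186008 858993459 64424510
    (rowB 3 eng mog cd1q0 cd2q3 pd3 2 false true true .pnn 0 3 3 (qsf 0 536870912 0 1230186008 3) ndB1q0 ndB2q3 pcB3 Cut.none Ext.none)

def k0_pp_033 : ∃ t, chk3 f_pp_033 t 1 2 1 = true :=
  ⟨(b (a (a (a (l 16092792) (a (l 16210856) (l 16197048))) (l 4)) (l 4)) (a (a (a (b (l 16246096) (l 16237192)) (b (l 16162176) (l 16129848))) (a (b (l 16027016) (l 15983376)) (b (l 4) (a (l 15953248) (l 15910560))))) (a (a (l 4) (l 4)) (l 4)))), by decide +kernel⟩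

def k1_pp_033 : ∃ t, chk3 f_pp_033 t 1 6 1 = true :=
  ⟨(a (b (a (b (a (l 16223336) (l 16118976)) (a (l 16178608) (l 16057040))) (b (a (l 16021552) (l 15934760)) (a (l 15940400) (l 15832672)))) (a (b (a (l 16119168) (l 16043504)) (a (b (l 16057952) (l 16000216)) (b (l 15910976) (l 15856640)))) (a (b (a (l 15878064) (l 15810168)) (b (l 15759208) (l 15692776))) (b (a (l 15739232) (l 15670672)) (b (a (l 15638280) (l 15560432)) (a (l 15565680) (l 15485128))))))) (b (a (a (b (a (l 15865448) (l 4)) (a (l 15761696) (l 15729768))) (b (l 4) (a (l 15695872) (l 4)))) (b (l 4) (l 1))) (a (a (b (a (l 15607856) (l 435970653527)) (a (b (l 15489528) (l 909490655303)) (l 934186678679))) (b (a (l 934186753335) (l 1)) (l 1))) (l 1)))), by decide +kernel⟩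

def k2_pp_033 : ∃ t, chk3 f_pp_033 t 1 7 1 = true :=
  ⟨(a (b (a (a (a (b (l 15937080) (l 15818280)) (b (l 15864872) (a (l 15736440) (l 15693752)))) (b (b (a (l 15827536) (l 15749424)) (a (l 15752640) (l 15667960))) (a (b (l 15670816) (l 15667784)) (b (l 15581000) (c (l 15559472) (l 15424080)))))) (a (a (c (b (l 15698728) (b (l 15564512) (b (l 15497096) (l 499321051111)))) (b (l 15549624) (b (l 15420928) (l 476772297287)))) (b (b (l 15574704) (c (l 15573392) (l 15416024))) (b (c (l 502542400439) (l 476772274423)) (c (l 594883773367) (l 573945490023))))) (b (a (b (l 15509368) (c (l 745208120791) (l 731249103095))) (b (l 882110229431) (l 1))) (l 1)))) (b (a (a (a (b (l 15681120) (c (l 15658112) (l 15522344))) (b (c (l 15649464) (l 15522240)) (c (b (l 15587728) (l 15548384)) (b (l 15449280) (l 15398688))))) (c (b (a (b (l 15581504) (l 15539632)) (b (l 488046824999) (l 493952324215))) (a (b (l 482141247399) (a (l 483751833015) (l 514890080631))) (b (l 534217427623)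 (l 1)))) (c (b (a (l 15461136) (l 470329735207)) (a (l 469792892231) (l 528848406215))) (b (a (l 15388104) (l 460665910967)) (a (l 462276538615) (l 527774484519)))))) (a (a (a (b (c (l 558913445159) (l 546565109191)) (l 1)) (l 1)) (l 1)) (l 1))) (a (a (a (c (b (b (l 15599928) (a (l 15585464) (l 15540856))) (b (a (l 15571176) (b (l 15514712) (l 467108802263))) (l 456371249559))) (b (c (l 15465752) (l 15371632)) (b (a (l 15365000) (l 478919799287)) (l 467108356967)))) (b (c (b (a (l 15532560) (l 481604378119)) (a (l 478920056951) (l 481604110439))) (b (a (l 15371520) (l 474624772103)) (a (l 476235404743) (l 493951781943)))) (a (a (b (c (l 472477476935) (l 491804597159)) (l 1)) (l 1)) (l 1)))) (b (a (a (b (c (l 498247093799) (l 519721838935)) (l 1)) (l 1)) (l 1)) (l 1))) (l 1)))) (l 1)), by decide +kernel⟩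

theorem s3_pp_033 : ∃ t, chk3 f_pp_033 t 1 3 1 = true := ex3_b k1_pp_033 k2_pp_033

theorem s4_pp_033 : ∃ t, chk3 f_pp_033 t 1 1 1 = true := ex3_b k0_pp_033 s3_pp_033

theorem c_pp_033 : CertB 0 536870912 0 1230186008 858993459 64424510 3 eng mog cd1q0 cd2q3 pd3 false true true .pnn 0 3 3
    ndB1q0 ndB2q3 pcB3 Cut.none Ext.none :=
  certB2 (fam := false) (s1 := true) (s2 := true) (a := 0) (b := 3) (c := 3) (cn := .pnn) (n1 := ndB1q0) (n2 := ndB2q3) (pc := pcB3) (cut := Cut.none) (xt := Ext.none) (P1 := 0) (W1 := 536870912) (P2 := 0) (W2 := 1230186008) (P3 := 858993459) (W3 := 64424510) (N0 := 3) (En := eng) (mo := mog) (C1 := cd1q0) (C2 := cd2q3) (C3 := pd3)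
    rfl (fun _ => rfl) s4_pp_033

noncomputable def f_pp_101 : ℕ → ℕ → ℕ → ℕ → Bool := onCell 536870912 536870912 536870912 536870912 858993459 64424510
    (rowB 3 eng mog cd1q1 cd2q1 pd0 0 false true true .npn 1 0 1 (qsf 536870912 536870912 536870912 536870912 0) ndB1q1 ndB2q1 pcB0 Cut.none Ext.none)

def k0_pp_101 : ∃ t, chk3 f_pp_101 t 1 1 1 = true :=
  ⟨(l 3), by decide +kernel⟩

theorem c_pp_101 : CertB 536870912 536870912 536870912 536870912 858993459 64424510 3 eng mog cd1q1 cd2q1 pd0 false true true .npn 1 0 1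
    ndB1q1 ndB2q1 pcB0 Cut.none Ext.none :=
  certB0 (fam := false) (s1 := true) (s2 := true) (a := 1) (b := 0) (c := 1) (cn := .npn) (n1 := ndB1q1) (n2 := ndB2q1) (pc := pcB0) (cut := Cut.none) (xt := Ext.none) (P1 := 536870912) (W1 := 536870912) (P2 := 536870912) (W2 := 536870912) (P3 := 858993459) (W3 := 64424510) (N0 := 3) (En := eng) (mo := mog) (C1 := cd1q1) (C2 := cd2q1) (C3 := pd0)
    rfl k0_pp_101

noncomputable def f_pp_102 : ℕ → ℕ → ℕ → ℕ → Bool := onCell 536870912 536870912 0 536870912 858993459 64424510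
    (rowB 3 eng mog cd1q1 cd2q2 pd0 1 false true true .npp 1 0 2 (qsf 536870912 536870912 1073741824 536870912 0) ndB1q1 ndB2q2 pcB0 Cut.none Ext.none)

def k0_pp_102 : ∃ t, chk3 f_pp_102 t 1 1 1 = true :=
  ⟨(l 3), by decide +kernel⟩

theorem c_pp_102 : CertB 536870912 536870912 1073741824 536870912 858993459 64424510 3 eng mog cd1q1 cd2q2 pd0 false true true .npp 1 0 2
    ndB1q1 ndB2q2 pcB0 Cut.none Ext.none :=
  certB1 (fam := false) (s1 := true) (s2 := true) (a := 1) (b := 0) (c := 2) (cn := .npp) (n1 := ndB1q1) (n2 := ndB2q2) (pc := pcB0) (cut := Cut.none) (xt := Ext.none) (P1 := 536870912) (W1 := 536870912) (P2 := 1073741824) (W2 := 536870912) (P3 := 858993459) (W3 := 64424510) (N0 := 3) (En := eng) (mo := mog) (C1 := cd1q1) (C2 := cd2q2) (C3 := pd0)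
    rfl (fun _ => rfl) k0_pp_102

noncomputable def f_pp_112 : ℕ → ℕ → ℕ → ℕ → Bool := onCell 536870912 536870912 1073741824 536870912 858993459 64424510
    (rowB 3 eng mog cd1q1 cd2q2 pd1 2 false true true .dn 1 1 2 (qsf 536870912 536870912 1073741824 536870912 1) ndB1q1 ndB2q2 pcB1 Cut.none Ext.none)

def k0_pp_112 : ∃ t, chk3 f_pp_112 t 1 1 1 = true :=
  ⟨(a (l 3) (a (l 3) (b (l 1) (a (b (l 3) (l 3)) (b (l 1) (b (a (a (l 3) (l 1)) (l 1)) (c (c (a (c (l 16005064) (l 16051568)) (c (l 15956248) (l 15991760))) (a (l 16321912) (l 16128064))) (c (a (l 16264520) (l 16201520)) (a (l 154248017959) (l 16098824)))))))))), by decide +kernel⟩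

theorem c_pp_112 : CertB 536870912 536870912 1073741824 536870912 858993459 64424510 3 eng mog cd1q1 cd2q2 pd1 false true true .dn 1 1 2
    ndB1q1 ndB2q2 pcB1 Cut.none Ext.none :=
  certB2 (fam := false) (s1 := true) (s2 := true) (a := 1) (b := 1) (c := 2) (cn := .dn) (n1 := ndB1q1) (n2 := ndB2q2) (pc := pcB1) (cut := Cut.none) (xt := Ext.none) (P1 := 536870912) (W1 := 536870912) (P2 := 1073741824) (W2 := 536870912) (P3 := 858993459) (W3 := 64424510) (N0 := 3) (En := eng) (mo := mog) (C1 := cd1q1) (C2 := cd2q2) (C3 := pd1)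
    rfl (fun _ => rfl) k0_pp_112

noncomputable def f_pp_113 : ℕ → ℕ → ℕ → ℕ → Bool := onCell 536870912 536870912 0 1230186008 858993459 64424510
    (rowB 3 eng mog cd1q1 cd2q3 pd1 2 false true true .nn 1 1 3 (qsf 536870912 536870912 0 1230186008 1) ndB1q1 ndB2q3 pcB1 Cut.none Ext.none)

def k0_pp_113 : ∃ t, chk3 f_pp_113 t 1 2 1 = true :=
  ⟨(a (l 2) (a (l 2) (a (b (l 2) (b (a (l 2) (c (l 16644032) (l 16446760))) (a (c (l 785542033943) (b (l 2) (l 16484440))) (c (l 16705760) (l 16600736))))) (b (a (l 2) (l 16749400)) (b (a (l 16666848) (l 16782792)) (a (l 16588320) (l 16603656))))))), by decide +kernel⟩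

def k1_pp_113 : ∃ t, chk3 f_pp_113 t 1 6 1 = true :=
  ⟨(a (b (l 2) (l 3)) (a (a (l 3) (a (l 3) (b (b (c (b (l 16558832) (l 16659152)) (b (l 810774711879) (l 16411040))) (c (l 265381373975) (l 297056558183))) (b (c (l 249812185271) (l 280950591815)) (l 3))))) (b (a (b (a (c (l 16770288) (b (l 16651688) (l 16701312))) (b (l 16830136) (l 16870744))) (a (c (l 16801120) (l 16774680)) (c (l 16906544) (l 16867856)))) (b (c (a (l 16892352) (l 16807392)) (a (l 16814496) (l 16615488))) (c (l 16753632) (a (l 16738752) (l 16529632))))) (a (b (a (c (l 16817472) (l 16531768)) (c (l 16851656) (l 16527920))) (a (c (b (l 16608568) (l 16500072)) (b (l 16394440) (l 16327272))) (c (l 16555144) (l 16315336)))) (b (c (a (l 16815272) (l 16724016)) (a (l 16414952) (l 16223760))) (c (a (l 16513728) (l 16438784)) (a (l 16206208) (l 16057752)))))))), by decide +kernel⟩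

def k2_pp_113 : ∃ t, chk3 f_pp_113 t 1 7 1 = true :=
  ⟨(a (a (l 3) (l 3)) (a (b (l 3) (l 3)) (a (a (b (c (b (c (l 16407960) (l 16343048)) (c (l 205251804775) (l 16255000))) (b (c (l 16285984) (l 16236576)) (c (l 16237136) (l 16220080)))) (b (l 3) (l 3))) (b (c (b (l 16358720) (c (l 16260056) (l 16213544))) (b (c (l 16234504) (l 16170840)) (c (l 16179464) (l 16157016)))) (c (b (c (l 176260666375) (l 16170392)) (c (b (l 16118480) (l 16098952)) (l 243369584103))) (b (c (l 16186608) (l 16210280)) (c (l 204714684919) (l 16003656)))))) (b (c (b (a (l 16313312) (l 16247656)) (a (l 16333688) (l 16126368))) (b (a (l 16106736) (l 15994288)) (a (c (l 16105480) (l 16087288)) (c (l 16019320) (l 16009552))))) (c (b (a (c (l 16124112) (l 16110248)) (c (l 16079784) (l 16042184))) (c (a (b (l 16072544) (l 16048344)) (b (l 16025288) (l 15998680))) (a (l 16149312) (l 16041360)))) (b (a (c (l 16123288) (l 16164920)) (c (l 16051632) (l 16094368))) (c (a (l 16181784) (l 16117088))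 (a (l 16190800) (l 16129176))))))))), by decide +kernel⟩

theorem s3_pp_113 : ∃ t, chk3 f_pp_113 t 1 3 1 = true := ex3_b k1_pp_113 k2_pp_113

theorem s4_pp_113 : ∃ t, chk3 f_pp_113 t 1 1 1 = true := ex3_b k0_pp_113 s3_pp_113

theorem c_pp_113 : CertB 536870912 536870912 0 1230186008 858993459 64424510 3 eng mog cd1q1 cd2q3 pd1 false true true .nn 1 1 3
    ndB1q1 ndB2q3 pcB1 Cut.none Ext.none :=
  certB2 (fam := false) (s1 := true) (s2 := true) (a := 1) (b := 1) (c := 3) (cn := .nn) (n1 := ndB1q1) (n2 := ndB2q3) (pc := pcB1) (cut := Cut.none) (xt := Ext.none) (P1 := 536870912) (W1 := 536870912) (P2 := 0) (W2 := 1230186008) (P3 := 858993459) (W3 := 64424510) (N0 := 3) (En := eng) (mo := mog) (C1 := cd1q1) (C2 := cd2q3) (C3 := pd1)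
    rfl (fun _ => rfl) s4_pp_113

noncomputable def f_pp_123 : ℕ → ℕ → ℕ → ℕ → Bool := onCell 1073741824 536870912 0 1230186008 858993459 64424510
    (rowB 3 eng mog cd1q1 cd2q3 pd2 2 false true true .npn 1 2 3 (qsf 536870912 536870912 0 1230186008 2) ndB1q1 ndB2q3 pcB2 Cut.none Ext.none)

def k0_pp_123 : ∃ t, chk3 f_pp_123 t 1 2 1 = true :=
  ⟨(a (a (b (a (a (l 16721680) (l 16655824)) (b (l 16538568) (l 16534080))) (a (b (l 16948272) (a (l 16688472) (l 16629064))) (b (l 16568784) (a (l 16557192) (l 16477696))))) (b (a (b (l 16366656) (l 16367448)) (l 16216016)) (a (b (c (l 16479648) (l 16274456)) (c (l 16507552) (l 16155200))) (b (c (l 16354936) (l 16086096)) (c (l 16356656) (l 16008104)))))) (a (b (a (c (l 16284696) (l 15980232)) (c (l 16296032) (l 15919536))) (b (c (l 16261200) (a (l 15938968) (l 15865312))) (c (a (l 16225152) (l 16198440)) (a (l 15862056) (l 15777576))))) (b (c (a (l 16350136) (l 16441112)) (a (l 15914456) (l 15959832))) (c (a (b (l 16292592)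 (l 16216408)) (b (l 16364912) (l 16278616))) (a (b (l 15851056) (l 15767000)) (b (l 15890656) (l 15814912))))))), by decide +kernel⟩

def k1_pp_123 : ∃ t, chk3 f_pp_123 t 1 6 1 = true :=
  ⟨(a (b (a (b (a (c (l 16621576) (a (l 16398736) (l 16318144))) (c (l 16528248) (l 16195232))) (c (a (l 16619752) (l 16418320)) (a (a (l 16218920) (l 16148544)) (l 16092352)))) (b (c (a (l 16413552) (l 16300608)) (a (l 16033072) (l 15896536))) (a (c (l 16346448) (l 15985784)) (c (l 16280312) (l 15886720))))) (a (c (b (a (l 16397080) (l 16305152)) (a (a (l 16227112) (l 16207216)) (c (l 16266816) (l 16160904)))) (b (a (a (l 16006208) (l 16016864)) (l 16027400)) (a (a (l 15887512) (l 15944928)) (c (l 16053368) (l 15949464))))) (c (b (a (l 16292560) (l 16267048)) (a (l 16251160) (l 16260928))) (b (a (l 15981464) (l 15940104)) (a (l 16000768) (l 16001920)))))) (b (a (b (a (c (l 16181352) (l 15763480)) (c (l 16114632) (l 15688024))) (a (c (l 16206920) (l 15822888)) (c (l 16128864) (l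 15729288)))) (a (a (b (l 15894656) (l 1)) (l 1)) (l 1))) (a (a (b (c (l 16227984) (l 15897608)) (c (l 16252184) (l 15982440))) (b (c (l 16182944) (l 15844024)) (l 1))) (l 1)))), by decide +kernel⟩

def k2_pp_123 : ∃ t, chk3 f_pp_123 t 1 7 1 = true :=
  ⟨(a (b (b (a (a (c (a (l 16067320) (l 16094984)) (a (l 15844672) (l 15927880))) (c (c (l 16180016) (l 16112984)) (c (l 16045496) (l 15980592)))) (c (a (l 16224992) (l 16265808)) (a (l 16050816) (l 16065648)))) (a (a (a (c (c (l 16015168) (l 15916888)) (c (l 15867592) (l 15869168))) (c (l 16017560) (l 15957536))) (c (c (l 16112176) (l 16090440)) (c (l 16070056) (l 16004992)))) (a (c (c (l 16216264) (l 16202424)) (l 15855008)) (l 1)))) (b (a (a (c (c (a (l 15934304) (l 15982440)) (a (l 15901872) (l 15979784))) (c (a (l 15917240) (l 16005872)) (a (l 15977184) (l 16008656)))) (c (c (a (l 16034704) (l 16092080)) (a (l 16054112) (l 16124640))) (a (l 15854904) (l 16125640)))) (b (a (c (l 16213728) (l 16152816)) (l 1)) (l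 1))) (a (b (a (c (c (l 15974776) (l 15961704)) (a (l 16013272) (l 16112320))) (a (c (l 16042520) (l 16176304)) (l 1))) (a (c (c (a (l 15896912) (l 15953312)) (l 16088000)) (c (l 16076456) (l 16086688))) (l 1))) (l 1)))) (l 1)), by decide +kernel⟩

theorem s3_pp_123 : ∃ t, chk3 f_pp_123 t 1 3 1 = true := ex3_b k1_pp_123 k2_pp_123

theorem s4_pp_123 : ∃ t, chk3 f_pp_123 t 1 1 1 = true := ex3_b k0_pp_123 s3_pp_123

theorem c_pp_123 : CertB 536870912 536870912 0 1230186008 858993459 64424510 3 eng mog cd1q1 cd2q3 pd2 false true true .npn 1 2 3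
    ndB1q1 ndB2q3 pcB2 Cut.none Ext.none :=
  certB2 (fam := false) (s1 := true) (s2 := true) (a := 1) (b := 2) (c := 3) (cn := .npn) (n1 := ndB1q1) (n2 := ndB2q3) (pc := pcB2) (cut := Cut.none) (xt := Ext.none) (P1 := 536870912) (W1 := 536870912) (P2 := 0) (W2 := 1230186008) (P3 := 858993459) (W3 := 64424510) (N0 := 3) (En := eng) (mo := mog) (C1 := cd1q1) (C2 := cd2q3) (C3 := pd2)
    rfl (fun _ => rfl) s4_pp_123

noncomputable def f_pp_133 : ℕ → ℕ → ℕ → ℕ → Bool := onCell 536870912 536870912 0 1230186008 858993459 64424510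
    (rowB 3 eng mog cd1q1 cd2q3 pd3 0 false true true .dn 1 3 3 (qsf 536870912 536870912 0 1230186008 3) ndB1q1 ndB2q3 pcB3 Cut.none Ext.none)

def k0_pp_133 : ∃ t, chk3 f_pp_133 t 1 1 1 = true :=
  ⟨(b (b (a (a (a (c (l 16698104) (l 16138464)) (l 1)) (l 1)) (l 1)) (l 1)) (l 1)), by decide +kernel⟩

theorem c_pp_133 : CertB 536870912 536870912 0 1230186008 858993459 64424510 3 eng mog cd1q1 cd2q3 pd3 false true true .dn 1 3 3
    ndB1q1 ndB2q3 pcB3 Cut.none Ext.none :=
  certB0 (fam := false) (s1 := true) (s2 := true) (a := 1) (b := 3) (c := 3) (cn := .dn) (n1 := ndB1q1) (n2 := ndB2q3) (pc := pcB3) (cut := Cut.none) (xt := Ext.none) (P1 := 536870912) (W1 := 536870912) (P2 := 0) (W2 := 1230186008) (P3 := 858993459) (W3 := 64424510) (N0 := 3) (En := eng) (mo := mog) (C1 := cd1q1) (C2 := cd2q3) (C3 := pd3)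
    rfl k0_pp_133

noncomputable def f_pp_202_a : ℕ → ℕ → ℕ → ℕ → Bool := onCell 0 536870912 1073741824 536870912 858993459 64424510
    (rowB 3 eng mog cd1q2a cd2q2 pd0 0 false true true .pp 2 0 2 (qsf 0 536870912 1073741824 536870912 0) ndB1q2a ndB2q2 pcB0 Cut.none Ext.none)

def k0_pp_202_a : ∃ t, chk3 f_pp_202_a t 1 1 1 = true :=
  ⟨(l 3), by decide +kernel⟩

theorem c_pp_202_a : CertB 0 536870912 1073741824 536870912 858993459 64424510 3 eng mog cd1q2a cd2q2 pd0 false true true .pp 2 0 2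
    ndB1q2a ndB2q2 pcB0 Cut.none Ext.none :=
  certB0 (fam := false) (s1 := true) (s2 := true) (a := 2) (b := 0) (c := 2) (cn := .pp) (n1 := ndB1q2a) (n2 := ndB2q2) (pc := pcB0) (cut := Cut.none) (xt := Ext.none) (P1 := 0) (W1 := 536870912) (P2 := 1073741824) (W2 := 536870912) (P3 := 858993459) (W3 := 64424510) (N0 := 3) (En := eng) (mo := mog) (C1 := cd1q2a) (C2 := cd2q2) (C3 := pd0)
    rfl k0_pp_202_a

noncomputable def f_pp_202_b : ℕ → ℕ → ℕ → ℕ → Bool := onCell 1239849684 370763052 1073741824 536870912 858993459 64424510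
    (rowB 3 eng mog cd1q2b cd2q2 pd0 0 false true true .pp 2 0 2 (qsf 1239849684 370763052 1073741824 536870912 0) ndB1q2b ndB2q2 pcB0 Cut.none Ext.none)

def k0_pp_202_b : ∃ t, chk3 f_pp_202_b t 1 1 1 = true :=
  ⟨(l 3), by decide +kernel⟩

theorem c_pp_202_b : CertB 1239849684 370763052 1073741824 536870912 858993459 64424510 3 eng mog cd1q2b cd2q2 pd0 false true true .pp 2 0 2
    ndB1q2b ndB2q2 pcB0 Cut.none Ext.none :=
  certB0 (fam := false) (s1 := true) (s2 := true) (a := 2) (b := 0) (c := 2) (cn := .pp) (n1 := ndB1q2b) (n2 := ndB2q2) (pc := pcB0) (cut := Cut.none) (xt := Ext.none) (P1 := 1239849684) (W1 := 370763052) (P2 := 1073741824) (W2 := 536870912) (P3 := 858993459) (W3 := 64424510) (N0 := 3) (En := eng) (mo := mog) (C1 := cd1q2b) (C2 := cd2q2) (C3 := pd0)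
    rfl k0_pp_202_b

noncomputable def f_pp_203_a : ℕ → ℕ → ℕ → ℕ → Bool := onCell 0 536870912 0 1230186008 858993459 64424510
    (rowB 3 eng mog cd1q2a cd2q3 pd0 0 false true true .up 2 0 3 (qsf 0 536870912 0 1230186008 0) ndB1q2a ndB2q3 pcB0 Cut.none Ext.none)

def k0_pp_203_a : ∃ t, chk3 f_pp_203_a t 1 1 1 = true :=
  ⟨(b (l 2) (l 3)), by decide +kernel⟩

theorem c_pp_203_a : CertB 0 536870912 0 1230186008 858993459 64424510 3 eng mog cd1q2a cd2q3 pd0 false true true .up 2 0 3
    ndB1q2a ndB2q3 pcB0 Cut.none Ext.none :=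
  certB0 (fam := false) (s1 := true) (s2 := true) (a := 2) (b := 0) (c := 3) (cn := .up) (n1 := ndB1q2a) (n2 := ndB2q3) (pc := pcB0) (cut := Cut.none) (xt := Ext.none) (P1 := 0) (W1 := 536870912) (P2 := 0) (W2 := 1230186008) (P3 := 858993459) (W3 := 64424510) (N0 := 3) (En := eng) (mo := mog) (C1 := cd1q2a) (C2 := cd2q3) (C3 := pd0)
    rfl k0_pp_203_a

noncomputable def f_pp_203_b : ℕ → ℕ → ℕ → ℕ → Bool := onCell 1239849684 370763052 0 1230186008 858993459 64424510
    (rowB 3 eng mog cd1q2b cd2q3 pd0 0 false true true .up 2 0 3 (qsf 1239849684 370763052 0 1230186008 0) ndB1q2b ndB2q3 pcB0 Cut.none Ext.none)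

def k0_pp_203_b : ∃ t, chk3 f_pp_203_b t 1 1 1 = true :=
  ⟨(b (l 3) (l 3)), by decide +kernel⟩

theorem c_pp_203_b : CertB 1239849684 370763052 0 1230186008 858993459 64424510 3 eng mog cd1q2b cd2q3 pd0 false true true .up 2 0 3
    ndB1q2b ndB2q3 pcB0 Cut.none Ext.none :=
  certB0 (fam := false) (s1 := true) (s2 := true) (a := 2) (b := 0) (c := 3) (cn := .up) (n1 := ndB1q2b) (n2 := ndB2q3) (pc := pcB0) (cut := Cut.none) (xt := Ext.none) (P1 := 1239849684) (W1 := 370763052) (P2 := 0) (W2 := 1230186008) (P3 := 858993459) (W3 := 64424510) (N0 := 3) (En := eng) (mo := mog) (C1 := cd1q2b) (C2 := cd2q3) (C3 := pd0)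
    rfl k0_pp_203_b

noncomputable def cut_pp_213_a : Cut := Cut.of [[⟨0, 1, 0, 67108864⟩, ⟨1, 1, 0, 67108864⟩, ⟨2, 2, 0, 16777216⟩]]

noncomputable def f_pp_213_a : ℕ → ℕ → ℕ → ℕ → Bool := onCell 0 536870912 0 1230186008 858993459 64424510
    (rowB 3 eng mog cd1q2a cd2q3 pd1 0 false true true .pnn 2 1 3 (qsf 0 536870912 0 1230186008 1) ndB1q2a ndB2q3 pcB1 cut_pp_213_a Ext.none)

def k0_pp_213_a : ∃ t, chk3 f_pp_213_a t 1 1 1 = true :=
  ⟨(b (a (l 3) (b (a (l 3) (a (l 3) (b (l 6) (l 3)))) (l 3))) (l 3)), by decide +kernel⟩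

theorem c_pp_213_a : CertB 0 536870912 0 1230186008 858993459 64424510 3 eng mog cd1q2a cd2q3 pd1 false true true .pnn 2 1 3
    ndB1q2a ndB2q3 pcB1 cut_pp_213_a Ext.none :=
  certB0 (fam := false) (s1 := true) (s2 := true) (a := 2) (b := 1) (c := 3) (cn := .pnn) (n1 := ndB1q2a) (n2 := ndB2q3) (pc := pcB1) (cut := cut_pp_213_a) (xt := Ext.none) (P1 := 0) (W1 := 536870912) (P2 := 0) (W2 := 1230186008) (P3 := 858993459) (W3 := 64424510) (N0 := 3) (En := eng) (mo := mog) (C1 := cd1q2a) (C2 := cd2q3) (C3 := pd1)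
    rfl k0_pp_213_a

noncomputable def cut_pp_213_b : Cut := Cut.of [[⟨0, 1, 0, 67108864⟩, ⟨1, 1, 0, 67108864⟩, ⟨2, 2, 0, 16777216⟩]]

noncomputable def f_pp_213_b : ℕ → ℕ → ℕ → ℕ → Bool := onCell 1239849684 370763052 0 1230186008 858993459 64424510
    (rowB 3 eng mog cd1q2b cd2q3 pd1 0 false true true .pnn 2 1 3 (qsf 1239849684 370763052 0 1230186008 1) ndB1q2b ndB2q3 pcB1 cut_pp_213_b Ext.none)

def k0_pp_213_b : ∃ t, chk3 f_pp_213_b t 1 1 1 = true :=
  ⟨(b (l 3) (l 3)), by decide +kernel⟩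

theorem c_pp_213_b : CertB 1239849684 370763052 0 1230186008 858993459 64424510 3 eng mog cd1q2b cd2q3 pd1 false true true .pnn 2 1 3
    ndB1q2b ndB2q3 pcB1 cut_pp_213_b Ext.none :=
  certB0 (fam := false) (s1 := true) (s2 := true) (a := 2) (b := 1) (c := 3) (cn := .pnn) (n1 := ndB1q2b) (n2 := ndB2q3) (pc := pcB1) (cut := cut_pp_213_b) (xt := Ext.none) (P1 := 1239849684) (W1 := 370763052) (P2 := 0) (W2 := 1230186008) (P3 := 858993459) (W3 := 64424510) (N0 := 3) (En := eng) (mo := mog) (C1 := cd1q2b) (C2 := cd2q3) (C3 := pd1)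
    rfl k0_pp_213_b

noncomputable def f_pp_303 : ℕ → ℕ → ℕ → ℕ → Bool := onCell 1610612736 536870912 0 1230186008 858993459 64424510
    (rowB 3 eng mog cd1q3 cd2q3 pd0 0 false true true .npn 3 0 3 (qsf 1610612736 536870912 0 1230186008 0) ndB1q3 ndB2q3 pcB0 Cut.none Ext.none)

def k0_pp_303 : ∃ t, chk3 f_pp_303 t 1 1 1 = true :=
  ⟨(b (l 3) (l 3)), by decide +kernel⟩

theorem c_pp_303 : CertB 1610612736 536870912 0 1230186008 858993459 64424510 3 eng mog cd1q3 cd2q3 pd0 false true true .npn 3 0 3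
    ndB1q3 ndB2q3 pcB0 Cut.none Ext.none :=
  certB0 (fam := false) (s1 := true) (s2 := true) (a := 3) (b := 0) (c := 3) (cn := .npn) (n1 := ndB1q3) (n2 := ndB2q3) (pc := pcB0) (cut := Cut.none) (xt := Ext.none) (P1 := 1610612736) (W1 := 536870912) (P2 := 0) (W2 := 1230186008) (P3 := 858993459) (W3 := 64424510) (N0 := 3) (En := eng) (mo := mog) (C1 := cd1q3) (C2 := cd2q3) (C3 := pd0)
    rfl k0_pp_303

noncomputable def f_pp_313 : ℕ → ℕ → ℕ → ℕ → Bool := onCell 1610612736 536870912 0 1230186008 858993459 64424510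
    (rowB 3 eng mog cd1q3 cd2q3 pd1 0 false true true .dn 3 1 3 (qsf 1610612736 536870912 0 1230186008 1) ndB1q3 ndB2q3 pcB1 Cut.none Ext.none)

def k0_pp_313 : ∃ t, chk3 f_pp_313 t 1 1 1 = true :=
  ⟨(b (l 3) (l 1)), by decide +kernel⟩

theorem c_pp_313 : CertB 1610612736 536870912 0 1230186008 858993459 64424510 3 eng mog cd1q3 cd2q3 pd1 false true true .dn 3 1 3
    ndB1q3 ndB2q3 pcB1 Cut.none Ext.none :=
  certB0 (fam := false) (s1 := true) (s2 := true) (a := 3) (b := 1) (c := 3) (cn := .dn) (n1 := ndB1q3) (n2 := ndB2q3) (pc := pcB1) (cut := Cut.none) (xt := Ext.none) (P1 := 1610612736) (W1 := 536870912) (P2 := 0) (W2 := 1230186008) (P3 := 858993459) (W3 := 64424510) (N0 := 3) (En := eng) (mo := mog) (C1 := cd1q3) (C2 := cd2q3) (C3 := pd1)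
    rfl k0_pp_313

noncomputable def f_pm_001 : ℕ → ℕ → ℕ → ℕ → Bool := onCell 0 536870912 536870912 536870912 858993459 64424510
    (rowB 3 eng mog cd1q0 cd2q1 pd0 0 false true false .up 0 0 1 (qsf 0 536870912 536870912 536870912 0) ndB1q0 ndB2q1 pcB0 Cut.none Ext.none)

def k0_pm_001 : ∃ t, chk3 f_pm_001 t 1 1 1 = true :=
  ⟨(l 4), by decide +kernel⟩

theorem c_pm_001 : CertB 0 536870912 536870912 536870912 858993459 64424510 3 eng mog cd1q0 cd2q1 pd0 false true false .up 0 0 1
    ndB1q0 ndB2q1 pcB0 Cut.none Ext.none :=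
  certB0 (fam := false) (s1 := true) (s2 := false) (a := 0) (b := 0) (c := 1) (cn := .up) (n1 := ndB1q0) (n2 := ndB2q1) (pc := pcB0) (cut := Cut.none) (xt := Ext.none) (P1 := 0) (W1 := 536870912) (P2 := 536870912) (W2 := 536870912) (P3 := 858993459) (W3 := 64424510) (N0 := 3) (En := eng) (mo := mog) (C1 := cd1q0) (C2 := cd2q1) (C3 := pd0)
    rfl k0_pm_001

noncomputable def f_pm_011 : ℕ → ℕ → ℕ → ℕ → Bool := onCell 0 536870912 536870912 536870912 858993459 64424510
    (rowB 3 eng mog cd1q0 cd2q1 pd1 0 false true false .pnn 0 1 1 (qsf 0 536870912 536870912 536870912 1) ndB1q0 ndB2q1 pcB1 Cut.none Ext.none)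

def k0_pm_011 : ∃ t, chk3 f_pm_011 t 1 1 1 = true :=
  ⟨(l 4), by decide +kernel⟩

theorem c_pm_011 : CertB 0 536870912 536870912 536870912 858993459 64424510 3 eng mog cd1q0 cd2q1 pd1 false true false .pnn 0 1 1
    ndB1q0 ndB2q1 pcB1 Cut.none Ext.none :=
  certB0 (fam := false) (s1 := true) (s2 := false) (a := 0) (b := 1) (c := 1) (cn := .pnn) (n1 := ndB1q0) (n2 := ndB2q1) (pc := pcB1) (cut := Cut.none) (xt := Ext.none) (P1 := 0) (W1 := 536870912) (P2 := 536870912) (W2 := 536870912) (P3 := 858993459) (W3 := 64424510) (N0 := 3) (En := eng) (mo := mog) (C1 := cd1q0) (C2 := cd2q1) (C3 := pd1)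
    rfl k0_pm_011

noncomputable def f_pm_012 : ℕ → ℕ → ℕ → ℕ → Bool := onCell 0 536870912 1073741824 536870912 858993459 64424510
    (rowB 3 eng mog cd1q0 cd2q2 pd1 0 false true false .pnp 0 1 2 (qsf 0 536870912 1073741824 536870912 1) ndB1q0 ndB2q2 pcB1 Cut.none Ext.none)

def k0_pm_012 : ∃ t, chk3 f_pm_012 t 1 1 1 = true :=
  ⟨(b (l 4) (l 4)), by decide +kernel⟩

theorem c_pm_012 : CertB 0 536870912 1073741824 536870912 858993459 64424510 3 eng mog cd1q0 cd2q2 pd1 false true false .pnp 0 1 2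
    ndB1q0 ndB2q2 pcB1 Cut.none Ext.none :=
  certB0 (fam := false) (s1 := true) (s2 := false) (a := 0) (b := 1) (c := 2) (cn := .pnp) (n1 := ndB1q0) (n2 := ndB2q2) (pc := pcB1) (cut := Cut.none) (xt := Ext.none) (P1 := 0) (W1 := 536870912) (P2 := 1073741824) (W2 := 536870912) (P3 := 858993459) (W3 := 64424510) (N0 := 3) (En := eng) (mo := mog) (C1 := cd1q0) (C2 := cd2q2) (C3 := pd1)
    rfl k0_pm_012

noncomputable def f_pm_022 : ℕ → ℕ → ℕ → ℕ → Bool := onCell 0 536870912 1073741824 536870912 858993459 64424510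
    (rowB 3 eng mog cd1q0 cd2q2 pd2 0 false true false .pp 0 2 2 (qsf 0 536870912 1073741824 536870912 2) ndB1q0 ndB2q2 pcB2 Cut.none Ext.none)

def k0_pm_022 : ∃ t, chk3 f_pm_022 t 1 1 1 = true :=
  ⟨(b (l 4) (l 4)), by decide +kernel⟩

theorem c_pm_022 : CertB 0 536870912 1073741824 536870912 858993459 64424510 3 eng mog cd1q0 cd2q2 pd2 false true false .pp 0 2 2
    ndB1q0 ndB2q2 pcB2 Cut.none Ext.none :=
  certB0 (fam := false) (s1 := true) (s2 := false) (a := 0) (b := 2) (c := 2) (cn := .pp) (n1 := ndB1q0) (n2 := ndB2q2) (pc := pcB2) (cut := Cut.none) (xt := Ext.none) (P1 := 0) (W1 := 536870912) (P2 := 1073741824) (W2 := 536870912) (P3 := 858993459) (W3 := 64424510) (N0 := 3) (En := eng) (mo := mog) (C1 := cd1q0) (C2 := cd2q2) (C3 := pd2)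
    rfl k0_pm_022

noncomputable def f_pm_023 : ℕ → ℕ → ℕ → ℕ → Bool := onCell 0 536870912 0 1230186008 858993459 64424510
    (rowB 3 eng mog cd1q0 cd2q3 pd2 0 false true false .up 0 2 3 (qsf 0 536870912 0 1230186008 2) ndB1q0 ndB2q3 pcB2 Cut.none Ext.none)

def k0_pm_023 : ∃ t, chk3 f_pm_023 t 1 1 1 = true :=
  ⟨(b (a (l 2) (a (l 2) (b (a (l 2) (b (l 16187840) (l 16101008))) (b (l 4) (l 4))))) (b (l 4) (l 4))), by decide +kernel⟩

theorem c_pm_023 : CertB 0 536870912 0 1230186008 858993459 64424510 3 eng mog cd1q0 cd2q3 pd2 false true false .up 0 2 3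
    ndB1q0 ndB2q3 pcB2 Cut.none Ext.none :=
  certB0 (fam := false) (s1 := true) (s2 := false) (a := 0) (b := 2) (c := 3) (cn := .up) (n1 := ndB1q0) (n2 := ndB2q3) (pc := pcB2) (cut := Cut.none) (xt := Ext.none) (P1 := 0) (W1 := 536870912) (P2 := 0) (W2 := 1230186008) (P3 := 858993459) (W3 := 64424510) (N0 := 3) (En := eng) (mo := mog) (C1 := cd1q0) (C2 := cd2q3) (C3 := pd2)
    rfl k0_pm_023

noncomputable def f_pm_033 : ℕ → ℕ → ℕ → ℕ → Bool := onCell 0 536870912 0 1230186008 858993459 64424510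
    (rowB 3 eng mog cd1q0 cd2q3 pd3 0 false true false .pnn 0 3 3 (qsf 0 536870912 0 1230186008 3) ndB1q0 ndB2q3 pcB3 Cut.none Ext.none)

def k0_pm_033 : ∃ t, chk3 f_pm_033 t 1 1 1 = true :=
  ⟨(b (a (l 4) (a (l 4) (b (a (l 4) (b (l 16211168) (l 54792630215))) (b (l 4) (l 4))))) (b (l 4) (l 4))), by decide +kernel⟩

theorem c_pm_033 : CertB 0 536870912 0 1230186008 858993459 64424510 3 eng mog cd1q0 cd2q3 pd3 false true false .pnn 0 3 3
    ndB1q0 ndB2q3 pcB3 Cut.none Ext.none :=
  certB0 (fam := false) (s1 := true) (s2 := false) (a := 0) (b := 3) (c := 3) (cn := .pnn) (n1 := ndB1q0) (n2 := ndB2q3) (pc := pcB3) (cut := Cut.none) (xt := Ext.none) (P1 := 0) (W1 := 536870912) (P2 := 0) (W2 := 1230186008) (P3 := 858993459) (W3 := 64424510) (N0 := 3) (En := eng) (mo := mog) (C1 := cd1q0) (C2 := cd2q3) (C3 := pd3)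
    rfl k0_pm_033

noncomputable def f_pm_101 : ℕ → ℕ → ℕ → ℕ → Bool := onCell 536870912 536870912 536870912 536870912 858993459 64424510
    (rowB 3 eng mog cd1q1 cd2q1 pd0 0 false true false .npn 1 0 1 (qsf 536870912 536870912 536870912 536870912 0) ndB1q1 ndB2q1 pcB0 Cut.none Ext.none)

def k0_pm_101 : ∃ t, chk3 f_pm_101 t 1 1 1 = true :=
  ⟨(l 4), by decide +kernel⟩

theorem c_pm_101 : CertB 536870912 536870912 536870912 536870912 858993459 64424510 3 eng mog cd1q1 cd2q1 pd0 false true false .npn 1 0 1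
    ndB1q1 ndB2q1 pcB0 Cut.none Ext.none :=
  certB0 (fam := false) (s1 := true) (s2 := false) (a := 1) (b := 0) (c := 1) (cn := .npn) (n1 := ndB1q1) (n2 := ndB2q1) (pc := pcB0) (cut := Cut.none) (xt := Ext.none) (P1 := 536870912) (W1 := 536870912) (P2 := 536870912) (W2 := 536870912) (P3 := 858993459) (W3 := 64424510) (N0 := 3) (En := eng) (mo := mog) (C1 := cd1q1) (C2 := cd2q1) (C3 := pd0)
    rfl k0_pm_101

noncomputable def f_pm_102 : ℕ → ℕ → ℕ → ℕ → Bool := onCell 536870912 536870912 1073741824 536870912 858993459 64424510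
    (rowB 3 eng mog cd1q1 cd2q2 pd0 0 false true false .npp 1 0 2 (qsf 536870912 536870912 1073741824 536870912 0) ndB1q1 ndB2q2 pcB0 Cut.none Ext.none)

def k0_pm_102 : ∃ t, chk3 f_pm_102 t 2 1 1 = true :=
  ⟨(a (b (l 4) (l 2)) (b (b (a (l 4) (b (c (b (a (l 15650328) (l 15630448)) (a (l 15696160) (l 15660808))) (a (l 15813536) (l 15807360))) (c (b (a (l 15710376) (l 15680888)) (l 43718774855)) (a (l 15954376) (l 15905392))))) (a (l 4) (b (b (c (l 19023846023) (l 15942704)) (c (l 15898832) (l 15938536))) (a (c (l 15742800) (l 15930080)) (c (l 15684256) (l 15905152)))))) (b (b (a (l 2) (a (l 2) (c (l 15643624) (l 15854896)))) (l 2)) (l 2)))), by decide +kernel⟩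

def k1_pm_102 : ∃ t, chk3 f_pm_102 t 3 2 1 = true :=
  ⟨(a (b (a (b (c (a (b (l 15592008) (l 15627352)) (b (l 15556888) (l 15596704))) (a (l 15750872) (l 15689104))) (c (b (l 15825480) (l 15656672)) (a (l 15848056) (l 15786128)))) (b (c (a (b (l 15526696) (l 15570664)) (b (l 15503736) (l 15551040))) (b (a (l 15591160) (l 15527928)) (l 15624216))) (c (b (l 15633952) (l 15617824)) (b (l 15673112) (l 15684312))))) (a (b (c (b (l 15679456) (l 15686336)) (a (l 15868960) (l 15810624))) (c (a (l 15682520) (l 15675024)) (l 15838400))) (b (c (b (l 15646888) (l 15660088)) (a (l 15748672) (l 15686408))) (c (l 15722616) (l 15704528))))) (b (a (b (a (b (c (l 15490008) (l 15468336)) (c (l 15540128) (l 15535624))) (b (c (l 15488000) (l 15415240)) (c (l 15539416) (l 15483104)))) (a (b (l 15577480) (l 15607280)) (b (l 15552016) (l 15581584)))) (b (a (b (a (l 15438200) (l 15538416)) (l 15724488)) (c (b (a (l 15517816) (l 15526352)) (l 15564256)) (b (a (l 15345248) (l 15325824))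 (l 15398832)))) (a (b (l 15534992) (l 15564056)) (b (l 15546528) (l 15554640))))) (a (a (b (c (l 15642600) (l 15626768)) (l 15851688)) (b (b (l 15601096) (l 15612080)) (l 15720352))) (b (a (b (l 15583040) (l 15593520)) (b (l 15573584) (l 15583632))) (a (l 15679720) (l 15836360)))))), by decide +kernel⟩

def k2_pm_102 : ∃ t, chk3 f_pm_102 t 3 3 1 = true :=
  ⟨(a (b (a (b (c (a (l 15659424) (l 15662904)) (l 15814224)) (a (l 2) (c (l 15660800) (l 15772392)))) (b (c (l 15655216) (l 15779320)) (a (l 15818328) (l 15664768)))) (a (l 2) (b (a (l 2) (b (l 15681944) (l 2))) (l 2)))) (b (a (b (c (l 15645416) (l 15600920)) (a (l 15632856) (b (l 15601728) (l 15602680)))) (b (a (l 15585176) (b (l 15575160) (l 15571144))) (a (b (l 15578704) (l 15581296)) (b (l 15572568) (l 15572224))))) (a (b (a (b (l 15643760) (l 15653768)) (b (l 15608104) (l 15603536))) (b (a (l 2) (l 15597984)) (l 2))) (b (a (b (l 15578800) (l 15574456)) (b (l 15568688) (l 15561824))) (a (b (l 15567392) (l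 15564696)) (b (l 15552736) (l 15566944))))))), by decide +kernel⟩

theorem s3_pm_102 : ∃ t, chk3 f_pm_102 t 3 1 1 = true := ex3_b k1_pm_102 k2_pm_102

theorem s4_pm_102 : ∃ t, chk3 f_pm_102 t 1 1 1 = true := ex3_a k0_pm_102 s3_pm_102

theorem c_pm_102 : CertB 536870912 536870912 1073741824 536870912 858993459 64424510 3 eng mog cd1q1 cd2q2 pd0 false true false .npp 1 0 2
    ndB1q1 ndB2q2 pcB0 Cut.none Ext.none :=
  certB0 (fam := false) (s1 := true) (s2 := false) (a := 1) (b := 0) (c := 2) (cn := .npp) (n1 := ndB1q1) (n2 := ndB2q2) (pc := pcB0) (cut := Cut.none) (xt := Ext.none) (P1 := 536870912) (W1 := 536870912) (P2 := 1073741824) (W2 := 536870912) (P3 := 858993459) (W3 := 64424510) (N0 := 3) (En := eng) (mo := mog) (C1 := cd1q1) (C2 := cd2q2) (C3 := pd0)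
    rfl s4_pm_102

noncomputable def f_pm_112 : ℕ → ℕ → ℕ → ℕ → Bool := onCell 536870912 536870912 1073741824 536870912 858993459 64424510
    (rowB 3 eng mog cd1q1 cd2q2 pd1 2 false true false .dn 1 1 2 (qsf 536870912 536870912 1073741824 536870912 1) ndB1q1 ndB2q2 pcB1 Cut.none Ext.none)

def k0_pm_112 : ∃ t, chk3 f_pm_112 t 1 1 1 = true :=
  ⟨(a (b (a (a (b (l 4) (b (l 4) (c (l 15748184) (l 15945056)))) (l 4)) (l 4)) (a (b (c (a (b (l 15650832) (l 15644048)) (b (l 15615816) (l 15593064))) (a (b (l 15864584) (l 15788592)) (b (l 15862800) (l 15782944)))) (b (c (a (l 15712800) (l 15618232)) (a (l 15771440) (l 15549528))) (a (b (l 15672488) (c (l 15740056) (l 15618960))) (b (c (l 15643296) (l 15675968)) (l 15663200))))) (a (b (b (l 4) (c (l 15674824) (l 15765104))) (c (b (l 15529232) (a (l 15600280) (l 15550232))) (b (l 49087390967) (b (l 15638416) (l 15624096))))) (b (l 4) (c (b (l 15442128) (b (l 15437736) (l 15477400))) (b (l 15606896) (b (l 15546640) (l 15533056))))))))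 (b (l 4) (a (b (l 4) (b (l 4) (c (a (l 15325656) (l 15187856)) (a (l 15549136) (l 104384347687))))) (l 4)))), by decide +kernel⟩

theorem c_pm_112 : CertB 536870912 536870912 1073741824 536870912 858993459 64424510 3 eng mog cd1q1 cd2q2 pd1 false true false .dn 1 1 2
    ndB1q1 ndB2q2 pcB1 Cut.none Ext.none :=
  certB2 (fam := false) (s1 := true) (s2 := false) (a := 1) (b := 1) (c := 2) (cn := .dn) (n1 := ndB1q1) (n2 := ndB2q2) (pc := pcB1) (cut := Cut.none) (xt := Ext.none) (P1 := 536870912) (W1 := 536870912) (P2 := 1073741824) (W2 := 536870912) (P3 := 858993459) (W3 := 64424510) (N0 := 3) (En := eng) (mo := mog) (C1 := cd1q1) (C2 := cd2q2) (C3 := pd1)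
    rfl (fun _ => rfl) k0_pm_112

noncomputable def f_pm_113 : ℕ → ℕ → ℕ → ℕ → Bool := onCell 536870912 536870912 0 1230186008 858993459 64424510
    (rowB 3 eng mog cd1q1 cd2q3 pd1 0 false true false .nn 1 1 3 (qsf 536870912 536870912 0 1230186008 1) ndB1q1 ndB2q3 pcB1 Cut.none Ext.none)

def k0_pm_113 : ∃ t, chk3 f_pm_113 t 1 1 1 = true :=
  ⟨(a (b (l 2) (b (b (l 2) (a (l 2) (a (l 2) (b (l 2) (c (l 15198080) (l 14679832)))))) (b (a (l 2) (a (b (c (l 14787504) (l 14444848)) (c (l 14851528) (l 14620512))) (b (c (l 15162592) (l 14790216)) (c (l 15160304) (l 14916256))))) (a (l 4) (b (a (c (l 112974660007) (a (l 14793520) (l 14901880))) (c (b (l 15190664) (l 15214736)) (b (l 15029512) (l 15121248)))) (a (a (l 4) (c (l 15152144) (l 15153928))) (c (b (l 15264352) (l 15305024)) (b (l 15224632) (l 15328504))))))))) (a (b (l 2) (a (b (b (l 2) (b (c (l 15813736) (l 15107280)) (c (l 15647920) (l 15131880)))) (b (b (l 15343944) (c (l 15474984) (l 15242176))) (b (c (l 15446312)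 (l 15317432)) (b (a (l 15371480) (l 15463632)) (c (l 15472984) (l 15474584)))))) (b (b (b (c (l 16277528) (l 15864392)) (l 15948496)) (b (l 16030784) (l 15850800))) (b (b (l 15724448) (l 15640032)) (b (c (l 15651536) (l 15532496)) (c (l 15622768) (l 15794464))))))) (b (b (a (l 2) (a (l 2) (l 16781800))) (a (b (c (l 16328752) (l 16074136)) (c (l 16371224) (l 16113424))) (b (l 16554928) (l 16620000)))) (b (b (b (a (l 16424216) (l 16783576)) (a (l 16464704) (l 16834664))) (b (a (l 16502216) (l 16729384)) (a (l 16239864) (c (l 16561912) (l 16150712))))) (b (a (b (l 16005768) (l 15841880)) (c (l 16122808) (b (l 15927080) (l 15779784)))) (b (a (c (l 15806752) (l 15669608)) (c (l 15874840) (l 15682432))) (a (c (l 15722760) (b (l 15628912) (l 15613048))) (b (l 15710840) (a (l 15676648) (l 15676040)))))))))), by decide +kernel⟩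

theorem c_pm_113 : CertB 536870912 536870912 0 1230186008 858993459 64424510 3 eng mog cd1q1 cd2q3 pd1 false true false .nn 1 1 3
    ndB1q1 ndB2q3 pcB1 Cut.none Ext.none :=
  certB0 (fam := false) (s1 := true) (s2 := false) (a := 1) (b := 1) (c := 3) (cn := .nn) (n1 := ndB1q1) (n2 := ndB2q3) (pc := pcB1) (cut := Cut.none) (xt := Ext.none) (P1 := 536870912) (W1 := 536870912) (P2 := 0) (W2 := 1230186008) (P3 := 858993459) (W3 := 64424510) (N0 := 3) (En := eng) (mo := mog) (C1 := cd1q1) (C2 := cd2q3) (C3 := pd1)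
    rfl k0_pm_113

noncomputable def f_pm_123 : ℕ → ℕ → ℕ → ℕ → Bool := onCell 1073741824 536870912 0 1230186008 858993459 64424510
    (rowB 3 eng mog cd1q1 cd2q3 pd2 2 false true false .npn 1 2 3 (qsf 536870912 536870912 0 1230186008 2) ndB1q1 ndB2q3 pcB2 Cut.none Ext.none)

def k0_pm_123 : ∃ t, chk3 f_pm_123 t 1 1 1 = true :=
  ⟨(b (a (a (b (a (a (l 16728416) (l 16632032)) (b (l 16526256) (l 16439944))) (a (b (a (l 16578304) (l 16436624)) (a (l 16332472) (l 16251896))) (b (l 16272104) (c (l 16250088) (l 15965936))))) (b (a (b (l 16338888) (l 16265392)) (c (l 16302328) (l 16056920))) (a (b (l 16125752) (c (l 16176960) (l 15801096))) (c (b (l 16210024) (l 16164048)) (b (l 15873448) (l 15707352)))))) (a (b (a (c (l 16287464) (l 15955968)) (c (l 16318456) (l 15914256))) (a (c (b (l 16227872) (l 16203656)) (b (l 15814224) (l 15682248))) (c (b (l 16288520) (l 16281376)) (b (l 15814160) (l 15719176))))) (b (a (c (l 16389216) (l 15925536)) (c (l 16490624) (l 15982904)))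 (a (c (b (l 16383456) (l 16366880)) (b (l 15864800) (l 15798904))) (b (c (l 16487152) (l 15949080)) (l 4)))))) (b (a (b (a (b (a (c (l 16380928) (l 16062808)) (c (l 16261784) (l 15805624))) (a (c (l 16278656) (l 15694360)) (c (l 16004568) (l 15512648)))) (b (a (c (l 16122624) (l 15651488)) (c (l 16067056) (l 15590520))) (a (c (l 15910384) (l 15457704)) (c (l 15924976) (l 15465488))))) (a (a (b (c (l 15852776) (l 15307376)) (c (l 15461288) (l 15029472))) (b (c (l 15711880) (l 15274912)) (c (l 15468696) (l 15101848)))) (a (b (c (l 15720960) (l 15305544)) (c (l 15578568) (l 15221256))) (b (c (l 15810344) (l 15389248)) (l 4))))) (b (a (a (b (c (l 16097352) (l 15603920)) (c (l 16006824) (l 15540416))) (b (c (l 16172128) (l 15677504)) (l 4))) (l 4)) (l 4))) (a (b (a (b (a (c (l 15163728) (l 14843040)) (c (l 15300976) (l 15015536))) (a (c (a (l 14922384) (l 15032368)) (a (l 14700552) (l 14826656))) (l 4))) (l 4)) (l 4)) (l 1)))), by decide +kernel⟩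

theorem c_pm_123 : CertB 536870912 536870912 0 1230186008 858993459 64424510 3 eng mog cd1q1 cd2q3 pd2 false true false .npn 1 2 3
    ndB1q1 ndB2q3 pcB2 Cut.none Ext.none :=
  certB2 (fam := false) (s1 := true) (s2 := false) (a := 1) (b := 2) (c := 3) (cn := .npn) (n1 := ndB1q1) (n2 := ndB2q3) (pc := pcB2) (cut := Cut.none) (xt := Ext.none) (P1 := 536870912) (W1 := 536870912) (P2 := 0) (W2 := 1230186008) (P3 := 858993459) (W3 := 64424510) (N0 := 3) (En := eng) (mo := mog) (C1 := cd1q1) (C2 := cd2q3) (C3 := pd2)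
    rfl (fun _ => rfl) k0_pm_123

noncomputable def f_pm_133 : ℕ → ℕ → ℕ → ℕ → Bool := onCell 536870912 536870912 0 1230186008 858993459 64424510
    (rowB 3 eng mog cd1q1 cd2q3 pd3 0 false true false .dn 1 3 3 (qsf 536870912 536870912 0 1230186008 3) ndB1q1 ndB2q3 pcB3 Cut.none Ext.none)

def k0_pm_133 : ∃ t, chk3 f_pm_133 t 1 1 1 = true :=
  ⟨(b (b (a (a (a (b (l 16370032) (l 1)) (l 1)) (l 1)) (l 1)) (l 1)) (l 1)), by decide +kernel⟩

theorem c_pm_133 : CertB 536870912 536870912 0 1230186008 858993459 64424510 3 eng mog cd1q1 cd2q3 pd3 false true false .dn 1 3 3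
    ndB1q1 ndB2q3 pcB3 Cut.none Ext.none :=
  certB0 (fam := false) (s1 := true) (s2 := false) (a := 1) (b := 3) (c := 3) (cn := .dn) (n1 := ndB1q1) (n2 := ndB2q3) (pc := pcB3) (cut := Cut.none) (xt := Ext.none) (P1 := 536870912) (W1 := 536870912) (P2 := 0) (W2 := 1230186008) (P3 := 858993459) (W3 := 64424510) (N0 := 3) (En := eng) (mo := mog) (C1 := cd1q1) (C2 := cd2q3) (C3 := pd3)
    rfl k0_pm_133

noncomputable def f_pm_202_a : ℕ → ℕ → ℕ → ℕ → Bool := onCell 0 536870912 0 536870912 858993459 64424510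
    (rowB 3 eng mog cd1q2a cd2q2 pd0 1 false true false .pp 2 0 2 (qsf 0 536870912 1073741824 536870912 0) ndB1q2a ndB2q2 pcB0 Cut.none Ext.none)

def k0_pm_202_a : ∃ t, chk3 f_pm_202_a t 2 1 1 = true :=
  ⟨(b (l 3) (l 3)), by decide +kernel⟩

def k1_pm_202_a : ∃ t, chk3 f_pm_202_a t 12 16 1 = true :=
  ⟨(c (a (a (l 3) (a (l 3) (b (b (a (b (c (b (a (l 16365888) (l 16369416)) (b (l 16367096) (l 16366624))) (b (a (l 16322040) (l 16325152)) (l 16344888))) (b (a (l 16343976) (l 16346760)) (l 16361000))) (b (b (l 16354520) (c (l 16374088) (l 16330144))) (b (c (c (l 16382984) (l 16362384)) (l 16329768)) (a (l 16349592) (l 16352728))))) (b (b (a (l 16345176) (l 16350936)) (l 137605900551)) (c (l 16366416) (l 16328528)))) (b (b (l 132774079655) (l 16347752)) (l 129552885911))))) (b (a (a (a (b (b (l 16362400) (b (l 16359720) (a (l 16356064) (l 16360072)))) (b (b (l 16357264) (l 16356704)) (l 16356424))) (b (b (l 16370848) (l 16367504)) (b (b (l 16364696) (l 16363240)) (l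 16362496)))) (b (l 16381840) (b (l 16377056) (a (l 16369192) (l 16377848))))) (b (l 16397008) (l 16381240))) (a (b (a (b (l 16358960) (l 16358680)) (b (l 16371480) (l 16370408))) (a (l 16379392) (l 16369656))) (b (a (b (l 16387672) (l 16384192)) (l 16404072)) (a (l 16382288) (l 16396800)))))) (a (a (l 3) (a (l 3) (b (b (b (a (c (b (l 16275960) (l 16277136)) (l 16225752)) (b (l 16257200) (l 16278112))) (c (l 100561706903) (l 16232816))) (b (c (l 16284728) (l 16237944)) (l 16265824))) (b (l 113446644103) (l 16280864))))) (a (a (b (b (b (l 16290392) (b (l 16268896) (l 16310640))) (c (b (l 16294344) (l 16296648)) (b (l 16245680) (l 16250256)))) (b (l 16300648) (l 16287984))) (b (b (l 16286488) (b (l 16285096) (l 16284904))) (b (b (l 16287304) (l 16290536)) (l 16296400)))) (b (c (l 16337200) (l 16287600)) (b (b (l 16309936) (l 16309448)) (a (l 16306240) (l 16318544))))))), by decide +kernel⟩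

def k2_pm_202_a : ∃ t, chk3 f_pm_202_a t 12 17 1 = true :=
  ⟨(a (l 3) (b (c (a (b (a (l 16358304) (l 16369176)) (a (l 16358472) (l 16368920))) (b (l 16387560) (l 16385992))) (a (b (l 16300264) (l 16308080)) (b (l 16318704) (l 16325376)))) (c (a (b (l 16386648) (l 16370288)) (l 16429016)) (a (b (l 16313616) (l 16316008)) (l 16334168))))), by decide +kernel⟩

def k3_pm_202_a : ∃ t, chk3 f_pm_202_a t 12 9 1 = true :=
  ⟨(a (l 3) (b (c (b (a (l 156396471223) (l 16394648)) (a (l 16387544) (l 16403312))) (b (a (l 16318384) (l 16338280)) (a (l 16320680) (l 16339616)))) (c (b (a (l 16396176) (l 16410968)) (l 128479173143)) (b (a (l 16321944) (l 16339904)) (a (l 3) (l 16338904)))))), by decide +kernel⟩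

def k4_pm_202_a : ∃ t, chk3 f_pm_202_a t 13 4 1 = true :=
  ⟨(a (b (b (c (b (c (a (l 16460504) (l 16496728)) (l 16439080)) (c (l 16340832) (l 16427904))) (b (a (l 16351728) (l 16394456)) (a (l 16323064) (l 16381168)))) (b (c (a (b (l 16417296) (l 16412776)) (l 16452376)) (a (b (l 16343848) (l 16347144)) (l 16378808))) (a (b (l 16382584) (l 16384464)) (b (l 16411448) (l 16410280))))) (b (b (c (b (l 16403128) (l 16426280)) (l 16352872)) (c (l 16431880) (l 16373472))) (c (b (l 16438504) (l 16443760)) (b (l 16372912) (l 16371088))))) (b (b (c (b (l 16496904) (a (l 16507640) (l 16549120))) (b (l 16422832) (l 16361368))) (a (c (l 16422184) (l 16414856)) (c (b (l 16536216) (l 16519128)) (l 16369456)))) (b (a (b (b (l 16442264) (l 16440520)) (l 16441144)) (b (l 16376480) (c (l 16497056) (l 16448456)))) (b (c (l 16442496) (l 16427248)) (c (l 16485720) (l 16421576)))))), by decide +kernel⟩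

def k5_pm_202_a : ∃ t, chk3 f_pm_202_a t 6 5 1 = true :=
  ⟨(b (a (a (l 3) (a (l 3) (b (c (l 16425432) (l 140827181895)) (c (l 16374160) (l 16316968))))) (a (b (c (b (l 16447144) (l 16450448)) (l 16344888)) (c (c (l 16475656) (l 16434912)) (l 16299368))) (b (b (l 16327136) (l 16303512)) (b (l 16259688) (l 16258488))))) (a (l 3) (a (b (c (l 101635441991) (l 94655970247)) (c (l 16447200) (l 16366776))) (b (c (l 16488328) (l 16396392)) (c (l 16487864) (l 16393624)))))), by decide +kernel⟩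

def k6_pm_202_a : ∃ t, chk3 f_pm_202_a t 7 2 1 = true :=
  ⟨(b (a (b (b (b (a (a (l 16469976) (l 16583328)) (l 16517248)) (c (l 16443776) (l 16347056))) (c (a (l 16394256) (l 16541376)) (a (c (l 16538984) (l 16434896)) (l 16429432)))) (b (a (b (l 16357664) (l 16395472)) (c (l 16367224) (l 16400896))) (a (b (a (l 16507272) (l 16556384)) (a (c (l 16524952) (l 16447128)) (l 16541264))) (b (l 16539552) (l 16383408))))) (b (b (a (b (a (b (l 16563128) (l 16610080)) (b (l 16570648) (l 16581464))) (l 16472384)) (b (b (c (a (l 16535968) (a (l 16507880) (l 16488352))) (l 16402680)) (a (l 16522928) (a (l 16507752) (l 16483208)))) (b (a (l 16555080) (c (l 16523192) (l 16504744))) (c (l 16519392) (l 16456232))))) (a (b (l 16448776) (l 16443456)) (b (c (l 16516768) (l 16549280)) (c (l 16527392) (l 16551904))))) (b (a (b (b (l 16347184) (l 16393888)) (c (l 16515392) (l 16570280))) (c (b (l 16497368) (l 16456952)) (b (l 16531488) (l 16414016)))) (b (a (l 16351936) (c (l 16428656)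 (l 16468152))) (a (c (l 16407176) (l 16521672)) (b (l 16303560) (l 16254288))))))) (b (b (a (a (b (a (l 16490952) (l 16523552)) (l 16393928)) (b (l 16571632) (l 16487288))) (b (a (c (l 16490960) (l 16519992)) (c (l 16417552) (l 16433896))) (a (l 16401224) (c (l 16421824) (l 16434664))))) (a (a (c (l 16525488) (l 16450480)) (c (l 16528456) (l 16471976))) (a (c (l 16484600) (l 16533072)) (b (l 16324176) (l 16324992))))) (a (a (b (l 16272344) (l 16306632)) (b (l 16293648) (l 16425616))) (b (a (c (l 16470376) (l 16532568)) (b (l 16303832) (l 16281704))) (b (a (c (l 16452992) (l 16522832)) (l 16215928)) (a (l 16451992) (c (l 16376480) (l 16450952)))))))), by decide +kernel⟩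

def k7_pm_202_a : ∃ t, chk3 f_pm_202_a t 3 3 1 = true :=
  ⟨(a (a (l 3) (b (b (c (b (a (l 16472496) (l 16485272)) (a (l 16475776) (l 16459864))) (b (a (l 16371864) (l 16392760)) (a (l 16378056) (l 16393440)))) (b (c (a (l 16462448) (l 16435896)) (l 115056974503)) (a (l 3) (c (l 16413760) (l 16397936))))) (a (l 3) (b (b (b (l 117741317559) (l 120425566183)) (c (l 104789863959) (l 16400536))) (l 2))))) (a (b (a (b (b (l 16278664) (l 16230056)) (c (a (l 16223344) (l 16387008)) (l 16343048))) (b (b (l 16438696) (l 16388600)) (c (l 16367616) (l 16420000)))) (b (c (b (c (l 16329520) (l 16362664)) (c (l 16310856) (l 16339824))) (b (l 16400816) (l 16391592))) (b (c (c (l 16296552) (l 16320128)) (l 16375992)) (l 2)))) (b (a (b (c (l 16399376) (l 16478800)) (c (l 16339016) (l 16419544))) (b (b (c (c (l 16368312) (l 16329768)) (l 16397640)) (c (l 16268720) (l 16418088))) (c (l 16138848) (l 16374528)))) (b (c (b (l 16280048) (l 16337952)) (b (l 16350872) (l 16320024))) (c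 (b (l 16294200) (l 16254592)) (b (l 16289808) (l 16260192))))))), by decide +kernel⟩

theorem s8_pm_202_a : ∃ t, chk3 f_pm_202_a t 12 8 1 = true := ex3_b k1_pm_202_a k2_pm_202_a

theorem s9_pm_202_a : ∃ t, chk3 f_pm_202_a t 12 4 1 = true := ex3_b s8_pm_202_a k3_pm_202_a

theorem s10_pm_202_a : ∃ t, chk3 f_pm_202_a t 6 4 1 = true := ex3_a s9_pm_202_a k4_pm_202_a

theorem s11_pm_202_a : ∃ t, chk3 f_pm_202_a t 6 2 1 = true := ex3_b s10_pm_202_a k5_pm_202_a

theorem s12_pm_202_a : ∃ t, chk3 f_pm_202_a t 3 2 1 = true := ex3_a s11_pm_202_a k6_pm_202_a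

theorem s13_pm_202_a : ∃ t, chk3 f_pm_202_a t 3 1 1 = true := ex3_b s12_pm_202_a k7_pm_202_a

theorem s14_pm_202_a : ∃ t, chk3 f_pm_202_a t 1 1 1 = true := ex3_a k0_pm_202_a s13_pm_202_a

theorem c_pm_202_a : CertB 0 536870912 1073741824 536870912 858993459 64424510 3 eng mog cd1q2a cd2q2 pd0 false true false .pp 2 0 2
    ndB1q2a ndB2q2 pcB0 Cut.none Ext.none :=
  certB1 (fam := false) (s1 := true) (s2 := false) (a := 2) (b := 0) (c := 2) (cn := .pp) (n1 := ndB1q2a) (n2 := ndB2q2) (pc := pcB0) (cut := Cut.none) (xt := Ext.none) (P1 := 0) (W1 := 536870912) (P2 := 1073741824) (W2 := 536870912) (P3 := 858993459) (W3 := 64424510) (N0 := 3) (En := eng) (mo := mog) (C1 := cd1q2a) (C2 := cd2q2) (C3 := pd0)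
    rfl (fun _ => rfl) s14_pm_202_a

noncomputable def f_pm_202_b : ℕ → ℕ → ℕ → ℕ → Bool := onCell 1239849684 370763052 1073741824 536870912 858993459 64424510
    (rowB 3 eng mog cd1q2b cd2q2 pd0 0 false true false .pp 2 0 2 (qsf 1239849684 370763052 1073741824 536870912 0) ndB1q2b ndB2q2 pcB0 Cut.none Ext.none)

def k0_pm_202_b : ∃ t, chk3 f_pm_202_b t 1 1 1 = true :=
  ⟨(l 3), by decide +kernel⟩

theorem c_pm_202_b : CertB 1239849684 370763052 1073741824 536870912 858993459 64424510 3 eng mog cd1q2b cd2q2 pd0 false true false .pp 2 0 2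
    ndB1q2b ndB2q2 pcB0 Cut.none Ext.none :=
  certB0 (fam := false) (s1 := true) (s2 := false) (a := 2) (b := 0) (c := 2) (cn := .pp) (n1 := ndB1q2b) (n2 := ndB2q2) (pc := pcB0) (cut := Cut.none) (xt := Ext.none) (P1 := 1239849684) (W1 := 370763052) (P2 := 1073741824) (W2 := 536870912) (P3 := 858993459) (W3 := 64424510) (N0 := 3) (En := eng) (mo := mog) (C1 := cd1q2b) (C2 := cd2q2) (C3 := pd0)
    rfl k0_pm_202_b

noncomputable def f_pm_203_a : ℕ → ℕ → ℕ → ℕ → Bool := onCell 0 536870912 0 1230186008 858993459 64424510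
    (rowB 3 eng mog cd1q2a cd2q3 pd0 0 false true false .up 2 0 3 (qsf 0 536870912 0 1230186008 0) ndB1q2a ndB2q3 pcB0 Cut.none Ext.none)

def k0_pm_203_a : ∃ t, chk3 f_pm_203_a t 1 1 1 = true :=
  ⟨(b (l 2) (b (l 2) (a (l 3) (b (l 2) (a (a (l 3) (a (l 3) (b (l 3) (b (c (l 16433888) (l 16382264)) (c (b (l 16357608) (l 16365704)) (l 16409064)))))) (b (a (b (l 2) (c (a (l 16298648) (l 2)) (l 118211513719))) (l 2)) (a (b (c (a (l 16366376) (l 16259176)) (a (l 16334136) (l 16280592))) (c (a (l 16399672) (l 16272376)) (a (l 16362808) (l 16310936)))) (b (c (l 16205024) (l 16184320)) (c (a (l 16224824) (l 16171208)) (l 122506451607)))))))))), by decide +kernel⟩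

theorem c_pm_203_a : CertB 0 536870912 0 1230186008 858993459 64424510 3 eng mog cd1q2a cd2q3 pd0 false true false .up 2 0 3
    ndB1q2a ndB2q3 pcB0 Cut.none Ext.none :=
  certB0 (fam := false) (s1 := true) (s2 := false) (a := 2) (b := 0) (c := 3) (cn := .up) (n1 := ndB1q2a) (n2 := ndB2q3) (pc := pcB0) (cut := Cut.none) (xt := Ext.none) (P1 := 0) (W1 := 536870912) (P2 := 0) (W2 := 1230186008) (P3 := 858993459) (W3 := 64424510) (N0 := 3) (En := eng) (mo := mog) (C1 := cd1q2a) (C2 := cd2q3) (C3 := pd0)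
    rfl k0_pm_203_a

noncomputable def f_pm_203_b : ℕ → ℕ → ℕ → ℕ → Bool := onCell 1239849684 370763052 0 1230186008 858993459 64424510
    (rowB 3 eng mog cd1q2b cd2q3 pd0 0 false true false .up 2 0 3 (qsf 1239849684 370763052 0 1230186008 0) ndB1q2b ndB2q3 pcB0 Cut.none Ext.none)

def k0_pm_203_b : ∃ t, chk3 f_pm_203_b t 1 1 1 = true :=
  ⟨(b (l 3) (l 3)), by decide +kernel⟩

theorem c_pm_203_b : CertB 1239849684 370763052 0 1230186008 858993459 64424510 3 eng mog cd1q2b cd2q3 pd0 false true false .up 2 0 3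
    ndB1q2b ndB2q3 pcB0 Cut.none Ext.none :=
  certB0 (fam := false) (s1 := true) (s2 := false) (a := 2) (b := 0) (c := 3) (cn := .up) (n1 := ndB1q2b) (n2 := ndB2q3) (pc := pcB0) (cut := Cut.none) (xt := Ext.none) (P1 := 1239849684) (W1 := 370763052) (P2 := 0) (W2 := 1230186008) (P3 := 858993459) (W3 := 64424510) (N0 := 3) (En := eng) (mo := mog) (C1 := cd1q2b) (C2 := cd2q3) (C3 := pd0)
    rfl k0_pm_203_b

end Pool.Agent.Strip051.G.I8000_8600.Tab.C.BB12

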