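import Pool.Agent.Strip051.G.I8000_8600.Tab

/-! # Certificates B22 (generated) -/

set_option linter.all false
set_option maxRecDepth 100000

namespace Pool.Agent.Strip051.G.I8000_8600.Tab.C.BB12

open Pool.Agent.Strip051.PB Pool.Agent.Strip051.PB.T
open Pool.Agent.Strip051.G.I8000_8600.Tab

noncomputable def cut_pm_213_a : Cut := Cut.of [[⟨0, 1, 0, 67108864⟩, ⟨1, 1, 0, 67108864⟩, ⟨2, 2, 0, 16777216⟩]]

noncomputable def f_pm_213_a : ℕ → ℕ → ℕ → ℕ → Bool := onCell 0 536870912 0 1230186008 858993459 64424510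
    (rowB 3 eng mog cd1q2a cd2q3 pd1 0 false true false .pnn 2 1 3 (qsf 0 536870912 0 1230186008 1) ndB1q2a ndB2q3 pcB1 cut_pm_213_a Ext.none)

def k0_pm_213_a : ∃ t, chk3 f_pm_213_a t 2 1 1 = true :=
  ⟨(b (l 3) (b (l 3) (l 3))), by decide +kernel⟩

def k1_pm_213_a : ∃ t, chk3 f_pm_213_a t 6 1 1 = true :=
  ⟨(b (l 3) (b (l 3) (b (l 3) (b (b (l 3) (l 3)) (l 1))))), by decide +kernel⟩

def k2_pm_213_a : ∃ t, chk3 f_pm_213_a t 7 4 1 = true :=
  ⟨(a (l 3) (b (l 6) (a (l 3) (b (a (l 6) (l 6)) (b (a (a (l 3) (b (a (c (l 392083527159) (l 288467436647)) (c (l 16763280) (l 16759744))) (c (a (l 268603222279) (l 16786352)) (c (l 16772808) (l 16770776))))) (a (c (c (l 16765120) (l 16763216)) (c (l 16761200) (l 16759048))) (c (l 16784632) (l 16780840)))) (c (a (a (a (l 3) (l 509121441767)) (b (l 172503327223) (l 16770776))) (a (l 16790408) (l 16790216))) (a (a (b (l 292762410311) (l 255181443655)) (c (l 16765856) (l 105931324455))) (a (b (l 16762904) (l 16765240))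 (l 16784584))))))))), by decide +kernel⟩

def k3_pm_213_a : ∃ t, chk3 f_pm_213_a t 7 10 1 = true :=
  ⟨(a (l 3) (a (a (l 3) (a (b (l 3) (b (l 3) (l 3))) (b (b (l 3) (b (l 3) (c (l 382419883511) (l 218137385367)))) (b (b (c (l 263771423543) (l 137606808135)) (c (l 16820056) (l 16797144))) (c (b (l 16827672) (l 16835784)) (c (l 16829744) (l 16802200))))))) (b (a (b (a (c (b (l 267529484663) (l 250886554791)) (c (l 222969197671) (l 146733525047))) (c (b (l 16774208) (l 16799192)) (b (l 16768944) (l 16772392)))) (c (a (b (l 16803000) (l 16808448)) (l 16806384)) (a (c (l 16781472) (l 16779232)) (c (l 16780432) (l 16776832))))) (b (c (a (l 16797536) (l 16797632)) (a (l 16790568) (l 16789952))) (c (a (l 16806888) (l 16807184)) (c (l 16800240) (l 16774248))))) (b (a (c (c (l 16819880) (l 16806240)) (a (c (l 16814120) (l 16811392)) (a (l 16810904) (l 16809816)))) (c (l 16819232) (c (l 16810696) (l 16804456)))) (a (c (a (l 16812048) (l 16833728)) (c (l 16806136)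 (a (l 16824760) (l 16820928)))) (c (l 16782152) (c (l 16824096) (l 16816416)))))))), by decide +kernel⟩

def k4_pm_213_a : ∃ t, chk3 f_pm_213_a t 7 11 1 = true :=
  ⟨(a (l 3) (a (a (b (l 3) (a (l 3) (b (c (b (l 515563732119) (l 200420459799)) (b (l 16710032) (l 16704552))) (c (b (l 16696672) (l 16665688)) (b (l 16696088) (l 16663528)))))) (b (b (c (b (a (l 273972026423) (l 16833240)) (a (l 276119495783) (l 16796960))) (c (a (l 16812720) (l 16823128)) (b (l 77477262935) (l 66202957447)))) (c (a (b (l 16765592) (l 16776880)) (c (l 16792176) (l 16789400))) (a (b (l 16776080) (l 16755032)) (b (l 16774464) (l 16774216))))) (b (c (b (a (l 16754312) (l 16758088)) (a (l 16729208) (l 16733376))) (c (b (l 16752368) (l 16725952)) (b (l 16749944) (l 16722560)))) (c (b (c (l 16706264) (l 16701368)) (l 16652544)) (b (c (l 16696656) (l 16692144)) (b (l 16669880) (l 16652640))))))) (b (b (a (c (a (l 16806944) (l 16829528)) (c (l 16800064) (a (l 16817512) (l 16813984))))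 (c (c (l 16834920) (l 16826896)) (a (l 16762600) (l 16749888)))) (c (a (a (l 16730808) (l 16754528)) (b (l 16787760) (l 16790640))) (a (c (l 16743792) (a (l 16759576) (l 16777560))) (b (l 16767984) (l 16747896))))) (b (c (a (b (l 16763544) (l 16739400)) (c (l 16764824) (l 16752720))) (a (c (l 16739472) (l 16709976)) (c (l 16740000) (l 16726688)))) (c (a (c (l 16703776) (l 16692888)) (c (l 16714720) (l 16699360))) (a (c (l 16681736) (l 16670328)) (c (l 16683352) (l 16666696)))))))), by decide +kernel⟩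

def k5_pm_213_a : ∃ t, chk3 f_pm_213_a t 14 6 1 = true :=
  ⟨(a (b (l 3) (l 3)) (a (b (l 3) (b (b (l 3) (b (l 3) (c (l 264307686391) (l 16337832)))) (b (c (b (l 97877678055) (l 16456624)) (b (l 16341552) (l 16304952))) (c (c (l 73718436583) (l 16324352)) (c (l 16298016) (l 16272672)))))) (b (b (l 3) (a (b (l 3) (l 3)) (b (b (c (l 203641413943) (l 16514272)) (c (l 16568832) (l 16477768))) (c (b (l 16555216) (l 16518968)) (b (l 16443648) (l 16411880)))))) (b (b (c (b (c (l 16506568) (l 16458616)) (c (l 16476024) (l 16429608))) (b (c (l 16410328) (l 16361720)) (l 61370484071))) (c (b (c (l 16448168) (l 16403096)) (l 16442720)) (b (l 16357448) (l 16315072)))) (b (c (b (l 16377696) (l 16356200)) (b (l 16295560) (l 16278000))) (c (c (l 16348488) (l 16309056)) (c (l 16272968) (l 16240256)))))))), by decide +kernel⟩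

def k6_pm_213_a : ∃ t, chk3 f_pm_213_a t 14 7 1 = true :=
  ⟨(b (a (b (b (l 3) (c (a (l 3) (b (l 16316112) (l 16309376))) (b (l 346985763879) (l 16398936)))) (c (b (c (a (l 3) (l 16309968)) (l 16430856)) (c (a (l 16320984) (l 16300184)) (l 16424560))) (b (c (l 16315416) (l 16351368)) (c (l 16313704) (l 135994777351))))) (b (c (c (b (a (l 16326320) (l 16318520)) (b (l 16306912) (l 16298168))) (b (a (l 16300176) (l 16281392)) (l 16356168))) (b (c (l 16367784) (l 16364608)) (c (l 16247872) (l 16250248)))) (c (b (c (l 16349416) (l 16259160)) (c (l 16314664) (l 16250480))) (b (c (l 16239624) (l 16228056)) (c (l 16237896) (l 16109384)))))) (b (c (c (a (b (a (l 16314584) (l 16292440)) (a (l 16310784) (l 16286560))) (b (l 16281864) (l 16313944))) (a (b (l 16464200) (a (l 16311064) (l 16285296))) (b (l 16246088) (l 16246008)))) (b (a (c (a (l 16309672) (l 16283480)) (l 16304656)) (c (l 16242576) (l 16250720))) (a (c (l 123109850391) (l 16324048)) (c (l 16316600)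 (l 16274552))))) (b (c (a (b (c (l 16296816) (l 16302640)) (l 1)) (c (b (l 16245104) (l 16241904)) (l 16376168))) (c (a (l 16323008) (l 16271264)) (a (l 16351624) (l 16306728)))) (l 1)))), by decide +kernel⟩

def k7_pm_213_a : ∃ t, chk3 f_pm_213_a t 15 12 1 = true :=
  ⟨(b (a (a (b (b (c (c (l 16629976) (l 16628488)) (c (l 16627728) (l 16627688))) (c (c (l 83919250551) (l 16606400)) (c (l 16604744) (l 16603824)))) (c (b (c (l 16581640) (l 16599096)) (c (l 16596552) (l 16591672))) (b (c (l 16596248) (l 16570912)) (c (l 16587392) (l 16524880))))) (b (b (c (l 16598264) (b (l 16634608) (l 16615768))) (c (c (l 16603024) (l 16593800)) (c (l 16605696) (l 16596768)))) (c (b (a (l 16589264) (l 16595584)) (l 16607688)) (b (c (l 16596928) (l 16585936)) (l 16581208))))) (b (c (b (a (l 16650936) (l 16661024)) (a (l 16630936) (l 16641944))) (b (a (l 16623224) (l 16622784)) (a (l 16599000) (l 16598496)))) (c (c (a (l 16632624) (l 16647808)) (a (l 16613384) (l 16622536)))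 (c (b (l 16599736) (l 16590696)) (b (l 16577184) (l 16564880)))))) (c (a (b (c (a (b (l 16590440) (l 16584312)) (l 16606832)) (a (c (l 16581488) (l 16577856)) (l 16590024))) (c (a (c (l 16577808) (l 16571792)) (l 16597400)) (a (l 16542264) (l 16544104)))) (b (c (a (l 16625568) (l 16643104)) (b (l 16609368) (l 16602944))) (c (a (l 16618936) (l 16639184)) (b (l 16596272) (l 16571224))))) (b (a (b (a (c (l 16556112) (l 16481912)) (l 16530616)) (c (l 16518872) (l 16438832))) (c (b (l 16581080) (l 16570048)) (b (l 16507848) (l 16445480)))) (a (c (b (l 16475472) (l 16435576)) (b (l 16399056) (l 16362680))) (c (b (l 16507400) (l 16450840)) (b (l 16389384) (l 16339120))))))), by decide +kernel⟩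

def k8_pm_213_a : ∃ t, chk3 f_pm_213_a t 15 13 1 = true :=
  ⟨(b (c (b (a (c (a (l 16513560) (l 16544080)) (b (l 16471832) (l 16435736))) (c (b (l 16626312) (l 16584104)) (b (l 16514960) (l 16464064)))) (a (c (b (l 16474696) (l 16442656)) (b (l 16402848) (l 16372928))) (c (b (l 16533848) (l 16488320)) (l 16459552)))) (b (a (c (b (l 16399008) (l 16365720)) (b (l 16329568) (l 16299688))) (c (l 16480984) (b (l 16294272) (l 16254488)))) (a (c (b (l 16335592) (l 16308424)) (b (l 16272944) (l 16249192))) (c (l 16357248) (b (l 16219432) (l 16188864)))))) (c (b (a (c (b (l 16412840) (l 16384648)) (b (l 16345320) (l 16319664))) (c (b (l 16446224) (l 16406720)) (l 16383744))) (a (c (a (l 16347688) (l 16347976)) (l 16286624)) (c (l 16354464) (l 16258904)))) (b (a (c (b (l 16283728) (l 16261312)) (b (l 16228096) (l 16209648))) (c (l 16270736) (l 16275720))) (a (c (l 16233232) (l 16187632)) (c (l 16178032) (l 16111968)))))), by decide +kernel⟩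

def k9_pm_213_a : ∃ t, chk3 f_pm_213_a t 15 7 1 = true :=
  ⟨(b (b (c (c (a (b (a (l 16310960) (l 16304024)) (b (l 16283408) (l 16269888))) (b (a (l 16298512) (l 16295968)) (l 16398240))) (a (b (l 16272840) (l 16226536)) (b (l 16211552) (l 16176488)))) (a (b (c (l 16205448) (l 16168296)) (c (l 16187384) (l 16159304))) (b (c (l 16142312) (l 16089456)) (c (l 16119392) (l 16080320))))) (c (c (a (b (l 16356808) (l 16231288)) (b (a (l 16224632) (l 16206680)) (a (l 16197624) (l 16174504)))) (a (b (l 16208480) (l 16196256)) (b (l 16151608) (l 16134544)))) (a (b (c (l 16177808) (l 16181192)) (c (l 16175960) (l 16003008))) (b (c (l 16107432) (l 16083232)) (c (l 16104944) (l 16097392)))))) (b (c (b (a (c (l 16213256) (l 16189104)) (c (c (l 16173504) (l 16149224)) (l 16123864))) (a (c (l 16281600) (l 16186760)) (c (c (l 16147440) (l 16131264)) (l 16118856)))) (c (b (a (l 16181376) (l 16110920)) (a (l 16214720) (l 16145648))) (b (a (l 16190576) (l 16122088)) (a (l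 16219256) (l 16156384))))) (c (b (a (c (b (l 16187696) (l 16181776)) (l 16210064)) (c (c (l 16123792) (l 16116864)) (l 16160960))) (b (a (c (l 16176504) (l 16193808)) (c (l 16107064) (l 16122248))) (a (l 1) (c (l 16099552) (l 16125744))))) (b (c (a (l 16212792) (c (l 16136360) (l 16156448))) (a (l 16256424) (l 16199480))) (c (a (l 16238232) (l 16193752)) (a (l 16301464) (l 16250416))))))), by decide +kernel⟩

theorem s10_pm_213_a : ∃ t, chk3 f_pm_213_a t 15 6 1 = true := ex3_b k7_pm_213_a k8_pm_213_a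

theorem s11_pm_213_a : ∃ t, chk3 f_pm_213_a t 15 3 1 = true := ex3_b s10_pm_213_a k9_pm_213_a

theorem s12_pm_213_a : ∃ t, chk3 f_pm_213_a t 14 3 1 = true := ex3_b k5_pm_213_a k6_pm_213_a

theorem s13_pm_213_a : ∃ t, chk3 f_pm_213_a t 7 3 1 = true := ex3_a s12_pm_213_a s11_pm_213_a

theorem s14_pm_213_a : ∃ t, chk3 f_pm_213_a t 7 5 1 = true := ex3_b k3_pm_213_a k4_pm_213_a

theorem s15_pm_213_a : ∃ t, chk3 f_pm_213_a t 7 2 1 = true := ex3_b k2_pm_213_a s14_pm_213_a

theorem s16_pm_213_a : ∃ t, chk3 f_pm_213_a t 7 1 1 = true := ex3_b s15_pm_213_a s13_pm_213_a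

theorem s17_pm_213_a : ∃ t, chk3 f_pm_213_a t 3 1 1 = true := ex3_a k1_pm_213_a s16_pm_213_a

theorem s18_pm_213_a : ∃ t, chk3 f_pm_213_a t 1 1 1 = true := ex3_a k0_pm_213_a s17_pm_213_a

theorem c_pm_213_a : CertB 0 536870912 0 1230186008 858993459 64424510 3 eng mog cd1q2a cd2q3 pd1 false true false .pnn 2 1 3
    ndB1q2a ndB2q3 pcB1 cut_pm_213_a Ext.none :=
  certB0 (fam := false) (s1 := true) (s2 := false) (a := 2) (b := 1) (c := 3) (cn := .pnn) (n1 := ndB1q2a) (n2 := ndB2q3) (pc := pcB1) (cut := cut_pm_213_a) (xt := Ext.none) (P1 := 0) (W1 := 536870912) (P2 := 0) (W2 := 1230186008) (P3 := 858993459) (W3 := 64424510) (N0 := 3) (En := eng) (mo := mog) (C1 := cd1q2a) (C2 := cd2q3) (C3 := pd1)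
    rfl s18_pm_213_a

noncomputable def cut_pm_213_b : Cut := Cut.of [[⟨0, 1, 0, 67108864⟩, ⟨1, 1, 0, 67108864⟩, ⟨2, 2, 0, 16777216⟩]]

noncomputable def f_pm_213_b : ℕ → ℕ → ℕ → ℕ → Bool := onCell 1239849684 370763052 0 1230186008 858993459 64424510
    (rowB 3 eng mog cd1q2b cd2q3 pd1 0 false true false .pnn 2 1 3 (qsf 1239849684 370763052 0 1230186008 1) ndB1q2b ndB2q3 pcB1 cut_pm_213_b Ext.none)

def k0_pm_213_b : ∃ t, chk3 f_pm_213_b t 1 1 1 = true :=
  ⟨(b (l 3) (l 3)), by decide +kernel⟩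

theorem c_pm_213_b : CertB 1239849684 370763052 0 1230186008 858993459 64424510 3 eng mog cd1q2b cd2q3 pd1 false true false .pnn 2 1 3
    ndB1q2b ndB2q3 pcB1 cut_pm_213_b Ext.none :=
  certB0 (fam := false) (s1 := true) (s2 := false) (a := 2) (b := 1) (c := 3) (cn := .pnn) (n1 := ndB1q2b) (n2 := ndB2q3) (pc := pcB1) (cut := cut_pm_213_b) (xt := Ext.none) (P1 := 1239849684) (W1 := 370763052) (P2 := 0) (W2 := 1230186008) (P3 := 858993459) (W3 := 64424510) (N0 := 3) (En := eng) (mo := mog) (C1 := cd1q2b) (C2 := cd2q3) (C3 := pd1)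
    rfl k0_pm_213_b

noncomputable def f_pm_303 : ℕ → ℕ → ℕ → ℕ → Bool := onCell 1610612736 536870912 0 1230186008 858993459 64424510
    (rowB 3 eng mog cd1q3 cd2q3 pd0 0 false true false .npn 3 0 3 (qsf 1610612736 536870912 0 1230186008 0) ndB1q3 ndB2q3 pcB0 Cut.none Ext.none)

def k0_pm_303 : ∃ t, chk3 f_pm_303 t 1 1 1 = true :=
  ⟨(b (l 3) (l 3)), by decide +kernel⟩

theorem c_pm_303 : CertB 1610612736 536870912 0 1230186008 858993459 64424510 3 eng mog cd1q3 cd2q3 pd0 false true false .npn 3 0 3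
    ndB1q3 ndB2q3 pcB0 Cut.none Ext.none :=
  certB0 (fam := false) (s1 := true) (s2 := false) (a := 3) (b := 0) (c := 3) (cn := .npn) (n1 := ndB1q3) (n2 := ndB2q3) (pc := pcB0) (cut := Cut.none) (xt := Ext.none) (P1 := 1610612736) (W1 := 536870912) (P2 := 0) (W2 := 1230186008) (P3 := 858993459) (W3 := 64424510) (N0 := 3) (En := eng) (mo := mog) (C1 := cd1q3) (C2 := cd2q3) (C3 := pd0)
    rfl k0_pm_303

noncomputable def f_pm_313 : ℕ → ℕ → ℕ → ℕ → Bool := onCell 1610612736 536870912 0 1230186008 858993459 64424510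
    (rowB 3 eng mog cd1q3 cd2q3 pd1 0 false true false .dn 3 1 3 (qsf 1610612736 536870912 0 1230186008 1) ndB1q3 ndB2q3 pcB1 Cut.none Ext.none)

def k0_pm_313 : ∃ t, chk3 f_pm_313 t 1 1 1 = true :=
  ⟨(b (l 3) (l 1)), by decide +kernel⟩

theorem c_pm_313 : CertB 1610612736 536870912 0 1230186008 858993459 64424510 3 eng mog cd1q3 cd2q3 pd1 false true false .dn 3 1 3
    ndB1q3 ndB2q3 pcB1 Cut.none Ext.none :=
  certB0 (fam := false) (s1 := true) (s2 := false) (a := 3) (b := 1) (c := 3) (cn := .dn) (n1 := ndB1q3) (n2 := ndB2q3) (pc := pcB1) (cut := Cut.none) (xt := Ext.none) (P1 := 1610612736) (W1 := 536870912) (P2 := 0) (W2 := 1230186008) (P3 := 858993459) (W3 := 64424510) (N0 := 3) (En := eng) (mo := mog) (C1 := cd1q3) (C2 := cd2q3) (C3 := pd1)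
    rfl k0_pm_313

noncomputable def f_mm_001 : ℕ → ℕ → ℕ → ℕ → Bool := onCell 0 536870912 0 536870912 858993459 64424510
    (rowB 3 eng mog cd1q0 cd2q1 pd0 1 false false false .up 0 0 1 (qsf 0 536870912 536870912 536870912 0) ndB1q0 ndB2q1 pcB0 Cut.none Ext.none)

def k0_mm_001 : ∃ t, chk3 f_mm_001 t 1 1 1 = true :=
  ⟨(l 3), by decide +kernel⟩

theorem c_mm_001 : CertB 0 536870912 536870912 536870912 858993459 64424510 3 eng mog cd1q0 cd2q1 pd0 false false false .up 0 0 1
    ndB1q0 ndB2q1 pcB0 Cut.none Ext.none :=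
  certB1 (fam := false) (s1 := false) (s2 := false) (a := 0) (b := 0) (c := 1) (cn := .up) (n1 := ndB1q0) (n2 := ndB2q1) (pc := pcB0) (cut := Cut.none) (xt := Ext.none) (P1 := 0) (W1 := 536870912) (P2 := 536870912) (W2 := 536870912) (P3 := 858993459) (W3 := 64424510) (N0 := 3) (En := eng) (mo := mog) (C1 := cd1q0) (C2 := cd2q1) (C3 := pd0)
    rfl (fun _ => rfl) k0_mm_001

noncomputable def f_mm_011 : ℕ → ℕ → ℕ → ℕ → Bool := onCell 0 536870912 536870912 536870912 858993459 64424510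
    (rowB 3 eng mog cd1q0 cd2q1 pd1 1 false false false .pnn 0 1 1 (qsf 0 536870912 536870912 536870912 1) ndB1q0 ndB2q1 pcB1 Cut.none Ext.none)

def k0_mm_011 : ∃ t, chk3 f_mm_011 t 1 1 1 = true :=
  ⟨(l 5), by decide +kernel⟩

theorem c_mm_011 : CertB 0 536870912 536870912 536870912 858993459 64424510 3 eng mog cd1q0 cd2q1 pd1 false false false .pnn 0 1 1
    ndB1q0 ndB2q1 pcB1 Cut.none Ext.none :=
  certB1 (fam := false) (s1 := false) (s2 := false) (a := 0) (b := 1) (c := 1) (cn := .pnn) (n1 := ndB1q0) (n2 := ndB2q1) (pc := pcB1) (cut := Cut.none) (xt := Ext.none) (P1 := 0) (W1 := 536870912) (P2 := 536870912) (W2 := 536870912) (P3 := 858993459) (W3 := 64424510) (N0 := 3) (En := eng) (mo := mog) (C1 := cd1q0) (C2 := cd2q1) (C3 := pd1)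
    rfl (fun _ => rfl) k0_mm_011

noncomputable def f_mm_012 : ℕ → ℕ → ℕ → ℕ → Bool := onCell 0 536870912 1073741824 536870912 858993459 64424510
    (rowB 3 eng mog cd1q0 cd2q2 pd1 0 false false false .pnp 0 1 2 (qsf 0 536870912 1073741824 536870912 1) ndB1q0 ndB2q2 pcB1 Cut.none Ext.none)

def k0_mm_012 : ∃ t, chk3 f_mm_012 t 1 1 1 = true :=
  ⟨(l 5), by decide +kernel⟩

theorem c_mm_012 : CertB 0 536870912 1073741824 536870912 858993459 64424510 3 eng mog cd1q0 cd2q2 pd1 false false false .pnp 0 1 2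
    ndB1q0 ndB2q2 pcB1 Cut.none Ext.none :=
  certB0 (fam := false) (s1 := false) (s2 := false) (a := 0) (b := 1) (c := 2) (cn := .pnp) (n1 := ndB1q0) (n2 := ndB2q2) (pc := pcB1) (cut := Cut.none) (xt := Ext.none) (P1 := 0) (W1 := 536870912) (P2 := 1073741824) (W2 := 536870912) (P3 := 858993459) (W3 := 64424510) (N0 := 3) (En := eng) (mo := mog) (C1 := cd1q0) (C2 := cd2q2) (C3 := pd1)
    rfl k0_mm_012

noncomputable def f_mm_022 : ℕ → ℕ → ℕ → ℕ → Bool := onCell 0 536870912 1073741824 536870912 858993459 64424510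
    (rowB 3 eng mog cd1q0 cd2q2 pd2 0 false false false .pp 0 2 2 (qsf 0 536870912 1073741824 536870912 2) ndB1q0 ndB2q2 pcB2 Cut.none Ext.none)

def k0_mm_022 : ∃ t, chk3 f_mm_022 t 1 1 1 = true :=
  ⟨(l 5), by decide +kernel⟩

theorem c_mm_022 : CertB 0 536870912 1073741824 536870912 858993459 64424510 3 eng mog cd1q0 cd2q2 pd2 false false false .pp 0 2 2
    ndB1q0 ndB2q2 pcB2 Cut.none Ext.none :=
  certB0 (fam := false) (s1 := false) (s2 := false) (a := 0) (b := 2) (c := 2) (cn := .pp) (n1 := ndB1q0) (n2 := ndB2q2) (pc := pcB2) (cut := Cut.none) (xt := Ext.none) (P1 := 0) (W1 := 536870912) (P2 := 1073741824) (W2 := 536870912) (P3 := 858993459) (W3 := 64424510) (N0 := 3) (En := eng) (mo := mog) (C1 := cd1q0) (C2 := cd2q2) (C3 := pd2)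
    rfl k0_mm_022

noncomputable def f_mm_023 : ℕ → ℕ → ℕ → ℕ → Bool := onCell 0 536870912 0 1230186008 858993459 64424510
    (rowB 3 eng mog cd1q0 cd2q3 pd2 0 false false false .up 0 2 3 (qsf 0 536870912 0 1230186008 2) ndB1q0 ndB2q3 pcB2 Cut.none Ext.none)

def k0_mm_023 : ∃ t, chk3 f_mm_023 t 1 1 1 = true :=
  ⟨(l 5), by decide +kernel⟩

theorem c_mm_023 : CertB 0 536870912 0 1230186008 858993459 64424510 3 eng mog cd1q0 cd2q3 pd2 false false false .up 0 2 3
    ndB1q0 ndB2q3 pcB2 Cut.none Ext.none :=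
  certB0 (fam := false) (s1 := false) (s2 := false) (a := 0) (b := 2) (c := 3) (cn := .up) (n1 := ndB1q0) (n2 := ndB2q3) (pc := pcB2) (cut := Cut.none) (xt := Ext.none) (P1 := 0) (W1 := 536870912) (P2 := 0) (W2 := 1230186008) (P3 := 858993459) (W3 := 64424510) (N0 := 3) (En := eng) (mo := mog) (C1 := cd1q0) (C2 := cd2q3) (C3 := pd2)
    rfl k0_mm_023

noncomputable def f_mm_033 : ℕ → ℕ → ℕ → ℕ → Bool := onCell 0 536870912 0 1230186008 858993459 64424510
    (rowB 3 eng mog cd1q0 cd2q3 pd3 0 false false false .pnn 0 3 3 (qsf 0 536870912 0 1230186008 3) ndB1q0 ndB2q3 pcB3 Cut.none Ext.none)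

def k0_mm_033 : ∃ t, chk3 f_mm_033 t 1 1 1 = true :=
  ⟨(l 5), by decide +kernel⟩

theorem c_mm_033 : CertB 0 536870912 0 1230186008 858993459 64424510 3 eng mog cd1q0 cd2q3 pd3 false false false .pnn 0 3 3
    ndB1q0 ndB2q3 pcB3 Cut.none Ext.none :=
  certB0 (fam := false) (s1 := false) (s2 := false) (a := 0) (b := 3) (c := 3) (cn := .pnn) (n1 := ndB1q0) (n2 := ndB2q3) (pc := pcB3) (cut := Cut.none) (xt := Ext.none) (P1 := 0) (W1 := 536870912) (P2 := 0) (W2 := 1230186008) (P3 := 858993459) (W3 := 64424510) (N0 := 3) (En := eng) (mo := mog) (C1 := cd1q0) (C2 := cd2q3) (C3 := pd3)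
    rfl k0_mm_033

noncomputable def f_mm_101 : ℕ → ℕ → ℕ → ℕ → Bool := onCell 536870912 536870912 536870912 536870912 858993459 64424510
    (rowB 3 eng mog cd1q1 cd2q1 pd0 0 false false false .npn 1 0 1 (qsf 536870912 536870912 536870912 536870912 0) ndB1q1 ndB2q1 pcB0 Cut.none Ext.none)

def k0_mm_101 : ∃ t, chk3 f_mm_101 t 1 1 1 = true :=
  ⟨(l 3), by decide +kernel⟩

theorem c_mm_101 : CertB 536870912 536870912 536870912 536870912 858993459 64424510 3 eng mog cd1q1 cd2q1 pd0 false false false .npn 1 0 1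
    ndB1q1 ndB2q1 pcB0 Cut.none Ext.none :=
  certB0 (fam := false) (s1 := false) (s2 := false) (a := 1) (b := 0) (c := 1) (cn := .npn) (n1 := ndB1q1) (n2 := ndB2q1) (pc := pcB0) (cut := Cut.none) (xt := Ext.none) (P1 := 536870912) (W1 := 536870912) (P2 := 536870912) (W2 := 536870912) (P3 := 858993459) (W3 := 64424510) (N0 := 3) (En := eng) (mo := mog) (C1 := cd1q1) (C2 := cd2q1) (C3 := pd0)
    rfl k0_mm_101

noncomputable def f_mm_102 : ℕ → ℕ → ℕ → ℕ → Bool := onCell 536870912 536870912 1073741824 536870912 858993459 64424510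
    (rowB 3 eng mog cd1q1 cd2q2 pd0 0 false false false .npp 1 0 2 (qsf 536870912 536870912 1073741824 536870912 0) ndB1q1 ndB2q2 pcB0 Cut.none Ext.none)

def k0_mm_102 : ∃ t, chk3 f_mm_102 t 1 1 1 = true :=
  ⟨(l 5), by decide +kernel⟩

theorem c_mm_102 : CertB 536870912 536870912 1073741824 536870912 858993459 64424510 3 eng mog cd1q1 cd2q2 pd0 false false false .npp 1 0 2
    ndB1q1 ndB2q2 pcB0 Cut.none Ext.none :=
  certB0 (fam := false) (s1 := false) (s2 := false) (a := 1) (b := 0) (c := 2) (cn := .npp) (n1 := ndB1q1) (n2 := ndB2q2) (pc := pcB0) (cut := Cut.none) (xt := Ext.none) (P1 := 536870912) (W1 := 536870912) (P2 := 1073741824) (W2 := 536870912) (P3 := 858993459) (W3 := 64424510) (N0 := 3) (En := eng) (mo := mog) (C1 := cd1q1) (C2 := cd2q2) (C3 := pd0)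
    rfl k0_mm_102

noncomputable def f_mm_112 : ℕ → ℕ → ℕ → ℕ → Bool := onCell 536870912 536870912 1073741824 536870912 858993459 64424510
    (rowB 3 eng mog cd1q1 cd2q2 pd1 0 false false false .dn 1 1 2 (qsf 536870912 536870912 1073741824 536870912 1) ndB1q1 ndB2q2 pcB1 Cut.none Ext.none)

def k0_mm_112 : ∃ t, chk3 f_mm_112 t 1 1 1 = true :=
  ⟨(l 5), by decide +kernel⟩

theorem c_mm_112 : CertB 536870912 536870912 1073741824 536870912 858993459 64424510 3 eng mog cd1q1 cd2q2 pd1 false false false .dn 1 1 2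
    ndB1q1 ndB2q2 pcB1 Cut.none Ext.none :=
  certB0 (fam := false) (s1 := false) (s2 := false) (a := 1) (b := 1) (c := 2) (cn := .dn) (n1 := ndB1q1) (n2 := ndB2q2) (pc := pcB1) (cut := Cut.none) (xt := Ext.none) (P1 := 536870912) (W1 := 536870912) (P2 := 1073741824) (W2 := 536870912) (P3 := 858993459) (W3 := 64424510) (N0 := 3) (En := eng) (mo := mog) (C1 := cd1q1) (C2 := cd2q2) (C3 := pd1)
    rfl k0_mm_112

noncomputable def f_mm_113 : ℕ → ℕ → ℕ → ℕ → Bool := onCell 536870912 536870912 0 1230186008 858993459 64424510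
    (rowB 3 eng mog cd1q1 cd2q3 pd1 0 false false false .nn 1 1 3 (qsf 536870912 536870912 0 1230186008 1) ndB1q1 ndB2q3 pcB1 Cut.none Ext.none)

def k0_mm_113 : ∃ t, chk3 f_mm_113 t 1 1 1 = true :=
  ⟨(l 5), by decide +kernel⟩

theorem c_mm_113 : CertB 536870912 536870912 0 1230186008 858993459 64424510 3 eng mog cd1q1 cd2q3 pd1 false false false .nn 1 1 3
    ndB1q1 ndB2q3 pcB1 Cut.none Ext.none :=
  certB0 (fam := false) (s1 := false) (s2 := false) (a := 1) (b := 1) (c := 3) (cn := .nn) (n1 := ndB1q1) (n2 := ndB2q3) (pc := pcB1) (cut := Cut.none) (xt := Ext.none) (P1 := 536870912) (W1 := 536870912) (P2 := 0) (W2 := 1230186008) (P3 := 858993459) (W3 := 64424510) (N0 := 3) (En := eng) (mo := mog) (C1 := cd1q1) (C2 := cd2q3) (C3 := pd1)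
    rfl k0_mm_113

noncomputable def f_mm_123 : ℕ → ℕ → ℕ → ℕ → Bool := onCell 536870912 536870912 0 1230186008 858993459 64424510
    (rowB 3 eng mog cd1q1 cd2q3 pd2 0 false false false .npn 1 2 3 (qsf 536870912 536870912 0 1230186008 2) ndB1q1 ndB2q3 pcB2 Cut.none Ext.none)

def k0_mm_123 : ∃ t, chk3 f_mm_123 t 1 1 1 = true :=
  ⟨(l 5), by decide +kernel⟩

theorem c_mm_123 : CertB 536870912 536870912 0 1230186008 858993459 64424510 3 eng mog cd1q1 cd2q3 pd2 false false false .npn 1 2 3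
    ndB1q1 ndB2q3 pcB2 Cut.none Ext.none :=
  certB0 (fam := false) (s1 := false) (s2 := false) (a := 1) (b := 2) (c := 3) (cn := .npn) (n1 := ndB1q1) (n2 := ndB2q3) (pc := pcB2) (cut := Cut.none) (xt := Ext.none) (P1 := 536870912) (W1 := 536870912) (P2 := 0) (W2 := 1230186008) (P3 := 858993459) (W3 := 64424510) (N0 := 3) (En := eng) (mo := mog) (C1 := cd1q1) (C2 := cd2q3) (C3 := pd2)
    rfl k0_mm_123

noncomputable def f_mm_133 : ℕ → ℕ → ℕ → ℕ → Bool := onCell 536870912 536870912 0 1230186008 858993459 64424510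
    (rowB 3 eng mog cd1q1 cd2q3 pd3 0 false false false .dn 1 3 3 (qsf 536870912 536870912 0 1230186008 3) ndB1q1 ndB2q3 pcB3 Cut.none Ext.none)

def k0_mm_133 : ∃ t, chk3 f_mm_133 t 1 1 1 = true :=
  ⟨(l 5), by decide +kernel⟩

theorem c_mm_133 : CertB 536870912 536870912 0 1230186008 858993459 64424510 3 eng mog cd1q1 cd2q3 pd3 false false false .dn 1 3 3
    ndB1q1 ndB2q3 pcB3 Cut.none Ext.none :=
  certB0 (fam := false) (s1 := false) (s2 := false) (a := 1) (b := 3) (c := 3) (cn := .dn) (n1 := ndB1q1) (n2 := ndB2q3) (pc := pcB3) (cut := Cut.none) (xt := Ext.none) (P1 := 536870912) (W1 := 536870912) (P2 := 0) (W2 := 1230186008) (P3 := 858993459) (W3 := 64424510) (N0 := 3) (En := eng) (mo := mog) (C1 := cd1q1) (C2 := cd2q3) (C3 := pd3)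
    rfl k0_mm_133

noncomputable def f_mm_202_a : ℕ → ℕ → ℕ → ℕ → Bool := onCell 0 536870912 1073741824 536870912 858993459 64424510
    (rowB 3 eng mog cd1q2a cd2q2 pd0 0 false false false .pp 2 0 2 (qsf 0 536870912 1073741824 536870912 0) ndB1q2a ndB2q2 pcB0 Cut.none Ext.none)

def k0_mm_202_a : ∃ t, chk3 f_mm_202_a t 1 1 1 = true :=
  ⟨(l 3), by decide +kernel⟩

theorem c_mm_202_a : CertB 0 536870912 1073741824 536870912 858993459 64424510 3 eng mog cd1q2a cd2q2 pd0 false false false .pp 2 0 2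
    ndB1q2a ndB2q2 pcB0 Cut.none Ext.none :=
  certB0 (fam := false) (s1 := false) (s2 := false) (a := 2) (b := 0) (c := 2) (cn := .pp) (n1 := ndB1q2a) (n2 := ndB2q2) (pc := pcB0) (cut := Cut.none) (xt := Ext.none) (P1 := 0) (W1 := 536870912) (P2 := 1073741824) (W2 := 536870912) (P3 := 858993459) (W3 := 64424510) (N0 := 3) (En := eng) (mo := mog) (C1 := cd1q2a) (C2 := cd2q2) (C3 := pd0)
    rfl k0_mm_202_a

noncomputable def f_mm_202_b : ℕ → ℕ → ℕ → ℕ → Bool := onCell 1239849684 370763052 1073741824 536870912 858993459 64424510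
    (rowB 3 eng mog cd1q2b cd2q2 pd0 0 false false false .pp 2 0 2 (qsf 1239849684 370763052 1073741824 536870912 0) ndB1q2b ndB2q2 pcB0 Cut.none Ext.none)

def k0_mm_202_b : ∃ t, chk3 f_mm_202_b t 1 1 1 = true :=
  ⟨(l 3), by decide +kernel⟩

theorem c_mm_202_b : CertB 1239849684 370763052 1073741824 536870912 858993459 64424510 3 eng mog cd1q2b cd2q2 pd0 false false false .pp 2 0 2
    ndB1q2b ndB2q2 pcB0 Cut.none Ext.none :=
  certB0 (fam := false) (s1 := false) (s2 := false) (a := 2) (b := 0) (c := 2) (cn := .pp) (n1 := ndB1q2b) (n2 := ndB2q2) (pc := pcB0) (cut := Cut.none) (xt := Ext.none) (P1 := 1239849684) (W1 := 370763052) (P2 := 1073741824) (W2 := 536870912) (P3 := 858993459) (W3 := 64424510) (N0 := 3) (En := eng) (mo := mog) (C1 := cd1q2b) (C2 := cd2q2) (C3 := pd0)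
    rfl k0_mm_202_b

noncomputable def f_mm_203_a : ℕ → ℕ → ℕ → ℕ → Bool := onCell 0 536870912 0 1230186008 858993459 64424510
    (rowB 3 eng mog cd1q2a cd2q3 pd0 0 false false false .up 2 0 3 (qsf 0 536870912 0 1230186008 0) ndB1q2a ndB2q3 pcB0 Cut.none Ext.none)

def k0_mm_203_a : ∃ t, chk3 f_mm_203_a t 1 1 1 = true :=
  ⟨(b (l 2) (l 3)), by decide +kernel⟩

theorem c_mm_203_a : CertB 0 536870912 0 1230186008 858993459 64424510 3 eng mog cd1q2a cd2q3 pd0 false false false .up 2 0 3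
    ndB1q2a ndB2q3 pcB0 Cut.none Ext.none :=
  certB0 (fam := false) (s1 := false) (s2 := false) (a := 2) (b := 0) (c := 3) (cn := .up) (n1 := ndB1q2a) (n2 := ndB2q3) (pc := pcB0) (cut := Cut.none) (xt := Ext.none) (P1 := 0) (W1 := 536870912) (P2 := 0) (W2 := 1230186008) (P3 := 858993459) (W3 := 64424510) (N0 := 3) (En := eng) (mo := mog) (C1 := cd1q2a) (C2 := cd2q3) (C3 := pd0)
    rfl k0_mm_203_a

noncomputable def f_mm_203_b : ℕ → ℕ → ℕ → ℕ → Bool := onCell 1239849684 370763052 0 1230186008 858993459 64424510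
    (rowB 3 eng mog cd1q2b cd2q3 pd0 0 false false false .up 2 0 3 (qsf 1239849684 370763052 0 1230186008 0) ndB1q2b ndB2q3 pcB0 Cut.none Ext.none)

def k0_mm_203_b : ∃ t, chk3 f_mm_203_b t 1 1 1 = true :=
  ⟨(b (l 3) (l 3)), by decide +kernel⟩

theorem c_mm_203_b : CertB 1239849684 370763052 0 1230186008 858993459 64424510 3 eng mog cd1q2b cd2q3 pd0 false false false .up 2 0 3
    ndB1q2b ndB2q3 pcB0 Cut.none Ext.none :=
  certB0 (fam := false) (s1 := false) (s2 := false) (a := 2) (b := 0) (c := 3) (cn := .up) (n1 := ndB1q2b) (n2 := ndB2q3) (pc := pcB0) (cut := Cut.none) (xt := Ext.none) (P1 := 1239849684) (W1 := 370763052) (P2 := 0) (W2 := 1230186008) (P3 := 858993459) (W3 := 64424510) (N0 := 3) (En := eng) (mo := mog) (C1 := cd1q2b) (C2 := cd2q3) (C3 := pd0)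
    rfl k0_mm_203_b

noncomputable def f_mm_213_a : ℕ → ℕ → ℕ → ℕ → Bool := onCell 0 536870912 0 1230186008 858993459 64424510
    (rowB 3 eng mog cd1q2a cd2q3 pd1 0 false false false .pnn 2 1 3 (qsf 0 536870912 0 1230186008 1) ndB1q2a ndB2q3 pcB1 Cut.none Ext.none)

def k0_mm_213_a : ∃ t, chk3 f_mm_213_a t 1 1 1 = true :=
  ⟨(b (l 5) (l 3)), by decide +kernel⟩

theorem c_mm_213_a : CertB 0 536870912 0 1230186008 858993459 64424510 3 eng mog cd1q2a cd2q3 pd1 false false false .pnn 2 1 3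
    ndB1q2a ndB2q3 pcB1 Cut.none Ext.none :=
  certB0 (fam := false) (s1 := false) (s2 := false) (a := 2) (b := 1) (c := 3) (cn := .pnn) (n1 := ndB1q2a) (n2 := ndB2q3) (pc := pcB1) (cut := Cut.none) (xt := Ext.none) (P1 := 0) (W1 := 536870912) (P2 := 0) (W2 := 1230186008) (P3 := 858993459) (W3 := 64424510) (N0 := 3) (En := eng) (mo := mog) (C1 := cd1q2a) (C2 := cd2q3) (C3 := pd1)
    rfl k0_mm_213_a

noncomputable def f_mm_213_b : ℕ → ℕ → ℕ → ℕ → Bool := onCell 1239849684 370763052 0 1230186008 858993459 64424510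
    (rowB 3 eng mog cd1q2b cd2q3 pd1 0 false false false .pnn 2 1 3 (qsf 1239849684 370763052 0 1230186008 1) ndB1q2b ndB2q3 pcB1 Cut.none Ext.none)

def k0_mm_213_b : ∃ t, chk3 f_mm_213_b t 1 1 1 = true :=
  ⟨(b (l 3) (l 3)), by decide +kernel⟩

theorem c_mm_213_b : CertB 1239849684 370763052 0 1230186008 858993459 64424510 3 eng mog cd1q2b cd2q3 pd1 false false false .pnn 2 1 3
    ndB1q2b ndB2q3 pcB1 Cut.none Ext.none :=
  certB0 (fam := false) (s1 := false) (s2 := false) (a := 2) (b := 1) (c := 3) (cn := .pnn) (n1 := ndB1q2b) (n2 := ndB2q3) (pc := pcB1) (cut := Cut.none) (xt := Ext.none) (P1 := 1239849684) (W1 := 370763052) (P2 := 0) (W2 := 1230186008) (P3 := 858993459) (W3 := 64424510) (N0 := 3) (En := eng) (mo := mog) (C1 := cd1q2b) (C2 := cd2q3) (C3 := pd1)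
    rfl k0_mm_213_b

noncomputable def f_mm_303 : ℕ → ℕ → ℕ → ℕ → Bool := onCell 1610612736 536870912 0 1230186008 858993459 64424510
    (rowB 3 eng mog cd1q3 cd2q3 pd0 0 false false false .npn 3 0 3 (qsf 1610612736 536870912 0 1230186008 0) ndB1q3 ndB2q3 pcB0 Cut.none Ext.none)

def k0_mm_303 : ∃ t, chk3 f_mm_303 t 1 1 1 = true :=
  ⟨(b (l 3) (l 3)), by decide +kernel⟩

theorem c_mm_303 : CertB 1610612736 536870912 0 1230186008 858993459 64424510 3 eng mog cd1q3 cd2q3 pd0 false false false .npn 3 0 3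
    ndB1q3 ndB2q3 pcB0 Cut.none Ext.none :=
  certB0 (fam := false) (s1 := false) (s2 := false) (a := 3) (b := 0) (c := 3) (cn := .npn) (n1 := ndB1q3) (n2 := ndB2q3) (pc := pcB0) (cut := Cut.none) (xt := Ext.none) (P1 := 1610612736) (W1 := 536870912) (P2 := 0) (W2 := 1230186008) (P3 := 858993459) (W3 := 64424510) (N0 := 3) (En := eng) (mo := mog) (C1 := cd1q3) (C2 := cd2q3) (C3 := pd0)
    rfl k0_mm_303

noncomputable def f_mm_313 : ℕ → ℕ → ℕ → ℕ → Bool := onCell 1610612736 536870912 0 1230186008 858993459 64424510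
    (rowB 3 eng mog cd1q3 cd2q3 pd1 0 false false false .dn 3 1 3 (qsf 1610612736 536870912 0 1230186008 1) ndB1q3 ndB2q3 pcB1 Cut.none Ext.none)

def k0_mm_313 : ∃ t, chk3 f_mm_313 t 1 1 1 = true :=
  ⟨(b (l 3) (l 1)), by decide +kernel⟩

theorem c_mm_313 : CertB 1610612736 536870912 0 1230186008 858993459 64424510 3 eng mog cd1q3 cd2q3 pd1 false false false .dn 3 1 3
    ndB1q3 ndB2q3 pcB1 Cut.none Ext.none :=
  certB0 (fam := false) (s1 := false) (s2 := false) (a := 3) (b := 1) (c := 3) (cn := .dn) (n1 := ndB1q3) (n2 := ndB2q3) (pc := pcB1) (cut := Cut.none) (xt := Ext.none) (P1 := 1610612736) (W1 := 536870912) (P2 := 0) (W2 := 1230186008) (P3 := 858993459) (W3 := 64424510) (N0 := 3) (En := eng) (mo := mog) (C1 := cd1q3) (C2 := cd2q3) (C3 := pd1)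
    rfl k0_mm_313

end Pool.Agent.Strip051.G.I8000_8600.Tab.C.BB12

namespace Pool.Agent.Strip051.G.I8000_8600.Tab.C.BB13

open Pool.Agent.Strip051.PB Pool.Agent.Strip051.PB.T
open Pool.Agent.Strip051.G.I8000_8600.Tab

noncomputable def f_pp_001 : ℕ → ℕ → ℕ → ℕ → Bool := onCell 0 536870912 0 536870912 858993459 64424510
    (rowB 3 eng mog cd1q0 cd3q1 pd0 1 false true true .up 0 0 1 (qsf 0 536870912 536870912 536870912 0) ndB1q0 ndB3q1 pcB0 Cut.none Ext.none)

def k0_pp_001 : ∃ t, chk3 f_pp_001 t 1 1 1 = true :=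
  ⟨(l 3), by decide +kernel⟩

theorem c_pp_001 : CertB 0 536870912 536870912 536870912 858993459 64424510 3 eng mog cd1q0 cd3q1 pd0 false true true .up 0 0 1
    ndB1q0 ndB3q1 pcB0 Cut.none Ext.none :=
  certB1 (fam := false) (s1 := true) (s2 := true) (a := 0) (b := 0) (c := 1) (cn := .up) (n1 := ndB1q0) (n2 := ndB3q1) (pc := pcB0) (cut := Cut.none) (xt := Ext.none) (P1 := 0) (W1 := 536870912) (P2 := 536870912) (W2 := 536870912) (P3 := 858993459) (W3 := 64424510) (N0 := 3) (En := eng) (mo := mog) (C1 := cd1q0) (C2 := cd3q1) (C3 := pd0)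
    rfl (fun _ => rfl) k0_pp_001

noncomputable def cut_pp_011 : Cut := Cut.of [[⟨0, 0, 0, 67108864⟩, ⟨1, 1, 0, 67108864⟩, ⟨2, 1, 0, 67108864⟩]]

noncomputable def f_pp_011 : ℕ → ℕ → ℕ → ℕ → Bool := onCell 0 536870912 536870912 536870912 858993459 64424510
    (rowB 3 eng mog cd1q0 cd3q1 pd1 1 false true true .pnn 0 1 1 (qsf 0 536870912 536870912 536870912 1) ndB1q0 ndB3q1 pcB1 cut_pp_011 Ext.none)

def k0_pp_011 : ∃ t, chk3 f_pp_011 t 1 1 1 = true :=
  ⟨(b (l 3) (b (l 3) (b (l 3) (a (a (a (b (l 3) (a (l 6) (l 3))) (l 3)) (l 2)) (l 2))))), by decide +kernel⟩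

theorem c_pp_011 : CertB 0 536870912 536870912 536870912 858993459 64424510 3 eng mog cd1q0 cd3q1 pd1 false true true .pnn 0 1 1
    ndB1q0 ndB3q1 pcB1 cut_pp_011 Ext.none :=
  certB1 (fam := false) (s1 := true) (s2 := true) (a := 0) (b := 1) (c := 1) (cn := .pnn) (n1 := ndB1q0) (n2 := ndB3q1) (pc := pcB1) (cut := cut_pp_011) (xt := Ext.none) (P1 := 0) (W1 := 536870912) (P2 := 536870912) (W2 := 536870912) (P3 := 858993459) (W3 := 64424510) (N0 := 3) (En := eng) (mo := mog) (C1 := cd1q0) (C2 := cd3q1) (C3 := pd1)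
    rfl (fun _ => rfl) k0_pp_011

noncomputable def f_pp_012 : ℕ → ℕ → ℕ → ℕ → Bool := onCell 0 536870912 536870912 536870912 858993459 64424510
    (rowB 3 eng mog cd1q0 cd3q2 pd1 1 false true true .pnp 0 1 2 (qsf 0 536870912 1073741824 536870912 1) ndB1q0 ndB3q2 pcB1 Cut.none Ext.none)

def k0_pp_012 : ∃ t, chk3 f_pp_012 t 1 1 1 = true :=
  ⟨(l 3), by decide +kernel⟩

theorem c_pp_012 : CertB 0 536870912 1073741824 536870912 858993459 64424510 3 eng mog cd1q0 cd3q2 pd1 false true true .pnp 0 1 2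
    ndB1q0 ndB3q2 pcB1 Cut.none Ext.none :=
  certB1 (fam := false) (s1 := true) (s2 := true) (a := 0) (b := 1) (c := 2) (cn := .pnp) (n1 := ndB1q0) (n2 := ndB3q2) (pc := pcB1) (cut := Cut.none) (xt := Ext.none) (P1 := 0) (W1 := 536870912) (P2 := 1073741824) (W2 := 536870912) (P3 := 858993459) (W3 := 64424510) (N0 := 3) (En := eng) (mo := mog) (C1 := cd1q0) (C2 := cd3q2) (C3 := pd1)
    rfl (fun _ => rfl) k0_pp_012

noncomputable def f_pp_022 : ℕ → ℕ → ℕ → ℕ → Bool := onCell 0 536870912 1073741824 536870912 858993459 64424510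
    (rowB 3 eng mog cd1q0 cd3q2 pd2 1 false true true .pp 0 2 2 (qsf 0 536870912 1073741824 536870912 2) ndB1q0 ndB3q2 pcB2 Cut.none Ext.none)

def k0_pp_022 : ∃ t, chk3 f_pp_022 t 1 4 1 = true :=
  ⟨(b (a (l 3) (l 3)) (a (b (l 3) (b (l 3) (b (l 3) (a (l 3) (a (l 3) (c (a (l 3) (l 16222120)) (l 16350312))))))) (a (b (l 3) (a (b (l 3) (c (a (l 192366824599) (l 16168920)) (l 169280613479))) (c (b (l 417852578439) (l 16295256)) (b (l 318530610503) (l 16223008))))) (a (b (b (l 3) (c (l 16120184) (l 16173760))) (b (c (l 16130056) (l 16185832)) (a (l 16166528) (l 2)))) (b (b (c (l 16116800) (l 16138728)) (l 2)) (l 2)))))), by decide +kernel⟩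

def k1_pp_022 : ∃ t, chk3 f_pp_022 t 2 10 1 = true :=
  ⟨(b (b (a (l 3) (c (a (b (c (l 193977526135) (l 16348504)) (a (l 16466144) (l 16285192))) (b (a (l 16256936) (l 16223344)) (a (l 16258120) (l 16227360)))) (a (b (l 16397760) (l 16325960)) (c (l 189144910967) (l 16376224))))) (a (b (a (l 3) (c (a (c (l 16379928) (l 16473184)) (c (l 191293041127) (l 16412136))) (a (l 16229896) (l 16491424)))) (b (a (a (a (l 3) (b (l 3) (c (l 16359312) (l 16258072)))) (c (c (l 16470128) (l 16418456)) (c (l 16317680) (l 16251768)))) (c (a (l 16352688) (l 16284448)) (a (l 16326344) (l 16482248)))) (a (a (c (a (l 16332504) (l 16377432)) (a (c (l 16240888) (l 16172016)) (l 16254688))) (c (l 16440480) (l 16196736))) (c (a (l 16427496) (l 16371416)) (l 16189720))))) (b (a (c (a (b (l 16337232) (l 16334952)) (l 16298544)) (l 16273200)) (c (a (l 16258880) (l 16229392)) (l 16334552))) (b (a (c (a (l 16330656) (l 16290344)) (l 16410480)) (c (l 16303368) (l 16327704))) (a (c (a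 (l 16324816) (l 16264528)) (l 16403960)) (c (a (l 16250408) (l 16218656)) (l 16322304))))))) (a (a (a (c (a (c (l 16322928) (l 16286552)) (l 16253824)) (a (b (c (l 16230856) (a (l 16148816) (l 16172736))) (c (l 16213792) (l 16142216))) (c (l 16267632) (l 16198064)))) (c (b (l 16344592) (l 16408072)) (c (a (l 16311000) (l 16352392)) (l 16201856)))) (c (c (a (l 16362816) (l 16315088)) (l 16344512)) (a (l 16252872) (l 16444136)))) (a (c (a (c (l 16276312) (l 16319632)) (l 16261440)) (l 16313904)) (c (a (l 16227480) (l 16198768)) (l 16304216))))), by decide +kernel⟩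

def k2_pp_022 : ∃ t, chk3 f_pp_022 t 3 10 1 = true :=
  ⟨(b (b (a (c (a (b (l 16187360) (l 16193312)) (b (l 16160904) (l 16163616))) (a (b (l 16275688) (l 16273432)) (b (l 16225896) (l 16223824)))) (a (a (l 16170848) (l 2)) (l 2))) (a (a (b (c (l 16193624) (l 16268168)) (b (c (l 16188792) (l 16262992)) (c (l 16179560) (l 16258512)))) (c (l 16279232) (l 16216992))) (l 2))) (a (c (a (l 16166856) (l 16144912)) (a (l 16250008) (l 16214840))) (l 2))), by decide +kernel⟩

def k3_pp_022 : ∃ t, chk3 f_pp_022 t 1 11 1 = true :=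
  ⟨(c (a (b (a (a (a (b (l 16122280) (l 16144392)) (l 16278344)) (c (l 16276872) (l 16323832))) (a (a (l 16250232) (l 16220776)) (l 16184248))) (a (a (a (l 16048800) (l 16288088)) (a (l 16256128) (l 16229424))) (a (l 15941664) (l 16158664)))) (a (a (l 16316864) (l 16147712)) (l 2))) (a (a (a (a (a (b (b (c (l 16195504) (l 16122688)) (l 16035280)) (c (l 16144632) (l 16070152))) (b (l 16004560) (l 16023208))) (c (l 16075896) (b (l 16219952) (l 16172216)))) (a (c (l 16335088) (l 16271176)) (l 16126064))) (a (a (l 16324128) (l 16296616)) (b (l 16276536) (l 16252112)))) (a (a (l 16235704) (l 16140672)) (l 2)))), by decide +kernel⟩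

def k4_pp_022 : ∃ t, chk3 f_pp_022 t 1 3 1 = true :=
  ⟨(a (b (a (a (b (c (a (b (l 16147056) (l 16156224)) (l 16019112)) (a (c (a (l 15969768) (l 16047440)) (b (l 16044648) (l 15995296))) (b (l 15967848) (l 15998200)))) (c (a (b (l 16097928) (l 16035632)) (l 15958544)) (a (c (b (l 16013056) (l 15956336)) (b (l 15943576) (l 15889792))) (c (l 16047960) (l 15818024))))) (a (b (c (b (l 16198248) (l 16142704)) (b (l 16223952) (l 16167496))) (c (l 16059048) (c (l 16106864) (l 16048392)))) (b (c (l 16153552) (l 16251240)) (c (l 16058672) (l 16134576))))) (c (b (a (b (l 16153448) (l 16116120)) (l 15893848)) (a (l 16064016) (l 16084880))) (b (a (l 16021640) (l 16220560)) (a (l 16161320) (l 16183984))))) (a (a (c (b (a (b (l 15970728) (l 15905584)) (l 15943696)) (a (c (l 15790576) (l 15795408)) (l 15827928))) (b (a (c (l 15799808) (b (l 15833624) (l 15775072))) (c (l 15928288) (l 15742424))) (c (a (l 15558552) (l 15807392)) (a (b (l 15714864) (l 15655088)) (l 15666496)))))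 (b (c (c (l 15942312) (l 15983304)) (a (l 15959928) (l 16016408))) (a (c (l 15854536) (l 15844296)) (l 2)))) (b (a (c (l 15999376) (l 16082952)) (l 2)) (l 2)))) (b (a (a (b (c (l 16132680) (l 16226296)) (l 2)) (l 2)) (l 2)) (l 2))), by decide +kernel⟩

theorem s5_pp_022 : ∃ t, chk3 f_pp_022 t 1 10 1 = true := ex3_a k1_pp_022 k2_pp_022

theorem s6_pp_022 : ∃ t, chk3 f_pp_022 t 1 5 1 = true := ex3_b s5_pp_022 k3_pp_022

theorem s7_pp_022 : ∃ t, chk3 f_pp_022 t 1 2 1 = true := ex3_b k0_pp_022 s6_pp_022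

theorem s8_pp_022 : ∃ t, chk3 f_pp_022 t 1 1 1 = true := ex3_b s7_pp_022 k4_pp_022

theorem c_pp_022 : CertB 0 536870912 1073741824 536870912 858993459 64424510 3 eng mog cd1q0 cd3q2 pd2 false true true .pp 0 2 2
    ndB1q0 ndB3q2 pcB2 Cut.none Ext.none :=
  certB1 (fam := false) (s1 := true) (s2 := true) (a := 0) (b := 2) (c := 2) (cn := .pp) (n1 := ndB1q0) (n2 := ndB3q2) (pc := pcB2) (cut := Cut.none) (xt := Ext.none) (P1 := 0) (W1 := 536870912) (P2 := 1073741824) (W2 := 536870912) (P3 := 858993459) (W3 := 64424510) (N0 := 3) (En := eng) (mo := mog) (C1 := cd1q0) (C2 := cd3q2) (C3 := pd2)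
    rfl (fun _ => rfl) s8_pp_022

noncomputable def f_pp_023 : ℕ → ℕ → ℕ → ℕ → Bool := onCell 1073741824 536870912 0 1230186008 858993459 64424510
    (rowB 3 eng mog cd1q0 cd3q3 pd2 2 false true true .up 0 2 3 (qsf 0 536870912 0 1230186008 2) ndB1q0 ndB3q3 pcB2 Cut.none Ext.none)

def k0_pp_023 : ∃ t, chk3 f_pp_023 t 1 2 1 = true :=
  ⟨(a (l 2) (a (l 2) (b (a (l 2) (l 16052072)) (a (b (l 15904656) (l 15703728)) (b (l 15929328) (b (l 15844528) (l 15828064))))))), by decide +kernel⟩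

def k1_pp_023 : ∃ t, chk3 f_pp_023 t 1 3 1 = true :=
  ⟨(b (a (a (l 2) (a (l 2) (b (l 2) (b (l 2) (l 16305616))))) (a (b (a (l 2) (l 16121160)) (a (b (l 16303928) (l 16318312)) (b (l 16266200) (l 16278824)))) (a (b (l 16026320) (b (l 16180640) (l 16200864))) (b (l 15861112) (b (l 16063104) (l 16090032)))))) (b (a (a (l 2) (a (a (a (l 16199840) (b (l 2) (l 16323448))) (l 16316272)) (b (l 16315816) (l 16296048)))) (a (b (l 16008136) (c (l 16171240) (l 16208768))) (a (b (l 16129384) (l 16019696)) (b (b (l 16043016) (l 15985424)) (c (l 15900168) (l 15876520)))))) (b (a (a (a (l 2) (a (a (a (l 16341576) (l 16344408)) (l 16304544)) (a (l 16114560) (l 16341896)))) (a (a (a (l 16332288) (c (l 16290616) (l 16349512))) (l 16297216)) (l 16012440))) (b (a (a (l 16169624) (l 16054856)) (a (l 15921728) (l 15775328))) (a (a (l 16118488) (l 15991032)) (a (l 15848000) (c (l 15713096) (l 15674392)))))) (a (a (a (l 3) (a (c (a (l 16309376) (l 16298160)) (a (l 16396816) (l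 16386200))) (c (a (l 16285752) (l 16270240)) (a (l 16374536) (l 16357072))))) (a (a (a (c (l 16252648) (l 16336760)) (c (a (l 16236800) (l 16225072)) (l 16313344))) (c (l 16196408) (l 16276680))) (c (l 16120312) (l 16191496)))) (a (a (c (l 16065032) (l 16054528)) (b (l 15919320) (c (l 15829376) (l 15857328)))) (a (c (b (l 15772584) (l 15678200)) (b (l 15768296) (a (l 15724736) (l 15627104)))) (a (b (l 15745056) (c (l 15558296) (l 15525216))) (b (c (l 15579664) (l 15527192)) (c (b (l 15503520) (a (l 15471048) (l 15431768))) (b (l 15448272) (a (l 15419888) (l 15368192)))))))))))), by decide +kernel⟩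

theorem s2_pp_023 : ∃ t, chk3 f_pp_023 t 1 1 1 = true := ex3_b k0_pp_023 k1_pp_023

theorem c_pp_023 : CertB 0 536870912 0 1230186008 858993459 64424510 3 eng mog cd1q0 cd3q3 pd2 false true true .up 0 2 3
    ndB1q0 ndB3q3 pcB2 Cut.none Ext.none :=
  certB2 (fam := false) (s1 := true) (s2 := true) (a := 0) (b := 2) (c := 3) (cn := .up) (n1 := ndB1q0) (n2 := ndB3q3) (pc := pcB2) (cut := Cut.none) (xt := Ext.none) (P1 := 0) (W1 := 536870912) (P2 := 0) (W2 := 1230186008) (P3 := 858993459) (W3 := 64424510) (N0 := 3) (En := eng) (mo := mog) (C1 := cd1q0) (C2 := cd3q3) (C3 := pd2)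
    rfl (fun _ => rfl) s2_pp_023

noncomputable def f_pp_033 : ℕ → ℕ → ℕ → ℕ → Bool := onCell 1610612736 536870912 0 1230186008 858993459 64424510
    (rowB 3 eng mog cd1q0 cd3q3 pd3 2 false true true .pnn 0 3 3 (qsf 0 536870912 0 1230186008 3) ndB1q0 ndB3q3 pcB3 Cut.none Ext.none)

def k0_pp_033 : ∃ t, chk3 f_pp_033 t 1 2 1 = true :=
  ⟨(b (a (a (a (l 16289824) (l 16324480)) (b (l 4) (a (l 16101392) (l 4)))) (l 4)) (b (a (a (a (l 16380120) (l 16273832)) (a (l 16170480) (l 16057504))) (a (a (a (l 16013000) (l 4)) (l 4)) (l 4))) (a (a (a (l 16397032) (l 16270712)) (a (l 16132064) (l 16003264))) (a (a (a (l 15916696) (l 15862464)) (a (l 15807176) (l 15752120))) (l 4))))), by decide +kernel⟩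

def k1_pp_033 : ∃ t, chk3 f_pp_033 t 1 6 1 = true :=
  ⟨(a (a (b (a (b (l 16327888) (l 16232376)) (b (l 16209848) (l 16117992))) (a (b (l 16122424) (l 16253744)) (b (l 16000744) (c (l 15915552) (l 15832336))))) (b (a (b (l 16070400) (l 16051192)) (a (l 15925696) (l 15853416))) (a (b (c (l 15944688) (l 15801584)) (a (l 15767184) (l 15774280))) (b (a (l 15760432) (l 15680912)) (a (b (l 15650432) (l 15571600)) (b (l 15571008) (l 412348188039))))))) (b (a (a (a (l 15776984) (b (l 15740792) (l 15661456))) (a (b (l 15679248) (l 15595568)) (b (l 15632632) (l 944923931239)))) (a (a (b (l 945460800519) (l 1)) (l 1)) (l 1))) (a (a (c (b (a (l 15703192) (l 15632568)) (a (l 607232134167) (l 616358795447))) (b (a (l 15506696) (l 15425344)) (a (l 620117018007) (l 636222969703)))) (a (b (l 884794488023) (l 1)) (l 1))) (l 1)))), by decide +kernel⟩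

def k2_pp_033 : ∃ t, chk3 f_pp_033 t 1 7 1 = true :=
  ⟨(a (b (a (a (b (b (l 15990440) (l 15841656)) (c (l 15765504) (l 15729608))) (b (c (b (l 15806392) (l 15732608)) (a (l 15735672) (l 15647760))) (b (a (l 15654792) (l 15569872)) (a (l 15570936) (c (l 15545032) (l 15433368)))))) (b (a (b (a (l 15651872) (l 15570536)) (a (c (l 15628256) (l 15514776)) (c (l 15560552) (l 15419152)))) (a (b (c (l 15576048) (l 15412384)) (c (l 513279944487) (l 521332635543))) (b (c (l 583609900487) (l 579851495255)) (l 1)))) (a (b (a (c (l 15551560) (l 15425472)) (c (l 395168186983) (l 401073403575))) (a (c (l 379062038119) (l 387651684759)) (b (l 471940677735) (l 1)))) (l 1)))) (a (b (a (b (a (l 15656856) (l 15738424)) (a (c (l 15601296) (l 15543512)) (c (l 15526096) (l 15447480)))) (b (a (c (l 15537280) (l 15441216)) (c (l 364566497383) (l 373693062983))) (a (c (l 353292221527) (b (l 15374120) (l 353291853767))) (b (a (l 432749023527) (l 1)) (l 1))))) (a (b (c (a (b (l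 15532896) (l 15486552)) (b (l 15459816) (l 340407191863))) (a (b (l 15474160) (l 15427192)) (b (l 342017650103) (l 340406962023)))) (a (c (b (l 330743548455) (a (l 385504291943) (l 386577981815))) (b (l 329669626599) (a (l 382819773495) (l 379598463783)))) (b (c (l 383893439959) (l 379598329511)) (l 1)))) (a (a (b (c (l 392483405399) (l 405368322535)) (l 1)) (l 1)) (l 1)))) (b (a (a (b (c (l 418790104919) (l 425769139479)) (l 1)) (l 1)) (l 1)) (l 1)))) (l 1)), by decide +kernel⟩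

theorem s3_pp_033 : ∃ t, chk3 f_pp_033 t 1 3 1 = true := ex3_b k1_pp_033 k2_pp_033

theorem s4_pp_033 : ∃ t, chk3 f_pp_033 t 1 1 1 = true := ex3_b k0_pp_033 s3_pp_033

theorem c_pp_033 : CertB 0 536870912 0 1230186008 858993459 64424510 3 eng mog cd1q0 cd3q3 pd3 false true true .pnn 0 3 3
    ndB1q0 ndB3q3 pcB3 Cut.none Ext.none :=
  certB2 (fam := false) (s1 := true) (s2 := true) (a := 0) (b := 3) (c := 3) (cn := .pnn) (n1 := ndB1q0) (n2 := ndB3q3) (pc := pcB3) (cut := Cut.none) (xt := Ext.none) (P1 := 0) (W1 := 536870912) (P2 := 0) (W2 := 1230186008) (P3 := 858993459) (W3 := 64424510) (N0 := 3) (En := eng) (mo := mog) (C1 := cd1q0) (C2 := cd3q3) (C3 := pd3)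
    rfl (fun _ => rfl) s4_pp_033

noncomputable def f_pp_101 : ℕ → ℕ → ℕ → ℕ → Bool := onCell 536870912 536870912 536870912 536870912 858993459 64424510
    (rowB 3 eng mog cd1q1 cd3q1 pd0 0 false true true .npn 1 0 1 (qsf 536870912 536870912 536870912 536870912 0) ndB1q1 ndB3q1 pcB0 Cut.none Ext.none)

def k0_pp_101 : ∃ t, chk3 f_pp_101 t 1 1 1 = true :=
  ⟨(l 3), by decide +kernel⟩

theorem c_pp_101 : CertB 536870912 536870912 536870912 536870912 858993459 64424510 3 eng mog cd1q1 cd3q1 pd0 false true true .npn 1 0 1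
    ndB1q1 ndB3q1 pcB0 Cut.none Ext.none :=
  certB0 (fam := false) (s1 := true) (s2 := true) (a := 1) (b := 0) (c := 1) (cn := .npn) (n1 := ndB1q1) (n2 := ndB3q1) (pc := pcB0) (cut := Cut.none) (xt := Ext.none) (P1 := 536870912) (W1 := 536870912) (P2 := 536870912) (W2 := 536870912) (P3 := 858993459) (W3 := 64424510) (N0 := 3) (En := eng) (mo := mog) (C1 := cd1q1) (C2 := cd3q1) (C3 := pd0)
    rfl k0_pp_101

noncomputable def f_pp_102 : ℕ → ℕ → ℕ → ℕ → Bool := onCell 536870912 536870912 1073741824 536870912 858993459 64424510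
    (rowB 3 eng mog cd1q1 cd3q2 pd0 0 false true true .npp 1 0 2 (qsf 536870912 536870912 1073741824 536870912 0) ndB1q1 ndB3q2 pcB0 Cut.none Ext.none)

def k0_pp_102 : ∃ t, chk3 f_pp_102 t 1 1 1 = true :=
  ⟨(l 3), by decide +kernel⟩

theorem c_pp_102 : CertB 536870912 536870912 1073741824 536870912 858993459 64424510 3 eng mog cd1q1 cd3q2 pd0 false true true .npp 1 0 2
    ndB1q1 ndB3q2 pcB0 Cut.none Ext.none :=
  certB0 (fam := false) (s1 := true) (s2 := true) (a := 1) (b := 0) (c := 2) (cn := .npp) (n1 := ndB1q1) (n2 := ndB3q2) (pc := pcB0) (cut := Cut.none) (xt := Ext.none) (P1 := 536870912) (W1 := 536870912) (P2 := 1073741824) (W2 := 536870912) (P3 := 858993459) (W3 := 64424510) (N0 := 3) (En := eng) (mo := mog) (C1 := cd1q1) (C2 := cd3q2) (C3 := pd0)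
    rfl k0_pp_102

noncomputable def f_pp_112 : ℕ → ℕ → ℕ → ℕ → Bool := onCell 536870912 536870912 1073741824 536870912 858993459 64424510
    (rowB 3 eng mog cd1q1 cd3q2 pd1 0 false true true .dn 1 1 2 (qsf 536870912 536870912 1073741824 536870912 1) ndB1q1 ndB3q2 pcB1 Cut.none Ext.none)

def k0_pp_112 : ∃ t, chk3 f_pp_112 t 1 1 1 = true :=
  ⟨(l 3), by decide +kernel⟩

theorem c_pp_112 : CertB 536870912 536870912 1073741824 536870912 858993459 64424510 3 eng mog cd1q1 cd3q2 pd1 false true true .dn 1 1 2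
    ndB1q1 ndB3q2 pcB1 Cut.none Ext.none :=
  certB0 (fam := false) (s1 := true) (s2 := true) (a := 1) (b := 1) (c := 2) (cn := .dn) (n1 := ndB1q1) (n2 := ndB3q2) (pc := pcB1) (cut := Cut.none) (xt := Ext.none) (P1 := 536870912) (W1 := 536870912) (P2 := 1073741824) (W2 := 536870912) (P3 := 858993459) (W3 := 64424510) (N0 := 3) (En := eng) (mo := mog) (C1 := cd1q1) (C2 := cd3q2) (C3 := pd1)
    rfl k0_pp_112

noncomputable def f_pp_113 : ℕ → ℕ → ℕ → ℕ → Bool := onCell 536870912 536870912 0 1230186008 858993459 64424510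
    (rowB 3 eng mog cd1q1 cd3q3 pd1 2 false true true .nn 1 1 3 (qsf 536870912 536870912 0 1230186008 1) ndB1q1 ndB3q3 pcB1 Cut.none Ext.none)

def k0_pp_113 : ∃ t, chk3 f_pp_113 t 1 1 1 = true :=
  ⟨(a (b (l 2) (b (l 3) (l 3))) (b (a (l 2) (a (b (l 2) (a (b (l 2) (l 3)) (b (c (l 16666968) (l 1181752928647)) (c (l 368460748663) (a (l 342690458599) (l 16561888)))))) (b (a (l 2) (l 16946896)) (b (a (c (l 16739728) (l 16652120)) (l 16812256)) (a (c (l 16747272) (l 16741120)) (c (l 16834832) (l 16827152))))))) (a (b (l 3) (l 3)) (b (a (b (a (l 3) (c (l 381882589063) (b (l 454360243095) (l 3)))) (l 3)) (a (b (c (b (l 16758456) (l 16800800)) (b (l 16838744) (l 16664984))) (l 3)) (b (c (b (l 16863632) (l 16926504)) (b (l 16782424) (l 16683104))) (c (b (l 16782168) (l 16520912)) (b (l 16366344) (c (l 16268512) (l 16150712))))))) (b (l 3) (l 3)))))), by decide +kernel⟩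

theorem c_pp_113 : CertB 536870912 536870912 0 1230186008 858993459 64424510 3 eng mog cd1q1 cd3q3 pd1 false true true .nn 1 1 3
    ndB1q1 ndB3q3 pcB1 Cut.none Ext.none :=
  certB2 (fam := false) (s1 := true) (s2 := true) (a := 1) (b := 1) (c := 3) (cn := .nn) (n1 := ndB1q1) (n2 := ndB3q3) (pc := pcB1) (cut := Cut.none) (xt := Ext.none) (P1 := 536870912) (W1 := 536870912) (P2 := 0) (W2 := 1230186008) (P3 := 858993459) (W3 := 64424510) (N0 := 3) (En := eng) (mo := mog) (C1 := cd1q1) (C2 := cd3q3) (C3 := pd1)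
    rfl (fun _ => rfl) k0_pp_113

noncomputable def f_pp_123 : ℕ → ℕ → ℕ → ℕ → Bool := onCell 1073741824 536870912 0 1230186008 858993459 64424510
    (rowB 3 eng mog cd1q1 cd3q3 pd2 2 false true true .npn 1 2 3 (qsf 536870912 536870912 0 1230186008 2) ndB1q1 ndB3q3 pcB2 Cut.none Ext.none)

def k0_pp_123 : ∃ t, chk3 f_pp_123 t 4 1 1 = true :=
  ⟨(b (b (a (a (l 16692264) (l 16638120)) (b (l 16543496) (l 16550272))) (a (b (a (l 16658584) (l 16626152)) (c (a (l 16722896) (l 16716448)) (a (l 16563776) (l 16516248)))) (b (c (l 16622104) (l 16485056)) (c (l 16692648) (l 16498848))))) (b (a (b (b (c (l 16745824) (a (l 16524672) (l 16455416))) (c (l 16601664) (a (l 16377928) (l 16289888)))) (a (c (b (l 16621904) (l 16419824)) (b (l 16197536) (a (l 16118864) (l 16130096)))) (c (b (l 16503256) (l 16383136)) (b (l 16186632) (l 16151128))))) (b (c (a (l 16643296) (l 16572016)) (a (b (l 16382736) (l 16263320)) (l 16184720))) (c (a (b (l 16458024) (l 16385512)) (b (l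 16451248) (l 16408008))) (a (b (l 16197752) (l 16180712)) (b (l 16208520) (l 16201720)))))) (a (a (b (a (b (c (l 16304360) (l 16116760)) (l 3)) (c (b (l 16307432) (l 280950634119)) (b (l 16140376) (l 221893964535)))) (l 3)) (b (c (b (c (l 16368232) (l 16277280)) (c (l 16334088) (l 16283192))) (b (c (l 16202712) (l 16149808)) (c (l 16248496) (a (l 16208336) (l 16204544))))) (b (c (c (l 16404360) (l 16325888)) (c (l 16284120) (a (l 3) (l 16219624)))) (l 3)))) (b (a (c (b (l 16354304) (a (l 16345128) (l 16375360))) (b (l 16208456) (a (l 16007760) (l 16269024)))) (c (b (l 16396128) (l 16184064)) (b (l 16233040) (c (l 16328208) (l 16182016))))) (b (a (a (c (c (l 16387904) (l 16371000)) (c (l 16359160) (l 16212600))) (c (l 16391920) (b (l 16291160) (l 16301128)))) (a (c (l 16421400) (b (l 16288496) (l 16299520))) (c (l 16475032) (l 16267968)))) (b (a (a (c (l 16419520) (l 16230496)) (l 1)) (l 1)) (l 1))))))), by decide +kernel⟩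

def k1_pp_123 : ∃ t, chk3 f_pp_123 t 5 1 1 = true :=
  ⟨(b (b (a (b (l 16377608) (l 16404856)) (a (l 16275256) (l 16214208))) (a (c (b (l 16542624) (l 16642064)) (b (l 16305152) (l 16111288))) (c (b (l 16431392) (l 16547656)) (b (l 16168672) (l 16182032))))) (b (a (c (b (a (a (l 16553720) (l 16551176)) (l 16544024)) (a (a (l 16447672) (b (l 16482736) (l 16457792))) (l 16488168))) (b (a (b (l 16284088) (l 16103984)) (l 16213248)) (a (c (l 16113544) (a (l 16135032) (l 16130400))) (l 16059088)))) (b (c (l 16534608) (b (l 16176352) (l 16197216))) (c (b (l 16534560) (l 16534584)) (b (l 16233904) (l 16239392))))) (a (b (c (a (a (b (l 16433896) (l 16456072)) (b (l 16456304) (l 16478112))) (b (l 16486552) (l 16509552))) (a (c (a (l 16314944) (l 16321064)) (b (l 16149216) (l 16158560))) (b (l 16236280) (l 16252512)))) (a (a (b (c (l 16502064) (l 16283200)) (l 1)) (l 1)) (l 1))) (b (b (c (l 16545344) (l 16243208)) (l 1)) (l 1))))), by decide +kernel⟩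

def k2_pp_123 : ∃ t, chk3 f_pp_123 t 3 1 1 = true :=
  ⟨(b (a (b (a (c (b (l 16292752) (l 16277040)) (l 15853280)) (c (l 16235792) (l 15919280))) (b (a (c (l 16311520) (l 16004392)) (c (l 16173888) (l 15887640))) (c (a (l 16444064) (l 16341304)) (a (l 16064992) (l 15950040))))) (b (c (a (l 16323104) (l 16407432)) (a (l 15905504) (l 15944064))) (a (b (c (l 16223768) (l 15835728)) (c (l 16125456) (l 15639456))) (b (c (l 16276704) (l 15855232)) (c (l 15991192) (l 613674586183)))))) (b (a (b (c (a (l 16511104) (l 16469680)) (a (b (l 16108752) (l 16186120)) (l 15845128))) (c (a (b (l 16572872) (l 16596336)) (l 288333524791)) (a (b (l 16241848) (l 16252888)) (b (l 16226432) (l 1))))) (a (b (c (l 16416360) (l 15849080)) (l 1)) (l 1))) (l 1))), by decide +kernel⟩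

theorem s3_pp_123 : ∃ t, chk3 f_pp_123 t 2 1 1 = true := ex3_a k0_pp_123 k1_pp_123

theorem s4_pp_123 : ∃ t, chk3 f_pp_123 t 1 1 1 = true := ex3_a s3_pp_123 k2_pp_123

theorem c_pp_123 : CertB 536870912 536870912 0 1230186008 858993459 64424510 3 eng mog cd1q1 cd3q3 pd2 false true true .npn 1 2 3
    ndB1q1 ndB3q3 pcB2 Cut.none Ext.none :=
  certB2 (fam := false) (s1 := true) (s2 := true) (a := 1) (b := 2) (c := 3) (cn := .npn) (n1 := ndB1q1) (n2 := ndB3q3) (pc := pcB2) (cut := Cut.none) (xt := Ext.none) (P1 := 536870912) (W1 := 536870912) (P2 := 0) (W2 := 1230186008) (P3 := 858993459) (W3 := 64424510) (N0 := 3) (En := eng) (mo := mog) (C1 := cd1q1) (C2 := cd3q3) (C3 := pd2)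
    rfl (fun _ => rfl) s4_pp_123

noncomputable def f_pp_133 : ℕ → ℕ → ℕ → ℕ → Bool := onCell 536870912 536870912 0 1230186008 858993459 64424510
    (rowB 3 eng mog cd1q1 cd3q3 pd3 0 false true true .dn 1 3 3 (qsf 536870912 536870912 0 1230186008 3) ndB1q1 ndB3q3 pcB3 Cut.none Ext.none)

def k0_pp_133 : ∃ t, chk3 f_pp_133 t 1 1 1 = true :=
  ⟨(b (b (a (a (a (b (l 1709429342055) (l 1)) (l 1)) (l 1)) (l 1)) (l 1)) (l 1)), by decide +kernel⟩

theorem c_pp_133 : CertB 536870912 536870912 0 1230186008 858993459 64424510 3 eng mog cd1q1 cd3q3 pd3 false true true .dn 1 3 3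
    ndB1q1 ndB3q3 pcB3 Cut.none Ext.none :=
  certB0 (fam := false) (s1 := true) (s2 := true) (a := 1) (b := 3) (c := 3) (cn := .dn) (n1 := ndB1q1) (n2 := ndB3q3) (pc := pcB3) (cut := Cut.none) (xt := Ext.none) (P1 := 536870912) (W1 := 536870912) (P2 := 0) (W2 := 1230186008) (P3 := 858993459) (W3 := 64424510) (N0 := 3) (En := eng) (mo := mog) (C1 := cd1q1) (C2 := cd3q3) (C3 := pd3)
    rfl k0_pp_133

noncomputable def f_pp_202_a : ℕ → ℕ → ℕ → ℕ → Bool := onCell 0 536870912 1073741824 536870912 858993459 64424510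
    (rowB 3 eng mog cd1q2a cd3q2 pd0 0 false true true .pp 2 0 2 (qsf 0 536870912 1073741824 536870912 0) ndB1q2a ndB3q2 pcB0 Cut.none Ext.none)

def k0_pp_202_a : ∃ t, chk3 f_pp_202_a t 1 1 1 = true :=
  ⟨(l 3), by decide +kernel⟩

theorem c_pp_202_a : CertB 0 536870912 1073741824 536870912 858993459 64424510 3 eng mog cd1q2a cd3q2 pd0 false true true .pp 2 0 2
    ndB1q2a ndB3q2 pcB0 Cut.none Ext.none :=
  certB0 (fam := false) (s1 := true) (s2 := true) (a := 2) (b := 0) (c := 2) (cn := .pp) (n1 := ndB1q2a) (n2 := ndB3q2) (pc := pcB0) (cut := Cut.none) (xt := Ext.none) (P1 := 0) (W1 := 536870912) (P2 := 1073741824) (W2 := 536870912) (P3 := 858993459) (W3 := 64424510) (N0 := 3) (En := eng) (mo := mog) (C1 := cd1q2a) (C2 := cd3q2) (C3 := pd0)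
    rfl k0_pp_202_a

noncomputable def f_pp_202_b : ℕ → ℕ → ℕ → ℕ → Bool := onCell 1239849684 370763052 1073741824 536870912 858993459 64424510
    (rowB 3 eng mog cd1q2b cd3q2 pd0 0 false true true .pp 2 0 2 (qsf 1239849684 370763052 1073741824 536870912 0) ndB1q2b ndB3q2 pcB0 Cut.none Ext.none)

def k0_pp_202_b : ∃ t, chk3 f_pp_202_b t 1 1 1 = true :=
  ⟨(l 3), by decide +kernel⟩

theorem c_pp_202_b : CertB 1239849684 370763052 1073741824 536870912 858993459 64424510 3 eng mog cd1q2b cd3q2 pd0 false true true .pp 2 0 2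
    ndB1q2b ndB3q2 pcB0 Cut.none Ext.none :=
  certB0 (fam := false) (s1 := true) (s2 := true) (a := 2) (b := 0) (c := 2) (cn := .pp) (n1 := ndB1q2b) (n2 := ndB3q2) (pc := pcB0) (cut := Cut.none) (xt := Ext.none) (P1 := 1239849684) (W1 := 370763052) (P2 := 1073741824) (W2 := 536870912) (P3 := 858993459) (W3 := 64424510) (N0 := 3) (En := eng) (mo := mog) (C1 := cd1q2b) (C2 := cd3q2) (C3 := pd0)
    rfl k0_pp_202_b

noncomputable def f_pp_203_a : ℕ → ℕ → ℕ → ℕ → Bool := onCell 0 536870912 0 1230186008 858993459 64424510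
    (rowB 3 eng mog cd1q2a cd3q3 pd0 0 false true true .up 2 0 3 (qsf 0 536870912 0 1230186008 0) ndB1q2a ndB3q3 pcB0 Cut.none Ext.none)

def k0_pp_203_a : ∃ t, chk3 f_pp_203_a t 1 1 1 = true :=
  ⟨(b (l 2) (l 3)), by decide +kernel⟩

theorem c_pp_203_a : CertB 0 536870912 0 1230186008 858993459 64424510 3 eng mog cd1q2a cd3q3 pd0 false true true .up 2 0 3
    ndB1q2a ndB3q3 pcB0 Cut.none Ext.none :=
  certB0 (fam := false) (s1 := true) (s2 := true) (a := 2) (b := 0) (c := 3) (cn := .up) (n1 := ndB1q2a) (n2 := ndB3q3) (pc := pcB0) (cut := Cut.none) (xt := Ext.none) (P1 := 0) (W1 := 536870912) (P2 := 0) (W2 := 1230186008) (P3 := 858993459) (W3 := 64424510) (N0 := 3) (En := eng) (mo := mog) (C1 := cd1q2a) (C2 := cd3q3) (C3 := pd0)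
    rfl k0_pp_203_a

noncomputable def f_pp_203_b : ℕ → ℕ → ℕ → ℕ → Bool := onCell 1239849684 370763052 0 1230186008 858993459 64424510
    (rowB 3 eng mog cd1q2b cd3q3 pd0 0 false true true .up 2 0 3 (qsf 1239849684 370763052 0 1230186008 0) ndB1q2b ndB3q3 pcB0 Cut.none Ext.none)

def k0_pp_203_b : ∃ t, chk3 f_pp_203_b t 1 1 1 = true :=
  ⟨(b (l 3) (l 3)), by decide +kernel⟩

theorem c_pp_203_b : CertB 1239849684 370763052 0 1230186008 858993459 64424510 3 eng mog cd1q2b cd3q3 pd0 false true true .up 2 0 3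
    ndB1q2b ndB3q3 pcB0 Cut.none Ext.none :=
  certB0 (fam := false) (s1 := true) (s2 := true) (a := 2) (b := 0) (c := 3) (cn := .up) (n1 := ndB1q2b) (n2 := ndB3q3) (pc := pcB0) (cut := Cut.none) (xt := Ext.none) (P1 := 1239849684) (W1 := 370763052) (P2 := 0) (W2 := 1230186008) (P3 := 858993459) (W3 := 64424510) (N0 := 3) (En := eng) (mo := mog) (C1 := cd1q2b) (C2 := cd3q3) (C3 := pd0)
    rfl k0_pp_203_b

noncomputable def cut_pp_213_a : Cut := Cut.of [[⟨0, 1, 0, 67108864⟩, ⟨1, 1, 0, 67108864⟩, ⟨2, 2, 0, 16777216⟩]]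

noncomputable def f_pp_213_a : ℕ → ℕ → ℕ → ℕ → Bool := onCell 0 536870912 0 1230186008 858993459 64424510
    (rowB 3 eng mog cd1q2a cd3q3 pd1 0 false true true .pnn 2 1 3 (qsf 0 536870912 0 1230186008 1) ndB1q2a ndB3q3 pcB1 cut_pp_213_a Ext.none)

def k0_pp_213_a : ∃ t, chk3 f_pp_213_a t 1 1 1 = true :=
  ⟨(b (a (l 3) (b (a (l 3) (b (a (l 3) (l 6)) (l 3))) (l 3))) (l 3)), by decide +kernel⟩

theorem c_pp_213_a : CertB 0 536870912 0 1230186008 858993459 64424510 3 eng mog cd1q2a cd3q3 pd1 false true true .pnn 2 1 3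
    ndB1q2a ndB3q3 pcB1 cut_pp_213_a Ext.none :=
  certB0 (fam := false) (s1 := true) (s2 := true) (a := 2) (b := 1) (c := 3) (cn := .pnn) (n1 := ndB1q2a) (n2 := ndB3q3) (pc := pcB1) (cut := cut_pp_213_a) (xt := Ext.none) (P1 := 0) (W1 := 536870912) (P2 := 0) (W2 := 1230186008) (P3 := 858993459) (W3 := 64424510) (N0 := 3) (En := eng) (mo := mog) (C1 := cd1q2a) (C2 := cd3q3) (C3 := pd1)
    rfl k0_pp_213_a

noncomputable def cut_pp_213_b : Cut := Cut.of [[⟨0, 1, 0, 67108864⟩, ⟨1, 1, 0, 67108864⟩, ⟨2, 2, 0, 16777216⟩]]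

noncomputable def f_pp_213_b : ℕ → ℕ → ℕ → ℕ → Bool := onCell 1239849684 370763052 0 1230186008 858993459 64424510
    (rowB 3 eng mog cd1q2b cd3q3 pd1 0 false true true .pnn 2 1 3 (qsf 1239849684 370763052 0 1230186008 1) ndB1q2b ndB3q3 pcB1 cut_pp_213_b Ext.none)

def k0_pp_213_b : ∃ t, chk3 f_pp_213_b t 1 1 1 = true :=
  ⟨(b (l 3) (l 3)), by decide +kernel⟩

theorem c_pp_213_b : CertB 1239849684 370763052 0 1230186008 858993459 64424510 3 eng mog cd1q2b cd3q3 pd1 false true true .pnn 2 1 3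
    ndB1q2b ndB3q3 pcB1 cut_pp_213_b Ext.none :=
  certB0 (fam := false) (s1 := true) (s2 := true) (a := 2) (b := 1) (c := 3) (cn := .pnn) (n1 := ndB1q2b) (n2 := ndB3q3) (pc := pcB1) (cut := cut_pp_213_b) (xt := Ext.none) (P1 := 1239849684) (W1 := 370763052) (P2 := 0) (W2 := 1230186008) (P3 := 858993459) (W3 := 64424510) (N0 := 3) (En := eng) (mo := mog) (C1 := cd1q2b) (C2 := cd3q3) (C3 := pd1)
    rfl k0_pp_213_b

noncomputable def f_pp_303 : ℕ → ℕ → ℕ → ℕ → Bool := onCell 1610612736 536870912 0 1230186008 858993459 64424510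
    (rowB 3 eng mog cd1q3 cd3q3 pd0 0 false true true .npn 3 0 3 (qsf 1610612736 536870912 0 1230186008 0) ndB1q3 ndB3q3 pcB0 Cut.none Ext.none)

def k0_pp_303 : ∃ t, chk3 f_pp_303 t 1 1 1 = true :=
  ⟨(b (l 3) (l 3)), by decide +kernel⟩

theorem c_pp_303 : CertB 1610612736 536870912 0 1230186008 858993459 64424510 3 eng mog cd1q3 cd3q3 pd0 false true true .npn 3 0 3
    ndB1q3 ndB3q3 pcB0 Cut.none Ext.none :=
  certB0 (fam := false) (s1 := true) (s2 := true) (a := 3) (b := 0) (c := 3) (cn := .npn) (n1 := ndB1q3) (n2 := ndB3q3) (pc := pcB0) (cut := Cut.none) (xt := Ext.none) (P1 := 1610612736) (W1 := 536870912) (P2 := 0) (W2 := 1230186008) (P3 := 858993459) (W3 := 64424510) (N0 := 3) (En := eng) (mo := mog) (C1 := cd1q3) (C2 := cd3q3) (C3 := pd0)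
    rfl k0_pp_303

noncomputable def f_pp_313 : ℕ → ℕ → ℕ → ℕ → Bool := onCell 1610612736 536870912 0 1230186008 858993459 64424510
    (rowB 3 eng mog cd1q3 cd3q3 pd1 0 false true true .dn 3 1 3 (qsf 1610612736 536870912 0 1230186008 1) ndB1q3 ndB3q3 pcB1 Cut.none Ext.none)

def k0_pp_313 : ∃ t, chk3 f_pp_313 t 1 1 1 = true :=
  ⟨(b (l 3) (l 1)), by decide +kernel⟩

theorem c_pp_313 : CertB 1610612736 536870912 0 1230186008 858993459 64424510 3 eng mog cd1q3 cd3q3 pd1 false true true .dn 3 1 3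
    ndB1q3 ndB3q3 pcB1 Cut.none Ext.none :=
  certB0 (fam := false) (s1 := true) (s2 := true) (a := 3) (b := 1) (c := 3) (cn := .dn) (n1 := ndB1q3) (n2 := ndB3q3) (pc := pcB1) (cut := Cut.none) (xt := Ext.none) (P1 := 1610612736) (W1 := 536870912) (P2 := 0) (W2 := 1230186008) (P3 := 858993459) (W3 := 64424510) (N0 := 3) (En := eng) (mo := mog) (C1 := cd1q3) (C2 := cd3q3) (C3 := pd1)
    rfl k0_pp_313

noncomputable def f_pm_001 : ℕ → ℕ → ℕ → ℕ → Bool := onCell 0 536870912 536870912 536870912 858993459 64424510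
    (rowB 3 eng mog cd1q0 cd3q1 pd0 0 false true false .up 0 0 1 (qsf 0 536870912 536870912 536870912 0) ndB1q0 ndB3q1 pcB0 Cut.none Ext.none)

def k0_pm_001 : ∃ t, chk3 f_pm_001 t 1 1 1 = true :=
  ⟨(l 4), by decide +kernel⟩

theorem c_pm_001 : CertB 0 536870912 536870912 536870912 858993459 64424510 3 eng mog cd1q0 cd3q1 pd0 false true false .up 0 0 1
    ndB1q0 ndB3q1 pcB0 Cut.none Ext.none :=
  certB0 (fam := false) (s1 := true) (s2 := false) (a := 0) (b := 0) (c := 1) (cn := .up) (n1 := ndB1q0) (n2 := ndB3q1) (pc := pcB0) (cut := Cut.none) (xt := Ext.none) (P1 := 0) (W1 := 536870912) (P2 := 536870912) (W2 := 536870912) (P3 := 858993459) (W3 := 64424510) (N0 := 3) (En := eng) (mo := mog) (C1 := cd1q0) (C2 := cd3q1) (C3 := pd0)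
    rfl k0_pm_001

noncomputable def f_pm_011 : ℕ → ℕ → ℕ → ℕ → Bool := onCell 0 536870912 536870912 536870912 858993459 64424510
    (rowB 3 eng mog cd1q0 cd3q1 pd1 0 false true false .pnn 0 1 1 (qsf 0 536870912 536870912 536870912 1) ndB1q0 ndB3q1 pcB1 Cut.none Ext.none)

def k0_pm_011 : ∃ t, chk3 f_pm_011 t 1 1 1 = true :=
  ⟨(l 4), by decide +kernel⟩

theorem c_pm_011 : CertB 0 536870912 536870912 536870912 858993459 64424510 3 eng mog cd1q0 cd3q1 pd1 false true false .pnn 0 1 1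
    ndB1q0 ndB3q1 pcB1 Cut.none Ext.none :=
  certB0 (fam := false) (s1 := true) (s2 := false) (a := 0) (b := 1) (c := 1) (cn := .pnn) (n1 := ndB1q0) (n2 := ndB3q1) (pc := pcB1) (cut := Cut.none) (xt := Ext.none) (P1 := 0) (W1 := 536870912) (P2 := 536870912) (W2 := 536870912) (P3 := 858993459) (W3 := 64424510) (N0 := 3) (En := eng) (mo := mog) (C1 := cd1q0) (C2 := cd3q1) (C3 := pd1)
    rfl k0_pm_011

noncomputable def f_pm_012 : ℕ → ℕ → ℕ → ℕ → Bool := onCell 0 536870912 1073741824 536870912 858993459 64424510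
    (rowB 3 eng mog cd1q0 cd3q2 pd1 0 false true false .pnp 0 1 2 (qsf 0 536870912 1073741824 536870912 1) ndB1q0 ndB3q2 pcB1 Cut.none Ext.none)

def k0_pm_012 : ∃ t, chk3 f_pm_012 t 1 1 1 = true :=
  ⟨(l 4), by decide +kernel⟩

theorem c_pm_012 : CertB 0 536870912 1073741824 536870912 858993459 64424510 3 eng mog cd1q0 cd3q2 pd1 false true false .pnp 0 1 2
    ndB1q0 ndB3q2 pcB1 Cut.none Ext.none :=
  certB0 (fam := false) (s1 := true) (s2 := false) (a := 0) (b := 1) (c := 2) (cn := .pnp) (n1 := ndB1q0) (n2 := ndB3q2) (pc := pcB1) (cut := Cut.none) (xt := Ext.none) (P1 := 0) (W1 := 536870912) (P2 := 1073741824) (W2 := 536870912) (P3 := 858993459) (W3 := 64424510) (N0 := 3) (En := eng) (mo := mog) (C1 := cd1q0) (C2 := cd3q2) (C3 := pd1)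
    rfl k0_pm_012

noncomputable def f_pm_022 : ℕ → ℕ → ℕ → ℕ → Bool := onCell 0 536870912 1073741824 536870912 858993459 64424510
    (rowB 3 eng mog cd1q0 cd3q2 pd2 0 false true false .pp 0 2 2 (qsf 0 536870912 1073741824 536870912 2) ndB1q0 ndB3q2 pcB2 Cut.none Ext.none)

def k0_pm_022 : ∃ t, chk3 f_pm_022 t 1 1 1 = true :=
  ⟨(l 4), by decide +kernel⟩

theorem c_pm_022 : CertB 0 536870912 1073741824 536870912 858993459 64424510 3 eng mog cd1q0 cd3q2 pd2 false true false .pp 0 2 2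
    ndB1q0 ndB3q2 pcB2 Cut.none Ext.none :=
  certB0 (fam := false) (s1 := true) (s2 := false) (a := 0) (b := 2) (c := 2) (cn := .pp) (n1 := ndB1q0) (n2 := ndB3q2) (pc := pcB2) (cut := Cut.none) (xt := Ext.none) (P1 := 0) (W1 := 536870912) (P2 := 1073741824) (W2 := 536870912) (P3 := 858993459) (W3 := 64424510) (N0 := 3) (En := eng) (mo := mog) (C1 := cd1q0) (C2 := cd3q2) (C3 := pd2)
    rfl k0_pm_022

noncomputable def f_pm_023 : ℕ → ℕ → ℕ → ℕ → Bool := onCell 0 536870912 0 1230186008 858993459 64424510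
    (rowB 3 eng mog cd1q0 cd3q3 pd2 0 false true false .up 0 2 3 (qsf 0 536870912 0 1230186008 2) ndB1q0 ndB3q3 pcB2 Cut.none Ext.none)

def k0_pm_023 : ∃ t, chk3 f_pm_023 t 1 1 1 = true :=
  ⟨(b (b (a (l 2) (a (l 2) (a (l 2) (b (l 16106352) (l 4))))) (l 4)) (l 4)), by decide +kernel⟩

theorem c_pm_023 : CertB 0 536870912 0 1230186008 858993459 64424510 3 eng mog cd1q0 cd3q3 pd2 false true false .up 0 2 3
    ndB1q0 ndB3q3 pcB2 Cut.none Ext.none :=
  certB0 (fam := false) (s1 := true) (s2 := false) (a := 0) (b := 2) (c := 3) (cn := .up) (n1 := ndB1q0) (n2 := ndB3q3) (pc := pcB2) (cut := Cut.none) (xt := Ext.none) (P1 := 0) (W1 := 536870912) (P2 := 0) (W2 := 1230186008) (P3 := 858993459) (W3 := 64424510) (N0 := 3) (En := eng) (mo := mog) (C1 := cd1q0) (C2 := cd3q3) (C3 := pd2)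
    rfl k0_pm_023

noncomputable def f_pm_033 : ℕ → ℕ → ℕ → ℕ → Bool := onCell 0 536870912 0 1230186008 858993459 64424510
    (rowB 3 eng mog cd1q0 cd3q3 pd3 0 false true false .pnn 0 3 3 (qsf 0 536870912 0 1230186008 3) ndB1q0 ndB3q3 pcB3 Cut.none Ext.none)

def k0_pm_033 : ∃ t, chk3 f_pm_033 t 1 1 1 = true :=
  ⟨(b (a (l 4) (a (l 4) (b (a (l 4) (b (l 16017952) (l 4))) (l 4)))) (l 4)), by decide +kernel⟩

theorem c_pm_033 : CertB 0 536870912 0 1230186008 858993459 64424510 3 eng mog cd1q0 cd3q3 pd3 false true false .pnn 0 3 3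
    ndB1q0 ndB3q3 pcB3 Cut.none Ext.none :=
  certB0 (fam := false) (s1 := true) (s2 := false) (a := 0) (b := 3) (c := 3) (cn := .pnn) (n1 := ndB1q0) (n2 := ndB3q3) (pc := pcB3) (cut := Cut.none) (xt := Ext.none) (P1 := 0) (W1 := 536870912) (P2 := 0) (W2 := 1230186008) (P3 := 858993459) (W3 := 64424510) (N0 := 3) (En := eng) (mo := mog) (C1 := cd1q0) (C2 := cd3q3) (C3 := pd3)
    rfl k0_pm_033

noncomputable def f_pm_101 : ℕ → ℕ → ℕ → ℕ → Bool := onCell 536870912 536870912 536870912 536870912 858993459 64424510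
    (rowB 3 eng mog cd1q1 cd3q1 pd0 0 false true false .npn 1 0 1 (qsf 536870912 536870912 536870912 536870912 0) ndB1q1 ndB3q1 pcB0 Cut.none Ext.none)

def k0_pm_101 : ∃ t, chk3 f_pm_101 t 1 1 1 = true :=
  ⟨(l 4), by decide +kernel⟩

theorem c_pm_101 : CertB 536870912 536870912 536870912 536870912 858993459 64424510 3 eng mog cd1q1 cd3q1 pd0 false true false .npn 1 0 1
    ndB1q1 ndB3q1 pcB0 Cut.none Ext.none :=
  certB0 (fam := false) (s1 := true) (s2 := false) (a := 1) (b := 0) (c := 1) (cn := .npn) (n1 := ndB1q1) (n2 := ndB3q1) (pc := pcB0) (cut := Cut.none) (xt := Ext.none) (P1 := 536870912) (W1 := 536870912) (P2 := 536870912) (W2 := 536870912) (P3 := 858993459) (W3 := 64424510) (N0 := 3) (En := eng) (mo := mog) (C1 := cd1q1) (C2 := cd3q1) (C3 := pd0)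
    rfl k0_pm_101

noncomputable def f_pm_102 : ℕ → ℕ → ℕ → ℕ → Bool := onCell 536870912 536870912 0 536870912 858993459 64424510
    (rowB 3 eng mog cd1q1 cd3q2 pd0 1 false true false .npp 1 0 2 (qsf 536870912 536870912 1073741824 536870912 0) ndB1q1 ndB3q2 pcB0 Cut.none Ext.none)

def k0_pm_102 : ∃ t, chk3 f_pm_102 t 1 1 1 = true :=
  ⟨(b (l 4) (a (l 4) (b (l 4) (b (l 4) (a (l 4) (a (l 4) (b (l 4) (l 15236168)))))))), by decide +kernel⟩

theorem c_pm_102 : CertB 536870912 536870912 1073741824 536870912 858993459 64424510 3 eng mog cd1q1 cd3q2 pd0 false true false .npp 1 0 2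
    ndB1q1 ndB3q2 pcB0 Cut.none Ext.none :=
  certB1 (fam := false) (s1 := true) (s2 := false) (a := 1) (b := 0) (c := 2) (cn := .npp) (n1 := ndB1q1) (n2 := ndB3q2) (pc := pcB0) (cut := Cut.none) (xt := Ext.none) (P1 := 536870912) (W1 := 536870912) (P2 := 1073741824) (W2 := 536870912) (P3 := 858993459) (W3 := 64424510) (N0 := 3) (En := eng) (mo := mog) (C1 := cd1q1) (C2 := cd3q2) (C3 := pd0)
    rfl (fun _ => rfl) k0_pm_102

noncomputable def f_pm_112 : ℕ → ℕ → ℕ → ℕ → Bool := onCell 536870912 536870912 1073741824 536870912 858993459 64424510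
    (rowB 3 eng mog cd1q1 cd3q2 pd1 0 false true false .dn 1 1 2 (qsf 536870912 536870912 1073741824 536870912 1) ndB1q1 ndB3q2 pcB1 Cut.none Ext.none)

def k0_pm_112 : ∃ t, chk3 f_pm_112 t 1 1 1 = true :=
  ⟨(a (l 4) (b (l 4) (a (l 4) (b (l 4) (a (l 4) (b (l 4) (l 15255344))))))), by decide +kernel⟩

theorem c_pm_112 : CertB 536870912 536870912 1073741824 536870912 858993459 64424510 3 eng mog cd1q1 cd3q2 pd1 false true false .dn 1 1 2
    ndB1q1 ndB3q2 pcB1 Cut.none Ext.none :=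
  certB0 (fam := false) (s1 := true) (s2 := false) (a := 1) (b := 1) (c := 2) (cn := .dn) (n1 := ndB1q1) (n2 := ndB3q2) (pc := pcB1) (cut := Cut.none) (xt := Ext.none) (P1 := 536870912) (W1 := 536870912) (P2 := 1073741824) (W2 := 536870912) (P3 := 858993459) (W3 := 64424510) (N0 := 3) (En := eng) (mo := mog) (C1 := cd1q1) (C2 := cd3q2) (C3 := pd1)
    rfl k0_pm_112

noncomputable def f_pm_113 : ℕ → ℕ → ℕ → ℕ → Bool := onCell 536870912 536870912 0 1230186008 858993459 64424510
    (rowB 3 eng mog cd1q1 cd3q3 pd1 0 false true false .nn 1 1 3 (qsf 536870912 536870912 0 1230186008 1) ndB1q1 ndB3q3 pcB1 Cut.none Ext.none)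

def k0_pm_113 : ∃ t, chk3 f_pm_113 t 1 1 1 = true :=
  ⟨(a (b (l 2) (b (b (l 2) (l 4)) (l 4))) (a (b (l 2) (b (b (a (l 2) (c (l 15888464) (l 15495944))) (a (c (l 105995869287) (b (l 14759688) (l 4))) (b (l 15682520) (c (l 15857520) (l 15312664))))) (b (a (l 4) (b (c (l 15724568) (l 15327064)) (l 4))) (l 4)))) (b (b (a (l 2) (a (l 2) (b (l 16648768) (l 16581448)))) (a (b (l 630385570311) (l 15912624)) (b (l 16440920) (l 16394672)))) (b (b (a (c (l 16143392) (l 15948984)) (c (l 16383152) (l 16384480))) (a (b (l 16089320) (c (l 16273432) (l 15818536))) (b (l 16418320) (l 16285376)))) (b (a (b (c (l 16034560) (l 15652928)) (l 15707472)) (b (c (l 16271848) (l 15875816)) (a (l 15813440) (l 15857544)))) (a (b (a (l 4) (l 15649296)) (l 4)) (b (a (l 15686040) (l 15708464)) (l 15655184)))))))), by decide +kernel⟩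

theorem c_pm_113 : CertB 536870912 536870912 0 1230186008 858993459 64424510 3 eng mog cd1q1 cd3q3 pd1 false true false .nn 1 1 3
    ndB1q1 ndB3q3 pcB1 Cut.none Ext.none :=
  certB0 (fam := false) (s1 := true) (s2 := false) (a := 1) (b := 1) (c := 3) (cn := .nn) (n1 := ndB1q1) (n2 := ndB3q3) (pc := pcB1) (cut := Cut.none) (xt := Ext.none) (P1 := 536870912) (W1 := 536870912) (P2 := 0) (W2 := 1230186008) (P3 := 858993459) (W3 := 64424510) (N0 := 3) (En := eng) (mo := mog) (C1 := cd1q1) (C2 := cd3q3) (C3 := pd1)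
    rfl k0_pm_113

noncomputable def f_pm_123 : ℕ → ℕ → ℕ → ℕ → Bool := onCell 1073741824 536870912 0 1230186008 858993459 64424510
    (rowB 3 eng mog cd1q1 cd3q3 pd2 2 false true false .npn 1 2 3 (qsf 536870912 536870912 0 1230186008 2) ndB1q1 ndB3q3 pcB2 Cut.none Ext.none)

def k0_pm_123 : ∃ t, chk3 f_pm_123 t 1 1 1 = true :=
  ⟨(b (b (a (a (a (b (l 16696048) (l 16796232)) (b (l 16506840) (l 16378344))) (a (c (l 16354688) (l 16189112)) (c (l 16299472) (l 16037464)))) (a (a (c (l 16298216) (l 15948200)) (c (l 16340728) (l 15917048))) (a (c (l 16417552) (l 15915544)) (c (l 16510488) (a (l 15977272) (l 16011720)))))) (a (a (a (b (a (l 16439976) (l 16324328)) (a (l 16130224) (l 16040488))) (b (l 16194632) (c (l 16098720) (l 15791336)))) (a (c (b (l 16223176) (l 16091456)) (b (l 15941800) (l 15681728))) (c (b (l 16221744) (l 16142888)) (b (l 15842840) (l 15647312))))) (a (a (c (c (l 16374208) (l 15898288)) (b (l 15809192) (l 15674384))) (b (c (l 16350896)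 (l 15833552)) (l 4))) (a (b (c (l 16438736) (l 15889192)) (l 4)) (l 4))))) (b (a (a (a (b (c (l 15930232) (a (l 15573944) (l 15453648))) (a (b (l 15244328) (l 4)) (l 4))) (b (c (l 32981692311) (a (l 15385792) (l 15367424))) (l 4))) (a (b (c (l 15756392) (l 15369128)) (l 4)) (l 4))) (l 4)) (l 4))), by decide +kernel⟩

theorem c_pm_123 : CertB 536870912 536870912 0 1230186008 858993459 64424510 3 eng mog cd1q1 cd3q3 pd2 false true false .npn 1 2 3
    ndB1q1 ndB3q3 pcB2 Cut.none Ext.none :=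
  certB2 (fam := false) (s1 := true) (s2 := false) (a := 1) (b := 2) (c := 3) (cn := .npn) (n1 := ndB1q1) (n2 := ndB3q3) (pc := pcB2) (cut := Cut.none) (xt := Ext.none) (P1 := 536870912) (W1 := 536870912) (P2 := 0) (W2 := 1230186008) (P3 := 858993459) (W3 := 64424510) (N0 := 3) (En := eng) (mo := mog) (C1 := cd1q1) (C2 := cd3q3) (C3 := pd2)
    rfl (fun _ => rfl) k0_pm_123

noncomputable def f_pm_133 : ℕ → ℕ → ℕ → ℕ → Bool := onCell 1610612736 536870912 0 1230186008 858993459 64424510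
    (rowB 3 eng mog cd1q1 cd3q3 pd3 2 false true false .dn 1 3 3 (qsf 536870912 536870912 0 1230186008 3) ndB1q1 ndB3q3 pcB3 Cut.none Ext.none)

def k0_pm_133 : ∃ t, chk3 f_pm_133 t 1 1 1 = true :=
  ⟨(b (b (a (a (a (c (l 16618296) (l 345239643463)) (l 1)) (l 1)) (l 1)) (l 1)) (l 1)), by decide +kernel⟩

theorem c_pm_133 : CertB 536870912 536870912 0 1230186008 858993459 64424510 3 eng mog cd1q1 cd3q3 pd3 false true false .dn 1 3 3
    ndB1q1 ndB3q3 pcB3 Cut.none Ext.none :=
  certB2 (fam := false) (s1 := true) (s2 := false) (a := 1) (b := 3) (c := 3) (cn := .dn) (n1 := ndB1q1) (n2 := ndB3q3) (pc := pcB3) (cut := Cut.none) (xt := Ext.none) (P1 := 536870912) (W1 := 536870912) (P2 := 0) (W2 := 1230186008) (P3 := 858993459) (W3 := 64424510) (N0 := 3) (En := eng) (mo := mog) (C1 := cd1q1) (C2 := cd3q3) (C3 := pd3)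
    rfl (fun _ => rfl) k0_pm_133

noncomputable def f_pm_202_a : ℕ → ℕ → ℕ → ℕ → Bool := onCell 0 536870912 0 536870912 858993459 64424510
    (rowB 3 eng mog cd1q2a cd3q2 pd0 1 false true false .pp 2 0 2 (qsf 0 536870912 1073741824 536870912 0) ndB1q2a ndB3q2 pcB0 Cut.none Ext.none)

def k0_pm_202_a : ∃ t, chk3 f_pm_202_a t 2 2 1 = true :=
  ⟨(a (a (b (b (b (b (l 16470240) (c (l 16440528) (l 16406792))) (b (c (l 16423672) (l 16407736)) (l 16448680))) (b (c (l 16331176) (l 16448696)) (b (l 16161616) (c (l 16285064) (l 16378648))))) (b (b (b (l 16087744) (l 16102296)) (c (b (l 16264216) (l 16259680)) (l 16353472))) (b (c (b (l 16254072) (l 16247744)) (l 16338616)) (a (l 16478936) (a (l 16273656) (c (l 16231744) (l 16313904))))))) (b (b (b (c (l 16393176) (l 16462328)) (b (l 16419088) (c (l 16375712) (l 16465272)))) (b (b (c (l 16198176) (l 16436632)) (l 16116528)) (b (l 16100944) (c (l 16220840) (l 16329648))))) (b (b (c (b (l 16230648) (l 16224496)) (l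 16315624)) (c (l 16302008) (l 16303984))) (b (c (l 16213224) (l 16297128)) (c (b (l 16212424) (l 16211344)) (l 16080856)))))) (b (a (b (b (c (l 16342448) (l 16397536)) (c (l 16321888) (l 16392648))) (b (b (l 16107808) (c (a (l 16279784) (l 16252472)) (l 16353288))) (b (c (l 16225480) (l 16310552)) (c (l 16172144) (l 16277968))))) (b (b (c (l 16284328) (l 16326888)) (c (l 16256096) (l 16313520))) (b (c (l 16216576) (l 16287088)) (b (c (l 16166536) (l 16244168)) (b (c (l 16142160) (l 16223488)) (a (l 16179624) (l 16141928))))))) (c (b (b (b (a (l 16180080) (a (l 16134464) (l 16100064))) (a (l 16173432) (l 16109280))) (b (l 16284584) (l 16217368))) (b (a (l 16161216) (l 16096016)) (a (l 16158696) (l 16089256)))) (b (b (b (a (l 16264192) (l 16199944)) (l 16099200)) (a (l 16249896) (l 16187648))) (b (l 15981952) (a (l 16236304) (l 16168048))))))), by decide +kernel⟩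

def k1_pm_202_a : ∃ t, chk3 f_pm_202_a t 2 3 1 = true :=
  ⟨(b (b (a (a (c (b (l 16226872) (l 16222840)) (b (l 16304640) (l 16293968))) (b (c (a (l 16214504) (l 16202024)) (l 16155344)) (c (l 16205496) (l 16273232)))) (a (b (c (l 16162952) (l 16235128)) (c (a (l 16185488) (l 16159736)) (l 16029048))) (c (b (l 16087208) (l 16097568)) (b (l 16158264) (l 16163128))))) (b (a (c (a (a (l 16228744) (l 16220776)) (l 16206424)) (a (l 16289136) (l 16266696))) (a (c (l 16409368) (l 16217904)) (c (l 16118264) (l 16179368)))) (a (b (c (a (l 16229656) (l 16210976)) (l 197131576919)) (l 2)) (a (l 16210568) (c (a (l 16158848) (l 16122152)) (a (l 16213656) (l 16178032))))))) (b (a (l 2) (a (l 2) (b (c (l 16326544) (l 672799276679)) (l 2)))) (l 2))), by decide +kernel⟩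

def k2_pm_202_a : ∃ t, chk3 f_pm_202_a t 6 2 1 = true :=
  ⟨(b (a (b (b (c (a (l 16232176) (l 16319912)) (l 16244304)) (c (a (l 16196224) (l 16151872)) (l 16219128))) (b (c (b (l 16146712) (l 16116016)) (l 16189248)) (b (c (l 16083000) (l 16148712)) (c (b (l 16056600) (l 16041096)) (l 16120376))))) (b (a (b (b (c (a (l 16176680) (l 16156400)) (l 16175336)) (l 16167096)) (c (l 16104184) (l 16129712))) (b (b (c (l 16114248) (l 16112816)) (c (a (l 16102304) (l 16077152)) (l 16134760))) (b (c (l 16059504) (l 16065896)) (l 16064880)))) (b (c (b (l 16044280) (l 16014952)) (l 16060624)) (b (c (l 15983440) (l 16022896)) (c (b (l 15958240) (l 15942880)) (l 15996096)))))) (b (b (a (b (c (l 16034112) (l 16110344)) (c (a (l 16051872) (l 16002744)) (l 16111280))) (b (c (l 15932448) (l 15983128)) (c (l 15921680) (l 15978240)))) (a (b (c (a (l 16044488) (l 15999880)) (l 16107728)) (c (l 16100016) (l 16103184))) (b (c (l 15914712) (l 15977560)) (c (l 15912296) (l 15982256)))))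 (b (a (c (l 16202032) (l 16101976)) (c (b (l 16121312) (l 16117416)) (b (l 15987880) (l 15987560)))) (a (c (l 16000480) (l 16082848)) (b (c (l 15897144) (l 15974472)) (l 15979488)))))), by decide +kernel⟩

def k3_pm_202_a : ∃ t, chk3 f_pm_202_a t 7 4 1 = true :=
  ⟨(a (b (b (a (b (c (l 16049224) (l 16035144)) (c (l 16026824) (l 16016304))) (b (c (a (l 16001552) (l 15968720)) (l 15950888)) (c (l 15963304) (l 15933096)))) (c (a (b (a (l 16020472) (l 15986728)) (a (l 15990840) (l 15962776))) (b (l 15939880) (l 15915328))) (a (b (l 15999120) (l 15971384)) (l 15901720)))) (b (c (a (b (l 15950368) (l 15924224)) (b (a (l 15905488) (l 15873776)) (a (l 15878664) (l 15846624)))) (a (b (l 15951040) (l 15931176)) (b (l 15869904) (l 15840144)))) (b (c (a (l 15894440) (l 15835032)) (l 15864648)) (c (a (l 15863504) (l 15805424)) (a (l 15882080) (l 15796416)))))) (b (b (a (b (b (a (l 15954016) (c (l 15903304) (l 15836072))) (c (l 15911152) (l 15853400))) (c (a (l 15912456)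 (l 15876552)) (l 15840672))) (a (b (b (a (c (l 15874944) (l 15797176)) (c (l 15855456) (l 15770352))) (c (l 15854968) (l 15776656))) (c (l 15839088) (l 15764848))) (a (b (b (b (c (l 15838064) (l 15744496)) (l 15829144)) (c (l 15825544) (l 15736088))) (c (l 15810200) (l 15724984))) (b (c (b (a (l 15883288) (l 15810400)) (l 15805808)) (b (c (l 15740112) (l 15689424)) (l 15708520))) (c (l 15791016) (l 15698048)))))) (b (a (c (l 15871968) (l 15821720)) (c (a (l 15817144) (l 15842528)) (a (l 15747256) (l 15695176)))) (a (c (l 15848136) (l 15800592)) (c (a (l 15794216) (l 15757528)) (l 15786032))))) (b (a (c (b (l 15823400) (l 15799672)) (b (l 15777464) (l 15754528))) (c (b (a (l 15770400) (l 15734504)) (l 15791216)) (b (l 15680880) (l 15657768)))) (b (a (c (a (l 15786824) (l 15756304)) (l 15729208)) (c (l 15703544) (l 15633016))) (a (c (a (l 15759960) (l 15726888)) (l 15741352)) (c (a (l 15696520) (l 15661616)) (l 15609376))))))), by decide +kernel⟩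

def k4_pm_202_a : ∃ t, chk3 f_pm_202_a t 7 5 1 = true :=
  ⟨(b (b (a (b (c (a (l 15842112) (l 15782032)) (l 15823296)) (c (a (l 15827480) (l 15764520)) (l 15813024))) (a (b (c (l 15718920) (l 15682224)) (c (l 15698408) (l 15667176))) (b (c (a (l 15668408) (l 15638384)) (l 15582992)) (c (a (l 15646792) (l 15611616)) (l 15556944))))) (b (a (c (l 15889544) (l 15807224)) (c (a (l 15682328) (l 15610568)) (l 15601456))) (a (c (l 15776768) (l 15805848)) (c (a (l 15670568) (l 15596144)) (l 15593976))))) (b (a (c (b (l 15772600) (l 15771896)) (b (l 15808800) (l 15815928))) (c (b (a (l 15662936) (l 15586096)) (a (l 15659184) (l 15580184))) (a (l 15651424) (l 15531576)))) (a (c (a (b (l 15803224) (l 15787416)) (b (l 15730248) (l 15717744))) (b (a (l 15865176) (l 15763368)) (l 16051624))) (c (b (a (l 15653648) (l 15574144)) (l 15603264)) (b (l 15591104) (l 15578832)))))), by decide +kernel⟩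

def k5_pm_202_a : ∃ t, chk3 f_pm_202_a t 3 3 1 = true :=
  ⟨(b (a (b (c (a (b (l 15990152) (l 15995168)) (b (l 15872872) (l 15870352))) (a (b (l 16061280) (l 16058472)) (b (l 15930856) (l 15916728)))) (c (a (b (l 16012496) (l 16039856)) (b (l 15883048) (l 15908584))) (a (b (l 16069984) (l 16092536)) (b (l 15920960) (l 15940128))))) (b (a (b (c (a (l 15768768) (l 15929752)) (a (l 15810864) (l 15718520))) (c (l 15723120) (l 15737752))) (b (c (a (l 15627104) (l 15551080)) (a (l 15615208) (l 15500136))) (c (a (l 15649776) (l 15642792)) (a (l 15579776) (l 15472984))))) (a (c (b (l 15729808) (l 15752296)) (b (l 15731712) (l 15744664))) (b (c (a (l 15610272) (l 15717216)) (a (l 15565752) (l 15443368))) (c (l 15588680) (l 15510016)))))) (a (b (a (b (c (l 16075424) (l 16123496)) (l 2)) (c (l 16155080) (b (l 15971000) (l 16010448)))) (l 2)) (b (a (c (b (l 15788096) (l 15834792)) (b (l 15773152) (l 15813944))) (c (b (l 15624192) (l 15673184)) (b (l 15534272) (l 15574408))))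 (a (c (l 16130256) (b (l 15863936) (l 2))) (c (b (l 15733112) (l 15801504)) (b (l 15627160) (l 15689432))))))), by decide +kernel⟩

theorem s6_pm_202_a : ∃ t, chk3 f_pm_202_a t 7 2 1 = true := ex3_b k3_pm_202_a k4_pm_202_a

theorem s7_pm_202_a : ∃ t, chk3 f_pm_202_a t 3 2 1 = true := ex3_a k2_pm_202_a s6_pm_202_a

theorem s8_pm_202_a : ∃ t, chk3 f_pm_202_a t 3 1 1 = true := ex3_b s7_pm_202_a k5_pm_202_a

theorem s9_pm_202_a : ∃ t, chk3 f_pm_202_a t 2 1 1 = true := ex3_b k0_pm_202_a k1_pm_202_a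

theorem s10_pm_202_a : ∃ t, chk3 f_pm_202_a t 1 1 1 = true := ex3_a s9_pm_202_a s8_pm_202_a

theorem c_pm_202_a : CertB 0 536870912 1073741824 536870912 858993459 64424510 3 eng mog cd1q2a cd3q2 pd0 false true false .pp 2 0 2
    ndB1q2a ndB3q2 pcB0 Cut.none Ext.none :=
  certB1 (fam := false) (s1 := true) (s2 := false) (a := 2) (b := 0) (c := 2) (cn := .pp) (n1 := ndB1q2a) (n2 := ndB3q2) (pc := pcB0) (cut := Cut.none) (xt := Ext.none) (P1 := 0) (W1 := 536870912) (P2 := 1073741824) (W2 := 536870912) (P3 := 858993459) (W3 := 64424510) (N0 := 3) (En := eng) (mo := mog) (C1 := cd1q2a) (C2 := cd3q2) (C3 := pd0)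
    rfl (fun _ => rfl) s10_pm_202_a

noncomputable def f_pm_202_b : ℕ → ℕ → ℕ → ℕ → Bool := onCell 0 536870912 1073741824 536870912 858993459 64424510
    (rowB 3 eng mog cd1q2b cd3q2 pd0 2 false true false .pp 2 0 2 (qsf 1239849684 370763052 1073741824 536870912 0) ndB1q2b ndB3q2 pcB0 Cut.none Ext.none)

def k0_pm_202_b : ∃ t, chk3 f_pm_202_b t 2 2 1 = true :=
  ⟨(a (b (l 1) (b (a (b (a (c (l 16539536) (l 16446680)) (l 1)) (a (c (c (l 16443992) (l 16430376)) (l 16359696)) (c (l 237329444359) (l 16449336)))) (l 1)) (a (a (c (b (l 16386712) (l 16326464)) (a (l 16231128) (l 16278320))) (c (b (l 16422072) (l 16359808)) (l 16356632))) (a (c (b (l 233571157159) (l 16110144)) (l 201895937575)) (a (c (l 232497323495) (l 16298560)) (l 1)))))) (l 1)), by decide +kernel⟩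

def k1_pm_202_b : ∃ t, chk3 f_pm_202_b t 2 3 1 = true :=
  ⟨(a (b (a (b (c (a (l 16229200) (l 16268256)) (a (l 16120224) (l 16234128))) (c (a (l 16099808) (l 16151616)) (a (b (l 16025376) (l 15941112)) (l 16047688)))) (a (b (c (b (l 16314240) (l 16265928)) (l 16372640)) (b (l 16202176) (a (l 16205080) (l 16225280)))) (b (a (b (l 258267062055) (l 16239456)) (c (b (l 16288952) (l 16282008)) (l 16395856))) (b (c (l 16076992) (l 16343120)) (c (l 16206216) (l 16302040)))))) (b (a (c (a (a (l 15758848) (l 15824832)) (b (l 16025496) (l 16017104))) (c (a (b (l 15907424) (l 15883520)) (l 15888160)) (a (b (l 15865320) (l 15697344)) (b (l 15929472) (l 15892448))))) (b (a (c (l 16122016) (l 16149816)) (l 16124328)) (c (a (l 16078232) (l 16128968)) (a (l 16024488) (l 16213840))))) (b (a (l 3) (b (a (l 158542764343) (l 100560929607)) (l 3))) (l 3)))) (b (a (b (b (a (c (a (l 16309488) (l 1)) (l 16289616)) (l 1)) (a (c (l 223907248999) (l 16390176)) (c (a (l 16294376)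 (l 1)) (l 16400016)))) (a (c (b (l 16245232) (l 16233512)) (l 16198368)) (c (b (c (l 16363624) (l 16300472)) (l 16251344)) (b (l 16376464) (l 16344240))))) (b (l 1) (b (a (c (b (l 1) (l 16273584)) (l 16340344)) (l 1)) (c (a (l 16321096) (l 225518587655)) (a (l 16352192) (l 16353200)))))) (a (b (c (a (l 15995216) (b (l 16223336) (l 16199120))) (b (l 16301840) (l 16142848))) (b (c (a (l 16142368) (l 16178632)) (a (l 16218672) (l 16254600))) (l 3))) (b (c (a (b (l 16237736) (l 16219496)) (b (l 16262824) (l 16230872))) (a (l 16313600) (b (l 16330632) (l 16312464)))) (c (a (b (l 16205000) (l 16194200)) (b (l 16222008) (l 16216816))) (a (b (l 16280976) (l 16262392)) (b (l 16297672) (l 16285416)))))))), by decide +kernel⟩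

def k2_pm_202_b : ∃ t, chk3 f_pm_202_b t 3 1 1 = true :=
  ⟨(b (l 1) (a (b (l 1) (b (a (b (a (c (l 231424101911) (l 16329344)) (l 1)) (c (a (l 160020229671) (l 234108420295)) (a (l 16315016) (l 271689279591)))) (l 1)) (b (a (c (a (l 16230240) (c (l 16214184) (l 16245496))) (a (l 16305224) (l 16347248))) (a (a (c (l 225518392263) (l 16301864)) (l 1)) (l 1))) (a (c (a (l 16230320) (l 16256288)) (a (l 16298952) (l 16303608))) (a (c (c (l 125660368263) (l 16246400)) (c (l 16281352) (l 16322928))) (b (l 1) (c (l 267394319703) (l 264710170823)))))))) (l 1))), by decide +kernel⟩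

theorem s3_pm_202_b : ∃ t, chk3 f_pm_202_b t 2 1 1 = true := ex3_b k0_pm_202_b k1_pm_202_b

theorem s4_pm_202_b : ∃ t, chk3 f_pm_202_b t 1 1 1 = true := ex3_a s3_pm_202_b k2_pm_202_b

theorem c_pm_202_b : CertB 1239849684 370763052 1073741824 536870912 858993459 64424510 3 eng mog cd1q2b cd3q2 pd0 false true false .pp 2 0 2
    ndB1q2b ndB3q2 pcB0 Cut.none Ext.none :=
  certB2 (fam := false) (s1 := true) (s2 := false) (a := 2) (b := 0) (c := 2) (cn := .pp) (n1 := ndB1q2b) (n2 := ndB3q2) (pc := pcB0) (cut := Cut.none) (xt := Ext.none) (P1 := 1239849684) (W1 := 370763052) (P2 := 1073741824) (W2 := 536870912) (P3 := 858993459) (W3 := 64424510) (N0 := 3) (En := eng) (mo := mog) (C1 := cd1q2b) (C2 := cd3q2) (C3 := pd0)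
    rfl (fun _ => rfl) s4_pm_202_b

noncomputable def f_pm_203_a : ℕ → ℕ → ℕ → ℕ → Bool := onCell 0 536870912 0 1230186008 858993459 64424510
    (rowB 3 eng mog cd1q2a cd3q3 pd0 0 false true false .up 2 0 3 (qsf 0 536870912 0 1230186008 0) ndB1q2a ndB3q3 pcB0 Cut.none Ext.none)

def k0_pm_203_a : ∃ t, chk3 f_pm_203_a t 1 1 1 = true :=
  ⟨(b (l 2) (b (l 2) (b (a (b (l 2) (b (a (l 2) (l 2)) (a (a (l 3) (c (a (l 16516008) (l 16503240)) (l 221894789431))) (a (c (l 16479800) (l 16501848)) (l 16458224))))) (l 2)) (a (b (a (c (a (b (l 260012700039) (c (l 224042455943) (l 219210647655))) (b (c (l 16455568) (l 16474016)) (c (l 16395720) (l 16421600)))) (b (a (l 262160251863) (l 16502400)) (a (a (l 259475848103) (l 16481984)) (l 16464448)))) (b (a (c (l 16437920) (l 16476920)) (l 16430696)) (a (c (l 16387048) (l 16443760)) (l 16394600)))) (a (b (c (a (b (l 209546837783) (l 31842480663)) (l 16342352)) (a (b (l 222968699383) (l 16445408)) (l 16417240))) (c (a (b (l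 16305928) (l 16266184)) (l 16269432)) (a (b (l 16393904) (l 16360296)) (l 16359152)))) (b (c (a (l 16326664) (l 16312920)) (l 16396056)) (a (c (l 16259112) (l 16348240)) (c (l 16031592) (l 16354272)))))) (a (b (a (b (l 16398424) (c (l 16342520) (l 16407968))) (b (l 2) (a (l 16366416) (l 16374976)))) (a (b (c (l 16316904) (l 16399968)) (c (l 16309024) (l 16410360))) (b (l 16153000) (c (l 16389248) (l 16404064))))) (b (a (b (l 2) (l 16151624)) (l 2)) (a (b (l 16054472) (c (l 16354888) (l 16251920))) (c (l 137538384055) (b (l 16065560) (l 16043864)))))))))), by decide +kernel⟩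

theorem c_pm_203_a : CertB 0 536870912 0 1230186008 858993459 64424510 3 eng mog cd1q2a cd3q3 pd0 false true false .up 2 0 3
    ndB1q2a ndB3q3 pcB0 Cut.none Ext.none :=
  certB0 (fam := false) (s1 := true) (s2 := false) (a := 2) (b := 0) (c := 3) (cn := .up) (n1 := ndB1q2a) (n2 := ndB3q3) (pc := pcB0) (cut := Cut.none) (xt := Ext.none) (P1 := 0) (W1 := 536870912) (P2 := 0) (W2 := 1230186008) (P3 := 858993459) (W3 := 64424510) (N0 := 3) (En := eng) (mo := mog) (C1 := cd1q2a) (C2 := cd3q3) (C3 := pd0)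
    rfl k0_pm_203_a

noncomputable def f_pm_203_b : ℕ → ℕ → ℕ → ℕ → Bool := onCell 1239849684 370763052 0 1230186008 858993459 64424510
    (rowB 3 eng mog cd1q2b cd3q3 pd0 0 false true false .up 2 0 3 (qsf 1239849684 370763052 0 1230186008 0) ndB1q2b ndB3q3 pcB0 Cut.none Ext.none)

def k0_pm_203_b : ∃ t, chk3 f_pm_203_b t 1 1 1 = true :=
  ⟨(b (l 3) (b (l 3) (b (l 3) (a (a (b (l 3) (a (a (b (b (l 3) (c (l 16335808) (l 16480552))) (c (b (l 16297360) (l 16256416)) (b (l 16385896) (l 16350496)))) (b (l 3) (c (c (l 16217616) (l 16256472)) (b (l 16344248) (l 16306664))))) (a (b (l 3) (b (l 3) (c (l 16172720) (l 16259960)))) (l 3)))) (l 3)) (l 3))))), by decide +kernel⟩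

theorem c_pm_203_b : CertB 1239849684 370763052 0 1230186008 858993459 64424510 3 eng mog cd1q2b cd3q3 pd0 false true false .up 2 0 3
    ndB1q2b ndB3q3 pcB0 Cut.none Ext.none :=
  certB0 (fam := false) (s1 := true) (s2 := false) (a := 2) (b := 0) (c := 3) (cn := .up) (n1 := ndB1q2b) (n2 := ndB3q3) (pc := pcB0) (cut := Cut.none) (xt := Ext.none) (P1 := 1239849684) (W1 := 370763052) (P2 := 0) (W2 := 1230186008) (P3 := 858993459) (W3 := 64424510) (N0 := 3) (En := eng) (mo := mog) (C1 := cd1q2b) (C2 := cd3q3) (C3 := pd0)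
    rfl k0_pm_203_b

noncomputable def cut_pm_213_a : Cut := Cut.of [[⟨0, 1, 0, 67108864⟩, ⟨1, 1, 0, 67108864⟩, ⟨2, 2, 0, 16777216⟩]]

noncomputable def f_pm_213_a : ℕ → ℕ → ℕ → ℕ → Bool := onCell 0 536870912 0 1230186008 858993459 64424510
    (rowB 3 eng mog cd1q2a cd3q3 pd1 0 false true false .pnn 2 1 3 (qsf 0 536870912 0 1230186008 1) ndB1q2a ndB3q3 pcB1 cut_pm_213_a Ext.none)

def k0_pm_213_a : ∃ t, chk3 f_pm_213_a t 2 2 1 = true :=
  ⟨(b (l 3) (l 3)), by decide +kernel⟩

def k1_pm_213_a : ∃ t, chk3 f_pm_213_a t 3 4 1 = true :=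
  ⟨(a (l 3) (a (b (l 3) (b (a (l 3) (a (l 3) (l 6))) (a (l 3) (c (b (a (l 297594227799) (a (l 227264093495) (l 16747616))) (a (l 203641876423) (l 16770152))) (b (a (l 345375758487) (a (l 255718290503) (l 16772592))) (a (l 220821708823) (l 16772504))))))) (b (l 6) (a (a (b (l 6) (b (c (l 16769792) (l 16770680)) (l 16802224))) (b (l 6) (b (l 16791128) (l 16770632)))) (b (a (l 6) (l 6)) (a (c (l 16771952) (l 16768784)) (b (l 16770224) (l 16771168)))))))), by decide +kernel⟩

def k2_pm_213_a : ∃ t, chk3 f_pm_213_a t 3 5 1 = true :=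
  ⟨(a (b (a (l 3) (b (l 3) (a (l 3) (c (b (l 225653582887) (l 151565456567)) (b (l 250349606343) (a (l 173040255111) (l 16773744))))))) (a (b (l 3) (a (l 3) (b (a (l 3) (l 204715657143)) (c (l 192367602023) (a (l 3) (l 16693920)))))) (b (a (b (a (l 3) (l 220284939479)) (c (l 167671557863) (l 146733574087))) (b (c (a (l 16758960) (l 16761968)) (a (l 16771688) (l 16767816))) (c (l 16789352) (l 16762168)))) (b (a (c (l 152102240039) (l 129553635255)) (c (l 16798448) (l 16752160))) (a (c (l 16773808) (l 16696528)) (c (l 16808944) (l 16708992))))))) (a (b (b (b (a (a (l 3) (c (l 195588735799) (l 221358543687))) (a (c (l 16770592) (l 16774864)) (l 16814448))) (a (a (c (l 226190329495) (l 240685894279)) (c (l 16769768) (l 16775544))) (c (l 16776360) (l 16771376)))) (a (b (a (c (l 16750744) (l 16775056)) (c (l 16774296) (l 16771904))) (c (l 16800344) (l 16768672))) (b (c (l 16781792) (l 16768704)) (c (l 16788768) (l 16764864))))) (b (b (a (c (l 16786960) (l 16762424))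 (c (l 16797256) (l 16759096))) (a (c (l 16796416) (l 16754336)) (c (l 16807872) (l 16751792)))) (c (a (b (l 16807328) (l 16819920)) (l 16806584)) (a (b (l 16744440) (l 16732024)) (l 16736304))))) (c (b (b (a (b (l 16776104) (l 16781192)) (l 16780000)) (a (b (l 16787608) (l 16796240)) (l 16794208))) (b (a (l 16707136) (l 16815880)) (a (l 16839352) (l 16847576)))) (b (b (a (b (l 16768200) (l 16767288)) (l 16810152)) (a (b (l 16765608) (l 16763632)) (l 16765880))) (b (a (b (l 16759616) (l 16753472)) (l 16759792)) (a (l 16739296) (l 16747016))))))), by decide +kernel⟩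

def k3_pm_213_a : ∃ t, chk3 f_pm_213_a t 2 6 1 = true :=
  ⟨(a (l 3) (b (b (l 3) (a (l 3) (a (l 3) (b (c (l 225653336375) (l 200957283671)) (c (b (l 16639424) (l 16624568)) (c (l 16600032) (l 164450018327))))))) (b (a (l 3) (c (b (a (l 272897841079) (c (l 16614232) (l 16594696))) (a (c (l 16594440) (l 16585280)) (c (l 16595008) (l 16571768)))) (b (a (l 213305244695) (c (l 16572616) (l 16548048))) (a (c (l 16569416) (l 168744923335)) (c (l 16546648) (l 16519640)))))) (a (a (l 3) (c (b (l 275045212951) (c (l 16566032) (l 16564696))) (b (b (l 232095641447) (l 197735999479)) (c (l 16551704) (l 162302498695))))) (c (b (a (c (l 16581040) (l 16567312)) (l 16567600)) (a (l 16564568) (l 16555608))) (b (a (c (l 16547960) (l 16523448)) (c (l 16523024) (l 16492408))) (a (l 16493592) (l 16485288)))))))), by decide +kernel⟩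

def k4_pm_213_a : ∃ t, chk3 f_pm_213_a t 3 12 1 = true :=
  ⟨(b (a (b (a (a (l 3) (a (c (l 180556286631) (l 166060729127)) (b (l 16706016) (l 16686992)))) (c (a (l 16757488) (l 16797496)) (a (l 16652248) (l 16653784)))) (a (a (a (l 3) (b (l 184314343543) (l 156397026839))) (c (c (l 16718544) (l 16677376)) (c (l 16638256) (l 16601336)))) (c (a (l 16712520) (l 16740048)) (a (l 16605368) (l 16595952))))) (a (a (c (b (l 16831416) (l 16790824)) (b (l 16669752) (l 16596200))) (c (l 16784456) (b (l 16713024) (l 16616096)))) (c (a (l 16863600) (l 16875032)) (a (l 16701592) (l 16711960))))) (a (a (c (b (a (c (l 16673520) (l 16643720)) (l 16660128)) (a (c (l 16641848) (l 16611592)) (l 16623848))) (b (a (c (l 16614504) (l 16585888)) (l 16580128)) (a (c (l 16581744) (l 16552344)) (l 16541688)))) (c (a (b (l 16667288) (l 16623920)) (b (l 16683088) (l 16629112))) (c (a (l 16561880) (l 16546520)) (b (l 16519560) (l 16471344))))) (a (c (c (l 16741888) (l 16646240)) (a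 (b (l 16526384) (l 16462816)) (b (l 16525880) (l 16445936)))) (c (c (l 16921392) (l 16806624)) (a (l 16492832) (l 16540840)))))), by decide +kernel⟩

def k5_pm_213_a : ∃ t, chk3 f_pm_213_a t 3 13 1 = true :=
  ⟨(a (b (a (c (b (a (l 16598000) (l 16590440)) (a (l 16573608) (l 16561192))) (b (a (l 16597656) (l 16505536)) (a (l 16567624) (l 16493768)))) (c (b (a (l 16583888) (l 16579448)) (a (l 16548288) (l 16535272))) (b (a (l 16473064) (l 16439808)) (a (l 16436792) (l 16398856))))) (a (c (b (a (l 16554056) (l 16537000)) (a (l 16538960) (l 16517640))) (b (a (l 16477808) (l 16444208)) (a (l 16454768) (l 16420536)))) (c (c (b (l 16539736) (l 16510944)) (b (l 16475784) (l 16448448))) (c (b (l 16414456) (l 16388408)) (b (l 16358456) (l 16334288)))))) (a (b (c (c (l 16612480) (l 16547720)) (c (a (l 16421160) (l 16396448)) (b (l 16348544) (l 16300528)))) (c (c (b (l 16521808) (l 16471224)) (b (l 16424544) (l 16381664))) (c (l 16318528) (b (l 16263712) (l 16238296)))))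 (b (c (c (l 16740656) (l 16544304)) (c (l 16376640) (a (l 16258824) (l 16221928)))) (c (a (l 16434552) (b (l 16499296) (l 16402808))) (a (b (l 16228344) (l 16189712)) (b (l 16180296) (l 16133000))))))), by decide +kernel⟩

def k6_pm_213_a : ∃ t, chk3 f_pm_213_a t 2 14 1 = true :=
  ⟨(a (a (l 3) (b (a (l 3) (b (l 3) (c (l 253033483159) (l 244980276087)))) (b (c (c (l 275045277511) (l 250349176743)) (a (l 3) (b (l 226726643367) (l 16496640)))) (b (c (a (l 257328439895) (l 16535704)) (a (l 244443425895) (l 16525528))) (l 1))))) (b (c (c (a (b (l 211157455383) (l 204178132311)) (b (l 16571536) (l 16570544))) (a (b (l 196662027303) (l 16503072)) (b (l 16535048) (l 16527800)))) (c (a (b (l 184314034823) (l 174113434439)) (b (l 16499048) (l 16486840))) (a (b (a (l 236390479319) (l 16510056)) (a (l 16521400) (l 16493072))) (b (l 16463752) (l 16448328))))) (c (a (b (a (l 16557768) (l 16563112)) (c (l 16575928) (l 16538488))) (b (a (l 16554552) (l 16540256)) (c (l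 16577640) (l 16526336)))) (a (b (c (l 16520888) (a (l 16508184) (l 16477552))) (c (l 16500552) (l 16462552))) (b (c (l 16479632) (l 16428968)) (c (l 16467856) (l 16395728))))))), by decide +kernel⟩

def k7_pm_213_a : ∃ t, chk3 f_pm_213_a t 3 14 1 = true :=
  ⟨(a (b (b (a (c (a (l 16527512) (l 16502712)) (a (l 16436608) (l 16402712))) (c (c (l 16486984) (l 16427160)) (a (l 16363832) (l 16321360)))) (a (c (l 16443520) (c (l 16431248) (l 16385936))) (c (l 16439712) (c (l 16358032) (l 16310904))))) (b (a (c (l 16459216) (c (l 16426328) (l 16363616))) (c (l 16427008) (c (l 16354456) (l 16292672)))) (a (c (l 16415832) (c (l 16426000) (l 16329920))) (c (c (l 16437864) (l 16398432)) (c (l 16359160) (l 16263224)))))) (b (a (c (b (a (l 16402992) (l 16371336)) (a (l 16376264) (l 16336080))) (b (c (l 16278584) (l 16224656)) (c (l 16265176) (l 16223936)))) (c (b (a (l 16343576) (l 16323504)) (a (l 16296152) (l 16260368))) (a (b (l 16167232) (l 16160712)) (b (l 16107160)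 (l 16095960))))) (a (c (b (a (l 16355592) (l 16308088)) (a (l 16340336) (l 16286856))) (b (a (l 16269296) (l 16221968)) (a (l 16283312) (l 16236112)))) (c (c (l 16253184) (l 16182880)) (c (l 16140248) (a (l 16165944) (l 16083224))))))), by decide +kernel⟩

def k8_pm_213_a : ∃ t, chk3 f_pm_213_a t 1 15 1 = true :=
  ⟨(b (b (a (b (a (l 1) (a (l 1) (c (l 16556752) (l 16412176)))) (l 1)) (a (a (c (c (l 16521232) (l 16480400)) (c (l 16417672) (l 16291352))) (a (c (l 16439304) (l 16215680)) (c (l 16388088) (l 16202488)))) (a (c (a (l 16330088) (l 16271896)) (a (l 16304648) (l 16249680))) (c (l 16173448) (l 16132840))))) (a (l 1) (a (a (a (l 1) (c (l 16485384) (l 445098132615))) (c (a (l 16439280) (l 16385496)) (a (l 16088808) (l 16335856)))) (a (c (l 16294296) (l 16292736)) (c (l 16156936) (l 16133696)))))) (a (l 1) (a (l 1) (b (a (c (l 16292592) (l 16301088)) (c (l 16148552) (l 16131528))) (a (l 1) (c (l 16147544) (l 16124592))))))), by decide +kernel⟩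

theorem s9_pm_213_a : ∃ t, chk3 f_pm_213_a t 1 14 1 = true := ex3_a k6_pm_213_a k7_pm_213_a

theorem s10_pm_213_a : ∃ t, chk3 f_pm_213_a t 1 7 1 = true := ex3_b s9_pm_213_a k8_pm_213_a

theorem s11_pm_213_a : ∃ t, chk3 f_pm_213_a t 3 6 1 = true := ex3_b k4_pm_213_a k5_pm_213_a

theorem s12_pm_213_a : ∃ t, chk3 f_pm_213_a t 1 6 1 = true := ex3_a k3_pm_213_a s11_pm_213_a

theorem s13_pm_213_a : ∃ t, chk3 f_pm_213_a t 1 3 1 = true := ex3_b s12_pm_213_a s10_pm_213_a

theorem s14_pm_213_a : ∃ t, chk3 f_pm_213_a t 3 2 1 = true := ex3_b k1_pm_213_a k2_pm_213_a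

theorem s15_pm_213_a : ∃ t, chk3 f_pm_213_a t 1 2 1 = true := ex3_a k0_pm_213_a s14_pm_213_a

theorem s16_pm_213_a : ∃ t, chk3 f_pm_213_a t 1 1 1 = true := ex3_b s15_pm_213_a s13_pm_213_a

theorem c_pm_213_a : CertB 0 536870912 0 1230186008 858993459 64424510 3 eng mog cd1q2a cd3q3 pd1 false true false .pnn 2 1 3
    ndB1q2a ndB3q3 pcB1 cut_pm_213_a Ext.none :=
  certB0 (fam := false) (s1 := true) (s2 := false) (a := 2) (b := 1) (c := 3) (cn := .pnn) (n1 := ndB1q2a) (n2 := ndB3q3) (pc := pcB1) (cut := cut_pm_213_a) (xt := Ext.none) (P1 := 0) (W1 := 536870912) (P2 := 0) (W2 := 1230186008) (P3 := 858993459) (W3 := 64424510) (N0 := 3) (En := eng) (mo := mog) (C1 := cd1q2a) (C2 := cd3q3) (C3 := pd1)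
    rfl s16_pm_213_a

noncomputable def cut_pm_213_b : Cut := Cut.of [[⟨0, 1, 0, 67108864⟩, ⟨1, 1, 0, 67108864⟩, ⟨2, 2, 0, 16777216⟩]]

noncomputable def f_pm_213_b : ℕ → ℕ → ℕ → ℕ → Bool := onCell 1239849684 370763052 0 1230186008 858993459 64424510
    (rowB 3 eng mog cd1q2b cd3q3 pd1 0 false true false .pnn 2 1 3 (qsf 1239849684 370763052 0 1230186008 1) ndB1q2b ndB3q3 pcB1 cut_pm_213_b Ext.none)

def k0_pm_213_b : ∃ t, chk3 f_pm_213_b t 1 1 1 = true :=
  ⟨(b (l 3) (b (l 3) (b (l 3) (l 1)))), by decide +kernel⟩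

theorem c_pm_213_b : CertB 1239849684 370763052 0 1230186008 858993459 64424510 3 eng mog cd1q2b cd3q3 pd1 false true false .pnn 2 1 3
    ndB1q2b ndB3q3 pcB1 cut_pm_213_b Ext.none :=
  certB0 (fam := false) (s1 := true) (s2 := false) (a := 2) (b := 1) (c := 3) (cn := .pnn) (n1 := ndB1q2b) (n2 := ndB3q3) (pc := pcB1) (cut := cut_pm_213_b) (xt := Ext.none) (P1 := 1239849684) (W1 := 370763052) (P2 := 0) (W2 := 1230186008) (P3 := 858993459) (W3 := 64424510) (N0 := 3) (En := eng) (mo := mog) (C1 := cd1q2b) (C2 := cd3q3) (C3 := pd1)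
    rfl k0_pm_213_b

noncomputable def f_pm_303 : ℕ → ℕ → ℕ → ℕ → Bool := onCell 1610612736 536870912 0 1230186008 858993459 64424510
    (rowB 3 eng mog cd1q3 cd3q3 pd0 0 false true false .npn 3 0 3 (qsf 1610612736 536870912 0 1230186008 0) ndB1q3 ndB3q3 pcB0 Cut.none Ext.none)

def k0_pm_303 : ∃ t, chk3 f_pm_303 t 1 1 1 = true :=
  ⟨(b (l 3) (b (l 3) (a (l 3) (l 1)))), by decide +kernel⟩

theorem c_pm_303 : CertB 1610612736 536870912 0 1230186008 858993459 64424510 3 eng mog cd1q3 cd3q3 pd0 false true false .npn 3 0 3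
    ndB1q3 ndB3q3 pcB0 Cut.none Ext.none :=
  certB0 (fam := false) (s1 := true) (s2 := false) (a := 3) (b := 0) (c := 3) (cn := .npn) (n1 := ndB1q3) (n2 := ndB3q3) (pc := pcB0) (cut := Cut.none) (xt := Ext.none) (P1 := 1610612736) (W1 := 536870912) (P2 := 0) (W2 := 1230186008) (P3 := 858993459) (W3 := 64424510) (N0 := 3) (En := eng) (mo := mog) (C1 := cd1q3) (C2 := cd3q3) (C3 := pd0)
    rfl k0_pm_303

noncomputable def f_pm_313 : ℕ → ℕ → ℕ → ℕ → Bool := onCell 1610612736 536870912 0 1230186008 858993459 64424510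
    (rowB 3 eng mog cd1q3 cd3q3 pd1 0 false true false .dn 3 1 3 (qsf 1610612736 536870912 0 1230186008 1) ndB1q3 ndB3q3 pcB1 Cut.none Ext.none)

def k0_pm_313 : ∃ t, chk3 f_pm_313 t 1 1 1 = true :=
  ⟨(b (l 3) (l 1)), by decide +kernel⟩

theorem c_pm_313 : CertB 1610612736 536870912 0 1230186008 858993459 64424510 3 eng mog cd1q3 cd3q3 pd1 false true false .dn 3 1 3
    ndB1q3 ndB3q3 pcB1 Cut.none Ext.none :=
  certB0 (fam := false) (s1 := true) (s2 := false) (a := 3) (b := 1) (c := 3) (cn := .dn) (n1 := ndB1q3) (n2 := ndB3q3) (pc := pcB1) (cut := Cut.none) (xt := Ext.none) (P1 := 1610612736) (W1 := 536870912) (P2 := 0) (W2 := 1230186008) (P3 := 858993459) (W3 := 64424510) (N0 := 3) (En := eng) (mo := mog) (C1 := cd1q3) (C2 := cd3q3) (C3 := pd1)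
    rfl k0_pm_313

noncomputable def f_mm_001 : ℕ → ℕ → ℕ → ℕ → Bool := onCell 0 536870912 0 536870912 858993459 64424510
    (rowB 3 eng mog cd1q0 cd3q1 pd0 1 false false false .up 0 0 1 (qsf 0 536870912 536870912 536870912 0) ndB1q0 ndB3q1 pcB0 Cut.none Ext.none)

def k0_mm_001 : ∃ t, chk3 f_mm_001 t 1 1 1 = true :=
  ⟨(l 3), by decide +kernel⟩

theorem c_mm_001 : CertB 0 536870912 536870912 536870912 858993459 64424510 3 eng mog cd1q0 cd3q1 pd0 false false false .up 0 0 1
    ndB1q0 ndB3q1 pcB0 Cut.none Ext.none :=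
  certB1 (fam := false) (s1 := false) (s2 := false) (a := 0) (b := 0) (c := 1) (cn := .up) (n1 := ndB1q0) (n2 := ndB3q1) (pc := pcB0) (cut := Cut.none) (xt := Ext.none) (P1 := 0) (W1 := 536870912) (P2 := 536870912) (W2 := 536870912) (P3 := 858993459) (W3 := 64424510) (N0 := 3) (En := eng) (mo := mog) (C1 := cd1q0) (C2 := cd3q1) (C3 := pd0)
    rfl (fun _ => rfl) k0_mm_001

noncomputable def f_mm_011 : ℕ → ℕ → ℕ → ℕ → Bool := onCell 0 536870912 536870912 536870912 858993459 64424510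
    (rowB 3 eng mog cd1q0 cd3q1 pd1 1 false false false .pnn 0 1 1 (qsf 0 536870912 536870912 536870912 1) ndB1q0 ndB3q1 pcB1 Cut.none Ext.none)

def k0_mm_011 : ∃ t, chk3 f_mm_011 t 1 1 1 = true :=
  ⟨(l 5), by decide +kernel⟩

theorem c_mm_011 : CertB 0 536870912 536870912 536870912 858993459 64424510 3 eng mog cd1q0 cd3q1 pd1 false false false .pnn 0 1 1
    ndB1q0 ndB3q1 pcB1 Cut.none Ext.none :=
  certB1 (fam := false) (s1 := false) (s2 := false) (a := 0) (b := 1) (c := 1) (cn := .pnn) (n1 := ndB1q0) (n2 := ndB3q1) (pc := pcB1) (cut := Cut.none) (xt := Ext.none) (P1 := 0) (W1 := 536870912) (P2 := 536870912) (W2 := 536870912) (P3 := 858993459) (W3 := 64424510) (N0 := 3) (En := eng) (mo := mog) (C1 := cd1q0) (C2 := cd3q1) (C3 := pd1)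
    rfl (fun _ => rfl) k0_mm_011

noncomputable def f_mm_012 : ℕ → ℕ → ℕ → ℕ → Bool := onCell 0 536870912 1073741824 536870912 858993459 64424510
    (rowB 3 eng mog cd1q0 cd3q2 pd1 0 false false false .pnp 0 1 2 (qsf 0 536870912 1073741824 536870912 1) ndB1q0 ndB3q2 pcB1 Cut.none Ext.none)

def k0_mm_012 : ∃ t, chk3 f_mm_012 t 1 1 1 = true :=
  ⟨(l 5), by decide +kernel⟩

theorem c_mm_012 : CertB 0 536870912 1073741824 536870912 858993459 64424510 3 eng mog cd1q0 cd3q2 pd1 false false false .pnp 0 1 2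
    ndB1q0 ndB3q2 pcB1 Cut.none Ext.none :=
  certB0 (fam := false) (s1 := false) (s2 := false) (a := 0) (b := 1) (c := 2) (cn := .pnp) (n1 := ndB1q0) (n2 := ndB3q2) (pc := pcB1) (cut := Cut.none) (xt := Ext.none) (P1 := 0) (W1 := 536870912) (P2 := 1073741824) (W2 := 536870912) (P3 := 858993459) (W3 := 64424510) (N0 := 3) (En := eng) (mo := mog) (C1 := cd1q0) (C2 := cd3q2) (C3 := pd1)
    rfl k0_mm_012

noncomputable def f_mm_022 : ℕ → ℕ → ℕ → ℕ → Bool := onCell 0 536870912 1073741824 536870912 858993459 64424510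
    (rowB 3 eng mog cd1q0 cd3q2 pd2 0 false false false .pp 0 2 2 (qsf 0 536870912 1073741824 536870912 2) ndB1q0 ndB3q2 pcB2 Cut.none Ext.none)

def k0_mm_022 : ∃ t, chk3 f_mm_022 t 1 1 1 = true :=
  ⟨(l 5), by decide +kernel⟩

theorem c_mm_022 : CertB 0 536870912 1073741824 536870912 858993459 64424510 3 eng mog cd1q0 cd3q2 pd2 false false false .pp 0 2 2
    ndB1q0 ndB3q2 pcB2 Cut.none Ext.none :=
  certB0 (fam := false) (s1 := false) (s2 := false) (a := 0) (b := 2) (c := 2) (cn := .pp) (n1 := ndB1q0) (n2 := ndB3q2) (pc := pcB2) (cut := Cut.none) (xt := Ext.none) (P1 := 0) (W1 := 536870912) (P2 := 1073741824) (W2 := 536870912) (P3 := 858993459) (W3 := 64424510) (N0 := 3) (En := eng) (mo := mog) (C1 := cd1q0) (C2 := cd3q2) (C3 := pd2)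
    rfl k0_mm_022

noncomputable def f_mm_023 : ℕ → ℕ → ℕ → ℕ → Bool := onCell 0 536870912 0 1230186008 858993459 64424510
    (rowB 3 eng mog cd1q0 cd3q3 pd2 0 false false false .up 0 2 3 (qsf 0 536870912 0 1230186008 2) ndB1q0 ndB3q3 pcB2 Cut.none Ext.none)

def k0_mm_023 : ∃ t, chk3 f_mm_023 t 1 1 1 = true :=
  ⟨(l 5), by decide +kernel⟩

theorem c_mm_023 : CertB 0 536870912 0 1230186008 858993459 64424510 3 eng mog cd1q0 cd3q3 pd2 false false false .up 0 2 3
    ndB1q0 ndB3q3 pcB2 Cut.none Ext.none :=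
  certB0 (fam := false) (s1 := false) (s2 := false) (a := 0) (b := 2) (c := 3) (cn := .up) (n1 := ndB1q0) (n2 := ndB3q3) (pc := pcB2) (cut := Cut.none) (xt := Ext.none) (P1 := 0) (W1 := 536870912) (P2 := 0) (W2 := 1230186008) (P3 := 858993459) (W3 := 64424510) (N0 := 3) (En := eng) (mo := mog) (C1 := cd1q0) (C2 := cd3q3) (C3 := pd2)
    rfl k0_mm_023

noncomputable def f_mm_033 : ℕ → ℕ → ℕ → ℕ → Bool := onCell 0 536870912 0 1230186008 858993459 64424510
    (rowB 3 eng mog cd1q0 cd3q3 pd3 0 false false false .pnn 0 3 3 (qsf 0 536870912 0 1230186008 3) ndB1q0 ndB3q3 pcB3 Cut.none Ext.none)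

def k0_mm_033 : ∃ t, chk3 f_mm_033 t 1 1 1 = true :=
  ⟨(l 5), by decide +kernel⟩

theorem c_mm_033 : CertB 0 536870912 0 1230186008 858993459 64424510 3 eng mog cd1q0 cd3q3 pd3 false false false .pnn 0 3 3
    ndB1q0 ndB3q3 pcB3 Cut.none Ext.none :=
  certB0 (fam := false) (s1 := false) (s2 := false) (a := 0) (b := 3) (c := 3) (cn := .pnn) (n1 := ndB1q0) (n2 := ndB3q3) (pc := pcB3) (cut := Cut.none) (xt := Ext.none) (P1 := 0) (W1 := 536870912) (P2 := 0) (W2 := 1230186008) (P3 := 858993459) (W3 := 64424510) (N0 := 3) (En := eng) (mo := mog) (C1 := cd1q0) (C2 := cd3q3) (C3 := pd3)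
    rfl k0_mm_033

noncomputable def f_mm_101 : ℕ → ℕ → ℕ → ℕ → Bool := onCell 536870912 536870912 536870912 536870912 858993459 64424510
    (rowB 3 eng mog cd1q1 cd3q1 pd0 0 false false false .npn 1 0 1 (qsf 536870912 536870912 536870912 536870912 0) ndB1q1 ndB3q1 pcB0 Cut.none Ext.none)

def k0_mm_101 : ∃ t, chk3 f_mm_101 t 1 1 1 = true :=
  ⟨(l 3), by decide +kernel⟩

theorem c_mm_101 : CertB 536870912 536870912 536870912 536870912 858993459 64424510 3 eng mog cd1q1 cd3q1 pd0 false false false .npn 1 0 1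
    ndB1q1 ndB3q1 pcB0 Cut.none Ext.none :=
  certB0 (fam := false) (s1 := false) (s2 := false) (a := 1) (b := 0) (c := 1) (cn := .npn) (n1 := ndB1q1) (n2 := ndB3q1) (pc := pcB0) (cut := Cut.none) (xt := Ext.none) (P1 := 536870912) (W1 := 536870912) (P2 := 536870912) (W2 := 536870912) (P3 := 858993459) (W3 := 64424510) (N0 := 3) (En := eng) (mo := mog) (C1 := cd1q1) (C2 := cd3q1) (C3 := pd0)
    rfl k0_mm_101

noncomputable def f_mm_102 : ℕ → ℕ → ℕ → ℕ → Bool := onCell 536870912 536870912 1073741824 536870912 858993459 64424510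
    (rowB 3 eng mog cd1q1 cd3q2 pd0 0 false false false .npp 1 0 2 (qsf 536870912 536870912 1073741824 536870912 0) ndB1q1 ndB3q2 pcB0 Cut.none Ext.none)

def k0_mm_102 : ∃ t, chk3 f_mm_102 t 1 1 1 = true :=
  ⟨(l 3), by decide +kernel⟩

theorem c_mm_102 : CertB 536870912 536870912 1073741824 536870912 858993459 64424510 3 eng mog cd1q1 cd3q2 pd0 false false false .npp 1 0 2
    ndB1q1 ndB3q2 pcB0 Cut.none Ext.none :=
  certB0 (fam := false) (s1 := false) (s2 := false) (a := 1) (b := 0) (c := 2) (cn := .npp) (n1 := ndB1q1) (n2 := ndB3q2) (pc := pcB0) (cut := Cut.none) (xt := Ext.none) (P1 := 536870912) (W1 := 536870912) (P2 := 1073741824) (W2 := 536870912) (P3 := 858993459) (W3 := 64424510) (N0 := 3) (En := eng) (mo := mog) (C1 := cd1q1) (C2 := cd3q2) (C3 := pd0)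
    rfl k0_mm_102

noncomputable def f_mm_112 : ℕ → ℕ → ℕ → ℕ → Bool := onCell 536870912 536870912 1073741824 536870912 858993459 64424510
    (rowB 3 eng mog cd1q1 cd3q2 pd1 0 false false false .dn 1 1 2 (qsf 536870912 536870912 1073741824 536870912 1) ndB1q1 ndB3q2 pcB1 Cut.none Ext.none)

def k0_mm_112 : ∃ t, chk3 f_mm_112 t 1 1 1 = true :=
  ⟨(l 3), by decide +kernel⟩

theorem c_mm_112 : CertB 536870912 536870912 1073741824 536870912 858993459 64424510 3 eng mog cd1q1 cd3q2 pd1 false false false .dn 1 1 2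
    ndB1q1 ndB3q2 pcB1 Cut.none Ext.none :=
  certB0 (fam := false) (s1 := false) (s2 := false) (a := 1) (b := 1) (c := 2) (cn := .dn) (n1 := ndB1q1) (n2 := ndB3q2) (pc := pcB1) (cut := Cut.none) (xt := Ext.none) (P1 := 536870912) (W1 := 536870912) (P2 := 1073741824) (W2 := 536870912) (P3 := 858993459) (W3 := 64424510) (N0 := 3) (En := eng) (mo := mog) (C1 := cd1q1) (C2 := cd3q2) (C3 := pd1)
    rfl k0_mm_112

noncomputable def f_mm_113 : ℕ → ℕ → ℕ → ℕ → Bool := onCell 536870912 536870912 0 1230186008 858993459 64424510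
    (rowB 3 eng mog cd1q1 cd3q3 pd1 0 false false false .nn 1 1 3 (qsf 536870912 536870912 0 1230186008 1) ndB1q1 ndB3q3 pcB1 Cut.none Ext.none)

def k0_mm_113 : ∃ t, chk3 f_mm_113 t 1 1 1 = true :=
  ⟨(l 5), by decide +kernel⟩

theorem c_mm_113 : CertB 536870912 536870912 0 1230186008 858993459 64424510 3 eng mog cd1q1 cd3q3 pd1 false false false .nn 1 1 3
    ndB1q1 ndB3q3 pcB1 Cut.none Ext.none :=
  certB0 (fam := false) (s1 := false) (s2 := false) (a := 1) (b := 1) (c := 3) (cn := .nn) (n1 := ndB1q1) (n2 := ndB3q3) (pc := pcB1) (cut := Cut.none) (xt := Ext.none) (P1 := 536870912) (W1 := 536870912) (P2 := 0) (W2 := 1230186008) (P3 := 858993459) (W3 := 64424510) (N0 := 3) (En := eng) (mo := mog) (C1 := cd1q1) (C2 := cd3q3) (C3 := pd1)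
    rfl k0_mm_113

noncomputable def f_mm_123 : ℕ → ℕ → ℕ → ℕ → Bool := onCell 536870912 536870912 0 1230186008 858993459 64424510
    (rowB 3 eng mog cd1q1 cd3q3 pd2 0 false false false .npn 1 2 3 (qsf 536870912 536870912 0 1230186008 2) ndB1q1 ndB3q3 pcB2 Cut.none Ext.none)

def k0_mm_123 : ∃ t, chk3 f_mm_123 t 1 1 1 = true :=
  ⟨(l 5), by decide +kernel⟩

theorem c_mm_123 : CertB 536870912 536870912 0 1230186008 858993459 64424510 3 eng mog cd1q1 cd3q3 pd2 false false false .npn 1 2 3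
    ndB1q1 ndB3q3 pcB2 Cut.none Ext.none :=
  certB0 (fam := false) (s1 := false) (s2 := false) (a := 1) (b := 2) (c := 3) (cn := .npn) (n1 := ndB1q1) (n2 := ndB3q3) (pc := pcB2) (cut := Cut.none) (xt := Ext.none) (P1 := 536870912) (W1 := 536870912) (P2 := 0) (W2 := 1230186008) (P3 := 858993459) (W3 := 64424510) (N0 := 3) (En := eng) (mo := mog) (C1 := cd1q1) (C2 := cd3q3) (C3 := pd2)
    rfl k0_mm_123

noncomputable def f_mm_133 : ℕ → ℕ → ℕ → ℕ → Bool := onCell 536870912 536870912 0 1230186008 858993459 64424510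
    (rowB 3 eng mog cd1q1 cd3q3 pd3 0 false false false .dn 1 3 3 (qsf 536870912 536870912 0 1230186008 3) ndB1q1 ndB3q3 pcB3 Cut.none Ext.none)

def k0_mm_133 : ∃ t, chk3 f_mm_133 t 1 1 1 = true :=
  ⟨(l 5), by decide +kernel⟩

theorem c_mm_133 : CertB 536870912 536870912 0 1230186008 858993459 64424510 3 eng mog cd1q1 cd3q3 pd3 false false false .dn 1 3 3
    ndB1q1 ndB3q3 pcB3 Cut.none Ext.none :=
  certB0 (fam := false) (s1 := false) (s2 := false) (a := 1) (b := 3) (c := 3) (cn := .dn) (n1 := ndB1q1) (n2 := ndB3q3) (pc := pcB3) (cut := Cut.none) (xt := Ext.none) (P1 := 536870912) (W1 := 536870912) (P2 := 0) (W2 := 1230186008) (P3 := 858993459) (W3 := 64424510) (N0 := 3) (En := eng) (mo := mog) (C1 := cd1q1) (C2 := cd3q3) (C3 := pd3)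
    rfl k0_mm_133

noncomputable def f_mm_202_a : ℕ → ℕ → ℕ → ℕ → Bool := onCell 0 536870912 1073741824 536870912 858993459 64424510
    (rowB 3 eng mog cd1q2a cd3q2 pd0 0 false false false .pp 2 0 2 (qsf 0 536870912 1073741824 536870912 0) ndB1q2a ndB3q2 pcB0 Cut.none Ext.none)

def k0_mm_202_a : ∃ t, chk3 f_mm_202_a t 1 1 1 = true :=
  ⟨(l 3), by decide +kernel⟩

theorem c_mm_202_a : CertB 0 536870912 1073741824 536870912 858993459 64424510 3 eng mog cd1q2a cd3q2 pd0 false false false .pp 2 0 2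
    ndB1q2a ndB3q2 pcB0 Cut.none Ext.none :=
  certB0 (fam := false) (s1 := false) (s2 := false) (a := 2) (b := 0) (c := 2) (cn := .pp) (n1 := ndB1q2a) (n2 := ndB3q2) (pc := pcB0) (cut := Cut.none) (xt := Ext.none) (P1 := 0) (W1 := 536870912) (P2 := 1073741824) (W2 := 536870912) (P3 := 858993459) (W3 := 64424510) (N0 := 3) (En := eng) (mo := mog) (C1 := cd1q2a) (C2 := cd3q2) (C3 := pd0)
    rfl k0_mm_202_a

noncomputable def f_mm_202_b : ℕ → ℕ → ℕ → ℕ → Bool := onCell 1239849684 370763052 1073741824 536870912 858993459 64424510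
    (rowB 3 eng mog cd1q2b cd3q2 pd0 0 false false false .pp 2 0 2 (qsf 1239849684 370763052 1073741824 536870912 0) ndB1q2b ndB3q2 pcB0 Cut.none Ext.none)

def k0_mm_202_b : ∃ t, chk3 f_mm_202_b t 1 1 1 = true :=
  ⟨(l 3), by decide +kernel⟩

theorem c_mm_202_b : CertB 1239849684 370763052 1073741824 536870912 858993459 64424510 3 eng mog cd1q2b cd3q2 pd0 false false false .pp 2 0 2
    ndB1q2b ndB3q2 pcB0 Cut.none Ext.none :=
  certB0 (fam := false) (s1 := false) (s2 := false) (a := 2) (b := 0) (c := 2) (cn := .pp) (n1 := ndB1q2b) (n2 := ndB3q2) (pc := pcB0) (cut := Cut.none) (xt := Ext.none) (P1 := 1239849684) (W1 := 370763052) (P2 := 1073741824) (W2 := 536870912) (P3 := 858993459) (W3 := 64424510) (N0 := 3) (En := eng) (mo := mog) (C1 := cd1q2b) (C2 := cd3q2) (C3 := pd0)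
    rfl k0_mm_202_b

noncomputable def f_mm_203_a : ℕ → ℕ → ℕ → ℕ → Bool := onCell 0 536870912 0 1230186008 858993459 64424510
    (rowB 3 eng mog cd1q2a cd3q3 pd0 0 false false false .up 2 0 3 (qsf 0 536870912 0 1230186008 0) ndB1q2a ndB3q3 pcB0 Cut.none Ext.none)

def k0_mm_203_a : ∃ t, chk3 f_mm_203_a t 1 1 1 = true :=
  ⟨(b (l 2) (l 3)), by decide +kernel⟩

theorem c_mm_203_a : CertB 0 536870912 0 1230186008 858993459 64424510 3 eng mog cd1q2a cd3q3 pd0 false false false .up 2 0 3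
    ndB1q2a ndB3q3 pcB0 Cut.none Ext.none :=
  certB0 (fam := false) (s1 := false) (s2 := false) (a := 2) (b := 0) (c := 3) (cn := .up) (n1 := ndB1q2a) (n2 := ndB3q3) (pc := pcB0) (cut := Cut.none) (xt := Ext.none) (P1 := 0) (W1 := 536870912) (P2 := 0) (W2 := 1230186008) (P3 := 858993459) (W3 := 64424510) (N0 := 3) (En := eng) (mo := mog) (C1 := cd1q2a) (C2 := cd3q3) (C3 := pd0)
    rfl k0_mm_203_a

noncomputable def f_mm_203_b : ℕ → ℕ → ℕ → ℕ → Bool := onCell 1239849684 370763052 0 1230186008 858993459 64424510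
    (rowB 3 eng mog cd1q2b cd3q3 pd0 0 false false false .up 2 0 3 (qsf 1239849684 370763052 0 1230186008 0) ndB1q2b ndB3q3 pcB0 Cut.none Ext.none)

def k0_mm_203_b : ∃ t, chk3 f_mm_203_b t 1 1 1 = true :=
  ⟨(b (l 3) (l 3)), by decide +kernel⟩

theorem c_mm_203_b : CertB 1239849684 370763052 0 1230186008 858993459 64424510 3 eng mog cd1q2b cd3q3 pd0 false false false .up 2 0 3
    ndB1q2b ndB3q3 pcB0 Cut.none Ext.none :=
  certB0 (fam := false) (s1 := false) (s2 := false) (a := 2) (b := 0) (c := 3) (cn := .up) (n1 := ndB1q2b) (n2 := ndB3q3) (pc := pcB0) (cut := Cut.none) (xt := Ext.none) (P1 := 1239849684) (W1 := 370763052) (P2 := 0) (W2 := 1230186008) (P3 := 858993459) (W3 := 64424510) (N0 := 3) (En := eng) (mo := mog) (C1 := cd1q2b) (C2 := cd3q3) (C3 := pd0)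
    rfl k0_mm_203_b

noncomputable def f_mm_213_a : ℕ → ℕ → ℕ → ℕ → Bool := onCell 0 536870912 0 1230186008 858993459 64424510
    (rowB 3 eng mog cd1q2a cd3q3 pd1 0 false false false .pnn 2 1 3 (qsf 0 536870912 0 1230186008 1) ndB1q2a ndB3q3 pcB1 Cut.none Ext.none)

def k0_mm_213_a : ∃ t, chk3 f_mm_213_a t 1 1 1 = true :=
  ⟨(b (a (l 3) (l 5)) (l 3)), by decide +kernel⟩

theorem c_mm_213_a : CertB 0 536870912 0 1230186008 858993459 64424510 3 eng mog cd1q2a cd3q3 pd1 false false false .pnn 2 1 3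
    ndB1q2a ndB3q3 pcB1 Cut.none Ext.none :=
  certB0 (fam := false) (s1 := false) (s2 := false) (a := 2) (b := 1) (c := 3) (cn := .pnn) (n1 := ndB1q2a) (n2 := ndB3q3) (pc := pcB1) (cut := Cut.none) (xt := Ext.none) (P1 := 0) (W1 := 536870912) (P2 := 0) (W2 := 1230186008) (P3 := 858993459) (W3 := 64424510) (N0 := 3) (En := eng) (mo := mog) (C1 := cd1q2a) (C2 := cd3q3) (C3 := pd1)
    rfl k0_mm_213_a

noncomputable def f_mm_213_b : ℕ → ℕ → ℕ → ℕ → Bool := onCell 1239849684 370763052 0 1230186008 858993459 64424510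
    (rowB 3 eng mog cd1q2b cd3q3 pd1 0 false false false .pnn 2 1 3 (qsf 1239849684 370763052 0 1230186008 1) ndB1q2b ndB3q3 pcB1 Cut.none Ext.none)

def k0_mm_213_b : ∃ t, chk3 f_mm_213_b t 1 1 1 = true :=
  ⟨(b (l 3) (l 3)), by decide +kernel⟩

theorem c_mm_213_b : CertB 1239849684 370763052 0 1230186008 858993459 64424510 3 eng mog cd1q2b cd3q3 pd1 false false false .pnn 2 1 3
    ndB1q2b ndB3q3 pcB1 Cut.none Ext.none :=
  certB0 (fam := false) (s1 := false) (s2 := false) (a := 2) (b := 1) (c := 3) (cn := .pnn) (n1 := ndB1q2b) (n2 := ndB3q3) (pc := pcB1) (cut := Cut.none) (xt := Ext.none) (P1 := 1239849684) (W1 := 370763052) (P2 := 0) (W2 := 1230186008) (P3 := 858993459) (W3 := 64424510) (N0 := 3) (En := eng) (mo := mog) (C1 := cd1q2b) (C2 := cd3q3) (C3 := pd1)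
    rfl k0_mm_213_b

noncomputable def f_mm_303 : ℕ → ℕ → ℕ → ℕ → Bool := onCell 1610612736 536870912 0 1230186008 858993459 64424510
    (rowB 3 eng mog cd1q3 cd3q3 pd0 0 false false false .npn 3 0 3 (qsf 1610612736 536870912 0 1230186008 0) ndB1q3 ndB3q3 pcB0 Cut.none Ext.none)

def k0_mm_303 : ∃ t, chk3 f_mm_303 t 1 1 1 = true :=
  ⟨(b (l 3) (l 3)), by decide +kernel⟩

theorem c_mm_303 : CertB 1610612736 536870912 0 1230186008 858993459 64424510 3 eng mog cd1q3 cd3q3 pd0 false false false .npn 3 0 3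
    ndB1q3 ndB3q3 pcB0 Cut.none Ext.none :=
  certB0 (fam := false) (s1 := false) (s2 := false) (a := 3) (b := 0) (c := 3) (cn := .npn) (n1 := ndB1q3) (n2 := ndB3q3) (pc := pcB0) (cut := Cut.none) (xt := Ext.none) (P1 := 1610612736) (W1 := 536870912) (P2 := 0) (W2 := 1230186008) (P3 := 858993459) (W3 := 64424510) (N0 := 3) (En := eng) (mo := mog) (C1 := cd1q3) (C2 := cd3q3) (C3 := pd0)
    rfl k0_mm_303

noncomputable def f_mm_313 : ℕ → ℕ → ℕ → ℕ → Bool := onCell 1610612736 536870912 0 1230186008 858993459 64424510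
    (rowB 3 eng mog cd1q3 cd3q3 pd1 0 false false false .dn 3 1 3 (qsf 1610612736 536870912 0 1230186008 1) ndB1q3 ndB3q3 pcB1 Cut.none Ext.none)

def k0_mm_313 : ∃ t, chk3 f_mm_313 t 1 1 1 = true :=
  ⟨(b (l 3) (l 1)), by decide +kernel⟩

theorem c_mm_313 : CertB 1610612736 536870912 0 1230186008 858993459 64424510 3 eng mog cd1q3 cd3q3 pd1 false false false .dn 3 1 3
    ndB1q3 ndB3q3 pcB1 Cut.none Ext.none :=
  certB0 (fam := false) (s1 := false) (s2 := false) (a := 3) (b := 1) (c := 3) (cn := .dn) (n1 := ndB1q3) (n2 := ndB3q3) (pc := pcB1) (cut := Cut.none) (xt := Ext.none) (P1 := 1610612736) (W1 := 536870912) (P2 := 0) (W2 := 1230186008) (P3 := 858993459) (W3 := 64424510) (N0 := 3) (En := eng) (mo := mog) (C1 := cd1q3) (C2 := cd3q3) (C3 := pd1)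
    rfl k0_mm_313

end Pool.Agent.Strip051.G.I8000_8600.Tab.C.BB13

namespace Pool.Agent.Strip051.G.I8000_8600.Tab.C.BB14

open Pool.Agent.Strip051.PB Pool.Agent.Strip051.PB.T
open Pool.Agent.Strip051.G.I8000_8600.Tab

noncomputable def f_pp_001 : ℕ → ℕ → ℕ → ℕ → Bool := onCell 0 536870912 0 536870912 858993459 64424510
    (rowB 3 eng mog cd1q0 cd4q1 pd0 1 false true true .up 0 0 1 (qsf 0 536870912 536870912 536870912 0) ndB1q0 ndB4q1 pcB0 Cut.none Ext.none)

def k0_pp_001 : ∃ t, chk3 f_pp_001 t 1 1 1 = true :=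
  ⟨(l 3), by decide +kernel⟩

theorem c_pp_001 : CertB 0 536870912 536870912 536870912 858993459 64424510 3 eng mog cd1q0 cd4q1 pd0 false true true .up 0 0 1
    ndB1q0 ndB4q1 pcB0 Cut.none Ext.none :=
  certB1 (fam := false) (s1 := true) (s2 := true) (a := 0) (b := 0) (c := 1) (cn := .up) (n1 := ndB1q0) (n2 := ndB4q1) (pc := pcB0) (cut := Cut.none) (xt := Ext.none) (P1 := 0) (W1 := 536870912) (P2 := 536870912) (W2 := 536870912) (P3 := 858993459) (W3 := 64424510) (N0 := 3) (En := eng) (mo := mog) (C1 := cd1q0) (C2 := cd4q1) (C3 := pd0)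
    rfl (fun _ => rfl) k0_pp_001

noncomputable def cut_pp_011 : Cut := Cut.of [[⟨0, 0, 0, 67108864⟩, ⟨1, 1, 0, 67108864⟩, ⟨2, 1, 0, 67108864⟩]]

noncomputable def f_pp_011 : ℕ → ℕ → ℕ → ℕ → Bool := onCell 0 536870912 536870912 536870912 858993459 64424510
    (rowB 3 eng mog cd1q0 cd4q1 pd1 1 false true true .pnn 0 1 1 (qsf 0 536870912 536870912 536870912 1) ndB1q0 ndB4q1 pcB1 cut_pp_011 Ext.none)

def k0_pp_011 : ∃ t, chk3 f_pp_011 t 1 1 1 = true :=
  ⟨(b (l 3) (b (l 3) (a (a (b (l 3) (a (b (l 3) (a (l 6) (l 3))) (l 3))) (l 3)) (l 2)))), by decide +kernel⟩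

theorem c_pp_011 : CertB 0 536870912 536870912 536870912 858993459 64424510 3 eng mog cd1q0 cd4q1 pd1 false true true .pnn 0 1 1
    ndB1q0 ndB4q1 pcB1 cut_pp_011 Ext.none :=
  certB1 (fam := false) (s1 := true) (s2 := true) (a := 0) (b := 1) (c := 1) (cn := .pnn) (n1 := ndB1q0) (n2 := ndB4q1) (pc := pcB1) (cut := cut_pp_011) (xt := Ext.none) (P1 := 0) (W1 := 536870912) (P2 := 536870912) (W2 := 536870912) (P3 := 858993459) (W3 := 64424510) (N0 := 3) (En := eng) (mo := mog) (C1 := cd1q0) (C2 := cd4q1) (C3 := pd1)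
    rfl (fun _ => rfl) k0_pp_011

noncomputable def cut_pp_012 : Cut := Cut.of [[⟨0, 0, 0, 67108864⟩, ⟨1, 1, 0, 67108864⟩, ⟨2, 1, 0, 67108864⟩]]

noncomputable def f_pp_012 : ℕ → ℕ → ℕ → ℕ → Bool := onCell 0 536870912 536870912 536870912 858993459 64424510
    (rowB 3 eng mog cd1q0 cd4q2 pd1 1 false true true .pnp 0 1 2 (qsf 0 536870912 1073741824 536870912 1) ndB1q0 ndB4q2 pcB1 cut_pp_012 Ext.none)

def k0_pp_012 : ∃ t, chk3 f_pp_012 t 1 1 1 = true :=
  ⟨(b (l 3) (b (l 3) (a (a (a (a (b (l 1) (b (l 3) (l 6))) (l 3)) (l 3)) (l 3)) (l 3)))), by decide +kernel⟩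

theorem c_pp_012 : CertB 0 536870912 1073741824 536870912 858993459 64424510 3 eng mog cd1q0 cd4q2 pd1 false true true .pnp 0 1 2
    ndB1q0 ndB4q2 pcB1 cut_pp_012 Ext.none :=
  certB1 (fam := false) (s1 := true) (s2 := true) (a := 0) (b := 1) (c := 2) (cn := .pnp) (n1 := ndB1q0) (n2 := ndB4q2) (pc := pcB1) (cut := cut_pp_012) (xt := Ext.none) (P1 := 0) (W1 := 536870912) (P2 := 1073741824) (W2 := 536870912) (P3 := 858993459) (W3 := 64424510) (N0 := 3) (En := eng) (mo := mog) (C1 := cd1q0) (C2 := cd4q2) (C3 := pd1)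
    rfl (fun _ => rfl) k0_pp_012

noncomputable def cut_pp_022 : Cut := Cut.of [[⟨0, 0, 0, 67108864⟩, ⟨1, 1, 0, 67108864⟩, ⟨2, 1, 0, 67108864⟩]]

noncomputable def f_pp_022 : ℕ → ℕ → ℕ → ℕ → Bool := onCell 0 536870912 1073741824 536870912 858993459 64424510
    (rowB 3 eng mog cd1q0 cd4q2 pd2 1 false true true .pp 0 2 2 (qsf 0 536870912 1073741824 536870912 2) ndB1q0 ndB4q2 pcB2 cut_pp_022 Ext.none)

def k0_pp_022 : ∃ t, chk3 f_pp_022 t 2 8 1 = true :=
  ⟨(a (a (b (a (b (l 6) (a (l 6) (b (l 6) (a (l 6) (b (l 6) (c (l 16737536) (l 16734736))))))) (b (l 3) (b (l 3) (a (b (l 3) (a (l 16745568) (l 3))) (l 3))))) (b (b (a (a (l 6) (a (a (l 6) (a (l 6) (l 16716784))) (c (l 16722680) (l 16720640)))) (a (c (a (l 16731672) (l 16740976)) (a (l 16728392) (l 16737648))) (l 3))) (a (a (a (l 6) (c (a (l 6) (l 16664240)) (l 16663776))) (a (c (l 16661864) (l 16694976)) (c (l 16681592) (l 16681248)))) (b (a (a (l 16714992) (l 16723312)) (l 3)) (a (a (l 16684272) (l 16713088))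 (l 16726744))))) (c (a (a (b (a (b (l 6) (l 16643528)) (l 16639752)) (a (l 16585536) (l 16618120))) (b (a (l 16651168) (l 16661056)) (a (l 16629432) (l 16639984)))) (a (b (l 16695008) (l 16674192)) (b (l 16712152) (l 16690864)))) (a (a (b (a (l 16631864) (l 16643200)) (a (l 16611640) (l 16622712))) (b (a (l 16654112) (l 16683888)) (a (l 16633752) (l 16664752)))) (a (b (l 16693912) (l 16675560)) (b (l 16709504) (l 16689600))))))) (b (l 3) (b (l 3) (a (a (b (l 3) (c (l 16708480) (l 16706416))) (l 3)) (l 3))))) (l 3)), by decide +kernel⟩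

def k1_pp_022 : ∃ t, chk3 f_pp_022 t 2 9 1 = true :=
  ⟨(a (b (a (b (a (a (b (c (a (l 16607960) (l 16619400)) (c (l 16596064) (l 16598728))) (c (a (l 16589984) (l 16601304)) (l 16556880))) (b (c (l 16594120) (l 16639872)) (c (l 16596880) (l 16599328)))) (a (b (c (l 16655088) (l 16657992)) (c (l 16616688) (l 16640040))) (b (c (l 16650104) (l 16671800)) (l 16654000)))) (c (a (a (b (l 16535200) (l 16537080)) (b (l 16578128) (l 16579856))) (a (l 16636456) (l 16627584))) (a (a (c (l 16527184) (l 16528520)) (b (l 16579632) (l 16581008))) (a (l 16611512) (l 16630032))))) (a (b (b (a (c (l 16687712) (l 16686552)) (l 16705112)) (a (l 16669072) (l 16685592))) (b (a (l 16652088) (l 16667824)) (a (l 16635520) (l 16651136)))) (b (b (l 3) (l 3)) (b (l 16736016) (l 16696336))))) (b (c (a (a (a (b (l 16538488) (l 16497528)) (c (l 16508152) (l 16508600))) (a (l 16613432) (l 16612600))) (a (a (l 16609048) (l 16624512)) (l 16688624))) (a (a (a (b (l 16540656) (l 16500368))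 (b (l 16561480) (l 16541984))) (a (l 16572920) (l 16593832))) (a (a (l 16612472) (l 16628520)) (l 16651944)))) (a (a (a (c (b (l 16500224) (l 16482512)) (b (l 16499688) (l 16476960))) (c (l 16470768) (l 16467312))) (a (c (l 16491952) (l 16488968)) (c (l 16554504) (l 16552656)))) (a (a (a (l 16569128) (l 16578776)) (l 16633520)) (a (l 16606912) (l 16620648)))))) (b (a (l 3) (l 3)) (b (a (a (b (l 16680584) (l 16661392)) (l 3)) (l 3)) (a (a (b (l 16643008) (l 16624760)) (b (l 16659016) (l 16640064))) (a (l 16664760) (l 3)))))), by decide +kernel⟩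

def k2_pp_022 : ∃ t, chk3 f_pp_022 t 2 5 1 = true :=
  ⟨(b (a (a (b (b (a (a (c (b (l 16464168) (l 16445096)) (l 16401336)) (c (l 16433544) (l 16443984))) (c (a (l 16454072) (l 16516176)) (a (l 16465952) (l 16488088)))) (a (b (c (l 16351584) (l 16379224)) (c (b (l 16419024) (b (l 16409464) (l 16402312))) (b (l 16404464) (l 16393320)))) (b (a (l 16439168) (l 16459776)) (c (b (l 16458648) (l 16424400)) (l 16359136))))) (a (b (c (l 16296048) (l 16328576)) (c (l 16342112) (l 16334840))) (c (b (l 16418816) (l 16379784)) (b (l 16413560) (l 16375296))))) (b (b (b (a (a (l 16543576) (l 16562696)) (l 16586384)) (a (l 16532208) (l 16566424))) (b (a (l 16509936) (l 16544912)) (a (b (l 16492640) (l 16521952)) (b (l 16527272) (l 16514656))))) (a (c (b (l 16455400) (l 16416200)) (l 16327848)) (a (l 16397032) (l 16476320))))) (b (b (b (a (a (l 16606432) (l 16621576)) (l 16642736)) (a (a (l 16587600) (l 16602880)) (l 16623552))) (b (a (a (l 16567696) (l 16583576)) (a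 (l 16597472) (l 16609352))) (b (a (a (l 16551656) (l 16568448)) (l 16589392)) (a (a (l 16539472) (l 16557576)) (l 16579352))))) (a (a (l 16556376) (l 16512176)) (a (l 16527744) (l 16540888))))) (a (a (a (b (c (b (l 16304104) (l 16265880)) (b (l 16298200) (l 16260552))) (c (a (l 16199696) (l 16218136)) (b (l 16222280) (l 16183448)))) (b (c (b (l 16340992) (l 16302552)) (l 16212280)) (c (l 16182864) (l 16237048)))) (a (b (c (l 16295376) (l 16330672)) (b (l 16295936) (l 16257112))) (b (l 16473016) (l 16227176)))) (a (a (b (l 16414256) (l 16336368)) (b (l 16432960) (l 16355624))) (a (l 16411960) (l 16511960))))), by decide +kernel⟩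

def k3_pp_022 : ∃ t, chk3 f_pp_022 t 2 3 1 = true :=
  ⟨(a (b (a (b (a (b (c (l 16050744) (l 16124168)) (c (l 16062040) (l 16044688))) (b (c (l 16171656) (l 16156728)) (c (l 16099544) (l 16076688)))) (a (b (c (l 15991440) (l 15965344)) (c (l 15922424) (l 15887536))) (b (l 15930368) (c (l 15960512) (l 15922112))))) (b (a (b (l 16073976) (l 16061640)) (b (l 16129760) (l 16159600))) (a (b (l 15967192) (l 15979480)) (b (l 16086872) (l 16017496))))) (a (b (a (b (l 15813456) (c (l 15790992) (l 15738912))) (b (l 15851168) (l 15804656))) (a (b (l 15700064) (l 15637968)) (b (l 15741544) (l 15684312)))) (b (a (b (l 15910920) (l 15847136)) (b (l 15953072) (l 15894448))) (a (l 15973176) (l 2))))) (b (b (a (b (a (l 16239144) (l 16281040)) (l 16198768)) (b (l 16313344) (l 16017248))) (a (a (b (l 16116296) (l 16051064)) (b (l 16143872) (l 16083200))) (a (l 15956232) (l 2)))) (a (b (a (l 15734064) (l 2)) (l 2)) (l 2)))), by decide +kernel⟩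

def k4_pp_022 : ∃ t, chk3 f_pp_022 t 3 1 1 = true :=
  ⟨(a (b (b (l 3) (b (b (b (b (l 3) (a (l 16642664) (l 3))) (b (a (l 16623152) (l 3)) (b (a (l 16608648) (l 16617328)) (a (l 16599136) (l 16608632))))) (a (l 16683048) (a (l 16567480) (l 16571752)))) (a (b (l 16484952) (l 16417056)) (b (l 16505616) (l 2))))) (b (b (a (b (l 16355000) (l 2)) (l 2)) (l 2)) (l 2))) (b (b (l 3) (b (b (b (l 3) (l 2)) (l 2)) (l 2))) (l 2))), by decide +kernel⟩

theorem s5_pp_022 : ∃ t, chk3 f_pp_022 t 2 4 1 = true := ex3_b k0_pp_022 k1_pp_022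

theorem s6_pp_022 : ∃ t, chk3 f_pp_022 t 2 2 1 = true := ex3_b s5_pp_022 k2_pp_022

theorem s7_pp_022 : ∃ t, chk3 f_pp_022 t 2 1 1 = true := ex3_b s6_pp_022 k3_pp_022

theorem s8_pp_022 : ∃ t, chk3 f_pp_022 t 1 1 1 = true := ex3_a s7_pp_022 k4_pp_022

theorem c_pp_022 : CertB 0 536870912 1073741824 536870912 858993459 64424510 3 eng mog cd1q0 cd4q2 pd2 false true true .pp 0 2 2
    ndB1q0 ndB4q2 pcB2 cut_pp_022 Ext.none :=
  certB1 (fam := false) (s1 := true) (s2 := true) (a := 0) (b := 2) (c := 2) (cn := .pp) (n1 := ndB1q0) (n2 := ndB4q2) (pc := pcB2) (cut := cut_pp_022) (xt := Ext.none) (P1 := 0) (W1 := 536870912) (P2 := 1073741824) (W2 := 536870912) (P3 := 858993459) (W3 := 64424510) (N0 := 3) (En := eng) (mo := mog) (C1 := cd1q0) (C2 := cd4q2) (C3 := pd2)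
    rfl (fun _ => rfl) s8_pp_022

noncomputable def f_pp_023 : ℕ → ℕ → ℕ → ℕ → Bool := onCell 1073741824 536870912 0 1230186008 858993459 64424510
    (rowB 3 eng mog cd1q0 cd4q3 pd2 2 false true true .up 0 2 3 (qsf 0 536870912 0 1230186008 2) ndB1q0 ndB4q3 pcB2 Cut.none Ext.none)

def k0_pp_023 : ∃ t, chk3 f_pp_023 t 1 1 1 = true :=
  ⟨(b (a (l 2) (a (l 2) (a (b (l 2) (b (l 15918928) (b (l 16292816) (l 16377584)))) (b (b (l 16066760) (l 15807856)) (b (b (l 15957232) (l 16082416)) (b (l 16215952) (l 16313192))))))) (a (a (b (l 2) (b (l 2) (l 3))) (b (a (l 2) (b (l 2) (b (l 2) (l 16495480)))) (b (b (a (a (l 2) (l 16549320)) (l 16509592)) (a (a (a (l 16534792) (a (l 16593040) (a (l 16589872) (l 16586384)))) (l 16568096)) (l 16505344))) (a (a (a (l 3) (a (b (l 3) (l 3)) (b (a (l 16608296) (l 16602448)) (a (l 3) (l 16609264))))) (b (l 16574424) (l 16572376))) (b (l 16488536) (l 16464960)))))) (b (a (b (b (l 16421240) (l 16426840)) (b (l 16423232) (l 16408992)))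 (b (a (l 16370592) (b (l 16329120) (l 16287512))) (b (l 16276600) (l 16110592)))) (b (a (b (c (l 16401168) (l 16365208)) (l 16338448)) (b (a (l 16207568) (l 16069864)) (b (l 16074904) (l 16026200)))) (b (a (a (l 16354880) (l 16203608)) (b (l 15976376) (l 15736456))) (a (b (l 16090168) (a (l 16292688) (l 16115264))) (b (a (l 15970880) (l 15772904)) (a (l 15921720) (l 15716840))))))))), by decide +kernel⟩

theorem c_pp_023 : CertB 0 536870912 0 1230186008 858993459 64424510 3 eng mog cd1q0 cd4q3 pd2 false true true .up 0 2 3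
    ndB1q0 ndB4q3 pcB2 Cut.none Ext.none :=
  certB2 (fam := false) (s1 := true) (s2 := true) (a := 0) (b := 2) (c := 3) (cn := .up) (n1 := ndB1q0) (n2 := ndB4q3) (pc := pcB2) (cut := Cut.none) (xt := Ext.none) (P1 := 0) (W1 := 536870912) (P2 := 0) (W2 := 1230186008) (P3 := 858993459) (W3 := 64424510) (N0 := 3) (En := eng) (mo := mog) (C1 := cd1q0) (C2 := cd4q3) (C3 := pd2)
    rfl (fun _ => rfl) k0_pp_023

noncomputable def f_pp_033 : ℕ → ℕ → ℕ → ℕ → Bool := onCell 1610612736 536870912 0 1230186008 858993459 64424510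
    (rowB 3 eng mog cd1q0 cd4q3 pd3 2 false true true .pnn 0 3 3 (qsf 0 536870912 0 1230186008 3) ndB1q0 ndB4q3 pcB3 Cut.none Ext.none)

def k0_pp_033 : ∃ t, chk3 f_pp_033 t 1 2 1 = true :=
  ⟨(b (b (a (a (a (l 16188872) (a (l 16255416) (l 16234184))) (a (a (l 16211984) (l 16187360)) (l 4))) (l 4)) (a (a (a (l 16449952) (l 16327048)) (a (l 16146568) (a (l 16184408) (l 16144112)))) (a (a (a (l 16104000) (l 16061536)) (l 4)) (l 4)))) (a (a (b (a (b (l 16476152) (l 16442512)) (b (l 16427960) (l 16404536))) (a (l 16269432) (l 16262248))) (a (b (b (l 16296656) (l 16317800)) (b (l 16304520) (l 16209712))) (b (l 16176656) (b (l 16161656) (l 16114752))))) (b (a (a (a (l 16089304) (l 16037976)) (a (l 15989408) (l 15937920))) (a (a (l 15811936) (l 4)) (l 4))) (a (a (b (l 16016696) (l 15963488)) (a (b (l 15918696) (l 15841296)) (l 15818464))) (a (a (b (l 15818064) (l 15726640)) (l 752187388103)) (b (l 4) (l 1))))))), by decide +kernel⟩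

def k1_pp_033 : ∃ t, chk3 f_pp_033 t 1 3 1 = true :=
  ⟨(b (a (a (b (a (b (l 16247296) (l 16172144)) (b (l 16170560) (l 16070160))) (b (l 16047552) (l 15923032))) (b (a (b (l 16095984) (l 15970368)) (b (l 16023336) (l 15870712))) (b (a (l 15832680) (l 15693640)) (a (l 15686336) (l 15515296))))) (b (a (a (a (b (l 15930904) (l 15793856)) (b (l 15847432) (l 15747192))) (a (b (l 15758208) (l 15685464)) (b (l 15671520) (l 15606288)))) (b (a (a (a (l 15613296) (l 1)) (l 1)) (l 1)) (l 1))) (a (a (b (a (l 15588072) (l 15527616)) (a (l 15385680) (l 15304600))) (b (a (l 15479280) (l 1)) (l 1))) (l 1)))) (a (b (a (b (a (l 15894152) (b (l 15757600) (l 15693832))) (a (l 15892584) (b (l 15632624) (l 15564448)))) (b (a (b (l 15577112) (l 15508136)) (b (l 15392184) (l 15323856))) (a (b (l 15440288) (l 15368952)) (l 1)))) (a (b (a (b (l 15695200) (l 15626616)) (b (l 15492240) (l 15419024))) (b (a (l 15556352) (a (l 15396856) (l 1))) (a (c (l 15532024) (l 355976806119))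 (l 1)))) (b (a (b (l 15549456) (l 1)) (l 1)) (l 1)))) (l 1))), by decide +kernel⟩

theorem s2_pp_033 : ∃ t, chk3 f_pp_033 t 1 1 1 = true := ex3_b k0_pp_033 k1_pp_033

theorem c_pp_033 : CertB 0 536870912 0 1230186008 858993459 64424510 3 eng mog cd1q0 cd4q3 pd3 false true true .pnn 0 3 3
    ndB1q0 ndB4q3 pcB3 Cut.none Ext.none :=
  certB2 (fam := false) (s1 := true) (s2 := true) (a := 0) (b := 3) (c := 3) (cn := .pnn) (n1 := ndB1q0) (n2 := ndB4q3) (pc := pcB3) (cut := Cut.none) (xt := Ext.none) (P1 := 0) (W1 := 536870912) (P2 := 0) (W2 := 1230186008) (P3 := 858993459) (W3 := 64424510) (N0 := 3) (En := eng) (mo := mog) (C1 := cd1q0) (C2 := cd4q3) (C3 := pd3)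
    rfl (fun _ => rfl) s2_pp_033

noncomputable def f_pp_101 : ℕ → ℕ → ℕ → ℕ → Bool := onCell 536870912 536870912 536870912 536870912 858993459 64424510
    (rowB 3 eng mog cd1q1 cd4q1 pd0 0 false true true .npn 1 0 1 (qsf 536870912 536870912 536870912 536870912 0) ndB1q1 ndB4q1 pcB0 Cut.none Ext.none)

def k0_pp_101 : ∃ t, chk3 f_pp_101 t 1 1 1 = true :=
  ⟨(l 3), by decide +kernel⟩

theorem c_pp_101 : CertB 536870912 536870912 536870912 536870912 858993459 64424510 3 eng mog cd1q1 cd4q1 pd0 false true true .npn 1 0 1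
    ndB1q1 ndB4q1 pcB0 Cut.none Ext.none :=
  certB0 (fam := false) (s1 := true) (s2 := true) (a := 1) (b := 0) (c := 1) (cn := .npn) (n1 := ndB1q1) (n2 := ndB4q1) (pc := pcB0) (cut := Cut.none) (xt := Ext.none) (P1 := 536870912) (W1 := 536870912) (P2 := 536870912) (W2 := 536870912) (P3 := 858993459) (W3 := 64424510) (N0 := 3) (En := eng) (mo := mog) (C1 := cd1q1) (C2 := cd4q1) (C3 := pd0)
    rfl k0_pp_101

noncomputable def f_pp_102 : ℕ → ℕ → ℕ → ℕ → Bool := onCell 536870912 536870912 1073741824 536870912 858993459 64424510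
    (rowB 3 eng mog cd1q1 cd4q2 pd0 0 false true true .npp 1 0 2 (qsf 536870912 536870912 1073741824 536870912 0) ndB1q1 ndB4q2 pcB0 Cut.none Ext.none)

def k0_pp_102 : ∃ t, chk3 f_pp_102 t 1 1 1 = true :=
  ⟨(l 3), by decide +kernel⟩

theorem c_pp_102 : CertB 536870912 536870912 1073741824 536870912 858993459 64424510 3 eng mog cd1q1 cd4q2 pd0 false true true .npp 1 0 2
    ndB1q1 ndB4q2 pcB0 Cut.none Ext.none :=
  certB0 (fam := false) (s1 := true) (s2 := true) (a := 1) (b := 0) (c := 2) (cn := .npp) (n1 := ndB1q1) (n2 := ndB4q2) (pc := pcB0) (cut := Cut.none) (xt := Ext.none) (P1 := 536870912) (W1 := 536870912) (P2 := 1073741824) (W2 := 536870912) (P3 := 858993459) (W3 := 64424510) (N0 := 3) (En := eng) (mo := mog) (C1 := cd1q1) (C2 := cd4q2) (C3 := pd0)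
    rfl k0_pp_102

noncomputable def f_pp_112 : ℕ → ℕ → ℕ → ℕ → Bool := onCell 536870912 536870912 1073741824 536870912 858993459 64424510
    (rowB 3 eng mog cd1q1 cd4q2 pd1 0 false true true .dn 1 1 2 (qsf 536870912 536870912 1073741824 536870912 1) ndB1q1 ndB4q2 pcB1 Cut.none Ext.none)

def k0_pp_112 : ∃ t, chk3 f_pp_112 t 1 1 1 = true :=
  ⟨(l 3), by decide +kernel⟩

theorem c_pp_112 : CertB 536870912 536870912 1073741824 536870912 858993459 64424510 3 eng mog cd1q1 cd4q2 pd1 false true true .dn 1 1 2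
    ndB1q1 ndB4q2 pcB1 Cut.none Ext.none :=
  certB0 (fam := false) (s1 := true) (s2 := true) (a := 1) (b := 1) (c := 2) (cn := .dn) (n1 := ndB1q1) (n2 := ndB4q2) (pc := pcB1) (cut := Cut.none) (xt := Ext.none) (P1 := 536870912) (W1 := 536870912) (P2 := 1073741824) (W2 := 536870912) (P3 := 858993459) (W3 := 64424510) (N0 := 3) (En := eng) (mo := mog) (C1 := cd1q1) (C2 := cd4q2) (C3 := pd1)
    rfl k0_pp_112

noncomputable def f_pp_113 : ℕ → ℕ → ℕ → ℕ → Bool := onCell 536870912 536870912 0 1230186008 858993459 64424510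
    (rowB 3 eng mog cd1q1 cd4q3 pd1 2 false true true .nn 1 1 3 (qsf 536870912 536870912 0 1230186008 1) ndB1q1 ndB4q3 pcB1 Cut.none Ext.none)

def k0_pp_113 : ∃ t, chk3 f_pp_113 t 1 1 1 = true :=
  ⟨(b (a (l 2) (a (l 2) (b (a (l 2) (a (l 2) (b (l 16741728) (l 639513406903)))) (a (b (l 3) (l 3)) (b (a (c (l 322289721239) (b (l 16608472) (l 494625436423))) (c (l 16818944) (l 275045217047))) (a (l 3) (c (l 307257473975) (l 283635252567)))))))) (a (b (l 3) (l 3)) (b (l 3) (l 3)))), by decide +kernel⟩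

theorem c_pp_113 : CertB 536870912 536870912 0 1230186008 858993459 64424510 3 eng mog cd1q1 cd4q3 pd1 false true true .nn 1 1 3
    ndB1q1 ndB4q3 pcB1 Cut.none Ext.none :=
  certB2 (fam := false) (s1 := true) (s2 := true) (a := 1) (b := 1) (c := 3) (cn := .nn) (n1 := ndB1q1) (n2 := ndB4q3) (pc := pcB1) (cut := Cut.none) (xt := Ext.none) (P1 := 536870912) (W1 := 536870912) (P2 := 0) (W2 := 1230186008) (P3 := 858993459) (W3 := 64424510) (N0 := 3) (En := eng) (mo := mog) (C1 := cd1q1) (C2 := cd4q3) (C3 := pd1)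
    rfl (fun _ => rfl) k0_pp_113

noncomputable def f_pp_123 : ℕ → ℕ → ℕ → ℕ → Bool := onCell 1073741824 536870912 0 1230186008 858993459 64424510
    (rowB 3 eng mog cd1q1 cd4q3 pd2 2 false true true .npn 1 2 3 (qsf 536870912 536870912 0 1230186008 2) ndB1q1 ndB4q3 pcB2 Cut.none Ext.none)

def k0_pp_123 : ∃ t, chk3 f_pp_123 t 4 1 1 = true :=
  ⟨(b (b (a (b (l 16667424) (a (l 16751560) (l 16611176))) (b (l 16549664) (a (l 16585944) (l 16552056)))) (a (b (a (b (l 16637808) (l 16703720)) (c (l 16673784) (l 16587976))) (b (a (c (l 16820160) (l 16716936)) (l 16711768)) (a (c (l 16819160) (l 16746192)) (c (l 16829712) (l 16459912))))) (a (b (b (l 16586928) (l 16616104)) (c (l 16806064) (b (l 16558752) (l 16566752)))) (b (b (l 16569472) (l 16589080)) (c (l 16782328) (l 16498944)))))) (b (b (b (a (a (l 3) (c (l 340007373239) (a (l 16676744) (l 16615688)))) (a (c (l 281487568311) (a (l 16570304) (l 16535304))) (a (l 16495512) (l 16585016)))) (a (l 3) (a (c (a (l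 16712040) (l 16687536)) (a (l 16509848) (l 16496904))) (c (c (l 16784024) (l 16658560)) (a (l 16476840) (l 16447936)))))) (a (l 3) (b (a (a (l 3) (c (l 392620070775) (l 16476672))) (a (b (l 239074432887) (l 236389997751)) (b (l 16443800) (l 16370184)))) (a (l 3) (c (c (l 234242432999) (l 16605200)) (c (l 16546968) (l 16210344))))))) (a (l 3) (b (a (l 3) (b (c (c (l 458117519015) (l 16510744)) (c (l 16422224) (l 430200127207))) (l 3))) (l 3))))), by decide +kernel⟩

def k1_pp_123 : ∃ t, chk3 f_pp_123 t 5 1 1 = true :=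
  ⟨(b (b (b (a (l 16397088) (l 16258192)) (a (c (l 16559640) (l 16403560)) (c (l 16470064) (l 16213384)))) (a (b (a (a (l 16563256) (c (l 16662424) (l 16441088))) (c (l 16654120) (l 16416232))) (c (a (a (l 16761616) (l 16750584)) (l 16744416)) (a (c (l 16524232) (l 16369872)) (l 16421208)))) (b (c (l 16626472) (l 16353296)) (c (l 16728480) (b (l 16397288) (l 16390784)))))) (b (a (a (a (b (c (l 16674264) (l 16333936)) (c (b (l 16616096) (c (l 16486976) (l 16627416))) (b (l 16347888) (c (l 16546288) (l 16361168))))) (b (c (b (l 16696232) (l 16656064)) (b (l 16416896) (l 16425592))) (b (c (l 16623224) (l 16436800)) (a (c (l 16595016) (l 16455504)) (a (c (l 16598992) (l 16447512)) (c (l 16602464) (l 16441344))))))) (b (c (l 16683688) (b (l 16412496) (l 16410408))) (c (b (l 16638040) (l 16616160)) (b (l 16412768) (l 16421384))))) (b (c (b (l 16728536) (l 16699376)) (b (l 16380072) (l 16371600))) (b (c (l 16674984) (l 16284560)) (c (l 16655912) (a (l 16389032)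 (l 16361152)))))) (a (a (a (b (b (c (c (l 16458120) (l 16615080)) (c (l 16567752) (l 16368648))) (b (c (l 578913712695) (l 16295496)) (l 3))) (l 3)) (b (a (b (c (l 16572760) (c (l 16565008) (l 16349768))) (c (l 627768844215) (c (l 16597856) (l 16376584)))) (b (a (c (l 16576728) (l 16464520)) (c (l 16579992) (l 16417408))) (a (c (l 16405888) (c (l 16595968) (l 16368640))) (c (l 16535000) (l 136397917879))))) (l 1))) (b (b (c (l 16594752) (c (l 16552064) (l 16310360))) (c (l 201359231527) (c (l 16582136) (l 16343920)))) (l 1))) (b (b (c (l 16405408) (c (l 16520544) (l 16175184))) (l 1)) (l 1))))), by decide +kernel⟩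

def k2_pp_123 : ∃ t, chk3 f_pp_123 t 3 1 1 = true :=
  ⟨(b (a (b (b (a (c (l 16292528) (l 16013264)) (l 16119840)) (a (c (l 16361416) (l 15838512)) (c (l 16289672) (l 15756704)))) (b (a (c (l 16562712) (l 16250168)) (c (l 16492944) (l 15916760))) (c (a (l 16714232) (b (l 16651584) (l 16712344))) (a (b (l 16345752) (l 16352232)) (c (l 16403112) (l 16125648)))))) (b (b (a (c (l 16337112) (l 15920144)) (c (l 16422512) (l 15956696))) (a (c (l 16143800) (l 15899864)) (c (l 16309152) (l 15896432)))) (b (a (c (l 16412928) (l 15905680)) (c (l 16346776) (b (l 15899912) (l 16037880)))) (c (a (l 16647384) (l 16610944)) (a (b (l 16214280) (l 16296360)) (l 16181192)))))) (b (a (b (c (a (l 16758736) (l 16756536)) (c (a (l 16450304) (l 16426472)) (a (l 16203768) (l 16173800)))) (c (a (b (l 16724312) (l 16706368)) (l 260953274919)) (b (a (l 16258712) (l 16296560)) (a (l 16204272) (l 1))))) (a (b (b (l 373157840103) (l 1)) (l 1)) (l 1))) (l 1))), by decide +kernel⟩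

theorem s3_pp_123 : ∃ t, chk3 f_pp_123 t 2 1 1 = true := ex3_a k0_pp_123 k1_pp_123

theorem s4_pp_123 : ∃ t, chk3 f_pp_123 t 1 1 1 = true := ex3_a s3_pp_123 k2_pp_123

theorem c_pp_123 : CertB 536870912 536870912 0 1230186008 858993459 64424510 3 eng mog cd1q1 cd4q3 pd2 false true true .npn 1 2 3
    ndB1q1 ndB4q3 pcB2 Cut.none Ext.none :=
  certB2 (fam := false) (s1 := true) (s2 := true) (a := 1) (b := 2) (c := 3) (cn := .npn) (n1 := ndB1q1) (n2 := ndB4q3) (pc := pcB2) (cut := Cut.none) (xt := Ext.none) (P1 := 536870912) (W1 := 536870912) (P2 := 0) (W2 := 1230186008) (P3 := 858993459) (W3 := 64424510) (N0 := 3) (En := eng) (mo := mog) (C1 := cd1q1) (C2 := cd4q3) (C3 := pd2)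
    rfl (fun _ => rfl) s4_pp_123

noncomputable def f_pp_133 : ℕ → ℕ → ℕ → ℕ → Bool := onCell 536870912 536870912 0 1230186008 858993459 64424510
    (rowB 3 eng mog cd1q1 cd4q3 pd3 0 false true true .dn 1 3 3 (qsf 536870912 536870912 0 1230186008 3) ndB1q1 ndB4q3 pcB3 Cut.none Ext.none)

def k0_pp_133 : ∃ t, chk3 f_pp_133 t 1 1 1 = true :=
  ⟨(b (b (a (a (b (a (c (l 16727216) (l 16192736)) (l 1)) (l 1)) (l 1)) (l 1)) (l 1)) (l 1)), by decide +kernel⟩

theorem c_pp_133 : CertB 536870912 536870912 0 1230186008 858993459 64424510 3 eng mog cd1q1 cd4q3 pd3 false true true .dn 1 3 3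
    ndB1q1 ndB4q3 pcB3 Cut.none Ext.none :=
  certB0 (fam := false) (s1 := true) (s2 := true) (a := 1) (b := 3) (c := 3) (cn := .dn) (n1 := ndB1q1) (n2 := ndB4q3) (pc := pcB3) (cut := Cut.none) (xt := Ext.none) (P1 := 536870912) (W1 := 536870912) (P2 := 0) (W2 := 1230186008) (P3 := 858993459) (W3 := 64424510) (N0 := 3) (En := eng) (mo := mog) (C1 := cd1q1) (C2 := cd4q3) (C3 := pd3)
    rfl k0_pp_133

noncomputable def f_pp_202_a : ℕ → ℕ → ℕ → ℕ → Bool := onCell 0 536870912 1073741824 536870912 858993459 64424510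
    (rowB 3 eng mog cd1q2a cd4q2 pd0 0 false true true .pp 2 0 2 (qsf 0 536870912 1073741824 536870912 0) ndB1q2a ndB4q2 pcB0 Cut.none Ext.none)

def k0_pp_202_a : ∃ t, chk3 f_pp_202_a t 1 1 1 = true :=
  ⟨(l 5), by decide +kernel⟩

theorem c_pp_202_a : CertB 0 536870912 1073741824 536870912 858993459 64424510 3 eng mog cd1q2a cd4q2 pd0 false true true .pp 2 0 2
    ndB1q2a ndB4q2 pcB0 Cut.none Ext.none :=
  certB0 (fam := false) (s1 := true) (s2 := true) (a := 2) (b := 0) (c := 2) (cn := .pp) (n1 := ndB1q2a) (n2 := ndB4q2) (pc := pcB0) (cut := Cut.none) (xt := Ext.none) (P1 := 0) (W1 := 536870912) (P2 := 1073741824) (W2 := 536870912) (P3 := 858993459) (W3 := 64424510) (N0 := 3) (En := eng) (mo := mog) (C1 := cd1q2a) (C2 := cd4q2) (C3 := pd0)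
    rfl k0_pp_202_a

noncomputable def f_pp_202_b : ℕ → ℕ → ℕ → ℕ → Bool := onCell 1239849684 370763052 1073741824 536870912 858993459 64424510
    (rowB 3 eng mog cd1q2b cd4q2 pd0 0 false true true .pp 2 0 2 (qsf 1239849684 370763052 1073741824 536870912 0) ndB1q2b ndB4q2 pcB0 Cut.none Ext.none)

def k0_pp_202_b : ∃ t, chk3 f_pp_202_b t 1 1 1 = true :=
  ⟨(l 5), by decide +kernel⟩

theorem c_pp_202_b : CertB 1239849684 370763052 1073741824 536870912 858993459 64424510 3 eng mog cd1q2b cd4q2 pd0 false true true .pp 2 0 2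
    ndB1q2b ndB4q2 pcB0 Cut.none Ext.none :=
  certB0 (fam := false) (s1 := true) (s2 := true) (a := 2) (b := 0) (c := 2) (cn := .pp) (n1 := ndB1q2b) (n2 := ndB4q2) (pc := pcB0) (cut := Cut.none) (xt := Ext.none) (P1 := 1239849684) (W1 := 370763052) (P2 := 1073741824) (W2 := 536870912) (P3 := 858993459) (W3 := 64424510) (N0 := 3) (En := eng) (mo := mog) (C1 := cd1q2b) (C2 := cd4q2) (C3 := pd0)
    rfl k0_pp_202_b

noncomputable def f_pp_203_a : ℕ → ℕ → ℕ → ℕ → Bool := onCell 0 536870912 0 1230186008 858993459 64424510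
    (rowB 3 eng mog cd1q2a cd4q3 pd0 0 false true true .up 2 0 3 (qsf 0 536870912 0 1230186008 0) ndB1q2a ndB4q3 pcB0 Cut.none Ext.none)

def k0_pp_203_a : ∃ t, chk3 f_pp_203_a t 1 1 1 = true :=
  ⟨(b (l 2) (b (l 2) (b (l 3) (l 5)))), by decide +kernel⟩

theorem c_pp_203_a : CertB 0 536870912 0 1230186008 858993459 64424510 3 eng mog cd1q2a cd4q3 pd0 false true true .up 2 0 3
    ndB1q2a ndB4q3 pcB0 Cut.none Ext.none :=
  certB0 (fam := false) (s1 := true) (s2 := true) (a := 2) (b := 0) (c := 3) (cn := .up) (n1 := ndB1q2a) (n2 := ndB4q3) (pc := pcB0) (cut := Cut.none) (xt := Ext.none) (P1 := 0) (W1 := 536870912) (P2 := 0) (W2 := 1230186008) (P3 := 858993459) (W3 := 64424510) (N0 := 3) (En := eng) (mo := mog) (C1 := cd1q2a) (C2 := cd4q3) (C3 := pd0)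
    rfl k0_pp_203_a

noncomputable def f_pp_203_b : ℕ → ℕ → ℕ → ℕ → Bool := onCell 1239849684 370763052 0 1230186008 858993459 64424510
    (rowB 3 eng mog cd1q2b cd4q3 pd0 0 false true true .up 2 0 3 (qsf 1239849684 370763052 0 1230186008 0) ndB1q2b ndB4q3 pcB0 Cut.none Ext.none)

def k0_pp_203_b : ∃ t, chk3 f_pp_203_b t 1 1 1 = true :=
  ⟨(b (l 3) (l 5)), by decide +kernel⟩

theorem c_pp_203_b : CertB 1239849684 370763052 0 1230186008 858993459 64424510 3 eng mog cd1q2b cd4q3 pd0 false true true .up 2 0 3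
    ndB1q2b ndB4q3 pcB0 Cut.none Ext.none :=
  certB0 (fam := false) (s1 := true) (s2 := true) (a := 2) (b := 0) (c := 3) (cn := .up) (n1 := ndB1q2b) (n2 := ndB4q3) (pc := pcB0) (cut := Cut.none) (xt := Ext.none) (P1 := 1239849684) (W1 := 370763052) (P2 := 0) (W2 := 1230186008) (P3 := 858993459) (W3 := 64424510) (N0 := 3) (En := eng) (mo := mog) (C1 := cd1q2b) (C2 := cd4q3) (C3 := pd0)
    rfl k0_pp_203_b

noncomputable def cut_pp_213_a : Cut := Cut.of [[⟨0, 1, 0, 67108864⟩, ⟨1, 1, 0, 67108864⟩, ⟨2, 2, 0, 16777216⟩]]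

noncomputable def f_pp_213_a : ℕ → ℕ → ℕ → ℕ → Bool := onCell 0 536870912 0 1230186008 858993459 64424510
    (rowB 3 eng mog cd1q2a cd4q3 pd1 0 false true true .pnn 2 1 3 (qsf 0 536870912 0 1230186008 1) ndB1q2a ndB4q3 pcB1 cut_pp_213_a Ext.none)

def k0_pp_213_a : ∃ t, chk3 f_pp_213_a t 1 1 1 = true :=
  ⟨(b (a (l 3) (b (a (l 3) (b (a (l 3) (l 6)) (l 3))) (l 3))) (b (l 3) (b (l 3) (l 5)))), by decide +kernel⟩

theorem c_pp_213_a : CertB 0 536870912 0 1230186008 858993459 64424510 3 eng mog cd1q2a cd4q3 pd1 false true true .pnn 2 1 3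
    ndB1q2a ndB4q3 pcB1 cut_pp_213_a Ext.none :=
  certB0 (fam := false) (s1 := true) (s2 := true) (a := 2) (b := 1) (c := 3) (cn := .pnn) (n1 := ndB1q2a) (n2 := ndB4q3) (pc := pcB1) (cut := cut_pp_213_a) (xt := Ext.none) (P1 := 0) (W1 := 536870912) (P2 := 0) (W2 := 1230186008) (P3 := 858993459) (W3 := 64424510) (N0 := 3) (En := eng) (mo := mog) (C1 := cd1q2a) (C2 := cd4q3) (C3 := pd1)
    rfl k0_pp_213_a

noncomputable def cut_pp_213_b : Cut := Cut.of [[⟨0, 1, 0, 67108864⟩, ⟨1, 1, 0, 67108864⟩, ⟨2, 2, 0, 16777216⟩]]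

noncomputable def f_pp_213_b : ℕ → ℕ → ℕ → ℕ → Bool := onCell 1239849684 370763052 0 1230186008 858993459 64424510
    (rowB 3 eng mog cd1q2b cd4q3 pd1 0 false true true .pnn 2 1 3 (qsf 1239849684 370763052 0 1230186008 1) ndB1q2b ndB4q3 pcB1 cut_pp_213_b Ext.none)

def k0_pp_213_b : ∃ t, chk3 f_pp_213_b t 1 1 1 = true :=
  ⟨(b (l 3) (l 5)), by decide +kernel⟩

theorem c_pp_213_b : CertB 1239849684 370763052 0 1230186008 858993459 64424510 3 eng mog cd1q2b cd4q3 pd1 false true true .pnn 2 1 3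
    ndB1q2b ndB4q3 pcB1 cut_pp_213_b Ext.none :=
  certB0 (fam := false) (s1 := true) (s2 := true) (a := 2) (b := 1) (c := 3) (cn := .pnn) (n1 := ndB1q2b) (n2 := ndB4q3) (pc := pcB1) (cut := cut_pp_213_b) (xt := Ext.none) (P1 := 1239849684) (W1 := 370763052) (P2 := 0) (W2 := 1230186008) (P3 := 858993459) (W3 := 64424510) (N0 := 3) (En := eng) (mo := mog) (C1 := cd1q2b) (C2 := cd4q3) (C3 := pd1)
    rfl k0_pp_213_b

noncomputable def f_pp_303 : ℕ → ℕ → ℕ → ℕ → Bool := onCell 1610612736 536870912 0 1230186008 858993459 64424510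
    (rowB 3 eng mog cd1q3 cd4q3 pd0 0 false true true .npn 3 0 3 (qsf 1610612736 536870912 0 1230186008 0) ndB1q3 ndB4q3 pcB0 Cut.none Ext.none)

def k0_pp_303 : ∃ t, chk3 f_pp_303 t 1 1 1 = true :=
  ⟨(b (l 3) (l 5)), by decide +kernel⟩

theorem c_pp_303 : CertB 1610612736 536870912 0 1230186008 858993459 64424510 3 eng mog cd1q3 cd4q3 pd0 false true true .npn 3 0 3
    ndB1q3 ndB4q3 pcB0 Cut.none Ext.none :=
  certB0 (fam := false) (s1 := true) (s2 := true) (a := 3) (b := 0) (c := 3) (cn := .npn) (n1 := ndB1q3) (n2 := ndB4q3) (pc := pcB0) (cut := Cut.none) (xt := Ext.none) (P1 := 1610612736) (W1 := 536870912) (P2 := 0) (W2 := 1230186008) (P3 := 858993459) (W3 := 64424510) (N0 := 3) (En := eng) (mo := mog) (C1 := cd1q3) (C2 := cd4q3) (C3 := pd0)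
    rfl k0_pp_303

noncomputable def f_pp_313 : ℕ → ℕ → ℕ → ℕ → Bool := onCell 1610612736 536870912 0 1230186008 858993459 64424510
    (rowB 3 eng mog cd1q3 cd4q3 pd1 0 false true true .dn 3 1 3 (qsf 1610612736 536870912 0 1230186008 1) ndB1q3 ndB4q3 pcB1 Cut.none Ext.none)

def k0_pp_313 : ∃ t, chk3 f_pp_313 t 1 1 1 = true :=
  ⟨(b (l 3) (l 1)), by decide +kernel⟩

theorem c_pp_313 : CertB 1610612736 536870912 0 1230186008 858993459 64424510 3 eng mog cd1q3 cd4q3 pd1 false true true .dn 3 1 3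
    ndB1q3 ndB4q3 pcB1 Cut.none Ext.none :=
  certB0 (fam := false) (s1 := true) (s2 := true) (a := 3) (b := 1) (c := 3) (cn := .dn) (n1 := ndB1q3) (n2 := ndB4q3) (pc := pcB1) (cut := Cut.none) (xt := Ext.none) (P1 := 1610612736) (W1 := 536870912) (P2 := 0) (W2 := 1230186008) (P3 := 858993459) (W3 := 64424510) (N0 := 3) (En := eng) (mo := mog) (C1 := cd1q3) (C2 := cd4q3) (C3 := pd1)
    rfl k0_pp_313

noncomputable def f_pm_001 : ℕ → ℕ → ℕ → ℕ → Bool := onCell 0 536870912 536870912 536870912 858993459 64424510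
    (rowB 3 eng mog cd1q0 cd4q1 pd0 0 false true false .up 0 0 1 (qsf 0 536870912 536870912 536870912 0) ndB1q0 ndB4q1 pcB0 Cut.none Ext.none)

def k0_pm_001 : ∃ t, chk3 f_pm_001 t 1 1 1 = true :=
  ⟨(l 4), by decide +kernel⟩

theorem c_pm_001 : CertB 0 536870912 536870912 536870912 858993459 64424510 3 eng mog cd1q0 cd4q1 pd0 false true false .up 0 0 1
    ndB1q0 ndB4q1 pcB0 Cut.none Ext.none :=
  certB0 (fam := false) (s1 := true) (s2 := false) (a := 0) (b := 0) (c := 1) (cn := .up) (n1 := ndB1q0) (n2 := ndB4q1) (pc := pcB0) (cut := Cut.none) (xt := Ext.none) (P1 := 0) (W1 := 536870912) (P2 := 536870912) (W2 := 536870912) (P3 := 858993459) (W3 := 64424510) (N0 := 3) (En := eng) (mo := mog) (C1 := cd1q0) (C2 := cd4q1) (C3 := pd0)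
    rfl k0_pm_001

noncomputable def f_pm_011 : ℕ → ℕ → ℕ → ℕ → Bool := onCell 0 536870912 536870912 536870912 858993459 64424510
    (rowB 3 eng mog cd1q0 cd4q1 pd1 0 false true false .pnn 0 1 1 (qsf 0 536870912 536870912 536870912 1) ndB1q0 ndB4q1 pcB1 Cut.none Ext.none)

def k0_pm_011 : ∃ t, chk3 f_pm_011 t 1 1 1 = true :=
  ⟨(l 4), by decide +kernel⟩

theorem c_pm_011 : CertB 0 536870912 536870912 536870912 858993459 64424510 3 eng mog cd1q0 cd4q1 pd1 false true false .pnn 0 1 1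
    ndB1q0 ndB4q1 pcB1 Cut.none Ext.none :=
  certB0 (fam := false) (s1 := true) (s2 := false) (a := 0) (b := 1) (c := 1) (cn := .pnn) (n1 := ndB1q0) (n2 := ndB4q1) (pc := pcB1) (cut := Cut.none) (xt := Ext.none) (P1 := 0) (W1 := 536870912) (P2 := 536870912) (W2 := 536870912) (P3 := 858993459) (W3 := 64424510) (N0 := 3) (En := eng) (mo := mog) (C1 := cd1q0) (C2 := cd4q1) (C3 := pd1)
    rfl k0_pm_011

noncomputable def f_pm_012 : ℕ → ℕ → ℕ → ℕ → Bool := onCell 0 536870912 1073741824 536870912 858993459 64424510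
    (rowB 3 eng mog cd1q0 cd4q2 pd1 0 false true false .pnp 0 1 2 (qsf 0 536870912 1073741824 536870912 1) ndB1q0 ndB4q2 pcB1 Cut.none Ext.none)

def k0_pm_012 : ∃ t, chk3 f_pm_012 t 1 1 1 = true :=
  ⟨(l 4), by decide +kernel⟩

theorem c_pm_012 : CertB 0 536870912 1073741824 536870912 858993459 64424510 3 eng mog cd1q0 cd4q2 pd1 false true false .pnp 0 1 2
    ndB1q0 ndB4q2 pcB1 Cut.none Ext.none :=
  certB0 (fam := false) (s1 := true) (s2 := false) (a := 0) (b := 1) (c := 2) (cn := .pnp) (n1 := ndB1q0) (n2 := ndB4q2) (pc := pcB1) (cut := Cut.none) (xt := Ext.none) (P1 := 0) (W1 := 536870912) (P2 := 1073741824) (W2 := 536870912) (P3 := 858993459) (W3 := 64424510) (N0 := 3) (En := eng) (mo := mog) (C1 := cd1q0) (C2 := cd4q2) (C3 := pd1)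
    rfl k0_pm_012

noncomputable def f_pm_022 : ℕ → ℕ → ℕ → ℕ → Bool := onCell 0 536870912 1073741824 536870912 858993459 64424510
    (rowB 3 eng mog cd1q0 cd4q2 pd2 0 false true false .pp 0 2 2 (qsf 0 536870912 1073741824 536870912 2) ndB1q0 ndB4q2 pcB2 Cut.none Ext.none)

def k0_pm_022 : ∃ t, chk3 f_pm_022 t 1 1 1 = true :=
  ⟨(l 4), by decide +kernel⟩

theorem c_pm_022 : CertB 0 536870912 1073741824 536870912 858993459 64424510 3 eng mog cd1q0 cd4q2 pd2 false true false .pp 0 2 2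
    ndB1q0 ndB4q2 pcB2 Cut.none Ext.none :=
  certB0 (fam := false) (s1 := true) (s2 := false) (a := 0) (b := 2) (c := 2) (cn := .pp) (n1 := ndB1q0) (n2 := ndB4q2) (pc := pcB2) (cut := Cut.none) (xt := Ext.none) (P1 := 0) (W1 := 536870912) (P2 := 1073741824) (W2 := 536870912) (P3 := 858993459) (W3 := 64424510) (N0 := 3) (En := eng) (mo := mog) (C1 := cd1q0) (C2 := cd4q2) (C3 := pd2)
    rfl k0_pm_022

noncomputable def f_pm_023 : ℕ → ℕ → ℕ → ℕ → Bool := onCell 0 536870912 0 1230186008 858993459 64424510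
    (rowB 3 eng mog cd1q0 cd4q3 pd2 0 false true false .up 0 2 3 (qsf 0 536870912 0 1230186008 2) ndB1q0 ndB4q3 pcB2 Cut.none Ext.none)

def k0_pm_023 : ∃ t, chk3 f_pm_023 t 1 1 1 = true :=
  ⟨(b (b (a (l 2) (a (l 2) (a (l 2) (b (b (l 16194824) (l 4)) (l 4))))) (l 4)) (l 4)), by decide +kernel⟩

theorem c_pm_023 : CertB 0 536870912 0 1230186008 858993459 64424510 3 eng mog cd1q0 cd4q3 pd2 false true false .up 0 2 3
    ndB1q0 ndB4q3 pcB2 Cut.none Ext.none :=
  certB0 (fam := false) (s1 := true) (s2 := false) (a := 0) (b := 2) (c := 3) (cn := .up) (n1 := ndB1q0) (n2 := ndB4q3) (pc := pcB2) (cut := Cut.none) (xt := Ext.none) (P1 := 0) (W1 := 536870912) (P2 := 0) (W2 := 1230186008) (P3 := 858993459) (W3 := 64424510) (N0 := 3) (En := eng) (mo := mog) (C1 := cd1q0) (C2 := cd4q3) (C3 := pd2)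
    rfl k0_pm_023

noncomputable def f_pm_033 : ℕ → ℕ → ℕ → ℕ → Bool := onCell 0 536870912 0 1230186008 858993459 64424510
    (rowB 3 eng mog cd1q0 cd4q3 pd3 0 false true false .pnn 0 3 3 (qsf 0 536870912 0 1230186008 3) ndB1q0 ndB4q3 pcB3 Cut.none Ext.none)

def k0_pm_033 : ∃ t, chk3 f_pm_033 t 1 1 1 = true :=
  ⟨(b (a (l 4) (a (l 4) (b (a (l 4) (b (l 16204344) (l 4))) (l 4)))) (l 4)), by decide +kernel⟩

theorem c_pm_033 : CertB 0 536870912 0 1230186008 858993459 64424510 3 eng mog cd1q0 cd4q3 pd3 false true false .pnn 0 3 3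
    ndB1q0 ndB4q3 pcB3 Cut.none Ext.none :=
  certB0 (fam := false) (s1 := true) (s2 := false) (a := 0) (b := 3) (c := 3) (cn := .pnn) (n1 := ndB1q0) (n2 := ndB4q3) (pc := pcB3) (cut := Cut.none) (xt := Ext.none) (P1 := 0) (W1 := 536870912) (P2 := 0) (W2 := 1230186008) (P3 := 858993459) (W3 := 64424510) (N0 := 3) (En := eng) (mo := mog) (C1 := cd1q0) (C2 := cd4q3) (C3 := pd3)
    rfl k0_pm_033

noncomputable def f_pm_101 : ℕ → ℕ → ℕ → ℕ → Bool := onCell 536870912 536870912 536870912 536870912 858993459 64424510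
    (rowB 3 eng mog cd1q1 cd4q1 pd0 0 false true false .npn 1 0 1 (qsf 536870912 536870912 536870912 536870912 0) ndB1q1 ndB4q1 pcB0 Cut.none Ext.none)

def k0_pm_101 : ∃ t, chk3 f_pm_101 t 1 1 1 = true :=
  ⟨(l 4), by decide +kernel⟩

theorem c_pm_101 : CertB 536870912 536870912 536870912 536870912 858993459 64424510 3 eng mog cd1q1 cd4q1 pd0 false true false .npn 1 0 1
    ndB1q1 ndB4q1 pcB0 Cut.none Ext.none :=
  certB0 (fam := false) (s1 := true) (s2 := false) (a := 1) (b := 0) (c := 1) (cn := .npn) (n1 := ndB1q1) (n2 := ndB4q1) (pc := pcB0) (cut := Cut.none) (xt := Ext.none) (P1 := 536870912) (W1 := 536870912) (P2 := 536870912) (W2 := 536870912) (P3 := 858993459) (W3 := 64424510) (N0 := 3) (En := eng) (mo := mog) (C1 := cd1q1) (C2 := cd4q1) (C3 := pd0)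
    rfl k0_pm_101

noncomputable def f_pm_102 : ℕ → ℕ → ℕ → ℕ → Bool := onCell 536870912 536870912 1073741824 536870912 858993459 64424510
    (rowB 3 eng mog cd1q1 cd4q2 pd0 0 false true false .npp 1 0 2 (qsf 536870912 536870912 1073741824 536870912 0) ndB1q1 ndB4q2 pcB0 Cut.none Ext.none)

def k0_pm_102 : ∃ t, chk3 f_pm_102 t 1 1 1 = true :=
  ⟨(l 4), by decide +kernel⟩

theorem c_pm_102 : CertB 536870912 536870912 1073741824 536870912 858993459 64424510 3 eng mog cd1q1 cd4q2 pd0 false true false .npp 1 0 2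
    ndB1q1 ndB4q2 pcB0 Cut.none Ext.none :=
  certB0 (fam := false) (s1 := true) (s2 := false) (a := 1) (b := 0) (c := 2) (cn := .npp) (n1 := ndB1q1) (n2 := ndB4q2) (pc := pcB0) (cut := Cut.none) (xt := Ext.none) (P1 := 536870912) (W1 := 536870912) (P2 := 1073741824) (W2 := 536870912) (P3 := 858993459) (W3 := 64424510) (N0 := 3) (En := eng) (mo := mog) (C1 := cd1q1) (C2 := cd4q2) (C3 := pd0)
    rfl k0_pm_102

noncomputable def f_pm_112 : ℕ → ℕ → ℕ → ℕ → Bool := onCell 536870912 536870912 1073741824 536870912 858993459 64424510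
    (rowB 3 eng mog cd1q1 cd4q2 pd1 0 false true false .dn 1 1 2 (qsf 536870912 536870912 1073741824 536870912 1) ndB1q1 ndB4q2 pcB1 Cut.none Ext.none)

def k0_pm_112 : ∃ t, chk3 f_pm_112 t 1 1 1 = true :=
  ⟨(l 4), by decide +kernel⟩

theorem c_pm_112 : CertB 536870912 536870912 1073741824 536870912 858993459 64424510 3 eng mog cd1q1 cd4q2 pd1 false true false .dn 1 1 2
    ndB1q1 ndB4q2 pcB1 Cut.none Ext.none :=
  certB0 (fam := false) (s1 := true) (s2 := false) (a := 1) (b := 1) (c := 2) (cn := .dn) (n1 := ndB1q1) (n2 := ndB4q2) (pc := pcB1) (cut := Cut.none) (xt := Ext.none) (P1 := 536870912) (W1 := 536870912) (P2 := 1073741824) (W2 := 536870912) (P3 := 858993459) (W3 := 64424510) (N0 := 3) (En := eng) (mo := mog) (C1 := cd1q1) (C2 := cd4q2) (C3 := pd1)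
    rfl k0_pm_112

noncomputable def f_pm_113 : ℕ → ℕ → ℕ → ℕ → Bool := onCell 536870912 536870912 0 1230186008 858993459 64424510
    (rowB 3 eng mog cd1q1 cd4q3 pd1 0 false true false .nn 1 1 3 (qsf 536870912 536870912 0 1230186008 1) ndB1q1 ndB4q3 pcB1 Cut.none Ext.none)

def k0_pm_113 : ∃ t, chk3 f_pm_113 t 1 1 1 = true :=
  ⟨(a (b (l 2) (l 4)) (a (b (l 2) (l 4)) (b (b (a (l 2) (b (a (l 2) (l 16606160)) (l 16373408))) (b (a (c (l 16030704) (l 15801784)) (l 16237056)) (a (b (l 15823848) (l 15795528)) (a (l 16029040) (l 16185184))))) (b (b (a (l 54993406311) (b (l 16064464) (l 16115016))) (l 4)) (l 4))))), by decide +kernel⟩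

theorem c_pm_113 : CertB 536870912 536870912 0 1230186008 858993459 64424510 3 eng mog cd1q1 cd4q3 pd1 false true false .nn 1 1 3
    ndB1q1 ndB4q3 pcB1 Cut.none Ext.none :=
  certB0 (fam := false) (s1 := true) (s2 := false) (a := 1) (b := 1) (c := 3) (cn := .nn) (n1 := ndB1q1) (n2 := ndB4q3) (pc := pcB1) (cut := Cut.none) (xt := Ext.none) (P1 := 536870912) (W1 := 536870912) (P2 := 0) (W2 := 1230186008) (P3 := 858993459) (W3 := 64424510) (N0 := 3) (En := eng) (mo := mog) (C1 := cd1q1) (C2 := cd4q3) (C3 := pd1)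
    rfl k0_pm_113

noncomputable def f_pm_123 : ℕ → ℕ → ℕ → ℕ → Bool := onCell 1073741824 536870912 0 1230186008 858993459 64424510
    (rowB 3 eng mog cd1q1 cd4q3 pd2 2 false true false .npn 1 2 3 (qsf 536870912 536870912 0 1230186008 2) ndB1q1 ndB4q3 pcB2 Cut.none Ext.none)

def k0_pm_123 : ∃ t, chk3 f_pm_123 t 1 1 1 = true :=
  ⟨(b (a (a (b (b (a (a (l 16732184) (l 16632664)) (l 16477192)) (a (l 16462992) (l 16282680))) (a (b (a (l 16201944) (l 16121320)) (a (l 15856256) (l 15841496))) (a (b (l 16064832) (l 15849384)) (b (l 16028368) (l 15871800))))) (b (a (b (l 16303928) (l 16172424)) (b (l 16197112) (l 16117960))) (b (a (c (l 16133944) (l 15845560)) (c (l 16243232) (l 15816448))) (l 4)))) (a (b (b (a (l 16148368) (l 16150592)) (a (c (l 16323144) (l 15904640)) (c (l 16398632) (l 15914248)))) (a (b (c (l 16332232) (l 15832496)) (l 4)) (l 4))) (b (a (c (b (l 16424440) (l 16483776)) (b (l 15950632) (l 15953528))) (b (c (l 16518008) (l 16002952)) (l 4)))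 (l 4)))) (a (b (l 4) (l 4)) (l 4))), by decide +kernel⟩

theorem c_pm_123 : CertB 536870912 536870912 0 1230186008 858993459 64424510 3 eng mog cd1q1 cd4q3 pd2 false true false .npn 1 2 3
    ndB1q1 ndB4q3 pcB2 Cut.none Ext.none :=
  certB2 (fam := false) (s1 := true) (s2 := false) (a := 1) (b := 2) (c := 3) (cn := .npn) (n1 := ndB1q1) (n2 := ndB4q3) (pc := pcB2) (cut := Cut.none) (xt := Ext.none) (P1 := 536870912) (W1 := 536870912) (P2 := 0) (W2 := 1230186008) (P3 := 858993459) (W3 := 64424510) (N0 := 3) (En := eng) (mo := mog) (C1 := cd1q1) (C2 := cd4q3) (C3 := pd2)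
    rfl (fun _ => rfl) k0_pm_123

noncomputable def f_pm_133 : ℕ → ℕ → ℕ → ℕ → Bool := onCell 536870912 536870912 0 1230186008 858993459 64424510
    (rowB 3 eng mog cd1q1 cd4q3 pd3 0 false true false .dn 1 3 3 (qsf 536870912 536870912 0 1230186008 3) ndB1q1 ndB4q3 pcB3 Cut.none Ext.none)

def k0_pm_133 : ∃ t, chk3 f_pm_133 t 1 1 1 = true :=
  ⟨(b (b (a (a (a (b (c (l 16586024) (l 16048688)) (l 1)) (l 1)) (l 1)) (l 1)) (l 1)) (l 1)), by decide +kernel⟩

theorem c_pm_133 : CertB 536870912 536870912 0 1230186008 858993459 64424510 3 eng mog cd1q1 cd4q3 pd3 false true false .dn 1 3 3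
    ndB1q1 ndB4q3 pcB3 Cut.none Ext.none :=
  certB0 (fam := false) (s1 := true) (s2 := false) (a := 1) (b := 3) (c := 3) (cn := .dn) (n1 := ndB1q1) (n2 := ndB4q3) (pc := pcB3) (cut := Cut.none) (xt := Ext.none) (P1 := 536870912) (W1 := 536870912) (P2 := 0) (W2 := 1230186008) (P3 := 858993459) (W3 := 64424510) (N0 := 3) (En := eng) (mo := mog) (C1 := cd1q1) (C2 := cd4q3) (C3 := pd3)
    rfl k0_pm_133

noncomputable def f_pm_202_a : ℕ → ℕ → ℕ → ℕ → Bool := onCell 0 536870912 1073741824 536870912 858993459 64424510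
    (rowB 3 eng mog cd1q2a cd4q2 pd0 0 false true false .pp 2 0 2 (qsf 0 536870912 1073741824 536870912 0) ndB1q2a ndB4q2 pcB0 Cut.none Ext.none)

def k0_pm_202_a : ∃ t, chk3 f_pm_202_a t 1 1 1 = true :=
  ⟨(a (b (a (b (l 1) (b (b (a (l 15305672) (l 15208160)) (l 15464760)) (b (l 15524272) (l 15634264)))) (b (a (l 1) (l 4)) (b (b (a (l 15106184) (l 15172864)) (a (l 15252808) (l 15152656))) (b (a (l 15383344) (l 15277144)) (l 15534104))))) (a (b (b (b (l 15731712) (l 15815520)) (b (l 15886192) (a (l 15980760) (l 15916400)))) (b (b (a (l 16145192) (l 15972048)) (a (l 16110800) (l 16026896))) (b (l 16107680) (a (l 16211168) (l 16138296))))) (b (b (b (l 15559712) (l 15655400)) (b (l 15737632) (l 15806984))) (b (b (l 15864568) (a (l 15953016) (l 15878152))) (b (a (l 16004272) (l 15924392)) (l 16019864)))))) (b (b (l 4) (a (b (l 4) (a (b (l 15185928) (l 15296872)) (l 4))) (l 4))) (a (b (b (a (b (l 15406752) (l 15509952)) (b (l 15310112) (l 15406928))) (a (l 15639168)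 (b (l 15497304) (l 15578392)))) (b (a (l 15770440) (l 15677712)) (a (b (l 15845424) (l 15891328)) (l 15785608)))) (b (a (b (l 4) (b (l 15399328) (l 15478232))) (l 4)) (b (a (b (l 15549400) (l 15612616)) (b (l 15456136) (l 15519880))) (a (l 15697008) (b (l 15579984) (l 15640088)))))))), by decide +kernel⟩

theorem c_pm_202_a : CertB 0 536870912 1073741824 536870912 858993459 64424510 3 eng mog cd1q2a cd4q2 pd0 false true false .pp 2 0 2
    ndB1q2a ndB4q2 pcB0 Cut.none Ext.none :=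
  certB0 (fam := false) (s1 := true) (s2 := false) (a := 2) (b := 0) (c := 2) (cn := .pp) (n1 := ndB1q2a) (n2 := ndB4q2) (pc := pcB0) (cut := Cut.none) (xt := Ext.none) (P1 := 0) (W1 := 536870912) (P2 := 1073741824) (W2 := 536870912) (P3 := 858993459) (W3 := 64424510) (N0 := 3) (En := eng) (mo := mog) (C1 := cd1q2a) (C2 := cd4q2) (C3 := pd0)
    rfl k0_pm_202_a

noncomputable def f_pm_202_b : ℕ → ℕ → ℕ → ℕ → Bool := onCell 0 536870912 1073741824 536870912 858993459 64424510
    (rowB 3 eng mog cd1q2b cd4q2 pd0 2 false true false .pp 2 0 2 (qsf 1239849684 370763052 1073741824 536870912 0) ndB1q2b ndB4q2 pcB0 Cut.none Ext.none)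

def k0_pm_202_b : ∃ t, chk3 f_pm_202_b t 1 1 1 = true :=
  ⟨(a (b (a (b (l 1) (b (a (b (a (l 15336240) (l 1)) (a (l 15494344) (l 15462920))) (l 1)) (a (b (l 410201130391) (l 15760296)) (b (l 459056232743) (l 334502468631))))) (l 1)) (a (b (b (a (l 15938808) (b (l 15827712) (l 15948992))) (a (l 16120272) (l 16104768))) (a (b (l 16216992) (l 16162376)) (a (b (l 16250704) (l 16283768)) (b (l 16254912) (l 16332368))))) (a (b (b (c (l 424697117063) (l 257728972247)) (a (l 16059464) (l 264708879751))) (a (b (l 16245152) (l 16360328)) (b (l 16225672) (l 16372960)))) (b (b (l 1) (a (b (l 15882680) (l 16008000)) (b (l 1) (l 15944456)))) (b (a (l 16194752) (l 244844931975)) (a (l 16374432) (l 16360856))))))) (b (l 1) (b (l 1) (a (b (a (a (l 219611869319) (l 443487538647)) (l 1)) (a (b (l 193842371207) (a (l 16371800) (l 16317456))) (b (a (l 16119992) (l 1)) (a (l 16244448) (l 16168832))))) (l 1))))), by decide +kernel⟩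

theorem c_pm_202_b : CertB 1239849684 370763052 1073741824 536870912 858993459 64424510 3 eng mog cd1q2b cd4q2 pd0 false true false .pp 2 0 2
    ndB1q2b ndB4q2 pcB0 Cut.none Ext.none :=
  certB2 (fam := false) (s1 := true) (s2 := false) (a := 2) (b := 0) (c := 2) (cn := .pp) (n1 := ndB1q2b) (n2 := ndB4q2) (pc := pcB0) (cut := Cut.none) (xt := Ext.none) (P1 := 1239849684) (W1 := 370763052) (P2 := 1073741824) (W2 := 536870912) (P3 := 858993459) (W3 := 64424510) (N0 := 3) (En := eng) (mo := mog) (C1 := cd1q2b) (C2 := cd4q2) (C3 := pd0)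
    rfl (fun _ => rfl) k0_pm_202_b

noncomputable def f_pm_203_a : ℕ → ℕ → ℕ → ℕ → Bool := onCell 0 536870912 0 1230186008 858993459 64424510
    (rowB 3 eng mog cd1q2a cd4q3 pd0 0 false true false .up 2 0 3 (qsf 0 536870912 0 1230186008 0) ndB1q2a ndB4q3 pcB0 Cut.none Ext.none)

def k0_pm_203_a : ∃ t, chk3 f_pm_203_a t 1 1 1 = true :=
  ⟨(b (l 2) (b (l 2) (b (a (b (l 2) (a (b (l 2) (l 16526408)) (b (l 2) (l 16371840)))) (l 2)) (a (b (a (b (l 16462928) (l 16387136)) (b (l 16284600) (l 16191176))) (b (a (l 16305776) (a (l 16157640) (l 16187400))) (a (a (l 16270440) (l 16164360)) (a (l 16106152) (l 16023848))))) (a (a (b (b (l 16121760) (l 16024472)) (b (l 16038632) (l 15939152))) (b (b (l 2) (b (l 15953336) (l 15937216))) (b (l 15916264) (l 15865232)))) (b (b (l 2) (a (l 15906864) (l 2))) (b (a (l 15940592) (l 15795864)) (a (l 15789552) (l 15710056))))))))), by decide +kernel⟩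

theorem c_pm_203_a : CertB 0 536870912 0 1230186008 858993459 64424510 3 eng mog cd1q2a cd4q3 pd0 false true false .up 2 0 3
    ndB1q2a ndB4q3 pcB0 Cut.none Ext.none :=
  certB0 (fam := false) (s1 := true) (s2 := false) (a := 2) (b := 0) (c := 3) (cn := .up) (n1 := ndB1q2a) (n2 := ndB4q3) (pc := pcB0) (cut := Cut.none) (xt := Ext.none) (P1 := 0) (W1 := 536870912) (P2 := 0) (W2 := 1230186008) (P3 := 858993459) (W3 := 64424510) (N0 := 3) (En := eng) (mo := mog) (C1 := cd1q2a) (C2 := cd4q3) (C3 := pd0)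
    rfl k0_pm_203_a

noncomputable def f_pm_203_b : ℕ → ℕ → ℕ → ℕ → Bool := onCell 0 536870912 0 1230186008 858993459 64424510
    (rowB 3 eng mog cd1q2b cd4q3 pd0 2 false true false .up 2 0 3 (qsf 1239849684 370763052 0 1230186008 0) ndB1q2b ndB4q3 pcB0 Cut.none Ext.none)

def k0_pm_203_b : ∃ t, chk3 f_pm_203_b t 1 1 1 = true :=
  ⟨(b (l 3) (b (a (a (l 2) (b (l 2) (a (l 2) (b (l 2) (b (l 2) (l 16066048)))))) (a (b (l 3) (a (b (l 3) (l 16213064)) (b (l 16451328) (l 16332928)))) (b (a (l 3) (l 3)) (a (b (c (l 16496648) (l 16429016)) (l 16435536)) (b (a (l 16524376) (l 16556416)) (l 16515584)))))) (a (b (a (l 2) (a (b (b (l 2) (l 585288647271)) (a (l 15914344) (l 15995504))) (b (b (l 16041576) (l 16113128)) (l 16116328)))) (a (b (a (l 2) (a (l 15777032) (a (l 15920960) (l 16005792)))) (a (l 15868456) (a (l 16019488) (a (l 16138240) (l 16217680))))) (a (b (a (l 16073280) (l 16155424)) (a (l 16280400) (l 16361624))) (b (a (l 16236624) (l 16331816)) (a (l 16426552)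 (l 16464560)))))) (b (a (b (a (b (l 16184032) (l 16176616)) (l 16312752)) (a (l 16285984) (l 16372512))) (b (a (l 16423912) (b (l 16501168) (l 16514688))) (a (l 16491512) (b (l 16586344) (l 16587728))))) (a (b (a (l 16481928) (l 16562424)) (a (b (l 16504544) (l 16439920)) (b (l 16468648) (l 16348408)))) (b (a (b (l 16571976) (l 16493992)) (b (l 16518928) (l 16323528))) (a (b (l 16371408) (l 323765094199)) (l 1)))))))), by decide +kernel⟩

theorem c_pm_203_b : CertB 1239849684 370763052 0 1230186008 858993459 64424510 3 eng mog cd1q2b cd4q3 pd0 false true false .up 2 0 3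
    ndB1q2b ndB4q3 pcB0 Cut.none Ext.none :=
  certB2 (fam := false) (s1 := true) (s2 := false) (a := 2) (b := 0) (c := 3) (cn := .up) (n1 := ndB1q2b) (n2 := ndB4q3) (pc := pcB0) (cut := Cut.none) (xt := Ext.none) (P1 := 1239849684) (W1 := 370763052) (P2 := 0) (W2 := 1230186008) (P3 := 858993459) (W3 := 64424510) (N0 := 3) (En := eng) (mo := mog) (C1 := cd1q2b) (C2 := cd4q3) (C3 := pd0)
    rfl (fun _ => rfl) k0_pm_203_b

noncomputable def cut_pm_213_a : Cut := Cut.of [[⟨0, 1, 0, 67108864⟩, ⟨1, 1, 0, 67108864⟩, ⟨2, 2, 0, 16777216⟩]]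

noncomputable def f_pm_213_a : ℕ → ℕ → ℕ → ℕ → Bool := onCell 0 536870912 0 1230186008 858993459 64424510
    (rowB 3 eng mog cd1q2a cd4q3 pd1 0 false true false .pnn 2 1 3 (qsf 0 536870912 0 1230186008 1) ndB1q2a ndB4q3 pcB1 cut_pm_213_a Ext.none)

def k0_pm_213_a : ∃ t, chk3 f_pm_213_a t 1 4 1 = true :=
  ⟨(a (l 3) (a (a (b (l 3) (b (l 3) (a (l 3) (b (l 3) (b (a (l 3) (l 329269564279)) (a (l 322827106071) (l 289004369351))))))) (b (l 3) (c (b (a (l 3) (b (l 3) (a (l 339470158135) (l 262160803959)))) (a (b (l 318532279687) (l 220284909255)) (b (a (l 16765640) (l 16765160)) (l 16767200)))) (b (a (l 3) (b (l 3) (a (l 340543921671) (l 300815400663)))) (a (b (b (l 336785822983) (l 300278676231)) (b (l 263234575415) (l 16765424))) (b (a (l 256255120807) (l 16768632)) (l 16761504))))))) (b (a (b (l 3) (a (a (l 3) (b (l 3) (c (l 370071788903) (l 361481881191)))) (l 6))) (l 6)) (a (a (a (c (b (b (l 302962951815) (l 16762128)) (l 16762752)) (b (b (l 322827181175)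 (l 16771392)) (l 16760952))) (b (b (b (a (l 291151694615) (l 249275775111)) (c (l 16761040) (l 16771912))) (l 16816128)) (b (l 16761488) (l 16760520)))) (a (b (b (c (l 16761456) (l 16770120)) (l 16762784)) (l 16823888)) (b (l 6) (l 16761560)))) (b (b (l 6) (a (l 16763064) (l 16784640))) (a (b (l 16762600) (l 16763536)) (b (l 16763920) (l 16765432)))))))), by decide +kernel⟩

def k1_pm_213_a : ∃ t, chk3 f_pm_213_a t 2 5 1 = true :=
  ⟨(b (a (l 3) (b (a (l 3) (a (l 3) (b (l 3) (c (l 318532307223) (l 304573491175))))) (a (a (l 3) (b (l 3) (c (l 294910007847) (b (l 278266773767) (l 278803613879))))) (c (b (a (l 300278707175) (l 250349735271)) (a (l 272361154327) (l 16769880))) (b (a (l 284172380823) (b (l 16752296) (l 16747184))) (a (b (l 16745968) (l 16740032)) (l 16737632))))))) (c (a (b (a (l 3) (b (l 299204830007) (c (l 289004356695) (l 289541152935)))) (a (b (a (l 3) (l 293836122135)) (a (b (l 306184153271) (l 295983540039)) (b (l 263234468103) (l 16767992))))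 (b (a (b (l 286319851383) (l 16765336)) (b (l 16769536) (l 16769176))) (a (l 16687144) (l 16766720))))) (b (a (b (a (l 278803891127) (b (l 16767744) (l 16767464))) (a (b (l 16768456) (l 16768048)) (l 16766600))) (b (a (l 16767472) (l 16764248)) (l 16758416))) (a (b (c (l 16745088) (l 16769944)) (l 16750584)) (b (l 16750928) (l 16741288))))) (a (b (a (l 3) (b (l 293299229879) (a (l 270213776903) (b (l 273434910295) (l 228874719047))))) (c (a (b (l 308868494695) (a (l 273435013943) (l 228337864279))) (b (a (l 233169699703) (l 16739112)) (l 16731760))) (a (b (a (l 3) (l 256791998135)) (a (l 249812690135) (b (l 16754144) (l 16721000)))) (b (a (l 193978133863) (l 16711632)) (l 16714432))))) (b (a (b (a (b (l 275045535527) (l 241222745159)) (b (l 16740256) (l 16733336))) (a (b (l 16734944) (l 16726976)) (l 16720544))) (b (a (l 16728976) (l 16716584)) (l 16698880))) (a (b (c (l 16727496) (l 16682144)) (l 16633912)) (b (l 16673200) (l 16644096))))))), by decide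 +kernel⟩

def k2_pm_213_a : ∃ t, chk3 f_pm_213_a t 3 5 1 = true :=
  ⟨(a (a (c (b (b (b (a (l 309405393783) (l 233169838023)) (a (l 240149177671) (l 16775184))) (b (a (l 16774184) (l 16778352)) (l 16772768))) (b (b (l 16769272) (l 16764176)) (l 16752904))) (b (b (b (a (l 314237226423) (b (l 262160830487) (l 16761296))) (a (b (l 241759606871) (l 16754936)) (l 16754088))) (a (b (l 16746696) (l 16728432)) (l 16687960))) (b (a (l 16697824) (l 16692824)) (c (l 16695968) (l 16594152))))) (b (b (b (a (b (l 16766624) (l 16764088)) (l 16762136)) (a (l 16699032) (l 16760904))) (c (b (l 16790120) (l 16788944)) (a (l 16724616) (l 16723248)))) (b (c (l 16785016) (l 16689808)) (c (l 16772032) (l 16641688))))) (a (c (b (b (b (l 16772408) (l 16780536)) (l 16798128)) (b (l 16816864) (l 16797304))) (b (b (a (l 16745824) (l 16748824)) (a (l 16725656) (l 16733416))) (b (l 16701696) (l 16485688)))) (a (b (b (l 16766496) (l 16773064)) (b (l 16763208) (l 16581448))) (b (b (l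 16769976) (l 16779344)) (b (l 16805776) (l 16855224)))))), by decide +kernel⟩

def k3_pm_213_a : ∃ t, chk3 f_pm_213_a t 2 6 1 = true :=
  ⟨(b (c (a (b (a (a (b (b (l 255181333767) (l 16772608)) (l 16768728)) (b (l 16709392) (l 16758640))) (b (c (l 16737552) (l 16766976)) (l 16742576))) (a (b (l 16599664) (l 16725680)) (b (l 16723376) (l 16700776)))) (b (a (b (l 16738616) (l 16722056)) (c (l 16658800) (l 16731504))) (a (c (l 16618560) (l 16710728)) (c (l 16585032) (l 16686944))))) (a (b (a (c (b (a (l 220284804055) (l 16733056)) (l 16722040)) (b (a (b (l 16731160) (l 16716240)) (l 16697872)) (l 16676296))) (b (c (l 16712784) (l 16659232)) (l 16614288))) (a (b (c (l 16696320) (l 16636904)) (l 16616472)) (b (l 16623520) (l 16590096)))) (b (a (b (l 16640376) (l 16605272)) (c (l 16660120) (l 16512664))) (a (c (l 16623264) (l 16439424)) (c (l 16598032) (l 16346688)))))) (a (a (b (c (c (l 16624160) (l 16714528)) (b (l 16603488) (l 16568104))) (c (c (l 16595848)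 (l 16674416)) (c (l 16585616) (b (l 16443752) (l 16389800))))) (b (c (c (l 16580184) (l 16693400)) (c (l 16597616) (l 16354080))) (b (c (l 16618304) (l 16235032)) (c (l 16588992) (l 16289688))))) (b (b (c (a (l 16648776) (l 16623016)) (a (l 16509376) (l 16464848))) (c (a (l 16618176) (l 16591072)) (a (l 16377832) (l 16478088)))) (b (a (c (l 16589424) (l 16394288)) (l 16353144)) (c (l 16535816) (l 16387864)))))), by decide +kernel⟩

def k4_pm_213_a : ∃ t, chk3 f_pm_213_a t 3 6 1 = true :=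
  ⟨(b (a (b (c (a (l 16722536) (l 16633296)) (a (l 16490920) (c (l 16649328) (l 16421184)))) (a (c (c (l 16585888) (l 16665216)) (c (l 16588096) (l 16309824))) (c (l 16678872) (b (l 16536112) (l 16527728))))) (a (b (c (l 16749984) (a (l 16618280) (l 16691776))) (c (l 16671096) (l 16565912))) (b (c (l 16723584) (l 16891840)) (c (l 16650144) (l 16740184))))) (a (b (c (a (l 16582352) (l 16578496)) (a (l 16404728) (l 16495632))) (c (l 16632504) (a (l 16489392) (l 16424712)))) (b (c (a (l 16606784) (l 16589488)) (a (l 16464992) (l 16527896))) (a (c (l 16491176) (l 16349880)) (c (l 16539592) (l 16333544)))))), by decide +kernel⟩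

def k5_pm_213_a : ∃ t, chk3 f_pm_213_a t 1 7 1 = true :=
  ⟨(a (b (a (a (b (c (b (l 16586456) (l 16553776)) (b (c (l 16568240) (l 16368544)) (l 16408176))) (c (l 16501352) (l 16396944))) (b (c (l 16538752) (b (l 16506600) (l 16531568))) (c (l 16469928) (l 16513432)))) (b (c (l 16482640) (a (l 16521072) (l 16484944))) (c (l 16407704) (l 16342720)))) (b (a (l 1) (c (l 16317128) (l 16272600))) (l 1))) (b (a (b (c (l 16392096) (a (l 16417720) (l 16321696))) (c (a (l 16327536) (l 16266184)) (a (l 16295816) (l 16181272)))) (b (a (c (l 16347016) (l 16217000)) (l 16271816)) (a (b (l 16171464) (l 16096376)) (b (l 16126800) (l 16032424))))) (b (b (a (a (l 16212120) (l 16114792)) (a (l 16022304) (l 15948808))) (a (a (l 16135016) (l 16049696)) (a (l 15956136) (l 15870376)))) (a (l 1) (a (b (l 15891760) (l 1)) (b (l 15796544) (l 15722664))))))), by decide +kernel⟩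

theorem s6_pm_213_a : ∃ t, chk3 f_pm_213_a t 1 6 1 = true := ex3_a k3_pm_213_a k4_pm_213_a

theorem s7_pm_213_a : ∃ t, chk3 f_pm_213_a t 1 3 1 = true := ex3_b s6_pm_213_a k5_pm_213_a

theorem s8_pm_213_a : ∃ t, chk3 f_pm_213_a t 1 5 1 = true := ex3_a k1_pm_213_a k2_pm_213_a

theorem s9_pm_213_a : ∃ t, chk3 f_pm_213_a t 1 2 1 = true := ex3_b k0_pm_213_a s8_pm_213_a

theorem s10_pm_213_a : ∃ t, chk3 f_pm_213_a t 1 1 1 = true := ex3_b s9_pm_213_a s7_pm_213_a

theorem c_pm_213_a : CertB 0 536870912 0 1230186008 858993459 64424510 3 eng mog cd1q2a cd4q3 pd1 false true false .pnn 2 1 3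
    ndB1q2a ndB4q3 pcB1 cut_pm_213_a Ext.none :=
  certB0 (fam := false) (s1 := true) (s2 := false) (a := 2) (b := 1) (c := 3) (cn := .pnn) (n1 := ndB1q2a) (n2 := ndB4q3) (pc := pcB1) (cut := cut_pm_213_a) (xt := Ext.none) (P1 := 0) (W1 := 536870912) (P2 := 0) (W2 := 1230186008) (P3 := 858993459) (W3 := 64424510) (N0 := 3) (En := eng) (mo := mog) (C1 := cd1q2a) (C2 := cd4q3) (C3 := pd1)
    rfl s10_pm_213_a

noncomputable def cut_pm_213_b : Cut := Cut.of [[⟨0, 1, 0, 67108864⟩, ⟨1, 1, 0, 67108864⟩, ⟨2, 2, 0, 16777216⟩]]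

noncomputable def f_pm_213_b : ℕ → ℕ → ℕ → ℕ → Bool := onCell 1239849684 370763052 0 1230186008 858993459 64424510
    (rowB 3 eng mog cd1q2b cd4q3 pd1 0 false true false .pnn 2 1 3 (qsf 1239849684 370763052 0 1230186008 1) ndB1q2b ndB4q3 pcB1 cut_pm_213_b Ext.none)

def k0_pm_213_b : ∃ t, chk3 f_pm_213_b t 1 2 1 = true :=
  ⟨(a (b (l 3) (a (b (l 3) (b (l 3) (l 3))) (l 3))) (l 3)), by decide +kernel⟩

def k1_pm_213_b : ∃ t, chk3 f_pm_213_b t 1 6 1 = true :=
  ⟨(a (b (a (b (a (a (c (b (b (a (l 265382030519) (l 16738840)) (a (l 16759504) (l 16742704))) (b (l 16759040) (l 16767984))) (c (b (b (l 16760720) (l 16736560)) (l 16728320)) (b (b (l 197199380647) (l 16724888)) (l 16701472)))) (b (c (l 317458504807) (l 277730040279)) (c (b (l 16727152) (l 16736368)) (b (l 16707720) (l 16697000))))) (b (l 3) (a (c (l 314237293607) (l 235854087703)) (l 287930570823)))) (a (c (b (a (l 16645032) (l 16753064)) (a (l 16750128) (l 16770112))) (b (a (c (l 16712328) (l 16663344))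 (l 16676696)) (c (l 16686320) (l 16517896)))) (c (a (b (l 16725224) (l 16749584)) (b (l 16699584) (l 16722592))) (b (c (l 16673168) (l 16643888)) (c (l 16656160) (l 16596128)))))) (b (l 3) (b (a (c (l 285783152727) (l 191830650231)) (l 3)) (a (c (l 16682048) (c (l 16582424) (l 16518160))) (c (l 16780776) (l 16614320)))))) (a (b (b (c (a (c (l 16700784) (l 16741936)) (l 16738208)) (a (c (l 16663488) (l 16524464)) (c (l 16634816) (l 16543200)))) (c (a (l 16505784) (l 16760976)) (a (c (l 16638920) (l 16514544)) (l 16487416)))) (c (a (b (l 16584088) (l 16617016)) (b (l 16738088) (l 16707840))) (a (c (l 16601328) (b (l 16460144) (l 16403856))) (b (l 16509392) (l 16363792))))) (a (b (b (c (l 16705208) (l 16564352)) (c (l 16729832) (l 16522456))) (c (b (l 16754048) (l 16749672)) (b (l 16479928) (l 16439400)))) (b (b (c (l 16646856) (l 16538000)) (c (l 16671176) (l 16494200))) (l 1))))) (b (a (b (l 3) (l 3)) (l 1)) (l 1))), by decide +kernel⟩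

def k2_pm_213_b : ∃ t, chk3 f_pm_213_b t 1 7 1 = true :=
  ⟨(b (a (a (b (c (b (a (l 16582376) (l 16672088)) (a (l 16420968) (l 16632104))) (b (a (c (l 16567104) (l 16347064)) (l 16367408)) (a (c (l 16566304) (l 16340568)) (c (l 16539224) (l 16291520))))) (c (c (l 16484744) (l 16604792)) (b (c (l 16585416) (l 16408952)) (l 16512480)))) (l 1)) (l 1)) (l 1)), by decide +kernel⟩

theorem s3_pm_213_b : ∃ t, chk3 f_pm_213_b t 1 3 1 = true := ex3_b k1_pm_213_b k2_pm_213_b

theorem s4_pm_213_b : ∃ t, chk3 f_pm_213_b t 1 1 1 = true := ex3_b k0_pm_213_b s3_pm_213_b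

theorem c_pm_213_b : CertB 1239849684 370763052 0 1230186008 858993459 64424510 3 eng mog cd1q2b cd4q3 pd1 false true false .pnn 2 1 3
    ndB1q2b ndB4q3 pcB1 cut_pm_213_b Ext.none :=
  certB0 (fam := false) (s1 := true) (s2 := false) (a := 2) (b := 1) (c := 3) (cn := .pnn) (n1 := ndB1q2b) (n2 := ndB4q3) (pc := pcB1) (cut := cut_pm_213_b) (xt := Ext.none) (P1 := 1239849684) (W1 := 370763052) (P2 := 0) (W2 := 1230186008) (P3 := 858993459) (W3 := 64424510) (N0 := 3) (En := eng) (mo := mog) (C1 := cd1q2b) (C2 := cd4q3) (C3 := pd1)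
    rfl s4_pm_213_b

noncomputable def f_pm_303 : ℕ → ℕ → ℕ → ℕ → Bool := onCell 0 536870912 0 1230186008 858993459 64424510
    (rowB 3 eng mog cd1q3 cd4q3 pd0 2 false true false .npn 3 0 3 (qsf 1610612736 536870912 0 1230186008 0) ndB1q3 ndB4q3 pcB0 Cut.none Ext.none)

def k0_pm_303 : ∃ t, chk3 f_pm_303 t 1 1 1 = true :=
  ⟨(b (l 3) (a (b (b (l 3) (b (l 3) (a (a (l 3) (a (l 3) (l 254106232391))) (a (a (l 142974107415) (l 142437385175)) (b (l 16056200) (l 16033256)))))) (b (a (b (a (a (l 15432424) (l 15549080)) (a (b (l 15633168) (l 15615016)) (b (l 15724440) (l 15717640)))) (a (b (l 15484680) (a (l 15474080) (l 15550928))) (a (l 15665576) (a (l 15772672) (l 15837248))))) (a (b (b (l 15853120) (a (l 15805416) (l 15887296))) (a (l 15901360) (l 15961672))) (b (b (l 16015688) (b (l 16005888) (l 16010984))) (l 1)))) (a (b (a (a (l 15793464) (l 15648232)) (a (l 15780376) (a (l 15921080) (l 16004152)))) (a (l 15887312) (a (l 16027824) (l 1)))) (a (b (a (l 16069992)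 (l 1)) (l 1)) (l 1))))) (b (a (b (l 3) (a (b (l 3) (l 16354520)) (b (l 152638620551) (l 1)))) (b (a (l 3) (l 1)) (l 1))) (l 1)))), by decide +kernel⟩

theorem c_pm_303 : CertB 1610612736 536870912 0 1230186008 858993459 64424510 3 eng mog cd1q3 cd4q3 pd0 false true false .npn 3 0 3
    ndB1q3 ndB4q3 pcB0 Cut.none Ext.none :=
  certB2 (fam := false) (s1 := true) (s2 := false) (a := 3) (b := 0) (c := 3) (cn := .npn) (n1 := ndB1q3) (n2 := ndB4q3) (pc := pcB0) (cut := Cut.none) (xt := Ext.none) (P1 := 1610612736) (W1 := 536870912) (P2 := 0) (W2 := 1230186008) (P3 := 858993459) (W3 := 64424510) (N0 := 3) (En := eng) (mo := mog) (C1 := cd1q3) (C2 := cd4q3) (C3 := pd0)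
    rfl (fun _ => rfl) k0_pm_303

noncomputable def f_pm_313 : ℕ → ℕ → ℕ → ℕ → Bool := onCell 1610612736 536870912 0 1230186008 858993459 64424510
    (rowB 3 eng mog cd1q3 cd4q3 pd1 0 false true false .dn 3 1 3 (qsf 1610612736 536870912 0 1230186008 1) ndB1q3 ndB4q3 pcB1 Cut.none Ext.none)

def k0_pm_313 : ∃ t, chk3 f_pm_313 t 1 1 1 = true :=
  ⟨(b (l 3) (l 1)), by decide +kernel⟩

theorem c_pm_313 : CertB 1610612736 536870912 0 1230186008 858993459 64424510 3 eng mog cd1q3 cd4q3 pd1 false true false .dn 3 1 3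
    ndB1q3 ndB4q3 pcB1 Cut.none Ext.none :=
  certB0 (fam := false) (s1 := true) (s2 := false) (a := 3) (b := 1) (c := 3) (cn := .dn) (n1 := ndB1q3) (n2 := ndB4q3) (pc := pcB1) (cut := Cut.none) (xt := Ext.none) (P1 := 1610612736) (W1 := 536870912) (P2 := 0) (W2 := 1230186008) (P3 := 858993459) (W3 := 64424510) (N0 := 3) (En := eng) (mo := mog) (C1 := cd1q3) (C2 := cd4q3) (C3 := pd1)
    rfl k0_pm_313

noncomputable def f_mm_001 : ℕ → ℕ → ℕ → ℕ → Bool := onCell 0 536870912 0 536870912 858993459 64424510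
    (rowB 3 eng mog cd1q0 cd4q1 pd0 1 false false false .up 0 0 1 (qsf 0 536870912 536870912 536870912 0) ndB1q0 ndB4q1 pcB0 Cut.none Ext.none)

def k0_mm_001 : ∃ t, chk3 f_mm_001 t 1 1 1 = true :=
  ⟨(l 3), by decide +kernel⟩

theorem c_mm_001 : CertB 0 536870912 536870912 536870912 858993459 64424510 3 eng mog cd1q0 cd4q1 pd0 false false false .up 0 0 1
    ndB1q0 ndB4q1 pcB0 Cut.none Ext.none :=
  certB1 (fam := false) (s1 := false) (s2 := false) (a := 0) (b := 0) (c := 1) (cn := .up) (n1 := ndB1q0) (n2 := ndB4q1) (pc := pcB0) (cut := Cut.none) (xt := Ext.none) (P1 := 0) (W1 := 536870912) (P2 := 536870912) (W2 := 536870912) (P3 := 858993459) (W3 := 64424510) (N0 := 3) (En := eng) (mo := mog) (C1 := cd1q0) (C2 := cd4q1) (C3 := pd0)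
    rfl (fun _ => rfl) k0_mm_001

noncomputable def f_mm_011 : ℕ → ℕ → ℕ → ℕ → Bool := onCell 0 536870912 536870912 536870912 858993459 64424510
    (rowB 3 eng mog cd1q0 cd4q1 pd1 1 false false false .pnn 0 1 1 (qsf 0 536870912 536870912 536870912 1) ndB1q0 ndB4q1 pcB1 Cut.none Ext.none)

def k0_mm_011 : ∃ t, chk3 f_mm_011 t 1 1 1 = true :=
  ⟨(l 5), by decide +kernel⟩

theorem c_mm_011 : CertB 0 536870912 536870912 536870912 858993459 64424510 3 eng mog cd1q0 cd4q1 pd1 false false false .pnn 0 1 1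
    ndB1q0 ndB4q1 pcB1 Cut.none Ext.none :=
  certB1 (fam := false) (s1 := false) (s2 := false) (a := 0) (b := 1) (c := 1) (cn := .pnn) (n1 := ndB1q0) (n2 := ndB4q1) (pc := pcB1) (cut := Cut.none) (xt := Ext.none) (P1 := 0) (W1 := 536870912) (P2 := 536870912) (W2 := 536870912) (P3 := 858993459) (W3 := 64424510) (N0 := 3) (En := eng) (mo := mog) (C1 := cd1q0) (C2 := cd4q1) (C3 := pd1)
    rfl (fun _ => rfl) k0_mm_011

noncomputable def f_mm_012 : ℕ → ℕ → ℕ → ℕ → Bool := onCell 0 536870912 1073741824 536870912 858993459 64424510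
    (rowB 3 eng mog cd1q0 cd4q2 pd1 0 false false false .pnp 0 1 2 (qsf 0 536870912 1073741824 536870912 1) ndB1q0 ndB4q2 pcB1 Cut.none Ext.none)

def k0_mm_012 : ∃ t, chk3 f_mm_012 t 1 1 1 = true :=
  ⟨(l 5), by decide +kernel⟩

theorem c_mm_012 : CertB 0 536870912 1073741824 536870912 858993459 64424510 3 eng mog cd1q0 cd4q2 pd1 false false false .pnp 0 1 2
    ndB1q0 ndB4q2 pcB1 Cut.none Ext.none :=
  certB0 (fam := false) (s1 := false) (s2 := false) (a := 0) (b := 1) (c := 2) (cn := .pnp) (n1 := ndB1q0) (n2 := ndB4q2) (pc := pcB1) (cut := Cut.none) (xt := Ext.none) (P1 := 0) (W1 := 536870912) (P2 := 1073741824) (W2 := 536870912) (P3 := 858993459) (W3 := 64424510) (N0 := 3) (En := eng) (mo := mog) (C1 := cd1q0) (C2 := cd4q2) (C3 := pd1)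
    rfl k0_mm_012

noncomputable def f_mm_022 : ℕ → ℕ → ℕ → ℕ → Bool := onCell 0 536870912 1073741824 536870912 858993459 64424510
    (rowB 3 eng mog cd1q0 cd4q2 pd2 0 false false false .pp 0 2 2 (qsf 0 536870912 1073741824 536870912 2) ndB1q0 ndB4q2 pcB2 Cut.none Ext.none)

def k0_mm_022 : ∃ t, chk3 f_mm_022 t 1 1 1 = true :=
  ⟨(l 5), by decide +kernel⟩

theorem c_mm_022 : CertB 0 536870912 1073741824 536870912 858993459 64424510 3 eng mog cd1q0 cd4q2 pd2 false false false .pp 0 2 2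
    ndB1q0 ndB4q2 pcB2 Cut.none Ext.none :=
  certB0 (fam := false) (s1 := false) (s2 := false) (a := 0) (b := 2) (c := 2) (cn := .pp) (n1 := ndB1q0) (n2 := ndB4q2) (pc := pcB2) (cut := Cut.none) (xt := Ext.none) (P1 := 0) (W1 := 536870912) (P2 := 1073741824) (W2 := 536870912) (P3 := 858993459) (W3 := 64424510) (N0 := 3) (En := eng) (mo := mog) (C1 := cd1q0) (C2 := cd4q2) (C3 := pd2)
    rfl k0_mm_022

noncomputable def f_mm_023 : ℕ → ℕ → ℕ → ℕ → Bool := onCell 0 536870912 0 1230186008 858993459 64424510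
    (rowB 3 eng mog cd1q0 cd4q3 pd2 0 false false false .up 0 2 3 (qsf 0 536870912 0 1230186008 2) ndB1q0 ndB4q3 pcB2 Cut.none Ext.none)

def k0_mm_023 : ∃ t, chk3 f_mm_023 t 1 1 1 = true :=
  ⟨(l 5), by decide +kernel⟩

theorem c_mm_023 : CertB 0 536870912 0 1230186008 858993459 64424510 3 eng mog cd1q0 cd4q3 pd2 false false false .up 0 2 3
    ndB1q0 ndB4q3 pcB2 Cut.none Ext.none :=
  certB0 (fam := false) (s1 := false) (s2 := false) (a := 0) (b := 2) (c := 3) (cn := .up) (n1 := ndB1q0) (n2 := ndB4q3) (pc := pcB2) (cut := Cut.none) (xt := Ext.none) (P1 := 0) (W1 := 536870912) (P2 := 0) (W2 := 1230186008) (P3 := 858993459) (W3 := 64424510) (N0 := 3) (En := eng) (mo := mog) (C1 := cd1q0) (C2 := cd4q3) (C3 := pd2)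
    rfl k0_mm_023

noncomputable def f_mm_033 : ℕ → ℕ → ℕ → ℕ → Bool := onCell 0 536870912 0 1230186008 858993459 64424510
    (rowB 3 eng mog cd1q0 cd4q3 pd3 0 false false false .pnn 0 3 3 (qsf 0 536870912 0 1230186008 3) ndB1q0 ndB4q3 pcB3 Cut.none Ext.none)

def k0_mm_033 : ∃ t, chk3 f_mm_033 t 1 1 1 = true :=
  ⟨(l 5), by decide +kernel⟩

theorem c_mm_033 : CertB 0 536870912 0 1230186008 858993459 64424510 3 eng mog cd1q0 cd4q3 pd3 false false false .pnn 0 3 3
    ndB1q0 ndB4q3 pcB3 Cut.none Ext.none :=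
  certB0 (fam := false) (s1 := false) (s2 := false) (a := 0) (b := 3) (c := 3) (cn := .pnn) (n1 := ndB1q0) (n2 := ndB4q3) (pc := pcB3) (cut := Cut.none) (xt := Ext.none) (P1 := 0) (W1 := 536870912) (P2 := 0) (W2 := 1230186008) (P3 := 858993459) (W3 := 64424510) (N0 := 3) (En := eng) (mo := mog) (C1 := cd1q0) (C2 := cd4q3) (C3 := pd3)
    rfl k0_mm_033

noncomputable def f_mm_101 : ℕ → ℕ → ℕ → ℕ → Bool := onCell 536870912 536870912 536870912 536870912 858993459 64424510
    (rowB 3 eng mog cd1q1 cd4q1 pd0 0 false false false .npn 1 0 1 (qsf 536870912 536870912 536870912 536870912 0) ndB1q1 ndB4q1 pcB0 Cut.none Ext.none)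

def k0_mm_101 : ∃ t, chk3 f_mm_101 t 1 1 1 = true :=
  ⟨(l 3), by decide +kernel⟩

theorem c_mm_101 : CertB 536870912 536870912 536870912 536870912 858993459 64424510 3 eng mog cd1q1 cd4q1 pd0 false false false .npn 1 0 1
    ndB1q1 ndB4q1 pcB0 Cut.none Ext.none :=
  certB0 (fam := false) (s1 := false) (s2 := false) (a := 1) (b := 0) (c := 1) (cn := .npn) (n1 := ndB1q1) (n2 := ndB4q1) (pc := pcB0) (cut := Cut.none) (xt := Ext.none) (P1 := 536870912) (W1 := 536870912) (P2 := 536870912) (W2 := 536870912) (P3 := 858993459) (W3 := 64424510) (N0 := 3) (En := eng) (mo := mog) (C1 := cd1q1) (C2 := cd4q1) (C3 := pd0)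
    rfl k0_mm_101

noncomputable def f_mm_102 : ℕ → ℕ → ℕ → ℕ → Bool := onCell 536870912 536870912 1073741824 536870912 858993459 64424510
    (rowB 3 eng mog cd1q1 cd4q2 pd0 0 false false false .npp 1 0 2 (qsf 536870912 536870912 1073741824 536870912 0) ndB1q1 ndB4q2 pcB0 Cut.none Ext.none)

def k0_mm_102 : ∃ t, chk3 f_mm_102 t 1 1 1 = true :=
  ⟨(l 3), by decide +kernel⟩

theorem c_mm_102 : CertB 536870912 536870912 1073741824 536870912 858993459 64424510 3 eng mog cd1q1 cd4q2 pd0 false false false .npp 1 0 2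
    ndB1q1 ndB4q2 pcB0 Cut.none Ext.none :=
  certB0 (fam := false) (s1 := false) (s2 := false) (a := 1) (b := 0) (c := 2) (cn := .npp) (n1 := ndB1q1) (n2 := ndB4q2) (pc := pcB0) (cut := Cut.none) (xt := Ext.none) (P1 := 536870912) (W1 := 536870912) (P2 := 1073741824) (W2 := 536870912) (P3 := 858993459) (W3 := 64424510) (N0 := 3) (En := eng) (mo := mog) (C1 := cd1q1) (C2 := cd4q2) (C3 := pd0)
    rfl k0_mm_102

noncomputable def f_mm_112 : ℕ → ℕ → ℕ → ℕ → Bool := onCell 536870912 536870912 1073741824 536870912 858993459 64424510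
    (rowB 3 eng mog cd1q1 cd4q2 pd1 0 false false false .dn 1 1 2 (qsf 536870912 536870912 1073741824 536870912 1) ndB1q1 ndB4q2 pcB1 Cut.none Ext.none)

def k0_mm_112 : ∃ t, chk3 f_mm_112 t 1 1 1 = true :=
  ⟨(l 3), by decide +kernel⟩

theorem c_mm_112 : CertB 536870912 536870912 1073741824 536870912 858993459 64424510 3 eng mog cd1q1 cd4q2 pd1 false false false .dn 1 1 2
    ndB1q1 ndB4q2 pcB1 Cut.none Ext.none :=
  certB0 (fam := false) (s1 := false) (s2 := false) (a := 1) (b := 1) (c := 2) (cn := .dn) (n1 := ndB1q1) (n2 := ndB4q2) (pc := pcB1) (cut := Cut.none) (xt := Ext.none) (P1 := 536870912) (W1 := 536870912) (P2 := 1073741824) (W2 := 536870912) (P3 := 858993459) (W3 := 64424510) (N0 := 3) (En := eng) (mo := mog) (C1 := cd1q1) (C2 := cd4q2) (C3 := pd1)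
    rfl k0_mm_112

noncomputable def f_mm_113 : ℕ → ℕ → ℕ → ℕ → Bool := onCell 536870912 536870912 0 1230186008 858993459 64424510
    (rowB 3 eng mog cd1q1 cd4q3 pd1 0 false false false .nn 1 1 3 (qsf 536870912 536870912 0 1230186008 1) ndB1q1 ndB4q3 pcB1 Cut.none Ext.none)

def k0_mm_113 : ∃ t, chk3 f_mm_113 t 1 1 1 = true :=
  ⟨(l 5), by decide +kernel⟩

theorem c_mm_113 : CertB 536870912 536870912 0 1230186008 858993459 64424510 3 eng mog cd1q1 cd4q3 pd1 false false false .nn 1 1 3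
    ndB1q1 ndB4q3 pcB1 Cut.none Ext.none :=
  certB0 (fam := false) (s1 := false) (s2 := false) (a := 1) (b := 1) (c := 3) (cn := .nn) (n1 := ndB1q1) (n2 := ndB4q3) (pc := pcB1) (cut := Cut.none) (xt := Ext.none) (P1 := 536870912) (W1 := 536870912) (P2 := 0) (W2 := 1230186008) (P3 := 858993459) (W3 := 64424510) (N0 := 3) (En := eng) (mo := mog) (C1 := cd1q1) (C2 := cd4q3) (C3 := pd1)
    rfl k0_mm_113

noncomputable def f_mm_123 : ℕ → ℕ → ℕ → ℕ → Bool := onCell 536870912 536870912 0 1230186008 858993459 64424510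
    (rowB 3 eng mog cd1q1 cd4q3 pd2 0 false false false .npn 1 2 3 (qsf 536870912 536870912 0 1230186008 2) ndB1q1 ndB4q3 pcB2 Cut.none Ext.none)

def k0_mm_123 : ∃ t, chk3 f_mm_123 t 1 1 1 = true :=
  ⟨(l 5), by decide +kernel⟩

theorem c_mm_123 : CertB 536870912 536870912 0 1230186008 858993459 64424510 3 eng mog cd1q1 cd4q3 pd2 false false false .npn 1 2 3
    ndB1q1 ndB4q3 pcB2 Cut.none Ext.none :=
  certB0 (fam := false) (s1 := false) (s2 := false) (a := 1) (b := 2) (c := 3) (cn := .npn) (n1 := ndB1q1) (n2 := ndB4q3) (pc := pcB2) (cut := Cut.none) (xt := Ext.none) (P1 := 536870912) (W1 := 536870912) (P2 := 0) (W2 := 1230186008) (P3 := 858993459) (W3 := 64424510) (N0 := 3) (En := eng) (mo := mog) (C1 := cd1q1) (C2 := cd4q3) (C3 := pd2)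
    rfl k0_mm_123

noncomputable def f_mm_133 : ℕ → ℕ → ℕ → ℕ → Bool := onCell 536870912 536870912 0 1230186008 858993459 64424510
    (rowB 3 eng mog cd1q1 cd4q3 pd3 0 false false false .dn 1 3 3 (qsf 536870912 536870912 0 1230186008 3) ndB1q1 ndB4q3 pcB3 Cut.none Ext.none)

def k0_mm_133 : ∃ t, chk3 f_mm_133 t 1 1 1 = true :=
  ⟨(l 5), by decide +kernel⟩

theorem c_mm_133 : CertB 536870912 536870912 0 1230186008 858993459 64424510 3 eng mog cd1q1 cd4q3 pd3 false false false .dn 1 3 3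
    ndB1q1 ndB4q3 pcB3 Cut.none Ext.none :=
  certB0 (fam := false) (s1 := false) (s2 := false) (a := 1) (b := 3) (c := 3) (cn := .dn) (n1 := ndB1q1) (n2 := ndB4q3) (pc := pcB3) (cut := Cut.none) (xt := Ext.none) (P1 := 536870912) (W1 := 536870912) (P2 := 0) (W2 := 1230186008) (P3 := 858993459) (W3 := 64424510) (N0 := 3) (En := eng) (mo := mog) (C1 := cd1q1) (C2 := cd4q3) (C3 := pd3)
    rfl k0_mm_133

noncomputable def cut_mm_202_a : Cut := Cut.of [[⟨0, 1, 0, 67108864⟩, ⟨1, 0, 0, 67108864⟩, ⟨2, 1, 0, 67108864⟩]]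

noncomputable def f_mm_202_a : ℕ → ℕ → ℕ → ℕ → Bool := onCell 0 536870912 0 536870912 858993459 64424510
    (rowB 3 eng mog cd1q2a cd4q2 pd0 1 false false false .pp 2 0 2 (qsf 0 536870912 1073741824 536870912 0) ndB1q2a ndB4q2 pcB0 cut_mm_202_a Ext.none)

def k0_mm_202_a : ∃ t, chk3 f_mm_202_a t 4 2 1 = true :=
  ⟨(b (b (b (a (l 16320240) (b (l 16357992) (l 16494344))) (a (b (l 16398104) (l 16431448)) (b (l 16441328) (l 16467880)))) (b (a (l 16447664) (l 16483528)) (b (l 16484280) (a (l 16481000) (l 16528472))))) (b (b (a (b (l 16509208) (l 16538192)) (b (a (l 16544456) (l 16568432)) (a (l 16568776) (l 16568712)))) (a (b (l 16564904) (l 16481512)) (b (a (l 16568072) (l 16581216)) (l 16588928)))) (b (a (b (l 16622744) (l 16592232)) (c (b (l 16607688) (l 16623088)) (l 16649808))) (a (c (l 16616952) (l 16612504)) (c (a (l 16679584) (b (l 16646520) (l 153712689303))) (b (l 16632648) (l 163376340215))))))), by decide +kernel⟩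

def k1_mm_202_a : ∃ t, chk3 f_mm_202_a t 5 2 1 = true :=
  ⟨(b (a (b (b (b (a (l 16409336) (l 16436368)) (l 16455136)) (l 16577488)) (b (b (l 16518752) (l 16533760)) (b (a (l 16541968) (l 16569192)) (c (a (l 16558384) (l 16598120)) (l 16672408))))) (b (b (b (a (l 16460248) (l 16487352)) (l 16503208)) (a (l 16525888) (l 16613632))) (b (b (l 16608352) (a (l 16571456) (c (l 16586312) (l 16583448)))) (b (a (c (l 16583024) (l 16578648)) (l 16600944)) (c (a (l 16596784) (l 16618936)) (l 16606216)))))) (b (b (a (a (b (l 16571976) (l 16583776)) (c (l 16650784) (l 16592768))) (a (c (b (l 16611520) (l 16626592)) (b (l 16607992) (l 16622120))) (c (b (l 16633888) (a (l 16643336) (l 16676184))) (b (l 16632816) (l 95193729095))))) (a (c (b (a (l 16601936) (l 16621384)) (a (l 16617864) (l 16637768))) (b (l 16604544) (l 16619840))) (a (c (b (a (l 16637104) (l 16648224)) (b (l 16675984) (l 16695504))) (b (l 16636896) (l 152638864423))) (b (c (c (l 111836761063) (l 110226151735))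 (c (l 115057984007) (l 134922202119))) (l 3))))) (b (a (c (a (b (l 16633824) (l 16670512)) (b (l 97878113479) (l 149417748615))) (c (b (l 16659584) (l 163376368231)) (a (l 16567976) (l 168745070823)))) (a (b (c (l 135995981399) (l 147807124183)) (l 3)) (l 3))) (a (a (b (c (l 165523863767) (l 181093083127)) (c (l 233706422903) (l 207399789351))) (l 3)) (l 3))))), by decide +kernel⟩

def k2_mm_202_a : ∃ t, chk3 f_mm_202_a t 2 3 1 = true :=
  ⟨(b (a (a (b (c (b (a (l 16640232) (l 16695176)) (a (b (l 16662720) (l 16678032)) (b (l 16676104) (l 212768523863)))) (b (l 16666488) (b (l 174650649223) (l 195051776887)))) (b (a (c (b (l 213305392615) (l 253570705319)) (b (l 247665043031) (l 269676842119))) (l 3)) (l 3))) (b (b (b (a (c (l 16660520) (l 16658248)) (c (l 189683068039) (l 209010390583))) (a (c (l 189683055975) (l 251959955383)) (l 3))) (a (c (l 249812525431) (l 256791913959)) (l 3))) (l 3))) (l 3)) (l 3)), by decide +kernel⟩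

def k3_mm_202_a : ∃ t, chk3 f_mm_202_a t 6 4 1 = true :=
  ⟨(b (b (a (b (a (l 16513648) (l 16542592)) (l 16651152)) (b (a (l 16574488) (a (l 16600544) (l 16619056))) (a (l 16604144) (c (l 16631032) (l 16633296))))) (b (b (a (l 16576160) (a (l 16611360) (a (l 16626824) (c (l 16616232) (l 16640112))))) (a (l 16607128) (a (l 16612168) (c (b (l 16593240) (l 16618096)) (l 16641080))))) (b (a (l 16630136) (a (c (l 16616600) (l 16618880)) (c (a (l 16637616) (l 16653688)) (l 16650968)))) (a (a (l 16582128) (a (l 16593672) (l 16604624))) (a (c (l 16603760) (l 16628768)) (c (a (l 16647512) (l 16642544)) (l 16662320))))))) (b (a (b (a (c (l 16610384) (l 16589648)) (c (b (l 16606648) (l 16616224)) (l 16616512))) (a (c (l 16606496) (l 16608368)) (c (l 16673920) (l 16637600)))) (b (c (a (b (l 16634736) (l 16645256)) (b (a (l 16636664) (c (l 16671808) (l 16654384))) (a (l 16646848) (c (l 16660912) (l 16664648))))) (a (a (l 16637712) (l 16653576)) (a (b (l 16664552) (l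 16675320)) (b (l 16681704) (l 168745056599))))) (b (a (c (l 16676552) (l 16662256)) (a (c (l 16693768) (l 16685968)) (c (l 164986996983) (l 301352156711)))) (a (c (a (l 16658184) (l 16672912)) (a (l 16664936) (l 16679240))) (a (c (l 108078691015) (l 313163298727)) (l 3)))))) (a (b (a (c (l 16625296) (l 16628440)) (c (a (l 16644256) (l 16679168)) (a (l 16648968) (l 16661392)))) (a (c (b (l 16638496) (l 16646488)) (l 16645808)) (c (c (c (l 113447382823) (l 101636228279)) (c (l 88214461367) (l 78013916215))) (c (c (l 81235135575) (l 87677580951)) (b (l 16663608) (l 16691832)))))) (a (b (a (c (b (l 16667832) (l 16677256)) (c (l 16676432) (l 16672288))) (b (c (l 16682888) (l 16685080)) (l 3))) (l 3)) (l 3))))), by decide +kernel⟩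

def k4_mm_202_a : ∃ t, chk3 f_mm_202_a t 6 5 1 = true :=
  ⟨(b (b (a (a (b (c (c (l 104320549223) (l 86603816919)) (c (l 16680928) (l 16661296))) (a (c (l 99488715479) (l 16689008)) (l 3))) (a (a (b (c (l 16695352) (l 16696080)) (l 3)) (l 3)) (l 3))) (l 3)) (l 3)) (l 3)), by decide +kernel⟩

def k5_mm_202_a : ∃ t, chk3 f_mm_202_a t 14 8 1 = true :=
  ⟨(a (a (b (b (a (l 16633576) (l 16643568)) (b (l 16649096) (b (l 16648952) (l 16648952)))) (b (b (c (l 16620464) (l 16656792)) (c (l 16639472) (l 16667024))) (c (b (a (l 16665912) (l 16674192)) (b (l 16656432) (l 16661360))) (b (l 16678144) (l 16709944))))) (b (b (b (l 16649520) (l 16663216)) (b (l 16662392) (b (c (l 16639240) (l 16664832)) (c (l 16642216) (l 16647104))))) (b (c (b (a (l 16664192) (l 16674752)) (b (l 16655624) (l 16649904))) (b (l 16675600) (l 16686600))) (b (c (a (l 16651848) (b (l 16691360) (l 16675232))) (c (l 16695008) (l 16699976))) (c (c (l 379735289367) (l 374903459463)) (a (l 246591318359)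 (l 89288232007))))))) (a (b (b (b (l 16667880) (l 16678640)) (b (b (l 16678024) (c (l 16655624) (l 16680104))) (c (b (l 16658896) (l 16662992)) (l 16686384)))) (b (b (c (a (l 16664520) (b (l 16694040) (l 16698736))) (c (l 16674032) (l 16698144))) (c (a (b (l 16692544) (l 16697280)) (b (l 16682472) (l 254107537607))) (c (l 27548088615) (l 16709208)))) (b (c (a (b (l 16681128) (l 373292875511)) (l 278266739943)) (c (b (l 16713176) (l 16734200)) (c (l 16729536) (l 16732856)))) (l 3)))) (b (b (b (l 6) (c (l 16693192) (l 16696736))) (b (b (a (l 16690000) (l 6)) (c (a (l 16691560) (l 16702416)) (l 16700064))) (b (c (c (l 16679776) (l 16681272)) (l 16704936)) (c (a (l 16700448) (l 16690704)) (l 16710216))))) (b (a (b (c (b (l 16705112) (l 16688832)) (c (l 16690216) (l 16714064))) (c (b (l 396915214599) (l 374903517255)) (c (l 16735984) (l 16724944)))) (b (b (c (a (l 16713504) (l 16698200)) (l 16720920)) (c (l 397988971191) (l 16737992))) (l 3))) (l 3))))), by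 decide +kernel⟩

def k6_mm_202_a : ∃ t, chk3 f_mm_202_a t 15 8 1 = true :=
  ⟨(b (a (b (l 6) (b (l 6) (a (a (b (c (c (l 16717720) (l 16719160)) (l 16721704)) (c (c (l 16711792) (l 16702984)) (l 16726904))) (b (l 6) (a (c (l 246054534839) (l 16735448)) (b (l 6) (l 3))))) (l 6)))) (l 6)) (a (b (a (b (a (b (c (l 400136469655) (c (l 16720536) (l 16733384))) (l 3)) (l 3)) (l 3)) (l 3)) (l 3)) (l 3))), by decide +kernel⟩

def k7_mm_202_a : ∃ t, chk3 f_mm_202_a t 7 9 1 = true :=
  ⟨(a (b (a (a (b (b (c (c (l 355576087319) (l 349670515319)) (a (l 16694952) (l 16681872))) (a (c (l 411410679959) (l 16705632)) (l 3))) (l 3)) (l 3)) (l 3)) (l 3)) (l 3)), by decide +kernel⟩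

def k8_mm_202_a : ∃ t, chk3 f_mm_202_a t 7 5 1 = true :=
  ⟨(l 3), by decide +kernel⟩

def k9_mm_202_a : ∃ t, chk3 f_mm_202_a t 3 3 1 = true :=
  ⟨(l 3), by decide +kernel⟩

theorem s10_mm_202_a : ∃ t, chk3 f_mm_202_a t 7 8 1 = true := ex3_a k5_mm_202_a k6_mm_202_a

theorem s11_mm_202_a : ∃ t, chk3 f_mm_202_a t 7 4 1 = true := ex3_b s10_mm_202_a k7_mm_202_a

theorem s12_mm_202_a : ∃ t, chk3 f_mm_202_a t 7 2 1 = true := ex3_b s11_mm_202_a k8_mm_202_a

theorem s13_mm_202_a : ∃ t, chk3 f_mm_202_a t 6 2 1 = true := ex3_b k3_mm_202_a k4_mm_202_a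

theorem s14_mm_202_a : ∃ t, chk3 f_mm_202_a t 3 2 1 = true := ex3_a s13_mm_202_a s12_mm_202_a

theorem s15_mm_202_a : ∃ t, chk3 f_mm_202_a t 3 1 1 = true := ex3_b s14_mm_202_a k9_mm_202_a

theorem s16_mm_202_a : ∃ t, chk3 f_mm_202_a t 2 2 1 = true := ex3_a k0_mm_202_a k1_mm_202_a

theorem s17_mm_202_a : ∃ t, chk3 f_mm_202_a t 2 1 1 = true := ex3_b s16_mm_202_a k2_mm_202_a

theorem s18_mm_202_a : ∃ t, chk3 f_mm_202_a t 1 1 1 = true := ex3_a s17_mm_202_a s15_mm_202_a

theorem c_mm_202_a : CertB 0 536870912 1073741824 536870912 858993459 64424510 3 eng mog cd1q2a cd4q2 pd0 false false false .pp 2 0 2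
    ndB1q2a ndB4q2 pcB0 cut_mm_202_a Ext.none :=
  certB1 (fam := false) (s1 := false) (s2 := false) (a := 2) (b := 0) (c := 2) (cn := .pp) (n1 := ndB1q2a) (n2 := ndB4q2) (pc := pcB0) (cut := cut_mm_202_a) (xt := Ext.none) (P1 := 0) (W1 := 536870912) (P2 := 1073741824) (W2 := 536870912) (P3 := 858993459) (W3 := 64424510) (N0 := 3) (En := eng) (mo := mog) (C1 := cd1q2a) (C2 := cd4q2) (C3 := pd0)
    rfl (fun _ => rfl) s18_mm_202_a

noncomputable def cut_mm_202_b : Cut := Cut.of [[⟨0, 1, 0, 67108864⟩, ⟨1, 0, 0, 67108864⟩, ⟨2, 1, 0, 67108864⟩]]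

noncomputable def f_mm_202_b : ℕ → ℕ → ℕ → ℕ → Bool := onCell 0 536870912 1073741824 536870912 858993459 64424510
    (rowB 3 eng mog cd1q2b cd4q2 pd0 2 false false false .pp 2 0 2 (qsf 1239849684 370763052 1073741824 536870912 0) ndB1q2b ndB4q2 pcB0 cut_mm_202_b Ext.none)

def k0_mm_202_b : ∃ t, chk3 f_mm_202_b t 2 1 1 = true :=
  ⟨(b (a (b (l 1) (b (a (a (b (l 487510952935) (l 16226728)) (c (l 453151308983) (l 464962421767))) (l 1)) (a (a (b (l 16297640) (l 16296408)) (b (c (l 16389416) (l 16395000)) (l 16405152))) (a (b (a (l 16438560) (l 1)) (l 16430720)) (a (l 622803257287) (l 1)))))) (l 1)) (a (b (a (b (a (b (l 16277112) (l 16162208)) (b (l 16351160) (l 16246240))) (a (l 16126784) (l 16111240))) (a (b (b (l 16416032) (l 16384456)) (l 16258592)) (b (a (b (l 16440696) (l 16431552)) (b (l 16457576) (l 16455712))) (a (l 16334280) (l 16390424))))) (a (b (a (l 15699208) (c (l 15713272) (l 15880776))) (a (b (l 15735536) (l 15690760)) (b (l 15936112) (l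 15812360)))) (a (b (b (l 16099888) (a (l 15992720) (l 16051112))) (b (l 15968936) (l 15928456))) (b (b (a (l 16179128) (l 16147568)) (a (l 16107472) (l 16163408))) (b (l 16082192) (l 16038280)))))) (b (a (b (a (b (l 389264571911) (a (l 16485392) (l 16516656))) (b (l 1) (l 242162067351))) (a (b (l 16491672) (l 16396640)) (b (l 16556672) (l 16482408)))) (b (l 1) (a (b (l 109555110775) (b (l 16592104) (l 16553176))) (b (l 1) (b (l 1) (l 16649344)))))) (a (b (a (b (l 16326168) (l 16241832)) (b (l 16404504) (l 16280848))) (b (a (l 16186896) (l 16141752)) (a (l 16140688) (l 16261768)))) (b (a (b (l 16504160) (l 16443184)) (b (c (l 16601816) (l 16597792)) (l 16539112))) (b (a (c (l 16395056) (l 16378256)) (l 16503928)) (b (a (l 16349784) (l 16423328)) (l 3)))))))), by decide +kernel⟩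

def k1_mm_202_b : ∃ t, chk3 f_mm_202_b t 3 1 1 = true :=
  ⟨(b (l 1) (a (b (l 1) (a (b (a (b (c (l 16680920) (l 16689144)) (c (l 16631592) (l 16630000))) (b (l 1) (b (l 1) (l 191159328775)))) (b (a (c (l 16575840) (l 16572296)) (c (b (l 16675256) (l 16648296)) (a (l 16640904) (l 16685184)))) (c (a (l 16461576) (l 122574163767)) (a (l 16478120) (l 115057960855))))) (b (l 1) (a (b (c (a (l 147136041191) (l 1)) (l 489122690103)) (c (b (a (l 16684848) (l 329672147991)) (a (l 16659728) (a (l 16690400) (l 7683790423)))) (b (a (l 16688344) (l 335577741319)) (a (l 16662872) (b (l 16711456) (l 16698792)))))) (b (l 1) (b (l 1) (a (a (a (c (l 16704808) (l 16730872)) (l 1)) (l 1)) (l 1)))))))) (l 1))), by decide +kernel⟩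

theorem s2_mm_202_b : ∃ t, chk3 f_mm_202_b t 1 1 1 = true := ex3_a k0_mm_202_b k1_mm_202_b

theorem c_mm_202_b : CertB 1239849684 370763052 1073741824 536870912 858993459 64424510 3 eng mog cd1q2b cd4q2 pd0 false false false .pp 2 0 2
    ndB1q2b ndB4q2 pcB0 cut_mm_202_b Ext.none :=
  certB2 (fam := false) (s1 := false) (s2 := false) (a := 2) (b := 0) (c := 2) (cn := .pp) (n1 := ndB1q2b) (n2 := ndB4q2) (pc := pcB0) (cut := cut_mm_202_b) (xt := Ext.none) (P1 := 1239849684) (W1 := 370763052) (P2 := 1073741824) (W2 := 536870912) (P3 := 858993459) (W3 := 64424510) (N0 := 3) (En := eng) (mo := mog) (C1 := cd1q2b) (C2 := cd4q2) (C3 := pd0)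
    rfl (fun _ => rfl) s2_mm_202_b

noncomputable def f_mm_203_a : ℕ → ℕ → ℕ → ℕ → Bool := onCell 0 536870912 0 1230186008 858993459 64424510
    (rowB 3 eng mog cd1q2a cd4q3 pd0 0 false false false .up 2 0 3 (qsf 0 536870912 0 1230186008 0) ndB1q2a ndB4q3 pcB0 Cut.none Ext.none)

def k0_mm_203_a : ∃ t, chk3 f_mm_203_a t 1 1 1 = true :=
  ⟨(b (l 2) (b (l 2) (b (l 3) (a (b (l 3) (l 3)) (l 3))))), by decide +kernel⟩

theorem c_mm_203_a : CertB 0 536870912 0 1230186008 858993459 64424510 3 eng mog cd1q2a cd4q3 pd0 false false false .up 2 0 3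
    ndB1q2a ndB4q3 pcB0 Cut.none Ext.none :=
  certB0 (fam := false) (s1 := false) (s2 := false) (a := 2) (b := 0) (c := 3) (cn := .up) (n1 := ndB1q2a) (n2 := ndB4q3) (pc := pcB0) (cut := Cut.none) (xt := Ext.none) (P1 := 0) (W1 := 536870912) (P2 := 0) (W2 := 1230186008) (P3 := 858993459) (W3 := 64424510) (N0 := 3) (En := eng) (mo := mog) (C1 := cd1q2a) (C2 := cd4q3) (C3 := pd0)
    rfl k0_mm_203_a

noncomputable def f_mm_203_b : ℕ → ℕ → ℕ → ℕ → Bool := onCell 1239849684 370763052 0 1230186008 858993459 64424510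
    (rowB 3 eng mog cd1q2b cd4q3 pd0 0 false false false .up 2 0 3 (qsf 1239849684 370763052 0 1230186008 0) ndB1q2b ndB4q3 pcB0 Cut.none Ext.none)

def k0_mm_203_b : ∃ t, chk3 f_mm_203_b t 1 1 1 = true :=
  ⟨(b (l 3) (b (l 3) (b (l 3) (a (a (b (l 3) (l 3)) (l 3)) (l 3))))), by decide +kernel⟩

theorem c_mm_203_b : CertB 1239849684 370763052 0 1230186008 858993459 64424510 3 eng mog cd1q2b cd4q3 pd0 false false false .up 2 0 3
    ndB1q2b ndB4q3 pcB0 Cut.none Ext.none :=
  certB0 (fam := false) (s1 := false) (s2 := false) (a := 2) (b := 0) (c := 3) (cn := .up) (n1 := ndB1q2b) (n2 := ndB4q3) (pc := pcB0) (cut := Cut.none) (xt := Ext.none) (P1 := 1239849684) (W1 := 370763052) (P2 := 0) (W2 := 1230186008) (P3 := 858993459) (W3 := 64424510) (N0 := 3) (En := eng) (mo := mog) (C1 := cd1q2b) (C2 := cd4q3) (C3 := pd0)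
    rfl k0_mm_203_b

noncomputable def f_mm_213_a : ℕ → ℕ → ℕ → ℕ → Bool := onCell 0 536870912 0 1230186008 858993459 64424510
    (rowB 3 eng mog cd1q2a cd4q3 pd1 0 false false false .pnn 2 1 3 (qsf 0 536870912 0 1230186008 1) ndB1q2a ndB4q3 pcB1 Cut.none Ext.none)

def k0_mm_213_a : ∃ t, chk3 f_mm_213_a t 1 1 1 = true :=
  ⟨(b (b (l 5) (l 3)) (b (l 3) (b (l 3) (a (b (l 3) (l 1)) (l 3))))), by decide +kernel⟩

theorem c_mm_213_a : CertB 0 536870912 0 1230186008 858993459 64424510 3 eng mog cd1q2a cd4q3 pd1 false false false .pnn 2 1 3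
    ndB1q2a ndB4q3 pcB1 Cut.none Ext.none :=
  certB0 (fam := false) (s1 := false) (s2 := false) (a := 2) (b := 1) (c := 3) (cn := .pnn) (n1 := ndB1q2a) (n2 := ndB4q3) (pc := pcB1) (cut := Cut.none) (xt := Ext.none) (P1 := 0) (W1 := 536870912) (P2 := 0) (W2 := 1230186008) (P3 := 858993459) (W3 := 64424510) (N0 := 3) (En := eng) (mo := mog) (C1 := cd1q2a) (C2 := cd4q3) (C3 := pd1)
    rfl k0_mm_213_a

noncomputable def f_mm_213_b : ℕ → ℕ → ℕ → ℕ → Bool := onCell 1239849684 370763052 0 1230186008 858993459 64424510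
    (rowB 3 eng mog cd1q2b cd4q3 pd1 0 false false false .pnn 2 1 3 (qsf 1239849684 370763052 0 1230186008 1) ndB1q2b ndB4q3 pcB1 Cut.none Ext.none)

def k0_mm_213_b : ∃ t, chk3 f_mm_213_b t 1 1 1 = true :=
  ⟨(b (l 3) (b (l 3) (b (l 3) (l 1)))), by decide +kernel⟩

theorem c_mm_213_b : CertB 1239849684 370763052 0 1230186008 858993459 64424510 3 eng mog cd1q2b cd4q3 pd1 false false false .pnn 2 1 3
    ndB1q2b ndB4q3 pcB1 Cut.none Ext.none :=
  certB0 (fam := false) (s1 := false) (s2 := false) (a := 2) (b := 1) (c := 3) (cn := .pnn) (n1 := ndB1q2b) (n2 := ndB4q3) (pc := pcB1) (cut := Cut.none) (xt := Ext.none) (P1 := 1239849684) (W1 := 370763052) (P2 := 0) (W2 := 1230186008) (P3 := 858993459) (W3 := 64424510) (N0 := 3) (En := eng) (mo := mog) (C1 := cd1q2b) (C2 := cd4q3) (C3 := pd1)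
    rfl k0_mm_213_b

noncomputable def f_mm_303 : ℕ → ℕ → ℕ → ℕ → Bool := onCell 0 536870912 0 1230186008 858993459 64424510
    (rowB 3 eng mog cd1q3 cd4q3 pd0 2 false false false .npn 3 0 3 (qsf 1610612736 536870912 0 1230186008 0) ndB1q3 ndB4q3 pcB0 Cut.none Ext.none)

def k0_mm_303 : ∃ t, chk3 f_mm_303 t 1 1 1 = true :=
  ⟨(b (l 3) (b (l 3) (a (b (l 3) (l 3)) (l 1)))), by decide +kernel⟩

theorem c_mm_303 : CertB 1610612736 536870912 0 1230186008 858993459 64424510 3 eng mog cd1q3 cd4q3 pd0 false false false .npn 3 0 3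
    ndB1q3 ndB4q3 pcB0 Cut.none Ext.none :=
  certB2 (fam := false) (s1 := false) (s2 := false) (a := 3) (b := 0) (c := 3) (cn := .npn) (n1 := ndB1q3) (n2 := ndB4q3) (pc := pcB0) (cut := Cut.none) (xt := Ext.none) (P1 := 1610612736) (W1 := 536870912) (P2 := 0) (W2 := 1230186008) (P3 := 858993459) (W3 := 64424510) (N0 := 3) (En := eng) (mo := mog) (C1 := cd1q3) (C2 := cd4q3) (C3 := pd0)
    rfl (fun _ => rfl) k0_mm_303

noncomputable def f_mm_313 : ℕ → ℕ → ℕ → ℕ → Bool := onCell 1610612736 536870912 0 1230186008 858993459 64424510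
    (rowB 3 eng mog cd1q3 cd4q3 pd1 0 false false false .dn 3 1 3 (qsf 1610612736 536870912 0 1230186008 1) ndB1q3 ndB4q3 pcB1 Cut.none Ext.none)

def k0_mm_313 : ∃ t, chk3 f_mm_313 t 1 1 1 = true :=
  ⟨(b (l 3) (l 1)), by decide +kernel⟩

theorem c_mm_313 : CertB 1610612736 536870912 0 1230186008 858993459 64424510 3 eng mog cd1q3 cd4q3 pd1 false false false .dn 3 1 3
    ndB1q3 ndB4q3 pcB1 Cut.none Ext.none :=
  certB0 (fam := false) (s1 := false) (s2 := false) (a := 3) (b := 1) (c := 3) (cn := .dn) (n1 := ndB1q3) (n2 := ndB4q3) (pc := pcB1) (cut := Cut.none) (xt := Ext.none) (P1 := 1610612736) (W1 := 536870912) (P2 := 0) (W2 := 1230186008) (P3 := 858993459) (W3 := 64424510) (N0 := 3) (En := eng) (mo := mog) (C1 := cd1q3) (C2 := cd4q3) (C3 := pd1)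
    rfl k0_mm_313

end Pool.Agent.Strip051.G.I8000_8600.Tab.C.BB14

namespace Pool.Agent.Strip051.G.I8000_8600.Tab.C.BB20

open Pool.Agent.Strip051.PB Pool.Agent.Strip051.PB.T
open Pool.Agent.Strip051.G.I8000_8600.Tab

noncomputable def f_pp_001 : ℕ → ℕ → ℕ → ℕ → Bool := onCell 0 536870912 536870912 536870912 858993459 64424510
    (rowB 3 eng mog cd2q0 cd0q1 pd0 2 false true true .up 0 0 1 (qsf 0 536870912 536870912 536870912 0) ndB2q0 ndB0q1 pcB0 Cut.none Ext.none)

def k0_pp_001 : ∃ t, chk3 f_pp_001 t 1 1 1 = true :=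
  ⟨(b (l 3) (b (l 3) (b (l 3) (a (l 2) (b (l 3) (a (l 2) (b (a (l 2) (a (b (l 3) (l 2)) (a (b (l 3) (c (c (l 16263912) (l 16212584)) (c (l 16146512) (b (l 226189001559) (l 16065480))))) (c (c (l 211693869799) (l 202567098567)) (b (c (l 346985157607) (l 411409492071)) (c (l 16137296) (b (l 227262729479) (l 16057736)))))))) (a (l 2) (a (l 2) (c (c (l 16245320) (a (l 16200048) (l 16186648))) (a (c (l 16131848) (l 16051424)) (c (l 16120016) (l 16041112))))))))))))), by decide +kernel⟩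

theorem c_pp_001 : CertB 0 536870912 536870912 536870912 858993459 64424510 3 eng mog cd2q0 cd0q1 pd0 false true true .up 0 0 1
    ndB2q0 ndB0q1 pcB0 Cut.none Ext.none :=
  certB2 (fam := false) (s1 := true) (s2 := true) (a := 0) (b := 0) (c := 1) (cn := .up) (n1 := ndB2q0) (n2 := ndB0q1) (pc := pcB0) (cut := Cut.none) (xt := Ext.none) (P1 := 0) (W1 := 536870912) (P2 := 536870912) (W2 := 536870912) (P3 := 858993459) (W3 := 64424510) (N0 := 3) (En := eng) (mo := mog) (C1 := cd2q0) (C2 := cd0q1) (C3 := pd0)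
    rfl (fun _ => rfl) k0_pp_001

end Pool.Agent.Strip051.G.I8000_8600.Tab.C.BB20

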