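import Pool.Agent.Strip051.G.I8000_8600.Tab

/-! # Certificates B23 (generated) -/

set_option linter.all false
set_option maxRecDepth 100000

namespace Pool.Agent.Strip051.G.I8000_8600.Tab.C.BB20

open Pool.Agent.Strip051.PB Pool.Agent.Strip051.PB.T
open Pool.Agent.Strip051.G.I8000_8600.Tab

noncomputable def f_pp_011 : ℕ → ℕ → ℕ → ℕ → Bool := onCell 536870912 536870912 536870912 536870912 858993459 64424510
    (rowB 3 eng mog cd2q0 cd0q1 pd1 2 false true true .pnn 0 1 1 (qsf 0 536870912 536870912 536870912 1) ndB2q0 ndB0q1 pcB1 Cut.none Ext.none)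

def k0_pp_011 : ∃ t, chk3 f_pp_011 t 2 2 1 = true :=
  ⟨(a (l 3) (b (a (b (l 1) (l 3)) (l 1)) (l 3))), by decide +kernel⟩

def k1_pp_011 : ∃ t, chk3 f_pp_011 t 2 6 1 = true :=
  ⟨(l 3), by decide +kernel⟩

def k2_pp_011 : ∃ t, chk3 f_pp_011 t 2 14 1 = true :=
  ⟨(l 3), by decide +kernel⟩

def k3_pp_011 : ∃ t, chk3 f_pp_011 t 4 30 1 = true :=
  ⟨(l 3), by decide +kernel⟩

def k4_pp_011 : ∃ t, chk3 f_pp_011 t 4 62 1 = true :=
  ⟨(b (a (b (l 3) (a (b (l 3) (c (a (a (l 414093905463) (l 220283476631)) (c (l 16235288) (l 16195152))) (a (c (l 195050684471) (a (l 16068248) (l 16067992))) (c (l 199882525751) (a (l 16068704) (l 16070336)))))) (c (a (c (l 16227288) (l 172502252647)) (c (l 16216176) (l 16168784))) (a (c (a (l 16141248) (l 16142056)) (a (l 208472291335) (l 210619785335))) (c (l 189682032903) (a (l 16082088) (l 16086648))))))) (c (a (a (c (l 16309552) (l 148879905367)) (c (l 217599453399) (l 16184112))) (a (c (l 260549016567) (l 16171752)) (c (b (l 16164584) (l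 16157040)) (l 16195584)))) (a (c (a (l 191829403079) (l 157469722359)) (a (a (l 192366275447) (l 191829423111)) (b (l 824800236855) (l 16106264)))) (a (c (l 16158040) (l 199882440167)) (c (l 16153768) (l 16132280)))))) (a (a (c (c (a (l 16229288) (l 16218944)) (a (c (l 16198496) (l 16173736)) (c (l 16191112) (l 16168248)))) (c (a (c (l 16146024) (l 16115616)) (c (l 16142392) (l 16113816))) (b (a (c (l 16084024) (l 16047040)) (c (l 16084544) (l 16049488))) (a (l 16065024) (l 16065448))))) (c (c (a (l 16209568) (l 16200384)) (a (l 16196440) (l 16172096))) (a (c (c (l 16141128) (l 16114728)) (c (l 16085816) (l 16054592))) (c (l 16151112) (c (l 16091464) (l 16062696)))))) (c (a (c (l 16278776) (a (l 16169120) (l 16165328))) (c (l 16237264) (l 16153440))) (a (a (c (l 16133440) (l 16107448)) (c (l 16137208) (l 16097088))) (a (c (l 16140032) (l 16108112)) (l 16130272)))))), by decide +kernel⟩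

def k5_pp_011 : ∃ t, chk3 f_pp_011 t 4 63 1 = true :=
  ⟨(a (c (a (c (a (b (l 16200176) (l 16170216)) (l 16160176)) (b (a (l 16162568) (l 16155736)) (l 16240040))) (c (a (l 16157752) (l 16161816)) (c (l 16249416) (l 16233928)))) (a (c (a (b (l 16116952) (l 16103648)) (c (l 16115560) (l 16095064))) (a (b (l 16064264) (l 16064072)) (b (l 16063080) (l 16060728)))) (c (a (c (l 16112736) (l 16093680)) (l 16166440)) (a (c (l 16073320) (l 16051712)) (c (l 16076024) (l 16056152)))))) (c (c (a (a (l 16156056) (l 16150168)) (l 16222280)) (a (a (l 16112672) (l 16132248)) (l 16128744))) (a (c (c (l 16155872) (l 16204440)) (a (l 16156016) (l 16100752))) (c (l 16113256) (b (l 16099424) (l 16064928)))))), by decide +kernel⟩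

def k6_pp_011 : ∃ t, chk3 f_pp_011 t 5 30 1 = true :=
  ⟨(b (l 3) (b (l 3) (b (a (l 3) (l 3)) (a (a (l 3) (a (l 3) (l 3))) (a (c (a (c (l 206325246967) (l 220820638279)) (c (a (l 16255352) (l 219210202295)) (l 220820712455))) (a (c (l 16137984) (l 16081264)) (c (l 230484264807) (l 16147608)))) (a (c (c (a (l 220820865703) (l 221894664679)) (a (l 16209992) (l 228336968135))) (c (l 229410603959) (l 236926666359))) (c (a (c (l 222968471047) (l 229947639479)) (a (c (l 224042242407) (l 231558280039)) (c (a (l 224042231095) (l 221357889879)) (l 228337082567)))) (a (c (l 16186104) (l 16118304)) (c (a (l 16203456) (l 232631896519)) (a (l 16130920) (l 16139624))))))))))), by decide +kernel⟩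

def k7_pp_011 : ∃ t, chk3 f_pp_011 t 5 31 1 = true :=
  ⟨(c (a (a (b (c (b (a (l 241758524135) (l 242832285047)) (a (l 16136072) (l 16130424))) (b (a (l 283634348391) (l 16130248)) (l 16311264))) (a (l 16243608) (l 16271264))) (a (b (b (c (l 233168660663) (l 16126920)) (c (l 16130480) (l 16110360))) (l 16304120)) (b (b (c (c (l 16177696) (l 16157216)) (l 16130368)) (l 16164592)) (l 16279664)))) (c (a (b (c (b (a (l 16197608) (l 16226384)) (l 16169336)) (a (l 16157416) (l 16201736))) (a (l 16102768) (l 16115400))) (b (a (b (b (l 16284280) (l 16239560)) (l 16204160)) (b (a (l 16288992) (b (l 16332912) (l 16305088))) (l 16249256))) (a (l 16137224) (l 16170424)))) (a (b (b (a (l 16141728) (l 16162520)) (l 16208000)) (a (l 16085264) (l 16093864))) (b (a (c (l 16210760) (l 16165040)) (b (a (l 16227480) (b (l 16264552) (l 16244024))) (l 16200392))) (c (l 16132568) (l 16118080)))))) (a (a (a (b (c (l 207935755591) (l 197198274807)) (l 16129352)) (b (c (b (l 16118912) (l 16111664))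 (l 218136255399)) (l 16103864))) (b (b (c (a (l 16107080) (l 16101880)) (a (l 16096840) (l 16081824))) (a (l 16093752) (l 16102472))) (a (l 16105328) (l 16236688)))) (a (b (b (a (c (l 16104640) (l 16074376)) (c (l 16116856) (l 16076064))) (a (l 16076656) (l 16080744))) (c (l 16257288) (a (l 16051896) (l 16047072)))) (b (b (a (c (l 16140320) (l 16088632)) (a (c (l 16166640) (l 16106464)) (c (b (l 16195992) (l 16181792)) (l 16122896)))) (a (l 16095544) (l 16165176))) (c (c (l 16102488) (l 16085776)) (a (l 16051960) (l 16068640))))))), by decide +kernel⟩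

def k8_pp_011 : ∃ t, chk3 f_pp_011 t 3 2 1 = true :=
  ⟨(a (b (l 1) (a (b (l 1) (l 3)) (l 1))) (l 1)), by decide +kernel⟩

def k9_pp_011 : ∃ t, chk3 f_pp_011 t 6 6 1 = true :=
  ⟨(l 3), by decide +kernel⟩

def k10_pp_011 : ∃ t, chk3 f_pp_011 t 6 14 1 = true :=
  ⟨(l 3), by decide +kernel⟩

def k11_pp_011 : ∃ t, chk3 f_pp_011 t 6 60 1 = true :=
  ⟨(l 3), by decide +kernel⟩

def k12_pp_011 : ∃ t, chk3 f_pp_011 t 6 122 1 = true :=
  ⟨(a (l 3) (l 3)), by decide +kernel⟩

def k13_pp_011 : ∃ t, chk3 f_pp_011 t 6 246 1 = true :=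
  ⟨(b (a (l 3) (a (l 3) (b (l 3) (a (a (l 3) (c (c (l 16727880) (l 269139986167)) (c (l 276119288391) (b (l 3) (l 279877377463))))) (c (a (c (l 16792008) (l 16771392)) (c (l 16833920) (l 16814168))) (a (c (l 288467401335) (l 289004276935)) (c (l 16815824) (l 302426140951)))))))) (a (a (l 3) (b (l 3) (a (a (l 3) (a (l 3) (c (l 247127974887) (l 228874149111)))) (a (a (c (l 222968792551) (l 232632294535)) (c (l 227800639959) (c (l 16447600) (l 16332416)))) (c (a (l 233169358007) (l 236927458311)) (a (c (l 16472992) (l 16354176)) (c (l 16500144) (l 16377520)))))))) (a (a (a (b (l 3) (c (a (l 239611838375) (l 241759349767)) (a (c (l 16529200) (l 16402568)) (c (l 16560304) (l 16429472))))) (c (a (c (l 16627440) (l 240148758807)) (c (l 16630504) (l 243906862775))) (a (c (l 245517404039) (l 251959732039)) (c (l 249275511959) (l 254107280695))))) (a (c (a (c (l 16633560) (l 247664968407)) (c (l 16636616) (l 236390732599))) (a (c (l 253033618791) (l 256791706311)) (c (l 255718028455)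 (l 260549823207)))) (c (a (c (l 16644920) (l 239611962311)) (a (l 238538218999) (c (l 16643656) (l 16641704)))) (a (c (l 260013003575) (c (l 16639952) (l 16561224))) (a (a (l 265381688679) (l 266455432951)) (c (l 264844853271) (l 270213527367))))))) (a (a (a (c (a (b (l 16653944) (l 16643120)) (l 16680392)) (a (b (c (l 16672944) (l 16672520)) (l 16641816)) (l 277729765383))) (c (a (l 16691776) (l 16703088)) (a (l 279340402519) (l 16660848)))) (c (c (l 16731224) (l 16710024)) (c (l 16689488) (b (l 16695840) (l 16727256))))) (c (a (c (l 16774504) (l 16775208)) (c (l 16816568) (l 16818136))) (a (c (l 16755528) (l 16736440)) (c (l 16799232) (l 16801816)))))))), by decide +kernel⟩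

def k14_pp_011 : ∃ t, chk3 f_pp_011 t 6 247 2 = true :=
  ⟨(a (a (a (a (a (c (l 220821037351) (l 16323976)) (c (l 221894808327) (l 16336640))) (a (c (l 222431712055) (l 16350088)) (c (l 222968617591) (l 16364360)))) (a (a (c (l 223505524359) (l 16358544)) (c (l 224042433815) (l 16374632))) (a (c (l 224579345431) (l 16391720)) (c (l 16544744) (l 16409856))))) (a (a (a (c (l 16524552) (l 16429136)) (c (l 16547640) (l 16449648))) (a (c (l 16572152) (l 16471480)) (c (l 16598192) (l 16494712)))) (a (a (a (l 16565928) (l 16579448)) (c (l 16610176) (l 16545832))) (a (c (l 16613480) (l 16573952)) (c (l 16616752) (l 16603944)))))) (a (a (a (a (c (l 16620008) (l 16615152)) (a (l 16619904) (l 16621648))) (a (c (l 16626472) (l 16622752)) (c (l 16629688) (l 16626536)))) (a (a (c (l 16632904) (l 16630336)) (c (l 16636120) (l 16634136))) (a (b (l 16645184) (l 16631200)) (b (l 16648672) (l 16634744))))) (a (a (a (b (a (l 16651408) (l 16657640)) (l 16638440)) (b (l 16673936) (c (l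 16650968) (l 16651632)))) (a (l 16684856) (l 16707224))) (a (c (l 16739456) (l 16741104)) (l 16720120))))), by decide +kernel⟩

def k15_pp_011 : ∃ t, chk3 f_pp_011 t 6 247 3 = true :=
  ⟨(a (c (a (a (a (l 229410722263) (l 232631994711)) (a (b (l 231558311111) (l 16276144)) (b (l 237463924471) (l 16305304)))) (a (a (a (l 16333480) (l 16351328)) (a (l 16370368) (l 16390696))) (a (a (l 16412400) (l 16435576)) (a (l 16460344) (l 16486824))))) (a (a (a (l 16152248) (l 16212816)) (a (l 239074335127) (a (l 16210352) (l 16223496)))) (b (a (a (l 16247416) (l 16280072)) (a (c (l 16345376) (l 16289744)) (c (l 16390240) (l 16331008)))) (a (a (l 16242640) (l 16274696)) (a (l 16311464) (l 16353672)))))) (a (a (a (a (a (l 16552264) (l 16565920)) (a (l 16559096) (l 16573744))) (a (c (l 16577928) (l 16447656)) (c (l 16612736) (l 16477976)))) (c (a (a (l 16628568) (l 16632984)) (a (l 16637432) (l 16641912))) (a (a (l 16510576) (l 16545664)) (a (l 16583472) (l 16624256))))) (a (a (a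 (b (a (l 16651560) (l 16658368)) (l 16640776)) (b (l 16675320) (l 16633504))) (a (l 16687968) (l 16711056))) (c (c (l 16722824) (l 16724368)) (c (l 16726096) (l 16728000)))))), by decide +kernel⟩

def k16_pp_011 : ∃ t, chk3 f_pp_011 t 12 31 1 = true :=
  ⟨(a (b (a (c (b (a (b (c (l 16363952) (l 16292184)) (l 16305536)) (b (c (l 16393632) (l 16318224)) (l 16333944))) (a (l 16372696) (b (l 16311032) (l 16286280)))) (b (a (b (c (l 16219368) (l 16145520)) (l 16172392)) (c (l 16235696) (l 16160232))) (a (l 16154064) (c (l 16209288) (l 16143672))))) (c (b (a (b (c (l 16426392) (l 16347096)) (l 16363088)) (b (c (l 16463160) (l 16379656)) (l 16395880))) (a (l 16327008) (l 16356880))) (c (b (a (l 16260000) (l 16287584)) (l 16350376)) (b (a (l 16180568) (l 16203856)) (l 16174456))))) (a (c (b (a (l 16215728) (l 16245680)) (l 16177920)) (a (l 16114184) (b (l 16150800) (l 16121464)))) (c (b (a (l 16276176) (l 16304408)) (a (l 16220608) (l 16250480))) (b (a (l 16175328) (l 16198144))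 (a (l 16146232) (l 16171856)))))) (b (a (b (c (a (b (c (l 16504520) (l 16416432)) (l 16432856)) (b (c (l 16551184) (l 16458080)) (l 16474656))) (a (c (l 16339880) (l 16230496)) (b (c (l 16363176) (l 16266480)) (l 16300600)))) (c (a (l 16390592) (l 16449688)) (a (l 16248608) (l 16278560)))) (b (a (c (b (c (l 16577264) (l 16505312)) (l 16521968)) (b (c (l 16404720) (l 16302144)) (l 16337440))) (c (b (c (l 16584608) (l 16558976)) (l 16553656)) (b (c (l 16452112) (l 16343064)) (l 16379528)))) (c (a (b (l 16488416) (l 16454440)) (b (l 16523864) (l 16493832))) (a (l 16354624) (c (l 16396120) (l 16305664)))))) (a (c (b (a (l 16333472) (l 16366368)) (a (l 16277504) (l 16305032))) (b (a (l 16221680) (l 16248384)) (c (l 16232720) (l 16177672)))) (c (b (a (l 16403624) (l 16445856)) (a (l 16336216) (l 16371536))) (b (a (l 16278712) (l 16313176)) (c (l 16288504) (l 16228712))))))), by decide +kernel⟩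

def k17_pp_011 : ∃ t, chk3 f_pp_011 t 26 31 1 = true :=
  ⟨(b (a (b (a (c (b (c (l 16591824) (l 16590152)) (l 16561728)) (b (c (l 16506296) (l 16390080)) (l 16427720))) (c (b (a (l 16595840) (l 16599528)) (c (l 16569000) (l 16570656))) (b (a (l 16490880) (l 16521992)) (l 16503992)))) (a (c (b (l 16532432) (l 16502936)) (b (l 16406432) (l 16384792))) (c (b (l 16540824) (l 16511816)) (b (l 16458784) (l 16434112))))) (b (a (c (b (a (l 16603200) (l 16606872)) (a (l 16574832) (l 16578688))) (b (a (l 16555400) (l 16591296)) (c (l 16582184) (l 16484248)))) (c (b (a (l 16610544) (l 16614232)) (a (l 16582528) (l 16586368))) (b (a (l 16613808) (l 16618392)) (a (l 16590112) (l 16594488))))) (a (c (b (l 16549080) (l 16520520)) (b (l 16518976) (l 16490720))) (c (b (c (l 16555216) (l 16559704)) (l 16529096)) (b (l 16569368) (l 16545456)))))) (a (b (a (c (l 16458776) (l 16352416)) (c (l 16468552) (l 16397208))) (c (a (l 16397840) (l 16408784)) (a (l 16308904) (l 16347424)))) (b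 (a (c (b (l 16491776) (l 16462792)) (l 16448488)) (c (b (l 16500784) (l 16472272)) (b (l 16521504) (l 16489936)))) (a (c (l 16419424) (l 16391256)) (c (l 16429792) (l 16441312)))))), by decide +kernel⟩

def k18_pp_011 : ∃ t, chk3 f_pp_011 t 27 31 1 = true :=
  ⟨(a (c (b (b (a (b (a (l 16617928) (b (l 16631208) (l 16614464))) (a (l 16590208) (l 16594064))) (b (a (b (l 16649864) (l 16627272)) (l 16660856)) (a (b (l 16607432) (l 16590776)) (b (l 16626120) (l 16603672))))) (a (b (a (l 16562456) (l 16566456)) (l 16537600)) (b (a (l 16570472) (l 16576560)) (a (l 16542968) (l 16547136))))) (b (a (b (l 16509672) (l 16481584)) (b (l 16518504) (l 16490784))) (a (l 16418968) (b (l 16462888) (l 16434744))))) (b (a (b (b (a (l 16623016) (b (l 16636304) (l 16621256))) (a (l 16598896) (l 16603352))) (b (c (l 16574232) (l 16582064)) (l 16553640))) (b (b (b (l 16667184) (a (l 16634720) (l 16657128))) (a (b (l 16616496) (l 16601376)) (l 16604568))) (b (a (l 16583312) (l 16589640)) (l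 16562000)))) (b (a (b (l 16529320) (l 16504976)) (b (l 16537272) (l 16512544))) (a (l 16469352) (l 16455616))))) (b (a (b (c (b (l 16694216) (l 16648360)) (l 16617424)) (a (b (c (l 16591952) (l 16605096)) (c (l 16553360) (l 16569080))) (b (l 16619592) (c (l 16568840) (l 16584320))))) (c (b (l 16652000) (l 16624512)) (b (l 16640592) (l 16638336)))) (b (a (a (c (l 16511400) (l 16530856)) (b (c (l 16530408) (l 16548184)) (l 16510120))) (a (b (c (l 16545976) (l 16563224)) (c (l 16507664) (l 16526952))) (b (l 16575336) (c (l 16523336) (l 16541808))))) (a (c (b (l 16472400) (l 16444664)) (b (l 16495168) (l 16470008))) (a (b (l 16488008) (l 16461576)) (b (a (l 16490864) (l 16495800)) (l 16465800))))))), by decide +kernel⟩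

def k19_pp_011 : ∃ t, chk3 f_pp_011 t 7 6 1 = true :=
  ⟨(a (b (l 1) (l 3)) (l 1)), by decide +kernel⟩

def k20_pp_011 : ∃ t, chk3 f_pp_011 t 14 14 1 = true :=
  ⟨(l 3), by decide +kernel⟩

def k21_pp_011 : ∃ t, chk3 f_pp_011 t 14 30 1 = true :=
  ⟨(b (l 3) (a (b (l 3) (b (a (c (a (b (a (l 310479272759) (l 16849352)) (l 16795568)) (c (l 16845088) (l 16848128))) (a (b (c (l 315847993671) (l 314774259959)) (c (l 16841512) (l 16844720))) (c (l 322290479687) (c (l 16854200) (l 191293993175))))) (c (a (c (l 16820968) (l 207936899799)) (a (b (a (l 16825712) (l 16842112)) (l 16836432)) (l 16821656))) (c (a (l 206863150711) (a (b (l 189683277959) (l 16848864)) (l 16834376))) (a (a (l 16839376) (l 135459321463)) (a (b (a (l 192904503335) (l 16828512)) (l 16821888)) (l 16807656)))))) (a (c (c (l 16759272) (l 16762552)) (c (l 16766376) (c (l 16790568) (l 16792880)))) (c (a (l 16861120) (b (l 16812784) (l 16837800))) (a (l 16832784) (a (l 16827536) (c (l 16832768) (l 16826024))))))))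 (b (b (l 3) (b (l 3) (b (l 3) (a (l 3) (a (l 3) (a (l 3) (c (l 378124897943) (a (l 385104209847) (l 386177946839))))))))) (c (c (a (a (l 190757004887) (l 197199434759)) (b (a (l 16798752) (l 16789824)) (l 16808144))) (a (b (a (l 16812040) (l 16802912)) (l 16822416)) (b (a (l 16793912) (b (l 16781808) (l 16809440))) (l 16803176)))) (a (c (b (a (l 183240804903) (l 199883787143)) (l 16816440)) (c (a (l 16809384) (l 16790064)) (b (a (l 16820744) (l 16812120)) (l 16829560)))) (b (a (a (a (l 192904457703) (l 195051937335)) (c (l 16786752) (l 16781704))) (a (c (l 16782464) (l 16777520)) (c (l 16778272) (l 16773432)))) (a (l 16799848) (l 16791096)))))))), by decide +kernel⟩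

def k22_pp_011 : ∃ t, chk3 f_pp_011 t 14 31 1 = true :=
  ⟨(b (c (a (a (a (b (l 16694312) (l 16668072)) (b (l 16735144) (l 16710104))) (a (b (l 16795272) (l 16750448)) (a (l 16738456) (l 16778024)))) (a (b (a (a (l 16827008) (l 16833472)) (l 16864200)) (a (l 16805144) (l 16852376))) (a (l 16805288) (l 16793920)))) (b (a (c (a (l 16701152) (l 16780744)) (a (l 16686064) (b (l 16808520) (l 16807944)))) (a (a (c (l 16800368) (a (l 16808896) (l 16815536))) (l 16809112)) (c (l 16797928) (l 16792184)))) (a (a (b (l 16660688) (l 16659776)) (b (c (l 16779440) (l 16765520)) (l 16698384))) (a (a (l 16797376) (b (l 16855368) (l 16851136))) (l 16804952))))) (a (a (b (c (l 16516968) (l 16553376)) (a (b (a (c (l 16500904) (l 16520072)) (l 16531032)) (c (a (l 16462696) (l 16478632)) (a (l 16483480) (l 16498024)))) (b (l 16563728) (l 16519784)))) (c (b (l 16579560) (l 16598888)) (c (l 16525288) (l 16533240)))) (a (a (c (l 16575200) (l 16586896)) (b (c (l 16758624) (l 16770544)) (l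 16597616))) (b (a (c (l 16805976) (l 16795888)) (l 16817032)) (a (l 16613160) (c (l 16740608) (l 16726280))))))), by decide +kernel⟩

def k23_pp_011 : ∃ t, chk3 f_pp_011 t 15 14 1 = true :=
  ⟨(l 3), by decide +kernel⟩

def k24_pp_011 : ∃ t, chk3 f_pp_011 t 15 30 1 = true :=
  ⟨(b (l 3) (a (b (b (l 3) (b (l 3) (b (l 3) (b (a (l 3) (l 3)) (a (c (a (c (a (l 16797072) (l 16793352)) (c (l 414095279895) (l 16768544))) (c (a (l 16789864) (l 16786592)) (a (l 416242749591) (l 416779614391)))) (a (c (a (l 16766912) (l 381882964663)) (a (l 388325422887) (l 388862284071))) (c (c (l 384030439959) (c (l 16758024) (l 16758248))) (a (c (l 16756744) (l 388862272615)) (c (l 418927079623) (l 389399135687)))))) (a (a (c (c (l 418390233079) (l 417853350583)) (c (c (l 16776384) (l 16774344)) (c (l 404968431207) (l 381346065127)))) (c (c (a (l 16781320) (l 16779912)) (c (l 16777720) (l 16775792))) (c (c (l 16773864) (l 267529477271)) (c (a (l 16770568) (l 16769496)) (a (l 16768616) (l 16767624))))))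 (a (a (c (l 1189202626087) (c (l 1196718805527) (l 1206919345879))) (l 1)) (l 1)))))))) (c (a (b (a (c (l 16781432) (b (l 16779016) (l 16801112))) (a (a (l 16774480) (l 16772712)) (a (l 16771000) (l 16769336)))) (c (l 16790000) (l 16785880))) (b (a (c (a (l 16789840) (l 16765712)) (a (l 16765024) (l 16762136))) (a (c (l 69826744967) (l 62847422807)) (l 1103840120007))) (a (l 16776776) (l 16770312)))) (a (b (a (a (c (l 16774264) (l 16769552)) (c (l 16770560) (l 16766000))) (a (c (l 16767144) (l 16762776)) (c (l 16764024) (l 16770360)))) (a (l 16783008) (l 16776072))) (a (b (b (a (c (l 16758160) (l 16759432)) (c (l 16755616) (a (l 16773424) (l 16772368)))) (c (l 16762832) (l 16759208))) (l 16765040)) (a (b (a (c (l 16756760) (l 16758696)) (l 725882996903)) (l 16787568)) (b (l 708703116375) (l 16764472))))))) (a (a (b (l 1) (c (l 837552183575) (l 787623181879))) (l 1)) (l 1)))), by decide +kernel⟩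

def k25_pp_011 : ∃ t, chk3 f_pp_011 t 15 31 1 = true :=
  ⟨(a (c (b (a (a (l 16783112) (l 16773224)) (b (a (l 16794184) (l 16786576)) (l 16834432))) (a (l 16788080) (l 16780488))) (b (b (a (a (l 16803104) (l 16795712)) (a (l 16789416) (l 16784096))) (a (l 16827056) (l 16813008))) (a (l 16769312) (l 16774744)))) (b (a (a (b (c (l 16779456) (l 16758752)) (l 16781392)) (c (l 480532944327) (l 442951989079))) (c (l 712997979303) (l 623340574007))) (a (c (l 16770600) (c (l 16759736) (l 16751920))) (c (l 16759424) (c (l 16741128) (l 16727776)))))), by decide +kernel⟩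

theorem s26_pp_011 : ∃ t, chk3 f_pp_011 t 15 15 1 = true := ex3_b k24_pp_011 k25_pp_011

theorem s27_pp_011 : ∃ t, chk3 f_pp_011 t 15 7 1 = true := ex3_b k23_pp_011 s26_pp_011

theorem s28_pp_011 : ∃ t, chk3 f_pp_011 t 14 15 1 = true := ex3_b k21_pp_011 k22_pp_011

theorem s29_pp_011 : ∃ t, chk3 f_pp_011 t 14 7 1 = true := ex3_b k20_pp_011 s28_pp_011

theorem s30_pp_011 : ∃ t, chk3 f_pp_011 t 7 7 1 = true := ex3_a s29_pp_011 s27_pp_011

theorem s31_pp_011 : ∃ t, chk3 f_pp_011 t 7 3 1 = true := ex3_b k19_pp_011 s30_pp_011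

theorem s32_pp_011 : ∃ t, chk3 f_pp_011 t 13 31 1 = true := ex3_a k17_pp_011 k18_pp_011

theorem s33_pp_011 : ∃ t, chk3 f_pp_011 t 6 31 1 = true := ex3_a k16_pp_011 s32_pp_011

theorem s34_pp_011 : ∃ t, chk3 f_pp_011 t 6 247 1 = true := ex3_c k14_pp_011 k15_pp_011

theorem s35_pp_011 : ∃ t, chk3 f_pp_011 t 6 123 1 = true := ex3_b k13_pp_011 s34_pp_011

theorem s36_pp_011 : ∃ t, chk3 f_pp_011 t 6 61 1 = true := ex3_b k12_pp_011 s35_pp_011

theorem s37_pp_011 : ∃ t, chk3 f_pp_011 t 6 30 1 = true := ex3_b k11_pp_011 s36_pp_011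

theorem s38_pp_011 : ∃ t, chk3 f_pp_011 t 6 15 1 = true := ex3_b s37_pp_011 s33_pp_011

theorem s39_pp_011 : ∃ t, chk3 f_pp_011 t 6 7 1 = true := ex3_b k10_pp_011 s38_pp_011

theorem s40_pp_011 : ∃ t, chk3 f_pp_011 t 6 3 1 = true := ex3_b k9_pp_011 s39_pp_011

theorem s41_pp_011 : ∃ t, chk3 f_pp_011 t 3 3 1 = true := ex3_a s40_pp_011 s31_pp_011

theorem s42_pp_011 : ∃ t, chk3 f_pp_011 t 3 1 1 = true := ex3_b k8_pp_011 s41_pp_011

theorem s43_pp_011 : ∃ t, chk3 f_pp_011 t 5 15 1 = true := ex3_b k6_pp_011 k7_pp_011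

theorem s44_pp_011 : ∃ t, chk3 f_pp_011 t 4 31 1 = true := ex3_b k4_pp_011 k5_pp_011

theorem s45_pp_011 : ∃ t, chk3 f_pp_011 t 4 15 1 = true := ex3_b k3_pp_011 s44_pp_011

theorem s46_pp_011 : ∃ t, chk3 f_pp_011 t 2 15 1 = true := ex3_a s45_pp_011 s43_pp_011

theorem s47_pp_011 : ∃ t, chk3 f_pp_011 t 2 7 1 = true := ex3_b k2_pp_011 s46_pp_011

theorem s48_pp_011 : ∃ t, chk3 f_pp_011 t 2 3 1 = true := ex3_b k1_pp_011 s47_pp_011

theorem s49_pp_011 : ∃ t, chk3 f_pp_011 t 2 1 1 = true := ex3_b k0_pp_011 s48_pp_011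

theorem s50_pp_011 : ∃ t, chk3 f_pp_011 t 1 1 1 = true := ex3_a s49_pp_011 s42_pp_011

theorem c_pp_011 : CertB 0 536870912 536870912 536870912 858993459 64424510 3 eng mog cd2q0 cd0q1 pd1 false true true .pnn 0 1 1
    ndB2q0 ndB0q1 pcB1 Cut.none Ext.none :=
  certB2 (fam := false) (s1 := true) (s2 := true) (a := 0) (b := 1) (c := 1) (cn := .pnn) (n1 := ndB2q0) (n2 := ndB0q1) (pc := pcB1) (cut := Cut.none) (xt := Ext.none) (P1 := 0) (W1 := 536870912) (P2 := 536870912) (W2 := 536870912) (P3 := 858993459) (W3 := 64424510) (N0 := 3) (En := eng) (mo := mog) (C1 := cd2q0) (C2 := cd0q1) (C3 := pd1)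
    rfl (fun _ => rfl) s50_pp_011

noncomputable def f_pp_012 : ℕ → ℕ → ℕ → ℕ → Bool := onCell 0 536870912 0 536870912 858993459 64424510
    (rowB 3 eng mog cd2q0 cd0q2 pd1 0 false true true .pnp 0 1 2 (qsf 0 536870912 0 536870912 1) ndB2q0 ndB0q2 pcB1 Cut.none Ext.none)

def k0_pp_012 : ∃ t, chk3 f_pp_012 t 2 2 1 = true :=
  ⟨(a (b (l 2) (a (l 2) (a (l 2) (a (l 2) (a (l 2) (b (l 2) (l 16171168))))))) (a (a (b (a (l 2) (b (l 15826208) (l 15926952))) (a (b (l 16022880) (c (l 16211696) (l 16124216))) (b (l 16041064) (l 16292584)))) (a (b (b (l 15823672) (l 15925016)) (b (l 16039672) (l 16165880))) (b (b (l 15822008) (l 15923960)) (b (l 16039120) (l 16165744))))) (b (a (b (l 15821832) (l 16176328)) (b (l 15789496) (a (l 15908944) (l 15876880)))) (a (b (a (l 16039040) (l 16039136)) (c (l 16172024) (l 16165096))) (b (a (l 16025216) (l 15993048)) (a (l 16152144) (l 16119224))))))), by decide +kernel⟩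

def k1_pp_012 : ∃ t, chk3 f_pp_012 t 4 6 1 = true :=
  ⟨(a (l 2) (a (b (l 2) (b (a (l 2) (c (l 16560392) (l 16474560))) (a (l 16344704) (c (l 16568776) (l 16510000))))) (b (a (b (l 16337816) (l 16390744)) (a (l 16249120) (a (l 16312856) (l 16308816)))) (a (b (l 16441768) (l 16486088)) (b (a (l 16421608) (l 16400240)) (a (l 16445776) (l 16424648))))))), by decide +kernel⟩

def k2_pp_012 : ∃ t, chk3 f_pp_012 t 4 7 1 = true :=
  ⟨(a (b (a (l 2) (b (a (l 2) (c (l 16677528) (l 16547112))) (a (b (l 2) (a (l 16668736) (l 16673520))) (b (l 16665720) (l 16680800))))) (a (a (b (l 2) (b (a (l 2) (c (l 16711552) (l 16628032))) (b (c (l 16696008) (l 16616536)) (a (a (l 16658696) (l 16663080)) (l 16667408))))) (b (c (b (l 16700264) (l 16707400)) (b (l 16540840) (a (l 16660808) (l 16671640)))) (b (a (b (l 16653264) (l 16682104)) (l 16622640)) (c (l 16684560) (b (l 16698072) (l 16708528)))))) (b (b (a (c (l 16702904) (l 16666248)) (l 16696504)) (a (c (l 16712800) (l 16687592)) (l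 16648736))) (c (b (l 16762296) (a (l 16733152) (l 16738024))) (b (a (l 16701856) (l 16717904)) (a (l 16700680) (l 16716520))))))) (a (b (b (a (c (l 16644000) (l 16553952)) (l 16441368)) (a (c (l 16662304) (l 16598240)) (c (l 16603776) (l 16593560)))) (b (a (c (l 16676352) (b (l 16671904) (l 16676360))) (c (l 16534288) (b (l 16609904) (l 16609608)))) (a (c (b (l 16687216) (l 16641032)) (b (l 16693216) (l 16627120))) (c (b (l 16611312) (l 16586032)) (b (l 16624056) (l 16576640)))))) (b (a (b (l 16513752) (c (l 16541488) (l 16543144))) (b (c (l 16318264) (l 16378192)) (a (l 16495312) (c (l 16461760) (l 16477504))))) (a (b (b (l 16501256) (a (l 16546544) (l 16506520))) (c (b (l 16529064) (c (l 16542448) (l 16549152))) (b (l 16548816) (l 16478448)))) (b (a (b (l 16461456) (l 16465384)) (c (l 16414792) (l 16443768))) (b (a (l 16391600) (c (l 16426432) (l 16456104))) (a (c (l 16479888) (l 16501224)) (c (b (l 16416528) (l 16446544)) (l 16445744))))))))), by decide +kernel⟩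

def k3_pp_012 : ∃ t, chk3 f_pp_012 t 5 6 1 = true :=
  ⟨(a (a (b (a (c (l 16336448) (l 16281056)) (c (l 16324816) (l 16290024))) (a (b (l 16483304) (l 16298376)) (b (l 16461600) (l 16360344)))) (b (a (c (l 16313896) (l 16300480)) (c (l 16303184) (l 16311808))) (b (a (l 16398688) (l 16398848)) (a (l 16359456) (l 16316232))))) (b (a (c (a (l 16292296) (l 16280984)) (l 16079216)) (c (a (l 16258016) (l 16220360)) (a (l 16328152) (l 16296032)))) (a (c (b (l 16319584) (l 16211064)) (b (l 16401112) (l 16422104))) (c (b (l 16099576) (a (l 16345288) (l 16305200))) (a (l 16194832) (l 16221024)))))), by decide +kernel⟩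

def k4_pp_012 : ∃ t, chk3 f_pp_012 t 5 7 1 = true :=
  ⟨(a (b (a (b (a (c (l 16443624) (l 16434808)) (a (l 16423528) (l 16442544))) (a (a (l 16292824) (l 16263968)) (a (l 16275512) (l 16243264)))) (b (a (c (l 16419792) (l 16462728)) (c (l 16406048) (l 16462576))) (a (c (l 16382648) (l 16407952)) (c (l 16379096) (l 16398832))))) (a (c (b (a (b (l 16396848) (l 16400320)) (b (l 16371896) (l 16377008))) (a (b (a (l 16414048) (l 16403424)) (a (l 16429872) (l 16419688))) (b (l 16388480) (a (l 16409392) (l 16398880))))) (b (a (b (l 16432432) (l 16438808)) (b (l 16421568) (l 16427904))) (a (b (l 16405424) (a (l 16458040) (l 16451632))) (b (l 16435672) (a (l 16445376) (l 16439216)))))) (b (a (c (b (l 16346240) (l 16352648)) (l 16394096)) (c (l 16322368) (l 16398552))) (a (c (b (l 16365312) (a (l 16388104) (l 16377008))) (b (l 16422936) (c (l 16418144) (l 16372616)))) (c (b (l 16340856) (a (l 16365560) (l 16353720))) (b (l 16362152) (l 16325736))))))) (b (a (c (b (a (l 16391088)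 (l 16375328)) (a (l 16355640) (l 16334688))) (b (l 16284552) (a (l 16391152) (l 16384392)))) (c (b (a (l 16348648) (l 16309360)) (a (l 16311672) (l 16283288))) (b (l 16245328) (a (l 16354248) (l 16306576))))) (a (b (c (a (l 16294488) (l 16264856)) (a (l 16364632) (l 16333728))) (c (a (b (l 16314736) (c (l 16320824) (l 16312272))) (b (l 16273344) (l 16267440))) (a (b (l 16312056) (l 16266920)) (b (l 16270616) (l 16219976))))) (b (c (a (l 16229024) (l 16184048)) (a (l 16292416) (l 16243872))) (c (a (b (l 16227088) (c (l 16216104) (l 16210048))) (b (l 16177792) (l 16162864))) (a (b (l 16224672) (l 16192736)) (b (l 16176952) (l 16125072)))))))), by decide +kernel⟩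

def k5_pp_012 : ∃ t, chk3 f_pp_012 t 3 2 2 = true :=
  ⟨(a (b (a (b (l 15747824) (l 15838064)) (b (l 15656768) (l 15740024))) (a (b (l 15975152) (a (l 16062768) (l 15999744))) (b (l 15827080) (a (l 15941728) (l 15890136))))) (b (a (b (l 15590144) (l 15666560)) (b (l 15553784) (l 15624048))) (a (b (l 15746416) (a (l 15846040) (l 15810248))) (b (l 15697992) (c (l 15774472) (l 15773536)))))), by decide +kernel⟩

def k6_pp_012 : ∃ t, chk3 f_pp_012 t 6 3 2 = true :=
  ⟨(b (b (a (c (l 16300760) (l 16148840)) (a (l 16094864) (l 16080800))) (a (b (a (l 16209744) (l 16242208)) (a (l 16227056) (l 16157384))) (b (a (l 16281944) (c (l 16002704) (l 16071776))) (a (c (l 16088592) (l 16146632)) (c (l 16033280) (l 16095664)))))) (b (a (a (b (l 16255056) (c (l 16231552) (l 16251496))) (b (l 16085920) (c (l 16180160) (l 16204624)))) (a (b (c (l 16114008) (l 16157472)) (c (l 16135016) (l 16161304))) (b (c (l 16065728) (l 16111176)) (c (l 16095960) (l 16122976))))) (a (b (a (c (l 16175736)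 (l 16161808)) (c (l 16163048) (l 16163848))) (b (a (c (l 16120712) (l 16135944)) (l 16249904)) (a (a (l 16126400) (l 16102688)) (a (l 16089248) (l 16084144))))) (b (a (c (l 16120136) (l 16148672)) (a (l 16127104) (l 16093976))) (a (b (l 16163376) (c (l 16088952) (l 16089440))) (b (l 16140384) (c (l 16113608) (l 16108360)))))))), by decide +kernel⟩

def k7_pp_012 : ∃ t, chk3 f_pp_012 t 7 3 2 = true :=
  ⟨(c (b (b (a (l 16013152) (l 15955552)) (a (b (a (l 15952696) (l 15911984)) (a (l 15986008) (l 15946632))) (b (a (l 15880848) (l 15860416)) (a (l 15915168) (l 16061592))))) (a (b (b (a (l 16024248) (l 15990224)) (a (l 16061768) (l 16033816))) (b (a (b (l 16086520) (l 16100208)) (b (l 16065200) (l 16084944))) (a (l 16115592) (b (l 16103448) (l 16161984))))) (b (b (a (l 15964312) (l 15947672)) (a (l 16014328) (l 16066776))) (b (a (b (l 16051784) (l 16076480)) (b (l 16047064) (l 16076296))) (a (b (l 16100872) (l 16187456)) (b (l 16105872) (a (l 16132064) (l 16139560))))))))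 (b (b (a (l 16014384) (l 15955992)) (a (b (a (l 16025272) (l 15987216)) (a (l 16053312) (l 16019544))) (b (l 16135672) (a (l 15993712) (l 15977584))))) (a (b (b (a (l 16072496) (l 16041944)) (a (l 16089992) (l 16063880))) (b (a (b (l 16099832) (l 16104264)) (l 16167568)) (a (l 16087024) (b (l 16096856) (l 16126016))))) (b (b (a (l 16020088) (l 16007712)) (a (l 16046392) (l 16038200))) (a (b (l 16177400) (b (l 16092224) (l 16147696))) (b (l 16238064) (b (l 16095808) (l 16197912)))))))), by decide +kernel⟩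

def k8_pp_012 : ∃ t, chk3 f_pp_012 t 3 2 3 = true :=
  ⟨(a (b (a (b (l 15642840) (l 15783448)) (b (l 15511600) (l 15639584))) (a (b (l 15878624) (a (l 16082352) (l 16021384))) (b (l 16012912) (a (l 15963768) (l 15911048))))) (b (a (b (l 15401152) (l 15537296)) (b (l 15318976) (l 15463232))) (a (b (l 15895336) (a (l 15864480) (l 15824992))) (b (l 15806328) (a (l 15793272) (l 15769800)))))), by decide +kernel⟩

def k9_pp_012 : ∃ t, chk3 f_pp_012 t 3 3 3 = true :=
  ⟨(a (b (b (a (a (l 16247688) (l 16185008)) (a (l 16126480) (l 16073960))) (a (b (a (l 16354536) (l 16291032)) (a (l 16356424) (l 16292392))) (b (a (l 16234744) (l 16186496)) (a (l 16239216) (l 16196192))))) (b (a (a (b (l 16325704) (l 16253560)) (b (l 16270672) (l 16225376))) (a (b (l 16223608) (l 16198512)) (b (l 16183880) (l 16083328)))) (a (b (a (c (l 16188904) (l 16193072)) (c (l 16156904) (l 16161376))) (b (a (a (l 16143648) (l 16122376)) (l 16108960)) (a (a (l 16094160) (l 16076216)) (a (l 16069000)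 (l 16070640))))) (b (a (c (l 16155928) (l 16159432)) (c (l 16136680) (l 16149648))) (a (b (l 16117784) (l 16254168)) (b (l 16119480) (l 16165048))))))) (b (c (b (a (l 15980856) (l 16110680)) (a (b (l 15959920) (l 15921776)) (b (l 16031968) (a (l 16079344) (l 16069168))))) (b (a (l 16037776) (a (l 15990736) (l 15969184))) (a (b (l 16169312) (l 16186096)) (b (l 16122104) (l 15973832))))) (b (a (b (a (l 16152064) (l 16128776)) (a (c (l 16122064) (l 16156256)) (b (l 16120512) (l 16114248)))) (c (b (l 15951392) (a (l 16083816) (l 16078376))) (b (l 16145832) (a (l 16125848) (l 16102848))))) (a (b (a (c (l 16093320) (l 16129328)) (c (l 16158760) (l 16111688))) (a (c (l 16080808) (l 16096992)) (b (l 15943832) (a (l 16168296) (l 16184624))))) (b (a (c (l 16147688) (l 16079952)) (c (l 16166768) (b (l 16105592) (l 16093008)))) (a (c (b (l 16085288) (l 16107200)) (b (l 16080112) (l 16170824))) (c (b (l 16087272) (l 16175344)) (b (l 16080296) (a (l 16066264) (l 16070096)))))))))),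 by decide +kernel⟩

theorem s10_pp_012 : ∃ t, chk3 f_pp_012 t 3 1 3 = true := ex3_b k8_pp_012 k9_pp_012

theorem s11_pp_012 : ∃ t, chk3 f_pp_012 t 3 3 2 = true := ex3_a k6_pp_012 k7_pp_012

theorem s12_pp_012 : ∃ t, chk3 f_pp_012 t 3 1 2 = true := ex3_b k5_pp_012 s11_pp_012

theorem s13_pp_012 : ∃ t, chk3 f_pp_012 t 3 1 1 = true := ex3_c s12_pp_012 s10_pp_012

theorem s14_pp_012 : ∃ t, chk3 f_pp_012 t 5 3 1 = true := ex3_b k3_pp_012 k4_pp_012

theorem s15_pp_012 : ∃ t, chk3 f_pp_012 t 4 3 1 = true := ex3_b k1_pp_012 k2_pp_012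

theorem s16_pp_012 : ∃ t, chk3 f_pp_012 t 2 3 1 = true := ex3_a s15_pp_012 s14_pp_012

theorem s17_pp_012 : ∃ t, chk3 f_pp_012 t 2 1 1 = true := ex3_b k0_pp_012 s16_pp_012

theorem s18_pp_012 : ∃ t, chk3 f_pp_012 t 1 1 1 = true := ex3_a s17_pp_012 s13_pp_012

theorem c_pp_012 : CertB 0 536870912 0 536870912 858993459 64424510 3 eng mog cd2q0 cd0q2 pd1 false true true .pnp 0 1 2
    ndB2q0 ndB0q2 pcB1 Cut.none Ext.none :=
  certB0 (fam := false) (s1 := true) (s2 := true) (a := 0) (b := 1) (c := 2) (cn := .pnp) (n1 := ndB2q0) (n2 := ndB0q2) (pc := pcB1) (cut := Cut.none) (xt := Ext.none) (P1 := 0) (W1 := 536870912) (P2 := 0) (W2 := 536870912) (P3 := 858993459) (W3 := 64424510) (N0 := 3) (En := eng) (mo := mog) (C1 := cd2q0) (C2 := cd0q2) (C3 := pd1)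
    rfl s18_pp_012

noncomputable def f_pp_022 : ℕ → ℕ → ℕ → ℕ → Bool := onCell 1073741824 536870912 0 536870912 858993459 64424510
    (rowB 3 eng mog cd2q0 cd0q2 pd2 2 false true true .pp 0 2 2 (qsf 0 536870912 0 536870912 2) ndB2q0 ndB0q2 pcB2 Cut.none Ext.none)

def k0_pp_022 : ∃ t, chk3 f_pp_022 t 2 2 1 = true :=
  ⟨(a (b (b (a (a (a (a (l 15940512) (l 15975240)) (b (l 16001488) (l 16241648))) (a (a (b (l 16054776) (l 16105024)) (l 16132496)) (l 16210144))) (a (c (l 16336840) (l 16366904)) (l 16461760))) (a (a (a (b (l 16215400) (a (l 16096704) (l 16125816))) (b (a (l 16092464) (l 16122552)) (a (l 16154368) (l 16311416)))) (a (b (a (l 16163600) (l 16213408)) (l 16254120)) (l 16148952))) (a (a (l 16403176) (l 16390104)) (c (l 16476984) (l 16424280))))) (a (b (a (a (b (a (l 16166168) (l 16193040)) (a (l 16364680) (b (l 16244480) (l 16280224)))) (b (a (b (l 16201528) (l 16235872)) (b (l 16236952) (l 16275280))) (a (b (l 16273360) (l 16293848)) (l 16338216)))) (c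 (a (l 16274312) (l 16433032)) (a (l 16375848) (l 16469208)))) (a (a (b (a (b (l 16294656) (l 16396336)) (b (l 16299296) (a (l 16353944) (l 16374824)))) (a (b (a (l 16368208) (l 16362840)) (a (l 16416376) (l 16412016))) (b (l 16413648) (l 16437824)))) (b (l 16238616) (a (l 16376440) (l 16452960)))) (a (b (b (l 16467144) (l 16447656)) (l 16459528)) (b (l 16350408) (l 16529384))))) (a (b (a (b (l 16491200) (l 16477096)) (b (l 16482520) (l 16461592))) (b (a (c (l 16519944) (l 16464616)) (l 16458048)) (c (l 16512176) (l 16386888)))) (b (b (l 16427960) (a (l 16428600) (l 16399760))) (c (a (l 16467984) (l 16439128)) (a (l 16389568) (l 16351816))))))) (a (a (b (b (a (l 16429056) (l 16393720)) (a (l 16400384) (l 16326176))) (b (a (b (l 16378400) (l 111701802359)) (c (l 617971174727) (l 666288990151))) (a (c (l 16370528) (l 16312696)) (l 1)))) (b (b (l 1) (l 1)) (l 1))) (l 1))), by decide +kernel⟩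

def k1_pp_022 : ∃ t, chk3 f_pp_022 t 2 3 1 = true :=
  ⟨(a (b (a (b (a (a (b (c (l 16438808) (l 16444376)) (c (l 16471936) (l 16475400))) (b (c (l 16500312) (l 16523744)) (l 16400416))) (a (b (l 16514808) (l 16439728)) (b (l 16489392) (l 16568192)))) (a (b (a (c (l 16511616) (l 16491336)) (a (l 16528112) (l 16600392))) (a (a (l 16514160) (b (l 16564544) (l 16581232))) (a (l 16596952) (l 16611952)))) (b (a (l 16540704) (l 16570792)) (a (l 16629480) (l 16575792))))) (b (a (a (c (l 16547816) (l 16450792)) (c (l 16515104) (l 16406416))) (a (c (l 109017619879) (a (l 16412760) (l 16387992))) (c (l 295848721575) (l 240550913527)))) (a (b (a (l 16443312) (c (l 16531296) (l 16467912))) (a (c (l 16590576) (l 16522296)) (c (l 16543496) (l 16482496)))) (b (a (c (l 16444912) (l 16410072)) (l 1)) (l 1))))) (a (b (a (a (b (a (b (l 16543824) (l 16569776)) (l 16585008)) (a (l 16627176) (l 16559216))) (b (l 16563656) (c (l 16603088) (l 16605784)))) (a (b (l 16633536) (c (l 16628888)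 (l 16645256))) (b (l 16562096) (c (l 16655024) (l 16662448))))) (a (a (b (b (l 16522344) (a (l 16547704) (l 16566240))) (b (b (a (l 16542256) (l 16569320)) (c (l 16560256) (l 16554352))) (a (l 16557128) (l 16588640)))) (b (b (l 16578736) (a (l 16566312) (l 16611848))) (a (b (l 16586472) (l 1)) (l 1)))) (b (a (b (a (l 16626392) (l 1)) (l 1)) (l 1)) (l 1)))) (a (b (b (a (c (l 16611216) (l 16565816)) (l 1)) (l 1)) (l 1)) (l 1)))) (b (l 1) (l 1))), by decide +kernel⟩

def k2_pp_022 : ∃ t, chk3 f_pp_022 t 3 1 1 = true :=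
  ⟨(l 1), by decide +kernel⟩

theorem s3_pp_022 : ∃ t, chk3 f_pp_022 t 2 1 1 = true := ex3_b k0_pp_022 k1_pp_022

theorem s4_pp_022 : ∃ t, chk3 f_pp_022 t 1 1 1 = true := ex3_a s3_pp_022 k2_pp_022

theorem c_pp_022 : CertB 0 536870912 0 536870912 858993459 64424510 3 eng mog cd2q0 cd0q2 pd2 false true true .pp 0 2 2
    ndB2q0 ndB0q2 pcB2 Cut.none Ext.none :=
  certB2 (fam := false) (s1 := true) (s2 := true) (a := 0) (b := 2) (c := 2) (cn := .pp) (n1 := ndB2q0) (n2 := ndB0q2) (pc := pcB2) (cut := Cut.none) (xt := Ext.none) (P1 := 0) (W1 := 536870912) (P2 := 0) (W2 := 536870912) (P3 := 858993459) (W3 := 64424510) (N0 := 3) (En := eng) (mo := mog) (C1 := cd2q0) (C2 := cd0q2) (C3 := pd2)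
    rfl (fun _ => rfl) s4_pp_022

noncomputable def cut_pp_101 : Cut := Cut.of [[⟨0, 1, 0, 67108864⟩, ⟨1, 0, 0, 67108864⟩, ⟨2, 1, 0, 67108864⟩]]

noncomputable def f_pp_101 : ℕ → ℕ → ℕ → ℕ → Bool := onCell 0 536870912 536870912 536870912 858993459 64424510
    (rowB 3 eng mog cd2q1 cd0q1 pd0 2 false true true .npn 1 0 1 (qsf 536870912 536870912 536870912 536870912 0) ndB2q1 ndB0q1 pcB0 cut_pp_101 Ext.none)

def k0_pp_101 : ∃ t, chk3 f_pp_101 t 2 1 1 = true :=
  ⟨(b (l 3) (b (l 3) (b (l 3) (b (l 3) (b (a (l 3) (l 3)) (a (b (l 3) (a (a (l 6) (a (l 6) (b (l 3) (a (l 6) (c (c (b (l 265381814311) (l 16698888)) (l 268066180951)) (c (l 258939390743) (l 260013103207))))))) (a (a (b (a (l 3) (c (l 372755959815) (l 1047602692119))) (a (c (c (l 274508589751) (l 16681800)) (b (l 246591305703) (l 16677872))) (c (b (l 16647472) (l 16664376)) (l 16660272)))) (b (a (c (l 221895203255) (l 261086787463)) (c (l 261086752679) (l 257328674039))) (a (c (b (l 16658984) (l 16675992)) (l 16662552))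 (c (l 16626552) (l 16654608))))) (c (a (b (a (l 258939247015) (l 257865483063)) (a (l 16616976) (l 16628240))) (c (b (l 256791709031) (l 16627464)) (b (l 16663648) (l 16620608)))) (a (b (a (l 254107432087) (l 16624456)) (l 16622256)) (a (l 245517452423) (l 242833081879))))))) (c (a (a (a (b (l 3) (c (l 16641960) (l 253033586999))) (b (l 549386302823) (b (l 249812285735) (l 16573248)))) (b (a (l 239074856023) (l 222431820231)) (c (a (l 16571448) (l 16552744)) (a (l 16586520) (l 16568176))))) (b (a (a (l 247127817191) (l 245517160455)) (a (l 243369636007) (l 242295853687))) (a (a (c (l 16533960) (l 16549920)) (l 16460168)) (b (l 16436416) (l 16450376))))) (b (a (a (a (l 3) (l 895131200791)) (a (l 265381588983) (l 244443591463))) (a (a (l 240685456823) (l 236390451463)) (l 231558527943))) (a (a (a (b (l 16601248) (l 16636744)) (l 16573880)) (a (l 16590760) (l 16595768))) (a (c (l 16559760) (l 16561400)) (l 16537344))))))))))), by decide +kernel⟩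

def k1_pp_101 : ∃ t, chk3 f_pp_101 t 3 1 1 = true :=
  ⟨(b (l 3) (b (l 3) (b (l 3) (b (l 3) (c (a (a (b (l 3) (a (b (a (l 16399680) (l 16487544)) (l 16377224)) (c (l 16489232) (l 235316412247)))) (b (b (l 3) (a (l 625621477495) (l 187535024359))) (a (b (l 16306104) (l 16397560)) (c (l 16367576) (l 16341784))))) (a (b (b (l 3) (a (l 186461225351) (l 16374544))) (a (c (l 16340624) (l 16354664)) (l 16319504))) (a (b (b (l 3) (l 16308792)) (l 16291224)) (b (b (l 199882805943) (l 16278064)) (l 16261384))))) (a (a (b (l 3) (a (b (l 226726619719) (l 16504752)) (b (l 16483136) (l 16472488)))) (b (a (l 705615360247) (l 219747121783)) (a (l 225115829639) (l 16409080)))) (a (b (a (l 216525835815) (l 191829827767)) (a (l 16374936) (l 16341424))) (b (a (l 182703006887) (l 211693959383)) (a (l 16308288) (l 16274600)))))))))), by decide +kernel⟩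

theorem s2_pp_101 : ∃ t, chk3 f_pp_101 t 1 1 1 = true := ex3_a k0_pp_101 k1_pp_101

theorem c_pp_101 : CertB 536870912 536870912 536870912 536870912 858993459 64424510 3 eng mog cd2q1 cd0q1 pd0 false true true .npn 1 0 1
    ndB2q1 ndB0q1 pcB0 cut_pp_101 Ext.none :=
  certB2 (fam := false) (s1 := true) (s2 := true) (a := 1) (b := 0) (c := 1) (cn := .npn) (n1 := ndB2q1) (n2 := ndB0q1) (pc := pcB0) (cut := cut_pp_101) (xt := Ext.none) (P1 := 536870912) (W1 := 536870912) (P2 := 536870912) (W2 := 536870912) (P3 := 858993459) (W3 := 64424510) (N0 := 3) (En := eng) (mo := mog) (C1 := cd2q1) (C2 := cd0q1) (C3 := pd0)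
    rfl (fun _ => rfl) s2_pp_101

noncomputable def cut_pp_102 : Cut := Cut.of [[⟨0, 1, 0, 67108864⟩, ⟨1, 0, 0, 67108864⟩, ⟨2, 1, 0, 67108864⟩]]

noncomputable def f_pp_102 : ℕ → ℕ → ℕ → ℕ → Bool := onCell 0 536870912 0 536870912 858993459 64424510
    (rowB 3 eng mog cd2q1 cd0q2 pd0 2 false true true .npp 1 0 2 (qsf 536870912 536870912 0 536870912 0) ndB2q1 ndB0q2 pcB0 cut_pp_102 Ext.none)

def k0_pp_102 : ∃ t, chk3 f_pp_102 t 2 2 1 = true :=
  ⟨(a (b (l 2) (a (l 2) (a (l 2) (a (l 2) (b (l 2) (a (l 2) (c (l 15576152) (l 15469648)))))))) (a (b (a (a (l 2) (b (l 53784708615) (l 15160480))) (b (b (l 14979288) (c (l 15150976) (l 14930408))) (a (l 15165864) (l 15192912)))) (a (c (a (b (l 15383760) (l 15681800)) (b (l 15412520) (l 15755096))) (a (b (l 15241336) (l 15658280)) (b (l 15267856) (b (l 15451984) (l 15585616))))) (b (a (l 15537512) (l 15420344)) (a (b (l 15541152) (l 15722648)) (b (l 15573312) (l 15683640)))))) (b (a (b (b (l 15026808) (l 15091072)) (a (l 15220704)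 (l 15249240))) (b (b (l 15068152) (l 15141840)) (a (l 15272536) (l 15286888)))) (a (b (a (l 15429840) (l 15461056)) (b (a (l 15603664) (l 15629184)) (l 15721384))) (b (b (l 15660688) (a (l 15537368) (l 15540992))) (a (l 15687368) (l 15687904))))))), by decide +kernel⟩

def k1_pp_102 : ∃ t, chk3 f_pp_102 t 4 3 1 = true :=
  ⟨(b (a (l 2) (a (b (l 2) (b (a (l 2) (l 16013720)) (a (b (l 16133760) (l 16192232)) (l 16219088)))) (a (b (b (b (l 2) (l 15771088)) (a (l 15867808) (l 15856216))) (b (l 15985576) (l 16113544))) (b (b (a (l 15845816) (b (l 15681784) (l 15741112))) (a (l 15842280) (l 15834608))) (b (a (l 15968480) (l 15962656)) (a (l 16100768) (l 16096736))))))) (b (b (a (a (l 2) (a (l 2) (b (l 2) (l 16322496)))) (a (a (b (l 16251976) (l 16312648)) (l 16345784)) (a (l 16267616) (a (l 16238112) (l 16235800))))) (a (a (l 2) (a (l 6) (b (l 16446216) (l 16425192)))) (a (a (b (l 16374520) (l 16417368)) (c (l 16413544) (l 16372128))) (a (b (l 16348840) (l 16419320)) (a (l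 16379960) (l 16379272)))))) (a (a (l 6) (a (l 6) (a (l 6) (a (l 6) (b (b (l 16510256) (l 16576048)) (b (c (l 16650192) (l 16622192)) (b (l 16613968) (b (l 16654760) (l 16665376))))))))) (a (b (b (a (c (l 16521248) (l 16486064)) (l 16496088)) (b (a (l 16554528) (a (l 16550240) (l 16547648))) (a (c (l 16603192) (l 16571080)) (c (l 16594392) (l 16559312))))) (b (a (c (c (l 16649904) (l 16573120)) (b (l 16599672) (l 16626504))) (c (l 16631896) (l 16577768))) (a (c (b (l 16660336) (a (l 16655168) (l 16666968))) (b (l 16611160) (c (l 16687016) (l 16630432)))) (c (b (l 16668392) (b (l 16676504) (l 16629792))) (b (l 16616560) (l 16632184)))))) (b (a (b (c (l 16512088) (l 16470936)) (c (l 16529400) (l 16532856))) (b (c (l 16404936) (l 16403312)) (l 16480960))) (b (a (c (l 16620328) (l 16584784)) (c (l 16609296) (l 16571872))) (a (c (b (l 16655736) (l 16613496)) (b (l 16601848) (l 16648384))) (c (b (l 16643648) (l 16594208)) (l 16579888))))))))), by decide +kernel⟩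

def k2_pp_102 : ∃ t, chk3 f_pp_102 t 5 3 1 = true :=
  ⟨(a (b (a (b (a (b (a (l 15720080) (l 15731632)) (l 15849608)) (l 15894504)) (a (b (l 15975728) (l 16107704)) (b (l 15992568) (l 16121744)))) (b (a (l 15830968) (l 15850800)) (b (a (l 16009032) (l 16024904)) (a (l 16135288) (l 16148168))))) (b (a (b (a (l 16223520) (l 16255488)) (a (b (l 16349224) (l 16421112)) (b (l 16357752) (l 16427816)))) (b (a (l 16265824) (l 16275416)) (b (l 16369232) (a (l 16431936) (l 16433144))))) (b (a (b (a (l 16382992) (l 16485792)) (c (l 16553384) (l 16510320))) (c (l 16520424) (l 16389256))) (c (a (b (l 16595864) (a (l 16558424) (l 16559592))) (b (l 16576384) (a (l 16561504) (l 16563960)))) (a (b (l 16556632) (a (l 16609536) (l 16597112))) (b (l 16535120) (l 16535144))))))) (b (b (a (a (l 15869960) (l 15888376)) (l 16086712)) (a (b (l 16048040) (l 16166568)) (b (l 16064208) (l 16180904)))) (b (a (b (l 16288576) (b (l 16380704) (l 16429680))) (b (c (l 16332856) (l 16265336)) (b (c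 (l 16412592) (l 16352632)) (l 16420448)))) (b (a (c (l 16506344) (l 16435384)) (l 16445168)) (a (b (c (l 16555232) (l 16511296)) (c (a (l 16545544) (l 16527208)) (l 16548216))) (c (b (l 16521896) (l 16458344)) (l 16481496))))))), by decide +kernel⟩

def k3_pp_102 : ∃ t, chk3 f_pp_102 t 3 1 1 = true :=
  ⟨(b (a (b (a (b (a (b (l 15107720) (l 15181672)) (l 15181976)) (a (l 15305392) (l 15324304))) (b (a (l 15219432) (l 15250064)) (a (l 15340824) (l 15414320)))) (b (a (a (b (l 15441072) (l 15532768)) (b (l 15445672) (l 15535880))) (a (b (l 15443136) (l 15544136)) (l 15510184))) (a (a (l 15685624) (l 15689920)) (a (l 15701424) (l 15719096))))) (b (b (a (a (l 15275568) (l 15295624)) (a (l 15313888) (c (l 15491496) (l 15163120)))) (a (a (b (l 15325904) (l 15383232)) (b (l 15333912) (l 15412952))) (a (l 15401704) (l 15445376)))) (a (b (a (l 15532456) (l 15561208)) (a (l 15742064) (l 15769600))) (b (a (l 15595744) (l 15635448)) (a (l 15801080) (l 15835944)))))) (a (b (a (b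 (a (l 15941888) (l 15909024)) (c (a (l 16175688) (l 16190160)) (a (l 16082816) (l 16090816)))) (b (a (l 15923232) (l 15941568)) (c (b (l 16160456) (l 16266024)) (b (l 16044624) (l 16173296))))) (b (a (b (a (a (l 16306712) (l 16291600)) (b (l 16289888) (l 16344176))) (a (b (l 16381024) (l 16408944)) (l 16385568))) (b (a (l 16322488) (l 16323320)) (l 16367768))) (a (c (b (l 16464952) (a (b (l 16488256) (l 16466024)) (l 16361288))) (b (l 16409632) (a (l 16474304) (l 16445696)))) (b (a (l 16409592) (l 16388608)) (a (b (l 16434208) (l 16276296)) (c (l 16386448) (l 16387272))))))) (b (b (a (c (l 16051264) (l 15894080)) (c (l 16104192) (l 15946264))) (a (b (c (l 16198904) (l 16080608)) (a (l 16244248) (l 16259984))) (b (l 16182840) (a (l 16272824) (l 16281856))))) (b (a (b (a (l 16321536) (l 16317864)) (l 16341216)) (b (l 16309208) (l 16313536))) (c (a (b (l 16378144) (a (l 16359136) (l 16332448))) (b (l 16330816) (a (l 16305368) (l 16277072)))) (a (a (l 16328704) (l 16325288))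 (b (l 16288496) (l 16286656)))))))), by decide +kernel⟩

theorem s4_pp_102 : ∃ t, chk3 f_pp_102 t 2 3 1 = true := ex3_a k1_pp_102 k2_pp_102

theorem s5_pp_102 : ∃ t, chk3 f_pp_102 t 2 1 1 = true := ex3_b k0_pp_102 s4_pp_102

theorem s6_pp_102 : ∃ t, chk3 f_pp_102 t 1 1 1 = true := ex3_a s5_pp_102 k3_pp_102

theorem c_pp_102 : CertB 536870912 536870912 0 536870912 858993459 64424510 3 eng mog cd2q1 cd0q2 pd0 false true true .npp 1 0 2
    ndB2q1 ndB0q2 pcB0 cut_pp_102 Ext.none :=
  certB2 (fam := false) (s1 := true) (s2 := true) (a := 1) (b := 0) (c := 2) (cn := .npp) (n1 := ndB2q1) (n2 := ndB0q2) (pc := pcB0) (cut := cut_pp_102) (xt := Ext.none) (P1 := 536870912) (W1 := 536870912) (P2 := 0) (W2 := 536870912) (P3 := 858993459) (W3 := 64424510) (N0 := 3) (En := eng) (mo := mog) (C1 := cd2q1) (C2 := cd0q2) (C3 := pd0)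
    rfl (fun _ => rfl) s6_pp_102

noncomputable def f_pp_112 : ℕ → ℕ → ℕ → ℕ → Bool := onCell 536870912 536870912 0 536870912 858993459 64424510
    (rowB 3 eng mog cd2q1 cd0q2 pd1 2 false true true .dn 1 1 2 (qsf 536870912 536870912 0 536870912 1) ndB2q1 ndB0q2 pcB1 Cut.none Ext.none)

def k0_pp_112 : ∃ t, chk3 f_pp_112 t 1 1 1 = true :=
  ⟨(a (b (a (b (a (a (b (l 15519584) (l 15623936)) (b (l 15548456) (l 15660440))) (b (a (l 15613192) (l 15596696)) (c (l 15743336) (l 15654768)))) (c (a (b (l 15776568) (l 15856896)) (b (l 15815648) (l 15892568))) (a (b (l 15762544) (l 15909040)) (b (l 15824464) (l 15999568))))) (a (b (c (l 15762176) (l 116532713719)) (a (c (l 758093961799) (l 422549529799)) (l 1))) (l 1))) (a (b (b (c (a (c (l 15898992) (l 15988144)) (c (l 15927808) (l 16018376))) (a (c (l 16087800) (l 16196040)) (c (l 16118848) (l 16226232)))) (c (a (b (c (l 15945184) (l 16070760)) (c (a (l 15994376) (l 15989104)) (l 15890408))) (b (c (l 15969352) (l 16092120))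 (c (a (l 16000120) (l 1)) (l 16128920)))) (a (b (l 16104976) (c (l 16263384) (l 16316760))) (b (l 16179192) (c (l 16254848) (l 16303576)))))) (b (b (c (a (c (a (l 16038624) (l 16049576)) (l 16157464)) (c (l 200285464951) (l 16151088))) (a (c (l 16271888) (l 16295744)) (c (l 16246496) (l 16282088)))) (a (c (c (a (l 16106808) (l 16107784)) (l 16186664)) (c (l 16266912) (l 16284376))) (l 1))) (a (b (c (c (a (l 16165800) (l 16155560)) (l 16207264)) (c (l 16255280) (l 16262800))) (a (b (c (l 16212144) (l 16267672)) (c (l 16220736) (l 16242680))) (l 1))) (l 1)))) (b (l 1) (l 1)))) (l 1)), by decide +kernel⟩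

theorem c_pp_112 : CertB 536870912 536870912 0 536870912 858993459 64424510 3 eng mog cd2q1 cd0q2 pd1 false true true .dn 1 1 2
    ndB2q1 ndB0q2 pcB1 Cut.none Ext.none :=
  certB2 (fam := false) (s1 := true) (s2 := true) (a := 1) (b := 1) (c := 2) (cn := .dn) (n1 := ndB2q1) (n2 := ndB0q2) (pc := pcB1) (cut := Cut.none) (xt := Ext.none) (P1 := 536870912) (W1 := 536870912) (P2 := 0) (W2 := 536870912) (P3 := 858993459) (W3 := 64424510) (N0 := 3) (En := eng) (mo := mog) (C1 := cd2q1) (C2 := cd0q2) (C3 := pd1)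
    rfl (fun _ => rfl) k0_pp_112

noncomputable def f_pp_202 : ℕ → ℕ → ℕ → ℕ → Bool := onCell 1073741824 536870912 0 536870912 858993459 64424510
    (rowB 3 eng mog cd2q2 cd0q2 pd0 0 false true true .pp 2 0 2 (qsf 1073741824 536870912 0 536870912 0) ndB2q2 ndB0q2 pcB0 Cut.none Ext.none)

def k0_pp_202 : ∃ t, chk3 f_pp_202 t 1 1 1 = true :=
  ⟨(l 3), by decide +kernel⟩

theorem c_pp_202 : CertB 1073741824 536870912 0 536870912 858993459 64424510 3 eng mog cd2q2 cd0q2 pd0 false true true .pp 2 0 2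
    ndB2q2 ndB0q2 pcB0 Cut.none Ext.none :=
  certB0 (fam := false) (s1 := true) (s2 := true) (a := 2) (b := 0) (c := 2) (cn := .pp) (n1 := ndB2q2) (n2 := ndB0q2) (pc := pcB0) (cut := Cut.none) (xt := Ext.none) (P1 := 1073741824) (W1 := 536870912) (P2 := 0) (W2 := 536870912) (P3 := 858993459) (W3 := 64424510) (N0 := 3) (En := eng) (mo := mog) (C1 := cd2q2) (C2 := cd0q2) (C3 := pd0)
    rfl k0_pp_202

noncomputable def f_pm_001 : ℕ → ℕ → ℕ → ℕ → Bool := onCell 0 536870912 0 536870912 858993459 64424510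
    (rowB 3 eng mog cd2q0 cd0q1 pd0 1 false true false .up 0 0 1 (qsf 0 536870912 536870912 536870912 0) ndB2q0 ndB0q1 pcB0 Cut.none Ext.none)

def k0_pm_001 : ∃ t, chk3 f_pm_001 t 1 1 1 = true :=
  ⟨(l 4), by decide +kernel⟩

theorem c_pm_001 : CertB 0 536870912 536870912 536870912 858993459 64424510 3 eng mog cd2q0 cd0q1 pd0 false true false .up 0 0 1
    ndB2q0 ndB0q1 pcB0 Cut.none Ext.none :=
  certB1 (fam := false) (s1 := true) (s2 := false) (a := 0) (b := 0) (c := 1) (cn := .up) (n1 := ndB2q0) (n2 := ndB0q1) (pc := pcB0) (cut := Cut.none) (xt := Ext.none) (P1 := 0) (W1 := 536870912) (P2 := 536870912) (W2 := 536870912) (P3 := 858993459) (W3 := 64424510) (N0 := 3) (En := eng) (mo := mog) (C1 := cd2q0) (C2 := cd0q1) (C3 := pd0)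
    rfl (fun _ => rfl) k0_pm_001

noncomputable def f_pm_011 : ℕ → ℕ → ℕ → ℕ → Bool := onCell 0 536870912 536870912 536870912 858993459 64424510
    (rowB 3 eng mog cd2q0 cd0q1 pd1 0 false true false .pnn 0 1 1 (qsf 0 536870912 536870912 536870912 1) ndB2q0 ndB0q1 pcB1 Cut.none Ext.none)

def k0_pm_011 : ∃ t, chk3 f_pm_011 t 1 1 1 = true :=
  ⟨(b (l 4) (l 4)), by decide +kernel⟩

theorem c_pm_011 : CertB 0 536870912 536870912 536870912 858993459 64424510 3 eng mog cd2q0 cd0q1 pd1 false true false .pnn 0 1 1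
    ndB2q0 ndB0q1 pcB1 Cut.none Ext.none :=
  certB0 (fam := false) (s1 := true) (s2 := false) (a := 0) (b := 1) (c := 1) (cn := .pnn) (n1 := ndB2q0) (n2 := ndB0q1) (pc := pcB1) (cut := Cut.none) (xt := Ext.none) (P1 := 0) (W1 := 536870912) (P2 := 536870912) (W2 := 536870912) (P3 := 858993459) (W3 := 64424510) (N0 := 3) (En := eng) (mo := mog) (C1 := cd2q0) (C2 := cd0q1) (C3 := pd1)
    rfl k0_pm_011

noncomputable def f_pm_012 : ℕ → ℕ → ℕ → ℕ → Bool := onCell 0 536870912 0 536870912 858993459 64424510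
    (rowB 3 eng mog cd2q0 cd0q2 pd1 0 false true false .pnp 0 1 2 (qsf 0 536870912 0 536870912 1) ndB2q0 ndB0q2 pcB1 Cut.none Ext.none)

def k0_pm_012 : ∃ t, chk3 f_pm_012 t 2 1 1 = true :=
  ⟨(a (b (b (l 2) (a (l 2) (a (l 2) (a (l 2) (b (l 2) (a (l 2) (l 15685928))))))) (b (a (l 2) (b (a (l 2) (a (b (l 15793280) (l 15849600)) (b (a (l 15743464) (l 15718576)) (l 4)))) (l 4))) (l 4))) (b (a (b (a (a (l 2) (b (l 15745528) (l 15688144))) (b (a (l 15742000) (l 15739328)) (a (l 15683096) (l 15678832)))) (a (a (b (l 15816176) (a (l 15677896) (l 15670832))) (b (l 15660592) (b (l 15659440) (l 15836864)))) (c (b (l 15740008) (a (l 15702048) (l 15699152))) (b (l 15732296) (a (l 15611320) (l 15605000)))))) (a (b (b (l 15737624) (l 15821536)) (b (l 15806272) (a (b (l 15693544) (l 15660992)) (c (l 15699792) (l 15601328))))) (b (b (l 15703264) (l 15762880)) (c (b (l 15649496) (a (l 15734120) (l 15659952))) (b (l 15536240) (a (l 15585640) (l 15547248))))))) (b (b (b (a (a (a (a (l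 15714320) (l 15713592)) (l 15777504)) (a (l 15716640) (l 4))) (l 4)) (l 4)) (l 4)) (l 4)))), by decide +kernel⟩

def k1_pm_012 : ∃ t, chk3 f_pm_012 t 3 1 1 = true :=
  ⟨(b (a (b (a (b (a (l 15637792) (l 15576568)) (a (l 15568312) (l 15504040))) (b (a (l 15519808) (l 15468384)) (c (l 15749808) (a (l 15340392) (l 15270304))))) (a (b (c (a (l 15846272) (b (l 15552800) (l 15540648))) (a (l 15449680) (l 15500192))) (a (c (l 15630784) (l 15494944)) (c (l 15584208) (l 15430120)))) (b (a (c (b (l 15509912) (l 15509992)) (b (l 15298736) (l 15313448))) (c (l 15475456) (l 15253496))) (a (l 15691488) (l 15418272))))) (b (a (b (c (l 15523048) (l 15277736)) (a (c (l 15476552) (l 15215048)) (b (a (l 15331680) (l 15318208)) (l 15306152)))) (b (c (l 15481256) (a (l 15207368) (l 15174960))) (b (a (l 15304168) (l 15292968)) (a (l 15288336) (l 15281632))))) (b (a (b (c (l 15441848) (l 15187272)) (l 15321368)) (l 15282824)) (a (a (l 15407256) (l 15334304)) (a (l 15311336) (l 15297144))))))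 (a (l 4) (l 4))), by decide +kernel⟩

theorem s2_pm_012 : ∃ t, chk3 f_pm_012 t 1 1 1 = true := ex3_a k0_pm_012 k1_pm_012

theorem c_pm_012 : CertB 0 536870912 0 536870912 858993459 64424510 3 eng mog cd2q0 cd0q2 pd1 false true false .pnp 0 1 2
    ndB2q0 ndB0q2 pcB1 Cut.none Ext.none :=
  certB0 (fam := false) (s1 := true) (s2 := false) (a := 0) (b := 1) (c := 2) (cn := .pnp) (n1 := ndB2q0) (n2 := ndB0q2) (pc := pcB1) (cut := Cut.none) (xt := Ext.none) (P1 := 0) (W1 := 536870912) (P2 := 0) (W2 := 536870912) (P3 := 858993459) (W3 := 64424510) (N0 := 3) (En := eng) (mo := mog) (C1 := cd2q0) (C2 := cd0q2) (C3 := pd1)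
    rfl s2_pm_012

noncomputable def f_pm_022 : ℕ → ℕ → ℕ → ℕ → Bool := onCell 0 536870912 0 536870912 858993459 64424510
    (rowB 3 eng mog cd2q0 cd0q2 pd2 0 false true false .pp 0 2 2 (qsf 0 536870912 0 536870912 2) ndB2q0 ndB0q2 pcB2 Cut.none Ext.none)

def k0_pm_022 : ∃ t, chk3 f_pm_022 t 1 1 1 = true :=
  ⟨(a (a (b (b (b (a (a (l 16252984) (l 16412328)) (a (a (l 16324184) (l 16226616)) (a (l 16120304) (a (l 16035168) (l 15981040))))) (a (a (c (l 16439808) (l 16451976)) (c (l 16359208) (l 16394712))) (a (a (l 16273728) (l 16165952)) (a (l 16049384) (a (l 15956552) (l 15897368)))))) (a (a (c (b (l 16439696) (l 16448504)) (b (l 16473272) (l 16463080))) (b (c (l 16340088) (l 16358288)) (c (l 16201952) (l 16326880)))) (a (a (b (l 16230616) (l 16002688)) (b (l 16110952) (a (l 16092280) (l 16023336)))) (a (b (l 16066352) (c (l 15940176) (l 15892032))) (b (a (l 15880736) (l 15815776)) (a (l 15908768) (c (l 15767152) (l 15697976)))))))) (b (b (b (a (a (c (l 16453968)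 (l 16457368)) (c (l 16315808) (l 16303512))) (a (c (l 16106128) (l 16069944)) (a (l 15988008) (a (l 15743656) (l 15899976))))) (a (a (c (l 16455864) (l 16452992)) (a (l 16337824) (l 16235232))) (a (a (l 37278214215) (l 30835478743)) (a (l 334167249831) (l 1))))) (a (a (b (a (l 67343355047) (c (l 16425216) (l 16414280))) (a (l 161295838583) (l 4))) (b (c (l 64121143735) (l 65731735399)) (l 4))) (l 4))) (l 4))) (b (a (b (a (a (b (l 15987800) (a (l 15853928) (l 15811112))) (b (l 15847128) (c (l 15777856) (l 15716320)))) (b (l 1) (l 1))) (a (a (b (c (l 15775904) (l 15714088)) (c (l 15798384) (l 455298260887))) (b (c (l 15686208) (l 15607992)) (l 1))) (l 1))) (l 1)) (b (l 1) (l 1)))) (l 1)), by decide +kernel⟩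

theorem c_pm_022 : CertB 0 536870912 0 536870912 858993459 64424510 3 eng mog cd2q0 cd0q2 pd2 false true false .pp 0 2 2
    ndB2q0 ndB0q2 pcB2 Cut.none Ext.none :=
  certB0 (fam := false) (s1 := true) (s2 := false) (a := 0) (b := 2) (c := 2) (cn := .pp) (n1 := ndB2q0) (n2 := ndB0q2) (pc := pcB2) (cut := Cut.none) (xt := Ext.none) (P1 := 0) (W1 := 536870912) (P2 := 0) (W2 := 536870912) (P3 := 858993459) (W3 := 64424510) (N0 := 3) (En := eng) (mo := mog) (C1 := cd2q0) (C2 := cd0q2) (C3 := pd2)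
    rfl k0_pm_022

noncomputable def f_pm_101 : ℕ → ℕ → ℕ → ℕ → Bool := onCell 536870912 536870912 536870912 536870912 858993459 64424510
    (rowB 3 eng mog cd2q1 cd0q1 pd0 0 false true false .npn 1 0 1 (qsf 536870912 536870912 536870912 536870912 0) ndB2q1 ndB0q1 pcB0 Cut.none Ext.none)

def k0_pm_101 : ∃ t, chk3 f_pm_101 t 1 1 1 = true :=
  ⟨(l 4), by decide +kernel⟩

theorem c_pm_101 : CertB 536870912 536870912 536870912 536870912 858993459 64424510 3 eng mog cd2q1 cd0q1 pd0 false true false .npn 1 0 1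
    ndB2q1 ndB0q1 pcB0 Cut.none Ext.none :=
  certB0 (fam := false) (s1 := true) (s2 := false) (a := 1) (b := 0) (c := 1) (cn := .npn) (n1 := ndB2q1) (n2 := ndB0q1) (pc := pcB0) (cut := Cut.none) (xt := Ext.none) (P1 := 536870912) (W1 := 536870912) (P2 := 536870912) (W2 := 536870912) (P3 := 858993459) (W3 := 64424510) (N0 := 3) (En := eng) (mo := mog) (C1 := cd2q1) (C2 := cd0q1) (C3 := pd0)
    rfl k0_pm_101

noncomputable def f_pm_102 : ℕ → ℕ → ℕ → ℕ → Bool := onCell 536870912 536870912 0 536870912 858993459 64424510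
    (rowB 3 eng mog cd2q1 cd0q2 pd0 0 false true false .npp 1 0 2 (qsf 536870912 536870912 0 536870912 0) ndB2q1 ndB0q2 pcB0 Cut.none Ext.none)

def k0_pm_102 : ∃ t, chk3 f_pm_102 t 1 1 1 = true :=
  ⟨(a (b (a (b (l 2) (b (l 2) (b (l 2) (l 4)))) (b (a (b (a (l 15390240) (l 15354872)) (a (l 15414528) (l 15365616))) (b (a (l 15314688) (l 15272416)) (l 15294344))) (b (a (l 15386896) (l 15300192)) (b (a (l 15391672) (l 15304768)) (l 4))))) (l 4)) (b (a (b (b (a (a (l 15229856) (l 15187688)) (a (l 15145400) (l 15101136))) (a (l 15198512) (l 15093288))) (b (a (l 15192840) (l 15062632)) (b (a (l 15185040) (l 15032984)) (l 4)))) (b (a (b (l 15177832) (l 15224656)) (b (a (l 14954744) (l 14897440)) (a (l 14870968) (l 14795664)))) (a (b (l 15118680) (a (l 14887104) (l 14785408))) (b (a (l 14779528) (l 14685264)) (b (a (l 14699168) (l 14589928)) (a (l 14652032) (l 14531336))))))) (l 4))), by decide +kernel⟩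

theorem c_pm_102 : CertB 536870912 536870912 0 536870912 858993459 64424510 3 eng mog cd2q1 cd0q2 pd0 false true false .npp 1 0 2
    ndB2q1 ndB0q2 pcB0 Cut.none Ext.none :=
  certB0 (fam := false) (s1 := true) (s2 := false) (a := 1) (b := 0) (c := 2) (cn := .npp) (n1 := ndB2q1) (n2 := ndB0q2) (pc := pcB0) (cut := Cut.none) (xt := Ext.none) (P1 := 536870912) (W1 := 536870912) (P2 := 0) (W2 := 536870912) (P3 := 858993459) (W3 := 64424510) (N0 := 3) (En := eng) (mo := mog) (C1 := cd2q1) (C2 := cd0q2) (C3 := pd0)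
    rfl k0_pm_102

noncomputable def f_pm_112 : ℕ → ℕ → ℕ → ℕ → Bool := onCell 536870912 536870912 0 536870912 858993459 64424510
    (rowB 3 eng mog cd2q1 cd0q2 pd1 0 false true false .dn 1 1 2 (qsf 536870912 536870912 0 536870912 1) ndB2q1 ndB0q2 pcB1 Cut.none Ext.none)

def k0_pm_112 : ∃ t, chk3 f_pm_112 t 1 1 1 = true :=
  ⟨(a (b (a (b (b (a (c (l 15623656) (l 15410792)) (b (l 15510408) (l 15490032))) (a (b (l 15484000) (l 15476056)) (b (l 15475848) (l 15465104)))) (a (b (l 15468848) (l 15478928)) (b (l 15453992) (l 15454448)))) (a (b (b (l 15454416) (l 15428320)) (b (l 15406440) (l 15397904))) (l 1))) (l 4)) (l 1)), by decide +kernel⟩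

theorem c_pm_112 : CertB 536870912 536870912 0 536870912 858993459 64424510 3 eng mog cd2q1 cd0q2 pd1 false true false .dn 1 1 2
    ndB2q1 ndB0q2 pcB1 Cut.none Ext.none :=
  certB0 (fam := false) (s1 := true) (s2 := false) (a := 1) (b := 1) (c := 2) (cn := .dn) (n1 := ndB2q1) (n2 := ndB0q2) (pc := pcB1) (cut := Cut.none) (xt := Ext.none) (P1 := 536870912) (W1 := 536870912) (P2 := 0) (W2 := 536870912) (P3 := 858993459) (W3 := 64424510) (N0 := 3) (En := eng) (mo := mog) (C1 := cd2q1) (C2 := cd0q2) (C3 := pd1)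
    rfl k0_pm_112

noncomputable def f_pm_202 : ℕ → ℕ → ℕ → ℕ → Bool := onCell 0 536870912 0 536870912 858993459 64424510
    (rowB 3 eng mog cd2q2 cd0q2 pd0 2 false true false .pp 2 0 2 (qsf 1073741824 536870912 0 536870912 0) ndB2q2 ndB0q2 pcB0 Cut.none Ext.none)

def k0_pm_202 : ∃ t, chk3 f_pm_202 t 2 2 1 = true :=
  ⟨(l 3), by decide +kernel⟩

def k1_pm_202 : ∃ t, chk3 f_pm_202 t 4 12 1 = true :=
  ⟨(l 3), by decide +kernel⟩

def k2_pm_202 : ∃ t, chk3 f_pm_202 t 4 26 1 = true :=
  ⟨(a (l 3) (a (l 3) (a (l 3) (l 1)))), by decide +kernel⟩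

def k3_pm_202 : ∃ t, chk3 f_pm_202 t 16 27 1 = true :=
  ⟨(b (a (b (l 3) (b (l 3) (a (c (a (b (l 3) (a (c (l 143511777319) (l 145122336583)) (c (a (l 16518200) (l 16521568)) (l 16490960)))) (c (a (l 117742002087) (l 118278889175)) (a (l 16503608) (l 16506152)))) (a (a (c (l 129016145271) (l 132237325511)) (c (l 120963106071) (l 16423400))) (c (a (l 16467312) (l 16477096)) (l 118815595671)))) (c (a (c (l 16542944) (l 16518248)) (l 156396757735)) (a (c (l 16491344) (l 16462256)) (l 16518688)))))) (b (l 3) (a (a (b (l 3) (c (l 16561216) (l 16518208))) (c (l 157470556679) (l 145122440183))) (c (c (l 16560320) (l 16546384)) (c (l 16573024) (l 16556336)))))) (a (b (b (c (a (a (a (l 16506072) (c (l 16526504) (l 16498128))) (a (b (b (l 16515952) (l 16518144)) (l 16522472)) (b (l 16524592) (l 16529160)))) (a (b (l 16535928) (a (l 16536144) (l 16543536))) (l 16553048))) (a (c (a (a (l 16458928) (l 16467296)) (a (l 16476024) (l 16485128))) (a (l 16429072) (b (l 16446384) (l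 16452344)))) (a (b (l 16482832) (l 16487416)) (l 16505592)))) (a (c (c (l 16540776) (l 16514064)) (l 16464360)) (c (a (l 16547984) (l 16561480)) (a (l 16497040) (l 16515440))))) (c (c (l 16506992) (l 16484160)) (c (l 16480240) (l 16453280)))) (a (c (a (b (b (l 16568192) (l 16575968)) (l 16592320)) (b (l 16618608) (l 16605440))) (b (b (l 16546808) (l 16555688)) (a (l 16554376) (l 16572312)))) (b (c (b (l 16563784) (l 16612944)) (l 16559904)) (c (b (l 16621120) (l 16631384)) (l 16558464)))))), by decide +kernel⟩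

def k4_pm_202 : ∃ t, chk3 f_pm_202 t 17 27 1 = true :=
  ⟨(b (a (b (l 3) (a (c (l 107541538279) (l 16541312)) (c (l 16622808) (l 16621784)))) (a (c (b (l 16584384) (l 16603856)) (l 95193525863)) (c (b (l 86066712407) (l 16584104)) (a (l 16568216) (l 76403075223))))) (a (b (c (c (l 16626208) (l 16629416)) (l 16545776)) (a (c (l 16654688) (l 16638848)) (l 16580168))) (c (a (l 16579168) (b (l 16602432) (l 16599616))) (c (l 16544288) (l 16541616))))), by decide +kernel⟩

def k5_pm_202 : ∃ t, chk3 f_pm_202 t 9 27 1 = true :=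
  ⟨(a (a (a (b (c (b (c (l 84993019159) (l 16584184)) (c (l 16588048) (l 16580952))) (c (b (l 16578656) (l 16573520)) (l 16569304))) (c (b (l 16581624) (l 16578520)) (l 16559512))) (b (b (b (l 3) (c (c (l 16570624) (l 16560384)) (c (l 16549592) (l 16538240)))) (c (c (l 16569024) (l 16557408)) (c (l 16545144) (l 16532240)))) (c (b (a (l 16565488) (l 16554544)) (l 16556592)) (b (l 16531616) (l 16524264))))) (a (b (a (c (b (b (c (l 71034304455) (l 16544264)) (c (l 16556184) (l 16542568))) (c (l 16554368) (l 16539352))) (b (c (b (l 16530888) (l 16528184)) (l 16514896)) (c (l 16523464) (l 16506704)))) (b (b (b (l 3) (c (c (a (l 65665582615) (l 1)) (l 313028819495)) (c (l 333966752375) (l 16499112)))) (a (b (c (l 322155665047) (l 376916437639)) (l 1)) (l 1))) (l 1))) (l 1)) (l 1))) (l 1)), by decide +kernel⟩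

def k6_pm_202 : ∃ t, chk3 f_pm_202 t 4 7 1 = true :=
  ⟨(a (b (a (b (b (c (a (a (l 16518360) (l 16566080)) (l 16585120)) (a (a (l 16492144) (l 16528000)) (l 16519008))) (a (c (l 16644456) (l 16548640)) (c (l 16649048) (l 16666296)))) (a (b (l 16564376) (l 16579656)) (b (l 16527472) (l 16521064)))) (a (b (b (a (l 16588256) (b (l 16594360) (l 16624168))) (c (l 16617328) (l 16615792))) (b (c (l 16596304) (l 16584920)) (c (l 16573264) (l 16551184)))) (b (b (a (b (l 16571224) (l 16602088)) (b (c (l 16596096) (l 16580152)) (l 16579168))) (c (l 16582184) (a (l 16574688) (l 16545872)))) (c (b (l 16549640) (l 508449895335)) (b (l 300680657895) (l 498249192487)))))) (a (b (a (b (l 16550144) (a (l 16502200) (l 16571752))) (b (c (l 16582592) (l 16566896)) (a (l 16552304) (l 446172876071)))) (a (b (a (a (l 16539208) (l 16517208)) (b (a (l 16547984) (l 16539856)) (a (l 16518904) (l 16517376)))) (a (c (l 16498096) (b (l 16468616) (l 16430312))) (a (b (l 16486344) (l 1)) (l 1))))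 (a (b (b (l 16526312) (l 1)) (l 1)) (l 1)))) (a (b (a (b (l 16521752) (l 1)) (l 1)) (l 1)) (l 1)))) (a (b (b (a (b (b (c (l 299070212807) (l 384969529303)) (a (c (l 16569536) (l 16539136)) (l 1))) (c (l 462815809559) (a (l 16493704) (l 1)))) (l 1)) (l 1)) (l 1)) (l 1))), by decide +kernel⟩

def k7_pm_202 : ∃ t, chk3 f_pm_202 t 5 3 1 = true :=
  ⟨(b (l 1) (l 1)), by decide +kernel⟩

def k8_pm_202 : ∃ t, chk3 f_pm_202 t 3 1 1 = true :=
  ⟨(l 1), by decide +kernel⟩

theorem s9_pm_202 : ∃ t, chk3 f_pm_202 t 8 27 1 = true := ex3_a k3_pm_202 k4_pm_202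

theorem s10_pm_202 : ∃ t, chk3 f_pm_202 t 4 27 1 = true := ex3_a s9_pm_202 k5_pm_202

theorem s11_pm_202 : ∃ t, chk3 f_pm_202 t 4 13 1 = true := ex3_b k2_pm_202 s10_pm_202

theorem s12_pm_202 : ∃ t, chk3 f_pm_202 t 4 6 1 = true := ex3_b k1_pm_202 s11_pm_202

theorem s13_pm_202 : ∃ t, chk3 f_pm_202 t 4 3 1 = true := ex3_b s12_pm_202 k6_pm_202

theorem s14_pm_202 : ∃ t, chk3 f_pm_202 t 2 3 1 = true := ex3_a s13_pm_202 k7_pm_202

theorem s15_pm_202 : ∃ t, chk3 f_pm_202 t 2 1 1 = true := ex3_b k0_pm_202 s14_pm_202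

theorem s16_pm_202 : ∃ t, chk3 f_pm_202 t 1 1 1 = true := ex3_a s15_pm_202 k8_pm_202

theorem c_pm_202 : CertB 1073741824 536870912 0 536870912 858993459 64424510 3 eng mog cd2q2 cd0q2 pd0 false true false .pp 2 0 2
    ndB2q2 ndB0q2 pcB0 Cut.none Ext.none :=
  certB2 (fam := false) (s1 := true) (s2 := false) (a := 2) (b := 0) (c := 2) (cn := .pp) (n1 := ndB2q2) (n2 := ndB0q2) (pc := pcB0) (cut := Cut.none) (xt := Ext.none) (P1 := 1073741824) (W1 := 536870912) (P2 := 0) (W2 := 536870912) (P3 := 858993459) (W3 := 64424510) (N0 := 3) (En := eng) (mo := mog) (C1 := cd2q2) (C2 := cd0q2) (C3 := pd0)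
    rfl (fun _ => rfl) s16_pm_202

noncomputable def f_mm_001 : ℕ → ℕ → ℕ → ℕ → Bool := onCell 0 536870912 536870912 536870912 858993459 64424510
    (rowB 3 eng mog cd2q0 cd0q1 pd0 0 false false false .up 0 0 1 (qsf 0 536870912 536870912 536870912 0) ndB2q0 ndB0q1 pcB0 Cut.none Ext.none)

def k0_mm_001 : ∃ t, chk3 f_mm_001 t 1 1 1 = true :=
  ⟨(l 5), by decide +kernel⟩

theorem c_mm_001 : CertB 0 536870912 536870912 536870912 858993459 64424510 3 eng mog cd2q0 cd0q1 pd0 false false false .up 0 0 1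
    ndB2q0 ndB0q1 pcB0 Cut.none Ext.none :=
  certB0 (fam := false) (s1 := false) (s2 := false) (a := 0) (b := 0) (c := 1) (cn := .up) (n1 := ndB2q0) (n2 := ndB0q1) (pc := pcB0) (cut := Cut.none) (xt := Ext.none) (P1 := 0) (W1 := 536870912) (P2 := 536870912) (W2 := 536870912) (P3 := 858993459) (W3 := 64424510) (N0 := 3) (En := eng) (mo := mog) (C1 := cd2q0) (C2 := cd0q1) (C3 := pd0)
    rfl k0_mm_001

noncomputable def f_mm_011 : ℕ → ℕ → ℕ → ℕ → Bool := onCell 0 536870912 536870912 536870912 858993459 64424510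
    (rowB 3 eng mog cd2q0 cd0q1 pd1 0 false false false .pnn 0 1 1 (qsf 0 536870912 536870912 536870912 1) ndB2q0 ndB0q1 pcB1 Cut.none Ext.none)

def k0_mm_011 : ∃ t, chk3 f_mm_011 t 1 1 1 = true :=
  ⟨(l 5), by decide +kernel⟩

theorem c_mm_011 : CertB 0 536870912 536870912 536870912 858993459 64424510 3 eng mog cd2q0 cd0q1 pd1 false false false .pnn 0 1 1
    ndB2q0 ndB0q1 pcB1 Cut.none Ext.none :=
  certB0 (fam := false) (s1 := false) (s2 := false) (a := 0) (b := 1) (c := 1) (cn := .pnn) (n1 := ndB2q0) (n2 := ndB0q1) (pc := pcB1) (cut := Cut.none) (xt := Ext.none) (P1 := 0) (W1 := 536870912) (P2 := 536870912) (W2 := 536870912) (P3 := 858993459) (W3 := 64424510) (N0 := 3) (En := eng) (mo := mog) (C1 := cd2q0) (C2 := cd0q1) (C3 := pd1)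
    rfl k0_mm_011

noncomputable def f_mm_012 : ℕ → ℕ → ℕ → ℕ → Bool := onCell 0 536870912 0 536870912 858993459 64424510
    (rowB 3 eng mog cd2q0 cd0q2 pd1 0 false false false .pnp 0 1 2 (qsf 0 536870912 0 536870912 1) ndB2q0 ndB0q2 pcB1 Cut.none Ext.none)

def k0_mm_012 : ∃ t, chk3 f_mm_012 t 1 1 1 = true :=
  ⟨(l 5), by decide +kernel⟩

theorem c_mm_012 : CertB 0 536870912 0 536870912 858993459 64424510 3 eng mog cd2q0 cd0q2 pd1 false false false .pnp 0 1 2
    ndB2q0 ndB0q2 pcB1 Cut.none Ext.none :=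
  certB0 (fam := false) (s1 := false) (s2 := false) (a := 0) (b := 1) (c := 2) (cn := .pnp) (n1 := ndB2q0) (n2 := ndB0q2) (pc := pcB1) (cut := Cut.none) (xt := Ext.none) (P1 := 0) (W1 := 536870912) (P2 := 0) (W2 := 536870912) (P3 := 858993459) (W3 := 64424510) (N0 := 3) (En := eng) (mo := mog) (C1 := cd2q0) (C2 := cd0q2) (C3 := pd1)
    rfl k0_mm_012

noncomputable def f_mm_022 : ℕ → ℕ → ℕ → ℕ → Bool := onCell 0 536870912 0 536870912 858993459 64424510
    (rowB 3 eng mog cd2q0 cd0q2 pd2 0 false false false .pp 0 2 2 (qsf 0 536870912 0 536870912 2) ndB2q0 ndB0q2 pcB2 Cut.none Ext.none)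

def k0_mm_022 : ∃ t, chk3 f_mm_022 t 1 1 1 = true :=
  ⟨(l 5), by decide +kernel⟩

theorem c_mm_022 : CertB 0 536870912 0 536870912 858993459 64424510 3 eng mog cd2q0 cd0q2 pd2 false false false .pp 0 2 2
    ndB2q0 ndB0q2 pcB2 Cut.none Ext.none :=
  certB0 (fam := false) (s1 := false) (s2 := false) (a := 0) (b := 2) (c := 2) (cn := .pp) (n1 := ndB2q0) (n2 := ndB0q2) (pc := pcB2) (cut := Cut.none) (xt := Ext.none) (P1 := 0) (W1 := 536870912) (P2 := 0) (W2 := 536870912) (P3 := 858993459) (W3 := 64424510) (N0 := 3) (En := eng) (mo := mog) (C1 := cd2q0) (C2 := cd0q2) (C3 := pd2)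
    rfl k0_mm_022

noncomputable def f_mm_101 : ℕ → ℕ → ℕ → ℕ → Bool := onCell 536870912 536870912 536870912 536870912 858993459 64424510
    (rowB 3 eng mog cd2q1 cd0q1 pd0 0 false false false .npn 1 0 1 (qsf 536870912 536870912 536870912 536870912 0) ndB2q1 ndB0q1 pcB0 Cut.none Ext.none)

def k0_mm_101 : ∃ t, chk3 f_mm_101 t 1 1 1 = true :=
  ⟨(b (l 3) (l 5)), by decide +kernel⟩

theorem c_mm_101 : CertB 536870912 536870912 536870912 536870912 858993459 64424510 3 eng mog cd2q1 cd0q1 pd0 false false false .npn 1 0 1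
    ndB2q1 ndB0q1 pcB0 Cut.none Ext.none :=
  certB0 (fam := false) (s1 := false) (s2 := false) (a := 1) (b := 0) (c := 1) (cn := .npn) (n1 := ndB2q1) (n2 := ndB0q1) (pc := pcB0) (cut := Cut.none) (xt := Ext.none) (P1 := 536870912) (W1 := 536870912) (P2 := 536870912) (W2 := 536870912) (P3 := 858993459) (W3 := 64424510) (N0 := 3) (En := eng) (mo := mog) (C1 := cd2q1) (C2 := cd0q1) (C3 := pd0)
    rfl k0_mm_101

noncomputable def f_mm_102 : ℕ → ℕ → ℕ → ℕ → Bool := onCell 536870912 536870912 0 536870912 858993459 64424510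
    (rowB 3 eng mog cd2q1 cd0q2 pd0 0 false false false .npp 1 0 2 (qsf 536870912 536870912 0 536870912 0) ndB2q1 ndB0q2 pcB0 Cut.none Ext.none)

def k0_mm_102 : ∃ t, chk3 f_mm_102 t 1 1 1 = true :=
  ⟨(l 5), by decide +kernel⟩

theorem c_mm_102 : CertB 536870912 536870912 0 536870912 858993459 64424510 3 eng mog cd2q1 cd0q2 pd0 false false false .npp 1 0 2
    ndB2q1 ndB0q2 pcB0 Cut.none Ext.none :=
  certB0 (fam := false) (s1 := false) (s2 := false) (a := 1) (b := 0) (c := 2) (cn := .npp) (n1 := ndB2q1) (n2 := ndB0q2) (pc := pcB0) (cut := Cut.none) (xt := Ext.none) (P1 := 536870912) (W1 := 536870912) (P2 := 0) (W2 := 536870912) (P3 := 858993459) (W3 := 64424510) (N0 := 3) (En := eng) (mo := mog) (C1 := cd2q1) (C2 := cd0q2) (C3 := pd0)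
    rfl k0_mm_102

noncomputable def f_mm_112 : ℕ → ℕ → ℕ → ℕ → Bool := onCell 536870912 536870912 0 536870912 858993459 64424510
    (rowB 3 eng mog cd2q1 cd0q2 pd1 0 false false false .dn 1 1 2 (qsf 536870912 536870912 0 536870912 1) ndB2q1 ndB0q2 pcB1 Cut.none Ext.none)

def k0_mm_112 : ∃ t, chk3 f_mm_112 t 1 1 1 = true :=
  ⟨(l 5), by decide +kernel⟩

theorem c_mm_112 : CertB 536870912 536870912 0 536870912 858993459 64424510 3 eng mog cd2q1 cd0q2 pd1 false false false .dn 1 1 2
    ndB2q1 ndB0q2 pcB1 Cut.none Ext.none :=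
  certB0 (fam := false) (s1 := false) (s2 := false) (a := 1) (b := 1) (c := 2) (cn := .dn) (n1 := ndB2q1) (n2 := ndB0q2) (pc := pcB1) (cut := Cut.none) (xt := Ext.none) (P1 := 536870912) (W1 := 536870912) (P2 := 0) (W2 := 536870912) (P3 := 858993459) (W3 := 64424510) (N0 := 3) (En := eng) (mo := mog) (C1 := cd2q1) (C2 := cd0q2) (C3 := pd1)
    rfl k0_mm_112

noncomputable def f_mm_202 : ℕ → ℕ → ℕ → ℕ → Bool := onCell 1073741824 536870912 0 536870912 858993459 64424510
    (rowB 3 eng mog cd2q2 cd0q2 pd0 0 false false false .pp 2 0 2 (qsf 1073741824 536870912 0 536870912 0) ndB2q2 ndB0q2 pcB0 Cut.none Ext.none)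

def k0_mm_202 : ∃ t, chk3 f_mm_202 t 1 1 1 = true :=
  ⟨(l 3), by decide +kernel⟩

theorem c_mm_202 : CertB 1073741824 536870912 0 536870912 858993459 64424510 3 eng mog cd2q2 cd0q2 pd0 false false false .pp 2 0 2
    ndB2q2 ndB0q2 pcB0 Cut.none Ext.none :=
  certB0 (fam := false) (s1 := false) (s2 := false) (a := 2) (b := 0) (c := 2) (cn := .pp) (n1 := ndB2q2) (n2 := ndB0q2) (pc := pcB0) (cut := Cut.none) (xt := Ext.none) (P1 := 1073741824) (W1 := 536870912) (P2 := 0) (W2 := 536870912) (P3 := 858993459) (W3 := 64424510) (N0 := 3) (En := eng) (mo := mog) (C1 := cd2q2) (C2 := cd0q2) (C3 := pd0)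
    rfl k0_mm_202

end Pool.Agent.Strip051.G.I8000_8600.Tab.C.BB20

namespace Pool.Agent.Strip051.G.I8000_8600.Tab.C.BB21

open Pool.Agent.Strip051.PB Pool.Agent.Strip051.PB.T
open Pool.Agent.Strip051.G.I8000_8600.Tab

noncomputable def f_pp_001 : ℕ → ℕ → ℕ → ℕ → Bool := onCell 0 536870912 0 536870912 858993459 64424510
    (rowB 3 eng mog cd2q0 cd1q1 pd0 1 false true true .up 0 0 1 (qsf 0 536870912 536870912 536870912 0) ndB2q0 ndB1q1 pcB0 Cut.none Ext.none)

def k0_pp_001 : ∃ t, chk3 f_pp_001 t 1 1 1 = true :=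
  ⟨(l 3), by decide +kernel⟩

theorem c_pp_001 : CertB 0 536870912 536870912 536870912 858993459 64424510 3 eng mog cd2q0 cd1q1 pd0 false true true .up 0 0 1
    ndB2q0 ndB1q1 pcB0 Cut.none Ext.none :=
  certB1 (fam := false) (s1 := true) (s2 := true) (a := 0) (b := 0) (c := 1) (cn := .up) (n1 := ndB2q0) (n2 := ndB1q1) (pc := pcB0) (cut := Cut.none) (xt := Ext.none) (P1 := 0) (W1 := 536870912) (P2 := 536870912) (W2 := 536870912) (P3 := 858993459) (W3 := 64424510) (N0 := 3) (En := eng) (mo := mog) (C1 := cd2q0) (C2 := cd1q1) (C3 := pd0)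
    rfl (fun _ => rfl) k0_pp_001

noncomputable def f_pp_011 : ℕ → ℕ → ℕ → ℕ → Bool := onCell 0 536870912 536870912 536870912 858993459 64424510
    (rowB 3 eng mog cd2q0 cd1q1 pd1 0 false true true .pnn 0 1 1 (qsf 0 536870912 536870912 536870912 1) ndB2q0 ndB1q1 pcB1 Cut.none Ext.none)

def k0_pp_011 : ∃ t, chk3 f_pp_011 t 1 1 1 = true :=
  ⟨(a (l 3) (l 3)), by decide +kernel⟩

theorem c_pp_011 : CertB 0 536870912 536870912 536870912 858993459 64424510 3 eng mog cd2q0 cd1q1 pd1 false true true .pnn 0 1 1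
    ndB2q0 ndB1q1 pcB1 Cut.none Ext.none :=
  certB0 (fam := false) (s1 := true) (s2 := true) (a := 0) (b := 1) (c := 1) (cn := .pnn) (n1 := ndB2q0) (n2 := ndB1q1) (pc := pcB1) (cut := Cut.none) (xt := Ext.none) (P1 := 0) (W1 := 536870912) (P2 := 536870912) (W2 := 536870912) (P3 := 858993459) (W3 := 64424510) (N0 := 3) (En := eng) (mo := mog) (C1 := cd2q0) (C2 := cd1q1) (C3 := pd1)
    rfl k0_pp_011

noncomputable def f_pp_012_a : ℕ → ℕ → ℕ → ℕ → Bool := onCell 0 536870912 0 536870912 858993459 64424510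
    (rowB 3 eng mog cd2q0 cd1q2a pd1 0 false true true .pnp 0 1 2 (qsf 0 536870912 0 536870912 1) ndB2q0 ndB1q2a pcB1 Cut.none Ext.none)

def k0_pp_012_a : ∃ t, chk3 f_pp_012_a t 2 2 1 = true :=
  ⟨(a (b (l 2) (a (l 2) (a (l 2) (a (l 2) (b (l 2) (a (l 2) (b (l 2) (l 16332712)))))))) (a (a (b (a (l 2) (b (l 16063640) (l 16130240))) (b (a (l 16004280) (l 16213336)) (a (b (l 16285296) (l 16331344)) (l 16098440)))) (a (b (l 16098672) (b (l 16214160) (l 16288120))) (b (l 16121096) (b (l 16215864) (l 16394688))))) (c (b (a (l 16155184) (l 16095520)) (a (b (l 16235472) (l 16289784)) (b (l 16192992) (l 16264872)))) (b (a (l 16284032) (l 16061352)) (a (b (l 16206064) (l 16279648)) (b (l 16195920) (l 16164960))))))), by decide +kernel⟩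

def k1_pp_012_a : ∃ t, chk3 f_pp_012_a t 4 6 1 = true :=
  ⟨(a (l 2) (a (b (l 2) (a (b (l 2) (l 16397464)) (b (l 16509824) (l 16469184)))) (a (b (c (l 16426696) (l 16380472)) (b (l 16455720) (l 16458544))) (b (a (l 16301072) (b (l 16353776) (l 16373528))) (a (b (l 16416152) (l 16440248)) (b (l 16395744) (l 16419632))))))), by decide +kernel⟩

def k2_pp_012_a : ∃ t, chk3 f_pp_012_a t 4 7 1 = true :=
  ⟨(a (a (b (l 2) (a (b (l 2) (b (a (l 2) (b (l 16620976) (l 16629680))) (c (b (l 16693824) (l 16680408)) (b (l 16636792) (a (l 16683792) (l 16693360)))))) (b (c (b (l 16686776) (l 16698776)) (b (l 16579168) (a (l 16657936) (l 16668824)))) (b (a (b (l 16670384) (l 16679576)) (l 16640600)) (c (l 16683304) (b (l 16697328) (l 16708320))))))) (b (b (a (l 2) (b (l 2) (l 16639320))) (a (b (l 2) (a (l 16658056) (l 16663416))) (a (l 16660664) (l 16665824)))) (b (b (a (c (l 16690976) (l 16662760)) (l 16647504)) (a (c (l 16705288) (l 16684824)) (l 16643240))) (a (b (c (l 16715016)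 (l 16700024)) (c (l 16732064) (l 16721144))) (c (b (l 16718200) (l 16737112)) (b (l 16715936) (l 16715936))))))) (a (a (b (b (c (l 16624368) (l 16595504)) (b (l 16612912) (l 16609440))) (b (b (l 16584688) (l 16544472)) (c (b (l 16684056) (l 16661264)) (b (l 16690960) (l 16626416))))) (b (b (l 16474304) (c (l 16591464) (l 16590176))) (c (b (l 16568408) (b (l 16608664) (l 16606432))) (b (l 16536160) (b (l 16621408) (l 16596752)))))) (b (a (b (l 16463928) (c (l 16529728) (l 16538296))) (b (a (l 16465304) (l 16422144)) (a (l 16485568) (c (l 16448776) (l 16468720))))) (a (b (c (l 16467264) (l 16463856)) (c (b (l 16526920) (l 16524232)) (b (l 16545672) (l 16519360)))) (b (a (c (l 16445592) (l 16469152)) (c (l 16409032) (l 16436808))) (b (a (l 16451904) (c (l 16424960) (l 16452304))) (a (b (l 16484608) (l 16451248)) (c (b (l 16416176) (l 16446520)) (l 16465456))))))))), by decide +kernel⟩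

def k3_pp_012_a : ∃ t, chk3 f_pp_012_a t 10 3 1 = true :=
  ⟨(b (a (b (a (c (l 16387976) (l 16317656)) (c (l 16378688) (l 16349488))) (a (b (l 16480144) (l 16293832)) (c (l 16552224) (l 16413600)))) (b (a (l 16176480) (l 16157144)) (a (c (l 16523488) (l 16422328)) (c (l 16430456) (l 16430376))))) (a (b (a (a (b (l 16524016) (l 16363824)) (b (l 16417352) (l 16353296))) (b (c (l 16422032) (l 16452464)) (c (l 16386696) (l 16424008)))) (b (a (c (a (l 16396232) (l 16385256)) (a (l 16428432) (l 16422592))) (c (b (l 16366448) (l 16374632)) (l 16415800))) (a (c (b (a (l 16412856) (l 16402520)) (a (l 16429816) (l 16419736))) (b (l 16443144) (a (l 16456680) (l 16450168)))) (c (b (l 16388008) (a (l 16409536) (l 16399128))) (b (l 16430824) (c (l 16432144) (l 16453144))))))) (b (b (a (c (l 16409448) (l 16451496)) (l 16167632)) (a (c (l 16377832) (l 16394904)) (c (l 16346672) (l 16384128)))) (b (a (c (l 16346128) (l 16405064)) (c (l 16320880) (l 16386848))) (a (c (b (l 16365448)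 (a (l 16388456) (l 16377480))) (c (l 16410512) (l 16386776))) (c (b (l 16341632) (c (l 16349504) (l 16373624))) (b (l 16355592) (l 16323496)))))))), by decide +kernel⟩

def k4_pp_012_a : ∃ t, chk3 f_pp_012_a t 11 3 1 = true :=
  ⟨(b (a (b (a (l 16137720) (c (l 16342328) (l 16401352))) (c (a (l 16483288) (l 16367216)) (a (l 16437976) (l 16444088)))) (b (c (a (l 16320416) (l 16283240)) (l 16212616)) (c (a (l 16343208) (l 16304336)) (a (l 16429072) (l 16388704))))) (b (a (b (a (c (l 16378728) (l 16433888)) (l 16181736)) (a (c (l 16317608) (l 16374472)) (c (l 16292928) (l 16364288)))) (c (b (a (l 16334656) (l 16296888)) (a (l 16273432) (l 16253528))) (a (b (l 16375400) (l 16331824)) (l 16191544)))) (a (b (c (a (l 16294240) (l 16266040)) (a (l 16351056) (l 16318832))) (c (a (b (l 16316208) (l 16319680)) (b (l 16273392) (l 16267552))) (a (b (l 16304736) (l 16264464)) (c (l 16254760) (l 16221984))))) (c (b (a (l 16228024) (l 16181432)) (a (b (l 16226072) (l 16214776)) (b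 (l 16175880) (l 16162288)))) (b (a (l 16276600) (l 16227408)) (a (b (l 16216488) (l 16169080)) (c (l 16157048) (l 16131128)))))))), by decide +kernel⟩

def k5_pp_012_a : ∃ t, chk3 f_pp_012_a t 3 2 1 = true :=
  ⟨(a (b (a (c (a (l 16032712) (l 15973248)) (a (l 16006256) (l 15953200))) (c (a (l 15917792) (l 15867776)) (a (l 15902832) (l 15856616)))) (a (c (b (l 16260168) (a (l 16192448) (l 16123264))) (b (l 15947504) (a (l 16256088) (l 16201008)))) (c (b (l 16139632) (a (l 16058944) (l 16001224))) (b (l 16015080) (a (l 16148648) (l 16101376)))))) (b (a (c (a (l 15824448) (l 15788832)) (a (l 15815968) (l 15782032))) (c (b (l 15730184) (l 15771672)) (a (l 15755680) (l 15737536)))) (a (c (b (l 16087296) (a (l 15951264) (l 15909576))) (b (l 15935424) (a (l 16060712) (l 16026824)))) (c (b (l 16048360) (c (l 15838592) (l 15895392))) (b (l 15739080) (c (l 15959128) (l 16027856))))))), by decide +kernel⟩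

def k6_pp_012_a : ∃ t, chk3 f_pp_012_a t 6 3 1 = true :=
  ⟨(b (a (c (b (a (l 16354224) (l 16347744)) (a (b (l 16244912) (l 16250712)) (c (l 16163776) (l 16200712)))) (b (a (l 16316792) (l 16255816)) (a (l 16310064) (l 16220728)))) (b (c (a (c (l 16073272) (l 16120232)) (c (l 16015792) (l 16067152))) (a (l 16200968) (l 16154488))) (c (a (b (l 16116720) (l 16149784)) (b (l 16065392) (l 16123192))) (a (l 16057984) (b (l 16157264) (l 16155304)))))) (a (a (b (c (b (l 16245760) (l 16221768)) (b (l 16295088) (l 16228208))) (b (c (c (l 16144176) (l 16152080)) (c (l 16173184) (l 16176128))) (b (c (a (l 16140184) (l 16116432)) (l 16102160)) (c (a (l 16125528) (l 16101536)) (a (l 16091432) (l 16073520)))))) (b (c (b (l 16186664) (l 16138512)) (b (l 16240376) (l 16200288))) (c (b (c (l 16147944) (l 16143992)) (c (b (l 16092576) (l 16085616)) (l 16239256))) (b (c (l 16140584) (l 16145424)) (c (l 16088352) (l 16098528)))))) (b (c (c (b (a (l 16124688) (l 16083944)) (a (l 16136056)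 (l 16103952))) (a (l 16151208) (l 16091608))) (a (b (l 16191744) (l 16172752)) (b (l 16149360) (l 16139648)))) (c (c (b (a (l 16135248) (a (l 16122376) (l 16113080))) (a (l 16227864) (l 16116224))) (b (a (l 16137080) (l 16118488)) (a (l 16098808) (l 16110792)))) (a (b (c (l 16140240) (l 16143872)) (c (l 16097984) (l 16095816))) (b (c (l 16122248) (l 16128608)) (c (l 16106632) (l 16103792)))))))), by decide +kernel⟩

def k7_pp_012_a : ∃ t, chk3 f_pp_012_a t 7 3 1 = true :=
  ⟨(b (a (a (b (c (c (l 15966480) (l 16022128)) (l 15885552)) (c (b (l 16022608) (l 16125920)) (b (l 16118936) (l 16117720)))) (b (c (c (l 15924888) (l 15985688)) (b (l 16087184) (l 16090536))) (c (c (l 16042776) (l 16020216)) (c (l 16066144) (l 16116032))))) (b (b (c (a (l 15913160) (l 15892280)) (a (l 16068760) (l 16059176))) (c (a (l 15936984) (l 15917680)) (a (l 16072896) (l 16065536)))) (c (a (c (l 16121640) (l 15997016)) (c (l 16020448) (l 15983200))) (c (a (l 16046256) (l 16036424)) (a (l 16100176)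 (l 16073976)))))) (a (b (c (a (b (c (l 16049352) (l 16072224)) (c (l 16075760) (l 16086472))) (b (c (l 16021664) (l 16044648)) (c (l 16053080) (l 16063224)))) (a (b (l 16114440) (l 16109368)) (b (l 16004152) (l 15939088)))) (c (c (b (a (b (l 16094024) (l 16104288)) (l 16084984)) (a (l 16095144) (b (l 16107496) (l 16121112)))) (b (a (l 16224400) (l 16082168)) (a (l 16085296) (b (l 16095888) (l 16104696))))) (c (b (a (l 16184160) (l 16082016)) (a (l 16076080) (b (l 16085224) (l 16087416)))) (b (a (l 16083800) (l 16105568)) (a (l 16067512) (b (l 16075528) (l 16069280))))))) (a (b (c (b (c (l 16001648) (l 16025648)) (c (l 16038696) (l 16048544))) (b (l 16071336) (l 15924320))) (c (c (b (l 16098592) (b (l 16107056) (l 16126424))) (b (l 16073176) (b (l 16092488) (l 16105864)))) (c (b (l 16071264) (b (l 16078528) (l 16084024))) (b (l 16092928) (b (l 16065176) (l 16081904)))))) (b (c (b (c (l 15991272) (l 16016576)) (c (l 16033400) (l 16043368))) (b (l 16043864) (l 15898592)))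 (c (c (b (l 16162536) (b (l 16114016) (l 16180072))) (b (l 16115056) (b (l 16097296) (l 16135536)))) (c (b (l 16090960) (b (l 16080912) (l 16110368))) (b (l 16111296) (b (l 16064856) (l 16125592))))))))), by decide +kernel⟩

theorem s8_pp_012_a : ∃ t, chk3 f_pp_012_a t 3 3 1 = true := ex3_a k6_pp_012_a k7_pp_012_a

theorem s9_pp_012_a : ∃ t, chk3 f_pp_012_a t 3 1 1 = true := ex3_b k5_pp_012_a s8_pp_012_a

theorem s10_pp_012_a : ∃ t, chk3 f_pp_012_a t 5 3 1 = true := ex3_a k3_pp_012_a k4_pp_012_a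

theorem s11_pp_012_a : ∃ t, chk3 f_pp_012_a t 4 3 1 = true := ex3_b k1_pp_012_a k2_pp_012_a

theorem s12_pp_012_a : ∃ t, chk3 f_pp_012_a t 2 3 1 = true := ex3_a s11_pp_012_a s10_pp_012_a

theorem s13_pp_012_a : ∃ t, chk3 f_pp_012_a t 2 1 1 = true := ex3_b k0_pp_012_a s12_pp_012_a

theorem s14_pp_012_a : ∃ t, chk3 f_pp_012_a t 1 1 1 = true := ex3_a s13_pp_012_a s9_pp_012_a

theorem c_pp_012_a : CertB 0 536870912 0 536870912 858993459 64424510 3 eng mog cd2q0 cd1q2a pd1 false true true .pnp 0 1 2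
    ndB2q0 ndB1q2a pcB1 Cut.none Ext.none :=
  certB0 (fam := false) (s1 := true) (s2 := true) (a := 0) (b := 1) (c := 2) (cn := .pnp) (n1 := ndB2q0) (n2 := ndB1q2a) (pc := pcB1) (cut := Cut.none) (xt := Ext.none) (P1 := 0) (W1 := 536870912) (P2 := 0) (W2 := 536870912) (P3 := 858993459) (W3 := 64424510) (N0 := 3) (En := eng) (mo := mog) (C1 := cd2q0) (C2 := cd1q2a) (C3 := pd1)
    rfl s14_pp_012_a

noncomputable def f_pp_012_b : ℕ → ℕ → ℕ → ℕ → Bool := onCell 0 536870912 1239849684 370763052 858993459 64424510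
    (rowB 3 eng mog cd2q0 cd1q2b pd1 0 false true true .pnp 0 1 2 (qsf 0 536870912 1239849684 370763052 1) ndB2q0 ndB1q2b pcB1 Cut.none Ext.none)

def k0_pp_012_b : ∃ t, chk3 f_pp_012_b t 1 1 1 = true :=
  ⟨(a (b (a (l 2) (a (b (b (a (a (l 2) (b (l 15989160) (l 2))) (a (b (l 15989944) (l 2)) (l 15924808))) (l 2)) (l 2)) (b (a (b (a (l 15949160) (l 15952872)) (a (l 15764240) (l 15771168))) (b (a (l 15943168) (l 15915984)) (a (l 15765584) (l 15743648)))) (a (l 2) (b (a (l 2) (l 15561600)) (l 2)))))) (l 2)) (b (a (a (b (b (a (c (l 15914512) (l 15837352)) (l 16077408)) (a (l 15712224) (l 15673072))) (b (a (l 15538168) (l 15510648)) (a (l 2) (l 15339000)))) (b (c (b (l 15791896) (l 15683200)) (b (l 15887848) (l 15552848))) (b (a (l 15485856) (l 15463768)) (a (l 15326504) (l 15316456))))) (b (a (c (b (l 15716648) (l 15623320)) (b (l 15708528) (l 15498880))) (c (b (l 15670760) (l 15588080)) (b (l 15597912) (l 15468712)))) (a (b (c (l 15523600) (l 15345960)) (l 15515888))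 (c (l 15456440) (b (l 15334096) (l 15195600)))))) (a (b (a (l 2) (b (a (l 15158752) (l 15161792)) (a (l 2) (l 14999384)))) (l 2)) (b (a (c (l 15240520) (l 15153448)) (c (l 15267488) (l 14982352))) (a (b (l 14879752) (l 2)) (b (l 14951080) (l 14828096))))))), by decide +kernel⟩

theorem c_pp_012_b : CertB 0 536870912 1239849684 370763052 858993459 64424510 3 eng mog cd2q0 cd1q2b pd1 false true true .pnp 0 1 2
    ndB2q0 ndB1q2b pcB1 Cut.none Ext.none :=
  certB0 (fam := false) (s1 := true) (s2 := true) (a := 0) (b := 1) (c := 2) (cn := .pnp) (n1 := ndB2q0) (n2 := ndB1q2b) (pc := pcB1) (cut := Cut.none) (xt := Ext.none) (P1 := 0) (W1 := 536870912) (P2 := 1239849684) (W2 := 370763052) (P3 := 858993459) (W3 := 64424510) (N0 := 3) (En := eng) (mo := mog) (C1 := cd2q0) (C2 := cd1q2b) (C3 := pd1)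
    rfl k0_pp_012_b

noncomputable def f_pp_022_a : ℕ → ℕ → ℕ → ℕ → Bool := onCell 0 536870912 0 536870912 858993459 64424510
    (rowB 3 eng mog cd2q0 cd1q2a pd2 0 false true true .pp 0 2 2 (qsf 0 536870912 0 536870912 2) ndB2q0 ndB1q2a pcB2 Cut.none Ext.none)

def k0_pp_022_a : ∃ t, chk3 f_pp_022_a t 2 2 1 = true :=
  ⟨(a (b (b (a (a (c (l 16382872) (l 16311712)) (l 16414272)) (a (c (l 16488960) (l 16518928)) (a (l 16413512) (a (l 16353816) (l 16317144))))) (a (a (c (l 16379272) (l 16315136)) (c (l 16444888) (l 16395344))) (a (l 16293336) (a (l 16370048) (a (l 16383744) (b (l 16355240) (l 16355880))))))) (a (c (a (b (l 16371872) (a (l 16344328) (l 16453208))) (b (l 16467544) (l 16512032))) (a (b (l 16268448) (a (l 16340144) (l 16392032))) (b (l 16421336) (l 16467856)))) (a (b (c (l 16514632) (l 16548152)) (c (l 16351208) (l 16399336))) (a (b (l 16347152) (c (l 16420936) (l 16420960))) (b (a (l 16378088) (c (l 16354360) (l 16340096))) (a (b (l 16366880) (l 16355360))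 (b (l 16333152) (l 297996226327)))))))) (a (a (b (a (b (l 16266200) (a (l 16424144) (l 16411056))) (b (l 16244512) (a (l 16397016) (l 549251853223)))) (a (a (b (l 16354272) (b (l 16317392) (l 16302592))) (b (l 16342336) (b (l 16303464) (l 1)))) (b (c (l 16411008) (l 493954082599)) (l 1)))) (b (b (l 1) (l 1)) (l 1))) (l 1))), by decide +kernel⟩

def k1_pp_022_a : ∃ t, chk3 f_pp_022_a t 2 3 1 = true :=
  ⟨(b (a (a (c (b (a (b (l 16457720) (l 16436656)) (l 16543888)) (a (a (l 16575544) (l 16619672)) (b (l 16589920) (l 16577320)))) (b (a (a (l 16192416) (l 16440368)) (b (l 16520104) (l 16568376))) (a (b (l 16408184) (l 16459376)) (b (l 16627528) (l 16518952))))) (a (b (c (c (l 16296096) (l 16304624)) (c (l 16293624) (l 16284064))) (a (c (b (l 16530888) (l 16513416)) (b (l 16545896) (l 16452376))) (b (c (l 16452912) (l 16448088)) (c (l 521334704199) (l 285647813511))))) (a (b (b (l 16318984) (a (l 16385304) (l 512207815543))) (b (c (l 490196003799) (l 330744880727)) (l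 1))) (b (b (a (l 16339224) (c (l 16316776) (l 16286736))) (l 1)) (l 1))))) (l 1)) (a (a (b (a (c (b (l 16526880) (a (l 16607296) (l 16577672))) (b (l 16502104) (c (l 16477904) (l 16445008)))) (b (a (c (l 16570280) (l 16587920)) (c (l 16543768) (l 16505328))) (a (c (l 16548432) (l 16437784)) (b (l 279742516199) (a (l 491806926087) (l 1)))))) (a (b (a (b (c (l 16590432) (l 16572448)) (c (l 16581896) (l 16571064))) (b (c (l 16557240) (l 16545296)) (b (l 16491096) (a (l 16529904) (l 16509952))))) (b (a (c (a (b (l 16591024) (l 16589120)) (l 16561656)) (l 16551488)) (a (b (a (l 16525136) (l 16511048)) (l 1)) (l 1))) (a (c (a (b (l 16586992) (l 16584640)) (b (l 16558088) (l 1))) (c (l 135324420919) (l 100427720535))) (l 1)))) (b (a (b (c (l 395170188935) (l 16478520)) (l 1)) (l 1)) (l 1)))) (a (b (b (a (c (l 281889848551) (l 270615489255)) (l 1)) (l 1)) (l 1)) (l 1))) (l 1))), by decide +kernel⟩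

def k2_pp_022_a : ∃ t, chk3 f_pp_022_a t 3 1 1 = true :=
  ⟨(l 1), by decide +kernel⟩

theorem s3_pp_022_a : ∃ t, chk3 f_pp_022_a t 2 1 1 = true := ex3_b k0_pp_022_a k1_pp_022_a

theorem s4_pp_022_a : ∃ t, chk3 f_pp_022_a t 1 1 1 = true := ex3_a s3_pp_022_a k2_pp_022_a

theorem c_pp_022_a : CertB 0 536870912 0 536870912 858993459 64424510 3 eng mog cd2q0 cd1q2a pd2 false true true .pp 0 2 2
    ndB2q0 ndB1q2a pcB2 Cut.none Ext.none :=
  certB0 (fam := false) (s1 := true) (s2 := true) (a := 0) (b := 2) (c := 2) (cn := .pp) (n1 := ndB2q0) (n2 := ndB1q2a) (pc := pcB2) (cut := Cut.none) (xt := Ext.none) (P1 := 0) (W1 := 536870912) (P2 := 0) (W2 := 536870912) (P3 := 858993459) (W3 := 64424510) (N0 := 3) (En := eng) (mo := mog) (C1 := cd2q0) (C2 := cd1q2a) (C3 := pd2)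
    rfl s4_pp_022_a

noncomputable def f_pp_022_b : ℕ → ℕ → ℕ → ℕ → Bool := onCell 0 536870912 1239849684 370763052 858993459 64424510
    (rowB 3 eng mog cd2q0 cd1q2b pd2 0 false true true .pp 0 2 2 (qsf 0 536870912 1239849684 370763052 2) ndB2q0 ndB1q2b pcB2 Cut.none Ext.none)

def k0_pp_022_b : ∃ t, chk3 f_pp_022_b t 2 1 1 = true :=
  ⟨(b (a (b (a (b (a (c (b (l 16373936) (l 16345976)) (l 16278912)) (c (l 16410144) (l 16349736))) (a (c (l 16300736) (l 16213008)) (l 16149176))) (a (b (c (l 16417840) (l 16470256)) (c (l 16313776) (l 16376896))) (a (b (c (l 16331744) (l 16358440)) (l 16137376)) (b (a (l 16141176) (b (l 16271152) (l 16235296))) (a (l 16216232) (l 16186288)))))) (b (a (c (l 16249688) (l 16175856)) (a (l 16255480) (a (l 16192760) (l 15954408)))) (a (c (l 16161248) (l 16095304)) (a (l 16177840) (a (l 16132328) (l 16010120)))))) (a (a (b (a (b (c (l 16332224) (l 16197872)) (l 15949984)) (b (b (l 16280016) (l 16164504)) (l 16100608))) (b (a (l 16106920)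 (l 16073368)) (a (l 16063640) (l 16034592)))) (b (a (b (b (l 16170752) (l 16120488)) (l 16122896)) (b (b (l 16100936) (l 16073928)) (l 16037704))) (b (a (l 16037192) (l 15998296)) (l 15819312)))) (b (a (b (a (l 517576072695) (l 1)) (a (l 15991760) (l 15943088))) (b (l 1) (a (l 15941456) (l 15792896)))) (b (a (a (l 15956632) (l 15912176)) (a (l 15853792) (l 15776768))) (a (l 15975072) (l 15889296)))))) (a (b (a (a (b (l 16016128) (l 15918704)) (b (l 16067472) (l 15971872))) (a (b (l 16110432) (l 16051800)) (a (b (l 16082504) (l 16042472)) (b (l 16054904) (l 16026296))))) (a (b (a (l 15818224) (l 15874464)) (a (l 15718480) (l 15778856))) (a (b (l 15994872) (l 15902744)) (a (l 15995992) (l 16166632))))) (a (b (a (b (l 16019480) (l 15997384)) (b (l 15963712) (l 15949416))) (a (b (l 15985296) (l 15981016)) (b (l 15945464) (l 15951208)))) (b (a (b (l 15897352) (l 15891320)) (b (l 15804144) (l 15811232))) (a (b (l 15894584) (l 15908344)) (b (l 15827224) (l 15852608))))))),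 by decide +kernel⟩

def k1_pp_022_b : ∃ t, chk3 f_pp_022_b t 3 1 1 = true :=
  ⟨(b (a (b (l 1) (b (a (a (l 15696080) (l 605621852247)) (l 1)) (a (a (l 15660240) (l 15501360)) (a (l 15332256) (l 1))))) (l 1)) (b (a (a (b (a (l 15676280) (l 15533064)) (c (l 15680648) (l 15597064))) (b (a (l 15377864) (l 15214528)) (l 15611320))) (a (b (l 1) (l 643738820871)) (l 1))) (a (a (b (l 15639664) (l 15732944)) (b (l 15433048) (l 15514904))) (a (b (l 15143856) (l 15252192)) (b (l 685614347527) (l 14970304)))))), by decide +kernel⟩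

theorem s2_pp_022_b : ∃ t, chk3 f_pp_022_b t 1 1 1 = true := ex3_a k0_pp_022_b k1_pp_022_b

theorem c_pp_022_b : CertB 0 536870912 1239849684 370763052 858993459 64424510 3 eng mog cd2q0 cd1q2b pd2 false true true .pp 0 2 2
    ndB2q0 ndB1q2b pcB2 Cut.none Ext.none :=
  certB0 (fam := false) (s1 := true) (s2 := true) (a := 0) (b := 2) (c := 2) (cn := .pp) (n1 := ndB2q0) (n2 := ndB1q2b) (pc := pcB2) (cut := Cut.none) (xt := Ext.none) (P1 := 0) (W1 := 536870912) (P2 := 1239849684) (W2 := 370763052) (P3 := 858993459) (W3 := 64424510) (N0 := 3) (En := eng) (mo := mog) (C1 := cd2q0) (C2 := cd1q2b) (C3 := pd2)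
    rfl s2_pp_022_b

noncomputable def f_pp_023 : ℕ → ℕ → ℕ → ℕ → Bool := onCell 0 536870912 1610612736 536870912 858993459 64424510
    (rowB 3 eng mog cd2q0 cd1q3 pd2 0 false true true .up 0 2 3 (qsf 0 536870912 1610612736 536870912 2) ndB2q0 ndB1q3 pcB2 Cut.none Ext.none)

def k0_pp_023 : ∃ t, chk3 f_pp_023 t 1 1 1 = true :=
  ⟨(a (b (a (b (a (b (a (l 15780600) (l 15700920)) (b (l 15582272) (l 2))) (a (b (l 15829656) (l 15729528)) (b (a (l 15919024) (l 15944016)) (a (l 15870288) (l 15935072))))) (a (l 2) (a (l 2) (b (a (l 2) (l 15901376)) (l 2))))) (b (a (a (b (l 15941512) (l 15952936)) (b (l 15922616) (l 15954168))) (b (a (l 15889840) (l 15848176)) (a (l 15937352) (l 15916008)))) (a (b (a (l 15955136) (l 15993528)) (l 4)) (b (a (l 16002672) (l 16007688)) (l 4))))) (l 4)) (b (b (b (a (a (c (l 15788992) (l 15715176)) (c (l 15635208) (l 15506384))) (a (c (l 15439672) (l 15242944)) (l 15097832))) (a (a (l 15857960) (c (l 15763304) (l 15659816))) (a (c (l 15599448)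 (l 15441664)) (l 15306032)))) (a (b (a (l 15989424) (l 15885976)) (a (l 16133768) (l 16081240))) (b (a (b (l 15672424) (l 15779976)) (c (l 15620808) (l 15445104))) (a (l 15953992) (b (l 15723072) (l 15854952)))))) (a (l 4) (b (b (a (l 4) (l 16064328)) (l 4)) (l 4))))), by decide +kernel⟩

theorem c_pp_023 : CertB 0 536870912 1610612736 536870912 858993459 64424510 3 eng mog cd2q0 cd1q3 pd2 false true true .up 0 2 3
    ndB2q0 ndB1q3 pcB2 Cut.none Ext.none :=
  certB0 (fam := false) (s1 := true) (s2 := true) (a := 0) (b := 2) (c := 3) (cn := .up) (n1 := ndB2q0) (n2 := ndB1q3) (pc := pcB2) (cut := Cut.none) (xt := Ext.none) (P1 := 0) (W1 := 536870912) (P2 := 1610612736) (W2 := 536870912) (P3 := 858993459) (W3 := 64424510) (N0 := 3) (En := eng) (mo := mog) (C1 := cd2q0) (C2 := cd1q3) (C3 := pd2)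
    rfl k0_pp_023

noncomputable def f_pp_033 : ℕ → ℕ → ℕ → ℕ → Bool := onCell 0 536870912 1610612736 536870912 858993459 64424510
    (rowB 3 eng mog cd2q0 cd1q3 pd3 1 false true true .pnn 0 3 3 (qsf 0 536870912 1610612736 536870912 3) ndB2q0 ndB1q3 pcB3 Cut.none Ext.none)

def k0_pp_033 : ∃ t, chk3 f_pp_033 t 1 1 1 = true :=
  ⟨(a (b (a (b (a (b (c (b (l 15586040) (l 15572304)) (l 15543616)) (b (l 15525080) (l 15501992))) (a (b (l 15712584) (l 15660896)) (b (a (l 15840816) (l 15916280)) (a (l 15794632) (l 4))))) (a (b (b (l 15481464) (l 4)) (l 4)) (l 4))) (b (a (b (a (l 15955776) (l 15998544)) (l 4)) (l 4)) (l 4))) (a (l 4) (b (l 4) (a (b (l 4) (l 2)) (l 2))))) (b (a (l 4) (b (l 4) (a (b (l 4) (l 2)) (l 2)))) (a (b (a (b (l 4) (l 2)) (l 2)) (l 2)) (l 2)))), by decide +kernel⟩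

theorem c_pp_033 : CertB 0 536870912 1610612736 536870912 858993459 64424510 3 eng mog cd2q0 cd1q3 pd3 false true true .pnn 0 3 3
    ndB2q0 ndB1q3 pcB3 Cut.none Ext.none :=
  certB1 (fam := false) (s1 := true) (s2 := true) (a := 0) (b := 3) (c := 3) (cn := .pnn) (n1 := ndB2q0) (n2 := ndB1q3) (pc := pcB3) (cut := Cut.none) (xt := Ext.none) (P1 := 0) (W1 := 536870912) (P2 := 1610612736) (W2 := 536870912) (P3 := 858993459) (W3 := 64424510) (N0 := 3) (En := eng) (mo := mog) (C1 := cd2q0) (C2 := cd1q3) (C3 := pd3)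
    rfl (fun _ => rfl) k0_pp_033

noncomputable def f_pp_101 : ℕ → ℕ → ℕ → ℕ → Bool := onCell 536870912 536870912 536870912 536870912 858993459 64424510
    (rowB 3 eng mog cd2q1 cd1q1 pd0 0 false true true .npn 1 0 1 (qsf 536870912 536870912 536870912 536870912 0) ndB2q1 ndB1q1 pcB0 Cut.none Ext.none)

def k0_pp_101 : ∃ t, chk3 f_pp_101 t 1 1 1 = true :=
  ⟨(l 3), by decide +kernel⟩

theorem c_pp_101 : CertB 536870912 536870912 536870912 536870912 858993459 64424510 3 eng mog cd2q1 cd1q1 pd0 false true true .npn 1 0 1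
    ndB2q1 ndB1q1 pcB0 Cut.none Ext.none :=
  certB0 (fam := false) (s1 := true) (s2 := true) (a := 1) (b := 0) (c := 1) (cn := .npn) (n1 := ndB2q1) (n2 := ndB1q1) (pc := pcB0) (cut := Cut.none) (xt := Ext.none) (P1 := 536870912) (W1 := 536870912) (P2 := 536870912) (W2 := 536870912) (P3 := 858993459) (W3 := 64424510) (N0 := 3) (En := eng) (mo := mog) (C1 := cd2q1) (C2 := cd1q1) (C3 := pd0)
    rfl k0_pp_101

noncomputable def cut_pp_102_a : Cut := Cut.of [[⟨0, 1, 0, 67108864⟩, ⟨1, 0, 0, 67108864⟩, ⟨2, 1, 0, 67108864⟩]]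

noncomputable def f_pp_102_a : ℕ → ℕ → ℕ → ℕ → Bool := onCell 0 536870912 0 536870912 858993459 64424510
    (rowB 3 eng mog cd2q1 cd1q2a pd0 2 false true true .npp 1 0 2 (qsf 536870912 536870912 0 536870912 0) ndB2q1 ndB1q2a pcB0 cut_pp_102_a Ext.none)

def k0_pp_102_a : ∃ t, chk3 f_pp_102_a t 2 2 1 = true :=
  ⟨(a (b (l 2) (a (l 2) (a (l 2) (a (l 2) (b (l 2) (a (l 2) (b (l 2) (l 15791288)))))))) (a (b (a (a (l 2) (b (l 15410792) (b (l 15553496) (l 15546528)))) (a (b (c (l 15491568) (l 15401152)) (l 15545712)) (b (l 15602696) (l 15573400)))) (a (a (b (a (l 2) (l 15621120)) (b (l 15725224) (l 15807752))) (b (l 15640984) (l 15914904))) (b (a (l 15665696) (l 15689824)) (a (l 15810776) (l 15831848))))) (b (a (b (a (l 15504880) (l 15532512)) (l 15612760)) (a (l 15595200) (l 15595712))) (a (b (l 15809392) (l 16093440)) (b (l 15753152) (l 16057144)))))), by decide +kernel⟩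

def k1_pp_102_a : ∃ t, chk3 f_pp_102_a t 4 6 1 = true :=
  ⟨(a (l 2) (a (b (l 2) (a (b (l 2) (a (l 2) (l 16212296))) (b (l 16203064) (b (l 16177360) (l 16232712))))) (b (a (b (l 15891656) (l 16112672)) (a (b (l 15883432) (l 15980888)) (b (l 15882320) (l 15980616)))) (a (b (l 16089520) (l 16220480)) (b (a (l 16085632) (l 16086088)) (a (l 16197520) (l 16198592))))))), by decide +kernel⟩

def k2_pp_102_a : ∃ t, chk3 f_pp_102_a t 4 7 1 = true :=
  ⟨(a (b (a (l 2) (b (a (l 2) (a (l 2) (b (l 2) (l 16357776)))) (a (l 6) (a (l 6) (b (l 16413424) (l 16470664)))))) (a (l 6) (a (l 6) (a (l 6) (a (l 6) (b (b (l 16529064) (l 16625040)) (b (c (l 16649952) (l 16620048)) (b (b (l 16627016) (l 16640536)) (c (l 16683128) (l 16689880)))))))))) (a (b (b (a (a (b (l 16300088) (l 16355720)) (l 16320976)) (a (l 16320240) (l 16317880))) (a (b (a (l 16411416) (l 16408280)) (a (l 16468680) (l 16466416))) (b (l 16405424) (c (l 16464952) (l 16419168))))) (b (a (c (b (a (l 16544896) (l 16541352))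 (l 16614056)) (b (a (l 16506264) (l 16501256)) (l 16557272))) (b (c (l 16535520) (l 16493304)) (c (l 16583024) (l 16544416)))) (a (b (c (c (l 16649936) (l 16593344)) (a (l 16551480) (l 16607096))) (c (b (l 16638680) (a (l 16655192) (l 16666944))) (b (a (l 16655568) (l 16647672)) (c (l 16686536) (l 16629808))))) (b (c (l 16610216) (l 16533568)) (a (c (l 16620248) (l 16622160)) (c (l 16632008) (l 16645968))))))) (b (b (a (b (l 16286232) (l 16345312)) (c (l 16345296) (l 16286048))) (a (b (l 16404952) (b (l 16446424) (l 16470864))) (b (a (l 16404656) (l 16403920)) (l 16451632)))) (b (a (b (l 16505920) (a (l 16535280) (l 16529952))) (c (l 16541848) (l 16549552))) (b (c (a (l 16619840) (l 16609064)) (a (l 16562096) (l 16549760))) (c (a (b (l 16655256) (l 16613288)) (b (l 16643312) (l 16614856))) (a (b (l 16621800) (l 16648000)) (l 16600344)))))))), by decide +kernel⟩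

def k3_pp_102_a : ∃ t, chk3 f_pp_102_a t 5 3 1 = true :=
  ⟨(a (b (a (b (a (b (l 15897384) (l 16015072)) (b (l 15916856) (l 16011488))) (a (b (l 16097816) (l 16208344)) (b (l 16112864) (l 16220752)))) (b (a (l 16129352) (l 16041672)) (a (l 16232896) (l 16213672)))) (b (a (a (b (l 16366712) (a (l 16478824) (l 16425480))) (b (l 16374344) (l 16423216))) (b (b (l 16316952) (l 16360904)) (c (l 16444816) (l 16388032)))) (c (a (b (b (l 16511432) (l 16552992)) (b (l 16595160) (a (l 16578624) (l 16579784)))) (b (l 16518592) (a (b (l 16580104) (l 16581688)) (l 16467720)))) (b (a (b (l 16462744) (l 16508576)) (l 16365160)) (a (b (l 16555368) (a (l 16609016) (l 16596520))) (b (l 16533296) (l 16555392))))))) (b (b (a (b (l 15980536) (l 16067408)) (a (l 16022976) (l 16052288))) (a (b (l 16160040) (l 16257232)) (b (l 16180496) (c (l 16303048) (l 16232048))))) (b (a (b (b (l 16323120) (l 16357472)) (c (l 16436808) (l 16377664))) (b (l 16337232) (l 16398432))) (a (a (b (l 16386152)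 (c (l 16449328) (l 16535184))) (b (l 16411664) (c (l 16452000) (l 16521392)))) (b (c (l 16486536) (l 16432568)) (c (b (l 16518344) (l 16499272)) (l 16500368))))))), by decide +kernel⟩

def k4_pp_102_a : ∃ t, chk3 f_pp_102_a t 3 1 1 = true :=
  ⟨(b (a (b (a (a (l 15789392) (l 15697464)) (a (l 15653680) (l 15657136))) (a (a (b (l 15766008) (l 15926712)) (b (l 15784960) (l 15926720))) (b (a (l 15808248) (l 15835032)) (c (l 16022720) (l 15880704))))) (b (a (a (l 15686096) (l 15718992)) (a (l 15755280) (l 15794496))) (b (a (a (l 15864640) (l 15896504)) (l 15947600)) (a (a (l 16004992) (l 16034024)) (c (l 16141384) (l 16012144)))))) (a (b (a (b (a (a (l 16061568) (l 16071552)) (c (l 16133896) (l 16038456))) (a (b (l 16198440) (b (l 16261664) (l 16291680))) (b (l 16133336) (l 16278824)))) (b (c (l 15918048) (a (l 16059752) (l 16082824))) (b (a (l 16209648) (l 16240104)) (l 16278696)))) (b (a (b (l 16329920) (a (l 16387072) (l 16374648))) (b (l 16316552) (l 16312184))) (a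 (c (b (l 16458776) (a (l 16369952) (l 16442472))) (b (l 16402592) (a (l 16471896) (l 16443000)))) (c (b (l 16415384) (a (l 16412048) (l 16383392))) (a (l 16351680) (l 16368184)))))) (b (a (a (b (l 16158720) (l 16261320)) (b (l 16181112) (l 16263424))) (b (b (l 16180352) (l 16234200)) (l 16263904))) (a (c (b (l 16340936) (b (l 16366352) (a (l 16355920) (l 16329032)))) (b (l 16279600) (b (l 16318512) (l 16319368)))) (b (a (l 16294640) (l 16282784)) (a (b (l 16310896) (l 16189008)) (b (l 16288584) (l 16284432)))))))), by decide +kernel⟩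

theorem s5_pp_102_a : ∃ t, chk3 f_pp_102_a t 4 3 1 = true := ex3_b k1_pp_102_a k2_pp_102_a

theorem s6_pp_102_a : ∃ t, chk3 f_pp_102_a t 2 3 1 = true := ex3_a s5_pp_102_a k3_pp_102_a

theorem s7_pp_102_a : ∃ t, chk3 f_pp_102_a t 2 1 1 = true := ex3_b k0_pp_102_a s6_pp_102_a

theorem s8_pp_102_a : ∃ t, chk3 f_pp_102_a t 1 1 1 = true := ex3_a s7_pp_102_a k4_pp_102_a

theorem c_pp_102_a : CertB 536870912 536870912 0 536870912 858993459 64424510 3 eng mog cd2q1 cd1q2a pd0 false true true .npp 1 0 2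
    ndB2q1 ndB1q2a pcB0 cut_pp_102_a Ext.none :=
  certB2 (fam := false) (s1 := true) (s2 := true) (a := 1) (b := 0) (c := 2) (cn := .npp) (n1 := ndB2q1) (n2 := ndB1q2a) (pc := pcB0) (cut := cut_pp_102_a) (xt := Ext.none) (P1 := 536870912) (W1 := 536870912) (P2 := 0) (W2 := 536870912) (P3 := 858993459) (W3 := 64424510) (N0 := 3) (En := eng) (mo := mog) (C1 := cd2q1) (C2 := cd1q2a) (C3 := pd0)
    rfl (fun _ => rfl) s8_pp_102_a

noncomputable def cut_pp_102_b : Cut := Cut.of [[⟨0, 1, 0, 67108864⟩, ⟨1, 0, 0, 67108864⟩, ⟨2, 1, 0, 67108864⟩]]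

noncomputable def f_pp_102_b : ℕ → ℕ → ℕ → ℕ → Bool := onCell 0 536870912 1239849684 370763052 858993459 64424510
    (rowB 3 eng mog cd2q1 cd1q2b pd0 2 false true true .npp 1 0 2 (qsf 536870912 536870912 1239849684 370763052 0) ndB2q1 ndB1q2b pcB0 cut_pp_102_b Ext.none)

def k0_pp_102_b : ∃ t, chk3 f_pp_102_b t 1 1 1 = true :=
  ⟨(a (b (a (l 2) (b (b (a (a (a (l 2) (l 15248008)) (a (l 15282392) (l 15317872))) (a (a (l 15354144) (l 15391280)) (l 15409344))) (a (l 2) (a (a (l 15132096) (l 15172832)) (l 15198376)))) (a (l 2) (a (l 2) (a (l 2) (l 14872704)))))) (l 2)) (a (b (a (b (a (c (l 15386216) (l 15240616)) (l 15414672)) (a (c (l 14968536) (l 14825264)) (l 14954784))) (b (a (l 15354184) (l 15383376)) (a (l 14975928) (l 15022184)))) (a (l 2) (b (a (l 14573752) (l 14639992)) (l 2)))) (b (a (b (c (l 15548728) (l 15320920)) (a (l 15072216) (l 15125816))) (b (c (l 15642048) (l 15399848)) (c (l 15340440) (l 15080392)))) (a (b (a (l 14708616) (l 14779264)) (a (l 2) (l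 14423336))) (b (l 15120808) (l 14709472)))))), by decide +kernel⟩

theorem c_pp_102_b : CertB 536870912 536870912 1239849684 370763052 858993459 64424510 3 eng mog cd2q1 cd1q2b pd0 false true true .npp 1 0 2
    ndB2q1 ndB1q2b pcB0 cut_pp_102_b Ext.none :=
  certB2 (fam := false) (s1 := true) (s2 := true) (a := 1) (b := 0) (c := 2) (cn := .npp) (n1 := ndB2q1) (n2 := ndB1q2b) (pc := pcB0) (cut := cut_pp_102_b) (xt := Ext.none) (P1 := 536870912) (W1 := 536870912) (P2 := 1239849684) (W2 := 370763052) (P3 := 858993459) (W3 := 64424510) (N0 := 3) (En := eng) (mo := mog) (C1 := cd2q1) (C2 := cd1q2b) (C3 := pd0)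
    rfl (fun _ => rfl) k0_pp_102_b

noncomputable def f_pp_112_a : ℕ → ℕ → ℕ → ℕ → Bool := onCell 536870912 536870912 0 536870912 858993459 64424510
    (rowB 3 eng mog cd2q1 cd1q2a pd1 2 false true true .dn 1 1 2 (qsf 536870912 536870912 0 536870912 1) ndB2q1 ndB1q2a pcB1 Cut.none Ext.none)

def k0_pp_112_a : ∃ t, chk3 f_pp_112_a t 1 1 1 = true :=
  ⟨(a (a (b (c (b (a (l 15893096) (l 15857488)) (a (c (l 15942872) (l 15939056)) (c (l 15903736) (l 16002928)))) (b (a (l 15659312) (l 15902992)) (a (c (l 16071392) (l 16189584)) (c (l 16111184) (l 16223208))))) (b (a (c (b (c (b (l 15916400) (l 16140312)) (a (l 16059288) (l 16078752))) (c (a (l 16018936) (l 16033328)) (l 15941888))) (b (c (l 16211376) (l 16341432)) (c (l 16239240) (l 16325624)))) (c (b (c (b (l 15955000) (l 15988656)) (l 16073248)) (c (a (l 16042328) (l 16046144)) (l 16134488))) (b (c (l 16221928) (l 16329392)) (c (l 16227136) (l 16306456))))) (a (a (b (c (c (l 16097576) (l 16183296)) (l 16035144)) (c (b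 (l 16198688) (c (l 16211696) (l 16226888))) (b (l 16272496) (l 16253856)))) (b (c (c (l 16222344) (l 16177216)) (l 16187256)) (b (c (l 16182640) (l 16247248)) (l 1)))) (a (a (b (c (l 144450692727) (l 16256560)) (l 1)) (l 1)) (l 1))))) (b (a (b (c (l 15878064) (l 15977736)) (a (c (l 459593939751) (l 16168768)) (l 1))) (l 1)) (b (l 1) (l 1)))) (l 1)), by decide +kernel⟩

theorem c_pp_112_a : CertB 536870912 536870912 0 536870912 858993459 64424510 3 eng mog cd2q1 cd1q2a pd1 false true true .dn 1 1 2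
    ndB2q1 ndB1q2a pcB1 Cut.none Ext.none :=
  certB2 (fam := false) (s1 := true) (s2 := true) (a := 1) (b := 1) (c := 2) (cn := .dn) (n1 := ndB2q1) (n2 := ndB1q2a) (pc := pcB1) (cut := Cut.none) (xt := Ext.none) (P1 := 536870912) (W1 := 536870912) (P2 := 0) (W2 := 536870912) (P3 := 858993459) (W3 := 64424510) (N0 := 3) (En := eng) (mo := mog) (C1 := cd2q1) (C2 := cd1q2a) (C3 := pd1)
    rfl (fun _ => rfl) k0_pp_112_a

noncomputable def f_pp_112_b : ℕ → ℕ → ℕ → ℕ → Bool := onCell 536870912 536870912 1239849684 370763052 858993459 64424510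
    (rowB 3 eng mog cd2q1 cd1q2b pd1 2 false true true .dn 1 1 2 (qsf 536870912 536870912 1239849684 370763052 1) ndB2q1 ndB1q2b pcB1 Cut.none Ext.none)

def k0_pp_112_b : ∃ t, chk3 f_pp_112_b t 1 1 1 = true :=
  ⟨(a (a (b (b (a (c (l 15660096) (l 15674600)) (c (l 15722192) (l 15748256))) (a (c (l 15415392) (l 15374752)) (c (l 15507936) (l 15474992)))) (b (a (l 15290336) (l 15230216)) (a (l 14801632) (l 14967392)))) (b (b (a (c (l 15754632) (l 15778808)) (c (l 15757768) (l 15849344))) (a (c (l 15568120) (l 15532768)) (l 80562362503))) (b (a (l 15321120) (l 15370416)) (a (l 15096568) (l 15181720))))) (b (a (b (l 1) (a (l 255045288631) (l 416106452215))) (l 1)) (a (b (a (l 15375984) (l 15339040)) (a (l 15216496) (l 15199296))) (b (a (l 15264144) (l 1)) (l 195451777527))))), by decide +kernel⟩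

theorem c_pp_112_b : CertB 536870912 536870912 1239849684 370763052 858993459 64424510 3 eng mog cd2q1 cd1q2b pd1 false true true .dn 1 1 2
    ndB2q1 ndB1q2b pcB1 Cut.none Ext.none :=
  certB2 (fam := false) (s1 := true) (s2 := true) (a := 1) (b := 1) (c := 2) (cn := .dn) (n1 := ndB2q1) (n2 := ndB1q2b) (pc := pcB1) (cut := Cut.none) (xt := Ext.none) (P1 := 536870912) (W1 := 536870912) (P2 := 1239849684) (W2 := 370763052) (P3 := 858993459) (W3 := 64424510) (N0 := 3) (En := eng) (mo := mog) (C1 := cd2q1) (C2 := cd1q2b) (C3 := pd1)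
    rfl (fun _ => rfl) k0_pp_112_b

noncomputable def f_pp_113 : ℕ → ℕ → ℕ → ℕ → Bool := onCell 536870912 536870912 1610612736 536870912 858993459 64424510
    (rowB 3 eng mog cd2q1 cd1q3 pd1 2 false true true .nn 1 1 3 (qsf 536870912 536870912 1610612736 536870912 1) ndB2q1 ndB1q3 pcB1 Cut.none Ext.none)

def k0_pp_113 : ∃ t, chk3 f_pp_113 t 1 1 1 = true :=
  ⟨(a (b (a (b (a (c (l 14577024) (l 14362648)) (l 14862984)) (a (l 2) (l 14382104))) (b (a (l 14857640) (l 15000520)) (a (l 14642800) (l 14930976)))) (a (l 2) (b (l 425299054375) (l 2)))) (b (a (b (a (l 15087912) (l 15105432)) (l 15259136)) (b (a (l 15050176) (l 14932872)) (l 15280584))) (a (b (l 16104672) (l 904727438247)) (b (l 16809112) (l 16720376))))), by decide +kernel⟩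

theorem c_pp_113 : CertB 536870912 536870912 1610612736 536870912 858993459 64424510 3 eng mog cd2q1 cd1q3 pd1 false true true .nn 1 1 3
    ndB2q1 ndB1q3 pcB1 Cut.none Ext.none :=
  certB2 (fam := false) (s1 := true) (s2 := true) (a := 1) (b := 1) (c := 3) (cn := .nn) (n1 := ndB2q1) (n2 := ndB1q3) (pc := pcB1) (cut := Cut.none) (xt := Ext.none) (P1 := 536870912) (W1 := 536870912) (P2 := 1610612736) (W2 := 536870912) (P3 := 858993459) (W3 := 64424510) (N0 := 3) (En := eng) (mo := mog) (C1 := cd2q1) (C2 := cd1q3) (C3 := pd1)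
    rfl (fun _ => rfl) k0_pp_113

noncomputable def f_pp_123 : ℕ → ℕ → ℕ → ℕ → Bool := onCell 1073741824 536870912 1610612736 536870912 858993459 64424510
    (rowB 3 eng mog cd2q1 cd1q3 pd2 2 false true true .npn 1 2 3 (qsf 536870912 536870912 1610612736 536870912 2) ndB2q1 ndB1q3 pcB2 Cut.none Ext.none)

def k0_pp_123 : ∃ t, chk3 f_pp_123 t 1 1 1 = true :=
  ⟨(a (b (a (b (a (l 15102496) (l 15278672)) (a (l 15181112) (l 15318736))) (b (a (l 15561632) (l 1)) (a (l 15491192) (l 15662120)))) (a (b (a (l 16141096) (l 15821080)) (a (l 16894976) (l 16863392))) (b (a (l 15824504) (l 15917608)) (a (l 16612880) (l 4))))) (a (b (b (l 1) (a (l 15831840) (l 1))) (b (a (l 16040120) (l 4)) (l 4))) (b (l 1) (l 4)))), by decide +kernel⟩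

theorem c_pp_123 : CertB 536870912 536870912 1610612736 536870912 858993459 64424510 3 eng mog cd2q1 cd1q3 pd2 false true true .npn 1 2 3
    ndB2q1 ndB1q3 pcB2 Cut.none Ext.none :=
  certB2 (fam := false) (s1 := true) (s2 := true) (a := 1) (b := 2) (c := 3) (cn := .npn) (n1 := ndB2q1) (n2 := ndB1q3) (pc := pcB2) (cut := Cut.none) (xt := Ext.none) (P1 := 536870912) (W1 := 536870912) (P2 := 1610612736) (W2 := 536870912) (P3 := 858993459) (W3 := 64424510) (N0 := 3) (En := eng) (mo := mog) (C1 := cd2q1) (C2 := cd1q3) (C3 := pd2)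
    rfl (fun _ => rfl) k0_pp_123

noncomputable def f_pp_133 : ℕ → ℕ → ℕ → ℕ → Bool := onCell 1610612736 536870912 1610612736 536870912 858993459 64424510
    (rowB 3 eng mog cd2q1 cd1q3 pd3 2 false true true .dn 1 3 3 (qsf 536870912 536870912 1610612736 536870912 3) ndB2q1 ndB1q3 pcB3 Cut.none Ext.none)

def k0_pp_133 : ∃ t, chk3 f_pp_133 t 1 1 1 = true :=
  ⟨(a (b (l 1) (a (l 4) (l 1))) (l 1)), by decide +kernel⟩

theorem c_pp_133 : CertB 536870912 536870912 1610612736 536870912 858993459 64424510 3 eng mog cd2q1 cd1q3 pd3 false true true .dn 1 3 3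
    ndB2q1 ndB1q3 pcB3 Cut.none Ext.none :=
  certB2 (fam := false) (s1 := true) (s2 := true) (a := 1) (b := 3) (c := 3) (cn := .dn) (n1 := ndB2q1) (n2 := ndB1q3) (pc := pcB3) (cut := Cut.none) (xt := Ext.none) (P1 := 536870912) (W1 := 536870912) (P2 := 1610612736) (W2 := 536870912) (P3 := 858993459) (W3 := 64424510) (N0 := 3) (En := eng) (mo := mog) (C1 := cd2q1) (C2 := cd1q3) (C3 := pd3)
    rfl (fun _ => rfl) k0_pp_133

noncomputable def f_pp_202_a : ℕ → ℕ → ℕ → ℕ → Bool := onCell 1073741824 536870912 0 536870912 858993459 64424510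
    (rowB 3 eng mog cd2q2 cd1q2a pd0 0 false true true .pp 2 0 2 (qsf 1073741824 536870912 0 536870912 0) ndB2q2 ndB1q2a pcB0 Cut.none Ext.none)

def k0_pp_202_a : ∃ t, chk3 f_pp_202_a t 1 1 1 = true :=
  ⟨(l 3), by decide +kernel⟩

theorem c_pp_202_a : CertB 1073741824 536870912 0 536870912 858993459 64424510 3 eng mog cd2q2 cd1q2a pd0 false true true .pp 2 0 2
    ndB2q2 ndB1q2a pcB0 Cut.none Ext.none :=
  certB0 (fam := false) (s1 := true) (s2 := true) (a := 2) (b := 0) (c := 2) (cn := .pp) (n1 := ndB2q2) (n2 := ndB1q2a) (pc := pcB0) (cut := Cut.none) (xt := Ext.none) (P1 := 1073741824) (W1 := 536870912) (P2 := 0) (W2 := 536870912) (P3 := 858993459) (W3 := 64424510) (N0 := 3) (En := eng) (mo := mog) (C1 := cd2q2) (C2 := cd1q2a) (C3 := pd0)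
    rfl k0_pp_202_a

noncomputable def f_pp_202_b : ℕ → ℕ → ℕ → ℕ → Bool := onCell 1073741824 536870912 1239849684 370763052 858993459 64424510
    (rowB 3 eng mog cd2q2 cd1q2b pd0 0 false true true .pp 2 0 2 (qsf 1073741824 536870912 1239849684 370763052 0) ndB2q2 ndB1q2b pcB0 Cut.none Ext.none)

def k0_pp_202_b : ∃ t, chk3 f_pp_202_b t 1 1 1 = true :=
  ⟨(l 3), by decide +kernel⟩

theorem c_pp_202_b : CertB 1073741824 536870912 1239849684 370763052 858993459 64424510 3 eng mog cd2q2 cd1q2b pd0 false true true .pp 2 0 2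
    ndB2q2 ndB1q2b pcB0 Cut.none Ext.none :=
  certB0 (fam := false) (s1 := true) (s2 := true) (a := 2) (b := 0) (c := 2) (cn := .pp) (n1 := ndB2q2) (n2 := ndB1q2b) (pc := pcB0) (cut := Cut.none) (xt := Ext.none) (P1 := 1073741824) (W1 := 536870912) (P2 := 1239849684) (W2 := 370763052) (P3 := 858993459) (W3 := 64424510) (N0 := 3) (En := eng) (mo := mog) (C1 := cd2q2) (C2 := cd1q2b) (C3 := pd0)
    rfl k0_pp_202_b

noncomputable def f_pp_203 : ℕ → ℕ → ℕ → ℕ → Bool := onCell 1073741824 536870912 0 536870912 858993459 64424510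
    (rowB 3 eng mog cd2q2 cd1q3 pd0 1 false true true .up 2 0 3 (qsf 1073741824 536870912 1610612736 536870912 0) ndB2q2 ndB1q3 pcB0 Cut.none Ext.none)

def k0_pp_203 : ∃ t, chk3 f_pp_203 t 1 1 1 = true :=
  ⟨(l 3), by decide +kernel⟩

theorem c_pp_203 : CertB 1073741824 536870912 1610612736 536870912 858993459 64424510 3 eng mog cd2q2 cd1q3 pd0 false true true .up 2 0 3
    ndB2q2 ndB1q3 pcB0 Cut.none Ext.none :=
  certB1 (fam := false) (s1 := true) (s2 := true) (a := 2) (b := 0) (c := 3) (cn := .up) (n1 := ndB2q2) (n2 := ndB1q3) (pc := pcB0) (cut := Cut.none) (xt := Ext.none) (P1 := 1073741824) (W1 := 536870912) (P2 := 1610612736) (W2 := 536870912) (P3 := 858993459) (W3 := 64424510) (N0 := 3) (En := eng) (mo := mog) (C1 := cd2q2) (C2 := cd1q3) (C3 := pd0)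
    rfl (fun _ => rfl) k0_pp_203

noncomputable def f_pp_213 : ℕ → ℕ → ℕ → ℕ → Bool := onCell 536870912 536870912 1610612736 536870912 858993459 64424510
    (rowB 3 eng mog cd2q2 cd1q3 pd1 2 false true true .pnn 2 1 3 (qsf 1073741824 536870912 1610612736 536870912 1) ndB2q2 ndB1q3 pcB1 Cut.none Ext.none)

def k0_pp_213 : ∃ t, chk3 f_pp_213 t 1 1 1 = true :=
  ⟨(a (l 3) (a (b (l 3) (l 3)) (b (l 1) (b (a (a (l 3) (l 1)) (l 1)) (a (b (a (l 3) (b (a (a (l 3) (l 1)) (l 1)) (a (a (l 1338049329735) (c (l 650183765831) (l 628708652967))) (c (l 663605660727) (l 637298551863))))) (a (b (c (l 1138333353879) (l 1081961929479)) (c (l 159080797127) (b (l 16445048) (l 16634560)))) (a (b (c (l 16524088) (l 16521984)) (l 16523448)) (b (l 16460784) (l 16562392))))) (b (a (b (l 1) (b (l 1) (a (l 714608114343) (l 1)))) (l 1)) (a (b (a (l 16473960) (l 711387048903)) (c (l 16583152) (l 16576224))) (b (c (l 696354661079) (l 712997539911)) (c (l 16592792) (l 16576448)))))))))), by decide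 +kernel⟩

theorem c_pp_213 : CertB 1073741824 536870912 1610612736 536870912 858993459 64424510 3 eng mog cd2q2 cd1q3 pd1 false true true .pnn 2 1 3
    ndB2q2 ndB1q3 pcB1 Cut.none Ext.none :=
  certB2 (fam := false) (s1 := true) (s2 := true) (a := 2) (b := 1) (c := 3) (cn := .pnn) (n1 := ndB2q2) (n2 := ndB1q3) (pc := pcB1) (cut := Cut.none) (xt := Ext.none) (P1 := 1073741824) (W1 := 536870912) (P2 := 1610612736) (W2 := 536870912) (P3 := 858993459) (W3 := 64424510) (N0 := 3) (En := eng) (mo := mog) (C1 := cd2q2) (C2 := cd1q3) (C3 := pd1)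
    rfl (fun _ => rfl) k0_pp_213

noncomputable def f_pp_303 : ℕ → ℕ → ℕ → ℕ → Bool := onCell 0 1230186008 1610612736 536870912 858993459 64424510
    (rowB 3 eng mog cd2q3 cd1q3 pd0 0 false true true .npn 3 0 3 (qsf 0 1230186008 1610612736 536870912 0) ndB2q3 ndB1q3 pcB0 Cut.none Ext.none)

def k0_pp_303 : ∃ t, chk3 f_pp_303 t 1 1 1 = true :=
  ⟨(a (l 3) (l 3)), by decide +kernel⟩

theorem c_pp_303 : CertB 0 1230186008 1610612736 536870912 858993459 64424510 3 eng mog cd2q3 cd1q3 pd0 false true true .npn 3 0 3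
    ndB2q3 ndB1q3 pcB0 Cut.none Ext.none :=
  certB0 (fam := false) (s1 := true) (s2 := true) (a := 3) (b := 0) (c := 3) (cn := .npn) (n1 := ndB2q3) (n2 := ndB1q3) (pc := pcB0) (cut := Cut.none) (xt := Ext.none) (P1 := 0) (W1 := 1230186008) (P2 := 1610612736) (W2 := 536870912) (P3 := 858993459) (W3 := 64424510) (N0 := 3) (En := eng) (mo := mog) (C1 := cd2q3) (C2 := cd1q3) (C3 := pd0)
    rfl k0_pp_303

noncomputable def f_pp_313 : ℕ → ℕ → ℕ → ℕ → Bool := onCell 0 1230186008 1610612736 536870912 858993459 64424510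
    (rowB 3 eng mog cd2q3 cd1q3 pd1 0 false true true .dn 3 1 3 (qsf 0 1230186008 1610612736 536870912 1) ndB2q3 ndB1q3 pcB1 Cut.none Ext.none)

def k0_pp_313 : ∃ t, chk3 f_pp_313 t 1 1 1 = true :=
  ⟨(a (l 1) (l 3)), by decide +kernel⟩

theorem c_pp_313 : CertB 0 1230186008 1610612736 536870912 858993459 64424510 3 eng mog cd2q3 cd1q3 pd1 false true true .dn 3 1 3
    ndB2q3 ndB1q3 pcB1 Cut.none Ext.none :=
  certB0 (fam := false) (s1 := true) (s2 := true) (a := 3) (b := 1) (c := 3) (cn := .dn) (n1 := ndB2q3) (n2 := ndB1q3) (pc := pcB1) (cut := Cut.none) (xt := Ext.none) (P1 := 0) (W1 := 1230186008) (P2 := 1610612736) (W2 := 536870912) (P3 := 858993459) (W3 := 64424510) (N0 := 3) (En := eng) (mo := mog) (C1 := cd2q3) (C2 := cd1q3) (C3 := pd1)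
    rfl k0_pp_313

noncomputable def f_pm_001 : ℕ → ℕ → ℕ → ℕ → Bool := onCell 0 536870912 536870912 536870912 858993459 64424510
    (rowB 3 eng mog cd2q0 cd1q1 pd0 0 false true false .up 0 0 1 (qsf 0 536870912 536870912 536870912 0) ndB2q0 ndB1q1 pcB0 Cut.none Ext.none)

def k0_pm_001 : ∃ t, chk3 f_pm_001 t 1 1 1 = true :=
  ⟨(l 4), by decide +kernel⟩

theorem c_pm_001 : CertB 0 536870912 536870912 536870912 858993459 64424510 3 eng mog cd2q0 cd1q1 pd0 false true false .up 0 0 1
    ndB2q0 ndB1q1 pcB0 Cut.none Ext.none :=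
  certB0 (fam := false) (s1 := true) (s2 := false) (a := 0) (b := 0) (c := 1) (cn := .up) (n1 := ndB2q0) (n2 := ndB1q1) (pc := pcB0) (cut := Cut.none) (xt := Ext.none) (P1 := 0) (W1 := 536870912) (P2 := 536870912) (W2 := 536870912) (P3 := 858993459) (W3 := 64424510) (N0 := 3) (En := eng) (mo := mog) (C1 := cd2q0) (C2 := cd1q1) (C3 := pd0)
    rfl k0_pm_001

noncomputable def f_pm_011 : ℕ → ℕ → ℕ → ℕ → Bool := onCell 0 536870912 536870912 536870912 858993459 64424510
    (rowB 3 eng mog cd2q0 cd1q1 pd1 0 false true false .pnn 0 1 1 (qsf 0 536870912 536870912 536870912 1) ndB2q0 ndB1q1 pcB1 Cut.none Ext.none)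

def k0_pm_011 : ∃ t, chk3 f_pm_011 t 1 1 1 = true :=
  ⟨(l 4), by decide +kernel⟩

theorem c_pm_011 : CertB 0 536870912 536870912 536870912 858993459 64424510 3 eng mog cd2q0 cd1q1 pd1 false true false .pnn 0 1 1
    ndB2q0 ndB1q1 pcB1 Cut.none Ext.none :=
  certB0 (fam := false) (s1 := true) (s2 := false) (a := 0) (b := 1) (c := 1) (cn := .pnn) (n1 := ndB2q0) (n2 := ndB1q1) (pc := pcB1) (cut := Cut.none) (xt := Ext.none) (P1 := 0) (W1 := 536870912) (P2 := 536870912) (W2 := 536870912) (P3 := 858993459) (W3 := 64424510) (N0 := 3) (En := eng) (mo := mog) (C1 := cd2q0) (C2 := cd1q1) (C3 := pd1)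
    rfl k0_pm_011

noncomputable def f_pm_012_a : ℕ → ℕ → ℕ → ℕ → Bool := onCell 536870912 536870912 0 536870912 858993459 64424510
    (rowB 3 eng mog cd2q0 cd1q2a pd1 2 false true false .pnp 0 1 2 (qsf 0 536870912 0 536870912 1) ndB2q0 ndB1q2a pcB1 Cut.none Ext.none)

def k0_pm_012_a : ∃ t, chk3 f_pm_012_a t 1 1 1 = true :=
  ⟨(b (b (a (a (l 2) (a (l 4) (a (l 15270696) (l 15287152)))) (a (a (a (l 15311320) (l 15342872)) (a (l 15380496) (l 15421920))) (b (a (a (l 15443216) (a (l 15478272) (l 15563232))) (a (a (l 15738088) (c (l 15545888) (l 15460096))) (a (b (l 15505856) (l 15494040)) (b (l 15511368) (l 15494384))))) (a (l 4) (a (l 4) (a (l 15689000) (b (l 15499512) (l 4)))))))) (a (l 4) (l 4))) (a (l 4) (l 4))), by decide +kernel⟩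

theorem c_pm_012_a : CertB 0 536870912 0 536870912 858993459 64424510 3 eng mog cd2q0 cd1q2a pd1 false true false .pnp 0 1 2
    ndB2q0 ndB1q2a pcB1 Cut.none Ext.none :=
  certB2 (fam := false) (s1 := true) (s2 := false) (a := 0) (b := 1) (c := 2) (cn := .pnp) (n1 := ndB2q0) (n2 := ndB1q2a) (pc := pcB1) (cut := Cut.none) (xt := Ext.none) (P1 := 0) (W1 := 536870912) (P2 := 0) (W2 := 536870912) (P3 := 858993459) (W3 := 64424510) (N0 := 3) (En := eng) (mo := mog) (C1 := cd2q0) (C2 := cd1q2a) (C3 := pd1)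
    rfl (fun _ => rfl) k0_pm_012_a

noncomputable def f_pm_012_b : ℕ → ℕ → ℕ → ℕ → Bool := onCell 0 536870912 1239849684 370763052 858993459 64424510
    (rowB 3 eng mog cd2q0 cd1q2b pd1 0 false true false .pnp 0 1 2 (qsf 0 536870912 1239849684 370763052 1) ndB2q0 ndB1q2b pcB1 Cut.none Ext.none)

def k0_pm_012_b : ∃ t, chk3 f_pm_012_b t 1 1 1 = true :=
  ⟨(a (b (a (l 2) (a (b (b (a (a (l 2) (l 15432016)) (a (l 15407728) (l 15405408))) (l 2)) (l 2)) (b (a (b (a (l 15403648) (l 15401472)) (a (l 15178448) (a (l 15181312) (l 15185816)))) (b (a (c (l 15439920) (l 15341776)) (l 15472664)) (a (l 15186008) (l 15172008)))) (l 4)))) (l 2)) (b (b (b (a (a (a (c (l 15402472) (l 15275744)) (c (l 15381840) (l 15226560))) (a (b (l 15305760) (l 15229352)) (l 15361016))) (a (b (l 15226648) (l 4)) (l 4))) (a (a (a (l 19559491415) (l 4)) (l 4)) (l 4))) (l 4)) (l 4))), by decide +kernel⟩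

theorem c_pm_012_b : CertB 0 536870912 1239849684 370763052 858993459 64424510 3 eng mog cd2q0 cd1q2b pd1 false true false .pnp 0 1 2
    ndB2q0 ndB1q2b pcB1 Cut.none Ext.none :=
  certB0 (fam := false) (s1 := true) (s2 := false) (a := 0) (b := 1) (c := 2) (cn := .pnp) (n1 := ndB2q0) (n2 := ndB1q2b) (pc := pcB1) (cut := Cut.none) (xt := Ext.none) (P1 := 0) (W1 := 536870912) (P2 := 1239849684) (W2 := 370763052) (P3 := 858993459) (W3 := 64424510) (N0 := 3) (En := eng) (mo := mog) (C1 := cd2q0) (C2 := cd1q2b) (C3 := pd1)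
    rfl k0_pm_012_b

noncomputable def f_pm_022_a : ℕ → ℕ → ℕ → ℕ → Bool := onCell 0 536870912 0 536870912 858993459 64424510
    (rowB 3 eng mog cd2q0 cd1q2a pd2 0 false true false .pp 0 2 2 (qsf 0 536870912 0 536870912 2) ndB2q0 ndB1q2a pcB2 Cut.none Ext.none)

def k0_pm_022_a : ∃ t, chk3 f_pm_022_a t 1 1 1 = true :=
  ⟨(a (b (a (b (a (a (c (l 16377800) (l 16409624)) (c (l 16261672) (l 16280432))) (a (b (c (l 16095848) (l 16097808)) (a (l 16125200) (l 15976592))) (a (b (l 15901368) (l 15988552)) (b (a (l 15796960) (l 15729936)) (a (l 15756560) (l 15689496)))))) (a (a (b (c (l 16375512) (l 16393400)) (c (l 16569336) (l 49089356567))) (b (c (l 16082624) (l 16131728)) (l 4))) (a (b (a (l 16017896) (l 4)) (l 4)) (l 4)))) (a (b (b (a (a (l 15654360) (l 15550504)) (l 1)) (a (b (a (l 15636656) (l 15513224)) (l 4)) (l 1))) (l 4)) (l 1))) (a (l 4) (l 4))) (l 1)), by decide +kernel⟩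

theorem c_pm_022_a : CertB 0 536870912 0 536870912 858993459 64424510 3 eng mog cd2q0 cd1q2a pd2 false true false .pp 0 2 2
    ndB2q0 ndB1q2a pcB2 Cut.none Ext.none :=
  certB0 (fam := false) (s1 := true) (s2 := false) (a := 0) (b := 2) (c := 2) (cn := .pp) (n1 := ndB2q0) (n2 := ndB1q2a) (pc := pcB2) (cut := Cut.none) (xt := Ext.none) (P1 := 0) (W1 := 536870912) (P2 := 0) (W2 := 536870912) (P3 := 858993459) (W3 := 64424510) (N0 := 3) (En := eng) (mo := mog) (C1 := cd2q0) (C2 := cd1q2a) (C3 := pd2)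
    rfl k0_pm_022_a

noncomputable def f_pm_022_b : ℕ → ℕ → ℕ → ℕ → Bool := onCell 0 536870912 1239849684 370763052 858993459 64424510
    (rowB 3 eng mog cd2q0 cd1q2b pd2 0 false true false .pp 0 2 2 (qsf 0 536870912 1239849684 370763052 2) ndB2q0 ndB1q2b pcB2 Cut.none Ext.none)

def k0_pm_022_b : ∃ t, chk3 f_pm_022_b t 1 1 1 = true :=
  ⟨(a (b (a (b (c (a (b (a (l 16350352) (l 16253288)) (a (l 16285704) (l 16202920))) (a (b (b (l 16104152) (l 16089656)) (l 15839536)) (a (b (l 15928496) (l 15926968)) (b (a (l 15837592) (l 15779112)) (l 16032064))))) (b (a (a (l 16389712) (l 16280576)) (a (a (l 16162224) (l 16044032)) (a (l 15916184) (a (l 15814576) (l 15748712))))) (a (a (l 16324088) (l 16229616)) (a (l 16080240) (a (l 15920200) (l 16034312)))))) (b (a (a (c (l 16226368) (l 16218800)) (c (l 16158632) (l 16181960))) (a (c (l 16051208) (l 16058872)) (a (c (l 15933864) (l 15926496)) (c (l 15972888) (l 15830080))))) (a (a (c (l 16127424) (l 16100032)) (c (l 16121760)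 (l 16145000))) (a (c (l 16042024) (l 16049568)) (l 4))))) (a (b (c (a (b (a (l 15734600) (l 15623472)) (a (l 15735448) (l 15652240))) (b (a (l 15530440) (l 15434488)) (a (l 15566288) (l 15477992)))) (a (b (a (l 15672680) (l 15568056)) (a (l 15705280) (l 15610368))) (b (a (l 15460520) (l 15350120)) (a (l 15512696) (l 15412272))))) (b (a (b (a (l 15746216) (l 15667560)) (l 4)) (l 4)) (l 4))) (b (a (a (b (c (l 15335600) (l 15236976)) (c (l 15387288) (l 15309296))) (b (l 1) (c (l 15294200) (l 15203920)))) (b (l 1) (b (a (l 15126984) (l 1)) (l 4)))) (l 4)))) (a (b (a (b (a (b (l 16024392) (l 4)) (l 4)) (l 4)) (l 4)) (l 4)) (l 4))) (b (b (l 1) (l 4)) (l 4))), by decide +kernel⟩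

theorem c_pm_022_b : CertB 0 536870912 1239849684 370763052 858993459 64424510 3 eng mog cd2q0 cd1q2b pd2 false true false .pp 0 2 2
    ndB2q0 ndB1q2b pcB2 Cut.none Ext.none :=
  certB0 (fam := false) (s1 := true) (s2 := false) (a := 0) (b := 2) (c := 2) (cn := .pp) (n1 := ndB2q0) (n2 := ndB1q2b) (pc := pcB2) (cut := Cut.none) (xt := Ext.none) (P1 := 0) (W1 := 536870912) (P2 := 1239849684) (W2 := 370763052) (P3 := 858993459) (W3 := 64424510) (N0 := 3) (En := eng) (mo := mog) (C1 := cd2q0) (C2 := cd1q2b) (C3 := pd2)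
    rfl k0_pm_022_b

noncomputable def f_pm_023 : ℕ → ℕ → ℕ → ℕ → Bool := onCell 0 536870912 1610612736 536870912 858993459 64424510
    (rowB 3 eng mog cd2q0 cd1q3 pd2 0 false true false .up 0 2 3 (qsf 0 536870912 1610612736 536870912 2) ndB2q0 ndB1q3 pcB2 Cut.none Ext.none)

def k0_pm_023 : ∃ t, chk3 f_pm_023 t 1 1 1 = true :=
  ⟨(a (l 4) (l 4)), by decide +kernel⟩

theorem c_pm_023 : CertB 0 536870912 1610612736 536870912 858993459 64424510 3 eng mog cd2q0 cd1q3 pd2 false true false .up 0 2 3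
    ndB2q0 ndB1q3 pcB2 Cut.none Ext.none :=
  certB0 (fam := false) (s1 := true) (s2 := false) (a := 0) (b := 2) (c := 3) (cn := .up) (n1 := ndB2q0) (n2 := ndB1q3) (pc := pcB2) (cut := Cut.none) (xt := Ext.none) (P1 := 0) (W1 := 536870912) (P2 := 1610612736) (W2 := 536870912) (P3 := 858993459) (W3 := 64424510) (N0 := 3) (En := eng) (mo := mog) (C1 := cd2q0) (C2 := cd1q3) (C3 := pd2)
    rfl k0_pm_023

noncomputable def f_pm_033 : ℕ → ℕ → ℕ → ℕ → Bool := onCell 0 536870912 1610612736 536870912 858993459 64424510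
    (rowB 3 eng mog cd2q0 cd1q3 pd3 0 false true false .pnn 0 3 3 (qsf 0 536870912 1610612736 536870912 3) ndB2q0 ndB1q3 pcB3 Cut.none Ext.none)

def k0_pm_033 : ∃ t, chk3 f_pm_033 t 1 1 1 = true :=
  ⟨(a (l 4) (l 4)), by decide +kernel⟩

theorem c_pm_033 : CertB 0 536870912 1610612736 536870912 858993459 64424510 3 eng mog cd2q0 cd1q3 pd3 false true false .pnn 0 3 3
    ndB2q0 ndB1q3 pcB3 Cut.none Ext.none :=
  certB0 (fam := false) (s1 := true) (s2 := false) (a := 0) (b := 3) (c := 3) (cn := .pnn) (n1 := ndB2q0) (n2 := ndB1q3) (pc := pcB3) (cut := Cut.none) (xt := Ext.none) (P1 := 0) (W1 := 536870912) (P2 := 1610612736) (W2 := 536870912) (P3 := 858993459) (W3 := 64424510) (N0 := 3) (En := eng) (mo := mog) (C1 := cd2q0) (C2 := cd1q3) (C3 := pd3)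
    rfl k0_pm_033

noncomputable def f_pm_101 : ℕ → ℕ → ℕ → ℕ → Bool := onCell 536870912 536870912 536870912 536870912 858993459 64424510
    (rowB 3 eng mog cd2q1 cd1q1 pd0 0 false true false .npn 1 0 1 (qsf 536870912 536870912 536870912 536870912 0) ndB2q1 ndB1q1 pcB0 Cut.none Ext.none)

def k0_pm_101 : ∃ t, chk3 f_pm_101 t 1 1 1 = true :=
  ⟨(l 4), by decide +kernel⟩

theorem c_pm_101 : CertB 536870912 536870912 536870912 536870912 858993459 64424510 3 eng mog cd2q1 cd1q1 pd0 false true false .npn 1 0 1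
    ndB2q1 ndB1q1 pcB0 Cut.none Ext.none :=
  certB0 (fam := false) (s1 := true) (s2 := false) (a := 1) (b := 0) (c := 1) (cn := .npn) (n1 := ndB2q1) (n2 := ndB1q1) (pc := pcB0) (cut := Cut.none) (xt := Ext.none) (P1 := 536870912) (W1 := 536870912) (P2 := 536870912) (W2 := 536870912) (P3 := 858993459) (W3 := 64424510) (N0 := 3) (En := eng) (mo := mog) (C1 := cd2q1) (C2 := cd1q1) (C3 := pd0)
    rfl k0_pm_101

noncomputable def f_pm_102_a : ℕ → ℕ → ℕ → ℕ → Bool := onCell 536870912 536870912 0 536870912 858993459 64424510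
    (rowB 3 eng mog cd2q1 cd1q2a pd0 0 false true false .npp 1 0 2 (qsf 536870912 536870912 0 536870912 0) ndB2q1 ndB1q2a pcB0 Cut.none Ext.none)

def k0_pm_102_a : ∃ t, chk3 f_pm_102_a t 1 1 1 = true :=
  ⟨(b (b (b (a (a (l 2) (a (l 15356464) (l 15278136))) (a (a (l 15165984) (l 15020192)) (a (l 14842344) (a (l 14690328) (l 14580664))))) (a (l 4) (l 4))) (l 4)) (l 4)), by decide +kernel⟩

theorem c_pm_102_a : CertB 536870912 536870912 0 536870912 858993459 64424510 3 eng mog cd2q1 cd1q2a pd0 false true false .npp 1 0 2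
    ndB2q1 ndB1q2a pcB0 Cut.none Ext.none :=
  certB0 (fam := false) (s1 := true) (s2 := false) (a := 1) (b := 0) (c := 2) (cn := .npp) (n1 := ndB2q1) (n2 := ndB1q2a) (pc := pcB0) (cut := Cut.none) (xt := Ext.none) (P1 := 536870912) (W1 := 536870912) (P2 := 0) (W2 := 536870912) (P3 := 858993459) (W3 := 64424510) (N0 := 3) (En := eng) (mo := mog) (C1 := cd2q1) (C2 := cd1q2a) (C3 := pd0)
    rfl k0_pm_102_a

noncomputable def f_pm_102_b : ℕ → ℕ → ℕ → ℕ → Bool := onCell 0 536870912 1239849684 370763052 858993459 64424510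
    (rowB 3 eng mog cd2q1 cd1q2b pd0 2 false true false .npp 1 0 2 (qsf 536870912 536870912 1239849684 370763052 0) ndB2q1 ndB1q2b pcB0 Cut.none Ext.none)

def k0_pm_102_b : ∃ t, chk3 f_pm_102_b t 1 1 1 = true :=
  ⟨(a (a (l 2) (b (a (b (b (l 230414204327) (l 2)) (l 2)) (b (a (l 14568768) (l 14668664)) (l 213770847879))) (l 2))) (a (b (a (b (l 14954240) (l 14507544)) (b (l 14971264) (l 14687688))) (a (l 2) (b (l 14391816) (l 2)))) (b (a (b (l 15106648) (l 14843464)) (b (l 15209216) (l 14968456))) (a (b (l 14570184) (l 14288096)) (b (l 14721656) (l 14473120)))))), by decide +kernel⟩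

theorem c_pm_102_b : CertB 536870912 536870912 1239849684 370763052 858993459 64424510 3 eng mog cd2q1 cd1q2b pd0 false true false .npp 1 0 2
    ndB2q1 ndB1q2b pcB0 Cut.none Ext.none :=
  certB2 (fam := false) (s1 := true) (s2 := false) (a := 1) (b := 0) (c := 2) (cn := .npp) (n1 := ndB2q1) (n2 := ndB1q2b) (pc := pcB0) (cut := Cut.none) (xt := Ext.none) (P1 := 536870912) (W1 := 536870912) (P2 := 1239849684) (W2 := 370763052) (P3 := 858993459) (W3 := 64424510) (N0 := 3) (En := eng) (mo := mog) (C1 := cd2q1) (C2 := cd1q2b) (C3 := pd0)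
    rfl (fun _ => rfl) k0_pm_102_b

noncomputable def f_pm_112_a : ℕ → ℕ → ℕ → ℕ → Bool := onCell 536870912 536870912 0 536870912 858993459 64424510
    (rowB 3 eng mog cd2q1 cd1q2a pd1 0 false true false .dn 1 1 2 (qsf 536870912 536870912 0 536870912 1) ndB2q1 ndB1q2a pcB1 Cut.none Ext.none)

def k0_pm_112_a : ∃ t, chk3 f_pm_112_a t 1 1 1 = true :=
  ⟨(a (b (b (a (b (l 4) (l 4)) (a (l 15359904) (l 1))) (l 4)) (l 4)) (l 1)), by decide +kernel⟩

theorem c_pm_112_a : CertB 536870912 536870912 0 536870912 858993459 64424510 3 eng mog cd2q1 cd1q2a pd1 false true false .dn 1 1 2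
    ndB2q1 ndB1q2a pcB1 Cut.none Ext.none :=
  certB0 (fam := false) (s1 := true) (s2 := false) (a := 1) (b := 1) (c := 2) (cn := .dn) (n1 := ndB2q1) (n2 := ndB1q2a) (pc := pcB1) (cut := Cut.none) (xt := Ext.none) (P1 := 536870912) (W1 := 536870912) (P2 := 0) (W2 := 536870912) (P3 := 858993459) (W3 := 64424510) (N0 := 3) (En := eng) (mo := mog) (C1 := cd2q1) (C2 := cd1q2a) (C3 := pd1)
    rfl k0_pm_112_a

noncomputable def f_pm_112_b : ℕ → ℕ → ℕ → ℕ → Bool := onCell 536870912 536870912 1239849684 370763052 858993459 64424510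
    (rowB 3 eng mog cd2q1 cd1q2b pd1 2 false true false .dn 1 1 2 (qsf 536870912 536870912 1239849684 370763052 1) ndB2q1 ndB1q2b pcB1 Cut.none Ext.none)

def k0_pm_112_b : ∃ t, chk3 f_pm_112_b t 1 1 1 = true :=
  ⟨(b (b (a (a (a (l 15280072) (l 4)) (a (l 4) (l 432212161655))) (l 1)) (a (a (l 4) (l 4)) (l 4))) (a (a (a (l 14736224) (l 4)) (l 4)) (l 4))), by decide +kernel⟩

theorem c_pm_112_b : CertB 536870912 536870912 1239849684 370763052 858993459 64424510 3 eng mog cd2q1 cd1q2b pd1 false true false .dn 1 1 2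
    ndB2q1 ndB1q2b pcB1 Cut.none Ext.none :=
  certB2 (fam := false) (s1 := true) (s2 := false) (a := 1) (b := 1) (c := 2) (cn := .dn) (n1 := ndB2q1) (n2 := ndB1q2b) (pc := pcB1) (cut := Cut.none) (xt := Ext.none) (P1 := 536870912) (W1 := 536870912) (P2 := 1239849684) (W2 := 370763052) (P3 := 858993459) (W3 := 64424510) (N0 := 3) (En := eng) (mo := mog) (C1 := cd2q1) (C2 := cd1q2b) (C3 := pd1)
    rfl (fun _ => rfl) k0_pm_112_b

noncomputable def f_pm_113 : ℕ → ℕ → ℕ → ℕ → Bool := onCell 536870912 536870912 536870912 536870912 858993459 64424510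
    (rowB 3 eng mog cd2q1 cd1q3 pd1 1 false true false .nn 1 1 3 (qsf 536870912 536870912 1610612736 536870912 1) ndB2q1 ndB1q3 pcB1 Cut.none Ext.none)

def k0_pm_113 : ∃ t, chk3 f_pm_113 t 1 1 1 = true :=
  ⟨(b (b (a (l 1) (a (l 4) (l 379597525511))) (a (a (l 1) (l 4)) (a (l 4) (a (l 4) (l 276183063399))))) (a (l 4) (a (l 4) (b (l 15766856) (l 17339888))))), by decide +kernel⟩

theorem c_pm_113 : CertB 536870912 536870912 1610612736 536870912 858993459 64424510 3 eng mog cd2q1 cd1q3 pd1 false true false .nn 1 1 3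
    ndB2q1 ndB1q3 pcB1 Cut.none Ext.none :=
  certB1 (fam := false) (s1 := true) (s2 := false) (a := 1) (b := 1) (c := 3) (cn := .nn) (n1 := ndB2q1) (n2 := ndB1q3) (pc := pcB1) (cut := Cut.none) (xt := Ext.none) (P1 := 536870912) (W1 := 536870912) (P2 := 1610612736) (W2 := 536870912) (P3 := 858993459) (W3 := 64424510) (N0 := 3) (En := eng) (mo := mog) (C1 := cd2q1) (C2 := cd1q3) (C3 := pd1)
    rfl (fun _ => rfl) k0_pm_113

noncomputable def f_pm_123 : ℕ → ℕ → ℕ → ℕ → Bool := onCell 1073741824 536870912 1610612736 536870912 858993459 64424510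
    (rowB 3 eng mog cd2q1 cd1q3 pd2 2 false true false .npn 1 2 3 (qsf 536870912 536870912 1610612736 536870912 2) ndB2q1 ndB1q3 pcB2 Cut.none Ext.none)

def k0_pm_123 : ∃ t, chk3 f_pm_123 t 1 1 1 = true :=
  ⟨(a (b (l 4) (a (b (l 4) (a (l 16788384) (l 4))) (l 4))) (b (l 4) (l 4))), by decide +kernel⟩

theorem c_pm_123 : CertB 536870912 536870912 1610612736 536870912 858993459 64424510 3 eng mog cd2q1 cd1q3 pd2 false true false .npn 1 2 3
    ndB2q1 ndB1q3 pcB2 Cut.none Ext.none :=
  certB2 (fam := false) (s1 := true) (s2 := false) (a := 1) (b := 2) (c := 3) (cn := .npn) (n1 := ndB2q1) (n2 := ndB1q3) (pc := pcB2) (cut := Cut.none) (xt := Ext.none) (P1 := 536870912) (W1 := 536870912) (P2 := 1610612736) (W2 := 536870912) (P3 := 858993459) (W3 := 64424510) (N0 := 3) (En := eng) (mo := mog) (C1 := cd2q1) (C2 := cd1q3) (C3 := pd2)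
    rfl (fun _ => rfl) k0_pm_123

noncomputable def f_pm_133 : ℕ → ℕ → ℕ → ℕ → Bool := onCell 536870912 536870912 1610612736 536870912 858993459 64424510
    (rowB 3 eng mog cd2q1 cd1q3 pd3 0 false true false .dn 1 3 3 (qsf 536870912 536870912 1610612736 536870912 3) ndB2q1 ndB1q3 pcB3 Cut.none Ext.none)

def k0_pm_133 : ∃ t, chk3 f_pm_133 t 1 1 1 = true :=
  ⟨(a (b (l 1) (l 4)) (l 1)), by decide +kernel⟩

theorem c_pm_133 : CertB 536870912 536870912 1610612736 536870912 858993459 64424510 3 eng mog cd2q1 cd1q3 pd3 false true false .dn 1 3 3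
    ndB2q1 ndB1q3 pcB3 Cut.none Ext.none :=
  certB0 (fam := false) (s1 := true) (s2 := false) (a := 1) (b := 3) (c := 3) (cn := .dn) (n1 := ndB2q1) (n2 := ndB1q3) (pc := pcB3) (cut := Cut.none) (xt := Ext.none) (P1 := 536870912) (W1 := 536870912) (P2 := 1610612736) (W2 := 536870912) (P3 := 858993459) (W3 := 64424510) (N0 := 3) (En := eng) (mo := mog) (C1 := cd2q1) (C2 := cd1q3) (C3 := pd3)
    rfl k0_pm_133

noncomputable def f_pm_202_a : ℕ → ℕ → ℕ → ℕ → Bool := onCell 0 536870912 0 536870912 858993459 64424510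
    (rowB 3 eng mog cd2q2 cd1q2a pd0 2 false true false .pp 2 0 2 (qsf 1073741824 536870912 0 536870912 0) ndB2q2 ndB1q2a pcB0 Cut.none Ext.none)

def k0_pm_202_a : ∃ t, chk3 f_pm_202_a t 2 2 1 = true :=
  ⟨(b (l 3) (b (l 3) (b (a (l 3) (a (l 3) (l 1))) (b (a (l 3) (a (a (l 3) (l 1)) (l 1))) (a (a (l 3) (b (l 3) (a (l 3) (a (c (l 16543288) (l 16528672)) (c (a (l 16512976) (l 16513152)) (a (l 16484992) (l 371010710567))))))) (l 1)))))), by decide +kernel⟩

def k1_pm_202_a : ∃ t, chk3 f_pm_202_a t 16 12 1 = true :=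
  ⟨(a (b (b (l 3) (b (b (l 3) (a (a (l 3) (a (b (l 3) (c (l 16362672) (l 16269856))) (c (l 16379640) (l 16279120)))) (c (a (c (l 16399816) (l 16360304)) (l 16395544)) (a (l 127405309255) (l 16314920))))) (a (b (c (a (c (a (b (l 16370752) (l 16374512)) (a (l 16385296) (l 16382360))) (a (b (l 16326360) (l 16329776)) (a (l 16334424) (l 16338560)))) (a (b (l 16365072) (l 16367792)) (l 16374048))) (a (c (a (l 137605787975) (l 16288672)) (a (l 16227480) (l 16236960))) (a (b (l 16272040) (l 16274448)) (l 16283552)))) (c (a (c (l 16384360) (l 16339904)) (a (c (l 16398848) (l 16350728)) (a (l 16378072) (l 16381712)))) (a (c (l 16291560) (l 16239336)) (c (a (l 16304088) (l 16313008)) (l 16258888))))) (c (a (b (l 16401216) (a (l 16387328) (l 16394760))) (c (l 16421632) (l 16384256))) (a (b (l 16299024) (l 16325112)) (l 16321920)))))) (c (b (a (b (c (l 16402400) (l 16359616)) (l 16397512)) (b (b (a (a (l 16394432) (l 16401088)) (l 16411880)) (l 16412416)) (l 16424464))) (a (l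 16422664) (l 16449512))) (b (a (b (c (l 16313064) (l 16262728)) (l 16307160)) (b (b (a (a (l 16306544) (l 16315608)) (l 16330152)) (l 16329408)) (l 16343448))) (a (l 16336592) (l 16372592))))) (b (b (l 3) (c (c (a (b (l 145122268039) (l 16442456)) (l 161765336535)) (a (b (l 16398736) (l 16408744)) (l 16435880))) (a (b (a (l 16333048) (l 16353128)) (a (l 16342296) (l 16362520))) (c (l 16404472) (l 16370400))))) (b (b (a (c (a (l 16429832) (l 16444520)) (c (l 16383352) (l 16343488))) (c (l 16466520) (l 16403176))) (a (a (l 16409208) (l 16445760)) (c (l 16478584) (l 16416704)))) (c (l 16405816) (l 16426728))))), by decide +kernel⟩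

def k2_pm_202_a : ∃ t, chk3 f_pm_202_a t 17 12 1 = true :=
  ⟨(a (a (b (b (c (l 625621737095) (l 622400397143)) (c (c (l 16491672) (l 16467560)) (l 16416576))) (b (c (b (l 16496000) (l 16507288)) (l 16449360)) (c (l 16529136) (l 16480264)))) (b (c (b (l 124721254103) (l 16519296)) (b (l 16426176) (l 16465608))) (b (c (l 16530448) (l 16487736)) (c (l 16555952) (l 16516576))))) (a (b (b (c (l 16517392) (l 16484304)) (c (l 16537216) (l 16503328))) (b (c (l 16559000) (l 16525896)) (l 16464376))) (b (c (b (l 16523904) (l 16565072)) (l 84455836039)) (c (l 16494560) (l 16556344))))), by decide +kernel⟩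

def k3_pm_202_a : ∃ t, chk3 f_pm_202_a t 8 13 1 = true :=
  ⟨(c (a (a (b (a (l 16393144) (l 16440752)) (l 16529256)) (c (l 16405648) (l 16383552))) (b (b (l 16498960) (l 16606824)) (l 16436720))) (b (a (a (c (l 16437056) (l 16397624)) (l 16384008)) (b (l 16427072) (l 16553432))) (a (b (l 16353864) (l 16445232)) (l 16498376)))), by decide +kernel⟩

def k4_pm_202_a : ∃ t, chk3 f_pm_202_a t 9 6 1 = true :=
  ⟨(a (a (c (b (b (c (l 88214067799) (l 16508840)) (b (l 16605432) (l 16600192))) (b (b (l 16591408) (l 16574744)) (l 16504344))) (b (b (b (l 16489184) (l 16593360)) (l 16554176)) (b (l 16487696) (l 16473576)))) (b (b (c (b (l 16515584) (l 16551256)) (b (l 16559712) (l 16573432))) (c (b (l 16565896) (l 16559760)) (l 16495760))) (b (b (c (l 16551176) (l 16538792)) (c (l 16534872) (l 16515992))) (c (l 445098996823) (a (l 16486064) (l 1)))))) (b (b (b (a (c (c (l 16542400) (l 16534952)) (l 16460096)) (c (a (l 16507568) (l 397317476343)) (a (l 16478208) (l 429529648071))))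 (a (c (l 16531320) (l 16514176)) (c (a (l 16499312) (l 1)) (l 402686087447)))) (a (c (b (l 16502912) (l 16516584)) (b (l 16503464) (l 16490544))) (l 1))) (a (b (b (l 451004571591) (l 1)) (l 1)) (l 1)))), by decide +kernel⟩

def k5_pm_202_a : ∃ t, chk3 f_pm_202_a t 5 6 1 = true :=
  ⟨(l 1), by decide +kernel⟩

def k6_pm_202_a : ∃ t, chk3 f_pm_202_a t 2 7 1 = true :=
  ⟨(a (a (b (a (b (c (l 16484192) (l 16462656)) (a (l 16457936) (l 16442704))) (a (b (l 16445768) (c (l 16531896) (l 16543640))) (b (c (l 16551424) (l 16546464)) (c (l 481069505959) (l 280816192823))))) (a (a (b (a (b (l 16574880) (l 16558456)) (b (l 16581728) (l 16530728))) (c (b (a (l 16528496) (l 16525992)) (a (l 16490384) (l 380674487095))) (a (l 213170433543) (l 450467616375)))) (b (b (l 16532448) (a (l 16556488) (l 16516384))) (b (a (b (l 499860014727) (l 1)) (l 1)) (l 1)))) (a (b (b (l 424697873047) (l 1)) (l 1)) (l 1)))) (a (b (b (a (c (b (l 16514312) (l 619582159911)) (a (l 16498000) (l 16437640)))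 (l 1)) (l 1)) (l 1)) (l 1))) (l 1)), by decide +kernel⟩

def k7_pm_202_a : ∃ t, chk3 f_pm_202_a t 3 1 1 = true :=
  ⟨(l 1), by decide +kernel⟩

theorem s8_pm_202_a : ∃ t, chk3 f_pm_202_a t 8 12 1 = true := ex3_a k1_pm_202_a k2_pm_202_a

theorem s9_pm_202_a : ∃ t, chk3 f_pm_202_a t 8 6 1 = true := ex3_b s8_pm_202_a k3_pm_202_a

theorem s10_pm_202_a : ∃ t, chk3 f_pm_202_a t 4 6 1 = true := ex3_a s9_pm_202_a k4_pm_202_a

theorem s11_pm_202_a : ∃ t, chk3 f_pm_202_a t 2 6 1 = true := ex3_a s10_pm_202_a k5_pm_202_a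

theorem s12_pm_202_a : ∃ t, chk3 f_pm_202_a t 2 3 1 = true := ex3_b s11_pm_202_a k6_pm_202_a

theorem s13_pm_202_a : ∃ t, chk3 f_pm_202_a t 2 1 1 = true := ex3_b k0_pm_202_a s12_pm_202_a

theorem s14_pm_202_a : ∃ t, chk3 f_pm_202_a t 1 1 1 = true := ex3_a s13_pm_202_a k7_pm_202_a

theorem c_pm_202_a : CertB 1073741824 536870912 0 536870912 858993459 64424510 3 eng mog cd2q2 cd1q2a pd0 false true false .pp 2 0 2
    ndB2q2 ndB1q2a pcB0 Cut.none Ext.none :=
  certB2 (fam := false) (s1 := true) (s2 := false) (a := 2) (b := 0) (c := 2) (cn := .pp) (n1 := ndB2q2) (n2 := ndB1q2a) (pc := pcB0) (cut := Cut.none) (xt := Ext.none) (P1 := 1073741824) (W1 := 536870912) (P2 := 0) (W2 := 536870912) (P3 := 858993459) (W3 := 64424510) (N0 := 3) (En := eng) (mo := mog) (C1 := cd2q2) (C2 := cd1q2a) (C3 := pd0)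
    rfl (fun _ => rfl) s14_pm_202_a

noncomputable def f_pm_202_b : ℕ → ℕ → ℕ → ℕ → Bool := onCell 1073741824 536870912 1239849684 370763052 858993459 64424510
    (rowB 3 eng mog cd2q2 cd1q2b pd0 0 false true false .pp 2 0 2 (qsf 1073741824 536870912 1239849684 370763052 0) ndB2q2 ndB1q2b pcB0 Cut.none Ext.none)

def k0_pm_202_b : ∃ t, chk3 f_pm_202_b t 1 1 1 = true :=
  ⟨(l 3), by decide +kernel⟩

theorem c_pm_202_b : CertB 1073741824 536870912 1239849684 370763052 858993459 64424510 3 eng mog cd2q2 cd1q2b pd0 false true false .pp 2 0 2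
    ndB2q2 ndB1q2b pcB0 Cut.none Ext.none :=
  certB0 (fam := false) (s1 := true) (s2 := false) (a := 2) (b := 0) (c := 2) (cn := .pp) (n1 := ndB2q2) (n2 := ndB1q2b) (pc := pcB0) (cut := Cut.none) (xt := Ext.none) (P1 := 1073741824) (W1 := 536870912) (P2 := 1239849684) (W2 := 370763052) (P3 := 858993459) (W3 := 64424510) (N0 := 3) (En := eng) (mo := mog) (C1 := cd2q2) (C2 := cd1q2b) (C3 := pd0)
    rfl k0_pm_202_b

noncomputable def f_pm_203 : ℕ → ℕ → ℕ → ℕ → Bool := onCell 1073741824 536870912 0 536870912 858993459 64424510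
    (rowB 3 eng mog cd2q2 cd1q3 pd0 1 false true false .up 2 0 3 (qsf 1073741824 536870912 1610612736 536870912 0) ndB2q2 ndB1q3 pcB0 Cut.none Ext.none)

def k0_pm_203 : ∃ t, chk3 f_pm_203 t 1 1 1 = true :=
  ⟨(l 3), by decide +kernel⟩

theorem c_pm_203 : CertB 1073741824 536870912 1610612736 536870912 858993459 64424510 3 eng mog cd2q2 cd1q3 pd0 false true false .up 2 0 3
    ndB2q2 ndB1q3 pcB0 Cut.none Ext.none :=
  certB1 (fam := false) (s1 := true) (s2 := false) (a := 2) (b := 0) (c := 3) (cn := .up) (n1 := ndB2q2) (n2 := ndB1q3) (pc := pcB0) (cut := Cut.none) (xt := Ext.none) (P1 := 1073741824) (W1 := 536870912) (P2 := 1610612736) (W2 := 536870912) (P3 := 858993459) (W3 := 64424510) (N0 := 3) (En := eng) (mo := mog) (C1 := cd2q2) (C2 := cd1q3) (C3 := pd0)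
    rfl (fun _ => rfl) k0_pm_203

noncomputable def f_pm_213 : ℕ → ℕ → ℕ → ℕ → Bool := onCell 1073741824 536870912 536870912 536870912 858993459 64424510
    (rowB 3 eng mog cd2q2 cd1q3 pd1 1 false true false .pnn 2 1 3 (qsf 1073741824 536870912 1610612736 536870912 1) ndB2q2 ndB1q3 pcB1 Cut.none Ext.none)

def k0_pm_213 : ∃ t, chk3 f_pm_213 t 1 1 1 = true :=
  ⟨(a (b (b (l 3) (a (l 3) (l 3))) (a (b (b (a (a (b (c (b (l 16183440) (l 16264624)) (c (l 16078504) (l 15981512))) (c (l 16423400) (l 16257760))) (b (l 3) (c (l 16512720) (l 16328712)))) (l 3)) (a (b (c (a (l 16555696) (l 16554600)) (c (l 16520632) (l 16401984))) (c (l 16564712) (c (l 16552056) (l 16528968)))) (b (c (l 313162825207) (c (l 16580184) (l 16599616))) (a (l 16441056) (c (l 16581696) (l 16632632)))))) (b (a (b (c (l 16604424) (b (l 16562448) (l 16575528))) (a (b (l 16596264) (l 16602056)) (b (l 16603848) (l 16608416)))) (b (a (c (l 16594384) (l 16621176)) (c (l 16597752) (l 16650296))) (c (a (l 16589448)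 (l 16551264)) (a (l 16622904) (l 16633056))))) (a (a (b (a (l 16607544) (l 16608368)) (l 16482712)) (b (l 16605600) (l 16599352))) (a (a (b (l 16601424) (l 2)) (l 2)) (l 2))))) (b (l 3) (a (b (b (l 3) (l 2)) (l 2)) (l 2))))) (b (a (l 3) (b (l 3) (a (b (l 3) (l 2)) (l 2)))) (a (b (a (b (l 3) (l 2)) (l 2)) (l 2)) (l 2)))), by decide +kernel⟩

theorem c_pm_213 : CertB 1073741824 536870912 1610612736 536870912 858993459 64424510 3 eng mog cd2q2 cd1q3 pd1 false true false .pnn 2 1 3
    ndB2q2 ndB1q3 pcB1 Cut.none Ext.none :=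
  certB1 (fam := false) (s1 := true) (s2 := false) (a := 2) (b := 1) (c := 3) (cn := .pnn) (n1 := ndB2q2) (n2 := ndB1q3) (pc := pcB1) (cut := Cut.none) (xt := Ext.none) (P1 := 1073741824) (W1 := 536870912) (P2 := 1610612736) (W2 := 536870912) (P3 := 858993459) (W3 := 64424510) (N0 := 3) (En := eng) (mo := mog) (C1 := cd2q2) (C2 := cd1q3) (C3 := pd1)
    rfl (fun _ => rfl) k0_pm_213

noncomputable def f_pm_303 : ℕ → ℕ → ℕ → ℕ → Bool := onCell 0 1230186008 1610612736 536870912 858993459 64424510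
    (rowB 3 eng mog cd2q3 cd1q3 pd0 0 false true false .npn 3 0 3 (qsf 0 1230186008 1610612736 536870912 0) ndB2q3 ndB1q3 pcB0 Cut.none Ext.none)

def k0_pm_303 : ∃ t, chk3 f_pm_303 t 1 1 1 = true :=
  ⟨(a (l 3) (l 3)), by decide +kernel⟩

theorem c_pm_303 : CertB 0 1230186008 1610612736 536870912 858993459 64424510 3 eng mog cd2q3 cd1q3 pd0 false true false .npn 3 0 3
    ndB2q3 ndB1q3 pcB0 Cut.none Ext.none :=
  certB0 (fam := false) (s1 := true) (s2 := false) (a := 3) (b := 0) (c := 3) (cn := .npn) (n1 := ndB2q3) (n2 := ndB1q3) (pc := pcB0) (cut := Cut.none) (xt := Ext.none) (P1 := 0) (W1 := 1230186008) (P2 := 1610612736) (W2 := 536870912) (P3 := 858993459) (W3 := 64424510) (N0 := 3) (En := eng) (mo := mog) (C1 := cd2q3) (C2 := cd1q3) (C3 := pd0)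
    rfl k0_pm_303

noncomputable def f_pm_313 : ℕ → ℕ → ℕ → ℕ → Bool := onCell 0 1230186008 1610612736 536870912 858993459 64424510
    (rowB 3 eng mog cd2q3 cd1q3 pd1 0 false true false .dn 3 1 3 (qsf 0 1230186008 1610612736 536870912 1) ndB2q3 ndB1q3 pcB1 Cut.none Ext.none)

def k0_pm_313 : ∃ t, chk3 f_pm_313 t 1 1 1 = true :=
  ⟨(a (l 1) (l 3)), by decide +kernel⟩

theorem c_pm_313 : CertB 0 1230186008 1610612736 536870912 858993459 64424510 3 eng mog cd2q3 cd1q3 pd1 false true false .dn 3 1 3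
    ndB2q3 ndB1q3 pcB1 Cut.none Ext.none :=
  certB0 (fam := false) (s1 := true) (s2 := false) (a := 3) (b := 1) (c := 3) (cn := .dn) (n1 := ndB2q3) (n2 := ndB1q3) (pc := pcB1) (cut := Cut.none) (xt := Ext.none) (P1 := 0) (W1 := 1230186008) (P2 := 1610612736) (W2 := 536870912) (P3 := 858993459) (W3 := 64424510) (N0 := 3) (En := eng) (mo := mog) (C1 := cd2q3) (C2 := cd1q3) (C3 := pd1)
    rfl k0_pm_313

noncomputable def f_mm_001 : ℕ → ℕ → ℕ → ℕ → Bool := onCell 0 536870912 536870912 536870912 858993459 64424510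
    (rowB 3 eng mog cd2q0 cd1q1 pd0 0 false false false .up 0 0 1 (qsf 0 536870912 536870912 536870912 0) ndB2q0 ndB1q1 pcB0 Cut.none Ext.none)

def k0_mm_001 : ∃ t, chk3 f_mm_001 t 1 1 1 = true :=
  ⟨(l 5), by decide +kernel⟩

theorem c_mm_001 : CertB 0 536870912 536870912 536870912 858993459 64424510 3 eng mog cd2q0 cd1q1 pd0 false false false .up 0 0 1
    ndB2q0 ndB1q1 pcB0 Cut.none Ext.none :=
  certB0 (fam := false) (s1 := false) (s2 := false) (a := 0) (b := 0) (c := 1) (cn := .up) (n1 := ndB2q0) (n2 := ndB1q1) (pc := pcB0) (cut := Cut.none) (xt := Ext.none) (P1 := 0) (W1 := 536870912) (P2 := 536870912) (W2 := 536870912) (P3 := 858993459) (W3 := 64424510) (N0 := 3) (En := eng) (mo := mog) (C1 := cd2q0) (C2 := cd1q1) (C3 := pd0)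
    rfl k0_mm_001

noncomputable def f_mm_011 : ℕ → ℕ → ℕ → ℕ → Bool := onCell 0 536870912 536870912 536870912 858993459 64424510
    (rowB 3 eng mog cd2q0 cd1q1 pd1 0 false false false .pnn 0 1 1 (qsf 0 536870912 536870912 536870912 1) ndB2q0 ndB1q1 pcB1 Cut.none Ext.none)

def k0_mm_011 : ∃ t, chk3 f_mm_011 t 1 1 1 = true :=
  ⟨(l 5), by decide +kernel⟩

theorem c_mm_011 : CertB 0 536870912 536870912 536870912 858993459 64424510 3 eng mog cd2q0 cd1q1 pd1 false false false .pnn 0 1 1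
    ndB2q0 ndB1q1 pcB1 Cut.none Ext.none :=
  certB0 (fam := false) (s1 := false) (s2 := false) (a := 0) (b := 1) (c := 1) (cn := .pnn) (n1 := ndB2q0) (n2 := ndB1q1) (pc := pcB1) (cut := Cut.none) (xt := Ext.none) (P1 := 0) (W1 := 536870912) (P2 := 536870912) (W2 := 536870912) (P3 := 858993459) (W3 := 64424510) (N0 := 3) (En := eng) (mo := mog) (C1 := cd2q0) (C2 := cd1q1) (C3 := pd1)
    rfl k0_mm_011

noncomputable def f_mm_012_a : ℕ → ℕ → ℕ → ℕ → Bool := onCell 0 536870912 0 536870912 858993459 64424510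
    (rowB 3 eng mog cd2q0 cd1q2a pd1 0 false false false .pnp 0 1 2 (qsf 0 536870912 0 536870912 1) ndB2q0 ndB1q2a pcB1 Cut.none Ext.none)

def k0_mm_012_a : ∃ t, chk3 f_mm_012_a t 1 1 1 = true :=
  ⟨(l 5), by decide +kernel⟩

theorem c_mm_012_a : CertB 0 536870912 0 536870912 858993459 64424510 3 eng mog cd2q0 cd1q2a pd1 false false false .pnp 0 1 2
    ndB2q0 ndB1q2a pcB1 Cut.none Ext.none :=
  certB0 (fam := false) (s1 := false) (s2 := false) (a := 0) (b := 1) (c := 2) (cn := .pnp) (n1 := ndB2q0) (n2 := ndB1q2a) (pc := pcB1) (cut := Cut.none) (xt := Ext.none) (P1 := 0) (W1 := 536870912) (P2 := 0) (W2 := 536870912) (P3 := 858993459) (W3 := 64424510) (N0 := 3) (En := eng) (mo := mog) (C1 := cd2q0) (C2 := cd1q2a) (C3 := pd1)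
    rfl k0_mm_012_a

noncomputable def f_mm_012_b : ℕ → ℕ → ℕ → ℕ → Bool := onCell 0 536870912 1239849684 370763052 858993459 64424510
    (rowB 3 eng mog cd2q0 cd1q2b pd1 0 false false false .pnp 0 1 2 (qsf 0 536870912 1239849684 370763052 1) ndB2q0 ndB1q2b pcB1 Cut.none Ext.none)

def k0_mm_012_b : ∃ t, chk3 f_mm_012_b t 1 1 1 = true :=
  ⟨(l 5), by decide +kernel⟩

theorem c_mm_012_b : CertB 0 536870912 1239849684 370763052 858993459 64424510 3 eng mog cd2q0 cd1q2b pd1 false false false .pnp 0 1 2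
    ndB2q0 ndB1q2b pcB1 Cut.none Ext.none :=
  certB0 (fam := false) (s1 := false) (s2 := false) (a := 0) (b := 1) (c := 2) (cn := .pnp) (n1 := ndB2q0) (n2 := ndB1q2b) (pc := pcB1) (cut := Cut.none) (xt := Ext.none) (P1 := 0) (W1 := 536870912) (P2 := 1239849684) (W2 := 370763052) (P3 := 858993459) (W3 := 64424510) (N0 := 3) (En := eng) (mo := mog) (C1 := cd2q0) (C2 := cd1q2b) (C3 := pd1)
    rfl k0_mm_012_b

noncomputable def f_mm_022_a : ℕ → ℕ → ℕ → ℕ → Bool := onCell 0 536870912 0 536870912 858993459 64424510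
    (rowB 3 eng mog cd2q0 cd1q2a pd2 0 false false false .pp 0 2 2 (qsf 0 536870912 0 536870912 2) ndB2q0 ndB1q2a pcB2 Cut.none Ext.none)

def k0_mm_022_a : ∃ t, chk3 f_mm_022_a t 1 1 1 = true :=
  ⟨(l 5), by decide +kernel⟩

theorem c_mm_022_a : CertB 0 536870912 0 536870912 858993459 64424510 3 eng mog cd2q0 cd1q2a pd2 false false false .pp 0 2 2
    ndB2q0 ndB1q2a pcB2 Cut.none Ext.none :=
  certB0 (fam := false) (s1 := false) (s2 := false) (a := 0) (b := 2) (c := 2) (cn := .pp) (n1 := ndB2q0) (n2 := ndB1q2a) (pc := pcB2) (cut := Cut.none) (xt := Ext.none) (P1 := 0) (W1 := 536870912) (P2 := 0) (W2 := 536870912) (P3 := 858993459) (W3 := 64424510) (N0 := 3) (En := eng) (mo := mog) (C1 := cd2q0) (C2 := cd1q2a) (C3 := pd2)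
    rfl k0_mm_022_a

noncomputable def f_mm_022_b : ℕ → ℕ → ℕ → ℕ → Bool := onCell 0 536870912 1239849684 370763052 858993459 64424510
    (rowB 3 eng mog cd2q0 cd1q2b pd2 0 false false false .pp 0 2 2 (qsf 0 536870912 1239849684 370763052 2) ndB2q0 ndB1q2b pcB2 Cut.none Ext.none)

def k0_mm_022_b : ∃ t, chk3 f_mm_022_b t 1 1 1 = true :=
  ⟨(l 5), by decide +kernel⟩

theorem c_mm_022_b : CertB 0 536870912 1239849684 370763052 858993459 64424510 3 eng mog cd2q0 cd1q2b pd2 false false false .pp 0 2 2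
    ndB2q0 ndB1q2b pcB2 Cut.none Ext.none :=
  certB0 (fam := false) (s1 := false) (s2 := false) (a := 0) (b := 2) (c := 2) (cn := .pp) (n1 := ndB2q0) (n2 := ndB1q2b) (pc := pcB2) (cut := Cut.none) (xt := Ext.none) (P1 := 0) (W1 := 536870912) (P2 := 1239849684) (W2 := 370763052) (P3 := 858993459) (W3 := 64424510) (N0 := 3) (En := eng) (mo := mog) (C1 := cd2q0) (C2 := cd1q2b) (C3 := pd2)
    rfl k0_mm_022_b

noncomputable def f_mm_023 : ℕ → ℕ → ℕ → ℕ → Bool := onCell 0 536870912 1610612736 536870912 858993459 64424510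
    (rowB 3 eng mog cd2q0 cd1q3 pd2 0 false false false .up 0 2 3 (qsf 0 536870912 1610612736 536870912 2) ndB2q0 ndB1q3 pcB2 Cut.none Ext.none)

def k0_mm_023 : ∃ t, chk3 f_mm_023 t 1 1 1 = true :=
  ⟨(l 5), by decide +kernel⟩

theorem c_mm_023 : CertB 0 536870912 1610612736 536870912 858993459 64424510 3 eng mog cd2q0 cd1q3 pd2 false false false .up 0 2 3
    ndB2q0 ndB1q3 pcB2 Cut.none Ext.none :=
  certB0 (fam := false) (s1 := false) (s2 := false) (a := 0) (b := 2) (c := 3) (cn := .up) (n1 := ndB2q0) (n2 := ndB1q3) (pc := pcB2) (cut := Cut.none) (xt := Ext.none) (P1 := 0) (W1 := 536870912) (P2 := 1610612736) (W2 := 536870912) (P3 := 858993459) (W3 := 64424510) (N0 := 3) (En := eng) (mo := mog) (C1 := cd2q0) (C2 := cd1q3) (C3 := pd2)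
    rfl k0_mm_023

noncomputable def f_mm_033 : ℕ → ℕ → ℕ → ℕ → Bool := onCell 0 536870912 1610612736 536870912 858993459 64424510
    (rowB 3 eng mog cd2q0 cd1q3 pd3 0 false false false .pnn 0 3 3 (qsf 0 536870912 1610612736 536870912 3) ndB2q0 ndB1q3 pcB3 Cut.none Ext.none)

def k0_mm_033 : ∃ t, chk3 f_mm_033 t 1 1 1 = true :=
  ⟨(l 5), by decide +kernel⟩

theorem c_mm_033 : CertB 0 536870912 1610612736 536870912 858993459 64424510 3 eng mog cd2q0 cd1q3 pd3 false false false .pnn 0 3 3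
    ndB2q0 ndB1q3 pcB3 Cut.none Ext.none :=
  certB0 (fam := false) (s1 := false) (s2 := false) (a := 0) (b := 3) (c := 3) (cn := .pnn) (n1 := ndB2q0) (n2 := ndB1q3) (pc := pcB3) (cut := Cut.none) (xt := Ext.none) (P1 := 0) (W1 := 536870912) (P2 := 1610612736) (W2 := 536870912) (P3 := 858993459) (W3 := 64424510) (N0 := 3) (En := eng) (mo := mog) (C1 := cd2q0) (C2 := cd1q3) (C3 := pd3)
    rfl k0_mm_033

noncomputable def f_mm_101 : ℕ → ℕ → ℕ → ℕ → Bool := onCell 536870912 536870912 536870912 536870912 858993459 64424510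
    (rowB 3 eng mog cd2q1 cd1q1 pd0 0 false false false .npn 1 0 1 (qsf 536870912 536870912 536870912 536870912 0) ndB2q1 ndB1q1 pcB0 Cut.none Ext.none)

def k0_mm_101 : ∃ t, chk3 f_mm_101 t 1 1 1 = true :=
  ⟨(l 3), by decide +kernel⟩

theorem c_mm_101 : CertB 536870912 536870912 536870912 536870912 858993459 64424510 3 eng mog cd2q1 cd1q1 pd0 false false false .npn 1 0 1
    ndB2q1 ndB1q1 pcB0 Cut.none Ext.none :=
  certB0 (fam := false) (s1 := false) (s2 := false) (a := 1) (b := 0) (c := 1) (cn := .npn) (n1 := ndB2q1) (n2 := ndB1q1) (pc := pcB0) (cut := Cut.none) (xt := Ext.none) (P1 := 536870912) (W1 := 536870912) (P2 := 536870912) (W2 := 536870912) (P3 := 858993459) (W3 := 64424510) (N0 := 3) (En := eng) (mo := mog) (C1 := cd2q1) (C2 := cd1q1) (C3 := pd0)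
    rfl k0_mm_101

noncomputable def f_mm_102_a : ℕ → ℕ → ℕ → ℕ → Bool := onCell 536870912 536870912 0 536870912 858993459 64424510
    (rowB 3 eng mog cd2q1 cd1q2a pd0 0 false false false .npp 1 0 2 (qsf 536870912 536870912 0 536870912 0) ndB2q1 ndB1q2a pcB0 Cut.none Ext.none)

def k0_mm_102_a : ∃ t, chk3 f_mm_102_a t 1 1 1 = true :=
  ⟨(l 5), by decide +kernel⟩

theorem c_mm_102_a : CertB 536870912 536870912 0 536870912 858993459 64424510 3 eng mog cd2q1 cd1q2a pd0 false false false .npp 1 0 2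
    ndB2q1 ndB1q2a pcB0 Cut.none Ext.none :=
  certB0 (fam := false) (s1 := false) (s2 := false) (a := 1) (b := 0) (c := 2) (cn := .npp) (n1 := ndB2q1) (n2 := ndB1q2a) (pc := pcB0) (cut := Cut.none) (xt := Ext.none) (P1 := 536870912) (W1 := 536870912) (P2 := 0) (W2 := 536870912) (P3 := 858993459) (W3 := 64424510) (N0 := 3) (En := eng) (mo := mog) (C1 := cd2q1) (C2 := cd1q2a) (C3 := pd0)
    rfl k0_mm_102_a

noncomputable def f_mm_102_b : ℕ → ℕ → ℕ → ℕ → Bool := onCell 536870912 536870912 1239849684 370763052 858993459 64424510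
    (rowB 3 eng mog cd2q1 cd1q2b pd0 0 false false false .npp 1 0 2 (qsf 536870912 536870912 1239849684 370763052 0) ndB2q1 ndB1q2b pcB0 Cut.none Ext.none)

def k0_mm_102_b : ∃ t, chk3 f_mm_102_b t 1 1 1 = true :=
  ⟨(l 5), by decide +kernel⟩

theorem c_mm_102_b : CertB 536870912 536870912 1239849684 370763052 858993459 64424510 3 eng mog cd2q1 cd1q2b pd0 false false false .npp 1 0 2
    ndB2q1 ndB1q2b pcB0 Cut.none Ext.none :=
  certB0 (fam := false) (s1 := false) (s2 := false) (a := 1) (b := 0) (c := 2) (cn := .npp) (n1 := ndB2q1) (n2 := ndB1q2b) (pc := pcB0) (cut := Cut.none) (xt := Ext.none) (P1 := 536870912) (W1 := 536870912) (P2 := 1239849684) (W2 := 370763052) (P3 := 858993459) (W3 := 64424510) (N0 := 3) (En := eng) (mo := mog) (C1 := cd2q1) (C2 := cd1q2b) (C3 := pd0)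
    rfl k0_mm_102_b

noncomputable def f_mm_112_a : ℕ → ℕ → ℕ → ℕ → Bool := onCell 536870912 536870912 0 536870912 858993459 64424510
    (rowB 3 eng mog cd2q1 cd1q2a pd1 0 false false false .dn 1 1 2 (qsf 536870912 536870912 0 536870912 1) ndB2q1 ndB1q2a pcB1 Cut.none Ext.none)

def k0_mm_112_a : ∃ t, chk3 f_mm_112_a t 1 1 1 = true :=
  ⟨(l 5), by decide +kernel⟩

theorem c_mm_112_a : CertB 536870912 536870912 0 536870912 858993459 64424510 3 eng mog cd2q1 cd1q2a pd1 false false false .dn 1 1 2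
    ndB2q1 ndB1q2a pcB1 Cut.none Ext.none :=
  certB0 (fam := false) (s1 := false) (s2 := false) (a := 1) (b := 1) (c := 2) (cn := .dn) (n1 := ndB2q1) (n2 := ndB1q2a) (pc := pcB1) (cut := Cut.none) (xt := Ext.none) (P1 := 536870912) (W1 := 536870912) (P2 := 0) (W2 := 536870912) (P3 := 858993459) (W3 := 64424510) (N0 := 3) (En := eng) (mo := mog) (C1 := cd2q1) (C2 := cd1q2a) (C3 := pd1)
    rfl k0_mm_112_a

noncomputable def f_mm_112_b : ℕ → ℕ → ℕ → ℕ → Bool := onCell 536870912 536870912 1239849684 370763052 858993459 64424510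
    (rowB 3 eng mog cd2q1 cd1q2b pd1 0 false false false .dn 1 1 2 (qsf 536870912 536870912 1239849684 370763052 1) ndB2q1 ndB1q2b pcB1 Cut.none Ext.none)

def k0_mm_112_b : ∃ t, chk3 f_mm_112_b t 1 1 1 = true :=
  ⟨(l 5), by decide +kernel⟩

theorem c_mm_112_b : CertB 536870912 536870912 1239849684 370763052 858993459 64424510 3 eng mog cd2q1 cd1q2b pd1 false false false .dn 1 1 2
    ndB2q1 ndB1q2b pcB1 Cut.none Ext.none :=
  certB0 (fam := false) (s1 := false) (s2 := false) (a := 1) (b := 1) (c := 2) (cn := .dn) (n1 := ndB2q1) (n2 := ndB1q2b) (pc := pcB1) (cut := Cut.none) (xt := Ext.none) (P1 := 536870912) (W1 := 536870912) (P2 := 1239849684) (W2 := 370763052) (P3 := 858993459) (W3 := 64424510) (N0 := 3) (En := eng) (mo := mog) (C1 := cd2q1) (C2 := cd1q2b) (C3 := pd1)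
    rfl k0_mm_112_b

noncomputable def f_mm_113 : ℕ → ℕ → ℕ → ℕ → Bool := onCell 536870912 536870912 1610612736 536870912 858993459 64424510
    (rowB 3 eng mog cd2q1 cd1q3 pd1 0 false false false .nn 1 1 3 (qsf 536870912 536870912 1610612736 536870912 1) ndB2q1 ndB1q3 pcB1 Cut.none Ext.none)

def k0_mm_113 : ∃ t, chk3 f_mm_113 t 1 1 1 = true :=
  ⟨(l 5), by decide +kernel⟩

theorem c_mm_113 : CertB 536870912 536870912 1610612736 536870912 858993459 64424510 3 eng mog cd2q1 cd1q3 pd1 false false false .nn 1 1 3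
    ndB2q1 ndB1q3 pcB1 Cut.none Ext.none :=
  certB0 (fam := false) (s1 := false) (s2 := false) (a := 1) (b := 1) (c := 3) (cn := .nn) (n1 := ndB2q1) (n2 := ndB1q3) (pc := pcB1) (cut := Cut.none) (xt := Ext.none) (P1 := 536870912) (W1 := 536870912) (P2 := 1610612736) (W2 := 536870912) (P3 := 858993459) (W3 := 64424510) (N0 := 3) (En := eng) (mo := mog) (C1 := cd2q1) (C2 := cd1q3) (C3 := pd1)
    rfl k0_mm_113

noncomputable def f_mm_123 : ℕ → ℕ → ℕ → ℕ → Bool := onCell 536870912 536870912 1610612736 536870912 858993459 64424510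
    (rowB 3 eng mog cd2q1 cd1q3 pd2 0 false false false .npn 1 2 3 (qsf 536870912 536870912 1610612736 536870912 2) ndB2q1 ndB1q3 pcB2 Cut.none Ext.none)

def k0_mm_123 : ∃ t, chk3 f_mm_123 t 1 1 1 = true :=
  ⟨(l 5), by decide +kernel⟩

theorem c_mm_123 : CertB 536870912 536870912 1610612736 536870912 858993459 64424510 3 eng mog cd2q1 cd1q3 pd2 false false false .npn 1 2 3
    ndB2q1 ndB1q3 pcB2 Cut.none Ext.none :=
  certB0 (fam := false) (s1 := false) (s2 := false) (a := 1) (b := 2) (c := 3) (cn := .npn) (n1 := ndB2q1) (n2 := ndB1q3) (pc := pcB2) (cut := Cut.none) (xt := Ext.none) (P1 := 536870912) (W1 := 536870912) (P2 := 1610612736) (W2 := 536870912) (P3 := 858993459) (W3 := 64424510) (N0 := 3) (En := eng) (mo := mog) (C1 := cd2q1) (C2 := cd1q3) (C3 := pd2)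
    rfl k0_mm_123

noncomputable def f_mm_133 : ℕ → ℕ → ℕ → ℕ → Bool := onCell 536870912 536870912 1610612736 536870912 858993459 64424510
    (rowB 3 eng mog cd2q1 cd1q3 pd3 0 false false false .dn 1 3 3 (qsf 536870912 536870912 1610612736 536870912 3) ndB2q1 ndB1q3 pcB3 Cut.none Ext.none)

def k0_mm_133 : ∃ t, chk3 f_mm_133 t 1 1 1 = true :=
  ⟨(l 5), by decide +kernel⟩

theorem c_mm_133 : CertB 536870912 536870912 1610612736 536870912 858993459 64424510 3 eng mog cd2q1 cd1q3 pd3 false false false .dn 1 3 3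
    ndB2q1 ndB1q3 pcB3 Cut.none Ext.none :=
  certB0 (fam := false) (s1 := false) (s2 := false) (a := 1) (b := 3) (c := 3) (cn := .dn) (n1 := ndB2q1) (n2 := ndB1q3) (pc := pcB3) (cut := Cut.none) (xt := Ext.none) (P1 := 536870912) (W1 := 536870912) (P2 := 1610612736) (W2 := 536870912) (P3 := 858993459) (W3 := 64424510) (N0 := 3) (En := eng) (mo := mog) (C1 := cd2q1) (C2 := cd1q3) (C3 := pd3)
    rfl k0_mm_133

noncomputable def f_mm_202_a : ℕ → ℕ → ℕ → ℕ → Bool := onCell 1073741824 536870912 0 536870912 858993459 64424510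
    (rowB 3 eng mog cd2q2 cd1q2a pd0 0 false false false .pp 2 0 2 (qsf 1073741824 536870912 0 536870912 0) ndB2q2 ndB1q2a pcB0 Cut.none Ext.none)

def k0_mm_202_a : ∃ t, chk3 f_mm_202_a t 1 1 1 = true :=
  ⟨(l 3), by decide +kernel⟩

theorem c_mm_202_a : CertB 1073741824 536870912 0 536870912 858993459 64424510 3 eng mog cd2q2 cd1q2a pd0 false false false .pp 2 0 2
    ndB2q2 ndB1q2a pcB0 Cut.none Ext.none :=
  certB0 (fam := false) (s1 := false) (s2 := false) (a := 2) (b := 0) (c := 2) (cn := .pp) (n1 := ndB2q2) (n2 := ndB1q2a) (pc := pcB0) (cut := Cut.none) (xt := Ext.none) (P1 := 1073741824) (W1 := 536870912) (P2 := 0) (W2 := 536870912) (P3 := 858993459) (W3 := 64424510) (N0 := 3) (En := eng) (mo := mog) (C1 := cd2q2) (C2 := cd1q2a) (C3 := pd0)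
    rfl k0_mm_202_a

noncomputable def f_mm_202_b : ℕ → ℕ → ℕ → ℕ → Bool := onCell 1073741824 536870912 1239849684 370763052 858993459 64424510
    (rowB 3 eng mog cd2q2 cd1q2b pd0 0 false false false .pp 2 0 2 (qsf 1073741824 536870912 1239849684 370763052 0) ndB2q2 ndB1q2b pcB0 Cut.none Ext.none)

def k0_mm_202_b : ∃ t, chk3 f_mm_202_b t 1 1 1 = true :=
  ⟨(l 3), by decide +kernel⟩

theorem c_mm_202_b : CertB 1073741824 536870912 1239849684 370763052 858993459 64424510 3 eng mog cd2q2 cd1q2b pd0 false false false .pp 2 0 2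
    ndB2q2 ndB1q2b pcB0 Cut.none Ext.none :=
  certB0 (fam := false) (s1 := false) (s2 := false) (a := 2) (b := 0) (c := 2) (cn := .pp) (n1 := ndB2q2) (n2 := ndB1q2b) (pc := pcB0) (cut := Cut.none) (xt := Ext.none) (P1 := 1073741824) (W1 := 536870912) (P2 := 1239849684) (W2 := 370763052) (P3 := 858993459) (W3 := 64424510) (N0 := 3) (En := eng) (mo := mog) (C1 := cd2q2) (C2 := cd1q2b) (C3 := pd0)
    rfl k0_mm_202_b

noncomputable def f_mm_203 : ℕ → ℕ → ℕ → ℕ → Bool := onCell 1073741824 536870912 1610612736 536870912 858993459 64424510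
    (rowB 3 eng mog cd2q2 cd1q3 pd0 0 false false false .up 2 0 3 (qsf 1073741824 536870912 1610612736 536870912 0) ndB2q2 ndB1q3 pcB0 Cut.none Ext.none)

def k0_mm_203 : ∃ t, chk3 f_mm_203 t 1 1 1 = true :=
  ⟨(l 5), by decide +kernel⟩

theorem c_mm_203 : CertB 1073741824 536870912 1610612736 536870912 858993459 64424510 3 eng mog cd2q2 cd1q3 pd0 false false false .up 2 0 3
    ndB2q2 ndB1q3 pcB0 Cut.none Ext.none :=
  certB0 (fam := false) (s1 := false) (s2 := false) (a := 2) (b := 0) (c := 3) (cn := .up) (n1 := ndB2q2) (n2 := ndB1q3) (pc := pcB0) (cut := Cut.none) (xt := Ext.none) (P1 := 1073741824) (W1 := 536870912) (P2 := 1610612736) (W2 := 536870912) (P3 := 858993459) (W3 := 64424510) (N0 := 3) (En := eng) (mo := mog) (C1 := cd2q2) (C2 := cd1q3) (C3 := pd0)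
    rfl k0_mm_203

noncomputable def f_mm_213 : ℕ → ℕ → ℕ → ℕ → Bool := onCell 1073741824 536870912 1610612736 536870912 858993459 64424510
    (rowB 3 eng mog cd2q2 cd1q3 pd1 0 false false false .pnn 2 1 3 (qsf 1073741824 536870912 1610612736 536870912 1) ndB2q2 ndB1q3 pcB1 Cut.none Ext.none)

def k0_mm_213 : ∃ t, chk3 f_mm_213 t 1 1 1 = true :=
  ⟨(l 5), by decide +kernel⟩

theorem c_mm_213 : CertB 1073741824 536870912 1610612736 536870912 858993459 64424510 3 eng mog cd2q2 cd1q3 pd1 false false false .pnn 2 1 3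
    ndB2q2 ndB1q3 pcB1 Cut.none Ext.none :=
  certB0 (fam := false) (s1 := false) (s2 := false) (a := 2) (b := 1) (c := 3) (cn := .pnn) (n1 := ndB2q2) (n2 := ndB1q3) (pc := pcB1) (cut := Cut.none) (xt := Ext.none) (P1 := 1073741824) (W1 := 536870912) (P2 := 1610612736) (W2 := 536870912) (P3 := 858993459) (W3 := 64424510) (N0 := 3) (En := eng) (mo := mog) (C1 := cd2q2) (C2 := cd1q3) (C3 := pd1)
    rfl k0_mm_213

noncomputable def f_mm_303 : ℕ → ℕ → ℕ → ℕ → Bool := onCell 0 1230186008 1610612736 536870912 858993459 64424510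
    (rowB 3 eng mog cd2q3 cd1q3 pd0 0 false false false .npn 3 0 3 (qsf 0 1230186008 1610612736 536870912 0) ndB2q3 ndB1q3 pcB0 Cut.none Ext.none)

def k0_mm_303 : ∃ t, chk3 f_mm_303 t 1 1 1 = true :=
  ⟨(a (l 3) (l 3)), by decide +kernel⟩

theorem c_mm_303 : CertB 0 1230186008 1610612736 536870912 858993459 64424510 3 eng mog cd2q3 cd1q3 pd0 false false false .npn 3 0 3
    ndB2q3 ndB1q3 pcB0 Cut.none Ext.none :=
  certB0 (fam := false) (s1 := false) (s2 := false) (a := 3) (b := 0) (c := 3) (cn := .npn) (n1 := ndB2q3) (n2 := ndB1q3) (pc := pcB0) (cut := Cut.none) (xt := Ext.none) (P1 := 0) (W1 := 1230186008) (P2 := 1610612736) (W2 := 536870912) (P3 := 858993459) (W3 := 64424510) (N0 := 3) (En := eng) (mo := mog) (C1 := cd2q3) (C2 := cd1q3) (C3 := pd0)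
    rfl k0_mm_303

noncomputable def f_mm_313 : ℕ → ℕ → ℕ → ℕ → Bool := onCell 0 1230186008 1610612736 536870912 858993459 64424510
    (rowB 3 eng mog cd2q3 cd1q3 pd1 0 false false false .dn 3 1 3 (qsf 0 1230186008 1610612736 536870912 1) ndB2q3 ndB1q3 pcB1 Cut.none Ext.none)

def k0_mm_313 : ∃ t, chk3 f_mm_313 t 1 1 1 = true :=
  ⟨(a (l 1) (l 3)), by decide +kernel⟩

theorem c_mm_313 : CertB 0 1230186008 1610612736 536870912 858993459 64424510 3 eng mog cd2q3 cd1q3 pd1 false false false .dn 3 1 3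
    ndB2q3 ndB1q3 pcB1 Cut.none Ext.none :=
  certB0 (fam := false) (s1 := false) (s2 := false) (a := 3) (b := 1) (c := 3) (cn := .dn) (n1 := ndB2q3) (n2 := ndB1q3) (pc := pcB1) (cut := Cut.none) (xt := Ext.none) (P1 := 0) (W1 := 1230186008) (P2 := 1610612736) (W2 := 536870912) (P3 := 858993459) (W3 := 64424510) (N0 := 3) (En := eng) (mo := mog) (C1 := cd2q3) (C2 := cd1q3) (C3 := pd1)
    rfl k0_mm_313

end Pool.Agent.Strip051.G.I8000_8600.Tab.C.BB21

namespace Pool.Agent.Strip051.G.I8000_8600.Tab.C.BB22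

open Pool.Agent.Strip051.PB Pool.Agent.Strip051.PB.T
open Pool.Agent.Strip051.G.I8000_8600.Tab

noncomputable def f_pp_001 : ℕ → ℕ → ℕ → ℕ → Bool := onCell 0 536870912 0 536870912 858993459 64424510
    (rowB 3 eng mog cd2q0 cd2q1 pd0 1 false true true .up 0 0 1 (qsf 0 536870912 536870912 536870912 0) ndB2q0 ndB2q1 pcB0 Cut.none Ext.none)

def k0_pp_001 : ∃ t, chk3 f_pp_001 t 1 1 1 = true :=
  ⟨(l 3), by decide +kernel⟩

theorem c_pp_001 : CertB 0 536870912 536870912 536870912 858993459 64424510 3 eng mog cd2q0 cd2q1 pd0 false true true .up 0 0 1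
    ndB2q0 ndB2q1 pcB0 Cut.none Ext.none :=
  certB1 (fam := false) (s1 := true) (s2 := true) (a := 0) (b := 0) (c := 1) (cn := .up) (n1 := ndB2q0) (n2 := ndB2q1) (pc := pcB0) (cut := Cut.none) (xt := Ext.none) (P1 := 0) (W1 := 536870912) (P2 := 536870912) (W2 := 536870912) (P3 := 858993459) (W3 := 64424510) (N0 := 3) (En := eng) (mo := mog) (C1 := cd2q0) (C2 := cd2q1) (C3 := pd0)
    rfl (fun _ => rfl) k0_pp_001

noncomputable def f_pp_011 : ℕ → ℕ → ℕ → ℕ → Bool := onCell 0 536870912 536870912 536870912 858993459 64424510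
    (rowB 3 eng mog cd2q0 cd2q1 pd1 1 false true true .pnn 0 1 1 (qsf 0 536870912 536870912 536870912 1) ndB2q0 ndB2q1 pcB1 Cut.none Ext.none)

def k0_pp_011 : ∃ t, chk3 f_pp_011 t 1 1 1 = true :=
  ⟨(l 3), by decide +kernel⟩

theorem c_pp_011 : CertB 0 536870912 536870912 536870912 858993459 64424510 3 eng mog cd2q0 cd2q1 pd1 false true true .pnn 0 1 1
    ndB2q0 ndB2q1 pcB1 Cut.none Ext.none :=
  certB1 (fam := false) (s1 := true) (s2 := true) (a := 0) (b := 1) (c := 1) (cn := .pnn) (n1 := ndB2q0) (n2 := ndB2q1) (pc := pcB1) (cut := Cut.none) (xt := Ext.none) (P1 := 0) (W1 := 536870912) (P2 := 536870912) (W2 := 536870912) (P3 := 858993459) (W3 := 64424510) (N0 := 3) (En := eng) (mo := mog) (C1 := cd2q0) (C2 := cd2q1) (C3 := pd1)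
    rfl (fun _ => rfl) k0_pp_011

end Pool.Agent.Strip051.G.I8000_8600.Tab.C.BB22

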