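import Pool.Agent.Strip051.G.I8000_8600.Tab

/-! # Certificates B24 (generated) -/

set_option linter.all false
set_option maxRecDepth 100000

namespace Pool.Agent.Strip051.G.I8000_8600.Tab.C.BB22

open Pool.Agent.Strip051.PB Pool.Agent.Strip051.PB.T
open Pool.Agent.Strip051.G.I8000_8600.Tab

noncomputable def f_pp_012 : ℕ → ℕ → ℕ → ℕ → Bool := onCell 0 536870912 536870912 536870912 858993459 64424510
    (rowB 3 eng mog cd2q0 cd2q2 pd1 1 false true true .pnp 0 1 2 (qsf 0 536870912 1073741824 536870912 1) ndB2q0 ndB2q2 pcB1 Cut.none Ext.none)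

def k0_pp_012 : ∃ t, chk3 f_pp_012 t 2 2 1 = true :=
  ⟨(l 3), by decide +kernel⟩

def k1_pp_012 : ∃ t, chk3 f_pp_012 t 4 3 1 = true :=
  ⟨(b (l 3) (a (b (l 3) (b (l 3) (a (a (l 3) (b (l 3) (c (l 371682256391) (l 412484390103)))) (b (a (l 3) (b (l 16523096) (l 16541256))) (a (b (l 228874446295) (l 43117200615)) (c (l 16511920) (l 16514064))))))) (a (b (l 3) (c (b (b (l 316384374487) (a (l 176797815783) (l 16446936))) (b (c (l 16459472) (l 16461264)) (l 16421688))) (b (b (l 356112800999) (a (l 16507656) (l 16452152))) (b (a (l 16505096) (l 16428904)) (l 16474544))))) (b (b (l 3) (a (l 3) (b (l 3) (a (l 16304992) (c (l 16267120) (l 16262936)))))) (b (b (a (c (l 16358832) (l 16358888)) (a (l 16457800) (c (l 16301824) (l 16311088)))) (a (c (l 16372408) (l 16380936)) (a (l 16318408) (c (l 16280872) (l 16294048))))) (a (b (l 16324288) (c (l 16303824) (l 16318264))) (c (a (l 16306136) (l 16400920)) (a (l 16257136) (b (l 16264128) (l 16224656)))))))))), by decide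 +kernel⟩

def k2_pp_012 : ∃ t, chk3 f_pp_012 t 5 3 1 = true :=
  ⟨(b (a (l 3) (b (l 3) (a (b (l 3) (b (l 3) (a (l 487645524855) (l 16168336)))) (b (a (l 3) (c (l 387250538663) (l 16050816))) (c (a (l 316383657479) (b (l 16147192) (l 16180104))) (a (l 340542378167) (l 16186624))))))) (a (b (a (b (a (l 3) (b (l 3) (l 481739977943))) (a (b (c (l 411947221783) (l 16242000)) (c (l 16346768) (l 16379096))) (b (c (l 16236536) (l 16257576)) (c (l 16282168) (l 16294680))))) (b (a (b (l 3) (l 374365559367)) (b (l 458654489671) (l 16228536))) (c (a (b (l 16265792) (l 16267000)) (b (l 16260376) (l 16250288))) (a (l 16224368) (l 16400952))))) (a (b (a (c (b (l 16288912) (l 16263072)) (b (l 16300696) (l 16278824))) (c (b (l 16267816) (l 16241824)) (b (l 16283608) (l 16254840)))) (a (b (c (l 16232816) (l 16244264)) (c (l 16206568) (l 16199664))) (c (l 16308744) (l 16378768)))) (b (a (b (l 16400736) (l 16224464)) (b (l 16233040) (l 16202360))) (a (c (l 16187240) (l 16160424))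 (b (l 16168192) (l 16132832)))))) (b (b (a (a (b (l 16214392) (l 16238240)) (b (l 16117472) (l 16252672))) (c (a (l 16222984) (l 16187624)) (a (l 16237560) (l 16176992)))) (a (b (a (l 16256456) (l 16239984)) (a (l 16237984) (l 16217864))) (c (a (l 16201752) (l 16156064)) (a (l 16191736) (l 16129832))))) (a (b (c (a (l 16204400) (l 16183424)) (a (l 16190640) (l 16167656))) (a (l 16232880) (l 16105552))) (b (a (l 16306056) (l 16084920)) (c (l 16063776) (l 16026984))))))), by decide +kernel⟩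

def k3_pp_012 : ∃ t, chk3 f_pp_012 t 3 2 1 = true :=
  ⟨(b (l 3) (a (b (l 3) (a (l 3) (b (l 3) (a (l 3) (l 3))))) (b (a (l 3) (a (l 3) (b (l 3) (c (c (l 291687307559) (l 15878200)) (b (l 266990917703) (l 261622222615)))))) (a (a (b (l 3) (b (a (l 3) (l 250884643895)) (c (l 324436346711) (l 15989304)))) (b (b (l 3) (c (l 261085486983) (l 272896705671))) (c (b (l 15938248) (l 15925464)) (c (l 15824640) (l 15745088))))) (b (c (a (c (l 261085684007) (l 15883472)) (l 16012032)) (a (c (l 15799128) (l 231020624119)) (c (l 15758800) (l 15664504)))) (c (a (l 15887688) (l 15844368)) (a (l 15777704) (l 15695608)))))))), by decide +kernel⟩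

def k4_pp_012 : ∃ t, chk3 f_pp_012 t 3 3 1 = true :=
  ⟨(b (a (b (b (a (l 3) (b (a (l 3) (c (l 254643075511) (l 214914756343))) (a (c (l 277191804743) (l 246589968023)) (c (l 15988872) (l 15894488))))) (a (a (l 3) (c (c (l 305109024759) (l 16035216)) (c (l 16009536) (l 15997480)))) (c (a (b (l 16020568) (l 16028632)) (l 16128664)) (a (b (l 16026936) (l 15957800)) (l 16049888))))) (a (b (c (a (c (l 16086224) (l 16096032)) (b (l 16070896) (l 16080448))) (a (c (l 16101592) (l 16103560)) (b (l 16037136) (l 16031992)))) (a (c (b (l 16134272) (l 16140952)) (b (l 16122192) (l 16114048))) (c (l 16074192) (l 16016072)))) (b (a (c (l 16023904) (l 15945400)) (c (l 15956144) (l 15863648))) (c (l 16084616) (a (l 15922216) (l 15837320)))))) (b (a (c (b (a (b (l 15956744) (l 15946032)) (l 15899664)) (a (l 15922776) (l 15863544))) (b (a (c (l 15860840) (l 15795480)) (l 15768896)) (a (l 15811712) (l 15749624)))) (c (b (a (l 15848472) (l 15804096)) (l 15788264)) (b (a (l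 15717856) (l 15674816)) (l 15755464)))) (a (c (b (l 15899592) (l 15823376)) (b (l 15966088) (l 15725272))) (c (b (l 15755112) (l 15726376)) (b (l 15643632) (l 15611128)))))) (a (b (a (b (a (c (l 16127640) (l 16089424)) (c (l 16042000) (l 15983528))) (c (l 16187336) (a (l 16044888) (l 15939120)))) (b (c (l 15920800) (l 15863736)) (c (l 15880416) (l 15796376)))) (a (b (c (l 15988992) (l 15932808)) (c (l 15936296) (l 15860176))) (b (c (l 15839608) (l 15739208)) (c (l 15800864) (l 15671016))))) (b (a (b (c (l 15790392) (l 15686456)) (c (l 15759696) (l 15641120))) (b (c (l 15702432) (l 15573888)) (l 15608672))) (a (c (l 15720536) (l 15642224)) (b (l 15580912) (l 15549144)))))), by decide +kernel⟩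

theorem s5_pp_012 : ∃ t, chk3 f_pp_012 t 3 1 1 = true := ex3_b k3_pp_012 k4_pp_012

theorem s6_pp_012 : ∃ t, chk3 f_pp_012 t 2 3 1 = true := ex3_a k1_pp_012 k2_pp_012

theorem s7_pp_012 : ∃ t, chk3 f_pp_012 t 2 1 1 = true := ex3_b k0_pp_012 s6_pp_012

theorem s8_pp_012 : ∃ t, chk3 f_pp_012 t 1 1 1 = true := ex3_a s7_pp_012 s5_pp_012

theorem c_pp_012 : CertB 0 536870912 1073741824 536870912 858993459 64424510 3 eng mog cd2q0 cd2q2 pd1 false true true .pnp 0 1 2
    ndB2q0 ndB2q2 pcB1 Cut.none Ext.none :=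
  certB1 (fam := false) (s1 := true) (s2 := true) (a := 0) (b := 1) (c := 2) (cn := .pnp) (n1 := ndB2q0) (n2 := ndB2q2) (pc := pcB1) (cut := Cut.none) (xt := Ext.none) (P1 := 0) (W1 := 536870912) (P2 := 1073741824) (W2 := 536870912) (P3 := 858993459) (W3 := 64424510) (N0 := 3) (En := eng) (mo := mog) (C1 := cd2q0) (C2 := cd2q2) (C3 := pd1)
    rfl (fun _ => rfl) s8_pp_012

noncomputable def f_pp_022 : ℕ → ℕ → ℕ → ℕ → Bool := onCell 0 536870912 1073741824 536870912 858993459 64424510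
    (rowB 3 eng mog cd2q0 cd2q2 pd2 1 false true true .pp 0 2 2 (qsf 0 536870912 1073741824 536870912 2) ndB2q0 ndB2q2 pcB2 Cut.none Ext.none)

def k0_pp_022 : ∃ t, chk3 f_pp_022 t 4 4 1 = true :=
  ⟨(b (b (a (a (a (b (a (l 3) (b (l 3) (l 16564824))) (b (a (l 16566304) (l 16554608)) (c (l 16588032) (l 16594952)))) (b (b (c (l 16540792) (l 16527952)) (l 16523424)) (c (l 16551240) (l 16523728)))) (a (b (b (l 16544392) (l 16512760)) (l 16443128)) (b (l 16368320) (l 16472760)))) (a (c (b (b (l 16345760) (l 16353280)) (l 16366112)) (b (a (l 16420224) (l 16326976)) (l 16261944))) (a (b (l 16218720) (l 16250528)) (a (c (l 16163136) (l 16173464)) (b (l 16108800) (l 16145448)))))) (c (a (a (b (a (l 16529072) (l 16557560)) (l 16578488)) (b (l 16418848) (l 16510472))) (a (b (l 16384720) (l 16404784)) (a (l 16279952) (l 16183544)))) (a (a (b (a (b (l 16608520) (l 16623920)) (l 16595152)) (l 16631864)) (b (l 16558048) (l 16583280))) (a (b (l 16438088) (l 16461760)) (a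 (l 16314144) (l 16148584)))))) (a (b (b (a (c (l 16582960) (l 16543456)) (c (l 16522256) (l 16585840))) (a (c (l 16585160) (l 16503416)) (l 16426880))) (a (b (c (l 16516024) (l 16354568)) (c (l 16442960) (l 16363592))) (c (l 16486000) (l 16408768)))) (a (b (c (l 16429904) (l 16498096)) (c (l 16449248) (l 16475944))) (a (b (l 16349656) (l 16394832)) (b (c (l 16246352) (l 16317192)) (c (l 16283168) (l 16389120))))))), by decide +kernel⟩

def k1_pp_022 : ∃ t, chk3 f_pp_022 t 4 5 1 = true :=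
  ⟨(a (b (b (b (a (c (l 16371664) (l 16303960)) (l 16352664)) (a (b (l 16292040) (a (l 16195776) (l 16265952))) (b (l 16306664) (l 16277376)))) (a (c (l 16227856) (l 16140112)) (l 16203864))) (c (a (l 16246824) (l 16090472)) (a (b (l 16006168) (l 15883664)) (l 15961960)))) (a (b (b (b (l 16426232) (b (l 16382248) (l 16353720))) (l 16284296)) (c (l 16204528) (l 16053640))) (b (b (b (a (l 16421480) (l 16366304)) (a (l 16206200) (c (l 16338448) (l 16440064)))) (a (l 16387480) (l 16405560))) (a (l 16042960) (l 16178720))))), by decide +kernel⟩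

def k2_pp_022 : ∃ t, chk3 f_pp_022 t 5 2 1 = true :=
  ⟨(b (a (b (a (b (a (c (l 16166288) (l 16178048)) (b (l 16038392) (l 16077792))) (a (l 15939720) (c (l 16120896) (l 16153480)))) (b (a (c (l 16031784) (l 16016928)) (c (l 16006864) (l 15997280))) (a (l 16023056) (l 16087704)))) (a (b (a (l 16027128) (l 16038896)) (a (l 16295616) (l 16268288))) (c (b (l 16134544) (l 16177064)) (b (l 16219736) (l 16294936))))) (b (a (b (c (l 15980800) (l 15980720)) (c (l 16039448) (l 16088432))) (c (b (l 15924368) (l 15980760)) (b (l 15921528) (l 16025648)))) (a (c (b (l 16087144) (l 16125000)) (l 16215536)) (c (l 15941440) (l 16148568))))) (a (b (a (b (b (l 16320928) (l 16338888)) (l 16126256)) (c (l 16228152) (l 16352200))) (a (c (l 16285896) (l 16297592)) (c (l 16218648) (l 16337808)))) (b (a (c (l 16168304) (l 16298080)) (c (l 16102744) (l 16230912))) (a (l 16231432) (l 16165432))))), by decide +kernel⟩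

def k3_pp_022 : ∃ t, chk3 f_pp_022 t 2 3 1 = true :=
  ⟨(a (b (a (b (a (c (l 15908904) (l 15721376)) (c (b (l 15987776) (l 15918488)) (b (l 15801920) (l 15714192)))) (c (a (b (l 15802512) (l 15746176)) (b (l 15861376) (l 15820808))) (a (b (l 15585344) (l 15515584)) (b (l 15645224) (l 15601448))))) (a (b (b (l 15843536) (l 15951672)) (c (l 15970960) (l 15779368))) (b (a (l 16118880) (l 16200456)) (a (l 16027392) (l 16109216))))) (a (c (b (a (b (l 15702560) (l 15676808)) (l 15774560)) (a (l 15651600) (l 15716480))) (b (a (b (l 15466120) (l 15444440)) (l 15565808)) (a (l 15672728) (l 15547784)))) (a (b (c (l 15893544) (l 15726296)) (l 15554424)) (b (a (l 15955984) (l 16029248)) (l 2))))) (b (a (a (b (c (l 16219856) (l 16174256)) (l 15898328)) (b (l 16237200) (l 16125144))) (b (a (l 16169888) (l 16106032)) (a (l 16054544) (l 2)))) (a (a (b (l 16019760) (l 2)) (l 2)) (l 2)))), by decide +kernel⟩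

def k4_pp_022 : ∃ t, chk3 f_pp_022 t 3 1 1 = true :=
  ⟨(b (b (a (b (b (a (c (l 15819832) (l 15786808)) (l 15906824)) (a (c (l 15876616) (l 15892176)) (l 15798144))) (a (c (b (l 15923616) (l 15961192)) (b (l 15981920) (l 16052392))) (c (l 15838128) (l 15875744)))) (b (a (c (l 15683376) (l 15593416)) (l 15670928)) (a (c (l 15772704) (l 15772176)) (l 15807696)))) (a (b (a (c (l 16001536) (l 16114720)) (c (l 15893712) (l 15983496))) (a (c (l 15992160) (l 16152016)) (c (l 15892224) (l 16031936)))) (b (a (c (l 15821440) (l 15881584)) (l 2)) (l 2)))) (b (a (b (a (c (l 15935184) (l 16121928)) (l 2)) (l 2)) (l 2)) (l 2))), by decide +kernel⟩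

theorem s5_pp_022 : ∃ t, chk3 f_pp_022 t 4 2 1 = true := ex3_b k0_pp_022 k1_pp_022

theorem s6_pp_022 : ∃ t, chk3 f_pp_022 t 2 2 1 = true := ex3_a s5_pp_022 k2_pp_022

theorem s7_pp_022 : ∃ t, chk3 f_pp_022 t 2 1 1 = true := ex3_b s6_pp_022 k3_pp_022

theorem s8_pp_022 : ∃ t, chk3 f_pp_022 t 1 1 1 = true := ex3_a s7_pp_022 k4_pp_022

theorem c_pp_022 : CertB 0 536870912 1073741824 536870912 858993459 64424510 3 eng mog cd2q0 cd2q2 pd2 false true true .pp 0 2 2
    ndB2q0 ndB2q2 pcB2 Cut.none Ext.none :=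
  certB1 (fam := false) (s1 := true) (s2 := true) (a := 0) (b := 2) (c := 2) (cn := .pp) (n1 := ndB2q0) (n2 := ndB2q2) (pc := pcB2) (cut := Cut.none) (xt := Ext.none) (P1 := 0) (W1 := 536870912) (P2 := 1073741824) (W2 := 536870912) (P3 := 858993459) (W3 := 64424510) (N0 := 3) (En := eng) (mo := mog) (C1 := cd2q0) (C2 := cd2q2) (C3 := pd2)
    rfl (fun _ => rfl) s8_pp_022

noncomputable def f_pp_023 : ℕ → ℕ → ℕ → ℕ → Bool := onCell 0 536870912 0 1230186008 858993459 64424510
    (rowB 3 eng mog cd2q0 cd2q3 pd2 0 false true true .up 0 2 3 (qsf 0 536870912 0 1230186008 2) ndB2q0 ndB2q3 pcB2 Cut.none Ext.none)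

def k0_pp_023 : ∃ t, chk3 f_pp_023 t 1 1 1 = true :=
  ⟨(b (b (l 4) (a (l 2) (a (l 2) (b (l 4) (a (l 4) (l 16634416)))))) (b (a (b (l 2) (a (l 2) (a (l 2) (b (l 2) (a (l 2) (l 16057232)))))) (b (a (a (l 2) (b (l 16601472) (l 16516328))) (b (a (l 16643104) (l 16574336)) (a (l 16510064) (l 16433576)))) (a (b (a (l 16279264) (l 16378896)) (a (l 16190336) (l 16237552))) (b (a (l 16353872) (l 16274624)) (a (l 16199752) (l 16115424)))))) (a (b (a (l 2) (a (b (a (l 2) (l 15904320)) (a (l 15856904) (l 15895680))) (b (a (l 15953536) (l 16011920)) (a (l 15921896) (l 15957048))))) (a (b (a (l 2) (a (b (l 2) (l 15730080)) (a (l 15811008) (l 15862000)))) (a (b (l 717894217111) (c (l 15681240) (l 15425464))) (a (l 15544176) (a (l 15942672) (l 16031056))))) (a (b (a (b (l 15858696) (l 15914272)) (l 15908416)) (a (l 15947680) (l 16058800))) (b (a (l 15921888) (l 15940776)) (a (l 16054608) (l 16047968)))))) (b (a (b (a (l 16090704) (l 16108080)) (a (l 16003688) (l 15892680)))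 (b (a (l 16057896) (l 15968856)) (a (l 15934608) (l 15841528)))) (b (a (a (l 15960104) (b (l 15935544) (l 15914784))) (a (l 15597248) (l 15749168))) (a (a (l 15889960) (c (l 15881488) (l 15967264))) (a (c (l 15791720) (l 15791824)) (l 15676112)))))))), by decide +kernel⟩

theorem c_pp_023 : CertB 0 536870912 0 1230186008 858993459 64424510 3 eng mog cd2q0 cd2q3 pd2 false true true .up 0 2 3
    ndB2q0 ndB2q3 pcB2 Cut.none Ext.none :=
  certB0 (fam := false) (s1 := true) (s2 := true) (a := 0) (b := 2) (c := 3) (cn := .up) (n1 := ndB2q0) (n2 := ndB2q3) (pc := pcB2) (cut := Cut.none) (xt := Ext.none) (P1 := 0) (W1 := 536870912) (P2 := 0) (W2 := 1230186008) (P3 := 858993459) (W3 := 64424510) (N0 := 3) (En := eng) (mo := mog) (C1 := cd2q0) (C2 := cd2q3) (C3 := pd2)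
    rfl k0_pp_023

noncomputable def f_pp_033 : ℕ → ℕ → ℕ → ℕ → Bool := onCell 0 536870912 0 1230186008 858993459 64424510
    (rowB 3 eng mog cd2q0 cd2q3 pd3 0 false true true .pnn 0 3 3 (qsf 0 536870912 0 1230186008 3) ndB2q0 ndB2q3 pcB3 Cut.none Ext.none)

def k0_pp_033 : ∃ t, chk3 f_pp_033 t 1 1 1 = true :=
  ⟨(b (b (l 4) (a (l 4) (a (l 4) (b (l 4) (a (l 4) (b (l 4) (l 1))))))) (b (a (b (a (l 4) (a (l 4) (b (l 4) (a (l 16177176) (l 16255016))))) (a (b (a (b (l 4) (a (l 15555112) (l 15599592))) (a (l 15734640) (a (l 15868920) (l 15954960)))) (a (b (l 15541288) (l 15520328)) (a (l 15692712) (a (l 15840576) (l 15934832))))) (a (b (a (l 16013920) (l 16082552)) (a (l 16004000) (l 16086080))) (b (a (l 16145856) (l 16237120)) (a (l 16161552) (l 16264440)))))) (b (a (a (b (l 4) (l 16406264)) (b (l 16604840) (l 16578472))) (b (a (l 16659104) (l 1)) (l 1))) (a (b (a (l 16402120) (l 16581944)) (a (l 16445328) (l 1))) (l 1)))) (a (b (a (b (a (a (l 15464864) (l 15540112))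 (a (l 15683776) (a (l 15839824) (l 15938984)))) (a (b (l 15514152) (l 15717464)) (a (l 15767080) (a (l 15845056) (l 15948176))))) (a (b (a (l 16015312) (l 16107096)) (a (l 16030648) (l 16130856))) (b (a (l 16192592) (l 16306632)) (l 1)))) (a (b (a (b (a (l 15435808) (l 15522592)) (a (l 15434200) (l 15521424))) (a (b (l 15678200) (l 15677488)) (a (l 15843144) (l 16179432)))) (a (c (b (l 15548952) (l 15566312)) (a (l 15372680) (l 15461424))) (a (b (l 15683496) (l 1)) (l 1)))) (a (b (a (l 16035304) (l 1)) (l 1)) (l 1)))) (l 1)))), by decide +kernel⟩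

theorem c_pp_033 : CertB 0 536870912 0 1230186008 858993459 64424510 3 eng mog cd2q0 cd2q3 pd3 false true true .pnn 0 3 3
    ndB2q0 ndB2q3 pcB3 Cut.none Ext.none :=
  certB0 (fam := false) (s1 := true) (s2 := true) (a := 0) (b := 3) (c := 3) (cn := .pnn) (n1 := ndB2q0) (n2 := ndB2q3) (pc := pcB3) (cut := Cut.none) (xt := Ext.none) (P1 := 0) (W1 := 536870912) (P2 := 0) (W2 := 1230186008) (P3 := 858993459) (W3 := 64424510) (N0 := 3) (En := eng) (mo := mog) (C1 := cd2q0) (C2 := cd2q3) (C3 := pd3)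
    rfl k0_pp_033

noncomputable def f_pp_101 : ℕ → ℕ → ℕ → ℕ → Bool := onCell 536870912 536870912 536870912 536870912 858993459 64424510
    (rowB 3 eng mog cd2q1 cd2q1 pd0 0 false true true .npn 1 0 1 (qsf 536870912 536870912 536870912 536870912 0) ndB2q1 ndB2q1 pcB0 Cut.none Ext.none)

def k0_pp_101 : ∃ t, chk3 f_pp_101 t 1 1 1 = true :=
  ⟨(l 3), by decide +kernel⟩

theorem c_pp_101 : CertB 536870912 536870912 536870912 536870912 858993459 64424510 3 eng mog cd2q1 cd2q1 pd0 false true true .npn 1 0 1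
    ndB2q1 ndB2q1 pcB0 Cut.none Ext.none :=
  certB0 (fam := false) (s1 := true) (s2 := true) (a := 1) (b := 0) (c := 1) (cn := .npn) (n1 := ndB2q1) (n2 := ndB2q1) (pc := pcB0) (cut := Cut.none) (xt := Ext.none) (P1 := 536870912) (W1 := 536870912) (P2 := 536870912) (W2 := 536870912) (P3 := 858993459) (W3 := 64424510) (N0 := 3) (En := eng) (mo := mog) (C1 := cd2q1) (C2 := cd2q1) (C3 := pd0)
    rfl k0_pp_101

noncomputable def f_pp_102 : ℕ → ℕ → ℕ → ℕ → Bool := onCell 536870912 536870912 0 536870912 858993459 64424510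
    (rowB 3 eng mog cd2q1 cd2q2 pd0 1 false true true .npp 1 0 2 (qsf 536870912 536870912 1073741824 536870912 0) ndB2q1 ndB2q2 pcB0 Cut.none Ext.none)

def k0_pp_102 : ∃ t, chk3 f_pp_102 t 1 1 1 = true :=
  ⟨(b (l 3) (a (l 3) (b (l 3) (b (a (l 3) (a (a (l 3) (b (l 3) (c (l 15376248) (l 15186736)))) (a (b (l 3) (c (l 15302176) (l 15032992))) (b (b (l 3) (c (l 15128432) (l 14929264))) (c (l 15117424) (l 14873336)))))) (a (a (b (l 3) (c (l 15872424) (l 15801464))) (a (b (l 3) (l 15758912)) (b (a (l 15605928) (l 15585232)) (l 15535736)))) (a (b (c (a (l 15416624) (l 15289440)) (a (l 15259624) (l 15116288))) (c (l 15301344) (l 15129824))) (b (c (a (l 15156056) (l 15016336)) (a (l 14966592) (l 14810656))) (c (l 15038824) (l 14836688))))))))), by decide +kernel⟩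

theorem c_pp_102 : CertB 536870912 536870912 1073741824 536870912 858993459 64424510 3 eng mog cd2q1 cd2q2 pd0 false true true .npp 1 0 2
    ndB2q1 ndB2q2 pcB0 Cut.none Ext.none :=
  certB1 (fam := false) (s1 := true) (s2 := true) (a := 1) (b := 0) (c := 2) (cn := .npp) (n1 := ndB2q1) (n2 := ndB2q2) (pc := pcB0) (cut := Cut.none) (xt := Ext.none) (P1 := 536870912) (W1 := 536870912) (P2 := 1073741824) (W2 := 536870912) (P3 := 858993459) (W3 := 64424510) (N0 := 3) (En := eng) (mo := mog) (C1 := cd2q1) (C2 := cd2q2) (C3 := pd0)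
    rfl (fun _ => rfl) k0_pp_102

noncomputable def f_pp_112 : ℕ → ℕ → ℕ → ℕ → Bool := onCell 536870912 536870912 1073741824 536870912 858993459 64424510
    (rowB 3 eng mog cd2q1 cd2q2 pd1 2 false true true .dn 1 1 2 (qsf 536870912 536870912 1073741824 536870912 1) ndB2q1 ndB2q2 pcB1 Cut.none Ext.none)

def k0_pp_112 : ∃ t, chk3 f_pp_112 t 2 1 1 = true :=
  ⟨(a (b (b (l 3) (b (l 3) (a (a (l 3) (c (l 314772422183) (l 349132495687))) (c (a (b (l 15985744) (l 15923456)) (l 173039053383)) (a (l 182702561735) (l 221357311783)))))) (b (a (c (b (a (b (l 15786184) (l 15684632)) (l 15982160)) (a (b (l 15572672) (l 15454200)) (l 15609520))) (b (a (b (l 15677032) (l 15577160)) (l 15910296)) (a (c (l 15440384) (l 15388488)) (l 15508240)))) (b (c (a (l 15805368) (l 15835624)) (a (l 15728200) (l 15772408))) (c (a (l 15618552) (l 15666616)) (a (l 15555528) (l 15618520))))) (c (a (b (a (c (l 15291992) (l 15241760)) (l 15338360)) (a (c (l 15032584) (l 14972904)) (l 15092224)))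 (b (a (l 15407552) (l 15473568)) (a (l 15179864) (l 15264328)))) (a (a (b (l 15421160) (l 15125784)) (b (l 15261296) (l 15005008))) (b (a (l 15348240) (l 15429520)) (a (l 15109824) (l 15208928))))))) (b (b (a (l 3) (l 1)) (a (b (c (a (l 267528114775) (l 286855422087)) (c (a (l 15987296) (l 15980704)) (b (l 324973467431) (l 16093312)))) (c (a (l 16128288) (l 15987696)) (a (l 16074320) (l 15921408)))) (b (a (c (l 300679747959) (b (l 1) (l 15945320))) (l 1)) (c (a (l 15986728) (l 15978400)) (a (l 15930368) (l 15931296)))))) (b (a (c (b (a (l 15863032) (l 15885584)) (a (l 15711296) (l 15750800))) (b (a (l 15811152) (l 15843712)) (a (l 15675416) (l 15725472)))) (c (b (a (l 15900472) (l 15907568)) (l 15984480)) (b (a (l 15869232) (l 15885736)) (l 15974088)))) (a (c (b (a (l 15535912) (l 15593072)) (l 15572752)) (b (a (l 15504400) (l 15572192)) (l 15597528))) (c (b (l 15665328) (l 15522872)) (b (l 15658344) (l 15502208))))))), by decide +kernel⟩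

def k1_pp_112 : ∃ t, chk3 f_pp_112 t 3 1 1 = true :=
  ⟨(a (b (b (l 1) (a (a (a (b (l 1) (l 379063260071)) (l 1)) (l 1)) (l 1))) (a (b (c (b (l 16115528) (l 15829744)) (b (l 7011689703) (l 15828232))) (b (c (l 15735352) (l 15735288)) (c (l 15632656) (l 15618088)))) (b (b (c (l 15881368) (l 15898768)) (c (l 15835800) (l 15821696))) (b (c (l 15774288) (l 15758880)) (l 15940240))))) (b (l 1) (b (a (b (l 1) (c (l 15812704) (l 15764632))) (l 1)) (a (b (c (l 15779896) (l 15724688)) (l 15703984)) (b (l 15695632) (l 15663040)))))), by decide +kernel⟩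

theorem s2_pp_112 : ∃ t, chk3 f_pp_112 t 1 1 1 = true := ex3_a k0_pp_112 k1_pp_112

theorem c_pp_112 : CertB 536870912 536870912 1073741824 536870912 858993459 64424510 3 eng mog cd2q1 cd2q2 pd1 false true true .dn 1 1 2
    ndB2q1 ndB2q2 pcB1 Cut.none Ext.none :=
  certB2 (fam := false) (s1 := true) (s2 := true) (a := 1) (b := 1) (c := 2) (cn := .dn) (n1 := ndB2q1) (n2 := ndB2q2) (pc := pcB1) (cut := Cut.none) (xt := Ext.none) (P1 := 536870912) (W1 := 536870912) (P2 := 1073741824) (W2 := 536870912) (P3 := 858993459) (W3 := 64424510) (N0 := 3) (En := eng) (mo := mog) (C1 := cd2q1) (C2 := cd2q2) (C3 := pd1)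
    rfl (fun _ => rfl) s2_pp_112

noncomputable def f_pp_113 : ℕ → ℕ → ℕ → ℕ → Bool := onCell 536870912 536870912 0 1230186008 858993459 64424510
    (rowB 3 eng mog cd2q1 cd2q3 pd1 2 false true true .nn 1 1 3 (qsf 536870912 536870912 0 1230186008 1) ndB2q1 ndB2q3 pcB1 Cut.none Ext.none)

def k0_pp_113 : ∃ t, chk3 f_pp_113 t 1 1 1 = true :=
  ⟨(b (a (l 2) (a (l 2) (b (l 16508400) (b (l 16486624) (l 16560008))))) (b (a (b (l 2) (a (l 2) (b (l 2) (a (l 2) (l 442478856439))))) (b (a (b (l 524084839255) (l 489725094215)) (b (l 16722984) (l 16766256))) (a (b (c (l 16111256) (l 15379488)) (a (l 15264288) (l 15716648))) (b (l 16659064) (l 16118416))))) (a (a (b (l 2) (b (a (l 2) (c (a (l 14681584) (l 14807000)) (a (l 14555544) (l 14674160)))) (a (a (b (l 2) (c (l 14791048) (l 14692312))) (c (c (l 14860304) (l 14794872)) (l 14795168))) (c (a (l 14932072) (l 15034624)) (c (l 14914016) (l 14891848)))))) (b (a (b (c (l 14723408) (l 14367800)) (c (l 14832288) (l 14847136)))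 (b (l 14899432) (c (l 15121704) (l 14856872)))) (a (b (c (l 14990088) (l 14891824)) (c (a (l 15134144) (l 15229904)) (a (l 15057680) (l 15156464)))) (b (c (l 15222512) (l 15073704)) (c (l 15364512) (l 15294664)))))) (a (b (a (b (l 15216944) (l 15250632)) (b (l 15544288) (l 15482968))) (a (b (c (l 15434200) (l 15278728)) (c (l 15520736) (l 15451992))) (b (l 15510544) (c (l 15638824) (l 15552720))))) (b (a (l 15665488) (l 15669192)) (a (b (l 15581776) (l 15630680)) (b (l 15547496) (l 15584368)))))))), by decide +kernel⟩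

theorem c_pp_113 : CertB 536870912 536870912 0 1230186008 858993459 64424510 3 eng mog cd2q1 cd2q3 pd1 false true true .nn 1 1 3
    ndB2q1 ndB2q3 pcB1 Cut.none Ext.none :=
  certB2 (fam := false) (s1 := true) (s2 := true) (a := 1) (b := 1) (c := 3) (cn := .nn) (n1 := ndB2q1) (n2 := ndB2q3) (pc := pcB1) (cut := Cut.none) (xt := Ext.none) (P1 := 536870912) (W1 := 536870912) (P2 := 0) (W2 := 1230186008) (P3 := 858993459) (W3 := 64424510) (N0 := 3) (En := eng) (mo := mog) (C1 := cd2q1) (C2 := cd2q3) (C3 := pd1)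
    rfl (fun _ => rfl) k0_pp_113

noncomputable def f_pp_123 : ℕ → ℕ → ℕ → ℕ → Bool := onCell 1073741824 536870912 0 1230186008 858993459 64424510
    (rowB 3 eng mog cd2q1 cd2q3 pd2 2 false true true .npn 1 2 3 (qsf 536870912 536870912 0 1230186008 2) ndB2q1 ndB2q3 pcB2 Cut.none Ext.none)

def k0_pp_123 : ∃ t, chk3 f_pp_123 t 1 1 1 = true :=
  ⟨(b (b (a (a (l 16864096) (a (l 16784384) (l 4))) (l 4)) (a (a (a (l 16819752) (l 16906968)) (a (l 16601640) (l 16504944))) (a (a (l 16506144) (l 16541112)) (a (l 16588416) (l 4))))) (b (a (b (a (b (l 16737424) (l 16376592)) (b (l 16282232) (l 16154816))) (b (a (l 16093056) (l 16039904)) (a (a (l 15969176) (l 15869800)) (a (l 15912928) (l 15987536))))) (b (a (b (l 16378536) (l 16285320)) (b (l 16548320) (l 1))) (a (b (l 16193912) (l 16114488)) (l 1)))) (a (a (b (a (l 15725008) (l 15752016)) (a (b (l 15687168) (l 15676424)) (b (l 15751544) (l 15769664)))) (b (a (l 15827256) (l 15822760)) (b (a (l 15822104) (l 1)) (l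 1)))) (l 1)))), by decide +kernel⟩

theorem c_pp_123 : CertB 536870912 536870912 0 1230186008 858993459 64424510 3 eng mog cd2q1 cd2q3 pd2 false true true .npn 1 2 3
    ndB2q1 ndB2q3 pcB2 Cut.none Ext.none :=
  certB2 (fam := false) (s1 := true) (s2 := true) (a := 1) (b := 2) (c := 3) (cn := .npn) (n1 := ndB2q1) (n2 := ndB2q3) (pc := pcB2) (cut := Cut.none) (xt := Ext.none) (P1 := 536870912) (W1 := 536870912) (P2 := 0) (W2 := 1230186008) (P3 := 858993459) (W3 := 64424510) (N0 := 3) (En := eng) (mo := mog) (C1 := cd2q1) (C2 := cd2q3) (C3 := pd2)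
    rfl (fun _ => rfl) k0_pp_123

noncomputable def f_pp_133 : ℕ → ℕ → ℕ → ℕ → Bool := onCell 1610612736 536870912 0 1230186008 858993459 64424510
    (rowB 3 eng mog cd2q1 cd2q3 pd3 2 false true true .dn 1 3 3 (qsf 536870912 536870912 0 1230186008 3) ndB2q1 ndB2q3 pcB3 Cut.none Ext.none)

def k0_pp_133 : ∃ t, chk3 f_pp_133 t 1 1 1 = true :=
  ⟨(b (b (l 4) (l 1)) (l 1)), by decide +kernel⟩

theorem c_pp_133 : CertB 536870912 536870912 0 1230186008 858993459 64424510 3 eng mog cd2q1 cd2q3 pd3 false true true .dn 1 3 3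
    ndB2q1 ndB2q3 pcB3 Cut.none Ext.none :=
  certB2 (fam := false) (s1 := true) (s2 := true) (a := 1) (b := 3) (c := 3) (cn := .dn) (n1 := ndB2q1) (n2 := ndB2q3) (pc := pcB3) (cut := Cut.none) (xt := Ext.none) (P1 := 536870912) (W1 := 536870912) (P2 := 0) (W2 := 1230186008) (P3 := 858993459) (W3 := 64424510) (N0 := 3) (En := eng) (mo := mog) (C1 := cd2q1) (C2 := cd2q3) (C3 := pd3)
    rfl (fun _ => rfl) k0_pp_133

noncomputable def f_pp_202 : ℕ → ℕ → ℕ → ℕ → Bool := onCell 1073741824 536870912 1073741824 536870912 858993459 64424510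
    (rowB 3 eng mog cd2q2 cd2q2 pd0 0 false true true .pp 2 0 2 (qsf 1073741824 536870912 1073741824 536870912 0) ndB2q2 ndB2q2 pcB0 Cut.none Ext.none)

def k0_pp_202 : ∃ t, chk3 f_pp_202 t 1 1 1 = true :=
  ⟨(l 3), by decide +kernel⟩

theorem c_pp_202 : CertB 1073741824 536870912 1073741824 536870912 858993459 64424510 3 eng mog cd2q2 cd2q2 pd0 false true true .pp 2 0 2
    ndB2q2 ndB2q2 pcB0 Cut.none Ext.none :=
  certB0 (fam := false) (s1 := true) (s2 := true) (a := 2) (b := 0) (c := 2) (cn := .pp) (n1 := ndB2q2) (n2 := ndB2q2) (pc := pcB0) (cut := Cut.none) (xt := Ext.none) (P1 := 1073741824) (W1 := 536870912) (P2 := 1073741824) (W2 := 536870912) (P3 := 858993459) (W3 := 64424510) (N0 := 3) (En := eng) (mo := mog) (C1 := cd2q2) (C2 := cd2q2) (C3 := pd0)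
    rfl k0_pp_202

noncomputable def f_pp_203 : ℕ → ℕ → ℕ → ℕ → Bool := onCell 0 536870912 0 1230186008 858993459 64424510
    (rowB 3 eng mog cd2q2 cd2q3 pd0 2 false true true .up 2 0 3 (qsf 1073741824 536870912 0 1230186008 0) ndB2q2 ndB2q3 pcB0 Cut.none Ext.none)

def k0_pp_203 : ∃ t, chk3 f_pp_203 t 1 1 1 = true :=
  ⟨(b (l 3) (l 3)), by decide +kernel⟩

theorem c_pp_203 : CertB 1073741824 536870912 0 1230186008 858993459 64424510 3 eng mog cd2q2 cd2q3 pd0 false true true .up 2 0 3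
    ndB2q2 ndB2q3 pcB0 Cut.none Ext.none :=
  certB2 (fam := false) (s1 := true) (s2 := true) (a := 2) (b := 0) (c := 3) (cn := .up) (n1 := ndB2q2) (n2 := ndB2q3) (pc := pcB0) (cut := Cut.none) (xt := Ext.none) (P1 := 1073741824) (W1 := 536870912) (P2 := 0) (W2 := 1230186008) (P3 := 858993459) (W3 := 64424510) (N0 := 3) (En := eng) (mo := mog) (C1 := cd2q2) (C2 := cd2q3) (C3 := pd0)
    rfl (fun _ => rfl) k0_pp_203

noncomputable def f_pp_213 : ℕ → ℕ → ℕ → ℕ → Bool := onCell 1073741824 536870912 0 1230186008 858993459 64424510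
    (rowB 3 eng mog cd2q2 cd2q3 pd1 0 false true true .pnn 2 1 3 (qsf 1073741824 536870912 0 1230186008 1) ndB2q2 ndB2q3 pcB1 Cut.none Ext.none)

def k0_pp_213 : ∃ t, chk3 f_pp_213 t 1 1 1 = true :=
  ⟨(b (a (a (b (a (b (a (c (l 16609264) (l 16606440)) (c (l 16588792) (l 16554928))) (a (b (a (l 16590504) (l 16589432)) (a (c (l 16575576) (l 16530488)) (c (l 16567824) (l 16553800)))) (a (b (l 16590016) (a (l 16559744) (l 16496264))) (b (l 16571480) (l 361481079991))))) (b (a (a (l 16513832) (l 16664032)) (c (a (l 16597784) (l 16598512)) (l 386178001303))) (a (b (a (l 16447360) (l 338395619863)) (l 3)) (l 3)))) (b (a (b (a (a (c (b (l 16547120) (l 435032894503)) (b (l 16517432) (l 450065232103))) (b (l 320142067463) (l 3))) (l 3)) (l 3)) (l 3)) (l 3))) (b (b (l 3) (l 3)) (l 3))) (l 3)) (b (l 3) (l 3))), by decide +kernel⟩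

theorem c_pp_213 : CertB 1073741824 536870912 0 1230186008 858993459 64424510 3 eng mog cd2q2 cd2q3 pd1 false true true .pnn 2 1 3
    ndB2q2 ndB2q3 pcB1 Cut.none Ext.none :=
  certB0 (fam := false) (s1 := true) (s2 := true) (a := 2) (b := 1) (c := 3) (cn := .pnn) (n1 := ndB2q2) (n2 := ndB2q3) (pc := pcB1) (cut := Cut.none) (xt := Ext.none) (P1 := 1073741824) (W1 := 536870912) (P2 := 0) (W2 := 1230186008) (P3 := 858993459) (W3 := 64424510) (N0 := 3) (En := eng) (mo := mog) (C1 := cd2q2) (C2 := cd2q3) (C3 := pd1)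
    rfl k0_pp_213

noncomputable def f_pp_303 : ℕ → ℕ → ℕ → ℕ → Bool := onCell 0 1230186008 0 1230186008 858993459 64424510
    (rowB 3 eng mog cd2q3 cd2q3 pd0 0 false true true .npn 3 0 3 (qsf 0 1230186008 0 1230186008 0) ndB2q3 ndB2q3 pcB0 Cut.none Ext.none)

def k0_pp_303 : ∃ t, chk3 f_pp_303 t 1 1 1 = true :=
  ⟨(a (b (l 3) (l 3)) (b (l 3) (l 3))), by decide +kernel⟩

theorem c_pp_303 : CertB 0 1230186008 0 1230186008 858993459 64424510 3 eng mog cd2q3 cd2q3 pd0 false true true .npn 3 0 3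
    ndB2q3 ndB2q3 pcB0 Cut.none Ext.none :=
  certB0 (fam := false) (s1 := true) (s2 := true) (a := 3) (b := 0) (c := 3) (cn := .npn) (n1 := ndB2q3) (n2 := ndB2q3) (pc := pcB0) (cut := Cut.none) (xt := Ext.none) (P1 := 0) (W1 := 1230186008) (P2 := 0) (W2 := 1230186008) (P3 := 858993459) (W3 := 64424510) (N0 := 3) (En := eng) (mo := mog) (C1 := cd2q3) (C2 := cd2q3) (C3 := pd0)
    rfl k0_pp_303

noncomputable def f_pp_313 : ℕ → ℕ → ℕ → ℕ → Bool := onCell 0 1230186008 0 1230186008 858993459 64424510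
    (rowB 3 eng mog cd2q3 cd2q3 pd1 0 false true true .dn 3 1 3 (qsf 0 1230186008 0 1230186008 1) ndB2q3 ndB2q3 pcB1 Cut.none Ext.none)

def k0_pp_313 : ∃ t, chk3 f_pp_313 t 1 1 1 = true :=
  ⟨(a (l 1) (b (l 3) (l 1))), by decide +kernel⟩

theorem c_pp_313 : CertB 0 1230186008 0 1230186008 858993459 64424510 3 eng mog cd2q3 cd2q3 pd1 false true true .dn 3 1 3
    ndB2q3 ndB2q3 pcB1 Cut.none Ext.none :=
  certB0 (fam := false) (s1 := true) (s2 := true) (a := 3) (b := 1) (c := 3) (cn := .dn) (n1 := ndB2q3) (n2 := ndB2q3) (pc := pcB1) (cut := Cut.none) (xt := Ext.none) (P1 := 0) (W1 := 1230186008) (P2 := 0) (W2 := 1230186008) (P3 := 858993459) (W3 := 64424510) (N0 := 3) (En := eng) (mo := mog) (C1 := cd2q3) (C2 := cd2q3) (C3 := pd1)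
    rfl k0_pp_313

noncomputable def f_pm_001 : ℕ → ℕ → ℕ → ℕ → Bool := onCell 0 536870912 536870912 536870912 858993459 64424510
    (rowB 3 eng mog cd2q0 cd2q1 pd0 0 false true false .up 0 0 1 (qsf 0 536870912 536870912 536870912 0) ndB2q0 ndB2q1 pcB0 Cut.none Ext.none)

def k0_pm_001 : ∃ t, chk3 f_pm_001 t 1 1 1 = true :=
  ⟨(l 4), by decide +kernel⟩

theorem c_pm_001 : CertB 0 536870912 536870912 536870912 858993459 64424510 3 eng mog cd2q0 cd2q1 pd0 false true false .up 0 0 1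
    ndB2q0 ndB2q1 pcB0 Cut.none Ext.none :=
  certB0 (fam := false) (s1 := true) (s2 := false) (a := 0) (b := 0) (c := 1) (cn := .up) (n1 := ndB2q0) (n2 := ndB2q1) (pc := pcB0) (cut := Cut.none) (xt := Ext.none) (P1 := 0) (W1 := 536870912) (P2 := 536870912) (W2 := 536870912) (P3 := 858993459) (W3 := 64424510) (N0 := 3) (En := eng) (mo := mog) (C1 := cd2q0) (C2 := cd2q1) (C3 := pd0)
    rfl k0_pm_001

noncomputable def f_pm_011 : ℕ → ℕ → ℕ → ℕ → Bool := onCell 0 536870912 536870912 536870912 858993459 64424510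
    (rowB 3 eng mog cd2q0 cd2q1 pd1 0 false true false .pnn 0 1 1 (qsf 0 536870912 536870912 536870912 1) ndB2q0 ndB2q1 pcB1 Cut.none Ext.none)

def k0_pm_011 : ∃ t, chk3 f_pm_011 t 1 1 1 = true :=
  ⟨(l 4), by decide +kernel⟩

theorem c_pm_011 : CertB 0 536870912 536870912 536870912 858993459 64424510 3 eng mog cd2q0 cd2q1 pd1 false true false .pnn 0 1 1
    ndB2q0 ndB2q1 pcB1 Cut.none Ext.none :=
  certB0 (fam := false) (s1 := true) (s2 := false) (a := 0) (b := 1) (c := 1) (cn := .pnn) (n1 := ndB2q0) (n2 := ndB2q1) (pc := pcB1) (cut := Cut.none) (xt := Ext.none) (P1 := 0) (W1 := 536870912) (P2 := 536870912) (W2 := 536870912) (P3 := 858993459) (W3 := 64424510) (N0 := 3) (En := eng) (mo := mog) (C1 := cd2q0) (C2 := cd2q1) (C3 := pd1)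
    rfl k0_pm_011

noncomputable def f_pm_012 : ℕ → ℕ → ℕ → ℕ → Bool := onCell 0 536870912 1073741824 536870912 858993459 64424510
    (rowB 3 eng mog cd2q0 cd2q2 pd1 0 false true false .pnp 0 1 2 (qsf 0 536870912 1073741824 536870912 1) ndB2q0 ndB2q2 pcB1 Cut.none Ext.none)

def k0_pm_012 : ∃ t, chk3 f_pm_012 t 1 1 1 = true :=
  ⟨(l 4), by decide +kernel⟩

theorem c_pm_012 : CertB 0 536870912 1073741824 536870912 858993459 64424510 3 eng mog cd2q0 cd2q2 pd1 false true false .pnp 0 1 2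
    ndB2q0 ndB2q2 pcB1 Cut.none Ext.none :=
  certB0 (fam := false) (s1 := true) (s2 := false) (a := 0) (b := 1) (c := 2) (cn := .pnp) (n1 := ndB2q0) (n2 := ndB2q2) (pc := pcB1) (cut := Cut.none) (xt := Ext.none) (P1 := 0) (W1 := 536870912) (P2 := 1073741824) (W2 := 536870912) (P3 := 858993459) (W3 := 64424510) (N0 := 3) (En := eng) (mo := mog) (C1 := cd2q0) (C2 := cd2q2) (C3 := pd1)
    rfl k0_pm_012

noncomputable def f_pm_022 : ℕ → ℕ → ℕ → ℕ → Bool := onCell 0 536870912 1073741824 536870912 858993459 64424510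
    (rowB 3 eng mog cd2q0 cd2q2 pd2 0 false true false .pp 0 2 2 (qsf 0 536870912 1073741824 536870912 2) ndB2q0 ndB2q2 pcB2 Cut.none Ext.none)

def k0_pm_022 : ∃ t, chk3 f_pm_022 t 1 1 1 = true :=
  ⟨(l 4), by decide +kernel⟩

theorem c_pm_022 : CertB 0 536870912 1073741824 536870912 858993459 64424510 3 eng mog cd2q0 cd2q2 pd2 false true false .pp 0 2 2
    ndB2q0 ndB2q2 pcB2 Cut.none Ext.none :=
  certB0 (fam := false) (s1 := true) (s2 := false) (a := 0) (b := 2) (c := 2) (cn := .pp) (n1 := ndB2q0) (n2 := ndB2q2) (pc := pcB2) (cut := Cut.none) (xt := Ext.none) (P1 := 0) (W1 := 536870912) (P2 := 1073741824) (W2 := 536870912) (P3 := 858993459) (W3 := 64424510) (N0 := 3) (En := eng) (mo := mog) (C1 := cd2q0) (C2 := cd2q2) (C3 := pd2)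
    rfl k0_pm_022

noncomputable def f_pm_023 : ℕ → ℕ → ℕ → ℕ → Bool := onCell 0 536870912 0 1230186008 858993459 64424510
    (rowB 3 eng mog cd2q0 cd2q3 pd2 0 false true false .up 0 2 3 (qsf 0 536870912 0 1230186008 2) ndB2q0 ndB2q3 pcB2 Cut.none Ext.none)

def k0_pm_023 : ∃ t, chk3 f_pm_023 t 1 1 1 = true :=
  ⟨(b (l 4) (l 4)), by decide +kernel⟩

theorem c_pm_023 : CertB 0 536870912 0 1230186008 858993459 64424510 3 eng mog cd2q0 cd2q3 pd2 false true false .up 0 2 3
    ndB2q0 ndB2q3 pcB2 Cut.none Ext.none :=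
  certB0 (fam := false) (s1 := true) (s2 := false) (a := 0) (b := 2) (c := 3) (cn := .up) (n1 := ndB2q0) (n2 := ndB2q3) (pc := pcB2) (cut := Cut.none) (xt := Ext.none) (P1 := 0) (W1 := 536870912) (P2 := 0) (W2 := 1230186008) (P3 := 858993459) (W3 := 64424510) (N0 := 3) (En := eng) (mo := mog) (C1 := cd2q0) (C2 := cd2q3) (C3 := pd2)
    rfl k0_pm_023

noncomputable def f_pm_033 : ℕ → ℕ → ℕ → ℕ → Bool := onCell 0 536870912 0 1230186008 858993459 64424510
    (rowB 3 eng mog cd2q0 cd2q3 pd3 0 false true false .pnn 0 3 3 (qsf 0 536870912 0 1230186008 3) ndB2q0 ndB2q3 pcB3 Cut.none Ext.none)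

def k0_pm_033 : ∃ t, chk3 f_pm_033 t 1 1 1 = true :=
  ⟨(b (l 4) (l 4)), by decide +kernel⟩

theorem c_pm_033 : CertB 0 536870912 0 1230186008 858993459 64424510 3 eng mog cd2q0 cd2q3 pd3 false true false .pnn 0 3 3
    ndB2q0 ndB2q3 pcB3 Cut.none Ext.none :=
  certB0 (fam := false) (s1 := true) (s2 := false) (a := 0) (b := 3) (c := 3) (cn := .pnn) (n1 := ndB2q0) (n2 := ndB2q3) (pc := pcB3) (cut := Cut.none) (xt := Ext.none) (P1 := 0) (W1 := 536870912) (P2 := 0) (W2 := 1230186008) (P3 := 858993459) (W3 := 64424510) (N0 := 3) (En := eng) (mo := mog) (C1 := cd2q0) (C2 := cd2q3) (C3 := pd3)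
    rfl k0_pm_033

noncomputable def f_pm_101 : ℕ → ℕ → ℕ → ℕ → Bool := onCell 536870912 536870912 536870912 536870912 858993459 64424510
    (rowB 3 eng mog cd2q1 cd2q1 pd0 0 false true false .npn 1 0 1 (qsf 536870912 536870912 536870912 536870912 0) ndB2q1 ndB2q1 pcB0 Cut.none Ext.none)

def k0_pm_101 : ∃ t, chk3 f_pm_101 t 1 1 1 = true :=
  ⟨(l 4), by decide +kernel⟩

theorem c_pm_101 : CertB 536870912 536870912 536870912 536870912 858993459 64424510 3 eng mog cd2q1 cd2q1 pd0 false true false .npn 1 0 1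
    ndB2q1 ndB2q1 pcB0 Cut.none Ext.none :=
  certB0 (fam := false) (s1 := true) (s2 := false) (a := 1) (b := 0) (c := 1) (cn := .npn) (n1 := ndB2q1) (n2 := ndB2q1) (pc := pcB0) (cut := Cut.none) (xt := Ext.none) (P1 := 536870912) (W1 := 536870912) (P2 := 536870912) (W2 := 536870912) (P3 := 858993459) (W3 := 64424510) (N0 := 3) (En := eng) (mo := mog) (C1 := cd2q1) (C2 := cd2q1) (C3 := pd0)
    rfl k0_pm_101

noncomputable def f_pm_102 : ℕ → ℕ → ℕ → ℕ → Bool := onCell 536870912 536870912 1073741824 536870912 858993459 64424510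
    (rowB 3 eng mog cd2q1 cd2q2 pd0 0 false true false .npp 1 0 2 (qsf 536870912 536870912 1073741824 536870912 0) ndB2q1 ndB2q2 pcB0 Cut.none Ext.none)

def k0_pm_102 : ∃ t, chk3 f_pm_102 t 1 1 1 = true :=
  ⟨(l 4), by decide +kernel⟩

theorem c_pm_102 : CertB 536870912 536870912 1073741824 536870912 858993459 64424510 3 eng mog cd2q1 cd2q2 pd0 false true false .npp 1 0 2
    ndB2q1 ndB2q2 pcB0 Cut.none Ext.none :=
  certB0 (fam := false) (s1 := true) (s2 := false) (a := 1) (b := 0) (c := 2) (cn := .npp) (n1 := ndB2q1) (n2 := ndB2q2) (pc := pcB0) (cut := Cut.none) (xt := Ext.none) (P1 := 536870912) (W1 := 536870912) (P2 := 1073741824) (W2 := 536870912) (P3 := 858993459) (W3 := 64424510) (N0 := 3) (En := eng) (mo := mog) (C1 := cd2q1) (C2 := cd2q2) (C3 := pd0)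
    rfl k0_pm_102

noncomputable def f_pm_112 : ℕ → ℕ → ℕ → ℕ → Bool := onCell 536870912 536870912 1073741824 536870912 858993459 64424510
    (rowB 3 eng mog cd2q1 cd2q2 pd1 0 false true false .dn 1 1 2 (qsf 536870912 536870912 1073741824 536870912 1) ndB2q1 ndB2q2 pcB1 Cut.none Ext.none)

def k0_pm_112 : ∃ t, chk3 f_pm_112 t 1 1 1 = true :=
  ⟨(l 4), by decide +kernel⟩

theorem c_pm_112 : CertB 536870912 536870912 1073741824 536870912 858993459 64424510 3 eng mog cd2q1 cd2q2 pd1 false true false .dn 1 1 2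
    ndB2q1 ndB2q2 pcB1 Cut.none Ext.none :=
  certB0 (fam := false) (s1 := true) (s2 := false) (a := 1) (b := 1) (c := 2) (cn := .dn) (n1 := ndB2q1) (n2 := ndB2q2) (pc := pcB1) (cut := Cut.none) (xt := Ext.none) (P1 := 536870912) (W1 := 536870912) (P2 := 1073741824) (W2 := 536870912) (P3 := 858993459) (W3 := 64424510) (N0 := 3) (En := eng) (mo := mog) (C1 := cd2q1) (C2 := cd2q2) (C3 := pd1)
    rfl k0_pm_112

noncomputable def f_pm_113 : ℕ → ℕ → ℕ → ℕ → Bool := onCell 536870912 536870912 0 1230186008 858993459 64424510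
    (rowB 3 eng mog cd2q1 cd2q3 pd1 0 false true false .nn 1 1 3 (qsf 536870912 536870912 0 1230186008 1) ndB2q1 ndB2q3 pcB1 Cut.none Ext.none)

def k0_pm_113 : ∃ t, chk3 f_pm_113 t 1 1 1 = true :=
  ⟨(b (a (l 2) (b (a (l 2) (l 16598544)) (l 4))) (l 4)), by decide +kernel⟩

theorem c_pm_113 : CertB 536870912 536870912 0 1230186008 858993459 64424510 3 eng mog cd2q1 cd2q3 pd1 false true false .nn 1 1 3
    ndB2q1 ndB2q3 pcB1 Cut.none Ext.none :=
  certB0 (fam := false) (s1 := true) (s2 := false) (a := 1) (b := 1) (c := 3) (cn := .nn) (n1 := ndB2q1) (n2 := ndB2q3) (pc := pcB1) (cut := Cut.none) (xt := Ext.none) (P1 := 536870912) (W1 := 536870912) (P2 := 0) (W2 := 1230186008) (P3 := 858993459) (W3 := 64424510) (N0 := 3) (En := eng) (mo := mog) (C1 := cd2q1) (C2 := cd2q3) (C3 := pd1)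
    rfl k0_pm_113

noncomputable def f_pm_123 : ℕ → ℕ → ℕ → ℕ → Bool := onCell 536870912 536870912 0 1230186008 858993459 64424510
    (rowB 3 eng mog cd2q1 cd2q3 pd2 0 false true false .npn 1 2 3 (qsf 536870912 536870912 0 1230186008 2) ndB2q1 ndB2q3 pcB2 Cut.none Ext.none)

def k0_pm_123 : ∃ t, chk3 f_pm_123 t 1 1 1 = true :=
  ⟨(b (a (l 4) (b (a (l 4) (a (l 4) (l 16806472))) (l 4))) (l 4)), by decide +kernel⟩

theorem c_pm_123 : CertB 536870912 536870912 0 1230186008 858993459 64424510 3 eng mog cd2q1 cd2q3 pd2 false true false .npn 1 2 3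
    ndB2q1 ndB2q3 pcB2 Cut.none Ext.none :=
  certB0 (fam := false) (s1 := true) (s2 := false) (a := 1) (b := 2) (c := 3) (cn := .npn) (n1 := ndB2q1) (n2 := ndB2q3) (pc := pcB2) (cut := Cut.none) (xt := Ext.none) (P1 := 536870912) (W1 := 536870912) (P2 := 0) (W2 := 1230186008) (P3 := 858993459) (W3 := 64424510) (N0 := 3) (En := eng) (mo := mog) (C1 := cd2q1) (C2 := cd2q3) (C3 := pd2)
    rfl k0_pm_123

noncomputable def f_pm_133 : ℕ → ℕ → ℕ → ℕ → Bool := onCell 1610612736 536870912 0 1230186008 858993459 64424510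
    (rowB 3 eng mog cd2q1 cd2q3 pd3 2 false true false .dn 1 3 3 (qsf 536870912 536870912 0 1230186008 3) ndB2q1 ndB2q3 pcB3 Cut.none Ext.none)

def k0_pm_133 : ∃ t, chk3 f_pm_133 t 1 1 1 = true :=
  ⟨(b (l 4) (l 1)), by decide +kernel⟩

theorem c_pm_133 : CertB 536870912 536870912 0 1230186008 858993459 64424510 3 eng mog cd2q1 cd2q3 pd3 false true false .dn 1 3 3
    ndB2q1 ndB2q3 pcB3 Cut.none Ext.none :=
  certB2 (fam := false) (s1 := true) (s2 := false) (a := 1) (b := 3) (c := 3) (cn := .dn) (n1 := ndB2q1) (n2 := ndB2q3) (pc := pcB3) (cut := Cut.none) (xt := Ext.none) (P1 := 536870912) (W1 := 536870912) (P2 := 0) (W2 := 1230186008) (P3 := 858993459) (W3 := 64424510) (N0 := 3) (En := eng) (mo := mog) (C1 := cd2q1) (C2 := cd2q3) (C3 := pd3)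
    rfl (fun _ => rfl) k0_pm_133

noncomputable def f_pm_202 : ℕ → ℕ → ℕ → ℕ → Bool := onCell 1073741824 536870912 0 536870912 858993459 64424510
    (rowB 3 eng mog cd2q2 cd2q2 pd0 1 false true false .pp 2 0 2 (qsf 1073741824 536870912 1073741824 536870912 0) ndB2q2 ndB2q2 pcB0 Cut.none Ext.none)

def k0_pm_202 : ∃ t, chk3 f_pm_202 t 4 2 1 = true :=
  ⟨(b (a (b (b (b (a (a (c (a (l 16018072) (l 16038112)) (a (l 15902776) (l 15940376))) (b (l 16029744) (l 16035784))) (a (l 16087672) (l 16140576))) (a (a (a (l 15974808) (l 16003320)) (l 16045784)) (c (l 16132768) (l 16124776)))) (a (a (c (l 16046440) (l 15979152)) (c (l 16086496) (l 16052688))) (c (b (l 16140608) (l 16152184)) (l 16157128)))) (b (a (c (a (l 16036376) (l 16079008)) (a (l 15998408) (l 16068840))) (b (l 16161520) (l 16124256))) (b (a (a (l 15985536) (l 16042160)) (l 16166064)) (a (b (l 15994432) (a (l 15954816) (l 16012104))) (c (l 16099168) (l 16085016)))))) (b (b (a (c (b (l 16197920) (l 16206656))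 (l 16244800)) (c (l 16196456) (l 16347592))) (a (c (l 16229240) (l 16254368)) (l 16086608))) (b (a (l 16001368) (l 16339608)) (b (a (l 16224568) (l 16312648)) (a (l 15993048) (l 16208432)))))) (b (b (a (b (a (c (l 16007176) (l 15975152)) (l 16101096)) (a (a (l 15970760) (l 16027760)) (l 16048080))) (b (a (l 16077224) (l 16290824)) (a (l 16060992) (l 16292624)))) (a (a (b (c (l 16020720) (l 16002784)) (l 16015040)) (b (l 16114912) (l 16118440))) (a (c (l 16172568) (l 16260128)) (l 16293976)))) (a (b (a (b (l 16017400) (l 16018616)) (l 15953120)) (c (l 15895344) (a (l 16005744) (l 16135240)))) (b (c (l 16201208) (l 16314504)) (c (l 16186592) (l 16300992)))))), by decide +kernel⟩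

def k1_pm_202 : ∃ t, chk3 f_pm_202 t 5 2 1 = true :=
  ⟨(b (a (b (b (a (l 16388520) (l 16449464)) (c (l 16404896) (l 16464704))) (b (c (l 16393608) (l 16415496)) (b (l 16186576) (c (l 16344296) (l 16447160))))) (b (c (l 16108152) (b (l 16191392) (l 16114104))) (b (c (l 16233304) (l 15921472)) (b (l 16229752) (l 16259152))))) (b (b (a (b (l 16369616) (l 16389672)) (c (l 16309792) (l 16177704))) (a (c (l 16330568) (l 16386496)) (l 16193512))) (a (b (l 16378104) (l 16363576)) (b (l 16221152) (l 16216624))))), by decide +kernel⟩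

def k2_pm_202 : ∃ t, chk3 f_pm_202 t 2 3 1 = true :=
  ⟨(b (a (a (b (c (b (l 16015912) (l 15998928)) (b (l 15977368) (l 15936248))) (c (b (l 15988336) (l 15982400)) (a (l 15910528) (l 16071912)))) (b (c (a (l 16124592) (l 16193408)) (a (l 16216800) (l 16315944))) (c (a (l 16106136) (l 16174200)) (a (l 16194736) (l 16291448))))) (b (a (c (l 16286448) (l 16324288)) (b (l 16214768) (l 169750259703))) (a (c (l 16259496) (l 16124480)) (c (l 16238984) (b (l 16152584) (l 2)))))) (a (a (b (c (a (l 15933104) (l 16020888)) (a (l 15926120) (l 16063752))) (c (a (l 15934736) (l 16016568)) (a (l 15884696) (l 16055344)))) (b (c (a (l 16095520) (l 16156456)) (l 15996552)) (a (c (l 16082208) (l 16158960)) (l 2)))) (a (a (a (b (l 16242320) (l 2)) (l 2)) (l 2)) (l 2)))), by decide +kernel⟩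

def k3_pm_202 : ∃ t, chk3 f_pm_202 t 3 1 1 = true :=
  ⟨(b (a (b (a (b (b (c (l 16045984) (l 15869712)) (c (l 15989952) (a (l 15869432) (l 15736368)))) (b (c (l 16037312) (l 15597736)) (b (l 16021456) (l 15867856)))) (b (a (b (c (l 15865864) (l 15652048)) (c (l 15856400) (l 15639544))) (b (c (l 15765000) (l 15534336)) (l 15676360))) (b (c (l 15885472) (l 15676344)) (b (c (l 15944864) (l 15748952)) (c (l 15970664) (l 15783072)))))) (b (b (a (c (l 16132800) (l 15844024)) (a (l 15936960) (c (l 15942328) (l 15764824)))) (a (c (l 16128128) (l 15975384)) (a (l 15947760) (l 15917576)))) (a (b (l 15894656) (a (l 16103512) (l 16045096))) (b (a (l 15972360) (l 2)) (l 2))))) (b (a (a (b (b (c (l 15695320) (l 15455688)) (l 15621144)) (b (l 15763848) (b (l 15755744) (l 15779432)))) (b (b (c (l 15634872) (l 15391488)) (l 15576992)) (b (b (l 15633336) (a (l 15683024) (l 15659896))) (b (l 15707704) (l 2))))) (b (b (a (c (l 15586800) (l 15342272)) (a (l 103177560199) (b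 (l 15418624) (l 431205505719)))) (c (b (l 407583707623) (l 360875947079)) (a (l 15418488) (l 343158640839)))) (a (b (c (c (l 15758728) (l 15681176)) (l 15522392)) (l 2)) (l 2)))) (b (a (b (a (l 363023782887) (l 2)) (l 2)) (l 2)) (l 2)))) (b (a (b (a (b (c (l 16147232) (l 16033504)) (l 2)) (l 2)) (l 2)) (l 2)) (l 2))), by decide +kernel⟩

theorem s4_pm_202 : ∃ t, chk3 f_pm_202 t 2 2 1 = true := ex3_a k0_pm_202 k1_pm_202

theorem s5_pm_202 : ∃ t, chk3 f_pm_202 t 2 1 1 = true := ex3_b s4_pm_202 k2_pm_202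

theorem s6_pm_202 : ∃ t, chk3 f_pm_202 t 1 1 1 = true := ex3_a s5_pm_202 k3_pm_202

theorem c_pm_202 : CertB 1073741824 536870912 1073741824 536870912 858993459 64424510 3 eng mog cd2q2 cd2q2 pd0 false true false .pp 2 0 2
    ndB2q2 ndB2q2 pcB0 Cut.none Ext.none :=
  certB1 (fam := false) (s1 := true) (s2 := false) (a := 2) (b := 0) (c := 2) (cn := .pp) (n1 := ndB2q2) (n2 := ndB2q2) (pc := pcB0) (cut := Cut.none) (xt := Ext.none) (P1 := 1073741824) (W1 := 536870912) (P2 := 1073741824) (W2 := 536870912) (P3 := 858993459) (W3 := 64424510) (N0 := 3) (En := eng) (mo := mog) (C1 := cd2q2) (C2 := cd2q2) (C3 := pd0)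
    rfl (fun _ => rfl) s6_pm_202

noncomputable def f_pm_203 : ℕ → ℕ → ℕ → ℕ → Bool := onCell 0 536870912 0 1230186008 858993459 64424510
    (rowB 3 eng mog cd2q2 cd2q3 pd0 2 false true false .up 2 0 3 (qsf 1073741824 536870912 0 1230186008 0) ndB2q2 ndB2q3 pcB0 Cut.none Ext.none)

def k0_pm_203 : ∃ t, chk3 f_pm_203 t 1 1 1 = true :=
  ⟨(b (a (l 2) (l 3)) (b (a (l 3) (b (l 3) (a (l 3) (a (b (l 3) (b (l 16395568) (l 16372480))) (b (a (l 3) (l 16446664)) (c (l 16355528) (l 16413288))))))) (a (b (b (l 3) (a (l 2) (a (l 3) (b (l 3) (a (l 16015736) (l 16076248)))))) (a (b (b (l 3) (a (l 2) (a (c (l 350205725831) (l 378122907847)) (a (l 167669723687) (l 15825416))))) (b (a (a (l 2) (c (l 419394749495) (a (l 437111237447) (l 15536528)))) (a (c (a (l 15708616) (l 15750496)) (l 144047108151)) (c (l 15814456) (l 15666808)))) (b (a (a (c (l 427447510551) (l 445163989431)) (a (l 334031995607) (l 15573688))) (a (l 15649640) (l 15748968))) (a (a (c (l 15550400) (l 15335992))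 (l 15575664)) (a (l 15662560) (l 15772512)))))) (a (a (b (b (l 367922772279) (c (l 15893808) (l 15771648))) (b (l 15833848) (l 15852400))) (b (b (l 146732078535) (l 15917096)) (b (l 15911944) (l 15935824)))) (b (a (c (l 16029568) (l 15939872)) (l 16036408)) (b (a (l 15985120) (l 16052328)) (a (l 16014784) (l 16089400))))))) (a (b (a (b (a (l 3) (l 270212830935)) (c (l 16173056) (l 16204992))) (b (a (l 16267584) (l 16302448)) (a (l 16230400) (l 16262512)))) (b (a (a (l 16115288) (l 16165592)) (l 16223488)) (a (b (l 16081888) (l 16130416)) (b (l 16064744) (c (l 16262304) (l 16270608)))))) (b (a (b (c (l 16312616) (l 16342232)) (l 16287632)) (b (l 16323120) (a (l 16274168) (l 16239112)))) (b (a (c (l 16239904) (l 16253896)) (b (l 16205424) (a (l 16192968) (l 16131112)))) (a (c (b (l 16201888) (l 16157272)) (b (l 16266344) (l 16232480))) (c (b (l 16084464) (l 16076536)) (b (l 16136480) (l 16031232)))))))))), by decide +kernel⟩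

theorem c_pm_203 : CertB 1073741824 536870912 0 1230186008 858993459 64424510 3 eng mog cd2q2 cd2q3 pd0 false true false .up 2 0 3
    ndB2q2 ndB2q3 pcB0 Cut.none Ext.none :=
  certB2 (fam := false) (s1 := true) (s2 := false) (a := 2) (b := 0) (c := 3) (cn := .up) (n1 := ndB2q2) (n2 := ndB2q3) (pc := pcB0) (cut := Cut.none) (xt := Ext.none) (P1 := 1073741824) (W1 := 536870912) (P2 := 0) (W2 := 1230186008) (P3 := 858993459) (W3 := 64424510) (N0 := 3) (En := eng) (mo := mog) (C1 := cd2q2) (C2 := cd2q3) (C3 := pd0)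
    rfl (fun _ => rfl) k0_pm_203

noncomputable def f_pm_213 : ℕ → ℕ → ℕ → ℕ → Bool := onCell 1073741824 536870912 0 1230186008 858993459 64424510
    (rowB 3 eng mog cd2q2 cd2q3 pd1 0 false true false .pnn 2 1 3 (qsf 1073741824 536870912 0 1230186008 1) ndB2q2 ndB2q3 pcB1 Cut.none Ext.none)

def k0_pm_213 : ∃ t, chk3 f_pm_213 t 1 2 1 = true :=
  ⟨(a (a (b (a (b (a (c (l 16608064) (l 16608088)) (l 16613976)) (a (l 16761312) (b (l 16570704) (l 16554888)))) (b (a (c (l 16566200) (l 16635408)) (c (l 16500632) (l 16653056))) (a (c (l 16547120) (l 16625968)) (c (l 16477632) (l 16638752))))) (a (b (a (b (l 16530448) (l 16658760)) (b (l 16546304) (l 16652896))) (b (c (a (l 16680440) (l 16668080)) (a (l 16606496) (l 16600104))) (c (a (l 16612032) (l 16590864)) (a (l 16500296) (l 16486080))))) (b (a (b (l 16628680) (l 16520288)) (b (l 16626232) (l 16640496))) (b (c (l 16641920) (l 16849736)) (c (a (l 16568368) (l 16545912)) (a (l 16481032) (l 16482272))))))) (b (a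 (b (a (l 343228294743) (l 3)) (a (c (l 16525320) (l 16634368)) (l 324437936839))) (l 3)) (a (b (a (b (l 16625088) (l 16719416)) (b (l 16623328) (l 16672440))) (b (a (c (l 16624600) (l 16588576)) (c (l 16600632) (l 16599528))) (a (c (l 16538104) (l 16475072)) (c (l 16516408) (l 16490504))))) (b (a (c (l 16594856) (l 16655176)) (l 3)) (b (a (c (l 16570640) (l 16614504)) (l 3)) (c (a (l 16467536) (l 16478432)) (a (l 16504032) (l 16556072)))))))) (a (b (l 3) (l 3)) (l 3))), by decide +kernel⟩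

def k1_pm_213 : ∃ t, chk3 f_pm_213 t 1 6 1 = true :=
  ⟨(a (b (a (a (a (b (b (l 16299752) (l 16423792)) (c (l 16535640) (l 16216952))) (b (b (l 16425296) (l 16421296)) (c (l 16491592) (l 16196480)))) (b (a (c (l 16483160) (l 16286768)) (b (l 16357472) (l 16391872))) (a (c (l 16423216) (l 16220424)) (c (l 16399920) (l 16256752))))) (b (a (c (a (l 16366736) (l 16330696)) (a (l 16353552) (l 16356920))) (a (b (l 16347624) (l 16406344)) (b (a (l 16445168) (l 16456736)) (l 16364144)))) (a (a (c (l 16409128) (l 16280680)) (c (l 16411568) (l 16316936))) (a (c (l 16397368) (l 16359672)) (c (l 16387456) (l 16428584)))))) (a (a (b (c (a (l 16389288) (l 16326536)) (a (b (l 16059080) (l 15980624)) (l 16065200))) (c (a (b (l 16241232) (l 16158592)) (b (l 16228056) (l 16170928))) (a (b (l 15920920) (l 15879000)) (b (l 15999792) (l 15970664))))) (b (a (c (l 16312632) (l 16126400)) (c (l 16324200) (l 16185360))) (c (a (b (l 16243680) (l 16202984)) (b (l 16275928) (l 16246320)))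 (a (b (l 16077720) (l 16055592)) (l 16073528))))) (a (b (c (a (l 16361624) (l 16387864)) (a (l 16223360) (l 16269712))) (c (a (l 16254192) (l 16361280)) (a (l 16182064) (l 16231912)))) (b (c (b (l 16399480) (l 16401744)) (a (l 16318200) (l 16385408))) (c (a (l 16388328) (l 16404312)) (b (l 16327960) (l 16312136))))))) (b (a (a (a (b (l 3) (c (l 16401944) (l 16464992))) (l 3)) (l 3)) (l 3)) (a (a (b (c (a (l 16375704) (l 16319272)) (b (l 81771027383) (l 16315656))) (a (b (l 16356000) (l 16389216)) (b (l 16205608) (l 1)))) (b (l 3) (l 1))) (l 1)))), by decide +kernel⟩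

def k2_pm_213 : ∃ t, chk3 f_pm_213 t 1 7 1 = true :=
  ⟨(a (b (a (a (b (c (a (b (l 16089248) (l 16031048)) (b (l 16121776) (l 16079032))) (a (c (l 15884792) (l 15824344)) (c (l 15977256) (l 15931800)))) (c (a (b (l 15981816) (l 15939816)) (b (l 16041544) (l 16008360))) (a (b (l 15852936) (l 15871528)) (c (l 15968344) (l 15969928))))) (b (c (a (c (l 16185208) (l 16117032)) (l 16206056)) (a (l 15957008) (l 16116144))) (c (c (a (l 16107400) (l 16166368)) (a (l 16076360) (l 16150928))) (c (l 16098224) (a (l 16038568) (l 16082088)))))) (a (b (c (a (l 16277144) (l 16332744)) (a (l 16163712) (l 16215384))) (c (a (b (l 16249112) (l 16230960)) (l 16241672)) (a (l 16002472) (l 16102192)))) (b (c (a (l 16371952) (l 16399152)) (c (l 16317272) (l 16217760))) (l 1)))) (a (b (a (a (c (b (l 15903648) (l 15872552)) (b (l 15896080) (l 15918648))) (c (b (l 15978640) (l 15952200)) (b (l 16001016) (l 16027352)))) (c (a (b (c (l 16050896) (l 16056216)) (l 16112992)) (b (l 16126464)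 (c (l 16083432) (l 16126496)))) (b (a (l 16088280) (l 16149792)) (a (l 16117744) (l 16170248))))) (b (a (c (c (l 15883464) (l 15901992)) (c (l 15955656) (l 16046720))) (a (c (l 16007992) (l 16142904)) (l 1))) (a (c (c (l 15852600) (l 15891736)) (c (l 15963904) (l 16070944))) (l 1)))) (b (b (a (a (c (l 16212784) (l 16176600)) (l 1)) (l 1)) (l 1)) (l 1)))) (l 1)), by decide +kernel⟩

theorem s3_pm_213 : ∃ t, chk3 f_pm_213 t 1 3 1 = true := ex3_b k1_pm_213 k2_pm_213

theorem s4_pm_213 : ∃ t, chk3 f_pm_213 t 1 1 1 = true := ex3_b k0_pm_213 s3_pm_213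

theorem c_pm_213 : CertB 1073741824 536870912 0 1230186008 858993459 64424510 3 eng mog cd2q2 cd2q3 pd1 false true false .pnn 2 1 3
    ndB2q2 ndB2q3 pcB1 Cut.none Ext.none :=
  certB0 (fam := false) (s1 := true) (s2 := false) (a := 2) (b := 1) (c := 3) (cn := .pnn) (n1 := ndB2q2) (n2 := ndB2q3) (pc := pcB1) (cut := Cut.none) (xt := Ext.none) (P1 := 1073741824) (W1 := 536870912) (P2 := 0) (W2 := 1230186008) (P3 := 858993459) (W3 := 64424510) (N0 := 3) (En := eng) (mo := mog) (C1 := cd2q2) (C2 := cd2q3) (C3 := pd1)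
    rfl s4_pm_213

noncomputable def f_pm_303 : ℕ → ℕ → ℕ → ℕ → Bool := onCell 0 1230186008 0 1230186008 858993459 64424510
    (rowB 3 eng mog cd2q3 cd2q3 pd0 0 false true false .npn 3 0 3 (qsf 0 1230186008 0 1230186008 0) ndB2q3 ndB2q3 pcB0 Cut.none Ext.none)

def k0_pm_303 : ∃ t, chk3 f_pm_303 t 1 1 1 = true :=
  ⟨(a (b (l 3) (l 3)) (b (l 3) (a (l 3) (b (l 3) (a (l 3) (b (l 3) (a (l 3) (b (l 3) (b (a (l 3) (a (l 3) (b (l 3) (c (l 15608800) (l 15440272))))) (a (b (l 3) (l 1)) (c (b (a (b (l 391544304551) (l 413958558743)) (l 15552488)) (l 398926152391)) (b (a (b (l 394228356711) (l 427917006471)) (l 15366632)) (l 418790282215))))))))))))), by decide +kernel⟩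

theorem c_pm_303 : CertB 0 1230186008 0 1230186008 858993459 64424510 3 eng mog cd2q3 cd2q3 pd0 false true false .npn 3 0 3
    ndB2q3 ndB2q3 pcB0 Cut.none Ext.none :=
  certB0 (fam := false) (s1 := true) (s2 := false) (a := 3) (b := 0) (c := 3) (cn := .npn) (n1 := ndB2q3) (n2 := ndB2q3) (pc := pcB0) (cut := Cut.none) (xt := Ext.none) (P1 := 0) (W1 := 1230186008) (P2 := 0) (W2 := 1230186008) (P3 := 858993459) (W3 := 64424510) (N0 := 3) (En := eng) (mo := mog) (C1 := cd2q3) (C2 := cd2q3) (C3 := pd0)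
    rfl k0_pm_303

noncomputable def f_pm_313 : ℕ → ℕ → ℕ → ℕ → Bool := onCell 0 1230186008 0 1230186008 858993459 64424510
    (rowB 3 eng mog cd2q3 cd2q3 pd1 0 false true false .dn 3 1 3 (qsf 0 1230186008 0 1230186008 1) ndB2q3 ndB2q3 pcB1 Cut.none Ext.none)

def k0_pm_313 : ∃ t, chk3 f_pm_313 t 1 1 1 = true :=
  ⟨(a (l 1) (b (l 3) (l 1))), by decide +kernel⟩

theorem c_pm_313 : CertB 0 1230186008 0 1230186008 858993459 64424510 3 eng mog cd2q3 cd2q3 pd1 false true false .dn 3 1 3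
    ndB2q3 ndB2q3 pcB1 Cut.none Ext.none :=
  certB0 (fam := false) (s1 := true) (s2 := false) (a := 3) (b := 1) (c := 3) (cn := .dn) (n1 := ndB2q3) (n2 := ndB2q3) (pc := pcB1) (cut := Cut.none) (xt := Ext.none) (P1 := 0) (W1 := 1230186008) (P2 := 0) (W2 := 1230186008) (P3 := 858993459) (W3 := 64424510) (N0 := 3) (En := eng) (mo := mog) (C1 := cd2q3) (C2 := cd2q3) (C3 := pd1)
    rfl k0_pm_313

noncomputable def f_mm_001 : ℕ → ℕ → ℕ → ℕ → Bool := onCell 0 536870912 0 536870912 858993459 64424510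
    (rowB 3 eng mog cd2q0 cd2q1 pd0 1 false false false .up 0 0 1 (qsf 0 536870912 536870912 536870912 0) ndB2q0 ndB2q1 pcB0 Cut.none Ext.none)

def k0_mm_001 : ∃ t, chk3 f_mm_001 t 1 1 1 = true :=
  ⟨(l 3), by decide +kernel⟩

theorem c_mm_001 : CertB 0 536870912 536870912 536870912 858993459 64424510 3 eng mog cd2q0 cd2q1 pd0 false false false .up 0 0 1
    ndB2q0 ndB2q1 pcB0 Cut.none Ext.none :=
  certB1 (fam := false) (s1 := false) (s2 := false) (a := 0) (b := 0) (c := 1) (cn := .up) (n1 := ndB2q0) (n2 := ndB2q1) (pc := pcB0) (cut := Cut.none) (xt := Ext.none) (P1 := 0) (W1 := 536870912) (P2 := 536870912) (W2 := 536870912) (P3 := 858993459) (W3 := 64424510) (N0 := 3) (En := eng) (mo := mog) (C1 := cd2q0) (C2 := cd2q1) (C3 := pd0)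
    rfl (fun _ => rfl) k0_mm_001

noncomputable def f_mm_011 : ℕ → ℕ → ℕ → ℕ → Bool := onCell 0 536870912 536870912 536870912 858993459 64424510
    (rowB 3 eng mog cd2q0 cd2q1 pd1 1 false false false .pnn 0 1 1 (qsf 0 536870912 536870912 536870912 1) ndB2q0 ndB2q1 pcB1 Cut.none Ext.none)

def k0_mm_011 : ∃ t, chk3 f_mm_011 t 1 1 1 = true :=
  ⟨(l 3), by decide +kernel⟩

theorem c_mm_011 : CertB 0 536870912 536870912 536870912 858993459 64424510 3 eng mog cd2q0 cd2q1 pd1 false false false .pnn 0 1 1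
    ndB2q0 ndB2q1 pcB1 Cut.none Ext.none :=
  certB1 (fam := false) (s1 := false) (s2 := false) (a := 0) (b := 1) (c := 1) (cn := .pnn) (n1 := ndB2q0) (n2 := ndB2q1) (pc := pcB1) (cut := Cut.none) (xt := Ext.none) (P1 := 0) (W1 := 536870912) (P2 := 536870912) (W2 := 536870912) (P3 := 858993459) (W3 := 64424510) (N0 := 3) (En := eng) (mo := mog) (C1 := cd2q0) (C2 := cd2q1) (C3 := pd1)
    rfl (fun _ => rfl) k0_mm_011

noncomputable def f_mm_012 : ℕ → ℕ → ℕ → ℕ → Bool := onCell 0 536870912 1073741824 536870912 858993459 64424510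
    (rowB 3 eng mog cd2q0 cd2q2 pd1 0 false false false .pnp 0 1 2 (qsf 0 536870912 1073741824 536870912 1) ndB2q0 ndB2q2 pcB1 Cut.none Ext.none)

def k0_mm_012 : ∃ t, chk3 f_mm_012 t 1 1 1 = true :=
  ⟨(l 5), by decide +kernel⟩

theorem c_mm_012 : CertB 0 536870912 1073741824 536870912 858993459 64424510 3 eng mog cd2q0 cd2q2 pd1 false false false .pnp 0 1 2
    ndB2q0 ndB2q2 pcB1 Cut.none Ext.none :=
  certB0 (fam := false) (s1 := false) (s2 := false) (a := 0) (b := 1) (c := 2) (cn := .pnp) (n1 := ndB2q0) (n2 := ndB2q2) (pc := pcB1) (cut := Cut.none) (xt := Ext.none) (P1 := 0) (W1 := 536870912) (P2 := 1073741824) (W2 := 536870912) (P3 := 858993459) (W3 := 64424510) (N0 := 3) (En := eng) (mo := mog) (C1 := cd2q0) (C2 := cd2q2) (C3 := pd1)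
    rfl k0_mm_012

noncomputable def f_mm_022 : ℕ → ℕ → ℕ → ℕ → Bool := onCell 0 536870912 1073741824 536870912 858993459 64424510
    (rowB 3 eng mog cd2q0 cd2q2 pd2 0 false false false .pp 0 2 2 (qsf 0 536870912 1073741824 536870912 2) ndB2q0 ndB2q2 pcB2 Cut.none Ext.none)

def k0_mm_022 : ∃ t, chk3 f_mm_022 t 1 1 1 = true :=
  ⟨(l 5), by decide +kernel⟩

theorem c_mm_022 : CertB 0 536870912 1073741824 536870912 858993459 64424510 3 eng mog cd2q0 cd2q2 pd2 false false false .pp 0 2 2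
    ndB2q0 ndB2q2 pcB2 Cut.none Ext.none :=
  certB0 (fam := false) (s1 := false) (s2 := false) (a := 0) (b := 2) (c := 2) (cn := .pp) (n1 := ndB2q0) (n2 := ndB2q2) (pc := pcB2) (cut := Cut.none) (xt := Ext.none) (P1 := 0) (W1 := 536870912) (P2 := 1073741824) (W2 := 536870912) (P3 := 858993459) (W3 := 64424510) (N0 := 3) (En := eng) (mo := mog) (C1 := cd2q0) (C2 := cd2q2) (C3 := pd2)
    rfl k0_mm_022

noncomputable def f_mm_023 : ℕ → ℕ → ℕ → ℕ → Bool := onCell 0 536870912 0 1230186008 858993459 64424510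
    (rowB 3 eng mog cd2q0 cd2q3 pd2 0 false false false .up 0 2 3 (qsf 0 536870912 0 1230186008 2) ndB2q0 ndB2q3 pcB2 Cut.none Ext.none)

def k0_mm_023 : ∃ t, chk3 f_mm_023 t 1 1 1 = true :=
  ⟨(l 5), by decide +kernel⟩

theorem c_mm_023 : CertB 0 536870912 0 1230186008 858993459 64424510 3 eng mog cd2q0 cd2q3 pd2 false false false .up 0 2 3
    ndB2q0 ndB2q3 pcB2 Cut.none Ext.none :=
  certB0 (fam := false) (s1 := false) (s2 := false) (a := 0) (b := 2) (c := 3) (cn := .up) (n1 := ndB2q0) (n2 := ndB2q3) (pc := pcB2) (cut := Cut.none) (xt := Ext.none) (P1 := 0) (W1 := 536870912) (P2 := 0) (W2 := 1230186008) (P3 := 858993459) (W3 := 64424510) (N0 := 3) (En := eng) (mo := mog) (C1 := cd2q0) (C2 := cd2q3) (C3 := pd2)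
    rfl k0_mm_023

noncomputable def f_mm_033 : ℕ → ℕ → ℕ → ℕ → Bool := onCell 0 536870912 0 1230186008 858993459 64424510
    (rowB 3 eng mog cd2q0 cd2q3 pd3 0 false false false .pnn 0 3 3 (qsf 0 536870912 0 1230186008 3) ndB2q0 ndB2q3 pcB3 Cut.none Ext.none)

def k0_mm_033 : ∃ t, chk3 f_mm_033 t 1 1 1 = true :=
  ⟨(l 5), by decide +kernel⟩

theorem c_mm_033 : CertB 0 536870912 0 1230186008 858993459 64424510 3 eng mog cd2q0 cd2q3 pd3 false false false .pnn 0 3 3
    ndB2q0 ndB2q3 pcB3 Cut.none Ext.none :=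
  certB0 (fam := false) (s1 := false) (s2 := false) (a := 0) (b := 3) (c := 3) (cn := .pnn) (n1 := ndB2q0) (n2 := ndB2q3) (pc := pcB3) (cut := Cut.none) (xt := Ext.none) (P1 := 0) (W1 := 536870912) (P2 := 0) (W2 := 1230186008) (P3 := 858993459) (W3 := 64424510) (N0 := 3) (En := eng) (mo := mog) (C1 := cd2q0) (C2 := cd2q3) (C3 := pd3)
    rfl k0_mm_033

noncomputable def f_mm_101 : ℕ → ℕ → ℕ → ℕ → Bool := onCell 536870912 536870912 536870912 536870912 858993459 64424510
    (rowB 3 eng mog cd2q1 cd2q1 pd0 0 false false false .npn 1 0 1 (qsf 536870912 536870912 536870912 536870912 0) ndB2q1 ndB2q1 pcB0 Cut.none Ext.none)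

def k0_mm_101 : ∃ t, chk3 f_mm_101 t 1 1 1 = true :=
  ⟨(l 3), by decide +kernel⟩

theorem c_mm_101 : CertB 536870912 536870912 536870912 536870912 858993459 64424510 3 eng mog cd2q1 cd2q1 pd0 false false false .npn 1 0 1
    ndB2q1 ndB2q1 pcB0 Cut.none Ext.none :=
  certB0 (fam := false) (s1 := false) (s2 := false) (a := 1) (b := 0) (c := 1) (cn := .npn) (n1 := ndB2q1) (n2 := ndB2q1) (pc := pcB0) (cut := Cut.none) (xt := Ext.none) (P1 := 536870912) (W1 := 536870912) (P2 := 536870912) (W2 := 536870912) (P3 := 858993459) (W3 := 64424510) (N0 := 3) (En := eng) (mo := mog) (C1 := cd2q1) (C2 := cd2q1) (C3 := pd0)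
    rfl k0_mm_101

noncomputable def f_mm_102 : ℕ → ℕ → ℕ → ℕ → Bool := onCell 536870912 536870912 1073741824 536870912 858993459 64424510
    (rowB 3 eng mog cd2q1 cd2q2 pd0 0 false false false .npp 1 0 2 (qsf 536870912 536870912 1073741824 536870912 0) ndB2q1 ndB2q2 pcB0 Cut.none Ext.none)

def k0_mm_102 : ∃ t, chk3 f_mm_102 t 1 1 1 = true :=
  ⟨(l 5), by decide +kernel⟩

theorem c_mm_102 : CertB 536870912 536870912 1073741824 536870912 858993459 64424510 3 eng mog cd2q1 cd2q2 pd0 false false false .npp 1 0 2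
    ndB2q1 ndB2q2 pcB0 Cut.none Ext.none :=
  certB0 (fam := false) (s1 := false) (s2 := false) (a := 1) (b := 0) (c := 2) (cn := .npp) (n1 := ndB2q1) (n2 := ndB2q2) (pc := pcB0) (cut := Cut.none) (xt := Ext.none) (P1 := 536870912) (W1 := 536870912) (P2 := 1073741824) (W2 := 536870912) (P3 := 858993459) (W3 := 64424510) (N0 := 3) (En := eng) (mo := mog) (C1 := cd2q1) (C2 := cd2q2) (C3 := pd0)
    rfl k0_mm_102

noncomputable def f_mm_112 : ℕ → ℕ → ℕ → ℕ → Bool := onCell 536870912 536870912 1073741824 536870912 858993459 64424510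
    (rowB 3 eng mog cd2q1 cd2q2 pd1 0 false false false .dn 1 1 2 (qsf 536870912 536870912 1073741824 536870912 1) ndB2q1 ndB2q2 pcB1 Cut.none Ext.none)

def k0_mm_112 : ∃ t, chk3 f_mm_112 t 1 1 1 = true :=
  ⟨(l 5), by decide +kernel⟩

theorem c_mm_112 : CertB 536870912 536870912 1073741824 536870912 858993459 64424510 3 eng mog cd2q1 cd2q2 pd1 false false false .dn 1 1 2
    ndB2q1 ndB2q2 pcB1 Cut.none Ext.none :=
  certB0 (fam := false) (s1 := false) (s2 := false) (a := 1) (b := 1) (c := 2) (cn := .dn) (n1 := ndB2q1) (n2 := ndB2q2) (pc := pcB1) (cut := Cut.none) (xt := Ext.none) (P1 := 536870912) (W1 := 536870912) (P2 := 1073741824) (W2 := 536870912) (P3 := 858993459) (W3 := 64424510) (N0 := 3) (En := eng) (mo := mog) (C1 := cd2q1) (C2 := cd2q2) (C3 := pd1)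
    rfl k0_mm_112

noncomputable def f_mm_113 : ℕ → ℕ → ℕ → ℕ → Bool := onCell 536870912 536870912 0 1230186008 858993459 64424510
    (rowB 3 eng mog cd2q1 cd2q3 pd1 0 false false false .nn 1 1 3 (qsf 536870912 536870912 0 1230186008 1) ndB2q1 ndB2q3 pcB1 Cut.none Ext.none)

def k0_mm_113 : ∃ t, chk3 f_mm_113 t 1 1 1 = true :=
  ⟨(l 5), by decide +kernel⟩

theorem c_mm_113 : CertB 536870912 536870912 0 1230186008 858993459 64424510 3 eng mog cd2q1 cd2q3 pd1 false false false .nn 1 1 3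
    ndB2q1 ndB2q3 pcB1 Cut.none Ext.none :=
  certB0 (fam := false) (s1 := false) (s2 := false) (a := 1) (b := 1) (c := 3) (cn := .nn) (n1 := ndB2q1) (n2 := ndB2q3) (pc := pcB1) (cut := Cut.none) (xt := Ext.none) (P1 := 536870912) (W1 := 536870912) (P2 := 0) (W2 := 1230186008) (P3 := 858993459) (W3 := 64424510) (N0 := 3) (En := eng) (mo := mog) (C1 := cd2q1) (C2 := cd2q3) (C3 := pd1)
    rfl k0_mm_113

noncomputable def f_mm_123 : ℕ → ℕ → ℕ → ℕ → Bool := onCell 536870912 536870912 0 1230186008 858993459 64424510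
    (rowB 3 eng mog cd2q1 cd2q3 pd2 0 false false false .npn 1 2 3 (qsf 536870912 536870912 0 1230186008 2) ndB2q1 ndB2q3 pcB2 Cut.none Ext.none)

def k0_mm_123 : ∃ t, chk3 f_mm_123 t 1 1 1 = true :=
  ⟨(l 5), by decide +kernel⟩

theorem c_mm_123 : CertB 536870912 536870912 0 1230186008 858993459 64424510 3 eng mog cd2q1 cd2q3 pd2 false false false .npn 1 2 3
    ndB2q1 ndB2q3 pcB2 Cut.none Ext.none :=
  certB0 (fam := false) (s1 := false) (s2 := false) (a := 1) (b := 2) (c := 3) (cn := .npn) (n1 := ndB2q1) (n2 := ndB2q3) (pc := pcB2) (cut := Cut.none) (xt := Ext.none) (P1 := 536870912) (W1 := 536870912) (P2 := 0) (W2 := 1230186008) (P3 := 858993459) (W3 := 64424510) (N0 := 3) (En := eng) (mo := mog) (C1 := cd2q1) (C2 := cd2q3) (C3 := pd2)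
    rfl k0_mm_123

noncomputable def f_mm_133 : ℕ → ℕ → ℕ → ℕ → Bool := onCell 536870912 536870912 0 1230186008 858993459 64424510
    (rowB 3 eng mog cd2q1 cd2q3 pd3 0 false false false .dn 1 3 3 (qsf 536870912 536870912 0 1230186008 3) ndB2q1 ndB2q3 pcB3 Cut.none Ext.none)

def k0_mm_133 : ∃ t, chk3 f_mm_133 t 1 1 1 = true :=
  ⟨(l 5), by decide +kernel⟩

theorem c_mm_133 : CertB 536870912 536870912 0 1230186008 858993459 64424510 3 eng mog cd2q1 cd2q3 pd3 false false false .dn 1 3 3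
    ndB2q1 ndB2q3 pcB3 Cut.none Ext.none :=
  certB0 (fam := false) (s1 := false) (s2 := false) (a := 1) (b := 3) (c := 3) (cn := .dn) (n1 := ndB2q1) (n2 := ndB2q3) (pc := pcB3) (cut := Cut.none) (xt := Ext.none) (P1 := 536870912) (W1 := 536870912) (P2 := 0) (W2 := 1230186008) (P3 := 858993459) (W3 := 64424510) (N0 := 3) (En := eng) (mo := mog) (C1 := cd2q1) (C2 := cd2q3) (C3 := pd3)
    rfl k0_mm_133

noncomputable def f_mm_202 : ℕ → ℕ → ℕ → ℕ → Bool := onCell 1073741824 536870912 1073741824 536870912 858993459 64424510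
    (rowB 3 eng mog cd2q2 cd2q2 pd0 0 false false false .pp 2 0 2 (qsf 1073741824 536870912 1073741824 536870912 0) ndB2q2 ndB2q2 pcB0 Cut.none Ext.none)

def k0_mm_202 : ∃ t, chk3 f_mm_202 t 1 1 1 = true :=
  ⟨(l 3), by decide +kernel⟩

theorem c_mm_202 : CertB 1073741824 536870912 1073741824 536870912 858993459 64424510 3 eng mog cd2q2 cd2q2 pd0 false false false .pp 2 0 2
    ndB2q2 ndB2q2 pcB0 Cut.none Ext.none :=
  certB0 (fam := false) (s1 := false) (s2 := false) (a := 2) (b := 0) (c := 2) (cn := .pp) (n1 := ndB2q2) (n2 := ndB2q2) (pc := pcB0) (cut := Cut.none) (xt := Ext.none) (P1 := 1073741824) (W1 := 536870912) (P2 := 1073741824) (W2 := 536870912) (P3 := 858993459) (W3 := 64424510) (N0 := 3) (En := eng) (mo := mog) (C1 := cd2q2) (C2 := cd2q2) (C3 := pd0)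
    rfl k0_mm_202

noncomputable def f_mm_203 : ℕ → ℕ → ℕ → ℕ → Bool := onCell 0 536870912 0 1230186008 858993459 64424510
    (rowB 3 eng mog cd2q2 cd2q3 pd0 2 false false false .up 2 0 3 (qsf 1073741824 536870912 0 1230186008 0) ndB2q2 ndB2q3 pcB0 Cut.none Ext.none)

def k0_mm_203 : ∃ t, chk3 f_mm_203 t 1 1 1 = true :=
  ⟨(b (l 3) (l 3)), by decide +kernel⟩

theorem c_mm_203 : CertB 1073741824 536870912 0 1230186008 858993459 64424510 3 eng mog cd2q2 cd2q3 pd0 false false false .up 2 0 3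
    ndB2q2 ndB2q3 pcB0 Cut.none Ext.none :=
  certB2 (fam := false) (s1 := false) (s2 := false) (a := 2) (b := 0) (c := 3) (cn := .up) (n1 := ndB2q2) (n2 := ndB2q3) (pc := pcB0) (cut := Cut.none) (xt := Ext.none) (P1 := 1073741824) (W1 := 536870912) (P2 := 0) (W2 := 1230186008) (P3 := 858993459) (W3 := 64424510) (N0 := 3) (En := eng) (mo := mog) (C1 := cd2q2) (C2 := cd2q3) (C3 := pd0)
    rfl (fun _ => rfl) k0_mm_203

noncomputable def f_mm_213 : ℕ → ℕ → ℕ → ℕ → Bool := onCell 536870912 536870912 0 1230186008 858993459 64424510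
    (rowB 3 eng mog cd2q2 cd2q3 pd1 2 false false false .pnn 2 1 3 (qsf 1073741824 536870912 0 1230186008 1) ndB2q2 ndB2q3 pcB1 Cut.none Ext.none)

def k0_mm_213 : ∃ t, chk3 f_mm_213 t 1 1 1 = true :=
  ⟨(b (l 5) (l 5)), by decide +kernel⟩

theorem c_mm_213 : CertB 1073741824 536870912 0 1230186008 858993459 64424510 3 eng mog cd2q2 cd2q3 pd1 false false false .pnn 2 1 3
    ndB2q2 ndB2q3 pcB1 Cut.none Ext.none :=
  certB2 (fam := false) (s1 := false) (s2 := false) (a := 2) (b := 1) (c := 3) (cn := .pnn) (n1 := ndB2q2) (n2 := ndB2q3) (pc := pcB1) (cut := Cut.none) (xt := Ext.none) (P1 := 1073741824) (W1 := 536870912) (P2 := 0) (W2 := 1230186008) (P3 := 858993459) (W3 := 64424510) (N0 := 3) (En := eng) (mo := mog) (C1 := cd2q2) (C2 := cd2q3) (C3 := pd1)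
    rfl (fun _ => rfl) k0_mm_213

noncomputable def f_mm_303 : ℕ → ℕ → ℕ → ℕ → Bool := onCell 0 1230186008 0 1230186008 858993459 64424510
    (rowB 3 eng mog cd2q3 cd2q3 pd0 0 false false false .npn 3 0 3 (qsf 0 1230186008 0 1230186008 0) ndB2q3 ndB2q3 pcB0 Cut.none Ext.none)

def k0_mm_303 : ∃ t, chk3 f_mm_303 t 1 1 1 = true :=
  ⟨(a (b (l 3) (l 3)) (b (l 3) (l 3))), by decide +kernel⟩

theorem c_mm_303 : CertB 0 1230186008 0 1230186008 858993459 64424510 3 eng mog cd2q3 cd2q3 pd0 false false false .npn 3 0 3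
    ndB2q3 ndB2q3 pcB0 Cut.none Ext.none :=
  certB0 (fam := false) (s1 := false) (s2 := false) (a := 3) (b := 0) (c := 3) (cn := .npn) (n1 := ndB2q3) (n2 := ndB2q3) (pc := pcB0) (cut := Cut.none) (xt := Ext.none) (P1 := 0) (W1 := 1230186008) (P2 := 0) (W2 := 1230186008) (P3 := 858993459) (W3 := 64424510) (N0 := 3) (En := eng) (mo := mog) (C1 := cd2q3) (C2 := cd2q3) (C3 := pd0)
    rfl k0_mm_303

noncomputable def f_mm_313 : ℕ → ℕ → ℕ → ℕ → Bool := onCell 0 1230186008 0 1230186008 858993459 64424510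
    (rowB 3 eng mog cd2q3 cd2q3 pd1 0 false false false .dn 3 1 3 (qsf 0 1230186008 0 1230186008 1) ndB2q3 ndB2q3 pcB1 Cut.none Ext.none)

def k0_mm_313 : ∃ t, chk3 f_mm_313 t 1 1 1 = true :=
  ⟨(a (l 1) (b (l 3) (l 1))), by decide +kernel⟩

theorem c_mm_313 : CertB 0 1230186008 0 1230186008 858993459 64424510 3 eng mog cd2q3 cd2q3 pd1 false false false .dn 3 1 3
    ndB2q3 ndB2q3 pcB1 Cut.none Ext.none :=
  certB0 (fam := false) (s1 := false) (s2 := false) (a := 3) (b := 1) (c := 3) (cn := .dn) (n1 := ndB2q3) (n2 := ndB2q3) (pc := pcB1) (cut := Cut.none) (xt := Ext.none) (P1 := 0) (W1 := 1230186008) (P2 := 0) (W2 := 1230186008) (P3 := 858993459) (W3 := 64424510) (N0 := 3) (En := eng) (mo := mog) (C1 := cd2q3) (C2 := cd2q3) (C3 := pd1)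
    rfl k0_mm_313

end Pool.Agent.Strip051.G.I8000_8600.Tab.C.BB22

namespace Pool.Agent.Strip051.G.I8000_8600.Tab.C.BB23

open Pool.Agent.Strip051.PB Pool.Agent.Strip051.PB.T
open Pool.Agent.Strip051.G.I8000_8600.Tab

noncomputable def f_pp_001 : ℕ → ℕ → ℕ → ℕ → Bool := onCell 0 536870912 0 536870912 858993459 64424510
    (rowB 3 eng mog cd2q0 cd3q1 pd0 1 false true true .up 0 0 1 (qsf 0 536870912 536870912 536870912 0) ndB2q0 ndB3q1 pcB0 Cut.none Ext.none)

def k0_pp_001 : ∃ t, chk3 f_pp_001 t 1 1 1 = true :=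
  ⟨(l 3), by decide +kernel⟩

theorem c_pp_001 : CertB 0 536870912 536870912 536870912 858993459 64424510 3 eng mog cd2q0 cd3q1 pd0 false true true .up 0 0 1
    ndB2q0 ndB3q1 pcB0 Cut.none Ext.none :=
  certB1 (fam := false) (s1 := true) (s2 := true) (a := 0) (b := 0) (c := 1) (cn := .up) (n1 := ndB2q0) (n2 := ndB3q1) (pc := pcB0) (cut := Cut.none) (xt := Ext.none) (P1 := 0) (W1 := 536870912) (P2 := 536870912) (W2 := 536870912) (P3 := 858993459) (W3 := 64424510) (N0 := 3) (En := eng) (mo := mog) (C1 := cd2q0) (C2 := cd3q1) (C3 := pd0)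
    rfl (fun _ => rfl) k0_pp_001

noncomputable def f_pp_011 : ℕ → ℕ → ℕ → ℕ → Bool := onCell 0 536870912 536870912 536870912 858993459 64424510
    (rowB 3 eng mog cd2q0 cd3q1 pd1 0 false true true .pnn 0 1 1 (qsf 0 536870912 536870912 536870912 1) ndB2q0 ndB3q1 pcB1 Cut.none Ext.none)

def k0_pp_011 : ∃ t, chk3 f_pp_011 t 1 1 1 = true :=
  ⟨(a (l 3) (l 3)), by decide +kernel⟩

theorem c_pp_011 : CertB 0 536870912 536870912 536870912 858993459 64424510 3 eng mog cd2q0 cd3q1 pd1 false true true .pnn 0 1 1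
    ndB2q0 ndB3q1 pcB1 Cut.none Ext.none :=
  certB0 (fam := false) (s1 := true) (s2 := true) (a := 0) (b := 1) (c := 1) (cn := .pnn) (n1 := ndB2q0) (n2 := ndB3q1) (pc := pcB1) (cut := Cut.none) (xt := Ext.none) (P1 := 0) (W1 := 536870912) (P2 := 536870912) (W2 := 536870912) (P3 := 858993459) (W3 := 64424510) (N0 := 3) (En := eng) (mo := mog) (C1 := cd2q0) (C2 := cd3q1) (C3 := pd1)
    rfl k0_pp_011

noncomputable def f_pp_012 : ℕ → ℕ → ℕ → ℕ → Bool := onCell 0 536870912 536870912 536870912 858993459 64424510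
    (rowB 3 eng mog cd2q0 cd3q2 pd1 1 false true true .pnp 0 1 2 (qsf 0 536870912 1073741824 536870912 1) ndB2q0 ndB3q2 pcB1 Cut.none Ext.none)

def k0_pp_012 : ∃ t, chk3 f_pp_012 t 1 1 1 = true :=
  ⟨(a (l 3) (b (l 3) (b (l 3) (b (a (l 3) (a (l 3) (b (l 3) (c (l 15392280) (l 15318056))))) (b (a (l 3) (a (c (l 344299873143) (l 15317784)) (c (l 15413544) (l 15202960)))) (a (a (l 3) (c (a (l 15540952) (l 15480832)) (l 259474210487))) (a (c (l 151563192039) (l 15251256)) (c (l 15454984) (l 15198656))))))))), by decide +kernel⟩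

theorem c_pp_012 : CertB 0 536870912 1073741824 536870912 858993459 64424510 3 eng mog cd2q0 cd3q2 pd1 false true true .pnp 0 1 2
    ndB2q0 ndB3q2 pcB1 Cut.none Ext.none :=
  certB1 (fam := false) (s1 := true) (s2 := true) (a := 0) (b := 1) (c := 2) (cn := .pnp) (n1 := ndB2q0) (n2 := ndB3q2) (pc := pcB1) (cut := Cut.none) (xt := Ext.none) (P1 := 0) (W1 := 536870912) (P2 := 1073741824) (W2 := 536870912) (P3 := 858993459) (W3 := 64424510) (N0 := 3) (En := eng) (mo := mog) (C1 := cd2q0) (C2 := cd3q2) (C3 := pd1)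
    rfl (fun _ => rfl) k0_pp_012

noncomputable def f_pp_022 : ℕ → ℕ → ℕ → ℕ → Bool := onCell 0 536870912 1073741824 536870912 858993459 64424510
    (rowB 3 eng mog cd2q0 cd3q2 pd2 1 false true true .pp 0 2 2 (qsf 0 536870912 1073741824 536870912 2) ndB2q0 ndB3q2 pcB2 Cut.none Ext.none)

def k0_pp_022 : ∃ t, chk3 f_pp_022 t 4 2 1 = true :=
  ⟨(b (b (l 3) (b (l 3) (b (a (l 3) (a (a (l 3) (l 3)) (a (b (l 3) (c (l 16225280) (l 16323848))) (c (a (l 16166792) (b (l 16130456) (l 16129352))) (l 204177164247))))) (a (a (l 3) (b (l 3) (l 385103115127))) (a (c (a (c (l 16354528) (l 16402128)) (l 16319000)) (l 16364976)) (a (c (l 16221416) (l 16321200)) (c (a (l 16165712) (l 16132880)) (l 16245224)))))))) (a (a (b (b (b (b (l 853791642775) (c (l 16357008) (l 16358744))) (b (c (l 189682279575) (l 16345392)) (b (c (l 16432304) (l 16336656)) (a (l 16359208) (l 16403024))))) (c (l 16318328) (l 16303304))) (c (b (l 16355016) (l 16283056)) (l 16224400))) (b (b (b (b (c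 (l 16445944) (l 16459512)) (c (l 16436552) (l 16443336))) (b (c (l 16426152) (l 16429232)) (b (l 16250576) (c (l 16402768) (l 16413904))))) (c (l 16358256) (l 16383080))) (c (l 16254480) (l 16294672)))) (b (a (b (b (b (c (l 16265880) (l 16431272)) (c (l 16323792) (l 16420624))) (b (c (l 16313872) (l 16407272)) (b (c (l 16301720) (l 16396104)) (c (l 16287808) (l 16387648))))) (c (l 16252800) (l 16360568))) (a (b (b (b (l 16201184) (l 16174600)) (b (l 16163856) (c (l 16187560) (l 16283664)))) (c (l 16158336) (l 16264640))) (b (b (c (a (l 16165056) (l 16131944)) (l 16236504)) (c (b (l 16136080) (l 16204704)) (l 16219816))) (c (l 16098992) (l 16204512))))) (a (c (l 16175976) (l 16295424)) (a (c (l 16107888) (l 16228208)) (c (l 16128104) (l 16186432))))))), by decide +kernel⟩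

def k1_pp_022 : ∃ t, chk3 f_pp_022 t 5 2 1 = true :=
  ⟨(b (b (b (l 3) (a (l 3) (a (b (l 3) (c (a (l 3) (l 15888584)) (l 363091419575))) (c (c (b (l 15886552) (l 15821768)) (l 199882338055)) (b (l 15851824) (l 15991104)))))) (a (b (b (a (l 3) (b (a (l 3) (l 319604855495)) (c (a (l 16014368) (l 15970224)) (l 15868520)))) (a (a (c (b (l 3) (l 16120992)) (l 16198576)) (c (b (l 16057288) (l 16055224)) (l 16148136))) (c (a (b (l 16012856) (l 16014976)) (l 15995120)) (a (l 16100536) (l 16055504))))) (a (c (b (a (c (l 16247792) (l 16118632)) (l 16184392)) (a (l 16187592) (l 16063608))) (a (b (l 16190640) (l 16194504)) (b (l 16149112) (l 16152536)))) (c (b (a (l 16020760) (l 15981528)) (a (l 16022576) (l 15981256))) (b (a (l 16109896) (l 16070528)) (l 16092864))))) (b (a (c (b (a (l 182165737639) (l 15934528)) (a (l 15937752) (l 15898704))) (b (l 213841409975) (l 16061664))) (b (c (a (l 15843464) (l 15786336)) (l 15961232)) (c (l 15823568) (l 15897032)))) (a (b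 (c (l 16173192) (l 16012184)) (c (l 15923392) (l 16015904))) (c (a (l 15858016) (l 15807648)) (l 15917216)))))) (a (b (b (b (a (a (c (l 16330520) (l 16186408)) (c (l 16057632) (l 16144560))) (a (l 16057264) (l 16019392))) (a (a (b (l 16128872) (l 15909256)) (b (l 16089256) (l 16081448))) (c (a (l 16005728) (l 15971848)) (l 16082464)))) (a (a (l 16107360) (l 16074272)) (a (l 16043328) (l 16014368)))) (a (c (a (l 16036104) (l 16012488)) (l 16149032)) (c (l 15981440) (l 16106912)))) (a (b (b (b (c (l 15926624) (l 16016784)) (c (l 15925520) (l 16017688))) (l 15975184)) (c (l 15944472) (l 16072192))) (b (b (b (l 15885576) (c (l 15856680) (l 15940304))) (l 15913776)) (c (l 15906944) (l 16031824)))))), by decide +kernel⟩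

def k2_pp_022 : ∃ t, chk3 f_pp_022 t 2 3 1 = true :=
  ⟨(a (b (a (b (c (a (l 16172472) (l 16127752)) (a (l 16108952) (l 16168928))) (c (a (l 16035936) (l 16012344)) (a (l 15984296) (l 16037688)))) (a (b (c (l 16083984) (l 16216456)) (l 15963840)) (a (b (l 16114584) (l 16073008)) (b (l 15843664) (l 16076720))))) (a (c (b (l 15907520) (l 15797496)) (b (l 15880504) (l 15752808))) (a (b (l 15995376) (l 15920360)) (b (a (l 16035512) (l 16062224)) (l 2))))) (a (b (a (c (b (l 15988608) (l 15980608)) (b (l 16155176) (l 16166264))) (b (c (l 15989008) (l 16141184)) (l 16087248))) (b (a (c (l 15993056) (l 16170936)) (l 2)) (l 2))) (b (b (a (l 16048680) (c (l 15962088) (l 16125320))) (a (c (l 15998000) (l 16182832)) (l 2))) (l 2)))), by decide +kernel⟩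

def k3_pp_022 : ∃ t, chk3 f_pp_022 t 3 1 1 = true :=
  ⟨(b (b (b (a (b (a (c (a (l 234778689815) (l 247663383351)) (a (l 15679728) (l 15539400))) (c (a (l 15582136) (l 15427336)) (a (l 15414552) (l 15305184)))) (a (c (b (a (l 15693024) (l 15592016)) (a (l 15697344) (l 15599752))) (b (l 15740336) (l 15823752))) (c (l 15477624) (l 15418656)))) (a (c (b (l 15358320) (l 15386968)) (b (l 15180632) (l 15265720))) (c (b (l 15352768) (l 15396928)) (b (l 15107656) (l 15219424))))) (a (b (a (c (a (l 15712840) (l 15621352)) (l 15697240)) (c (l 15515584) (l 15495720))) (a (c (l 15759744) (l 15751568)) (c (l 15567088) (l 15579608)))) (a (b (c (l 15439592) (l 15368176)) (c (l 15507392) (l 15474136))) (c (l 15493208) (l 15392072))))) (a (a (b (b (c (b (l 15730328) (l 15752832)) (b (l 15785768) (l 15808224))) (l 15815208)) (c (l 15847856) (l 15957904))) (b (b (c (b (l 15619360) (l 15657336)) (l 15739272)) (l 15822376)) (c (l 15783912) (l 15863656)))) (b (a (b (b (l 15552496)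 (l 2)) (l 2)) (l 2)) (l 2)))) (b (a (b (a (c (l 15916240) (l 15859656)) (l 2)) (l 2)) (l 2)) (l 2))), by decide +kernel⟩

theorem s4_pp_022 : ∃ t, chk3 f_pp_022 t 2 2 1 = true := ex3_a k0_pp_022 k1_pp_022

theorem s5_pp_022 : ∃ t, chk3 f_pp_022 t 2 1 1 = true := ex3_b s4_pp_022 k2_pp_022

theorem s6_pp_022 : ∃ t, chk3 f_pp_022 t 1 1 1 = true := ex3_a s5_pp_022 k3_pp_022

theorem c_pp_022 : CertB 0 536870912 1073741824 536870912 858993459 64424510 3 eng mog cd2q0 cd3q2 pd2 false true true .pp 0 2 2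
    ndB2q0 ndB3q2 pcB2 Cut.none Ext.none :=
  certB1 (fam := false) (s1 := true) (s2 := true) (a := 0) (b := 2) (c := 2) (cn := .pp) (n1 := ndB2q0) (n2 := ndB3q2) (pc := pcB2) (cut := Cut.none) (xt := Ext.none) (P1 := 0) (W1 := 536870912) (P2 := 1073741824) (W2 := 536870912) (P3 := 858993459) (W3 := 64424510) (N0 := 3) (En := eng) (mo := mog) (C1 := cd2q0) (C2 := cd3q2) (C3 := pd2)
    rfl (fun _ => rfl) s6_pp_022

noncomputable def f_pp_023 : ℕ → ℕ → ℕ → ℕ → Bool := onCell 0 536870912 0 1230186008 858993459 64424510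
    (rowB 3 eng mog cd2q0 cd3q3 pd2 0 false true true .up 0 2 3 (qsf 0 536870912 0 1230186008 2) ndB2q0 ndB3q3 pcB2 Cut.none Ext.none)

def k0_pp_023 : ∃ t, chk3 f_pp_023 t 1 1 1 = true :=
  ⟨(b (b (l 4) (a (l 2) (a (l 2) (b (a (l 4) (l 16615768)) (a (b (l 16736528) (l 16655456)) (l 16665040)))))) (b (a (b (l 2) (a (l 2) (a (l 2) (b (l 2) (a (l 2) (l 15961264)))))) (b (a (a (l 2) (b (l 16503664) (l 16381768))) (a (l 16462832) (l 16427096))) (a (b (a (l 16162200) (l 16267048)) (a (l 16093432) (l 16185000))) (b (a (l 16288496) (l 16258992)) (c (l 16164544) (l 16224256)))))) (a (b (a (l 2) (a (a (b (l 2) (l 15974992)) (b (l 15917008) (l 16054536))) (b (a (l 15975752) (l 16059808)) (a (l 16124008) (l 16213336))))) (a (b (a (l 2) (a (b (l 2) (l 15652120)) (a (l 16009176) (b (l 15925368) (l 15920000))))) (a (c (l 15496696) (l 15410120)) (a (l 15671192) (a (l 15816000) (l 15921744))))) (a (b (a (l 16005888) (l 16102680)) (a (l 15798208) (l 16111952))) (b (a (l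 16188760) (l 16298056)) (a (l 16208216) (l 16328184)))))) (b (a (b (a (l 16182248) (l 16248600)) (a (l 16330144) (l 16339712))) (b (a (l 16231160) (l 16160512)) (a (l 16252144) (l 16119800)))) (a (b (a (l 16445432) (l 16383312)) (a (c (l 16455672) (l 16490528)) (b (l 16370912) (a (l 16383936) (c (l 16345288) (l 15995952)))))) (b (a (l 16218832) (c (l 16001168) (l 15920608))) (a (b (l 16145248) (b (a (l 16155000) (l 16018728)) (a (l 16113376) (l 15965936)))) (c (b (l 16001672) (l 15903536)) (b (l 15773464) (l 15633304)))))))))), by decide +kernel⟩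

theorem c_pp_023 : CertB 0 536870912 0 1230186008 858993459 64424510 3 eng mog cd2q0 cd3q3 pd2 false true true .up 0 2 3
    ndB2q0 ndB3q3 pcB2 Cut.none Ext.none :=
  certB0 (fam := false) (s1 := true) (s2 := true) (a := 0) (b := 2) (c := 3) (cn := .up) (n1 := ndB2q0) (n2 := ndB3q3) (pc := pcB2) (cut := Cut.none) (xt := Ext.none) (P1 := 0) (W1 := 536870912) (P2 := 0) (W2 := 1230186008) (P3 := 858993459) (W3 := 64424510) (N0 := 3) (En := eng) (mo := mog) (C1 := cd2q0) (C2 := cd3q3) (C3 := pd2)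
    rfl k0_pp_023

noncomputable def f_pp_033 : ℕ → ℕ → ℕ → ℕ → Bool := onCell 0 536870912 0 1230186008 858993459 64424510
    (rowB 3 eng mog cd2q0 cd3q3 pd3 0 false true true .pnn 0 3 3 (qsf 0 536870912 0 1230186008 3) ndB2q0 ndB3q3 pcB3 Cut.none Ext.none)

def k0_pp_033 : ∃ t, chk3 f_pp_033 t 1 1 1 = true :=
  ⟨(b (b (l 4) (b (a (l 4) (a (l 4) (a (l 4) (l 16611488)))) (a (a (l 4) (a (l 4) (a (l 16271352) (l 16567688)))) (a (a (b (l 4) (l 16503472)) (b (l 16715928) (l 16698088))) (a (b (l 16712600) (l 16691136)) (l 16604864)))))) (b (a (b (a (b (a (l 4) (a (l 15816744) (l 15735792))) (a (a (l 15617200) (l 15678184)) (a (l 15787480) (l 15960320)))) (a (a (b (l 16092384) (l 16074520)) (b (l 16157584) (l 16152968))) (a (l 16223024) (l 16322576)))) (a (b (a (a (l 15558584) (l 15618744)) (a (l 15751376) (l 15941928))) (a (b (l 15560592) (l 15547352)) (a (l 15735472) (a (l 15891824) (l 15991480))))) (a (a (b (l 16069952) (l 16069752)) (b (l 16159296) (l 16165392)))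 (b (l 16300376) (a (l 16256352) (l 16376576)))))) (b (a (a (b (l 16498848) (l 16538928)) (b (l 16715088) (l 16752704))) (a (l 724809454807) (l 1))) (a (b (a (l 16577784) (l 16703392)) (a (l 16592376) (l 1))) (l 1)))) (a (b (a (b (a (c (l 15607680) (l 15443600)) (a (l 15703856) (a (l 15862208) (l 15963112)))) (a (c (a (l 15517312) (l 15587952)) (l 15637400)) (a (l 15882632) (a (l 15832472) (l 15934248))))) (a (a (b (l 16043112) (l 16015304)) (b (l 16140776) (l 16114384))) (b (a (l 16233584) (l 16355696)) (l 1)))) (a (b (a (b (a (l 15431848) (l 15512064)) (l 15468000)) (a (b (l 15660880) (l 15657520)) (a (l 16028760) (b (l 15922944) (l 1))))) (a (c (l 15566600) (l 15435040)) (a (l 15780776) (l 1)))) (a (b (a (l 293163819655) (l 1)) (l 1)) (l 1)))) (l 1)))), by decide +kernel⟩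

theorem c_pp_033 : CertB 0 536870912 0 1230186008 858993459 64424510 3 eng mog cd2q0 cd3q3 pd3 false true true .pnn 0 3 3
    ndB2q0 ndB3q3 pcB3 Cut.none Ext.none :=
  certB0 (fam := false) (s1 := true) (s2 := true) (a := 0) (b := 3) (c := 3) (cn := .pnn) (n1 := ndB2q0) (n2 := ndB3q3) (pc := pcB3) (cut := Cut.none) (xt := Ext.none) (P1 := 0) (W1 := 536870912) (P2 := 0) (W2 := 1230186008) (P3 := 858993459) (W3 := 64424510) (N0 := 3) (En := eng) (mo := mog) (C1 := cd2q0) (C2 := cd3q3) (C3 := pd3)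
    rfl k0_pp_033

noncomputable def f_pp_101 : ℕ → ℕ → ℕ → ℕ → Bool := onCell 536870912 536870912 536870912 536870912 858993459 64424510
    (rowB 3 eng mog cd2q1 cd3q1 pd0 0 false true true .npn 1 0 1 (qsf 536870912 536870912 536870912 536870912 0) ndB2q1 ndB3q1 pcB0 Cut.none Ext.none)

def k0_pp_101 : ∃ t, chk3 f_pp_101 t 1 1 1 = true :=
  ⟨(l 3), by decide +kernel⟩

theorem c_pp_101 : CertB 536870912 536870912 536870912 536870912 858993459 64424510 3 eng mog cd2q1 cd3q1 pd0 false true true .npn 1 0 1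
    ndB2q1 ndB3q1 pcB0 Cut.none Ext.none :=
  certB0 (fam := false) (s1 := true) (s2 := true) (a := 1) (b := 0) (c := 1) (cn := .npn) (n1 := ndB2q1) (n2 := ndB3q1) (pc := pcB0) (cut := Cut.none) (xt := Ext.none) (P1 := 536870912) (W1 := 536870912) (P2 := 536870912) (W2 := 536870912) (P3 := 858993459) (W3 := 64424510) (N0 := 3) (En := eng) (mo := mog) (C1 := cd2q1) (C2 := cd3q1) (C3 := pd0)
    rfl k0_pp_101

noncomputable def f_pp_102 : ℕ → ℕ → ℕ → ℕ → Bool := onCell 536870912 536870912 0 536870912 858993459 64424510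
    (rowB 3 eng mog cd2q1 cd3q2 pd0 1 false true true .npp 1 0 2 (qsf 536870912 536870912 1073741824 536870912 0) ndB2q1 ndB3q2 pcB0 Cut.none Ext.none)

def k0_pp_102 : ∃ t, chk3 f_pp_102 t 1 1 1 = true :=
  ⟨(l 3), by decide +kernel⟩

theorem c_pp_102 : CertB 536870912 536870912 1073741824 536870912 858993459 64424510 3 eng mog cd2q1 cd3q2 pd0 false true true .npp 1 0 2
    ndB2q1 ndB3q2 pcB0 Cut.none Ext.none :=
  certB1 (fam := false) (s1 := true) (s2 := true) (a := 1) (b := 0) (c := 2) (cn := .npp) (n1 := ndB2q1) (n2 := ndB3q2) (pc := pcB0) (cut := Cut.none) (xt := Ext.none) (P1 := 536870912) (W1 := 536870912) (P2 := 1073741824) (W2 := 536870912) (P3 := 858993459) (W3 := 64424510) (N0 := 3) (En := eng) (mo := mog) (C1 := cd2q1) (C2 := cd3q2) (C3 := pd0)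
    rfl (fun _ => rfl) k0_pp_102

noncomputable def f_pp_112 : ℕ → ℕ → ℕ → ℕ → Bool := onCell 536870912 536870912 1073741824 536870912 858993459 64424510
    (rowB 3 eng mog cd2q1 cd3q2 pd1 2 false true true .dn 1 1 2 (qsf 536870912 536870912 1073741824 536870912 1) ndB2q1 ndB3q2 pcB1 Cut.none Ext.none)

def k0_pp_112 : ∃ t, chk3 f_pp_112 t 1 1 1 = true :=
  ⟨(b (a (l 3) (l 3)) (a (l 3) (a (b (l 3) (b (l 3) (a (c (l 223503506759) (a (l 3) (l 15306416))) (c (l 15579096) (l 126330089575))))) (a (b (l 3) (a (b (l 193976042439) (l 15437848)) (b (l 212632309463) (l 15460984)))) (b (l 1) (b (c (l 502542676887) (l 234643835191)) (c (l 15551536) (l 15379336)))))))), by decide +kernel⟩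

theorem c_pp_112 : CertB 536870912 536870912 1073741824 536870912 858993459 64424510 3 eng mog cd2q1 cd3q2 pd1 false true true .dn 1 1 2
    ndB2q1 ndB3q2 pcB1 Cut.none Ext.none :=
  certB2 (fam := false) (s1 := true) (s2 := true) (a := 1) (b := 1) (c := 2) (cn := .dn) (n1 := ndB2q1) (n2 := ndB3q2) (pc := pcB1) (cut := Cut.none) (xt := Ext.none) (P1 := 536870912) (W1 := 536870912) (P2 := 1073741824) (W2 := 536870912) (P3 := 858993459) (W3 := 64424510) (N0 := 3) (En := eng) (mo := mog) (C1 := cd2q1) (C2 := cd3q2) (C3 := pd1)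
    rfl (fun _ => rfl) k0_pp_112

noncomputable def f_pp_113 : ℕ → ℕ → ℕ → ℕ → Bool := onCell 536870912 536870912 0 1230186008 858993459 64424510
    (rowB 3 eng mog cd2q1 cd3q3 pd1 2 false true true .nn 1 1 3 (qsf 536870912 536870912 0 1230186008 1) ndB2q1 ndB3q3 pcB1 Cut.none Ext.none)

def k0_pp_113 : ∃ t, chk3 f_pp_113 t 1 1 1 = true :=
  ⟨(a (b (l 2) (a (b (l 2) (b (l 2) (l 3))) (b (a (l 2) (a (l 2) (b (l 2) (b (l 2) (l 14950920))))) (b (a (a (b (l 2) (b (l 2) (a (c (l 510124487847) (l 14742880)) (c (l 14827160) (l 14599104))))) (c (b (l 526767457223) (b (l 14849920) (l 14940848))) (b (l 480595956695) (b (l 14592016) (l 14699040))))) (c (b (a (l 14917224) (l 15102328)) (a (l 15053328) (l 15212056))) (b (a (l 14586848) (l 14741304)) (a (l 14782624) (l 14919080))))) (a (b (b (a (c (l 460799766775) (l 409259721623)) (c (l 15045032) (l 14934288))) (a (l 3) (c (l 15156752) (l 14921384)))) (l 3)) (b (a (c (b (l 15185480) (l 15285728)) (b (l 14933256) (l 15036552)))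 (c (l 15364616) (l 15103488))) (a (l 3) (c (l 15551328) (l 378122438855))))))))) (b (a (l 2) (b (l 16454848) (a (l 16194112) (l 16484304)))) (a (b (b (a (l 2) (l 15760488)) (a (c (b (l 15437896) (l 15385056)) (b (l 14764384) (l 14866616))) (c (l 15945616) (l 15335768)))) (b (b (a (c (l 15388648) (l 14989456)) (l 15543864)) (a (c (l 15443112) (l 15125072)) (c (l 15720112) (l 15393768)))) (a (b (c (a (l 15486384) (l 15598904)) (a (l 15216976) (l 15325160))) (c (a (l 15644360) (l 15725632)) (a (l 15388208) (l 15470840)))) (b (c (l 15744192) (l 15472024)) (c (l 15822432) (a (l 15543960) (l 15603960))))))) (b (a (b (l 16104392) (b (l 16111120) (l 16061016))) (b (l 16426168) (l 16330768))) (b (a (c (l 15986600) (l 15638672)) (b (l 16083784) (l 15891952))) (a (b (a (l 15723848) (l 15774336)) (a (l 15773456) (l 15799336))) (b (l 15805760) (c (l 15921488) (l 15669184))))))))), by decide +kernel⟩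

theorem c_pp_113 : CertB 536870912 536870912 0 1230186008 858993459 64424510 3 eng mog cd2q1 cd3q3 pd1 false true true .nn 1 1 3
    ndB2q1 ndB3q3 pcB1 Cut.none Ext.none :=
  certB2 (fam := false) (s1 := true) (s2 := true) (a := 1) (b := 1) (c := 3) (cn := .nn) (n1 := ndB2q1) (n2 := ndB3q3) (pc := pcB1) (cut := Cut.none) (xt := Ext.none) (P1 := 536870912) (W1 := 536870912) (P2 := 0) (W2 := 1230186008) (P3 := 858993459) (W3 := 64424510) (N0 := 3) (En := eng) (mo := mog) (C1 := cd2q1) (C2 := cd3q3) (C3 := pd1)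
    rfl (fun _ => rfl) k0_pp_113

noncomputable def f_pp_123 : ℕ → ℕ → ℕ → ℕ → Bool := onCell 1073741824 536870912 0 1230186008 858993459 64424510
    (rowB 3 eng mog cd2q1 cd3q3 pd2 2 false true true .npn 1 2 3 (qsf 536870912 536870912 0 1230186008 2) ndB2q1 ndB3q3 pcB2 Cut.none Ext.none)

def k0_pp_123 : ∃ t, chk3 f_pp_123 t 1 1 1 = true :=
  ⟨(a (b (a (b (a (l 16717224) (l 16757816)) (a (l 16598064) (l 16719560))) (b (a (l 16780776) (l 16760824)) (a (l 16618320) (l 16566512)))) (b (a (b (a (l 16505896) (l 16410656)) (a (l 16382736) (l 16128856))) (b (a (l 16280584) (l 16277000)) (b (l 16152752) (l 16104816)))) (a (b (a (b (l 16011528) (l 15863224)) (b (l 16003888) (l 15966096))) (a (b (l 15790856) (c (l 15881744) (l 15661248))) (b (c (l 16036312) (l 15892976)) (a (l 15959088) (l 1))))) (b (b (l 16109240) (l 16233096)) (a (b (l 16143432) (l 1)) (l 1)))))) (b (a (b (a (l 16765784) (l 4)) (a (l 16571600) (l 16597872))) (b (l 4) (a (l 16637392) (l 16686520))))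 (b (a (b (a (l 16300096) (l 16333688)) (a (l 16168008) (l 16198096))) (b (l 922377540391) (l 1))) (l 1)))), by decide +kernel⟩

theorem c_pp_123 : CertB 536870912 536870912 0 1230186008 858993459 64424510 3 eng mog cd2q1 cd3q3 pd2 false true true .npn 1 2 3
    ndB2q1 ndB3q3 pcB2 Cut.none Ext.none :=
  certB2 (fam := false) (s1 := true) (s2 := true) (a := 1) (b := 2) (c := 3) (cn := .npn) (n1 := ndB2q1) (n2 := ndB3q3) (pc := pcB2) (cut := Cut.none) (xt := Ext.none) (P1 := 536870912) (W1 := 536870912) (P2 := 0) (W2 := 1230186008) (P3 := 858993459) (W3 := 64424510) (N0 := 3) (En := eng) (mo := mog) (C1 := cd2q1) (C2 := cd3q3) (C3 := pd2)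
    rfl (fun _ => rfl) k0_pp_123

noncomputable def f_pp_133 : ℕ → ℕ → ℕ → ℕ → Bool := onCell 1610612736 536870912 0 1230186008 858993459 64424510
    (rowB 3 eng mog cd2q1 cd3q3 pd3 2 false true true .dn 1 3 3 (qsf 536870912 536870912 0 1230186008 3) ndB2q1 ndB3q3 pcB3 Cut.none Ext.none)

def k0_pp_133 : ∃ t, chk3 f_pp_133 t 1 1 1 = true :=
  ⟨(b (b (l 4) (l 1)) (l 1)), by decide +kernel⟩

theorem c_pp_133 : CertB 536870912 536870912 0 1230186008 858993459 64424510 3 eng mog cd2q1 cd3q3 pd3 false true true .dn 1 3 3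
    ndB2q1 ndB3q3 pcB3 Cut.none Ext.none :=
  certB2 (fam := false) (s1 := true) (s2 := true) (a := 1) (b := 3) (c := 3) (cn := .dn) (n1 := ndB2q1) (n2 := ndB3q3) (pc := pcB3) (cut := Cut.none) (xt := Ext.none) (P1 := 536870912) (W1 := 536870912) (P2 := 0) (W2 := 1230186008) (P3 := 858993459) (W3 := 64424510) (N0 := 3) (En := eng) (mo := mog) (C1 := cd2q1) (C2 := cd3q3) (C3 := pd3)
    rfl (fun _ => rfl) k0_pp_133

noncomputable def f_pp_202 : ℕ → ℕ → ℕ → ℕ → Bool := onCell 1073741824 536870912 1073741824 536870912 858993459 64424510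
    (rowB 3 eng mog cd2q2 cd3q2 pd0 0 false true true .pp 2 0 2 (qsf 1073741824 536870912 1073741824 536870912 0) ndB2q2 ndB3q2 pcB0 Cut.none Ext.none)

def k0_pp_202 : ∃ t, chk3 f_pp_202 t 1 1 1 = true :=
  ⟨(l 3), by decide +kernel⟩

theorem c_pp_202 : CertB 1073741824 536870912 1073741824 536870912 858993459 64424510 3 eng mog cd2q2 cd3q2 pd0 false true true .pp 2 0 2
    ndB2q2 ndB3q2 pcB0 Cut.none Ext.none :=
  certB0 (fam := false) (s1 := true) (s2 := true) (a := 2) (b := 0) (c := 2) (cn := .pp) (n1 := ndB2q2) (n2 := ndB3q2) (pc := pcB0) (cut := Cut.none) (xt := Ext.none) (P1 := 1073741824) (W1 := 536870912) (P2 := 1073741824) (W2 := 536870912) (P3 := 858993459) (W3 := 64424510) (N0 := 3) (En := eng) (mo := mog) (C1 := cd2q2) (C2 := cd3q2) (C3 := pd0)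
    rfl k0_pp_202

noncomputable def f_pp_203 : ℕ → ℕ → ℕ → ℕ → Bool := onCell 0 536870912 0 1230186008 858993459 64424510
    (rowB 3 eng mog cd2q2 cd3q3 pd0 2 false true true .up 2 0 3 (qsf 1073741824 536870912 0 1230186008 0) ndB2q2 ndB3q3 pcB0 Cut.none Ext.none)

def k0_pp_203 : ∃ t, chk3 f_pp_203 t 1 1 1 = true :=
  ⟨(b (l 3) (l 3)), by decide +kernel⟩

theorem c_pp_203 : CertB 1073741824 536870912 0 1230186008 858993459 64424510 3 eng mog cd2q2 cd3q3 pd0 false true true .up 2 0 3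
    ndB2q2 ndB3q3 pcB0 Cut.none Ext.none :=
  certB2 (fam := false) (s1 := true) (s2 := true) (a := 2) (b := 0) (c := 3) (cn := .up) (n1 := ndB2q2) (n2 := ndB3q3) (pc := pcB0) (cut := Cut.none) (xt := Ext.none) (P1 := 1073741824) (W1 := 536870912) (P2 := 0) (W2 := 1230186008) (P3 := 858993459) (W3 := 64424510) (N0 := 3) (En := eng) (mo := mog) (C1 := cd2q2) (C2 := cd3q3) (C3 := pd0)
    rfl (fun _ => rfl) k0_pp_203

noncomputable def f_pp_213 : ℕ → ℕ → ℕ → ℕ → Bool := onCell 536870912 536870912 0 1230186008 858993459 64424510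
    (rowB 3 eng mog cd2q2 cd3q3 pd1 2 false true true .pnn 2 1 3 (qsf 1073741824 536870912 0 1230186008 1) ndB2q2 ndB3q3 pcB1 Cut.none Ext.none)

def k0_pp_213 : ∃ t, chk3 f_pp_213 t 1 1 1 = true :=
  ⟨(b (a (l 3) (b (a (l 3) (a (b (a (c (l 352891136535) (l 384030121815)) (a (l 352891641767) (l 251959666951))) (l 3)) (b (a (c (l 16548856) (l 16535240)) (c (l 16614280) (l 16587640))) (b (a (a (l 421610811687) (l 380271780375)) (a (c (l 16606544) (l 16589384)) (l 16558248))) (a (l 3) (a (c (l 526837972887) (l 485498497511)) (c (l 1753990706375) (l 1709966921783)))))))) (a (l 3) (l 3)))) (l 3)), by decide +kernel⟩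

theorem c_pp_213 : CertB 1073741824 536870912 0 1230186008 858993459 64424510 3 eng mog cd2q2 cd3q3 pd1 false true true .pnn 2 1 3
    ndB2q2 ndB3q3 pcB1 Cut.none Ext.none :=
  certB2 (fam := false) (s1 := true) (s2 := true) (a := 2) (b := 1) (c := 3) (cn := .pnn) (n1 := ndB2q2) (n2 := ndB3q3) (pc := pcB1) (cut := Cut.none) (xt := Ext.none) (P1 := 1073741824) (W1 := 536870912) (P2 := 0) (W2 := 1230186008) (P3 := 858993459) (W3 := 64424510) (N0 := 3) (En := eng) (mo := mog) (C1 := cd2q2) (C2 := cd3q3) (C3 := pd1)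
    rfl (fun _ => rfl) k0_pp_213

noncomputable def f_pp_303 : ℕ → ℕ → ℕ → ℕ → Bool := onCell 0 1230186008 0 1230186008 858993459 64424510
    (rowB 3 eng mog cd2q3 cd3q3 pd0 0 false true true .npn 3 0 3 (qsf 0 1230186008 0 1230186008 0) ndB2q3 ndB3q3 pcB0 Cut.none Ext.none)

def k0_pp_303 : ∃ t, chk3 f_pp_303 t 1 1 1 = true :=
  ⟨(a (b (l 3) (l 3)) (b (l 3) (l 3))), by decide +kernel⟩

theorem c_pp_303 : CertB 0 1230186008 0 1230186008 858993459 64424510 3 eng mog cd2q3 cd3q3 pd0 false true true .npn 3 0 3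
    ndB2q3 ndB3q3 pcB0 Cut.none Ext.none :=
  certB0 (fam := false) (s1 := true) (s2 := true) (a := 3) (b := 0) (c := 3) (cn := .npn) (n1 := ndB2q3) (n2 := ndB3q3) (pc := pcB0) (cut := Cut.none) (xt := Ext.none) (P1 := 0) (W1 := 1230186008) (P2 := 0) (W2 := 1230186008) (P3 := 858993459) (W3 := 64424510) (N0 := 3) (En := eng) (mo := mog) (C1 := cd2q3) (C2 := cd3q3) (C3 := pd0)
    rfl k0_pp_303

noncomputable def f_pp_313 : ℕ → ℕ → ℕ → ℕ → Bool := onCell 0 1230186008 0 1230186008 858993459 64424510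
    (rowB 3 eng mog cd2q3 cd3q3 pd1 0 false true true .dn 3 1 3 (qsf 0 1230186008 0 1230186008 1) ndB2q3 ndB3q3 pcB1 Cut.none Ext.none)

def k0_pp_313 : ∃ t, chk3 f_pp_313 t 1 1 1 = true :=
  ⟨(a (l 1) (b (l 3) (l 1))), by decide +kernel⟩

theorem c_pp_313 : CertB 0 1230186008 0 1230186008 858993459 64424510 3 eng mog cd2q3 cd3q3 pd1 false true true .dn 3 1 3
    ndB2q3 ndB3q3 pcB1 Cut.none Ext.none :=
  certB0 (fam := false) (s1 := true) (s2 := true) (a := 3) (b := 1) (c := 3) (cn := .dn) (n1 := ndB2q3) (n2 := ndB3q3) (pc := pcB1) (cut := Cut.none) (xt := Ext.none) (P1 := 0) (W1 := 1230186008) (P2 := 0) (W2 := 1230186008) (P3 := 858993459) (W3 := 64424510) (N0 := 3) (En := eng) (mo := mog) (C1 := cd2q3) (C2 := cd3q3) (C3 := pd1)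
    rfl k0_pp_313

noncomputable def f_pm_001 : ℕ → ℕ → ℕ → ℕ → Bool := onCell 0 536870912 536870912 536870912 858993459 64424510
    (rowB 3 eng mog cd2q0 cd3q1 pd0 0 false true false .up 0 0 1 (qsf 0 536870912 536870912 536870912 0) ndB2q0 ndB3q1 pcB0 Cut.none Ext.none)

def k0_pm_001 : ∃ t, chk3 f_pm_001 t 1 1 1 = true :=
  ⟨(l 4), by decide +kernel⟩

theorem c_pm_001 : CertB 0 536870912 536870912 536870912 858993459 64424510 3 eng mog cd2q0 cd3q1 pd0 false true false .up 0 0 1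
    ndB2q0 ndB3q1 pcB0 Cut.none Ext.none :=
  certB0 (fam := false) (s1 := true) (s2 := false) (a := 0) (b := 0) (c := 1) (cn := .up) (n1 := ndB2q0) (n2 := ndB3q1) (pc := pcB0) (cut := Cut.none) (xt := Ext.none) (P1 := 0) (W1 := 536870912) (P2 := 536870912) (W2 := 536870912) (P3 := 858993459) (W3 := 64424510) (N0 := 3) (En := eng) (mo := mog) (C1 := cd2q0) (C2 := cd3q1) (C3 := pd0)
    rfl k0_pm_001

noncomputable def f_pm_011 : ℕ → ℕ → ℕ → ℕ → Bool := onCell 0 536870912 536870912 536870912 858993459 64424510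
    (rowB 3 eng mog cd2q0 cd3q1 pd1 0 false true false .pnn 0 1 1 (qsf 0 536870912 536870912 536870912 1) ndB2q0 ndB3q1 pcB1 Cut.none Ext.none)

def k0_pm_011 : ∃ t, chk3 f_pm_011 t 1 1 1 = true :=
  ⟨(l 4), by decide +kernel⟩

theorem c_pm_011 : CertB 0 536870912 536870912 536870912 858993459 64424510 3 eng mog cd2q0 cd3q1 pd1 false true false .pnn 0 1 1
    ndB2q0 ndB3q1 pcB1 Cut.none Ext.none :=
  certB0 (fam := false) (s1 := true) (s2 := false) (a := 0) (b := 1) (c := 1) (cn := .pnn) (n1 := ndB2q0) (n2 := ndB3q1) (pc := pcB1) (cut := Cut.none) (xt := Ext.none) (P1 := 0) (W1 := 536870912) (P2 := 536870912) (W2 := 536870912) (P3 := 858993459) (W3 := 64424510) (N0 := 3) (En := eng) (mo := mog) (C1 := cd2q0) (C2 := cd3q1) (C3 := pd1)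
    rfl k0_pm_011

noncomputable def f_pm_012 : ℕ → ℕ → ℕ → ℕ → Bool := onCell 0 536870912 1073741824 536870912 858993459 64424510
    (rowB 3 eng mog cd2q0 cd3q2 pd1 0 false true false .pnp 0 1 2 (qsf 0 536870912 1073741824 536870912 1) ndB2q0 ndB3q2 pcB1 Cut.none Ext.none)

def k0_pm_012 : ∃ t, chk3 f_pm_012 t 1 1 1 = true :=
  ⟨(l 4), by decide +kernel⟩

theorem c_pm_012 : CertB 0 536870912 1073741824 536870912 858993459 64424510 3 eng mog cd2q0 cd3q2 pd1 false true false .pnp 0 1 2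
    ndB2q0 ndB3q2 pcB1 Cut.none Ext.none :=
  certB0 (fam := false) (s1 := true) (s2 := false) (a := 0) (b := 1) (c := 2) (cn := .pnp) (n1 := ndB2q0) (n2 := ndB3q2) (pc := pcB1) (cut := Cut.none) (xt := Ext.none) (P1 := 0) (W1 := 536870912) (P2 := 1073741824) (W2 := 536870912) (P3 := 858993459) (W3 := 64424510) (N0 := 3) (En := eng) (mo := mog) (C1 := cd2q0) (C2 := cd3q2) (C3 := pd1)
    rfl k0_pm_012

noncomputable def f_pm_022 : ℕ → ℕ → ℕ → ℕ → Bool := onCell 0 536870912 1073741824 536870912 858993459 64424510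
    (rowB 3 eng mog cd2q0 cd3q2 pd2 0 false true false .pp 0 2 2 (qsf 0 536870912 1073741824 536870912 2) ndB2q0 ndB3q2 pcB2 Cut.none Ext.none)

def k0_pm_022 : ∃ t, chk3 f_pm_022 t 1 1 1 = true :=
  ⟨(l 4), by decide +kernel⟩

theorem c_pm_022 : CertB 0 536870912 1073741824 536870912 858993459 64424510 3 eng mog cd2q0 cd3q2 pd2 false true false .pp 0 2 2
    ndB2q0 ndB3q2 pcB2 Cut.none Ext.none :=
  certB0 (fam := false) (s1 := true) (s2 := false) (a := 0) (b := 2) (c := 2) (cn := .pp) (n1 := ndB2q0) (n2 := ndB3q2) (pc := pcB2) (cut := Cut.none) (xt := Ext.none) (P1 := 0) (W1 := 536870912) (P2 := 1073741824) (W2 := 536870912) (P3 := 858993459) (W3 := 64424510) (N0 := 3) (En := eng) (mo := mog) (C1 := cd2q0) (C2 := cd3q2) (C3 := pd2)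
    rfl k0_pm_022

noncomputable def f_pm_023 : ℕ → ℕ → ℕ → ℕ → Bool := onCell 0 536870912 0 1230186008 858993459 64424510
    (rowB 3 eng mog cd2q0 cd3q3 pd2 0 false true false .up 0 2 3 (qsf 0 536870912 0 1230186008 2) ndB2q0 ndB3q3 pcB2 Cut.none Ext.none)

def k0_pm_023 : ∃ t, chk3 f_pm_023 t 1 1 1 = true :=
  ⟨(b (l 4) (l 4)), by decide +kernel⟩

theorem c_pm_023 : CertB 0 536870912 0 1230186008 858993459 64424510 3 eng mog cd2q0 cd3q3 pd2 false true false .up 0 2 3
    ndB2q0 ndB3q3 pcB2 Cut.none Ext.none :=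
  certB0 (fam := false) (s1 := true) (s2 := false) (a := 0) (b := 2) (c := 3) (cn := .up) (n1 := ndB2q0) (n2 := ndB3q3) (pc := pcB2) (cut := Cut.none) (xt := Ext.none) (P1 := 0) (W1 := 536870912) (P2 := 0) (W2 := 1230186008) (P3 := 858993459) (W3 := 64424510) (N0 := 3) (En := eng) (mo := mog) (C1 := cd2q0) (C2 := cd3q3) (C3 := pd2)
    rfl k0_pm_023

noncomputable def f_pm_033 : ℕ → ℕ → ℕ → ℕ → Bool := onCell 0 536870912 0 1230186008 858993459 64424510
    (rowB 3 eng mog cd2q0 cd3q3 pd3 0 false true false .pnn 0 3 3 (qsf 0 536870912 0 1230186008 3) ndB2q0 ndB3q3 pcB3 Cut.none Ext.none)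

def k0_pm_033 : ∃ t, chk3 f_pm_033 t 1 1 1 = true :=
  ⟨(b (l 4) (l 4)), by decide +kernel⟩

theorem c_pm_033 : CertB 0 536870912 0 1230186008 858993459 64424510 3 eng mog cd2q0 cd3q3 pd3 false true false .pnn 0 3 3
    ndB2q0 ndB3q3 pcB3 Cut.none Ext.none :=
  certB0 (fam := false) (s1 := true) (s2 := false) (a := 0) (b := 3) (c := 3) (cn := .pnn) (n1 := ndB2q0) (n2 := ndB3q3) (pc := pcB3) (cut := Cut.none) (xt := Ext.none) (P1 := 0) (W1 := 536870912) (P2 := 0) (W2 := 1230186008) (P3 := 858993459) (W3 := 64424510) (N0 := 3) (En := eng) (mo := mog) (C1 := cd2q0) (C2 := cd3q3) (C3 := pd3)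
    rfl k0_pm_033

noncomputable def f_pm_101 : ℕ → ℕ → ℕ → ℕ → Bool := onCell 536870912 536870912 536870912 536870912 858993459 64424510
    (rowB 3 eng mog cd2q1 cd3q1 pd0 0 false true false .npn 1 0 1 (qsf 536870912 536870912 536870912 536870912 0) ndB2q1 ndB3q1 pcB0 Cut.none Ext.none)

def k0_pm_101 : ∃ t, chk3 f_pm_101 t 1 1 1 = true :=
  ⟨(l 4), by decide +kernel⟩

theorem c_pm_101 : CertB 536870912 536870912 536870912 536870912 858993459 64424510 3 eng mog cd2q1 cd3q1 pd0 false true false .npn 1 0 1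
    ndB2q1 ndB3q1 pcB0 Cut.none Ext.none :=
  certB0 (fam := false) (s1 := true) (s2 := false) (a := 1) (b := 0) (c := 1) (cn := .npn) (n1 := ndB2q1) (n2 := ndB3q1) (pc := pcB0) (cut := Cut.none) (xt := Ext.none) (P1 := 536870912) (W1 := 536870912) (P2 := 536870912) (W2 := 536870912) (P3 := 858993459) (W3 := 64424510) (N0 := 3) (En := eng) (mo := mog) (C1 := cd2q1) (C2 := cd3q1) (C3 := pd0)
    rfl k0_pm_101

noncomputable def f_pm_102 : ℕ → ℕ → ℕ → ℕ → Bool := onCell 536870912 536870912 1073741824 536870912 858993459 64424510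
    (rowB 3 eng mog cd2q1 cd3q2 pd0 0 false true false .npp 1 0 2 (qsf 536870912 536870912 1073741824 536870912 0) ndB2q1 ndB3q2 pcB0 Cut.none Ext.none)

def k0_pm_102 : ∃ t, chk3 f_pm_102 t 1 1 1 = true :=
  ⟨(l 4), by decide +kernel⟩

theorem c_pm_102 : CertB 536870912 536870912 1073741824 536870912 858993459 64424510 3 eng mog cd2q1 cd3q2 pd0 false true false .npp 1 0 2
    ndB2q1 ndB3q2 pcB0 Cut.none Ext.none :=
  certB0 (fam := false) (s1 := true) (s2 := false) (a := 1) (b := 0) (c := 2) (cn := .npp) (n1 := ndB2q1) (n2 := ndB3q2) (pc := pcB0) (cut := Cut.none) (xt := Ext.none) (P1 := 536870912) (W1 := 536870912) (P2 := 1073741824) (W2 := 536870912) (P3 := 858993459) (W3 := 64424510) (N0 := 3) (En := eng) (mo := mog) (C1 := cd2q1) (C2 := cd3q2) (C3 := pd0)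
    rfl k0_pm_102

noncomputable def f_pm_112 : ℕ → ℕ → ℕ → ℕ → Bool := onCell 536870912 536870912 1073741824 536870912 858993459 64424510
    (rowB 3 eng mog cd2q1 cd3q2 pd1 0 false true false .dn 1 1 2 (qsf 536870912 536870912 1073741824 536870912 1) ndB2q1 ndB3q2 pcB1 Cut.none Ext.none)

def k0_pm_112 : ∃ t, chk3 f_pm_112 t 1 1 1 = true :=
  ⟨(l 4), by decide +kernel⟩

theorem c_pm_112 : CertB 536870912 536870912 1073741824 536870912 858993459 64424510 3 eng mog cd2q1 cd3q2 pd1 false true false .dn 1 1 2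
    ndB2q1 ndB3q2 pcB1 Cut.none Ext.none :=
  certB0 (fam := false) (s1 := true) (s2 := false) (a := 1) (b := 1) (c := 2) (cn := .dn) (n1 := ndB2q1) (n2 := ndB3q2) (pc := pcB1) (cut := Cut.none) (xt := Ext.none) (P1 := 536870912) (W1 := 536870912) (P2 := 1073741824) (W2 := 536870912) (P3 := 858993459) (W3 := 64424510) (N0 := 3) (En := eng) (mo := mog) (C1 := cd2q1) (C2 := cd3q2) (C3 := pd1)
    rfl k0_pm_112

noncomputable def f_pm_113 : ℕ → ℕ → ℕ → ℕ → Bool := onCell 536870912 536870912 0 1230186008 858993459 64424510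
    (rowB 3 eng mog cd2q1 cd3q3 pd1 0 false true false .nn 1 1 3 (qsf 536870912 536870912 0 1230186008 1) ndB2q1 ndB3q3 pcB1 Cut.none Ext.none)

def k0_pm_113 : ∃ t, chk3 f_pm_113 t 1 1 1 = true :=
  ⟨(b (a (l 2) (b (a (l 2) (l 258872654967)) (l 4))) (l 4)), by decide +kernel⟩

theorem c_pm_113 : CertB 536870912 536870912 0 1230186008 858993459 64424510 3 eng mog cd2q1 cd3q3 pd1 false true false .nn 1 1 3
    ndB2q1 ndB3q3 pcB1 Cut.none Ext.none :=
  certB0 (fam := false) (s1 := true) (s2 := false) (a := 1) (b := 1) (c := 3) (cn := .nn) (n1 := ndB2q1) (n2 := ndB3q3) (pc := pcB1) (cut := Cut.none) (xt := Ext.none) (P1 := 536870912) (W1 := 536870912) (P2 := 0) (W2 := 1230186008) (P3 := 858993459) (W3 := 64424510) (N0 := 3) (En := eng) (mo := mog) (C1 := cd2q1) (C2 := cd3q3) (C3 := pd1)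
    rfl k0_pm_113

noncomputable def f_pm_123 : ℕ → ℕ → ℕ → ℕ → Bool := onCell 536870912 536870912 0 1230186008 858993459 64424510
    (rowB 3 eng mog cd2q1 cd3q3 pd2 0 false true false .npn 1 2 3 (qsf 536870912 536870912 0 1230186008 2) ndB2q1 ndB3q3 pcB2 Cut.none Ext.none)

def k0_pm_123 : ∃ t, chk3 f_pm_123 t 1 1 1 = true :=
  ⟨(b (a (l 4) (b (a (l 4) (a (l 4) (l 16781216))) (l 4))) (l 4)), by decide +kernel⟩

theorem c_pm_123 : CertB 536870912 536870912 0 1230186008 858993459 64424510 3 eng mog cd2q1 cd3q3 pd2 false true false .npn 1 2 3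
    ndB2q1 ndB3q3 pcB2 Cut.none Ext.none :=
  certB0 (fam := false) (s1 := true) (s2 := false) (a := 1) (b := 2) (c := 3) (cn := .npn) (n1 := ndB2q1) (n2 := ndB3q3) (pc := pcB2) (cut := Cut.none) (xt := Ext.none) (P1 := 536870912) (W1 := 536870912) (P2 := 0) (W2 := 1230186008) (P3 := 858993459) (W3 := 64424510) (N0 := 3) (En := eng) (mo := mog) (C1 := cd2q1) (C2 := cd3q3) (C3 := pd2)
    rfl k0_pm_123

noncomputable def f_pm_133 : ℕ → ℕ → ℕ → ℕ → Bool := onCell 1610612736 536870912 0 1230186008 858993459 64424510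
    (rowB 3 eng mog cd2q1 cd3q3 pd3 2 false true false .dn 1 3 3 (qsf 536870912 536870912 0 1230186008 3) ndB2q1 ndB3q3 pcB3 Cut.none Ext.none)

def k0_pm_133 : ∃ t, chk3 f_pm_133 t 1 1 1 = true :=
  ⟨(b (l 4) (l 1)), by decide +kernel⟩

theorem c_pm_133 : CertB 536870912 536870912 0 1230186008 858993459 64424510 3 eng mog cd2q1 cd3q3 pd3 false true false .dn 1 3 3
    ndB2q1 ndB3q3 pcB3 Cut.none Ext.none :=
  certB2 (fam := false) (s1 := true) (s2 := false) (a := 1) (b := 3) (c := 3) (cn := .dn) (n1 := ndB2q1) (n2 := ndB3q3) (pc := pcB3) (cut := Cut.none) (xt := Ext.none) (P1 := 536870912) (W1 := 536870912) (P2 := 0) (W2 := 1230186008) (P3 := 858993459) (W3 := 64424510) (N0 := 3) (En := eng) (mo := mog) (C1 := cd2q1) (C2 := cd3q3) (C3 := pd3)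
    rfl (fun _ => rfl) k0_pm_133

noncomputable def f_pm_202 : ℕ → ℕ → ℕ → ℕ → Bool := onCell 1073741824 536870912 0 536870912 858993459 64424510
    (rowB 3 eng mog cd2q2 cd3q2 pd0 1 false true false .pp 2 0 2 (qsf 1073741824 536870912 1073741824 536870912 0) ndB2q2 ndB3q2 pcB0 Cut.none Ext.none)

def k0_pm_202 : ∃ t, chk3 f_pm_202 t 2 2 1 = true :=
  ⟨(a (b (a (a (b (a (b (c (b (l 15219280) (l 15218016)) (b (l 15086368) (l 15093656))) (c (l 15211864) (l 15098736))) (b (b (b (l 15200792) (l 15200856)) (l 15200824)) (c (l 15243424) (l 15159552)))) (c (b (l 15219768) (l 15210616)) (b (l 15131880) (l 15128736)))) (b (b (b (a (l 15249400) (l 15297992)) (l 15483680)) (c (l 15296256) (l 15253496))) (c (b (l 15287864) (l 15278560)) (l 15252536)))) (a (b (b (c (l 15375344) (l 15371056)) (l 15558720)) (c (l 15357096) (l 15375640))) (b (b (c (l 15450336) (l 15486952)) (l 15465728)) (c (l 15436464) (l 15492096))))) (b (a (c (a (b (l 15200568) (l 15190200)) (l 15263328))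 (a (l 15114360) (l 15235432))) (c (a (l 15339368) (l 15422008)) (a (l 15358488) (l 15476168)))) (a (c (a (l 15175448) (l 15244424)) (a (l 15083704) (l 15205112))) (b (c (l 15369416) (l 15397696)) (c (l 15364736) (l 15383768)))))) (b (b (b (a (c (l 15579920) (l 15629992)) (l 15763672)) (a (c (l 15578816) (l 15636800)) (l 15768952))) (a (c (a (l 15531872) (l 15613904)) (a (l 15585760) (l 15685792))) (c (l 15717064) (l 15838112)))) (b (a (c (l 15608624) (l 15625528)) (b (a (l 15730016) (l 15815456)) (c (l 15725656) (l 15839816)))) (a (b (a (l 15531144) (l 15634896)) (a (l 15676448) (l 15644848))) (b (c (l 15739080) (l 15853512)) (l 15586848)))))), by decide +kernel⟩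

def k1_pm_202 : ∃ t, chk3 f_pm_202 t 2 3 1 = true :=
  ⟨(b (a (b (a (c (b (l 15199728) (l 15202384)) (a (l 15049096) (l 15173032))) (c (b (l 15366368) (l 15375944)) (b (l 15376816) (l 15379464)))) (a (c (b (l 15212984) (l 15236984)) (b (l 15103536) (l 15114200))) (c (l 15474928) (b (l 15395304) (l 15406232))))) (b (a (c (l 15683192) (l 15623064)) (b (l 15838864) (a (l 15803240) (l 15914728)))) (a (b (c (l 15634216) (l 15666464)) (a (l 15598496) (l 15727016))) (b (a (l 15825408) (l 2)) (l 2))))) (a (a (a (b (c (l 15250976) (l 15066296)) (b (l 15429456) (l 15301424))) (b (b (l 15250352) (l 15269608)) (b (l 15311736) (l 15391392)))) (b (b (a (l 15366016) (l 15491632)) (a (l 15392616) (l 15534056))) (c (l 15608368) (l 15731184)))) (b (a (b (a (l 15627216) (l 2)) (l 2)) (l 2)) (l 2)))), by decide +kernel⟩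

def k2_pm_202 : ∃ t, chk3 f_pm_202 t 3 1 1 = true :=
  ⟨(b (a (b (a (b (c (l 15839496) (l 15991776)) (b (l 15911232) (a (l 15885256) (l 15884864)))) (b (c (l 15723568) (l 16101104)) (b (c (l 15908296) (l 16118224)) (b (l 16019536) (l 16028568))))) (b (b (a (a (l 15891336) (l 15962712)) (l 15877360)) (a (l 15739256) (l 16070000))) (a (b (l 15933968) (a (l 15962328) (l 16040120))) (b (c (l 16004360) (l 16199512)) (l 2))))) (b (a (b (c (l 15915384) (l 16137848)) (b (l 16044264) (b (l 16063672) (l 16079480)))) (b (c (l 15880768) (l 16078008)) (b (l 15992224) (l 2)))) (b (b (a (b (l 16092048) (l 2)) (l 2)) (l 2)) (l 2)))) (b (a (b (a (b (c (l 15956384) (l 16117368)) (l 2)) (l 2)) (l 2)) (l 2)) (l 2))), by decide +kernel⟩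

theorem s3_pm_202 : ∃ t, chk3 f_pm_202 t 2 1 1 = true := ex3_b k0_pm_202 k1_pm_202

theorem s4_pm_202 : ∃ t, chk3 f_pm_202 t 1 1 1 = true := ex3_a s3_pm_202 k2_pm_202

theorem c_pm_202 : CertB 1073741824 536870912 1073741824 536870912 858993459 64424510 3 eng mog cd2q2 cd3q2 pd0 false true false .pp 2 0 2
    ndB2q2 ndB3q2 pcB0 Cut.none Ext.none :=
  certB1 (fam := false) (s1 := true) (s2 := false) (a := 2) (b := 0) (c := 2) (cn := .pp) (n1 := ndB2q2) (n2 := ndB3q2) (pc := pcB0) (cut := Cut.none) (xt := Ext.none) (P1 := 1073741824) (W1 := 536870912) (P2 := 1073741824) (W2 := 536870912) (P3 := 858993459) (W3 := 64424510) (N0 := 3) (En := eng) (mo := mog) (C1 := cd2q2) (C2 := cd3q2) (C3 := pd0)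
    rfl (fun _ => rfl) s4_pm_202

noncomputable def f_pm_203 : ℕ → ℕ → ℕ → ℕ → Bool := onCell 0 536870912 0 1230186008 858993459 64424510
    (rowB 3 eng mog cd2q2 cd3q3 pd0 2 false true false .up 2 0 3 (qsf 1073741824 536870912 0 1230186008 0) ndB2q2 ndB3q3 pcB0 Cut.none Ext.none)

def k0_pm_203 : ∃ t, chk3 f_pm_203 t 1 1 1 = true :=
  ⟨(b (a (l 2) (a (l 2) (b (l 3) (b (l 3) (a (l 3) (a (l 3) (l 16584520))))))) (b (a (b (l 2) (a (l 2) (a (l 2) (a (l 2) (b (l 2) (l 16057784)))))) (a (b (a (l 2) (b (l 3) (l 147806076455))) (a (b (a (l 16188704) (l 16232528)) (b (l 16151712) (l 15890168))) (b (l 16289752) (b (l 16232824) (l 16224352))))) (b (a (b (l 215452393015) (l 16419288)) (c (l 16284152) (l 16505648))) (a (b (l 16344136) (b (l 16301696) (l 16329952))) (b (l 16369608) (c (l 16330296) (l 16421432))))))) (a (b (a (l 2) (a (b (b (l 2) (l 657766236535)) (a (l 15879672) (l 15962440))) (b (a (l 15986552) (l 16121648)) (a (l 16041656) (l 16132216))))) (a (b (a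 (l 2) (a (l 583140776887) (a (l 15819656) (l 15908416)))) (a (b (l 15635120) (l 15724680)) (a (l 15839760) (a (l 15963064) (l 16044288))))) (a (a (b (a (l 15961704) (l 16004120)) (l 16117200)) (b (l 15937448) (l 16202512))) (b (a (l 16139328) (l 16238544)) (a (l 16276392) (l 16371128)))))) (a (b (a (b (a (l 16118312) (l 16200464)) (l 16281664)) (b (l 16311984) (l 16444424))) (b (a (l 16409184) (l 16503360)) (a (c (l 16462464) (l 16499520)) (c (l 16393776) (l 16315552))))) (b (a (b (l 16425736) (l 16487168)) (b (l 16446768) (l 16386112))) (a (b (c (l 16408920) (l 16339392)) (c (l 16228264) (b (l 16144672) (l 15730944)))) (b (c (l 16248696) (b (l 16197496) (l 16054096))) (b (a (l 16050512) (l 15928744)) (c (l 15935304) (l 15682336)))))))))), by decide +kernel⟩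

theorem c_pm_203 : CertB 1073741824 536870912 0 1230186008 858993459 64424510 3 eng mog cd2q2 cd3q3 pd0 false true false .up 2 0 3
    ndB2q2 ndB3q3 pcB0 Cut.none Ext.none :=
  certB2 (fam := false) (s1 := true) (s2 := false) (a := 2) (b := 0) (c := 3) (cn := .up) (n1 := ndB2q2) (n2 := ndB3q3) (pc := pcB0) (cut := Cut.none) (xt := Ext.none) (P1 := 1073741824) (W1 := 536870912) (P2 := 0) (W2 := 1230186008) (P3 := 858993459) (W3 := 64424510) (N0 := 3) (En := eng) (mo := mog) (C1 := cd2q2) (C2 := cd3q3) (C3 := pd0)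
    rfl (fun _ => rfl) k0_pm_203

noncomputable def f_pm_213 : ℕ → ℕ → ℕ → ℕ → Bool := onCell 536870912 536870912 0 1230186008 858993459 64424510
    (rowB 3 eng mog cd2q2 cd3q3 pd1 2 false true false .pnn 2 1 3 (qsf 1073741824 536870912 0 1230186008 1) ndB2q2 ndB3q3 pcB1 Cut.none Ext.none)

def k0_pm_213 : ∃ t, chk3 f_pm_213 t 2 2 1 = true :=
  ⟨(a (b (l 3) (a (b (l 3) (c (c (l 178945811175) (l 16700168)) (b (l 16635976) (l 16587224)))) (b (c (l 168745195511) (l 169281402343)) (c (b (l 16564392) (l 16582472)) (b (l 16622456) (l 16543808)))))) (b (a (l 3) (a (l 3) (b (l 3) (l 229411861671)))) (a (b (c (a (l 16570896) (l 16571832)) (a (l 16662592) (l 16645272))) (c (b (l 16584224) (l 16620680)) (c (l 16536296) (l 16502048)))) (b (a (c (l 16581096) (l 16620664)) (b (l 16605632) (l 16582440))) (c (b (l 16622392) (l 16650048)) (c (l 16506592) (l 16416992))))))), by decide +kernel⟩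

def k1_pm_213 : ∃ t, chk3 f_pm_213 t 2 3 1 = true :=
  ⟨(b (a (b (a (c (b (l 16574288) (l 16602264)) (b (l 16497664) (l 16386312))) (c (b (l 16607328) (l 16581720)) (b (l 16435168) (l 16322016)))) (a (c (b (l 16584280) (l 16519040)) (b (c (l 16377872) (l 16204272)) (l 16319040))) (b (c (l 16522176) (l 16001416)) (c (l 16425296) (l 16257896))))) (b (a (c (b (l 16599792) (l 16543464)) (b (l 16356736) (a (l 16241904) (l 16247696)))) (c (b (l 16593344) (l 16518408)) (b (l 16113016) (a (l 16260624) (l 16271848))))) (a (c (b (l 16450208) (l 16325664)) (b (a (l 16242120) (l 16243584)) (a (l 16220464) (l 16164024)))) (b (c (l 16463168) (a (l 16225792) (l 16193960))) (a (l 16288552) (l 16312048)))))) (b (a (a (b (c (l 16415416) (l 16325280)) (c (l 16258760) (l 16202168))) (b (c (l 16280832) (l 15989608)) (c (b (l 16143336) (l 16040736)) (b (l 16061904) (l 15930288))))) (a (b (c (l 16245440) (c (l 16050904) (l 15994272))) (a (l 449930130263) (l 501469631847))) (b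 (c (l 16188216) (l 586295283687)) (l 1)))) (a (b (a (b (a (l 16121224) (l 16016544)) (a (l 15997256) (l 15880304))) (b (l 16043344) (l 580389421655))) (a (b (c (l 15880448) (l 15704984)) (c (l 15770240) (l 15530112))) (b (l 658235475207) (l 1)))) (a (b (c (l 559988548087) (l 679710145079)) (l 1)) (l 1))))), by decide +kernel⟩

def k2_pm_213 : ∃ t, chk3 f_pm_213 t 3 1 1 = true :=
  ⟨(b (a (b (a (b (l 3) (a (c (l 16518160) (l 16649952)) (c (l 16572632) (l 16629696)))) (a (b (l 306184220023) (l 16657920)) (b (b (l 16717456) (l 16630176)) (l 16715336)))) (a (b (a (l 16777464) (c (l 16626872) (l 16546232))) (c (a (l 16667160) (l 16677896)) (c (l 16513992) (l 16302800)))) (a (b (c (l 16625832) (l 16549392)) (c (l 16684424) (l 16447768))) (b (l 16591864) (c (l 16699320) (l 16518992)))))) (a (b (a (b (c (l 16566168) (l 16645784)) (l 16668896)) (b (l 16702280) (l 16497320))) (b (a (l 16598232) (l 16606584)) (a (c (l 16713768) (l 16537736)) (b (l 16635136) (a (l 16688008)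 (l 1)))))) (b (a (b (l 16484480) (l 16536720)) (b (l 16457528) (l 16500344))) (b (c (l 159484359767) (a (l 16595216) (l 16617072))) (a (b (l 16555352) (l 1)) (l 1)))))) (b (a (b (a (c (b (l 16682520) (l 16639640)) (b (a (l 16365624) (l 16403272)) (a (l 16283904) (l 16322136)))) (b (c (l 16802880) (a (l 16488424) (l 16572312))) (c (l 16902176) (l 355978184791)))) (b (a (a (l 16333024) (l 16461576)) (a (l 446172789591) (l 1))) (a (a (l 16251960) (l 478384947175)) (l 1)))) (b (a (a (b (l 16763168) (l 1)) (l 1)) (l 1)) (l 1))) (l 1))), by decide +kernel⟩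

theorem s3_pm_213 : ∃ t, chk3 f_pm_213 t 2 1 1 = true := ex3_b k0_pm_213 k1_pm_213

theorem s4_pm_213 : ∃ t, chk3 f_pm_213 t 1 1 1 = true := ex3_a s3_pm_213 k2_pm_213

theorem c_pm_213 : CertB 1073741824 536870912 0 1230186008 858993459 64424510 3 eng mog cd2q2 cd3q3 pd1 false true false .pnn 2 1 3
    ndB2q2 ndB3q3 pcB1 Cut.none Ext.none :=
  certB2 (fam := false) (s1 := true) (s2 := false) (a := 2) (b := 1) (c := 3) (cn := .pnn) (n1 := ndB2q2) (n2 := ndB3q3) (pc := pcB1) (cut := Cut.none) (xt := Ext.none) (P1 := 1073741824) (W1 := 536870912) (P2 := 0) (W2 := 1230186008) (P3 := 858993459) (W3 := 64424510) (N0 := 3) (En := eng) (mo := mog) (C1 := cd2q2) (C2 := cd3q3) (C3 := pd1)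
    rfl (fun _ => rfl) s4_pm_213

noncomputable def f_pm_303 : ℕ → ℕ → ℕ → ℕ → Bool := onCell 0 1230186008 0 1230186008 858993459 64424510
    (rowB 3 eng mog cd2q3 cd3q3 pd0 0 false true false .npn 3 0 3 (qsf 0 1230186008 0 1230186008 0) ndB2q3 ndB3q3 pcB0 Cut.none Ext.none)

def k0_pm_303 : ∃ t, chk3 f_pm_303 t 2 1 1 = true :=
  ⟨(b (l 3) (b (l 3) (l 1))), by decide +kernel⟩

def k1_pm_303 : ∃ t, chk3 f_pm_303 t 3 2 1 = true :=
  ⟨(a (l 3) (l 3)), by decide +kernel⟩

def k2_pm_303 : ∃ t, chk3 f_pm_303 t 6 3 1 = true :=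
  ⟨(b (l 3) (b (b (l 3) (l 1)) (l 1))), by decide +kernel⟩

def k3_pm_303 : ∃ t, chk3 f_pm_303 t 7 3 1 = true :=
  ⟨(b (a (b (l 3) (a (l 3) (a (l 3) (a (l 3) (b (l 3) (b (l 3) (l 15786024))))))) (b (a (l 3) (b (l 3) (a (l 3) (l 16310024)))) (a (b (a (l 3) (l 263233635991)) (a (b (l 15915312) (l 15932600)) (b (l 15969528) (l 15886672)))) (b (a (l 16136072) (l 16191280)) (a (b (l 16028536) (l 15949576)) (l 16198336)))))) (a (b (b (a (a (l 3) (b (l 3) (b (l 285780967767) (a (l 499858094119) (l 15413984))))) (b (c (a (l 15674344) (l 15722344)) (a (l 15594792) (l 15622064))) (a (c (l 15565648) (l 15425584)) (a (l 15542208) (a (l 15568344) (l 15586928)))))) (a (b (a (l 1) (b (l 499858051607) (l 1))) (l 1)) (b (a (l 15533304) (l 15476600)) (a (b (l 15364560) (l 1)) (l 15414576))))) (a (l 1) (b (b (a (l 1) (b (l 15378144) (l 1))) (l 1)) (l 1)))) (b (a (b (a (b (a (l 15716736) (l 15750160)) (b (l 15660216) (l 15622960))) (b (a (l 15783224) (l 15816480)) (b (l 15744808)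 (l 15722328)))) (b (a (l 15560688) (l 15672648)) (a (l 15472608) (l 15571344)))) (b (b (a (l 15869600) (l 15944344)) (a (b (l 15831616) (l 15819584)) (l 15914912))) (a (b (a (b (l 15781216) (l 15748696)) (l 15822920)) (b (a (l 15703944) (l 15778768)) (l 15685584))) (b (a (l 15866872) (l 15914648)) (a (b (l 15846872) (l 15811432)) (b (l 15896088) (l 15881440))))))) (a (b (b (a (b (l 15426992) (l 15436840)) (l 15491968)) (a (l 15448392) (l 15503664))) (b (a (l 1) (l 15502888)) (l 1))) (b (a (b (l 15687360) (l 15566032)) (a (b (l 15724592) (l 15623544)) (b (b (l 15845960) (l 15790000)) (l 15695568)))) (b (a (l 15576880) (l 15657504)) (a (l 15557728) (l 15651888)))))))), by decide +kernel⟩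

theorem s4_pm_303 : ∃ t, chk3 f_pm_303 t 3 3 1 = true := ex3_a k2_pm_303 k3_pm_303

theorem s5_pm_303 : ∃ t, chk3 f_pm_303 t 3 1 1 = true := ex3_b k1_pm_303 s4_pm_303

theorem s6_pm_303 : ∃ t, chk3 f_pm_303 t 1 1 1 = true := ex3_a k0_pm_303 s5_pm_303

theorem c_pm_303 : CertB 0 1230186008 0 1230186008 858993459 64424510 3 eng mog cd2q3 cd3q3 pd0 false true false .npn 3 0 3
    ndB2q3 ndB3q3 pcB0 Cut.none Ext.none :=
  certB0 (fam := false) (s1 := true) (s2 := false) (a := 3) (b := 0) (c := 3) (cn := .npn) (n1 := ndB2q3) (n2 := ndB3q3) (pc := pcB0) (cut := Cut.none) (xt := Ext.none) (P1 := 0) (W1 := 1230186008) (P2 := 0) (W2 := 1230186008) (P3 := 858993459) (W3 := 64424510) (N0 := 3) (En := eng) (mo := mog) (C1 := cd2q3) (C2 := cd3q3) (C3 := pd0)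
    rfl s6_pm_303

noncomputable def f_pm_313 : ℕ → ℕ → ℕ → ℕ → Bool := onCell 0 1230186008 0 1230186008 858993459 64424510
    (rowB 3 eng mog cd2q3 cd3q3 pd1 0 false true false .dn 3 1 3 (qsf 0 1230186008 0 1230186008 1) ndB2q3 ndB3q3 pcB1 Cut.none Ext.none)

def k0_pm_313 : ∃ t, chk3 f_pm_313 t 1 1 1 = true :=
  ⟨(a (l 1) (b (a (l 1) (l 3)) (l 1))), by decide +kernel⟩

theorem c_pm_313 : CertB 0 1230186008 0 1230186008 858993459 64424510 3 eng mog cd2q3 cd3q3 pd1 false true false .dn 3 1 3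
    ndB2q3 ndB3q3 pcB1 Cut.none Ext.none :=
  certB0 (fam := false) (s1 := true) (s2 := false) (a := 3) (b := 1) (c := 3) (cn := .dn) (n1 := ndB2q3) (n2 := ndB3q3) (pc := pcB1) (cut := Cut.none) (xt := Ext.none) (P1 := 0) (W1 := 1230186008) (P2 := 0) (W2 := 1230186008) (P3 := 858993459) (W3 := 64424510) (N0 := 3) (En := eng) (mo := mog) (C1 := cd2q3) (C2 := cd3q3) (C3 := pd1)
    rfl k0_pm_313

noncomputable def f_mm_001 : ℕ → ℕ → ℕ → ℕ → Bool := onCell 0 536870912 0 536870912 858993459 64424510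
    (rowB 3 eng mog cd2q0 cd3q1 pd0 1 false false false .up 0 0 1 (qsf 0 536870912 536870912 536870912 0) ndB2q0 ndB3q1 pcB0 Cut.none Ext.none)

def k0_mm_001 : ∃ t, chk3 f_mm_001 t 1 1 1 = true :=
  ⟨(l 3), by decide +kernel⟩

theorem c_mm_001 : CertB 0 536870912 536870912 536870912 858993459 64424510 3 eng mog cd2q0 cd3q1 pd0 false false false .up 0 0 1
    ndB2q0 ndB3q1 pcB0 Cut.none Ext.none :=
  certB1 (fam := false) (s1 := false) (s2 := false) (a := 0) (b := 0) (c := 1) (cn := .up) (n1 := ndB2q0) (n2 := ndB3q1) (pc := pcB0) (cut := Cut.none) (xt := Ext.none) (P1 := 0) (W1 := 536870912) (P2 := 536870912) (W2 := 536870912) (P3 := 858993459) (W3 := 64424510) (N0 := 3) (En := eng) (mo := mog) (C1 := cd2q0) (C2 := cd3q1) (C3 := pd0)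
    rfl (fun _ => rfl) k0_mm_001

noncomputable def f_mm_011 : ℕ → ℕ → ℕ → ℕ → Bool := onCell 0 536870912 536870912 536870912 858993459 64424510
    (rowB 3 eng mog cd2q0 cd3q1 pd1 1 false false false .pnn 0 1 1 (qsf 0 536870912 536870912 536870912 1) ndB2q0 ndB3q1 pcB1 Cut.none Ext.none)

def k0_mm_011 : ∃ t, chk3 f_mm_011 t 1 1 1 = true :=
  ⟨(l 5), by decide +kernel⟩

theorem c_mm_011 : CertB 0 536870912 536870912 536870912 858993459 64424510 3 eng mog cd2q0 cd3q1 pd1 false false false .pnn 0 1 1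
    ndB2q0 ndB3q1 pcB1 Cut.none Ext.none :=
  certB1 (fam := false) (s1 := false) (s2 := false) (a := 0) (b := 1) (c := 1) (cn := .pnn) (n1 := ndB2q0) (n2 := ndB3q1) (pc := pcB1) (cut := Cut.none) (xt := Ext.none) (P1 := 0) (W1 := 536870912) (P2 := 536870912) (W2 := 536870912) (P3 := 858993459) (W3 := 64424510) (N0 := 3) (En := eng) (mo := mog) (C1 := cd2q0) (C2 := cd3q1) (C3 := pd1)
    rfl (fun _ => rfl) k0_mm_011

noncomputable def f_mm_012 : ℕ → ℕ → ℕ → ℕ → Bool := onCell 0 536870912 1073741824 536870912 858993459 64424510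
    (rowB 3 eng mog cd2q0 cd3q2 pd1 0 false false false .pnp 0 1 2 (qsf 0 536870912 1073741824 536870912 1) ndB2q0 ndB3q2 pcB1 Cut.none Ext.none)

def k0_mm_012 : ∃ t, chk3 f_mm_012 t 1 1 1 = true :=
  ⟨(l 5), by decide +kernel⟩

theorem c_mm_012 : CertB 0 536870912 1073741824 536870912 858993459 64424510 3 eng mog cd2q0 cd3q2 pd1 false false false .pnp 0 1 2
    ndB2q0 ndB3q2 pcB1 Cut.none Ext.none :=
  certB0 (fam := false) (s1 := false) (s2 := false) (a := 0) (b := 1) (c := 2) (cn := .pnp) (n1 := ndB2q0) (n2 := ndB3q2) (pc := pcB1) (cut := Cut.none) (xt := Ext.none) (P1 := 0) (W1 := 536870912) (P2 := 1073741824) (W2 := 536870912) (P3 := 858993459) (W3 := 64424510) (N0 := 3) (En := eng) (mo := mog) (C1 := cd2q0) (C2 := cd3q2) (C3 := pd1)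
    rfl k0_mm_012

noncomputable def f_mm_022 : ℕ → ℕ → ℕ → ℕ → Bool := onCell 0 536870912 1073741824 536870912 858993459 64424510
    (rowB 3 eng mog cd2q0 cd3q2 pd2 0 false false false .pp 0 2 2 (qsf 0 536870912 1073741824 536870912 2) ndB2q0 ndB3q2 pcB2 Cut.none Ext.none)

def k0_mm_022 : ∃ t, chk3 f_mm_022 t 1 1 1 = true :=
  ⟨(l 5), by decide +kernel⟩

theorem c_mm_022 : CertB 0 536870912 1073741824 536870912 858993459 64424510 3 eng mog cd2q0 cd3q2 pd2 false false false .pp 0 2 2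
    ndB2q0 ndB3q2 pcB2 Cut.none Ext.none :=
  certB0 (fam := false) (s1 := false) (s2 := false) (a := 0) (b := 2) (c := 2) (cn := .pp) (n1 := ndB2q0) (n2 := ndB3q2) (pc := pcB2) (cut := Cut.none) (xt := Ext.none) (P1 := 0) (W1 := 536870912) (P2 := 1073741824) (W2 := 536870912) (P3 := 858993459) (W3 := 64424510) (N0 := 3) (En := eng) (mo := mog) (C1 := cd2q0) (C2 := cd3q2) (C3 := pd2)
    rfl k0_mm_022

noncomputable def f_mm_023 : ℕ → ℕ → ℕ → ℕ → Bool := onCell 0 536870912 0 1230186008 858993459 64424510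
    (rowB 3 eng mog cd2q0 cd3q3 pd2 0 false false false .up 0 2 3 (qsf 0 536870912 0 1230186008 2) ndB2q0 ndB3q3 pcB2 Cut.none Ext.none)

def k0_mm_023 : ∃ t, chk3 f_mm_023 t 1 1 1 = true :=
  ⟨(l 5), by decide +kernel⟩

theorem c_mm_023 : CertB 0 536870912 0 1230186008 858993459 64424510 3 eng mog cd2q0 cd3q3 pd2 false false false .up 0 2 3
    ndB2q0 ndB3q3 pcB2 Cut.none Ext.none :=
  certB0 (fam := false) (s1 := false) (s2 := false) (a := 0) (b := 2) (c := 3) (cn := .up) (n1 := ndB2q0) (n2 := ndB3q3) (pc := pcB2) (cut := Cut.none) (xt := Ext.none) (P1 := 0) (W1 := 536870912) (P2 := 0) (W2 := 1230186008) (P3 := 858993459) (W3 := 64424510) (N0 := 3) (En := eng) (mo := mog) (C1 := cd2q0) (C2 := cd3q3) (C3 := pd2)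
    rfl k0_mm_023

noncomputable def f_mm_033 : ℕ → ℕ → ℕ → ℕ → Bool := onCell 0 536870912 0 1230186008 858993459 64424510
    (rowB 3 eng mog cd2q0 cd3q3 pd3 0 false false false .pnn 0 3 3 (qsf 0 536870912 0 1230186008 3) ndB2q0 ndB3q3 pcB3 Cut.none Ext.none)

def k0_mm_033 : ∃ t, chk3 f_mm_033 t 1 1 1 = true :=
  ⟨(l 5), by decide +kernel⟩

theorem c_mm_033 : CertB 0 536870912 0 1230186008 858993459 64424510 3 eng mog cd2q0 cd3q3 pd3 false false false .pnn 0 3 3
    ndB2q0 ndB3q3 pcB3 Cut.none Ext.none :=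
  certB0 (fam := false) (s1 := false) (s2 := false) (a := 0) (b := 3) (c := 3) (cn := .pnn) (n1 := ndB2q0) (n2 := ndB3q3) (pc := pcB3) (cut := Cut.none) (xt := Ext.none) (P1 := 0) (W1 := 536870912) (P2 := 0) (W2 := 1230186008) (P3 := 858993459) (W3 := 64424510) (N0 := 3) (En := eng) (mo := mog) (C1 := cd2q0) (C2 := cd3q3) (C3 := pd3)
    rfl k0_mm_033

noncomputable def f_mm_101 : ℕ → ℕ → ℕ → ℕ → Bool := onCell 536870912 536870912 536870912 536870912 858993459 64424510
    (rowB 3 eng mog cd2q1 cd3q1 pd0 0 false false false .npn 1 0 1 (qsf 536870912 536870912 536870912 536870912 0) ndB2q1 ndB3q1 pcB0 Cut.none Ext.none)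

def k0_mm_101 : ∃ t, chk3 f_mm_101 t 1 1 1 = true :=
  ⟨(l 3), by decide +kernel⟩

theorem c_mm_101 : CertB 536870912 536870912 536870912 536870912 858993459 64424510 3 eng mog cd2q1 cd3q1 pd0 false false false .npn 1 0 1
    ndB2q1 ndB3q1 pcB0 Cut.none Ext.none :=
  certB0 (fam := false) (s1 := false) (s2 := false) (a := 1) (b := 0) (c := 1) (cn := .npn) (n1 := ndB2q1) (n2 := ndB3q1) (pc := pcB0) (cut := Cut.none) (xt := Ext.none) (P1 := 536870912) (W1 := 536870912) (P2 := 536870912) (W2 := 536870912) (P3 := 858993459) (W3 := 64424510) (N0 := 3) (En := eng) (mo := mog) (C1 := cd2q1) (C2 := cd3q1) (C3 := pd0)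
    rfl k0_mm_101

noncomputable def f_mm_102 : ℕ → ℕ → ℕ → ℕ → Bool := onCell 536870912 536870912 1073741824 536870912 858993459 64424510
    (rowB 3 eng mog cd2q1 cd3q2 pd0 0 false false false .npp 1 0 2 (qsf 536870912 536870912 1073741824 536870912 0) ndB2q1 ndB3q2 pcB0 Cut.none Ext.none)

def k0_mm_102 : ∃ t, chk3 f_mm_102 t 1 1 1 = true :=
  ⟨(l 5), by decide +kernel⟩

theorem c_mm_102 : CertB 536870912 536870912 1073741824 536870912 858993459 64424510 3 eng mog cd2q1 cd3q2 pd0 false false false .npp 1 0 2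
    ndB2q1 ndB3q2 pcB0 Cut.none Ext.none :=
  certB0 (fam := false) (s1 := false) (s2 := false) (a := 1) (b := 0) (c := 2) (cn := .npp) (n1 := ndB2q1) (n2 := ndB3q2) (pc := pcB0) (cut := Cut.none) (xt := Ext.none) (P1 := 536870912) (W1 := 536870912) (P2 := 1073741824) (W2 := 536870912) (P3 := 858993459) (W3 := 64424510) (N0 := 3) (En := eng) (mo := mog) (C1 := cd2q1) (C2 := cd3q2) (C3 := pd0)
    rfl k0_mm_102

noncomputable def f_mm_112 : ℕ → ℕ → ℕ → ℕ → Bool := onCell 536870912 536870912 1073741824 536870912 858993459 64424510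
    (rowB 3 eng mog cd2q1 cd3q2 pd1 0 false false false .dn 1 1 2 (qsf 536870912 536870912 1073741824 536870912 1) ndB2q1 ndB3q2 pcB1 Cut.none Ext.none)

def k0_mm_112 : ∃ t, chk3 f_mm_112 t 1 1 1 = true :=
  ⟨(l 5), by decide +kernel⟩

theorem c_mm_112 : CertB 536870912 536870912 1073741824 536870912 858993459 64424510 3 eng mog cd2q1 cd3q2 pd1 false false false .dn 1 1 2
    ndB2q1 ndB3q2 pcB1 Cut.none Ext.none :=
  certB0 (fam := false) (s1 := false) (s2 := false) (a := 1) (b := 1) (c := 2) (cn := .dn) (n1 := ndB2q1) (n2 := ndB3q2) (pc := pcB1) (cut := Cut.none) (xt := Ext.none) (P1 := 536870912) (W1 := 536870912) (P2 := 1073741824) (W2 := 536870912) (P3 := 858993459) (W3 := 64424510) (N0 := 3) (En := eng) (mo := mog) (C1 := cd2q1) (C2 := cd3q2) (C3 := pd1)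
    rfl k0_mm_112

noncomputable def f_mm_113 : ℕ → ℕ → ℕ → ℕ → Bool := onCell 536870912 536870912 0 1230186008 858993459 64424510
    (rowB 3 eng mog cd2q1 cd3q3 pd1 0 false false false .nn 1 1 3 (qsf 536870912 536870912 0 1230186008 1) ndB2q1 ndB3q3 pcB1 Cut.none Ext.none)

def k0_mm_113 : ∃ t, chk3 f_mm_113 t 1 1 1 = true :=
  ⟨(l 5), by decide +kernel⟩

theorem c_mm_113 : CertB 536870912 536870912 0 1230186008 858993459 64424510 3 eng mog cd2q1 cd3q3 pd1 false false false .nn 1 1 3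
    ndB2q1 ndB3q3 pcB1 Cut.none Ext.none :=
  certB0 (fam := false) (s1 := false) (s2 := false) (a := 1) (b := 1) (c := 3) (cn := .nn) (n1 := ndB2q1) (n2 := ndB3q3) (pc := pcB1) (cut := Cut.none) (xt := Ext.none) (P1 := 536870912) (W1 := 536870912) (P2 := 0) (W2 := 1230186008) (P3 := 858993459) (W3 := 64424510) (N0 := 3) (En := eng) (mo := mog) (C1 := cd2q1) (C2 := cd3q3) (C3 := pd1)
    rfl k0_mm_113

noncomputable def f_mm_123 : ℕ → ℕ → ℕ → ℕ → Bool := onCell 536870912 536870912 0 1230186008 858993459 64424510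
    (rowB 3 eng mog cd2q1 cd3q3 pd2 0 false false false .npn 1 2 3 (qsf 536870912 536870912 0 1230186008 2) ndB2q1 ndB3q3 pcB2 Cut.none Ext.none)

def k0_mm_123 : ∃ t, chk3 f_mm_123 t 1 1 1 = true :=
  ⟨(l 5), by decide +kernel⟩

theorem c_mm_123 : CertB 536870912 536870912 0 1230186008 858993459 64424510 3 eng mog cd2q1 cd3q3 pd2 false false false .npn 1 2 3
    ndB2q1 ndB3q3 pcB2 Cut.none Ext.none :=
  certB0 (fam := false) (s1 := false) (s2 := false) (a := 1) (b := 2) (c := 3) (cn := .npn) (n1 := ndB2q1) (n2 := ndB3q3) (pc := pcB2) (cut := Cut.none) (xt := Ext.none) (P1 := 536870912) (W1 := 536870912) (P2 := 0) (W2 := 1230186008) (P3 := 858993459) (W3 := 64424510) (N0 := 3) (En := eng) (mo := mog) (C1 := cd2q1) (C2 := cd3q3) (C3 := pd2)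
    rfl k0_mm_123

noncomputable def f_mm_133 : ℕ → ℕ → ℕ → ℕ → Bool := onCell 536870912 536870912 0 1230186008 858993459 64424510
    (rowB 3 eng mog cd2q1 cd3q3 pd3 0 false false false .dn 1 3 3 (qsf 536870912 536870912 0 1230186008 3) ndB2q1 ndB3q3 pcB3 Cut.none Ext.none)

def k0_mm_133 : ∃ t, chk3 f_mm_133 t 1 1 1 = true :=
  ⟨(l 5), by decide +kernel⟩

theorem c_mm_133 : CertB 536870912 536870912 0 1230186008 858993459 64424510 3 eng mog cd2q1 cd3q3 pd3 false false false .dn 1 3 3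
    ndB2q1 ndB3q3 pcB3 Cut.none Ext.none :=
  certB0 (fam := false) (s1 := false) (s2 := false) (a := 1) (b := 3) (c := 3) (cn := .dn) (n1 := ndB2q1) (n2 := ndB3q3) (pc := pcB3) (cut := Cut.none) (xt := Ext.none) (P1 := 536870912) (W1 := 536870912) (P2 := 0) (W2 := 1230186008) (P3 := 858993459) (W3 := 64424510) (N0 := 3) (En := eng) (mo := mog) (C1 := cd2q1) (C2 := cd3q3) (C3 := pd3)
    rfl k0_mm_133

noncomputable def f_mm_202 : ℕ → ℕ → ℕ → ℕ → Bool := onCell 1073741824 536870912 1073741824 536870912 858993459 64424510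
    (rowB 3 eng mog cd2q2 cd3q2 pd0 0 false false false .pp 2 0 2 (qsf 1073741824 536870912 1073741824 536870912 0) ndB2q2 ndB3q2 pcB0 Cut.none Ext.none)

def k0_mm_202 : ∃ t, chk3 f_mm_202 t 1 1 1 = true :=
  ⟨(l 3), by decide +kernel⟩

theorem c_mm_202 : CertB 1073741824 536870912 1073741824 536870912 858993459 64424510 3 eng mog cd2q2 cd3q2 pd0 false false false .pp 2 0 2
    ndB2q2 ndB3q2 pcB0 Cut.none Ext.none :=
  certB0 (fam := false) (s1 := false) (s2 := false) (a := 2) (b := 0) (c := 2) (cn := .pp) (n1 := ndB2q2) (n2 := ndB3q2) (pc := pcB0) (cut := Cut.none) (xt := Ext.none) (P1 := 1073741824) (W1 := 536870912) (P2 := 1073741824) (W2 := 536870912) (P3 := 858993459) (W3 := 64424510) (N0 := 3) (En := eng) (mo := mog) (C1 := cd2q2) (C2 := cd3q2) (C3 := pd0)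
    rfl k0_mm_202

noncomputable def f_mm_203 : ℕ → ℕ → ℕ → ℕ → Bool := onCell 1073741824 536870912 0 1230186008 858993459 64424510
    (rowB 3 eng mog cd2q2 cd3q3 pd0 0 false false false .up 2 0 3 (qsf 1073741824 536870912 0 1230186008 0) ndB2q2 ndB3q3 pcB0 Cut.none Ext.none)

def k0_mm_203 : ∃ t, chk3 f_mm_203 t 1 1 1 = true :=
  ⟨(b (l 5) (l 3)), by decide +kernel⟩

theorem c_mm_203 : CertB 1073741824 536870912 0 1230186008 858993459 64424510 3 eng mog cd2q2 cd3q3 pd0 false false false .up 2 0 3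
    ndB2q2 ndB3q3 pcB0 Cut.none Ext.none :=
  certB0 (fam := false) (s1 := false) (s2 := false) (a := 2) (b := 0) (c := 3) (cn := .up) (n1 := ndB2q2) (n2 := ndB3q3) (pc := pcB0) (cut := Cut.none) (xt := Ext.none) (P1 := 1073741824) (W1 := 536870912) (P2 := 0) (W2 := 1230186008) (P3 := 858993459) (W3 := 64424510) (N0 := 3) (En := eng) (mo := mog) (C1 := cd2q2) (C2 := cd3q3) (C3 := pd0)
    rfl k0_mm_203

noncomputable def f_mm_213 : ℕ → ℕ → ℕ → ℕ → Bool := onCell 1073741824 536870912 0 1230186008 858993459 64424510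
    (rowB 3 eng mog cd2q2 cd3q3 pd1 0 false false false .pnn 2 1 3 (qsf 1073741824 536870912 0 1230186008 1) ndB2q2 ndB3q3 pcB1 Cut.none Ext.none)

def k0_mm_213 : ∃ t, chk3 f_mm_213 t 1 1 1 = true :=
  ⟨(b (l 5) (l 3)), by decide +kernel⟩

theorem c_mm_213 : CertB 1073741824 536870912 0 1230186008 858993459 64424510 3 eng mog cd2q2 cd3q3 pd1 false false false .pnn 2 1 3
    ndB2q2 ndB3q3 pcB1 Cut.none Ext.none :=
  certB0 (fam := false) (s1 := false) (s2 := false) (a := 2) (b := 1) (c := 3) (cn := .pnn) (n1 := ndB2q2) (n2 := ndB3q3) (pc := pcB1) (cut := Cut.none) (xt := Ext.none) (P1 := 1073741824) (W1 := 536870912) (P2 := 0) (W2 := 1230186008) (P3 := 858993459) (W3 := 64424510) (N0 := 3) (En := eng) (mo := mog) (C1 := cd2q2) (C2 := cd3q3) (C3 := pd1)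
    rfl k0_mm_213

noncomputable def f_mm_303 : ℕ → ℕ → ℕ → ℕ → Bool := onCell 0 1230186008 0 1230186008 858993459 64424510
    (rowB 3 eng mog cd2q3 cd3q3 pd0 0 false false false .npn 3 0 3 (qsf 0 1230186008 0 1230186008 0) ndB2q3 ndB3q3 pcB0 Cut.none Ext.none)

def k0_mm_303 : ∃ t, chk3 f_mm_303 t 1 1 1 = true :=
  ⟨(a (b (l 3) (l 3)) (b (l 3) (l 3))), by decide +kernel⟩

theorem c_mm_303 : CertB 0 1230186008 0 1230186008 858993459 64424510 3 eng mog cd2q3 cd3q3 pd0 false false false .npn 3 0 3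
    ndB2q3 ndB3q3 pcB0 Cut.none Ext.none :=
  certB0 (fam := false) (s1 := false) (s2 := false) (a := 3) (b := 0) (c := 3) (cn := .npn) (n1 := ndB2q3) (n2 := ndB3q3) (pc := pcB0) (cut := Cut.none) (xt := Ext.none) (P1 := 0) (W1 := 1230186008) (P2 := 0) (W2 := 1230186008) (P3 := 858993459) (W3 := 64424510) (N0 := 3) (En := eng) (mo := mog) (C1 := cd2q3) (C2 := cd3q3) (C3 := pd0)
    rfl k0_mm_303

noncomputable def f_mm_313 : ℕ → ℕ → ℕ → ℕ → Bool := onCell 0 1230186008 0 1230186008 858993459 64424510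
    (rowB 3 eng mog cd2q3 cd3q3 pd1 0 false false false .dn 3 1 3 (qsf 0 1230186008 0 1230186008 1) ndB2q3 ndB3q3 pcB1 Cut.none Ext.none)

def k0_mm_313 : ∃ t, chk3 f_mm_313 t 1 1 1 = true :=
  ⟨(a (l 1) (b (l 3) (l 1))), by decide +kernel⟩

theorem c_mm_313 : CertB 0 1230186008 0 1230186008 858993459 64424510 3 eng mog cd2q3 cd3q3 pd1 false false false .dn 3 1 3
    ndB2q3 ndB3q3 pcB1 Cut.none Ext.none :=
  certB0 (fam := false) (s1 := false) (s2 := false) (a := 3) (b := 1) (c := 3) (cn := .dn) (n1 := ndB2q3) (n2 := ndB3q3) (pc := pcB1) (cut := Cut.none) (xt := Ext.none) (P1 := 0) (W1 := 1230186008) (P2 := 0) (W2 := 1230186008) (P3 := 858993459) (W3 := 64424510) (N0 := 3) (En := eng) (mo := mog) (C1 := cd2q3) (C2 := cd3q3) (C3 := pd1)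
    rfl k0_mm_313

end Pool.Agent.Strip051.G.I8000_8600.Tab.C.BB23

namespace Pool.Agent.Strip051.G.I8000_8600.Tab.C.BB24

open Pool.Agent.Strip051.PB Pool.Agent.Strip051.PB.T
open Pool.Agent.Strip051.G.I8000_8600.Tab

noncomputable def f_pp_001 : ℕ → ℕ → ℕ → ℕ → Bool := onCell 0 536870912 0 536870912 858993459 64424510
    (rowB 3 eng mog cd2q0 cd4q1 pd0 1 false true true .up 0 0 1 (qsf 0 536870912 536870912 536870912 0) ndB2q0 ndB4q1 pcB0 Cut.none Ext.none)

def k0_pp_001 : ∃ t, chk3 f_pp_001 t 1 1 1 = true :=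
  ⟨(l 3), by decide +kernel⟩

theorem c_pp_001 : CertB 0 536870912 536870912 536870912 858993459 64424510 3 eng mog cd2q0 cd4q1 pd0 false true true .up 0 0 1
    ndB2q0 ndB4q1 pcB0 Cut.none Ext.none :=
  certB1 (fam := false) (s1 := true) (s2 := true) (a := 0) (b := 0) (c := 1) (cn := .up) (n1 := ndB2q0) (n2 := ndB4q1) (pc := pcB0) (cut := Cut.none) (xt := Ext.none) (P1 := 0) (W1 := 536870912) (P2 := 536870912) (W2 := 536870912) (P3 := 858993459) (W3 := 64424510) (N0 := 3) (En := eng) (mo := mog) (C1 := cd2q0) (C2 := cd4q1) (C3 := pd0)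
    rfl (fun _ => rfl) k0_pp_001

noncomputable def f_pp_011 : ℕ → ℕ → ℕ → ℕ → Bool := onCell 0 536870912 536870912 536870912 858993459 64424510
    (rowB 3 eng mog cd2q0 cd4q1 pd1 0 false true true .pnn 0 1 1 (qsf 0 536870912 536870912 536870912 1) ndB2q0 ndB4q1 pcB1 Cut.none Ext.none)

def k0_pp_011 : ∃ t, chk3 f_pp_011 t 1 1 1 = true :=
  ⟨(a (b (l 3) (l 3)) (l 3)), by decide +kernel⟩

theorem c_pp_011 : CertB 0 536870912 536870912 536870912 858993459 64424510 3 eng mog cd2q0 cd4q1 pd1 false true true .pnn 0 1 1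
    ndB2q0 ndB4q1 pcB1 Cut.none Ext.none :=
  certB0 (fam := false) (s1 := true) (s2 := true) (a := 0) (b := 1) (c := 1) (cn := .pnn) (n1 := ndB2q0) (n2 := ndB4q1) (pc := pcB1) (cut := Cut.none) (xt := Ext.none) (P1 := 0) (W1 := 536870912) (P2 := 536870912) (W2 := 536870912) (P3 := 858993459) (W3 := 64424510) (N0 := 3) (En := eng) (mo := mog) (C1 := cd2q0) (C2 := cd4q1) (C3 := pd1)
    rfl k0_pp_011

noncomputable def f_pp_012 : ℕ → ℕ → ℕ → ℕ → Bool := onCell 536870912 536870912 1073741824 536870912 858993459 64424510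
    (rowB 3 eng mog cd2q0 cd4q2 pd1 2 false true true .pnp 0 1 2 (qsf 0 536870912 1073741824 536870912 1) ndB2q0 ndB4q2 pcB1 Cut.none Ext.none)

def k0_pp_012 : ∃ t, chk3 f_pp_012 t 1 1 1 = true :=
  ⟨(b (l 3) (l 3)), by decide +kernel⟩

theorem c_pp_012 : CertB 0 536870912 1073741824 536870912 858993459 64424510 3 eng mog cd2q0 cd4q2 pd1 false true true .pnp 0 1 2
    ndB2q0 ndB4q2 pcB1 Cut.none Ext.none :=
  certB2 (fam := false) (s1 := true) (s2 := true) (a := 0) (b := 1) (c := 2) (cn := .pnp) (n1 := ndB2q0) (n2 := ndB4q2) (pc := pcB1) (cut := Cut.none) (xt := Ext.none) (P1 := 0) (W1 := 536870912) (P2 := 1073741824) (W2 := 536870912) (P3 := 858993459) (W3 := 64424510) (N0 := 3) (En := eng) (mo := mog) (C1 := cd2q0) (C2 := cd4q2) (C3 := pd1)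
    rfl (fun _ => rfl) k0_pp_012

noncomputable def f_pp_022 : ℕ → ℕ → ℕ → ℕ → Bool := onCell 0 536870912 1073741824 536870912 858993459 64424510
    (rowB 3 eng mog cd2q0 cd4q2 pd2 1 false true true .pp 0 2 2 (qsf 0 536870912 1073741824 536870912 2) ndB2q0 ndB4q2 pcB2 Cut.none Ext.none)

def k0_pp_022 : ∃ t, chk3 f_pp_022 t 2 2 1 = true :=
  ⟨(a (b (b (l 3) (a (b (a (a (b (l 3) (a (l 16526592) (l 16530312))) (l 3)) (l 3)) (a (b (a (l 16419744) (l 16512280)) (c (l 16480528) (l 16479784))) (b (l 3) (l 16527224)))) (l 3))) (a (b (b (b (a (b (l 16459520) (l 16447184)) (c (l 16460216) (l 16464192))) (b (a (l 16437656) (l 16443168)) (b (a (l 16432512) (l 16435680)) (a (l 16431824) (l 16432968))))) (a (l 16452024) (l 16412904))) (a (a (l 16482552) (l 16497464)) (b (l 16375912) (l 16302488)))) (b (a (b (b (b (l 16438608) (l 16426552)) (b (l 16415232) (b (l 16409000) (l 16405896)))) (l 16392280)) (b (b (l 3) (b (a (l 16369984) (l 16362872)) (b (a (l 16366264) (l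 16339736)) (a (l 16365096) (l 16339752))))) (a (l 16359872) (l 16339744)))) (a (b (l 16368928) (l 16343800)) (a (l 16344640) (l 16338504)))))) (b (l 3) (b (b (b (l 3) (a (b (l 3) (b (a (a (l 16333096) (l 16332512)) (l 3)) (a (a (l 16333784) (l 16333720)) (l 16335136)))) (b (l 3) (b (a (l 3) (l 16312640)) (a (l 16334312) (l 16317104)))))) (a (a (a (l 16336672) (l 16338800)) (l 16343136)) (a (l 16346800) (l 16336368)))) (a (a (c (l 16356600) (l 16339992)) (l 16363176)) (a (l 16378808) (l 16387144)))))), by decide +kernel⟩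

def k1_pp_022 : ∃ t, chk3 f_pp_022 t 2 3 1 = true :=
  ⟨(a (b (a (b (a (b (l 16190248) (l 16103280)) (l 16168400)) (a (l 15976104) (l 15998024))) (a (b (l 16254528) (l 16089576)) (a (b (l 16318056) (l 16205248)) (b (l 16331120) (l 16277856))))) (a (b (a (l 15752800) (l 15843424)) (a (l 15673504) (l 15712040))) (a (b (l 15944096) (l 15826168)) (b (a (l 16069688) (l 16149832)) (l 2))))) (a (b (a (b (l 16352776) (l 16319544)) (b (l 16383248) (l 16368496))) (b (a (l 16203272) (l 2)) (l 2))) (b (b (a (l 16414312) (l 16444496)) (a (l 16414888) (l 2))) (l 2)))), by decide +kernel⟩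

def k2_pp_022 : ∃ t, chk3 f_pp_022 t 3 1 1 = true :=
  ⟨(b (b (b (l 3) (a (b (l 3) (a (l 3) (a (l 3) (l 16306440)))) (b (a (l 3) (b (l 15894328) (l 2))) (a (a (l 16105864) (l 15980320)) (l 2))))) (b (a (b (b (a (l 940763883223) (l 314235948791)) (b (a (l 16264712) (l 16169000)) (b (a (l 16255992) (l 16183760)) (a (l 16263368) (l 16191448))))) (a (l 16106072) (l 16231568))) (b (b (a (l 16074656) (l 2)) (l 2)) (l 2))) (a (a (a (l 16383328) (l 16371992)) (b (l 16305816) (l 2))) (l 2)))) (a (b (a (b (a (l 16468832) (l 2)) (l 2)) (l 2)) (l 2)) (l 2))), by decide +kernel⟩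

theorem s3_pp_022 : ∃ t, chk3 f_pp_022 t 2 1 1 = true := ex3_b k0_pp_022 k1_pp_022

theorem s4_pp_022 : ∃ t, chk3 f_pp_022 t 1 1 1 = true := ex3_a s3_pp_022 k2_pp_022

theorem c_pp_022 : CertB 0 536870912 1073741824 536870912 858993459 64424510 3 eng mog cd2q0 cd4q2 pd2 false true true .pp 0 2 2
    ndB2q0 ndB4q2 pcB2 Cut.none Ext.none :=
  certB1 (fam := false) (s1 := true) (s2 := true) (a := 0) (b := 2) (c := 2) (cn := .pp) (n1 := ndB2q0) (n2 := ndB4q2) (pc := pcB2) (cut := Cut.none) (xt := Ext.none) (P1 := 0) (W1 := 536870912) (P2 := 1073741824) (W2 := 536870912) (P3 := 858993459) (W3 := 64424510) (N0 := 3) (En := eng) (mo := mog) (C1 := cd2q0) (C2 := cd4q2) (C3 := pd2)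
    rfl (fun _ => rfl) s4_pp_022

noncomputable def f_pp_023 : ℕ → ℕ → ℕ → ℕ → Bool := onCell 1073741824 536870912 0 1230186008 858993459 64424510
    (rowB 3 eng mog cd2q0 cd4q3 pd2 2 false true true .up 0 2 3 (qsf 0 536870912 0 1230186008 2) ndB2q0 ndB4q3 pcB2 Cut.none Ext.none)

def k0_pp_023 : ∃ t, chk3 f_pp_023 t 1 2 1 = true :=
  ⟨(a (l 2) (a (l 2) (b (b (l 4) (a (l 2) (l 16549112))) (b (a (l 16700096) (l 16661656)) (a (l 16683960) (l 16689064)))))), by decide +kernel⟩

def k1_pp_023 : ∃ t, chk3 f_pp_023 t 1 6 1 = true :=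
  ⟨(a (a (l 2) (b (l 2) (a (l 2) (b (l 2) (l 16258816))))) (b (a (a (l 2) (l 16537528)) (a (l 16564240) (b (l 16506544) (l 16543024)))) (a (b (a (l 16414152) (l 16537040)) (a (l 16392408) (l 16535520))) (b (a (l 16639944) (l 16623112)) (a (l 16704576) (l 16620344)))))), by decide +kernel⟩

def k2_pp_023 : ∃ t, chk3 f_pp_023 t 1 7 1 = true :=
  ⟨(b (a (a (l 2) (a (a (b (l 2) (a (l 16050568) (l 16079560))) (b (l 16150536) (l 16133320))) (b (l 16243376) (l 16267040)))) (a (b (a (l 16412824) (l 16599112)) (a (l 16463864) (l 16598080))) (a (b (l 16675552) (b (l 16549888) (a (l 16512784) (l 16377128)))) (b (a (l 16499760) (l 16360272)) (a (b (l 16343280) (l 16258984)) (b (l 16225312) (l 16144848))))))) (a (a (a (b (l 2) (l 3)) (a (b (c (l 16056568) (l 15797408)) (b (l 15911616) (l 3))) (b (b (l 15990928) (l 15985600)) (b (l 15992216) (l 16155304))))) (a (a (a (b (l 16043096) (b (l 16067192) (l 16094896))) (b (l 16084792) (a (l 16120552) (a (l 16140312) (l 16151568)))))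 (b (l 16156656) (l 16212760))) (b (l 16314288) (b (l 16351576) (l 16373512))))) (a (b (a (l 16487864) (b (l 16542600) (a (l 16505560) (l 16446584)))) (a (b (l 16474360) (a (l 16446520) (l 16441896))) (b (a (l 16453464) (l 16371408)) (a (b (l 16418240) (l 16394800)) (b (l 16326928) (l 16293264)))))) (b (a (b (a (l 16411560) (l 16292552)) (a (l 16329992) (b (l 16241392) (l 16204072)))) (b (a (l 16177192) (b (l 16098128) (b (l 16064000) (l 16031664)))) (a (b (l 16132984) (a (l 16127432) (l 16046840))) (b (a (l 16029152) (l 15929784)) (l 15889816))))) (a (b (a (b (l 16281872) (l 16246152)) (b (l 16171800) (a (l 16167976) (l 16083584)))) (a (b (a (l 16248216) (l 16189736)) (a (l 16212120) (l 16121024))) (b (a (l 16102368) (l 16000240)) (l 15960128)))) (b (a (b (a (l 16064976) (l 15964856)) (l 15924984)) (l 15764976)) (l 15596672))))))), by decide +kernel⟩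

theorem s3_pp_023 : ∃ t, chk3 f_pp_023 t 1 3 1 = true := ex3_b k1_pp_023 k2_pp_023

theorem s4_pp_023 : ∃ t, chk3 f_pp_023 t 1 1 1 = true := ex3_b k0_pp_023 s3_pp_023

theorem c_pp_023 : CertB 0 536870912 0 1230186008 858993459 64424510 3 eng mog cd2q0 cd4q3 pd2 false true true .up 0 2 3
    ndB2q0 ndB4q3 pcB2 Cut.none Ext.none :=
  certB2 (fam := false) (s1 := true) (s2 := true) (a := 0) (b := 2) (c := 3) (cn := .up) (n1 := ndB2q0) (n2 := ndB4q3) (pc := pcB2) (cut := Cut.none) (xt := Ext.none) (P1 := 0) (W1 := 536870912) (P2 := 0) (W2 := 1230186008) (P3 := 858993459) (W3 := 64424510) (N0 := 3) (En := eng) (mo := mog) (C1 := cd2q0) (C2 := cd4q3) (C3 := pd2)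
    rfl (fun _ => rfl) s4_pp_023

noncomputable def f_pp_033 : ℕ → ℕ → ℕ → ℕ → Bool := onCell 0 536870912 0 1230186008 858993459 64424510
    (rowB 3 eng mog cd2q0 cd4q3 pd3 0 false true true .pnn 0 3 3 (qsf 0 536870912 0 1230186008 3) ndB2q0 ndB4q3 pcB3 Cut.none Ext.none)

def k0_pp_033 : ∃ t, chk3 f_pp_033 t 1 1 1 = true :=
  ⟨(b (b (a (l 4) (a (l 4) (a (l 4) (b (l 4) (l 16539864))))) (a (b (a (l 4) (a (l 4) (a (l 16395520) (l 16487872)))) (a (a (b (l 4) (a (l 15742464) (l 15830352))) (a (b (l 15973456) (l 15946632)) (a (l 16087824) (l 16183216)))) (a (a (b (l 16254208) (l 16242880)) (l 16323128)) (a (l 16395072) (l 16465528))))) (a (b (a (b (l 4) (l 16596752)) (b (l 16652048) (l 16651624))) (a (l 16574920) (l 16648672))) (b (a (l 16633184) (l 16500056)) (a (l 16476080) (l 16321848)))))) (b (a (b (a (b (a (a (l 15721336) (l 15779888)) (a (l 15914856) (l 16110904))) (a (a (l 15675536) (l 15740680)) (a (l 15863680) (l 16042680)))) (a (a (b (l 16225784) (l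 16158904)) (b (l 16286728) (l 16237368))) (b (l 16390592) (l 16360688)))) (a (b (a (b (l 15638928) (a (l 15561656) (l 15625528))) (a (l 15779200) (l 15969264))) (a (b (a (l 15512304) (l 15586376)) (l 15511584)) (a (l 15713968) (l 15915328)))) (a (b (a (l 16096064) (l 16184336)) (a (l 16051792) (l 16148280))) (b (l 16323872) (l 16550952))))) (a (b (b (a (l 16583440) (l 16566464)) (l 16887968)) (b (a (l 16592136) (l 16643264)) (a (l 16589792) (l 1)))) (a (b (l 500396936055) (l 1)) (l 1)))) (a (b (a (b (a (l 15485960) (a (l 15685704) (l 15896256))) (a (b (l 15490520) (l 15506968)) (a (l 15702840) (l 15917416)))) (a (a (b (l 16041176) (l 16066552)) (l 260414369863)) (b (l 16306088) (l 1)))) (a (b (a (b (l 15531752) (l 15564136)) (a (l 15757504) (a (l 15927096) (l 16035064)))) (a (b (l 15605904) (l 15659744)) (a (l 15850424) (l 1)))) (a (b (a (l 16125648) (l 1)) (l 1)) (l 1)))) (l 1)))), by decide +kernel⟩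

theorem c_pp_033 : CertB 0 536870912 0 1230186008 858993459 64424510 3 eng mog cd2q0 cd4q3 pd3 false true true .pnn 0 3 3
    ndB2q0 ndB4q3 pcB3 Cut.none Ext.none :=
  certB0 (fam := false) (s1 := true) (s2 := true) (a := 0) (b := 3) (c := 3) (cn := .pnn) (n1 := ndB2q0) (n2 := ndB4q3) (pc := pcB3) (cut := Cut.none) (xt := Ext.none) (P1 := 0) (W1 := 536870912) (P2 := 0) (W2 := 1230186008) (P3 := 858993459) (W3 := 64424510) (N0 := 3) (En := eng) (mo := mog) (C1 := cd2q0) (C2 := cd4q3) (C3 := pd3)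
    rfl k0_pp_033

noncomputable def f_pp_101 : ℕ → ℕ → ℕ → ℕ → Bool := onCell 536870912 536870912 536870912 536870912 858993459 64424510
    (rowB 3 eng mog cd2q1 cd4q1 pd0 0 false true true .npn 1 0 1 (qsf 536870912 536870912 536870912 536870912 0) ndB2q1 ndB4q1 pcB0 Cut.none Ext.none)

def k0_pp_101 : ∃ t, chk3 f_pp_101 t 1 1 1 = true :=
  ⟨(l 3), by decide +kernel⟩

theorem c_pp_101 : CertB 536870912 536870912 536870912 536870912 858993459 64424510 3 eng mog cd2q1 cd4q1 pd0 false true true .npn 1 0 1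
    ndB2q1 ndB4q1 pcB0 Cut.none Ext.none :=
  certB0 (fam := false) (s1 := true) (s2 := true) (a := 1) (b := 0) (c := 1) (cn := .npn) (n1 := ndB2q1) (n2 := ndB4q1) (pc := pcB0) (cut := Cut.none) (xt := Ext.none) (P1 := 536870912) (W1 := 536870912) (P2 := 536870912) (W2 := 536870912) (P3 := 858993459) (W3 := 64424510) (N0 := 3) (En := eng) (mo := mog) (C1 := cd2q1) (C2 := cd4q1) (C3 := pd0)
    rfl k0_pp_101

noncomputable def f_pp_102 : ℕ → ℕ → ℕ → ℕ → Bool := onCell 536870912 536870912 1073741824 536870912 858993459 64424510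
    (rowB 3 eng mog cd2q1 cd4q2 pd0 0 false true true .npp 1 0 2 (qsf 536870912 536870912 1073741824 536870912 0) ndB2q1 ndB4q2 pcB0 Cut.none Ext.none)

def k0_pp_102 : ∃ t, chk3 f_pp_102 t 1 1 1 = true :=
  ⟨(l 3), by decide +kernel⟩

theorem c_pp_102 : CertB 536870912 536870912 1073741824 536870912 858993459 64424510 3 eng mog cd2q1 cd4q2 pd0 false true true .npp 1 0 2
    ndB2q1 ndB4q2 pcB0 Cut.none Ext.none :=
  certB0 (fam := false) (s1 := true) (s2 := true) (a := 1) (b := 0) (c := 2) (cn := .npp) (n1 := ndB2q1) (n2 := ndB4q2) (pc := pcB0) (cut := Cut.none) (xt := Ext.none) (P1 := 536870912) (W1 := 536870912) (P2 := 1073741824) (W2 := 536870912) (P3 := 858993459) (W3 := 64424510) (N0 := 3) (En := eng) (mo := mog) (C1 := cd2q1) (C2 := cd4q2) (C3 := pd0)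
    rfl k0_pp_102

noncomputable def f_pp_112 : ℕ → ℕ → ℕ → ℕ → Bool := onCell 536870912 536870912 1073741824 536870912 858993459 64424510
    (rowB 3 eng mog cd2q1 cd4q2 pd1 0 false true true .dn 1 1 2 (qsf 536870912 536870912 1073741824 536870912 1) ndB2q1 ndB4q2 pcB1 Cut.none Ext.none)

def k0_pp_112 : ∃ t, chk3 f_pp_112 t 1 1 1 = true :=
  ⟨(l 3), by decide +kernel⟩

theorem c_pp_112 : CertB 536870912 536870912 1073741824 536870912 858993459 64424510 3 eng mog cd2q1 cd4q2 pd1 false true true .dn 1 1 2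
    ndB2q1 ndB4q2 pcB1 Cut.none Ext.none :=
  certB0 (fam := false) (s1 := true) (s2 := true) (a := 1) (b := 1) (c := 2) (cn := .dn) (n1 := ndB2q1) (n2 := ndB4q2) (pc := pcB1) (cut := Cut.none) (xt := Ext.none) (P1 := 536870912) (W1 := 536870912) (P2 := 1073741824) (W2 := 536870912) (P3 := 858993459) (W3 := 64424510) (N0 := 3) (En := eng) (mo := mog) (C1 := cd2q1) (C2 := cd4q2) (C3 := pd1)
    rfl k0_pp_112

noncomputable def f_pp_113 : ℕ → ℕ → ℕ → ℕ → Bool := onCell 536870912 536870912 0 1230186008 858993459 64424510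
    (rowB 3 eng mog cd2q1 cd4q3 pd1 2 false true true .nn 1 1 3 (qsf 536870912 536870912 0 1230186008 1) ndB2q1 ndB4q3 pcB1 Cut.none Ext.none)

def k0_pp_113 : ∃ t, chk3 f_pp_113 t 1 1 1 = true :=
  ⟨(b (a (l 2) (a (l 2) (b (b (l 16437696) (l 16279840)) (b (l 941234120903) (a (b (l 15848968) (l 15791640)) (l 16122576)))))) (a (b (b (l 2) (b (l 2) (l 3))) (l 3)) (b (a (b (a (l 2) (c (l 15667232) (l 15402544))) (a (b (c (l 615351804423) (l 577770315639)) (a (l 3) (l 15120120))) (b (a (l 15395936) (l 15665528)) (a (l 15350336) (l 15599696))))) (a (b (a (l 15753736) (l 15887080)) (a (b (l 15808240) (l 15849784)) (b (l 15942016) (l 15982632)))) (b (b (l 16060992) (l 16091256)) (b (l 16133088) (l 16174648))))) (b (a (l 3) (a (b (a (l 15748736) (l 15947080)) (l 3)) (b (l 16076760) (l 290613239927)))) (l 3))))), by decide +kernel⟩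

theorem c_pp_113 : CertB 536870912 536870912 0 1230186008 858993459 64424510 3 eng mog cd2q1 cd4q3 pd1 false true true .nn 1 1 3
    ndB2q1 ndB4q3 pcB1 Cut.none Ext.none :=
  certB2 (fam := false) (s1 := true) (s2 := true) (a := 1) (b := 1) (c := 3) (cn := .nn) (n1 := ndB2q1) (n2 := ndB4q3) (pc := pcB1) (cut := Cut.none) (xt := Ext.none) (P1 := 536870912) (W1 := 536870912) (P2 := 0) (W2 := 1230186008) (P3 := 858993459) (W3 := 64424510) (N0 := 3) (En := eng) (mo := mog) (C1 := cd2q1) (C2 := cd4q3) (C3 := pd1)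
    rfl (fun _ => rfl) k0_pp_113

noncomputable def f_pp_123 : ℕ → ℕ → ℕ → ℕ → Bool := onCell 1073741824 536870912 0 1230186008 858993459 64424510
    (rowB 3 eng mog cd2q1 cd4q3 pd2 2 false true true .npn 1 2 3 (qsf 536870912 536870912 0 1230186008 2) ndB2q1 ndB4q3 pcB2 Cut.none Ext.none)

def k0_pp_123 : ∃ t, chk3 f_pp_123 t 1 1 1 = true :=
  ⟨(b (a (b (a (a (l 16616704) (l 16683856)) (a (l 16737928) (l 16768448))) (a (b (a (l 16356448) (l 16504720)) (a (l 16217672) (l 16400304))) (b (l 16687712) (a (l 16533624) (l 16584000))))) (a (b (a (l 16749096) (l 16741856)) (b (l 16677296) (a (l 16591144) (l 16567128)))) (b (a (l 16740344) (l 16719880)) (b (l 16663968) (l 16530376))))) (a (a (b (b (a (l 16210536) (b (l 16394928) (l 16382088))) (a (b (l 16399560) (l 16293704)) (b (l 16277400) (l 16184352)))) (a (b (b (l 16109296) (a (l 16031200) (l 16028904))) (b (a (l 15979936) (l 16003232)) (l 3))) (b (b (l 16124272) (a (l 16069416) (l 16127944))) (a (b (l 16052552)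 (l 432750514711)) (b (l 16115376) (l 1)))))) (b (b (a (l 16389544) (l 16453096)) (a (b (l 16303824) (a (l 16242416) (l 16298752))) (l 16398184))) (b (a (a (b (l 16213904) (l 16004472)) (l 16268080)) (l 16370328)) (a (a (b (l 542271474503) (l 1)) (l 1)) (l 1))))) (b (b (a (b (l 16495592) (l 16518480)) (b (l 16453136) (l 1))) (a (b (l 16547104) (l 16567152)) (l 1))) (l 1)))), by decide +kernel⟩

theorem c_pp_123 : CertB 536870912 536870912 0 1230186008 858993459 64424510 3 eng mog cd2q1 cd4q3 pd2 false true true .npn 1 2 3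
    ndB2q1 ndB4q3 pcB2 Cut.none Ext.none :=
  certB2 (fam := false) (s1 := true) (s2 := true) (a := 1) (b := 2) (c := 3) (cn := .npn) (n1 := ndB2q1) (n2 := ndB4q3) (pc := pcB2) (cut := Cut.none) (xt := Ext.none) (P1 := 536870912) (W1 := 536870912) (P2 := 0) (W2 := 1230186008) (P3 := 858993459) (W3 := 64424510) (N0 := 3) (En := eng) (mo := mog) (C1 := cd2q1) (C2 := cd4q3) (C3 := pd2)
    rfl (fun _ => rfl) k0_pp_123

noncomputable def f_pp_133 : ℕ → ℕ → ℕ → ℕ → Bool := onCell 1610612736 536870912 0 1230186008 858993459 64424510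
    (rowB 3 eng mog cd2q1 cd4q3 pd3 2 false true true .dn 1 3 3 (qsf 536870912 536870912 0 1230186008 3) ndB2q1 ndB4q3 pcB3 Cut.none Ext.none)

def k0_pp_133 : ∃ t, chk3 f_pp_133 t 1 1 1 = true :=
  ⟨(b (b (b (l 4) (l 1)) (l 1)) (l 1)), by decide +kernel⟩

theorem c_pp_133 : CertB 536870912 536870912 0 1230186008 858993459 64424510 3 eng mog cd2q1 cd4q3 pd3 false true true .dn 1 3 3
    ndB2q1 ndB4q3 pcB3 Cut.none Ext.none :=
  certB2 (fam := false) (s1 := true) (s2 := true) (a := 1) (b := 3) (c := 3) (cn := .dn) (n1 := ndB2q1) (n2 := ndB4q3) (pc := pcB3) (cut := Cut.none) (xt := Ext.none) (P1 := 536870912) (W1 := 536870912) (P2 := 0) (W2 := 1230186008) (P3 := 858993459) (W3 := 64424510) (N0 := 3) (En := eng) (mo := mog) (C1 := cd2q1) (C2 := cd4q3) (C3 := pd3)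
    rfl (fun _ => rfl) k0_pp_133

noncomputable def f_pp_202 : ℕ → ℕ → ℕ → ℕ → Bool := onCell 1073741824 536870912 1073741824 536870912 858993459 64424510
    (rowB 3 eng mog cd2q2 cd4q2 pd0 0 false true true .pp 2 0 2 (qsf 1073741824 536870912 1073741824 536870912 0) ndB2q2 ndB4q2 pcB0 Cut.none Ext.none)

def k0_pp_202 : ∃ t, chk3 f_pp_202 t 1 1 1 = true :=
  ⟨(l 5), by decide +kernel⟩

theorem c_pp_202 : CertB 1073741824 536870912 1073741824 536870912 858993459 64424510 3 eng mog cd2q2 cd4q2 pd0 false true true .pp 2 0 2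
    ndB2q2 ndB4q2 pcB0 Cut.none Ext.none :=
  certB0 (fam := false) (s1 := true) (s2 := true) (a := 2) (b := 0) (c := 2) (cn := .pp) (n1 := ndB2q2) (n2 := ndB4q2) (pc := pcB0) (cut := Cut.none) (xt := Ext.none) (P1 := 1073741824) (W1 := 536870912) (P2 := 1073741824) (W2 := 536870912) (P3 := 858993459) (W3 := 64424510) (N0 := 3) (En := eng) (mo := mog) (C1 := cd2q2) (C2 := cd4q2) (C3 := pd0)
    rfl k0_pp_202

noncomputable def f_pp_203 : ℕ → ℕ → ℕ → ℕ → Bool := onCell 0 536870912 0 1230186008 858993459 64424510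
    (rowB 3 eng mog cd2q2 cd4q3 pd0 2 false true true .up 2 0 3 (qsf 1073741824 536870912 0 1230186008 0) ndB2q2 ndB4q3 pcB0 Cut.none Ext.none)

def k0_pp_203 : ∃ t, chk3 f_pp_203 t 1 1 1 = true :=
  ⟨(b (l 3) (l 3)), by decide +kernel⟩

theorem c_pp_203 : CertB 1073741824 536870912 0 1230186008 858993459 64424510 3 eng mog cd2q2 cd4q3 pd0 false true true .up 2 0 3
    ndB2q2 ndB4q3 pcB0 Cut.none Ext.none :=
  certB2 (fam := false) (s1 := true) (s2 := true) (a := 2) (b := 0) (c := 3) (cn := .up) (n1 := ndB2q2) (n2 := ndB4q3) (pc := pcB0) (cut := Cut.none) (xt := Ext.none) (P1 := 1073741824) (W1 := 536870912) (P2 := 0) (W2 := 1230186008) (P3 := 858993459) (W3 := 64424510) (N0 := 3) (En := eng) (mo := mog) (C1 := cd2q2) (C2 := cd4q3) (C3 := pd0)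
    rfl (fun _ => rfl) k0_pp_203

noncomputable def f_pp_213 : ℕ → ℕ → ℕ → ℕ → Bool := onCell 1073741824 536870912 0 1230186008 858993459 64424510
    (rowB 3 eng mog cd2q2 cd4q3 pd1 0 false true true .pnn 2 1 3 (qsf 1073741824 536870912 0 1230186008 1) ndB2q2 ndB4q3 pcB1 Cut.none Ext.none)

def k0_pp_213 : ∃ t, chk3 f_pp_213 t 1 1 1 = true :=
  ⟨(b (b (a (a (a (b (a (b (a (l 16614176) (l 16617680)) (a (a (l 16551888) (l 244443538791)) (b (l 16596504) (l 319068542327)))) (b (a (l 16619808) (l 16622280)) (a (b (l 16616336) (l 3)) (l 366313275191)))) (b (l 3) (l 3))) (b (a (b (c (l 16461240) (l 301351950551)) (l 3)) (c (l 382419488215) (l 374366903751))) (l 3))) (l 3)) (l 3)) (l 3)) (l 3)), by decide +kernel⟩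

theorem c_pp_213 : CertB 1073741824 536870912 0 1230186008 858993459 64424510 3 eng mog cd2q2 cd4q3 pd1 false true true .pnn 2 1 3
    ndB2q2 ndB4q3 pcB1 Cut.none Ext.none :=
  certB0 (fam := false) (s1 := true) (s2 := true) (a := 2) (b := 1) (c := 3) (cn := .pnn) (n1 := ndB2q2) (n2 := ndB4q3) (pc := pcB1) (cut := Cut.none) (xt := Ext.none) (P1 := 1073741824) (W1 := 536870912) (P2 := 0) (W2 := 1230186008) (P3 := 858993459) (W3 := 64424510) (N0 := 3) (En := eng) (mo := mog) (C1 := cd2q2) (C2 := cd4q3) (C3 := pd1)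
    rfl k0_pp_213

noncomputable def f_pp_303 : ℕ → ℕ → ℕ → ℕ → Bool := onCell 0 1230186008 0 1230186008 858993459 64424510
    (rowB 3 eng mog cd2q3 cd4q3 pd0 0 false true true .npn 3 0 3 (qsf 0 1230186008 0 1230186008 0) ndB2q3 ndB4q3 pcB0 Cut.none Ext.none)

def k0_pp_303 : ∃ t, chk3 f_pp_303 t 1 1 1 = true :=
  ⟨(a (b (l 3) (l 5)) (b (l 3) (a (l 5) (l 3)))), by decide +kernel⟩

theorem c_pp_303 : CertB 0 1230186008 0 1230186008 858993459 64424510 3 eng mog cd2q3 cd4q3 pd0 false true true .npn 3 0 3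
    ndB2q3 ndB4q3 pcB0 Cut.none Ext.none :=
  certB0 (fam := false) (s1 := true) (s2 := true) (a := 3) (b := 0) (c := 3) (cn := .npn) (n1 := ndB2q3) (n2 := ndB4q3) (pc := pcB0) (cut := Cut.none) (xt := Ext.none) (P1 := 0) (W1 := 1230186008) (P2 := 0) (W2 := 1230186008) (P3 := 858993459) (W3 := 64424510) (N0 := 3) (En := eng) (mo := mog) (C1 := cd2q3) (C2 := cd4q3) (C3 := pd0)
    rfl k0_pp_303

noncomputable def f_pp_313 : ℕ → ℕ → ℕ → ℕ → Bool := onCell 0 1230186008 0 1230186008 858993459 64424510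
    (rowB 3 eng mog cd2q3 cd4q3 pd1 0 false true true .dn 3 1 3 (qsf 0 1230186008 0 1230186008 1) ndB2q3 ndB4q3 pcB1 Cut.none Ext.none)

def k0_pp_313 : ∃ t, chk3 f_pp_313 t 1 1 1 = true :=
  ⟨(a (l 1) (b (l 3) (l 1))), by decide +kernel⟩

theorem c_pp_313 : CertB 0 1230186008 0 1230186008 858993459 64424510 3 eng mog cd2q3 cd4q3 pd1 false true true .dn 3 1 3
    ndB2q3 ndB4q3 pcB1 Cut.none Ext.none :=
  certB0 (fam := false) (s1 := true) (s2 := true) (a := 3) (b := 1) (c := 3) (cn := .dn) (n1 := ndB2q3) (n2 := ndB4q3) (pc := pcB1) (cut := Cut.none) (xt := Ext.none) (P1 := 0) (W1 := 1230186008) (P2 := 0) (W2 := 1230186008) (P3 := 858993459) (W3 := 64424510) (N0 := 3) (En := eng) (mo := mog) (C1 := cd2q3) (C2 := cd4q3) (C3 := pd1)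
    rfl k0_pp_313

noncomputable def f_pm_001 : ℕ → ℕ → ℕ → ℕ → Bool := onCell 0 536870912 536870912 536870912 858993459 64424510
    (rowB 3 eng mog cd2q0 cd4q1 pd0 0 false true false .up 0 0 1 (qsf 0 536870912 536870912 536870912 0) ndB2q0 ndB4q1 pcB0 Cut.none Ext.none)

def k0_pm_001 : ∃ t, chk3 f_pm_001 t 1 1 1 = true :=
  ⟨(l 4), by decide +kernel⟩

theorem c_pm_001 : CertB 0 536870912 536870912 536870912 858993459 64424510 3 eng mog cd2q0 cd4q1 pd0 false true false .up 0 0 1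
    ndB2q0 ndB4q1 pcB0 Cut.none Ext.none :=
  certB0 (fam := false) (s1 := true) (s2 := false) (a := 0) (b := 0) (c := 1) (cn := .up) (n1 := ndB2q0) (n2 := ndB4q1) (pc := pcB0) (cut := Cut.none) (xt := Ext.none) (P1 := 0) (W1 := 536870912) (P2 := 536870912) (W2 := 536870912) (P3 := 858993459) (W3 := 64424510) (N0 := 3) (En := eng) (mo := mog) (C1 := cd2q0) (C2 := cd4q1) (C3 := pd0)
    rfl k0_pm_001

noncomputable def f_pm_011 : ℕ → ℕ → ℕ → ℕ → Bool := onCell 0 536870912 536870912 536870912 858993459 64424510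
    (rowB 3 eng mog cd2q0 cd4q1 pd1 0 false true false .pnn 0 1 1 (qsf 0 536870912 536870912 536870912 1) ndB2q0 ndB4q1 pcB1 Cut.none Ext.none)

def k0_pm_011 : ∃ t, chk3 f_pm_011 t 1 1 1 = true :=
  ⟨(l 4), by decide +kernel⟩

theorem c_pm_011 : CertB 0 536870912 536870912 536870912 858993459 64424510 3 eng mog cd2q0 cd4q1 pd1 false true false .pnn 0 1 1
    ndB2q0 ndB4q1 pcB1 Cut.none Ext.none :=
  certB0 (fam := false) (s1 := true) (s2 := false) (a := 0) (b := 1) (c := 1) (cn := .pnn) (n1 := ndB2q0) (n2 := ndB4q1) (pc := pcB1) (cut := Cut.none) (xt := Ext.none) (P1 := 0) (W1 := 536870912) (P2 := 536870912) (W2 := 536870912) (P3 := 858993459) (W3 := 64424510) (N0 := 3) (En := eng) (mo := mog) (C1 := cd2q0) (C2 := cd4q1) (C3 := pd1)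
    rfl k0_pm_011

noncomputable def f_pm_012 : ℕ → ℕ → ℕ → ℕ → Bool := onCell 0 536870912 1073741824 536870912 858993459 64424510
    (rowB 3 eng mog cd2q0 cd4q2 pd1 0 false true false .pnp 0 1 2 (qsf 0 536870912 1073741824 536870912 1) ndB2q0 ndB4q2 pcB1 Cut.none Ext.none)

def k0_pm_012 : ∃ t, chk3 f_pm_012 t 1 1 1 = true :=
  ⟨(l 4), by decide +kernel⟩

theorem c_pm_012 : CertB 0 536870912 1073741824 536870912 858993459 64424510 3 eng mog cd2q0 cd4q2 pd1 false true false .pnp 0 1 2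
    ndB2q0 ndB4q2 pcB1 Cut.none Ext.none :=
  certB0 (fam := false) (s1 := true) (s2 := false) (a := 0) (b := 1) (c := 2) (cn := .pnp) (n1 := ndB2q0) (n2 := ndB4q2) (pc := pcB1) (cut := Cut.none) (xt := Ext.none) (P1 := 0) (W1 := 536870912) (P2 := 1073741824) (W2 := 536870912) (P3 := 858993459) (W3 := 64424510) (N0 := 3) (En := eng) (mo := mog) (C1 := cd2q0) (C2 := cd4q2) (C3 := pd1)
    rfl k0_pm_012

noncomputable def f_pm_022 : ℕ → ℕ → ℕ → ℕ → Bool := onCell 0 536870912 1073741824 536870912 858993459 64424510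
    (rowB 3 eng mog cd2q0 cd4q2 pd2 0 false true false .pp 0 2 2 (qsf 0 536870912 1073741824 536870912 2) ndB2q0 ndB4q2 pcB2 Cut.none Ext.none)

def k0_pm_022 : ∃ t, chk3 f_pm_022 t 1 1 1 = true :=
  ⟨(l 4), by decide +kernel⟩

theorem c_pm_022 : CertB 0 536870912 1073741824 536870912 858993459 64424510 3 eng mog cd2q0 cd4q2 pd2 false true false .pp 0 2 2
    ndB2q0 ndB4q2 pcB2 Cut.none Ext.none :=
  certB0 (fam := false) (s1 := true) (s2 := false) (a := 0) (b := 2) (c := 2) (cn := .pp) (n1 := ndB2q0) (n2 := ndB4q2) (pc := pcB2) (cut := Cut.none) (xt := Ext.none) (P1 := 0) (W1 := 536870912) (P2 := 1073741824) (W2 := 536870912) (P3 := 858993459) (W3 := 64424510) (N0 := 3) (En := eng) (mo := mog) (C1 := cd2q0) (C2 := cd4q2) (C3 := pd2)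
    rfl k0_pm_022

noncomputable def f_pm_023 : ℕ → ℕ → ℕ → ℕ → Bool := onCell 0 536870912 0 1230186008 858993459 64424510
    (rowB 3 eng mog cd2q0 cd4q3 pd2 0 false true false .up 0 2 3 (qsf 0 536870912 0 1230186008 2) ndB2q0 ndB4q3 pcB2 Cut.none Ext.none)

def k0_pm_023 : ∃ t, chk3 f_pm_023 t 1 1 1 = true :=
  ⟨(l 4), by decide +kernel⟩

theorem c_pm_023 : CertB 0 536870912 0 1230186008 858993459 64424510 3 eng mog cd2q0 cd4q3 pd2 false true false .up 0 2 3
    ndB2q0 ndB4q3 pcB2 Cut.none Ext.none :=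
  certB0 (fam := false) (s1 := true) (s2 := false) (a := 0) (b := 2) (c := 3) (cn := .up) (n1 := ndB2q0) (n2 := ndB4q3) (pc := pcB2) (cut := Cut.none) (xt := Ext.none) (P1 := 0) (W1 := 536870912) (P2 := 0) (W2 := 1230186008) (P3 := 858993459) (W3 := 64424510) (N0 := 3) (En := eng) (mo := mog) (C1 := cd2q0) (C2 := cd4q3) (C3 := pd2)
    rfl k0_pm_023

noncomputable def f_pm_033 : ℕ → ℕ → ℕ → ℕ → Bool := onCell 0 536870912 0 1230186008 858993459 64424510
    (rowB 3 eng mog cd2q0 cd4q3 pd3 0 false true false .pnn 0 3 3 (qsf 0 536870912 0 1230186008 3) ndB2q0 ndB4q3 pcB3 Cut.none Ext.none)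

def k0_pm_033 : ∃ t, chk3 f_pm_033 t 1 1 1 = true :=
  ⟨(l 4), by decide +kernel⟩

theorem c_pm_033 : CertB 0 536870912 0 1230186008 858993459 64424510 3 eng mog cd2q0 cd4q3 pd3 false true false .pnn 0 3 3
    ndB2q0 ndB4q3 pcB3 Cut.none Ext.none :=
  certB0 (fam := false) (s1 := true) (s2 := false) (a := 0) (b := 3) (c := 3) (cn := .pnn) (n1 := ndB2q0) (n2 := ndB4q3) (pc := pcB3) (cut := Cut.none) (xt := Ext.none) (P1 := 0) (W1 := 536870912) (P2 := 0) (W2 := 1230186008) (P3 := 858993459) (W3 := 64424510) (N0 := 3) (En := eng) (mo := mog) (C1 := cd2q0) (C2 := cd4q3) (C3 := pd3)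
    rfl k0_pm_033

noncomputable def f_pm_101 : ℕ → ℕ → ℕ → ℕ → Bool := onCell 536870912 536870912 536870912 536870912 858993459 64424510
    (rowB 3 eng mog cd2q1 cd4q1 pd0 0 false true false .npn 1 0 1 (qsf 536870912 536870912 536870912 536870912 0) ndB2q1 ndB4q1 pcB0 Cut.none Ext.none)

def k0_pm_101 : ∃ t, chk3 f_pm_101 t 1 1 1 = true :=
  ⟨(l 4), by decide +kernel⟩

theorem c_pm_101 : CertB 536870912 536870912 536870912 536870912 858993459 64424510 3 eng mog cd2q1 cd4q1 pd0 false true false .npn 1 0 1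
    ndB2q1 ndB4q1 pcB0 Cut.none Ext.none :=
  certB0 (fam := false) (s1 := true) (s2 := false) (a := 1) (b := 0) (c := 1) (cn := .npn) (n1 := ndB2q1) (n2 := ndB4q1) (pc := pcB0) (cut := Cut.none) (xt := Ext.none) (P1 := 536870912) (W1 := 536870912) (P2 := 536870912) (W2 := 536870912) (P3 := 858993459) (W3 := 64424510) (N0 := 3) (En := eng) (mo := mog) (C1 := cd2q1) (C2 := cd4q1) (C3 := pd0)
    rfl k0_pm_101

noncomputable def f_pm_102 : ℕ → ℕ → ℕ → ℕ → Bool := onCell 536870912 536870912 1073741824 536870912 858993459 64424510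
    (rowB 3 eng mog cd2q1 cd4q2 pd0 0 false true false .npp 1 0 2 (qsf 536870912 536870912 1073741824 536870912 0) ndB2q1 ndB4q2 pcB0 Cut.none Ext.none)

def k0_pm_102 : ∃ t, chk3 f_pm_102 t 1 1 1 = true :=
  ⟨(l 4), by decide +kernel⟩

theorem c_pm_102 : CertB 536870912 536870912 1073741824 536870912 858993459 64424510 3 eng mog cd2q1 cd4q2 pd0 false true false .npp 1 0 2
    ndB2q1 ndB4q2 pcB0 Cut.none Ext.none :=
  certB0 (fam := false) (s1 := true) (s2 := false) (a := 1) (b := 0) (c := 2) (cn := .npp) (n1 := ndB2q1) (n2 := ndB4q2) (pc := pcB0) (cut := Cut.none) (xt := Ext.none) (P1 := 536870912) (W1 := 536870912) (P2 := 1073741824) (W2 := 536870912) (P3 := 858993459) (W3 := 64424510) (N0 := 3) (En := eng) (mo := mog) (C1 := cd2q1) (C2 := cd4q2) (C3 := pd0)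
    rfl k0_pm_102

noncomputable def f_pm_112 : ℕ → ℕ → ℕ → ℕ → Bool := onCell 536870912 536870912 1073741824 536870912 858993459 64424510
    (rowB 3 eng mog cd2q1 cd4q2 pd1 0 false true false .dn 1 1 2 (qsf 536870912 536870912 1073741824 536870912 1) ndB2q1 ndB4q2 pcB1 Cut.none Ext.none)

def k0_pm_112 : ∃ t, chk3 f_pm_112 t 1 1 1 = true :=
  ⟨(l 4), by decide +kernel⟩

theorem c_pm_112 : CertB 536870912 536870912 1073741824 536870912 858993459 64424510 3 eng mog cd2q1 cd4q2 pd1 false true false .dn 1 1 2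
    ndB2q1 ndB4q2 pcB1 Cut.none Ext.none :=
  certB0 (fam := false) (s1 := true) (s2 := false) (a := 1) (b := 1) (c := 2) (cn := .dn) (n1 := ndB2q1) (n2 := ndB4q2) (pc := pcB1) (cut := Cut.none) (xt := Ext.none) (P1 := 536870912) (W1 := 536870912) (P2 := 1073741824) (W2 := 536870912) (P3 := 858993459) (W3 := 64424510) (N0 := 3) (En := eng) (mo := mog) (C1 := cd2q1) (C2 := cd4q2) (C3 := pd1)
    rfl k0_pm_112

noncomputable def f_pm_113 : ℕ → ℕ → ℕ → ℕ → Bool := onCell 536870912 536870912 0 1230186008 858993459 64424510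
    (rowB 3 eng mog cd2q1 cd4q3 pd1 2 false true false .nn 1 1 3 (qsf 536870912 536870912 0 1230186008 1) ndB2q1 ndB4q3 pcB1 Cut.none Ext.none)

def k0_pm_113 : ∃ t, chk3 f_pm_113 t 1 1 1 = true :=
  ⟨(b (a (l 2) (b (a (l 2) (l 16501656)) (l 4))) (l 4)), by decide +kernel⟩

theorem c_pm_113 : CertB 536870912 536870912 0 1230186008 858993459 64424510 3 eng mog cd2q1 cd4q3 pd1 false true false .nn 1 1 3
    ndB2q1 ndB4q3 pcB1 Cut.none Ext.none :=
  certB2 (fam := false) (s1 := true) (s2 := false) (a := 1) (b := 1) (c := 3) (cn := .nn) (n1 := ndB2q1) (n2 := ndB4q3) (pc := pcB1) (cut := Cut.none) (xt := Ext.none) (P1 := 536870912) (W1 := 536870912) (P2 := 0) (W2 := 1230186008) (P3 := 858993459) (W3 := 64424510) (N0 := 3) (En := eng) (mo := mog) (C1 := cd2q1) (C2 := cd4q3) (C3 := pd1)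
    rfl (fun _ => rfl) k0_pm_113

noncomputable def f_pm_123 : ℕ → ℕ → ℕ → ℕ → Bool := onCell 1073741824 536870912 0 1230186008 858993459 64424510
    (rowB 3 eng mog cd2q1 cd4q3 pd2 2 false true false .npn 1 2 3 (qsf 536870912 536870912 0 1230186008 2) ndB2q1 ndB4q3 pcB2 Cut.none Ext.none)

def k0_pm_123 : ∃ t, chk3 f_pm_123 t 1 1 1 = true :=
  ⟨(b (a (a (b (a (l 16736712) (l 4)) (l 4)) (l 4)) (l 4)) (l 4)), by decide +kernel⟩

theorem c_pm_123 : CertB 536870912 536870912 0 1230186008 858993459 64424510 3 eng mog cd2q1 cd4q3 pd2 false true false .npn 1 2 3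
    ndB2q1 ndB4q3 pcB2 Cut.none Ext.none :=
  certB2 (fam := false) (s1 := true) (s2 := false) (a := 1) (b := 2) (c := 3) (cn := .npn) (n1 := ndB2q1) (n2 := ndB4q3) (pc := pcB2) (cut := Cut.none) (xt := Ext.none) (P1 := 536870912) (W1 := 536870912) (P2 := 0) (W2 := 1230186008) (P3 := 858993459) (W3 := 64424510) (N0 := 3) (En := eng) (mo := mog) (C1 := cd2q1) (C2 := cd4q3) (C3 := pd2)
    rfl (fun _ => rfl) k0_pm_123

noncomputable def f_pm_133 : ℕ → ℕ → ℕ → ℕ → Bool := onCell 1610612736 536870912 0 1230186008 858993459 64424510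
    (rowB 3 eng mog cd2q1 cd4q3 pd3 2 false true false .dn 1 3 3 (qsf 536870912 536870912 0 1230186008 3) ndB2q1 ndB4q3 pcB3 Cut.none Ext.none)

def k0_pm_133 : ∃ t, chk3 f_pm_133 t 1 1 1 = true :=
  ⟨(b (l 4) (l 1)), by decide +kernel⟩

theorem c_pm_133 : CertB 536870912 536870912 0 1230186008 858993459 64424510 3 eng mog cd2q1 cd4q3 pd3 false true false .dn 1 3 3
    ndB2q1 ndB4q3 pcB3 Cut.none Ext.none :=
  certB2 (fam := false) (s1 := true) (s2 := false) (a := 1) (b := 3) (c := 3) (cn := .dn) (n1 := ndB2q1) (n2 := ndB4q3) (pc := pcB3) (cut := Cut.none) (xt := Ext.none) (P1 := 536870912) (W1 := 536870912) (P2 := 0) (W2 := 1230186008) (P3 := 858993459) (W3 := 64424510) (N0 := 3) (En := eng) (mo := mog) (C1 := cd2q1) (C2 := cd4q3) (C3 := pd3)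
    rfl (fun _ => rfl) k0_pm_133

noncomputable def f_pm_202 : ℕ → ℕ → ℕ → ℕ → Bool := onCell 0 536870912 1073741824 536870912 858993459 64424510
    (rowB 3 eng mog cd2q2 cd4q2 pd0 2 false true false .pp 2 0 2 (qsf 1073741824 536870912 1073741824 536870912 0) ndB2q2 ndB4q2 pcB0 Cut.none Ext.none)

def k0_pm_202 : ∃ t, chk3 f_pm_202 t 1 1 1 = true :=
  ⟨(b (l 4) (a (b (l 4) (b (l 4) (a (a (l 16279768) (l 16202400)) (a (l 16101008) (l 4))))) (l 4))), by decide +kernel⟩

theorem c_pm_202 : CertB 1073741824 536870912 1073741824 536870912 858993459 64424510 3 eng mog cd2q2 cd4q2 pd0 false true false .pp 2 0 2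
    ndB2q2 ndB4q2 pcB0 Cut.none Ext.none :=
  certB2 (fam := false) (s1 := true) (s2 := false) (a := 2) (b := 0) (c := 2) (cn := .pp) (n1 := ndB2q2) (n2 := ndB4q2) (pc := pcB0) (cut := Cut.none) (xt := Ext.none) (P1 := 1073741824) (W1 := 536870912) (P2 := 1073741824) (W2 := 536870912) (P3 := 858993459) (W3 := 64424510) (N0 := 3) (En := eng) (mo := mog) (C1 := cd2q2) (C2 := cd4q2) (C3 := pd0)
    rfl (fun _ => rfl) k0_pm_202

noncomputable def f_pm_203 : ℕ → ℕ → ℕ → ℕ → Bool := onCell 0 536870912 0 1230186008 858993459 64424510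
    (rowB 3 eng mog cd2q2 cd4q3 pd0 2 false true false .up 2 0 3 (qsf 1073741824 536870912 0 1230186008 0) ndB2q2 ndB4q3 pcB0 Cut.none Ext.none)

def k0_pm_203 : ∃ t, chk3 f_pm_203 t 1 1 1 = true :=
  ⟨(a (b (l 2) (b (b (l 2) (a (l 2) (a (l 2) (b (l 2) (a (l 2) (l 16395232)))))) (b (a (l 2) (a (b (a (l 2) (l 16394648)) (l 16520688)) (b (l 16548184) (l 16630512)))) (a (b (l 16424056) (l 16447080)) (b (l 16527224) (a (l 16363224) (l 16259056))))))) (b (a (l 2) (b (l 3) (b (b (l 3) (a (l 1479716185351) (l 16516984))) (a (b (l 16387392) (l 16389784)) (b (l 16465360) (l 16425328)))))) (b (a (a (b (l 2) (b (l 16428592) (l 16594928))) (b (b (l 1124307334135) (l 16447264)) (b (l 16632392) (l 16736704)))) (b (b (a (l 16412080) (l 16522912)) (a (l 16597464) (l 16723464))) (b (a (l 16746144) (l 16638352)) (a (l 16573904) (l 16445784))))) (b (a (b (a (l 16700200) (l 16608808)) (a (l 16572392) (l 16451272))) (a (b (l 16467176) (l 16311896)) (b (l 16335304) (l 16169928))))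 (a (b (l 16319848) (a (l 16129176) (l 15830512))) (b (a (l 16095880) (b (l 15996560) (l 15859880))) (a (b (l 15887256) (l 4)) (l 4)))))))), by decide +kernel⟩

theorem c_pm_203 : CertB 1073741824 536870912 0 1230186008 858993459 64424510 3 eng mog cd2q2 cd4q3 pd0 false true false .up 2 0 3
    ndB2q2 ndB4q3 pcB0 Cut.none Ext.none :=
  certB2 (fam := false) (s1 := true) (s2 := false) (a := 2) (b := 0) (c := 3) (cn := .up) (n1 := ndB2q2) (n2 := ndB4q3) (pc := pcB0) (cut := Cut.none) (xt := Ext.none) (P1 := 1073741824) (W1 := 536870912) (P2 := 0) (W2 := 1230186008) (P3 := 858993459) (W3 := 64424510) (N0 := 3) (En := eng) (mo := mog) (C1 := cd2q2) (C2 := cd4q3) (C3 := pd0)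
    rfl (fun _ => rfl) k0_pm_203

noncomputable def f_pm_213 : ℕ → ℕ → ℕ → ℕ → Bool := onCell 536870912 536870912 0 1230186008 858993459 64424510
    (rowB 3 eng mog cd2q2 cd4q3 pd1 2 false true false .pnn 2 1 3 (qsf 1073741824 536870912 0 1230186008 1) ndB2q2 ndB4q3 pcB1 Cut.none Ext.none)

def k0_pm_213 : ∃ t, chk3 f_pm_213 t 1 2 1 = true :=
  ⟨(a (a (b (a (l 3) (b (l 3) (c (l 181630192679) (l 200421005239)))) (b (a (b (c (l 210621115431) (l 173040318183)) (c (l 16575416) (l 16512848))) (c (b (l 16573624) (l 16616872)) (b (l 16571504) (l 16488112)))) (a (b (c (l 16635608) (l 16418856)) (c (l 16705880) (l 16376520))) (c (b (l 16679720) (l 16745672)) (b (l 16402736) (l 16425616)))))) (b (b (l 3) (a (c (b (l 16575296) (l 104857698807)) (b (l 16666240) (l 16865072))) (a (b (l 186461142039) (l 16591776)) (b (l 16631344) (l 16594832))))) (c (b (a (b (l 16605208) (l 16652824)) (a (l 16653560) (l 16671896))) (b (a (l 16714944) (l 16733440)) (l 16723744))) (b (a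 (b (l 16543192) (l 16465504)) (b (l 16518408) (l 16457048))) (a (b (l 16415992) (l 16510192)) (b (l 16462280) (l 16567824))))))) (a (b (a (b (b (l 3) (a (l 253034096247) (l 16628680))) (c (a (l 16621512) (l 16636936)) (b (l 16605968) (l 16556928)))) (a (b (b (l 317995338471) (l 16627232)) (c (l 16644296) (l 16570760))) (b (b (l 273971935111) (l 16624584)) (l 16692816)))) (b (a (c (b (l 16670168) (l 16695808)) (b (l 16508912) (l 16476744))) (c (b (l 16649920) (l 16695824)) (b (l 16525608) (l 16544616)))) (a (c (l 16750072) (b (l 16539736) (l 16648216))) (a (l 16819584) (l 16867512))))) (b (a (b (a (b (c (l 16611528) (l 16651904)) (l 16621088)) (b (l 16623144) (l 16594472))) (a (l 16602176) (l 16595816))) (b (a (l 16649448) (l 16725928)) (a (b (l 16596624) (l 16597520)) (b (l 16597416) (l 16571960))))) (b (b (a (a (l 16597264) (l 16620256)) (a (l 16658688) (l 16705944))) (a (l 16715680) (l 16879664))) (a (b (a (l 16844992) (l 16864760)) (l 247531601783)) (b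 (l 242162972407) (l 1))))))), by decide +kernel⟩

def k1_pm_213 : ∃ t, chk3 f_pm_213 t 1 3 1 = true :=
  ⟨(a (b (b (a (a (b (l 16659072) (l 16735424)) (b (l 16698016) (l 16653144))) (a (b (l 16677824) (l 16556024)) (b (l 16613392) (l 16489736)))) (a (b (a (l 16610000) (l 16500624)) (a (l 16434216) (l 16308016))) (b (a (l 16393464) (l 16363560)) (a (b (l 16257832) (l 16163984)) (l 16301688))))) (b (a (b (b (l 16230544) (a (l 16201488) (l 16058648))) (a (l 16030112) (l 15883768))) (a (b (b (l 16074584) (l 15981488)) (l 15894456)) (b (b (l 16234800) (l 16265488)) (l 1)))) (b (a (a (l 15761376) (l 15679512)) (l 4)) (l 4)))) (b (a (b (a (b (l 16646856) (l 16626280)) (b (l 16745392) (l 16682424))) (a (b (l 16608952) (l 582537759719)) (b (l 574484658871) (l 1)))) (b (a (b (a (l 16742536) (l 1)) (l 1)) (l 1)) (l 1))) (l 1))), by decide +kernel⟩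

theorem s2_pm_213 : ∃ t, chk3 f_pm_213 t 1 1 1 = true := ex3_b k0_pm_213 k1_pm_213

theorem c_pm_213 : CertB 1073741824 536870912 0 1230186008 858993459 64424510 3 eng mog cd2q2 cd4q3 pd1 false true false .pnn 2 1 3
    ndB2q2 ndB4q3 pcB1 Cut.none Ext.none :=
  certB2 (fam := false) (s1 := true) (s2 := false) (a := 2) (b := 1) (c := 3) (cn := .pnn) (n1 := ndB2q2) (n2 := ndB4q3) (pc := pcB1) (cut := Cut.none) (xt := Ext.none) (P1 := 1073741824) (W1 := 536870912) (P2 := 0) (W2 := 1230186008) (P3 := 858993459) (W3 := 64424510) (N0 := 3) (En := eng) (mo := mog) (C1 := cd2q2) (C2 := cd4q3) (C3 := pd1)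
    rfl (fun _ => rfl) s2_pm_213

noncomputable def f_pm_303 : ℕ → ℕ → ℕ → ℕ → Bool := onCell 0 1230186008 0 1230186008 858993459 64424510
    (rowB 3 eng mog cd2q3 cd4q3 pd0 0 false true false .npn 3 0 3 (qsf 0 1230186008 0 1230186008 0) ndB2q3 ndB4q3 pcB0 Cut.none Ext.none)

def k0_pm_303 : ∃ t, chk3 f_pm_303 t 2 1 1 = true :=
  ⟨(b (l 3) (b (b (l 3) (l 1)) (l 1))), by decide +kernel⟩

def k1_pm_303 : ∃ t, chk3 f_pm_303 t 3 2 1 = true :=
  ⟨(a (l 3) (b (l 3) (a (b (l 3) (a (l 3) (b (l 3) (a (l 206862113575) (l 16273304))))) (b (a (l 3) (b (l 3) (l 253570544775))) (a (b (a (l 3) (l 16400424)) (a (l 16288248) (l 16306928))) (b (a (l 16414896) (l 16432080)) (l 16193616))))))), by decide +kernel⟩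

def k2_pm_303 : ∃ t, chk3 f_pm_303 t 6 3 1 = true :=
  ⟨(b (a (b (a (l 3) (l 3)) (a (l 1) (b (b (a (l 1) (l 15572736)) (l 1)) (l 1)))) (b (b (a (l 3) (a (l 3) (l 234779044535))) (a (b (l 247126630071) (l 15770536)) (b (a (l 15881904) (l 15900568)) (a (l 15754472) (l 15790520))))) (b (a (b (l 15605160) (l 15536720)) (b (l 15683472) (l 15593960))) (a (b (a (l 1) (l 15465648)) (l 1)) (b (a (l 15523032) (l 15563528)) (l 15571112)))))) (a (l 1) (b (a (l 1) (b (b (l 15570752) (l 1)) (l 1))) (l 1)))), by decide +kernel⟩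

def k3_pm_303 : ∃ t, chk3 f_pm_303 t 7 3 1 = true :=
  ⟨(b (a (b (a (b (a (l 16079920) (l 16092144)) (b (b (l 15962776) (a (l 15901184) (l 15932320))) (a (b (l 15858544) (l 15834600)) (l 15906344)))) (b (a (l 16110104) (l 16132984)) (b (a (l 15992008) (l 16036008)) (a (l 15965792) (l 16028704))))) (a (b (a (l 15745208) (b (a (l 15850040) (l 15900608)) (l 15809440))) (b (l 15671464) (l 15681248))) (b (a (b (l 15954024) (a (l 15899832) (l 15958232))) (b (l 16021288) (l 16008464))) (a (b (b (a (l 15842736) (l 15919032)) (l 15839680)) (l 15819016)) (a (b (l 15966256) (l 15931696)) (b (l 16023744) (b (l 16019112) (l 16002992)))))))) (b (a (b (b (l 16207888) (l 16154984)) (b (l 16131688) (l 16141176))) (b (a (l 16246200) (l 16299984)) (l 16321568))) (a (b (a (b (l 16094152) (l 16088584)) (l 16178760)) (a (b (b (l 16086104) (l 16083832)) (a (l 16072608) (l 16122552))) (b (l 16172192) (l 16188576)))) (b (a (l 16280104) (l 16419664)) (a (b (l 16276984) (l 16289192))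 (b (l 16420064) (l 16410200))))))) (a (b (b (a (b (l 15700680) (l 15700648)) (l 15897360)) (b (a (l 15665680) (l 15899640)) (l 15847384))) (a (l 1) (b (l 16046976) (l 1)))) (b (b (a (a (b (a (l 16047080) (l 16123704)) (l 16074576)) (b (l 16214048) (b (l 16217000) (l 16211800)))) (a (b (l 16321040) (l 16344040)) (b (l 16436424) (l 16464536)))) (b (a (l 16150056) (a (l 16347376) (l 16477064))) (l 16292968))) (b (a (l 16225512) (l 16427536)) (a (l 16346760) (l 16400848)))))), by decide +kernel⟩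

theorem s4_pm_303 : ∃ t, chk3 f_pm_303 t 3 3 1 = true := ex3_a k2_pm_303 k3_pm_303

theorem s5_pm_303 : ∃ t, chk3 f_pm_303 t 3 1 1 = true := ex3_b k1_pm_303 s4_pm_303

theorem s6_pm_303 : ∃ t, chk3 f_pm_303 t 1 1 1 = true := ex3_a k0_pm_303 s5_pm_303

theorem c_pm_303 : CertB 0 1230186008 0 1230186008 858993459 64424510 3 eng mog cd2q3 cd4q3 pd0 false true false .npn 3 0 3
    ndB2q3 ndB4q3 pcB0 Cut.none Ext.none :=
  certB0 (fam := false) (s1 := true) (s2 := false) (a := 3) (b := 0) (c := 3) (cn := .npn) (n1 := ndB2q3) (n2 := ndB4q3) (pc := pcB0) (cut := Cut.none) (xt := Ext.none) (P1 := 0) (W1 := 1230186008) (P2 := 0) (W2 := 1230186008) (P3 := 858993459) (W3 := 64424510) (N0 := 3) (En := eng) (mo := mog) (C1 := cd2q3) (C2 := cd4q3) (C3 := pd0)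
    rfl s6_pm_303

noncomputable def f_pm_313 : ℕ → ℕ → ℕ → ℕ → Bool := onCell 0 1230186008 0 1230186008 858993459 64424510
    (rowB 3 eng mog cd2q3 cd4q3 pd1 0 false true false .dn 3 1 3 (qsf 0 1230186008 0 1230186008 1) ndB2q3 ndB4q3 pcB1 Cut.none Ext.none)

def k0_pm_313 : ∃ t, chk3 f_pm_313 t 1 1 1 = true :=
  ⟨(a (l 1) (b (b (l 3) (l 1)) (l 1))), by decide +kernel⟩

theorem c_pm_313 : CertB 0 1230186008 0 1230186008 858993459 64424510 3 eng mog cd2q3 cd4q3 pd1 false true false .dn 3 1 3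
    ndB2q3 ndB4q3 pcB1 Cut.none Ext.none :=
  certB0 (fam := false) (s1 := true) (s2 := false) (a := 3) (b := 1) (c := 3) (cn := .dn) (n1 := ndB2q3) (n2 := ndB4q3) (pc := pcB1) (cut := Cut.none) (xt := Ext.none) (P1 := 0) (W1 := 1230186008) (P2 := 0) (W2 := 1230186008) (P3 := 858993459) (W3 := 64424510) (N0 := 3) (En := eng) (mo := mog) (C1 := cd2q3) (C2 := cd4q3) (C3 := pd1)
    rfl k0_pm_313

noncomputable def f_mm_001 : ℕ → ℕ → ℕ → ℕ → Bool := onCell 0 536870912 0 536870912 858993459 64424510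
    (rowB 3 eng mog cd2q0 cd4q1 pd0 1 false false false .up 0 0 1 (qsf 0 536870912 536870912 536870912 0) ndB2q0 ndB4q1 pcB0 Cut.none Ext.none)

def k0_mm_001 : ∃ t, chk3 f_mm_001 t 1 1 1 = true :=
  ⟨(l 3), by decide +kernel⟩

theorem c_mm_001 : CertB 0 536870912 536870912 536870912 858993459 64424510 3 eng mog cd2q0 cd4q1 pd0 false false false .up 0 0 1
    ndB2q0 ndB4q1 pcB0 Cut.none Ext.none :=
  certB1 (fam := false) (s1 := false) (s2 := false) (a := 0) (b := 0) (c := 1) (cn := .up) (n1 := ndB2q0) (n2 := ndB4q1) (pc := pcB0) (cut := Cut.none) (xt := Ext.none) (P1 := 0) (W1 := 536870912) (P2 := 536870912) (W2 := 536870912) (P3 := 858993459) (W3 := 64424510) (N0 := 3) (En := eng) (mo := mog) (C1 := cd2q0) (C2 := cd4q1) (C3 := pd0)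
    rfl (fun _ => rfl) k0_mm_001

noncomputable def f_mm_011 : ℕ → ℕ → ℕ → ℕ → Bool := onCell 0 536870912 536870912 536870912 858993459 64424510
    (rowB 3 eng mog cd2q0 cd4q1 pd1 1 false false false .pnn 0 1 1 (qsf 0 536870912 536870912 536870912 1) ndB2q0 ndB4q1 pcB1 Cut.none Ext.none)

def k0_mm_011 : ∃ t, chk3 f_mm_011 t 1 1 1 = true :=
  ⟨(l 5), by decide +kernel⟩

theorem c_mm_011 : CertB 0 536870912 536870912 536870912 858993459 64424510 3 eng mog cd2q0 cd4q1 pd1 false false false .pnn 0 1 1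
    ndB2q0 ndB4q1 pcB1 Cut.none Ext.none :=
  certB1 (fam := false) (s1 := false) (s2 := false) (a := 0) (b := 1) (c := 1) (cn := .pnn) (n1 := ndB2q0) (n2 := ndB4q1) (pc := pcB1) (cut := Cut.none) (xt := Ext.none) (P1 := 0) (W1 := 536870912) (P2 := 536870912) (W2 := 536870912) (P3 := 858993459) (W3 := 64424510) (N0 := 3) (En := eng) (mo := mog) (C1 := cd2q0) (C2 := cd4q1) (C3 := pd1)
    rfl (fun _ => rfl) k0_mm_011

noncomputable def f_mm_012 : ℕ → ℕ → ℕ → ℕ → Bool := onCell 0 536870912 1073741824 536870912 858993459 64424510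
    (rowB 3 eng mog cd2q0 cd4q2 pd1 0 false false false .pnp 0 1 2 (qsf 0 536870912 1073741824 536870912 1) ndB2q0 ndB4q2 pcB1 Cut.none Ext.none)

def k0_mm_012 : ∃ t, chk3 f_mm_012 t 1 1 1 = true :=
  ⟨(l 5), by decide +kernel⟩

theorem c_mm_012 : CertB 0 536870912 1073741824 536870912 858993459 64424510 3 eng mog cd2q0 cd4q2 pd1 false false false .pnp 0 1 2
    ndB2q0 ndB4q2 pcB1 Cut.none Ext.none :=
  certB0 (fam := false) (s1 := false) (s2 := false) (a := 0) (b := 1) (c := 2) (cn := .pnp) (n1 := ndB2q0) (n2 := ndB4q2) (pc := pcB1) (cut := Cut.none) (xt := Ext.none) (P1 := 0) (W1 := 536870912) (P2 := 1073741824) (W2 := 536870912) (P3 := 858993459) (W3 := 64424510) (N0 := 3) (En := eng) (mo := mog) (C1 := cd2q0) (C2 := cd4q2) (C3 := pd1)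
    rfl k0_mm_012

noncomputable def f_mm_022 : ℕ → ℕ → ℕ → ℕ → Bool := onCell 0 536870912 1073741824 536870912 858993459 64424510
    (rowB 3 eng mog cd2q0 cd4q2 pd2 0 false false false .pp 0 2 2 (qsf 0 536870912 1073741824 536870912 2) ndB2q0 ndB4q2 pcB2 Cut.none Ext.none)

def k0_mm_022 : ∃ t, chk3 f_mm_022 t 1 1 1 = true :=
  ⟨(l 5), by decide +kernel⟩

theorem c_mm_022 : CertB 0 536870912 1073741824 536870912 858993459 64424510 3 eng mog cd2q0 cd4q2 pd2 false false false .pp 0 2 2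
    ndB2q0 ndB4q2 pcB2 Cut.none Ext.none :=
  certB0 (fam := false) (s1 := false) (s2 := false) (a := 0) (b := 2) (c := 2) (cn := .pp) (n1 := ndB2q0) (n2 := ndB4q2) (pc := pcB2) (cut := Cut.none) (xt := Ext.none) (P1 := 0) (W1 := 536870912) (P2 := 1073741824) (W2 := 536870912) (P3 := 858993459) (W3 := 64424510) (N0 := 3) (En := eng) (mo := mog) (C1 := cd2q0) (C2 := cd4q2) (C3 := pd2)
    rfl k0_mm_022

noncomputable def f_mm_023 : ℕ → ℕ → ℕ → ℕ → Bool := onCell 0 536870912 0 1230186008 858993459 64424510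
    (rowB 3 eng mog cd2q0 cd4q3 pd2 0 false false false .up 0 2 3 (qsf 0 536870912 0 1230186008 2) ndB2q0 ndB4q3 pcB2 Cut.none Ext.none)

def k0_mm_023 : ∃ t, chk3 f_mm_023 t 1 1 1 = true :=
  ⟨(l 5), by decide +kernel⟩

theorem c_mm_023 : CertB 0 536870912 0 1230186008 858993459 64424510 3 eng mog cd2q0 cd4q3 pd2 false false false .up 0 2 3
    ndB2q0 ndB4q3 pcB2 Cut.none Ext.none :=
  certB0 (fam := false) (s1 := false) (s2 := false) (a := 0) (b := 2) (c := 3) (cn := .up) (n1 := ndB2q0) (n2 := ndB4q3) (pc := pcB2) (cut := Cut.none) (xt := Ext.none) (P1 := 0) (W1 := 536870912) (P2 := 0) (W2 := 1230186008) (P3 := 858993459) (W3 := 64424510) (N0 := 3) (En := eng) (mo := mog) (C1 := cd2q0) (C2 := cd4q3) (C3 := pd2)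
    rfl k0_mm_023

noncomputable def f_mm_033 : ℕ → ℕ → ℕ → ℕ → Bool := onCell 0 536870912 0 1230186008 858993459 64424510
    (rowB 3 eng mog cd2q0 cd4q3 pd3 0 false false false .pnn 0 3 3 (qsf 0 536870912 0 1230186008 3) ndB2q0 ndB4q3 pcB3 Cut.none Ext.none)

def k0_mm_033 : ∃ t, chk3 f_mm_033 t 1 1 1 = true :=
  ⟨(l 5), by decide +kernel⟩

theorem c_mm_033 : CertB 0 536870912 0 1230186008 858993459 64424510 3 eng mog cd2q0 cd4q3 pd3 false false false .pnn 0 3 3
    ndB2q0 ndB4q3 pcB3 Cut.none Ext.none :=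
  certB0 (fam := false) (s1 := false) (s2 := false) (a := 0) (b := 3) (c := 3) (cn := .pnn) (n1 := ndB2q0) (n2 := ndB4q3) (pc := pcB3) (cut := Cut.none) (xt := Ext.none) (P1 := 0) (W1 := 536870912) (P2 := 0) (W2 := 1230186008) (P3 := 858993459) (W3 := 64424510) (N0 := 3) (En := eng) (mo := mog) (C1 := cd2q0) (C2 := cd4q3) (C3 := pd3)
    rfl k0_mm_033

noncomputable def f_mm_101 : ℕ → ℕ → ℕ → ℕ → Bool := onCell 536870912 536870912 536870912 536870912 858993459 64424510
    (rowB 3 eng mog cd2q1 cd4q1 pd0 0 false false false .npn 1 0 1 (qsf 536870912 536870912 536870912 536870912 0) ndB2q1 ndB4q1 pcB0 Cut.none Ext.none)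

def k0_mm_101 : ∃ t, chk3 f_mm_101 t 1 1 1 = true :=
  ⟨(l 3), by decide +kernel⟩

theorem c_mm_101 : CertB 536870912 536870912 536870912 536870912 858993459 64424510 3 eng mog cd2q1 cd4q1 pd0 false false false .npn 1 0 1
    ndB2q1 ndB4q1 pcB0 Cut.none Ext.none :=
  certB0 (fam := false) (s1 := false) (s2 := false) (a := 1) (b := 0) (c := 1) (cn := .npn) (n1 := ndB2q1) (n2 := ndB4q1) (pc := pcB0) (cut := Cut.none) (xt := Ext.none) (P1 := 536870912) (W1 := 536870912) (P2 := 536870912) (W2 := 536870912) (P3 := 858993459) (W3 := 64424510) (N0 := 3) (En := eng) (mo := mog) (C1 := cd2q1) (C2 := cd4q1) (C3 := pd0)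
    rfl k0_mm_101

noncomputable def f_mm_102 : ℕ → ℕ → ℕ → ℕ → Bool := onCell 536870912 536870912 1073741824 536870912 858993459 64424510
    (rowB 3 eng mog cd2q1 cd4q2 pd0 0 false false false .npp 1 0 2 (qsf 536870912 536870912 1073741824 536870912 0) ndB2q1 ndB4q2 pcB0 Cut.none Ext.none)

def k0_mm_102 : ∃ t, chk3 f_mm_102 t 1 1 1 = true :=
  ⟨(l 3), by decide +kernel⟩

theorem c_mm_102 : CertB 536870912 536870912 1073741824 536870912 858993459 64424510 3 eng mog cd2q1 cd4q2 pd0 false false false .npp 1 0 2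
    ndB2q1 ndB4q2 pcB0 Cut.none Ext.none :=
  certB0 (fam := false) (s1 := false) (s2 := false) (a := 1) (b := 0) (c := 2) (cn := .npp) (n1 := ndB2q1) (n2 := ndB4q2) (pc := pcB0) (cut := Cut.none) (xt := Ext.none) (P1 := 536870912) (W1 := 536870912) (P2 := 1073741824) (W2 := 536870912) (P3 := 858993459) (W3 := 64424510) (N0 := 3) (En := eng) (mo := mog) (C1 := cd2q1) (C2 := cd4q2) (C3 := pd0)
    rfl k0_mm_102

noncomputable def f_mm_112 : ℕ → ℕ → ℕ → ℕ → Bool := onCell 536870912 536870912 1073741824 536870912 858993459 64424510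
    (rowB 3 eng mog cd2q1 cd4q2 pd1 0 false false false .dn 1 1 2 (qsf 536870912 536870912 1073741824 536870912 1) ndB2q1 ndB4q2 pcB1 Cut.none Ext.none)

def k0_mm_112 : ∃ t, chk3 f_mm_112 t 1 1 1 = true :=
  ⟨(l 3), by decide +kernel⟩

theorem c_mm_112 : CertB 536870912 536870912 1073741824 536870912 858993459 64424510 3 eng mog cd2q1 cd4q2 pd1 false false false .dn 1 1 2
    ndB2q1 ndB4q2 pcB1 Cut.none Ext.none :=
  certB0 (fam := false) (s1 := false) (s2 := false) (a := 1) (b := 1) (c := 2) (cn := .dn) (n1 := ndB2q1) (n2 := ndB4q2) (pc := pcB1) (cut := Cut.none) (xt := Ext.none) (P1 := 536870912) (W1 := 536870912) (P2 := 1073741824) (W2 := 536870912) (P3 := 858993459) (W3 := 64424510) (N0 := 3) (En := eng) (mo := mog) (C1 := cd2q1) (C2 := cd4q2) (C3 := pd1)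
    rfl k0_mm_112

noncomputable def f_mm_113 : ℕ → ℕ → ℕ → ℕ → Bool := onCell 536870912 536870912 0 1230186008 858993459 64424510
    (rowB 3 eng mog cd2q1 cd4q3 pd1 0 false false false .nn 1 1 3 (qsf 536870912 536870912 0 1230186008 1) ndB2q1 ndB4q3 pcB1 Cut.none Ext.none)

def k0_mm_113 : ∃ t, chk3 f_mm_113 t 1 1 1 = true :=
  ⟨(l 5), by decide +kernel⟩

theorem c_mm_113 : CertB 536870912 536870912 0 1230186008 858993459 64424510 3 eng mog cd2q1 cd4q3 pd1 false false false .nn 1 1 3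
    ndB2q1 ndB4q3 pcB1 Cut.none Ext.none :=
  certB0 (fam := false) (s1 := false) (s2 := false) (a := 1) (b := 1) (c := 3) (cn := .nn) (n1 := ndB2q1) (n2 := ndB4q3) (pc := pcB1) (cut := Cut.none) (xt := Ext.none) (P1 := 536870912) (W1 := 536870912) (P2 := 0) (W2 := 1230186008) (P3 := 858993459) (W3 := 64424510) (N0 := 3) (En := eng) (mo := mog) (C1 := cd2q1) (C2 := cd4q3) (C3 := pd1)
    rfl k0_mm_113

noncomputable def f_mm_123 : ℕ → ℕ → ℕ → ℕ → Bool := onCell 536870912 536870912 0 1230186008 858993459 64424510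
    (rowB 3 eng mog cd2q1 cd4q3 pd2 0 false false false .npn 1 2 3 (qsf 536870912 536870912 0 1230186008 2) ndB2q1 ndB4q3 pcB2 Cut.none Ext.none)

def k0_mm_123 : ∃ t, chk3 f_mm_123 t 1 1 1 = true :=
  ⟨(l 5), by decide +kernel⟩

theorem c_mm_123 : CertB 536870912 536870912 0 1230186008 858993459 64424510 3 eng mog cd2q1 cd4q3 pd2 false false false .npn 1 2 3
    ndB2q1 ndB4q3 pcB2 Cut.none Ext.none :=
  certB0 (fam := false) (s1 := false) (s2 := false) (a := 1) (b := 2) (c := 3) (cn := .npn) (n1 := ndB2q1) (n2 := ndB4q3) (pc := pcB2) (cut := Cut.none) (xt := Ext.none) (P1 := 536870912) (W1 := 536870912) (P2 := 0) (W2 := 1230186008) (P3 := 858993459) (W3 := 64424510) (N0 := 3) (En := eng) (mo := mog) (C1 := cd2q1) (C2 := cd4q3) (C3 := pd2)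
    rfl k0_mm_123

noncomputable def f_mm_133 : ℕ → ℕ → ℕ → ℕ → Bool := onCell 536870912 536870912 0 1230186008 858993459 64424510
    (rowB 3 eng mog cd2q1 cd4q3 pd3 0 false false false .dn 1 3 3 (qsf 536870912 536870912 0 1230186008 3) ndB2q1 ndB4q3 pcB3 Cut.none Ext.none)

def k0_mm_133 : ∃ t, chk3 f_mm_133 t 1 1 1 = true :=
  ⟨(l 5), by decide +kernel⟩

theorem c_mm_133 : CertB 536870912 536870912 0 1230186008 858993459 64424510 3 eng mog cd2q1 cd4q3 pd3 false false false .dn 1 3 3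
    ndB2q1 ndB4q3 pcB3 Cut.none Ext.none :=
  certB0 (fam := false) (s1 := false) (s2 := false) (a := 1) (b := 3) (c := 3) (cn := .dn) (n1 := ndB2q1) (n2 := ndB4q3) (pc := pcB3) (cut := Cut.none) (xt := Ext.none) (P1 := 536870912) (W1 := 536870912) (P2 := 0) (W2 := 1230186008) (P3 := 858993459) (W3 := 64424510) (N0 := 3) (En := eng) (mo := mog) (C1 := cd2q1) (C2 := cd4q3) (C3 := pd3)
    rfl k0_mm_133

noncomputable def f_mm_202 : ℕ → ℕ → ℕ → ℕ → Bool := onCell 1073741824 536870912 1073741824 536870912 858993459 64424510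
    (rowB 3 eng mog cd2q2 cd4q2 pd0 0 false false false .pp 2 0 2 (qsf 1073741824 536870912 1073741824 536870912 0) ndB2q2 ndB4q2 pcB0 Cut.none Ext.none)

def k0_mm_202 : ∃ t, chk3 f_mm_202 t 1 1 1 = true :=
  ⟨(a (l 3) (b (a (l 3) (l 1)) (l 3))), by decide +kernel⟩

theorem c_mm_202 : CertB 1073741824 536870912 1073741824 536870912 858993459 64424510 3 eng mog cd2q2 cd4q2 pd0 false false false .pp 2 0 2
    ndB2q2 ndB4q2 pcB0 Cut.none Ext.none :=
  certB0 (fam := false) (s1 := false) (s2 := false) (a := 2) (b := 0) (c := 2) (cn := .pp) (n1 := ndB2q2) (n2 := ndB4q2) (pc := pcB0) (cut := Cut.none) (xt := Ext.none) (P1 := 1073741824) (W1 := 536870912) (P2 := 1073741824) (W2 := 536870912) (P3 := 858993459) (W3 := 64424510) (N0 := 3) (En := eng) (mo := mog) (C1 := cd2q2) (C2 := cd4q2) (C3 := pd0)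
    rfl k0_mm_202

noncomputable def f_mm_203 : ℕ → ℕ → ℕ → ℕ → Bool := onCell 1073741824 536870912 0 1230186008 858993459 64424510
    (rowB 3 eng mog cd2q2 cd4q3 pd0 0 false false false .up 2 0 3 (qsf 1073741824 536870912 0 1230186008 0) ndB2q2 ndB4q3 pcB0 Cut.none Ext.none)

def k0_mm_203 : ∃ t, chk3 f_mm_203 t 1 1 1 = true :=
  ⟨(b (l 5) (l 3)), by decide +kernel⟩

theorem c_mm_203 : CertB 1073741824 536870912 0 1230186008 858993459 64424510 3 eng mog cd2q2 cd4q3 pd0 false false false .up 2 0 3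
    ndB2q2 ndB4q3 pcB0 Cut.none Ext.none :=
  certB0 (fam := false) (s1 := false) (s2 := false) (a := 2) (b := 0) (c := 3) (cn := .up) (n1 := ndB2q2) (n2 := ndB4q3) (pc := pcB0) (cut := Cut.none) (xt := Ext.none) (P1 := 1073741824) (W1 := 536870912) (P2 := 0) (W2 := 1230186008) (P3 := 858993459) (W3 := 64424510) (N0 := 3) (En := eng) (mo := mog) (C1 := cd2q2) (C2 := cd4q3) (C3 := pd0)
    rfl k0_mm_203

noncomputable def f_mm_213 : ℕ → ℕ → ℕ → ℕ → Bool := onCell 1073741824 536870912 0 1230186008 858993459 64424510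
    (rowB 3 eng mog cd2q2 cd4q3 pd1 0 false false false .pnn 2 1 3 (qsf 1073741824 536870912 0 1230186008 1) ndB2q2 ndB4q3 pcB1 Cut.none Ext.none)

def k0_mm_213 : ∃ t, chk3 f_mm_213 t 1 1 1 = true :=
  ⟨(b (l 5) (l 3)), by decide +kernel⟩

theorem c_mm_213 : CertB 1073741824 536870912 0 1230186008 858993459 64424510 3 eng mog cd2q2 cd4q3 pd1 false false false .pnn 2 1 3
    ndB2q2 ndB4q3 pcB1 Cut.none Ext.none :=
  certB0 (fam := false) (s1 := false) (s2 := false) (a := 2) (b := 1) (c := 3) (cn := .pnn) (n1 := ndB2q2) (n2 := ndB4q3) (pc := pcB1) (cut := Cut.none) (xt := Ext.none) (P1 := 1073741824) (W1 := 536870912) (P2 := 0) (W2 := 1230186008) (P3 := 858993459) (W3 := 64424510) (N0 := 3) (En := eng) (mo := mog) (C1 := cd2q2) (C2 := cd4q3) (C3 := pd1)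
    rfl k0_mm_213

noncomputable def f_mm_303 : ℕ → ℕ → ℕ → ℕ → Bool := onCell 0 1230186008 0 1230186008 858993459 64424510
    (rowB 3 eng mog cd2q3 cd4q3 pd0 0 false false false .npn 3 0 3 (qsf 0 1230186008 0 1230186008 0) ndB2q3 ndB4q3 pcB0 Cut.none Ext.none)

def k0_mm_303 : ∃ t, chk3 f_mm_303 t 1 1 1 = true :=
  ⟨(a (b (l 3) (b (l 3) (l 1))) (b (l 3) (a (b (l 3) (a (l 1) (l 3))) (l 3)))), by decide +kernel⟩

theorem c_mm_303 : CertB 0 1230186008 0 1230186008 858993459 64424510 3 eng mog cd2q3 cd4q3 pd0 false false false .npn 3 0 3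
    ndB2q3 ndB4q3 pcB0 Cut.none Ext.none :=
  certB0 (fam := false) (s1 := false) (s2 := false) (a := 3) (b := 0) (c := 3) (cn := .npn) (n1 := ndB2q3) (n2 := ndB4q3) (pc := pcB0) (cut := Cut.none) (xt := Ext.none) (P1 := 0) (W1 := 1230186008) (P2 := 0) (W2 := 1230186008) (P3 := 858993459) (W3 := 64424510) (N0 := 3) (En := eng) (mo := mog) (C1 := cd2q3) (C2 := cd4q3) (C3 := pd0)
    rfl k0_mm_303

noncomputable def f_mm_313 : ℕ → ℕ → ℕ → ℕ → Bool := onCell 0 1230186008 0 1230186008 858993459 64424510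
    (rowB 3 eng mog cd2q3 cd4q3 pd1 0 false false false .dn 3 1 3 (qsf 0 1230186008 0 1230186008 1) ndB2q3 ndB4q3 pcB1 Cut.none Ext.none)

def k0_mm_313 : ∃ t, chk3 f_mm_313 t 1 1 1 = true :=
  ⟨(a (l 1) (b (l 3) (l 1))), by decide +kernel⟩

theorem c_mm_313 : CertB 0 1230186008 0 1230186008 858993459 64424510 3 eng mog cd2q3 cd4q3 pd1 false false false .dn 3 1 3
    ndB2q3 ndB4q3 pcB1 Cut.none Ext.none :=
  certB0 (fam := false) (s1 := false) (s2 := false) (a := 3) (b := 1) (c := 3) (cn := .dn) (n1 := ndB2q3) (n2 := ndB4q3) (pc := pcB1) (cut := Cut.none) (xt := Ext.none) (P1 := 0) (W1 := 1230186008) (P2 := 0) (W2 := 1230186008) (P3 := 858993459) (W3 := 64424510) (N0 := 3) (En := eng) (mo := mog) (C1 := cd2q3) (C2 := cd4q3) (C3 := pd1)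
    rfl k0_mm_313

end Pool.Agent.Strip051.G.I8000_8600.Tab.C.BB24

namespace Pool.Agent.Strip051.G.I8000_8600.Tab.C.BB30

open Pool.Agent.Strip051.PB Pool.Agent.Strip051.PB.T
open Pool.Agent.Strip051.G.I8000_8600.Tab

noncomputable def f_pp_001 : ℕ → ℕ → ℕ → ℕ → Bool := onCell 0 536870912 536870912 536870912 858993459 64424510
    (rowB 3 eng mog cd3q0 cd0q1 pd0 2 false true true .up 0 0 1 (qsf 0 536870912 536870912 536870912 0) ndB3q0 ndB0q1 pcB0 Cut.none Ext.none)

def k0_pp_001 : ∃ t, chk3 f_pp_001 t 1 2 1 = true :=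
  ⟨(l 3), by decide +kernel⟩

def k1_pp_001 : ∃ t, chk3 f_pp_001 t 1 3 1 = true :=
  ⟨(b (l 3) (a (l 2) (a (b (b (l 3) (l 2)) (l 2)) (b (a (b (l 3) (b (b (b (l 3) (a (l 2) (a (l 3) (c (l 267528667191) (c (l 236390186039) (l 234242649975)))))) (a (l 2) (c (a (c (b (l 339469397351) (l 156866159623)) (l 257328228647)) (a (l 258938724887) (l 263233693943))) (c (a (b (l 233705984967) (l 16442448)) (l 200956710535)) (a (l 253570019383) (a (l 255180630375) (l 203104120503))))))) (a (l 2) (c (b (a (l 174582809367) (l 16428568)) (l 159550342951)) (a (c (l 94589110263) (l 16379200)) (b (l 16392104) (l 16367896))))))) (b (a (l 3) (b (l 3) (b (l 3) (a (c (c (l 210083577639) (l 221357784007)) (b (l 3) (a (l 220283942119) (l 241758748855)))) (c (c (l 217062861095) (l 220284050391)) (b (a (l 3) (l 257327983335)) (a (l 230484443223) (l 239074360663)))))))) (a (b (b (a (b (l 3) (c (a (l 248738150935) (l 255180574119)) (a (l 240148201159) (c (l 16367248) (l 244979996871)))))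 (c (c (l 221894780359) (l 243369492583)) (c (b (l 228873974727) (l 16350864)) (a (l 238537540759) (l 241758742839))))) (c (c (l 16475072) (a (l 16399728) (l 16377384))) (a (c (l 16368616) (b (l 16328872) (l 16326384))) (a (l 16331784) (l 16320944))))) (a (b (c (l 16404168) (l 16344320)) (l 16311992)) (c (l 16378344) (l 16296512)))) (c (b (a (b (c (l 16384992) (l 16344560)) (l 16369008)) (c (l 16363472) (l 16323576))) (l 16348456)) (b (b (a (c (l 220284002935) (b (l 240148117303) (l 16289560))) (c (l 16316536) (l 16273888))) (a (l 16305736) (l 16287392))) (b (l 16288576) (l 16281464))))))) (a (a (l 2) (a (l 2) (b (c (l 102642464935) (l 16361504)) (l 2)))) (b (c (a (b (l 16376752) (l 16348072)) (l 16326000)) (a (b (l 16320616) (l 16313056)) (l 16202720))) (a (c (l 16296144) (l 16304200)) (l 16382840)))))))), by decide +kernel⟩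

theorem s2_pp_001 : ∃ t, chk3 f_pp_001 t 1 1 1 = true := ex3_b k0_pp_001 k1_pp_001

theorem c_pp_001 : CertB 0 536870912 536870912 536870912 858993459 64424510 3 eng mog cd3q0 cd0q1 pd0 false true true .up 0 0 1
    ndB3q0 ndB0q1 pcB0 Cut.none Ext.none :=
  certB2 (fam := false) (s1 := true) (s2 := true) (a := 0) (b := 0) (c := 1) (cn := .up) (n1 := ndB3q0) (n2 := ndB0q1) (pc := pcB0) (cut := Cut.none) (xt := Ext.none) (P1 := 0) (W1 := 536870912) (P2 := 536870912) (W2 := 536870912) (P3 := 858993459) (W3 := 64424510) (N0 := 3) (En := eng) (mo := mog) (C1 := cd3q0) (C2 := cd0q1) (C3 := pd0)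
    rfl (fun _ => rfl) s2_pp_001

noncomputable def f_pp_011 : ℕ → ℕ → ℕ → ℕ → Bool := onCell 536870912 536870912 536870912 536870912 858993459 64424510
    (rowB 3 eng mog cd3q0 cd0q1 pd1 2 false true true .pnn 0 1 1 (qsf 0 536870912 536870912 536870912 1) ndB3q0 ndB0q1 pcB1 Cut.none Ext.none)

def k0_pp_011 : ∃ t, chk3 f_pp_011 t 2 2 1 = true :=
  ⟨(a (l 3) (b (a (b (l 1) (l 3)) (l 1)) (l 3))), by decide +kernel⟩

def k1_pp_011 : ∃ t, chk3 f_pp_011 t 4 6 1 = true :=
  ⟨(a (l 3) (l 3)), by decide +kernel⟩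

def k2_pp_011 : ∃ t, chk3 f_pp_011 t 4 56 1 = true :=
  ⟨(b (a (l 3) (a (l 3) (c (c (c (a (l 193440386311) (b (l 190219225047) (l 202030371863))) (a (l 182166144183) (l 190219207015))) (a (c (l 186997922471) (l 191292967175)) (c (l 191829774679) (l 16271160)))) (a (c (l 204177860055) (l 421073557447)) (a (l 154248886199) (l 175723676439)))))) (a (b (l 3) (a (l 3) (a (l 3) (a (l 3) (c (c (l 226189525159) (l 16318216)) (l 339469181239)))))) (a (a (b (l 3) (c (c (c (l 178944984231) (l 16307960)) (l 16344888)) (c (l 173576080583) (a (l 16258640) (l 16256272))))) (c (c (c (b (l 197735408759) (l 16301088)) (l 173576268695)) (l 191829818423)) (c (l 171965517719) (a (l 16278128) (l 16254496))))) (c (c (a (c (l 202030346807) (l 16284432)) (c (l 16287944) (l 16274376))) (a (c (l 16274712) (l 16266944)) (l 16257656))) (a (c (l 16263520) (l 16228928)) (c (l 16242456) (l 16239928))))))), by decide +kernel⟩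

def k3_pp_011 : ∃ t, chk3 f_pp_011 t 4 57 1 = true :=
  ⟨(a (b (a (b (l 3) (a (l 3) (c (c (a (l 174113180727) (l 16387720)) (a (l 289003417591) (l 206862161735))) (c (a (l 276655388055) (l 207399036231)) (a (l 295445769223) (c (l 16275960) (l 226726262151))))))) (c (c (c (a (b (l 171965693543) (l 16330360)) (b (l 166596925303) (l 16310432))) (a (l 173576268327) (l 16333544))) (a (c (l 169281226327) (l 184850515047)) (a (l 16316112) (l 16307728)))) (c (a (a (b (l 291687763287) (l 16300888)) (l 200956594967)) (a (l 206325283607) (l 16289160))) (a (a (b (l 307793785783) (l 238000569991)) (b (l 202030220327) (l 16257968))) (a (b (l 16258576) (l 16255624)) (l 16254824)))))) (a (c (a (c (b (a (l 176260664423) (l 16378472)) (l 16373576)) (a (b (l 199882932935) (l 16341336)) (b (l 203641009095) (l 16333016)))) (c (b (l 16379448) (l 16333176)) (a (l 222968271127) (l 16321864)))) (a (b (c (a (l 214915249031) (l 223505173895)) (a (a (l 224578809287) (l 232631869559))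 (c (l 16281656) (l 246590497367)))) (c (a (l 16312656) (l 16306008)) (a (l 16274384) (l 16269512)))) (c (a (b (l 16305680) (l 16299768)) (l 16296904)) (a (b (l 256791056295) (l 16265112)) (l 16261680))))) (c (a (c (l 16318296) (a (l 16314224) (l 16306680))) (c (l 16297672) (l 16295304))) (a (c (a (l 16291400) (l 16286128)) (a (l 16258256) (l 16255152))) (c (l 16278496) (l 16250992)))))) (c (c (a (b (a (a (l 16320760) (l 16290792)) (l 16288752)) (l 16348096)) (a (b (l 16263768) (l 16238216)) (l 16227736))) (a (a (b (l 16294000) (l 16279440)) (l 16288352)) (a (l 16244296) (l 16228400)))) (a (a (c (c (l 16258472) (l 16269560)) (c (l 16277464) (l 16282632))) (b (a (l 16262904) (l 16258680)) (l 16229616))) (a (b (l 16250984) (l 16241256)) (c (l 16230400) (l 16230128)))))), by decide +kernel⟩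

def k4_pp_011 : ∃ t, chk3 f_pp_011 t 4 29 1 = true :=
  ⟨(a (c (a (c (a (b (b (l 16336424) (l 16313760)) (l 16278464)) (b (l 16306760) (l 16260528))) (c (b (a (l 16296496) (l 16300736)) (l 16269592)) (b (a (l 16331000) (l 16294576)) (l 16269440)))) (c (b (a (l 16289048) (l 16271656)) (a (l 16243904) (l 16228344))) (b (a (l 16264544) (l 16247680)) (l 16323040)))) (a (b (c (a (c (l 16321928) (l 16311336)) (b (l 16288048) (l 16276936))) (a (b (a (l 16274456) (l 16269112)) (l 16272056)) (b (l 16261952) (l 16261008)))) (c (a (l 16276368) (l 16261488)) (a (l 16273664) (l 16260744)))) (b (a (c (l 16291432) (l 16315520)) (c (l 16259464) (l 16244968))) (c (l 16283736) (l 16327872))))) (c (a (c (b (l 16265648) (l 16080472)) (b (l 16247360) (l 16191656))) (b (c (l 16200952) (l 16214256)) (l 16223600))) (a (b (a (c (l 16249008) (l 16238112)) (l 16214648)) (a (l 16289912) (l 16196056))) (c (l 16230312) (l 16219424))))), by decide +kernel⟩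

def k5_pp_011 : ∃ t, chk3 f_pp_011 t 4 15 1 = true :=
  ⟨(a (a (c (b (c (b (a (l 16229792) (l 16211736)) (l 16191560)) (b (l 16213368) (l 16199840))) (c (b (l 16120736) (l 16071880)) (l 16004088))) (b (b (a (l 16246496) (l 16251520)) (l 16251272)) (c (l 16209952) (l 16264456)))) (c (c (b (b (l 16229520) (l 16136800)) (b (l 16085632) (l 16035248))) (b (b (l 16202632) (l 16166136)) (l 16134448))) (b (c (l 16042104) (l 16238992)) (c (l 16170880) (l 16228152))))) (c (b (a (b (a (l 16152968) (l 16140344)) (c (l 16109128) (l 16137896))) (c (l 16111472) (l 16133256))) (a (c (b (l 16057032) (l 16005248)) (l 16081720)) (c (b (l 16034320) (l 15981512)) (l 16055080)))) (b (a (c (l 16077824) (l 16211952)) (c (l 16158480) (l 16186928))) (a (c (l 16136368) (l 16190416)) (c (l 16105824) (l 16155288)))))), by decide +kernel⟩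

def k6_pp_011 : ∃ t, chk3 f_pp_011 t 5 6 1 = true :=
  ⟨(b (l 3) (b (l 3) (b (b (l 3) (a (l 3) (a (l 3) (a (a (l 3) (c (l 197735864247) (l 198809270391))) (c (c (l 210620827031) (l 210620638807)) (c (l 211694207271) (l 16285328))))))) (a (a (a (l 3) (c (b (l 3) (c (a (l 206325411351) (l 187534940503)) (l 195051032599))) (c (l 191292799255) (l 213841281511)))) (a (c (b (l 3) (c (a (l 191829926423) (l 195588046103)) (l 196661658087))) (c (l 194514064247) (l 170891865783))) (c (b (c (l 204177932663) (l 191829881223)) (c (a (l 199883029815) (l 16364040)) (l 16322856))) (c (l 198809078295) (l 205251384455))))) (a (c (c (b (a (a (l 190219435591) (l 195051306519)) (a (l 200956915863) (l 205251920231))) (a (l 16400984) (l 16409360))) (a (b (l 194514280167) (l 16316272)) (b (l 204714876855) (l 16338592)))) (c (a (l 204177839335) (l 211157204199)) (a (l 210083286471) (l 216525789783)))) (c (c (a (b (a (l 16467592) (l 16491808)) (l 16450536)) (b (l 16535792) (l 16507152)))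 (a (b (l 16395704) (l 16371168)) (l 16430032))) (c (a (l 16309880) (l 16345144)) (a (l 16243536) (l 16268256))))))))), by decide +kernel⟩

def k7_pp_011 : ∃ t, chk3 f_pp_011 t 5 7 1 = true :=
  ⟨(b (a (b (c (a (c (b (b (a (c (b (l 197198557639) (l 16308064)) (l 199346007879)) (a (l 16306664) (l 16308888))) (a (l 16275792) (l 16275584))) (a (l 16229352) (l 16225144))) (b (a (b (l 206862098727) (l 16248232)) (b (l 16267288) (l 16243080))) (a (l 16215688) (l 16206952)))) (b (c (a (b (l 16314752) (l 16280672)) (l 16309536)) (a (l 16255872) (l 16261720))) (c (l 16291208) (l 16202368)))) (a (b (c (a (b (l 16221984) (l 16228832)) (l 16352544)) (a (l 16283896) (l 16206952))) (a (l 16211120) (l 16194056))) (c (b (a (l 16221992) (l 16222200)) (l 16184088)) (b (a (l 16196880) (l 16191464)) (l 16173720))))) (c (a (c (b (l 16164280) (l 16140776)) (l 16267368)) (b (l 16211968) (l 16092336))) (a (b (l 16274584) (l 16176880)) (b (l 16153568) (l 16134984))))) (b (b (a (c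 (c (a (l 16327680) (l 16354800)) (a (l 16273848) (l 16294040))) (c (l 16254872) (l 16193760))) (c (c (l 16397784) (l 16344552)) (c (l 16278744) (l 16221568)))) (a (c (c (l 16253328) (l 16216112)) (a (l 16173040) (l 16177608))) (c (c (l 16318296) (l 16265376)) (l 16199704)))) (c (a (b (l 16256720) (l 16074568)) (b (l 16188240) (l 16085040))) (a (b (l 16138008) (l 16107584)) (c (l 16126552) (l 16122016)))))) (a (c (b (a (c (l 16091072) (l 16111464)) (c (l 16069136) (l 16087368))) (c (a (b (l 16016912) (l 15963776)) (b (l 16002984) (l 15950936))) (a (l 16033056) (l 16014488)))) (b (a (c (l 16134984) (l 16161288)) (c (l 16108136) (l 16130784))) (c (a (l 16078616) (l 16053856)) (l 16305048)))) (c (b (a (c (l 16039120) (l 16053952)) (c (l 15989480) (l 15996088))) (a (a (l 15985056) (l 15978784)) (a (l 15972944) (l 15967432)))) (b (a (l 16266584) (l 16189656)) (c (l 16144344) (l 16166736)))))), by decide +kernel⟩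

def k8_pp_011 : ∃ t, chk3 f_pp_011 t 3 2 1 = true :=
  ⟨(a (b (l 1) (a (b (l 1) (l 3)) (l 1))) (l 1)), by decide +kernel⟩

def k9_pp_011 : ∃ t, chk3 f_pp_011 t 6 12 1 = true :=
  ⟨(l 3), by decide +kernel⟩

def k10_pp_011 : ∃ t, chk3 f_pp_011 t 12 13 1 = true :=
  ⟨(b (l 3) (a (c (a (b (b (l 3) (c (b (l 234780146455) (l 16626496)) (l 222431918599))) (c (l 16599272) (l 16492976))) (b (b (c (l 245517692855) (l 227263910487)) (c (l 234243309783) (l 235316955447))) (c (l 16664248) (l 16577840)))) (b (a (c (l 220284276391) (l 221894709815)) (c (l 231021819447) (l 232632223847))) (a (c (l 16394544) (l 16304232)) (c (l 16462280) (l 16355032))))) (c (c (b (b (a (l 237464714647) (l 265918926119)) (a (l 16768856) (l 16816880))) (a (l 16691472) (l 16719528))) (b (b (a (l 236927751431) (l 250886459799)) (a (l 16712008) (l 16779104))) (a (l 16654720) (l 16687392)))) (c (b (a (l 242296241863) (l 233169511431)) (l 16569952)) (b (a (l 243906639383) (l 255181101383)) (l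 16470856)))))), by decide +kernel⟩

def k11_pp_011 : ∃ t, chk3 f_pp_011 t 13 13 1 = true :=
  ⟨(b (b (l 3) (a (a (l 3) (a (l 3) (b (l 3) (a (l 3) (b (l 3) (c (a (l 257866110599) (l 257866117815)) (c (l 232096263383) (l 256255389735)))))))) (a (a (a (b (l 1) (b (l 1) (c (c (l 423088225991) (l 668975029111)) (c (l 588444369911) (l 621193432295))))) (l 1)) (l 1)) (l 1)))) (b (b (a (c (c (a (c (l 16877768) (l 16860336)) (a (l 16868664) (c (l 16910208) (l 16895808)))) (a (l 219211149943) (a (l 16836784) (c (l 16881064) (l 16855488))))) (c (a (l 218137335191) (a (l 16803488) (c (l 16841376) (l 16824304)))) (a (l 217063515767) (a (l 16773944) (c (l 16818696) (l 16796240)))))) (a (a (a (b (c (c (l 16929768) (l 539052203175)) (c (l 536904666743) (l 535293993943))) (c (l 16903928) (l 16846880))) (c (l 539589017111) (b (l 655553096327) (l 530462119687)))) (b (l 1) (c (l 642131369895) (l 654479309335)))) (l 1))) (a (c (a (c (l 16844464) (l 16811816)) (c (l 16851192)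 (l 16843904))) (a (c (l 16777904) (l 16659624)) (c (l 16814496) (l 16783952)))) (c (a (a (l 16806848) (l 524556520919)) (a (l 635151957063) (l 1))) (a (c (l 145525577143) (l 156799815671)) (l 659311041127))))) (a (a (c (c (l 16748136) (l 16719880)) (l 16633976)) (c (b (l 16795296) (l 16734200)) (c (l 16726048) (l 16699472)))) (c (a (a (l 16745080) (l 16696936)) (c (l 509523948999) (l 507913302215))) (a (a (l 16739528) (l 16693760)) (c (l 506302655303) (l 504692004327))))))), by decide +kernel⟩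

def k12_pp_011 : ∃ t, chk3 f_pp_011 t 6 7 1 = true :=
  ⟨(b (a (b (a (c (b (c (l 16523112) (l 16468200)) (l 16386088)) (b (c (l 16375376) (l 16291416)) (l 16270784))) (c (b (c (l 16580768) (l 16553936)) (l 16449920)) (c (l 16431680) (l 16404864)))) (c (a (b (l 16265584) (l 16142376)) (b (l 16333288) (l 16215752))) (a (c (l 16175448) (l 16151552)) (c (l 16266232) (l 16241200))))) (c (b (a (b (c (l 16640664) (l 16618560)) (l 16514136)) (a (b (l 16675960) (l 16561808)) (b (l 16705968) (l 16592776)))) (a (b (l 16400648) (l 16287832)) (b (l 16466416) (l 16357568)))) (b (b (a (a (l 16567696) (l 16602264)) (a (l 16635320) (l 16666752))) (a (l 16479848) (a (l 16527336) (l 16557040)))) (a (b (l 16377736) (l 16277000)) (b (l 16437192) (l 16334744)))))) (a (c (b (a (c (l 15934440) (l 15975560)) (c (l 16023880) (l 16034040))) (a (c (l 15951328) (l 15967032)) (c (l 15942576) (l 15947032)))) (b (a (l 16136240) (b (l 16106464) (l 16010904))) (a (l 15984592) (l 15943024))))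 (b (c (a (b (l 16172096) (l 16048744)) (c (l 16194832) (l 16186400))) (a (l 16224800) (l 16198424))) (c (a (l 16019712) (l 15982784)) (a (l 15882544) (l 15940280)))))), by decide +kernel⟩

def k13_pp_011 : ∃ t, chk3 f_pp_011 t 7 3 1 = true :=
  ⟨(b (a (b (l 1) (a (a (b (l 1) (b (l 1) (c (l 630856767623) (l 652331542631)))) (l 1)) (l 1))) (l 1)) (b (a (a (a (b (c (b (l 485364557191) (l 16622888)) (b (l 483753880519) (l 16585208))) (c (l 16503104) (l 16426720))) (b (c (b (l 611529265015) (l 16651824)) (b (l 630856554551) (l 16612440))) (c (b (l 16543928) (l 16439408)) (l 16548952)))) (b (a (c (l 602402210535) (l 622803249671)) (l 1)) (b (c (a (l 16572952) (l 16601624)) (a (l 16529192) (l 16554288))) (c (l 71436836775) (l 108480864295))))) (a (a (b (l 1) (b (l 1) (l 260952318647))) (l 1)) (l 1))) (a (b (a (c (a (l 16246608) (l 16282208)) (b (l 16282896) (l 16174608))) (c (a (l 16316232) (l 16349032)) (a (l 16265256) (l 16287872)))) (a (c (l 16054728) (l 15996488))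 (c (b (l 16175608) (l 16061256)) (c (l 16045496) (l 16030816))))) (a (b (c (a (l 16380864) (l 16426624)) (a (l 16309560) (l 253435803831))) (a (b (l 16187952) (l 16074920)) (c (l 16214888) (l 16105192)))) (a (b (c (l 315713034855) (l 340945810951)) (c (l 16251560) (l 16211360))) (b (l 1) (c (l 16286560) (l 122976239671)))))))), by decide +kernel⟩

theorem s14_pp_011 : ∃ t, chk3 f_pp_011 t 6 13 1 = true := ex3_a k10_pp_011 k11_pp_011

theorem s15_pp_011 : ∃ t, chk3 f_pp_011 t 6 6 1 = true := ex3_b k9_pp_011 s14_pp_011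

theorem s16_pp_011 : ∃ t, chk3 f_pp_011 t 6 3 1 = true := ex3_b s15_pp_011 k12_pp_011

theorem s17_pp_011 : ∃ t, chk3 f_pp_011 t 3 3 1 = true := ex3_a s16_pp_011 k13_pp_011

theorem s18_pp_011 : ∃ t, chk3 f_pp_011 t 3 1 1 = true := ex3_b k8_pp_011 s17_pp_011

theorem s19_pp_011 : ∃ t, chk3 f_pp_011 t 5 3 1 = true := ex3_b k6_pp_011 k7_pp_011

theorem s20_pp_011 : ∃ t, chk3 f_pp_011 t 4 28 1 = true := ex3_b k2_pp_011 k3_pp_011

theorem s21_pp_011 : ∃ t, chk3 f_pp_011 t 4 14 1 = true := ex3_b s20_pp_011 k4_pp_011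

theorem s22_pp_011 : ∃ t, chk3 f_pp_011 t 4 7 1 = true := ex3_b s21_pp_011 k5_pp_011

theorem s23_pp_011 : ∃ t, chk3 f_pp_011 t 4 3 1 = true := ex3_b k1_pp_011 s22_pp_011

theorem s24_pp_011 : ∃ t, chk3 f_pp_011 t 2 3 1 = true := ex3_a s23_pp_011 s19_pp_011

theorem s25_pp_011 : ∃ t, chk3 f_pp_011 t 2 1 1 = true := ex3_b k0_pp_011 s24_pp_011

theorem s26_pp_011 : ∃ t, chk3 f_pp_011 t 1 1 1 = true := ex3_a s25_pp_011 s18_pp_011

theorem c_pp_011 : CertB 0 536870912 536870912 536870912 858993459 64424510 3 eng mog cd3q0 cd0q1 pd1 false true true .pnn 0 1 1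
    ndB3q0 ndB0q1 pcB1 Cut.none Ext.none :=
  certB2 (fam := false) (s1 := true) (s2 := true) (a := 0) (b := 1) (c := 1) (cn := .pnn) (n1 := ndB3q0) (n2 := ndB0q1) (pc := pcB1) (cut := Cut.none) (xt := Ext.none) (P1 := 0) (W1 := 536870912) (P2 := 536870912) (W2 := 536870912) (P3 := 858993459) (W3 := 64424510) (N0 := 3) (En := eng) (mo := mog) (C1 := cd3q0) (C2 := cd0q1) (C3 := pd1)
    rfl (fun _ => rfl) s26_pp_011

noncomputable def f_pp_012 : ℕ → ℕ → ℕ → ℕ → Bool := onCell 536870912 536870912 0 536870912 858993459 64424510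
    (rowB 3 eng mog cd3q0 cd0q2 pd1 2 false true true .pnp 0 1 2 (qsf 0 536870912 0 536870912 1) ndB3q0 ndB0q2 pcB1 Cut.none Ext.none)

def k0_pp_012 : ∃ t, chk3 f_pp_012 t 2 2 1 = true :=
  ⟨(a (a (l 2) (a (l 2) (b (l 2) (b (l 2) (l 15724952))))) (b (a (b (b (l 15365288) (l 15391432)) (b (l 15428472) (l 15481136))) (b (c (l 15423928) (l 15154360)) (l 15380528))) (c (a (b (l 15636360) (l 15699608)) (b (l 15566832) (l 15639176))) (a (b (l 15479104) (l 15626008)) (b (l 15401536) (l 15545520)))))), by decide +kernel⟩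

def k1_pp_012 : ∃ t, chk3 f_pp_012 t 2 3 1 = true :=
  ⟨(a (a (b (l 2) (a (b (l 2) (c (b (c (b (l 15978336) (l 15999376)) (l 16109384)) (c (l 16029456) (l 16118552))) (b (l 16202384) (l 16251480)))) (b (c (b (l 15972272) (l 15992048)) (c (l 16149640) (l 16260736))) (c (b (c (l 16101224) (l 16071016)) (c (l 15993248) (l 16079176))) (b (l 16159240) (l 16208040)))))) (b (b (c (l 15832280) (l 15866200)) (c (b (l 15871768) (l 15981504)) (c (l 15974512) (l 16044016)))) (b (c (c (b (l 15881720) (l 15895744)) (b (l 15966112) (l 16000288))) (c (l 16086784) (l 16127872))) (a (c (b (b (l 15976048) (l 15987936)) (c (l 15963632) (l 16045264))) (b (l 16160888) (l 16168096))) (c (b (c (l 15905832) (l 16009352)) (c (l 15940472) (l 16016672))) (b (l 16165416) (l 16131552))))))) (b (a (b (c (l 15763640) (l 15899000)) (c (c (l 15810200) (l 15848088)) (a (l 15940120) (l 15898176)))) (b (c (l 15714408) (l 15776192)) (c (b (l 15772152) (l 15811008)) (b (l 15803064) (l 15856296)))))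 (b (c (a (c (b (l 15843240) (l 15864280)) (b (l 15909440) (l 15948968))) (c (b (l 15828520) (l 15857224)) (b (l 15871896) (l 15917168)))) (a (c (l 16014080) (l 16102424)) (a (l 16003784) (l 15971256)))) (a (c (b (a (c (l 15891184) (l 15986104)) (c (l 15882912) (l 15967920))) (c (a (l 15923688) (l 15912720)) (a (l 15993272) (l 15974712)))) (b (c (l 16069840) (l 16151200)) (c (l 16051320) (l 16108856)))) (c (b (a (c (l 15880968) (l 15954800)) (c (l 15885504) (l 15946920))) (c (a (l 15906936) (l 15906752)) (a (l 15960592) (l 15951104)))) (b (c (l 16021856) (l 16089376)) (a (l 16041864) (l 16018640)))))))), by decide +kernel⟩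

def k2_pp_012 : ∃ t, chk3 f_pp_012 t 3 2 1 = true :=
  ⟨(a (b (a (b (c (l 15351568) (l 15085880)) (l 15321000)) (b (c (l 15297264) (l 15041520)) (l 15338912))) (a (b (c (l 15514272) (l 15337776)) (c (l 15596424) (l 15478168))) (b (c (l 15477328) (l 15287216)) (c (l 15569784) (l 15423600))))) (b (a (b (l 15143288) (l 15453424)) (b (l 15310056) (a (l 15225728) (l 15215976)))) (a (c (b (l 15453472) (l 15556208)) (b (l 15248584) (l 15380688))) (b (a (l 15335912) (l 15326488)) (a (l 15454880) (l 15446456)))))), by decide +kernel⟩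

def k3_pp_012 : ∃ t, chk3 f_pp_012 t 3 3 1 = true :=
  ⟨(a (b (a (b (c (l 15683840) (l 15665840)) (c (c (l 15778744) (l 15773952)) (a (l 15789832) (l 15759728)))) (b (c (l 15670208) (l 15588792)) (c (a (l 15775696) (l 15780872)) (a (l 15732608) (l 15708352))))) (a (b (c (c (b (l 15837048) (l 15874440)) (l 16132728)) (a (l 15941728) (l 15915280))) (c (b (a (c (l 15896720) (l 15944504)) (l 15930560)) (a (c (l 15912904) (l 15946760)) (c (l 15925784) (l 15948024)))) (b (a (l 16023968) (l 16005600)) (a (l 15999024) (l 15983600))))) (a (b (c (l 15944568) (l 16059704)) (b (c (l 15947696) (l 15990832)) (c (l 15950240) (l 15973240)))) (b (c (l 15896968) (l 15955464)) (c (b (l 15971424) (l 15971320)) (b (l 15979592) (l 15969104))))))) (b (a (a (b (l 15601616) (c (l 15789320) (l 15686704))) (b (l 15593248) (b (l 15697232) (l 15770880)))) (b (a (l 15586400) (c (l 15677464) (l 15477848))) (a (b (l 15693288) (l 15769600)) (b (l 15689224) (c (l 15858816) (l 15671728))))))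 (b (a (a (c (l 15916480) (l 15916776)) (c (l 15938784) (l 15963928))) (a (b (l 15850112) (c (l 15999168) (l 15867552))) (a (b (l 15850872) (l 15938512)) (b (l 15850464) (l 15939528))))) (a (a (b (c (l 16001736) (l 15971424)) (c (l 16001576) (l 15972776))) (b (c (l 16037672) (l 15965152)) (c (l 16045328) (l 15986032)))) (b (a (a (l 16013952) (l 16021632)) (a (l 16027624) (a (l 16030344) (l 16031192)))) (a (a (l 16045704) (c (l 16124744) (l 16011248))) (c (a (l 16166648) (l 16183880)) (a (l 16024568) (b (l 16009360) (l 16032168)))))))))), by decide +kernel⟩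

theorem s4_pp_012 : ∃ t, chk3 f_pp_012 t 3 1 1 = true := ex3_b k2_pp_012 k3_pp_012

theorem s5_pp_012 : ∃ t, chk3 f_pp_012 t 2 1 1 = true := ex3_b k0_pp_012 k1_pp_012

theorem s6_pp_012 : ∃ t, chk3 f_pp_012 t 1 1 1 = true := ex3_a s5_pp_012 s4_pp_012

theorem c_pp_012 : CertB 0 536870912 0 536870912 858993459 64424510 3 eng mog cd3q0 cd0q2 pd1 false true true .pnp 0 1 2
    ndB3q0 ndB0q2 pcB1 Cut.none Ext.none :=
  certB2 (fam := false) (s1 := true) (s2 := true) (a := 0) (b := 1) (c := 2) (cn := .pnp) (n1 := ndB3q0) (n2 := ndB0q2) (pc := pcB1) (cut := Cut.none) (xt := Ext.none) (P1 := 0) (W1 := 536870912) (P2 := 0) (W2 := 536870912) (P3 := 858993459) (W3 := 64424510) (N0 := 3) (En := eng) (mo := mog) (C1 := cd3q0) (C2 := cd0q2) (C3 := pd1)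
    rfl (fun _ => rfl) s6_pp_012

noncomputable def f_pp_022 : ℕ → ℕ → ℕ → ℕ → Bool := onCell 1073741824 536870912 0 536870912 858993459 64424510
    (rowB 3 eng mog cd3q0 cd0q2 pd2 2 false true true .pp 0 2 2 (qsf 0 536870912 0 536870912 2) ndB3q0 ndB0q2 pcB2 Cut.none Ext.none)

def k0_pp_022 : ∃ t, chk3 f_pp_022 t 2 2 1 = true :=
  ⟨(a (b (b (a (a (l 15241816) (l 15438600)) (a (l 15625360) (l 15799416))) (a (a (c (l 15446208) (l 15261552)) (l 15765784)) (a (l 15893584) (l 16114048)))) (a (b (a (c (l 15563400) (l 15396824)) (c (l 15706200) (l 15578376))) (a (c (l 15689088) (a (l 15502072) (l 15586384))) (c (l 15813160) (l 15708752)))) (b (a (c (l 15841416) (l 15748728)) (c (l 15966640) (l 15905248))) (a (c (l 15929672) (l 15861808)) (c (l 16099144) (l 16022248)))))) (a (b (a (b (l 15958072) (c (l 16033568) (l 15976488))) (b (l 1) (l 1))) (a (b (c (l 16079152) (l 16045848)) (c (l 16339912) (l 16104088))) (l 1))) (l 1))), by decide +kernel⟩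

def k1_pp_022 : ∃ t, chk3 f_pp_022 t 4 6 1 = true :=
  ⟨(a (b (a (a (b (l 15695256) (l 15798344)) (b (l 15761888) (l 15839296))) (c (b (l 15902144) (l 15967344)) (a (l 15816656) (l 15887152)))) (a (b (a (c (l 15922912) (l 15802416)) (c (l 15969520) (l 15870856))) (a (c (l 16008328) (l 15919712)) (c (l 16049920) (l 15962464)))) (b (c (a (l 16014616) (l 16057800)) (a (l 15937024) (l 16000488))) (c (a (l 16089912) (l 16127880)) (a (l 16023848) (l 16082416)))))) (b (a (c (b (l 16004192) (l 16059424)) (b (l 15953480) (l 16019944))) (c (b (l 16096064) (l 16182912)) (l 16087776))) (a (b (c (a (l 16098736) (l 16137096)) (a (l 16060896) (l 16117912))) (c (a (l 16163440) (l 139619097255)) (a (l 16137792) (l 16189840)))) (b (c (a (l 16172472) (l 1)) (l 16175664)) (l 1))))), by decide +kernel⟩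

def k2_pp_022 : ∃ t, chk3 f_pp_022 t 16 7 1 = true :=
  ⟨(b (b (a (b (c (l 16074592) (l 15974936)) (c (b (l 16108952) (l 16127072)) (b (l 16014728) (l 16077744)))) (b (c (l 16112336) (l 16035056)) (c (b (l 16144048) (l 16154104)) (b (l 16072176) (l 16084056))))) (a (c (b (l 16133968) (a (l 16131376) (l 16145208))) (b (l 16065008) (a (l 16037024) (l 16061640)))) (c (b (l 16159800) (l 16166448)) (b (l 16090816) (l 16098680))))) (b (a (a (b (c (l 16134704) (l 16040992)) (c (a (l 16134144) (l 16142144)) (a (l 16037632) (l 16051192)))) (b (c (l 16149736) (l 16066920)) (c (l 16154392) (b (l 16070488) (l 16072744))))) (b (a (c (l 16165080) (l 16092952)) (c (l 16180584) (l 16118936))) (a (c (l 16233888) (b (l 16097536) (l 16100456))) (c (l 16187520) (l 16147136))))) (b (b (a (a (c (l 16140936) (a (l 16039592) (l 16053656))) (c (l 16158208) (l 16074936))) (a (c (l 16175632) (l 16103216)) (l 1))) (a (a (c (a (l 16138664) (l 16147496)) (a (l 16040856) (l 16055296)))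 (a (c (l 16156496) (l 16069848)) (c (l 16165496) (l 16084344)))) (l 1))) (a (a (a (c (b (a (l 16138552) (l 16143088)) (a (c (l 16165008) (l 16116240)) (c (l 16169024) (l 16121576)))) (a (b (l 16038472) (c (a (l 16064000) (l 16067384)) (a (l 16011304) (l 16015440)))) (b (l 16045832) (c (a (l 16070760) (l 16074136)) (a (l 16019584) (l 16023712)))))) (b (c (b (l 16149368) (a (l 16148352) (l 16153040))) (b (l 16056552) (a (l 16053680) (l 16061160)))) (b (a (b (a (l 16101104) (l 16104144)) (l 1)) (l 1)) (l 1)))) (a (b (b (c (l 16158592) (l 16071344)) (l 1)) (l 1)) (l 1))) (l 1))))), by decide +kernel⟩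

def k3_pp_022 : ∃ t, chk3 f_pp_022 t 17 7 1 = true :=
  ⟨(b (b (a (b (c (l 16148528) (l 16092896)) (c (l 16175256) (l 16124560))) (b (c (l 16181872) (l 16146928)) (c (l 16201600) (l 16170328)))) (a (c (b (l 16186272) (a (l 16188040) (l 16202408))) (b (l 16137424) (l 16168736))) (c (b (l 16212816) (l 16223744)) (b (l 16183296) (l 16195880))))) (b (a (b (a (c (l 16196040) (l 16144672)) (l 1)) (l 1)) (l 1)) (l 1))), by decide +kernel⟩

def k4_pp_022 : ∃ t, chk3 f_pp_022 t 9 7 1 = true :=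
  ⟨(b (a (b (a (b (c (b (l 16205024) (l 16215480)) (l 16193864)) (c (l 16225968) (l 16213000))) (l 1)) (l 1)) (l 1)) (l 1)), by decide +kernel⟩

def k5_pp_022 : ∃ t, chk3 f_pp_022 t 5 3 1 = true :=
  ⟨(b (l 1) (l 1)), by decide +kernel⟩

def k6_pp_022 : ∃ t, chk3 f_pp_022 t 3 1 1 = true :=
  ⟨(l 1), by decide +kernel⟩

theorem s7_pp_022 : ∃ t, chk3 f_pp_022 t 8 7 1 = true := ex3_a k2_pp_022 k3_pp_022

theorem s8_pp_022 : ∃ t, chk3 f_pp_022 t 4 7 1 = true := ex3_a s7_pp_022 k4_pp_022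

theorem s9_pp_022 : ∃ t, chk3 f_pp_022 t 4 3 1 = true := ex3_b k1_pp_022 s8_pp_022

theorem s10_pp_022 : ∃ t, chk3 f_pp_022 t 2 3 1 = true := ex3_a s9_pp_022 k5_pp_022

theorem s11_pp_022 : ∃ t, chk3 f_pp_022 t 2 1 1 = true := ex3_b k0_pp_022 s10_pp_022

theorem s12_pp_022 : ∃ t, chk3 f_pp_022 t 1 1 1 = true := ex3_a s11_pp_022 k6_pp_022

theorem c_pp_022 : CertB 0 536870912 0 536870912 858993459 64424510 3 eng mog cd3q0 cd0q2 pd2 false true true .pp 0 2 2
    ndB3q0 ndB0q2 pcB2 Cut.none Ext.none :=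
  certB2 (fam := false) (s1 := true) (s2 := true) (a := 0) (b := 2) (c := 2) (cn := .pp) (n1 := ndB3q0) (n2 := ndB0q2) (pc := pcB2) (cut := Cut.none) (xt := Ext.none) (P1 := 0) (W1 := 536870912) (P2 := 0) (W2 := 536870912) (P3 := 858993459) (W3 := 64424510) (N0 := 3) (En := eng) (mo := mog) (C1 := cd3q0) (C2 := cd0q2) (C3 := pd2)
    rfl (fun _ => rfl) s12_pp_022

end Pool.Agent.Strip051.G.I8000_8600.Tab.C.BB30

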