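import Pool.Agent.Strip051.G.I8000_8600.Tab

/-! # Certificates B25 (generated) -/

set_option linter.all false
set_option maxRecDepth 100000

namespace Pool.Agent.Strip051.G.I8000_8600.Tab.C.BB30

open Pool.Agent.Strip051.PB Pool.Agent.Strip051.PB.T
open Pool.Agent.Strip051.G.I8000_8600.Tab

noncomputable def cut_pp_101 : Cut := Cut.of [[⟨0, 1, 0, 67108864⟩, ⟨1, 0, 0, 67108864⟩, ⟨2, 1, 0, 67108864⟩]]

noncomputable def f_pp_101 : ℕ → ℕ → ℕ → ℕ → Bool := onCell 0 536870912 536870912 536870912 858993459 64424510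
    (rowB 3 eng mog cd3q1 cd0q1 pd0 2 false true true .npn 1 0 1 (qsf 536870912 536870912 536870912 536870912 0) ndB3q1 ndB0q1 pcB0 cut_pp_101 Ext.none)

def k0_pp_101 : ∃ t, chk3 f_pp_101 t 1 2 1 = true :=
  ⟨(l 3), by decide +kernel⟩

def k1_pp_101 : ∃ t, chk3 f_pp_101 t 1 6 1 = true :=
  ⟨(l 3), by decide +kernel⟩

def k2_pp_101 : ∃ t, chk3 f_pp_101 t 1 14 1 = true :=
  ⟨(a (l 3) (a (a (l 3) (b (l 3) (b (l 3) (b (a (l 3) (a (l 196662046983) (l 196661998903))) (a (a (l 200420184055) (l 200420153287)) (c (l 102709625991) (l 115594520855))))))) (a (b (l 3) (b (a (a (l 3) (c (l 218673642423) (l 226726699287))) (a (c (l 222431698007) (l 202567525767)) (b (l 1) (l 468184399959)))) (a (b (a (l 199883176743) (l 16497400)) (l 16505760)) (c (l 16473792) (l 16451840))))) (b (l 1) (a (c (l 483216774039) (l 483216781847)) (l 1)))))), by decide +kernel⟩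

def k3_pp_101 : ∃ t, chk3 f_pp_101 t 1 30 1 = true :=
  ⟨(a (a (l 3) (a (a (l 3) (b (l 3) (b (l 3) (b (a (l 3) (a (a (l 3) (l 192367308231)) (c (l 177871805511) (l 176261196247)))) (c (a (a (l 180556198279) (l 16666448)) (l 16649248)) (a (a (l 202567900231) (l 182703664231)) (a (l 16653464) (l 16645920)))))))) (a (b (l 3) (c (b (a (b (l 3) (l 216526479399)) (a (l 217063338263) (l 157470679015))) (a (a (l 16650112) (l 16630368)) (l 16616400))) (a (a (b (l 3) (l 155860068887)) (b (b (l 3) (l 167134374903)) (l 16632440))) (b (a (b (l 3) (l 16644128)) (l 156396940135)) (l 16618776))))) (a (b (l 3) (c (b (l 159618146023) (l 16597880)) (b (l 153712550903) (l 16600656)))) (b (b (l 3) (c (l 241759344631) (l 169281794711))) (c (l 16607824) (l 16610704))))))) (a (a (b (a (a (b (l 3) (c (l 178408576311) (l 174113616023))) (c (b (l 233706234183) (l 16571760)) (b (l 189682855527) (l 16573880)))) (a (c (l 182166629463) (l 181629763751)) (b (l 140290642519) (l 16536904))))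 (a (c (l 16601616) (l 16604496)) (c (l 16524344) (l 16526664)))) (b (a (c (b (l 16543768) (l 16510072)) (l 16555536)) (c (l 16482080) (l 16481184))) (a (l 16511528) (l 16456296)))) (a (a (b (l 16499408) (l 16422248)) (b (l 16433064) (l 16388184))) (a (b (l 16376952) (l 16353920)) (l 16430416))))), by decide +kernel⟩

def k4_pp_101 : ∃ t, chk3 f_pp_101 t 8 31 1 = true :=
  ⟨(b (l 3) (a (l 6) (a (b (b (l 3) (l 6)) (l 6)) (a (a (b (b (l 3) (b (b (l 3) (l 6)) (l 6))) (l 6)) (b (b (l 3) (c (b (l 278803680919) (l 16737200)) (a (b (l 285783000935) (l 16728312)) (b (l 265381900951) (l 16726160))))) (b (c (l 16732432) (l 16702344)) (l 6)))) (b (a (b (l 3) (c (b (l 261086932343) (l 16733000)) (c (b (l 248202039655) (l 16725640)) (l 247128282903)))) (b (b (l 3) (b (l 3) (c (l 390472813703) (l 340006946855)))) (c (b (l 16721472) (l 16728792)) (c (l 16722824) (l 16717176))))) (b (c (l 16736608) (l 16695832)) (c (l 16719656) (l 16711408)))))))), by decide +kernel⟩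

def k5_pp_101 : ∃ t, chk3 f_pp_101 t 9 31 1 = true :=
  ⟨(a (b (a (l 3) (b (l 3) (b (l 3) (a (a (c (l 276656180871) (l 329806379639)) (c (l 252496981847) (l 287393548039))) (c (l 262697489303) (c (l 274508640263) (l 258402527767))))))) (b (b (a (c (a (a (a (l 252496991927) (l 247128278727)) (l 271824329319)) (a (l 262160644887) (l 251960089911))) (a (a (c (l 275582443847) (l 278803657191)) (b (l 363092383751) (l 250886360471))) (c (b (l 251960112583) (l 16712768)) (b (l 263234385719) (l 16707088))))) (c (a (l 235317084375) (l 16705288)) (a (c (l 16706312) (l 16700856)) (l 16675104)))) (c (a (a (a (l 16726152) (l 16721896)) (l 16715520)) (l 16702856)) (a (a (c (l 16703472) (l 16711008)) (l 16684792)) (l 16693960)))) (a (a (b (c (l 16717600) (l 16708336)) (l 16707136)) (b (l 16683800) (l 16698600))) (c (l 16713824) (l 16685120))))) (a (b (b (l 3) (a (b (c (l 280951124471) (l 323900757687)) (c (l 247128217735) (c (l 16686752) (l 241759516727)))) (c (b (l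 276119237719) (l 16695832)) (b (l 268603031191) (l 16687864))))) (b (c (b (l 16693064) (l 16686264)) (a (l 16664648) (l 16657352))) (c (l 16675928) (l 16669400)))) (b (b (b (l 3) (a (l 3) (c (l 195588616215) (l 341617461879)))) (c (a (b (l 261623709639) (l 16688064)) (l 16694448)) (a (b (l 261086824375) (l 16681080)) (a (l 16658504) (l 16655312))))) (b (c (l 16694768) (l 16667808)) (l 16678104))))), by decide +kernel⟩

def k6_pp_101 : ∃ t, chk3 f_pp_101 t 5 31 1 = true :=
  ⟨(a (b (a (a (b (a (b (l 3) (c (l 175724398343) (l 273971718311))) (c (a (l 178945620295) (l 171429420887)) (b (l 291688464727) (l 16664704)))) (c (l 16688584) (b (l 16671696) (l 16664944)))) (c (b (a (l 159618223591) (l 16677800)) (l 16657824)) (b (b (a (l 213842203223) (l 190219871687)) (l 16665264)) (l 16655184)))) (b (a (c (l 16666024) (b (l 16668424) (l 16651248))) (c (l 16637936) (l 16639816))) (c (a (l 16640376) (l 16622440)) (l 16654776)))) (a (b (c (l 16683152) (l 16648440))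 (c (l 16636584) (l 16634928))) (c (b (l 16615816) (l 16600424)) (l 16609296)))) (b (b (a (c (l 16641888) (l 16633664)) (l 16614416)) (a (c (l 16595144) (l 16596952)) (l 16559840))) (a (c (l 16572224) (l 16572568)) (l 16536600)))), by decide +kernel⟩

def k7_pp_101 : ∃ t, chk3 f_pp_101 t 3 31 1 = true :=
  ⟨(a (a (b (a (l 16552720) (l 16496736)) (l 16546976)) (a (l 16510704) (l 16414472))) (a (a (l 16381456) (l 16348552)) (l 16445720))), by decide +kernel⟩

theorem s8_pp_101 : ∃ t, chk3 f_pp_101 t 4 31 1 = true := ex3_a k4_pp_101 k5_pp_101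

theorem s9_pp_101 : ∃ t, chk3 f_pp_101 t 2 31 1 = true := ex3_a s8_pp_101 k6_pp_101

theorem s10_pp_101 : ∃ t, chk3 f_pp_101 t 1 31 1 = true := ex3_a s9_pp_101 k7_pp_101

theorem s11_pp_101 : ∃ t, chk3 f_pp_101 t 1 15 1 = true := ex3_b k3_pp_101 s10_pp_101

theorem s12_pp_101 : ∃ t, chk3 f_pp_101 t 1 7 1 = true := ex3_b k2_pp_101 s11_pp_101

theorem s13_pp_101 : ∃ t, chk3 f_pp_101 t 1 3 1 = true := ex3_b k1_pp_101 s12_pp_101

theorem s14_pp_101 : ∃ t, chk3 f_pp_101 t 1 1 1 = true := ex3_b k0_pp_101 s13_pp_101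

theorem c_pp_101 : CertB 536870912 536870912 536870912 536870912 858993459 64424510 3 eng mog cd3q1 cd0q1 pd0 false true true .npn 1 0 1
    ndB3q1 ndB0q1 pcB0 cut_pp_101 Ext.none :=
  certB2 (fam := false) (s1 := true) (s2 := true) (a := 1) (b := 0) (c := 1) (cn := .npn) (n1 := ndB3q1) (n2 := ndB0q1) (pc := pcB0) (cut := cut_pp_101) (xt := Ext.none) (P1 := 536870912) (W1 := 536870912) (P2 := 536870912) (W2 := 536870912) (P3 := 858993459) (W3 := 64424510) (N0 := 3) (En := eng) (mo := mog) (C1 := cd3q1) (C2 := cd0q1) (C3 := pd0)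
    rfl (fun _ => rfl) s14_pp_101

noncomputable def cut_pp_102 : Cut := Cut.of [[⟨0, 1, 0, 67108864⟩, ⟨1, 0, 0, 67108864⟩, ⟨2, 1, 0, 67108864⟩]]

noncomputable def f_pp_102 : ℕ → ℕ → ℕ → ℕ → Bool := onCell 0 536870912 0 536870912 858993459 64424510
    (rowB 3 eng mog cd3q1 cd0q2 pd0 2 false true true .npp 1 0 2 (qsf 536870912 536870912 0 536870912 0) ndB3q1 ndB0q2 pcB0 cut_pp_102 Ext.none)

def k0_pp_102 : ∃ t, chk3 f_pp_102 t 2 2 1 = true :=
  ⟨(a (b (l 2) (a (l 2) (a (l 2) (a (l 2) (b (l 2) (a (l 2) (l 15673208))))))) (a (b (a (a (l 2) (b (l 15172992) (l 15140048))) (b (b (l 14970784) (l 15263224)) (a (l 15156672) (l 15173728)))) (a (a (b (c (l 15388864) (l 15245160)) (a (l 15534480) (l 15543984))) (b (c (l 15406848) (l 15263528)) (b (l 15500384) (l 15640808)))) (b (a (l 15396880) (l 15374568)) (a (b (l 15520472) (l 15638504)) (b (l 15541376) (l 15654872)))))) (b (b (a (b (l 15001872) (l 15060104)) (b (l 15031696) (l 15088680))) (a (c (l 15290384)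 (l 15108272)) (a (l 15222888) (l 15229688)))) (a (b (a (l 15394776) (l 15415480)) (a (b (l 15563152) (l 15670896)) (b (l 15586224) (l 15688528)))) (b (a (l 15426680) (l 15423928)) (b (a (l 15591656) (l 15577760)) (l 15684440))))))), by decide +kernel⟩

def k1_pp_102 : ∃ t, chk3 f_pp_102 t 4 3 1 = true :=
  ⟨(b (a (l 2) (a (b (l 2) (b (a (l 2) (l 16015680)) (a (l 16249696) (l 16131768)))) (a (b (b (l 15996216) (l 15861120)) (b (l 15980568) (l 16102640))) (b (b (a (l 15720080) (l 15832992)) (a (l 15836936) (l 15825104))) (b (a (l 15957360) (l 15947248)) (a (l 16083400) (l 16074936))))))) (b (a (a (l 2) (b (a (l 2) (b (l 2) (l 16323880))) (a (l 6) (b (l 16382168) (l 16442472))))) (a (b (a (b (l 16250728) (l 16308824)) (l 16252752)) (a (a (l 16404648) (l 16393384)) (b (l 16345760) (l 16410128)))) (a (b (l 16229448) (l 16360568)) (b (a (l 16214080) (l 16207184)) (a (l 16348936) (l 16343504)))))) (a (a (l 6) (a (l 6) (a (l 6) (b (b (l 16503224) (l 16566792))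 (b (b (l 16615208) (l 16646368)) (b (l 16673384) (l 16699616))))))) (a (b (a (b (l 16492368) (l 16583320)) (b (l 16476384) (l 16544112))) (b (a (b (a (l 16609376) (l 16603576)) (a (l 16639056) (l 16631800))) (b (l 16593736) (l 16620376))) (a (c (l 16679224) (l 16668760)) (l 16657872)))) (b (a (b (l 16462760) (l 16533512)) (b (l 16451632) (b (l 16505464) (l 16540496)))) (b (a (l 16550376) (l 16578960)) (a (l 16641864) (l 16626448)))))))), by decide +kernel⟩

def k2_pp_102 : ∃ t, chk3 f_pp_102 t 5 3 1 = true :=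
  ⟨(a (b (a (b (a (b (a (l 15712192) (l 15719360)) (l 15834256)) (a (l 15784128) (l 15792560))) (a (b (l 15954608) (l 16080352)) (b (l 15964032) (l 16087200)))) (b (a (l 15803088) (l 15815744)) (b (l 16105264) (l 16224008)))) (b (a (b (a (l 16210512) (l 16214592)) (a (l 16344576) (l 16345616))) (b (l 16304680) (l 16346624))) (b (a (b (l 16448096) (a (l 16517080) (l 16511456))) (b (l 16443408) (l 16500584))) (a (b (l 16563024) (l 16607384)) (b (l 16541832) (l 16581520)))))) (b (b (a (l 15960784) (l 15857424)) (a (b (l 15995744) (l 16109168)) (b (l 15995928) (l 16107808)))) (b (a (b (l 16225952) (l 16345304)) (b (l 16222472) (l 16338928))) (b (a (l 16459784) (b (l 16363040) (l 16465472))) (a (l 16537320) (l 16511936)))))), by decide +kernel⟩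

def k3_pp_102 : ∃ t, chk3 f_pp_102 t 3 1 1 = true :=
  ⟨(b (a (b (a (b (a (l 15278448) (l 15117160)) (a (l 15238744) (l 15248968))) (b (a (l 15145984) (l 15176408)) (a (l 15257472) (l 15264656)))) (a (b (a (b (l 15370096) (l 15468784)) (b (l 15364008) (l 15450200))) (a (l 15732136) (l 15595592))) (b (a (l 15587008) (l 15595576)) (a (l 15585776) (l 15582176))))) (b (a (b (l 15456232) (a (l 15270832) (l 15278192))) (b (a (l 15277712) (l 15314592)) (a (l 15287200) (l 15298808)))) (a (b (a (l 15444112) (l 15387472)) (l 15839256)) (b (l 15415200) (l 15760208))))) (a (b (b (a (a (l 15818392) (l 15806640)) (a (l 15799768) (l 15797264))) (a (a (b (l 15982024) (l 16095920)) (l 16030912)) (a (l 16024912) (l 16021392)))) (b (a (a (b (l 16211936) (l 16328800)) (b (l 16203464) (l 16319288))) (b (c (l 16216112) (l 16169112)) (l 16305024))) (a (b (a (l 16428288) (l 16411264)) (l 16472648)) (b (b (l 16375240) (l 16394976)) (l 16417824))))) (b (b (a (a (l 15798744) (l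 15803936)) (a (l 15812656) (l 15824760))) (a (a (l 16020056) (l 16020712)) (a (l 16023208) (l 16006480)))) (b (a (b (l 16098296) (l 16285144)) (c (l 16238728) (l 16202928))) (a (b (l 16346504) (l 16361096)) (b (l 16307496) (l 16300576))))))), by decide +kernel⟩

theorem s4_pp_102 : ∃ t, chk3 f_pp_102 t 2 3 1 = true := ex3_a k1_pp_102 k2_pp_102

theorem s5_pp_102 : ∃ t, chk3 f_pp_102 t 2 1 1 = true := ex3_b k0_pp_102 s4_pp_102

theorem s6_pp_102 : ∃ t, chk3 f_pp_102 t 1 1 1 = true := ex3_a s5_pp_102 k3_pp_102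

theorem c_pp_102 : CertB 536870912 536870912 0 536870912 858993459 64424510 3 eng mog cd3q1 cd0q2 pd0 false true true .npp 1 0 2
    ndB3q1 ndB0q2 pcB0 cut_pp_102 Ext.none :=
  certB2 (fam := false) (s1 := true) (s2 := true) (a := 1) (b := 0) (c := 2) (cn := .npp) (n1 := ndB3q1) (n2 := ndB0q2) (pc := pcB0) (cut := cut_pp_102) (xt := Ext.none) (P1 := 536870912) (W1 := 536870912) (P2 := 0) (W2 := 536870912) (P3 := 858993459) (W3 := 64424510) (N0 := 3) (En := eng) (mo := mog) (C1 := cd3q1) (C2 := cd0q2) (C3 := pd0)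
    rfl (fun _ => rfl) s6_pp_102

noncomputable def f_pp_112 : ℕ → ℕ → ℕ → ℕ → Bool := onCell 536870912 536870912 0 536870912 858993459 64424510
    (rowB 3 eng mog cd3q1 cd0q2 pd1 2 false true true .dn 1 1 2 (qsf 536870912 536870912 0 536870912 1) ndB3q1 ndB0q2 pcB1 Cut.none Ext.none)

def k0_pp_112 : ∃ t, chk3 f_pp_112 t 1 1 1 = true :=
  ⟨(a (b (a (b (c (b (l 15607648) (a (l 15558976) (l 15573208))) (b (l 15373400) (a (l 15416952) (l 15443240)))) (a (b (l 15707048) (c (l 15716176) (l 15754024))) (c (l 15925248) (b (l 15603488) (l 15776040))))) (a (b (b (l 140154711815) (b (l 15477496) (l 15533648))) (c (l 15911552) (l 518111838215))) (l 1))) (a (a (b (c (b (l 15799768) (c (l 15832312) (l 15941808))) (b (l 15943280) (c (l 16063552) (l 16194696)))) (b (c (c (b (l 15877000) (l 15904960)) (b (l 16020832) (l 16070208))) (c (l 16208720) (l 16297880))) (a (c (c (b (b (l 15929624) (l 15961256)) (l 16005744)) (b (l 16111192) (l 16136824))) (b (l 16148416) (l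 16205840))) (b (c (c (l 232497401367) (l 16100144)) (l 16189664)) (l 1))))) (b (b (c (l 15808824) (l 15949648)) (c (c (l 15835896) (l 15939288)) (c (l 16054344) (l 16178056)))) (b (b (c (l 432212999543) (l 16220384)) (l 1)) (l 1)))) (b (l 1) (l 1)))) (l 1)), by decide +kernel⟩

theorem c_pp_112 : CertB 536870912 536870912 0 536870912 858993459 64424510 3 eng mog cd3q1 cd0q2 pd1 false true true .dn 1 1 2
    ndB3q1 ndB0q2 pcB1 Cut.none Ext.none :=
  certB2 (fam := false) (s1 := true) (s2 := true) (a := 1) (b := 1) (c := 2) (cn := .dn) (n1 := ndB3q1) (n2 := ndB0q2) (pc := pcB1) (cut := Cut.none) (xt := Ext.none) (P1 := 536870912) (W1 := 536870912) (P2 := 0) (W2 := 536870912) (P3 := 858993459) (W3 := 64424510) (N0 := 3) (En := eng) (mo := mog) (C1 := cd3q1) (C2 := cd0q2) (C3 := pd1)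
    rfl (fun _ => rfl) k0_pp_112

noncomputable def f_pp_202 : ℕ → ℕ → ℕ → ℕ → Bool := onCell 1073741824 536870912 0 536870912 858993459 64424510
    (rowB 3 eng mog cd3q2 cd0q2 pd0 0 false true true .pp 2 0 2 (qsf 1073741824 536870912 0 536870912 0) ndB3q2 ndB0q2 pcB0 Cut.none Ext.none)

def k0_pp_202 : ∃ t, chk3 f_pp_202 t 1 1 1 = true :=
  ⟨(a (b (a (b (a (b (a (b (b (c (a (a (b (l 16458584) (l 100562010359)) (l 94119558071)) (l 97340836279)) (a (a (b (l 16437800) (l 103246323351)) (l 97340777479)) (l 101098885143))) (l 3)) (l 3)) (l 3)) (l 3)) (l 3)) (l 3)) (l 3)) (l 3)) (l 1)), by decide +kernel⟩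

theorem c_pp_202 : CertB 1073741824 536870912 0 536870912 858993459 64424510 3 eng mog cd3q2 cd0q2 pd0 false true true .pp 2 0 2
    ndB3q2 ndB0q2 pcB0 Cut.none Ext.none :=
  certB0 (fam := false) (s1 := true) (s2 := true) (a := 2) (b := 0) (c := 2) (cn := .pp) (n1 := ndB3q2) (n2 := ndB0q2) (pc := pcB0) (cut := Cut.none) (xt := Ext.none) (P1 := 1073741824) (W1 := 536870912) (P2 := 0) (W2 := 536870912) (P3 := 858993459) (W3 := 64424510) (N0 := 3) (En := eng) (mo := mog) (C1 := cd3q2) (C2 := cd0q2) (C3 := pd0)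
    rfl k0_pp_202

noncomputable def f_pm_001 : ℕ → ℕ → ℕ → ℕ → Bool := onCell 0 536870912 536870912 536870912 858993459 64424510
    (rowB 3 eng mog cd3q0 cd0q1 pd0 0 false true false .up 0 0 1 (qsf 0 536870912 536870912 536870912 0) ndB3q0 ndB0q1 pcB0 Cut.none Ext.none)

def k0_pm_001 : ∃ t, chk3 f_pm_001 t 1 1 1 = true :=
  ⟨(l 4), by decide +kernel⟩

theorem c_pm_001 : CertB 0 536870912 536870912 536870912 858993459 64424510 3 eng mog cd3q0 cd0q1 pd0 false true false .up 0 0 1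
    ndB3q0 ndB0q1 pcB0 Cut.none Ext.none :=
  certB0 (fam := false) (s1 := true) (s2 := false) (a := 0) (b := 0) (c := 1) (cn := .up) (n1 := ndB3q0) (n2 := ndB0q1) (pc := pcB0) (cut := Cut.none) (xt := Ext.none) (P1 := 0) (W1 := 536870912) (P2 := 536870912) (W2 := 536870912) (P3 := 858993459) (W3 := 64424510) (N0 := 3) (En := eng) (mo := mog) (C1 := cd3q0) (C2 := cd0q1) (C3 := pd0)
    rfl k0_pm_001

noncomputable def f_pm_011 : ℕ → ℕ → ℕ → ℕ → Bool := onCell 0 536870912 536870912 536870912 858993459 64424510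
    (rowB 3 eng mog cd3q0 cd0q1 pd1 0 false true false .pnn 0 1 1 (qsf 0 536870912 536870912 536870912 1) ndB3q0 ndB0q1 pcB1 Cut.none Ext.none)

def k0_pm_011 : ∃ t, chk3 f_pm_011 t 1 1 1 = true :=
  ⟨(l 4), by decide +kernel⟩

theorem c_pm_011 : CertB 0 536870912 536870912 536870912 858993459 64424510 3 eng mog cd3q0 cd0q1 pd1 false true false .pnn 0 1 1
    ndB3q0 ndB0q1 pcB1 Cut.none Ext.none :=
  certB0 (fam := false) (s1 := true) (s2 := false) (a := 0) (b := 1) (c := 1) (cn := .pnn) (n1 := ndB3q0) (n2 := ndB0q1) (pc := pcB1) (cut := Cut.none) (xt := Ext.none) (P1 := 0) (W1 := 536870912) (P2 := 536870912) (W2 := 536870912) (P3 := 858993459) (W3 := 64424510) (N0 := 3) (En := eng) (mo := mog) (C1 := cd3q0) (C2 := cd0q1) (C3 := pd1)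
    rfl k0_pm_011

noncomputable def f_pm_012 : ℕ → ℕ → ℕ → ℕ → Bool := onCell 0 536870912 0 536870912 858993459 64424510
    (rowB 3 eng mog cd3q0 cd0q2 pd1 0 false true false .pnp 0 1 2 (qsf 0 536870912 0 536870912 1) ndB3q0 ndB0q2 pcB1 Cut.none Ext.none)

def k0_pm_012 : ∃ t, chk3 f_pm_012 t 1 1 1 = true :=
  ⟨(b (b (a (a (l 2) (b (a (a (l 62374707303) (l 15085672)) (a (c (l 15170984) (l 14936640)) (c (l 15191344) (l 14948152)))) (l 4))) (b (a (a (c (a (l 15215152) (l 15242272)) (a (l 14964040) (l 14984272))) (c (l 15269168) (l 15019920))) (a (b (l 15213920) (l 15205128)) (b (l 15300008) (l 15288584)))) (a (b (a (l 567704614167) (l 15348872)) (l 4)) (a (l 15479936) (l 15304320))))) (a (l 4) (l 4))) (l 4)), by decide +kernel⟩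

theorem c_pm_012 : CertB 0 536870912 0 536870912 858993459 64424510 3 eng mog cd3q0 cd0q2 pd1 false true false .pnp 0 1 2
    ndB3q0 ndB0q2 pcB1 Cut.none Ext.none :=
  certB0 (fam := false) (s1 := true) (s2 := false) (a := 0) (b := 1) (c := 2) (cn := .pnp) (n1 := ndB3q0) (n2 := ndB0q2) (pc := pcB1) (cut := Cut.none) (xt := Ext.none) (P1 := 0) (W1 := 536870912) (P2 := 0) (W2 := 536870912) (P3 := 858993459) (W3 := 64424510) (N0 := 3) (En := eng) (mo := mog) (C1 := cd3q0) (C2 := cd0q2) (C3 := pd1)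
    rfl k0_pm_012

noncomputable def f_pm_022 : ℕ → ℕ → ℕ → ℕ → Bool := onCell 1073741824 536870912 0 536870912 858993459 64424510
    (rowB 3 eng mog cd3q0 cd0q2 pd2 2 false true false .pp 0 2 2 (qsf 0 536870912 0 536870912 2) ndB3q0 ndB0q2 pcB2 Cut.none Ext.none)

def k0_pm_022 : ∃ t, chk3 f_pm_022 t 1 1 1 = true :=
  ⟨(a (b (a (b (b (a (a (c (l 15249000) (l 15052056)) (l 15575976)) (a (l 15736920) (l 15968032))) (l 4)) (l 4)) (a (b (b (a (l 16182520) (l 1)) (l 4)) (l 4)) (l 1))) (a (l 4) (b (l 1) (l 1)))) (l 1)), by decide +kernel⟩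

theorem c_pm_022 : CertB 0 536870912 0 536870912 858993459 64424510 3 eng mog cd3q0 cd0q2 pd2 false true false .pp 0 2 2
    ndB3q0 ndB0q2 pcB2 Cut.none Ext.none :=
  certB2 (fam := false) (s1 := true) (s2 := false) (a := 0) (b := 2) (c := 2) (cn := .pp) (n1 := ndB3q0) (n2 := ndB0q2) (pc := pcB2) (cut := Cut.none) (xt := Ext.none) (P1 := 0) (W1 := 536870912) (P2 := 0) (W2 := 536870912) (P3 := 858993459) (W3 := 64424510) (N0 := 3) (En := eng) (mo := mog) (C1 := cd3q0) (C2 := cd0q2) (C3 := pd2)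
    rfl (fun _ => rfl) k0_pm_022

noncomputable def f_pm_101 : ℕ → ℕ → ℕ → ℕ → Bool := onCell 536870912 536870912 536870912 536870912 858993459 64424510
    (rowB 3 eng mog cd3q1 cd0q1 pd0 0 false true false .npn 1 0 1 (qsf 536870912 536870912 536870912 536870912 0) ndB3q1 ndB0q1 pcB0 Cut.none Ext.none)

def k0_pm_101 : ∃ t, chk3 f_pm_101 t 1 1 1 = true :=
  ⟨(l 4), by decide +kernel⟩

theorem c_pm_101 : CertB 536870912 536870912 536870912 536870912 858993459 64424510 3 eng mog cd3q1 cd0q1 pd0 false true false .npn 1 0 1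
    ndB3q1 ndB0q1 pcB0 Cut.none Ext.none :=
  certB0 (fam := false) (s1 := true) (s2 := false) (a := 1) (b := 0) (c := 1) (cn := .npn) (n1 := ndB3q1) (n2 := ndB0q1) (pc := pcB0) (cut := Cut.none) (xt := Ext.none) (P1 := 536870912) (W1 := 536870912) (P2 := 536870912) (W2 := 536870912) (P3 := 858993459) (W3 := 64424510) (N0 := 3) (En := eng) (mo := mog) (C1 := cd3q1) (C2 := cd0q1) (C3 := pd0)
    rfl k0_pm_101

noncomputable def f_pm_102 : ℕ → ℕ → ℕ → ℕ → Bool := onCell 536870912 536870912 0 536870912 858993459 64424510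
    (rowB 3 eng mog cd3q1 cd0q2 pd0 0 false true false .npp 1 0 2 (qsf 536870912 536870912 0 536870912 0) ndB3q1 ndB0q2 pcB0 Cut.none Ext.none)

def k0_pm_102 : ∃ t, chk3 f_pm_102 t 1 1 1 = true :=
  ⟨(a (b (b (a (l 2) (a (b (l 15341752) (l 15333104)) (b (l 15251184) (l 15253976)))) (b (a (l 2) (a (b (l 15333352) (l 4)) (c (l 15328888) (l 15186680)))) (l 4))) (l 4)) (b (a (b (a (b (l 15164432) (l 15158496)) (b (l 15080600) (l 15052504))) (a (b (b (l 15153936) (l 15148656)) (l 4)) (b (l 15209392) (a (l 4) (l 14945744))))) (b (a (b (l 14997680) (l 14980976)) (b (a (l 14934248) (l 14889720)) (a (l 14850136) (l 14787840)))) (a (b (l 15104480) (a (l 14855872) (l 14802088))) (b (a (l 14758032) (l 14677216)) (a (b (l 14678184) (l 14637968)) (b (l 14581640) (l 14526392))))))) (l 4))), by decide +kernel⟩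

theorem c_pm_102 : CertB 536870912 536870912 0 536870912 858993459 64424510 3 eng mog cd3q1 cd0q2 pd0 false true false .npp 1 0 2
    ndB3q1 ndB0q2 pcB0 Cut.none Ext.none :=
  certB0 (fam := false) (s1 := true) (s2 := false) (a := 1) (b := 0) (c := 2) (cn := .npp) (n1 := ndB3q1) (n2 := ndB0q2) (pc := pcB0) (cut := Cut.none) (xt := Ext.none) (P1 := 536870912) (W1 := 536870912) (P2 := 0) (W2 := 536870912) (P3 := 858993459) (W3 := 64424510) (N0 := 3) (En := eng) (mo := mog) (C1 := cd3q1) (C2 := cd0q2) (C3 := pd0)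
    rfl k0_pm_102

noncomputable def f_pm_112 : ℕ → ℕ → ℕ → ℕ → Bool := onCell 536870912 536870912 0 536870912 858993459 64424510
    (rowB 3 eng mog cd3q1 cd0q2 pd1 2 false true false .dn 1 1 2 (qsf 536870912 536870912 0 536870912 1) ndB3q1 ndB0q2 pcB1 Cut.none Ext.none)

def k0_pm_112 : ∃ t, chk3 f_pm_112 t 1 1 1 = true :=
  ⟨(a (b (a (b (b (a (l 15395848) (l 15408000)) (l 15384936)) (a (l 15419944) (l 4))) (b (a (b (l 15599392) (l 15370160)) (l 1)) (l 4))) (l 4)) (l 1)), by decide +kernel⟩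

theorem c_pm_112 : CertB 536870912 536870912 0 536870912 858993459 64424510 3 eng mog cd3q1 cd0q2 pd1 false true false .dn 1 1 2
    ndB3q1 ndB0q2 pcB1 Cut.none Ext.none :=
  certB2 (fam := false) (s1 := true) (s2 := false) (a := 1) (b := 1) (c := 2) (cn := .dn) (n1 := ndB3q1) (n2 := ndB0q2) (pc := pcB1) (cut := Cut.none) (xt := Ext.none) (P1 := 536870912) (W1 := 536870912) (P2 := 0) (W2 := 536870912) (P3 := 858993459) (W3 := 64424510) (N0 := 3) (En := eng) (mo := mog) (C1 := cd3q1) (C2 := cd0q2) (C3 := pd1)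
    rfl (fun _ => rfl) k0_pm_112

noncomputable def f_pm_202 : ℕ → ℕ → ℕ → ℕ → Bool := onCell 0 536870912 0 536870912 858993459 64424510
    (rowB 3 eng mog cd3q2 cd0q2 pd0 2 false true false .pp 2 0 2 (qsf 1073741824 536870912 0 536870912 0) ndB3q2 ndB0q2 pcB0 Cut.none Ext.none)

def k0_pm_202 : ∃ t, chk3 f_pm_202 t 4 4 1 = true :=
  ⟨(a (b (a (b (l 3) (c (a (a (b (l 16319216) (l 16317784)) (b (l 16326496) (l 16323544))) (b (c (l 108078075559) (l 16313752)) (b (a (l 16310176) (l 16336424)) (l 16336072)))) (a (b (c (l 166596669783) (a (l 546164259783) (l 156932848791))) (a (b (c (l 16226488) (l 16160040)) (l 16202120)) (c (l 16241024) (l 16179192)))) (b (c (l 151564350423) (l 155859184759)) (c (l 16259232) (a (l 16195032) (l 16211304))))))) (b (b (l 3) (a (a (l 3) (l 159617570711)) (c (l 117204790503) (l 113983490311)))) (b (c (a (a (l 16347792) (l 16355504)) (l 16367272)) (a (a (l 16256448) (l 16271216)) (l 16293064))) (c (a (b (l 16348104) (l 16348808))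 (l 16385064)) (a (a (l 16253704) (l 16268432)) (l 16290752)))))) (b (a (c (a (l 16338400) (l 16350064)) (a (l 16228728) (l 16253656))) (c (l 16369840) (l 16293544))) (c (a (l 16349168) (l 16395104)) (a (l 16273968) (l 16323256))))) (a (a (b (b (b (l 3) (c (l 108615052711) (l 16345584))) (c (b (l 16383208) (l 16380432)) (b (l 16321112) (l 16319640)))) (c (b (l 16395296) (l 16426776)) (l 16292824))) (b (b (c (b (l 16428576) (l 16402552)) (b (l 16353488) (l 16349760))) (c (b (l 16399232) (l 16397168)) (l 16348352))) (b (c (l 16416792) (l 16371200)) (l 16440288)))) (b (b (c (a (b (l 114520660887) (l 16417048)) (b (c (l 16440376) (l 16424056)) (l 16430928))) (a (b (l 16396528) (l 16373936)) (b (l 115594370471) (l 16396896)))) (a (c (l 16435576) (l 16374320)) (c (l 16429608) (l 16398984)))) (b (a (c (l 16436064) (l 16401368)) (c (l 16350000) (l 16388584))) (a (l 16475776) (a (l 16500640) (l 16514616))))))), by decide +kernel⟩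

def k1_pm_202 : ∃ t, chk3 f_pm_202 t 4 5 1 = true :=
  ⟨(a (b (a (b (c (l 16405784) (l 16251728)) (a (b (l 16328192) (l 16436544)) (c (l 16452336) (l 16245112)))) (b (c (l 16425744) (l 16355808)) (c (l 16447264) (a (l 16388032) (l 16404536))))) (a (c (c (l 16474856) (l 16508536)) (l 16381912)) (a (b (l 16374872) (l 16455040)) (b (b (l 16454520) (l 16526328)) (l 16468840))))) (a (b (a (c (l 16484176) (l 16433144)) (c (l 16533608) (l 16496576))) (b (a (b (l 16518160) (l 16404528)) (b (l 16554472) (l 16347768))) (a (l 16357488) (b (l 16364320) (l 16410776))))) (a (b (c (l 16543520) (l 16554288)) (b (l 16376256) (b (a (l 16397128) (l 16413440)) (l 16412224)))) (b (a (l 16393688) (c (l 16519448) (l 16539624))) (b (a (l 16467976) (l 16386712)) (a (b (l 16428016) (l 16397864)) (b (l 16386920) (a (b (l 16388800) (l 16370168)) (l 16375736))))))))), by decide +kernel⟩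

def k2_pm_202 : ∃ t, chk3 f_pm_202 t 5 2 1 = true :=
  ⟨(a (a (a (b (b (b (c (b (l 16465152) (l 16443272)) (b (l 16416208) (l 16417712))) (c (l 16442368) (l 16420640))) (b (b (l 16423064) (l 16475528)) (l 16525096))) (b (a (l 16359648) (l 16379752)) (b (a (l 16446128) (l 16443736)) (a (b (l 16403880) (l 1)) (l 1))))) (b (b (b (c (b (l 87542922167) (l 16455168)) (a (l 16431912) (l 16441808))) (c (l 16454312) (l 16440944))) (b (b (l 16437536) (l 16489544)) (l 16538984))) (b (a (l 16378792) (l 1)) (l 1)))) (b (b (l 1) (l 1)) (l 1))) (l 1)), by decide +kernel⟩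

def k3_pm_202 : ∃ t, chk3 f_pm_202 t 2 6 1 = true :=
  ⟨(a (a (b (a (c (b (l 16418440) (l 16492464)) (a (l 16330384) (l 16328728))) (c (a (l 16280248) (l 16268536)) (a (l 16327576) (l 16285144)))) (a (b (c (a (l 16311248) (l 16311368)) (l 16298072)) (c (a (l 16253224) (l 16247776)) (a (l 16244240) (l 16224016)))) (b (c (a (l 16311872) (l 16312864)) (a (l 16300712) (l 16288568))) (a (c (l 16242560) (l 16203608)) (b (l 16254896) (c (l 16217888) (l 16155784))))))) (a (b (b (a (c (l 16442040) (l 16460160)) (c (l 16415552) (l 16420192))) (c (a (l 16375024) (l 16349824)) (a (l 16366240) (l 16326168)))) (b (c (a (l 16303624) (l 208875449047)) (a (l 16264752) (b (l 16251064) (l 16198760)))) (b (a (c (l 16246432) (l 16183520)) (c (l 16225176) (l 468720568855))) (a (c (l 16206368) (l 16127136)) (l 1))))) (b (b (a (c (l 16382664) (l 16373216)) (a (l 460668096487) (c (l 392485470647) (l 565357851351)))) (a (c (l 16319104) (l 348998752999)) (l 1))) (a (b (c (l 311417727719)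 (b (l 16205856) (l 1))) (l 1)) (l 1))))) (l 1)), by decide +kernel⟩

def k4_pm_202 : ∃ t, chk3 f_pm_202 t 2 7 1 = true :=
  ⟨(a (b (b (a (b (a (a (b (l 16201712) (c (l 16196400) (l 16167128))) (c (l 16195072) (l 16151832))) (a (c (l 16186368) (l 16126200)) (c (l 16177136) (l 16099512)))) (c (a (a (l 16164136) (b (l 16189624) (l 16145360))) (a (b (l 16155504) (l 16137504)) (b (l 16145832) (a (l 16127696) (l 16120480))))) (a (a (l 16127784) (b (l 16116392) (l 16088176))) (a (b (l 16105312) (a (l 16066584) (l 16052560))) (b (l 16056288) (a (l 16035480) (l 322691444855))))))) (a (a (b (c (l 197600816743) (l 295311099991)) (a (b (l 491805825719) (l 1)) (l 1))) (l 1)) (l 1))) (a (a (a (c (b (l 16116992) (l 16066960)) (b (l 16071392) (l 16011456))) (c (b (l 16110120) (l 16060656)) (b (l 16045904) (l 15986472)))) (a (b (c (l 16101312) (l 16017200)) (c (l 182031377031) (a (l 15966000) (l 15951712)))) (b (c (l 221222971111) (a (l 15993984) (l 373157144567))) (c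 (l 285647375431) (l 434897226263))))) (l 1))) (a (b (b (a (a (c (l 16076752) (l 15947520)) (c (a (l 16009896) (l 16006992)) (a (l 15929624) (l 15917008)))) (a (a (b (l 264709449735) (l 354903636407)) (l 1)) (l 1))) (a (a (a (c (l 15959112) (l 15885176)) (c (l 15957088) (l 15874048))) (a (c (l 15955096) (l 15862608)) (c (l 295310982487) (l 374767734471)))) (l 1))) (a (a (a (a (b (c (l 15901184) (l 15815776)) (b (a (l 15892400) (l 15849128)) (c (l 15825336) (l 15720752)))) (b (c (l 15900456) (l 15810560)) (c (b (l 269541053511) (l 298532036791)) (b (l 15754560) (l 391947350583))))) (a (b (b (l 15869184) (c (l 15885136) (l 15786984))) (b (b (l 15874568) (l 1)) (l 1))) (b (b (l 15866296) (l 391947703847)) (l 1)))) (a (b (b (c (l 15913208) (l 15810456)) (l 1)) (l 1)) (l 1))) (l 1))) (l 1))) (l 1)), by decide +kernel⟩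

def k5_pm_202 : ∃ t, chk3 f_pm_202 t 3 1 1 = true :=
  ⟨(l 1), by decide +kernel⟩

theorem s6_pm_202 : ∃ t, chk3 f_pm_202 t 2 3 1 = true := ex3_b k3_pm_202 k4_pm_202

theorem s7_pm_202 : ∃ t, chk3 f_pm_202 t 4 2 1 = true := ex3_b k0_pm_202 k1_pm_202

theorem s8_pm_202 : ∃ t, chk3 f_pm_202 t 2 2 1 = true := ex3_a s7_pm_202 k2_pm_202

theorem s9_pm_202 : ∃ t, chk3 f_pm_202 t 2 1 1 = true := ex3_b s8_pm_202 s6_pm_202

theorem s10_pm_202 : ∃ t, chk3 f_pm_202 t 1 1 1 = true := ex3_a s9_pm_202 k5_pm_202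

theorem c_pm_202 : CertB 1073741824 536870912 0 536870912 858993459 64424510 3 eng mog cd3q2 cd0q2 pd0 false true false .pp 2 0 2
    ndB3q2 ndB0q2 pcB0 Cut.none Ext.none :=
  certB2 (fam := false) (s1 := true) (s2 := false) (a := 2) (b := 0) (c := 2) (cn := .pp) (n1 := ndB3q2) (n2 := ndB0q2) (pc := pcB0) (cut := Cut.none) (xt := Ext.none) (P1 := 1073741824) (W1 := 536870912) (P2 := 0) (W2 := 536870912) (P3 := 858993459) (W3 := 64424510) (N0 := 3) (En := eng) (mo := mog) (C1 := cd3q2) (C2 := cd0q2) (C3 := pd0)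
    rfl (fun _ => rfl) s10_pm_202

noncomputable def f_mm_001 : ℕ → ℕ → ℕ → ℕ → Bool := onCell 0 536870912 536870912 536870912 858993459 64424510
    (rowB 3 eng mog cd3q0 cd0q1 pd0 0 false false false .up 0 0 1 (qsf 0 536870912 536870912 536870912 0) ndB3q0 ndB0q1 pcB0 Cut.none Ext.none)

def k0_mm_001 : ∃ t, chk3 f_mm_001 t 1 1 1 = true :=
  ⟨(l 5), by decide +kernel⟩

theorem c_mm_001 : CertB 0 536870912 536870912 536870912 858993459 64424510 3 eng mog cd3q0 cd0q1 pd0 false false false .up 0 0 1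
    ndB3q0 ndB0q1 pcB0 Cut.none Ext.none :=
  certB0 (fam := false) (s1 := false) (s2 := false) (a := 0) (b := 0) (c := 1) (cn := .up) (n1 := ndB3q0) (n2 := ndB0q1) (pc := pcB0) (cut := Cut.none) (xt := Ext.none) (P1 := 0) (W1 := 536870912) (P2 := 536870912) (W2 := 536870912) (P3 := 858993459) (W3 := 64424510) (N0 := 3) (En := eng) (mo := mog) (C1 := cd3q0) (C2 := cd0q1) (C3 := pd0)
    rfl k0_mm_001

noncomputable def f_mm_011 : ℕ → ℕ → ℕ → ℕ → Bool := onCell 0 536870912 536870912 536870912 858993459 64424510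
    (rowB 3 eng mog cd3q0 cd0q1 pd1 0 false false false .pnn 0 1 1 (qsf 0 536870912 536870912 536870912 1) ndB3q0 ndB0q1 pcB1 Cut.none Ext.none)

def k0_mm_011 : ∃ t, chk3 f_mm_011 t 1 1 1 = true :=
  ⟨(l 5), by decide +kernel⟩

theorem c_mm_011 : CertB 0 536870912 536870912 536870912 858993459 64424510 3 eng mog cd3q0 cd0q1 pd1 false false false .pnn 0 1 1
    ndB3q0 ndB0q1 pcB1 Cut.none Ext.none :=
  certB0 (fam := false) (s1 := false) (s2 := false) (a := 0) (b := 1) (c := 1) (cn := .pnn) (n1 := ndB3q0) (n2 := ndB0q1) (pc := pcB1) (cut := Cut.none) (xt := Ext.none) (P1 := 0) (W1 := 536870912) (P2 := 536870912) (W2 := 536870912) (P3 := 858993459) (W3 := 64424510) (N0 := 3) (En := eng) (mo := mog) (C1 := cd3q0) (C2 := cd0q1) (C3 := pd1)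
    rfl k0_mm_011

noncomputable def f_mm_012 : ℕ → ℕ → ℕ → ℕ → Bool := onCell 0 536870912 0 536870912 858993459 64424510
    (rowB 3 eng mog cd3q0 cd0q2 pd1 0 false false false .pnp 0 1 2 (qsf 0 536870912 0 536870912 1) ndB3q0 ndB0q2 pcB1 Cut.none Ext.none)

def k0_mm_012 : ∃ t, chk3 f_mm_012 t 1 1 1 = true :=
  ⟨(l 5), by decide +kernel⟩

theorem c_mm_012 : CertB 0 536870912 0 536870912 858993459 64424510 3 eng mog cd3q0 cd0q2 pd1 false false false .pnp 0 1 2
    ndB3q0 ndB0q2 pcB1 Cut.none Ext.none :=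
  certB0 (fam := false) (s1 := false) (s2 := false) (a := 0) (b := 1) (c := 2) (cn := .pnp) (n1 := ndB3q0) (n2 := ndB0q2) (pc := pcB1) (cut := Cut.none) (xt := Ext.none) (P1 := 0) (W1 := 536870912) (P2 := 0) (W2 := 536870912) (P3 := 858993459) (W3 := 64424510) (N0 := 3) (En := eng) (mo := mog) (C1 := cd3q0) (C2 := cd0q2) (C3 := pd1)
    rfl k0_mm_012

noncomputable def f_mm_022 : ℕ → ℕ → ℕ → ℕ → Bool := onCell 0 536870912 0 536870912 858993459 64424510
    (rowB 3 eng mog cd3q0 cd0q2 pd2 0 false false false .pp 0 2 2 (qsf 0 536870912 0 536870912 2) ndB3q0 ndB0q2 pcB2 Cut.none Ext.none)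

def k0_mm_022 : ∃ t, chk3 f_mm_022 t 1 1 1 = true :=
  ⟨(l 5), by decide +kernel⟩

theorem c_mm_022 : CertB 0 536870912 0 536870912 858993459 64424510 3 eng mog cd3q0 cd0q2 pd2 false false false .pp 0 2 2
    ndB3q0 ndB0q2 pcB2 Cut.none Ext.none :=
  certB0 (fam := false) (s1 := false) (s2 := false) (a := 0) (b := 2) (c := 2) (cn := .pp) (n1 := ndB3q0) (n2 := ndB0q2) (pc := pcB2) (cut := Cut.none) (xt := Ext.none) (P1 := 0) (W1 := 536870912) (P2 := 0) (W2 := 536870912) (P3 := 858993459) (W3 := 64424510) (N0 := 3) (En := eng) (mo := mog) (C1 := cd3q0) (C2 := cd0q2) (C3 := pd2)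
    rfl k0_mm_022

noncomputable def f_mm_101 : ℕ → ℕ → ℕ → ℕ → Bool := onCell 0 536870912 536870912 536870912 858993459 64424510
    (rowB 3 eng mog cd3q1 cd0q1 pd0 2 false false false .npn 1 0 1 (qsf 536870912 536870912 536870912 536870912 0) ndB3q1 ndB0q1 pcB0 Cut.none Ext.none)

def k0_mm_101 : ∃ t, chk3 f_mm_101 t 1 1 1 = true :=
  ⟨(l 5), by decide +kernel⟩

theorem c_mm_101 : CertB 536870912 536870912 536870912 536870912 858993459 64424510 3 eng mog cd3q1 cd0q1 pd0 false false false .npn 1 0 1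
    ndB3q1 ndB0q1 pcB0 Cut.none Ext.none :=
  certB2 (fam := false) (s1 := false) (s2 := false) (a := 1) (b := 0) (c := 1) (cn := .npn) (n1 := ndB3q1) (n2 := ndB0q1) (pc := pcB0) (cut := Cut.none) (xt := Ext.none) (P1 := 536870912) (W1 := 536870912) (P2 := 536870912) (W2 := 536870912) (P3 := 858993459) (W3 := 64424510) (N0 := 3) (En := eng) (mo := mog) (C1 := cd3q1) (C2 := cd0q1) (C3 := pd0)
    rfl (fun _ => rfl) k0_mm_101

noncomputable def f_mm_102 : ℕ → ℕ → ℕ → ℕ → Bool := onCell 536870912 536870912 0 536870912 858993459 64424510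
    (rowB 3 eng mog cd3q1 cd0q2 pd0 0 false false false .npp 1 0 2 (qsf 536870912 536870912 0 536870912 0) ndB3q1 ndB0q2 pcB0 Cut.none Ext.none)

def k0_mm_102 : ∃ t, chk3 f_mm_102 t 1 1 1 = true :=
  ⟨(l 5), by decide +kernel⟩

theorem c_mm_102 : CertB 536870912 536870912 0 536870912 858993459 64424510 3 eng mog cd3q1 cd0q2 pd0 false false false .npp 1 0 2
    ndB3q1 ndB0q2 pcB0 Cut.none Ext.none :=
  certB0 (fam := false) (s1 := false) (s2 := false) (a := 1) (b := 0) (c := 2) (cn := .npp) (n1 := ndB3q1) (n2 := ndB0q2) (pc := pcB0) (cut := Cut.none) (xt := Ext.none) (P1 := 536870912) (W1 := 536870912) (P2 := 0) (W2 := 536870912) (P3 := 858993459) (W3 := 64424510) (N0 := 3) (En := eng) (mo := mog) (C1 := cd3q1) (C2 := cd0q2) (C3 := pd0)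
    rfl k0_mm_102

noncomputable def f_mm_112 : ℕ → ℕ → ℕ → ℕ → Bool := onCell 536870912 536870912 0 536870912 858993459 64424510
    (rowB 3 eng mog cd3q1 cd0q2 pd1 0 false false false .dn 1 1 2 (qsf 536870912 536870912 0 536870912 1) ndB3q1 ndB0q2 pcB1 Cut.none Ext.none)

def k0_mm_112 : ∃ t, chk3 f_mm_112 t 1 1 1 = true :=
  ⟨(l 5), by decide +kernel⟩

theorem c_mm_112 : CertB 536870912 536870912 0 536870912 858993459 64424510 3 eng mog cd3q1 cd0q2 pd1 false false false .dn 1 1 2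
    ndB3q1 ndB0q2 pcB1 Cut.none Ext.none :=
  certB0 (fam := false) (s1 := false) (s2 := false) (a := 1) (b := 1) (c := 2) (cn := .dn) (n1 := ndB3q1) (n2 := ndB0q2) (pc := pcB1) (cut := Cut.none) (xt := Ext.none) (P1 := 536870912) (W1 := 536870912) (P2 := 0) (W2 := 536870912) (P3 := 858993459) (W3 := 64424510) (N0 := 3) (En := eng) (mo := mog) (C1 := cd3q1) (C2 := cd0q2) (C3 := pd1)
    rfl k0_mm_112

noncomputable def f_mm_202 : ℕ → ℕ → ℕ → ℕ → Bool := onCell 0 536870912 0 536870912 858993459 64424510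
    (rowB 3 eng mog cd3q2 cd0q2 pd0 2 false false false .pp 2 0 2 (qsf 1073741824 536870912 0 536870912 0) ndB3q2 ndB0q2 pcB0 Cut.none Ext.none)

def k0_mm_202 : ∃ t, chk3 f_mm_202 t 1 1 1 = true :=
  ⟨(l 5), by decide +kernel⟩

theorem c_mm_202 : CertB 1073741824 536870912 0 536870912 858993459 64424510 3 eng mog cd3q2 cd0q2 pd0 false false false .pp 2 0 2
    ndB3q2 ndB0q2 pcB0 Cut.none Ext.none :=
  certB2 (fam := false) (s1 := false) (s2 := false) (a := 2) (b := 0) (c := 2) (cn := .pp) (n1 := ndB3q2) (n2 := ndB0q2) (pc := pcB0) (cut := Cut.none) (xt := Ext.none) (P1 := 1073741824) (W1 := 536870912) (P2 := 0) (W2 := 536870912) (P3 := 858993459) (W3 := 64424510) (N0 := 3) (En := eng) (mo := mog) (C1 := cd3q2) (C2 := cd0q2) (C3 := pd0)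
    rfl (fun _ => rfl) k0_mm_202

end Pool.Agent.Strip051.G.I8000_8600.Tab.C.BB30

namespace Pool.Agent.Strip051.G.I8000_8600.Tab.C.BB31

open Pool.Agent.Strip051.PB Pool.Agent.Strip051.PB.T
open Pool.Agent.Strip051.G.I8000_8600.Tab

noncomputable def f_pp_001 : ℕ → ℕ → ℕ → ℕ → Bool := onCell 0 536870912 0 536870912 858993459 64424510
    (rowB 3 eng mog cd3q0 cd1q1 pd0 1 false true true .up 0 0 1 (qsf 0 536870912 536870912 536870912 0) ndB3q0 ndB1q1 pcB0 Cut.none Ext.none)

def k0_pp_001 : ∃ t, chk3 f_pp_001 t 1 1 1 = true :=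
  ⟨(l 3), by decide +kernel⟩

theorem c_pp_001 : CertB 0 536870912 536870912 536870912 858993459 64424510 3 eng mog cd3q0 cd1q1 pd0 false true true .up 0 0 1
    ndB3q0 ndB1q1 pcB0 Cut.none Ext.none :=
  certB1 (fam := false) (s1 := true) (s2 := true) (a := 0) (b := 0) (c := 1) (cn := .up) (n1 := ndB3q0) (n2 := ndB1q1) (pc := pcB0) (cut := Cut.none) (xt := Ext.none) (P1 := 0) (W1 := 536870912) (P2 := 536870912) (W2 := 536870912) (P3 := 858993459) (W3 := 64424510) (N0 := 3) (En := eng) (mo := mog) (C1 := cd3q0) (C2 := cd1q1) (C3 := pd0)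
    rfl (fun _ => rfl) k0_pp_001

noncomputable def f_pp_011 : ℕ → ℕ → ℕ → ℕ → Bool := onCell 0 536870912 536870912 536870912 858993459 64424510
    (rowB 3 eng mog cd3q0 cd1q1 pd1 0 false true true .pnn 0 1 1 (qsf 0 536870912 536870912 536870912 1) ndB3q0 ndB1q1 pcB1 Cut.none Ext.none)

def k0_pp_011 : ∃ t, chk3 f_pp_011 t 1 1 1 = true :=
  ⟨(a (a (b (l 3) (l 3)) (l 3)) (l 3)), by decide +kernel⟩

theorem c_pp_011 : CertB 0 536870912 536870912 536870912 858993459 64424510 3 eng mog cd3q0 cd1q1 pd1 false true true .pnn 0 1 1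
    ndB3q0 ndB1q1 pcB1 Cut.none Ext.none :=
  certB0 (fam := false) (s1 := true) (s2 := true) (a := 0) (b := 1) (c := 1) (cn := .pnn) (n1 := ndB3q0) (n2 := ndB1q1) (pc := pcB1) (cut := Cut.none) (xt := Ext.none) (P1 := 0) (W1 := 536870912) (P2 := 536870912) (W2 := 536870912) (P3 := 858993459) (W3 := 64424510) (N0 := 3) (En := eng) (mo := mog) (C1 := cd3q0) (C2 := cd1q1) (C3 := pd1)
    rfl k0_pp_011

noncomputable def f_pp_012_a : ℕ → ℕ → ℕ → ℕ → Bool := onCell 536870912 536870912 0 536870912 858993459 64424510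
    (rowB 3 eng mog cd3q0 cd1q2a pd1 2 false true true .pnp 0 1 2 (qsf 0 536870912 0 536870912 1) ndB3q0 ndB1q2a pcB1 Cut.none Ext.none)

def k0_pp_012_a : ∃ t, chk3 f_pp_012_a t 4 1 1 = true :=
  ⟨(a (b (l 2) (b (l 2) (a (b (l 2) (c (c (b (l 16011728) (l 16036512)) (l 16117784)) (c (l 16213304) (l 16227360)))) (b (c (b (l 15994192) (c (l 15948664) (l 16068208))) (c (l 16187664) (l 16260984))) (c (c (b (l 15974912) (l 15999384)) (l 16077824)) (c (l 16170632) (l 16215088))))))) (b (a (l 2) (b (l 2) (c (l 15829672) (l 15887736)))) (b (c (b (l 16105040) (c (l 15880104) (l 15971824))) (b (l 16043760) (c (l 16072344) (l 16176656)))) (c (a (b (b (l 15959872) (c (l 15918392) (l 16032584))) (c (b (l 15944736) (l 15968952)) (l 16022424))) (b (b (l 15931248) (l 15926464)) (b (l 15944240) (a (l 15986112) (l 15974352))))) (b (c (l 15915768) (b (l 16228712) (l 16229320))) (c (a (l 16132216) (l 16097952)) (a (l 16198992) (l 16170728)))))))), by decide +kernel⟩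

def k1_pp_012_a : ∃ t, chk3 f_pp_012_a t 5 1 1 = true :=
  ⟨(b (b (a (c (l 15700608) (l 15634784)) (c (l 15632840) (l 15538584))) (a (c (b (l 15756256) (l 15794592)) (b (l 15762384) (l 15851656))) (c (b (l 15697264) (l 15743448)) (b (l 15664576) (l 15756616))))) (b (c (a (b (l 15937560) (c (l 15836560) (l 15908696))) (b (l 15790568) (c (l 15816744) (l 15864656)))) (a (b (l 15943440) (c (l 15989640) (l 16076960))) (b (l 15853920) (a (l 15970368) (l 15932256))))) (c (c (a (a (b (l 16081024) (b (l 15904128) (l 15927512))) (b (l 15860456) (b (l 15893416) (l 15915792)))) (b (b (l 15843392) (l 15886384)) (a (b (l 15888720) (l 15909120)) (l 16068560)))) (a (b (b (l 15945128) (l 15966104)) (a (l 16148000) (l 16055992))) (b (b (l 15908344) (l 15936312)) (a (l 16000208) (l 15949472))))) (a (b (c (b (l 16043232) (l 16065304)) (l 15919808)) (a (c (l 16067792) (l 16135600)) (c (l 16041640) (l 16103536)))) (b (b (l 16019728) (a (l 16067912) (l 16040200))) (a (l 15881112)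 (l 15984624))))))), by decide +kernel⟩

def k2_pp_012_a : ∃ t, chk3 f_pp_012_a t 3 1 1 = true :=
  ⟨(a (b (a (b (c (l 15582400) (l 15455584)) (c (l 15936384) (b (l 15579272) (l 15673544)))) (b (c (l 15547608) (l 15385504)) (c (l 15832440) (a (l 15572336) (l 15539336))))) (b (a (c (b (l 15768160) (a (l 15829544) (l 15829256))) (b (l 15901664) (a (l 15896952) (l 15864488)))) (c (b (l 15763488) (l 16005536)) (b (l 15772184) (a (l 15834824) (l 15807808))))) (a (b (c (b (l 15998976) (a (l 15901760) (l 15910328))) (a (l 15995584) (l 15969896))) (c (a (b (l 15920848) (l 16012344)) (b (l 15931016) (l 15934888))) (a (l 16008120) (l 15994064)))) (b (c (a (l 16053464) (l 15923784)) (a (l 15925592) (l 15925584))) (a (c (b (l 15948208) (l 15947944)) (l 15984560)) (c (b (l 15973120) (l 15968408)) (b (l 15985120) (l 15964640)))))))) (b (a (b (c (l 15525432) (l 15327320)) (c (l 15887984) (a (l 15509056) (l 15481216)))) (b (a (l 15404808) (l 15390768)) (a (b (l 15512408)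 (l 15600936)) (b (l 15499520) (l 15590104))))) (b (a (b (a (l 15717696) (l 15708736)) (a (l 16028040) (l 15919640))) (a (b (l 15700880) (l 15916712)) (b (c (l 15788320) (l 15592664)) (c (l 15894560) (l 15716864))))) (a (b (a (c (l 15945816) (l 15907280)) (c (l 15970752) (l 15890504))) (a (c (b (l 16005944) (l 15998152)) (b (l 15981872) (l 15968816))) (b (c (l 16045744) (l 15980568)) (c (l 16041776) (l 15983024))))) (b (a (c (l 15995688) (l 15873896)) (c (a (l 16011752) (l 16020448)) (a (l 15860200) (l 15850200)))) (a (b (a (l 16029608) (l 16039088)) (a (l 16043184) (l 16067944))) (b (a (l 16046248) (a (l 16049576) (l 16050472))) (c (a (l 16165424) (l 16183296)) (a (l 16024816) (l 16021696)))))))))), by decide +kernel⟩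

theorem s3_pp_012_a : ∃ t, chk3 f_pp_012_a t 2 1 1 = true := ex3_a k0_pp_012_a k1_pp_012_a

theorem s4_pp_012_a : ∃ t, chk3 f_pp_012_a t 1 1 1 = true := ex3_a s3_pp_012_a k2_pp_012_a

theorem c_pp_012_a : CertB 0 536870912 0 536870912 858993459 64424510 3 eng mog cd3q0 cd1q2a pd1 false true true .pnp 0 1 2
    ndB3q0 ndB1q2a pcB1 Cut.none Ext.none :=
  certB2 (fam := false) (s1 := true) (s2 := true) (a := 0) (b := 1) (c := 2) (cn := .pnp) (n1 := ndB3q0) (n2 := ndB1q2a) (pc := pcB1) (cut := Cut.none) (xt := Ext.none) (P1 := 0) (W1 := 536870912) (P2 := 0) (W2 := 536870912) (P3 := 858993459) (W3 := 64424510) (N0 := 3) (En := eng) (mo := mog) (C1 := cd3q0) (C2 := cd1q2a) (C3 := pd1)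
    rfl (fun _ => rfl) s4_pp_012_a

noncomputable def f_pp_012_b : ℕ → ℕ → ℕ → ℕ → Bool := onCell 536870912 536870912 1239849684 370763052 858993459 64424510
    (rowB 3 eng mog cd3q0 cd1q2b pd1 2 false true true .pnp 0 1 2 (qsf 0 536870912 1239849684 370763052 1) ndB3q0 ndB1q2b pcB1 Cut.none Ext.none)

def k0_pp_012_b : ∃ t, chk3 f_pp_012_b t 1 1 1 = true :=
  ⟨(a (b (a (l 2) (b (a (b (l 15592912) (l 2)) (b (l 15499768) (l 15459496))) (a (l 2) (l 15434552)))) (l 2)) (b (a (b (a (b (l 15421976) (l 15359240)) (b (l 15484368) (l 15273192))) (a (l 15301192) (l 15412480))) (a (b (b (c (l 15415144) (l 15194856)) (l 15199520)) (b (l 15110696) (l 15041608))) (b (b (a (l 15274992) (l 15255560)) (c (l 15263992) (l 14999248))) (b (l 15024184) (l 14933128))))) (a (b (a (l 2) (l 15127376)) (l 2)) (b (a (l 14976888) (l 14836184)) (a (l 14961976) (l 14779736)))))), by decide +kernel⟩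

theorem c_pp_012_b : CertB 0 536870912 1239849684 370763052 858993459 64424510 3 eng mog cd3q0 cd1q2b pd1 false true true .pnp 0 1 2
    ndB3q0 ndB1q2b pcB1 Cut.none Ext.none :=
  certB2 (fam := false) (s1 := true) (s2 := true) (a := 0) (b := 1) (c := 2) (cn := .pnp) (n1 := ndB3q0) (n2 := ndB1q2b) (pc := pcB1) (cut := Cut.none) (xt := Ext.none) (P1 := 0) (W1 := 536870912) (P2 := 1239849684) (W2 := 370763052) (P3 := 858993459) (W3 := 64424510) (N0 := 3) (En := eng) (mo := mog) (C1 := cd3q0) (C2 := cd1q2b) (C3 := pd1)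
    rfl (fun _ => rfl) k0_pp_012_b

noncomputable def f_pp_022_a : ℕ → ℕ → ℕ → ℕ → Bool := onCell 1073741824 536870912 0 536870912 858993459 64424510
    (rowB 3 eng mog cd3q0 cd1q2a pd2 2 false true true .pp 0 2 2 (qsf 0 536870912 0 536870912 2) ndB3q0 ndB1q2a pcB2 Cut.none Ext.none)

def k0_pp_022_a : ∃ t, chk3 f_pp_022_a t 2 2 1 = true :=
  ⟨(a (a (b (a (c (l 15645056) (l 15469480)) (b (l 15667184) (l 15729992))) (a (b (c (l 15760480) (l 15601768)) (c (l 15852416) (l 15714944))) (b (c (l 15865176) (l 15747080)) (c (l 15945392) (l 15849496))))) (a (b (c (l 15881160) (l 15781352)) (b (l 16175224) (c (l 16031552) (l 15974120)))) (b (c (l 15987080) (l 15919992)) (b (c (l 16052624) (l 16006160)) (c (l 16108704) (l 16086456)))))) (a (b (a (c (l 16081840) (l 16044320)) (c (l 16163184) (l 16152632))) (a (c (b (l 16131064) (l 16174752)) (l 345239796935)) (l 1))) (l 1))), by decide +kernel⟩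

def k1_pp_022_a : ∃ t, chk3 f_pp_022_a t 4 6 1 = true :=
  ⟨(a (b (a (c (b (l 15926272) (l 15980440)) (b (l 15810832) (l 15879328))) (c (l 16223400) (b (l 15937016) (l 15999672)))) (a (b (a (l 15970832) (l 16018560)) (a (b (l 16021928) (l 16039272)) (b (l 16063440) (l 16075328)))) (b (a (l 16064688) (l 16276144)) (a (c (l 16128888) (l 16081912)) (l 16162912))))) (b (a (c (b (l 16086736) (l 16127888)) (l 16270536)) (c (b (l 16154016) (l 16356696)) (l 16036416))) (a (c (b (a (l 16156008) (l 16182320)) (a (l 16181736) (l 16207288))) (b (a (l 16139808) (l 16184360)) (l 16299680))) (b (c (a (l 16206664) (l 1)) (l 16245096)) (l 1))))), by decide +kernel⟩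

def k2_pp_022_a : ∃ t, chk3 f_pp_022_a t 4 7 1 = true :=
  ⟨(a (b (a (a (b (c (l 16089656) (l 16006424)) (c (a (l 16099024) (l 16114160)) (a (l 16009648) (l 16035800)))) (b (c (l 16117272) (l 16055432)) (c (l 16221248) (b (l 16069872) (l 16080160))))) (b (a (c (l 16145528) (l 16104240)) (c (l 16174024) (l 16152440))) (a (c (b (l 16162304) (l 16175032)) (b (l 16121208) (l 16133128))) (c (b (l 16192880) (l 16206880)) (l 117607291031))))) (b (a (a (a (b (c (l 16113088) (l 16021936)) (c (l 16123040) (l 16030432))) (b (c (l 16129464) (l 16049400)) (c (l 16140288) (l 16058808)))) (b (a (l 16216712) (c (l 16163016) (l 16104480))) (a (c (l 16157848) (l 16087280)) (c (l 16175352) (l 16115504))))) (a (b (c (l 16188064) (l 16145152)) (l 1)) (l 1))) (a (b (a (a (a (c (l 16128888) (b (l 16029640) (l 16033816))) (c (l 16137832) (l 16046344))) (b (c (l 16148648) (l 16065960)) (a (c (l 16149736) (l 16063368)) (c (l 16158976) (l 16078144))))) (a (b (c (l 16166768) (l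 16095016)) (l 1)) (l 1))) (a (b (b (a (a (c (l 16135272) (l 16036944)) (c (l 16144576) (l 16051888))) (a (c (l 16153968) (l 16066872)) (l 1))) (a (a (c (l 16137880) (l 16039032)) (a (c (l 16144960) (l 16050352)) (l 16115008))) (l 1))) (a (a (c (a (c (l 16163640) (l 16114872)) (c (l 16167680) (l 16120232))) (a (c (a (l 16062632) (l 16066032)) (a (l 16009944) (l 16014104))) (c (l 106332572407) (l 104721941575)))) (a (b (b (l 16100288) (l 1)) (l 1)) (l 1))) (l 1))) (l 1))) (l 1)))) (b (a (b (a (c (l 16202336) (l 16199640)) (l 1)) (l 1)) (l 1)) (l 1))), by decide +kernel⟩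

def k3_pp_022_a : ∃ t, chk3 f_pp_022_a t 5 3 1 = true :=
  ⟨(b (l 1) (l 1)), by decide +kernel⟩

def k4_pp_022_a : ∃ t, chk3 f_pp_022_a t 3 1 1 = true :=
  ⟨(l 1), by decide +kernel⟩

theorem s5_pp_022_a : ∃ t, chk3 f_pp_022_a t 4 3 1 = true := ex3_b k1_pp_022_a k2_pp_022_a

theorem s6_pp_022_a : ∃ t, chk3 f_pp_022_a t 2 3 1 = true := ex3_a s5_pp_022_a k3_pp_022_a

theorem s7_pp_022_a : ∃ t, chk3 f_pp_022_a t 2 1 1 = true := ex3_b k0_pp_022_a s6_pp_022_a

theorem s8_pp_022_a : ∃ t, chk3 f_pp_022_a t 1 1 1 = true := ex3_a s7_pp_022_a k4_pp_022_a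

theorem c_pp_022_a : CertB 0 536870912 0 536870912 858993459 64424510 3 eng mog cd3q0 cd1q2a pd2 false true true .pp 0 2 2
    ndB3q0 ndB1q2a pcB2 Cut.none Ext.none :=
  certB2 (fam := false) (s1 := true) (s2 := true) (a := 0) (b := 2) (c := 2) (cn := .pp) (n1 := ndB3q0) (n2 := ndB1q2a) (pc := pcB2) (cut := Cut.none) (xt := Ext.none) (P1 := 0) (W1 := 536870912) (P2 := 0) (W2 := 536870912) (P3 := 858993459) (W3 := 64424510) (N0 := 3) (En := eng) (mo := mog) (C1 := cd3q0) (C2 := cd1q2a) (C3 := pd2)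
    rfl (fun _ => rfl) s8_pp_022_a

noncomputable def f_pp_022_b : ℕ → ℕ → ℕ → ℕ → Bool := onCell 1073741824 536870912 1239849684 370763052 858993459 64424510
    (rowB 3 eng mog cd3q0 cd1q2b pd2 2 false true true .pp 0 2 2 (qsf 0 536870912 1239849684 370763052 2) ndB3q0 ndB1q2b pcB2 Cut.none Ext.none)

def k0_pp_022_b : ∃ t, chk3 f_pp_022_b t 1 1 1 = true :=
  ⟨(a (a (b (a (a (b (b (c (l 15503600) (l 15309744)) (l 15260344)) (l 15074896)) (b (b (l 15770360) (l 15412184)) (l 15224792))) (b (b (a (l 15935400) (c (l 15882344) (l 15793896))) (a (l 15558120) (l 15695784))) (c (l 15520168) (l 15361064)))) (a (b (a (l 14897352) (l 15040960)) (l 14871768)) (b (a (l 15183576) (l 15322952)) (l 15140976)))) (b (a (b (b (a (c (l 15990560) (l 15930392)) (c (l 16085688) (l 16051248))) (c (l 15917720) (l 15844928))) (c (l 15757448) (l 15651040))) (b (a (b (l 485900644951) (l 16038256)) (b (l 1) (l 16126072))) (a (l 15874736) (l 15974224)))) (a (b (a (l 15456768) (l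 15582680)) (l 15402168)) (b (c (l 15806688) (l 15703536)) (l 15643344))))) (b (a (b (l 1) (a (b (l 414497022423) (l 16059016)) (a (l 541735091911) (l 1)))) (l 1)) (a (a (b (l 15956888) (l 15861160)) (b (l 16102312) (l 16036976))) (a (b (c (l 16170432) (l 16174632)) (l 16144032)) (b (l 1) (b (l 16022624) (l 4))))))), by decide +kernel⟩

theorem c_pp_022_b : CertB 0 536870912 1239849684 370763052 858993459 64424510 3 eng mog cd3q0 cd1q2b pd2 false true true .pp 0 2 2
    ndB3q0 ndB1q2b pcB2 Cut.none Ext.none :=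
  certB2 (fam := false) (s1 := true) (s2 := true) (a := 0) (b := 2) (c := 2) (cn := .pp) (n1 := ndB3q0) (n2 := ndB1q2b) (pc := pcB2) (cut := Cut.none) (xt := Ext.none) (P1 := 0) (W1 := 536870912) (P2 := 1239849684) (W2 := 370763052) (P3 := 858993459) (W3 := 64424510) (N0 := 3) (En := eng) (mo := mog) (C1 := cd3q0) (C2 := cd1q2b) (C3 := pd2)
    rfl (fun _ => rfl) k0_pp_022_b

noncomputable def f_pp_023 : ℕ → ℕ → ℕ → ℕ → Bool := onCell 1073741824 536870912 1610612736 536870912 858993459 64424510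
    (rowB 3 eng mog cd3q0 cd1q3 pd2 2 false true true .up 0 2 3 (qsf 0 536870912 1610612736 536870912 2) ndB3q0 ndB1q3 pcB2 Cut.none Ext.none)

def k0_pp_023 : ∃ t, chk3 f_pp_023 t 1 1 1 = true :=
  ⟨(b (b (a (a (a (l 14836800) (l 15064072)) (a (l 15298416) (b (l 15537584) (l 15534080)))) (a (a (b (l 15763928) (l 4)) (l 15909616)) (l 4))) (a (a (a (l 2) (l 15208096)) (a (l 15411272) (l 15622096))) (l 4))) (a (a (l 2) (b (l 4) (l 2))) (l 4))), by decide +kernel⟩

theorem c_pp_023 : CertB 0 536870912 1610612736 536870912 858993459 64424510 3 eng mog cd3q0 cd1q3 pd2 false true true .up 0 2 3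
    ndB3q0 ndB1q3 pcB2 Cut.none Ext.none :=
  certB2 (fam := false) (s1 := true) (s2 := true) (a := 0) (b := 2) (c := 3) (cn := .up) (n1 := ndB3q0) (n2 := ndB1q3) (pc := pcB2) (cut := Cut.none) (xt := Ext.none) (P1 := 0) (W1 := 536870912) (P2 := 1610612736) (W2 := 536870912) (P3 := 858993459) (W3 := 64424510) (N0 := 3) (En := eng) (mo := mog) (C1 := cd3q0) (C2 := cd1q3) (C3 := pd2)
    rfl (fun _ => rfl) k0_pp_023

noncomputable def f_pp_033 : ℕ → ℕ → ℕ → ℕ → Bool := onCell 0 536870912 1610612736 536870912 858993459 64424510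
    (rowB 3 eng mog cd3q0 cd1q3 pd3 0 false true true .pnn 0 3 3 (qsf 0 536870912 1610612736 536870912 3) ndB3q0 ndB1q3 pcB3 Cut.none Ext.none)

def k0_pp_033 : ∃ t, chk3 f_pp_033 t 1 1 1 = true :=
  ⟨(b (a (a (l 4) (b (b (l 1) (l 4)) (l 4))) (a (b (l 1) (l 4)) (l 1))) (l 4)), by decide +kernel⟩

theorem c_pp_033 : CertB 0 536870912 1610612736 536870912 858993459 64424510 3 eng mog cd3q0 cd1q3 pd3 false true true .pnn 0 3 3
    ndB3q0 ndB1q3 pcB3 Cut.none Ext.none :=
  certB0 (fam := false) (s1 := true) (s2 := true) (a := 0) (b := 3) (c := 3) (cn := .pnn) (n1 := ndB3q0) (n2 := ndB1q3) (pc := pcB3) (cut := Cut.none) (xt := Ext.none) (P1 := 0) (W1 := 536870912) (P2 := 1610612736) (W2 := 536870912) (P3 := 858993459) (W3 := 64424510) (N0 := 3) (En := eng) (mo := mog) (C1 := cd3q0) (C2 := cd1q3) (C3 := pd3)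
    rfl k0_pp_033

noncomputable def f_pp_101 : ℕ → ℕ → ℕ → ℕ → Bool := onCell 536870912 536870912 536870912 536870912 858993459 64424510
    (rowB 3 eng mog cd3q1 cd1q1 pd0 0 false true true .npn 1 0 1 (qsf 536870912 536870912 536870912 536870912 0) ndB3q1 ndB1q1 pcB0 Cut.none Ext.none)

def k0_pp_101 : ∃ t, chk3 f_pp_101 t 1 1 1 = true :=
  ⟨(l 3), by decide +kernel⟩

theorem c_pp_101 : CertB 536870912 536870912 536870912 536870912 858993459 64424510 3 eng mog cd3q1 cd1q1 pd0 false true true .npn 1 0 1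
    ndB3q1 ndB1q1 pcB0 Cut.none Ext.none :=
  certB0 (fam := false) (s1 := true) (s2 := true) (a := 1) (b := 0) (c := 1) (cn := .npn) (n1 := ndB3q1) (n2 := ndB1q1) (pc := pcB0) (cut := Cut.none) (xt := Ext.none) (P1 := 536870912) (W1 := 536870912) (P2 := 536870912) (W2 := 536870912) (P3 := 858993459) (W3 := 64424510) (N0 := 3) (En := eng) (mo := mog) (C1 := cd3q1) (C2 := cd1q1) (C3 := pd0)
    rfl k0_pp_101

noncomputable def cut_pp_102_a : Cut := Cut.of [[⟨0, 1, 0, 67108864⟩, ⟨1, 0, 0, 67108864⟩, ⟨2, 1, 0, 67108864⟩]]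

noncomputable def f_pp_102_a : ℕ → ℕ → ℕ → ℕ → Bool := onCell 0 536870912 0 536870912 858993459 64424510
    (rowB 3 eng mog cd3q1 cd1q2a pd0 2 false true true .npp 1 0 2 (qsf 536870912 536870912 0 536870912 0) ndB3q1 ndB1q2a pcB0 cut_pp_102_a Ext.none)

def k0_pp_102_a : ∃ t, chk3 f_pp_102_a t 2 2 1 = true :=
  ⟨(a (b (l 2) (a (l 2) (a (l 2) (a (l 2) (b (l 2) (a (l 2) (l 15857504))))))) (a (a (b (a (l 2) (b (l 15414136) (b (l 15492184) (l 15546144)))) (a (b (l 15787640) (b (l 15724040) (l 15802400))) (b (l 15636736) (l 15798808)))) (b (b (a (l 15481432) (l 15462816)) (a (l 15537952) (l 15558080))) (b (a (l 15653568) (l 15670072)) (a (l 15791880) (l 15805560))))) (b (a (b (a (l 15483776) (l 15503392)) (l 15586304)) (a (b (l 15508720) (l 15600272)) (l 15546840))) (a (b (l 15694856) (l 15888832)) (b (l 15706328) (l 15857472)))))), by decide +kernel⟩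

def k1_pp_102_a : ∃ t, chk3 f_pp_102_a t 4 3 1 = true :=
  ⟨(b (a (l 2) (a (b (l 2) (a (b (l 2) (a (l 2) (l 16213488))) (b (l 16100168) (l 16285672)))) (a (b (b (l 15897128) (l 15987312)) (b (l 16084520) (l 16188608))) (b (a (b (l 15883360) (l 15975552)) (b (l 15878208) (l 15971128))) (b (l 16156872) (l 16241696)))))) (a (a (b (l 2) (l 6)) (a (b (b (l 2) (l 6)) (l 6)) (a (b (b (l 2) (l 6)) (l 6)) (a (b (b (l 16331808) (l 6)) (l 6)) (b (b (l 16310256) (l 16437968)) (b (b (l 16521112) (l 16577808)) (b (l 16630640) (l 16662728)))))))) (a (b (b (a (b (l 16296208) (l 16391656)) (b (l 16282216) (l 16337024))) (a (b (l 16382272) (l 16447800)) (c (l 16438600) (l 16400736)))) (b (a (b (l 16529224) (b (l 16556936) (l 16583016))) (b (l 16515992) (l 16557032))) (a (b (b (l 16608424) (l 16613184)) (c (l 16678712) (l 16667720))) (b (l 16606624) (l 16657208))))) (b (a (b (l 16277840) (l 16432248)) (b (l 16269456) (a (l 16405512) (l 16402960)))) (b (a (b (l 16495248)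 (l 16544064)) (b (l 16485328) (l 16531472))) (b (a (l 16592184) (l 16578312)) (a (l 16641336) (l 16626064)))))))), by decide +kernel⟩

def k2_pp_102_a : ∃ t, chk3 f_pp_102_a t 5 3 1 = true :=
  ⟨(a (b (a (b (a (b (l 15887320) (l 15978792)) (b (l 15899072) (l 15988632))) (a (b (l 16076768) (l 16181104)) (l 16115040))) (b (a (l 15975792) (l 15964912)) (a (l 16142088) (l 16147672)))) (b (a (b (a (l 16291024) (l 16293640)) (a (l 16402584) (l 16401416))) (b (l 16296744) (l 16423624))) (b (a (b (l 16474712) (l 16517936)) (l 16480440)) (a (b (l 16562072) (l 16606912)) (l 16560800))))) (b (b (a (l 16189400) (l 16239424)) (a (l 16134472) (c (l 16181464) (l 16135848)))) (b (a (b (l 16298576) (l 16390096)) (b (l 16297152) (b (l 16363752) (l 16397264)))) (b (l 16454472) (a (l 16535696) (l 16509968)))))), by decide +kernel⟩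

def k3_pp_102_a : ∃ t, chk3 f_pp_102_a t 3 1 1 = true :=
  ⟨(b (a (b (a (a (l 15581648) (l 15532400)) (a (l 15530752) (l 15534296))) (a (b (a (l 15700072) (l 15698928)) (a (l 15833664) (l 15834632))) (b (l 15830264) (a (l 15838424) (l 15844704))))) (b (a (a (l 15542744) (l 15555880)) (b (l 15529456) (l 15636696))) (a (b (l 15723632) (l 15921296)) (c (l 15883736) (l 15735048))))) (a (b (a (b (a (l 16049544) (l 15987952)) (a (l 16157440) (l 16156896))) (b (a (l 15990984) (l 15995456)) (a (l 16156848) (l 16157096)))) (b (a (b (a (l 16293424) (l 16289912)) (a (l 16369120) (l 16357792))) (b (l 16282760) (l 16339608))) (a (b (l 16417528) (l 16470216)) (b (l 16378376) (l 16414736))))) (b (a (b (l 15983560) (a (l 16157512) (l 16158056))) (b (l 16167288) (l 15949512))) (b (a (b (l 16270568) (l 16313512)) (b (l 16255648) (l 16286616))) (a (l 16348760) (l 16299136)))))), by decide +kernel⟩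

theorem s4_pp_102_a : ∃ t, chk3 f_pp_102_a t 2 3 1 = true := ex3_a k1_pp_102_a k2_pp_102_a

theorem s5_pp_102_a : ∃ t, chk3 f_pp_102_a t 2 1 1 = true := ex3_b k0_pp_102_a s4_pp_102_a

theorem s6_pp_102_a : ∃ t, chk3 f_pp_102_a t 1 1 1 = true := ex3_a s5_pp_102_a k3_pp_102_a

theorem c_pp_102_a : CertB 536870912 536870912 0 536870912 858993459 64424510 3 eng mog cd3q1 cd1q2a pd0 false true true .npp 1 0 2
    ndB3q1 ndB1q2a pcB0 cut_pp_102_a Ext.none :=
  certB2 (fam := false) (s1 := true) (s2 := true) (a := 1) (b := 0) (c := 2) (cn := .npp) (n1 := ndB3q1) (n2 := ndB1q2a) (pc := pcB0) (cut := cut_pp_102_a) (xt := Ext.none) (P1 := 536870912) (W1 := 536870912) (P2 := 0) (W2 := 536870912) (P3 := 858993459) (W3 := 64424510) (N0 := 3) (En := eng) (mo := mog) (C1 := cd3q1) (C2 := cd1q2a) (C3 := pd0)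
    rfl (fun _ => rfl) s6_pp_102_a

noncomputable def cut_pp_102_b : Cut := Cut.of [[⟨0, 1, 0, 67108864⟩, ⟨1, 0, 0, 67108864⟩, ⟨2, 1, 0, 67108864⟩]]

noncomputable def f_pp_102_b : ℕ → ℕ → ℕ → ℕ → Bool := onCell 0 536870912 1239849684 370763052 858993459 64424510
    (rowB 3 eng mog cd3q1 cd1q2b pd0 2 false true true .npp 1 0 2 (qsf 536870912 536870912 1239849684 370763052 0) ndB3q1 ndB1q2b pcB0 cut_pp_102_b Ext.none)

def k0_pp_102_b : ∃ t, chk3 f_pp_102_b t 1 1 1 = true :=
  ⟨(a (b (a (l 2) (a (b (b (a (a (l 2) (l 15265384)) (a (l 15290072) (l 15315680))) (l 2)) (l 2)) (a (b (a (b (l 15341888) (l 15147904)) (b (l 15368432) (l 15177264))) (l 2)) (b (a (b (l 15381120) (l 15190184)) (l 15281056)) (a (l 2) (l 14895720)))))) (l 2)) (a (b (a (b (a (l 15276904) (l 15274368)) (a (l 14949032) (l 14926392))) (b (a (l 15277616) (l 15286312)) (a (l 14949808) (l 14976768)))) (a (l 2) (b (a (l 14598776) (l 14646552)) (l 2)))) (b (a (b (a (l 15300272) (l 15319432))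 (a (l 15007256) (l 15041400))) (b (l 15358600) (l 15100728))) (a (b (a (l 14696544) (l 14748480)) (l 291080460487)) (b (l 14831576) (l 14555920)))))), by decide +kernel⟩

theorem c_pp_102_b : CertB 536870912 536870912 1239849684 370763052 858993459 64424510 3 eng mog cd3q1 cd1q2b pd0 false true true .npp 1 0 2
    ndB3q1 ndB1q2b pcB0 cut_pp_102_b Ext.none :=
  certB2 (fam := false) (s1 := true) (s2 := true) (a := 1) (b := 0) (c := 2) (cn := .npp) (n1 := ndB3q1) (n2 := ndB1q2b) (pc := pcB0) (cut := cut_pp_102_b) (xt := Ext.none) (P1 := 536870912) (W1 := 536870912) (P2 := 1239849684) (W2 := 370763052) (P3 := 858993459) (W3 := 64424510) (N0 := 3) (En := eng) (mo := mog) (C1 := cd3q1) (C2 := cd1q2b) (C3 := pd0)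
    rfl (fun _ => rfl) k0_pp_102_b

noncomputable def f_pp_112_a : ℕ → ℕ → ℕ → ℕ → Bool := onCell 536870912 536870912 0 536870912 858993459 64424510
    (rowB 3 eng mog cd3q1 cd1q2a pd1 2 false true true .dn 1 1 2 (qsf 536870912 536870912 0 536870912 1) ndB3q1 ndB1q2a pcB1 Cut.none Ext.none)

def k0_pp_112_a : ∃ t, chk3 f_pp_112_a t 1 1 1 = true :=
  ⟨(a (b (a (c (b (a (l 15673128) (l 15700096)) (a (b (l 15740408) (l 15796840)) (l 16023672))) (b (a (l 15727456) (l 15755920)) (a (c (l 15898992) (l 15998880)) (l 15961112)))) (a (b (c (l 15697296) (l 15741904)) (c (l 15892864) (l 15806408))) (l 1))) (a (a (b (c (b (c (l 15799680) (l 15921600)) (c (l 15849576) (l 16000888))) (b (l 16127648) (l 16034008))) (c (b (c (b (l 15885992) (a (l 15921336) (l 15918152))) (a (l 16074040) (l 16070736))) (c (a (b (l 15969200) (l 16013000)) (l 213170128455)) (c (l 16086848) (l 16154144)))) (b (b (l 16140768) (l 16039416)) (c (l 16245432) (b (l 16173560) (l 16134728))))))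 (b (c (b (l 15934952) (c (l 15856880) (l 15997864))) (b (l 16124168) (l 16117896))) (a (b (b (c (l 15965344) (l 16280224)) (l 1)) (l 1)) (l 1)))) (b (l 1) (l 1)))) (l 1)), by decide +kernel⟩

theorem c_pp_112_a : CertB 536870912 536870912 0 536870912 858993459 64424510 3 eng mog cd3q1 cd1q2a pd1 false true true .dn 1 1 2
    ndB3q1 ndB1q2a pcB1 Cut.none Ext.none :=
  certB2 (fam := false) (s1 := true) (s2 := true) (a := 1) (b := 1) (c := 2) (cn := .dn) (n1 := ndB3q1) (n2 := ndB1q2a) (pc := pcB1) (cut := Cut.none) (xt := Ext.none) (P1 := 536870912) (W1 := 536870912) (P2 := 0) (W2 := 536870912) (P3 := 858993459) (W3 := 64424510) (N0 := 3) (En := eng) (mo := mog) (C1 := cd3q1) (C2 := cd1q2a) (C3 := pd1)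
    rfl (fun _ => rfl) k0_pp_112_a

noncomputable def f_pp_112_b : ℕ → ℕ → ℕ → ℕ → Bool := onCell 536870912 536870912 1239849684 370763052 858993459 64424510
    (rowB 3 eng mog cd3q1 cd1q2b pd1 2 false true true .dn 1 1 2 (qsf 536870912 536870912 1239849684 370763052 1) ndB3q1 ndB1q2b pcB1 Cut.none Ext.none)

def k0_pp_112_b : ∃ t, chk3 f_pp_112_b t 1 1 1 = true :=
  ⟨(a (b (a (b (a (l 15520304) (l 15563672)) (a (l 15282192) (l 15353496))) (b (a (l 15570680) (l 15540776)) (a (l 15387672) (l 15382920)))) (a (a (b (l 15029304) (l 14768576)) (b (l 15131704) (l 14908072))) (b (l 15214880) (l 15048128)))) (a (b (b (l 1) (a (l 15339008) (l 15257536))) (b (l 15174240) (l 15064376))) (b (l 1) (b (l 411810436807) (l 14884464))))), by decide +kernel⟩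

theorem c_pp_112_b : CertB 536870912 536870912 1239849684 370763052 858993459 64424510 3 eng mog cd3q1 cd1q2b pd1 false true true .dn 1 1 2
    ndB3q1 ndB1q2b pcB1 Cut.none Ext.none :=
  certB2 (fam := false) (s1 := true) (s2 := true) (a := 1) (b := 1) (c := 2) (cn := .dn) (n1 := ndB3q1) (n2 := ndB1q2b) (pc := pcB1) (cut := Cut.none) (xt := Ext.none) (P1 := 536870912) (W1 := 536870912) (P2 := 1239849684) (W2 := 370763052) (P3 := 858993459) (W3 := 64424510) (N0 := 3) (En := eng) (mo := mog) (C1 := cd3q1) (C2 := cd1q2b) (C3 := pd1)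
    rfl (fun _ => rfl) k0_pp_112_b

noncomputable def f_pp_113 : ℕ → ℕ → ℕ → ℕ → Bool := onCell 536870912 536870912 1610612736 536870912 858993459 64424510
    (rowB 3 eng mog cd3q1 cd1q3 pd1 2 false true true .nn 1 1 3 (qsf 536870912 536870912 1610612736 536870912 1) ndB3q1 ndB1q3 pcB1 Cut.none Ext.none)

def k0_pp_113 : ∃ t, chk3 f_pp_113 t 1 1 1 = true :=
  ⟨(a (b (a (b (a (c (l 14592200) (l 14373848)) (l 14661736)) (a (l 2) (l 14369560))) (b (a (l 14821352) (l 14940320)) (a (l 14651488) (l 14922688)))) (a (l 2) (b (l 500997856167) (l 2)))) (b (a (b (l 15009160) (l 15224288)) (b (l 14848360) (l 15200104))) (a (b (l 16104736) (l 16157120)) (b (l 16806232) (l 16711248))))), by decide +kernel⟩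

theorem c_pp_113 : CertB 536870912 536870912 1610612736 536870912 858993459 64424510 3 eng mog cd3q1 cd1q3 pd1 false true true .nn 1 1 3
    ndB3q1 ndB1q3 pcB1 Cut.none Ext.none :=
  certB2 (fam := false) (s1 := true) (s2 := true) (a := 1) (b := 1) (c := 3) (cn := .nn) (n1 := ndB3q1) (n2 := ndB1q3) (pc := pcB1) (cut := Cut.none) (xt := Ext.none) (P1 := 536870912) (W1 := 536870912) (P2 := 1610612736) (W2 := 536870912) (P3 := 858993459) (W3 := 64424510) (N0 := 3) (En := eng) (mo := mog) (C1 := cd3q1) (C2 := cd1q3) (C3 := pd1)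
    rfl (fun _ => rfl) k0_pp_113

noncomputable def f_pp_123 : ℕ → ℕ → ℕ → ℕ → Bool := onCell 1073741824 536870912 1610612736 536870912 858993459 64424510
    (rowB 3 eng mog cd3q1 cd1q3 pd2 2 false true true .npn 1 2 3 (qsf 536870912 536870912 1610612736 536870912 2) ndB3q1 ndB1q3 pcB2 Cut.none Ext.none)

def k0_pp_123 : ∃ t, chk3 f_pp_123 t 1 1 1 = true :=
  ⟨(b (b (a (a (a (l 14839728) (l 15085096)) (a (l 15318800) (l 1))) (l 1)) (a (a (a (l 15056320) (l 15205840)) (a (l 15411360) (l 15621472))) (l 4))) (a (a (b (a (l 16103536) (l 15790104)) (a (l 16902392) (l 4))) (b (l 4) (l 4))) (l 4))), by decide +kernel⟩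

theorem c_pp_123 : CertB 536870912 536870912 1610612736 536870912 858993459 64424510 3 eng mog cd3q1 cd1q3 pd2 false true true .npn 1 2 3
    ndB3q1 ndB1q3 pcB2 Cut.none Ext.none :=
  certB2 (fam := false) (s1 := true) (s2 := true) (a := 1) (b := 2) (c := 3) (cn := .npn) (n1 := ndB3q1) (n2 := ndB1q3) (pc := pcB2) (cut := Cut.none) (xt := Ext.none) (P1 := 536870912) (W1 := 536870912) (P2 := 1610612736) (W2 := 536870912) (P3 := 858993459) (W3 := 64424510) (N0 := 3) (En := eng) (mo := mog) (C1 := cd3q1) (C2 := cd1q3) (C3 := pd2)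
    rfl (fun _ => rfl) k0_pp_123

noncomputable def f_pp_133 : ℕ → ℕ → ℕ → ℕ → Bool := onCell 1610612736 536870912 1610612736 536870912 858993459 64424510
    (rowB 3 eng mog cd3q1 cd1q3 pd3 2 false true true .dn 1 3 3 (qsf 536870912 536870912 1610612736 536870912 3) ndB3q1 ndB1q3 pcB3 Cut.none Ext.none)

def k0_pp_133 : ∃ t, chk3 f_pp_133 t 1 1 1 = true :=
  ⟨(a (b (l 1) (l 4)) (l 1)), by decide +kernel⟩

theorem c_pp_133 : CertB 536870912 536870912 1610612736 536870912 858993459 64424510 3 eng mog cd3q1 cd1q3 pd3 false true true .dn 1 3 3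
    ndB3q1 ndB1q3 pcB3 Cut.none Ext.none :=
  certB2 (fam := false) (s1 := true) (s2 := true) (a := 1) (b := 3) (c := 3) (cn := .dn) (n1 := ndB3q1) (n2 := ndB1q3) (pc := pcB3) (cut := Cut.none) (xt := Ext.none) (P1 := 536870912) (W1 := 536870912) (P2 := 1610612736) (W2 := 536870912) (P3 := 858993459) (W3 := 64424510) (N0 := 3) (En := eng) (mo := mog) (C1 := cd3q1) (C2 := cd1q3) (C3 := pd3)
    rfl (fun _ => rfl) k0_pp_133

noncomputable def f_pp_202_a : ℕ → ℕ → ℕ → ℕ → Bool := onCell 1073741824 536870912 0 536870912 858993459 64424510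
    (rowB 3 eng mog cd3q2 cd1q2a pd0 0 false true true .pp 2 0 2 (qsf 1073741824 536870912 0 536870912 0) ndB3q2 ndB1q2a pcB0 Cut.none Ext.none)

def k0_pp_202_a : ∃ t, chk3 f_pp_202_a t 1 1 1 = true :=
  ⟨(l 3), by decide +kernel⟩

theorem c_pp_202_a : CertB 1073741824 536870912 0 536870912 858993459 64424510 3 eng mog cd3q2 cd1q2a pd0 false true true .pp 2 0 2
    ndB3q2 ndB1q2a pcB0 Cut.none Ext.none :=
  certB0 (fam := false) (s1 := true) (s2 := true) (a := 2) (b := 0) (c := 2) (cn := .pp) (n1 := ndB3q2) (n2 := ndB1q2a) (pc := pcB0) (cut := Cut.none) (xt := Ext.none) (P1 := 1073741824) (W1 := 536870912) (P2 := 0) (W2 := 536870912) (P3 := 858993459) (W3 := 64424510) (N0 := 3) (En := eng) (mo := mog) (C1 := cd3q2) (C2 := cd1q2a) (C3 := pd0)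
    rfl k0_pp_202_a

noncomputable def f_pp_202_b : ℕ → ℕ → ℕ → ℕ → Bool := onCell 1073741824 536870912 1239849684 370763052 858993459 64424510
    (rowB 3 eng mog cd3q2 cd1q2b pd0 0 false true true .pp 2 0 2 (qsf 1073741824 536870912 1239849684 370763052 0) ndB3q2 ndB1q2b pcB0 Cut.none Ext.none)

def k0_pp_202_b : ∃ t, chk3 f_pp_202_b t 1 1 1 = true :=
  ⟨(l 3), by decide +kernel⟩

theorem c_pp_202_b : CertB 1073741824 536870912 1239849684 370763052 858993459 64424510 3 eng mog cd3q2 cd1q2b pd0 false true true .pp 2 0 2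
    ndB3q2 ndB1q2b pcB0 Cut.none Ext.none :=
  certB0 (fam := false) (s1 := true) (s2 := true) (a := 2) (b := 0) (c := 2) (cn := .pp) (n1 := ndB3q2) (n2 := ndB1q2b) (pc := pcB0) (cut := Cut.none) (xt := Ext.none) (P1 := 1073741824) (W1 := 536870912) (P2 := 1239849684) (W2 := 370763052) (P3 := 858993459) (W3 := 64424510) (N0 := 3) (En := eng) (mo := mog) (C1 := cd3q2) (C2 := cd1q2b) (C3 := pd0)
    rfl k0_pp_202_b

noncomputable def f_pp_203 : ℕ → ℕ → ℕ → ℕ → Bool := onCell 1073741824 536870912 0 536870912 858993459 64424510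
    (rowB 3 eng mog cd3q2 cd1q3 pd0 1 false true true .up 2 0 3 (qsf 1073741824 536870912 1610612736 536870912 0) ndB3q2 ndB1q3 pcB0 Cut.none Ext.none)

def k0_pp_203 : ∃ t, chk3 f_pp_203 t 1 1 1 = true :=
  ⟨(a (l 3) (l 3)), by decide +kernel⟩

theorem c_pp_203 : CertB 1073741824 536870912 1610612736 536870912 858993459 64424510 3 eng mog cd3q2 cd1q3 pd0 false true true .up 2 0 3
    ndB3q2 ndB1q3 pcB0 Cut.none Ext.none :=
  certB1 (fam := false) (s1 := true) (s2 := true) (a := 2) (b := 0) (c := 3) (cn := .up) (n1 := ndB3q2) (n2 := ndB1q3) (pc := pcB0) (cut := Cut.none) (xt := Ext.none) (P1 := 1073741824) (W1 := 536870912) (P2 := 1610612736) (W2 := 536870912) (P3 := 858993459) (W3 := 64424510) (N0 := 3) (En := eng) (mo := mog) (C1 := cd3q2) (C2 := cd1q3) (C3 := pd0)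
    rfl (fun _ => rfl) k0_pp_203

noncomputable def f_pp_213 : ℕ → ℕ → ℕ → ℕ → Bool := onCell 1073741824 536870912 536870912 536870912 858993459 64424510
    (rowB 3 eng mog cd3q2 cd1q3 pd1 1 false true true .pnn 2 1 3 (qsf 1073741824 536870912 1610612736 536870912 1) ndB3q2 ndB1q3 pcB1 Cut.none Ext.none)

def k0_pp_213 : ∃ t, chk3 f_pp_213 t 2 1 1 = true :=
  ⟨(b (b (b (l 3) (b (a (a (a (l 3) (l 3)) (l 3)) (l 3)) (a (b (a (c (a (c (l 15900136) (l 15872240)) (l 15875360)) (a (l 221893882551) (l 15853736))) (c (l 250885065015) (l 15875144))) (a (c (a (l 15928896) (l 15881224)) (a (l 15837936) (l 15851552))) (c (l 15878488) (l 15876272)))) (c (a (l 298129823863) (l 15881736)) (a (l 15913120) (l 15958008)))))) (b (a (c (b (a (b (a (l 15892216) (l 15891008)) (l 15903128)) (c (l 15917336) (l 15895648))) (a (c (l 15961088) (l 15904312)) (l 15960208))) (b (a (c (l 15851816) (l 15835520)) (l 15881336)) (a (l 15951208) (l 15898288)))) (c (b (a (l 15924416) (l 15949928))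 (a (l 16001328) (l 16027528))) (b (a (l 15928296) (l 15981824)) (l 15988616)))) (b (a (c (a (l 15992704) (l 16045288)) (a (l 15863664) (l 15933328))) (c (a (l 16112320) (l 16105648)) (l 16039576))) (a (c (a (l 16092224) (l 16168096)) (a (l 15903544) (l 15997272))) (a (l 16135120) (l 16148320)))))) (a (b (b (c (a (l 16342528) (l 16357032)) (a (l 16039632) (l 16178552))) (a (b (l 16456704) (l 16526392)) (b (l 16372504) (l 16438320)))) (b (b (a (l 16590472) (l 16507632)) (a (l 16664832) (l 16582832))) (a (l 16721832) (b (l 16709784) (l 2))))) (b (b (a (b (l 16203640) (l 16272872)) (b (l 16218664) (l 16286224))) (a (c (l 16366792) (l 16297400)) (b (l 16348296) (l 2)))) (a (b (b (l 16432232) (l 2)) (l 2)) (l 2))))), by decide +kernel⟩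

def k1_pp_213 : ∃ t, chk3 f_pp_213 t 3 1 1 = true :=
  ⟨(b (b (b (l 3) (b (a (l 3) (l 3)) (a (a (c (l 15910960) (l 16009176)) (c (l 15967248) (l 16079216))) (a (c (l 16034120) (l 16151032)) (l 2))))) (a (a (b (b (c (l 15982312) (l 16041216)) (l 16042896)) (b (l 16124936) (l 16207848))) (b (b (c (l 16036080) (l 16108608)) (l 15952328)) (b (l 16150408) (l 2)))) (a (b (b (c (l 16096904) (l 16170696)) (l 2)) (l 2)) (l 2)))) (a (b (a (b (b (l 16245832) (l 2)) (l 2)) (l 2)) (l 2)) (l 2))), by decide +kernel⟩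

theorem s2_pp_213 : ∃ t, chk3 f_pp_213 t 1 1 1 = true := ex3_a k0_pp_213 k1_pp_213

theorem c_pp_213 : CertB 1073741824 536870912 1610612736 536870912 858993459 64424510 3 eng mog cd3q2 cd1q3 pd1 false true true .pnn 2 1 3
    ndB3q2 ndB1q3 pcB1 Cut.none Ext.none :=
  certB1 (fam := false) (s1 := true) (s2 := true) (a := 2) (b := 1) (c := 3) (cn := .pnn) (n1 := ndB3q2) (n2 := ndB1q3) (pc := pcB1) (cut := Cut.none) (xt := Ext.none) (P1 := 1073741824) (W1 := 536870912) (P2 := 1610612736) (W2 := 536870912) (P3 := 858993459) (W3 := 64424510) (N0 := 3) (En := eng) (mo := mog) (C1 := cd3q2) (C2 := cd1q3) (C3 := pd1)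
    rfl (fun _ => rfl) s2_pp_213

noncomputable def f_pp_303 : ℕ → ℕ → ℕ → ℕ → Bool := onCell 0 1230186008 1610612736 536870912 858993459 64424510
    (rowB 3 eng mog cd3q3 cd1q3 pd0 0 false true true .npn 3 0 3 (qsf 0 1230186008 1610612736 536870912 0) ndB3q3 ndB1q3 pcB0 Cut.none Ext.none)

def k0_pp_303 : ∃ t, chk3 f_pp_303 t 1 1 1 = true :=
  ⟨(a (l 3) (l 3)), by decide +kernel⟩

theorem c_pp_303 : CertB 0 1230186008 1610612736 536870912 858993459 64424510 3 eng mog cd3q3 cd1q3 pd0 false true true .npn 3 0 3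
    ndB3q3 ndB1q3 pcB0 Cut.none Ext.none :=
  certB0 (fam := false) (s1 := true) (s2 := true) (a := 3) (b := 0) (c := 3) (cn := .npn) (n1 := ndB3q3) (n2 := ndB1q3) (pc := pcB0) (cut := Cut.none) (xt := Ext.none) (P1 := 0) (W1 := 1230186008) (P2 := 1610612736) (W2 := 536870912) (P3 := 858993459) (W3 := 64424510) (N0 := 3) (En := eng) (mo := mog) (C1 := cd3q3) (C2 := cd1q3) (C3 := pd0)
    rfl k0_pp_303

noncomputable def f_pp_313 : ℕ → ℕ → ℕ → ℕ → Bool := onCell 0 1230186008 1610612736 536870912 858993459 64424510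
    (rowB 3 eng mog cd3q3 cd1q3 pd1 0 false true true .dn 3 1 3 (qsf 0 1230186008 1610612736 536870912 1) ndB3q3 ndB1q3 pcB1 Cut.none Ext.none)

def k0_pp_313 : ∃ t, chk3 f_pp_313 t 1 1 1 = true :=
  ⟨(a (l 1) (l 3)), by decide +kernel⟩

theorem c_pp_313 : CertB 0 1230186008 1610612736 536870912 858993459 64424510 3 eng mog cd3q3 cd1q3 pd1 false true true .dn 3 1 3
    ndB3q3 ndB1q3 pcB1 Cut.none Ext.none :=
  certB0 (fam := false) (s1 := true) (s2 := true) (a := 3) (b := 1) (c := 3) (cn := .dn) (n1 := ndB3q3) (n2 := ndB1q3) (pc := pcB1) (cut := Cut.none) (xt := Ext.none) (P1 := 0) (W1 := 1230186008) (P2 := 1610612736) (W2 := 536870912) (P3 := 858993459) (W3 := 64424510) (N0 := 3) (En := eng) (mo := mog) (C1 := cd3q3) (C2 := cd1q3) (C3 := pd1)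
    rfl k0_pp_313

noncomputable def f_pm_001 : ℕ → ℕ → ℕ → ℕ → Bool := onCell 0 536870912 536870912 536870912 858993459 64424510
    (rowB 3 eng mog cd3q0 cd1q1 pd0 0 false true false .up 0 0 1 (qsf 0 536870912 536870912 536870912 0) ndB3q0 ndB1q1 pcB0 Cut.none Ext.none)

def k0_pm_001 : ∃ t, chk3 f_pm_001 t 1 1 1 = true :=
  ⟨(l 4), by decide +kernel⟩

theorem c_pm_001 : CertB 0 536870912 536870912 536870912 858993459 64424510 3 eng mog cd3q0 cd1q1 pd0 false true false .up 0 0 1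
    ndB3q0 ndB1q1 pcB0 Cut.none Ext.none :=
  certB0 (fam := false) (s1 := true) (s2 := false) (a := 0) (b := 0) (c := 1) (cn := .up) (n1 := ndB3q0) (n2 := ndB1q1) (pc := pcB0) (cut := Cut.none) (xt := Ext.none) (P1 := 0) (W1 := 536870912) (P2 := 536870912) (W2 := 536870912) (P3 := 858993459) (W3 := 64424510) (N0 := 3) (En := eng) (mo := mog) (C1 := cd3q0) (C2 := cd1q1) (C3 := pd0)
    rfl k0_pm_001

noncomputable def f_pm_011 : ℕ → ℕ → ℕ → ℕ → Bool := onCell 0 536870912 536870912 536870912 858993459 64424510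
    (rowB 3 eng mog cd3q0 cd1q1 pd1 0 false true false .pnn 0 1 1 (qsf 0 536870912 536870912 536870912 1) ndB3q0 ndB1q1 pcB1 Cut.none Ext.none)

def k0_pm_011 : ∃ t, chk3 f_pm_011 t 1 1 1 = true :=
  ⟨(l 4), by decide +kernel⟩

theorem c_pm_011 : CertB 0 536870912 536870912 536870912 858993459 64424510 3 eng mog cd3q0 cd1q1 pd1 false true false .pnn 0 1 1
    ndB3q0 ndB1q1 pcB1 Cut.none Ext.none :=
  certB0 (fam := false) (s1 := true) (s2 := false) (a := 0) (b := 1) (c := 1) (cn := .pnn) (n1 := ndB3q0) (n2 := ndB1q1) (pc := pcB1) (cut := Cut.none) (xt := Ext.none) (P1 := 0) (W1 := 536870912) (P2 := 536870912) (W2 := 536870912) (P3 := 858993459) (W3 := 64424510) (N0 := 3) (En := eng) (mo := mog) (C1 := cd3q0) (C2 := cd1q1) (C3 := pd1)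
    rfl k0_pm_011

noncomputable def f_pm_012_a : ℕ → ℕ → ℕ → ℕ → Bool := onCell 0 536870912 0 536870912 858993459 64424510
    (rowB 3 eng mog cd3q0 cd1q2a pd1 0 false true false .pnp 0 1 2 (qsf 0 536870912 0 536870912 1) ndB3q0 ndB1q2a pcB1 Cut.none Ext.none)

def k0_pm_012_a : ∃ t, chk3 f_pm_012_a t 1 1 1 = true :=
  ⟨(l 4), by decide +kernel⟩

theorem c_pm_012_a : CertB 0 536870912 0 536870912 858993459 64424510 3 eng mog cd3q0 cd1q2a pd1 false true false .pnp 0 1 2
    ndB3q0 ndB1q2a pcB1 Cut.none Ext.none :=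
  certB0 (fam := false) (s1 := true) (s2 := false) (a := 0) (b := 1) (c := 2) (cn := .pnp) (n1 := ndB3q0) (n2 := ndB1q2a) (pc := pcB1) (cut := Cut.none) (xt := Ext.none) (P1 := 0) (W1 := 536870912) (P2 := 0) (W2 := 536870912) (P3 := 858993459) (W3 := 64424510) (N0 := 3) (En := eng) (mo := mog) (C1 := cd3q0) (C2 := cd1q2a) (C3 := pd1)
    rfl k0_pm_012_a

noncomputable def f_pm_012_b : ℕ → ℕ → ℕ → ℕ → Bool := onCell 0 536870912 1239849684 370763052 858993459 64424510
    (rowB 3 eng mog cd3q0 cd1q2b pd1 0 false true false .pnp 0 1 2 (qsf 0 536870912 1239849684 370763052 1) ndB3q0 ndB1q2b pcB1 Cut.none Ext.none)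

def k0_pm_012_b : ∃ t, chk3 f_pm_012_b t 1 1 1 = true :=
  ⟨(l 4), by decide +kernel⟩

theorem c_pm_012_b : CertB 0 536870912 1239849684 370763052 858993459 64424510 3 eng mog cd3q0 cd1q2b pd1 false true false .pnp 0 1 2
    ndB3q0 ndB1q2b pcB1 Cut.none Ext.none :=
  certB0 (fam := false) (s1 := true) (s2 := false) (a := 0) (b := 1) (c := 2) (cn := .pnp) (n1 := ndB3q0) (n2 := ndB1q2b) (pc := pcB1) (cut := Cut.none) (xt := Ext.none) (P1 := 0) (W1 := 536870912) (P2 := 1239849684) (W2 := 370763052) (P3 := 858993459) (W3 := 64424510) (N0 := 3) (En := eng) (mo := mog) (C1 := cd3q0) (C2 := cd1q2b) (C3 := pd1)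
    rfl k0_pm_012_b

noncomputable def f_pm_022_a : ℕ → ℕ → ℕ → ℕ → Bool := onCell 0 536870912 0 536870912 858993459 64424510
    (rowB 3 eng mog cd3q0 cd1q2a pd2 0 false true false .pp 0 2 2 (qsf 0 536870912 0 536870912 2) ndB3q0 ndB1q2a pcB2 Cut.none Ext.none)

def k0_pm_022_a : ∃ t, chk3 f_pm_022_a t 1 1 1 = true :=
  ⟨(l 4), by decide +kernel⟩

theorem c_pm_022_a : CertB 0 536870912 0 536870912 858993459 64424510 3 eng mog cd3q0 cd1q2a pd2 false true false .pp 0 2 2
    ndB3q0 ndB1q2a pcB2 Cut.none Ext.none :=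
  certB0 (fam := false) (s1 := true) (s2 := false) (a := 0) (b := 2) (c := 2) (cn := .pp) (n1 := ndB3q0) (n2 := ndB1q2a) (pc := pcB2) (cut := Cut.none) (xt := Ext.none) (P1 := 0) (W1 := 536870912) (P2 := 0) (W2 := 536870912) (P3 := 858993459) (W3 := 64424510) (N0 := 3) (En := eng) (mo := mog) (C1 := cd3q0) (C2 := cd1q2a) (C3 := pd2)
    rfl k0_pm_022_a

noncomputable def f_pm_022_b : ℕ → ℕ → ℕ → ℕ → Bool := onCell 0 536870912 1239849684 370763052 858993459 64424510
    (rowB 3 eng mog cd3q0 cd1q2b pd2 0 false true false .pp 0 2 2 (qsf 0 536870912 1239849684 370763052 2) ndB3q0 ndB1q2b pcB2 Cut.none Ext.none)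

def k0_pm_022_b : ∃ t, chk3 f_pm_022_b t 1 1 1 = true :=
  ⟨(l 4), by decide +kernel⟩

theorem c_pm_022_b : CertB 0 536870912 1239849684 370763052 858993459 64424510 3 eng mog cd3q0 cd1q2b pd2 false true false .pp 0 2 2
    ndB3q0 ndB1q2b pcB2 Cut.none Ext.none :=
  certB0 (fam := false) (s1 := true) (s2 := false) (a := 0) (b := 2) (c := 2) (cn := .pp) (n1 := ndB3q0) (n2 := ndB1q2b) (pc := pcB2) (cut := Cut.none) (xt := Ext.none) (P1 := 0) (W1 := 536870912) (P2 := 1239849684) (W2 := 370763052) (P3 := 858993459) (W3 := 64424510) (N0 := 3) (En := eng) (mo := mog) (C1 := cd3q0) (C2 := cd1q2b) (C3 := pd2)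
    rfl k0_pm_022_b

noncomputable def f_pm_023 : ℕ → ℕ → ℕ → ℕ → Bool := onCell 0 536870912 1610612736 536870912 858993459 64424510
    (rowB 3 eng mog cd3q0 cd1q3 pd2 0 false true false .up 0 2 3 (qsf 0 536870912 1610612736 536870912 2) ndB3q0 ndB1q3 pcB2 Cut.none Ext.none)

def k0_pm_023 : ∃ t, chk3 f_pm_023 t 1 1 1 = true :=
  ⟨(l 4), by decide +kernel⟩

theorem c_pm_023 : CertB 0 536870912 1610612736 536870912 858993459 64424510 3 eng mog cd3q0 cd1q3 pd2 false true false .up 0 2 3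
    ndB3q0 ndB1q3 pcB2 Cut.none Ext.none :=
  certB0 (fam := false) (s1 := true) (s2 := false) (a := 0) (b := 2) (c := 3) (cn := .up) (n1 := ndB3q0) (n2 := ndB1q3) (pc := pcB2) (cut := Cut.none) (xt := Ext.none) (P1 := 0) (W1 := 536870912) (P2 := 1610612736) (W2 := 536870912) (P3 := 858993459) (W3 := 64424510) (N0 := 3) (En := eng) (mo := mog) (C1 := cd3q0) (C2 := cd1q3) (C3 := pd2)
    rfl k0_pm_023

noncomputable def f_pm_033 : ℕ → ℕ → ℕ → ℕ → Bool := onCell 0 536870912 1610612736 536870912 858993459 64424510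
    (rowB 3 eng mog cd3q0 cd1q3 pd3 0 false true false .pnn 0 3 3 (qsf 0 536870912 1610612736 536870912 3) ndB3q0 ndB1q3 pcB3 Cut.none Ext.none)

def k0_pm_033 : ∃ t, chk3 f_pm_033 t 1 1 1 = true :=
  ⟨(l 4), by decide +kernel⟩

theorem c_pm_033 : CertB 0 536870912 1610612736 536870912 858993459 64424510 3 eng mog cd3q0 cd1q3 pd3 false true false .pnn 0 3 3
    ndB3q0 ndB1q3 pcB3 Cut.none Ext.none :=
  certB0 (fam := false) (s1 := true) (s2 := false) (a := 0) (b := 3) (c := 3) (cn := .pnn) (n1 := ndB3q0) (n2 := ndB1q3) (pc := pcB3) (cut := Cut.none) (xt := Ext.none) (P1 := 0) (W1 := 536870912) (P2 := 1610612736) (W2 := 536870912) (P3 := 858993459) (W3 := 64424510) (N0 := 3) (En := eng) (mo := mog) (C1 := cd3q0) (C2 := cd1q3) (C3 := pd3)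
    rfl k0_pm_033

noncomputable def f_pm_101 : ℕ → ℕ → ℕ → ℕ → Bool := onCell 536870912 536870912 536870912 536870912 858993459 64424510
    (rowB 3 eng mog cd3q1 cd1q1 pd0 0 false true false .npn 1 0 1 (qsf 536870912 536870912 536870912 536870912 0) ndB3q1 ndB1q1 pcB0 Cut.none Ext.none)

def k0_pm_101 : ∃ t, chk3 f_pm_101 t 1 1 1 = true :=
  ⟨(l 4), by decide +kernel⟩

theorem c_pm_101 : CertB 536870912 536870912 536870912 536870912 858993459 64424510 3 eng mog cd3q1 cd1q1 pd0 false true false .npn 1 0 1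
    ndB3q1 ndB1q1 pcB0 Cut.none Ext.none :=
  certB0 (fam := false) (s1 := true) (s2 := false) (a := 1) (b := 0) (c := 1) (cn := .npn) (n1 := ndB3q1) (n2 := ndB1q1) (pc := pcB0) (cut := Cut.none) (xt := Ext.none) (P1 := 536870912) (W1 := 536870912) (P2 := 536870912) (W2 := 536870912) (P3 := 858993459) (W3 := 64424510) (N0 := 3) (En := eng) (mo := mog) (C1 := cd3q1) (C2 := cd1q1) (C3 := pd0)
    rfl k0_pm_101

noncomputable def f_pm_102_a : ℕ → ℕ → ℕ → ℕ → Bool := onCell 536870912 536870912 0 536870912 858993459 64424510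
    (rowB 3 eng mog cd3q1 cd1q2a pd0 0 false true false .npp 1 0 2 (qsf 536870912 536870912 0 536870912 0) ndB3q1 ndB1q2a pcB0 Cut.none Ext.none)

def k0_pm_102_a : ∃ t, chk3 f_pm_102_a t 1 1 1 = true :=
  ⟨(a (l 4) (b (a (l 4) (b (b (a (a (l 14861016) (l 14769888)) (a (l 14673856) (l 14574624))) (l 4)) (l 4))) (l 4))), by decide +kernel⟩

theorem c_pm_102_a : CertB 536870912 536870912 0 536870912 858993459 64424510 3 eng mog cd3q1 cd1q2a pd0 false true false .npp 1 0 2
    ndB3q1 ndB1q2a pcB0 Cut.none Ext.none :=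
  certB0 (fam := false) (s1 := true) (s2 := false) (a := 1) (b := 0) (c := 2) (cn := .npp) (n1 := ndB3q1) (n2 := ndB1q2a) (pc := pcB0) (cut := Cut.none) (xt := Ext.none) (P1 := 536870912) (W1 := 536870912) (P2 := 0) (W2 := 536870912) (P3 := 858993459) (W3 := 64424510) (N0 := 3) (En := eng) (mo := mog) (C1 := cd3q1) (C2 := cd1q2a) (C3 := pd0)
    rfl k0_pm_102_a

noncomputable def f_pm_102_b : ℕ → ℕ → ℕ → ℕ → Bool := onCell 536870912 536870912 1239849684 370763052 858993459 64424510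
    (rowB 3 eng mog cd3q1 cd1q2b pd0 0 false true false .npp 1 0 2 (qsf 536870912 536870912 1239849684 370763052 0) ndB3q1 ndB1q2b pcB0 Cut.none Ext.none)

def k0_pm_102_b : ∃ t, chk3 f_pm_102_b t 1 1 1 = true :=
  ⟨(a (l 4) (b (a (l 4) (b (a (b (a (l 14858520) (l 14773736)) (l 14981600)) (b (a (l 14687040) (l 14597928)) (l 14794448))) (a (b (l 14764968) (l 14732896)) (b (l 14606800) (l 14583312))))) (a (l 4) (b (a (a (l 4) (l 14651376)) (b (l 14558176) (l 14535080))) (a (l 4) (b (l 14517168) (l 14509304))))))), by decide +kernel⟩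

theorem c_pm_102_b : CertB 536870912 536870912 1239849684 370763052 858993459 64424510 3 eng mog cd3q1 cd1q2b pd0 false true false .npp 1 0 2
    ndB3q1 ndB1q2b pcB0 Cut.none Ext.none :=
  certB0 (fam := false) (s1 := true) (s2 := false) (a := 1) (b := 0) (c := 2) (cn := .npp) (n1 := ndB3q1) (n2 := ndB1q2b) (pc := pcB0) (cut := Cut.none) (xt := Ext.none) (P1 := 536870912) (W1 := 536870912) (P2 := 1239849684) (W2 := 370763052) (P3 := 858993459) (W3 := 64424510) (N0 := 3) (En := eng) (mo := mog) (C1 := cd3q1) (C2 := cd1q2b) (C3 := pd0)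
    rfl k0_pm_102_b

noncomputable def f_pm_112_a : ℕ → ℕ → ℕ → ℕ → Bool := onCell 536870912 536870912 0 536870912 858993459 64424510
    (rowB 3 eng mog cd3q1 cd1q2a pd1 0 false true false .dn 1 1 2 (qsf 536870912 536870912 0 536870912 1) ndB3q1 ndB1q2a pcB1 Cut.none Ext.none)

def k0_pm_112_a : ∃ t, chk3 f_pm_112_a t 1 1 1 = true :=
  ⟨(a (l 4) (l 1)), by decide +kernel⟩

theorem c_pm_112_a : CertB 536870912 536870912 0 536870912 858993459 64424510 3 eng mog cd3q1 cd1q2a pd1 false true false .dn 1 1 2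
    ndB3q1 ndB1q2a pcB1 Cut.none Ext.none :=
  certB0 (fam := false) (s1 := true) (s2 := false) (a := 1) (b := 1) (c := 2) (cn := .dn) (n1 := ndB3q1) (n2 := ndB1q2a) (pc := pcB1) (cut := Cut.none) (xt := Ext.none) (P1 := 536870912) (W1 := 536870912) (P2 := 0) (W2 := 536870912) (P3 := 858993459) (W3 := 64424510) (N0 := 3) (En := eng) (mo := mog) (C1 := cd3q1) (C2 := cd1q2a) (C3 := pd1)
    rfl k0_pm_112_a

noncomputable def f_pm_112_b : ℕ → ℕ → ℕ → ℕ → Bool := onCell 536870912 536870912 1239849684 370763052 858993459 64424510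
    (rowB 3 eng mog cd3q1 cd1q2b pd1 2 false true false .dn 1 1 2 (qsf 536870912 536870912 1239849684 370763052 1) ndB3q1 ndB1q2b pcB1 Cut.none Ext.none)

def k0_pm_112_b : ∃ t, chk3 f_pm_112_b t 1 1 1 = true :=
  ⟨(a (a (b (l 4) (a (l 14706864) (l 4))) (l 4)) (l 4)), by decide +kernel⟩

theorem c_pm_112_b : CertB 536870912 536870912 1239849684 370763052 858993459 64424510 3 eng mog cd3q1 cd1q2b pd1 false true false .dn 1 1 2
    ndB3q1 ndB1q2b pcB1 Cut.none Ext.none :=
  certB2 (fam := false) (s1 := true) (s2 := false) (a := 1) (b := 1) (c := 2) (cn := .dn) (n1 := ndB3q1) (n2 := ndB1q2b) (pc := pcB1) (cut := Cut.none) (xt := Ext.none) (P1 := 536870912) (W1 := 536870912) (P2 := 1239849684) (W2 := 370763052) (P3 := 858993459) (W3 := 64424510) (N0 := 3) (En := eng) (mo := mog) (C1 := cd3q1) (C2 := cd1q2b) (C3 := pd1)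
    rfl (fun _ => rfl) k0_pm_112_b

noncomputable def f_pm_113 : ℕ → ℕ → ℕ → ℕ → Bool := onCell 536870912 536870912 536870912 536870912 858993459 64424510
    (rowB 3 eng mog cd3q1 cd1q3 pd1 1 false true false .nn 1 1 3 (qsf 536870912 536870912 1610612736 536870912 1) ndB3q1 ndB1q3 pcB1 Cut.none Ext.none)

def k0_pm_113 : ∃ t, chk3 f_pm_113 t 1 1 1 = true :=
  ⟨(a (l 4) (a (b (l 4) (l 4)) (b (b (b (l 14563048) (l 14576512)) (b (l 14662112) (l 14872416))) (b (l 15628400) (l 17112200))))), by decide +kernel⟩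

theorem c_pm_113 : CertB 536870912 536870912 1610612736 536870912 858993459 64424510 3 eng mog cd3q1 cd1q3 pd1 false true false .nn 1 1 3
    ndB3q1 ndB1q3 pcB1 Cut.none Ext.none :=
  certB1 (fam := false) (s1 := true) (s2 := false) (a := 1) (b := 1) (c := 3) (cn := .nn) (n1 := ndB3q1) (n2 := ndB1q3) (pc := pcB1) (cut := Cut.none) (xt := Ext.none) (P1 := 536870912) (W1 := 536870912) (P2 := 1610612736) (W2 := 536870912) (P3 := 858993459) (W3 := 64424510) (N0 := 3) (En := eng) (mo := mog) (C1 := cd3q1) (C2 := cd1q3) (C3 := pd1)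
    rfl (fun _ => rfl) k0_pm_113

noncomputable def f_pm_123 : ℕ → ℕ → ℕ → ℕ → Bool := onCell 1073741824 536870912 1610612736 536870912 858993459 64424510
    (rowB 3 eng mog cd3q1 cd1q3 pd2 2 false true false .npn 1 2 3 (qsf 536870912 536870912 1610612736 536870912 2) ndB3q1 ndB1q3 pcB2 Cut.none Ext.none)

def k0_pm_123 : ∃ t, chk3 f_pm_123 t 1 1 1 = true :=
  ⟨(a (a (b (l 4) (b (l 4) (a (l 16818728) (l 4)))) (l 4)) (l 4)), by decide +kernel⟩

theorem c_pm_123 : CertB 536870912 536870912 1610612736 536870912 858993459 64424510 3 eng mog cd3q1 cd1q3 pd2 false true false .npn 1 2 3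
    ndB3q1 ndB1q3 pcB2 Cut.none Ext.none :=
  certB2 (fam := false) (s1 := true) (s2 := false) (a := 1) (b := 2) (c := 3) (cn := .npn) (n1 := ndB3q1) (n2 := ndB1q3) (pc := pcB2) (cut := Cut.none) (xt := Ext.none) (P1 := 536870912) (W1 := 536870912) (P2 := 1610612736) (W2 := 536870912) (P3 := 858993459) (W3 := 64424510) (N0 := 3) (En := eng) (mo := mog) (C1 := cd3q1) (C2 := cd1q3) (C3 := pd2)
    rfl (fun _ => rfl) k0_pm_123

noncomputable def f_pm_133 : ℕ → ℕ → ℕ → ℕ → Bool := onCell 536870912 536870912 1610612736 536870912 858993459 64424510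
    (rowB 3 eng mog cd3q1 cd1q3 pd3 0 false true false .dn 1 3 3 (qsf 536870912 536870912 1610612736 536870912 3) ndB3q1 ndB1q3 pcB3 Cut.none Ext.none)

def k0_pm_133 : ∃ t, chk3 f_pm_133 t 1 1 1 = true :=
  ⟨(a (l 4) (l 1)), by decide +kernel⟩

theorem c_pm_133 : CertB 536870912 536870912 1610612736 536870912 858993459 64424510 3 eng mog cd3q1 cd1q3 pd3 false true false .dn 1 3 3
    ndB3q1 ndB1q3 pcB3 Cut.none Ext.none :=
  certB0 (fam := false) (s1 := true) (s2 := false) (a := 1) (b := 3) (c := 3) (cn := .dn) (n1 := ndB3q1) (n2 := ndB1q3) (pc := pcB3) (cut := Cut.none) (xt := Ext.none) (P1 := 536870912) (W1 := 536870912) (P2 := 1610612736) (W2 := 536870912) (P3 := 858993459) (W3 := 64424510) (N0 := 3) (En := eng) (mo := mog) (C1 := cd3q1) (C2 := cd1q3) (C3 := pd3)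
    rfl k0_pm_133

noncomputable def f_pm_202_a : ℕ → ℕ → ℕ → ℕ → Bool := onCell 0 536870912 0 536870912 858993459 64424510
    (rowB 3 eng mog cd3q2 cd1q2a pd0 2 false true false .pp 2 0 2 (qsf 1073741824 536870912 0 536870912 0) ndB3q2 ndB1q2a pcB0 Cut.none Ext.none)

def k0_pm_202_a : ∃ t, chk3 f_pm_202_a t 2 2 1 = true :=
  ⟨(a (b (a (a (b (l 16305600) (l 16253456)) (b (a (l 16468672) (b (l 16439224) (l 16493504))) (l 16209392))) (a (b (a (b (l 16481592) (l 16518128)) (b (l 16509240) (l 16486032))) (c (l 16433408) (l 16458664))) (a (b (c (l 16442208) (l 16466152)) (b (l 16351112) (l 16373336))) (b (a (l 16424800) (l 16407120)) (a (b (l 16380864) (l 16341504)) (b (l 16338976) (l 16322688))))))) (a (a (b (c (l 16363608) (l 16403400)) (c (l 16325480) (l 16329928))) (b (c (l 16377448) (l 16400432)) (c (l 16306568) (l 16310088)))) (a (b (b (l 16217424) (l 16175736)) (c (l 16266952) (l 16244592))) (a (b (l 16250512) (c (l 16249152) (l 16203808))) (b (a (l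 16282528) (c (l 16282264) (l 16245240))) (a (b (l 16219568) (l 16174648)) (c (l 16211624) (l 16146056)))))))) (a (a (b (a (b (l 16340400) (b (a (l 16354736) (l 16351608)) (a (l 16318600) (l 16316504)))) (b (l 16397640) (b (l 16348408) (a (l 16314488) (l 16311128))))) (a (b (a (l 16320904) (l 180421437079)) (c (l 295311759783) (a (l 16133376) (l 16121632)))) (b (c (l 303364956087) (l 497175242791)) (l 1)))) (b (b (l 1) (l 1)) (l 1))) (l 1))), by decide +kernel⟩

def k1_pm_202_a : ∃ t, chk3 f_pm_202_a t 2 6 1 = true :=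
  ⟨(a (a (b (a (c (b (l 16252136) (l 16214176)) (l 16245024)) (c (b (l 16244488) (l 16199576)) (l 16185216))) (a (c (b (a (l 16177432) (l 16165736)) (l 16117336)) (b (a (l 16177672) (l 16149568)) (l 16097144))) (b (a (c (l 16155304) (l 16122496)) (l 16122024)) (a (c (l 16105720) (l 16058224)) (b (c (l 16106304) (l 16042472)) (l 16041448)))))) (a (b (c (b (l 16221840) (l 16174456)) (b (l 16182048) (l 16203048))) (b (a (l 16163176) (c (l 16115736) (l 16030064))) (a (b (c (l 16090648) (l 16007064)) (a (l 16024192) (l 16013408))) (b (l 495027027095) (l 1))))) (b (a (b (l 16154176) (c (l 16141600) (l 16059432))) (b (a (l 16126720) (l 348461563143)) (l 1))) (a (b (c (l 16095568) (l 15990624)) (l 1)) (l 1))))) (l 1)), by decide +kernel⟩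

def k2_pm_202_a : ∃ t, chk3 f_pm_202_a t 2 7 1 = true :=
  ⟨(a (a (b (c (a (b (a (l 16057040) (l 16049896)) (a (l 15993392) (l 15987200))) (b (a (l 16040936) (l 16030608)) (a (b (l 15995168) (l 15964360)) (l 397316460119)))) (a (b (a (l 16032344) (l 16007432)) (a (l 15947752) (l 15923464))) (b (a (l 15979440) (l 15948832)) (a (b (l 15918120) (l 15875152)) (l 496637465047))))) (b (a (a (b (c (l 15942496) (l 15878360)) (c (a (l 15907552) (l 15905640)) (a (l 15834384) (l 15823520)))) (b (c (l 15937512) (l 15855000)) (a (c (l 15903880) (l 15812440)) (c (l 15902600) (l 15801464))))) (a (b (c (l 425770594535) (l 527239077591)) (l 1)) (l 1))) (a (a (a (b (b (c (l 15879288) (l 15795480)) (c (l 15859896) (l 15768664))) (c (b (a (l 15840080) (l 15840176)) (a (l 15820136) (l 396242540263))) (b (a (l 15743440) (l 15738976)) (a (l 15715528) (l 482678534791))))) (a (b (b (l 15833048) (l 15852400)) (b (b (l 15793504) (l 1)) (l 1))) (b (b (l 15830264) (l 503079944135))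 (l 1)))) (a (b (b (c (l 15877288) (l 15774944)) (l 1)) (l 1)) (l 1))) (l 1)))) (a (b (b (a (c (l 364030547399) (l 428991704551)) (l 1)) (l 1)) (l 1)) (l 1))) (l 1)), by decide +kernel⟩

def k3_pm_202_a : ∃ t, chk3 f_pm_202_a t 3 1 1 = true :=
  ⟨(l 1), by decide +kernel⟩

theorem s4_pm_202_a : ∃ t, chk3 f_pm_202_a t 2 3 1 = true := ex3_b k1_pm_202_a k2_pm_202_a

theorem s5_pm_202_a : ∃ t, chk3 f_pm_202_a t 2 1 1 = true := ex3_b k0_pm_202_a s4_pm_202_a

theorem s6_pm_202_a : ∃ t, chk3 f_pm_202_a t 1 1 1 = true := ex3_a s5_pm_202_a k3_pm_202_a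

theorem c_pm_202_a : CertB 1073741824 536870912 0 536870912 858993459 64424510 3 eng mog cd3q2 cd1q2a pd0 false true false .pp 2 0 2
    ndB3q2 ndB1q2a pcB0 Cut.none Ext.none :=
  certB2 (fam := false) (s1 := true) (s2 := false) (a := 2) (b := 0) (c := 2) (cn := .pp) (n1 := ndB3q2) (n2 := ndB1q2a) (pc := pcB0) (cut := Cut.none) (xt := Ext.none) (P1 := 1073741824) (W1 := 536870912) (P2 := 0) (W2 := 536870912) (P3 := 858993459) (W3 := 64424510) (N0 := 3) (En := eng) (mo := mog) (C1 := cd3q2) (C2 := cd1q2a) (C3 := pd0)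
    rfl (fun _ => rfl) s6_pm_202_a

noncomputable def f_pm_202_b : ℕ → ℕ → ℕ → ℕ → Bool := onCell 0 536870912 1239849684 370763052 858993459 64424510
    (rowB 3 eng mog cd3q2 cd1q2b pd0 2 false true false .pp 2 0 2 (qsf 1073741824 536870912 1239849684 370763052 0) ndB3q2 ndB1q2b pcB0 Cut.none Ext.none)

def k0_pm_202_b : ∃ t, chk3 f_pm_202_b t 2 1 1 = true :=
  ⟨(b (b (b (a (a (a (c (l 16400192) (l 16322480)) (c (l 16410344) (l 16348992))) (a (a (l 16304088) (l 16267680)) (a (c (l 16426616) (l 16467480)) (c (a (l 16407384) (l 16397512)) (l 16430032))))) (a (a (a (b (l 16399616) (l 16390656)) (b (l 16395320) (l 16386848))) (a (b (l 16411600) (l 16382616)) (l 499322465191))) (a (b (l 1) (l 508986007495)) (l 1)))) (a (a (a (c (l 16311160) (l 16222368)) (l 16297352)) (a (c (l 16367792) (l 16357488)) (a (l 16374056) (c (l 16287688) (l 16379328))))) (a (a (a (l 16346128) (l 16280288)) (a (l 16339776) (l 16335704))) (a (c (l 16336872) (l 16320312)) (c (l 16326096)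 (l 16191312)))))) (c (a (a (b (l 16237360) (l 16154504)) (a (l 16230912) (a (l 16225912) (l 16221296)))) (a (a (l 16246336) (l 16230688)) (a (l 16108768) (l 16104736)))) (a (a (a (l 15964464) (l 16135344)) (a (l 16224296) (a (l 16308096) (l 16298664)))) (a (a (l 16291008) (l 16278464)) (a (l 16262208) (l 16126264)))))) (a (b (a (c (b (l 16068448) (a (l 15961536) (l 15993312))) (a (b (l 15890904) (l 15657992)) (b (l 16011624) (l 15929520)))) (a (c (l 16054784) (l 16043960)) (a (l 16093664) (l 15950808)))) (b (a (c (a (l 85528050471) (l 15783720)) (a (c (l 15703392) (l 127940668967)) (a (l 15848160) (l 15877768)))) (a (b (l 15958808) (l 15927656)) (b (l 16009976) (l 15971608)))) (a (a (l 3) (c (l 15714896) (l 355574096727))) (a (c (l 15855896) (l 15873536)) (a (l 15916624) (l 15925208)))))) (a (b (a (b (l 16158464) (l 16087376)) (c (l 16088160) (l 16174744))) (b (a (l 16009968) (l 16022136)) (a (l 15936336) (l 15949456)))) (b (a (l 16131664) (l 16359296))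 (a (c (l 15947832) (l 16051280)) (b (l 16039040) (l 15971624))))))), by decide +kernel⟩

def k1_pm_202_b : ∃ t, chk3 f_pm_202_b t 3 1 1 = true :=
  ⟨(a (b (b (l 1) (b (a (a (l 462814657271) (l 482678797863)) (l 1)) (a (a (l 16179448) (l 16147760)) (c (l 16103016) (l 503079602791))))) (a (b (c (l 16101136) (l 16121080)) (c (l 15978248) (l 16054624))) (b (c (l 24190839319) (l 16148080)) (c (l 15992160) (l 16028184))))) (b (l 1) (b (a (c (l 335039058551) (b (l 1) (l 15945576))) (l 1)) (a (c (l 15844736) (l 15970120)) (c (l 15976256) (l 363492867527)))))), by decide +kernel⟩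

theorem s2_pm_202_b : ∃ t, chk3 f_pm_202_b t 1 1 1 = true := ex3_a k0_pm_202_b k1_pm_202_b

theorem c_pm_202_b : CertB 1073741824 536870912 1239849684 370763052 858993459 64424510 3 eng mog cd3q2 cd1q2b pd0 false true false .pp 2 0 2
    ndB3q2 ndB1q2b pcB0 Cut.none Ext.none :=
  certB2 (fam := false) (s1 := true) (s2 := false) (a := 2) (b := 0) (c := 2) (cn := .pp) (n1 := ndB3q2) (n2 := ndB1q2b) (pc := pcB0) (cut := Cut.none) (xt := Ext.none) (P1 := 1073741824) (W1 := 536870912) (P2 := 1239849684) (W2 := 370763052) (P3 := 858993459) (W3 := 64424510) (N0 := 3) (En := eng) (mo := mog) (C1 := cd3q2) (C2 := cd1q2b) (C3 := pd0)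
    rfl (fun _ => rfl) s2_pm_202_b

noncomputable def f_pm_203 : ℕ → ℕ → ℕ → ℕ → Bool := onCell 1073741824 536870912 0 536870912 858993459 64424510
    (rowB 3 eng mog cd3q2 cd1q3 pd0 1 false true false .up 2 0 3 (qsf 1073741824 536870912 1610612736 536870912 0) ndB3q2 ndB1q3 pcB0 Cut.none Ext.none)

def k0_pm_203 : ∃ t, chk3 f_pm_203 t 1 1 1 = true :=
  ⟨(a (b (a (l 1) (b (l 1) (b (l 1) (a (l 1) (b (l 1) (l 15983784)))))) (b (a (b (l 1) (a (l 1) (l 15999384))) (b (a (l 224981379767) (c (l 15885016) (l 15954240))) (a (c (l 15783576) (l 15866008)) (l 15851160)))) (a (a (b (l 379062286935) (l 278131430151)) (c (l 134786621095) (l 150355871959))) (a (c (b (l 15843224) (l 15801784)) (l 15925720)) (b (l 15809432) (l 15795136)))))) (a (b (b (a (l 1) (b (l 1) (b (l 1) (a (l 1) (l 15908352))))) (b (a (b (l 1) (l 15964568)) (c (l 15834584) (l 15924064))) (a (b (l 15919896) (l 15881400)) (c (l 15666408) (l 15865800))))) (b (c (a (l 15853200) (b (l 15731696) (l 15720304)))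 (b (l 15854904) (l 15685128))) (b (a (l 15783408) (l 15536112)) (c (l 15898416) (l 15861544))))) (a (b (b (a (b (l 1) (b (l 218537803127) (l 15855560))) (a (b (l 1) (b (l 15851520) (l 3))) (l 3))) (b (c (l 171964620407) (l 132236098855)) (c (l 131162166695) (l 15811360)))) (b (b (l 115056351767) (l 15770184)) (b (l 15819376) (l 15896016)))) (b (l 3) (l 3))))), by decide +kernel⟩

theorem c_pm_203 : CertB 1073741824 536870912 1610612736 536870912 858993459 64424510 3 eng mog cd3q2 cd1q3 pd0 false true false .up 2 0 3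
    ndB3q2 ndB1q3 pcB0 Cut.none Ext.none :=
  certB1 (fam := false) (s1 := true) (s2 := false) (a := 2) (b := 0) (c := 3) (cn := .up) (n1 := ndB3q2) (n2 := ndB1q3) (pc := pcB0) (cut := Cut.none) (xt := Ext.none) (P1 := 1073741824) (W1 := 536870912) (P2 := 1610612736) (W2 := 536870912) (P3 := 858993459) (W3 := 64424510) (N0 := 3) (En := eng) (mo := mog) (C1 := cd3q2) (C2 := cd1q3) (C3 := pd0)
    rfl (fun _ => rfl) k0_pm_203

noncomputable def f_pm_213 : ℕ → ℕ → ℕ → ℕ → Bool := onCell 1073741824 536870912 536870912 536870912 858993459 64424510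
    (rowB 3 eng mog cd3q2 cd1q3 pd1 1 false true false .pnn 2 1 3 (qsf 1073741824 536870912 1610612736 536870912 1) ndB3q2 ndB1q3 pcB1 Cut.none Ext.none)

def k0_pm_213 : ∃ t, chk3 f_pm_213 t 1 1 1 = true :=
  ⟨(a (b (b (a (b (c (a (l 15822904) (l 15849752)) (a (l 15867936) (l 15842448))) (c (a (l 15865320) (l 15909456)) (a (l 15829872) (l 15817112)))) (b (a (c (l 15882392) (l 15803792)) (c (l 15912896) (l 15803640))) (c (a (l 15959640) (l 16009064)) (a (l 15808672) (l 15844792))))) (a (a (c (b (l 15969624) (l 16179464)) (b (l 15827304) (l 15905968))) (b (c (l 16029472) (l 15841656)) (c (l 16242440) (l 15959176)))) (b (a (c (l 16100400) (l 15877856)) (c (l 16173616) (l 15958792))) (a (c (l 16333992) (l 16052112)) (c (l 16232224) (l 16095608)))))) (a (b (b (a (l 16345560) (c (l 16594448) (l 16237448))) (a (l 16767656) (l 16656360))) (b (a (l 16812720) (l 16523232)) (a (l 16742352) (c (l 16438312) (l 16530560))))) (b (b (a (l 16565896) (c (l 16110440) (l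 16207984))) (a (b (l 16362872) (l 16386936)) (b (l 16291496) (l 2)))) (a (b (b (l 16315936) (l 2)) (l 2)) (l 2))))) (b (a (b (b (a (c (l 15935624) (l 15845632)) (c (l 15944200) (l 15933560))) (a (c (l 16051776) (l 15924840)) (c (b (l 16003928) (l 16032048)) (l 16034488)))) (b (a (c (l 16122184) (l 16038840)) (c (b (l 16056392) (l 16079544)) (b (l 16102088) (l 16143472)))) (b (a (l 15989200) (c (l 16103432) (l 16181696))) (a (l 15960960) (l 2))))) (b (a (b (c (l 118814071655) (l 15813056)) (c (c (l 15982584) (l 16035920)) (l 160690381111))) (l 3)) (a (a (b (b (l 16060792) (l 2)) (l 2)) (l 2)) (l 2)))) (a (b (a (b (b (l 15991672) (l 2)) (l 2)) (l 2)) (l 2)) (l 2)))), by decide +kernel⟩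

theorem c_pm_213 : CertB 1073741824 536870912 1610612736 536870912 858993459 64424510 3 eng mog cd3q2 cd1q3 pd1 false true false .pnn 2 1 3
    ndB3q2 ndB1q3 pcB1 Cut.none Ext.none :=
  certB1 (fam := false) (s1 := true) (s2 := false) (a := 2) (b := 1) (c := 3) (cn := .pnn) (n1 := ndB3q2) (n2 := ndB1q3) (pc := pcB1) (cut := Cut.none) (xt := Ext.none) (P1 := 1073741824) (W1 := 536870912) (P2 := 1610612736) (W2 := 536870912) (P3 := 858993459) (W3 := 64424510) (N0 := 3) (En := eng) (mo := mog) (C1 := cd3q2) (C2 := cd1q3) (C3 := pd1)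
    rfl (fun _ => rfl) k0_pm_213

noncomputable def f_pm_303 : ℕ → ℕ → ℕ → ℕ → Bool := onCell 0 1230186008 1610612736 536870912 858993459 64424510
    (rowB 3 eng mog cd3q3 cd1q3 pd0 0 false true false .npn 3 0 3 (qsf 0 1230186008 1610612736 536870912 0) ndB3q3 ndB1q3 pcB0 Cut.none Ext.none)

def k0_pm_303 : ∃ t, chk3 f_pm_303 t 1 1 1 = true :=
  ⟨(a (l 3) (a (l 3) (b (l 3) (l 3)))), by decide +kernel⟩

theorem c_pm_303 : CertB 0 1230186008 1610612736 536870912 858993459 64424510 3 eng mog cd3q3 cd1q3 pd0 false true false .npn 3 0 3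
    ndB3q3 ndB1q3 pcB0 Cut.none Ext.none :=
  certB0 (fam := false) (s1 := true) (s2 := false) (a := 3) (b := 0) (c := 3) (cn := .npn) (n1 := ndB3q3) (n2 := ndB1q3) (pc := pcB0) (cut := Cut.none) (xt := Ext.none) (P1 := 0) (W1 := 1230186008) (P2 := 1610612736) (W2 := 536870912) (P3 := 858993459) (W3 := 64424510) (N0 := 3) (En := eng) (mo := mog) (C1 := cd3q3) (C2 := cd1q3) (C3 := pd0)
    rfl k0_pm_303

noncomputable def f_pm_313 : ℕ → ℕ → ℕ → ℕ → Bool := onCell 0 1230186008 1610612736 536870912 858993459 64424510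
    (rowB 3 eng mog cd3q3 cd1q3 pd1 0 false true false .dn 3 1 3 (qsf 0 1230186008 1610612736 536870912 1) ndB3q3 ndB1q3 pcB1 Cut.none Ext.none)

def k0_pm_313 : ∃ t, chk3 f_pm_313 t 1 1 1 = true :=
  ⟨(a (l 1) (a (l 1) (b (l 1) (l 3)))), by decide +kernel⟩

theorem c_pm_313 : CertB 0 1230186008 1610612736 536870912 858993459 64424510 3 eng mog cd3q3 cd1q3 pd1 false true false .dn 3 1 3
    ndB3q3 ndB1q3 pcB1 Cut.none Ext.none :=
  certB0 (fam := false) (s1 := true) (s2 := false) (a := 3) (b := 1) (c := 3) (cn := .dn) (n1 := ndB3q3) (n2 := ndB1q3) (pc := pcB1) (cut := Cut.none) (xt := Ext.none) (P1 := 0) (W1 := 1230186008) (P2 := 1610612736) (W2 := 536870912) (P3 := 858993459) (W3 := 64424510) (N0 := 3) (En := eng) (mo := mog) (C1 := cd3q3) (C2 := cd1q3) (C3 := pd1)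
    rfl k0_pm_313

noncomputable def f_mm_001 : ℕ → ℕ → ℕ → ℕ → Bool := onCell 0 536870912 536870912 536870912 858993459 64424510
    (rowB 3 eng mog cd3q0 cd1q1 pd0 0 false false false .up 0 0 1 (qsf 0 536870912 536870912 536870912 0) ndB3q0 ndB1q1 pcB0 Cut.none Ext.none)

def k0_mm_001 : ∃ t, chk3 f_mm_001 t 1 1 1 = true :=
  ⟨(l 5), by decide +kernel⟩

theorem c_mm_001 : CertB 0 536870912 536870912 536870912 858993459 64424510 3 eng mog cd3q0 cd1q1 pd0 false false false .up 0 0 1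
    ndB3q0 ndB1q1 pcB0 Cut.none Ext.none :=
  certB0 (fam := false) (s1 := false) (s2 := false) (a := 0) (b := 0) (c := 1) (cn := .up) (n1 := ndB3q0) (n2 := ndB1q1) (pc := pcB0) (cut := Cut.none) (xt := Ext.none) (P1 := 0) (W1 := 536870912) (P2 := 536870912) (W2 := 536870912) (P3 := 858993459) (W3 := 64424510) (N0 := 3) (En := eng) (mo := mog) (C1 := cd3q0) (C2 := cd1q1) (C3 := pd0)
    rfl k0_mm_001

noncomputable def f_mm_011 : ℕ → ℕ → ℕ → ℕ → Bool := onCell 0 536870912 536870912 536870912 858993459 64424510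
    (rowB 3 eng mog cd3q0 cd1q1 pd1 0 false false false .pnn 0 1 1 (qsf 0 536870912 536870912 536870912 1) ndB3q0 ndB1q1 pcB1 Cut.none Ext.none)

def k0_mm_011 : ∃ t, chk3 f_mm_011 t 1 1 1 = true :=
  ⟨(l 5), by decide +kernel⟩

theorem c_mm_011 : CertB 0 536870912 536870912 536870912 858993459 64424510 3 eng mog cd3q0 cd1q1 pd1 false false false .pnn 0 1 1
    ndB3q0 ndB1q1 pcB1 Cut.none Ext.none :=
  certB0 (fam := false) (s1 := false) (s2 := false) (a := 0) (b := 1) (c := 1) (cn := .pnn) (n1 := ndB3q0) (n2 := ndB1q1) (pc := pcB1) (cut := Cut.none) (xt := Ext.none) (P1 := 0) (W1 := 536870912) (P2 := 536870912) (W2 := 536870912) (P3 := 858993459) (W3 := 64424510) (N0 := 3) (En := eng) (mo := mog) (C1 := cd3q0) (C2 := cd1q1) (C3 := pd1)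
    rfl k0_mm_011

noncomputable def f_mm_012_a : ℕ → ℕ → ℕ → ℕ → Bool := onCell 0 536870912 0 536870912 858993459 64424510
    (rowB 3 eng mog cd3q0 cd1q2a pd1 0 false false false .pnp 0 1 2 (qsf 0 536870912 0 536870912 1) ndB3q0 ndB1q2a pcB1 Cut.none Ext.none)

def k0_mm_012_a : ∃ t, chk3 f_mm_012_a t 1 1 1 = true :=
  ⟨(l 5), by decide +kernel⟩

theorem c_mm_012_a : CertB 0 536870912 0 536870912 858993459 64424510 3 eng mog cd3q0 cd1q2a pd1 false false false .pnp 0 1 2
    ndB3q0 ndB1q2a pcB1 Cut.none Ext.none :=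
  certB0 (fam := false) (s1 := false) (s2 := false) (a := 0) (b := 1) (c := 2) (cn := .pnp) (n1 := ndB3q0) (n2 := ndB1q2a) (pc := pcB1) (cut := Cut.none) (xt := Ext.none) (P1 := 0) (W1 := 536870912) (P2 := 0) (W2 := 536870912) (P3 := 858993459) (W3 := 64424510) (N0 := 3) (En := eng) (mo := mog) (C1 := cd3q0) (C2 := cd1q2a) (C3 := pd1)
    rfl k0_mm_012_a

noncomputable def f_mm_012_b : ℕ → ℕ → ℕ → ℕ → Bool := onCell 0 536870912 1239849684 370763052 858993459 64424510
    (rowB 3 eng mog cd3q0 cd1q2b pd1 0 false false false .pnp 0 1 2 (qsf 0 536870912 1239849684 370763052 1) ndB3q0 ndB1q2b pcB1 Cut.none Ext.none)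

def k0_mm_012_b : ∃ t, chk3 f_mm_012_b t 1 1 1 = true :=
  ⟨(l 5), by decide +kernel⟩

theorem c_mm_012_b : CertB 0 536870912 1239849684 370763052 858993459 64424510 3 eng mog cd3q0 cd1q2b pd1 false false false .pnp 0 1 2
    ndB3q0 ndB1q2b pcB1 Cut.none Ext.none :=
  certB0 (fam := false) (s1 := false) (s2 := false) (a := 0) (b := 1) (c := 2) (cn := .pnp) (n1 := ndB3q0) (n2 := ndB1q2b) (pc := pcB1) (cut := Cut.none) (xt := Ext.none) (P1 := 0) (W1 := 536870912) (P2 := 1239849684) (W2 := 370763052) (P3 := 858993459) (W3 := 64424510) (N0 := 3) (En := eng) (mo := mog) (C1 := cd3q0) (C2 := cd1q2b) (C3 := pd1)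
    rfl k0_mm_012_b

noncomputable def f_mm_022_a : ℕ → ℕ → ℕ → ℕ → Bool := onCell 0 536870912 0 536870912 858993459 64424510
    (rowB 3 eng mog cd3q0 cd1q2a pd2 0 false false false .pp 0 2 2 (qsf 0 536870912 0 536870912 2) ndB3q0 ndB1q2a pcB2 Cut.none Ext.none)

def k0_mm_022_a : ∃ t, chk3 f_mm_022_a t 1 1 1 = true :=
  ⟨(l 5), by decide +kernel⟩

theorem c_mm_022_a : CertB 0 536870912 0 536870912 858993459 64424510 3 eng mog cd3q0 cd1q2a pd2 false false false .pp 0 2 2
    ndB3q0 ndB1q2a pcB2 Cut.none Ext.none :=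
  certB0 (fam := false) (s1 := false) (s2 := false) (a := 0) (b := 2) (c := 2) (cn := .pp) (n1 := ndB3q0) (n2 := ndB1q2a) (pc := pcB2) (cut := Cut.none) (xt := Ext.none) (P1 := 0) (W1 := 536870912) (P2 := 0) (W2 := 536870912) (P3 := 858993459) (W3 := 64424510) (N0 := 3) (En := eng) (mo := mog) (C1 := cd3q0) (C2 := cd1q2a) (C3 := pd2)
    rfl k0_mm_022_a

noncomputable def f_mm_022_b : ℕ → ℕ → ℕ → ℕ → Bool := onCell 0 536870912 1239849684 370763052 858993459 64424510
    (rowB 3 eng mog cd3q0 cd1q2b pd2 0 false false false .pp 0 2 2 (qsf 0 536870912 1239849684 370763052 2) ndB3q0 ndB1q2b pcB2 Cut.none Ext.none)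

def k0_mm_022_b : ∃ t, chk3 f_mm_022_b t 1 1 1 = true :=
  ⟨(l 5), by decide +kernel⟩

theorem c_mm_022_b : CertB 0 536870912 1239849684 370763052 858993459 64424510 3 eng mog cd3q0 cd1q2b pd2 false false false .pp 0 2 2
    ndB3q0 ndB1q2b pcB2 Cut.none Ext.none :=
  certB0 (fam := false) (s1 := false) (s2 := false) (a := 0) (b := 2) (c := 2) (cn := .pp) (n1 := ndB3q0) (n2 := ndB1q2b) (pc := pcB2) (cut := Cut.none) (xt := Ext.none) (P1 := 0) (W1 := 536870912) (P2 := 1239849684) (W2 := 370763052) (P3 := 858993459) (W3 := 64424510) (N0 := 3) (En := eng) (mo := mog) (C1 := cd3q0) (C2 := cd1q2b) (C3 := pd2)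
    rfl k0_mm_022_b

noncomputable def f_mm_023 : ℕ → ℕ → ℕ → ℕ → Bool := onCell 0 536870912 1610612736 536870912 858993459 64424510
    (rowB 3 eng mog cd3q0 cd1q3 pd2 0 false false false .up 0 2 3 (qsf 0 536870912 1610612736 536870912 2) ndB3q0 ndB1q3 pcB2 Cut.none Ext.none)

def k0_mm_023 : ∃ t, chk3 f_mm_023 t 1 1 1 = true :=
  ⟨(l 5), by decide +kernel⟩

theorem c_mm_023 : CertB 0 536870912 1610612736 536870912 858993459 64424510 3 eng mog cd3q0 cd1q3 pd2 false false false .up 0 2 3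
    ndB3q0 ndB1q3 pcB2 Cut.none Ext.none :=
  certB0 (fam := false) (s1 := false) (s2 := false) (a := 0) (b := 2) (c := 3) (cn := .up) (n1 := ndB3q0) (n2 := ndB1q3) (pc := pcB2) (cut := Cut.none) (xt := Ext.none) (P1 := 0) (W1 := 536870912) (P2 := 1610612736) (W2 := 536870912) (P3 := 858993459) (W3 := 64424510) (N0 := 3) (En := eng) (mo := mog) (C1 := cd3q0) (C2 := cd1q3) (C3 := pd2)
    rfl k0_mm_023

noncomputable def f_mm_033 : ℕ → ℕ → ℕ → ℕ → Bool := onCell 0 536870912 1610612736 536870912 858993459 64424510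
    (rowB 3 eng mog cd3q0 cd1q3 pd3 0 false false false .pnn 0 3 3 (qsf 0 536870912 1610612736 536870912 3) ndB3q0 ndB1q3 pcB3 Cut.none Ext.none)

def k0_mm_033 : ∃ t, chk3 f_mm_033 t 1 1 1 = true :=
  ⟨(l 5), by decide +kernel⟩

theorem c_mm_033 : CertB 0 536870912 1610612736 536870912 858993459 64424510 3 eng mog cd3q0 cd1q3 pd3 false false false .pnn 0 3 3
    ndB3q0 ndB1q3 pcB3 Cut.none Ext.none :=
  certB0 (fam := false) (s1 := false) (s2 := false) (a := 0) (b := 3) (c := 3) (cn := .pnn) (n1 := ndB3q0) (n2 := ndB1q3) (pc := pcB3) (cut := Cut.none) (xt := Ext.none) (P1 := 0) (W1 := 536870912) (P2 := 1610612736) (W2 := 536870912) (P3 := 858993459) (W3 := 64424510) (N0 := 3) (En := eng) (mo := mog) (C1 := cd3q0) (C2 := cd1q3) (C3 := pd3)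
    rfl k0_mm_033

noncomputable def f_mm_101 : ℕ → ℕ → ℕ → ℕ → Bool := onCell 536870912 536870912 536870912 536870912 858993459 64424510
    (rowB 3 eng mog cd3q1 cd1q1 pd0 0 false false false .npn 1 0 1 (qsf 536870912 536870912 536870912 536870912 0) ndB3q1 ndB1q1 pcB0 Cut.none Ext.none)

def k0_mm_101 : ∃ t, chk3 f_mm_101 t 1 1 1 = true :=
  ⟨(l 3), by decide +kernel⟩

theorem c_mm_101 : CertB 536870912 536870912 536870912 536870912 858993459 64424510 3 eng mog cd3q1 cd1q1 pd0 false false false .npn 1 0 1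
    ndB3q1 ndB1q1 pcB0 Cut.none Ext.none :=
  certB0 (fam := false) (s1 := false) (s2 := false) (a := 1) (b := 0) (c := 1) (cn := .npn) (n1 := ndB3q1) (n2 := ndB1q1) (pc := pcB0) (cut := Cut.none) (xt := Ext.none) (P1 := 536870912) (W1 := 536870912) (P2 := 536870912) (W2 := 536870912) (P3 := 858993459) (W3 := 64424510) (N0 := 3) (En := eng) (mo := mog) (C1 := cd3q1) (C2 := cd1q1) (C3 := pd0)
    rfl k0_mm_101

noncomputable def f_mm_102_a : ℕ → ℕ → ℕ → ℕ → Bool := onCell 536870912 536870912 0 536870912 858993459 64424510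
    (rowB 3 eng mog cd3q1 cd1q2a pd0 0 false false false .npp 1 0 2 (qsf 536870912 536870912 0 536870912 0) ndB3q1 ndB1q2a pcB0 Cut.none Ext.none)

def k0_mm_102_a : ∃ t, chk3 f_mm_102_a t 1 1 1 = true :=
  ⟨(l 5), by decide +kernel⟩

theorem c_mm_102_a : CertB 536870912 536870912 0 536870912 858993459 64424510 3 eng mog cd3q1 cd1q2a pd0 false false false .npp 1 0 2
    ndB3q1 ndB1q2a pcB0 Cut.none Ext.none :=
  certB0 (fam := false) (s1 := false) (s2 := false) (a := 1) (b := 0) (c := 2) (cn := .npp) (n1 := ndB3q1) (n2 := ndB1q2a) (pc := pcB0) (cut := Cut.none) (xt := Ext.none) (P1 := 536870912) (W1 := 536870912) (P2 := 0) (W2 := 536870912) (P3 := 858993459) (W3 := 64424510) (N0 := 3) (En := eng) (mo := mog) (C1 := cd3q1) (C2 := cd1q2a) (C3 := pd0)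
    rfl k0_mm_102_a

noncomputable def f_mm_102_b : ℕ → ℕ → ℕ → ℕ → Bool := onCell 536870912 536870912 1239849684 370763052 858993459 64424510
    (rowB 3 eng mog cd3q1 cd1q2b pd0 0 false false false .npp 1 0 2 (qsf 536870912 536870912 1239849684 370763052 0) ndB3q1 ndB1q2b pcB0 Cut.none Ext.none)

def k0_mm_102_b : ∃ t, chk3 f_mm_102_b t 1 1 1 = true :=
  ⟨(l 5), by decide +kernel⟩

theorem c_mm_102_b : CertB 536870912 536870912 1239849684 370763052 858993459 64424510 3 eng mog cd3q1 cd1q2b pd0 false false false .npp 1 0 2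
    ndB3q1 ndB1q2b pcB0 Cut.none Ext.none :=
  certB0 (fam := false) (s1 := false) (s2 := false) (a := 1) (b := 0) (c := 2) (cn := .npp) (n1 := ndB3q1) (n2 := ndB1q2b) (pc := pcB0) (cut := Cut.none) (xt := Ext.none) (P1 := 536870912) (W1 := 536870912) (P2 := 1239849684) (W2 := 370763052) (P3 := 858993459) (W3 := 64424510) (N0 := 3) (En := eng) (mo := mog) (C1 := cd3q1) (C2 := cd1q2b) (C3 := pd0)
    rfl k0_mm_102_b

noncomputable def f_mm_112_a : ℕ → ℕ → ℕ → ℕ → Bool := onCell 536870912 536870912 0 536870912 858993459 64424510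
    (rowB 3 eng mog cd3q1 cd1q2a pd1 0 false false false .dn 1 1 2 (qsf 536870912 536870912 0 536870912 1) ndB3q1 ndB1q2a pcB1 Cut.none Ext.none)

def k0_mm_112_a : ∃ t, chk3 f_mm_112_a t 1 1 1 = true :=
  ⟨(l 5), by decide +kernel⟩

theorem c_mm_112_a : CertB 536870912 536870912 0 536870912 858993459 64424510 3 eng mog cd3q1 cd1q2a pd1 false false false .dn 1 1 2
    ndB3q1 ndB1q2a pcB1 Cut.none Ext.none :=
  certB0 (fam := false) (s1 := false) (s2 := false) (a := 1) (b := 1) (c := 2) (cn := .dn) (n1 := ndB3q1) (n2 := ndB1q2a) (pc := pcB1) (cut := Cut.none) (xt := Ext.none) (P1 := 536870912) (W1 := 536870912) (P2 := 0) (W2 := 536870912) (P3 := 858993459) (W3 := 64424510) (N0 := 3) (En := eng) (mo := mog) (C1 := cd3q1) (C2 := cd1q2a) (C3 := pd1)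
    rfl k0_mm_112_a

noncomputable def f_mm_112_b : ℕ → ℕ → ℕ → ℕ → Bool := onCell 536870912 536870912 1239849684 370763052 858993459 64424510
    (rowB 3 eng mog cd3q1 cd1q2b pd1 0 false false false .dn 1 1 2 (qsf 536870912 536870912 1239849684 370763052 1) ndB3q1 ndB1q2b pcB1 Cut.none Ext.none)

def k0_mm_112_b : ∃ t, chk3 f_mm_112_b t 1 1 1 = true :=
  ⟨(l 5), by decide +kernel⟩

theorem c_mm_112_b : CertB 536870912 536870912 1239849684 370763052 858993459 64424510 3 eng mog cd3q1 cd1q2b pd1 false false false .dn 1 1 2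
    ndB3q1 ndB1q2b pcB1 Cut.none Ext.none :=
  certB0 (fam := false) (s1 := false) (s2 := false) (a := 1) (b := 1) (c := 2) (cn := .dn) (n1 := ndB3q1) (n2 := ndB1q2b) (pc := pcB1) (cut := Cut.none) (xt := Ext.none) (P1 := 536870912) (W1 := 536870912) (P2 := 1239849684) (W2 := 370763052) (P3 := 858993459) (W3 := 64424510) (N0 := 3) (En := eng) (mo := mog) (C1 := cd3q1) (C2 := cd1q2b) (C3 := pd1)
    rfl k0_mm_112_b

noncomputable def f_mm_113 : ℕ → ℕ → ℕ → ℕ → Bool := onCell 536870912 536870912 1610612736 536870912 858993459 64424510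
    (rowB 3 eng mog cd3q1 cd1q3 pd1 0 false false false .nn 1 1 3 (qsf 536870912 536870912 1610612736 536870912 1) ndB3q1 ndB1q3 pcB1 Cut.none Ext.none)

def k0_mm_113 : ∃ t, chk3 f_mm_113 t 1 1 1 = true :=
  ⟨(l 5), by decide +kernel⟩

theorem c_mm_113 : CertB 536870912 536870912 1610612736 536870912 858993459 64424510 3 eng mog cd3q1 cd1q3 pd1 false false false .nn 1 1 3
    ndB3q1 ndB1q3 pcB1 Cut.none Ext.none :=
  certB0 (fam := false) (s1 := false) (s2 := false) (a := 1) (b := 1) (c := 3) (cn := .nn) (n1 := ndB3q1) (n2 := ndB1q3) (pc := pcB1) (cut := Cut.none) (xt := Ext.none) (P1 := 536870912) (W1 := 536870912) (P2 := 1610612736) (W2 := 536870912) (P3 := 858993459) (W3 := 64424510) (N0 := 3) (En := eng) (mo := mog) (C1 := cd3q1) (C2 := cd1q3) (C3 := pd1)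
    rfl k0_mm_113

noncomputable def f_mm_123 : ℕ → ℕ → ℕ → ℕ → Bool := onCell 536870912 536870912 1610612736 536870912 858993459 64424510
    (rowB 3 eng mog cd3q1 cd1q3 pd2 0 false false false .npn 1 2 3 (qsf 536870912 536870912 1610612736 536870912 2) ndB3q1 ndB1q3 pcB2 Cut.none Ext.none)

def k0_mm_123 : ∃ t, chk3 f_mm_123 t 1 1 1 = true :=
  ⟨(l 5), by decide +kernel⟩

theorem c_mm_123 : CertB 536870912 536870912 1610612736 536870912 858993459 64424510 3 eng mog cd3q1 cd1q3 pd2 false false false .npn 1 2 3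
    ndB3q1 ndB1q3 pcB2 Cut.none Ext.none :=
  certB0 (fam := false) (s1 := false) (s2 := false) (a := 1) (b := 2) (c := 3) (cn := .npn) (n1 := ndB3q1) (n2 := ndB1q3) (pc := pcB2) (cut := Cut.none) (xt := Ext.none) (P1 := 536870912) (W1 := 536870912) (P2 := 1610612736) (W2 := 536870912) (P3 := 858993459) (W3 := 64424510) (N0 := 3) (En := eng) (mo := mog) (C1 := cd3q1) (C2 := cd1q3) (C3 := pd2)
    rfl k0_mm_123

noncomputable def f_mm_133 : ℕ → ℕ → ℕ → ℕ → Bool := onCell 536870912 536870912 1610612736 536870912 858993459 64424510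
    (rowB 3 eng mog cd3q1 cd1q3 pd3 0 false false false .dn 1 3 3 (qsf 536870912 536870912 1610612736 536870912 3) ndB3q1 ndB1q3 pcB3 Cut.none Ext.none)

def k0_mm_133 : ∃ t, chk3 f_mm_133 t 1 1 1 = true :=
  ⟨(l 5), by decide +kernel⟩

theorem c_mm_133 : CertB 536870912 536870912 1610612736 536870912 858993459 64424510 3 eng mog cd3q1 cd1q3 pd3 false false false .dn 1 3 3
    ndB3q1 ndB1q3 pcB3 Cut.none Ext.none :=
  certB0 (fam := false) (s1 := false) (s2 := false) (a := 1) (b := 3) (c := 3) (cn := .dn) (n1 := ndB3q1) (n2 := ndB1q3) (pc := pcB3) (cut := Cut.none) (xt := Ext.none) (P1 := 536870912) (W1 := 536870912) (P2 := 1610612736) (W2 := 536870912) (P3 := 858993459) (W3 := 64424510) (N0 := 3) (En := eng) (mo := mog) (C1 := cd3q1) (C2 := cd1q3) (C3 := pd3)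
    rfl k0_mm_133

noncomputable def f_mm_202_a : ℕ → ℕ → ℕ → ℕ → Bool := onCell 1073741824 536870912 0 536870912 858993459 64424510
    (rowB 3 eng mog cd3q2 cd1q2a pd0 0 false false false .pp 2 0 2 (qsf 1073741824 536870912 0 536870912 0) ndB3q2 ndB1q2a pcB0 Cut.none Ext.none)

def k0_mm_202_a : ∃ t, chk3 f_mm_202_a t 1 1 1 = true :=
  ⟨(l 3), by decide +kernel⟩

theorem c_mm_202_a : CertB 1073741824 536870912 0 536870912 858993459 64424510 3 eng mog cd3q2 cd1q2a pd0 false false false .pp 2 0 2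
    ndB3q2 ndB1q2a pcB0 Cut.none Ext.none :=
  certB0 (fam := false) (s1 := false) (s2 := false) (a := 2) (b := 0) (c := 2) (cn := .pp) (n1 := ndB3q2) (n2 := ndB1q2a) (pc := pcB0) (cut := Cut.none) (xt := Ext.none) (P1 := 1073741824) (W1 := 536870912) (P2 := 0) (W2 := 536870912) (P3 := 858993459) (W3 := 64424510) (N0 := 3) (En := eng) (mo := mog) (C1 := cd3q2) (C2 := cd1q2a) (C3 := pd0)
    rfl k0_mm_202_a

noncomputable def f_mm_202_b : ℕ → ℕ → ℕ → ℕ → Bool := onCell 1073741824 536870912 1239849684 370763052 858993459 64424510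
    (rowB 3 eng mog cd3q2 cd1q2b pd0 0 false false false .pp 2 0 2 (qsf 1073741824 536870912 1239849684 370763052 0) ndB3q2 ndB1q2b pcB0 Cut.none Ext.none)

def k0_mm_202_b : ∃ t, chk3 f_mm_202_b t 1 1 1 = true :=
  ⟨(l 3), by decide +kernel⟩

theorem c_mm_202_b : CertB 1073741824 536870912 1239849684 370763052 858993459 64424510 3 eng mog cd3q2 cd1q2b pd0 false false false .pp 2 0 2
    ndB3q2 ndB1q2b pcB0 Cut.none Ext.none :=
  certB0 (fam := false) (s1 := false) (s2 := false) (a := 2) (b := 0) (c := 2) (cn := .pp) (n1 := ndB3q2) (n2 := ndB1q2b) (pc := pcB0) (cut := Cut.none) (xt := Ext.none) (P1 := 1073741824) (W1 := 536870912) (P2 := 1239849684) (W2 := 370763052) (P3 := 858993459) (W3 := 64424510) (N0 := 3) (En := eng) (mo := mog) (C1 := cd3q2) (C2 := cd1q2b) (C3 := pd0)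
    rfl k0_mm_202_b

noncomputable def f_mm_203 : ℕ → ℕ → ℕ → ℕ → Bool := onCell 1073741824 536870912 1610612736 536870912 858993459 64424510
    (rowB 3 eng mog cd3q2 cd1q3 pd0 0 false false false .up 2 0 3 (qsf 1073741824 536870912 1610612736 536870912 0) ndB3q2 ndB1q3 pcB0 Cut.none Ext.none)

def k0_mm_203 : ∃ t, chk3 f_mm_203 t 1 1 1 = true :=
  ⟨(l 5), by decide +kernel⟩

theorem c_mm_203 : CertB 1073741824 536870912 1610612736 536870912 858993459 64424510 3 eng mog cd3q2 cd1q3 pd0 false false false .up 2 0 3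
    ndB3q2 ndB1q3 pcB0 Cut.none Ext.none :=
  certB0 (fam := false) (s1 := false) (s2 := false) (a := 2) (b := 0) (c := 3) (cn := .up) (n1 := ndB3q2) (n2 := ndB1q3) (pc := pcB0) (cut := Cut.none) (xt := Ext.none) (P1 := 1073741824) (W1 := 536870912) (P2 := 1610612736) (W2 := 536870912) (P3 := 858993459) (W3 := 64424510) (N0 := 3) (En := eng) (mo := mog) (C1 := cd3q2) (C2 := cd1q3) (C3 := pd0)
    rfl k0_mm_203

noncomputable def f_mm_213 : ℕ → ℕ → ℕ → ℕ → Bool := onCell 1073741824 536870912 1610612736 536870912 858993459 64424510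
    (rowB 3 eng mog cd3q2 cd1q3 pd1 0 false false false .pnn 2 1 3 (qsf 1073741824 536870912 1610612736 536870912 1) ndB3q2 ndB1q3 pcB1 Cut.none Ext.none)

def k0_mm_213 : ∃ t, chk3 f_mm_213 t 1 1 1 = true :=
  ⟨(l 5), by decide +kernel⟩

theorem c_mm_213 : CertB 1073741824 536870912 1610612736 536870912 858993459 64424510 3 eng mog cd3q2 cd1q3 pd1 false false false .pnn 2 1 3
    ndB3q2 ndB1q3 pcB1 Cut.none Ext.none :=
  certB0 (fam := false) (s1 := false) (s2 := false) (a := 2) (b := 1) (c := 3) (cn := .pnn) (n1 := ndB3q2) (n2 := ndB1q3) (pc := pcB1) (cut := Cut.none) (xt := Ext.none) (P1 := 1073741824) (W1 := 536870912) (P2 := 1610612736) (W2 := 536870912) (P3 := 858993459) (W3 := 64424510) (N0 := 3) (En := eng) (mo := mog) (C1 := cd3q2) (C2 := cd1q3) (C3 := pd1)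
    rfl k0_mm_213

noncomputable def f_mm_303 : ℕ → ℕ → ℕ → ℕ → Bool := onCell 0 1230186008 1610612736 536870912 858993459 64424510
    (rowB 3 eng mog cd3q3 cd1q3 pd0 0 false false false .npn 3 0 3 (qsf 0 1230186008 1610612736 536870912 0) ndB3q3 ndB1q3 pcB0 Cut.none Ext.none)

def k0_mm_303 : ∃ t, chk3 f_mm_303 t 1 1 1 = true :=
  ⟨(a (l 3) (l 3)), by decide +kernel⟩

theorem c_mm_303 : CertB 0 1230186008 1610612736 536870912 858993459 64424510 3 eng mog cd3q3 cd1q3 pd0 false false false .npn 3 0 3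
    ndB3q3 ndB1q3 pcB0 Cut.none Ext.none :=
  certB0 (fam := false) (s1 := false) (s2 := false) (a := 3) (b := 0) (c := 3) (cn := .npn) (n1 := ndB3q3) (n2 := ndB1q3) (pc := pcB0) (cut := Cut.none) (xt := Ext.none) (P1 := 0) (W1 := 1230186008) (P2 := 1610612736) (W2 := 536870912) (P3 := 858993459) (W3 := 64424510) (N0 := 3) (En := eng) (mo := mog) (C1 := cd3q3) (C2 := cd1q3) (C3 := pd0)
    rfl k0_mm_303

noncomputable def f_mm_313 : ℕ → ℕ → ℕ → ℕ → Bool := onCell 0 1230186008 1610612736 536870912 858993459 64424510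
    (rowB 3 eng mog cd3q3 cd1q3 pd1 0 false false false .dn 3 1 3 (qsf 0 1230186008 1610612736 536870912 1) ndB3q3 ndB1q3 pcB1 Cut.none Ext.none)

def k0_mm_313 : ∃ t, chk3 f_mm_313 t 1 1 1 = true :=
  ⟨(a (l 1) (l 3)), by decide +kernel⟩

theorem c_mm_313 : CertB 0 1230186008 1610612736 536870912 858993459 64424510 3 eng mog cd3q3 cd1q3 pd1 false false false .dn 3 1 3
    ndB3q3 ndB1q3 pcB1 Cut.none Ext.none :=
  certB0 (fam := false) (s1 := false) (s2 := false) (a := 3) (b := 1) (c := 3) (cn := .dn) (n1 := ndB3q3) (n2 := ndB1q3) (pc := pcB1) (cut := Cut.none) (xt := Ext.none) (P1 := 0) (W1 := 1230186008) (P2 := 1610612736) (W2 := 536870912) (P3 := 858993459) (W3 := 64424510) (N0 := 3) (En := eng) (mo := mog) (C1 := cd3q3) (C2 := cd1q3) (C3 := pd1)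
    rfl k0_mm_313

end Pool.Agent.Strip051.G.I8000_8600.Tab.C.BB31

namespace Pool.Agent.Strip051.G.I8000_8600.Tab.C.BB32

open Pool.Agent.Strip051.PB Pool.Agent.Strip051.PB.T
open Pool.Agent.Strip051.G.I8000_8600.Tab

noncomputable def f_pp_001 : ℕ → ℕ → ℕ → ℕ → Bool := onCell 0 536870912 536870912 536870912 858993459 64424510
    (rowB 3 eng mog cd3q0 cd2q1 pd0 0 false true true .up 0 0 1 (qsf 0 536870912 536870912 536870912 0) ndB3q0 ndB2q1 pcB0 Cut.none Ext.none)

def k0_pp_001 : ∃ t, chk3 f_pp_001 t 1 1 1 = true :=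
  ⟨(l 3), by decide +kernel⟩

theorem c_pp_001 : CertB 0 536870912 536870912 536870912 858993459 64424510 3 eng mog cd3q0 cd2q1 pd0 false true true .up 0 0 1
    ndB3q0 ndB2q1 pcB0 Cut.none Ext.none :=
  certB0 (fam := false) (s1 := true) (s2 := true) (a := 0) (b := 0) (c := 1) (cn := .up) (n1 := ndB3q0) (n2 := ndB2q1) (pc := pcB0) (cut := Cut.none) (xt := Ext.none) (P1 := 0) (W1 := 536870912) (P2 := 536870912) (W2 := 536870912) (P3 := 858993459) (W3 := 64424510) (N0 := 3) (En := eng) (mo := mog) (C1 := cd3q0) (C2 := cd2q1) (C3 := pd0)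
    rfl k0_pp_001

noncomputable def f_pp_011 : ℕ → ℕ → ℕ → ℕ → Bool := onCell 0 536870912 536870912 536870912 858993459 64424510
    (rowB 3 eng mog cd3q0 cd2q1 pd1 0 false true true .pnn 0 1 1 (qsf 0 536870912 536870912 536870912 1) ndB3q0 ndB2q1 pcB1 Cut.none Ext.none)

def k0_pp_011 : ∃ t, chk3 f_pp_011 t 1 1 1 = true :=
  ⟨(l 3), by decide +kernel⟩

theorem c_pp_011 : CertB 0 536870912 536870912 536870912 858993459 64424510 3 eng mog cd3q0 cd2q1 pd1 false true true .pnn 0 1 1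
    ndB3q0 ndB2q1 pcB1 Cut.none Ext.none :=
  certB0 (fam := false) (s1 := true) (s2 := true) (a := 0) (b := 1) (c := 1) (cn := .pnn) (n1 := ndB3q0) (n2 := ndB2q1) (pc := pcB1) (cut := Cut.none) (xt := Ext.none) (P1 := 0) (W1 := 536870912) (P2 := 536870912) (W2 := 536870912) (P3 := 858993459) (W3 := 64424510) (N0 := 3) (En := eng) (mo := mog) (C1 := cd3q0) (C2 := cd2q1) (C3 := pd1)
    rfl k0_pp_011

noncomputable def f_pp_012 : ℕ → ℕ → ℕ → ℕ → Bool := onCell 536870912 536870912 1073741824 536870912 858993459 64424510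
    (rowB 3 eng mog cd3q0 cd2q2 pd1 2 false true true .pnp 0 1 2 (qsf 0 536870912 1073741824 536870912 1) ndB3q0 ndB2q2 pcB1 Cut.none Ext.none)

def k0_pp_012 : ∃ t, chk3 f_pp_012 t 2 1 1 = true :=
  ⟨(a (b (b (a (a (b (a (b (l 3) (l 2)) (b (c (l 967607967719) (l 16015864)) (c (l 16082960) (l 16040712)))) (l 2)) (b (c (b (a (l 16092720) (l 16006792)) (l 16040168)) (b (a (l 15986448) (l 15959992)) (l 15998120))) (a (l 2) (b (l 16028728) (l 2))))) (b (c (a (b (c (l 15975432) (l 15961072)) (l 15988528)) (b (l 15987312) (l 15943536))) (a (b (l 15965816) (l 15948528)) (b (l 15881504) (l 15843344)))) (c (a (b (l 16002544) (l 16017368)) (b (l 16144016) (l 15966816))) (b (c (l 15768120) (l 15771032)) (a (l 16013296) (l 15945536)))))) (a (l 2) (b (b (c (l 16013144) (l 222363127543)) (l 2)) (l 2)))) (l 2)) (b (b (a (a (b (c (c (l 15904760) (l 15889024)) (a (l 15825416) (l 15808952))) (b (c (l 15978328) (l 15911064)) (a (l 16134064) (l 16093768)))) (b (c (b (l 15850112)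 (l 16125064)) (b (l 15791936) (l 16071496))) (c (b (l 15881896) (l 15887208)) (b (l 15859240) (l 15871712))))) (b (c (a (b (l 15798160) (l 15992888)) (b (c (l 15800704) (l 15784752)) (l 15824392))) (a (c (l 15749168) (l 15731984)) (c (l 15706520) (l 15712504)))) (c (a (b (l 15853144) (l 15855224)) (b (l 15829912) (l 15828552))) (b (a (l 15834224) (l 15813952)) (a (l 15843584) (l 15819880)))))) (a (b (c (a (b (l 15941000) (l 15952136)) (l 16030488)) (a (l 16172200) (l 16005496))) (c (a (l 2) (l 15916608)) (l 15940240))) (b (c (a (l 15909088) (l 15834696)) (a (l 15907040) (l 15812576))) (c (a (l 15869856) (l 15828192)) (a (l 15870832) (l 15829032)))))) (a (l 2) (a (l 2) (b (b (l 124116504807) (l 2)) (l 2)))))), by decide +kernel⟩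

def k1_pp_012 : ∃ t, chk3 f_pp_012 t 6 1 1 = true :=
  ⟨(b (b (a (a (b (c (b (l 15835144) (l 15810240)) (b (l 15739280) (l 15782688))) (c (b (l 15814072) (l 15808960)) (b (l 15797928) (l 15799840)))) (b (c (b (l 15758584) (l 15805168)) (b (l 15722536) (l 15773664))) (c (b (l 15806848) (l 15797456)) (b (l 15786504) (l 15783504))))) (b (c (a (b (l 15753096) (l 15810344)) (b (l 15758512) (l 15826600))) (b (a (l 15712464) (l 15712336)) (a (l 15771344) (l 15776040)))) (b (c (a (l 15808680) (l 15819232)) (a (l 15779944) (l 15777536))) (c (l 16005024) (a (l 15770832) (l 15760904)))))) (a (b (c (a (l 15808984) (l 15790856)) (a (l 15784120) (l 15758592))) (c (l 15925272) (a (l 15789656) (l 15752496)))) (b (c (a (l 15780248) (l 15776424)) (a (l 15735784) (l 15714808))) (c (l 15737560) (l 15742304))))) (b (a (c (b (l 15772696) (l 15789328)) (b (l 15786200) (l 15818848))) (b (c (l 15713168) (l 15692144)) (c (l 15712048) (l 15701744)))) (a (l 2) (b (c (l 15735928)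 (l 15728024)) (l 2))))), by decide +kernel⟩

def k2_pp_012 : ∃ t, chk3 f_pp_012 t 7 1 1 = true :=
  ⟨(b (b (a (a (b (b (c (l 15844584) (l 15832504)) (c (l 15853880) (l 15786952))) (b (c (l 15837048) (l 15777736)) (l 15884528))) (b (b (c (b (l 15849648) (l 15874024)) (a (l 15751960) (l 15776448))) (c (l 15889704) (l 15802200))) (b (c (l 15859200) (l 15779064)) (l 15845792)))) (b (a (b (a (c (l 15900560) (l 15805240)) (c (l 15951440) (l 15832968))) (c (l 15925896) (l 15918752))) (b (b (c (a (l 16010440) (l 16021576)) (a (l 15866072) (l 15863952))) (a (l 15914120) (c (l 15992352) (l 15840160)))) (a (l 15901248) (b (l 15894088) (l 15867704))))) (a (b (c (l 15880424) (l 15776400)) (l 15784520)) (b (a (l 15830616) (l 15828840)) (l 15906600))))) (a (b (a (c (l 15778040) (l 15694560)) (c (l 15783424) (l 15674544))) (a (l 15685784) (l 15668264))) (b (a (c (l 15790360) (l 15652320)) (c (l 15796912) (l 15625376))) (a (l 15651936) (l 15635752))))) (a (b (b (c (l 15679560)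 (l 15601792)) (c (l 15659504) (l 15583952))) (b (l 15736792) (l 15606528))) (b (b (a (l 15600544) (l 15573064)) (a (l 15557168) (l 15505320))) (b (l 15478128) (l 15448432))))), by decide +kernel⟩

theorem s3_pp_012 : ∃ t, chk3 f_pp_012 t 3 1 1 = true := ex3_a k1_pp_012 k2_pp_012

theorem s4_pp_012 : ∃ t, chk3 f_pp_012 t 1 1 1 = true := ex3_a k0_pp_012 s3_pp_012

theorem c_pp_012 : CertB 0 536870912 1073741824 536870912 858993459 64424510 3 eng mog cd3q0 cd2q2 pd1 false true true .pnp 0 1 2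
    ndB3q0 ndB2q2 pcB1 Cut.none Ext.none :=
  certB2 (fam := false) (s1 := true) (s2 := true) (a := 0) (b := 1) (c := 2) (cn := .pnp) (n1 := ndB3q0) (n2 := ndB2q2) (pc := pcB1) (cut := Cut.none) (xt := Ext.none) (P1 := 0) (W1 := 536870912) (P2 := 1073741824) (W2 := 536870912) (P3 := 858993459) (W3 := 64424510) (N0 := 3) (En := eng) (mo := mog) (C1 := cd3q0) (C2 := cd2q2) (C3 := pd1)
    rfl (fun _ => rfl) s4_pp_012

noncomputable def f_pp_022 : ℕ → ℕ → ℕ → ℕ → Bool := onCell 0 536870912 1073741824 536870912 858993459 64424510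
    (rowB 3 eng mog cd3q0 cd2q2 pd2 1 false true true .pp 0 2 2 (qsf 0 536870912 1073741824 536870912 2) ndB3q0 ndB2q2 pcB2 Cut.none Ext.none)

def k0_pp_022 : ∃ t, chk3 f_pp_022 t 1 2 1 = true :=
  ⟨(a (b (a (b (b (b (a (b (a (a (c (l 15899768) (l 15766968)) (l 15814200)) (l 15846952)) (a (a (c (l 15915144) (l 15799352)) (l 15837224)) (l 15806088))) (a (a (l 15764896) (l 15745200)) (l 15716584))) (a (a (a (a (l 15898800) (l 15887768)) (l 15871320)) (c (l 15874888) (l 15803296))) (a (l 15796768) (l 15756624)))) (a (a (b (a (l 15937744) (l 15914800)) (c (l 15980704) (l 15956280))) (c (l 16021656) (b (l 15861264) (l 15913584)))) (a (b (l 15836920) (l 15874760)) (l 15876512)))) (a (a (b (c (b (l 16005072) (l 16029288)) (b (l 16009760) (l 16056920))) (a (l 16101216) (l 16053648))) (b (b (l 15957112) (l 15990824)) (l 16266104))) (b (a (l 15989384) (l 15880880)) (c (l 15949672) (l 15975048))))) (b (a (b (a (l 15909800) (l 15666472)) (c (l 15784432) (l 15727216)))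 (b (c (l 15673568) (l 15573384)) (l 15689816))) (a (c (l 15986080) (l 15855912)) (c (l 15763040) (l 15785944))))) (a (b (a (c (b (l 16074280) (l 16116328)) (b (l 16129880) (l 16179696))) (c (l 15968280) (l 16058152))) (a (c (l 15945456) (l 16234776)) (c (l 15987944) (l 16127272)))) (b (a (c (l 15884648) (l 15968416)) (b (l 15827736) (l 15847024))) (a (c (l 15875216) (l 16024104)) (c (l 15806728) (l 15951432)))))) (b (a (b (a (b (l 15581200) (l 15642152)) (c (l 15625784) (l 15555112))) (a (b (l 15694032) (l 15734112)) (l 15922104))) (b (a (l 15571904) (l 15561984)) (a (l 15643176) (l 15612880)))) (a (b (a (c (l 15737104) (l 15822808)) (l 15699528)) (a (l 15831480) (l 15818432))) (b (a (l 15710984) (l 2)) (l 2))))), by decide +kernel⟩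

def k1_pp_022 : ∃ t, chk3 f_pp_022 t 1 3 1 = true :=
  ⟨(a (b (a (b (a (c (l 16070240) (l 16247848)) (c (l 15939832) (l 16129688))) (a (c (l 15986368) (l 16196256)) (c (l 15908664) (l 16122040)))) (b (a (c (l 15866936) (l 16054904)) (l 15755904)) (c (l 15919848) (l 16099848)))) (a (b (a (c (l 15930328) (l 16147184)) (l 16036616)) (c (l 15980128) (l 16158752))) (b (c (l 16033440) (l 16197144)) (l 2)))) (b (a (b (c (l 15877648) (l 15994688)) (l 2)) (l 2)) (l 2))), by decide +kernel⟩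

theorem s2_pp_022 : ∃ t, chk3 f_pp_022 t 1 1 1 = true := ex3_b k0_pp_022 k1_pp_022

theorem c_pp_022 : CertB 0 536870912 1073741824 536870912 858993459 64424510 3 eng mog cd3q0 cd2q2 pd2 false true true .pp 0 2 2
    ndB3q0 ndB2q2 pcB2 Cut.none Ext.none :=
  certB1 (fam := false) (s1 := true) (s2 := true) (a := 0) (b := 2) (c := 2) (cn := .pp) (n1 := ndB3q0) (n2 := ndB2q2) (pc := pcB2) (cut := Cut.none) (xt := Ext.none) (P1 := 0) (W1 := 536870912) (P2 := 1073741824) (W2 := 536870912) (P3 := 858993459) (W3 := 64424510) (N0 := 3) (En := eng) (mo := mog) (C1 := cd3q0) (C2 := cd2q2) (C3 := pd2)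
    rfl (fun _ => rfl) s2_pp_022

noncomputable def f_pp_023 : ℕ → ℕ → ℕ → ℕ → Bool := onCell 1073741824 536870912 0 1230186008 858993459 64424510
    (rowB 3 eng mog cd3q0 cd2q3 pd2 2 false true true .up 0 2 3 (qsf 0 536870912 0 1230186008 2) ndB3q0 ndB2q3 pcB2 Cut.none Ext.none)

def k0_pp_023 : ∃ t, chk3 f_pp_023 t 1 1 1 = true :=
  ⟨(b (a (l 2) (a (l 2) (l 4))) (b (a (b (l 2) (a (l 2) (b (l 2) (l 165991688759)))) (b (a (a (l 2) (b (l 16445768) (l 16369280))) (b (l 4) (l 16659216))) (a (a (l 16103704) (l 16238760)) (a (l 16370256) (l 16479376))))) (a (a (b (l 2) (b (l 15658328) (a (l 15523752) (l 15591360)))) (b (a (l 15731864) (l 15839208)) (a (b (l 15677672) (l 15684800)) (b (l 15783584) (l 15786992))))) (a (b (a (l 15959920) (l 16081472)) (a (b (l 15894440) (l 15886144)) (b (l 15996944) (l 15969576)))) (b (a (l 16191248) (l 16272480)) (a (b (l 16077576) (l 16024968)) (b (l 16119688) (l 16039032)))))))), by decide +kernel⟩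

theorem c_pp_023 : CertB 0 536870912 0 1230186008 858993459 64424510 3 eng mog cd3q0 cd2q3 pd2 false true true .up 0 2 3
    ndB3q0 ndB2q3 pcB2 Cut.none Ext.none :=
  certB2 (fam := false) (s1 := true) (s2 := true) (a := 0) (b := 2) (c := 3) (cn := .up) (n1 := ndB3q0) (n2 := ndB2q3) (pc := pcB2) (cut := Cut.none) (xt := Ext.none) (P1 := 0) (W1 := 536870912) (P2 := 0) (W2 := 1230186008) (P3 := 858993459) (W3 := 64424510) (N0 := 3) (En := eng) (mo := mog) (C1 := cd3q0) (C2 := cd2q3) (C3 := pd2)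
    rfl (fun _ => rfl) k0_pp_023

noncomputable def f_pp_033 : ℕ → ℕ → ℕ → ℕ → Bool := onCell 1610612736 536870912 0 1230186008 858993459 64424510
    (rowB 3 eng mog cd3q0 cd2q3 pd3 2 false true true .pnn 0 3 3 (qsf 0 536870912 0 1230186008 3) ndB3q0 ndB2q3 pcB3 Cut.none Ext.none)

def k0_pp_033 : ∃ t, chk3 f_pp_033 t 1 1 1 = true :=
  ⟨(b (a (l 4) (l 4)) (b (a (b (l 4) (a (a (b (l 4) (l 16488840)) (l 4)) (l 4))) (a (l 4) (a (b (l 4) (l 1)) (l 1)))) (a (b (a (a (l 16364896) (b (l 16257080) (l 16101856))) (a (b (l 16057560) (l 15856368)) (b (l 4) (l 1)))) (a (a (b (l 16146744) (l 15888528)) (b (l 15888528) (l 1072162951799))) (b (a (l 15833880) (l 1)) (l 1)))) (l 1)))), by decide +kernel⟩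

theorem c_pp_033 : CertB 0 536870912 0 1230186008 858993459 64424510 3 eng mog cd3q0 cd2q3 pd3 false true true .pnn 0 3 3
    ndB3q0 ndB2q3 pcB3 Cut.none Ext.none :=
  certB2 (fam := false) (s1 := true) (s2 := true) (a := 0) (b := 3) (c := 3) (cn := .pnn) (n1 := ndB3q0) (n2 := ndB2q3) (pc := pcB3) (cut := Cut.none) (xt := Ext.none) (P1 := 0) (W1 := 536870912) (P2 := 0) (W2 := 1230186008) (P3 := 858993459) (W3 := 64424510) (N0 := 3) (En := eng) (mo := mog) (C1 := cd3q0) (C2 := cd2q3) (C3 := pd3)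
    rfl (fun _ => rfl) k0_pp_033

noncomputable def f_pp_101 : ℕ → ℕ → ℕ → ℕ → Bool := onCell 536870912 536870912 536870912 536870912 858993459 64424510
    (rowB 3 eng mog cd3q1 cd2q1 pd0 0 false true true .npn 1 0 1 (qsf 536870912 536870912 536870912 536870912 0) ndB3q1 ndB2q1 pcB0 Cut.none Ext.none)

def k0_pp_101 : ∃ t, chk3 f_pp_101 t 1 1 1 = true :=
  ⟨(l 3), by decide +kernel⟩

theorem c_pp_101 : CertB 536870912 536870912 536870912 536870912 858993459 64424510 3 eng mog cd3q1 cd2q1 pd0 false true true .npn 1 0 1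
    ndB3q1 ndB2q1 pcB0 Cut.none Ext.none :=
  certB0 (fam := false) (s1 := true) (s2 := true) (a := 1) (b := 0) (c := 1) (cn := .npn) (n1 := ndB3q1) (n2 := ndB2q1) (pc := pcB0) (cut := Cut.none) (xt := Ext.none) (P1 := 536870912) (W1 := 536870912) (P2 := 536870912) (W2 := 536870912) (P3 := 858993459) (W3 := 64424510) (N0 := 3) (En := eng) (mo := mog) (C1 := cd3q1) (C2 := cd2q1) (C3 := pd0)
    rfl k0_pp_101

noncomputable def f_pp_102 : ℕ → ℕ → ℕ → ℕ → Bool := onCell 536870912 536870912 0 536870912 858993459 64424510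
    (rowB 3 eng mog cd3q1 cd2q2 pd0 1 false true true .npp 1 0 2 (qsf 536870912 536870912 1073741824 536870912 0) ndB3q1 ndB2q2 pcB0 Cut.none Ext.none)

def k0_pp_102 : ∃ t, chk3 f_pp_102 t 1 1 1 = true :=
  ⟨(b (l 3) (b (a (l 3) (l 3)) (a (b (l 3) (a (a (l 3) (b (l 3) (a (l 531131646967) (b (l 196661181703) (l 16038272))))) (a (a (b (l 3) (b (l 313162319719) (l 16093560))) (b (c (l 665886183063) (l 16012872)) (l 173575949655))) (b (a (c (l 15964760) (l 15943512)) (l 211156729975)) (c (l 15865464) (l 15829808)))))) (b (b (a (l 3) (b (l 3) (a (l 3) (a (c (l 15257480) (l 15087896)) (c (l 15122488) (l 14927560)))))) (a (a (c (l 159080066423) (l 15755656)) (c (a (l 15678048) (l 15568016)) (a (l 15596016) (l 15464960)))) (a (c (a (l 15451696) (l 15329592)) (a (l 15326296) (l 15180784))) (c (a (l 15202176) (l 15069856)) (a (l 15029112) (l 14871920)))))) (a (b (a (c (l 15755072) (l 15695872)) (c (l 15552928) (l 15454872))) (a (c (l 15695064) (l 15627656)) (c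 (l 15495808) (l 15390168)))) (a (b (c (l 15325416) (l 15183368)) (c (l 15272072) (l 15123712))) (b (c (l 15264872) (l 14949728)) (c (l 15027496) (l 14833656))))))))), by decide +kernel⟩

theorem c_pp_102 : CertB 536870912 536870912 1073741824 536870912 858993459 64424510 3 eng mog cd3q1 cd2q2 pd0 false true true .npp 1 0 2
    ndB3q1 ndB2q2 pcB0 Cut.none Ext.none :=
  certB1 (fam := false) (s1 := true) (s2 := true) (a := 1) (b := 0) (c := 2) (cn := .npp) (n1 := ndB3q1) (n2 := ndB2q2) (pc := pcB0) (cut := Cut.none) (xt := Ext.none) (P1 := 536870912) (W1 := 536870912) (P2 := 1073741824) (W2 := 536870912) (P3 := 858993459) (W3 := 64424510) (N0 := 3) (En := eng) (mo := mog) (C1 := cd3q1) (C2 := cd2q2) (C3 := pd0)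
    rfl (fun _ => rfl) k0_pp_102

noncomputable def f_pp_112 : ℕ → ℕ → ℕ → ℕ → Bool := onCell 536870912 536870912 1073741824 536870912 858993459 64424510
    (rowB 3 eng mog cd3q1 cd2q2 pd1 2 false true true .dn 1 1 2 (qsf 536870912 536870912 1073741824 536870912 1) ndB3q1 ndB2q2 pcB1 Cut.none Ext.none)

def k0_pp_112 : ∃ t, chk3 f_pp_112 t 4 1 1 = true :=
  ⟨(b (b (a (b (a (b (c (l 1014315716775) (l 1345028192359)) (c (l 16157896) (l 16097016))) (c (b (l 453151368935) (l 16035872)) (b (l 541735042327) (l 16066312)))) (c (a (b (l 16056400) (l 15918440)) (c (l 16007272) (l 16026664))) (a (c (l 16062728) (l 16077584)) (c (l 16048384) (l 16072464))))) (a (b (c (l 367788882775) (l 367251410727)) (c (c (l 15979832) (l 16004040)) (l 16046944))) (b (l 1) (c (l 161630199671) (l 16030104))))) (a (c (b (a (c (l 15949488) (l 15956392)) (c (l 15940112) (l 15954672))) (a (l 15852528) (l 15822000))) (b (a (c (l 15966152) (l 15978776)) (l 15858520)) (a (l 15828704) (l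 15863152)))) (c (b (a (l 15919576) (l 16058688)) (a (l 15832416) (l 15840960))) (b (a (l 15992552) (l 15996008)) (a (l 15893032) (l 15917400)))))) (b (a (c (b (a (l 15634944) (l 15662680)) (a (l 15433744) (l 15477608))) (b (a (l 15642776) (l 15698088)) (a (l 15421232) (l 15495952)))) (c (b (a (l 15689168) (l 15713496)) (a (l 15520064) (l 15560216))) (b (a (l 15748464) (l 15792816)) (a (l 15565480) (l 15628744))))) (a (c (b (a (l 15212944) (l 15272968)) (a (c (l 15004648) (l 14953832)) (l 15054624))) (b (a (l 15169864) (l 15262616)) (a (l 14893368) (l 15002704)))) (c (b (a (l 15331552) (l 15387832)) (a (l 15129736) (l 15202752))) (b (a (l 15350128) (l 15431376)) (a (l 15106968) (l 15205304))))))), by decide +kernel⟩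

def k1_pp_112 : ∃ t, chk3 f_pp_112 t 5 1 1 = true :=
  ⟨(b (b (b (l 1) (a (a (c (l 221222787879) (l 16009656)) (l 1)) (l 1))) (a (c (a (b (l 16007256) (l 15847096)) (b (l 15910328) (l 15849056))) (b (a (l 15994320) (l 15987216)) (l 15942088))) (c (b (a (l 15891440) (l 1)) (a (l 15844704) (l 15834264))) (b (l 336649613527) (l 15949264))))) (a (b (c (b (l 15975000) (l 15635480)) (b (l 15636560) (l 15668104))) (c (b (l 15466392) (l 15307000)) (b (l 15539872) (l 15340480)))) (b (c (b (l 15766008) (l 15667688)) (b (l 15888632) (l 15788056))) (c (b (l 15552880) (l 15429584)) (b (l 15654440) (l 15493104)))))), by decide +kernel⟩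

def k2_pp_112 : ∃ t, chk3 f_pp_112 t 3 1 1 = true :=
  ⟨(a (b (a (b (l 1) (b (l 1) (c (l 15809352) (l 15916664)))) (l 1)) (a (b (c (b (l 15764624) (l 15697448)) (b (l 15887584) (l 15820744))) (b (c (l 15615968) (l 15723752)) (c (l 15529296) (l 15599808)))) (b (c (l 205653515415) (l 246991756647)) (b (l 15894496) (l 15730024))))) (b (l 1) (b (a (b (l 1) (l 15945720)) (l 1)) (a (b (l 15646432) (l 15571128)) (l 224443642951))))), by decide +kernel⟩

theorem s3_pp_112 : ∃ t, chk3 f_pp_112 t 2 1 1 = true := ex3_a k0_pp_112 k1_pp_112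

theorem s4_pp_112 : ∃ t, chk3 f_pp_112 t 1 1 1 = true := ex3_a s3_pp_112 k2_pp_112

theorem c_pp_112 : CertB 536870912 536870912 1073741824 536870912 858993459 64424510 3 eng mog cd3q1 cd2q2 pd1 false true true .dn 1 1 2
    ndB3q1 ndB2q2 pcB1 Cut.none Ext.none :=
  certB2 (fam := false) (s1 := true) (s2 := true) (a := 1) (b := 1) (c := 2) (cn := .dn) (n1 := ndB3q1) (n2 := ndB2q2) (pc := pcB1) (cut := Cut.none) (xt := Ext.none) (P1 := 536870912) (W1 := 536870912) (P2 := 1073741824) (W2 := 536870912) (P3 := 858993459) (W3 := 64424510) (N0 := 3) (En := eng) (mo := mog) (C1 := cd3q1) (C2 := cd2q2) (C3 := pd1)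
    rfl (fun _ => rfl) s4_pp_112

noncomputable def f_pp_113 : ℕ → ℕ → ℕ → ℕ → Bool := onCell 536870912 536870912 0 1230186008 858993459 64424510
    (rowB 3 eng mog cd3q1 cd2q3 pd1 2 false true true .nn 1 1 3 (qsf 536870912 536870912 0 1230186008 1) ndB3q1 ndB2q3 pcB1 Cut.none Ext.none)

def k0_pp_113 : ∃ t, chk3 f_pp_113 t 1 1 1 = true :=
  ⟨(b (a (l 2) (a (l 2) (b (l 16506800) (b (l 16485472) (l 16562400))))) (b (a (b (l 2) (a (l 2) (b (l 2) (a (l 2) (l 511198345159))))) (b (a (b (l 607836683399) (l 571329461639)) (b (l 16731688) (l 16782120))) (a (b (c (l 16110432) (l 15381072)) (a (l 15262000) (l 15707648))) (b (l 16651944) (l 16085568))))) (a (a (b (l 2) (a (b (l 2) (a (b (l 2) (c (l 14792152) (l 14692456))) (c (l 14966128) (l 14731328)))) (b (c (a (l 14692080) (l 14802928)) (a (l 14558200) (l 14673096))) (c (a (l 14911816) (l 15001296)) (a (l 14841968) (l 14948632)))))) (b (a (b (c (l 14745216) (l 14377840)) (c (l 14833456) (l 14721856))) (c (l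 15081648) (b (l 14679584) (l 14845872)))) (a (b (c (l 15176216) (a (l 14786712) (l 14897976))) (c (l 15153048) (l 15204416))) (b (c (l 15177264) (l 15054784)) (c (l 15293688) (l 15279600)))))) (a (b (a (b (l 15203288) (l 15218144)) (l 15460168)) (a (b (l 15293544) (c (l 15433840) (l 15417088))) (b (l 15427912) (l 15493504)))) (b (a (l 15600672) (l 15576240)) (a (b (l 15469224) (l 15489368)) (l 15437360))))))), by decide +kernel⟩

theorem c_pp_113 : CertB 536870912 536870912 0 1230186008 858993459 64424510 3 eng mog cd3q1 cd2q3 pd1 false true true .nn 1 1 3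
    ndB3q1 ndB2q3 pcB1 Cut.none Ext.none :=
  certB2 (fam := false) (s1 := true) (s2 := true) (a := 1) (b := 1) (c := 3) (cn := .nn) (n1 := ndB3q1) (n2 := ndB2q3) (pc := pcB1) (cut := Cut.none) (xt := Ext.none) (P1 := 536870912) (W1 := 536870912) (P2 := 0) (W2 := 1230186008) (P3 := 858993459) (W3 := 64424510) (N0 := 3) (En := eng) (mo := mog) (C1 := cd3q1) (C2 := cd2q3) (C3 := pd1)
    rfl (fun _ => rfl) k0_pp_113

noncomputable def f_pp_123 : ℕ → ℕ → ℕ → ℕ → Bool := onCell 1073741824 536870912 0 1230186008 858993459 64424510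
    (rowB 3 eng mog cd3q1 cd2q3 pd2 2 false true true .npn 1 2 3 (qsf 536870912 536870912 0 1230186008 2) ndB3q1 ndB2q3 pcB2 Cut.none Ext.none)

def k0_pp_123 : ∃ t, chk3 f_pp_123 t 1 1 1 = true :=
  ⟨(b (a (a (b (l 16889832) (a (l 16833144) (l 16912160))) (b (l 4) (a (l 16592616) (l 16497456)))) (a (b (l 4) (a (l 16507704) (l 4))) (l 4))) (b (a (b (a (b (l 16730520) (l 16349240)) (b (l 16260592) (l 16123048))) (a (a (l 16044680) (b (l 15964056) (l 15793824))) (c (l 15995296) (l 15885232)))) (b (a (b (l 16392184) (l 16293232)) (b (l 4) (l 1))) (a (b (l 16195784) (l 16110432)) (l 1)))) (a (a (a (b (l 15600080) (l 15626328)) (b (l 15637656) (b (l 15597040) (l 15623576)))) (b (a (l 15732272) (l 15838768)) (a (l 490730907143) (l 1)))) (l 1)))), by decide +kernel⟩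

theorem c_pp_123 : CertB 536870912 536870912 0 1230186008 858993459 64424510 3 eng mog cd3q1 cd2q3 pd2 false true true .npn 1 2 3
    ndB3q1 ndB2q3 pcB2 Cut.none Ext.none :=
  certB2 (fam := false) (s1 := true) (s2 := true) (a := 1) (b := 2) (c := 3) (cn := .npn) (n1 := ndB3q1) (n2 := ndB2q3) (pc := pcB2) (cut := Cut.none) (xt := Ext.none) (P1 := 536870912) (W1 := 536870912) (P2 := 0) (W2 := 1230186008) (P3 := 858993459) (W3 := 64424510) (N0 := 3) (En := eng) (mo := mog) (C1 := cd3q1) (C2 := cd2q3) (C3 := pd2)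
    rfl (fun _ => rfl) k0_pp_123

noncomputable def f_pp_133 : ℕ → ℕ → ℕ → ℕ → Bool := onCell 1610612736 536870912 0 1230186008 858993459 64424510
    (rowB 3 eng mog cd3q1 cd2q3 pd3 2 false true true .dn 1 3 3 (qsf 536870912 536870912 0 1230186008 3) ndB3q1 ndB2q3 pcB3 Cut.none Ext.none)

def k0_pp_133 : ∃ t, chk3 f_pp_133 t 1 1 1 = true :=
  ⟨(b (a (l 4) (l 1)) (l 1)), by decide +kernel⟩

theorem c_pp_133 : CertB 536870912 536870912 0 1230186008 858993459 64424510 3 eng mog cd3q1 cd2q3 pd3 false true true .dn 1 3 3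
    ndB3q1 ndB2q3 pcB3 Cut.none Ext.none :=
  certB2 (fam := false) (s1 := true) (s2 := true) (a := 1) (b := 3) (c := 3) (cn := .dn) (n1 := ndB3q1) (n2 := ndB2q3) (pc := pcB3) (cut := Cut.none) (xt := Ext.none) (P1 := 536870912) (W1 := 536870912) (P2 := 0) (W2 := 1230186008) (P3 := 858993459) (W3 := 64424510) (N0 := 3) (En := eng) (mo := mog) (C1 := cd3q1) (C2 := cd2q3) (C3 := pd3)
    rfl (fun _ => rfl) k0_pp_133

noncomputable def f_pp_202 : ℕ → ℕ → ℕ → ℕ → Bool := onCell 1073741824 536870912 1073741824 536870912 858993459 64424510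
    (rowB 3 eng mog cd3q2 cd2q2 pd0 0 false true true .pp 2 0 2 (qsf 1073741824 536870912 1073741824 536870912 0) ndB3q2 ndB2q2 pcB0 Cut.none Ext.none)

def k0_pp_202 : ∃ t, chk3 f_pp_202 t 1 1 1 = true :=
  ⟨(l 3), by decide +kernel⟩

theorem c_pp_202 : CertB 1073741824 536870912 1073741824 536870912 858993459 64424510 3 eng mog cd3q2 cd2q2 pd0 false true true .pp 2 0 2
    ndB3q2 ndB2q2 pcB0 Cut.none Ext.none :=
  certB0 (fam := false) (s1 := true) (s2 := true) (a := 2) (b := 0) (c := 2) (cn := .pp) (n1 := ndB3q2) (n2 := ndB2q2) (pc := pcB0) (cut := Cut.none) (xt := Ext.none) (P1 := 1073741824) (W1 := 536870912) (P2 := 1073741824) (W2 := 536870912) (P3 := 858993459) (W3 := 64424510) (N0 := 3) (En := eng) (mo := mog) (C1 := cd3q2) (C2 := cd2q2) (C3 := pd0)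
    rfl k0_pp_202

noncomputable def f_pp_203 : ℕ → ℕ → ℕ → ℕ → Bool := onCell 0 536870912 0 1230186008 858993459 64424510
    (rowB 3 eng mog cd3q2 cd2q3 pd0 2 false true true .up 2 0 3 (qsf 1073741824 536870912 0 1230186008 0) ndB3q2 ndB2q3 pcB0 Cut.none Ext.none)

def k0_pp_203 : ∃ t, chk3 f_pp_203 t 1 1 1 = true :=
  ⟨(b (a (l 2) (l 3)) (l 3)), by decide +kernel⟩

theorem c_pp_203 : CertB 1073741824 536870912 0 1230186008 858993459 64424510 3 eng mog cd3q2 cd2q3 pd0 false true true .up 2 0 3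
    ndB3q2 ndB2q3 pcB0 Cut.none Ext.none :=
  certB2 (fam := false) (s1 := true) (s2 := true) (a := 2) (b := 0) (c := 3) (cn := .up) (n1 := ndB3q2) (n2 := ndB2q3) (pc := pcB0) (cut := Cut.none) (xt := Ext.none) (P1 := 1073741824) (W1 := 536870912) (P2 := 0) (W2 := 1230186008) (P3 := 858993459) (W3 := 64424510) (N0 := 3) (En := eng) (mo := mog) (C1 := cd3q2) (C2 := cd2q3) (C3 := pd0)
    rfl (fun _ => rfl) k0_pp_203

noncomputable def f_pp_213 : ℕ → ℕ → ℕ → ℕ → Bool := onCell 536870912 536870912 0 1230186008 858993459 64424510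
    (rowB 3 eng mog cd3q2 cd2q3 pd1 2 false true true .pnn 2 1 3 (qsf 1073741824 536870912 0 1230186008 1) ndB3q2 ndB2q3 pcB1 Cut.none Ext.none)

def k0_pp_213 : ∃ t, chk3 f_pp_213 t 1 2 1 = true :=
  ⟨(a (a (b (a (l 3) (c (b (l 16236248) (l 3)) (l 351279550871))) (l 3)) (b (b (a (a (l 15895936) (l 16107224)) (c (l 16171064) (l 16150736))) (a (c (a (l 16011536) (l 16049584)) (l 15905144)) (a (l 15998232) (l 16166968)))) (a (b (c (a (l 3) (l 505898595319)) (l 528446915719)) (l 3)) (b (a (c (l 16068016) (l 16131000)) (c (l 16114624) (l 16149256))) (a (c (l 561196103271) (l 572470384375)) (c (b (l 16084152) (l 590187534343)) (b (l 16147264) (l 16209192)))))))) (a (b (a (c (b (l 16295192) (l 16271200)) (l 15974664)) (a (l 16142056) (l 16425616))) (a (b (c (a (l 16188736) (l 16265744)) (l 16183464)) (b (a (l 15985264) (l 16246168)) (a (c (l 16232928) (l 16257960)) (c (l 16341544) (l 16319016))))) (b (a (l 16320424) (l 16403800)) (a (b (l 16329680) (l 16426800))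 (b (l 16425472) (l 16534640)))))) (b (a (a (l 16509504) (l 16609240)) (a (l 16730768) (l 16714872))) (a (b (a (l 16498640) (l 16603664)) (a (b (l 16533072) (l 16649976)) (b (l 16647776) (l 16764464)))) (b (a (l 16713824) (l 16826800)) (a (l 740379120823) (l 1))))))), by decide +kernel⟩

def k1_pp_213 : ∃ t, chk3 f_pp_213 t 1 3 1 = true :=
  ⟨(b (a (b (a (l 3) (l 3)) (l 3)) (b (a (a (c (b (a (b (l 16310248) (l 16245320)) (b (l 16431808) (l 16454904))) (a (b (l 537574453831) (l 3)) (b (l 119352244503) (c (l 125794751719) (l 95193130215))))) (b (a (b (l 16255216) (l 16215840)) (c (l 16386176) (l 16288400))) (a (l 621863275991) (b (l 16272720) (a (l 16197136) (l 16261424)))))) (b (a (b (l 16443304) (b (l 16550296) (l 16560768))) (b (l 16557088) (l 16546904))) (a (c (a (c (l 16535320) (l 16530744)) (l 676490313303)) (b (l 16448144) (a (l 16349168) (l 16477552)))) (c (c (l 16630296) (l 706555209335)) (l 784938157767))))) (a (b (a (b (l 16757208) (l 1)) (l 1))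 (l 1)) (l 1))) (a (a (b (a (l 3) (a (l 3) (a (l 3) (b (c (l 541332880455) (l 636358770647)) (l 1))))) (l 3)) (b (a (a (b (b (c (l 16607824) (l 16319840)) (l 1)) (l 1)) (l 1)) (l 1)) (l 1))) (l 1)))) (a (l 3) (l 1))), by decide +kernel⟩

theorem s2_pp_213 : ∃ t, chk3 f_pp_213 t 1 1 1 = true := ex3_b k0_pp_213 k1_pp_213

theorem c_pp_213 : CertB 1073741824 536870912 0 1230186008 858993459 64424510 3 eng mog cd3q2 cd2q3 pd1 false true true .pnn 2 1 3
    ndB3q2 ndB2q3 pcB1 Cut.none Ext.none :=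
  certB2 (fam := false) (s1 := true) (s2 := true) (a := 2) (b := 1) (c := 3) (cn := .pnn) (n1 := ndB3q2) (n2 := ndB2q3) (pc := pcB1) (cut := Cut.none) (xt := Ext.none) (P1 := 1073741824) (W1 := 536870912) (P2 := 0) (W2 := 1230186008) (P3 := 858993459) (W3 := 64424510) (N0 := 3) (En := eng) (mo := mog) (C1 := cd3q2) (C2 := cd2q3) (C3 := pd1)
    rfl (fun _ => rfl) s2_pp_213

noncomputable def f_pp_303 : ℕ → ℕ → ℕ → ℕ → Bool := onCell 0 1230186008 0 1230186008 858993459 64424510
    (rowB 3 eng mog cd3q3 cd2q3 pd0 0 false true true .npn 3 0 3 (qsf 0 1230186008 0 1230186008 0) ndB3q3 ndB2q3 pcB0 Cut.none Ext.none)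

def k0_pp_303 : ∃ t, chk3 f_pp_303 t 1 1 1 = true :=
  ⟨(a (b (l 3) (l 3)) (b (l 3) (l 3))), by decide +kernel⟩

theorem c_pp_303 : CertB 0 1230186008 0 1230186008 858993459 64424510 3 eng mog cd3q3 cd2q3 pd0 false true true .npn 3 0 3
    ndB3q3 ndB2q3 pcB0 Cut.none Ext.none :=
  certB0 (fam := false) (s1 := true) (s2 := true) (a := 3) (b := 0) (c := 3) (cn := .npn) (n1 := ndB3q3) (n2 := ndB2q3) (pc := pcB0) (cut := Cut.none) (xt := Ext.none) (P1 := 0) (W1 := 1230186008) (P2 := 0) (W2 := 1230186008) (P3 := 858993459) (W3 := 64424510) (N0 := 3) (En := eng) (mo := mog) (C1 := cd3q3) (C2 := cd2q3) (C3 := pd0)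
    rfl k0_pp_303

noncomputable def f_pp_313 : ℕ → ℕ → ℕ → ℕ → Bool := onCell 0 1230186008 0 1230186008 858993459 64424510
    (rowB 3 eng mog cd3q3 cd2q3 pd1 0 false true true .dn 3 1 3 (qsf 0 1230186008 0 1230186008 1) ndB3q3 ndB2q3 pcB1 Cut.none Ext.none)

def k0_pp_313 : ∃ t, chk3 f_pp_313 t 1 1 1 = true :=
  ⟨(a (l 1) (b (l 3) (l 1))), by decide +kernel⟩

theorem c_pp_313 : CertB 0 1230186008 0 1230186008 858993459 64424510 3 eng mog cd3q3 cd2q3 pd1 false true true .dn 3 1 3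
    ndB3q3 ndB2q3 pcB1 Cut.none Ext.none :=
  certB0 (fam := false) (s1 := true) (s2 := true) (a := 3) (b := 1) (c := 3) (cn := .dn) (n1 := ndB3q3) (n2 := ndB2q3) (pc := pcB1) (cut := Cut.none) (xt := Ext.none) (P1 := 0) (W1 := 1230186008) (P2 := 0) (W2 := 1230186008) (P3 := 858993459) (W3 := 64424510) (N0 := 3) (En := eng) (mo := mog) (C1 := cd3q3) (C2 := cd2q3) (C3 := pd1)
    rfl k0_pp_313

noncomputable def f_pm_001 : ℕ → ℕ → ℕ → ℕ → Bool := onCell 0 536870912 536870912 536870912 858993459 64424510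
    (rowB 3 eng mog cd3q0 cd2q1 pd0 0 false true false .up 0 0 1 (qsf 0 536870912 536870912 536870912 0) ndB3q0 ndB2q1 pcB0 Cut.none Ext.none)

def k0_pm_001 : ∃ t, chk3 f_pm_001 t 1 1 1 = true :=
  ⟨(l 4), by decide +kernel⟩

theorem c_pm_001 : CertB 0 536870912 536870912 536870912 858993459 64424510 3 eng mog cd3q0 cd2q1 pd0 false true false .up 0 0 1
    ndB3q0 ndB2q1 pcB0 Cut.none Ext.none :=
  certB0 (fam := false) (s1 := true) (s2 := false) (a := 0) (b := 0) (c := 1) (cn := .up) (n1 := ndB3q0) (n2 := ndB2q1) (pc := pcB0) (cut := Cut.none) (xt := Ext.none) (P1 := 0) (W1 := 536870912) (P2 := 536870912) (W2 := 536870912) (P3 := 858993459) (W3 := 64424510) (N0 := 3) (En := eng) (mo := mog) (C1 := cd3q0) (C2 := cd2q1) (C3 := pd0)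
    rfl k0_pm_001

noncomputable def f_pm_011 : ℕ → ℕ → ℕ → ℕ → Bool := onCell 0 536870912 536870912 536870912 858993459 64424510
    (rowB 3 eng mog cd3q0 cd2q1 pd1 0 false true false .pnn 0 1 1 (qsf 0 536870912 536870912 536870912 1) ndB3q0 ndB2q1 pcB1 Cut.none Ext.none)

def k0_pm_011 : ∃ t, chk3 f_pm_011 t 1 1 1 = true :=
  ⟨(l 4), by decide +kernel⟩

theorem c_pm_011 : CertB 0 536870912 536870912 536870912 858993459 64424510 3 eng mog cd3q0 cd2q1 pd1 false true false .pnn 0 1 1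
    ndB3q0 ndB2q1 pcB1 Cut.none Ext.none :=
  certB0 (fam := false) (s1 := true) (s2 := false) (a := 0) (b := 1) (c := 1) (cn := .pnn) (n1 := ndB3q0) (n2 := ndB2q1) (pc := pcB1) (cut := Cut.none) (xt := Ext.none) (P1 := 0) (W1 := 536870912) (P2 := 536870912) (W2 := 536870912) (P3 := 858993459) (W3 := 64424510) (N0 := 3) (En := eng) (mo := mog) (C1 := cd3q0) (C2 := cd2q1) (C3 := pd1)
    rfl k0_pm_011

noncomputable def f_pm_012 : ℕ → ℕ → ℕ → ℕ → Bool := onCell 0 536870912 1073741824 536870912 858993459 64424510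
    (rowB 3 eng mog cd3q0 cd2q2 pd1 0 false true false .pnp 0 1 2 (qsf 0 536870912 1073741824 536870912 1) ndB3q0 ndB2q2 pcB1 Cut.none Ext.none)

def k0_pm_012 : ∃ t, chk3 f_pm_012 t 1 1 1 = true :=
  ⟨(l 4), by decide +kernel⟩

theorem c_pm_012 : CertB 0 536870912 1073741824 536870912 858993459 64424510 3 eng mog cd3q0 cd2q2 pd1 false true false .pnp 0 1 2
    ndB3q0 ndB2q2 pcB1 Cut.none Ext.none :=
  certB0 (fam := false) (s1 := true) (s2 := false) (a := 0) (b := 1) (c := 2) (cn := .pnp) (n1 := ndB3q0) (n2 := ndB2q2) (pc := pcB1) (cut := Cut.none) (xt := Ext.none) (P1 := 0) (W1 := 536870912) (P2 := 1073741824) (W2 := 536870912) (P3 := 858993459) (W3 := 64424510) (N0 := 3) (En := eng) (mo := mog) (C1 := cd3q0) (C2 := cd2q2) (C3 := pd1)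
    rfl k0_pm_012

noncomputable def f_pm_022 : ℕ → ℕ → ℕ → ℕ → Bool := onCell 0 536870912 1073741824 536870912 858993459 64424510
    (rowB 3 eng mog cd3q0 cd2q2 pd2 0 false true false .pp 0 2 2 (qsf 0 536870912 1073741824 536870912 2) ndB3q0 ndB2q2 pcB2 Cut.none Ext.none)

def k0_pm_022 : ∃ t, chk3 f_pm_022 t 1 1 1 = true :=
  ⟨(l 4), by decide +kernel⟩

theorem c_pm_022 : CertB 0 536870912 1073741824 536870912 858993459 64424510 3 eng mog cd3q0 cd2q2 pd2 false true false .pp 0 2 2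
    ndB3q0 ndB2q2 pcB2 Cut.none Ext.none :=
  certB0 (fam := false) (s1 := true) (s2 := false) (a := 0) (b := 2) (c := 2) (cn := .pp) (n1 := ndB3q0) (n2 := ndB2q2) (pc := pcB2) (cut := Cut.none) (xt := Ext.none) (P1 := 0) (W1 := 536870912) (P2 := 1073741824) (W2 := 536870912) (P3 := 858993459) (W3 := 64424510) (N0 := 3) (En := eng) (mo := mog) (C1 := cd3q0) (C2 := cd2q2) (C3 := pd2)
    rfl k0_pm_022

noncomputable def f_pm_023 : ℕ → ℕ → ℕ → ℕ → Bool := onCell 0 536870912 0 1230186008 858993459 64424510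
    (rowB 3 eng mog cd3q0 cd2q3 pd2 0 false true false .up 0 2 3 (qsf 0 536870912 0 1230186008 2) ndB3q0 ndB2q3 pcB2 Cut.none Ext.none)

def k0_pm_023 : ∃ t, chk3 f_pm_023 t 1 1 1 = true :=
  ⟨(b (l 4) (l 4)), by decide +kernel⟩

theorem c_pm_023 : CertB 0 536870912 0 1230186008 858993459 64424510 3 eng mog cd3q0 cd2q3 pd2 false true false .up 0 2 3
    ndB3q0 ndB2q3 pcB2 Cut.none Ext.none :=
  certB0 (fam := false) (s1 := true) (s2 := false) (a := 0) (b := 2) (c := 3) (cn := .up) (n1 := ndB3q0) (n2 := ndB2q3) (pc := pcB2) (cut := Cut.none) (xt := Ext.none) (P1 := 0) (W1 := 536870912) (P2 := 0) (W2 := 1230186008) (P3 := 858993459) (W3 := 64424510) (N0 := 3) (En := eng) (mo := mog) (C1 := cd3q0) (C2 := cd2q3) (C3 := pd2)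
    rfl k0_pm_023

noncomputable def f_pm_033 : ℕ → ℕ → ℕ → ℕ → Bool := onCell 0 536870912 0 1230186008 858993459 64424510
    (rowB 3 eng mog cd3q0 cd2q3 pd3 0 false true false .pnn 0 3 3 (qsf 0 536870912 0 1230186008 3) ndB3q0 ndB2q3 pcB3 Cut.none Ext.none)

def k0_pm_033 : ∃ t, chk3 f_pm_033 t 1 1 1 = true :=
  ⟨(b (l 4) (l 4)), by decide +kernel⟩

theorem c_pm_033 : CertB 0 536870912 0 1230186008 858993459 64424510 3 eng mog cd3q0 cd2q3 pd3 false true false .pnn 0 3 3
    ndB3q0 ndB2q3 pcB3 Cut.none Ext.none :=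
  certB0 (fam := false) (s1 := true) (s2 := false) (a := 0) (b := 3) (c := 3) (cn := .pnn) (n1 := ndB3q0) (n2 := ndB2q3) (pc := pcB3) (cut := Cut.none) (xt := Ext.none) (P1 := 0) (W1 := 536870912) (P2 := 0) (W2 := 1230186008) (P3 := 858993459) (W3 := 64424510) (N0 := 3) (En := eng) (mo := mog) (C1 := cd3q0) (C2 := cd2q3) (C3 := pd3)
    rfl k0_pm_033

noncomputable def f_pm_101 : ℕ → ℕ → ℕ → ℕ → Bool := onCell 536870912 536870912 536870912 536870912 858993459 64424510
    (rowB 3 eng mog cd3q1 cd2q1 pd0 0 false true false .npn 1 0 1 (qsf 536870912 536870912 536870912 536870912 0) ndB3q1 ndB2q1 pcB0 Cut.none Ext.none)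

def k0_pm_101 : ∃ t, chk3 f_pm_101 t 1 1 1 = true :=
  ⟨(l 4), by decide +kernel⟩

theorem c_pm_101 : CertB 536870912 536870912 536870912 536870912 858993459 64424510 3 eng mog cd3q1 cd2q1 pd0 false true false .npn 1 0 1
    ndB3q1 ndB2q1 pcB0 Cut.none Ext.none :=
  certB0 (fam := false) (s1 := true) (s2 := false) (a := 1) (b := 0) (c := 1) (cn := .npn) (n1 := ndB3q1) (n2 := ndB2q1) (pc := pcB0) (cut := Cut.none) (xt := Ext.none) (P1 := 536870912) (W1 := 536870912) (P2 := 536870912) (W2 := 536870912) (P3 := 858993459) (W3 := 64424510) (N0 := 3) (En := eng) (mo := mog) (C1 := cd3q1) (C2 := cd2q1) (C3 := pd0)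
    rfl k0_pm_101

noncomputable def f_pm_102 : ℕ → ℕ → ℕ → ℕ → Bool := onCell 536870912 536870912 1073741824 536870912 858993459 64424510
    (rowB 3 eng mog cd3q1 cd2q2 pd0 0 false true false .npp 1 0 2 (qsf 536870912 536870912 1073741824 536870912 0) ndB3q1 ndB2q2 pcB0 Cut.none Ext.none)

def k0_pm_102 : ∃ t, chk3 f_pm_102 t 1 1 1 = true :=
  ⟨(l 4), by decide +kernel⟩

theorem c_pm_102 : CertB 536870912 536870912 1073741824 536870912 858993459 64424510 3 eng mog cd3q1 cd2q2 pd0 false true false .npp 1 0 2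
    ndB3q1 ndB2q2 pcB0 Cut.none Ext.none :=
  certB0 (fam := false) (s1 := true) (s2 := false) (a := 1) (b := 0) (c := 2) (cn := .npp) (n1 := ndB3q1) (n2 := ndB2q2) (pc := pcB0) (cut := Cut.none) (xt := Ext.none) (P1 := 536870912) (W1 := 536870912) (P2 := 1073741824) (W2 := 536870912) (P3 := 858993459) (W3 := 64424510) (N0 := 3) (En := eng) (mo := mog) (C1 := cd3q1) (C2 := cd2q2) (C3 := pd0)
    rfl k0_pm_102

noncomputable def f_pm_112 : ℕ → ℕ → ℕ → ℕ → Bool := onCell 536870912 536870912 1073741824 536870912 858993459 64424510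
    (rowB 3 eng mog cd3q1 cd2q2 pd1 0 false true false .dn 1 1 2 (qsf 536870912 536870912 1073741824 536870912 1) ndB3q1 ndB2q2 pcB1 Cut.none Ext.none)

def k0_pm_112 : ∃ t, chk3 f_pm_112 t 1 1 1 = true :=
  ⟨(l 4), by decide +kernel⟩

theorem c_pm_112 : CertB 536870912 536870912 1073741824 536870912 858993459 64424510 3 eng mog cd3q1 cd2q2 pd1 false true false .dn 1 1 2
    ndB3q1 ndB2q2 pcB1 Cut.none Ext.none :=
  certB0 (fam := false) (s1 := true) (s2 := false) (a := 1) (b := 1) (c := 2) (cn := .dn) (n1 := ndB3q1) (n2 := ndB2q2) (pc := pcB1) (cut := Cut.none) (xt := Ext.none) (P1 := 536870912) (W1 := 536870912) (P2 := 1073741824) (W2 := 536870912) (P3 := 858993459) (W3 := 64424510) (N0 := 3) (En := eng) (mo := mog) (C1 := cd3q1) (C2 := cd2q2) (C3 := pd1)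
    rfl k0_pm_112

noncomputable def f_pm_113 : ℕ → ℕ → ℕ → ℕ → Bool := onCell 536870912 536870912 0 1230186008 858993459 64424510
    (rowB 3 eng mog cd3q1 cd2q3 pd1 0 false true false .nn 1 1 3 (qsf 536870912 536870912 0 1230186008 1) ndB3q1 ndB2q3 pcB1 Cut.none Ext.none)

def k0_pm_113 : ∃ t, chk3 f_pm_113 t 1 1 1 = true :=
  ⟨(b (a (l 2) (b (a (l 2) (l 16614960)) (l 4))) (l 4)), by decide +kernel⟩

theorem c_pm_113 : CertB 536870912 536870912 0 1230186008 858993459 64424510 3 eng mog cd3q1 cd2q3 pd1 false true false .nn 1 1 3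
    ndB3q1 ndB2q3 pcB1 Cut.none Ext.none :=
  certB0 (fam := false) (s1 := true) (s2 := false) (a := 1) (b := 1) (c := 3) (cn := .nn) (n1 := ndB3q1) (n2 := ndB2q3) (pc := pcB1) (cut := Cut.none) (xt := Ext.none) (P1 := 536870912) (W1 := 536870912) (P2 := 0) (W2 := 1230186008) (P3 := 858993459) (W3 := 64424510) (N0 := 3) (En := eng) (mo := mog) (C1 := cd3q1) (C2 := cd2q3) (C3 := pd1)
    rfl k0_pm_113

noncomputable def f_pm_123 : ℕ → ℕ → ℕ → ℕ → Bool := onCell 1073741824 536870912 0 1230186008 858993459 64424510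
    (rowB 3 eng mog cd3q1 cd2q3 pd2 2 false true false .npn 1 2 3 (qsf 536870912 536870912 0 1230186008 2) ndB3q1 ndB2q3 pcB2 Cut.none Ext.none)

def k0_pm_123 : ∃ t, chk3 f_pm_123 t 1 1 1 = true :=
  ⟨(b (a (a (b (l 16920488) (l 4)) (l 4)) (l 4)) (l 4)), by decide +kernel⟩

theorem c_pm_123 : CertB 536870912 536870912 0 1230186008 858993459 64424510 3 eng mog cd3q1 cd2q3 pd2 false true false .npn 1 2 3
    ndB3q1 ndB2q3 pcB2 Cut.none Ext.none :=
  certB2 (fam := false) (s1 := true) (s2 := false) (a := 1) (b := 2) (c := 3) (cn := .npn) (n1 := ndB3q1) (n2 := ndB2q3) (pc := pcB2) (cut := Cut.none) (xt := Ext.none) (P1 := 536870912) (W1 := 536870912) (P2 := 0) (W2 := 1230186008) (P3 := 858993459) (W3 := 64424510) (N0 := 3) (En := eng) (mo := mog) (C1 := cd3q1) (C2 := cd2q3) (C3 := pd2)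
    rfl (fun _ => rfl) k0_pm_123

noncomputable def f_pm_133 : ℕ → ℕ → ℕ → ℕ → Bool := onCell 1610612736 536870912 0 1230186008 858993459 64424510
    (rowB 3 eng mog cd3q1 cd2q3 pd3 2 false true false .dn 1 3 3 (qsf 536870912 536870912 0 1230186008 3) ndB3q1 ndB2q3 pcB3 Cut.none Ext.none)

def k0_pm_133 : ∃ t, chk3 f_pm_133 t 1 1 1 = true :=
  ⟨(b (l 4) (l 1)), by decide +kernel⟩

theorem c_pm_133 : CertB 536870912 536870912 0 1230186008 858993459 64424510 3 eng mog cd3q1 cd2q3 pd3 false true false .dn 1 3 3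
    ndB3q1 ndB2q3 pcB3 Cut.none Ext.none :=
  certB2 (fam := false) (s1 := true) (s2 := false) (a := 1) (b := 3) (c := 3) (cn := .dn) (n1 := ndB3q1) (n2 := ndB2q3) (pc := pcB3) (cut := Cut.none) (xt := Ext.none) (P1 := 536870912) (W1 := 536870912) (P2 := 0) (W2 := 1230186008) (P3 := 858993459) (W3 := 64424510) (N0 := 3) (En := eng) (mo := mog) (C1 := cd3q1) (C2 := cd2q3) (C3 := pd3)
    rfl (fun _ => rfl) k0_pm_133

noncomputable def f_pm_202 : ℕ → ℕ → ℕ → ℕ → Bool := onCell 0 536870912 1073741824 536870912 858993459 64424510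
    (rowB 3 eng mog cd3q2 cd2q2 pd0 2 false true false .pp 2 0 2 (qsf 1073741824 536870912 1073741824 536870912 0) ndB3q2 ndB2q2 pcB0 Cut.none Ext.none)

def k0_pm_202 : ∃ t, chk3 f_pm_202 t 2 1 1 = true :=
  ⟨(b (a (b (b (b (a (b (a (a (c (l 466571773975) (l 518111048055)) (c (l 631928032727) (l 749502437399))) (l 1)) (a (c (a (l 15316656) (l 15260712)) (a (l 15138488) (l 15129056))) (a (c (l 634075586183) (l 755944985399)) (l 1)))) (l 1)) (b (a (a (a (l 15244624) (l 15236800)) (c (a (l 15294776) (l 633001909239)) (a (l 15176168) (l 758629429975)))) (l 1)) (b (a (a (l 15275192) (l 15262864)) (l 1)) (a (a (l 15298728) (l 15282400)) (a (l 15282776) (l 1)))))) (a (b (a (c (l 15372664) (l 15347312)) (c (l 15364888) (l 15309880))) (a (l 15575856) (l 15443712))) (a (b (b (l 598105310935) (l 15340032)) (l 15565416)) (b (b (l 1) (l 15335304)) (l 513816726711))))) (b (a (c (b (l 15521784) (l 15594424)) (b (l 15531080) (l 15628496))) (c (b (l 15488864) (l 15552152))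 (b (l 15439840) (l 15532272)))) (a (c (l 15685000) (l 15777760)) (c (l 15634376) (l 15679160))))) (b (b (l 1) (a (b (l 1) (a (l 815001291607) (l 1))) (l 1))) (b (a (b (a (l 15469216) (l 775272925399)) (a (l 15491200) (l 15464392))) (b (l 1) (l 818222642823))) (a (c (l 15585688) (l 15567880)) (c (l 15552128) (l 15687216)))))) (a (b (b (a (c (l 15788008) (l 15943768)) (c (l 15734480) (l 15851136))) (c (a (l 15862560) (l 15816592)) (l 15924664))) (a (b (c (l 15895680) (l 16119104)) (l 15982048)) (a (b (l 15980928) (l 15992808)) (b (l 15895312) (l 15992376))))) (b (b (a (c (l 15675528) (l 15738208)) (c (l 15618128) (l 15612688))) (a (c (l 15759000) (l 15886576)) (c (l 15694696) (l 15762832)))) (a (a (b (l 15928752) (l 15981744)) (b (l 15893080) (l 15963560))) (b (b (l 15802568) (l 15831224)) (c (l 15838672) (l 16021328))))))), by decide +kernel⟩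

def k1_pm_202 : ∃ t, chk3 f_pm_202 t 3 1 1 = true :=
  ⟨(b (a (b (l 1) (b (l 1) (a (c (l 681857655719) (l 819296228039)) (l 1)))) (l 1)) (a (b (b (a (c (l 15574152) (l 15485840)) (l 699037357911)) (a (c (l 15631840) (l 15626616)) (l 537439356423))) (a (b (c (l 15704536) (l 15767448)) (c (l 15785024) (l 15913368))) (b (l 144987014295) (c (l 15721120) (l 15775968))))) (b (b (l 1) (a (l 673267561847) (l 1))) (b (a (l 15541032) (l 15673400)) (a (l 128344044919) (l 466035606391)))))), by decide +kernel⟩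

theorem s2_pm_202 : ∃ t, chk3 f_pm_202 t 1 1 1 = true := ex3_a k0_pm_202 k1_pm_202

theorem c_pm_202 : CertB 1073741824 536870912 1073741824 536870912 858993459 64424510 3 eng mog cd3q2 cd2q2 pd0 false true false .pp 2 0 2
    ndB3q2 ndB2q2 pcB0 Cut.none Ext.none :=
  certB2 (fam := false) (s1 := true) (s2 := false) (a := 2) (b := 0) (c := 2) (cn := .pp) (n1 := ndB3q2) (n2 := ndB2q2) (pc := pcB0) (cut := Cut.none) (xt := Ext.none) (P1 := 1073741824) (W1 := 536870912) (P2 := 1073741824) (W2 := 536870912) (P3 := 858993459) (W3 := 64424510) (N0 := 3) (En := eng) (mo := mog) (C1 := cd3q2) (C2 := cd2q2) (C3 := pd0)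
    rfl (fun _ => rfl) s2_pm_202

noncomputable def f_pm_203 : ℕ → ℕ → ℕ → ℕ → Bool := onCell 0 536870912 0 1230186008 858993459 64424510
    (rowB 3 eng mog cd3q2 cd2q3 pd0 2 false true false .up 2 0 3 (qsf 1073741824 536870912 0 1230186008 0) ndB3q2 ndB2q3 pcB0 Cut.none Ext.none)

def k0_pm_203 : ∃ t, chk3 f_pm_203 t 1 1 1 = true :=
  ⟨(a (b (l 2) (b (b (l 2) (a (l 2) (a (l 2) (b (l 2) (b (l 2) (l 15572608)))))) (b (a (l 2) (a (a (b (l 2) (l 15746432)) (b (l 15636440) (l 15786728))) (b (l 353895978599) (a (l 15820312) (l 15862064))))) (a (b (a (l 2) (a (l 498851124007) (a (l 15798776) (l 15842840)))) (a (l 549317247111) (a (l 15894904) (a (l 15925256) (l 15940424))))) (a (a (b (l 15719584) (l 15946736)) (b (l 15887592) (l 15948496))) (b (a (l 15902552) (l 15923024)) (a (l 15944240) (l 15935640)))))))) (b (a (l 2) (b (l 3) (a (b (l 3) (b (l 15908264) (l 15843536))) (b (l 225651447975) (b (l 15918240) (l 15843208)))))) (b (b (a (a (l 2) (b (b (l 15782272)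 (l 15731456)) (l 15640112))) (b (a (l 15758680) (l 15757904)) (a (b (l 15678336) (l 15657920)) (b (l 15707672) (l 15769072))))) (a (b (a (a (l 15580152) (l 15599776)) (b (l 15628560) (l 15688032))) (a (c (l 15635192) (l 15744800)) (l 15823984))) (b (a (a (l 15740992) (l 15814328)) (l 15908520)) (a (l 15930840) (l 16000272))))) (b (a (a (b (l 15843464) (l 15926584)) (b (l 15936568) (l 15967984))) (a (b (l 15988760) (l 15963000)) (b (l 16001624) (l 15922872)))) (a (b (a (l 15945728) (l 15926048)) (a (l 15885456) (c (l 15795360) (l 15880320)))) (a (b (b (l 15894296) (l 15829952)) (c (l 15738976) (l 15742576))) (b (b (l 15818880) (l 15736272)) (l 15770144)))))))), by decide +kernel⟩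

theorem c_pm_203 : CertB 1073741824 536870912 0 1230186008 858993459 64424510 3 eng mog cd3q2 cd2q3 pd0 false true false .up 2 0 3
    ndB3q2 ndB2q3 pcB0 Cut.none Ext.none :=
  certB2 (fam := false) (s1 := true) (s2 := false) (a := 2) (b := 0) (c := 3) (cn := .up) (n1 := ndB3q2) (n2 := ndB2q3) (pc := pcB0) (cut := Cut.none) (xt := Ext.none) (P1 := 1073741824) (W1 := 536870912) (P2 := 0) (W2 := 1230186008) (P3 := 858993459) (W3 := 64424510) (N0 := 3) (En := eng) (mo := mog) (C1 := cd3q2) (C2 := cd2q3) (C3 := pd0)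
    rfl (fun _ => rfl) k0_pm_203

noncomputable def f_pm_213 : ℕ → ℕ → ℕ → ℕ → Bool := onCell 536870912 536870912 0 1230186008 858993459 64424510
    (rowB 3 eng mog cd3q2 cd2q3 pd1 2 false true false .pnn 2 1 3 (qsf 1073741824 536870912 0 1230186008 1) ndB3q2 ndB2q3 pcB1 Cut.none Ext.none)

def k0_pm_213 : ∃ t, chk3 f_pm_213 t 1 2 1 = true :=
  ⟨(a (a (b (a (b (l 3) (c (l 222430250551) (l 214377388807))) (c (b (l 15890832) (a (l 16018560) (l 16055224))) (b (l 16119992) (l 15946864)))) (a (b (c (a (l 16181104) (l 16029336)) (a (l 16019032) (l 16004352))) (c (a (l 16048216) (l 16089096)) (a (l 15862784) (l 15848904)))) (b (c (l 15882936) (l 15987728)) (c (b (l 16149096) (l 16158432)) (b (l 15896136) (l 15814896)))))) (b (a (c (b (l 16085808) (l 16119272)) (b (l 16109624) (l 16063440))) (c (b (l 16189720) (l 16222360)) (a (l 16100488) (l 16129960)))) (a (b (c (l 16101376) (l 16001168)) (c (b (l 16255920) (l 16261640)) (b (l 15950528) (l 15932160)))) (b (c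 (a (l 16270472) (l 16334912)) (l 15895056)) (c (l 16409552) (a (l 16078040) (l 16207384))))))) (a (b (a (a (b (l 16233888) (l 16240824)) (l 16295848)) (b (l 16394288) (l 16432816))) (b (a (c (l 16404712) (l 16195144)) (l 16598216)) (a (l 16532024) (l 16852240)))) (b (a (b (l 16579552) (l 16673272)) (l 16671816)) (a (b (l 16776328) (l 16648928)) (b (l 16502320) (l 1006129454535)))))), by decide +kernel⟩

def k1_pm_213 : ∃ t, chk3 f_pm_213 t 1 3 1 = true :=
  ⟨(b (a (b (a (b (a (c (l 16065520) (l 15697008)) (c (l 16158344) (l 15801888))) (a (c (l 16110112) (l 15783464)) (l 15829624))) (b (a (c (l 16266456) (l 15990560)) (c (l 16409448) (l 16207976))) (a (l 16166000) (l 16282680)))) (b (a (a (l 15900984) (l 16079768)) (a (l 16136760) (l 16221088))) (a (a (l 16026504) (l 16041688)) (a (l 16061688) (l 16151728))))) (b (a (b (a (l 16527056) (l 16906064)) (a (l 16506832) (l 16791328))) (b (a (l 651795078151) (l 1)) (l 1))) (a (b (a (l 16541648) (l 16671048))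 (a (l 16734680) (l 1))) (l 1)))) (a (b (a (a (c (l 15932888) (l 15946112)) (b (l 15959152) (l 15863424))) (a (b (l 15959248) (l 15902432)) (b (l 16172072) (l 1)))) (a (a (b (b (l 15789904) (l 15721392)) (l 15666392)) (b (l 15813616) (l 15794664))) (a (b (l 508986130775) (l 1)) (l 1)))) (l 1))), by decide +kernel⟩

theorem s2_pm_213 : ∃ t, chk3 f_pm_213 t 1 1 1 = true := ex3_b k0_pm_213 k1_pm_213

theorem c_pm_213 : CertB 1073741824 536870912 0 1230186008 858993459 64424510 3 eng mog cd3q2 cd2q3 pd1 false true false .pnn 2 1 3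
    ndB3q2 ndB2q3 pcB1 Cut.none Ext.none :=
  certB2 (fam := false) (s1 := true) (s2 := false) (a := 2) (b := 1) (c := 3) (cn := .pnn) (n1 := ndB3q2) (n2 := ndB2q3) (pc := pcB1) (cut := Cut.none) (xt := Ext.none) (P1 := 1073741824) (W1 := 536870912) (P2 := 0) (W2 := 1230186008) (P3 := 858993459) (W3 := 64424510) (N0 := 3) (En := eng) (mo := mog) (C1 := cd3q2) (C2 := cd2q3) (C3 := pd1)
    rfl (fun _ => rfl) s2_pm_213

noncomputable def f_pm_303 : ℕ → ℕ → ℕ → ℕ → Bool := onCell 0 1230186008 0 1230186008 858993459 64424510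
    (rowB 3 eng mog cd3q3 cd2q3 pd0 0 false true false .npn 3 0 3 (qsf 0 1230186008 0 1230186008 0) ndB3q3 ndB2q3 pcB0 Cut.none Ext.none)

def k0_pm_303 : ∃ t, chk3 f_pm_303 t 2 1 1 = true :=
  ⟨(b (l 3) (b (l 3) (l 1))), by decide +kernel⟩

def k1_pm_303 : ∃ t, chk3 f_pm_303 t 3 2 1 = true :=
  ⟨(a (l 3) (a (l 3) (b (l 3) (a (l 3) (b (l 3) (a (l 16518640) (l 16482824))))))), by decide +kernel⟩

def k2_pm_303 : ∃ t, chk3 f_pm_303 t 6 3 1 = true :=
  ⟨(b (l 3) (b (b (l 3) (l 1)) (l 1))), by decide +kernel⟩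

def k3_pm_303 : ∃ t, chk3 f_pm_303 t 7 6 1 = true :=
  ⟨(a (a (l 3) (b (l 3) (b (l 3) (b (a (l 3) (l 15862352)) (a (l 297592396679) (a (l 15754600) (l 15783008))))))) (b (b (a (l 3) (a (l 16365368) (l 16403856))) (a (a (l 3) (l 16215736)) (a (l 16259416) (l 16304616)))) (a (b (a (b (l 16072224) (l 15995448)) (b (l 16119704) (l 16048416))) (a (b (l 15914136) (l 15828248)) (b (l 15971392) (l 15892048)))) (b (a (l 16136200) (l 16190376)) (a (b (l 16029280) (a (l 15945984) (l 15991944))) (b (l 16104168) (l 16068136))))))), by decide +kernel⟩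

def k4_pm_303 : ∃ t, chk3 f_pm_303 t 7 7 1 = true :=
  ⟨(a (b (b (a (a (l 3) (b (l 3) (b (l 297055255319) (a (l 666824950247) (l 15414328))))) (a (b (a (l 15592272) (l 15619824)) (a (l 15538296) (l 15508800))) (b (b (l 15692584) (l 15723872)) (a (l 15545296) (l 15590296))))) (a (a (l 1) (a (l 1) (b (l 707627085335) (l 1)))) (b (a (l 15450504) (l 15482160)) (a (b (l 15357464) (l 1)) (l 15413344))))) (a (l 1) (b (b (a (l 1) (b (l 15372912) (l 1))) (l 1)) (l 1)))) (b (a (b (a (b (b (l 15763144) (l 15723392)) (l 15667792)) (b (l 15916216) (a (l 15753216) (l 15816168)))) (b (a (l 15573512) (l 15702560)) (a (l 15478512) (l 15585688)))) (b (a (b (l 15930648) (a (l 15876152) (l 15921488))) (b (l 16035856) (l 15999760))) (a (b (a (b (l 15836016) (l 15792216)) (l 15882296)) (a (l 15701288) (b (l 15824568) (l 15764192)))) (b (a (l 15934896) (l 15991456)) (a (b (l 15905464) (l 15859680)) (b (l 15963640) (l 15942072))))))) (a (b (b (b (a (l 15428432) (l 15507424))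 (l 15471376)) (a (l 15441448) (l 15506328))) (b (a (l 1) (l 15497144)) (l 1))) (b (b (a (l 15621128) (a (l 15760440) (b (l 15896752) (l 15833624)))) (a (l 15587024) (l 15715816))) (a (b (l 15580104) (l 15552864)) (b (l 15680016) (l 15655680))))))), by decide +kernel⟩

theorem s5_pm_303 : ∃ t, chk3 f_pm_303 t 7 3 1 = true := ex3_b k3_pm_303 k4_pm_303

theorem s6_pm_303 : ∃ t, chk3 f_pm_303 t 3 3 1 = true := ex3_a k2_pm_303 s5_pm_303

theorem s7_pm_303 : ∃ t, chk3 f_pm_303 t 3 1 1 = true := ex3_b k1_pm_303 s6_pm_303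

theorem s8_pm_303 : ∃ t, chk3 f_pm_303 t 1 1 1 = true := ex3_a k0_pm_303 s7_pm_303

theorem c_pm_303 : CertB 0 1230186008 0 1230186008 858993459 64424510 3 eng mog cd3q3 cd2q3 pd0 false true false .npn 3 0 3
    ndB3q3 ndB2q3 pcB0 Cut.none Ext.none :=
  certB0 (fam := false) (s1 := true) (s2 := false) (a := 3) (b := 0) (c := 3) (cn := .npn) (n1 := ndB3q3) (n2 := ndB2q3) (pc := pcB0) (cut := Cut.none) (xt := Ext.none) (P1 := 0) (W1 := 1230186008) (P2 := 0) (W2 := 1230186008) (P3 := 858993459) (W3 := 64424510) (N0 := 3) (En := eng) (mo := mog) (C1 := cd3q3) (C2 := cd2q3) (C3 := pd0)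
    rfl s8_pm_303

noncomputable def f_pm_313 : ℕ → ℕ → ℕ → ℕ → Bool := onCell 0 1230186008 0 1230186008 858993459 64424510
    (rowB 3 eng mog cd3q3 cd2q3 pd1 0 false true false .dn 3 1 3 (qsf 0 1230186008 0 1230186008 1) ndB3q3 ndB2q3 pcB1 Cut.none Ext.none)

def k0_pm_313 : ∃ t, chk3 f_pm_313 t 1 1 1 = true :=
  ⟨(a (l 1) (b (b (l 3) (l 1)) (l 1))), by decide +kernel⟩

theorem c_pm_313 : CertB 0 1230186008 0 1230186008 858993459 64424510 3 eng mog cd3q3 cd2q3 pd1 false true false .dn 3 1 3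
    ndB3q3 ndB2q3 pcB1 Cut.none Ext.none :=
  certB0 (fam := false) (s1 := true) (s2 := false) (a := 3) (b := 1) (c := 3) (cn := .dn) (n1 := ndB3q3) (n2 := ndB2q3) (pc := pcB1) (cut := Cut.none) (xt := Ext.none) (P1 := 0) (W1 := 1230186008) (P2 := 0) (W2 := 1230186008) (P3 := 858993459) (W3 := 64424510) (N0 := 3) (En := eng) (mo := mog) (C1 := cd3q3) (C2 := cd2q3) (C3 := pd1)
    rfl k0_pm_313

noncomputable def f_mm_001 : ℕ → ℕ → ℕ → ℕ → Bool := onCell 0 536870912 536870912 536870912 858993459 64424510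
    (rowB 3 eng mog cd3q0 cd2q1 pd0 0 false false false .up 0 0 1 (qsf 0 536870912 536870912 536870912 0) ndB3q0 ndB2q1 pcB0 Cut.none Ext.none)

def k0_mm_001 : ∃ t, chk3 f_mm_001 t 1 1 1 = true :=
  ⟨(l 3), by decide +kernel⟩

theorem c_mm_001 : CertB 0 536870912 536870912 536870912 858993459 64424510 3 eng mog cd3q0 cd2q1 pd0 false false false .up 0 0 1
    ndB3q0 ndB2q1 pcB0 Cut.none Ext.none :=
  certB0 (fam := false) (s1 := false) (s2 := false) (a := 0) (b := 0) (c := 1) (cn := .up) (n1 := ndB3q0) (n2 := ndB2q1) (pc := pcB0) (cut := Cut.none) (xt := Ext.none) (P1 := 0) (W1 := 536870912) (P2 := 536870912) (W2 := 536870912) (P3 := 858993459) (W3 := 64424510) (N0 := 3) (En := eng) (mo := mog) (C1 := cd3q0) (C2 := cd2q1) (C3 := pd0)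
    rfl k0_mm_001

noncomputable def f_mm_011 : ℕ → ℕ → ℕ → ℕ → Bool := onCell 0 536870912 536870912 536870912 858993459 64424510
    (rowB 3 eng mog cd3q0 cd2q1 pd1 0 false false false .pnn 0 1 1 (qsf 0 536870912 536870912 536870912 1) ndB3q0 ndB2q1 pcB1 Cut.none Ext.none)

def k0_mm_011 : ∃ t, chk3 f_mm_011 t 1 1 1 = true :=
  ⟨(l 3), by decide +kernel⟩

theorem c_mm_011 : CertB 0 536870912 536870912 536870912 858993459 64424510 3 eng mog cd3q0 cd2q1 pd1 false false false .pnn 0 1 1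
    ndB3q0 ndB2q1 pcB1 Cut.none Ext.none :=
  certB0 (fam := false) (s1 := false) (s2 := false) (a := 0) (b := 1) (c := 1) (cn := .pnn) (n1 := ndB3q0) (n2 := ndB2q1) (pc := pcB1) (cut := Cut.none) (xt := Ext.none) (P1 := 0) (W1 := 536870912) (P2 := 536870912) (W2 := 536870912) (P3 := 858993459) (W3 := 64424510) (N0 := 3) (En := eng) (mo := mog) (C1 := cd3q0) (C2 := cd2q1) (C3 := pd1)
    rfl k0_mm_011

noncomputable def f_mm_012 : ℕ → ℕ → ℕ → ℕ → Bool := onCell 0 536870912 1073741824 536870912 858993459 64424510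
    (rowB 3 eng mog cd3q0 cd2q2 pd1 0 false false false .pnp 0 1 2 (qsf 0 536870912 1073741824 536870912 1) ndB3q0 ndB2q2 pcB1 Cut.none Ext.none)

def k0_mm_012 : ∃ t, chk3 f_mm_012 t 1 1 1 = true :=
  ⟨(l 5), by decide +kernel⟩

theorem c_mm_012 : CertB 0 536870912 1073741824 536870912 858993459 64424510 3 eng mog cd3q0 cd2q2 pd1 false false false .pnp 0 1 2
    ndB3q0 ndB2q2 pcB1 Cut.none Ext.none :=
  certB0 (fam := false) (s1 := false) (s2 := false) (a := 0) (b := 1) (c := 2) (cn := .pnp) (n1 := ndB3q0) (n2 := ndB2q2) (pc := pcB1) (cut := Cut.none) (xt := Ext.none) (P1 := 0) (W1 := 536870912) (P2 := 1073741824) (W2 := 536870912) (P3 := 858993459) (W3 := 64424510) (N0 := 3) (En := eng) (mo := mog) (C1 := cd3q0) (C2 := cd2q2) (C3 := pd1)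
    rfl k0_mm_012

noncomputable def f_mm_022 : ℕ → ℕ → ℕ → ℕ → Bool := onCell 0 536870912 1073741824 536870912 858993459 64424510
    (rowB 3 eng mog cd3q0 cd2q2 pd2 0 false false false .pp 0 2 2 (qsf 0 536870912 1073741824 536870912 2) ndB3q0 ndB2q2 pcB2 Cut.none Ext.none)

def k0_mm_022 : ∃ t, chk3 f_mm_022 t 1 1 1 = true :=
  ⟨(l 5), by decide +kernel⟩

theorem c_mm_022 : CertB 0 536870912 1073741824 536870912 858993459 64424510 3 eng mog cd3q0 cd2q2 pd2 false false false .pp 0 2 2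
    ndB3q0 ndB2q2 pcB2 Cut.none Ext.none :=
  certB0 (fam := false) (s1 := false) (s2 := false) (a := 0) (b := 2) (c := 2) (cn := .pp) (n1 := ndB3q0) (n2 := ndB2q2) (pc := pcB2) (cut := Cut.none) (xt := Ext.none) (P1 := 0) (W1 := 536870912) (P2 := 1073741824) (W2 := 536870912) (P3 := 858993459) (W3 := 64424510) (N0 := 3) (En := eng) (mo := mog) (C1 := cd3q0) (C2 := cd2q2) (C3 := pd2)
    rfl k0_mm_022

noncomputable def f_mm_023 : ℕ → ℕ → ℕ → ℕ → Bool := onCell 0 536870912 0 1230186008 858993459 64424510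
    (rowB 3 eng mog cd3q0 cd2q3 pd2 0 false false false .up 0 2 3 (qsf 0 536870912 0 1230186008 2) ndB3q0 ndB2q3 pcB2 Cut.none Ext.none)

def k0_mm_023 : ∃ t, chk3 f_mm_023 t 1 1 1 = true :=
  ⟨(l 5), by decide +kernel⟩

theorem c_mm_023 : CertB 0 536870912 0 1230186008 858993459 64424510 3 eng mog cd3q0 cd2q3 pd2 false false false .up 0 2 3
    ndB3q0 ndB2q3 pcB2 Cut.none Ext.none :=
  certB0 (fam := false) (s1 := false) (s2 := false) (a := 0) (b := 2) (c := 3) (cn := .up) (n1 := ndB3q0) (n2 := ndB2q3) (pc := pcB2) (cut := Cut.none) (xt := Ext.none) (P1 := 0) (W1 := 536870912) (P2 := 0) (W2 := 1230186008) (P3 := 858993459) (W3 := 64424510) (N0 := 3) (En := eng) (mo := mog) (C1 := cd3q0) (C2 := cd2q3) (C3 := pd2)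
    rfl k0_mm_023

noncomputable def f_mm_033 : ℕ → ℕ → ℕ → ℕ → Bool := onCell 0 536870912 0 1230186008 858993459 64424510
    (rowB 3 eng mog cd3q0 cd2q3 pd3 0 false false false .pnn 0 3 3 (qsf 0 536870912 0 1230186008 3) ndB3q0 ndB2q3 pcB3 Cut.none Ext.none)

def k0_mm_033 : ∃ t, chk3 f_mm_033 t 1 1 1 = true :=
  ⟨(l 5), by decide +kernel⟩

theorem c_mm_033 : CertB 0 536870912 0 1230186008 858993459 64424510 3 eng mog cd3q0 cd2q3 pd3 false false false .pnn 0 3 3
    ndB3q0 ndB2q3 pcB3 Cut.none Ext.none :=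
  certB0 (fam := false) (s1 := false) (s2 := false) (a := 0) (b := 3) (c := 3) (cn := .pnn) (n1 := ndB3q0) (n2 := ndB2q3) (pc := pcB3) (cut := Cut.none) (xt := Ext.none) (P1 := 0) (W1 := 536870912) (P2 := 0) (W2 := 1230186008) (P3 := 858993459) (W3 := 64424510) (N0 := 3) (En := eng) (mo := mog) (C1 := cd3q0) (C2 := cd2q3) (C3 := pd3)
    rfl k0_mm_033

noncomputable def f_mm_101 : ℕ → ℕ → ℕ → ℕ → Bool := onCell 536870912 536870912 536870912 536870912 858993459 64424510
    (rowB 3 eng mog cd3q1 cd2q1 pd0 0 false false false .npn 1 0 1 (qsf 536870912 536870912 536870912 536870912 0) ndB3q1 ndB2q1 pcB0 Cut.none Ext.none)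

def k0_mm_101 : ∃ t, chk3 f_mm_101 t 1 1 1 = true :=
  ⟨(l 3), by decide +kernel⟩

theorem c_mm_101 : CertB 536870912 536870912 536870912 536870912 858993459 64424510 3 eng mog cd3q1 cd2q1 pd0 false false false .npn 1 0 1
    ndB3q1 ndB2q1 pcB0 Cut.none Ext.none :=
  certB0 (fam := false) (s1 := false) (s2 := false) (a := 1) (b := 0) (c := 1) (cn := .npn) (n1 := ndB3q1) (n2 := ndB2q1) (pc := pcB0) (cut := Cut.none) (xt := Ext.none) (P1 := 536870912) (W1 := 536870912) (P2 := 536870912) (W2 := 536870912) (P3 := 858993459) (W3 := 64424510) (N0 := 3) (En := eng) (mo := mog) (C1 := cd3q1) (C2 := cd2q1) (C3 := pd0)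
    rfl k0_mm_101

noncomputable def f_mm_102 : ℕ → ℕ → ℕ → ℕ → Bool := onCell 536870912 536870912 1073741824 536870912 858993459 64424510
    (rowB 3 eng mog cd3q1 cd2q2 pd0 0 false false false .npp 1 0 2 (qsf 536870912 536870912 1073741824 536870912 0) ndB3q1 ndB2q2 pcB0 Cut.none Ext.none)

def k0_mm_102 : ∃ t, chk3 f_mm_102 t 1 1 1 = true :=
  ⟨(l 5), by decide +kernel⟩

theorem c_mm_102 : CertB 536870912 536870912 1073741824 536870912 858993459 64424510 3 eng mog cd3q1 cd2q2 pd0 false false false .npp 1 0 2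
    ndB3q1 ndB2q2 pcB0 Cut.none Ext.none :=
  certB0 (fam := false) (s1 := false) (s2 := false) (a := 1) (b := 0) (c := 2) (cn := .npp) (n1 := ndB3q1) (n2 := ndB2q2) (pc := pcB0) (cut := Cut.none) (xt := Ext.none) (P1 := 536870912) (W1 := 536870912) (P2 := 1073741824) (W2 := 536870912) (P3 := 858993459) (W3 := 64424510) (N0 := 3) (En := eng) (mo := mog) (C1 := cd3q1) (C2 := cd2q2) (C3 := pd0)
    rfl k0_mm_102

noncomputable def f_mm_112 : ℕ → ℕ → ℕ → ℕ → Bool := onCell 536870912 536870912 1073741824 536870912 858993459 64424510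
    (rowB 3 eng mog cd3q1 cd2q2 pd1 0 false false false .dn 1 1 2 (qsf 536870912 536870912 1073741824 536870912 1) ndB3q1 ndB2q2 pcB1 Cut.none Ext.none)

def k0_mm_112 : ∃ t, chk3 f_mm_112 t 1 1 1 = true :=
  ⟨(l 5), by decide +kernel⟩

theorem c_mm_112 : CertB 536870912 536870912 1073741824 536870912 858993459 64424510 3 eng mog cd3q1 cd2q2 pd1 false false false .dn 1 1 2
    ndB3q1 ndB2q2 pcB1 Cut.none Ext.none :=
  certB0 (fam := false) (s1 := false) (s2 := false) (a := 1) (b := 1) (c := 2) (cn := .dn) (n1 := ndB3q1) (n2 := ndB2q2) (pc := pcB1) (cut := Cut.none) (xt := Ext.none) (P1 := 536870912) (W1 := 536870912) (P2 := 1073741824) (W2 := 536870912) (P3 := 858993459) (W3 := 64424510) (N0 := 3) (En := eng) (mo := mog) (C1 := cd3q1) (C2 := cd2q2) (C3 := pd1)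
    rfl k0_mm_112

noncomputable def f_mm_113 : ℕ → ℕ → ℕ → ℕ → Bool := onCell 536870912 536870912 0 1230186008 858993459 64424510
    (rowB 3 eng mog cd3q1 cd2q3 pd1 0 false false false .nn 1 1 3 (qsf 536870912 536870912 0 1230186008 1) ndB3q1 ndB2q3 pcB1 Cut.none Ext.none)

def k0_mm_113 : ∃ t, chk3 f_mm_113 t 1 1 1 = true :=
  ⟨(l 5), by decide +kernel⟩

theorem c_mm_113 : CertB 536870912 536870912 0 1230186008 858993459 64424510 3 eng mog cd3q1 cd2q3 pd1 false false false .nn 1 1 3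
    ndB3q1 ndB2q3 pcB1 Cut.none Ext.none :=
  certB0 (fam := false) (s1 := false) (s2 := false) (a := 1) (b := 1) (c := 3) (cn := .nn) (n1 := ndB3q1) (n2 := ndB2q3) (pc := pcB1) (cut := Cut.none) (xt := Ext.none) (P1 := 536870912) (W1 := 536870912) (P2 := 0) (W2 := 1230186008) (P3 := 858993459) (W3 := 64424510) (N0 := 3) (En := eng) (mo := mog) (C1 := cd3q1) (C2 := cd2q3) (C3 := pd1)
    rfl k0_mm_113

noncomputable def f_mm_123 : ℕ → ℕ → ℕ → ℕ → Bool := onCell 536870912 536870912 0 1230186008 858993459 64424510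
    (rowB 3 eng mog cd3q1 cd2q3 pd2 0 false false false .npn 1 2 3 (qsf 536870912 536870912 0 1230186008 2) ndB3q1 ndB2q3 pcB2 Cut.none Ext.none)

def k0_mm_123 : ∃ t, chk3 f_mm_123 t 1 1 1 = true :=
  ⟨(l 5), by decide +kernel⟩

theorem c_mm_123 : CertB 536870912 536870912 0 1230186008 858993459 64424510 3 eng mog cd3q1 cd2q3 pd2 false false false .npn 1 2 3
    ndB3q1 ndB2q3 pcB2 Cut.none Ext.none :=
  certB0 (fam := false) (s1 := false) (s2 := false) (a := 1) (b := 2) (c := 3) (cn := .npn) (n1 := ndB3q1) (n2 := ndB2q3) (pc := pcB2) (cut := Cut.none) (xt := Ext.none) (P1 := 536870912) (W1 := 536870912) (P2 := 0) (W2 := 1230186008) (P3 := 858993459) (W3 := 64424510) (N0 := 3) (En := eng) (mo := mog) (C1 := cd3q1) (C2 := cd2q3) (C3 := pd2)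
    rfl k0_mm_123

noncomputable def f_mm_133 : ℕ → ℕ → ℕ → ℕ → Bool := onCell 536870912 536870912 0 1230186008 858993459 64424510
    (rowB 3 eng mog cd3q1 cd2q3 pd3 0 false false false .dn 1 3 3 (qsf 536870912 536870912 0 1230186008 3) ndB3q1 ndB2q3 pcB3 Cut.none Ext.none)

def k0_mm_133 : ∃ t, chk3 f_mm_133 t 1 1 1 = true :=
  ⟨(l 5), by decide +kernel⟩

theorem c_mm_133 : CertB 536870912 536870912 0 1230186008 858993459 64424510 3 eng mog cd3q1 cd2q3 pd3 false false false .dn 1 3 3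
    ndB3q1 ndB2q3 pcB3 Cut.none Ext.none :=
  certB0 (fam := false) (s1 := false) (s2 := false) (a := 1) (b := 3) (c := 3) (cn := .dn) (n1 := ndB3q1) (n2 := ndB2q3) (pc := pcB3) (cut := Cut.none) (xt := Ext.none) (P1 := 536870912) (W1 := 536870912) (P2 := 0) (W2 := 1230186008) (P3 := 858993459) (W3 := 64424510) (N0 := 3) (En := eng) (mo := mog) (C1 := cd3q1) (C2 := cd2q3) (C3 := pd3)
    rfl k0_mm_133

noncomputable def f_mm_202 : ℕ → ℕ → ℕ → ℕ → Bool := onCell 1073741824 536870912 1073741824 536870912 858993459 64424510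
    (rowB 3 eng mog cd3q2 cd2q2 pd0 0 false false false .pp 2 0 2 (qsf 1073741824 536870912 1073741824 536870912 0) ndB3q2 ndB2q2 pcB0 Cut.none Ext.none)

def k0_mm_202 : ∃ t, chk3 f_mm_202 t 1 1 1 = true :=
  ⟨(l 3), by decide +kernel⟩

theorem c_mm_202 : CertB 1073741824 536870912 1073741824 536870912 858993459 64424510 3 eng mog cd3q2 cd2q2 pd0 false false false .pp 2 0 2
    ndB3q2 ndB2q2 pcB0 Cut.none Ext.none :=
  certB0 (fam := false) (s1 := false) (s2 := false) (a := 2) (b := 0) (c := 2) (cn := .pp) (n1 := ndB3q2) (n2 := ndB2q2) (pc := pcB0) (cut := Cut.none) (xt := Ext.none) (P1 := 1073741824) (W1 := 536870912) (P2 := 1073741824) (W2 := 536870912) (P3 := 858993459) (W3 := 64424510) (N0 := 3) (En := eng) (mo := mog) (C1 := cd3q2) (C2 := cd2q2) (C3 := pd0)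
    rfl k0_mm_202

noncomputable def f_mm_203 : ℕ → ℕ → ℕ → ℕ → Bool := onCell 1073741824 536870912 0 1230186008 858993459 64424510
    (rowB 3 eng mog cd3q2 cd2q3 pd0 0 false false false .up 2 0 3 (qsf 1073741824 536870912 0 1230186008 0) ndB3q2 ndB2q3 pcB0 Cut.none Ext.none)

def k0_mm_203 : ∃ t, chk3 f_mm_203 t 1 1 1 = true :=
  ⟨(l 5), by decide +kernel⟩

theorem c_mm_203 : CertB 1073741824 536870912 0 1230186008 858993459 64424510 3 eng mog cd3q2 cd2q3 pd0 false false false .up 2 0 3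
    ndB3q2 ndB2q3 pcB0 Cut.none Ext.none :=
  certB0 (fam := false) (s1 := false) (s2 := false) (a := 2) (b := 0) (c := 3) (cn := .up) (n1 := ndB3q2) (n2 := ndB2q3) (pc := pcB0) (cut := Cut.none) (xt := Ext.none) (P1 := 1073741824) (W1 := 536870912) (P2 := 0) (W2 := 1230186008) (P3 := 858993459) (W3 := 64424510) (N0 := 3) (En := eng) (mo := mog) (C1 := cd3q2) (C2 := cd2q3) (C3 := pd0)
    rfl k0_mm_203

noncomputable def f_mm_213 : ℕ → ℕ → ℕ → ℕ → Bool := onCell 1073741824 536870912 0 1230186008 858993459 64424510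
    (rowB 3 eng mog cd3q2 cd2q3 pd1 0 false false false .pnn 2 1 3 (qsf 1073741824 536870912 0 1230186008 1) ndB3q2 ndB2q3 pcB1 Cut.none Ext.none)

def k0_mm_213 : ∃ t, chk3 f_mm_213 t 1 1 1 = true :=
  ⟨(l 5), by decide +kernel⟩

theorem c_mm_213 : CertB 1073741824 536870912 0 1230186008 858993459 64424510 3 eng mog cd3q2 cd2q3 pd1 false false false .pnn 2 1 3
    ndB3q2 ndB2q3 pcB1 Cut.none Ext.none :=
  certB0 (fam := false) (s1 := false) (s2 := false) (a := 2) (b := 1) (c := 3) (cn := .pnn) (n1 := ndB3q2) (n2 := ndB2q3) (pc := pcB1) (cut := Cut.none) (xt := Ext.none) (P1 := 1073741824) (W1 := 536870912) (P2 := 0) (W2 := 1230186008) (P3 := 858993459) (W3 := 64424510) (N0 := 3) (En := eng) (mo := mog) (C1 := cd3q2) (C2 := cd2q3) (C3 := pd1)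
    rfl k0_mm_213

noncomputable def f_mm_303 : ℕ → ℕ → ℕ → ℕ → Bool := onCell 0 1230186008 0 1230186008 858993459 64424510
    (rowB 3 eng mog cd3q3 cd2q3 pd0 0 false false false .npn 3 0 3 (qsf 0 1230186008 0 1230186008 0) ndB3q3 ndB2q3 pcB0 Cut.none Ext.none)

def k0_mm_303 : ∃ t, chk3 f_mm_303 t 1 1 1 = true :=
  ⟨(a (b (l 3) (l 3)) (b (l 3) (l 3))), by decide +kernel⟩

theorem c_mm_303 : CertB 0 1230186008 0 1230186008 858993459 64424510 3 eng mog cd3q3 cd2q3 pd0 false false false .npn 3 0 3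
    ndB3q3 ndB2q3 pcB0 Cut.none Ext.none :=
  certB0 (fam := false) (s1 := false) (s2 := false) (a := 3) (b := 0) (c := 3) (cn := .npn) (n1 := ndB3q3) (n2 := ndB2q3) (pc := pcB0) (cut := Cut.none) (xt := Ext.none) (P1 := 0) (W1 := 1230186008) (P2 := 0) (W2 := 1230186008) (P3 := 858993459) (W3 := 64424510) (N0 := 3) (En := eng) (mo := mog) (C1 := cd3q3) (C2 := cd2q3) (C3 := pd0)
    rfl k0_mm_303

noncomputable def f_mm_313 : ℕ → ℕ → ℕ → ℕ → Bool := onCell 0 1230186008 0 1230186008 858993459 64424510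
    (rowB 3 eng mog cd3q3 cd2q3 pd1 0 false false false .dn 3 1 3 (qsf 0 1230186008 0 1230186008 1) ndB3q3 ndB2q3 pcB1 Cut.none Ext.none)

def k0_mm_313 : ∃ t, chk3 f_mm_313 t 1 1 1 = true :=
  ⟨(a (l 1) (b (l 3) (l 1))), by decide +kernel⟩

theorem c_mm_313 : CertB 0 1230186008 0 1230186008 858993459 64424510 3 eng mog cd3q3 cd2q3 pd1 false false false .dn 3 1 3
    ndB3q3 ndB2q3 pcB1 Cut.none Ext.none :=
  certB0 (fam := false) (s1 := false) (s2 := false) (a := 3) (b := 1) (c := 3) (cn := .dn) (n1 := ndB3q3) (n2 := ndB2q3) (pc := pcB1) (cut := Cut.none) (xt := Ext.none) (P1 := 0) (W1 := 1230186008) (P2 := 0) (W2 := 1230186008) (P3 := 858993459) (W3 := 64424510) (N0 := 3) (En := eng) (mo := mog) (C1 := cd3q3) (C2 := cd2q3) (C3 := pd1)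
    rfl k0_mm_313

end Pool.Agent.Strip051.G.I8000_8600.Tab.C.BB32

namespace Pool.Agent.Strip051.G.I8000_8600.Tab.C.BB33

open Pool.Agent.Strip051.PB Pool.Agent.Strip051.PB.T
open Pool.Agent.Strip051.G.I8000_8600.Tab

noncomputable def f_pp_001 : ℕ → ℕ → ℕ → ℕ → Bool := onCell 0 536870912 536870912 536870912 858993459 64424510
    (rowB 3 eng mog cd3q0 cd3q1 pd0 0 false true true .up 0 0 1 (qsf 0 536870912 536870912 536870912 0) ndB3q0 ndB3q1 pcB0 Cut.none Ext.none)

def k0_pp_001 : ∃ t, chk3 f_pp_001 t 1 1 1 = true :=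
  ⟨(l 3), by decide +kernel⟩

theorem c_pp_001 : CertB 0 536870912 536870912 536870912 858993459 64424510 3 eng mog cd3q0 cd3q1 pd0 false true true .up 0 0 1
    ndB3q0 ndB3q1 pcB0 Cut.none Ext.none :=
  certB0 (fam := false) (s1 := true) (s2 := true) (a := 0) (b := 0) (c := 1) (cn := .up) (n1 := ndB3q0) (n2 := ndB3q1) (pc := pcB0) (cut := Cut.none) (xt := Ext.none) (P1 := 0) (W1 := 536870912) (P2 := 536870912) (W2 := 536870912) (P3 := 858993459) (W3 := 64424510) (N0 := 3) (En := eng) (mo := mog) (C1 := cd3q0) (C2 := cd3q1) (C3 := pd0)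
    rfl k0_pp_001

noncomputable def f_pp_011 : ℕ → ℕ → ℕ → ℕ → Bool := onCell 0 536870912 536870912 536870912 858993459 64424510
    (rowB 3 eng mog cd3q0 cd3q1 pd1 0 false true true .pnn 0 1 1 (qsf 0 536870912 536870912 536870912 1) ndB3q0 ndB3q1 pcB1 Cut.none Ext.none)

def k0_pp_011 : ∃ t, chk3 f_pp_011 t 1 1 1 = true :=
  ⟨(l 3), by decide +kernel⟩

theorem c_pp_011 : CertB 0 536870912 536870912 536870912 858993459 64424510 3 eng mog cd3q0 cd3q1 pd1 false true true .pnn 0 1 1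
    ndB3q0 ndB3q1 pcB1 Cut.none Ext.none :=
  certB0 (fam := false) (s1 := true) (s2 := true) (a := 0) (b := 1) (c := 1) (cn := .pnn) (n1 := ndB3q0) (n2 := ndB3q1) (pc := pcB1) (cut := Cut.none) (xt := Ext.none) (P1 := 0) (W1 := 536870912) (P2 := 536870912) (W2 := 536870912) (P3 := 858993459) (W3 := 64424510) (N0 := 3) (En := eng) (mo := mog) (C1 := cd3q0) (C2 := cd3q1) (C3 := pd1)
    rfl k0_pp_011

noncomputable def f_pp_012 : ℕ → ℕ → ℕ → ℕ → Bool := onCell 0 536870912 536870912 536870912 858993459 64424510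
    (rowB 3 eng mog cd3q0 cd3q2 pd1 1 false true true .pnp 0 1 2 (qsf 0 536870912 1073741824 536870912 1) ndB3q0 ndB3q2 pcB1 Cut.none Ext.none)

def k0_pp_012 : ∃ t, chk3 f_pp_012 t 1 1 1 = true :=
  ⟨(b (l 3) (b (a (l 3) (a (l 3) (a (l 3) (b (l 3) (b (l 3) (a (l 15359936) (l 15359776))))))) (a (b (l 3) (a (l 3) (a (b (l 3) (b (l 3) (a (c (l 292760703879) (l 15581888)) (c (l 15567208) (l 15472648))))) (b (c (a (l 3) (l 15533840)) (l 298665906327)) (c (a (b (l 15538256) (l 15486624)) (l 15444576)) (a (l 15411832) (l 15332440))))))) (b (b (a (a (l 3) (c (l 15450896) (l 15358216))) (a (c (l 15389640) (l 15290944)) (c (l 15383608) (l 15278784)))) (a (a (c (l 277191121191) (l 15657744)) (c (l 15405960) (l 15297768))) (a (c (l 15365728) (l 15246376)) (l 15442192)))) (a (c (a (b (l 107539884727) (l 15436712)) (b (l 15365088) (l 15332800))) (a (b (l 15370976) (l 15242168)) (b (l 15238104) (l 15170400)))) (a (c (b (l 15352592) (l 15352568)) (l 15368128)) (c (l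 15412184) (l 15209152)))))))), by decide +kernel⟩

theorem c_pp_012 : CertB 0 536870912 1073741824 536870912 858993459 64424510 3 eng mog cd3q0 cd3q2 pd1 false true true .pnp 0 1 2
    ndB3q0 ndB3q2 pcB1 Cut.none Ext.none :=
  certB1 (fam := false) (s1 := true) (s2 := true) (a := 0) (b := 1) (c := 2) (cn := .pnp) (n1 := ndB3q0) (n2 := ndB3q2) (pc := pcB1) (cut := Cut.none) (xt := Ext.none) (P1 := 0) (W1 := 536870912) (P2 := 1073741824) (W2 := 536870912) (P3 := 858993459) (W3 := 64424510) (N0 := 3) (En := eng) (mo := mog) (C1 := cd3q0) (C2 := cd3q2) (C3 := pd1)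
    rfl (fun _ => rfl) k0_pp_012

noncomputable def f_pp_022 : ℕ → ℕ → ℕ → ℕ → Bool := onCell 0 536870912 1073741824 536870912 858993459 64424510
    (rowB 3 eng mog cd3q0 cd3q2 pd2 1 false true true .pp 0 2 2 (qsf 0 536870912 1073741824 536870912 2) ndB3q0 ndB3q2 pcB2 Cut.none Ext.none)

def k0_pp_022 : ∃ t, chk3 f_pp_022 t 2 8 1 = true :=
  ⟨(a (a (b (l 3) (b (a (l 3) (c (c (a (l 157469781319) (l 15991176)) (l 191292678519)) (c (l 249811594343) (l 304035566871)))) (a (a (b (l 3) (c (l 182166082151) (l 16157392))) (c (b (l 161764902567) (l 16128464)) (b (l 276655282247) (l 16086208)))) (c (b (a (l 16044048) (l 15973040)) (a (l 16036856) (l 15968552))) (b (a (l 16020128) (l 15949352)) (a (l 16020400) (l 15956576))))))) (a (b (b (l 3) (c (c (l 176796900599) (l 221894002631)) (l 290613550119))) (b (c (c (l 188071177527) (l 15867400)) (c (l 15850288) (l 15835464))) (a (b (c (l 15905560) (l 15885160)) (l 15893896)) (a (l 15843800) (l 15810720))))) (b (b (c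 (l 219209565239) (l 311551217335)) (c (c (l 15765008) (l 15735608)) (l 285781437671))) (b (c (a (l 15777584) (l 15714888)) (l 15812944)) (c (l 15741816) (l 15724752)))))) (b (a (c (a (b (l 257327149095) (c (l 15643312) (l 15610400))) (b (l 15517344) (l 15516520))) (a (b (l 15552000) (l 15566392)) (l 15438992))) (c (a (l 15418632) (l 15336496)) (l 15408232))) (a (c (a (l 15689024) (l 15522440)) (a (l 15595728) (l 15486368))) (c (l 15394112) (l 15346576))))), by decide +kernel⟩

def k1_pp_022 : ∃ t, chk3 f_pp_022 t 2 9 1 = true :=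
  ⟨(a (b (a (b (a (c (b (a (l 257328001415) (l 16101520)) (a (l 16166624) (l 16098944))) (b (a (l 16156376) (l 16090792)) (a (l 16160448) (l 16097072)))) (a (c (b (l 16033232) (l 16030712)) (l 16028536)) (c (l 15963248) (l 15962176)))) (a (a (c (b (l 16163136) (l 16157984)) (l 16165424)) (c (l 16091488) (l 16099160))) (c (l 15989608) (l 16000264)))) (c (a (b (l 15864344) (l 15861888)) (l 15743936)) (a (l 15869232) (l 15750184)))) (a (b (c (a (c (l 16107216) (l 16114176)) (l 15979064)) (a (l 16298424) (l 16004448))) (a (c (l 16094832) (l 16123024)) (c (l 15971496) (l 16004504)))) (c (a (l 16025584) (l 15751184)) (a (l 15890496) (l 15785936))))) (b (a (c (a (l 15637016) (l 15542976)) (l 15592240)) (c (l 15427176) (l 15422272))) (a (c (l 15675720) (l 15647944)) (c (l 15470256) (l 15501232))))), by decide +kernel⟩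

def k2_pp_022 : ∃ t, chk3 f_pp_022 t 3 4 1 = true :=
  ⟨(a (b (a (b (c (l 15242568) (l 15122056)) (c (l 15275912) (l 15208296))) (c (b (l 15186712) (l 15238376)) (b (l 15036000) (l 15147392)))) (a (b (c (l 15325984) (l 15306624)) (l 15642824)) (c (l 15332768) (l 15312264)))) (a (b (c (l 15256216) (l 15110704)) (c (l 15365512) (l 15320632))) (b (c (l 15360768) (l 15186968)) (l 15409680)))), by decide +kernel⟩

def k3_pp_022 : ∃ t, chk3 f_pp_022 t 1 5 1 = true :=
  ⟨(b (a (b (a (c (a (b (a (l 16080568) (l 15965776)) (b (l 16097688) (a (l 16057536) (l 15954368)))) (b (l 15811624) (b (l 15815848) (l 15816776)))) (a (b (l 16056456) (b (l 16051768) (l 16048400))) (b (l 15850536) (l 15858328)))) (a (b (l 15867504) (c (l 15830672) (l 15701880))) (b (l 15529744) (c (l 15551128) (l 15582784))))) (a (a (a (l 16065072) (l 15951056)) (c (l 15819576) (l 15883008))) (a (l 15838800) (l 15777144)))) (a (a (c (l 15487496) (l 15521344)) (c (l 15460296) (l 15480512))) (a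 (l 15479192) (l 2)))) (a (a (a (c (a (l 15999992) (l 15927608)) (l 16066520)) (c (l 15834048) (l 15943488))) (a (c (l 15896792) (l 15839704)) (c (l 15637288) (l 15741584)))) (a (c (a (l 15566408) (l 15542104)) (l 15633816)) (l 2)))), by decide +kernel⟩

def k4_pp_022 : ∃ t, chk3 f_pp_022 t 1 3 1 = true :=
  ⟨(a (b (a (b (a (c (l 15937032) (l 16090416)) (c (l 15851232) (l 16017160))) (a (c (l 15743824) (l 16107848)) (c (l 15841616) (l 16048792)))) (a (b (c (l 15761472) (l 15927312)) (c (l 15729368) (l 15930872))) (b (c (l 15661632) (l 15817328)) (l 15543272)))) (a (a (b (c (l 15863560) (l 16085888)) (c (l 15746968) (l 15975944))) (b (c (l 15759184) (l 15986200)) (c (l 15644144) (l 15872064)))) (b (a (c (l 15659936) (l 15877648)) (l 2)) (l 2)))) (b (a (b (a (l 15666152) (l 2)) (l 2)) (l 2)) (l 2))), by decide +kernel⟩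

theorem s5_pp_022 : ∃ t, chk3 f_pp_022 t 2 4 1 = true := ex3_b k0_pp_022 k1_pp_022

theorem s6_pp_022 : ∃ t, chk3 f_pp_022 t 1 4 1 = true := ex3_a s5_pp_022 k2_pp_022

theorem s7_pp_022 : ∃ t, chk3 f_pp_022 t 1 2 1 = true := ex3_b s6_pp_022 k3_pp_022

theorem s8_pp_022 : ∃ t, chk3 f_pp_022 t 1 1 1 = true := ex3_b s7_pp_022 k4_pp_022

theorem c_pp_022 : CertB 0 536870912 1073741824 536870912 858993459 64424510 3 eng mog cd3q0 cd3q2 pd2 false true true .pp 0 2 2
    ndB3q0 ndB3q2 pcB2 Cut.none Ext.none :=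
  certB1 (fam := false) (s1 := true) (s2 := true) (a := 0) (b := 2) (c := 2) (cn := .pp) (n1 := ndB3q0) (n2 := ndB3q2) (pc := pcB2) (cut := Cut.none) (xt := Ext.none) (P1 := 0) (W1 := 536870912) (P2 := 1073741824) (W2 := 536870912) (P3 := 858993459) (W3 := 64424510) (N0 := 3) (En := eng) (mo := mog) (C1 := cd3q0) (C2 := cd3q2) (C3 := pd2)
    rfl (fun _ => rfl) s8_pp_022

noncomputable def f_pp_023 : ℕ → ℕ → ℕ → ℕ → Bool := onCell 1073741824 536870912 0 1230186008 858993459 64424510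
    (rowB 3 eng mog cd3q0 cd3q3 pd2 2 false true true .up 0 2 3 (qsf 0 536870912 0 1230186008 2) ndB3q0 ndB3q3 pcB2 Cut.none Ext.none)

def k0_pp_023 : ∃ t, chk3 f_pp_023 t 1 1 1 = true :=
  ⟨(a (b (l 2) (b (a (l 2) (b (l 2) (l 293767454871))) (b (a (l 2) (a (b (l 15984336) (l 15970784)) (b (l 16021600) (l 16028016)))) (a (b (a (l 2) (l 15880968)) (a (l 15723160) (l 15888784))) (b (l 16041608) (a (l 16048584) (l 16190664))))))) (b (a (l 2) (b (l 4) (a (l 16672104) (l 16714880)))) (b (a (b (l 265851345431) (a (l 16145504) (l 16222624))) (b (a (l 16459600) (l 16556240)) (a (l 16302768) (l 16374480)))) (a (b (b (l 16104032) (l 16099552)) (b (l 16196584) (a (l 16300360) (l 16360128)))) (b (b (l 16210160) (l 16149528)) (b (a (l 16218064) (l 16177328)) (a (l 16348728) (l 16171264)))))))), by decide +kernel⟩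

theorem c_pp_023 : CertB 0 536870912 0 1230186008 858993459 64424510 3 eng mog cd3q0 cd3q3 pd2 false true true .up 0 2 3
    ndB3q0 ndB3q3 pcB2 Cut.none Ext.none :=
  certB2 (fam := false) (s1 := true) (s2 := true) (a := 0) (b := 2) (c := 3) (cn := .up) (n1 := ndB3q0) (n2 := ndB3q3) (pc := pcB2) (cut := Cut.none) (xt := Ext.none) (P1 := 0) (W1 := 536870912) (P2 := 0) (W2 := 1230186008) (P3 := 858993459) (W3 := 64424510) (N0 := 3) (En := eng) (mo := mog) (C1 := cd3q0) (C2 := cd3q3) (C3 := pd2)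
    rfl (fun _ => rfl) k0_pp_023

noncomputable def f_pp_033 : ℕ → ℕ → ℕ → ℕ → Bool := onCell 1610612736 536870912 0 1230186008 858993459 64424510
    (rowB 3 eng mog cd3q0 cd3q3 pd3 2 false true true .pnn 0 3 3 (qsf 0 536870912 0 1230186008 3) ndB3q0 ndB3q3 pcB3 Cut.none Ext.none)

def k0_pp_033 : ∃ t, chk3 f_pp_033 t 1 1 1 = true :=
  ⟨(b (a (a (b (l 4) (l 4)) (l 4)) (l 4)) (b (a (a (a (b (l 16680000) (l 16665976)) (b (l 16672320) (l 16509128))) (a (b (l 16561664) (l 16326416)) (b (l 4) (l 16255584)))) (b (a (l 4) (a (l 4) (l 1))) (a (b (l 4) (a (l 15839800) (l 1))) (l 1)))) (a (b (a (a (b (l 16526872) (l 16341968)) (b (l 16312728) (l 16107200))) (a (b (l 16082688) (l 15863160)) (b (l 15846904) (l 1)))) (a (b (a (l 16095824) (b (l 15914672) (l 15780328))) (a (l 336113342743) (c (l 15690312) (l 640517619127)))) (b (a (b (l 15674808) (l 1)) (l 1)) (l 1)))) (l 1)))), by decide +kernel⟩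

theorem c_pp_033 : CertB 0 536870912 0 1230186008 858993459 64424510 3 eng mog cd3q0 cd3q3 pd3 false true true .pnn 0 3 3
    ndB3q0 ndB3q3 pcB3 Cut.none Ext.none :=
  certB2 (fam := false) (s1 := true) (s2 := true) (a := 0) (b := 3) (c := 3) (cn := .pnn) (n1 := ndB3q0) (n2 := ndB3q3) (pc := pcB3) (cut := Cut.none) (xt := Ext.none) (P1 := 0) (W1 := 536870912) (P2 := 0) (W2 := 1230186008) (P3 := 858993459) (W3 := 64424510) (N0 := 3) (En := eng) (mo := mog) (C1 := cd3q0) (C2 := cd3q3) (C3 := pd3)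
    rfl (fun _ => rfl) k0_pp_033

noncomputable def f_pp_101 : ℕ → ℕ → ℕ → ℕ → Bool := onCell 536870912 536870912 536870912 536870912 858993459 64424510
    (rowB 3 eng mog cd3q1 cd3q1 pd0 0 false true true .npn 1 0 1 (qsf 536870912 536870912 536870912 536870912 0) ndB3q1 ndB3q1 pcB0 Cut.none Ext.none)

def k0_pp_101 : ∃ t, chk3 f_pp_101 t 1 1 1 = true :=
  ⟨(l 3), by decide +kernel⟩

theorem c_pp_101 : CertB 536870912 536870912 536870912 536870912 858993459 64424510 3 eng mog cd3q1 cd3q1 pd0 false true true .npn 1 0 1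
    ndB3q1 ndB3q1 pcB0 Cut.none Ext.none :=
  certB0 (fam := false) (s1 := true) (s2 := true) (a := 1) (b := 0) (c := 1) (cn := .npn) (n1 := ndB3q1) (n2 := ndB3q1) (pc := pcB0) (cut := Cut.none) (xt := Ext.none) (P1 := 536870912) (W1 := 536870912) (P2 := 536870912) (W2 := 536870912) (P3 := 858993459) (W3 := 64424510) (N0 := 3) (En := eng) (mo := mog) (C1 := cd3q1) (C2 := cd3q1) (C3 := pd0)
    rfl k0_pp_101

noncomputable def f_pp_102 : ℕ → ℕ → ℕ → ℕ → Bool := onCell 536870912 536870912 0 536870912 858993459 64424510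
    (rowB 3 eng mog cd3q1 cd3q2 pd0 1 false true true .npp 1 0 2 (qsf 536870912 536870912 1073741824 536870912 0) ndB3q1 ndB3q2 pcB0 Cut.none Ext.none)

def k0_pp_102 : ∃ t, chk3 f_pp_102 t 1 1 1 = true :=
  ⟨(l 3), by decide +kernel⟩

theorem c_pp_102 : CertB 536870912 536870912 1073741824 536870912 858993459 64424510 3 eng mog cd3q1 cd3q2 pd0 false true true .npp 1 0 2
    ndB3q1 ndB3q2 pcB0 Cut.none Ext.none :=
  certB1 (fam := false) (s1 := true) (s2 := true) (a := 1) (b := 0) (c := 2) (cn := .npp) (n1 := ndB3q1) (n2 := ndB3q2) (pc := pcB0) (cut := Cut.none) (xt := Ext.none) (P1 := 536870912) (W1 := 536870912) (P2 := 1073741824) (W2 := 536870912) (P3 := 858993459) (W3 := 64424510) (N0 := 3) (En := eng) (mo := mog) (C1 := cd3q1) (C2 := cd3q2) (C3 := pd0)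
    rfl (fun _ => rfl) k0_pp_102

noncomputable def f_pp_112 : ℕ → ℕ → ℕ → ℕ → Bool := onCell 536870912 536870912 1073741824 536870912 858993459 64424510
    (rowB 3 eng mog cd3q1 cd3q2 pd1 2 false true true .dn 1 1 2 (qsf 536870912 536870912 1073741824 536870912 1) ndB3q1 ndB3q2 pcB1 Cut.none Ext.none)

def k0_pp_112 : ∃ t, chk3 f_pp_112 t 1 1 1 = true :=
  ⟨(a (a (l 3) (b (l 3) (a (l 3) (a (l 3) (b (l 3) (a (l 3) (b (l 3) (l 15223408)))))))) (a (b (l 3) (a (b (l 3) (c (b (l 15308528) (l 15237928)) (b (l 15573064) (a (l 15254008) (l 15283456))))) (b (b (l 3) (c (l 15399992) (l 15440544))) (c (b (l 15358848) (l 15323928)) (b (l 15385272) (l 15327328)))))) (b (l 1) (a (a (b (c (l 351144913591) (l 15640864)) (b (l 15386016) (l 15370512))) (b (l 1) (b (l 15381920) (l 15388568)))) (b (l 1) (c (l 173977529527) (l 178272266247))))))), by decide +kernel⟩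

theorem c_pp_112 : CertB 536870912 536870912 1073741824 536870912 858993459 64424510 3 eng mog cd3q1 cd3q2 pd1 false true true .dn 1 1 2
    ndB3q1 ndB3q2 pcB1 Cut.none Ext.none :=
  certB2 (fam := false) (s1 := true) (s2 := true) (a := 1) (b := 1) (c := 2) (cn := .dn) (n1 := ndB3q1) (n2 := ndB3q2) (pc := pcB1) (cut := Cut.none) (xt := Ext.none) (P1 := 536870912) (W1 := 536870912) (P2 := 1073741824) (W2 := 536870912) (P3 := 858993459) (W3 := 64424510) (N0 := 3) (En := eng) (mo := mog) (C1 := cd3q1) (C2 := cd3q2) (C3 := pd1)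
    rfl (fun _ => rfl) k0_pp_112

noncomputable def f_pp_113 : ℕ → ℕ → ℕ → ℕ → Bool := onCell 536870912 536870912 0 1230186008 858993459 64424510
    (rowB 3 eng mog cd3q1 cd3q3 pd1 2 false true true .nn 1 1 3 (qsf 536870912 536870912 0 1230186008 1) ndB3q1 ndB3q3 pcB1 Cut.none Ext.none)

def k0_pp_113 : ∃ t, chk3 f_pp_113 t 1 1 1 = true :=
  ⟨(a (b (l 2) (a (b (l 2) (b (l 2) (l 3))) (b (a (l 2) (a (l 2) (b (l 2) (b (l 2) (l 14790416))))) (b (a (a (b (l 2) (b (l 2) (c (a (l 569180299047) (l 14825848)) (a (l 14577024) (l 14598648))))) (c (b (l 592802610791) (a (l 14854816) (l 14926016))) (b (l 572400897975) (c (l 14699744) (l 14595048))))) (c (b (a (l 14920456) (l 15094480)) (a (l 15036528) (l 15184824))) (b (a (l 14588416) (l 14737528)) (a (l 14776336) (l 14909024))))) (a (b (b (a (c (a (l 14858064) (l 14923944)) (l 385637394263)) (c (l 15022360) (l 14801456))) (a (l 3) (c (l 15122536) (l 14910640)))) (l 3)) (b (c (a (l 15196104) (l 15315224)) (a (l 14974992)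 (l 15090112))) (a (c (l 15387552) (b (l 15128360) (l 15236760))) (c (l 15481376) (l 15280128))))))))) (b (a (l 2) (b (l 16453152) (a (l 16191792) (l 16487232)))) (a (b (b (a (l 2) (l 15758720)) (a (c (b (l 15440088) (l 15378464)) (b (l 14768840) (l 14862864))) (c (l 15933776) (l 15332952)))) (b (a (c (b (l 15366616) (l 15402728)) (b (l 14979512) (l 15110704))) (c (l 15687232) (l 15350376))) (a (b (c (l 15483128) (l 15255296)) (c (l 15604336) (a (l 15370496) (l 15452200)))) (b (c (l 15674584) (l 15450920)) (c (l 15733664) (l 15552392)))))) (b (b (a (l 16111360) (l 16441832)) (a (b (l 16128392) (l 16045832)) (l 16490848))) (b (a (b (l 15846656) (l 15737672)) (b (l 16039456) (l 15850832))) (a (b (l 15700056) (a (l 15710104) (l 15733688))) (b (l 15752904) (l 15737320)))))))), by decide +kernel⟩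

theorem c_pp_113 : CertB 536870912 536870912 0 1230186008 858993459 64424510 3 eng mog cd3q1 cd3q3 pd1 false true true .nn 1 1 3
    ndB3q1 ndB3q3 pcB1 Cut.none Ext.none :=
  certB2 (fam := false) (s1 := true) (s2 := true) (a := 1) (b := 1) (c := 3) (cn := .nn) (n1 := ndB3q1) (n2 := ndB3q3) (pc := pcB1) (cut := Cut.none) (xt := Ext.none) (P1 := 536870912) (W1 := 536870912) (P2 := 0) (W2 := 1230186008) (P3 := 858993459) (W3 := 64424510) (N0 := 3) (En := eng) (mo := mog) (C1 := cd3q1) (C2 := cd3q3) (C3 := pd1)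
    rfl (fun _ => rfl) k0_pp_113

noncomputable def f_pp_123 : ℕ → ℕ → ℕ → ℕ → Bool := onCell 1073741824 536870912 0 1230186008 858993459 64424510
    (rowB 3 eng mog cd3q1 cd3q3 pd2 2 false true true .npn 1 2 3 (qsf 536870912 536870912 0 1230186008 2) ndB3q1 ndB3q3 pcB2 Cut.none Ext.none)

def k0_pp_123 : ∃ t, chk3 f_pp_123 t 1 1 1 = true :=
  ⟨(a (b (a (b (a (l 16715408) (l 16743088)) (a (l 16610608) (l 16730728))) (b (a (l 16742224) (l 16730120)) (a (l 16610848) (l 16556632)))) (b (a (b (a (l 16539064) (l 16390896)) (a (l 16356560) (l 16078176))) (b (l 16244344) (l 16068472))) (a (b (a (l 15910456) (l 15915976)) (a (b (l 15759552) (l 15740344)) (b (l 15891928) (l 15921744)))) (b (a (l 15970752) (l 15833896)) (a (l 181494424247) (l 1)))))) (b (b (l 4) (a (a (l 16572640) (l 16615016)) (a (l 16668720) (l 16725192)))) (b (a (b (l 16320008) (l 16166160)) (b (l 16492384) (l 1))) (l 1)))), by decide +kernel⟩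

theorem c_pp_123 : CertB 536870912 536870912 0 1230186008 858993459 64424510 3 eng mog cd3q1 cd3q3 pd2 false true true .npn 1 2 3
    ndB3q1 ndB3q3 pcB2 Cut.none Ext.none :=
  certB2 (fam := false) (s1 := true) (s2 := true) (a := 1) (b := 2) (c := 3) (cn := .npn) (n1 := ndB3q1) (n2 := ndB3q3) (pc := pcB2) (cut := Cut.none) (xt := Ext.none) (P1 := 536870912) (W1 := 536870912) (P2 := 0) (W2 := 1230186008) (P3 := 858993459) (W3 := 64424510) (N0 := 3) (En := eng) (mo := mog) (C1 := cd3q1) (C2 := cd3q3) (C3 := pd2)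
    rfl (fun _ => rfl) k0_pp_123

noncomputable def f_pp_133 : ℕ → ℕ → ℕ → ℕ → Bool := onCell 1610612736 536870912 0 1230186008 858993459 64424510
    (rowB 3 eng mog cd3q1 cd3q3 pd3 2 false true true .dn 1 3 3 (qsf 536870912 536870912 0 1230186008 3) ndB3q1 ndB3q3 pcB3 Cut.none Ext.none)

def k0_pp_133 : ∃ t, chk3 f_pp_133 t 1 1 1 = true :=
  ⟨(b (b (l 4) (l 1)) (l 1)), by decide +kernel⟩

theorem c_pp_133 : CertB 536870912 536870912 0 1230186008 858993459 64424510 3 eng mog cd3q1 cd3q3 pd3 false true true .dn 1 3 3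
    ndB3q1 ndB3q3 pcB3 Cut.none Ext.none :=
  certB2 (fam := false) (s1 := true) (s2 := true) (a := 1) (b := 3) (c := 3) (cn := .dn) (n1 := ndB3q1) (n2 := ndB3q3) (pc := pcB3) (cut := Cut.none) (xt := Ext.none) (P1 := 536870912) (W1 := 536870912) (P2 := 0) (W2 := 1230186008) (P3 := 858993459) (W3 := 64424510) (N0 := 3) (En := eng) (mo := mog) (C1 := cd3q1) (C2 := cd3q3) (C3 := pd3)
    rfl (fun _ => rfl) k0_pp_133

noncomputable def f_pp_202 : ℕ → ℕ → ℕ → ℕ → Bool := onCell 1073741824 536870912 1073741824 536870912 858993459 64424510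
    (rowB 3 eng mog cd3q2 cd3q2 pd0 0 false true true .pp 2 0 2 (qsf 1073741824 536870912 1073741824 536870912 0) ndB3q2 ndB3q2 pcB0 Cut.none Ext.none)

def k0_pp_202 : ∃ t, chk3 f_pp_202 t 1 1 1 = true :=
  ⟨(l 3), by decide +kernel⟩

theorem c_pp_202 : CertB 1073741824 536870912 1073741824 536870912 858993459 64424510 3 eng mog cd3q2 cd3q2 pd0 false true true .pp 2 0 2
    ndB3q2 ndB3q2 pcB0 Cut.none Ext.none :=
  certB0 (fam := false) (s1 := true) (s2 := true) (a := 2) (b := 0) (c := 2) (cn := .pp) (n1 := ndB3q2) (n2 := ndB3q2) (pc := pcB0) (cut := Cut.none) (xt := Ext.none) (P1 := 1073741824) (W1 := 536870912) (P2 := 1073741824) (W2 := 536870912) (P3 := 858993459) (W3 := 64424510) (N0 := 3) (En := eng) (mo := mog) (C1 := cd3q2) (C2 := cd3q2) (C3 := pd0)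
    rfl k0_pp_202

noncomputable def f_pp_203 : ℕ → ℕ → ℕ → ℕ → Bool := onCell 0 536870912 0 1230186008 858993459 64424510
    (rowB 3 eng mog cd3q2 cd3q3 pd0 2 false true true .up 2 0 3 (qsf 1073741824 536870912 0 1230186008 0) ndB3q2 ndB3q3 pcB0 Cut.none Ext.none)

def k0_pp_203 : ∃ t, chk3 f_pp_203 t 1 1 1 = true :=
  ⟨(b (a (l 2) (l 3)) (l 3)), by decide +kernel⟩

theorem c_pp_203 : CertB 1073741824 536870912 0 1230186008 858993459 64424510 3 eng mog cd3q2 cd3q3 pd0 false true true .up 2 0 3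
    ndB3q2 ndB3q3 pcB0 Cut.none Ext.none :=
  certB2 (fam := false) (s1 := true) (s2 := true) (a := 2) (b := 0) (c := 3) (cn := .up) (n1 := ndB3q2) (n2 := ndB3q3) (pc := pcB0) (cut := Cut.none) (xt := Ext.none) (P1 := 1073741824) (W1 := 536870912) (P2 := 0) (W2 := 1230186008) (P3 := 858993459) (W3 := 64424510) (N0 := 3) (En := eng) (mo := mog) (C1 := cd3q2) (C2 := cd3q3) (C3 := pd0)
    rfl (fun _ => rfl) k0_pp_203

noncomputable def f_pp_213 : ℕ → ℕ → ℕ → ℕ → Bool := onCell 536870912 536870912 0 1230186008 858993459 64424510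
    (rowB 3 eng mog cd3q2 cd3q3 pd1 2 false true true .pnn 2 1 3 (qsf 1073741824 536870912 0 1230186008 1) ndB3q2 ndB3q3 pcB1 Cut.none Ext.none)

def k0_pp_213 : ∃ t, chk3 f_pp_213 t 1 1 1 = true :=
  ⟨(a (b (a (a (l 3) (b (b (a (l 3) (l 290613023271)) (l 3)) (l 3))) (b (b (a (c (a (l 16096328) (l 16071728)) (a (l 16148112) (l 16151616))) (a (c (l 16126024) (l 16159472)) (l 16183016))) (a (a (l 3) (l 376512426375)) (c (a (l 384565978679) (l 16140952)) (a (l 16194104) (l 16216176))))) (a (l 3) (b (c (a (l 3) (l 436105517239)) (l 439326539543)) (l 3))))) (l 3)) (b (a (b (a (c (b (l 16286160) (a (l 16212704) (l 16288096))) (b (l 16239152) (l 16059136))) (b (a (l 16358264) (l 16430936)) (a (l 16357480) (l 16433712)))) (a (b (a (c (l 435568747671) (l 438789966759)) (c (b (l 16262544) (l 16247536)) (l 16187568))) (l 3)) (b (a (c (l 16345800) (l 16373056)) (c (l 16440608) (l 16445952))) (a (b (c (l 423220848743) (l 16384864)) (l 3)) (b (c (l 16441808) (l 16464328))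 (c (l 442548399671) (l 489793144775))))))) (a (a (b (l 16558704) (a (b (l 16512208) (b (l 16528352) (c (l 16539184) (l 16545744)))) (b (l 16561880) (b (l 16582176) (l 1003444606855))))) (b (l 16613280) (b (l 16639136) (a (l 1056058002599) (l 1038341444759))))) (a (b (l 16723488) (b (l 16744728) (l 896608493735))) (b (l 16783360) (b (l 16821712) (l 1)))))) (b (a (l 3) (a (b (a (a (b (c (l 468855366967) (l 535964504935)) (l 1)) (l 1)) (l 1)) (l 1)) (l 1))) (l 1)))), by decide +kernel⟩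

theorem c_pp_213 : CertB 1073741824 536870912 0 1230186008 858993459 64424510 3 eng mog cd3q2 cd3q3 pd1 false true true .pnn 2 1 3
    ndB3q2 ndB3q3 pcB1 Cut.none Ext.none :=
  certB2 (fam := false) (s1 := true) (s2 := true) (a := 2) (b := 1) (c := 3) (cn := .pnn) (n1 := ndB3q2) (n2 := ndB3q3) (pc := pcB1) (cut := Cut.none) (xt := Ext.none) (P1 := 1073741824) (W1 := 536870912) (P2 := 0) (W2 := 1230186008) (P3 := 858993459) (W3 := 64424510) (N0 := 3) (En := eng) (mo := mog) (C1 := cd3q2) (C2 := cd3q3) (C3 := pd1)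
    rfl (fun _ => rfl) k0_pp_213

noncomputable def f_pp_303 : ℕ → ℕ → ℕ → ℕ → Bool := onCell 0 1230186008 0 1230186008 858993459 64424510
    (rowB 3 eng mog cd3q3 cd3q3 pd0 0 false true true .npn 3 0 3 (qsf 0 1230186008 0 1230186008 0) ndB3q3 ndB3q3 pcB0 Cut.none Ext.none)

def k0_pp_303 : ∃ t, chk3 f_pp_303 t 1 1 1 = true :=
  ⟨(a (b (l 3) (l 3)) (b (l 3) (l 3))), by decide +kernel⟩

theorem c_pp_303 : CertB 0 1230186008 0 1230186008 858993459 64424510 3 eng mog cd3q3 cd3q3 pd0 false true true .npn 3 0 3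
    ndB3q3 ndB3q3 pcB0 Cut.none Ext.none :=
  certB0 (fam := false) (s1 := true) (s2 := true) (a := 3) (b := 0) (c := 3) (cn := .npn) (n1 := ndB3q3) (n2 := ndB3q3) (pc := pcB0) (cut := Cut.none) (xt := Ext.none) (P1 := 0) (W1 := 1230186008) (P2 := 0) (W2 := 1230186008) (P3 := 858993459) (W3 := 64424510) (N0 := 3) (En := eng) (mo := mog) (C1 := cd3q3) (C2 := cd3q3) (C3 := pd0)
    rfl k0_pp_303

noncomputable def f_pp_313 : ℕ → ℕ → ℕ → ℕ → Bool := onCell 0 1230186008 0 1230186008 858993459 64424510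
    (rowB 3 eng mog cd3q3 cd3q3 pd1 0 false true true .dn 3 1 3 (qsf 0 1230186008 0 1230186008 1) ndB3q3 ndB3q3 pcB1 Cut.none Ext.none)

def k0_pp_313 : ∃ t, chk3 f_pp_313 t 1 1 1 = true :=
  ⟨(a (l 1) (b (l 3) (l 1))), by decide +kernel⟩

theorem c_pp_313 : CertB 0 1230186008 0 1230186008 858993459 64424510 3 eng mog cd3q3 cd3q3 pd1 false true true .dn 3 1 3
    ndB3q3 ndB3q3 pcB1 Cut.none Ext.none :=
  certB0 (fam := false) (s1 := true) (s2 := true) (a := 3) (b := 1) (c := 3) (cn := .dn) (n1 := ndB3q3) (n2 := ndB3q3) (pc := pcB1) (cut := Cut.none) (xt := Ext.none) (P1 := 0) (W1 := 1230186008) (P2 := 0) (W2 := 1230186008) (P3 := 858993459) (W3 := 64424510) (N0 := 3) (En := eng) (mo := mog) (C1 := cd3q3) (C2 := cd3q3) (C3 := pd1)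
    rfl k0_pp_313

noncomputable def f_pm_001 : ℕ → ℕ → ℕ → ℕ → Bool := onCell 0 536870912 536870912 536870912 858993459 64424510
    (rowB 3 eng mog cd3q0 cd3q1 pd0 0 false true false .up 0 0 1 (qsf 0 536870912 536870912 536870912 0) ndB3q0 ndB3q1 pcB0 Cut.none Ext.none)

def k0_pm_001 : ∃ t, chk3 f_pm_001 t 1 1 1 = true :=
  ⟨(l 4), by decide +kernel⟩

theorem c_pm_001 : CertB 0 536870912 536870912 536870912 858993459 64424510 3 eng mog cd3q0 cd3q1 pd0 false true false .up 0 0 1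
    ndB3q0 ndB3q1 pcB0 Cut.none Ext.none :=
  certB0 (fam := false) (s1 := true) (s2 := false) (a := 0) (b := 0) (c := 1) (cn := .up) (n1 := ndB3q0) (n2 := ndB3q1) (pc := pcB0) (cut := Cut.none) (xt := Ext.none) (P1 := 0) (W1 := 536870912) (P2 := 536870912) (W2 := 536870912) (P3 := 858993459) (W3 := 64424510) (N0 := 3) (En := eng) (mo := mog) (C1 := cd3q0) (C2 := cd3q1) (C3 := pd0)
    rfl k0_pm_001

noncomputable def f_pm_011 : ℕ → ℕ → ℕ → ℕ → Bool := onCell 0 536870912 536870912 536870912 858993459 64424510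
    (rowB 3 eng mog cd3q0 cd3q1 pd1 0 false true false .pnn 0 1 1 (qsf 0 536870912 536870912 536870912 1) ndB3q0 ndB3q1 pcB1 Cut.none Ext.none)

def k0_pm_011 : ∃ t, chk3 f_pm_011 t 1 1 1 = true :=
  ⟨(l 4), by decide +kernel⟩

theorem c_pm_011 : CertB 0 536870912 536870912 536870912 858993459 64424510 3 eng mog cd3q0 cd3q1 pd1 false true false .pnn 0 1 1
    ndB3q0 ndB3q1 pcB1 Cut.none Ext.none :=
  certB0 (fam := false) (s1 := true) (s2 := false) (a := 0) (b := 1) (c := 1) (cn := .pnn) (n1 := ndB3q0) (n2 := ndB3q1) (pc := pcB1) (cut := Cut.none) (xt := Ext.none) (P1 := 0) (W1 := 536870912) (P2 := 536870912) (W2 := 536870912) (P3 := 858993459) (W3 := 64424510) (N0 := 3) (En := eng) (mo := mog) (C1 := cd3q0) (C2 := cd3q1) (C3 := pd1)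
    rfl k0_pm_011

noncomputable def f_pm_012 : ℕ → ℕ → ℕ → ℕ → Bool := onCell 0 536870912 1073741824 536870912 858993459 64424510
    (rowB 3 eng mog cd3q0 cd3q2 pd1 0 false true false .pnp 0 1 2 (qsf 0 536870912 1073741824 536870912 1) ndB3q0 ndB3q2 pcB1 Cut.none Ext.none)

def k0_pm_012 : ∃ t, chk3 f_pm_012 t 1 1 1 = true :=
  ⟨(l 4), by decide +kernel⟩

theorem c_pm_012 : CertB 0 536870912 1073741824 536870912 858993459 64424510 3 eng mog cd3q0 cd3q2 pd1 false true false .pnp 0 1 2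
    ndB3q0 ndB3q2 pcB1 Cut.none Ext.none :=
  certB0 (fam := false) (s1 := true) (s2 := false) (a := 0) (b := 1) (c := 2) (cn := .pnp) (n1 := ndB3q0) (n2 := ndB3q2) (pc := pcB1) (cut := Cut.none) (xt := Ext.none) (P1 := 0) (W1 := 536870912) (P2 := 1073741824) (W2 := 536870912) (P3 := 858993459) (W3 := 64424510) (N0 := 3) (En := eng) (mo := mog) (C1 := cd3q0) (C2 := cd3q2) (C3 := pd1)
    rfl k0_pm_012

noncomputable def f_pm_022 : ℕ → ℕ → ℕ → ℕ → Bool := onCell 0 536870912 1073741824 536870912 858993459 64424510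
    (rowB 3 eng mog cd3q0 cd3q2 pd2 0 false true false .pp 0 2 2 (qsf 0 536870912 1073741824 536870912 2) ndB3q0 ndB3q2 pcB2 Cut.none Ext.none)

def k0_pm_022 : ∃ t, chk3 f_pm_022 t 1 1 1 = true :=
  ⟨(l 4), by decide +kernel⟩

theorem c_pm_022 : CertB 0 536870912 1073741824 536870912 858993459 64424510 3 eng mog cd3q0 cd3q2 pd2 false true false .pp 0 2 2
    ndB3q0 ndB3q2 pcB2 Cut.none Ext.none :=
  certB0 (fam := false) (s1 := true) (s2 := false) (a := 0) (b := 2) (c := 2) (cn := .pp) (n1 := ndB3q0) (n2 := ndB3q2) (pc := pcB2) (cut := Cut.none) (xt := Ext.none) (P1 := 0) (W1 := 536870912) (P2 := 1073741824) (W2 := 536870912) (P3 := 858993459) (W3 := 64424510) (N0 := 3) (En := eng) (mo := mog) (C1 := cd3q0) (C2 := cd3q2) (C3 := pd2)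
    rfl k0_pm_022

noncomputable def f_pm_023 : ℕ → ℕ → ℕ → ℕ → Bool := onCell 0 536870912 0 1230186008 858993459 64424510
    (rowB 3 eng mog cd3q0 cd3q3 pd2 0 false true false .up 0 2 3 (qsf 0 536870912 0 1230186008 2) ndB3q0 ndB3q3 pcB2 Cut.none Ext.none)

def k0_pm_023 : ∃ t, chk3 f_pm_023 t 1 1 1 = true :=
  ⟨(b (l 4) (l 4)), by decide +kernel⟩

theorem c_pm_023 : CertB 0 536870912 0 1230186008 858993459 64424510 3 eng mog cd3q0 cd3q3 pd2 false true false .up 0 2 3
    ndB3q0 ndB3q3 pcB2 Cut.none Ext.none :=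
  certB0 (fam := false) (s1 := true) (s2 := false) (a := 0) (b := 2) (c := 3) (cn := .up) (n1 := ndB3q0) (n2 := ndB3q3) (pc := pcB2) (cut := Cut.none) (xt := Ext.none) (P1 := 0) (W1 := 536870912) (P2 := 0) (W2 := 1230186008) (P3 := 858993459) (W3 := 64424510) (N0 := 3) (En := eng) (mo := mog) (C1 := cd3q0) (C2 := cd3q3) (C3 := pd2)
    rfl k0_pm_023

noncomputable def f_pm_033 : ℕ → ℕ → ℕ → ℕ → Bool := onCell 0 536870912 0 1230186008 858993459 64424510
    (rowB 3 eng mog cd3q0 cd3q3 pd3 0 false true false .pnn 0 3 3 (qsf 0 536870912 0 1230186008 3) ndB3q0 ndB3q3 pcB3 Cut.none Ext.none)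

def k0_pm_033 : ∃ t, chk3 f_pm_033 t 1 1 1 = true :=
  ⟨(b (l 4) (l 4)), by decide +kernel⟩

theorem c_pm_033 : CertB 0 536870912 0 1230186008 858993459 64424510 3 eng mog cd3q0 cd3q3 pd3 false true false .pnn 0 3 3
    ndB3q0 ndB3q3 pcB3 Cut.none Ext.none :=
  certB0 (fam := false) (s1 := true) (s2 := false) (a := 0) (b := 3) (c := 3) (cn := .pnn) (n1 := ndB3q0) (n2 := ndB3q3) (pc := pcB3) (cut := Cut.none) (xt := Ext.none) (P1 := 0) (W1 := 536870912) (P2 := 0) (W2 := 1230186008) (P3 := 858993459) (W3 := 64424510) (N0 := 3) (En := eng) (mo := mog) (C1 := cd3q0) (C2 := cd3q3) (C3 := pd3)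
    rfl k0_pm_033

noncomputable def f_pm_101 : ℕ → ℕ → ℕ → ℕ → Bool := onCell 536870912 536870912 536870912 536870912 858993459 64424510
    (rowB 3 eng mog cd3q1 cd3q1 pd0 0 false true false .npn 1 0 1 (qsf 536870912 536870912 536870912 536870912 0) ndB3q1 ndB3q1 pcB0 Cut.none Ext.none)

def k0_pm_101 : ∃ t, chk3 f_pm_101 t 1 1 1 = true :=
  ⟨(l 4), by decide +kernel⟩

theorem c_pm_101 : CertB 536870912 536870912 536870912 536870912 858993459 64424510 3 eng mog cd3q1 cd3q1 pd0 false true false .npn 1 0 1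
    ndB3q1 ndB3q1 pcB0 Cut.none Ext.none :=
  certB0 (fam := false) (s1 := true) (s2 := false) (a := 1) (b := 0) (c := 1) (cn := .npn) (n1 := ndB3q1) (n2 := ndB3q1) (pc := pcB0) (cut := Cut.none) (xt := Ext.none) (P1 := 536870912) (W1 := 536870912) (P2 := 536870912) (W2 := 536870912) (P3 := 858993459) (W3 := 64424510) (N0 := 3) (En := eng) (mo := mog) (C1 := cd3q1) (C2 := cd3q1) (C3 := pd0)
    rfl k0_pm_101

noncomputable def f_pm_102 : ℕ → ℕ → ℕ → ℕ → Bool := onCell 536870912 536870912 1073741824 536870912 858993459 64424510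
    (rowB 3 eng mog cd3q1 cd3q2 pd0 0 false true false .npp 1 0 2 (qsf 536870912 536870912 1073741824 536870912 0) ndB3q1 ndB3q2 pcB0 Cut.none Ext.none)

def k0_pm_102 : ∃ t, chk3 f_pm_102 t 1 1 1 = true :=
  ⟨(l 4), by decide +kernel⟩

theorem c_pm_102 : CertB 536870912 536870912 1073741824 536870912 858993459 64424510 3 eng mog cd3q1 cd3q2 pd0 false true false .npp 1 0 2
    ndB3q1 ndB3q2 pcB0 Cut.none Ext.none :=
  certB0 (fam := false) (s1 := true) (s2 := false) (a := 1) (b := 0) (c := 2) (cn := .npp) (n1 := ndB3q1) (n2 := ndB3q2) (pc := pcB0) (cut := Cut.none) (xt := Ext.none) (P1 := 536870912) (W1 := 536870912) (P2 := 1073741824) (W2 := 536870912) (P3 := 858993459) (W3 := 64424510) (N0 := 3) (En := eng) (mo := mog) (C1 := cd3q1) (C2 := cd3q2) (C3 := pd0)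
    rfl k0_pm_102

noncomputable def f_pm_112 : ℕ → ℕ → ℕ → ℕ → Bool := onCell 536870912 536870912 1073741824 536870912 858993459 64424510
    (rowB 3 eng mog cd3q1 cd3q2 pd1 0 false true false .dn 1 1 2 (qsf 536870912 536870912 1073741824 536870912 1) ndB3q1 ndB3q2 pcB1 Cut.none Ext.none)

def k0_pm_112 : ∃ t, chk3 f_pm_112 t 1 1 1 = true :=
  ⟨(l 4), by decide +kernel⟩

theorem c_pm_112 : CertB 536870912 536870912 1073741824 536870912 858993459 64424510 3 eng mog cd3q1 cd3q2 pd1 false true false .dn 1 1 2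
    ndB3q1 ndB3q2 pcB1 Cut.none Ext.none :=
  certB0 (fam := false) (s1 := true) (s2 := false) (a := 1) (b := 1) (c := 2) (cn := .dn) (n1 := ndB3q1) (n2 := ndB3q2) (pc := pcB1) (cut := Cut.none) (xt := Ext.none) (P1 := 536870912) (W1 := 536870912) (P2 := 1073741824) (W2 := 536870912) (P3 := 858993459) (W3 := 64424510) (N0 := 3) (En := eng) (mo := mog) (C1 := cd3q1) (C2 := cd3q2) (C3 := pd1)
    rfl k0_pm_112

noncomputable def f_pm_113 : ℕ → ℕ → ℕ → ℕ → Bool := onCell 536870912 536870912 0 1230186008 858993459 64424510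
    (rowB 3 eng mog cd3q1 cd3q3 pd1 0 false true false .nn 1 1 3 (qsf 536870912 536870912 0 1230186008 1) ndB3q1 ndB3q3 pcB1 Cut.none Ext.none)

def k0_pm_113 : ∃ t, chk3 f_pm_113 t 1 1 1 = true :=
  ⟨(b (a (l 2) (a (l 2) (b (l 16690624) (l 4)))) (l 4)), by decide +kernel⟩

theorem c_pm_113 : CertB 536870912 536870912 0 1230186008 858993459 64424510 3 eng mog cd3q1 cd3q3 pd1 false true false .nn 1 1 3
    ndB3q1 ndB3q3 pcB1 Cut.none Ext.none :=
  certB0 (fam := false) (s1 := true) (s2 := false) (a := 1) (b := 1) (c := 3) (cn := .nn) (n1 := ndB3q1) (n2 := ndB3q3) (pc := pcB1) (cut := Cut.none) (xt := Ext.none) (P1 := 536870912) (W1 := 536870912) (P2 := 0) (W2 := 1230186008) (P3 := 858993459) (W3 := 64424510) (N0 := 3) (En := eng) (mo := mog) (C1 := cd3q1) (C2 := cd3q3) (C3 := pd1)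
    rfl k0_pm_113

noncomputable def f_pm_123 : ℕ → ℕ → ℕ → ℕ → Bool := onCell 536870912 536870912 0 1230186008 858993459 64424510
    (rowB 3 eng mog cd3q1 cd3q3 pd2 0 false true false .npn 1 2 3 (qsf 536870912 536870912 0 1230186008 2) ndB3q1 ndB3q3 pcB2 Cut.none Ext.none)

def k0_pm_123 : ∃ t, chk3 f_pm_123 t 1 1 1 = true :=
  ⟨(b (a (l 4) (b (a (l 4) (a (l 4) (l 16771360))) (l 4))) (l 4)), by decide +kernel⟩

theorem c_pm_123 : CertB 536870912 536870912 0 1230186008 858993459 64424510 3 eng mog cd3q1 cd3q3 pd2 false true false .npn 1 2 3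
    ndB3q1 ndB3q3 pcB2 Cut.none Ext.none :=
  certB0 (fam := false) (s1 := true) (s2 := false) (a := 1) (b := 2) (c := 3) (cn := .npn) (n1 := ndB3q1) (n2 := ndB3q3) (pc := pcB2) (cut := Cut.none) (xt := Ext.none) (P1 := 536870912) (W1 := 536870912) (P2 := 0) (W2 := 1230186008) (P3 := 858993459) (W3 := 64424510) (N0 := 3) (En := eng) (mo := mog) (C1 := cd3q1) (C2 := cd3q3) (C3 := pd2)
    rfl k0_pm_123

noncomputable def f_pm_133 : ℕ → ℕ → ℕ → ℕ → Bool := onCell 1610612736 536870912 0 1230186008 858993459 64424510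
    (rowB 3 eng mog cd3q1 cd3q3 pd3 2 false true false .dn 1 3 3 (qsf 536870912 536870912 0 1230186008 3) ndB3q1 ndB3q3 pcB3 Cut.none Ext.none)

def k0_pm_133 : ∃ t, chk3 f_pm_133 t 1 1 1 = true :=
  ⟨(b (l 4) (l 1)), by decide +kernel⟩

theorem c_pm_133 : CertB 536870912 536870912 0 1230186008 858993459 64424510 3 eng mog cd3q1 cd3q3 pd3 false true false .dn 1 3 3
    ndB3q1 ndB3q3 pcB3 Cut.none Ext.none :=
  certB2 (fam := false) (s1 := true) (s2 := false) (a := 1) (b := 3) (c := 3) (cn := .dn) (n1 := ndB3q1) (n2 := ndB3q3) (pc := pcB3) (cut := Cut.none) (xt := Ext.none) (P1 := 536870912) (W1 := 536870912) (P2 := 0) (W2 := 1230186008) (P3 := 858993459) (W3 := 64424510) (N0 := 3) (En := eng) (mo := mog) (C1 := cd3q1) (C2 := cd3q3) (C3 := pd3)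
    rfl (fun _ => rfl) k0_pm_133

noncomputable def f_pm_202 : ℕ → ℕ → ℕ → ℕ → Bool := onCell 0 536870912 1073741824 536870912 858993459 64424510
    (rowB 3 eng mog cd3q2 cd3q2 pd0 2 false true false .pp 2 0 2 (qsf 1073741824 536870912 1073741824 536870912 0) ndB3q2 ndB3q2 pcB0 Cut.none Ext.none)

def k0_pm_202 : ∃ t, chk3 f_pm_202 t 1 1 1 = true :=
  ⟨(b (l 4) (a (a (b (b (l 4) (a (a (l 15182144) (l 15153120)) (l 4))) (a (b (l 15307424) (l 15441648)) (b (l 83446292855) (l 15381888)))) (b (l 4) (a (b (l 92036116663) (l 15318960)) (b (l 4) (l 15262552))))) (a (b (l 4) (b (l 4) (a (l 89888699895) (l 4)))) (l 4)))), by decide +kernel⟩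

theorem c_pm_202 : CertB 1073741824 536870912 1073741824 536870912 858993459 64424510 3 eng mog cd3q2 cd3q2 pd0 false true false .pp 2 0 2
    ndB3q2 ndB3q2 pcB0 Cut.none Ext.none :=
  certB2 (fam := false) (s1 := true) (s2 := false) (a := 2) (b := 0) (c := 2) (cn := .pp) (n1 := ndB3q2) (n2 := ndB3q2) (pc := pcB0) (cut := Cut.none) (xt := Ext.none) (P1 := 1073741824) (W1 := 536870912) (P2 := 1073741824) (W2 := 536870912) (P3 := 858993459) (W3 := 64424510) (N0 := 3) (En := eng) (mo := mog) (C1 := cd3q2) (C2 := cd3q2) (C3 := pd0)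
    rfl (fun _ => rfl) k0_pm_202

noncomputable def f_pm_203 : ℕ → ℕ → ℕ → ℕ → Bool := onCell 0 536870912 0 1230186008 858993459 64424510
    (rowB 3 eng mog cd3q2 cd3q3 pd0 2 false true false .up 2 0 3 (qsf 1073741824 536870912 0 1230186008 0) ndB3q2 ndB3q3 pcB0 Cut.none Ext.none)

def k0_pm_203 : ∃ t, chk3 f_pm_203 t 1 1 1 = true :=
  ⟨(a (b (l 2) (b (b (l 2) (a (l 2) (a (l 2) (b (l 2) (a (l 2) (l 15911240)))))) (b (a (l 2) (a (b (a (l 2) (l 15945480)) (a (l 16045392) (l 16076608))) (b (a (l 15989248) (l 16038224)) (a (l 16095128) (l 16103992))))) (a (b (a (l 2) (a (l 16068768) (l 16091560))) (l 94051301223)) (a (b (l 16101944) (l 16087464)) (c (l 16056320) (l 16059880))))))) (b (a (l 2) (b (a (l 2) (b (l 3) (l 224040939511))) (b (a (b (l 2) (l 15919688)) (a (l 15941592) (l 15931704))) (a (b (l 15842680) (l 352822400551)) (b (l 15858160) (l 15899944)))))) (b (a (b (a (l 2) (b (l 858017796295) (l 15913840))) (b (a (l 15905152) (l 16069712)) (a (l 16044520)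 (l 16146352)))) (b (a (c (l 15912624) (l 16083064)) (c (l 16046144) (l 16221880))) (a (b (l 16170432) (l 16177264)) (b (l 16212312) (l 16156424))))) (b (a (a (b (l 16102024) (l 16098128)) (b (l 16126232) (l 16061064))) (a (b (l 16100784) (l 16004728)) (b (l 16050296) (l 15939424)))) (b (a (a (l 16037200) (l 15975912)) (a (l 15906984) (l 15832688))) (a (a (l 15962568) (l 15890736)) (a (l 15791464) (a (l 15747256) (l 4))))))))), by decide +kernel⟩

theorem c_pm_203 : CertB 1073741824 536870912 0 1230186008 858993459 64424510 3 eng mog cd3q2 cd3q3 pd0 false true false .up 2 0 3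
    ndB3q2 ndB3q3 pcB0 Cut.none Ext.none :=
  certB2 (fam := false) (s1 := true) (s2 := false) (a := 2) (b := 0) (c := 3) (cn := .up) (n1 := ndB3q2) (n2 := ndB3q3) (pc := pcB0) (cut := Cut.none) (xt := Ext.none) (P1 := 1073741824) (W1 := 536870912) (P2 := 0) (W2 := 1230186008) (P3 := 858993459) (W3 := 64424510) (N0 := 3) (En := eng) (mo := mog) (C1 := cd3q2) (C2 := cd3q3) (C3 := pd0)
    rfl (fun _ => rfl) k0_pm_203

noncomputable def f_pm_213 : ℕ → ℕ → ℕ → ℕ → Bool := onCell 536870912 536870912 0 1230186008 858993459 64424510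
    (rowB 3 eng mog cd3q2 cd3q3 pd1 2 false true false .pnn 2 1 3 (qsf 1073741824 536870912 0 1230186008 1) ndB3q2 ndB3q3 pcB1 Cut.none Ext.none)

def k0_pm_213 : ∃ t, chk3 f_pm_213 t 1 1 1 = true :=
  ⟨(a (a (b (b (a (b (a (l 3) (l 258937600919)) (c (b (l 188070566695) (l 16028816)) (a (l 16051744) (l 16031512)))) (b (c (a (l 16017400) (l 16045192)) (l 130088632071)) (c (l 15907512) (l 16003872)))) (a (b (a (c (l 16101320) (l 15902112)) (c (l 16028656) (l 15887160))) (b (c (l 16176984) (l 15845296)) (l 15925144))) (b (c (b (l 16155536) (l 16193688)) (b (l 15906232) (l 15884448))) (c (l 16277480) (l 16015576))))) (b (b (a (a (l 15965576) (l 16058712)) (l 16253144)) (b (l 16179112) (c (l 16104552) (l 16077880)))) (b (a (b (l 16000544) (l 15881464)) (b (l 15953608) (l 15825480))) (b (a (l 15755040) (l 15749864)) (l 4))))) (b (b (a (b (c (l 15873840) (l 16088264)) (c (l 16127824) (l 16001360))) (b (a (l 16119536) (l 16182760)) (c (l 16014344) (l 15905528))))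 (b (a (c (b (l 16226848) (l 16277248)) (b (l 15957440) (l 16023304))) (c (l 16360792) (l 16169032))) (a (c (l 16400712) (l 16220352)) (l 16497320)))) (b (b (a (l 16312744) (l 16375752)) (a (a (l 16120576) (l 16189720)) (c (l 16344760) (l 16088800)))) (b (a (b (l 15950536) (l 15912552)) (l 365104680679)) (l 4))))) (b (a (b (a (b (c (l 16318408) (l 16201600)) (c (l 16378992) (l 16079672))) (b (l 16408280) (l 16501864))) (b (a (l 16467504) (l 16731496)) (a (l 16651936) (l 16665368)))) (b (a (b (l 16608256) (l 16762232)) (b (l 16676760) (l 16543272))) (a (b (l 16629408) (l 726419707095)) (b (l 16393176) (a (l 16299144) (l 1)))))) (b (a (b (a (l 16576600) (b (l 16459208) (l 16351056))) (a (b (l 16454888) (l 16392312)) (a (b (l 16301120) (l 1)) (l 1)))) (b (a (b (l 578242108311) (l 1)) (l 1)) (l 1))) (l 1)))), by decide +kernel⟩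

theorem c_pm_213 : CertB 1073741824 536870912 0 1230186008 858993459 64424510 3 eng mog cd3q2 cd3q3 pd1 false true false .pnn 2 1 3
    ndB3q2 ndB3q3 pcB1 Cut.none Ext.none :=
  certB2 (fam := false) (s1 := true) (s2 := false) (a := 2) (b := 1) (c := 3) (cn := .pnn) (n1 := ndB3q2) (n2 := ndB3q3) (pc := pcB1) (cut := Cut.none) (xt := Ext.none) (P1 := 1073741824) (W1 := 536870912) (P2 := 0) (W2 := 1230186008) (P3 := 858993459) (W3 := 64424510) (N0 := 3) (En := eng) (mo := mog) (C1 := cd3q2) (C2 := cd3q3) (C3 := pd1)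
    rfl (fun _ => rfl) k0_pm_213

noncomputable def f_pm_303 : ℕ → ℕ → ℕ → ℕ → Bool := onCell 0 1230186008 0 1230186008 858993459 64424510
    (rowB 3 eng mog cd3q3 cd3q3 pd0 0 false true false .npn 3 0 3 (qsf 0 1230186008 0 1230186008 0) ndB3q3 ndB3q3 pcB0 Cut.none Ext.none)

def k0_pm_303 : ∃ t, chk3 f_pm_303 t 2 1 1 = true :=
  ⟨(b (l 3) (b (l 3) (l 1))), by decide +kernel⟩

def k1_pm_303 : ∃ t, chk3 f_pm_303 t 3 2 1 = true :=
  ⟨(a (l 3) (b (a (l 3) (a (l 3) (a (l 3) (b (l 3) (l 16678792))))) (a (b (l 3) (a (l 3) (a (b (l 3) (l 16227064)) (l 148879658343)))) (b (a (a (l 3) (l 16559448)) (a (l 16580688) (l 16601912))) (a (b (a (l 16416904) (l 16454208)) (l 16337888)) (b (l 16499648) (a (l 16400328) (l 16451976)))))))), by decide +kernel⟩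

def k2_pm_303 : ∃ t, chk3 f_pm_303 t 6 3 1 = true :=
  ⟨(b (a (b (l 3) (b (l 3) (l 1))) (b (a (l 3) (b (l 3) (a (l 276654472055) (a (l 15831104) (l 15848192))))) (b (a (b (l 3) (a (l 3) (l 15533936))) (b (a (l 15654608) (l 15695784)) (a (l 15554576) (l 15612200)))) (a (b (a (l 1) (l 15441472)) (l 1)) (b (l 15515856) (a (l 15442744) (l 15486440))))))) (a (l 1) (b (a (l 1) (b (b (l 15474456) (l 1)) (l 1))) (l 1)))), by decide +kernel⟩

def k3_pm_303 : ∃ t, chk3 f_pm_303 t 7 6 1 = true :=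
  ⟨(a (b (b (a (c (l 283634388279) (l 265917514215)) (a (l 16107632) (l 16150960))) (a (b (a (l 15920480) (l 15956320)) (a (l 15830992) (l 15886784))) (a (b (l 16001696) (l 15947528)) (b (l 16054024) (l 16028392))))) (a (b (b (a (l 15749792) (a (l 15807792) (l 15859432))) (a (l 15683592) (l 15783008))) (b (a (l 15602736) (l 15694464)) (l 15638528))) (b (a (b (l 15922560) (a (l 15866280) (l 15923648))) (b (l 16010168) (l 15986128))) (a (b (a (l 15792176) (l 15834376)) (l 15722512)) (b (a (l 15930288) (l 15992624)) (b (a (l 15872272) (l 15953544)) (l 15860792))))))) (b (a (b (a (l 16204224) (l 16263632)) (a (l 16124256) (l 16231536))) (b (a (l 16341096) (l 16450600)) (l 16410640))) (a (b (a (b (l 16099928) (l 16079280)) (l 16191776)) (a (b (l 16051616) (a (b (l 16018032) (l 15991168)) (l 16054456))) (b (l 16150288) (b (l 16132648) (l 16119488))))) (b (a (l 16307440) (l 16455776)) (a (b (l 16262016) (l 16118776)) (b (l 16409168) (l 16362104))))))), by decide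 +kernel⟩

def k4_pm_303 : ∃ t, chk3 f_pm_303 t 7 7 1 = true :=
  ⟨(a (b (b (a (b (l 15570528) (l 15581304)) (b (l 15750280) (l 15735912))) (a (b (l 15573680) (l 1)) (a (l 15675928) (l 15769184)))) (a (l 1) (b (b (l 15672096) (l 1)) (l 1)))) (b (a (b (a (b (a (b (l 15956112) (l 15923784)) (b (l 16040088) (l 16011080))) (l 15921320)) (b (a (l 16090248) (l 16142472)) (a (b (l 16063920) (l 16034008)) (l 16121064)))) (b (l 15963848) (l 15931400))) (b (a (b (l 16220352) (a (l 16188768) (l 16245424))) (b (l 16341176) (l 16333376))) (a (b (a (l 16147112) (l 16222320)) (b (l 16146952) (l 16128328))) (b (l 16316744) (b (l 16298504) (l 16278888)))))) (a (b (b (l 15894800) (l 15893328)) (b (l 15921376) (l 1))) (b (b (a (l 16092800) (b (l 16250224) (l 16229344))) (l 16137880)) (l 16135888))))), by decide +kernel⟩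

theorem s5_pm_303 : ∃ t, chk3 f_pm_303 t 7 3 1 = true := ex3_b k3_pm_303 k4_pm_303

theorem s6_pm_303 : ∃ t, chk3 f_pm_303 t 3 3 1 = true := ex3_a k2_pm_303 s5_pm_303

theorem s7_pm_303 : ∃ t, chk3 f_pm_303 t 3 1 1 = true := ex3_b k1_pm_303 s6_pm_303

theorem s8_pm_303 : ∃ t, chk3 f_pm_303 t 1 1 1 = true := ex3_a k0_pm_303 s7_pm_303

theorem c_pm_303 : CertB 0 1230186008 0 1230186008 858993459 64424510 3 eng mog cd3q3 cd3q3 pd0 false true false .npn 3 0 3
    ndB3q3 ndB3q3 pcB0 Cut.none Ext.none :=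
  certB0 (fam := false) (s1 := true) (s2 := false) (a := 3) (b := 0) (c := 3) (cn := .npn) (n1 := ndB3q3) (n2 := ndB3q3) (pc := pcB0) (cut := Cut.none) (xt := Ext.none) (P1 := 0) (W1 := 1230186008) (P2 := 0) (W2 := 1230186008) (P3 := 858993459) (W3 := 64424510) (N0 := 3) (En := eng) (mo := mog) (C1 := cd3q3) (C2 := cd3q3) (C3 := pd0)
    rfl s8_pm_303

noncomputable def f_pm_313 : ℕ → ℕ → ℕ → ℕ → Bool := onCell 0 1230186008 0 1230186008 858993459 64424510
    (rowB 3 eng mog cd3q3 cd3q3 pd1 0 false true false .dn 3 1 3 (qsf 0 1230186008 0 1230186008 1) ndB3q3 ndB3q3 pcB1 Cut.none Ext.none)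

def k0_pm_313 : ∃ t, chk3 f_pm_313 t 1 1 1 = true :=
  ⟨(a (l 1) (b (b (b (l 3) (l 1)) (l 1)) (l 1))), by decide +kernel⟩

theorem c_pm_313 : CertB 0 1230186008 0 1230186008 858993459 64424510 3 eng mog cd3q3 cd3q3 pd1 false true false .dn 3 1 3
    ndB3q3 ndB3q3 pcB1 Cut.none Ext.none :=
  certB0 (fam := false) (s1 := true) (s2 := false) (a := 3) (b := 1) (c := 3) (cn := .dn) (n1 := ndB3q3) (n2 := ndB3q3) (pc := pcB1) (cut := Cut.none) (xt := Ext.none) (P1 := 0) (W1 := 1230186008) (P2 := 0) (W2 := 1230186008) (P3 := 858993459) (W3 := 64424510) (N0 := 3) (En := eng) (mo := mog) (C1 := cd3q3) (C2 := cd3q3) (C3 := pd1)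
    rfl k0_pm_313

noncomputable def f_mm_001 : ℕ → ℕ → ℕ → ℕ → Bool := onCell 0 536870912 536870912 536870912 858993459 64424510
    (rowB 3 eng mog cd3q0 cd3q1 pd0 0 false false false .up 0 0 1 (qsf 0 536870912 536870912 536870912 0) ndB3q0 ndB3q1 pcB0 Cut.none Ext.none)

def k0_mm_001 : ∃ t, chk3 f_mm_001 t 1 1 1 = true :=
  ⟨(l 3), by decide +kernel⟩

theorem c_mm_001 : CertB 0 536870912 536870912 536870912 858993459 64424510 3 eng mog cd3q0 cd3q1 pd0 false false false .up 0 0 1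
    ndB3q0 ndB3q1 pcB0 Cut.none Ext.none :=
  certB0 (fam := false) (s1 := false) (s2 := false) (a := 0) (b := 0) (c := 1) (cn := .up) (n1 := ndB3q0) (n2 := ndB3q1) (pc := pcB0) (cut := Cut.none) (xt := Ext.none) (P1 := 0) (W1 := 536870912) (P2 := 536870912) (W2 := 536870912) (P3 := 858993459) (W3 := 64424510) (N0 := 3) (En := eng) (mo := mog) (C1 := cd3q0) (C2 := cd3q1) (C3 := pd0)
    rfl k0_mm_001

noncomputable def f_mm_011 : ℕ → ℕ → ℕ → ℕ → Bool := onCell 0 536870912 536870912 536870912 858993459 64424510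
    (rowB 3 eng mog cd3q0 cd3q1 pd1 0 false false false .pnn 0 1 1 (qsf 0 536870912 536870912 536870912 1) ndB3q0 ndB3q1 pcB1 Cut.none Ext.none)

def k0_mm_011 : ∃ t, chk3 f_mm_011 t 1 1 1 = true :=
  ⟨(l 3), by decide +kernel⟩

theorem c_mm_011 : CertB 0 536870912 536870912 536870912 858993459 64424510 3 eng mog cd3q0 cd3q1 pd1 false false false .pnn 0 1 1
    ndB3q0 ndB3q1 pcB1 Cut.none Ext.none :=
  certB0 (fam := false) (s1 := false) (s2 := false) (a := 0) (b := 1) (c := 1) (cn := .pnn) (n1 := ndB3q0) (n2 := ndB3q1) (pc := pcB1) (cut := Cut.none) (xt := Ext.none) (P1 := 0) (W1 := 536870912) (P2 := 536870912) (W2 := 536870912) (P3 := 858993459) (W3 := 64424510) (N0 := 3) (En := eng) (mo := mog) (C1 := cd3q0) (C2 := cd3q1) (C3 := pd1)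
    rfl k0_mm_011

noncomputable def f_mm_012 : ℕ → ℕ → ℕ → ℕ → Bool := onCell 0 536870912 1073741824 536870912 858993459 64424510
    (rowB 3 eng mog cd3q0 cd3q2 pd1 0 false false false .pnp 0 1 2 (qsf 0 536870912 1073741824 536870912 1) ndB3q0 ndB3q2 pcB1 Cut.none Ext.none)

def k0_mm_012 : ∃ t, chk3 f_mm_012 t 1 1 1 = true :=
  ⟨(l 5), by decide +kernel⟩

theorem c_mm_012 : CertB 0 536870912 1073741824 536870912 858993459 64424510 3 eng mog cd3q0 cd3q2 pd1 false false false .pnp 0 1 2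
    ndB3q0 ndB3q2 pcB1 Cut.none Ext.none :=
  certB0 (fam := false) (s1 := false) (s2 := false) (a := 0) (b := 1) (c := 2) (cn := .pnp) (n1 := ndB3q0) (n2 := ndB3q2) (pc := pcB1) (cut := Cut.none) (xt := Ext.none) (P1 := 0) (W1 := 536870912) (P2 := 1073741824) (W2 := 536870912) (P3 := 858993459) (W3 := 64424510) (N0 := 3) (En := eng) (mo := mog) (C1 := cd3q0) (C2 := cd3q2) (C3 := pd1)
    rfl k0_mm_012

noncomputable def f_mm_022 : ℕ → ℕ → ℕ → ℕ → Bool := onCell 0 536870912 1073741824 536870912 858993459 64424510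
    (rowB 3 eng mog cd3q0 cd3q2 pd2 0 false false false .pp 0 2 2 (qsf 0 536870912 1073741824 536870912 2) ndB3q0 ndB3q2 pcB2 Cut.none Ext.none)

def k0_mm_022 : ∃ t, chk3 f_mm_022 t 1 1 1 = true :=
  ⟨(l 5), by decide +kernel⟩

theorem c_mm_022 : CertB 0 536870912 1073741824 536870912 858993459 64424510 3 eng mog cd3q0 cd3q2 pd2 false false false .pp 0 2 2
    ndB3q0 ndB3q2 pcB2 Cut.none Ext.none :=
  certB0 (fam := false) (s1 := false) (s2 := false) (a := 0) (b := 2) (c := 2) (cn := .pp) (n1 := ndB3q0) (n2 := ndB3q2) (pc := pcB2) (cut := Cut.none) (xt := Ext.none) (P1 := 0) (W1 := 536870912) (P2 := 1073741824) (W2 := 536870912) (P3 := 858993459) (W3 := 64424510) (N0 := 3) (En := eng) (mo := mog) (C1 := cd3q0) (C2 := cd3q2) (C3 := pd2)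
    rfl k0_mm_022

noncomputable def f_mm_023 : ℕ → ℕ → ℕ → ℕ → Bool := onCell 0 536870912 0 1230186008 858993459 64424510
    (rowB 3 eng mog cd3q0 cd3q3 pd2 0 false false false .up 0 2 3 (qsf 0 536870912 0 1230186008 2) ndB3q0 ndB3q3 pcB2 Cut.none Ext.none)

def k0_mm_023 : ∃ t, chk3 f_mm_023 t 1 1 1 = true :=
  ⟨(l 5), by decide +kernel⟩

theorem c_mm_023 : CertB 0 536870912 0 1230186008 858993459 64424510 3 eng mog cd3q0 cd3q3 pd2 false false false .up 0 2 3
    ndB3q0 ndB3q3 pcB2 Cut.none Ext.none :=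
  certB0 (fam := false) (s1 := false) (s2 := false) (a := 0) (b := 2) (c := 3) (cn := .up) (n1 := ndB3q0) (n2 := ndB3q3) (pc := pcB2) (cut := Cut.none) (xt := Ext.none) (P1 := 0) (W1 := 536870912) (P2 := 0) (W2 := 1230186008) (P3 := 858993459) (W3 := 64424510) (N0 := 3) (En := eng) (mo := mog) (C1 := cd3q0) (C2 := cd3q3) (C3 := pd2)
    rfl k0_mm_023

noncomputable def f_mm_033 : ℕ → ℕ → ℕ → ℕ → Bool := onCell 0 536870912 0 1230186008 858993459 64424510
    (rowB 3 eng mog cd3q0 cd3q3 pd3 0 false false false .pnn 0 3 3 (qsf 0 536870912 0 1230186008 3) ndB3q0 ndB3q3 pcB3 Cut.none Ext.none)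

def k0_mm_033 : ∃ t, chk3 f_mm_033 t 1 1 1 = true :=
  ⟨(l 5), by decide +kernel⟩

theorem c_mm_033 : CertB 0 536870912 0 1230186008 858993459 64424510 3 eng mog cd3q0 cd3q3 pd3 false false false .pnn 0 3 3
    ndB3q0 ndB3q3 pcB3 Cut.none Ext.none :=
  certB0 (fam := false) (s1 := false) (s2 := false) (a := 0) (b := 3) (c := 3) (cn := .pnn) (n1 := ndB3q0) (n2 := ndB3q3) (pc := pcB3) (cut := Cut.none) (xt := Ext.none) (P1 := 0) (W1 := 536870912) (P2 := 0) (W2 := 1230186008) (P3 := 858993459) (W3 := 64424510) (N0 := 3) (En := eng) (mo := mog) (C1 := cd3q0) (C2 := cd3q3) (C3 := pd3)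
    rfl k0_mm_033

noncomputable def f_mm_101 : ℕ → ℕ → ℕ → ℕ → Bool := onCell 536870912 536870912 536870912 536870912 858993459 64424510
    (rowB 3 eng mog cd3q1 cd3q1 pd0 0 false false false .npn 1 0 1 (qsf 536870912 536870912 536870912 536870912 0) ndB3q1 ndB3q1 pcB0 Cut.none Ext.none)

def k0_mm_101 : ∃ t, chk3 f_mm_101 t 1 1 1 = true :=
  ⟨(l 3), by decide +kernel⟩

theorem c_mm_101 : CertB 536870912 536870912 536870912 536870912 858993459 64424510 3 eng mog cd3q1 cd3q1 pd0 false false false .npn 1 0 1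
    ndB3q1 ndB3q1 pcB0 Cut.none Ext.none :=
  certB0 (fam := false) (s1 := false) (s2 := false) (a := 1) (b := 0) (c := 1) (cn := .npn) (n1 := ndB3q1) (n2 := ndB3q1) (pc := pcB0) (cut := Cut.none) (xt := Ext.none) (P1 := 536870912) (W1 := 536870912) (P2 := 536870912) (W2 := 536870912) (P3 := 858993459) (W3 := 64424510) (N0 := 3) (En := eng) (mo := mog) (C1 := cd3q1) (C2 := cd3q1) (C3 := pd0)
    rfl k0_mm_101

noncomputable def f_mm_102 : ℕ → ℕ → ℕ → ℕ → Bool := onCell 536870912 536870912 1073741824 536870912 858993459 64424510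
    (rowB 3 eng mog cd3q1 cd3q2 pd0 0 false false false .npp 1 0 2 (qsf 536870912 536870912 1073741824 536870912 0) ndB3q1 ndB3q2 pcB0 Cut.none Ext.none)

def k0_mm_102 : ∃ t, chk3 f_mm_102 t 1 1 1 = true :=
  ⟨(l 5), by decide +kernel⟩

theorem c_mm_102 : CertB 536870912 536870912 1073741824 536870912 858993459 64424510 3 eng mog cd3q1 cd3q2 pd0 false false false .npp 1 0 2
    ndB3q1 ndB3q2 pcB0 Cut.none Ext.none :=
  certB0 (fam := false) (s1 := false) (s2 := false) (a := 1) (b := 0) (c := 2) (cn := .npp) (n1 := ndB3q1) (n2 := ndB3q2) (pc := pcB0) (cut := Cut.none) (xt := Ext.none) (P1 := 536870912) (W1 := 536870912) (P2 := 1073741824) (W2 := 536870912) (P3 := 858993459) (W3 := 64424510) (N0 := 3) (En := eng) (mo := mog) (C1 := cd3q1) (C2 := cd3q2) (C3 := pd0)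
    rfl k0_mm_102

noncomputable def f_mm_112 : ℕ → ℕ → ℕ → ℕ → Bool := onCell 536870912 536870912 1073741824 536870912 858993459 64424510
    (rowB 3 eng mog cd3q1 cd3q2 pd1 0 false false false .dn 1 1 2 (qsf 536870912 536870912 1073741824 536870912 1) ndB3q1 ndB3q2 pcB1 Cut.none Ext.none)

def k0_mm_112 : ∃ t, chk3 f_mm_112 t 1 1 1 = true :=
  ⟨(l 5), by decide +kernel⟩

theorem c_mm_112 : CertB 536870912 536870912 1073741824 536870912 858993459 64424510 3 eng mog cd3q1 cd3q2 pd1 false false false .dn 1 1 2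
    ndB3q1 ndB3q2 pcB1 Cut.none Ext.none :=
  certB0 (fam := false) (s1 := false) (s2 := false) (a := 1) (b := 1) (c := 2) (cn := .dn) (n1 := ndB3q1) (n2 := ndB3q2) (pc := pcB1) (cut := Cut.none) (xt := Ext.none) (P1 := 536870912) (W1 := 536870912) (P2 := 1073741824) (W2 := 536870912) (P3 := 858993459) (W3 := 64424510) (N0 := 3) (En := eng) (mo := mog) (C1 := cd3q1) (C2 := cd3q2) (C3 := pd1)
    rfl k0_mm_112

noncomputable def f_mm_113 : ℕ → ℕ → ℕ → ℕ → Bool := onCell 536870912 536870912 0 1230186008 858993459 64424510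
    (rowB 3 eng mog cd3q1 cd3q3 pd1 0 false false false .nn 1 1 3 (qsf 536870912 536870912 0 1230186008 1) ndB3q1 ndB3q3 pcB1 Cut.none Ext.none)

def k0_mm_113 : ∃ t, chk3 f_mm_113 t 1 1 1 = true :=
  ⟨(l 5), by decide +kernel⟩

theorem c_mm_113 : CertB 536870912 536870912 0 1230186008 858993459 64424510 3 eng mog cd3q1 cd3q3 pd1 false false false .nn 1 1 3
    ndB3q1 ndB3q3 pcB1 Cut.none Ext.none :=
  certB0 (fam := false) (s1 := false) (s2 := false) (a := 1) (b := 1) (c := 3) (cn := .nn) (n1 := ndB3q1) (n2 := ndB3q3) (pc := pcB1) (cut := Cut.none) (xt := Ext.none) (P1 := 536870912) (W1 := 536870912) (P2 := 0) (W2 := 1230186008) (P3 := 858993459) (W3 := 64424510) (N0 := 3) (En := eng) (mo := mog) (C1 := cd3q1) (C2 := cd3q3) (C3 := pd1)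
    rfl k0_mm_113

noncomputable def f_mm_123 : ℕ → ℕ → ℕ → ℕ → Bool := onCell 536870912 536870912 0 1230186008 858993459 64424510
    (rowB 3 eng mog cd3q1 cd3q3 pd2 0 false false false .npn 1 2 3 (qsf 536870912 536870912 0 1230186008 2) ndB3q1 ndB3q3 pcB2 Cut.none Ext.none)

def k0_mm_123 : ∃ t, chk3 f_mm_123 t 1 1 1 = true :=
  ⟨(l 5), by decide +kernel⟩

theorem c_mm_123 : CertB 536870912 536870912 0 1230186008 858993459 64424510 3 eng mog cd3q1 cd3q3 pd2 false false false .npn 1 2 3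
    ndB3q1 ndB3q3 pcB2 Cut.none Ext.none :=
  certB0 (fam := false) (s1 := false) (s2 := false) (a := 1) (b := 2) (c := 3) (cn := .npn) (n1 := ndB3q1) (n2 := ndB3q3) (pc := pcB2) (cut := Cut.none) (xt := Ext.none) (P1 := 536870912) (W1 := 536870912) (P2 := 0) (W2 := 1230186008) (P3 := 858993459) (W3 := 64424510) (N0 := 3) (En := eng) (mo := mog) (C1 := cd3q1) (C2 := cd3q3) (C3 := pd2)
    rfl k0_mm_123

noncomputable def f_mm_133 : ℕ → ℕ → ℕ → ℕ → Bool := onCell 536870912 536870912 0 1230186008 858993459 64424510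
    (rowB 3 eng mog cd3q1 cd3q3 pd3 0 false false false .dn 1 3 3 (qsf 536870912 536870912 0 1230186008 3) ndB3q1 ndB3q3 pcB3 Cut.none Ext.none)

def k0_mm_133 : ∃ t, chk3 f_mm_133 t 1 1 1 = true :=
  ⟨(l 5), by decide +kernel⟩

theorem c_mm_133 : CertB 536870912 536870912 0 1230186008 858993459 64424510 3 eng mog cd3q1 cd3q3 pd3 false false false .dn 1 3 3
    ndB3q1 ndB3q3 pcB3 Cut.none Ext.none :=
  certB0 (fam := false) (s1 := false) (s2 := false) (a := 1) (b := 3) (c := 3) (cn := .dn) (n1 := ndB3q1) (n2 := ndB3q3) (pc := pcB3) (cut := Cut.none) (xt := Ext.none) (P1 := 536870912) (W1 := 536870912) (P2 := 0) (W2 := 1230186008) (P3 := 858993459) (W3 := 64424510) (N0 := 3) (En := eng) (mo := mog) (C1 := cd3q1) (C2 := cd3q3) (C3 := pd3)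
    rfl k0_mm_133

noncomputable def f_mm_202 : ℕ → ℕ → ℕ → ℕ → Bool := onCell 1073741824 536870912 1073741824 536870912 858993459 64424510
    (rowB 3 eng mog cd3q2 cd3q2 pd0 0 false false false .pp 2 0 2 (qsf 1073741824 536870912 1073741824 536870912 0) ndB3q2 ndB3q2 pcB0 Cut.none Ext.none)

def k0_mm_202 : ∃ t, chk3 f_mm_202 t 1 1 1 = true :=
  ⟨(l 3), by decide +kernel⟩

theorem c_mm_202 : CertB 1073741824 536870912 1073741824 536870912 858993459 64424510 3 eng mog cd3q2 cd3q2 pd0 false false false .pp 2 0 2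
    ndB3q2 ndB3q2 pcB0 Cut.none Ext.none :=
  certB0 (fam := false) (s1 := false) (s2 := false) (a := 2) (b := 0) (c := 2) (cn := .pp) (n1 := ndB3q2) (n2 := ndB3q2) (pc := pcB0) (cut := Cut.none) (xt := Ext.none) (P1 := 1073741824) (W1 := 536870912) (P2 := 1073741824) (W2 := 536870912) (P3 := 858993459) (W3 := 64424510) (N0 := 3) (En := eng) (mo := mog) (C1 := cd3q2) (C2 := cd3q2) (C3 := pd0)
    rfl k0_mm_202

noncomputable def f_mm_203 : ℕ → ℕ → ℕ → ℕ → Bool := onCell 1073741824 536870912 0 1230186008 858993459 64424510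
    (rowB 3 eng mog cd3q2 cd3q3 pd0 0 false false false .up 2 0 3 (qsf 1073741824 536870912 0 1230186008 0) ndB3q2 ndB3q3 pcB0 Cut.none Ext.none)

def k0_mm_203 : ∃ t, chk3 f_mm_203 t 1 1 1 = true :=
  ⟨(b (l 5) (b (l 5) (l 3))), by decide +kernel⟩

theorem c_mm_203 : CertB 1073741824 536870912 0 1230186008 858993459 64424510 3 eng mog cd3q2 cd3q3 pd0 false false false .up 2 0 3
    ndB3q2 ndB3q3 pcB0 Cut.none Ext.none :=
  certB0 (fam := false) (s1 := false) (s2 := false) (a := 2) (b := 0) (c := 3) (cn := .up) (n1 := ndB3q2) (n2 := ndB3q3) (pc := pcB0) (cut := Cut.none) (xt := Ext.none) (P1 := 1073741824) (W1 := 536870912) (P2 := 0) (W2 := 1230186008) (P3 := 858993459) (W3 := 64424510) (N0 := 3) (En := eng) (mo := mog) (C1 := cd3q2) (C2 := cd3q3) (C3 := pd0)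
    rfl k0_mm_203

noncomputable def f_mm_213 : ℕ → ℕ → ℕ → ℕ → Bool := onCell 536870912 536870912 0 1230186008 858993459 64424510
    (rowB 3 eng mog cd3q2 cd3q3 pd1 2 false false false .pnn 2 1 3 (qsf 1073741824 536870912 0 1230186008 1) ndB3q2 ndB3q3 pcB1 Cut.none Ext.none)

def k0_mm_213 : ∃ t, chk3 f_mm_213 t 1 1 1 = true :=
  ⟨(b (l 5) (l 5)), by decide +kernel⟩

theorem c_mm_213 : CertB 1073741824 536870912 0 1230186008 858993459 64424510 3 eng mog cd3q2 cd3q3 pd1 false false false .pnn 2 1 3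
    ndB3q2 ndB3q3 pcB1 Cut.none Ext.none :=
  certB2 (fam := false) (s1 := false) (s2 := false) (a := 2) (b := 1) (c := 3) (cn := .pnn) (n1 := ndB3q2) (n2 := ndB3q3) (pc := pcB1) (cut := Cut.none) (xt := Ext.none) (P1 := 1073741824) (W1 := 536870912) (P2 := 0) (W2 := 1230186008) (P3 := 858993459) (W3 := 64424510) (N0 := 3) (En := eng) (mo := mog) (C1 := cd3q2) (C2 := cd3q3) (C3 := pd1)
    rfl (fun _ => rfl) k0_mm_213

noncomputable def f_mm_303 : ℕ → ℕ → ℕ → ℕ → Bool := onCell 0 1230186008 0 1230186008 858993459 64424510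
    (rowB 3 eng mog cd3q3 cd3q3 pd0 0 false false false .npn 3 0 3 (qsf 0 1230186008 0 1230186008 0) ndB3q3 ndB3q3 pcB0 Cut.none Ext.none)

def k0_mm_303 : ∃ t, chk3 f_mm_303 t 1 1 1 = true :=
  ⟨(a (b (l 3) (l 3)) (b (l 3) (l 3))), by decide +kernel⟩

theorem c_mm_303 : CertB 0 1230186008 0 1230186008 858993459 64424510 3 eng mog cd3q3 cd3q3 pd0 false false false .npn 3 0 3
    ndB3q3 ndB3q3 pcB0 Cut.none Ext.none :=
  certB0 (fam := false) (s1 := false) (s2 := false) (a := 3) (b := 0) (c := 3) (cn := .npn) (n1 := ndB3q3) (n2 := ndB3q3) (pc := pcB0) (cut := Cut.none) (xt := Ext.none) (P1 := 0) (W1 := 1230186008) (P2 := 0) (W2 := 1230186008) (P3 := 858993459) (W3 := 64424510) (N0 := 3) (En := eng) (mo := mog) (C1 := cd3q3) (C2 := cd3q3) (C3 := pd0)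
    rfl k0_mm_303

noncomputable def f_mm_313 : ℕ → ℕ → ℕ → ℕ → Bool := onCell 0 1230186008 0 1230186008 858993459 64424510
    (rowB 3 eng mog cd3q3 cd3q3 pd1 0 false false false .dn 3 1 3 (qsf 0 1230186008 0 1230186008 1) ndB3q3 ndB3q3 pcB1 Cut.none Ext.none)

def k0_mm_313 : ∃ t, chk3 f_mm_313 t 1 1 1 = true :=
  ⟨(a (l 1) (b (l 3) (l 1))), by decide +kernel⟩

theorem c_mm_313 : CertB 0 1230186008 0 1230186008 858993459 64424510 3 eng mog cd3q3 cd3q3 pd1 false false false .dn 3 1 3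
    ndB3q3 ndB3q3 pcB1 Cut.none Ext.none :=
  certB0 (fam := false) (s1 := false) (s2 := false) (a := 3) (b := 1) (c := 3) (cn := .dn) (n1 := ndB3q3) (n2 := ndB3q3) (pc := pcB1) (cut := Cut.none) (xt := Ext.none) (P1 := 0) (W1 := 1230186008) (P2 := 0) (W2 := 1230186008) (P3 := 858993459) (W3 := 64424510) (N0 := 3) (En := eng) (mo := mog) (C1 := cd3q3) (C2 := cd3q3) (C3 := pd1)
    rfl k0_mm_313

end Pool.Agent.Strip051.G.I8000_8600.Tab.C.BB33

namespace Pool.Agent.Strip051.G.I8000_8600.Tab.C.BB34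

open Pool.Agent.Strip051.PB Pool.Agent.Strip051.PB.T
open Pool.Agent.Strip051.G.I8000_8600.Tab

noncomputable def f_pp_001 : ℕ → ℕ → ℕ → ℕ → Bool := onCell 0 536870912 536870912 536870912 858993459 64424510
    (rowB 3 eng mog cd3q0 cd4q1 pd0 0 false true true .up 0 0 1 (qsf 0 536870912 536870912 536870912 0) ndB3q0 ndB4q1 pcB0 Cut.none Ext.none)

def k0_pp_001 : ∃ t, chk3 f_pp_001 t 1 1 1 = true :=
  ⟨(l 3), by decide +kernel⟩

theorem c_pp_001 : CertB 0 536870912 536870912 536870912 858993459 64424510 3 eng mog cd3q0 cd4q1 pd0 false true true .up 0 0 1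
    ndB3q0 ndB4q1 pcB0 Cut.none Ext.none :=
  certB0 (fam := false) (s1 := true) (s2 := true) (a := 0) (b := 0) (c := 1) (cn := .up) (n1 := ndB3q0) (n2 := ndB4q1) (pc := pcB0) (cut := Cut.none) (xt := Ext.none) (P1 := 0) (W1 := 536870912) (P2 := 536870912) (W2 := 536870912) (P3 := 858993459) (W3 := 64424510) (N0 := 3) (En := eng) (mo := mog) (C1 := cd3q0) (C2 := cd4q1) (C3 := pd0)
    rfl k0_pp_001

noncomputable def f_pp_011 : ℕ → ℕ → ℕ → ℕ → Bool := onCell 0 536870912 536870912 536870912 858993459 64424510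
    (rowB 3 eng mog cd3q0 cd4q1 pd1 0 false true true .pnn 0 1 1 (qsf 0 536870912 536870912 536870912 1) ndB3q0 ndB4q1 pcB1 Cut.none Ext.none)

def k0_pp_011 : ∃ t, chk3 f_pp_011 t 1 1 1 = true :=
  ⟨(l 3), by decide +kernel⟩

theorem c_pp_011 : CertB 0 536870912 536870912 536870912 858993459 64424510 3 eng mog cd3q0 cd4q1 pd1 false true true .pnn 0 1 1
    ndB3q0 ndB4q1 pcB1 Cut.none Ext.none :=
  certB0 (fam := false) (s1 := true) (s2 := true) (a := 0) (b := 1) (c := 1) (cn := .pnn) (n1 := ndB3q0) (n2 := ndB4q1) (pc := pcB1) (cut := Cut.none) (xt := Ext.none) (P1 := 0) (W1 := 536870912) (P2 := 536870912) (W2 := 536870912) (P3 := 858993459) (W3 := 64424510) (N0 := 3) (En := eng) (mo := mog) (C1 := cd3q0) (C2 := cd4q1) (C3 := pd1)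
    rfl k0_pp_011

noncomputable def f_pp_012 : ℕ → ℕ → ℕ → ℕ → Bool := onCell 0 536870912 536870912 536870912 858993459 64424510
    (rowB 3 eng mog cd3q0 cd4q2 pd1 1 false true true .pnp 0 1 2 (qsf 0 536870912 1073741824 536870912 1) ndB3q0 ndB4q2 pcB1 Cut.none Ext.none)

def k0_pp_012 : ∃ t, chk3 f_pp_012 t 1 1 1 = true :=
  ⟨(b (l 3) (l 3)), by decide +kernel⟩

theorem c_pp_012 : CertB 0 536870912 1073741824 536870912 858993459 64424510 3 eng mog cd3q0 cd4q2 pd1 false true true .pnp 0 1 2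
    ndB3q0 ndB4q2 pcB1 Cut.none Ext.none :=
  certB1 (fam := false) (s1 := true) (s2 := true) (a := 0) (b := 1) (c := 2) (cn := .pnp) (n1 := ndB3q0) (n2 := ndB4q2) (pc := pcB1) (cut := Cut.none) (xt := Ext.none) (P1 := 0) (W1 := 536870912) (P2 := 1073741824) (W2 := 536870912) (P3 := 858993459) (W3 := 64424510) (N0 := 3) (En := eng) (mo := mog) (C1 := cd3q0) (C2 := cd4q2) (C3 := pd1)
    rfl (fun _ => rfl) k0_pp_012

noncomputable def f_pp_022 : ℕ → ℕ → ℕ → ℕ → Bool := onCell 1073741824 536870912 1073741824 536870912 858993459 64424510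
    (rowB 3 eng mog cd3q0 cd4q2 pd2 2 false true true .pp 0 2 2 (qsf 0 536870912 1073741824 536870912 2) ndB3q0 ndB4q2 pcB2 Cut.none Ext.none)

def k0_pp_022 : ∃ t, chk3 f_pp_022 t 1 1 1 = true :=
  ⟨(a (b (a (a (l 3) (b (a (l 3) (b (l 1) (l 3))) (l 3))) (b (a (b (l 1) (a (a (b (l 1) (l 3)) (l 1)) (l 1))) (l 1)) (a (a (a (l 3) (a (l 3) (a (b (b (l 15984176) (l 3)) (l 2628149798999)) (b (b (l 15986976) (l 15989984)) (l 15987944))))) (b (b (l 15996392) (l 16005048)) (b (l 16009944) (l 16014304)))) (b (b (l 1) (a (l 16017872) (l 1))) (b (a (l 16032504) (l 16036856)) (l 16244440)))))) (a (a (b (l 3) (l 3)) (b (a (l 3) (b (l 3) (a (l 3) (l 15877464)))) (a (b (l 3) (l 15847744)) (b (l 174649479175) (l 15902016))))) (a (a (a (b (b (a (l 3) (l 15940472)) (l 16135440)) (b (l 15929160) (l 15942760))) (b (a (b (l 15964216) (l 15961272)) (a (b (l 15979240) (l 15978064)) (b (l 15987536) (l 15987384)))) (b (a (l 15964008) (a (l 15979312) (l 15986624))) (l 15979864))))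 (b (b (l 16021392) (l 16029584)) (b (l 16031760) (l 16039296)))) (b (b (b (l 16074640) (l 16092448)) (l 16117592)) (b (l 16142800) (l 16160976)))))) (b (a (b (l 1) (a (b (l 1) (a (l 71436456247) (l 1))) (l 1))) (l 1)) (a (b (b (a (l 16057592) (l 16046888)) (a (l 16169256) (l 16142768))) (b (a (l 16233072) (l 16241120)) (l 16318648))) (b (a (b (l 1) (l 16048872)) (l 1)) (b (a (l 16165320) (l 15950240)) (a (l 16286152) (l 16087056))))))), by decide +kernel⟩

theorem c_pp_022 : CertB 0 536870912 1073741824 536870912 858993459 64424510 3 eng mog cd3q0 cd4q2 pd2 false true true .pp 0 2 2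
    ndB3q0 ndB4q2 pcB2 Cut.none Ext.none :=
  certB2 (fam := false) (s1 := true) (s2 := true) (a := 0) (b := 2) (c := 2) (cn := .pp) (n1 := ndB3q0) (n2 := ndB4q2) (pc := pcB2) (cut := Cut.none) (xt := Ext.none) (P1 := 0) (W1 := 536870912) (P2 := 1073741824) (W2 := 536870912) (P3 := 858993459) (W3 := 64424510) (N0 := 3) (En := eng) (mo := mog) (C1 := cd3q0) (C2 := cd4q2) (C3 := pd2)
    rfl (fun _ => rfl) k0_pp_022

noncomputable def f_pp_023 : ℕ → ℕ → ℕ → ℕ → Bool := onCell 1073741824 536870912 0 1230186008 858993459 64424510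
    (rowB 3 eng mog cd3q0 cd4q3 pd2 2 false true true .up 0 2 3 (qsf 0 536870912 0 1230186008 2) ndB3q0 ndB4q3 pcB2 Cut.none Ext.none)

def k0_pp_023 : ∃ t, chk3 f_pp_023 t 1 1 1 = true :=
  ⟨(b (a (l 2) (a (l 2) (b (a (l 2) (l 4)) (a (l 16914504) (b (l 16699488) (l 16728776)))))) (a (a (b (l 2) (b (l 2) (a (b (l 2) (a (l 15815872) (l 15829368))) (a (b (l 15940856) (l 15909184)) (b (l 15986800) (l 15965832)))))) (b (b (l 2) (a (l 2) (l 16334264))) (b (a (a (b (l 2) (l 16107800)) (l 16162272)) (b (l 16287520) (l 16249064))) (a (b (a (l 16042752) (l 16104032)) (a (a (l 15975056) (l 16007272)) (l 16063096))) (b (l 16213824) (l 16184408)))))) (b (a (b (a (l 2) (l 16437608)) (a (l 16389848) (l 16438400))) (b (a (l 16472232) (l 16506056)) (a (l 16460440) (l 16438720)))) (b (a (b (l 16447400) (l 16452032)) (b (l 16591792) (l 16622352))) (a (b (l 16430536) (l 16383296)) (b (l 16515120) (l 16118048))))))), by decide +kernel⟩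

theorem c_pp_023 : CertB 0 536870912 0 1230186008 858993459 64424510 3 eng mog cd3q0 cd4q3 pd2 false true true .up 0 2 3
    ndB3q0 ndB4q3 pcB2 Cut.none Ext.none :=
  certB2 (fam := false) (s1 := true) (s2 := true) (a := 0) (b := 2) (c := 3) (cn := .up) (n1 := ndB3q0) (n2 := ndB4q3) (pc := pcB2) (cut := Cut.none) (xt := Ext.none) (P1 := 0) (W1 := 536870912) (P2 := 0) (W2 := 1230186008) (P3 := 858993459) (W3 := 64424510) (N0 := 3) (En := eng) (mo := mog) (C1 := cd3q0) (C2 := cd4q3) (C3 := pd2)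
    rfl (fun _ => rfl) k0_pp_023

noncomputable def f_pp_033 : ℕ → ℕ → ℕ → ℕ → Bool := onCell 1610612736 536870912 0 1230186008 858993459 64424510
    (rowB 3 eng mog cd3q0 cd4q3 pd3 2 false true true .pnn 0 3 3 (qsf 0 536870912 0 1230186008 3) ndB3q0 ndB4q3 pcB3 Cut.none Ext.none)

def k0_pp_033 : ∃ t, chk3 f_pp_033 t 1 1 1 = true :=
  ⟨(b (b (l 4) (a (b (a (a (l 16610440) (l 4)) (l 4)) (a (a (l 16595416) (l 16651344)) (a (l 16657632) (l 16642984)))) (a (l 4) (l 4)))) (b (a (a (b (a (l 16565400) (l 16678680)) (b (l 16673864) (l 16628416))) (b (a (l 16615128) (l 16485408)) (a (b (l 16473608) (l 16307544)) (b (l 16263472) (l 16065552))))) (b (a (a (l 16364480) (l 16163240)) (b (l 4) (l 1))) (a (a (b (l 16051408) (l 15822080)) (b (l 15879760) (l 1))) (l 1)))) (a (b (a (b (l 16463304) (a (l 16389872) (l 16136504))) (b (a (l 16093832) (l 15834656)) (a (l 15864528) (l 1)))) (a (b (a (l 16198352) (l 15921680)) (a (l 15999328) (l 684541534743))) (b (a (l 15642816)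 (l 1)) (l 1)))) (l 1)))), by decide +kernel⟩

theorem c_pp_033 : CertB 0 536870912 0 1230186008 858993459 64424510 3 eng mog cd3q0 cd4q3 pd3 false true true .pnn 0 3 3
    ndB3q0 ndB4q3 pcB3 Cut.none Ext.none :=
  certB2 (fam := false) (s1 := true) (s2 := true) (a := 0) (b := 3) (c := 3) (cn := .pnn) (n1 := ndB3q0) (n2 := ndB4q3) (pc := pcB3) (cut := Cut.none) (xt := Ext.none) (P1 := 0) (W1 := 536870912) (P2 := 0) (W2 := 1230186008) (P3 := 858993459) (W3 := 64424510) (N0 := 3) (En := eng) (mo := mog) (C1 := cd3q0) (C2 := cd4q3) (C3 := pd3)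
    rfl (fun _ => rfl) k0_pp_033

noncomputable def f_pp_101 : ℕ → ℕ → ℕ → ℕ → Bool := onCell 536870912 536870912 536870912 536870912 858993459 64424510
    (rowB 3 eng mog cd3q1 cd4q1 pd0 0 false true true .npn 1 0 1 (qsf 536870912 536870912 536870912 536870912 0) ndB3q1 ndB4q1 pcB0 Cut.none Ext.none)

def k0_pp_101 : ∃ t, chk3 f_pp_101 t 1 1 1 = true :=
  ⟨(l 3), by decide +kernel⟩

theorem c_pp_101 : CertB 536870912 536870912 536870912 536870912 858993459 64424510 3 eng mog cd3q1 cd4q1 pd0 false true true .npn 1 0 1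
    ndB3q1 ndB4q1 pcB0 Cut.none Ext.none :=
  certB0 (fam := false) (s1 := true) (s2 := true) (a := 1) (b := 0) (c := 1) (cn := .npn) (n1 := ndB3q1) (n2 := ndB4q1) (pc := pcB0) (cut := Cut.none) (xt := Ext.none) (P1 := 536870912) (W1 := 536870912) (P2 := 536870912) (W2 := 536870912) (P3 := 858993459) (W3 := 64424510) (N0 := 3) (En := eng) (mo := mog) (C1 := cd3q1) (C2 := cd4q1) (C3 := pd0)
    rfl k0_pp_101

noncomputable def f_pp_102 : ℕ → ℕ → ℕ → ℕ → Bool := onCell 536870912 536870912 1073741824 536870912 858993459 64424510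
    (rowB 3 eng mog cd3q1 cd4q2 pd0 0 false true true .npp 1 0 2 (qsf 536870912 536870912 1073741824 536870912 0) ndB3q1 ndB4q2 pcB0 Cut.none Ext.none)

def k0_pp_102 : ∃ t, chk3 f_pp_102 t 1 1 1 = true :=
  ⟨(l 3), by decide +kernel⟩

theorem c_pp_102 : CertB 536870912 536870912 1073741824 536870912 858993459 64424510 3 eng mog cd3q1 cd4q2 pd0 false true true .npp 1 0 2
    ndB3q1 ndB4q2 pcB0 Cut.none Ext.none :=
  certB0 (fam := false) (s1 := true) (s2 := true) (a := 1) (b := 0) (c := 2) (cn := .npp) (n1 := ndB3q1) (n2 := ndB4q2) (pc := pcB0) (cut := Cut.none) (xt := Ext.none) (P1 := 536870912) (W1 := 536870912) (P2 := 1073741824) (W2 := 536870912) (P3 := 858993459) (W3 := 64424510) (N0 := 3) (En := eng) (mo := mog) (C1 := cd3q1) (C2 := cd4q2) (C3 := pd0)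
    rfl k0_pp_102

noncomputable def f_pp_112 : ℕ → ℕ → ℕ → ℕ → Bool := onCell 536870912 536870912 1073741824 536870912 858993459 64424510
    (rowB 3 eng mog cd3q1 cd4q2 pd1 0 false true true .dn 1 1 2 (qsf 536870912 536870912 1073741824 536870912 1) ndB3q1 ndB4q2 pcB1 Cut.none Ext.none)

def k0_pp_112 : ∃ t, chk3 f_pp_112 t 1 1 1 = true :=
  ⟨(l 3), by decide +kernel⟩

theorem c_pp_112 : CertB 536870912 536870912 1073741824 536870912 858993459 64424510 3 eng mog cd3q1 cd4q2 pd1 false true true .dn 1 1 2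
    ndB3q1 ndB4q2 pcB1 Cut.none Ext.none :=
  certB0 (fam := false) (s1 := true) (s2 := true) (a := 1) (b := 1) (c := 2) (cn := .dn) (n1 := ndB3q1) (n2 := ndB4q2) (pc := pcB1) (cut := Cut.none) (xt := Ext.none) (P1 := 536870912) (W1 := 536870912) (P2 := 1073741824) (W2 := 536870912) (P3 := 858993459) (W3 := 64424510) (N0 := 3) (En := eng) (mo := mog) (C1 := cd3q1) (C2 := cd4q2) (C3 := pd1)
    rfl k0_pp_112

noncomputable def f_pp_113 : ℕ → ℕ → ℕ → ℕ → Bool := onCell 536870912 536870912 0 1230186008 858993459 64424510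
    (rowB 3 eng mog cd3q1 cd4q3 pd1 2 false true true .nn 1 1 3 (qsf 536870912 536870912 0 1230186008 1) ndB3q1 ndB4q3 pcB1 Cut.none Ext.none)

def k0_pp_113 : ∃ t, chk3 f_pp_113 t 1 1 1 = true :=
  ⟨(b (a (l 2) (a (l 2) (b (b (l 16436096) (l 16277816)) (b (l 926201184631) (a (l 638437770759) (l 16126632)))))) (a (b (b (l 2) (b (l 2) (l 3))) (l 3)) (b (a (b (a (l 2) (c (l 15670304) (l 15404112))) (a (b (a (l 681923401671) (l 15112008)) (a (l 3) (l 15111320))) (b (a (l 15390392) (l 15655368)) (a (l 15336360) (l 15582336))))) (a (b (a (l 15747184) (l 15875512)) (a (b (l 15793712) (l 15830712)) (l 15944560))) (b (b (l 16053992) (l 16070936)) (b (l 16109368) (l 16148408))))) (a (b (a (l 3) (b (l 416240527015) (l 3))) (l 3)) (b (a (b (a (l 15720832) (l 15918880)) (a (l 3) (l 15800168))) (b (l 16179768) (l 15971928))) (a (l 3) (b (l 15853024) (l 3)))))))), by decide +kernel⟩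

theorem c_pp_113 : CertB 536870912 536870912 0 1230186008 858993459 64424510 3 eng mog cd3q1 cd4q3 pd1 false true true .nn 1 1 3
    ndB3q1 ndB4q3 pcB1 Cut.none Ext.none :=
  certB2 (fam := false) (s1 := true) (s2 := true) (a := 1) (b := 1) (c := 3) (cn := .nn) (n1 := ndB3q1) (n2 := ndB4q3) (pc := pcB1) (cut := Cut.none) (xt := Ext.none) (P1 := 536870912) (W1 := 536870912) (P2 := 0) (W2 := 1230186008) (P3 := 858993459) (W3 := 64424510) (N0 := 3) (En := eng) (mo := mog) (C1 := cd3q1) (C2 := cd4q3) (C3 := pd1)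
    rfl (fun _ => rfl) k0_pp_113

end Pool.Agent.Strip051.G.I8000_8600.Tab.C.BB34

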