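import Pool.Agent.Strip051.PB.DgE
import Pool.Agent.Strip051.PB.DgJ
import Pool.Agent.Strip051.G.I8000_8600.Fact

/-! # The corner (1, 1, 2): parameters of the degenerate charts (generated) -/

set_option linter.all false

namespace Pool.Agent.Strip051.G.I8000_8600.Tab.DG

open Pool.Agent.Strip051.PB Pool.Agent.Strip051.PB.Dg Pool.Agent.StripNear Pool.Agent.Strip051.LC

noncomputable def pFma : Fn1 := ⟨_, _, fun h1 => (enc_norm (enc_sub (enc_rat _ 31483 100000) (enc_scale 423 500 (enc_subr 83 100 h1))))⟩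
noncomputable def pFmb : Fn1 := ⟨_, _, fun h1 => (enc_norm (enc_subr 32517 50000 (enc_neg (enc_scale 1579 2000 (enc_subr 83 100 h1)))))⟩
noncomputable def pFmu : Fn1 := ⟨_, _, fun h1 => (mug3.enc h1)⟩
noncomputable def pFnx : Fn1 := ⟨_, _, fun h1 => (enc_norm (enc_add h1 (enc_pnc _ 3)))⟩
noncomputable def pFc0 : Fn1 := ⟨_, _, fun h1 => (enc_pnc _ 1)⟩
noncomputable def pFkc : Fn1 := ⟨_, _, fun h1 => (enc_norm (enc_add (enc_scale 160121069 25000000 (enc_subr 83 100 h1)) (enc_rat _ 157565209 200000000)))⟩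
noncomputable def pFjc : Fn1 := ⟨_, _, fun h1 => (enc_norm (enc_sub (enc_rat _ 41893317 50000000) (enc_scale 143436653 5000000 (enc_subr 83 100 h1))))⟩
noncomputable def pFca : Fn1 := ⟨_, _, fun h1 => (enc_norm (enc_add (enc_scale 4217 200 (enc_subr 83 100 h1)) (enc_rat _ 67 1000)))⟩
noncomputable def pFcb : Fn1 := ⟨_, _, fun h1 => (enc_norm (enc_sub (enc_rat _ 673 2000) (enc_scale 829 200 (enc_subr 83 100 h1))))⟩
noncomputable def pFcc : Fn1 := ⟨_, _, fun h1 => (enc_norm (enc_subr 19369 1000 (enc_neg (enc_scale 86601 200 (enc_subr 83 100 h1)))))⟩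
noncomputable def pFsv : Fn1 := ⟨_, _, fun h1 => (enc_norm (enc_subr 1 16 h1))⟩
noncomputable def pFx11 : Fn1 := ⟨_, _, fun h1 => (cv1m.enc h1)⟩
noncomputable def pFx01 : Fn1 := ⟨_, _, fun h1 => (c1g.enc h1)⟩
noncomputable def pFK11 : Fn2 := ⟨_, _, fun h1 h2 => (kf1q1.enc h1 h2)⟩
noncomputable def pFK01 : Fn2 := ⟨_, _, fun h1 h2 => (kf0q1.enc h1 h2)⟩
noncomputable def pFL11 : Fn2 := ⟨_, _, fun h1 h2 => (l1q1.enc h1 h2)⟩
noncomputable def pFL01 : Fn2 := ⟨_, _, fun h1 h2 => (l0q1.enc h1 h2)⟩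
noncomputable def kFc0 : Fn1 := ⟨_, _, fun h1 => (enc_norm (enc_sub (enc_rat _ 1 100000000) (enc_scale 3 20000000 (enc_subr 83 100 h1))))⟩
noncomputable def kFc0g : Fn1 := ⟨_, _, fun h1 => (enc_norm (enc_scale 19543 25 (enc_subr 83 100 h1)))⟩
noncomputable def kFc1 : Fn1 := ⟨_, _, fun h1 => (enc_norm (enc_subr 1 40000000 (enc_scale 1 4000000 (enc_subr 83 100 h1))))⟩
noncomputable def kFc1g : Fn1 := ⟨_, _, fun h1 => (enc_rat _ 4597 125)⟩
noncomputable def kFa0 : Fn1 := ⟨_, _, fun h1 => (enc_pnc _ 0)⟩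
noncomputable def kFa0g : Fn1 := ⟨_, _, fun h1 => (enc_norm (enc_add (enc_scale 611 100 (enc_subr 83 100 h1)) (enc_rat _ 46 125)))⟩
noncomputable def kFa1 : Fn1 := ⟨_, _, fun h1 => (enc_pnc _ 0)⟩
noncomputable def kFa1g : Fn1 := ⟨_, _, fun h1 => (enc_norm (enc_sub (enc_rat _ 51 50) (enc_scale 11609 200 (enc_subr 83 100 h1))))⟩
noncomputable def kFa2 : Fn1 := ⟨_, _, fun h1 => (enc_pnc _ 0)⟩
noncomputable def kFa2g : Fn1 := ⟨_, _, fun h1 => (enc_norm (enc_subr 587 2000 (enc_neg (enc_scale 1943 100 (enc_subr 83 100 h1)))))⟩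
noncomputable def kFb0 : Fn1 := ⟨_, _, fun h1 => (enc_pnc _ 0)⟩
noncomputable def kFb0g : Fn1 := ⟨_, _, fun h1 => (enc_norm (enc_subr 609 2000 (enc_scale 391 100 (enc_subr 83 100 h1))))⟩
noncomputable def kFb1 : Fn1 := ⟨_, _, fun h1 => (enc_pnc _ 0)⟩
noncomputable def kFb1g : Fn1 := ⟨_, _, fun h1 => (enc_norm (enc_subr 21 1000 (enc_scale 6147 200 (enc_subr 83 100 h1))))⟩
noncomputable def kFd0 : Fn1 := ⟨_, _, fun h1 => (enc_pnc _ 0)⟩
noncomputable def kFd0g : Fn1 := ⟨_, _, fun h1 => (enc_norm (enc_subr 241 1000 (enc_scale 1393 100 (enc_subr 83 100 h1))))⟩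
noncomputable def kFd1 : Fn1 := ⟨_, _, fun h1 => (enc_pnc _ 0)⟩
noncomputable def kFd1g : Fn1 := ⟨_, _, fun h1 => (enc_norm (enc_sub (enc_rat _ 51 50) (enc_scale 11609 200 (enc_subr 83 100 h1))))⟩
noncomputable def kFd2 : Fn1 := ⟨_, _, fun h1 => (enc_pnc _ 0)⟩
noncomputable def kFd2g : Fn1 := ⟨_, _, fun h1 => (enc_norm (enc_subr 21 500 (enc_scale 6147 100 (enc_subr 83 100 h1))))⟩
noncomputable def kFd3 : Fn1 := ⟨_, _, fun h1 => (enc_pnc _ 0)⟩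
noncomputable def kFd3g : Fn1 := ⟨_, _, fun h1 => (enc_norm (enc_subr 587 2000 (enc_neg (enc_scale 1943 100 (enc_subr 83 100 h1)))))⟩
noncomputable def kFe0 : Fn1 := ⟨_, _, fun h1 => (enc_pnc _ 0)⟩
noncomputable def kFe0g : Fn1 := ⟨_, _, fun h1 => (enc_norm (enc_add (enc_scale 501 50 (enc_subr 83 100 h1)) (enc_rat _ 127 2000)))⟩
noncomputable def kFe1 : Fn1 := ⟨_, _, fun h1 => (enc_pnc _ 0)⟩
noncomputable def kFe1g : Fn1 := ⟨_, _, fun h1 => (enc_norm (enc_sub (enc_rat _ 51 50) (enc_scale 11609 200 (enc_subr 83 100 h1))))⟩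
noncomputable def kFe2 : Fn1 := ⟨_, _, fun h1 => (enc_pnc _ 0)⟩
noncomputable def kFe2g : Fn1 := ⟨_, _, fun h1 => (enc_norm (enc_subr 21 1000 (enc_scale 6147 200 (enc_subr 83 100 h1))))⟩
noncomputable def kFe3 : Fn1 := ⟨_, _, fun h1 => (enc_pnc _ 0)⟩
noncomputable def kFe3g : Fn1 := ⟨_, _, fun h1 => (enc_norm (enc_subr 587 2000 (enc_neg (enc_scale 1943 100 (enc_subr 83 100 h1)))))⟩
noncomputable def cFxs1 : Fn1 := ⟨_, _, fun h1 => (enc_norm (enc_add (enc_scale 3 5 (dgxi.enc h1)) (enc_scale 2 5 (dgws.enc h1))))⟩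
noncomputable def cFsB1 : Fn2 := ⟨_, _, fun h1 h2 => (enc_norm (enc_subr 6498 3125 (enc_neg (enc_scale 10834 625 (enc_subr 83 100 h2)))))⟩
noncomputable def cFBs1 : Fn2 := ⟨_, _, fun h1 h2 => (cFsB1.enc h1 h2)⟩
noncomputable def cFsX1 : Fn2 := ⟨_, _, fun h1 h2 => (enc_norm (enc_subr 1812 3125 (enc_neg (enc_scale 1311 625 (enc_subr 83 100 h2)))))⟩
noncomputable def cFsD1 : Fn2 := ⟨_, _, fun h1 h2 => (enc_pnc _ 0)⟩
noncomputable def cFsDD1 : Fn2 := ⟨_, _, fun h1 h2 => (cFsD1.enc h1 h2)⟩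
noncomputable def nFsc1 : Fn1 := ⟨_, _, fun h1 => (enc_scale 2 5 h1)⟩
noncomputable def nFB1_3 : Fn2 := ⟨_, _, fun h1 h2 => (enc_subr 83 100 h2)⟩
noncomputable def nFB1 : Fn2 := ⟨_, _, fun h1 h2 => (enc_norm (enc_add (enc_subr 76623 100000 (enc_scale 19973 10000 (nFB1_3.enc h1 h2))) (enc_mul h1 (enc_norm (enc_add (enc_scale 585700000 147732867 (nFB1_3.enc h1 h2)) (enc_rat _ 53540000 147732867))))))⟩
noncomputable def nFX1_3 : Fn2 := ⟨_, _, fun h1 h2 => (enc_subr 83 100 h2)⟩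
noncomputable def nFX1 : Fn2 := ⟨_, _, fun h1 h2 => (enc_norm (enc_add (enc_sub (enc_rat _ 3366 3125) (enc_scale 521 400 (nFX1_3.enc h1 h2))) (enc_mul h1 (enc_norm (enc_subr 11180000 49244289 (enc_scale 421900000 147732867 (nFX1_3.enc h1 h2)))))))⟩
noncomputable def nFD1_3 : Fn2 := ⟨_, _, fun h1 h2 => (enc_subr 83 100 h2)⟩
noncomputable def nFD1 : Fn2 := ⟨_, _, fun h1 h2 => (enc_norm (enc_add (enc_subr 157 1250 (enc_scale 763 200 (nFD1_3.enc h1 h2))) (enc_mul h1 (enc_norm (enc_sub (enc_rat _ 307025000 49244289) (enc_scale 953500000 147732867 (nFD1_3.enc h1 h2)))))))⟩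
noncomputable def nFsc2 : Fn1 := ⟨_, _, fun h1 => (enc_norm (enc_add (enc_scale 17 20 h1) (enc_rat _ 3 20)))⟩
noncomputable def nFB2 : Fn2 := ⟨_, _, fun h1 h2 => (enc_norm (enc_subr 715430000 429616471 (enc_scale 1146500000 429616471 (enc_subr 83 100 h2))))⟩
noncomputable def nFX2 : Fn2 := ⟨_, _, fun h1 h2 => (enc_norm (enc_add (enc_scale 1225100000 429616471 (enc_subr 83 100 h2)) (enc_rat _ 130605000 429616471)))⟩
noncomputable def nFD2 : Fn2 := ⟨_, _, fun h1 h2 => (enc_norm (enc_sub (enc_rat _ 2376081568118 123356943945) (enc_scale 8137396997531 98685555156 (enc_subr 83 100 h2))))⟩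
noncomputable def nFsc3 : Fn1 := ⟨_, _, fun h1 => (enc_norm (enc_add (enc_half h1) (enc_rat _ 1 2)))⟩
noncomputable def nFB3 : Fn2 := ⟨_, _, fun h1 h2 => (enc_norm (enc_subr 102947500 147732867 (enc_scale 30225000 16414763 (enc_subr 83 100 h2))))⟩
noncomputable def nFX3 : Fn2 := ⟨_, _, fun h1 h2 => (enc_norm (enc_sub (enc_rat _ 54785000 429616471) (enc_scale 1007900000 429616471 (enc_subr 83 100 h2))))⟩
noncomputable def nFD3 : Fn2 := ⟨_, _, fun h1 h2 => (enc_norm (enc_add (enc_scale 2719971500000 24671388789 (enc_subr 83 100 h2)) (enc_rat _ 119568025000 24671388789)))⟩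
noncomputable def l12F : List Knk := [⟨1, 20, kFc0, kFc0g⟩, ⟨9, 100, kFc1, kFc1g⟩]
noncomputable def laF : List Knk := [⟨1, 20, kFa0, kFa0g⟩, ⟨2, 25, kFa1, kFa1g⟩, ⟨11, 100, kFa2, kFa2g⟩]
noncomputable def lbF : List Knk := [⟨1, 20, kFb0, kFb0g⟩, ⟨1, 10, kFb1, kFb1g⟩]
noncomputable def l1F : List Knk := [⟨1, 20, kFe0, kFe0g⟩, ⟨2, 25, kFe1, kFe1g⟩, ⟨1, 10, kFe2, kFe2g⟩, ⟨11, 100, kFe3, kFe3g⟩]
noncomputable def l2F : List Knk := [⟨1, 20, kFd0, kFd0g⟩, ⟨2, 25, kFd1, kFd1g⟩, ⟨1, 10, kFd2, kFd2g⟩, ⟨11, 100, kFd3, kFd3g⟩]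
noncomputable def cvF1 : CvP := ⟨cFxs1, cFBs1, cFsX1⟩
noncomputable def ndF1 : NdU := ⟨nFsc1, nFB1, nFX1, nFD1⟩
noncomputable def ndF2 : NdU := ⟨nFsc2, nFB2, nFX2, nFD2⟩
noncomputable def ndF3 : NdU := ⟨nFsc3, nFB3, nFX3, nFD3⟩
noncomputable def pF : Pm := ⟨pFma, pFmb, pFmu, pFnx, pFc0, pFkc, pFjc, pFkc, pFjc, pFkc, pFjc, pFca, pFcb, pFcc, pFcc, pFcc, pFsv, l12F, l12F, l12F, laF, lbF, l1F, l2F, cvF1, pFx11, pFx01, pFK11, pFK01, pFL11, pFL01⟩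
noncomputable def pNc0 : Fn1 := ⟨_, _, fun h1 => (eng.enc h1)⟩
noncomputable def pNkc : Fn1 := ⟨_, _, fun h1 => (enc_norm (enc_mul (pNc0.enc h1) (enc_norm (enc_add (enc_scale 160121069 25000000 (enc_subr 83 100 h1)) (enc_rat _ 157565209 200000000)))))⟩
noncomputable def pNjc : Fn1 := ⟨_, _, fun h1 => (enc_norm (enc_mul (pNc0.enc h1) (enc_norm (enc_sub (enc_rat _ 41893317 50000000) (enc_scale 143436653 5000000 (enc_subr 83 100 h1))))))⟩
noncomputable def pNcc : Fn1 := ⟨_, _, fun h1 => (enc_norm (enc_mul (pNc0.enc h1) (enc_norm (enc_subr 19369 1000 (enc_neg (enc_scale 86601 200 (enc_subr 83 100 h1)))))))⟩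
noncomputable def pNK11 : Fn2 := ⟨_, _, fun h1 h2 => (enc_norm (enc_mul (pNc0.enc h2) (kf1q1.enc h1 h2)))⟩
noncomputable def pNK01 : Fn2 := ⟨_, _, fun h1 h2 => (enc_norm (enc_mul (pNc0.enc h2) (kf0q1.enc h1 h2)))⟩
noncomputable def kNc0 : Fn1 := ⟨_, _, fun h1 => (enc_norm (enc_mul (pNc0.enc h1) (enc_norm (enc_sub (enc_rat _ 1 100000000) (enc_scale 3 20000000 (enc_subr 83 100 h1))))))⟩
noncomputable def kNc0g : Fn1 := ⟨_, _, fun h1 => (enc_norm (enc_mul (pNc0.enc h1) (enc_norm (enc_scale 19543 25 (enc_subr 83 100 h1)))))⟩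
noncomputable def kNc1 : Fn1 := ⟨_, _, fun h1 => (enc_norm (enc_mul (pNc0.enc h1) (enc_norm (enc_subr 1 40000000 (enc_scale 1 4000000 (enc_subr 83 100 h1))))))⟩
noncomputable def kNc1g : Fn1 := ⟨_, _, fun h1 => (enc_scale 4597 125 (pNc0.enc h1))⟩
noncomputable def cNBs1 : Fn2 := ⟨_, _, fun h1 h2 => (enc_norm (enc_mul (pNc0.enc h2) (cFsB1.enc h1 h2)))⟩
noncomputable def nNB1_4 : Fn2 := ⟨_, _, fun h1 h2 => (enc_subr 83 100 h2)⟩
noncomputable def nNB1 : Fn2 := ⟨_, _, fun h1 h2 => (enc_norm (enc_mul (pNc0.enc h2) (enc_norm (enc_add (enc_subr 76623 100000 (enc_scale 19973 10000 (nNB1_4.enc h1 h2))) (enc_mul h1 (enc_norm (enc_add (enc_scale 585700000 147732867 (nNB1_4.enc h1 h2)) (enc_rat _ 53540000 147732867))))))))⟩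
noncomputable def nNB2 : Fn2 := ⟨_, _, fun h1 h2 => (enc_norm (enc_mul (pNc0.enc h2) (enc_norm (enc_subr 715430000 429616471 (enc_scale 1146500000 429616471 (enc_subr 83 100 h2))))))⟩
noncomputable def nNB3 : Fn2 := ⟨_, _, fun h1 h2 => (enc_norm (enc_mul (pNc0.enc h2) (enc_norm (enc_subr 102947500 147732867 (enc_scale 30225000 16414763 (enc_subr 83 100 h2))))))⟩
noncomputable def umo : Fn1 := ⟨_, _, fun h1 => (mog.enc h1)⟩
noncomputable def us1 : Fn1 := ⟨_, _, fun h1 => (enc_norm (enc_sub (enc_rat _ 14009273789109 1242500000000) (enc_scale 11012134512249 2485000000000 (enc_subr 83 100 h1))))⟩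
noncomputable def us2 : Fn1 := ⟨_, _, fun h1 => (enc_pnc _ 0)⟩
noncomputable def us3 : Fn1 := ⟨_, _, fun h1 => (enc_norm (enc_subr 567 167 (enc_scale 15033 167 (enc_subr 83 100 h1))))⟩
noncomputable def uC11 : Fn2 := ⟨_, _, fun h1 h2 => (kc1q1.enc h1 h2)⟩
noncomputable def uC01 : Fn2 := ⟨_, _, fun h1 h2 => (kc0q1.enc h1 h2)⟩
noncomputable def l12N : List Knk := [⟨1, 20, kNc0, kNc0g⟩, ⟨9, 100, kNc1, kNc1g⟩]
noncomputable def cvN1 : CvP := ⟨cFxs1, cNBs1, cFsX1⟩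
noncomputable def ndN1 : NdU := ⟨nFsc1, nNB1, nFX1, nFD1⟩
noncomputable def ndN2 : NdU := ⟨nFsc2, nNB2, nFX2, nFD2⟩
noncomputable def ndN3 : NdU := ⟨nFsc3, nNB3, nFX3, nFD3⟩
noncomputable def pN : Pm := ⟨pFma, pFmb, pFmu, pFnx, pNc0, pNkc, pNjc, pNkc, pNjc, pNkc, pNjc, pFca, pFcb, pNcc, pNcc, pNcc, pFsv, l12N, l12N, l12N, laF, lbF, l1F, l2F, cvN1, pFx11, pFx01, pNK11, pNK01, pFL11, pFL01⟩
noncomputable def ul1 : List Knk := []
noncomputable def ul2 : List Knk := []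
noncomputable def ul3 : List Knk := []
noncomputable def qN : Pu := ⟨umo, us1, us2, us3, ul1, ul2, ul3, cFsDD1, uC11, uC01⟩

end Pool.Agent.Strip051.G.I8000_8600.Tab.DG
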