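import Pool.Agent.Strip051.PB.FlAsmX
import Pool.Agent.Strip051.G.I8000_8600.Tab

/-! # Slopes (generated) -/

set_option linter.all false

namespace Pool.Agent.Strip051.G.I8000_8600.Tab

open Pool.Agent.Strip051.PB

attribute [local irreducible] padd psub pneg pmul psq pinv psqrt psqrtg pabs pps pmax pmin pphi
  plam pcase phf pnat prat pscale pnorm pdc pnc pone ppos pnn

noncomputable def c1g_fs : Sl1 c1g := ⟨_, fun h1 => (pr_sqrtg (pr_csub (enc_pnc _ 1) (pr_scale 3 4 (pr_sq h1))))⟩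
noncomputable def kcg_6_fs : Sl2 kcg_6 := ⟨_, fun h1 h2 => (pr_addc h1 (enc_rat _ 517 1531))⟩
noncomputable def kcg_9_fs : Sl2 kcg_9 := ⟨_, fun h1 h2 => (pr_addc h1 (enc_rat _ 41 100))⟩
noncomputable def kcg_12_fs : Sl2 kcg_12 := ⟨_, fun h1 h2 => (pr_addc h1 (enc_rat _ 9 20))⟩
noncomputable def kcg_13_fs : Sl2 kcg_13 := ⟨_, fun h1 h2 => (pr_scale 6529183 50000000 h1)⟩
noncomputable def kcg_17_fs : Sl2 kcg_17 := ⟨_, fun h1 h2 => (pr_scale 251687903 5000000 h1)⟩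
noncomputable def kcg_36_fs : Sl2 kcg_36 := ⟨_, fun h1 h2 => (pr_scale 37475873 20000000 h1)⟩
noncomputable def kcg_39_fs : Sl2 kcg_39 := ⟨_, fun h1 h2 => (pr_scale 232156923 4000000 h1)⟩
noncomputable def kcg_54_fs : Sl2 kcg_54 := ⟨_, fun h1 h2 => (pr_addc h1 (enc_rat _ 37 100))⟩
noncomputable def kcg_55_fs : Sl2 kcg_55 := ⟨_, fun h1 h2 => (pr_scale 78090947 40000000 h1)⟩
noncomputable def kcg_58_fs : Sl2 kcg_58 := ⟨_, fun h1 h2 => (pr_scale 60284061 2000000 h1)⟩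
noncomputable def kcg_69_fs : Sl2 kcg_69 := ⟨_, fun h1 h2 => (pr_scale 485421922 386484375 h1)⟩
noncomputable def kcg_73_fs : Sl2 kcg_73 := ⟨_, fun h1 h2 => (pr_scale 3630963999 1649000000 h1)⟩
noncomputable def kcg_88_fs : Sl2 kcg_88 := ⟨_, fun h1 h2 => (pr_addc h1 (enc_rat _ 4 25))⟩
noncomputable def kcg_91_fs : Sl2 kcg_91 := ⟨_, fun h1 h2 => (pr_addc h1 (enc_rat _ 563 2611))⟩
noncomputable def kcg_92_fs : Sl2 kcg_92 := ⟨_, fun h1 h2 => (pr_scale 150567616703441 121983500000000 h1)⟩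
noncomputable def kcg_96_fs : Sl2 kcg_96 := ⟨_, fun h1 h2 => (pr_scale 50432223331007 48793400000000 h1)⟩
noncomputable def kcg_111_fs : Sl2 kcg_111 := ⟨_, fun h1 h2 => (pr_scale 199596926319 145240000000 h1)⟩
noncomputable def kcg_115_fs : Sl2 kcg_115 := ⟨_, fun h1 h2 => (pr_scale 143069632727 7262000000 h1)⟩
noncomputable def kcg_134_fs : Sl2 kcg_134 := ⟨_, fun h1 h2 => (pr_addc h1 (enc_rat _ 3 25))⟩
noncomputable def kcg_135_fs : Sl2 kcg_135 := ⟨_, fun h1 h2 => (pr_scale 177507 100000 h1)⟩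
noncomputable def kcg_139_fs : Sl2 kcg_139 := ⟨_, fun h1 h2 => (pr_scale 199893 10000 h1)⟩
noncomputable def kcg_156_fs : Sl2 kcg_156 := ⟨_, fun h1 h2 => (pr_scale 225351 100000 h1)⟩
noncomputable def kcg_160_fs : Sl2 kcg_160 := ⟨_, fun h1 h2 => (pr_scale 28871 10000 h1)⟩
noncomputable def kcg_171_fs : Sl2 kcg_171 := ⟨_, fun h1 h2 => (pr_scale 249273 100000 h1)⟩
noncomputable def kcg_175_fs : Sl2 kcg_175 := ⟨_, fun h1 h2 => (pr_cmul (enc_norm (kcg_3.enc h1.l h2)) (pr_nd (pr_scale 202073 10000 h1)))⟩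
noncomputable def kcg_183_fs : Sl2 kcg_183 := ⟨_, fun h1 h2 => (pr_csub (enc_rat _ 517 1531) h1)⟩
noncomputable def kcg_184_fs : Sl2 kcg_184 := ⟨_, fun h1 h2 => (pr_csub (enc_rat _ 41 100) h1)⟩
noncomputable def kcg_185_fs : Sl2 kcg_185 := ⟨_, fun h1 h2 => (pr_csub (enc_rat _ 9 20) h1)⟩
noncomputable def kcg_208_fs : Sl2 kcg_208 := ⟨_, fun h1 h2 => (pr_csub (enc_rat _ 37 100) h1)⟩
noncomputable def kcg_231_fs : Sl2 kcg_231 := ⟨_, fun h1 h2 => (pr_csub (enc_rat _ 4 25) h1)⟩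
noncomputable def kcg_232_fs : Sl2 kcg_232 := ⟨_, fun h1 h2 => (pr_csub (enc_rat _ 563 2611) h1)⟩
noncomputable def kcg_254_fs : Sl2 kcg_254 := ⟨_, fun h1 h2 => (pr_csub (enc_rat _ 3 25) h1)⟩
noncomputable def kcg_fs : Sl2 kcg := ⟨_, fun h1 h2 => (pr_norm (pr_case h1 (pr_case (kcg_6_fs.snd h1 h2) (pr_case (kcg_9_fs.snd h1 h2) (pr_case (kcg_12_fs.snd h1 h2) (pr_add (pr_add (pr_subr 144506843 200000000 (kcg_13_fs.snd h1 h2)) (pr_cmul (enc_norm (kcg_3.enc h1.l h2)) (pr_norm (pr_addc (kcg_17_fs.snd h1 h2) (enc_rat _ 938197377 50000000))))) (pr_cmul (enc_norm (kcg_28.enc h1.l h2)) (pr_norm (pr_mul (pr_norm (pr_addc h1 (enc_rat _ 1 2))) (pr_norm (pr_csub (enc_neg (enc_rat _ 9 20)) h1)))))) (pr_add (pr_add (pr_addc (kcg_36_fs.snd h1 h2) (enc_rat _ 123820561 2000000000)) (pr_cmul (enc_norm (kcg_3.enc h1.l h2)) (pr_norm (pr_addc (kcg_39_fs.snd h1 h2) (enc_rat _ 8891876043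 400000000))))) (pr_cmul (enc_norm (kcg_46.enc h1.l h2)) (pr_norm (pr_mul (pr_norm (kcg_12_fs.snd h1 h2)) (pr_norm (pr_csub (enc_neg (enc_rat _ 41 100)) h1))))))) (pr_case (kcg_54_fs.snd h1 h2) (pr_add (pr_add (pr_addc (kcg_55_fs.snd h1 h2) (enc_rat _ 376348363 4000000000)) (pr_cmul (enc_norm (kcg_3.enc h1.l h2)) (pr_norm (pr_addc (kcg_58_fs.snd h1 h2) (enc_rat _ 2158367601 200000000))))) (pr_cmul (enc_norm (kcg_64.enc h1.l h2)) (pr_norm (pr_mul (pr_norm (kcg_9_fs.snd h1 h2)) (pr_norm (pr_csub (enc_neg (enc_rat _ 37 100)) h1)))))) (pr_add (pr_add (pr_subr 809015151451 4947000000000 (kcg_69_fs.snd h1 h2)) (pr_cmul (enc_norm (kcg_3.enc h1.l h2)) (pr_norm (pr_addc (kcg_73_fs.snd h1 h2) (enc_rat _ 74864048091 164900000000))))) (pr_cmul (enc_norm (kcg_79.enc h1.l h2)) (pr_norm (pr_mul (pr_norm (kcg_54_fs.snd h1 h2)) (pr_norm (pr_csub (enc_neg (enc_rat _ 517 1531))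 h1)))))))) (pr_case (kcg_88_fs.snd h1 h2) (pr_case (kcg_91_fs.snd h1 h2) (pr_add (pr_add (pr_subr 41682453550537 243967000000000 (kcg_92_fs.snd h1 h2)) (pr_cmul (enc_norm (kcg_3.enc h1.l h2)) (pr_norm (pr_addc (kcg_96_fs.snd h1 h2) (enc_rat _ 580302748951 9758680000000))))) (pr_cmul (enc_norm (kcg_106.enc h1.l h2)) (pr_norm (pr_mul (pr_norm (kcg_6_fs.snd h1 h2)) (pr_norm (pr_csub (enc_neg (enc_rat _ 563 2611)) h1)))))) (pr_add (pr_add (pr_subr 127702866081 907750000000 (kcg_111_fs.snd h1 h2)) (pr_cmul (enc_norm (kcg_3.enc h1.l h2)) (pr_norm (pr_addc (kcg_115_fs.snd h1 h2) (enc_rat _ 185393294927 45387500000))))) (pr_cmul (enc_norm (kcg_126.enc h1.l h2)) (pr_norm (pr_mul (pr_norm (kcg_91_fs.snd h1 h2)) (pr_norm (pr_csub (enc_neg (enc_rat _ 4 25)) h1))))))) (pr_case (kcg_134_fs.snd h1 h2) (pr_add (pr_add (pr_subr 11961 156250 (kcg_135_fs.snd h1 h2)) (pr_cmul (enc_norm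 (kcg_3.enc h1.l h2)) (pr_norm (pr_addc (kcg_139_fs.snd h1 h2) (enc_rat _ 129087 31250))))) (pr_cmul (enc_norm (kcg_148.enc h1.l h2)) (pr_norm (pr_mul (pr_norm (kcg_88_fs.snd h1 h2)) (pr_norm (pr_csub (enc_neg (enc_rat _ 3 25)) h1)))))) (pr_case (pr_addc h1 (enc_rat _ 2 25)) (pr_add (pr_add (pr_subr 11961 625000 (kcg_156_fs.snd h1 h2)) (pr_cmul (enc_norm (kcg_3.enc h1.l h2)) (pr_norm (pr_csub (enc_rat _ 86601 62500) (kcg_160_fs.snd h1 h2))))) (pr_cmul (enc_norm (kcg_166.enc h1.l h2)) (pr_norm (pr_mul (pr_norm (kcg_134_fs.snd h1 h2)) (pr_norm (pr_csub (enc_neg (enc_rat _ 2 25)) h1)))))) (pr_sub (kcg_171_fs.snd h1 h2) (kcg_175_fs.snd h1 h2)))))) (pr_neg (pr_case (kcg_183_fs.snd h1 h2) (pr_case (kcg_184_fs.snd h1 h2) (pr_case (kcg_185_fs.snd h1 h2) (pr_add (pr_add (pr_subr 144506843 200000000 (pr_neg (kcg_13_fs.snd h1 h2))) (pr_cmul (enc_norm (kcg_3.enc h1.l h2))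 (pr_norm (pr_csub (enc_rat _ 938197377 50000000) (kcg_17_fs.snd h1 h2))))) (pr_cmul (enc_norm (kcg_28.enc h1.l h2)) (pr_norm (pr_mul (pr_norm (pr_csub (enc_rat _ 1 2) h1)) (pr_norm (pr_subr 9 20 h1)))))) (pr_add (pr_add (pr_csub (enc_rat _ 123820561 2000000000) (kcg_36_fs.snd h1 h2)) (pr_cmul (enc_norm (kcg_3.enc h1.l h2)) (pr_norm (pr_csub (enc_rat _ 8891876043 400000000) (kcg_39_fs.snd h1 h2))))) (pr_cmul (enc_norm (kcg_46.enc h1.l h2)) (pr_norm (pr_mul (pr_norm (kcg_185_fs.snd h1 h2)) (pr_norm (pr_subr 41 100 h1))))))) (pr_case (kcg_208_fs.snd h1 h2) (pr_add (pr_add (pr_csub (enc_rat _ 376348363 4000000000) (kcg_55_fs.snd h1 h2)) (pr_cmul (enc_norm (kcg_3.enc h1.l h2)) (pr_norm (pr_csub (enc_rat _ 2158367601 200000000) (kcg_58_fs.snd h1 h2))))) (pr_cmul (enc_norm (kcg_64.enc h1.l h2)) (pr_norm (pr_mul (pr_norm (kcg_184_fs.snd h1 h2)) (pr_norm (pr_subr 37 100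 h1)))))) (pr_add (pr_add (pr_subr 809015151451 4947000000000 (pr_neg (kcg_69_fs.snd h1 h2))) (pr_cmul (enc_norm (kcg_3.enc h1.l h2)) (pr_norm (pr_csub (enc_rat _ 74864048091 164900000000) (kcg_73_fs.snd h1 h2))))) (pr_cmul (enc_norm (kcg_79.enc h1.l h2)) (pr_norm (pr_mul (pr_norm (kcg_208_fs.snd h1 h2)) (pr_norm (pr_subr 517 1531 h1)))))))) (pr_case (kcg_231_fs.snd h1 h2) (pr_case (kcg_232_fs.snd h1 h2) (pr_add (pr_add (pr_subr 41682453550537 243967000000000 (pr_neg (kcg_92_fs.snd h1 h2))) (pr_cmul (enc_norm (kcg_3.enc h1.l h2)) (pr_norm (pr_csub (enc_rat _ 580302748951 9758680000000) (kcg_96_fs.snd h1 h2))))) (pr_cmul (enc_norm (kcg_106.enc h1.l h2)) (pr_norm (pr_mul (pr_norm (kcg_183_fs.snd h1 h2)) (pr_norm (pr_subr 563 2611 h1)))))) (pr_add (pr_add (pr_subr 127702866081 907750000000 (pr_neg (kcg_111_fs.snd h1 h2))) (pr_cmul (enc_norm (kcg_3.enc h1.l h2)) (pr_norm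 (pr_csub (enc_rat _ 185393294927 45387500000) (kcg_115_fs.snd h1 h2))))) (pr_cmul (enc_norm (kcg_126.enc h1.l h2)) (pr_norm (pr_mul (pr_norm (kcg_232_fs.snd h1 h2)) (pr_norm (pr_subr 4 25 h1))))))) (pr_case (kcg_254_fs.snd h1 h2) (pr_add (pr_add (pr_subr 11961 156250 (pr_neg (kcg_135_fs.snd h1 h2))) (pr_cmul (enc_norm (kcg_3.enc h1.l h2)) (pr_norm (pr_csub (enc_rat _ 129087 31250) (kcg_139_fs.snd h1 h2))))) (pr_cmul (enc_norm (kcg_148.enc h1.l h2)) (pr_norm (pr_mul (pr_norm (kcg_231_fs.snd h1 h2)) (pr_norm (pr_subr 3 25 h1)))))) (pr_case (pr_csub (enc_rat _ 2 25) h1) (pr_add (pr_add (pr_subr 11961 625000 (pr_neg (kcg_156_fs.snd h1 h2))) (pr_cmul (enc_norm (kcg_3.enc h1.l h2)) (pr_norm (pr_addc (kcg_160_fs.snd h1 h2) (enc_rat _ 86601 62500))))) (pr_cmul (enc_norm (kcg_166.enc h1.l h2)) (pr_norm (pr_mul (pr_norm (kcg_254_fs.snd h1 h2)) (pr_norm (pr_subr 2 25 h1))))))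 (pr_sub (kcg_175_fs.snd h1 h2) (kcg_171_fs.snd h1 h2)))))))))⟩
noncomputable def kf0q0_9_fs : Sl2 kf0q0_9 := ⟨_, fun h1 h2 => (pr_scale 3 2 h1)⟩
noncomputable def kf0q0_12_fs : Sl2 kf0q0_12 := ⟨_, fun h1 h2 => (pr_cadd (enc_pnc _ 1) (c1g_fs.snd h1))⟩
noncomputable def kf0q0_fs : Sl2 kf0q0 := ⟨_, fun h1 h2 => (pr_norm (pr_add (pr_mul (pr_norm (pr_mul (pr_norm (pr_sub (c1g_fs.snd h1) (kf0q0_9_fs.snd h1 h2))) (pr_norm (kf0q0_12_fs.snd h1 h2)))) (pr_nd (pr_inv (pr_sub (kf0q0_12_fs.snd h1 h2) (kf0q0_9_fs.snd h1 h2))))) (pr_mul h1 (kcg_fs.snd (pr_norm (pr_sub (pr_scale 3 4 h1) (pr_half (c1g_fs.snd h1)))) h2))))⟩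
noncomputable def txg_6_fs : Sl3 txg_6 := ⟨_, fun h1 h2 h3 => (pr_add h1 (pr_half h2))⟩
noncomputable def txg_26_fs : Sl3 txg_26 := ⟨_, fun h1 h2 h3 => (pr_addc h1 (enc_rat _ 1 4))⟩
noncomputable def txg_29_fs : Sl3 txg_29 := ⟨_, fun h1 h2 h3 => (pr_addc h1 (enc_rat _ 39 100))⟩
noncomputable def txg_32_fs : Sl3 txg_32 := ⟨_, fun h1 h2 h3 => (pr_addc h1 (enc_rat _ 9 20))⟩
noncomputable def txg_57_fs : Sl3 txg_57 := ⟨_, fun h1 h2 h3 => (pr_addc h1 (enc_rat _ 21 50))⟩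
noncomputable def txg_98_fs : Sl3 txg_98 := ⟨_, fun h1 h2 h3 => (pr_addc h1 (enc_rat _ 33 100))⟩
noncomputable def txg_101_fs : Sl3 txg_101 := ⟨_, fun h1 h2 h3 => (pr_addc h1 (enc_rat _ 9 25))⟩
noncomputable def txg_144_fs : Sl3 txg_144 := ⟨_, fun h1 h2 h3 => (pr_addc h1 (enc_rat _ 3 10))⟩
noncomputable def txg_189_fs : Sl3 txg_189 := ⟨_, fun h1 h2 h3 => (pr_addc h1 (enc_rat _ 1 10))⟩
noncomputable def txg_192_fs : Sl3 txg_192 := ⟨_, fun h1 h2 h3 => (pr_addc h1 (enc_rat _ 1 5))⟩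
noncomputable def txg_211_fs : Sl3 txg_211 := ⟨_, fun h1 h2 h3 => (pr_addc h1 (enc_rat _ 3 20))⟩
noncomputable def txg_249_fs : Sl3 txg_249 := ⟨_, fun h1 h2 h3 => (pr_subr 7 50 h1)⟩
noncomputable def txg_250_fs : Sl3 txg_250 := ⟨_, fun h1 h2 h3 => (pr_subr 1 10 h1)⟩
noncomputable def txg_289_fs : Sl3 txg_289 := ⟨_, fun h1 h2 h3 => (pr_subr 9 50 h1)⟩
noncomputable def txg_342_fs : Sl3 txg_342 := ⟨_, fun h1 h2 h3 => (pr_subr 517 1531 h1)⟩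
noncomputable def txg_344_fs : Sl3 txg_344 := ⟨_, fun h1 h2 h3 => (pr_subr 2 5 h1)⟩
noncomputable def txg_345_fs : Sl3 txg_345 := ⟨_, fun h1 h2 h3 => (pr_subr 9 25 h1)⟩
noncomputable def txg_395_fs : Sl3 txg_395 := ⟨_, fun h1 h2 h3 => (pr_subr 9 20 h1)⟩
noncomputable def txg_fs : Sl3 txg := ⟨_, fun h1 h2 h3 => (pr_case (pr_subr 563 2611 h1) (pr_case (txg_26_fs.snd h1 h2 h3) (pr_case (txg_29_fs.snd h1 h2 h3) (pr_case (txg_32_fs.snd h1 h2 h3) (pr_add (pr_add (pr_addc (pr_scale 15909 50000 h1) (enc_rat _ 15909 100000)) (pr_cmul (enc_norm (txg_4.enc h1.l h2.l h3)) (pr_norm (pr_addc (pr_scale 833 4000 h1) (enc_rat _ 833 8000))))) (pr_cmul (enc_norm (enc_subr 67 1000 (enc_neg (enc_scale 4217 200 (txg_4.enc h1.l h2.l h3))))) (pr_norm (pr_mul (pr_norm (pr_addc h1 (enc_rat _ 1 2))) (pr_norm (pr_csub (enc_neg (enc_rat _ 9 20)) h1)))))) (pr_case (txg_57_fs.snd h1 h2 h3)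 (pr_add (pr_add (pr_addc (pr_scale 16729 50000 h1) (enc_rat _ 16647 100000)) (pr_cmul (enc_norm (txg_4.enc h1.l h2.l h3)) (pr_norm (pr_addc (pr_scale 41567 20000 h1) (enc_rat _ 94567 100000))))) (pr_cmul (enc_norm (enc_subr 87 200 (enc_neg (enc_scale 5439 200 (txg_4.enc h1.l h2.l h3))))) (pr_norm (pr_mul (pr_norm (txg_32_fs.snd h1 h2 h3)) (pr_norm (pr_csub (enc_neg (enc_rat _ 21 50)) h1)))))) (pr_add (pr_add (pr_addc (pr_scale 4891 12500 h1) (enc_rat _ 47571 250000)) (pr_cmul (enc_norm (txg_4.enc h1.l h2.l h3)) (pr_norm (pr_addc (pr_scale 19687 10000 h1) (enc_rat _ 899617 1000000))))) (pr_cmul (enc_norm (enc_subr 291 200 (enc_scale 617 20 (txg_4.enc h1.l h2.l h3)))) (pr_norm (pr_mul (pr_norm (txg_57_fs.snd h1 h2 h3)) (pr_norm (pr_csub (enc_neg (enc_rat _ 39 100)) h1)))))))) (pr_case (txg_98_fs.snd h1 h2 h3) (pr_case (txg_101_fs.snd h1 h2 h3) (pr_add (pr_add (pr_addc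 (pr_scale 18791 40000 h1) (enc_rat _ 4417941 20000000)) (pr_cmul (enc_norm (txg_4.enc h1.l h2.l h3)) (pr_norm (pr_subr 12401 250000 (pr_neg (pr_scale 1163 2500 h1)))))) (pr_cmul (enc_norm (enc_subr 2323 2000 (enc_scale 1257 25 (txg_4.enc h1.l h2.l h3)))) (pr_norm (pr_mul (pr_norm (txg_29_fs.snd h1 h2 h3)) (pr_norm (pr_csub (enc_neg (enc_rat _ 9 25)) h1)))))) (pr_add (pr_add (pr_addc (pr_scale 67399 200000 h1) (enc_rat _ 138477 800000)) (pr_cmul (enc_norm (txg_4.enc h1.l h2.l h3)) (pr_norm (pr_subr 128401 500000 (pr_neg (pr_scale 4163 4000 h1)))))) (pr_cmul (enc_norm (enc_sub (enc_rat _ 447 80) (enc_scale 6219 200 (txg_4.enc h1.l h2.l h3)))) (pr_norm (pr_mul (pr_norm (txg_101_fs.snd h1 h2 h3)) (pr_norm (pr_csub (enc_neg (enc_rat _ 33 100)) h1))))))) (pr_case (txg_144_fs.snd h1 h2 h3) (pr_add (pr_add (pr_addc (pr_scale 1123 5000 h1) (enc_rat _ 1360059 10000000))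 (pr_cmul (enc_norm (txg_4.enc h1.l h2.l h3)) (pr_norm (pr_subr 18703 2000000 (pr_neg (pr_scale 2909 10000 h1)))))) (pr_cmul (enc_norm (enc_subr 1841 1000 (enc_scale 61 10 (txg_4.enc h1.l h2.l h3)))) (pr_norm (pr_mul (pr_norm (txg_98_fs.snd h1 h2 h3)) (pr_norm (pr_csub (enc_neg (enc_rat _ 3 10)) h1)))))) (pr_add (pr_add (pr_addc (pr_scale 58401 200000 h1) (enc_rat _ 781137 5000000)) (pr_cmul (enc_norm (txg_4.enc h1.l h2.l h3)) (pr_norm (pr_csub (enc_rat _ 58397 2000000) (pr_scale 203 1250 h1))))) (pr_cmul (enc_norm (enc_subr 487 2000 (enc_neg (enc_scale 623 100 (txg_4.enc h1.l h2.l h3))))) (pr_norm (pr_mul (pr_norm (txg_144_fs.snd h1 h2 h3)) (pr_norm (pr_csub (enc_neg (enc_rat _ 1 4)) h1))))))))) (pr_case (txg_189_fs.snd h1 h2 h3) (pr_case (txg_192_fs.snd h1 h2 h3) (pr_add (pr_add (pr_addc (pr_scale 27823 100000 h1) (enc_rat _ 3055673 20000000)) (pr_cmul (enc_norm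 (txg_4.enc h1.l h2.l h3)) (pr_norm (pr_addc (pr_scale 2777 20000 h1) (enc_rat _ 104511 1000000))))) (pr_cmul (enc_norm (enc_add (enc_scale 41 200 (txg_4.enc h1.l h2.l h3)) (enc_rat _ 519 1000))) (pr_norm (pr_mul (pr_norm (txg_26_fs.snd h1 h2 h3)) (pr_norm (pr_csub (enc_neg (enc_rat _ 1 5)) h1)))))) (pr_case (txg_211_fs.snd h1 h2 h3) (pr_add (pr_add (pr_addc (pr_scale 49261 200000 h1) (enc_rat _ 2927973 20000000)) (pr_cmul (enc_norm (txg_4.enc h1.l h2.l h3)) (pr_norm (pr_addc (pr_scale 1751 10000 h1) (enc_rat _ 111761 1000000))))) (pr_cmul (enc_norm (enc_sub (enc_rat _ 239 2000) (enc_scale 93 100 (txg_4.enc h1.l h2.l h3)))) (pr_norm (pr_mul (pr_norm (txg_192_fs.snd h1 h2 h3)) (pr_norm (pr_csub (enc_neg (enc_rat _ 3 20)) h1)))))) (pr_add (pr_add (pr_addc (pr_scale 46871 200000 h1) (enc_rat _ 2892123 20000000)) (pr_cmul (enc_norm (txg_4.enc h1.l h2.l h3)) (pr_norm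 (pr_csub (enc_rat _ 27193 500000) (pr_scale 1037 5000 h1))))) (pr_cmul (enc_norm (enc_add (enc_scale 429 50 (txg_4.enc h1.l h2.l h3)) (enc_rat _ 239 2000))) (pr_norm (pr_mul (pr_norm (txg_211_fs.snd h1 h2 h3)) (pr_norm (pr_csub (enc_neg (enc_rat _ 1 10)) h1)))))))) (pr_case (txg_249_fs.snd h1 h2 h3) (pr_case (txg_250_fs.snd h1 h2 h3) (pr_add (pr_add (pr_addc (pr_scale 4329 50000 h1) (enc_rat _ 2596573 20000000)) (pr_cmul (enc_norm (txg_4.enc h1.l h2.l h3)) (pr_norm (pr_addc (pr_scale 41 625 h1) (enc_rat _ 40843 500000))))) (pr_cmul (enc_norm (enc_sub (enc_rat _ 709 1000) (enc_scale 351 100 (txg_4.enc h1.l h2.l h3)))) (pr_norm (pr_mul (pr_norm (txg_189_fs.snd h1 h2 h3)) (pr_norm (pr_csub (enc_rat _ 1 10) h1)))))) (pr_add (pr_add (pr_csub (enc_rat _ 2864573 20000000) (pr_scale 2371 50000 h1)) (pr_cmul (enc_norm (txg_4.enc h1.l h2.l h3)) (pr_norm (pr_addc (pr_scale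 2613 5000 h1) (enc_rat _ 17993 500000))))) (pr_cmul (enc_norm (enc_subr 39 200 (enc_scale 49 8 (txg_4.enc h1.l h2.l h3)))) (pr_norm (pr_mul (pr_norm (txg_250_fs.snd h1 h2 h3)) (pr_norm (pr_csub (enc_rat _ 7 50) h1))))))) (pr_case (txg_289_fs.snd h1 h2 h3) (pr_add (pr_add (pr_csub (enc_rat _ 2906293 20000000) (pr_scale 779 12500 h1)) (pr_cmul (enc_norm (txg_4.enc h1.l h2.l h3)) (pr_norm (pr_addc (pr_scale 99 1250 h1) (enc_rat _ 49031 500000))))) (pr_cmul (enc_norm (enc_add (enc_scale 124 25 (txg_4.enc h1.l h2.l h3)) (enc_rat _ 227 400))) (pr_norm (pr_mul (pr_norm (txg_249_fs.snd h1 h2 h3)) (pr_norm (pr_csub (enc_rat _ 9 50) h1)))))) (pr_add (pr_add (pr_add (pr_csub (enc_rat _ 92932094630205331 607188050000000000) (pr_scale 1278885369994759 12143761000000000 h1)) (pr_cmul (enc_norm (txg_4.enc h1.l h2.l h3)) (pr_norm (pr_addc (pr_scale 5370548737247 151797012500000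 h1) (enc_rat _ 804141903863527 7589850625000000))))) (pr_cmul (txg_320.enc h1.l h2.l h3) (pr_norm (pr_subr 24485960529 116275000000 (pr_scale 2720662281 2325500000 h1))))) (pr_cmul (enc_norm (enc_add (enc_mul (enc_norm (enc_subr 4339 1000 (enc_neg (enc_scale 821 25 (txg_4.enc h1.l h2.l h3))))) (enc_norm (txg_4.enc h1.l h2.l h3))) (enc_rat _ 356 625))) (pr_norm (pr_mul (pr_norm (txg_289_fs.snd h1 h2 h3)) (pr_norm (pr_csub (enc_rat _ 563 2611) h1)))))))))) (pr_case (txg_342_fs.snd h1 h2 h3) (pr_sub (pr_mul (pr_norm (pr_csub (enc_pnc _ 1) h2)) (pr_norm (pr_subn 1 (pr_nat 2 h2)))) (pr_mul (pr_norm (pr_nat 2 (pr_subc (pr_scale 4 3 (txg_6_fs.snd h1 h2 h3)) h3))) (pr_norm (pr_mul (pr_norm (pr_subn 1 (pr_add (pr_scale 2 3 (txg_6_fs.snd h1 h2 h3)) h2))) (kcg_fs.snd h1 h3))))) (pr_case (txg_344_fs.snd h1 h2 h3) (pr_case (txg_345_fs.snd h1 h2 h3) (pr_add (pr_add (pr_add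 (pr_csub (enc_rat _ 2518464029446339 9339100000000000) (pr_scale 189600919052371 373564000000000 h1)) (pr_cmul (enc_norm (txg_4.enc h1.l h2.l h3)) (pr_norm (pr_subr 476621282757969 6537370000000000 (pr_scale 133531005556441 261494800000000 h1))))) (pr_cmul (txg_320.enc h1.l h2.l h3) (pr_norm (pr_csub (enc_rat _ 4951551411 6100000000) (pr_scale 550172379 244000000 h1))))) (pr_cmul (enc_norm (enc_add (enc_mul (enc_norm (enc_subr 3932 125 (enc_neg (enc_scale 5053 50 (txg_4.enc h1.l h2.l h3))))) (enc_norm (txg_4.enc h1.l h2.l h3))) (enc_rat _ 2943 625))) (pr_norm (pr_mul (pr_norm (txg_342_fs.snd h1 h2 h3)) (pr_norm (pr_csub (enc_rat _ 9 25) h1)))))) (pr_add (pr_add (pr_csub (enc_rat _ 1230601 4000000) (pr_scale 12261 20000 h1)) (pr_cmul (enc_norm (txg_4.enc h1.l h2.l h3)) (pr_norm (pr_csub (enc_rat _ 909 8000) (pr_scale 3 400 h1))))) (pr_cmul (enc_norm (enc_add (enc_scale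 61 2 (txg_4.enc h1.l h2.l h3)) (enc_rat _ 11 1000))) (pr_norm (pr_mul (pr_norm (txg_345_fs.snd h1 h2 h3)) (pr_norm (pr_csub (enc_rat _ 2 5) h1))))))) (pr_case (txg_395_fs.snd h1 h2 h3) (pr_add (pr_add (pr_csub (enc_rat _ 246773 800000) (pr_scale 61509 100000 h1)) (pr_cmul (enc_norm (txg_4.enc h1.l h2.l h3)) (pr_norm (pr_csub (enc_rat _ 23877 40000) (pr_scale 4863 4000 h1))))) (pr_cmul (enc_norm (enc_sub (enc_rat _ 4 125) (enc_scale 47 200 (txg_4.enc h1.l h2.l h3)))) (pr_norm (pr_mul (pr_norm (txg_344_fs.snd h1 h2 h3)) (pr_norm (pr_csub (enc_rat _ 9 20) h1)))))) (pr_add (pr_add (pr_csub (enc_rat _ 126703 400000) (pr_scale 126703 200000 h1)) (pr_cmul (enc_norm (txg_4.enc h1.l h2.l h3)) (pr_norm (pr_csub (enc_rat _ 3987 8000) (pr_scale 3987 4000 h1))))) (pr_cmul (enc_norm (enc_sub (enc_rat _ 673 2000) (enc_scale 829 200 (txg_4.enc h1.l h2.l h3)))) (pr_norm (pr_mul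 (pr_norm (txg_395_fs.snd h1 h2 h3)) (pr_norm (pr_csub (enc_rat _ 1 2) h1))))))))))⟩
noncomputable def l0q0_fs : Sl2 l0q0 := ⟨_, fun h1 h2 => (pr_norm (txg_fs.snd (pr_norm (pr_sub (pr_scale 3 4 h1) (pr_half (c1g_fs.snd h1)))) (pr_nd (c1g_fs.snd h1)) h2))⟩
noncomputable def swg_fs : Sl1 swg := ⟨_, fun h1 => (pr_sqrt (pr_csub (enc_pnc _ 1) (pr_scale 3 4 (pr_sq (pr_norm (pr_subn 1 h1))))))⟩
noncomputable def cv1m_fs : Sl1 cv1m := ⟨_, fun h1 => (pr_norm (pr_add (pr_scale 3 5 (c1g_fs.snd h1)) (pr_scale 2 5 (pr_addc (swg_fs.snd h1) (enc_rat _ 1 2)))))⟩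
noncomputable def bf1q0_fs : Sl2 bf1q0 := ⟨_, fun h1 h2 => (pr_norm (pr_case (pr_subr 1 16 h1) (pr_sub (pr_csub (enc_pnc _ 1) (pr_scale 10309 6250 h1)) (pr_cmul (enc_norm (bf1q0_3.enc h1.l h2)) (pr_nd (pr_scale 91 25 h1)))) (pr_case (pr_subr 3 25 h1) (pr_add (pr_csub (enc_rat _ 1150009 1150000) (pr_scale 1897 1150 h1)) (pr_cmul (enc_norm (bf1q0_3.enc h1.l h2)) (pr_norm (pr_subr 1101 4600 (pr_scale 109 575 h1))))) (pr_add (pr_csub (enc_rat _ 183319 190000) (pr_scale 25773 19000 h1)) (pr_cmul (enc_norm (bf1q0_3.enc h1.l h2)) (pr_norm (pr_subr 11361 47500 (pr_scale 143 760 h1))))))))⟩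
noncomputable def kf1q0_fs : Sl2 kf1q0 := ⟨_, fun h1 h2 => (pr_norm (pr_mul (cv1m_fs.snd h1) (bf1q0_fs.snd h1 h2)))⟩
noncomputable def bx1q0_fs : Sl2 bx1q0 := ⟨_, fun h1 h2 => (pr_norm (pr_case (pr_subr 3 25 h1) (pr_case (pr_subr 1 16 h1) (pr_add (pr_scale 1462 3125 h1) (pr_cmul (enc_norm (bx1q0_3.enc h1.l h2)) (pr_nd (pr_scale 9 25 h1)))) (pr_add (pr_addc (pr_scale 1002 2875 h1) (enc_rat _ 536 71875)) (pr_cmul (enc_norm (bx1q0_3.enc h1.l h2)) (pr_norm (pr_subr 1 9200 (pr_scale 208 575 h1)))))) (pr_case (pr_subr 11 50 h1) (pr_add (pr_addc (pr_scale 2353 10000 h1) (enc_rat _ 5261 250000)) (pr_cmul (enc_norm (bx1q0_3.enc h1.l h2)) (pr_norm (pr_subr 8653 50000 (pr_scale 1803 1000 h1))))) (pr_add (pr_addc (pr_scale 2033 28000 h1) (enc_rat _ 79571 1400000)) (pr_cmul (enc_norm (bx1q0_3.enc h1.l h2)) (pr_norm (pr_csub (enc_rat _ 46099 140000) (pr_scale 269 560 h1))))))))⟩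
noncomputable def l1q0_fs : Sl2 l1q0 := ⟨_, fun h1 h2 => (pr_norm (pr_mul (cv1m_fs.snd h1) (bx1q0_fs.snd h1 h2)))⟩
noncomputable def kf0q1_10_fs : Sl2 kf0q1_10 := ⟨_, fun h1 h2 => (pr_scale 3 2 h1)⟩
noncomputable def kf0q1_fs : Sl2 kf0q1 := ⟨_, fun h1 h2 => (pr_norm (pr_add (pr_mul (pr_norm (pr_mul (pr_norm (pr_cadd (enc_pnc _ 1) (pr_nat 2 (c1g_fs.snd h1)))) (pr_norm (pr_sub (kf0q1_10_fs.snd h1 h2) (c1g_fs.snd h1))))) (pr_nd (pr_inv (pr_nat 2 (pr_sub (pr_cadd (enc_pnc _ 1) (kf0q1_10_fs.snd h1 h2)) (c1g_fs.snd h1)))))) (pr_mul (pr_norm (pr_subn 1 h1)) (kcg_fs.snd (pr_norm (pr_sub (pr_scale 3 4 h1) (pr_half (c1g_fs.snd h1)))) h2))))⟩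
noncomputable def l0q1_fs : Sl2 l0q1 := ⟨_, fun h1 h2 => (pr_norm (txg_fs.snd (pr_norm (pr_sub (pr_scale 3 4 h1) (pr_half (c1g_fs.snd h1)))) (pr_nd (c1g_fs.snd h1)) h2))⟩
noncomputable def cv1p_fs : Sl1 cv1p := ⟨_, fun h1 => (pr_norm (pr_add (pr_scale 3 5 (c1g_fs.snd h1)) (pr_scale 2 5 (pr_subr 1 2 (swg_fs.snd h1)))))⟩
noncomputable def bf1q2_fs : Sl2 bf1q2 := ⟨_, fun h1 h2 => (pr_norm (pr_case (pr_subr 277 250 h1) (pr_case (pr_subr 17 16 h1) (pr_add (pr_csub (enc_rat _ 9623 3125) (pr_scale 6498 3125 h1)) (pr_cmul (enc_norm (bf1q2_3.enc h1.l h2)) (pr_norm (pr_csub (enc_rat _ 10834 625) (pr_scale 10834 625 h1))))) (pr_add (pr_csub (enc_rat _ 34749739 9100000) (pr_scale 12627 4550 h1)) (pr_cmul (enc_norm (bf1q2_3.enc h1.l h2)) (pr_norm (pr_subr 2348717 130000 (pr_scale 1039 65 h1)))))) (pr_case (pr_subr 577 500 h1) (pr_add (pr_csub (enc_rat _ 2195626067 575000000)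 (pr_scale 6382521 2300000 h1)) (pr_cmul (enc_norm (bf1q2_3.enc h1.l h2)) (pr_norm (pr_subr 4823689267 57500000 (pr_scale 17340121 230000 h1))))) (pr_case (pr_subr 231 200 h1) (pr_add (pr_csub (enc_rat _ 349273 100000) (pr_scale 249273 100000 h1)) (pr_cmul (enc_norm (bf1q2_3.enc h1.l h2)) (pr_norm (pr_subr 202073 10000 (pr_scale 202073 10000 h1))))) (pr_add (pr_csub (enc_rat _ 16066481 4600000) (pr_scale 17199737 6900000 h1)) (pr_cmul (enc_norm (bf1q2_3.enc h1.l h2)) (pr_norm (pr_subr 1859087 92000 (pr_scale 13943137 690000 h1)))))))))⟩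
noncomputable def kf1q2_fs : Sl2 kf1q2 := ⟨_, fun h1 h2 => (pr_norm (pr_mul (cv1p_fs.snd h1) (bf1q2_fs.snd h1 h2)))⟩
noncomputable def bx1q2_fs : Sl2 bx1q2 := ⟨_, fun h1 h2 => (pr_norm (pr_case (pr_subr 577 500 h1) (pr_case (pr_subr 17 16 h1) (pr_add (pr_csub (enc_rat _ 1812 3125) (pr_scale 1812 3125 h1)) (pr_cmul (enc_norm (bx1q2_3.enc h1.l h2)) (pr_norm (pr_csub (enc_rat _ 1311 625) (pr_scale 1311 625 h1))))) (pr_case (pr_subr 277 250 h1) (pr_subc (pr_csub (enc_rat _ 288788 284375) (pr_scale 2252 2275 h1)) (enc_scale 1311 10000 (bx1q2_3.enc h1.l h2))) (pr_add (pr_csub (enc_rat _ 612901 287500) (pr_scale 2297 1150 h1)) (pr_cmul (enc_norm (bx1q2_3.enc h1.l h2)) (pr_norm (pr_subr 29599 230000 (pr_neg (pr_scale 1 460 h1)))))))) (pr_casec1 (pr_subr 231 200 h1) (enc_sub (enc_neg (enc_rat _ 4329 25000)) (enc_scale 82 625 (bx1q2_3.enc h1.l h2))) (pr_case (pr_subr 1213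 1000 h1) (pr_add (pr_subr 11229543 5800000 (pr_scale 8853 5800 h1)) (pr_cmul (enc_norm (bx1q2_3.enc h1.l h2)) (pr_norm (pr_subr 77251 580000 (pr_scale 1 580 h1))))) (pr_add (pr_subr 7942789 4100000 (pr_scale 3131 2050 h1)) (pr_cmul (enc_norm (bx1q2_3.enc h1.l h2)) (pr_norm (pr_subr 307033 287000 (pr_scale 2221 2870 h1)))))))))⟩
noncomputable def l1q2_fs : Sl2 l1q2 := ⟨_, fun h1 h2 => (pr_norm (pr_mul (cv1p_fs.snd h1) (bx1q2_fs.snd h1 h2)))⟩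
noncomputable def dlg : Fn2 := ⟨_, _, fun h1 h2 => (kcg.enc (enc_norm (enc_sub (enc_scale 3 4 h1) (enc_half (c1g.enc h1)))) h2)⟩
noncomputable def kq02_6 : Fn2 := ⟨_, _, fun h1 h2 => (enc_scale 202073 10000 h2)⟩
noncomputable def kq02 : Fn2 := ⟨_, _, fun h1 h2 => (enc_norm (enc_add (enc_sub (enc_rat _ 20264789 1000000) (kq02_6.enc h1 h2)) (enc_mul (enc_norm (enc_subr 19264789 1000000 (kq02_6.enc h1 h2))) (yag.enc h1))))⟩
noncomputable def lq02 : Fn2 := ⟨_, _, fun h1 h2 => (enc_norm (enc_sub (enc_neg (enc_rat _ 8033 125000)) (enc_scale 82 625 h2)))⟩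
noncomputable def cq02 : Fn2 := ⟨_, _, fun h1 h2 => (enc_pnc _ 0)⟩
noncomputable def pcE0 : Piece := ⟨Fn3.sc eng rsbq0, rlq0⟩
noncomputable def pcE1 : Piece := ⟨Fn3.sc eng rsbq1, rlq1⟩
noncomputable def pcE2 : Piece := ⟨Fn3.sc eng rsbq2, rlq2⟩
noncomputable def pcE3 : Piece := ⟨Fn3.sc eng rsbq3, rlq3⟩

end Pool.Agent.Strip051.G.I8000_8600.Tab
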