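import Pool.Agent.Strip051.G.I8000_8600.Tab
import Pool.Agent.Strip051.PB.C12G
import Pool.Agent.Strip051.PB.PairB

/-! # Slopes of the tables near the lattice heights (generated) -/

set_option linter.all false

namespace Pool.Agent.Strip051.G.I8000_8600.Tab

open Pool.Agent.Strip051.PB

attribute [local irreducible] padd psub pneg pmul psq pinv psqrt psqrtg pabs pps pmax pmin pphi plam
  pcase phf pnat prat pscale pnorm pdc pnc pone ppos pnn Enc pbad pzero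

noncomputable def idf_s : Sl1 idf := ⟨fun _ _ D => D, fun h => h⟩

theorem cv1r_two {b : ℝ} (h : b = 2) : cv1r.v b = 0 := by
  have e : swg.v = swn := by funext y; simp [swg, swn]
  subst h
  simp only [cv1r, e, swn_two]
  push_cast
  ring
noncomputable def c1g_s : Sl1 c1g := ⟨_, fun h1 => (pr_sqrtgz (pr_csub (enc_pnc _ 1) (pr_scale 3 4 (pr_sq h1))))⟩
noncomputable def kcg_6_s : Sl2 kcg_6 := ⟨_, fun h1 h2 => (pr_addc h1 (enc_rat _ 517 1531))⟩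
noncomputable def kcg_9_s : Sl2 kcg_9 := ⟨_, fun h1 h2 => (pr_addc h1 (enc_rat _ 41 100))⟩
noncomputable def kcg_12_s : Sl2 kcg_12 := ⟨_, fun h1 h2 => (pr_addc h1 (enc_rat _ 9 20))⟩
noncomputable def kcg_13_s : Sl2 kcg_13 := ⟨_, fun h1 h2 => (pr_scale 6529183 50000000 h1)⟩
noncomputable def kcg_17_s : Sl2 kcg_17 := ⟨_, fun h1 h2 => (pr_scale 251687903 5000000 h1)⟩
noncomputable def kcg_36_s : Sl2 kcg_36 := ⟨_, fun h1 h2 => (pr_scale 37475873 20000000 h1)⟩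
noncomputable def kcg_39_s : Sl2 kcg_39 := ⟨_, fun h1 h2 => (pr_scale 232156923 4000000 h1)⟩
noncomputable def kcg_54_s : Sl2 kcg_54 := ⟨_, fun h1 h2 => (pr_addc h1 (enc_rat _ 37 100))⟩
noncomputable def kcg_55_s : Sl2 kcg_55 := ⟨_, fun h1 h2 => (pr_scale 78090947 40000000 h1)⟩
noncomputable def kcg_58_s : Sl2 kcg_58 := ⟨_, fun h1 h2 => (pr_scale 60284061 2000000 h1)⟩
noncomputable def kcg_69_s : Sl2 kcg_69 := ⟨_, fun h1 h2 => (pr_scale 485421922 386484375 h1)⟩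
noncomputable def kcg_73_s : Sl2 kcg_73 := ⟨_, fun h1 h2 => (pr_scale 3630963999 1649000000 h1)⟩
noncomputable def kcg_88_s : Sl2 kcg_88 := ⟨_, fun h1 h2 => (pr_addc h1 (enc_rat _ 4 25))⟩
noncomputable def kcg_91_s : Sl2 kcg_91 := ⟨_, fun h1 h2 => (pr_addc h1 (enc_rat _ 563 2611))⟩
noncomputable def kcg_92_s : Sl2 kcg_92 := ⟨_, fun h1 h2 => (pr_scale 150567616703441 121983500000000 h1)⟩
noncomputable def kcg_96_s : Sl2 kcg_96 := ⟨_, fun h1 h2 => (pr_scale 50432223331007 48793400000000 h1)⟩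
noncomputable def kcg_111_s : Sl2 kcg_111 := ⟨_, fun h1 h2 => (pr_scale 199596926319 145240000000 h1)⟩
noncomputable def kcg_115_s : Sl2 kcg_115 := ⟨_, fun h1 h2 => (pr_scale 143069632727 7262000000 h1)⟩
noncomputable def kcg_134_s : Sl2 kcg_134 := ⟨_, fun h1 h2 => (pr_addc h1 (enc_rat _ 3 25))⟩
noncomputable def kcg_135_s : Sl2 kcg_135 := ⟨_, fun h1 h2 => (pr_scale 177507 100000 h1)⟩
noncomputable def kcg_139_s : Sl2 kcg_139 := ⟨_, fun h1 h2 => (pr_scale 199893 10000 h1)⟩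
noncomputable def kcg_156_s : Sl2 kcg_156 := ⟨_, fun h1 h2 => (pr_scale 225351 100000 h1)⟩
noncomputable def kcg_160_s : Sl2 kcg_160 := ⟨_, fun h1 h2 => (pr_scale 28871 10000 h1)⟩
noncomputable def kcg_171_s : Sl2 kcg_171 := ⟨_, fun h1 h2 => (pr_scale 249273 100000 h1)⟩
noncomputable def kcg_175_s : Sl2 kcg_175 := ⟨_, fun h1 h2 => (pr_cmul (enc_norm (kcg_3.enc h1.l h2)) (pr_nd (pr_scale 202073 10000 h1)))⟩
noncomputable def kcg_183_s : Sl2 kcg_183 := ⟨_, fun h1 h2 => (pr_csub (enc_rat _ 517 1531) h1)⟩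
noncomputable def kcg_184_s : Sl2 kcg_184 := ⟨_, fun h1 h2 => (pr_csub (enc_rat _ 41 100) h1)⟩
noncomputable def kcg_185_s : Sl2 kcg_185 := ⟨_, fun h1 h2 => (pr_csub (enc_rat _ 9 20) h1)⟩
noncomputable def kcg_208_s : Sl2 kcg_208 := ⟨_, fun h1 h2 => (pr_csub (enc_rat _ 37 100) h1)⟩
noncomputable def kcg_231_s : Sl2 kcg_231 := ⟨_, fun h1 h2 => (pr_csub (enc_rat _ 4 25) h1)⟩
noncomputable def kcg_232_s : Sl2 kcg_232 := ⟨_, fun h1 h2 => (pr_csub (enc_rat _ 563 2611) h1)⟩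
noncomputable def kcg_254_s : Sl2 kcg_254 := ⟨_, fun h1 h2 => (pr_csub (enc_rat _ 3 25) h1)⟩
noncomputable def kcg_s : Sl2 kcg := ⟨_, fun h1 h2 => (pr_norm (pr_case h1 (pr_case (kcg_6_s.snd h1 h2) (pr_case (kcg_9_s.snd h1 h2) (pr_case (kcg_12_s.snd h1 h2) (pr_add (pr_add (pr_subr 144506843 200000000 (kcg_13_s.snd h1 h2)) (pr_cmul (enc_norm (kcg_3.enc h1.l h2)) (pr_norm (pr_addc (kcg_17_s.snd h1 h2) (enc_rat _ 938197377 50000000))))) (pr_cmul (enc_norm (kcg_28.enc h1.l h2)) (pr_norm (pr_mul (pr_norm (pr_addc h1 (enc_rat _ 1 2))) (pr_norm (pr_csub (enc_neg (enc_rat _ 9 20)) h1)))))) (pr_add (pr_add (pr_addc (kcg_36_s.snd h1 h2) (enc_rat _ 123820561 2000000000)) (pr_cmul (enc_norm (kcg_3.enc h1.l h2)) (pr_norm (pr_addc (kcg_39_s.snd h1 h2) (enc_rat _ 8891876043 400000000))))) (pr_cmul (enc_norm (kcg_46.enc h1.l h2)) (pr_norm (pr_mul (pr_norm (kcg_12_s.snd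 h1 h2)) (pr_norm (pr_csub (enc_neg (enc_rat _ 41 100)) h1))))))) (pr_case (kcg_54_s.snd h1 h2) (pr_add (pr_add (pr_addc (kcg_55_s.snd h1 h2) (enc_rat _ 376348363 4000000000)) (pr_cmul (enc_norm (kcg_3.enc h1.l h2)) (pr_norm (pr_addc (kcg_58_s.snd h1 h2) (enc_rat _ 2158367601 200000000))))) (pr_cmul (enc_norm (kcg_64.enc h1.l h2)) (pr_norm (pr_mul (pr_norm (kcg_9_s.snd h1 h2)) (pr_norm (pr_csub (enc_neg (enc_rat _ 37 100)) h1)))))) (pr_add (pr_add (pr_subr 809015151451 4947000000000 (kcg_69_s.snd h1 h2)) (pr_cmul (enc_norm (kcg_3.enc h1.l h2)) (pr_norm (pr_addc (kcg_73_s.snd h1 h2) (enc_rat _ 74864048091 164900000000))))) (pr_cmul (enc_norm (kcg_79.enc h1.l h2)) (pr_norm (pr_mul (pr_norm (kcg_54_s.snd h1 h2)) (pr_norm (pr_csub (enc_neg (enc_rat _ 517 1531)) h1)))))))) (pr_case (kcg_88_s.snd h1 h2) (pr_case (kcg_91_s.snd h1 h2) (pr_add (pr_add (pr_subr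 41682453550537 243967000000000 (kcg_92_s.snd h1 h2)) (pr_cmul (enc_norm (kcg_3.enc h1.l h2)) (pr_norm (pr_addc (kcg_96_s.snd h1 h2) (enc_rat _ 580302748951 9758680000000))))) (pr_cmul (enc_norm (kcg_106.enc h1.l h2)) (pr_norm (pr_mul (pr_norm (kcg_6_s.snd h1 h2)) (pr_norm (pr_csub (enc_neg (enc_rat _ 563 2611)) h1)))))) (pr_add (pr_add (pr_subr 127702866081 907750000000 (kcg_111_s.snd h1 h2)) (pr_cmul (enc_norm (kcg_3.enc h1.l h2)) (pr_norm (pr_addc (kcg_115_s.snd h1 h2) (enc_rat _ 185393294927 45387500000))))) (pr_cmul (enc_norm (kcg_126.enc h1.l h2)) (pr_norm (pr_mul (pr_norm (kcg_91_s.snd h1 h2)) (pr_norm (pr_csub (enc_neg (enc_rat _ 4 25)) h1))))))) (pr_case (kcg_134_s.snd h1 h2) (pr_add (pr_add (pr_subr 11961 156250 (kcg_135_s.snd h1 h2)) (pr_cmul (enc_norm (kcg_3.enc h1.l h2)) (pr_norm (pr_addc (kcg_139_s.snd h1 h2) (enc_rat _ 129087 31250)))))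 (pr_cmul (enc_norm (kcg_148.enc h1.l h2)) (pr_norm (pr_mul (pr_norm (kcg_88_s.snd h1 h2)) (pr_norm (pr_csub (enc_neg (enc_rat _ 3 25)) h1)))))) (pr_case (pr_addc h1 (enc_rat _ 2 25)) (pr_add (pr_add (pr_subr 11961 625000 (kcg_156_s.snd h1 h2)) (pr_cmul (enc_norm (kcg_3.enc h1.l h2)) (pr_norm (pr_csub (enc_rat _ 86601 62500) (kcg_160_s.snd h1 h2))))) (pr_cmul (enc_norm (kcg_166.enc h1.l h2)) (pr_norm (pr_mul (pr_norm (kcg_134_s.snd h1 h2)) (pr_norm (pr_csub (enc_neg (enc_rat _ 2 25)) h1)))))) (pr_sub (kcg_171_s.snd h1 h2) (kcg_175_s.snd h1 h2)))))) (pr_neg (pr_case (kcg_183_s.snd h1 h2) (pr_case (kcg_184_s.snd h1 h2) (pr_case (kcg_185_s.snd h1 h2) (pr_add (pr_add (pr_subr 144506843 200000000 (pr_neg (kcg_13_s.snd h1 h2))) (pr_cmul (enc_norm (kcg_3.enc h1.l h2)) (pr_norm (pr_csub (enc_rat _ 938197377 50000000) (kcg_17_s.snd h1 h2))))) (pr_cmul (enc_norm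 (kcg_28.enc h1.l h2)) (pr_norm (pr_mul (pr_norm (pr_csub (enc_rat _ 1 2) h1)) (pr_norm (pr_subr 9 20 h1)))))) (pr_add (pr_add (pr_csub (enc_rat _ 123820561 2000000000) (kcg_36_s.snd h1 h2)) (pr_cmul (enc_norm (kcg_3.enc h1.l h2)) (pr_norm (pr_csub (enc_rat _ 8891876043 400000000) (kcg_39_s.snd h1 h2))))) (pr_cmul (enc_norm (kcg_46.enc h1.l h2)) (pr_norm (pr_mul (pr_norm (kcg_185_s.snd h1 h2)) (pr_norm (pr_subr 41 100 h1))))))) (pr_case (kcg_208_s.snd h1 h2) (pr_add (pr_add (pr_csub (enc_rat _ 376348363 4000000000) (kcg_55_s.snd h1 h2)) (pr_cmul (enc_norm (kcg_3.enc h1.l h2)) (pr_norm (pr_csub (enc_rat _ 2158367601 200000000) (kcg_58_s.snd h1 h2))))) (pr_cmul (enc_norm (kcg_64.enc h1.l h2)) (pr_norm (pr_mul (pr_norm (kcg_184_s.snd h1 h2)) (pr_norm (pr_subr 37 100 h1)))))) (pr_add (pr_add (pr_subr 809015151451 4947000000000 (pr_neg (kcg_69_s.snd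 h1 h2))) (pr_cmul (enc_norm (kcg_3.enc h1.l h2)) (pr_norm (pr_csub (enc_rat _ 74864048091 164900000000) (kcg_73_s.snd h1 h2))))) (pr_cmul (enc_norm (kcg_79.enc h1.l h2)) (pr_norm (pr_mul (pr_norm (kcg_208_s.snd h1 h2)) (pr_norm (pr_subr 517 1531 h1)))))))) (pr_case (kcg_231_s.snd h1 h2) (pr_case (kcg_232_s.snd h1 h2) (pr_add (pr_add (pr_subr 41682453550537 243967000000000 (pr_neg (kcg_92_s.snd h1 h2))) (pr_cmul (enc_norm (kcg_3.enc h1.l h2)) (pr_norm (pr_csub (enc_rat _ 580302748951 9758680000000) (kcg_96_s.snd h1 h2))))) (pr_cmul (enc_norm (kcg_106.enc h1.l h2)) (pr_norm (pr_mul (pr_norm (kcg_183_s.snd h1 h2)) (pr_norm (pr_subr 563 2611 h1)))))) (pr_add (pr_add (pr_subr 127702866081 907750000000 (pr_neg (kcg_111_s.snd h1 h2))) (pr_cmul (enc_norm (kcg_3.enc h1.l h2)) (pr_norm (pr_csub (enc_rat _ 185393294927 45387500000) (kcg_115_s.snd h1 h2)))))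 (pr_cmul (enc_norm (kcg_126.enc h1.l h2)) (pr_norm (pr_mul (pr_norm (kcg_232_s.snd h1 h2)) (pr_norm (pr_subr 4 25 h1))))))) (pr_case (kcg_254_s.snd h1 h2) (pr_add (pr_add (pr_subr 11961 156250 (pr_neg (kcg_135_s.snd h1 h2))) (pr_cmul (enc_norm (kcg_3.enc h1.l h2)) (pr_norm (pr_csub (enc_rat _ 129087 31250) (kcg_139_s.snd h1 h2))))) (pr_cmul (enc_norm (kcg_148.enc h1.l h2)) (pr_norm (pr_mul (pr_norm (kcg_231_s.snd h1 h2)) (pr_norm (pr_subr 3 25 h1)))))) (pr_case (pr_csub (enc_rat _ 2 25) h1) (pr_add (pr_add (pr_subr 11961 625000 (pr_neg (kcg_156_s.snd h1 h2))) (pr_cmul (enc_norm (kcg_3.enc h1.l h2)) (pr_norm (pr_addc (kcg_160_s.snd h1 h2) (enc_rat _ 86601 62500))))) (pr_cmul (enc_norm (kcg_166.enc h1.l h2)) (pr_norm (pr_mul (pr_norm (kcg_254_s.snd h1 h2)) (pr_norm (pr_subr 2 25 h1)))))) (pr_sub (kcg_175_s.snd h1 h2) (kcg_171_s.snd h1 h2)))))))))⟩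
noncomputable def kf0q0_9_s : Sl2 kf0q0_9 := ⟨_, fun h1 h2 => (pr_scale 3 2 h1)⟩
noncomputable def kf0q0_12_s : Sl2 kf0q0_12 := ⟨_, fun h1 h2 => (pr_cadd (enc_pnc _ 1) (c1g_s.snd h1))⟩
noncomputable def kf0q0_s : Sl2 kf0q0 := ⟨_, fun h1 h2 => (pr_norm (pr_add (pr_mul (pr_norm (pr_mul (pr_norm (pr_sub (c1g_s.snd h1) (kf0q0_9_s.snd h1 h2))) (pr_norm (kf0q0_12_s.snd h1 h2)))) (pr_nd (pr_inv (pr_sub (kf0q0_12_s.snd h1 h2) (kf0q0_9_s.snd h1 h2))))) (pr_mul h1 (kcg_s.snd (pr_norm (pr_sub (pr_scale 3 4 h1) (pr_half (c1g_s.snd h1)))) h2))))⟩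
noncomputable def txg_6_s : Sl3 txg_6 := ⟨_, fun h1 h2 h3 => (pr_add h1 (pr_half h2))⟩
noncomputable def txg_26_s : Sl3 txg_26 := ⟨_, fun h1 h2 h3 => (pr_addc h1 (enc_rat _ 1 4))⟩
noncomputable def txg_29_s : Sl3 txg_29 := ⟨_, fun h1 h2 h3 => (pr_addc h1 (enc_rat _ 39 100))⟩
noncomputable def txg_32_s : Sl3 txg_32 := ⟨_, fun h1 h2 h3 => (pr_addc h1 (enc_rat _ 9 20))⟩
noncomputable def txg_57_s : Sl3 txg_57 := ⟨_, fun h1 h2 h3 => (pr_addc h1 (enc_rat _ 21 50))⟩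
noncomputable def txg_98_s : Sl3 txg_98 := ⟨_, fun h1 h2 h3 => (pr_addc h1 (enc_rat _ 33 100))⟩
noncomputable def txg_101_s : Sl3 txg_101 := ⟨_, fun h1 h2 h3 => (pr_addc h1 (enc_rat _ 9 25))⟩
noncomputable def txg_144_s : Sl3 txg_144 := ⟨_, fun h1 h2 h3 => (pr_addc h1 (enc_rat _ 3 10))⟩
noncomputable def txg_189_s : Sl3 txg_189 := ⟨_, fun h1 h2 h3 => (pr_addc h1 (enc_rat _ 1 10))⟩
noncomputable def txg_192_s : Sl3 txg_192 := ⟨_, fun h1 h2 h3 => (pr_addc h1 (enc_rat _ 1 5))⟩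
noncomputable def txg_211_s : Sl3 txg_211 := ⟨_, fun h1 h2 h3 => (pr_addc h1 (enc_rat _ 3 20))⟩
noncomputable def txg_249_s : Sl3 txg_249 := ⟨_, fun h1 h2 h3 => (pr_subr 7 50 h1)⟩
noncomputable def txg_250_s : Sl3 txg_250 := ⟨_, fun h1 h2 h3 => (pr_subr 1 10 h1)⟩
noncomputable def txg_289_s : Sl3 txg_289 := ⟨_, fun h1 h2 h3 => (pr_subr 9 50 h1)⟩
noncomputable def txg_342_s : Sl3 txg_342 := ⟨_, fun h1 h2 h3 => (pr_subr 517 1531 h1)⟩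
noncomputable def txg_344_s : Sl3 txg_344 := ⟨_, fun h1 h2 h3 => (pr_subr 2 5 h1)⟩
noncomputable def txg_345_s : Sl3 txg_345 := ⟨_, fun h1 h2 h3 => (pr_subr 9 25 h1)⟩
noncomputable def txg_395_s : Sl3 txg_395 := ⟨_, fun h1 h2 h3 => (pr_subr 9 20 h1)⟩
noncomputable def txg_s : Sl3 txg := ⟨_, fun h1 h2 h3 => (pr_case (pr_subr 563 2611 h1) (pr_case (txg_26_s.snd h1 h2 h3) (pr_case (txg_29_s.snd h1 h2 h3) (pr_case (txg_32_s.snd h1 h2 h3) (pr_add (pr_add (pr_addc (pr_scale 15909 50000 h1) (enc_rat _ 15909 100000)) (pr_cmul (enc_norm (txg_4.enc h1.l h2.l h3)) (pr_norm (pr_addc (pr_scale 833 4000 h1) (enc_rat _ 833 8000))))) (pr_cmul (enc_norm (enc_subr 67 1000 (enc_neg (enc_scale 4217 200 (txg_4.enc h1.l h2.l h3))))) (pr_norm (pr_mul (pr_norm (pr_addc h1 (enc_rat _ 1 2))) (pr_norm (pr_csub (enc_neg (enc_rat _ 9 20)) h1)))))) (pr_case (txg_57_s.snd h1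 h2 h3) (pr_add (pr_add (pr_addc (pr_scale 16729 50000 h1) (enc_rat _ 16647 100000)) (pr_cmul (enc_norm (txg_4.enc h1.l h2.l h3)) (pr_norm (pr_addc (pr_scale 41567 20000 h1) (enc_rat _ 94567 100000))))) (pr_cmul (enc_norm (enc_subr 87 200 (enc_neg (enc_scale 5439 200 (txg_4.enc h1.l h2.l h3))))) (pr_norm (pr_mul (pr_norm (txg_32_s.snd h1 h2 h3)) (pr_norm (pr_csub (enc_neg (enc_rat _ 21 50)) h1)))))) (pr_add (pr_add (pr_addc (pr_scale 4891 12500 h1) (enc_rat _ 47571 250000)) (pr_cmul (enc_norm (txg_4.enc h1.l h2.l h3)) (pr_norm (pr_addc (pr_scale 19687 10000 h1) (enc_rat _ 899617 1000000))))) (pr_cmul (enc_norm (enc_subr 291 200 (enc_scale 617 20 (txg_4.enc h1.l h2.l h3)))) (pr_norm (pr_mul (pr_norm (txg_57_s.snd h1 h2 h3)) (pr_norm (pr_csub (enc_neg (enc_rat _ 39 100)) h1)))))))) (pr_case (txg_98_s.snd h1 h2 h3) (pr_case (txg_101_s.snd h1 h2 h3)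 (pr_add (pr_add (pr_addc (pr_scale 18791 40000 h1) (enc_rat _ 4417941 20000000)) (pr_cmul (enc_norm (txg_4.enc h1.l h2.l h3)) (pr_norm (pr_subr 12401 250000 (pr_neg (pr_scale 1163 2500 h1)))))) (pr_cmul (enc_norm (enc_subr 2323 2000 (enc_scale 1257 25 (txg_4.enc h1.l h2.l h3)))) (pr_norm (pr_mul (pr_norm (txg_29_s.snd h1 h2 h3)) (pr_norm (pr_csub (enc_neg (enc_rat _ 9 25)) h1)))))) (pr_add (pr_add (pr_addc (pr_scale 67399 200000 h1) (enc_rat _ 138477 800000)) (pr_cmul (enc_norm (txg_4.enc h1.l h2.l h3)) (pr_norm (pr_subr 128401 500000 (pr_neg (pr_scale 4163 4000 h1)))))) (pr_cmul (enc_norm (enc_sub (enc_rat _ 447 80) (enc_scale 6219 200 (txg_4.enc h1.l h2.l h3)))) (pr_norm (pr_mul (pr_norm (txg_101_s.snd h1 h2 h3)) (pr_norm (pr_csub (enc_neg (enc_rat _ 33 100)) h1))))))) (pr_case (txg_144_s.snd h1 h2 h3) (pr_add (pr_add (pr_addc (pr_scale 1123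 5000 h1) (enc_rat _ 1360059 10000000)) (pr_cmul (enc_norm (txg_4.enc h1.l h2.l h3)) (pr_norm (pr_subr 18703 2000000 (pr_neg (pr_scale 2909 10000 h1)))))) (pr_cmul (enc_norm (enc_subr 1841 1000 (enc_scale 61 10 (txg_4.enc h1.l h2.l h3)))) (pr_norm (pr_mul (pr_norm (txg_98_s.snd h1 h2 h3)) (pr_norm (pr_csub (enc_neg (enc_rat _ 3 10)) h1)))))) (pr_add (pr_add (pr_addc (pr_scale 58401 200000 h1) (enc_rat _ 781137 5000000)) (pr_cmul (enc_norm (txg_4.enc h1.l h2.l h3)) (pr_norm (pr_csub (enc_rat _ 58397 2000000) (pr_scale 203 1250 h1))))) (pr_cmul (enc_norm (enc_subr 487 2000 (enc_neg (enc_scale 623 100 (txg_4.enc h1.l h2.l h3))))) (pr_norm (pr_mul (pr_norm (txg_144_s.snd h1 h2 h3)) (pr_norm (pr_csub (enc_neg (enc_rat _ 1 4)) h1))))))))) (pr_case (txg_189_s.snd h1 h2 h3) (pr_case (txg_192_s.snd h1 h2 h3) (pr_add (pr_add (pr_addc (pr_scale 27823 100000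 h1) (enc_rat _ 3055673 20000000)) (pr_cmul (enc_norm (txg_4.enc h1.l h2.l h3)) (pr_norm (pr_addc (pr_scale 2777 20000 h1) (enc_rat _ 104511 1000000))))) (pr_cmul (enc_norm (enc_add (enc_scale 41 200 (txg_4.enc h1.l h2.l h3)) (enc_rat _ 519 1000))) (pr_norm (pr_mul (pr_norm (txg_26_s.snd h1 h2 h3)) (pr_norm (pr_csub (enc_neg (enc_rat _ 1 5)) h1)))))) (pr_case (txg_211_s.snd h1 h2 h3) (pr_add (pr_add (pr_addc (pr_scale 49261 200000 h1) (enc_rat _ 2927973 20000000)) (pr_cmul (enc_norm (txg_4.enc h1.l h2.l h3)) (pr_norm (pr_addc (pr_scale 1751 10000 h1) (enc_rat _ 111761 1000000))))) (pr_cmul (enc_norm (enc_sub (enc_rat _ 239 2000) (enc_scale 93 100 (txg_4.enc h1.l h2.l h3)))) (pr_norm (pr_mul (pr_norm (txg_192_s.snd h1 h2 h3)) (pr_norm (pr_csub (enc_neg (enc_rat _ 3 20)) h1)))))) (pr_add (pr_add (pr_addc (pr_scale 46871 200000 h1) (enc_rat _ 2892123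 20000000)) (pr_cmul (enc_norm (txg_4.enc h1.l h2.l h3)) (pr_norm (pr_csub (enc_rat _ 27193 500000) (pr_scale 1037 5000 h1))))) (pr_cmul (enc_norm (enc_add (enc_scale 429 50 (txg_4.enc h1.l h2.l h3)) (enc_rat _ 239 2000))) (pr_norm (pr_mul (pr_norm (txg_211_s.snd h1 h2 h3)) (pr_norm (pr_csub (enc_neg (enc_rat _ 1 10)) h1)))))))) (pr_case (txg_249_s.snd h1 h2 h3) (pr_case (txg_250_s.snd h1 h2 h3) (pr_add (pr_add (pr_addc (pr_scale 4329 50000 h1) (enc_rat _ 2596573 20000000)) (pr_cmul (enc_norm (txg_4.enc h1.l h2.l h3)) (pr_norm (pr_addc (pr_scale 41 625 h1) (enc_rat _ 40843 500000))))) (pr_cmul (enc_norm (enc_sub (enc_rat _ 709 1000) (enc_scale 351 100 (txg_4.enc h1.l h2.l h3)))) (pr_norm (pr_mul (pr_norm (txg_189_s.snd h1 h2 h3)) (pr_norm (pr_csub (enc_rat _ 1 10) h1)))))) (pr_add (pr_add (pr_csub (enc_rat _ 2864573 20000000) (pr_scale 2371 50000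 h1)) (pr_cmul (enc_norm (txg_4.enc h1.l h2.l h3)) (pr_norm (pr_addc (pr_scale 2613 5000 h1) (enc_rat _ 17993 500000))))) (pr_cmul (enc_norm (enc_subr 39 200 (enc_scale 49 8 (txg_4.enc h1.l h2.l h3)))) (pr_norm (pr_mul (pr_norm (txg_250_s.snd h1 h2 h3)) (pr_norm (pr_csub (enc_rat _ 7 50) h1))))))) (pr_case (txg_289_s.snd h1 h2 h3) (pr_add (pr_add (pr_csub (enc_rat _ 2906293 20000000) (pr_scale 779 12500 h1)) (pr_cmul (enc_norm (txg_4.enc h1.l h2.l h3)) (pr_norm (pr_addc (pr_scale 99 1250 h1) (enc_rat _ 49031 500000))))) (pr_cmul (enc_norm (enc_add (enc_scale 124 25 (txg_4.enc h1.l h2.l h3)) (enc_rat _ 227 400))) (pr_norm (pr_mul (pr_norm (txg_249_s.snd h1 h2 h3)) (pr_norm (pr_csub (enc_rat _ 9 50) h1)))))) (pr_add (pr_add (pr_add (pr_csub (enc_rat _ 92932094630205331 607188050000000000) (pr_scale 1278885369994759 12143761000000000 h1)) (pr_cmul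 (enc_norm (txg_4.enc h1.l h2.l h3)) (pr_norm (pr_addc (pr_scale 5370548737247 151797012500000 h1) (enc_rat _ 804141903863527 7589850625000000))))) (pr_cmul (txg_320.enc h1.l h2.l h3) (pr_norm (pr_subr 24485960529 116275000000 (pr_scale 2720662281 2325500000 h1))))) (pr_cmul (enc_norm (enc_add (enc_mul (enc_norm (enc_subr 4339 1000 (enc_neg (enc_scale 821 25 (txg_4.enc h1.l h2.l h3))))) (enc_norm (txg_4.enc h1.l h2.l h3))) (enc_rat _ 356 625))) (pr_norm (pr_mul (pr_norm (txg_289_s.snd h1 h2 h3)) (pr_norm (pr_csub (enc_rat _ 563 2611) h1)))))))))) (pr_case (txg_342_s.snd h1 h2 h3) (pr_sub (pr_mul (pr_norm (pr_csub (enc_pnc _ 1) h2)) (pr_norm (pr_subn 1 (pr_nat 2 h2)))) (pr_mul (pr_norm (pr_nat 2 (pr_subc (pr_scale 4 3 (txg_6_s.snd h1 h2 h3)) h3))) (pr_norm (pr_mul (pr_norm (pr_subn 1 (pr_add (pr_scale 2 3 (txg_6_s.snd h1 h2 h3)) h2))) (kcg_s.snd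 h1 h3))))) (pr_case (txg_344_s.snd h1 h2 h3) (pr_case (txg_345_s.snd h1 h2 h3) (pr_add (pr_add (pr_add (pr_csub (enc_rat _ 2518464029446339 9339100000000000) (pr_scale 189600919052371 373564000000000 h1)) (pr_cmul (enc_norm (txg_4.enc h1.l h2.l h3)) (pr_norm (pr_subr 476621282757969 6537370000000000 (pr_scale 133531005556441 261494800000000 h1))))) (pr_cmul (txg_320.enc h1.l h2.l h3) (pr_norm (pr_csub (enc_rat _ 4951551411 6100000000) (pr_scale 550172379 244000000 h1))))) (pr_cmul (enc_norm (enc_add (enc_mul (enc_norm (enc_subr 3932 125 (enc_neg (enc_scale 5053 50 (txg_4.enc h1.l h2.l h3))))) (enc_norm (txg_4.enc h1.l h2.l h3))) (enc_rat _ 2943 625))) (pr_norm (pr_mul (pr_norm (txg_342_s.snd h1 h2 h3)) (pr_norm (pr_csub (enc_rat _ 9 25) h1)))))) (pr_add (pr_add (pr_csub (enc_rat _ 1230601 4000000) (pr_scale 12261 20000 h1)) (pr_cmul (enc_norm (txg_4.enc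 h1.l h2.l h3)) (pr_norm (pr_csub (enc_rat _ 909 8000) (pr_scale 3 400 h1))))) (pr_cmul (enc_norm (enc_add (enc_scale 61 2 (txg_4.enc h1.l h2.l h3)) (enc_rat _ 11 1000))) (pr_norm (pr_mul (pr_norm (txg_345_s.snd h1 h2 h3)) (pr_norm (pr_csub (enc_rat _ 2 5) h1))))))) (pr_case (txg_395_s.snd h1 h2 h3) (pr_add (pr_add (pr_csub (enc_rat _ 246773 800000) (pr_scale 61509 100000 h1)) (pr_cmul (enc_norm (txg_4.enc h1.l h2.l h3)) (pr_norm (pr_csub (enc_rat _ 23877 40000) (pr_scale 4863 4000 h1))))) (pr_cmul (enc_norm (enc_sub (enc_rat _ 4 125) (enc_scale 47 200 (txg_4.enc h1.l h2.l h3)))) (pr_norm (pr_mul (pr_norm (txg_344_s.snd h1 h2 h3)) (pr_norm (pr_csub (enc_rat _ 9 20) h1)))))) (pr_add (pr_add (pr_csub (enc_rat _ 126703 400000) (pr_scale 126703 200000 h1)) (pr_cmul (enc_norm (txg_4.enc h1.l h2.l h3)) (pr_norm (pr_csub (enc_rat _ 3987 8000) (pr_scale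 3987 4000 h1))))) (pr_cmul (enc_norm (enc_sub (enc_rat _ 673 2000) (enc_scale 829 200 (txg_4.enc h1.l h2.l h3)))) (pr_norm (pr_mul (pr_norm (txg_395_s.snd h1 h2 h3)) (pr_norm (pr_csub (enc_rat _ 1 2) h1))))))))))⟩
noncomputable def l0q0_s : Sl2 l0q0 := ⟨_, fun h1 h2 => (pr_norm (txg_s.snd (pr_norm (pr_sub (pr_scale 3 4 h1) (pr_half (c1g_s.snd h1)))) (pr_nd (c1g_s.snd h1)) h2))⟩
noncomputable def kc0q0_8_s : Sl2 kc0q0_8 := ⟨_, fun h1 h2 => (pr_sub (pr_scale 3 4 h1) (pr_half (c1g_s.snd h1)))⟩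
noncomputable def kc0q0_15_s : Sl2 kc0q0_15 := ⟨_, fun h1 h2 => (pr_scale 1892 835 (kc0q0_8_s.snd h1 h2))⟩
noncomputable def kc0q0_s : Sl2 kc0q0 := ⟨_, fun h1 h2 => (pr_norm (pr_case (pr_addc (kc0q0_8_s.snd h1 h2) (enc_rat _ 167 1000)) (pr_case (pr_addc (kc0q0_8_s.snd h1 h2) (enc_rat _ 333 1000)) (pr_add (pr_addc (kc0q0_15_s.snd h1 h2) (enc_rat _ 946 835)) (pr_cmul (enc_norm (kc0q0_3.enc h1.l h2)) (pr_norm (pr_subr 73201 334 (pr_neg (pr_scale 73201 167 (kc0q0_8_s.snd h1 h2))))))) (pr_add (pr_addc (pr_scale 1881 830 (kc0q0_8_s.snd h1 h2)) (enc_rat _ 188089 166000)) (pr_cmul (enc_norm (kc0q0_3.enc h1.l h2)) (pr_norm (pr_subr 38531 1328 (pr_scale 22027 166 (kc0q0_8_s.snd h1 h2))))))) (pr_case (kc0q0_8_s.snd h1 h2) (pr_add (pr_addc (kc0q0_15_s.snd h1 h2) (enc_rat _ 1133 1000)) (pr_cmul (enc_norm (kc0q0_3.enc h1.l h2)) (pr_norm (pr_subr 29013 1000 (pr_scale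 22161 167 (kc0q0_8_s.snd h1 h2)))))) (pr_add (pr_addc (pr_scale 637806669969 281500000000 (kc0q0_8_s.snd h1 h2)) (enc_rat _ 1133 1000)) (pr_cmul (enc_norm (kc0q0_3.enc h1.l h2)) (pr_norm (pr_subr 29013 1000 (pr_scale 373530912426203 2815000000000 (kc0q0_8_s.snd h1 h2)))))))))⟩
noncomputable def kf0q1_10_s : Sl2 kf0q1_10 := ⟨_, fun h1 h2 => (pr_scale 3 2 h1)⟩
noncomputable def kf0q1_s : Sl2 kf0q1 := ⟨_, fun h1 h2 => (pr_norm (pr_add (pr_mul (pr_norm (pr_mul (pr_norm (pr_cadd (enc_pnc _ 1) (pr_nat 2 (c1g_s.snd h1)))) (pr_norm (pr_sub (kf0q1_10_s.snd h1 h2) (c1g_s.snd h1))))) (pr_nd (pr_inv (pr_nat 2 (pr_sub (pr_cadd (enc_pnc _ 1) (kf0q1_10_s.snd h1 h2)) (c1g_s.snd h1)))))) (pr_mul (pr_norm (pr_subn 1 h1)) (kcg_s.snd (pr_norm (pr_sub (pr_scale 3 4 h1) (pr_half (c1g_s.snd h1)))) h2))))⟩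
noncomputable def l0q1_s : Sl2 l0q1 := ⟨_, fun h1 h2 => (pr_norm (txg_s.snd (pr_norm (pr_sub (pr_scale 3 4 h1) (pr_half (c1g_s.snd h1)))) (pr_nd (c1g_s.snd h1)) h2))⟩
noncomputable def gsg_s : Sl1 gsg := ⟨_, fun h1 => (pr_sqrt (pr_csub (enc_pnc _ 1) (pr_scale 3 4 (pr_sq h1))))⟩
noncomputable def gug_s : Sl1 gug := ⟨_, fun h1 => (pr_norm (pr_add (pr_scale 3 4 h1) (pr_scale 3 2 (pr_csub (enc_pnc _ 1) (gsg_s.snd h1)))))⟩
noncomputable def kc0q1_9_s : Sl2 kc0q1_9 := ⟨_, fun h1 h2 => (pr_sub (pr_scale 3 4 h1) (pr_half (c1g_s.snd h1)))⟩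
noncomputable def kc0q1_45_s : Sl2 kc0q1_45 := ⟨_, fun h1 h2 => (pr_scale 1892 835 (kc0q1_9_s.snd h1 h2))⟩
noncomputable def kc0q1_s : Sl2 kc0q1 := ⟨_, fun h1 h2 => (pr_norm (pr_case (pr_subr 563 2611 (kc0q1_9_s.snd h1 h2)) (pr_case (pr_addc (kc0q1_9_s.snd h1 h2) (enc_rat _ 167 1000)) (pr_case (pr_addc (kc0q1_9_s.snd h1 h2) (enc_rat _ 333 1000)) (pr_add (pr_addc (kc0q1_45_s.snd h1 h2) (enc_rat _ 946 835)) (pr_cmul (enc_norm (kc0q1_3.enc h1.l h2)) (pr_norm (pr_subr 73201 334 (pr_neg (pr_scale 73201 167 (kc0q1_9_s.snd h1 h2))))))) (pr_add (pr_addc (pr_scale 1881 830 (kc0q1_9_s.snd h1 h2)) (enc_rat _ 188089 166000)) (pr_cmul (enc_norm (kc0q1_3.enc h1.l h2)) (pr_norm (pr_subr 38531 1328 (pr_scale 22027 166 (kc0q1_9_s.snd h1 h2))))))) (pr_case (kc0q1_9_s.snd h1 h2) (pr_add (pr_addc (kc0q1_45_s.snd h1 h2) (enc_rat _ 1133 1000)) (pr_cmul (enc_norm (kc0q1_3.enc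 h1.l h2)) (pr_norm (pr_subr 29013 1000 (pr_scale 22161 167 (kc0q1_9_s.snd h1 h2)))))) (pr_add (pr_addc (pr_scale 637806669969 281500000000 (kc0q1_9_s.snd h1 h2)) (enc_rat _ 1133 1000)) (pr_cmul (enc_norm (kc0q1_3.enc h1.l h2)) (pr_norm (pr_subr 29013 1000 (pr_scale 373530912426203 2815000000000 (kc0q1_9_s.snd h1 h2)))))))) (pr_case (pr_subr 517 1531 (kc0q1_9_s.snd h1 h2)) (pr_sub (pr_add (pr_cadd (enc_rat _ 3 4) (pr_scale 3 2 h1)) (pr_scale 3 4 (pr_mul (pr_norm (pr_mul h1 (pr_nd (pr_inv (c1g_s.snd h1))))) (gug_s.snd h1)))) (pr_mul (kcg_s.snd (pr_norm (kc0q1_9_s.snd h1 h2)) h2) (pr_norm (pr_add (gug_s.snd h1) (pr_nat 2 (c1g_s.snd h1)))))) (pr_add (pr_csub (enc_rat _ 14009273789109 2485000000000) (pr_scale 14009273789109 1242500000000 (kc0q1_9_s.snd h1 h2))) (pr_cmul (enc_norm (kc0q1_3.enc h1.l h2)) (pr_norm (pr_subr 11012134512249 4970000000000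 (pr_scale 11012134512249 2485000000000 (kc0q1_9_s.snd h1 h2)))))))))⟩
noncomputable def yag_s : Sl1 yag := ⟨_, fun h1 => (pr_sqrt (pr_scale 4 3 (pr_csub (enc_pnc _ 1) (pr_sq h1))))⟩
noncomputable def kfc02_s : Sl2 kfc02 := ⟨_, fun h1 h2 => (pr_norm (pr_add h1 (pr_mul (pr_norm (pr_subn 1 (yag_s.snd h1))) (kcg_s.snd (pr_nd (pr_neg h1)) h2))))⟩
noncomputable def lc02_7_s : Sl2 lc02_7 := ⟨_, fun h1 h2 => (pr_scale 3 4 (yag_s.snd h1))⟩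
noncomputable def lc02_8_s : Sl2 lc02_8 := ⟨_, fun h1 h2 => (pr_half h1)⟩
noncomputable def lc02_s : Sl2 lc02 := ⟨_, fun h1 h2 => (pr_norm (pr_sub (txg_s.snd (pr_nd (pr_neg h1)) (pr_norm (pr_add (lc02_7_s.snd h1 h2) (lc02_8_s.snd h1 h2))) h2) (txg_s.snd h1 (pr_norm (pr_sub (lc02_7_s.snd h1 h2) (lc02_8_s.snd h1 h2))) h2)))⟩
noncomputable def kcc02_s : Sl2 kcc02 := ⟨_, fun h1 h2 => (pr_const (enc_pnc _ 0))⟩
noncomputable def swg_s : Sl1 swg := ⟨_, fun h1 => (pr_sqrt (pr_csub (enc_pnc _ 1) (pr_scale 3 4 (pr_sq (pr_norm (pr_subn 1 h1))))))⟩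
noncomputable def cv1m_s : Sl1 cv1m := ⟨_, fun h1 => (pr_norm (pr_add (pr_scale 3 5 (c1g_s.snd h1)) (pr_scale 2 5 (pr_addc (swg_s.snd h1) (enc_rat _ 1 2)))))⟩
noncomputable def bf1q0_s : Sl2 bf1q0 := ⟨_, fun h1 h2 => (pr_norm (pr_case (pr_subr 1 16 h1) (pr_sub (pr_csub (enc_pnc _ 1) (pr_scale 10309 6250 h1)) (pr_cmul (enc_norm (bf1q0_3.enc h1.l h2)) (pr_nd (pr_scale 91 25 h1)))) (pr_case (pr_subr 3 25 h1) (pr_add (pr_csub (enc_rat _ 1150009 1150000) (pr_scale 1897 1150 h1)) (pr_cmul (enc_norm (bf1q0_3.enc h1.l h2)) (pr_norm (pr_subr 1101 4600 (pr_scale 109 575 h1))))) (pr_add (pr_csub (enc_rat _ 183319 190000) (pr_scale 25773 19000 h1)) (pr_cmul (enc_norm (bf1q0_3.enc h1.l h2)) (pr_norm (pr_subr 11361 47500 (pr_scale 143 760 h1))))))))⟩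
noncomputable def kf1q0_s : Sl2 kf1q0 := ⟨_, fun h1 h2 => (pr_norm (pr_mul (cv1m_s.snd h1) (bf1q0_s.snd h1 h2)))⟩
noncomputable def bx1q0_s : Sl2 bx1q0 := ⟨_, fun h1 h2 => (pr_norm (pr_case (pr_subr 3 25 h1) (pr_case (pr_subr 1 16 h1) (pr_add (pr_scale 1462 3125 h1) (pr_cmul (enc_norm (bx1q0_3.enc h1.l h2)) (pr_nd (pr_scale 9 25 h1)))) (pr_add (pr_addc (pr_scale 1002 2875 h1) (enc_rat _ 536 71875)) (pr_cmul (enc_norm (bx1q0_3.enc h1.l h2)) (pr_norm (pr_subr 1 9200 (pr_scale 208 575 h1)))))) (pr_case (pr_subr 11 50 h1) (pr_add (pr_addc (pr_scale 2353 10000 h1) (enc_rat _ 5261 250000)) (pr_cmul (enc_norm (bx1q0_3.enc h1.l h2)) (pr_norm (pr_subr 8653 50000 (pr_scale 1803 1000 h1))))) (pr_add (pr_addc (pr_scale 2033 28000 h1) (enc_rat _ 79571 1400000)) (pr_cmul (enc_norm (bx1q0_3.enc h1.l h2)) (pr_norm (pr_csub (enc_rat _ 46099 140000) (pr_scale 269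 560 h1))))))))⟩
noncomputable def l1q0_s : Sl2 l1q0 := ⟨_, fun h1 h2 => (pr_norm (pr_mul (cv1m_s.snd h1) (bx1q0_s.snd h1 h2)))⟩
noncomputable def bd1q0_6_s : Sl2 bd1q0_6 := ⟨_, fun h1 h2 => (pr_scale 3809 200 h1)⟩
noncomputable def bd1q0_s : Sl2 bd1q0 := ⟨_, fun h1 h2 => (pr_norm (pr_case (pr_subr 3 25 h1) (pr_sub (pr_cmul (enc_norm (bd1q0_3.enc h1.l h2)) (pr_nd (pr_scale 793 12 h1))) (bd1q0_6_s.snd h1 h2)) (pr_case (pr_subr 11 50 h1) (pr_sub (pr_cmul (enc_norm (bd1q0_3.enc h1.l h2)) (pr_norm (pr_addc (pr_scale 207 25 h1) (enc_rat _ 17341 2500)))) (bd1q0_6_s.snd h1 h2)) (pr_add (pr_subr 72347 20000 (pr_neg (pr_scale 1041 400 h1))) (pr_cmul (enc_norm (bd1q0_3.enc h1.l h2)) (pr_norm (pr_addc (pr_scale 1159 140 h1) (enc_rat _ 48557 7000))))))))⟩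
noncomputable def kc1q0_s : Sl2 kc1q0 := ⟨_, fun h1 h2 => (pr_norm (pr_mul (cv1m_s.snd h1) (bd1q0_s.snd h1 h2)))⟩
noncomputable def bf1q1_s : Sl2 bf1q1 := ⟨_, fun h1 h2 => (pr_norm (pr_add (pr_subr 18731 20000 (pr_scale 83179 50000 h1)) (pr_cmul (enc_norm (enc_subr 83 100 h2)) (pr_norm (pr_subr 444263 10000 (pr_scale 231371 5000 h1))))))⟩
noncomputable def kf1q1_s : Sl2 kf1q1 := ⟨_, fun h1 h2 => (pr_norm (pr_mul (cv1m_s.snd h1) (bf1q1_s.snd h1 h2)))⟩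
noncomputable def bx1q1_s : Sl2 bx1q1 := ⟨_, fun h1 h2 => (pr_norm (pr_case (pr_subr 15 16 h1) (pr_add (pr_addc (pr_scale 1588 21875 h1) (enc_rat _ 3979 70000)) (pr_cmul (enc_norm (bx1q1_3.enc h1.l h2)) (pr_norm (pr_csub (enc_rat _ 23053 70000) (pr_scale 2102 4375 h1))))) (pr_add (pr_addc (pr_scale 453 6250 h1) (enc_rat _ 1139 20000)) (pr_cmul (enc_norm (bx1q1_3.enc h1.l h2)) (pr_norm (pr_csub (enc_rat _ 3289 10000) (pr_scale 12 25 h1)))))))⟩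
noncomputable def l1q1_s : Sl2 l1q1 := ⟨_, fun h1 h2 => (pr_norm (pr_mul (cv1m_s.snd h1) (bx1q1_s.snd h1 h2)))⟩
noncomputable def bd1q1_s : Sl2 bd1q1 := ⟨_, fun h1 h2 => (pr_norm (pr_add (pr_subr 18087 5000 (pr_neg (pr_scale 3253 1250 h1))) (pr_cmul (enc_norm (enc_subr 83 100 h2)) (pr_norm (pr_addc (pr_scale 2069 250 h1) (enc_rat _ 3469 500))))))⟩
noncomputable def kc1q1_s : Sl2 kc1q1 := ⟨_, fun h1 h2 => (pr_norm (pr_mul (cv1m_s.snd h1) (bd1q1_s.snd h1 h2)))⟩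
noncomputable def cv1p_s : Sl1 cv1p := ⟨_, fun h1 => (pr_norm (pr_add (pr_scale 3 5 (c1g_s.snd h1)) (pr_scale 2 5 (pr_subr 1 2 (swg_s.snd h1)))))⟩
noncomputable def bf1q2_s : Sl2 bf1q2 := ⟨_, fun h1 h2 => (pr_norm (pr_case (pr_subr 277 250 h1) (pr_case (pr_subr 17 16 h1) (pr_add (pr_csub (enc_rat _ 9623 3125) (pr_scale 6498 3125 h1)) (pr_cmul (enc_norm (bf1q2_3.enc h1.l h2)) (pr_norm (pr_csub (enc_rat _ 10834 625) (pr_scale 10834 625 h1))))) (pr_add (pr_csub (enc_rat _ 34749739 9100000) (pr_scale 12627 4550 h1)) (pr_cmul (enc_norm (bf1q2_3.enc h1.l h2)) (pr_norm (pr_subr 2348717 130000 (pr_scale 1039 65 h1)))))) (pr_case (pr_subr 577 500 h1) (pr_add (pr_csub (enc_rat _ 2195626067 575000000) (pr_scale 6382521 2300000 h1)) (pr_cmul (enc_norm (bf1q2_3.enc h1.l h2)) (pr_norm (pr_subr 4823689267 57500000 (pr_scale 17340121 230000 h1))))) (pr_case (pr_subr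 231 200 h1) (pr_add (pr_csub (enc_rat _ 349273 100000) (pr_scale 249273 100000 h1)) (pr_cmul (enc_norm (bf1q2_3.enc h1.l h2)) (pr_norm (pr_subr 202073 10000 (pr_scale 202073 10000 h1))))) (pr_add (pr_csub (enc_rat _ 16066481 4600000) (pr_scale 17199737 6900000 h1)) (pr_cmul (enc_norm (bf1q2_3.enc h1.l h2)) (pr_norm (pr_subr 1859087 92000 (pr_scale 13943137 690000 h1)))))))))⟩
noncomputable def kf1q2_s : Sl2 kf1q2 := ⟨_, fun h1 h2 => (pr_norm (pr_mul (cv1p_s.snd h1) (bf1q2_s.snd h1 h2)))⟩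
noncomputable def bx1q2_s : Sl2 bx1q2 := ⟨_, fun h1 h2 => (pr_norm (pr_case (pr_subr 577 500 h1) (pr_case (pr_subr 17 16 h1) (pr_add (pr_csub (enc_rat _ 1812 3125) (pr_scale 1812 3125 h1)) (pr_cmul (enc_norm (bx1q2_3.enc h1.l h2)) (pr_norm (pr_csub (enc_rat _ 1311 625) (pr_scale 1311 625 h1))))) (pr_case (pr_subr 277 250 h1) (pr_subc (pr_csub (enc_rat _ 288788 284375) (pr_scale 2252 2275 h1)) (enc_scale 1311 10000 (bx1q2_3.enc h1.l h2))) (pr_add (pr_csub (enc_rat _ 612901 287500) (pr_scale 2297 1150 h1)) (pr_cmul (enc_norm (bx1q2_3.enc h1.l h2)) (pr_norm (pr_subr 29599 230000 (pr_neg (pr_scale 1 460 h1)))))))) (pr_casec1 (pr_subr 231 200 h1) (enc_sub (enc_neg (enc_rat _ 4329 25000)) (enc_scale 82 625 (bx1q2_3.enc h1.l h2))) (pr_case (pr_subr 1213 1000 h1) (pr_add (pr_subr 11229543 5800000 (pr_scale 8853 5800 h1)) (pr_cmul (enc_norm (bx1q2_3.enc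 h1.l h2)) (pr_norm (pr_subr 77251 580000 (pr_scale 1 580 h1))))) (pr_add (pr_subr 7942789 4100000 (pr_scale 3131 2050 h1)) (pr_cmul (enc_norm (bx1q2_3.enc h1.l h2)) (pr_norm (pr_subr 307033 287000 (pr_scale 2221 2870 h1)))))))))⟩
noncomputable def l1q2_s : Sl2 l1q2 := ⟨_, fun h1 h2 => (pr_norm (pr_mul (cv1p_s.snd h1) (bx1q2_s.snd h1 h2)))⟩
noncomputable def bd1q2_s : Sl2 bd1q2 := ⟨_, fun h1 h2 => (pr_norm (pr_casec1 (pr_subr 577 500 h1) (enc_pnc _ 0) (pr_casec1 (pr_subr 231 200 h1) (enc_pnc _ 0) (pr_subr 651959 115000 (pr_scale 8467 1725 h1)))))⟩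
noncomputable def kc1q2_s : Sl2 kc1q2 := ⟨_, fun h1 h2 => (pr_norm (pr_mul (cv1p_s.snd h1) (bd1q2_s.snd h1 h2)))⟩
noncomputable def cv1r_s : Sl1 cv1r := ⟨_, fun h1 => (pr_norm (pr_scale 2 5 (pr_subr 1 2 (swg_s.snd h1))))⟩
noncomputable def c3g_s : Sl1 c3g := ⟨_, fun h1 => (pr_sqrtg (pr_csub (enc_pnc _ 3) (pr_scale 3 4 (pr_sq h1))))⟩
noncomputable def kf1q3_s : Sl2 kf1q3 := ⟨_, fun h1 h2 => (pr_norm (pr_mulz (fun ht => cv1r_two (enc_two h1.r ht)) (cv1r_s.snd h1) (pr_norm (pr_case (pr_subr 89 50 h1) (pr_add (pr_csub (enc_rat _ 16479 21875) (pr_scale 9721 14000 h1)) (pr_cmul (enc_norm (kf1q3_4.enc h1.l h2)) (pr_norm (pr_subr 15176401 140000 (pr_scale 33583 560 h1))))) (pr_case (pr_subr 47 25 h1) (pr_add (pr_csub (enc_rat _ 376701 500000) (pr_scale 434 625 h1)) (pr_cmul (enc_norm (kf1q3_4.enc h1.l h2)) (pr_norm (pr_subr 216807 2000 (pr_scale 5997 100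 h1))))) (pr_add (pr_subr 76623 100000 (pr_scale 53540000 147732867 (c3g_s.snd h1))) (pr_cmul (enc_norm (kf1q3_4.enc h1.l h2)) (pr_norm (pr_addc (pr_scale 585700000 147732867 (c3g_s.snd h1)) (enc_rat _ 19973 10000))))))))))⟩
noncomputable def l1q3_s : Sl2 l1q3 := ⟨_, fun h1 h2 => (pr_norm (pr_mulz (fun ht => cv1r_two (enc_two h1.r ht)) (cv1r_s.snd h1) (pr_norm (pr_case (pr_subr 89 50 h1) (pr_add (pr_subr 2761231 1400000 (pr_scale 43419 28000 h1)) (pr_cmul (enc_norm (l1q3_4.enc h1.l h2)) (pr_norm (pr_subr 29957 28000 (pr_scale 2167 2800 h1))))) (pr_case (pr_subr 47 25 h1) (pr_add (pr_subr 246521 125000 (pr_scale 7753 5000 h1)) (pr_cmul (enc_norm (l1q3_4.enc h1.l h2)) (pr_norm (pr_subr 53501 50000 (pr_scale 387 500 h1))))) (pr_add (pr_csub (enc_rat _ 3366 3125) (pr_scale 11180000 49244289 (c3g_s.snd h1))) (pr_cmul (enc_norm (l1q3_4.enc h1.l h2)) (pr_norm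 (pr_subr 521 400 (pr_scale 421900000 147732867 (c3g_s.snd h1)))))))))))⟩
noncomputable def kc1q3_s : Sl2 kc1q3 := ⟨_, fun h1 h2 => (pr_norm (pr_mulz (fun ht => cv1r_two (enc_two h1.r ht)) (cv1r_s.snd h1) (pr_norm (pr_case (pr_subr 47 25 h1) (pr_add (pr_subr 1077229 190000 (pr_scale 18653 3800 h1)) (pr_cmul (enc_norm (kc1q3_4.enc h1.l h2)) (pr_norm (pr_subr 3 760 (pr_scale 1 380 h1))))) (pr_add (pr_subr 157 1250 (pr_scale 307025000 49244289 (c3g_s.snd h1))) (pr_cmul (enc_norm (kc1q3_4.enc h1.l h2)) (pr_norm (pr_csub (enc_rat _ 763 200) (pr_scale 953500000 147732867 (c3g_s.snd h1))))))))))⟩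
noncomputable def cv2m_s : Sl1 cv2m := ⟨_, fun h1 => (pr_norm (pr_add (pr_scale 17 20 (pr_addc (swg_s.snd h1) (enc_rat _ 1 2))) (pr_scale 3 20 (c3g_s.snd h1))))⟩
noncomputable def esg_s : Sl1 esg := ⟨_, fun h1 => (pr_norm (pr_subn 1 (pr_add (pr_half h1) (gsg_s.snd h1))))⟩
noncomputable def kf2q0_42_s : Sl2 kf2q0_42 := ⟨_, fun h1 h2 => (pr_csub (enc_pnc _ 1) h1)⟩
noncomputable def kf2q0_43_s : Sl2 kf2q0_43 := ⟨_, fun h1 h2 => (gsg_s.snd (pr_norm (kf2q0_42_s.snd h1 h2)))⟩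
noncomputable def kf2q0_46_s : Sl2 kf2q0_46 := ⟨_, fun h1 h2 => (pr_sub (pr_scale 3 4 (kf2q0_42_s.snd h1 h2)) (pr_half (kf2q0_43_s.snd h1 h2)))⟩
noncomputable def kf2q0_64_s : Sl2 kf2q0_64 := ⟨_, fun h1 h2 => (pr_mul (cv1m_s.snd h1) (bf1q0_s.snd h1 h2))⟩
noncomputable def kf2q0_s : Sl2 kf2q0 := ⟨_, fun h1 h2 => (pr_norm (pr_case (pr_subr 3 25 h1) (pr_mul (cv2m_s.snd h1) (pr_norm (pr_case (pr_subr 1 16 h1) (pr_add (pr_csub (enc_rat _ 89061 100000) (pr_scale 10883 6250 h1)) (pr_cmul (enc_norm (kf2q0_4.enc h1.l h2)) (pr_norm (pr_subr 2519 10000 (pr_scale 1927 625 h1))))) (pr_add (pr_csub (enc_rat _ 1944365303 1840000000) (pr_scale 505890103 115000000 h1)) (pr_cmul (enc_norm (kf2q0_4.enc h1.l h2)) (pr_norm (pr_subr 231751291 920000000 (pr_scale 177287291 57500000 h1)))))))) (pr_case (pr_subr 11 50 h1) (pr_add (kf2q0_64_s.snd h1 h2) (pr_mul (pr_norm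 (pr_mul (pr_norm (pr_sub (pr_mul h1 (pr_norm (pr_sub (pr_mul (pr_norm (pr_sub (kf2q0_46_s.snd h1 h2) (pr_csub (enc_rat _ 1 4) (pr_scale 3 8 (pr_mul (pr_norm (kf2q0_42_s.snd h1 h2)) (pr_nd (pr_inv (kf2q0_43_s.snd h1 h2)))))))) (pr_nd (pr_inv (esg_s.snd (pr_norm (kf2q0_42_s.snd h1 h2)))))) (kcg_s.snd (pr_norm (kf2q0_46_s.snd h1 h2)) h2)))) (kf2q0_64_s.snd h1 h2))) (pr_norm (pr_sub (cv2m_s.snd h1) (cv1m_s.snd h1))))) (pr_nd (pr_inv (pr_sub (pr_addc (swg_s.snd h1) (enc_rat _ 1 2)) (cv1m_s.snd h1)))))) (pr_mul (cv2m_s.snd h1) (pr_norm (pr_add (pr_csub (enc_rat _ 388723911 350000000) (pr_scale 616286911 175000000 h1)) (pr_cmul (enc_norm (kf2q0_4.enc h1.l h2)) (pr_norm (pr_csub (enc_rat _ 1144883927 280000000) (pr_scale 2579939927 140000000 h1))))))))))⟩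
noncomputable def qsg_s : Sl1 qsg := ⟨_, fun h1 => (pr_norm (pr_mul (pr_norm (pr_csub (enc_pnc _ 1) (gsg_s.snd h1))) (pr_norm (pr_subn 1 (pr_nat 2 (gsg_s.snd h1))))))⟩
noncomputable def l2q0_65_s : Sl2 l2q0_65 := ⟨_, fun h1 h2 => (pr_csub (enc_pnc _ 1) h1)⟩
noncomputable def l2q0_80_s : Sl2 l2q0_80 := ⟨_, fun h1 h2 => (pr_mul (cv1m_s.snd h1) (bx1q0_s.snd h1 h2))⟩
noncomputable def l2q0_s : Sl2 l2q0 := ⟨_, fun h1 h2 => (pr_norm (pr_case (pr_subr 3 25 h1) (pr_mul (cv2m_s.snd h1) (pr_norm (pr_case (pr_subr 1 16 h1) (pr_add (pr_addc (pr_scale 749 1250 h1) (enc_rat _ 1297 20000)) (pr_cmul (enc_norm (l2q0_4.enc h1.l h2)) (pr_norm (pr_addc (pr_scale 1357 625 h1) (enc_rat _ 21 200))))) (pr_add (pr_add (pr_addc (pr_scale 138169087 575000000 h1) (enc_rat _ 802990913 9200000000)) (pr_cmul (enc_norm (l2q0_4.enc h1.l h2)) (pr_norm (pr_csub (enc_rat _ 339651107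 920000000) (pr_scale 118207107 57500000 h1))))) (pr_cmul (l2q0_28.enc h1.l h2) (pr_norm (pr_subr 42293 460000 (pr_scale 42293 28750 h1)))))))) (pr_case (pr_subr 11 50 h1) (pr_add (l2q0_80_s.snd h1 h2) (pr_mul (pr_norm (pr_mul (pr_norm (pr_sub (pr_sub (qsg_s.snd (pr_norm (l2q0_65_s.snd h1 h2))) (pr_mul (pr_norm (pr_nat 2 (pr_subc (l2q0_65_s.snd h1 h2) h2))) (pr_norm (pr_mul (esg_s.snd (pr_norm (l2q0_65_s.snd h1 h2))) (kcg_s.snd (pr_norm (pr_sub (pr_scale 3 4 (l2q0_65_s.snd h1 h2)) (pr_half (gsg_s.snd (pr_norm (l2q0_65_s.snd h1 h2)))))) h2))))) (l2q0_80_s.snd h1 h2))) (pr_norm (pr_sub (cv2m_s.snd h1) (cv1m_s.snd h1))))) (pr_nd (pr_inv (pr_sub (pr_addc (swg_s.snd h1) (enc_rat _ 1 2)) (cv1m_s.snd h1)))))) (pr_mul (cv2m_s.snd h1) (pr_norm (pr_case (pr_subr 131 500 h1) (pr_add (pr_add (pr_csub (enc_rat _ 15884234239 105000000000) (pr_scale 31779269 210000000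 h1)) (pr_cmul (enc_norm (l2q0_4.enc h1.l h2)) (pr_norm (pr_csub (enc_rat _ 1413801647 2100000000) (pr_scale 12082837 4200000 h1))))) (pr_cmul (l2q0_28.enc h1.l h2) (pr_norm (pr_csub (enc_rat _ 1298341 4200000) (pr_scale 9911 8400 h1))))) (pr_add (pr_csub (enc_rat _ 1799997 11900000) (pr_scale 18 119 h1)) (pr_cmul (enc_norm (l2q0_4.enc h1.l h2)) (pr_norm (pr_subr 4633 42500 (pr_scale 37 340 h1)))))))))))⟩
noncomputable def kc2q0_29_s : Sl2 kc2q0_29 := ⟨_, fun h1 h2 => (pr_csub (enc_pnc _ 1) h1)⟩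
noncomputable def kc2q0_30_s : Sl2 kc2q0_30 := ⟨_, fun h1 h2 => (gsg_s.snd (pr_norm (kc2q0_29_s.snd h1 h2)))⟩
noncomputable def kc2q0_34_s : Sl2 kc2q0_34 := ⟨_, fun h1 h2 => (esg_s.snd (pr_norm (kc2q0_29_s.snd h1 h2)))⟩
noncomputable def kc2q0_38_s : Sl2 kc2q0_38 := ⟨_, fun h1 h2 => (gug_s.snd (pr_norm (kc2q0_29_s.snd h1 h2)))⟩
noncomputable def kc2q0_40_s : Sl2 kc2q0_40 := ⟨_, fun h1 h2 => (pr_mul (pr_norm (kc2q0_29_s.snd h1 h2)) (pr_nd (pr_inv (kc2q0_30_s.snd h1 h2))))⟩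
noncomputable def kc2q0_41_s : Sl2 kc2q0_41 := ⟨_, fun h1 h2 => (pr_scale 3 4 (kc2q0_40_s.snd h1 h2))⟩
noncomputable def kc2q0_70_s : Sl2 kc2q0_70 := ⟨_, fun h1 h2 => (pr_mul (cv1m_s.snd h1) (bd1q0_s.snd h1 h2))⟩
noncomputable def kc2q0_s : Sl2 kc2q0 := ⟨_, fun h1 h2 => (pr_norm (pr_case (pr_subr 3 25 h1) (pr_mul (cv2m_s.snd h1) (pr_norm (pr_add (pr_csub (enc_rat _ 2099 5000) (pr_scale 11613209531 600000000 h1)) (pr_cmul (enc_norm (kc2q0_4.enc h1.l h2)) (pr_norm (pr_subr 2061 100 (pr_scale 15846790907 120000000 h1))))))) (pr_case (pr_subr 11 50 h1) (pr_add (kc2q0_70_s.snd h1 h2) (pr_mul (pr_norm (pr_mul (pr_norm (pr_sub (pr_add (pr_sub (pr_neg (pr_add (pr_cadd (enc_rat _ 3 4) (pr_scale 3 2 (kc2q0_29_s.snd h1 h2))) (pr_scale 3 4 (pr_mul (pr_norm (kc2q0_40_s.snd h1 h2)) (kc2q0_38_s.snd h1 h2))))) (pr_mul (pr_norm (pr_sub (pr_mul (pr_norm (pr_mul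 (pr_norm (kc2q0_41_s.snd h1 h2)) (pr_norm (pr_subn 3 (pr_nat 4 (kc2q0_30_s.snd h1 h2)))))) (kc2q0_34_s.snd h1 h2)) (pr_mul (qsg_s.snd (pr_norm (kc2q0_29_s.snd h1 h2))) (pr_norm (pr_csub (enc_rat _ 1 2) (kc2q0_41_s.snd h1 h2)))))) (pr_nd (pr_inv (pr_mul (pr_nd (pr_nat 2 (kc2q0_34_s.snd h1 h2))) (kc2q0_34_s.snd h1 h2)))))) (pr_mul (kcg_s.snd (pr_norm (pr_sub (pr_scale 3 4 (kc2q0_29_s.snd h1 h2)) (pr_half (kc2q0_30_s.snd h1 h2)))) h2) (pr_norm (pr_cadd (enc_pnc _ 1) (pr_add (kc2q0_38_s.snd h1 h2) (pr_nat 2 (kc2q0_30_s.snd h1 h2))))))) (kc2q0_70_s.snd h1 h2))) (pr_norm (pr_sub (cv2m_s.snd h1) (cv1m_s.snd h1))))) (pr_nd (pr_inv (pr_sub (pr_addc (swg_s.snd h1) (enc_rat _ 1 2)) (cv1m_s.snd h1)))))) (pr_mul (cv2m_s.snd h1) (pr_norm (pr_add (pr_subr 1403522531 1400000000 (pr_scale 701702531 700000000 h1)) (pr_cmul (enc_norm (kc2q0_4.enc h1.l h2)) (pr_norm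 (pr_subr 495148683 140000000 (pr_scale 247488683 70000000 h1))))))))))⟩
noncomputable def bf2q1_s : Sl2 bf2q1 := ⟨_, fun h1 h2 => (pr_norm (pr_add (pr_subr 513 6250 (pr_scale 6763 6250 h1)) (pr_cmul (enc_norm (enc_subr 83 100 h2)) (pr_norm (pr_csub (enc_rat _ 21347 5000) (pr_scale 21347 5000 h1))))))⟩
noncomputable def kf2q1_s : Sl2 kf2q1 := ⟨_, fun h1 h2 => (pr_norm (pr_mul (cv2m_s.snd h1) (bf2q1_s.snd h1 h2)))⟩
noncomputable def bx2q1_s : Sl2 bx2q1 := ⟨_, fun h1 h2 => (pr_norm (pr_add (pr_csub (enc_rat _ 7563 50000) (pr_scale 7563 50000 h1)) (pr_cmul (enc_norm (enc_subr 83 100 h2)) (pr_norm (pr_subr 273 2500 (pr_scale 273 2500 h1))))))⟩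
noncomputable def l2q1_s : Sl2 l2q1 := ⟨_, fun h1 h2 => (pr_norm (pr_mul (cv2m_s.snd h1) (bx2q1_s.snd h1 h2)))⟩
noncomputable def bd2q1_s : Sl2 bd2q1 := ⟨_, fun h1 h2 => (pr_norm (pr_add (pr_subr 5013 5000 (pr_scale 5013 5000 h1)) (pr_cmul (enc_norm (enc_subr 83 100 h2)) (pr_norm (pr_subr 1769 500 (pr_scale 1769 500 h1))))))⟩
noncomputable def kc2q1_s : Sl2 kc2q1 := ⟨_, fun h1 h2 => (pr_norm (pr_mul (cv2m_s.snd h1) (bd2q1_s.snd h1 h2)))⟩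
noncomputable def cv2p_s : Sl1 cv2p := ⟨_, fun h1 => (pr_norm (pr_add (pr_scale 17 20 (pr_subr 1 2 (swg_s.snd h1))) (pr_scale 3 20 (c3g_s.snd h1))))⟩
noncomputable def bf2q2_s : Sl2 bf2q2 := ⟨_, fun h1 h2 => (pr_norm (pr_case (pr_subr 277 250 h1) (pr_add (pr_csub (enc_rat _ 8499407 2700000) (pr_scale 11359 5400 h1)) (pr_cmul (enc_norm (bf2q2_3.enc h1.l h2)) (pr_norm (pr_csub (enc_rat _ 218303 6750) (pr_scale 34571 1080 h1))))) (pr_case (pr_subr 577 500 h1) (pr_add (pr_csub (enc_rat _ 7240133 2300000) (pr_scale 2419 1150 h1)) (pr_cmul (enc_norm (bf2q2_3.enc h1.l h2)) (pr_norm (pr_subr 9642281 230000 (pr_scale 16107 460 h1))))) (pr_add (pr_csub (enc_rat _ 10891869 3460000) (pr_scale 36391 17300 h1)) (pr_cmul (enc_norm (bf2q2_3.enc h1.l h2)) (pr_norm (pr_csub (enc_rat _ 7157283 216250) (pr_scale 51889 1730 h1))))))))⟩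
noncomputable def kf2q2_s : Sl2 kf2q2 := ⟨_, fun h1 h2 => (pr_norm (pr_mul (cv2p_s.snd h1) (bf2q2_s.snd h1 h2)))⟩
noncomputable def bx2q2_73_s : Sl2 bx2q2_73 := ⟨_, fun h1 h2 => (pr_scale 117 580 h1)⟩
noncomputable def bx2q2_86_s : Sl2 bx2q2_86 := ⟨_, fun h1 h2 => (pr_scale 23 114 h1)⟩
noncomputable def bx2q2_s : Sl2 bx2q2 := ⟨_, fun h1 h2 => (pr_norm (pr_case (pr_subr 1213 1000 h1) (pr_case (pr_subr 277 250 h1) (pr_case (pr_subr 17 16 h1) (pr_add (pr_csub (enc_rat _ 20579 100000) (pr_scale 337 3125 h1)) (pr_cmul (enc_norm (bx2q2_3.enc h1.l h2)) (pr_norm (pr_csub (enc_rat _ 26971 5000) (pr_scale 3383 625 h1))))) (pr_add (pr_csub (enc_rat _ 267323 1300000) (pr_scale 7 65 h1)) (pr_cmul (enc_norm (bx2q2_3.enc h1.l h2)) (pr_norm (pr_csub (enc_rat _ 239321 35000) (pr_scale 237 35 h1)))))) (pr_case (pr_subr 231 200 h1) (pr_add (pr_csub (enc_rat _ 10147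 20000) (pr_scale 19 50 h1)) (pr_cmul (enc_norm (bx2q2_3.enc h1.l h2)) (pr_norm (pr_subr 3660879 235000 (pr_scale 3163 235 h1))))) (pr_add (pr_subr 197767 580000 (pr_scale 257 725 h1)) (pr_cmul (enc_norm (bx2q2_3.enc h1.l h2)) (pr_norm (pr_csub (enc_rat _ 707859 290000) (pr_scale 621 290 h1))))))) (pr_case (pr_subr 166 125 h1) (pr_case (pr_subr 127 100 h1) (pr_add (pr_subr 486029 1425000 (pr_scale 2021 5700 h1)) (pr_cmul (enc_norm (bx2q2_3.enc h1.l h2)) (pr_norm (pr_subr 499 1250 (pr_scale 1 5 h1))))) (pr_add (pr_subr 1176147 2900000 (pr_scale 2351 5800 h1)) (pr_cmul (enc_norm (bx2q2_3.enc h1.l h2)) (pr_norm (pr_subr 116403 290000 (bx2q2_73_s.snd h1 h2)))))) (pr_case (pr_subr 277 200 h1) (pr_add (pr_subr 3146431 5700000 (pr_scale 2939 5700 h1)) (pr_cmul (enc_norm (bx2q2_3.enc h1.l h2)) (pr_norm (pr_subr 45763 114000 (bx2q2_86_s.snd h1 h2))))) (pr_case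 (pr_subr 1443 1000 h1) (pr_add (pr_subr 1004501 1450000 (pr_scale 179 290 h1)) (pr_cmul (enc_norm (bx2q2_3.enc h1.l h2)) (pr_norm (pr_subr 46561 116000 (bx2q2_73_s.snd h1 h2))))) (pr_add (pr_subr 1995763 1900000 (pr_scale 4931 5700 h1)) (pr_cmul (enc_norm (bx2q2_3.enc h1.l h2)) (pr_norm (pr_subr 4767 11875 (bx2q2_86_s.snd h1 h2))))))))))⟩
noncomputable def l2q2_s : Sl2 l2q2 := ⟨_, fun h1 h2 => (pr_norm (pr_mul (cv2p_s.snd h1) (bx2q2_s.snd h1 h2)))⟩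
noncomputable def bd2q2_s : Sl2 bd2q2 := ⟨_, fun h1 h2 => (pr_norm (pr_add (pr_subr 35877 5000 (pr_scale 8449 1250 h1)) (pr_cmul (enc_norm (enc_subr 83 100 h2)) (pr_norm (pr_csub (enc_rat _ 62019 1000) (pr_scale 1777 50 h1))))))⟩
noncomputable def kc2q2_s : Sl2 kc2q2 := ⟨_, fun h1 h2 => (pr_norm (pr_mul (cv2p_s.snd h1) (bd2q2_s.snd h1 h2)))⟩
noncomputable def ycg_s : Sl1 ycg := ⟨_, fun h1 => (pr_sqrtg (pr_scale 4 3 (pr_csub (enc_pnc _ 3) (pr_sq h1))))⟩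
noncomputable def xc23_s : Sl1 xc23 := ⟨_, fun h1 => (pr_norm (pr_add (pr_scale 17 20 (pr_subr 1 2 (swg_s.snd (pr_nd (ycg_s.snd h1))))) (pr_scale 3 20 h1)))⟩
noncomputable def kfc23_6_s : Sl2 kfc23_6 := ⟨_, fun h1 h2 => (pr_subr 1 2 (swg_s.snd (pr_nd (ycg_s.snd h1))))⟩
noncomputable def kfc23_9_s : Sl2 kfc23_9 := ⟨_, fun h1 h2 => (pr_add (pr_scale 17 20 (kfc23_6_s.snd h1 h2)) (pr_scale 3 20 h1))⟩
noncomputable def kfc23_45_s : Sl2 kfc23_45 := ⟨_, fun h1 h2 => (pr_subn 1 (ycg_s.snd h1))⟩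
noncomputable def kfc23_46_s : Sl2 kfc23_46 := ⟨_, fun h1 h2 => (gsg_s.snd (pr_norm (kfc23_45_s.snd h1 h2)))⟩
noncomputable def kfc23_47_s : Sl2 kfc23_47 := ⟨_, fun h1 h2 => (pr_scale 3 4 (kfc23_45_s.snd h1 h2))⟩
noncomputable def kfc23_48_s : Sl2 kfc23_48 := ⟨_, fun h1 h2 => (pr_half (kfc23_46_s.snd h1 h2))⟩
noncomputable def kfc23_65_s : Sl2 kfc23_65 := ⟨_, fun h1 h2 => (cv1r_s.snd (pr_nd (ycg_s.snd h1)))⟩
noncomputable def kfc23_67_s : Sl2 kfc23_67 := ⟨_, fun h1 h2 => (pr_subr 89 50 (ycg_s.snd h1))⟩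
noncomputable def kfc23_79_s : Sl2 kfc23_79 := ⟨_, fun h1 h2 => (pr_subr 47 25 (ycg_s.snd h1))⟩
noncomputable def kfc23_101_s : Sl2 kfc23_101 := ⟨_, fun h1 h2 => (pr_mul (kfc23_65_s.snd h1 h2) (pr_norm (pr_case (kfc23_67_s.snd h1 h2) (pr_add (pr_csub (enc_rat _ 16479 21875) (pr_scale 9721 14000 (ycg_s.snd h1))) (pr_cmul (enc_norm (kfc23_11.enc h1.l h2)) (pr_norm (pr_subr 15176401 140000 (pr_scale 33583 560 (ycg_s.snd h1)))))) (pr_case (kfc23_79_s.snd h1 h2) (pr_add (pr_csub (enc_rat _ 376701 500000) (pr_scale 434 625 (ycg_s.snd h1))) (pr_cmul (enc_norm (kfc23_11.enc h1.l h2)) (pr_norm (pr_subr 216807 2000 (pr_scale 5997 100 (ycg_s.snd h1)))))) (pr_add (pr_subr 76623 100000 (pr_scale 53540000 147732867 h1)) (pr_cmul (enc_norm (kfc23_11.enc h1.l h2)) (pr_norm (pr_addc (pr_scale 585700000 147732867 h1) (enc_rat _ 19973 10000)))))))))⟩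
noncomputable def kfc23_s : Sl2 kfc23 := ⟨_, fun h1 h2 => (pr_norm (pr_case (kfc23_67_s.snd h1 h2) (pr_mul (pr_norm (kfc23_9_s.snd h1 h2)) (pr_norm (pr_add (pr_subr 8858856619 5600000000 (pr_scale 2805578873 2800000000 (ycg_s.snd h1))) (pr_cmul (enc_norm (kfc23_11.enc h1.l h2)) (pr_norm (pr_csub (enc_rat _ 77985729 1400000) (pr_scale 21867623 700000 (ycg_s.snd h1)))))))) (pr_case (kfc23_79_s.snd h1 h2) (pr_add (kfc23_101_s.snd h1 h2) (pr_mul (pr_norm (pr_mul (pr_norm (pr_sub (pr_mul (pr_norm (pr_subn 2 (ycg_s.snd h1))) (pr_norm (pr_add (pr_mul (pr_norm (pr_sub (pr_sub (kfc23_48_s.snd h1 h2) (kfc23_47_s.snd h1 h2)) (pr_csub (enc_rat _ 1 4) (pr_scale 3 8 (pr_mul (pr_norm (kfc23_45_s.snd h1 h2)) (pr_nd (pr_inv (kfc23_46_s.snd h1 h2)))))))) (pr_nd (pr_inv (esg_s.snd (pr_norm (kfc23_45_s.snd h1 h2)))))) (kcg_s.snd (pr_norm (pr_sub (kfc23_47_s.snd h1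 h2) (kfc23_48_s.snd h1 h2))) h2)))) (kfc23_101_s.snd h1 h2))) (pr_norm (pr_sub (kfc23_9_s.snd h1 h2) (kfc23_65_s.snd h1 h2))))) (pr_nd (pr_inv (pr_sub (kfc23_6_s.snd h1 h2) (kfc23_65_s.snd h1 h2)))))) (pr_mul (pr_norm (kfc23_9_s.snd h1 h2)) (pr_norm (pr_case (pr_csub (enc_rat _ 429616471 1000000000) h1) (pr_add (pr_subr 2987794605918700603 1613149970000000000 (pr_scale 6145652893 1613149970 h1)) (pr_cmul (enc_norm (kfc23_11.enc h1.l h2)) (pr_norm (pr_csub (enc_rat _ 149139926126999191 20164374625000000) (pr_scale 2346678568 161314997 h1))))) (pr_add (pr_csub (enc_rat _ 1 2) (pr_scale 715430000 429616471 h1)) (pr_cmul (enc_norm (kfc23_11.enc h1.l h2)) (pr_nd (pr_scale 1146500000 429616471 h1))))))))))⟩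
noncomputable def lc23_6_s : Sl2 lc23_6 := ⟨_, fun h1 h2 => (pr_subr 1 2 (swg_s.snd (pr_nd (ycg_s.snd h1))))⟩
noncomputable def lc23_9_s : Sl2 lc23_9 := ⟨_, fun h1 h2 => (pr_add (pr_scale 17 20 (lc23_6_s.snd h1 h2)) (pr_scale 3 20 h1))⟩
noncomputable def lc23_72_s : Sl2 lc23_72 := ⟨_, fun h1 h2 => (pr_subn 1 (ycg_s.snd h1))⟩
noncomputable def lc23_85_s : Sl2 lc23_85 := ⟨_, fun h1 h2 => (cv1r_s.snd (pr_nd (ycg_s.snd h1)))⟩
noncomputable def lc23_87_s : Sl2 lc23_87 := ⟨_, fun h1 h2 => (pr_subr 89 50 (ycg_s.snd h1))⟩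
noncomputable def lc23_99_s : Sl2 lc23_99 := ⟨_, fun h1 h2 => (pr_subr 47 25 (ycg_s.snd h1))⟩
noncomputable def lc23_122_s : Sl2 lc23_122 := ⟨_, fun h1 h2 => (pr_mul (lc23_85_s.snd h1 h2) (pr_norm (pr_case (lc23_87_s.snd h1 h2) (pr_add (pr_subr 2761231 1400000 (pr_scale 43419 28000 (ycg_s.snd h1))) (pr_cmul (enc_norm (lc23_11.enc h1.l h2)) (pr_norm (pr_subr 29957 28000 (pr_scale 2167 2800 (ycg_s.snd h1)))))) (pr_case (lc23_99_s.snd h1 h2) (pr_add (pr_subr 246521 125000 (pr_scale 7753 5000 (ycg_s.snd h1))) (pr_cmul (enc_norm (lc23_11.enc h1.l h2)) (pr_norm (pr_subr 53501 50000 (pr_scale 387 500 (ycg_s.snd h1)))))) (pr_add (pr_csub (enc_rat _ 3366 3125) (pr_scale 11180000 49244289 h1)) (pr_cmul (enc_norm (lc23_11.enc h1.l h2)) (pr_norm (pr_subr 521 400 (pr_scale 421900000 147732867 h1)))))))))⟩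
noncomputable def lc23_s : Sl2 lc23 := ⟨_, fun h1 h2 => (pr_norm (pr_case (lc23_87_s.snd h1 h2) (pr_mul (pr_norm (lc23_9_s.snd h1 h2)) (pr_norm (pr_case (pr_subr 431 250 (ycg_s.snd h1)) (pr_add (pr_subr 6424137 5600000 (pr_scale 20823 22400 (ycg_s.snd h1))) (pr_cmul (enc_norm (lc23_11.enc h1.l h2)) (pr_norm (pr_subr 225203 560000 (pr_scale 453 2240 (ycg_s.snd h1)))))) (pr_add (pr_add (pr_subr 160627576947 140000000000 (pr_scale 520631037 560000000 (ycg_s.snd h1))) (pr_cmul (enc_norm (lc23_11.enc h1.l h2)) (pr_norm (pr_subr 60767301053 3500000000 (pr_scale 140556963 14000000 (ycg_s.snd h1)))))) (pr_cmul (lc23_38.enc h1.l h2) (pr_norm (pr_subr 18760137 2800000 (pr_scale 43527 11200 (ycg_s.snd h1))))))))) (pr_case (lc23_99_s.snd h1 h2) (pr_add (lc23_122_s.snd h1 h2) (pr_mul (pr_norm (pr_mul (pr_norm (pr_sub (pr_sub (qsg_s.snd (pr_norm (lc23_72_s.snd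 h1 h2))) (pr_mul (pr_norm (pr_nat 2 (pr_subc (lc23_72_s.snd h1 h2) h2))) (pr_norm (pr_mul (esg_s.snd (pr_norm (lc23_72_s.snd h1 h2))) (kcg_s.snd (pr_norm (pr_sub (pr_scale 3 4 (lc23_72_s.snd h1 h2)) (pr_half (gsg_s.snd (pr_norm (lc23_72_s.snd h1 h2)))))) h2))))) (lc23_122_s.snd h1 h2))) (pr_norm (pr_sub (lc23_9_s.snd h1 h2) (lc23_85_s.snd h1 h2))))) (pr_nd (pr_inv (pr_sub (lc23_6_s.snd h1 h2) (lc23_85_s.snd h1 h2)))))) (pr_mul (pr_norm (lc23_9_s.snd h1 h2)) (pr_norm (pr_case (pr_csub (enc_rat _ 429616471 1000000000) h1) (pr_add (pr_add (pr_csub (enc_rat _ 523747551432281503 806574985000000000) (pr_scale 48470793 806574985 h1)) (pr_cmul (enc_norm (lc23_11.enc h1.l h2)) (pr_norm (pr_csub (enc_rat _ 1123699774861788451 161314997000000000) (pr_scale 1700303381 161314997 h1))))) (pr_cmul (lc23_38.enc h1.l h2) (pr_norm (pr_subr 7531606353101 6452599880000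 (pr_scale 438275000 161314997 h1))))) (pr_add (pr_addc (pr_scale 130605000 429616471 h1) (enc_rat _ 19717 40000)) (pr_cmul (enc_norm (lc23_11.enc h1.l h2)) (pr_norm (pr_addc (pr_scale 1225100000 429616471 h1) (enc_rat _ 97 80)))))))))))⟩
noncomputable def kcc23_6_s : Sl2 kcc23_6 := ⟨_, fun h1 h2 => (pr_subr 1 2 (swg_s.snd (pr_nd (ycg_s.snd h1))))⟩
noncomputable def kcc23_9_s : Sl2 kcc23_9 := ⟨_, fun h1 h2 => (pr_add (pr_scale 17 20 (kcc23_6_s.snd h1 h2)) (pr_scale 3 20 h1))⟩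
noncomputable def kcc23_35_s : Sl2 kcc23_35 := ⟨_, fun h1 h2 => (pr_subn 1 (ycg_s.snd h1))⟩
noncomputable def kcc23_36_s : Sl2 kcc23_36 := ⟨_, fun h1 h2 => (gsg_s.snd (pr_norm (kcc23_35_s.snd h1 h2)))⟩
noncomputable def kcc23_40_s : Sl2 kcc23_40 := ⟨_, fun h1 h2 => (esg_s.snd (pr_norm (kcc23_35_s.snd h1 h2)))⟩
noncomputable def kcc23_45_s : Sl2 kcc23_45 := ⟨_, fun h1 h2 => (gug_s.snd (pr_norm (kcc23_35_s.snd h1 h2)))⟩
noncomputable def kcc23_47_s : Sl2 kcc23_47 := ⟨_, fun h1 h2 => (pr_mul (pr_norm (kcc23_35_s.snd h1 h2)) (pr_nd (pr_inv (kcc23_36_s.snd h1 h2))))⟩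
noncomputable def kcc23_48_s : Sl2 kcc23_48 := ⟨_, fun h1 h2 => (pr_scale 3 4 (kcc23_47_s.snd h1 h2))⟩
noncomputable def kcc23_73_s : Sl2 kcc23_73 := ⟨_, fun h1 h2 => (cv1r_s.snd (pr_nd (ycg_s.snd h1)))⟩
noncomputable def kcc23_75_s : Sl2 kcc23_75 := ⟨_, fun h1 h2 => (pr_subr 47 25 (ycg_s.snd h1))⟩
noncomputable def kcc23_97_s : Sl2 kcc23_97 := ⟨_, fun h1 h2 => (pr_mul (kcc23_73_s.snd h1 h2) (pr_norm (pr_case (kcc23_75_s.snd h1 h2) (pr_add (pr_subr 1077229 190000 (pr_scale 18653 3800 (ycg_s.snd h1))) (pr_cmul (enc_norm (kcc23_11.enc h1.l h2)) (pr_norm (pr_subr 3 760 (pr_scale 1 380 (ycg_s.snd h1)))))) (pr_add (pr_subr 157 1250 (pr_scale 307025000 49244289 h1)) (pr_cmul (enc_norm (kcc23_11.enc h1.l h2)) (pr_norm (pr_csub (enc_rat _ 763 200) (pr_scale 953500000 147732867 h1))))))))⟩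
noncomputable def kcc23_s : Sl2 kcc23 := ⟨_, fun h1 h2 => (pr_norm (pr_case (pr_subr 89 50 (ycg_s.snd h1)) (pr_mul (pr_norm (kcc23_9_s.snd h1 h2)) (pr_norm (pr_add (pr_subr 40180593627 5600000000 (pr_scale 18925211209 2800000000 (ycg_s.snd h1))) (pr_cmul (enc_norm (kcc23_11.enc h1.l h2)) (pr_norm (pr_csub (enc_rat _ 8682632409 140000000) (pr_scale 2487790803 70000000 (ycg_s.snd h1)))))))) (pr_case (kcc23_75_s.snd h1 h2) (pr_add (kcc23_97_s.snd h1 h2) (pr_mul (pr_norm (pr_mul (pr_norm (pr_sub (pr_add (pr_sub (pr_add (pr_cadd (enc_rat _ 3 4) (pr_scale 3 2 (kcc23_35_s.snd h1 h2))) (pr_scale 3 4 (pr_mul (pr_norm (kcc23_47_s.snd h1 h2)) (kcc23_45_s.snd h1 h2)))) (pr_mul (pr_norm (pr_sub (pr_mul (pr_norm (pr_mul (pr_norm (kcc23_48_s.snd h1 h2)) (pr_norm (pr_subn 3 (pr_nat 4 (kcc23_36_s.snd h1 h2)))))) (kcc23_40_s.snd h1 h2)) (pr_mul (qsg_s.snd (pr_norm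 (kcc23_35_s.snd h1 h2))) (pr_norm (pr_csub (enc_rat _ 1 2) (kcc23_48_s.snd h1 h2)))))) (pr_nd (pr_inv (pr_mul (pr_nd (pr_nat 2 (kcc23_40_s.snd h1 h2))) (kcc23_40_s.snd h1 h2)))))) (pr_mul (kcg_s.snd (pr_norm (pr_sub (pr_scale 3 4 (kcc23_35_s.snd h1 h2)) (pr_half (kcc23_36_s.snd h1 h2)))) h2) (pr_norm (pr_csub (enc_pnc _ 1) (pr_add (kcc23_45_s.snd h1 h2) (pr_nat 2 (kcc23_36_s.snd h1 h2))))))) (kcc23_97_s.snd h1 h2))) (pr_norm (pr_sub (kcc23_9_s.snd h1 h2) (kcc23_73_s.snd h1 h2))))) (pr_nd (pr_inv (pr_sub (kcc23_6_s.snd h1 h2) (kcc23_73_s.snd h1 h2)))))) (pr_mul (pr_norm (kcc23_9_s.snd h1 h2)) (pr_norm (pr_add (pr_subr 567 334 (pr_scale 2376081568118 123356943945 h1)) (pr_cmul (enc_norm (kcc23_11.enc h1.l h2)) (pr_norm (pr_csub (enc_rat _ 15033 334) (pr_scale 8137396997531 98685555156 h1))))))))))⟩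
noncomputable def cv3m_s : Sl1 cv3m := ⟨_, fun h1 => (pr_norm (pr_add (pr_half (pr_addc (swg_s.snd h1) (enc_rat _ 1 2))) (pr_half (c3g_s.snd h1))))⟩
noncomputable def bf3q0_s : Sl2 bf3q0 := ⟨_, fun h1 h2 => (pr_norm (pr_add (pr_csub (enc_rat _ 9839 20000) (pr_scale 12607 6250 h1)) (pr_cmul (enc_norm (enc_subr 83 100 h2)) (pr_norm (pr_subr 8301 10000 (pr_neg (pr_scale 11253 2500 h1)))))))⟩
noncomputable def kf3q0_s : Sl2 kf3q0 := ⟨_, fun h1 h2 => (pr_norm (pr_mul (cv3m_s.snd h1) (bf3q0_s.snd h1 h2)))⟩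
noncomputable def bx3q0_42_s : Sl2 bx3q0_42 := ⟨_, fun h1 h2 => (pr_scale 7 40 h1)⟩
noncomputable def bx3q0_68_s : Sl2 bx3q0_68 := ⟨_, fun h1 h2 => (pr_scale 429 2450 h1)⟩
noncomputable def bx3q0_72_s : Sl2 bx3q0_72 := ⟨_, fun h1 h2 => (pr_scale 71 490 h1)⟩
noncomputable def bx3q0_s : Sl2 bx3q0 := ⟨_, fun h1 h2 => (pr_norm (pr_case (pr_subr 131 500 h1) (pr_case (pr_subr 3 25 h1) (pr_case (pr_subr 1 16 h1) (pr_add (pr_csub (enc_rat _ 17509 100000) (pr_scale 547 3125 h1)) (pr_cmul (enc_norm (bx3q0_3.enc h1.l h2)) (pr_norm (pr_csub (enc_rat _ 1449 10000) (pr_scale 91 625 h1))))) (pr_add (pr_csub (enc_rat _ 80539 460000) (pr_scale 503 2875 h1)) (pr_cmul (enc_norm (bx3q0_3.enc h1.l h2)) (pr_norm (pr_csub (enc_rat _ 33309 230000) (pr_scale 83 575 h1)))))) (pr_case (pr_subr 11 50 h1) (pr_add (pr_csub (enc_rat _ 87551 500000) (pr_scale 1751 10000 h1))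 (pr_cmul (enc_norm (bx3q0_3.enc h1.l h2)) (pr_norm (pr_csub (enc_rat _ 1449 10000) (pr_scale 29 200 h1))))) (pr_add (pr_csub (enc_rat _ 4377 25000) (bx3q0_42_s.snd h1 h2)) (pr_cmul (enc_norm (bx3q0_3.enc h1.l h2)) (pr_norm (pr_csub (enc_rat _ 1011 7000) (pr_scale 1 7 h1))))))) (pr_case (pr_subr 177 500 h1) (pr_case (pr_subr 61 200 h1) (pr_add (pr_csub (enc_rat _ 30119 172000) (pr_scale 753 4300 h1)) (pr_cmul (enc_norm (bx3q0_3.enc h1.l h2)) (pr_norm (pr_csub (enc_rat _ 15629 107500) (pr_scale 63 430 h1))))) (pr_add (pr_csub (enc_rat _ 42901 245000) (bx3q0_68_s.snd h1 h2)) (pr_cmul (enc_norm (bx3q0_3.enc h1.l h2)) (pr_norm (pr_csub (enc_rat _ 35499 245000) (bx3q0_72_s.snd h1 h2)))))) (pr_case (pr_subr 201 500 h1) (pr_add (pr_csub (enc_rat _ 17507 100000) (bx3q0_42_s.snd h1 h2)) (pr_cmul (enc_norm (bx3q0_3.enc h1.l h2)) (pr_norm (pr_csub (enc_rat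 _ 11559 80000) (pr_scale 23 160 h1))))) (pr_add (pr_csub (enc_rat _ 214511 1225000) (bx3q0_68_s.snd h1 h2)) (pr_cmul (enc_norm (bx3q0_3.enc h1.l h2)) (pr_norm (pr_csub (enc_rat _ 2841 19600) (bx3q0_72_s.snd h1 h2)))))))))⟩
noncomputable def l3q0_s : Sl2 l3q0 := ⟨_, fun h1 h2 => (pr_norm (pr_mul (cv3m_s.snd h1) (bx3q0_s.snd h1 h2)))⟩
noncomputable def bd3q0_s : Sl2 bd3q0 := ⟨_, fun h1 h2 => (pr_norm (pr_case (pr_subr 3 25 h1) (pr_add (pr_csub (enc_rat _ 3039 10000) (pr_scale 73 240 h1)) (pr_cmul (enc_norm (bd3q0_3.enc h1.l h2)) (pr_norm (pr_csub (enc_rat _ 69273 1000) (pr_scale 2771 40 h1))))) (pr_add (pr_csub (enc_rat _ 5773 19000) (pr_scale 577 1900 h1)) (pr_cmul (enc_norm (bd3q0_3.enc h1.l h2)) (pr_norm (pr_csub (enc_rat _ 164523 2375) (pr_scale 6581 95 h1)))))))⟩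
noncomputable def kc3q0_s : Sl2 kc3q0 := ⟨_, fun h1 h2 => (pr_norm (pr_mul (cv3m_s.snd h1) (bd3q0_s.snd h1 h2)))⟩
noncomputable def bf3q1_s : Sl2 bf3q1 := ⟨_, fun h1 h2 => (pr_norm (pr_add (pr_subr 313 6250 (pr_scale 6563 6250 h1)) (pr_cmul (enc_norm (enc_subr 83 100 h2)) (pr_norm (pr_subr 289 625 (pr_scale 289 625 h1))))))⟩
noncomputable def kf3q1_s : Sl2 kf3q1 := ⟨_, fun h1 h2 => (pr_norm (pr_mul (cv3m_s.snd h1) (bf3q1_s.snd h1 h2)))⟩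
noncomputable def bx3q1_s : Sl2 bx3q1 := ⟨_, fun h1 h2 => (pr_norm (pr_add (pr_csub (enc_rat _ 2189 12500) (pr_scale 2189 12500 h1)) (pr_cmul (enc_norm (enc_subr 83 100 h2)) (pr_norm (pr_csub (enc_rat _ 29 200) (pr_scale 29 200 h1))))))⟩
noncomputable def l3q1_s : Sl2 l3q1 := ⟨_, fun h1 h2 => (pr_norm (pr_mul (cv3m_s.snd h1) (bx3q1_s.snd h1 h2)))⟩
noncomputable def bd3q1_s : Sl2 bd3q1 := ⟨_, fun h1 h2 => (pr_norm (pr_add (pr_csub (enc_rat _ 38 125) (pr_scale 38 125 h1)) (pr_cmul (enc_norm (enc_subr 83 100 h2)) (pr_norm (pr_csub (enc_rat _ 8659 125) (pr_scale 8659 125 h1))))))⟩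
noncomputable def kc3q1_s : Sl2 kc3q1 := ⟨_, fun h1 h2 => (pr_norm (pr_mul (cv3m_s.snd h1) (bd3q1_s.snd h1 h2)))⟩
noncomputable def cv3p_s : Sl1 cv3p := ⟨_, fun h1 => (pr_norm (pr_add (pr_half (pr_subr 1 2 (swg_s.snd h1))) (pr_half (c3g_s.snd h1))))⟩
noncomputable def bf3q2_s : Sl2 bf3q2 := ⟨_, fun h1 h2 => (pr_norm (pr_add (pr_subr 33113 100000 (pr_scale 12429 12500 h1)) (pr_cmul (enc_norm (enc_subr 83 100 h2)) (pr_norm (pr_csub (enc_rat _ 199103 10000) (pr_scale 101501 5000 h1))))))⟩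
noncomputable def kf3q2_s : Sl2 kf3q2 := ⟨_, fun h1 h2 => (pr_norm (pr_mul (cv3p_s.snd h1) (bf3q2_s.snd h1 h2)))⟩
noncomputable def bx3q2_18_s : Sl2 bx3q2_18 := ⟨_, fun h1 h2 => (pr_scale 1973 2850 h1)⟩
noncomputable def bx3q2_22_s : Sl2 bx3q2_22 := ⟨_, fun h1 h2 => (pr_scale 1138 285 h1)⟩
noncomputable def bx3q2_s : Sl2 bx3q2 := ⟨_, fun h1 h2 => (pr_norm (pr_case (pr_subr 277 200 h1) (pr_case (pr_subr 166 125 h1) (pr_add (pr_subr 1023091 2050000 (pr_scale 14737 32800 h1)) (pr_cmul (enc_norm (bx3q2_3.enc h1.l h2)) (pr_norm (pr_subr 3269247 410000 (pr_scale 1623 205 h1))))) (pr_add (pr_subr 146374 178125 (bx3q2_18_s.snd h1 h2)) (pr_cmul (enc_norm (bx3q2_3.enc h1.l h2)) (pr_norm (pr_csub (enc_rat _ 894077 114000) (bx3q2_22_s.snd h1 h2)))))) (pr_case (pr_subr 1443 1000 h1) (pr_add (pr_subr 2382221 2900000 (pr_scale 2007 2900 h1)) (pr_cmul (enc_norm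 (bx3q2_3.enc h1.l h2)) (pr_norm (pr_csub (enc_rat _ 181901 23200) (pr_scale 463 116 h1))))) (pr_add (pr_subr 780673 950000 (bx3q2_18_s.snd h1 h2)) (pr_cmul (enc_norm (bx3q2_3.enc h1.l h2)) (pr_norm (pr_csub (enc_rat _ 745073 95000) (bx3q2_22_s.snd h1 h2))))))))⟩
noncomputable def l3q2_s : Sl2 l3q2 := ⟨_, fun h1 h2 => (pr_norm (pr_mul (cv3p_s.snd h1) (bx3q2_s.snd h1 h2)))⟩
noncomputable def bd3q2_s : Sl2 bd3q2 := ⟨_, fun h1 h2 => (pr_norm (pr_add (pr_csub (enc_rat _ 8917 2000) (pr_scale 2189 1250 h1)) (pr_cmul (enc_norm (enc_subr 83 100 h2)) (pr_norm (pr_subr 132811 1000 (pr_scale 64619 500 h1))))))⟩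
noncomputable def kc3q2_s : Sl2 kc3q2 := ⟨_, fun h1 h2 => (pr_norm (pr_mul (cv3p_s.snd h1) (bd3q2_s.snd h1 h2)))⟩
noncomputable def xc33_s : Sl1 xc33 := ⟨_, fun h1 => (pr_norm (pr_add (pr_half (pr_subr 1 2 (swg_s.snd (pr_nd (ycg_s.snd h1))))) (pr_half h1)))⟩
noncomputable def kfc33_17_s : Sl2 kfc33_17 := ⟨_, fun h1 h2 => (pr_csub (enc_rat _ 37491 100000) (pr_scale 61 400 (ycg_s.snd h1)))⟩
noncomputable def kfc33_s : Sl2 kfc33 := ⟨_, fun h1 h2 => (pr_norm (pr_mul (pr_norm (pr_add (pr_half (pr_subr 1 2 (swg_s.snd (pr_nd (ycg_s.snd h1))))) (pr_half h1))) (pr_norm (pr_case (pr_subr 89 50 (ycg_s.snd h1)) (pr_add (kfc33_17_s.snd h1 h2) (pr_cmul (enc_norm (kfc33_11.enc h1.l h2)) (pr_norm (pr_subr 1750549 35000 (pr_scale 4757 175 (ycg_s.snd h1)))))) (pr_case (pr_subr 47 25 (ycg_s.snd h1)) (pr_add (kfc33_17_s.snd h1 h2) (pr_cmul (enc_norm (kfc33_11.enc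 h1.l h2)) (pr_norm (pr_subr 2500797 50000 (pr_scale 27183 1000 (ycg_s.snd h1)))))) (pr_add (pr_csub (enc_rat _ 1 2) (pr_scale 102947500 147732867 h1)) (pr_cmul (enc_norm (kfc33_11.enc h1.l h2)) (pr_nd (pr_scale 30225000 16414763 h1)))))))))⟩
noncomputable def lc33_s : Sl2 lc33 := ⟨_, fun h1 h2 => (pr_norm (pr_mul (pr_norm (pr_add (pr_half (pr_subr 1 2 (swg_s.snd (pr_nd (ycg_s.snd h1))))) (pr_half h1))) (pr_norm (pr_case (pr_subr 47 25 (ycg_s.snd h1)) (pr_case (pr_subr 89 50 (ycg_s.snd h1)) (pr_add (pr_subr 1188501 1400000 (pr_scale 19891 28000 (ycg_s.snd h1))) (pr_cmul (enc_norm (lc33_11.enc h1.l h2)) (pr_norm (pr_csub (enc_rat _ 137247 17500) (pr_scale 559 140 (ycg_s.snd h1)))))) (pr_add (pr_subr 424471 500000 (pr_scale 444 625 (ycg_s.snd h1))) (pr_cmul (enc_norm (lc33_11.enc h1.l h2)) (pr_norm (pr_csub (enc_rat _ 392147 50000) (pr_scale 3993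 1000 (ycg_s.snd h1))))))) (pr_case (pr_csub (enc_rat _ 429616471 1000000000) h1) (pr_add (pr_csub (enc_rat _ 11460340338497 16131499700000) (pr_scale 61100000 161314997 h1)) (pr_cmul (enc_norm (lc33_11.enc h1.l h2)) (pr_norm (pr_subr 234895175503 1613149970000 (pr_scale 131500000 161314997 h1))))) (pr_add (pr_addc (pr_scale 54785000 429616471 h1) (enc_rat _ 19717 40000)) (pr_cmul (enc_norm (lc33_11.enc h1.l h2)) (pr_norm (pr_csub (enc_rat _ 97 80) (pr_scale 1007900000 429616471 h1))))))))))⟩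
noncomputable def kcc33_s : Sl2 kcc33 := ⟨_, fun h1 h2 => (pr_norm (pr_mul (pr_norm (pr_add (pr_half (pr_subr 1 2 (swg_s.snd (pr_nd (ycg_s.snd h1))))) (pr_half h1))) (pr_norm (pr_case (pr_subr 89 50 (ycg_s.snd h1)) (pr_add (pr_csub (enc_rat _ 624163 140000) (pr_scale 4903 2800 (ycg_s.snd h1))) (pr_cmul (enc_norm (kcc33_11.enc h1.l h2)) (pr_norm (pr_subr 116216 875 (pr_scale 9047 70 (ycg_s.snd h1)))))) (pr_case (pr_subr 47 25 (ycg_s.snd h1)) (pr_add (pr_csub (enc_rat _ 222909 50000) (pr_scale 1751 1000 (ycg_s.snd h1))) (pr_cmul (enc_norm (kcc33_11.enc h1.l h2)) (pr_norm (pr_subr 332033 2500 (pr_scale 3231 25 (ycg_s.snd h1)))))) (pr_add (pr_subr 567 334 (pr_scale 119568025000 24671388789 h1)) (pr_cmul (enc_norm (kcc33_11.enc h1.l h2)) (pr_norm (pr_addc (pr_scale 2719971500000 24671388789 h1) (enc_rat _ 15033 334))))))))))⟩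
noncomputable def kf4q0_s : Sl2 kf4q0 := ⟨_, fun h1 h2 => (pr_norm (pr_sub (pr_mul h1 (kcg_s.snd (pr_nd (pr_half h1)) h2)) (pr_mul (pr_norm (pr_mul (pr_nd (pr_sq h1)) (pr_norm (pr_addc (c3g_s.snd h1) (enc_rat _ 3 2))))) (pr_nd (pr_inv (pr_mul (pr_norm (pr_csub (enc_pnc _ 1) h1)) (pr_norm (pr_cadd (enc_pnc _ 1) h1))))))))⟩
noncomputable def l4q0_6_s : Sl2 l4q0_6 := ⟨_, fun h1 h2 => (pr_half h1)⟩
noncomputable def l4q0_7_s : Sl2 l4q0_7 := ⟨_, fun h1 h2 => (pr_half (c3g_s.snd h1))⟩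
noncomputable def l4q0_8_s : Sl2 l4q0_8 := ⟨_, fun h1 h2 => (pr_scale 1 4 h1)⟩
noncomputable def l4q0_s : Sl2 l4q0 := ⟨_, fun h1 h2 => (pr_norm (pr_add (txg_s.snd (pr_nd (l4q0_6_s.snd h1 h2)) (pr_norm (pr_sub (l4q0_7_s.snd h1 h2) (l4q0_8_s.snd h1 h2))) h2) (txg_s.snd (pr_nd (pr_neg (l4q0_6_s.snd h1 h2))) (pr_norm (pr_add (l4q0_7_s.snd h1 h2) (l4q0_8_s.snd h1 h2))) h2)))⟩
noncomputable def kc4q0_6_s : Sl2 kc4q0_6 := ⟨_, fun h1 h2 => (pr_half h1)⟩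
noncomputable def kc4q0_s : Sl2 kc4q0 := ⟨_, fun h1 h2 => (pr_norm (pr_case (pr_subr 167 1000 (kc4q0_6_s.snd h1 h2)) (pr_add (pr_csub (enc_rat _ 8153 1250) (pr_scale 1280 167 h1)) (pr_cmul (enc_norm (kc4q0_3.enc h1.l h2)) (pr_norm (pr_addc (pr_scale 11572 167 h1) (enc_rat _ 14769 500))))) (pr_case (pr_subr 333 1000 (kc4q0_6_s.snd h1 h2)) (pr_add (pr_csub (enc_rat _ 10827233 1660000) (pr_scale 25447 3320 h1)) (pr_cmul (enc_norm (kc4q0_3.enc h1.l h2)) (pr_norm (pr_addc (pr_scale 11503 166 h1) (enc_rat _ 490321 16600))))) (pr_add (pr_csub (enc_rat _ 14177 3340) (pr_scale 14177 3340 h1)) (pr_cmul (enc_norm (kc4q0_3.enc h1.l h2)) (pr_norm (pr_csub (enc_rat _ 37844 167) (pr_scale 37844 167 h1))))))))⟩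
noncomputable def kf4q1_s : Sl2 kf4q1 := ⟨_, fun h1 h2 => (pr_norm (pr_add (pr_mul (pr_norm (pr_mul h1 (pr_norm (pr_addc (c3g_s.snd h1) (enc_rat _ 3 2))))) (pr_nd (pr_inv (pr_cadd (enc_pnc _ 1) h1)))) (pr_mul (pr_norm (pr_subn 1 h1)) (kcg_s.snd (pr_nd (pr_half h1)) h2))))⟩
noncomputable def l4q1_7_s : Sl2 l4q1_7 := ⟨_, fun h1 h2 => (pr_half h1)⟩
noncomputable def l4q1_8_s : Sl2 l4q1_8 := ⟨_, fun h1 h2 => (pr_half (c3g_s.snd h1))⟩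
noncomputable def l4q1_9_s : Sl2 l4q1_9 := ⟨_, fun h1 h2 => (pr_scale 1 4 h1)⟩
noncomputable def l4q1_s : Sl2 l4q1 := ⟨_, fun h1 h2 => (pr_norm (pr_add (txg_s.snd (pr_nd (l4q1_7_s.snd h1 h2)) (pr_norm (pr_sub (l4q1_8_s.snd h1 h2) (l4q1_9_s.snd h1 h2))) h2) (txg_s.snd (pr_nd (pr_neg (l4q1_7_s.snd h1 h2))) (pr_norm (pr_add (l4q1_8_s.snd h1 h2) (l4q1_9_s.snd h1 h2))) h2)))⟩
noncomputable def kc4q1_7_s : Sl2 kc4q1_7 := ⟨_, fun h1 h2 => (pr_half h1)⟩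
noncomputable def kc4q1_s : Sl2 kc4q1 := ⟨_, fun h1 h2 => (pr_norm (pr_case (pr_subr 167 1000 (kc4q1_7_s.snd h1 h2)) (pr_add (pr_csub (enc_rat _ 8153 1250) (pr_scale 1280 167 h1)) (pr_cmul (enc_norm (kc4q1_3.enc h1.l h2)) (pr_norm (pr_addc (pr_scale 11572 167 h1) (enc_rat _ 14769 500))))) (pr_case (pr_subr 333 1000 (kc4q1_7_s.snd h1 h2)) (pr_add (pr_csub (enc_rat _ 10827233 1660000) (pr_scale 25447 3320 h1)) (pr_cmul (enc_norm (kc4q1_3.enc h1.l h2)) (pr_norm (pr_addc (pr_scale 11503 166 h1) (enc_rat _ 490321 16600))))) (pr_add (pr_csub (enc_rat _ 14177 3340) (pr_scale 14177 3340 h1)) (pr_cmul (enc_norm (kc4q1_3.enc h1.l h2)) (pr_norm (pr_csub (enc_rat _ 37844 167) (pr_scale 37844 167 h1))))))))⟩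
noncomputable def kf4q2_s : Sl2 kf4q2 := ⟨_, fun h1 h2 => (pr_norm (pr_add (pr_mul (pr_norm (pr_mul (pr_norm (pr_sub (pr_nat 2 (c3g_s.snd h1)) h1)) (pr_norm (pr_sub (pr_addc (c3g_s.snd h1) (enc_pnc _ 3)) (pr_scale 3 2 h1))))) (pr_nd (pr_inv (pr_nat 4 (pr_csub (enc_pnc _ 2) h1))))) (pr_mul (pr_norm (pr_subn 1 h1)) (kcg_s.snd (pr_norm (pr_sub (pr_scale 1 4 h1) (pr_half (c3g_s.snd h1)))) h2))))⟩
noncomputable def l4q2_7_s : Sl2 l4q2_7 := ⟨_, fun h1 h2 => (pr_half (c3g_s.snd h1))⟩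
noncomputable def l4q2_8_s : Sl2 l4q2_8 := ⟨_, fun h1 h2 => (pr_scale 1 4 h1)⟩
noncomputable def l4q2_9_s : Sl2 l4q2_9 := ⟨_, fun h1 h2 => (pr_sub (l4q2_7_s.snd h1 h2) (l4q2_8_s.snd h1 h2))⟩
noncomputable def l4q2_12_s : Sl2 l4q2_12 := ⟨_, fun h1 h2 => (pr_add (pr_scale 1 4 (c3g_s.snd h1)) (pr_scale 3 8 h1))⟩
noncomputable def l4q2_14_s : Sl2 l4q2_14 := ⟨_, fun h1 h2 => (pr_half (l4q2_9_s.snd h1 h2))⟩
noncomputable def l4q2_s : Sl2 l4q2 := ⟨_, fun h1 h2 => (pr_norm (pr_sub (pr_nat 2 (txg_s.snd (pr_norm (pr_sub (l4q2_8_s.snd h1 h2) (l4q2_7_s.snd h1 h2))) (pr_norm (pr_add (l4q2_12_s.snd h1 h2) (l4q2_14_s.snd h1 h2))) h2)) (txg_s.snd (pr_norm (l4q2_9_s.snd h1 h2)) (pr_norm (pr_sub (l4q2_12_s.snd h1 h2) (l4q2_14_s.snd h1 h2))) h2)))⟩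
noncomputable def kc4q2_9_s : Sl2 kc4q2_9 := ⟨_, fun h1 h2 => (pr_sub (pr_half (c3g_s.snd h1)) (pr_scale 1 4 h1))⟩
noncomputable def kc4q2_27_s : Sl2 kc4q2_27 := ⟨_, fun h1 h2 => (pr_scale 751 830 (kc4q2_9_s.snd h1 h2))⟩
noncomputable def kc4q2_39_s : Sl2 kc4q2_39 := ⟨_, fun h1 h2 => (pr_subr 2657 10000 (pr_scale 1511 1670 (kc4q2_9_s.snd h1 h2)))⟩
noncomputable def kc4q2_s : Sl2 kc4q2 := ⟨_, fun h1 h2 => (pr_norm (pr_case (kc4q2_9_s.snd h1 h2) (pr_case (pr_addc (kc4q2_9_s.snd h1 h2) (enc_rat _ 333 1000)) (pr_add (pr_subr 567 334 (pr_neg (pr_scale 567 167 (kc4q2_9_s.snd h1 h2)))) (pr_cmul (enc_norm (kc4q2_3.enc h1.l h2)) (pr_norm (pr_addc (pr_scale 15033 167 (kc4q2_9_s.snd h1 h2)) (enc_rat _ 15033 334))))) (pr_case (pr_addc (kc4q2_9_s.snd h1 h2) (enc_rat _ 167 1000)) (pr_add (pr_subr 220527 830000 (kc4q2_27_s.snd h1 h2)) (pr_cmul (enc_norm (kc4q2_3.enc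 h1.l h2)) (pr_norm (pr_addc (pr_scale 6083 83 (kc4q2_9_s.snd h1 h2)) (enc_rat _ 1636689 41500))))) (pr_add (kc4q2_39_s.snd h1 h2) (pr_cmul (enc_norm (kc4q2_3.enc h1.l h2)) (pr_norm (pr_addc (pr_scale 12240 167 (kc4q2_9_s.snd h1 h2)) (enc_rat _ 39439 1000))))))) (pr_case (pr_subr 167 1000 (kc4q2_9_s.snd h1 h2)) (pr_add (kc4q2_39_s.snd h1 h2) (pr_cmul (enc_norm (kc4q2_3.enc h1.l h2)) (pr_norm (pr_addc (pr_scale 12239 167 (kc4q2_9_s.snd h1 h2)) (enc_rat _ 39439 1000))))) (pr_case (pr_subr 333 1000 (kc4q2_9_s.snd h1 h2)) (pr_add (pr_subr 44107 166000 (kc4q2_27_s.snd h1 h2)) (pr_cmul (enc_norm (kc4q2_3.enc h1.l h2)) (pr_norm (pr_addc (pr_scale 12167 166 (kc4q2_9_s.snd h1 h2)) (enc_rat _ 6546659 166000))))) (pr_add (pr_csub (enc_rat _ 89 835) (pr_scale 178 835 (kc4q2_9_s.snd h1 h2))) (pr_cmul (enc_norm (kc4q2_3.enc h1.l h2)) (pr_norm (pr_csub (enc_rat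 _ 63845 334) (pr_scale 63845 167 (kc4q2_9_s.snd h1 h2))))))))))⟩
noncomputable def kfc43_s : Sl2 kfc43 := ⟨_, fun h1 h2 => (pr_norm (pr_sub (pr_mul (pr_norm (pr_subn 2 (ycg_s.snd h1))) (kcg_s.snd (pr_norm (pr_sub (pr_scale 1 4 (ycg_s.snd h1)) (pr_half h1))) h2)) (pr_mul (pr_norm (pr_mul (pr_norm (pr_sub (pr_nat 2 h1) (ycg_s.snd h1))) (pr_norm (pr_sub (pr_addc h1 (enc_pnc _ 3)) (pr_scale 3 2 (ycg_s.snd h1)))))) (pr_nd (pr_inv (pr_nat 4 (pr_subn 1 (ycg_s.snd h1))))))))⟩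
noncomputable def lc43_7_s : Sl2 lc43_7 := ⟨_, fun h1 h2 => (pr_half h1)⟩
noncomputable def lc43_8_s : Sl2 lc43_8 := ⟨_, fun h1 h2 => (pr_scale 1 4 (ycg_s.snd h1))⟩
noncomputable def lc43_9_s : Sl2 lc43_9 := ⟨_, fun h1 h2 => (pr_sub (lc43_7_s.snd h1 h2) (lc43_8_s.snd h1 h2))⟩
noncomputable def lc43_12_s : Sl2 lc43_12 := ⟨_, fun h1 h2 => (pr_add (pr_scale 1 4 h1) (pr_scale 3 8 (ycg_s.snd h1)))⟩
noncomputable def lc43_14_s : Sl2 lc43_14 := ⟨_, fun h1 h2 => (pr_half (lc43_9_s.snd h1 h2))⟩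
noncomputable def lc43_s : Sl2 lc43 := ⟨_, fun h1 h2 => (pr_norm (pr_sub (pr_nat 2 (txg_s.snd (pr_norm (pr_sub (lc43_8_s.snd h1 h2) (lc43_7_s.snd h1 h2))) (pr_norm (pr_add (lc43_12_s.snd h1 h2) (lc43_14_s.snd h1 h2))) h2)) (txg_s.snd (pr_norm (lc43_9_s.snd h1 h2)) (pr_norm (pr_sub (lc43_12_s.snd h1 h2) (lc43_14_s.snd h1 h2))) h2)))⟩
noncomputable def kcc43_9_s : Sl2 kcc43_9 := ⟨_, fun h1 h2 => (pr_sub (pr_half h1) (pr_scale 1 4 (ycg_s.snd h1)))⟩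
noncomputable def kcc43_27_s : Sl2 kcc43_27 := ⟨_, fun h1 h2 => (pr_scale 751 830 (kcc43_9_s.snd h1 h2))⟩
noncomputable def kcc43_39_s : Sl2 kcc43_39 := ⟨_, fun h1 h2 => (pr_subr 2657 10000 (pr_scale 1511 1670 (kcc43_9_s.snd h1 h2)))⟩
noncomputable def kcc43_s : Sl2 kcc43 := ⟨_, fun h1 h2 => (pr_norm (pr_case (kcc43_9_s.snd h1 h2) (pr_case (pr_addc (kcc43_9_s.snd h1 h2) (enc_rat _ 333 1000)) (pr_add (pr_subr 567 334 (pr_neg (pr_scale 567 167 (kcc43_9_s.snd h1 h2)))) (pr_cmul (enc_norm (kcc43_4.enc h1.l h2)) (pr_norm (pr_addc (pr_scale 15033 167 (kcc43_9_s.snd h1 h2)) (enc_rat _ 15033 334))))) (pr_case (pr_addc (kcc43_9_s.snd h1 h2) (enc_rat _ 167 1000)) (pr_add (pr_subr 220527 830000 (kcc43_27_s.snd h1 h2)) (pr_cmul (enc_norm (kcc43_4.enc h1.l h2)) (pr_norm (pr_addc (pr_scale 6083 83 (kcc43_9_s.snd h1 h2)) (enc_rat _ 1636689 41500))))) (pr_add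 (kcc43_39_s.snd h1 h2) (pr_cmul (enc_norm (kcc43_4.enc h1.l h2)) (pr_norm (pr_addc (pr_scale 12240 167 (kcc43_9_s.snd h1 h2)) (enc_rat _ 39439 1000))))))) (pr_case (pr_subr 167 1000 (kcc43_9_s.snd h1 h2)) (pr_add (kcc43_39_s.snd h1 h2) (pr_cmul (enc_norm (kcc43_4.enc h1.l h2)) (pr_norm (pr_addc (pr_scale 12239 167 (kcc43_9_s.snd h1 h2)) (enc_rat _ 39439 1000))))) (pr_case (pr_subr 333 1000 (kcc43_9_s.snd h1 h2)) (pr_add (pr_subr 44107 166000 (kcc43_27_s.snd h1 h2)) (pr_cmul (enc_norm (kcc43_4.enc h1.l h2)) (pr_norm (pr_addc (pr_scale 12167 166 (kcc43_9_s.snd h1 h2)) (enc_rat _ 6546659 166000))))) (pr_add (pr_csub (enc_rat _ 89 835) (pr_scale 178 835 (kcc43_9_s.snd h1 h2))) (pr_cmul (enc_norm (kcc43_4.enc h1.l h2)) (pr_norm (pr_csub (enc_rat _ 63845 334) (pr_scale 63845 167 (kcc43_9_s.snd h1 h2))))))))))⟩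
noncomputable def gB0q0 : Gn := ⟨ndB0q0, c1g_s, kf0q0_s, l0q0_s, false⟩
noncomputable def dB0q0 : CnW := ⟨cd0q0, kc0q0_s⟩
noncomputable def gB0q1 : Gn := ⟨ndB0q1, c1g_s, kf0q1_s, l0q1_s, false⟩
noncomputable def dB0q1 : CnW := ⟨cd0q1, kc0q1_s⟩
noncomputable def gB0q2 : Gn := ⟨ndB0q2, idf_s, kfc02_s, lc02_s, true⟩
noncomputable def dB0q2 : CnW := ⟨cd0q2, kcc02_s⟩
noncomputable def gB1q0 : Gn := ⟨ndB1q0, cv1m_s, kf1q0_s, l1q0_s, false⟩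
noncomputable def dB1q0 : CnW := ⟨cd1q0, kc1q0_s⟩
noncomputable def gB1q1 : Gn := ⟨ndB1q1, cv1m_s, kf1q1_s, l1q1_s, false⟩
noncomputable def dB1q1 : CnW := ⟨cd1q1, kc1q1_s⟩
noncomputable def gB1q2 : Gn := ⟨ndB1q2, cv1p_s, kf1q2_s, l1q2_s, false⟩
noncomputable def dB1q2 : CnW := ⟨cd1q2, kc1q2_s⟩
noncomputable def gB1q3 : Gn := ⟨ndB1q3, cv1r_s, kf1q3_s, l1q3_s, false⟩
noncomputable def dB1q3 : CnW := ⟨cd1q3, kc1q3_s⟩
noncomputable def gB2q0 : Gn := ⟨ndB2q0, cv2m_s, kf2q0_s, l2q0_s, false⟩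
noncomputable def dB2q0 : CnW := ⟨cd2q0, kc2q0_s⟩
noncomputable def gB2q1 : Gn := ⟨ndB2q1, cv2m_s, kf2q1_s, l2q1_s, false⟩
noncomputable def dB2q1 : CnW := ⟨cd2q1, kc2q1_s⟩
noncomputable def gB2q2 : Gn := ⟨ndB2q2, cv2p_s, kf2q2_s, l2q2_s, false⟩
noncomputable def dB2q2 : CnW := ⟨cd2q2, kc2q2_s⟩
noncomputable def gB2q3 : Gn := ⟨ndB2q3, xc23_s, kfc23_s, lc23_s, false⟩
noncomputable def dB2q3 : CnW := ⟨cd2q3, kcc23_s⟩
noncomputable def gB3q0 : Gn := ⟨ndB3q0, cv3m_s, kf3q0_s, l3q0_s, false⟩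
noncomputable def dB3q0 : CnW := ⟨cd3q0, kc3q0_s⟩
noncomputable def gB3q1 : Gn := ⟨ndB3q1, cv3m_s, kf3q1_s, l3q1_s, false⟩
noncomputable def dB3q1 : CnW := ⟨cd3q1, kc3q1_s⟩
noncomputable def gB3q2 : Gn := ⟨ndB3q2, cv3p_s, kf3q2_s, l3q2_s, false⟩
noncomputable def dB3q2 : CnW := ⟨cd3q2, kc3q2_s⟩
noncomputable def gB3q3 : Gn := ⟨ndB3q3, xc33_s, kfc33_s, lc33_s, false⟩
noncomputable def dB3q3 : CnW := ⟨cd3q3, kcc33_s⟩
noncomputable def gB4q0 : Gn := ⟨ndB4q0, c3g_s, kf4q0_s, l4q0_s, false⟩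
noncomputable def dB4q0 : CnW := ⟨cd4q0, kc4q0_s⟩
noncomputable def gB4q1 : Gn := ⟨ndB4q1, c3g_s, kf4q1_s, l4q1_s, false⟩
noncomputable def dB4q1 : CnW := ⟨cd4q1, kc4q1_s⟩
noncomputable def gB4q2 : Gn := ⟨ndB4q2, c3g_s, kf4q2_s, l4q2_s, false⟩
noncomputable def dB4q2 : CnW := ⟨cd4q2, kc4q2_s⟩
noncomputable def gB4q3 : Gn := ⟨ndB4q3, idf_s, kfc43_s, lc43_s, false⟩
noncomputable def dB4q3 : CnW := ⟨cd4q3, kcc43_s⟩
noncomputable def gB0q3 : Gn := gz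
noncomputable def dB0q3 : CnW := ⟨fz2, fz2_s⟩
noncomputable def gB (j : Fin 5) (q : ℕ) : Gn :=
  match j, q with
  | 0, 0 => gB0q0
  | 0, 1 => gB0q1
  | 0, 2 => gB0q2
  | 0, 3 => gB0q3
  | 1, 0 => gB1q0
  | 1, 1 => gB1q1
  | 1, 2 => gB1q2
  | 1, 3 => gB1q3
  | 2, 0 => gB2q0
  | 2, 1 => gB2q1
  | 2, 2 => gB2q2
  | 2, 3 => gB2q3
  | 3, 0 => gB3q0
  | 3, 1 => gB3q1
  | 3, 2 => gB3q2
  | 3, 3 => gB3q3
  | 4, 0 => gB4q0
  | 4, 1 => gB4q1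
  | 4, 2 => gB4q2
  | 4, 3 => gB4q3
  | _, _ => gB0q0

noncomputable def dB (j : Fin 5) (q : ℕ) : CnW :=
  match j, q with
  | 0, 0 => dB0q0
  | 0, 1 => dB0q1
  | 0, 2 => dB0q2
  | 0, 3 => dB0q3
  | 1, 0 => dB1q0
  | 1, 1 => dB1q1
  | 1, 2 => dB1q2
  | 1, 3 => dB1q3
  | 2, 0 => dB2q0
  | 2, 1 => dB2q1
  | 2, 2 => dB2q2
  | 2, 3 => dB2q3
  | 3, 0 => dB3q0
  | 3, 1 => dB3q1
  | 3, 2 => dB3q2
  | 3, 3 => dB3q3
  | 4, 0 => dB4q0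
  | 4, 1 => dB4q1
  | 4, 2 => dB4q2
  | 4, 3 => dB4q3
  | _, _ => dB0q0

noncomputable def c0B : Fn1 := ⟨fun _ => pone, fun _ => 1, fun _ => enc_one _⟩

end Pool.Agent.Strip051.G.I8000_8600.Tab
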