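import Pool.Agent.Strip051.PB.MolRw
import Pool.Agent.Strip051.G.I8000_8600.Tab

/-! # The tight charts of a table: data (generated) -/

set_option linter.all false

namespace Pool.Agent.Strip051.G.I8000_8600.Tab.Mo

open Pool.Agent.Strip051.PB Pool.Agent.Strip051.PB.Mol
open Pool.Agent.Strip051.G.I8000_8600.Tab

noncomputable def dq : Fn3 :=
  dqQ (lnF false 553994247009019894481 487621844223500000000 false 11539470967806603953087 195048737689400000000 83 100) (lnF false 71 400 true 21011 200 83 100)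

noncomputable def mL : Fn2 :=
  exQ (exC (lnF false 31483 100000 true 423 500 83 100)) (lnF false 67 1000 false 4217 200 83 100) false

noncomputable def mR : Fn2 :=
  exQ (exC (lnF true 32517 50000 true 1579 2000 83 100)) (lnF false 673 2000 true 829 200 83 100) true

noncomputable def kp : Fn2 :=
  plA (cnF false 0 1) (cnF false 0 1) false 1 2

noncomputable def kb : Fn2 :=
  plA (cnF false 0 1) (lnF true 14009273789109 1242500000000 false 11012134512249 2485000000000 83 100) false 1 2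

noncomputable def rK1 : Fn2 :=
  exC (lnF true 6498 3125 true 10834 625 83 100)

noncomputable def rX1 : Fn2 :=
  exC (lnF true 1812 3125 true 1311 625 83 100)

noncomputable def rD1 : Fn2 :=
  tmF (exC (cnF false 0 1)) 0

noncomputable def sk1 : MolS :=
  stK 3 2 5 rK1 rX1 rD1

noncomputable def sp : MolS :=
  stP kcg mL mR kp

noncomputable def sm : MolS :=
  stM kcg mR kb

noncomputable def sK_Ap : Fn3 :=
  sl0 (slF (w3W false) cv1r (w3K false 2 kcg) kf1q3)

noncomputable def sX_Ap : Fn3 :=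
  sl0 (slF (w3W false) cv1r (w3Q false kcg) l1q3)

noncomputable def sD_Ap : Fn3 :=
  sl0 (slF (w3W false) cv1r (w3D false 2 kcg) (tmF kc1q3 2))

noncomputable def T_Ap : MolT :=
  ⟨kcg, dq, sp, 3, sK_Ap, sX_Ap, sD_Ap, 4, 1, 147, 50⟩

noncomputable def sk_Ap : List Fn3 := [skP true 20971520, skM true 20971520]

noncomputable def cx_Ap : List Fn3 :=
  [f3A sp.xs (tCC (w3W false) cv1r),
    f3A sp.xs (tCC cv2r (w3W false)),
    f3A sp.xs (tCX cv2r)]

noncomputable def c0_Ap : Cht := k0Ap (T_Ap.a true) sk_Ap cx_Ap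

noncomputable def c2_Ap : Cht := k2Ap (T_Ap.a true) sk_Ap cx_Ap

noncomputable def sK_Apk1 : Fn3 :=
  sl0 (slF (w3W false) cv1r (w3K false 2 kcg) kf1q3)

noncomputable def sX_Apk1 : Fn3 :=
  sl0 (slF (w3W false) cv1r (w3Q false kcg) l1q3)

noncomputable def sD_Apk1 : Fn3 :=
  sl0 (slF (w3W false) cv1r (w3D false 2 kcg) (tmF kc1q3 2))

noncomputable def T_Apk1 : MolT :=
  ⟨kcg, dq, sk1, 3, sK_Apk1, sX_Apk1, sD_Apk1, 4, 1, 147, 50⟩

noncomputable def sk_Apk1 : List Fn3 := [skP true 20971520, skM true 20971520]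

noncomputable def cx_Apk1 : List Fn3 :=
  [f3A sk1.xs (tCC (w3W false) cv1r),
    f3A sk1.xs (tCC cv2r (w3W false)),
    f3A sk1.xs (tCX cv2r)]

noncomputable def c0_Apk1 : Cht := k0Ap (T_Apk1.a true) sk_Apk1 cx_Apk1

noncomputable def c2_Apk1 : Cht := k2Ap (T_Apk1.a true) sk_Apk1 cx_Apk1

noncomputable def sK_Am : Fn3 :=
  sl0 (slF (w3W false) cv1r (w3K false 2 kcg) kf1q3)

noncomputable def sX_Am : Fn3 :=
  sl0 (slF (w3W false) cv1r (w3Q false kcg) l1q3)

noncomputable def sD_Am : Fn3 :=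
  sl0 (slF (w3W false) cv1r (w3D false 2 kcg) (tmF kc1q3 2))

noncomputable def T_Am : MolT :=
  ⟨kcg, dq, sm, 3, sK_Am, sX_Am, sD_Am, 4, 1, 147, 50⟩

noncomputable def sk_Am : List Fn3 := [skP true 20971520, skM true 20971520]

noncomputable def cx_Am : List Fn3 :=
  [f3A sm.xs (tCC (w3W false) cv1r),
    f3A sm.xs (tCC cv2r (w3W false)),
    f3A sm.xs (tXC cv1r)]

noncomputable def c0_Am : Cht := k0Am (T_Am.a false) sk_Am cx_Am

noncomputable def c2_Am : Cht := k2Am (T_Am.a false) sk_Am cx_Am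

noncomputable def sK_Bp : Fn3 :=
  sl0 (slF (w3W true) cv1m (w3K true 0 kcg) kf1q0)

noncomputable def sX_Bp : Fn3 :=
  sl0 (slF (w3W true) cv1m (w3Q true kcg) l1q0)

noncomputable def sD_Bp : Fn3 :=
  sl0 (slF (w3W true) cv1m (w3D true 0 kcg) (tmF kc1q0 0))

noncomputable def T_Bp : MolT :=
  ⟨kcg, dq, sp, 0, sK_Bp, sX_Bp, sD_Bp, 4, 1, 147, 50⟩

noncomputable def sk_Bp : List Fn3 := [skP false 20971520, skM false 20971520]

noncomputable def cx_Bp : List Fn3 :=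
  [f3B sp.xs (tCC (w3W true) cv1m),
    f3B sp.xs (tCC cv2m (w3W true)),
    f3B sp.xs (tXC cv1m)]

noncomputable def c0_Bp : Cht := k0Bp (T_Bp.b true) sk_Bp cx_Bp

noncomputable def c2_Bp : Cht := k2Bp (T_Bp.b true) sk_Bp cx_Bp

noncomputable def sK_Bpk1 : Fn3 :=
  sl0 (slF (w3W true) cv1m (w3K true 0 kcg) kf1q0)

noncomputable def sX_Bpk1 : Fn3 :=
  sl0 (slF (w3W true) cv1m (w3Q true kcg) l1q0)

noncomputable def sD_Bpk1 : Fn3 :=
  sl0 (slF (w3W true) cv1m (w3D true 0 kcg) (tmF kc1q0 0))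

noncomputable def T_Bpk1 : MolT :=
  ⟨kcg, dq, sk1, 0, sK_Bpk1, sX_Bpk1, sD_Bpk1, 4, 1, 147, 50⟩

noncomputable def sk_Bpk1 : List Fn3 := [skP false 20971520, skM false 20971520]

noncomputable def cx_Bpk1 : List Fn3 :=
  [f3B sk1.xs (tCC (w3W true) cv1m),
    f3B sk1.xs (tCC cv2m (w3W true)),
    f3B sk1.xs (tXC cv1m)]

noncomputable def c0_Bpk1 : Cht := k0Bp (T_Bpk1.b true) sk_Bpk1 cx_Bpk1

noncomputable def c2_Bpk1 : Cht := k2Bp (T_Bpk1.b true) sk_Bpk1 cx_Bpk1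

noncomputable def sK_Bm : Fn3 :=
  sl0 (slF (w3W true) cv1m (w3K true 0 kcg) kf1q0)

noncomputable def sX_Bm : Fn3 :=
  sl0 (slF (w3W true) cv1m (w3Q true kcg) l1q0)

noncomputable def sD_Bm : Fn3 :=
  sl0 (slF (w3W true) cv1m (w3D true 0 kcg) (tmF kc1q0 0))

noncomputable def T_Bm : MolT :=
  ⟨kcg, dq, sm, 0, sK_Bm, sX_Bm, sD_Bm, 4, 1, 147, 50⟩

noncomputable def sk_Bm : List Fn3 := [skP false 20971520, skM false 20971520]

noncomputable def cx_Bm : List Fn3 :=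
  [f3B sm.xs (tCC (w3W true) cv1m),
    f3B sm.xs (tCC cv2m (w3W true)),
    f3B sm.xs (tCX cv2m)]

noncomputable def c0_Bm : Cht := k0Bm (T_Bm.b false) sk_Bm cx_Bm

noncomputable def c2_Bm : Cht := k2Bm (T_Bm.b false) sk_Bm cx_Bm

end Pool.Agent.Strip051.G.I8000_8600.Tab.Mo
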