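import Pool.Agent.Strip051.G.I8000_8600.Tab
import Pool.Agent.Strip051.PB.StripB

/-! # Strips, near vertex: certificates 3 (generated) -/

set_option linter.all false
set_option maxRecDepth 100000

namespace Pool.Agent.Strip051.G.I8000_8600.Tab.CS.BA00

open Pool.Agent.Strip051.PB Pool.Agent.Strip051.PB.T
open Pool.Agent.Strip051.G.I8000_8600.Tab

noncomputable def cut_pm_102_s : Cut := Cut.of [[⟨4, 0, 0, 1449551462⟩], [⟨0, 1, 0, 67108864⟩, ⟨1, 0, 0, 67108864⟩, ⟨2, 1, 0, 67108864⟩]]

noncomputable def f_pm_102_s : ℕ → ℕ → ℕ → ℕ → Bool := onCell 536870912 536870912 1073741824 536870912 858993459 64424510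
    (rowNE 3 eng mog cd0q1 cd0q0 pd2 1 true true false .npp 1 0 2 (qsf 536870912 536870912 0 536870912 2) ndB0q1 ndB0q0 pcB2 cut_pm_102_s Ext.none)

def k0_pm_102_s : ∃ t, chk3 f_pm_102_s t 2 4 1 = true :=
  ⟨(b (l 3) (l 3)), by decide +kernel⟩

def k1_pm_102_s : ∃ t, chk3 f_pm_102_s t 4 5 1 = true :=
  ⟨(b (b (b (l 3) (l 2)) (l 2)) (l 2)), by decide +kernel⟩

def k2_pm_102_s : ∃ t, chk3 f_pm_102_s t 5 10 1 = true :=
  ⟨(b (b (a (l 3) (b (l 3) (a (l 3) (b (a (l 3) (c (l 110226341959) (l 16792960))) (a (c (l 88214640375) (l 16773512)) (c (l 16790464) (l 16774880))))))) (a (b (b (l 3) (a (l 3) (a (l 3) (b (l 3) (l 16791600))))) (a (a (l 2) (b (c (c (l 16796728) (l 16775592)) (l 16796312)) (l 16794752))) (b (b (a (l 16791904) (l 16791296)) (c (c (l 16795888) (l 16774600)) (l 16794936))) (c (c (l 16792192) (l 16770648)) (l 16790640))))) (a (a (b (b (l 3) (c (l 16797464) (l 16776536))) (b (c (b (l 16772232) (l 16769472)) (b (l 16772176) (l 16769288))) (c (l 16765328) (l 16764960)))) (b (b (c (l 16796320) (l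 16775616)) (c (l 16772512) (l 16772608))) (b (c (b (l 16768136) (l 16765256)) (b (l 16768136) (l 16765176))) (c (l 16760928) (l 16760768))))) (a (b (c (b (l 16784408) (l 16767808)) (b (l 16774024) (l 16767944))) (b (c (b (l 16763320) (l 16760344)) (c (l 16762024) (l 16761504))) (c (l 16755856) (l 16755768)))) (b (b (c (l 16768704) (l 16768744)) (c (l 16762656) (l 16762488))) (b (c (b (l 16758112) (l 16755056)) (c (l 16756568) (l 16755648))) (c (l 16750440) (l 16749968)))))))) (b (a (a (a (l 2) (a (l 2) (l 16760560))) (a (a (l 16777744) (l 16779000)) (a (l 16777344) (l 16764928)))) (c (a (a (l 16751944) (c (l 16746584) (l 16746576))) (a (l 16740944) (l 16735088))) (a (a (l 16750616) (l 16746424)) (a (l 16741024) (l 16698136))))) (a (a (l 2) (a (c (l 16742808) (l 16734296)) (c (l 16696216) (l 16731576)))) (a (a (c (l 16690032) (l 16728280)) (c (l 16683072) (l 16723792))) (a (c (b (l 16723528) (l 16712408)) (l 16718232)) (c (l 16669048) (l 16711448))))))), by decide +kernel⟩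

def k3_pm_102_s : ∃ t, chk3 f_pm_102_s t 5 11 1 = true :=
  ⟨(a (b (a (l 2) (a (l 2) (c (b (l 16720744) (l 2)) (l 4395351303)))) (l 2)) (b (a (a (b (c (l 16713608) (l 16706176)) (l 16732592)) (c (b (l 16705384) (l 16687352)) (b (l 16701856) (l 16680152)))) (c (a (b (l 16696696) (l 16677424)) (b (l 16667352) (l 16667464))) (a (b (l 16696008) (l 16674472)) (b (l 16689072) (l 16667264))))) (b (a (a (l 2) (l 16643880)) (c (a (l 16659728) (l 16648552)) (a (l 16653192) (l 16646144)))) (a (l 2) (a (l 16637912) (a (l 16630736) (l 16625752))))))), by decide +kernel⟩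

def k4_pm_102_s : ∃ t, chk3 f_pm_102_s t 2 3 1 = true :=
  ⟨(a (l 2) (b (a (l 2) (b (a (l 2) (a (l 2) (a (l 2) (b (l 16640520) (l 2))))) (l 2))) (l 2))), by decide +kernel⟩

def k5_pm_102_s : ∃ t, chk3 f_pm_102_s t 6 8 1 = true :=
  ⟨(l 3), by decide +kernel⟩

def k6_pm_102_s : ∃ t, chk3 f_pm_102_s t 6 18 1 = true :=
  ⟨(a (l 3) (b (l 3) (a (l 3) (b (l 3) (b (l 3) (a (l 3) (a (l 3) (b (c (c (a (l 3) (c (l 116668762023) (l 16776888))) (l 163376533863)) (l 152102242423)) (c (a (a (l 161229048295) (l 16778744)) (l 16774800)) (l 16775920)))))))))), by decide +kernel⟩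

def k7_pm_102_s : ∃ t, chk3 f_pm_102_s t 12 19 1 = true :=
  ⟨(b (l 3) (a (l 3) (b (a (l 3) (a (l 3) (c (b (l 3) (l 199346891975)) (l 208473705927)))) (b (a (l 3) (a (c (l 126869322247) (l 16773064)) (c (l 16775688) (l 16775880)))) (a (c (b (l 155323482087) (l 16786664)) (l 110763199591)) (c (c (l 16772048) (l 16772272)) (l 16771952))))))), by decide +kernel⟩

def k8_pm_102_s : ∃ t, chk3 f_pm_102_s t 26 19 1 = true :=
  ⟨(a (b (l 3) (b (b (a (l 3) (c (a (l 178408923911) (l 16781872)) (l 16782440))) (c (a (c (l 16776712) (l 16776728)) (l 16773464)) (c (l 16775424) (l 16775456)))) (c (c (b (l 16770136) (l 16764328)) (l 16767408)) (c (l 16766968) (l 16766392))))) (b (b (l 3) (c (b (a (l 3) (l 263234511831)) (a (b (l 3) (l 137606733575)) (b (l 16776648) (l 16774248)))) (b (l 235854093543) (a (l 164450284823) (l 16780760))))) (c (b (b (c (a (l 16774656) (l 16770392)) (l 16772480)) (c (l 16767440) (l 16767200))) (c (b (l 16762200) (l 16756248)) (l 16759392))) (b (b (c (l 16772424) (l 16772360)) (l 16766712))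 (c (l 16758424) (l 16757200)))))), by decide +kernel⟩

def k9_pm_102_s : ∃ t, chk3 f_pm_102_s t 27 19 1 = true :=
  ⟨(b (b (a (c (b (a (l 3) (l 315310990567)) (a (l 291688669799) (c (a (l 141364826663) (l 16775776)) (l 16776448)))) (b (l 321753425063) (a (l 265918880503) (c (l 16776360) (l 16776256))))) (a (c (c (b (b (a (l 3) (l 16778224)) (c (l 16776024) (l 16776048))) (l 16772008)) (b (l 74792836247) (l 16772088))) (c (b (l 70497870055) (l 16772192)) (l 16784680))) (c (c (b (l 16772120) (l 16766944)) (l 16769688)) (c (l 16769896) (l 16770024))))) (b (c (a (a (c (c (l 16778832) (l 16776168)) (l 16776112)) (l 16771672)) (a (l 16766872) (l 16761936))) (a (a (l 16775992) (l 16771808)) (l 16764712))) (c (a (c (a (l 16771088) (l 16766496)) (l 16768792)) (c (a (l 16761784) (l 16756936)) (l 16759352))) (a (c (l 16768824) (l 16768864)) (c (l 16759392) (l 16759472)))))) (a (b (b (c (c (l 16763848) (l 16763648)) (l 16763304)) (c (c (l 16759112) (l 16758552)) (l 16757480))) (c (c (b (l 16753912) (l 16747824))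 (l 16750944)) (c (l 16749288) (l 16747280)))) (b (c (c (b (l 16754760) (l 16750400)) (l 16751928)) (c (l 16751152) (l 16750272))) (c (c (b (l 16745272) (l 16739056)) (l 16742008)) (c (l 16739544) (l 16736608)))))), by decide +kernel⟩

def k10_pm_102_s : ∃ t, chk3 f_pm_102_s t 14 16 1 = true :=
  ⟨(l 3), by decide +kernel⟩

def k11_pm_102_s : ∃ t, chk3 f_pm_102_s t 14 34 1 = true :=
  ⟨(l 3), by decide +kernel⟩

def k12_pm_102_s : ∃ t, chk3 f_pm_102_s t 28 35 1 = true :=
  ⟨(l 3), by decide +kernel⟩

def k13_pm_102_s : ∃ t, chk3 f_pm_102_s t 58 35 1 = true :=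
  ⟨(l 3), by decide +kernel⟩

def k14_pm_102_s : ∃ t, chk3 f_pm_102_s t 118 35 1 = true :=
  ⟨(b (l 3) (b (a (l 3) (a (l 3) (a (l 3) (b (l 3) (b (l 3) (c (c (c (b (l 284172484519) (a (l 178408914359) (l 16776768))) (l 181093268279)) (l 16777128)) (l 16778344))))))) (b (a (l 3) (c (c (b (a (c (a (l 3) (b (l 3) (c (l 225653553847) (l 228874779911)))) (l 281488129831)) (c (a (b (a (l 261623906247) (l 94120181239)) (l 16776488)) (a (l 16776032) (l 16775440))) (l 54928602551))) (c (b (a (a (l 285783097255) (c (l 38822476631) (l 16776792))) (a (l 16774288) (l 16774408))) (a (a (a (l 178945785271) (l 16776784)) (l 16775896)) (a (l 16774712) (l 16773520)))) (a (c (l 105931340663) (l 16776976)) (l 16774704)))) (c (a (l 160692176359) (l 16775664)) (l 86067118007))) (c (c (l 78014052359) (l 16776560)) (l 16778976)))) (a (c (a (c (b (l 3) (c (a (l 351281348407) (b (l 275582549927) (l 95193922151))) (l 220821715191))) (l 239075327639)) (c (c (b (c (a (l 257865808503) (b (l 162302786199) (l 16776472))) (a (l 257328938887)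 (l 16776928))) (c (a (l 16776632) (l 16773160)) (l 16775752))) (b (l 166060882375) (l 16775816))) (c (l 16778056) (l 16776816)))) (c (c (l 131701148407) (l 16776712)) (l 108078831703))) (c (c (b (c (c (a (a (l 16775728) (c (l 16771896) (l 16774552))) (c (l 16774016) (l 16772760))) (l 16773040)) (l 16774160)) (c (a (a (a (l 16771648) (l 16773688)) (l 16775424)) (c (l 16770944) (l 16771112))) (l 16772488))) (l 16773704)) (c (l 16774272) (l 16774328))))))), by decide +kernel⟩

def k15_pm_102_s : ∃ t, chk3 f_pm_102_s t 119 70 1 = true :=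
  ⟨(a (l 3) (b (l 3) (a (b (l 3) (b (l 3) (c (c (c (b (a (l 3) (c (a (l 3) (b (l 331953995735) (l 145122917431))) (l 250349617095))) (a (l 319605964711) (a (b (l 222432329223) (l 16776960)) (l 16776568)))) (a (l 342154542935) (l 160692172311))) (l 186461980199)) (c (l 178408916407) (l 16776976))))) (a (b (l 3) (b (c (c (c (b (l 3) (c (a (l 287393710039) (b (l 187535719383) (l 16776872))) (l 181093268823))) (l 225653555111)) (l 203104978135)) (l 175187691751)) (c (c (c (c (a (b (b (l 72645344999) (l 16776608)) (l 16774616)) (b (l 16774888) (l 16775296))) (l 16776096)) (l 16776144)) (l 16776240)) (l 16776480)))) (b (a (l 3) (c (c (b (l 3) (b (l 3) (b (l 3) (c (a (l 349670735847) (l 168745238199)) (l 16777200))))) (l 322290319127)) (l 292225549783))) (c (c (a (c (b (b (b (l 290078064615) (a (l 193978171063) (l 16776992))) (l 16776480)) (b (a (l 16775744) (l 16775432)) (l 16774696))) (b (l 16776952) (l 16770008))) (c (c (b (b (a (l 16777056) (l 16776576)) (l 16774520)) (l 16775792)) (l 16774936)) (l 16775504)))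 (l 16778568)) (c (l 16776152) (l 16776200)))))))), by decide +kernel⟩

def k16_pm_102_s : ∃ t, chk3 f_pm_102_s t 119 142 2 = true :=
  ⟨(c (a (a (b (b (l 3) (c (l 357723799303) (l 360408153847))) (c (b (a (b (l 3) (c (a (l 361481895847) (l 170355850119)) (l 225116683495))) (a (b (l 250886488023) (l 16776736)) (b (a (l 122037468775) (l 16776872)) (l 16776136)))) (c (b (a (a (l 84456504935) (l 16776440)) (l 16774216)) (a (l 16774536) (l 16774624))) (l 16775728))) (b (a (l 254644584327) (l 96804535303)) (l 16775792)))) (c (a (b (b (l 3) (b (c (l 275045677719) (l 274508808119)) (a (a (l 225116683783) (l 115595017799)) (l 16776696)))) (c (b (b (l 16776096) (l 16773888)) (l 16775160)) (l 16774808))) (b (b (a (l 344302026631) (b (l 3) (b (l 248739003895) (l 16777032)))) (b (a (b (l 130627403415) (l 16776752)) (l 16776360)) (l 16775776))) (b (b (a (l 16775200) (l 16774584)) (l 16774000)) (l 16773984)))) (b (b (l 273971937095) (a (l 174650817335) (l 16776280))) (l 16774336)))) (a (c (b (a (b (a (b (b (l 3) (l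 180019527191)) (l 16776640)) (b (b (l 109689437143) (l 16776688)) (l 16774712))) (c (c (b (l 16774096) (l 16774496)) (l 16772360)) (l 16772400))) (c (b (b (l 16775808) (c (l 16775056) (l 16775080))) (l 16775024)) (l 16774688))) (b (a (a (l 16774840) (l 16772912)) (l 16773296)) (a (l 16771448) (l 16770216)))) (b (c (b (l 16776864) (l 16769248)) (l 16775408)) (c (l 16766704) (l 16772104)))) (c (b (a (b (b (a (l 16775056) (l 16774432)) (l 16773856)) (l 16773832)) (b (a (l 16774672) (l 16772736)) (l 16772584))) (b (a (l 16770744) (l 16769496)) (l 16769664))) (b (l 16772696) (c (l 16769568) (l 16769800)))))) (a (b (a (l 356650057287) (b (l 264845131543) (l 16776944))) (c (a (l 80161537063) (l 16774520)) (l 16778392))) (b (a (c (l 16775496) (l 16775624)) (l 16773424)) (l 16771472)))), by decide +kernel⟩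

def k17_pm_102_s : ∃ t, chk3 f_pm_102_s t 119 143 2 = true :=
  ⟨(c (c (b (a (a (a (b (b (l 16773672) (l 16774096)) (l 16774080)) (c (b (l 16773280) (l 16771488)) (l 16769888))) (b (c (l 16772744) (l 16771592)) (l 16771056))) (a (b (l 16770376) (l 16767296)) (a (l 16768952) (l 16765080)))) (a (a (b (l 16771624) (l 16771256)) (b (l 16767976) (l 16766216))) (c (a (l 16764480) (l 16761976)) (l 16766232)))) (b (a (a (l 16773280) (c (l 16770904) (l 16771096))) (a (l 16763448) (l 16766352))) (a (a (l 16764704) (l 16767672)) (a (l 16765368) (l 16763040))))) (a (b (l 16772632) (l 16769640)) (b (l 16768472) (l 16765504)))), by decide +kernel⟩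

def k18_pm_102_s : ∃ t, chk3 f_pm_102_s t 119 71 3 = true :=
  ⟨(b (c (c (a (b (l 198810011559) (l 16775920)) (b (l 16774824) (l 16772144))) (a (b (l 193441302775) (l 16776080)) (l 16773848))) (a (b (l 176798306631) (l 16775784)) (b (l 16775072) (l 16772696)))) (c (c (a (l 16771864) (l 16768224)) (l 16770776)) (a (l 16772264) (l 16768920)))), by decide +kernel⟩

def k19_pm_102_s : ∃ t, chk3 f_pm_102_s t 30 32 1 = true :=
  ⟨(l 3), by decide +kernel⟩

def k20_pm_102_s : ∃ t, chk3 f_pm_102_s t 60 33 1 = true :=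
  ⟨(l 3), by decide +kernel⟩

def k21_pm_102_s : ∃ t, chk3 f_pm_102_s t 61 66 1 = true :=
  ⟨(l 3), by decide +kernel⟩

def k22_pm_102_s : ∃ t, chk3 f_pm_102_s t 122 67 1 = true :=
  ⟨(l 3), by decide +kernel⟩

def k23_pm_102_s : ∃ t, chk3 f_pm_102_s t 123 134 1 = true :=
  ⟨(l 3), by decide +kernel⟩

def k24_pm_102_s : ∃ t, chk3 f_pm_102_s t 246 135 1 = true :=
  ⟨(l 3), by decide +kernel⟩

def k25_pm_102_s : ∃ t, chk3 f_pm_102_s t 494 135 1 = true :=
  ⟨(b (l 3) (b (b (l 3) (a (l 3) (a (l 3) (c (c (c (b (l 3) (a (l 3) (a (l 3) (a (l 308331675655) (b (l 3) (l 160155303815)))))) (l 319069093895)) (l 311016030183)) (l 283635614455))))) (a (a (l 3) (c (c (b (l 3) (c (b (l 355039444999) (b (a (l 3) (a (l 299204869991) (a (l 159618432903) (l 16777128)))) (c (a (l 288467451911) (l 16777128)) (l 158007820023)))) (b (l 362018766855) (l 200420621895)))) (l 269676969927)) (c (l 253570843511) (l 253033972567)))) (c (c (c (b (b (a (l 3) (a (a (l 326585286663) (b (l 350744477703) (a (l 177872043911) (l 16777144))))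 (a (b (a (l 228337909639) (l 16777184)) (l 16777008)) (l 16776936)))) (a (a (l 3) (c (b (l 299741741063) (a (l 233169747815) (l 16777112))) (l 204178718471))) (c (a (c (b (l 16777144) (l 16776512)) (l 16776952)) (a (l 16776352) (l 16776504))) (l 16776784)))) (b (a (b (a (a (l 3) (a (l 265918873447) (l 141364821927))) (l 16776984)) (a (a (a (l 206863073207) (l 16777168)) (l 16777032)) (l 16776440))) (a (b (l 16776304) (l 16776416)) (a (l 16776256) (l 16776080)))) (c (a (a (l 16776736) (a (l 16776528) (l 16776352))) (a (l 16776080) (l 16775728))) (l 16776280)))) (b (a (l 276656291831) (b (l 135996111863) (l 16776792))) (c (a (l 16776856) (l 16773544)) (l 16776528)))) (c (b (l 161765914551) (l 16776552)) (l 94657050807))) (c (c (l 88751470903) (l 16776968)) (l 16776912)))))), by decide +kernel⟩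

def k26_pm_102_s : ∃ t, chk3 f_pm_102_s t 495 135 1 = true :=
  ⟨(b (a (l 3) (l 14)) (b (a (c (a (c (b (c (l 366313734167) (l 370608701447)) (b (c (b (a (l 3) (a (l 319069093655) (a (l 190220074887) (l 16777152)))) (a (l 303499837447) (a (a (l 140291080087) (l 16777112)) (l 16776984)))) (l 209547427399)) (c (b (a (a (l 244444036967) (l 16777120)) (l 16776856)) (a (l 16776992) (l 16776312))) (l 16776944)))) (b (l 367387475943) (l 16777152))) (b (b (l 14) (b (l 14) (b (l 14) (a (c (c (l 16777176) (l 16777096)) (l 16777104)) (l 14))))) (c (c (c (b (a (l 16776736) (a (l 16776552) (l 14))) (a (a (l 16776480) (l 16776296)) (l 16776032))) (l 16776440)) (l 16776464)) (l 16776520)))) (c (c (l 131164274087) (l 16777048)) (l 110763181751))) (a (a (b (l 14) (b (l 14) (c (c (c (l 16775688) (l 16775752)) (l 16775856)) (l 16776088)))) (l 14)) (l 14))) (c (c (c (b (c (a (b (a (a (a (l 16776432) (l 16776256)) (a (l 16776400) (l 16776224))) (c (l 16776096) (l 16775784))) (a (a (l 16776568) (l 16775880)) (l 16775672)))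 (a (c (l 16775160) (l 16774856)) (l 16774784))) (a (a (l 16776296) (l 16774280)) (c (l 16775184) (l 16774552)))) (a (a (a (b (l 16776144) (l 16775384)) (b (l 16775464) (l 16775032))) (b (l 16775096) (l 16774504))) (c (a (l 16773976) (l 16773256)) (l 16773688)))) (c (a (b (l 16775968) (l 16773824)) (c (l 16772192) (l 16771576))) (l 16774632))) (c (l 16775000) (l 16775112))) (c (c (l 16775232) (l 16775360)) (l 16775560))))), by decide +kernel⟩

def k27_pm_102_s : ∃ t, chk3 f_pm_102_s t 31 16 1 = true :=
  ⟨(b (l 14) (a (b (l 14) (b (l 14) (a (a (a (a (b (l 14) (b (l 14) (b (l 14) (c (c (c (c (l 16772832) (l 16772272)) (l 16772432)) (l 16772760)) (l 16770904))))) (l 14)) (l 14)) (l 14)) (l 14)))) (l 14))), by decide +kernel⟩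

def k28_pm_102_s : ∃ t, chk3 f_pm_102_s t 120 34 1 = true :=
  ⟨(l 3), by decide +kernel⟩

def k29_pm_102_s : ∃ t, chk3 f_pm_102_s t 121 68 1 = true :=
  ⟨(l 3), by decide +kernel⟩

def k30_pm_102_s : ∃ t, chk3 f_pm_102_s t 121 138 1 = true :=
  ⟨(a (l 3) (b (l 3) (c (b (a (l 3) (c (c (a (b (l 3) (a (l 3) (a (l 3) (b (l 3) (a (l 257865809671) (b (l 253570842471) (l 16777088))))))) (b (b (a (l 3) (a (l 362018766839) (b (l 270213840647) (a (l 170355851111) (l 16777056))))) (a (l 318532222311) (a (a (b (l 299204869975) (l 16777128)) (l 16777112)) (l 16776808)))) (b (b (a (a (l 3) (a (l 183777623911) (l 16777072))) (l 16776568)) (c (a (a (l 196125654887) (l 16776936)) (l 16775760)) (l 16776768))) (a (a (l 16776944) (l 16775944)) (a (l 16775608) (l 16775920)))))) (a (l 313700384711) (b (a (l 328195899367) (l 154249723303)) (l 16777344)))) (a (l 302962966439) (c (l 119889986343) (l 16777096))))) (c (b (a (l 3) (c (a (c (b (a (l 332490866679) (a (b (l 204178718567) (l 16777064)) (l 16776832))) (b (a (a (l 3)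 (l 120963726551)) (l 16776664)) (a (a (l 211158040423) (l 16776952)) (l 16775784)))) (a (l 220284845495) (l 16776792))) (c (a (b (a (l 16776488) (l 16776144)) (l 16776520)) (c (l 16776040) (l 16775408))) (l 16774464))) (a (c (l 134922369127) (l 16777152)) (l 16775832)))) (a (a (l 3) (c (a (l 341080800599) (a (b (l 3) (b (l 221358587655) (l 16777080))) (b (a (l 270213840647) (b (l 273971937111) (l 16777104))) (l 16776856)))) (l 222969198471))) (c (a (c (c (a (b (l 16776664) (c (l 16775672) (l 16776328))) (c (b (l 16776088) (l 16775632)) (l 16774888))) (l 16775856)) (l 16776240)) (c (c (a (l 16775824) (l 16774480)) (l 16775504)) (l 16774896))) (l 16774976)))) (a (l 275582547255) (c (l 16777440) (l 16776208))))) (a (b (l 3) (c (l 258939552999) (l 253570843975))) (c (c (b (l 180556399447) (l 16776288)) (l 95730791559)) (b (l 155860338871) (l 16776440))))))), by decide +kernel⟩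

def k31_pm_102_s : ∃ t, chk3 f_pm_102_s t 121 556 2 = true :=
  ⟨(a (l 3) (c (a (b (c (b (a (l 3) (a (c (a (l 261087034743) (b (l 130627403655) (l 16776968))) (l 163913399991)) (a (l 16776744) (l 16775752)))) (a (a (l 3) (a (l 3) (a (l 277193162503) (b (l 285783097175) (l 16777112))))) (a (a (l 16777056) (l 16775976)) (a (l 16775640) (l 16775960))))) (a (l 301889224663) (l 16776720))) (c (c (a (a (a (l 301889224039) (b (l 328195899383) (b (l 135996112743) (l 16776976)))) (b (a (a (l 202031234823) (l 16777112)) (l 16776856)) (l 16776496))) (a (b (a (l 16776520) (l 16776176)) (l 16775896)) (a (l 16775608) (l 16775264)))) (a (a (l 225653554615) (l 16776816)) (l 16774496))) (a (c (l 138143594631) (l 16777168)) (l 16775864)))) (a (c (a (c (b (b (l 16776536) (l 16775424)) (l 16774744)) (l 16773936)) (c (b (l 16775624) (l 16774056)) (l 16773264))) (l 16775000)) (c (a (b (l 16774640) (l 16773408)) (b (l 16773624) (l 16772720))) (l 16771072)))) (a (a (l 173577075367) (l 16776376)) (l 16774584)))), by decide +kernel⟩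

def k32_pm_102_s : ∃ t, chk3 f_pm_102_s t 121 557 2 = true :=
  ⟨(a (a (l 3) (c (c (a (b (l 3) (a (l 3) (a (l 3) (b (l 3) (b (l 311552900871) (l 138143595687)))))) (b (a (l 343228284903) (c (b (a (l 3) (a (l 280414387975) (l 157470948567))) (a (a (l 202568105735) (l 16777112)) (l 16776864))) (l 162839656679))) (b (a (a (l 259476421991) (b (l 139754208439) (l 16776976))) (a (l 16776752) (l 16775760))) (a (a (l 16776976) (l 16776640)) (a (l 16775648) (l 16775968)))))) (a (l 316921610167) (b (l 224579812519) (l 16776728)))) (a (l 305647320983) (l 116668758743)))) (c (c (a (a (c (b (c (a (b (l 16776720) (l 16775688)) (b (l 16776120) (l 16775656))) (l 16775912)) (a (b (l 16775896) (l 16775440)) (l 16775640))) (l 16775328)) (b (c (a (l 16775536) (l 16774528)) (l 16774920)) (a (l 16774664) (l 16773656)))) (c (a (b (l 16774144) (l 16772576)) (c (l 16772272) (l 16771680))) (a (l 16774448) (l 16771776)))) (a (a (l 16775872) (l 16771960)) (a (l 16770664) (l 16771984)))) (c (l 16772808) (l 16774312)))), by decide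 +kernel⟩

def k33_pm_102_s : ∃ t, chk3 f_pm_102_s t 242 279 2 = true :=
  ⟨(c (a (b (b (l 3) (a (l 3) (c (a (l 336785833959) (a (b (l 3) (b (l 214916136711) (l 16777072))) (b (b (l 303499837191) (l 128479919959)) (l 16776848)))) (l 220821716135)))) (b (c (b (a (l 3) (a (a (l 245517778279) (b (l 121500598119) (l 16776952))) (l 16776384))) (a (a (l 3) (a (l 3) (b (l 289541193479) (l 113984405335)))) (c (a (l 16776616) (l 16775448)) (l 16776456)))) (a (l 295446773703) (l 16776704))) (a (c (a (b (l 319069093863) (c (a (l 239075327719) (l 16777040)) (l 16777208))) (b (a (b (l 199883751175) (l 16777048)) (l 16776832)) (l 16776384))) (l 133848627191)) (c (c (a (b (l 16775584) (l 16775872)) (l 16776000)) (l 16773176)) (l 16775848))))) (c (b (b (a (a (b (l 333027737591) (a (l 254107712871) (b (l 134385499959) (l 16776968)))) (a (b (b (l 224579813127) (l 16777080)) (l 16776744)) (b (l 16776864) (l 16775760)))) (c (a (b (a (l 16776520) (l 16776176)) (l 16775896)) (a (l 16775616) (l 16775272))) (l 16775816))) (a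 (c (c (a (b (l 16776792) (l 16775680)) (b (l 16776112) (l 16775656))) (l 16775904)) (l 16776256)) (c (a (l 16775872) (l 16774536)) (l 16774928)))) (a (b (c (a (a (l 16776480) (l 16775488)) (l 16775640)) (l 16772744)) (c (c (l 16775048) (l 16774424)) (l 16774472))) (a (b (l 16774992) (l 16773432)) (b (l 16773664) (l 16772760))))) (a (b (c (b (l 136532983191) (l 16776280)) (l 16776736)) (l 16775008)) (b (l 16775440) (l 16771112))))) (a (b (l 273435066215) (a (l 167671497943) (l 16776368))) (b (c (l 16776160) (l 16776232)) (l 16774616)))), by decide +kernel⟩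

def k34_pm_102_s : ∃ t, chk3 f_pm_102_s t 243 279 2 = true :=
  ⟨(c (c (a (a (c (b (b (a (l 16774760) (l 16774080)) (l 16774160)) (c (l 16772760) (l 16772168))) (b (a (l 16774376) (l 16773704)) (l 16772256))) (b (c (a (l 16773592) (l 16772248)) (l 16772696)) (c (l 16771416) (l 16770912)))) (c (b (a (l 16771616) (l 16769816)) (c (l 16769280) (l 16768720))) (b (l 16771976) (l 16768872)))) (a (a (b (l 16771536) (l 16772448)) (b (l 16772872) (l 16771152))) (c (b (l 16770832) (l 16769088)) (l 16766224)))) (c (a (l 16772920) (l 16765216)) (l 16772040))), by decide +kernel⟩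

def k35_pm_102_s : ∃ t, chk3 f_pm_102_s t 121 139 3 = true :=
  ⟨(b (a (a (l 3) (c (c (l 236390973095) (l 221358589223)) (l 204178721319))) (a (c (c (b (l 16776960) (l 16775584)) (l 16776464)) (l 16778968)) (c (l 16774272) (l 16774800)))) (c (a (c (a (b (l 289004320807) (l 16776960)) (l 16775608)) (a (l 153175984103) (l 16775752))) (c (l 16772416) (l 16772816))) (a (a (l 134385501335) (l 16775920)) (l 16773448)))), by decide +kernel⟩

def k36_pm_102_s : ∃ t, chk3 f_pm_102_s t 244 68 2 = true :=
  ⟨(b (l 3) (b (l 3) (a (l 3) (c (b (a (l 3) (b (l 3) (c (a (l 3) (b (l 3) (l 331953995127))) (l 346449510375)))) (b (a (l 3) (c (a (b (l 3) (a (l 3) (a (l 289541193735) (b (l 309942288231) (l 16777136))))) (a (c (b (b (l 3) (l 238001585927)) (c (l 16777072) (l 16776992))) (l 151565367655)) (b (a (b (l 227264167783) (l 16777064)) (l 16777000)) (l 16776648)))) (a (l 284172484583) (c (l 16777056) (l 16777064))))) (c (b (a (l 358797541367) (c (a (a (b (l 257865809671) (a (l 146196660151) (l 16777040))) (l 16776888))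 (a (l 16775888) (l 16776192))) (l 16777056))) (a (a (l 3) (a (l 292762418551) (b (a (l 289004322615) (l 16777168)) (l 16777032)))) (a (a (l 16776792) (a (l 16775880) (l 16776360))) (a (l 16775448) (l 16775760))))) (a (l 269676967335) (l 16776536))))) (b (l 357723799431) (a (l 284709355431) (c (l 101099501735) (l 16777040)))))))), by decide +kernel⟩

def k37_pm_102_s : ∃ t, chk3 f_pm_102_s t 490 68 2 = true :=
  ⟨(b (l 3) (a (b (l 3) (b (a (b (l 3) (c (c (a (b (l 3) (b (a (l 329269641063) (l 141901692839)) (l 16777240))) (b (b (l 276656291847) (a (l 197736267607) (l 16777080))) (l 16776672))) (l 162302785655)) (l 16777168))) (c (c (b (a (a (l 335175221255) (b (l 3) (b (l 333564608279) (l 16777176)))) (b (c (l 287393709431) (l 292225547959)) (a (b (l 161765916551) (l 16777000)) (l 16776936)))) (c (a (b (l 16776928) (l 16775824)) (b (l 16775920) (l 16776128))) (l 16776544))) (b (l 212231781719) (l 16776568))) (l 89288344567))) (c (c (b (c (b (a (a (l 16776736) (l 16776384)) (l 16776104)) (a (a (l 16776288)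 (l 16775936)) (l 16775408))) (l 16776016)) (c (a (a (l 16775944) (l 16775264)) (l 16775064)) (l 16773824))) (l 16775304)) (l 16775760)))) (b (b (l 3) (c (c (b (a (l 3) (b (l 3) (a (l 3) (a (l 335712092167) (b (l 3) (l 140291080055)))))) (a (b (l 3) (c (a (l 341080801287) (c (b (l 233706618727) (l 16777104)) (l 148344143703))) (l 218674232935))) (a (b (b (l 298667999239) (a (l 227264167783) (l 16777112))) (l 16776704)) (c (b (c (l 16776952) (l 16776960)) (l 16775856)) (l 16776744))))) (b (l 320679706599) (a (l 261623905591) (l 16776936)))) (b (l 311016030167) (l 135996113751)))) (c (c (b (c (b (a (a (b (a (b (l 264308260711) (l 16777096)) (l 16777032)) (l 16776016)) (b (l 16776768) (l 16776320))) (b (a (l 16775760) (l 16776064)) (l 16776120))) (a (b (a (l 16776224) (l 16775872)) (l 16775600)) (a (l 16775296) (l 16774944)))) (c (b (l 16776224) (l 16774192)) (l 16775632))) (b (c (c (a (l 16775576) (l 16774208)) (l 16775248)) (l 16773328)) (c (c (l 16774312) (l 16773696)) (l 16773760)))) (c (b (l 16775984)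 (l 16771648)) (l 16775176))) (c (l 16775256) (l 16775376)))))), by decide +kernel⟩

def k38_pm_102_s : ∃ t, chk3 f_pm_102_s t 491 136 2 = true :=
  ⟨(a (l 3) (b (l 3) (b (l 3) (c (b (l 3) (c (a (l 3) (b (l 3) (a (l 352891961351) (c (b (l 256792067863) (a (l 153175982007) (l 16777040))) (l 16777128))))) (l 289541192391))) (l 299204870071))))), by decide +kernel⟩

def k39_pm_102_s : ∃ t, chk3 f_pm_102_s t 491 274 2 = true :=
  ⟨(b (b (a (l 3) (c (c (c (a (b (a (l 3) (l 306721062919)) (a (a (l 352355090439) (b (l 3) (l 149954756535))) (a (b (l 200957493127) (l 16777040)) (l 16776976)))) (a (b (b (a (l 300278611815) (l 16777176)) (l 16777040)) (c (l 16776048) (l 16776712))) (b (l 16776800) (l 16775704)))) (a (b (l 325511544839) (l 161765915015)) (l 16777096))) (a (l 221895458135) (l 16776784))) (l 110763180855))) (c (c (a (a (l 358797541383) (b (a (l 3) (a (l 281488129399) (b (l 297594257207) (l 16777128)))) (c (a (b (l 253033971463) (a (l 144586047399) (l 16777032))) (l 16776880)) (l 16777064)))) (c (a (a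 (b (b (l 16777168) (l 16776864)) (l 16776040)) (c (b (l 16775960) (l 16776168)) (l 16775088))) (b (a (l 16776264) (l 16775912)) (l 16775976))) (l 16775912))) (a (a (l 362555637751) (c (l 173040205287) (l 16777184))) (l 16776272))) (a (l 202031235895) (l 16776344)))) (a (c (c (c (b (a (b (a (l 300278611319) (a (b (l 289004322663) (l 16777120)) (l 16777216))) (a (a (b (l 186461978503) (l 16777024)) (l 16776960)) (l 16776208))) (a (b (l 16776792) (l 16776344)) (b (l 16775784) (l 16775992)))) (a (a (b (l 16775952) (l 16776160)) (b (l 16776248) (l 16775808))) (b (l 16776048) (l 16775280)))) (b (a (b (l 190756945575) (l 16776880)) (l 16776408)) (l 16775840))) (a (b (l 106468211879) (l 16776264)) (l 16776016))) (l 16777416)) (c (b (c (a (c (a (b (l 16776080) (l 16775640)) (l 16775832)) (l 16775720)) (b (l 16775464) (l 16774776))) (l 16774120)) (c (c (a (l 16775120) (l 16774080)) (l 16773184)) (l 16771968))) (l 16775184)))), by decide +kernel⟩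

def k40_pm_102_s : ∃ t, chk3 f_pm_102_s t 491 275 2 = true :=
  ⟨(c (c (c (b (b (a (a (a (l 16775816) (l 16775136)) (l 16774936)) (c (l 16774176) (l 16773560))) (a (a (l 16775072) (l 16773704)) (l 16773296))) (a (b (l 16773488) (l 16772256)) (c (l 16771912) (l 16771320)))) (b (b (a (c (l 16773688) (l 16775024)) (l 16773624)) (a (l 16774128) (l 16772744))) (a (l 16774120) (l 16771416)))) (b (c (a (l 16772664) (l 16773272)) (l 16771408)) (a (c (l 16772912) (l 16773016)) (l 16771624)))) (c (l 16772784) (l 16773576))), by decide +kernel⟩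

def k41_pm_102_s : ∃ t, chk3 f_pm_102_s t 246 272 2 = true :=
  ⟨(a (l 3) (a (b (l 3) (c (c (b (a (l 3) (b (l 3) (a (l 3) (a (l 326585286663) (b (l 353965703175) (a (l 178945785735) (l 16777144))))))) (b (a (l 3) (b (c (a (l 297594257415) (l 16777136)) (l 162839658231)) (a (a (l 226190425959) (l 16777104)) (l 16776840)))) (a (c (a (l 348060123143) (a (a (l 268603227927) (b (l 3) (l 16777152))) (b (l 180019527559) (l 16777024)))) (l 222969200215)) (c (c (a (l 16776864) (l 16776016)) (l 16776688)) (l 16776696))))) (b (l 317995352055) (a (l 252497100791) (c (l 16776928) (l 16776936))))) (b (l 309942288343) (c (l 145659789847) (l 16777136))))) (c (b (b (l 3) (b (c (a (l 3) (c (a (l 3) (b (l 273435065719) (a (l 192904429447) (l 16777072)))) (l 235854101207))) (l 281488128727)) (c (a (a (l 3) (l 327122157575)) (b (a (a (l 328732770071) (a (l 212231782279) (l 16777168))) (l 16776944)) (a (a (a (l 159081561991) (l 16777128)) (l 16777000)) (l 16776408)))) (a (l 338396446727) (l 16777032))))) (b (a (b (c (b (a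 (l 3) (a (l 259476422455) (l 16777136))) (c (a (c (l 256792067447) (l 263234518807)) (l 16777000)) (l 137606725415))) (l 185925107271)) (c (a (a (b (a (l 233169747847) (l 16777184)) (l 16777008)) (l 16776944)) (b (l 16776464) (l 16776240))) (l 16776872))) (c (a (b (b (l 16776872) (l 16776328)) (a (l 16776088) (l 16776240))) (b (a (l 16776008) (l 16776320)) (l 16776304))) (l 16776400))) (c (a (c (a (c (b (l 16776096) (l 16776152)) (l 16775720)) (b (l 16776240) (l 16775800))) (l 16774904)) (a (b (l 16776224) (l 16775456)) (b (l 16775544) (l 16775104)))) (l 16775912)))) (b (c (l 251960228503) (l 250886487959)) (c (l 16776384) (l 16776432)))))), by decide +kernel⟩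

def k42_pm_102_s : ∃ t, chk3 f_pm_102_s t 246 546 4 = true :=
  ⟨(b (a (a (l 3) (a (l 3) (c (b (a (l 3) (c (b (l 3) (l 273435065719)) (l 304573578935))) (c (a (a (l 347523252231) (b (l 3) (l 144049176487))) (a (b (l 190756945799) (l 16777032)) (l 16776960))) (a (l 259476422327) (l 16777056)))) (c (l 219211103655) (l 218137361911))))) (a (c (c (b (a (a (b (a (l 283635613543) (l 16777160)) (l 16777024)) (l 16776744)) (a (a (l 16776512) (l 16776336)) (l 16776072))) (a (c (a (l 16776200) (l 16776336)) (l 16775872)) (c (l 16776128) (l 16775816)))) (a (l 16777000) (l 16774744))) (c (l 16776424) (l 16776440))) (c (a (c (b (l 16775864) (l 16775096)) (l 16775352)) (c (l 16774928) (l 16774656))) (l 16773768)))) (a (a (c (a (l 3) (l 360408154119)) (l 366850605047)) (a (b (c (a (l 3) (b (l 308331675655) (a (l 245517778791) (l 16777128)))) (l 261087034887)) (c (a (c (c (b (l 254644584215) (a (l 148344143799) (l 16777040))) (l 164987141239)) (l 166597754615)) (c (l 16776720) (l 16776888))) (l 16777072))) (c (c (c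 (a (b (b (l 16777160) (l 16776200)) (l 16775872)) (b (l 16776120) (l 16776168))) (l 16776408)) (l 16776584)) (l 16776608)))) (a (c (b (c (a (a (l 16776256) (l 16775904)) (l 16775368)) (l 16774448)) (a (a (l 16775832) (l 16775480)) (l 16775280))) (l 16774288)) (c (c (a (l 16774760) (l 16773720)) (l 16774144)) (l 16772928))))), by decide +kernel⟩

def k43_pm_102_s : ∃ t, chk3 f_pm_102_s t 246 547 4 = true :=
  ⟨(c (a (b (a (b (a (l 3) (c (a (l 306721062263) (b (a (l 298667999079) (l 16777176)) (l 16777040))) (a (l 311552900791) (l 16777152)))) (b (a (l 3) (a (a (l 205789331287) (l 16777088)) (l 16776824))) (a (a (l 3) (a (l 331417124631) (a (l 219211104135) (l 16777176)))) (a (l 16776952) (l 16775952))))) (c (a (a (b (l 16776792) (l 16775864)) (c (b (l 16776440) (l 16775992)) (l 16775568))) (b (c (l 16776232) (l 16775912)) (l 16775792))) (l 16775904))) (a (a (a (a (b (l 285246225783) (l 16776976)) (b (b (l 299204869991) (l 16777128)) (l 16776800))) (c (c (b (b (l 16777168) (l 16776208)) (l 16775872)) (l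 16776760)) (l 16776768))) (c (a (c (b (l 16775960) (l 16776176)) (l 16775752)) (b (l 16776264) (l 16775824))) (l 16774936))) (a (c (b (l 16775984) (l 16775296)) (l 16775552)) (b (l 16775208) (l 16774608))))) (a (a (c (b (c (l 16775296) (l 16774984)) (l 16774088)) (b (l 16775024) (l 16774152))) (c (b (l 16774920) (l 16773376)) (l 16775200))) (a (b (l 16773832) (l 16772704)) (b (l 16772872) (l 16771992))))) (a (a (b (a (l 306184191991) (c (l 126869306311) (l 16777128))) (c (l 16777104) (l 16776624))) (c (l 16775672) (l 16775704))) (a (b (l 16773448) (l 16773920)) (c (l 16772936) (l 16773032))))), by decide +kernel⟩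

def k44_pm_102_s : ∃ t, chk3 f_pm_102_s t 246 273 5 = true :=
  ⟨(a (b (a (l 362555637687) (c (b (l 253033971671) (l 16776984)) (l 153712853687))) (a (b (l 172503333095) (l 16776672)) (l 16775800))) (c (b (l 16775432) (l 16771216)) (l 16774776))), by decide +kernel⟩

def k45_pm_102_s : ∃ t, chk3 f_pm_102_s t 247 272 4 = true :=
  ⟨(a (c (a (a (b (b (a (b (l 3) (b (l 330880253959) (a (l 282561871671) (a (l 134385500055) (l 16777112))))) (a (b (l 364166250503) (a (b (l 188072591239) (l 16777024)) (l 16777080))) (b (b (l 3) (a (l 240685940615) (l 16777192))) (l 16776912)))) (c (c (b (c (a (l 16776832) (l 16776064)) (l 16776576)) (a (l 16775984) (l 16776120))) (l 16776320)) (l 16776536))) (b (c (b (a (l 16776040) (l 16775688)) (l 16775752)) (l 16774368)) (b (l 16775256) (l 16774576)))) (b (b (c (b (b (a (a (l 217063620455) (l 16777096)) (l 16776496)) (a (l 16776968) (l 16776608))) (c (a (c (l 16776144) (l 16775984)) (l 16776280)) (l 16775808))) (l 16776776)) (c (b (a (l 16776200) (l 16775848)) (l 16775920))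 (l 16774528))) (c (b (c (l 16775248) (l 16774944)) (l 16774048)) (b (l 16774976) (l 16774120))))) (a (b (c (b (a (b (a (l 16776448) (l 16776272)) (l 16775928)) (b (l 16776008) (l 16775568))) (a (l 16775600) (l 16774912))) (b (l 16774680) (l 16775136))) (c (b (l 16774872) (l 16773336)) (l 16774504))) (b (b (c (b (l 16775800) (l 16775032)) (l 16775288)) (c (l 16774704) (l 16774432))) (c (c (l 16773448) (l 16773080)) (l 16773144))))) (b (b (a (a (a (l 279340645815) (l 137606724647)) (l 16776712)) (l 16775688)) (a (l 16776216) (c (l 16774840) (l 16774888)))) (a (c (c (l 16772968) (l 16772336)) (l 16772376)) (b (l 16772720) (l 16773200))))) (a (c (b (c (a (b (l 16774864) (l 16773664)) (b (l 16773816) (l 16772944))) (b (l 16774896) (l 16773376))) (c (b (l 16772752) (l 16771536)) (l 16772736))) (b (b (l 16773024) (l 16773504)) (a (l 16772592) (l 16771912)))) (c (c (b (b (l 16773072) (l 16771864)) (c (l 16771160) (l 16770568))) (b (c (l 16773688) (l 16772424)) (l 16770672))) (b (a (l 16772896) (l 16772208)) (l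 16772192))))), by decide +kernel⟩

def k46_pm_102_s : ∃ t, chk3 f_pm_102_s t 247 273 4 = true :=
  ⟨(c (a (a (c (b (b (c (l 16773832) (l 16773544)) (l 16772968)) (c (l 16771680) (l 16771336))) (b (b (l 16773600) (l 16772736)) (l 16771424))) (c (b (b (l 16772744) (l 16771200)) (c (l 16769816) (l 16769896))) (b (l 16773072) (l 16770008)))) (c (a (b (c (l 16770168) (l 16770232)) (l 16769064)) (b (l 16769408) (l 16766952))) (b (c (l 16770904) (l 16770984)) (l 16769192)))) (a (a (b (a (l 16772008) (l 16772960)) (l 16772928)) (b (c (l 16771880) (l 16772000)) (l 16770248))) (b (c (l 16771112) (l 16769968)) (c (l 16768080) (l 16768296))))), by decide +kernel⟩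

def k47_pm_102_s : ∃ t, chk3 f_pm_102_s t 247 136 5 = true :=
  ⟨(b (b (b (a (c (a (l 106468210599) (l 16775760)) (l 16776480)) (l 16773904)) (a (l 16775664) (l 16770512))) (c (a (l 16774432) (l 16769208)) (l 16772696))) (c (a (b (l 16770224) (l 16768624)) (a (l 16767464) (l 16763528))) (a (l 16768392) (l 16764608)))), by decide +kernel⟩

def k48_pm_102_s : ∃ t, chk3 f_pm_102_s t 123 137 4 = true :=
  ⟨(a (b (c (a (c (b (a (a (b (a (b (l 16775952) (l 16776000)) (b (l 16776088) (l 16775648))) (c (l 16775472) (l 16775168))) (b (a (l 16775760) (l 16775160)) (l 16775104))) (a (b (l 16774952) (l 16773736)) (b (l 16773912) (l 16773024)))) (b (a (a (l 16774264) (l 16773552)) (l 16773136)) (a (l 16773344) (l 16771584)))) (b (a (a (b (l 16774760) (l 16775200)) (b (l 16775376) (l 16774504))) (b (l 16775640) (l 16773456))) (a (c (l 16774176) (l 16773560)) (l 16773456)))) (b (c (a (b (l 16773168) (l 16771944)) (c (l 16771576) (l 16770984))) (a (l 16773152) (l 16771088))) (c (a (c (l 16771216) (l 16770632)) (l 16769808))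 (a (l 16770736) (l 16769320))))) (c (a (a (b (l 16775336) (l 16771008)) (b (b (l 16774400) (l 16773544)) (l 16772256))) (b (a (l 16772600) (l 16771224)) (l 16771504))) (a (b (l 16774712) (l 16770424)) (b (l 16769416) (l 16770360))))) (c (a (c (a (b (c (l 16772128) (l 16771696)) (l 16770424)) (b (c (l 16770192) (l 16770264)) (l 16768416))) (b (a (l 16771784) (l 16770376)) (l 16769968))) (a (c (b (l 16769440) (l 16766960)) (l 16769064)) (c (b (l 16767336) (l 16765512)) (l 16767968)))) (a (a (b (l 16773288) (l 16770264)) (b (l 16770616) (l 16768904))) (b (c (l 16768464) (l 16768680)) (l 16768160))))) (a (c (b (b (c (a (l 16770080) (l 16768056)) (l 16769944)) (c (a (l 16767696) (l 16766240)) (l 16767192))) (c (b (c (l 16766392) (l 16765208)) (l 16764624)) (b (l 16765408) (l 16763616)))) (b (b (c (l 16769144) (l 16769336)) (l 16768512)) (c (l 16767424) (l 16765104)))) (b (c (a (c (b (l 16766600) (l 16764784)) (l 16765936)) (b (l 16766248) (l 16763464))) (c (l 16766800) (l 16765768))) (c (c (b (l 16763520)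 (l 16760368)) (l 16762944)) (c (l 16761992) (l 16762360)))))), by decide +kernel⟩

def k49_pm_102_s : ∃ t, chk3 f_pm_102_s t 123 137 5 = true :=
  ⟨(a (b (b (c (a (l 16774808) (l 16769616)) (l 16773728)) (a (l 16772992) (c (l 16770624) (l 16771000)))) (a (c (c (l 16766768) (l 16765640)) (l 16765920)) (b (l 16765304) (l 16762424)))) (b (a (c (b (l 16769632) (l 16768016)) (l 16764048)) (b (l 16762040) (l 16760464))) (c (a (l 16761648) (l 16762936)) (c (l 16759568) (l 16759944))))), by decide +kernel⟩

def k50_pm_102_s : ∃ t, chk3 f_pm_102_s t 61 68 3 = true :=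
  ⟨(a (b (a (l 3) (b (l 3) (c (c (l 355576315575) (l 357723799159)) (l 353965702679)))) (a (b (l 3) (a (l 3) (b (a (l 3) (l 350207606631)) (c (c (l 167134624071) (l 161229046919)) (l 144586049751))))) (b (a (a (l 3) (c (c (l 255718326055) (l 255718326007)) (l 250349616823))) (c (a (b (l 234243490791) (l 16776536)) (c (l 16777416) (l 16776192))) (b (l 120963727239) (l 16776192)))) (c (a (c (c (l 16777400) (l 16777448)) (l 16776216)) (c (l 16773816) (l 16774064))) (a (b (l 16776720) (l 16775704)) (l 16774472)))))) (b (a (b (a (l 3) (b (c (c (l 282025000807) (l 282561871687)) (l 278266904327)) (c (c (a (l 195588784759) (l 16776480)) (l 103783854311)) (a (l 177335174471) (l 16776624))))) (c (a (b (a (l 370071830407) (c (l 148881015511) (l 16777056))) (c (a (l 16777040) (l 16775928)) (l 16776616))) (c (l 16774928) (l 16775088))) (a (b (l 193441299607) (l 16776600)) (l 16775344)))) (c (b (c (a (b (l 16777240) (l 16774736)) (l 16773120)) (a (l 16775584) (l 16773392))) (c (a (l 16772624) (l 16765048)) (l 16771848)))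 (b (a (b (l 16776376) (l 16775168)) (l 16773824)) (a (l 16773440) (l 16771520))))) (c (a (c (b (a (l 16774384) (l 16766856)) (l 16770408)) (b (l 16773528) (l 16770912))) (c (b (c (l 16763232) (l 16763528)) (l 16760536)) (b (l 16769232) (l 16756128)))) (a (b (a (l 16774912) (l 16773048)) (l 16771712)) (b (l 16770200) (l 16767944)))))), by decide +kernel⟩

def k51_pm_102_s : ∃ t, chk3 f_pm_102_s t 122 552 2 = true :=
  ⟨(a (a (a (l 3) (b (l 3) (c (b (c (a (l 3) (a (l 317995352071) (b (a (l 331417124711) (l 148344143751)) (l 16777072)))) (l 258939551719)) (c (a (c (a (l 3) (l 265918872951)) (l 296520515575)) (a (a (b (l 225653555047) (l 16777056)) (l 16777000)) (l 16776744))) (l 165524011783))) (l 176261432023)))) (c (a (b (a (c (a (b (l 3) (a (l 262160776967) (b (l 256792067943) (l 16777088)))) (c (b (c (b (l 373829926919) (l 194515041495)) (l 244980907783)) (l 16776936)) (l 133848628919))) (l 188609461671)) (c (c (a (b (a (b (l 175187689351) (l 16777016)) (l 16776952)) (l 16775936)) (b (l 16776032) (l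 16776240))) (l 16776656)) (l 16776672))) (c (c (b (a (a (l 16776840) (l 16775832)) (c (l 16776616) (l 16775976))) (a (a (l 16776392) (l 16776040)) (l 16775520))) (l 16776120)) (l 16776152))) (c (c (a (b (b (a (l 16776344) (l 16775992)) (l 16776376)) (c (l 16775688) (l 16775056))) (b (c (l 16775560) (l 16775256)) (l 16774344))) (b (l 16774320) (l 16773440))) (l 16774936))) (c (l 16777152) (l 16776080)))) (c (c (a (c (b (a (a (l 16775192) (l 16773832)) (l 16773432)) (a (l 16773616) (l 16771872))) (a (c (l 16775104) (l 16773832)) (l 16773744))) (c (a (c (l 16771520) (l 16770936)) (l 16769472)) (a (l 16771040) (l 16769640)))) (a (c (a (l 16771272) (l 16772544)) (l 16770696)) (c (l 16773120) (l 16770672)))) (a (l 16773584) (l 16767184)))), by decide +kernel⟩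

def k52_pm_102_s : ∃ t, chk3 f_pm_102_s t 122 553 2 = true :=
  ⟨(c (a (c (b (a (a (a (l 3) (a (l 347523252215) (b (l 3) (b (l 246054649607) (a (l 16777200) (l 16777024)))))) (a (a (b (a (l 283098742791) (b (l 302426095463) (l 16777128))) (l 16776880)) (c (b (l 16777064) (l 16775880)) (l 16776768))) (a (b (l 16776640) (l 16775544)) (b (l 16775640) (l 16775856))))) (a (c (a (a (l 16776208) (l 16775368)) (l 16775496)) (l 16773928)) (c (c (l 16774424) (l 16773808)) (l 16773864)))) (a (c (b (a (a (l 312089771367) (c (a (b (l 162302786775) (l 16777008)) (l 16776776)) (l 16776952))) (a (a (l 16776432) (l 16776080)) (l 16775560))) (a (b (a (a (l 349670735879) (l 4999610247)) (l 16775952)) (a (c (a (l 174113947495) (l 16776904)) (l 16777080)) (l 16775728))) (a (l 16776456) (l 16775112)))) (a (a (b (l 310479159287) (l 140827950823)) (l 16776736)) (l 16774408))) (a (a (a (l 16775496) (l 16774496)) (l 16774216)) (a (l 16773280) (l 16772584))))) (a (a (b (l 285783097303) (a (l 207936814503) (l 16776752))) (c (l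 16776512) (l 16776216))) (c (a (l 16772232) (l 16773512)) (l 16771640)))) (a (a (c (c (c (l 16772384) (l 16771952)) (l 16772040)) (l 16770264)) (c (c (c (l 16770464) (l 16770544)) (l 16770656)) (l 16770888))) (c (c (a (l 16770384) (l 16767640)) (l 16769872)) (c (l 16768760) (l 16768976))))) (a (a (c (a (l 174650819335) (l 16776256)) (l 97341403047)) (l 16774464)) (a (l 16768088) (l 16764296)))), by decide +kernel⟩

def k53_pm_102_s : ∃ t, chk3 f_pm_102_s t 122 277 2 = true :=
  ⟨(c (c (b (a (a (b (c (b (a (c (a (l 16776616) (l 16776696)) (l 16776400)) (c (l 16775320) (l 16775016))) (a (a (a (l 16776464) (l 16776112)) (l 16775592)) (l 16774880))) (a (l 16776192) (l 16774832))) (c (a (a (a (l 16776272) (l 16775440)) (l 16775576)) (c (l 16774512) (l 16773888))) (a (l 16774000) (l 16773952)))) (c (a (b (l 16773712) (l 16772472)) (c (l 16772144) (l 16771552))) (a (l 16774336) (l 16771648)))) (c (a (a (l 16770760) (l 16768680)) (c (l 16767776) (l 16766584))) (a (l 16770880) (l 16766768)))) (a (a (c (a (b (a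 (l 16775360) (l 16774008)) (l 16773776)) (a (l 16773264) (l 16772816))) (a (a (l 16774320) (l 16773640)) (l 16772616))) (c (a (c (l 16771728) (l 16771136)) (l 16769688)) (a (l 16771240) (l 16769864)))) (c (a (c (l 16768152) (l 16767608)) (l 16765664)) (a (l 16767776) (l 16764968))))) (a (c (a (a (b (l 16775784) (l 16774056)) (b (l 16771840) (l 16772728))) (b (a (l 16773128) (l 16771784)) (l 16770720))) (a (l 16773680) (a (l 16769768) (l 16771072)))) (a (b (c (l 16769752) (l 16769944)) (l 16770744)) (c (l 16768760) (l 16766424))))) (a (c (a (l 16774456) (c (l 16766640) (l 16766792))) (l 16773456)) (c (a (l 16765496) (l 16761624)) (b (l 16764216) (l 16757448))))), by decide +kernel⟩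

def k54_pm_102_s : ∃ t, chk3 f_pm_102_s t 122 138 3 = true :=
  ⟨(a (c (c (b (a (b (l 268603227975) (l 90362086631)) (l 16775456)) (l 16773712)) (b (a (l 152639110487) (l 16775592)) (l 16773984))) (b (a (b (l 246054651207) (l 16776792)) (l 16775824)) (l 16774432))) (c (c (b (l 16772112) (l 16764040)) (l 16770216)) (b (l 16773120) (l 16770896)))), by decide +kernel⟩

def k55_pm_102_s : ∃ t, chk3 f_pm_102_s t 122 139 1 = true :=
  ⟨(c (a (c (c (b (a (c (a (b (c (l 16772712) (l 16772112)) (l 16770904)) (b (l 16771336) (l 16768848))) (b (c (l 16772792) (l 16774176)) (l 16771040))) (c (a (b (l 16769272) (l 16767432)) (b (l 16767856) (l 16766008))) (b (l 16768760) (l 16766968)))) (c (a (b (c (l 16768968) (l 16767760)) (l 16767168)) (b (l 16766184) (l 16763016))) (a (b (l 16767936) (l 16766128)) (l 16765568)))) (b (a (a (b (l 16772384) (l 16770672)) (b (l 16771072) (l 16769352))) (b (l 16770392) (l 16767352))) (a (c (l 16769912) (l 16767552)) (c (l 16764584) (l 16764920))))) (c (a (b (l 16767288) (l 16762728))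 (b (l 16763472) (l 16765448))) (b (l 16770416) (l 16762136)))) (b (c (c (c (a (b (c (l 16765648) (l 16765776)) (l 16765168)) (a (l 16763936) (l 16763792))) (a (l 16766056) (l 16762256))) (a (c (l 16765376) (l 16765688)) (l 16764120))) (c (a (l 16766168) (l 16763600)) (l 16760408))) (c (c (c (a (c (l 16762288) (l 16761168)) (c (l 16758056) (l 16758280))) (a (l 16761456) (l 16758616))) (c (l 16762432) (l 16763536))) (c (a (l 16762904) (l 16760320)) (l 16752112))))) (c (c (b (a (l 16770896) (l 16755976)) (a (l 16757600) (l 16753160))) (a (l 16770120) (l 16766040))) (a (b (l 16772224) (l 16770048)) (b (l 16768696) (l 16766536))))), by decide +kernel⟩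

def k56_pm_102_s : ∃ t, chk3 f_pm_102_s t 123 69 2 = true :=
  ⟨(c (a (b (c (b (c (a (a (b (l 16768032) (l 16766200)) (b (l 16766584) (l 16764744))) (b (c (l 16764328) (l 16764472)) (l 16763864))) (a (b (l 16767528) (l 16765736)) (l 16764608))) (c (a (b (l 16764936) (l 16761776)) (c (l 16760984) (l 16759872))) (a (l 16764344) (l 16760168)))) (b (a (b (l 16769184) (l 16766144)) (c (l 16764104) (l 16764432))) (a (c (l 16763376) (l 16763728)) (l 16762752)))) (c (b (c (a (c (l 16761496) (l 16759080)) (l 16757344)) (a (l 16759400) (l 16756520))) (a (c (l 16757856) (l 16755752)) (c (l 16752272) (l 16752856)))) (b (c (l 16759744) (l 16761544)) (c (l 16754880) (l 16755472))))) (b (c (b (a (c (b (l 16761464) (l 16759608)) (l 16760912)) (c (c (l 16760096) (l 16757688)) (l 16758016))) (a (c (c (l 16756704) (l 16756928)) (l 16757272)) (c (l 16756456) (l 16754368)))) (b (c (a (l 16761296) (l 16758464)) (l 16762600)) (c (l 16758624) (l 16756864)))) (c (b (a (c (l 16753056) (l 16753616)) (c (l 16750064) (l 16750688)))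 (a (c (l 16749280) (l 16749936)) (c (l 16746256) (l 16746984)))) (b (c (l 16752768) (l 16753400)) (a (l 16750968) (l 16748120)))))) (b (c (a (a (b (l 16763616) (l 16764280)) (b (l 16764944) (l 16761664))) (b (a (l 16762312) (l 16759656)) (l 16760312))) (a (b (b (l 16762408) (l 16760880)) (l 16758592)) (b (l 16756688) (l 16758864)))) (a (c (b (a (l 16761000) (l 16758376)) (l 16756400)) (b (l 16750288) (l 16757712))) (c (b (l 16754392) (l 16752392)) (a (l 16755512) (l 16742520)))))), by decide +kernel⟩

def k57_pm_102_s : ∃ t, chk3 f_pm_102_s t 123 69 3 = true :=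
  ⟨(c (c (b (a (b (l 16762336) (l 16754256)) (a (l 16757456) (l 16749864))) (a (c (l 16749704) (l 16750352)) (b (l 16757272) (l 16743984)))) (b (a (l 16767008) (l 16754848)) (a (l 16751368) (l 16757608)))) (b (a (b (l 16769472) (l 16767256)) (b (l 16765712) (l 16763520))) (a (l 16758760) (b (l 16761360) (l 16759272))))), by decide +kernel⟩

def k58_pm_102_s : ∃ t, chk3 f_pm_102_s t 480 70 2 = true :=
  ⟨(b (l 3) (c (b (a (b (l 3) (a (c (b (l 342154543047) (b (a (l 242833424039) (l 16777072)) (l 16776784))) (l 189683203047)) (c (b (a (b (l 3) (l 138680467191)) (b (l 213305523895) (l 16776888))) (l 16776048)) (l 16776848)))) (c (b (a (a (l 335712091431) (b (l 3) (b (l 364703121383) (l 109689437911)))) (b (c (l 307794804695) (l 306721062871)) (a (b (l 182703881911) (l 16776832)) (l 16776736)))) (c (c (b (a (l 16776624) (l 16774992)) (a (l 16775712) (l 16775064))) (l 16775536)) (l 16775888))) (b (b (l 315847868327) (l 149954755751)) (l 16775944)))) (b (c (c (b (a (c (a (l 16774784) (l 16775448)) (l 16774480))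 (l 16775800)) (a (c (l 16776168) (l 16774888)) (l 16773584))) (l 16774336)) (l 16774848)) (c (a (b (l 16775320) (l 16773120)) (a (l 16773920) (l 16771968))) (l 16770536)))) (b (c (b (l 240685940551) (l 16776616)) (l 137069856247)) (l 16774304)))), by decide +kernel⟩

def k59_pm_102_s : ∃ t, chk3 f_pm_102_s t 481 70 2 = true :=
  ⟨(b (b (l 3) (a (c (b (l 3) (c (b (l 3) (a (l 3) (b (l 308331675623) (a (l 220821716663) (l 16777024))))) (l 272361324439))) (l 308331675415)) (c (a (b (l 3) (c (a (b (l 3) (c (b (l 108078825271) (l 16775392)) (l 16776936))) (b (a (l 292225548263) (b (l 3) (l 140827950839))) (l 16776608))) (l 153175979751))) (b (c (l 353428831527) (l 355576315799)) (c (c (b (b (a (l 258402680503) (l 16777080)) (l 16776792)) (a (l 16775616) (l 16775952))) (l 16777240)) (l 16776608)))) (b (l 353428832103) (l 16776976))))) (c (c (a (b (a (b (b (c (b (a (l 328195899367) (l 144586047255)) (l 16777088)) (l 16777160)) (b (l 16776480) (l 16774720))) (b (a (l 16775520) (l 16775200)) (l 16774464))) (c (b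 (b (l 16776176) (c (l 16775584) (l 16775608))) (l 16775136)) (l 16774536))) (b (b (l 16774552) (l 16772344)) (l 16772312))) (b (b (c (b (a (a (l 16775360) (l 16775696)) (l 16775200)) (l 16775600)) (l 16772504)) (c (c (l 16774536) (l 16773280)) (l 16773352))) (b (a (l 16771824) (l 16771176)) (l 16769704)))) (b (c (b (l 16776128) (l 16771456)) (l 16775008)) (b (l 16769792) (l 16770720)))) (b (c (l 16775112) (l 16775256)) (l 16772088)))), by decide +kernel⟩

def k60_pm_102_s : ∃ t, chk3 f_pm_102_s t 241 280 2 = true :=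
  ⟨(b (a (l 3) (c (c (a (b (l 3) (a (l 3) (a (l 343228284903) (b (l 3) (a (l 214379265799) (l 101636374295)))))) (b (b (a (l 3) (a (l 356113186807) (b (l 270750711559) (l 16777144)))) (a (l 307794804055) (a (a (l 153712852103) (l 16777056)) (l 16776808)))) (c (b (a (a (l 221358586999) (l 16777016)) (l 16776512)) (a (l 16776728) (l 16776056))) (l 16776632)))) (a (l 304573579175) (b (l 213305523271) (l 16776656)))) (a (l 292762419079) (l 106468214087)))) (c (b (a (l 3) (a (c (a (b (l 293299289431) (a (a (l 272898195207) (l 158007820055)) (l 16776976))) (b (a (a (l 129553661079) (l 16777016)) (l 16776776)) (l 16776384))) (l 122574336679)) (c (c (a (b (l 16775616) (l 16775816)) (l 16776032)) (l 16773128)) (l 16775800)))) (a (a (l 3) (c (a (a (l 3) (b (l 3) (l 245517778615))) (c (a (b (l 314237255671) (l 16777056)) (a (b (l 186461978391) (l 16775504)) (l 16776872))) (l 122037468759))) (l 197199395991))) (c (c (b (a (a (l 16776688) (l 16776024)) (l 16775680)) (a (a (l 16775576) (l 16775568)) (l 16774568)))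 (l 16775016)) (l 16775576)))) (a (l 260013293383) (l 16777432)))), by decide +kernel⟩

def k61_pm_102_s : ∃ t, chk3 f_pm_102_s t 241 281 2 = true :=
  ⟨(a (b (c (c (a (b (a (l 3) (a (l 309942288359) (b (l 358797541351) (a (l 152639110935) (l 16777056))))) (b (c (a (a (l 3) (l 215453007623)) (l 16776848)) (l 138143595991)) (a (a (a (l 203104976647) (l 16777128)) (l 16776888)) (l 16776400)))) (c (b (b (a (c (a (l 172503334023) (l 16776928)) (l 16777096)) (l 16775784)) (a (l 16776640) (l 16775984))) (a (a (l 16775304) (l 16775800)) (l 16775960))) (b (l 16776560) (l 16773048)))) (a (b (l 264308260807) (l 16776976)) (l 16776160))) (c (l 88751468615) (l 16776896))) (c (c (c (a (b (c (a (l 16776280) (l 16776360)) (l 16776048)) (a (l 16776112) (l 16774800))) (b (c (l 16775360) (l 16774736)) (l 16775120))) (a (l 16775624) (l 16771720))) (l 16774416)) (l 16775264))) (c (b (c (a (b (c (c (a (l 16776200) (l 16774872)) (l 16773920)) (l 16775272)) (a (l 16775328) (l 16774016))) (c (b (l 16774544) (l 16772976)) (l 16773520)))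 (l 16773968)) (c (c (a (c (l 16773568) (l 16772968)) (l 16772912)) (a (l 16773048) (l 16771736))) (c (l 16769896) (l 16772648)))) (l 16773776))), by decide +kernel⟩

def k62_pm_102_s : ∃ t, chk3 f_pm_102_s t 241 141 2 = true :=
  ⟨(b (c (c (b (a (a (b (a (l 16775888) (l 16773928)) (l 16773848)) (c (l 16773096) (l 16772560))) (c (c (l 16771216) (l 16770480)) (l 16770608))) (a (c (a (l 16773248) (l 16770608)) (l 16774048)) (a (l 16769376) (l 16768048)))) (a (b (c (l 16770688) (l 16773424)) (l 16768384)) (c (b (l 16770784) (l 16769040)) (l 16770120)))) (a (l 16772936) (l 16770672))) (a (c (c (c (b (l 16770752) (l 16767616)) (b (l 16769640) (l 16767864))) (c (l 16771600) (l 16769216))) (l 16769848)) (c (c (c (c (l 16767088) (l 16765920)) (l 16766136)) (l 16769208)) (l 16762328)))), by decide +kernel⟩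

def k63_pm_102_s : ∃ t, chk3 f_pm_102_s t 121 140 4 = true :=
  ⟨(a (c (a (b (b (c (b (a (b (a (l 16776752) (l 16775432)) (a (l 16775648) (l 16775632))) (a (l 16775840) (l 16774512))) (a (c (a (l 16776264) (l 16774936)) (l 16773984)) (l 16774592))) (a (l 16775448) (c (l 16772480) (l 16774480)))) (b (c (a (c (l 16775008) (l 16774392)) (l 16773024)) (a (l 16774440) (l 16773128))) (a (a (l 16773832) (l 16773168)) (l 16772824)))) (c (b (a (l 16772744) (l 16770736)) (c (l 16770840) (l 16769624))) (b (l 16773192) (l 16769760)))) (b (c (b (a (a (l 16773872) (l 16773352)) (l 16772168)) (a (l 16771864) (l 16769840))) (b (a (l 16773136) (l 16771808)) (l 16772000))) (b (c (c (l 16769944) (l 16768736)) (l 16768896)) (c (l 16766840) (l 16767096))))) (c (b (a (b (l 16775176) (l 16770816)) (b (l 16769976) (l 16770856))) (a (b (l 16771696) (l 16769960)) (l 16770856))) (a (b (l 16774384) (l 16765768)) (b (l 16767944) (l 16768488))))) (b (c (a (a (c (b (l 16770304) (l 16768464)) (l 16770880)) (c (b (l 16768920) (l 16767072))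 (l 16768224))) (c (b (c (l 16766768) (l 16766888)) (l 16766288)) (l 16767488))) (c (a (b (l 16769984) (l 16768232)) (l 16766456)) (a (l 16769328) (l 16766752)))) (c (c (a (b (l 16767232) (l 16764072)) (c (l 16763416) (l 16762288))) (a (l 16767920) (l 16762560))) (a (c (l 16765608) (l 16765928)) (l 16765760))))), by decide +kernel⟩

def k64_pm_102_s : ∃ t, chk3 f_pm_102_s t 121 141 4 = true :=
  ⟨(a (c (b (c (a (b (l 16769048) (l 16765896)) (c (l 16765304) (l 16764152))) (a (l 16769696) (l 16764400))) (a (b (l 16765520) (l 16762392)) (c (l 16762992) (l 16760800)))) (b (a (c (l 16767344) (l 16767624)) (l 16767536)) (a (l 16764048) (l 16761464)))) (c (b (a (b (l 16763712) (l 16760568)) (c (l 16761096) (l 16758936))) (c (a (l 16757576) (l 16754752)) (l 16756696))) (b (c (l 16763384) (l 16761224)) (c (l 16757248) (l 16757824))))), by decide +kernel⟩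

def k65_pm_102_s : ∃ t, chk3 f_pm_102_s t 121 70 5 = true :=
  ⟨(b (a (c (a (b (l 16774512) (l 16766040)) (b (l 16766872) (l 16763632))) (b (l 16773568) (l 16770560))) (b (c (a (l 16764432) (l 16767216)) (l 16763776)) (a (l 16761544) (l 16759152)))) (a (a (b (l 16763120) (l 16760016)) (b (l 16760784) (l 16752432))) (c (b (l 16755400) (l 16758720)) (c (l 16750704) (l 16751296))))), by decide +kernel⟩

def k66_pm_102_s : ∃ t, chk3 f_pm_102_s t 60 71 2 = true :=
  ⟨(a (c (b (a (a (b (c (a (b (l 16773096) (l 16770008)) (b (l 16770504) (l 16768728))) (a (l 16767304) (l 16764784))) (c (c (l 16767888) (l 16766856)) (l 16762712))) (c (b (c (c (l 16768800) (l 16770240)) (l 16770424)) (c (l 16763960) (l 16764304))) (b (c (l 16768064) (l 16768328)) (l 16764856)))) (c (b (c (a (l 16767512) (l 16764816)) (a (l 16765208) (l 16762584))) (c (a (l 16761288) (l 16758568)) (l 16765632))) (b (a (l 16770952) (l 16763192)) (c (l 16760864) (l 16761352))))) (a (c (a (b (a (l 16763824) (l 16762552)) (l 16762288)) (b (l 16760608)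 (l 16762328))) (b (a (l 16763984) (l 16761544)) (l 16764704))) (c (b (c (l 16758968) (l 16756904)) (c (l 16758016) (l 16753440))) (b (l 16763024) (l 16754480))))) (a (b (c (b (l 16764656) (l 16761544)) (l 16768976)) (b (l 16756320) (l 16750752))) (b (c (b (l 16760000) (l 16762120)) (l 16756784)) (b (l 16749192) (l 16746256))))) (a (b (b (c (c (c (a (l 16759456) (l 16756688)) (l 16763808)) (c (l 16759080) (l 16759608))) (b (l 16751296) (l 16749776))) (c (c (a (l 16756096) (l 16753344)) (l 16755960)) (l 16747512))) (c (c (c (b (l 16750808) (l 16747216)) (b (l 16751512) (l 16748032))) (c (l 16750568) (l 16751384))) (b (l 16744520) (l 16741584)))) (b (c (a (c (b (l 16759424) (l 16750560)) (l 16758968)) (c (c (l 16753792) (l 16749928)) (l 16751072))) (c (b (l 16755520) (l 16752352)) (l 16745088))) (c (c (c (b (l 16745136) (l 16741504)) (l 16749472)) (c (l 16745168) (l 16746144))) (a (l 16739456) (l 16737032)))))), by decide +kernel⟩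

def k67_pm_102_s : ∃ t, chk3 f_pm_102_s t 122 70 2 = true :=
  ⟨(c (c (b (a (b (b (c (a (l 16764008) (l 16761152)) (l 16764080)) (c (a (l 16762152) (l 16759288)) (l 16763744))) (c (a (l 16761320) (l 16759104)) (a (l 16759792) (l 16756992)))) (b (c (a (l 16759952) (l 16754416)) (a (l 16757816) (l 16754960))) (c (a (l 16753584) (l 16750656)) (l 16755352)))) (a (b (c (a (l 16755624) (l 16752744)) (l 16754760)) (a (l 16754824) (l 16749352))) (a (b (l 16752784) (l 16746464)) (b (l 16747264) (l 16743552))))) (b (b (a (a (l 16765264) (l 16761272)) (c (l 16756920) (l 16757472))) (a (c (l 16761504) (l 16759392)) (c (l 16753368) (l 16754032)))) (b (a (c (l 16755352) (l 16755968)) (l 16750200)) (a (l 16752184) (l 16746720))))) (b (a (a (b (l 16759216) (l 16756728)) (b (l 16757424) (l 16759512))) (c (b (l 16763576) (l 16755064)) (c (l 16752456) (l 16747896)))) (c (a (b (l 16756936) (l 16753696)) (b (l 16751800) (l 16748552))) (a (l 16747624) (l 16741520))))), by decide +kernel⟩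

def k68_pm_102_s : ∃ t, chk3 f_pm_102_s t 123 70 2 = true :=
  ⟨(c (b (a (c (a (b (c (l 16751464) (l 16752088)) (l 16750672)) (b (l 16751456) (l 16745104))) (b (c (l 16751312) (l 16752016)) (l 16748144))) (b (c (a (c (l 16745488) (l 16746248)) (c (b (l 16743352) (l 16741352)) (l 16743144))) (a (l 16747440) (l 16744408))) (a (c (b (l 16743024) (l 16741080)) (l 16743800)) (b (l 16740576) (l 16738528))))) (a (b (c (a (l 16744328) (c (l 16740864) (l 16741760))) (a (l 16746040) (l 16743168))) (c (a (c (l 16740112) (l 16741048)) (c (l 16736920) (l 16737888))) (a (l 16742520) (l 16739400)))) (c (c (b (a (l 16737592) (l 16734088)) (l 16731696)) (b (l 16736760) (l 16732664))) (b (l 16735568) (l 16734176))))) (a (b (b (b (l 16746800) (l 16742592)) (c (l 16749824) (l 16751624))) (b (a (l 16748848) (l 16746200)) (a (l 16745688) (l 16742664)))) (b (b (a (l 16750016) (l 16736648)) (a (l 16746680) (l 16743392))) (b (c (l 16740216) (l 16742384)) (l 16737456))))), by decide +kernel⟩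

def k69_pm_102_s : ∃ t, chk3 f_pm_102_s t 61 71 2 = true :=
  ⟨(a (a (b (c (c (c (a (l 16751568) (l 16743416)) (b (l 16747504) (l 16743912))) (c (l 16746576) (l 16747480))) (b (l 16740912) (l 16737856))) (b (c (c (l 16745080) (l 16741920)) (l 16745320)) (c (c (a (l 16737680) (l 16734704)) (l 16738480)) (l 16731776)))) (c (b (b (c (a (l 16742784) (l 16739848)) (l 16743248)) (c (a (l 16739120) (c (l 16735536) (l 16736592))) (l 16737072))) (c (b (a (l 16735376) (l 16732088)) (l 16724544)) (b (l 16730784) (l 16732216)))) (c (b (b (l 16745328) (l 16741992)) (a (l 16738280) (l 16735024))) (b (b (l 16747552) (l 16744440)) (l 16728816))))) (c (c (b (a (b (a (c (l 16736232) (l 16737248)) (l 16733312)) (l 16730968)) (c (a (l 16727272) (l 16723760)) (l 16726560))) (a (b (l 16726920) (l 16722888)) (b (l 16719928) (l 16715880)))) (b (a (b (l 16734512) (l 16733200)) (c (l 16727640) (l 16728760))) (a (l 16732536) (l 16720288)))) (b (a (b (a (l 16742264) (l 16738896)) (l 16736840)) (c (l 16730520) (l 16733008))) (a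 (c (l 16729864) (l 16732608)) (c (l 16722864) (l 16725616)))))), by decide +kernel⟩

def k70_pm_102_s : ∃ t, chk3 f_pm_102_s t 60 35 3 = true :=
  ⟨(b (a (b (a (b (l 3) (a (l 3) (c (c (l 202568107383) (l 196662527591)) (l 177335176359)))) (c (b (a (l 303499831831) (c (b (l 173040206727) (l 16776248)) (l 16776784))) (c (a (l 16776232) (l 16774152)) (l 16775400))) (b (a (l 286856841303) (l 71034736999)) (a (l 16776240) (l 16774784))))) (c (a (a (b (b (l 213305525735) (l 16776768)) (l 16774744)) (c (l 16774040) (l 16774328))) (c (l 16771032) (l 16771584))) (a (b (a (l 16779360) (l 16775712)) (l 16774240)) (l 16766960)))) (b (c (c (a (b (l 16773840) (l 16771064)) (l 16768232)) (a (l 16772864) (l 16769000))) (a (b (l 16774584) (l 16772400)) (b (l 16771296) (l 16769176)))) (c (c (a (l 16766928) (l 16752224)) (a (l 16767848) (l 16764000))) (b (l 16765952) (l 16755800))))) (c (a (b (c (a (l 16769648) (l 16765680)) (l 16763336)) (c (a (l 16764472) (l 16750024)) (l 16763952))) (b (c (a (l 16751064) (l 16746840))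 (l 16761104)) (c (b (l 16745048) (l 16732032)) (l 16756536)))) (a (b (a (l 16770656) (l 16767448)) (a (l 16765600) (l 16762384))) (b (a (l 16764280) (l 16761096)) (c (l 16758904) (l 16756168)))))), by decide +kernel⟩

def k71_pm_102_s : ∃ t, chk3 f_pm_102_s t 61 35 3 = true :=
  ⟨(c (b (c (a (b (a (c (l 16753136) (l 16753688)) (l 16751592)) (a (l 16747888) (l 16743456))) (b (a (l 16744432) (b (l 16740960) (l 16737672))) (a (c (l 16738048) (l 16739216)) (l 16732368)))) (a (b (a (l 16765032) (l 16750472)) (l 16758032)) (b (a (l 16735824) (b (l 16753536) (l 16729456))) (a (l 16751512) (l 16724392))))) (a (b (a (c (l 16753000) (l 16734272)) (b (l 16740664) (l 16737928))) (a (b (l 16750392) (l 16726920)) (b (l 16724392) (l 16721160)))) (a (b (b (l 16735176) (l 16721296)) (l 16721336)) (b (c (l 16735656) (l 16738464)) (l 16714360))))) (b (a (b (a (l 16766856) (l 16763376)) (b (l 16751544) (l 16749424))) (b (a (l 16759808) (b (l 16756872) (l 16754072))) (a (b (l 16756736) (l 16754216)) (l 16749400)))) (a (b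 (a (l 16757904) (l 16744408)) (a (l 16731952) (l 16729104))) (b (a (l 16749776) (l 16742992)) (l 16719216))))), by decide +kernel⟩

def k72_pm_102_s : ∃ t, chk3 f_pm_102_s t 248 68 1 = true :=
  ⟨(a (c (b (c (b (b (c (a (c (c (l 16771160) (l 16770888)) (l 16770984)) (b (l 14) (l 16769704))) (a (l 16772496) (l 16769808))) (c (c (a (l 16769744) (l 16767632)) (l 16769360)) (c (l 16768720) (l 16768912)))) (c (a (c (b (l 16767304) (l 16765496)) (l 16767928)) (c (b (l 16765840) (l 16764032)) (l 16765192))) (b (l 16768104) (l 16765424)))) (b (c (b (l 16768184) (l 16769208)) (l 16766448)) (c (b (l 16767600) (l 16765984)) (l 16762104)))) (c (c (b (c (b (l 16764256) (l 16761112)) (c (l 16762264) (l 16762432))) (c (b (l 16759264) (l 16757408)) (l 16758744))) (b (c (l 16762680) (l 16763016)) (l 16762000))) (c (b (l 16763552) (l 16760280)) (b (l 16764296) (l 16761232))))) (b (c (c (b (l 16765528) (l 16762696)) (l 16769880)) (b (l 16771864) (l 16769560))) (c (b (l 16760264) (l 16757528)) (l 16766160)))) (b (b (b (l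 14) (a (a (c (c (c (l 16766648) (l 16767088)) (l 16767800)) (l 16764192)) (l 14)) (l 14))) (c (b (c (c (a (l 16765816) (l 16763056)) (l 16764344)) (l 16760016)) (c (c (c (l 16763144) (l 16762144)) (l 16762632)) (l 16763688))) (c (b (l 16761376) (l 16754768)) (l 16767568)))) (c (c (c (b (c (b (l 16760000) (l 16758160)) (l 16762080)) (c (l 16757016) (l 16755840))) (b (l 16760864) (l 16756568))) (b (c (l 16760880) (l 16761768)) (c (l 16757600) (l 16758688)))) (c (b (l 16757952) (l 16749976)) (l 16764176))))), by decide +kernel⟩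

def k73_pm_102_s : ∃ t, chk3 f_pm_102_s t 248 69 1 = true :=
  ⟨(c (a (c (b (c (b (c (l 16755920) (l 16755104)) (c (l 16750848) (l 16751440))) (b (l 16755888) (l 16752368))) (b (c (b (l 16748328) (a (l 16747216) (l 16745648))) (l 16746160)) (c (b (a (l 16745296) (l 16743616)) (l 16742416)) (l 16744992)))) (b (b (l 16751008) (l 16754368)) (b (c (l 16750312) (l 16751936)) (c (l 16746664) (l 16748448))))) (c (b (b (c (c (l 16751624) (l 16752184)) (l 16753056)) (c (c (a (l 16748576) (b (l 16748000) (l 16745992))) (l 16745784)) (l 16748104))) (c (b (b (c (l 16744776) (l 16745464)) (l 16743032)) (l 16739912)) (b (l 16745536) (l 16741464)))) (b (b (l 16754944) (c (l 16750840) (l 16752360))) (b (c (l 16747096) (l 16748752)) (l 16744016))))) (b (c (b (a (l 16749560) (l 16747248)) (a (l 16746848) (l 16744328))) (b (l 16761832) (l 16749056))) (c (b (a (l 16744072) (l 16740952)) (c (l 16738056) (l 16729568))) (b (l 16746304) (l 16753736))))), by decide +kernel⟩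

def k74_pm_102_s : ∃ t, chk3 f_pm_102_s t 249 34 1 = true :=
  ⟨(b (b (b (l 14) (a (a (b (l 14) (b (l 14) (c (c (l 16761024) (l 16761336)) (l 16764160)))) (l 14)) (l 14))) (a (c (c (c (b (b (l 16758552) (l 16758032)) (b (l 16753576) (a (l 16752464) (l 16750960)))) (b (l 16757232) (l 16753720))) (b (c (l 16758192) (l 16759216)) (c (l 16754888) (l 16756120)))) (b (c (l 16755616) (l 16763280)) (c (l 16752880) (l 16761056)))) (b (a (a (b (l 14) (c (c (l 16754064) (l 16756248)) (l 16760040))) (l 14)) (l 14)) (c (c (c (a (b (l 16751296) (l 16749296)) (l 16748528)) (a (l 16751424) (l 16749656))) (c (l 16751736) (l 16753016))) (c (l 16747232) (l 16758144)))))) (c (b (c (c (b (b (a (a (l 16750600) (l 16748992)) (l 16746304)) (a (a (l 16748664) (l 16746920)) (l 16744216))) (a (c (l 16744360) (l 16745016)) (c (l 16740776) (l 16741400)))) (b (a (b (l 16750992) (l 16749064)) (l 16746480)) (c (l 16743872) (l 16744560)))) (b (a (c (l 16751320) (l 16752728)) (l 16748480)) (c (l 16745632) (l 16747152)))) (c (c (a (b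 (l 16741824) (l 16736344)) (b (l 16736912) (l 16732752))) (c (b (l 16739760) (l 16735672)) (l 16738472))) (c (c (l 16739256) (l 16740072)) (l 16745272)))) (b (c (b (a (l 16747128) (l 16740968)) (b (l 16740048) (l 16738192))) (b (l 16744656) (l 16753208))) (c (c (b (l 16744992) (l 16741256)) (l 16724048)) (l 16732336))))), by decide +kernel⟩

def k75_pm_102_s : ∃ t, chk3 f_pm_102_s t 125 34 1 = true :=
  ⟨(b (a (a (a (b (l 14) (b (l 14) (b (l 14) (c (c (l 16746216) (l 16748640)) (l 16742416))))) (l 14)) (l 14)) (l 14)) (b (a (c (c (c (b (a (c (l 16741336) (l 16741904)) (c (l 16737680) (l 16738224))) (a (l 16738768) (l 16733800))) (c (b (l 16740648) (l 16736552)) (l 16740528))) (b (c (l 16742192) (l 16743520)) (c (l 16738208) (l 16739640)))) (c (c (b (l 16744944) (l 16741168)) (l 16734136)) (b (l 16727912) (l 16724440)))) (b (l 14) (a (c (c (c (l 16730112) (l 16731280)) (l 16733216)) (c (l 16736136) (l 16739432))) (l 14)))) (c (c (b (a (c (a (l 16733296) (l 16729648)) (l 16732808)) (c (a (l 16725976) (l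 16722272)) (l 16725360))) (a (c (a (l 16729144) (l 16725504)) (l 16728752)) (c (a (l 16721840) (l 16718152)) (l 16721328)))) (a (c (c (l 16731880) (l 16732648)) (l 16733856)) (c (b (l 16726696) (l 16722768)) (l 16726232)))) (c (c (a (l 16735560) (l 16727840)) (a (l 16737368) (l 16729552))) (a (l 16724560) (l 16719216)))))), by decide +kernel⟩

def k76_pm_102_s : ∃ t, chk3 f_pm_102_s t 62 35 4 = true :=
  ⟨(b (a (b (c (a (a (b (l 16739296) (l 16735152)) (b (l 16735752) (l 16731608))) (c (a (l 16732344) (l 16728768)) (a (l 16730520) (l 16726928)))) (a (c (l 16739344) (l 16737616)) (c (l 16729552) (l 16730408)))) (c (a (c (b (l 16728800) (l 16724656)) (a (l 16729424) (l 16725880))) (c (a (l 16721408) (l 16717832)) (l 16723136))) (a (c (l 16728608) (l 16729600)) (c (l 16721448) (l 16722408))))) (b (c (a (b (c (l 16722816) (l 16723552)) (c (l 16718656) (l 16719440))) (c (a (l 16715288) (l 16711624)) (a (l 16716016) (l 16712328)))) (a (c (l 16722280) (l 16723104)) (c (l 16714912) (l 16715680)))) (c (a (c (a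 (l 16714240) (l 16710632)) (l 16715912)) (c (a (l 16707000) (l 16703352)) (l 16705992))) (a (c (l 16714192) (l 16715120)) (c (l 16706840) (l 16707728)))))) (a (c (b (a (c (a (l 16720240) (l 16716696)) (l 16719496)) (c (a (l 16713144) (l 16709568)) (l 16712352))) (a (b (l 16712856) (l 16708800)) (b (l 16705728) (l 16701664)))) (b (a (l 16725696) (l 16719176)) (a (l 16713192) (l 16706016)))) (c (b (a (c (a (l 16705976) (l 16702376)) (l 16705144)) (c (a (l 16698752) (l 16695112)) (l 16697856))) (a (b (l 16698536) (l 16694472)) (b (l 16691272) (l 16687208)))) (b (a (l 16711920) (l 16704568)) (a (l 16698760) (l 16691424)))))), by decide +kernel⟩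

def k77_pm_102_s : ∃ t, chk3 f_pm_102_s t 62 35 5 = true :=
  ⟨(a (b (b (a (c (c (l 16738528) (l 16739480)) (l 16740968)) (c (l 16731760) (l 16733664))) (a (c (l 16731160) (l 16733368)) (c (l 16723928) (l 16726088)))) (b (a (c (l 16723408) (l 16725872)) (c (l 16716184) (l 16718600))) (c (a (l 16715744) (l 16708528)) (a (l 16718480) (l 16711224))))) (b (b (a (c (l 16728976) (l 16726216)) (c (l 16716904) (l 16718632))) (c (a (l 16716584) (l 16709128)) (a (l 16718664) (l 16711120)))) (b (c (a (l 16708856) (l 16701424)) (a (l 16711208) (l 16703696))) (a (c (l 16701208) (l 16703848)) (c (l 16693800) (l 16696360)))))), by decide +kernel⟩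

def k78_pm_102_s : ∃ t, chk3 f_pm_102_s t 62 35 3 = true :=
  ⟨(b (a (c (b (c (a (l 16732576) (l 16735696)) (b (l 16722384) (l 16718824))) (c (a (l 16735720) (l 16728384)) (c (l 16712928) (l 16714200)))) (a (b (l 16748832) (l 16742232)) (b (l 16720360) (l 16713800)))) (c (b (a (c (l 16728168) (l 16730248)) (c (l 16720496) (l 16722480))) (a (c (l 16720888) (l 16723264)) (c (l 16713256) (l 16715536)))) (a (b (l 16712640) (l 16727096)) (b (l 16725688) (l 16719232))))) (a (c (c (a (b (l 16728504) (l 16721408)) (b (l 16721184) (l 16714112))) (a (l 16706920) (l 16699576))) (b (c (l 16709592) (l 16712704)) (c (l 16703168) (l 16706632)))) (b (c (a (l 16717664) (l 16707408)) (b (l 16697440) (l 16694312))) (c (a (l 16708152) (l 16700552)) (a (l 16714552) (l 16706792)))))), by decide +kernel⟩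

def k79_pm_102_s : ∃ t, chk3 f_pm_102_s t 63 34 1 = true :=
  ⟨(b (l 14) (b (l 14) (b (l 14) (b (l 14) (a (a (a (c (c (l 16714024) (l 16716816)) (l 16721840)) (l 14)) (l 14)) (l 14)))))), by decide +kernel⟩

def k80_pm_102_s : ∃ t, chk3 f_pm_102_s t 126 35 1 = true :=
  ⟨(b (a (c (c (c (b (c (a (l 16707936) (l 16704224)) (a (l 16708608) (l 16704872))) (c (a (l 16699688) (l 16695992)) (l 16698600))) (b (c (l 16707432) (l 16708152)) (c (l 16699408) (l 16700240)))) (c (b (l 16709296) (l 16701568)) (b (l 16710920) (l 16703456)))) (c (c (b (l 16712680) (l 16705488)) (l 16715360)) (b (l 16717616) (l 16711200)))) (b (b (l 14) (a (a (c (c (l 16700352) (l 16703352)) (l 16687832)) (l 14)) (l 14))) (c (c (c (c (a (l 16692272) (l 16688536)) (l 16691112)) (c (l 16691864) (l 16692648))) (c (l 16693896) (l 16695680))) (c (c (l 16697608) (l 16699672)) (l 16703040))))) (a (c (c (c (b (c (a (l 16691448) (l 16687776)) (l 16690488)) (b (l 16683944) (l 16679888))) (b (l 16697136) (l 16684016))) (b (c (l 16693896) (l 16696072))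 (c (l 16686296) (l 16688768)))) (c (c (l 16693592) (l 16697576)) (b (l 16704960) (l 16698872)))) (c (c (c (b (c (a (l 16684080) (l 16680360)) (l 16683048)) (b (l 16676544) (l 16672504))) (b (l 16689616) (l 16676528))) (b (c (l 16686280) (l 16688344)) (c (l 16678712) (l 16681080)))) (b (c (l 16686504) (l 16696848)) (c (l 16679736) (l 16690824)))))), by decide +kernel⟩

def k81_pm_102_s : ∃ t, chk3 f_pm_102_s t 127 35 1 = true :=
  ⟨(b (a (a (b (l 14) (a (b (l 14) (c (c (l 16684752) (l 16688032)) (l 16694040))) (l 14))) (l 14)) (l 14)) (a (c (c (b (c (c (a (l 16676624) (l 16672864)) (l 16675520)) (c (l 16676336) (l 16677200))) (c (c (a (l 16668488) (l 16664752)) (l 16667528)) (l 16674208))) (c (b (l 16678560) (l 16671048)) (b (l 16680520) (l 16673312)))) (b (c (l 16678520) (l 16688640)) (c (l 16666568) (l 16682672)))) (b (a (a (b (l 14) (c (c (l 16669184) (l 16672792)) (l 16679432))) (l 14)) (l 14)) (c (c (c (c (a (l 16660992) (l 16657216)) (l 16659960)) (c (l 16660856) (l 16661808))) (c (l 16663312) (l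 16665472))) (c (l 16661184) (l 16674448)))))), by decide +kernel⟩

def k82_pm_102_s : ∃ t, chk3 f_pm_102_s t 28 36 1 = true :=
  ⟨(a (l 3) (b (l 3) (a (a (l 3) (b (l 3) (a (l 3) (c (c (c (l 287930577911) (l 290078064135)) (l 290078064071)) (l 262160781975))))) (b (a (l 3) (b (l 3) (c (c (c (a (l 320679706343) (b (l 242833424231) (l 16776728))) (l 188072589639)) (l 163376532471)) (c (l 152102244279) (l 16776760))))) (a (b (c (c (c (a (l 3) (l 184314494743)) (l 217063620231)) (l 198810011591)) (l 176798306663)) (c (c (c (a (l 69424121063) (l 16774984)) (l 16775952)) (l 16776056)) (l 16778592))) (c (c (c (b (b (l 4462740679) (l 16774552)) (l 16772312)) (b (l 16775416) (l 16772504))) (l 16774192)) (c (l 16774544) (l 16774184)))))))), by decide +kernel⟩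

def k83_pm_102_s : ∃ t, chk3 f_pm_102_s t 28 37 1 = true :=
  ⟨(b (a (a (l 3) (c (b (c (a (l 3) (l 312089771303)) (l 318532221911)) (c (a (b (l 318532222455) (c (l 111300052839) (l 16776968))) (b (c (l 96267664695) (l 16776888)) (l 16774168))) (a (l 153175986903) (l 16775776)))) (b (l 332490858391) (c (c (l 84993373287) (l 16776272)) (l 75866581799))))) (c (c (b (a (b (a (l 292762418791) (c (a (l 105394472023) (l 16775472)) (l 16776416))) (a (c (a (l 134922372087) (l 16775880)) (l 16776784)) (l 16773448))) (c (a (l 16771440) (b (l 16758904) (l 16766536))) (a (l 16771648) (l 16757808)))) (a (c (a (l 16772376) (l 16763888)) (l 16770952)) (c (a (l 16760552) (l 16757144)) (c (l 16753920) (l 16754144))))) (a (b (a (l 130090537687) (l 16775128)) (l 16771272)) (b (l 16770424) (l 16765232)))) (a (b (c (a (l 120963733271) (l 16775296)) (l 56539218535)) (a (l 16773136) (l 16770448))) (c (b (l 16771104) (l 16766328)) (l 16767960))))) (a (c (c (b (a (b (a (l 3) (c (l 113447536535) (l 16776920))) (a (c (l 117205632871)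 (l 16776896)) (l 16774600))) (c (b (l 16772864) (l 16770144)) (l 16771640))) (a (a (l 16773384) (l 16770600)) (a (l 16767744) (l 16759552)))) (a (b (a (l 160155308679) (l 16776104)) (l 16772184)) (b (l 16771856) (l 16766720)))) (a (c (b (c (l 89288351287) (l 16776416)) (l 16772408)) (b (l 16781544) (l 16772296))) (b (c (l 16772200) (l 16771912)) (l 16762328)))) (c (b (c (a (b (l 16766744) (l 16756216)) (c (b (l 16749552) (l 16757408)) (l 16748768))) (a (l 16766104) (l 16760160))) (c (a (c (l 16752160) (l 16749920)) (a (l 16745008) (l 16752264))) (a (l 16761048) (l 16755184)))) (c (b (a (l 16766936) (l 16761552)) (l 16750216)) (b (l 16763400) (l 16758640)))))), by decide +kernel⟩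

def k84_pm_102_s : ∃ t, chk3 f_pm_102_s t 58 72 1 = true :=
  ⟨(a (a (l 3) (b (l 3) (c (a (c (b (l 3) (c (b (l 344838897431) (a (l 221895457735) (l 16776816))) (l 181630141783))) (l 266455738663)) (c (c (b (l 315847868087) (a (b (l 166060882983) (l 16775816)) (l 16775616))) (b (l 317458480807) (l 16776200))) (b (l 314774126199) (l 16776304)))) (b (l 300815486983) (c (l 81235282295) (l 16776560)))))) (a (b (a (l 3) (b (l 3) (b (l 3) (c (c (c (a (l 311016030055) (c (l 131701144759) (l 16777192))) (l 193441298919)) (l 16777088)) (l 16778296))))) (c (b (c (c (a (a (b (l 3) (l 108078824535)) (b (l 199346879447) (l 16776008))) (b (c (l 16776072) (l 16776104)) (l 16774456))) (a (b (l 238001584599) (l 16776576)) (l 16775368))) (c (l 62981671351) (l 16776576))) (c (c (a (l 16774104) (c (l 16768080) (l 16772136))) (l 16773288)) (l 16773616))) (c (c (l 16777976) (l 16775360)) (l 16774952)))) (c (c (c (a (b (b (l 344302026343) (b (c (a (l 222969200551) (l 59760442727)) (l 141364820807)) (l 16775616))) (b (b (l 16771352)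 (l 16772368)) (c (l 16769944) (l 16770112)))) (b (b (b (b (l 3) (l 249812744807)) (a (a (l 206326202311) (l 111300050103)) (l 16776256))) (b (l 16775112) (c (l 16770784) (l 16773496)))) (b (b (l 16771832) (l 16770256)) (l 16767960)))) (b (b (a (l 346449509975) (b (l 265382002471) (l 16777512))) (c (a (l 64592281671) (l 16774392)) (l 16778136))) (b (l 16772360) (l 16764160)))) (b (b (a (l 341617671735) (l 137069857447)) (c (l 16775608) (l 16775736))) (l 16771424))) (c (b (b (c (l 184851368023) (l 16778640)) (l 16778568)) (l 16772256)) (b (b (l 160692179911) (l 16775656)) (l 16771928)))))), by decide +kernel⟩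

def k85_pm_102_s : ∃ t, chk3 f_pm_102_s t 58 73 1 = true :=
  ⟨(c (a (a (c (b (c (b (a (b (l 3) (l 208473685863)) (b (l 164450269543) (l 16776072))) (a (l 16775632) (l 16773744))) (b (a (l 272898195175) (l 82845894183)) (l 16774800))) (c (b (c (l 16766352) (l 16761224)) (l 16763456)) (l 16770456))) (b (b (l 129553665575) (l 16774992)) (l 16770936))) (b (c (a (c (b (l 16774920) (l 16766608)) (l 16773552)) (c (b (l 16769040) (l 16769952)) (l 16771712))) (l 16772992)) (c (c (b (l 16762704) (l 16765056)) (l 16759080)) (l 16767688)))) (b (c (c (b (a (a (l 16765760) (l 16769024)) (c (l 16765888) (l 16766152))) (a (c (l 16766952) (l 16767176)) (l 16763160))) (a (l 16768928) (c (l 16759784) (l 16754848)))) (c (l 16767592) (l 16768176))) (c (c (a (b (l 16764192) (l 16761392)) (b (l 16760384) (l 16757672))) (a (l 16752928) (l 16749336))) (l 16762800)))) (a (b (a (c (c (l 51707385927) (l 16776064)) (l 16775824)) (c (l 16773536) (l 16773176))) (c (l 16765008) (l 16769528))) (b (c (c (l 16768800) (l 16769456)) (l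 16768296)) (c (l 16764584) (l 16763024))))), by decide +kernel⟩

def k86_pm_102_s : ∃ t, chk3 f_pm_102_s t 58 37 1 = true :=
  ⟨(c (b (b (c (a (b (c (a (l 16765816) (l 16762240)) (l 16754072)) (a (l 16758016) (l 16754568))) (a (b (l 16753776) (l 16756360)) (a (l 16747192) (l 16742800)))) (a (l 16764136) (l 16757816))) (a (c (c (b (l 16750664) (l 16745376)) (c (l 16747224) (l 16747592))) (l 16759056)) (c (c (a (l 16752008) (l 16748560)) (l 16740792)) (l 16752936)))) (a (a (c (b (c (l 16753656) (l 16754376)) (l 16749000)) (l 16753152)) (c (b (l 16742824) (l 16745744)) (l 16750144))) (a (c (b (l 16747400) (l 16742528)) (l 16747184)) (c (b (l 16744144) (l 16739344)) (l 16744272))))) (b (c (a (b (l 16765544) (l 16760824)) (b (l 16760016) (l 16755440))) (a (l 16751304) (l 16755400))) (b (c (a (l 16756112) (l 16750808)) (l 16740880)) (a (l 16741144) (l 16735408))))), by decide +kernel⟩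

def k87_pm_102_s : ∃ t, chk3 f_pm_102_s t 59 72 1 = true :=
  ⟨(b (c (c (a (a (c (b (a (a (b (b (l 150491626695) (l 16776424)) (l 16775136)) (b (l 16775720) (l 16771384))) (b (b (a (l 16775000) (l 16773840)) (l 16770944)) (c (l 16772240) (l 16772368)))) (b (c (a (l 16772840) (l 16770576)) (l 16766608)) (a (l 16771272) (l 16769064)))) (b (a (c (l 16775504) (l 16775552)) (l 16773360)) (l 16771304))) (a (b (c (b (a (l 16772248) (l 16771080)) (l 16770008)) (l 16765944)) (c (l 16770240) (l 16768136))) (c (b (c (l 16771008) (l 16768616)) (l 16770592)) (b (l 16763744) (l 16765992))))) (b (a (c (c (a (l 16766000) (l 16763584)) (l 16770368)) (c (l 16765472) (l 16765824))) (c (a (l 16763984) (l 16764176)) (l 16766360))) (c (c (a (l 16766952) (l 16756984)) (a (l 16762112) (l 16757512))) (a (l 16762744) (l 16758352))))) (a (a (b (c (l 16774624) (l 16774816)) (l 16771848)) (c (l 16769096) (l 16769680))) (c (a (c (l 16754304) (l 16754736)) (l 16750352)) (l 16763992)))) (a (c (c (a (l 16773736) (l 16770296)) (l 16772512))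 (a (l 16773784) (l 16770488))) (c (c (l 16765096) (l 16766280)) (l 16760176)))) (c (a (a (c (c (a (b (l 16771520) (l 16765872)) (b (l 16766744) (l 16763768))) (b (l 16763064) (l 16765448))) (l 16767784)) (c (c (b (c (l 16768536) (l 16763640)) (l 16760576)) (b (l 16764184) (l 16761424))) (l 16764096))) (c (c (a (b (l 16764256) (l 16756248)) (c (l 16758080) (l 16753456))) (a (b (l 16759984) (l 16757336)) (l 16759664))) (a (l 16749856) (l 16746040)))) (a (c (c (l 16767168) (l 16768056)) (l 16766944)) (c (c (l 16760560) (l 16762072)) (l 16760160))))), by decide +kernel⟩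

def k88_pm_102_s : ∃ t, chk3 f_pm_102_s t 59 73 1 = true :=
  ⟨(b (c (a (a (c (c (b (l 16761952) (l 16759192)) (b (l 16762696) (l 16760040))) (l 16762688)) (c (c (b (l 16757808) (l 16755144)) (l 16747000)) (l 16759160))) (a (c (c (l 16757544) (l 16753536)) (l 16745088)) (c (c (l 16748056) (l 16749520)) (l 16730952)))) (a (c (l 16759248) (l 16761632)) (c (l 16746624) (l 16754856)))) (c (a (c (a (c (l 16760432) (l 16756184)) (c (l 16751288) (l 16752480))) (l 16756136)) (c (a (c (l 16747312) (l 16748704)) (c (l 16743264) (l 16744864))) (l 16749272))) (a (c (l 16758840) (l 16756376)) (c (l 16752968) (l 16749640))))), by decide +kernel⟩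

def k89_pm_102_s : ∃ t, chk3 f_pm_102_s t 59 37 1 = true :=
  ⟨(c (b (a (b (c (c (a (l 16750040) (l 16746320)) (l 16738928)) (l 16751440)) (c (a (l 16735192) (l 16742208)) (l 16746800))) (b (c (a (l 16732784) (l 16739496)) (l 16744856)) (c (a (l 16738680) (c (l 16733792) (l 16735520))) (a (l 16742064) (l 16738360))))) (a (b (c (a (l 16740872) (l 16727120)) (l 16742176)) (c (a (l 16725712) (a (l 16723080) (l 16720952))) (l 16731928))) (b (c (a (c (l 16732928) (l 16734512)) (c (l 16727960) (l 16729688))) (c (l 16718096) (l 16735736))) (c (a (l 16717216) (l 16722400)) (l 16728680))))) (b (a (c (b (l 16754496) (l 16750088)) (l 16748792)) (b (c (l 16748800) (l 16744616)) (c (l 16733800) (l 16740128)))) (a (b (c (l 16745592) (l 16741776)) (c (l 16740608) (l 16737928))) (c (b (l 16728360) (l 16732824)) (b (l 16737056) (l 16734592)))))), by decide +kernel⟩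

def k90_pm_102_s : ∃ t, chk3 f_pm_102_s t 120 18 1 = true :=
  ⟨(b (b (b (c (b (c (c (a (c (l 16760136) (l 16755496)) (c (l 16749624) (l 16750368))) (a (l 16756448) (l 16751544))) (a (l 16748024) (l 16743600))) (c (c (a (l 16757672) (l 16747384)) (a (l 16753808) (l 16749040))) (c (l 16742592) (l 16733856)))) (c (c (l 16757768) (l 16759672)) (l 16748256))) (c (a (c (c (c (l 16758648) (l 16748896)) (l 16750064)) (l 16742096)) (c (c (l 16748928) (l 16745480)) (l 16737936))) (c (c (l 16753536) (l 16755704)) (l 16753456)))) (c (b (c (a (c (l 16743672) (l 16745368)) (b (l 16741120) (l 16738912))) (a (l 16727176) (l 16723200))) (c (a (c (l 16739080) (l 16740896)) (b (l 16726104) (c (l 16733072) (l 16735064)))) (a (l 16722896) (l 16718552)))) (b (c (c (l 16749496) (l 16751864)) (l 16748120)) (a (l 16737128) (c (l 16744408) (l 16742248)))))) (c (b (b (c (a (b (l 16736544) (l 16733960)) (c (l 16728760) (l 16730744))) (a (l 16739184) (l 16713032))) (c (a (c (l 16728592) (l 16730456)) (l 16723664)) (c (l 16708704)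 (l 16710920)))) (b (c (a (l 16723288) (l 16717440)) (l 16703592)) (c (c (l 16713048) (l 16715008)) (l 16697288)))) (c (b (b (a (l 16743760) (l 16738896)) (l 16735512)) (c (l 16725008) (l 16727600))) (b (b (l 16740096) (l 16737336)) (l 16731792))))), by decide +kernel⟩

def k91_pm_102_s : ∃ t, chk3 f_pm_102_s t 121 18 1 = true :=
  ⟨(b (b (a (c (b (c (c (b (l 16749816) (l 16742104)) (l 16745224)) (c (l 16747264) (l 16749440))) (c (b (l 16740752) (l 16738512)) (l 16733568))) (b (c (l 16752976) (l 16753976)) (a (l 16731696) (l 16734904)))) (c (a (b (c (c (l 16744448) (l 16741328)) (l 16744792)) (c (c (l 16730256) (l 16736736)) (l 16719408))) (c (b (b (l 16743912) (l 16733736)) (c (l 16726192) (l 16733712))) (b (l 16731904) (l 16737440)))) (b (b (l 16736568) (c (l 16747968) (l 16749560))) (c (l 16728576) (l 16746856))))) (c (b (c (a (c (b (l 16735144) (l 16732632)) (l 16735944)) (c (l 16727600) (l 16729816))) (a (l 16723672) (l 16712472))) (c (a (c (l 16728408) (l 16730512)) (c (l 16721896) (l 16724072)))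 (c (l 16708648) (l 16711120)))) (b (c (a (l 16723600) (l 16738872)) (l 16733960)) (c (l 16715136) (l 16741552))))) (c (c (b (b (a (l 16723544) (l 16727576)) (c (l 16713264) (l 16715400))) (b (c (l 16707072) (l 16709248)) (c (l 16700728) (l 16702960)))) (b (b (b (l 16705440) (l 16702464)) (a (l 16722016) (l 16715808))) (b (a (l 16715896) (l 16709752)) (l 16685704)))) (b (c (b (l 16709224) (l 16703288)) (l 16733224)) (c (c (l 16692880) (l 16695832)) (l 16721584))))), by decide +kernel⟩

def k92_pm_102_s : ∃ t, chk3 f_pm_102_s t 61 36 1 = true :=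
  ⟨(c (b (a (a (c (b (a (b (c (l 16734664) (l 16737040)) (l 16728088)) (b (l 16729120) (l 16729984))) (c (l 16731656) (l 16728728))) (b (a (l 16729136) (l 16726032)) (l 16722056))) (c (b (c (c (l 16724472) (l 16725648)) (l 16727488)) (c (l 16724760) (l 16721872))) (b (c (l 16730112) (l 16732912)) (l 16725744)))) (c (b (c (a (c (l 16717536) (l 16718712)) (c (l 16710488) (l 16711672))) (a (l 16720576) (l 16713536))) (a (c (c (l 16711944) (l 16713088)) (l 16714896)) (c (c (l 16704832) (l 16705984)) (l 16707808)))) (b (c (a (l 16723216) (l 16716192)) (l 16722544)) (a (l 16718824) (l 16711768))))) (b (a (a (c (c (l 16720832) (l 16723096)) (l 16726824)) (c (c (l 16713896) (l 16716208)) (l 16720024))) (c (a (c (l 16706808) (l 16709160)) (c (l 16699632) (l 16702008))) (c (l 16708144) (l 16710896)))) (a (c (c (a (l 16715144) (l 16708160)) (l 16713928)) (a (l 16721080) (l 16714264))) (c (a (c (l 16701032) (l 16703384)) (c (l 16693768) (l 16696160))) (c (l 16702368) (l 16705136)))))) (b (a (b (a (c (c (l 16721312)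 (l 16745352)) (l 16728360)) (c (l 16716488) (l 16744176))) (c (b (l 16715392) (l 16712488)) (l 16741416))) (c (c (b (l 16704608) (l 16719680)) (b (l 16707832) (l 16722840))) (b (l 16713024) (l 16706968)))) (a (c (c (c (l 16703040) (l 16704496)) (l 16706760)) (b (l 16735472) (l 16729696))) (c (c (b (l 16713840) (l 16708104)) (l 16693200)) (b (l 16701080) (l 16695408)))))), by decide +kernel⟩

def k93_pm_102_s : ∃ t, chk3 f_pm_102_s t 61 37 1 = true :=
  ⟨(c (b (a (a (c (b (l 16720872) (l 16704392)) (b (l 16715256) (l 16709336))) (c (b (l 16713944) (l 16697480)) (c (l 16704216) (l 16706952)))) (c (c (a (b (l 16695152) (l 16689168)) (b (l 16687848) (l 16681832))) (a (l 16689328) (l 16676824))) (c (b (l 16696520) (l 16690648)) (b (l 16699336) (l 16693552))))) (c (a (c (b (l 16693664) (l 16687368)) (b (l 16696056) (l 16689848))) (c (a (l 16679928) (l 16683104)) (a (l 16682504) (l 16675280)))) (a (c (l 16698232) (l 16698464)) (c (l 16681752) (l 16684840))))) (a (c (b (b (l 16696616) (l 16690848)) (a (l 16685320)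 (l 16678960))) (b (l 16710752) (l 16689136))) (c (b (c (b (l 16702352) (l 16696664)) (l 16702784)) (c (l 16688152) (l 16691696))) (b (b (l 16689840) (l 16684416)) (l 16671232))))), by decide +kernel⟩

def k94_pm_102_s : ∃ t, chk3 f_pm_102_s t 62 18 2 = true :=
  ⟨(b (c (b (a (b (a (c (c (l 16703384) (l 16704552)) (l 16706408)) (c (c (l 16696224) (l 16697384)) (l 16699208))) (c (a (c (l 16697664) (l 16698816)) (c (l 16690448) (l 16691584))) (a (l 16700632) (l 16693384)))) (b (c (a (c (l 16689016) (l 16690144)) (c (l 16681752) (l 16682848))) (a (l 16691936) (l 16684592))) (a (c (c (l 16683192) (l 16684304)) (l 16686072)) (c (c (l 16675880) (l 16676968)) (l 16678696))))) (a (b (c (a (l 16692400) (l 16685120)) (a (l 16694784) (l 16687496))) (c (a (l 16686472) (l 16679136)) (a (l 16688880) (l 16681536)))) (b (a (c (l 16677800) (l 16680144)) (c (l 16670432) (l 16672728))) (a (c (l 16671760) (l 16674144)) (c (l 16664344) (l 16666688)))))) (b (b (a (a (l 16709792) (l 16699920)) (c (a (l 16694496) (l 16687080))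 (l 16688264))) (a (a (l 16694112) (l 16686840)) (a (l 16679464) (l 16672008)))) (a (c (a (l 16689192) (l 16687120)) (a (l 16697232) (l 16689912))) (c (a (l 16679720) (l 16672248)) (a (l 16682496) (l 16674992)))))) (b (c (c (a (a (b (l 16680472) (l 16674416)) (b (l 16673072) (l 16666936))) (a (b (l 16665632) (l 16659440)) (b (l 16658168) (l 16651912)))) (a (a (l 16669488) (l 16683008)) (a (l 16675536) (b (l 16660600) (l 16654464))))) (a (c (a (l 16682696) (l 16675256)) (b (l 16684808) (l 16679040))) (c (a (l 16667784) (l 16660256)) (a (l 16670752) (l 16663208))))) (b (a (a (c (l 16669568) (l 16675336)) (c (l 16672552) (l 16667912))) (c (c (a (l 16653184) (l 16645600)) (l 16652072)) (c (l 16655016) (l 16658216)))) (a (c (a (l 16663408) (l 16655880)) (l 16660512)) (c (a (l 16648288) (l 16640632)) (l 16642864)))))), by decide +kernel⟩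

def k95_pm_102_s : ∃ t, chk3 f_pm_102_s t 63 36 2 = true :=
  ⟨(b (a (b (c (a (c (a (l 16676800) (l 16673120)) (l 16677176)) (c (a (l 16674664) (l 16670952)) (l 16669688))) (c (a (l 16679584) (l 16672008)) (l 16670496))) (c (a (c (c (l 16668528) (l 16669576)) (l 16671256)) (c (c (l 16661112) (l 16662128)) (l 16663744))) (a (l 16685432) (l 16677808)))) (a (c (b (c (c (a (l 16661496) (l 16657760)) (l 16660592)) (l 16662136)) (c (c (l 16653648) (l 16654624)) (l 16656184))) (b (c (l 16664368) (l 16666792)) (l 16670120))) (c (c (b (c (a (l 16654016) (l 16650248)) (l 16653056)) (a (l 16648488) (l 16644696))) (b (l 16657152) (l 16648560))) (c (b (l 16656664) (l 16650728)) (l 16666536))))) (b (c (a (a (c (c (l 16662488) (l 16663552)) (l 16665256)) (c (c (l 16655040) (l 16656072)) (l 16657720))) (a (c (c (l 16647544) (l 16648544)) (l 16650144)) (c (c (l 16639992) (l 16640960)) (l 16642504)))) (a (a (l 16669000) (l 16661376)) (a (l 16653688) (l 16645952)))) (c (a (a (c (l 16656880) (l 16659184)) (c (l 16649376)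 (l 16651632))) (a (c (c (l 16641320) (l 16642360)) (l 16644024)) (c (c (l 16633744) (l 16634752)) (l 16636376)))) (a (c (l 16657896) (l 16660608)) (a (l 16647720) (l 16639992)))))), by decide +kernel⟩

def k96_pm_102_s : ∃ t, chk3 f_pm_102_s t 63 37 2 = true :=
  ⟨(c (c (a (b (a (b (l 16650656) (l 16644360)) (b (l 16643112) (l 16636776))) (a (b (l 16637992) (l 16631576)) (b (l 16630360) (l 16623896)))) (b (a (b (l 16635536) (l 16629152)) (b (c (l 16627384) (l 16628464)) (l 16621504))) (a (b (l 16622704) (l 16616200)) (b (l 16615024) (l 16608480))))) (a (b (a (b (l 16653056) (l 16646880)) (b (l 16645472) (l 16639264))) (a (l 16637552) (l 16629888))) (b (a (b (l 16637848) (l 16631616)) (b (l 16630184) (l 16623928))) (a (l 16622192) (l 16624960))))) (a (b (b (c (l 16651864) (l 16654704)) (c (l 16645816) (l 16648816))) (b (c (l 16639760) (l 16642952)) (c (l 16633704) (l 16637112)))) (b (a (b (l 16641744) (l 16635760)) (c (l 16629640) (l 16632464))) (a (c (l 16625192) (l 16628464)) (b (l 16622040) (l 16616064)))))),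 by decide +kernel⟩

def k97_pm_102_s : ∃ t, chk3 f_pm_102_s t 31 18 3 = true :=
  ⟨(a (b (b (a (c (a (b (l 16716520) (l 16710576)) (b (l 16709216) (l 16703272))) (b (l 16698744) (l 16692728))) (c (a (b (l 16701760) (l 16695832)) (c (l 16689704) (l 16692784))) (b (a (l 16708480) (l 16700760)) (l 16677712)))) (a (c (c (a (l 16700232) (l 16692920)) (l 16678824)) (b (l 16686888) (l 16681208))) (c (c (a (l 16685488) (l 16677944)) (l 16684904)) (c (l 16688304) (l 16670944))))) (b (c (a (c (a (l 16688784) (l 16681400)) (l 16688552)) (c (l 16670176) (l 16673600))) (a (c (l 16692176) (l 16675048)) (b (l 16681824) (l 16676528)))) (c (a (c (l 16673824) (l 16677552)) (c (l 16648456) (l 16662760))) (a (b (l 16686152) (l 16681080)) (b (l 16671384) (l 16666440)))))) (b (c (a (b (c (b (l 16670632) (l 16675224)) (a (l 16685056) (l 16677224))) (c (a (l 16670312) (l 16662592)) (l 16669544))) (b (c (a (l 16666480) (l 16669072)) (a (l 16669312) (l 16661328))) (c (a (l 16654816) (l 16646984)) (l 16649928)))) (a (b (b (a (l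 16692896) (l 16684904)) (l 16683056)) (b (l 16677368) (l 16671832))) (b (b (a (l 16676816) (l 16668656)) (l 16667008)) (a (l 16662720) (l 16644240))))) (c (b (a (c (a (l 16658768) (l 16651064)) (l 16637328)) (c (a (l 16643312) (l 16635520)) (l 16632240))) (a (a (l 16638840) (l 16631144)) (a (l 16623400) (l 16615632)))) (a (b (b (l 16666448) (l 16661216)) (b (l 16656136) (l 16651200))) (b (a (l 16652096) (l 16623248)) (b (l 16640600) (l 16635744))))))), by decide +kernel⟩

def k98_pm_102_s : ∃ t, chk3 f_pm_102_s t 28 19 2 = true :=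
  ⟨(b (a (b (a (c (b (c (l 16766744) (l 16766856)) (l 16761744)) (l 16764544)) (c (b (l 16761200) (l 16745800)) (l 16759200))) (a (b (l 16756872) (l 16751936)) (b (l 16751584) (l 16746736)))) (c (b (b (a (c (l 16744576) (l 16755440)) (c (l 16748688) (l 16749280))) (a (l 16739928) (l 16733736))) (b (a (l 16724720) (l 16718608)) (a (l 16720112) (c (l 16724408) (l 16714224))))) (b (a (l 16753640) (l 16747872)) (b (l 16743416) (l 16722824))))) (a (b (c (a (l 16745632) (l 16740720)) (l 16742192)) (c (a (l 16724856) (b (l 16734032) (l 16729096))) (a (l 16734928) (l 16729584)))) (a (b (c (b (l 16737208) (l 16733432)) (l 16734280)) (c (b (l 16728752) (l 16723016)) (l 16722984))) (b (c (b (a (l 16732848) (l 16718728)) (a (l 16728344) (l 16723920))) (b (l 16730704) (l 16724936))) (c (b (l 16720416) (l 16714488)) (l 16715120)))))), by decide +kernel⟩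

def k99_pm_102_s : ∃ t, chk3 f_pm_102_s t 29 19 2 = true :=
  ⟨(b (a (b (a (c (b (c (l 16742176) (l 16742992)) (l 16727400)) (l 16741992)) (c (b (a (l 16737808) (l 16724176)) (a (l 16722616) (b (l 16730808) (l 16727728)))) (b (l 16738560) (l 16733240)))) (c (a (b (a (l 16734832) (l 16721016)) (b (a (l 16731320) (l 16727296)) (c (l 16715680) (l 16705696)))) (b (b (a (l 16729104) (l 16724352)) (l 16712920)) (c (b (l 16719512) (l 16716272)) (l 16697864)))) (a (b (l 16734648) (l 16707992)) (b (l 16727144) (l 16699472))))) (b (b (a (c (a (c (l 16730248) (l 16731512)) (l 16715712)) (a (l 16733608) (l 16708320))) (c (a (l 16721072) (l 16715816)) (l 16701136))) (a (c (a (l 16724472) (l 16719432)) (l 16703920)) (c (c (l 16710888) (l 16712600)) (l 16694496)))) (c (b (a (c (l 16714464) (l 16715824)) (c (l 16704008) (l 16705776))) (a (b (l 16709952) (l 16706680)) (b (l 16699656) (l 16706856)))) (a (b (l 16697152) (l 16690368)) (b (l 16708744) (l 16681000)))))) (a (b (c (b (a (c (l 16701336) (l 16722504)) (c (l 16712296)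 (l 16712904))) (a (c (l 16716904) (l 16716704)) (l 16707048))) (a (c (l 16698616) (l 16698664)) (a (l 16692032) (l 16687568)))) (b (c (a (l 16700616) (l 16701432)) (a (l 16709888) (l 16701104))) (c (a (l 16705304) (l 16695696)) (a (l 16703312) (l 16694584))))) (b (c (a (b (l 16702592) (l 16691864)) (c (b (l 16691616) (l 16686400)) (l 16690288))) (a (b (l 16704920) (l 16698568)) (b (l 16695616) (l 16689336)))) (b (c (a (l 16681040) (l 16670928)) (a (l 16692160) (l 16683000))) (c (a (l 16685856) (l 16675800)) (a (l 16685704) (l 16676600))))))), by decide +kernel⟩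

def k100_pm_102_s : ∃ t, chk3 f_pm_102_s t 14 19 3 = true :=
  ⟨(a (c (b (a (b (a (l 16764896) (l 16759800)) (b (l 16754656) (l 16749432))) (b (b (l 16743968) (l 16749472)) (b (l 16744376) (l 16728680)))) (a (b (l 16741040) (a (l 16731720) (l 16726128))) (b (a (l 16733096) (b (l 16730520) (l 16702632))) (a (l 16719688) (l 16691496))))) (b (a (b (a (l 16765184) (l 16760112)) (b (l 16755064) (l 16749576))) (b (l 16741640) (b (l 16745520) (l 16739936)))) (b (a (l 16739752) (a (l 16731776) (l 16726168))) (a (l 16693672) (a (l 16694936) (l 16709488)))))) (b (a (b (a (c (l 16744064) (l 16743680)) (c (b (l 16741296) (l 16735848)) (l 16738240))) (b (c (a (l 16736440) (l 16729656)) (l 16714488)) (c (a (l 16730472) (l 16722944)) (a (l 16732240) (l 16725856))))) (b (c (a (b (l 16734752) (l 16728328)) (c (l 16721968) (l 16724264))) (a (l 16734408) (l 16728000))) (c (a (b (l 16721648) (l 16693944)) (b (l 16692304) (l 16685664))) (b (l 16722296) (l 16715688))))) (a (b (c (c (a (l 16698744) (l 16711664)) (l 16716104))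 (b (l 16720992) (l 16691528))) (c (c (c (l 16680568) (l 16680264)) (l 16679800)) (c (l 16679168) (l 16678520)))) (b (c (c (a (l 16703448) (l 16694992)) (l 16669472)) (b (l 16707696) (l 16678360))) (c (a (l 16668424) (c (l 16680944) (l 16681832))) (c (l 16665528) (l 16666264))))))), by decide +kernel⟩

def k101_pm_102_s : ∃ t, chk3 f_pm_102_s t 30 38 1 = true :=
  ⟨(c (a (a (b (c (b (c (l 16706496) (l 16708512)) (c (l 16699800) (l 16701880))) (a (l 16690296) (l 16684912))) (b (c (l 16693984) (l 16698712)) (c (a (l 16684728) (l 16673832)) (l 16692048)))) (b (c (c (b (l 16694232) (l 16687600)) (l 16693296)) (a (l 16679224) (l 16694216))) (c (b (l 16692544) (c (l 16663552) (l 16676664))) (b (l 16687576) (l 16681064))))) (c (b (a (c (b (l 16680936) (l 16674360)) (l 16690800)) (c (a (l 16667128) (l 16659864)) (a (l 16669968) (l 16662808)))) (a (b (l 16661184) (b (l 16663984) (l 16660824))) (b (c (l 16653584) (l 16656736)) (b (l 16650120) (l 16647032))))) (b (a (b (l 16687832) (l 16681608)) (c (l 16669552) (l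 16672968))) (b (a (l 16675288) (l 16661992)) (a (l 16668928) (l 16634816)))))) (c (a (b (a (c (l 16691448) (l 16694216)) (b (l 16685280) (l 16700168))) (b (c (l 16671400) (l 16679856)) (a (l 16676808) (l 16687784)))) (b (a (c (l 16689680) (l 16693280)) (c (l 16676648) (l 16680584))) (a (b (l 16682576) (l 16676560)) (b (l 16670016) (l 16664216))))) (a (b (a (l 16719680) (l 16710048)) (b (l 16695576) (a (l 16704352) (l 16695488)))) (b (a (l 16678144) (l 16666008)) (a (c (l 16664904) (l 16669440)) (b (l 16679192) (l 16673864))))))), by decide +kernel⟩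

def k102_pm_102_s : ∃ t, chk3 f_pm_102_s t 30 39 1 = true :=
  ⟨(a (a (c (c (b (c (b (l 16680648) (l 16675504)) (l 16669328)) (b (l 16670808) (l 16665280))) (b (c (l 16681696) (l 16683760)) (c (l 16669576) (l 16670760)))) (c (b (c (l 16686008) (l 16688440)) (l 16672792)) (b (l 16671456) (l 16675968)))) (c (c (b (b (l 16659376) (l 16654208)) (b (l 16659384) (l 16653944))) (b (c (l 16670680) (l 16673208)) (c (l 16658840) (l 16660480)))) (c (b (c (l 16675952) (l 16678912)) (c (l 16662288) (l 16664264))) (b (l 16662784) (l 16667544))))) (a (c (c (b (b (c (l 16655872) (l 16658536)) (l 16662704)) (b (l 16647088) (l 16641824))) (b (c (l 16658664) (l 16661608)) (c (l 16647144) (l 16649192)))) (c (b (c (l 16664800) (l 16668232)) (c (l 16651424) (l 16653864))) (b (l 16652880) (l 16657896)))) (c (b (c (c (b (l 16642088) (l 16637592)) (l 16642608)) (c (l 16645640) (l 16648944))) (c (b (l 16644448) (l 16628928)) (c (l 16634592) (l 16636968)))) (c (b (c (l 16652528) (l 16656376)) (c (l 16639576) (l 16642400))) (b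 (l 16641704) (l 16647064)))))), by decide +kernel⟩

def k103_pm_102_s : ∃ t, chk3 f_pm_102_s t 62 19 2 = true :=
  ⟨(b (c (b (a (c (a (l 16652464) (l 16644952)) (a (l 16655496) (l 16648040))) (a (b (l 16642008) (l 16635680)) (b (l 16634336) (l 16627984)))) (a (b (c (l 16638872) (l 16642232)) (b (l 16635576) (l 16611568))) (b (c (l 16623712) (l 16627200)) (b (l 16620528) (c (l 16615744) (l 16619456)))))) (b (a (c (l 16655120) (l 16658744)) (b (l 16634344) (l 16628456))) (a (c (l 16634968) (l 16625952)) (b (l 16633040) (l 16616632))))) (c (c (b (a (b (l 16627664) (l 16623416)) (b (l 16612792) (l 16608800))) (a (b (l 16619008) (l 16614432)) (b (l 16604648) (l 16600344)))) (b (a (l 16628536) (l 16613920)) (a (l 16618848) (l 16604720)))) (b (a (c (l 16631816) (l 16635392)) (c (l 16617344) (l 16621080))) (a (c (l 16621216) (l 16623832)) (c (l 16607200) (l 16609936)))))), by decide +kernel⟩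

def k104_pm_102_s : ∃ t, chk3 f_pm_102_s t 63 19 2 = true :=
  ⟨(a (b (b (b (c (c (a (l 16625112) (l 16617384)) (l 16624296)) (l 16616336)) (c (a (l 16620240) (l 16612440)) (l 16607856))) (c (b (c (l 16613408) (l 16611720)) (c (b (l 16603216) (l 16600272)) (b (l 16606968) (l 16604064)))) (b (l 16596712) (l 16598096)))) (b (c (c (b (l 16597520) (l 16593792)) (b (l 16600944) (l 16596720))) (c (l 16602344) (l 16606176))) (c (c (b (l 16589912) (l 16585880)) (l 16600624)) (c (l 16592648) (l 16595432))))) (b (b (c (c (a (b (l 16609640) (l 16603048)) (b (l 16601888) (l 16595248))) (a (l 16609528) (l 16601752))) (c (a (l 16613024) (l 16605256)) (l 16623424))) (c (b (c (a (l 16596416) (l 16588584)) (l 16596072)) (a (b (l 16593288) (l 16590392)) (b (l 16585424) (l 16582512)))) (b (l 16583760) (c (l 16594088) (l 16598656))))) (b (c (a (b (l 16587544) (l 16583760)) (b (a (l 16581680) (l 16577760)) (l 16576024))) (c (a (l 16590808) (l 16583056)) (l 16590800))) (c (c (b (l 16574864) (l 16571112)) (a (l 16578976) (l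 16571432))) (c (l 16577688) (l 16580464)))))), by decide +kernel⟩

def k105_pm_102_s : ∃ t, chk3 f_pm_102_s t 31 19 3 = true :=
  ⟨(b (a (b (c (a (c (l 16662656) (l 16666840)) (c (l 16647832) (l 16652160))) (a (l 16652672) (c (l 16656784) (l 16661704)))) (c (a (b (l 16656440) (l 16650840)) (b (l 16641976) (l 16636568))) (a (b (l 16666264) (l 16661200)) (b (l 16652208) (l 16647408))))) (b (a (c (a (l 16617608) (l 16609872)) (b (l 16646424) (l 16641832))) (c (a (l 16602144) (l 16594408)) (b (l 16631032) (l 16626464)))) (c (a (c (l 16600736) (l 16605792)) (c (l 16593208) (l 16590496))) (b (a (l 16637304) (l 16622040)) (a (l 16632712) (l 16617584)))))) (a (c (b (a (c (l 16639264) (l 16643432)) (c (l 16625136) (l 16629512))) (a (c (l 16626696) (l 16629808)) (c (l 16612944) (l 16616216)))) (b (a (l 16629280) (b (l 16640440) (l 16632880))) (a (l 16634944) (l 16621624)))) (b (a (c (c (l 16610328) (l 16614816)) (c (l 16619632) (l 16624776))) (c (c (l 16595008) (l 16599560)) (a (l 16610840) (l 16603200)))) (c (a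 (c (l 16598488) (l 16601824)) (c (l 16583520) (l 16586856))) (a (l 16607344) (l 16592400)))))), by decide +kernel⟩

def k106_pm_102_s : ∃ t, chk3 f_pm_102_s t 12 20 1 = true :=
  ⟨(b (b (b (a (a (l 3) (a (l 3) (c (l 16774864) (l 16774416)))) (c (c (a (l 16773440) (l 16766048)) (a (l 16773872) (l 16766768))) (a (l 16773672) (l 16765928)))) (a (a (c (l 118816273959) (l 136533005447)) (c (c (l 16774328) (l 16774848)) (l 16785224))) (a (c (c (l 16767352) (l 16768176)) (l 16767520)) (c (l 16761368) (l 16759720))))) (b (a (a (c (c (l 16774696) (l 16775184)) (l 16775128)) (c (l 16769024) (l 16768512))) (c (a (l 16752144) (l 16755968)) (a (l 16761216) (l 16753304)))) (c (a (a (l 16769216) (l 16752728)) (a (l 16756944) (l 16750496))) (a (a (l 16768944) (l 16762176)) (a (l 16754720) (l 16746680)))))) (b (b (c (a (a (l 16763256) (l 16757352)) (a (l 16751168) (l 16744824))) (a (a (l 16762640) (l 16755696)) (a (l 16748064) (l 16739896)))) (a (c (a (l 16757248) (l 16751400)) (a (l 16756200) (l 16749080))) (c (a (l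 16745264) (l 16717968)) (a (l 16741288) (l 16732960))))) (b (c (a (a (b (l 16752696) (l 16749616)) (b (l 16746840) (l 16743752))) (a (c (l 16739416) (l 16738488)) (b (l 16734392) (l 16731192)))) (a (a (l 16739248) (l 16742432)) (a (l 16734448) (c (l 16707256) (l 16723352))))) (c (a (a (l 16744960) (b (l 16740640) (a (l 16739016) (a (l 16736696) (l 16735064))))) (b (a (c (l 16734712) (l 16733568)) (b (l 16728584) (l 16726416))) (a (a (l 16732472) (l 16728840)) (l 16723112)))) (a (a (l 16743328) (b (l 16737472) (c (l 16735392) (l 16732704)))) (b (a (l 16703072) (c (l 16722744) (l 16717976))) (a (c (l 16727400) (l 16723872)) (l 16716752)))))))), by decide +kernel⟩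

def k107_pm_102_s : ∃ t, chk3 f_pm_102_s t 12 21 1 = true :=
  ⟨(a (c (a (b (l 16729200) (l 16662552)) (b (c (l 16723336) (l 16722624)) (c (l 16677224) (l 16697512)))) (a (b (c (l 16728408) (l 16727088)) (l 16703824)) (b (c (l 16700056) (l 16718592)) (c (l 16696232) (l 16694368))))) (c (b (a (l 16715928) (b (l 16693624) (l 16701768))) (a (c (l 16691456) (l 16689816)) (c (l 16684024) (l 16681472)))) (b (a (c (l 16712648) (l 16709432)) (c (l 16703800) (l 16699880))) (a (l 16665128) (a (l 16678880) (l 16673944)))))), by decide +kernel⟩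

def k108_pm_102_s : ∃ t, chk3 f_pm_102_s t 12 11 1 = true :=
  ⟨(b (a (a (c (b (l 16680736) (l 16658464)) (b (l 16680872) (l 16658920))) (c (b (a (l 16675328) (l 16671824)) (l 16650288)) (b (l 16650864) (l 16649336)))) (a (c (b (c (l 16666704) (l 16665232)) (l 16621336)) (b (l 16641120) (l 16618104))) (c (b (l 16637072) (l 16612856)) (b (l 16630960) (l 16628456))))) (a (c (b (a (l 16637992) (l 16628432)) (a (l 16619440) (l 16608360))) (a (b (l 16637536) (l 16616840)) (b (l 16627816) (l 16606872)))) (a (c (b (l 16640560) (l 16598288)) (b (l 16617056) (l 16596000))) (c (b (l 16610624) (l 16588504)) (b (l 16605952) (l 16584432)))))), by decide +kernel⟩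

def k109_pm_102_s : ∃ t, chk3 f_pm_102_s t 13 40 1 = true :=
  ⟨(b (a (c (a (b (c (l 16758240) (l 16759328)) (l 16754200)) (b (l 16752072) (l 16725760))) (a (c (l 16755280) (l 16753432)) (c (l 16746608) (l 16743728)))) (c (a (b (c (l 16741672) (l 16743176)) (l 16717960)) (b (c (l 16732888) (l 16734368)) (a (l 16732848) (c (l 16725688) (l 16726488))))) (a (c (l 16737288) (l 16733200)) (c (b (l 16730384) (l 16723928)) (l 16700832))))) (a (c (a (b (l 16748952) (l 16722768)) (b (l 16720664) (l 16715640))) (a (c (l 16742984) (l 16739408)) (c (l 16734136) (l 16729240)))) (c (a (b (c (l 16729880) (l 16732456)) (a (l 16709976) (c (l 16723936) (l 16724272)))) (b (a (c (l 16724584) (l 16725592)) (l 16705384)) (c (l 16720728) (l 16715792)))) (a (c (b (l 16727808) (l 16700128)) (l 16697160)) (c (b (l 16716976) (l 16688616)) (l 16685136)))))), by decide +kernel⟩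

def k110_pm_102_s : ∃ t, chk3 f_pm_102_s t 13 41 1 = true :=
  ⟨(b (a (c (b (a (l 16717176) (c (l 16728040) (l 16729120))) (a (c (l 16731048) (l 16730800)) (a (l 16705800) (l 16701472)))) (b (a (l 16730992) (c (l 16724264) (l 16717936))) (a (l 16723960) (c (l 16717200) (l 16710368))))) (c (a (b (c (a (l 16723976) (l 16721896)) (l 16719880)) (l 16714920)) (c (l 16709936) (l 16704616))) (a (b (c (l 16692968) (l 16706584)) (c (l 16706312) (l 16698896))) (c (l 16666632) (l 16690400))))) (b (a (c (a (b (l 16706552) (l 16723832)) (l 16716952)) (a (c (l 16698520) (l 16713560)) (c (l 16709504) (l 16702872)))) (a (c (l 16706984) (l 16695008)) (c (l 16695760) (l 16682712)))) (a (c (b (a (l 16719432) (l 16710392)) (a (l 16714864) (c (l 16686424) (l 16703704)))) (b (a (l 16710928) (l 16700440)) (a (l 16707112) (l 16675632)))) (c (b (a (l 16700272) (c (l 16691504) (l 16686224))) (a (a (l 16677120) (l 16682208)) (c (b (l 16681928) (l 16684768)) (l 16681472)))) (b (a (l 16689040) (l 16655728)) (a (l 16664216) (l 16662352))))))),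 by decide +kernel⟩

def k111_pm_102_s : ∃ t, chk3 f_pm_102_s t 13 21 1 = true :=
  ⟨(a (c (b (a (b (c (l 16707640) (l 16704632)) (l 16693432)) (a (l 16714048) (l 16719704))) (c (a (l 16676072) (l 16646392)) (a (l 16672680) (l 16663200)))) (a (b (c (l 16694344) (l 16689768)) (c (l 16668648) (l 16664000))) (b (c (l 16684192) (l 16679032)) (c (l 16658440) (l 16653096))))) (b (a (a (c (l 16714608) (l 16673288)) (c (l 16708912) (l 16667400))) (c (c (a (l 16674488) (l 16668664)) (l 16666632)) (c (l 16661112) (l 16655048)))) (c (a (c (l 16636792) (l 16652928)) (c (l 16636496) (l 16641608))) (a (c (l 16647544) (l 16641632)) (c (l 16635752) (l 16629432)))))), by decide +kernel⟩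

def k112_pm_102_s : ∃ t, chk3 f_pm_102_s t 13 11 1 = true :=
  ⟨(a (a (b (c (b (l 16639048) (l 16646224)) (b (l 16620496) (l 16617552))) (c (b (l 16601568) (l 16578912)) (c (l 16564288) (l 16560896)))) (b (c (b (c (l 16642608) (l 16638224)) (l 16637056)) (b (l 16609752) (l 16585424))) (c (b (l 16592360) (l 16569240)) (b (l 16583056) (l 16560680))))) (c (b (b (a (c (l 16633136) (l 16628008)) (c (l 16622648) (l 16616944))) (a (l 16648248) (c (l 16598584) (l 16592632)))) (b (a (l 16582480) (l 16592880)) (a (l 16559336) (l 16548688)))) (b (b (a (c (l 16622424) (l 16616400)) (l 16586688)) (a (l 16574024) (l 16562192))) (b (a (l 16571296) (l 16559352)) (a (l 16548544) (l 16536280)))))), by decide +kernel⟩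

def k113_pm_102_s : ∃ t, chk3 f_pm_102_s t 14 40 1 = true :=
  ⟨(a (b (c (a (c (a (b (l 16727184) (l 16724432)) (l 16721304)) (a (l 16723624) (l 16717016))) (c (a (l 16713696) (l 16705312)) (a (l 16709600) (l 16680680)))) (a (c (b (l 16718880) (l 16690608)) (a (l 16712496) (l 16705976))) (c (c (l 16681368) (l 16699944)) (l 16675096)))) (c (a (c (a (l 16714984) (l 16708216)) (l 16706448)) (b (c (l 16700016) (l 16695296)) (a (l 16673896) (l 16686864)))) (a (c (c (l 16701888) (l 16698536)) (l 16693048)) (c (c (l 16687576) (l 16684568)) (l 16679720))))) (a (c (b (c (b (a (l 16699344) (l 16689848)) (a (l 16693240) (l 16683880))) (a (l 16672296) (c (l 16685216) (l 16684080)))) (c (a (b (l 16686976) (l 16680512)) (b (l 16677728) (l 16671384))) (a (l 16679560) (l 16650136)))) (c (a (b (l 16689912) (l 16674920)) (b (l 16682312) (l 16667376))) (b (a (l 16686232) (l 16679824)) (l 16666616)))) (a (c (c (b (b (l 16680096) (l 16674200)) (b (l 16668168) (l 16661968))) (b (l 16670640) (l 16641512))) (b (c (l 16674648)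 (l 16673440)) (b (l 16641360) (l 16633560)))) (c (c (b (b (l 16670088) (l 16664264)) (b (l 16658336) (l 16652216))) (b (l 16664256) (l 16643160))) (c (b (l 16666792) (l 16652088)) (b (l 16666896) (l 16650584))))))), by decide +kernel⟩

def k114_pm_102_s : ∃ t, chk3 f_pm_102_s t 14 41 1 = true :=
  ⟨(c (a (b (b (a (l 16698568) (c (l 16665584) (l 16681024))) (a (l 16691144) (c (l 16679360) (l 16673576)))) (b (a (c (l 16686048) (l 16680080)) (c (l 16671520) (l 16665680))) (b (a (c (l 16658176) (l 16673400)) (c (l 16664656) (l 16659040))) (a (c (a (l 16677248) (l 16670608)) (l 16668624)) (a (a (l 16641640) (l 16658856)) (l 16635944)))))) (b (a (c (b (l 16648408) (l 16641408)) (b (l 16664872) (l 16657560))) (c (a (b (l 16655504) (l 16648680)) (b (l 16645880) (l 16639216))) (b (l 16632192) (l 16619832)))) (a (b (c (l 16633744) (l 16649784)) (b (c (l 16647960) (l 16643232)) (c (l 16621768) (l 16638488)))) (b (c (a (l 16641200) (l 16631864)) (l 16612232)) (b (c (l 16609112) (l 16626784)) (c (l 16603944) (l 16622104)))))))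 (a (b (a (c (b (l 16688832) (l 16681128)) (l 16677160)) (c (l 16670848) (l 16663712))) (b (a (l 16669440) (l 16655608)) (a (b (l 16642424) (c (l 16662712) (l 16656240))) (b (l 16628576) (l 16635240))))) (a (b (c (c (l 16657376) (l 16654720)) (l 16650512)) (b (l 16636352) (b (l 16635536) (l 16610792)))) (b (c (b (l 16623968) (l 16637368)) (l 16616896)) (b (c (l 16629608) (l 16625888)) (b (l 16600760) (l 16597056))))))), by decide +kernel⟩

def k115_pm_102_s : ∃ t, chk3 f_pm_102_s t 14 21 1 = true :=
  ⟨(a (b (c (a (a (c (l 16662512) (l 16657224)) (l 16684736)) (a (l 16667080) (l 16659384))) (a (c (l 16637624) (l 16641848)) (c (l 16613312) (l 16628552)))) (c (a (c (l 16655864) (l 16629160)) (c (l 16641704) (l 16615280))) (a (c (l 16623048) (l 16616544)) (c (l 16609592) (l 16603688))))) (a (c (b (c (l 16649232) (l 16624136)) (c (l 16604424) (l 16600056))) (b (c (l 16619928) (l 16615648)) (c (l 16595696) (l 16591352)))) (c (a (b (l 16613464) (l 16589752)) (b (l 16586408) (l 16581224))) (b (c (l 16605576)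 (l 16603360)) (l 16570320))))), by decide +kernel⟩

def k116_pm_102_s : ∃ t, chk3 f_pm_102_s t 15 40 1 = true :=
  ⟨(a (a (c (c (b (a (b (l 16659648) (l 16653896)) (b (l 16648400) (l 16642744))) (a (b (l 16648016) (l 16641976)) (b (l 16636952) (l 16631008)))) (b (a (l 16652144) (l 16641776)) (a (l 16633816) (l 16623624)))) (b (c (a (l 16658368) (l 16648968)) (a (l 16659712) (l 16651424))) (c (c (l 16628808) (l 16639392)) (a (l 16643608) (l 16635504))))) (c (c (b (a (b (l 16636416) (l 16630856)) (b (l 16623712) (l 16618352))) (a (b (l 16625176) (l 16619336)) (b (l 16612816) (l 16607096)))) (b (a (c (l 16635224) (l 16636464)) (c (l 16623016) (l 16624576))) (a (l 16607360) (b (l 16614520) (l 16608184))))) (b (c (a (l 16633368) (l 16616768)) (a (l 16642032) (l 16631464))) (c (a (l 16624424) (l 16602880)) (a (l 16626256) (l 16615960)))))) (c (a (c (b (a (b (l 16610424) (l 16605312)) (c (b (l 16595864) (l 16591208)) (l 16594960))) (a (b (l 16599984) (l 16594480)) (b (l 16586776) (l 16581544)))) (b (a (c (l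 16610136) (l 16611904)) (c (l 16596600) (l 16598456))) (a (c (l 16598456) (l 16599496)) (c (l 16585456) (l 16586552))))) (c (c (b (a (b (l 16581688) (l 16577328)) (b (l 16567216) (l 16563152))) (a (b (l 16572776) (l 16568000)) (b (l 16558912) (l 16554464)))) (b (a (l 16580912) (b (l 16568744) (l 16564272))) (a (l 16571048) (b (l 16559640) (l 16554840))))) (b (a (c (l 16582536) (l 16584392)) (c (l 16568072) (l 16569864))) (a (c (l 16571912) (l 16572968)) (c (l 16557976) (l 16558920)))))) (a (b (c (a (l 16604456) (l 16591176)) (a (l 16619704) (l 16606696))) (c (a (l 16580400) (l 16567568)) (a (l 16604472) (l 16591832)))) (b (a (c (l 16577128) (l 16571736)) (c (c (l 16571888) (l 16574152)) (l 16567512))) (c (a (l 16553936) (c (l 16560056) (l 16561384))) (a (l 16578168) (l 16542776))))))), by decide +kernel⟩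

def k117_pm_102_s : ∃ t, chk3 f_pm_102_s t 30 41 1 = true :=
  ⟨(b (a (c (c (a (b (l 16635752) (l 16629192)) (b (l 16624848) (l 16618384))) (a (l 16609704) (l 16604936))) (c (b (l 16607416) (l 16620992)) (l 16623744))) (c (c (a (b (l 16613288) (l 16606928)) (b (l 16601176) (l 16594952))) (a (l 16591496) (b (l 16601720) (l 16595056)))) (c (b (l 16597840) (l 16580160)) (a (l 16610672) (l 16600528))))) (c (a (b (c (a (l 16621992) (l 16611320)) (l 16593984)) (b (c (a (l 16615600) (l 16605024)) (l 16608712)) (c (a (l 16610504) (l 16599976)) (l 16583168)))) (b (c (a (l 16599960) (l 16588120)) (a (l 16599296) (l 16587968))) (b (c (a (l 16593768) (l 16582056)) (a (l 16593200) (l 16581984))) (c (a (b (l 16589504) (l 16587080)) (a (l 16580056) (l 16574136))) (a (l 16588712) (l 16577560)))))) (c (b (a (l 16592400) (l 16572744)) (a (b (l 16607296) (l 16603328)) (b (l 16587816) (l 16584000)))) (a (b (l 16611952) (l 16583520)) (b (l 16594208) (l 16565984)))))), by decide +kernel⟩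

def k118_pm_102_s : ∃ t, chk3 f_pm_102_s t 31 41 1 = true :=
  ⟨(c (b (a (c (a (b (l 16588736) (l 16582648)) (b (l 16576032) (l 16570200))) (a (b (l 16589592) (l 16583048)) (b (l 16576936) (l 16570616)))) (c (a (b (l 16573536) (l 16568016)) (b (c (l 16549768) (l 16549816)) (c (l 16544720) (l 16544496)))) (a (b (l 16563800) (l 16557752)) (b (l 16550216) (l 16544456))))) (b (a (c (a (l 16575992) (c (l 16563824) (l 16563736))) (a (l 16576104) (l 16563872))) (a (c (c (l 16551504) (l 16551288)) (l 16551248)) (c (c (l 16539056) (l 16538640)) (l 16538288)))) (c (a (b (a (l 16570072) (l 16558008)) (b (b (b (l 16561040) (a (l 16565784) (l 16553816))) (l 16558648)) (l 16557504))) (c (b (a (l 16546016) (l 16533888)) (b (b (b (l 16537056) (a (l 16541824) (l 16529872))) (l 16534680)) (l 16533520))) (b (a (l 16545792) (l 16533440)) (a (l 16541224) (l 16529040))))) (a (b (a (l 16570256) (l 16558152)) (a (l 16565912) (l 16553896))) (b (a (l 16545760) (l 16533056)) (a (l 16541616) (l 16529088))))))) (b (a (c (a (l 16566544)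 (l 16554064)) (b (l 16565992) (l 16558512))) (c (a (l 16540904) (b (l 16551328) (l 16544944))) (a (l 16563680) (l 16549592)))) (a (b (c (a (l 16576768) (l 16564560)) (l 16551072)) (b (c (l 16565008) (l 16566424)) (c (l 16561368) (l 16563552)))) (b (c (a (l 16551720) (l 16538352)) (l 16524912)) (b (a (l 16567712) (c (l 16533088) (l 16533736))) (c (a (l 16542784) (l 16529776)) (l 16537944))))))), by decide +kernel⟩

def k119_pm_102_s : ∃ t, chk3 f_pm_102_s t 15 21 1 = true :=
  ⟨(a (c (a (b (c (a (l 16596264) (l 16585744)) (a (l 16594984) (l 16585392))) (c (a (l 16572920) (l 16562616)) (l 16567080))) (b (c (a (l 16595568) (b (l 16568712) (l 16557000))) (a (l 16575032) (l 16564008))) (c (a (l 16551544) (l 16560760)) (a (l 16552208) (l 16541384))))) (a (b (c (a (l 16594104) (l 16585584)) (l 16569224)) (c (l 16566912) (l 16567352))) (b (c (a (l 16576152) (l 16565928)) (l 16573424)) (c (a (l 16553704) (l 16543968)) (l 16531048))))) (a (c (b (c (a (b (l 16556768) (l 16544944)) (b (l 16544760) (l 16532864)))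 (a (l 16552456) (l 16540576))) (c (a (b (l 16533424) (l 16522120)) (b (l 16521248) (l 16509928))) (a (l 16530088) (l 16518416)))) (b (c (a (l 16554960) (l 16543296)) (l 16531776)) (c (a (l 16533504) (l 16522432)) (l 16511944)))) (c (b (c (a (b (l 16532792) (l 16520800)) (b (l 16520784) (l 16508840))) (a (b (l 16534056) (l 16522896)) (b (l 16521680) (l 16510752)))) (c (a (b (l 16509112) (l 16497704)) (b (l 16497064) (l 16485592))) (a (l 16506512) (l 16494528)))) (b (c (a (l 16531216) (l 16539592)) (b (l 16511696) (l 16524080))) (c (a (l 16510904) (l 16499048)) (l 16489792)))))), by decide +kernel⟩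

def k120_pm_102_s : ∃ t, chk3 f_pm_102_s t 14 11 1 = true :=
  ⟨(a (c (b (b (a (c (l 16610840) (l 16604776)) (c (l 16596968) (l 16591208))) (a (l 16625888) (l 16591480))) (a (b (l 16581328) (l 16537240)) (b (l 16547240) (l 16524288)))) (b (a (b (l 16582008) (l 16591840)) (b (l 16561336) (l 16558376))) (a (b (l 16568048) (l 16523944)) (b (l 16534888) (l 16511824))))) (b (c (a (b (l 16620576) (l 16576336)) (b (c (l 16563848) (l 16561000)) (l 16581416))) (a (b (l 16548664) (l 16546128)) (b (l 16536536) (l 16534544)))) (b (c (a (l 16532432) (l 16537872)) (a (l 16523024) (l 16511936))) (c (a (l 16509824) (l 16494656)) (a (l 16500312) (l 16489672)))))), by decide +kernel⟩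

def k121_pm_102_s : ∃ t, chk3 f_pm_102_s t 15 11 1 = true :=
  ⟨(a (c (b (b (a (c (l 16545000) (l 16544232)) (c (a (l 16528928) (l 16517400)) (l 16524528))) (a (c (l 16522520) (l 16521720)) (c (l 16501064) (l 16502536)))) (a (b (c (l 16500400) (l 16499536)) (l 16519936)) (b (c (l 16479312) (l 16480856)) (c (l 16457920) (l 16459480))))) (b (a (b (l 16523504) (l 16501216)) (b (c (l 16526944) (l 16530432)) (c (l 16505256) (l 16509216)))) (a (b (l 16500200) (l 16478504)) (b (l 16464872) (l 16464848))))) (a (b (c (b (c (a (l 16505496) (b (l 16498824) (l 16487904))) (a (l 16508192) (l 16496768))) (c (a (l 16483632) (l 16471712)) (l 16481096))) (b (c (a (l 16512176) (l 16501648)) (l 16491928)) (c (l 16486088) (l 16492640)))) (b (c (c (a (l 16462176) (l 16450456)) (l 16460000)) (c (l 16465456) (l 16472680))) (c (c (l 16435328) (l 16439192)) (l 16427736)))) (b (c (b (c (a (b (l 16486592) (l 16475696)) (b (l 16474400) (l 16463512))) (a (l 16485144) (l 16473416))) (c (a (l 16483264) (b (l 16452824) (l 16442320)))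 (a (l 16464224) (l 16452784)))) (b (c (a (l 16490680) (l 16479472)) (l 16471496)) (c (a (l 16470536) (l 16459928)) (l 16452936)))) (b (c (c (a (l 16438616) (l 16426752)) (a (l 16443608) (l 16432536))) (c (l 16445512) (l 16455048))) (a (a (c (l 16423136) (l 16437696)) (l 6)) (l 6)))))), by decide +kernel⟩

def k122_pm_102_s : ∃ t, chk3 f_pm_102_s t 6 6 1 = true :=
  ⟨(b (a (a (a (b (c (l 16678120) (l 16565416)) (l 2)) (b (c (l 16665584) (l 16555624)) (c (l 16550544) (l 16537480)))) (b (c (a (b (l 16578704) (l 16560928)) (b (l 16567864) (l 16548952))) (b (a (l 16575496) (l 16563848)) (a (l 16555672) (l 16543800)))) (a (c (l 16599680) (l 16526576)) (c (b (l 16531752) (l 16515936)) (l 16598752))))) (a (b (c (b (a (l 16557344) (l 16547160)) (a (l 16537256) (l 16526168))) (b (a (l 16551616) (l 16539232)) (a (l 16531520) (l 16518720)))) (c (b (a (l 16518896) (l 16506656)) (a (l 16502312) (l 16488856))) (a (b (l 16511944) (l 16493032)) (b (l 16499104) (l 16480008))))) (b (c (b (a (l 16536816) (l 16526152)) (a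 (l 16515328) (l 16504240))) (b (a (l 16526736) (l 16514136)) (a (l 16505824) (l 16492896)))) (b (c (a (l 16494936) (l 16483376)) (a (l 16485824) (l 16472536))) (c (a (l 16476024) (l 16463608)) (a (l 16466696) (l 16453048))))))) (b (b (a (a (l 2) (c (l 16528904) (l 16492552))) (a (c (a (l 16487120) (l 16472816)) (a (l 16474400) (l 16461552))) (a (a (l 16519480) (l 6)) (l 6)))) (a (l 2) (l 6))) (l 6))), by decide +kernel⟩

def k123_pm_102_s : ∃ t, chk3 f_pm_102_s t 7 6 1 = true :=
  ⟨(a (b (b (a (c (a (b (l 16514648) (l 16492736)) (b (l 16501816) (l 16479864))) (a (b (l 16501520) (l 16479992)) (b (l 16489384) (l 16467616)))) (c (a (b (l 16487536) (l 16465728)) (b (l 16472736) (l 16451136))) (a (b (l 16478000) (l 16456264)) (b (l 16467768) (l 16446216))))) (b (a (c (a (l 16471464) (l 16458608)) (a (l 16459328) (l 16446712))) (a (c (l 16444448) (l 16435168)) (l 6))) (a (a (c (l 16451240) (l 16439512)) (l 6)) (l 6)))) (l 6)) (b (a (b (b (c (a (l 16477440) (c (l 16436864) (l 16438400))) (a (l 16457112) (l 16444104)))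 (a (c (l 16435264) (l 16436032)) (l 6))) (l 6)) (l 6)) (l 6))), by decide +kernel⟩

def k124_pm_102_s : ∃ t, chk3 f_pm_102_s t 3 7 1 = true :=
  ⟨(l 6), by decide +kernel⟩

theorem s125_pm_102_s : ∃ t, chk3 f_pm_102_s t 3 6 1 = true := ex3_a k122_pm_102_s k123_pm_102_s

theorem s126_pm_102_s : ∃ t, chk3 f_pm_102_s t 3 3 1 = true := ex3_b s125_pm_102_s k124_pm_102_s

theorem s127_pm_102_s : ∃ t, chk3 f_pm_102_s t 7 11 1 = true := ex3_a k120_pm_102_s k121_pm_102_s

theorem s128_pm_102_s : ∃ t, chk3 f_pm_102_s t 15 41 1 = true := ex3_a k117_pm_102_s k118_pm_102_s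

theorem s129_pm_102_s : ∃ t, chk3 f_pm_102_s t 15 20 1 = true := ex3_b k116_pm_102_s s128_pm_102_s

theorem s130_pm_102_s : ∃ t, chk3 f_pm_102_s t 15 10 1 = true := ex3_b s129_pm_102_s k119_pm_102_s

theorem s131_pm_102_s : ∃ t, chk3 f_pm_102_s t 14 20 1 = true := ex3_b k113_pm_102_s k114_pm_102_s

theorem s132_pm_102_s : ∃ t, chk3 f_pm_102_s t 14 10 1 = true := ex3_b s131_pm_102_s k115_pm_102_s

theorem s133_pm_102_s : ∃ t, chk3 f_pm_102_s t 7 10 1 = true := ex3_a s132_pm_102_s s130_pm_102_s

theorem s134_pm_102_s : ∃ t, chk3 f_pm_102_s t 7 5 1 = true := ex3_b s133_pm_102_s s127_pm_102_s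

theorem s135_pm_102_s : ∃ t, chk3 f_pm_102_s t 13 20 1 = true := ex3_b k109_pm_102_s k110_pm_102_s

theorem s136_pm_102_s : ∃ t, chk3 f_pm_102_s t 13 10 1 = true := ex3_b s135_pm_102_s k111_pm_102_s

theorem s137_pm_102_s : ∃ t, chk3 f_pm_102_s t 13 5 1 = true := ex3_b s136_pm_102_s k112_pm_102_s

theorem s138_pm_102_s : ∃ t, chk3 f_pm_102_s t 12 10 1 = true := ex3_b k106_pm_102_s k107_pm_102_s

theorem s139_pm_102_s : ∃ t, chk3 f_pm_102_s t 12 5 1 = true := ex3_b s138_pm_102_s k108_pm_102_s

theorem s140_pm_102_s : ∃ t, chk3 f_pm_102_s t 6 5 1 = true := ex3_a s139_pm_102_s s137_pm_102_s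

theorem s141_pm_102_s : ∃ t, chk3 f_pm_102_s t 3 5 1 = true := ex3_a s140_pm_102_s s134_pm_102_s

theorem s142_pm_102_s : ∃ t, chk3 f_pm_102_s t 31 19 2 = true := ex3_a k103_pm_102_s k104_pm_102_s

theorem s143_pm_102_s : ∃ t, chk3 f_pm_102_s t 31 19 1 = true := ex3_c s142_pm_102_s k105_pm_102_s

theorem s144_pm_102_s : ∃ t, chk3 f_pm_102_s t 30 19 1 = true := ex3_b k101_pm_102_s k102_pm_102_s

theorem s145_pm_102_s : ∃ t, chk3 f_pm_102_s t 15 19 1 = true := ex3_a s144_pm_102_s s143_pm_102_s

theorem s146_pm_102_s : ∃ t, chk3 f_pm_102_s t 14 19 2 = true := ex3_a k98_pm_102_s k99_pm_102_s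

theorem s147_pm_102_s : ∃ t, chk3 f_pm_102_s t 14 19 1 = true := ex3_c s146_pm_102_s k100_pm_102_s

theorem s148_pm_102_s : ∃ t, chk3 f_pm_102_s t 7 19 1 = true := ex3_a s147_pm_102_s s145_pm_102_s

theorem s149_pm_102_s : ∃ t, chk3 f_pm_102_s t 63 18 2 = true := ex3_b k95_pm_102_s k96_pm_102_s

theorem s150_pm_102_s : ∃ t, chk3 f_pm_102_s t 31 18 2 = true := ex3_a k94_pm_102_s s149_pm_102_s

theorem s151_pm_102_s : ∃ t, chk3 f_pm_102_s t 31 18 1 = true := ex3_c s150_pm_102_s k97_pm_102_s

theorem s152_pm_102_s : ∃ t, chk3 f_pm_102_s t 61 18 1 = true := ex3_b k92_pm_102_s k93_pm_102_s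

theorem s153_pm_102_s : ∃ t, chk3 f_pm_102_s t 60 18 1 = true := ex3_a k90_pm_102_s k91_pm_102_s

theorem s154_pm_102_s : ∃ t, chk3 f_pm_102_s t 30 18 1 = true := ex3_a s153_pm_102_s s152_pm_102_s

theorem s155_pm_102_s : ∃ t, chk3 f_pm_102_s t 15 18 1 = true := ex3_a s154_pm_102_s s151_pm_102_s

theorem s156_pm_102_s : ∃ t, chk3 f_pm_102_s t 59 36 1 = true := ex3_b k87_pm_102_s k88_pm_102_s

theorem s157_pm_102_s : ∃ t, chk3 f_pm_102_s t 59 18 1 = true := ex3_b s156_pm_102_s k89_pm_102_s

theorem s158_pm_102_s : ∃ t, chk3 f_pm_102_s t 58 36 1 = true := ex3_b k84_pm_102_s k85_pm_102_s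

theorem s159_pm_102_s : ∃ t, chk3 f_pm_102_s t 58 18 1 = true := ex3_b s158_pm_102_s k86_pm_102_s

theorem s160_pm_102_s : ∃ t, chk3 f_pm_102_s t 29 18 1 = true := ex3_a s159_pm_102_s s157_pm_102_s

theorem s161_pm_102_s : ∃ t, chk3 f_pm_102_s t 28 18 1 = true := ex3_b k82_pm_102_s k83_pm_102_s

theorem s162_pm_102_s : ∃ t, chk3 f_pm_102_s t 14 18 1 = true := ex3_a s161_pm_102_s s160_pm_102_s

theorem s163_pm_102_s : ∃ t, chk3 f_pm_102_s t 7 18 1 = true := ex3_a s162_pm_102_s s155_pm_102_s

theorem s164_pm_102_s : ∃ t, chk3 f_pm_102_s t 7 9 1 = true := ex3_b s163_pm_102_s s148_pm_102_s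

theorem s165_pm_102_s : ∃ t, chk3 f_pm_102_s t 63 35 1 = true := ex3_a k80_pm_102_s k81_pm_102_s

theorem s166_pm_102_s : ∃ t, chk3 f_pm_102_s t 63 17 1 = true := ex3_b k79_pm_102_s s165_pm_102_s

theorem s167_pm_102_s : ∃ t, chk3 f_pm_102_s t 62 35 2 = true := ex3_c k76_pm_102_s k77_pm_102_s

theorem s168_pm_102_s : ∃ t, chk3 f_pm_102_s t 62 35 1 = true := ex3_c s167_pm_102_s k78_pm_102_s

theorem s169_pm_102_s : ∃ t, chk3 f_pm_102_s t 248 34 1 = true := ex3_b k72_pm_102_s k73_pm_102_s

theorem s170_pm_102_s : ∃ t, chk3 f_pm_102_s t 124 34 1 = true := ex3_a s169_pm_102_s k74_pm_102_s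

theorem s171_pm_102_s : ∃ t, chk3 f_pm_102_s t 62 34 1 = true := ex3_a s170_pm_102_s k75_pm_102_s

theorem s172_pm_102_s : ∃ t, chk3 f_pm_102_s t 62 17 1 = true := ex3_b s171_pm_102_s s168_pm_102_s

theorem s173_pm_102_s : ∃ t, chk3 f_pm_102_s t 31 17 1 = true := ex3_a s172_pm_102_s s166_pm_102_s

theorem s174_pm_102_s : ∃ t, chk3 f_pm_102_s t 30 35 3 = true := ex3_a k70_pm_102_s k71_pm_102_s

theorem s175_pm_102_s : ∃ t, chk3 f_pm_102_s t 61 70 2 = true := ex3_a k67_pm_102_s k68_pm_102_s

theorem s176_pm_102_s : ∃ t, chk3 f_pm_102_s t 61 35 2 = true := ex3_b s175_pm_102_s k69_pm_102_s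

theorem s177_pm_102_s : ∃ t, chk3 f_pm_102_s t 121 70 4 = true := ex3_b k63_pm_102_s k64_pm_102_s

theorem s178_pm_102_s : ∃ t, chk3 f_pm_102_s t 121 70 2 = true := ex3_c s177_pm_102_s k65_pm_102_s

theorem s179_pm_102_s : ∃ t, chk3 f_pm_102_s t 241 140 2 = true := ex3_b k60_pm_102_s k61_pm_102_s

theorem s180_pm_102_s : ∃ t, chk3 f_pm_102_s t 241 70 2 = true := ex3_b s179_pm_102_s k62_pm_102_s

theorem s181_pm_102_s : ∃ t, chk3 f_pm_102_s t 240 70 2 = true := ex3_a k58_pm_102_s k59_pm_102_s

theorem s182_pm_102_s : ∃ t, chk3 f_pm_102_s t 120 70 2 = true := ex3_a s181_pm_102_s s180_pm_102_s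

theorem s183_pm_102_s : ∃ t, chk3 f_pm_102_s t 60 70 2 = true := ex3_a s182_pm_102_s s178_pm_102_s

theorem s184_pm_102_s : ∃ t, chk3 f_pm_102_s t 60 35 2 = true := ex3_b s183_pm_102_s k66_pm_102_s

theorem s185_pm_102_s : ∃ t, chk3 f_pm_102_s t 30 35 2 = true := ex3_a s184_pm_102_s s176_pm_102_s

theorem s186_pm_102_s : ∃ t, chk3 f_pm_102_s t 30 35 1 = true := ex3_c s185_pm_102_s s174_pm_102_s

theorem s187_pm_102_s : ∃ t, chk3 f_pm_102_s t 123 69 1 = true := ex3_c k56_pm_102_s k57_pm_102_s

theorem s188_pm_102_s : ∃ t, chk3 f_pm_102_s t 122 276 2 = true := ex3_b k51_pm_102_s k52_pm_102_s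

theorem s189_pm_102_s : ∃ t, chk3 f_pm_102_s t 122 138 2 = true := ex3_b s188_pm_102_s k53_pm_102_s

theorem s190_pm_102_s : ∃ t, chk3 f_pm_102_s t 122 138 1 = true := ex3_c s189_pm_102_s k54_pm_102_s

theorem s191_pm_102_s : ∃ t, chk3 f_pm_102_s t 122 69 1 = true := ex3_b s190_pm_102_s k55_pm_102_s

theorem s192_pm_102_s : ∃ t, chk3 f_pm_102_s t 61 69 1 = true := ex3_a s191_pm_102_s s187_pm_102_s

theorem s193_pm_102_s : ∃ t, chk3 f_pm_102_s t 123 137 2 = true := ex3_c k48_pm_102_s k49_pm_102_s

theorem s194_pm_102_s : ∃ t, chk3 f_pm_102_s t 247 136 4 = true := ex3_b k45_pm_102_s k46_pm_102_s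

theorem s195_pm_102_s : ∃ t, chk3 f_pm_102_s t 247 136 2 = true := ex3_c s194_pm_102_s k47_pm_102_s

theorem s196_pm_102_s : ∃ t, chk3 f_pm_102_s t 246 273 4 = true := ex3_b k42_pm_102_s k43_pm_102_s

theorem s197_pm_102_s : ∃ t, chk3 f_pm_102_s t 246 273 2 = true := ex3_c s196_pm_102_s k44_pm_102_s

theorem s198_pm_102_s : ∃ t, chk3 f_pm_102_s t 246 136 2 = true := ex3_b k41_pm_102_s s197_pm_102_s

theorem s199_pm_102_s : ∃ t, chk3 f_pm_102_s t 123 136 2 = true := ex3_a s198_pm_102_s s195_pm_102_s

theorem s200_pm_102_s : ∃ t, chk3 f_pm_102_s t 123 68 2 = true := ex3_b s199_pm_102_s s193_pm_102_s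

theorem s201_pm_102_s : ∃ t, chk3 f_pm_102_s t 491 137 2 = true := ex3_b k39_pm_102_s k40_pm_102_s

theorem s202_pm_102_s : ∃ t, chk3 f_pm_102_s t 491 68 2 = true := ex3_b k38_pm_102_s s201_pm_102_s

theorem s203_pm_102_s : ∃ t, chk3 f_pm_102_s t 245 68 2 = true := ex3_a k37_pm_102_s s202_pm_102_s

theorem s204_pm_102_s : ∃ t, chk3 f_pm_102_s t 122 68 2 = true := ex3_a k36_pm_102_s s203_pm_102_s

theorem s205_pm_102_s : ∃ t, chk3 f_pm_102_s t 61 68 2 = true := ex3_a s204_pm_102_s s200_pm_102_s

theorem s206_pm_102_s : ∃ t, chk3 f_pm_102_s t 61 68 1 = true := ex3_c s205_pm_102_s k50_pm_102_s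

theorem s207_pm_102_s : ∃ t, chk3 f_pm_102_s t 61 34 1 = true := ex3_b s206_pm_102_s s192_pm_102_s

theorem s208_pm_102_s : ∃ t, chk3 f_pm_102_s t 121 279 2 = true := ex3_a k33_pm_102_s k34_pm_102_s

theorem s209_pm_102_s : ∃ t, chk3 f_pm_102_s t 121 278 2 = true := ex3_b k31_pm_102_s k32_pm_102_s

theorem s210_pm_102_s : ∃ t, chk3 f_pm_102_s t 121 139 2 = true := ex3_b s209_pm_102_s s208_pm_102_s

theorem s211_pm_102_s : ∃ t, chk3 f_pm_102_s t 121 139 1 = true := ex3_c s210_pm_102_s k35_pm_102_s

theorem s212_pm_102_s : ∃ t, chk3 f_pm_102_s t 121 69 1 = true := ex3_b k30_pm_102_s s211_pm_102_s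

theorem s213_pm_102_s : ∃ t, chk3 f_pm_102_s t 121 34 1 = true := ex3_b k29_pm_102_s s212_pm_102_s

theorem s214_pm_102_s : ∃ t, chk3 f_pm_102_s t 60 34 1 = true := ex3_a k28_pm_102_s s213_pm_102_s

theorem s215_pm_102_s : ∃ t, chk3 f_pm_102_s t 30 34 1 = true := ex3_a s214_pm_102_s s207_pm_102_s

theorem s216_pm_102_s : ∃ t, chk3 f_pm_102_s t 30 17 1 = true := ex3_b s215_pm_102_s s186_pm_102_s

theorem s217_pm_102_s : ∃ t, chk3 f_pm_102_s t 15 17 1 = true := ex3_a s216_pm_102_s s173_pm_102_s

theorem s218_pm_102_s : ∃ t, chk3 f_pm_102_s t 247 135 1 = true := ex3_a k25_pm_102_s k26_pm_102_s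

theorem s219_pm_102_s : ∃ t, chk3 f_pm_102_s t 123 135 1 = true := ex3_a k24_pm_102_s s218_pm_102_s

theorem s220_pm_102_s : ∃ t, chk3 f_pm_102_s t 123 67 1 = true := ex3_b k23_pm_102_s s219_pm_102_s

theorem s221_pm_102_s : ∃ t, chk3 f_pm_102_s t 61 67 1 = true := ex3_a k22_pm_102_s s220_pm_102_s

theorem s222_pm_102_s : ∃ t, chk3 f_pm_102_s t 61 33 1 = true := ex3_b k21_pm_102_s s221_pm_102_s

theorem s223_pm_102_s : ∃ t, chk3 f_pm_102_s t 30 33 1 = true := ex3_a k20_pm_102_s s222_pm_102_s

theorem s224_pm_102_s : ∃ t, chk3 f_pm_102_s t 30 16 1 = true := ex3_b k19_pm_102_s s223_pm_102_s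

theorem s225_pm_102_s : ∃ t, chk3 f_pm_102_s t 15 16 1 = true := ex3_a s224_pm_102_s k27_pm_102_s

theorem s226_pm_102_s : ∃ t, chk3 f_pm_102_s t 15 8 1 = true := ex3_b s225_pm_102_s s217_pm_102_s

theorem s227_pm_102_s : ∃ t, chk3 f_pm_102_s t 119 71 2 = true := ex3_b k16_pm_102_s k17_pm_102_s

theorem s228_pm_102_s : ∃ t, chk3 f_pm_102_s t 119 71 1 = true := ex3_c s227_pm_102_s k18_pm_102_s

theorem s229_pm_102_s : ∃ t, chk3 f_pm_102_s t 119 35 1 = true := ex3_b k15_pm_102_s s228_pm_102_s

theorem s230_pm_102_s : ∃ t, chk3 f_pm_102_s t 59 35 1 = true := ex3_a k14_pm_102_s s229_pm_102_s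

theorem s231_pm_102_s : ∃ t, chk3 f_pm_102_s t 29 35 1 = true := ex3_a k13_pm_102_s s230_pm_102_s

theorem s232_pm_102_s : ∃ t, chk3 f_pm_102_s t 14 35 1 = true := ex3_a k12_pm_102_s s231_pm_102_s

theorem s233_pm_102_s : ∃ t, chk3 f_pm_102_s t 14 17 1 = true := ex3_b k11_pm_102_s s232_pm_102_s

theorem s234_pm_102_s : ∃ t, chk3 f_pm_102_s t 14 8 1 = true := ex3_b k10_pm_102_s s233_pm_102_s

theorem s235_pm_102_s : ∃ t, chk3 f_pm_102_s t 7 8 1 = true := ex3_a s234_pm_102_s s226_pm_102_s

theorem s236_pm_102_s : ∃ t, chk3 f_pm_102_s t 7 4 1 = true := ex3_b s235_pm_102_s s164_pm_102_s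

theorem s237_pm_102_s : ∃ t, chk3 f_pm_102_s t 13 19 1 = true := ex3_a k8_pm_102_s k9_pm_102_s

theorem s238_pm_102_s : ∃ t, chk3 f_pm_102_s t 6 19 1 = true := ex3_a k7_pm_102_s s237_pm_102_s

theorem s239_pm_102_s : ∃ t, chk3 f_pm_102_s t 6 9 1 = true := ex3_b k6_pm_102_s s238_pm_102_s

theorem s240_pm_102_s : ∃ t, chk3 f_pm_102_s t 6 4 1 = true := ex3_b k5_pm_102_s s239_pm_102_s

theorem s241_pm_102_s : ∃ t, chk3 f_pm_102_s t 3 4 1 = true := ex3_a s240_pm_102_s s236_pm_102_s

theorem s242_pm_102_s : ∃ t, chk3 f_pm_102_s t 3 2 1 = true := ex3_b s241_pm_102_s s141_pm_102_s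

theorem s243_pm_102_s : ∃ t, chk3 f_pm_102_s t 3 1 1 = true := ex3_b s242_pm_102_s s126_pm_102_s

theorem s244_pm_102_s : ∃ t, chk3 f_pm_102_s t 5 5 1 = true := ex3_b k2_pm_102_s k3_pm_102_s

theorem s245_pm_102_s : ∃ t, chk3 f_pm_102_s t 2 5 1 = true := ex3_a k1_pm_102_s s244_pm_102_s

theorem s246_pm_102_s : ∃ t, chk3 f_pm_102_s t 2 2 1 = true := ex3_b k0_pm_102_s s245_pm_102_s

theorem s247_pm_102_s : ∃ t, chk3 f_pm_102_s t 2 1 1 = true := ex3_b s246_pm_102_s k4_pm_102_s

theorem s248_pm_102_s : ∃ t, chk3 f_pm_102_s t 1 1 1 = true := ex3_a s247_pm_102_s s243_pm_102_s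

theorem c_pm_102_s : CertNE 536870912 536870912 0 536870912 858993459 64424510 3 eng mog cd0q1 cd0q0 pd2 true true false .npp 1 0 2
    ndB0q1 ndB0q0 pcB2 cut_pm_102_s Ext.none :=
  certNE1 (fam := true) (s1 := true) (s2 := false) (a := 1) (b := 0) (c := 2) (cn := .npp) (n1 := ndB0q1) (n2 := ndB0q0) (pc := pcB2) (cut := cut_pm_102_s) (xt := Ext.none) (P1 := 536870912) (W1 := 536870912) (P2 := 0) (W2 := 536870912) (P3 := 858993459) (W3 := 64424510) (N0 := 3) (En := eng) (mo := mog) (C1 := cd0q1) (C2 := cd0q0) (C3 := pd2)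
    rfl (fun _ => rfl) s248_pm_102_s

noncomputable def cut_pm_102_t : Cut := Cut.of [[⟨3, 0, 0, 2845415833⟩], [⟨0, 1, 0, 67108864⟩, ⟨1, 0, 0, 67108864⟩, ⟨2, 1, 0, 67108864⟩]]

noncomputable def f_pm_102_t : ℕ → ℕ → ℕ → ℕ → Bool := onCell 536870912 536870912 0 536870912 858993459 64424510
    (rowNE 3 eng mog cd0q1 cd0q0 pd2 0 true true false .npp 1 0 2 (qsf 536870912 536870912 0 536870912 2) ndB0q1 ndB0q0 pcB2 cut_pm_102_t Ext.none)

def k0_pm_102_t : ∃ t, chk3 f_pm_102_t t 1 1 1 = true :=
  ⟨(l 6), by decide +kernel⟩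

theorem c_pm_102_t : CertNE 536870912 536870912 0 536870912 858993459 64424510 3 eng mog cd0q1 cd0q0 pd2 true true false .npp 1 0 2
    ndB0q1 ndB0q0 pcB2 cut_pm_102_t Ext.none :=
  certNE0 (fam := true) (s1 := true) (s2 := false) (a := 1) (b := 0) (c := 2) (cn := .npp) (n1 := ndB0q1) (n2 := ndB0q0) (pc := pcB2) (cut := cut_pm_102_t) (xt := Ext.none) (P1 := 536870912) (W1 := 536870912) (P2 := 0) (W2 := 536870912) (P3 := 858993459) (W3 := 64424510) (N0 := 3) (En := eng) (mo := mog) (C1 := cd0q1) (C2 := cd0q0) (C3 := pd2)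
    rfl k0_pm_102_t

noncomputable def cut_pm_112_s : Cut := Cut.of [[⟨4, 0, 0, 1449551462⟩]]

noncomputable def f_pm_112_s : ℕ → ℕ → ℕ → ℕ → Bool := onCell 1073741824 536870912 536870912 536870912 858993459 64424510
    (rowNE 3 eng mog cd0q1 cd0q1 pd2 2 true true false .dn 1 1 2 (qsf 536870912 536870912 536870912 536870912 2) ndB0q1 ndB0q1 pcB2 cut_pm_112_s Ext.none)

def k0_pm_112_s : ∃ t, chk3 f_pm_112_s t 4 2 1 = true :=
  ⟨(a (l 3) (l 3)), by decide +kernel⟩

def k1_pm_112_s : ∃ t, chk3 f_pm_112_s t 10 2 1 = true :=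
  ⟨(a (a (b (l 3) (b (l 3) (l 1))) (b (a (l 3) (a (a (l 3) (b (b (c (l 16796752) (l 16775392)) (l 3)) (l 3))) (b (b (b (l 16794992) (l 16775480)) (c (l 16776976) (l 16776904))) (b (l 101636424727) (c (l 16776904) (l 16776816)))))) (b (a (b (l 3) (l 1)) (b (a (a (l 3) (b (l 16775272) (l 16797816))) (b (l 16775328) (l 16773784))) (a (l 1) (b (l 16792600) (l 1))))) (l 1)))) (b (b (b (b (a (c (l 16761840) (l 16757904)) (a (l 16711400) (l 16710088))) (a (c (l 16764016) (l 16759904)) (b (l 16697344) (l 16698528)))) (b (a (c (l 16764824) (l 16761448)) (a (l 16726184) (l 16694584))) (a (l 16764144) (l 16743096)))) (a (b (b (l 16764672) (l 16764784)) (b (l 16764480) (a (l 16768848) (l 16758712)))) (b (c (l 16748056) (l 16739856)) (c (l 16747856) (l 16692448))))) (b (b (b (a (c (l 16764312) (l 16760824)) (l 16784480)) (c (a (l 16762952) (l 16724232)) (l 16768744))) (b (a (c (l 16760560) (l 16756840)) (c (l 16721848) (l 16734312))) (a (c (l 16756896) (l 16754112)) (c (l 16696240) (l 16731600))))) (a (l 1) (b (b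 (c (l 16690072) (l 16728328)) (l 1)) (l 1)))))), by decide +kernel⟩

def k2_pm_112_s : ∃ t, chk3 f_pm_112_s t 11 2 1 = true :=
  ⟨(b (b (a (a (c (b (b (l 16717368) (l 16723296)) (l 16748768)) (b (b (l 16707840) (l 16710760)) (b (l 16713216) (l 16715088)))) (b (c (b (l 16692152) (l 16700240)) (b (l 16682272) (l 16686096))) (c (b (l 16706240) (l 16709640)) (l 16648144)))) (b (b (c (l 16714072) (l 16642392)) (a (l 16731280) (l 16642112))) (a (b (l 16674432) (l 16678896)) (b (l 16628832) (l 16655840))))) (b (b (a (a (l 16702280) (c (l 16711824) (l 16693080))) (a (l 16681688) (l 16660216))) (a (c (l 16658408) (l 16684592)) (a (l 16725440) (l 16662856)))) (a (a (c (l 16688320) (l 16696048)) (b (l 16704088) (l 16703944))) (b (a (l 16684144) (l 16664440)) (l 16758344))))) (b (a (b (b (c (l 16657616) (l 16683768)) (c (a (l 16727816) (l 16710744)) (l 16661312))) (a (c (b (l 16725392) (l 16720752)) (l 16658360)) (b (l 16699616) (l 16695928)))) (b (b (l 16758000) (c (l 16685584) (l 16659816))) (b (c (l 16683360)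 (l 16658048)) (c (l 16678744) (l 16655624))))) (b (a (b (a (c (l 16713632) (l 16706208)) (l 16732608)) (c (a (l 16705424) (l 16687376)) (l 155188943319))) (c (b (l 16650592) (l 16641392)) (b (l 16652544) (l 16648344)))) (b (a (a (l 1) (l 148746488375)) (c (a (l 16659752) (l 16643312)) (l 16579848))) (a (l 1) (c (a (l 16648584) (l 16631216)) (l 16593832))))))), by decide +kernel⟩

def k3_pm_112_s : ∃ t, chk3 f_pm_112_s t 2 3 1 = true :=
  ⟨(a (l 1) (b (a (l 1) (b (a (l 1) (a (l 1) (b (b (l 94522482679) (l 1)) (l 1)))) (l 1))) (l 1))), by decide +kernel⟩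

def k4_pm_112_s : ∃ t, chk3 f_pm_112_s t 6 2 1 = true :=
  ⟨(a (b (b (b (b (a (c (l 16594008) (l 16585784)) (a (l 16546560) (a (l 16524520) (l 16509792)))) (a (a (l 16614944) (l 16586968)) (c (l 16550200) (l 16537112)))) (b (a (c (l 16619096) (l 16601440)) (c (l 16563368) (l 16546672))) (a (a (l 16631624) (l 16606216)) (c (l 16576768) (l 16555216))))) (b (a (c (a (l 16654264) (l 16631744)) (b (l 16610968) (l 16614008))) (a (b (l 16588864) (l 16596352)) (b (l 16563024) (l 16571896)))) (a (c (a (l 16640024) (l 16642656)) (b (l 16615888) (l 16617144))) (c (b (l 16609072) (l 16615552)) (b (l 16570896) (l 16573416)))))) (b (a (b (b (a (l 16645528) (l 16626728)) (c (l 16652784) (l 16617192))) (c (b (l 16651032) (l 16646720)) (b (l 16615960) (l 16613952)))) (b (c (b (l 16619128) (l 16620656)) (b (l 16574648) (l 16575112))) (b (a (l 16606872) (l 16589104)) (l 16595216)))) (b (b (a (c (l 16639664) (l 16611176)) (l 16590704)) (a (c (l 16630416) (l 16607184)) (l 16584296))) (a (c (b (l 16619416) (l 16607224)) (b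 (l 16601712) (l 16594784))) (c (l 16645896) (l 16600840)))))) (a (b (b (b (c (b (a (l 16494168) (l 6)) (a (l 16507944) (l 16479920))) (b (l 16506872) (l 16477264))) (c (b (l 16507576) (l 16521344)) (b (l 16489080) (l 16499856)))) (b (b (l 16564424) (l 16575432)) (c (b (l 16560424) (l 16571008)) (l 16630952)))) (b (b (c (b (l 16579784) (l 16585544)) (l 16553576)) (c (l 16650008) (l 16533560))) (a (b (l 16604160) (l 16588416)) (b (a (l 16549800) (l 16604800)) (l 16551376))))) (b (b (l 6) (l 6)) (l 6)))), by decide +kernel⟩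

def k5_pm_112_s : ∃ t, chk3 f_pm_112_s t 6 3 1 = true :=
  ⟨(b (b (a (b (a (c (b (l 16699120) (l 46741129479)) (b (l 16565464) (l 16555696))) (c (b (l 16563880) (l 16550560)) (b (l 16547216) (l 16537496)))) (b (a (c (a (l 1) (l 16560968)) (l 134787573799)) (a (l 16582432) (l 16523496))) (a (l 1) (c (a (l 16531784) (l 16515952)) (l 16577848))))) (a (b (b (l 16522952) (l 16574208)) (c (b (l 16507792) (l 16494056)) (b (l 16489304) (l 16477608)))) (l 6))) (a (a (l 1) (a (l 1) (a (l 1) (b (b (l 16493312) (l 1)) (l 1))))) (a (a (b (c (b (l 16487136) (l 16472848)) (l 16530928)) (l 1)) (l 6)) (l 6)))) (b (a (l 1) (l 6)) (l 1))), by decide +kernel⟩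

def k6_pm_112_s : ∃ t, chk3 f_pm_112_s t 7 1 1 = true :=
  ⟨(b (b (l 6) (l 6)) (l 6)), by decide +kernel⟩

theorem s7_pm_112_s : ∃ t, chk3 f_pm_112_s t 6 1 1 = true := ex3_b k4_pm_112_s k5_pm_112_s

theorem s8_pm_112_s : ∃ t, chk3 f_pm_112_s t 3 1 1 = true := ex3_a s7_pm_112_s k6_pm_112_s

theorem s9_pm_112_s : ∃ t, chk3 f_pm_112_s t 5 2 1 = true := ex3_a k1_pm_112_s k2_pm_112_s

theorem s10_pm_112_s : ∃ t, chk3 f_pm_112_s t 2 2 1 = true := ex3_a k0_pm_112_s s9_pm_112_s

theorem s11_pm_112_s : ∃ t, chk3 f_pm_112_s t 2 1 1 = true := ex3_b s10_pm_112_s k3_pm_112_s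

theorem s12_pm_112_s : ∃ t, chk3 f_pm_112_s t 1 1 1 = true := ex3_a s11_pm_112_s s8_pm_112_s

theorem c_pm_112_s : CertNE 536870912 536870912 536870912 536870912 858993459 64424510 3 eng mog cd0q1 cd0q1 pd2 true true false .dn 1 1 2
    ndB0q1 ndB0q1 pcB2 cut_pm_112_s Ext.none :=
  certNE2 (fam := true) (s1 := true) (s2 := false) (a := 1) (b := 1) (c := 2) (cn := .dn) (n1 := ndB0q1) (n2 := ndB0q1) (pc := pcB2) (cut := cut_pm_112_s) (xt := Ext.none) (P1 := 536870912) (W1 := 536870912) (P2 := 536870912) (W2 := 536870912) (P3 := 858993459) (W3 := 64424510) (N0 := 3) (En := eng) (mo := mog) (C1 := cd0q1) (C2 := cd0q1) (C3 := pd2)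
    rfl (fun _ => rfl) s12_pm_112_s

noncomputable def cut_pm_112_t : Cut := Cut.of [[⟨3, 0, 0, 2845415833⟩]]

noncomputable def f_pm_112_t : ℕ → ℕ → ℕ → ℕ → Bool := onCell 536870912 536870912 1073741824 536870912 858993459 64424510
    (rowNE 3 eng mog cd0q1 cd0q1 pd2 1 true true false .dn 1 1 2 (qsf 536870912 536870912 536870912 536870912 2) ndB0q1 ndB0q1 pcB2 cut_pm_112_t Ext.none)

def k0_pm_112_t : ∃ t, chk3 f_pm_112_t t 1 1 1 = true :=
  ⟨(l 6), by decide +kernel⟩

theorem c_pm_112_t : CertNE 536870912 536870912 536870912 536870912 858993459 64424510 3 eng mog cd0q1 cd0q1 pd2 true true false .dn 1 1 2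
    ndB0q1 ndB0q1 pcB2 cut_pm_112_t Ext.none :=
  certNE1 (fam := true) (s1 := true) (s2 := false) (a := 1) (b := 1) (c := 2) (cn := .dn) (n1 := ndB0q1) (n2 := ndB0q1) (pc := pcB2) (cut := cut_pm_112_t) (xt := Ext.none) (P1 := 536870912) (W1 := 536870912) (P2 := 536870912) (W2 := 536870912) (P3 := 858993459) (W3 := 64424510) (N0 := 3) (En := eng) (mo := mog) (C1 := cd0q1) (C2 := cd0q1) (C3 := pd2)
    rfl (fun _ => rfl) k0_pm_112_t

noncomputable def cut_pm_113_s : Cut := Cut.of [[⟨4, 0, 0, 1449551462⟩], [⟨0, 1, 0, 67108864⟩, ⟨1, 1, 0, 67108864⟩, ⟨2, 2, 0, 16777216⟩], [⟨0, 0, 1, 20971520⟩, ⟨1, 1, 0, 16777216⟩, ⟨2, 1, 1, 20971520⟩], [⟨0, 1, 0, 16777216⟩, ⟨1, 0, 1, 20971520⟩, ⟨2, 1, 1, 20971520⟩]]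

noncomputable def f_pm_113_s : ℕ → ℕ → ℕ → ℕ → Bool := onCell 1610612736 536870912 536870912 536870912 858993459 64424510
    (rowNE 3 eng mog cd0q1 cd0q1 pd3 2 true true false .nn 1 1 3 (qsf 536870912 536870912 536870912 536870912 3) ndB0q1 ndB0q1 pcB3 cut_pm_113_s Ext.none)

def k0_pm_113_s : ∃ t, chk3 f_pm_113_s t 1 1 1 = true :=
  ⟨(a (b (a (l 6) (l 6)) (l 6)) (l 6)), by decide +kernel⟩

theorem c_pm_113_s : CertNE 536870912 536870912 536870912 536870912 858993459 64424510 3 eng mog cd0q1 cd0q1 pd3 true true false .nn 1 1 3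
    ndB0q1 ndB0q1 pcB3 cut_pm_113_s Ext.none :=
  certNE2 (fam := true) (s1 := true) (s2 := false) (a := 1) (b := 1) (c := 3) (cn := .nn) (n1 := ndB0q1) (n2 := ndB0q1) (pc := pcB3) (cut := cut_pm_113_s) (xt := Ext.none) (P1 := 536870912) (W1 := 536870912) (P2 := 536870912) (W2 := 536870912) (P3 := 858993459) (W3 := 64424510) (N0 := 3) (En := eng) (mo := mog) (C1 := cd0q1) (C2 := cd0q1) (C3 := pd3)
    rfl (fun _ => rfl) k0_pm_113_s

end Pool.Agent.Strip051.G.I8000_8600.Tab.CS.BA00

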