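import Pool.Agent.Strip051.G.I8000_8600.Tab

/-! # Certificates B18 (generated) -/

set_option linter.all false
set_option maxRecDepth 100000

namespace Pool.Agent.Strip051.G.I8000_8600.Tab.C.BB02

open Pool.Agent.Strip051.PB Pool.Agent.Strip051.PB.T
open Pool.Agent.Strip051.G.I8000_8600.Tab

noncomputable def f_pm_012 : ℕ → ℕ → ℕ → ℕ → Bool := onCell 0 536870912 1073741824 536870912 858993459 64424510
    (rowB 3 eng mog cd0q0 cd2q2 pd1 0 false true false .pnp 0 1 2 (qsf 0 536870912 1073741824 536870912 1) ndB0q0 ndB2q2 pcB1 Cut.none Ext.none)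

def k0_pm_012 : ∃ t, chk3 f_pm_012 t 2 1 1 = true :=
  ⟨(b (l 4) (l 4)), by decide +kernel⟩

def k1_pm_012 : ∃ t, chk3 f_pm_012 t 6 2 1 = true :=
  ⟨(a (b (a (l 4) (b (a (b (b (l 16261520) (l 16250592)) (l 4)) (b (c (l 16302864) (l 16302624)) (c (l 16310112) (l 16299376)))) (l 4))) (l 4)) (a (b (b (b (b (c (l 16264152) (l 16252512)) (l 16291080)) (c (l 16281536) (l 16273200))) (b (c (l 13118792807) (b (l 16204952) (l 16155736))) (c (a (l 16124440) (l 16112912)) (a (l 16082728) (l 16073440))))) (a (l 4) (b (b (b (l 16019280) (l 15966776)) (l 4)) (l 4)))) (b (b (c (b (l 16241168) (l 16245040)) (b (l 16236232) (l 16242640))) (b (c (l 16178744) (l 16160712)) (c (l 16100056) (l 16066008)))) (b (b (c (l 16007696) (l 15965560)) (a (c (l 15907736) (l 15854400)) (l 15883240))) (b (a (c (l 15800176) (l 15729872)) (c (l 15803640) (l 15735592))) (a (l 4) (b (l 15680968) (l 15680888)))))))), by decide +kernel⟩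

def k2_pm_012 : ∃ t, chk3 f_pm_012 t 7 2 1 = true :=
  ⟨(b (a (b (b (a (c (l 16206272) (l 16197440)) (c (l 16170896) (l 16158160))) (a (c (l 16208296) (l 16213104)) (l 16178336))) (b (a (l 16149320) (l 16128488)) (a (c (l 16084048) (l 16060216)) (c (l 16068760) (l 16057240))))) (b (b (a (c (l 16134024) (l 16118792)) (c (l 16094768) (l 16080504))) (a (l 16146720) (l 16116216))) (a (b (l 15983176) (c (l 16055400) (l 16055264))) (b (c (l 16083040) (l 16099080)) (c (l 16109936) (l 16051816)))))) (a (b (a (b (c (l 16002712) (l 15967640)) (c (l 15911088) (l 15864032))) (b (c (l 15998920) (l 15973776)) (l 16003632))) (a (b (c (l 15812704) (l 15749248)) (c (l 15706112) (l 15624520))) (b (c (l 15826816) (l 15773328)) (c (l 15730128) (l 15657720))))) (b (a (b (c (l 15998160) (l 15982144)) (c (l 15927480) (l 15897744))) (b (c (l 16002808) (l 15987784)) (l 16098576))) (a (b (c (l 15847680) (l 15801608)) (c (l 15761672) (l 15695256))) (c (l 16012552) (b (l 15828896) (l 15733640))))))), by decide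 +kernel⟩

def k3_pm_012 : ∃ t, chk3 f_pm_012 t 3 3 1 = true :=
  ⟨(a (b (a (l 4) (a (l 4) (b (a (l 4) (a (l 4) (b (b (l 15555984) (l 15489136)) (l 4)))) (l 4)))) (l 4)) (b (a (b (a (c (b (l 15633728) (b (l 15502200) (l 15439704))) (b (a (l 15481168) (l 15499952)) (a (l 15376864) (l 15358192)))) (b (c (a (l 15614816) (l 15633264)) (l 15552480)) (c (a (l 15501072) (l 15526920)) (a (l 15382808) (l 15411528))))) (a (b (c (a (l 15333120) (l 15354088)) (a (l 15178392) (l 15207760))) (c (a (l 481268288087) (b (l 15259752) (l 15192416))) (b (l 72709342071) (l 72709169815)))) (c (b (a (b (l 15411736) (l 15351824)) (l 15418504)) (a (b (l 15289264) (l 15232712)) (l 15302312))) (b (a (l 15237624) (l 15273824)) (a (b (l 15127592) (l 15051264)) (l 15134848)))))) (a (a (b (b (l 15614984) (l 15503680)) (c (b (l 15457120) (l 15341376)) (b (l 15311272) (l 15182856)))) (b (b (l 15641328) (l 15535400)) (b (l 15634680) (l 15312752)))) (b (b (c (l 15727656) (l 15629376)) (c (l 15641720) (l 15521440)))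 (b (a (l 15463992) (l 15504776)) (c (l 15450040) (l 15304736)))))) (b (a (a (a (l 4) (b (c (b (l 15127824) (l 15059552)) (b (l 14929400) (l 14850560))) (c (l 14955344) (l 14734032)))) (c (b (a (l 15135432) (l 15184208)) (l 157400661959)) (b (a (l 14941968) (l 14995784)) (l 154715832151)))) (a (b (c (l 15253664) (l 15077896)) (c (l 15136336) (l 14943344))) (b (c (l 15346752) (l 15187720)) (c (l 15239656) (l 15064056))))) (a (a (l 2) (b (c (l 141294212103) (l 134314465431)) (l 2))) (a (b (c (l 164916743543) (l 14845272)) (c (l 167600874951) (l 158473628919))) (b (c (l 15129264) (l 14934608)) (c (l 175117283783) (l 14800288)))))))), by decide +kernel⟩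

theorem s4_pm_012 : ∃ t, chk3 f_pm_012 t 3 2 1 = true := ex3_a k1_pm_012 k2_pm_012

theorem s5_pm_012 : ∃ t, chk3 f_pm_012 t 3 1 1 = true := ex3_b s4_pm_012 k3_pm_012

theorem s6_pm_012 : ∃ t, chk3 f_pm_012 t 1 1 1 = true := ex3_a k0_pm_012 s5_pm_012

theorem c_pm_012 : CertB 0 536870912 1073741824 536870912 858993459 64424510 3 eng mog cd0q0 cd2q2 pd1 false true false .pnp 0 1 2
    ndB0q0 ndB2q2 pcB1 Cut.none Ext.none :=
  certB0 (fam := false) (s1 := true) (s2 := false) (a := 0) (b := 1) (c := 2) (cn := .pnp) (n1 := ndB0q0) (n2 := ndB2q2) (pc := pcB1) (cut := Cut.none) (xt := Ext.none) (P1 := 0) (W1 := 536870912) (P2 := 1073741824) (W2 := 536870912) (P3 := 858993459) (W3 := 64424510) (N0 := 3) (En := eng) (mo := mog) (C1 := cd0q0) (C2 := cd2q2) (C3 := pd1)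
    rfl s6_pm_012

noncomputable def f_pm_022 : ℕ → ℕ → ℕ → ℕ → Bool := onCell 1073741824 536870912 1073741824 536870912 858993459 64424510
    (rowB 3 eng mog cd0q0 cd2q2 pd2 2 false true false .pp 0 2 2 (qsf 0 536870912 1073741824 536870912 2) ndB0q0 ndB2q2 pcB2 Cut.none Ext.none)

def k0_pm_022 : ∃ t, chk3 f_pm_022 t 1 1 1 = true :=
  ⟨(a (b (l 4) (a (b (l 4) (a (b (b (a (a (b (l 4) (c (l 15095312) (l 14891760))) (l 4)) (l 4)) (a (c (a (b (l 15070192) (l 15058128)) (l 15121984)) (a (l 14860128) (l 14923472))) (a (c (l 15189288) (l 14997016)) (l 4)))) (a (b (c (a (l 15217400) (l 15094080)) (a (l 14848040) (l 14896760))) (c (a (l 15159008) (l 15091264)) (a (l 14854240) (l 14897544)))) (b (c (a (l 15142112) (l 15199288)) (a (l 14948984) (l 15010792))) (c (a (l 15131624) (l 15174680)) (a (l 14942360) (l 14988568)))))) (b (l 4) (a (b (c (l 15299056) (l 15118928)) (c (l 15293392) (l 15070464))) (b (l 4) (a (l 15255872) (l 4))))))) (l 4))) (l 4)), by decide +kernel⟩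

theorem c_pm_022 : CertB 0 536870912 1073741824 536870912 858993459 64424510 3 eng mog cd0q0 cd2q2 pd2 false true false .pp 0 2 2
    ndB0q0 ndB2q2 pcB2 Cut.none Ext.none :=
  certB2 (fam := false) (s1 := true) (s2 := false) (a := 0) (b := 2) (c := 2) (cn := .pp) (n1 := ndB0q0) (n2 := ndB2q2) (pc := pcB2) (cut := Cut.none) (xt := Ext.none) (P1 := 0) (W1 := 536870912) (P2 := 1073741824) (W2 := 536870912) (P3 := 858993459) (W3 := 64424510) (N0 := 3) (En := eng) (mo := mog) (C1 := cd0q0) (C2 := cd2q2) (C3 := pd2)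
    rfl (fun _ => rfl) k0_pm_022

noncomputable def f_pm_023 : ℕ → ℕ → ℕ → ℕ → Bool := onCell 0 536870912 0 1230186008 858993459 64424510
    (rowB 3 eng mog cd0q0 cd2q3 pd2 0 false true false .up 0 2 3 (qsf 0 536870912 0 1230186008 2) ndB0q0 ndB2q3 pcB2 Cut.none Ext.none)

def k0_pm_023 : ∃ t, chk3 f_pm_023 t 1 1 1 = true :=
  ⟨(a (b (l 2) (l 4)) (b (a (l 2) (b (a (l 2) (b (l 16167304) (l 16099112))) (a (b (a (l 2) (l 16178480)) (a (l 15935784) (l 16096976))) (b (a (l 16144424) (l 16110080)) (a (l 16066672) (l 16036760)))))) (b (b (a (l 4) (a (b (a (l 16045904) (l 16021720)) (a (l 15984248) (l 15956064))) (b (c (l 16002576) (l 15954808)) (a (l 15922440) (l 15890248))))) (a (l 4) (a (b (a (l 15917112) (l 15883096)) (a (l 15841976) (b (l 15822312) (l 15775976)))) (b (a (l 15844176) (l 15911800)) (a (b (l 15778680) (l 15728872)) (b (l 15737112) (l 15683856))))))) (a (l 4) (b (a (b (a (l 4) (b (l 15725760) (l 15671224))) (a (l 4) (b (l 15611584) (l 15547392)))) (b (a (b (l 15674912)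 (l 15616248)) (b (l 15627056) (l 15566072))) (a (b (l 15553416) (l 15549280)) (b (l 15500808) (c (l 15480536) (l 15376312)))))) (a (b (a (l 4) (b (c (l 15534392) (l 15418808)) (c (l 15462728) (l 15338152)))) (a (b (l 4) (c (l 15522760) (l 15339168))) (b (c (l 15382848) (l 15247976)) (c (l 15376032) (l 15144584))))) (b (a (b (c (l 15468120) (l 15353872)) (c (l 15391104) (l 15266992))) (b (c (l 15406544) (l 15292272)) (c (l 15324000) (l 15197536)))) (b (a (c (l 15304488) (l 15168264)) (c (a (l 15250672) (l 15217544)) (l 15091264))) (a (c (b (l 15234344) (l 15184520)) (b (l 15086568) (l 15027792))) (c (b (l 15161248) (a (l 15127952) (l 15093856))) (b (l 15004664) (l 14942928)))))))))))), by decide +kernel⟩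

theorem c_pm_023 : CertB 0 536870912 0 1230186008 858993459 64424510 3 eng mog cd0q0 cd2q3 pd2 false true false .up 0 2 3
    ndB0q0 ndB2q3 pcB2 Cut.none Ext.none :=
  certB0 (fam := false) (s1 := true) (s2 := false) (a := 0) (b := 2) (c := 3) (cn := .up) (n1 := ndB0q0) (n2 := ndB2q3) (pc := pcB2) (cut := Cut.none) (xt := Ext.none) (P1 := 0) (W1 := 536870912) (P2 := 0) (W2 := 1230186008) (P3 := 858993459) (W3 := 64424510) (N0 := 3) (En := eng) (mo := mog) (C1 := cd0q0) (C2 := cd2q3) (C3 := pd2)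
    rfl k0_pm_023

noncomputable def f_pm_033 : ℕ → ℕ → ℕ → ℕ → Bool := onCell 1610612736 536870912 0 1230186008 858993459 64424510
    (rowB 3 eng mog cd0q0 cd2q3 pd3 2 false true false .pnn 0 3 3 (qsf 0 536870912 0 1230186008 3) ndB0q0 ndB2q3 pcB3 Cut.none Ext.none)

def k0_pm_033 : ∃ t, chk3 f_pm_033 t 1 1 1 = true :=
  ⟨(b (a (a (b (a (a (l 16499008) (l 16439216)) (a (l 16382080) (l 16327288))) (a (b (a (l 16345008) (l 16295096)) (a (l 16170216) (l 16142800))) (b (a (l 16254504) (l 16224344)) (a (l 16124632) (l 4))))) (b (a (a (l 16280464) (l 16239808)) (l 4)) (l 4))) (l 4)) (b (a (b (a (a (b (a (l 4) (l 4)) (l 4)) (l 4)) (l 4)) (l 4)) (l 4)) (l 4))), by decide +kernel⟩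

theorem c_pm_033 : CertB 0 536870912 0 1230186008 858993459 64424510 3 eng mog cd0q0 cd2q3 pd3 false true false .pnn 0 3 3
    ndB0q0 ndB2q3 pcB3 Cut.none Ext.none :=
  certB2 (fam := false) (s1 := true) (s2 := false) (a := 0) (b := 3) (c := 3) (cn := .pnn) (n1 := ndB0q0) (n2 := ndB2q3) (pc := pcB3) (cut := Cut.none) (xt := Ext.none) (P1 := 0) (W1 := 536870912) (P2 := 0) (W2 := 1230186008) (P3 := 858993459) (W3 := 64424510) (N0 := 3) (En := eng) (mo := mog) (C1 := cd0q0) (C2 := cd2q3) (C3 := pd3)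
    rfl (fun _ => rfl) k0_pm_033

noncomputable def f_pm_101 : ℕ → ℕ → ℕ → ℕ → Bool := onCell 536870912 536870912 536870912 536870912 858993459 64424510
    (rowB 3 eng mog cd0q1 cd2q1 pd0 0 false true false .npn 1 0 1 (qsf 536870912 536870912 536870912 536870912 0) ndB0q1 ndB2q1 pcB0 Cut.none Ext.none)

def k0_pm_101 : ∃ t, chk3 f_pm_101 t 1 1 1 = true :=
  ⟨(l 4), by decide +kernel⟩

theorem c_pm_101 : CertB 536870912 536870912 536870912 536870912 858993459 64424510 3 eng mog cd0q1 cd2q1 pd0 false true false .npn 1 0 1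
    ndB0q1 ndB2q1 pcB0 Cut.none Ext.none :=
  certB0 (fam := false) (s1 := true) (s2 := false) (a := 1) (b := 0) (c := 1) (cn := .npn) (n1 := ndB0q1) (n2 := ndB2q1) (pc := pcB0) (cut := Cut.none) (xt := Ext.none) (P1 := 536870912) (W1 := 536870912) (P2 := 536870912) (W2 := 536870912) (P3 := 858993459) (W3 := 64424510) (N0 := 3) (En := eng) (mo := mog) (C1 := cd0q1) (C2 := cd2q1) (C3 := pd0)
    rfl k0_pm_101

noncomputable def f_pm_102 : ℕ → ℕ → ℕ → ℕ → Bool := onCell 536870912 536870912 0 536870912 858993459 64424510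
    (rowB 3 eng mog cd0q1 cd2q2 pd0 1 false true false .npp 1 0 2 (qsf 536870912 536870912 1073741824 536870912 0) ndB0q1 ndB2q2 pcB0 Cut.none Ext.none)

def k0_pm_102 : ∃ t, chk3 f_pm_102 t 2 2 1 = true :=
  ⟨(a (l 1) (b (l 1) (b (l 1) (a (l 1) (a (l 1) (b (l 1) (b (l 1) (c (l 532607540375) (l 584147334423))))))))), by decide +kernel⟩

def k1_pm_102 : ∃ t, chk3 f_pm_102 t 4 3 1 = true :=
  ⟨(b (b (l 1) (a (l 1) (a (l 1) (b (l 1) (c (l 503080001319) (l 409127489543)))))) (b (a (a (l 1) (b (l 1) (a (l 1) (c (l 414496458919) (l 121901090263))))) (b (a (b (l 1) (c (l 399464000663) (l 124048430823))) (c (c (l 248066540343) (l 204042957047)) (b (l 15844024) (l 15864680)))) (c (a (b (l 268467708519) (l 16069464)) (b (l 15943536) (l 15955736))) (a (c (l 15913624) (l 15870896)) (b (l 15874704) (l 15877784)))))) (c (a (b (a (l 516501956631) (b (l 274910278615) (l 231423717351))) (a (a (l 318933606535) (l 258804193623)) (c (l 16034920) (l 16022664)))) (b (a (b (l 15981464) (l 15991448)) (l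 15966200)) (a (l 16001080) (l 15970088)))) (a (b (a (a (l 1) (l 149281483975)) (a (l 137470443255) (l 15943608))) (a (c (l 141228598295) (l 147134182983)) (b (l 15969424) (l 15974152)))) (b (a (c (l 15938888) (l 15868432)) (l 15875392)) (a (l 15916576) (c (l 15892928) (l 15886584)))))))), by decide +kernel⟩

def k2_pm_102 : ∃ t, chk3 f_pm_102 t 5 3 1 = true :=
  ⟨(a (b (b (b (l 1) (a (l 1) (c (b (l 1) (l 561061674759)) (l 545492722135)))) (b (a (a (l 1) (c (l 525628408007) (l 433286633367))) (c (a (l 351682554295) (l 322691501927)) (b (l 303363849895) (l 15818680)))) (a (c (a (l 339334525815) (l 266320064183)) (b (l 217464458919) (l 15837752))) (c (c (l 15890880) (l 15889856)) (b (l 15839784) (l 15849496)))))) (b (c (b (a (c (l 15922480) (l 15911680)) (l 15929400)) (a (l 15943112) (l 15938800))) (b (a (b (l 15851080) (l 15855896)) (l 15808912)) (a (c (l 15882320) (l 15821816)) (b (l 15839528) (l 15824904))))) (b (c (a (l 15947928) (b (l 15937368) (l 15935248))) (a (c (l 15869320)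 (l 15882128)) (b (l 15804248) (l 15778408)))) (b (a (a (l 15895224) (l 15875512)) (c (l 15931968) (l 15817728))) (a (a (l 15884120) (l 15860704)) (a (l 15817616) (l 15833840))))))) (a (b (b (a (b (l 1) (c (l 359198751511) (l 371546496727))) (b (c (l 514890780807) (l 601863883991)) (c (l 336113286087) (l 301216398071)))) (b (c (b (l 15852976) (l 15881240)) (a (l 15835968) (l 15857600))) (c (l 15922440) (l 15823072)))) (b (b (c (l 15940640) (b (l 15857016) (l 15842672))) (c (b (l 15941272) (l 16026440)) (b (l 15821296) (l 15965880)))) (b (b (a (l 15840432) (l 15864128)) (c (l 15940064) (l 15806168))) (c (l 15945880) (l 15766288))))) (b (b (b (c (a (l 380673551911) (l 355440613719)) (a (l 454224698727) (l 400000743879))) (c (b (l 15848840) (l 15862616)) (b (l 15821136) (l 15865224)))) (b (c (l 15921712) (l 15850816)) (b (c (l 15949320) (l 15892264)) (l 15882400)))) (b (b (a (b (l 15911888) (l 15900728)) (b (l 15919840) (a (l 15905200) (l 15917760)))) (c (a (l 15957480) (l 15980904))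 (a (l 15870768) (l 15833008)))) (c (b (l 15976424) (l 15986120)) (b (l 15818552) (l 15827176))))))), by decide +kernel⟩

def k3_pm_102 : ∃ t, chk3 f_pm_102 t 6 2 1 = true :=
  ⟨(b (a (l 1) (b (l 1) (b (l 1) (b (l 1) (a (l 1) (b (l 1) (a (l 1) (c (l 495027447751) (l 557840958871))))))))) (b (b (a (l 1) (b (a (l 1) (a (b (l 1) (l 533144991703)) (b (l 519186350183) (l 474626054583)))) (c (a (l 523481278663) (b (l 485900699863) (l 474626385223))) (a (l 578241804695) (b (l 16015232) (l 16020112)))))) (a (a (l 1) (b (l 1) (c (l 532070996631) (l 572872777575)))) (b (a (c (l 462278034983) (l 527776057255)) (c (l 16089096) (l 16074208))) (a (c (l 439729408567) (l 514891235511)) (c (l 16089592) (l 16054048)))))) (a (b (a (b (l 1) (c (l 529923310503) (l 554082175175))) (b (c (l 435971234599) (l 507911762855)) (c (l 418254501815) (l 496100707559)))) (a (b (c (l 413959482231) (l 485900050535)) (c (l 388189696183) (l 408590505127))) (b (c (l 16029952) (a (l 15834592) (l 15905896))) (c (l 15936488)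 (l 15897224))))) (b (a (b (c (l 16033784) (l 16023728)) (c (l 16033376) (l 15980872))) (b (c (l 16119368) (l 16085792)) (a (l 16090472) (l 16167960)))) (a (b (c (l 16024856) (l 16005304)) (c (l 16007544) (l 16050376))) (b (c (a (l 16101744) (l 16207848)) (l 16096088)) (a (l 16149936) (l 16233912)))))))), by decide +kernel⟩

def k4_pm_102 : ∃ t, chk3 f_pm_102 t 14 2 1 = true :=
  ⟨(b (b (a (l 1) (b (l 1) (a (l 1) (b (l 1) (c (l 603475885799) (l 728029754007)))))) (b (a (b (l 1) (a (l 1) (c (l 597570110551) (l 689911659351)))) (b (a (c (l 610992039015) (l 723734709335)) (c (l 519724059815) (l 583611534711))) (a (c (l 479995445655) (l 548714757463)) (c (l 16362008) (l 16314928))))) (b (a (a (c (l 532071686423) (l 602401413527)) (c (l 440266812935) (l 529387336519))) (a (c (l 16282624) (l 16225496)) (c (l 16311192) (l 16282544)))) (a (b (c (l 436508715271) (l 462814968503)) (c (a (l 16190736) (l 16191416)) (l 419328358423))) (b (a (l 16218648) (a (l 16253488) (l 16283336))) (a (c (l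 16219496) (l 16185488)) (c (l 16282136) (l 16318024)))))))) (b (b (a (c (b (b (a (l 16163024) (l 16188608)) (l 16174088)) (b (l 16174864) (l 16178016))) (b (a (l 16086728) (l 16120968)) (a (l 16102744) (l 16166792)))) (b (a (b (l 16208296) (c (l 16228536) (l 16212584))) (b (a (l 16253608) (l 16310200)) (l 16309024))) (a (b (c (l 16234584) (l 16234568)) (l 16266008)) (b (l 16323016) (l 16332264))))) (a (b (a (l 16145544) (c (l 16208328) (l 16196888))) (c (a (l 16177128) (l 16250408)) (l 16218752))) (b (a (l 16301792) (c (l 16335048) (l 16352464))) (a (c (l 16315792) (l 16334896)) (l 16351256))))) (b (a (a (b (l 16196936) (l 16272072)) (c (l 16324160) (l 16324568))) (b (a (l 16337592) (l 16356776)) (a (l 16345472) (l 16360216)))) (a (b (a (l 16286704) (l 16320176)) (a (l 16274928) (l 16302776))) (c (l 16557896) (b (l 16344064) (l 16321400))))))), by decide +kernel⟩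

def k5_pm_102 : ∃ t, chk3 f_pm_102 t 15 4 1 = true :=
  ⟨(b (a (b (a (l 1) (a (l 1) (b (l 1) (b (l 1) (l 600254586951))))) (b (a (b (l 1) (c (l 16449184) (l 689375027175))) (b (c (l 16461736) (l 16401352)) (c (l 16466848) (l 16417624)))) (a (c (l 499322984807) (l 557841790487)) (c (b (l 16473680) (l 16482856)) (l 16467016))))) (b (a (a (b (l 1) (b (b (l 1) (l 16434240)) (l 16441832))) (b (a (l 1) (c (l 444562110423) (l 551936145623))) (b (b (l 16441040) (l 16446568)) (l 16456320)))) (b (c (a (l 425771662503) (l 410202421943)) (a (b (l 536903728439) (l 16416928)) (b (l 16416608) (l 16439168)))) (b (a (l 16458840) (l 16482344)) (a (l 16485016) (l 16499960))))) (a (b (c (l 16486504) (a (l 16442208) (l 16472072))) (a (c (l 16507792) (l 16494936)) (b (l 16525032) (l 16532352)))) (b (a (b (l 16504024) (l 16605064)) (b (c (l 16520016) (l 16508232)) (l 16516536))) (a (c (l 16522584) (l 16524304)) (l 16515200)))))) (b (a (a (b (c (l 16437400) (l 16399840)) (c (l 16394352) (l 16354368)))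 (b (b (l 16576288) (a (l 16444704) (l 16484936))) (a (b (l 16434000) (l 16429544)) (l 16432672)))) (b (a (c (l 16458568) (l 16463104)) (l 16406632)) (a (l 16558176) (l 16422784)))) (b (a (a (c (a (l 16342576) (l 16376344)) (l 16352760)) (l 16405400)) (a (l 16491768) (c (l 16393120) (l 16422688)))) (a (a (b (l 16346016) (l 16337968)) (b (l 16373040) (l 16358344))) (b (a (l 16379416) (l 16383352)) (a (c (l 16354448) (l 16382344)) (c (l 16360248) (l 16389808)))))))), by decide +kernel⟩

def k6_pm_102 : ∃ t, chk3 f_pm_102 t 15 5 1 = true :=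
  ⟨(b (b (a (b (a (b (l 16343216) (l 16348376)) (b (l 16359944) (l 16362504))) (a (b (l 16352608) (l 16356176)) (l 16513448))) (b (a (b (l 16367792) (l 16369760)) (c (l 16367448) (l 16387744))) (a (l 16456896) (c (l 16376464) (l 16384072))))) (a (b (a (l 16361104) (l 16370096)) (a (l 16365216) (l 16372600))) (a (b (l 16522464) (l 16377480)) (b (l 16381496) (l 16382928))))) (c (b (a (b (l 16373016) (l 16374000)) (b (l 16376784) (l 16372864))) (a (l 16381576) (b (l 16366112) (l 16357080)))) (b (a (b (l 16372528) (l 16373392)) (b (l 16387680) (l 16391560))) (a (l 16341888) (b (l 16390416) (l 16384840)))))), by decide +kernel⟩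

def k7_pm_102 : ∃ t, chk3 f_pm_102 t 6 3 1 = true :=
  ⟨(b (b (a (b (a (c (b (l 15874224) (l 15880040)) (b (l 15819096) (l 15864072))) (c (l 15925976) (c (l 15964656) (l 15974136)))) (a (c (l 15925352) (l 15909136)) (b (a (l 15992616) (c (l 16041384) (l 16037224))) (a (a (l 15998488) (l 16018344)) (l 16045344))))) (b (a (c (c (l 16066312) (l 16076488)) (c (l 16081080) (l 16102024))) (b (a (l 16182352) (l 16227224)) (a (l 16179120) (l 16217144)))) (a (a (b (l 16086640) (l 16087944)) (b (l 16132336) (l 16127296))) (c (l 16214416) (l 16155880))))) (a (b (a (c (b (l 15974136) (l 15989464)) (b (l 15943872) (a (l 15926616) (l 15948040)))) (a (b (l 16009920) (l 16007368)) (c (l 16077952) (l 16008032)))) (a (b (a (l 15952560) (l 15972312)) (a (l 15943480) (l 15971432))) (c (l 16070152) (l 15969424)))) (a (b (c (l 16138864) (l 16059808)) (c (l 16136224) (l 16044416))) (b (l 16379584) (l 16306288))))) (b (b (a (a (c (l 16012168) (l 16056144)) (c (l 16072568) (l 15959328))) (a (l 16192040)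 (l 16238808))) (a (a (c (l 16018624) (l 15883408)) (c (l 16074448) (l 15958656))) (a (l 16109016) (l 16176616)))) (b (a (a (c (l 16024672) (l 15887400)) (l 16045688)) (a (l 16094120) (l 16160872))) (a (a (l 16116696) (l 16036000)) (a (l 16104912) (l 16169760)))))), by decide +kernel⟩

def k8_pm_102 : ∃ t, chk3 f_pm_102 t 7 3 1 = true :=
  ⟨(b (a (b (a (b (c (l 16287592) (l 16249440)) (c (l 16269528) (l 16220224))) (b (c (l 16322760) (l 16298712)) (c (l 16302504) (l 16278752)))) (a (b (c (l 16254008) (l 16203544)) (l 16449712)) (c (b (l 16288584) (l 16279640)) (b (l 16266672) (l 16260288))))) (b (a (b (c (l 16337696) (l 16321256)) (c (l 16321720) (l 16330424))) (b (c (a (l 16343368) (l 16348656)) (l 16379816)) (c (a (l 16330792) (l 16232600)) (a (l 16364576) (l 16387552))))) (a (c (b (l 16310288) (l 16301960)) (b (l 16323872) (l 16320376))) (c (b (a (l 16321064) (l 16170416)) (a (l 16291536) (l 16291400))) (a (b (l 16362272) (l 16360544)) (b (l 16373176) (l 16349488))))))) (a (b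 (a (b (l 16382544) (l 16319600)) (c (b (l 16274472) (l 16272008)) (b (l 16257704) (l 16257312)))) (a (b (l 16259800) (l 16223128)) (c (b (l 16271296) (l 16271488)) (l 16258080)))) (b (a (c (b (l 16295504) (l 16101880)) (b (l 16318104) (l 16316752))) (a (c (b (l 16253432) (l 16272520)) (b (l 16345896) (l 16321480))) (c (l 16206248) (l 16303640)))) (a (b (c (l 16260600) (l 16308200)) (a (l 16281696) (a (l 16280000) (l 16264928)))) (c (b (l 16227432) (l 16204136)) (b (l 16273440) (l 16241424))))))), by decide +kernel⟩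

theorem s9_pm_102 : ∃ t, chk3 f_pm_102 t 3 3 1 = true := ex3_a k7_pm_102 k8_pm_102

theorem s10_pm_102 : ∃ t, chk3 f_pm_102 t 15 2 1 = true := ex3_b k5_pm_102 k6_pm_102

theorem s11_pm_102 : ∃ t, chk3 f_pm_102 t 7 2 1 = true := ex3_a k4_pm_102 s10_pm_102

theorem s12_pm_102 : ∃ t, chk3 f_pm_102 t 3 2 1 = true := ex3_a k3_pm_102 s11_pm_102

theorem s13_pm_102 : ∃ t, chk3 f_pm_102 t 3 1 1 = true := ex3_b s12_pm_102 s9_pm_102

theorem s14_pm_102 : ∃ t, chk3 f_pm_102 t 2 3 1 = true := ex3_a k1_pm_102 k2_pm_102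

theorem s15_pm_102 : ∃ t, chk3 f_pm_102 t 2 1 1 = true := ex3_b k0_pm_102 s14_pm_102

theorem s16_pm_102 : ∃ t, chk3 f_pm_102 t 1 1 1 = true := ex3_a s15_pm_102 s13_pm_102

theorem c_pm_102 : CertB 536870912 536870912 1073741824 536870912 858993459 64424510 3 eng mog cd0q1 cd2q2 pd0 false true false .npp 1 0 2
    ndB0q1 ndB2q2 pcB0 Cut.none Ext.none :=
  certB1 (fam := false) (s1 := true) (s2 := false) (a := 1) (b := 0) (c := 2) (cn := .npp) (n1 := ndB0q1) (n2 := ndB2q2) (pc := pcB0) (cut := Cut.none) (xt := Ext.none) (P1 := 536870912) (W1 := 536870912) (P2 := 1073741824) (W2 := 536870912) (P3 := 858993459) (W3 := 64424510) (N0 := 3) (En := eng) (mo := mog) (C1 := cd0q1) (C2 := cd2q2) (C3 := pd0)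
    rfl (fun _ => rfl) s16_pm_102

noncomputable def f_pm_112 : ℕ → ℕ → ℕ → ℕ → Bool := onCell 536870912 536870912 1073741824 536870912 858993459 64424510
    (rowB 3 eng mog cd0q1 cd2q2 pd1 0 false true false .dn 1 1 2 (qsf 536870912 536870912 1073741824 536870912 1) ndB0q1 ndB2q2 pcB1 Cut.none Ext.none)

def k0_pm_112 : ∃ t, chk3 f_pm_112 t 2 2 1 = true :=
  ⟨(a (b (b (a (b (a (c (l 16054256) (l 16044104)) (l 451540703927)) (a (c (l 16076528) (l 16095144)) (c (l 16046856) (l 16060360)))) (b (l 1) (c (l 317859771799) (l 16005512)))) (a (b (a (c (l 16065744) (l 16079528)) (l 16054496)) (c (l 16021208) (l 15934368))) (c (b (l 16018808) (l 16005688)) (b (l 16019968) (l 15992320))))) (b (a (c (a (b (l 16014968) (l 15970648)) (l 16092904)) (b (l 16157952) (l 15932112))) (a (c (l 16062320) (l 16029672)) (c (l 16070312) (l 16008032)))) (b (a (a (l 15885704) (l 15912704)) (a (l 16000208) (c (l 15997984) (l 15914416)))) (a (a (l 15812880) (l 15998928)) (a (l 15972824) (l 15928440))))))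 (b (a (a (b (l 1) (b (l 1) (l 15981888))) (l 1)) (l 1)) (a (c (b (a (l 16013488) (l 16014056)) (a (l 16068104) (l 16026296))) (b (b (l 16050528) (a (l 15952912) (l 15958472))) (a (b (l 15939320) (l 15931920)) (l 15974952)))) (a (b (b (l 1) (c (l 16037528) (l 15969640))) (c (l 16038392) (l 16031320))) (b (l 1) (c (l 16042880) (l 16167504))))))), by decide +kernel⟩

def k1_pm_112 : ∃ t, chk3 f_pm_112 t 2 3 1 = true :=
  ⟨(a (b (a (a (b (b (c (l 15783216) (l 15679088)) (l 15713032)) (b (l 15564640) (l 15471392))) (b (b (l 15827544) (l 15718264)) (c (l 15652872) (l 15544848)))) (b (c (a (l 15851888) (l 15899352)) (a (l 15767056) (l 15833048))) (c (a (l 15723912) (l 15790936)) (a (l 15635960) (l 15726016))))) (c (a (b (a (l 15391552) (l 15486096)) (a (b (l 15241992) (l 15138760)) (l 15305032))) (b (a (l 15576744) (l 15663256)) (a (l 15415336) (l 15521472)))) (a (b (a (l 15346536) (l 15356160)) (a (b (l 15065600) (l 14941552)) (b (l 15196304) (l 15082640)))) (b (a (l 15470056) (l 15583056))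 (a (l 15275728) (l 15410664)))))) (b (a (b (c (a (l 15943128) (l 15981472)) (a (l 15897544) (l 15960208))) (c (a (l 15853984) (l 15911264)) (a (l 15814600) (l 15901216)))) (c (b (a (l 16011432) (l 16032704)) (a (l 15959728) (l 15998840))) (b (b (l 16257328) (l 16214520)) (a (l 15984960) (l 16063016))))) (a (b (c (a (l 15745608) (l 15822112)) (a (l 15694664) (l 15804248))) (c (a (l 15623416) (l 15719720)) (a (l 15544488) (l 15676456)))) (b (c (a (l 15889856) (l 15947992)) (a (l 15910600) (l 16010488))) (c (a (l 15807840) (l 15886616)) (a (l 15805168) (l 15927024))))))), by decide +kernel⟩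

def k2_pm_112 : ∃ t, chk3 f_pm_112 t 3 2 1 = true :=
  ⟨(a (b (l 1) (a (a (b (l 1) (c (l 16103624) (l 307122799207))) (l 1)) (l 1))) (l 1)), by decide +kernel⟩

def k3_pm_112 : ∃ t, chk3 f_pm_112 t 6 3 1 = true :=
  ⟨(b (a (c (b (b (l 91837527543) (l 78415755783)) (a (l 16029312) (l 16239896))) (b (a (l 16312704) (l 15954048)) (a (l 16111424) (l 15981448)))) (a (c (b (c (l 16019040) (l 16084160)) (c (l 16024224) (l 16105136))) (b (l 207263973639) (b (l 16232144) (l 16241904)))) (b (l 1) (b (c (l 16061784) (l 16179536)) (c (l 16070768) (l 16279224)))))) (a (c (b (c (l 15987888) (l 16047000)) (c (l 15960544) (l 16010528))) (b (a (l 16079128) (b (l 16183640) (l 16167656))) (a (l 16037320) (b (l 16144928) (l 16117088))))) (c (b (c (a (l 16022392) (l 16031832)) (a (l 16105200) (l 16127864))) (c (a (l 16021064) (l 16045008)) (a (l 16093432) (l 16128256)))) (b (a (c (l 16192384) (l 16282312)) (c (l 16229488) (l 16334096))) (a (c (l 16167720) (l 16241776)) (c (l 16213736) (l 16297536))))))),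 by decide +kernel⟩

def k4_pm_112 : ∃ t, chk3 f_pm_112 t 7 3 1 = true :=
  ⟨(b (b (l 1) (b (l 1) (a (a (c (l 384969078871) (l 268467562599)) (l 1)) (l 1)))) (a (c (c (b (a (l 16113480) (c (l 15987624) (l 16043712))) (a (l 16054712) (c (l 16026888) (l 16073448)))) (b (a (l 16137128) (l 219076104967)) (a (l 16145960) (l 16316824)))) (b (a (c (l 16252784) (l 16373904)) (c (l 124049214327) (b (l 16415688) (l 16371368)))) (a (c (l 16241344) (l 16336464)) (c (l 16259368) (c (l 16335928) (l 16228944)))))) (a (a (b (c (c (l 531534658023) (l 16168040)) (c (l 16277184) (l 16183168))) (c (c (b (c (l 16003288) (l 16054368)) (c (l 16031856) (l 16072752))) (b (l 16141048) (l 16143888))) (c (b (l 16275408) (l 16257096)) (b (l 16224208) (l 16186928))))) (b (l 1) (c (c (b (c (l 201895780439) (l 16047256)) (l 16051888)) (b (l 16129296) (l 16131832))) (c (b (l 16264456) (l 16241128)) (b (l 16206512) (l 16186584)))))) (b (l 1) (b (a (c (c (l 435971654007) (l 16116720)) (a (l 16156568) (l 1))) (l 1))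 (c (c (a (l 47814033703) (c (l 16043136) (l 16060968))) (a (l 16117816) (l 16104944))) (c (c (l 16179888) (l 16237344)) (l 15999976)))))))), by decide +kernel⟩

theorem s5_pm_112 : ∃ t, chk3 f_pm_112 t 3 3 1 = true := ex3_a k3_pm_112 k4_pm_112

theorem s6_pm_112 : ∃ t, chk3 f_pm_112 t 3 1 1 = true := ex3_b k2_pm_112 s5_pm_112

theorem s7_pm_112 : ∃ t, chk3 f_pm_112 t 2 1 1 = true := ex3_b k0_pm_112 k1_pm_112

theorem s8_pm_112 : ∃ t, chk3 f_pm_112 t 1 1 1 = true := ex3_a s7_pm_112 s6_pm_112

theorem c_pm_112 : CertB 536870912 536870912 1073741824 536870912 858993459 64424510 3 eng mog cd0q1 cd2q2 pd1 false true false .dn 1 1 2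
    ndB0q1 ndB2q2 pcB1 Cut.none Ext.none :=
  certB0 (fam := false) (s1 := true) (s2 := false) (a := 1) (b := 1) (c := 2) (cn := .dn) (n1 := ndB0q1) (n2 := ndB2q2) (pc := pcB1) (cut := Cut.none) (xt := Ext.none) (P1 := 536870912) (W1 := 536870912) (P2 := 1073741824) (W2 := 536870912) (P3 := 858993459) (W3 := 64424510) (N0 := 3) (En := eng) (mo := mog) (C1 := cd0q1) (C2 := cd2q2) (C3 := pd1)
    rfl s8_pm_112

noncomputable def cut_pm_113 : Cut := Cut.of [[⟨0, 1, 0, 67108864⟩, ⟨1, 1, 0, 67108864⟩, ⟨2, 2, 0, 16777216⟩]]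

noncomputable def f_pm_113 : ℕ → ℕ → ℕ → ℕ → Bool := onCell 536870912 536870912 0 1230186008 858993459 64424510
    (rowB 3 eng mog cd0q1 cd2q3 pd1 0 false true false .nn 1 1 3 (qsf 536870912 536870912 0 1230186008 1) ndB0q1 ndB2q3 pcB1 cut_pm_113 Ext.none)

def k0_pm_113 : ∃ t, chk3 f_pm_113 t 2 1 1 = true :=
  ⟨(b (l 2) (b (b (l 2) (a (l 2) (a (l 2) (b (l 2) (a (l 2) (b (l 2) (l 15527416))))))) (a (b (l 2) (b (a (l 2) (a (b (l 2) (c (l 15095168) (l 14893952))) (b (c (l 15158392) (l 14953728)) (c (l 15236952) (l 15054464))))) (a (a (b (l 2) (c (l 15030256) (l 14835368))) (b (c (l 15052632) (l 14854664)) (c (l 15160048) (l 14978784)))) (b (a (c (l 15188432) (l 15006456)) (c (l 15318288) (l 15160368))) (a (c (l 15283528) (l 15123448)) (c (l 15403016) (l 15268336))))))) (b (b (a (a (l 2) (c (l 210551553607) (l 210014219511))) (a (c (l 15477648) (l 15242000)) (c (l 15665488) (l 15452128)))) (a (a (c (l 209477695927) (l 203034807111)) (c (l 15375320) (l 15178072))) (a (c (l 15535480)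 (l 15366608)) (c (l 15693616) (l 15557752))))) (a (b (a (c (b (l 15306656) (l 15373688)) (b (l 15123704) (l 15218032))) (c (l 15478768) (l 15340576))) (c (a (b (l 15444320) (l 15518576)) (l 15597800)) (a (b (l 15314824) (l 15413128)) (l 15744792)))) (b (a (c (l 15613056) (l 15510136)) (c (l 15742136) (l 15677528))) (c (a (l 15707400) (l 15809400)) (a (l 15913544) (l 16056656))))))))), by decide +kernel⟩

def k1_pm_113 : ∃ t, chk3 f_pm_113 t 6 1 1 = true :=
  ⟨(b (l 2) (b (b (a (l 2) (b (a (l 2) (b (c (l 16587112) (l 16464416)) (c (l 16665896) (l 16546416)))) (a (c (l 16517248) (l 16269992)) (b (c (l 16672904) (l 16581384)) (l 16545104))))) (a (b (a (c (l 15959048) (l 152569828151)) (c (l 16229080) (l 15869912))) (a (b (l 15751864) (l 15750168)) (b (l 15994632) (l 15973168)))) (b (a (b (l 16360472) (l 16284848)) (b (l 16609264) (l 16500760))) (c (b (l 16439720) (l 16355056)) (a (l 16093424) (l 16302792)))))) (b (a (b (a (c (l 15852488) (l 15668208)) (c (l 16030056) (l 15879664)))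 (c (a (l 15846056) (l 15986808)) (a (l 15745984) (l 15922880)))) (c (b (a (l 16186696) (l 16307272)) (a (l 16107504) (l 16240112))) (b (a (l 16069040) (l 16207408)) (a (l 16073272) (c (l 16179064) (l 16172776)))))) (a (a (b (c (l 15863320) (l 15837936)) (c (l 16006984) (b (l 15912536) (l 15963784)))) (b (c (l 15972168) (l 16109208)) (c (b (l 15977776) (l 15988824)) (b (l 16036688) (l 16074648))))) (b (c (a (l 16293616) (c (l 16119736) (l 16140480))) (a (b (l 16092664) (l 16112024)) (c (l 16165488) (l 16193096)))) (c (c (a (l 16024992) (l 16067032)) (a (l 16071592) (l 16121760))) (a (b (l 16135568) (l 16162240)) (c (l 16180312) (l 16239736))))))))), by decide +kernel⟩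

def k2_pm_113 : ∃ t, chk3 f_pm_113 t 14 1 1 = true :=
  ⟨(b (b (l 2) (b (b (l 2) (a (l 2) (a (l 2) (b (l 2) (l 16444872))))) (a (b (l 2) (c (l 179415226999) (a (l 16506216) (l 16578112)))) (b (c (a (l 16602656) (l 16643608)) (a (l 16516616) (l 16522672))) (c (a (l 16685000) (l 16750984)) (a (l 16586712) (l 16678344))))))) (b (b (b (a (b (c (l 16738304) (l 16601320)) (c (l 16762000) (l 16690264))) (b (a (l 16789768) (l 16808280)) (a (l 16828352) (l 16891512)))) (a (b (l 16724264) (l 16797336)) (b (a (l 16861328) (l 16843536)) (c (l 16900888) (l 16771760))))) (b (a (b (c (l 16807720) (l 16594608)) (a (l 16594680) (l 16620072))) (c (b (l 16922488) (l 16767504)) (b (l 16612456) (l 16483928)))) (a (b (c (l 16611768) (l 16397888)) (c (l 16503552) (l 16328584))) (c (b (l 16629864) (l 16515592)) (b (l 16381392) (l 16301464)))))) (b (b (a (c (b (l 16413336) (l 16338560)) (b (l 16276080) (l 16260120))) (c (c (l 16428600) (l 16335448)) (c (l 16255584) (b (l 16207512) (l 16177968))))) (a (c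 (b (l 16276920) (l 16331176)) (a (l 16312976) (b (l 16213192) (l 16204304)))) (c (b (c (l 16314928) (l 16252888)) (a (l 16233456) (l 16227896))) (b (c (l 16203328) (l 16166840)) (c (l 16187488) (l 16172408)))))) (b (a (c (c (l 16159040) (l 16176408)) (c (l 16197656) (l 16219408))) (c (c (b (l 16324512) (a (l 16150184) (l 16153080))) (b (l 16186288) (l 16167608))) (b (c (l 16184736) (l 16193144)) (c (l 16192824) (l 16142592))))) (a (c (c (l 16237480) (l 16148072)) (c (b (l 16204488) (l 16216248)) (l 16229624))) (c (b (c (a (l 16111672) (l 16112480)) (l 16156456)) (c (a (l 16081496) (l 16079904)) (l 16150520))) (b (c (l 16208880) (l 16032960)) (c (l 16229088) (l 16111680))))))))), by decide +kernel⟩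

def k3_pm_113 : ∃ t, chk3 f_pm_113 t 15 2 1 = true :=
  ⟨(b (a (l 2) (b (l 6) (b (l 6) (a (a (b (l 2) (l 16647568)) (c (l 16748128) (l 16641592))) (c (a (l 16772744) (b (l 16795144) (l 16801616))) (a (b (l 16757072) (l 16765528)) (b (l 16751560) (l 16760400)))))))) (a (a (b (b (l 2) (c (l 16650800) (l 16534112))) (b (c (l 16604920) (l 16508480)) (c (l 16800392) (l 16665344)))) (c (b (b (l 16633376) (l 16634648)) (b (b (l 16717224) (l 16765280)) (l 16731504))) (b (b (c (l 16663952) (l 16640600)) (b (l 16663408) (l 16671256))) (b (b (l 16678952) (l 16757200)) (b (l 16825624) (l 16857496)))))) (a (b (b (c (l 16765128) (b (l 16635448) (l 16664960))) (c (l 16771112) (b (l 16673600) (l 16682128)))) (b (b (c (l 16773224) (l 16753136)) (a (l 16810640) (l 16718616))) (c (b (l 16856760) (l 16768184)) (b (l 16754016) (l 16676064))))) (c (b (b (a (l 16783656) (b (l 16808088) (l 16814312))) (b (l 16763160) (l 16767464))) (b (b (a (l 16818120) (l 16825528)) (a (l 16847336) (l 16796016))) (b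 (a (l 16809488) (l 16735776)) (a (l 16739960) (l 16685904))))) (b (b (a (b (l 16774432) (l 16783520)) (b (l 16786832) (l 16793768))) (b (a (l 16792512) (l 16802880)) (a (l 16801056) (l 16793488)))) (c (b (b (l 16781600) (l 16732680)) (b (l 16710480) (l 16655464))) (b (b (l 16736648) (l 16700552)) (b (l 16675120) (l 16595056))))))))), by decide +kernel⟩

def k4_pm_113 : ∃ t, chk3 f_pm_113 t 15 6 1 = true :=
  ⟨(b (b (a (a (b (c (l 16892864) (l 16874320)) (l 16698504)) (b (c (l 16826904) (l 16720544)) (c (l 16817744) (l 16765712)))) (a (b (c (b (l 16768024) (l 16751256)) (b (l 16729792) (l 16705904))) (c (l 16684960) (l 16605456))) (b (c (b (l 16637200) (a (l 16699424) (l 16664616))) (b (c (l 16668408) (l 16646056)) (a (l 16651008) (l 16615936)))) (b (c (l 16594952) (a (l 16640552) (l 16605504))) (c (l 16634040) (l 16527920)))))) (b (a (a (l 16645360) (c (l 16817040) (l 16719808))) (a (c (l 16682032) (l 16581136)) (b (c (l 16631208) (l 16537000)) (c (l 16628448) (l 16545176))))) (a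 (a (l 16611128) (c (l 16817712) (l 16656840))) (c (a (l 16680168) (a (l 16685648) (l 16583600))) (a (l 16573328) (b (l 16518432) (l 16448016))))))) (b (a (c (b (a (l 16895712) (l 16820048)) (a (l 16733032) (l 16682632))) (b (a (l 16560472) (l 16502024)) (a (l 16431984) (l 16380480)))) (c (a (b (l 16679144) (l 16612216)) (b (a (l 16679824) (l 16583104)) (c (l 16604128) (l 16453248)))) (b (a (l 16431616) (c (l 16424912) (l 16292424))) (a (l 16321088) (c (l 16319752) (l 16203744)))))) (a (c (b (a (l 16598144) (l 16554408)) (a (l 16486408) (l 16448304))) (b (a (l 16330832) (l 16285544)) (a (l 16253376) (l 16213744)))) (c (b (a (l 16494384) (c (l 16493904) (l 16355544))) (a (l 16397048) (c (l 16401584) (l 16276488)))) (b (a (l 16340080) (c (l 16236512) (l 16136952))) (a (l 16171104) (c (l 16172616) (l 16090136)))))))), by decide +kernel⟩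

def k5_pm_113 : ∃ t, chk3 f_pm_113 t 15 14 1 = true :=
  ⟨(b (a (c (b (a (l 16395368) (l 16362496)) (a (l 16321752) (l 16293672))) (c (b (l 16223088) (l 16180464)) (b (l 16146408) (l 16124392)))) (c (b (a (l 16423736) (c (l 16326528) (l 16215584))) (a (c (l 16311696) (l 16208720)) (c (l 16266040) (l 16170016)))) (b (a (l 16127944) (c (l 16127536) (l 16062576))) (a (l 16186784) (a (l 16079512) (l 16064368)))))) (a (c (b (a (l 16262680) (l 16239056)) (c (l 16239208) (l 16179480))) (c (b (l 16154672) (l 16143448)) (b (l 16120528) (l 16132872)))) (c (c (b (a (l 16254288) (l 16217728)) (a (l 16207000) (l 16178360))) (b (a (l 16169480) (l 16137184)) (a (l 16141696) (l 16114424)))) (c (b (a (l 16111808) (l 16082768)) (a (l 16104904) (l 16078496))) (b (a (l 16082224) (l 16054744)) (a (l 16097696) (l 16070888))))))), by decide +kernel⟩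

def k6_pm_113 : ∃ t, chk3 f_pm_113 t 15 15 1 = true :=
  ⟨(b (b (c (a (c (a (l 16196040) (l 16184744)) (l 16155864)) (a (c (l 16166896) (l 16123024)) (c (l 16144976) (l 16099576)))) (a (c (l 16144856) (l 16159872)) (c (a (l 16109040) (l 16084088)) (a (l 16126104) (l 16098864))))) (a (c (c (a (l 16152408) (l 16144864)) (l 16140944)) (c (l 16157216) (l 16199904))) (c (c (a (l 16131984) (l 16115992)) (a (l 16111808) (l 16091416))) (c (a (l 16122768) (l 16098408)) (a (l 16166112) (l 16137360)))))) (c (a (c (b (a (l 16113688) (l 16109664)) (a (l 16099672) (l 16078120))) (b (l 16133104) (a (l 16137912) (l 16123648)))) (c (b (a (l 16101288) (c (l 16096184) (l 16087216))) (a (l 16115920) (c (l 16067952) (l 16071136)))) (b (a (l 16107008) (l 16089080)) (a (l 16107496) (l 16091744))))) (a (b (c (l 16179032) (l 16230328)) (c (c (l 16186032) (l 16231088)) (a (l 16228488) (l 16229584)))) (c (b (c (l 16120776) (l 16083584)) (c (l 16142696) (l 16182320))) (b (a (l 16216160) (l 16185176)) (a (l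 16234656) (l 16240888))))))), by decide +kernel⟩

theorem s7_pm_113 : ∃ t, chk3 f_pm_113 t 15 7 1 = true := ex3_b k5_pm_113 k6_pm_113

theorem s8_pm_113 : ∃ t, chk3 f_pm_113 t 15 3 1 = true := ex3_b k4_pm_113 s7_pm_113

theorem s9_pm_113 : ∃ t, chk3 f_pm_113 t 15 1 1 = true := ex3_b k3_pm_113 s8_pm_113

theorem s10_pm_113 : ∃ t, chk3 f_pm_113 t 7 1 1 = true := ex3_a k2_pm_113 s9_pm_113

theorem s11_pm_113 : ∃ t, chk3 f_pm_113 t 3 1 1 = true := ex3_a k1_pm_113 s10_pm_113

theorem s12_pm_113 : ∃ t, chk3 f_pm_113 t 1 1 1 = true := ex3_a k0_pm_113 s11_pm_113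

theorem c_pm_113 : CertB 536870912 536870912 0 1230186008 858993459 64424510 3 eng mog cd0q1 cd2q3 pd1 false true false .nn 1 1 3
    ndB0q1 ndB2q3 pcB1 cut_pm_113 Ext.none :=
  certB0 (fam := false) (s1 := true) (s2 := false) (a := 1) (b := 1) (c := 3) (cn := .nn) (n1 := ndB0q1) (n2 := ndB2q3) (pc := pcB1) (cut := cut_pm_113) (xt := Ext.none) (P1 := 536870912) (W1 := 536870912) (P2 := 0) (W2 := 1230186008) (P3 := 858993459) (W3 := 64424510) (N0 := 3) (En := eng) (mo := mog) (C1 := cd0q1) (C2 := cd2q3) (C3 := pd1)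
    rfl s12_pm_113

noncomputable def cut_pm_123 : Cut := Cut.of [[⟨0, 1, 0, 67108864⟩, ⟨1, 1, 0, 67108864⟩, ⟨2, 2, 0, 16777216⟩]]

noncomputable def f_pm_123 : ℕ → ℕ → ℕ → ℕ → Bool := onCell 1073741824 536870912 0 1230186008 858993459 64424510
    (rowB 3 eng mog cd0q1 cd2q3 pd2 2 false true false .npn 1 2 3 (qsf 536870912 536870912 0 1230186008 2) ndB0q1 ndB2q3 pcB2 cut_pm_123 Ext.none)

def k0_pm_123 : ∃ t, chk3 f_pm_123 t 4 2 1 = true :=
  ⟨(a (b (a (b (l 6) (b (l 6) (a (a (c (l 16628976) (l 16606064)) (l 16602576)) (a (l 16589072) (l 16578920))))) (b (a (l 6) (c (l 16651416) (l 16667272))) (a (b (l 6) (b (l 16582344) (l 16556320))) (b (l 16608128) (l 16566160))))) (b (a (b (a (b (a (l 16552224) (l 16541576)) (c (l 16530464) (a (l 16497712) (l 16502656)))) (c (l 16514224) (l 16521512))) (a (c (a (l 16506288) (l 16502640)) (l 16456056)) (a (l 16469328) (l 16488736)))) (b (a (l 16529904) (l 16527944)) (a (l 16421144) (l 16472968)))) (b (a (a (c (a (l 16528136) (l 16499648)) (a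 (l 16478792) (l 16479512))) (a (l 16483784) (l 16476896))) (a (c (l 16463192) (l 16467712)) (l 16443616))) (a (a (b (a (l 16517904) (l 16530688)) (a (l 16556416) (l 16566592))) (b (l 16515736) (l 16548168))) (a (a (l 16511608) (l 16497320)) (l 16474056)))))) (b (a (b (a (l 16643944) (l 16633864)) (c (b (l 16580472) (l 16546104)) (b (l 16617424) (l 16583552)))) (b (a (l 16625696) (l 16617360)) (c (l 16391168) (l 16591856)))) (b (a (b (a (l 16520080) (l 16507056)) (c (l 16432136) (l 16467000))) (b (l 16459472) (c (l 16379456) (l 16427376)))) (a (b (b (l 16406088) (l 16407392)) (b (l 16414784) (l 16428856))) (b (c (l 16323088) (l 16367760)) (c (l 16319280) (l 16360296))))))), by decide +kernel⟩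

def k1_pm_123 : ∃ t, chk3 f_pm_123 t 5 2 1 = true :=
  ⟨(b (a (a (b (l 16599000) (a (l 16537600) (l 16515840))) (b (l 16538672) (l 16246136))) (b (c (l 16292968) (l 16513624)) (a (l 16181904) (l 16169832)))) (a (b (a (b (l 16431264) (l 16257864)) (b (l 16368752) (l 16270640))) (b (a (l 16059472) (c (l 16152352) (l 16221280))) (a (c (l 16216944) (l 16270472)) (c (l 16121448) (l 16189936))))) (b (a (b (l 16295480) (l 16190592)) (b (l 16213752) (l 15855608))) (b (a (c (l 16063848) (l 16148800)) (l 16041136)) (a (l 16075456) (l 16025744)))))), by decide +kernel⟩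

def k2_pm_123 : ∃ t, chk3 f_pm_123 t 3 2 1 = true :=
  ⟨(a (b (a (b (a (l 16362560) (l 16280688)) (a (l 16046024) (c (l 16112712) (l 16231752)))) (b (a (l 16196288) (l 16115784)) (a (c (l 16049048) (l 16168712)) (l 16073224)))) (a (b (a (b (l 16127328) (l 16050216)) (b (l 16070528) (l 16019592))) (c (a (l 15963344) (l 15953824)) (a (l 16035568) (l 16012288)))) (b (a (l 16027888) (l 16029232)) (a (l 15978568) (l 15987088))))) (b (a (b (a (l 16082832) (l 16082712)) (l 16074288)) (a (l 16100952) (l 16127544))) (a (a (b (l 16040824) (l 16005728)) (b (l 16061736) (l 16029808))) (b (a (l 16090480) (l 16123304)) (a (l 16058128) (l 1)))))), by decide +kernel⟩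

def k3_pm_123 : ∃ t, chk3 f_pm_123 t 2 12 1 = true :=
  ⟨(a (a (b (a (b (a (b (l 16605344) (l 16614688)) (c (l 16589328) (l 16573472))) (a (b (l 16608104) (l 16600120)) (l 16569560))) (b (c (l 16529288) (l 16529208)) (a (l 16529624) (l 16485296)))) (a (b (a (b (l 16590832) (l 16580128)) (l 16544616)) (a (b (l 16563352) (l 16446928)) (a (l 16421096) (l 16450248)))) (b (a (l 16451328) (a (l 16377968) (l 16333576))) (a (a (l 16315664) (l 16267144)) (l 16197512))))) (b (a (b (c (l 16434040) (l 16399704)) (c (l 16398640) (l 16280256))) (b (c (l 16322216) (l 16273160)) (c (l 16280424) (l 16167008)))) (b (a (c (l 16310808) (l 16158456)) (l 16095648)) (a (c (l 16156504) (l 16019864)) (l 15977688))))) (b (a (a (b (c (l 16213224) (l 16171656)) (l 16102560)) (b (l 16105296) (l 16018096))) (a (b (l 16032680) (l 15960264)) (b (l 15984464) (l 15924528)))) (a (a (c (l 15986496) (l 15919424)) (c (l 15918376) (l 15871616))) (a (c (l 15876640) (l 15840920)) (l 15838880))))), by decide +kernel⟩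

def k4_pm_123 : ∃ t, chk3 f_pm_123 t 2 13 1 = true :=
  ⟨(a (a (b (a (b (b (a (c (l 16511064) (l 16298096)) (l 16254192)) (a (l 16283776) (l 16154288))) (a (c (l 16216936) (l 16047352)) (a (l 16117304) (l 15995184)))) (a (b (l 16174400) (l 16092112)) (b (l 16037232) (l 15889616)))) (c (a (a (b (l 16009848) (l 15830784)) (b (l 15933280) (l 15776208))) (b (l 15845280) (l 15713824))) (a (b (a (l 15931224) (l 15758336)) (a (l 15648240) (l 15617752))) (b (l 15706272) (l 15585416))))) (c (b (a (a (l 15973296) (l 15919720)) (b (l 15911408) (l 15806392))) (a (b (l 15763000) (l 15660096)) (b (l 15713592) (l 15631880)))) (b (a (b (l 15890512) (l 15770648)) (l 15775040)) (a (b (l 15660760) (l 15560152)) (b (l 15635048) (l 15550768)))))) (a (b (a (c (l 15803112) (l 15740616)) (b (l 15779816) (l 15712688))) (a (b (c (l 15688280) (l 15623816)) (l 15588384)) (b (l 15651848) (l 15597288)))) (b (a (l 15924728) (l 15740936)) (a (b (l 15660480) (l 15616936)) (b (l 15681280) (l 15647656)))))), by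 decide +kernel⟩

def k5_pm_123 : ∃ t, chk3 f_pm_123 t 3 6 1 = true :=
  ⟨(b (a (b (a (c (l 16022648) (l 15917200)) (a (l 15927384) (l 15943256))) (a (a (l 15836328) (l 15846280)) (a (l 15866952) (l 15894752)))) (a (b (a (l 15966488) (l 1)) (l 1)) (l 1))) (a (a (b (a (l 15758352) (l 15785752)) (a (l 92373824087) (l 15950008))) (b (a (l 15819680) (l 1)) (l 1))) (l 1))), by decide +kernel⟩

def k6_pm_123 : ∃ t, chk3 f_pm_123 t 1 7 1 = true :=
  ⟨(a (a (b (a (b (a (b (c (a (l 15675864) (l 15638984)) (a (l 15508672) (l 15491560))) (c (a (l 15542872) (l 15521224)) (a (l 15384584) (l 15378440)))) (c (b (a (l 15610480) (l 15589360)) (a (l 15505664) (l 15495832))) (b (l 15475712) (l 15376864)))) (a (b (c (a (l 15429992) (l 15420240)) (a (l 15274304) (l 15277560))) (c (a (b (l 15356344) (l 15311936)) (l 15333864)) (a (l 15176928) (l 15188480)))) (b (c (a (l 15415280) (l 15415096)) (l 15288600)) (c (l 15341624) (l 15210928))))) (b (a (b (c (l 15569232) (l 15468584)) (c (l 15490488) (l 15385928)))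 (c (l 15527840) (l 15438840))) (a (c (b (l 15422240) (l 15364640)) (b (l 15312512) (l 15248576))) (c (l 15484416) (l 15318328))))) (a (b (a (b (c (a (l 15251888) (l 15260496)) (a (l 15091952) (l 15110984))) (c (a (l 15183344) (l 15199744)) (a (l 15019128) (l 15045056)))) (b (c (l 15280176) (l 15143920)) (c (l 15230424) (l 15087800)))) (a (b (c (a (l 15127752) (l 15151384)) (a (l 14958544) (l 14990952))) (c (a (b (l 15094224) (l 15076000)) (l 15115496)) (a (l 14910632) (l 14949224)))) (a (b (c (l 15177824) (l 15025192)) (c (l 15149272) (l 14989248))) (b (c (l 15207328) (l 15061024)) (l 1))))) (b (a (b (c (l 15317688) (l 15194408)) (c (l 15281480) (l 15150448))) (b (c (l 15366768) (l 15250656)) (c (l 15342888) (l 15217664)))) (a (b (c (l 15256728) (l 15117160)) (l 1)) (l 1))))) (b (a (b (a (c (l 15541912) (l 15460312)) (c (l 15567592) (l 15488360))) (a (b (l 15432056) (c (l 15447136) (l 15343032))) (b (l 15475160) (l 15449384)))) (b (a (c (l 15603968) (l 15522664)) (l 74119902983))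 (l 1))) (a (b (a (b (c (l 15424464) (l 15310776)) (l 1)) (l 1)) (l 1)) (l 1)))) (l 1)), by decide +kernel⟩

theorem s7_pm_123 : ∃ t, chk3 f_pm_123 t 2 6 1 = true := ex3_b k3_pm_123 k4_pm_123

theorem s8_pm_123 : ∃ t, chk3 f_pm_123 t 1 6 1 = true := ex3_a s7_pm_123 k5_pm_123

theorem s9_pm_123 : ∃ t, chk3 f_pm_123 t 1 3 1 = true := ex3_b s8_pm_123 k6_pm_123

theorem s10_pm_123 : ∃ t, chk3 f_pm_123 t 2 2 1 = true := ex3_a k0_pm_123 k1_pm_123

theorem s11_pm_123 : ∃ t, chk3 f_pm_123 t 1 2 1 = true := ex3_a s10_pm_123 k2_pm_123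

theorem s12_pm_123 : ∃ t, chk3 f_pm_123 t 1 1 1 = true := ex3_b s11_pm_123 s9_pm_123

theorem c_pm_123 : CertB 536870912 536870912 0 1230186008 858993459 64424510 3 eng mog cd0q1 cd2q3 pd2 false true false .npn 1 2 3
    ndB0q1 ndB2q3 pcB2 cut_pm_123 Ext.none :=
  certB2 (fam := false) (s1 := true) (s2 := false) (a := 1) (b := 2) (c := 3) (cn := .npn) (n1 := ndB0q1) (n2 := ndB2q3) (pc := pcB2) (cut := cut_pm_123) (xt := Ext.none) (P1 := 536870912) (W1 := 536870912) (P2 := 0) (W2 := 1230186008) (P3 := 858993459) (W3 := 64424510) (N0 := 3) (En := eng) (mo := mog) (C1 := cd0q1) (C2 := cd2q3) (C3 := pd2)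
    rfl (fun _ => rfl) s12_pm_123

noncomputable def f_pm_133 : ℕ → ℕ → ℕ → ℕ → Bool := onCell 536870912 536870912 0 1230186008 858993459 64424510
    (rowB 3 eng mog cd0q1 cd2q3 pd3 0 false true false .dn 1 3 3 (qsf 536870912 536870912 0 1230186008 3) ndB0q1 ndB2q3 pcB3 Cut.none Ext.none)

def k0_pm_133 : ∃ t, chk3 f_pm_133 t 1 1 1 = true :=
  ⟨(b (b (a (a (a (b (l 16644664) (l 1)) (l 1)) (l 1)) (l 1)) (l 1)) (l 1)), by decide +kernel⟩

theorem c_pm_133 : CertB 536870912 536870912 0 1230186008 858993459 64424510 3 eng mog cd0q1 cd2q3 pd3 false true false .dn 1 3 3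
    ndB0q1 ndB2q3 pcB3 Cut.none Ext.none :=
  certB0 (fam := false) (s1 := true) (s2 := false) (a := 1) (b := 3) (c := 3) (cn := .dn) (n1 := ndB0q1) (n2 := ndB2q3) (pc := pcB3) (cut := Cut.none) (xt := Ext.none) (P1 := 536870912) (W1 := 536870912) (P2 := 0) (W2 := 1230186008) (P3 := 858993459) (W3 := 64424510) (N0 := 3) (En := eng) (mo := mog) (C1 := cd0q1) (C2 := cd2q3) (C3 := pd3)
    rfl k0_pm_133

noncomputable def f_pm_202 : ℕ → ℕ → ℕ → ℕ → Bool := onCell 0 536870912 0 536870912 858993459 64424510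
    (rowB 3 eng mog cd0q2 cd2q2 pd0 1 false true false .pp 2 0 2 (qsf 0 536870912 1073741824 536870912 0) ndB0q2 ndB2q2 pcB0 Cut.none Ext.none)

def k0_pm_202 : ∃ t, chk3 f_pm_202 t 2 1 1 = true :=
  ⟨(l 3), by decide +kernel⟩

def k1_pm_202 : ∃ t, chk3 f_pm_202 t 12 4 1 = true :=
  ⟨(l 3), by decide +kernel⟩

def k2_pm_202 : ∃ t, chk3 f_pm_202 t 26 4 1 = true :=
  ⟨(l 3), by decide +kernel⟩

def k3_pm_202 : ∃ t, chk3 f_pm_202 t 54 8 1 = true :=
  ⟨(a (l 3) (a (l 3) (a (l 3) (b (b (b (b (c (c (b (l 16509816) (l 16510296)) (b (l 137606132215) (l 16478808))) (b (c (l 16444896) (l 16408408)) (l 16426432))) (a (l 3) (c (c (l 16511816) (l 16480000)) (l 16427008)))) (b (c (l 131163708215) (l 16425896)) (l 3))) (l 3)) (l 3))))), by decide +kernel⟩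

def k4_pm_202 : ∃ t, chk3 f_pm_202 t 55 8 1 = true :=
  ⟨(b (c (b (a (a (a (b (b (b (c (l 16514184) (l 16483552)) (c (l 16513736) (l 16482608))) (b (a (l 16497616) (l 16499472)) (l 16498960))) (b (c (l 16515496) (l 16483256)) (l 16500808))) (b (b (l 16504424) (b (b (l 16502848) (l 16502616)) (l 16502680))) (b (l 16503088) (l 16504080)))) (b (b (l 16513024) (c (l 16525416) (l 16494840))) (b (b (a (l 16506768) (l 16512072)) (l 16509104)) (b (l 16509256) (l 16509392))))) (b (l 16529280) (b (l 16525816) (a (a (l 16515280) (l 16520832)) (l 16529360))))) (b (a (a (c (l 16520568) (l 16486952)) (b (l 16510120) (l 16511112))) (b (a (l 16517576) (l 16527176)) (a (l 16517832) (l 16525800)))) (a (b (l 155859789751) (a (l 16507008) (l 16513192))) (b (l 16522576) (l 16523064))))) (b (b (a (b (a (a (b (l 16432640) (l 16441312)) (l 16438432)) (l 16448848)) (a (c (b (l 16450792) (l 16450416)) (l 16434712)) (b (l 16445264) (l 16442744)))) (l 16467416)) (b (a (a (a (l 16429464) (l 16433208)) (b (l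 16440712) (l 16439704))) (l 16460136)) (a (a (l 16431024) (l 16438936)) (a (a (l 16445648) (l 16452208)) (l 16462400))))) (b (a (a (c (l 16450184) (l 16410272)) (l 16437968)) (b (a (l 16446584) (l 16457936)) (l 16450432))) (a (b (l 16433840) (l 16433584)) (l 16449016))))) (c (b (b (a (b (l 150491087671) (l 16509032)) (c (l 16540328) (l 16506168))) (a (l 155859829655) (l 16521408))) (b (a (l 16504064) (l 16518128)) (l 154249188471))) (b (a (b (c (l 16455400) (l 16415136)) (l 16440760)) (b (l 16448528) (l 16452296))) (a (l 127405485959) (l 16438472))))), by decide +kernel⟩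

def k5_pm_202 : ∃ t, chk3 f_pm_202 t 27 9 1 = true :=
  ⟨(a (l 3) (b (a (b (c (l 144585449911) (l 150491083767)) (l 3)) (c (b (l 16489704) (l 16487072)) (b (l 16467600) (l 16470696)))) (c (b (l 122036896983) (l 105930653383)) (b (l 16433584) (l 16432456))))), by decide +kernel⟩

def k6_pm_202 : ∃ t, chk3 f_pm_202 t 6 5 1 = true :=
  ⟨(b (b (a (l 3) (a (l 3) (a (l 3) (a (l 3) (c (l 109688726295) (l 16385776)))))) (l 3)) (l 3)), by decide +kernel⟩

def k7_pm_202 : ∃ t, chk3 f_pm_202 t 6 3 1 = true :=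
  ⟨(b (l 3) (l 3)), by decide +kernel⟩

def k8_pm_202 : ∃ t, chk3 f_pm_202 t 7 2 2 = true :=
  ⟨(b (a (b (b (a (b (a (b (l 16502072) (l 16496712)) (l 16611168)) (a (b (l 16491920) (a (a (l 16534280) (l 16544808)) (l 16561816))) (l 16599448))) (b (l 16615544) (l 16629056))) (a (b (a (a (b (a (l 16534512) (l 16542296)) (l 16536776)) (b (l 16557344) (l 16553928))) (l 16589600)) (a (a (l 16531424) (l 16484808)) (b (l 16580608) (l 16573208)))) (b (l 16640672) (l 16568184)))) (b (a (a (b (l 16490312) (l 16527120)) (b (a (l 16555672) (l 16573608)) (l 16534856))) (b (l 16516664) (a (l 16594816) (l 16599224)))) (b (a (a (l 16527432) (l 16551928)) (a (l 16583312) (l 16596880))) (a (a (l 16486672) (l 16552152)) (a (l 16577800) (l 16591232)))))) (b (b (a (b (b (l 16545992) (l 16610504)) (l 16605136)) (b (b (c (l 16521088) (l 16443944)) (a (l 16566544) (a (l 16531784) (l 16504264)))) (a (l 16563880) (b (l 16552216) (l 16532760))))) (a (b (l 16596024) (l 16585320)) (b (l 16522616) (l 16533336))))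 (b (a (b (l 16501544) (l 16459760)) (b (l 16504472) (l 16298352))) (b (a (l 16533336) (l 16334800)) (a (a (l 16551856) (l 16504696)) (b (l 16427008) (l 16423664))))))) (b (a (a (a (b (c (l 16541272) (l 16493208)) (c (l 16543688) (l 16511536))) (b (l 16549120) (l 16545368))) (b (a (l 16572128) (l 16489160)) (l 16464624))) (b (a (b (l 16508088) (l 16525736)) (b (b (l 16427968) (l 16431952)) (l 16434472))) (a (a (l 16527808) (l 16499264)) (b (l 16433528) (l 16430288))))) (a (b (a (b (l 119889303559) (l 117204901415)) (c (l 16502448) (l 16533112))) (a (b (l 120962949111) (l 125257883959)) (l 16445112))) (a (b (a (l 16496984) (l 16479328)) (l 16457152)) (b (b (l 16426312) (l 16421328)) (a (b (l 16413592) (l 16421728)) (l 16389640))))))), by decide +kernel⟩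

def k9_pm_202 : ∃ t, chk3 f_pm_202 t 7 2 3 = true :=
  ⟨(b (a (b (b (a (a (b (c (l 16520120) (l 16488976)) (b (l 16489832) (a (a (l 16461976) (l 16474280)) (l 16494360)))) (b (l 16521416) (l 16519736))) (b (l 16531904) (l 16525320))) (b (a (a (b (a (l 16464192) (l 16485720)) (a (l 16464648) (l 16480728))) (l 16458984)) (l 16502064)) (a (a (b (l 16476304) (l 16479912)) (b (l 16511464) (l 16510400))) (l 16441256)))) (b (a (b (a (l 16485552) (l 16450928)) (a (l 16490128) (l 16517032))) (b (l 16413320) (a (l 16551808) (l 16606056)))) (a (b (a (l 16486576) (l 16516240)) (l 16410184)) (b (a (l 16549976) (l 16598664)) (a (l 16541088) (l 16585040)))))) (b (b (a (b (a (l 16640104) (l 16533808)) (l 16629440)) (b (a (b (l 16541576) (l 16557504)) (l 16456416)) (a (l 16567264) (b (l 16492600) (l 16524336))))) (a (l 16549432) (a (l 16576952) (l 16532648)))) (b (a (a (l 16582752) (l 16482384)) (b (l 16474928) (a (l 16531704) (l 16480984)))) (b (a (l 16573096) (l 16373904)) (a (l 16515056) (b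 (l 16459024) (l 16448608))))))) (b (a (b (a (b (l 16421936) (l 16413216)) (b (l 16443152) (l 16533648))) (a (b (l 16384768) (l 16378512)) (l 16432664))) (b (a (b (l 16556520) (l 16560552)) (b (l 16341688) (l 16426368))) (a (a (l 16564672) (l 16541168)) (b (l 16452032) (l 16457240))))) (a (b (a (c (l 106467412935) (l 16368072)) (l 16455312)) (a (b (l 110225392423) (l 16361216)) (l 16481016))) (b (a (l 16379224) (l 16357688)) (a (l 16524864) (a (l 16482784) (l 16434432))))))), by decide +kernel⟩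

def k10_pm_202 : ∃ t, chk3 f_pm_202 t 7 3 1 = true :=
  ⟨(b (b (a (a (c (b (b (l 128479072263) (l 131163390183)) (a (l 3) (l 16326696))) (b (a (l 16350752) (l 16446344)) (l 127942061287))) (b (c (c (l 16441712) (l 16475520)) (l 16466808)) (a (c (l 16437608) (l 16448808)) (l 16248552)))) (a (b (c (l 16425576) (l 16498720)) (c (l 16394952) (l 16470896))) (b (a (l 16428304) (c (l 16225624) (l 16426872))) (c (l 16208584) (l 16419752))))) (a (c (a (b (a (l 3) (l 142437528567)) (c (l 104856980391) (l 96803879607))) (c (b (l 16387048) (l 16362296)) (b (l 16419656) (l 16392888)))) (a (b (l 134921369591) (l 146732559143)) (b (l 16442768) (l 16432120)))) (c (a (b (l 16365368) (l 16357992)) (b (l 16325248) (l 16294616))) (a (b (l 16441880) (l 16412080)) (l 16376632))))) (b (a (b (c (a (c (l 106467553063) (l 89824592439)) (c (l 16340032) (l 16367720))) (a (l 144585077559) (l 16421120))) (a (c (c (l 198809329975) (l 316920913943)) (l 155322453111)) (c (c (l 16321072) (l 16344864)) (l 16399472))))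 (c (b (a (l 16310464) (l 16265568)) (a (l 16286384) (l 16238648))) (a (b (l 16382240) (l 16352936)) (l 16314088)))) (b (a (a (l 3) (c (a (l 120962959479) (l 16302952)) (l 16373408))) (c (a (l 16265816) (l 16214800)) (a (l 16324448) (l 16267864)))) (a (l 2) (c (a (l 16249728) (l 16195016)) (l 186394269655)))))), by decide +kernel⟩

theorem s11_pm_202 : ∃ t, chk3 f_pm_202 t 7 2 1 = true := ex3_c k8_pm_202 k9_pm_202

theorem s12_pm_202 : ∃ t, chk3 f_pm_202 t 7 1 1 = true := ex3_b s11_pm_202 k10_pm_202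

theorem s13_pm_202 : ∃ t, chk3 f_pm_202 t 27 8 1 = true := ex3_a k3_pm_202 k4_pm_202

theorem s14_pm_202 : ∃ t, chk3 f_pm_202 t 27 4 1 = true := ex3_b s13_pm_202 k5_pm_202

theorem s15_pm_202 : ∃ t, chk3 f_pm_202 t 13 4 1 = true := ex3_a k2_pm_202 s14_pm_202

theorem s16_pm_202 : ∃ t, chk3 f_pm_202 t 6 4 1 = true := ex3_a k1_pm_202 s15_pm_202

theorem s17_pm_202 : ∃ t, chk3 f_pm_202 t 6 2 1 = true := ex3_b s16_pm_202 k6_pm_202

theorem s18_pm_202 : ∃ t, chk3 f_pm_202 t 6 1 1 = true := ex3_b s17_pm_202 k7_pm_202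

theorem s19_pm_202 : ∃ t, chk3 f_pm_202 t 3 1 1 = true := ex3_a s18_pm_202 s12_pm_202

theorem s20_pm_202 : ∃ t, chk3 f_pm_202 t 1 1 1 = true := ex3_a k0_pm_202 s19_pm_202

theorem c_pm_202 : CertB 0 536870912 1073741824 536870912 858993459 64424510 3 eng mog cd0q2 cd2q2 pd0 false true false .pp 2 0 2
    ndB0q2 ndB2q2 pcB0 Cut.none Ext.none :=
  certB1 (fam := false) (s1 := true) (s2 := false) (a := 2) (b := 0) (c := 2) (cn := .pp) (n1 := ndB0q2) (n2 := ndB2q2) (pc := pcB0) (cut := Cut.none) (xt := Ext.none) (P1 := 0) (W1 := 536870912) (P2 := 1073741824) (W2 := 536870912) (P3 := 858993459) (W3 := 64424510) (N0 := 3) (En := eng) (mo := mog) (C1 := cd0q2) (C2 := cd2q2) (C3 := pd0)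
    rfl (fun _ => rfl) s20_pm_202

noncomputable def f_pm_203 : ℕ → ℕ → ℕ → ℕ → Bool := onCell 0 536870912 0 1230186008 858993459 64424510
    (rowB 3 eng mog cd0q2 cd2q3 pd0 0 false true false .up 2 0 3 (qsf 0 536870912 0 1230186008 0) ndB0q2 ndB2q3 pcB0 Cut.none Ext.none)

def k0_pm_203 : ∃ t, chk3 f_pm_203 t 1 1 1 = true :=
  ⟨(b (l 2) (b (l 2) (a (l 3) (b (l 2) (a (l 3) (b (a (a (l 3) (l 2)) (l 2)) (a (a (l 3) (b (c (b (l 88750671271) (l 119352336087)) (c (l 16335280) (l 16307424))) (b (c (l 116667982103) (l 16320104)) (c (l 113446761879) (l 16336648))))) (a (b (c (l 16227544) (l 16231200)) (c (l 16282184) (l 16262384))) (b (l 2) (c (l 16175696) (l 16143392))))))))))), by decide +kernel⟩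

theorem c_pm_203 : CertB 0 536870912 0 1230186008 858993459 64424510 3 eng mog cd0q2 cd2q3 pd0 false true false .up 2 0 3
    ndB0q2 ndB2q3 pcB0 Cut.none Ext.none :=
  certB0 (fam := false) (s1 := true) (s2 := false) (a := 2) (b := 0) (c := 3) (cn := .up) (n1 := ndB0q2) (n2 := ndB2q3) (pc := pcB0) (cut := Cut.none) (xt := Ext.none) (P1 := 0) (W1 := 536870912) (P2 := 0) (W2 := 1230186008) (P3 := 858993459) (W3 := 64424510) (N0 := 3) (En := eng) (mo := mog) (C1 := cd0q2) (C2 := cd2q3) (C3 := pd0)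
    rfl k0_pm_203

noncomputable def cut_pm_213 : Cut := Cut.of [[⟨0, 1, 0, 67108864⟩, ⟨1, 1, 0, 67108864⟩, ⟨2, 2, 0, 16777216⟩]]

noncomputable def f_pm_213 : ℕ → ℕ → ℕ → ℕ → Bool := onCell 0 536870912 0 1230186008 858993459 64424510
    (rowB 3 eng mog cd0q2 cd2q3 pd1 0 false true false .pnn 2 1 3 (qsf 0 536870912 0 1230186008 1) ndB0q2 ndB2q3 pcB1 cut_pm_213 Ext.none)

def k0_pm_213 : ∃ t, chk3 f_pm_213 t 2 1 1 = true :=
  ⟨(b (l 3) (l 3)), by decide +kernel⟩

def k1_pm_213 : ∃ t, chk3 f_pm_213 t 6 1 1 = true :=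
  ⟨(b (l 3) (b (l 3) (l 3))), by decide +kernel⟩

def k2_pm_213 : ∃ t, chk3 f_pm_213 t 14 1 1 = true :=
  ⟨(b (b (l 3) (l 3)) (a (b (l 3) (b (l 3) (b (l 3) (l 3)))) (a (b (l 3) (b (b (l 3) (l 3)) (b (a (l 3) (b (c (b (l 3) (l 16291344)) (l 296519831655)) (c (c (l 16338360) (l 16286920)) (c (l 16284776) (l 16290144))))) (b (c (c (b (l 16302784) (l 16345424)) (b (l 16299376) (l 16304312))) (c (b (l 16303896) (l 16313624)) (l 16387032))) (l 1))))) (b (b (l 3) (b (l 3) (b (l 3) (l 3)))) (b (b (a (l 3) (c (c (b (b (l 16335480) (l 16322920)) (b (l 16312624) (l 16304176))) (b (l 387250938071) (l 16340568))) (b (b (l 16317896) (l 16246264)) (c (l 16249624) (l 16224280))))) (c (b (c (b (l 16344768) (l 16296456)) (b (l 16274968) (l 16269896))) (c (b (l 16290808) (l 16285800)) (l 78013317159))) (b (c (l 16333088) (l 16335272)) (b (l 83918899207) (l 79087070599))))) (b (c (b (c (b (l 16281408) (l 16277592)) (l 16323912)) (c (b (l 16274352) (l 16271696)) (l 16262048))) (b (c (l 16250408) (l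 16289744)) (c (l 16260600) (l 16164000)))) (b (c (c (b (l 16269704) (l 16268432)) (l 16372584)) (c (l 16361376) (l 16298520))) (l 1)))))))), by decide +kernel⟩

def k3_pm_213 : ∃ t, chk3 f_pm_213 t 15 4 1 = true :=
  ⟨(a (l 3) (b (l 6) (a (b (l 6) (a (l 3) (b (a (l 3) (b (a (l 3) (a (l 3) (c (b (l 428053906599) (l 330343390231)) (b (c (l 297057395127) (l 193978173735)) (c (l 16780832) (l 174113946375)))))) (a (l 3) (c (c (l 321216589767) (a (l 299204878887) (l 16787712))) (c (b (l 210621178055) (l 16780240)) (c (l 177872045399) (b (l 173577077799) (l 176798306023)))))))) (a (a (l 3) (b (l 3) (b (l 3) (c (l 330880272231) (c (l 185925126215) (l 188609472039)))))) (c (c (b (a (l 334638360519) (l 16792960)) (l 244980928663)) (b (a (l 296520526503) (l 16790168)) (l 188609476967))) (b (a (c (a (l 266455751623) (l 196125661399)) (c (l 177872048279) (b (l 189683193703) (l 168745245223)))) (c (l 16781920) (b (l 182703885207) (l 16774008)))) (c (a (l 180019537959) (l 16789728)) (a (b (c (l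 16776400) (l 171429603111)) (l 168745248295)) (l 16775776))))))))) (b (l 6) (c (b (b (a (a (a (b (c (l 16782040) (l 16779776)) (l 16781920)) (l 16775752)) (l 16764592)) (l 16784088)) (a (a (b (l 16777528) (l 16768200)) (l 16766800)) (l 16786448))) (a (a (b (l 16780616) (l 16794072)) (c (l 16793304) (l 16769384))) (l 16790776))) (b (a (a (c (b (c (l 193441303735) (l 190220075031)) (l 16776664)) (b (a (b (c (l 16775384) (l 182167010535)) (l 16775376)) (l 16780024)) (b (l 16775952) (l 16771512)))) (b (c (l 16782168) (l 16779712)) (l 16761536))) (c (l 16761176) (l 16758968))) (a (a (b (c (l 16786632) (l 16772896)) (c (l 16789176) (l 16785616))) (b (l 16763448) (l 16786744))) (b (l 16762776) (l 16765024))))))))), by decide +kernel⟩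

def k4_pm_213 : ∃ t, chk3 f_pm_213 t 30 10 1 = true :=
  ⟨(b (l 3) (l 3)), by decide +kernel⟩

def k5_pm_213 : ∃ t, chk3 f_pm_213 t 31 20 1 = true :=
  ⟨(a (a (b (l 3) (a (l 3) (a (l 3) (c (b (l 326048446999) (c (l 16813472) (l 16789488))) (b (b (l 3) (c (l 160692213975) (l 163376563735))) (c (l 163376570407) (c (l 159081602519) (b (l 155323505751) (l 156397252759))))))))) (b (b (a (a (l 3) (c (b (l 277730055879) (l 16788672)) (c (l 172503350823) (c (l 168208383319) (a (l 161765929735) (l 153175995479)))))) (c (a (l 16787632) (l 16776912)) (c (l 16782488) (c (l 16790256) (l 16783120))))) (a (c (c (l 277193195575) (l 228337937255)) (c (a (l 168208389879) (l 16786744)) (b (a (l 177872064503) (l 151028517767)) (c (l 166597781879) (l 163376552695))))) (c (l 16780968) (c (l 16796552) (c (l 16793640) (l 16791616)))))) (c (b (a (c (l 16808360) (l 16794648)) (l 16806472)) (c (l 16813656) (l 16789032))) (b (c (a (a (l 160155335239) (l 16801464)) (l 16800712)) (a (c (l 138680495415) (b (l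 163376556471) (l 122574371367))) (l 16775544))) (a (c (l 16796144) (c (l 16793224) (a (l 16796936) (l 16801192)))) (b (l 16781096) (l 16783584))))))) (a (b (b (c (l 16776304) (c (l 16791840) (l 16766912))) (c (l 16801296) (c (l 16795344) (l 16791008)))) (c (b (l 16805904) (l 16811160)) (c (l 16780672) (a (l 16776312) (l 16796104))))) (b (c (l 16798152) (b (l 16767712) (l 16770864))) (c (l 16807656) (l 16755600))))), by decide +kernel⟩

def k6_pm_213 : ∃ t, chk3 f_pm_213 t 31 21 1 = true :=
  ⟨(a (a (b (a (a (l 3) (l 3)) (c (b (c (l 251423420903) (l 167134682039)) (c (l 16826488) (l 16802408))) (b (c (c (l 162839715511) (l 160155357287)) (a (c (l 154786647799) (b (l 3) (l 152102298551))) (c (l 16800088) (b (l 156934128999) (l 16810240))))) (c (a (l 159081627767) (l 16798792)) (a (c (l 154786660023) (b (l 152102304823) (a (l 151028571879) (l 16817648)))) (b (l 16803848) (l 16796672))))))) (c (b (c (l 232096090151) (l 161229123895)) (c (l 214916237575) (l 160692268855))) (a (b (a (l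 3) (c (l 155323546711) (c (b (l 151565453319) (l 16822464)) (b (a (l 3) (l 148881096183)) (b (l 148881104055) (l 148344236391)))))) (b (c (l 153712951159) (a (l 3) (c (l 16821152) (a (b (l 148344242471) (l 147807375223)) (l 16824464))))) (c (l 153176084231) (c (l 149417990455) (a (c (l 215453123495) (b (l 147807379687) (b (l 147270511991) (c (l 142438681559) (l 146196774535))))) (a (c (l 16824152) (b (l 16830216) (l 16829520))) (l 16822984))))))) (c (b (c (l 16828184) (l 16826344)) (l 16813952)) (b (c (l 75866646199) (b (a (l 16816168) (l 16820032)) (l 16816376))) (c (l 16810896) (b (l 16817392) (l 16821128)))))))) (b (c (b (c (l 16819712) (l 16815816)) (c (l 16826608) (l 16822456))) (c (b (a (l 16791280) (l 16810992)) (l 16796984)) (b (c (l 16787296) (a (l 16796512) (l 16804904))) (c (l 16793400) (l 16801384))))) (b (c (c (l 16830016) (l 16829800)) (c (l 16824968) (a (l 16800024) (l 16818640)))) (c (l 16813064) (c (l 16832672) (a (l 16807272) (l 16825816))))))) (c (b (c (l 16822824)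 (l 16796368)) (b (l 16789296) (l 16796200))) (b (a (c (l 16812312) (l 16785424)) (c (l 16789536) (l 16803744))) (c (a (l 16825976) (l 16823696)) (a (l 16787456) (l 16794416)))))), by decide +kernel⟩

def k7_pm_213 : ∃ t, chk3 f_pm_213 t 60 11 1 = true :=
  ⟨(l 3), by decide +kernel⟩

def k8_pm_213 : ∃ t, chk3 f_pm_213 t 61 22 1 = true :=
  ⟨(a (l 3) (a (b (l 3) (l 3)) (b (a (l 3) (b (l 3) (a (l 3) (c (c (l 16823568) (l 16800272)) (c (b (l 16822872) (l 16814696)) (b (b (l 3) (c (l 16819056) (l 181093350727))) (c (l 16812832) (b (l 138143668903) (l 134922433527))))))))) (b (b (c (l 190220114119) (a (l 3) (c (l 16805760) (c (l 16805264) (b (l 134922424807) (l 132238060295)))))) (c (l 149954803815) (c (l 135996152167) (c (l 133848665799) (a (l 202568138871) (a (l 129016824903) (l 16792712))))))) (b (c (l 151565392631) (c (l 131701161735) (c (l 129553676871) (a (l 133848643095) (l 16782576))))) (c (l 137069853175) (c (l 16769816) (c (l 16770576) (b (l 126869298711) (l 125795545431)))))))))),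 by decide +kernel⟩

def k9_pm_213 : ∃ t, chk3 f_pm_213 t 61 23 1 = true :=
  ⟨(b (a (l 3) (c (c (b (a (l 301889191239) (l 16742368)) (b (l 183240667095) (l 142438448279))) (b (a (l 184851336887) (l 16760304)) (c (l 140827864455) (l 138143490055)))) (c (c (b (l 137069804535) (a (l 141364736215) (l 16732184))) (b (a (l 142975403847) (l 16756656)) (a (l 139217214167) (l 16730368)))) (c (a (b (a (l 3) (l 138680416999)) (b (l 138680384087) (l 134922260711))) (b (a (l 68887219175) (l 16754728)) (l 16728592))) (a (b (b (l 164987110311) (l 139754152951)) (b (l 137069770039) (a (l 141901583607) (l 16721800)))) (b (b (l 122574309271) (l 16747432)) (c (l 16727280) (l 16726416)))))))) (b (a (l 3) (c (c (a (b (l 16695192) (l 16680816)) (l 16690736)) (a (b (l 16702600) (l 16686512)) (l 16685928))) (c (b (a (l 132774720823) (l 16688816)) (c (l 125795389031) (l 123111039367))) (a (b (c (l 129553522967) (c (l 127942911047) (l 126869171511))) (c (l 124184782967) (l 122037305271))) (b (l 16705536)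 (l 16689768)))))) (a (a (l 3) (a (l 3) (c (c (b (l 145122694007) (l 139217080359)) (b (l 147807058535) (l 136532736519))) (b (c (l 157470744567) (l 159618218295)) (c (l 133311522455) (c (l 130627171207) (l 129553435479))))))) (b (c (a (c (l 16665720) (l 16667048)) (l 16665832)) (c (c (l 16669488) (l 52780918039)) (a (c (l 16676672) (l 98951825095)) (l 16673240)))) (c (a (c (l 16649904) (l 16645504)) (l 16649912)) (c (c (l 16642360) (l 16639896)) (a (a (l 16664280) (l 16657960)) (l 16655928)))))))), by decide +kernel⟩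

def k10_pm_213 : ∃ t, chk3 f_pm_213 t 31 11 2 = true :=
  ⟨(c (b (a (b (a (b (l 16818776) (l 16824992)) (l 16813272)) (a (b (l 16807816) (l 16788288)) (l 16780432))) (b (l 16835576) (l 16763264))) (b (a (a (b (l 16766472) (l 16721320)) (l 16758928)) (l 16744120)) (a (a (b (l 16694704) (l 16665424)) (l 16685800)) (l 16693776)))) (b (a (b (a (b (a (l 16820808) (l 16836304)) (a (l 16800448) (l 16821368))) (l 16807816)) (a (b (l 16782904) (l 16783832)) (l 16752896))) (b (l 16806640) (l 16753664))) (b (a (a (b (l 16761336) (l 16736272)) (l 16750688)) (l 16711344)) (a (a (b (l 16687552) (l 16656960)) (l 16674992)) (l 16657896))))), by decide +kernel⟩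

def k11_pm_213 : ∃ t, chk3 f_pm_213 t 62 11 3 = true :=
  ⟨(c (b (c (b (a (b (l 145122996151) (l 16797640)) (l 16803464)) (a (b (l 16800816) (l 16780424)) (l 16789704))) (b (a (b (b (l 143512410215) (l 145122997319)) (a (l 140291128247) (l 16815872))) (l 16800432)) (a (b (a (l 16799432) (l 16798008)) (l 16778120)) (l 16765200)))) (b (b (c (l 16757096) (a (l 16754824) (l 16752600))) (c (l 16731536) (l 16727696))) (b (c (l 16703080) (l 16698640)) (c (l 16671640) (l 16666504))))) (b (b (a (c (b (a (a (b (l 143512396135) (l 144586134295)) (b (l 16834200) (l 16827088))) (l 16807976)) (a (b (l 140291147607) (l 16811536)) (l 16813568))) (b (b (a (a (a (l 3) (c (c (l 16828816) (l 145659891399)) (b (a (l 248739114151) (b (l 145659902071) (l 16833816))) (b (l 144586153527) (l 16831216))))) (b (b (l 16830992) (l 16828016)) (l 16825448))) (l 16809192)) (a (a (c (l 143512392199) (a (b (l 193441402823) (l 139217435367)) (b (l 16827880) (l 16824152)))) (a (l 16820424) (l 16824904))) (l 16823056)))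 (a (a (c (b (l 16822008) (l 16810960)) (b (b (l 133848718231) (l 16816600)) (l 16810192))) (b (l 16817520) (l 16809096))) (l 16790232)))) (b (a (l 16804280) (l 16822800)) (a (l 16809896) (l 16807520)))) (a (b (c (b (l 16801376) (l 16791656)) (a (a (b (l 16801432) (l 16791600)) (l 16795144)) (l 16793016))) (a (b (l 16781320) (l 16770160)) (l 16773392))) (b (l 16769768) (l 16770008)))) (b (a (b (a (a (l 16760536) (l 16751440)) (l 16749664)) (a (l 16725272) (l 16722920))) (c (l 16735592) (l 16689184))) (b (a (a (l 16695288) (l 16692960)) (l 16689736)) (a (l 16660920) (l 16656496)))))), by decide +kernel⟩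

def k12_pm_213 : ∃ t, chk3 f_pm_213 t 63 11 3 = true :=
  ⟨(a (b (b (b (l 16781552) (l 16766656)) (c (l 16765208) (l 16734560))) (b (b (l 16748032) (l 16722008)) (b (l 16692936) (l 16660568)))) (b (b (b (l 16820320) (l 16784704)) (b (l 16788528) (l 16768712))) (b (b (l 16745992) (l 16720248)) (b (l 16691320) (l 16659152))))), by decide +kernel⟩

def k13_pm_213 : ∃ t, chk3 f_pm_213 t 60 24 1 = true :=
  ⟨(l 3), by decide +kernel⟩

def k14_pm_213 : ∃ t, chk3 f_pm_213 t 244 24 1 = true :=
  ⟨(b (l 3) (c (a (b (l 3) (b (l 3) (c (b (l 3) (l 232095618311)) (l 224579444215)))) (b (b (b (l 3) (c (c (l 221358262839) (l 212231462583)) (l 226726932007))) (c (b (c (l 154786276791) (l 134922048615)) (c (l 133848308615) (l 131163949415))) (c (l 145659415687) (l 144585681319)))) (c (b (c (b (l 130627080391) (l 127405852023)) (l 123110828663)) (b (l 118815860071) (l 16583088))) (b (b (l 123110842039) (l 16581376)) (a (l 117742132871) (l 16578784)))))) (b (a (l 3) (b (c (l 219210759191) (l 218673884359))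 (c (a (l 3) (l 139216989207)) (l 139216979911)))) (c (b (a (l 3) (l 118279016023)) (c (l 119889622615) (l 118815873719))) (b (l 122037098695) (l 116668380071)))))), by decide +kernel⟩

def k15_pm_213 : ∃ t, chk3 f_pm_213 t 245 48 1 = true :=
  ⟨(b (a (b (l 3) (b (l 3) (l 3))) (b (c (b (c (l 138143361559) (l 16634944)) (c (a (l 139217082855) (l 16647944)) (l 127405876631))) (c (a (l 132237745863) (l 16634744)) (a (l 129016534007) (l 16642408)))) (c (c (c (b (a (l 135458964183) (l 16640328)) (b (l 129553374791) (a (l 16628224) (l 16629248)))) (b (l 129016511095) (a (l 16628448) (l 16629208)))) (c (l 23789765847) (l 16613768))) (b (c (l 16621104) (l 16628704)) (c (l 16611760) (l 16619160)))))) (c (b (c (a (a (l 3) (b (b (c (b (l 155323165719) (l 139217036439)) (l 183240450583)) (c (l 137069553271) (l 134922065639))) (c (c (l 134385197479) (l 132774582439)) (a (l 204178413575) (l 125795261463))))) (c (b (a (b (b (l 16625512) (l 16625152)) (l 16624648)) (l 16626040)) (b (l 16624512)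 (l 16623848))) (b (a (b (l 16623208) (l 16622456)) (l 16623624)) (l 16621744)))) (c (a (b (b (l 192367245063) (l 134922062055)) (l 132237708631)) (b (b (l 16621472) (l 16620656)) (l 16619440))) (b (b (l 124184595143) (l 123110851639)) (l 121500239047)))) (a (c (b (a (l 3) (c (b (l 129553356567) (l 16620872)) (l 125795258391))) (c (c (l 131700836951) (l 130090221927)) (c (l 129016477879) (l 127405862983)))) (c (b (l 129016480199) (l 125258380823)) (l 123647721655))) (b (c (c (l 16622840) (l 16620272)) (l 16595656)) (c (b (l 16620496) (l 16619792)) (l 16593944))))) (c (b (c (b (l 122573990951) (l 119889633783)) (b (l 120963386663) (l 118279029415))) (c (l 116668408423) (l 115057804295))) (b (c (b (l 118815911239) (l 116668424647)) (l 116668423463)) (c (l 112910329079) (l 111836575143)))))), by decide +kernel⟩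

def k16_pm_213 : ∃ t, chk3 f_pm_213 t 245 49 1 = true :=
  ⟨(c (b (b (c (c (b (c (a (l 129016479271) (l 16620920)) (l 124721512023)) (c (l 124184640215) (l 16616992))) (a (b (l 124721510983) (l 16619280)) (l 16616536))) (c (a (l 118815873831) (l 16613680)) (l 113984043527))) (c (c (a (b (l 16615128) (l 16613736)) (l 16616824)) (b (a (l 16612496) (l 16614304)) (l 16611872))) (c (l 16588752) (l 16585960)))) (b (b (c (c (l 16613600) (l 16610336)) (l 16584656)) (c (l 16589528) (l 16582840))) (c (a (l 16586160) (l 16609440)) (l 16580056)))) (b (c (b (c (l 16597808) (l 16585088)) (a (l 16592648) (l 16581776))) (b (a (l 110762829031) (l 16602120)) (a (l 16584536) (l 16586648)))) (b (c (l 16598584) (l 16558952)) (c (l 16594096) (l 16533368))))), by decide +kernel⟩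

def k17_pm_213 : ∃ t, chk3 f_pm_213 t 123 24 1 = true :=
  ⟨(b (b (a (c (c (b (l 16633688) (a (c (l 16637432) (l 16634856)) (l 16637888))) (b (l 16633680) (a (l 16610208) (l 16631936)))) (c (b (l 16634352) (l 16615992)) (b (a (l 16641336) (l 16639896)) (l 16621760)))) (c (c (l 16628192) (l 16621080)) (c (l 16635144) (l 16628440)))) (c (a (b (c (b (c (l 16628632) (l 16625600)) (a (l 16624816) (l 16626672))) (b (c (l 16622656) (l 16619808)) (l 16598576))) (c (a (b (l 16623456) (l 16622096)) (l 16624672)) (l 16596040))) (c (b (a (l 16629184) (l 16630992)) (l 16627536)) (c (l 16601560) (l 16597368)))) (c (b (c (l 16595128) (l 16591800)) (a (l 16589656) (l 16610008))) (b (c (l 16609504) (l 16606312)) (a (l 16604560) (l 16601472)))))) (c (b (c (b (a (b (l 16621728) (l 16620376)) (l 16625016)) (a (a (l 16617272) (l 16619368)) (l 16622496))) (b (a (l 16592640) (l 16615376)) (l 16590128))) (c (c (l 16598144) (l 16592792)) (c (l 16587464) (l 16582152)))) (b (b (c (l 16600920) (l 16598008))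 (c (l 16601896) (l 16592832))) (c (c (l 16597824) (l 16592544)) (c (l 16575000) (l 16525464)))))), by decide +kernel⟩

def k18_pm_213 : ∃ t, chk3 f_pm_213 t 31 24 1 = true :=
  ⟨(b (b (a (c (a (c (l 16633200) (l 16623328)) (l 16654016)) (a (c (l 16634408) (l 16624496)) (l 16584872))) (c (a (l 16658704) (l 16663416)) (c (l 16633632) (l 16614456)))) (c (c (a (b (a (l 16656456) (l 16642472)) (l 16615960)) (l 16631016)) (a (b (l 16605200) (l 16602088)) (l 16610776))) (a (b (c (l 16592096) (l 16599776)) (c (l 16587960) (l 16594560))) (c (l 16610736) (l 16588944))))) (c (a (a (b (c (l 16608736) (l 16595400)) (c (l 16604240) (l 16588792))) (b (l 16607912) (l 16623888))) (b (c (l 16627992) (l 16605040)) (l 16570496))) (a (a (b (c (l 16602856) (l 16589152)) (c (l 16594008) (l 16559032))) (b (c (l 16602160) (l 16583712)) (l 16582712))) (b (c (l 16602104) (l 16577248)) (c (l 16593136) (l 16564856)))))), by decide +kernel⟩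

def k19_pm_213 : ∃ t, chk3 f_pm_213 t 30 25 1 = true :=
  ⟨(a (a (l 3) (a (b (l 3) (l 3)) (b (b (l 3) (c (c (b (l 231558746999) (l 128479531927)) (b (l 228874394151) (l 125795170695))) (c (b (l 227800644215) (l 123647665607)) (b (l 260549649031) (l 121500043735))))) (c (b (c (b (l 123110816743) (l 118278971127)) (b (l 120426453463) (l 115594607159))) (c (c (l 111836510695) (l 110225893959)) (c (l 16530160) (l 16497720)))) (b (c (b (l 118278915415) (l 16476992)) (b (l 16426736) (l 16408640))) (c (c (l 16465088) (l 16432280)) (l 103783213367))))))) (b (c (b (c (a (b (a (c (l 121500209175) (l 119889601815)) (l 16584384)) (c (a (l 117205241223) (l 16604680)) (l 111836546103))) (c (l 16593344) (l 16587048))) (a (b (c (l 112910291319) (l 110762810215)) (c (l 109689064375) (l 16590528))) (c (l 16580736) (l 16574416)))) (c (a (b (c (l 111299674167) (l 16573720)) (a (l 16569952) (l 16596424))) (l 16605872)) (a (b (a (l 16587240) (l 16589528)) (a (l 16583136) (l 16585536))) (l 16591032))))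 (b (c (a (b (c (l 109152192039) (l 107004698295)) (c (l 16586912) (l 16547280))) (c (l 16589056) (l 16568296))) (a (b (c (l 105394051079) (l 16487248)) (c (l 16506128) (l 16464792))) (l 16518400))) (c (a (a (b (l 16542152) (l 16519624)) (l 16533568)) (l 16539208)) (a (c (l 96804035655) (l 16432656)) (l 16449040))))) (c (c (b (a (c (c (l 16572104) (l 16590320)) (l 16586216)) (l 16600544)) (a (c (l 16585904) (l 16575512)) (l 16595200))) (b (a (c (l 16580768) (l 16544840)) (l 16578640)) (c (a (l 16538672) (l 16552344)) (l 16505560)))) (c (b (a (c (l 16506840) (l 16468864)) (l 16490784)) (c (l 16466240) (l 16427312))) (b (a (c (l 16430920) (l 16393000)) (l 16404856)) (c (l 16388776) (l 16350624))))))), by decide +kernel⟩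

def k20_pm_213 : ∃ t, chk3 f_pm_213 t 31 25 1 = true :=
  ⟨(b (c (a (b (c (l 16625528) (l 16605200)) (c (l 16621504) (l 16598264))) (b (l 16608224) (l 16624960))) (a (b (c (l 16584224) (l 16503616)) (c (l 16556072) (l 16447744))) (b (c (l 16583608) (l 16525784)) (l 16524272)))) (c (a (b (c (l 16617544) (l 16591048)) (c (l 16613680) (l 16552336))) (b (l 16620696) (l 16616424))) (a (b (c (l 16500056) (l 16397168)) (c (l 16449208) (l 16351544))) (b (l 16458656) (l 16399928))))), by decide +kernel⟩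

def k21_pm_213 : ∃ t, chk3 f_pm_213 t 15 26 1 = true :=
  ⟨(a (a (a (b (l 3) (b (b (l 3) (c (l 292225005399) (l 352354373735))) (c (c (l 116131316135) (l 124721167559)) (c (l 124184211655) (l 119352289271))))) (b (c (b (c (c (a (l 235853670407) (l 16554472)) (l 111836480935)) (b (l 111299560631) (l 107004561383))) (c (b (l 106467763319) (l 102172761959)) (b (l 16471048) (l 16433992)))) (b (c (b (l 109151968151) (l 16406896)) (b (l 16361240) (l 16346360))) (c (b (l 16391264) (l 16376352)) (l 101098758295)))) (c (b (c (b (l 16475360) (l 16459952)) (l 93582712599)) (c (l 16438248) (l 16383504))) (b (c (l 16355264) (l 16299608)) (c (l 16329632) (l 16276648)))))) (b (c (b (c (c (l 16581024) (l 16541656)) (c (l 16502816) (l 16464504))) (c (c (l 16539952) (l 16501632)) (c (l 16463992) (l 16427024)))) (c (b (c (l 16426728) (l 16389480)) (c (l 16390728) (l 16355120))) (b (c (l 16352760) (l 16316576)) (l 16323944)))) (c (b (c (c (l 16502496) (l 16465168)) (l 16431704)) (c (l 16450112) (l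 16379328))) (b (c (l 16341048) (l 16274688)) (c (l 16312480) (l 16249608)))))) (c (b (a (b (c (l 16606808) (l 16501952)) (c (l 16557528) (l 16456216))) (b (l 16599968) (l 16541608))) (c (a (b (l 16512664) (l 16471968)) (l 16528048)) (a (b (l 16414784) (l 16377440)) (l 16403616)))) (b (c (a (c (l 16405136) (l 16358464)) (l 16380664)) (a (c (l 16313424) (l 16270000)) (l 16268520))) (b (a (a (l 16288184) (l 16276088)) (l 16259728)) (c (l 16302608) (l 16257880)))))), by decide +kernel⟩

def k22_pm_213 : ∃ t, chk3 f_pm_213 t 15 27 1 = true :=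
  ⟨(a (c (b (a (b (c (a (l 107541337991) (l 16411072)) (a (l 107541258391) (l 16357888))) (a (c (l 98951351927) (l 16341712)) (b (l 16365488) (l 16353760)))) (b (c (l 16418920) (l 16350408)) (c (l 16389600) (l 16323632)))) (a (c (b (c (l 16374640) (l 16351504)) (c (l 16354944) (l 16332504))) (b (l 83382016119) (l 16299992))) (c (b (l 16363144) (l 16339608)) (c (l 16303968) (l 16274592))))) (b (a (b (a (c (l 16319024) (l 16273952)) (c (l 16306208) (l 16256040))) (c (l 90898166807) (l 16289344))) (b (c (l 16286528) (l 16227312)) (a (l 16243584) (l 16225800)))) (c (a (b (l 16274136) (l 16258776)) (l 16233512)) (a (b (l 16232440) (l 16220016)) (l 16184360))))) (b (c (c (a (c (l 16439728) (l 16392760)) (l 16436072)) (a (l 16410584) (l 16321368))) (c (a (l 16267840) (l 16221128)) (a (l 16197488) (l 16135416)))) (c (c (a (l 16352216) (l 16358664)) (a (l 16270688) (l 16254568))) (c (a (l 16200096) (l 16166656)) (a (l 16140528) (l 16095000)))))), by decide +kernel⟩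

def k23_pm_213 : ∃ t, chk3 f_pm_213 t 15 14 1 = true :=
  ⟨(b (a (c (b (a (c (b (l 16368880) (l 16312664)) (b (l 16284816) (l 16271928))) (c (b (l 16318920) (l 16300760)) (l 16294984))) (c (a (b (l 16300480) (l 16290176)) (l 16361720)) (a (b (l 16261088) (l 16252104)) (l 16226880)))) (b (c (a (b (l 16245832) (l 16235128)) (l 16204360)) (a (l 16310672) (l 16163504))) (c (a (l 16222952) (l 16185304)) (a (l 16194912) (l 16153232))))) (c (b (a (c (l 16301096) (l 16227848)) (c (l 16296512) (l 16203552))) (c (a (l 16261416) (l 16247112)) (a (l 16196480) (l 16165816)))) (b (c (a (l 16166936) (l 16128392)) (a (l 16118488) (l 16071104))) (c (l 16313512) (a (l 16108648) (l 16061480)))))) (c (a (b (c (a (b (l 16281080) (l 16272896)) (l 16253696)) (a (l 16262336) (l 16208656))) (c (a (l 16261744) (l 16233768)) (a (l 16231592) (l 16196456)))) (b (c (a (l 16230480) (l 16208352)) (a (l 16174368) (l 16139072))) (c (a (l 16205160) (l 16176752)) (a (l 16159384) (l 16120784))))) (a (b (c (a (l 16213408)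 (l 16175008)) (a (l 16192992) (l 16152952))) (c (a (l 16210936) (l 16172560)) (a (l 16199968) (l 16162368)))) (b (c (l 16238536) (a (l 16110016) (l 16064472))) (c (l 16298760) (a (l 16122024) (l 16079144))))))), by decide +kernel⟩

def k24_pm_213 : ∃ t, chk3 f_pm_213 t 15 15 1 = true :=
  ⟨(b (c (a (b (c (a (l 16249048) (l 16216736)) (a (l 16226512) (l 16189488))) (c (a (l 16238720) (l 16202376)) (a (l 16226072) (l 16187472)))) (c (b (a (l 16183424) (l 16149864)) (a (l 16164776) (l 16126568))) (b (l 16297616) (c (l 16128048) (l 16123920))))) (a (b (c (a (l 16215280) (l 16177480)) (c (l 16196728) (l 16096296))) (c (a (l 16226336) (l 16189440)) (a (l 16239888) (l 16208704)))) (c (b (l 16220568) (l 16338864)) (b (l 16166336) (l 16157680))))) (c (b (a (c (b (l 16255048) (l 16271848)) (a (l 16230376) (l 16190312))) (c (a (l 16148984) (l 16106464)) (c (l 16123856) (l 16129344)))) (b (a (c (l 16373264) (l 16237320)) (c (l 16179032) (l 16129384))) (a (l 1) (c (a (l 16133264) (l 16085416))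 (l 16133160))))) (b (a (c (c (l 16220832) (l 16232896)) (a (l 16272648) (l 16244936))) (c (c (l 16141304) (l 16159768)) (l 16199776))) (a (b (c (l 16097552) (l 16290064)) (l 1)) (c (b (l 16232272) (l 16184336)) (l 16228840)))))), by decide +kernel⟩

theorem s25_pm_213 : ∃ t, chk3 f_pm_213 t 15 7 1 = true := ex3_b k23_pm_213 k24_pm_213

theorem s26_pm_213 : ∃ t, chk3 f_pm_213 t 15 13 1 = true := ex3_b k21_pm_213 k22_pm_213

theorem s27_pm_213 : ∃ t, chk3 f_pm_213 t 15 25 1 = true := ex3_a k19_pm_213 k20_pm_213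

theorem s28_pm_213 : ∃ t, chk3 f_pm_213 t 245 24 1 = true := ex3_b k15_pm_213 k16_pm_213

theorem s29_pm_213 : ∃ t, chk3 f_pm_213 t 122 24 1 = true := ex3_a k14_pm_213 s28_pm_213

theorem s30_pm_213 : ∃ t, chk3 f_pm_213 t 61 24 1 = true := ex3_a s29_pm_213 k17_pm_213

theorem s31_pm_213 : ∃ t, chk3 f_pm_213 t 30 24 1 = true := ex3_a k13_pm_213 s30_pm_213

theorem s32_pm_213 : ∃ t, chk3 f_pm_213 t 15 24 1 = true := ex3_a s31_pm_213 k18_pm_213

theorem s33_pm_213 : ∃ t, chk3 f_pm_213 t 15 12 1 = true := ex3_b s32_pm_213 s27_pm_213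

theorem s34_pm_213 : ∃ t, chk3 f_pm_213 t 15 6 1 = true := ex3_b s33_pm_213 s26_pm_213

theorem s35_pm_213 : ∃ t, chk3 f_pm_213 t 15 3 1 = true := ex3_b s34_pm_213 s25_pm_213

theorem s36_pm_213 : ∃ t, chk3 f_pm_213 t 31 11 3 = true := ex3_a k11_pm_213 k12_pm_213

theorem s37_pm_213 : ∃ t, chk3 f_pm_213 t 31 11 1 = true := ex3_c k10_pm_213 s36_pm_213

theorem s38_pm_213 : ∃ t, chk3 f_pm_213 t 61 11 1 = true := ex3_b k8_pm_213 k9_pm_213

theorem s39_pm_213 : ∃ t, chk3 f_pm_213 t 30 11 1 = true := ex3_a k7_pm_213 s38_pm_213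

theorem s40_pm_213 : ∃ t, chk3 f_pm_213 t 15 11 1 = true := ex3_a s39_pm_213 s37_pm_213

theorem s41_pm_213 : ∃ t, chk3 f_pm_213 t 31 10 1 = true := ex3_b k5_pm_213 k6_pm_213

theorem s42_pm_213 : ∃ t, chk3 f_pm_213 t 15 10 1 = true := ex3_a k4_pm_213 s41_pm_213

theorem s43_pm_213 : ∃ t, chk3 f_pm_213 t 15 5 1 = true := ex3_b s42_pm_213 s40_pm_213

theorem s44_pm_213 : ∃ t, chk3 f_pm_213 t 15 2 1 = true := ex3_b k3_pm_213 s43_pm_213

theorem s45_pm_213 : ∃ t, chk3 f_pm_213 t 15 1 1 = true := ex3_b s44_pm_213 s35_pm_213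

theorem s46_pm_213 : ∃ t, chk3 f_pm_213 t 7 1 1 = true := ex3_a k2_pm_213 s45_pm_213

theorem s47_pm_213 : ∃ t, chk3 f_pm_213 t 3 1 1 = true := ex3_a k1_pm_213 s46_pm_213

theorem s48_pm_213 : ∃ t, chk3 f_pm_213 t 1 1 1 = true := ex3_a k0_pm_213 s47_pm_213

theorem c_pm_213 : CertB 0 536870912 0 1230186008 858993459 64424510 3 eng mog cd0q2 cd2q3 pd1 false true false .pnn 2 1 3
    ndB0q2 ndB2q3 pcB1 cut_pm_213 Ext.none :=
  certB0 (fam := false) (s1 := true) (s2 := false) (a := 2) (b := 1) (c := 3) (cn := .pnn) (n1 := ndB0q2) (n2 := ndB2q3) (pc := pcB1) (cut := cut_pm_213) (xt := Ext.none) (P1 := 0) (W1 := 536870912) (P2 := 0) (W2 := 1230186008) (P3 := 858993459) (W3 := 64424510) (N0 := 3) (En := eng) (mo := mog) (C1 := cd0q2) (C2 := cd2q3) (C3 := pd1)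
    rfl s48_pm_213

noncomputable def f_mm_001 : ℕ → ℕ → ℕ → ℕ → Bool := onCell 0 536870912 0 536870912 858993459 64424510
    (rowB 3 eng mog cd0q0 cd2q1 pd0 1 false false false .up 0 0 1 (qsf 0 536870912 536870912 536870912 0) ndB0q0 ndB2q1 pcB0 Cut.none Ext.none)

def k0_mm_001 : ∃ t, chk3 f_mm_001 t 1 1 1 = true :=
  ⟨(l 3), by decide +kernel⟩

theorem c_mm_001 : CertB 0 536870912 536870912 536870912 858993459 64424510 3 eng mog cd0q0 cd2q1 pd0 false false false .up 0 0 1
    ndB0q0 ndB2q1 pcB0 Cut.none Ext.none :=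
  certB1 (fam := false) (s1 := false) (s2 := false) (a := 0) (b := 0) (c := 1) (cn := .up) (n1 := ndB0q0) (n2 := ndB2q1) (pc := pcB0) (cut := Cut.none) (xt := Ext.none) (P1 := 0) (W1 := 536870912) (P2 := 536870912) (W2 := 536870912) (P3 := 858993459) (W3 := 64424510) (N0 := 3) (En := eng) (mo := mog) (C1 := cd0q0) (C2 := cd2q1) (C3 := pd0)
    rfl (fun _ => rfl) k0_mm_001

noncomputable def f_mm_011 : ℕ → ℕ → ℕ → ℕ → Bool := onCell 0 536870912 536870912 536870912 858993459 64424510
    (rowB 3 eng mog cd0q0 cd2q1 pd1 1 false false false .pnn 0 1 1 (qsf 0 536870912 536870912 536870912 1) ndB0q0 ndB2q1 pcB1 Cut.none Ext.none)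

def k0_mm_011 : ∃ t, chk3 f_mm_011 t 1 1 1 = true :=
  ⟨(l 5), by decide +kernel⟩

theorem c_mm_011 : CertB 0 536870912 536870912 536870912 858993459 64424510 3 eng mog cd0q0 cd2q1 pd1 false false false .pnn 0 1 1
    ndB0q0 ndB2q1 pcB1 Cut.none Ext.none :=
  certB1 (fam := false) (s1 := false) (s2 := false) (a := 0) (b := 1) (c := 1) (cn := .pnn) (n1 := ndB0q0) (n2 := ndB2q1) (pc := pcB1) (cut := Cut.none) (xt := Ext.none) (P1 := 0) (W1 := 536870912) (P2 := 536870912) (W2 := 536870912) (P3 := 858993459) (W3 := 64424510) (N0 := 3) (En := eng) (mo := mog) (C1 := cd0q0) (C2 := cd2q1) (C3 := pd1)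
    rfl (fun _ => rfl) k0_mm_011

noncomputable def f_mm_012 : ℕ → ℕ → ℕ → ℕ → Bool := onCell 0 536870912 1073741824 536870912 858993459 64424510
    (rowB 3 eng mog cd0q0 cd2q2 pd1 0 false false false .pnp 0 1 2 (qsf 0 536870912 1073741824 536870912 1) ndB0q0 ndB2q2 pcB1 Cut.none Ext.none)

def k0_mm_012 : ∃ t, chk3 f_mm_012 t 1 1 1 = true :=
  ⟨(l 5), by decide +kernel⟩

theorem c_mm_012 : CertB 0 536870912 1073741824 536870912 858993459 64424510 3 eng mog cd0q0 cd2q2 pd1 false false false .pnp 0 1 2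
    ndB0q0 ndB2q2 pcB1 Cut.none Ext.none :=
  certB0 (fam := false) (s1 := false) (s2 := false) (a := 0) (b := 1) (c := 2) (cn := .pnp) (n1 := ndB0q0) (n2 := ndB2q2) (pc := pcB1) (cut := Cut.none) (xt := Ext.none) (P1 := 0) (W1 := 536870912) (P2 := 1073741824) (W2 := 536870912) (P3 := 858993459) (W3 := 64424510) (N0 := 3) (En := eng) (mo := mog) (C1 := cd0q0) (C2 := cd2q2) (C3 := pd1)
    rfl k0_mm_012

noncomputable def f_mm_022 : ℕ → ℕ → ℕ → ℕ → Bool := onCell 0 536870912 1073741824 536870912 858993459 64424510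
    (rowB 3 eng mog cd0q0 cd2q2 pd2 0 false false false .pp 0 2 2 (qsf 0 536870912 1073741824 536870912 2) ndB0q0 ndB2q2 pcB2 Cut.none Ext.none)

def k0_mm_022 : ∃ t, chk3 f_mm_022 t 1 1 1 = true :=
  ⟨(l 5), by decide +kernel⟩

theorem c_mm_022 : CertB 0 536870912 1073741824 536870912 858993459 64424510 3 eng mog cd0q0 cd2q2 pd2 false false false .pp 0 2 2
    ndB0q0 ndB2q2 pcB2 Cut.none Ext.none :=
  certB0 (fam := false) (s1 := false) (s2 := false) (a := 0) (b := 2) (c := 2) (cn := .pp) (n1 := ndB0q0) (n2 := ndB2q2) (pc := pcB2) (cut := Cut.none) (xt := Ext.none) (P1 := 0) (W1 := 536870912) (P2 := 1073741824) (W2 := 536870912) (P3 := 858993459) (W3 := 64424510) (N0 := 3) (En := eng) (mo := mog) (C1 := cd0q0) (C2 := cd2q2) (C3 := pd2)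
    rfl k0_mm_022

noncomputable def f_mm_023 : ℕ → ℕ → ℕ → ℕ → Bool := onCell 0 536870912 0 1230186008 858993459 64424510
    (rowB 3 eng mog cd0q0 cd2q3 pd2 0 false false false .up 0 2 3 (qsf 0 536870912 0 1230186008 2) ndB0q0 ndB2q3 pcB2 Cut.none Ext.none)

def k0_mm_023 : ∃ t, chk3 f_mm_023 t 1 1 1 = true :=
  ⟨(l 5), by decide +kernel⟩

theorem c_mm_023 : CertB 0 536870912 0 1230186008 858993459 64424510 3 eng mog cd0q0 cd2q3 pd2 false false false .up 0 2 3
    ndB0q0 ndB2q3 pcB2 Cut.none Ext.none :=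
  certB0 (fam := false) (s1 := false) (s2 := false) (a := 0) (b := 2) (c := 3) (cn := .up) (n1 := ndB0q0) (n2 := ndB2q3) (pc := pcB2) (cut := Cut.none) (xt := Ext.none) (P1 := 0) (W1 := 536870912) (P2 := 0) (W2 := 1230186008) (P3 := 858993459) (W3 := 64424510) (N0 := 3) (En := eng) (mo := mog) (C1 := cd0q0) (C2 := cd2q3) (C3 := pd2)
    rfl k0_mm_023

noncomputable def f_mm_033 : ℕ → ℕ → ℕ → ℕ → Bool := onCell 0 536870912 0 1230186008 858993459 64424510
    (rowB 3 eng mog cd0q0 cd2q3 pd3 0 false false false .pnn 0 3 3 (qsf 0 536870912 0 1230186008 3) ndB0q0 ndB2q3 pcB3 Cut.none Ext.none)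

def k0_mm_033 : ∃ t, chk3 f_mm_033 t 1 1 1 = true :=
  ⟨(l 5), by decide +kernel⟩

theorem c_mm_033 : CertB 0 536870912 0 1230186008 858993459 64424510 3 eng mog cd0q0 cd2q3 pd3 false false false .pnn 0 3 3
    ndB0q0 ndB2q3 pcB3 Cut.none Ext.none :=
  certB0 (fam := false) (s1 := false) (s2 := false) (a := 0) (b := 3) (c := 3) (cn := .pnn) (n1 := ndB0q0) (n2 := ndB2q3) (pc := pcB3) (cut := Cut.none) (xt := Ext.none) (P1 := 0) (W1 := 536870912) (P2 := 0) (W2 := 1230186008) (P3 := 858993459) (W3 := 64424510) (N0 := 3) (En := eng) (mo := mog) (C1 := cd0q0) (C2 := cd2q3) (C3 := pd3)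
    rfl k0_mm_033

noncomputable def cut_mm_101 : Cut := Cut.of [[⟨0, 1, 0, 67108864⟩, ⟨1, 0, 0, 67108864⟩, ⟨2, 1, 0, 67108864⟩]]

noncomputable def f_mm_101 : ℕ → ℕ → ℕ → ℕ → Bool := onCell 536870912 536870912 0 536870912 858993459 64424510
    (rowB 3 eng mog cd0q1 cd2q1 pd0 1 false false false .npn 1 0 1 (qsf 536870912 536870912 536870912 536870912 0) ndB0q1 ndB2q1 pcB0 cut_mm_101 Ext.none)

def k0_mm_101 : ∃ t, chk3 f_mm_101 t 1 1 1 = true :=
  ⟨(a (l 3) (a (l 3) (b (b (a (l 3) (b (a (l 3) (b (l 6) (l 3))) (l 3))) (l 3)) (l 2)))), by decide +kernel⟩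

theorem c_mm_101 : CertB 536870912 536870912 536870912 536870912 858993459 64424510 3 eng mog cd0q1 cd2q1 pd0 false false false .npn 1 0 1
    ndB0q1 ndB2q1 pcB0 cut_mm_101 Ext.none :=
  certB1 (fam := false) (s1 := false) (s2 := false) (a := 1) (b := 0) (c := 1) (cn := .npn) (n1 := ndB0q1) (n2 := ndB2q1) (pc := pcB0) (cut := cut_mm_101) (xt := Ext.none) (P1 := 536870912) (W1 := 536870912) (P2 := 536870912) (W2 := 536870912) (P3 := 858993459) (W3 := 64424510) (N0 := 3) (En := eng) (mo := mog) (C1 := cd0q1) (C2 := cd2q1) (C3 := pd0)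
    rfl (fun _ => rfl) k0_mm_101

noncomputable def f_mm_102 : ℕ → ℕ → ℕ → ℕ → Bool := onCell 536870912 536870912 0 536870912 858993459 64424510
    (rowB 3 eng mog cd0q1 cd2q2 pd0 1 false false false .npp 1 0 2 (qsf 536870912 536870912 1073741824 536870912 0) ndB0q1 ndB2q2 pcB0 Cut.none Ext.none)

def k0_mm_102 : ∃ t, chk3 f_mm_102 t 1 1 1 = true :=
  ⟨(l 3), by decide +kernel⟩

theorem c_mm_102 : CertB 536870912 536870912 1073741824 536870912 858993459 64424510 3 eng mog cd0q1 cd2q2 pd0 false false false .npp 1 0 2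
    ndB0q1 ndB2q2 pcB0 Cut.none Ext.none :=
  certB1 (fam := false) (s1 := false) (s2 := false) (a := 1) (b := 0) (c := 2) (cn := .npp) (n1 := ndB0q1) (n2 := ndB2q2) (pc := pcB0) (cut := Cut.none) (xt := Ext.none) (P1 := 536870912) (W1 := 536870912) (P2 := 1073741824) (W2 := 536870912) (P3 := 858993459) (W3 := 64424510) (N0 := 3) (En := eng) (mo := mog) (C1 := cd0q1) (C2 := cd2q2) (C3 := pd0)
    rfl (fun _ => rfl) k0_mm_102

noncomputable def f_mm_112 : ℕ → ℕ → ℕ → ℕ → Bool := onCell 536870912 536870912 1073741824 536870912 858993459 64424510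
    (rowB 3 eng mog cd0q1 cd2q2 pd1 2 false false false .dn 1 1 2 (qsf 536870912 536870912 1073741824 536870912 1) ndB0q1 ndB2q2 pcB1 Cut.none Ext.none)

def k0_mm_112 : ∃ t, chk3 f_mm_112 t 1 1 1 = true :=
  ⟨(l 5), by decide +kernel⟩

theorem c_mm_112 : CertB 536870912 536870912 1073741824 536870912 858993459 64424510 3 eng mog cd0q1 cd2q2 pd1 false false false .dn 1 1 2
    ndB0q1 ndB2q2 pcB1 Cut.none Ext.none :=
  certB2 (fam := false) (s1 := false) (s2 := false) (a := 1) (b := 1) (c := 2) (cn := .dn) (n1 := ndB0q1) (n2 := ndB2q2) (pc := pcB1) (cut := Cut.none) (xt := Ext.none) (P1 := 536870912) (W1 := 536870912) (P2 := 1073741824) (W2 := 536870912) (P3 := 858993459) (W3 := 64424510) (N0 := 3) (En := eng) (mo := mog) (C1 := cd0q1) (C2 := cd2q2) (C3 := pd1)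
    rfl (fun _ => rfl) k0_mm_112

noncomputable def f_mm_113 : ℕ → ℕ → ℕ → ℕ → Bool := onCell 536870912 536870912 0 1230186008 858993459 64424510
    (rowB 3 eng mog cd0q1 cd2q3 pd1 0 false false false .nn 1 1 3 (qsf 536870912 536870912 0 1230186008 1) ndB0q1 ndB2q3 pcB1 Cut.none Ext.none)

def k0_mm_113 : ∃ t, chk3 f_mm_113 t 1 1 1 = true :=
  ⟨(b (l 5) (l 5)), by decide +kernel⟩

theorem c_mm_113 : CertB 536870912 536870912 0 1230186008 858993459 64424510 3 eng mog cd0q1 cd2q3 pd1 false false false .nn 1 1 3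
    ndB0q1 ndB2q3 pcB1 Cut.none Ext.none :=
  certB0 (fam := false) (s1 := false) (s2 := false) (a := 1) (b := 1) (c := 3) (cn := .nn) (n1 := ndB0q1) (n2 := ndB2q3) (pc := pcB1) (cut := Cut.none) (xt := Ext.none) (P1 := 536870912) (W1 := 536870912) (P2 := 0) (W2 := 1230186008) (P3 := 858993459) (W3 := 64424510) (N0 := 3) (En := eng) (mo := mog) (C1 := cd0q1) (C2 := cd2q3) (C3 := pd1)
    rfl k0_mm_113

noncomputable def f_mm_123 : ℕ → ℕ → ℕ → ℕ → Bool := onCell 536870912 536870912 0 1230186008 858993459 64424510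
    (rowB 3 eng mog cd0q1 cd2q3 pd2 0 false false false .npn 1 2 3 (qsf 536870912 536870912 0 1230186008 2) ndB0q1 ndB2q3 pcB2 Cut.none Ext.none)

def k0_mm_123 : ∃ t, chk3 f_mm_123 t 1 1 1 = true :=
  ⟨(b (l 5) (l 5)), by decide +kernel⟩

theorem c_mm_123 : CertB 536870912 536870912 0 1230186008 858993459 64424510 3 eng mog cd0q1 cd2q3 pd2 false false false .npn 1 2 3
    ndB0q1 ndB2q3 pcB2 Cut.none Ext.none :=
  certB0 (fam := false) (s1 := false) (s2 := false) (a := 1) (b := 2) (c := 3) (cn := .npn) (n1 := ndB0q1) (n2 := ndB2q3) (pc := pcB2) (cut := Cut.none) (xt := Ext.none) (P1 := 536870912) (W1 := 536870912) (P2 := 0) (W2 := 1230186008) (P3 := 858993459) (W3 := 64424510) (N0 := 3) (En := eng) (mo := mog) (C1 := cd0q1) (C2 := cd2q3) (C3 := pd2)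
    rfl k0_mm_123

noncomputable def f_mm_133 : ℕ → ℕ → ℕ → ℕ → Bool := onCell 1610612736 536870912 0 1230186008 858993459 64424510
    (rowB 3 eng mog cd0q1 cd2q3 pd3 2 false false false .dn 1 3 3 (qsf 536870912 536870912 0 1230186008 3) ndB0q1 ndB2q3 pcB3 Cut.none Ext.none)

def k0_mm_133 : ∃ t, chk3 f_mm_133 t 1 1 1 = true :=
  ⟨(l 5), by decide +kernel⟩

theorem c_mm_133 : CertB 536870912 536870912 0 1230186008 858993459 64424510 3 eng mog cd0q1 cd2q3 pd3 false false false .dn 1 3 3
    ndB0q1 ndB2q3 pcB3 Cut.none Ext.none :=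
  certB2 (fam := false) (s1 := false) (s2 := false) (a := 1) (b := 3) (c := 3) (cn := .dn) (n1 := ndB0q1) (n2 := ndB2q3) (pc := pcB3) (cut := Cut.none) (xt := Ext.none) (P1 := 536870912) (W1 := 536870912) (P2 := 0) (W2 := 1230186008) (P3 := 858993459) (W3 := 64424510) (N0 := 3) (En := eng) (mo := mog) (C1 := cd0q1) (C2 := cd2q3) (C3 := pd3)
    rfl (fun _ => rfl) k0_mm_133

noncomputable def f_mm_202 : ℕ → ℕ → ℕ → ℕ → Bool := onCell 0 536870912 1073741824 536870912 858993459 64424510
    (rowB 3 eng mog cd0q2 cd2q2 pd0 0 false false false .pp 2 0 2 (qsf 0 536870912 1073741824 536870912 0) ndB0q2 ndB2q2 pcB0 Cut.none Ext.none)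

def k0_mm_202 : ∃ t, chk3 f_mm_202 t 1 1 1 = true :=
  ⟨(l 3), by decide +kernel⟩

theorem c_mm_202 : CertB 0 536870912 1073741824 536870912 858993459 64424510 3 eng mog cd0q2 cd2q2 pd0 false false false .pp 2 0 2
    ndB0q2 ndB2q2 pcB0 Cut.none Ext.none :=
  certB0 (fam := false) (s1 := false) (s2 := false) (a := 2) (b := 0) (c := 2) (cn := .pp) (n1 := ndB0q2) (n2 := ndB2q2) (pc := pcB0) (cut := Cut.none) (xt := Ext.none) (P1 := 0) (W1 := 536870912) (P2 := 1073741824) (W2 := 536870912) (P3 := 858993459) (W3 := 64424510) (N0 := 3) (En := eng) (mo := mog) (C1 := cd0q2) (C2 := cd2q2) (C3 := pd0)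
    rfl k0_mm_202

noncomputable def f_mm_203 : ℕ → ℕ → ℕ → ℕ → Bool := onCell 0 536870912 0 1230186008 858993459 64424510
    (rowB 3 eng mog cd0q2 cd2q3 pd0 0 false false false .up 2 0 3 (qsf 0 536870912 0 1230186008 0) ndB0q2 ndB2q3 pcB0 Cut.none Ext.none)

def k0_mm_203 : ∃ t, chk3 f_mm_203 t 1 1 1 = true :=
  ⟨(b (l 2) (l 3)), by decide +kernel⟩

theorem c_mm_203 : CertB 0 536870912 0 1230186008 858993459 64424510 3 eng mog cd0q2 cd2q3 pd0 false false false .up 2 0 3
    ndB0q2 ndB2q3 pcB0 Cut.none Ext.none :=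
  certB0 (fam := false) (s1 := false) (s2 := false) (a := 2) (b := 0) (c := 3) (cn := .up) (n1 := ndB0q2) (n2 := ndB2q3) (pc := pcB0) (cut := Cut.none) (xt := Ext.none) (P1 := 0) (W1 := 536870912) (P2 := 0) (W2 := 1230186008) (P3 := 858993459) (W3 := 64424510) (N0 := 3) (En := eng) (mo := mog) (C1 := cd0q2) (C2 := cd2q3) (C3 := pd0)
    rfl k0_mm_203

noncomputable def f_mm_213 : ℕ → ℕ → ℕ → ℕ → Bool := onCell 0 536870912 0 1230186008 858993459 64424510
    (rowB 3 eng mog cd0q2 cd2q3 pd1 0 false false false .pnn 2 1 3 (qsf 0 536870912 0 1230186008 1) ndB0q2 ndB2q3 pcB1 Cut.none Ext.none)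

def k0_mm_213 : ∃ t, chk3 f_mm_213 t 1 1 1 = true :=
  ⟨(b (a (l 3) (l 5)) (l 3)), by decide +kernel⟩

theorem c_mm_213 : CertB 0 536870912 0 1230186008 858993459 64424510 3 eng mog cd0q2 cd2q3 pd1 false false false .pnn 2 1 3
    ndB0q2 ndB2q3 pcB1 Cut.none Ext.none :=
  certB0 (fam := false) (s1 := false) (s2 := false) (a := 2) (b := 1) (c := 3) (cn := .pnn) (n1 := ndB0q2) (n2 := ndB2q3) (pc := pcB1) (cut := Cut.none) (xt := Ext.none) (P1 := 0) (W1 := 536870912) (P2 := 0) (W2 := 1230186008) (P3 := 858993459) (W3 := 64424510) (N0 := 3) (En := eng) (mo := mog) (C1 := cd0q2) (C2 := cd2q3) (C3 := pd1)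
    rfl k0_mm_213

end Pool.Agent.Strip051.G.I8000_8600.Tab.C.BB02

namespace Pool.Agent.Strip051.G.I8000_8600.Tab.C.BB03

open Pool.Agent.Strip051.PB Pool.Agent.Strip051.PB.T
open Pool.Agent.Strip051.G.I8000_8600.Tab

noncomputable def f_pp_001 : ℕ → ℕ → ℕ → ℕ → Bool := onCell 0 536870912 0 536870912 858993459 64424510
    (rowB 3 eng mog cd0q0 cd3q1 pd0 1 false true true .up 0 0 1 (qsf 0 536870912 536870912 536870912 0) ndB0q0 ndB3q1 pcB0 Cut.none Ext.none)

def k0_pp_001 : ∃ t, chk3 f_pp_001 t 1 1 1 = true :=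
  ⟨(l 3), by decide +kernel⟩

theorem c_pp_001 : CertB 0 536870912 536870912 536870912 858993459 64424510 3 eng mog cd0q0 cd3q1 pd0 false true true .up 0 0 1
    ndB0q0 ndB3q1 pcB0 Cut.none Ext.none :=
  certB1 (fam := false) (s1 := true) (s2 := true) (a := 0) (b := 0) (c := 1) (cn := .up) (n1 := ndB0q0) (n2 := ndB3q1) (pc := pcB0) (cut := Cut.none) (xt := Ext.none) (P1 := 0) (W1 := 536870912) (P2 := 536870912) (W2 := 536870912) (P3 := 858993459) (W3 := 64424510) (N0 := 3) (En := eng) (mo := mog) (C1 := cd0q0) (C2 := cd3q1) (C3 := pd0)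
    rfl (fun _ => rfl) k0_pp_001

noncomputable def cut_pp_011 : Cut := Cut.of [[⟨0, 0, 0, 67108864⟩, ⟨1, 1, 0, 67108864⟩, ⟨2, 1, 0, 67108864⟩]]

noncomputable def f_pp_011 : ℕ → ℕ → ℕ → ℕ → Bool := onCell 0 536870912 536870912 536870912 858993459 64424510
    (rowB 3 eng mog cd0q0 cd3q1 pd1 1 false true true .pnn 0 1 1 (qsf 0 536870912 536870912 536870912 1) ndB0q0 ndB3q1 pcB1 cut_pp_011 Ext.none)

def k0_pp_011 : ∃ t, chk3 f_pp_011 t 1 1 1 = true :=
  ⟨(b (l 3) (a (b (l 3) (a (b (l 3) (a (b (l 3) (a (l 6) (l 3))) (l 3))) (l 3))) (l 3))), by decide +kernel⟩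

theorem c_pp_011 : CertB 0 536870912 536870912 536870912 858993459 64424510 3 eng mog cd0q0 cd3q1 pd1 false true true .pnn 0 1 1
    ndB0q0 ndB3q1 pcB1 cut_pp_011 Ext.none :=
  certB1 (fam := false) (s1 := true) (s2 := true) (a := 0) (b := 1) (c := 1) (cn := .pnn) (n1 := ndB0q0) (n2 := ndB3q1) (pc := pcB1) (cut := cut_pp_011) (xt := Ext.none) (P1 := 0) (W1 := 536870912) (P2 := 536870912) (W2 := 536870912) (P3 := 858993459) (W3 := 64424510) (N0 := 3) (En := eng) (mo := mog) (C1 := cd0q0) (C2 := cd3q1) (C3 := pd1)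
    rfl (fun _ => rfl) k0_pp_011

noncomputable def f_pp_012 : ℕ → ℕ → ℕ → ℕ → Bool := onCell 0 536870912 536870912 536870912 858993459 64424510
    (rowB 3 eng mog cd0q0 cd3q2 pd1 1 false true true .pnp 0 1 2 (qsf 0 536870912 1073741824 536870912 1) ndB0q0 ndB3q2 pcB1 Cut.none Ext.none)

def k0_pp_012 : ∃ t, chk3 f_pp_012 t 1 1 1 = true :=
  ⟨(l 3), by decide +kernel⟩

theorem c_pp_012 : CertB 0 536870912 1073741824 536870912 858993459 64424510 3 eng mog cd0q0 cd3q2 pd1 false true true .pnp 0 1 2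
    ndB0q0 ndB3q2 pcB1 Cut.none Ext.none :=
  certB1 (fam := false) (s1 := true) (s2 := true) (a := 0) (b := 1) (c := 2) (cn := .pnp) (n1 := ndB0q0) (n2 := ndB3q2) (pc := pcB1) (cut := Cut.none) (xt := Ext.none) (P1 := 0) (W1 := 536870912) (P2 := 1073741824) (W2 := 536870912) (P3 := 858993459) (W3 := 64424510) (N0 := 3) (En := eng) (mo := mog) (C1 := cd0q0) (C2 := cd3q2) (C3 := pd1)
    rfl (fun _ => rfl) k0_pp_012

noncomputable def f_pp_022 : ℕ → ℕ → ℕ → ℕ → Bool := onCell 0 536870912 1073741824 536870912 858993459 64424510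
    (rowB 3 eng mog cd0q0 cd3q2 pd2 1 false true true .pp 0 2 2 (qsf 0 536870912 1073741824 536870912 2) ndB0q0 ndB3q2 pcB2 Cut.none Ext.none)

def k0_pp_022 : ∃ t, chk3 f_pp_022 t 1 4 1 = true :=
  ⟨(a (l 3) (b (l 3) (a (l 3) (a (l 3) (a (l 3) (l 2)))))), by decide +kernel⟩

def k1_pp_022 : ∃ t, chk3 f_pp_022 t 2 40 1 = true :=
  ⟨(l 3), by decide +kernel⟩

def k2_pp_022 : ∃ t, chk3 f_pp_022 t 4 41 1 = true :=
  ⟨(b (l 3) (b (a (a (l 3) (a (l 3) (c (l 16436840) (b (l 3) (l 16256832))))) (c (a (b (l 3) (l 16233320)) (c (a (l 16382488) (l 16360120)) (l 16400264))) (a (a (l 76939224951) (l 16278584)) (c (l 16478184) (l 16339832))))) (a (a (c (a (l 16334440) (l 16278584)) (c (l 16164272) (a (l 16153600) (l 16227232)))) (c (l 16347680) (a (l 16206544) (l 16274208)))) (c (a (l 16247112) (c (l 16363112) (l 16413160))) (a (c (l 16453136) (l 16325264)) (l 16325592)))))), by decide +kernel⟩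

def k3_pp_022 : ∃ t, chk3 f_pp_022 t 5 41 1 = true :=
  ⟨(a (a (b (l 3) (b (c (c (a (l 111299300087) (a (l 16325760) (l 16316888))) (l 16379424)) (c (l 16435576) (l 16456976))) (c (c (l 16323840) (l 16372632)) (l 16396296)))) (b (b (l 3) (b (l 3) (c (c (c (a (l 16295576) (l 241758679015)) (l 16309936)) (l 16346824)) (c (l 16402480) (l 16465576))))) (b (c (c (c (a (b (l 16294552) (l 16292224)) (b (l 16279344) (l 16277360))) (l 16328608)) (l 16343808)) (c (l 16398448) (l 16481432))) (c (c (a (l 16298784) (l 16284160)) (l 16338272)) (c (l 16392528) (l 16454136)))))) (b (b (a (l 3) (a (l 3) (b (l 3) (c (c (l 262696587927) (l 16287520)) (l 16367544))))) (c (c (c (a (c (a (l 297593261639) (l 298666979831)) (l 246590570855)) (a (l 253569810247) (l 16236424))) (a (l 16281664) (l 16260104))) (a (l 16317040) (l 16293016))) (a (c (l 16370752) (l 16473936)) (c (l 16343392) (l 16402712))))) (a (b (c (c (a (b (l 16276400) (l 16274664)) (b (l 16264784) (l 16263368))) (l 16314440)) (a (l 16487024)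 (l 16471672))) (c (c (c (l 16255968) (l 16276264)) (l 16310128)) (c (l 16361688) (l 16420616)))) (b (c (c (c (b (l 16241232) (l 16240368)) (l 16259776)) (l 16291512)) (c (l 16340200) (a (l 16403128) (l 16389536)))) (c (c (c (l 16238472) (l 16257088)) (l 16288376)) (c (l 16336416) (l 16391728))))))), by decide +kernel⟩

def k4_pp_022 : ∃ t, chk3 f_pp_022 t 2 21 1 = true :=
  ⟨(a (a (c (c (a (b (l 16230160) (l 16361112)) (l 16293848)) (a (b (l 16216432) (l 16221024)) (l 16342376))) (a (c (a (l 16204096) (l 16275288)) (a (b (c (l 16181616) (l 16145112)) (l 16145192)) (b (l 16215720) (l 16196560)))) (c (c (l 16277640) (l 16267000)) (b (a (l 16265328) (l 16311856)) (l 16163784))))) (c (c (a (a (l 16381232) (l 16358208)) (a (l 16337376) (l 16318816))) (a (l 16420768) (l 16377624))) (a (a (b (l 16262848) (l 16241680)) (a (l 16260792) (l 16300216))) (a (l 16263144) (l 16308416))))) (a (c (c (a (a (l 16302264) (l 16329312)) (c (b (l 16288680) (l 16248104)) (l 16278792))) (a (l 16342648)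 (l 16313752))) (a (c (l 16397768) (l 16397176)) (c (l 16366712) (l 16426952)))) (c (c (a (c (b (l 16246144) (l 16231608)) (l 16258256)) (a (l 16237888) (l 16232864))) (a (l 16290928) (l 16274272))) (a (c (l 16340800) (l 16481792)) (c (l 16320328) (a (l 16379072) (l 16368112))))))), by decide +kernel⟩

def k5_pp_022 : ∃ t, chk3 f_pp_022 t 2 11 1 = true :=
  ⟨(b (a (a (c (a (b (l 16106448) (l 16129016)) (c (l 16339240) (l 16364184))) (a (a (b (c (l 16198488) (l 16125920)) (l 16017648)) (c (l 16237096) (l 16166168))) (a (a (l 16112184) (l 16134904)) (l 16083664)))) (c (a (c (l 16237824) (l 16351488)) (c (l 16270280) (l 16318712))) (a (a (l 16145248) (l 16203304)) (c (l 16374120) (l 16323904))))) (a (c (a (c (l 16247624) (l 16293512)) (c (l 16231352) (l 16274248))) (a (c (l 16346488) (l 16406560)) (c (l 16324200) (l 16381232)))) (c (a (c (l 16221528) (l 16260824)) (l 16339608)) (a (c (l 16307016) (l 16360144)) (c (l 16295056) (l 16343608)))))) (a (a (c (a (l 16034056) (l 16290696))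 (c (a (l 16066592) (l 16259136)) (a (a (l 16073952) (l 16122776)) (l 16065368)))) (c (a (l 16094288) (c (l 16218768) (l 16265032))) (a (a (l 16097576) (l 16217112)) (c (l 16318200) (l 16336664))))) (a (c (a (l 16227152) (l 16219288)) (a (l 16284864) (l 16311248))) (c (a (l 16217280) (l 16220088)) (a (l 16300432) (c (l 16273464) (l 16316808))))))), by decide +kernel⟩

def k6_pp_022 : ∃ t, chk3 f_pp_022 t 12 5 1 = true :=
  ⟨(a (b (b (b (l 3) (b (c (c (b (c (a (l 273970851047) (l 279339546983)) (l 16241640)) (c (a (l 16229568) (l 16224176)) (l 16244640))) (b (l 16273648) (l 16274904))) (a (b (l 16418952) (l 16437016)) (c (l 16338712) (b (l 16374024) (l 16370128))))) (b (c (c (c (b (l 16228216) (l 16227944)) (l 16245320)) (l 16274408)) (c (l 16319416) (a (l 16377240) (l 16366232)))) (c (c (l 16235200) (l 16272408)) (c (l 16316656) (l 16368008)))))) (c (c (b (l 16231000) (l 16225400)) (l 16263208)) (c (l 16305192) (b (l 16360096) (l 16348208))))) (c (b (c (l 16219928) (l 16250856))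 (l 16225656)) (b (c (l 16288104) (l 16331712)) (c (l 16273928) (l 16313512))))) (b (b (b (a (l 3) (a (l 3) (b (l 3) (b (l 3) (c (c (l 264843998871) (l 16253400)) (l 16388888)))))) (b (c (c (b (c (a (l 283634503735) (l 16212360)) (l 16230944)) (a (l 16228256) (l 16225192))) (b (l 16260184) (l 16262400))) (b (c (l 16305672) (a (l 16363408) (l 16354064))) (c (l 16305304) (a (l 16359944) (l 16351016))))) (b (c (c (c (l 16221072) (l 16236488)) (l 16262832)) (c (l 16303992) (a (l 16356480) (l 16347984)))) (c (c (l 16228432) (l 16261920)) (c (l 16302200) (l 16349344)))))) (c (c (b (l 16226968) (l 16225752)) (l 16257448)) (c (l 16295184) (b (l 16343712) (l 16335496))))) (c (b (c (l 16224824) (l 16252192)) (l 16233632)) (b (c (l 16285536) (l 16324920)) (l 16316848))))), by decide +kernel⟩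

def k7_pp_022 : ∃ t, chk3 f_pp_022 t 13 5 1 = true :=
  ⟨(b (a (b (b (b (l 3) (b (l 3) (c (c (c (a (l 278802638455) (l 286855700215)) (l 16220472)) (l 16248504)) (c (a (l 16295152) (l 16290040)) (a (l 16347768) (l 16382488)))))) (b (c (c (b (c (a (l 16210776) (l 16210528)) (l 16225896)) (c (l 16216168) (l 16230528))) (b (l 16252288) (l 16255248))) (b (c (l 16335696) (a (l 16345976) (l 16339128))) (c (l 16294184) (a (l 16343336) (l 16336896))))) (b (c (c (c (l 16219304) (l 16232976)) (l 16256544)) (c (l 16293728) (a (l 16340720) (l 16334680)))) (c (c (l 16226920) (l 16256672)) (c (l 16292872) (l 16335608)))))) (c (c (b (l 16228080) (l 16230440)) (l 16256456)) (b (c (l 16291160) (l 16332144)) (l 10837378151)))) (a (b (b (b (l 3) (b (l 3) (c (c (c (l 229947383495) (l 16219408)) (l 16245304)) (c (l 16286264) (c (l 16321816) (l 16347824)))))) (b (c (c (b (l 16218336) (l 16223840)) (b (l 16249800) (l 16253232))) (b (c (l 16288176) (l 16333520)) (c (l 16289152) (l 16331672)))) (b (c (c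 (l 16227216) (l 16255136)) (c (l 16289312) (l 16329848))) (c (l 16241752) (l 16308000))))) (b (c (l 16243992) (l 16307032)) (l 2))) (b (a (b (b (l 3) (c (c (b (l 261085883799) (l 16212776)) (l 120425875111)) (b (c (l 16281904) (l 125794745031)) (c (l 16284360) (l 16330992))))) (b (a (b (b (c (l 16232256) (l 16307752)) (l 2)) (l 2)) (l 2)) (l 2))) (b (b (l 3) (b (b (l 3) (l 2)) (l 2))) (l 2))) (l 2)))) (a (a (b (c (l 16242224) (l 16303848)) (l 2)) (l 2)) (l 2))), by decide +kernel⟩

def k8_pp_022 : ∃ t, chk3 f_pp_022 t 7 5 1 = true :=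
  ⟨(b (b (b (b (b (a (l 3) (l 2)) (l 2)) (l 2)) (l 2)) (l 2)) (l 2)), by decide +kernel⟩

def k9_pp_022 : ∃ t, chk3 f_pp_022 t 4 3 1 = true :=
  ⟨(b (a (b (c (a (a (l 15920144) (l 16119816)) (b (l 16221992) (l 16158368))) (a (c (b (l 16062456) (l 16033472)) (b (l 15884976) (l 15941208))) (c (l 16078672) (b (l 16038120) (l 16029376))))) (c (a (b (l 16102928) (l 16037264)) (b (l 16099232) (l 16043776))) (c (a (l 15973128) (l 16072288)) (a (b (l 15953056) (l 15899936)) (c (l 15944648) (l 15849096)))))) (b (c (a (b (l 16204256) (l 16151336)) (b (l 16193680) (l 16151040))) (a (b (c (l 16282488) (l 16199872)) (l 16010680)) (c (l 16241456) (l 16131760)))) (b (a (c (l 16102912) (l 15934032)) (c (l 16110912) (l 16194240))) (a (c (l 16055048) (l 15960664)) (c (l 16068512) (l 16144832)))))) (a (c (b (b (a (l 15974400) (l 15988024)) (a (l 15910624) (l 15930424))) (a (c (l 15796776) (l 15803720)) (l 15783224))) (b (a (c (l 15856776) (b (l 15845024) (l 15787312))) (c (l 15954232) (b (l 15907648)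 (l 15870128)))) (c (a (l 15757648) (l 15834792)) (a (b (l 15727560) (l 15668000)) (b (l 15811728) (l 15754704)))))) (a (b (c (l 15980288) (b (l 16007320) (l 15970048))) (c (l 15883936) (c (l 15904424) (l 15860560)))) (b (c (l 16005376) (c (l 16060808) (l 16034584))) (l 2))))), by decide +kernel⟩

def k10_pp_022 : ∃ t, chk3 f_pp_022 t 5 3 1 = true :=
  ⟨(b (a (b (c (a (b (l 16189720) (l 16156152)) (b (l 16191624) (l 16164296))) (a (c (l 16235320) (l 16222216)) (c (l 16150240) (l 16279880)))) (c (c (a (l 16087176) (l 16105904)) (a (l 16119744) (l 16136456))) (a (c (l 16158048) (l 16197008)) (c (l 16172464) (l 16213432))))) (a (b (c (b (l 16196936) (l 16174552)) (b (l 16271256) (l 16245128))) (c (b (l 16152304) (l 2)) (l 16210896))) (b (c (b (l 16204568) (l 16188304)) (b (l 16273552) (l 16255752))) (l 2)))) (a (a (a (b (b (l 15994792) (l 2)) (l 2)) (l 2)) (l 2)) (l 2))), by decide +kernel⟩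

def k11_pp_022 : ∃ t, chk3 f_pp_022 t 3 3 1 = true :=
  ⟨(b (a (a (a (a (b (c (l 16227488) (l 12447531687)) (l 2)) (l 2)) (l 2)) (l 2)) (l 2)) (l 2)), by decide +kernel⟩

theorem s12_pp_022 : ∃ t, chk3 f_pp_022 t 2 3 1 = true := ex3_a k9_pp_022 k10_pp_022

theorem s13_pp_022 : ∃ t, chk3 f_pp_022 t 1 3 1 = true := ex3_a s12_pp_022 k11_pp_022

theorem s14_pp_022 : ∃ t, chk3 f_pp_022 t 6 5 1 = true := ex3_a k6_pp_022 k7_pp_022

theorem s15_pp_022 : ∃ t, chk3 f_pp_022 t 3 5 1 = true := ex3_a s14_pp_022 k8_pp_022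

theorem s16_pp_022 : ∃ t, chk3 f_pp_022 t 2 41 1 = true := ex3_a k2_pp_022 k3_pp_022

theorem s17_pp_022 : ∃ t, chk3 f_pp_022 t 2 20 1 = true := ex3_b k1_pp_022 s16_pp_022

theorem s18_pp_022 : ∃ t, chk3 f_pp_022 t 2 10 1 = true := ex3_b s17_pp_022 k4_pp_022

theorem s19_pp_022 : ∃ t, chk3 f_pp_022 t 2 5 1 = true := ex3_b s18_pp_022 k5_pp_022

theorem s20_pp_022 : ∃ t, chk3 f_pp_022 t 1 5 1 = true := ex3_a s19_pp_022 s15_pp_022

theorem s21_pp_022 : ∃ t, chk3 f_pp_022 t 1 2 1 = true := ex3_b k0_pp_022 s20_pp_022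

theorem s22_pp_022 : ∃ t, chk3 f_pp_022 t 1 1 1 = true := ex3_b s21_pp_022 s13_pp_022

theorem c_pp_022 : CertB 0 536870912 1073741824 536870912 858993459 64424510 3 eng mog cd0q0 cd3q2 pd2 false true true .pp 0 2 2
    ndB0q0 ndB3q2 pcB2 Cut.none Ext.none :=
  certB1 (fam := false) (s1 := true) (s2 := true) (a := 0) (b := 2) (c := 2) (cn := .pp) (n1 := ndB0q0) (n2 := ndB3q2) (pc := pcB2) (cut := Cut.none) (xt := Ext.none) (P1 := 0) (W1 := 536870912) (P2 := 1073741824) (W2 := 536870912) (P3 := 858993459) (W3 := 64424510) (N0 := 3) (En := eng) (mo := mog) (C1 := cd0q0) (C2 := cd3q2) (C3 := pd2)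
    rfl (fun _ => rfl) s22_pp_022

noncomputable def f_pp_023 : ℕ → ℕ → ℕ → ℕ → Bool := onCell 1073741824 536870912 0 1230186008 858993459 64424510
    (rowB 3 eng mog cd0q0 cd3q3 pd2 2 false true true .up 0 2 3 (qsf 0 536870912 0 1230186008 2) ndB0q0 ndB3q3 pcB2 Cut.none Ext.none)

def k0_pp_023 : ∃ t, chk3 f_pp_023 t 2 2 1 = true :=
  ⟨(l 2), by decide +kernel⟩

def k1_pp_023 : ∃ t, chk3 f_pp_023 t 4 3 1 = true :=
  ⟨(b (l 2) (a (l 3) (b (l 2) (a (l 3) (b (b (b (a (l 2) (c (l 197198785127) (a (l 3) (l 16485960)))) (l 3)) (l 3)) (l 3)))))), by decide +kernel⟩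

def k2_pp_023 : ∃ t, chk3 f_pp_023 t 5 6 1 = true :=
  ⟨(a (l 2) (b (l 2) (b (l 2) (a (l 2) (b (l 2) (l 16525416)))))), by decide +kernel⟩

def k3_pp_023 : ∃ t, chk3 f_pp_023 t 40 7 1 = true :=
  ⟨(b (b (l 2) (b (l 2) (a (c (l 16521912) (l 262092993127)) (c (l 16522024) (c (l 16544168) (l 16549856)))))) (b (c (b (a (b (l 16503392) (l 16488336)) (b (l 16500880) (l 16483816))) (a (b (l 16470032) (l 16448608)) (b (l 16463392) (l 16439864)))) (a (b (c (l 16530320) (l 16551152)) (c (l 16504240) (l 88750979591))) (b (c (l 16524584) (l 16544568)) (c (l 16495608) (l 16526312))))) (b (c (a (c (l 741049005943) (l 414631596839)) (c (b (l 16397560) (l 16366552)) (l 16500816))) (c (a (l 273971309815) (l 16445320)) (a (b (l 16517104) (l 16501024)) (b (l 16506128) (l 16488736))))) (a (l 3) (b (c (c (l 16333360) (l 16373384)) (c (l 16418480) (l 16446952))) (c (c (l 16298480) (l 16341272)) (c (l 16389744) (l 16432848)))))))), by decide +kernel⟩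

def k4_pp_023 : ∃ t, chk3 f_pp_023 t 41 7 1 = true :=
  ⟨(b (b (l 2) (b (l 2) (a (c (l 16519536) (l 16543528)) (a (c (l 16515304) (l 16537704)) (c (l 16487912) (l 16532744)))))) (c (a (b (b (a (l 16488800) (l 16485288)) (b (l 16455192) (l 16430016))) (b (c (b (l 16386152) (l 16353816)) (a (l 16407840) (l 16401408))) (c (a (l 16305064) (l 16297632)) (a (l 16346432) (l 16338912))))) (b (a (b (l 16481272) (l 16434688)) (a (b (l 16477096) (l 16430152)) (b (l 16473040) (l 16426456)))) (a (b (c (l 16360144) (l 16394672)) (c (b (l 16308432) (l 16271704)) (l 16331104))) (b (a (b (l 16387392) (l 16355680)) (c (l 16351400) (l 16385888))) (b (a (l 16322024) (l 16318240)) (l 16284336)))))) (a (b (b (c (l 16517104) (l 16535592)) (b (l 16508104) (l 16492600))) (b (c (l 16427520) (b (l 16493744) (l 16475248))) (b (a (l 16431960) (l 16424520)) (a (l 16414776) (l 16396328))))) (b (a (b (l 16519496) (l 16491992)) (b (a (l 16515480) (l 16512544)) (a (l 16487504) (l 16484360)))) (a (b (b (l 16464456)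 (l 16442296)) (b (l 16416944) (l 16393440))) (b (b (l 16473488) (a (l 16436928) (l 16433312))) (b (a (l 16411192) (l 16407336)) (l 16380032)))))))), by decide +kernel⟩

def k5_pp_023 : ∃ t, chk3 f_pp_023 t 21 7 1 = true :=
  ⟨(b (b (b (l 2) (l 215922012567)) (b (c (l 16516328) (l 16445976)) (c (l 16488120) (a (l 16522640) (l 16506096))))) (a (b (b (c (l 16460728) (l 16501368)) (c (l 16390544) (l 16470776))) (b (b (c (l 16367840) (l 16440688)) (c (l 16335432) (l 16416776))) (c (c (l 16263136) (l 16303616)) (b (l 16389544) (l 16359152))))) (b (b (c (l 16438432) (l 16480408)) (c (l 16384992) (l 16445520))) (c (b (l 16363840) (c (l 16231928) (l 16271312))) (b (l 16503976) (b (l 16356944) (l 16324664))))))), by decide +kernel⟩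

def k6_pp_023 : ∃ t, chk3 f_pp_023 t 11 7 1 = true :=
  ⟨(a (b (b (b (l 204647776183) (c (l 16513096) (l 16518840))) (b (c (l 16486152) (l 16501752)) (c (l 16449568) (l 16477640)))) (b (c (b (l 16379784) (b (l 16358464) (l 16326992))) (b (l 16445864) (b (l 16415808) (l 16392424)))) (c (b (c (l 16260352) (l 16293208)) (b (l 16221400) (c (l 16164288) (l 16202120)))) (b (b (l 16366128) (l 16337120)) (b (l 16305208) (l 16270536)))))) (b (b (b (l 16509312) (l 16486672)) (b (c (l 16446976) (l 16465512)) (c (l 16401192) (l 16433616)))) (b (c (b (l 16346696) (l 16283048)) (b (l 16414072) (b (l 16356784) (l 16329368)))) (c (b (c (l 16198688) (l 16228520)) (c (l 16119216) (l 16151928))) (b (b (l 16299560) (l 16266968)) (b (l 16231928) (l 16194080))))))), by decide +kernel⟩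

def k7_pp_023 : ∃ t, chk3 f_pp_023 t 3 2 1 = true :=
  ⟨(a (l 2) (b (a (l 2) (a (l 2) (b (l 16092472) (l 16030760)))) (a (b (c (l 16245088) (l 16437112)) (c (b (l 16427872) (l 16475360)) (b (l 16521440) (l 16557208)))) (b (c (l 16010600) (l 16188816)) (a (b (l 16360616) (l 16416232)) (b (l 16273520) (l 16324488))))))), by decide +kernel⟩

def k8_pp_023 : ∃ t, chk3 f_pp_023 t 3 6 1 = true :=
  ⟨(a (b (a (l 2) (c (b (l 16524920) (l 16511216)) (b (l 16587856) (l 16547400)))) (a (b (a (l 16537424) (l 16525664)) (a (b (l 16521096) (l 16503344)) (b (l 16498160) (l 16473152)))) (b (a (l 16504448) (l 16474904)) (a (c (l 16448440) (l 16454480)) (l 16407904))))) (b (a (b (a (l 16541184) (l 16510360)) (a (l 16497928) (l 16464512))) (b (a (l 16458040) (l 16371216)) (a (l 16422576) (l 16366552)))) (a (b (a (l 16437672) (l 16393496)) (c (l 16179464) (l 16212912))) (b (c (l 16304424) (l 16327104)) (a (l 16246096) (l 16184344)))))), by decide +kernel⟩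

def k9_pp_023 : ∃ t, chk3 f_pp_023 t 3 14 1 = true :=
  ⟨(a (a (b (c (a (l 16461104) (l 16418184)) (a (l 16468696) (l 16428760))) (b (a (l 16409624) (l 16356664)) (c (a (l 16347272) (l 16289776)) (a (l 16381872) (l 16322768))))) (b (a (b (l 16395528) (l 16350248)) (b (l 16343416) (l 16293144))) (c (b (l 16260288) (l 16198480)) (a (l 16054392) (l 16217032))))) (a (b (c (b (l 16254448) (l 16198672)) (a (l 16266072) (l 16198992))) (a (b (l 16170992) (l 16104064)) (b (l 16101496) (l 16029960)))) (b (a (l 16255336) (b (l 16093448) (l 16025440))) (b (a (l 16028272) (l 15950776)) (a (c (l 15965904) (l 15942568)) (c (l 15892800) (l 15853464))))))), by decide +kernel⟩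

def k10_pp_023 : ∃ t, chk3 f_pp_023 t 3 15 1 = true :=
  ⟨(a (b (a (c (b (a (l 16287568) (l 16226680)) (a (l 16221032) (l 16156368))) (b (a (l 16333208) (l 16267288)) (a (l 16276176) (l 16203312)))) (b (a (l 16187064) (l 16168144)) (c (a (l 16089792) (l 16021160)) (a (l 16125520) (l 16042200))))) (b (a (c (a (l 16146944) (l 16079048)) (a (l 16209544) (l 16130728))) (a (c (l 16009040) (l 16109376)) (b (l 16070440) (a (l 15941664) (l 15899256))))) (a (c (a (c (l 16052768) (l 16079744)) (c (l 15984848) (l 16004552))) (a (b (l 16153560) (l 16112584)) (b (l 16069688) (l 16025952)))) (c (a (b (l 15942528) (l 15894448)) (b (l 15864880) (l 15814768))) (a (b (l 15981712) (l 15934872)) (b (l 15889592) (l 15841912))))))) (b (a (b (a (c (l 16030272) (l 16036056)) (c (l 15958712) (l 15948904))) (c (a (l 15948384) (l 15873224)) (a (l 15954176) (l 15863288)))) (c (b (a (l 15884696) (l 15808376)) (a (l 15795744) (l 15714408))) (b (a (l 15858872) (l 15767160)) (a (l 15770728) (l 15672432))))) (a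 (b (c (a (b (l 15882120) (l 15834568)) (b (l 15804320) (l 15754568))) (a (b (l 15888888) (l 15843160)) (b (l 15796560) (l 15748544)))) (c (a (b (l 15785400) (l 15733032)) (b (l 15702472) (l 15647080))) (a (b (l 15796384) (l 15746416)) (b (l 15698176) (a (l 15670856) (l 15617272)))))) (b (c (a (b (l 15722952) (l 15670856)) (b (l 15637256) (l 15581640))) (a (b (l 15699224) (l 15647816)) (b (l 15594496) (l 15537192)))) (c (a (b (l 15614992) (l 15556184)) (b (l 15523552) (c (l 15484048) (l 15445488)))) (a (b (l 15592128) (c (l 15533656) (l 15533736))) (b (c (l 15483544) (l 15471704)) (c (l 15419760) (l 15406960))))))))), by decide +kernel⟩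

theorem s11_pp_023 : ∃ t, chk3 f_pp_023 t 3 7 1 = true := ex3_b k9_pp_023 k10_pp_023

theorem s12_pp_023 : ∃ t, chk3 f_pp_023 t 3 3 1 = true := ex3_b k8_pp_023 s11_pp_023

theorem s13_pp_023 : ∃ t, chk3 f_pp_023 t 3 1 1 = true := ex3_b k7_pp_023 s12_pp_023

theorem s14_pp_023 : ∃ t, chk3 f_pp_023 t 20 7 1 = true := ex3_a k3_pp_023 k4_pp_023

theorem s15_pp_023 : ∃ t, chk3 f_pp_023 t 10 7 1 = true := ex3_a s14_pp_023 k5_pp_023

theorem s16_pp_023 : ∃ t, chk3 f_pp_023 t 5 7 1 = true := ex3_a s15_pp_023 k6_pp_023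

theorem s17_pp_023 : ∃ t, chk3 f_pp_023 t 5 3 1 = true := ex3_b k2_pp_023 s16_pp_023

theorem s18_pp_023 : ∃ t, chk3 f_pp_023 t 2 3 1 = true := ex3_a k1_pp_023 s17_pp_023

theorem s19_pp_023 : ∃ t, chk3 f_pp_023 t 2 1 1 = true := ex3_b k0_pp_023 s18_pp_023

theorem s20_pp_023 : ∃ t, chk3 f_pp_023 t 1 1 1 = true := ex3_a s19_pp_023 s13_pp_023

theorem c_pp_023 : CertB 0 536870912 0 1230186008 858993459 64424510 3 eng mog cd0q0 cd3q3 pd2 false true true .up 0 2 3
    ndB0q0 ndB3q3 pcB2 Cut.none Ext.none :=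
  certB2 (fam := false) (s1 := true) (s2 := true) (a := 0) (b := 2) (c := 3) (cn := .up) (n1 := ndB0q0) (n2 := ndB3q3) (pc := pcB2) (cut := Cut.none) (xt := Ext.none) (P1 := 0) (W1 := 536870912) (P2 := 0) (W2 := 1230186008) (P3 := 858993459) (W3 := 64424510) (N0 := 3) (En := eng) (mo := mog) (C1 := cd0q0) (C2 := cd3q3) (C3 := pd2)
    rfl (fun _ => rfl) s20_pp_023

noncomputable def f_pp_033 : ℕ → ℕ → ℕ → ℕ → Bool := onCell 1610612736 536870912 0 1230186008 858993459 64424510
    (rowB 3 eng mog cd0q0 cd3q3 pd3 2 false true true .pnn 0 3 3 (qsf 0 536870912 0 1230186008 3) ndB0q0 ndB3q3 pcB3 Cut.none Ext.none)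

def k0_pp_033 : ∃ t, chk3 f_pp_033 t 1 2 1 = true :=
  ⟨(b (a (a (a (a (a (l 16659432) (l 16620768)) (l 16561680)) (c (l 16506376) (l 16398944))) (a (a (l 16354448) (l 16293240)) (a (l 16239208) (l 16189712)))) (a (a (a (l 16140472) (l 4)) (l 4)) (l 4))) (a (a (a (b (c (l 16642080) (l 16533800)) (a (l 16514536) (l 16475720))) (b (b (l 16498216) (l 16495352)) (a (l 16308616) (b (l 16424656) (l 16347136))))) (a (b (a (l 16368512) (l 16287936)) (a (l 16272096) (l 16082480))) (b (a (l 16213136) (l 16143776)) (a (l 16138560) (l 16052752))))) (a (a (b (a (l 16080160) (l 16022880)) (a (l 15977752) (l 15906328))) (b (l 4) (a (l 15842184) (l 15779744)))) (l 4)))), by decide +kernel⟩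

def k1_pp_033 : ∃ t, chk3 f_pp_033 t 1 6 1 = true :=
  ⟨(a (a (b (a (b (c (l 16395152) (l 16361296)) (a (l 16309384) (l 16255440))) (b (l 16254200) (a (l 16198728) (l 16138752)))) (a (a (b (l 16293720) (l 16267448)) (b (l 16376920) (l 16027944))) (b (a (b (l 16113512) (l 16051752)) (b (l 16049336) (l 15984328))) (a (b (l 15988152) (l 15921312)) (b (l 15916208) (l 15972392)))))) (a (b (b (a (l 16188496) (l 16123552)) (a (l 16074312) (l 16006888))) (b (a (l 16031176) (c (l 15940240) (l 15816088))) (a (c (l 15957608) (l 15761528)) (b (l 15766872) (l 15811960))))) (b (b (a (l 16047872) (l 15954032)) (a (l 15936536) (l 15856392))) (c (b (a (l 15875960) (l 15804568)) (a (l 15716224) (l 15640840))) (b (a (l 15728536) (l 15633632)) (a (l 15568896) (l 15460696))))))) (b (a (a (a (b (l 15861768) (l 15770096)) (b (l 15776256) (l 15684128))) (a (b (l 15699064) (l 15600048)) (b (l 15638168) (l 15536472)))) (b (b (l 4) (l 1)) (l 1))) (a (a (a (b (b (l 15662384) (l 15581184)) (c (l 328059344663)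 (l 340407257767))) (b (b (l 15567424) (l 15485544)) (b (l 381746261495) (l 1)))) (a (b (l 540660248407) (l 1)) (l 1))) (l 1)))), by decide +kernel⟩

def k2_pp_033 : ∃ t, chk3 f_pp_033 t 2 7 1 = true :=
  ⟨(b (a (a (b (a (b (l 16006680) (l 15937336)) (b (l 15929176) (l 15857416))) (b (a (l 15905408) (c (l 15815728) (l 15752912))) (a (c (l 15814136) (l 15762984)) (c (l 15734600) (l 15669232))))) (b (b (a (l 15850968) (l 15771544)) (a (l 15776344) (c (l 15736288) (l 15648944)))) (b (a (c (l 15736464) (l 15659288)) (c (l 15653896) (l 15557648))) (a (c (l 15650936) (l 15567976)) (c (l 15563912) (l 15457040)))))) (a (b (a (b (c (l 15738160) (l 15641080)) (c (l 15655896) (l 15547568))) (b (c (l 15661752) (l 15538072)) (c (l 15573952) (l 15437104)))) (c (b (a (l 15568320) (l 15483560)) (a (l 15476088) (l 192230791239))) (b (a (l 15446736) (l 15330816)) (a (l 15340176) (l 201357239303))))) (b (b (a (c (l 15585480) (l 15426952)) (c (l 15511552) (l 15314896))) (a (c (l 258803126423) (l 266318944503))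 (l 1))) (l 1)))) (a (b (a (b (a (c (l 15728552) (l 15677952)) (c (l 15644624) (l 15577008))) (c (a (l 15633296) (b (l 15571336) (l 15519920))) (a (b (l 15608680) (l 15558000)) (b (l 15500496) (l 15446152))))) (c (b (a (l 15557008) (l 115458381399)) (a (b (l 15482608) (l 15430864)) (l 161092202295))) (b (a (b (l 15493056) (l 15440168)) (l 126195580679)) (a (b (l 15385152) (l 15328016)) (b (l 15265008) (l 1)))))) (a (a (b (c (b (l 15555544) (l 15500952)) (b (l 15504240) (l 15447728))) (c (b (l 83246050455) (c (l 15412144) (l 15365304))) (b (c (l 15396744) (l 15383600)) (c (l 15334768) (l 15320496))))) (b (c (b (l 15466952) (l 90225321143)) (b (l 15389312) (l 91298836503))) (b (c (l 141227970439) (l 138543369751)) (l 1)))) (a (a (b (c (l 152502322855) (l 154649554279)) (l 1)) (l 1)) (l 1)))) (b (b (a (a (c (l 175050872567) (l 184714265639)) (l 1)) (l 1)) (l 1)) (l 1)))), by decide +kernel⟩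

def k3_pp_033 : ∃ t, chk3 f_pp_033 t 3 7 1 = true :=
  ⟨(l 1), by decide +kernel⟩

theorem s4_pp_033 : ∃ t, chk3 f_pp_033 t 1 7 1 = true := ex3_a k2_pp_033 k3_pp_033

theorem s5_pp_033 : ∃ t, chk3 f_pp_033 t 1 3 1 = true := ex3_b k1_pp_033 s4_pp_033

theorem s6_pp_033 : ∃ t, chk3 f_pp_033 t 1 1 1 = true := ex3_b k0_pp_033 s5_pp_033

theorem c_pp_033 : CertB 0 536870912 0 1230186008 858993459 64424510 3 eng mog cd0q0 cd3q3 pd3 false true true .pnn 0 3 3
    ndB0q0 ndB3q3 pcB3 Cut.none Ext.none :=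
  certB2 (fam := false) (s1 := true) (s2 := true) (a := 0) (b := 3) (c := 3) (cn := .pnn) (n1 := ndB0q0) (n2 := ndB3q3) (pc := pcB3) (cut := Cut.none) (xt := Ext.none) (P1 := 0) (W1 := 536870912) (P2 := 0) (W2 := 1230186008) (P3 := 858993459) (W3 := 64424510) (N0 := 3) (En := eng) (mo := mog) (C1 := cd0q0) (C2 := cd3q3) (C3 := pd3)
    rfl (fun _ => rfl) s6_pp_033

noncomputable def f_pp_101 : ℕ → ℕ → ℕ → ℕ → Bool := onCell 536870912 536870912 536870912 536870912 858993459 64424510
    (rowB 3 eng mog cd0q1 cd3q1 pd0 0 false true true .npn 1 0 1 (qsf 536870912 536870912 536870912 536870912 0) ndB0q1 ndB3q1 pcB0 Cut.none Ext.none)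

def k0_pp_101 : ∃ t, chk3 f_pp_101 t 1 1 1 = true :=
  ⟨(a (l 3) (l 5)), by decide +kernel⟩

theorem c_pp_101 : CertB 536870912 536870912 536870912 536870912 858993459 64424510 3 eng mog cd0q1 cd3q1 pd0 false true true .npn 1 0 1
    ndB0q1 ndB3q1 pcB0 Cut.none Ext.none :=
  certB0 (fam := false) (s1 := true) (s2 := true) (a := 1) (b := 0) (c := 1) (cn := .npn) (n1 := ndB0q1) (n2 := ndB3q1) (pc := pcB0) (cut := Cut.none) (xt := Ext.none) (P1 := 536870912) (W1 := 536870912) (P2 := 536870912) (W2 := 536870912) (P3 := 858993459) (W3 := 64424510) (N0 := 3) (En := eng) (mo := mog) (C1 := cd0q1) (C2 := cd3q1) (C3 := pd0)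
    rfl k0_pp_101

noncomputable def f_pp_102 : ℕ → ℕ → ℕ → ℕ → Bool := onCell 536870912 536870912 1073741824 536870912 858993459 64424510
    (rowB 3 eng mog cd0q1 cd3q2 pd0 0 false true true .npp 1 0 2 (qsf 536870912 536870912 1073741824 536870912 0) ndB0q1 ndB3q2 pcB0 Cut.none Ext.none)

def k0_pp_102 : ∃ t, chk3 f_pp_102 t 1 1 1 = true :=
  ⟨(l 3), by decide +kernel⟩

theorem c_pp_102 : CertB 536870912 536870912 1073741824 536870912 858993459 64424510 3 eng mog cd0q1 cd3q2 pd0 false true true .npp 1 0 2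
    ndB0q1 ndB3q2 pcB0 Cut.none Ext.none :=
  certB0 (fam := false) (s1 := true) (s2 := true) (a := 1) (b := 0) (c := 2) (cn := .npp) (n1 := ndB0q1) (n2 := ndB3q2) (pc := pcB0) (cut := Cut.none) (xt := Ext.none) (P1 := 536870912) (W1 := 536870912) (P2 := 1073741824) (W2 := 536870912) (P3 := 858993459) (W3 := 64424510) (N0 := 3) (En := eng) (mo := mog) (C1 := cd0q1) (C2 := cd3q2) (C3 := pd0)
    rfl k0_pp_102

noncomputable def f_pp_112 : ℕ → ℕ → ℕ → ℕ → Bool := onCell 536870912 536870912 1073741824 536870912 858993459 64424510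
    (rowB 3 eng mog cd0q1 cd3q2 pd1 0 false true true .dn 1 1 2 (qsf 536870912 536870912 1073741824 536870912 1) ndB0q1 ndB3q2 pcB1 Cut.none Ext.none)

def k0_pp_112 : ∃ t, chk3 f_pp_112 t 1 1 1 = true :=
  ⟨(l 3), by decide +kernel⟩

theorem c_pp_112 : CertB 536870912 536870912 1073741824 536870912 858993459 64424510 3 eng mog cd0q1 cd3q2 pd1 false true true .dn 1 1 2
    ndB0q1 ndB3q2 pcB1 Cut.none Ext.none :=
  certB0 (fam := false) (s1 := true) (s2 := true) (a := 1) (b := 1) (c := 2) (cn := .dn) (n1 := ndB0q1) (n2 := ndB3q2) (pc := pcB1) (cut := Cut.none) (xt := Ext.none) (P1 := 536870912) (W1 := 536870912) (P2 := 1073741824) (W2 := 536870912) (P3 := 858993459) (W3 := 64424510) (N0 := 3) (En := eng) (mo := mog) (C1 := cd0q1) (C2 := cd3q2) (C3 := pd1)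
    rfl k0_pp_112

noncomputable def cut_pp_113 : Cut := Cut.of [[⟨0, 1, 0, 67108864⟩, ⟨1, 1, 0, 67108864⟩, ⟨2, 2, 0, 16777216⟩]]

noncomputable def f_pp_113 : ℕ → ℕ → ℕ → ℕ → Bool := onCell 536870912 536870912 0 1230186008 858993459 64424510
    (rowB 3 eng mog cd0q1 cd3q3 pd1 2 false true true .nn 1 1 3 (qsf 536870912 536870912 0 1230186008 1) ndB0q1 ndB3q3 pcB1 cut_pp_113 Ext.none)

def k0_pp_113 : ∃ t, chk3 f_pp_113 t 1 1 1 = true :=
  ⟨(b (a (l 2) (a (l 2) (b (a (l 2) (a (l 2) (b (l 6) (l 3)))) (l 3)))) (b (a (l 3) (l 3)) (a (b (a (l 2) (l 3)) (l 3)) (l 3)))), by decide +kernel⟩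

theorem c_pp_113 : CertB 536870912 536870912 0 1230186008 858993459 64424510 3 eng mog cd0q1 cd3q3 pd1 false true true .nn 1 1 3
    ndB0q1 ndB3q3 pcB1 cut_pp_113 Ext.none :=
  certB2 (fam := false) (s1 := true) (s2 := true) (a := 1) (b := 1) (c := 3) (cn := .nn) (n1 := ndB0q1) (n2 := ndB3q3) (pc := pcB1) (cut := cut_pp_113) (xt := Ext.none) (P1 := 536870912) (W1 := 536870912) (P2 := 0) (W2 := 1230186008) (P3 := 858993459) (W3 := 64424510) (N0 := 3) (En := eng) (mo := mog) (C1 := cd0q1) (C2 := cd3q3) (C3 := pd1)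
    rfl (fun _ => rfl) k0_pp_113

end Pool.Agent.Strip051.G.I8000_8600.Tab.C.BB03

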