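import Pool.Agent.Strip051.G.I8000_8600.Tab

/-! # Certificates B8 (generated) -/

set_option linter.all false
set_option maxRecDepth 100000

namespace Pool.Agent.Strip051.G.I8000_8600.Tab.C.BA04

open Pool.Agent.Strip051.PB Pool.Agent.Strip051.PB.T
open Pool.Agent.Strip051.G.I8000_8600.Tab

noncomputable def cut_pm_102 : Cut := Cut.of [[⟨3, 0, 0, 1449551462⟩]]

noncomputable def f_pm_102 : ℕ → ℕ → ℕ → ℕ → Bool := onCell 536870912 536870912 1073741824 536870912 858993459 64424510
    (rowB 3 eng mog cd0q1 cd4q0 pd2 1 true true false .npp 1 0 2 (qsf 536870912 536870912 0 536870912 2) ndB0q1 ndB4q0 pcB2 cut_pm_102 Ext.none)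

def k0_pm_102 : ∃ t, chk3 f_pm_102 t 2 1 1 = true :=
  ⟨(b (a (b (b (a (b (b (l 16170832) (l 16122544)) (a (l 16024120) (l 15983856))) (b (a (l 15954840) (l 15910256)) (a (l 15942200) (l 15899392)))) (a (b (a (l 2) (l 15959000)) (l 2)) (b (c (l 15888064) (l 15907448)) (c (l 15859224) (l 15796176))))) (b (a (l 2) (b (l 172434409799) (l 2))) (l 2))) (b (b (a (b (a (l 15866160) (l 15822328)) (c (l 15826176) (l 15833632))) (c (b (l 15761608) (l 15737208)) (b (l 15742656) (l 15736176)))) (a (b (c (l 15802200) (l 15821056)) (c (l 15774096) (l 15716008))) (a (c (l 15717776) (l 15929088)) (b (l 15693712) (l 15667240))))) (a (b (a (c (l 15750920) (l 15749664)) (l 15699640)) (a (l 2) (l 15598712))) (b (a (l 15671680) (l 15596208)) (a (l 15571984) (l 15516208)))))) (a (l 2) (b (a (l 2) (b (c (b (l 15462368) (l 2)) (l 15553464)) (l 2))) (l 2)))), by decide +kernel⟩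

def k1_pm_102 : ∃ t, chk3 f_pm_102 t 3 2 1 = true :=
  ⟨(a (b (a (b (b (a (l 15682824) (a (l 15642504) (l 15598536))) (a (l 15663192) (l 15636936))) (c (a (l 15718568) (l 15550688)) (b (l 15830400) (l 15684752)))) (b (b (a (l 15508808) (l 15402984)) (a (l 15490504) (l 15375696))) (b (a (l 15473240) (l 15370952)) (a (l 15456880) (l 15367144))))) (a (b (c (a (l 15536120) (l 15482888)) (a (l 15575848) (l 15508552))) (c (l 15418224) (a (l 15512896) (l 15462104)))) (b (b (a (l 15441056) (l 15363928)) (a (l 15425656) (l 15360800))) (b (c (l 15382520) (l 15381656)) (l 15437120))))) (b (a (b (a (b (c (l 15288600) (l 15200336)) (l 15272056)) (b (c (l 15150384) (l 15042568)) (c (l 15164592) (l 15069440)))) (a (b (l 15259384) (l 15269056)) (b (b (l 15133952) (l 15145480)) (l 15162440)))) (b (a (b (c (c (l 15031808) (l 14966208)) (l 14869472)) (c (l 15029032) (l 14911800))) (b (c (b (l 14823520) (l 14845720)) (b (l 14660248) (l 14689520))) (c (b (l 14868696) (l 14892568))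 (l 14732248)))) (b (a (c (l 15062240) (l 14952976)) (c (l 14929112) (l 14789168))) (a (c (l 15098944) (l 14993272)) (c (l 14981584) (l 14844848)))))) (a (b (a (b (l 15279208) (l 15289376)) (b (l 15186784) (l 15210872))) (a (b (l 15299720) (l 15311152)) (b (l 15235120) (l 15260376)))) (b (b (a (l 15083952) (c (l 15036336) (l 14898824))) (a (l 15122696) (l 15019976))) (c (b (l 15181152) (l 15230848)) (b (l 15053896) (l 15099200))))))), by decide +kernel⟩

def k2_pm_102 : ∃ t, chk3 f_pm_102 t 3 3 1 = true :=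
  ⟨(a (b (b (a (b (c (l 15392448) (l 15442256)) (l 73649814167)) (b (l 15367360) (l 15361184))) (a (b (l 263701955815) (l 2)) (b (l 15355704) (l 15351208)))) (a (l 2) (b (b (l 15347480) (l 2)) (l 2)))) (b (a (b (a (l 15495416) (b (l 15286768) (l 15313736))) (a (l 15355864) (l 15395248))) (b (c (b (l 15281224) (l 15332232)) (b (l 15145576) (l 15192064))) (c (l 15554992) (l 15446880)))) (a (b (a (l 15388048) (l 15412920)) (a (l 2) (l 15479328))) (b (b (l 15409616) (l 15461344)) (b (l 15514680) (l 15569304)))))), by decide +kernel⟩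

theorem s3_pm_102 : ∃ t, chk3 f_pm_102 t 3 1 1 = true := ex3_b k1_pm_102 k2_pm_102

theorem s4_pm_102 : ∃ t, chk3 f_pm_102 t 1 1 1 = true := ex3_a k0_pm_102 s3_pm_102

theorem c_pm_102 : CertB 536870912 536870912 0 536870912 858993459 64424510 3 eng mog cd0q1 cd4q0 pd2 true true false .npp 1 0 2
    ndB0q1 ndB4q0 pcB2 cut_pm_102 Ext.none :=
  certB1 (fam := true) (s1 := true) (s2 := false) (a := 1) (b := 0) (c := 2) (cn := .npp) (n1 := ndB0q1) (n2 := ndB4q0) (pc := pcB2) (cut := cut_pm_102) (xt := Ext.none) (P1 := 536870912) (W1 := 536870912) (P2 := 0) (W2 := 536870912) (P3 := 858993459) (W3 := 64424510) (N0 := 3) (En := eng) (mo := mog) (C1 := cd0q1) (C2 := cd4q0) (C3 := pd2)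
    rfl (fun _ => rfl) s4_pm_102

noncomputable def cut_pm_112 : Cut := Cut.of [[⟨3, 0, 0, 1449551462⟩]]

noncomputable def f_pm_112 : ℕ → ℕ → ℕ → ℕ → Bool := onCell 536870912 536870912 1073741824 536870912 858993459 64424510
    (rowB 3 eng mog cd0q1 cd4q1 pd2 1 true true false .dn 1 1 2 (qsf 536870912 536870912 536870912 536870912 2) ndB0q1 ndB4q1 pcB2 cut_pm_112 Ext.none)

def k0_pm_112 : ∃ t, chk3 f_pm_112 t 2 1 1 = true :=
  ⟨(b (a (b (b (a (b (c (l 16017576) (l 16028464)) (c (l 15996840) (l 16013528))) (c (l 15986256) (l 16063320))) (a (b (l 15978536) (l 15943024)) (c (l 15877136) (l 15898384)))) (b (a (c (b (l 15897872) (l 15851856)) (b (l 15898976) (l 15842312))) (c (l 15814760) (l 15824544))) (a (c (a (l 15771856) (l 15760944)) (a (l 15744464) (l 15743280))) (c (a (l 15740168) (l 15709776)) (a (l 15733840) (l 15716912)))))) (b (a (b (l 1) (c (l 15790976) (l 15814432))) (l 1)) (a (b (c (l 15730808) (l 15755016)) (c (l 15648400) (l 15675008))) (b (c (l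 15625384) (l 15538240)) (c (l 15538432) (l 15591264)))))) (a (b (a (b (c (a (l 15632744) (l 15635392)) (a (l 15582440) (l 15596936))) (c (a (l 15473000) (l 15491496)) (a (l 15397896) (l 15431640)))) (b (b (a (l 15651152) (l 15636088)) (a (l 15584920) (l 15576168))) (c (a (l 15494824) (l 15484208)) (a (l 15451576) (l 15459896))))) (a (a (b (b (l 15293608) (l 15187472)) (b (c (l 15139160) (l 15002312)) (c (l 15034968) (l 14873464)))) (b (c (l 15327504) (l 15243008)) (b (l 15143848) (l 15039096)))) (b (c (a (l 15348336) (l 15349656)) (a (l 15284824) (l 15308536))) (c (a (l 15183984) (l 15200296)) (a (l 15095208) (l 15140120)))))) (b (a (b (b (l 15593504) (l 15539904)) (b (l 15482304) (l 15315512))) (b (b (l 15479536) (l 15410688)) (b (l 15403928) (l 15270864)))) (a (b (b (l 15334976) (l 15142304)) (b (a (l 15225160) (l 15211208)) (a (l 15150464) (l 15143344)))) (b (a (c (l 15257440) (l 15290608)) (l 15276920)) (a (c (l 15157736) (l 15170656)) (l 15234960))))))),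 by decide +kernel⟩

def k1_pm_112 : ∃ t, chk3 f_pm_112 t 3 1 1 = true :=
  ⟨(b (a (b (l 1) (a (b (l 1) (c (l 15696720) (l 15577152))) (l 1))) (l 1)) (a (b (a (b (c (l 15382136) (l 15431536)) (c (l 15332200) (l 15370256))) (b (c (l 15367728) (l 15366896)) (c (l 15363520) (l 15350328)))) (b (a (a (l 15291960) (l 15312752)) (l 15351344)) (a (a (l 15227584) (l 15271744)) (b (l 15349408) (l 15349112))))) (b (a (b (l 1) (c (l 15400288) (l 15320240))) (l 1)) (b (a (c (l 15458288) (l 15354944)) (l 259340134567)) (a (c (l 15528312) (l 15391048)) (b (l 15517784) (l 15572504))))))), by decide +kernel⟩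

theorem s2_pm_112 : ∃ t, chk3 f_pm_112 t 1 1 1 = true := ex3_a k0_pm_112 k1_pm_112

theorem c_pm_112 : CertB 536870912 536870912 536870912 536870912 858993459 64424510 3 eng mog cd0q1 cd4q1 pd2 true true false .dn 1 1 2
    ndB0q1 ndB4q1 pcB2 cut_pm_112 Ext.none :=
  certB1 (fam := true) (s1 := true) (s2 := false) (a := 1) (b := 1) (c := 2) (cn := .dn) (n1 := ndB0q1) (n2 := ndB4q1) (pc := pcB2) (cut := cut_pm_112) (xt := Ext.none) (P1 := 536870912) (W1 := 536870912) (P2 := 536870912) (W2 := 536870912) (P3 := 858993459) (W3 := 64424510) (N0 := 3) (En := eng) (mo := mog) (C1 := cd0q1) (C2 := cd4q1) (C3 := pd2)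
    rfl (fun _ => rfl) s2_pm_112

noncomputable def cut_pm_113 : Cut := Cut.of [[⟨3, 0, 0, 1449551462⟩]]

noncomputable def f_pm_113 : ℕ → ℕ → ℕ → ℕ → Bool := onCell 536870912 536870912 1610612736 536870912 858993459 64424510
    (rowB 3 eng mog cd0q1 cd4q1 pd3 1 true true false .nn 1 1 3 (qsf 536870912 536870912 536870912 536870912 3) ndB0q1 ndB4q1 pcB3 cut_pm_113 Ext.none)

def k0_pm_113 : ∃ t, chk3 f_pm_113 t 2 1 1 = true :=
  ⟨(b (b (a (b (a (c (a (b (a (l 287859703383) (l 265311211271)) (a (l 2) (l 311481890887))) (b (a (l 14886360) (l 14934264)) (a (l 309871378359) (l 14817760)))) (a (b (l 278195763159) (l 318460830455)) (b (l 14754096) (l 288933138951)))) (c (a (b (l 15008576) (l 14895016)) (b (l 15111544) (l 15003760))) (a (b (l 14857952) (l 14729496)) (b (l 14957568) (l 14837952))))) (b (a (a (l 2) (c (a (l 2) (l 332956707511)) (l 325440116487))) (c (a (l 341010002279) (l 14894152)) (a (l 288933112199) (l 14713120)))) (a (l 2) (a (c (l 349062852551)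 (l 332419419271)) (c (l 283564823591) (l 288396242807)))))) (a (a (b (c (l 15167264) (l 14997616)) (c (b (l 15013720) (a (l 14877352) (l 14941032))) (b (l 14826752) (l 14706584)))) (b (b (l 15227616) (l 15131672)) (b (l 15030432) (l 14925520)))) (a (b (b (l 15312560) (l 15225344)) (b (l 15135048) (l 15040608))) (b (l 15345272) (b (l 15228336) (l 15147584)))))) (a (b (b (a (l 2) (a (l 2) (c (l 367853372951) (l 335640613287)))) (l 2)) (l 2)) (b (a (a (b (c (l 438720678471) (l 390938626007)) (c (l 511734910759) (l 477911475415))) (b (c (l 14933296) (l 14711560)) (c (l 14836128) (l 14594784)))) (a (b (l 14943448) (l 14844704)) (b (l 15063448) (l 14977608)))) (b (a (a (l 2) (l 538578354743)) (a (l 14914768) (l 14891696))) (a (l 2) (a (l 529988509751) (l 14808696))))))) (a (l 2) (b (b (a (l 2) (b (a (l 2) (l 14733696)) (l 2))) (l 2)) (l 2)))), by decide +kernel⟩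

def k1_pm_113 : ∃ t, chk3 f_pm_113 t 3 1 1 = true :=
  ⟨(a (b (b (b (a (c (l 15544936) (l 15336944)) (b (l 15559320) (l 15525616))) (a (c (l 15435904) (l 15211680)) (b (l 15495968) (l 15470616)))) (b (a (b (l 15233248) (l 15174744)) (b (l 15450848) (l 15436408))) (a (b (l 15116272) (l 15061672)) (b (l 15430040) (l 15436488))))) (b (b (b (a (l 488650173655) (l 15456400)) (a (l 491871340039) (l 4))) (b (a (l 536968483383) (l 4)) (l 4))) (l 4))) (b (a (b (b (a (l 15600064) (l 15630264)) (b (l 15626264) (l 15643904))) (b (b (l 15673880) (l 15718360)) (a (l 39961312359) (l 4)))) (b (b (b (l 15647032) (l 15693760)) (b (l 15750736) (l 4))) (l 4))) (l 4))), by decide +kernel⟩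

theorem s2_pm_113 : ∃ t, chk3 f_pm_113 t 1 1 1 = true := ex3_a k0_pm_113 k1_pm_113

theorem c_pm_113 : CertB 536870912 536870912 536870912 536870912 858993459 64424510 3 eng mog cd0q1 cd4q1 pd3 true true false .nn 1 1 3
    ndB0q1 ndB4q1 pcB3 cut_pm_113 Ext.none :=
  certB1 (fam := true) (s1 := true) (s2 := false) (a := 1) (b := 1) (c := 3) (cn := .nn) (n1 := ndB0q1) (n2 := ndB4q1) (pc := pcB3) (cut := cut_pm_113) (xt := Ext.none) (P1 := 536870912) (W1 := 536870912) (P2 := 536870912) (W2 := 536870912) (P3 := 858993459) (W3 := 64424510) (N0 := 3) (En := eng) (mo := mog) (C1 := cd0q1) (C2 := cd4q1) (C3 := pd3)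
    rfl (fun _ => rfl) s2_pm_113

noncomputable def cut_pm_123 : Cut := Cut.of [[⟨3, 0, 0, 1449551462⟩]]

noncomputable def f_pm_123 : ℕ → ℕ → ℕ → ℕ → Bool := onCell 536870912 536870912 1610612736 536870912 858993459 64424510
    (rowB 3 eng mog cd0q1 cd4q2 pd3 1 true true false .npn 1 2 3 (qsf 536870912 536870912 1073741824 536870912 3) ndB0q1 ndB4q2 pcB3 cut_pm_123 Ext.none)

def k0_pm_123 : ∃ t, chk3 f_pm_123 t 2 2 1 = true :=
  ⟨(b (b (a (b (a (b (a (c (l 256654078247) (l 238936957079)) (l 1)) (a (c (l 229810654727) (l 14680688)) (c (l 387113557639) (l 378523196663)))) (l 1)) (a (a (c (a (l 14970832) (l 14899432)) (a (l 14822976) (l 14742872))) (c (a (l 14848160) (l 268465185447)) (l 251821952631))) (a (a (c (l 397850955927) (l 391408071799)) (l 1)) (l 1)))) (l 1)) (b (a (a (a (c (l 15051256) (l 14914272)) (c (a (l 14950184) (l 14882152)) (l 14760488))) (a (c (a (l 14813888) (l 280276349959)) (l 257190630135)) (c (l 423083944343) (l 420935986071)))) (l 1))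 (a (a (a (c (l 15165328) (l 15039576)) (c (l 15039176) (l 14898704))) (a (c (l 14911192) (l 14746528)) (c (l 257191060983) (l 264706830263)))) (a (a (c (a (l 433821402279) (l 1)) (l 448853334327)) (l 1)) (l 1))))) (a (a (b (b (a (l 15341320) (c (l 15160520) (l 15031040))) (a (l 15323696) (l 15215328))) (b (a (l 15427160) (l 15331240)) (a (l 15527424) (l 15442512)))) (b (b (a (c (l 15041768) (l 14892256)) (c (l 14922184) (l 14742264))) (a (l 15286888) (c (l 15060272) (l 14896456)))) (b (a (l 15227960) (l 15116904)) (a (l 15351752) (l 15254568))))) (b (b (a (a (c (a (l 14834144) (l 14777424)) (l 227662806247)) (c (l 489119191447) (l 14477336))) (l 1)) (a (a (c (l 14948872) (l 14750104)) (c (l 14836920) (l 14599192))) (a (l 511130795207) (l 1)))) (b (a (a (l 14999496) (l 14875128)) (a (l 14835416) (l 525089541287))) (a (a (l 15149440) (l 15037888)) (a (l 14922768) (l 14814760))))))), by decide +kernel⟩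

def k1_pm_123 : ∃ t, chk3 f_pm_123 t 2 3 1 = true :=
  ⟨(a (b (b (a (b (a (l 15626712) (l 15550528)) (l 15816000)) (b (a (l 15470592) (l 15385512)) (l 15591760))) (a (b (l 15790864) (l 15888448)) (b (l 15666352) (l 15786248)))) (a (b (b (l 15988280) (l 16095480)) (b (l 16179256) (b (l 16228736) (l 4)))) (b (b (l 15914608) (l 16044560)) (b (l 62510569495) (l 4))))) (b (b (a (b (a (l 15294392) (l 15197544)) (l 15560704)) (b (a (l 15099080) (l 15003080)) (a (l 15274672) (l 15200688)))) (a (b (l 15539192) (l 15690104)) (b (l 15446168) (l 15702424)))) (b (a (b (l 15848496) (b (l 15948144) (l 15992480))) (b (a (l 15811120) (l 4)) (l 4))) (l 4)))), by decide +kernel⟩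

def k2_pm_123 : ∃ t, chk3 f_pm_123 t 3 1 1 = true :=
  ⟨(a (b (b (l 1) (b (l 1) (a (b (l 1) (a (l 14730336) (l 1))) (l 1)))) (b (b (a (b (c (l 15068200) (l 14733208)) (a (l 15138920) (l 15107800))) (b (l 1) (l 4))) (a (b (l 79689337127) (l 4)) (l 4))) (l 4))) (b (l 1) (l 4))), by decide +kernel⟩

theorem s3_pm_123 : ∃ t, chk3 f_pm_123 t 2 1 1 = true := ex3_b k0_pm_123 k1_pm_123

theorem s4_pm_123 : ∃ t, chk3 f_pm_123 t 1 1 1 = true := ex3_a s3_pm_123 k2_pm_123

theorem c_pm_123 : CertB 536870912 536870912 1073741824 536870912 858993459 64424510 3 eng mog cd0q1 cd4q2 pd3 true true false .npn 1 2 3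
    ndB0q1 ndB4q2 pcB3 cut_pm_123 Ext.none :=
  certB1 (fam := true) (s1 := true) (s2 := false) (a := 1) (b := 2) (c := 3) (cn := .npn) (n1 := ndB0q1) (n2 := ndB4q2) (pc := pcB3) (cut := cut_pm_123) (xt := Ext.none) (P1 := 536870912) (W1 := 536870912) (P2 := 1073741824) (W2 := 536870912) (P3 := 858993459) (W3 := 64424510) (N0 := 3) (En := eng) (mo := mog) (C1 := cd0q1) (C2 := cd4q2) (C3 := pd3)
    rfl (fun _ => rfl) s4_pm_123

noncomputable def cut_pm_133 : Cut := Cut.of [[⟨3, 0, 0, 1449551462⟩]]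

noncomputable def f_pm_133 : ℕ → ℕ → ℕ → ℕ → Bool := onCell 536870912 536870912 0 1230186008 858993459 64424510
    (rowB 3 eng mog cd0q1 cd4q3 pd3 0 true true false .dn 1 3 3 (qsf 536870912 536870912 0 1230186008 3) ndB0q1 ndB4q3 pcB3 cut_pm_133 Ext.none)

def k0_pm_133 : ∃ t, chk3 f_pm_133 t 1 1 1 = true :=
  ⟨(b (l 2) (b (l 2) (a (b (l 2) (l 4)) (l 2)))), by decide +kernel⟩

theorem c_pm_133 : CertB 536870912 536870912 0 1230186008 858993459 64424510 3 eng mog cd0q1 cd4q3 pd3 true true false .dn 1 3 3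
    ndB0q1 ndB4q3 pcB3 cut_pm_133 Ext.none :=
  certB0 (fam := true) (s1 := true) (s2 := false) (a := 1) (b := 3) (c := 3) (cn := .dn) (n1 := ndB0q1) (n2 := ndB4q3) (pc := pcB3) (cut := cut_pm_133) (xt := Ext.none) (P1 := 536870912) (W1 := 536870912) (P2 := 0) (W2 := 1230186008) (P3 := 858993459) (W3 := 64424510) (N0 := 3) (En := eng) (mo := mog) (C1 := cd0q1) (C2 := cd4q3) (C3 := pd3)
    rfl k0_pm_133

noncomputable def cut_pm_202 : Cut := Cut.of [[⟨3, 0, 0, 1449551462⟩]]

noncomputable def f_pm_202 : ℕ → ℕ → ℕ → ℕ → Bool := onCell 0 536870912 1073741824 536870912 858993459 64424510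
    (rowB 3 eng mog cd0q2 cd4q0 pd2 1 true true false .pp 2 0 2 (qsf 0 536870912 0 536870912 2) ndB0q2 ndB4q0 pcB2 cut_pm_202 Ext.none)

def k0_pm_202 : ∃ t, chk3 f_pm_202 t 1 2 1 = true :=
  ⟨(a (b (b (l 1) (l 4)) (l 4)) (b (a (b (l 1) (a (b (l 1) (b (a (l 4) (l 14858632)) (l 14933552))) (b (b (a (l 1) (l 14764840)) (a (l 14808496) (l 14813096))) (a (l 14882600) (l 14876848))))) (b (a (b (l 1) (a (a (l 1) (b (l 1) (l 14730816))) (c (b (b (l 14767656) (l 14786776)) (l 14811776)) (b (l 14590256) (l 14657040))))) (a (b (b (l 1) (c (a (l 14726592) (l 14738440)) (l 14652016))) (b (b (a (l 14692664) (l 14690856)) (l 14706528)) (c (l 14806168) (l 14653256)))) (a (b (b (b (l 1) (a (l 41368442967) (b (a (l 1) (l 14644560)) (l 14651384)))) (b (a (l 14661640) (l 14660808)) (l 14674216))) (b (l 14695008) (l 14725176))) (b (c (b (a (c (a (l 14771016) (l 14774208)) (l 14682432)) (b (l 14726592) (l 14738328))) (l 14754720)) (b (a (l 14611352) (l 14551752)) (l 14582336)))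 (c (l 14794792) (l 14631680)))))) (a (b (a (b (l 14770920) (l 14810072)) (c (l 14859312) (l 14713136))) (c (l 15059640) (l 14792704))) (b (a (c (l 14850200) (l 14705048)) (c (l 14849496) (l 14697848))) (c (a (l 14916160) (l 14913008)) (l 14936512)))))) (a (b (a (b (a (l 4) (l 15001496)) (l 4)) (b (c (l 15042512) (l 14895912)) (a (l 15073400) (l 15049104)))) (a (l 4) (b (a (l 15174216) (l 15136712)) (l 15420808)))) (b (a (b (c (l 15010312) (l 14871288)) (c (l 15089048) (l 14948256))) (b (c (l 14980024) (l 14837336)) (c (l 15049928) (l 14903944)))) (a (b (l 15096880) (l 15178328)) (b (c (l 15120856) (l 14969608)) (l 15114304))))))), by decide +kernel⟩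

def k1_pm_202 : ∃ t, chk3 f_pm_202 t 1 3 1 = true :=
  ⟨(a (l 4) (b (a (b (a (l 4) (b (l 15349720) (l 4))) (l 4)) (b (a (b (l 15262360) (l 15346568)) (b (l 15185208) (l 15255808))) (a (b (l 15428440) (l 15505856)) (b (l 15325888) (l 15395512))))) (a (l 4) (a (l 4) (b (b (l 15463792) (l 15529616)) (b (l 15592520) (l 4))))))), by decide +kernel⟩

theorem s2_pm_202 : ∃ t, chk3 f_pm_202 t 1 1 1 = true := ex3_b k0_pm_202 k1_pm_202

theorem c_pm_202 : CertB 0 536870912 0 536870912 858993459 64424510 3 eng mog cd0q2 cd4q0 pd2 true true false .pp 2 0 2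
    ndB0q2 ndB4q0 pcB2 cut_pm_202 Ext.none :=
  certB1 (fam := true) (s1 := true) (s2 := false) (a := 2) (b := 0) (c := 2) (cn := .pp) (n1 := ndB0q2) (n2 := ndB4q0) (pc := pcB2) (cut := cut_pm_202) (xt := Ext.none) (P1 := 0) (W1 := 536870912) (P2 := 0) (W2 := 536870912) (P3 := 858993459) (W3 := 64424510) (N0 := 3) (En := eng) (mo := mog) (C1 := cd0q2) (C2 := cd4q0) (C3 := pd2)
    rfl (fun _ => rfl) s2_pm_202

noncomputable def cut_pm_203 : Cut := Cut.of [[⟨3, 0, 0, 1449551462⟩]]

noncomputable def f_pm_203 : ℕ → ℕ → ℕ → ℕ → Bool := onCell 0 536870912 1610612736 536870912 858993459 64424510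
    (rowB 3 eng mog cd0q2 cd4q0 pd3 1 true true false .up 2 0 3 (qsf 0 536870912 0 536870912 3) ndB0q2 ndB4q0 pcB3 cut_pm_203 Ext.none)

def k0_pm_203 : ∃ t, chk3 f_pm_203 t 1 1 1 = true :=
  ⟨(a (l 4) (b (l 4) (l 2))), by decide +kernel⟩

theorem c_pm_203 : CertB 0 536870912 0 536870912 858993459 64424510 3 eng mog cd0q2 cd4q0 pd3 true true false .up 2 0 3
    ndB0q2 ndB4q0 pcB3 cut_pm_203 Ext.none :=
  certB1 (fam := true) (s1 := true) (s2 := false) (a := 2) (b := 0) (c := 3) (cn := .up) (n1 := ndB0q2) (n2 := ndB4q0) (pc := pcB3) (cut := cut_pm_203) (xt := Ext.none) (P1 := 0) (W1 := 536870912) (P2 := 0) (W2 := 536870912) (P3 := 858993459) (W3 := 64424510) (N0 := 3) (En := eng) (mo := mog) (C1 := cd0q2) (C2 := cd4q0) (C3 := pd3)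
    rfl (fun _ => rfl) k0_pm_203

noncomputable def cut_pm_213 : Cut := Cut.of [[⟨3, 0, 0, 1449551462⟩]]

noncomputable def f_pm_213 : ℕ → ℕ → ℕ → ℕ → Bool := onCell 0 536870912 536870912 536870912 858993459 64424510
    (rowB 3 eng mog cd0q2 cd4q1 pd3 0 true true false .pnn 2 1 3 (qsf 0 536870912 536870912 536870912 3) ndB0q2 ndB4q1 pcB3 cut_pm_213 Ext.none)

def k0_pm_213 : ∃ t, chk3 f_pm_213 t 1 1 1 = true :=
  ⟨(a (l 4) (b (l 4) (l 4))), by decide +kernel⟩

theorem c_pm_213 : CertB 0 536870912 536870912 536870912 858993459 64424510 3 eng mog cd0q2 cd4q1 pd3 true true false .pnn 2 1 3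
    ndB0q2 ndB4q1 pcB3 cut_pm_213 Ext.none :=
  certB0 (fam := true) (s1 := true) (s2 := false) (a := 2) (b := 1) (c := 3) (cn := .pnn) (n1 := ndB0q2) (n2 := ndB4q1) (pc := pcB3) (cut := cut_pm_213) (xt := Ext.none) (P1 := 0) (W1 := 536870912) (P2 := 536870912) (W2 := 536870912) (P3 := 858993459) (W3 := 64424510) (N0 := 3) (En := eng) (mo := mog) (C1 := cd0q2) (C2 := cd4q1) (C3 := pd3)
    rfl k0_pm_213

noncomputable def cut_mm_001 : Cut := Cut.of [[⟨3, 0, 0, 1449551462⟩]]

noncomputable def f_mm_001 : ℕ → ℕ → ℕ → ℕ → Bool := onCell 0 536870912 0 536870912 858993459 64424510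
    (rowB 3 eng mog cd0q0 cd4q0 pd1 0 true false false .up 0 0 1 (qsf 0 536870912 0 536870912 1) ndB0q0 ndB4q0 pcB1 cut_mm_001 Ext.none)

def k0_mm_001 : ∃ t, chk3 f_mm_001 t 1 1 1 = true :=
  ⟨(l 4), by decide +kernel⟩

theorem c_mm_001 : CertB 0 536870912 0 536870912 858993459 64424510 3 eng mog cd0q0 cd4q0 pd1 true false false .up 0 0 1
    ndB0q0 ndB4q0 pcB1 cut_mm_001 Ext.none :=
  certB0 (fam := true) (s1 := false) (s2 := false) (a := 0) (b := 0) (c := 1) (cn := .up) (n1 := ndB0q0) (n2 := ndB4q0) (pc := pcB1) (cut := cut_mm_001) (xt := Ext.none) (P1 := 0) (W1 := 536870912) (P2 := 0) (W2 := 536870912) (P3 := 858993459) (W3 := 64424510) (N0 := 3) (En := eng) (mo := mog) (C1 := cd0q0) (C2 := cd4q0) (C3 := pd1)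
    rfl k0_mm_001

noncomputable def cut_mm_011 : Cut := Cut.of [[⟨3, 0, 0, 1449551462⟩]]

noncomputable def f_mm_011 : ℕ → ℕ → ℕ → ℕ → Bool := onCell 0 536870912 536870912 536870912 858993459 64424510
    (rowB 3 eng mog cd0q0 cd4q1 pd1 0 true false false .pnn 0 1 1 (qsf 0 536870912 536870912 536870912 1) ndB0q0 ndB4q1 pcB1 cut_mm_011 Ext.none)

def k0_mm_011 : ∃ t, chk3 f_mm_011 t 1 1 1 = true :=
  ⟨(l 4), by decide +kernel⟩

theorem c_mm_011 : CertB 0 536870912 536870912 536870912 858993459 64424510 3 eng mog cd0q0 cd4q1 pd1 true false false .pnn 0 1 1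
    ndB0q0 ndB4q1 pcB1 cut_mm_011 Ext.none :=
  certB0 (fam := true) (s1 := false) (s2 := false) (a := 0) (b := 1) (c := 1) (cn := .pnn) (n1 := ndB0q0) (n2 := ndB4q1) (pc := pcB1) (cut := cut_mm_011) (xt := Ext.none) (P1 := 0) (W1 := 536870912) (P2 := 536870912) (W2 := 536870912) (P3 := 858993459) (W3 := 64424510) (N0 := 3) (En := eng) (mo := mog) (C1 := cd0q0) (C2 := cd4q1) (C3 := pd1)
    rfl k0_mm_011

noncomputable def cut_mm_012 : Cut := Cut.of [[⟨3, 0, 0, 1449551462⟩]]

noncomputable def f_mm_012 : ℕ → ℕ → ℕ → ℕ → Bool := onCell 0 536870912 536870912 536870912 858993459 64424510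
    (rowB 3 eng mog cd0q0 cd4q1 pd2 0 true false false .pnp 0 1 2 (qsf 0 536870912 536870912 536870912 2) ndB0q0 ndB4q1 pcB2 cut_mm_012 Ext.none)

def k0_mm_012 : ∃ t, chk3 f_mm_012 t 1 1 1 = true :=
  ⟨(l 4), by decide +kernel⟩

theorem c_mm_012 : CertB 0 536870912 536870912 536870912 858993459 64424510 3 eng mog cd0q0 cd4q1 pd2 true false false .pnp 0 1 2
    ndB0q0 ndB4q1 pcB2 cut_mm_012 Ext.none :=
  certB0 (fam := true) (s1 := false) (s2 := false) (a := 0) (b := 1) (c := 2) (cn := .pnp) (n1 := ndB0q0) (n2 := ndB4q1) (pc := pcB2) (cut := cut_mm_012) (xt := Ext.none) (P1 := 0) (W1 := 536870912) (P2 := 536870912) (W2 := 536870912) (P3 := 858993459) (W3 := 64424510) (N0 := 3) (En := eng) (mo := mog) (C1 := cd0q0) (C2 := cd4q1) (C3 := pd2)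
    rfl k0_mm_012

noncomputable def cut_mm_022 : Cut := Cut.of [[⟨3, 0, 0, 1449551462⟩]]

noncomputable def f_mm_022 : ℕ → ℕ → ℕ → ℕ → Bool := onCell 0 536870912 1073741824 536870912 858993459 64424510
    (rowB 3 eng mog cd0q0 cd4q2 pd2 0 true false false .pp 0 2 2 (qsf 0 536870912 1073741824 536870912 2) ndB0q0 ndB4q2 pcB2 cut_mm_022 Ext.none)

def k0_mm_022 : ∃ t, chk3 f_mm_022 t 1 1 1 = true :=
  ⟨(l 4), by decide +kernel⟩

theorem c_mm_022 : CertB 0 536870912 1073741824 536870912 858993459 64424510 3 eng mog cd0q0 cd4q2 pd2 true false false .pp 0 2 2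
    ndB0q0 ndB4q2 pcB2 cut_mm_022 Ext.none :=
  certB0 (fam := true) (s1 := false) (s2 := false) (a := 0) (b := 2) (c := 2) (cn := .pp) (n1 := ndB0q0) (n2 := ndB4q2) (pc := pcB2) (cut := cut_mm_022) (xt := Ext.none) (P1 := 0) (W1 := 536870912) (P2 := 1073741824) (W2 := 536870912) (P3 := 858993459) (W3 := 64424510) (N0 := 3) (En := eng) (mo := mog) (C1 := cd0q0) (C2 := cd4q2) (C3 := pd2)
    rfl k0_mm_022

noncomputable def cut_mm_023 : Cut := Cut.of [[⟨3, 0, 0, 1449551462⟩]]

noncomputable def f_mm_023 : ℕ → ℕ → ℕ → ℕ → Bool := onCell 0 536870912 1073741824 536870912 858993459 64424510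
    (rowB 3 eng mog cd0q0 cd4q2 pd3 0 true false false .up 0 2 3 (qsf 0 536870912 1073741824 536870912 3) ndB0q0 ndB4q2 pcB3 cut_mm_023 Ext.none)

def k0_mm_023 : ∃ t, chk3 f_mm_023 t 1 1 1 = true :=
  ⟨(l 4), by decide +kernel⟩

theorem c_mm_023 : CertB 0 536870912 1073741824 536870912 858993459 64424510 3 eng mog cd0q0 cd4q2 pd3 true false false .up 0 2 3
    ndB0q0 ndB4q2 pcB3 cut_mm_023 Ext.none :=
  certB0 (fam := true) (s1 := false) (s2 := false) (a := 0) (b := 2) (c := 3) (cn := .up) (n1 := ndB0q0) (n2 := ndB4q2) (pc := pcB3) (cut := cut_mm_023) (xt := Ext.none) (P1 := 0) (W1 := 536870912) (P2 := 1073741824) (W2 := 536870912) (P3 := 858993459) (W3 := 64424510) (N0 := 3) (En := eng) (mo := mog) (C1 := cd0q0) (C2 := cd4q2) (C3 := pd3)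
    rfl k0_mm_023

noncomputable def cut_mm_033 : Cut := Cut.of [[⟨3, 0, 0, 1449551462⟩]]

noncomputable def f_mm_033 : ℕ → ℕ → ℕ → ℕ → Bool := onCell 0 536870912 0 1230186008 858993459 64424510
    (rowB 3 eng mog cd0q0 cd4q3 pd3 0 true false false .pnn 0 3 3 (qsf 0 536870912 0 1230186008 3) ndB0q0 ndB4q3 pcB3 cut_mm_033 Ext.none)

def k0_mm_033 : ∃ t, chk3 f_mm_033 t 1 1 1 = true :=
  ⟨(l 4), by decide +kernel⟩

theorem c_mm_033 : CertB 0 536870912 0 1230186008 858993459 64424510 3 eng mog cd0q0 cd4q3 pd3 true false false .pnn 0 3 3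
    ndB0q0 ndB4q3 pcB3 cut_mm_033 Ext.none :=
  certB0 (fam := true) (s1 := false) (s2 := false) (a := 0) (b := 3) (c := 3) (cn := .pnn) (n1 := ndB0q0) (n2 := ndB4q3) (pc := pcB3) (cut := cut_mm_033) (xt := Ext.none) (P1 := 0) (W1 := 536870912) (P2 := 0) (W2 := 1230186008) (P3 := 858993459) (W3 := 64424510) (N0 := 3) (En := eng) (mo := mog) (C1 := cd0q0) (C2 := cd4q3) (C3 := pd3)
    rfl k0_mm_033

noncomputable def cut_mm_101 : Cut := Cut.of [[⟨3, 0, 0, 1449551462⟩]]

noncomputable def f_mm_101 : ℕ → ℕ → ℕ → ℕ → Bool := onCell 536870912 536870912 0 536870912 858993459 64424510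
    (rowB 3 eng mog cd0q1 cd4q0 pd1 0 true false false .npn 1 0 1 (qsf 536870912 536870912 0 536870912 1) ndB0q1 ndB4q0 pcB1 cut_mm_101 Ext.none)

def k0_mm_101 : ∃ t, chk3 f_mm_101 t 1 1 1 = true :=
  ⟨(l 4), by decide +kernel⟩

theorem c_mm_101 : CertB 536870912 536870912 0 536870912 858993459 64424510 3 eng mog cd0q1 cd4q0 pd1 true false false .npn 1 0 1
    ndB0q1 ndB4q0 pcB1 cut_mm_101 Ext.none :=
  certB0 (fam := true) (s1 := false) (s2 := false) (a := 1) (b := 0) (c := 1) (cn := .npn) (n1 := ndB0q1) (n2 := ndB4q0) (pc := pcB1) (cut := cut_mm_101) (xt := Ext.none) (P1 := 536870912) (W1 := 536870912) (P2 := 0) (W2 := 536870912) (P3 := 858993459) (W3 := 64424510) (N0 := 3) (En := eng) (mo := mog) (C1 := cd0q1) (C2 := cd4q0) (C3 := pd1)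
    rfl k0_mm_101

noncomputable def cut_mm_102 : Cut := Cut.of [[⟨3, 0, 0, 1449551462⟩]]

noncomputable def f_mm_102 : ℕ → ℕ → ℕ → ℕ → Bool := onCell 536870912 536870912 0 536870912 858993459 64424510
    (rowB 3 eng mog cd0q1 cd4q0 pd2 0 true false false .npp 1 0 2 (qsf 536870912 536870912 0 536870912 2) ndB0q1 ndB4q0 pcB2 cut_mm_102 Ext.none)

def k0_mm_102 : ∃ t, chk3 f_mm_102 t 1 1 1 = true :=
  ⟨(l 4), by decide +kernel⟩

theorem c_mm_102 : CertB 536870912 536870912 0 536870912 858993459 64424510 3 eng mog cd0q1 cd4q0 pd2 true false false .npp 1 0 2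
    ndB0q1 ndB4q0 pcB2 cut_mm_102 Ext.none :=
  certB0 (fam := true) (s1 := false) (s2 := false) (a := 1) (b := 0) (c := 2) (cn := .npp) (n1 := ndB0q1) (n2 := ndB4q0) (pc := pcB2) (cut := cut_mm_102) (xt := Ext.none) (P1 := 536870912) (W1 := 536870912) (P2 := 0) (W2 := 536870912) (P3 := 858993459) (W3 := 64424510) (N0 := 3) (En := eng) (mo := mog) (C1 := cd0q1) (C2 := cd4q0) (C3 := pd2)
    rfl k0_mm_102

noncomputable def cut_mm_112 : Cut := Cut.of [[⟨3, 0, 0, 1449551462⟩]]

noncomputable def f_mm_112 : ℕ → ℕ → ℕ → ℕ → Bool := onCell 536870912 536870912 536870912 536870912 858993459 64424510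
    (rowB 3 eng mog cd0q1 cd4q1 pd2 0 true false false .dn 1 1 2 (qsf 536870912 536870912 536870912 536870912 2) ndB0q1 ndB4q1 pcB2 cut_mm_112 Ext.none)

def k0_mm_112 : ∃ t, chk3 f_mm_112 t 1 1 1 = true :=
  ⟨(l 4), by decide +kernel⟩

theorem c_mm_112 : CertB 536870912 536870912 536870912 536870912 858993459 64424510 3 eng mog cd0q1 cd4q1 pd2 true false false .dn 1 1 2
    ndB0q1 ndB4q1 pcB2 cut_mm_112 Ext.none :=
  certB0 (fam := true) (s1 := false) (s2 := false) (a := 1) (b := 1) (c := 2) (cn := .dn) (n1 := ndB0q1) (n2 := ndB4q1) (pc := pcB2) (cut := cut_mm_112) (xt := Ext.none) (P1 := 536870912) (W1 := 536870912) (P2 := 536870912) (W2 := 536870912) (P3 := 858993459) (W3 := 64424510) (N0 := 3) (En := eng) (mo := mog) (C1 := cd0q1) (C2 := cd4q1) (C3 := pd2)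
    rfl k0_mm_112

noncomputable def cut_mm_113 : Cut := Cut.of [[⟨3, 0, 0, 1449551462⟩]]

noncomputable def f_mm_113 : ℕ → ℕ → ℕ → ℕ → Bool := onCell 536870912 536870912 536870912 536870912 858993459 64424510
    (rowB 3 eng mog cd0q1 cd4q1 pd3 0 true false false .nn 1 1 3 (qsf 536870912 536870912 536870912 536870912 3) ndB0q1 ndB4q1 pcB3 cut_mm_113 Ext.none)

def k0_mm_113 : ∃ t, chk3 f_mm_113 t 1 1 1 = true :=
  ⟨(l 4), by decide +kernel⟩

theorem c_mm_113 : CertB 536870912 536870912 536870912 536870912 858993459 64424510 3 eng mog cd0q1 cd4q1 pd3 true false false .nn 1 1 3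
    ndB0q1 ndB4q1 pcB3 cut_mm_113 Ext.none :=
  certB0 (fam := true) (s1 := false) (s2 := false) (a := 1) (b := 1) (c := 3) (cn := .nn) (n1 := ndB0q1) (n2 := ndB4q1) (pc := pcB3) (cut := cut_mm_113) (xt := Ext.none) (P1 := 536870912) (W1 := 536870912) (P2 := 536870912) (W2 := 536870912) (P3 := 858993459) (W3 := 64424510) (N0 := 3) (En := eng) (mo := mog) (C1 := cd0q1) (C2 := cd4q1) (C3 := pd3)
    rfl k0_mm_113

noncomputable def cut_mm_123 : Cut := Cut.of [[⟨3, 0, 0, 1449551462⟩]]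

noncomputable def f_mm_123 : ℕ → ℕ → ℕ → ℕ → Bool := onCell 536870912 536870912 1073741824 536870912 858993459 64424510
    (rowB 3 eng mog cd0q1 cd4q2 pd3 0 true false false .npn 1 2 3 (qsf 536870912 536870912 1073741824 536870912 3) ndB0q1 ndB4q2 pcB3 cut_mm_123 Ext.none)

def k0_mm_123 : ∃ t, chk3 f_mm_123 t 1 1 1 = true :=
  ⟨(l 4), by decide +kernel⟩

theorem c_mm_123 : CertB 536870912 536870912 1073741824 536870912 858993459 64424510 3 eng mog cd0q1 cd4q2 pd3 true false false .npn 1 2 3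
    ndB0q1 ndB4q2 pcB3 cut_mm_123 Ext.none :=
  certB0 (fam := true) (s1 := false) (s2 := false) (a := 1) (b := 2) (c := 3) (cn := .npn) (n1 := ndB0q1) (n2 := ndB4q2) (pc := pcB3) (cut := cut_mm_123) (xt := Ext.none) (P1 := 536870912) (W1 := 536870912) (P2 := 1073741824) (W2 := 536870912) (P3 := 858993459) (W3 := 64424510) (N0 := 3) (En := eng) (mo := mog) (C1 := cd0q1) (C2 := cd4q2) (C3 := pd3)
    rfl k0_mm_123

noncomputable def cut_mm_133 : Cut := Cut.of [[⟨3, 0, 0, 1449551462⟩]]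

noncomputable def f_mm_133 : ℕ → ℕ → ℕ → ℕ → Bool := onCell 536870912 536870912 0 1230186008 858993459 64424510
    (rowB 3 eng mog cd0q1 cd4q3 pd3 0 true false false .dn 1 3 3 (qsf 536870912 536870912 0 1230186008 3) ndB0q1 ndB4q3 pcB3 cut_mm_133 Ext.none)

def k0_mm_133 : ∃ t, chk3 f_mm_133 t 1 1 1 = true :=
  ⟨(l 4), by decide +kernel⟩

theorem c_mm_133 : CertB 536870912 536870912 0 1230186008 858993459 64424510 3 eng mog cd0q1 cd4q3 pd3 true false false .dn 1 3 3
    ndB0q1 ndB4q3 pcB3 cut_mm_133 Ext.none :=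
  certB0 (fam := true) (s1 := false) (s2 := false) (a := 1) (b := 3) (c := 3) (cn := .dn) (n1 := ndB0q1) (n2 := ndB4q3) (pc := pcB3) (cut := cut_mm_133) (xt := Ext.none) (P1 := 536870912) (W1 := 536870912) (P2 := 0) (W2 := 1230186008) (P3 := 858993459) (W3 := 64424510) (N0 := 3) (En := eng) (mo := mog) (C1 := cd0q1) (C2 := cd4q3) (C3 := pd3)
    rfl k0_mm_133

noncomputable def cut_mm_202 : Cut := Cut.of [[⟨3, 0, 0, 1449551462⟩]]

noncomputable def f_mm_202 : ℕ → ℕ → ℕ → ℕ → Bool := onCell 0 536870912 0 536870912 858993459 64424510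
    (rowB 3 eng mog cd0q2 cd4q0 pd2 0 true false false .pp 2 0 2 (qsf 0 536870912 0 536870912 2) ndB0q2 ndB4q0 pcB2 cut_mm_202 Ext.none)

def k0_mm_202 : ∃ t, chk3 f_mm_202 t 1 1 1 = true :=
  ⟨(l 4), by decide +kernel⟩

theorem c_mm_202 : CertB 0 536870912 0 536870912 858993459 64424510 3 eng mog cd0q2 cd4q0 pd2 true false false .pp 2 0 2
    ndB0q2 ndB4q0 pcB2 cut_mm_202 Ext.none :=
  certB0 (fam := true) (s1 := false) (s2 := false) (a := 2) (b := 0) (c := 2) (cn := .pp) (n1 := ndB0q2) (n2 := ndB4q0) (pc := pcB2) (cut := cut_mm_202) (xt := Ext.none) (P1 := 0) (W1 := 536870912) (P2 := 0) (W2 := 536870912) (P3 := 858993459) (W3 := 64424510) (N0 := 3) (En := eng) (mo := mog) (C1 := cd0q2) (C2 := cd4q0) (C3 := pd2)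
    rfl k0_mm_202

noncomputable def cut_mm_203 : Cut := Cut.of [[⟨3, 0, 0, 1449551462⟩]]

noncomputable def f_mm_203 : ℕ → ℕ → ℕ → ℕ → Bool := onCell 0 536870912 0 536870912 858993459 64424510
    (rowB 3 eng mog cd0q2 cd4q0 pd3 0 true false false .up 2 0 3 (qsf 0 536870912 0 536870912 3) ndB0q2 ndB4q0 pcB3 cut_mm_203 Ext.none)

def k0_mm_203 : ∃ t, chk3 f_mm_203 t 1 1 1 = true :=
  ⟨(l 4), by decide +kernel⟩

theorem c_mm_203 : CertB 0 536870912 0 536870912 858993459 64424510 3 eng mog cd0q2 cd4q0 pd3 true false false .up 2 0 3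
    ndB0q2 ndB4q0 pcB3 cut_mm_203 Ext.none :=
  certB0 (fam := true) (s1 := false) (s2 := false) (a := 2) (b := 0) (c := 3) (cn := .up) (n1 := ndB0q2) (n2 := ndB4q0) (pc := pcB3) (cut := cut_mm_203) (xt := Ext.none) (P1 := 0) (W1 := 536870912) (P2 := 0) (W2 := 536870912) (P3 := 858993459) (W3 := 64424510) (N0 := 3) (En := eng) (mo := mog) (C1 := cd0q2) (C2 := cd4q0) (C3 := pd3)
    rfl k0_mm_203

noncomputable def cut_mm_213 : Cut := Cut.of [[⟨3, 0, 0, 1449551462⟩]]

noncomputable def f_mm_213 : ℕ → ℕ → ℕ → ℕ → Bool := onCell 0 536870912 536870912 536870912 858993459 64424510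
    (rowB 3 eng mog cd0q2 cd4q1 pd3 0 true false false .pnn 2 1 3 (qsf 0 536870912 536870912 536870912 3) ndB0q2 ndB4q1 pcB3 cut_mm_213 Ext.none)

def k0_mm_213 : ∃ t, chk3 f_mm_213 t 1 1 1 = true :=
  ⟨(l 4), by decide +kernel⟩

theorem c_mm_213 : CertB 0 536870912 536870912 536870912 858993459 64424510 3 eng mog cd0q2 cd4q1 pd3 true false false .pnn 2 1 3
    ndB0q2 ndB4q1 pcB3 cut_mm_213 Ext.none :=
  certB0 (fam := true) (s1 := false) (s2 := false) (a := 2) (b := 1) (c := 3) (cn := .pnn) (n1 := ndB0q2) (n2 := ndB4q1) (pc := pcB3) (cut := cut_mm_213) (xt := Ext.none) (P1 := 0) (W1 := 536870912) (P2 := 536870912) (W2 := 536870912) (P3 := 858993459) (W3 := 64424510) (N0 := 3) (En := eng) (mo := mog) (C1 := cd0q2) (C2 := cd4q1) (C3 := pd3)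
    rfl k0_mm_213

end Pool.Agent.Strip051.G.I8000_8600.Tab.C.BA04

namespace Pool.Agent.Strip051.G.I8000_8600.Tab.C.BA11

open Pool.Agent.Strip051.PB Pool.Agent.Strip051.PB.T
open Pool.Agent.Strip051.G.I8000_8600.Tab

noncomputable def f_pp_001 : ℕ → ℕ → ℕ → ℕ → Bool := onCell 0 536870912 0 536870912 858993459 64424510
    (rowB 3 eng mog cd1q0 cd1q0 pd1 0 true true true .up 0 0 1 (qsf 0 536870912 0 536870912 1) ndB1q0 ndB1q0 pcB1 Cut.none Ext.none)

def k0_pp_001 : ∃ t, chk3 f_pp_001 t 1 1 1 = true :=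
  ⟨(l 4), by decide +kernel⟩

theorem c_pp_001 : CertB 0 536870912 0 536870912 858993459 64424510 3 eng mog cd1q0 cd1q0 pd1 true true true .up 0 0 1
    ndB1q0 ndB1q0 pcB1 Cut.none Ext.none :=
  certB0 (fam := true) (s1 := true) (s2 := true) (a := 0) (b := 0) (c := 1) (cn := .up) (n1 := ndB1q0) (n2 := ndB1q0) (pc := pcB1) (cut := Cut.none) (xt := Ext.none) (P1 := 0) (W1 := 536870912) (P2 := 0) (W2 := 536870912) (P3 := 858993459) (W3 := 64424510) (N0 := 3) (En := eng) (mo := mog) (C1 := cd1q0) (C2 := cd1q0) (C3 := pd1)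
    rfl k0_pp_001

noncomputable def f_pp_011 : ℕ → ℕ → ℕ → ℕ → Bool := onCell 0 536870912 536870912 536870912 858993459 64424510
    (rowB 3 eng mog cd1q0 cd1q1 pd1 0 true true true .pnn 0 1 1 (qsf 0 536870912 536870912 536870912 1) ndB1q0 ndB1q1 pcB1 Cut.none Ext.none)

def k0_pp_011 : ∃ t, chk3 f_pp_011 t 1 1 1 = true :=
  ⟨(l 4), by decide +kernel⟩

theorem c_pp_011 : CertB 0 536870912 536870912 536870912 858993459 64424510 3 eng mog cd1q0 cd1q1 pd1 true true true .pnn 0 1 1
    ndB1q0 ndB1q1 pcB1 Cut.none Ext.none :=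
  certB0 (fam := true) (s1 := true) (s2 := true) (a := 0) (b := 1) (c := 1) (cn := .pnn) (n1 := ndB1q0) (n2 := ndB1q1) (pc := pcB1) (cut := Cut.none) (xt := Ext.none) (P1 := 0) (W1 := 536870912) (P2 := 536870912) (W2 := 536870912) (P3 := 858993459) (W3 := 64424510) (N0 := 3) (En := eng) (mo := mog) (C1 := cd1q0) (C2 := cd1q1) (C3 := pd1)
    rfl k0_pp_011

noncomputable def f_pp_012 : ℕ → ℕ → ℕ → ℕ → Bool := onCell 0 536870912 536870912 536870912 858993459 64424510
    (rowB 3 eng mog cd1q0 cd1q1 pd2 0 true true true .pnp 0 1 2 (qsf 0 536870912 536870912 536870912 2) ndB1q0 ndB1q1 pcB2 Cut.none Ext.none)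

def k0_pp_012 : ∃ t, chk3 f_pp_012 t 1 1 1 = true :=
  ⟨(l 4), by decide +kernel⟩

theorem c_pp_012 : CertB 0 536870912 536870912 536870912 858993459 64424510 3 eng mog cd1q0 cd1q1 pd2 true true true .pnp 0 1 2
    ndB1q0 ndB1q1 pcB2 Cut.none Ext.none :=
  certB0 (fam := true) (s1 := true) (s2 := true) (a := 0) (b := 1) (c := 2) (cn := .pnp) (n1 := ndB1q0) (n2 := ndB1q1) (pc := pcB2) (cut := Cut.none) (xt := Ext.none) (P1 := 0) (W1 := 536870912) (P2 := 536870912) (W2 := 536870912) (P3 := 858993459) (W3 := 64424510) (N0 := 3) (En := eng) (mo := mog) (C1 := cd1q0) (C2 := cd1q1) (C3 := pd2)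
    rfl k0_pp_012

noncomputable def cut_pp_022_a : Cut := Cut.of [[⟨0, 0, 0, 67108864⟩, ⟨1, 1, 0, 67108864⟩, ⟨2, 1, 0, 67108864⟩]]

noncomputable def f_pp_022_a : ℕ → ℕ → ℕ → ℕ → Bool := onCell 0 536870912 0 536870912 858993459 64424510
    (rowB 3 eng mog cd1q0 cd1q2a pd2 0 true true true .pp 0 2 2 (qsf 0 536870912 0 536870912 2) ndB1q0 ndB1q2a pcB2 cut_pp_022_a Ext.none)

def k0_pp_022_a : ∃ t, chk3 f_pp_022_a t 4 2 1 = true :=
  ⟨(c (a (b (b (a (a (c (l 16416664) (l 16359016)) (l 16364768)) (a (l 16453576) (l 16476416))) (a (a (c (l 16430784) (l 16313784)) (c (l 16455672) (l 16384896))) (a (l 16465936) (l 16487264)))) (a (b (a (c (b (l 16445432) (l 16415640)) (b (l 16415808) (l 16430856))) (c (l 16475376) (l 16388432))) (a (c (b (l 16429528) (l 16445128)) (b (l 16427232) (l 16425984))) (c (b (l 16494768) (l 16510424)) (a (l 16415768) (l 16449704))))) (a (b (b (l 16480472) (l 16493184)) (b (l 16508248) (l 16525680))) (b (l 16507584) (b (l 16528736) (l 16546152))))))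 (b (a (b (l 16501648) (l 16515256)) (a (l 16520984) (l 16530936))) (a (a (b (l 16526024) (l 16556216)) (b (l 16542304) (l 16571272))) (b (a (l 16556168) (l 16566752)) (a (l 16582112) (l 4)))))) (a (b (a (c (b (a (l 16297128) (l 16374416)) (a (b (l 16354080) (l 16367208)) (l 16373432))) (a (b (a (l 16262536) (l 16304040)) (b (l 16291056) (l 16306808))) (b (l 16333808) (l 16316432)))) (b (a (l 16326768) (l 16421944)) (a (l 16305584) (l 16441360)))) (a (b (a (b (a (l 16293104) (l 16373944)) (c (l 16401168) (l 16326584))) (b (l 16316080) (l 16314592))) (a (a (b (b (l 16393504) (l 16406120)) (c (l 16438672) (l 16414600))) (b (l 16375160) (l 16401936))) (b (c (l 16453776) (l 16429904)) (c (l 16477712) (l 16458784))))) (b (a (a (l 16350424) (l 16387096)) (l 16451408)) (a (b (l 16431872) (l 16499600)) (b (l 16503440) (l 16528800)))))) (b (a (b (l 16463928) (a (l 16468928) (l 16493104))) (b (l 16509352) (l 16524576))) (a (b (a (l 16499184) (l 16522624)) (a (l 16542808)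 (l 16563536))) (b (a (l 16543280) (l 16558600)) (a (l 16577768) (l 4))))))), by decide +kernel⟩

def k1_pp_022_a : ∃ t, chk3 f_pp_022_a t 5 2 1 = true :=
  ⟨(a (b (a (c (b (l 16538096) (l 16559808)) (b (l 16538248) (l 16549352))) (b (c (l 16564888) (l 16554984)) (a (l 16584088) (l 4)))) (a (a (b (a (l 16589488) (l 16570424)) (l 4)) (l 4)) (l 4))) (b (a (b (a (l 16567720) (l 4)) (l 4)) (l 4)) (l 4))), by decide +kernel⟩

def k2_pp_022_a : ∃ t, chk3 f_pp_022_a t 8 6 1 = true :=
  ⟨(a (a (b (a (b (c (c (l 16497848) (l 16482872)) (b (l 16449520) (l 16465968))) (c (c (l 16477312) (l 16487504)) (b (l 16482440) (l 16498696)))) (b (c (l 16435744) (b (l 16466328) (l 16482680))) (c (b (l 16520800) (l 16534224)) (b (l 16499080) (l 16515328))))) (b (c (a (b (l 16513624) (c (l 16552856) (l 16545616))) (b (l 16548392) (l 16563312))) (a (b (l 16515808) (l 16512832)) (b (l 16532440) (l 16550448)))) (b (c (a (b (l 16539768) (l 16547624)) (l 16558000)) (a (c (l 16555824) (l 16549488))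 (l 16569392))) (c (a (c (l 16561712) (l 16578744)) (c (l 16596792) (l 16593856))) (a (c (l 16574648) (l 16570384)) (l 16568312)))))) (b (c (b (a (l 16474608) (l 16486600)) (b (l 16497816) (l 16511368))) (b (b (l 16448656) (l 16464824)) (b (l 16481112) (l 16497304)))) (b (c (a (b (l 16561392) (l 16576488)) (l 16539392)) (c (l 16505120) (l 16499840))) (a (c (b (l 16592376) (l 16588056)) (b (l 16585464) (l 16605408))) (c (c (l 16593184) (l 16591896)) (b (l 16600960) (l 16599960))))))) (c (b (a (b (l 16545472) (l 16590536)) (b (l 16566128) (l 16589528))) (b (a (a (l 16551032) (l 16603832)) (a (l 16611672) (l 16616240))) (a (a (l 16645712) (l 16631752)) (l 4)))) (b (a (b (l 16529216) (a (l 16532904) (l 16568448))) (b (l 16558048) (l 16588560))) (a (b (a (l 16546032) (l 16602240)) (a (l 16625064) (l 16634040))) (b (a (l 16612808) (l 16619080)) (l 4)))))), by decide +kernel⟩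

def k3_pp_022_a : ∃ t, chk3 f_pp_022_a t 8 7 1 = true :=
  ⟨(b (a (a (b (a (c (b (c (l 16577480) (l 16596376)) (c (b (l 16611664) (l 16601848)) (b (l 16610752) (l 16622072)))) (b (c (l 16594336) (l 16592320)) (c (b (l 16609984) (l 16621456)) (l 16578496)))) (b (c (c (l 16613000) (l 16611800)) (l 16568224)) (c (c (l 16611272) (l 16611208)) (c (l 16611328) (l 16611640))))) (a (a (l 6) (b (b (c (l 16637952) (l 16637352)) (l 6)) (l 6))) (b (c (c (b (l 16649544) (l 16661512)) (l 16624248)) (c (l 16635048) (l 16635536))) (b (c (b (l 16649800) (l 6)) (l 16643312)) (l 6))))) (b (a (b (c (l 16584496) (l 16605384)) (c (b (l 16640776) (l 16631352)) (l 16643472))) (b (c (l 16618512) (l 16641792)) (c (l 16678808) (l 16661680)))) (a (b (c (a (l 16624768) (l 16631120)) (a (l 16647632) (l 16675736))) (b (c (l 16697216) (l 16688792)) (c (l 16707616) (l 16698832)))) (b (c (l 16697872) (l 16679816)) (l 4))))) (a (b (a (b (c (l 16647416) (l 16651360)) (l 4)) (l 4)) (l 4)) (l 4)))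 (a (a (l 6) (a (a (l 6) (l 4)) (l 4))) (l 4))), by decide +kernel⟩

def k4_pp_022_a : ∃ t, chk3 f_pp_022_a t 9 3 1 = true :=
  ⟨(b (b (a (a (b (c (l 16583528) (l 16581856)) (c (l 16602224) (l 16605000))) (b (c (l 16594608) (l 16595184)) (l 4))) (l 4)) (l 4)) (l 4)), by decide +kernel⟩

def k5_pp_022_a : ∃ t, chk3 f_pp_022_a t 5 3 1 = true :=
  ⟨(l 4), by decide +kernel⟩

def k6_pp_022_a : ∃ t, chk3 f_pp_022_a t 3 1 1 = true :=
  ⟨(l 4), by decide +kernel⟩

theorem s7_pp_022_a : ∃ t, chk3 f_pp_022_a t 8 3 1 = true := ex3_b k2_pp_022_a k3_pp_022_a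

theorem s8_pp_022_a : ∃ t, chk3 f_pp_022_a t 4 3 1 = true := ex3_a s7_pp_022_a k4_pp_022_a

theorem s9_pp_022_a : ∃ t, chk3 f_pp_022_a t 2 3 1 = true := ex3_a s8_pp_022_a k5_pp_022_a

theorem s10_pp_022_a : ∃ t, chk3 f_pp_022_a t 2 2 1 = true := ex3_a k0_pp_022_a k1_pp_022_a

theorem s11_pp_022_a : ∃ t, chk3 f_pp_022_a t 2 1 1 = true := ex3_b s10_pp_022_a s9_pp_022_a

theorem s12_pp_022_a : ∃ t, chk3 f_pp_022_a t 1 1 1 = true := ex3_a s11_pp_022_a k6_pp_022_a

theorem c_pp_022_a : CertB 0 536870912 0 536870912 858993459 64424510 3 eng mog cd1q0 cd1q2a pd2 true true true .pp 0 2 2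
    ndB1q0 ndB1q2a pcB2 cut_pp_022_a Ext.none :=
  certB0 (fam := true) (s1 := true) (s2 := true) (a := 0) (b := 2) (c := 2) (cn := .pp) (n1 := ndB1q0) (n2 := ndB1q2a) (pc := pcB2) (cut := cut_pp_022_a) (xt := Ext.none) (P1 := 0) (W1 := 536870912) (P2 := 0) (W2 := 536870912) (P3 := 858993459) (W3 := 64424510) (N0 := 3) (En := eng) (mo := mog) (C1 := cd1q0) (C2 := cd1q2a) (C3 := pd2)
    rfl s12_pp_022_a

noncomputable def cut_pp_022_b : Cut := Cut.of [[⟨0, 0, 0, 67108864⟩, ⟨1, 1, 0, 67108864⟩, ⟨2, 1, 0, 67108864⟩]]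

noncomputable def f_pp_022_b : ℕ → ℕ → ℕ → ℕ → Bool := onCell 0 536870912 1073741824 536870912 858993459 64424510
    (rowB 3 eng mog cd1q0 cd1q2b pd2 1 true true true .pp 0 2 2 (qsf 0 536870912 1239849684 370763052 2) ndB1q0 ndB1q2b pcB2 cut_pp_022_b Ext.none)

def k0_pp_022_b : ∃ t, chk3 f_pp_022_b t 1 2 1 = true :=
  ⟨(a (b (l 1) (a (b (a (b (b (l 1) (a (a (a (c (l 16335344) (l 173441678007)) (l 1)) (l 1)) (l 1))) (a (c (c (a (l 16354072) (l 16447920)) (b (l 16294064) (l 16310976))) (b (a (c (l 16328464) (l 16282008)) (l 16246296)) (a (l 16216664) (l 16260304)))) (a (a (b (l 1) (l 195990362599)) (l 1)) (l 1)))) (l 1)) (a (b (a (c (c (l 16367832) (l 16206456)) (b (a (l 16252536) (l 16316008)) (l 16150704))) (c (b (l 16431000) (l 16443256)) (c (l 16288032) (b (l 16373832) (l 16363344))))) (c (a (b (l 16304680) (l 16272056)) (l 16394192)) (a (b (l 16183528) (l 16193984)) (c (l 16287160) (l 16294520))))) (b (a (a (b (l 1) (l 160020271927)) (l 1)) (l 1)) (b (a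 (c (l 16509040) (l 16473000)) (l 1)) (a (c (l 16480352) (l 16438120)) (l 326450310487)))))) (l 1))) (l 1)), by decide +kernel⟩

def k1_pp_022_b : ∃ t, chk3 f_pp_022_b t 1 3 1 = true :=
  ⟨(b (a (a (b (a (b (c (a (l 16220872) (l 16323664)) (a (l 16018832) (l 16160240))) (c (a (l 16149352) (l 16249680)) (b (l 16026536) (l 16032272)))) (b (c (a (l 16428720) (l 16504712)) (a (l 16384592) (l 16502352))) (c (l 16362616) (a (l 16310072) (l 16425288))))) (a (b (c (l 16124128) (a (l 16002992) (l 16118072))) (c (l 16046176) (l 15901656))) (b (c (l 16325072) (l 16289400)) (c (l 16243696) (l 16083912))))) (b (a (b (a (c (l 163242093511) (l 16596136)) (l 1)) (c (a (l 16526512) (l 16678576)) (a (l 16532160) (l 16612312)))) (l 1)) (a (b (c (a (l 16471544) (l 16556688)) (l 16564200)) (c (l 16433944) (l 16417880))) (b (a (c (l 16625544) (l 16636360)) (l 1)) (b (a (l 16587512) (l 1)) (l 4)))))) (l 1)) (a (b (a (c (a (b (l 15820400) (l 15783896)) (b (l 16162096) (l 15874816)))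 (a (b (l 15909384) (l 15833440)) (b (l 16024608) (l 15967072)))) (a (b (c (l 16352936) (l 16187832)) (l 4)) (l 4))) (a (a (b (c (l 15647112) (l 15760160)) (c (l 15748584) (l 15692544))) (l 4)) (l 4))) (l 4))), by decide +kernel⟩

theorem s2_pp_022_b : ∃ t, chk3 f_pp_022_b t 1 1 1 = true := ex3_b k0_pp_022_b k1_pp_022_b

theorem c_pp_022_b : CertB 0 536870912 1239849684 370763052 858993459 64424510 3 eng mog cd1q0 cd1q2b pd2 true true true .pp 0 2 2
    ndB1q0 ndB1q2b pcB2 cut_pp_022_b Ext.none :=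
  certB1 (fam := true) (s1 := true) (s2 := true) (a := 0) (b := 2) (c := 2) (cn := .pp) (n1 := ndB1q0) (n2 := ndB1q2b) (pc := pcB2) (cut := cut_pp_022_b) (xt := Ext.none) (P1 := 0) (W1 := 536870912) (P2 := 1239849684) (W2 := 370763052) (P3 := 858993459) (W3 := 64424510) (N0 := 3) (En := eng) (mo := mog) (C1 := cd1q0) (C2 := cd1q2b) (C3 := pd2)
    rfl (fun _ => rfl) s2_pp_022_b

noncomputable def f_pp_023_a : ℕ → ℕ → ℕ → ℕ → Bool := onCell 1610612736 536870912 0 536870912 858993459 64424510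
    (rowB 3 eng mog cd1q0 cd1q2a pd3 2 true true true .up 0 2 3 (qsf 0 536870912 0 536870912 3) ndB1q0 ndB1q2a pcB3 Cut.none Ext.none)

def k0_pp_023_a : ∃ t, chk3 f_pp_023_a t 1 1 1 = true :=
  ⟨(l 4), by decide +kernel⟩

theorem c_pp_023_a : CertB 0 536870912 0 536870912 858993459 64424510 3 eng mog cd1q0 cd1q2a pd3 true true true .up 0 2 3
    ndB1q0 ndB1q2a pcB3 Cut.none Ext.none :=
  certB2 (fam := true) (s1 := true) (s2 := true) (a := 0) (b := 2) (c := 3) (cn := .up) (n1 := ndB1q0) (n2 := ndB1q2a) (pc := pcB3) (cut := Cut.none) (xt := Ext.none) (P1 := 0) (W1 := 536870912) (P2 := 0) (W2 := 536870912) (P3 := 858993459) (W3 := 64424510) (N0 := 3) (En := eng) (mo := mog) (C1 := cd1q0) (C2 := cd1q2a) (C3 := pd3)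
    rfl (fun _ => rfl) k0_pp_023_a

noncomputable def f_pp_023_b : ℕ → ℕ → ℕ → ℕ → Bool := onCell 1610612736 536870912 1239849684 370763052 858993459 64424510
    (rowB 3 eng mog cd1q0 cd1q2b pd3 2 true true true .up 0 2 3 (qsf 0 536870912 1239849684 370763052 3) ndB1q0 ndB1q2b pcB3 Cut.none Ext.none)

def k0_pp_023_b : ∃ t, chk3 f_pp_023_b t 1 1 1 = true :=
  ⟨(a (a (l 4) (l 4)) (l 4)), by decide +kernel⟩

theorem c_pp_023_b : CertB 0 536870912 1239849684 370763052 858993459 64424510 3 eng mog cd1q0 cd1q2b pd3 true true true .up 0 2 3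
    ndB1q0 ndB1q2b pcB3 Cut.none Ext.none :=
  certB2 (fam := true) (s1 := true) (s2 := true) (a := 0) (b := 2) (c := 3) (cn := .up) (n1 := ndB1q0) (n2 := ndB1q2b) (pc := pcB3) (cut := Cut.none) (xt := Ext.none) (P1 := 0) (W1 := 536870912) (P2 := 1239849684) (W2 := 370763052) (P3 := 858993459) (W3 := 64424510) (N0 := 3) (En := eng) (mo := mog) (C1 := cd1q0) (C2 := cd1q2b) (C3 := pd3)
    rfl (fun _ => rfl) k0_pp_023_b

noncomputable def f_pp_033 : ℕ → ℕ → ℕ → ℕ → Bool := onCell 0 536870912 1610612736 536870912 858993459 64424510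
    (rowB 3 eng mog cd1q0 cd1q3 pd3 1 true true true .pnn 0 3 3 (qsf 0 536870912 1610612736 536870912 3) ndB1q0 ndB1q3 pcB3 Cut.none Ext.none)

def k0_pp_033 : ∃ t, chk3 f_pp_033 t 1 1 1 = true :=
  ⟨(b (b (a (l 4) (l 1)) (l 4)) (l 4)), by decide +kernel⟩

theorem c_pp_033 : CertB 0 536870912 1610612736 536870912 858993459 64424510 3 eng mog cd1q0 cd1q3 pd3 true true true .pnn 0 3 3
    ndB1q0 ndB1q3 pcB3 Cut.none Ext.none :=
  certB1 (fam := true) (s1 := true) (s2 := true) (a := 0) (b := 3) (c := 3) (cn := .pnn) (n1 := ndB1q0) (n2 := ndB1q3) (pc := pcB3) (cut := Cut.none) (xt := Ext.none) (P1 := 0) (W1 := 536870912) (P2 := 1610612736) (W2 := 536870912) (P3 := 858993459) (W3 := 64424510) (N0 := 3) (En := eng) (mo := mog) (C1 := cd1q0) (C2 := cd1q3) (C3 := pd3)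
    rfl (fun _ => rfl) k0_pp_033

noncomputable def f_pp_101 : ℕ → ℕ → ℕ → ℕ → Bool := onCell 536870912 536870912 0 536870912 858993459 64424510
    (rowB 3 eng mog cd1q1 cd1q0 pd1 0 true true true .npn 1 0 1 (qsf 536870912 536870912 0 536870912 1) ndB1q1 ndB1q0 pcB1 Cut.none Ext.none)

def k0_pp_101 : ∃ t, chk3 f_pp_101 t 1 1 1 = true :=
  ⟨(l 4), by decide +kernel⟩

theorem c_pp_101 : CertB 536870912 536870912 0 536870912 858993459 64424510 3 eng mog cd1q1 cd1q0 pd1 true true true .npn 1 0 1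
    ndB1q1 ndB1q0 pcB1 Cut.none Ext.none :=
  certB0 (fam := true) (s1 := true) (s2 := true) (a := 1) (b := 0) (c := 1) (cn := .npn) (n1 := ndB1q1) (n2 := ndB1q0) (pc := pcB1) (cut := Cut.none) (xt := Ext.none) (P1 := 536870912) (W1 := 536870912) (P2 := 0) (W2 := 536870912) (P3 := 858993459) (W3 := 64424510) (N0 := 3) (En := eng) (mo := mog) (C1 := cd1q1) (C2 := cd1q0) (C3 := pd1)
    rfl k0_pp_101

noncomputable def f_pp_102 : ℕ → ℕ → ℕ → ℕ → Bool := onCell 536870912 536870912 0 536870912 858993459 64424510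
    (rowB 3 eng mog cd1q1 cd1q0 pd2 0 true true true .npp 1 0 2 (qsf 536870912 536870912 0 536870912 2) ndB1q1 ndB1q0 pcB2 Cut.none Ext.none)

def k0_pp_102 : ∃ t, chk3 f_pp_102 t 1 1 1 = true :=
  ⟨(l 4), by decide +kernel⟩

theorem c_pp_102 : CertB 536870912 536870912 0 536870912 858993459 64424510 3 eng mog cd1q1 cd1q0 pd2 true true true .npp 1 0 2
    ndB1q1 ndB1q0 pcB2 Cut.none Ext.none :=
  certB0 (fam := true) (s1 := true) (s2 := true) (a := 1) (b := 0) (c := 2) (cn := .npp) (n1 := ndB1q1) (n2 := ndB1q0) (pc := pcB2) (cut := Cut.none) (xt := Ext.none) (P1 := 536870912) (W1 := 536870912) (P2 := 0) (W2 := 536870912) (P3 := 858993459) (W3 := 64424510) (N0 := 3) (En := eng) (mo := mog) (C1 := cd1q1) (C2 := cd1q0) (C3 := pd2)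
    rfl k0_pp_102

noncomputable def f_pp_112 : ℕ → ℕ → ℕ → ℕ → Bool := onCell 536870912 536870912 536870912 536870912 858993459 64424510
    (rowB 3 eng mog cd1q1 cd1q1 pd2 0 true true true .dn 1 1 2 (qsf 536870912 536870912 536870912 536870912 2) ndB1q1 ndB1q1 pcB2 Cut.none Ext.none)

def k0_pp_112 : ∃ t, chk3 f_pp_112 t 1 1 1 = true :=
  ⟨(l 4), by decide +kernel⟩

theorem c_pp_112 : CertB 536870912 536870912 536870912 536870912 858993459 64424510 3 eng mog cd1q1 cd1q1 pd2 true true true .dn 1 1 2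
    ndB1q1 ndB1q1 pcB2 Cut.none Ext.none :=
  certB0 (fam := true) (s1 := true) (s2 := true) (a := 1) (b := 1) (c := 2) (cn := .dn) (n1 := ndB1q1) (n2 := ndB1q1) (pc := pcB2) (cut := Cut.none) (xt := Ext.none) (P1 := 536870912) (W1 := 536870912) (P2 := 536870912) (W2 := 536870912) (P3 := 858993459) (W3 := 64424510) (N0 := 3) (En := eng) (mo := mog) (C1 := cd1q1) (C2 := cd1q1) (C3 := pd2)
    rfl k0_pp_112

noncomputable def f_pp_113 : ℕ → ℕ → ℕ → ℕ → Bool := onCell 536870912 536870912 536870912 536870912 858993459 64424510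
    (rowB 3 eng mog cd1q1 cd1q1 pd3 0 true true true .nn 1 1 3 (qsf 536870912 536870912 536870912 536870912 3) ndB1q1 ndB1q1 pcB3 Cut.none Ext.none)

def k0_pp_113 : ∃ t, chk3 f_pp_113 t 1 1 1 = true :=
  ⟨(l 4), by decide +kernel⟩

theorem c_pp_113 : CertB 536870912 536870912 536870912 536870912 858993459 64424510 3 eng mog cd1q1 cd1q1 pd3 true true true .nn 1 1 3
    ndB1q1 ndB1q1 pcB3 Cut.none Ext.none :=
  certB0 (fam := true) (s1 := true) (s2 := true) (a := 1) (b := 1) (c := 3) (cn := .nn) (n1 := ndB1q1) (n2 := ndB1q1) (pc := pcB3) (cut := Cut.none) (xt := Ext.none) (P1 := 536870912) (W1 := 536870912) (P2 := 536870912) (W2 := 536870912) (P3 := 858993459) (W3 := 64424510) (N0 := 3) (En := eng) (mo := mog) (C1 := cd1q1) (C2 := cd1q1) (C3 := pd3)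
    rfl k0_pp_113

noncomputable def f_pp_123_a : ℕ → ℕ → ℕ → ℕ → Bool := onCell 536870912 536870912 0 536870912 858993459 64424510
    (rowB 3 eng mog cd1q1 cd1q2a pd3 0 true true true .npn 1 2 3 (qsf 536870912 536870912 0 536870912 3) ndB1q1 ndB1q2a pcB3 Cut.none Ext.none)

def k0_pp_123_a : ∃ t, chk3 f_pp_123_a t 1 1 1 = true :=
  ⟨(l 4), by decide +kernel⟩

theorem c_pp_123_a : CertB 536870912 536870912 0 536870912 858993459 64424510 3 eng mog cd1q1 cd1q2a pd3 true true true .npn 1 2 3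
    ndB1q1 ndB1q2a pcB3 Cut.none Ext.none :=
  certB0 (fam := true) (s1 := true) (s2 := true) (a := 1) (b := 2) (c := 3) (cn := .npn) (n1 := ndB1q1) (n2 := ndB1q2a) (pc := pcB3) (cut := Cut.none) (xt := Ext.none) (P1 := 536870912) (W1 := 536870912) (P2 := 0) (W2 := 536870912) (P3 := 858993459) (W3 := 64424510) (N0 := 3) (En := eng) (mo := mog) (C1 := cd1q1) (C2 := cd1q2a) (C3 := pd3)
    rfl k0_pp_123_a

noncomputable def f_pp_123_b : ℕ → ℕ → ℕ → ℕ → Bool := onCell 536870912 536870912 1239849684 370763052 858993459 64424510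
    (rowB 3 eng mog cd1q1 cd1q2b pd3 0 true true true .npn 1 2 3 (qsf 536870912 536870912 1239849684 370763052 3) ndB1q1 ndB1q2b pcB3 Cut.none Ext.none)

def k0_pp_123_b : ∃ t, chk3 f_pp_123_b t 1 1 1 = true :=
  ⟨(l 4), by decide +kernel⟩

theorem c_pp_123_b : CertB 536870912 536870912 1239849684 370763052 858993459 64424510 3 eng mog cd1q1 cd1q2b pd3 true true true .npn 1 2 3
    ndB1q1 ndB1q2b pcB3 Cut.none Ext.none :=
  certB0 (fam := true) (s1 := true) (s2 := true) (a := 1) (b := 2) (c := 3) (cn := .npn) (n1 := ndB1q1) (n2 := ndB1q2b) (pc := pcB3) (cut := Cut.none) (xt := Ext.none) (P1 := 536870912) (W1 := 536870912) (P2 := 1239849684) (W2 := 370763052) (P3 := 858993459) (W3 := 64424510) (N0 := 3) (En := eng) (mo := mog) (C1 := cd1q1) (C2 := cd1q2b) (C3 := pd3)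
    rfl k0_pp_123_b

noncomputable def f_pp_133 : ℕ → ℕ → ℕ → ℕ → Bool := onCell 536870912 536870912 1610612736 536870912 858993459 64424510
    (rowB 3 eng mog cd1q1 cd1q3 pd3 0 true true true .dn 1 3 3 (qsf 536870912 536870912 1610612736 536870912 3) ndB1q1 ndB1q3 pcB3 Cut.none Ext.none)

def k0_pp_133 : ∃ t, chk3 f_pp_133 t 1 1 1 = true :=
  ⟨(l 4), by decide +kernel⟩

theorem c_pp_133 : CertB 536870912 536870912 1610612736 536870912 858993459 64424510 3 eng mog cd1q1 cd1q3 pd3 true true true .dn 1 3 3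
    ndB1q1 ndB1q3 pcB3 Cut.none Ext.none :=
  certB0 (fam := true) (s1 := true) (s2 := true) (a := 1) (b := 3) (c := 3) (cn := .dn) (n1 := ndB1q1) (n2 := ndB1q3) (pc := pcB3) (cut := Cut.none) (xt := Ext.none) (P1 := 536870912) (W1 := 536870912) (P2 := 1610612736) (W2 := 536870912) (P3 := 858993459) (W3 := 64424510) (N0 := 3) (En := eng) (mo := mog) (C1 := cd1q1) (C2 := cd1q3) (C3 := pd3)
    rfl k0_pp_133

noncomputable def f_pp_202_a : ℕ → ℕ → ℕ → ℕ → Bool := onCell 0 536870912 0 536870912 858993459 64424510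
    (rowB 3 eng mog cd1q2a cd1q0 pd2 0 true true true .pp 2 0 2 (qsf 0 536870912 0 536870912 2) ndB1q2a ndB1q0 pcB2 Cut.none Ext.none)

def k0_pp_202_a : ∃ t, chk3 f_pp_202_a t 1 1 1 = true :=
  ⟨(l 5), by decide +kernel⟩

theorem c_pp_202_a : CertB 0 536870912 0 536870912 858993459 64424510 3 eng mog cd1q2a cd1q0 pd2 true true true .pp 2 0 2
    ndB1q2a ndB1q0 pcB2 Cut.none Ext.none :=
  certB0 (fam := true) (s1 := true) (s2 := true) (a := 2) (b := 0) (c := 2) (cn := .pp) (n1 := ndB1q2a) (n2 := ndB1q0) (pc := pcB2) (cut := Cut.none) (xt := Ext.none) (P1 := 0) (W1 := 536870912) (P2 := 0) (W2 := 536870912) (P3 := 858993459) (W3 := 64424510) (N0 := 3) (En := eng) (mo := mog) (C1 := cd1q2a) (C2 := cd1q0) (C3 := pd2)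
    rfl k0_pp_202_a

noncomputable def f_pp_202_b : ℕ → ℕ → ℕ → ℕ → Bool := onCell 1239849684 370763052 0 536870912 858993459 64424510
    (rowB 3 eng mog cd1q2b cd1q0 pd2 0 true true true .pp 2 0 2 (qsf 1239849684 370763052 0 536870912 2) ndB1q2b ndB1q0 pcB2 Cut.none Ext.none)

def k0_pp_202_b : ∃ t, chk3 f_pp_202_b t 1 1 1 = true :=
  ⟨(l 5), by decide +kernel⟩

theorem c_pp_202_b : CertB 1239849684 370763052 0 536870912 858993459 64424510 3 eng mog cd1q2b cd1q0 pd2 true true true .pp 2 0 2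
    ndB1q2b ndB1q0 pcB2 Cut.none Ext.none :=
  certB0 (fam := true) (s1 := true) (s2 := true) (a := 2) (b := 0) (c := 2) (cn := .pp) (n1 := ndB1q2b) (n2 := ndB1q0) (pc := pcB2) (cut := Cut.none) (xt := Ext.none) (P1 := 1239849684) (W1 := 370763052) (P2 := 0) (W2 := 536870912) (P3 := 858993459) (W3 := 64424510) (N0 := 3) (En := eng) (mo := mog) (C1 := cd1q2b) (C2 := cd1q0) (C3 := pd2)
    rfl k0_pp_202_b

noncomputable def f_pp_203_a : ℕ → ℕ → ℕ → ℕ → Bool := onCell 0 536870912 0 536870912 858993459 64424510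
    (rowB 3 eng mog cd1q2a cd1q0 pd3 0 true true true .up 2 0 3 (qsf 0 536870912 0 536870912 3) ndB1q2a ndB1q0 pcB3 Cut.none Ext.none)

def k0_pp_203_a : ∃ t, chk3 f_pp_203_a t 1 1 1 = true :=
  ⟨(l 5), by decide +kernel⟩

theorem c_pp_203_a : CertB 0 536870912 0 536870912 858993459 64424510 3 eng mog cd1q2a cd1q0 pd3 true true true .up 2 0 3
    ndB1q2a ndB1q0 pcB3 Cut.none Ext.none :=
  certB0 (fam := true) (s1 := true) (s2 := true) (a := 2) (b := 0) (c := 3) (cn := .up) (n1 := ndB1q2a) (n2 := ndB1q0) (pc := pcB3) (cut := Cut.none) (xt := Ext.none) (P1 := 0) (W1 := 536870912) (P2 := 0) (W2 := 536870912) (P3 := 858993459) (W3 := 64424510) (N0 := 3) (En := eng) (mo := mog) (C1 := cd1q2a) (C2 := cd1q0) (C3 := pd3)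
    rfl k0_pp_203_a

noncomputable def f_pp_203_b : ℕ → ℕ → ℕ → ℕ → Bool := onCell 1239849684 370763052 0 536870912 858993459 64424510
    (rowB 3 eng mog cd1q2b cd1q0 pd3 0 true true true .up 2 0 3 (qsf 1239849684 370763052 0 536870912 3) ndB1q2b ndB1q0 pcB3 Cut.none Ext.none)

def k0_pp_203_b : ∃ t, chk3 f_pp_203_b t 1 1 1 = true :=
  ⟨(l 5), by decide +kernel⟩

theorem c_pp_203_b : CertB 1239849684 370763052 0 536870912 858993459 64424510 3 eng mog cd1q2b cd1q0 pd3 true true true .up 2 0 3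
    ndB1q2b ndB1q0 pcB3 Cut.none Ext.none :=
  certB0 (fam := true) (s1 := true) (s2 := true) (a := 2) (b := 0) (c := 3) (cn := .up) (n1 := ndB1q2b) (n2 := ndB1q0) (pc := pcB3) (cut := Cut.none) (xt := Ext.none) (P1 := 1239849684) (W1 := 370763052) (P2 := 0) (W2 := 536870912) (P3 := 858993459) (W3 := 64424510) (N0 := 3) (En := eng) (mo := mog) (C1 := cd1q2b) (C2 := cd1q0) (C3 := pd3)
    rfl k0_pp_203_b

noncomputable def f_pp_213_a : ℕ → ℕ → ℕ → ℕ → Bool := onCell 0 536870912 536870912 536870912 858993459 64424510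
    (rowB 3 eng mog cd1q2a cd1q1 pd3 0 true true true .pnn 2 1 3 (qsf 0 536870912 536870912 536870912 3) ndB1q2a ndB1q1 pcB3 Cut.none Ext.none)

def k0_pp_213_a : ∃ t, chk3 f_pp_213_a t 1 1 1 = true :=
  ⟨(l 4), by decide +kernel⟩

theorem c_pp_213_a : CertB 0 536870912 536870912 536870912 858993459 64424510 3 eng mog cd1q2a cd1q1 pd3 true true true .pnn 2 1 3
    ndB1q2a ndB1q1 pcB3 Cut.none Ext.none :=
  certB0 (fam := true) (s1 := true) (s2 := true) (a := 2) (b := 1) (c := 3) (cn := .pnn) (n1 := ndB1q2a) (n2 := ndB1q1) (pc := pcB3) (cut := Cut.none) (xt := Ext.none) (P1 := 0) (W1 := 536870912) (P2 := 536870912) (W2 := 536870912) (P3 := 858993459) (W3 := 64424510) (N0 := 3) (En := eng) (mo := mog) (C1 := cd1q2a) (C2 := cd1q1) (C3 := pd3)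
    rfl k0_pp_213_a

noncomputable def f_pp_213_b : ℕ → ℕ → ℕ → ℕ → Bool := onCell 1239849684 370763052 536870912 536870912 858993459 64424510
    (rowB 3 eng mog cd1q2b cd1q1 pd3 0 true true true .pnn 2 1 3 (qsf 1239849684 370763052 536870912 536870912 3) ndB1q2b ndB1q1 pcB3 Cut.none Ext.none)

def k0_pp_213_b : ∃ t, chk3 f_pp_213_b t 1 1 1 = true :=
  ⟨(l 4), by decide +kernel⟩

theorem c_pp_213_b : CertB 1239849684 370763052 536870912 536870912 858993459 64424510 3 eng mog cd1q2b cd1q1 pd3 true true true .pnn 2 1 3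
    ndB1q2b ndB1q1 pcB3 Cut.none Ext.none :=
  certB0 (fam := true) (s1 := true) (s2 := true) (a := 2) (b := 1) (c := 3) (cn := .pnn) (n1 := ndB1q2b) (n2 := ndB1q1) (pc := pcB3) (cut := Cut.none) (xt := Ext.none) (P1 := 1239849684) (W1 := 370763052) (P2 := 536870912) (W2 := 536870912) (P3 := 858993459) (W3 := 64424510) (N0 := 3) (En := eng) (mo := mog) (C1 := cd1q2b) (C2 := cd1q1) (C3 := pd3)
    rfl k0_pp_213_b

noncomputable def f_pp_303 : ℕ → ℕ → ℕ → ℕ → Bool := onCell 1610612736 536870912 0 536870912 858993459 64424510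
    (rowB 3 eng mog cd1q3 cd1q0 pd3 0 true true true .npn 3 0 3 (qsf 1610612736 536870912 0 536870912 3) ndB1q3 ndB1q0 pcB3 Cut.none Ext.none)

def k0_pp_303 : ∃ t, chk3 f_pp_303 t 1 1 1 = true :=
  ⟨(l 5), by decide +kernel⟩

theorem c_pp_303 : CertB 1610612736 536870912 0 536870912 858993459 64424510 3 eng mog cd1q3 cd1q0 pd3 true true true .npn 3 0 3
    ndB1q3 ndB1q0 pcB3 Cut.none Ext.none :=
  certB0 (fam := true) (s1 := true) (s2 := true) (a := 3) (b := 0) (c := 3) (cn := .npn) (n1 := ndB1q3) (n2 := ndB1q0) (pc := pcB3) (cut := Cut.none) (xt := Ext.none) (P1 := 1610612736) (W1 := 536870912) (P2 := 0) (W2 := 536870912) (P3 := 858993459) (W3 := 64424510) (N0 := 3) (En := eng) (mo := mog) (C1 := cd1q3) (C2 := cd1q0) (C3 := pd3)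
    rfl k0_pp_303

noncomputable def f_pp_313 : ℕ → ℕ → ℕ → ℕ → Bool := onCell 1610612736 536870912 536870912 536870912 858993459 64424510
    (rowB 3 eng mog cd1q3 cd1q1 pd3 0 true true true .dn 3 1 3 (qsf 1610612736 536870912 536870912 536870912 3) ndB1q3 ndB1q1 pcB3 Cut.none Ext.none)

def k0_pp_313 : ∃ t, chk3 f_pp_313 t 1 1 1 = true :=
  ⟨(l 4), by decide +kernel⟩

theorem c_pp_313 : CertB 1610612736 536870912 536870912 536870912 858993459 64424510 3 eng mog cd1q3 cd1q1 pd3 true true true .dn 3 1 3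
    ndB1q3 ndB1q1 pcB3 Cut.none Ext.none :=
  certB0 (fam := true) (s1 := true) (s2 := true) (a := 3) (b := 1) (c := 3) (cn := .dn) (n1 := ndB1q3) (n2 := ndB1q1) (pc := pcB3) (cut := Cut.none) (xt := Ext.none) (P1 := 1610612736) (W1 := 536870912) (P2 := 536870912) (W2 := 536870912) (P3 := 858993459) (W3 := 64424510) (N0 := 3) (En := eng) (mo := mog) (C1 := cd1q3) (C2 := cd1q1) (C3 := pd3)
    rfl k0_pp_313

noncomputable def f_pm_001 : ℕ → ℕ → ℕ → ℕ → Bool := onCell 0 536870912 0 536870912 858993459 64424510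
    (rowB 3 eng mog cd1q0 cd1q0 pd1 0 true true false .up 0 0 1 (qsf 0 536870912 0 536870912 1) ndB1q0 ndB1q0 pcB1 Cut.none Ext.none)

def k0_pm_001 : ∃ t, chk3 f_pm_001 t 1 1 1 = true :=
  ⟨(l 3), by decide +kernel⟩

theorem c_pm_001 : CertB 0 536870912 0 536870912 858993459 64424510 3 eng mog cd1q0 cd1q0 pd1 true true false .up 0 0 1
    ndB1q0 ndB1q0 pcB1 Cut.none Ext.none :=
  certB0 (fam := true) (s1 := true) (s2 := false) (a := 0) (b := 0) (c := 1) (cn := .up) (n1 := ndB1q0) (n2 := ndB1q0) (pc := pcB1) (cut := Cut.none) (xt := Ext.none) (P1 := 0) (W1 := 536870912) (P2 := 0) (W2 := 536870912) (P3 := 858993459) (W3 := 64424510) (N0 := 3) (En := eng) (mo := mog) (C1 := cd1q0) (C2 := cd1q0) (C3 := pd1)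
    rfl k0_pm_001

noncomputable def f_pm_011 : ℕ → ℕ → ℕ → ℕ → Bool := onCell 0 536870912 536870912 536870912 858993459 64424510
    (rowB 3 eng mog cd1q0 cd1q1 pd1 1 true true false .pnn 0 1 1 (qsf 0 536870912 536870912 536870912 1) ndB1q0 ndB1q1 pcB1 Cut.none Ext.none)

def k0_pm_011 : ∃ t, chk3 f_pm_011 t 1 1 1 = true :=
  ⟨(l 3), by decide +kernel⟩

theorem c_pm_011 : CertB 0 536870912 536870912 536870912 858993459 64424510 3 eng mog cd1q0 cd1q1 pd1 true true false .pnn 0 1 1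
    ndB1q0 ndB1q1 pcB1 Cut.none Ext.none :=
  certB1 (fam := true) (s1 := true) (s2 := false) (a := 0) (b := 1) (c := 1) (cn := .pnn) (n1 := ndB1q0) (n2 := ndB1q1) (pc := pcB1) (cut := Cut.none) (xt := Ext.none) (P1 := 0) (W1 := 536870912) (P2 := 536870912) (W2 := 536870912) (P3 := 858993459) (W3 := 64424510) (N0 := 3) (En := eng) (mo := mog) (C1 := cd1q0) (C2 := cd1q1) (C3 := pd1)
    rfl (fun _ => rfl) k0_pm_011

noncomputable def f_pm_012 : ℕ → ℕ → ℕ → ℕ → Bool := onCell 1073741824 536870912 536870912 536870912 858993459 64424510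
    (rowB 3 eng mog cd1q0 cd1q1 pd2 2 true true false .pnp 0 1 2 (qsf 0 536870912 536870912 536870912 2) ndB1q0 ndB1q1 pcB2 Cut.none Ext.none)

def k0_pm_012 : ∃ t, chk3 f_pm_012 t 1 2 1 = true :=
  ⟨(a (a (l 3) (a (a (a (l 3) (b (l 2) (a (l 3) (a (l 3) (c (c (l 16455400) (l 16677888)) (b (l 16420688) (l 16522584))))))) (b (l 2) (c (b (c (l 16511720) (l 16685576)) (l 16421384)) (b (l 16345320) (l 16462488))))) (b (l 2) (c (b (c (l 16454528) (l 16634944)) (c (l 16425720) (l 16597456))) (b (l 16372712) (l 16538416)))))) (b (l 2) (a (b (l 2) (c (a (l 16446528) (l 2)) (l 1173633383))) (l 2)))), by decide +kernel⟩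

def k1_pm_012 : ∃ t, chk3 f_pm_012 t 1 3 1 = true :=
  ⟨(a (a (l 3) (a (a (a (b (l 3) (b (l 3) (a (l 3) (b (l 3) (c (l 16478728) (l 16546512)))))) (b (a (b (l 3) (c (l 16584496) (l 16542168))) (a (b (c (l 16578056) (l 16547128)) (c (l 16620392) (l 16545688))) (b (c (l 16612816) (l 16551008)) (c (l 16613856) (l 16548088))))) (b (b (a (l 16487280) (a (l 16569184) (l 16569176))) (a (l 167134133463) (a (l 16554792) (l 16554520)))) (a (b (c (l 16499616) (l 16543008)) (c (a (l 16513280) (l 16508360)) (l 16543984))) (a (b (l 16539536) (c (l 16505464) (l 16543456))) (b (l 16539000) (l 16459288))))))) (b (b (c (l 16539128) (l 16567368)) (c (l 16578464) (l 16557504))) (b (b (l 16568312) (l 16552624)) (b (l 16536112) (c (l 16499816) (l 16539904)))))) (b (b (c (l 16292896) (l 16601736)) (c (l 16490176) (l 16531112))) (b (b (l 16365008) (l 16509912)) (b (l 16489216) (c (l 16481200) (l 16435112))))))) (b (a (b (c (a (l 16413216) (l 16237352)) (a (l 16625016) (l 16592480)))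 (c (c (l 16075360) (l 16379904)) (a (l 16550264) (l 16461992)))) (b (l 2) (c (l 15977336) (l 16362928)))) (a (b (b (c (l 16324688) (l 16411672)) (l 16564800)) (a (b (l 16362776) (l 16340848)) (b (l 16252992) (l 16225808)))) (b (c (l 15990544) (l 15999224)) (a (l 16205600) (l 16063048)))))), by decide +kernel⟩

theorem s2_pm_012 : ∃ t, chk3 f_pm_012 t 1 1 1 = true := ex3_b k0_pm_012 k1_pm_012

theorem c_pm_012 : CertB 0 536870912 536870912 536870912 858993459 64424510 3 eng mog cd1q0 cd1q1 pd2 true true false .pnp 0 1 2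
    ndB1q0 ndB1q1 pcB2 Cut.none Ext.none :=
  certB2 (fam := true) (s1 := true) (s2 := false) (a := 0) (b := 1) (c := 2) (cn := .pnp) (n1 := ndB1q0) (n2 := ndB1q1) (pc := pcB2) (cut := Cut.none) (xt := Ext.none) (P1 := 0) (W1 := 536870912) (P2 := 536870912) (W2 := 536870912) (P3 := 858993459) (W3 := 64424510) (N0 := 3) (En := eng) (mo := mog) (C1 := cd1q0) (C2 := cd1q1) (C3 := pd2)
    rfl (fun _ => rfl) s2_pm_012

noncomputable def cut_pm_022_a : Cut := Cut.of [[⟨0, 0, 0, 67108864⟩, ⟨1, 1, 0, 67108864⟩, ⟨2, 1, 0, 67108864⟩]]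

noncomputable def f_pm_022_a : ℕ → ℕ → ℕ → ℕ → Bool := onCell 1073741824 536870912 0 536870912 858993459 64424510
    (rowB 3 eng mog cd1q0 cd1q2a pd2 2 true true false .pp 0 2 2 (qsf 0 536870912 0 536870912 2) ndB1q0 ndB1q2a pcB2 cut_pm_022_a Ext.none)

def k0_pm_022_a : ∃ t, chk3 f_pm_022_a t 2 4 1 = true :=
  ⟨(a (l 1) (b (a (a (a (l 1) (a (l 1) (a (l 1) (c (l 16282520) (l 16140936))))) (c (a (b (l 16266384) (l 16322808)) (l 16259768)) (a (c (l 16182016) (l 16137808)) (l 16193496)))) (a (c (a (l 16320408) (l 16361040)) (a (l 16229296) (l 16267232))) (c (l 16423832) (l 16294440)))) (a (a (a (l 1) (a (b (l 1) (c (l 16208152) (l 16137264))) (c (b (l 16213560) (l 16240728)) (b (l 16141712) (l 16151864))))) (c (a (a (a (l 16228128) (l 16236264)) (l 16248712)) (l 16358264)) (a (a (l 16223400) (l 16173832)) (l 16237224)))) (a (c (a (l 16309952) (l 16346856)) (a (l 16226224) (l 16259288))) (c (l 16404488) (l 16311064)))))), by decide +kernel⟩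

def k1_pm_022_a : ∃ t, chk3 f_pm_022_a t 2 5 1 = true :=
  ⟨(a (a (l 1) (a (l 1) (b (l 1) (b (l 1) (a (l 1) (a (l 1) (b (a (l 1) (c (l 16277728) (l 16197392))) (c (c (l 364568008263) (l 359199246887)) (a (l 320544469783) (l 16215984)))))))))) (a (a (a (a (b (l 1) (c (b (c (l 329671307447) (l 16236936)) (b (l 212633483031) (l 16298760))) (b (c (l 16199336) (l 16159312)) (c (l 16233352) (l 16192744))))) (b (c (b (l 16212400) (l 121365309303)) (b (l 16140328) (l 166462433111))) (c (b (c (l 16275912) (l 16243208)) (l 16292800)) (b (c (l 16208320) (l 16171248)) (l 16222736))))) (b (c (b (a (l 16263408) (l 16231648)) (a (l 16240656) (l 16249368))) (a (b (l 16153448) (l 16174720)) (b (l 16167040) (l 16187280)))) (c (b (a (l 16265872) (l 16273032)) (a (l 16297208) (l 16302736))) (b (a (l 16201136) (l 16212624)) (a (l 16232720) (l 16243088)))))) (b (c (a (b (a (l 16245024) (l 16259808)) (l 16310096)) (b (l 16282904) (l 16296224))) (a (b (l 16205216) (l 16202600)) (b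 (l 16208640) (l 16224384)))) (c (a (b (l 16289776) (l 16317296)) (b (l 16315208) (l 16339944))) (a (b (l 16226000) (l 16254456)) (b (l 16245096) (l 16270680)))))) (a (b (c (a (l 16320928) (l 16353768)) (a (l 16242672) (l 16270328))) (c (a (l 16354152) (l 16382176)) (a (l 16257184) (l 16299968)))) (c (b (l 16405192) (l 16404384)) (b (l 16314672) (l 16272848)))))), by decide +kernel⟩

def k2_pm_022_a : ∃ t, chk3 f_pm_022_a t 8 3 1 = true :=
  ⟨(b (l 1) (a (b (l 1) (l 6)) (b (b (b (l 1) (a (l 1) (a (l 1) (a (b (l 1) (l 6)) (a (b (b (l 1) (l 6)) (l 6)) (b (c (c (b (l 230350699271) (l 16559000)) (b (l 225518812791) (l 16530640))) (c (b (l 214781338903) (l 16499872)) (b (l 209949456199) (l 16466696)))) (a (l 6) (c (l 16546768) (l 16497856))))))))) (a (l 6) (a (l 6) (a (l 6) (a (l 6) (b (c (b (l 16573272) (l 16589792)) (b (l 16517208) (l 16536992))) (c (l 16615248) (l 16567528)))))))) (a (l 6) (a (l 6) (a (l 6) (a (l 6) (b (c (l 16584480) (l 16547608)) (b (l 16670448)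 (l 16602040)))))))))), by decide +kernel⟩

def k3_pm_022_a : ∃ t, chk3 f_pm_022_a t 18 6 1 = true :=
  ⟨(b (l 1) (a (b (l 1) (a (l 1) (b (b (l 1) (a (l 1) (c (c (l 166462934471) (l 162167914199)) (c (l 155725408311) (l 153577856855))))) (c (a (b (c (l 152504314167) (l 149283038167)) (c (a (l 220686947623) (l 278669007927)) (a (l 216928799303) (l 274910857159)))) (b (c (l 252899177863) (a (l 214244418071) (l 295848795911))) (c (l 16510160) (a (l 16477576) (l 16478088))))) (a (b (c (l 143377403959) (l 140692988119)) (c (a (l 211023163463) (l 269005219671)) (l 253972785543))) (b (c (l 248604100103) (l 251288396839)) (c (l 16442752) (l 16404920)))))))) (b (b (b (l 1) (a (l 1) (a (l 1) (c (c (l 255583419063) (l 245382807271)) (c (l 241087778215) (l 237866467479)))))) (b (a (l 1) (c (a (c (l 228739894951) (l 219076156327)) (c (l 16442888) (l 335040271655))) (a (c (l 214244257751) (l 211559821719)) (c (l 16364976) (l 16320520))))) (a (a (l 1) (c (c (l 204580725095)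 (l 196527602487)) (c (l 190621964487) (l 189011273751)))) (c (a (c (l 313028649495) (l 310344234119)) (c (l 16457960) (l 16420592))) (a (c (l 311417916791) (l 16336512)) (l 16379480)))))) (c (a (b (a (b (c (l 184179652151) (l 177737145447)) (c (l 271152764807) (a (l 236256099319) (l 16446960)))) (b (c (l 291016964967) (l 287795680791)) (c (l 16482656) (l 16447928)))) (b (a (c (l 16496040) (l 16462552)) (l 16481152)) (c (l 16512568) (l 16479416)))) (b (a (b (c (l 16469968) (l 16433952)) (l 16467320)) (c (l 16479400) (l 16443008))) (a (l 16480120) (l 16492104)))) (a (b (a (b (c (l 171831508871) (l 169683952007)) (c (l 266320812391) (l 267394490855))) (b (c (l 287258751303) (l 286721811623)) (c (l 16410248) (l 16369600)))) (a (b (c (l 16426208) (l 16387016)) (l 16424208)) (b (l 16407040) (l 16424200)))) (a (b (c (l 16402848) (l 16360984)) (l 16415648)) (b (l 16403376) (l 16415600)))))))), by decide +kernel⟩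

def k4_pm_022_a : ∃ t, chk3 f_pm_022_a t 19 12 1 = true :=
  ⟨(b (b (a (l 1) (a (c (a (c (l 227665968343) (l 226055289511)) (c (l 129955458455) (l 16297008))) (c (a (l 16270800) (l 16252224)) (l 307659495271))) (c (a (c (l 16337584) (l 16297808)) (l 16318336)) (c (l 16256232) (l 16211048))))) (a (b (l 1) (a (l 1) (a (l 1) (c (c (l 208338662759) (l 202969877079)) (c (l 204043552647) (l 210485904695)))))) (a (c (a (c (b (l 316249698839) (a (l 16370304) (l 16369656))) (b (l 313565274615) (l 245919552439))) (c (b (l 16356144) (l 16368504)) (l 16320216))) (a (c (b (l 16266608) (l 16278096)) (l 146061385927)) (c (l 16274560) (l 16225368)))) (c (c (l 16360512) (l 16320944)) (c (l 16278104) (l 16231976)))))) (b (a (a (l 1) (c (a (b (c (l 169683973463) (l 176126347047)) (c (l 257193950471) (l 246456459063))) (c (b (a (l 16381104) (l 16382104)) (l 16392672)) (b (l 277594947159) (l 16348304)))) (c (a (b (l 157872669351) (l 241087683735)) (b (l 296385366679) (l 16300072)))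 (a (l 222297094775) (b (l 293164049399) (l 16247976)))))) (a (c (c (a (b (l 16381464) (l 16392464)) (l 16385944)) (a (l 16343416) (l 16344008))) (a (c (l 16296048) (l 16244904)) (b (l 16267944) (l 16280608)))) (c (c (l 16383920) (l 16344544)) (c (l 16301800) (l 16255688))))) (a (a (c (a (b (l 1) (c (l 186327030631) (l 173978930967))) (c (b (l 219613007319) (l 299606791143)) (b (l 208338646535) (l 297996109671)))) (a (c (l 166999525095) (l 163241336679)) (c (l 258267583287) (l 254509391527)))) (c (a (c (b (l 16401536) (l 16413448)) (b (l 16358536) (l 16371096))) (c (l 16410056) (l 16366664))) (a (c (l 344703803399) (l 16268392)) (c (l 16319448) (l 16268408))))) (a (c (a (l 16389080) (l 16388760)) (a (l 16297072) (l 16300344))) (c (l 16388288) (l 16305208)))))), by decide +kernel⟩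

def k5_pm_022_a : ∃ t, chk3 f_pm_022_a t 19 13 1 = true :=
  ⟨(a (c (b (a (a (b (b (c (l 284574426599) (l 274910683703)) (c (l 16433344) (l 16393936))) (c (l 16453456) (l 16415008))) (b (c (l 16429512) (l 16388976)) (l 16436648))) (b (a (c (l 16432104) (l 16390736)) (l 16413904)) (a (l 16438648) (l 16440480)))) (a (b (c (l 16482576) (l 16445096)) (l 16494392)) (b (l 16467752) (l 16497400)))) (b (c (a (b (a (b (l 266857557911) (l 16351152)) (l 16344912)) (l 16373560)) (b (l 16346152) (l 16374928))) (a (b (a (l 292627280967) (l 16297336)) (l 16327888)) (b (l 16317968) (l 16327216)))) (a (b (a (l 16382472) (l 16382520)) (l 16415488)) (a (l 16399032) (l 16399128))))) (b (c (a (b (l 16413768) (l 16440104)) (l 16425952)) (a (b (l 16326368) (l 16355592)) (l 16347176))) (c (a (l 16487864) (l 16480792)) (a (l 16402656) (l 16408048))))), by decide +kernel⟩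

def k6_pm_022_a : ∃ t, chk3 f_pm_022_a t 18 14 1 = true :=
  ⟨(b (b (a (b (a (a (l 1) (c (a (c (l 207802071335) (l 206191408487)) (c (l 258804810039) (l 257194144807))) (c (a (l 200822644295) (l 251825379623)) (a (l 200285725975) (l 263636494007))))) (c (a (c (a (l 16524712) (l 16525376)) (a (l 16493576) (l 16494016))) (c (l 16526408) (l 16494688))) (a (c (a (l 16459800) (l 16459968)) (l 351146456503)) (l 16452416)))) (a (a (c (c (a (l 198675293047) (l 241624968295)) (c (l 247530510999) (l 244846128743))) (c (c (l 242161745047) (l 239477364439)) (a (l 194380176775) (l 249141011063)))) (c (c (a (l 16540440) (l 16540976)) (a (l 320008069719) (l 16510640))) (c (a (l 16477560) (l 16477688)) (a (l 16442264) (l 16442112))))) (c (c (l 16542432) (l 16506320)) (c (l 16477976) (l 16441656))))) (c (a (c (l 16536832) (l 16504648)) (l 16523504)) (a (a (l 16429984) (l 16450824)) (l 16450560)))) (a (a (c (b (a (c (b (l 310881341623) (l 16559840)) (a (b (l 16522856) (l 16531072))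 (l 16527240))) (c (l 16556984) (l 16527656))) (a (c (l 16571184) (l 16543640)) (l 16558312))) (a (b (c (c (l 313565604647) (l 324302999319)) (c (l 339335364647) (l 338798459159))) (c (l 16513680) (l 16481320))) (b (c (l 16495760) (l 16461296)) (l 16497632)))) (c (c (l 16544928) (l 16515752)) (c (l 16500968) (l 16478296)))) (c (c (a (l 16568040) (l 16570408)) (l 16517624)) (a (l 16487456) (l 16486736))))) (a (b (c (a (c (l 16594680) (l 16548296)) (c (l 16595960) (l 16569856))) (a (c (l 16520584) (l 16490568)) (l 16526088))) (c (c (l 16563840) (l 16541328)) (c (l 16579552) (l 16552696)))) (c (c (l 16529856) (l 16504048)) (c (l 16496568) (l 16465480))))), by decide +kernel⟩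

def k7_pm_022_a : ∃ t, chk3 f_pm_022_a t 18 15 1 = true :=
  ⟨(a (b (c (c (l 16592360) (l 16575032)) (a (a (l 16547000) (l 16546064)) (l 16544552))) (c (a (c (l 16591608) (l 16601792)) (l 16562056)) (a (l 16577536) (l 16586808)))) (b (c (l 16561272) (l 16509544)) (c (a (l 16548184) (l 16555000)) (a (l 16596504) (l 16627560))))), by decide +kernel⟩

def k8_pm_022_a : ∃ t, chk3 f_pm_022_a t 19 7 1 = true :=
  ⟨(b (a (c (a (b (b (l 16526008) (l 16557176)) (l 16581896)) (b (b (l 16528480) (l 16559104)) (l 16604096))) (b (a (b (l 16450064) (l 16485864)) (c (l 16487856) (l 16445992))) (c (l 16515960) (l 16481672)))) (c (b (b (l 16526464) (l 16556440)) (l 16600784)) (b (l 16388480) (l 16459344)))) (b (a (c (l 16513144) (a (l 16578656) (l 16596368))) (a (l 16537640) (l 16592024))) (a (a (a (l 16497048) (l 16490776)) (a (l 16484528) (l 16478304))) (a (a (l 16472096) (l 16486888)) (l 16435872))))), by decide +kernel⟩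

def k9_pm_022_a : ∃ t, chk3 f_pm_022_a t 5 3 1 = true :=
  ⟨(a (b (a (a (b (c (b (a (c (l 16348056) (l 16311952)) (l 16332040)) (a (b (l 16364112) (l 16387360)) (l 16375776))) (b (a (c (l 16272984) (l 16231152)) (l 16260656)) (a (b (l 16285920) (l 16311568)) (l 16305840)))) (b (c (a (l 16424848) (l 16423696)) (l 16335176)) (c (l 16478096) (l 16415816)))) (b (c (b (a (l 16334712) (l 16338504)) (a (l 16376640) (l 16378624))) (c (b (l 16290456) (l 16333176)) (b (l 16257072) (l 16300816)))) (a (c (l 16323952) (l 16331648)) (a (b (l 16396976) (l 16451296)) (c (a (l 16448576) (l 16386168)) (a (l 16400456) (l 16400904))))))) (b (a (c (b (l 16350704) (l 16388544)) (b (l 16287944) (l 16328000))) (c (b (l 16370576) (l 16405568)) (b (l 16300880) (l 16337248)))) (b (c (l 16311240) (l 16293288)) (c (a (l 16478336) (l 16487160)) (l 16365192))))) (a (a (b (b (c (l 16536680) (l 16480488)) (c (l 16594464) (l 16548680))) (b (l 16459320) (a (l 16445472) (l 16476848)))) (b (b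 (a (l 16447760) (a (l 16510960) (c (l 16530376) (l 16489360)))) (a (l 16572032) (a (l 16571600) (l 16550344)))) (a (c (l 16439816) (l 16462688)) (a (b (l 16592064) (l 16543704)) (b (l 16566048) (a (l 16539936) (l 16537384))))))) (b (b (a (l 16511048) (l 16426392)) (l 16502352)) (b (l 16421920) (b (l 16511944) (l 16442744)))))) (b (b (a (c (a (l 16325096) (l 16430800)) (a (l 16332840) (l 16348536))) (c (l 16440608) (l 16246208))) (a (c (a (l 16478960) (l 16490976)) (a (l 16410128) (l 16415824))) (c (l 16507440) (l 16424728)))) (b (a (c (b (l 16538696) (l 16548432)) (b (l 16474832) (l 16521384))) (c (l 16495608) (l 16446808))) (b (a (l 16475120) (c (l 16476544) (l 16539680))) (c (a (l 16471128) (l 16433784)) (l 16367448)))))), by decide +kernel⟩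

def k10_pm_022_a : ∃ t, chk3 f_pm_022_a t 6 1 1 = true :=
  ⟨(c (b (a (b (a (b (l 16434152) (l 16465736)) (b (l 16368384) (l 16403632))) (a (b (l 16471064) (l 16478344)) (b (l 16432256) (l 16450696)))) (b (b (a (a (l 16321048) (l 16291824)) (a (l 16271440) (l 16259032))) (a (l 16343984) (l 16286608))) (a (b (l 16375152) (l 16395544)) (b (l 16320248) (l 16342568))))) (b (a (b (a (l 16499408) (l 16454872)) (a (l 16497664) (l 16444672))) (b (a (l 16401232) (l 16349768)) (a (l 16392480) (l 16342408)))) (a (b (a (l 16466056) (l 16415000)) (b (a (l 16433528) (l 16383944)) (a (l 16332888) (l 16353712)))) (a (b (l 16364488) (l 16258152)) (b (l 16315952) (l 16274416)))))) (b (a (b (a (b (l 16406600) (l 16382984)) (l 16465584)) (a (b (l 16375592) (l 16383024)) (l 16432280))) (b (b (a (l 16397528) (l 16352912)) (l 16401328)) (a (l 16474336) (l 16417672)))) (b (b (a (a (l 16404336) (l 16440200)) (l 16473296)) (a (a (l 16441816) (l 16464048)) (l 16466320))) (a (b (a (l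 16489656) (l 16495280)) (a (l 16228504) (l 16441520))) (b (l 16287264) (a (l 16394360) (l 16345680))))))), by decide +kernel⟩

def k11_pm_022_a : ∃ t, chk3 f_pm_022_a t 7 1 1 = true :=
  ⟨(b (a (b (c (a (b (l 16254408) (l 16304144)) (b (l 16263176) (l 16225608))) (b (l 16330504) (a (l 16319048) (l 16293936)))) (c (b (a (l 16268360) (l 16221328)) (a (l 16292688) (l 16246800))) (a (l 16362152) (b (l 16292936) (l 16323232))))) (b (c (a (l 16259480) (l 16286264)) (l 16125504)) (a (b (c (l 16200192) (l 16262368)) (l 16340904)) (c (b (l 16208344) (l 16178280)) (b (l 16256752) (l 16235448)))))) (b (a (c (b (l 16467920) (l 16441920)) (b (l 16367632) (l 16363088))) (c (b (l 16201872) (l 16201120)) (b (l 16272552) (l 16270184)))) (a (c (b (a (l 16270752) (l 16230176)) (a (l 16230904) (l 16191904))) (b (l 16333256) (a (l 16296592) (l 16248648)))) (b (c (l 16201896) (l 16241904)) (c (l 16270864) (a (l 16203384) (l 16162336))))))), by decide +kernel⟩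

theorem s12_pm_022_a : ∃ t, chk3 f_pm_022_a t 3 1 1 = true := ex3_a k10_pm_022_a k11_pm_022_a

theorem s13_pm_022_a : ∃ t, chk3 f_pm_022_a t 18 7 1 = true := ex3_b k6_pm_022_a k7_pm_022_a

theorem s14_pm_022_a : ∃ t, chk3 f_pm_022_a t 9 7 1 = true := ex3_a s13_pm_022_a k8_pm_022_a

theorem s15_pm_022_a : ∃ t, chk3 f_pm_022_a t 19 6 1 = true := ex3_b k4_pm_022_a k5_pm_022_a

theorem s16_pm_022_a : ∃ t, chk3 f_pm_022_a t 9 6 1 = true := ex3_a k3_pm_022_a s15_pm_022_a

theorem s17_pm_022_a : ∃ t, chk3 f_pm_022_a t 9 3 1 = true := ex3_b s16_pm_022_a s14_pm_022_a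

theorem s18_pm_022_a : ∃ t, chk3 f_pm_022_a t 4 3 1 = true := ex3_a k2_pm_022_a s17_pm_022_a

theorem s19_pm_022_a : ∃ t, chk3 f_pm_022_a t 2 3 1 = true := ex3_a s18_pm_022_a k9_pm_022_a

theorem s20_pm_022_a : ∃ t, chk3 f_pm_022_a t 2 2 1 = true := ex3_b k0_pm_022_a k1_pm_022_a

theorem s21_pm_022_a : ∃ t, chk3 f_pm_022_a t 2 1 1 = true := ex3_b s20_pm_022_a s19_pm_022_a

theorem s22_pm_022_a : ∃ t, chk3 f_pm_022_a t 1 1 1 = true := ex3_a s21_pm_022_a s12_pm_022_a

theorem c_pm_022_a : CertB 0 536870912 0 536870912 858993459 64424510 3 eng mog cd1q0 cd1q2a pd2 true true false .pp 0 2 2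
    ndB1q0 ndB1q2a pcB2 cut_pm_022_a Ext.none :=
  certB2 (fam := true) (s1 := true) (s2 := false) (a := 0) (b := 2) (c := 2) (cn := .pp) (n1 := ndB1q0) (n2 := ndB1q2a) (pc := pcB2) (cut := cut_pm_022_a) (xt := Ext.none) (P1 := 0) (W1 := 536870912) (P2 := 0) (W2 := 536870912) (P3 := 858993459) (W3 := 64424510) (N0 := 3) (En := eng) (mo := mog) (C1 := cd1q0) (C2 := cd1q2a) (C3 := pd2)
    rfl (fun _ => rfl) s22_pm_022_a

noncomputable def cut_pm_022_b : Cut := Cut.of [[⟨0, 0, 0, 67108864⟩, ⟨1, 1, 0, 67108864⟩, ⟨2, 1, 0, 67108864⟩]]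

noncomputable def f_pm_022_b : ℕ → ℕ → ℕ → ℕ → Bool := onCell 0 536870912 1073741824 536870912 858993459 64424510
    (rowB 3 eng mog cd1q0 cd1q2b pd2 1 true true false .pp 0 2 2 (qsf 0 536870912 1239849684 370763052 2) ndB1q0 ndB1q2b pcB2 cut_pm_022_b Ext.none)

def k0_pm_022_b : ∃ t, chk3 f_pm_022_b t 1 2 1 = true :=
  ⟨(a (b (l 1) (a (b (a (a (a (b (b (l 1) (b (l 1) (c (l 16330648) (l 204580175671)))) (c (b (c (l 16264080) (l 16223416)) (l 16216152)) (b (c (l 16179232) (l 16131536)) (l 16121792)))) (b (l 1) (c (b (l 16313672) (l 16284472)) (b (l 16203128) (l 16191520))))) (b (l 1) (b (l 1) (c (l 259341006999) (l 256119862519))))) (l 1)) (a (a (c (b (b (c (l 16246344) (l 16201176)) (l 16136960)) (c (l 16189960) (l 16139992))) (b (a (b (l 16089592) (l 16059536)) (l 16145112)) (b (l 15899576) (l 15936728)))) (c (b (a (b (l 16326088) (l 16301536)) (l 191158732071)) (l 16217456)) (b (c (l 16275936) (l 16179568)) (l 16049128)))) (b (a (a (c (l 16449048) (l 16287280))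 (l 1)) (l 1)) (c (a (l 16350416) (l 273836612231)) (a (c (l 16339072) (l 16302304)) (l 16355688)))))) (l 1))) (l 1)), by decide +kernel⟩

def k1_pm_022_b : ∃ t, chk3 f_pm_022_b t 1 3 1 = true :=
  ⟨(a (b (a (a (b (c (a (b (l 15935432) (c (l 16111912) (l 16059392))) (b (l 16260176) (l 16222480))) (a (b (c (l 16038528) (l 15952072)) (b (l 15975584) (l 15957008))) (b (l 16044392) (l 16025432)))) (c (b (a (l 16031016) (l 16187224)) (l 15834968)) (a (b (c (l 15965248) (l 15896632)) (l 15693224)) (c (l 16091432) (l 15901112))))) (b (c (b (a (l 16392304) (l 16226800)) (a (l 16341688) (l 16349008))) (b (a (l 16286752) (l 16417080)) (a (l 16247240) (l 16378288)))) (c (b (l 16272688) (l 16201952)) (b (l 16111080) (a (l 16183328) (l 16306648)))))) (b (a (a (c (c (b (l 16381792) (l 16327048)) (l 93985447863)) (l 317860035079)) (c (b (l 1) (l 208875556951)) (l 287795244919))) (l 1)) (a (c (b (a (l 16221784) (l 178810086359)) (a (l 16238688) (l 16258712))) (b (l 135323736375)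 (l 16340288))) (c (b (a (l 256657324327) (l 1)) (a (l 16269888) (l 333429709751))) (b (l 278131554615) (l 212096420039)))))) (c (a (b (a (b (a (l 15986176) (l 16074072)) (a (l 15932472) (l 16018912))) (b (l 16151768) (l 16114928))) (a (b (l 15916072) (l 15840920)) (l 16065944))) (b (a (b (l 16226672) (l 16208744)) (b (l 188474579111) (l 16264800))) (a (l 16186480) (l 16267344)))) (a (b (a (b (a (c (l 15909040) (l 15697744)) (l 15849504)) (a (c (l 15778768) (l 15655720)) (l 15956368))) (b (l 16129160) (l 16130168))) (a (b (a (l 15668168) (l 15891384)) (l 15515416)) (b (l 16063880) (l 15996424)))) (b (a (l 16290904) (b (l 16340416) (l 16326256))) (a (l 16232984) (l 16309640)))))) (b (l 1) (a (a (b (c (b (l 362420899735) (l 191695936999)) (b (l 318396636359) (l 16344288))) (b (c (l 16299840) (l 16346008)) (l 16332848))) (b (l 1) (c (b (l 392485688503) (l 16329560)) (b (l 16221288) (l 16365432))))) (l 1)))), by decide +kernel⟩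

theorem s2_pm_022_b : ∃ t, chk3 f_pm_022_b t 1 1 1 = true := ex3_b k0_pm_022_b k1_pm_022_b

theorem c_pm_022_b : CertB 0 536870912 1239849684 370763052 858993459 64424510 3 eng mog cd1q0 cd1q2b pd2 true true false .pp 0 2 2
    ndB1q0 ndB1q2b pcB2 cut_pm_022_b Ext.none :=
  certB1 (fam := true) (s1 := true) (s2 := false) (a := 0) (b := 2) (c := 2) (cn := .pp) (n1 := ndB1q0) (n2 := ndB1q2b) (pc := pcB2) (cut := cut_pm_022_b) (xt := Ext.none) (P1 := 0) (W1 := 536870912) (P2 := 1239849684) (W2 := 370763052) (P3 := 858993459) (W3 := 64424510) (N0 := 3) (En := eng) (mo := mog) (C1 := cd1q0) (C2 := cd1q2b) (C3 := pd2)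
    rfl (fun _ => rfl) s2_pm_022_b

noncomputable def f_pm_023_a : ℕ → ℕ → ℕ → ℕ → Bool := onCell 1610612736 536870912 0 536870912 858993459 64424510
    (rowB 3 eng mog cd1q0 cd1q2a pd3 2 true true false .up 0 2 3 (qsf 0 536870912 0 536870912 3) ndB1q0 ndB1q2a pcB3 Cut.none Ext.none)

def k0_pm_023_a : ∃ t, chk3 f_pm_023_a t 1 1 1 = true :=
  ⟨(a (a (b (a (b (c (a (l 16327688) (l 16385296)) (l 16410352)) (a (c (l 16060712) (l 16349152)) (l 16234056))) (b (a (l 16448296) (l 16481000)) (c (l 16400160) (l 16439608)))) (b (a (b (c (l 16104992) (l 16367672)) (c (l 16314536) (l 16369680))) (c (b (l 16350728) (l 16328824)) (b (l 16406768) (l 16378416)))) (a (b (c (l 16320840) (l 16346016)) (c (l 16245208) (l 16226336))) (b (c (l 16292320) (l 16291776)) (l 2))))) (b (a (b (a (l 16505440) (l 16522224)) (a (l 16455328) (l 2))) (l 2)) (b (l 2) (l 2)))) (l 2)), by decide +kernel⟩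

theorem c_pm_023_a : CertB 0 536870912 0 536870912 858993459 64424510 3 eng mog cd1q0 cd1q2a pd3 true true false .up 0 2 3
    ndB1q0 ndB1q2a pcB3 Cut.none Ext.none :=
  certB2 (fam := true) (s1 := true) (s2 := false) (a := 0) (b := 2) (c := 3) (cn := .up) (n1 := ndB1q0) (n2 := ndB1q2a) (pc := pcB3) (cut := Cut.none) (xt := Ext.none) (P1 := 0) (W1 := 536870912) (P2 := 0) (W2 := 536870912) (P3 := 858993459) (W3 := 64424510) (N0 := 3) (En := eng) (mo := mog) (C1 := cd1q0) (C2 := cd1q2a) (C3 := pd3)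
    rfl (fun _ => rfl) k0_pm_023_a

noncomputable def f_pm_023_b : ℕ → ℕ → ℕ → ℕ → Bool := onCell 1610612736 536870912 1239849684 370763052 858993459 64424510
    (rowB 3 eng mog cd1q0 cd1q2b pd3 2 true true false .up 0 2 3 (qsf 0 536870912 1239849684 370763052 3) ndB1q0 ndB1q2b pcB3 Cut.none Ext.none)

def k0_pm_023_b : ∃ t, chk3 f_pm_023_b t 1 1 1 = true :=
  ⟨(a (a (b (a (b (c (a (l 16280320) (l 16343664)) (l 16350912)) (a (c (l 16083136) (l 16109992)) (c (l 16161704) (l 16178480)))) (b (a (l 16407272) (l 16448712)) (a (l 16233432) (l 16291712)))) (a (a (b (c (l 15856376) (l 15861440)) (a (b (l 15624640) (c (l 15506016) (l 15466504))) (c (l 15626624) (l 15598440)))) (b (c (l 15948032) (l 15944752)) (b (l 15775448) (c (l 15639256) (l 15599864))))) (b (a (l 15812288) (l 16094080)) (a (c (l 15799104) (l 15763352)) (l 15992432))))) (a (b (a (b (l 16483152) (l 16343368)) (b (l 16511048) (l 16388592))) (a (b (l 16160080) (l 15944920)) (b (l 16220128) (l 16017352))))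 (b (a (b (l 16531528) (l 16424352)) (l 4)) (a (b (l 16270736) (l 16082312)) (l 4))))) (a (l 4) (l 4))), by decide +kernel⟩

theorem c_pm_023_b : CertB 0 536870912 1239849684 370763052 858993459 64424510 3 eng mog cd1q0 cd1q2b pd3 true true false .up 0 2 3
    ndB1q0 ndB1q2b pcB3 Cut.none Ext.none :=
  certB2 (fam := true) (s1 := true) (s2 := false) (a := 0) (b := 2) (c := 3) (cn := .up) (n1 := ndB1q0) (n2 := ndB1q2b) (pc := pcB3) (cut := Cut.none) (xt := Ext.none) (P1 := 0) (W1 := 536870912) (P2 := 1239849684) (W2 := 370763052) (P3 := 858993459) (W3 := 64424510) (N0 := 3) (En := eng) (mo := mog) (C1 := cd1q0) (C2 := cd1q2b) (C3 := pd3)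
    rfl (fun _ => rfl) k0_pm_023_b

noncomputable def f_pm_033 : ℕ → ℕ → ℕ → ℕ → Bool := onCell 0 536870912 1610612736 536870912 858993459 64424510
    (rowB 3 eng mog cd1q0 cd1q3 pd3 1 true true false .pnn 0 3 3 (qsf 0 536870912 1610612736 536870912 3) ndB1q0 ndB1q3 pcB3 Cut.none Ext.none)

def k0_pm_033 : ∃ t, chk3 f_pm_033 t 1 1 1 = true :=
  ⟨(b (b (a (b (a (c (a (b (a (l 15484160) (l 15571968)) (a (l 15495744) (l 15583184))) (b (l 1) (l 15720848))) (a (b (a (l 15453360) (l 15556712)) (l 15687912)) (l 322153439255))) (l 1)) (a (a (c (b (l 15544760) (l 15544712)) (b (l 15488248) (l 15473464))) (b (c (l 15725640) (l 15690712)) (c (l 15725456) (l 15674328)))) (c (b (l 1) (l 15979720)) (l 295310803527)))) (l 1)) (a (b (a (a (b (c (l 15540176) (l 15455928)) (l 15501800)) (b (l 15684024) (l 15670688))) (a (b (l 15863760) (l 15849520)) (l 287795041287))) (a (b (a (l 15468784) (l 15656896)) (a (l 4) (l 4))) (b (l 15916216) (l 4)))) (b (l 1) (b (l 1) (l 4))))) (l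 4)), by decide +kernel⟩

theorem c_pm_033 : CertB 0 536870912 1610612736 536870912 858993459 64424510 3 eng mog cd1q0 cd1q3 pd3 true true false .pnn 0 3 3
    ndB1q0 ndB1q3 pcB3 Cut.none Ext.none :=
  certB1 (fam := true) (s1 := true) (s2 := false) (a := 0) (b := 3) (c := 3) (cn := .pnn) (n1 := ndB1q0) (n2 := ndB1q3) (pc := pcB3) (cut := Cut.none) (xt := Ext.none) (P1 := 0) (W1 := 536870912) (P2 := 1610612736) (W2 := 536870912) (P3 := 858993459) (W3 := 64424510) (N0 := 3) (En := eng) (mo := mog) (C1 := cd1q0) (C2 := cd1q3) (C3 := pd3)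
    rfl (fun _ => rfl) k0_pm_033

noncomputable def f_pm_101 : ℕ → ℕ → ℕ → ℕ → Bool := onCell 536870912 536870912 0 536870912 858993459 64424510
    (rowB 3 eng mog cd1q1 cd1q0 pd1 2 true true false .npn 1 0 1 (qsf 536870912 536870912 0 536870912 1) ndB1q1 ndB1q0 pcB1 Cut.none Ext.none)

def k0_pm_101 : ∃ t, chk3 f_pm_101 t 1 1 1 = true :=
  ⟨(l 3), by decide +kernel⟩

theorem c_pm_101 : CertB 536870912 536870912 0 536870912 858993459 64424510 3 eng mog cd1q1 cd1q0 pd1 true true false .npn 1 0 1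
    ndB1q1 ndB1q0 pcB1 Cut.none Ext.none :=
  certB2 (fam := true) (s1 := true) (s2 := false) (a := 1) (b := 0) (c := 1) (cn := .npn) (n1 := ndB1q1) (n2 := ndB1q0) (pc := pcB1) (cut := Cut.none) (xt := Ext.none) (P1 := 536870912) (W1 := 536870912) (P2 := 0) (W2 := 536870912) (P3 := 858993459) (W3 := 64424510) (N0 := 3) (En := eng) (mo := mog) (C1 := cd1q1) (C2 := cd1q0) (C3 := pd1)
    rfl (fun _ => rfl) k0_pm_101

noncomputable def f_pm_102 : ℕ → ℕ → ℕ → ℕ → Bool := onCell 536870912 536870912 1073741824 536870912 858993459 64424510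
    (rowB 3 eng mog cd1q1 cd1q0 pd2 1 true true false .npp 1 0 2 (qsf 536870912 536870912 0 536870912 2) ndB1q1 ndB1q0 pcB2 Cut.none Ext.none)

def k0_pm_102 : ∃ t, chk3 f_pm_102 t 2 1 1 = true :=
  ⟨(b (b (l 3) (b (b (b (l 3) (a (l 2) (b (l 3) (b (l 3) (c (c (l 16455400) (l 16677888)) (a (l 16420688) (l 16522584))))))) (a (l 2) (c (a (c (l 16511720) (l 16685576)) (l 16421384)) (a (l 16345320) (l 16462488))))) (a (l 2) (c (a (c (l 16454528) (l 16634944)) (c (l 16425720) (l 16597456))) (a (l 16372712) (l 16538416)))))) (a (l 2) (b (a (l 2) (c (b (l 16446528) (l 2)) (l 1173633383))) (l 2)))), by decide +kernel⟩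

def k1_pm_102 : ∃ t, chk3 f_pm_102 t 3 1 1 = true :=
  ⟨(b (b (l 3) (b (b (b (a (l 3) (a (l 3) (b (l 3) (a (l 3) (c (l 16478728) (l 16546512)))))) (a (b (a (l 3) (c (l 16584496) (l 16542168))) (b (a (c (l 16578056) (l 16547128)) (c (l 16620392) (l 16545688))) (a (c (l 16612816) (l 16551008)) (c (l 16613856) (l 16548088))))) (a (a (b (l 16487280) (b (l 16569184) (l 16569176))) (b (l 167134133463) (b (l 16554792) (l 16554520)))) (b (a (c (l 16499616) (l 16543008)) (c (b (l 16513280) (l 16508360)) (l 16543984))) (b (a (l 16539536) (c (l 16505464) (l 16543456))) (a (l 16539000) (l 16459288))))))) (a (a (c (l 16539128) (l 16567368)) (c (l 16578464) (l 16557504))) (a (a (l 16568312) (l 16552624)) (a (l 16536112) (c (l 16499816) (l 16539904)))))) (a (a (c (l 16292896) (l 16601736)) (c (l 16490176) (l 16531112))) (a (a (l 16344040) (l 16509912)) (a (l 16489216) (c (l 16481200) (l 16435112))))))) (a (b (a (c (b (l 16413216) (l 16237352)) (b (l 16625016) (l 16592480)))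 (c (c (l 16075360) (l 16379904)) (b (l 16550264) (l 16461992)))) (a (l 2) (c (l 15977336) (l 16362928)))) (b (a (a (c (l 16324688) (l 16411672)) (l 16564800)) (b (a (l 16362776) (l 16340848)) (a (l 16252992) (l 16225808)))) (a (c (l 15990544) (l 15999224)) (b (l 16184632) (l 16063048)))))), by decide +kernel⟩

theorem s2_pm_102 : ∃ t, chk3 f_pm_102 t 1 1 1 = true := ex3_a k0_pm_102 k1_pm_102

theorem c_pm_102 : CertB 536870912 536870912 0 536870912 858993459 64424510 3 eng mog cd1q1 cd1q0 pd2 true true false .npp 1 0 2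
    ndB1q1 ndB1q0 pcB2 Cut.none Ext.none :=
  certB1 (fam := true) (s1 := true) (s2 := false) (a := 1) (b := 0) (c := 2) (cn := .npp) (n1 := ndB1q1) (n2 := ndB1q0) (pc := pcB2) (cut := Cut.none) (xt := Ext.none) (P1 := 536870912) (W1 := 536870912) (P2 := 0) (W2 := 536870912) (P3 := 858993459) (W3 := 64424510) (N0 := 3) (En := eng) (mo := mog) (C1 := cd1q1) (C2 := cd1q0) (C3 := pd2)
    rfl (fun _ => rfl) s2_pm_102

noncomputable def f_pm_112 : ℕ → ℕ → ℕ → ℕ → Bool := onCell 536870912 536870912 1073741824 536870912 858993459 64424510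
    (rowB 3 eng mog cd1q1 cd1q1 pd2 1 true true false .dn 1 1 2 (qsf 536870912 536870912 536870912 536870912 2) ndB1q1 ndB1q1 pcB2 Cut.none Ext.none)

def k0_pm_112 : ∃ t, chk3 f_pm_112 t 2 2 1 = true :=
  ⟨(b (l 3) (b (b (b (l 3) (b (l 3) (b (a (l 3) (l 3)) (a (c (c (a (c (c (l 15956368) (l 16050272)) (l 16196120)) (c (c (l 15957648) (l 16052568)) (l 16199984))) (c (l 16217712) (l 16623096))) (c (a (l 16516472) (l 16497560)) (a (l 16030552) (l 16011136)))) (a (c (c (c (c (l 15953480) (l 16045096)) (l 16187400)) (c (l 16386136) (l 16594624))) (c (l 16555624) (l 16079736))) (l 1)))))) (a (c (c (c (a (c (l 15942992) (l 16034704)) (c (l 15944880) (l 16038216))) (a (l 16177224) (l 16183264))) (c (a (l 16376424) (l 16386056)) (a (l 16585744) (l 16599592)))) (c (a (l 16421776) (l 16401504)) (a (c (l 16294448) (l 16058416)) (c (l 16244672) (l 15999392))))) (c (c (c (a (c (l 15941720) (l 16032360)) (l 247529607367)) (a (l 16173200) (l 245382512551))) (c (a (l 16370000)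 (l 16328872)) (a (l 16576576) (l 16518736)))) (c (a (l 16467864) (l 16531480)) (a (c (l 16311072) (l 16079776)) (l 318396518375)))))) (a (c (c (c (a (c (l 15910064) (l 15994872)) (c (l 15912864) (l 16000960))) (a (l 16126824) (l 16138080))) (c (a (l 16311456) (l 16330184)) (a (l 16505280) (l 16532856)))) (a (c (c (l 16699080) (l 16596936)) (b (l 16103304) (l 16300304))) (c (c (l 16744920) (l 16597800)) (b (l 16076120) (l 16261208))))) (c (c (c (a (c (l 15911872) (l 15998864)) (c (l 15907168) (l 15988704))) (a (l 16134256) (l 226592133431))) (c (a (l 16323848) (l 16292832)) (a (l 16523472) (l 16373528)))) (c (a (l 16436776) (l 273837030823)) (a (b (l 16112296) (l 16286888)) (c (l 16423544) (l 16231816)))))))), by decide +kernel⟩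

def k1_pm_112 : ∃ t, chk3 f_pm_112 t 2 3 1 = true :=
  ⟨(a (b (c (c (a (b (c (l 15910952) (l 16061592)) (l 16151184)) (b (c (l 15915992) (l 16078472)) (l 16016368))) (a (c (b (l 16221096) (l 16129840)) (b (l 16388184) (l 16263384))) (b (c (l 16251072) (l 16433400)) (l 16015432)))) (a (c (b (l 16634560) (l 16466720)) (b (l 16154192) (l 16370080))) (c (b (l 16710192) (l 16562784)) (b (l 16202096) (l 16491104))))) (c (c (b (a (l 15912016) (l 15923144)) (a (l 15900768) (l 15910240))) (a (b (l 16088392) (l 15986840)) (b (l 16148712) (l 16053160)))) (a (b (c (l 16283928) (l 16338296)) (c (l 16099344) (l 16200392))) (b (c (l 16394648) (l 16453120)) (c (l 16216424) (l 16331792)))))) (c (b (b (c (a (c (l 15916976) (l 16081856)) (c (l 15913752) (l 16071464))) (c (a (l 16257160) (l 16238736)) (a (l 16442840) (l 16414680)))) (c (a (l 15958912) (l 16019832)) (a (l 16101584) (l 16051600)))) (c (b (a (l 15930648) (l 15932160)) (a (l 15919080) (l 15923704))) (a (b (l 16187696)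 (l 16107336)) (b (l 16195968) (l 16134472))))) (b (a (c (b (l 16737952) (l 16619784)) (b (c (l 16535280) (l 16354840)) (l 16586680))) (c (b (l 16674424) (l 16598448)) (b (c (l 16499240) (l 16331448)) (l 16539552)))) (a (c (b (l 16478384) (l 16322208)) (b (l 16608144) (l 16505144))) (b (c (l 16499080) (l 16695496)) (l 16332968)))))), by decide +kernel⟩

def k2_pm_112 : ∃ t, chk3 f_pm_112 t 3 1 1 = true :=
  ⟨(b (b (l 1) (b (l 1) (b (l 1) (a (a (a (c (c (l 16005496) (l 16326880)) (l 260414954887)) (l 1)) (l 1)) (l 1))))) (a (c (b (c (a (b (c (l 15906744) (l 16048112)) (l 16199416)) (c (l 233034255207) (l 228202642743))) (a (b (c (l 16197576) (l 16353728)) (l 15992872)) (b (l 294237158471) (l 257729858983)))) (c (a (b (l 15927160) (l 15921848)) (b (l 15917024) (l 15914200))) (a (b (l 16171160) (l 16124856)) (b (l 16119744) (l 16081936))))) (b (c (a (b (l 16481800) (l 16517528)) (b (l 16214224) (l 16408760))) (a (b (l 16169104) (l 16384472)) (b (l 16222520) (l 16384920))))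 (a (c (b (l 16441208) (l 16361232)) (b (l 16525880) (l 16597776))) (c (b (l 16340696) (l 16271384)) (b (l 16390104) (l 16413568)))))) (a (a (b (a (b (l 1) (c (l 250751249591) (l 16438312))) (l 1)) (c (b (l 212633460663) (l 15967976)) (c (l 16219328) (l 16303104)))) (b (l 1) (c (b (l 214243926487) (l 15948824)) (c (l 16158808) (l 16252128))))) (b (l 1) (a (c (c (l 215854402199) (l 200285318311)) (b (l 16028872) (l 16127808))) (b (l 1) (c (l 15950024) (l 16058200)))))))), by decide +kernel⟩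

theorem s3_pm_112 : ∃ t, chk3 f_pm_112 t 2 1 1 = true := ex3_b k0_pm_112 k1_pm_112

theorem s4_pm_112 : ∃ t, chk3 f_pm_112 t 1 1 1 = true := ex3_a s3_pm_112 k2_pm_112

theorem c_pm_112 : CertB 536870912 536870912 536870912 536870912 858993459 64424510 3 eng mog cd1q1 cd1q1 pd2 true true false .dn 1 1 2
    ndB1q1 ndB1q1 pcB2 Cut.none Ext.none :=
  certB1 (fam := true) (s1 := true) (s2 := false) (a := 1) (b := 1) (c := 2) (cn := .dn) (n1 := ndB1q1) (n2 := ndB1q1) (pc := pcB2) (cut := Cut.none) (xt := Ext.none) (P1 := 536870912) (W1 := 536870912) (P2 := 536870912) (W2 := 536870912) (P3 := 858993459) (W3 := 64424510) (N0 := 3) (En := eng) (mo := mog) (C1 := cd1q1) (C2 := cd1q1) (C3 := pd2)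
    rfl (fun _ => rfl) s4_pm_112

noncomputable def f_pm_113 : ℕ → ℕ → ℕ → ℕ → Bool := onCell 536870912 536870912 536870912 536870912 858993459 64424510
    (rowB 3 eng mog cd1q1 cd1q1 pd3 0 true true false .nn 1 1 3 (qsf 536870912 536870912 536870912 536870912 3) ndB1q1 ndB1q1 pcB3 Cut.none Ext.none)

def k0_pm_113 : ∃ t, chk3 f_pm_113 t 2 1 1 = true :=
  ⟨(b (a (l 1) (a (l 1) (b (l 1) (b (l 1) (c (l 224444623815) (l 16576136)))))) (b (b (a (l 1) (a (c (l 233571409143) (l 224445104007)) (c (l 16117016) (l 16440920)))) (a (a (l 1) (c (l 207264678567) (l 186326520679))) (c (a (l 16157280) (l 16005432)) (c (l 16214120) (l 16298624))))) (a (c (b (a (l 220149500935) (l 16117880)) (a (c (l 15891376) (l 15922032)) (c (l 15925768) (l 15911704)))) (b (c (l 16149392) (l 16258264)) (c (a (l 15983736) (l 15930752)) (a (l 16077792) (l 15984504))))) (c (b (a (l 15966768) (l 16030848)) (a (l 15972336) (l 16109112))) (b (a (l 16119632) (l 16086104)) (a (l 15901328) (l 15904952))))))),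 by decide +kernel⟩

def k1_pm_113 : ∃ t, chk3 f_pm_113 t 3 1 1 = true :=
  ⟨(b (a (a (b (l 1) (b (c (l 214244056311) (l 224445104007)) (c (l 16117016) (l 16440920)))) (b (b (l 1) (c (l 241624416935) (l 186326520679))) (c (b (l 16157280) (l 16005432)) (c (l 16214120) (l 16298624))))) (b (c (a (b (l 220149500935) (l 16117880)) (b (c (l 15891376) (l 15922032)) (c (l 15925768) (l 15911704)))) (a (c (l 16149392) (l 16258264)) (c (b (l 15983736) (l 15930752)) (b (l 16077792) (l 15984504))))) (c (a (b (l 15966768) (l 16030848)) (b (l 15972336) (l 16109112))) (a (b (l 16119632) (l 16086104)) (b (l 15901328) (l 15904952)))))) (a (b (c (c (l 16301400) (l 16352664)) (b (a (l 16334560) (l 16222240)) (a (l 16222240) (l 16210592)))) (b (c (l 16287648) (a (l 16115128) (l 16255904))) (a (b (c (l 16321288) (l 16048048)) (c (l 16462632) (l 16005848))) (b (a (l 16430032) (l 16711832)) (c (l 16926800) (l 16453064)))))) (b (a (c (l 16287648) (b (l 16115128) (l 16255904))) (b (a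 (c (l 16321288) (l 16048048)) (c (l 16462632) (l 16005848))) (a (b (l 16429128) (l 16711832)) (c (l 16926800) (l 16453064))))) (a (b (l 16778184) (b (l 16888080) (a (l 16808416) (a (l 16831808) (l 16832552))))) (b (a (l 16888080) (b (l 16809552) (b (l 16831808) (l 16832552)))) (a (b (l 16896936) (l 16827496)) (b (l 16827496) (a (l 16821936) (b (l 16806264) (a (l 16799976) (b (l 16792352) (a (l 16789064) (b (l 16784928) (l 16824400)))))))))))))), by decide +kernel⟩

theorem s2_pm_113 : ∃ t, chk3 f_pm_113 t 1 1 1 = true := ex3_a k0_pm_113 k1_pm_113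

theorem c_pm_113 : CertB 536870912 536870912 536870912 536870912 858993459 64424510 3 eng mog cd1q1 cd1q1 pd3 true true false .nn 1 1 3
    ndB1q1 ndB1q1 pcB3 Cut.none Ext.none :=
  certB0 (fam := true) (s1 := true) (s2 := false) (a := 1) (b := 1) (c := 3) (cn := .nn) (n1 := ndB1q1) (n2 := ndB1q1) (pc := pcB3) (cut := Cut.none) (xt := Ext.none) (P1 := 536870912) (W1 := 536870912) (P2 := 536870912) (W2 := 536870912) (P3 := 858993459) (W3 := 64424510) (N0 := 3) (En := eng) (mo := mog) (C1 := cd1q1) (C2 := cd1q1) (C3 := pd3)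
    rfl s2_pm_113

noncomputable def f_pm_123_a : ℕ → ℕ → ℕ → ℕ → Bool := onCell 1610612736 536870912 0 536870912 858993459 64424510
    (rowB 3 eng mog cd1q1 cd1q2a pd3 2 true true false .npn 1 2 3 (qsf 536870912 536870912 0 536870912 3) ndB1q1 ndB1q2a pcB3 Cut.none Ext.none)

def k0_pm_123_a : ∃ t, chk3 f_pm_123_a t 2 1 1 = true :=
  ⟨(a (a (b (l 1) (b (l 1) (c (b (c (l 16366920) (l 16294576)) (c (a (l 16116312) (l 16135184)) (c (l 16147496) (l 16172672)))) (b (c (l 16342504) (l 16190136)) (c (l 16226688) (l 16127248)))))) (b (a (l 1) (b (l 1) (c (l 16560632) (l 16303280)))) (b (a (b (l 1) (c (l 16407528) (l 16298440))) (c (b (l 16487632) (l 16408536)) (b (l 16330128) (l 16301376)))) (c (b (c (l 16294720) (l 16288368)) (c (a (l 16157664) (l 16185752)) (b (l 16192688) (l 16119488)))) (b (c (l 16296128) (l 16189032)) (c (l 16176320) (l 16161360))))))) (b (a (c (b (a (l 16590368) (l 16589192)) (c (l 16540952) (l 16548608))) (c (b (l 16523448) (l 16469296)) (b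 (l 16301496) (l 16268168)))) (c (b (a (l 16589848) (l 16592688)) (c (l 16447736) (l 16574312))) (b (c (l 16539744) (l 16214656)) (c (l 16480120) (l 16297840))))) (b (a (b (c (l 16488760) (c (l 16412368) (l 16250368))) (c (a (l 16411944) (l 16422784)) (a (l 16309192) (l 16315200)))) (c (b (l 16498128) (l 16440128)) (c (l 16305704) (b (l 16287728) (l 16267480))))) (a (c (b (c (l 16508968) (l 16296360)) (c (l 16245480) (l 16282464))) (b (c (l 16263144) (l 16207768)) (c (l 16144240) (l 16147480)))) (c (b (a (l 16365008) (l 16417688)) (c (l 16430016) (l 16363816))) (b (a (l 16236832) (l 16245776)) (c (l 16164560) (l 16107224)))))))), by decide +kernel⟩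

def k1_pm_123_a : ∃ t, chk3 f_pm_123_a t 3 1 1 = true :=
  ⟨(a (b (b (a (a (c (l 16588800) (l 16365640)) (l 4)) (l 4)) (a (c (a (l 16596480) (l 16590144)) (a (l 16371128) (c (l 16543056) (l 16365296)))) (a (c (l 16483584) (l 36204439623)) (l 4)))) (a (b (c (c (a (l 16552512) (l 16594520)) (l 16546128)) (c (a (l 16428480) (l 16473384)) (a (l 16309264) (l 16324552)))) (c (b (a (l 16491560) (l 16588888)) (a (l 16485872) (l 16657504))) (b (a (l 16275368) (l 16330488)) (a (l 16188760) (l 16277264))))) (b (c (a (b (l 16644000) (l 16658848)) (b (l 16665376) (l 16734248))) (a (c (l 16534080) (l 16360664)) (b (l 16526424) (l 16525904)))) (c (a (b (l 16710480) (l 16891232)) (b (l 16812416) (l 16881128))) (b (a (l 16416472) (l 16537376)) (a (l 16423512) (l 16645104))))))) (b (l 4) (b (b (l 4) (a (a (c (l 16708800) (l 16617568)) (l 4)) (l 4))) (a (b (a (a (l 16613072) (l 16767248)) (l 4)) (a (c (l 16857840) (l 16697088)) (c (l 16833880) (l 16744504)))) (l 4))))), by decide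 +kernel⟩

theorem s2_pm_123_a : ∃ t, chk3 f_pm_123_a t 1 1 1 = true := ex3_a k0_pm_123_a k1_pm_123_a

theorem c_pm_123_a : CertB 536870912 536870912 0 536870912 858993459 64424510 3 eng mog cd1q1 cd1q2a pd3 true true false .npn 1 2 3
    ndB1q1 ndB1q2a pcB3 Cut.none Ext.none :=
  certB2 (fam := true) (s1 := true) (s2 := false) (a := 1) (b := 2) (c := 3) (cn := .npn) (n1 := ndB1q1) (n2 := ndB1q2a) (pc := pcB3) (cut := Cut.none) (xt := Ext.none) (P1 := 536870912) (W1 := 536870912) (P2 := 0) (W2 := 536870912) (P3 := 858993459) (W3 := 64424510) (N0 := 3) (En := eng) (mo := mog) (C1 := cd1q1) (C2 := cd1q2a) (C3 := pd3)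
    rfl (fun _ => rfl) s2_pm_123_a

noncomputable def f_pm_123_b : ℕ → ℕ → ℕ → ℕ → Bool := onCell 1610612736 536870912 1239849684 370763052 858993459 64424510
    (rowB 3 eng mog cd1q1 cd1q2b pd3 2 true true false .npn 1 2 3 (qsf 536870912 536870912 1239849684 370763052 3) ndB1q1 ndB1q2b pcB3 Cut.none Ext.none)

def k0_pm_123_b : ∃ t, chk3 f_pm_123_b t 1 1 1 = true :=
  ⟨(a (a (l 1) (b (a (b (b (c (c (l 16503616) (l 16631008)) (c (l 16539984) (l 16303816))) (l 1)) (l 1)) (a (b (c (c (l 16504448) (l 16666136)) (c (l 16538384) (l 16283032))) (l 1)) (l 4))) (l 1))) (a (l 4) (l 4))), by decide +kernel⟩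

theorem c_pm_123_b : CertB 536870912 536870912 1239849684 370763052 858993459 64424510 3 eng mog cd1q1 cd1q2b pd3 true true false .npn 1 2 3
    ndB1q1 ndB1q2b pcB3 Cut.none Ext.none :=
  certB2 (fam := true) (s1 := true) (s2 := false) (a := 1) (b := 2) (c := 3) (cn := .npn) (n1 := ndB1q1) (n2 := ndB1q2b) (pc := pcB3) (cut := Cut.none) (xt := Ext.none) (P1 := 536870912) (W1 := 536870912) (P2 := 1239849684) (W2 := 370763052) (P3 := 858993459) (W3 := 64424510) (N0 := 3) (En := eng) (mo := mog) (C1 := cd1q1) (C2 := cd1q2b) (C3 := pd3)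
    rfl (fun _ => rfl) k0_pm_123_b

noncomputable def f_pm_133 : ℕ → ℕ → ℕ → ℕ → Bool := onCell 536870912 536870912 1610612736 536870912 858993459 64424510
    (rowB 3 eng mog cd1q1 cd1q3 pd3 0 true true false .dn 1 3 3 (qsf 536870912 536870912 1610612736 536870912 3) ndB1q1 ndB1q3 pcB3 Cut.none Ext.none)

def k0_pm_133 : ∃ t, chk3 f_pm_133 t 1 1 1 = true :=
  ⟨(l 4), by decide +kernel⟩

theorem c_pm_133 : CertB 536870912 536870912 1610612736 536870912 858993459 64424510 3 eng mog cd1q1 cd1q3 pd3 true true false .dn 1 3 3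
    ndB1q1 ndB1q3 pcB3 Cut.none Ext.none :=
  certB0 (fam := true) (s1 := true) (s2 := false) (a := 1) (b := 3) (c := 3) (cn := .dn) (n1 := ndB1q1) (n2 := ndB1q3) (pc := pcB3) (cut := Cut.none) (xt := Ext.none) (P1 := 536870912) (W1 := 536870912) (P2 := 1610612736) (W2 := 536870912) (P3 := 858993459) (W3 := 64424510) (N0 := 3) (En := eng) (mo := mog) (C1 := cd1q1) (C2 := cd1q3) (C3 := pd3)
    rfl k0_pm_133

noncomputable def cut_pm_202_a : Cut := Cut.of [[⟨0, 1, 0, 67108864⟩, ⟨1, 0, 0, 67108864⟩, ⟨2, 1, 0, 67108864⟩]]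

noncomputable def f_pm_202_a : ℕ → ℕ → ℕ → ℕ → Bool := onCell 0 536870912 1073741824 536870912 858993459 64424510
    (rowB 3 eng mog cd1q2a cd1q0 pd2 1 true true false .pp 2 0 2 (qsf 0 536870912 0 536870912 2) ndB1q2a ndB1q0 pcB2 cut_pm_202_a Ext.none)

def k0_pm_202_a : ∃ t, chk3 f_pm_202_a t 4 2 1 = true :=
  ⟨(b (l 1) (a (b (b (b (l 1) (b (l 1) (a (c (l 16217720) (l 16136200)) (c (l 16212904) (l 16136520))))) (c (b (b (a (l 16235848) (l 16229888)) (l 16251888)) (l 16259768)) (b (c (l 16182016) (l 16137808)) (l 16214472)))) (b (c (b (l 16320408) (l 16361040)) (b (l 16229296) (l 16267232))) (c (l 16423832) (l 16294440)))) (b (b (b (l 1) (a (b (l 1) (c (l 16234536) (l 16141712))) (c (b (l 16208152) (l 16240728)) (b (l 16137264) (l 16151864))))) (c (b (b (a (l 16229376) (l 16234376)) (l 16248712)) (l 16358264)) (b (a (l 16162600) (l 16191896)) (l 16237224)))) (b (c (b (l 16309952) (l 16346856)) (b (l 16226224) (l 16259288))) (c (l 16404488) (l 16311064)))))),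 by decide +kernel⟩

def k1_pm_202_a : ∃ t, chk3 f_pm_202_a t 5 2 1 = true :=
  ⟨(b (b (l 1) (b (l 1) (a (l 1) (a (l 1) (b (l 1) (b (l 1) (a (b (l 1) (c (l 16298704) (l 16197392))) (c (c (l 364568008263) (l 359199246967)) (b (l 321618211607) (l 16215984)))))))))) (b (b (b (b (a (l 1) (c (a (b (l 282426657319) (l 16276936)) (a (l 212096611703) (l 16298760))) (a (c (l 16199336) (l 16159312)) (a (l 236792599831) (l 16222376))))) (a (c (a (l 16212400) (l 121365309303)) (a (l 16140328) (l 166999304343))) (c (a (b (l 16258472) (l 16261240)) (l 16292800)) (a (c (l 16208320) (l 16171248)) (l 16222736))))) (a (c (a (b (l 139082126455) (l 16231648)) (b (l 16240656) (l 16249368))) (b (a (l 16153448) (l 16174720)) (a (l 16167040) (l 16187280)))) (c (a (b (l 16265872) (l 16273032)) (b (l 16297208) (l 16302736))) (a (b (l 16201136) (l 16212624)) (b (l 16232720) (l 16243088)))))) (a (c (b (a (b (l 16245024) (l 16259808)) (l 16310096)) (a (l 16282904) (l 16296224))) (b (a (l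 16205216) (l 16202600)) (a (l 16208640) (l 16224384)))) (c (b (a (l 16289776) (l 16317296)) (a (l 16315208) (l 16339944))) (b (a (l 16226000) (l 16254456)) (a (l 16245096) (l 16270680)))))) (b (a (c (b (l 16299952) (l 16353768)) (b (l 16242672) (l 16270328))) (c (b (l 16354152) (l 16382176)) (b (l 16257184) (l 16299968)))) (c (a (l 16405192) (l 16404384)) (a (l 16314672) (l 16272848)))))), by decide +kernel⟩

def k2_pm_202_a : ∃ t, chk3 f_pm_202_a t 2 3 1 = true :=
  ⟨(b (c (b (a (b (a (l 16434152) (l 16465736)) (a (l 16368384) (l 16403632))) (a (b (l 16471064) (l 16432256)) (b (l 16478344) (l 16450696)))) (a (a (b (b (l 16321048) (l 16291824)) (b (l 16271440) (l 16259032))) (b (l 16343984) (l 16286608))) (b (a (l 16375152) (l 16395544)) (a (l 16320248) (l 16342568))))) (b (a (b (a (l 16406600) (l 16382984)) (l 16465584)) (b (a (l 16375592) (l 16383024)) (l 16432280))) (a (a (b (l 16397528) (l 16352912)) (l 16401328)) (b (l 16474336) (l 16417672))))) (b (a (c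 (b (a (l 16254408) (l 16283168)) (a (l 16263176) (l 16225608))) (b (a (l 16328768) (l 16319048)) (l 16311408))) (c (a (b (l 16268360) (l 16221328)) (b (l 16292688) (l 16246800))) (b (l 16362152) (l 16182088)))) (a (c (b (l 16259480) (l 16286264)) (l 16146472)) (b (a (c (l 16200192) (l 16262368)) (l 16340904)) (c (a (l 16208344) (l 16178280)) (a (l 16256752) (l 16235448))))))), by decide +kernel⟩

def k3_pm_202_a : ∃ t, chk3 f_pm_202_a t 3 8 1 = true :=
  ⟨(a (l 1) (a (b (l 1) (a (b (l 1) (b (l 1) (a (l 1) (b (a (l 1) (l 6)) (b (a (a (l 1) (l 6)) (l 6)) (a (c (c (a (l 230887570183) (l 16559000)) (a (l 226592554615) (l 16530640))) (c (a (l 215855081207) (l 16499872)) (a (l 210486327111) (l 16466696)))) (b (l 6) (c (l 16544152) (l 16497856))))))))) (b (l 6) (b (l 6) (b (l 6) (b (l 6) (a (c (a (l 16573272) (l 16589792)) (a (l 16517208) (l 16536992))) (c (l 16615248) (l 16567528))))))))) (b (l 6) (b (l 6) (b (l 6) (b (l 6) (a (a (c (l 16628984) (l 16609664)) (l 16607552))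 (c (l 16586048) (l 16628656))))))))), by decide +kernel⟩

def k4_pm_202_a : ∃ t, chk3 f_pm_202_a t 6 18 1 = true :=
  ⟨(a (l 1) (b (a (l 1) (b (l 1) (b (a (l 1) (c (c (a (l 153578055991) (b (l 221760689447) (l 278669007927))) (a (l 150356780151) (b (l 218539412039) (l 274373986167)))) (a (c (b (l 1) (l 142840532311)) (l 141766730279)) (c (b (l 213170647847) (l 269542090919)) (l 253972785543))))) (a (a (l 1) (c (c (l 168073547207) (l 163241656183)) (c (l 157872892775) (l 154651599015)))) (c (a (c (l 252899177783) (b (l 214244418071) (l 295311924967))) (c (l 16499680) (b (l 16477576) (l 16478088)))) (a (c (b (l 211023136007) (l 16425848)) (l 251288396839)) (c (l 16442752) (l 16404920)))))))) (a (a (a (l 1) (b (l 1) (b (l 1) (c (c (l 256120289815) (l 245919678183)) (c (l 241087778215) (l 238940209303)))))) (a (b (l 1) (c (b (c (l 229813636775) (l 220686769063)) (c (l 335577204311) (l 334503400583))) (b (c (l 215318000887) (l 213170434615)) (c (l 16364976) (l 16320520)))))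 (b (b (l 1) (c (c (l 206191337831) (l 198138215383)) (c (l 192769449431) (l 190621886311)))) (c (b (c (l 311418035783) (l 309807363207)) (c (l 16457960) (l 16420592))) (b (c (l 311417916791) (l 16336512)) (l 16379480)))))) (c (b (a (b (a (c (l 185790264887) (l 179347758183)) (c (l 271152764807) (b (l 236792970231) (l 16446960)))) (a (c (l 289943222903) (b (l 262562748519) (l 16432888))) (c (l 16482656) (l 16447928)))) (a (b (c (l 16496040) (l 16462552)) (l 16475912)) (c (l 16512568) (l 16479416)))) (a (b (a (c (l 16469968) (l 16433952)) (l 16467320)) (c (l 16479400) (l 16443008))) (b (l 16480120) (l 16492104)))) (b (a (b (a (c (l 173442122599) (l 170757693831)) (c (l 266857683799) (l 267394491015))) (a (c (l 287258751303) (l 286721811623)) (c (l 16410248) (l 16369600)))) (b (a (c (l 16426208) (l 16387016)) (l 16424208)) (a (l 16407040) (l 16424200)))) (a (b (c (l 16402848) (l 16360984)) (l 16403376)) (b (l 16415648) (l 16415600)))))))), by decide +kernel⟩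

def k5_pm_202_a : ∃ t, chk3 f_pm_202_a t 12 19 1 = true :=
  ⟨(a (a (b (l 1) (b (c (b (c (l 228739710327) (l 228739645383)) (c (l 129955458375) (l 16317976))) (c (a (l 267394263255) (l 319470764487)) (l 309270108663))) (c (b (c (l 16337584) (l 16297808)) (l 16318336)) (c (l 16256232) (l 16211048))))) (b (a (l 1) (b (l 1) (b (l 1) (c (c (l 209412404263) (l 204580490151)) (c (l 205117294471) (l 211559646519)))))) (b (c (b (c (a (l 317323440663) (b (l 16370304) (l 16369656))) (a (l 314639017095) (l 246456424007))) (c (a (l 16356144) (l 16368504)) (l 16320216))) (b (c (a (l 16266608) (l 16278096)) (l 146061385927)) (c (l 16274560) (l 16225368)))) (c (b (l 16351752) (l 16341072)) (c (l 16278104) (l 16231976)))))) (a (b (b (l 1) (c (b (a (c (l 169683973463) (l 151967156327)) (c (l 257193949655) (l 247530200887))) (a (c (b (l 16381104) (l 16382104)) (l 277594947495)) (c (b (l 16392184) (l 16393152)) (l 16348304)))) (b (a (c (l 157872669351) (l 16255808)) (c (l 241624554647)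 (l 16247920))) (a (c (l 296385366679) (l 300680242167)) (b (l 16295200) (l 16274784)))))) (b (c (c (b (a (l 16381464) (l 16392464)) (l 16385944)) (b (l 16343416) (l 16344008))) (b (c (l 16296048) (l 16244904)) (a (l 16267944) (l 16280608)))) (c (c (l 16383920) (l 16344544)) (c (l 16301800) (l 16255688))))) (b (b (c (b (a (l 1) (c (l 186327030631) (l 175589543703))) (c (a (l 221223620055) (l 297996177639)) (a (l 209949259431) (l 297996109671)))) (b (c (l 168610137671) (l 163778207511)) (c (l 258267583287) (l 255046262359)))) (c (b (c (a (l 16401536) (l 16413448)) (a (l 16358536) (l 16371096))) (c (l 16410056) (l 16366664))) (b (c (l 344166932487) (l 16289360)) (c (l 16319448) (l 16268408))))) (b (c (b (l 16389080) (l 16388760)) (b (l 16297072) (l 16300344))) (c (l 16388288) (l 16305208)))))), by decide +kernel⟩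

def k6_pm_202_a : ∃ t, chk3 f_pm_202_a t 13 19 1 = true :=
  ⟨(a (b (b (c (a (b (a (c (l 284037555031) (l 274910683703)) (c (l 16433344) (l 16393936))) (c (a (l 16423104) (l 16435872)) (l 16388976))) (b (c (l 16453456) (l 16415008)) (l 16436648))) (c (a (b (a (l 266857557911) (l 16351152)) (l 16344912)) (l 16373560)) (a (b (l 292090410055) (l 16297336)) (l 16327888)))) (c (a (b (c (l 16432104) (l 16390736)) (l 16413904)) (b (l 16438648) (l 16440480))) (a (b (l 16342792) (l 16322240)) (b (l 16351368) (l 16351672))))) (c (b (a (l 16413768) (l 16440104)) (l 16425952)) (b (a (l 16326368) (l 16355592)) (l 16347176)))) (b (b (c (a (c (l 16482576) (l 16445096)) (l 16494392)) (a (b (l 16382472) (l 16382520)) (l 16415488))) (c (a (l 16467752) (l 16497400)) (b (l 16399032) (l 16399128)))) (c (b (l 16482624) (l 16480792)) (b (l 16402656) (l 16408048))))), by decide +kernel⟩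

def k7_pm_202_a : ∃ t, chk3 f_pm_202_a t 14 18 1 = true :=
  ⟨(a (a (b (a (b (b (l 1) (c (b (c (l 209412684071) (l 207265150311)) (c (l 258804810039) (l 256657273735))) (c (b (l 202970128759) (l 252362251031)) (b (l 201896338711) (l 263636494007))))) (c (b (c (b (l 16524712) (l 16525376)) (b (l 16493576) (l 16494016))) (c (l 16526408) (l 16494688))) (b (c (b (l 16459800) (l 16459968)) (l 351146456503)) (l 16452416)))) (b (b (c (c (a (l 204043994887) (l 279205938967)) (c (l 248067381911) (a (l 204043933191) (l 278132132791)))) (c (c (a (l 200285806727) (l 274910877335)) (l 240551106583)) (b (l 195990789511) (l 249141011063)))) (c (c (b (l 16540440) (l 16540976)) (b (l 319471198807) (l 16510640))) (c (b (l 16477560) (l 16477688)) (b (l 16442264) (l 16442112))))) (c (b (c (l 16541832) (l 16511184)) (l 16527848)) (c (l 16477976) (l 16441656))))) (b (c (c (l 16536832) (l 16504648)) (b (l 16429984) (l 16450824))) (c (l 16523504) (l 16450560)))) (b (b (c (a (b (c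 (a (l 310881341623) (l 16559840)) (b (a (l 16514992) (l 16531072)) (l 16527240))) (c (l 16556984) (l 16527656))) (b (c (l 16571184) (l 16543640)) (l 16558312))) (b (a (c (c (l 314102475895) (l 323766128407)) (c (l 339335364647) (l 338261588247))) (c (l 16513680) (l 16481320))) (a (c (l 16495760) (l 16461296)) (l 16497632)))) (c (c (l 16555416) (l 16515752)) (a (b (l 16478720) (l 16478536)) (l 16497280)))) (c (c (b (l 16568040) (l 16570408)) (l 16517624)) (b (l 16487456) (l 16486736))))) (b (a (c (b (c (b (l 16594424) (l 16594968)) (l 16548296)) (c (l 16595960) (l 16569856))) (b (c (l 16520584) (l 16490568)) (l 16526088))) (c (c (l 16563840) (l 16562296)) (c (l 16579552) (l 16552696)))) (c (c (l 16529856) (l 16504048)) (c (l 16496568) (l 16465480))))), by decide +kernel⟩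

def k8_pm_202_a : ∃ t, chk3 f_pm_202_a t 15 18 1 = true :=
  ⟨(b (a (c (c (l 16592360) (l 16575032)) (b (b (l 16547000) (l 16546064)) (l 16544552))) (c (b (b (l 16599864) (l 16593224)) (l 16562056)) (b (l 16577536) (l 16607776)))) (a (c (l 16582248) (l 16499064)) (c (b (l 16548184) (l 16555000)) (l 16538608)))), by decide +kernel⟩

def k9_pm_202_a : ∃ t, chk3 f_pm_202_a t 7 19 1 = true :=
  ⟨(a (b (c (b (a (a (l 16526008) (l 16557176)) (l 16581896)) (a (a (l 16528480) (l 16559104)) (l 16604096))) (a (b (a (l 16450064) (l 16485864)) (c (l 16487856) (l 16445992))) (c (l 16515960) (l 16481672)))) (c (a (a (l 16526464) (l 16556440)) (l 16600784)) (a (l 16388480) (l 16459344)))) (b (b (a (l 16498440) (b (l 16497048) (l 16490776))) (a (l 16497104) (b (l 16484528) (l 16478304)))) (a (b (l 16558608) (l 16592024)) (b (l 16448032) (l 16456840))))), by decide +kernel⟩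

def k10_pm_202_a : ∃ t, chk3 f_pm_202_a t 3 5 1 = true :=
  ⟨(b (a (b (b (a (c (a (b (a (l 16319232) (l 16341312)) (l 16332040)) (b (a (l 16364112) (l 16387360)) (l 16375776))) (a (b (c (l 16272984) (l 16231152)) (l 16260656)) (b (a (l 16285920) (l 16311568)) (l 16305840)))) (a (c (a (l 16411312) (l 16436856)) (l 16335176)) (c (l 16478096) (l 16415816)))) (a (c (a (b (l 16334712) (l 16338504)) (b (l 16376640) (l 16378624))) (c (a (l 16290456) (l 16333176)) (a (l 16257072) (l 16300816)))) (b (c (l 16344920) (l 16331648)) (b (a (l 16396976) (l 16451296)) (c (b (l 16448576) (l 16407144)) (b (l 16400456) (l 16400904))))))) (a (b (c (a (l 16350704) (l 16388544)) (a (l 16287944) (l 16328000))) (c (a (l 16370576) (l 16405568)) (a (l 16300880) (l 16337248)))) (a (c (l 16332216) (l 16314256)) (c (b (l 16478336) (l 16487160)) (l 16365192))))) (b (b (a (a (c (l 16536680) (l 16480488)) (l 16426024)) (a (l 16469800) (b (l 16466440) (l 16476848)))) (a (b (a (l 16447760)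 (l 16572032)) (b (a (l 16510960) (l 16571600)) (c (l 16412048) (l 16428192)))) (b (c (l 16439816) (l 16483656)) (a (b (l 16592064) (l 16587024)) (b (l 16543704) (a (l 16551848) (l 16525184))))))) (a (a (b (l 16511048) (l 16426392)) (l 16502352)) (a (l 16442896) (a (l 16511944) (l 16442744)))))) (a (a (b (c (b (l 16325096) (l 16430800)) (b (l 16332840) (l 16348536))) (c (l 16440608) (l 16246208))) (b (c (b (l 16478960) (l 16490976)) (b (l 16410128) (l 16415824))) (c (l 16507440) (l 16424728)))) (a (b (c (a (l 16538696) (l 16548432)) (a (l 16474832) (l 16521384))) (c (l 16516584) (l 16467784))) (b (b (b (l 16336136) (l 16328296)) (l 16274728)) (a (c (l 16476544) (l 16539680)) (l 16287696)))))), by decide +kernel⟩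

def k11_pm_202_a : ∃ t, chk3 f_pm_202_a t 3 3 1 = true :=
  ⟨(b (a (b (a (b (c (l 16499408) (l 16404336)) (c (l 16454872) (l 16440200))) (b (c (l 16497664) (l 16441816)) (c (l 16444672) (l 16464048)))) (c (a (b (l 16401232) (l 16349768)) (b (l 16392480) (l 16342408))) (a (l 16473296) (l 16466320)))) (b (a (c (b (l 16466056) (l 16415000)) (b (l 16489656) (l 16495280))) (c (a (b (l 16433528) (l 16383944)) (b (l 16332888) (l 16353712))) (b (l 16228504) (l 16441520)))) (c (a (c (l 16133024) (l 16360552)) (b (l 16279120) (l 16274416))) (a (l 16308240) (b (l 16394360) (l 16345680)))))) (a (b (c (a (l 16467920) (l 16420944)) (a (l 16367632) (l 16363088))) (c (a (l 16201872) (l 16201120)) (a (l 16272552) (l 16270184)))) (b (c (a (b (l 16270752) (l 16230176)) (b (l 16230904) (l 16191904))) (a (l 16333256) (b (l 16296592) (l 16248648)))) (a (c (l 16201896) (l 16241904)) (c (l 16249896) (l 15930776)))))), by decide +kernel⟩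

theorem s12_pm_202_a : ∃ t, chk3 f_pm_202_a t 7 18 1 = true := ex3_a k7_pm_202_a k8_pm_202_a

theorem s13_pm_202_a : ∃ t, chk3 f_pm_202_a t 7 9 1 = true := ex3_b s12_pm_202_a k9_pm_202_a

theorem s14_pm_202_a : ∃ t, chk3 f_pm_202_a t 6 19 1 = true := ex3_a k5_pm_202_a k6_pm_202_a

theorem s15_pm_202_a : ∃ t, chk3 f_pm_202_a t 6 9 1 = true := ex3_b k4_pm_202_a s14_pm_202_a

theorem s16_pm_202_a : ∃ t, chk3 f_pm_202_a t 3 9 1 = true := ex3_a s15_pm_202_a s13_pm_202_a

theorem s17_pm_202_a : ∃ t, chk3 f_pm_202_a t 3 4 1 = true := ex3_b k3_pm_202_a s16_pm_202_a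

theorem s18_pm_202_a : ∃ t, chk3 f_pm_202_a t 3 2 1 = true := ex3_b s17_pm_202_a k10_pm_202_a

theorem s19_pm_202_a : ∃ t, chk3 f_pm_202_a t 3 1 1 = true := ex3_b s18_pm_202_a k11_pm_202_a

theorem s20_pm_202_a : ∃ t, chk3 f_pm_202_a t 2 2 1 = true := ex3_a k0_pm_202_a k1_pm_202_a

theorem s21_pm_202_a : ∃ t, chk3 f_pm_202_a t 2 1 1 = true := ex3_b s20_pm_202_a k2_pm_202_a

theorem s22_pm_202_a : ∃ t, chk3 f_pm_202_a t 1 1 1 = true := ex3_a s21_pm_202_a s19_pm_202_a

theorem c_pm_202_a : CertB 0 536870912 0 536870912 858993459 64424510 3 eng mog cd1q2a cd1q0 pd2 true true false .pp 2 0 2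
    ndB1q2a ndB1q0 pcB2 cut_pm_202_a Ext.none :=
  certB1 (fam := true) (s1 := true) (s2 := false) (a := 2) (b := 0) (c := 2) (cn := .pp) (n1 := ndB1q2a) (n2 := ndB1q0) (pc := pcB2) (cut := cut_pm_202_a) (xt := Ext.none) (P1 := 0) (W1 := 536870912) (P2 := 0) (W2 := 536870912) (P3 := 858993459) (W3 := 64424510) (N0 := 3) (En := eng) (mo := mog) (C1 := cd1q2a) (C2 := cd1q0) (C3 := pd2)
    rfl (fun _ => rfl) s22_pm_202_a

noncomputable def cut_pm_202_b : Cut := Cut.of [[⟨0, 1, 0, 67108864⟩, ⟨1, 0, 0, 67108864⟩, ⟨2, 1, 0, 67108864⟩]]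

noncomputable def f_pm_202_b : ℕ → ℕ → ℕ → ℕ → Bool := onCell 1073741824 536870912 0 536870912 858993459 64424510
    (rowB 3 eng mog cd1q2b cd1q0 pd2 2 true true false .pp 2 0 2 (qsf 1239849684 370763052 0 536870912 2) ndB1q2b ndB1q0 pcB2 cut_pm_202_b Ext.none)

def k0_pm_202_b : ∃ t, chk3 f_pm_202_b t 2 1 1 = true :=
  ⟨(b (a (l 1) (b (a (b (b (b (a (a (l 1) (a (l 1) (c (l 16330648) (l 205117046343)))) (c (a (c (l 16264080) (l 16223416)) (l 16216152)) (a (c (l 16179232) (l 16131536)) (l 16121792)))) (a (l 1) (c (a (l 16313672) (l 16284472)) (a (l 16203128) (l 16191520))))) (a (l 1) (a (l 1) (c (l 259341006999) (l 256119862519))))) (l 1)) (b (b (c (a (a (c (l 16246344) (l 16201176)) (l 16136960)) (c (l 16189960) (l 16139992))) (a (b (a (l 16089592) (l 16059536)) (l 16145112)) (a (l 15899576) (l 15936728)))) (c (a (b (a (l 16326088) (l 16301536)) (l 191158732071)) (l 16217456)) (a (c (l 16275936) (l 16179568)) (l 16049128)))) (a (a (l 1) (b (c (l 16469816)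 (l 16306552)) (l 1))) (c (b (l 16371384) (l 273836612231)) (b (c (l 16339072) (l 16302304)) (l 16355688)))))) (l 1))) (l 1)), by decide +kernel⟩

def k1_pm_202_b : ∃ t, chk3 f_pm_202_b t 3 1 1 = true :=
  ⟨(b (a (b (b (a (c (b (a (l 15935432) (c (l 16111912) (l 16059392))) (a (l 16260176) (l 16222480))) (b (a (c (l 16038528) (l 15952072)) (a (l 15975584) (l 15957008))) (a (l 16044392) (l 16025432)))) (c (a (b (l 16031016) (l 16187224)) (l 15834968)) (b (a (c (l 15965248) (l 15896632)) (l 15693224)) (c (l 16091432) (l 15901112))))) (a (c (a (b (l 16392304) (l 16226800)) (b (l 16341688) (l 16349008))) (a (b (l 16286752) (l 16417080)) (b (l 16247240) (l 16378288)))) (c (a (l 16272688) (l 16201952)) (a (l 16132048) (b (l 16183328) (l 16306648)))))) (a (b (c (a (b (l 235718924695) (l 1)) (b (l 164851944839) (l 208875556951))) (a (l 303901440999) (l 174515435815))) (l 1)) (b (c (a (b (l 16221784) (l 178810086359)) (b (l 16238688) (l 16258712))) (a (l 135323736375)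 (l 16340288))) (c (a (b (l 256657324327) (l 1)) (b (l 16269888) (l 333429709751))) (a (l 278131554615) (l 212096420039)))))) (c (b (a (b (a (b (l 15986176) (l 16074072)) (b (l 15932472) (l 16018912))) (a (l 16151768) (l 16114928))) (b (a (l 15916072) (l 15840920)) (l 16065944))) (a (b (l 16217496) (a (l 188474579111) (l 16264800))) (b (l 16186480) (l 16267344)))) (b (a (b (a (b (c (l 15909040) (l 15697744)) (l 15849504)) (b (c (l 15778768) (l 15655720)) (l 15956368))) (a (l 16129160) (l 16130168))) (b (a (b (l 15668168) (l 15891384)) (l 15515416)) (a (l 16063880) (l 15996424)))) (a (b (l 16290904) (a (l 16340416) (l 16326256))) (b (l 16232984) (l 16309640)))))) (a (l 1) (b (b (a (c (a (l 355978448791) (l 191695936999)) (a (l 318396636359) (l 16344288))) (a (c (l 16299840) (l 16346008)) (l 16332848))) (a (l 1) (c (a (l 393022559415) (l 16329560)) (a (l 16221288) (l 16365432))))) (l 1)))), by decide +kernel⟩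

theorem s2_pm_202_b : ∃ t, chk3 f_pm_202_b t 1 1 1 = true := ex3_a k0_pm_202_b k1_pm_202_b

theorem c_pm_202_b : CertB 1239849684 370763052 0 536870912 858993459 64424510 3 eng mog cd1q2b cd1q0 pd2 true true false .pp 2 0 2
    ndB1q2b ndB1q0 pcB2 cut_pm_202_b Ext.none :=
  certB2 (fam := true) (s1 := true) (s2 := false) (a := 2) (b := 0) (c := 2) (cn := .pp) (n1 := ndB1q2b) (n2 := ndB1q0) (pc := pcB2) (cut := cut_pm_202_b) (xt := Ext.none) (P1 := 1239849684) (W1 := 370763052) (P2 := 0) (W2 := 536870912) (P3 := 858993459) (W3 := 64424510) (N0 := 3) (En := eng) (mo := mog) (C1 := cd1q2b) (C2 := cd1q0) (C3 := pd2)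
    rfl (fun _ => rfl) s2_pm_202_b

noncomputable def f_pm_203_a : ℕ → ℕ → ℕ → ℕ → Bool := onCell 0 536870912 1610612736 536870912 858993459 64424510
    (rowB 3 eng mog cd1q2a cd1q0 pd3 1 true true false .up 2 0 3 (qsf 0 536870912 0 536870912 3) ndB1q2a ndB1q0 pcB3 Cut.none Ext.none)

def k0_pm_203_a : ∃ t, chk3 f_pm_203_a t 1 1 1 = true :=
  ⟨(b (b (a (b (a (b (l 16145608) (l 16406640)) (b (c (l 16102656) (l 16349152)) (l 16317944))) (a (b (l 16448296) (l 16481000)) (b (l 16402104) (l 16433816)))) (a (b (a (c (l 16293736) (l 16367672)) (c (l 16314536) (l 16369680))) (a (b (l 16367136) (l 16392416)) (c (l 16328824) (l 16378416)))) (b (a (c (l 16320840) (l 16346016)) (c (l 16245208) (l 16226336))) (a (c (l 16292320) (l 16291776)) (l 2))))) (a (b (a (b (l 16505440) (l 16522224)) (b (l 16455328) (l 2))) (l 2)) (a (l 2) (l 2)))) (l 2)), by decide +kernel⟩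

theorem c_pm_203_a : CertB 0 536870912 0 536870912 858993459 64424510 3 eng mog cd1q2a cd1q0 pd3 true true false .up 2 0 3
    ndB1q2a ndB1q0 pcB3 Cut.none Ext.none :=
  certB1 (fam := true) (s1 := true) (s2 := false) (a := 2) (b := 0) (c := 3) (cn := .up) (n1 := ndB1q2a) (n2 := ndB1q0) (pc := pcB3) (cut := Cut.none) (xt := Ext.none) (P1 := 0) (W1 := 536870912) (P2 := 0) (W2 := 536870912) (P3 := 858993459) (W3 := 64424510) (N0 := 3) (En := eng) (mo := mog) (C1 := cd1q2a) (C2 := cd1q0) (C3 := pd3)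
    rfl (fun _ => rfl) k0_pm_203_a

noncomputable def f_pm_203_b : ℕ → ℕ → ℕ → ℕ → Bool := onCell 1239849684 370763052 1610612736 536870912 858993459 64424510
    (rowB 3 eng mog cd1q2b cd1q0 pd3 1 true true false .up 2 0 3 (qsf 1239849684 370763052 0 536870912 3) ndB1q2b ndB1q0 pcB3 Cut.none Ext.none)

def k0_pm_203_b : ∃ t, chk3 f_pm_203_b t 1 1 1 = true :=
  ⟨(b (b (a (b (a (b (c (l 16280320) (l 16323640)) (l 16357968)) (b (c (l 16083136) (l 16109992)) (l 16167736))) (a (b (l 16407272) (l 16448712)) (b (l 16233432) (l 16291712)))) (b (b (a (c (l 15856376) (l 15861440)) (b (a (l 15624640) (c (l 15506016) (l 15466504))) (c (l 15626624) (l 15598440)))) (a (c (l 15948032) (l 15944752)) (a (l 15754472) (c (l 15639256) (l 15599864))))) (a (b (l 15917144) (l 16094080)) (b (c (l 15799104) (l 15763352)) (l 15950488))))) (b (a (b (a (l 16483152) (l 16343368)) (a (l 16511048) (l 16388592))) (b (a (l 16160080) (l 15944920)) (a (l 16220128) (l 16017352)))) (a (b (a (l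 16531528) (l 16424352)) (l 4)) (b (a (l 16270736) (l 16082312)) (l 4))))) (b (l 4) (l 4))), by decide +kernel⟩

theorem c_pm_203_b : CertB 1239849684 370763052 0 536870912 858993459 64424510 3 eng mog cd1q2b cd1q0 pd3 true true false .up 2 0 3
    ndB1q2b ndB1q0 pcB3 Cut.none Ext.none :=
  certB1 (fam := true) (s1 := true) (s2 := false) (a := 2) (b := 0) (c := 3) (cn := .up) (n1 := ndB1q2b) (n2 := ndB1q0) (pc := pcB3) (cut := Cut.none) (xt := Ext.none) (P1 := 1239849684) (W1 := 370763052) (P2 := 0) (W2 := 536870912) (P3 := 858993459) (W3 := 64424510) (N0 := 3) (En := eng) (mo := mog) (C1 := cd1q2b) (C2 := cd1q0) (C3 := pd3)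
    rfl (fun _ => rfl) k0_pm_203_b

noncomputable def f_pm_213_a : ℕ → ℕ → ℕ → ℕ → Bool := onCell 0 536870912 1610612736 536870912 858993459 64424510
    (rowB 3 eng mog cd1q2a cd1q1 pd3 1 true true false .pnn 2 1 3 (qsf 0 536870912 536870912 536870912 3) ndB1q2a ndB1q1 pcB3 Cut.none Ext.none)

def k0_pm_213_a : ∃ t, chk3 f_pm_213_a t 2 1 1 = true :=
  ⟨(a (b (b (l 1) (b (c (b (l 16590368) (l 16589192)) (c (l 16523448) (l 16301496))) (c (b (l 16589848) (l 16592688)) (c (l 16539744) (l 16256592))))) (b (b (b (c (l 16588800) (l 16428552)) (l 4)) (l 4)) (l 4))) (b (b (a (l 1) (b (l 1) (c (l 16546112) (l 96132091319)))) (b (c (c (l 16540952) (l 16548608)) (c (l 16469296) (l 16268168))) (c (c (l 16468712) (l 16574312)) (c (l 16480120) (l 16297840))))) (b (b (c (b (l 16596480) (l 16611112)) (b (l 16413072) (c (l 16543056) (l 16365296)))) (b (c (l 16609416) (l 16455672)) (l 4))) (l 4)))), by decide +kernel⟩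

def k1_pm_213_a : ∃ t, chk3 f_pm_213_a t 3 1 1 = true :=
  ⟨(b (b (b (a (l 1) (c (a (c (l 16366920) (l 16294576)) (c (b (l 16116312) (l 16135176)) (c (l 16147496) (l 16172672)))) (a (c (l 16342504) (l 16190136)) (c (l 16226696) (l 16127248))))) (a (a (b (l 1) (c (l 16487632) (l 16330128))) (c (c (l 16411680) (l 16398552)) (c (l 16374416) (l 16207344)))) (c (a (c (l 16294720) (l 16288368)) (c (b (l 16157656) (l 16185752)) (a (l 16192688) (l 16119488)))) (a (c (l 16296128) (l 16189032)) (c (l 16176320) (l 16161368)))))) (a (b (a (c (l 16488760) (c (l 16412368) (l 16250368))) (c (b (l 16411944) (l 16422784)) (b (l 16309192) (l 16315200)))) (c (a (l 16519096) (l 16440128)) (c (l 16305704) (a (l 16287728) (l 16267480))))) (b (c (a (c (l 16404112) (l 16296360)) (c (l 16245480) (l 16282456))) (a (c (l 16263144) (l 16207768)) (c (l 16144240) (l 16147488)))) (c (a (b (l 16365008) (l 16417688)) (b (l 16470064) (l 16364024))) (a (c (l 16271920) (l 16210056)) (c (l 16164552)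 (l 16107224))))))) (b (b (b (a (c (l 16357784) (l 16134392)) (c (a (l 16491560) (l 16485864)) (a (l 16275368) (l 16188752)))) (a (c (c (l 16594520) (l 16573264)) (a (l 16415176) (l 16382144))) (c (a (l 16588888) (l 16657496)) (a (l 16330488) (l 16277256))))) (a (c (b (a (l 16644000) (l 16658848)) (a (l 16665376) (l 16734248))) (b (c (l 16534080) (l 16360664)) (a (l 16526424) (l 16525904)))) (c (b (a (l 16710480) (l 16891232)) (a (l 16812416) (l 16881128))) (b (a (l 16416472) (l 16423504)) (a (l 16537376) (l 16645104)))))) (a (a (l 4) (b (b (c (l 16708800) (l 16617568)) (l 4)) (l 4))) (b (a (b (b (l 16634048) (l 16788216)) (l 4)) (b (c (l 16857840) (l 16697088)) (c (l 16833880) (l 16744504)))) (l 4))))), by decide +kernel⟩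

theorem s2_pm_213_a : ∃ t, chk3 f_pm_213_a t 1 1 1 = true := ex3_a k0_pm_213_a k1_pm_213_a

theorem c_pm_213_a : CertB 0 536870912 536870912 536870912 858993459 64424510 3 eng mog cd1q2a cd1q1 pd3 true true false .pnn 2 1 3
    ndB1q2a ndB1q1 pcB3 Cut.none Ext.none :=
  certB1 (fam := true) (s1 := true) (s2 := false) (a := 2) (b := 1) (c := 3) (cn := .pnn) (n1 := ndB1q2a) (n2 := ndB1q1) (pc := pcB3) (cut := Cut.none) (xt := Ext.none) (P1 := 0) (W1 := 536870912) (P2 := 536870912) (W2 := 536870912) (P3 := 858993459) (W3 := 64424510) (N0 := 3) (En := eng) (mo := mog) (C1 := cd1q2a) (C2 := cd1q1) (C3 := pd3)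
    rfl (fun _ => rfl) s2_pm_213_a

noncomputable def f_pm_213_b : ℕ → ℕ → ℕ → ℕ → Bool := onCell 1239849684 370763052 536870912 536870912 858993459 64424510
    (rowB 3 eng mog cd1q2b cd1q1 pd3 0 true true false .pnn 2 1 3 (qsf 1239849684 370763052 536870912 536870912 3) ndB1q2b ndB1q1 pcB3 Cut.none Ext.none)

def k0_pm_213_b : ∃ t, chk3 f_pm_213_b t 1 1 1 = true :=
  ⟨(b (a (b (a (b (b (a (c (c (l 16451592) (l 16646152)) (c (l 16547240) (l 16303288))) (a (c (l 16625136) (l 16407272)) (l 4))) (a (a (c (l 16590832) (l 16364360)) (l 4)) (l 4))) (l 4)) (l 4)) (l 4)) (l 4)) (l 4)), by decide +kernel⟩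

theorem c_pm_213_b : CertB 1239849684 370763052 536870912 536870912 858993459 64424510 3 eng mog cd1q2b cd1q1 pd3 true true false .pnn 2 1 3
    ndB1q2b ndB1q1 pcB3 Cut.none Ext.none :=
  certB0 (fam := true) (s1 := true) (s2 := false) (a := 2) (b := 1) (c := 3) (cn := .pnn) (n1 := ndB1q2b) (n2 := ndB1q1) (pc := pcB3) (cut := Cut.none) (xt := Ext.none) (P1 := 1239849684) (W1 := 370763052) (P2 := 536870912) (W2 := 536870912) (P3 := 858993459) (W3 := 64424510) (N0 := 3) (En := eng) (mo := mog) (C1 := cd1q2b) (C2 := cd1q1) (C3 := pd3)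
    rfl k0_pm_213_b

noncomputable def f_pm_303 : ℕ → ℕ → ℕ → ℕ → Bool := onCell 1610612736 536870912 0 536870912 858993459 64424510
    (rowB 3 eng mog cd1q3 cd1q0 pd3 2 true true false .npn 3 0 3 (qsf 1610612736 536870912 0 536870912 3) ndB1q3 ndB1q0 pcB3 Cut.none Ext.none)

def k0_pm_303 : ∃ t, chk3 f_pm_303 t 1 1 1 = true :=
  ⟨(a (a (b (b (a (c (b (a (b (l 15484160) (l 15571968)) (b (l 15495744) (l 15583184))) (a (l 1) (l 15720848))) (b (a (b (l 15453360) (l 15556712)) (l 15687912)) (l 322153439255))) (b (c (a (l 15544760) (l 15544712)) (a (l 15488248) (l 15473464))) (a (c (l 15725640) (l 15690712)) (c (l 15725456) (l 15674328))))) (a (l 1) (c (a (l 1) (l 15979720)) (l 295310803527)))) (l 1)) (b (a (b (b (a (c (l 15540176) (l 15455928)) (l 15522776)) (a (l 15684024) (l 15670688))) (b (a (l 15863760) (l 15849520)) (l 287795041287))) (b (a (b (l 15489752) (l 15656896)) (b (l 4) (l 4))) (a (l 15916216) (l 4)))) (a (l 1) (a (l 1) (l 4))))) (l 4)), by decide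 +kernel⟩

theorem c_pm_303 : CertB 1610612736 536870912 0 536870912 858993459 64424510 3 eng mog cd1q3 cd1q0 pd3 true true false .npn 3 0 3
    ndB1q3 ndB1q0 pcB3 Cut.none Ext.none :=
  certB2 (fam := true) (s1 := true) (s2 := false) (a := 3) (b := 0) (c := 3) (cn := .npn) (n1 := ndB1q3) (n2 := ndB1q0) (pc := pcB3) (cut := Cut.none) (xt := Ext.none) (P1 := 1610612736) (W1 := 536870912) (P2 := 0) (W2 := 536870912) (P3 := 858993459) (W3 := 64424510) (N0 := 3) (En := eng) (mo := mog) (C1 := cd1q3) (C2 := cd1q0) (C3 := pd3)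
    rfl (fun _ => rfl) k0_pm_303

noncomputable def f_pm_313 : ℕ → ℕ → ℕ → ℕ → Bool := onCell 1610612736 536870912 536870912 536870912 858993459 64424510
    (rowB 3 eng mog cd1q3 cd1q1 pd3 0 true true false .dn 3 1 3 (qsf 1610612736 536870912 536870912 536870912 3) ndB1q3 ndB1q1 pcB3 Cut.none Ext.none)

def k0_pm_313 : ∃ t, chk3 f_pm_313 t 1 1 1 = true :=
  ⟨(l 4), by decide +kernel⟩

theorem c_pm_313 : CertB 1610612736 536870912 536870912 536870912 858993459 64424510 3 eng mog cd1q3 cd1q1 pd3 true true false .dn 3 1 3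
    ndB1q3 ndB1q1 pcB3 Cut.none Ext.none :=
  certB0 (fam := true) (s1 := true) (s2 := false) (a := 3) (b := 1) (c := 3) (cn := .dn) (n1 := ndB1q3) (n2 := ndB1q1) (pc := pcB3) (cut := Cut.none) (xt := Ext.none) (P1 := 1610612736) (W1 := 536870912) (P2 := 536870912) (W2 := 536870912) (P3 := 858993459) (W3 := 64424510) (N0 := 3) (En := eng) (mo := mog) (C1 := cd1q3) (C2 := cd1q1) (C3 := pd3)
    rfl k0_pm_313

noncomputable def f_mm_001 : ℕ → ℕ → ℕ → ℕ → Bool := onCell 0 536870912 0 536870912 858993459 64424510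
    (rowB 3 eng mog cd1q0 cd1q0 pd1 0 true false false .up 0 0 1 (qsf 0 536870912 0 536870912 1) ndB1q0 ndB1q0 pcB1 Cut.none Ext.none)

def k0_mm_001 : ∃ t, chk3 f_mm_001 t 1 1 1 = true :=
  ⟨(l 4), by decide +kernel⟩

theorem c_mm_001 : CertB 0 536870912 0 536870912 858993459 64424510 3 eng mog cd1q0 cd1q0 pd1 true false false .up 0 0 1
    ndB1q0 ndB1q0 pcB1 Cut.none Ext.none :=
  certB0 (fam := true) (s1 := false) (s2 := false) (a := 0) (b := 0) (c := 1) (cn := .up) (n1 := ndB1q0) (n2 := ndB1q0) (pc := pcB1) (cut := Cut.none) (xt := Ext.none) (P1 := 0) (W1 := 536870912) (P2 := 0) (W2 := 536870912) (P3 := 858993459) (W3 := 64424510) (N0 := 3) (En := eng) (mo := mog) (C1 := cd1q0) (C2 := cd1q0) (C3 := pd1)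
    rfl k0_mm_001

noncomputable def f_mm_011 : ℕ → ℕ → ℕ → ℕ → Bool := onCell 0 536870912 536870912 536870912 858993459 64424510
    (rowB 3 eng mog cd1q0 cd1q1 pd1 0 true false false .pnn 0 1 1 (qsf 0 536870912 536870912 536870912 1) ndB1q0 ndB1q1 pcB1 Cut.none Ext.none)

def k0_mm_011 : ∃ t, chk3 f_mm_011 t 1 1 1 = true :=
  ⟨(l 4), by decide +kernel⟩

theorem c_mm_011 : CertB 0 536870912 536870912 536870912 858993459 64424510 3 eng mog cd1q0 cd1q1 pd1 true false false .pnn 0 1 1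
    ndB1q0 ndB1q1 pcB1 Cut.none Ext.none :=
  certB0 (fam := true) (s1 := false) (s2 := false) (a := 0) (b := 1) (c := 1) (cn := .pnn) (n1 := ndB1q0) (n2 := ndB1q1) (pc := pcB1) (cut := Cut.none) (xt := Ext.none) (P1 := 0) (W1 := 536870912) (P2 := 536870912) (W2 := 536870912) (P3 := 858993459) (W3 := 64424510) (N0 := 3) (En := eng) (mo := mog) (C1 := cd1q0) (C2 := cd1q1) (C3 := pd1)
    rfl k0_mm_011

noncomputable def f_mm_012 : ℕ → ℕ → ℕ → ℕ → Bool := onCell 0 536870912 536870912 536870912 858993459 64424510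
    (rowB 3 eng mog cd1q0 cd1q1 pd2 0 true false false .pnp 0 1 2 (qsf 0 536870912 536870912 536870912 2) ndB1q0 ndB1q1 pcB2 Cut.none Ext.none)

def k0_mm_012 : ∃ t, chk3 f_mm_012 t 1 1 1 = true :=
  ⟨(l 4), by decide +kernel⟩

theorem c_mm_012 : CertB 0 536870912 536870912 536870912 858993459 64424510 3 eng mog cd1q0 cd1q1 pd2 true false false .pnp 0 1 2
    ndB1q0 ndB1q1 pcB2 Cut.none Ext.none :=
  certB0 (fam := true) (s1 := false) (s2 := false) (a := 0) (b := 1) (c := 2) (cn := .pnp) (n1 := ndB1q0) (n2 := ndB1q1) (pc := pcB2) (cut := Cut.none) (xt := Ext.none) (P1 := 0) (W1 := 536870912) (P2 := 536870912) (W2 := 536870912) (P3 := 858993459) (W3 := 64424510) (N0 := 3) (En := eng) (mo := mog) (C1 := cd1q0) (C2 := cd1q1) (C3 := pd2)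
    rfl k0_mm_012

noncomputable def f_mm_022_a : ℕ → ℕ → ℕ → ℕ → Bool := onCell 0 536870912 0 536870912 858993459 64424510
    (rowB 3 eng mog cd1q0 cd1q2a pd2 0 true false false .pp 0 2 2 (qsf 0 536870912 0 536870912 2) ndB1q0 ndB1q2a pcB2 Cut.none Ext.none)

def k0_mm_022_a : ∃ t, chk3 f_mm_022_a t 1 1 1 = true :=
  ⟨(l 5), by decide +kernel⟩

theorem c_mm_022_a : CertB 0 536870912 0 536870912 858993459 64424510 3 eng mog cd1q0 cd1q2a pd2 true false false .pp 0 2 2
    ndB1q0 ndB1q2a pcB2 Cut.none Ext.none :=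
  certB0 (fam := true) (s1 := false) (s2 := false) (a := 0) (b := 2) (c := 2) (cn := .pp) (n1 := ndB1q0) (n2 := ndB1q2a) (pc := pcB2) (cut := Cut.none) (xt := Ext.none) (P1 := 0) (W1 := 536870912) (P2 := 0) (W2 := 536870912) (P3 := 858993459) (W3 := 64424510) (N0 := 3) (En := eng) (mo := mog) (C1 := cd1q0) (C2 := cd1q2a) (C3 := pd2)
    rfl k0_mm_022_a

noncomputable def f_mm_022_b : ℕ → ℕ → ℕ → ℕ → Bool := onCell 0 536870912 1239849684 370763052 858993459 64424510
    (rowB 3 eng mog cd1q0 cd1q2b pd2 0 true false false .pp 0 2 2 (qsf 0 536870912 1239849684 370763052 2) ndB1q0 ndB1q2b pcB2 Cut.none Ext.none)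

def k0_mm_022_b : ∃ t, chk3 f_mm_022_b t 1 1 1 = true :=
  ⟨(l 5), by decide +kernel⟩

theorem c_mm_022_b : CertB 0 536870912 1239849684 370763052 858993459 64424510 3 eng mog cd1q0 cd1q2b pd2 true false false .pp 0 2 2
    ndB1q0 ndB1q2b pcB2 Cut.none Ext.none :=
  certB0 (fam := true) (s1 := false) (s2 := false) (a := 0) (b := 2) (c := 2) (cn := .pp) (n1 := ndB1q0) (n2 := ndB1q2b) (pc := pcB2) (cut := Cut.none) (xt := Ext.none) (P1 := 0) (W1 := 536870912) (P2 := 1239849684) (W2 := 370763052) (P3 := 858993459) (W3 := 64424510) (N0 := 3) (En := eng) (mo := mog) (C1 := cd1q0) (C2 := cd1q2b) (C3 := pd2)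
    rfl k0_mm_022_b

noncomputable def f_mm_023_a : ℕ → ℕ → ℕ → ℕ → Bool := onCell 0 536870912 0 536870912 858993459 64424510
    (rowB 3 eng mog cd1q0 cd1q2a pd3 0 true false false .up 0 2 3 (qsf 0 536870912 0 536870912 3) ndB1q0 ndB1q2a pcB3 Cut.none Ext.none)

def k0_mm_023_a : ∃ t, chk3 f_mm_023_a t 1 1 1 = true :=
  ⟨(l 5), by decide +kernel⟩

theorem c_mm_023_a : CertB 0 536870912 0 536870912 858993459 64424510 3 eng mog cd1q0 cd1q2a pd3 true false false .up 0 2 3
    ndB1q0 ndB1q2a pcB3 Cut.none Ext.none :=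
  certB0 (fam := true) (s1 := false) (s2 := false) (a := 0) (b := 2) (c := 3) (cn := .up) (n1 := ndB1q0) (n2 := ndB1q2a) (pc := pcB3) (cut := Cut.none) (xt := Ext.none) (P1 := 0) (W1 := 536870912) (P2 := 0) (W2 := 536870912) (P3 := 858993459) (W3 := 64424510) (N0 := 3) (En := eng) (mo := mog) (C1 := cd1q0) (C2 := cd1q2a) (C3 := pd3)
    rfl k0_mm_023_a

noncomputable def f_mm_023_b : ℕ → ℕ → ℕ → ℕ → Bool := onCell 0 536870912 1239849684 370763052 858993459 64424510
    (rowB 3 eng mog cd1q0 cd1q2b pd3 0 true false false .up 0 2 3 (qsf 0 536870912 1239849684 370763052 3) ndB1q0 ndB1q2b pcB3 Cut.none Ext.none)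

def k0_mm_023_b : ∃ t, chk3 f_mm_023_b t 1 1 1 = true :=
  ⟨(l 5), by decide +kernel⟩

theorem c_mm_023_b : CertB 0 536870912 1239849684 370763052 858993459 64424510 3 eng mog cd1q0 cd1q2b pd3 true false false .up 0 2 3
    ndB1q0 ndB1q2b pcB3 Cut.none Ext.none :=
  certB0 (fam := true) (s1 := false) (s2 := false) (a := 0) (b := 2) (c := 3) (cn := .up) (n1 := ndB1q0) (n2 := ndB1q2b) (pc := pcB3) (cut := Cut.none) (xt := Ext.none) (P1 := 0) (W1 := 536870912) (P2 := 1239849684) (W2 := 370763052) (P3 := 858993459) (W3 := 64424510) (N0 := 3) (En := eng) (mo := mog) (C1 := cd1q0) (C2 := cd1q2b) (C3 := pd3)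
    rfl k0_mm_023_b

noncomputable def f_mm_033 : ℕ → ℕ → ℕ → ℕ → Bool := onCell 0 536870912 1610612736 536870912 858993459 64424510
    (rowB 3 eng mog cd1q0 cd1q3 pd3 0 true false false .pnn 0 3 3 (qsf 0 536870912 1610612736 536870912 3) ndB1q0 ndB1q3 pcB3 Cut.none Ext.none)

def k0_mm_033 : ∃ t, chk3 f_mm_033 t 1 1 1 = true :=
  ⟨(l 5), by decide +kernel⟩

theorem c_mm_033 : CertB 0 536870912 1610612736 536870912 858993459 64424510 3 eng mog cd1q0 cd1q3 pd3 true false false .pnn 0 3 3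
    ndB1q0 ndB1q3 pcB3 Cut.none Ext.none :=
  certB0 (fam := true) (s1 := false) (s2 := false) (a := 0) (b := 3) (c := 3) (cn := .pnn) (n1 := ndB1q0) (n2 := ndB1q3) (pc := pcB3) (cut := Cut.none) (xt := Ext.none) (P1 := 0) (W1 := 536870912) (P2 := 1610612736) (W2 := 536870912) (P3 := 858993459) (W3 := 64424510) (N0 := 3) (En := eng) (mo := mog) (C1 := cd1q0) (C2 := cd1q3) (C3 := pd3)
    rfl k0_mm_033

noncomputable def f_mm_101 : ℕ → ℕ → ℕ → ℕ → Bool := onCell 536870912 536870912 0 536870912 858993459 64424510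
    (rowB 3 eng mog cd1q1 cd1q0 pd1 0 true false false .npn 1 0 1 (qsf 536870912 536870912 0 536870912 1) ndB1q1 ndB1q0 pcB1 Cut.none Ext.none)

def k0_mm_101 : ∃ t, chk3 f_mm_101 t 1 1 1 = true :=
  ⟨(l 4), by decide +kernel⟩

theorem c_mm_101 : CertB 536870912 536870912 0 536870912 858993459 64424510 3 eng mog cd1q1 cd1q0 pd1 true false false .npn 1 0 1
    ndB1q1 ndB1q0 pcB1 Cut.none Ext.none :=
  certB0 (fam := true) (s1 := false) (s2 := false) (a := 1) (b := 0) (c := 1) (cn := .npn) (n1 := ndB1q1) (n2 := ndB1q0) (pc := pcB1) (cut := Cut.none) (xt := Ext.none) (P1 := 536870912) (W1 := 536870912) (P2 := 0) (W2 := 536870912) (P3 := 858993459) (W3 := 64424510) (N0 := 3) (En := eng) (mo := mog) (C1 := cd1q1) (C2 := cd1q0) (C3 := pd1)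
    rfl k0_mm_101

noncomputable def f_mm_102 : ℕ → ℕ → ℕ → ℕ → Bool := onCell 536870912 536870912 0 536870912 858993459 64424510
    (rowB 3 eng mog cd1q1 cd1q0 pd2 0 true false false .npp 1 0 2 (qsf 536870912 536870912 0 536870912 2) ndB1q1 ndB1q0 pcB2 Cut.none Ext.none)

def k0_mm_102 : ∃ t, chk3 f_mm_102 t 1 1 1 = true :=
  ⟨(l 4), by decide +kernel⟩

theorem c_mm_102 : CertB 536870912 536870912 0 536870912 858993459 64424510 3 eng mog cd1q1 cd1q0 pd2 true false false .npp 1 0 2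
    ndB1q1 ndB1q0 pcB2 Cut.none Ext.none :=
  certB0 (fam := true) (s1 := false) (s2 := false) (a := 1) (b := 0) (c := 2) (cn := .npp) (n1 := ndB1q1) (n2 := ndB1q0) (pc := pcB2) (cut := Cut.none) (xt := Ext.none) (P1 := 536870912) (W1 := 536870912) (P2 := 0) (W2 := 536870912) (P3 := 858993459) (W3 := 64424510) (N0 := 3) (En := eng) (mo := mog) (C1 := cd1q1) (C2 := cd1q0) (C3 := pd2)
    rfl k0_mm_102

noncomputable def f_mm_112 : ℕ → ℕ → ℕ → ℕ → Bool := onCell 536870912 536870912 536870912 536870912 858993459 64424510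
    (rowB 3 eng mog cd1q1 cd1q1 pd2 0 true false false .dn 1 1 2 (qsf 536870912 536870912 536870912 536870912 2) ndB1q1 ndB1q1 pcB2 Cut.none Ext.none)

def k0_mm_112 : ∃ t, chk3 f_mm_112 t 1 1 1 = true :=
  ⟨(l 4), by decide +kernel⟩

theorem c_mm_112 : CertB 536870912 536870912 536870912 536870912 858993459 64424510 3 eng mog cd1q1 cd1q1 pd2 true false false .dn 1 1 2
    ndB1q1 ndB1q1 pcB2 Cut.none Ext.none :=
  certB0 (fam := true) (s1 := false) (s2 := false) (a := 1) (b := 1) (c := 2) (cn := .dn) (n1 := ndB1q1) (n2 := ndB1q1) (pc := pcB2) (cut := Cut.none) (xt := Ext.none) (P1 := 536870912) (W1 := 536870912) (P2 := 536870912) (W2 := 536870912) (P3 := 858993459) (W3 := 64424510) (N0 := 3) (En := eng) (mo := mog) (C1 := cd1q1) (C2 := cd1q1) (C3 := pd2)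
    rfl k0_mm_112

noncomputable def f_mm_113 : ℕ → ℕ → ℕ → ℕ → Bool := onCell 536870912 536870912 536870912 536870912 858993459 64424510
    (rowB 3 eng mog cd1q1 cd1q1 pd3 0 true false false .nn 1 1 3 (qsf 536870912 536870912 536870912 536870912 3) ndB1q1 ndB1q1 pcB3 Cut.none Ext.none)

def k0_mm_113 : ∃ t, chk3 f_mm_113 t 1 1 1 = true :=
  ⟨(l 4), by decide +kernel⟩

theorem c_mm_113 : CertB 536870912 536870912 536870912 536870912 858993459 64424510 3 eng mog cd1q1 cd1q1 pd3 true false false .nn 1 1 3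
    ndB1q1 ndB1q1 pcB3 Cut.none Ext.none :=
  certB0 (fam := true) (s1 := false) (s2 := false) (a := 1) (b := 1) (c := 3) (cn := .nn) (n1 := ndB1q1) (n2 := ndB1q1) (pc := pcB3) (cut := Cut.none) (xt := Ext.none) (P1 := 536870912) (W1 := 536870912) (P2 := 536870912) (W2 := 536870912) (P3 := 858993459) (W3 := 64424510) (N0 := 3) (En := eng) (mo := mog) (C1 := cd1q1) (C2 := cd1q1) (C3 := pd3)
    rfl k0_mm_113

noncomputable def f_mm_123_a : ℕ → ℕ → ℕ → ℕ → Bool := onCell 536870912 536870912 0 536870912 858993459 64424510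
    (rowB 3 eng mog cd1q1 cd1q2a pd3 0 true false false .npn 1 2 3 (qsf 536870912 536870912 0 536870912 3) ndB1q1 ndB1q2a pcB3 Cut.none Ext.none)

def k0_mm_123_a : ∃ t, chk3 f_mm_123_a t 1 1 1 = true :=
  ⟨(l 4), by decide +kernel⟩

theorem c_mm_123_a : CertB 536870912 536870912 0 536870912 858993459 64424510 3 eng mog cd1q1 cd1q2a pd3 true false false .npn 1 2 3
    ndB1q1 ndB1q2a pcB3 Cut.none Ext.none :=
  certB0 (fam := true) (s1 := false) (s2 := false) (a := 1) (b := 2) (c := 3) (cn := .npn) (n1 := ndB1q1) (n2 := ndB1q2a) (pc := pcB3) (cut := Cut.none) (xt := Ext.none) (P1 := 536870912) (W1 := 536870912) (P2 := 0) (W2 := 536870912) (P3 := 858993459) (W3 := 64424510) (N0 := 3) (En := eng) (mo := mog) (C1 := cd1q1) (C2 := cd1q2a) (C3 := pd3)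
    rfl k0_mm_123_a

noncomputable def f_mm_123_b : ℕ → ℕ → ℕ → ℕ → Bool := onCell 536870912 536870912 1239849684 370763052 858993459 64424510
    (rowB 3 eng mog cd1q1 cd1q2b pd3 0 true false false .npn 1 2 3 (qsf 536870912 536870912 1239849684 370763052 3) ndB1q1 ndB1q2b pcB3 Cut.none Ext.none)

def k0_mm_123_b : ∃ t, chk3 f_mm_123_b t 1 1 1 = true :=
  ⟨(l 4), by decide +kernel⟩

theorem c_mm_123_b : CertB 536870912 536870912 1239849684 370763052 858993459 64424510 3 eng mog cd1q1 cd1q2b pd3 true false false .npn 1 2 3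
    ndB1q1 ndB1q2b pcB3 Cut.none Ext.none :=
  certB0 (fam := true) (s1 := false) (s2 := false) (a := 1) (b := 2) (c := 3) (cn := .npn) (n1 := ndB1q1) (n2 := ndB1q2b) (pc := pcB3) (cut := Cut.none) (xt := Ext.none) (P1 := 536870912) (W1 := 536870912) (P2 := 1239849684) (W2 := 370763052) (P3 := 858993459) (W3 := 64424510) (N0 := 3) (En := eng) (mo := mog) (C1 := cd1q1) (C2 := cd1q2b) (C3 := pd3)
    rfl k0_mm_123_b

noncomputable def f_mm_133 : ℕ → ℕ → ℕ → ℕ → Bool := onCell 536870912 536870912 1610612736 536870912 858993459 64424510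
    (rowB 3 eng mog cd1q1 cd1q3 pd3 0 true false false .dn 1 3 3 (qsf 536870912 536870912 1610612736 536870912 3) ndB1q1 ndB1q3 pcB3 Cut.none Ext.none)

def k0_mm_133 : ∃ t, chk3 f_mm_133 t 1 1 1 = true :=
  ⟨(l 4), by decide +kernel⟩

theorem c_mm_133 : CertB 536870912 536870912 1610612736 536870912 858993459 64424510 3 eng mog cd1q1 cd1q3 pd3 true false false .dn 1 3 3
    ndB1q1 ndB1q3 pcB3 Cut.none Ext.none :=
  certB0 (fam := true) (s1 := false) (s2 := false) (a := 1) (b := 3) (c := 3) (cn := .dn) (n1 := ndB1q1) (n2 := ndB1q3) (pc := pcB3) (cut := Cut.none) (xt := Ext.none) (P1 := 536870912) (W1 := 536870912) (P2 := 1610612736) (W2 := 536870912) (P3 := 858993459) (W3 := 64424510) (N0 := 3) (En := eng) (mo := mog) (C1 := cd1q1) (C2 := cd1q3) (C3 := pd3)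
    rfl k0_mm_133

noncomputable def cut_mm_202_a : Cut := Cut.of [[⟨0, 1, 0, 67108864⟩, ⟨1, 0, 0, 67108864⟩, ⟨2, 1, 0, 67108864⟩]]

noncomputable def f_mm_202_a : ℕ → ℕ → ℕ → ℕ → Bool := onCell 0 536870912 0 536870912 858993459 64424510
    (rowB 3 eng mog cd1q2a cd1q0 pd2 0 true false false .pp 2 0 2 (qsf 0 536870912 0 536870912 2) ndB1q2a ndB1q0 pcB2 cut_mm_202_a Ext.none)

def k0_mm_202_a : ∃ t, chk3 f_mm_202_a t 4 2 1 = true :=
  ⟨(b (a (c (b (b (b (c (l 16416664) (l 16359016)) (l 16364768)) (b (l 16453576) (l 16476416))) (b (l 16501648) (l 16514072))) (b (c (b (b (l 16276160) (l 16374416)) (l 16401544)) (b (b (b (l 16262536) (l 16304040)) (l 16333808)) (l 16305304))) (b (l 16463928) (l 16509352)))) (c (b (b (b (c (l 16399328) (l 16313784)) (c (l 16455672) (l 16384896))) (b (l 16465936) (l 16487264))) (b (l 16515256) (l 16536056))) (b (b (b (a (b (l 16324080) (l 16342792)) (b (l 16296744) (l 16356992))) (b (l 16263144) (l 16322496))) (b (l 16305584) (l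 16441360))) (b (b (l 16468928) (l 16493104)) (l 16524576))))) (b (c (b (a (l 16538096) (l 16559808)) (a (l 16564888) (l 16569104))) (b (a (l 16538248) (l 16549352)) (a (l 16554984) (l 16560688)))) (b (a (b (l 16567720) (l 4)) (l 4)) (l 4)))), by decide +kernel⟩

def k1_mm_202_a : ∃ t, chk3 f_mm_202_a t 5 2 1 = true :=
  ⟨(b (c (b (b (a (b (c (a (l 16445432) (l 16415640)) (a (l 16415808) (l 16430856))) (c (l 16475376) (l 16388432))) (b (c (a (l 16429528) (l 16445128)) (a (l 16427232) (l 16425984))) (c (a (l 16494768) (l 16510424)) (b (l 16415768) (l 16449704))))) (b (a (a (l 16480472) (l 16493184)) (a (l 16508248) (l 16525680))) (a (l 16507584) (a (l 16528736) (l 16546152))))) (b (b (a (l 16526024) (l 16556216)) (a (l 16542304) (l 16571272))) (a (b (l 16556168) (l 16566752)) (b (l 16582112) (l 4))))) (b (b (a (b (a (b (l 16293104) (l 16373944)) (c (l 16401168) (l 16305608))) (a (l 16316080) (l 16314592))) (b (b (a (a (l 16393504) (l 16406120)) (c (l 16438672)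 (l 16414600))) (a (l 16375160) (l 16401936))) (a (c (l 16453776) (l 16429904)) (c (l 16477712) (l 16458784))))) (a (b (b (l 16350424) (l 16387096)) (l 16451408)) (b (a (l 16431872) (l 16499600)) (a (l 16503440) (l 16528800))))) (b (a (b (l 16499184) (l 16522624)) (b (l 16542808) (l 16563536))) (a (b (l 16543280) (l 16558600)) (b (l 16577768) (l 4)))))) (a (b (b (c (l 16658280) (l 16609504)) (l 4)) (l 4)) (l 4))), by decide +kernel⟩

def k2_mm_202_a : ∃ t, chk3 f_mm_202_a t 6 8 1 = true :=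
  ⟨(c (b (b (a (a (c (b (l 16497848) (l 16510432)) (b (l 16482872) (l 16497040))) (a (b (l 16507280) (l 16520800)) (b (l 16520584) (l 16534224)))) (a (b (a (l 16513624) (c (l 16552856) (l 16545616))) (a (l 16548392) (l 16563312))) (b (a (a (l 16539768) (l 16547624)) (c (l 16561712) (l 16578744))) (a (l 16558000) (c (l 16596792) (l 16593856)))))) (a (a (b (l 16474608) (l 16486600)) (a (l 16497816) (l 16511368))) (a (b (a (l 16561392) (l 16576488)) (l 16539392)) (b (a (l 16592376) (l 16588056)) (c (l 16593184) (l 16591896)))))) (a (b (a (l 16545472) (l 16590536)) (a (l 16566128) (l 16589528))) (a (b (b (l 16551032) (l 16603832)) (l 16655512)) (b (b (l 16645712) (l 16631752)) (l 4))))) (b (a (b (a (b (a (l 16449520) (l 16465968)) (a (l 16466328) (l 16482680))) (a (b (l 16482440) (l 16499080)) (b (l 16498696) (l 16515328)))) (a (c (l 16484168) (l 16471088)) (a (l 16481112) (l 16497304)))) (b (a (b (a (l 16515808) (l 16491856)) (a (l 16532440) (l 16550448))) (a (b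 (c (l 16555824) (l 16549488)) (l 16569392)) (b (c (l 16574648) (l 16570384)) (l 16568312)))) (a (a (l 16514400) (l 16511448)) (b (a (l 16585464) (l 16605408)) (l 16611000))))) (a (b (a (l 16529216) (b (l 16532904) (l 16568448))) (a (l 16558048) (l 16588560))) (b (a (b (l 16567000) (l 16602240)) (b (l 16625064) (l 16634040))) (a (b (l 16612808) (l 16619080)) (l 4)))))), by decide +kernel⟩

def k3_mm_202_a : ∃ t, chk3 f_mm_202_a t 7 8 1 = true :=
  ⟨(a (b (b (a (b (c (a (c (l 16577480) (l 16596376)) (c (a (l 16611664) (l 16601848)) (b (l 16612336) (l 16620440)))) (a (a (l 16587984) (l 16577640)) (c (a (l 16609984) (l 16621456)) (a (l 16609352) (l 16620976))))) (a (c (c (l 16613000) (l 16611800)) (l 16568224)) (c (c (l 16611272) (l 16611208)) (c (l 16611328) (l 16611640))))) (a (b (a (b (l 6) (c (l 16637952) (l 16637352))) (l 6)) (c (c (a (l 16649544) (l 16661512)) (l 16613760)) (c (l 16635048) (l 16635536)))) (a (b (l 6) (c (a (l 16649800) (l 6)) (l 16643312)))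 (l 6)))) (a (b (a (c (l 16584496) (l 16605384)) (c (a (l 16640776) (l 16631352)) (l 16648720))) (a (c (l 16618512) (l 16641792)) (c (l 16678808) (l 16661680)))) (b (a (c (b (l 16624768) (l 16631120)) (b (l 16647632) (l 16675736))) (a (c (l 16697216) (l 16688792)) (c (l 16707616) (l 16698832)))) (a (c (l 16676904) (l 16679816)) (l 4))))) (b (a (b (a (c (l 16647416) (l 16651360)) (l 4)) (l 4)) (l 4)) (l 4))) (b (a (b (l 6) (b (l 6) (l 4))) (l 6)) (l 4))), by decide +kernel⟩

def k4_mm_202_a : ∃ t, chk3 f_mm_202_a t 3 9 1 = true :=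
  ⟨(a (a (b (b (a (c (l 16583528) (l 16581856)) (c (l 16602224) (l 16605000))) (a (c (l 16594608) (l 16595184)) (l 4))) (l 4)) (l 4)) (l 4)), by decide +kernel⟩

def k5_mm_202_a : ∃ t, chk3 f_mm_202_a t 3 5 1 = true :=
  ⟨(l 4), by decide +kernel⟩

def k6_mm_202_a : ∃ t, chk3 f_mm_202_a t 1 3 1 = true :=
  ⟨(l 4), by decide +kernel⟩

theorem s7_mm_202_a : ∃ t, chk3 f_mm_202_a t 3 8 1 = true := ex3_a k2_mm_202_a k3_mm_202_a

theorem s8_mm_202_a : ∃ t, chk3 f_mm_202_a t 3 4 1 = true := ex3_b s7_mm_202_a k4_mm_202_a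

theorem s9_mm_202_a : ∃ t, chk3 f_mm_202_a t 3 2 1 = true := ex3_b s8_mm_202_a k5_mm_202_a

theorem s10_mm_202_a : ∃ t, chk3 f_mm_202_a t 2 2 1 = true := ex3_a k0_mm_202_a k1_mm_202_a

theorem s11_mm_202_a : ∃ t, chk3 f_mm_202_a t 1 2 1 = true := ex3_a s10_mm_202_a s9_mm_202_a

theorem s12_mm_202_a : ∃ t, chk3 f_mm_202_a t 1 1 1 = true := ex3_b s11_mm_202_a k6_mm_202_a

theorem c_mm_202_a : CertB 0 536870912 0 536870912 858993459 64424510 3 eng mog cd1q2a cd1q0 pd2 true false false .pp 2 0 2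
    ndB1q2a ndB1q0 pcB2 cut_mm_202_a Ext.none :=
  certB0 (fam := true) (s1 := false) (s2 := false) (a := 2) (b := 0) (c := 2) (cn := .pp) (n1 := ndB1q2a) (n2 := ndB1q0) (pc := pcB2) (cut := cut_mm_202_a) (xt := Ext.none) (P1 := 0) (W1 := 536870912) (P2 := 0) (W2 := 536870912) (P3 := 858993459) (W3 := 64424510) (N0 := 3) (En := eng) (mo := mog) (C1 := cd1q2a) (C2 := cd1q0) (C3 := pd2)
    rfl s12_mm_202_a

noncomputable def cut_mm_202_b : Cut := Cut.of [[⟨0, 1, 0, 67108864⟩, ⟨1, 0, 0, 67108864⟩, ⟨2, 1, 0, 67108864⟩]]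

noncomputable def f_mm_202_b : ℕ → ℕ → ℕ → ℕ → Bool := onCell 1073741824 536870912 0 536870912 858993459 64424510
    (rowB 3 eng mog cd1q2b cd1q0 pd2 2 true false false .pp 2 0 2 (qsf 1239849684 370763052 0 536870912 2) ndB1q2b ndB1q0 pcB2 cut_mm_202_b Ext.none)

def k0_mm_202_b : ∃ t, chk3 f_mm_202_b t 2 1 1 = true :=
  ⟨(b (a (l 1) (b (a (b (a (a (l 1) (a (l 1) (b (b (c (l 16364712) (l 16199600)) (l 1)) (l 1)))) (b (c (c (b (l 16343584) (l 16447920)) (a (l 16294064) (l 16310976))) (a (b (c (l 16328464) (l 16282008)) (l 16246296)) (b (l 16216664) (l 16260304)))) (a (l 1) (b (c (l 16473416) (l 16367720)) (l 1))))) (l 1)) (b (a (b (c (c (l 16367832) (l 16206456)) (a (b (l 16252536) (l 16316008)) (l 16150704))) (c (a (l 16451968) (l 16443256)) (c (l 16288032) (a (l 16373832) (l 16363344))))) (c (b (a (l 16304680) (l 16272056)) (l 16394192)) (b (a (l 16183528) (l 16193984)) (c (l 16287160) (l 16294520))))) (a (a (l 1) (a (l 1) (b (l 143914225303) (l 1)))) (b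 (c (a (l 16509040) (l 16480352)) (a (l 16473000) (l 16438120))) (a (l 1) (l 325913439575)))))) (l 1))) (l 1)), by decide +kernel⟩

def k1_mm_202_b : ∃ t, chk3 f_mm_202_b t 3 1 1 = true :=
  ⟨(a (b (b (a (b (a (c (b (l 16220872) (l 16323664)) (b (l 16018832) (l 16160240))) (c (b (l 16149352) (l 16249680)) (a (l 16026536) (l 16032272)))) (a (b (c (l 16428720) (l 16384592)) (c (l 16504712) (l 16502352))) (c (l 16383592) (l 16279776)))) (b (a (c (l 16124128) (l 15809192)) (c (l 16046176) (l 15901656))) (a (c (l 16325072) (l 16289400)) (c (l 16243696) (l 16083912))))) (a (b (a (b (c (l 162705222599) (l 16596136)) (l 1)) (b (c (l 16526512) (l 16532160)) (c (l 16594688) (l 16612312)))) (l 1)) (a (b (c (b (l 16471544) (l 16556688)) (l 16543224)) (a (l 1) (b (l 16623504) (l 1)))) (a (b (l 16447648) (b (l 16587512) (l 1))) (b (l 16405768) (l 4)))))) (l 1)) (b (a (b (c (b (a (l 15820400) (l 15762920)) (a (l 16162096) (l 15853840))) (b (a (l 15909384) (l 15833440)) (a (l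 16045584) (l 15988040)))) (b (a (c (l 16352936) (l 16208808)) (l 4)) (l 4))) (b (b (a (c (l 15605168) (l 15760160)) (c (l 15748584) (l 15692544))) (l 4)) (l 4))) (l 4))), by decide +kernel⟩

theorem s2_mm_202_b : ∃ t, chk3 f_mm_202_b t 1 1 1 = true := ex3_a k0_mm_202_b k1_mm_202_b

theorem c_mm_202_b : CertB 1239849684 370763052 0 536870912 858993459 64424510 3 eng mog cd1q2b cd1q0 pd2 true false false .pp 2 0 2
    ndB1q2b ndB1q0 pcB2 cut_mm_202_b Ext.none :=
  certB2 (fam := true) (s1 := false) (s2 := false) (a := 2) (b := 0) (c := 2) (cn := .pp) (n1 := ndB1q2b) (n2 := ndB1q0) (pc := pcB2) (cut := cut_mm_202_b) (xt := Ext.none) (P1 := 1239849684) (W1 := 370763052) (P2 := 0) (W2 := 536870912) (P3 := 858993459) (W3 := 64424510) (N0 := 3) (En := eng) (mo := mog) (C1 := cd1q2b) (C2 := cd1q0) (C3 := pd2)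
    rfl (fun _ => rfl) s2_mm_202_b

noncomputable def f_mm_203_a : ℕ → ℕ → ℕ → ℕ → Bool := onCell 0 536870912 1610612736 536870912 858993459 64424510
    (rowB 3 eng mog cd1q2a cd1q0 pd3 1 true false false .up 2 0 3 (qsf 0 536870912 0 536870912 3) ndB1q2a ndB1q0 pcB3 Cut.none Ext.none)

def k0_mm_203_a : ∃ t, chk3 f_mm_203_a t 1 1 1 = true :=
  ⟨(l 4), by decide +kernel⟩

theorem c_mm_203_a : CertB 0 536870912 0 536870912 858993459 64424510 3 eng mog cd1q2a cd1q0 pd3 true false false .up 2 0 3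
    ndB1q2a ndB1q0 pcB3 Cut.none Ext.none :=
  certB1 (fam := true) (s1 := false) (s2 := false) (a := 2) (b := 0) (c := 3) (cn := .up) (n1 := ndB1q2a) (n2 := ndB1q0) (pc := pcB3) (cut := Cut.none) (xt := Ext.none) (P1 := 0) (W1 := 536870912) (P2 := 0) (W2 := 536870912) (P3 := 858993459) (W3 := 64424510) (N0 := 3) (En := eng) (mo := mog) (C1 := cd1q2a) (C2 := cd1q0) (C3 := pd3)
    rfl (fun _ => rfl) k0_mm_203_a

noncomputable def f_mm_203_b : ℕ → ℕ → ℕ → ℕ → Bool := onCell 1239849684 370763052 1610612736 536870912 858993459 64424510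
    (rowB 3 eng mog cd1q2b cd1q0 pd3 1 true false false .up 2 0 3 (qsf 1239849684 370763052 0 536870912 3) ndB1q2b ndB1q0 pcB3 Cut.none Ext.none)

def k0_mm_203_b : ∃ t, chk3 f_mm_203_b t 1 1 1 = true :=
  ⟨(b (b (l 4) (l 4)) (l 4)), by decide +kernel⟩

theorem c_mm_203_b : CertB 1239849684 370763052 0 536870912 858993459 64424510 3 eng mog cd1q2b cd1q0 pd3 true false false .up 2 0 3
    ndB1q2b ndB1q0 pcB3 Cut.none Ext.none :=
  certB1 (fam := true) (s1 := false) (s2 := false) (a := 2) (b := 0) (c := 3) (cn := .up) (n1 := ndB1q2b) (n2 := ndB1q0) (pc := pcB3) (cut := Cut.none) (xt := Ext.none) (P1 := 1239849684) (W1 := 370763052) (P2 := 0) (W2 := 536870912) (P3 := 858993459) (W3 := 64424510) (N0 := 3) (En := eng) (mo := mog) (C1 := cd1q2b) (C2 := cd1q0) (C3 := pd3)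
    rfl (fun _ => rfl) k0_mm_203_b

noncomputable def f_mm_213_a : ℕ → ℕ → ℕ → ℕ → Bool := onCell 0 536870912 536870912 536870912 858993459 64424510
    (rowB 3 eng mog cd1q2a cd1q1 pd3 0 true false false .pnn 2 1 3 (qsf 0 536870912 536870912 536870912 3) ndB1q2a ndB1q1 pcB3 Cut.none Ext.none)

def k0_mm_213_a : ∃ t, chk3 f_mm_213_a t 1 1 1 = true :=
  ⟨(l 4), by decide +kernel⟩

theorem c_mm_213_a : CertB 0 536870912 536870912 536870912 858993459 64424510 3 eng mog cd1q2a cd1q1 pd3 true false false .pnn 2 1 3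
    ndB1q2a ndB1q1 pcB3 Cut.none Ext.none :=
  certB0 (fam := true) (s1 := false) (s2 := false) (a := 2) (b := 1) (c := 3) (cn := .pnn) (n1 := ndB1q2a) (n2 := ndB1q1) (pc := pcB3) (cut := Cut.none) (xt := Ext.none) (P1 := 0) (W1 := 536870912) (P2 := 536870912) (W2 := 536870912) (P3 := 858993459) (W3 := 64424510) (N0 := 3) (En := eng) (mo := mog) (C1 := cd1q2a) (C2 := cd1q1) (C3 := pd3)
    rfl k0_mm_213_a

noncomputable def f_mm_213_b : ℕ → ℕ → ℕ → ℕ → Bool := onCell 1239849684 370763052 536870912 536870912 858993459 64424510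
    (rowB 3 eng mog cd1q2b cd1q1 pd3 0 true false false .pnn 2 1 3 (qsf 1239849684 370763052 536870912 536870912 3) ndB1q2b ndB1q1 pcB3 Cut.none Ext.none)

def k0_mm_213_b : ∃ t, chk3 f_mm_213_b t 1 1 1 = true :=
  ⟨(l 4), by decide +kernel⟩

theorem c_mm_213_b : CertB 1239849684 370763052 536870912 536870912 858993459 64424510 3 eng mog cd1q2b cd1q1 pd3 true false false .pnn 2 1 3
    ndB1q2b ndB1q1 pcB3 Cut.none Ext.none :=
  certB0 (fam := true) (s1 := false) (s2 := false) (a := 2) (b := 1) (c := 3) (cn := .pnn) (n1 := ndB1q2b) (n2 := ndB1q1) (pc := pcB3) (cut := Cut.none) (xt := Ext.none) (P1 := 1239849684) (W1 := 370763052) (P2 := 536870912) (W2 := 536870912) (P3 := 858993459) (W3 := 64424510) (N0 := 3) (En := eng) (mo := mog) (C1 := cd1q2b) (C2 := cd1q1) (C3 := pd3)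
    rfl k0_mm_213_b

noncomputable def f_mm_303 : ℕ → ℕ → ℕ → ℕ → Bool := onCell 1610612736 536870912 0 536870912 858993459 64424510
    (rowB 3 eng mog cd1q3 cd1q0 pd3 2 true false false .npn 3 0 3 (qsf 1610612736 536870912 0 536870912 3) ndB1q3 ndB1q0 pcB3 Cut.none Ext.none)

def k0_mm_303 : ∃ t, chk3 f_mm_303 t 1 1 1 = true :=
  ⟨(a (a (b (l 4) (l 1)) (l 4)) (l 4)), by decide +kernel⟩

theorem c_mm_303 : CertB 1610612736 536870912 0 536870912 858993459 64424510 3 eng mog cd1q3 cd1q0 pd3 true false false .npn 3 0 3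
    ndB1q3 ndB1q0 pcB3 Cut.none Ext.none :=
  certB2 (fam := true) (s1 := false) (s2 := false) (a := 3) (b := 0) (c := 3) (cn := .npn) (n1 := ndB1q3) (n2 := ndB1q0) (pc := pcB3) (cut := Cut.none) (xt := Ext.none) (P1 := 1610612736) (W1 := 536870912) (P2 := 0) (W2 := 536870912) (P3 := 858993459) (W3 := 64424510) (N0 := 3) (En := eng) (mo := mog) (C1 := cd1q3) (C2 := cd1q0) (C3 := pd3)
    rfl (fun _ => rfl) k0_mm_303

noncomputable def f_mm_313 : ℕ → ℕ → ℕ → ℕ → Bool := onCell 1610612736 536870912 536870912 536870912 858993459 64424510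
    (rowB 3 eng mog cd1q3 cd1q1 pd3 0 true false false .dn 3 1 3 (qsf 1610612736 536870912 536870912 536870912 3) ndB1q3 ndB1q1 pcB3 Cut.none Ext.none)

def k0_mm_313 : ∃ t, chk3 f_mm_313 t 1 1 1 = true :=
  ⟨(l 4), by decide +kernel⟩

theorem c_mm_313 : CertB 1610612736 536870912 536870912 536870912 858993459 64424510 3 eng mog cd1q3 cd1q1 pd3 true false false .dn 3 1 3
    ndB1q3 ndB1q1 pcB3 Cut.none Ext.none :=
  certB0 (fam := true) (s1 := false) (s2 := false) (a := 3) (b := 1) (c := 3) (cn := .dn) (n1 := ndB1q3) (n2 := ndB1q1) (pc := pcB3) (cut := Cut.none) (xt := Ext.none) (P1 := 1610612736) (W1 := 536870912) (P2 := 536870912) (W2 := 536870912) (P3 := 858993459) (W3 := 64424510) (N0 := 3) (En := eng) (mo := mog) (C1 := cd1q3) (C2 := cd1q1) (C3 := pd3)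
    rfl k0_mm_313

end Pool.Agent.Strip051.G.I8000_8600.Tab.C.BA11

namespace Pool.Agent.Strip051.G.I8000_8600.Tab.C.BA12

open Pool.Agent.Strip051.PB Pool.Agent.Strip051.PB.T
open Pool.Agent.Strip051.G.I8000_8600.Tab

noncomputable def f_pp_001 : ℕ → ℕ → ℕ → ℕ → Bool := onCell 0 536870912 0 536870912 858993459 64424510
    (rowB 3 eng mog cd1q0 cd2q0 pd1 0 true true true .up 0 0 1 (qsf 0 536870912 0 536870912 1) ndB1q0 ndB2q0 pcB1 Cut.none Ext.none)

def k0_pp_001 : ∃ t, chk3 f_pp_001 t 1 1 1 = true :=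
  ⟨(l 4), by decide +kernel⟩

theorem c_pp_001 : CertB 0 536870912 0 536870912 858993459 64424510 3 eng mog cd1q0 cd2q0 pd1 true true true .up 0 0 1
    ndB1q0 ndB2q0 pcB1 Cut.none Ext.none :=
  certB0 (fam := true) (s1 := true) (s2 := true) (a := 0) (b := 0) (c := 1) (cn := .up) (n1 := ndB1q0) (n2 := ndB2q0) (pc := pcB1) (cut := Cut.none) (xt := Ext.none) (P1 := 0) (W1 := 536870912) (P2 := 0) (W2 := 536870912) (P3 := 858993459) (W3 := 64424510) (N0 := 3) (En := eng) (mo := mog) (C1 := cd1q0) (C2 := cd2q0) (C3 := pd1)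
    rfl k0_pp_001

noncomputable def f_pp_011 : ℕ → ℕ → ℕ → ℕ → Bool := onCell 0 536870912 536870912 536870912 858993459 64424510
    (rowB 3 eng mog cd1q0 cd2q1 pd1 0 true true true .pnn 0 1 1 (qsf 0 536870912 536870912 536870912 1) ndB1q0 ndB2q1 pcB1 Cut.none Ext.none)

def k0_pp_011 : ∃ t, chk3 f_pp_011 t 1 1 1 = true :=
  ⟨(l 4), by decide +kernel⟩

theorem c_pp_011 : CertB 0 536870912 536870912 536870912 858993459 64424510 3 eng mog cd1q0 cd2q1 pd1 true true true .pnn 0 1 1
    ndB1q0 ndB2q1 pcB1 Cut.none Ext.none :=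
  certB0 (fam := true) (s1 := true) (s2 := true) (a := 0) (b := 1) (c := 1) (cn := .pnn) (n1 := ndB1q0) (n2 := ndB2q1) (pc := pcB1) (cut := Cut.none) (xt := Ext.none) (P1 := 0) (W1 := 536870912) (P2 := 536870912) (W2 := 536870912) (P3 := 858993459) (W3 := 64424510) (N0 := 3) (En := eng) (mo := mog) (C1 := cd1q0) (C2 := cd2q1) (C3 := pd1)
    rfl k0_pp_011

noncomputable def f_pp_012 : ℕ → ℕ → ℕ → ℕ → Bool := onCell 0 536870912 536870912 536870912 858993459 64424510
    (rowB 3 eng mog cd1q0 cd2q1 pd2 0 true true true .pnp 0 1 2 (qsf 0 536870912 536870912 536870912 2) ndB1q0 ndB2q1 pcB2 Cut.none Ext.none)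

def k0_pp_012 : ∃ t, chk3 f_pp_012 t 1 1 1 = true :=
  ⟨(l 4), by decide +kernel⟩

theorem c_pp_012 : CertB 0 536870912 536870912 536870912 858993459 64424510 3 eng mog cd1q0 cd2q1 pd2 true true true .pnp 0 1 2
    ndB1q0 ndB2q1 pcB2 Cut.none Ext.none :=
  certB0 (fam := true) (s1 := true) (s2 := true) (a := 0) (b := 1) (c := 2) (cn := .pnp) (n1 := ndB1q0) (n2 := ndB2q1) (pc := pcB2) (cut := Cut.none) (xt := Ext.none) (P1 := 0) (W1 := 536870912) (P2 := 536870912) (W2 := 536870912) (P3 := 858993459) (W3 := 64424510) (N0 := 3) (En := eng) (mo := mog) (C1 := cd1q0) (C2 := cd2q1) (C3 := pd2)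
    rfl k0_pp_012

noncomputable def f_pp_022 : ℕ → ℕ → ℕ → ℕ → Bool := onCell 0 536870912 1073741824 536870912 858993459 64424510
    (rowB 3 eng mog cd1q0 cd2q2 pd2 0 true true true .pp 0 2 2 (qsf 0 536870912 1073741824 536870912 2) ndB1q0 ndB2q2 pcB2 Cut.none Ext.none)

def k0_pp_022 : ∃ t, chk3 f_pp_022 t 1 1 1 = true :=
  ⟨(l 4), by decide +kernel⟩

theorem c_pp_022 : CertB 0 536870912 1073741824 536870912 858993459 64424510 3 eng mog cd1q0 cd2q2 pd2 true true true .pp 0 2 2
    ndB1q0 ndB2q2 pcB2 Cut.none Ext.none :=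
  certB0 (fam := true) (s1 := true) (s2 := true) (a := 0) (b := 2) (c := 2) (cn := .pp) (n1 := ndB1q0) (n2 := ndB2q2) (pc := pcB2) (cut := Cut.none) (xt := Ext.none) (P1 := 0) (W1 := 536870912) (P2 := 1073741824) (W2 := 536870912) (P3 := 858993459) (W3 := 64424510) (N0 := 3) (En := eng) (mo := mog) (C1 := cd1q0) (C2 := cd2q2) (C3 := pd2)
    rfl k0_pp_022

noncomputable def f_pp_023 : ℕ → ℕ → ℕ → ℕ → Bool := onCell 0 536870912 1073741824 536870912 858993459 64424510
    (rowB 3 eng mog cd1q0 cd2q2 pd3 0 true true true .up 0 2 3 (qsf 0 536870912 1073741824 536870912 3) ndB1q0 ndB2q2 pcB3 Cut.none Ext.none)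

def k0_pp_023 : ∃ t, chk3 f_pp_023 t 1 1 1 = true :=
  ⟨(l 4), by decide +kernel⟩

theorem c_pp_023 : CertB 0 536870912 1073741824 536870912 858993459 64424510 3 eng mog cd1q0 cd2q2 pd3 true true true .up 0 2 3
    ndB1q0 ndB2q2 pcB3 Cut.none Ext.none :=
  certB0 (fam := true) (s1 := true) (s2 := true) (a := 0) (b := 2) (c := 3) (cn := .up) (n1 := ndB1q0) (n2 := ndB2q2) (pc := pcB3) (cut := Cut.none) (xt := Ext.none) (P1 := 0) (W1 := 536870912) (P2 := 1073741824) (W2 := 536870912) (P3 := 858993459) (W3 := 64424510) (N0 := 3) (En := eng) (mo := mog) (C1 := cd1q0) (C2 := cd2q2) (C3 := pd3)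
    rfl k0_pp_023

noncomputable def f_pp_033 : ℕ → ℕ → ℕ → ℕ → Bool := onCell 0 536870912 0 1230186008 858993459 64424510
    (rowB 3 eng mog cd1q0 cd2q3 pd3 0 true true true .pnn 0 3 3 (qsf 0 536870912 0 1230186008 3) ndB1q0 ndB2q3 pcB3 Cut.none Ext.none)

def k0_pp_033 : ∃ t, chk3 f_pp_033 t 1 1 1 = true :=
  ⟨(b (l 4) (l 4)), by decide +kernel⟩

theorem c_pp_033 : CertB 0 536870912 0 1230186008 858993459 64424510 3 eng mog cd1q0 cd2q3 pd3 true true true .pnn 0 3 3
    ndB1q0 ndB2q3 pcB3 Cut.none Ext.none :=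
  certB0 (fam := true) (s1 := true) (s2 := true) (a := 0) (b := 3) (c := 3) (cn := .pnn) (n1 := ndB1q0) (n2 := ndB2q3) (pc := pcB3) (cut := Cut.none) (xt := Ext.none) (P1 := 0) (W1 := 536870912) (P2 := 0) (W2 := 1230186008) (P3 := 858993459) (W3 := 64424510) (N0 := 3) (En := eng) (mo := mog) (C1 := cd1q0) (C2 := cd2q3) (C3 := pd3)
    rfl k0_pp_033

noncomputable def f_pp_101 : ℕ → ℕ → ℕ → ℕ → Bool := onCell 536870912 536870912 0 536870912 858993459 64424510
    (rowB 3 eng mog cd1q1 cd2q0 pd1 0 true true true .npn 1 0 1 (qsf 536870912 536870912 0 536870912 1) ndB1q1 ndB2q0 pcB1 Cut.none Ext.none)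

def k0_pp_101 : ∃ t, chk3 f_pp_101 t 1 1 1 = true :=
  ⟨(l 4), by decide +kernel⟩

theorem c_pp_101 : CertB 536870912 536870912 0 536870912 858993459 64424510 3 eng mog cd1q1 cd2q0 pd1 true true true .npn 1 0 1
    ndB1q1 ndB2q0 pcB1 Cut.none Ext.none :=
  certB0 (fam := true) (s1 := true) (s2 := true) (a := 1) (b := 0) (c := 1) (cn := .npn) (n1 := ndB1q1) (n2 := ndB2q0) (pc := pcB1) (cut := Cut.none) (xt := Ext.none) (P1 := 536870912) (W1 := 536870912) (P2 := 0) (W2 := 536870912) (P3 := 858993459) (W3 := 64424510) (N0 := 3) (En := eng) (mo := mog) (C1 := cd1q1) (C2 := cd2q0) (C3 := pd1)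
    rfl k0_pp_101

noncomputable def f_pp_102 : ℕ → ℕ → ℕ → ℕ → Bool := onCell 536870912 536870912 0 536870912 858993459 64424510
    (rowB 3 eng mog cd1q1 cd2q0 pd2 0 true true true .npp 1 0 2 (qsf 536870912 536870912 0 536870912 2) ndB1q1 ndB2q0 pcB2 Cut.none Ext.none)

def k0_pp_102 : ∃ t, chk3 f_pp_102 t 1 1 1 = true :=
  ⟨(l 4), by decide +kernel⟩

theorem c_pp_102 : CertB 536870912 536870912 0 536870912 858993459 64424510 3 eng mog cd1q1 cd2q0 pd2 true true true .npp 1 0 2
    ndB1q1 ndB2q0 pcB2 Cut.none Ext.none :=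
  certB0 (fam := true) (s1 := true) (s2 := true) (a := 1) (b := 0) (c := 2) (cn := .npp) (n1 := ndB1q1) (n2 := ndB2q0) (pc := pcB2) (cut := Cut.none) (xt := Ext.none) (P1 := 536870912) (W1 := 536870912) (P2 := 0) (W2 := 536870912) (P3 := 858993459) (W3 := 64424510) (N0 := 3) (En := eng) (mo := mog) (C1 := cd1q1) (C2 := cd2q0) (C3 := pd2)
    rfl k0_pp_102

noncomputable def f_pp_112 : ℕ → ℕ → ℕ → ℕ → Bool := onCell 536870912 536870912 536870912 536870912 858993459 64424510
    (rowB 3 eng mog cd1q1 cd2q1 pd2 0 true true true .dn 1 1 2 (qsf 536870912 536870912 536870912 536870912 2) ndB1q1 ndB2q1 pcB2 Cut.none Ext.none)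

def k0_pp_112 : ∃ t, chk3 f_pp_112 t 1 1 1 = true :=
  ⟨(l 4), by decide +kernel⟩

theorem c_pp_112 : CertB 536870912 536870912 536870912 536870912 858993459 64424510 3 eng mog cd1q1 cd2q1 pd2 true true true .dn 1 1 2
    ndB1q1 ndB2q1 pcB2 Cut.none Ext.none :=
  certB0 (fam := true) (s1 := true) (s2 := true) (a := 1) (b := 1) (c := 2) (cn := .dn) (n1 := ndB1q1) (n2 := ndB2q1) (pc := pcB2) (cut := Cut.none) (xt := Ext.none) (P1 := 536870912) (W1 := 536870912) (P2 := 536870912) (W2 := 536870912) (P3 := 858993459) (W3 := 64424510) (N0 := 3) (En := eng) (mo := mog) (C1 := cd1q1) (C2 := cd2q1) (C3 := pd2)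
    rfl k0_pp_112

noncomputable def f_pp_113 : ℕ → ℕ → ℕ → ℕ → Bool := onCell 536870912 536870912 536870912 536870912 858993459 64424510
    (rowB 3 eng mog cd1q1 cd2q1 pd3 0 true true true .nn 1 1 3 (qsf 536870912 536870912 536870912 536870912 3) ndB1q1 ndB2q1 pcB3 Cut.none Ext.none)

def k0_pp_113 : ∃ t, chk3 f_pp_113 t 1 1 1 = true :=
  ⟨(l 4), by decide +kernel⟩

theorem c_pp_113 : CertB 536870912 536870912 536870912 536870912 858993459 64424510 3 eng mog cd1q1 cd2q1 pd3 true true true .nn 1 1 3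
    ndB1q1 ndB2q1 pcB3 Cut.none Ext.none :=
  certB0 (fam := true) (s1 := true) (s2 := true) (a := 1) (b := 1) (c := 3) (cn := .nn) (n1 := ndB1q1) (n2 := ndB2q1) (pc := pcB3) (cut := Cut.none) (xt := Ext.none) (P1 := 536870912) (W1 := 536870912) (P2 := 536870912) (W2 := 536870912) (P3 := 858993459) (W3 := 64424510) (N0 := 3) (En := eng) (mo := mog) (C1 := cd1q1) (C2 := cd2q1) (C3 := pd3)
    rfl k0_pp_113

noncomputable def f_pp_123 : ℕ → ℕ → ℕ → ℕ → Bool := onCell 536870912 536870912 1073741824 536870912 858993459 64424510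
    (rowB 3 eng mog cd1q1 cd2q2 pd3 0 true true true .npn 1 2 3 (qsf 536870912 536870912 1073741824 536870912 3) ndB1q1 ndB2q2 pcB3 Cut.none Ext.none)

def k0_pp_123 : ∃ t, chk3 f_pp_123 t 1 1 1 = true :=
  ⟨(l 4), by decide +kernel⟩

theorem c_pp_123 : CertB 536870912 536870912 1073741824 536870912 858993459 64424510 3 eng mog cd1q1 cd2q2 pd3 true true true .npn 1 2 3
    ndB1q1 ndB2q2 pcB3 Cut.none Ext.none :=
  certB0 (fam := true) (s1 := true) (s2 := true) (a := 1) (b := 2) (c := 3) (cn := .npn) (n1 := ndB1q1) (n2 := ndB2q2) (pc := pcB3) (cut := Cut.none) (xt := Ext.none) (P1 := 536870912) (W1 := 536870912) (P2 := 1073741824) (W2 := 536870912) (P3 := 858993459) (W3 := 64424510) (N0 := 3) (En := eng) (mo := mog) (C1 := cd1q1) (C2 := cd2q2) (C3 := pd3)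
    rfl k0_pp_123

noncomputable def f_pp_133 : ℕ → ℕ → ℕ → ℕ → Bool := onCell 536870912 536870912 0 1230186008 858993459 64424510
    (rowB 3 eng mog cd1q1 cd2q3 pd3 0 true true true .dn 1 3 3 (qsf 536870912 536870912 0 1230186008 3) ndB1q1 ndB2q3 pcB3 Cut.none Ext.none)

def k0_pp_133 : ∃ t, chk3 f_pp_133 t 1 1 1 = true :=
  ⟨(l 4), by decide +kernel⟩

theorem c_pp_133 : CertB 536870912 536870912 0 1230186008 858993459 64424510 3 eng mog cd1q1 cd2q3 pd3 true true true .dn 1 3 3
    ndB1q1 ndB2q3 pcB3 Cut.none Ext.none :=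
  certB0 (fam := true) (s1 := true) (s2 := true) (a := 1) (b := 3) (c := 3) (cn := .dn) (n1 := ndB1q1) (n2 := ndB2q3) (pc := pcB3) (cut := Cut.none) (xt := Ext.none) (P1 := 536870912) (W1 := 536870912) (P2 := 0) (W2 := 1230186008) (P3 := 858993459) (W3 := 64424510) (N0 := 3) (En := eng) (mo := mog) (C1 := cd1q1) (C2 := cd2q3) (C3 := pd3)
    rfl k0_pp_133

noncomputable def f_pp_202_a : ℕ → ℕ → ℕ → ℕ → Bool := onCell 0 536870912 0 536870912 858993459 64424510
    (rowB 3 eng mog cd1q2a cd2q0 pd2 0 true true true .pp 2 0 2 (qsf 0 536870912 0 536870912 2) ndB1q2a ndB2q0 pcB2 Cut.none Ext.none)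

def k0_pp_202_a : ∃ t, chk3 f_pp_202_a t 1 1 1 = true :=
  ⟨(l 5), by decide +kernel⟩

theorem c_pp_202_a : CertB 0 536870912 0 536870912 858993459 64424510 3 eng mog cd1q2a cd2q0 pd2 true true true .pp 2 0 2
    ndB1q2a ndB2q0 pcB2 Cut.none Ext.none :=
  certB0 (fam := true) (s1 := true) (s2 := true) (a := 2) (b := 0) (c := 2) (cn := .pp) (n1 := ndB1q2a) (n2 := ndB2q0) (pc := pcB2) (cut := Cut.none) (xt := Ext.none) (P1 := 0) (W1 := 536870912) (P2 := 0) (W2 := 536870912) (P3 := 858993459) (W3 := 64424510) (N0 := 3) (En := eng) (mo := mog) (C1 := cd1q2a) (C2 := cd2q0) (C3 := pd2)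
    rfl k0_pp_202_a

noncomputable def f_pp_202_b : ℕ → ℕ → ℕ → ℕ → Bool := onCell 1239849684 370763052 0 536870912 858993459 64424510
    (rowB 3 eng mog cd1q2b cd2q0 pd2 0 true true true .pp 2 0 2 (qsf 1239849684 370763052 0 536870912 2) ndB1q2b ndB2q0 pcB2 Cut.none Ext.none)

def k0_pp_202_b : ∃ t, chk3 f_pp_202_b t 1 1 1 = true :=
  ⟨(l 5), by decide +kernel⟩

theorem c_pp_202_b : CertB 1239849684 370763052 0 536870912 858993459 64424510 3 eng mog cd1q2b cd2q0 pd2 true true true .pp 2 0 2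
    ndB1q2b ndB2q0 pcB2 Cut.none Ext.none :=
  certB0 (fam := true) (s1 := true) (s2 := true) (a := 2) (b := 0) (c := 2) (cn := .pp) (n1 := ndB1q2b) (n2 := ndB2q0) (pc := pcB2) (cut := Cut.none) (xt := Ext.none) (P1 := 1239849684) (W1 := 370763052) (P2 := 0) (W2 := 536870912) (P3 := 858993459) (W3 := 64424510) (N0 := 3) (En := eng) (mo := mog) (C1 := cd1q2b) (C2 := cd2q0) (C3 := pd2)
    rfl k0_pp_202_b

noncomputable def f_pp_203_a : ℕ → ℕ → ℕ → ℕ → Bool := onCell 0 536870912 0 536870912 858993459 64424510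
    (rowB 3 eng mog cd1q2a cd2q0 pd3 0 true true true .up 2 0 3 (qsf 0 536870912 0 536870912 3) ndB1q2a ndB2q0 pcB3 Cut.none Ext.none)

def k0_pp_203_a : ∃ t, chk3 f_pp_203_a t 1 1 1 = true :=
  ⟨(l 5), by decide +kernel⟩

theorem c_pp_203_a : CertB 0 536870912 0 536870912 858993459 64424510 3 eng mog cd1q2a cd2q0 pd3 true true true .up 2 0 3
    ndB1q2a ndB2q0 pcB3 Cut.none Ext.none :=
  certB0 (fam := true) (s1 := true) (s2 := true) (a := 2) (b := 0) (c := 3) (cn := .up) (n1 := ndB1q2a) (n2 := ndB2q0) (pc := pcB3) (cut := Cut.none) (xt := Ext.none) (P1 := 0) (W1 := 536870912) (P2 := 0) (W2 := 536870912) (P3 := 858993459) (W3 := 64424510) (N0 := 3) (En := eng) (mo := mog) (C1 := cd1q2a) (C2 := cd2q0) (C3 := pd3)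
    rfl k0_pp_203_a

noncomputable def f_pp_203_b : ℕ → ℕ → ℕ → ℕ → Bool := onCell 1239849684 370763052 0 536870912 858993459 64424510
    (rowB 3 eng mog cd1q2b cd2q0 pd3 0 true true true .up 2 0 3 (qsf 1239849684 370763052 0 536870912 3) ndB1q2b ndB2q0 pcB3 Cut.none Ext.none)

def k0_pp_203_b : ∃ t, chk3 f_pp_203_b t 1 1 1 = true :=
  ⟨(l 5), by decide +kernel⟩

theorem c_pp_203_b : CertB 1239849684 370763052 0 536870912 858993459 64424510 3 eng mog cd1q2b cd2q0 pd3 true true true .up 2 0 3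
    ndB1q2b ndB2q0 pcB3 Cut.none Ext.none :=
  certB0 (fam := true) (s1 := true) (s2 := true) (a := 2) (b := 0) (c := 3) (cn := .up) (n1 := ndB1q2b) (n2 := ndB2q0) (pc := pcB3) (cut := Cut.none) (xt := Ext.none) (P1 := 1239849684) (W1 := 370763052) (P2 := 0) (W2 := 536870912) (P3 := 858993459) (W3 := 64424510) (N0 := 3) (En := eng) (mo := mog) (C1 := cd1q2b) (C2 := cd2q0) (C3 := pd3)
    rfl k0_pp_203_b

noncomputable def f_pp_213_a : ℕ → ℕ → ℕ → ℕ → Bool := onCell 0 536870912 536870912 536870912 858993459 64424510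
    (rowB 3 eng mog cd1q2a cd2q1 pd3 0 true true true .pnn 2 1 3 (qsf 0 536870912 536870912 536870912 3) ndB1q2a ndB2q1 pcB3 Cut.none Ext.none)

def k0_pp_213_a : ∃ t, chk3 f_pp_213_a t 1 1 1 = true :=
  ⟨(l 4), by decide +kernel⟩

theorem c_pp_213_a : CertB 0 536870912 536870912 536870912 858993459 64424510 3 eng mog cd1q2a cd2q1 pd3 true true true .pnn 2 1 3
    ndB1q2a ndB2q1 pcB3 Cut.none Ext.none :=
  certB0 (fam := true) (s1 := true) (s2 := true) (a := 2) (b := 1) (c := 3) (cn := .pnn) (n1 := ndB1q2a) (n2 := ndB2q1) (pc := pcB3) (cut := Cut.none) (xt := Ext.none) (P1 := 0) (W1 := 536870912) (P2 := 536870912) (W2 := 536870912) (P3 := 858993459) (W3 := 64424510) (N0 := 3) (En := eng) (mo := mog) (C1 := cd1q2a) (C2 := cd2q1) (C3 := pd3)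
    rfl k0_pp_213_a

noncomputable def f_pp_213_b : ℕ → ℕ → ℕ → ℕ → Bool := onCell 1239849684 370763052 536870912 536870912 858993459 64424510
    (rowB 3 eng mog cd1q2b cd2q1 pd3 0 true true true .pnn 2 1 3 (qsf 1239849684 370763052 536870912 536870912 3) ndB1q2b ndB2q1 pcB3 Cut.none Ext.none)

def k0_pp_213_b : ∃ t, chk3 f_pp_213_b t 1 1 1 = true :=
  ⟨(l 4), by decide +kernel⟩

theorem c_pp_213_b : CertB 1239849684 370763052 536870912 536870912 858993459 64424510 3 eng mog cd1q2b cd2q1 pd3 true true true .pnn 2 1 3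
    ndB1q2b ndB2q1 pcB3 Cut.none Ext.none :=
  certB0 (fam := true) (s1 := true) (s2 := true) (a := 2) (b := 1) (c := 3) (cn := .pnn) (n1 := ndB1q2b) (n2 := ndB2q1) (pc := pcB3) (cut := Cut.none) (xt := Ext.none) (P1 := 1239849684) (W1 := 370763052) (P2 := 536870912) (W2 := 536870912) (P3 := 858993459) (W3 := 64424510) (N0 := 3) (En := eng) (mo := mog) (C1 := cd1q2b) (C2 := cd2q1) (C3 := pd3)
    rfl k0_pp_213_b

noncomputable def f_pp_303 : ℕ → ℕ → ℕ → ℕ → Bool := onCell 1610612736 536870912 0 536870912 858993459 64424510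
    (rowB 3 eng mog cd1q3 cd2q0 pd3 0 true true true .npn 3 0 3 (qsf 1610612736 536870912 0 536870912 3) ndB1q3 ndB2q0 pcB3 Cut.none Ext.none)

def k0_pp_303 : ∃ t, chk3 f_pp_303 t 1 1 1 = true :=
  ⟨(l 5), by decide +kernel⟩

theorem c_pp_303 : CertB 1610612736 536870912 0 536870912 858993459 64424510 3 eng mog cd1q3 cd2q0 pd3 true true true .npn 3 0 3
    ndB1q3 ndB2q0 pcB3 Cut.none Ext.none :=
  certB0 (fam := true) (s1 := true) (s2 := true) (a := 3) (b := 0) (c := 3) (cn := .npn) (n1 := ndB1q3) (n2 := ndB2q0) (pc := pcB3) (cut := Cut.none) (xt := Ext.none) (P1 := 1610612736) (W1 := 536870912) (P2 := 0) (W2 := 536870912) (P3 := 858993459) (W3 := 64424510) (N0 := 3) (En := eng) (mo := mog) (C1 := cd1q3) (C2 := cd2q0) (C3 := pd3)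
    rfl k0_pp_303

noncomputable def f_pp_313 : ℕ → ℕ → ℕ → ℕ → Bool := onCell 1610612736 536870912 536870912 536870912 858993459 64424510
    (rowB 3 eng mog cd1q3 cd2q1 pd3 0 true true true .dn 3 1 3 (qsf 1610612736 536870912 536870912 536870912 3) ndB1q3 ndB2q1 pcB3 Cut.none Ext.none)

def k0_pp_313 : ∃ t, chk3 f_pp_313 t 1 1 1 = true :=
  ⟨(l 4), by decide +kernel⟩

theorem c_pp_313 : CertB 1610612736 536870912 536870912 536870912 858993459 64424510 3 eng mog cd1q3 cd2q1 pd3 true true true .dn 3 1 3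
    ndB1q3 ndB2q1 pcB3 Cut.none Ext.none :=
  certB0 (fam := true) (s1 := true) (s2 := true) (a := 3) (b := 1) (c := 3) (cn := .dn) (n1 := ndB1q3) (n2 := ndB2q1) (pc := pcB3) (cut := Cut.none) (xt := Ext.none) (P1 := 1610612736) (W1 := 536870912) (P2 := 536870912) (W2 := 536870912) (P3 := 858993459) (W3 := 64424510) (N0 := 3) (En := eng) (mo := mog) (C1 := cd1q3) (C2 := cd2q1) (C3 := pd3)
    rfl k0_pp_313

noncomputable def f_pm_001 : ℕ → ℕ → ℕ → ℕ → Bool := onCell 0 536870912 0 536870912 858993459 64424510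
    (rowB 3 eng mog cd1q0 cd2q0 pd1 0 true true false .up 0 0 1 (qsf 0 536870912 0 536870912 1) ndB1q0 ndB2q0 pcB1 Cut.none Ext.none)

def k0_pm_001 : ∃ t, chk3 f_pm_001 t 1 1 1 = true :=
  ⟨(a (l 3) (l 3)), by decide +kernel⟩

theorem c_pm_001 : CertB 0 536870912 0 536870912 858993459 64424510 3 eng mog cd1q0 cd2q0 pd1 true true false .up 0 0 1
    ndB1q0 ndB2q0 pcB1 Cut.none Ext.none :=
  certB0 (fam := true) (s1 := true) (s2 := false) (a := 0) (b := 0) (c := 1) (cn := .up) (n1 := ndB1q0) (n2 := ndB2q0) (pc := pcB1) (cut := Cut.none) (xt := Ext.none) (P1 := 0) (W1 := 536870912) (P2 := 0) (W2 := 536870912) (P3 := 858993459) (W3 := 64424510) (N0 := 3) (En := eng) (mo := mog) (C1 := cd1q0) (C2 := cd2q0) (C3 := pd1)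
    rfl k0_pm_001

noncomputable def cut_pm_011 : Cut := Cut.of [[⟨0, 0, 0, 67108864⟩, ⟨1, 1, 0, 67108864⟩, ⟨2, 1, 0, 67108864⟩]]

noncomputable def f_pm_011 : ℕ → ℕ → ℕ → ℕ → Bool := onCell 0 536870912 536870912 536870912 858993459 64424510
    (rowB 3 eng mog cd1q0 cd2q1 pd1 1 true true false .pnn 0 1 1 (qsf 0 536870912 536870912 536870912 1) ndB1q0 ndB2q1 pcB1 cut_pm_011 Ext.none)

def k0_pm_011 : ∃ t, chk3 f_pm_011 t 1 1 1 = true :=
  ⟨(b (l 3) (b (l 3) (a (b (l 3) (a (b (l 3) (a (a (b (l 3) (l 6)) (l 3)) (l 3))) (l 3))) (l 3)))), by decide +kernel⟩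

theorem c_pm_011 : CertB 0 536870912 536870912 536870912 858993459 64424510 3 eng mog cd1q0 cd2q1 pd1 true true false .pnn 0 1 1
    ndB1q0 ndB2q1 pcB1 cut_pm_011 Ext.none :=
  certB1 (fam := true) (s1 := true) (s2 := false) (a := 0) (b := 1) (c := 1) (cn := .pnn) (n1 := ndB1q0) (n2 := ndB2q1) (pc := pcB1) (cut := cut_pm_011) (xt := Ext.none) (P1 := 0) (W1 := 536870912) (P2 := 536870912) (W2 := 536870912) (P3 := 858993459) (W3 := 64424510) (N0 := 3) (En := eng) (mo := mog) (C1 := cd1q0) (C2 := cd2q1) (C3 := pd1)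
    rfl (fun _ => rfl) k0_pm_011

noncomputable def cut_pm_012 : Cut := Cut.of [[⟨0, 0, 0, 67108864⟩, ⟨1, 1, 0, 67108864⟩, ⟨2, 1, 0, 67108864⟩]]

noncomputable def f_pm_012 : ℕ → ℕ → ℕ → ℕ → Bool := onCell 1073741824 536870912 536870912 536870912 858993459 64424510
    (rowB 3 eng mog cd1q0 cd2q1 pd2 2 true true false .pnp 0 1 2 (qsf 0 536870912 536870912 536870912 2) ndB1q0 ndB2q1 pcB2 cut_pm_012 Ext.none)

def k0_pm_012 : ∃ t, chk3 f_pm_012 t 8 1 1 = true :=
  ⟨(a (b (l 3) (b (l 3) (b (a (l 3) (a (l 3) (b (l 3) (b (l 423221319495) (a (l 16554656) (l 16531904)))))) (a (b (b (l 3) (b (l 3) (l 6))) (l 6)) (b (a (c (b (l 16573928) (a (l 16639008) (l 16616744))) (b (l 469392407927) (a (l 16610888) (l 16586672)))) (b (c (l 16571904) (l 16535456)) (c (l 16581584) (l 16547168)))) (a (l 6) (a (l 6) (a (l 6) (b (l 16557664) (l 6)))))))))) (a (b (l 3) (b (b (l 3) (c (l 16472416) (b (l 16411176) (l 16422112)))) (b (c (b (l 16421184) (a (l 16513864) (l 16473040))) (b (a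 (l 16453112) (l 16415384)) (a (l 16468984) (l 16423968)))) (b (b (a (l 16506712) (l 16460152)) (a (c (l 16535784) (l 16495792)) (l 16469816))) (b (a (c (l 16524448) (l 16508760)) (c (l 16500720) (l 16458720))) (a (l 6) (a (l 6) (b (l 16476592) (l 6))))))))) (b (b (l 3) (b (l 3) (l 16359688))) (b (b (c (l 16399592) (l 16334296)) (a (b (l 16393488) (l 16398616)) (l 16214680))) (b (b (a (l 16402928) (l 16364488)) (a (b (l 16405680) (l 16408416)) (l 16367048))) (b (a (b (l 16415432) (l 16424496)) (b (l 16372320) (l 16379936))) (b (c (a (l 16456544) (l 16412968)) (a (l 16409600) (l 16361248))) (c (a (b (l 16462600) (l 16466360)) (l 16440888)) (b (l 16398328) (a (l 16423912) (l 16373272))))))))))), by decide +kernel⟩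

def k1_pm_012 : ∃ t, chk3 f_pm_012 t 9 1 1 = true :=
  ⟨(b (a (b (a (b (l 16315376) (l 16313080)) (l 16288648)) (a (b (l 16311728) (l 16311208)) (b (l 16273728) (l 16263488)))) (b (a (l 16267072) (l 16245296)) (a (b (l 16237840) (l 16218056)) (b (l 16203184) (l 16175352))))) (a (b (a (b (l 16290008) (c (l 16299504) (l 16273904))) (b (l 16252760) (b (l 16244728) (l 16239816)))) (b (a (b (a (l 16326472) (l 16289080)) (c (l 16337888) (l 16275528))) (b (l 16235272) (l 16209856))) (b (a (c (b (l 16337792) (l 16340440)) (l 16259384)) (c (l 16257568) (l 16194112))) (a (b (a (l 16320576) (l 16294896)) (c (a (l 16373944) (l 16327008)) (a (l 16321240) (l 16272144)))) (b (c (l 16256528) (l 16195568)) (c (l 16258880) (l 16199936))))))) (b (b (c (l 16212168) (l 16130728)) (a (b (l 16184608) (l 16154432)) (l 16099768))) (b (a (b (l 16155792) (a (l 16175248) (l 16139240))) (b (l 16100392) (l 16128752))) (a (b (a (l 16167240) (l 16191832)) (a (b (l 16161976) (l 16162200))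 (c (l 16195160) (l 16084848)))) (b (c (l 16106968) (l 16037448)) (b (c (l 16095488) (l 16028216)) (c (l 16088328) (l 16022648))))))))), by decide +kernel⟩

def k2_pm_012 : ∃ t, chk3 f_pm_012 t 5 1 1 = true :=
  ⟨(b (a (b (a (a (l 16222472) (l 2)) (l 2)) (a (a (l 15963744) (a (l 16126008) (l 15899064))) (b (l 16093736) (l 16041320)))) (b (l 2) (b (l 16018960) (l 15944120)))) (a (b (b (a (a (l 16099544) (a (l 16064912) (l 16043016))) (l 15987968)) (a (a (l 16085272) (a (l 16023920) (l 16103528))) (l 15933752))) (a (a (b (b (l 16037680) (l 16019824)) (b (c (l 16034600) (l 15967568)) (c (l 16014328) (l 15951400)))) (b (a (l 15982472) (a (l 15960352) (l 16030392))) (a (b (l 15950752) (l 15929232)) (b (a (l 15926456) (l 15911320)) (a (l 15903448) (c (l 15919592) (l 15854280))))))) (b (b (l 15892392) (l 15864496)) (b (l 15836240) (c (l 15844512) (l 15769232)))))) (b (b (l 15867400) (a (l 15835064) (l 15745232))) (b (a (l 15826104) (l 15657144)) (b (a (l 15708120) (l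 15589688)) (a (l 15754720) (l 15544072))))))), by decide +kernel⟩

def k3_pm_012 : ∃ t, chk3 f_pm_012 t 3 1 1 = true :=
  ⟨(b (a (b (l 2) (a (b (l 2) (l 15842416)) (l 2))) (l 2)) (a (b (a (b (l 15736048) (l 15626968)) (b (l 15638264) (l 15500080))) (a (b (a (l 15560360) (l 15472784)) (b (l 15430008) (a (l 15427144) (l 15319960)))) (b (l 15358584) (a (l 15257288) (l 15173128))))) (b (a (b (l 2) (l 15408288)) (l 2)) (a (b (l 15238280) (l 15064592)) (b (l 15154344) (l 14952816)))))), by decide +kernel⟩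

theorem s4_pm_012 : ∃ t, chk3 f_pm_012 t 4 1 1 = true := ex3_a k0_pm_012 k1_pm_012

theorem s5_pm_012 : ∃ t, chk3 f_pm_012 t 2 1 1 = true := ex3_a s4_pm_012 k2_pm_012

theorem s6_pm_012 : ∃ t, chk3 f_pm_012 t 1 1 1 = true := ex3_a s5_pm_012 k3_pm_012

theorem c_pm_012 : CertB 0 536870912 536870912 536870912 858993459 64424510 3 eng mog cd1q0 cd2q1 pd2 true true false .pnp 0 1 2
    ndB1q0 ndB2q1 pcB2 cut_pm_012 Ext.none :=
  certB2 (fam := true) (s1 := true) (s2 := false) (a := 0) (b := 1) (c := 2) (cn := .pnp) (n1 := ndB1q0) (n2 := ndB2q1) (pc := pcB2) (cut := cut_pm_012) (xt := Ext.none) (P1 := 0) (W1 := 536870912) (P2 := 536870912) (W2 := 536870912) (P3 := 858993459) (W3 := 64424510) (N0 := 3) (En := eng) (mo := mog) (C1 := cd1q0) (C2 := cd2q1) (C3 := pd2)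
    rfl (fun _ => rfl) s6_pm_012

end Pool.Agent.Strip051.G.I8000_8600.Tab.C.BA12

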